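import Pool.Agent.Mg.F1f1ca1.G5b5a76

section

set_option autoImplicit false
set_option maxRecDepth 1000000
set_option maxHeartbeats 0

namespace Pool.Agent.MP_1f1ca1_co

noncomputable def c12_272 : List C :=
  (List.cons (C.node (nat_lit 4) (nat_lit 6) (nat_lit 7) (C.cons (nat_lit 720) (C.node (nat_lit 3) (nat_lit 7) (nat_lit 9) (C.cons (nat_lit 2696) (C.node (nat_lit 6) (nat_lit 7) (nat_lit 10) (C.cons (nat_lit 1472) (C.miq (nat_lit 879168424) (nat_lit 870433840277591038103654145)) (C.cons (nat_lit 1224) (C.node (nat_lit 4) (nat_lit 8) (nat_lit 10) (C.cons (nat_lit 1332) (C.miq (nat_lit 323094952) (nat_lit 2510943778980494294532755201)) (C.cons (nat_lit 1328) (C.node (nat_lit 2) (nat_lit 4) (nat_lit 10) (C.cons (nat_lit 1044) (C.ref (nat_lit 267) (nat_lit 205163983024656)) C.nil)) (C.cons (nat_lit 1300) (C.miq (nat_lit 323094952) (nat_lit 2510943778980494294530658049)) (C.cons (nat_lit 1296) (C.node (nat_lit 2) (nat_lit 4) (nat_lit 10) (C.cons (nat_lit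 1076) (C.ref (nat_lit 267) (nat_lit 198128827013136)) (C.cons (nat_lit 1044) (C.node (nat_lit 4) (nat_lit 5) (nat_lit 10) (C.cons (nat_lit 1072) (C.node (nat_lit 3) (nat_lit 6) (nat_lit 11) (C.cons (nat_lit 2378) (C.miq (nat_lit 1178053504) (nat_lit 1479746805232835763775278849)) (C.cons (nat_lit 2376) (C.miq (nat_lit 1178053504) (nat_lit 1479746805232835755185344257)) (C.cons (nat_lit 2122) (C.node (nat_lit 6) (nat_lit 9) (nat_lit 11) (C.cons (nat_lit 2628) (C.miq (nat_lit 658935979) (nat_lit 870475068347515104081743617)) (C.cons (nat_lit 2624) (C.ref (nat_lit 268) (nat_lit 205163983024656)) C.nil))) (C.cons (nat_lit 2120) (C.node (nat_lit 6) (nat_lit 9) (nat_lit 11) (C.cons (nat_lit 2630) (C.miq (nat_lit 658935979) (nat_lit 870475105241003251500846849)) (C.cons (nat_lit 2628) (C.miq (nat_lit 658935979) (nat_lit 870475068347515104081743617)) (C.cons (nat_lit 2626) (C.ref (nat_lit 268) (nat_lit 198128827013136)) (C.cons (nat_lit 2624) (C.node (nat_lit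 3) (nat_lit 8) (nat_lit 9) (C.cons (nat_lit 876) (C.miq (nat_lit 338823832) (nat_lit 2510943779162890079411375873)) (C.cons (nat_lit 872) (C.node (nat_lit 2) (nat_lit 3) (nat_lit 9) (C.cons (nat_lit 524) (C.node (nat_lit 3) (nat_lit 4) (nat_lit 5) (C.cons (nat_lit 58) (C.miq (nat_lit 2236257040) (nat_lit 1296039332816316022549316107)) (C.cons (nat_lit 56) (C.node (nat_lit 5) (nat_lit 6) (nat_lit 10) (C.cons (nat_lit 1122) (C.miq (nat_lit 2148874150) (nat_lit 42328489357968991171249352)) (C.cons (nat_lit 1120) (C.node (nat_lit 5) (nat_lit 7) (nat_lit 9) (C.cons (nat_lit 674) (C.miq (nat_lit 360741220) (nat_lit 349401163195656024911577808)) (C.cons (nat_lit 672) (C.node (nat_lit 1) (nat_lit 3) (nat_lit 4) (C.cons (nat_lit 282) (C.node (nat_lit 3) (nat_lit 8) (nat_lit 11) (C.cons (nat_lit 2312) (C.node (nat_lit 1) (nat_lit 3) (nat_lit 10) (C.cons (nat_lit 1038) (C.miq (nat_lit 596025664) (nat_lit 1054203477287401441912226963)) (C.cons (nat_lit 1034) (C.node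 (nat_lit 2) (nat_lit 3) (nat_lit 10) (C.cons (nat_lit 1292) (C.node (nat_lit 1) (nat_lit 6) (nat_lit 10) (C.cons (nat_lit 1346) (C.miq (nat_lit 1748148544) (nat_lit 1561952321612239988229735571)) C.nil)) C.nil)) C.nil))) C.nil)) (C.cons (nat_lit 26) (C.node (nat_lit 3) (nat_lit 4) (nat_lit 8) (C.cons (nat_lit 280) (C.node (nat_lit 1) (nat_lit 3) (nat_lit 6) (C.cons (nat_lit 78) (C.node (nat_lit 1) (nat_lit 3) (nat_lit 7) (C.cons (nat_lit 170) (C.miq (nat_lit 327447904) (nat_lit 338520830677260974077053153)) C.nil)) C.nil)) C.nil)) C.nil))) C.nil))) C.nil))) C.nil))) C.nil)) (C.cons (nat_lit 844) (C.miq (nat_lit 338823832) (nat_lit 2510943779162890079409278721)) (C.cons (nat_lit 840) (C.miq (nat_lit 1399392884) (nat_lit 1015508037399489965095650451)) (C.cons (nat_lit 812) (C.miq (nat_lit 338823832) (nat_lit 2510943779162890079407181569)) (C.cons (nat_lit 808) (C.miq (nat_lit 1767076874) (nat_lit 976834641266030986431890579)) (C.cons (nat_lit 780) (C.miq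 (nat_lit 338823832) (nat_lit 2510943779162890079405084417)) (C.cons (nat_lit 776) (C.node (nat_lit 2) (nat_lit 3) (nat_lit 9) (C.cons (nat_lit 620) (C.node (nat_lit 9) (nat_lit 10) (nat_lit 5) (C.cons (nat_lit 1570) (C.miq (nat_lit 631519504) (nat_lit 1296006792688844798759731723)) (C.cons (nat_lit 1568)
  (C.node (nat_lit 5) (nat_lit 6) (nat_lit 4) (C.cons (nat_lit 114) (C.miq (nat_lit 538285894) (nat_lit 42323840849394110429266640)) (C.cons (nat_lit 112) (C.node (nat_lit 5) (nat_lit 7) (nat_lit 3) (C.cons (nat_lit 170) (C.miq (nat_lit 354448234) (nat_lit 44751856510905002341237960)) (C.cons (nat_lit 168) (C.node (nat_lit 1) (nat_lit 9) (nat_lit 10) (C.cons (nat_lit 1542) (C.node (nat_lit 9) (nat_lit 2) (nat_lit 11) (C.cons (nat_lit 2564) (C.node (nat_lit 1) (nat_lit 9) (nat_lit 4) (C.cons (nat_lit 786) (C.miq (nat_lit 2300985760) (nat_lit 749540224935068883042501779)) (C.cons (nat_lit 530) (C.node (nat_lit 8) (nat_lit 9) (nat_lit 4) (C.cons (nat_lit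 788) (C.node (nat_lit 1) (nat_lit 6) (nat_lit 4) (C.cons (nat_lit 86) (C.miq (nat_lit 1654145440) (nat_lit 952639762433294100875773075)) C.nil)) C.nil)) C.nil))) C.nil)) (C.cons (nat_lit 1538) (C.node (nat_lit 9) (nat_lit 10) (nat_lit 2) (C.cons (nat_lit 1540) (C.node (nat_lit 1) (nat_lit 9) (nat_lit 6) (C.cons (nat_lit 834) (C.node (nat_lit 1) (nat_lit 9) (nat_lit 7) (C.cons (nat_lit 674) (C.miq (nat_lit 422212960) (nat_lit 1861767363533556040186792161)) C.nil)) C.nil)) C.nil)) C.nil))) C.nil))) C.nil))) C.nil))) (C.cons (nat_lit 588) (C.miq (nat_lit 1399392884) (nat_lit 710858730856603413069694099)) (C.cons (nat_lit 556) (C.miq (nat_lit 1767076874) (nat_lit 672185334723144434405934227)) (C.cons (nat_lit 524) (C.node (nat_lit 3) (nat_lit 5) (nat_lit 9) (C.cons (nat_lit 616) (C.node (nat_lit 2) (nat_lit 3) (nat_lit 6) (C.cons (nat_lit 332) (C.miq (nat_lit 308938807) (nat_lit 1321377522050129346723053961)) (C.cons (nat_lit 78) (C.node (nat_lit 3) (nat_lit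 6) (nat_lit 8) (C.cons (nat_lit 328) (C.node (nat_lit 1) (nat_lit 6) (nat_lit 9) (C.cons (nat_lit 834) (C.miq (nat_lit 2520482080) (nat_lit 2562993591761751434485104903)) (C.cons (nat_lit 578) (C.node (nat_lit 2) (nat_lit 4) (nat_lit 6) (C.cons (nat_lit 116) (C.miq (nat_lit 1444495920) (nat_lit 698769472393332446378788893)) C.nil)) C.nil))) C.nil)) (C.cons (nat_lit 76) (C.node (nat_lit 1) (nat_lit 3) (nat_lit 6) (C.cons (nat_lit 330) (C.node (nat_lit 1) (nat_lit 6) (nat_lit 9) (C.cons (nat_lit 582) (C.miq (nat_lit 915898656) (nat_lit 870433839785843215669985543)) (C.cons (nat_lit 578) (C.node (nat_lit 2) (nat_lit 6) (nat_lit 9) (C.cons (nat_lit 836) (C.miq (nat_lit 1182890272) (nat_lit 398967121812803515379548805)) C.nil)) C.nil))) (C.cons (nat_lit 74) (C.node (nat_lit 3) (nat_lit 6) (nat_lit 8) C.nil) C.nil))) C.nil)))) (C.cons (nat_lit 552) (C.miq (nat_lit 1767076874) (nat_lit 667349631444685917707109523)) C.nil))) C.nil))))) C.nil))))))))) C.nil)))))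 C.nil))))) C.nil)) C.nil))) C.nil))))) (C.cons (nat_lit 1216) (C.node (nat_lit 3) (nat_lit 5) (nat_lit 9) (C.cons (nat_lit 876) (C.miq (nat_lit 338823832) (nat_lit 2510943779162890079411375873)) (C.cons (nat_lit 872) (C.miq (nat_lit 980849669) (nat_lit 1470069882651327344396010033)) (C.cons (nat_lit 812) (C.miq (nat_lit 338823832) (nat_lit 2510943779162890079407181569)) (C.cons (nat_lit 808) (C.miq (nat_lit 1698263204) (nat_lit 976825344544150640345482387)) (C.cons (nat_lit 620) (C.miq (nat_lit 980849669) (nat_lit 1470065234071820769589002801)) (C.cons (nat_lit 616) (C.miq (nat_lit 980849669) (nat_lit 1470065160284844474750796337)) (C.cons (nat_lit 556) (C.miq (nat_lit 1698263204) (nat_lit 672176038001264088319526035)) (C.cons (nat_lit 552) (C.miq (nat_lit 1698263204) (nat_lit 667340334722805571620701331)) C.nil))))))))) C.nil)))) (C.cons (nat_lit 680) (C.miq (nat_lit 1698263204) (nat_lit 822082839633478105983091859)) (C.cons (nat_lit 648) (C.node (nat_lit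 3) (nat_lit 9) (nat_lit 11) (C.cons (nat_lit 2632) (C.miq (nat_lit 342035129) (nat_lit 106395120102858653107228417)) (C.cons (nat_lit 2600) (C.miq (nat_lit 1397209504) (nat_lit 183798654762544816039595777)) (C.cons (nat_lit 2568) (C.node (nat_lit 3) (nat_lit 7) (nat_lit 11) (C.cons (nat_lit 2186) (C.node (nat_lit 7) (nat_lit 9) (nat_lit 11) (C.cons (nat_lit 2688) (C.node (nat_lit 3) (nat_lit 6) (nat_lit 11)
  (C.cons (nat_lit 2376) (C.miq (nat_lit 1952647864) (nat_lit 106392722026129070848741121)) (C.cons (nat_lit 2120) (C.node (nat_lit 2) (nat_lit 7) (nat_lit 11) (C.cons (nat_lit 2436) (C.node (nat_lit 6) (nat_lit 7) (nat_lit 8) (C.cons (nat_lit 1472) (C.miq (nat_lit 879168424) (nat_lit 870433840277591038103654145)) (C.cons (nat_lit 450) (C.miq (nat_lit 457601800) (nat_lit 3810542485075457547730747785)) (C.cons (nat_lit 448) (C.node (nat_lit 1) (nat_lit 7) (nat_lit 9) (C.cons (nat_lit 930) (C.miq (nat_lit 655603856) (nat_lit 2642750156250697508267429633))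 (C.cons (nat_lit 898) (C.miq (nat_lit 655603856) (nat_lit 2642750156250697370828476161)) (C.cons (nat_lit 674) (C.miq (nat_lit 1125714805) (nat_lit 632278552866509324900501729)) (C.cons (nat_lit 642) (C.node (nat_lit 1) (nat_lit 6) (nat_lit 7) (C.cons (nat_lit 198) (C.node (nat_lit 1) (nat_lit 4) (nat_lit 6) (C.cons (nat_lit 114) (C.miq (nat_lit 1344358774) (nat_lit 317949593645382108038169296)) (C.cons (nat_lit 82) (C.node (nat_lit 2) (nat_lit 6) (nat_lit 11) (C.cons (nat_lit 2628) (C.miq (nat_lit 1177004944) (nat_lit 239388914308227304285081345)) (C.cons (nat_lit 2116) (C.node (nat_lit 6) (nat_lit 8) (nat_lit 11) (C.cons (nat_lit 2370) (C.miq (nat_lit 2551319399) (nat_lit 317959389789730580239616225)) (C.cons (nat_lit 2368) (C.node (nat_lit 1) (nat_lit 6) (nat_lit 11) (C.cons (nat_lit 2626) (C.node (nat_lit 3) (nat_lit 6) (nat_lit 9) (C.cons (nat_lit 876) (C.miq (nat_lit 338823832) (nat_lit 2510943779162890079411375873)) (C.cons (nat_lit 584) (C.miq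 (nat_lit 1402341959) (nat_lit 706054608404000530232247443)) C.nil))) C.nil)) C.nil))) C.nil))) C.nil))) (C.cons (nat_lit 194) (C.node (nat_lit 1) (nat_lit 2) (nat_lit 7) (C.cons (nat_lit 166) (C.node (nat_lit 1) (nat_lit 7) (nat_lit 8) (C.cons (nat_lit 386) (C.node (nat_lit 2) (nat_lit 4) (nat_lit 7) C.nil) C.nil)) (C.cons (nat_lit 134) (C.node (nat_lit 1) (nat_lit 5) (nat_lit 7) (C.cons (nat_lit 418) (C.node (nat_lit 4) (nat_lit 7) (nat_lit 8) C.nil) (C.cons (nat_lit 162) (C.node (nat_lit 1) (nat_lit 7) (nat_lit 8) (C.cons (nat_lit 386) (C.node (nat_lit 2) (nat_lit 4) (nat_lit 7) C.nil) C.nil)) C.nil))) C.nil))) C.nil))) C.nil))))) C.nil)))) (C.cons (nat_lit 2180) (C.node (nat_lit 7) (nat_lit 8) (nat_lit 11) (C.cons (nat_lit 2432) (C.node (nat_lit 3) (nat_lit 5) (nat_lit 7) (C.cons (nat_lit 172) (C.node (nat_lit 5) (nat_lit 7) (nat_lit 10) (C.cons (nat_lit 1440) (C.miq (nat_lit 2267784496) (nat_lit 2635529141109203424581059625)) (C.cons (nat_lit 1184)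 (C.node (nat_lit 2) (nat_lit 3) (nat_lit 10) (C.cons (nat_lit 1292) (C.miq (nat_lit 2189140816) (nat_lit 2635529141067545128040727593)) (C.cons (nat_lit 1038) (C.miq (nat_lit 1729760050) (nat_lit 1415672297699805339050706973)) (C.cons (nat_lit 1036) (C.node (nat_lit 2) (nat_lit 3) (nat_lit 9) (C.cons (nat_lit 844) (C.miq (nat_lit 338823832) (nat_lit 2510943779162890079409278721)) (C.cons (nat_lit 780) (C.miq (nat_lit 338823832) (nat_lit 2510943779162890079405084417)) (C.cons (nat_lit 588) (C.miq (nat_lit 1402341959) (nat_lit 710890311682459046931072147)) (C.cons (nat_lit 524) (C.node (nat_lit 3) (nat_lit 5) (nat_lit 11) (C.cons (nat_lit 2344) (C.miq (nat_lit 2200548720) (nat_lit 633547984081830890120218849)) (C.cons (nat_lit 2088) (C.node (nat_lit 3) (nat_lit 8) (nat_lit 11) C.nil) C.nil))) C.nil))))) C.nil)))) C.nil))) (C.cons (nat_lit 168) (C.node (nat_lit 3) (nat_lit 5) (nat_lit 11) (C.cons (nat_lit 2344) (C.node (nat_lit 3) (nat_lit 4) (nat_lit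 8) (C.cons (nat_lit 282) (C.miq (nat_lit 1798833940) (nat_lit 2833728338369245636510483603)) (C.cons (nat_lit 280) (C.node (nat_lit 4) (nat_lit 5) (nat_lit 11) (C.cons (nat_lit 2098) (C.miq (nat_lit 1476703089) (nat_lit 407446703138975707923941514)) (C.cons (nat_lit 2096) (C.node (nat_lit 3) (nat_lit 8) (nat_lit 9) (C.cons (nat_lit 844) (C.miq (nat_lit 338823832) (nat_lit 2510943779162890079409278721)) (C.cons (nat_lit 840) (C.miq (nat_lit 1402341959) (nat_lit 1015539618225345598957028499)) (C.cons (nat_lit 780)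
  (C.miq (nat_lit 338823832) (nat_lit 2510943779162890079405084417)) C.nil)))) C.nil))) C.nil))) (C.cons (nat_lit 2088) (C.node (nat_lit 3) (nat_lit 8) (nat_lit 11) (C.cons (nat_lit 2312) (C.node (nat_lit 2) (nat_lit 3) (nat_lit 7) C.nil) C.nil)) C.nil))) C.nil))) C.nil)) C.nil))) C.nil))) C.nil)) (C.cons (nat_lit 2184) (C.node (nat_lit 7) (nat_lit 9) (nat_lit 11) (C.cons (nat_lit 2690) (C.node (nat_lit 6) (nat_lit 9) (nat_lit 11) (C.cons (nat_lit 2628) (C.miq (nat_lit 658935979) (nat_lit 870475068347515104081743617)) (C.cons (nat_lit 2624) (C.node (nat_lit 2) (nat_lit 7) (nat_lit 11) (C.cons (nat_lit 2436) (C.node (nat_lit 2) (nat_lit 4) (nat_lit 7) (C.cons (nat_lit 180) (C.node (nat_lit 4) (nat_lit 7) (nat_lit 8) (C.cons (nat_lit 400) (C.node (nat_lit 2) (nat_lit 4) (nat_lit 6) (C.cons (nat_lit 86) (C.miq (nat_lit 1653293322) (nat_lit 2945001440742764979916178579)) (C.cons (nat_lit 84) (C.node (nat_lit 1) (nat_lit 2) (nat_lit 4) (C.cons (nat_lit 534)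 (C.miq (nat_lit 2185869136) (nat_lit 645637242303872914078894305)) (C.cons (nat_lit 22) (C.node (nat_lit 1) (nat_lit 4) (nat_lit 9) (C.cons (nat_lit 786) (C.miq (nat_lit 1729366936) (nat_lit 1415658351961287779276689153)) (C.cons (nat_lit 530) (C.node (nat_lit 2) (nat_lit 4) (nat_lit 9) (C.cons (nat_lit 788) (C.node (nat_lit 2) (nat_lit 4) (nat_lit 10) (C.cons (nat_lit 1044) (C.node (nat_lit 2) (nat_lit 9) (nat_lit 11) (C.cons (nat_lit 2596) (C.miq (nat_lit 1380366720) (nat_lit 101591699027620816483323649)) (C.cons (nat_lit 2564) (C.node (nat_lit 5) (nat_lit 9) (nat_lit 11) C.nil) C.nil))) C.nil)) (C.cons (nat_lit 532) (C.miq (nat_lit 2185869136) (nat_lit 643219390664643655729481953)) C.nil))) C.nil))) C.nil))) C.nil))) C.nil)) (C.cons (nat_lit 148) (C.node (nat_lit 5) (nat_lit 7) (nat_lit 9) (C.cons (nat_lit 928) (C.miq (nat_lit 1411879096) (nat_lit 178938140039381903061815041)) (C.cons (nat_lit 672) (C.node (nat_lit 7) (nat_lit 8) (nat_lit 9) (C.cons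 (nat_lit 896) (C.node (nat_lit 4) (nat_lit 8) (nat_lit 9) (C.cons (nat_lit 788) (C.miq (nat_lit 1461980041) (nat_lit 178931370566193553570270977)) (C.cons (nat_lit 786) (C.miq (nat_lit 1729366936) (nat_lit 1415658351961287779276689153)) (C.cons (nat_lit 784) (C.node (nat_lit 4) (nat_lit 8) (nat_lit 11) (C.cons (nat_lit 2354) (C.miq (nat_lit 675904336) (nat_lit 947809741413479969287375073)) (C.cons (nat_lit 2352) (C.miq (nat_lit 675904336) (nat_lit 947809741413479960697440481)) (C.cons (nat_lit 2322) (C.miq (nat_lit 1803723792) (nat_lit 2944963459759728333647447187)) (C.cons (nat_lit 2320) (C.node (nat_lit 1) (nat_lit 4) (nat_lit 9) (C.cons (nat_lit 534) (C.node (nat_lit 1) (nat_lit 9) (nat_lit 10) (C.cons (nat_lit 1570) (C.miq (nat_lit 1361094979) (nat_lit 317967136783003980704581144)) C.nil)) (C.cons (nat_lit 530) (C.node (nat_lit 2) (nat_lit 4) (nat_lit 9) C.nil) C.nil))) C.nil))))) C.nil)))) C.nil)) C.nil))) C.nil))) (C.cons (nat_lit 2180) (C.node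 (nat_lit 7) (nat_lit 8) (nat_lit 11) (C.cons (nat_lit 2432) (C.node (nat_lit 2) (nat_lit 9) (nat_lit 11) (C.cons (nat_lit 2596) (C.node (nat_lit 2) (nat_lit 9) (nat_lit 10) (C.cons (nat_lit 1542) (C.miq (nat_lit 699834736) (nat_lit 3172241513394105486667744403)) (C.cons (nat_lit 1540) (C.node (nat_lit 5) (nat_lit 10) (nat_lit 11) (C.cons (nat_lit 3106) (C.miq (nat_lit 1376434545) (nat_lit 1321413217156594439692683906)) (C.cons (nat_lit 3104) (C.node (nat_lit 1) (nat_lit 4) (nat_lit 9) (C.cons (nat_lit 786) (C.miq (nat_lit 1729366936) (nat_lit 1415658351961287779276689153)) (C.cons (nat_lit 534) (C.miq (nat_lit 1494725184) (nat_lit 3252052384943343354900580381)) (C.cons (nat_lit 530) (C.node (nat_lit 2) (nat_lit 3) (nat_lit 9) (C.cons (nat_lit 844) (C.miq (nat_lit 338823832) (nat_lit 2510943779162890079409278721)) (C.cons (nat_lit 780) (C.miq (nat_lit 338823832) (nat_lit 2510943779162890079405084417)) (C.cons (nat_lit 588) (C.miq (nat_lit 1402341959)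 (nat_lit 710890311682459046931072147)) C.nil)))) C.nil)))) C.nil))) C.nil))) (C.cons (nat_lit 2564)
  (C.node (nat_lit 5) (nat_lit 9) (nat_lit 11) (C.cons (nat_lit 2592) (C.node (nat_lit 5) (nat_lit 7) (nat_lit 9) (C.cons (nat_lit 928) (C.node (nat_lit 4) (nat_lit 8) (nat_lit 9) (C.cons (nat_lit 788) (C.miq (nat_lit 729301081) (nat_lit 2940122129921741525161607729)) (C.cons (nat_lit 786) (C.miq (nat_lit 1729366936) (nat_lit 1415658351961287779276689153)) C.nil))) C.nil)) C.nil)) C.nil))) C.nil)) C.nil))) C.nil))) (C.cons (nat_lit 2688) (C.node (nat_lit 6) (nat_lit 7) (nat_lit 10) (C.cons (nat_lit 1472) (C.miq (nat_lit 879168424) (nat_lit 870433840277591038103654145)) (C.cons (nat_lit 1224) (C.node (nat_lit 4) (nat_lit 8) (nat_lit 10) (C.cons (nat_lit 1332) (C.miq (nat_lit 323094952) (nat_lit 2510943778980494294532755201)) (C.cons (nat_lit 1328) (C.node (nat_lit 2) (nat_lit 4) (nat_lit 10) (C.cons (nat_lit 1044) (C.ref (nat_lit 269) (nat_lit 205163983024656))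 C.nil)) (C.cons (nat_lit 1300) (C.miq (nat_lit 323094952) (nat_lit 2510943778980494294530658049)) (C.cons (nat_lit 1296) (C.node (nat_lit 2) (nat_lit 4) (nat_lit 10) (C.cons (nat_lit 1076) (C.ref (nat_lit 269) (nat_lit 198128827013136)) (C.cons (nat_lit 1044) (C.node (nat_lit 4) (nat_lit 5) (nat_lit 10) (C.cons (nat_lit 1072) (C.node (nat_lit 3) (nat_lit 6) (nat_lit 11) (C.cons (nat_lit 2378) (C.miq (nat_lit 1178053504) (nat_lit 1479746805232835763775278849)) (C.cons (nat_lit 2376) (C.miq (nat_lit 1178053504) (nat_lit 1479746805232835755185344257)) (C.cons (nat_lit 2122) (C.node (nat_lit 6) (nat_lit 9) (nat_lit 11) (C.cons (nat_lit 2628) (C.miq (nat_lit 658935979) (nat_lit 870475068347515104081743617)) (C.cons (nat_lit 2624) (C.node (nat_lit 2) (nat_lit 6) (nat_lit 11) (C.cons (nat_lit 2372) (C.node (nat_lit 2) (nat_lit 6) (nat_lit 7) (C.cons (nat_lit 198) (C.miq (nat_lit 1176611712) (nat_lit 239388914308226204748418817)) (C.cons (nat_lit 196) (C.node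 (nat_lit 1) (nat_lit 6) (nat_lit 7) (C.cons (nat_lit 450) (C.miq (nat_lit 1115753319) (nat_lit 317969092280591501152618721)) (C.cons (nat_lit 194) (C.node (nat_lit 6) (nat_lit 7) (nat_lit 8) (C.cons (nat_lit 448) (C.node (nat_lit 2) (nat_lit 7) (nat_lit 11) (C.cons (nat_lit 2182) (C.miq (nat_lit 1093142454) (nat_lit 317953707441016882568890593)) (C.cons (nat_lit 2180) (C.node (nat_lit 1) (nat_lit 7) (nat_lit 11) C.nil) C.nil))) C.nil)) C.nil))) C.nil))) (C.cons (nat_lit 2116) (C.node (nat_lit 6) (nat_lit 8) (nat_lit 11) (C.cons (nat_lit 2368) (C.node (nat_lit 3) (nat_lit 5) (nat_lit 11) (C.cons (nat_lit 2344) (C.node (nat_lit 4) (nat_lit 8) (nat_lit 11) (C.cons (nat_lit 2322) (C.miq (nat_lit 649595457) (nat_lit 2862741192648798958750139539)) (C.cons (nat_lit 2320) (C.node (nat_lit 1) (nat_lit 4) (nat_lit 11) (C.cons (nat_lit 2098) (C.node (nat_lit 1) (nat_lit 8) (nat_lit 11) (C.cons (nat_lit 2434) (C.miq (nat_lit 1483846404) (nat_lit 2942564146870853087282792477))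 C.nil)) C.nil)) C.nil))) (C.cons (nat_lit 2088) (C.node (nat_lit 3) (nat_lit 8) (nat_lit 11) (C.cons (nat_lit 2312) (C.node (nat_lit 1) (nat_lit 7) (nat_lit 11) C.nil) C.nil)) C.nil))) C.nil)) C.nil))) C.nil))) (C.cons (nat_lit 2120) (C.node (nat_lit 6) (nat_lit 9) (nat_lit 11) (C.cons (nat_lit 2630) (C.miq (nat_lit 658935979) (nat_lit 870475105241003251500846849)) (C.cons (nat_lit 2628) (C.miq (nat_lit 658935979) (nat_lit 870475068347515104081743617)) (C.cons (nat_lit 2626) (C.node (nat_lit 8) (nat_lit 6) (nat_lit 11) (C.cons (nat_lit 2372) (C.node (nat_lit 8) (nat_lit 6) (nat_lit 7) (C.cons (nat_lit 450) (C.miq (nat_lit 2793491232) (nat_lit 544038220851112756774373405)) (C.cons (nat_lit 448) (C.node (nat_lit 1) (nat_lit 6) (nat_lit 7) (C.cons (nat_lit 198) (C.miq (nat_lit 2820737895) (nat_lit 317969092777113360053700833)) (C.cons (nat_lit 194) (C.node (nat_lit 6) (nat_lit 7) (nat_lit 2) (C.cons (nat_lit 196) (C.node (nat_lit 8) (nat_lit 7) (nat_lit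 11) (C.cons (nat_lit 2434) (C.miq (nat_lit 2709653430) (nat_lit 317967653179537689321670881)) (C.cons (nat_lit 2432) (C.node (nat_lit 1) (nat_lit 7) (nat_lit 11) C.nil) C.nil))) C.nil)) C.nil))) C.nil)))
  (C.cons (nat_lit 2368) (C.node (nat_lit 6) (nat_lit 2) (nat_lit 11) (C.cons (nat_lit 2116) (C.node (nat_lit 9) (nat_lit 5) (nat_lit 11) (C.cons (nat_lit 2596) (C.node (nat_lit 10) (nat_lit 2) (nat_lit 11) (C.cons (nat_lit 3078) (C.miq (nat_lit 2259813537) (nat_lit 2558091885893117324380472467)) (C.cons (nat_lit 3076) (C.node (nat_lit 1) (nat_lit 10) (nat_lit 11) (C.cons (nat_lit 3106) (C.node (nat_lit 1) (nat_lit 2) (nat_lit 11) (C.cons (nat_lit 2182) (C.miq (nat_lit 1383184650) (nat_lit 2637933434716925610947710721)) C.nil)) C.nil)) C.nil))) (C.cons (nat_lit 2592) (C.node (nat_lit 9) (nat_lit 2) (nat_lit 11) (C.cons (nat_lit 2564) (C.node (nat_lit 1) (nat_lit 7) (nat_lit 11) C.nil) C.nil)) C.nil))) C.nil)) C.nil))) (C.cons (nat_lit 2624) (C.node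 (nat_lit 3) (nat_lit 8) (nat_lit 9) (C.cons (nat_lit 876) (C.miq (nat_lit 338823832) (nat_lit 2510943779162890079411375873)) (C.cons (nat_lit 872) (C.node (nat_lit 2) (nat_lit 3) (nat_lit 9) (C.cons (nat_lit 524) (C.node (nat_lit 3) (nat_lit 4) (nat_lit 5) (C.cons (nat_lit 58) (C.miq (nat_lit 2236257040) (nat_lit 1296039332816316022549316107)) (C.cons (nat_lit 56) (C.node (nat_lit 5) (nat_lit 6) (nat_lit 10) (C.cons (nat_lit 1122) (C.miq (nat_lit 2148874150) (nat_lit 42328489357968991171249352)) (C.cons (nat_lit 1120) (C.node (nat_lit 5) (nat_lit 7) (nat_lit 9) (C.cons (nat_lit 674) (C.miq (nat_lit 360741220) (nat_lit 349401163195656024911577808)) (C.cons (nat_lit 672) (C.node (nat_lit 1) (nat_lit 3) (nat_lit 4) (C.cons (nat_lit 26) (C.node (nat_lit 3) (nat_lit 4) (nat_lit 8) C.nil) C.nil)) C.nil))) C.nil))) C.nil))) C.nil)) (C.cons (nat_lit 844) (C.miq (nat_lit 338823832) (nat_lit 2510943779162890079409278721)) (C.cons (nat_lit 840) (C.miq (nat_lit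 1399392884) (nat_lit 1015508037399489965095650451)) (C.cons (nat_lit 812) (C.miq (nat_lit 338823832) (nat_lit 2510943779162890079407181569)) (C.cons (nat_lit 808) (C.miq (nat_lit 1767076874) (nat_lit 976834641266030986431890579)) (C.cons (nat_lit 780) (C.miq (nat_lit 338823832) (nat_lit 2510943779162890079405084417)) (C.cons (nat_lit 776) (C.node (nat_lit 2) (nat_lit 3) (nat_lit 9) (C.cons (nat_lit 620) (C.node (nat_lit 9) (nat_lit 10) (nat_lit 5) (C.cons (nat_lit 1570) (C.miq (nat_lit 631519504) (nat_lit 1296006792688844798759731723)) (C.cons (nat_lit 1568) (C.node (nat_lit 5) (nat_lit 6) (nat_lit 4) (C.cons (nat_lit 114) (C.miq (nat_lit 538285894) (nat_lit 42323840849394110429266640)) (C.cons (nat_lit 112) (C.node (nat_lit 5) (nat_lit 7) (nat_lit 3) (C.cons (nat_lit 170) (C.miq (nat_lit 354448234) (nat_lit 44751856510905002341237960)) (C.cons (nat_lit 168) (C.node (nat_lit 1) (nat_lit 9) (nat_lit 10) (C.cons (nat_lit 1538) (C.node (nat_lit 9) (nat_lit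 10) (nat_lit 2) C.nil) C.nil)) C.nil))) C.nil))) C.nil))) (C.cons (nat_lit 588) (C.miq (nat_lit 1399392884) (nat_lit 710858730856603413069694099)) (C.cons (nat_lit 556) (C.miq (nat_lit 1767076874) (nat_lit 672185334723144434405934227)) (C.cons (nat_lit 524) (C.node (nat_lit 3) (nat_lit 5) (nat_lit 9) C.nil) C.nil))))) C.nil))))))))) C.nil))))) C.nil))))) C.nil)) C.nil))) C.nil))))) (C.cons (nat_lit 1216) (C.node (nat_lit 3) (nat_lit 5) (nat_lit 9) (C.cons (nat_lit 876) (C.miq (nat_lit 338823832) (nat_lit 2510943779162890079411375873)) (C.cons (nat_lit 872) (C.miq (nat_lit 980849669) (nat_lit 1470069882651327344396010033)) (C.cons (nat_lit 812) (C.miq (nat_lit 338823832) (nat_lit 2510943779162890079407181569)) (C.cons (nat_lit 808) (C.miq (nat_lit 1698263204) (nat_lit 976825344544150640345482387)) (C.cons (nat_lit 620) (C.miq (nat_lit 980849669) (nat_lit 1470065234071820769589002801)) (C.cons (nat_lit 616) (C.miq (nat_lit 980849669) (nat_lit 1470065160284844474750796337))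 (C.cons (nat_lit 556) (C.miq (nat_lit 1698263204) (nat_lit 672176038001264088319526035)) (C.cons (nat_lit 552) (C.miq (nat_lit 1698263204) (nat_lit 667340334722805571620701331)) C.nil))))))))) C.nil)))) C.nil))) C.nil))) C.nil)))) C.nil)))) (C.cons (nat_lit 212)
  (C.miq (nat_lit 698642614) (nat_lit 1885928189490132996120905953)) (C.cons (nat_lit 208) (C.node (nat_lit 4) (nat_lit 7) (nat_lit 9) (C.cons (nat_lit 912) (C.node (nat_lit 2) (nat_lit 4) (nat_lit 7) (C.cons (nat_lit 180) (C.node (nat_lit 2) (nat_lit 4) (nat_lit 8) (C.cons (nat_lit 1300) (C.miq (nat_lit 323094952) (nat_lit 2510943778980494294530658049)) (C.cons (nat_lit 276) (C.node (nat_lit 2) (nat_lit 4) (nat_lit 10) (C.cons (nat_lit 1044) (C.node (nat_lit 4) (nat_lit 5) (nat_lit 10) (C.cons (nat_lit 1328) (C.miq (nat_lit 2686814580) (nat_lit 44754753683019321560007568)) (C.cons (nat_lit 1072) (C.node (nat_lit 4) (nat_lit 8) (nat_lit 10) (C.cons (nat_lit 1296) (C.node (nat_lit 2) (nat_lit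 8) (nat_lit 9) (C.cons (nat_lit 876) (C.miq (nat_lit 338823832) (nat_lit 2510943779162890079411375873)) (C.cons (nat_lit 868) (C.miq (nat_lit 2760247186) (nat_lit 407428163831013711211135621)) (C.cons (nat_lit 844) (C.miq (nat_lit 338823832) (nat_lit 2510943779162890079409278721)) (C.cons (nat_lit 836) (C.miq (nat_lit 2760247186) (nat_lit 407428163831013711209038469)) (C.cons (nat_lit 812) (C.miq (nat_lit 338823832) (nat_lit 2510943779162890079407181569)) (C.cons (nat_lit 804) (C.miq (nat_lit 2236256880) (nat_lit 1296039332797176248119001733)) (C.cons (nat_lit 780) (C.miq (nat_lit 338823832) (nat_lit 2510943779162890079405084417)) (C.cons (nat_lit 772) (C.node (nat_lit 4) (nat_lit 5) (nat_lit 6) (C.cons (nat_lit 114) (C.node (nat_lit 1) (nat_lit 2) (nat_lit 4) (C.cons (nat_lit 534) (C.miq (nat_lit 2422286164) (nat_lit 81007880657076638052384948)) (C.cons (nat_lit 22) (C.node (nat_lit 1) (nat_lit 4) (nat_lit 9) C.nil) C.nil))) (C.cons (nat_lit 112) (C.node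 (nat_lit 4) (nat_lit 5) (nat_lit 11) (C.cons (nat_lit 2354) (C.miq (nat_lit 2554465111) (nat_lit 333675425444720690790140129)) (C.cons (nat_lit 2352) (C.miq (nat_lit 2554465111) (nat_lit 333675425444720682200205537)) (C.cons (nat_lit 2098) (C.node (nat_lit 4) (nat_lit 8) (nat_lit 11) C.nil) C.nil)))) C.nil))) C.nil))))))))) C.nil)) C.nil))) C.nil)) C.nil))) (C.cons (nat_lit 148) (C.node (nat_lit 4) (nat_lit 5) (nat_lit 7) (C.cons (nat_lit 176) (C.node (nat_lit 6) (nat_lit 7) (nat_lit 10) (C.cons (nat_lit 1472) (C.miq (nat_lit 879168424) (nat_lit 251463820634900900654092033)) (C.cons (nat_lit 1224) (C.node (nat_lit 3) (nat_lit 6) (nat_lit 9) (C.cons (nat_lit 2632) (C.miq (nat_lit 342035129) (nat_lit 106395120102858653107228417)) (C.cons (nat_lit 876) (C.miq (nat_lit 338823832) (nat_lit 2510943779162890079411375873)) (C.cons (nat_lit 872) (C.miq (nat_lit 2761230211) (nat_lit 678227030915856582478135689)) (C.cons (nat_lit 844) (C.miq (nat_lit 338823832)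 (nat_lit 2510943779162890079409278721)) (C.cons (nat_lit 840) (C.miq (nat_lit 1446578084) (nat_lit 1015508037739511737017173139)) (C.cons (nat_lit 620) (C.miq (nat_lit 2490781859) (nat_lit 251468007619081059682485289)) (C.cons (nat_lit 616) (C.miq (nat_lit 2490781859) (nat_lit 251467933832104764844278825)) (C.cons (nat_lit 588) (C.miq (nat_lit 1446578084) (nat_lit 710858731196625184991216787)) (C.cons (nat_lit 584) (C.miq (nat_lit 1446578084) (nat_lit 706023027918166668292392083)) C.nil)))))))))) (C.cons (nat_lit 1216) (C.node (nat_lit 3) (nat_lit 7) (nat_lit 10) (C.cons (nat_lit 1164) (C.node (nat_lit 5) (nat_lit 7) (nat_lit 10) (C.cons (nat_lit 1440) (C.node (nat_lit 2) (nat_lit 8) (nat_lit 10) (C.cons (nat_lit 1300) (C.miq (nat_lit 323094952) (nat_lit 2510943778980494294530658049)) (C.cons (nat_lit 1284) (C.node (nat_lit 4) (nat_lit 8) (nat_lit 10) (C.cons (nat_lit 1296) (C.node (nat_lit 2) (nat_lit 4) (nat_lit 10) (C.cons (nat_lit 1076) (C.miq (nat_lit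 1476699954) (nat_lit 407427850312078997875131532)) (C.cons (nat_lit 1044) (C.node (nat_lit 4) (nat_lit 5) (nat_lit 10) (C.cons (nat_lit 1072) (C.node (nat_lit 5) (nat_lit 6) (nat_lit 10) (C.cons (nat_lit 1122) (C.node (nat_lit 1) (nat_lit 3) (nat_lit 10) (C.cons (nat_lit 1290)
  (C.miq (nat_lit 319203445) (nat_lit 88272282441823039898322336)) C.nil)) C.nil)) C.nil)) C.nil))) C.nil)) C.nil))) (C.cons (nat_lit 1184) (C.node (nat_lit 7) (nat_lit 8) (nat_lit 10) (C.cons (nat_lit 1408) (C.node (nat_lit 2) (nat_lit 8) (nat_lit 10) (C.cons (nat_lit 1332) (C.miq (nat_lit 323094952) (nat_lit 2510943778980494294532755201)) (C.cons (nat_lit 1316) (C.node (nat_lit 2) (nat_lit 4) (nat_lit 8) (C.cons (nat_lit 276) (C.node (nat_lit 2) (nat_lit 4) (nat_lit 10) (C.cons (nat_lit 1044) (C.node (nat_lit 4) (nat_lit 5) (nat_lit 10) (C.cons (nat_lit 1072) (C.node (nat_lit 4) (nat_lit 8) (nat_lit 10) C.nil) C.nil)) C.nil)) C.nil)) (C.cons (nat_lit 1300) (C.miq (nat_lit 323094952)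 (nat_lit 2510943778980494294530658049)) (C.cons (nat_lit 1284) (C.node (nat_lit 2) (nat_lit 4) (nat_lit 8) (C.cons (nat_lit 308) (C.node (nat_lit 8) (nat_lit 10) (nat_lit 4) (C.cons (nat_lit 1296) (C.node (nat_lit 10) (nat_lit 5) (nat_lit 4) (C.cons (nat_lit 1072) (C.node (nat_lit 10) (nat_lit 2) (nat_lit 4) C.nil) C.nil)) C.nil)) (C.cons (nat_lit 276) (C.node (nat_lit 2) (nat_lit 4) (nat_lit 10) (C.cons (nat_lit 1076) (C.node (nat_lit 4) (nat_lit 8) (nat_lit 10) (C.cons (nat_lit 1296) (C.node (nat_lit 5) (nat_lit 9) (nat_lit 10) (C.cons (nat_lit 1570) (C.miq (nat_lit 438539584) (nat_lit 1407199302120499244410143281)) (C.cons (nat_lit 1568) (C.node (nat_lit 4) (nat_lit 5) (nat_lit 6) C.nil) C.nil))) C.nil)) (C.cons (nat_lit 1044) (C.node (nat_lit 4) (nat_lit 5) (nat_lit 10) (C.cons (nat_lit 1328) (C.node (nat_lit 5) (nat_lit 3) (nat_lit 4) (C.cons (nat_lit 58) (C.miq (nat_lit 344536480) (nat_lit 1102549995152023610045039657)) (C.cons (nat_lit 56) (C.node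 (nat_lit 10) (nat_lit 5) (nat_lit 6) C.nil) C.nil))) (C.cons (nat_lit 1072) (C.node (nat_lit 4) (nat_lit 8) (nat_lit 10) C.nil) C.nil))) C.nil))) C.nil))) C.nil))))) C.nil)) C.nil))) (C.cons (nat_lit 1160) (C.ref (nat_lit 270) (nat_lit 205163983024656)) C.nil))) C.nil)))) C.nil)) C.nil))) (C.cons (nat_lit 656) (C.node (nat_lit 6) (nat_lit 7) (nat_lit 10) (C.cons (nat_lit 1472) (C.miq (nat_lit 879168424) (nat_lit 251463820634900900654092033)) (C.cons (nat_lit 1224) (C.node (nat_lit 3) (nat_lit 6) (nat_lit 9) (C.cons (nat_lit 2632) (C.miq (nat_lit 342035129) (nat_lit 106395120102858653107228417)) (C.cons (nat_lit 876) (C.miq (nat_lit 338823832) (nat_lit 2510943779162890079411375873)) (C.cons (nat_lit 872) (C.miq (nat_lit 2490781859) (nat_lit 251472656198587634489492521)) (C.cons (nat_lit 844) (C.miq (nat_lit 338823832) (nat_lit 2510943779162890079409278721)) (C.cons (nat_lit 840) (C.miq (nat_lit 1446578084) (nat_lit 1015508037739511737017173139)) (C.cons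 (nat_lit 620) (C.miq (nat_lit 2490781859) (nat_lit 251468007619081059682485289)) (C.cons (nat_lit 616) (C.miq (nat_lit 2490781859) (nat_lit 251467933832104764844278825)) (C.cons (nat_lit 588) (C.miq (nat_lit 1446578084) (nat_lit 710858731196625184991216787)) (C.cons (nat_lit 584) (C.miq (nat_lit 1446578084) (nat_lit 706023027918166668292392083)) C.nil)))))))))) (C.cons (nat_lit 1216) (C.node (nat_lit 3) (nat_lit 7) (nat_lit 10) (C.cons (nat_lit 1164) (C.node (nat_lit 5) (nat_lit 7) (nat_lit 10) (C.cons (nat_lit 1440) (C.node (nat_lit 2) (nat_lit 8) (nat_lit 10) (C.cons (nat_lit 1300) (C.miq (nat_lit 323094952) (nat_lit 2510943778980494294530658049)) (C.cons (nat_lit 1284) (C.node (nat_lit 4) (nat_lit 8) (nat_lit 10) (C.cons (nat_lit 1296) (C.node (nat_lit 2) (nat_lit 4) (nat_lit 10) (C.cons (nat_lit 1076) (C.miq (nat_lit 1476699954) (nat_lit 407427850312078997875131532)) (C.cons (nat_lit 1044) (C.node (nat_lit 4) (nat_lit 5) (nat_lit 10) (C.cons (nat_lit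 1072) (C.node (nat_lit 4) (nat_lit 7) (nat_lit 8) (C.cons (nat_lit 404) (C.miq (nat_lit 2231663154) (nat_lit 678214837693741286408651916)) (C.cons (nat_lit 400) (C.node (nat_lit 2) (nat_lit 3) (nat_lit 8) (C.cons (nat_lit 876) (C.miq (nat_lit 338823832) (nat_lit 2510943779162890079411375873)) (C.cons (nat_lit 844) (C.miq (nat_lit 338823832) (nat_lit 2510943779162890079409278721))
  (C.cons (nat_lit 812) (C.miq (nat_lit 338823832) (nat_lit 2510943779162890079407181569)) (C.cons (nat_lit 780) (C.miq (nat_lit 338823832) (nat_lit 2510943779162890079405084417)) (C.cons (nat_lit 364) (C.miq (nat_lit 614805624) (nat_lit 1295975193826353861690917257)) (C.cons (nat_lit 332) (C.miq (nat_lit 1654948720) (nat_lit 1262124772323880390198755721)) (C.cons (nat_lit 300) (C.miq (nat_lit 614805624) (nat_lit 1295974013234733144279613833)) (C.cons (nat_lit 268) (C.node (nat_lit 2) (nat_lit 4) (nat_lit 7) (C.cons (nat_lit 180) (C.node (nat_lit 2) (nat_lit 8) (nat_lit 11)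 (C.cons (nat_lit 2436) (C.miq (nat_lit 846531466) (nat_lit 217626293897705741382323969)) (C.cons (nat_lit 2372) (C.miq (nat_lit 1387820042) (nat_lit 2867598607488040960864093331)) (C.cons (nat_lit 2340) (C.miq (nat_lit 681882992) (nat_lit 1566806176766658135490496737)) (C.cons (nat_lit 2308) (C.miq (nat_lit 1387820042) (nat_lit 2790227355032704693682898067)) C.nil))))) (C.cons (nat_lit 148) (C.node (nat_lit 4) (nat_lit 5) (nat_lit 7) (C.cons (nat_lit 176) (C.node (nat_lit 5) (nat_lit 6) (nat_lit 10) (C.cons (nat_lit 1122) (C.node (nat_lit 1) (nat_lit 3) (nat_lit 10) (C.cons (nat_lit 1290) (C.miq (nat_lit 319203445) (nat_lit 88272282441823039898322336)) C.nil)) C.nil)) C.nil)) C.nil))) C.nil))))))))) C.nil))) C.nil)) C.nil))) C.nil)) C.nil))) (C.cons (nat_lit 1184) (C.node (nat_lit 7) (nat_lit 8) (nat_lit 10) (C.cons (nat_lit 1408) (C.ref (nat_lit 270) (nat_lit 198128827013136)) C.nil)) C.nil))) (C.cons (nat_lit 1160) (C.node (nat_lit 3) (nat_lit 9)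 (nat_lit 11) (C.cons (nat_lit 2696) (C.node (nat_lit 4) (nat_lit 8) (nat_lit 10) (C.cons (nat_lit 1332) (C.miq (nat_lit 323094952) (nat_lit 2510943778980494294532755201)) (C.cons (nat_lit 1328) (C.node (nat_lit 2) (nat_lit 4) (nat_lit 10) (C.cons (nat_lit 1044) (C.node (nat_lit 3) (nat_lit 4) (nat_lit 5) (C.cons (nat_lit 58) (C.miq (nat_lit 277166500) (nat_lit 349380631927012016520168984)) (C.cons (nat_lit 56) (C.node (nat_lit 1) (nat_lit 3) (nat_lit 4) (C.cons (nat_lit 282) (C.node (nat_lit 4) (nat_lit 8) (nat_lit 11) (C.cons (nat_lit 2320) (C.node (nat_lit 4) (nat_lit 7) (nat_lit 8) (C.cons (nat_lit 404) (C.miq (nat_lit 1949902864) (nat_lit 1885936176862466157008584967)) (C.cons (nat_lit 400) (C.node (nat_lit 1) (nat_lit 4) (nat_lit 11) (C.cons (nat_lit 2098) (C.node (nat_lit 1) (nat_lit 2) (nat_lit 4) (C.cons (nat_lit 598) (C.miq (nat_lit 3021514272) (nat_lit 340987935962524240654566469)) (C.cons (nat_lit 534) (C.miq (nat_lit 882344224) (nat_lit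 793062587316995943448248583)) (C.cons (nat_lit 86) (C.miq (nat_lit 3021514272) (nat_lit 340987935962522041631310917)) C.nil)))) C.nil)) C.nil))) C.nil)) (C.cons (nat_lit 26) (C.node (nat_lit 3) (nat_lit 4) (nat_lit 8) (C.cons (nat_lit 280) (C.node (nat_lit 4) (nat_lit 5) (nat_lit 7) (C.cons (nat_lit 180) (C.node (nat_lit 4) (nat_lit 7) (nat_lit 8) C.nil) (C.cons (nat_lit 176) (C.node (nat_lit 2) (nat_lit 4) (nat_lit 7) (C.cons (nat_lit 148) (C.node (nat_lit 4) (nat_lit 7) (nat_lit 8) C.nil) C.nil)) C.nil))) C.nil)) C.nil))) C.nil))) C.nil)) (C.cons (nat_lit 1300) (C.miq (nat_lit 323094952) (nat_lit 2510943778980494294530658049)) (C.cons (nat_lit 1296) (C.node (nat_lit 2) (nat_lit 4) (nat_lit 10) (C.cons (nat_lit 1076) (C.node (nat_lit 9) (nat_lit 10) (nat_lit 5) (C.cons (nat_lit 1570) (C.miq (nat_lit 270897994) (nat_lit 44759216861157336997430808)) (C.cons (nat_lit 1568) (C.node (nat_lit 1) (nat_lit 9) (nat_lit 10) (C.cons (nat_lit 1542) (C.node (nat_lit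 10) (nat_lit 2) (nat_lit 11) (C.cons (nat_lit 3076) (C.node (nat_lit 10) (nat_lit 7) (nat_lit 2) (C.cons (nat_lit 1412) (C.miq (nat_lit 2056487440) (nat_lit 1885931528566691770384711943)) (C.cons (nat_lit 1156) (C.node (nat_lit 1) (nat_lit 10) (nat_lit 11) (C.cons (nat_lit 3106) (C.node (nat_lit 1) (nat_lit 8) (nat_lit 10) (C.cons (nat_lit 1354) (C.miq (nat_lit 3121759872) (nat_lit 1864201928620414224130572625)) (C.cons (nat_lit 1290) (C.miq (nat_lit 2587304320) (nat_lit 1402365849336937339941355783))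
  (C.cons (nat_lit 1346) (C.miq (nat_lit 3121759872) (nat_lit 1864201928620414189770834257)) C.nil)))) C.nil)) C.nil))) C.nil)) (C.cons (nat_lit 1538) (C.node (nat_lit 9) (nat_lit 10) (nat_lit 2) (C.cons (nat_lit 1540) (C.node (nat_lit 10) (nat_lit 5) (nat_lit 7) (C.cons (nat_lit 1440) (C.node (nat_lit 10) (nat_lit 7) (nat_lit 2) C.nil) (C.cons (nat_lit 1184) (C.node (nat_lit 8) (nat_lit 10) (nat_lit 7) (C.cons (nat_lit 1408) (C.node (nat_lit 10) (nat_lit 7) (nat_lit 2) C.nil) C.nil)) C.nil))) C.nil)) C.nil))) C.nil))) (C.cons (nat_lit 1044) (C.node (nat_lit 4) (nat_lit 5) (nat_lit 10) (C.cons (nat_lit 1072) (C.node (nat_lit 3) (nat_lit 6) (nat_lit 7) (C.cons (nat_lit 206) (C.miq (nat_lit 714301623) (nat_lit 1885928078935769343400085729)) (C.cons (nat_lit 204) (C.miq (nat_lit 714301623) (nat_lit 1885928042042281195980982497)) (C.cons (nat_lit 202) (C.node (nat_lit 3) (nat_lit 6) (nat_lit 11) (C.cons (nat_lit 2376) (C.miq (nat_lit 1178053504) (nat_lit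 244224617586684738635632385)) (C.cons (nat_lit 2120) (C.node (nat_lit 6) (nat_lit 7) (nat_lit 9) (C.cons (nat_lit 960) (C.miq (nat_lit 929347968) (nat_lit 251494885126144623480213249)) (C.cons (nat_lit 704) (C.node (nat_lit 6) (nat_lit 9) (nat_lit 11) (C.cons (nat_lit 2630) (C.miq (nat_lit 658935979) (nat_lit 251505085598313114051284737)) (C.cons (nat_lit 2628) (C.miq (nat_lit 658935979) (nat_lit 251505048704824966632181505)) (C.cons (nat_lit 2626) (C.miq (nat_lit 2299726695) (nat_lit 632275454310028690368104673)) (C.cons (nat_lit 2624) (C.node (nat_lit 2) (nat_lit 3) (nat_lit 7) (C.cons (nat_lit 172) (C.node (nat_lit 3) (nat_lit 8) (nat_lit 11) (C.cons (nat_lit 2346) (C.miq (nat_lit 657525176) (nat_lit 244207867237409418266676993)) (C.cons (nat_lit 2344) (C.miq (nat_lit 2149955955) (nat_lit 44773495574998210463926920)) (C.cons (nat_lit 2314) (C.miq (nat_lit 657525176) (nat_lit 244207867237409418264579841)) (C.cons (nat_lit 2312) (C.node (nat_lit 2)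 (nat_lit 9) (nat_lit 11) (C.cons (nat_lit 2598) (C.miq (nat_lit 406528121) (nat_lit 2795084419664155756309512837)) (C.cons (nat_lit 2596) (C.miq (nat_lit 1401628425) (nat_lit 2795084382745053386084778629)) (C.cons (nat_lit 2566) (C.miq (nat_lit 406528121) (nat_lit 2795083829368345397603861125)) (C.cons (nat_lit 2564) (C.node (nat_lit 7) (nat_lit 8) (nat_lit 9) (C.cons (nat_lit 930) (C.miq (nat_lit 594611096) (nat_lit 244207867640481584823537409)) (C.cons (nat_lit 928) (C.miq (nat_lit 1404596745) (nat_lit 2795053613575945671277609605)) (C.cons (nat_lit 898) (C.miq (nat_lit 594611096) (nat_lit 244207867640481584821440257)) (C.cons (nat_lit 896) (C.node (nat_lit 2) (nat_lit 6) (nat_lit 7) (C.cons (nat_lit 196) (C.node (nat_lit 6) (nat_lit 7) (nat_lit 8) C.nil) C.nil)) C.nil))))) C.nil))))) C.nil))))) (C.cons (nat_lit 140) (C.node (nat_lit 3) (nat_lit 5) (nat_lit 7) (C.cons (nat_lit 168) (C.node (nat_lit 2) (nat_lit 6) (nat_lit 7) (C.cons (nat_lit 452)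 (C.node (nat_lit 2) (nat_lit 6) (nat_lit 11) C.nil) (C.cons (nat_lit 196) (C.node (nat_lit 6) (nat_lit 7) (nat_lit 8) C.nil) C.nil))) C.nil)) C.nil))) C.nil))))) C.nil))) C.nil))) (C.cons (nat_lit 200) (C.node (nat_lit 3) (nat_lit 6) (nat_lit 11) (C.cons (nat_lit 2378) (C.miq (nat_lit 1178053504) (nat_lit 241806765947455488876154625)) (C.cons (nat_lit 2376) (C.miq (nat_lit 1178053504) (nat_lit 241806765947455480286220033)) (C.cons (nat_lit 2122) (C.node (nat_lit 6) (nat_lit 9) (nat_lit 11) (C.cons (nat_lit 2628) (C.miq (nat_lit 658935979) (nat_lit 251505048704824966632181505)) (C.cons (nat_lit 2624) (C.node (nat_lit 6) (nat_lit 7) (nat_lit 9) (C.cons (nat_lit 962) (C.miq (nat_lit 929347968) (nat_lit 251494885126144632070147841)) (C.cons (nat_lit 960) (C.miq (nat_lit 929347968) (nat_lit 251494885126144623480213249)) (C.cons (nat_lit 706) (C.miq (nat_lit 588843879) (nat_lit 632280102393011241627027681)) (C.cons (nat_lit 704) (C.node (nat_lit 2) (nat_lit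 6) (nat_lit 11) (C.cons (nat_lit 2372) (C.node (nat_lit 2) (nat_lit 6) (nat_lit 7) (C.cons (nat_lit 198)
  (C.miq (nat_lit 1176611712) (nat_lit 239388914308226204748418817)) (C.cons (nat_lit 196) (C.node (nat_lit 1) (nat_lit 6) (nat_lit 7) (C.cons (nat_lit 450) (C.miq (nat_lit 1115753319) (nat_lit 317969092280591501152618721)) C.nil)) C.nil))) (C.cons (nat_lit 2116) (C.node (nat_lit 6) (nat_lit 8) (nat_lit 11) (C.cons (nat_lit 2368) (C.node (nat_lit 3) (nat_lit 6) (nat_lit 10) (C.cons (nat_lit 1352) (C.node (nat_lit 1) (nat_lit 6) (nat_lit 10) C.nil) C.nil)) C.nil)) C.nil))) C.nil))))) C.nil))) (C.cons (nat_lit 2120) (C.node (nat_lit 6) (nat_lit 7) (nat_lit 9) (C.cons (nat_lit 962) (C.miq (nat_lit 929347968) (nat_lit 251494885126144632070147841)) (C.cons (nat_lit 960) (C.miq (nat_lit 929347968) (nat_lit 251494885126144623480213249)) (C.cons (nat_lit 706) (C.node (nat_lit 6) (nat_lit 9) (nat_lit 11) (C.cons (nat_lit 2628) (C.miq (nat_lit 658935979) (nat_lit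 251505048704824966632181505)) (C.cons (nat_lit 2624) (C.node (nat_lit 8) (nat_lit 9) (nat_lit 7) (C.cons (nat_lit 928) (C.node (nat_lit 9) (nat_lit 2) (nat_lit 11) (C.cons (nat_lit 2598) (C.miq (nat_lit 2274427826) (nat_lit 853506480252250828204017693)) (C.cons (nat_lit 2596) (C.miq (nat_lit 545633145) (nat_lit 349427450200868396097079944)) (C.cons (nat_lit 2566) (C.miq (nat_lit 2274427826) (nat_lit 853506480252250828201920541)) (C.cons (nat_lit 2564) (C.node (nat_lit 8) (nat_lit 3) (nat_lit 11) (C.cons (nat_lit 2346) (C.miq (nat_lit 312180851) (nat_lit 3099729077627536815860220297)) (C.cons (nat_lit 2344) (C.miq (nat_lit 1496024835) (nat_lit 3099729040921229527913136521)) (C.cons (nat_lit 2314) (C.miq (nat_lit 312180851) (nat_lit 3099728487331726457154568585)) (C.cons (nat_lit 2312) (C.node (nat_lit 7) (nat_lit 2) (nat_lit 3) (C.cons (nat_lit 174) (C.miq (nat_lit 2305887026) (nat_lit 853506481222776547743500317)) (C.cons (nat_lit 172) (C.miq (nat_lit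 1504868355) (nat_lit 3099688974593115157482504585)) (C.cons (nat_lit 142) (C.miq (nat_lit 2305887026) (nat_lit 853506481222776547741403165)) (C.cons (nat_lit 140) (C.node (nat_lit 8) (nat_lit 6) (nat_lit 7) (C.cons (nat_lit 448) (C.node (nat_lit 6) (nat_lit 7) (nat_lit 2) C.nil) C.nil)) C.nil))))) C.nil))))) C.nil))))) (C.cons (nat_lit 896) (C.node (nat_lit 9) (nat_lit 5) (nat_lit 7) (C.cons (nat_lit 672) (C.node (nat_lit 8) (nat_lit 6) (nat_lit 7) (C.cons (nat_lit 452) (C.node (nat_lit 8) (nat_lit 6) (nat_lit 11) C.nil) (C.cons (nat_lit 448) (C.node (nat_lit 6) (nat_lit 7) (nat_lit 2) C.nil) C.nil))) C.nil)) C.nil))) C.nil))) (C.cons (nat_lit 704) (C.node (nat_lit 6) (nat_lit 9) (nat_lit 11) (C.cons (nat_lit 2630) (C.miq (nat_lit 658935979) (nat_lit 251505085598313114051284737)) (C.cons (nat_lit 2628) (C.miq (nat_lit 658935979) (nat_lit 251505048704824966632181505)) (C.cons (nat_lit 2626) (C.node (nat_lit 8) (nat_lit 6) (nat_lit 11) (C.cons (nat_lit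 2372) (C.node (nat_lit 8) (nat_lit 6) (nat_lit 7) (C.cons (nat_lit 450) (C.miq (nat_lit 2793491232) (nat_lit 544038220851112756774373405)) (C.cons (nat_lit 448) (C.node (nat_lit 1) (nat_lit 6) (nat_lit 7) (C.cons (nat_lit 198) (C.miq (nat_lit 2820737895) (nat_lit 317969092777113360053700833)) C.nil)) C.nil))) (C.cons (nat_lit 2368) (C.node (nat_lit 6) (nat_lit 2) (nat_lit 11) (C.cons (nat_lit 2116) (C.node (nat_lit 9) (nat_lit 6) (nat_lit 4) (C.cons (nat_lit 596) (C.node (nat_lit 1) (nat_lit 6) (nat_lit 4) C.nil) C.nil)) C.nil)) C.nil))) (C.cons (nat_lit 2624) (C.node (nat_lit 1) (nat_lit 6) (nat_lit 7) (C.cons (nat_lit 450) (C.node (nat_lit 2) (nat_lit 6) (nat_lit 7) (C.cons (nat_lit 196) (C.node (nat_lit 1) (nat_lit 7) (nat_lit 9) C.nil) C.nil)) (C.cons (nat_lit 198) (C.node (nat_lit 8) (nat_lit 6) (nat_lit 7) (C.cons (nat_lit 448) (C.node (nat_lit 1) (nat_lit 7) (nat_lit 3) C.nil) C.nil)) (C.cons (nat_lit 194) (C.node (nat_lit 2) (nat_lit 6) (nat_lit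 7) (C.cons (nat_lit 452) (C.node (nat_lit 2) (nat_lit 4) (nat_lit 7) C.nil) C.nil)) C.nil)))) C.nil))))) C.nil))))) C.nil))))) C.nil))))) C.nil)) C.nil))) C.nil))))) (C.cons (nat_lit 2632)
  (C.miq (nat_lit 342035129) (nat_lit 106395120102858653107228417)) (C.cons (nat_lit 2600) (C.miq (nat_lit 1397209504) (nat_lit 183798654762544816039595777)) (C.cons (nat_lit 2568) (C.node (nat_lit 3) (nat_lit 7) (nat_lit 11) (C.cons (nat_lit 2186) (C.node (nat_lit 7) (nat_lit 9) (nat_lit 11) (C.cons (nat_lit 2688) (C.ref (nat_lit 271) (nat_lit 205163983024656)) C.nil)) (C.cons (nat_lit 2184) (C.node (nat_lit 7) (nat_lit 9) (nat_lit 11) (C.cons (nat_lit 2690) (C.ref (nat_lit 271) (nat_lit 198128827013136)) (C.cons (nat_lit 2688) (C.node (nat_lit 4) (nat_lit 8) (nat_lit 10) (C.cons (nat_lit 1332) (C.miq (nat_lit 323094952) (nat_lit 2510943778980494294532755201)) (C.cons (nat_lit 1328) (C.node (nat_lit 2) (nat_lit 4) (nat_lit 10) (C.cons (nat_lit 1044) (C.node (nat_lit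 3) (nat_lit 4) (nat_lit 5) (C.cons (nat_lit 58) (C.miq (nat_lit 277166500) (nat_lit 349380631927012016520168984)) (C.cons (nat_lit 56) (C.node (nat_lit 1) (nat_lit 3) (nat_lit 4) (C.cons (nat_lit 282) (C.node (nat_lit 4) (nat_lit 8) (nat_lit 11) (C.cons (nat_lit 2320) (C.node (nat_lit 4) (nat_lit 7) (nat_lit 8) (C.cons (nat_lit 404) (C.miq (nat_lit 1949902864) (nat_lit 1885936176862466157008584967)) (C.cons (nat_lit 400) (C.node (nat_lit 1) (nat_lit 4) (nat_lit 11) (C.cons (nat_lit 2098) (C.node (nat_lit 1) (nat_lit 2) (nat_lit 4) (C.cons (nat_lit 598) (C.miq (nat_lit 3021514272) (nat_lit 340987935962524240654566469)) (C.cons (nat_lit 534) (C.miq (nat_lit 882344224) (nat_lit 793062587316995943448248583)) (C.cons (nat_lit 86) (C.miq (nat_lit 3021514272) (nat_lit 340987935962522041631310917)) C.nil)))) C.nil)) C.nil))) C.nil)) (C.cons (nat_lit 26) (C.node (nat_lit 3) (nat_lit 4) (nat_lit 8) (C.cons (nat_lit 280) (C.node (nat_lit 4) (nat_lit 5) (nat_lit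 7) (C.cons (nat_lit 180) (C.node (nat_lit 4) (nat_lit 7) (nat_lit 8) C.nil) (C.cons (nat_lit 176) (C.node (nat_lit 2) (nat_lit 4) (nat_lit 7) C.nil) C.nil))) C.nil)) C.nil))) C.nil))) C.nil)) (C.cons (nat_lit 1300) (C.miq (nat_lit 323094952) (nat_lit 2510943778980494294530658049)) (C.cons (nat_lit 1296) (C.node (nat_lit 2) (nat_lit 4) (nat_lit 10) (C.cons (nat_lit 1076) (C.node (nat_lit 9) (nat_lit 10) (nat_lit 5) (C.cons (nat_lit 1570) (C.miq (nat_lit 270897994) (nat_lit 44759216861157336997430808)) (C.cons (nat_lit 1568) (C.node (nat_lit 1) (nat_lit 9) (nat_lit 10) (C.cons (nat_lit 1542) (C.node (nat_lit 10) (nat_lit 2) (nat_lit 11) (C.cons (nat_lit 3076) (C.node (nat_lit 10) (nat_lit 7) (nat_lit 2) (C.cons (nat_lit 1412) (C.miq (nat_lit 2056487440) (nat_lit 1885931528566691770384711943)) (C.cons (nat_lit 1156) (C.node (nat_lit 1) (nat_lit 10) (nat_lit 11) (C.cons (nat_lit 3106) (C.node (nat_lit 1) (nat_lit 8) (nat_lit 10) (C.cons (nat_lit 1354) (C.miq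 (nat_lit 3121759872) (nat_lit 1864201928620414224130572625)) (C.cons (nat_lit 1290) (C.miq (nat_lit 2587304320) (nat_lit 1402365849336937339941355783)) (C.cons (nat_lit 1346) (C.miq (nat_lit 3121759872) (nat_lit 1864201928620414189770834257)) C.nil)))) C.nil)) C.nil))) C.nil)) (C.cons (nat_lit 1538) (C.node (nat_lit 9) (nat_lit 10) (nat_lit 2) (C.cons (nat_lit 1540) (C.node (nat_lit 10) (nat_lit 5) (nat_lit 7) (C.cons (nat_lit 1440) (C.node (nat_lit 10) (nat_lit 7) (nat_lit 2) C.nil) (C.cons (nat_lit 1184) (C.node (nat_lit 8) (nat_lit 10) (nat_lit 7) C.nil) C.nil))) C.nil)) C.nil))) C.nil))) (C.cons (nat_lit 1044) (C.node (nat_lit 4) (nat_lit 5) (nat_lit 10) (C.cons (nat_lit 1072) (C.node (nat_lit 3) (nat_lit 6) (nat_lit 11) (C.cons (nat_lit 2378) (C.miq (nat_lit 1952647864) (nat_lit 106392722026129070848872193)) (C.cons (nat_lit 2376) (C.miq (nat_lit 1952647864) (nat_lit 106392722026129070848741121)) (C.cons (nat_lit 2122) (C.node (nat_lit 6) (nat_lit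 9) (nat_lit 11) (C.cons (nat_lit 2628) (C.miq (nat_lit 658935979) (nat_lit 251505048704824966632181505)) (C.cons (nat_lit 2624) (C.node (nat_lit 2) (nat_lit 6) (nat_lit 11) (C.cons (nat_lit 2372) (C.node (nat_lit 2) (nat_lit 7) (nat_lit 11) (C.cons (nat_lit 2182)
  (C.miq (nat_lit 1093142454) (nat_lit 317953707441016882568890593)) (C.cons (nat_lit 2180) (C.node (nat_lit 1) (nat_lit 7) (nat_lit 11) (C.cons (nat_lit 2434) (C.miq (nat_lit 2709653430) (nat_lit 317967653179537689321670881)) C.nil)) C.nil))) (C.cons (nat_lit 2116) (C.node (nat_lit 6) (nat_lit 8) (nat_lit 11) (C.cons (nat_lit 2368) (C.node (nat_lit 3) (nat_lit 5) (nat_lit 11) (C.cons (nat_lit 2344) (C.node (nat_lit 4) (nat_lit 8) (nat_lit 11) (C.cons (nat_lit 2322) (C.miq (nat_lit 649595457) (nat_lit 2862741192648798958750139539)) (C.cons (nat_lit 2320) (C.node (nat_lit 1) (nat_lit 4) (nat_lit 11) (C.cons (nat_lit 2098) (C.node (nat_lit 3) (nat_lit 4) (nat_lit 5) C.nil) C.nil)) C.nil))) (C.cons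 (nat_lit 2088) (C.node (nat_lit 3) (nat_lit 8) (nat_lit 11) (C.cons (nat_lit 2312) (C.node (nat_lit 1) (nat_lit 7) (nat_lit 11) C.nil) C.nil)) C.nil))) C.nil)) C.nil))) C.nil))) (C.cons (nat_lit 2120) (C.node (nat_lit 6) (nat_lit 9) (nat_lit 11) (C.cons (nat_lit 2630) (C.miq (nat_lit 658935979) (nat_lit 251505085598313114051284737)) (C.cons (nat_lit 2628) (C.miq (nat_lit 658935979) (nat_lit 251505048704824966632181505)) (C.cons (nat_lit 2626) (C.node (nat_lit 8) (nat_lit 6) (nat_lit 11) (C.cons (nat_lit 2372) (C.node (nat_lit 8) (nat_lit 7) (nat_lit 11) (C.cons (nat_lit 2434) (C.miq (nat_lit 2709653430) (nat_lit 317967653179537689321670881)) (C.cons (nat_lit 2432) (C.node (nat_lit 1) (nat_lit 7) (nat_lit 11) (C.cons (nat_lit 2182) (C.miq (nat_lit 1093142454) (nat_lit 317953707441016882568890593)) C.nil)) C.nil))) (C.cons (nat_lit 2368) (C.node (nat_lit 6) (nat_lit 2) (nat_lit 11) (C.cons (nat_lit 2116) (C.node (nat_lit 9) (nat_lit 5) (nat_lit 11) (C.cons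 (nat_lit 2596) (C.node (nat_lit 10) (nat_lit 2) (nat_lit 11) (C.cons (nat_lit 3078) (C.miq (nat_lit 2259813537) (nat_lit 2558091885893117324380472467)) (C.cons (nat_lit 3076) (C.node (nat_lit 1) (nat_lit 10) (nat_lit 11) (C.cons (nat_lit 3106) (C.node (nat_lit 9) (nat_lit 10) (nat_lit 5) C.nil) C.nil)) C.nil))) (C.cons (nat_lit 2592) (C.node (nat_lit 9) (nat_lit 2) (nat_lit 11) (C.cons (nat_lit 2564) (C.node (nat_lit 1) (nat_lit 7) (nat_lit 11) C.nil) C.nil)) C.nil))) C.nil)) C.nil))) (C.cons (nat_lit 2624) (C.node (nat_lit 1) (nat_lit 6) (nat_lit 11) (C.cons (nat_lit 2370) (C.node (nat_lit 2) (nat_lit 6) (nat_lit 11) (C.cons (nat_lit 2116) (C.node (nat_lit 1) (nat_lit 3) (nat_lit 11) (C.cons (nat_lit 2090) (C.node (nat_lit 1) (nat_lit 4) (nat_lit 11) (C.cons (nat_lit 2066) (C.node (nat_lit 3) (nat_lit 8) (nat_lit 11) C.nil) C.nil)) (C.cons (nat_lit 2058) (C.node (nat_lit 1) (nat_lit 4) (nat_lit 11) (C.cons (nat_lit 2098) (C.node (nat_lit 4) (nat_lit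 8) (nat_lit 11) C.nil) (C.cons (nat_lit 2066) (C.node (nat_lit 1) (nat_lit 7) (nat_lit 11) C.nil) C.nil))) C.nil))) C.nil)) (C.cons (nat_lit 2118) (C.node (nat_lit 8) (nat_lit 6) (nat_lit 11) (C.cons (nat_lit 2368) (C.node (nat_lit 1) (nat_lit 9) (nat_lit 11) (C.cons (nat_lit 2594) (C.node (nat_lit 1) (nat_lit 10) (nat_lit 11) (C.cons (nat_lit 3074) (C.node (nat_lit 9) (nat_lit 2) (nat_lit 11) C.nil) C.nil)) (C.cons (nat_lit 2562) (C.node (nat_lit 1) (nat_lit 10) (nat_lit 11) (C.cons (nat_lit 3106) (C.node (nat_lit 10) (nat_lit 2) (nat_lit 11) C.nil) (C.cons (nat_lit 3074) (C.node (nat_lit 1) (nat_lit 7) (nat_lit 11) C.nil) C.nil))) C.nil))) C.nil)) (C.cons (nat_lit 2114) (C.node (nat_lit 2) (nat_lit 6) (nat_lit 11) (C.cons (nat_lit 2372) (C.node (nat_lit 2) (nat_lit 7) (nat_lit 11) (C.cons (nat_lit 2182) (C.miq (nat_lit 1093142454) (nat_lit 317953707441016882568890593)) (C.cons (nat_lit 2180) (C.node (nat_lit 1) (nat_lit 7) (nat_lit 11) (C.cons (nat_lit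 2434) (C.miq (nat_lit 2709653430) (nat_lit 317967653179537689321670881)) C.nil)) C.nil))) (C.cons (nat_lit 2116) (C.node (nat_lit 6) (nat_lit 8) (nat_lit 11) (C.cons (nat_lit 2368) (C.node (nat_lit 1) (nat_lit 7) (nat_lit 11) (C.cons (nat_lit 2178)
  (C.node (nat_lit 2) (nat_lit 7) (nat_lit 11) C.nil) C.nil)) C.nil)) C.nil))) C.nil)))) C.nil))))) C.nil))))) C.nil)) C.nil))) C.nil))))) C.nil))) C.nil))) C.nil))))) C.nil))) C.nil)))) C.nil))) C.nil)))) List.nil)

theorem ok12_272 : okL par12 (nat_lit 273) c12_272 (nat_lit 272) = true := by decide +kernel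

noncomputable def c12_273 : List C :=
  (List.cons (C.node (nat_lit 3) (nat_lit 10) (nat_lit 11) (C.cons (nat_lit 3208) (C.miq (nat_lit 1463028649) (nat_lit 183767073844655386034441985)) (C.cons (nat_lit 3082) (C.node (nat_lit 7) (nat_lit 10) (nat_lit 11) (C.cons (nat_lit 3204) (C.miq (nat_lit 444152608) (nat_lit 2011662212353413136146303005)) (C.cons (nat_lit 3200) (C.node (nat_lit 3) (nat_lit 6) (nat_lit 11) (C.cons (nat_lit 2632) (C.miq (nat_lit 342035129) (nat_lit 106395120102858653107228417)) (C.cons (nat_lit 2376) (C.miq (nat_lit 325364608) (nat_lit 106407074130913764345712385)) (C.cons (nat_lit 2120) (C.node (nat_lit 2) (nat_lit 10) (nat_lit 11) (C.cons (nat_lit 3108) (C.node (nat_lit 2) (nat_lit 4) (nat_lit 10) (C.cons (nat_lit 1300) (C.miq (nat_lit 323094952) (nat_lit 2510943778980494294530658049)) (C.cons (nat_lit 1044) (C.node (nat_lit 5) (nat_lit 9) (nat_lit 10) (C.cons (nat_lit 1570) (C.miq (nat_lit 457810693) (nat_lit 3114221873582995276945228841))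 (C.cons (nat_lit 1568) (C.node (nat_lit 2) (nat_lit 9) (nat_lit 11) (C.cons (nat_lit 2630) (C.miq (nat_lit 2053702834) (nat_lit 1934293209862954957828130845)) (C.cons (nat_lit 2628) (C.miq (nat_lit 2053702834) (nat_lit 1934293209862954957827999773)) (C.cons (nat_lit 2566) (C.miq (nat_lit 621394481) (nat_lit 678254720023928907510778890)) (C.cons (nat_lit 2564) (C.node (nat_lit 4) (nat_lit 8) (nat_lit 11) (C.cons (nat_lit 2354) (C.miq (nat_lit 463635552) (nat_lit 3757346299518564493584302417)) (C.cons (nat_lit 2352) (C.miq (nat_lit 1376303716) (nat_lit 317990878175537759851187280)) (C.cons (nat_lit 2322) (C.miq (nat_lit 463635552) (nat_lit 3757346299509557294329561425)) (C.cons (nat_lit 2320) (C.node (nat_lit 1) (nat_lit 2) (nat_lit 10) (C.cons (nat_lit 1542) (C.node (nat_lit 1) (nat_lit 4) (nat_lit 11) (C.cons (nat_lit 2098) (C.node (nat_lit 1) (nat_lit 2) (nat_lit 4) (C.cons (nat_lit 86) (C.miq (nat_lit 2336295522) (nat_lit 2536331222126342317433816133))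 (C.cons (nat_lit 22) (C.node (nat_lit 4) (nat_lit 5) (nat_lit 6) (C.cons (nat_lit 116) (C.miq (nat_lit 2317618006) (nat_lit 1262124773311584432823732449)) (C.cons (nat_lit 112) (C.node (nat_lit 5) (nat_lit 9) (nat_lit 11) (C.cons (nat_lit 2600) (C.miq (nat_lit 893499658) (nat_lit 2536383223148564530372742913)) (C.cons (nat_lit 2592) (C.node (nat_lit 1) (nat_lit 6) (nat_lit 10) (C.cons (nat_lit 1378) (C.miq (nat_lit 1629792267) (nat_lit 26654512556715821970034433)) (C.cons (nat_lit 1346) (C.miq (nat_lit 1629792267) (nat_lit 26654512547708622715293441)) (C.cons (nat_lit 1122) (C.miq (nat_lit 1101182304) (nat_lit 1864201928323738602299525345)) (C.cons (nat_lit 1090) (C.node (nat_lit 5) (nat_lit 6) (nat_lit 10) (C.cons (nat_lit 1376) (C.miq (nat_lit 627358336) (nat_lit 135438006559109699819605761)) (C.cons (nat_lit 1120) (C.node (nat_lit 1) (nat_lit 2) (nat_lit 5) (C.cons (nat_lit 174) (C.miq (nat_lit 2585201458) (nat_lit 1415664033999816928887965725))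 (C.cons (nat_lit 166) (C.miq (nat_lit 2455478640) (nat_lit 3757412301740289720575919251)) (C.cons (nat_lit 110) (C.miq (nat_lit 430256306) (nat_lit 1895597714444814563982706717)) (C.cons (nat_lit 102) (C.miq (nat_lit 2438701664) (nat_lit 2536397223929513979244774469)) (C.cons (nat_lit 46) (C.miq (nat_lit 430256306) (nat_lit 1895596533853193846571403293)) (C.cons (nat_lit 38) (C.node (nat_lit 1) (nat_lit 2) (nat_lit 7) (C.cons (nat_lit 2182) (C.miq (nat_lit 2450786229) (nat_lit 26606716836507924636502241)) (C.cons (nat_lit 206) (C.miq (nat_lit 2585201458) (nat_lit 1415664033999816928890062877)) (C.cons (nat_lit 198) (C.miq (nat_lit 1804759201) (nat_lit 3099689454587044917571617939)) (C.cons (nat_lit 142) (C.miq (nat_lit 2585201458) (nat_lit 1415664033999816928885868573)) (C.cons (nat_lit 134) (C.node (nat_lit 1) (nat_lit 2) (nat_lit 3) (C.cons (nat_lit 78) (C.node (nat_lit 1) (nat_lit 2) (nat_lit 11) (C.cons (nat_lit 2054) (C.node (nat_lit 2) (nat_lit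 6) (nat_lit 11) (C.cons (nat_lit 2372) (C.miq (nat_lit 1176611712) (nat_lit 94317815954470703783677697)) (C.cons (nat_lit 2116)
  (C.node (nat_lit 1) (nat_lit 3) (nat_lit 4) (C.cons (nat_lit 282) (C.node (nat_lit 3) (nat_lit 4) (nat_lit 5) (C.cons (nat_lit 56) (C.node (nat_lit 1) (nat_lit 4) (nat_lit 6) C.nil) C.nil)) (C.cons (nat_lit 26) (C.node (nat_lit 1) (nat_lit 4) (nat_lit 8) (C.cons (nat_lit 786) (C.miq (nat_lit 1645480600) (nat_lit 26602584891933454398263041)) C.nil)) C.nil))) C.nil))) C.nil)) (C.cons (nat_lit 14) (C.node (nat_lit 1) (nat_lit 2) (nat_lit 6) (C.cons (nat_lit 2118) (C.node (nat_lit 6) (nat_lit 8) (nat_lit 11) (C.cons (nat_lit 2368) (C.node (nat_lit 6) (nat_lit 9) (nat_lit 11) (C.cons (nat_lit 2624) (C.node (nat_lit 1) (nat_lit 9) (nat_lit 11) (C.cons (nat_lit 2690) (C.miq (nat_lit 1898363296) (nat_lit 2560546816150238444101373697)) (C.cons (nat_lit 2562) (C.node (nat_lit 1) (nat_lit 4) (nat_lit 6) C.nil) C.nil))) C.nil)) C.nil))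 (C.cons (nat_lit 70) (C.node (nat_lit 1) (nat_lit 2) (nat_lit 11) (C.cons (nat_lit 2054) (C.node (nat_lit 2) (nat_lit 6) (nat_lit 11) (C.cons (nat_lit 2372) (C.miq (nat_lit 1176611712) (nat_lit 84646409397553670386028289)) (C.cons (nat_lit 2116) (C.node (nat_lit 1) (nat_lit 3) (nat_lit 4) C.nil) C.nil))) C.nil)) C.nil))) C.nil))) C.nil)))))) C.nil))))))) C.nil))) C.nil))))) C.nil))) C.nil))) C.nil))) (C.cons (nat_lit 2066) (C.node (nat_lit 4) (nat_lit 5) (nat_lit 11) (C.cons (nat_lit 2096) (C.node (nat_lit 3) (nat_lit 7) (nat_lit 11) (C.cons (nat_lit 2696) (C.node (nat_lit 2) (nat_lit 8) (nat_lit 11) (C.cons (nat_lit 2436) (C.miq (nat_lit 2168135831) (nat_lit 3725954312394880838231655045)) (C.cons (nat_lit 2372) (C.miq (nat_lit 347605602) (nat_lit 2804712753329251806550950981)) (C.cons (nat_lit 2308) (C.node (nat_lit 2) (nat_lit 8) (nat_lit 10) (C.cons (nat_lit 1412) (C.miq (nat_lit 2199548050) (nat_lit 3725935422965541106547556997)) (C.cons (nat_lit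 1292) (C.miq (nat_lit 2066220451) (nat_lit 2790208041880791073981989929)) (C.cons (nat_lit 1284) (C.node (nat_lit 5) (nat_lit 7) (nat_lit 10) (C.cons (nat_lit 1440) (C.miq (nat_lit 849873751) (nat_lit 1552268002540241703657277665)) (C.cons (nat_lit 1184) (C.node (nat_lit 7) (nat_lit 8) (nat_lit 10) (C.cons (nat_lit 1472) (C.miq (nat_lit 1934000314) (nat_lit 106412625843992454535057153)) (C.cons (nat_lit 1408) (C.node (nat_lit 2) (nat_lit 3) (nat_lit 10) (C.cons (nat_lit 1164) (C.node (nat_lit 6) (nat_lit 7) (nat_lit 10) (C.cons (nat_lit 1216) (C.node (nat_lit 3) (nat_lit 6) (nat_lit 10) C.nil) C.nil)) (C.cons (nat_lit 1036) (C.node (nat_lit 2) (nat_lit 7) (nat_lit 10) C.nil) C.nil))) C.nil))) C.nil))) C.nil)))) C.nil)))) (C.cons (nat_lit 2184) (C.node (nat_lit 3) (nat_lit 9) (nat_lit 11) (C.cons (nat_lit 2600) (C.miq (nat_lit 1397209504) (nat_lit 183798654762544816039595777)) (C.cons (nat_lit 2568) (C.node (nat_lit 7) (nat_lit 9) (nat_lit 11) (C.cons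 (nat_lit 2690) (C.miq (nat_lit 1654327831) (nat_lit 3099727731248847518318068883)) (C.cons (nat_lit 2688) (C.node (nat_lit 3) (nat_lit 5) (nat_lit 11) (C.cons (nat_lit 2344) (C.node (nat_lit 2) (nat_lit 8) (nat_lit 11) (C.cons (nat_lit 2436) (C.miq (nat_lit 1923124051) (nat_lit 1321363171094897047902947624)) (C.cons (nat_lit 2372) (C.miq (nat_lit 347605602) (nat_lit 2804712753329251806550950981)) C.nil))) C.nil)) C.nil))) C.nil))) C.nil))) C.nil)) C.nil))) (C.cons (nat_lit 1030) (C.node (nat_lit 1) (nat_lit 9) (nat_lit 10) (C.cons (nat_lit 1538) (C.node (nat_lit 2) (nat_lit 9) (nat_lit 10) (C.cons (nat_lit 1540) (C.node (nat_lit 1) (nat_lit 4) (nat_lit 11) (C.cons (nat_lit 2098) (C.node (nat_lit 4) (nat_lit 5) (nat_lit 6) (C.cons (nat_lit 116) (C.miq (nat_lit 2317618006) (nat_lit 1262124773311584432823732449)) (C.cons (nat_lit 112) (C.node (nat_lit 5) (nat_lit 9) (nat_lit 11) (C.cons (nat_lit 2600) (C.miq (nat_lit 893499658) (nat_lit 2536383223148564530372742913))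 (C.cons (nat_lit 2592) (C.node (nat_lit 1) (nat_lit 6) (nat_lit 10) (C.cons (nat_lit 1378) (C.miq (nat_lit 373532683) (nat_lit 106442325379196505659608833)) (C.cons (nat_lit 1346) (C.miq (nat_lit 373532683) (nat_lit 106442325370189306404867841))
  (C.cons (nat_lit 1122) (C.miq (nat_lit 1101182304) (nat_lit 1245231908681048464849963233)) (C.cons (nat_lit 1090) (C.node (nat_lit 5) (nat_lit 6) (nat_lit 10) (C.cons (nat_lit 1376) (C.miq (nat_lit 627358336) (nat_lit 135438006559109699819605761)) (C.cons (nat_lit 1120) (C.node (nat_lit 1) (nat_lit 5) (nat_lit 10) (C.cons (nat_lit 1314) (C.node (nat_lit 4) (nat_lit 5) (nat_lit 10) C.nil) C.nil)) C.nil))) C.nil))))) C.nil))) C.nil))) (C.cons (nat_lit 2066) (C.node (nat_lit 4) (nat_lit 5) (nat_lit 11) (C.cons (nat_lit 2096) (C.node (nat_lit 3) (nat_lit 7) (nat_lit 11) (C.cons (nat_lit 2696) (C.node (nat_lit 2) (nat_lit 8) (nat_lit 11) (C.cons (nat_lit 2436) (C.miq (nat_lit 2168135831) (nat_lit 3725954312394880838231655045))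 (C.cons (nat_lit 2372) (C.miq (nat_lit 347605602) (nat_lit 2804712753329251806550950981)) (C.cons (nat_lit 2308) (C.node (nat_lit 2) (nat_lit 6) (nat_lit 11) (C.cons (nat_lit 2118) (C.node (nat_lit 2) (nat_lit 7) (nat_lit 11) (C.cons (nat_lit 2180) (C.node (nat_lit 6) (nat_lit 8) (nat_lit 11) (C.cons (nat_lit 2368) (C.node (nat_lit 6) (nat_lit 9) (nat_lit 11) C.nil) C.nil)) C.nil)) (C.cons (nat_lit 2116) (C.node (nat_lit 1) (nat_lit 2) (nat_lit 11) (C.cons (nat_lit 2182) (C.node (nat_lit 7) (nat_lit 8) (nat_lit 11) (C.cons (nat_lit 2432) (C.node (nat_lit 3) (nat_lit 5) (nat_lit 11) C.nil) C.nil)) (C.cons (nat_lit 2054) (C.node (nat_lit 2) (nat_lit 7) (nat_lit 11) C.nil) C.nil))) C.nil))) C.nil)))) (C.cons (nat_lit 2184) (C.node (nat_lit 3) (nat_lit 9) (nat_lit 11) (C.cons (nat_lit 2600) (C.miq (nat_lit 1397209504) (nat_lit 183798654762544816039595777)) (C.cons (nat_lit 2568) (C.node (nat_lit 3) (nat_lit 5) (nat_lit 11) (C.cons (nat_lit 2344) (C.node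 (nat_lit 3) (nat_lit 4) (nat_lit 5) (C.cons (nat_lit 58) (C.miq (nat_lit 1503740083) (nat_lit 1859328980636379904958138397)) (C.cons (nat_lit 56) (C.node (nat_lit 5) (nat_lit 7) (nat_lit 10) (C.cons (nat_lit 1440) (C.miq (nat_lit 1949671608) (nat_lit 67726409539501494066745089)) (C.cons (nat_lit 1184) (C.node (nat_lit 1) (nat_lit 8) (nat_lit 10) (C.cons (nat_lit 1378) (C.miq (nat_lit 373532683) (nat_lit 106442325379196505659608833)) (C.cons (nat_lit 1346) (C.miq (nat_lit 373532683) (nat_lit 106442325370189306404867841)) (C.cons (nat_lit 1314) (C.miq (nat_lit 339058872) (nat_lit 67724085249748206663241473)) C.nil)))) C.nil))) C.nil))) (C.cons (nat_lit 2088) (C.node (nat_lit 3) (nat_lit 8) (nat_lit 11) C.nil) C.nil))) C.nil))) C.nil))) C.nil)) C.nil))) C.nil)) C.nil)) C.nil))) C.nil))))) C.nil))))) C.nil))) C.nil))) (C.cons (nat_lit 3076) (C.node (nat_lit 5) (nat_lit 10) (nat_lit 11) (C.cons (nat_lit 3104) (C.node (nat_lit 3) (nat_lit 7) (nat_lit 11)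 (C.cons (nat_lit 2696) (C.node (nat_lit 3) (nat_lit 5) (nat_lit 11) (C.cons (nat_lit 2344) (C.node (nat_lit 3) (nat_lit 4) (nat_lit 5) (C.cons (nat_lit 58) (C.miq (nat_lit 2603944468) (nat_lit 2833732470881274759208371347)) (C.cons (nat_lit 56) (C.node (nat_lit 4) (nat_lit 8) (nat_lit 11) (C.cons (nat_lit 2322) (C.miq (nat_lit 463635552) (nat_lit 3718660673281889160738963793)) (C.cons (nat_lit 2320) (C.node (nat_lit 2) (nat_lit 8) (nat_lit 11) (C.cons (nat_lit 2436) (C.miq (nat_lit 330828146) (nat_lit 2833726972817605163334500997)) (C.cons (nat_lit 2372) (C.miq (nat_lit 347605602) (nat_lit 2804712753329251806550950981)) (C.cons (nat_lit 2308) (C.node (nat_lit 7) (nat_lit 8) (nat_lit 11) (C.cons (nat_lit 2434) (C.miq (nat_lit 2208412935) (nat_lit 3725954276087144445119760609)) (C.cons (nat_lit 2432) (C.node (nat_lit 1) (nat_lit 8) (nat_lit 10) (C.cons (nat_lit 1378) (C.miq (nat_lit 373532683) (nat_lit 106442325379196505659608833)) (C.cons (nat_lit 1346)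 (C.miq (nat_lit 373532683) (nat_lit 106442325370189306404867841)) (C.cons (nat_lit 1314) (C.miq (nat_lit 339058872) (nat_lit 67724085249748206663241473)) (C.cons (nat_lit 1282) (C.node (nat_lit 3) (nat_lit 5) (nat_lit 7) (C.cons (nat_lit 174) (C.miq (nat_lit 2199565680) (nat_lit 3725980230656052327643023585)) (C.cons (nat_lit 172)
  (C.miq (nat_lit 2149955955) (nat_lit 44773495574998210463926920)) (C.cons (nat_lit 170) (C.miq (nat_lit 2199565680) (nat_lit 3725980230656052310463154401)) (C.cons (nat_lit 168) (C.node (nat_lit 2) (nat_lit 9) (nat_lit 11) (C.cons (nat_lit 2630) (C.miq (nat_lit 2053702834) (nat_lit 1934293209862954957828130845)) (C.cons (nat_lit 2628) (C.miq (nat_lit 2053702834) (nat_lit 1934293209862954957827999773)) (C.cons (nat_lit 2598) (C.miq (nat_lit 624401280) (nat_lit 203111436576467300934815489)) (C.cons (nat_lit 2596) (C.miq (nat_lit 624401280) (nat_lit 203111436575904350981394177)) (C.cons (nat_lit 2566) (C.miq (nat_lit 2209417106)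 (nat_lit 3725914227656609747303793285)) (C.cons (nat_lit 2564) (C.node (nat_lit 1) (nat_lit 3) (nat_lit 4) (C.cons (nat_lit 282) (C.node (nat_lit 5) (nat_lit 7) (nat_lit 9) (C.cons (nat_lit 930) (C.miq (nat_lit 592907145) (nat_lit 203111436429818838103756545)) (C.cons (nat_lit 928) (C.miq (nat_lit 592907145) (nat_lit 203111436429818838103625473)) (C.cons (nat_lit 674) (C.miq (nat_lit 2171941899) (nat_lit 814859241667749811929024541)) (C.cons (nat_lit 672) (C.node (nat_lit 1) (nat_lit 5) (nat_lit 7) (C.cons (nat_lit 418) (C.node (nat_lit 1) (nat_lit 4) (nat_lit 11) (C.cons (nat_lit 2098) (C.node (nat_lit 2) (nat_lit 5) (nat_lit 11) (C.cons (nat_lit 2084) (C.node (nat_lit 5) (nat_lit 9) (nat_lit 11) C.nil) C.nil)) (C.cons (nat_lit 2066) (C.miq (nat_lit 1531020039) (nat_lit 2497648454722632951669129609)) C.nil))) (C.cons (nat_lit 166) (C.miq (nat_lit 2171941899) (nat_lit 200724925303518191178287133)) (C.cons (nat_lit 162) (C.miq (nat_lit 2171941899) (nat_lit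 195889222025059674479462429)) C.nil)))) C.nil))))) (C.cons (nat_lit 26) (C.node (nat_lit 3) (nat_lit 4) (nat_lit 8) (C.cons (nat_lit 280) (C.node (nat_lit 1) (nat_lit 3) (nat_lit 8) (C.cons (nat_lit 330) (C.node (nat_lit 1) (nat_lit 8) (nat_lit 11) (C.cons (nat_lit 2306) (C.node (nat_lit 6) (nat_lit 8) (nat_lit 11) C.nil) C.nil)) (C.cons (nat_lit 266) (C.node (nat_lit 2) (nat_lit 3) (nat_lit 10) (C.cons (nat_lit 1292) (C.miq (nat_lit 1653279285) (nat_lit 2790242721427501375828788265)) (C.cons (nat_lit 1164) (C.node (nat_lit 1) (nat_lit 3) (nat_lit 7) C.nil) C.nil))) C.nil))) C.nil)) C.nil))) C.nil))))))) C.nil))))) C.nil))))) C.nil))) C.nil)))) C.nil))) C.nil))) (C.cons (nat_lit 2088) (C.node (nat_lit 3) (nat_lit 8) (nat_lit 11) (C.cons (nat_lit 2312) (C.node (nat_lit 2) (nat_lit 7) (nat_lit 11) (C.cons (nat_lit 2436) (C.miq (nat_lit 330828146) (nat_lit 2795041346589937029743903365)) (C.cons (nat_lit 2182) (C.node (nat_lit 7) (nat_lit 8) (nat_lit 11)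 (C.cons (nat_lit 2432) (C.node (nat_lit 2) (nat_lit 6) (nat_lit 11) (C.cons (nat_lit 2628) (C.miq (nat_lit 2053702834) (nat_lit 1934293209862954957827999773)) (C.cons (nat_lit 2372) (C.miq (nat_lit 1093142454) (nat_lit 317953707441016882568890593)) (C.cons (nat_lit 2116) (C.node (nat_lit 2) (nat_lit 8) (nat_lit 11) (C.cons (nat_lit 2340) (C.node (nat_lit 2) (nat_lit 9) (nat_lit 11) (C.cons (nat_lit 2564) (C.node (nat_lit 4) (nat_lit 5) (nat_lit 11) C.nil) C.nil)) (C.cons (nat_lit 2308) (C.node (nat_lit 2) (nat_lit 5) (nat_lit 11) (C.cons (nat_lit 2596) (C.node (nat_lit 1) (nat_lit 9) (nat_lit 11) C.nil) C.nil)) C.nil))) C.nil)))) C.nil)) (C.cons (nat_lit 2180) (C.node (nat_lit 1) (nat_lit 7) (nat_lit 11) (C.cons (nat_lit 2434) (C.node (nat_lit 6) (nat_lit 8) (nat_lit 11) (C.cons (nat_lit 2372) (C.miq (nat_lit 2709653430) (nat_lit 317967653179537689321670881)) (C.cons (nat_lit 2368) (C.node (nat_lit 1) (nat_lit 4) (nat_lit 11) (C.cons (nat_lit 2098)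 (C.node (nat_lit 4) (nat_lit 8) (nat_lit 11) (C.cons (nat_lit 2320) (C.node (nat_lit 2) (nat_lit 8) (nat_lit 11) C.nil) C.nil)) (C.cons (nat_lit 2066) (C.node (nat_lit 2) (nat_lit 8) (nat_lit 11) (C.cons (nat_lit 2340) (C.node (nat_lit 4) (nat_lit 5) (nat_lit 11) C.nil) C.nil)) C.nil))) C.nil))) (C.cons (nat_lit 2178) (C.node (nat_lit 7) (nat_lit 8) (nat_lit 11) (C.cons (nat_lit 2432) (C.node (nat_lit 2) (nat_lit 8) (nat_lit 11) (C.cons (nat_lit 2372)
  (C.miq (nat_lit 732005952) (nat_lit 3725914228213650684627845457)) (C.cons (nat_lit 2340) (C.node (nat_lit 4) (nat_lit 8) (nat_lit 11) (C.cons (nat_lit 2322) (C.miq (nat_lit 1803723792) (nat_lit 2828906581076723932875654291)) C.nil)) C.nil))) C.nil)) C.nil))) C.nil)))) C.nil)) C.nil))) (C.cons (nat_lit 2184) (C.node (nat_lit 3) (nat_lit 9) (nat_lit 11) (C.cons (nat_lit 2600) (C.miq (nat_lit 1397209504) (nat_lit 183798654762544816039595777)) (C.cons (nat_lit 2568) (C.node (nat_lit 3) (nat_lit 5) (nat_lit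 11) (C.cons (nat_lit 2344) (C.node (nat_lit 3) (nat_lit 4) (nat_lit 5) (C.cons (nat_lit 58) (C.miq (nat_lit 2603944468) (nat_lit 2833732470881274759208371347)) (C.cons (nat_lit 56) (C.node (nat_lit 4) (nat_lit 8) (nat_lit 11) (C.cons (nat_lit 2322) (C.miq (nat_lit 463635552) (nat_lit 3718660673281889160738963793)) (C.cons (nat_lit 2320) (C.node (nat_lit 1) (nat_lit 8) (nat_lit 10) (C.cons (nat_lit 1378) (C.miq (nat_lit 373532683) (nat_lit 106442325379196505659608833)) (C.cons (nat_lit 1346) (C.miq (nat_lit 373532683) (nat_lit 106442325370189306404867841)) (C.cons (nat_lit 1314) (C.miq (nat_lit 339058872) (nat_lit 67724085249748206663241473)) (C.cons (nat_lit 1282) (C.node (nat_lit 1) (nat_lit 3) (nat_lit 4) (C.cons (nat_lit 282) (C.node (nat_lit 1) (nat_lit 4) (nat_lit 11) (C.cons (nat_lit 2098) (C.node (nat_lit 1) (nat_lit 6) (nat_lit 10) (C.cons (nat_lit 1122) (C.miq (nat_lit 605686614) (nat_lit 1415672297644635865663801569)) (C.cons (nat_lit 1090)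 (C.node (nat_lit 1) (nat_lit 2) (nat_lit 4) (C.cons (nat_lit 598) (C.miq (nat_lit 2321615682) (nat_lit 1317733995954796109363546141)) (C.cons (nat_lit 534) (C.miq (nat_lit 1934166034) (nat_lit 1885936176859369932265488647)) (C.cons (nat_lit 86) (C.miq (nat_lit 2321615682) (nat_lit 1317733995954796109329991709)) (C.cons (nat_lit 22) (C.node (nat_lit 1) (nat_lit 5) (nat_lit 8) (C.cons (nat_lit 930) (C.miq (nat_lit 2453762229) (nat_lit 26613523685070672489482465)) (C.cons (nat_lit 866) (C.miq (nat_lit 1964510019) (nat_lit 1046937009996491466072524829)) (C.cons (nat_lit 802) (C.miq (nat_lit 1964510019) (nat_lit 969565757541155198891329565)) (C.cons (nat_lit 418) (C.node (nat_lit 2) (nat_lit 5) (nat_lit 11) (C.cons (nat_lit 2596) (C.miq (nat_lit 2542084155) (nat_lit 505378880528083393077315613)) (C.cons (nat_lit 2084) (C.node (nat_lit 5) (nat_lit 9) (nat_lit 11) (C.cons (nat_lit 2592) (C.node (nat_lit 1) (nat_lit 8) (nat_lit 11) (C.cons (nat_lit 2370) (C.node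 (nat_lit 2) (nat_lit 6) (nat_lit 11) C.nil) C.nil)) C.nil)) C.nil))) (C.cons (nat_lit 354) (C.miq (nat_lit 1964510019) (nat_lit 427966990353801328622962717)) (C.cons (nat_lit 290) (C.miq (nat_lit 1964510019) (nat_lit 350595737898465061441767453)) C.nil))))))) C.nil))))) C.nil))) (C.cons (nat_lit 2066) (C.node (nat_lit 1) (nat_lit 5) (nat_lit 8) (C.cons (nat_lit 930) (C.miq (nat_lit 1531020039) (nat_lit 2497657899455598690959557001)) (C.cons (nat_lit 866) (C.miq (nat_lit 1971391284) (nat_lit 1046951361563381868665636893)) (C.cons (nat_lit 802) (C.miq (nat_lit 1971391284) (nat_lit 969580109108045601484441629)) (C.cons (nat_lit 418) (C.miq (nat_lit 1531020039) (nat_lit 2497648454722632951669129609)) (C.cons (nat_lit 354) (C.miq (nat_lit 1971391284) (nat_lit 427981341920691731216074781)) (C.cons (nat_lit 290) (C.miq (nat_lit 1971391284) (nat_lit 350610089465355464034879517)) C.nil))))))) C.nil))) (C.cons (nat_lit 26) (C.node (nat_lit 3) (nat_lit 4) (nat_lit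 8) (C.cons (nat_lit 280) (C.node (nat_lit 1) (nat_lit 3) (nat_lit 8) (C.cons (nat_lit 330) (C.node (nat_lit 1) (nat_lit 8) (nat_lit 11) (C.cons (nat_lit 2434) (C.miq (nat_lit 2709718965) (nat_lit 398965166584883780157704417)) (C.cons (nat_lit 2306) (C.node (nat_lit 3) (nat_lit 8) (nat_lit 9) (C.cons (nat_lit 780) (C.miq (nat_lit 338823832) (nat_lit 2510943779162890079405084417)) C.nil)) C.nil))) (C.cons (nat_lit 266) (C.node (nat_lit 1) (nat_lit 4) (nat_lit 11) (C.cons (nat_lit 2098) (C.node (nat_lit 1) (nat_lit 5) (nat_lit 7) (C.cons (nat_lit 930)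
  (C.miq (nat_lit 1099150704) (nat_lit 321612582495470950694848737)) (C.cons (nat_lit 674) (C.miq (nat_lit 2266312779) (nat_lit 814859241698993534332438557)) (C.cons (nat_lit 418) (C.miq (nat_lit 1099150704) (nat_lit 321612582495468751671593185)) (C.cons (nat_lit 166) (C.miq (nat_lit 2266312779) (nat_lit 200724925334761913581701149)) (C.cons (nat_lit 162) (C.miq (nat_lit 2266312779) (nat_lit 195889222056303396882876445)) C.nil)))))) C.nil)) C.nil))) C.nil)) C.nil))) C.nil))))) C.nil))) C.nil))) (C.cons (nat_lit 2088) (C.node (nat_lit 3) (nat_lit 8) (nat_lit 11) (C.cons (nat_lit 2312) (C.node (nat_lit 7) (nat_lit 9) (nat_lit 11) (C.cons (nat_lit 2690) (C.node (nat_lit 6) (nat_lit 9) (nat_lit 11) (C.cons (nat_lit 2628) (C.miq (nat_lit 2053702834) (nat_lit 1934293209862954957827999773)) (C.cons (nat_lit 2624) (C.node (nat_lit 2) (nat_lit 7) (nat_lit 11) (C.cons (nat_lit 2436) (C.node (nat_lit 2) (nat_lit 6) (nat_lit 11) (C.cons (nat_lit 2118) (C.node (nat_lit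 6) (nat_lit 8) (nat_lit 11) C.nil) C.nil)) C.nil)) C.nil))) (C.cons (nat_lit 2688) (C.node (nat_lit 4) (nat_lit 6) (nat_lit 7) (C.cons (nat_lit 720) (C.node (nat_lit 3) (nat_lit 7) (nat_lit 9) (C.cons (nat_lit 680) (C.miq (nat_lit 1698263204) (nat_lit 822082839633478105983091859)) (C.cons (nat_lit 648) (C.node (nat_lit 6) (nat_lit 7) (nat_lit 10) (C.cons (nat_lit 1472) (C.miq (nat_lit 879168424) (nat_lit 870433840277591038103654145)) (C.cons (nat_lit 1224) (C.node (nat_lit 2) (nat_lit 3) (nat_lit 10) (C.cons (nat_lit 1292) (C.node (nat_lit 2) (nat_lit 3) (nat_lit 7) (C.cons (nat_lit 174) (C.miq (nat_lit 2585201458) (nat_lit 1415664033999816928887965725)) (C.cons (nat_lit 172) (C.miq (nat_lit 1537372291) (nat_lit 3718658994614389138556453257)) (C.cons (nat_lit 142) (C.miq (nat_lit 2585201458) (nat_lit 1415664033999816928885868573)) C.nil)))) C.nil)) (C.cons (nat_lit 1216) (C.node (nat_lit 3) (nat_lit 5) (nat_lit 9) (C.cons (nat_lit 876) (C.miq (nat_lit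 338823832) (nat_lit 2510943779162890079411375873)) (C.cons (nat_lit 872) (C.miq (nat_lit 980849669) (nat_lit 1470069882651327344396010033)) (C.cons (nat_lit 812) (C.miq (nat_lit 338823832) (nat_lit 2510943779162890079407181569)) (C.cons (nat_lit 808) (C.miq (nat_lit 1698263204) (nat_lit 976825344544150640345482387)) (C.cons (nat_lit 620) (C.miq (nat_lit 980849669) (nat_lit 1470065234071820769589002801)) (C.cons (nat_lit 616) (C.miq (nat_lit 980849669) (nat_lit 1470065160284844474750796337)) (C.cons (nat_lit 556) (C.miq (nat_lit 1698263204) (nat_lit 672176038001264088319526035)) (C.cons (nat_lit 552) (C.miq (nat_lit 1698263204) (nat_lit 667340334722805571620701331)) C.nil))))))))) C.nil)))) C.nil))) (C.cons (nat_lit 212) (C.miq (nat_lit 698642614) (nat_lit 1885928189490132996120905953)) (C.cons (nat_lit 208) (C.node (nat_lit 4) (nat_lit 7) (nat_lit 9) (C.cons (nat_lit 912) (C.node (nat_lit 2) (nat_lit 4) (nat_lit 7) (C.cons (nat_lit 180) (C.node (nat_lit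 2) (nat_lit 4) (nat_lit 8) (C.cons (nat_lit 1300) (C.miq (nat_lit 323094952) (nat_lit 2510943778980494294530658049)) (C.cons (nat_lit 276) (C.node (nat_lit 2) (nat_lit 4) (nat_lit 10) (C.cons (nat_lit 1044) (C.node (nat_lit 4) (nat_lit 5) (nat_lit 10) (C.cons (nat_lit 1328) (C.miq (nat_lit 2686814580) (nat_lit 44754753683019321560007568)) (C.cons (nat_lit 1072) (C.node (nat_lit 4) (nat_lit 8) (nat_lit 10) (C.cons (nat_lit 1296) (C.node (nat_lit 4) (nat_lit 8) (nat_lit 11) (C.cons (nat_lit 2354) (C.miq (nat_lit 2554465111) (nat_lit 333675425444720690790140129)) (C.cons (nat_lit 2352) (C.miq (nat_lit 2554465111) (nat_lit 333675425444720682200205537)) (C.cons (nat_lit 2322) (C.miq (nat_lit 463635552) (nat_lit 3718660673281889160738963793)) C.nil)))) C.nil)) C.nil))) C.nil)) C.nil))) (C.cons (nat_lit 148) (C.node (nat_lit 4) (nat_lit 5) (nat_lit 7) (C.cons (nat_lit 176) (C.node (nat_lit 1) (nat_lit 7) (nat_lit 11) (C.cons (nat_lit 2434) (C.miq (nat_lit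 323467928) (nat_lit 183801624824011622034968321)) (C.cons (nat_lit 2182) (C.node (nat_lit 7) (nat_lit 8) (nat_lit 11) C.nil)
  (C.cons (nat_lit 2178) (C.node (nat_lit 2) (nat_lit 7) (nat_lit 11) C.nil) C.nil)))) C.nil)) C.nil))) (C.cons (nat_lit 656) (C.node (nat_lit 6) (nat_lit 7) (nat_lit 10) (C.cons (nat_lit 1472) (C.miq (nat_lit 879168424) (nat_lit 251463820634900900654092033)) (C.cons (nat_lit 1224) (C.node (nat_lit 3) (nat_lit 6) (nat_lit 9) (C.cons (nat_lit 876) (C.miq (nat_lit 338823832) (nat_lit 2510943779162890079411375873)) (C.cons (nat_lit 872) (C.miq (nat_lit 2490781859) (nat_lit 251472656198587634489492521)) (C.cons (nat_lit 844) (C.miq (nat_lit 338823832) (nat_lit 2510943779162890079409278721)) (C.cons (nat_lit 840) (C.miq (nat_lit 1446578084) (nat_lit 1015508037739511737017173139)) (C.cons (nat_lit 620) (C.miq (nat_lit 2490781859) (nat_lit 251468007619081059682485289)) (C.cons (nat_lit 616) (C.miq (nat_lit 2490781859) (nat_lit 251467933832104764844278825))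 (C.cons (nat_lit 588) (C.miq (nat_lit 1446578084) (nat_lit 710858731196625184991216787)) (C.cons (nat_lit 584) (C.miq (nat_lit 1446578084) (nat_lit 706023027918166668292392083)) C.nil))))))))) (C.cons (nat_lit 1216) (C.node (nat_lit 3) (nat_lit 6) (nat_lit 10) (C.cons (nat_lit 1352) (C.node (nat_lit 1) (nat_lit 6) (nat_lit 10) (C.cons (nat_lit 1122) (C.node (nat_lit 1) (nat_lit 8) (nat_lit 10) (C.cons (nat_lit 1282) (C.node (nat_lit 1) (nat_lit 4) (nat_lit 11) (C.cons (nat_lit 2354) (C.miq (nat_lit 605686614) (nat_lit 1415672297644636965175429345)) (C.cons (nat_lit 2322) (C.miq (nat_lit 463635552) (nat_lit 3718660673281889160738963793)) (C.cons (nat_lit 2098) (C.miq (nat_lit 605686614) (nat_lit 1415672297644635865663801569)) (C.cons (nat_lit 2066) (C.node (nat_lit 4) (nat_lit 5) (nat_lit 11) C.nil) C.nil))))) C.nil)) (C.cons (nat_lit 1090) (C.node (nat_lit 5) (nat_lit 6) (nat_lit 10) (C.cons (nat_lit 1120) (C.node (nat_lit 1) (nat_lit 8) (nat_lit 10)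 (C.cons (nat_lit 1314) (C.node (nat_lit 6) (nat_lit 8) (nat_lit 11) (C.cons (nat_lit 2368) (C.node (nat_lit 1) (nat_lit 4) (nat_lit 11) C.nil) C.nil)) (C.cons (nat_lit 1282) (C.node (nat_lit 2) (nat_lit 3) (nat_lit 10) (C.cons (nat_lit 1164) (C.node (nat_lit 1) (nat_lit 3) (nat_lit 7) C.nil) C.nil)) C.nil))) C.nil)) C.nil))) (C.cons (nat_lit 1096) (C.node (nat_lit 3) (nat_lit 7) (nat_lit 10) (C.cons (nat_lit 1164) (C.node (nat_lit 3) (nat_lit 8) (nat_lit 10) C.nil) (C.cons (nat_lit 1160) (C.node (nat_lit 2) (nat_lit 3) (nat_lit 10) C.nil) C.nil))) C.nil))) C.nil)))) C.nil))) C.nil)))) C.nil))) C.nil)) C.nil))) C.nil))) C.nil))) C.nil)) C.nil))) C.nil)))) C.nil))) (C.cons (nat_lit 3080) (C.node (nat_lit 7) (nat_lit 10) (nat_lit 11) (C.cons (nat_lit 3204) (C.node (nat_lit 1) (nat_lit 10) (nat_lit 11) (C.cons (nat_lit 3106) (C.node (nat_lit 1) (nat_lit 4) (nat_lit 11) (C.cons (nat_lit 2322) (C.miq (nat_lit 463635552) (nat_lit 3873403178192561695101354321))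 (C.cons (nat_lit 2066) (C.node (nat_lit 1) (nat_lit 9) (nat_lit 10) (C.cons (nat_lit 1542) (C.miq (nat_lit 352955250) (nat_lit 678235830557439667304991876)) (C.cons (nat_lit 1538) (C.node (nat_lit 5) (nat_lit 9) (nat_lit 11) (C.cons (nat_lit 2600) (C.miq (nat_lit 1397209504) (nat_lit 183798654762544816039595777)) (C.cons (nat_lit 2596) (C.miq (nat_lit 692761863) (nat_lit 1885983382697545127039273185)) (C.cons (nat_lit 2592) (C.node (nat_lit 1) (nat_lit 2) (nat_lit 10) (C.cons (nat_lit 1038) (C.node (nat_lit 1) (nat_lit 6) (nat_lit 10) (C.cons (nat_lit 1346) (C.miq (nat_lit 1781825824) (nat_lit 1885930495530444129625243911)) (C.cons (nat_lit 1090) (C.node (nat_lit 1) (nat_lit 8) (nat_lit 10) (C.cons (nat_lit 1282) (C.node (nat_lit 7) (nat_lit 8) (nat_lit 11) (C.cons (nat_lit 2434) (C.miq (nat_lit 2174974800) (nat_lit 1254872251015529484750751969)) (C.cons (nat_lit 2432) (C.node (nat_lit 3) (nat_lit 5) (nat_lit 11) (C.cons (nat_lit 2344) (C.miq (nat_lit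 461874480) (nat_lit 2940129195314359811862758441)) (C.cons (nat_lit 2088) (C.node (nat_lit 2) (nat_lit 4) (nat_lit 10) (C.cons (nat_lit 1332) (C.miq (nat_lit 323094952) (nat_lit 2510943778980494294532755201)) (C.cons (nat_lit 1300)
  (C.miq (nat_lit 323094952) (nat_lit 2510943778980494294530658049)) (C.cons (nat_lit 1076) (C.miq (nat_lit 1511604784) (nat_lit 1859338259493596554907551773)) (C.cons (nat_lit 1044) (C.node (nat_lit 2) (nat_lit 6) (nat_lit 11) (C.cons (nat_lit 2630) (C.miq (nat_lit 2053702834) (nat_lit 1934293209862954957828130845)) (C.cons (nat_lit 2628) (C.miq (nat_lit 2053702834) (nat_lit 1934293209862954957827999773)) (C.cons (nat_lit 2372) (C.miq (nat_lit 2225234043) (nat_lit 1262162311449477794217855201)) (C.cons (nat_lit 2118) (C.miq (nat_lit 1638249008) (nat_lit 3754965525768486217367226397)) (C.cons (nat_lit 2116) (C.node (nat_lit 1) (nat_lit 2) (nat_lit 11) (C.cons (nat_lit 2566) (C.node (nat_lit 1) (nat_lit 7) (nat_lit 11) (C.cons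 (nat_lit 2186) (C.miq (nat_lit 1906750240) (nat_lit 1317771073444534099577735197)) (C.cons (nat_lit 2178) (C.node (nat_lit 3) (nat_lit 7) (nat_lit 11) (C.cons (nat_lit 2696) (C.miq (nat_lit 2276590481) (nat_lit 3873403177649594506617946635)) (C.cons (nat_lit 2184) (C.node (nat_lit 7) (nat_lit 9) (nat_lit 11) (C.cons (nat_lit 2688) (C.node (nat_lit 3) (nat_lit 9) (nat_lit 11) (C.cons (nat_lit 2632) (C.miq (nat_lit 342035129) (nat_lit 106395120102858653107228417)) C.nil)) C.nil)) C.nil))) C.nil))) (C.cons (nat_lit 2054) (C.node (nat_lit 2) (nat_lit 9) (nat_lit 11) (C.cons (nat_lit 2564) (C.node (nat_lit 2) (nat_lit 5) (nat_lit 11) (C.cons (nat_lit 2340) (C.node (nat_lit 2) (nat_lit 8) (nat_lit 10) (C.cons (nat_lit 1284) (C.node (nat_lit 4) (nat_lit 5) (nat_lit 11) (C.cons (nat_lit 2096) (C.node (nat_lit 4) (nat_lit 8) (nat_lit 11) C.nil) C.nil)) C.nil)) (C.cons (nat_lit 2084) (C.node (nat_lit 2) (nat_lit 8) (nat_lit 11) C.nil) C.nil))) C.nil)) C.nil)))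 C.nil)))))) C.nil))))) C.nil))) C.nil))) C.nil)) C.nil))) (C.cons (nat_lit 1030) (C.node (nat_lit 2) (nat_lit 3) (nat_lit 10) (C.cons (nat_lit 1292) (C.node (nat_lit 1) (nat_lit 8) (nat_lit 10) (C.cons (nat_lit 1346) (C.miq (nat_lit 447907392) (nat_lit 3873403177917842117896241489)) (C.cons (nat_lit 1282) (C.node (nat_lit 5) (nat_lit 7) (nat_lit 10) (C.cons (nat_lit 1440) (C.miq (nat_lit 1512798256) (nat_lit 3873440255899880933266620809)) (C.cons (nat_lit 1184) (C.node (nat_lit 7) (nat_lit 8) (nat_lit 10) (C.cons (nat_lit 1472) (C.miq (nat_lit 1934000314) (nat_lit 106412625843992454535057153)) (C.cons (nat_lit 1408) (C.node (nat_lit 7) (nat_lit 8) (nat_lit 11) (C.cons (nat_lit 2434) (C.miq (nat_lit 941230005) (nat_lit 1549862546639023222647032033)) (C.cons (nat_lit 2432) (C.node (nat_lit 3) (nat_lit 5) (nat_lit 11) (C.cons (nat_lit 2344) (C.miq (nat_lit 461874480) (nat_lit 2940129195314359811862758441)) (C.cons (nat_lit 2088) (C.node (nat_lit 5) (nat_lit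 6) (nat_lit 10) (C.cons (nat_lit 1376) (C.miq (nat_lit 2209718790) (nat_lit 2524262494438865731835724869)) (C.cons (nat_lit 1120) (C.node (nat_lit 6) (nat_lit 8) (nat_lit 10) (C.cons (nat_lit 1344) (C.node (nat_lit 1) (nat_lit 3) (nat_lit 10) (C.cons (nat_lit 1098) (C.node (nat_lit 3) (nat_lit 7) (nat_lit 10) C.nil) C.nil)) C.nil)) C.nil))) C.nil))) C.nil))) C.nil))) C.nil))) C.nil))) (C.cons (nat_lit 1036) (C.node (nat_lit 2) (nat_lit 5) (nat_lit 11) (C.cons (nat_lit 2340) (C.node (nat_lit 3) (nat_lit 5) (nat_lit 11) (C.cons (nat_lit 2088) (C.node (nat_lit 4) (nat_lit 5) (nat_lit 11) (C.cons (nat_lit 2096) (C.node (nat_lit 4) (nat_lit 8) (nat_lit 11) (C.cons (nat_lit 2320) (C.node (nat_lit 2) (nat_lit 8) (nat_lit 10) (C.cons (nat_lit 1300) (C.miq (nat_lit 323094952) (nat_lit 2510943778980494294530658049)) (C.cons (nat_lit 1284) (C.node (nat_lit 5) (nat_lit 7) (nat_lit 10) (C.cons (nat_lit 1440) (C.miq (nat_lit 1116343127) (nat_lit 1552282354107127751153551585))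 (C.cons (nat_lit 1184) (C.node (nat_lit 7) (nat_lit 8) (nat_lit 10) (C.cons (nat_lit 1472) (C.miq (nat_lit 1934000314) (nat_lit 106412625843992454535057153)) (C.cons (nat_lit 1408) (C.node (nat_lit 7) (nat_lit 8) (nat_lit 11) (C.cons (nat_lit 2434) (C.miq (nat_lit 901253655) (nat_lit 2828893667768437427191022739)) (C.cons (nat_lit 2432)
  (C.node (nat_lit 1) (nat_lit 8) (nat_lit 10) (C.cons (nat_lit 1354) (C.miq (nat_lit 1747689732) (nat_lit 2828944562416670849497891987)) (C.cons (nat_lit 1346) (C.miq (nat_lit 1747689732) (nat_lit 2828944562414419049684206739)) (C.cons (nat_lit 1290) (C.miq (nat_lit 410755845) (nat_lit 2940164889252975502780597289)) C.nil)))) C.nil))) C.nil))) C.nil))) C.nil))) C.nil)) C.nil)) C.nil)) (C.cons (nat_lit 2084) (C.node (nat_lit 2) (nat_lit 8) (nat_lit 11) (C.cons (nat_lit 2372) (C.miq (nat_lit 2169184422) (nat_lit 2497684499074799662487569477)) (C.cons (nat_lit 2308) (C.node (nat_lit 2) (nat_lit 9) (nat_lit 10) (C.cons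 (nat_lit 1572) (C.node (nat_lit 2) (nat_lit 4) (nat_lit 10) (C.cons (nat_lit 1300) (C.miq (nat_lit 323094952) (nat_lit 2510943778980494294530658049)) (C.cons (nat_lit 1044) (C.node (nat_lit 2) (nat_lit 8) (nat_lit 10) (C.cons (nat_lit 1284) (C.node (nat_lit 4) (nat_lit 5) (nat_lit 6) (C.cons (nat_lit 118) (C.miq (nat_lit 2316569430) (nat_lit 1415658352402642329421613281)) (C.cons (nat_lit 116) (C.miq (nat_lit 2303986214) (nat_lit 678213602437711944370881605)) (C.cons (nat_lit 114) (C.miq (nat_lit 2316569430) (nat_lit 1415658352402642329421351137)) (C.cons (nat_lit 112) (C.node (nat_lit 3) (nat_lit 5) (nat_lit 11) (C.cons (nat_lit 2344) (C.node (nat_lit 4) (nat_lit 5) (nat_lit 11) (C.cons (nat_lit 2096) (C.node (nat_lit 4) (nat_lit 8) (nat_lit 11) (C.cons (nat_lit 2320) (C.node (nat_lit 3) (nat_lit 4) (nat_lit 5) (C.cons (nat_lit 58) (C.miq (nat_lit 1901267640) (nat_lit 70124947437689998036963073)) (C.cons (nat_lit 56) (C.node (nat_lit 5) (nat_lit 6)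 (nat_lit 10) (C.cons (nat_lit 1376) (C.miq (nat_lit 950187360) (nat_lit 1552299066932408210417846497)) (C.cons (nat_lit 1120) (C.node (nat_lit 5) (nat_lit 7) (nat_lit 10) (C.cons (nat_lit 1440) (C.miq (nat_lit 1949671608) (nat_lit 67726409539501494066745089)) C.nil)) C.nil))) C.nil))) C.nil)) C.nil)) (C.cons (nat_lit 2088) (C.node (nat_lit 7) (nat_lit 8) (nat_lit 11) (C.cons (nat_lit 2434) (C.miq (nat_lit 2203807905) (nat_lit 2524282010841045366026142867)) (C.cons (nat_lit 2432) (C.node (nat_lit 1) (nat_lit 8) (nat_lit 10) (C.cons (nat_lit 1354) (C.miq (nat_lit 1747689732) (nat_lit 2790258936189002715907294355)) (C.cons (nat_lit 1346) (C.miq (nat_lit 1747689732) (nat_lit 2790258936186750916093609107)) (C.cons (nat_lit 1290) (C.miq (nat_lit 410755845) (nat_lit 2940164889252975502780597289)) (C.cons (nat_lit 1282) (C.node (nat_lit 1) (nat_lit 3) (nat_lit 10) (C.cons (nat_lit 1098) (C.node (nat_lit 3) (nat_lit 7) (nat_lit 10) (C.cons (nat_lit 1160) (C.node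 (nat_lit 3) (nat_lit 8) (nat_lit 10) C.nil) C.nil)) (C.cons (nat_lit 1034) (C.node (nat_lit 1) (nat_lit 6) (nat_lit 10) C.nil) C.nil))) C.nil))))) C.nil))) C.nil))) C.nil))))) C.nil)) C.nil))) (C.cons (nat_lit 1540) (C.node (nat_lit 5) (nat_lit 9) (nat_lit 10) (C.cons (nat_lit 1568) (C.node (nat_lit 3) (nat_lit 5) (nat_lit 11) (C.cons (nat_lit 2344) (C.node (nat_lit 4) (nat_lit 5) (nat_lit 11) (C.cons (nat_lit 2096) (C.node (nat_lit 4) (nat_lit 8) (nat_lit 11) (C.cons (nat_lit 2320) (C.node (nat_lit 3) (nat_lit 4) (nat_lit 5) (C.cons (nat_lit 58) (C.miq (nat_lit 1901267640) (nat_lit 70124947437689998036963073)) (C.cons (nat_lit 56) (C.node (nat_lit 5) (nat_lit 6) (nat_lit 10) (C.cons (nat_lit 1376) (C.miq (nat_lit 2317571595) (nat_lit 1252490388676178862673823969)) (C.cons (nat_lit 1120) (C.node (nat_lit 5) (nat_lit 7) (nat_lit 10) (C.cons (nat_lit 1440) (C.miq (nat_lit 1949671608) (nat_lit 67726409539501494066745089)) C.nil)) C.nil))) C.nil))) C.nil))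 C.nil)) (C.cons (nat_lit 2088) (C.node (nat_lit 7) (nat_lit 8) (nat_lit 11) (C.cons (nat_lit 2434) (C.miq (nat_lit 2203807905) (nat_lit 2524282010841045366026142867)) (C.cons (nat_lit 2432) (C.node (nat_lit 1) (nat_lit 8) (nat_lit 10) (C.cons (nat_lit 1354) (C.miq (nat_lit 1747689732) (nat_lit 2790258936189002715907294355)) (C.cons (nat_lit 1346) (C.miq (nat_lit 1747689732) (nat_lit 2790258936186750916093609107)) (C.cons (nat_lit 1290)
  (C.miq (nat_lit 410755845) (nat_lit 2940164889252975502780597289)) (C.cons (nat_lit 1282) (C.node (nat_lit 1) (nat_lit 3) (nat_lit 10) (C.cons (nat_lit 1098) (C.node (nat_lit 3) (nat_lit 7) (nat_lit 10) (C.cons (nat_lit 1160) (C.node (nat_lit 3) (nat_lit 8) (nat_lit 10) C.nil) C.nil)) (C.cons (nat_lit 1034) (C.node (nat_lit 1) (nat_lit 6) (nat_lit 10) C.nil) C.nil))) C.nil))))) C.nil))) C.nil))) C.nil)) C.nil))) C.nil))) C.nil))) C.nil))) C.nil))) C.nil)))) C.nil))) C.nil))) (C.cons (nat_lit 3074) (C.node (nat_lit 5)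 (nat_lit 10) (nat_lit 11) (C.cons (nat_lit 3104) (C.node (nat_lit 3) (nat_lit 7) (nat_lit 10) (C.cons (nat_lit 1224) (C.node (nat_lit 5) (nat_lit 7) (nat_lit 10) (C.cons (nat_lit 1440) (C.node (nat_lit 4) (nat_lit 5) (nat_lit 7) (C.cons (nat_lit 180) (C.miq (nat_lit 614102283) (nat_lit 1885983382017501583481309409)) (C.cons (nat_lit 176) (C.node (nat_lit 4) (nat_lit 8) (nat_lit 10) (C.cons (nat_lit 1300) (C.miq (nat_lit 323094952) (nat_lit 2510943778980494294530658049)) (C.cons (nat_lit 1296) (C.node (nat_lit 2) (nat_lit 8) (nat_lit 10) (C.cons (nat_lit 1292) (C.miq (nat_lit 1512798256) (nat_lit 3873440255899880933266620809)) (C.cons (nat_lit 1284) (C.node (nat_lit 6) (nat_lit 8) (nat_lit 10) (C.cons (nat_lit 1346) (C.miq (nat_lit 447907392) (nat_lit 3873403177917842117896241489)) (C.cons (nat_lit 1344) (C.node (nat_lit 2) (nat_lit 8) (nat_lit 11) (C.cons (nat_lit 2372) (C.miq (nat_lit 1244137398) (nat_lit 1552266969267557659400472801)) (C.cons (nat_lit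 2340) (C.miq (nat_lit 628406432) (nat_lit 212809258798273459819581185)) (C.cons (nat_lit 2308) (C.node (nat_lit 2) (nat_lit 3) (nat_lit 7) (C.cons (nat_lit 174) (C.miq (nat_lit 2591099683) (nat_lit 1415661783497040460308678685)) (C.cons (nat_lit 172) (C.miq (nat_lit 732246151) (nat_lit 3752508917508429660022636937)) (C.cons (nat_lit 142) (C.miq (nat_lit 2591099683) (nat_lit 1415661783497040460306581533)) (C.cons (nat_lit 140) (C.node (nat_lit 1) (nat_lit 6) (nat_lit 10) (C.cons (nat_lit 1122) (C.node (nat_lit 1) (nat_lit 8) (nat_lit 10) (C.cons (nat_lit 1290) (C.miq (nat_lit 352888435) (nat_lit 349403358484307603167446216)) (C.cons (nat_lit 1282) (C.node (nat_lit 3) (nat_lit 8) (nat_lit 10) (C.cons (nat_lit 1288) (C.node (nat_lit 1) (nat_lit 3) (nat_lit 10) (C.cons (nat_lit 1038) (C.node (nat_lit 1) (nat_lit 9) (nat_lit 10) C.nil) C.nil)) C.nil)) C.nil))) (C.cons (nat_lit 1090) (C.node (nat_lit 5) (nat_lit 6) (nat_lit 10) (C.cons (nat_lit 1120) (C.node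 (nat_lit 1) (nat_lit 8) (nat_lit 10) (C.cons (nat_lit 1290) (C.node (nat_lit 2) (nat_lit 3) (nat_lit 10) C.nil) C.nil)) C.nil)) C.nil))) C.nil))))) C.nil)))) C.nil))) C.nil))) C.nil))) C.nil))) (C.cons (nat_lit 1184) (C.node (nat_lit 7) (nat_lit 8) (nat_lit 10) (C.cons (nat_lit 1408) (C.node (nat_lit 7) (nat_lit 8) (nat_lit 11) (C.cons (nat_lit 2434) (C.node (nat_lit 3) (nat_lit 8) (nat_lit 11) (C.cons (nat_lit 2376) (C.miq (nat_lit 1178053504) (nat_lit 1479746805232835755185344257)) (C.cons (nat_lit 2344) (C.miq (nat_lit 458913840) (nat_lit 3752527345906239432959787401)) (C.cons (nat_lit 2312) (C.node (nat_lit 6) (nat_lit 8) (nat_lit 11) (C.cons (nat_lit 2372) (C.miq (nat_lit 2709653430) (nat_lit 317967653179537689321670881)) (C.cons (nat_lit 2368) (C.node (nat_lit 1) (nat_lit 3) (nat_lit 7) (C.cons (nat_lit 174) (C.miq (nat_lit 2591099683) (nat_lit 1415661783497040460308678685)) (C.cons (nat_lit 170) (C.miq (nat_lit 1521561735) (nat_lit 3716241105741649960996307337))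 (C.cons (nat_lit 142) (C.miq (nat_lit 2591099683) (nat_lit 1415661783497040460306581533)) (C.cons (nat_lit 138) (C.node (nat_lit 1) (nat_lit 4) (nat_lit 11) (C.cons (nat_lit 2098) (C.node (nat_lit 4) (nat_lit 8) (nat_lit 11) (C.cons (nat_lit 2320) (C.node (nat_lit 1) (nat_lit 3) (nat_lit 4) (C.cons (nat_lit 282) (C.miq (nat_lit 1367847984) (nat_lit 2942567374981822665391147037)) (C.cons (nat_lit 26) (C.node (nat_lit 1) (nat_lit 4) (nat_lit 8) (C.cons (nat_lit 786) (C.miq (nat_lit 1900394640) (nat_lit 2536368299685885019539181313))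
  (C.cons (nat_lit 274) (C.node (nat_lit 3) (nat_lit 5) (nat_lit 11) (C.cons (nat_lit 2600) (C.miq (nat_lit 1397209504) (nat_lit 183798654762544816039595777)) (C.cons (nat_lit 2088) (C.node (nat_lit 5) (nat_lit 9) (nat_lit 11) (C.cons (nat_lit 2596) (C.miq (nat_lit 692761863) (nat_lit 1885983382697545127039273185)) (C.cons (nat_lit 2592) (C.node (nat_lit 1) (nat_lit 2) (nat_lit 4) (C.cons (nat_lit 598) (C.miq (nat_lit 683020452) (nat_lit 2862747372074442380066948243)) (C.cons (nat_lit 534) (C.miq (nat_lit 565679184) (nat_lit 2942537343242251602449465905)) (C.cons (nat_lit 86) (C.miq (nat_lit 683020452) (nat_lit 2862737927341476640776520851)) (C.cons (nat_lit 22) (C.node (nat_lit 1) (nat_lit 6) (nat_lit 10) (C.cons (nat_lit 1378) (C.miq (nat_lit 1629792267) (nat_lit 26654512556715821970034433)) (C.cons (nat_lit 1346) (C.miq (nat_lit 1629792267) (nat_lit 26654512547708622715293441)) (C.cons (nat_lit 1122) (C.miq (nat_lit 605686614) (nat_lit 1415672297644635865663801569))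 (C.cons (nat_lit 1090) (C.node (nat_lit 1) (nat_lit 3) (nat_lit 11) (C.cons (nat_lit 2122) (C.node (nat_lit 1) (nat_lit 2) (nat_lit 11) (C.cons (nat_lit 2054) (C.node (nat_lit 1) (nat_lit 9) (nat_lit 11) C.nil) C.nil)) (C.cons (nat_lit 2058) (C.node (nat_lit 3) (nat_lit 6) (nat_lit 11) (C.cons (nat_lit 2632) (C.miq (nat_lit 342035129) (nat_lit 106395120102858653107228417)) C.nil)) C.nil))) C.nil))))) C.nil))))) C.nil))) C.nil))) C.nil))) C.nil))) C.nil)) (C.cons (nat_lit 2066) (C.node (nat_lit 2) (nat_lit 3) (nat_lit 7) (C.cons (nat_lit 172) (C.node (nat_lit 1) (nat_lit 2) (nat_lit 7) (C.cons (nat_lit 198) (C.miq (nat_lit 2819754870) (nat_lit 317967653931075876996647137)) (C.cons (nat_lit 134) (C.node (nat_lit 3) (nat_lit 8) (nat_lit 10) (C.cons (nat_lit 1292) (C.miq (nat_lit 1537372291) (nat_lit 3873401499525061672918843785)) (C.cons (nat_lit 1290) (C.miq (nat_lit 1460865930) (nat_lit 166851409529060402880188161)) (C.cons (nat_lit 1288) (C.node (nat_lit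 2) (nat_lit 3) (nat_lit 8) (C.cons (nat_lit 844) (C.miq (nat_lit 338823832) (nat_lit 2510943779162890079409278721)) (C.cons (nat_lit 780) (C.miq (nat_lit 338823832) (nat_lit 2510943779162890079405084417)) (C.cons (nat_lit 332) (C.miq (nat_lit 308938807) (nat_lit 1321377522050129346723053961)) (C.cons (nat_lit 268) (C.node (nat_lit 2) (nat_lit 3) (nat_lit 9) (C.cons (nat_lit 588) (C.miq (nat_lit 1446578084) (nat_lit 710858731196625184991216787)) (C.cons (nat_lit 524) (C.node (nat_lit 1) (nat_lit 3) (nat_lit 10) (C.cons (nat_lit 1038) (C.node (nat_lit 2) (nat_lit 3) (nat_lit 6) C.nil) (C.cons (nat_lit 1034) (C.node (nat_lit 2) (nat_lit 3) (nat_lit 10) C.nil) C.nil))) C.nil))) C.nil))))) C.nil)))) C.nil))) (C.cons (nat_lit 140) (C.node (nat_lit 3) (nat_lit 5) (nat_lit 7) (C.cons (nat_lit 680) (C.miq (nat_lit 1670740544) (nat_lit 822111487131759452290614419)) (C.cons (nat_lit 168) (C.node (nat_lit 2) (nat_lit 8) (nat_lit 11) (C.cons (nat_lit 2340) (C.node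 (nat_lit 4) (nat_lit 5) (nat_lit 11) (C.cons (nat_lit 2096) (C.node (nat_lit 4) (nat_lit 8) (nat_lit 11) (C.cons (nat_lit 2320) (C.node (nat_lit 1) (nat_lit 2) (nat_lit 7) (C.cons (nat_lit 198) (C.miq (nat_lit 2819754870) (nat_lit 317967653931075876996647137)) (C.cons (nat_lit 166) (C.miq (nat_lit 2820737879) (nat_lit 317969092777113222612650209)) (C.cons (nat_lit 134) (C.node (nat_lit 2) (nat_lit 5) (nat_lit 7) (C.cons (nat_lit 180) (C.miq (nat_lit 614102283) (nat_lit 1885983382017501583481309409)) (C.cons (nat_lit 164) (C.node (nat_lit 1) (nat_lit 5) (nat_lit 7) C.nil) C.nil))) C.nil)))) C.nil)) C.nil)) (C.cons (nat_lit 2308) (C.node (nat_lit 3) (nat_lit 7) (nat_lit 9) (C.cons (nat_lit 2696) (C.node (nat_lit 2) (nat_lit 9) (nat_lit 11) (C.cons (nat_lit 2630) (C.miq (nat_lit 2441589251) (nat_lit 2942575178104310450537170973)) (C.cons (nat_lit 2628) (C.miq (nat_lit 2053702834) (nat_lit 1934293209862954957827999773)) (C.cons (nat_lit 2598) (C.miq (nat_lit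 692761863) (nat_lit 1885983382698108076992694497)) (C.cons (nat_lit 2596)
  (C.miq (nat_lit 692761863) (nat_lit 1885983382697545127039273185)) (C.cons (nat_lit 2566) (C.miq (nat_lit 2441589251) (nat_lit 2942575178086296052027688989)) (C.cons (nat_lit 2564) (C.node (nat_lit 2) (nat_lit 5) (nat_lit 11) (C.cons (nat_lit 2086) (C.node (nat_lit 2) (nat_lit 6) (nat_lit 11) (C.cons (nat_lit 2116) (C.node (nat_lit 3) (nat_lit 5) (nat_lit 11) C.nil) C.nil)) (C.cons (nat_lit 2084) (C.node (nat_lit 1) (nat_lit 2) (nat_lit 11) (C.cons (nat_lit 2118) (C.node (nat_lit 3) (nat_lit 6) (nat_lit 11) C.nil) C.nil)) C.nil))) C.nil))))))) (C.cons (nat_lit 648) (C.node (nat_lit 3) (nat_lit 7) (nat_lit 11) C.nil) C.nil))) C.nil))) C.nil))) C.nil))) C.nil))) C.nil))))) C.nil))) C.nil)))) (C.cons (nat_lit 2432) (C.ref (nat_lit 247) (nat_lit 198064386771216)) C.nil))) C.nil)) C.nil))) (C.cons (nat_lit 1160) (C.node (nat_lit 6) (nat_lit 7) (nat_lit 10) (C.cons (nat_lit 1472)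 (C.miq (nat_lit 1934000314) (nat_lit 106412625843992454535057153)) (C.cons (nat_lit 1216) (C.node (nat_lit 5) (nat_lit 7) (nat_lit 10) (C.cons (nat_lit 1440) (C.node (nat_lit 4) (nat_lit 5) (nat_lit 7) (C.cons (nat_lit 180) (C.miq (nat_lit 614102283) (nat_lit 1885983382017501583481309409)) (C.cons (nat_lit 176) (C.node (nat_lit 4) (nat_lit 8) (nat_lit 10) (C.cons (nat_lit 1300) (C.miq (nat_lit 323094952) (nat_lit 2510943778980494294530658049)) (C.cons (nat_lit 1296) (C.node (nat_lit 2) (nat_lit 8) (nat_lit 10) (C.cons (nat_lit 1292) (C.miq (nat_lit 1512798256) (nat_lit 3873440255899880933266620809)) (C.cons (nat_lit 1284) (C.node (nat_lit 2) (nat_lit 8) (nat_lit 11) (C.cons (nat_lit 2372) (C.miq (nat_lit 1244137398) (nat_lit 1552266969267557659400472801)) (C.cons (nat_lit 2340) (C.miq (nat_lit 628406432) (nat_lit 212809258798273459819581185)) (C.cons (nat_lit 2308) (C.node (nat_lit 2) (nat_lit 3) (nat_lit 10) (C.cons (nat_lit 1038) (C.node (nat_lit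 1) (nat_lit 8) (nat_lit 10) (C.cons (nat_lit 1346) (C.miq (nat_lit 1747689732) (nat_lit 2790258936186750916093609107)) (C.cons (nat_lit 1282) (C.node (nat_lit 1) (nat_lit 9) (nat_lit 10) (C.cons (nat_lit 1570) (C.miq (nat_lit 352495939) (nat_lit 44749403488007913027208728)) C.nil)) C.nil))) (C.cons (nat_lit 1036) (C.node (nat_lit 2) (nat_lit 4) (nat_lit 10) (C.cons (nat_lit 1076) (C.node (nat_lit 5) (nat_lit 9) (nat_lit 10) (C.cons (nat_lit 1570) (C.miq (nat_lit 438539584) (nat_lit 1252456797209826710047752753)) C.nil)) C.nil)) C.nil))) C.nil)))) C.nil))) C.nil))) C.nil))) (C.cons (nat_lit 1184) (C.node (nat_lit 7) (nat_lit 8) (nat_lit 10) (C.cons (nat_lit 1408) (C.node (nat_lit 7) (nat_lit 8) (nat_lit 11) (C.cons (nat_lit 2434) (C.node (nat_lit 3) (nat_lit 8) (nat_lit 11) (C.cons (nat_lit 2376) (C.miq (nat_lit 1952647864) (nat_lit 106392722026129070848741121)) (C.cons (nat_lit 2344) (C.miq (nat_lit 458913840) (nat_lit 3752527345906239432959787401))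 (C.cons (nat_lit 2312) (C.node (nat_lit 6) (nat_lit 8) (nat_lit 11) (C.cons (nat_lit 2372) (C.miq (nat_lit 2709653430) (nat_lit 317967653179537689321670881)) (C.cons (nat_lit 2368) (C.node (nat_lit 1) (nat_lit 4) (nat_lit 11) (C.cons (nat_lit 2098) (C.node (nat_lit 4) (nat_lit 8) (nat_lit 11) (C.cons (nat_lit 2320) (C.node (nat_lit 1) (nat_lit 3) (nat_lit 4) (C.cons (nat_lit 282) (C.miq (nat_lit 1367847984) (nat_lit 2942567374981822665391147037)) (C.cons (nat_lit 26) (C.node (nat_lit 1) (nat_lit 4) (nat_lit 8) (C.cons (nat_lit 786) (C.miq (nat_lit 1900394640) (nat_lit 2536368299685885019539181313)) (C.cons (nat_lit 274) (C.node (nat_lit 3) (nat_lit 5) (nat_lit 11) (C.cons (nat_lit 2600) (C.miq (nat_lit 1397209504) (nat_lit 183798654762544816039595777)) (C.cons (nat_lit 2088) (C.node (nat_lit 5) (nat_lit 9) (nat_lit 11) (C.cons (nat_lit 2596) (C.miq (nat_lit 692761863) (nat_lit 1885983382697545127039273185)) (C.cons (nat_lit 2592) (C.node (nat_lit 1)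 (nat_lit 2) (nat_lit 4) (C.cons (nat_lit 598) (C.miq (nat_lit 683020452) (nat_lit 2862747372074442380066948243)) (C.cons (nat_lit 534) (C.miq (nat_lit 565679184) (nat_lit 2942537343242251602449465905))
  (C.cons (nat_lit 86) (C.miq (nat_lit 683020452) (nat_lit 2862737927341476640776520851)) (C.cons (nat_lit 22) (C.node (nat_lit 1) (nat_lit 3) (nat_lit 11) (C.cons (nat_lit 2122) (C.node (nat_lit 1) (nat_lit 2) (nat_lit 11) (C.cons (nat_lit 2054) (C.node (nat_lit 1) (nat_lit 9) (nat_lit 11) C.nil) C.nil)) (C.cons (nat_lit 2058) (C.node (nat_lit 3) (nat_lit 6) (nat_lit 11) (C.cons (nat_lit 2632) (C.miq (nat_lit 342035129) (nat_lit 106395120102858653107228417)) C.nil)) C.nil))) C.nil))))) C.nil))) C.nil))) C.nil))) C.nil))) C.nil)) (C.cons (nat_lit 2066) (C.node (nat_lit 2) (nat_lit 8) (nat_lit 11) (C.cons (nat_lit 2340) (C.node (nat_lit 4) (nat_lit 5) (nat_lit 11) (C.cons (nat_lit 2096) (C.node (nat_lit 4) (nat_lit 8) (nat_lit 11) (C.cons (nat_lit 2320)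 (C.node (nat_lit 1) (nat_lit 2) (nat_lit 7) (C.cons (nat_lit 206) (C.miq (nat_lit 2819754870) (nat_lit 317967653931075876997171425)) (C.cons (nat_lit 198) (C.miq (nat_lit 2819754870) (nat_lit 317967653931075876996647137)) (C.cons (nat_lit 174) (C.miq (nat_lit 2820737879) (nat_lit 317969092777113222613174497)) (C.cons (nat_lit 166) (C.miq (nat_lit 2820737879) (nat_lit 317969092777113222612650209)) (C.cons (nat_lit 142) (C.miq (nat_lit 2591099683) (nat_lit 1415661783497040460306581533)) (C.cons (nat_lit 134) (C.node (nat_lit 1) (nat_lit 8) (nat_lit 10) (C.cons (nat_lit 1378) (C.miq (nat_lit 728237217) (nat_lit 2862741192925770335771559059)) (C.cons (nat_lit 1354) (C.miq (nat_lit 728237217) (nat_lit 2862741192925770335769986195)) (C.cons (nat_lit 1346) (C.miq (nat_lit 728237217) (nat_lit 2862741192925770335769461907)) (C.cons (nat_lit 1314) (C.miq (nat_lit 1264190081) (nat_lit 3752527345805752849110532359)) (C.cons (nat_lit 1290) (C.miq (nat_lit 951427440)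 (nat_lit 2828906064043783943541032083)) (C.cons (nat_lit 1282) (C.node (nat_lit 1) (nat_lit 3) (nat_lit 10) C.nil) C.nil))))))) C.nil))))))) C.nil)) C.nil)) (C.cons (nat_lit 2308) (C.node (nat_lit 3) (nat_lit 7) (nat_lit 11) (C.cons (nat_lit 2696) (C.node (nat_lit 2) (nat_lit 9) (nat_lit 11) (C.cons (nat_lit 2630) (C.miq (nat_lit 2441589251) (nat_lit 2942575178104310450537170973)) (C.cons (nat_lit 2628) (C.miq (nat_lit 2053702834) (nat_lit 1934293209862954957827999773)) (C.cons (nat_lit 2598) (C.miq (nat_lit 692761863) (nat_lit 1885983382698108076992694497)) (C.cons (nat_lit 2596) (C.miq (nat_lit 692761863) (nat_lit 1885983382697545127039273185)) (C.cons (nat_lit 2566) (C.miq (nat_lit 2441589251) (nat_lit 2942575178086296052027688989)) (C.cons (nat_lit 2564) (C.node (nat_lit 2) (nat_lit 5) (nat_lit 11) (C.cons (nat_lit 2086) (C.node (nat_lit 2) (nat_lit 6) (nat_lit 11) (C.cons (nat_lit 2116) (C.node (nat_lit 3) (nat_lit 5) (nat_lit 11) C.nil) C.nil))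 (C.cons (nat_lit 2084) (C.node (nat_lit 1) (nat_lit 2) (nat_lit 11) (C.cons (nat_lit 2118) (C.node (nat_lit 3) (nat_lit 6) (nat_lit 11) C.nil) C.nil)) C.nil))) C.nil))))))) (C.cons (nat_lit 2184) (C.node (nat_lit 7) (nat_lit 9) (nat_lit 11) (C.cons (nat_lit 2688) (C.node (nat_lit 3) (nat_lit 9) (nat_lit 11) (C.cons (nat_lit 2632) (C.miq (nat_lit 342035129) (nat_lit 106395120102858653107228417)) (C.cons (nat_lit 2600) (C.miq (nat_lit 1397209504) (nat_lit 183798654762544816039595777)) C.nil))) C.nil)) C.nil))) C.nil))) C.nil))) C.nil))) C.nil)))) (C.cons (nat_lit 2432) (C.ref (nat_lit 248) (nat_lit 198064386771216)) C.nil))) C.nil)) C.nil))) C.nil))) C.nil))) C.nil)) C.nil))) (C.cons (nat_lit 3200) (C.ref (nat_lit 272) (nat_lit 205163983024656)) C.nil))) C.nil)))) List.nil)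

theorem ok12_273 : okL par12 (nat_lit 274) c12_273 (nat_lit 273) = true := by decide +kernel

noncomputable def c12_274 : List C :=
  (List.cons (C.node (nat_lit 2) (nat_lit 4) (nat_lit 7) (C.cons (nat_lit 404) (C.node (nat_lit 2) (nat_lit 4) (nat_lit 9) (C.cons (nat_lit 534) (C.miq (nat_lit 1955824144) (nat_lit 647991488997580389634212103)) (C.cons (nat_lit 532) (C.node (nat_lit 2) (nat_lit 4) (nat_lit 10) (C.cons (nat_lit 1076) (C.miq (nat_lit 2191553619) (nat_lit 1321363170522931167853347000)) (C.cons (nat_lit 1044) (C.node (nat_lit 3) (nat_lit 4) (nat_lit 8) (C.cons (nat_lit 282) (C.miq (nat_lit 421802104) (nat_lit 643153738164025690137297289)) (C.cons (nat_lit 280) (C.node (nat_lit 7) (nat_lit 8) (nat_lit 10) (C.cons (nat_lit 1440) (C.miq (nat_lit 1421505288) (nat_lit 3810560746788577617041752457)) (C.cons (nat_lit 1408) (C.node (nat_lit 5) (nat_lit 7) (nat_lit 8) (C.cons (nat_lit 930) (C.miq (nat_lit 407082784) (nat_lit 338508877401020182657041029))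 (C.cons (nat_lit 928) (C.miq (nat_lit 3109292147) (nat_lit 678245699772397433036210569)) (C.cons (nat_lit 418) (C.miq (nat_lit 355501890) (nat_lit 1287510849500928787349307796)) (C.cons (nat_lit 416) (C.node (nat_lit 7) (nat_lit 8) (nat_lit 9) (C.cons (nat_lit 898) (C.miq (nat_lit 407082784) (nat_lit 338508877392012983402300037)) (C.cons (nat_lit 896) (C.node (nat_lit 1) (nat_lit 3) (nat_lit 4) (C.cons (nat_lit 90) (C.node (nat_lit 1) (nat_lit 2) (nat_lit 4) (C.cons (nat_lit 54) (C.miq (nat_lit 410329140) (nat_lit 502914137157895323802667037)) (C.cons (nat_lit 22) (C.node (nat_lit 3) (nat_lit 6) (nat_lit 11) (C.cons (nat_lit 2632) (C.node (nat_lit 3) (nat_lit 8) (nat_lit 9) (C.cons (nat_lit 812) (C.miq (nat_lit 391644210) (nat_lit 502917992782985110345222173)) (C.cons (nat_lit 808) (C.miq (nat_lit 2840856631) (nat_lit 678228987022266136786370953)) (C.cons (nat_lit 780) (C.miq (nat_lit 394855459) (nat_lit 1083207182351467223578314781)) (C.cons (nat_lit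 776) (C.node (nat_lit 1) (nat_lit 4) (nat_lit 9) (C.cons (nat_lit 786) (C.node (nat_lit 4) (nat_lit 5) (nat_lit 10) (C.cons (nat_lit 1328) (C.miq (nat_lit 1410574480) (nat_lit 108822969921557271346351873)) (C.cons (nat_lit 1072) (C.node (nat_lit 4) (nat_lit 8) (nat_lit 10) C.nil) C.nil))) (C.cons (nat_lit 530) (C.node (nat_lit 4) (nat_lit 8) (nat_lit 9) C.nil) C.nil))) C.nil))))) (C.cons (nat_lit 2376) (C.miq (nat_lit 1952647864) (nat_lit 108810573665358329198153473)) (C.cons (nat_lit 2120) (C.miq (nat_lit 2606959169) (nat_lit 2562932386311323323761034387)) C.nil)))) C.nil))) (C.cons (nat_lit 26) (C.node (nat_lit 3) (nat_lit 4) (nat_lit 6) (C.cons (nat_lit 88) (C.node (nat_lit 1) (nat_lit 4) (nat_lit 9) (C.cons (nat_lit 786) (C.node (nat_lit 4) (nat_lit 5) (nat_lit 10) (C.cons (nat_lit 1328) (C.miq (nat_lit 1410574480) (nat_lit 31451717466221004165156609)) C.nil)) C.nil)) C.nil)) C.nil))) C.nil))) C.nil))))) C.nil))) C.nil))) C.nil))) C.nil))) (C.cons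 (nat_lit 148) (C.node (nat_lit 4) (nat_lit 7) (nat_lit 8) (C.cons (nat_lit 400) (C.node (nat_lit 3) (nat_lit 4) (nat_lit 6) (C.cons (nat_lit 90) (C.node (nat_lit 3) (nat_lit 4) (nat_lit 8) (C.cons (nat_lit 280) (C.node (nat_lit 3) (nat_lit 6) (nat_lit 11) (C.cons (nat_lit 2632) (C.node (nat_lit 2) (nat_lit 4) (nat_lit 6) (C.cons (nat_lit 116) (C.node (nat_lit 2) (nat_lit 4) (nat_lit 10) (C.cons (nat_lit 1300) (C.miq (nat_lit 2152901476) (nat_lit 44754237174192249895128144)) (C.cons (nat_lit 1044) (C.node (nat_lit 2) (nat_lit 6) (nat_lit 9) (C.cons (nat_lit 836) (C.miq (nat_lit 342362002) (nat_lit 407412853033431707647476357)) (C.cons (nat_lit 582) (C.miq (nat_lit 2786702384) (nat_lit 703665681846910811240073245)) (C.cons (nat_lit 580) (C.node (nat_lit 4) (nat_lit 8) (nat_lit 11) (C.cons (nat_lit 2354) (C.miq (nat_lit 641796792) (nat_lit 108808175566673698771570433)) (C.cons (nat_lit 2352) (C.miq (nat_lit 2217391456) (nat_lit 1262189410283689620292307169))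 (C.cons (nat_lit 2322) (C.miq (nat_lit 641796792) (nat_lit 108808175566673698769473281)) (C.cons (nat_lit 2320) (C.node (nat_lit 1) (nat_lit 2) (nat_lit 4) (C.cons (nat_lit 534)
  (C.node (nat_lit 2) (nat_lit 4) (nat_lit 8) C.nil) C.nil)) C.nil))))) C.nil)))) C.nil))) (C.cons (nat_lit 84) (C.node (nat_lit 4) (nat_lit 5) (nat_lit 6) (C.cons (nat_lit 112) (C.node (nat_lit 4) (nat_lit 8) (nat_lit 11) (C.cons (nat_lit 2354) (C.miq (nat_lit 641796792) (nat_lit 108808175566673698771570433)) (C.cons (nat_lit 2352) (C.node (nat_lit 1) (nat_lit 4) (nat_lit 11) C.nil) (C.cons (nat_lit 2322) (C.miq (nat_lit 641796792) (nat_lit 108808175566673698769473281)) C.nil)))) C.nil)) C.nil))) (C.cons (nat_lit 2376) (C.miq (nat_lit 1952647864) (nat_lit 108810573665358329198153473)) (C.cons (nat_lit 2120) (C.miq (nat_lit 2606959169) (nat_lit 2562932386311323323761034387)) C.nil)))) C.nil)) (C.cons (nat_lit 88) (C.node (nat_lit 1) (nat_lit 3) (nat_lit 4) (C.cons (nat_lit 282)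 (C.node (nat_lit 1) (nat_lit 4) (nat_lit 9) (C.cons (nat_lit 534) (C.miq (nat_lit 882344224) (nat_lit 870433839772332210629443847)) (C.cons (nat_lit 530) (C.node (nat_lit 1) (nat_lit 4) (nat_lit 11) (C.cons (nat_lit 2098) (C.miq (nat_lit 2159097684) (nat_lit 2479512058122062651861369016)) (C.cons (nat_lit 2066) (C.node (nat_lit 1) (nat_lit 2) (nat_lit 4) (C.cons (nat_lit 118) (C.miq (nat_lit 3021514272) (nat_lit 340987935962522179070264389)) (C.cons (nat_lit 86) (C.miq (nat_lit 3021514272) (nat_lit 340987935962522041631310917)) (C.cons (nat_lit 54) (C.miq (nat_lit 544544820) (nat_lit 2747889384182261701232034074)) C.nil)))) C.nil))) C.nil))) (C.cons (nat_lit 26) (C.node (nat_lit 3) (nat_lit 4) (nat_lit 8) (C.cons (nat_lit 280) (C.node (nat_lit 7) (nat_lit 9) (nat_lit 10) (C.cons (nat_lit 1696) (C.miq (nat_lit 2538317104) (nat_lit 2650036251016636620255069225)) (C.cons (nat_lit 1672) (C.node (nat_lit 3) (nat_lit 9) (nat_lit 11) (C.cons (nat_lit 2632)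 (C.miq (nat_lit 342035129) (nat_lit 106395120102858653107228417)) (C.cons (nat_lit 2600) (C.miq (nat_lit 2471146864) (nat_lit 1267025113631954223278262497)) (C.cons (nat_lit 2568) (C.node (nat_lit 3) (nat_lit 7) (nat_lit 11) (C.cons (nat_lit 2186) (C.node (nat_lit 7) (nat_lit 9) (nat_lit 11) (C.cons (nat_lit 2688) (C.node (nat_lit 3) (nat_lit 5) (nat_lit 11) (C.cons (nat_lit 2344) (C.miq (nat_lit 2202711408) (nat_lit 1267025113559896629240334561)) (C.cons (nat_lit 2088) (C.node (nat_lit 3) (nat_lit 6) (nat_lit 11) (C.cons (nat_lit 2376) (C.miq (nat_lit 1952647864) (nat_lit 106392722026129070848741121)) (C.cons (nat_lit 2120) (C.node (nat_lit 1) (nat_lit 4) (nat_lit 9) C.nil) C.nil))) C.nil))) C.nil)) (C.cons (nat_lit 2184) (C.node (nat_lit 7) (nat_lit 9) (nat_lit 11) (C.cons (nat_lit 2690) (C.node (nat_lit 5) (nat_lit 7) (nat_lit 9) (C.cons (nat_lit 928) (C.miq (nat_lit 3109292147) (nat_lit 678245699772397433036210569)) (C.cons (nat_lit 672) (C.node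 (nat_lit 7) (nat_lit 8) (nat_lit 9) (C.cons (nat_lit 896) (C.node (nat_lit 6) (nat_lit 9) (nat_lit 11) (C.cons (nat_lit 2628) (C.miq (nat_lit 658935979) (nat_lit 870475068347515104081743617)) (C.cons (nat_lit 2624) (C.node (nat_lit 2) (nat_lit 7) (nat_lit 11) (C.cons (nat_lit 2436) (C.node (nat_lit 1) (nat_lit 4) (nat_lit 9) (C.cons (nat_lit 530) (C.node (nat_lit 2) (nat_lit 4) (nat_lit 9) C.nil) C.nil)) (C.cons (nat_lit 2180) (C.node (nat_lit 7) (nat_lit 8) (nat_lit 11) C.nil) C.nil))) C.nil))) C.nil)) C.nil))) (C.cons (nat_lit 2688) (C.node (nat_lit 6) (nat_lit 9) (nat_lit 10) (C.cons (nat_lit 1634) (C.miq (nat_lit 323391674) (nat_lit 106415614253124142454804225)) (C.cons (nat_lit 1632) (C.node (nat_lit 1) (nat_lit 9) (nat_lit 10) (C.cons (nat_lit 1542) (C.node (nat_lit 1) (nat_lit 4) (nat_lit 9) (C.cons (nat_lit 786) (C.miq (nat_lit 1235648800) (nat_lit 1972973154385073607845150983)) (C.cons (nat_lit 530) (C.node (nat_lit 2) (nat_lit 4) (nat_lit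 9) (C.cons (nat_lit 532) (C.node (nat_lit 4) (nat_lit 8) (nat_lit 9) C.nil) C.nil)) C.nil))) (C.cons (nat_lit 1538) (C.node (nat_lit 2) (nat_lit 9) (nat_lit 10) (C.cons (nat_lit 1540) (C.node (nat_lit 7) (nat_lit 8) (nat_lit 10) (C.cons (nat_lit 1444) (C.miq (nat_lit 714180400) (nat_lit 1859332762467448103899955593))
  (C.cons (nat_lit 1440) (C.miq (nat_lit 1421505288) (nat_lit 3810560746788577617041752457)) (C.cons (nat_lit 1412) (C.miq (nat_lit 714180400) (nat_lit 1859332762458440904645214601)) (C.cons (nat_lit 1408) (C.node (nat_lit 3) (nat_lit 8) (nat_lit 9) (C.cons (nat_lit 844) (C.miq (nat_lit 1935976832) (nat_lit 106407073734027467293789953)) (C.cons (nat_lit 840) (C.miq (nat_lit 1935976832) (nat_lit 106407073734027450113920769)) (C.cons (nat_lit 812) (C.miq (nat_lit 698450800) (nat_lit 1859332762289555918661288329)) (C.cons (nat_lit 808) (C.miq (nat_lit 2840856631) (nat_lit 678228987022266136786370953)) (C.cons (nat_lit 780) (C.miq (nat_lit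 698450800) (nat_lit 1859332762280548719406547337)) (C.cons (nat_lit 776) (C.node (nat_lit 3) (nat_lit 5) (nat_lit 9) C.nil) C.nil))))))) C.nil))))) C.nil)) C.nil))) (C.cons (nat_lit 1602) (C.miq (nat_lit 323391674) (nat_lit 106415023957313783749152513)) (C.cons (nat_lit 1600) (C.node (nat_lit 3) (nat_lit 5) (nat_lit 11) (C.cons (nat_lit 2346) (C.miq (nat_lit 2202711408) (nat_lit 1267025113560459579193755873)) (C.cons (nat_lit 2344) (C.miq (nat_lit 2202711408) (nat_lit 1267025113559896629240334561)) (C.cons (nat_lit 2090) (C.node (nat_lit 3) (nat_lit 6) (nat_lit 11) (C.cons (nat_lit 2376) (C.miq (nat_lit 1952647864) (nat_lit 106392722026129070848741121)) (C.cons (nat_lit 2120) (C.node (nat_lit 1) (nat_lit 4) (nat_lit 11) C.nil) C.nil))) (C.cons (nat_lit 2088) (C.node (nat_lit 1) (nat_lit 4) (nat_lit 9) (C.cons (nat_lit 530) (C.node (nat_lit 2) (nat_lit 3) (nat_lit 10) C.nil) C.nil)) C.nil))))) C.nil))))) C.nil))) C.nil))) C.nil)))) (C.cons (nat_lit 1664)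 (C.node (nat_lit 3) (nat_lit 7) (nat_lit 9) (C.cons (nat_lit 2696) (C.node (nat_lit 3) (nat_lit 7) (nat_lit 10) (C.cons (nat_lit 1164) (C.node (nat_lit 5) (nat_lit 7) (nat_lit 10) (C.cons (nat_lit 1440) (C.miq (nat_lit 1421505288) (nat_lit 3810560746788577617041752457)) (C.cons (nat_lit 1184) (C.node (nat_lit 7) (nat_lit 8) (nat_lit 10) (C.cons (nat_lit 1408) (C.node (nat_lit 7) (nat_lit 8) (nat_lit 9) (C.cons (nat_lit 930) (C.miq (nat_lit 305627321) (nat_lit 1407206809577453748939656961)) (C.cons (nat_lit 928) (C.miq (nat_lit 3109292147) (nat_lit 678245699772397433036210569)) (C.cons (nat_lit 898) (C.miq (nat_lit 305627321) (nat_lit 1407206219281643390234005249)) (C.cons (nat_lit 896) (C.node (nat_lit 1) (nat_lit 3) (nat_lit 7) (C.cons (nat_lit 202) (C.node (nat_lit 1) (nat_lit 7) (nat_lit 9) (C.cons (nat_lit 674) (C.node (nat_lit 1) (nat_lit 2) (nat_lit 7) C.nil) C.nil)) C.nil)) C.nil))))) C.nil)) C.nil))) (C.cons (nat_lit 1160) (C.node (nat_lit 3)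 (nat_lit 9) (nat_lit 10) (C.cons (nat_lit 1608) (C.node (nat_lit 2) (nat_lit 3) (nat_lit 7) (C.cons (nat_lit 206) (C.miq (nat_lit 714301623) (nat_lit 1943956518277271543785982177)) (C.cons (nat_lit 204) (C.miq (nat_lit 714301623) (nat_lit 1943956481383783396366878945)) (C.cons (nat_lit 142) (C.node (nat_lit 3) (nat_lit 6) (nat_lit 7) (C.cons (nat_lit 200) (C.node (nat_lit 1) (nat_lit 3) (nat_lit 10) (C.cons (nat_lit 1290) (C.miq (nat_lit 3004733216) (nat_lit 1559585162005715900873245317)) C.nil)) C.nil)) (C.cons (nat_lit 140) (C.node (nat_lit 7) (nat_lit 8) (nat_lit 9) (C.cons (nat_lit 930) (C.miq (nat_lit 305627321) (nat_lit 169266770292073474040532737)) (C.cons (nat_lit 928) (C.miq (nat_lit 3109292147) (nat_lit 678245699772397433036210569)) (C.cons (nat_lit 898) (C.miq (nat_lit 305627321) (nat_lit 169266179996263115334881025)) (C.cons (nat_lit 896) (C.node (nat_lit 1) (nat_lit 3) (nat_lit 7) (C.cons (nat_lit 202) (C.node (nat_lit 3) (nat_lit 6) (nat_lit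 11) (C.cons (nat_lit 2376) (C.miq (nat_lit 1178053504) (nat_lit 244224617586684738635632385)) C.nil)) C.nil)) C.nil))))) C.nil))))) (C.cons (nat_lit 1548) (C.miq (nat_lit 1738148658) (nat_lit 2011672726769819712647596061)) (C.cons (nat_lit 1544) (C.node (nat_lit 6) (nat_lit 9) (nat_lit 10) (C.cons (nat_lit 1634) (C.miq (nat_lit 323391674) (nat_lit 106415614253124142454804225)) (C.cons (nat_lit 1632) (C.node (nat_lit 1) (nat_lit 9) (nat_lit 10)
  (C.cons (nat_lit 1542) (C.node (nat_lit 1) (nat_lit 4) (nat_lit 9) (C.cons (nat_lit 786) (C.miq (nat_lit 1235648800) (nat_lit 1972973154385073607845150983)) (C.cons (nat_lit 530) (C.node (nat_lit 2) (nat_lit 4) (nat_lit 9) (C.cons (nat_lit 532) (C.node (nat_lit 4) (nat_lit 8) (nat_lit 9) C.nil) C.nil)) C.nil))) (C.cons (nat_lit 1538) (C.node (nat_lit 2) (nat_lit 9) (nat_lit 10) (C.cons (nat_lit 1540) (C.node (nat_lit 2) (nat_lit 4) (nat_lit 10) (C.cons (nat_lit 1332) (C.node (nat_lit 2) (nat_lit 3) (nat_lit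 10) (C.cons (nat_lit 1038) (C.miq (nat_lit 1511604784) (nat_lit 1859338259565654148945479709)) C.nil)) (C.cons (nat_lit 1044) (C.node (nat_lit 4) (nat_lit 5) (nat_lit 10) C.nil) C.nil))) C.nil)) C.nil))) (C.cons (nat_lit 1602) (C.miq (nat_lit 323391674) (nat_lit 106415023957313783749152513)) (C.cons (nat_lit 1600) (C.node (nat_lit 2) (nat_lit 3) (nat_lit 7) (C.cons (nat_lit 206) (C.miq (nat_lit 714301623) (nat_lit 1866585265821935276604786913)) (C.cons (nat_lit 204) (C.miq (nat_lit 714301623) (nat_lit 1866585228928447129185683681)) (C.cons (nat_lit 142) (C.node (nat_lit 3) (nat_lit 6) (nat_lit 7) (C.cons (nat_lit 200) (C.node (nat_lit 1) (nat_lit 4) (nat_lit 9) C.nil) C.nil)) (C.cons (nat_lit 140) (C.node (nat_lit 1) (nat_lit 4) (nat_lit 9) (C.cons (nat_lit 530) (C.node (nat_lit 1) (nat_lit 3) (nat_lit 7) C.nil) C.nil)) C.nil))))) C.nil))))) C.nil)))) C.nil))) (C.cons (nat_lit 648) (C.node (nat_lit 3) (nat_lit 9) (nat_lit 11) (C.cons (nat_lit 2632)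 (C.miq (nat_lit 342035129) (nat_lit 106395120102858653107228417)) (C.cons (nat_lit 2600) (C.miq (nat_lit 2471146864) (nat_lit 1267025113631954223278262497)) (C.cons (nat_lit 2568) (C.node (nat_lit 3) (nat_lit 7) (nat_lit 10) (C.cons (nat_lit 1164) (C.node (nat_lit 5) (nat_lit 7) (nat_lit 10) (C.cons (nat_lit 1440) (C.miq (nat_lit 1421505288) (nat_lit 3810560746788577617041752457)) (C.cons (nat_lit 1184) (C.node (nat_lit 7) (nat_lit 8) (nat_lit 10) (C.cons (nat_lit 1408) (C.node (nat_lit 3) (nat_lit 5) (nat_lit 9) (C.cons (nat_lit 876) (C.miq (nat_lit 2761099109) (nat_lit 648003885425490028477024481)) (C.cons (nat_lit 872) (C.miq (nat_lit 2761099109) (nat_lit 648003885425490028476762337)) (C.cons (nat_lit 812) (C.miq (nat_lit 1403294320) (nat_lit 1266964607808119406658257541)) (C.cons (nat_lit 808) (C.miq (nat_lit 2840856631) (nat_lit 678228987022266136786370953)) (C.cons (nat_lit 620) (C.miq (nat_lit 2761099109) (nat_lit 648003885425490028460247265))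 (C.cons (nat_lit 616) (C.miq (nat_lit 2761099109) (nat_lit 648003885425490028459985121)) (C.cons (nat_lit 556) (C.miq (nat_lit 1403294320) (nat_lit 1266964607736061812620329605)) (C.cons (nat_lit 552) (C.node (nat_lit 3) (nat_lit 6) (nat_lit 7) (C.cons (nat_lit 202) (C.node (nat_lit 3) (nat_lit 7) (nat_lit 11) C.nil) C.nil)) C.nil))))))))) C.nil)) C.nil))) (C.cons (nat_lit 1160) (C.node (nat_lit 3) (nat_lit 7) (nat_lit 11) (C.cons (nat_lit 2186) (C.node (nat_lit 7) (nat_lit 9) (nat_lit 11) (C.cons (nat_lit 2688) (C.node (nat_lit 2) (nat_lit 3) (nat_lit 7) (C.cons (nat_lit 204) (C.node (nat_lit 1) (nat_lit 2) (nat_lit 7) C.nil) C.nil)) C.nil)) (C.cons (nat_lit 2184) (C.node (nat_lit 7) (nat_lit 9) (nat_lit 11) (C.cons (nat_lit 2690) (C.node (nat_lit 5) (nat_lit 7) (nat_lit 9) (C.cons (nat_lit 928) (C.miq (nat_lit 3109292147) (nat_lit 678245699772397433036210569)) (C.cons (nat_lit 672) (C.node (nat_lit 3) (nat_lit 9) (nat_lit 10) C.nil) C.nil))) (C.cons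 (nat_lit 2688) (C.node (nat_lit 1) (nat_lit 3) (nat_lit 7) (C.cons (nat_lit 206) (C.node (nat_lit 1) (nat_lit 3) (nat_lit 10) C.nil) (C.cons (nat_lit 138) (C.node (nat_lit 2) (nat_lit 3) (nat_lit 7) C.nil) C.nil))) C.nil))) C.nil))) C.nil))) C.nil)))) C.nil))) C.nil)))) C.nil)) C.nil))) C.nil))) C.nil)) C.nil))) (List.cons (C.node (nat_lit 2) (nat_lit 9) (nat_lit 10) (C.cons (nat_lit 1574) (C.miq (nat_lit 674828410) (nat_lit 957498284383987932108162195)) (C.cons (nat_lit 1572) (C.node (nat_lit 2) (nat_lit 7) (nat_lit 10) (C.cons (nat_lit 1412)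
  (C.miq (nat_lit 313067635) (nat_lit 1900441036155381596211904905)) (C.cons (nat_lit 1156) (C.node (nat_lit 2) (nat_lit 8) (nat_lit 9) (C.cons (nat_lit 836) (C.miq (nat_lit 342362002) (nat_lit 407412853033431707647476357)) (C.cons (nat_lit 772) (C.node (nat_lit 1) (nat_lit 9) (nat_lit 10) (C.cons (nat_lit 1602) (C.node (nat_lit 2) (nat_lit 3) (nat_lit 9) (C.cons (nat_lit 588) (C.miq (nat_lit 3063106064) (nat_lit 710886696708059056629810323)) (C.cons (nat_lit 524) (C.node (nat_lit 2) (nat_lit 6) (nat_lit 9) (C.cons (nat_lit 2628) (C.miq (nat_lit 658935979) (nat_lit 870475068347515104081743617)) (C.cons (nat_lit 580) (C.node (nat_lit 2) (nat_lit 10) (nat_lit 11) (C.cons (nat_lit 3078) (C.miq (nat_lit 2258699442) (nat_lit 1936704014611197928581498909)) (C.cons (nat_lit 3076) (C.node (nat_lit 6) (nat_lit 9) (nat_lit 11) (C.cons (nat_lit 2632) (C.node (nat_lit 3) (nat_lit 5) (nat_lit 9) (C.cons (nat_lit 552) (C.node (nat_lit 1) (nat_lit 2) (nat_lit 9) C.nil)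 C.nil)) (C.cons (nat_lit 2624) (C.miq (nat_lit 996738209) (nat_lit 3172230998900574568994440339)) C.nil))) C.nil))) C.nil))) C.nil))) (C.cons (nat_lit 1538) (C.node (nat_lit 6) (nat_lit 9) (nat_lit 10) (C.cons (nat_lit 1600) (C.node (nat_lit 2) (nat_lit 3) (nat_lit 9) (C.cons (nat_lit 588) (C.node (nat_lit 2) (nat_lit 3) (nat_lit 7) (C.cons (nat_lit 174) (C.miq (nat_lit 2301758065) (nat_lit 710853234508245907081659539)) (C.cons (nat_lit 172) (C.miq (nat_lit 2320697639) (nat_lit 1287513248541153176161354373)) (C.cons (nat_lit 142) (C.miq (nat_lit 2301758065) (nat_lit 710853234508245907079562387)) (C.cons (nat_lit 140) (C.node (nat_lit 1) (nat_lit 2) (nat_lit 9) (C.cons (nat_lit 2566) (C.node (nat_lit 2) (nat_lit 10) (nat_lit 11) (C.cons (nat_lit 3076) (C.node (nat_lit 6) (nat_lit 9) (nat_lit 11) (C.cons (nat_lit 2624) (C.node (nat_lit 3) (nat_lit 5) (nat_lit 9) C.nil) C.nil)) C.nil)) (C.cons (nat_lit 518) (C.node (nat_lit 2) (nat_lit 9) (nat_lit 11)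 C.nil) C.nil))) C.nil))))) (C.cons (nat_lit 524) (C.node (nat_lit 3) (nat_lit 6) (nat_lit 9) (C.cons (nat_lit 2632) (C.miq (nat_lit 443090099) (nat_lit 1934290959360177965262964765)) (C.cons (nat_lit 616) (C.miq (nat_lit 1228568144) (nat_lit 2021345571735634922994993377)) C.nil))) C.nil))) C.nil)) C.nil))) C.nil))) C.nil))) (C.cons (nat_lit 1542) (C.miq (nat_lit 674828410) (nat_lit 957497694088177573402510483)) (C.cons (nat_lit 1540) (C.node (nat_lit 7) (nat_lit 8) (nat_lit 10) (C.cons (nat_lit 1444) (C.miq (nat_lit 313067635) (nat_lit 1861755409927713600060260745)) (C.cons (nat_lit 1440) (C.node (nat_lit 2) (nat_lit 7) (nat_lit 10) (C.cons (nat_lit 1156) (C.node (nat_lit 7) (nat_lit 8) (nat_lit 9) (C.cons (nat_lit 898) (C.miq (nat_lit 1486071568) (nat_lit 957488895322552630418015379)) (C.cons (nat_lit 896) (C.node (nat_lit 1) (nat_lit 7) (nat_lit 9) (C.cons (nat_lit 674) (C.node (nat_lit 5) (nat_lit 9) (nat_lit 11) (C.cons (nat_lit 2600) (C.miq (nat_lit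 957658480) (nat_lit 640768999015032391665387745)) (C.cons (nat_lit 2596) (C.miq (nat_lit 689223024) (nat_lit 640768999013906491758545121)) (C.cons (nat_lit 2592) (C.node (nat_lit 3) (nat_lit 5) (nat_lit 11) (C.cons (nat_lit 2346) (C.miq (nat_lit 1464044043) (nat_lit 183800001048349553169600257)) (C.cons (nat_lit 2344) (C.miq (nat_lit 1464044043) (nat_lit 183799964154861405750497025)) (C.cons (nat_lit 2090) (C.miq (nat_lit 588843863) (nat_lit 632280102393011104185977057)) (C.cons (nat_lit 2088) (C.node (nat_lit 1) (nat_lit 8) (nat_lit 9) (C.cons (nat_lit 834) (C.node (nat_lit 1) (nat_lit 9) (nat_lit 10) (C.cons (nat_lit 1538) (C.node (nat_lit 1) (nat_lit 2) (nat_lit 9) (C.cons (nat_lit 2566) (C.miq (nat_lit 1773437216) (nat_lit 3114199128114798745760891143)) C.nil)) C.nil)) (C.cons (nat_lit 770) (C.node (nat_lit 6) (nat_lit 8) (nat_lit 9) (C.cons (nat_lit 868) (C.miq (nat_lit 428111200) (nat_lit 957490850461814482608916705)) (C.cons (nat_lit 864) (C.miq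 (nat_lit 428111200) (nat_lit 957490850461814465429047521)) (C.cons (nat_lit 836)
  (C.miq (nat_lit 342362002) (nat_lit 407412853033431707647476357)) C.nil)))) C.nil))) C.nil))))) C.nil)))) (C.cons (nat_lit 642) (C.node (nat_lit 5) (nat_lit 7) (nat_lit 9) (C.cons (nat_lit 672) (C.node (nat_lit 4) (nat_lit 5) (nat_lit 7) C.nil) C.nil)) C.nil))) C.nil))) C.nil)) (C.cons (nat_lit 1412) (C.miq (nat_lit 313067635) (nat_lit 1861755409927713462621307273)) (C.cons (nat_lit 1408) (C.node (nat_lit 2) (nat_lit 7) (nat_lit 10) (C.cons (nat_lit 1188) (C.node (nat_lit 2) (nat_lit 4) (nat_lit 7) (C.cons (nat_lit 404) (C.node (nat_lit 2) (nat_lit 4) (nat_lit 10) (C.cons (nat_lit 1044) (C.node (nat_lit 4) (nat_lit 5) (nat_lit 7) (C.cons (nat_lit 176) (C.node (nat_lit 7) (nat_lit 8) (nat_lit 9) (C.cons (nat_lit 930) (C.miq (nat_lit 680740624) (nat_lit 957507563135947286050964627)) (C.cons (nat_lit 928) (C.miq (nat_lit 1498118192) (nat_lit 3114234841037776475991638409))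 (C.cons (nat_lit 898) (C.miq (nat_lit 680740624) (nat_lit 957507563135947148612011155)) (C.cons (nat_lit 896) (C.node (nat_lit 1) (nat_lit 7) (nat_lit 9) (C.cons (nat_lit 674) (C.node (nat_lit 3) (nat_lit 5) (nat_lit 7) (C.cons (nat_lit 168) (C.node (nat_lit 5) (nat_lit 7) (nat_lit 8) C.nil) C.nil)) (C.cons (nat_lit 642) (C.node (nat_lit 5) (nat_lit 7) (nat_lit 9) C.nil) C.nil))) C.nil))))) C.nil)) C.nil)) (C.cons (nat_lit 148) (C.node (nat_lit 2) (nat_lit 4) (nat_lit 10) (C.cons (nat_lit 1300) (C.node (nat_lit 4) (nat_lit 5) (nat_lit 10) (C.cons (nat_lit 1072) (C.node (nat_lit 2) (nat_lit 10) (nat_lit 11) (C.cons (nat_lit 3078) (C.miq (nat_lit 3053560962) (nat_lit 81054809879649606718391572)) (C.cons (nat_lit 3076) (C.node (nat_lit 2) (nat_lit 4) (nat_lit 6) (C.cons (nat_lit 118) (C.miq (nat_lit 2253537402) (nat_lit 142677227576688894722442387)) (C.cons (nat_lit 116) (C.miq (nat_lit 2253537402) (nat_lit 140259375937459636373030035)) (C.cons (nat_lit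 86) (C.miq (nat_lit 280373412) (nat_lit 2747889974478086869179434260)) (C.cons (nat_lit 84) (C.node (nat_lit 1) (nat_lit 2) (nat_lit 10) C.nil) C.nil))))) C.nil))) C.nil)) (C.cons (nat_lit 1044) (C.node (nat_lit 2) (nat_lit 4) (nat_lit 8) (C.cons (nat_lit 308) (C.node (nat_lit 4) (nat_lit 5) (nat_lit 7) (C.cons (nat_lit 176) (C.node (nat_lit 4) (nat_lit 5) (nat_lit 10) C.nil) C.nil)) (C.cons (nat_lit 276) (C.node (nat_lit 2) (nat_lit 8) (nat_lit 10) (C.cons (nat_lit 1292) (C.node (nat_lit 4) (nat_lit 5) (nat_lit 10) (C.cons (nat_lit 1072) (C.node (nat_lit 4) (nat_lit 8) (nat_lit 10) C.nil) C.nil)) (C.cons (nat_lit 1284) (C.node (nat_lit 2) (nat_lit 3) (nat_lit 10) (C.cons (nat_lit 1038) (C.node (nat_lit 2) (nat_lit 10) (nat_lit 11) C.nil) (C.cons (nat_lit 1036) (C.node (nat_lit 4) (nat_lit 5) (nat_lit 10) C.nil) C.nil))) C.nil))) C.nil))) C.nil))) C.nil))) (C.cons (nat_lit 1156) (C.node (nat_lit 5) (nat_lit 7) (nat_lit 10) (C.cons (nat_lit 1184) (C.node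 (nat_lit 2) (nat_lit 8) (nat_lit 9) (C.cons (nat_lit 868) (C.miq (nat_lit 342362002) (nat_lit 407412853033431707649573509)) (C.cons (nat_lit 836) (C.miq (nat_lit 342362002) (nat_lit 407412853033431707647476357)) (C.cons (nat_lit 804) (C.node (nat_lit 3) (nat_lit 5) (nat_lit 9) (C.cons (nat_lit 2600) (C.miq (nat_lit 1704463156) (nat_lit 971982576162718485612857373)) (C.cons (nat_lit 616) (C.miq (nat_lit 1228568144) (nat_lit 2021345571735634922994993377)) (C.cons (nat_lit 552) (C.node (nat_lit 2) (nat_lit 3) (nat_lit 9) (C.cons (nat_lit 588) (C.node (nat_lit 3) (nat_lit 9) (nat_lit 11) (C.cons (nat_lit 2568) (C.node (nat_lit 3) (nat_lit 4) (nat_lit 6) (C.cons (nat_lit 122) (C.miq (nat_lit 379011872) (nat_lit 870448191294185792315131933)) (C.cons (nat_lit 120) (C.miq (nat_lit 3107260486) (nat_lit 667368982957703633416225105)) (C.cons (nat_lit 90) (C.miq (nat_lit 379011872) (nat_lit 870448191285178593060390941)) (C.cons (nat_lit 88) (C.node (nat_lit 1)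 (nat_lit 2) (nat_lit 9) (C.cons (nat_lit 2566) (C.node (nat_lit 5) (nat_lit 9) (nat_lit 11) (C.cons (nat_lit 2592) (C.node (nat_lit 6) (nat_lit 9) (nat_lit 11) C.nil) C.nil)) (C.cons (nat_lit 518)
  (C.node (nat_lit 2) (nat_lit 9) (nat_lit 11) C.nil) C.nil))) C.nil))))) C.nil)) (C.cons (nat_lit 524) (C.node (nat_lit 3) (nat_lit 6) (nat_lit 9) (C.cons (nat_lit 2632) (C.node (nat_lit 2) (nat_lit 6) (nat_lit 9) (C.cons (nat_lit 582) (C.miq (nat_lit 2794539824) (nat_lit 703616429040244924544124957)) (C.cons (nat_lit 580) (C.node (nat_lit 6) (nat_lit 8) (nat_lit 9) (C.cons (nat_lit 834) (C.miq (nat_lit 2794539824) (nat_lit 1008265735583131476570081309)) C.nil)) C.nil))) (C.cons (nat_lit 584) (C.node (nat_lit 3) (nat_lit 9) (nat_lit 11) C.nil) C.nil))) C.nil))) C.nil)))) (C.cons (nat_lit 772) (C.node (nat_lit 5) (nat_lit 7) (nat_lit 9) (C.cons (nat_lit 930) (C.miq (nat_lit 1498118192) (nat_lit 3114234841038339425945059721)) (C.cons (nat_lit 928) (C.miq (nat_lit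 1498118192) (nat_lit 3114234841037776475991638409)) (C.cons (nat_lit 674) (C.node (nat_lit 7) (nat_lit 8) (nat_lit 9) (C.cons (nat_lit 896) (C.node (nat_lit 5) (nat_lit 8) (nat_lit 9) (C.cons (nat_lit 864) (C.miq (nat_lit 428111200) (nat_lit 957490850461814465429047521)) C.nil)) C.nil)) (C.cons (nat_lit 672) (C.node (nat_lit 1) (nat_lit 7) (nat_lit 9) (C.cons (nat_lit 898) (C.node (nat_lit 1) (nat_lit 7) (nat_lit 11) (C.cons (nat_lit 2178) (C.node (nat_lit 2) (nat_lit 7) (nat_lit 11) (C.cons (nat_lit 2180) (C.node (nat_lit 7) (nat_lit 8) (nat_lit 11) C.nil) C.nil)) C.nil)) (C.cons (nat_lit 642) (C.node (nat_lit 7) (nat_lit 8) (nat_lit 9) C.nil) C.nil))) C.nil))))) C.nil))))) C.nil)) C.nil))) C.nil))))) C.nil))))) List.nil))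

theorem ok12_274 : okL par12 (nat_lit 276) c12_274 (nat_lit 274) = true := by decide +kernel

noncomputable def c12_276 : List C :=
  (List.cons (C.node (nat_lit 1) (nat_lit 4) (nat_lit 9) (C.cons (nat_lit 786) (C.node (nat_lit 2) (nat_lit 4) (nat_lit 9) (C.cons (nat_lit 532) (C.node (nat_lit 1) (nat_lit 7) (nat_lit 9) (C.cons (nat_lit 2690) (C.miq (nat_lit 1729366936) (nat_lit 1415658351961287779276689153)) (C.cons (nat_lit 674) (C.miq (nat_lit 352884580) (nat_lit 349394061199193663983387344)) (C.cons (nat_lit 642) (C.node (nat_lit 1) (nat_lit 4) (nat_lit 11) (C.cons (nat_lit 2098) (C.node (nat_lit 4) (nat_lit 8) (nat_lit 11) (C.cons (nat_lit 2320) (C.node (nat_lit 1) (nat_lit 2) (nat_lit 4) (C.cons (nat_lit 86) (C.miq (nat_lit 3021514272) (nat_lit 950286549048295145683223621)) (C.cons (nat_lit 22) (C.node (nat_lit 1) (nat_lit 10) (nat_lit 11) (C.cons (nat_lit 3078) (C.miq (nat_lit 2226194082) (nat_lit 2536331221140053999235761221)) (C.cons (nat_lit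 3074) (C.node (nat_lit 1) (nat_lit 7) (nat_lit 8) (C.cons (nat_lit 2434) (C.miq (nat_lit 1900394640) (nat_lit 2536368299685885019539181313)) (C.cons (nat_lit 450) (C.miq (nat_lit 1461257860) (nat_lit 776140725455811836069937489)) (C.cons (nat_lit 418) (C.miq (nat_lit 873990999) (nat_lit 950222944372152036669655265)) (C.cons (nat_lit 386) (C.node (nat_lit 6) (nat_lit 8) (nat_lit 11) (C.cons (nat_lit 2378) (C.miq (nat_lit 927367339) (nat_lit 870470456590564982562754305)) (C.cons (nat_lit 2376) (C.miq (nat_lit 927367339) (nat_lit 870470419697076835143651073)) (C.cons (nat_lit 2372) (C.miq (nat_lit 1645525002) (nat_lit 26654512836501948761050881)) (C.cons (nat_lit 2370) (C.miq (nat_lit 1631959184) (nat_lit 2536368299667870621029699329)) (C.cons (nat_lit 2368) (C.node (nat_lit 1) (nat_lit 3) (nat_lit 4) (C.cons (nat_lit 90) (C.node (nat_lit 3) (nat_lit 6) (nat_lit 11) (C.cons (nat_lit 2632) (C.node (nat_lit 7) (nat_lit 9) (nat_lit 11) (C.cons (nat_lit 2688)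 (C.node (nat_lit 3) (nat_lit 5) (nat_lit 11) (C.cons (nat_lit 2344) (C.miq (nat_lit 1483846404) (nat_lit 466684068300092537484544029)) (C.cons (nat_lit 2088) (C.node (nat_lit 5) (nat_lit 9) (nat_lit 11) (C.cons (nat_lit 2596) (C.miq (nat_lit 1500623364) (nat_lit 776169078192370382672168989)) (C.cons (nat_lit 2592) (C.node (nat_lit 2) (nat_lit 4) (nat_lit 6) (C.cons (nat_lit 116) (C.node (nat_lit 2) (nat_lit 4) (nat_lit 7) C.nil) C.nil)) C.nil))) C.nil))) C.nil)) (C.cons (nat_lit 2120) (C.miq (nat_lit 2606959169) (nat_lit 2562932386311323323761034387)) C.nil))) (C.cons (nat_lit 26) (C.node (nat_lit 1) (nat_lit 4) (nat_lit 6) C.nil) C.nil))) C.nil)))))) C.nil))))) C.nil))) C.nil))) C.nil)) (C.cons (nat_lit 2066) (C.node (nat_lit 3) (nat_lit 4) (nat_lit 8) (C.cons (nat_lit 312) (C.node (nat_lit 4) (nat_lit 5) (nat_lit 11) (C.cons (nat_lit 2096) (C.node (nat_lit 4) (nat_lit 8) (nat_lit 11) (C.cons (nat_lit 2320) (C.node (nat_lit 1) (nat_lit 3) (nat_lit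 4) (C.cons (nat_lit 90) (C.node (nat_lit 1) (nat_lit 2) (nat_lit 4) (C.cons (nat_lit 54) (C.node (nat_lit 2) (nat_lit 4) (nat_lit 6) C.nil) C.nil)) C.nil)) C.nil)) C.nil)) (C.cons (nat_lit 280) (C.node (nat_lit 4) (nat_lit 5) (nat_lit 11) (C.cons (nat_lit 2352) (C.node (nat_lit 4) (nat_lit 5) (nat_lit 7) (C.cons (nat_lit 180) (C.miq (nat_lit 2217325936) (nat_lit 643219390640999757691291873)) (C.cons (nat_lit 176) (C.node (nat_lit 4) (nat_lit 8) (nat_lit 10) (C.cons (nat_lit 1300) (C.miq (nat_lit 1344845476) (nat_lit 317990877940506154360900688)) C.nil)) C.nil))) (C.cons (nat_lit 2096) (C.node (nat_lit 4) (nat_lit 8) (nat_lit 11) (C.cons (nat_lit 2320) (C.node (nat_lit 1) (nat_lit 2) (nat_lit 4) (C.cons (nat_lit 118) (C.miq (nat_lit 3021514272) (nat_lit 950286549048295283122177093)) (C.cons (nat_lit 22) (C.node (nat_lit 2) (nat_lit 4) (nat_lit 6) C.nil) C.nil))) C.nil)) C.nil))) C.nil))) C.nil))) C.nil)))) C.nil)) (C.cons (nat_lit 534) (C.node (nat_lit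 4) (nat_lit 8) (nat_lit 9) (C.cons (nat_lit 784) (C.node (nat_lit 2) (nat_lit 4) (nat_lit 6) (C.cons (nat_lit 116) (C.node (nat_lit 2) (nat_lit 4) (nat_lit 7) (C.cons (nat_lit 404) (C.miq (nat_lit 1955824144) (nat_lit 647991488997580389634212103)) (C.cons (nat_lit 148)
  (C.node (nat_lit 2) (nat_lit 4) (nat_lit 8) (C.cons (nat_lit 1300) (C.miq (nat_lit 2152901476) (nat_lit 44754237174192249895128144)) (C.cons (nat_lit 276) (C.node (nat_lit 2) (nat_lit 4) (nat_lit 10) (C.cons (nat_lit 1044) (C.node (nat_lit 4) (nat_lit 8) (nat_lit 11) (C.cons (nat_lit 2354) (C.miq (nat_lit 1678945152) (nat_lit 645586550852703780795256577)) (C.cons (nat_lit 2352) (C.miq (nat_lit 2217391456) (nat_lit 1262189410283689620292307169)) (C.cons (nat_lit 2322) (C.miq (nat_lit 1678945152) (nat_lit 645586550852703643356303105)) C.nil)))) C.nil)) C.nil))) C.nil))) (C.cons (nat_lit 84) (C.node (nat_lit 2) (nat_lit 9) (nat_lit 11) (C.cons (nat_lit 2628) (C.miq (nat_lit 1952582329)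 (nat_lit 101561667327177128973438721)) (C.cons (nat_lit 2596) (C.node (nat_lit 2) (nat_lit 10) (nat_lit 11) (C.cons (nat_lit 3078) (C.miq (nat_lit 1410502827) (nat_lit 645614275579739820832198401)) (C.cons (nat_lit 3076) (C.node (nat_lit 1) (nat_lit 2) (nat_lit 11) (C.cons (nat_lit 2182) (C.node (nat_lit 7) (nat_lit 8) (nat_lit 11) (C.cons (nat_lit 2432) (C.node (nat_lit 1) (nat_lit 10) (nat_lit 11) (C.cons (nat_lit 3106) (C.miq (nat_lit 1383184650) (nat_lit 2637933434716925610947710721)) (C.cons (nat_lit 3074) (C.node (nat_lit 5) (nat_lit 10) (nat_lit 11) (C.cons (nat_lit 3104) (C.node (nat_lit 2) (nat_lit 6) (nat_lit 11) (C.cons (nat_lit 2372) (C.miq (nat_lit 1382325120) (nat_lit 101560118201773428959153921)) (C.cons (nat_lit 2116) (C.node (nat_lit 2) (nat_lit 8) (nat_lit 11) (C.cons (nat_lit 2308) (C.node (nat_lit 1) (nat_lit 4) (nat_lit 11) (C.cons (nat_lit 2354) (C.miq (nat_lit 1678945152) (nat_lit 645586550852703780795256577)) (C.cons (nat_lit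 2322) (C.miq (nat_lit 1678945152) (nat_lit 645586550852703643356303105)) (C.cons (nat_lit 2098) (C.node (nat_lit 4) (nat_lit 8) (nat_lit 11) (C.cons (nat_lit 2320) (C.node (nat_lit 1) (nat_lit 4) (nat_lit 8) (C.cons (nat_lit 282) (C.miq (nat_lit 882344224) (nat_lit 870433839772332210629443847)) C.nil)) C.nil)) (C.cons (nat_lit 2066) (C.miq (nat_lit 1528074864) (nat_lit 2497651092677967637237662341)) C.nil))))) C.nil)) C.nil))) C.nil)) C.nil))) C.nil)) (C.cons (nat_lit 2118) (C.miq (nat_lit 2065761684) (nat_lit 2560526487720898677746041393)) (C.cons (nat_lit 2054) (C.miq (nat_lit 2065761684) (nat_lit 2483155235265562410564846129)) C.nil)))) C.nil))) (C.cons (nat_lit 2564) (C.node (nat_lit 2) (nat_lit 6) (nat_lit 11) (C.cons (nat_lit 2372) (C.miq (nat_lit 341969592) (nat_lit 101554620670940971907944193)) (C.cons (nat_lit 2118) (C.node (nat_lit 6) (nat_lit 8) (nat_lit 11) (C.cons (nat_lit 2376) (C.miq (nat_lit 927367339) (nat_lit 870470419697076835143651073))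 (C.cons (nat_lit 2368) (C.node (nat_lit 1) (nat_lit 4) (nat_lit 11) (C.cons (nat_lit 2354) (C.miq (nat_lit 1678945152) (nat_lit 645586550852703780795256577)) (C.cons (nat_lit 2322) (C.miq (nat_lit 1678945152) (nat_lit 645586550852703643356303105)) (C.cons (nat_lit 2098) (C.miq (nat_lit 1914374469) (nat_lit 2560546815574617787466908209)) (C.cons (nat_lit 2066) (C.node (nat_lit 1) (nat_lit 10) (nat_lit 11) (C.cons (nat_lit 3106) (C.node (nat_lit 2) (nat_lit 10) (nat_lit 11) (C.cons (nat_lit 3076) (C.node (nat_lit 1) (nat_lit 2) (nat_lit 10) (C.cons (nat_lit 1038) (C.miq (nat_lit 2443526704) (nat_lit 3754933944496775663505180701)) (C.cons (nat_lit 1030) (C.node (nat_lit 1) (nat_lit 9) (nat_lit 10) (C.cons (nat_lit 1602) (C.miq (nat_lit 1444481828) (nat_lit 1936709512285863007776802845)) (C.cons (nat_lit 1538) (C.node (nat_lit 3) (nat_lit 6) (nat_lit 11) (C.cons (nat_lit 2632) (C.miq (nat_lit 1763357444) (nat_lit 1859386055445464388251879453)) (C.cons (nat_lit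 2120) (C.node (nat_lit 6) (nat_lit 9) (nat_lit 11) (C.cons (nat_lit 2624) (C.node (nat_lit 1) (nat_lit 4) (nat_lit 6) (C.cons (nat_lit 122) (C.miq (nat_lit 2316569430) (nat_lit 1415658352402642329421875425)) (C.cons (nat_lit 114) (C.miq (nat_lit 2316569430) (nat_lit 1415658352402642329421351137)) (C.cons (nat_lit 90) (C.miq (nat_lit 1637499659) (nat_lit 1859386054729954997628373021))
  (C.cons (nat_lit 82) (C.node (nat_lit 3) (nat_lit 4) (nat_lit 6) C.nil) C.nil))))) C.nil)) C.nil))) C.nil))) C.nil))) C.nil)) (C.cons (nat_lit 3074) (C.node (nat_lit 2) (nat_lit 7) (nat_lit 11) (C.cons (nat_lit 2436) (C.node (nat_lit 2) (nat_lit 4) (nat_lit 7) (C.cons (nat_lit 180) (C.miq (nat_lit 2185869136) (nat_lit 645637242303872914078894305)) (C.cons (nat_lit 148) (C.node (nat_lit 4) (nat_lit 5) (nat_lit 11) (C.cons (nat_lit 2352) (C.miq (nat_lit 675904336) (nat_lit 947809741413479960697440481)) (C.cons (nat_lit 2096) (C.node (nat_lit 4) (nat_lit 8) (nat_lit 11)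 C.nil) C.nil))) C.nil))) (C.cons (nat_lit 2180) (C.node (nat_lit 2) (nat_lit 8) (nat_lit 11) (C.cons (nat_lit 2340) (C.node (nat_lit 2) (nat_lit 10) (nat_lit 11) (C.cons (nat_lit 3076) (C.node (nat_lit 4) (nat_lit 5) (nat_lit 11) (C.cons (nat_lit 2096) (C.node (nat_lit 4) (nat_lit 8) (nat_lit 11) C.nil) C.nil)) C.nil)) (C.cons (nat_lit 2308) (C.node (nat_lit 2) (nat_lit 5) (nat_lit 11) (C.cons (nat_lit 3108) (C.node (nat_lit 1) (nat_lit 2) (nat_lit 10) (C.cons (nat_lit 1038) (C.miq (nat_lit 1118146864) (nat_lit 3757351796136004921854591499)) (C.cons (nat_lit 1030) (C.node (nat_lit 2) (nat_lit 4) (nat_lit 10) (C.cons (nat_lit 1300) (C.miq (nat_lit 1380366976) (nat_lit 101591699171738203582435073)) (C.cons (nat_lit 1044) (C.node (nat_lit 4) (nat_lit 5) (nat_lit 10) C.nil) C.nil))) C.nil))) (C.cons (nat_lit 2084) (C.node (nat_lit 2) (nat_lit 10) (nat_lit 11) (C.cons (nat_lit 3076) (C.node (nat_lit 5) (nat_lit 10) (nat_lit 11) C.nil) C.nil)) C.nil))) C.nil)))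 C.nil))) C.nil))) C.nil))))) C.nil))) (C.cons (nat_lit 2116) (C.node (nat_lit 2) (nat_lit 7) (nat_lit 11) (C.cons (nat_lit 2436) (C.node (nat_lit 2) (nat_lit 4) (nat_lit 7) (C.cons (nat_lit 180) (C.miq (nat_lit 2185869136) (nat_lit 645637242303872914078894305)) (C.cons (nat_lit 148) (C.node (nat_lit 1) (nat_lit 4) (nat_lit 11) (C.cons (nat_lit 2354) (C.miq (nat_lit 1678945152) (nat_lit 645586550852703780795256577)) (C.cons (nat_lit 2322) (C.miq (nat_lit 1678945152) (nat_lit 645586550852703643356303105)) (C.cons (nat_lit 2098) (C.miq (nat_lit 460473609) (nat_lit 2944953147733116294126699057)) (C.cons (nat_lit 2066) (C.node (nat_lit 4) (nat_lit 5) (nat_lit 11) (C.cons (nat_lit 2352) (C.miq (nat_lit 675904336) (nat_lit 947809741413479960697440481)) (C.cons (nat_lit 2096) (C.node (nat_lit 4) (nat_lit 8) (nat_lit 11) (C.cons (nat_lit 2320) (C.node (nat_lit 4) (nat_lit 5) (nat_lit 7) C.nil) C.nil)) C.nil))) C.nil))))) C.nil))) (C.cons (nat_lit 2182) (C.miq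 (nat_lit 1529415444) (nat_lit 3099696150755136548722050195)) (C.cons (nat_lit 2180) (C.node (nat_lit 1) (nat_lit 4) (nat_lit 11) (C.cons (nat_lit 2354) (C.miq (nat_lit 1678945152) (nat_lit 645586550852703780795256577)) (C.cons (nat_lit 2322) (C.miq (nat_lit 1678945152) (nat_lit 645586550852703643356303105)) (C.cons (nat_lit 2098) (C.miq (nat_lit 460473609) (nat_lit 2635468137911771225401918001)) (C.cons (nat_lit 2066) (C.node (nat_lit 2) (nat_lit 8) (nat_lit 11) (C.cons (nat_lit 2340) (C.node (nat_lit 4) (nat_lit 5) (nat_lit 11) (C.cons (nat_lit 2096) (C.node (nat_lit 4) (nat_lit 8) (nat_lit 11) (C.cons (nat_lit 2320) (C.node (nat_lit 1) (nat_lit 2) (nat_lit 11) C.nil) C.nil)) C.nil)) (C.cons (nat_lit 2308) (C.node (nat_lit 4) (nat_lit 5) (nat_lit 11) (C.cons (nat_lit 2352) (C.node (nat_lit 1) (nat_lit 4) (nat_lit 8) (C.cons (nat_lit 282) (C.miq (nat_lit 882344224) (nat_lit 870433839772332210629443847)) (C.cons (nat_lit 274) (C.node (nat_lit 3) (nat_lit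 4) (nat_lit 8) C.nil) C.nil))) (C.cons (nat_lit 2096) (C.node (nat_lit 4) (nat_lit 8) (nat_lit 11) (C.cons (nat_lit 2320) (C.node (nat_lit 7) (nat_lit 8) (nat_lit 11) (C.cons (nat_lit 2432) (C.node (nat_lit 1) (nat_lit 7) (nat_lit 11) (C.cons (nat_lit 2178) (C.node (nat_lit 3) (nat_lit 7) (nat_lit 11) C.nil) C.nil)) C.nil)) C.nil)) C.nil))) C.nil))) C.nil))))) C.nil)))) C.nil)))) C.nil)))) C.nil))) C.nil)) (C.cons (nat_lit 530) (C.node (nat_lit 2) (nat_lit 4) (nat_lit 9) (C.cons (nat_lit 788)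
  (C.node (nat_lit 2) (nat_lit 4) (nat_lit 7) (C.cons (nat_lit 180) (C.node (nat_lit 2) (nat_lit 4) (nat_lit 10) (C.cons (nat_lit 1044) (C.node (nat_lit 4) (nat_lit 7) (nat_lit 8) (C.cons (nat_lit 400) (C.node (nat_lit 4) (nat_lit 5) (nat_lit 10) (C.cons (nat_lit 1328) (C.miq (nat_lit 1385711370) (nat_lit 952658043183125942266561683)) (C.cons (nat_lit 1072) (C.node (nat_lit 4) (nat_lit 8) (nat_lit 10) C.nil) C.nil))) C.nil)) C.nil)) (C.cons (nat_lit 148) (C.node (nat_lit 2) (nat_lit 4) (nat_lit 10) (C.cons (nat_lit 1076) (C.node (nat_lit 4) (nat_lit 8) (nat_lit 10) (C.cons (nat_lit 1296) (C.node (nat_lit 1) (nat_lit 2) (nat_lit 4) (C.cons (nat_lit 86) (C.node (nat_lit 2) (nat_lit 6) (nat_lit 11) (C.cons (nat_lit 2628) (C.miq (nat_lit 1952582329) (nat_lit 103979518966406387322851073)) (C.cons (nat_lit 2372) (C.miq (nat_lit 1648736400) (nat_lit 1300846112022282563023343361)) (C.cons (nat_lit 2116) (C.miq (nat_lit 2338458177) (nat_lit 2558091886879405642578527379))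 C.nil)))) (C.cons (nat_lit 22) (C.node (nat_lit 2) (nat_lit 4) (nat_lit 6) C.nil) C.nil))) C.nil)) (C.cons (nat_lit 1044) (C.node (nat_lit 4) (nat_lit 5) (nat_lit 7) (C.cons (nat_lit 432) (C.node (nat_lit 4) (nat_lit 5) (nat_lit 10) (C.cons (nat_lit 1072) (C.node (nat_lit 4) (nat_lit 8) (nat_lit 10) C.nil) C.nil)) (C.cons (nat_lit 176) (C.node (nat_lit 4) (nat_lit 7) (nat_lit 8) (C.cons (nat_lit 400) (C.node (nat_lit 4) (nat_lit 5) (nat_lit 10) (C.cons (nat_lit 1072) (C.node (nat_lit 4) (nat_lit 8) (nat_lit 10) C.nil) C.nil)) C.nil)) C.nil))) C.nil))) C.nil))) (C.cons (nat_lit 532) (C.node (nat_lit 4) (nat_lit 8) (nat_lit 9) (C.cons (nat_lit 784) (C.node (nat_lit 2) (nat_lit 7) (nat_lit 11) (C.cons (nat_lit 2436) (C.node (nat_lit 2) (nat_lit 4) (nat_lit 7) (C.cons (nat_lit 180) (C.miq (nat_lit 2185869136) (nat_lit 643219390664643655729481953)) (C.cons (nat_lit 148) (C.node (nat_lit 4) (nat_lit 8) (nat_lit 11) (C.cons (nat_lit 2354) (C.miq (nat_lit 675904336)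 (nat_lit 947809741413479969287375073)) (C.cons (nat_lit 2352) (C.miq (nat_lit 675904336) (nat_lit 947809741413479960697440481)) (C.cons (nat_lit 2322) (C.miq (nat_lit 1803723792) (nat_lit 2944963459759728333647447187)) (C.cons (nat_lit 2320) (C.node (nat_lit 1) (nat_lit 4) (nat_lit 11) (C.cons (nat_lit 2098) (C.node (nat_lit 1) (nat_lit 2) (nat_lit 4) (C.cons (nat_lit 22) (C.node (nat_lit 1) (nat_lit 4) (nat_lit 6) C.nil) C.nil)) (C.cons (nat_lit 2066) (C.node (nat_lit 4) (nat_lit 5) (nat_lit 11) C.nil) C.nil))) C.nil))))) C.nil))) (C.cons (nat_lit 2182) (C.node (nat_lit 7) (nat_lit 8) (nat_lit 11) (C.cons (nat_lit 2432) (C.node (nat_lit 2) (nat_lit 6) (nat_lit 11) (C.cons (nat_lit 2628) (C.miq (nat_lit 658935979) (nat_lit 870475068347515104081743617)) (C.cons (nat_lit 2372) (C.miq (nat_lit 1093142454) (nat_lit 317953707441016882568890593)) (C.cons (nat_lit 2116) (C.node (nat_lit 2) (nat_lit 9) (nat_lit 11) (C.cons (nat_lit 2596) (C.miq (nat_lit 311720784)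 (nat_lit 643170137786482583783147745)) (C.cons (nat_lit 2564) (C.node (nat_lit 1) (nat_lit 4) (nat_lit 11) (C.cons (nat_lit 2354) (C.miq (nat_lit 558463824) (nat_lit 640742583159869514827499745)) (C.cons (nat_lit 2322) (C.miq (nat_lit 2188054692) (nat_lit 2558129867718327100737848467)) (C.cons (nat_lit 2098) (C.miq (nat_lit 558463824) (nat_lit 640742583159868415315871969)) (C.cons (nat_lit 2066) (C.node (nat_lit 1) (nat_lit 10) (nat_lit 11) (C.cons (nat_lit 3106) (C.node (nat_lit 2) (nat_lit 10) (nat_lit 11) (C.cons (nat_lit 3076) (C.node (nat_lit 1) (nat_lit 2) (nat_lit 10) (C.cons (nat_lit 1542) (C.miq (nat_lit 1361558160) (nat_lit 2637918068722668301564841729)) (C.cons (nat_lit 1038) (C.miq (nat_lit 1906684464) (nat_lit 3754965525786500615876708381)) (C.cons (nat_lit 1030) (C.node (nat_lit 1) (nat_lit 8) (nat_lit 10) (C.cons (nat_lit 1354) (C.miq (nat_lit 2192969802) (nat_lit 2558112011270067976139703443)) (C.cons (nat_lit 1346) (C.miq (nat_lit 2192969802)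 (nat_lit 2558111863696115386463290515)) (C.cons (nat_lit 1290)
  (C.miq (nat_lit 2276536410) (nat_lit 2637899934809605373041968169)) (C.cons (nat_lit 1282) (C.node (nat_lit 1) (nat_lit 3) (nat_lit 10) (C.cons (nat_lit 1098) (C.node (nat_lit 1) (nat_lit 9) (nat_lit 10) (C.cons (nat_lit 1538) (C.node (nat_lit 1) (nat_lit 3) (nat_lit 7) (C.cons (nat_lit 170) (C.miq (nat_lit 2316503895) (nat_lit 1327407800588442527406360801)) (C.cons (nat_lit 138) (C.node (nat_lit 1) (nat_lit 6) (nat_lit 7) (C.cons (nat_lit 450) (C.miq (nat_lit 1108872054) (nat_lit 317953707696033211342784737)) (C.cons (nat_lit 194) (C.node (nat_lit 1) (nat_lit 3) (nat_lit 11) (C.cons (nat_lit 2314) (C.node (nat_lit 6) (nat_lit 8) (nat_lit 11) C.nil) C.nil)) C.nil))) C.nil))) C.nil)) (C.cons (nat_lit 1034) (C.node (nat_lit 1) (nat_lit 6) (nat_lit 10) (C.cons (nat_lit 1602) (C.node (nat_lit 1) (nat_lit 9) (nat_lit 11) (C.cons (nat_lit 2562) (C.node (nat_lit 1) (nat_lit 2) (nat_lit 9) (C.cons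 (nat_lit 550) (C.node (nat_lit 1) (nat_lit 2) (nat_lit 4) C.nil) C.nil)) C.nil)) (C.cons (nat_lit 1090) (C.node (nat_lit 1) (nat_lit 9) (nat_lit 10) (C.cons (nat_lit 1538) (C.node (nat_lit 1) (nat_lit 4) (nat_lit 6) (C.cons (nat_lit 122) (C.miq (nat_lit 2316569430) (nat_lit 1415658352402642329421875425)) (C.cons (nat_lit 118) (C.miq (nat_lit 2316569430) (nat_lit 1415658352402642329421613281)) (C.cons (nat_lit 114) (C.miq (nat_lit 2316569430) (nat_lit 1415658352402642329421351137)) (C.cons (nat_lit 90) (C.miq (nat_lit 2590051139) (nat_lit 1317738792108255273813674013)) (C.cons (nat_lit 86) (C.miq (nat_lit 2321615682) (nat_lit 1317733995954796109329991709)) (C.cons (nat_lit 82) (C.node (nat_lit 1) (nat_lit 2) (nat_lit 4) C.nil) C.nil))))))) C.nil)) C.nil))) C.nil))) C.nil))))) C.nil)))) C.nil)) (C.cons (nat_lit 3074) (C.node (nat_lit 2) (nat_lit 8) (nat_lit 11) (C.cons (nat_lit 2340) (C.node (nat_lit 2) (nat_lit 10) (nat_lit 11) (C.cons (nat_lit 3076)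 (C.node (nat_lit 4) (nat_lit 5) (nat_lit 11) (C.cons (nat_lit 2096) (C.node (nat_lit 4) (nat_lit 8) (nat_lit 11) C.nil) C.nil)) C.nil)) (C.cons (nat_lit 2308) (C.node (nat_lit 2) (nat_lit 5) (nat_lit 11) (C.cons (nat_lit 3108) (C.node (nat_lit 2) (nat_lit 4) (nat_lit 10) (C.cons (nat_lit 1300) (C.miq (nat_lit 621325156) (nat_lit 349403543510757644006657104)) (C.cons (nat_lit 1044) (C.node (nat_lit 4) (nat_lit 5) (nat_lit 10) C.nil) C.nil))) (C.cons (nat_lit 2084) (C.node (nat_lit 2) (nat_lit 10) (nat_lit 11) (C.cons (nat_lit 3076) (C.node (nat_lit 5) (nat_lit 10) (nat_lit 11) C.nil) C.nil)) C.nil))) C.nil))) C.nil))) C.nil))))) C.nil))) C.nil)))) C.nil)) (C.cons (nat_lit 2180) (C.node (nat_lit 7) (nat_lit 8) (nat_lit 11) (C.cons (nat_lit 2434) (C.node (nat_lit 6) (nat_lit 8) (nat_lit 11) (C.cons (nat_lit 2376) (C.miq (nat_lit 927367339) (nat_lit 870470419697076835143651073)) (C.cons (nat_lit 2372) (C.miq (nat_lit 2709653430) (nat_lit 317967653179537689321670881))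 (C.cons (nat_lit 2368) (C.node (nat_lit 1) (nat_lit 4) (nat_lit 11) (C.cons (nat_lit 2098) (C.node (nat_lit 4) (nat_lit 8) (nat_lit 11) (C.cons (nat_lit 2320) (C.node (nat_lit 1) (nat_lit 2) (nat_lit 4) (C.cons (nat_lit 86) (C.miq (nat_lit 683020452) (nat_lit 2862737927341476640776520851)) (C.cons (nat_lit 22) (C.node (nat_lit 1) (nat_lit 4) (nat_lit 6) (C.cons (nat_lit 82) (C.node (nat_lit 1) (nat_lit 3) (nat_lit 4) C.nil) C.nil)) C.nil))) C.nil)) (C.cons (nat_lit 2066) (C.node (nat_lit 1) (nat_lit 7) (nat_lit 9) (C.cons (nat_lit 674) (C.node (nat_lit 7) (nat_lit 8) (nat_lit 9) (C.cons (nat_lit 896) (C.node (nat_lit 5) (nat_lit 9) (nat_lit 11) (C.cons (nat_lit 2600) (C.miq (nat_lit 957658480) (nat_lit 640768999015032391665387745)) (C.cons (nat_lit 2596) (C.miq (nat_lit 689223024) (nat_lit 640768999013906491758545121)) (C.cons (nat_lit 2592) (C.node (nat_lit 1) (nat_lit 10) (nat_lit 11) (C.cons (nat_lit 3110) (C.miq (nat_lit 890702520) (nat_lit 814823252290465239310405377))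 (C.cons (nat_lit 3106) (C.miq (nat_lit 890702520) (nat_lit 814823252290465222130536193)) (C.cons (nat_lit 3078)
  (C.miq (nat_lit 678105162) (nat_lit 2862793119999730130189550739)) (C.cons (nat_lit 3074) (C.node (nat_lit 3) (nat_lit 8) (nat_lit 11) (C.cons (nat_lit 2344) (C.miq (nat_lit 1511731320) (nat_lit 3716281208963254737998840201)) (C.cons (nat_lit 2312) (C.node (nat_lit 3) (nat_lit 5) (nat_lit 11) (C.cons (nat_lit 2090) (C.miq (nat_lit 588843863) (nat_lit 632280102393011104185977057)) (C.cons (nat_lit 2088) (C.node (nat_lit 1) (nat_lit 3) (nat_lit 11) (C.cons (nat_lit 2122) (C.node (nat_lit 2) (nat_lit 6) (nat_lit 11) (C.cons (nat_lit 2628) (C.miq (nat_lit 658935979) (nat_lit 870475068347515104081743617)) C.nil)) (C.cons (nat_lit 2058) (C.node (nat_lit 1) (nat_lit 5) (nat_lit 11) C.nil) C.nil))) C.nil))) C.nil))) C.nil))))) C.nil)))) C.nil)) (C.cons (nat_lit 642) (C.node (nat_lit 2) (nat_lit 8) (nat_lit 11) (C.cons (nat_lit 2340) (C.node (nat_lit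 3) (nat_lit 8) (nat_lit 11) (C.cons (nat_lit 2312) (C.node (nat_lit 4) (nat_lit 5) (nat_lit 11) (C.cons (nat_lit 2096) (C.node (nat_lit 4) (nat_lit 8) (nat_lit 11) C.nil) C.nil)) C.nil)) (C.cons (nat_lit 2308) (C.node (nat_lit 3) (nat_lit 7) (nat_lit 11) (C.cons (nat_lit 2696) (C.node (nat_lit 3) (nat_lit 6) (nat_lit 11) (C.cons (nat_lit 2122) (C.node (nat_lit 1) (nat_lit 6) (nat_lit 7) (C.cons (nat_lit 198) (C.miq (nat_lit 2819754870) (nat_lit 317967653931075876996647137)) (C.cons (nat_lit 194) (C.node (nat_lit 2) (nat_lit 6) (nat_lit 11) (C.cons (nat_lit 2628) (C.miq (nat_lit 658935979) (nat_lit 870475068347515104081743617)) (C.cons (nat_lit 2116) (C.node (nat_lit 6) (nat_lit 9) (nat_lit 11) (C.cons (nat_lit 2624) (C.node (nat_lit 3) (nat_lit 6) (nat_lit 7) (C.cons (nat_lit 204) (C.miq (nat_lit 2540352288) (nat_lit 1470124651354233608287356957)) (C.cons (nat_lit 200) (C.node (nat_lit 2) (nat_lit 6) (nat_lit 7) (C.cons (nat_lit 452) (C.node (nat_lit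 3) (nat_lit 4) (nat_lit 6) C.nil) (C.cons (nat_lit 196) (C.node (nat_lit 6) (nat_lit 7) (nat_lit 8) C.nil) C.nil))) C.nil))) C.nil)) C.nil))) C.nil))) (C.cons (nat_lit 2120) (C.node (nat_lit 1) (nat_lit 3) (nat_lit 11) (C.cons (nat_lit 2090) (C.node (nat_lit 3) (nat_lit 8) (nat_lit 11) (C.cons (nat_lit 2312) (C.node (nat_lit 1) (nat_lit 10) (nat_lit 11) (C.cons (nat_lit 3078) (C.miq (nat_lit 1797802512) (nat_lit 2790207009110539321859310739)) (C.cons (nat_lit 3074) (C.node (nat_lit 2) (nat_lit 10) (nat_lit 11) (C.cons (nat_lit 3108) (C.node (nat_lit 5) (nat_lit 9) (nat_lit 11) C.nil) C.nil)) C.nil))) C.nil)) (C.cons (nat_lit 2058) (C.node (nat_lit 3) (nat_lit 5) (nat_lit 11) (C.cons (nat_lit 2344) (C.node (nat_lit 4) (nat_lit 5) (nat_lit 11) (C.cons (nat_lit 2096) (C.node (nat_lit 4) (nat_lit 8) (nat_lit 11) C.nil) C.nil)) (C.cons (nat_lit 2088) (C.node (nat_lit 3) (nat_lit 8) (nat_lit 11) C.nil) C.nil))) C.nil))) C.nil))) (C.cons (nat_lit 2184) (C.node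 (nat_lit 7) (nat_lit 9) (nat_lit 11) (C.cons (nat_lit 2688) (C.node (nat_lit 3) (nat_lit 8) (nat_lit 11) (C.cons (nat_lit 2344) (C.node (nat_lit 4) (nat_lit 5) (nat_lit 11) (C.cons (nat_lit 2096) (C.node (nat_lit 4) (nat_lit 8) (nat_lit 11) C.nil) C.nil)) (C.cons (nat_lit 2312) (C.node (nat_lit 1) (nat_lit 10) (nat_lit 11) (C.cons (nat_lit 3110) (C.miq (nat_lit 1797802512) (nat_lit 2790207009110539459298264211)) (C.cons (nat_lit 3106) (C.miq (nat_lit 1535353200) (nat_lit 2795056141605732884232602771)) (C.cons (nat_lit 3078) (C.miq (nat_lit 1797802512) (nat_lit 2790207009110539321859310739)) (C.cons (nat_lit 3074) (C.node (nat_lit 2) (nat_lit 10) (nat_lit 11) C.nil) C.nil))))) C.nil))) C.nil)) C.nil))) C.nil))) C.nil))) C.nil))) C.nil)))) (C.cons (nat_lit 2432) (C.node (nat_lit 1) (nat_lit 7) (nat_lit 11) (C.cons (nat_lit 2690) (C.node (nat_lit 3) (nat_lit 7) (nat_lit 11) (C.cons (nat_lit 2184) (C.node (nat_lit 7) (nat_lit 8) (nat_lit 9) (C.cons (nat_lit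 928) (C.node (nat_lit 4) (nat_lit 5) (nat_lit 7) (C.cons (nat_lit 180) (C.miq (nat_lit 2267780416) (nat_lit 2635529140965088270864941617)) (C.cons (nat_lit 176) (C.node (nat_lit 1) (nat_lit 7) (nat_lit 8) (C.cons (nat_lit 450)
  (C.node (nat_lit 1) (nat_lit 8) (nat_lit 9) (C.cons (nat_lit 770) (C.node (nat_lit 6) (nat_lit 8) (nat_lit 11) (C.cons (nat_lit 2376) (C.miq (nat_lit 927367339) (nat_lit 870470419697076835143651073)) (C.cons (nat_lit 2372) (C.miq (nat_lit 1115753319) (nat_lit 317969092280591501152618721)) (C.cons (nat_lit 2368) (C.node (nat_lit 2) (nat_lit 6) (nat_lit 11) (C.cons (nat_lit 2628) (C.miq (nat_lit 658935979) (nat_lit 870475068347515104081743617)) (C.cons (nat_lit 2118) (C.miq (nat_lit 840436583) (nat_lit 317954740713701064199768289)) (C.cons (nat_lit 2116) (C.node (nat_lit 1) (nat_lit 3) (nat_lit 7) (C.cons (nat_lit 174) (C.miq (nat_lit 2836597621) (nat_lit 632287850522046498062862561)) (C.cons (nat_lit 170) (C.miq (nat_lit 2836597621)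 (nat_lit 632287850522046498062600417)) (C.cons (nat_lit 142) (C.miq (nat_lit 1731494176) (nat_lit 183762941260840824215503111)) (C.cons (nat_lit 138) (C.node (nat_lit 3) (nat_lit 4) (nat_lit 8) (C.cons (nat_lit 314) (C.miq (nat_lit 996687985) (nat_lit 2862742133709714319621620883)) (C.cons (nat_lit 312) (C.miq (nat_lit 693372803) (nat_lit 678245698872803407477342601)) (C.cons (nat_lit 282) (C.miq (nat_lit 996687985) (nat_lit 2862741543413903960915969171)) (C.cons (nat_lit 280) (C.node (nat_lit 2) (nat_lit 4) (nat_lit 7) (C.cons (nat_lit 404) (C.node (nat_lit 7) (nat_lit 8) (nat_lit 10) C.nil) C.nil)) C.nil))))) C.nil))))) C.nil)))) C.nil)))) C.nil)) (C.cons (nat_lit 386) (C.node (nat_lit 1) (nat_lit 8) (nat_lit 9) (C.cons (nat_lit 834) (C.node (nat_lit 3) (nat_lit 9) (nat_lit 11) (C.cons (nat_lit 2632) (C.miq (nat_lit 2794539824) (nat_lit 1008265735583131476570081309)) (C.cons (nat_lit 2600) (C.miq (nat_lit 2710767541) (nat_lit 632287849770508310404401377))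 (C.cons (nat_lit 2568) (C.node (nat_lit 6) (nat_lit 9) (nat_lit 11) (C.cons (nat_lit 2628) (C.miq (nat_lit 658935979) (nat_lit 870475068347515104081743617)) (C.cons (nat_lit 2624) (C.node (nat_lit 3) (nat_lit 7) (nat_lit 9) (C.cons (nat_lit 1672) (C.node (nat_lit 2) (nat_lit 4) (nat_lit 7) (C.cons (nat_lit 404) (C.node (nat_lit 6) (nat_lit 7) (nat_lit 8) C.nil) C.nil)) C.nil)) C.nil))) C.nil)))) (C.cons (nat_lit 770) (C.node (nat_lit 2) (nat_lit 4) (nat_lit 7) (C.cons (nat_lit 404) (C.node (nat_lit 6) (nat_lit 7) (nat_lit 8) C.nil) (C.cons (nat_lit 148) (C.node (nat_lit 4) (nat_lit 7) (nat_lit 8) C.nil) C.nil))) C.nil))) C.nil))) C.nil))) (C.cons (nat_lit 896) (C.node (nat_lit 2) (nat_lit 9) (nat_lit 11) (C.cons (nat_lit 2628) (C.miq (nat_lit 658935979) (nat_lit 870475068347515104081743617)) (C.cons (nat_lit 2596) (C.node (nat_lit 2) (nat_lit 8) (nat_lit 11) (C.cons (nat_lit 2372) (C.miq (nat_lit 2190764880) (nat_lit 643154753255405355592124641)) (C.cons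 (nat_lit 2308) (C.node (nat_lit 2) (nat_lit 10) (nat_lit 11) (C.cons (nat_lit 3078) (C.miq (nat_lit 1797802512) (nat_lit 2790207009110539321859310739)) (C.cons (nat_lit 3076) (C.node (nat_lit 1) (nat_lit 10) (nat_lit 11) (C.cons (nat_lit 3106) (C.miq (nat_lit 1376434545) (nat_lit 1321413217156594439692683906)) (C.cons (nat_lit 3074) (C.node (nat_lit 5) (nat_lit 10) (nat_lit 11) (C.cons (nat_lit 3104) (C.node (nat_lit 1) (nat_lit 4) (nat_lit 11) (C.cons (nat_lit 2354) (C.miq (nat_lit 1500623364) (nat_lit 3252053879129613802115631133)) (C.cons (nat_lit 2322) (C.miq (nat_lit 1803723792) (nat_lit 2790220954849055799285056659)) (C.cons (nat_lit 2098) (C.miq (nat_lit 1500623364) (nat_lit 3252049156763130932470417437)) C.nil)))) C.nil)) C.nil))) C.nil))) C.nil))) (C.cons (nat_lit 2564) (C.node (nat_lit 5) (nat_lit 9) (nat_lit 11) (C.cons (nat_lit 2600) (C.miq (nat_lit 2710767541) (nat_lit 632287849770508310404401377)) (C.cons (nat_lit 2592) (C.node (nat_lit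 3) (nat_lit 9) (nat_lit 11) (C.cons (nat_lit 2632) (C.node (nat_lit 1) (nat_lit 6) (nat_lit 11) (C.cons (nat_lit 2370) (C.node (nat_lit 2) (nat_lit 6) (nat_lit 11) C.nil) (C.cons (nat_lit 2118) (C.node (nat_lit 6) (nat_lit 8) (nat_lit 11) C.nil) C.nil))) (C.cons (nat_lit 2568)
  (C.node (nat_lit 6) (nat_lit 9) (nat_lit 11) C.nil) C.nil))) C.nil))) C.nil)))) C.nil))) C.nil)) (C.cons (nat_lit 2186) (C.node (nat_lit 7) (nat_lit 9) (nat_lit 11) (C.cons (nat_lit 2688) (C.node (nat_lit 3) (nat_lit 6) (nat_lit 7) (C.cons (nat_lit 204) (C.node (nat_lit 1) (nat_lit 6) (nat_lit 7) (C.cons (nat_lit 450) (C.miq (nat_lit 457601800) (nat_lit 3810542485075457547730747785)) (C.cons (nat_lit 194) (C.node (nat_lit 6) (nat_lit 7) (nat_lit 8) (C.cons (nat_lit 448) (C.node (nat_lit 2) (nat_lit 3) (nat_lit 10) (C.cons (nat_lit 1548) (C.miq (nat_lit 1805873298) (nat_lit 3723495288188658013977707141)) (C.cons (nat_lit 1292) (C.miq (nat_lit 3123054647) (nat_lit 1321397851369220164421419401))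 (C.cons (nat_lit 1038) (C.miq (nat_lit 1729760050) (nat_lit 1415672297699805339050706973)) (C.cons (nat_lit 1036) (C.node (nat_lit 1) (nat_lit 2) (nat_lit 3) (C.cons (nat_lit 46) (C.node (nat_lit 1) (nat_lit 2) (nat_lit 7) (C.cons (nat_lit 134) (C.node (nat_lit 1) (nat_lit 2) (nat_lit 4) (C.cons (nat_lit 86) (C.node (nat_lit 1) (nat_lit 3) (nat_lit 4) (C.cons (nat_lit 282) (C.miq (nat_lit 2255569075) (nat_lit 234536811081933675741972509)) (C.cons (nat_lit 26) (C.node (nat_lit 3) (nat_lit 4) (nat_lit 6) (C.cons (nat_lit 88) (C.node (nat_lit 3) (nat_lit 5) (nat_lit 7) C.nil) C.nil)) C.nil))) (C.cons (nat_lit 22) (C.node (nat_lit 2) (nat_lit 3) (nat_lit 8) (C.cons (nat_lit 780) (C.node (nat_lit 3) (nat_lit 6) (nat_lit 11) (C.cons (nat_lit 2632) (C.miq (nat_lit 2204865136) (nat_lit 3181963611389242464371016325)) (C.cons (nat_lit 2376) (C.miq (nat_lit 1178053504) (nat_lit 246642469225913996985044737)) (C.cons (nat_lit 2120) (C.miq (nat_lit 2204865136) (nat_lit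 2562993591746552326921454213)) C.nil)))) (C.cons (nat_lit 268) (C.node (nat_lit 2) (nat_lit 3) (nat_lit 9) (C.cons (nat_lit 524) (C.node (nat_lit 2) (nat_lit 4) (nat_lit 6) (C.cons (nat_lit 116) (C.node (nat_lit 2) (nat_lit 4) (nat_lit 7) C.nil) (C.cons (nat_lit 84) (C.node (nat_lit 2) (nat_lit 4) (nat_lit 7) (C.cons (nat_lit 436) (C.node (nat_lit 2) (nat_lit 4) (nat_lit 10) C.nil) C.nil)) C.nil))) C.nil)) C.nil))) C.nil))) C.nil)) (C.cons (nat_lit 14) (C.node (nat_lit 1) (nat_lit 2) (nat_lit 7) (C.cons (nat_lit 166) (C.node (nat_lit 1) (nat_lit 2) (nat_lit 4) (C.cons (nat_lit 86) (C.node (nat_lit 2) (nat_lit 4) (nat_lit 7) (C.cons (nat_lit 404) (C.node (nat_lit 4) (nat_lit 5) (nat_lit 7) C.nil) C.nil)) (C.cons (nat_lit 22) (C.node (nat_lit 2) (nat_lit 8) (nat_lit 11) (C.cons (nat_lit 2372) (C.miq (nat_lit 1645525002) (nat_lit 26654512836501948761050881)) (C.cons (nat_lit 2340) (C.miq (nat_lit 2820737879) (nat_lit 317969092777113222612650209)) (C.cons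 (nat_lit 2308) (C.node (nat_lit 2) (nat_lit 6) (nat_lit 8) (C.cons (nat_lit 868) (C.miq (nat_lit 1093142358) (nat_lit 317953707441008223816255713)) (C.cons (nat_lit 836) (C.miq (nat_lit 342362002) (nat_lit 407412853033431707647476357)) (C.cons (nat_lit 356) (C.miq (nat_lit 1093142358) (nat_lit 317953707441008223782701281)) (C.cons (nat_lit 324) (C.node (nat_lit 1) (nat_lit 7) (nat_lit 8) (C.cons (nat_lit 898) (C.node (nat_lit 2) (nat_lit 4) (nat_lit 7) (C.cons (nat_lit 404) (C.miq (nat_lit 880345729) (nat_lit 870436238354308817737613575)) (C.cons (nat_lit 148) (C.node (nat_lit 2) (nat_lit 4) (nat_lit 6) C.nil) C.nil))) (C.cons (nat_lit 386) (C.node (nat_lit 1) (nat_lit 7) (nat_lit 9) C.nil) C.nil))) C.nil))))) C.nil)))) C.nil))) (C.cons (nat_lit 134) (C.node (nat_lit 3) (nat_lit 5) (nat_lit 7) (C.cons (nat_lit 680) (C.node (nat_lit 3) (nat_lit 7) (nat_lit 10) C.nil) (C.cons (nat_lit 168) (C.node (nat_lit 3) (nat_lit 7) (nat_lit 9) (C.cons (nat_lit 648)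 (C.node (nat_lit 3) (nat_lit 7) (nat_lit 10) C.nil) C.nil)) C.nil))) C.nil))) C.nil))) C.nil))))) C.nil)) C.nil))) (C.cons (nat_lit 200) (C.node (nat_lit 1) (nat_lit 6) (nat_lit 7) (C.cons (nat_lit 450) (C.miq (nat_lit 457601800) (nat_lit 3810542485075457547730747785)) (C.cons (nat_lit 198) (C.node (nat_lit 6) (nat_lit 7) (nat_lit 8) (C.cons (nat_lit 448)
  (C.node (nat_lit 2) (nat_lit 6) (nat_lit 11) (C.cons (nat_lit 2628) (C.miq (nat_lit 1177004944) (nat_lit 239388914308227304285081345)) (C.cons (nat_lit 2372) (C.miq (nat_lit 1176611712) (nat_lit 239388914308226204748418817)) (C.cons (nat_lit 2116) (C.node (nat_lit 6) (nat_lit 8) (nat_lit 11) (C.cons (nat_lit 2376) (C.miq (nat_lit 1178053504) (nat_lit 241806765947455480286220033)) (C.cons (nat_lit 2370) (C.miq (nat_lit 2551319399) (nat_lit 317959389789730580239616225)) (C.cons (nat_lit 2368) (C.node (nat_lit 1) (nat_lit 7) (nat_lit 9) (C.cons (nat_lit 930) (C.miq (nat_lit 831829840) (nat_lit 640768998898502850778826977))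 (C.cons (nat_lit 898) (C.miq (nat_lit 2540339488) (nat_lit 1470124650848141574391791879)) (C.cons (nat_lit 674) (C.miq (nat_lit 831829840) (nat_lit 640768998898501751267199201)) (C.cons (nat_lit 642) (C.node (nat_lit 1) (nat_lit 2) (nat_lit 4) (C.cons (nat_lit 54) (C.node (nat_lit 2) (nat_lit 4) (nat_lit 6) (C.cons (nat_lit 84) (C.node (nat_lit 1) (nat_lit 4) (nat_lit 6) C.nil) C.nil)) (C.cons (nat_lit 22) (C.node (nat_lit 1) (nat_lit 5) (nat_lit 7) (C.cons (nat_lit 418) (C.node (nat_lit 7) (nat_lit 8) (nat_lit 9) C.nil) (C.cons (nat_lit 162) (C.node (nat_lit 1) (nat_lit 7) (nat_lit 8) (C.cons (nat_lit 386) (C.node (nat_lit 7) (nat_lit 8) (nat_lit 9) C.nil) C.nil)) C.nil))) C.nil))) C.nil))))) C.nil)))) C.nil)))) C.nil)) (C.cons (nat_lit 194) (C.node (nat_lit 1) (nat_lit 2) (nat_lit 7) (C.cons (nat_lit 166) (C.node (nat_lit 1) (nat_lit 2) (nat_lit 4) (C.cons (nat_lit 86) (C.node (nat_lit 1) (nat_lit 2) (nat_lit 3) (C.cons (nat_lit 1038) (C.miq (nat_lit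 1729760050) (nat_lit 1415672297699805339050706973)) (C.cons (nat_lit 14) (C.node (nat_lit 2) (nat_lit 6) (nat_lit 7) (C.cons (nat_lit 452) (C.miq (nat_lit 3056116752) (nat_lit 546505325297009001331360915)) (C.cons (nat_lit 196) (C.node (nat_lit 6) (nat_lit 7) (nat_lit 8) (C.cons (nat_lit 448) (C.node (nat_lit 1) (nat_lit 7) (nat_lit 8) (C.cons (nat_lit 386) (C.node (nat_lit 1) (nat_lit 7) (nat_lit 9) C.nil) C.nil)) C.nil)) C.nil))) C.nil))) (C.cons (nat_lit 22) (C.node (nat_lit 2) (nat_lit 8) (nat_lit 11) (C.cons (nat_lit 2372) (C.miq (nat_lit 1645525002) (nat_lit 26654512836501948761050881)) (C.cons (nat_lit 2340) (C.miq (nat_lit 2820737879) (nat_lit 317969092777113222612650209)) (C.cons (nat_lit 2308) (C.node (nat_lit 1) (nat_lit 7) (nat_lit 8) (C.cons (nat_lit 898) (C.node (nat_lit 2) (nat_lit 4) (nat_lit 7) (C.cons (nat_lit 404) (C.miq (nat_lit 880345729) (nat_lit 870436238354308817737613575)) (C.cons (nat_lit 148) (C.node (nat_lit 2) (nat_lit 4)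 (nat_lit 6) C.nil) C.nil))) (C.cons (nat_lit 386) (C.node (nat_lit 1) (nat_lit 7) (nat_lit 9) (C.cons (nat_lit 642) (C.node (nat_lit 2) (nat_lit 3) (nat_lit 7) (C.cons (nat_lit 140) (C.node (nat_lit 2) (nat_lit 4) (nat_lit 7) C.nil) C.nil)) C.nil)) C.nil))) C.nil)))) C.nil))) (C.cons (nat_lit 134) (C.node (nat_lit 2) (nat_lit 6) (nat_lit 7) (C.cons (nat_lit 452) (C.node (nat_lit 2) (nat_lit 4) (nat_lit 7) (C.cons (nat_lit 180) (C.node (nat_lit 4) (nat_lit 7) (nat_lit 8) C.nil) (C.cons (nat_lit 148) (C.node (nat_lit 4) (nat_lit 5) (nat_lit 7) (C.cons (nat_lit 176) (C.node (nat_lit 4) (nat_lit 7) (nat_lit 8) C.nil) C.nil)) C.nil))) (C.cons (nat_lit 196) (C.node (nat_lit 6) (nat_lit 7) (nat_lit 8) (C.cons (nat_lit 448) (C.node (nat_lit 1) (nat_lit 7) (nat_lit 9) (C.cons (nat_lit 930) (C.miq (nat_lit 831829840) (nat_lit 640768998898502850778826977)) (C.cons (nat_lit 898) (C.node (nat_lit 1) (nat_lit 5) (nat_lit 7) C.nil) (C.cons (nat_lit 674) (C.miq (nat_lit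 831829840) (nat_lit 640768998898501751267199201)) C.nil)))) C.nil)) C.nil))) C.nil))) C.nil)))) C.nil))) C.nil)) (C.cons (nat_lit 2178) (C.node (nat_lit 3) (nat_lit 7) (nat_lit 11) (C.cons (nat_lit 2696) (C.node (nat_lit 3) (nat_lit 7) (nat_lit 10) (C.cons (nat_lit 1164) (C.node (nat_lit 7) (nat_lit 9) (nat_lit 10) (C.cons (nat_lit 1696) (C.miq (nat_lit 1513396000) (nat_lit 1266964608056943286129853061)) (C.cons (nat_lit 1664)
  (C.node (nat_lit 3) (nat_lit 5) (nat_lit 7) (C.cons (nat_lit 170) (C.node (nat_lit 3) (nat_lit 6) (nat_lit 7) (C.cons (nat_lit 200) (C.node (nat_lit 1) (nat_lit 2) (nat_lit 7) (C.cons (nat_lit 198) (C.miq (nat_lit 329413894) (nat_lit 1407193306534610274101823713)) (C.cons (nat_lit 134) (C.node (nat_lit 1) (nat_lit 7) (nat_lit 9) (C.cons (nat_lit 898) (C.miq (nat_lit 923974016) (nat_lit 162034374474661798259134209)) C.nil)) C.nil))) C.nil)) (C.cons (nat_lit 168) (C.node (nat_lit 1) (nat_lit 3) (nat_lit 7) (C.cons (nat_lit 202)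 (C.node (nat_lit 1) (nat_lit 3) (nat_lit 10) (C.cons (nat_lit 1290) (C.miq (nat_lit 381302536) (nat_lit 3810557979782033952003391881)) (C.cons (nat_lit 1034) (C.node (nat_lit 3) (nat_lit 6) (nat_lit 11) (C.cons (nat_lit 2376) (C.miq (nat_lit 1178053504) (nat_lit 244224617586684738635632385)) (C.cons (nat_lit 2120) (C.node (nat_lit 6) (nat_lit 9) (nat_lit 11) (C.cons (nat_lit 2630) (C.miq (nat_lit 658935979) (nat_lit 870475105241003251500846849)) (C.cons (nat_lit 2628) (C.miq (nat_lit 658935979) (nat_lit 870475068347515104081743617)) (C.cons (nat_lit 2626) (C.miq (nat_lit 2299726695) (nat_lit 632275454310028690368104673)) (C.cons (nat_lit 2624) (C.node (nat_lit 7) (nat_lit 8) (nat_lit 9) (C.cons (nat_lit 930) (C.miq (nat_lit 594611096) (nat_lit 244207867640481584823537409)) (C.cons (nat_lit 928) (C.node (nat_lit 1) (nat_lit 7) (nat_lit 9) C.nil) (C.cons (nat_lit 898) (C.miq (nat_lit 594611096) (nat_lit 244207867640481584821440257)) C.nil)))) C.nil)))))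 C.nil))) C.nil))) (C.cons (nat_lit 138) (C.node (nat_lit 3) (nat_lit 6) (nat_lit 7) (C.cons (nat_lit 200) (C.node (nat_lit 5) (nat_lit 7) (nat_lit 10) (C.cons (nat_lit 1184) (C.node (nat_lit 7) (nat_lit 8) (nat_lit 10) C.nil) C.nil)) C.nil)) C.nil))) C.nil))) C.nil))) (C.cons (nat_lit 1160) (C.node (nat_lit 7) (nat_lit 9) (nat_lit 10) (C.cons (nat_lit 1696) (C.node (nat_lit 1) (nat_lit 7) (nat_lit 9) (C.cons (nat_lit 898) (C.miq (nat_lit 729285521) (nat_lit 2940112445381104644416209419)) (C.cons (nat_lit 642) (C.node (nat_lit 7) (nat_lit 8) (nat_lit 9) (C.cons (nat_lit 896) (C.node (nat_lit 2) (nat_lit 3) (nat_lit 7) (C.cons (nat_lit 206) (C.miq (nat_lit 2305887026) (nat_lit 776135228767440280564402205)) (C.cons (nat_lit 204) (C.miq (nat_lit 2540352288) (nat_lit 1470124651354233608287356957)) (C.cons (nat_lit 174) (C.miq (nat_lit 2305887026) (nat_lit 776135228767440280562305053)) (C.cons (nat_lit 172) (C.miq (nat_lit 3126004082) (nat_lit 1287544312858173835622220421))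 (C.cons (nat_lit 142) (C.miq (nat_lit 2305887026) (nat_lit 776135228767440280560207901)) (C.cons (nat_lit 140) (C.node (nat_lit 2) (nat_lit 9) (nat_lit 11) (C.cons (nat_lit 2630) (C.miq (nat_lit 658935979) (nat_lit 870475105241003251500846849)) (C.cons (nat_lit 2628) (C.miq (nat_lit 658935979) (nat_lit 870475068347515104081743617)) (C.cons (nat_lit 2598) (C.miq (nat_lit 698660208) (nat_lit 1876291186660624847718254817)) (C.cons (nat_lit 2596) (C.miq (nat_lit 698660208) (nat_lit 1876291186660061897764833505)) (C.cons (nat_lit 2566) (C.miq (nat_lit 2274427826) (nat_lit 776135227796914561020725277)) C.nil)))))) C.nil))))))) C.nil)) C.nil))) (C.cons (nat_lit 1664) (C.node (nat_lit 3) (nat_lit 9) (nat_lit 10) (C.cons (nat_lit 1608) (C.node (nat_lit 3) (nat_lit 4) (nat_lit 6) (C.cons (nat_lit 122) (C.miq (nat_lit 430321844) (nat_lit 1943954968590328615488456733)) (C.cons (nat_lit 120) (C.node (nat_lit 1) (nat_lit 3) (nat_lit 4) (C.cons (nat_lit 282) (C.node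 (nat_lit 1) (nat_lit 3) (nat_lit 10) (C.cons (nat_lit 1038) (C.miq (nat_lit 1134985504) (nat_lit 1943958934572456954726514951)) (C.cons (nat_lit 1034) (C.node (nat_lit 1) (nat_lit 4) (nat_lit 6) (C.cons (nat_lit 86) (C.miq (nat_lit 3021514272) (nat_lit 340987935962522041631310917)) (C.cons (nat_lit 82) (C.node (nat_lit 2) (nat_lit 4) (nat_lit 6) C.nil) C.nil))) C.nil))) (C.cons (nat_lit 26) (C.node (nat_lit 3) (nat_lit 4) (nat_lit 8) (C.cons (nat_lit 280) (C.node (nat_lit 1) (nat_lit 4) (nat_lit 6) (C.cons (nat_lit 82)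
  (C.node (nat_lit 2) (nat_lit 4) (nat_lit 6) C.nil) C.nil)) C.nil)) C.nil))) (C.cons (nat_lit 90) (C.miq (nat_lit 430321844) (nat_lit 1943954378294518256782805021)) (C.cons (nat_lit 88) (C.node (nat_lit 7) (nat_lit 8) (nat_lit 9) (C.cons (nat_lit 930) (C.miq (nat_lit 729285521) (nat_lit 2940112445381104644418306571)) (C.cons (nat_lit 928) (C.node (nat_lit 1) (nat_lit 7) (nat_lit 9) (C.cons (nat_lit 642) (C.node (nat_lit 3) (nat_lit 8) (nat_lit 9) (C.cons (nat_lit 780) (C.miq (nat_lit 542653305) (nat_lit 349393950913638614089861768)) C.nil)) C.nil)) (C.cons (nat_lit 898) (C.miq (nat_lit 729285521) (nat_lit 2940112445381104644416209419)) (C.cons (nat_lit 896) (C.node (nat_lit 1) (nat_lit 7) (nat_lit 9) (C.cons (nat_lit 674) (C.node (nat_lit 5) (nat_lit 9) (nat_lit 11) (C.cons (nat_lit 2596) (C.miq (nat_lit 689223024) (nat_lit 640768999013906491758545121)) C.nil)) (C.cons (nat_lit 642) (C.node (nat_lit 5) (nat_lit 7) (nat_lit 9) C.nil) C.nil))) C.nil)))))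 C.nil))))) (C.cons (nat_lit 1548) (C.miq (nat_lit 1738148658) (nat_lit 2011672726769819712647596061)) (C.cons (nat_lit 1544) (C.node (nat_lit 3) (nat_lit 4) (nat_lit 6) (C.cons (nat_lit 122) (C.miq (nat_lit 1671119114) (nat_lit 3259322153852702781192864915)) (C.cons (nat_lit 120) (C.node (nat_lit 6) (nat_lit 9) (nat_lit 10) (C.cons (nat_lit 1634) (C.miq (nat_lit 323391674) (nat_lit 145101240480792276045401857)) (C.cons (nat_lit 1632) (C.miq (nat_lit 2521539888) (nat_lit 3810605037828665954585609257)) (C.cons (nat_lit 1602) (C.miq (nat_lit 323391674) (nat_lit 145100650184981917339750145)) (C.cons (nat_lit 1600) (C.node (nat_lit 1) (nat_lit 3) (nat_lit 4) (C.cons (nat_lit 282) (C.node (nat_lit 1) (nat_lit 4) (nat_lit 6) (C.cons (nat_lit 86) (C.miq (nat_lit 3021514272) (nat_lit 340987935962522041631310917)) C.nil)) (C.cons (nat_lit 26) (C.node (nat_lit 3) (nat_lit 4) (nat_lit 8) (C.cons (nat_lit 280) (C.node (nat_lit 1) (nat_lit 7) (nat_lit 9) (C.cons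 (nat_lit 930) (C.miq (nat_lit 729285521) (nat_lit 2940112445381104644418306571)) C.nil)) C.nil)) C.nil))) C.nil))))) (C.cons (nat_lit 90) (C.miq (nat_lit 1671119114) (nat_lit 3259322153843695581938123923)) (C.cons (nat_lit 88) (C.node (nat_lit 6) (nat_lit 9) (nat_lit 10) (C.cons (nat_lit 1634) (C.miq (nat_lit 323391674) (nat_lit 106415614253124142454804225)) (C.cons (nat_lit 1632) (C.node (nat_lit 1) (nat_lit 9) (nat_lit 10) (C.cons (nat_lit 1542) (C.node (nat_lit 1) (nat_lit 7) (nat_lit 9) (C.cons (nat_lit 930) (C.miq (nat_lit 693543280) (nat_lit 1972987100336385786216776851)) (C.cons (nat_lit 898) (C.miq (nat_lit 2987995271) (nat_lit 1864213346852405564611363209)) (C.cons (nat_lit 674) (C.miq (nat_lit 693543280) (nat_lit 1972987100336384686705149075)) (C.cons (nat_lit 642) (C.node (nat_lit 5) (nat_lit 7) (nat_lit 9) C.nil) C.nil))))) (C.cons (nat_lit 1538) (C.node (nat_lit 2) (nat_lit 9) (nat_lit 10) (C.cons (nat_lit 1540) (C.node (nat_lit 1) (nat_lit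 7) (nat_lit 9) C.nil) C.nil)) C.nil))) (C.cons (nat_lit 1602) (C.miq (nat_lit 323391674) (nat_lit 106415023957313783749152513)) (C.cons (nat_lit 1600) (C.node (nat_lit 7) (nat_lit 8) (nat_lit 9) (C.cons (nat_lit 930) (C.miq (nat_lit 729285521) (nat_lit 2940112445381104644418306571)) (C.cons (nat_lit 928) (C.node (nat_lit 1) (nat_lit 7) (nat_lit 9) (C.cons (nat_lit 642) (C.node (nat_lit 1) (nat_lit 7) (nat_lit 8) C.nil) C.nil)) (C.cons (nat_lit 898) (C.miq (nat_lit 729285521) (nat_lit 2940112445381104644416209419)) (C.cons (nat_lit 896) (C.node (nat_lit 2) (nat_lit 4) (nat_lit 7) (C.cons (nat_lit 148) (C.node (nat_lit 1) (nat_lit 7) (nat_lit 9) C.nil) C.nil)) C.nil))))) C.nil))))) C.nil))))) C.nil)))) C.nil))) C.nil))) (C.cons (nat_lit 2184) (C.node (nat_lit 7) (nat_lit 9) (nat_lit 11) (C.cons (nat_lit 2688) (C.node (nat_lit 2) (nat_lit 8) (nat_lit 11) (C.cons (nat_lit 2372) (C.node (nat_lit 6) (nat_lit 7) (nat_lit 8) (C.cons (nat_lit 450) (C.miq (nat_lit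 1115753319) (nat_lit 317969092280591501152618721)) (C.cons (nat_lit 448) (C.node (nat_lit 1) (nat_lit 2) (nat_lit 4)
  (C.cons (nat_lit 118) (C.miq (nat_lit 2185868880) (nat_lit 643219390646628990932027617)) (C.cons (nat_lit 86) (C.node (nat_lit 2) (nat_lit 9) (nat_lit 11) (C.cons (nat_lit 2598) (C.miq (nat_lit 1382325120) (nat_lit 103977969841565637261987585)) (C.cons (nat_lit 2596) (C.miq (nat_lit 1382325120) (nat_lit 103977969841002687308566273)) (C.cons (nat_lit 2566) (C.miq (nat_lit 2703966342) (nat_lit 3102161797598067122262770001)) (C.cons (nat_lit 2564) (C.node (nat_lit 1) (nat_lit 6) (nat_lit 7) (C.cons (nat_lit 202) (C.node (nat_lit 2) (nat_lit 6) (nat_lit 7) (C.cons (nat_lit 196) (C.node (nat_lit 1) (nat_lit 6) (nat_lit 11) (C.cons (nat_lit 2626) (C.miq (nat_lit 2299726695) (nat_lit 632275454310028690368104673)) (C.cons (nat_lit 2114) (C.node (nat_lit 1) (nat_lit 2) (nat_lit 7) C.nil) C.nil))) C.nil)) (C.cons (nat_lit 194) (C.node (nat_lit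 2) (nat_lit 6) (nat_lit 7) (C.cons (nat_lit 204) (C.node (nat_lit 3) (nat_lit 4) (nat_lit 6) (C.cons (nat_lit 120) (C.miq (nat_lit 592016976) (nat_lit 647996137520790190985119969)) (C.cons (nat_lit 88) (C.node (nat_lit 4) (nat_lit 5) (nat_lit 6) (C.cons (nat_lit 112) (C.node (nat_lit 1) (nat_lit 2) (nat_lit 7) C.nil) C.nil)) C.nil))) (C.cons (nat_lit 196) (C.node (nat_lit 1) (nat_lit 6) (nat_lit 11) C.nil) C.nil))) C.nil))) C.nil))))) (C.cons (nat_lit 54) (C.miq (nat_lit 1645525002) (nat_lit 65340139064170082351648513)) (C.cons (nat_lit 22) (C.miq (nat_lit 1645525002) (nat_lit 26654512836501948761050881)) C.nil))))) C.nil))) (C.cons (nat_lit 2340) (C.node (nat_lit 2) (nat_lit 10) (nat_lit 11) (C.cons (nat_lit 3078) (C.miq (nat_lit 1797802512) (nat_lit 2828892635338207455449908371)) (C.cons (nat_lit 3076) (C.node (nat_lit 4) (nat_lit 8) (nat_lit 11) (C.cons (nat_lit 2322) (C.miq (nat_lit 1803723792) (nat_lit 2828906581076723932875654291)) (C.cons (nat_lit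 2320) (C.node (nat_lit 1) (nat_lit 2) (nat_lit 4) (C.cons (nat_lit 118) (C.miq (nat_lit 1653293322) (nat_lit 2828944562068767778399126675)) (C.cons (nat_lit 86) (C.miq (nat_lit 1653293322) (nat_lit 2828944562059760579144385683)) (C.cons (nat_lit 54) (C.miq (nat_lit 1420501256) (nat_lit 3810577348821648317425451271)) (C.cons (nat_lit 22) (C.node (nat_lit 1) (nat_lit 4) (nat_lit 11) C.nil) C.nil))))) C.nil))) C.nil))) (C.cons (nat_lit 2308) (C.node (nat_lit 1) (nat_lit 10) (nat_lit 11) (C.cons (nat_lit 3110) (C.miq (nat_lit 1797802512) (nat_lit 2790207009110539459298264211)) (C.cons (nat_lit 3106) (C.node (nat_lit 2) (nat_lit 10) (nat_lit 11) (C.cons (nat_lit 3076) (C.node (nat_lit 1) (nat_lit 4) (nat_lit 11) (C.cons (nat_lit 2322) (C.miq (nat_lit 1803723792) (nat_lit 2790220954849055799285056659)) (C.cons (nat_lit 2066) (C.node (nat_lit 2) (nat_lit 5) (nat_lit 11) C.nil) C.nil))) C.nil)) (C.cons (nat_lit 3078) (C.miq (nat_lit 1797802512) (nat_lit 2790207009110539321859310739))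 (C.cons (nat_lit 3074) (C.node (nat_lit 2) (nat_lit 10) (nat_lit 11) (C.cons (nat_lit 3108) (C.node (nat_lit 2) (nat_lit 4) (nat_lit 10) (C.cons (nat_lit 1300) (C.miq (nat_lit 621325156) (nat_lit 349403543510757644006657104)) (C.cons (nat_lit 1044) (C.node (nat_lit 2) (nat_lit 4) (nat_lit 6) (C.cons (nat_lit 118) (C.miq (nat_lit 2317618006) (nat_lit 1262124773311584432823863521)) (C.cons (nat_lit 116) (C.miq (nat_lit 2317618006) (nat_lit 1262124773311584432823732449)) (C.cons (nat_lit 86) (C.miq (nat_lit 1653293322) (nat_lit 2790258935832092445553788051)) (C.cons (nat_lit 84) (C.node (nat_lit 1) (nat_lit 2) (nat_lit 4) C.nil) C.nil))))) C.nil))) (C.cons (nat_lit 3076) (C.node (nat_lit 5) (nat_lit 10) (nat_lit 11) (C.cons (nat_lit 3104) (C.node (nat_lit 3) (nat_lit 9) (nat_lit 11) C.nil) C.nil)) C.nil))) C.nil))))) C.nil)))) C.nil)) C.nil))) C.nil)))) C.nil))) C.nil)))) C.nil)) C.nil))) C.nil)))) List.nil)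

theorem ok12_276 : okL par12 (nat_lit 277) c12_276 (nat_lit 276) = true := by decide +kernel

noncomputable def c12_277 : List C :=
  (List.cons (C.node (nat_lit 3) (nat_lit 4) (nat_lit 9) (C.cons (nat_lit 792) (C.node (nat_lit 1) (nat_lit 4) (nat_lit 9) (C.cons (nat_lit 534) (C.node (nat_lit 7) (nat_lit 8) (nat_lit 9) (C.cons (nat_lit 930) (C.miq (nat_lit 596197489) (nat_lit 957479100280746881878983827)) (C.cons (nat_lit 928) (C.miq (nat_lit 1498118192) (nat_lit 3114234841037776475991638409)) (C.cons (nat_lit 898) (C.miq (nat_lit 596197489) (nat_lit 957479100280746881876886675)) (C.cons (nat_lit 896) (C.node (nat_lit 2) (nat_lit 4) (nat_lit 6) (C.cons (nat_lit 116) (C.node (nat_lit 2) (nat_lit 4) (nat_lit 7) (C.cons (nat_lit 404) (C.miq (nat_lit 691552519) (nat_lit 957476701769701968883287187)) (C.cons (nat_lit 148) (C.node (nat_lit 2) (nat_lit 4) (nat_lit 8) (C.cons (nat_lit 1300) (C.miq (nat_lit 2152901476) (nat_lit 44754237174192249895128144))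 (C.cons (nat_lit 276) (C.node (nat_lit 2) (nat_lit 4) (nat_lit 10) (C.cons (nat_lit 1044) (C.node (nat_lit 2) (nat_lit 9) (nat_lit 10) (C.cons (nat_lit 1572) (C.miq (nat_lit 2303986214) (nat_lit 678213602437711944370881605)) (C.cons (nat_lit 1548) (C.miq (nat_lit 1647577752) (nat_lit 2510945144199996434189651713)) (C.cons (nat_lit 1540) (C.node (nat_lit 2) (nat_lit 9) (nat_lit 11) (C.cons (nat_lit 2628) (C.miq (nat_lit 1952582329) (nat_lit 140247293554845262564036353)) (C.cons (nat_lit 2596) (C.miq (nat_lit 2454238560) (nat_lit 333734380888334308385818849)) (C.cons (nat_lit 2564) (C.node (nat_lit 2) (nat_lit 6) (nat_lit 11) (C.cons (nat_lit 2372) (C.miq (nat_lit 341969592) (nat_lit 140240246898609105498541825)) (C.cons (nat_lit 2118) (C.miq (nat_lit 2962318658) (nat_lit 632307274502194206776623220)) (C.cons (nat_lit 2116) (C.node (nat_lit 1) (nat_lit 2) (nat_lit 6) (C.cons (nat_lit 206) (C.miq (nat_lit 2506244209) (nat_lit 140245245794549569575322771))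 (C.cons (nat_lit 198) (C.miq (nat_lit 2506244209) (nat_lit 140245245794549569574798483)) (C.cons (nat_lit 78) (C.miq (nat_lit 810948930) (nat_lit 2747889826977303685756092950)) (C.cons (nat_lit 70) (C.node (nat_lit 2) (nat_lit 10) (nat_lit 11) (C.cons (nat_lit 3110) (C.miq (nat_lit 2722674016) (nat_lit 333734381033012446415096033)) (C.cons (nat_lit 3108) (C.miq (nat_lit 2722674016) (nat_lit 333734381032449496461674721)) (C.cons (nat_lit 3078) (C.miq (nat_lit 2259813537) (nat_lit 2558091885893117324380472467)) (C.cons (nat_lit 3076) (C.node (nat_lit 4) (nat_lit 8) (nat_lit 11) (C.cons (nat_lit 2354) (C.miq (nat_lit 1678945152) (nat_lit 645586550852703780795256577)) (C.cons (nat_lit 2352) (C.miq (nat_lit 2217391456) (nat_lit 1262189410283689620292307169)) (C.cons (nat_lit 2322) (C.miq (nat_lit 1678945152) (nat_lit 645586550852703643356303105)) (C.cons (nat_lit 2320) (C.node (nat_lit 3) (nat_lit 5) (nat_lit 9) (C.cons (nat_lit 2600) (C.miq (nat_lit 879073291)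 (nat_lit 140283356832818258207903489)) (C.cons (nat_lit 680) (C.miq (nat_lit 1687488567) (nat_lit 678249314347946977631142281)) (C.cons (nat_lit 616) (C.miq (nat_lit 2761099109) (nat_lit 957488895246835097184766177)) (C.cons (nat_lit 556) (C.miq (nat_lit 1380595984) (nat_lit 1262138201616613739706122763)) (C.cons (nat_lit 552) (C.node (nat_lit 6) (nat_lit 7) (nat_lit 10) (C.cons (nat_lit 1472) (C.miq (nat_lit 879168424) (nat_lit 870433840277591038103654145)) (C.cons (nat_lit 1224) (C.miq (nat_lit 1767076874) (nat_lit 667349631444685917707109523)) (C.cons (nat_lit 1216) (C.node (nat_lit 5) (nat_lit 6) (nat_lit 9) (C.cons (nat_lit 1634) (C.miq (nat_lit 593051809) (nat_lit 667336903573238766213661843)) (C.cons (nat_lit 1632) (C.miq (nat_lit 3109292642) (nat_lit 678245699772400456688731205)) (C.cons (nat_lit 866) (C.miq (nat_lit 828508500) (nat_lit 84663121407680269237092913)) (C.cons (nat_lit 864) (C.miq (nat_lit 2251003200) (nat_lit 2558157888491737330296357425))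 (C.cons (nat_lit 610) (C.miq (nat_lit 828508500) (nat_lit 84663121407679169725465137)) (C.cons (nat_lit 608) (C.node (nat_lit 1) (nat_lit 4) (nat_lit 6) (C.cons (nat_lit 90) (C.node (nat_lit 3) (nat_lit 4) (nat_lit 5) (C.cons (nat_lit 56)
  (C.node (nat_lit 2) (nat_lit 3) (nat_lit 9) (C.cons (nat_lit 588) (C.miq (nat_lit 379011872) (nat_lit 870448191285178593060390941)) C.nil)) C.nil)) (C.cons (nat_lit 82) (C.node (nat_lit 3) (nat_lit 4) (nat_lit 6) C.nil) C.nil))) C.nil))))))) C.nil)))) C.nil)))))) C.nil))))) C.nil))))) C.nil))))) C.nil)))) C.nil)))) C.nil)))) C.nil)) C.nil))) C.nil))) (C.cons (nat_lit 84) (C.node (nat_lit 2) (nat_lit 9) (nat_lit 10) (C.cons (nat_lit 1572) (C.node (nat_lit 2) (nat_lit 8) (nat_lit 9) (C.cons (nat_lit 836) (C.miq (nat_lit 342362002) (nat_lit 407412853033431707647476357)) (C.cons (nat_lit 772) (C.node (nat_lit 2) (nat_lit 9) (nat_lit 11) (C.cons (nat_lit 2628) (C.miq (nat_lit 1952582329) (nat_lit 101561667327177128973438721))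 (C.cons (nat_lit 2564) (C.node (nat_lit 5) (nat_lit 7) (nat_lit 9) (C.cons (nat_lit 680) (C.miq (nat_lit 1687488567) (nat_lit 678249314347946977631142281)) (C.cons (nat_lit 674) (C.miq (nat_lit 1496019264) (nat_lit 3099727731130905173709096083)) (C.cons (nat_lit 672) (C.node (nat_lit 1) (nat_lit 4) (nat_lit 11) (C.cons (nat_lit 2354) (C.miq (nat_lit 1678945152) (nat_lit 645586550852703780795256577)) (C.cons (nat_lit 2322) (C.miq (nat_lit 1678945152) (nat_lit 645586550852703643356303105)) (C.cons (nat_lit 2098) (C.miq (nat_lit 427115019) (nat_lit 812436852200407856008202269)) (C.cons (nat_lit 2066) (C.node (nat_lit 2) (nat_lit 10) (nat_lit 11) (C.cons (nat_lit 3078) (C.miq (nat_lit 2226194082) (nat_lit 2497645594912385865645163589)) (C.cons (nat_lit 3076) (C.node (nat_lit 1) (nat_lit 2) (nat_lit 10) (C.cons (nat_lit 1038) (C.miq (nat_lit 442049284) (nat_lit 1900441239287708023541270557)) (C.cons (nat_lit 1030) (C.node (nat_lit 1) (nat_lit 4) (nat_lit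 8) (C.cons (nat_lit 306) (C.node (nat_lit 4) (nat_lit 5) (nat_lit 10) (C.cons (nat_lit 1072) (C.node (nat_lit 4) (nat_lit 5) (nat_lit 11) (C.cons (nat_lit 2096) (C.node (nat_lit 4) (nat_lit 8) (nat_lit 11) (C.cons (nat_lit 2320) (C.node (nat_lit 4) (nat_lit 7) (nat_lit 8) (C.cons (nat_lit 404) (C.miq (nat_lit 942212929) (nat_lit 933300380500265674017735827)) C.nil)) C.nil)) C.nil)) C.nil)) (C.cons (nat_lit 274) (C.node (nat_lit 1) (nat_lit 7) (nat_lit 9) (C.cons (nat_lit 2690) (C.node (nat_lit 3) (nat_lit 7) (nat_lit 11) (C.cons (nat_lit 2184) (C.node (nat_lit 5) (nat_lit 9) (nat_lit 11) (C.cons (nat_lit 2600) (C.miq (nat_lit 2710767541) (nat_lit 632287849770508310404401377)) (C.cons (nat_lit 2592) (C.node (nat_lit 3) (nat_lit 5) (nat_lit 9) (C.cons (nat_lit 616) (C.miq (nat_lit 2761099109) (nat_lit 957488895246835097184766177)) (C.cons (nat_lit 552) (C.node (nat_lit 6) (nat_lit 7) (nat_lit 10) (C.cons (nat_lit 1472) (C.miq (nat_lit 879168424) (nat_lit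 870433840277591038103654145)) (C.cons (nat_lit 1224) (C.miq (nat_lit 1767076874) (nat_lit 667349631444685917707109523)) (C.cons (nat_lit 1216) (C.node (nat_lit 3) (nat_lit 5) (nat_lit 7) (C.cons (nat_lit 174) (C.miq (nat_lit 2836597621) (nat_lit 632287850522046498062862561)) (C.cons (nat_lit 172) (C.miq (nat_lit 2320697639) (nat_lit 1287513248541153176161354373)) (C.cons (nat_lit 170) (C.miq (nat_lit 2836597621) (nat_lit 632287850522046498062600417)) (C.cons (nat_lit 168) (C.node (nat_lit 4) (nat_lit 5) (nat_lit 6) (C.cons (nat_lit 122) (C.miq (nat_lit 3107260486) (nat_lit 667368982957703633416356177)) (C.cons (nat_lit 120) (C.miq (nat_lit 3107260486) (nat_lit 667368982957703633416225105)) (C.cons (nat_lit 114) (C.miq (nat_lit 542218084) (nat_lit 42322254429408504461787856)) (C.cons (nat_lit 112) (C.node (nat_lit 1) (nat_lit 4) (nat_lit 5) (C.cons (nat_lit 58) (C.node (nat_lit 1) (nat_lit 4) (nat_lit 6) C.nil) C.nil)) C.nil))))) C.nil))))) C.nil))))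 C.nil))) C.nil))) C.nil)) (C.cons (nat_lit 642) (C.node (nat_lit 7) (nat_lit 9) (nat_lit 11) (C.cons (nat_lit 2696) (C.miq (nat_lit 1731464088) (nat_lit 183762941773980676021292801)) (C.cons (nat_lit 2688) (C.node (nat_lit 1) (nat_lit 9) (nat_lit 10) (C.cons (nat_lit 1602) (C.node (nat_lit 2) (nat_lit 3) (nat_lit 9) (C.cons (nat_lit 588)
  (C.miq (nat_lit 3063106064) (nat_lit 710886696708059056629810323)) (C.cons (nat_lit 524) (C.node (nat_lit 2) (nat_lit 6) (nat_lit 9) C.nil) C.nil))) (C.cons (nat_lit 1538) (C.node (nat_lit 2) (nat_lit 3) (nat_lit 9) (C.cons (nat_lit 588) (C.node (nat_lit 6) (nat_lit 9) (nat_lit 10) C.nil) C.nil)) C.nil))) C.nil))) C.nil))) C.nil))) C.nil))) C.nil))) C.nil))))) C.nil)))) C.nil))) C.nil))) (C.cons (nat_lit 1548) (C.miq (nat_lit 1647577752) (nat_lit 2510945144199996434189651713)) (C.cons (nat_lit 1540) (C.node (nat_lit 2) (nat_lit 9) (nat_lit 11) (C.cons (nat_lit 2628) (C.miq (nat_lit 1952582329) (nat_lit 101561667327177128973438721))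 (C.cons (nat_lit 2596) (C.node (nat_lit 2) (nat_lit 8) (nat_lit 9) (C.cons (nat_lit 836) (C.miq (nat_lit 342362002) (nat_lit 407412853033431707647476357)) (C.cons (nat_lit 772) (C.node (nat_lit 2) (nat_lit 10) (nat_lit 11) (C.cons (nat_lit 3078) (C.miq (nat_lit 1410502827) (nat_lit 645614275579739820832198401)) (C.cons (nat_lit 3076) (C.node (nat_lit 1) (nat_lit 2) (nat_lit 11) (C.cons (nat_lit 2182) (C.node (nat_lit 7) (nat_lit 8) (nat_lit 11) (C.cons (nat_lit 2432) (C.node (nat_lit 1) (nat_lit 7) (nat_lit 9) (C.cons (nat_lit 674) (C.node (nat_lit 1) (nat_lit 7) (nat_lit 8) (C.cons (nat_lit 450) (C.miq (nat_lit 2173986640) (nat_lit 645572604353631453776513249)) (C.cons (nat_lit 386) (C.node (nat_lit 1) (nat_lit 10) (nat_lit 11) (C.cons (nat_lit 3106) (C.miq (nat_lit 655724715) (nat_lit 814863890349431803336593153)) (C.cons (nat_lit 3074) (C.node (nat_lit 5) (nat_lit 10) (nat_lit 11) (C.cons (nat_lit 3104) (C.node (nat_lit 2) (nat_lit 6) (nat_lit 11)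 (C.cons (nat_lit 2372) (C.miq (nat_lit 1382325120) (nat_lit 101560118201773428959153921)) (C.cons (nat_lit 2116) (C.node (nat_lit 2) (nat_lit 8) (nat_lit 11) (C.cons (nat_lit 2308) (C.node (nat_lit 3) (nat_lit 5) (nat_lit 7) (C.cons (nat_lit 172) (C.miq (nat_lit 949121205) (nat_lit 933293905693110563902851297)) (C.cons (nat_lit 168) (C.node (nat_lit 3) (nat_lit 5) (nat_lit 9) (C.cons (nat_lit 616) (C.miq (nat_lit 2761099109) (nat_lit 957488895246835097184766177)) (C.cons (nat_lit 552) (C.node (nat_lit 3) (nat_lit 7) (nat_lit 11) (C.cons (nat_lit 2696) (C.miq (nat_lit 1731464088) (nat_lit 183762941773980676021292801)) (C.cons (nat_lit 2184) (C.node (nat_lit 7) (nat_lit 9) (nat_lit 11) C.nil) C.nil))) C.nil))) C.nil))) C.nil)) C.nil))) C.nil)) C.nil))) C.nil))) (C.cons (nat_lit 642) (C.miq (nat_lit 1461259044) (nat_lit 776140725455819274936780829)) C.nil))) C.nil)) (C.cons (nat_lit 2118) (C.miq (nat_lit 2065761684) (nat_lit 2560526487720898677746041393))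 (C.cons (nat_lit 2054) (C.miq (nat_lit 2065761684) (nat_lit 2483155235265562410564846129)) C.nil)))) C.nil))) C.nil))) (C.cons (nat_lit 2564) (C.node (nat_lit 1) (nat_lit 7) (nat_lit 9) (C.cons (nat_lit 2690) (C.node (nat_lit 3) (nat_lit 7) (nat_lit 11) (C.cons (nat_lit 2184) (C.node (nat_lit 5) (nat_lit 9) (nat_lit 11) (C.cons (nat_lit 2600) (C.miq (nat_lit 2710767541) (nat_lit 632287849770508310404401377)) (C.cons (nat_lit 2592) (C.node (nat_lit 1) (nat_lit 4) (nat_lit 11) (C.cons (nat_lit 2354) (C.miq (nat_lit 1678945152) (nat_lit 645586550852703780795256577)) (C.cons (nat_lit 2322) (C.miq (nat_lit 1678945152) (nat_lit 645586550852703643356303105)) (C.cons (nat_lit 2098) (C.miq (nat_lit 1368896544) (nat_lit 3252052384803168816464201757)) (C.cons (nat_lit 2066) (C.node (nat_lit 4) (nat_lit 5) (nat_lit 6) (C.cons (nat_lit 122) (C.miq (nat_lit 901334536) (nat_lit 3133550334296774908674376017)) (C.cons (nat_lit 120) (C.miq (nat_lit 901334536) (nat_lit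 3133550334296211958720954705)) (C.cons (nat_lit 114) (C.miq (nat_lit 542218084) (nat_lit 42322254429408504461787856)) (C.cons (nat_lit 112) (C.node (nat_lit 1) (nat_lit 4) (nat_lit 6) (C.cons (nat_lit 90) (C.node (nat_lit 3) (nat_lit 4) (nat_lit 5) (C.cons (nat_lit 56) (C.node (nat_lit 3) (nat_lit 9) (nat_lit 11) (C.cons (nat_lit 2632) (C.node (nat_lit 6) (nat_lit 7) (nat_lit 10) (C.cons (nat_lit 1472)
  (C.miq (nat_lit 879168424) (nat_lit 870433840277591038103654145)) (C.cons (nat_lit 1224) (C.miq (nat_lit 1399392884) (nat_lit 3181903106148905446169117843)) (C.cons (nat_lit 1216) (C.node (nat_lit 2) (nat_lit 6) (nat_lit 9) (C.cons (nat_lit 868) (C.miq (nat_lit 342362002) (nat_lit 407412853033431707649573509)) (C.cons (nat_lit 836) (C.miq (nat_lit 342362002) (nat_lit 407412853033431707647476357)) (C.cons (nat_lit 612) (C.miq (nat_lit 620861044) (nat_lit 42322254420119830299607760)) (C.cons (nat_lit 580) (C.node (nat_lit 1) (nat_lit 4) (nat_lit 5) (C.cons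 (nat_lit 306) (C.node (nat_lit 4) (nat_lit 5) (nat_lit 11) C.nil) C.nil)) C.nil))))) C.nil)))) (C.cons (nat_lit 2568) (C.miq (nat_lit 1671119114) (nat_lit 3104579648933023047575733395)) C.nil))) C.nil)) (C.cons (nat_lit 82) (C.node (nat_lit 3) (nat_lit 4) (nat_lit 6) (C.cons (nat_lit 88) (C.node (nat_lit 1) (nat_lit 3) (nat_lit 4) (C.cons (nat_lit 58) (C.node (nat_lit 1) (nat_lit 4) (nat_lit 8) C.nil) C.nil)) C.nil)) C.nil))) C.nil))))) C.nil))))) C.nil))) C.nil)) (C.cons (nat_lit 674) (C.miq (nat_lit 1496019264) (nat_lit 3099727731130905173709096083)) (C.cons (nat_lit 642) (C.node (nat_lit 7) (nat_lit 9) (nat_lit 11) (C.cons (nat_lit 2696) (C.miq (nat_lit 1731464088) (nat_lit 183762941773980676021292801)) (C.cons (nat_lit 2688) (C.node (nat_lit 1) (nat_lit 4) (nat_lit 11) (C.cons (nat_lit 2354) (C.miq (nat_lit 1678945152) (nat_lit 645586550852703780795256577)) (C.cons (nat_lit 2322) (C.miq (nat_lit 1678945152) (nat_lit 645586550852703643356303105))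 (C.cons (nat_lit 2098) (C.miq (nat_lit 1368896544) (nat_lit 776172306232408266665953309)) (C.cons (nat_lit 2066) (C.node (nat_lit 1) (nat_lit 4) (nat_lit 8) (C.cons (nat_lit 306) (C.node (nat_lit 4) (nat_lit 5) (nat_lit 11) (C.cons (nat_lit 2096) (C.node (nat_lit 4) (nat_lit 8) (nat_lit 11) (C.cons (nat_lit 2320) (C.node (nat_lit 4) (nat_lit 7) (nat_lit 8) (C.cons (nat_lit 404) (C.miq (nat_lit 691552519) (nat_lit 957476701769701968883287187)) (C.cons (nat_lit 400) (C.node (nat_lit 1) (nat_lit 3) (nat_lit 4) (C.cons (nat_lit 90) (C.node (nat_lit 3) (nat_lit 4) (nat_lit 5) C.nil) C.nil)) C.nil))) C.nil)) C.nil)) (C.cons (nat_lit 274) (C.node (nat_lit 3) (nat_lit 7) (nat_lit 11) (C.cons (nat_lit 2186) (C.node (nat_lit 2) (nat_lit 7) (nat_lit 11) (C.cons (nat_lit 2436) (C.node (nat_lit 2) (nat_lit 4) (nat_lit 7) (C.cons (nat_lit 180) (C.miq (nat_lit 2185869136) (nat_lit 645637242303872914078894305)) (C.cons (nat_lit 148) (C.node (nat_lit 4) (nat_lit 5)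 (nat_lit 11) (C.cons (nat_lit 2352) (C.miq (nat_lit 675904336) (nat_lit 957481147970396994095089889)) (C.cons (nat_lit 2096) (C.node (nat_lit 4) (nat_lit 8) (nat_lit 11) C.nil) C.nil))) C.nil))) (C.cons (nat_lit 2180) (C.node (nat_lit 7) (nat_lit 8) (nat_lit 11) (C.cons (nat_lit 2432) (C.node (nat_lit 4) (nat_lit 5) (nat_lit 11) (C.cons (nat_lit 2352) (C.node (nat_lit 2) (nat_lit 8) (nat_lit 11) (C.cons (nat_lit 2372) (C.miq (nat_lit 341969592) (nat_lit 101554620670940971907944193)) (C.cons (nat_lit 2308) (C.node (nat_lit 3) (nat_lit 5) (nat_lit 11) (C.cons (nat_lit 2600) (C.miq (nat_lit 328498000) (nat_lit 957490850887412086293465313)) (C.cons (nat_lit 2088) (C.node (nat_lit 3) (nat_lit 8) (nat_lit 11) (C.cons (nat_lit 2376) (C.miq (nat_lit 927367339) (nat_lit 870470419697076835143651073)) C.nil)) C.nil))) C.nil))) (C.cons (nat_lit 2096) (C.node (nat_lit 4) (nat_lit 8) (nat_lit 11) C.nil) C.nil))) C.nil)) C.nil))) (C.cons (nat_lit 2184) (C.node (nat_lit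 4) (nat_lit 5) (nat_lit 11) (C.cons (nat_lit 2352) (C.node (nat_lit 4) (nat_lit 5) (nat_lit 7) (C.cons (nat_lit 180) (C.miq (nat_lit 2217325936) (nat_lit 645637242280229016040704225)) (C.cons (nat_lit 176) (C.node (nat_lit 2) (nat_lit 4) (nat_lit 7) (C.cons (nat_lit 404) (C.miq (nat_lit 691552519) (nat_lit 957476701769701968883287187)) (C.cons (nat_lit 148) (C.node (nat_lit 4) (nat_lit 7) (nat_lit 8) C.nil) C.nil))) C.nil))) (C.cons (nat_lit 2096) (C.node (nat_lit 4) (nat_lit 8) (nat_lit 11) (C.cons (nat_lit 2320)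
  (C.node (nat_lit 4) (nat_lit 5) (nat_lit 6) (C.cons (nat_lit 122) (C.miq (nat_lit 542218084) (nat_lit 42322254429408504462312144)) (C.cons (nat_lit 120) (C.node (nat_lit 1) (nat_lit 3) (nat_lit 4) C.nil) (C.cons (nat_lit 114) (C.miq (nat_lit 542218084) (nat_lit 42322254429408504461787856)) C.nil)))) C.nil)) C.nil))) C.nil))) C.nil))) C.nil))))) C.nil))) C.nil)))) C.nil)))) C.nil)))) C.nil))) C.nil))))) (C.cons (nat_lit 530) (C.node (nat_lit 2) (nat_lit 4) (nat_lit 9) (C.cons (nat_lit 532) (C.node (nat_lit 3) (nat_lit 7) (nat_lit 11) (C.cons (nat_lit 2696) (C.miq (nat_lit 1731464088) (nat_lit 183762941773980676021292801)) (C.cons (nat_lit 2186) (C.node (nat_lit 7) (nat_lit 9) (nat_lit 11) (C.cons (nat_lit 2688) (C.node (nat_lit 2) (nat_lit 7) (nat_lit 11) (C.cons (nat_lit 2436) (C.node (nat_lit 2) (nat_lit 4) (nat_lit 7) (C.cons (nat_lit 180) (C.miq (nat_lit 2185869136) (nat_lit 643219390664643655729481953)) (C.cons (nat_lit 148) (C.node (nat_lit 6)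 (nat_lit 7) (nat_lit 8) (C.cons (nat_lit 1472) (C.miq (nat_lit 879168424) (nat_lit 870433840277591038103654145)) (C.cons (nat_lit 450) (C.miq (nat_lit 407074315) (nat_lit 957509573843996622507018465)) (C.cons (nat_lit 448) (C.node (nat_lit 1) (nat_lit 7) (nat_lit 9) (C.cons (nat_lit 930) (C.miq (nat_lit 655603856) (nat_lit 2642750156250697508267429633)) (C.cons (nat_lit 898) (C.miq (nat_lit 655603856) (nat_lit 2642750156250697370828476161)) (C.cons (nat_lit 674) (C.miq (nat_lit 831829840) (nat_lit 640768998898501751267199201)) (C.cons (nat_lit 642) (C.node (nat_lit 7) (nat_lit 8) (nat_lit 9) (C.cons (nat_lit 928) (C.miq (nat_lit 1411879096) (nat_lit 178938140039381903061815041)) (C.cons (nat_lit 896) (C.node (nat_lit 4) (nat_lit 8) (nat_lit 11) (C.cons (nat_lit 2354) (C.miq (nat_lit 675904336) (nat_lit 957481147970397002685024481)) (C.cons (nat_lit 2352) (C.miq (nat_lit 675904336) (nat_lit 957481147970396994095089889)) (C.cons (nat_lit 2322) (C.miq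 (nat_lit 1803723792) (nat_lit 2944963459759728333647447187)) (C.cons (nat_lit 2320) (C.node (nat_lit 1) (nat_lit 4) (nat_lit 8) (C.cons (nat_lit 306) (C.node (nat_lit 1) (nat_lit 4) (nat_lit 11) (C.cons (nat_lit 2066) (C.node (nat_lit 4) (nat_lit 5) (nat_lit 7) C.nil) C.nil)) (C.cons (nat_lit 274) (C.node (nat_lit 1) (nat_lit 4) (nat_lit 11) (C.cons (nat_lit 2098) (C.node (nat_lit 1) (nat_lit 2) (nat_lit 4) (C.cons (nat_lit 86) (C.miq (nat_lit 1653293322) (nat_lit 2945001440742764979916178579)) C.nil)) (C.cons (nat_lit 2066) (C.node (nat_lit 4) (nat_lit 5) (nat_lit 11) (C.cons (nat_lit 2096) (C.node (nat_lit 4) (nat_lit 5) (nat_lit 7) C.nil) C.nil)) C.nil))) C.nil))) C.nil))))) C.nil))) C.nil))))) C.nil)))) C.nil))) (C.cons (nat_lit 2180) (C.node (nat_lit 7) (nat_lit 8) (nat_lit 11) (C.cons (nat_lit 2432) (C.node (nat_lit 1) (nat_lit 6) (nat_lit 7) (C.cons (nat_lit 450) (C.miq (nat_lit 407074315) (nat_lit 957509573843996622507018465)) (C.cons (nat_lit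 198) (C.node (nat_lit 6) (nat_lit 7) (nat_lit 8) (C.cons (nat_lit 1472) (C.miq (nat_lit 879168424) (nat_lit 870433840277591038103654145)) (C.cons (nat_lit 448) (C.node (nat_lit 2) (nat_lit 6) (nat_lit 11) (C.cons (nat_lit 2628) (C.miq (nat_lit 1177004944) (nat_lit 239388914308227304285081345)) (C.cons (nat_lit 2372) (C.miq (nat_lit 1176611712) (nat_lit 239388914308226204748418817)) (C.cons (nat_lit 2116) (C.node (nat_lit 6) (nat_lit 8) (nat_lit 11) (C.cons (nat_lit 2376) (C.miq (nat_lit 927367339) (nat_lit 870470419697076835143651073)) (C.cons (nat_lit 2370) (C.miq (nat_lit 2551319399) (nat_lit 317959389789730580239616225)) (C.cons (nat_lit 2368) (C.node (nat_lit 1) (nat_lit 7) (nat_lit 9) (C.cons (nat_lit 930) (C.miq (nat_lit 831829840) (nat_lit 640768998898502850778826977)) (C.cons (nat_lit 898) (C.miq (nat_lit 2843084818) (nat_lit 870446753494954812767600903)) (C.cons (nat_lit 674) (C.miq (nat_lit 831829840) (nat_lit 640768998898501751267199201))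 (C.cons (nat_lit 642) (C.node (nat_lit 7) (nat_lit 8) (nat_lit 9) (C.cons (nat_lit 928)
  (C.miq (nat_lit 1498118192) (nat_lit 3114234841037776475991638409)) (C.cons (nat_lit 896) (C.node (nat_lit 1) (nat_lit 2) (nat_lit 4) (C.cons (nat_lit 54) (C.node (nat_lit 2) (nat_lit 4) (nat_lit 6) (C.cons (nat_lit 84) (C.node (nat_lit 1) (nat_lit 2) (nat_lit 3) (C.cons (nat_lit 1038) (C.miq (nat_lit 1729760050) (nat_lit 1415672297699805339050706973)) (C.cons (nat_lit 14) (C.node (nat_lit 1) (nat_lit 4) (nat_lit 8) (C.cons (nat_lit 2322) (C.miq (nat_lit 1678945152) (nat_lit 65302157437681639497338625)) (C.cons (nat_lit 274) (C.node (nat_lit 1) (nat_lit 4) (nat_lit 11) (C.cons (nat_lit 2066) (C.node (nat_lit 1) (nat_lit 6) (nat_lit 11) C.nil) C.nil)) C.nil))) C.nil))) C.nil)) (C.cons (nat_lit 22) (C.node (nat_lit 1) (nat_lit 5) (nat_lit 7) (C.cons (nat_lit 418) (C.node (nat_lit 1) (nat_lit 4) (nat_lit 8) (C.cons (nat_lit 2322) (C.miq (nat_lit 1678945152) (nat_lit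 26616531210013505906740993)) (C.cons (nat_lit 274) (C.node (nat_lit 1) (nat_lit 8) (nat_lit 11) (C.cons (nat_lit 2306) (C.node (nat_lit 4) (nat_lit 5) (nat_lit 7) (C.cons (nat_lit 180) (C.node (nat_lit 2) (nat_lit 4) (nat_lit 6) C.nil) C.nil)) C.nil)) C.nil))) (C.cons (nat_lit 162) (C.node (nat_lit 1) (nat_lit 7) (nat_lit 8) (C.cons (nat_lit 386) (C.node (nat_lit 3) (nat_lit 6) (nat_lit 7) (C.cons (nat_lit 200) (C.node (nat_lit 6) (nat_lit 7) (nat_lit 10) C.nil) C.nil)) C.nil)) C.nil))) C.nil))) C.nil))) C.nil))))) C.nil)))) C.nil)))) C.nil))) (C.cons (nat_lit 194) (C.node (nat_lit 1) (nat_lit 2) (nat_lit 7) (C.cons (nat_lit 166) (C.node (nat_lit 3) (nat_lit 5) (nat_lit 7) (C.cons (nat_lit 680) (C.miq (nat_lit 1687488567) (nat_lit 678249314347946977631142281)) (C.cons (nat_lit 168) (C.node (nat_lit 1) (nat_lit 2) (nat_lit 4) (C.cons (nat_lit 86) (C.node (nat_lit 1) (nat_lit 2) (nat_lit 3) (C.cons (nat_lit 1038) (C.miq (nat_lit 1729760050) (nat_lit 1415672297699805339050706973))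 (C.cons (nat_lit 14) (C.node (nat_lit 2) (nat_lit 6) (nat_lit 11) (C.cons (nat_lit 2628) (C.miq (nat_lit 1952582329) (nat_lit 103979518966406387322851073)) (C.cons (nat_lit 2372) (C.node (nat_lit 3) (nat_lit 4) (nat_lit 6) (C.cons (nat_lit 120) (C.miq (nat_lit 918045961) (nat_lit 2867586653980993540285596209)) (C.cons (nat_lit 88) (C.node (nat_lit 4) (nat_lit 5) (nat_lit 6) (C.cons (nat_lit 112) (C.node (nat_lit 3) (nat_lit 6) (nat_lit 11) (C.cons (nat_lit 2632) (C.miq (nat_lit 908172160) (nat_lit 103977268874860985502338817)) (C.cons (nat_lit 2120) (C.node (nat_lit 3) (nat_lit 9) (nat_lit 11) (C.cons (nat_lit 2600) (C.miq (nat_lit 1397143936) (nat_lit 106427402307205250268860161)) (C.cons (nat_lit 2568) (C.node (nat_lit 4) (nat_lit 5) (nat_lit 11) (C.cons (nat_lit 2354) (C.miq (nat_lit 2551319383) (nat_lit 317959389789730511518042337)) (C.cons (nat_lit 2352) (C.miq (nat_lit 347605602) (nat_lit 2843398379556919940141548613)) (C.cons (nat_lit 2098) (C.miq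 (nat_lit 2169184422) (nat_lit 2536370125302467796078167109)) C.nil)))) C.nil))) C.nil))) C.nil)) C.nil))) (C.cons (nat_lit 2116) (C.miq (nat_lit 2338458177) (nat_lit 2558091886879405642578527379)) C.nil)))) C.nil))) (C.cons (nat_lit 22) (C.node (nat_lit 2) (nat_lit 8) (nat_lit 11) (C.cons (nat_lit 2372) (C.miq (nat_lit 1645525002) (nat_lit 26654512836501948761050881)) (C.cons (nat_lit 2340) (C.miq (nat_lit 2820737879) (nat_lit 317969092777113222612650209)) (C.cons (nat_lit 2308) (C.node (nat_lit 1) (nat_lit 7) (nat_lit 8) (C.cons (nat_lit 898) (C.node (nat_lit 2) (nat_lit 4) (nat_lit 7) (C.cons (nat_lit 404) (C.miq (nat_lit 680740624) (nat_lit 957507563135947148612011155)) (C.cons (nat_lit 148) (C.node (nat_lit 4) (nat_lit 5) (nat_lit 7) (C.cons (nat_lit 432) (C.node (nat_lit 1) (nat_lit 4) (nat_lit 8) (C.cons (nat_lit 2322) (C.miq (nat_lit 1678945152) (nat_lit 26616531210013505906740993)) C.nil)) C.nil)) C.nil))) (C.cons (nat_lit 386) (C.node (nat_lit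 1) (nat_lit 7) (nat_lit 9) (C.cons (nat_lit 642) (C.node (nat_lit 7) (nat_lit 8) (nat_lit 9) (C.cons (nat_lit 928) (C.miq (nat_lit 1498118192) (nat_lit 3114234841037776475991638409))
  (C.cons (nat_lit 896) (C.node (nat_lit 2) (nat_lit 4) (nat_lit 7) (C.cons (nat_lit 148) (C.node (nat_lit 3) (nat_lit 7) (nat_lit 9) C.nil) C.nil)) C.nil))) C.nil)) C.nil))) C.nil)))) C.nil))) C.nil))) (C.cons (nat_lit 134) (C.node (nat_lit 3) (nat_lit 5) (nat_lit 7) (C.cons (nat_lit 680) (C.miq (nat_lit 1687488567) (nat_lit 678249314347946977631142281)) (C.cons (nat_lit 172) (C.node (nat_lit 3) (nat_lit 5) (nat_lit 9) (C.cons (nat_lit 2600) (C.miq (nat_lit 328498000) (nat_lit 957490850887412086293465313)) (C.cons (nat_lit 616) (C.miq (nat_lit 2761099109) (nat_lit 957488895246835097184766177)) (C.cons (nat_lit 552) (C.node (nat_lit 3) (nat_lit 5) (nat_lit 11) (C.cons (nat_lit 2344) (C.miq (nat_lit 696479925) (nat_lit 957472422156334841511545057)) (C.cons (nat_lit 2088)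 (C.node (nat_lit 3) (nat_lit 6) (nat_lit 7) (C.cons (nat_lit 1224) (C.miq (nat_lit 1767076874) (nat_lit 667349631444685917707109523)) (C.cons (nat_lit 200) (C.node (nat_lit 3) (nat_lit 8) (nat_lit 11) (C.cons (nat_lit 2376) (C.miq (nat_lit 1178053504) (nat_lit 241806765947455480286220033)) (C.cons (nat_lit 2312) (C.node (nat_lit 6) (nat_lit 7) (nat_lit 10) (C.cons (nat_lit 1472) (C.miq (nat_lit 1181989504) (nat_lit 241823478697582378489548545)) (C.cons (nat_lit 1216) (C.node (nat_lit 5) (nat_lit 7) (nat_lit 10) (C.cons (nat_lit 1696) (C.miq (nat_lit 2772145952) (nat_lit 2524307965776715134546018949)) (C.cons (nat_lit 1440) (C.miq (nat_lit 2267784496) (nat_lit 2635529141109203424581059625)) (C.cons (nat_lit 1184) (C.node (nat_lit 2) (nat_lit 4) (nat_lit 7) (C.cons (nat_lit 148) (C.node (nat_lit 2) (nat_lit 6) (nat_lit 7) C.nil) C.nil)) C.nil)))) C.nil))) C.nil))) C.nil))) C.nil))) C.nil)))) (C.cons (nat_lit 168) (C.node (nat_lit 3) (nat_lit 7) (nat_lit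 9) (C.cons (nat_lit 1672) (C.node (nat_lit 6) (nat_lit 7) (nat_lit 10) (C.cons (nat_lit 1472) (C.miq (nat_lit 879168424) (nat_lit 870433840277591038103654145)) (C.cons (nat_lit 1216) (C.node (nat_lit 5) (nat_lit 7) (nat_lit 9) (C.cons (nat_lit 930) (C.miq (nat_lit 831829840) (nat_lit 640768998898502850778826977)) (C.cons (nat_lit 928) (C.miq (nat_lit 1498118192) (nat_lit 3114234841037776475991638409)) (C.cons (nat_lit 674) (C.miq (nat_lit 831829840) (nat_lit 640768998898501751267199201)) (C.cons (nat_lit 672) (C.node (nat_lit 1) (nat_lit 5) (nat_lit 7) (C.cons (nat_lit 162) (C.node (nat_lit 1) (nat_lit 7) (nat_lit 8) C.nil) C.nil)) C.nil))))) C.nil))) (C.cons (nat_lit 648) (C.node (nat_lit 7) (nat_lit 9) (nat_lit 10) (C.cons (nat_lit 1696) (C.node (nat_lit 3) (nat_lit 7) (nat_lit 10) (C.cons (nat_lit 1224) (C.miq (nat_lit 910206869) (nat_lit 407427647337096996455515808)) (C.cons (nat_lit 1164) (C.miq (nat_lit 1513396000) (nat_lit 1266964608056943286129853061))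 (C.cons (nat_lit 1160) (C.node (nat_lit 1) (nat_lit 5) (nat_lit 7) (C.cons (nat_lit 162) (C.node (nat_lit 1) (nat_lit 7) (nat_lit 8) C.nil) C.nil)) C.nil)))) (C.cons (nat_lit 1664) (C.node (nat_lit 5) (nat_lit 7) (nat_lit 9) (C.cons (nat_lit 930) (C.miq (nat_lit 831829840) (nat_lit 640768998898502850778826977)) (C.cons (nat_lit 928) (C.miq (nat_lit 1498118192) (nat_lit 3114234841037776475991638409)) (C.cons (nat_lit 674) (C.miq (nat_lit 831829840) (nat_lit 640768998898501751267199201)) (C.cons (nat_lit 672) (C.node (nat_lit 1) (nat_lit 5) (nat_lit 7) (C.cons (nat_lit 418) (C.node (nat_lit 1) (nat_lit 7) (nat_lit 9) C.nil) C.nil)) C.nil))))) C.nil))) C.nil))) C.nil)))) C.nil))) C.nil)))) C.nil)) C.nil))) C.nil)) (C.cons (nat_lit 2184) (C.node (nat_lit 7) (nat_lit 9) (nat_lit 11) (C.cons (nat_lit 2690) (C.node (nat_lit 7) (nat_lit 8) (nat_lit 9) (C.cons (nat_lit 928) (C.miq (nat_lit 1498118192) (nat_lit 3114234841037776475991638409)) (C.cons (nat_lit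 896) (C.node (nat_lit 2) (nat_lit 7) (nat_lit 11) (C.cons (nat_lit 2436) (C.node (nat_lit 2) (nat_lit 4) (nat_lit 7) (C.cons (nat_lit 180) (C.miq (nat_lit 2185869136) (nat_lit 643219390664643655729481953)) (C.cons (nat_lit 148) (C.node (nat_lit 4) (nat_lit 8) (nat_lit 11) (C.cons (nat_lit 2354)
  (C.miq (nat_lit 675904336) (nat_lit 957481147970397002685024481)) (C.cons (nat_lit 2352) (C.miq (nat_lit 675904336) (nat_lit 957481147970396994095089889)) (C.cons (nat_lit 2322) (C.miq (nat_lit 1803723792) (nat_lit 2944963459759728333647447187)) (C.cons (nat_lit 2320) (C.node (nat_lit 1) (nat_lit 4) (nat_lit 8) (C.cons (nat_lit 306) (C.node (nat_lit 1) (nat_lit 4) (nat_lit 11) (C.cons (nat_lit 2066) (C.node (nat_lit 4) (nat_lit 5) (nat_lit 7) C.nil) C.nil)) (C.cons (nat_lit 274) (C.node (nat_lit 1) (nat_lit 4) (nat_lit 11) (C.cons (nat_lit 2098) (C.node (nat_lit 1) (nat_lit 2) (nat_lit 4) (C.cons (nat_lit 86) (C.miq (nat_lit 1653293322) (nat_lit 2945001440742764979916178579))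 C.nil)) (C.cons (nat_lit 2066) (C.node (nat_lit 4) (nat_lit 5) (nat_lit 11) (C.cons (nat_lit 2096) (C.node (nat_lit 4) (nat_lit 5) (nat_lit 7) C.nil) C.nil)) C.nil))) C.nil))) C.nil))))) C.nil))) (C.cons (nat_lit 2180) (C.node (nat_lit 7) (nat_lit 8) (nat_lit 11) (C.cons (nat_lit 2432) (C.node (nat_lit 2) (nat_lit 9) (nat_lit 11) (C.cons (nat_lit 2628) (C.miq (nat_lit 658935979) (nat_lit 870475068347515104081743617)) (C.cons (nat_lit 2596) (C.node (nat_lit 2) (nat_lit 8) (nat_lit 9) (C.cons (nat_lit 836) (C.miq (nat_lit 342362002) (nat_lit 407412853033431707647476357)) (C.cons (nat_lit 772) (C.node (nat_lit 2) (nat_lit 8) (nat_lit 11) (C.cons (nat_lit 2372) (C.miq (nat_lit 2190764880) (nat_lit 643154753255405355592124641)) (C.cons (nat_lit 2308) (C.node (nat_lit 2) (nat_lit 10) (nat_lit 11) (C.cons (nat_lit 3078) (C.miq (nat_lit 1797802512) (nat_lit 2790207009110539321859310739)) (C.cons (nat_lit 3076) (C.node (nat_lit 1) (nat_lit 10) (nat_lit 11) (C.cons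 (nat_lit 3106) (C.miq (nat_lit 1376434545) (nat_lit 1321413217156594439692683906)) (C.cons (nat_lit 3074) (C.node (nat_lit 5) (nat_lit 10) (nat_lit 11) (C.cons (nat_lit 3104) (C.node (nat_lit 1) (nat_lit 4) (nat_lit 11) (C.cons (nat_lit 2354) (C.miq (nat_lit 1500623364) (nat_lit 3252053879129613802115631133)) (C.cons (nat_lit 2322) (C.miq (nat_lit 1803723792) (nat_lit 2790220954849055799285056659)) (C.cons (nat_lit 2098) (C.miq (nat_lit 1500623364) (nat_lit 3252049156763130932470417437)) C.nil)))) C.nil)) C.nil))) C.nil))) C.nil))) C.nil))) (C.cons (nat_lit 2564) (C.node (nat_lit 5) (nat_lit 9) (nat_lit 11) (C.cons (nat_lit 2600) (C.miq (nat_lit 2710767541) (nat_lit 632287849770508310404401377)) (C.cons (nat_lit 2592) (C.node (nat_lit 3) (nat_lit 9) (nat_lit 11) (C.cons (nat_lit 2632) (C.node (nat_lit 6) (nat_lit 7) (nat_lit 10) (C.cons (nat_lit 1472) (C.miq (nat_lit 879168424) (nat_lit 870433840277591038103654145)) (C.cons (nat_lit 1224) (C.miq (nat_lit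 1399392884) (nat_lit 3181903106148905446169117843)) (C.cons (nat_lit 1216) (C.node (nat_lit 1) (nat_lit 3) (nat_lit 4) (C.cons (nat_lit 122) (C.miq (nat_lit 2204865616) (nat_lit 3181963611392619811904225841)) (C.cons (nat_lit 90) (C.node (nat_lit 3) (nat_lit 4) (nat_lit 5) (C.cons (nat_lit 56) (C.node (nat_lit 6) (nat_lit 8) (nat_lit 9) (C.cons (nat_lit 868) (C.miq (nat_lit 342362002) (nat_lit 407412853033431707649573509)) (C.cons (nat_lit 866) (C.miq (nat_lit 593562520) (nat_lit 108808175843642842374344449)) (C.cons (nat_lit 864) (C.miq (nat_lit 2209780741) (nat_lit 3181908695435520775230128689)) (C.cons (nat_lit 836) (C.miq (nat_lit 342362002) (nat_lit 407412853033431707647476357)) (C.cons (nat_lit 834) (C.miq (nat_lit 593562520) (nat_lit 108808175843642842372247297)) (C.cons (nat_lit 832) (C.node (nat_lit 1) (nat_lit 2) (nat_lit 4) (C.cons (nat_lit 54) (C.node (nat_lit 1) (nat_lit 4) (nat_lit 11) (C.cons (nat_lit 2322) (C.miq (nat_lit 1678945152)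 (nat_lit 65302157437681639497338625)) C.nil)) (C.cons (nat_lit 22) (C.node (nat_lit 2) (nat_lit 4) (nat_lit 6) (C.cons (nat_lit 116) (C.node (nat_lit 2) (nat_lit 4) (nat_lit 10) (C.cons (nat_lit 1300) (C.miq (nat_lit 2152901476) (nat_lit 44754237174192249895128144)) C.nil)) C.nil)) C.nil))) C.nil))))))) C.nil)) (C.cons (nat_lit 58) (C.miq (nat_lit 1662302474) (nat_lit 70175842415813209686740737))
  (C.cons (nat_lit 26) (C.miq (nat_lit 1662302474) (nat_lit 31490216188145076096143105)) C.nil))))) C.nil)))) (C.cons (nat_lit 2568) (C.node (nat_lit 6) (nat_lit 9) (nat_lit 11) C.nil) C.nil))) C.nil))) C.nil)))) C.nil)) C.nil))) C.nil))) (C.cons (nat_lit 2688) (C.node (nat_lit 3) (nat_lit 7) (nat_lit 9) (C.cons (nat_lit 1672) (C.node (nat_lit 6) (nat_lit 7) (nat_lit 10) (C.cons (nat_lit 1472) (C.miq (nat_lit 879168424) (nat_lit 870433840277591038103654145)) (C.cons (nat_lit 1216) (C.ref (nat_lit 275) (nat_lit 205163983024656)) C.nil))) (C.cons (nat_lit 680)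 (C.miq (nat_lit 1687488567) (nat_lit 678249314347946977631142281)) (C.cons (nat_lit 648) (C.node (nat_lit 7) (nat_lit 9) (nat_lit 10) (C.cons (nat_lit 1696) (C.node (nat_lit 3) (nat_lit 7) (nat_lit 10) (C.cons (nat_lit 1224) (C.miq (nat_lit 910206869) (nat_lit 407427647337096996455515808)) (C.cons (nat_lit 1164) (C.miq (nat_lit 1513396000) (nat_lit 1266964608056943286129853061)) (C.cons (nat_lit 1160) (C.node (nat_lit 6) (nat_lit 7) (nat_lit 10) (C.cons (nat_lit 1472) (C.miq (nat_lit 1466210944) (nat_lit 870436939223346239562125057)) (C.cons (nat_lit 1216) (C.node (nat_lit 3) (nat_lit 5) (nat_lit 9) (C.cons (nat_lit 2600) (C.miq (nat_lit 1464048139) (nat_lit 183804686593401869433638657)) (C.cons (nat_lit 620) (C.miq (nat_lit 2761099109) (nat_lit 957488895246835097185028321)) (C.cons (nat_lit 616) (C.miq (nat_lit 2761099109) (nat_lit 957488895246835097184766177)) (C.cons (nat_lit 556) (C.miq (nat_lit 1246955410) (nat_lit 1287544312106635647829934725))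 (C.cons (nat_lit 552) (C.node (nat_lit 1) (nat_lit 7) (nat_lit 9) (C.cons (nat_lit 898) (C.node (nat_lit 7) (nat_lit 8) (nat_lit 11) (C.cons (nat_lit 2436) (C.miq (nat_lit 3079874576) (nat_lit 783422245683397700130373895)) (C.cons (nat_lit 2432) (C.node (nat_lit 1) (nat_lit 5) (nat_lit 7) (C.cons (nat_lit 174) (C.miq (nat_lit 3126004082) (nat_lit 1287544312858173835622351493)) (C.cons (nat_lit 170) (C.miq (nat_lit 363426568) (nat_lit 2050354755290444591911731593)) (C.cons (nat_lit 166) (C.miq (nat_lit 547690647) (nat_lit 1287509060123140722803082114)) (C.cons (nat_lit 162) (C.node (nat_lit 3) (nat_lit 5) (nat_lit 7) (C.cons (nat_lit 172) (C.miq (nat_lit 3126004082) (nat_lit 1287544312858173835622220421)) (C.cons (nat_lit 168) (C.node (nat_lit 1) (nat_lit 7) (nat_lit 11) (C.cons (nat_lit 2178) (C.node (nat_lit 2) (nat_lit 7) (nat_lit 11) C.nil) C.nil)) C.nil))) C.nil))))) C.nil))) (C.cons (nat_lit 642) (C.node (nat_lit 7) (nat_lit 8) (nat_lit 9) (C.cons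 (nat_lit 896) (C.node (nat_lit 2) (nat_lit 7) (nat_lit 10) (C.cons (nat_lit 1412) (C.node (nat_lit 2) (nat_lit 4) (nat_lit 7) C.nil) (C.cons (nat_lit 1156) (C.node (nat_lit 7) (nat_lit 8) (nat_lit 10) C.nil) C.nil))) C.nil)) C.nil))) C.nil)))))) C.nil))) C.nil)))) (C.cons (nat_lit 1664) (C.node (nat_lit 3) (nat_lit 9) (nat_lit 10) (C.cons (nat_lit 1608) (C.node (nat_lit 6) (nat_lit 7) (nat_lit 10) (C.cons (nat_lit 1472) (C.miq (nat_lit 879168424) (nat_lit 870433840277591038103654145)) (C.cons (nat_lit 1216) (C.node (nat_lit 2) (nat_lit 3) (nat_lit 9) (C.cons (nat_lit 556) (C.node (nat_lit 3) (nat_lit 9) (nat_lit 11) (C.cons (nat_lit 2568) (C.node (nat_lit 2) (nat_lit 8) (nat_lit 9) (C.cons (nat_lit 836) (C.miq (nat_lit 342362002) (nat_lit 407412853033431707647476357)) (C.cons (nat_lit 772) (C.node (nat_lit 5) (nat_lit 9) (nat_lit 10) (C.cons (nat_lit 1570) (C.miq (nat_lit 421831984) (nat_lit 643170137614211136402293801)) C.nil)) C.nil))) C.nil)) (C.cons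 (nat_lit 524) (C.node (nat_lit 3) (nat_lit 5) (nat_lit 9) (C.cons (nat_lit 2600) (C.node (nat_lit 3) (nat_lit 6) (nat_lit 11) (C.cons (nat_lit 2378) (C.miq (nat_lit 927367339) (nat_lit 870470456590564982562754305)) (C.cons (nat_lit 2376) (C.miq (nat_lit 927367339) (nat_lit 870470419697076835143651073)) (C.cons (nat_lit 2122) (C.miq (nat_lit 2259894361) (nat_lit 2565355199138416316473934385)) (C.cons (nat_lit 2120) (C.miq (nat_lit 2259894361) (nat_lit 2562937347499187058124522033)) C.nil))))) (C.cons (nat_lit 552)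
  (C.node (nat_lit 3) (nat_lit 9) (nat_lit 11) (C.cons (nat_lit 2568) (C.node (nat_lit 1) (nat_lit 7) (nat_lit 9) C.nil) C.nil)) C.nil))) C.nil))) C.nil))) (C.cons (nat_lit 1548) (C.miq (nat_lit 1647577752) (nat_lit 2510945144199996434189651713)) (C.cons (nat_lit 1544) (C.node (nat_lit 6) (nat_lit 7) (nat_lit 10) (C.cons (nat_lit 1472) (C.miq (nat_lit 879168424) (nat_lit 870433840277591038103654145)) (C.cons (nat_lit 1224) (C.node (nat_lit 3) (nat_lit 5) (nat_lit 9) (C.cons (nat_lit 2600) (C.miq (nat_lit 1767076874) (nat_lit 3143229710015446467505357971)) (C.cons (nat_lit 620) (C.miq (nat_lit 2744415824) (nat_lit 957490850616624654662568161)) (C.cons (nat_lit 616) (C.miq (nat_lit 2744415824) (nat_lit 957490850616624637482698977)) (C.cons (nat_lit 556) (C.miq (nat_lit 1767076874) (nat_lit 672185334723144434405934227)) (C.cons (nat_lit 552) (C.miq (nat_lit 1767076874) (nat_lit 667349631444685917707109523)) C.nil)))))) (C.cons (nat_lit 1216) (C.node (nat_lit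 3) (nat_lit 7) (nat_lit 10) (C.cons (nat_lit 1164) (C.node (nat_lit 3) (nat_lit 5) (nat_lit 7) (C.cons (nat_lit 170) (C.node (nat_lit 3) (nat_lit 6) (nat_lit 7) (C.cons (nat_lit 200) (C.node (nat_lit 5) (nat_lit 7) (nat_lit 9) (C.cons (nat_lit 928) (C.miq (nat_lit 1498118192) (nat_lit 3114234841037776475991638409)) (C.cons (nat_lit 672) (C.node (nat_lit 1) (nat_lit 7) (nat_lit 9) C.nil) C.nil))) C.nil)) (C.cons (nat_lit 168) (C.node (nat_lit 1) (nat_lit 3) (nat_lit 7) (C.cons (nat_lit 202) (C.node (nat_lit 1) (nat_lit 3) (nat_lit 10) (C.cons (nat_lit 1290) (C.miq (nat_lit 381302536) (nat_lit 3810557979782033952003391881)) (C.cons (nat_lit 1034) (C.node (nat_lit 3) (nat_lit 6) (nat_lit 11) (C.cons (nat_lit 2632) (C.miq (nat_lit 1177660304) (nat_lit 244224617586685838155779841)) (C.cons (nat_lit 2376) (C.miq (nat_lit 1178053504) (nat_lit 244224617586684738635632385)) (C.cons (nat_lit 2120) (C.node (nat_lit 3) (nat_lit 4) (nat_lit 6) (C.cons (nat_lit 120)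 (C.miq (nat_lit 2204865616) (nat_lit 2562993591749929665864729137)) (C.cons (nat_lit 88) (C.node (nat_lit 1) (nat_lit 2) (nat_lit 3) C.nil) C.nil))) C.nil)))) C.nil))) (C.cons (nat_lit 138) (C.node (nat_lit 3) (nat_lit 6) (nat_lit 7) (C.cons (nat_lit 200) (C.node (nat_lit 5) (nat_lit 7) (nat_lit 9) (C.cons (nat_lit 930) (C.miq (nat_lit 1498118192) (nat_lit 3114234841038339425945059721)) (C.cons (nat_lit 928) (C.miq (nat_lit 1498118192) (nat_lit 3114234841037776475991638409)) (C.cons (nat_lit 674) (C.node (nat_lit 7) (nat_lit 8) (nat_lit 9) C.nil) C.nil)))) C.nil)) C.nil))) C.nil))) (C.cons (nat_lit 1160) (C.node (nat_lit 2) (nat_lit 8) (nat_lit 9) (C.cons (nat_lit 868) (C.miq (nat_lit 342362002) (nat_lit 407412853033431707649573509)) (C.cons (nat_lit 836) (C.miq (nat_lit 342362002) (nat_lit 407412853033431707647476357)) (C.cons (nat_lit 804) (C.node (nat_lit 3) (nat_lit 5) (nat_lit 9) (C.cons (nat_lit 2600) (C.miq (nat_lit 1704463156) (nat_lit 971982576162718485612857373))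 (C.cons (nat_lit 616) (C.miq (nat_lit 1228568144) (nat_lit 1866603066824962388632602849)) (C.cons (nat_lit 552) (C.node (nat_lit 2) (nat_lit 3) (nat_lit 9) (C.cons (nat_lit 588) (C.node (nat_lit 3) (nat_lit 9) (nat_lit 11) C.nil) (C.cons (nat_lit 524) (C.node (nat_lit 2) (nat_lit 9) (nat_lit 10) C.nil) C.nil))) C.nil)))) (C.cons (nat_lit 772) (C.node (nat_lit 5) (nat_lit 7) (nat_lit 9) (C.cons (nat_lit 930) (C.miq (nat_lit 1498118192) (nat_lit 3114234841038339425945059721)) (C.cons (nat_lit 928) (C.miq (nat_lit 1498118192) (nat_lit 3114234841037776475991638409)) (C.cons (nat_lit 674) (C.node (nat_lit 7) (nat_lit 8) (nat_lit 9) (C.cons (nat_lit 896) (C.node (nat_lit 1) (nat_lit 8) (nat_lit 9) C.nil) C.nil)) (C.cons (nat_lit 672) (C.node (nat_lit 1) (nat_lit 7) (nat_lit 9) (C.cons (nat_lit 898) (C.node (nat_lit 5) (nat_lit 8) (nat_lit 9) C.nil) (C.cons (nat_lit 642) (C.node (nat_lit 7) (nat_lit 8) (nat_lit 9) C.nil) C.nil))) C.nil))))) C.nil))))) C.nil)))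 C.nil)))) C.nil)))) C.nil))) C.nil)))) C.nil))) C.nil)))) C.nil)) C.nil))) (C.cons (nat_lit 536)
  (C.node (nat_lit 6) (nat_lit 7) (nat_lit 10) (C.cons (nat_lit 1472) (C.miq (nat_lit 879168424) (nat_lit 870433840277591038103654145)) (C.cons (nat_lit 1224) (C.node (nat_lit 3) (nat_lit 6) (nat_lit 9) (C.cons (nat_lit 2632) (C.miq (nat_lit 1399392884) (nat_lit 3181903106148905446169117843)) (C.cons (nat_lit 876) (C.miq (nat_lit 2744415824) (nat_lit 648005840795280685449414881)) (C.cons (nat_lit 872) (C.miq (nat_lit 2744415824) (nat_lit 648005840795280668269545697)) (C.cons (nat_lit 844) (C.miq (nat_lit 1399392884) (nat_lit 1020343740677948481794475155)) (C.cons (nat_lit 840) (C.miq (nat_lit 1399392884) (nat_lit 1015508037399489965095650451)) (C.cons (nat_lit 620) (C.miq (nat_lit 2744415824) (nat_lit 648005840795279585937787105)) (C.cons (nat_lit 616) (C.miq (nat_lit 2744415824) (nat_lit 648005840795279568757917921)) (C.cons (nat_lit 588) (C.miq (nat_lit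 1399392884) (nat_lit 710858730856603413069694099)) (C.cons (nat_lit 584) (C.miq (nat_lit 1399392884) (nat_lit 706023027578144896370869395)) C.nil)))))))))) (C.cons (nat_lit 1216) (C.ref (nat_lit 276) (nat_lit 205163983024656)) C.nil)))) C.nil))) List.nil)

theorem ok12_277 : okL par12 (nat_lit 278) c12_277 (nat_lit 277) = true := by decide +kernel

noncomputable def c12_278 : List C :=
  (List.cons (C.node (nat_lit 2) (nat_lit 6) (nat_lit 11) (C.cons (nat_lit 2628) (C.miq (nat_lit 658935979) (nat_lit 251505048704824966632181505)) (C.cons (nat_lit 2372) (C.miq (nat_lit 1093142454) (nat_lit 317953707441016882568890593)) (C.cons (nat_lit 2116) (C.node (nat_lit 1) (nat_lit 10) (nat_lit 11) (C.cons (nat_lit 3106) (C.node (nat_lit 2) (nat_lit 10) (nat_lit 11) (C.cons (nat_lit 3076) (C.node (nat_lit 1) (nat_lit 4) (nat_lit 11) (C.cons (nat_lit 2322) (C.miq (nat_lit 2188054692) (nat_lit 2558129867718327100737848467)) (C.cons (nat_lit 2066) (C.node (nat_lit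 2) (nat_lit 9) (nat_lit 11) (C.cons (nat_lit 2596) (C.miq (nat_lit 1383184650) (nat_lit 2637933434716925610947710721)) (C.cons (nat_lit 2564) (C.node (nat_lit 1) (nat_lit 2) (nat_lit 10) (C.cons (nat_lit 1542) (C.miq (nat_lit 1361558160) (nat_lit 2637918068722668301564841729)) (C.cons (nat_lit 1038) (C.miq (nat_lit 1906684464) (nat_lit 3754965525786500615876708381)) (C.cons (nat_lit 1030) (C.node (nat_lit 1) (nat_lit 8) (nat_lit 10) (C.cons (nat_lit 1354) (C.miq (nat_lit 2192969802) (nat_lit 2558112011270067976139703443)) (C.cons (nat_lit 1346) (C.miq (nat_lit 2192969802) (nat_lit 2558111863696115386463290515)) (C.cons (nat_lit 1290) (C.miq (nat_lit 2276536410) (nat_lit 2637899934809605373041968169)) (C.cons (nat_lit 1282) (C.node (nat_lit 1) (nat_lit 3) (nat_lit 10) (C.cons (nat_lit 1098) (C.node (nat_lit 1) (nat_lit 9) (nat_lit 10) (C.cons (nat_lit 1538) (C.node (nat_lit 1) (nat_lit 3) (nat_lit 7) (C.cons (nat_lit 170) (C.miq (nat_lit 2316503895)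 (nat_lit 1327407800588442527406360801)) (C.cons (nat_lit 138) (C.node (nat_lit 3) (nat_lit 6) (nat_lit 11) (C.cons (nat_lit 2632) (C.miq (nat_lit 1177660304) (nat_lit 1327422151961393578692513537)) (C.cons (nat_lit 2376) (C.miq (nat_lit 927367339) (nat_lit 251500400054386697694088961)) (C.cons (nat_lit 2120) (C.node (nat_lit 1) (nat_lit 4) (nat_lit 6) (C.cons (nat_lit 598) (C.miq (nat_lit 2321615682) (nat_lit 1327405402511713142761195549)) (C.cons (nat_lit 594) (C.miq (nat_lit 1416235283) (nat_lit 3810553829365659672563548683)) (C.cons (nat_lit 118) (C.miq (nat_lit 2316569430) (nat_lit 1415658352402642329421613281)) (C.cons (nat_lit 114) (C.miq (nat_lit 2316569430) (nat_lit 1415658352402642329421351137)) (C.cons (nat_lit 86) (C.miq (nat_lit 2321615682) (nat_lit 1327405402511713142727641117)) (C.cons (nat_lit 82) (C.node (nat_lit 1) (nat_lit 2) (nat_lit 3) (C.cons (nat_lit 46) (C.node (nat_lit 1) (nat_lit 2) (nat_lit 4) (C.cons (nat_lit 534) (C.miq (nat_lit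 1529415444) (nat_lit 3099696150755136548722050195)) C.nil)) (C.cons (nat_lit 14) (C.node (nat_lit 1) (nat_lit 3) (nat_lit 11) C.nil) C.nil))) C.nil))))))) C.nil)))) C.nil))) C.nil)) (C.cons (nat_lit 1034) (C.node (nat_lit 1) (nat_lit 6) (nat_lit 10) (C.cons (nat_lit 1602) (C.node (nat_lit 1) (nat_lit 9) (nat_lit 11) (C.cons (nat_lit 2562) (C.node (nat_lit 3) (nat_lit 7) (nat_lit 11) (C.cons (nat_lit 2696) (C.miq (nat_lit 1765515524) (nat_lit 3259322154269285746609030291)) (C.cons (nat_lit 2184) (C.node (nat_lit 7) (nat_lit 9) (nat_lit 11) C.nil) C.nil))) C.nil)) (C.cons (nat_lit 1090) (C.node (nat_lit 1) (nat_lit 9) (nat_lit 10) (C.cons (nat_lit 1538) (C.node (nat_lit 1) (nat_lit 9) (nat_lit 11) (C.cons (nat_lit 2626) (C.node (nat_lit 3) (nat_lit 6) (nat_lit 11) (C.cons (nat_lit 2376) (C.miq (nat_lit 927367339) (nat_lit 251500400054386697694088961)) (C.cons (nat_lit 2120) (C.node (nat_lit 2) (nat_lit 9) (nat_lit 10) C.nil) C.nil))) (C.cons (nat_lit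 2562) (C.node (nat_lit 2) (nat_lit 9) (nat_lit 10) C.nil) C.nil))) C.nil)) C.nil))) C.nil))) C.nil))))) C.nil)))) C.nil))) C.nil))) C.nil)) (C.cons (nat_lit 3074) (C.node (nat_lit 2) (nat_lit 8) (nat_lit 11) (C.cons (nat_lit 2340) (C.node (nat_lit 2) (nat_lit 9) (nat_lit 11) (C.cons (nat_lit 2564) (C.node (nat_lit 2) (nat_lit 10) (nat_lit 11) (C.cons (nat_lit 3076) (C.node (nat_lit 5) (nat_lit 10) (nat_lit 11) (C.cons (nat_lit 3104) (C.node (nat_lit 4) (nat_lit 5) (nat_lit 11) (C.cons (nat_lit 2098)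
  (C.miq (nat_lit 2461337364) (nat_lit 2828896766703218351605417107)) (C.cons (nat_lit 2096) (C.node (nat_lit 1) (nat_lit 4) (nat_lit 11) (C.cons (nat_lit 2322) (C.miq (nat_lit 1803723792) (nat_lit 2828906581076723932875654291)) C.nil)) C.nil))) C.nil)) C.nil)) C.nil)) (C.cons (nat_lit 2308) (C.node (nat_lit 2) (nat_lit 9) (nat_lit 11) (C.cons (nat_lit 2596) (C.node (nat_lit 2) (nat_lit 10) (nat_lit 11) (C.cons (nat_lit 3076) (C.node (nat_lit 5) (nat_lit 10) (nat_lit 11) (C.cons (nat_lit 3104) (C.node (nat_lit 1) (nat_lit 4) (nat_lit 11) (C.cons (nat_lit 2354) (C.miq (nat_lit 1803723792) (nat_lit 2790220954849055936724010131)) (C.cons (nat_lit 2322) (C.miq (nat_lit 1803723792) (nat_lit 2790220954849055799285056659)) (C.cons (nat_lit 2098) (C.node (nat_lit 4) (nat_lit 8) (nat_lit 11) (C.cons (nat_lit 2320) (C.node (nat_lit 1) (nat_lit 9) (nat_lit 11) (C.cons (nat_lit 2626) (C.node (nat_lit 1) (nat_lit 3) (nat_lit 11) C.nil) C.nil)) C.nil)) (C.cons (nat_lit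 2066) (C.miq (nat_lit 1528074864) (nat_lit 2497651092677967637237662341)) C.nil))))) C.nil)) C.nil)) (C.cons (nat_lit 2564) (C.node (nat_lit 1) (nat_lit 4) (nat_lit 11) (C.cons (nat_lit 2354) (C.miq (nat_lit 1803723792) (nat_lit 2790220954849055936724010131)) (C.cons (nat_lit 2322) (C.miq (nat_lit 1803723792) (nat_lit 2790220954849055799285056659)) (C.cons (nat_lit 2098) (C.miq (nat_lit 1496006769) (nat_lit 3099724502918886078917510291)) (C.cons (nat_lit 2066) (C.node (nat_lit 2) (nat_lit 5) (nat_lit 11) (C.cons (nat_lit 3108) (C.node (nat_lit 2) (nat_lit 4) (nat_lit 10) (C.cons (nat_lit 1300) (C.miq (nat_lit 621325156) (nat_lit 349403543510757644006657104)) (C.cons (nat_lit 1044) (C.node (nat_lit 4) (nat_lit 5) (nat_lit 11) (C.cons (nat_lit 2352) (C.miq (nat_lit 1376303716) (nat_lit 317990878175537759851187280)) (C.cons (nat_lit 2096) (C.node (nat_lit 4) (nat_lit 8) (nat_lit 11) C.nil) C.nil))) C.nil))) (C.cons (nat_lit 2084) (C.node (nat_lit 2) (nat_lit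 10) (nat_lit 11) (C.cons (nat_lit 3076) (C.node (nat_lit 5) (nat_lit 10) (nat_lit 11) C.nil) C.nil)) C.nil))) C.nil))))) C.nil))) C.nil))) C.nil))) C.nil)))) (List.cons (C.node (nat_lit 3) (nat_lit 7) (nat_lit 11) (C.cons (nat_lit 2184) (C.node (nat_lit 2) (nat_lit 9) (nat_lit 11) (C.cons (nat_lit 2628) (C.miq (nat_lit 658935979) (nat_lit 251505048704824966632181505)) (C.cons (nat_lit 2596) (C.node (nat_lit 5) (nat_lit 10) (nat_lit 11) (C.cons (nat_lit 3106) (C.miq (nat_lit 1376434545) (nat_lit 1321413217156594439692683906)) (C.cons (nat_lit 3104) (C.node (nat_lit 1) (nat_lit 10) (nat_lit 11) (C.cons (nat_lit 3078) (C.node (nat_lit 2) (nat_lit 6) (nat_lit 11) (C.cons (nat_lit 2372) (C.node (nat_lit 2) (nat_lit 8) (nat_lit 9) (C.cons (nat_lit 788) (C.node (nat_lit 1) (nat_lit 2) (nat_lit 9) (C.cons (nat_lit 582) (C.miq (nat_lit 1176611712) (nat_lit 703616429040243807835590401)) (C.cons (nat_lit 518) (C.node (nat_lit 1) (nat_lit 4) (nat_lit 9) (C.cons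 (nat_lit 594) (C.miq (nat_lit 558268587) (nat_lit 718145692602065517320081153)) (C.cons (nat_lit 530) (C.node (nat_lit 2) (nat_lit 4) (nat_lit 7) (C.cons (nat_lit 180) (C.miq (nat_lit 1696861080) (nat_lit 217612864723189863416073985)) (C.cons (nat_lit 148) (C.node (nat_lit 2) (nat_lit 4) (nat_lit 10) (C.cons (nat_lit 1076) (C.miq (nat_lit 1696861080) (nat_lit 1300810399097897603952807681)) (C.cons (nat_lit 1044) (C.node (nat_lit 6) (nat_lit 7) (nat_lit 8) (C.cons (nat_lit 960) (C.miq (nat_lit 1451821860) (nat_lit 1160579136093272168553777181)) (C.cons (nat_lit 450) (C.miq (nat_lit 1115753319) (nat_lit 317969092280591501152618721)) (C.cons (nat_lit 448) (C.node (nat_lit 7) (nat_lit 8) (nat_lit 9) (C.cons (nat_lit 928) (C.miq (nat_lit 848825175) (nat_lit 952640796011383433946204385)) (C.cons (nat_lit 896) (C.node (nat_lit 1) (nat_lit 2) (nat_lit 4) (C.cons (nat_lit 118) (C.node (nat_lit 1) (nat_lit 2) (nat_lit 3) (C.cons (nat_lit 142) (C.miq (nat_lit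 394666756) (nat_lit 541600943943125702632605725)) (C.cons (nat_lit 14) (C.node (nat_lit 1) (nat_lit 2) (nat_lit 7)
  (C.cons (nat_lit 134) (C.node (nat_lit 1) (nat_lit 3) (nat_lit 4) (C.cons (nat_lit 282) (C.miq (nat_lit 3088343562) (nat_lit 340975225936305534184653893)) (C.cons (nat_lit 26) (C.node (nat_lit 1) (nat_lit 4) (nat_lit 8) (C.cons (nat_lit 2322) (C.node (nat_lit 4) (nat_lit 5) (nat_lit 11) C.nil) (C.cons (nat_lit 274) (C.miq (nat_lit 3088343562) (nat_lit 331303819379388500787004485)) C.nil))) C.nil))) C.nil)) C.nil))) (C.cons (nat_lit 86) (C.miq (nat_lit 1380366720) (nat_lit 104009550666850074832736001)) (C.cons (nat_lit 54) (C.miq (nat_lit 1696861080) (nat_lit 65288211451746587403095809)) (C.cons (nat_lit 22) (C.miq (nat_lit 1645525002) (nat_lit 26654512836501948761050881)) C.nil))))) C.nil))) C.nil)))) C.nil))) C.nil))) C.nil))) C.nil))) (C.cons (nat_lit 780) (C.miq (nat_lit 1210648245) (nat_lit 942972488017703362313324769)) (C.cons (nat_lit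 772) (C.miq (nat_lit 1210648245) (nat_lit 933301081460786328915675361)) C.nil)))) (C.cons (nat_lit 2116) (C.miq (nat_lit 2259813537) (nat_lit 2558091885893117324380472467)) C.nil))) (C.cons (nat_lit 3074) (C.node (nat_lit 2) (nat_lit 10) (nat_lit 11) (C.cons (nat_lit 3076) (C.node (nat_lit 2) (nat_lit 8) (nat_lit 11) (C.cons (nat_lit 2372) (C.miq (nat_lit 732005952) (nat_lit 3716242821656733651230196049)) (C.cons (nat_lit 2308) (C.node (nat_lit 1) (nat_lit 4) (nat_lit 11) (C.cons (nat_lit 2354) (C.miq (nat_lit 1500623364) (nat_lit 3252053879129613802115631133)) (C.cons (nat_lit 2322) (C.miq (nat_lit 1803723792) (nat_lit 2790220954849055799285056659)) (C.cons (nat_lit 2098) (C.miq (nat_lit 1500623364) (nat_lit 3252049156763130932470417437)) C.nil)))) C.nil))) C.nil)) C.nil))) C.nil))) (C.cons (nat_lit 2564) (C.node (nat_lit 5) (nat_lit 9) (nat_lit 11) (C.cons (nat_lit 2600) (C.miq (nat_lit 2710767541) (nat_lit 632287849770508310404401377)) (C.cons (nat_lit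 2592) (C.node (nat_lit 3) (nat_lit 9) (nat_lit 11) (C.cons (nat_lit 2632) (C.node (nat_lit 6) (nat_lit 7) (nat_lit 9) (C.cons (nat_lit 960) (C.node (nat_lit 1) (nat_lit 6) (nat_lit 7) (C.cons (nat_lit 206) (C.miq (nat_lit 1177660304) (nat_lit 249060320865144354854604545)) (C.cons (nat_lit 202) (C.miq (nat_lit 1177660304) (nat_lit 244224617586685838155779841)) (C.cons (nat_lit 198) (C.miq (nat_lit 380334601) (nat_lit 3810583805222606177407402629)) (C.cons (nat_lit 194) (C.node (nat_lit 2) (nat_lit 6) (nat_lit 7) (C.cons (nat_lit 204) (C.miq (nat_lit 2252052256) (nat_lit 3181963611439907960166089349)) (C.cons (nat_lit 196) (C.node (nat_lit 3) (nat_lit 6) (nat_lit 7) (C.cons (nat_lit 200) (C.node (nat_lit 4) (nat_lit 6) (nat_lit 9) (C.cons (nat_lit 598) (C.miq (nat_lit 826708139) (nat_lit 722986192107166692447096577)) (C.cons (nat_lit 596) (C.miq (nat_lit 946079634) (nat_lit 407446315208194915669639813)) (C.cons (nat_lit 594) (C.miq (nat_lit 826708139)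 (nat_lit 718150488828708175748271873)) (C.cons (nat_lit 592) (C.node (nat_lit 4) (nat_lit 8) (nat_lit 9) (C.cons (nat_lit 792) (C.miq (nat_lit 1766553648) (nat_lit 3114234841046783675246379401)) (C.cons (nat_lit 788) (C.miq (nat_lit 3062106002) (nat_lit 407446315737367871898256005)) (C.cons (nat_lit 786) (C.miq (nat_lit 1729366936) (nat_lit 1415658351961287779276689153)) (C.cons (nat_lit 784) (C.node (nat_lit 6) (nat_lit 9) (nat_lit 10) (C.cons (nat_lit 1634) (C.miq (nat_lit 1450420608) (nat_lit 241804810165298570753281793)) (C.cons (nat_lit 1632) (C.miq (nat_lit 1450420608) (nat_lit 241804810164735620799860481)) (C.cons (nat_lit 1602) (C.node (nat_lit 2) (nat_lit 6) (nat_lit 11) (C.cons (nat_lit 2372) (C.miq (nat_lit 426247090) (nat_lit 1160573638470958110659053597)) (C.cons (nat_lit 2118) (C.node (nat_lit 6) (nat_lit 8) (nat_lit 11) C.nil) C.nil))) (C.cons (nat_lit 1600) (C.miq (nat_lit 443090099) (nat_lit 1934290959360177965262964765)) C.nil)))))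 C.nil))))) C.nil))))) C.nil)) C.nil))) C.nil))))) (C.cons (nat_lit 704) (C.node (nat_lit 3) (nat_lit 4) (nat_lit 6) (C.cons (nat_lit 122) (C.node (nat_lit 1) (nat_lit 3) (nat_lit 7) (C.cons (nat_lit 142)
  (C.miq (nat_lit 1366901536) (nat_lit 3252020803421118388104398877)) (C.cons (nat_lit 138) (C.node (nat_lit 1) (nat_lit 4) (nat_lit 11) (C.cons (nat_lit 2322) (C.miq (nat_lit 641796792) (nat_lit 147493801794341832360070913)) (C.cons (nat_lit 2066) (C.node (nat_lit 1) (nat_lit 4) (nat_lit 8) (C.cons (nat_lit 786) (C.miq (nat_lit 1900460416) (nat_lit 147530880199435364343025409)) (C.cons (nat_lit 274) (C.node (nat_lit 3) (nat_lit 4) (nat_lit 8) (C.cons (nat_lit 792) (C.miq (nat_lit 2204865616) (nat_lit 3181963611392619811904225841)) (C.cons (nat_lit 280) (C.node (nat_lit 3) (nat_lit 6) (nat_lit 7) (C.cons (nat_lit 204) (C.miq (nat_lit 2452883301) (nat_lit 2510949276144562383082883297)) (C.cons (nat_lit 200) (C.node (nat_lit 3) (nat_lit 6) (nat_lit 10)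 (C.cons (nat_lit 1352) (C.miq (nat_lit 2556693045) (nat_lit 407418350914706575283848233)) (C.cons (nat_lit 1096) (C.node (nat_lit 1) (nat_lit 6) (nat_lit 10) (C.cons (nat_lit 1602) (C.node (nat_lit 5) (nat_lit 6) (nat_lit 10) (C.cons (nat_lit 1376) (C.miq (nat_lit 2249827632) (nat_lit 1936770017353933148241200169)) (C.cons (nat_lit 1120) (C.node (nat_lit 6) (nat_lit 8) (nat_lit 10) (C.cons (nat_lit 1344) (C.node (nat_lit 2) (nat_lit 3) (nat_lit 6) C.nil) C.nil)) C.nil))) (C.cons (nat_lit 1346) (C.miq (nat_lit 610339752) (nat_lit 147493802071313209379393281)) (C.cons (nat_lit 1090) (C.miq (nat_lit 2590051139) (nat_lit 1317738792108255273815771165)) C.nil)))) C.nil))) C.nil))) C.nil))) C.nil))) C.nil))) C.nil))) (C.cons (nat_lit 120) (C.miq (nat_lit 342035129) (nat_lit 145080746330526786697826049)) (C.cons (nat_lit 90) (C.node (nat_lit 3) (nat_lit 6) (nat_lit 7) (C.cons (nat_lit 204) (C.node (nat_lit 1) (nat_lit 3) (nat_lit 7) (C.cons (nat_lit 170) (C.miq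 (nat_lit 2836597621) (nat_lit 632287850522046498062600417)) (C.cons (nat_lit 138) (C.node (nat_lit 3) (nat_lit 6) (nat_lit 10) (C.cons (nat_lit 1352) (C.miq (nat_lit 2590115895) (nat_lit 1321367820069868422969426313)) (C.cons (nat_lit 1096) (C.node (nat_lit 1) (nat_lit 2) (nat_lit 7) (C.cons (nat_lit 166) (C.node (nat_lit 2) (nat_lit 8) (nat_lit 11) (C.cons (nat_lit 2372) (C.miq (nat_lit 325192120) (nat_lit 246625718842298454581186305)) (C.cons (nat_lit 2340) (C.miq (nat_lit 2820737879) (nat_lit 317969092777113222612650209)) (C.cons (nat_lit 2308) (C.node (nat_lit 1) (nat_lit 10) (nat_lit 11) (C.cons (nat_lit 3106) (C.miq (nat_lit 699756705) (nat_lit 3133538786782202913775289491)) (C.cons (nat_lit 3078) (C.miq (nat_lit 1797802512) (nat_lit 2790207009110539321859310739)) (C.cons (nat_lit 3074) (C.node (nat_lit 1) (nat_lit 2) (nat_lit 11) (C.cons (nat_lit 2118) (C.node (nat_lit 6) (nat_lit 8) (nat_lit 11) C.nil) C.nil)) C.nil)))) C.nil)))) (C.cons (nat_lit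 134) (C.node (nat_lit 1) (nat_lit 5) (nat_lit 7) (C.cons (nat_lit 418) (C.node (nat_lit 1) (nat_lit 6) (nat_lit 7) (C.cons (nat_lit 194) (C.node (nat_lit 1) (nat_lit 4) (nat_lit 11) (C.cons (nat_lit 2322) (C.miq (nat_lit 641796792) (nat_lit 108808175566673698769473281)) (C.cons (nat_lit 2098) (C.miq (nat_lit 2202103989) (nat_lit 108811034614968022947989729)) C.nil))) C.nil)) (C.cons (nat_lit 162) (C.node (nat_lit 1) (nat_lit 6) (nat_lit 7) (C.cons (nat_lit 450) (C.node (nat_lit 1) (nat_lit 6) (nat_lit 11) (C.cons (nat_lit 2118) (C.miq (nat_lit 840436583) (nat_lit 317954740713701064199768289)) C.nil)) (C.cons (nat_lit 194) (C.node (nat_lit 1) (nat_lit 7) (nat_lit 8) C.nil) C.nil))) C.nil))) C.nil))) C.nil))) C.nil))) (C.cons (nat_lit 200) (C.node (nat_lit 3) (nat_lit 6) (nat_lit 10) (C.cons (nat_lit 1352) (C.node (nat_lit 1) (nat_lit 3) (nat_lit 10) (C.cons (nat_lit 1038) (C.node (nat_lit 1) (nat_lit 3) (nat_lit 7) (C.cons (nat_lit 170) (C.miq (nat_lit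 2436544336) (nat_lit 1254935855461140619298670817)) (C.cons (nat_lit 138) (C.node (nat_lit 2) (nat_lit 3) (nat_lit 6) (C.cons (nat_lit 108) (C.miq (nat_lit 1460887714) (nat_lit 166833755994976438279078981)) (C.cons (nat_lit 76) (C.node (nat_lit 3) (nat_lit 5) (nat_lit 6) (C.cons (nat_lit 104)
  (C.node (nat_lit 2) (nat_lit 6) (nat_lit 11) (C.cons (nat_lit 2372) (C.miq (nat_lit 325192120) (nat_lit 91883213931625920218795777)) (C.cons (nat_lit 2118) (C.node (nat_lit 6) (nat_lit 8) (nat_lit 11) C.nil) C.nil))) C.nil)) C.nil))) C.nil))) (C.cons (nat_lit 1034) (C.node (nat_lit 1) (nat_lit 8) (nat_lit 10) (C.cons (nat_lit 1314) (C.node (nat_lit 1) (nat_lit 6) (nat_lit 10) (C.cons (nat_lit 1602) (C.node (nat_lit 5) (nat_lit 6) (nat_lit 10) (C.cons (nat_lit 1120) (C.node (nat_lit 1) (nat_lit 2) (nat_lit 10) (C.cons (nat_lit 3078) (C.miq (nat_lit 1779976992) (nat_lit 1588534744413597922201372701)) (C.cons (nat_lit 1030) (C.node (nat_lit 1) (nat_lit 10) (nat_lit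 11) (C.cons (nat_lit 3074) (C.node (nat_lit 2) (nat_lit 10) (nat_lit 11) (C.cons (nat_lit 3108) (C.node (nat_lit 4) (nat_lit 5) (nat_lit 10) C.nil) C.nil)) C.nil)) C.nil))) C.nil)) (C.cons (nat_lit 1090) (C.miq (nat_lit 2590051139) (nat_lit 1317738792108255273813674013)) C.nil))) (C.cons (nat_lit 1282) (C.node (nat_lit 2) (nat_lit 3) (nat_lit 6) (C.cons (nat_lit 108) (C.node (nat_lit 4) (nat_lit 5) (nat_lit 6) (C.cons (nat_lit 112) (C.node (nat_lit 2) (nat_lit 3) (nat_lit 8) (C.cons (nat_lit 780) (C.miq (nat_lit 2152897379) (nat_lit 44744644867273920927763016)) (C.cons (nat_lit 268) (C.node (nat_lit 2) (nat_lit 3) (nat_lit 9) (C.cons (nat_lit 1548) (C.miq (nat_lit 1536385186) (nat_lit 3181894750113873067592385605)) (C.cons (nat_lit 524) (C.node (nat_lit 1) (nat_lit 6) (nat_lit 10) (C.cons (nat_lit 1634) (C.miq (nat_lit 1396793866) (nat_lit 108833465775541285339464773)) (C.cons (nat_lit 1602) (C.node (nat_lit 5) (nat_lit 6) (nat_lit 10) (C.cons (nat_lit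 1120) (C.node (nat_lit 1) (nat_lit 6) (nat_lit 11) C.nil) C.nil)) (C.cons (nat_lit 1122) (C.miq (nat_lit 2590051139) (nat_lit 1356424418335923407404271645)) (C.cons (nat_lit 1090) (C.miq (nat_lit 2590051139) (nat_lit 1317738792108255273813674013)) C.nil))))) C.nil))) C.nil))) C.nil)) (C.cons (nat_lit 76) (C.node (nat_lit 3) (nat_lit 5) (nat_lit 6) (C.cons (nat_lit 104) (C.node (nat_lit 2) (nat_lit 6) (nat_lit 11) (C.cons (nat_lit 2372) (C.miq (nat_lit 325192120) (nat_lit 91883213931625920218795777)) (C.cons (nat_lit 2118) (C.node (nat_lit 6) (nat_lit 8) (nat_lit 11) C.nil) C.nil))) C.nil)) C.nil))) C.nil))) C.nil))) (C.cons (nat_lit 1096) (C.node (nat_lit 4) (nat_lit 5) (nat_lit 6) (C.cons (nat_lit 116) (C.node (nat_lit 4) (nat_lit 6) (nat_lit 9) (C.cons (nat_lit 592) (C.node (nat_lit 2) (nat_lit 4) (nat_lit 10) (C.cons (nat_lit 1300) (C.miq (nat_lit 2152901476) (nat_lit 44754237174192249895128144)) (C.cons (nat_lit 1044) (C.node (nat_lit 2) (nat_lit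 6) (nat_lit 11) (C.cons (nat_lit 2372) (C.miq (nat_lit 557219995) (nat_lit 108847079516289630095281921)) (C.cons (nat_lit 2118) (C.node (nat_lit 6) (nat_lit 8) (nat_lit 11) C.nil) C.nil))) C.nil))) C.nil)) (C.cons (nat_lit 112) (C.node (nat_lit 2) (nat_lit 4) (nat_lit 6) (C.cons (nat_lit 596) (C.node (nat_lit 1) (nat_lit 4) (nat_lit 9) (C.cons (nat_lit 786) (C.miq (nat_lit 1900460416) (nat_lit 108845253971767230752427777)) (C.cons (nat_lit 530) (C.node (nat_lit 2) (nat_lit 6) (nat_lit 11) (C.cons (nat_lit 2372) (C.miq (nat_lit 557219995) (nat_lit 108847079516289630095281921)) (C.cons (nat_lit 2118) (C.node (nat_lit 6) (nat_lit 8) (nat_lit 11) C.nil) C.nil))) C.nil))) (C.cons (nat_lit 84) (C.node (nat_lit 4) (nat_lit 6) (nat_lit 9) (C.cons (nat_lit 592) (C.node (nat_lit 2) (nat_lit 6) (nat_lit 11) (C.cons (nat_lit 2372) (C.miq (nat_lit 557219995) (nat_lit 108847079516289630095281921)) (C.cons (nat_lit 2118) (C.node (nat_lit 6) (nat_lit 8) (nat_lit 11)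 C.nil) C.nil))) C.nil)) C.nil))) C.nil))) C.nil))) C.nil))) (C.cons (nat_lit 88) (C.miq (nat_lit 342035129) (nat_lit 106395120102858653107228417)) C.nil))))) C.nil))) (C.cons (nat_lit 2568) (C.node (nat_lit 6) (nat_lit 9) (nat_lit 11) (C.cons (nat_lit 2624) (C.node (nat_lit 3) (nat_lit 6) (nat_lit 11) (C.cons (nat_lit 2378) (C.miq (nat_lit 927367339) (nat_lit 251500436947874845113192193)) (C.cons (nat_lit 2376)
  (C.miq (nat_lit 927367339) (nat_lit 251500400054386697694088961)) (C.cons (nat_lit 2122) (C.node (nat_lit 2) (nat_lit 6) (nat_lit 11) (C.cons (nat_lit 2372) (C.node (nat_lit 2) (nat_lit 5) (nat_lit 11) (C.cons (nat_lit 3108) (C.miq (nat_lit 314181732) (nat_lit 3757363048573615895615635793)) (C.cons (nat_lit 2086) (C.miq (nat_lit 2703966342) (nat_lit 2521877404183045118403805521)) C.nil))) C.nil)) (C.cons (nat_lit 2120) (C.node (nat_lit 1) (nat_lit 6) (nat_lit 11) C.nil) C.nil))))) C.nil)) C.nil))) C.nil))) C.nil)))) C.nil)) (List.cons (C.node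 (nat_lit 6) (nat_lit 9) (nat_lit 10) (C.cons (nat_lit 1634) (C.miq (nat_lit 323391674) (nat_lit 725385633895814279904366337)) (C.cons (nat_lit 1632) (C.node (nat_lit 1) (nat_lit 9) (nat_lit 10) (C.cons (nat_lit 1542) (C.node (nat_lit 1) (nat_lit 4) (nat_lit 9) (C.cons (nat_lit 786) (C.miq (nat_lit 1235648800) (nat_lit 1972973154385073607845150983)) (C.cons (nat_lit 530) (C.node (nat_lit 2) (nat_lit 6) (nat_lit 9) (C.cons (nat_lit 2628) (C.miq (nat_lit 658935979) (nat_lit 251505048704824966632181505)) (C.cons (nat_lit 836) (C.miq (nat_lit 2216255650) (nat_lit 640746105968661180438676549)) (C.cons (nat_lit 580) (C.node (nat_lit 2) (nat_lit 4) (nat_lit 6) (C.cons (nat_lit 118) (C.miq (nat_lit 2300971540) (nat_lit 701183193010389769841411219)) (C.cons (nat_lit 116) (C.miq (nat_lit 3109292642) (nat_lit 678245699772400456688731205)) (C.cons (nat_lit 86) (C.miq (nat_lit 2300971540) (nat_lit 701183193010389769839314067)) (C.cons (nat_lit 84) (C.node (nat_lit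 6) (nat_lit 8) (nat_lit 9) (C.cons (nat_lit 962) (C.miq (nat_lit 895945368) (nat_lit 2747895637854250941607448321)) (C.cons (nat_lit 960) (C.miq (nat_lit 895945368) (nat_lit 2747895637854250941607317249)) (C.cons (nat_lit 834) (C.miq (nat_lit 563284068) (nat_lit 632306517619923654026985809)) (C.cons (nat_lit 832) (C.node (nat_lit 6) (nat_lit 7) (nat_lit 9) (C.cons (nat_lit 706) (C.node (nat_lit 5) (nat_lit 7) (nat_lit 9) C.nil) C.nil)) C.nil))))) C.nil))))) C.nil)))) C.nil))) (C.cons (nat_lit 1538) (C.node (nat_lit 2) (nat_lit 9) (nat_lit 10) (C.cons (nat_lit 1540) (C.node (nat_lit 2) (nat_lit 4) (nat_lit 6) (C.cons (nat_lit 118) (C.miq (nat_lit 3109292642) (nat_lit 678245699772400456688862277)) (C.cons (nat_lit 116) (C.miq (nat_lit 3109292642) (nat_lit 678245699772400456688731205)) (C.cons (nat_lit 86) (C.node (nat_lit 4) (nat_lit 5) (nat_lit 6) (C.cons (nat_lit 112) (C.node (nat_lit 1) (nat_lit 4) (nat_lit 9) (C.cons (nat_lit 786) (C.miq (nat_lit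 3021514272) (nat_lit 950286549048295145683223621)) (C.cons (nat_lit 530) (C.node (nat_lit 6) (nat_lit 7) (nat_lit 9) (C.cons (nat_lit 962) (C.miq (nat_lit 895945368) (nat_lit 2747895637854250941607448321)) (C.cons (nat_lit 960) (C.miq (nat_lit 895945368) (nat_lit 2747895637854250941607317249)) (C.cons (nat_lit 706) (C.miq (nat_lit 728843158) (nat_lit 2633042022125287787437621848)) C.nil)))) C.nil))) C.nil)) (C.cons (nat_lit 84) (C.node (nat_lit 1) (nat_lit 4) (nat_lit 6) (C.cons (nat_lit 114) (C.node (nat_lit 1) (nat_lit 4) (nat_lit 11) (C.cons (nat_lit 2322) (C.miq (nat_lit 641796792) (nat_lit 137822395237424798962421505)) (C.cons (nat_lit 2066) (C.node (nat_lit 1) (nat_lit 10) (nat_lit 11) (C.cons (nat_lit 3110) (C.miq (nat_lit 2316569430) (nat_lit 1415658352402642346601220321)) (C.cons (nat_lit 3106) (C.miq (nat_lit 2316569430) (nat_lit 1415658352402642329421351137)) (C.cons (nat_lit 3078) (C.miq (nat_lit 2226194082) (nat_lit 2497645594912385865645163589))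 (C.cons (nat_lit 3074) (C.node (nat_lit 1) (nat_lit 2) (nat_lit 4) (C.cons (nat_lit 534) (C.node (nat_lit 4) (nat_lit 8) (nat_lit 9) C.nil) (C.cons (nat_lit 22) (C.node (nat_lit 2) (nat_lit 4) (nat_lit 10) (C.cons (nat_lit 1332) (C.node (nat_lit 2) (nat_lit 4) (nat_lit 7) C.nil) C.nil)) C.nil))) C.nil))))) C.nil))) (C.cons (nat_lit 82) (C.node (nat_lit 4) (nat_lit 5) (nat_lit 6) (C.cons (nat_lit 112) (C.node (nat_lit 2) (nat_lit 8) (nat_lit 11) (C.cons (nat_lit 2372) (C.miq (nat_lit 341969592) (nat_lit 101554620670940971907944193))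
  (C.cons (nat_lit 2340) (C.node (nat_lit 2) (nat_lit 10) (nat_lit 11) (C.cons (nat_lit 3078) (C.miq (nat_lit 1797802512) (nat_lit 2828892635338207455449908371)) (C.cons (nat_lit 3076) (C.node (nat_lit 4) (nat_lit 8) (nat_lit 11) (C.cons (nat_lit 2322) (C.miq (nat_lit 641796792) (nat_lit 99136769009756665371823873)) (C.cons (nat_lit 2320) (C.node (nat_lit 2) (nat_lit 4) (nat_lit 10) C.nil) C.nil))) C.nil))) (C.cons (nat_lit 2308) (C.node (nat_lit 1) (nat_lit 10) (nat_lit 11) (C.cons (nat_lit 3110) (C.miq (nat_lit 1797802512) (nat_lit 2790207009110539459298264211)) (C.cons (nat_lit 3106) (C.node (nat_lit 2) (nat_lit 10) (nat_lit 11) (C.cons (nat_lit 3076) (C.node (nat_lit 1) (nat_lit 4) (nat_lit 11) C.nil) C.nil)) (C.cons (nat_lit 3078) (C.miq (nat_lit 1797802512) (nat_lit 2790207009110539321859310739)) (C.cons (nat_lit 3074) (C.node (nat_lit 2) (nat_lit 10) (nat_lit 11) (C.cons (nat_lit 3108) (C.node (nat_lit 2) (nat_lit 7) (nat_lit 10) C.nil) (C.cons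 (nat_lit 3076) (C.node (nat_lit 5) (nat_lit 10) (nat_lit 11) C.nil) C.nil))) C.nil))))) C.nil)))) C.nil)) C.nil))) C.nil))))) C.nil)) C.nil))) (C.cons (nat_lit 1602) (C.miq (nat_lit 323391674) (nat_lit 725385043600003921198714625)) (C.cons (nat_lit 1600) (C.node (nat_lit 3) (nat_lit 6) (nat_lit 7) (C.cons (nat_lit 206) (C.miq (nat_lit 714301623) (nat_lit 1866585265821935276604786913)) (C.cons (nat_lit 204) (C.miq (nat_lit 714301623) (nat_lit 1866585228928447129185683681)) (C.cons (nat_lit 202) (C.node (nat_lit 3) (nat_lit 6) (nat_lit 11) (C.cons (nat_lit 2376) (C.miq (nat_lit 1178053504) (nat_lit 244224617586684738635632385)) (C.cons (nat_lit 2120) (C.node (nat_lit 6) (nat_lit 7) (nat_lit 9) (C.cons (nat_lit 960) (C.miq (nat_lit 929347968) (nat_lit 251494885126144623480213249)) (C.cons (nat_lit 704) (C.node (nat_lit 1) (nat_lit 2) (nat_lit 7) (C.cons (nat_lit 166) (C.node (nat_lit 2) (nat_lit 3) (nat_lit 7) C.nil) C.nil)) C.nil))) C.nil))) (C.cons (nat_lit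 200) (C.node (nat_lit 1) (nat_lit 3) (nat_lit 7) (C.cons (nat_lit 174) (C.miq (nat_lit 2339506481) (nat_lit 2635463139334739951260402187)) (C.cons (nat_lit 170) (C.node (nat_lit 2) (nat_lit 3) (nat_lit 7) C.nil) (C.cons (nat_lit 142) (C.miq (nat_lit 2339506481) (nat_lit 2635463139334739951258305035)) (C.cons (nat_lit 138) (C.node (nat_lit 2) (nat_lit 3) (nat_lit 7) (C.cons (nat_lit 140) (C.node (nat_lit 3) (nat_lit 5) (nat_lit 7) C.nil) C.nil)) C.nil))))) C.nil))))) C.nil))))) List.nil)))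

theorem ok12_278 : okL par12 (nat_lit 281) c12_278 (nat_lit 278) = true := by decide +kernel

noncomputable def c12_281 : List C :=
  (List.cons (C.node (nat_lit 6) (nat_lit 7) (nat_lit 10) (C.cons (nat_lit 1736) (C.miq (nat_lit 610732969) (nat_lit 251468469214407475478400769)) (C.cons (nat_lit 1728) (C.miq (nat_lit 610732969) (nat_lit 251468469214407475477876481)) (C.cons (nat_lit 1472) (C.miq (nat_lit 879168424) (nat_lit 251463820634900900654092033)) (C.cons (nat_lit 1224) (C.node (nat_lit 3) (nat_lit 9) (nat_lit 10) (C.cons (nat_lit 1548) (C.node (nat_lit 7) (nat_lit 9) (nat_lit 10) (C.cons (nat_lit 1696) (C.miq (nat_lit 1513847072) (nat_lit 3723533454339725609152610949)) (C.cons (nat_lit 1664) (C.node (nat_lit 1) (nat_lit 3) (nat_lit 10) (C.cons (nat_lit 1290) (C.node (nat_lit 2) (nat_lit 3) (nat_lit 7) (C.cons (nat_lit 174) (C.miq (nat_lit 2200543600) (nat_lit 1871488023070536548156245139)) (C.cons (nat_lit 172) (C.miq (nat_lit 3124037927) (nat_lit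 1287547928420011647039177349)) (C.cons (nat_lit 142) (C.miq (nat_lit 2200543600) (nat_lit 1871488023070536410717291667)) (C.cons (nat_lit 140) (C.node (nat_lit 6) (nat_lit 8) (nat_lit 10) (C.cons (nat_lit 1376) (C.node (nat_lit 4) (nat_lit 8) (nat_lit 10) (C.cons (nat_lit 1300) (C.miq (nat_lit 542657386) (nat_lit 349403543220556943086062672)) (C.cons (nat_lit 1296) (C.node (nat_lit 2) (nat_lit 8) (nat_lit 10) (C.cons (nat_lit 1412) (C.miq (nat_lit 2207424775) (nat_lit 1871443215929183006598956179)) (C.cons (nat_lit 1284) (C.node (nat_lit 7) (nat_lit 8) (nat_lit 10) (C.cons (nat_lit 1408) (C.node (nat_lit 3) (nat_lit 4) (nat_lit 8) (C.cons (nat_lit 792) (C.miq (nat_lit 1647577752) (nat_lit 2510945144199996434189651713)) (C.cons (nat_lit 312) (C.miq (nat_lit 646187603) (nat_lit 407446315405229186054882345)) (C.cons (nat_lit 280) (C.node (nat_lit 3) (nat_lit 8) (nat_lit 11) (C.cons (nat_lit 2376) (C.miq (nat_lit 1178053504) (nat_lit 1479746805232835755185344257))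 (C.cons (nat_lit 2344) (C.miq (nat_lit 950187360) (nat_lit 1552299066932408210417846497)) (C.cons (nat_lit 2312) (C.node (nat_lit 6) (nat_lit 8) (nat_lit 11) (C.cons (nat_lit 2372) (C.miq (nat_lit 681817680) (nat_lit 1559552621857977284812146913)) (C.cons (nat_lit 2370) (C.miq (nat_lit 833661029) (nat_lit 2479526502175155837173040480)) (C.cons (nat_lit 2368) (C.node (nat_lit 1) (nat_lit 6) (nat_lit 8) (C.cons (nat_lit 962) (C.miq (nat_lit 946184560) (nat_lit 1663501573935275096932418707)) (C.cons (nat_lit 834) (C.miq (nat_lit 1695124017) (nat_lit 678222769775678582904521994)) (C.cons (nat_lit 450) (C.miq (nat_lit 946184560) (nat_lit 1663501573935272897909163155)) (C.cons (nat_lit 322) (C.node (nat_lit 2) (nat_lit 10) (nat_lit 11) (C.cons (nat_lit 3110) (C.miq (nat_lit 713340256) (nat_lit 1566806176983393592625137889)) (C.cons (nat_lit 3108) (C.miq (nat_lit 713340256) (nat_lit 1566806176982830642671716577)) (C.cons (nat_lit 3078) (C.miq (nat_lit 1779976992)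 (nat_lit 1559520524742846822008424477)) (C.cons (nat_lit 3076) (C.node (nat_lit 4) (nat_lit 8) (nat_lit 11) (C.cons (nat_lit 2354) (C.miq (nat_lit 1218622816) (nat_lit 1552299066935222960184953057)) (C.cons (nat_lit 2352) (C.miq (nat_lit 1218622816) (nat_lit 1552299066934660010231531745)) (C.cons (nat_lit 2322) (C.miq (nat_lit 649595457) (nat_lit 2862741192648798958750139539)) (C.cons (nat_lit 2320) (C.node (nat_lit 3) (nat_lit 5) (nat_lit 9) (C.cons (nat_lit 2600) (C.miq (nat_lit 2590323211) (nat_lit 1663529889760049347726215197)) (C.cons (nat_lit 808) (C.miq (nat_lit 1487180560) (nat_lit 1566778211071422083244425739)) (C.cons (nat_lit 680) (C.miq (nat_lit 1403418912) (nat_lit 1479767132848995284495434373)) (C.cons (nat_lit 616) (C.miq (nat_lit 1245251429) (nat_lit 1871427517716483768312137953)) (C.cons (nat_lit 552) (C.node (nat_lit 5) (nat_lit 6) (nat_lit 3) (C.cons (nat_lit 122) (C.miq (nat_lit 2303959105) (nat_lit 667350849808278184789673107))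 (C.cons (nat_lit 120) (C.miq (nat_lit 3009021032) (nat_lit 1287576852418191231564120401)) (C.cons (nat_lit 110) (C.miq (nat_lit 2439512922) (nat_lit 389344968007109597999399977)) (C.cons (nat_lit 108)
  (C.miq (nat_lit 646657440) (nat_lit 2862774654765288188054406185)) (C.cons (nat_lit 106) (C.miq (nat_lit 2439512922) (nat_lit 389344968007109580819530793)) (C.cons (nat_lit 104) (C.node (nat_lit 1) (nat_lit 10) (nat_lit 6) (C.cons (nat_lit 1602) (C.node (nat_lit 9) (nat_lit 10) (nat_lit 5) (C.cons (nat_lit 1568) (C.node (nat_lit 8) (nat_lit 9) (nat_lit 3) (C.cons (nat_lit 840) (C.miq (nat_lit 372746624) (nat_lit 1479746804796542944214060801)) C.nil)) C.nil)) (C.cons (nat_lit 1090) (C.node (nat_lit 9) (nat_lit 10) (nat_lit 6) C.nil) C.nil))) C.nil))))))) C.nil)))))) C.nil))))) C.nil))))) C.nil))))) C.nil)))) C.nil)))) C.nil)))) C.nil)) C.nil))) C.nil))) (C.cons (nat_lit 1344) (C.node (nat_lit 3) (nat_lit 4) (nat_lit 8) (C.cons (nat_lit 792) (C.miq (nat_lit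 1647577752) (nat_lit 2510945144199996434189651713)) (C.cons (nat_lit 312) (C.node (nat_lit 2) (nat_lit 3) (nat_lit 8) (C.cons (nat_lit 332) (C.miq (nat_lit 308938807) (nat_lit 1321377522050129346723053961)) (C.cons (nat_lit 268) (C.node (nat_lit 3) (nat_lit 8) (nat_lit 11) (C.cons (nat_lit 2376) (C.miq (nat_lit 1178053504) (nat_lit 1479746805232835755185344257)) (C.cons (nat_lit 2312) (C.node (nat_lit 3) (nat_lit 5) (nat_lit 7) (C.cons (nat_lit 680) (C.miq (nat_lit 1403418912) (nat_lit 1479767132848995284495434373)) (C.cons (nat_lit 170) (C.miq (nat_lit 3090483735) (nat_lit 377226786250194770383733907)) (C.cons (nat_lit 168) (C.node (nat_lit 1) (nat_lit 10) (nat_lit 11) (C.cons (nat_lit 3110) (C.miq (nat_lit 326477835) (nat_lit 203156907432431346084024065)) (C.cons (nat_lit 3106) (C.miq (nat_lit 326477835) (nat_lit 203156833645455051245817601)) (C.cons (nat_lit 3078) (C.miq (nat_lit 1779976992) (nat_lit 1559520524742846822008424477)) (C.cons (nat_lit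 3074) (C.node (nat_lit 4) (nat_lit 8) (nat_lit 11) (C.cons (nat_lit 2322) (C.miq (nat_lit 565839942) (nat_lit 3716258131860680539582234961)) (C.cons (nat_lit 2320) (C.node (nat_lit 1) (nat_lit 4) (nat_lit 8) (C.cons (nat_lit 786) (C.miq (nat_lit 341018890) (nat_lit 377208652240861129070939905)) (C.cons (nat_lit 274) (C.node (nat_lit 1) (nat_lit 2) (nat_lit 10) (C.cons (nat_lit 1062) (C.node (nat_lit 2) (nat_lit 10) (nat_lit 11) (C.cons (nat_lit 3076) (C.node (nat_lit 4) (nat_lit 5) (nat_lit 10) (C.cons (nat_lit 1072) (C.node (nat_lit 5) (nat_lit 10) (nat_lit 11) (C.cons (nat_lit 3104) (C.node (nat_lit 2) (nat_lit 7) (nat_lit 10) (C.cons (nat_lit 1412) (C.miq (nat_lit 2458060705) (nat_lit 324001767485428593473488019)) C.nil)) C.nil)) C.nil)) C.nil)) (C.cons (nat_lit 1030) (C.node (nat_lit 1) (nat_lit 3) (nat_lit 4) (C.cons (nat_lit 90) (C.node (nat_lit 3) (nat_lit 6) (nat_lit 8) (C.cons (nat_lit 840) (C.miq (nat_lit 3057230864) (nat_lit 1015568543307485138314265747))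 (C.cons (nat_lit 328) (C.node (nat_lit 3) (nat_lit 8) (nat_lit 9) (C.cons (nat_lit 776) (C.node (nat_lit 3) (nat_lit 6) (nat_lit 11) (C.cons (nat_lit 2632) (C.node (nat_lit 1) (nat_lit 6) (nat_lit 10) (C.cons (nat_lit 1634) (C.miq (nat_lit 1497066016) (nat_lit 3181934687134920290328183877)) (C.cons (nat_lit 1090) (C.miq (nat_lit 2590051139) (nat_lit 1317738792108255273813674013)) C.nil))) (C.cons (nat_lit 2120) (C.miq (nat_lit 2606959169) (nat_lit 2562932386311323323761034387)) C.nil))) C.nil)) C.nil))) (C.cons (nat_lit 26) (C.node (nat_lit 1) (nat_lit 6) (nat_lit 10) (C.cons (nat_lit 1634) (C.miq (nat_lit 1630841099) (nat_lit 31490215907233049398284033)) (C.cons (nat_lit 1602) (C.miq (nat_lit 1630841099) (nat_lit 31490215898225850143543041)) (C.cons (nat_lit 1122) (C.miq (nat_lit 352888435) (nat_lit 349403358484307603167446216)) (C.cons (nat_lit 1090) (C.node (nat_lit 1) (nat_lit 3) (nat_lit 7) (C.cons (nat_lit 2186) (C.node (nat_lit 7) (nat_lit 9)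 (nat_lit 11) (C.cons (nat_lit 2688) (C.node (nat_lit 1) (nat_lit 5) (nat_lit 10) (C.cons (nat_lit 1570) (C.node (nat_lit 5) (nat_lit 6) (nat_lit 10) C.nil) C.nil)) C.nil)) (C.cons (nat_lit 138) (C.node (nat_lit 1) (nat_lit 5) (nat_lit 10) (C.cons (nat_lit 1570)
  (C.node (nat_lit 5) (nat_lit 6) (nat_lit 10) C.nil) C.nil)) C.nil))) C.nil))))) C.nil))) C.nil))) C.nil))) C.nil))) C.nil))))) C.nil)))) C.nil))) C.nil))) (C.cons (nat_lit 280) (C.node (nat_lit 3) (nat_lit 7) (nat_lit 11) (C.cons (nat_lit 2696) (C.miq (nat_lit 1731333018) (nat_lit 169269777677124850395385601)) (C.cons (nat_lit 2186) (C.node (nat_lit 7) (nat_lit 9) (nat_lit 11) (C.cons (nat_lit 2688) (C.node (nat_lit 3) (nat_lit 5) (nat_lit 11) (C.cons (nat_lit 2600) (C.miq (nat_lit 1094256565) (nat_lit 632278552611492996126869729)) (C.cons (nat_lit 2344) (C.miq (nat_lit 1394063520) (nat_lit 2642753771786641803712859905)) (C.cons (nat_lit 2088) (C.node (nat_lit 3) (nat_lit 8) (nat_lit 11) (C.cons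 (nat_lit 2376) (C.miq (nat_lit 1178053504) (nat_lit 1479746805232835755185344257)) (C.cons (nat_lit 2312) (C.node (nat_lit 1) (nat_lit 10) (nat_lit 11) (C.cons (nat_lit 3110) (C.miq (nat_lit 1362606720) (nat_lit 2642753772002251635822235393)) (C.cons (nat_lit 3106) (C.miq (nat_lit 1362606720) (nat_lit 2642753772001125735915392769)) (C.cons (nat_lit 3078) (C.miq (nat_lit 1779976992) (nat_lit 1559520524742846822008424477)) (C.cons (nat_lit 3074) (C.node (nat_lit 5) (nat_lit 6) (nat_lit 10) (C.cons (nat_lit 1634) (C.miq (nat_lit 2478154246) (nat_lit 2524267253770894342937969733)) (C.cons (nat_lit 1632) (C.miq (nat_lit 2478154246) (nat_lit 2524267216877406195518866501)) (C.cons (nat_lit 1122) (C.miq (nat_lit 352888435) (nat_lit 349403358484307603167446216)) (C.cons (nat_lit 1120) (C.node (nat_lit 1) (nat_lit 2) (nat_lit 10) (C.cons (nat_lit 1062) (C.node (nat_lit 2) (nat_lit 10) (nat_lit 11) (C.cons (nat_lit 3076) (C.node (nat_lit 5) (nat_lit 9) (nat_lit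 10) (C.cons (nat_lit 1568) (C.node (nat_lit 5) (nat_lit 10) (nat_lit 11) C.nil) C.nil)) C.nil)) (C.cons (nat_lit 1030) (C.node (nat_lit 1) (nat_lit 5) (nat_lit 10) (C.cons (nat_lit 1570) (C.node (nat_lit 1) (nat_lit 6) (nat_lit 10) (C.cons (nat_lit 1090) (C.node (nat_lit 6) (nat_lit 9) (nat_lit 10) C.nil) C.nil)) (C.cons (nat_lit 1058) (C.node (nat_lit 5) (nat_lit 9) (nat_lit 10) C.nil) C.nil))) C.nil))) C.nil))))) C.nil))))) C.nil))) C.nil)))) C.nil)) (C.cons (nat_lit 2184) (C.node (nat_lit 1) (nat_lit 3) (nat_lit 7) (C.cons (nat_lit 170) (C.node (nat_lit 7) (nat_lit 9) (nat_lit 11) (C.cons (nat_lit 2690) (C.miq (nat_lit 2436544336) (nat_lit 1559585162004027171324627169)) (C.cons (nat_lit 2688) (C.node (nat_lit 1) (nat_lit 7) (nat_lit 11) (C.cons (nat_lit 2434) (C.node (nat_lit 2) (nat_lit 7) (nat_lit 11) (C.cons (nat_lit 2180) (C.node (nat_lit 1) (nat_lit 2) (nat_lit 7) (C.cons (nat_lit 198) (C.miq (nat_lit 557475664) (nat_lit 1559534469649876975513831649))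 (C.cons (nat_lit 134) (C.node (nat_lit 1) (nat_lit 4) (nat_lit 11) (C.cons (nat_lit 2098) (C.miq (nat_lit 1244771957) (nat_lit 1559553009459152661653358817)) (C.cons (nat_lit 2066) (C.node (nat_lit 4) (nat_lit 5) (nat_lit 11) (C.cons (nat_lit 2352) (C.miq (nat_lit 951427440) (nat_lit 2843413173879159493637506195)) (C.cons (nat_lit 2096) (C.node (nat_lit 4) (nat_lit 8) (nat_lit 11) (C.cons (nat_lit 2320) (C.node (nat_lit 3) (nat_lit 5) (nat_lit 11) (C.cons (nat_lit 2600) (C.miq (nat_lit 2468001136) (nat_lit 1559585161978694423427614945)) (C.cons (nat_lit 2344) (C.node (nat_lit 2) (nat_lit 3) (nat_lit 5) (C.cons (nat_lit 108) (C.miq (nat_lit 321549664) (nat_lit 1871438769948607486299015393)) (C.cons (nat_lit 44) (C.node (nat_lit 3) (nat_lit 4) (nat_lit 7) (C.cons (nat_lit 664) (C.node (nat_lit 2) (nat_lit 3) (nat_lit 8) (C.cons (nat_lit 332) (C.miq (nat_lit 308938807) (nat_lit 1321377522050129346723053961)) C.nil)) C.nil)) C.nil))) (C.cons (nat_lit 2088)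 (C.miq (nat_lit 2337478410) (nat_lit 2524260908340320657952277651)) C.nil)))) C.nil)) C.nil))) C.nil))) C.nil))) C.nil)) (C.cons (nat_lit 2182) (C.miq (nat_lit 2172363600) (nat_lit 2637946992706211427846784041)) (C.cons (nat_lit 2178) (C.miq (nat_lit 2172363600) (nat_lit 2633111289427752911147959337)) C.nil)))) C.nil))) (C.cons (nat_lit 138)
  (C.node (nat_lit 3) (nat_lit 8) (nat_lit 11) (C.cons (nat_lit 2376) (C.miq (nat_lit 1178053504) (nat_lit 1479746805232835755185344257)) (C.cons (nat_lit 2344) (C.miq (nat_lit 1394063520) (nat_lit 166873693215881253914611457)) (C.cons (nat_lit 2312) (C.node (nat_lit 1) (nat_lit 10) (nat_lit 11) (C.cons (nat_lit 3110) (C.miq (nat_lit 1362606720) (nat_lit 166873693431491086023986945)) (C.cons (nat_lit 3106) (C.miq (nat_lit 1362606720) (nat_lit 166873693430365186117144321)) (C.cons (nat_lit 3078) (C.miq (nat_lit 1779976992) (nat_lit 1559520524742846822008424477)) (C.cons (nat_lit 3074) (C.node (nat_lit 1) (nat_lit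 2) (nat_lit 10) (C.cons (nat_lit 1062) (C.node (nat_lit 2) (nat_lit 10) (nat_lit 11) (C.cons (nat_lit 3076) (C.node (nat_lit 5) (nat_lit 10) (nat_lit 11) (C.cons (nat_lit 3104) (C.node (nat_lit 2) (nat_lit 7) (nat_lit 10) (C.cons (nat_lit 1412) (C.miq (nat_lit 2207424775) (nat_lit 1871443215929183006598956179)) (C.cons (nat_lit 1156) (C.node (nat_lit 1) (nat_lit 6) (nat_lit 10) (C.cons (nat_lit 1602) (C.node (nat_lit 5) (nat_lit 6) (nat_lit 10) C.nil) C.nil)) C.nil))) C.nil)) C.nil)) (C.cons (nat_lit 1030) (C.node (nat_lit 2) (nat_lit 10) (nat_lit 11) (C.cons (nat_lit 3108) (C.node (nat_lit 2) (nat_lit 4) (nat_lit 10) (C.cons (nat_lit 1300) (C.miq (nat_lit 1518776896) (nat_lit 1624838231886170963712215069)) (C.cons (nat_lit 1044) (C.node (nat_lit 2) (nat_lit 7) (nat_lit 10) (C.cons (nat_lit 1412) (C.miq (nat_lit 2207424775) (nat_lit 1871443215929183006598956179)) (C.cons (nat_lit 1156) (C.node (nat_lit 2) (nat_lit 8) (nat_lit 10) C.nil) C.nil))) C.nil)))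 (C.cons (nat_lit 3076) (C.node (nat_lit 5) (nat_lit 10) (nat_lit 11) (C.cons (nat_lit 3104) (C.node (nat_lit 1) (nat_lit 5) (nat_lit 10) (C.cons (nat_lit 1634) (C.miq (nat_lit 352888435) (nat_lit 349403358628422791243302088)) (C.cons (nat_lit 1570) (C.node (nat_lit 1) (nat_lit 6) (nat_lit 10) C.nil) (C.cons (nat_lit 1122) (C.miq (nat_lit 352888435) (nat_lit 349403358484307603167446216)) C.nil)))) C.nil)) C.nil))) C.nil))) C.nil))))) C.nil)))) C.nil))) C.nil)))) C.nil)))) C.nil))) C.nil))))) (C.cons (nat_lit 1034) (C.node (nat_lit 3) (nat_lit 8) (nat_lit 10) (C.cons (nat_lit 1288) (C.node (nat_lit 3) (nat_lit 7) (nat_lit 11) (C.cons (nat_lit 2696) (C.miq (nat_lit 645111993) (nat_lit 1479753759075794124408360705)) (C.cons (nat_lit 2186) (C.node (nat_lit 7) (nat_lit 9) (nat_lit 11) (C.cons (nat_lit 2688) (C.node (nat_lit 2) (nat_lit 3) (nat_lit 7) (C.cons (nat_lit 172) (C.miq (nat_lit 3124037927) (nat_lit 1287547928420011647039177349)) (C.cons (nat_lit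 140) (C.node (nat_lit 2) (nat_lit 7) (nat_lit 11) (C.cons (nat_lit 2436) (C.node (nat_lit 7) (nat_lit 8) (nat_lit 10) (C.cons (nat_lit 1440) (C.miq (nat_lit 1395105976) (nat_lit 169276178357293997216763649)) (C.cons (nat_lit 1408) (C.node (nat_lit 2) (nat_lit 10) (nat_lit 11) (C.cons (nat_lit 3110) (C.miq (nat_lit 1383312256) (nat_lit 169269261403884225267568385)) (C.cons (nat_lit 3108) (C.miq (nat_lit 1383312256) (nat_lit 169269261403321275314147073)) (C.cons (nat_lit 3078) (C.miq (nat_lit 1797802512) (nat_lit 2944949514021211856221701267)) (C.cons (nat_lit 3076) (C.node (nat_lit 1) (nat_lit 2) (nat_lit 10) (C.cons (nat_lit 1062) (C.node (nat_lit 1) (nat_lit 10) (nat_lit 11) (C.cons (nat_lit 3074) (C.node (nat_lit 2) (nat_lit 7) (nat_lit 10) C.nil) C.nil)) (C.cons (nat_lit 1030) (C.node (nat_lit 1) (nat_lit 10) (nat_lit 11) (C.cons (nat_lit 3106) (C.node (nat_lit 1) (nat_lit 8) (nat_lit 10) (C.cons (nat_lit 1346) (C.miq (nat_lit 1747689732) (nat_lit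 2945001441097423450455999635)) C.nil)) (C.cons (nat_lit 3074) (C.node (nat_lit 5) (nat_lit 10) (nat_lit 11) (C.cons (nat_lit 3104) (C.node (nat_lit 2) (nat_lit 7) (nat_lit 10) C.nil) C.nil)) C.nil))) C.nil))) C.nil))))) C.nil))) (C.cons (nat_lit 2180) (C.node (nat_lit 7) (nat_lit 8) (nat_lit 11) (C.cons (nat_lit 2432) (C.node (nat_lit 3) (nat_lit 5) (nat_lit 7) (C.cons (nat_lit 680) (C.miq (nat_lit 1403418912) (nat_lit 1479767132848995284495434373)) (C.cons (nat_lit 184)
  (C.node (nat_lit 3) (nat_lit 7) (nat_lit 9) (C.cons (nat_lit 648) (C.node (nat_lit 4) (nat_lit 7) (nat_lit 9) (C.cons (nat_lit 912) (C.miq (nat_lit 2839873651) (nat_lit 678227031667394770250498441)) (C.cons (nat_lit 656) (C.node (nat_lit 3) (nat_lit 4) (nat_lit 8) (C.cons (nat_lit 792) (C.miq (nat_lit 1647577752) (nat_lit 2510945144199996434189651713)) (C.cons (nat_lit 282) (C.miq (nat_lit 459552520) (nat_lit 3810539386022454006339666313)) (C.cons (nat_lit 280) (C.node (nat_lit 3)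 (nat_lit 5) (nat_lit 11) (C.cons (nat_lit 2600) (C.miq (nat_lit 1094256565) (nat_lit 632278552611492996126869729)) (C.cons (nat_lit 2344) (C.miq (nat_lit 2202711408) (nat_lit 1267025113559896629240334561)) (C.cons (nat_lit 2088) (C.node (nat_lit 3) (nat_lit 8) (nat_lit 11) (C.cons (nat_lit 2376) (C.miq (nat_lit 1178053504) (nat_lit 1479746805232835755185344257)) C.nil)) C.nil)))) C.nil)))) C.nil))) C.nil)) (C.cons (nat_lit 168) (C.node (nat_lit 3) (nat_lit 4) (nat_lit 7) (C.cons (nat_lit 664) (C.node (nat_lit 3) (nat_lit 5) (nat_lit 11) (C.cons (nat_lit 2600) (C.miq (nat_lit 328498000) (nat_lit 802748345976739551931074785)) (C.cons (nat_lit 2344) (C.node (nat_lit 2) (nat_lit 3) (nat_lit 8) (C.cons (nat_lit 332) (C.miq (nat_lit 308938807) (nat_lit 1321377522050129346723053961)) (C.cons (nat_lit 268) (C.node (nat_lit 2) (nat_lit 8) (nat_lit 11) (C.cons (nat_lit 2372) (C.miq (nat_lit 674917200) (nat_lit 1557116618622583653792286945)) (C.cons (nat_lit 2308)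 (C.node (nat_lit 3) (nat_lit 4) (nat_lit 8) (C.cons (nat_lit 282) (C.miq (nat_lit 2474800144) (nat_lit 324004017993548757215937683)) (C.cons (nat_lit 280) (C.node (nat_lit 3) (nat_lit 5) (nat_lit 9) (C.cons (nat_lit 616) (C.miq (nat_lit 2744415824) (nat_lit 802748345705952103120308449)) (C.cons (nat_lit 552) (C.node (nat_lit 5) (nat_lit 7) (nat_lit 9) (C.cons (nat_lit 930) (C.miq (nat_lit 592907145) (nat_lit 203111436429818838103756545)) (C.cons (nat_lit 928) (C.miq (nat_lit 592907145) (nat_lit 203111436429818838103625473)) (C.cons (nat_lit 674) (C.miq (nat_lit 1125714805) (nat_lit 632278552866509324900501729)) C.nil)))) C.nil))) C.nil))) C.nil))) C.nil))) (C.cons (nat_lit 2088) (C.node (nat_lit 3) (nat_lit 8) (nat_lit 11) (C.cons (nat_lit 2376) (C.miq (nat_lit 1178053504) (nat_lit 1479746805232835755185344257)) (C.cons (nat_lit 2312) (C.node (nat_lit 3) (nat_lit 6) (nat_lit 11) (C.cons (nat_lit 2632) (C.node (nat_lit 1) (nat_lit 9) (nat_lit 10) (C.cons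 (nat_lit 1634) (C.miq (nat_lit 1497066016) (nat_lit 3181934687134920290328183877)) (C.cons (nat_lit 1602) (C.node (nat_lit 5) (nat_lit 9) (nat_lit 10) (C.cons (nat_lit 1568) (C.node (nat_lit 1) (nat_lit 7) (nat_lit 9) (C.cons (nat_lit 930) (C.miq (nat_lit 1125714805) (nat_lit 632278552866509324917278945)) (C.cons (nat_lit 898) (C.miq (nat_lit 2184777799) (nat_lit 1871433734013660993188005011)) (C.cons (nat_lit 674) (C.miq (nat_lit 1125714805) (nat_lit 632278552866509324900501729)) (C.cons (nat_lit 642) (C.node (nat_lit 3) (nat_lit 5) (nat_lit 9) C.nil) C.nil))))) C.nil)) (C.cons (nat_lit 1570) (C.miq (nat_lit 1763357444) (nat_lit 1898071681673132521842477085)) (C.cons (nat_lit 1538) (C.miq (nat_lit 1763357444) (nat_lit 1859386055445464388251879453)) C.nil))))) (C.cons (nat_lit 2120) (C.node (nat_lit 3) (nat_lit 9) (nat_lit 11) C.nil) C.nil))) C.nil))) C.nil)))) (C.cons (nat_lit 152) (C.node (nat_lit 3) (nat_lit 7) (nat_lit 9) (C.cons (nat_lit 648) (C.node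 (nat_lit 4) (nat_lit 7) (nat_lit 9) (C.cons (nat_lit 912) (C.node (nat_lit 3) (nat_lit 5) (nat_lit 9) (C.cons (nat_lit 2600) (C.miq (nat_lit 1094256565) (nat_lit 632278552611492996126869729)) (C.cons (nat_lit 872) (C.miq (nat_lit 1245251429) (nat_lit 1871427517716483768328915169)) (C.cons (nat_lit 808) (C.miq (nat_lit 2761230211) (nat_lit 678227030915856582473941385)) (C.cons (nat_lit 616) (C.miq (nat_lit 1245251429) (nat_lit 1871427517716483768312137953)) C.nil))))) (C.cons (nat_lit 656) (C.node (nat_lit 3) (nat_lit 4) (nat_lit 9) (C.cons (nat_lit 792)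
  (C.miq (nat_lit 1647577752) (nat_lit 2510945144199996434189651713)) (C.cons (nat_lit 600) (C.node (nat_lit 3) (nat_lit 6) (nat_lit 11) (C.cons (nat_lit 2376) (C.miq (nat_lit 1178053504) (nat_lit 1479746805232835755185344257)) C.nil)) C.nil))) C.nil))) C.nil)) C.nil))) C.nil)))) C.nil)) C.nil))) C.nil))) C.nil)) (C.cons (nat_lit 2184) (C.node (nat_lit 7) (nat_lit 9) (nat_lit 11) (C.cons (nat_lit 2690) (C.node (nat_lit 2) (nat_lit 7) (nat_lit 11) (C.cons (nat_lit 2436) (C.node (nat_lit 2) (nat_lit 6) (nat_lit 7) (C.cons (nat_lit 198) (C.miq (nat_lit 313095691) (nat_lit 1871466790560740981178697953)) (C.cons (nat_lit 196) (C.node (nat_lit 7) (nat_lit 8) (nat_lit 10) (C.cons (nat_lit 1440) (C.miq (nat_lit 681817936) (nat_lit 1557134770236762699850123489)) (C.cons (nat_lit 1408) (C.node (nat_lit 1) (nat_lit 3) (nat_lit 7) (C.cons (nat_lit 174) (C.miq (nat_lit 2436544336) (nat_lit 1250100152182682119779715297)) (C.cons (nat_lit 170) (C.miq (nat_lit 2436544336)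 (nat_lit 1250100152182682102599846113)) (C.cons (nat_lit 142) (C.miq (nat_lit 2266608176) (nat_lit 3252081309393013251534161949)) (C.cons (nat_lit 138) (C.node (nat_lit 2) (nat_lit 3) (nat_lit 7) (C.cons (nat_lit 172) (C.miq (nat_lit 2184886096) (nat_lit 1871488023393106862904248545)) (C.cons (nat_lit 140) (C.node (nat_lit 2) (nat_lit 10) (nat_lit 11) (C.cons (nat_lit 3110) (C.miq (nat_lit 1383312256) (nat_lit 169269261403884225267568385)) (C.cons (nat_lit 3108) (C.miq (nat_lit 1383312256) (nat_lit 169269261403321275314147073)) (C.cons (nat_lit 3078) (C.miq (nat_lit 1797802512) (nat_lit 2944949514021211856221701267)) (C.cons (nat_lit 3076) (C.node (nat_lit 1) (nat_lit 2) (nat_lit 7) (C.cons (nat_lit 166) (C.node (nat_lit 2) (nat_lit 7) (nat_lit 10) C.nil) (C.cons (nat_lit 134) (C.node (nat_lit 1) (nat_lit 2) (nat_lit 10) (C.cons (nat_lit 1062) (C.node (nat_lit 1) (nat_lit 10) (nat_lit 11) C.nil) (C.cons (nat_lit 1030) (C.node (nat_lit 2) (nat_lit 7)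 (nat_lit 10) C.nil) C.nil))) C.nil))) C.nil))))) C.nil))) C.nil))))) C.nil))) C.nil))) (C.cons (nat_lit 2180) (C.node (nat_lit 7) (nat_lit 8) (nat_lit 11) (C.cons (nat_lit 2432) (C.node (nat_lit 6) (nat_lit 7) (nat_lit 9) (C.cons (nat_lit 960) (C.node (nat_lit 1) (nat_lit 6) (nat_lit 7) (C.cons (nat_lit 198) (C.miq (nat_lit 313095691) (nat_lit 1871466790560740981178697953)) (C.cons (nat_lit 194) (C.node (nat_lit 2) (nat_lit 6) (nat_lit 7) (C.cons (nat_lit 196) (C.node (nat_lit 5) (nat_lit 7) (nat_lit 9) (C.cons (nat_lit 680) (C.miq (nat_lit 1403418912) (nat_lit 1479767132848995284495434373)) (C.cons (nat_lit 672) (C.node (nat_lit 4) (nat_lit 8) (nat_lit 9) (C.cons (nat_lit 792) (C.miq (nat_lit 1647577752) (nat_lit 2510945144199996434189651713)) (C.cons (nat_lit 788) (C.miq (nat_lit 3062106002) (nat_lit 407446315737367871898256005)) (C.cons (nat_lit 786) (C.miq (nat_lit 1729366936) (nat_lit 1415658351961287779276689153)) (C.cons (nat_lit 784) (C.node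 (nat_lit 1) (nat_lit 7) (nat_lit 8) (C.cons (nat_lit 418) (C.node (nat_lit 1) (nat_lit 8) (nat_lit 9) (C.cons (nat_lit 770) (C.node (nat_lit 1) (nat_lit 2) (nat_lit 7) (C.cons (nat_lit 142) (C.node (nat_lit 3) (nat_lit 5) (nat_lit 7) (C.cons (nat_lit 184) (C.miq (nat_lit 1409839905) (nat_lit 407415712000953158847627406)) C.nil)) C.nil)) C.nil)) (C.cons (nat_lit 386) (C.node (nat_lit 3) (nat_lit 7) (nat_lit 9) (C.cons (nat_lit 648) (C.node (nat_lit 4) (nat_lit 7) (nat_lit 9) C.nil) C.nil)) C.nil))) C.nil))))) C.nil))) C.nil)) C.nil))) (C.cons (nat_lit 704) (C.node (nat_lit 1) (nat_lit 6) (nat_lit 7) (C.cons (nat_lit 450) (C.node (nat_lit 2) (nat_lit 6) (nat_lit 7) (C.cons (nat_lit 196) (C.node (nat_lit 6) (nat_lit 8) (nat_lit 11) (C.cons (nat_lit 2376) (C.miq (nat_lit 1178053504) (nat_lit 1479746805232835755185344257)) (C.cons (nat_lit 2372) (C.miq (nat_lit 1115753319) (nat_lit 317969092280591501152618721)) (C.cons (nat_lit 2368) (C.node (nat_lit 2)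 (nat_lit 6) (nat_lit 11) (C.cons (nat_lit 2628) (C.miq (nat_lit 1177004944) (nat_lit 236971062668998045935668993))
  (C.cons (nat_lit 2118) (C.miq (nat_lit 840436583) (nat_lit 317954740713701064199768289)) (C.cons (nat_lit 2116) (C.node (nat_lit 1) (nat_lit 3) (nat_lit 7) (C.cons (nat_lit 174) (C.miq (nat_lit 2436544336) (nat_lit 1250100152182682119779715297)) (C.cons (nat_lit 170) (C.miq (nat_lit 2436544336) (nat_lit 1250100152182682102599846113)) (C.cons (nat_lit 142) (C.miq (nat_lit 1181943826) (nat_lit 1479763517190606204475146503)) (C.cons (nat_lit 138) (C.node (nat_lit 2) (nat_lit 3) (nat_lit 7) (C.cons (nat_lit 172) (C.miq (nat_lit 3124037927) (nat_lit 1287547928420011647039177349)) (C.cons (nat_lit 140) (C.node (nat_lit 1) (nat_lit 2) (nat_lit 7) (C.cons (nat_lit 134) (C.node (nat_lit 1) (nat_lit 5) (nat_lit 7) C.nil) C.nil)) C.nil))) C.nil))))) C.nil)))) C.nil)))) C.nil)) (C.cons (nat_lit 198) (C.miq (nat_lit 313095691) (nat_lit 1871466790560740981178697953))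 (C.cons (nat_lit 194) (C.node (nat_lit 1) (nat_lit 7) (nat_lit 8) (C.cons (nat_lit 418) (C.node (nat_lit 5) (nat_lit 7) (nat_lit 9) (C.cons (nat_lit 680) (C.miq (nat_lit 1403418912) (nat_lit 1479767132848995284495434373)) (C.cons (nat_lit 672) (C.node (nat_lit 1) (nat_lit 2) (nat_lit 7) (C.cons (nat_lit 142) (C.node (nat_lit 3) (nat_lit 5) (nat_lit 7) (C.cons (nat_lit 184) (C.miq (nat_lit 1409839905) (nat_lit 407415712000953158847627406)) C.nil)) (C.cons (nat_lit 134) (C.node (nat_lit 1) (nat_lit 3) (nat_lit 7) (C.cons (nat_lit 138) (C.node (nat_lit 2) (nat_lit 3) (nat_lit 7) C.nil) C.nil)) C.nil))) C.nil))) (C.cons (nat_lit 386) (C.node (nat_lit 2) (nat_lit 6) (nat_lit 7) (C.cons (nat_lit 452) (C.node (nat_lit 2) (nat_lit 3) (nat_lit 8) (C.cons (nat_lit 300) (C.node (nat_lit 2) (nat_lit 8) (nat_lit 11) (C.cons (nat_lit 2308) (C.node (nat_lit 2) (nat_lit 8) (nat_lit 9) (C.cons (nat_lit 788) (C.miq (nat_lit 1418070311) (nat_lit 407449930817320420085334661))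 (C.cons (nat_lit 772) (C.node (nat_lit 7) (nat_lit 8) (nat_lit 10) (C.cons (nat_lit 1440) (C.miq (nat_lit 1199704659) (nat_lit 546472784682866864206644265)) (C.cons (nat_lit 1408) (C.node (nat_lit 2) (nat_lit 3) (nat_lit 7) (C.cons (nat_lit 140) (C.node (nat_lit 1) (nat_lit 2) (nat_lit 7) C.nil) C.nil)) C.nil))) C.nil))) C.nil)) (C.cons (nat_lit 268) (C.node (nat_lit 2) (nat_lit 4) (nat_lit 7) (C.cons (nat_lit 180) (C.node (nat_lit 2) (nat_lit 7) (nat_lit 10) C.nil) (C.cons (nat_lit 148) (C.node (nat_lit 2) (nat_lit 7) (nat_lit 10) (C.cons (nat_lit 1156) (C.node (nat_lit 5) (nat_lit 7) (nat_lit 10) C.nil) C.nil)) C.nil))) C.nil))) (C.cons (nat_lit 196) (C.node (nat_lit 6) (nat_lit 7) (nat_lit 8) (C.cons (nat_lit 448) (C.node (nat_lit 3) (nat_lit 7) (nat_lit 9) (C.cons (nat_lit 680) (C.miq (nat_lit 1403418912) (nat_lit 1479767132848995284495434373)) (C.cons (nat_lit 664) (C.node (nat_lit 5) (nat_lit 7) (nat_lit 9) C.nil) C.nil))) C.nil)) C.nil))) C.nil)))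 C.nil)))) C.nil))) C.nil)) C.nil))) (C.cons (nat_lit 2688) (C.node (nat_lit 3) (nat_lit 7) (nat_lit 9) (C.cons (nat_lit 680) (C.miq (nat_lit 1403418912) (nat_lit 1479767132848995284495434373)) (C.cons (nat_lit 664) (C.ref (nat_lit 275) (nat_lit 198128827013136)) (C.cons (nat_lit 648) (C.node (nat_lit 3) (nat_lit 4) (nat_lit 7) (C.cons (nat_lit 184) (C.node (nat_lit 4) (nat_lit 7) (nat_lit 9) (C.cons (nat_lit 912) (C.miq (nat_lit 2839873651) (nat_lit 678227031667394770250498441)) (C.cons (nat_lit 656) (C.node (nat_lit 9) (nat_lit 5) (nat_lit 3) (C.cons (nat_lit 2600) (C.miq (nat_lit 1470706699) (nat_lit 2011700525425131016918468637)) (C.cons (nat_lit 872) (C.miq (nat_lit 1245251429) (nat_lit 1871427517716483768328915169)) (C.cons (nat_lit 616) (C.miq (nat_lit 1245251429) (nat_lit 1871427517716483768312137953)) (C.cons (nat_lit 808) (C.miq (nat_lit 2757297976) (nat_lit 678278239077402073453035913)) (C.cons (nat_lit 552) (C.node (nat_lit 1) (nat_lit 7)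 (nat_lit 3) (C.cons (nat_lit 142) (C.node (nat_lit 7) (nat_lit 2) (nat_lit 11) (C.cons (nat_lit 2436) (C.miq (nat_lit 3073999376) (nat_lit 783454785739940476784148743)) (C.cons (nat_lit 2180)
  (C.node (nat_lit 1) (nat_lit 5) (nat_lit 7) (C.cons (nat_lit 930) (C.miq (nat_lit 3025732472) (nat_lit 678278239332418402360885641)) (C.cons (nat_lit 674) (C.miq (nat_lit 356743426) (nat_lit 222444970436466778818019973)) (C.cons (nat_lit 418) (C.miq (nat_lit 2152010295) (nat_lit 678215095616866617136775310)) (C.cons (nat_lit 162) (C.node (nat_lit 9) (nat_lit 5) (nat_lit 7) (C.cons (nat_lit 928) (C.miq (nat_lit 3025732472) (nat_lit 678278239332418402360754569)) (C.cons (nat_lit 672) (C.node (nat_lit 1) (nat_lit 7) (nat_lit 11) (C.cons (nat_lit 2178) (C.node (nat_lit 8) (nat_lit 7) (nat_lit 11) C.nil) C.nil)) C.nil))) C.nil))))) C.nil))) (C.cons (nat_lit 138) (C.node (nat_lit 7) (nat_lit 2) (nat_lit 3) (C.cons (nat_lit 140) (C.node (nat_lit 8) (nat_lit 7) (nat_lit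 4) (C.cons (nat_lit 404) (C.node (nat_lit 8) (nat_lit 10) (nat_lit 7) C.nil) (C.cons (nat_lit 400) (C.node (nat_lit 7) (nat_lit 2) (nat_lit 4) C.nil) C.nil))) C.nil)) C.nil))) C.nil)))))) C.nil))) (C.cons (nat_lit 152) (C.node (nat_lit 4) (nat_lit 7) (nat_lit 9) (C.cons (nat_lit 912) (C.node (nat_lit 2) (nat_lit 4) (nat_lit 7) (C.cons (nat_lit 180) (C.node (nat_lit 2) (nat_lit 3) (nat_lit 7) (C.cons (nat_lit 142) (C.miq (nat_lit 1379485456) (nat_lit 1871427517437537419231167635)) (C.cons (nat_lit 140) (C.node (nat_lit 2) (nat_lit 7) (nat_lit 10) (C.cons (nat_lit 1412) (C.miq (nat_lit 1352812935) (nat_lit 1321359241410646914669740944)) (C.cons (nat_lit 1156) (C.node (nat_lit 4) (nat_lit 5) (nat_lit 10) (C.cons (nat_lit 1328) (C.miq (nat_lit 2686814580) (nat_lit 44754753683019321560007568)) (C.cons (nat_lit 1072) (C.node (nat_lit 5) (nat_lit 7) (nat_lit 9) (C.cons (nat_lit 674) (C.miq (nat_lit 1496477956) (nat_lit 1871420489367095610871448723)) (C.cons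 (nat_lit 672) (C.node (nat_lit 1) (nat_lit 3) (nat_lit 7) (C.cons (nat_lit 138) (C.node (nat_lit 3) (nat_lit 5) (nat_lit 7) C.nil) C.nil)) C.nil))) C.nil))) C.nil))) C.nil))) (C.cons (nat_lit 148) (C.node (nat_lit 4) (nat_lit 5) (nat_lit 7) (C.cons (nat_lit 176) (C.node (nat_lit 3) (nat_lit 4) (nat_lit 9) (C.cons (nat_lit 600) (C.node (nat_lit 3) (nat_lit 8) (nat_lit 9) (C.cons (nat_lit 808) (C.miq (nat_lit 2761230211) (nat_lit 678227030915856582473941385)) (C.cons (nat_lit 776) (C.node (nat_lit 1) (nat_lit 4) (nat_lit 9) (C.cons (nat_lit 534) (C.node (nat_lit 6) (nat_lit 7) (nat_lit 9) (C.cons (nat_lit 706) (C.miq (nat_lit 347509255) (nat_lit 3810547206976943755976835717)) (C.cons (nat_lit 704) (C.node (nat_lit 2) (nat_lit 3) (nat_lit 7) (C.cons (nat_lit 174) (C.miq (nat_lit 3124037927) (nat_lit 1287547928420011647039308421)) (C.cons (nat_lit 172) (C.miq (nat_lit 3124037927) (nat_lit 1287547928420011647039177349)) (C.cons (nat_lit 142) (C.node (nat_lit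 3) (nat_lit 5) (nat_lit 7) C.nil) C.nil)))) C.nil))) (C.cons (nat_lit 530) (C.node (nat_lit 2) (nat_lit 4) (nat_lit 9) (C.cons (nat_lit 532) (C.node (nat_lit 3) (nat_lit 5) (nat_lit 9) (C.cons (nat_lit 2600) (C.node (nat_lit 5) (nat_lit 7) (nat_lit 9) C.nil) C.nil)) C.nil)) C.nil))) C.nil))) (C.cons (nat_lit 536) (C.node (nat_lit 5) (nat_lit 7) (nat_lit 9) (C.cons (nat_lit 674) (C.node (nat_lit 6) (nat_lit 7) (nat_lit 9) (C.cons (nat_lit 704) (C.node (nat_lit 1) (nat_lit 3) (nat_lit 7) (C.cons (nat_lit 138) (C.node (nat_lit 2) (nat_lit 3) (nat_lit 7) C.nil) C.nil)) C.nil)) (C.cons (nat_lit 672) (C.node (nat_lit 1) (nat_lit 7) (nat_lit 9) (C.cons (nat_lit 706) (C.node (nat_lit 2) (nat_lit 6) (nat_lit 7) (C.cons (nat_lit 196) (C.node (nat_lit 6) (nat_lit 7) (nat_lit 8) C.nil) C.nil)) (C.cons (nat_lit 642) (C.node (nat_lit 6) (nat_lit 7) (nat_lit 9) C.nil) C.nil))) C.nil))) C.nil))) C.nil)) C.nil))) (C.cons (nat_lit 656) (C.node (nat_lit 3) (nat_lit 4)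 (nat_lit 9) (C.cons (nat_lit 792) (C.miq (nat_lit 1647577752) (nat_lit 2510945144199996434189651713)) (C.cons (nat_lit 600) (C.node (nat_lit 3) (nat_lit 8) (nat_lit 9) (C.cons (nat_lit 808) (C.node (nat_lit 3) (nat_lit 9) (nat_lit 11) (C.cons (nat_lit 2568) (C.node (nat_lit 2) (nat_lit 3) (nat_lit 8) (C.cons (nat_lit 332)
  (C.miq (nat_lit 308938807) (nat_lit 1321377522050129346723053961)) (C.cons (nat_lit 268) (C.node (nat_lit 3) (nat_lit 4) (nat_lit 5) (C.cons (nat_lit 58) (C.miq (nat_lit 2199557440) (nat_lit 1250100151652945715400999473)) C.nil)) C.nil))) C.nil)) (C.cons (nat_lit 776) (C.node (nat_lit 3) (nat_lit 5) (nat_lit 9) (C.cons (nat_lit 2600) (C.node (nat_lit 2) (nat_lit 9) (nat_lit 11) (C.cons (nat_lit 2630) (C.miq (nat_lit 658935979) (nat_lit 251505085598313114051284737)) (C.cons (nat_lit 2628) (C.miq (nat_lit 658935979) (nat_lit 251505048704824966632181505)) (C.cons (nat_lit 2566) (C.miq (nat_lit 1654327861) (nat_lit 3102145582888076802431386665))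 (C.cons (nat_lit 2564) (C.miq (nat_lit 1654327861) (nat_lit 3099727731248847544081974313)) C.nil))))) (C.cons (nat_lit 552) (C.node (nat_lit 3) (nat_lit 9) (nat_lit 11) (C.cons (nat_lit 2568) (C.node (nat_lit 1) (nat_lit 4) (nat_lit 9) C.nil) C.nil)) C.nil))) C.nil))) (C.cons (nat_lit 536) (C.node (nat_lit 8) (nat_lit 2) (nat_lit 3) (C.cons (nat_lit 364) (C.miq (nat_lit 442631992) (nat_lit 1321360772662093528357929353)) (C.cons (nat_lit 332) (C.miq (nat_lit 442631992) (nat_lit 1321360772662093528355832201)) (C.cons (nat_lit 300) (C.node (nat_lit 9) (nat_lit 5) (nat_lit 3) (C.cons (nat_lit 2600) (C.miq (nat_lit 1697778586) (nat_lit 362697908815465106031513345)) (C.cons (nat_lit 616) (C.miq (nat_lit 2744415824) (nat_lit 648005840795279568757917921)) (C.cons (nat_lit 552) (C.node (nat_lit 8) (nat_lit 9) (nat_lit 3) (C.cons (nat_lit 840) (C.node (nat_lit 9) (nat_lit 3) (nat_lit 11) C.nil) (C.cons (nat_lit 776) (C.node (nat_lit 8) (nat_lit 3) (nat_lit 4)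 C.nil) C.nil))) C.nil)))) (C.cons (nat_lit 268) (C.node (nat_lit 5) (nat_lit 7) (nat_lit 3) (C.cons (nat_lit 174) (C.miq (nat_lit 1403744912) (nat_lit 3723533453911320694714598021)) (C.cons (nat_lit 172) (C.miq (nat_lit 1403744912) (nat_lit 3723533453910757744761176709)) (C.cons (nat_lit 170) (C.node (nat_lit 7) (nat_lit 2) (nat_lit 3) (C.cons (nat_lit 140) (C.node (nat_lit 1) (nat_lit 2) (nat_lit 3) C.nil) C.nil)) (C.cons (nat_lit 168) (C.node (nat_lit 1) (nat_lit 7) (nat_lit 3) (C.cons (nat_lit 142) (C.node (nat_lit 5) (nat_lit 2) (nat_lit 3) C.nil) (C.cons (nat_lit 138) (C.node (nat_lit 7) (nat_lit 2) (nat_lit 3) C.nil) C.nil))) C.nil))))) C.nil))))) C.nil)))) C.nil))) C.nil))) C.nil)))) C.nil))) C.nil)))) C.nil)) C.nil))) C.nil))) (C.cons (nat_lit 1544) (C.node (nat_lit 7) (nat_lit 9) (nat_lit 10) (C.cons (nat_lit 1696) (C.ref (nat_lit 274) (nat_lit 198128827013136)) (C.cons (nat_lit 1664) (C.ref (nat_lit 276) (nat_lit 198128827013136)) C.nil)))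 C.nil))) (C.cons (nat_lit 1216) (C.node (nat_lit 2) (nat_lit 7) (nat_lit 11) (C.cons (nat_lit 2436) (C.node (nat_lit 2) (nat_lit 4) (nat_lit 7) (C.cons (nat_lit 180) (C.node (nat_lit 2) (nat_lit 4) (nat_lit 10) (C.cons (nat_lit 1300) (C.miq (nat_lit 2552499061) (nat_lit 1571613915203599126274246881)) (C.cons (nat_lit 1044) (C.node (nat_lit 2) (nat_lit 4) (nat_lit 8) (C.cons (nat_lit 788) (C.node (nat_lit 4) (nat_lit 7) (nat_lit 8) (C.cons (nat_lit 400) (C.node (nat_lit 1) (nat_lit 2) (nat_lit 4) (C.cons (nat_lit 86) (C.miq (nat_lit 1653293322) (nat_lit 2945001440742764979916178579)) (C.cons (nat_lit 22) (C.node (nat_lit 2) (nat_lit 4) (nat_lit 6) (C.cons (nat_lit 84) (C.node (nat_lit 4) (nat_lit 5) (nat_lit 10) (C.cons (nat_lit 1328) (C.miq (nat_lit 1385711370) (nat_lit 952658043183125942266561683)) (C.cons (nat_lit 1072) (C.node (nat_lit 4) (nat_lit 8) (nat_lit 10) (C.cons (nat_lit 1296) (C.node (nat_lit 4) (nat_lit 5) (nat_lit 11) (C.cons (nat_lit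 2354) (C.miq (nat_lit 1678945152) (nat_lit 26616531210013643345694465)) (C.cons (nat_lit 2096) (C.miq (nat_lit 2337548041) (nat_lit 2533923054632275639075406469)) C.nil))) C.nil)) C.nil))) C.nil)) C.nil))) C.nil)) (C.cons (nat_lit 276) (C.miq (nat_lit 2552499061) (nat_lit 333673875918218851375122657)) C.nil))) C.nil))) (C.cons (nat_lit 148) (C.node (nat_lit 7) (nat_lit 8) (nat_lit 10) (C.cons (nat_lit 1440)
  (C.node (nat_lit 2) (nat_lit 7) (nat_lit 10) (C.cons (nat_lit 1164) (C.miq (nat_lit 1395105976) (nat_lit 1407216217642674272115887873)) (C.cons (nat_lit 1156) (C.node (nat_lit 4) (nat_lit 5) (nat_lit 7) (C.cons (nat_lit 184) (C.miq (nat_lit 659798176) (nat_lit 222480665382212090974506753)) (C.cons (nat_lit 176) (C.node (nat_lit 4) (nat_lit 8) (nat_lit 10) (C.cons (nat_lit 1300) (C.miq (nat_lit 847907701) (nat_lit 1571623211866090417053239521)) (C.cons (nat_lit 1296) (C.node (nat_lit 2) (nat_lit 8) (nat_lit 10) (C.cons (nat_lit 1292) (C.node (nat_lit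 1) (nat_lit 8) (nat_lit 10) (C.cons (nat_lit 1346) (C.miq (nat_lit 1747689732) (nat_lit 2945001441097423450455999635)) (C.cons (nat_lit 1282) (C.node (nat_lit 6) (nat_lit 8) (nat_lit 10) (C.cons (nat_lit 1344) (C.node (nat_lit 2) (nat_lit 4) (nat_lit 10) (C.cons (nat_lit 1076) (C.miq (nat_lit 1379443719) (nat_lit 1561958722556443031088202899)) (C.cons (nat_lit 1044) (C.node (nat_lit 4) (nat_lit 5) (nat_lit 10) (C.cons (nat_lit 1072) (C.node (nat_lit 2) (nat_lit 10) (nat_lit 11) (C.cons (nat_lit 3110) (C.miq (nat_lit 1779976992) (nat_lit 1549849118185929926049728541)) (C.cons (nat_lit 3076) (C.miq (nat_lit 1529481091) (nat_lit 3718675467556840926756995465)) C.nil))) C.nil)) C.nil))) C.nil)) C.nil))) (C.cons (nat_lit 1284) (C.miq (nat_lit 847907701) (nat_lit 1552280398752256350257940705)) C.nil))) C.nil))) C.nil))) C.nil))) (C.cons (nat_lit 1408) (C.node (nat_lit 1) (nat_lit 10) (nat_lit 11) (C.cons (nat_lit 3110) (C.miq (nat_lit 1797802512) (nat_lit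 2944949514021211993660654739)) (C.cons (nat_lit 3106) (C.node (nat_lit 2) (nat_lit 10) (nat_lit 11) (C.cons (nat_lit 3076) (C.node (nat_lit 1) (nat_lit 4) (nat_lit 11) (C.cons (nat_lit 2322) (C.miq (nat_lit 1803723792) (nat_lit 2944963459759728333647447187)) (C.cons (nat_lit 2066) (C.node (nat_lit 1) (nat_lit 8) (nat_lit 10) (C.cons (nat_lit 1354) (C.miq (nat_lit 1747689732) (nat_lit 2945001441099675250269684883)) (C.cons (nat_lit 1346) (C.miq (nat_lit 1747689732) (nat_lit 2945001441097423450455999635)) (C.cons (nat_lit 1290) (C.miq (nat_lit 410755845) (nat_lit 2945000592531434019479421993)) (C.cons (nat_lit 1282) (C.node (nat_lit 2) (nat_lit 5) (nat_lit 11) (C.cons (nat_lit 2596) (C.node (nat_lit 3) (nat_lit 5) (nat_lit 11) (C.cons (nat_lit 2344) (C.miq (nat_lit 461874480) (nat_lit 2944964898592818328561583145)) (C.cons (nat_lit 2088) (C.node (nat_lit 4) (nat_lit 5) (nat_lit 11) (C.cons (nat_lit 2352) (C.miq (nat_lit 2215097746) (nat_lit 1415697071699325874791057956))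 (C.cons (nat_lit 2096) (C.node (nat_lit 4) (nat_lit 8) (nat_lit 11) (C.cons (nat_lit 2320) (C.node (nat_lit 5) (nat_lit 8) (nat_lit 11) (C.cons (nat_lit 2336) (C.node (nat_lit 5) (nat_lit 7) (nat_lit 10) (C.cons (nat_lit 1696) (C.miq (nat_lit 1463982603) (nat_lit 178968909527967057896607489)) (C.cons (nat_lit 1188) (C.miq (nat_lit 354921360) (nat_lit 1436225475713762200876551937)) (C.cons (nat_lit 1184) (C.node (nat_lit 7) (nat_lit 9) (nat_lit 11) (C.cons (nat_lit 2696) (C.miq (nat_lit 314116211) (nat_lit 3138381075440766269224649097)) (C.cons (nat_lit 2690) (C.miq (nat_lit 1376434545) (nat_lit 1321413217156594439692683906)) (C.cons (nat_lit 2688) (C.node (nat_lit 3) (nat_lit 8) (nat_lit 11) (C.cons (nat_lit 2376) (C.miq (nat_lit 927367339) (nat_lit 251500400054386697694088961)) (C.cons (nat_lit 2314) (C.miq (nat_lit 422260856) (nat_lit 3138414113632578084672897417)) C.nil))) C.nil)))) C.nil)))) C.nil)) C.nil)) C.nil))) C.nil))) (C.cons (nat_lit 2084)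 (C.node (nat_lit 4) (nat_lit 5) (nat_lit 11) (C.cons (nat_lit 2352) (C.node (nat_lit 2) (nat_lit 4) (nat_lit 8) (C.cons (nat_lit 1300) (C.miq (nat_lit 2458126261) (nat_lit 1571613914304005100849334497)) (C.cons (nat_lit 788) (C.miq (nat_lit 1461980041) (nat_lit 178931370566193553570270977)) (C.cons (nat_lit 276) (C.miq (nat_lit 2458126261) (nat_lit 333673875018624825950210273)) C.nil)))) (C.cons (nat_lit 2096) (C.node (nat_lit 4) (nat_lit 8) (nat_lit 11) (C.cons (nat_lit 2320) (C.node (nat_lit 5) (nat_lit 8) (nat_lit 11)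
  (C.cons (nat_lit 2344) (C.miq (nat_lit 461874480) (nat_lit 2944964898592818328561583145)) (C.cons (nat_lit 2336) (C.node (nat_lit 3) (nat_lit 5) (nat_lit 11) (C.cons (nat_lit 2600) (C.node (nat_lit 3) (nat_lit 7) (nat_lit 11) (C.cons (nat_lit 2186) (C.miq (nat_lit 1094256565) (nat_lit 632278552611492996126869729)) (C.cons (nat_lit 2184) (C.node (nat_lit 1) (nat_lit 7) (nat_lit 11) (C.cons (nat_lit 2690) (C.miq (nat_lit 2710767541) (nat_lit 632287849770508310404401377)) C.nil)) C.nil))) (C.cons (nat_lit 2088) (C.node (nat_lit 5) (nat_lit 9) (nat_lit 11) C.nil) C.nil))) C.nil))) C.nil)) C.nil))) C.nil))) C.nil))))) C.nil))) C.nil)) (C.cons (nat_lit 3078) (C.miq (nat_lit 1797802512) (nat_lit 2944949514021211856221701267)) (C.cons (nat_lit 3074) (C.node (nat_lit 2) (nat_lit 10) (nat_lit 11) (C.cons (nat_lit 3108) (C.node (nat_lit 2) (nat_lit 8) (nat_lit 10) (C.cons (nat_lit 1300) (C.miq (nat_lit 942278581) (nat_lit 1571623211392086556381808865)) (C.cons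 (nat_lit 1292) (C.miq (nat_lit 1468664611) (nat_lit 1702187200439639463347095581)) (C.cons (nat_lit 1284) (C.miq (nat_lit 942278581) (nat_lit 1552280398278252489586510049)) C.nil)))) (C.cons (nat_lit 3076) (C.node (nat_lit 5) (nat_lit 10) (nat_lit 11) (C.cons (nat_lit 3104) (C.node (nat_lit 4) (nat_lit 8) (nat_lit 11) (C.cons (nat_lit 2354) (C.miq (nat_lit 1803723792) (nat_lit 2944963459759728471086400659)) (C.cons (nat_lit 2352) (C.node (nat_lit 2) (nat_lit 4) (nat_lit 8) (C.cons (nat_lit 1300) (C.miq (nat_lit 2458126261) (nat_lit 1571613914304005100849334497)) (C.cons (nat_lit 788) (C.miq (nat_lit 1461980041) (nat_lit 178931370566193553570270977)) (C.cons (nat_lit 276) (C.miq (nat_lit 2458126261) (nat_lit 333673875018624825950210273)) C.nil)))) (C.cons (nat_lit 2322) (C.miq (nat_lit 1803723792) (nat_lit 2944963459759728333647447187)) (C.cons (nat_lit 2320) (C.node (nat_lit 1) (nat_lit 4) (nat_lit 11) (C.cons (nat_lit 2098) (C.node (nat_lit 2) (nat_lit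 5) (nat_lit 11) (C.cons (nat_lit 2596) (C.miq (nat_lit 388710549) (nat_lit 2944981998179913280375751217)) (C.cons (nat_lit 2084) (C.node (nat_lit 1) (nat_lit 2) (nat_lit 4) (C.cons (nat_lit 598) (C.miq (nat_lit 1653293322) (nat_lit 2945001440886880167992034451)) (C.cons (nat_lit 534) (C.miq (nat_lit 460473609) (nat_lit 2944953147733116294126699057)) (C.cons (nat_lit 86) (C.miq (nat_lit 1653293322) (nat_lit 2945001440742764979916178579)) (C.cons (nat_lit 22) (C.node (nat_lit 5) (nat_lit 8) (nat_lit 11) (C.cons (nat_lit 2344) (C.node (nat_lit 5) (nat_lit 9) (nat_lit 11) (C.cons (nat_lit 2592) (C.node (nat_lit 5) (nat_lit 7) (nat_lit 4) (C.cons (nat_lit 184) (C.miq (nat_lit 1470641163) (nat_lit 1702210793237303078548473885)) (C.cons (nat_lit 432) (C.miq (nat_lit 361188144) (nat_lit 522277555801374685926066205)) (C.cons (nat_lit 176) (C.node (nat_lit 7) (nat_lit 3) (nat_lit 11) (C.cons (nat_lit 2696) (C.miq (nat_lit 414384761) (nat_lit 2833731768897879717198692997))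 (C.cons (nat_lit 2186) (C.miq (nat_lit 1476703089) (nat_lit 407446703138975707923941514)) (C.cons (nat_lit 2184) (C.node (nat_lit 9) (nat_lit 2) (nat_lit 11) (C.cons (nat_lit 2628) (C.miq (nat_lit 2544246859) (nat_lit 1470102274876371174736005149)) (C.cons (nat_lit 2566) (C.miq (nat_lit 327913586) (nat_lit 2833769455669197025122189957)) C.nil))) C.nil)))) C.nil)))) C.nil)) (C.cons (nat_lit 2336) (C.node (nat_lit 9) (nat_lit 5) (nat_lit 11) (C.cons (nat_lit 2600) (C.node (nat_lit 9) (nat_lit 7) (nat_lit 11) (C.cons (nat_lit 2690) (C.miq (nat_lit 2710767541) (nat_lit 632287849770508310404401377)) (C.cons (nat_lit 2688) (C.node (nat_lit 1) (nat_lit 7) (nat_lit 11) (C.cons (nat_lit 2186) (C.miq (nat_lit 1094256565) (nat_lit 632278552611492996126869729)) C.nil)) C.nil))) (C.cons (nat_lit 2592) (C.node (nat_lit 5) (nat_lit 3) (nat_lit 11) C.nil) C.nil))) C.nil))) C.nil))))) C.nil))) (C.cons (nat_lit 2066) (C.node (nat_lit 4) (nat_lit 5) (nat_lit 11) (C.cons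 (nat_lit 2096) (C.node (nat_lit 2) (nat_lit 6) (nat_lit 11) (C.cons (nat_lit 2630)
  (C.miq (nat_lit 658935979) (nat_lit 251505085598313114051284737)) (C.cons (nat_lit 2628) (C.miq (nat_lit 658935979) (nat_lit 251505048704824966632181505)) (C.cons (nat_lit 2118) (C.node (nat_lit 6) (nat_lit 8) (nat_lit 11) (C.cons (nat_lit 2376) (C.miq (nat_lit 927367339) (nat_lit 251500400054386697694088961)) (C.cons (nat_lit 2368) (C.node (nat_lit 2) (nat_lit 5) (nat_lit 11) (C.cons (nat_lit 2596) (C.node (nat_lit 3) (nat_lit 8) (nat_lit 11) (C.cons (nat_lit 2344) (C.miq (nat_lit 1393145970) (nat_lit 632316092065845441741523332)) (C.cons (nat_lit 2314) (C.miq (nat_lit 2461075331) (nat_lit 2560514533772496964793532809)) C.nil))) C.nil)) C.nil))) (C.cons (nat_lit 2116) (C.node (nat_lit 6) (nat_lit 8) (nat_lit 11) (C.cons (nat_lit 2378) (C.miq (nat_lit 927367339) (nat_lit 251500436947874845113192193)) (C.cons (nat_lit 2376) (C.miq (nat_lit 927367339) (nat_lit 251500400054386697694088961))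 (C.cons (nat_lit 2370) (C.node (nat_lit 8) (nat_lit 5) (nat_lit 11) (C.cons (nat_lit 2344) (C.node (nat_lit 9) (nat_lit 2) (nat_lit 11) (C.cons (nat_lit 2596) (C.miq (nat_lit 1493414520) (nat_lit 632311443557271643380844932)) (C.cons (nat_lit 2566) (C.miq (nat_lit 951125801) (nat_lit 2865163840244451822704919173)) C.nil))) C.nil)) (C.cons (nat_lit 2368) (C.node (nat_lit 1) (nat_lit 6) (nat_lit 11) C.nil) C.nil))))) C.nil))))) C.nil)) C.nil))) C.nil))))) C.nil)) C.nil))) C.nil))))) C.nil))) C.nil))) (C.cons (nat_lit 2182) (C.node (nat_lit 7) (nat_lit 8) (nat_lit 11) (C.cons (nat_lit 2432) (C.ref (nat_lit 278) (nat_lit 205163983024656)) C.nil)) (C.cons (nat_lit 2180) (C.node (nat_lit 7) (nat_lit 8) (nat_lit 11) (C.cons (nat_lit 2434) (C.ref (nat_lit 278) (nat_lit 198128827013136)) (C.cons (nat_lit 2432) (C.node (nat_lit 1) (nat_lit 7) (nat_lit 11) (C.cons (nat_lit 2690) (C.ref (nat_lit 279) (nat_lit 205163983024656)) (C.cons (nat_lit 2186) (C.ref (nat_lit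 279) (nat_lit 198128827013136)) (C.cons (nat_lit 2178) (C.node (nat_lit 3) (nat_lit 7) (nat_lit 11) (C.cons (nat_lit 2696) (C.node (nat_lit 3) (nat_lit 4) (nat_lit 7) (C.cons (nat_lit 184) (C.node (nat_lit 4) (nat_lit 7) (nat_lit 9) (C.cons (nat_lit 912) (C.miq (nat_lit 2839873651) (nat_lit 678227031667394770250498441)) (C.cons (nat_lit 656) (C.node (nat_lit 7) (nat_lit 9) (nat_lit 10) (C.cons (nat_lit 1696) (C.miq (nat_lit 1404662794) (nat_lit 3259295295410789583020950675)) (C.cons (nat_lit 1664) (C.node (nat_lit 3) (nat_lit 8) (nat_lit 11) (C.cons (nat_lit 2378) (C.miq (nat_lit 927367339) (nat_lit 251500436947874845113192193)) (C.cons (nat_lit 2376) (C.miq (nat_lit 927367339) (nat_lit 251500400054386697694088961)) (C.cons (nat_lit 2346) (C.miq (nat_lit 2202711408) (nat_lit 1267025113560459579193755873)) (C.cons (nat_lit 2344) (C.miq (nat_lit 2202711408) (nat_lit 1267025113559896629240334561)) (C.cons (nat_lit 2314) (C.miq (nat_lit 666372401) (nat_lit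 2940112444978032477859349003)) (C.cons (nat_lit 2312) (C.node (nat_lit 7) (nat_lit 8) (nat_lit 9) (C.cons (nat_lit 962) (C.miq (nat_lit 929347968) (nat_lit 251494885126144632070147841)) (C.cons (nat_lit 960) (C.miq (nat_lit 929347968) (nat_lit 251494885126144623480213249)) (C.cons (nat_lit 930) (C.miq (nat_lit 3109292147) (nat_lit 678245699772397441626145161)) (C.cons (nat_lit 928) (C.miq (nat_lit 3109292147) (nat_lit 678245699772397433036210569)) (C.cons (nat_lit 898) (C.miq (nat_lit 729285521) (nat_lit 2940112445381104644416209419)) (C.cons (nat_lit 896) (C.node (nat_lit 2) (nat_lit 4) (nat_lit 7) (C.cons (nat_lit 404) (C.node (nat_lit 2) (nat_lit 4) (nat_lit 10) (C.cons (nat_lit 1076) (C.miq (nat_lit 2191553619) (nat_lit 1321363170522931167853347000)) (C.cons (nat_lit 1044) (C.node (nat_lit 7) (nat_lit 8) (nat_lit 10) (C.cons (nat_lit 1440) (C.miq (nat_lit 1404597258) (nat_lit 2795063058312289110288565395)) (C.cons (nat_lit 1408) (C.node (nat_lit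 3) (nat_lit 7) (nat_lit 10) (C.cons (nat_lit 1160) (C.node (nat_lit 2) (nat_lit 7) (nat_lit 10) C.nil) C.nil)) C.nil))) C.nil))) (C.cons (nat_lit 148) (C.node (nat_lit 4) (nat_lit 7) (nat_lit 8)
  (C.cons (nat_lit 400) (C.node (nat_lit 3) (nat_lit 7) (nat_lit 10) (C.cons (nat_lit 1164) (C.node (nat_lit 1) (nat_lit 3) (nat_lit 7) C.nil) C.nil)) C.nil)) C.nil))) C.nil))))))) C.nil))))))) C.nil))) C.nil))) (C.cons (nat_lit 152) (C.node (nat_lit 3) (nat_lit 7) (nat_lit 10) (C.cons (nat_lit 1164) (C.node (nat_lit 7) (nat_lit 9) (nat_lit 10) (C.cons (nat_lit 1696) (C.miq (nat_lit 1513396000) (nat_lit 1266964608056943286129853061)) (C.cons (nat_lit 1664) (C.node (nat_lit 3) (nat_lit 5) (nat_lit 7) (C.cons (nat_lit 170) (C.node (nat_lit 3) (nat_lit 6) (nat_lit 7) (C.cons (nat_lit 200) (C.node (nat_lit 1) (nat_lit 2) (nat_lit 7) (C.cons (nat_lit 198) (C.miq (nat_lit 329413894) (nat_lit 1407193306534610274101823713)) (C.cons (nat_lit 134) (C.node (nat_lit 2)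 (nat_lit 6) (nat_lit 7) (C.cons (nat_lit 196) (C.node (nat_lit 4) (nat_lit 7) (nat_lit 9) C.nil) C.nil)) C.nil))) C.nil)) (C.cons (nat_lit 168) (C.node (nat_lit 1) (nat_lit 3) (nat_lit 7) (C.cons (nat_lit 202) (C.node (nat_lit 1) (nat_lit 3) (nat_lit 10) (C.cons (nat_lit 1290) (C.miq (nat_lit 381302536) (nat_lit 3810557979782033952003391881)) (C.cons (nat_lit 1034) (C.node (nat_lit 3) (nat_lit 6) (nat_lit 11) (C.cons (nat_lit 2376) (C.miq (nat_lit 1178053504) (nat_lit 244224617586684738635632385)) (C.cons (nat_lit 2120) (C.node (nat_lit 6) (nat_lit 7) (nat_lit 9) (C.cons (nat_lit 960) (C.miq (nat_lit 929347968) (nat_lit 251494885126144623480213249)) (C.cons (nat_lit 704) (C.node (nat_lit 1) (nat_lit 2) (nat_lit 7) (C.cons (nat_lit 134) (C.node (nat_lit 2) (nat_lit 6) (nat_lit 7) C.nil) C.nil)) C.nil))) C.nil))) C.nil))) (C.cons (nat_lit 138) (C.node (nat_lit 3) (nat_lit 6) (nat_lit 7) (C.cons (nat_lit 200) (C.node (nat_lit 4) (nat_lit 7) (nat_lit 9)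 (C.cons (nat_lit 912) (C.node (nat_lit 2) (nat_lit 4) (nat_lit 7) C.nil) C.nil)) C.nil)) C.nil))) C.nil))) C.nil))) (C.cons (nat_lit 1160) (C.node (nat_lit 4) (nat_lit 7) (nat_lit 9) (C.cons (nat_lit 912) (C.node (nat_lit 2) (nat_lit 4) (nat_lit 7) (C.cons (nat_lit 180) (C.node (nat_lit 2) (nat_lit 7) (nat_lit 10) (C.cons (nat_lit 1412) (C.miq (nat_lit 1352812935) (nat_lit 1321359241410646914669740944)) (C.cons (nat_lit 1156) (C.node (nat_lit 4) (nat_lit 5) (nat_lit 10) (C.cons (nat_lit 1328) (C.miq (nat_lit 2686814580) (nat_lit 44754753683019321560007568)) (C.cons (nat_lit 1072) (C.node (nat_lit 7) (nat_lit 9) (nat_lit 10) (C.cons (nat_lit 1696) (C.miq (nat_lit 3126069618) (nat_lit 1296006793595476239845687941)) (C.cons (nat_lit 1664) (C.node (nat_lit 2) (nat_lit 7) (nat_lit 8) (C.cons (nat_lit 388) (C.node (nat_lit 3) (nat_lit 5) (nat_lit 7) C.nil) C.nil)) C.nil))) C.nil))) C.nil))) (C.cons (nat_lit 148) (C.node (nat_lit 4) (nat_lit 5) (nat_lit 7)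 (C.cons (nat_lit 176) (C.node (nat_lit 3) (nat_lit 4) (nat_lit 9) (C.cons (nat_lit 600) (C.node (nat_lit 3) (nat_lit 9) (nat_lit 10) (C.cons (nat_lit 1548) (C.miq (nat_lit 2590454283) (nat_lit 1470103529509139755890182173)) (C.cons (nat_lit 1544) (C.node (nat_lit 1) (nat_lit 4) (nat_lit 9) (C.cons (nat_lit 534) (C.node (nat_lit 6) (nat_lit 7) (nat_lit 9) (C.cons (nat_lit 706) (C.miq (nat_lit 347509255) (nat_lit 3810547206976943755976835717)) (C.cons (nat_lit 704) (C.node (nat_lit 1) (nat_lit 7) (nat_lit 9) (C.cons (nat_lit 674) (C.miq (nat_lit 728842329) (nat_lit 2633050286266630992543482417)) C.nil)) C.nil))) (C.cons (nat_lit 530) (C.node (nat_lit 2) (nat_lit 4) (nat_lit 9) (C.cons (nat_lit 532) (C.node (nat_lit 6) (nat_lit 7) (nat_lit 9) (C.cons (nat_lit 706) (C.node (nat_lit 1) (nat_lit 2) (nat_lit 4) (C.cons (nat_lit 118) (C.miq (nat_lit 728843158) (nat_lit 2633042612421098146143273560)) C.nil)) (C.cons (nat_lit 704) (C.node (nat_lit 1) (nat_lit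 7) (nat_lit 9) (C.cons (nat_lit 674) (C.node (nat_lit 7) (nat_lit 9) (nat_lit 10) C.nil) C.nil)) C.nil))) C.nil)) C.nil))) C.nil))) (C.cons (nat_lit 536) (C.node (nat_lit 6) (nat_lit 7) (nat_lit 9) (C.cons (nat_lit 706) (C.node (nat_lit 1) (nat_lit 7) (nat_lit 8) (C.cons (nat_lit 386)
  (C.node (nat_lit 3) (nat_lit 6) (nat_lit 7) C.nil) C.nil)) (C.cons (nat_lit 704) (C.node (nat_lit 1) (nat_lit 7) (nat_lit 9) (C.cons (nat_lit 674) (C.node (nat_lit 7) (nat_lit 9) (nat_lit 10) C.nil) C.nil)) C.nil))) C.nil))) C.nil)) C.nil))) (C.cons (nat_lit 656) (C.node (nat_lit 7) (nat_lit 9) (nat_lit 10) (C.cons (nat_lit 1696) (C.node (nat_lit 7) (nat_lit 8) (nat_lit 9) (C.cons (nat_lit 962) (C.miq (nat_lit 929347968) (nat_lit 251494885126144632070147841)) (C.cons (nat_lit 960) (C.miq (nat_lit 929347968) (nat_lit 251494885126144623480213249)) (C.cons (nat_lit 898) (C.miq (nat_lit 729285521) (nat_lit 2940112445381104644416209419)) (C.cons (nat_lit 896) (C.node (nat_lit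 2) (nat_lit 3) (nat_lit 7) (C.cons (nat_lit 206) (C.miq (nat_lit 412557491) (nat_lit 1083201334478031340725340189)) (C.cons (nat_lit 204) (C.miq (nat_lit 2540352288) (nat_lit 1470124651354233608287356957)) (C.cons (nat_lit 174) (C.miq (nat_lit 412557491) (nat_lit 1083200744182220982019688477)) (C.cons (nat_lit 172) (C.miq (nat_lit 3126004082) (nat_lit 1287544312858173835622220421)) (C.cons (nat_lit 142) (C.miq (nat_lit 412557491) (nat_lit 1083200153886410623314036765)) (C.cons (nat_lit 140) (C.node (nat_lit 1) (nat_lit 7) (nat_lit 9) (C.cons (nat_lit 706) (C.node (nat_lit 3) (nat_lit 6) (nat_lit 7) C.nil) C.nil)) C.nil))))))) C.nil))))) (C.cons (nat_lit 1664) (C.node (nat_lit 3) (nat_lit 4) (nat_lit 9) (C.cons (nat_lit 792) (C.miq (nat_lit 1731464088) (nat_lit 183762941773980676021292801)) (C.cons (nat_lit 600) (C.node (nat_lit 3) (nat_lit 9) (nat_lit 10) (C.cons (nat_lit 1548) (C.miq (nat_lit 1738148658) (nat_lit 2011672726769819712647596061)) (C.cons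 (nat_lit 1544) (C.ref (nat_lit 280) (nat_lit 205163983024656)) C.nil))) (C.cons (nat_lit 536) (C.node (nat_lit 3) (nat_lit 9) (nat_lit 10) (C.cons (nat_lit 1608) (C.ref (nat_lit 280) (nat_lit 198128827013136)) (C.cons (nat_lit 1548) (C.miq (nat_lit 1738148658) (nat_lit 2011672726769819712647596061)) (C.cons (nat_lit 1544) (C.node (nat_lit 3) (nat_lit 4) (nat_lit 6) (C.cons (nat_lit 122) (C.miq (nat_lit 1671119114) (nat_lit 3259322153852702781192864915)) (C.cons (nat_lit 120) (C.node (nat_lit 6) (nat_lit 9) (nat_lit 10) (C.cons (nat_lit 1634) (C.miq (nat_lit 323391674) (nat_lit 145101240480792276045401857)) (C.cons (nat_lit 1632) (C.miq (nat_lit 2521539888) (nat_lit 3810605037828665954585609257)) (C.cons (nat_lit 1602) (C.miq (nat_lit 323391674) (nat_lit 145100650184981917339750145)) (C.cons (nat_lit 1600) (C.node (nat_lit 1) (nat_lit 3) (nat_lit 4) (C.cons (nat_lit 282) (C.node (nat_lit 1) (nat_lit 3) (nat_lit 5) (C.cons (nat_lit 2090) (C.miq (nat_lit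 2961266243) (nat_lit 317986044893555595396382840)) (C.cons (nat_lit 174) (C.miq (nat_lit 2253602929) (nat_lit 145076300430451116681856147)) (C.cons (nat_lit 170) (C.miq (nat_lit 2253602929) (nat_lit 145076300430451116681594003)) (C.cons (nat_lit 46) (C.miq (nat_lit 543496259) (nat_lit 2747889236608308871033258266)) (C.cons (nat_lit 42) (C.node (nat_lit 1) (nat_lit 3) (nat_lit 11) (C.cons (nat_lit 2122) (C.node (nat_lit 1) (nat_lit 3) (nat_lit 7) (C.cons (nat_lit 142) (C.miq (nat_lit 3004733216) (nat_lit 340987935834169692769419909)) (C.cons (nat_lit 138) (C.node (nat_lit 1) (nat_lit 2) (nat_lit 3) (C.cons (nat_lit 1038) (C.miq (nat_lit 1681524754) (nat_lit 1266974421342262218032283911)) C.nil)) C.nil))) (C.cons (nat_lit 2058) (C.node (nat_lit 3) (nat_lit 5) (nat_lit 7) (C.cons (nat_lit 172) (C.node (nat_lit 1) (nat_lit 3) (nat_lit 7) (C.cons (nat_lit 202) (C.node (nat_lit 1) (nat_lit 2) (nat_lit 3) C.nil) C.nil)) C.nil)) C.nil))) C.nil)))))) (C.cons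 (nat_lit 26) (C.node (nat_lit 3) (nat_lit 4) (nat_lit 8) (C.cons (nat_lit 280) (C.node (nat_lit 3) (nat_lit 6) (nat_lit 7) (C.cons (nat_lit 206) (C.miq (nat_lit 592016976) (nat_lit 647996137521353140938541281)) (C.cons (nat_lit 204) (C.miq (nat_lit 592016976) (nat_lit 647996137520790190985119969)) (C.cons (nat_lit 202) (C.node (nat_lit 2) (nat_lit 3) (nat_lit 7) (C.cons (nat_lit 172)
  (C.node (nat_lit 3) (nat_lit 6) (nat_lit 10) (C.cons (nat_lit 1352) (C.miq (nat_lit 2556693045) (nat_lit 407418350914706575283717161)) C.nil)) C.nil)) (C.cons (nat_lit 200) (C.node (nat_lit 2) (nat_lit 3) (nat_lit 10) C.nil) C.nil))))) C.nil)) C.nil))) C.nil))))) (C.cons (nat_lit 90) (C.miq (nat_lit 1671119114) (nat_lit 3259322153843695581938123923)) (C.cons (nat_lit 88) (C.node (nat_lit 6) (nat_lit 9) (nat_lit 10) (C.cons (nat_lit 1634) (C.miq (nat_lit 323391674) (nat_lit 106415614253124142454804225)) (C.cons (nat_lit 1632) (C.node (nat_lit 1) (nat_lit 9) (nat_lit 10)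 (C.cons (nat_lit 1542) (C.node (nat_lit 1) (nat_lit 9) (nat_lit 5) (C.cons (nat_lit 2594) (C.miq (nat_lit 2954974889) (nat_lit 317995342052571992088249952)) (C.cons (nat_lit 930) (C.miq (nat_lit 643407985) (nat_lit 1972995382798098385315431571)) (C.cons (nat_lit 674) (C.miq (nat_lit 643407985) (nat_lit 1972995382798098385298654355)) (C.cons (nat_lit 802) (C.miq (nat_lit 2154107561) (nat_lit 2747903182346831842548647430)) (C.cons (nat_lit 546) (C.node (nat_lit 1) (nat_lit 9) (nat_lit 11) (C.cons (nat_lit 2626) (C.node (nat_lit 1) (nat_lit 9) (nat_lit 7) (C.cons (nat_lit 898) (C.miq (nat_lit 3104978816) (nat_lit 1864201928492059676245426569)) (C.cons (nat_lit 642) (C.node (nat_lit 1) (nat_lit 8) (nat_lit 9) (C.cons (nat_lit 786) (C.miq (nat_lit 1788084760) (nat_lit 1876259088902316091698708743)) C.nil)) C.nil))) (C.cons (nat_lit 2562) (C.node (nat_lit 9) (nat_lit 5) (nat_lit 7) (C.cons (nat_lit 928) (C.node (nat_lit 1) (nat_lit 9) (nat_lit 7) (C.cons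 (nat_lit 706) (C.node (nat_lit 1) (nat_lit 8) (nat_lit 9) C.nil) C.nil)) C.nil)) C.nil))) C.nil)))))) (C.cons (nat_lit 1538) (C.node (nat_lit 9) (nat_lit 10) (nat_lit 2) (C.cons (nat_lit 1540) (C.node (nat_lit 9) (nat_lit 6) (nat_lit 7) (C.cons (nat_lit 962) (C.miq (nat_lit 2309191248) (nat_lit 1866588715326194350652197089)) (C.cons (nat_lit 960) (C.miq (nat_lit 2309191248) (nat_lit 1866588715325631400698775777)) (C.cons (nat_lit 706) (C.node (nat_lit 8) (nat_lit 9) (nat_lit 7) (C.cons (nat_lit 928) (C.node (nat_lit 9) (nat_lit 6) (nat_lit 4) (C.cons (nat_lit 596) (C.miq (nat_lit 845808789) (nat_lit 1321375567205854275161817649)) C.nil)) C.nil)) (C.cons (nat_lit 704) (C.node (nat_lit 8) (nat_lit 9) (nat_lit 4) C.nil) C.nil))))) C.nil)) C.nil))) (C.cons (nat_lit 1602) (C.miq (nat_lit 323391674) (nat_lit 106415023957313783749152513)) (C.cons (nat_lit 1600) (C.node (nat_lit 3) (nat_lit 6) (nat_lit 7) (C.cons (nat_lit 206) (C.miq (nat_lit 714301623) (nat_lit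 1866585265821935276604786913)) (C.cons (nat_lit 204) (C.miq (nat_lit 714301623) (nat_lit 1866585228928447129185683681)) (C.cons (nat_lit 202) (C.node (nat_lit 3) (nat_lit 6) (nat_lit 11) (C.cons (nat_lit 2376) (C.miq (nat_lit 1178053504) (nat_lit 244224617586684738635632385)) (C.cons (nat_lit 2120) (C.node (nat_lit 6) (nat_lit 7) (nat_lit 9) (C.cons (nat_lit 960) (C.miq (nat_lit 929347968) (nat_lit 251494885126144623480213249)) (C.cons (nat_lit 704) (C.node (nat_lit 1) (nat_lit 2) (nat_lit 7) (C.cons (nat_lit 166) (C.node (nat_lit 2) (nat_lit 3) (nat_lit 7) C.nil) C.nil)) C.nil))) C.nil))) (C.cons (nat_lit 200) (C.node (nat_lit 1) (nat_lit 3) (nat_lit 7) (C.cons (nat_lit 174) (C.miq (nat_lit 2339506481) (nat_lit 2635463139334739951260402187)) (C.cons (nat_lit 170) (C.node (nat_lit 2) (nat_lit 3) (nat_lit 7) C.nil) (C.cons (nat_lit 142) (C.miq (nat_lit 2339506481) (nat_lit 2635463139334739951258305035)) (C.cons (nat_lit 138) (C.node (nat_lit 2) (nat_lit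 3) (nat_lit 7) (C.cons (nat_lit 140) (C.node (nat_lit 3) (nat_lit 5) (nat_lit 7) C.nil) C.nil)) C.nil))))) C.nil))))) C.nil))))) C.nil))))) C.nil)))) C.nil)))) C.nil))) C.nil))) C.nil))) C.nil))) (C.cons (nat_lit 2184) (C.node (nat_lit 7) (nat_lit 9) (nat_lit 11) (C.cons (nat_lit 2688) (C.node (nat_lit 2) (nat_lit 8) (nat_lit 11) (C.cons (nat_lit 2372) (C.node (nat_lit 1) (nat_lit 4) (nat_lit 11) (C.cons (nat_lit 2354) (C.node (nat_lit 3) (nat_lit 8) (nat_lit 11) (C.cons (nat_lit 2312)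
  (C.node (nat_lit 1) (nat_lit 3) (nat_lit 4) (C.cons (nat_lit 90) (C.miq (nat_lit 558268587) (nat_lit 108847079516292413268168449)) (C.cons (nat_lit 26) (C.node (nat_lit 1) (nat_lit 10) (nat_lit 11) (C.cons (nat_lit 3078) (C.node (nat_lit 5) (nat_lit 10) (nat_lit 11) (C.cons (nat_lit 3104) (C.node (nat_lit 1) (nat_lit 3) (nat_lit 11) C.nil) C.nil)) (C.cons (nat_lit 3074) (C.miq (nat_lit 732005952) (nat_lit 3716242821656733651230196049)) C.nil))) C.nil))) C.nil)) (C.cons (nat_lit 2322) (C.node (nat_lit 4) (nat_lit 5) (nat_lit 11) (C.cons (nat_lit 2096) (C.node (nat_lit 3) (nat_lit 8) (nat_lit 11) (C.cons (nat_lit 2344) (C.node (nat_lit 2) (nat_lit 3) (nat_lit 8) (C.cons (nat_lit 1292) (C.node (nat_lit 1) (nat_lit 3) (nat_lit 8) (C.cons (nat_lit 330) (C.miq (nat_lit 2793491232) (nat_lit 398967122497357255809632285)) (C.cons (nat_lit 266) (C.node (nat_lit 1) (nat_lit 3) (nat_lit 10) (C.cons (nat_lit 1098) (C.miq (nat_lit 2175148107) (nat_lit 1327444305687838621371992093))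 (C.cons (nat_lit 1034) (C.node (nat_lit 4) (nat_lit 8) (nat_lit 10) (C.cons (nat_lit 1328) (C.miq (nat_lit 1703545650) (nat_lit 1605473651379302798101055517)) (C.cons (nat_lit 1296) (C.node (nat_lit 7) (nat_lit 8) (nat_lit 10) (C.cons (nat_lit 1440) (C.miq (nat_lit 950318448) (nat_lit 1566806176767784035397339361)) (C.cons (nat_lit 1408) (C.node (nat_lit 1) (nat_lit 10) (nat_lit 11) (C.cons (nat_lit 3106) (C.miq (nat_lit 2241966852) (nat_lit 3754966429722559289842927645)) (C.cons (nat_lit 3078) (C.node (nat_lit 5) (nat_lit 10) (nat_lit 11) (C.cons (nat_lit 3104) (C.node (nat_lit 1) (nat_lit 3) (nat_lit 11) C.nil) C.nil)) (C.cons (nat_lit 3074) (C.miq (nat_lit 732005952) (nat_lit 3716242821656733651230196049)) C.nil)))) C.nil))) C.nil))) C.nil))) C.nil))) (C.cons (nat_lit 780) (C.miq (nat_lit 2726495925) (nat_lit 942981785389511594304080097)) (C.cons (nat_lit 268) (C.miq (nat_lit 2726495925) (nat_lit 324011765746821456854517985)) C.nil)))) (C.cons (nat_lit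 2312) (C.node (nat_lit 5) (nat_lit 8) (nat_lit 11) C.nil) C.nil))) C.nil)) (C.cons (nat_lit 2098) (C.miq (nat_lit 2169184422) (nat_lit 2536370125302467796078167109)) (C.cons (nat_lit 2066) (C.miq (nat_lit 2169184422) (nat_lit 2497684499074799662487569477)) C.nil))))) (C.cons (nat_lit 2340) (C.node (nat_lit 2) (nat_lit 10) (nat_lit 11) (C.cons (nat_lit 3078) (C.miq (nat_lit 1797802512) (nat_lit 2828892635338207455449908371)) (C.cons (nat_lit 3076) (C.node (nat_lit 4) (nat_lit 8) (nat_lit 11) (C.cons (nat_lit 2322) (C.miq (nat_lit 1803723792) (nat_lit 2828906581076723932875654291)) (C.cons (nat_lit 2320) (C.node (nat_lit 1) (nat_lit 4) (nat_lit 11) (C.cons (nat_lit 2098) (C.node (nat_lit 1) (nat_lit 10) (nat_lit 11) C.nil) (C.cons (nat_lit 2066) (C.node (nat_lit 4) (nat_lit 5) (nat_lit 11) C.nil) C.nil))) C.nil))) C.nil))) (C.cons (nat_lit 2308) (C.node (nat_lit 1) (nat_lit 10) (nat_lit 11) (C.cons (nat_lit 3110) (C.miq (nat_lit 1797802512) (nat_lit 2790207009110539459298264211))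 (C.cons (nat_lit 3106) (C.node (nat_lit 2) (nat_lit 10) (nat_lit 11) (C.cons (nat_lit 3076) (C.node (nat_lit 1) (nat_lit 4) (nat_lit 11) (C.cons (nat_lit 2322) (C.miq (nat_lit 1803723792) (nat_lit 2790220954849055799285056659)) (C.cons (nat_lit 2066) (C.node (nat_lit 2) (nat_lit 5) (nat_lit 11) C.nil) C.nil))) C.nil)) (C.cons (nat_lit 3078) (C.miq (nat_lit 1797802512) (nat_lit 2790207009110539321859310739)) (C.cons (nat_lit 3074) (C.node (nat_lit 2) (nat_lit 10) (nat_lit 11) (C.cons (nat_lit 3108) (C.node (nat_lit 2) (nat_lit 4) (nat_lit 10) (C.cons (nat_lit 1300) (C.miq (nat_lit 621325156) (nat_lit 349403543510757644006657104)) (C.cons (nat_lit 1044) (C.node (nat_lit 4) (nat_lit 8) (nat_lit 11) (C.cons (nat_lit 2354) (C.miq (nat_lit 1803723792) (nat_lit 2790220954849055936724010131)) (C.cons (nat_lit 2352) (C.miq (nat_lit 1376303716) (nat_lit 317990878175537759851187280)) (C.cons (nat_lit 2322) (C.miq (nat_lit 1803723792) (nat_lit 2790220954849055799285056659))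 (C.cons (nat_lit 2320)
  (C.node (nat_lit 1) (nat_lit 4) (nat_lit 11) C.nil) C.nil))))) C.nil))) (C.cons (nat_lit 3076) (C.node (nat_lit 5) (nat_lit 10) (nat_lit 11) (C.cons (nat_lit 3104) (C.node (nat_lit 3) (nat_lit 9) (nat_lit 11) C.nil) C.nil)) C.nil))) C.nil))))) C.nil)))) C.nil)) C.nil))) C.nil)))) C.nil))) C.nil)))) C.nil)))))) List.nil)

theorem ok12_281 : okL par12 (nat_lit 282) c12_281 (nat_lit 281) = true := by decide +kernel

noncomputable def c12_282 : List C :=
  (List.cons (C.node (nat_lit 3) (nat_lit 10) (nat_lit 11) (C.cons (nat_lit 3208) (C.miq (nat_lit 2208565174) (nat_lit 1266960475619517659519912161)) (C.cons (nat_lit 3082) (C.node (nat_lit 7) (nat_lit 10) (nat_lit 11) (C.cons (nat_lit 3204) (C.miq (nat_lit 2443641778) (nat_lit 1415664033065882956360583197)) (C.cons (nat_lit 3200) (C.node (nat_lit 3) (nat_lit 6) (nat_lit 11) (C.cons (nat_lit 2632) (C.miq (nat_lit 1183886129) (nat_lit 697571799942171778670595082)) (C.cons (nat_lit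 2376) (C.miq (nat_lit 1000834624) (nat_lit 3868569873006032409391726929)) (C.cons (nat_lit 2120) (C.node (nat_lit 2) (nat_lit 10) (nat_lit 11) (C.cons (nat_lit 3108) (C.node (nat_lit 2) (nat_lit 4) (nat_lit 10) (C.cons (nat_lit 1300) (C.miq (nat_lit 621325156) (nat_lit 349403543510757644006657104)) (C.cons (nat_lit 1044) (C.node (nat_lit 2) (nat_lit 9) (nat_lit 11) (C.cons (nat_lit 2630) (C.miq (nat_lit 1958283874) (nat_lit 3114204809806833032341357637)) (C.cons (nat_lit 2628) (C.miq (nat_lit 1958283874) (nat_lit 3114204809806833032341226565)) (C.cons (nat_lit 2566) (C.miq (nat_lit 621394481) (nat_lit 678254720023928907510778890)) (C.cons (nat_lit 2564) (C.node (nat_lit 4) (nat_lit 8) (nat_lit 11) (C.cons (nat_lit 2354) (C.miq (nat_lit 463635552) (nat_lit 3757346299518564493584302417)) (C.cons (nat_lit 2352) (C.miq (nat_lit 1376303716) (nat_lit 317990878175537759851187280)) (C.cons (nat_lit 2322) (C.miq (nat_lit 463635552) (nat_lit 3757346299509557294329561425))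 (C.cons (nat_lit 2320) (C.node (nat_lit 1) (nat_lit 2) (nat_lit 10) (C.cons (nat_lit 1542) (C.node (nat_lit 1) (nat_lit 4) (nat_lit 11) (C.cons (nat_lit 2098) (C.node (nat_lit 1) (nat_lit 2) (nat_lit 4) (C.cons (nat_lit 86) (C.miq (nat_lit 2336295522) (nat_lit 2536331222126342317433816133)) (C.cons (nat_lit 22) (C.node (nat_lit 5) (nat_lit 9) (nat_lit 11) (C.cons (nat_lit 2600) (C.miq (nat_lit 893499658) (nat_lit 2536383223148564530372742913)) (C.cons (nat_lit 2592) (C.node (nat_lit 1) (nat_lit 6) (nat_lit 10) (C.cons (nat_lit 1378) (C.miq (nat_lit 1629792267) (nat_lit 26654512556715821970034433)) (C.cons (nat_lit 1346) (C.miq (nat_lit 1629792267) (nat_lit 26654512547708622715293441)) (C.cons (nat_lit 1122) (C.miq (nat_lit 1101182304) (nat_lit 1864201928323738602299525345)) (C.cons (nat_lit 1090) (C.node (nat_lit 1) (nat_lit 2) (nat_lit 5) (C.cons (nat_lit 174) (C.miq (nat_lit 2585201458) (nat_lit 1415664033999816928887965725)) (C.cons (nat_lit 166)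 (C.miq (nat_lit 2455478640) (nat_lit 3757412301740289720575919251)) (C.cons (nat_lit 110) (C.miq (nat_lit 1369056011) (nat_lit 1864220946357303770641139741)) (C.cons (nat_lit 102) (C.miq (nat_lit 2438701664) (nat_lit 2536397223929513979244774469)) (C.cons (nat_lit 46) (C.miq (nat_lit 1369056011) (nat_lit 1864220946339289372131657757)) (C.cons (nat_lit 38) (C.node (nat_lit 1) (nat_lit 2) (nat_lit 7) (C.cons (nat_lit 2182) (C.miq (nat_lit 2450786229) (nat_lit 26606716836507924636502241)) (C.cons (nat_lit 206) (C.miq (nat_lit 2585201458) (nat_lit 1415664033999816928890062877)) (C.cons (nat_lit 198) (C.miq (nat_lit 1804759201) (nat_lit 3099689454587044917571617939)) (C.cons (nat_lit 142) (C.miq (nat_lit 2585201458) (nat_lit 1415664033999816928885868573)) (C.cons (nat_lit 134) (C.node (nat_lit 1) (nat_lit 2) (nat_lit 3) (C.cons (nat_lit 78) (C.node (nat_lit 1) (nat_lit 2) (nat_lit 11) (C.cons (nat_lit 2054) (C.node (nat_lit 2) (nat_lit 6) (nat_lit 11) (C.cons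 (nat_lit 2372) (C.miq (nat_lit 1176611712) (nat_lit 94317815954470703783677697)) (C.cons (nat_lit 2116) (C.node (nat_lit 3) (nat_lit 9) (nat_lit 10) (C.cons (nat_lit 1736) (C.miq (nat_lit 1251128944) (nat_lit 1864201928620415864833116385)) (C.cons (nat_lit 1672) (C.miq (nat_lit 2208368530) (nat_lit 3725914227656605349190173317)) (C.cons (nat_lit 1608) (C.miq (nat_lit 2301692514) (nat_lit 632273056233294735841559621)) (C.cons (nat_lit 1544) (C.node (nat_lit 1) (nat_lit 3) (nat_lit 4) (C.cons (nat_lit 282) (C.node (nat_lit 1) (nat_lit 3) (nat_lit 5) (C.cons (nat_lit 170)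
  (C.miq (nat_lit 2270245044) (nat_lit 205522591426945174239053853)) (C.cons (nat_lit 42) (C.node (nat_lit 1) (nat_lit 3) (nat_lit 7) C.nil) C.nil))) (C.cons (nat_lit 26) (C.node (nat_lit 1) (nat_lit 4) (nat_lit 8) (C.cons (nat_lit 786) (C.miq (nat_lit 1645480600) (nat_lit 26602584891933454398263041)) (C.cons (nat_lit 274) (C.node (nat_lit 6) (nat_lit 8) (nat_lit 11) C.nil) C.nil))) C.nil))) C.nil))))) C.nil))) C.nil)) (C.cons (nat_lit 14) (C.node (nat_lit 1) (nat_lit 2) (nat_lit 6) (C.cons (nat_lit 2118) (C.node (nat_lit 6) (nat_lit 8) (nat_lit 11) (C.cons (nat_lit 2368) (C.node (nat_lit 6) (nat_lit 9) (nat_lit 11) (C.cons (nat_lit 2624) (C.node (nat_lit 1) (nat_lit 9) (nat_lit 11) (C.cons (nat_lit 2690) (C.miq (nat_lit 1898363296) (nat_lit 2560546816150238444101373697)) (C.cons (nat_lit 2562) (C.node (nat_lit 1) (nat_lit 7) (nat_lit 11) C.nil) C.nil))) C.nil)) C.nil)) (C.cons (nat_lit 70) (C.node (nat_lit 1) (nat_lit 2) (nat_lit 11) (C.cons (nat_lit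 2054) (C.node (nat_lit 2) (nat_lit 6) (nat_lit 11) (C.cons (nat_lit 2372) (C.miq (nat_lit 1176611712) (nat_lit 84646409397553670386028289)) (C.cons (nat_lit 2116) (C.node (nat_lit 1) (nat_lit 5) (nat_lit 10) C.nil) C.nil))) C.nil)) C.nil))) C.nil))) C.nil)))))) C.nil))))))) C.nil))))) C.nil))) C.nil))) (C.cons (nat_lit 2066) (C.node (nat_lit 4) (nat_lit 5) (nat_lit 11) (C.cons (nat_lit 2096) (C.node (nat_lit 3) (nat_lit 7) (nat_lit 11) (C.cons (nat_lit 2696) (C.node (nat_lit 2) (nat_lit 8) (nat_lit 11) (C.cons (nat_lit 2436) (C.miq (nat_lit 2168135831) (nat_lit 3725954312394880838231655045)) (C.cons (nat_lit 2372) (C.miq (nat_lit 347605602) (nat_lit 2804712753329251806550950981)) (C.cons (nat_lit 2308) (C.node (nat_lit 2) (nat_lit 8) (nat_lit 10) (C.cons (nat_lit 1412) (C.miq (nat_lit 2199548050) (nat_lit 3725935422965541106547556997)) (C.cons (nat_lit 1292) (C.miq (nat_lit 2066220451) (nat_lit 2790208041880791073981989929)) (C.cons (nat_lit 1284) (C.node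 (nat_lit 7) (nat_lit 8) (nat_lit 10) (C.cons (nat_lit 1472) (C.miq (nat_lit 2202693814) (nat_lit 1266981412674036462252984545)) (C.cons (nat_lit 1440) (C.miq (nat_lit 849873751) (nat_lit 1552268002540241703657277665)) (C.cons (nat_lit 1408) (C.node (nat_lit 2) (nat_lit 3) (nat_lit 10) (C.cons (nat_lit 1164) (C.node (nat_lit 5) (nat_lit 7) (nat_lit 10) (C.cons (nat_lit 1696) (C.miq (nat_lit 1513396000) (nat_lit 1266964608056943286129853061)) (C.cons (nat_lit 1184) (C.node (nat_lit 6) (nat_lit 7) (nat_lit 10) (C.cons (nat_lit 1728) (C.miq (nat_lit 1647812793) (nat_lit 1407221530312848799831691009)) (C.cons (nat_lit 1216) (C.node (nat_lit 7) (nat_lit 9) (nat_lit 10) (C.cons (nat_lit 1664) (C.node (nat_lit 3) (nat_lit 8) (nat_lit 10) (C.cons (nat_lit 1352) (C.node (nat_lit 3) (nat_lit 9) (nat_lit 10) C.nil) C.nil)) C.nil)) C.nil))) C.nil))) (C.cons (nat_lit 1036) (C.node (nat_lit 2) (nat_lit 7) (nat_lit 10) (C.cons (nat_lit 1156) (C.node (nat_lit 2) (nat_lit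 3) (nat_lit 7) (C.cons (nat_lit 206) (C.miq (nat_lit 2469050208) (nat_lit 1252518003823600365430180065)) (C.cons (nat_lit 204) (C.miq (nat_lit 2469050208) (nat_lit 1252518003823600356840245473)) (C.cons (nat_lit 174) (C.miq (nat_lit 2317552471) (nat_lit 1252454399772335527164774625)) (C.cons (nat_lit 172) (C.miq (nat_lit 2317552471) (nat_lit 1252454399772335527164643553)) (C.cons (nat_lit 142) (C.miq (nat_lit 2585201458) (nat_lit 1415664033999816928885868573)) (C.cons (nat_lit 140) (C.node (nat_lit 2) (nat_lit 6) (nat_lit 11) (C.cons (nat_lit 2118) (C.node (nat_lit 2) (nat_lit 7) (nat_lit 11) (C.cons (nat_lit 2180) (C.node (nat_lit 1) (nat_lit 2) (nat_lit 3) (C.cons (nat_lit 46) (C.miq (nat_lit 1369056011) (nat_lit 1864220946339289372131657757)) C.nil)) C.nil)) (C.cons (nat_lit 2116) (C.node (nat_lit 1) (nat_lit 2) (nat_lit 11) (C.cons (nat_lit 2182) (C.node (nat_lit 7) (nat_lit 8) (nat_lit 11) (C.cons (nat_lit 2432) (C.node (nat_lit 3) (nat_lit 5)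 (nat_lit 11) C.nil) C.nil)) (C.cons (nat_lit 2054)
  (C.node (nat_lit 2) (nat_lit 7) (nat_lit 11) C.nil) C.nil))) C.nil))) C.nil))))))) C.nil)) C.nil))) C.nil)))) C.nil)))) C.nil)))) (C.cons (nat_lit 2184) (C.node (nat_lit 3) (nat_lit 9) (nat_lit 11) (C.cons (nat_lit 2600) (C.miq (nat_lit 462725968) (nat_lit 3114214513332112113102029865)) (C.cons (nat_lit 2568) (C.node (nat_lit 7) (nat_lit 9) (nat_lit 11) (C.cons (nat_lit 2690) (C.miq (nat_lit 1654327831) (nat_lit 3099727731248847518318068883)) (C.cons (nat_lit 2688) (C.node (nat_lit 3) (nat_lit 5) (nat_lit 11) (C.cons (nat_lit 2344) (C.node (nat_lit 2) (nat_lit 8) (nat_lit 11) (C.cons (nat_lit 2436) (C.miq (nat_lit 1923124051) (nat_lit 1321363171094897047902947624)) (C.cons (nat_lit 2372) (C.miq (nat_lit 347605602) (nat_lit 2804712753329251806550950981)) C.nil))) C.nil)) C.nil))) C.nil))) C.nil))) C.nil)) C.nil))) (C.cons (nat_lit 1030) (C.node (nat_lit 1) (nat_lit 9) (nat_lit 10) (C.cons (nat_lit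 1634) (C.miq (nat_lit 2478182474) (nat_lit 2562952879710050625457751187)) (C.cons (nat_lit 1602) (C.miq (nat_lit 2478182474) (nat_lit 2562952289414240266752099475)) (C.cons (nat_lit 1570) (C.miq (nat_lit 457810693) (nat_lit 3114221873582995276945228841)) (C.cons (nat_lit 1538) (C.node (nat_lit 1) (nat_lit 4) (nat_lit 11) (C.cons (nat_lit 2098) (C.node (nat_lit 5) (nat_lit 9) (nat_lit 11) (C.cons (nat_lit 2600) (C.miq (nat_lit 893499658) (nat_lit 2536383223148564530372742913)) (C.cons (nat_lit 2592) (C.node (nat_lit 1) (nat_lit 6) (nat_lit 10) (C.cons (nat_lit 1378) (C.miq (nat_lit 1101182304) (nat_lit 1245231908681049564361591009)) (C.cons (nat_lit 1346) (C.miq (nat_lit 447907392) (nat_lit 3757346299234837717124448593)) (C.cons (nat_lit 1122) (C.miq (nat_lit 1101182304) (nat_lit 1245231908681048464849963233)) (C.cons (nat_lit 1090) (C.node (nat_lit 1) (nat_lit 5) (nat_lit 10) (C.cons (nat_lit 1314) (C.node (nat_lit 4) (nat_lit 5) (nat_lit 10) (C.cons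 (nat_lit 1072) (C.node (nat_lit 4) (nat_lit 8) (nat_lit 10) (C.cons (nat_lit 1296) (C.node (nat_lit 3) (nat_lit 5) (nat_lit 11) (C.cons (nat_lit 2344) (C.miq (nat_lit 890550432) (nat_lit 2536364684098716092345814785)) (C.cons (nat_lit 2088) (C.node (nat_lit 3) (nat_lit 8) (nat_lit 11) (C.cons (nat_lit 2312) (C.node (nat_lit 5) (nat_lit 8) (nat_lit 11) (C.cons (nat_lit 2336) (C.node (nat_lit 2) (nat_lit 9) (nat_lit 10) (C.cons (nat_lit 1548) (C.node (nat_lit 5) (nat_lit 6) (nat_lit 10) (C.cons (nat_lit 1632) (C.miq (nat_lit 995696746) (nat_lit 3133564280585578212419961925)) C.nil)) C.nil)) C.nil)) C.nil)) C.nil))) C.nil)) C.nil)) (C.cons (nat_lit 1058) (C.node (nat_lit 1) (nat_lit 8) (nat_lit 10) (C.cons (nat_lit 1282) (C.node (nat_lit 2) (nat_lit 9) (nat_lit 10) (C.cons (nat_lit 1548) (C.node (nat_lit 3) (nat_lit 7) (nat_lit 11) (C.cons (nat_lit 2696) (C.miq (nat_lit 1798965138) (nat_lit 3725929538983363882380952197)) (C.cons (nat_lit 2184) (C.node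 (nat_lit 3) (nat_lit 9) (nat_lit 11) (C.cons (nat_lit 2568) (C.node (nat_lit 5) (nat_lit 6) (nat_lit 10) (C.cons (nat_lit 1632) (C.miq (nat_lit 1497066016) (nat_lit 3104563434679021073193567301)) (C.cons (nat_lit 1376) (C.miq (nat_lit 2217369781) (nat_lit 1262143938492384270738524385)) C.nil))) C.nil)) C.nil))) (C.cons (nat_lit 1540) (C.node (nat_lit 3) (nat_lit 5) (nat_lit 11) (C.cons (nat_lit 2344) (C.node (nat_lit 2) (nat_lit 7) (nat_lit 11) (C.cons (nat_lit 2436) (C.miq (nat_lit 1923124051) (nat_lit 1321363171094897047902947624)) (C.cons (nat_lit 2182) (C.miq (nat_lit 727281984) (nat_lit 3133547623205233773560005779)) (C.cons (nat_lit 2180) (C.node (nat_lit 2) (nat_lit 8) (nat_lit 11) (C.cons (nat_lit 2372) (C.miq (nat_lit 2175148107) (nat_lit 1317772899130921587974342685)) (C.cons (nat_lit 2308) (C.node (nat_lit 1) (nat_lit 2) (nat_lit 11) (C.cons (nat_lit 2054) (C.node (nat_lit 4) (nat_lit 5) (nat_lit 10) C.nil) C.nil)) C.nil))) C.nil)))) (C.cons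 (nat_lit 2088) (C.node (nat_lit 3) (nat_lit 8) (nat_lit 11) (C.cons (nat_lit 2312) (C.node (nat_lit 5) (nat_lit 8) (nat_lit 11) (C.cons (nat_lit 2336)
  (C.node (nat_lit 4) (nat_lit 5) (nat_lit 10) C.nil) C.nil)) C.nil)) C.nil))) C.nil))) C.nil)) C.nil))) C.nil))))) C.nil))) (C.cons (nat_lit 2066) (C.node (nat_lit 4) (nat_lit 5) (nat_lit 11) (C.cons (nat_lit 2096) (C.node (nat_lit 2) (nat_lit 9) (nat_lit 10) (C.cons (nat_lit 1548) (C.node (nat_lit 3) (nat_lit 7) (nat_lit 11) (C.cons (nat_lit 2696) (C.miq (nat_lit 1798965138) (nat_lit 3725929538983363882380952197)) (C.cons (nat_lit 2184) (C.node (nat_lit 3) (nat_lit 9) (nat_lit 11) (C.cons (nat_lit 2600) (C.miq (nat_lit 462725968) (nat_lit 3114214513332112113102029865)) (C.cons (nat_lit 2568) (C.node (nat_lit 2) (nat_lit 8) (nat_lit 11) (C.cons (nat_lit 2436) (C.miq (nat_lit 2191752016) (nat_lit 1871424419019553322394257633)) (C.cons (nat_lit 2372) (C.miq (nat_lit 347605602) (nat_lit 2804712753329251806550950981))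 (C.cons (nat_lit 2308) (C.node (nat_lit 2) (nat_lit 6) (nat_lit 11) (C.cons (nat_lit 2118) (C.node (nat_lit 2) (nat_lit 7) (nat_lit 11) C.nil) C.nil)) C.nil)))) C.nil))) C.nil))) (C.cons (nat_lit 1540) (C.node (nat_lit 3) (nat_lit 7) (nat_lit 11) (C.cons (nat_lit 2696) (C.node (nat_lit 2) (nat_lit 8) (nat_lit 11) (C.cons (nat_lit 2436) (C.miq (nat_lit 2168135831) (nat_lit 3725954312394880838231655045)) (C.cons (nat_lit 2372) (C.miq (nat_lit 347605602) (nat_lit 2804712753329251806550950981)) (C.cons (nat_lit 2308) (C.node (nat_lit 2) (nat_lit 6) (nat_lit 11) (C.cons (nat_lit 2118) (C.node (nat_lit 2) (nat_lit 7) (nat_lit 11) (C.cons (nat_lit 2180) (C.node (nat_lit 6) (nat_lit 8) (nat_lit 11) (C.cons (nat_lit 2368) (C.node (nat_lit 6) (nat_lit 9) (nat_lit 11) C.nil) C.nil)) C.nil)) (C.cons (nat_lit 2116) (C.node (nat_lit 1) (nat_lit 2) (nat_lit 11) (C.cons (nat_lit 2182) (C.node (nat_lit 7) (nat_lit 8) (nat_lit 11) (C.cons (nat_lit 2432) (C.node (nat_lit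 3) (nat_lit 5) (nat_lit 11) C.nil) C.nil)) (C.cons (nat_lit 2054) (C.node (nat_lit 2) (nat_lit 7) (nat_lit 11) C.nil) C.nil))) C.nil))) C.nil)))) (C.cons (nat_lit 2184) (C.node (nat_lit 3) (nat_lit 9) (nat_lit 11) (C.cons (nat_lit 2600) (C.miq (nat_lit 462725968) (nat_lit 3114214513332112113102029865)) (C.cons (nat_lit 2568) (C.node (nat_lit 3) (nat_lit 5) (nat_lit 11) (C.cons (nat_lit 2344) (C.node (nat_lit 2) (nat_lit 8) (nat_lit 11) (C.cons (nat_lit 2436) (C.miq (nat_lit 1923124051) (nat_lit 1321363171094897047902947624)) (C.cons (nat_lit 2372) (C.miq (nat_lit 347605602) (nat_lit 2804712753329251806550950981)) (C.cons (nat_lit 2308) (C.node (nat_lit 7) (nat_lit 8) (nat_lit 11) (C.cons (nat_lit 2434) (C.miq (nat_lit 2208412935) (nat_lit 3725954276087144445119760609)) C.nil)) C.nil)))) (C.cons (nat_lit 2088) (C.node (nat_lit 3) (nat_lit 8) (nat_lit 11) C.nil) C.nil))) C.nil))) C.nil))) C.nil))) C.nil)) C.nil))) C.nil))))) C.nil))) C.nil))))) C.nil)))))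 C.nil))) (C.cons (nat_lit 3076) (C.node (nat_lit 5) (nat_lit 10) (nat_lit 11) (C.cons (nat_lit 3104) (C.node (nat_lit 3) (nat_lit 7) (nat_lit 11) (C.cons (nat_lit 2696) (C.node (nat_lit 3) (nat_lit 5) (nat_lit 11) (C.cons (nat_lit 2344) (C.node (nat_lit 4) (nat_lit 8) (nat_lit 11) (C.cons (nat_lit 2322) (C.miq (nat_lit 463635552) (nat_lit 3718660673281889160738963793)) (C.cons (nat_lit 2320) (C.node (nat_lit 2) (nat_lit 8) (nat_lit 11) (C.cons (nat_lit 2436) (C.miq (nat_lit 330828146) (nat_lit 2833726972817605163334500997)) (C.cons (nat_lit 2372) (C.miq (nat_lit 347605602) (nat_lit 2804712753329251806550950981)) (C.cons (nat_lit 2308) (C.node (nat_lit 7) (nat_lit 8) (nat_lit 11) (C.cons (nat_lit 2434) (C.miq (nat_lit 2208412935) (nat_lit 3725954276087144445119760609)) (C.cons (nat_lit 2432) (C.node (nat_lit 3) (nat_lit 4) (nat_lit 7) (C.cons (nat_lit 216) (C.miq (nat_lit 2319649639) (nat_lit 1266961509607711266242562273)) (C.cons (nat_lit 184) (C.miq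 (nat_lit 2202711408) (nat_lit 1267025113559896629240334561)) (C.cons (nat_lit 152) (C.node (nat_lit 1) (nat_lit 8) (nat_lit 10) (C.cons (nat_lit 1378) (C.miq (nat_lit 1747689732) (nat_lit 2790258936195758115348350099)) (C.cons (nat_lit 1346)
  (C.miq (nat_lit 1747689732) (nat_lit 2790258936186750916093609107)) (C.cons (nat_lit 1314) (C.miq (nat_lit 414491952) (nat_lit 2804729503013118186140533801)) (C.cons (nat_lit 1282) (C.node (nat_lit 3) (nat_lit 5) (nat_lit 7) (C.cons (nat_lit 174) (C.miq (nat_lit 2199565680) (nat_lit 3725980230656052327643023585)) (C.cons (nat_lit 172) (C.miq (nat_lit 2149955955) (nat_lit 44773495574998210463926920)) (C.cons (nat_lit 170) (C.miq (nat_lit 2199565680) (nat_lit 3725980230656052310463154401)) (C.cons (nat_lit 168) (C.node (nat_lit 2) (nat_lit 9) (nat_lit 11) (C.cons (nat_lit 2630) (C.miq (nat_lit 2209417106) (nat_lit 3725914227656609747307987589)) (C.cons (nat_lit 2628) (C.miq (nat_lit 1268229664) (nat_lit 3259285611705570982701106245))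 (C.cons (nat_lit 2598) (C.miq (nat_lit 624401280) (nat_lit 203111436576467300934815489)) (C.cons (nat_lit 2596) (C.miq (nat_lit 624401280) (nat_lit 203111436575904350981394177)) (C.cons (nat_lit 2566) (C.miq (nat_lit 2209417106) (nat_lit 3725914227656609747303793285)) (C.cons (nat_lit 2564) (C.node (nat_lit 1) (nat_lit 4) (nat_lit 11) (C.cons (nat_lit 2098) (C.node (nat_lit 2) (nat_lit 5) (nat_lit 11) (C.cons (nat_lit 2084) (C.node (nat_lit 5) (nat_lit 9) (nat_lit 11) C.nil) C.nil)) (C.cons (nat_lit 2066) (C.node (nat_lit 4) (nat_lit 5) (nat_lit 11) C.nil) C.nil))) C.nil))))))) C.nil))))) C.nil))))) C.nil)))) C.nil))) C.nil)))) C.nil))) (C.cons (nat_lit 2088) (C.node (nat_lit 3) (nat_lit 8) (nat_lit 11) (C.cons (nat_lit 2312) (C.node (nat_lit 2) (nat_lit 7) (nat_lit 11) (C.cons (nat_lit 2436) (C.miq (nat_lit 330828146) (nat_lit 2795041346589937029743903365)) (C.cons (nat_lit 2182) (C.node (nat_lit 7) (nat_lit 8) (nat_lit 11) (C.cons (nat_lit 2432) (C.node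 (nat_lit 2) (nat_lit 6) (nat_lit 11) (C.cons (nat_lit 2628) (C.miq (nat_lit 1268229664) (nat_lit 3259285611705570982701106245)) (C.cons (nat_lit 2372) (C.miq (nat_lit 1093142454) (nat_lit 317953707441016882568890593)) (C.cons (nat_lit 2116) (C.node (nat_lit 2) (nat_lit 8) (nat_lit 11) (C.cons (nat_lit 2340) (C.node (nat_lit 2) (nat_lit 9) (nat_lit 11) (C.cons (nat_lit 2564) (C.node (nat_lit 4) (nat_lit 5) (nat_lit 11) C.nil) C.nil)) (C.cons (nat_lit 2308) (C.node (nat_lit 2) (nat_lit 5) (nat_lit 11) (C.cons (nat_lit 2596) (C.node (nat_lit 1) (nat_lit 9) (nat_lit 11) C.nil) C.nil)) C.nil))) C.nil)))) C.nil)) (C.cons (nat_lit 2180) (C.node (nat_lit 1) (nat_lit 7) (nat_lit 11) (C.cons (nat_lit 2434) (C.node (nat_lit 6) (nat_lit 8) (nat_lit 11) (C.cons (nat_lit 2372) (C.miq (nat_lit 2709653430) (nat_lit 317967653179537689321670881)) (C.cons (nat_lit 2368) (C.node (nat_lit 1) (nat_lit 4) (nat_lit 11) (C.cons (nat_lit 2098) (C.node (nat_lit 4) (nat_lit 8)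 (nat_lit 11) (C.cons (nat_lit 2320) (C.node (nat_lit 2) (nat_lit 8) (nat_lit 11) C.nil) C.nil)) (C.cons (nat_lit 2066) (C.node (nat_lit 2) (nat_lit 8) (nat_lit 11) (C.cons (nat_lit 2340) (C.node (nat_lit 4) (nat_lit 5) (nat_lit 11) C.nil) C.nil)) C.nil))) C.nil))) (C.cons (nat_lit 2178) (C.node (nat_lit 7) (nat_lit 8) (nat_lit 11) (C.cons (nat_lit 2432) (C.node (nat_lit 2) (nat_lit 8) (nat_lit 11) (C.cons (nat_lit 2372) (C.miq (nat_lit 732005952) (nat_lit 3725914228213650684627845457)) (C.cons (nat_lit 2340) (C.node (nat_lit 4) (nat_lit 8) (nat_lit 11) (C.cons (nat_lit 2322) (C.miq (nat_lit 1803723792) (nat_lit 2828906581076723932875654291)) C.nil)) C.nil))) C.nil)) C.nil))) C.nil)))) C.nil)) C.nil))) (C.cons (nat_lit 2184) (C.node (nat_lit 3) (nat_lit 9) (nat_lit 11) (C.cons (nat_lit 2600) (C.miq (nat_lit 462725968) (nat_lit 3114214513332112113102029865)) (C.cons (nat_lit 2568) (C.node (nat_lit 3) (nat_lit 5) (nat_lit 11) (C.cons (nat_lit 2344) (C.node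 (nat_lit 4) (nat_lit 8) (nat_lit 11) (C.cons (nat_lit 2322) (C.miq (nat_lit 463635552) (nat_lit 3718660673281889160738963793)) (C.cons (nat_lit 2320) (C.node (nat_lit 1) (nat_lit 8) (nat_lit 10) (C.cons (nat_lit 1378) (C.miq (nat_lit 414491952) (nat_lit 2804729503031132584650015785)) (C.cons (nat_lit 1346)
  (C.miq (nat_lit 447907392) (nat_lit 3718660673007169583533850961)) (C.cons (nat_lit 1314) (C.miq (nat_lit 414491952) (nat_lit 2804729503013118186140533801)) (C.cons (nat_lit 1282) (C.node (nat_lit 1) (nat_lit 4) (nat_lit 11) (C.cons (nat_lit 2098) (C.node (nat_lit 1) (nat_lit 6) (nat_lit 10) (C.cons (nat_lit 1634) (C.miq (nat_lit 827636368) (nat_lit 2536364684306445999507836673)) (C.cons (nat_lit 1602) (C.miq (nat_lit 2478182474) (nat_lit 2562952289414240266752099475)) (C.cons (nat_lit 1122) (C.miq (nat_lit 605686614) (nat_lit 1415672297644635865663801569)) (C.cons (nat_lit 1090) (C.node (nat_lit 2) (nat_lit 5) (nat_lit 11) (C.cons (nat_lit 2596)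 (C.node (nat_lit 7) (nat_lit 9) (nat_lit 11) (C.cons (nat_lit 2690) (C.miq (nat_lit 1500623364) (nat_lit 3252049156763130932470417437)) (C.cons (nat_lit 2688) (C.node (nat_lit 1) (nat_lit 2) (nat_lit 11) (C.cons (nat_lit 2054) (C.miq (nat_lit 1924204884) (nat_lit 2483155234807321148582396465)) C.nil)) C.nil))) (C.cons (nat_lit 2084) (C.node (nat_lit 5) (nat_lit 9) (nat_lit 11) (C.cons (nat_lit 2592) (C.node (nat_lit 7) (nat_lit 9) (nat_lit 11) (C.cons (nat_lit 2690) (C.node (nat_lit 1) (nat_lit 2) (nat_lit 11) C.nil) C.nil)) C.nil)) C.nil))) C.nil))))) (C.cons (nat_lit 2066) (C.node (nat_lit 4) (nat_lit 5) (nat_lit 11) (C.cons (nat_lit 2096) (C.node (nat_lit 7) (nat_lit 9) (nat_lit 11) (C.cons (nat_lit 2690) (C.node (nat_lit 6) (nat_lit 9) (nat_lit 11) (C.cons (nat_lit 2628) (C.miq (nat_lit 459962656) (nat_lit 3810555785319800447156159109)) C.nil)) C.nil)) C.nil)) C.nil))) C.nil))))) C.nil))) (C.cons (nat_lit 2088) (C.node (nat_lit 3) (nat_lit 8) (nat_lit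 11) (C.cons (nat_lit 2312) (C.node (nat_lit 7) (nat_lit 9) (nat_lit 11) (C.cons (nat_lit 2690) (C.node (nat_lit 6) (nat_lit 9) (nat_lit 11) (C.cons (nat_lit 2628) (C.miq (nat_lit 459962656) (nat_lit 3810555785319800447156159109)) (C.cons (nat_lit 2624) (C.node (nat_lit 2) (nat_lit 7) (nat_lit 11) (C.cons (nat_lit 2436) (C.node (nat_lit 2) (nat_lit 6) (nat_lit 11) (C.cons (nat_lit 2118) (C.node (nat_lit 6) (nat_lit 8) (nat_lit 11) C.nil) C.nil)) C.nil)) C.nil))) (C.cons (nat_lit 2688) (C.node (nat_lit 6) (nat_lit 8) (nat_lit 11) (C.cons (nat_lit 2372) (C.miq (nat_lit 732005952) (nat_lit 3725914228213650684627845457)) (C.cons (nat_lit 2370) (C.node (nat_lit 2) (nat_lit 6) (nat_lit 11) (C.cons (nat_lit 2628) (C.miq (nat_lit 1268229664) (nat_lit 3249614205148653949303456837)) C.nil)) (C.cons (nat_lit 2368) (C.node (nat_lit 1) (nat_lit 7) (nat_lit 11) C.nil) C.nil)))) C.nil))) C.nil)) C.nil))) C.nil))) C.nil))) C.nil)) C.nil))) C.nil)))) C.nil))) (C.cons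 (nat_lit 3080) (C.node (nat_lit 7) (nat_lit 10) (nat_lit 11) (C.cons (nat_lit 3204) (C.node (nat_lit 1) (nat_lit 10) (nat_lit 11) (C.cons (nat_lit 3106) (C.node (nat_lit 1) (nat_lit 4) (nat_lit 11) (C.cons (nat_lit 2322) (C.miq (nat_lit 463635552) (nat_lit 3873403178192561695101354321)) (C.cons (nat_lit 2066) (C.node (nat_lit 4) (nat_lit 5) (nat_lit 11) (C.cons (nat_lit 2352) (C.node (nat_lit 2) (nat_lit 5) (nat_lit 11) (C.cons (nat_lit 2596) (C.miq (nat_lit 692761863) (nat_lit 1876311976140628093641623777)) (C.cons (nat_lit 2084) (C.node (nat_lit 2) (nat_lit 8) (nat_lit 11) (C.cons (nat_lit 2372) (C.miq (nat_lit 347605602) (nat_lit 2843398379556919940141548613)) (C.cons (nat_lit 2308) (C.node (nat_lit 4) (nat_lit 8) (nat_lit 10) (C.cons (nat_lit 1300) (C.miq (nat_lit 1797785508) (nat_lit 2790207008863123358564484243)) (C.cons (nat_lit 1296) (C.node (nat_lit 7) (nat_lit 8) (nat_lit 11) (C.cons (nat_lit 2434) (C.miq (nat_lit 901253655) (nat_lit 2843400777603812977287496851))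 (C.cons (nat_lit 2432) (C.node (nat_lit 1) (nat_lit 8) (nat_lit 10) (C.cons (nat_lit 1354) (C.miq (nat_lit 1747689732) (nat_lit 2790258936189002715907294355)) (C.cons (nat_lit 1346) (C.miq (nat_lit 1747689732) (nat_lit 2790258936186750916093609107)) (C.cons (nat_lit 1290) (C.miq (nat_lit 410755845) (nat_lit 2940164889252975502780597289)) (C.cons (nat_lit 1282) (C.node (nat_lit 2) (nat_lit 4) (nat_lit 10)
  (C.cons (nat_lit 1076) (C.node (nat_lit 1) (nat_lit 2) (nat_lit 10) (C.cons (nat_lit 1542) (C.miq (nat_lit 352955250) (nat_lit 678235830557439667304991876)) (C.cons (nat_lit 1038) (C.miq (nat_lit 2510357539) (nat_lit 3754933243528100850120394781)) (C.cons (nat_lit 1030) (C.node (nat_lit 1) (nat_lit 2) (nat_lit 4) (C.cons (nat_lit 598) (C.miq (nat_lit 1636450827) (nat_lit 1549901045051598100381108253)) (C.cons (nat_lit 534) (C.miq (nat_lit 824838469) (nat_lit 1245213240132720257022558769)) (C.cons (nat_lit 86) (C.miq (nat_lit 1636450827) (nat_lit 1549901044907482912305252381))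 (C.cons (nat_lit 22) (C.node (nat_lit 1) (nat_lit 3) (nat_lit 10) (C.cons (nat_lit 1098) (C.node (nat_lit 1) (nat_lit 9) (nat_lit 10) (C.cons (nat_lit 1538) (C.node (nat_lit 1) (nat_lit 4) (nat_lit 6) (C.cons (nat_lit 594) (C.miq (nat_lit 1416235283) (nat_lit 3810553829365659672563548683)) (C.cons (nat_lit 114) (C.miq (nat_lit 2316569430) (nat_lit 1415658352402642329421351137)) (C.cons (nat_lit 82) (C.node (nat_lit 3) (nat_lit 6) (nat_lit 11) (C.cons (nat_lit 2632) (C.miq (nat_lit 1177660304) (nat_lit 1327422151961393578692513537)) (C.cons (nat_lit 2376) (C.miq (nat_lit 1000834624) (nat_lit 3873405576284490926090551633)) (C.cons (nat_lit 2120) (C.node (nat_lit 6) (nat_lit 7) (nat_lit 10) (C.cons (nat_lit 1728) (C.miq (nat_lit 615058279) (nat_lit 1876264770776469086282975457)) (C.cons (nat_lit 1472) (C.miq (nat_lit 713340768) (nat_lit 1566806177009852652752799969)) (C.cons (nat_lit 1216) (C.node (nat_lit 6) (nat_lit 8) (nat_lit 10) (C.cons (nat_lit 1376)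 (C.miq (nat_lit 1648730296) (nat_lit 1300829564932847486672834305)) (C.cons (nat_lit 1344) (C.node (nat_lit 1) (nat_lit 4) (nat_lit 5) (C.cons (nat_lit 58) (C.node (nat_lit 4) (nat_lit 5) (nat_lit 6) (C.cons (nat_lit 112) (C.node (nat_lit 4) (nat_lit 5) (nat_lit 7) C.nil) C.nil)) (C.cons (nat_lit 50) (C.node (nat_lit 1) (nat_lit 3) (nat_lit 4) (C.cons (nat_lit 282) (C.node (nat_lit 1) (nat_lit 4) (nat_lit 9) C.nil) (C.cons (nat_lit 26) (C.node (nat_lit 1) (nat_lit 4) (nat_lit 8) C.nil) C.nil))) C.nil))) C.nil))) C.nil)))) C.nil)))) C.nil)))) C.nil)) (C.cons (nat_lit 1034) (C.node (nat_lit 1) (nat_lit 6) (nat_lit 10) (C.cons (nat_lit 1602) (C.node (nat_lit 3) (nat_lit 5) (nat_lit 11) (C.cons (nat_lit 2600) (C.miq (nat_lit 1765515524) (nat_lit 3143265275586281345837237395)) (C.cons (nat_lit 2088) (C.node (nat_lit 5) (nat_lit 9) (nat_lit 11) (C.cons (nat_lit 2592) (C.node (nat_lit 5) (nat_lit 6) (nat_lit 10) (C.cons (nat_lit 1376) (C.miq (nat_lit 1648730296)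 (nat_lit 1300829564932847486672834305)) (C.cons (nat_lit 1120) (C.node (nat_lit 5) (nat_lit 9) (nat_lit 10) (C.cons (nat_lit 1696) (C.miq (nat_lit 1967302923) (nat_lit 1300863285750737127501270785)) (C.cons (nat_lit 1568) (C.node (nat_lit 9) (nat_lit 10) (nat_lit 7) (C.cons (nat_lit 1672) (C.node (nat_lit 9) (nat_lit 10) (nat_lit 2) C.nil) C.nil)) C.nil))) C.nil))) C.nil)) C.nil))) (C.cons (nat_lit 1090) (C.node (nat_lit 1) (nat_lit 9) (nat_lit 10) (C.cons (nat_lit 1538) (C.node (nat_lit 2) (nat_lit 8) (nat_lit 10) (C.cons (nat_lit 1292) (C.node (nat_lit 2) (nat_lit 9) (nat_lit 10) (C.cons (nat_lit 1540) (C.node (nat_lit 5) (nat_lit 7) (nat_lit 10) (C.cons (nat_lit 1696) (C.miq (nat_lit 1967302923) (nat_lit 1300863285750737127501270785)) (C.cons (nat_lit 1440) (C.miq (nat_lit 1379443719) (nat_lit 1561958722556443031088202899)) C.nil))) C.nil)) (C.cons (nat_lit 1284) (C.node (nat_lit 2) (nat_lit 3) (nat_lit 10) (C.cons (nat_lit 1548) (C.node (nat_lit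 7) (nat_lit 9) (nat_lit 10) (C.cons (nat_lit 1728) (C.miq (nat_lit 1251128944) (nat_lit 1871455483538103605521615073)) (C.cons (nat_lit 1696) (C.miq (nat_lit 1967302923) (nat_lit 1300863285750737127501270785)) C.nil))) C.nil)) C.nil))) C.nil)) C.nil))) C.nil))) C.nil))))) C.nil)))) (C.cons (nat_lit 1044) (C.node (nat_lit 4) (nat_lit 5) (nat_lit 10) (C.cons (nat_lit 1072) (C.node (nat_lit 3) (nat_lit 5) (nat_lit 11) (C.cons (nat_lit 2600) (C.node (nat_lit 3) (nat_lit 7) (nat_lit 11) (C.cons (nat_lit 2186)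
  (C.miq (nat_lit 1094256565) (nat_lit 632278552611492996126869729)) (C.cons (nat_lit 2184) (C.node (nat_lit 1) (nat_lit 7) (nat_lit 11) (C.cons (nat_lit 2690) (C.miq (nat_lit 2710767541) (nat_lit 632287849770508310404401377)) (C.cons (nat_lit 2178) (C.node (nat_lit 7) (nat_lit 9) (nat_lit 11) (C.cons (nat_lit 2688) (C.node (nat_lit 1) (nat_lit 2) (nat_lit 11) (C.cons (nat_lit 2054) (C.node (nat_lit 1) (nat_lit 9) (nat_lit 11) C.nil) C.nil)) C.nil)) C.nil))) C.nil))) (C.cons (nat_lit 2088) (C.node (nat_lit 5) (nat_lit 9) (nat_lit 11) (C.cons (nat_lit 2592) (C.ref (nat_lit 239) (nat_lit 198064386771216)) C.nil)) C.nil))) C.nil)) C.nil))) C.nil))))) C.nil))) C.nil))) C.nil))) C.nil))) (C.cons (nat_lit 2096) (C.node (nat_lit 4) (nat_lit 8) (nat_lit 11) (C.cons (nat_lit 2320) (C.node (nat_lit 7) (nat_lit 8) (nat_lit 11) (C.cons (nat_lit 2434) (C.node (nat_lit 3) (nat_lit 5) (nat_lit 11) (C.cons (nat_lit 2600) (C.miq (nat_lit 2203807905) (nat_lit 3143252030483735503475704979))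 (C.cons (nat_lit 2344) (C.node (nat_lit 2) (nat_lit 5) (nat_lit 11) (C.cons (nat_lit 2596) (C.miq (nat_lit 692761863) (nat_lit 1876311976140628093641623777)) (C.cons (nat_lit 2084) (C.node (nat_lit 5) (nat_lit 9) (nat_lit 11) (C.cons (nat_lit 2592) (C.node (nat_lit 2) (nat_lit 8) (nat_lit 11) (C.cons (nat_lit 2372) (C.miq (nat_lit 2709653430) (nat_lit 317967653179537689321670881)) (C.cons (nat_lit 2308) (C.node (nat_lit 6) (nat_lit 8) (nat_lit 11) (C.cons (nat_lit 2368) (C.node (nat_lit 1) (nat_lit 3) (nat_lit 11) (C.cons (nat_lit 2058) (C.node (nat_lit 3) (nat_lit 6) (nat_lit 11) C.nil) C.nil)) C.nil)) C.nil))) C.nil)) C.nil))) (C.cons (nat_lit 2088) (C.miq (nat_lit 2203807905) (nat_lit 2524282010841045366026142867)) C.nil)))) (C.cons (nat_lit 2432) (C.node (nat_lit 1) (nat_lit 8) (nat_lit 10) (C.cons (nat_lit 1354) (C.miq (nat_lit 410755845) (nat_lit 2940164889270989901290079273)) (C.cons (nat_lit 1346) (C.miq (nat_lit 447907392) (nat_lit 3873403177917842117896241489))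 (C.cons (nat_lit 1290) (C.miq (nat_lit 410755845) (nat_lit 2940164889252975502780597289)) (C.cons (nat_lit 1282) (C.node (nat_lit 1) (nat_lit 2) (nat_lit 10) (C.cons (nat_lit 1542) (C.miq (nat_lit 352955250) (nat_lit 678235830557439667304991876)) (C.cons (nat_lit 1038) (C.node (nat_lit 2) (nat_lit 4) (nat_lit 10) (C.cons (nat_lit 1332) (C.miq (nat_lit 2510357539) (nat_lit 3754933243528101949632022557)) (C.cons (nat_lit 1300) (C.miq (nat_lit 654879588) (nat_lit 475131828777700675940322384)) (C.cons (nat_lit 1076) (C.miq (nat_lit 2510357539) (nat_lit 3754933243528100850120394781)) (C.cons (nat_lit 1044) (C.node (nat_lit 2) (nat_lit 6) (nat_lit 11) (C.cons (nat_lit 2630) (C.miq (nat_lit 1638249008) (nat_lit 3754965525912601405443082269)) (C.cons (nat_lit 2628) (C.miq (nat_lit 1958283874) (nat_lit 3114204809806833032341226565)) (C.cons (nat_lit 2372) (C.miq (nat_lit 2225234043) (nat_lit 1262162311449477794217855201)) (C.cons (nat_lit 2118) (C.miq (nat_lit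 1638249008) (nat_lit 3754965525768486217367226397)) (C.cons (nat_lit 2116) (C.node (nat_lit 1) (nat_lit 2) (nat_lit 11) (C.cons (nat_lit 2566) (C.node (nat_lit 1) (nat_lit 7) (nat_lit 11) (C.cons (nat_lit 2186) (C.miq (nat_lit 1729760050) (nat_lit 1415672297699805339050706973)) (C.cons (nat_lit 2178) (C.node (nat_lit 3) (nat_lit 7) (nat_lit 11) (C.cons (nat_lit 2696) (C.miq (nat_lit 2276590481) (nat_lit 3873403177649594506617946635)) (C.cons (nat_lit 2184) (C.node (nat_lit 7) (nat_lit 9) (nat_lit 11) (C.cons (nat_lit 2688) (C.node (nat_lit 3) (nat_lit 8) (nat_lit 11) (C.cons (nat_lit 2376) (C.miq (nat_lit 1000834624) (nat_lit 3873405576284490926090551633)) (C.cons (nat_lit 2344) (C.miq (nat_lit 461874480) (nat_lit 2940129195314359811862758441)) (C.cons (nat_lit 2314) (C.miq (nat_lit 1913850296) (nat_lit 1254872250511968432214904577)) C.nil)))) C.nil)) C.nil))) C.nil))) (C.cons (nat_lit 2054) (C.node (nat_lit 2) (nat_lit 9) (nat_lit 11) (C.cons (nat_lit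 2596) (C.miq (nat_lit 2493665403) (nat_lit 1262166443583200699940604129))
  (C.cons (nat_lit 2564) (C.node (nat_lit 1) (nat_lit 6) (nat_lit 10) (C.cons (nat_lit 1602) (C.node (nat_lit 5) (nat_lit 9) (nat_lit 11) (C.cons (nat_lit 2600) (C.miq (nat_lit 1765515524) (nat_lit 3143265275586281345837237395)) (C.cons (nat_lit 2592) (C.node (nat_lit 3) (nat_lit 5) (nat_lit 11) (C.cons (nat_lit 2344) (C.miq (nat_lit 461874480) (nat_lit 2940129195314359811862758441)) C.nil)) C.nil))) (C.cons (nat_lit 1090) (C.node (nat_lit 1) (nat_lit 9) (nat_lit 10) (C.cons (nat_lit 1538) (C.node (nat_lit 2) (nat_lit 5) (nat_lit 11) (C.cons (nat_lit 2340) (C.node (nat_lit 2) (nat_lit 8) (nat_lit 10) (C.cons (nat_lit 1284) (C.node (nat_lit 3) (nat_lit 5) (nat_lit 11) (C.cons (nat_lit 2600) (C.miq (nat_lit 1377024009) (nat_lit 1254912962953229303292825345)) (C.cons (nat_lit 2088) (C.node (nat_lit 5) (nat_lit 9) (nat_lit 11) C.nil) C.nil))) C.nil)) (C.cons (nat_lit 2084) (C.node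 (nat_lit 2) (nat_lit 8) (nat_lit 11) C.nil) C.nil))) C.nil)) C.nil))) C.nil))) C.nil))) C.nil)))))) C.nil))))) (C.cons (nat_lit 1030) (C.node (nat_lit 1) (nat_lit 3) (nat_lit 10) (C.cons (nat_lit 1098) (C.node (nat_lit 1) (nat_lit 9) (nat_lit 10) (C.cons (nat_lit 1538) (C.node (nat_lit 3) (nat_lit 6) (nat_lit 11) (C.cons (nat_lit 2632) (C.miq (nat_lit 1177660304) (nat_lit 1327422151961393578692513537)) (C.cons (nat_lit 2376) (C.miq (nat_lit 1000834624) (nat_lit 3873405576284490926090551633)) (C.cons (nat_lit 2120) (C.node (nat_lit 6) (nat_lit 7) (nat_lit 10) (C.cons (nat_lit 1728) (C.miq (nat_lit 615058279) (nat_lit 1876264770776469086282975457)) (C.cons (nat_lit 1472) (C.miq (nat_lit 2202693814) (nat_lit 1266981412674036462252984545)) (C.cons (nat_lit 1216) (C.node (nat_lit 1) (nat_lit 4) (nat_lit 6) (C.cons (nat_lit 598) (C.miq (nat_lit 2321615682) (nat_lit 1327405402511713142761195549)) (C.cons (nat_lit 594) (C.miq (nat_lit 1416235283) (nat_lit 3810553829365659672563548683))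 (C.cons (nat_lit 118) (C.miq (nat_lit 2316569430) (nat_lit 1415658352402642329421613281)) (C.cons (nat_lit 114) (C.miq (nat_lit 2316569430) (nat_lit 1415658352402642329421351137)) (C.cons (nat_lit 86) (C.miq (nat_lit 2321615682) (nat_lit 1327405402511713142727641117)) (C.cons (nat_lit 82) (C.node (nat_lit 3) (nat_lit 7) (nat_lit 10) (C.cons (nat_lit 1672) (C.node (nat_lit 2) (nat_lit 3) (nat_lit 10) (C.cons (nat_lit 1292) (C.node (nat_lit 5) (nat_lit 7) (nat_lit 10) (C.cons (nat_lit 1440) (C.miq (nat_lit 1512798256) (nat_lit 3873440255899880933266620809)) (C.cons (nat_lit 1184) (C.node (nat_lit 7) (nat_lit 8) (nat_lit 10) (C.cons (nat_lit 1408) (C.node (nat_lit 3) (nat_lit 6) (nat_lit 7) (C.cons (nat_lit 216) (C.miq (nat_lit 2319649639) (nat_lit 1266961509607711266242562273)) (C.cons (nat_lit 204) (C.miq (nat_lit 3123054647) (nat_lit 1321397851369220164421419401)) (C.cons (nat_lit 200) (C.node (nat_lit 2) (nat_lit 3) (nat_lit 7) (C.cons (nat_lit 174)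 (C.miq (nat_lit 2316503895) (nat_lit 1327407800588442527406622945)) (C.cons (nat_lit 172) (C.miq (nat_lit 1537372291) (nat_lit 3873401499525061672918843785)) (C.cons (nat_lit 142) (C.miq (nat_lit 2591099683) (nat_lit 1415661783497040460306581533)) (C.cons (nat_lit 140) (C.node (nat_lit 1) (nat_lit 2) (nat_lit 3) (C.cons (nat_lit 46) (C.node (nat_lit 2) (nat_lit 3) (nat_lit 6) (C.cons (nat_lit 588) (C.miq (nat_lit 328705568) (nat_lit 2021345571842032343905010757)) (C.cons (nat_lit 76) (C.node (nat_lit 2) (nat_lit 3) (nat_lit 9) (C.cons (nat_lit 524) (C.node (nat_lit 2) (nat_lit 9) (nat_lit 11) (C.cons (nat_lit 2630) (C.miq (nat_lit 2544246859) (nat_lit 1470102311769859322155108381)) (C.cons (nat_lit 2628) (C.miq (nat_lit 2544246859) (nat_lit 1470102274876371174736005149)) (C.cons (nat_lit 2596) (C.miq (nat_lit 1901202105) (nat_lit 55622486181821022764011265)) (C.cons (nat_lit 2566) (C.miq (nat_lit 2438640176) (nat_lit 3754994450389290322902976541)) (C.cons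 (nat_lit 2564) (C.node (nat_lit 3) (nat_lit 7) (nat_lit 11) (C.cons (nat_lit 2186) (C.node (nat_lit 7) (nat_lit 9) (nat_lit 11) C.nil) C.nil)) C.nil)))))) C.nil)) C.nil)))
  (C.cons (nat_lit 14) (C.node (nat_lit 2) (nat_lit 4) (nat_lit 10) (C.cons (nat_lit 1076) (C.node (nat_lit 2) (nat_lit 9) (nat_lit 10) (C.cons (nat_lit 1540) (C.node (nat_lit 4) (nat_lit 8) (nat_lit 10) C.nil) C.nil)) (C.cons (nat_lit 1044) (C.node (nat_lit 2) (nat_lit 5) (nat_lit 10) (C.cons (nat_lit 1572) (C.node (nat_lit 6) (nat_lit 9) (nat_lit 10) C.nil) C.nil)) C.nil))) C.nil))) C.nil))))) C.nil)))) C.nil)) C.nil))) (C.cons (nat_lit 1036) (C.node (nat_lit 3) (nat_lit 8) (nat_lit 10) (C.cons (nat_lit 1288) (C.node (nat_lit 2) (nat_lit 9) (nat_lit 10) (C.cons (nat_lit 1572) (C.node (nat_lit 6) (nat_lit 9) (nat_lit 10) (C.cons (nat_lit 1600) (C.node (nat_lit 2) (nat_lit 4) (nat_lit 10) (C.cons (nat_lit 1300) (C.miq (nat_lit 2256158898) (nat_lit 1470077777513551728681945117)) C.nil))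 C.nil)) (C.cons (nat_lit 1540) (C.node (nat_lit 5) (nat_lit 7) (nat_lit 10) (C.cons (nat_lit 1440) (C.node (nat_lit 6) (nat_lit 8) (nat_lit 10) C.nil) C.nil)) C.nil))) C.nil)) C.nil))) (C.cons (nat_lit 1160) (C.node (nat_lit 7) (nat_lit 9) (nat_lit 10) (C.cons (nat_lit 1696) (C.miq (nat_lit 714389328) (nat_lit 1876291186831198683564935393)) (C.cons (nat_lit 1664) (C.node (nat_lit 3) (nat_lit 8) (nat_lit 10) (C.cons (nat_lit 1292) (C.node (nat_lit 3) (nat_lit 9) (nat_lit 10) (C.cons (nat_lit 1544) (C.node (nat_lit 5) (nat_lit 7) (nat_lit 10) (C.cons (nat_lit 1440) (C.miq (nat_lit 1512798256) (nat_lit 3873440255899880933266620809)) C.nil)) C.nil)) (C.cons (nat_lit 1288) (C.node (nat_lit 2) (nat_lit 3) (nat_lit 10) (C.cons (nat_lit 1548) (C.node (nat_lit 5) (nat_lit 7) (nat_lit 10) (C.cons (nat_lit 1440) (C.node (nat_lit 6) (nat_lit 8) (nat_lit 10) C.nil) C.nil)) C.nil)) C.nil))) C.nil))) C.nil))) C.nil))))))) C.nil)))) C.nil)))) C.nil)) (C.cons (nat_lit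 1034) (C.node (nat_lit 1) (nat_lit 6) (nat_lit 10) (C.cons (nat_lit 1602) (C.node (nat_lit 6) (nat_lit 9) (nat_lit 11) (C.cons (nat_lit 2632) (C.node (nat_lit 3) (nat_lit 5) (nat_lit 11) (C.cons (nat_lit 2344) (C.miq (nat_lit 461874480) (nat_lit 2940129195314359811862758441)) (C.cons (nat_lit 2088) (C.node (nat_lit 5) (nat_lit 9) (nat_lit 11) (C.cons (nat_lit 2596) (C.miq (nat_lit 692761863) (nat_lit 1876311976140628093641623777)) (C.cons (nat_lit 2592) (C.node (nat_lit 3) (nat_lit 4) (nat_lit 6) (C.cons (nat_lit 216) (C.miq (nat_lit 323391674) (nat_lit 261157528867986318111543041)) (C.cons (nat_lit 122) (C.miq (nat_lit 2316569430) (nat_lit 1415658352402642329421875425)) (C.cons (nat_lit 120) (C.miq (nat_lit 323391674) (nat_lit 145100650184981917339750145)) (C.cons (nat_lit 90) (C.node (nat_lit 9) (nat_lit 7) (nat_lit 11) (C.cons (nat_lit 2690) (C.node (nat_lit 9) (nat_lit 2) (nat_lit 11) (C.cons (nat_lit 2564) (C.node (nat_lit 7) (nat_lit 3) (nat_lit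 11) (C.cons (nat_lit 2184) (C.node (nat_lit 1) (nat_lit 3) (nat_lit 11) C.nil) C.nil)) C.nil)) (C.cons (nat_lit 2688) (C.node (nat_lit 1) (nat_lit 9) (nat_lit 11) (C.cons (nat_lit 2566) (C.node (nat_lit 1) (nat_lit 6) (nat_lit 11) (C.cons (nat_lit 2114) (C.node (nat_lit 1) (nat_lit 8) (nat_lit 11) C.nil) C.nil)) (C.cons (nat_lit 2562) (C.node (nat_lit 9) (nat_lit 2) (nat_lit 11) C.nil) C.nil))) C.nil))) (C.cons (nat_lit 88) (C.miq (nat_lit 323391674) (nat_lit 106415023957313783749152513)) C.nil)))))) C.nil))) C.nil))) (C.cons (nat_lit 2628) (C.miq (nat_lit 2053702834) (nat_lit 1936711061502184216177412125)) (C.cons (nat_lit 2624) (C.miq (nat_lit 996738209) (nat_lit 3172230998900574568994440339)) C.nil)))) (C.cons (nat_lit 1090) (C.node (nat_lit 1) (nat_lit 9) (nat_lit 10) (C.cons (nat_lit 1538) (C.ref (nat_lit 240) (nat_lit 198064386771216)) C.nil)) C.nil))) C.nil))) C.nil)))) C.nil))))) C.nil))) C.nil)) C.nil))) C.nil))) (C.cons (nat_lit 3074) (C.node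 (nat_lit 5) (nat_lit 10) (nat_lit 11) (C.cons (nat_lit 3104) (C.node (nat_lit 7) (nat_lit 8) (nat_lit 11) (C.cons (nat_lit 2434) (C.node (nat_lit 3) (nat_lit 8) (nat_lit 11) (C.cons (nat_lit 2376) (C.miq (nat_lit 1000834624) (nat_lit 3873405576284490926090551633)) (C.cons (nat_lit 2344)
  (C.miq (nat_lit 458913840) (nat_lit 3752527345906239432959787401)) (C.cons (nat_lit 2312) (C.node (nat_lit 6) (nat_lit 8) (nat_lit 11) (C.cons (nat_lit 2372) (C.miq (nat_lit 2709653430) (nat_lit 317967653179537689321670881)) (C.cons (nat_lit 2368) (C.node (nat_lit 1) (nat_lit 4) (nat_lit 11) (C.cons (nat_lit 2098) (C.node (nat_lit 4) (nat_lit 8) (nat_lit 11) (C.cons (nat_lit 2320) (C.node (nat_lit 1) (nat_lit 4) (nat_lit 8) (C.cons (nat_lit 786) (C.miq (nat_lit 1900394640) (nat_lit 2536368299685885019539181313)) (C.cons (nat_lit 282) (C.miq (nat_lit 1367847984) (nat_lit 2942567374981822665391147037)) (C.cons (nat_lit 274) (C.node (nat_lit 1) (nat_lit 2) (nat_lit 4)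 (C.cons (nat_lit 598) (C.miq (nat_lit 683020452) (nat_lit 2862747372074442380066948243)) (C.cons (nat_lit 534) (C.miq (nat_lit 565679184) (nat_lit 2942537343242251602449465905)) (C.cons (nat_lit 86) (C.miq (nat_lit 683020452) (nat_lit 2862737927341476640776520851)) (C.cons (nat_lit 22) (C.node (nat_lit 1) (nat_lit 3) (nat_lit 4) (C.cons (nat_lit 90) (C.node (nat_lit 1) (nat_lit 3) (nat_lit 11) (C.cons (nat_lit 2058) (C.node (nat_lit 1) (nat_lit 4) (nat_lit 9) (C.cons (nat_lit 530) (C.node (nat_lit 3) (nat_lit 5) (nat_lit 11) (C.cons (nat_lit 2600) (C.miq (nat_lit 1671119114) (nat_lit 3143265275160691181166331027)) (C.cons (nat_lit 2088) (C.node (nat_lit 3) (nat_lit 6) (nat_lit 11) (C.cons (nat_lit 2632) (C.node (nat_lit 3) (nat_lit 7) (nat_lit 11) (C.cons (nat_lit 2184) (C.node (nat_lit 7) (nat_lit 9) (nat_lit 11) C.nil) C.nil)) (C.cons (nat_lit 2120) (C.miq (nat_lit 2606959169) (nat_lit 2562932386311323323761034387)) C.nil))) C.nil))) C.nil)) C.nil))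 (C.cons (nat_lit 26) (C.node (nat_lit 1) (nat_lit 3) (nat_lit 11) (C.cons (nat_lit 2122) (C.node (nat_lit 2) (nat_lit 6) (nat_lit 11) (C.cons (nat_lit 2628) (C.miq (nat_lit 1958283874) (nat_lit 3114204809806833032341226565)) (C.cons (nat_lit 2116) (C.node (nat_lit 6) (nat_lit 9) (nat_lit 11) (C.cons (nat_lit 2624) (C.node (nat_lit 1) (nat_lit 2) (nat_lit 11) (C.cons (nat_lit 2054) (C.node (nat_lit 1) (nat_lit 9) (nat_lit 11) C.nil) C.nil)) C.nil)) C.nil))) (C.cons (nat_lit 2058) (C.node (nat_lit 3) (nat_lit 6) (nat_lit 11) (C.cons (nat_lit 2632) (C.miq (nat_lit 1662302474) (nat_lit 31490216188145076096143105)) (C.cons (nat_lit 2120) (C.node (nat_lit 1) (nat_lit 4) (nat_lit 6) (C.cons (nat_lit 594) (C.node (nat_lit 1) (nat_lit 7) (nat_lit 9) (C.cons (nat_lit 674) (C.miq (nat_lit 605621079) (nat_lit 718113835585649809949853921)) (C.cons (nat_lit 642) (C.node (nat_lit 6) (nat_lit 9) (nat_lit 11) (C.cons (nat_lit 2628) (C.miq (nat_lit 1958283874) (nat_lit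 3114204809806833032341226565)) (C.cons (nat_lit 2624) (C.node (nat_lit 1) (nat_lit 6) (nat_lit 11) (C.cons (nat_lit 2118) (C.node (nat_lit 1) (nat_lit 9) (nat_lit 11) C.nil) C.nil)) C.nil))) C.nil))) (C.cons (nat_lit 82) (C.node (nat_lit 1) (nat_lit 4) (nat_lit 9) (C.cons (nat_lit 530) (C.node (nat_lit 2) (nat_lit 8) (nat_lit 11) (C.cons (nat_lit 2340) (C.node (nat_lit 3) (nat_lit 5) (nat_lit 11) (C.cons (nat_lit 2088) (C.node (nat_lit 5) (nat_lit 9) (nat_lit 11) C.nil) C.nil)) (C.cons (nat_lit 2308) (C.node (nat_lit 5) (nat_lit 8) (nat_lit 11) C.nil) C.nil))) C.nil)) C.nil))) C.nil))) C.nil))) C.nil))) C.nil))))) C.nil)))) C.nil)) (C.cons (nat_lit 2066) (C.node (nat_lit 2) (nat_lit 8) (nat_lit 11) (C.cons (nat_lit 2340) (C.node (nat_lit 4) (nat_lit 5) (nat_lit 11) (C.cons (nat_lit 2096) (C.node (nat_lit 4) (nat_lit 8) (nat_lit 11) (C.cons (nat_lit 2320) (C.node (nat_lit 1) (nat_lit 2) (nat_lit 7) (C.cons (nat_lit 206) (C.miq (nat_lit 2819754870) (nat_lit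 317967653931075876997171425)) (C.cons (nat_lit 198) (C.miq (nat_lit 2819754870) (nat_lit 317967653931075876996647137)) (C.cons (nat_lit 174) (C.miq (nat_lit 2820737879) (nat_lit 317969092777113222613174497)) (C.cons (nat_lit 166) (C.miq (nat_lit 2820737879) (nat_lit 317969092777113222612650209)) (C.cons (nat_lit 142) (C.miq (nat_lit 2591099683) (nat_lit 1415661783497040460306581533)) (C.cons (nat_lit 134)
  (C.node (nat_lit 1) (nat_lit 8) (nat_lit 10) (C.cons (nat_lit 1378) (C.miq (nat_lit 728237217) (nat_lit 2862741192925770335771559059)) (C.cons (nat_lit 1354) (C.miq (nat_lit 728237217) (nat_lit 2862741192925770335769986195)) (C.cons (nat_lit 1346) (C.miq (nat_lit 728237217) (nat_lit 2862741192925770335769461907)) (C.cons (nat_lit 1314) (C.miq (nat_lit 1264190081) (nat_lit 3752527345805752849110532359)) (C.cons (nat_lit 1290) (C.miq (nat_lit 951427440) (nat_lit 2828906064043783943541032083)) (C.cons (nat_lit 1282) (C.node (nat_lit 3) (nat_lit 7) (nat_lit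 11) (C.cons (nat_lit 2696) (C.node (nat_lit 3) (nat_lit 5) (nat_lit 11) (C.cons (nat_lit 2088) (C.node (nat_lit 1) (nat_lit 3) (nat_lit 11) C.nil) C.nil)) (C.cons (nat_lit 2184) (C.node (nat_lit 7) (nat_lit 9) (nat_lit 11) C.nil) C.nil))) C.nil))))))) C.nil))))))) C.nil)) C.nil)) (C.cons (nat_lit 2308) (C.node (nat_lit 3) (nat_lit 7) (nat_lit 11) (C.cons (nat_lit 2696) (C.node (nat_lit 7) (nat_lit 9) (nat_lit 10) (C.cons (nat_lit 1728) (C.miq (nat_lit 615058279) (nat_lit 1876264770776469086282975457)) (C.cons (nat_lit 1696) (C.miq (nat_lit 714389328) (nat_lit 1876291186831198683564935393)) (C.cons (nat_lit 1664) (C.node (nat_lit 2) (nat_lit 9) (nat_lit 11) (C.cons (nat_lit 2630) (C.miq (nat_lit 2441589251) (nat_lit 2942575178104310450537170973)) (C.cons (nat_lit 2628) (C.miq (nat_lit 1769648644) (nat_lit 2011710708715782288344025117)) (C.cons (nat_lit 2598) (C.miq (nat_lit 692761863) (nat_lit 1876311976141191043595045089)) (C.cons (nat_lit 2596) (C.miq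 (nat_lit 692761863) (nat_lit 1876311976140628093641623777)) (C.cons (nat_lit 2566) (C.miq (nat_lit 2441589251) (nat_lit 2942575178086296052027688989)) (C.cons (nat_lit 2564) (C.node (nat_lit 2) (nat_lit 5) (nat_lit 11) (C.cons (nat_lit 2086) (C.node (nat_lit 2) (nat_lit 6) (nat_lit 11) (C.cons (nat_lit 2116) (C.node (nat_lit 3) (nat_lit 5) (nat_lit 11) C.nil) C.nil)) (C.cons (nat_lit 2084) (C.node (nat_lit 1) (nat_lit 2) (nat_lit 11) (C.cons (nat_lit 2118) (C.node (nat_lit 3) (nat_lit 6) (nat_lit 11) C.nil) C.nil)) C.nil))) C.nil))))))) C.nil)))) (C.cons (nat_lit 2184) (C.node (nat_lit 7) (nat_lit 9) (nat_lit 11) (C.cons (nat_lit 2688) (C.node (nat_lit 4) (nat_lit 5) (nat_lit 11) (C.cons (nat_lit 2352) (C.node (nat_lit 4) (nat_lit 8) (nat_lit 10) (C.cons (nat_lit 1300) (C.miq (nat_lit 1797785508) (nat_lit 2790207008863123358564484243)) (C.cons (nat_lit 1296) (C.node (nat_lit 2) (nat_lit 5) (nat_lit 11) (C.cons (nat_lit 2596) (C.miq (nat_lit 692761863)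 (nat_lit 1876311976140628093641623777)) (C.cons (nat_lit 2086) (C.node (nat_lit 1) (nat_lit 3) (nat_lit 11) C.nil) C.nil))) C.nil))) C.nil)) C.nil)) C.nil))) C.nil))) C.nil))) C.nil))) C.nil)))) (C.cons (nat_lit 2432) (C.ref (nat_lit 250) (nat_lit 198064386771216)) C.nil))) C.nil)) C.nil))) (C.cons (nat_lit 3200) (C.node (nat_lit 4) (nat_lit 6) (nat_lit 7) (C.cons (nat_lit 728) (C.miq (nat_lit 2319649639) (nat_lit 1266961509607711266276116705)) (C.cons (nat_lit 720) (C.node (nat_lit 3) (nat_lit 4) (nat_lit 7) (C.cons (nat_lit 184) (C.node (nat_lit 3) (nat_lit 4) (nat_lit 9) (C.cons (nat_lit 792) (C.miq (nat_lit 3108309047) (nat_lit 678249315334235295992775049)) (C.cons (nat_lit 536) (C.node (nat_lit 6) (nat_lit 7) (nat_lit 10) (C.cons (nat_lit 1472) (C.miq (nat_lit 879168424) (nat_lit 870433840277591038103654145)) (C.cons (nat_lit 1224) (C.miq (nat_lit 1762292819) (nat_lit 4643506652157201273315721400)) (C.cons (nat_lit 1216) (C.ref (nat_lit 274) (nat_lit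 205163983024656)) C.nil)))) C.nil))) (C.cons (nat_lit 152) (C.ref (nat_lit 277) (nat_lit 205163983024656)) C.nil))) (C.cons (nat_lit 216) (C.miq (nat_lit 2319649639) (nat_lit 1266961509607711266242562273)) (C.cons (nat_lit 212) (C.miq (nat_lit 698642614) (nat_lit 1876256782933215962723256545)) (C.cons (nat_lit 208) (C.ref (nat_lit 281) (nat_lit 205163983024656)) C.nil)))))) C.nil))) C.nil)))) List.nil)

theorem ok12_282 : okL par12 (nat_lit 283) c12_282 (nat_lit 282) = true := by decide +kernel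


end Pool.Agent.MP_1f1ca1_co

end

section

set_option autoImplicit false
set_option maxRecDepth 1000000
set_option maxHeartbeats 0

namespace Pool.Agent.MP_1f1ca1_co

noncomputable def c12_304 : List C :=
  (List.cons (C.node (nat_lit 2) (nat_lit 7) (nat_lit 8) (C.cons (nat_lit 452) (C.node (nat_lit 2) (nat_lit 3) (nat_lit 7) (C.cons (nat_lit 174) (C.miq (nat_lit 2591099683) (nat_lit 1415661783497040460308678685)) (C.cons (nat_lit 172) (C.miq (nat_lit 732246151) (nat_lit 3752508917508429660022636937)) (C.cons (nat_lit 142) (C.miq (nat_lit 2591099683) (nat_lit 1415661783497040460306581533)) (C.cons (nat_lit 140) (C.node (nat_lit 1) (nat_lit 2) (nat_lit 7) (C.cons (nat_lit 166) (C.node (nat_lit 1) (nat_lit 7) (nat_lit 8) (C.cons (nat_lit 898) (C.miq (nat_lit 896600713) (nat_lit 200691334002956028105330433)) (C.cons (nat_lit 386) (C.node (nat_lit 2) (nat_lit 5) (nat_lit 11) (C.cons (nat_lit 2596) (C.miq (nat_lit 1193609913) (nat_lit 200692035009074753033211649))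 (C.cons (nat_lit 2084) (C.node (nat_lit 3) (nat_lit 5) (nat_lit 7) (C.cons (nat_lit 680) (C.node (nat_lit 3) (nat_lit 4) (nat_lit 7) (C.cons (nat_lit 216) (C.node (nat_lit 3) (nat_lit 7) (nat_lit 10) (C.cons (nat_lit 1160) (C.node (nat_lit 1) (nat_lit 3) (nat_lit 7) (C.cons (nat_lit 2186) (C.node (nat_lit 7) (nat_lit 9) (nat_lit 11) (C.cons (nat_lit 2688) (C.node (nat_lit 1) (nat_lit 6) (nat_lit 7) (C.cons (nat_lit 194) (C.node (nat_lit 1) (nat_lit 7) (nat_lit 9) (C.cons (nat_lit 642) (C.node (nat_lit 4) (nat_lit 7) (nat_lit 8) C.nil) C.nil)) C.nil)) C.nil)) (C.cons (nat_lit 138) (C.node (nat_lit 3) (nat_lit 7) (nat_lit 11) (C.cons (nat_lit 2184) (C.node (nat_lit 1) (nat_lit 6) (nat_lit 7) (C.cons (nat_lit 706) (C.node (nat_lit 1) (nat_lit 7) (nat_lit 11) (C.cons (nat_lit 2178) (C.node (nat_lit 6) (nat_lit 7) (nat_lit 10) C.nil) C.nil)) (C.cons (nat_lit 194) (C.node (nat_lit 1) (nat_lit 7) (nat_lit 9) (C.cons (nat_lit 2690) (C.node (nat_lit 4) (nat_lit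 7) (nat_lit 8) C.nil) C.nil)) C.nil))) C.nil)) C.nil))) C.nil)) (C.cons (nat_lit 152) (C.node (nat_lit 3) (nat_lit 7) (nat_lit 10) (C.cons (nat_lit 1224) (C.node (nat_lit 7) (nat_lit 9) (nat_lit 10) (C.cons (nat_lit 1664) (C.node (nat_lit 3) (nat_lit 4) (nat_lit 10) (C.cons (nat_lit 1560) (C.miq (nat_lit 1670740544) (nat_lit 822111487131759452290614419)) (C.cons (nat_lit 1048) (C.node (nat_lit 3) (nat_lit 9) (nat_lit 10) (C.cons (nat_lit 1548) (C.miq (nat_lit 1403418912) (nat_lit 1479767132848995284495434373)) (C.cons (nat_lit 1544) (C.node (nat_lit 3) (nat_lit 10) (nat_lit 11) (C.cons (nat_lit 3082) (C.miq (nat_lit 444152608) (nat_lit 2011662212353413136146303005)) (C.cons (nat_lit 3080) (C.node (nat_lit 4) (nat_lit 6) (nat_lit 7) (C.cons (nat_lit 720) (C.miq (nat_lit 1767076874) (nat_lit 822092136355358452069500051)) (C.cons (nat_lit 208) (C.node (nat_lit 1) (nat_lit 3) (nat_lit 7) (C.cons (nat_lit 2186) (C.node (nat_lit 7) (nat_lit 9) (nat_lit 11)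 (C.cons (nat_lit 2688) (C.node (nat_lit 1) (nat_lit 6) (nat_lit 7) C.nil) C.nil)) (C.cons (nat_lit 138) (C.node (nat_lit 3) (nat_lit 7) (nat_lit 11) C.nil) C.nil))) C.nil))) C.nil))) C.nil))) C.nil))) C.nil)) (C.cons (nat_lit 1160) (C.node (nat_lit 3) (nat_lit 6) (nat_lit 7) (C.cons (nat_lit 202) (C.node (nat_lit 3) (nat_lit 7) (nat_lit 11) (C.cons (nat_lit 2184) (C.node (nat_lit 3) (nat_lit 9) (nat_lit 11) (C.cons (nat_lit 2632) (C.miq (nat_lit 2838563687) (nat_lit 632289805876918062169065697)) (C.cons (nat_lit 2568) (C.node (nat_lit 1) (nat_lit 9) (nat_lit 10) (C.cons (nat_lit 1634) (C.miq (nat_lit 359897728) (nat_lit 822079205445034685619572481)) (C.cons (nat_lit 1602) (C.miq (nat_lit 2792919344) (nat_lit 546505324860723285654569483)) (C.cons (nat_lit 1570) (C.miq (nat_lit 359897728) (nat_lit 822079205427020287110090497)) (C.cons (nat_lit 1542) (C.miq (nat_lit 2455478640) (nat_lit 2519472262454909445676795027)) (C.cons (nat_lit 1538) (C.node (nat_lit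 1) (nat_lit 2) (nat_lit 3) (C.cons (nat_lit 1038) (C.node (nat_lit 1) (nat_lit 10) (nat_lit 11) (C.cons (nat_lit 3138) (C.miq (nat_lit 2316503911) (nat_lit 1254872251411564914365040865)) (C.cons (nat_lit 3074) (C.node (nat_lit 3) (nat_lit 10) (nat_lit 11) (C.cons (nat_lit 3144)
  (C.miq (nat_lit 1362522795) (nat_lit 244244945058163939617541252)) (C.cons (nat_lit 3080) (C.node (nat_lit 6) (nat_lit 10) (nat_lit 11) (C.cons (nat_lit 3136) (C.node (nat_lit 1) (nat_lit 7) (nat_lit 11) C.nil) C.nil)) C.nil))) C.nil))) (C.cons (nat_lit 14) (C.node (nat_lit 1) (nat_lit 2) (nat_lit 10) (C.cons (nat_lit 1030) (C.node (nat_lit 2) (nat_lit 3) (nat_lit 10) (C.cons (nat_lit 1548) (C.miq (nat_lit 1698301842) (nat_lit 1287526160820648178344526469)) (C.cons (nat_lit 1036) (C.node (nat_lit 1) (nat_lit 5) (nat_lit 10) (C.cons (nat_lit 1122) (C.node (nat_lit 1) (nat_lit 8) (nat_lit 10) (C.cons (nat_lit 1290) (C.miq (nat_lit 3122006071) (nat_lit 1356456700138044401897832841))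 (C.cons (nat_lit 1282) (C.node (nat_lit 6) (nat_lit 7) (nat_lit 10) (C.cons (nat_lit 1728) (C.node (nat_lit 1) (nat_lit 3) (nat_lit 10) C.nil) C.nil)) C.nil))) (C.cons (nat_lit 1058) (C.node (nat_lit 1) (nat_lit 7) (nat_lit 9) (C.cons (nat_lit 2690) (C.node (nat_lit 1) (nat_lit 2) (nat_lit 11) C.nil) (C.cons (nat_lit 642) (C.node (nat_lit 1) (nat_lit 7) (nat_lit 11) C.nil) C.nil))) C.nil))) C.nil))) C.nil)) C.nil))) C.nil)))))) C.nil))) C.nil)) (C.cons (nat_lit 200) (C.node (nat_lit 1) (nat_lit 3) (nat_lit 7) (C.cons (nat_lit 2186) (C.node (nat_lit 7) (nat_lit 9) (nat_lit 11) (C.cons (nat_lit 2688) (C.node (nat_lit 1) (nat_lit 6) (nat_lit 7) (C.cons (nat_lit 706) (C.node (nat_lit 4) (nat_lit 6) (nat_lit 7) C.nil) C.nil)) C.nil)) (C.cons (nat_lit 138) (C.node (nat_lit 3) (nat_lit 7) (nat_lit 11) C.nil) C.nil))) C.nil))) C.nil))) C.nil))) (C.cons (nat_lit 168) (C.node (nat_lit 5) (nat_lit 7) (nat_lit 9) (C.cons (nat_lit 672) (C.node (nat_lit 4) (nat_lit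 7) (nat_lit 8) (C.cons (nat_lit 912) (C.node (nat_lit 2) (nat_lit 4) (nat_lit 8) (C.cons (nat_lit 308) (C.node (nat_lit 2) (nat_lit 4) (nat_lit 10) (C.cons (nat_lit 1556) (C.miq (nat_lit 1917172368) (nat_lit 372391082792437836007149313)) (C.cons (nat_lit 1044) (C.node (nat_lit 5) (nat_lit 8) (nat_lit 11) (C.cons (nat_lit 2346) (C.miq (nat_lit 896841888) (nat_lit 212809258799962309679845121)) (C.cons (nat_lit 2344) (C.miq (nat_lit 896841888) (nat_lit 212809258799399359726423809)) (C.cons (nat_lit 2338) (C.miq (nat_lit 2551319383) (nat_lit 317959389789730442798565601)) (C.cons (nat_lit 2336) (C.node (nat_lit 2) (nat_lit 3) (nat_lit 8) (C.cons (nat_lit 780) (C.node (nat_lit 3) (nat_lit 4) (nat_lit 8) (C.cons (nat_lit 282) (C.miq (nat_lit 412566304) (nat_lit 1102561948705231414766143517)) (C.cons (nat_lit 280) (C.node (nat_lit 1) (nat_lit 4) (nat_lit 8) (C.cons (nat_lit 274) (C.node (nat_lit 4) (nat_lit 8) (nat_lit 11) C.nil) C.nil)) C.nil))) (C.cons (nat_lit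 268) (C.node (nat_lit 2) (nat_lit 8) (nat_lit 9) (C.cons (nat_lit 772) (C.node (nat_lit 2) (nat_lit 5) (nat_lit 10) (C.cons (nat_lit 1572) (C.node (nat_lit 1) (nat_lit 2) (nat_lit 10) C.nil) C.nil)) C.nil)) C.nil))) C.nil))))) C.nil))) (C.cons (nat_lit 276) (C.node (nat_lit 2) (nat_lit 5) (nat_lit 8) (C.cons (nat_lit 812) (C.miq (nat_lit 391318153) (nat_lit 203109185672021633980436225)) (C.cons (nat_lit 804) (C.miq (nat_lit 444952722) (nat_lit 1740856242734205942112715397)) (C.cons (nat_lit 300) (C.miq (nat_lit 2015667504) (nat_lit 333685127756273221193499689)) (C.cons (nat_lit 292) (C.node (nat_lit 2) (nat_lit 4) (nat_lit 10) (C.cons (nat_lit 1556) (C.miq (nat_lit 1461980073) (nat_lit 178931370566196852155485953)) (C.cons (nat_lit 1076) (C.miq (nat_lit 944900004) (nat_lit 353044653325538664423621779)) (C.cons (nat_lit 1044) (C.node (nat_lit 2) (nat_lit 3) (nat_lit 8) (C.cons (nat_lit 780) (C.node (nat_lit 2) (nat_lit 3) (nat_lit 5) (C.cons (nat_lit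 108) (C.node (nat_lit 2) (nat_lit 4) (nat_lit 5) C.nil) C.nil)) (C.cons (nat_lit 268) (C.node (nat_lit 2) (nat_lit 8) (nat_lit 9) C.nil) C.nil))) C.nil)))) C.nil))))) C.nil))) (C.cons (nat_lit 400) (C.node (nat_lit 7) (nat_lit 8) (nat_lit 9) (C.cons (nat_lit 896) (C.node (nat_lit 1) (nat_lit 3) (nat_lit 7) (C.cons (nat_lit 2186) (C.node (nat_lit 7) (nat_lit 9) (nat_lit 11) C.nil) (C.cons (nat_lit 202)
  (C.node (nat_lit 1) (nat_lit 7) (nat_lit 9) (C.cons (nat_lit 2690) (C.node (nat_lit 3) (nat_lit 7) (nat_lit 11) C.nil) C.nil)) C.nil))) C.nil)) C.nil))) C.nil)) C.nil))) C.nil))) C.nil))) (C.cons (nat_lit 134) (C.node (nat_lit 2) (nat_lit 5) (nat_lit 7) (C.cons (nat_lit 164) (C.node (nat_lit 1) (nat_lit 7) (nat_lit 8) (C.cons (nat_lit 898) (C.node (nat_lit 4) (nat_lit 7) (nat_lit 8) (C.cons (nat_lit 400) (C.node (nat_lit 1) (nat_lit 5) (nat_lit 7) (C.cons (nat_lit 170) (C.node (nat_lit 1) (nat_lit 6) (nat_lit 7) (C.cons (nat_lit 194) (C.node (nat_lit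 1) (nat_lit 7) (nat_lit 11) (C.cons (nat_lit 2178) (C.node (nat_lit 5) (nat_lit 7) (nat_lit 9) C.nil) C.nil)) C.nil)) (C.cons (nat_lit 162) (C.miq (nat_lit 896600713) (nat_lit 195855630724497511406505729)) C.nil))) C.nil)) (C.cons (nat_lit 386) (C.node (nat_lit 4) (nat_lit 7) (nat_lit 8) (C.cons (nat_lit 912) (C.node (nat_lit 2) (nat_lit 4) (nat_lit 8) (C.cons (nat_lit 308) (C.node (nat_lit 2) (nat_lit 4) (nat_lit 10) (C.cons (nat_lit 1556) (C.miq (nat_lit 1917172368) (nat_lit 372391082792437836007149313)) (C.cons (nat_lit 1044) (C.node (nat_lit 2) (nat_lit 3) (nat_lit 8) (C.cons (nat_lit 780) (C.node (nat_lit 3) (nat_lit 4) (nat_lit 8) (C.cons (nat_lit 282) (C.miq (nat_lit 412566304) (nat_lit 1102561948705231414766143517)) (C.cons (nat_lit 280) (C.node (nat_lit 1) (nat_lit 4) (nat_lit 8) (C.cons (nat_lit 2322) (C.node (nat_lit 4) (nat_lit 5) (nat_lit 11) (C.cons (nat_lit 2096) (C.node (nat_lit 5) (nat_lit 8) (nat_lit 11) (C.cons (nat_lit 2344) (C.miq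 (nat_lit 1395112080) (nat_lit 169291544855108321796230913)) (C.cons (nat_lit 2336) (C.node (nat_lit 2) (nat_lit 3) (nat_lit 10) C.nil) C.nil))) C.nil)) (C.cons (nat_lit 274) (C.node (nat_lit 4) (nat_lit 8) (nat_lit 11) (C.cons (nat_lit 2320) (C.node (nat_lit 2) (nat_lit 3) (nat_lit 10) (C.cons (nat_lit 1038) (C.node (nat_lit 1) (nat_lit 8) (nat_lit 10) C.nil) (C.cons (nat_lit 1036) (C.node (nat_lit 1) (nat_lit 8) (nat_lit 9) (C.cons (nat_lit 866) (C.miq (nat_lit 878248577) (nat_lit 678217033035582366640374023)) C.nil)) C.nil))) C.nil)) C.nil))) C.nil))) (C.cons (nat_lit 268) (C.node (nat_lit 2) (nat_lit 8) (nat_lit 9) (C.cons (nat_lit 772) (C.node (nat_lit 3) (nat_lit 4) (nat_lit 7) (C.cons (nat_lit 216) (C.node (nat_lit 3) (nat_lit 4) (nat_lit 8) C.nil) (C.cons (nat_lit 152) (C.node (nat_lit 4) (nat_lit 6) (nat_lit 7) C.nil) C.nil))) C.nil)) C.nil))) C.nil))) (C.cons (nat_lit 276) (C.node (nat_lit 3) (nat_lit 4) (nat_lit 7) (C.cons (nat_lit 216) (C.node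 (nat_lit 3) (nat_lit 7) (nat_lit 10) (C.cons (nat_lit 1672) (C.miq (nat_lit 1621313687) (nat_lit 1287509982481173556555678608)) (C.cons (nat_lit 1160) (C.node (nat_lit 1) (nat_lit 6) (nat_lit 7) (C.cons (nat_lit 706) (C.node (nat_lit 6) (nat_lit 7) (nat_lit 10) (C.cons (nat_lit 1216) (C.node (nat_lit 7) (nat_lit 9) (nat_lit 10) C.nil) C.nil)) (C.cons (nat_lit 194) (C.node (nat_lit 6) (nat_lit 7) (nat_lit 9) (C.cons (nat_lit 1728) (C.node (nat_lit 1) (nat_lit 3) (nat_lit 7) (C.cons (nat_lit 2186) (C.node (nat_lit 7) (nat_lit 9) (nat_lit 11) C.nil) (C.cons (nat_lit 170) (C.miq (nat_lit 2557545043) (nat_lit 466655015099548981841757225)) C.nil))) C.nil)) C.nil))) C.nil))) (C.cons (nat_lit 152) (C.node (nat_lit 4) (nat_lit 6) (nat_lit 7) (C.cons (nat_lit 208) (C.node (nat_lit 1) (nat_lit 5) (nat_lit 7) (C.cons (nat_lit 674) (C.node (nat_lit 3) (nat_lit 5) (nat_lit 7) C.nil) (C.cons (nat_lit 170) (C.miq (nat_lit 2557545043) (nat_lit 466655015099548981841757225))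 C.nil))) C.nil)) C.nil))) C.nil))) (C.cons (nat_lit 400) (C.node (nat_lit 7) (nat_lit 8) (nat_lit 9) (C.cons (nat_lit 896) (C.node (nat_lit 1) (nat_lit 5) (nat_lit 7) (C.cons (nat_lit 674) (C.node (nat_lit 3) (nat_lit 5) (nat_lit 7) C.nil) (C.cons (nat_lit 170) (C.miq (nat_lit 2557545043) (nat_lit 466655015099548981841757225)) (C.cons (nat_lit 162) (C.node (nat_lit 3) (nat_lit 5) (nat_lit 7) (C.cons (nat_lit 168)
  (C.node (nat_lit 5) (nat_lit 7) (nat_lit 9) C.nil) C.nil)) C.nil)))) C.nil)) C.nil))) C.nil))) C.nil)) C.nil))) C.nil))))) (C.cons (nat_lit 388) (C.node (nat_lit 4) (nat_lit 7) (nat_lit 8) (C.cons (nat_lit 912) (C.node (nat_lit 1) (nat_lit 7) (nat_lit 8) (C.cons (nat_lit 450) (C.node (nat_lit 1) (nat_lit 8) (nat_lit 10) (C.cons (nat_lit 1290) (C.miq (nat_lit 828418165) (nat_lit 81017676059723308218779040)) (C.cons (nat_lit 1282) (C.node (nat_lit 1) (nat_lit 8) (nat_lit 9) (C.cons (nat_lit 802) (C.node (nat_lit 2) (nat_lit 4) (nat_lit 8) (C.cons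 (nat_lit 308) (C.miq (nat_lit 878248577) (nat_lit 678217033035582366636179719)) (C.cons (nat_lit 276) (C.node (nat_lit 5) (nat_lit 9) (nat_lit 11) (C.cons (nat_lit 2600) (C.miq (nat_lit 1479250179) (nat_lit 2790248753430899841090519563)) (C.cons (nat_lit 2596) (C.miq (nat_lit 1416794283) (nat_lit 178968909208492959403872001)) (C.cons (nat_lit 2592) (C.node (nat_lit 1) (nat_lit 7) (nat_lit 9) (C.cons (nat_lit 2690) (C.node (nat_lit 3) (nat_lit 7) (nat_lit 11) (C.cons (nat_lit 2184) (C.node (nat_lit 2) (nat_lit 9) (nat_lit 11) (C.cons (nat_lit 2628) (C.miq (nat_lit 2433136546) (nat_lit 81046508714778580236962948)) (C.cons (nat_lit 2564) (C.node (nat_lit 2) (nat_lit 6) (nat_lit 11) (C.cons (nat_lit 2118) (C.miq (nat_lit 840436583) (nat_lit 317954740713701064199768289)) (C.cons (nat_lit 2116) (C.node (nat_lit 1) (nat_lit 2) (nat_lit 7) (C.cons (nat_lit 174) (C.miq (nat_lit 2836597621) (nat_lit 632287850522046498062862561)) (C.cons (nat_lit 166) (C.miq (nat_lit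 431118503) (nat_lit 3099688863877184868233512352)) (C.cons (nat_lit 142) (C.miq (nat_lit 2803479088) (nat_lit 3252081309609186033647945757)) (C.cons (nat_lit 134) (C.node (nat_lit 1) (nat_lit 3) (nat_lit 7) (C.cons (nat_lit 170) (C.miq (nat_lit 2836597621) (nat_lit 632287850522046498062600417)) (C.cons (nat_lit 138) (C.node (nat_lit 1) (nat_lit 5) (nat_lit 7) (C.cons (nat_lit 162) (C.node (nat_lit 2) (nat_lit 5) (nat_lit 7) (C.cons (nat_lit 172) (C.miq (nat_lit 732246151) (nat_lit 3752508917508429660022636937)) (C.cons (nat_lit 164) (C.node (nat_lit 2) (nat_lit 3) (nat_lit 7) C.nil) C.nil))) C.nil)) C.nil))) C.nil))))) C.nil))) C.nil))) C.nil)) (C.cons (nat_lit 642) (C.node (nat_lit 1) (nat_lit 7) (nat_lit 11) (C.cons (nat_lit 2186) (C.node (nat_lit 7) (nat_lit 9) (nat_lit 11) (C.cons (nat_lit 2688) (C.node (nat_lit 1) (nat_lit 3) (nat_lit 8) (C.cons (nat_lit 282) (C.node (nat_lit 1) (nat_lit 8) (nat_lit 11) (C.cons (nat_lit 2306) (C.node (nat_lit 1)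 (nat_lit 10) (nat_lit 11) (C.cons (nat_lit 3138) (C.miq (nat_lit 1176176755) (nat_lit 3793647535933006444996723081)) (C.cons (nat_lit 3074) (C.node (nat_lit 3) (nat_lit 4) (nat_lit 7) (C.cons (nat_lit 216) (C.miq (nat_lit 561186916) (nat_lit 2642750155639050322270749009)) (C.cons (nat_lit 152) (C.node (nat_lit 3) (nat_lit 8) (nat_lit 10) C.nil) C.nil))) C.nil))) C.nil)) (C.cons (nat_lit 266) (C.miq (nat_lit 1125649270) (nat_lit 321580485154877116046772449)) C.nil))) C.nil)) (C.cons (nat_lit 2178) (C.node (nat_lit 1) (nat_lit 3) (nat_lit 7) (C.cons (nat_lit 174) (C.miq (nat_lit 2803479088) (nat_lit 776201231038425621288650781)) (C.cons (nat_lit 170) (C.miq (nat_lit 965021863) (nat_lit 969561643424653038621557907)) (C.cons (nat_lit 142) (C.miq (nat_lit 2803479088) (nat_lit 776201231038425483849697309)) (C.cons (nat_lit 138) (C.node (nat_lit 3) (nat_lit 4) (nat_lit 7) (C.cons (nat_lit 216) (C.miq (nat_lit 561186916) (nat_lit 166870077068289772472500561))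 (C.cons (nat_lit 152) (C.node (nat_lit 4) (nat_lit 6) (nat_lit 7) (C.cons (nat_lit 208) (C.node (nat_lit 3) (nat_lit 8) (nat_lit 10) C.nil) C.nil)) C.nil))) C.nil))))) C.nil))) C.nil))) C.nil)))) C.nil))) (C.cons (nat_lit 770) (C.node (nat_lit 2) (nat_lit 4) (nat_lit 8) (C.cons (nat_lit 308) (C.node (nat_lit 2) (nat_lit 4) (nat_lit 10) (C.cons (nat_lit 1556) (C.miq (nat_lit 1917172368) (nat_lit 372391082792437836007149313)) (C.cons (nat_lit 1044) (C.node (nat_lit 5) (nat_lit 6) (nat_lit 8) (C.cons (nat_lit 872)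
  (C.miq (nat_lit 412382800) (nat_lit 1102561948752519605985020129)) (C.cons (nat_lit 864) (C.miq (nat_lit 412382800) (nat_lit 1102561948752519571625281761)) (C.cons (nat_lit 360) (C.miq (nat_lit 974671990) (nat_lit 1549849541873597017044945121)) (C.cons (nat_lit 352) (C.node (nat_lit 5) (nat_lit 8) (nat_lit 9) (C.cons (nat_lit 808) (C.miq (nat_lit 2761230211) (nat_lit 678227030915856582473941385)) (C.cons (nat_lit 800) (C.node (nat_lit 3) (nat_lit 4) (nat_lit 8) (C.cons (nat_lit 282) (C.node (nat_lit 4) (nat_lit 8) (nat_lit 11) C.nil) C.nil)) C.nil))) C.nil))))) C.nil))) (C.cons (nat_lit 276) (C.node (nat_lit 2) (nat_lit 6) (nat_lit 7) (C.cons (nat_lit 204) (C.node (nat_lit 3) (nat_lit 4) (nat_lit 7) (C.cons (nat_lit 152) (C.node (nat_lit 4) (nat_lit 6) (nat_lit 7) (C.cons (nat_lit 208) (C.node (nat_lit 3) (nat_lit 8) (nat_lit 10) (C.cons (nat_lit 1352) (C.miq (nat_lit 2590115895) (nat_lit 1321367820069868422969426313)) (C.cons (nat_lit 1288) (C.node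 (nat_lit 6) (nat_lit 8) (nat_lit 10) (C.cons (nat_lit 1344) (C.node (nat_lit 6) (nat_lit 8) (nat_lit 11) C.nil) C.nil)) C.nil))) C.nil)) C.nil)) (C.cons (nat_lit 196) (C.node (nat_lit 2) (nat_lit 3) (nat_lit 7) (C.cons (nat_lit 174) (C.miq (nat_lit 2591099683) (nat_lit 1415661783497040460308678685)) (C.cons (nat_lit 172) (C.miq (nat_lit 732246151) (nat_lit 3752508917508429660022636937)) (C.cons (nat_lit 142) (C.miq (nat_lit 2591099683) (nat_lit 1415661783497040460306581533)) (C.cons (nat_lit 140) (C.node (nat_lit 3) (nat_lit 4) (nat_lit 7) (C.cons (nat_lit 216) (C.miq (nat_lit 389187136) (nat_lit 169254466366404137439789393)) (C.cons (nat_lit 152) (C.node (nat_lit 4) (nat_lit 6) (nat_lit 7) (C.cons (nat_lit 208) (C.node (nat_lit 1) (nat_lit 2) (nat_lit 7) (C.cons (nat_lit 166) (C.node (nat_lit 2) (nat_lit 5) (nat_lit 11) (C.cons (nat_lit 2596) (C.miq (nat_lit 1193609913) (nat_lit 200692035009074753033211649)) (C.cons (nat_lit 2084) (C.node (nat_lit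 2) (nat_lit 5) (nat_lit 8) (C.cons (nat_lit 876) (C.miq (nat_lit 829788328) (nat_lit 200697845551053454889193217)) (C.cons (nat_lit 868) (C.miq (nat_lit 412382800) (nat_lit 1102561948752519588805150945)) (C.cons (nat_lit 812) (C.miq (nat_lit 829788328) (nat_lit 200696664959432737477889793)) (C.cons (nat_lit 804) (C.miq (nat_lit 444952722) (nat_lit 1740856242734205942112715397)) (C.cons (nat_lit 364) (C.miq (nat_lit 974671990) (nat_lit 1549849615660573311883151585)) (C.cons (nat_lit 356) (C.miq (nat_lit 310670688) (nat_lit 333685127397674341268261089)) (C.cons (nat_lit 300) (C.miq (nat_lit 2015667504) (nat_lit 333685127756273221193499689)) C.nil)))))))) C.nil))) (C.cons (nat_lit 134) (C.node (nat_lit 2) (nat_lit 5) (nat_lit 7) C.nil) C.nil))) C.nil)) C.nil))) C.nil))))) C.nil))) C.nil))) C.nil))) C.nil))) (C.cons (nat_lit 386) (C.node (nat_lit 6) (nat_lit 7) (nat_lit 8) (C.cons (nat_lit 448) (C.node (nat_lit 2) (nat_lit 4) (nat_lit 8) (C.cons (nat_lit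 308) (C.node (nat_lit 2) (nat_lit 4) (nat_lit 10) (C.cons (nat_lit 1556) (C.miq (nat_lit 1917172368) (nat_lit 372391082792437836007149313)) (C.cons (nat_lit 1044) (C.node (nat_lit 3) (nat_lit 4) (nat_lit 7) (C.cons (nat_lit 216) (C.node (nat_lit 3) (nat_lit 7) (nat_lit 10) (C.cons (nat_lit 1672) (C.miq (nat_lit 1621313687) (nat_lit 1287509982481173556555678608)) (C.cons (nat_lit 1160) (C.node (nat_lit 2) (nat_lit 3) (nat_lit 7) (C.cons (nat_lit 174) (C.miq (nat_lit 1729643296) (nat_lit 466651582984799043866527773)) (C.cons (nat_lit 172) (C.miq (nat_lit 732246151) (nat_lit 3752508917508429660022636937)) (C.cons (nat_lit 142) (C.miq (nat_lit 1729643296) (nat_lit 466651582984798906427574301)) (C.cons (nat_lit 140) (C.node (nat_lit 2) (nat_lit 6) (nat_lit 8) (C.cons (nat_lit 844) (C.miq (nat_lit 392692786) (nat_lit 541603619010653381376870429)) (C.cons (nat_lit 836) (C.miq (nat_lit 2760247186) (nat_lit 407428163831013711209038469)) (C.cons (nat_lit 332)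 (C.miq (nat_lit 392692786) (nat_lit 541603619010653381343315997)) (C.cons (nat_lit 324) (C.node (nat_lit 2) (nat_lit 3) (nat_lit 8)
  (C.cons (nat_lit 780) (C.node (nat_lit 2) (nat_lit 5) (nat_lit 7) (C.cons (nat_lit 166) (C.node (nat_lit 2) (nat_lit 6) (nat_lit 7) C.nil) C.nil)) (C.cons (nat_lit 268) (C.node (nat_lit 2) (nat_lit 8) (nat_lit 9) (C.cons (nat_lit 772) (C.node (nat_lit 2) (nat_lit 5) (nat_lit 7) C.nil) C.nil)) C.nil))) C.nil))))) C.nil))))) C.nil))) (C.cons (nat_lit 152) (C.node (nat_lit 4) (nat_lit 6) (nat_lit 7) (C.cons (nat_lit 208) (C.node (nat_lit 3) (nat_lit 4) (nat_lit 8) (C.cons (nat_lit 282) (C.node (nat_lit 4) (nat_lit 8) (nat_lit 11) (C.cons (nat_lit 2320) (C.node (nat_lit 4) (nat_lit 5) (nat_lit 11) (C.cons (nat_lit 2098) (C.miq (nat_lit 1367847984) (nat_lit 466687296411062115592898589)) (C.cons (nat_lit 2096) (C.node (nat_lit 3) (nat_lit 8) (nat_lit 11) (C.cons (nat_lit 2376) (C.miq (nat_lit 1746383680) (nat_lit 466687296489312159169447965))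 (C.cons (nat_lit 2344) (C.miq (nat_lit 896841888) (nat_lit 212809258799399359726423809)) C.nil))) C.nil))) C.nil)) (C.cons (nat_lit 280) (C.node (nat_lit 1) (nat_lit 4) (nat_lit 8) (C.cons (nat_lit 2322) (C.node (nat_lit 4) (nat_lit 5) (nat_lit 11) (C.cons (nat_lit 2096) (C.node (nat_lit 5) (nat_lit 8) (nat_lit 11) (C.cons (nat_lit 2344) (C.miq (nat_lit 896841888) (nat_lit 212809258799399359726423809)) C.nil)) C.nil)) (C.cons (nat_lit 274) (C.node (nat_lit 4) (nat_lit 8) (nat_lit 11) (C.cons (nat_lit 2320) (C.node (nat_lit 4) (nat_lit 5) (nat_lit 10) C.nil) C.nil)) C.nil))) C.nil))) C.nil)) C.nil))) C.nil))) (C.cons (nat_lit 276) (C.node (nat_lit 3) (nat_lit 4) (nat_lit 7) (C.cons (nat_lit 216) (C.node (nat_lit 3) (nat_lit 7) (nat_lit 10) (C.cons (nat_lit 1672) (C.miq (nat_lit 1621313687) (nat_lit 1287509982481173556555678608)) (C.cons (nat_lit 1160) (C.node (nat_lit 2) (nat_lit 3) (nat_lit 7) (C.cons (nat_lit 174) (C.miq (nat_lit 1729643296) (nat_lit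 466651582984799043866527773)) (C.cons (nat_lit 172) (C.miq (nat_lit 732246151) (nat_lit 3752508917508429660022636937)) (C.cons (nat_lit 142) (C.miq (nat_lit 1729643296) (nat_lit 466651582984798906427574301)) (C.cons (nat_lit 140) (C.node (nat_lit 2) (nat_lit 5) (nat_lit 7) (C.cons (nat_lit 166) (C.node (nat_lit 2) (nat_lit 6) (nat_lit 7) (C.cons (nat_lit 196) (C.node (nat_lit 2) (nat_lit 5) (nat_lit 8) (C.cons (nat_lit 876) (C.miq (nat_lit 829788328) (nat_lit 200697845551053454889193217)) (C.cons (nat_lit 868) (C.miq (nat_lit 310670688) (nat_lit 333685127397676540291516641)) (C.cons (nat_lit 812) (C.miq (nat_lit 829788328) (nat_lit 200696664959432737477889793)) (C.cons (nat_lit 804) (C.miq (nat_lit 444952722) (nat_lit 1740856242734205942112715397)) (C.cons (nat_lit 364) (C.miq (nat_lit 310670688) (nat_lit 333685127397674375627999457)) (C.cons (nat_lit 356) (C.miq (nat_lit 310670688) (nat_lit 333685127397674341268261089)) (C.cons (nat_lit 300) (C.miq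 (nat_lit 2015667504) (nat_lit 333685127756273221193499689)) C.nil)))))))) C.nil)) (C.cons (nat_lit 164) (C.node (nat_lit 1) (nat_lit 2) (nat_lit 7) (C.cons (nat_lit 198) (C.node (nat_lit 6) (nat_lit 7) (nat_lit 9) (C.cons (nat_lit 1728) (C.miq (nat_lit 2534975008) (nat_lit 466716220801623590001116229)) C.nil)) C.nil)) C.nil))) C.nil))))) C.nil))) (C.cons (nat_lit 152) (C.node (nat_lit 4) (nat_lit 6) (nat_lit 7) (C.cons (nat_lit 208) (C.node (nat_lit 2) (nat_lit 4) (nat_lit 10) (C.cons (nat_lit 1556) (C.miq (nat_lit 1461980073) (nat_lit 178931370566196852155485953)) (C.cons (nat_lit 1076) (C.node (nat_lit 2) (nat_lit 3) (nat_lit 8) (C.cons (nat_lit 876) (C.miq (nat_lit 2760247186) (nat_lit 407428163831013711211659909)) (C.cons (nat_lit 844) (C.miq (nat_lit 1379443719) (nat_lit 1020359955369089160819836051)) (C.cons (nat_lit 812) (C.miq (nat_lit 2761230211) (nat_lit 678227030915856582474203529)) (C.cons (nat_lit 780) (C.miq (nat_lit 1379443719) (nat_lit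 942988702913752893638640787)) (C.cons (nat_lit 364) (C.miq (nat_lit 2015667504) (nat_lit 333685127756273496071406633)) (C.cons (nat_lit 332) (C.miq (nat_lit 1379443719) (nat_lit 401389935726399023370273939)) (C.cons (nat_lit 300)
  (C.miq (nat_lit 2015667504) (nat_lit 333685127756273221193499689)) (C.cons (nat_lit 268) (C.miq (nat_lit 1379443719) (nat_lit 324018683271062756189078675)) C.nil))))))))) (C.cons (nat_lit 1044) (C.node (nat_lit 4) (nat_lit 5) (nat_lit 10) (C.cons (nat_lit 1136) (C.node (nat_lit 2) (nat_lit 4) (nat_lit 5) (C.cons (nat_lit 54) (C.node (nat_lit 1) (nat_lit 5) (nat_lit 10) (C.cons (nat_lit 1570) (C.miq (nat_lit 314201097) (nat_lit 3873427287448676169395798577)) (C.cons (nat_lit 1058) (C.node (nat_lit 2) (nat_lit 5) (nat_lit 7) (C.cons (nat_lit 172) (C.miq (nat_lit 732246151) (nat_lit 3752508917508429660022636937)) (C.cons (nat_lit 164) (C.node (nat_lit 2) (nat_lit 5) (nat_lit 11) (C.cons (nat_lit 2596) (C.miq (nat_lit 1918151568)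 (nat_lit 65303596298357264471887617)) (C.cons (nat_lit 2084) (C.node (nat_lit 2) (nat_lit 5) (nat_lit 8) (C.cons (nat_lit 876) (C.miq (nat_lit 361185840) (nat_lit 1740874781397579736621320221)) (C.cons (nat_lit 868) (C.miq (nat_lit 2760247186) (nat_lit 407428163831013711211135621)) (C.cons (nat_lit 812) (C.miq (nat_lit 361185840) (nat_lit 1740874781397579461743413277)) (C.cons (nat_lit 804) (C.miq (nat_lit 2504688144) (nat_lit 1373410585252511974134317319)) (C.cons (nat_lit 364) (C.miq (nat_lit 361185840) (nat_lit 1740874781397577537598064669)) (C.cons (nat_lit 356) (C.miq (nat_lit 2168791206) (nat_lit 65288561374113164390564933)) (C.cons (nat_lit 300) (C.miq (nat_lit 361185840) (nat_lit 1740874781397577262720157725)) (C.cons (nat_lit 292) (C.node (nat_lit 2) (nat_lit 4) (nat_lit 6) C.nil) C.nil))))))))) C.nil))) C.nil))) C.nil))) (C.cons (nat_lit 52) (C.node (nat_lit 3) (nat_lit 4) (nat_lit 10) (C.cons (nat_lit 1560) (C.node (nat_lit 3) (nat_lit 7)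 (nat_lit 10) (C.cons (nat_lit 1224) (C.miq (nat_lit 923379284) (nat_lit 779785930916725938577278064)) (C.cons (nat_lit 1160) (C.node (nat_lit 3) (nat_lit 4) (nat_lit 6) (C.cons (nat_lit 88) (C.node (nat_lit 6) (nat_lit 7) (nat_lit 10) C.nil) C.nil)) C.nil))) (C.cons (nat_lit 1048) (C.node (nat_lit 4) (nat_lit 9) (nat_lit 10) (C.cons (nat_lit 1552) (C.node (nat_lit 3) (nat_lit 4) (nat_lit 9) (C.cons (nat_lit 600) (C.node (nat_lit 2) (nat_lit 4) (nat_lit 6) C.nil) C.nil)) C.nil)) C.nil))) C.nil))) (C.cons (nat_lit 1072) (C.node (nat_lit 1) (nat_lit 10) (nat_lit 11) (C.cons (nat_lit 3146) (C.miq (nat_lit 2443641778) (nat_lit 1415664033065883231238490141)) (C.cons (nat_lit 3138) (C.node (nat_lit 3) (nat_lit 10) (nat_lit 11) (C.cons (nat_lit 3080) (C.node (nat_lit 2) (nat_lit 6) (nat_lit 11) (C.cons (nat_lit 2628) (C.miq (nat_lit 1628027506) (nat_lit 632316682585150273439992964)) (C.cons (nat_lit 2116) (C.node (nat_lit 1) (nat_lit 8) (nat_lit 10) (C.cons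 (nat_lit 1290) (C.node (nat_lit 6) (nat_lit 8) (nat_lit 10) (C.cons (nat_lit 1344) (C.node (nat_lit 1) (nat_lit 7) (nat_lit 11) (C.cons (nat_lit 2690) (C.miq (nat_lit 2456514721) (nat_lit 2558136656227669666955396243)) (C.cons (nat_lit 2186) (C.miq (nat_lit 1631042176) (nat_lit 2642753772010132935170133761)) (C.cons (nat_lit 2178) (C.node (nat_lit 3) (nat_lit 7) (nat_lit 11) C.nil) C.nil)))) C.nil)) (C.cons (nat_lit 1282) (C.node (nat_lit 1) (nat_lit 3) (nat_lit 10) (C.cons (nat_lit 1038) (C.node (nat_lit 1) (nat_lit 5) (nat_lit 10) (C.cons (nat_lit 1570) (C.miq (nat_lit 1512345904) (nat_lit 1262128904743018381199606283)) (C.cons (nat_lit 1058) (C.node (nat_lit 1) (nat_lit 9) (nat_lit 10) C.nil) C.nil))) (C.cons (nat_lit 1034) (C.node (nat_lit 2) (nat_lit 3) (nat_lit 10) (C.cons (nat_lit 1548) (C.node (nat_lit 5) (nat_lit 6) (nat_lit 10) (C.cons (nat_lit 1632) (C.miq (nat_lit 2461442821) (nat_lit 2558117139826615812410639401)) C.nil)) (C.cons (nat_lit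 1036) (C.node (nat_lit 3) (nat_lit 8) (nat_lit 10) C.nil) C.nil))) C.nil))) C.nil))) C.nil))) C.nil)) (C.cons (nat_lit 3082) (C.miq (nat_lit 2443641778) (nat_lit 1415664033065882956360583197)) (C.cons (nat_lit 3074) (C.node (nat_lit 3) (nat_lit 10) (nat_lit 11) (C.cons (nat_lit 3144) (C.node (nat_lit 6) (nat_lit 7) (nat_lit 10) (C.cons (nat_lit 1728)
  (C.miq (nat_lit 915454578) (nat_lit 697588512690046877068233860)) (C.cons (nat_lit 1216) (C.node (nat_lit 2) (nat_lit 3) (nat_lit 7) (C.cons (nat_lit 206) (C.miq (nat_lit 2590444338) (nat_lit 1470065695882475508039813149)) (C.cons (nat_lit 204) (C.miq (nat_lit 2590444338) (nat_lit 1470065695882475508039682077)) (C.cons (nat_lit 174) (C.miq (nat_lit 2591099683) (nat_lit 1415661783497040460308678685)) (C.cons (nat_lit 172) (C.miq (nat_lit 732246151) (nat_lit 3752508917508429660022636937)) (C.cons (nat_lit 142) (C.miq (nat_lit 2591099683) (nat_lit 1415661783497040460306581533)) (C.cons (nat_lit 140) (C.node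 (nat_lit 2) (nat_lit 5) (nat_lit 7) (C.cons (nat_lit 164) (C.node (nat_lit 1) (nat_lit 2) (nat_lit 7) C.nil) C.nil)) C.nil))))))) C.nil))) (C.cons (nat_lit 3080) (C.node (nat_lit 6) (nat_lit 10) (nat_lit 11) (C.cons (nat_lit 3136) (C.node (nat_lit 5) (nat_lit 7) (nat_lit 2) (C.cons (nat_lit 174) (C.miq (nat_lit 2591099683) (nat_lit 1415661783497040460308678685)) (C.cons (nat_lit 172) (C.miq (nat_lit 631977856) (nat_lit 3752544058019669934025539977)) (C.cons (nat_lit 166) (C.node (nat_lit 5) (nat_lit 2) (nat_lit 11) (C.cons (nat_lit 2596) (C.miq (nat_lit 2493665403) (nat_lit 1262166443583200699940604129)) (C.cons (nat_lit 2084) (C.node (nat_lit 8) (nat_lit 5) (nat_lit 2) (C.cons (nat_lit 876) (C.miq (nat_lit 310670688) (nat_lit 333685127397676574651255009)) (C.cons (nat_lit 364) (C.miq (nat_lit 310670688) (nat_lit 333685127397674375627999457)) (C.cons (nat_lit 812) (C.miq (nat_lit 829788328) (nat_lit 200696664959432737477889793)) (C.cons (nat_lit 300)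 (C.miq (nat_lit 631519344) (nat_lit 1296006792598772247866573193)) (C.cons (nat_lit 868) (C.miq (nat_lit 310670688) (nat_lit 333685127397676540291516641)) (C.cons (nat_lit 356) (C.miq (nat_lit 310670688) (nat_lit 333685127397674341268261089)) (C.cons (nat_lit 804) (C.miq (nat_lit 361394832) (nat_lit 1740874781429104625001235077)) (C.cons (nat_lit 292) (C.node (nat_lit 9) (nat_lit 5) (nat_lit 7) (C.cons (nat_lit 680) (C.node (nat_lit 9) (nat_lit 10) (nat_lit 7) (C.cons (nat_lit 1728) (C.node (nat_lit 10) (nat_lit 7) (nat_lit 3) C.nil) C.nil)) C.nil)) C.nil))))))))) C.nil))) (C.cons (nat_lit 164) (C.node (nat_lit 1) (nat_lit 5) (nat_lit 7) (C.cons (nat_lit 170) (C.miq (nat_lit 394868128) (nat_lit 1102549995183549288472970281)) (C.cons (nat_lit 674) (C.node (nat_lit 5) (nat_lit 7) (nat_lit 3) C.nil) (C.cons (nat_lit 162) (C.node (nat_lit 9) (nat_lit 5) (nat_lit 7) (C.cons (nat_lit 672) (C.node (nat_lit 5) (nat_lit 7) (nat_lit 3) C.nil) C.nil)) C.nil))))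 C.nil))))) C.nil)) C.nil))) C.nil))))) C.nil))) C.nil)))) C.nil)) C.nil))) C.nil))) C.nil)) C.nil))) (C.cons (nat_lit 400) (C.node (nat_lit 2) (nat_lit 4) (nat_lit 10) (C.cons (nat_lit 1556) (C.miq (nat_lit 1461980073) (nat_lit 178931370566196852155485953)) (C.cons (nat_lit 1076) (C.node (nat_lit 2) (nat_lit 3) (nat_lit 8) (C.cons (nat_lit 876) (C.miq (nat_lit 1199704659) (nat_lit 469101532227530597063197737)) (C.cons (nat_lit 844) (C.miq (nat_lit 1379443719) (nat_lit 1020359955369089160819836051)) (C.cons (nat_lit 812) (C.miq (nat_lit 1199704659) (nat_lit 469101532227530597059003433)) (C.cons (nat_lit 780) (C.miq (nat_lit 1379443719) (nat_lit 942988702913752893638640787)) (C.cons (nat_lit 364) (C.miq (nat_lit 1199704659) (nat_lit 469101532227530597029643305)) (C.cons (nat_lit 332) (C.miq (nat_lit 1379443719) (nat_lit 401389935726399023370273939)) (C.cons (nat_lit 300) (C.miq (nat_lit 1199704659) (nat_lit 469101532227530597025449001)) (C.cons (nat_lit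 268) (C.miq (nat_lit 1379443719) (nat_lit 324018683271062756189078675)) C.nil))))))))) (C.cons (nat_lit 1044) (C.node (nat_lit 4) (nat_lit 5) (nat_lit 10) (C.cons (nat_lit 1136) (C.node (nat_lit 3) (nat_lit 4) (nat_lit 10) (C.cons (nat_lit 1560) (C.node (nat_lit 3) (nat_lit 7) (nat_lit 10) (C.cons (nat_lit 1224) (C.miq (nat_lit 923379284) (nat_lit 779785930916725938577278064)) (C.cons (nat_lit 1160) (C.node (nat_lit 4) (nat_lit 7) (nat_lit 9) (C.cons (nat_lit 720)
  (C.miq (nat_lit 813278564) (nat_lit 779785930871971417290703984)) (C.cons (nat_lit 656) (C.node (nat_lit 3) (nat_lit 10) (nat_lit 11) (C.cons (nat_lit 3146) (C.miq (nat_lit 878094603) (nat_lit 1373397764978178006009843457)) (C.cons (nat_lit 3144) (C.miq (nat_lit 878094603) (nat_lit 1373397728084689858590740225)) (C.cons (nat_lit 3082) (C.miq (nat_lit 2443641778) (nat_lit 1415664033065882956360583197)) (C.cons (nat_lit 3080) (C.node (nat_lit 1) (nat_lit 10) (nat_lit 11) (C.cons (nat_lit 3138)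 (C.node (nat_lit 2) (nat_lit 6) (nat_lit 11) (C.cons (nat_lit 2628) (C.miq (nat_lit 1628027506) (nat_lit 632316682585150273439992964)) (C.cons (nat_lit 2116) (C.node (nat_lit 4) (nat_lit 6) (nat_lit 11) (C.cons (nat_lit 2640) (C.miq (nat_lit 895787193) (nat_lit 1373368508302754342197268225)) (C.cons (nat_lit 2128) (C.node (nat_lit 1) (nat_lit 8) (nat_lit 10) (C.cons (nat_lit 1290) (C.node (nat_lit 2) (nat_lit 3) (nat_lit 10) (C.cons (nat_lit 1036) (C.node (nat_lit 3) (nat_lit 6) (nat_lit 10) (C.cons (nat_lit 1096) (C.node (nat_lit 6) (nat_lit 8) (nat_lit 10) (C.cons (nat_lit 1344) (C.node (nat_lit 1) (nat_lit 9) (nat_lit 10) (C.cons (nat_lit 1574) (C.miq (nat_lit 1940457490) (nat_lit 1885936176859374261660680455)) (C.cons (nat_lit 1570) (C.miq (nat_lit 1460250673) (nat_lit 779786115444957196101289226)) (C.cons (nat_lit 1542) (C.miq (nat_lit 1940457490) (nat_lit 1885936176859374261658583303)) C.nil)))) C.nil)) C.nil)) C.nil)) (C.cons (nat_lit 1282) (C.node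 (nat_lit 1) (nat_lit 3) (nat_lit 10) (C.cons (nat_lit 1038) (C.node (nat_lit 1) (nat_lit 5) (nat_lit 10) (C.cons (nat_lit 1570) (C.miq (nat_lit 1512345904) (nat_lit 1262128904743018381199606283)) (C.cons (nat_lit 1058) (C.node (nat_lit 1) (nat_lit 9) (nat_lit 10) (C.cons (nat_lit 1538) (C.node (nat_lit 2) (nat_lit 5) (nat_lit 10) (C.cons (nat_lit 1572) (C.node (nat_lit 3) (nat_lit 6) (nat_lit 10) C.nil) C.nil)) C.nil)) C.nil))) (C.cons (nat_lit 1034) (C.node (nat_lit 2) (nat_lit 3) (nat_lit 10) (C.cons (nat_lit 1036) (C.node (nat_lit 3) (nat_lit 6) (nat_lit 10) (C.cons (nat_lit 1352) (C.node (nat_lit 6) (nat_lit 8) (nat_lit 11) (C.cons (nat_lit 2368) (C.node (nat_lit 2) (nat_lit 3) (nat_lit 8) (C.cons (nat_lit 812) (C.miq (nat_lit 338823832) (nat_lit 2510943779162890079407181569)) (C.cons (nat_lit 780) (C.miq (nat_lit 338823832) (nat_lit 2510943779162890079405084417)) (C.cons (nat_lit 300) (C.miq (nat_lit 614805624) (nat_lit 1373345265690069411460809097))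 C.nil)))) C.nil)) C.nil)) C.nil)) C.nil))) C.nil))) C.nil))) C.nil))) (C.cons (nat_lit 3074) (C.node (nat_lit 6) (nat_lit 10) (nat_lit 11) (C.cons (nat_lit 3136) (C.node (nat_lit 2) (nat_lit 3) (nat_lit 10) (C.cons (nat_lit 1038) (C.node (nat_lit 1) (nat_lit 5) (nat_lit 10) (C.cons (nat_lit 1570) (C.miq (nat_lit 1512345904) (nat_lit 1262128904743018381199606283)) (C.cons (nat_lit 1058) (C.node (nat_lit 1) (nat_lit 8) (nat_lit 10) (C.cons (nat_lit 1346) (C.miq (nat_lit 1781825824) (nat_lit 1885930495530444129625243911)) C.nil)) C.nil))) (C.cons (nat_lit 1036) (C.node (nat_lit 6) (nat_lit 7) (nat_lit 10) (C.cons (nat_lit 1728) (C.node (nat_lit 1) (nat_lit 3) (nat_lit 10) (C.cons (nat_lit 1354) (C.miq (nat_lit 1694606483) (nat_lit 42337380897745806901839384)) (C.cons (nat_lit 1290) (C.node (nat_lit 1) (nat_lit 6) (nat_lit 10) C.nil) (C.cons (nat_lit 1098) (C.miq (nat_lit 1694606483) (nat_lit 42332658531262937256625688)) C.nil)))) C.nil)) C.nil))) C.nil))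 C.nil))) C.nil))))) C.nil))) C.nil))) (C.cons (nat_lit 1048) (C.node (nat_lit 4) (nat_lit 9) (nat_lit 10) (C.cons (nat_lit 1552) (C.node (nat_lit 1) (nat_lit 10) (nat_lit 11) (C.cons (nat_lit 3146) (C.miq (nat_lit 2443641778) (nat_lit 1415664033065883231238490141)) (C.cons (nat_lit 3138) (C.node (nat_lit 3) (nat_lit 10) (nat_lit 11) (C.cons (nat_lit 3080) (C.node (nat_lit 2) (nat_lit 6) (nat_lit 11) (C.cons (nat_lit 2628) (C.miq (nat_lit 1628027506) (nat_lit 632316682585150273439992964)) (C.cons (nat_lit 2116) (C.node (nat_lit 1) (nat_lit 8) (nat_lit 10) (C.cons (nat_lit 1290)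
  (C.node (nat_lit 6) (nat_lit 8) (nat_lit 10) (C.cons (nat_lit 1344) (C.node (nat_lit 1) (nat_lit 7) (nat_lit 11) (C.cons (nat_lit 2690) (C.miq (nat_lit 2456514721) (nat_lit 2558136656227669666955396243)) (C.cons (nat_lit 2186) (C.miq (nat_lit 1631042176) (nat_lit 2642753772010132935170133761)) (C.cons (nat_lit 2178) (C.node (nat_lit 1) (nat_lit 7) (nat_lit 8) (C.cons (nat_lit 962) (C.miq (nat_lit 929136826) (nat_lit 1163010434879757779902533377)) (C.cons (nat_lit 898) (C.miq (nat_lit 1963559473) (nat_lit 678223950385313698825307402)) (C.cons (nat_lit 450) (C.miq (nat_lit 929136826) (nat_lit 544040415237067642452971265)) (C.cons (nat_lit 386) (C.node (nat_lit 1) (nat_lit 9) (nat_lit 10) (C.cons (nat_lit 1574) (C.miq (nat_lit 2544967786) (nat_lit 2633069470477395483988984901)) (C.cons (nat_lit 1570) (C.miq (nat_lit 1460250673) (nat_lit 779786115444957196101289226)) (C.cons (nat_lit 1542) (C.miq (nat_lit 2544967786) (nat_lit 2633068880181585125283333189))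 (C.cons (nat_lit 1538) (C.node (nat_lit 3) (nat_lit 7) (nat_lit 10) (C.cons (nat_lit 1736) (C.miq (nat_lit 326543371) (nat_lit 2098753109097003955890753281)) (C.cons (nat_lit 1672) (C.miq (nat_lit 564725815) (nat_lit 1859339808791260672851181961)) (C.cons (nat_lit 1224) (C.miq (nat_lit 326543371) (nat_lit 1479783089454313818441191169)) C.nil)))) C.nil))))) C.nil))))) C.nil)))) C.nil)) (C.cons (nat_lit 1282) (C.node (nat_lit 1) (nat_lit 3) (nat_lit 10) (C.cons (nat_lit 1038) (C.node (nat_lit 1) (nat_lit 5) (nat_lit 10) (C.cons (nat_lit 1570) (C.miq (nat_lit 1512345904) (nat_lit 1262128904743018381199606283)) (C.cons (nat_lit 1058) (C.node (nat_lit 1) (nat_lit 9) (nat_lit 10) C.nil) C.nil))) (C.cons (nat_lit 1034) (C.node (nat_lit 2) (nat_lit 3) (nat_lit 10) (C.cons (nat_lit 1548) (C.node (nat_lit 6) (nat_lit 9) (nat_lit 10) (C.cons (nat_lit 1728) (C.miq (nat_lit 1782282528) (nat_lit 3723533454348732808407351941)) C.nil)) C.nil)) C.nil))) C.nil))) C.nil)))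 C.nil)) (C.cons (nat_lit 3082) (C.miq (nat_lit 2443641778) (nat_lit 1415664033065882956360583197)) (C.cons (nat_lit 3074) (C.node (nat_lit 3) (nat_lit 10) (nat_lit 11) (C.cons (nat_lit 3144) (C.node (nat_lit 6) (nat_lit 7) (nat_lit 10) (C.cons (nat_lit 1728) (C.miq (nat_lit 915454578) (nat_lit 697588512690046877068233860)) (C.cons (nat_lit 1216) (C.node (nat_lit 2) (nat_lit 3) (nat_lit 7) (C.cons (nat_lit 206) (C.miq (nat_lit 2590444338) (nat_lit 1470065695882475508039813149)) (C.cons (nat_lit 204) (C.miq (nat_lit 2590444338) (nat_lit 1470065695882475508039682077)) (C.cons (nat_lit 174) (C.miq (nat_lit 2591099683) (nat_lit 1415661783497040460308678685)) (C.cons (nat_lit 172) (C.miq (nat_lit 732246151) (nat_lit 3752508917508429660022636937)) (C.cons (nat_lit 142) (C.miq (nat_lit 2591099683) (nat_lit 1415661783497040460306581533)) (C.cons (nat_lit 140) (C.node (nat_lit 2) (nat_lit 5) (nat_lit 7) (C.cons (nat_lit 166) (C.node (nat_lit 2) (nat_lit 6) (nat_lit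 7) (C.cons (nat_lit 196) (C.node (nat_lit 3) (nat_lit 7) (nat_lit 10) (C.cons (nat_lit 1672) (C.node (nat_lit 3) (nat_lit 5) (nat_lit 7) C.nil) C.nil)) C.nil)) (C.cons (nat_lit 164) (C.node (nat_lit 1) (nat_lit 2) (nat_lit 7) (C.cons (nat_lit 198) (C.node (nat_lit 3) (nat_lit 7) (nat_lit 10) (C.cons (nat_lit 1672) (C.node (nat_lit 1) (nat_lit 7) (nat_lit 8) (C.cons (nat_lit 898) (C.miq (nat_lit 2540339488) (nat_lit 1470124650848141574391791879)) C.nil)) C.nil)) (C.cons (nat_lit 134) (C.node (nat_lit 2) (nat_lit 6) (nat_lit 7) (C.cons (nat_lit 196) (C.node (nat_lit 3) (nat_lit 7) (nat_lit 10) (C.cons (nat_lit 1672) (C.node (nat_lit 2) (nat_lit 3) (nat_lit 10) C.nil) C.nil)) C.nil)) C.nil))) C.nil))) C.nil))))))) C.nil))) (C.cons (nat_lit 3080) (C.node (nat_lit 6) (nat_lit 10) (nat_lit 11) (C.cons (nat_lit 3136) (C.ref (nat_lit 252) (nat_lit 198064386771216)) C.nil)) C.nil))) C.nil))))) C.nil)) C.nil))) (C.cons (nat_lit 1072) (C.node (nat_lit 1) (nat_lit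 10) (nat_lit 11) (C.cons (nat_lit 3146) (C.miq (nat_lit 2443641778) (nat_lit 1415664033065883231238490141))
  (C.cons (nat_lit 3138) (C.node (nat_lit 3) (nat_lit 10) (nat_lit 11) (C.cons (nat_lit 3080) (C.node (nat_lit 2) (nat_lit 6) (nat_lit 11) (C.cons (nat_lit 2628) (C.miq (nat_lit 1628027506) (nat_lit 632316682585150273439992964)) (C.cons (nat_lit 2116) (C.node (nat_lit 1) (nat_lit 8) (nat_lit 10) (C.cons (nat_lit 1290) (C.node (nat_lit 6) (nat_lit 8) (nat_lit 10) (C.cons (nat_lit 1344) (C.node (nat_lit 1) (nat_lit 7) (nat_lit 11) (C.cons (nat_lit 2690) (C.miq (nat_lit 2456514721) (nat_lit 2558136656227669666955396243)) (C.cons (nat_lit 2186) (C.miq (nat_lit 1631042176) (nat_lit 2642753772010132935170133761)) (C.cons (nat_lit 2178) (C.node (nat_lit 1) (nat_lit 7) (nat_lit 8) (C.cons (nat_lit 962) (C.miq (nat_lit 929136826) (nat_lit 1163010434879757779902533377)) (C.cons (nat_lit 898) (C.miq (nat_lit 1963559473) (nat_lit 678223950385313698825307402))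 (C.cons (nat_lit 450) (C.miq (nat_lit 929136826) (nat_lit 544040415237067642452971265)) (C.cons (nat_lit 386) (C.node (nat_lit 1) (nat_lit 9) (nat_lit 10) (C.cons (nat_lit 1574) (C.miq (nat_lit 2544967786) (nat_lit 2633069470477395483988984901)) (C.cons (nat_lit 1570) (C.miq (nat_lit 1460250673) (nat_lit 779786115444957196101289226)) (C.cons (nat_lit 1542) (C.miq (nat_lit 2544967786) (nat_lit 2633068880181585125283333189)) (C.cons (nat_lit 1538) (C.node (nat_lit 2) (nat_lit 6) (nat_lit 7) (C.cons (nat_lit 206) (C.miq (nat_lit 698446006) (nat_lit 1859331710778146712019142881)) (C.cons (nat_lit 204) (C.miq (nat_lit 326543371) (nat_lit 246678753447392060240891649)) (C.cons (nat_lit 198) (C.miq (nat_lit 929136826) (nat_lit 239391108694181090427014913)) (C.cons (nat_lit 196) (C.node (nat_lit 1) (nat_lit 6) (nat_lit 7) (C.cons (nat_lit 706) (C.miq (nat_lit 929136826) (nat_lit 853525425058412711177752321)) (C.cons (nat_lit 202) (C.node (nat_lit 3) (nat_lit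 7) (nat_lit 10) (C.cons (nat_lit 1672) (C.miq (nat_lit 657525160) (nat_lit 244207867237405020150959873)) C.nil)) (C.cons (nat_lit 194) (C.miq (nat_lit 929136826) (nat_lit 234555405415722573728190209)) C.nil)))) C.nil))))) C.nil))))) C.nil))))) C.nil)))) C.nil)) (C.cons (nat_lit 1282) (C.node (nat_lit 1) (nat_lit 3) (nat_lit 10) (C.cons (nat_lit 1038) (C.node (nat_lit 1) (nat_lit 5) (nat_lit 10) (C.cons (nat_lit 1570) (C.miq (nat_lit 1512345904) (nat_lit 1262128904743018381199606283)) (C.cons (nat_lit 1058) (C.node (nat_lit 1) (nat_lit 9) (nat_lit 10) (C.cons (nat_lit 1538) (C.node (nat_lit 2) (nat_lit 5) (nat_lit 10) (C.cons (nat_lit 1572) (C.node (nat_lit 5) (nat_lit 6) (nat_lit 10) C.nil) C.nil)) C.nil)) C.nil))) (C.cons (nat_lit 1034) (C.node (nat_lit 2) (nat_lit 3) (nat_lit 10) (C.cons (nat_lit 1548) (C.node (nat_lit 5) (nat_lit 6) (nat_lit 10) (C.cons (nat_lit 1632) (C.miq (nat_lit 2461442821) (nat_lit 2558117139826615812410639401)) (C.cons (nat_lit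 1120) (C.node (nat_lit 7) (nat_lit 9) (nat_lit 10) (C.cons (nat_lit 1728) (C.miq (nat_lit 1782282528) (nat_lit 3723533454348732808407351941)) C.nil)) C.nil))) (C.cons (nat_lit 1036) (C.node (nat_lit 3) (nat_lit 8) (nat_lit 10) (C.cons (nat_lit 1352) (C.node (nat_lit 6) (nat_lit 8) (nat_lit 11) (C.cons (nat_lit 2368) (C.node (nat_lit 3) (nat_lit 4) (nat_lit 10) (C.cons (nat_lit 1560) (C.node (nat_lit 3) (nat_lit 7) (nat_lit 10) C.nil) C.nil)) C.nil)) (C.cons (nat_lit 1288) (C.node (nat_lit 6) (nat_lit 8) (nat_lit 10) (C.cons (nat_lit 1344) (C.node (nat_lit 5) (nat_lit 6) (nat_lit 10) C.nil) C.nil)) C.nil))) C.nil))) C.nil))) C.nil))) C.nil))) C.nil)) (C.cons (nat_lit 3082) (C.miq (nat_lit 2443641778) (nat_lit 1415664033065882956360583197)) (C.cons (nat_lit 3074) (C.node (nat_lit 3) (nat_lit 10) (nat_lit 11) (C.cons (nat_lit 3144) (C.node (nat_lit 6) (nat_lit 7) (nat_lit 10) (C.cons (nat_lit 1728) (C.miq (nat_lit 915454578) (nat_lit 697588512690046877068233860))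 (C.cons (nat_lit 1216) (C.node (nat_lit 2) (nat_lit 3) (nat_lit 7) (C.cons (nat_lit 206) (C.miq (nat_lit 2590444338) (nat_lit 1470065695882475508039813149)) (C.cons (nat_lit 204)
  (C.miq (nat_lit 2590444338) (nat_lit 1470065695882475508039682077)) (C.cons (nat_lit 174) (C.miq (nat_lit 2591099683) (nat_lit 1415661783497040460308678685)) (C.cons (nat_lit 172) (C.miq (nat_lit 732246151) (nat_lit 3752508917508429660022636937)) (C.cons (nat_lit 142) (C.miq (nat_lit 2591099683) (nat_lit 1415661783497040460306581533)) (C.cons (nat_lit 140) (C.node (nat_lit 2) (nat_lit 5) (nat_lit 7) (C.cons (nat_lit 166) (C.node (nat_lit 2) (nat_lit 6) (nat_lit 7) (C.cons (nat_lit 196) (C.node (nat_lit 2) (nat_lit 5) (nat_lit 11) (C.cons (nat_lit 2596) (C.miq (nat_lit 1193609913) (nat_lit 200692035009074753033211649)) (C.cons (nat_lit 2084) (C.node (nat_lit 2) (nat_lit 5) (nat_lit 10) (C.cons (nat_lit 1572) (C.node (nat_lit 3) (nat_lit 4) (nat_lit 10) (C.cons (nat_lit 1560)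 (C.miq (nat_lit 1788195648) (nat_lit 1900473318768440631412983837)) (C.cons (nat_lit 1048) (C.node (nat_lit 1) (nat_lit 2) (nat_lit 10) (C.cons (nat_lit 1038) (C.node (nat_lit 3) (nat_lit 8) (nat_lit 10) C.nil) C.nil)) C.nil))) (C.cons (nat_lit 1060) (C.node (nat_lit 2) (nat_lit 9) (nat_lit 10) (C.cons (nat_lit 1548) (C.miq (nat_lit 1663548048) (nat_lit 169291545080291601699639041)) (C.cons (nat_lit 1542) (C.miq (nat_lit 2455478640) (nat_lit 2519472262454909445676795027)) (C.cons (nat_lit 1540) (C.node (nat_lit 1) (nat_lit 2) (nat_lit 10) C.nil) C.nil)))) C.nil))) C.nil))) C.nil)) (C.cons (nat_lit 164) (C.node (nat_lit 1) (nat_lit 2) (nat_lit 7) (C.cons (nat_lit 198) (C.node (nat_lit 1) (nat_lit 7) (nat_lit 8) (C.cons (nat_lit 898) (C.miq (nat_lit 2540339488) (nat_lit 1470124650848141574391791879)) (C.cons (nat_lit 386) (C.node (nat_lit 2) (nat_lit 6) (nat_lit 11) (C.cons (nat_lit 2628) (C.miq (nat_lit 448163986) (nat_lit 3800866429653344414637228677))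 (C.cons (nat_lit 2116) (C.node (nat_lit 6) (nat_lit 8) (nat_lit 10) (C.cons (nat_lit 1346) (C.miq (nat_lit 907197056) (nat_lit 239405627056100779152051969)) (C.cons (nat_lit 1344) (C.node (nat_lit 6) (nat_lit 8) (nat_lit 11) (C.cons (nat_lit 2370) (C.miq (nat_lit 2551319399) (nat_lit 317959389789730580239616225)) (C.cons (nat_lit 2368) (C.node (nat_lit 6) (nat_lit 7) (nat_lit 8) (C.cons (nat_lit 448) (C.node (nat_lit 7) (nat_lit 8) (nat_lit 9) C.nil) C.nil)) C.nil))) C.nil))) C.nil))) C.nil))) (C.cons (nat_lit 134) (C.node (nat_lit 2) (nat_lit 6) (nat_lit 7) (C.cons (nat_lit 196) (C.node (nat_lit 3) (nat_lit 4) (nat_lit 10) (C.cons (nat_lit 1560) (C.node (nat_lit 3) (nat_lit 7) (nat_lit 10) (C.cons (nat_lit 1160) (C.node (nat_lit 4) (nat_lit 6) (nat_lit 10) C.nil) C.nil)) (C.cons (nat_lit 1048) (C.node (nat_lit 3) (nat_lit 7) (nat_lit 10) (C.cons (nat_lit 1672) (C.node (nat_lit 2) (nat_lit 3) (nat_lit 10) C.nil) (C.cons (nat_lit 1160) (C.node (nat_lit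 7) (nat_lit 9) (nat_lit 10) C.nil) C.nil))) C.nil))) C.nil)) C.nil))) C.nil))) C.nil))))))) C.nil))) (C.cons (nat_lit 3080) (C.node (nat_lit 6) (nat_lit 10) (nat_lit 11) (C.cons (nat_lit 3136) (C.ref (nat_lit 253) (nat_lit 198064386771216)) C.nil)) C.nil))) C.nil))))) C.nil))) C.nil)))) C.nil))) C.nil))) List.nil)

theorem ok12_304 : okL par12 (nat_lit 305) c12_304 (nat_lit 304) = true := by decide +kernel

noncomputable def c12_305 : List C :=
  (List.cons (C.node (nat_lit 3) (nat_lit 9) (nat_lit 11) (C.cons (nat_lit 2600) (C.node (nat_lit 4) (nat_lit 9) (nat_lit 11) (C.cons (nat_lit 2642) (C.miq (nat_lit 991582528) (nat_lit 3716257616009654870547300913)) (C.cons (nat_lit 2640) (C.miq (nat_lit 1678424403) (nat_lit 1415710132075194854473796136)) (C.cons (nat_lit 2578) (C.miq (nat_lit 991582528) (nat_lit 3716257616009654595669393969)) (C.cons (nat_lit 2576) (C.node (nat_lit 1) (nat_lit 3) (nat_lit 11) (C.cons (nat_lit 2314) (C.node (nat_lit 6) (nat_lit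 8) (nat_lit 11) (C.cons (nat_lit 2368) (C.node (nat_lit 4) (nat_lit 8) (nat_lit 11) (C.cons (nat_lit 2352) (C.miq (nat_lit 2214704531) (nat_lit 1415694821196548882217765416)) C.nil)) C.nil)) (C.cons (nat_lit 2058) (C.node (nat_lit 3) (nat_lit 8) (nat_lit 11) C.nil) C.nil))) C.nil))))) (C.cons (nat_lit 2568) (C.node (nat_lit 6) (nat_lit 8) (nat_lit 11) (C.cons (nat_lit 2370) (C.node (nat_lit 1) (nat_lit 3) (nat_lit 11) (C.cons (nat_lit 2090) (C.node (nat_lit 3) (nat_lit 8) (nat_lit 11) (C.cons (nat_lit 2312) (C.node (nat_lit 2) (nat_lit 5) (nat_lit 11) (C.cons (nat_lit 2596) (C.miq (nat_lit 1537512048) (nat_lit 3733173280324123043243950725)) C.nil)) C.nil)) (C.cons (nat_lit 2058) (C.node (nat_lit 2) (nat_lit 6) (nat_lit 11) (C.cons (nat_lit 2628) (C.node (nat_lit 4) (nat_lit 6) (nat_lit 11) C.nil) C.nil)) C.nil))) (C.cons (nat_lit 2368) (C.node (nat_lit 1) (nat_lit 3) (nat_lit 10) (C.cons (nat_lit 1290) (C.miq (nat_lit 665323825) (nat_lit 1702172405692647804846604811))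 (C.cons (nat_lit 1038) (C.node (nat_lit 3) (nat_lit 8) (nat_lit 10) (C.cons (nat_lit 1288) (C.node (nat_lit 1) (nat_lit 3) (nat_lit 11) (C.cons (nat_lit 2346) (C.miq (nat_lit 1662167936) (nat_lit 1254885163936225050673745665)) (C.cons (nat_lit 2314) (C.miq (nat_lit 1662167936) (nat_lit 1254885163936224913234792193)) (C.cons (nat_lit 2090) (C.miq (nat_lit 1344386723) (nat_lit 317986044893558842441206856)) (C.cons (nat_lit 2058) (C.node (nat_lit 3) (nat_lit 5) (nat_lit 11) C.nil) C.nil))))) C.nil)) (C.cons (nat_lit 1034) (C.node (nat_lit 2) (nat_lit 3) (nat_lit 10) (C.cons (nat_lit 1292) (C.node (nat_lit 3) (nat_lit 8) (nat_lit 11) (C.cons (nat_lit 2346) (C.miq (nat_lit 683058000) (nat_lit 2862756503502390196296549417)) (C.cons (nat_lit 2344) (C.miq (nat_lit 683058000) (nat_lit 2862756503502390187706614825)) (C.cons (nat_lit 2314) (C.miq (nat_lit 1796252546) (nat_lit 2479527019205844267212145932)) (C.cons (nat_lit 2312) (C.node (nat_lit 1) (nat_lit 3)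 (nat_lit 11) C.nil) C.nil))))) (C.cons (nat_lit 1036) (C.node (nat_lit 3) (nat_lit 8) (nat_lit 10) (C.cons (nat_lit 1288) (C.node (nat_lit 4) (nat_lit 6) (nat_lit 10) C.nil) C.nil)) C.nil))) C.nil)))) C.nil))) C.nil))) List.nil)

theorem ok12_305 : okL par12 (nat_lit 306) c12_305 (nat_lit 305) = true := by decide +kernel

noncomputable def c12_306 : List C :=
  (List.cons (C.node (nat_lit 2) (nat_lit 8) (nat_lit 11) (C.cons (nat_lit 2372) (C.miq (nat_lit 1203243558) (nat_lit 2940113810185151951963161669)) (C.cons (nat_lit 2340) (C.ref (nat_lit 303) (nat_lit 205163983024656)) (C.cons (nat_lit 2308) (C.node (nat_lit 5) (nat_lit 7) (nat_lit 10) (C.cons (nat_lit 1696) (C.miq (nat_lit 1521784608) (nat_lit 3733173280070795564263735941)) (C.cons (nat_lit 1440) (C.node (nat_lit 2) (nat_lit 8) (nat_lit 10) (C.cons (nat_lit 1300) (C.miq (nat_lit 1739066148) (nat_lit 1740859397437625234919524381)) (C.cons (nat_lit 1292) (C.miq (nat_lit 1512798256) (nat_lit 3873440255899880933266620809))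 (C.cons (nat_lit 1284) (C.node (nat_lit 4) (nat_lit 8) (nat_lit 10) (C.cons (nat_lit 1304) (C.miq (nat_lit 1514895408) (nat_lit 3733204860824584000540311945)) (C.cons (nat_lit 1296) (C.node (nat_lit 4) (nat_lit 5) (nat_lit 7) (C.cons (nat_lit 184) (C.miq (nat_lit 1269117063) (nat_lit 3752509138869358544537256329)) (C.cons (nat_lit 180) (C.miq (nat_lit 2591361828) (nat_lit 1740863529949650509267994653)) (C.cons (nat_lit 176) (C.node (nat_lit 2) (nat_lit 4) (nat_lit 7) (C.cons (nat_lit 404) (C.node (nat_lit 2) (nat_lit 4) (nat_lit 10) (C.cons (nat_lit 1556) (C.miq (nat_lit 1461980073) (nat_lit 488416380387541920880267009)) (C.cons (nat_lit 1076) (C.node (nat_lit 1) (nat_lit 10) (nat_lit 11) (C.cons (nat_lit 3146) (C.miq (nat_lit 2443641778) (nat_lit 1415664033065883231238490141)) (C.cons (nat_lit 3138) (C.node (nat_lit 3) (nat_lit 10) (nat_lit 11) (C.cons (nat_lit 3080) (C.node (nat_lit 2) (nat_lit 6) (nat_lit 11) (C.cons (nat_lit 2628) (C.miq (nat_lit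 1628027506) (nat_lit 632316682585150273439992964)) (C.cons (nat_lit 2116) (C.node (nat_lit 1) (nat_lit 5) (nat_lit 10) (C.cons (nat_lit 1570) (C.node (nat_lit 5) (nat_lit 6) (nat_lit 10) (C.cons (nat_lit 1120) (C.node (nat_lit 1) (nat_lit 2) (nat_lit 10) (C.cons (nat_lit 1038) (C.node (nat_lit 1) (nat_lit 8) (nat_lit 10) (C.cons (nat_lit 1282) (C.node (nat_lit 2) (nat_lit 9) (nat_lit 10) (C.cons (nat_lit 1540) (C.node (nat_lit 5) (nat_lit 7) (nat_lit 9) (C.cons (nat_lit 680) (C.miq (nat_lit 359897728) (nat_lit 822079205427020287110090497)) (C.cons (nat_lit 672) (C.node (nat_lit 1) (nat_lit 5) (nat_lit 7) (C.cons (nat_lit 170) (C.node (nat_lit 1) (nat_lit 2) (nat_lit 7) (C.cons (nat_lit 198) (C.miq (nat_lit 2584873831) (nat_lit 1254876899991071489171785953)) (C.cons (nat_lit 134) (C.miq (nat_lit 1645677109) (nat_lit 162037989585296458953393193)) C.nil))) (C.cons (nat_lit 166) (C.miq (nat_lit 827787688) (nat_lit 200688935773667566867713793)) (C.cons (nat_lit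 162) (C.miq (nat_lit 827787688) (nat_lit 195853232495209050168889089)) C.nil)))) C.nil))) C.nil)) C.nil)) (C.cons (nat_lit 1030) (C.miq (nat_lit 832702804) (nat_lit 1245231908237727300674912817)) C.nil))) C.nil)) (C.cons (nat_lit 1058) (C.node (nat_lit 1) (nat_lit 9) (nat_lit 10) (C.cons (nat_lit 1542) (C.miq (nat_lit 369732466) (nat_lit 697578643680280933355031684)) (C.cons (nat_lit 1538) (C.node (nat_lit 1) (nat_lit 2) (nat_lit 10) (C.cons (nat_lit 1038) (C.miq (nat_lit 1511604784) (nat_lit 1859338259493596554907551773)) (C.cons (nat_lit 1030) (C.node (nat_lit 1) (nat_lit 3) (nat_lit 10) (C.cons (nat_lit 1290) (C.node (nat_lit 6) (nat_lit 8) (nat_lit 10) (C.cons (nat_lit 1344) (C.node (nat_lit 1) (nat_lit 7) (nat_lit 11) (C.cons (nat_lit 2690) (C.miq (nat_lit 2443344736) (nat_lit 1245205493110176757638826209)) (C.cons (nat_lit 2186) (C.miq (nat_lit 1631042176) (nat_lit 2642753772010132935170133761)) (C.cons (nat_lit 2178) (C.node (nat_lit 1) (nat_lit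 7) (nat_lit 8) (C.cons (nat_lit 962) (C.miq (nat_lit 929136826) (nat_lit 1163010434879757779902533377)) (C.cons (nat_lit 898) (C.miq (nat_lit 1125654679) (nat_lit 1559521760372103186984600197)) (C.cons (nat_lit 450) (C.miq (nat_lit 929136826) (nat_lit 544040415237067642452971265)) (C.cons (nat_lit 386) (C.node (nat_lit 2) (nat_lit 6) (nat_lit 7) (C.cons (nat_lit 206) (C.miq (nat_lit 2584873831) (nat_lit 1245205493434154455774660833)) (C.cons (nat_lit 204)
  (C.miq (nat_lit 326543371) (nat_lit 246678753447392060240891649)) (C.cons (nat_lit 198) (C.miq (nat_lit 929136826) (nat_lit 239391108694181090427014913)) (C.cons (nat_lit 196) (C.node (nat_lit 1) (nat_lit 6) (nat_lit 7) (C.cons (nat_lit 706) (C.miq (nat_lit 929136826) (nat_lit 853525425058412711177752321)) (C.cons (nat_lit 202) (C.node (nat_lit 1) (nat_lit 2) (nat_lit 3) (C.cons (nat_lit 46) (C.miq (nat_lit 2184541194) (nat_lit 55637151127463895098786963)) (C.cons (nat_lit 14) (C.node (nat_lit 2)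 (nat_lit 3) (nat_lit 7) (C.cons (nat_lit 172) (C.miq (nat_lit 2184541194) (nat_lit 207961804398907171111765139)) (C.cons (nat_lit 140) (C.node (nat_lit 3) (nat_lit 4) (nat_lit 7) (C.cons (nat_lit 664) (C.miq (nat_lit 2541827104) (nat_lit 466655014205298531251980317)) (C.cons (nat_lit 152) (C.node (nat_lit 3) (nat_lit 7) (nat_lit 10) (C.cons (nat_lit 1672) (C.miq (nat_lit 1930599040) (nat_lit 16936860095164052691947265)) (C.cons (nat_lit 1160) (C.node (nat_lit 1) (nat_lit 2) (nat_lit 7) C.nil) C.nil))) C.nil))) C.nil))) C.nil))) (C.cons (nat_lit 194) (C.miq (nat_lit 929136826) (nat_lit 234555405415722573728190209)) C.nil)))) C.nil))))) C.nil))))) C.nil)))) C.nil)) (C.cons (nat_lit 1034) (C.node (nat_lit 1) (nat_lit 8) (nat_lit 10) (C.cons (nat_lit 1282) (C.node (nat_lit 2) (nat_lit 3) (nat_lit 10) (C.cons (nat_lit 1548) (C.node (nat_lit 5) (nat_lit 6) (nat_lit 10) (C.cons (nat_lit 1632) (C.miq (nat_lit 2461442821) (nat_lit 2558117139826615812410639401))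 C.nil)) C.nil)) C.nil)) C.nil))) C.nil))) C.nil))) C.nil))) C.nil))) C.nil)) (C.cons (nat_lit 3082) (C.miq (nat_lit 2443641778) (nat_lit 1415664033065882956360583197)) (C.cons (nat_lit 3074) (C.node (nat_lit 3) (nat_lit 10) (nat_lit 11) (C.cons (nat_lit 3144) (C.node (nat_lit 6) (nat_lit 7) (nat_lit 10) (C.cons (nat_lit 1728) (C.miq (nat_lit 915454578) (nat_lit 697588512690046877068233860)) (C.cons (nat_lit 1216) (C.node (nat_lit 2) (nat_lit 3) (nat_lit 7) (C.cons (nat_lit 206) (C.miq (nat_lit 2590444338) (nat_lit 1470065695882475508039813149)) (C.cons (nat_lit 204) (C.miq (nat_lit 2590444338) (nat_lit 1470065695882475508039682077)) (C.cons (nat_lit 174) (C.miq (nat_lit 2591099683) (nat_lit 1415661783497040460308678685)) (C.cons (nat_lit 172) (C.miq (nat_lit 2184541194) (nat_lit 207961804398907171111765139)) (C.cons (nat_lit 142) (C.miq (nat_lit 2591099683) (nat_lit 1415661783497040460306581533)) (C.cons (nat_lit 140) (C.node (nat_lit 2) (nat_lit 5)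 (nat_lit 7) (C.cons (nat_lit 166) (C.node (nat_lit 2) (nat_lit 6) (nat_lit 7) (C.cons (nat_lit 196) (C.node (nat_lit 2) (nat_lit 5) (nat_lit 11) (C.cons (nat_lit 2596) (C.miq (nat_lit 1918151568) (nat_lit 1300825783944508281021599489)) (C.cons (nat_lit 2084) (C.node (nat_lit 2) (nat_lit 9) (nat_lit 10) (C.cons (nat_lit 1548) (C.miq (nat_lit 1663548048) (nat_lit 169291545080291601699639041)) (C.cons (nat_lit 1542) (C.miq (nat_lit 2455478640) (nat_lit 2519472262454909445676795027)) (C.cons (nat_lit 1540) (C.node (nat_lit 2) (nat_lit 3) (nat_lit 5) (C.cons (nat_lit 876) (C.miq (nat_lit 829788328) (nat_lit 200697845551053454889193217)) (C.cons (nat_lit 812) (C.miq (nat_lit 829788328) (nat_lit 200696664959432737477889793)) (C.cons (nat_lit 620) (C.miq (nat_lit 2184541194) (nat_lit 749560571586261041380131987)) (C.cons (nat_lit 556) (C.miq (nat_lit 2184541194) (nat_lit 672189319130924774198936723)) (C.cons (nat_lit 364) (C.miq (nat_lit 310670688) (nat_lit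 488427632308346909990389985)) (C.cons (nat_lit 300) (C.node (nat_lit 1) (nat_lit 2) (nat_lit 10) (C.cons (nat_lit 1038) (C.miq (nat_lit 2502100129) (nat_lit 362687393689451385894864019)) (C.cons (nat_lit 1030) (C.node (nat_lit 2) (nat_lit 3) (nat_lit 10) (C.cons (nat_lit 1036) (C.node (nat_lit 1) (nat_lit 3) (nat_lit 10) (C.cons (nat_lit 1290) (C.node (nat_lit 6) (nat_lit 8) (nat_lit 10) C.nil) C.nil)) C.nil)) C.nil))) (C.cons (nat_lit 108) (C.miq (nat_lit 2184541194) (nat_lit 130590551943570903930569875)) (C.cons (nat_lit 44)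
  (C.miq (nat_lit 2184541194) (nat_lit 53219299488234636749374611)) C.nil))))))))) C.nil)))) C.nil))) C.nil)) (C.cons (nat_lit 164) (C.node (nat_lit 1) (nat_lit 2) (nat_lit 7) (C.cons (nat_lit 198) (C.node (nat_lit 1) (nat_lit 7) (nat_lit 8) (C.cons (nat_lit 898) (C.miq (nat_lit 2540339488) (nat_lit 1470124650848141574391791879)) (C.cons (nat_lit 386) (C.node (nat_lit 2) (nat_lit 6) (nat_lit 11) (C.cons (nat_lit 2628) (C.miq (nat_lit 448163986) (nat_lit 3800866429653344414637228677)) (C.cons (nat_lit 2116) (C.node (nat_lit 6) (nat_lit 8) (nat_lit 10) (C.cons (nat_lit 1346) (C.miq (nat_lit 907197056) (nat_lit 239405627056100779152051969)) (C.cons (nat_lit 1344) (C.node (nat_lit 6) (nat_lit 8) (nat_lit 11) (C.cons (nat_lit 2370) (C.miq (nat_lit 2551319399) (nat_lit 317959389789730580239616225)) (C.cons (nat_lit 2368) (C.node (nat_lit 2) (nat_lit 9) (nat_lit 10) (C.cons (nat_lit 1548) (C.miq (nat_lit 1663548048) (nat_lit 169291545080291601699639041)) (C.cons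 (nat_lit 1542) (C.miq (nat_lit 2456527216) (nat_lit 2558157888682577716706346131)) (C.cons (nat_lit 1540) (C.node (nat_lit 7) (nat_lit 9) (nat_lit 11) (C.cons (nat_lit 2696) (C.miq (nat_lit 1668459408) (nat_lit 169269777922289555051187969)) (C.cons (nat_lit 2690) (C.miq (nat_lit 313095691) (nat_lit 1861795384003823947781048545)) (C.cons (nat_lit 2688) (C.node (nat_lit 3) (nat_lit 8) (nat_lit 11) (C.cons (nat_lit 2346) (C.miq (nat_lit 824621066) (nat_lit 239425309507405744433336065)) (C.cons (nat_lit 2344) (C.miq (nat_lit 896841888) (nat_lit 212809258799399359726423809)) (C.cons (nat_lit 2314) (C.miq (nat_lit 824621066) (nat_lit 239425309498398545178595073)) (C.cons (nat_lit 2312) (C.node (nat_lit 2) (nat_lit 8) (nat_lit 9) (C.cons (nat_lit 876) (C.miq (nat_lit 2440572994) (nat_lit 466661525866271873256654877)) (C.cons (nat_lit 868) (C.miq (nat_lit 897714804) (nat_lit 1049385925612716253359899795)) (C.cons (nat_lit 844) (C.miq (nat_lit 2440572994) (nat_lit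 466660935570461514551003165)) (C.cons (nat_lit 836) (C.miq (nat_lit 445018258) (nat_lit 1624799954347011900048671365)) (C.cons (nat_lit 812) (C.miq (nat_lit 2440572994) (nat_lit 466660345274651155845351453)) (C.cons (nat_lit 804) (C.miq (nat_lit 897714804) (nat_lit 972014673157379986178704531)) (C.cons (nat_lit 780) (C.miq (nat_lit 2440572994) (nat_lit 466659754978840797139699741)) (C.cons (nat_lit 772) (C.node (nat_lit 1) (nat_lit 2) (nat_lit 11) C.nil) C.nil))))))))) C.nil))))) C.nil)))) C.nil)))) C.nil))) C.nil))) C.nil))) C.nil))) (C.cons (nat_lit 134) (C.node (nat_lit 2) (nat_lit 6) (nat_lit 7) (C.cons (nat_lit 196) (C.node (nat_lit 3) (nat_lit 4) (nat_lit 10) (C.cons (nat_lit 1560) (C.node (nat_lit 3) (nat_lit 7) (nat_lit 10) (C.cons (nat_lit 1160) (C.node (nat_lit 4) (nat_lit 6) (nat_lit 10) (C.cons (nat_lit 1104) (C.node (nat_lit 7) (nat_lit 9) (nat_lit 10) (C.cons (nat_lit 1664) (C.node (nat_lit 2) (nat_lit 3) (nat_lit 10) (C.cons (nat_lit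 1038) (C.miq (nat_lit 620864659) (nat_lit 42331551709730016080889368)) C.nil)) C.nil)) C.nil)) C.nil)) (C.cons (nat_lit 1048) (C.node (nat_lit 3) (nat_lit 7) (nat_lit 10) (C.cons (nat_lit 1672) (C.node (nat_lit 2) (nat_lit 9) (nat_lit 10) (C.cons (nat_lit 1542) (C.miq (nat_lit 2049456400) (nat_lit 1552268002426237612093538827)) (C.cons (nat_lit 1540) (C.node (nat_lit 3) (nat_lit 5) (nat_lit 7) (C.cons (nat_lit 170) (C.miq (nat_lit 277166503) (nat_lit 349382697962348271997290120)) (C.cons (nat_lit 168) (C.node (nat_lit 1) (nat_lit 5) (nat_lit 7) (C.cons (nat_lit 674) (C.node (nat_lit 7) (nat_lit 9) (nat_lit 11) C.nil) C.nil)) C.nil))) C.nil))) (C.cons (nat_lit 1160) (C.node (nat_lit 7) (nat_lit 9) (nat_lit 10) (C.cons (nat_lit 1664) (C.node (nat_lit 3) (nat_lit 9) (nat_lit 10) (C.cons (nat_lit 1548) (C.miq (nat_lit 1663548048) (nat_lit 169291545080291601699639041)) C.nil)) C.nil)) C.nil))) C.nil))) C.nil)) C.nil))) C.nil))) C.nil))))))) C.nil))) (C.cons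 (nat_lit 3080) (C.node (nat_lit 6) (nat_lit 10) (nat_lit 11) (C.cons (nat_lit 3136)
  (C.ref (nat_lit 251) (nat_lit 198064386771216)) C.nil)) C.nil))) C.nil))))) (C.cons (nat_lit 1044) (C.node (nat_lit 2) (nat_lit 3) (nat_lit 8) (C.cons (nat_lit 876) (C.miq (nat_lit 1380614919) (nat_lit 1262145119235720000469926281)) (C.cons (nat_lit 844) (C.miq (nat_lit 1478731584) (nat_lit 1020353037942511225890735251)) (C.cons (nat_lit 812) (C.miq (nat_lit 1380614919) (nat_lit 1262145119217705601960444297)) (C.cons (nat_lit 780) (C.miq (nat_lit 1478731584) (nat_lit 942981785487174958709539987)) (C.cons (nat_lit 364) (C.miq (nat_lit 1380614919) (nat_lit 1262145119091604812394070409)) (C.cons (nat_lit 332) (C.miq (nat_lit 1478731584) (nat_lit 401383018299821088441173139)) (C.cons (nat_lit 300) (C.miq (nat_lit 1380614919) (nat_lit 1262145119073590413884588425)) (C.cons (nat_lit 268) (C.miq (nat_lit 1478731584) (nat_lit 324011765844484821259977875)) C.nil))))))))) C.nil))))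 (C.cons (nat_lit 212) (C.miq (nat_lit 1218601143) (nat_lit 1552264663189801051078527201)) (C.cons (nat_lit 148) (C.ref (nat_lit 304) (nat_lit 205163983024656)) C.nil)))) C.nil)))) C.nil))) C.nil)))) (C.cons (nat_lit 1184) (C.node (nat_lit 7) (nat_lit 8) (nat_lit 10) (C.cons (nat_lit 1472) (C.miq (nat_lit 2276747808) (nat_lit 2649971613562364918004253765)) (C.cons (nat_lit 1408) (C.node (nat_lit 1) (nat_lit 10) (nat_lit 11) (C.cons (nat_lit 3146) (C.miq (nat_lit 2443641778) (nat_lit 1415664033065883231238490141)) (C.cons (nat_lit 3138) (C.node (nat_lit 3) (nat_lit 10) (nat_lit 11) (C.cons (nat_lit 3080) (C.node (nat_lit 2) (nat_lit 6) (nat_lit 11) (C.cons (nat_lit 2628) (C.miq (nat_lit 1628027506) (nat_lit 632316682585150273439992964)) (C.cons (nat_lit 2116) (C.node (nat_lit 4) (nat_lit 6) (nat_lit 11) (C.cons (nat_lit 2640) (C.node (nat_lit 3) (nat_lit 6) (nat_lit 11) (C.cons (nat_lit 2376) (C.node (nat_lit 1) (nat_lit 7) (nat_lit 11) (C.cons (nat_lit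 2690) (C.miq (nat_lit 649660951) (nat_lit 3191576062240214191213511827)) (C.cons (nat_lit 2186) (C.miq (nat_lit 1668397066) (nat_lit 2642769728229268909144084225)) (C.cons (nat_lit 2178) (C.node (nat_lit 3) (nat_lit 7) (nat_lit 11) (C.cons (nat_lit 2696) (C.miq (nat_lit 2483533443) (nat_lit 1415701867933848870477957448)) (C.cons (nat_lit 2184) (C.node (nat_lit 7) (nat_lit 9) (nat_lit 11) (C.cons (nat_lit 2688) (C.node (nat_lit 3) (nat_lit 9) (nat_lit 11) (C.cons (nat_lit 2600) (C.miq (nat_lit 1400937316) (nat_lit 475118196463819761030072912)) (C.cons (nat_lit 2568) (C.node (nat_lit 1) (nat_lit 3) (nat_lit 11) (C.cons (nat_lit 2090) (C.node (nat_lit 1) (nat_lit 2) (nat_lit 11) C.nil) C.nil)) C.nil))) C.nil)) C.nil))) C.nil)))) (C.cons (nat_lit 2120) (C.node (nat_lit 6) (nat_lit 8) (nat_lit 11) (C.cons (nat_lit 2368) (C.node (nat_lit 1) (nat_lit 7) (nat_lit 11) (C.cons (nat_lit 2690) (C.miq (nat_lit 649660951) (nat_lit 3191576062240214191213511827)) (C.cons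 (nat_lit 2186) (C.node (nat_lit 7) (nat_lit 9) (nat_lit 11) (C.cons (nat_lit 2688) (C.node (nat_lit 3) (nat_lit 9) (nat_lit 11) (C.cons (nat_lit 2600) (C.miq (nat_lit 1094256565) (nat_lit 632278552611492996126869729)) (C.cons (nat_lit 2568) (C.node (nat_lit 3) (nat_lit 5) (nat_lit 11) (C.cons (nat_lit 2344) (C.node (nat_lit 1) (nat_lit 8) (nat_lit 11) C.nil) C.nil)) C.nil))) C.nil)) (C.cons (nat_lit 2178) (C.node (nat_lit 3) (nat_lit 7) (nat_lit 11) (C.cons (nat_lit 2696) (C.node (nat_lit 4) (nat_lit 7) (nat_lit 9) (C.cons (nat_lit 912) (C.miq (nat_lit 961051488) (nat_lit 1102547597817830651133495521)) (C.cons (nat_lit 656) (C.node (nat_lit 7) (nat_lit 9) (nat_lit 10) (C.cons (nat_lit 1728) (C.miq (nat_lit 2258044083) (nat_lit 2089031065959368587787896861)) (C.cons (nat_lit 1664) (C.node (nat_lit 3) (nat_lit 4) (nat_lit 9) (C.cons (nat_lit 1560) (C.miq (nat_lit 2207516598) (nat_lit 1885930495262205597912664289)) (C.cons (nat_lit 792) (C.node (nat_lit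 3) (nat_lit 4) (nat_lit 10) (C.cons (nat_lit 1112) (C.miq (nat_lit 1934014848) (nat_lit 1344367441619607122932207361)) (C.cons (nat_lit 1048) (C.node (nat_lit 3) (nat_lit 7) (nat_lit 10) (C.cons (nat_lit 1224)
  (C.miq (nat_lit 1181974713) (nat_lit 1479739813124479317594083073)) (C.cons (nat_lit 1160) (C.node (nat_lit 6) (nat_lit 7) (nat_lit 10) (C.cons (nat_lit 1216) (C.node (nat_lit 4) (nat_lit 9) (nat_lit 10) (C.cons (nat_lit 1556) (C.miq (nat_lit 1470696228) (nat_lit 2011662913101974681010047005)) (C.cons (nat_lit 1552) (C.node (nat_lit 3) (nat_lit 4) (nat_lit 7) (C.cons (nat_lit 216) (C.node (nat_lit 2) (nat_lit 6) (nat_lit 7) (C.cons (nat_lit 452) (C.miq (nat_lit 2557887243) (nat_lit 546483170093096849809410077)) (C.cons (nat_lit 198) (C.miq (nat_lit 2606893591) (nat_lit 2558098933535641739505042579)) (C.cons (nat_lit 196) (C.node (nat_lit 1) (nat_lit 2) (nat_lit 7) (C.cons (nat_lit 174) (C.miq (nat_lit 2591099683) (nat_lit 1415661783497040460308678685))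 C.nil)) C.nil)))) (C.cons (nat_lit 184) (C.miq (nat_lit 1731464088) (nat_lit 222448568001648809611890433)) (C.cons (nat_lit 152) (C.miq (nat_lit 1731464088) (nat_lit 183762941773980676021292801)) C.nil)))) C.nil))) C.nil)) C.nil))) C.nil))) (C.cons (nat_lit 536) (C.miq (nat_lit 2207516598) (nat_lit 647990455976825323013540065)) C.nil)))) C.nil))) C.nil))) (C.cons (nat_lit 2184) (C.node (nat_lit 7) (nat_lit 9) (nat_lit 11) C.nil) C.nil))) C.nil)))) C.nil)) C.nil))) (C.cons (nat_lit 2128) (C.node (nat_lit 4) (nat_lit 9) (nat_lit 11) (C.cons (nat_lit 2578) (C.node (nat_lit 2) (nat_lit 9) (nat_lit 11) (C.cons (nat_lit 2596) (C.miq (nat_lit 1537512048) (nat_lit 3733173280324123043243950725)) (C.cons (nat_lit 2564) (C.node (nat_lit 5) (nat_lit 9) (nat_lit 11) (C.cons (nat_lit 2600) (C.miq (nat_lit 991582528) (nat_lit 3793628868464990862850589233)) (C.cons (nat_lit 2592) (C.node (nat_lit 1) (nat_lit 9) (nat_lit 10) (C.cons (nat_lit 1574) (C.miq (nat_lit 899353108)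 (nat_lit 3133574038628337526221440147)) (C.cons (nat_lit 1570) (C.miq (nat_lit 899353108) (nat_lit 3133574038628337509041570963)) (C.cons (nat_lit 1542) (C.miq (nat_lit 2065237666) (nat_lit 3116622661756247654825067589)) (C.cons (nat_lit 1538) (C.node (nat_lit 1) (nat_lit 2) (nat_lit 11) (C.cons (nat_lit 2086) (C.node (nat_lit 1) (nat_lit 2) (nat_lit 4) (C.cons (nat_lit 86) (C.miq (nat_lit 2439689248) (nat_lit 3793680076620336328014628893)) (C.cons (nat_lit 22) (C.node (nat_lit 1) (nat_lit 2) (nat_lit 7) (C.cons (nat_lit 206) (C.miq (nat_lit 698446006) (nat_lit 1859331710778146712019142881)) (C.cons (nat_lit 198) (C.miq (nat_lit 698446006) (nat_lit 1859331563204194122342729953)) (C.cons (nat_lit 142) (C.miq (nat_lit 2591099683) (nat_lit 1415661783497040460306581533)) (C.cons (nat_lit 134) (C.node (nat_lit 1) (nat_lit 2) (nat_lit 9) (C.cons (nat_lit 582) (C.node (nat_lit 1) (nat_lit 2) (nat_lit 3) (C.cons (nat_lit 1038) (C.node (nat_lit 1) (nat_lit 7)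 (nat_lit 11) (C.cons (nat_lit 2186) (C.miq (nat_lit 1906750240) (nat_lit 3793651152015294649375983645)) (C.cons (nat_lit 2178) (C.node (nat_lit 1) (nat_lit 3) (nat_lit 11) (C.cons (nat_lit 2314) (C.node (nat_lit 3) (nat_lit 5) (nat_lit 11) C.nil) C.nil)) C.nil))) (C.cons (nat_lit 14) (C.node (nat_lit 1) (nat_lit 2) (nat_lit 10) (C.cons (nat_lit 1030) (C.node (nat_lit 1) (nat_lit 3) (nat_lit 10) (C.cons (nat_lit 1290) (C.node (nat_lit 1) (nat_lit 5) (nat_lit 10) (C.cons (nat_lit 1058) (C.node (nat_lit 1) (nat_lit 8) (nat_lit 11) C.nil) C.nil)) (C.cons (nat_lit 1034) (C.node (nat_lit 1) (nat_lit 5) (nat_lit 10) (C.cons (nat_lit 1314) (C.node (nat_lit 1) (nat_lit 8) (nat_lit 9) (C.cons (nat_lit 898) (C.miq (nat_lit 873925528) (nat_lit 1415659384923786330547293953)) C.nil)) C.nil)) C.nil))) C.nil)) C.nil))) (C.cons (nat_lit 518) (C.node (nat_lit 1) (nat_lit 2) (nat_lit 6) (C.cons (nat_lit 78) (C.node (nat_lit 1) (nat_lit 2) (nat_lit 10) (C.cons (nat_lit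 1030) (C.node (nat_lit 1) (nat_lit 3) (nat_lit 10) (C.cons (nat_lit 1290) (C.miq (nat_lit 1980959656) (nat_lit 94303464140168143236108033)) (C.cons (nat_lit 1034) (C.node (nat_lit 1) (nat_lit 4) (nat_lit 6) (C.cons (nat_lit 114) (C.miq (nat_lit 2705962576) (nat_lit 3116681617793770097361357025)) C.nil)) C.nil))) C.nil))
  (C.cons (nat_lit 70) (C.node (nat_lit 1) (nat_lit 2) (nat_lit 3) (C.cons (nat_lit 1038) (C.node (nat_lit 1) (nat_lit 7) (nat_lit 11) (C.cons (nat_lit 2186) (C.miq (nat_lit 1906750240) (nat_lit 3793651152015294649375983645)) (C.cons (nat_lit 2178) (C.node (nat_lit 1) (nat_lit 3) (nat_lit 7) (C.cons (nat_lit 202) (C.miq (nat_lit 2316503911) (nat_lit 1254872251411564914365040865)) (C.cons (nat_lit 170) (C.miq (nat_lit 1645677109) (nat_lit 162037989585296458953393193)) C.nil))) C.nil))) (C.cons (nat_lit 14) (C.node (nat_lit 1) (nat_lit 2) (nat_lit 10) C.nil) C.nil))) C.nil))) C.nil))) C.nil))))) C.nil))) (C.cons (nat_lit 2054) (C.node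 (nat_lit 2) (nat_lit 5) (nat_lit 11) C.nil) C.nil))) C.nil))))) C.nil))) C.nil))) (C.cons (nat_lit 2576) (C.node (nat_lit 6) (nat_lit 8) (nat_lit 11) (C.cons (nat_lit 2376) (C.node (nat_lit 6) (nat_lit 9) (nat_lit 11) (C.cons (nat_lit 2624) (C.node (nat_lit 1) (nat_lit 7) (nat_lit 11) (C.cons (nat_lit 2690) (C.miq (nat_lit 649660951) (nat_lit 3172233249126380124418213011)) (C.cons (nat_lit 2186) (C.miq (nat_lit 1668397066) (nat_lit 2642769728229268909144084225)) (C.cons (nat_lit 2178) (C.node (nat_lit 1) (nat_lit 3) (nat_lit 11) (C.cons (nat_lit 2090) (C.node (nat_lit 2) (nat_lit 5) (nat_lit 11) (C.cons (nat_lit 2596) (C.miq (nat_lit 1537512048) (nat_lit 3733173280324123043243950725)) C.nil)) C.nil)) C.nil)))) C.nil)) (C.cons (nat_lit 2368) (C.node (nat_lit 3) (nat_lit 6) (nat_lit 11) (C.cons (nat_lit 2632) (C.node (nat_lit 7) (nat_lit 9) (nat_lit 11) (C.cons (nat_lit 2690) (C.miq (nat_lit 649660951) (nat_lit 3181904655683297157815862419)) (C.cons (nat_lit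 2688) (C.node (nat_lit 1) (nat_lit 7) (nat_lit 11) (C.cons (nat_lit 2186) (C.node (nat_lit 3) (nat_lit 5) (nat_lit 11) (C.cons (nat_lit 2344) (C.node (nat_lit 1) (nat_lit 8) (nat_lit 11) C.nil) C.nil)) C.nil)) C.nil))) (C.cons (nat_lit 2120) (C.node (nat_lit 6) (nat_lit 9) (nat_lit 11) (C.cons (nat_lit 2624) (C.node (nat_lit 1) (nat_lit 7) (nat_lit 11) C.nil) C.nil)) C.nil))) C.nil))) C.nil))) C.nil))) C.nil))) C.nil)) (C.cons (nat_lit 3082) (C.miq (nat_lit 2443641778) (nat_lit 1415664033065882956360583197)) (C.cons (nat_lit 3074) (C.node (nat_lit 3) (nat_lit 10) (nat_lit 11) (C.cons (nat_lit 3144) (C.node (nat_lit 6) (nat_lit 7) (nat_lit 10) (C.cons (nat_lit 1728) (C.miq (nat_lit 915454578) (nat_lit 697588512690046877068233860)) (C.cons (nat_lit 1216) (C.node (nat_lit 3) (nat_lit 7) (nat_lit 10) (C.cons (nat_lit 1672) (C.node (nat_lit 3) (nat_lit 4) (nat_lit 10) (C.cons (nat_lit 1304) (C.node (nat_lit 3) (nat_lit 4) (nat_lit 7) (C.cons (nat_lit 216)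 (C.miq (nat_lit 2204869744) (nat_lit 3800933631179425541156570259)) (C.cons (nat_lit 184) (C.miq (nat_lit 1537503363) (nat_lit 3733166325810693573168333193)) (C.cons (nat_lit 152) (C.node (nat_lit 4) (nat_lit 6) (nat_lit 10) (C.cons (nat_lit 1616) (C.miq (nat_lit 2517083267) (nat_lit 2747919231395008366271595800)) (C.cons (nat_lit 1136) (C.miq (nat_lit 1984431523) (nat_lit 407415251420348500961395753)) (C.cons (nat_lit 1104) (C.node (nat_lit 4) (nat_lit 9) (nat_lit 10) (C.cons (nat_lit 1556) (C.miq (nat_lit 607623808) (nat_lit 183768623169331841641025281)) (C.cons (nat_lit 1552) (C.node (nat_lit 1) (nat_lit 3) (nat_lit 10) (C.cons (nat_lit 1038) (C.node (nat_lit 3) (nat_lit 7) (nat_lit 11) (C.cons (nat_lit 2186) (C.miq (nat_lit 1729760050) (nat_lit 1415672297699805339050706973)) (C.cons (nat_lit 2184) (C.node (nat_lit 1) (nat_lit 3) (nat_lit 11) (C.cons (nat_lit 2346) (C.miq (nat_lit 1662167936) (nat_lit 1254885163936225050673745665)) (C.cons (nat_lit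 2314) (C.miq (nat_lit 1662167936) (nat_lit 1254885163936224913234792193)) (C.cons (nat_lit 2090) (C.miq (nat_lit 1344386723) (nat_lit 317986044893558842441206856)) (C.cons (nat_lit 2058) (C.node (nat_lit 3) (nat_lit 8) (nat_lit 11) (C.cons (nat_lit 2344) (C.miq (nat_lit 1397209248) (nat_lit 183798654690486122490040065)) (C.cons (nat_lit 2312) (C.node (nat_lit 6) (nat_lit 8) (nat_lit 10) (C.cons (nat_lit 1378)
  (C.miq (nat_lit 1629726731) (nat_lit 1254922997711226473795096321)) (C.cons (nat_lit 1376) (C.miq (nat_lit 3062105507) (nat_lit 407446315737369658638468137)) (C.cons (nat_lit 1346) (C.miq (nat_lit 1629726731) (nat_lit 1254922997702219274540355329)) (C.cons (nat_lit 1344) (C.node (nat_lit 5) (nat_lit 6) (nat_lit 10) (C.cons (nat_lit 1634) (C.miq (nat_lit 982824528) (nat_lit 1876291186814309918674323681)) (C.cons (nat_lit 1632) (C.miq (nat_lit 982824528) (nat_lit 1876291186814309910084389089)) (C.cons (nat_lit 1122) (C.miq (nat_lit 1362848288)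 (nat_lit 2488011266532005765537662021)) (C.cons (nat_lit 1120) (C.node (nat_lit 1) (nat_lit 6) (nat_lit 10) (C.cons (nat_lit 1602) (C.node (nat_lit 2) (nat_lit 4) (nat_lit 10) (C.cons (nat_lit 1076) (C.miq (nat_lit 1511604784) (nat_lit 1936709511948932822088747037)) C.nil)) C.nil)) C.nil))))) C.nil))))) C.nil))) C.nil))))) C.nil))) (C.cons (nat_lit 1034) (C.node (nat_lit 2) (nat_lit 3) (nat_lit 10) (C.cons (nat_lit 1036) (C.node (nat_lit 2) (nat_lit 4) (nat_lit 10) (C.cons (nat_lit 1076) (C.node (nat_lit 2) (nat_lit 8) (nat_lit 10) C.nil) C.nil)) C.nil)) C.nil))) C.nil))) C.nil)))) C.nil)))) (C.cons (nat_lit 1048) (C.node (nat_lit 3) (nat_lit 7) (nat_lit 11) (C.cons (nat_lit 2186) (C.node (nat_lit 7) (nat_lit 9) (nat_lit 11) (C.cons (nat_lit 2688) (C.node (nat_lit 3) (nat_lit 9) (nat_lit 11) (C.cons (nat_lit 2600) (C.miq (nat_lit 1094256565) (nat_lit 632278552611492996126869729)) (C.cons (nat_lit 2568) (C.node (nat_lit 1) (nat_lit 3) (nat_lit 10) (C.cons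 (nat_lit 1290) (C.miq (nat_lit 657525160) (nat_lit 2642716693352829302768013057)) (C.cons (nat_lit 1038) (C.miq (nat_lit 1729760050) (nat_lit 1415672297699805339050706973)) (C.cons (nat_lit 1034) (C.node (nat_lit 2) (nat_lit 3) (nat_lit 10) (C.cons (nat_lit 1292) (C.node (nat_lit 3) (nat_lit 5) (nat_lit 11) (C.cons (nat_lit 2344) (C.miq (nat_lit 1653279285) (nat_lit 2790242721427501375828788265)) (C.cons (nat_lit 2088) (C.node (nat_lit 3) (nat_lit 8) (nat_lit 11) (C.cons (nat_lit 2312) (C.node (nat_lit 2) (nat_lit 3) (nat_lit 7) (C.cons (nat_lit 204) (C.miq (nat_lit 2586970983) (nat_lit 1561944058173187325317351649)) (C.cons (nat_lit 172) (C.miq (nat_lit 1537372291) (nat_lit 3873401499525061672918843785)) (C.cons (nat_lit 140) (C.node (nat_lit 6) (nat_lit 8) (nat_lit 10) (C.cons (nat_lit 1378) (C.miq (nat_lit 1480288800) (nat_lit 2795078424786180260872651845)) (C.cons (nat_lit 1376) (C.miq (nat_lit 1480288800) (nat_lit 2795078424785617310919230533))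 (C.cons (nat_lit 1346) (C.miq (nat_lit 380668466) (nat_lit 2747893239856622321885054220)) (C.cons (nat_lit 1344) (C.node (nat_lit 1) (nat_lit 8) (nat_lit 10) (C.cons (nat_lit 1314) (C.node (nat_lit 4) (nat_lit 8) (nat_lit 10) C.nil) C.nil)) C.nil))))) C.nil)))) C.nil)) C.nil))) (C.cons (nat_lit 1036) (C.node (nat_lit 3) (nat_lit 8) (nat_lit 10) (C.cons (nat_lit 1288) (C.node (nat_lit 3) (nat_lit 5) (nat_lit 11) (C.cons (nat_lit 2344) (C.node (nat_lit 5) (nat_lit 4) (nat_lit 11) (C.cons (nat_lit 2098) (C.miq (nat_lit 1476703089) (nat_lit 407446703138975707923941514)) (C.cons (nat_lit 2096) (C.node (nat_lit 9) (nat_lit 10) (nat_lit 4) (C.cons (nat_lit 1552) (C.node (nat_lit 8) (nat_lit 6) (nat_lit 11) (C.cons (nat_lit 2370) (C.node (nat_lit 8) (nat_lit 4) (nat_lit 11) C.nil) C.nil)) C.nil)) C.nil))) (C.cons (nat_lit 2088) (C.node (nat_lit 3) (nat_lit 8) (nat_lit 11) (C.cons (nat_lit 2312) (C.node (nat_lit 4) (nat_lit 6) (nat_lit 10) C.nil) C.nil)) C.nil)))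 C.nil)) C.nil))) C.nil)))) C.nil))) C.nil)) (C.cons (nat_lit 2184) (C.node (nat_lit 1) (nat_lit 7) (nat_lit 11) (C.cons (nat_lit 2690) (C.node (nat_lit 3) (nat_lit 9) (nat_lit 11) (C.cons (nat_lit 2600) (C.miq (nat_lit 423263056) (nat_lit 2021345572290149148330100961)) (C.cons (nat_lit 2568) (C.node (nat_lit 5) (nat_lit 9) (nat_lit 11) (C.cons (nat_lit 2596) (C.miq (nat_lit 1537512048) (nat_lit 3733173280324123043243950725)) (C.cons (nat_lit 2592) (C.node (nat_lit 2) (nat_lit 9) (nat_lit 11) (C.cons (nat_lit 2628)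
  (C.miq (nat_lit 459962656) (nat_lit 3800884378762883413758509701)) (C.cons (nat_lit 2564) (C.node (nat_lit 2) (nat_lit 5) (nat_lit 11) (C.cons (nat_lit 2086) (C.node (nat_lit 2) (nat_lit 6) (nat_lit 11) (C.cons (nat_lit 2116) (C.node (nat_lit 1) (nat_lit 3) (nat_lit 11) (C.cons (nat_lit 2314) (C.node (nat_lit 3) (nat_lit 5) (nat_lit 11) C.nil) C.nil)) C.nil)) (C.cons (nat_lit 2084) (C.node (nat_lit 1) (nat_lit 2) (nat_lit 11) (C.cons (nat_lit 2118) (C.node (nat_lit 6) (nat_lit 8) (nat_lit 11) C.nil) C.nil)) C.nil))) C.nil))) C.nil))) C.nil))) (C.cons (nat_lit 2178) (C.node (nat_lit 7) (nat_lit 9) (nat_lit 11) (C.cons (nat_lit 2688) (C.ref (nat_lit 305) (nat_lit 205163983024656)) C.nil)) C.nil))) C.nil))) C.nil))) (C.cons (nat_lit 1160) (C.node (nat_lit 7) (nat_lit 9) (nat_lit 10) (C.cons (nat_lit 1664) (C.node (nat_lit 6) (nat_lit 8) (nat_lit 11) (C.cons (nat_lit 2370) (C.node (nat_lit 2) (nat_lit 6) (nat_lit 11) (C.cons (nat_lit 2628) (C.node (nat_lit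 4) (nat_lit 6) (nat_lit 11) (C.cons (nat_lit 2128) (C.node (nat_lit 3) (nat_lit 9) (nat_lit 11) (C.cons (nat_lit 2696) (C.miq (nat_lit 1670425458) (nat_lit 632288366834692528963652740)) (C.cons (nat_lit 2600) (C.miq (nat_lit 2449847971) (nat_lit 44778217600053857562987592)) (C.cons (nat_lit 2568) (C.node (nat_lit 7) (nat_lit 9) (nat_lit 11) (C.cons (nat_lit 2690) (C.miq (nat_lit 459962656) (nat_lit 3800884378762883413758509701)) (C.cons (nat_lit 2688) (C.node (nat_lit 1) (nat_lit 2) (nat_lit 11) (C.cons (nat_lit 2086) (C.node (nat_lit 5) (nat_lit 9) (nat_lit 11) (C.cons (nat_lit 2592) (C.node (nat_lit 1) (nat_lit 3) (nat_lit 11) (C.cons (nat_lit 2058) (C.node (nat_lit 1) (nat_lit 7) (nat_lit 11) C.nil) C.nil)) C.nil)) (C.cons (nat_lit 2054) (C.node (nat_lit 2) (nat_lit 5) (nat_lit 11) (C.cons (nat_lit 2084) (C.node (nat_lit 1) (nat_lit 7) (nat_lit 11) (C.cons (nat_lit 2186) (C.node (nat_lit 3) (nat_lit 5) (nat_lit 11) C.nil) C.nil)) C.nil)) C.nil)))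 C.nil))) C.nil)))) C.nil)) (C.cons (nat_lit 2116) (C.node (nat_lit 3) (nat_lit 8) (nat_lit 11) (C.cons (nat_lit 2344) (C.node (nat_lit 4) (nat_lit 8) (nat_lit 11) (C.cons (nat_lit 2320) (C.node (nat_lit 3) (nat_lit 9) (nat_lit 11) (C.cons (nat_lit 2696) (C.miq (nat_lit 1670425458) (nat_lit 632288366834692528963652740)) (C.cons (nat_lit 2568) (C.node (nat_lit 6) (nat_lit 8) (nat_lit 10) (C.cons (nat_lit 1376) (C.miq (nat_lit 1756538160) (nat_lit 2790220954349156335255094313)) (C.cons (nat_lit 1344) (C.node (nat_lit 1) (nat_lit 8) (nat_lit 10) (C.cons (nat_lit 1314) (C.miq (nat_lit 414491952) (nat_lit 2804729503013118186140533801)) (C.cons (nat_lit 1290) (C.miq (nat_lit 414688080) (nat_lit 2940129194803201254279414825)) (C.cons (nat_lit 1282) (C.node (nat_lit 3) (nat_lit 8) (nat_lit 10) (C.cons (nat_lit 1304) (C.miq (nat_lit 1487385408) (nat_lit 1702209484126460365920995357)) (C.cons (nat_lit 1292) (C.miq (nat_lit 1487319840) (nat_lit 1624838231671124047195080733))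 (C.cons (nat_lit 1288) (C.node (nat_lit 1) (nat_lit 3) (nat_lit 8) (C.cons (nat_lit 282) (C.node (nat_lit 1) (nat_lit 3) (nat_lit 10) (C.cons (nat_lit 1038) (C.miq (nat_lit 1746535474) (nat_lit 1549863063132085444913530909)) (C.cons (nat_lit 1034) (C.node (nat_lit 1) (nat_lit 3) (nat_lit 11) (C.cons (nat_lit 2186) (C.miq (nat_lit 1904653120) (nat_lit 2865196122551256196156819485)) C.nil)) C.nil))) (C.cons (nat_lit 266) (C.node (nat_lit 2) (nat_lit 8) (nat_lit 10) (C.cons (nat_lit 1332) (C.miq (nat_lit 2055647808) (nat_lit 1624838231913192698915391517)) (C.cons (nat_lit 1316) (C.node (nat_lit 4) (nat_lit 8) (nat_lit 10) C.nil) (C.cons (nat_lit 1300) (C.miq (nat_lit 2055647808) (nat_lit 1624838231913192561476438045)) C.nil)))) C.nil))) C.nil)))) C.nil)))) C.nil))) C.nil))) C.nil)) (C.cons (nat_lit 2312) (C.node (nat_lit 4) (nat_lit 6) (nat_lit 11) (C.cons (nat_lit 2640) (C.node (nat_lit 4) (nat_lit 6) (nat_lit 10) (C.cons (nat_lit 1136) (C.miq (nat_lit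 910535568) (nat_lit 1373359377749625908667420417)) (C.cons (nat_lit 1104) (C.node (nat_lit 6) (nat_lit 8) (nat_lit 10)
  (C.cons (nat_lit 1376) (C.miq (nat_lit 2527415088) (nat_lit 1663492277156262537417263133)) (C.cons (nat_lit 1344) (C.node (nat_lit 3) (nat_lit 9) (nat_lit 11) (C.cons (nat_lit 2696) (C.miq (nat_lit 1670425458) (nat_lit 632288366834692528963652740)) (C.cons (nat_lit 2600) (C.miq (nat_lit 1678424403) (nat_lit 1415710132075194854473796136)) (C.cons (nat_lit 2568) (C.node (nat_lit 4) (nat_lit 6) (nat_lit 7) (C.cons (nat_lit 216) (C.miq (nat_lit 1399065273) (nat_lit 261138325959969606542036737)) (C.cons (nat_lit 212) (C.miq (nat_lit 2322991908) (nat_lit 1470060014285301063196346397)) (C.cons (nat_lit 208) (C.node (nat_lit 3) (nat_lit 4) (nat_lit 6) (C.cons (nat_lit 122) (C.miq (nat_lit 1350646454) (nat_lit 317949741361211812834577480)) (C.cons (nat_lit 120) (C.node (nat_lit 1) (nat_lit 4) (nat_lit 6) (C.cons (nat_lit 86) (C.miq (nat_lit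 2518201376) (nat_lit 2865225047173752570341951517)) (C.cons (nat_lit 82) (C.node (nat_lit 2) (nat_lit 4) (nat_lit 6) (C.cons (nat_lit 84) (C.node (nat_lit 3) (nat_lit 4) (nat_lit 10) (C.cons (nat_lit 1048) (C.miq (nat_lit 2587102053) (nat_lit 1266964608660715615081203937)) C.nil)) C.nil)) C.nil))) (C.cons (nat_lit 90) (C.miq (nat_lit 1399065273) (nat_lit 108813672688526330529058561)) (C.cons (nat_lit 88) (C.miq (nat_lit 1399065273) (nat_lit 106395821049297072179646209)) C.nil))))) C.nil)))) C.nil)))) C.nil))) C.nil))) (C.cons (nat_lit 2128) (C.node (nat_lit 6) (nat_lit 9) (nat_lit 11) (C.cons (nat_lit 2624) (C.node (nat_lit 4) (nat_lit 8) (nat_lit 11) (C.cons (nat_lit 2352) (C.node (nat_lit 6) (nat_lit 8) (nat_lit 10) (C.cons (nat_lit 1376) (C.miq (nat_lit 710608516) (nat_lit 3752544058278908112600564049)) (C.cons (nat_lit 1344) (C.node (nat_lit 1) (nat_lit 4) (nat_lit 11) (C.cons (nat_lit 2578) (C.node (nat_lit 1) (nat_lit 2) (nat_lit 11) (C.cons (nat_lit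 2054) (C.node (nat_lit 1) (nat_lit 5) (nat_lit 11) C.nil) C.nil)) (C.cons (nat_lit 2066) (C.node (nat_lit 4) (nat_lit 9) (nat_lit 11) C.nil) C.nil))) C.nil))) (C.cons (nat_lit 2320) (C.node (nat_lit 5) (nat_lit 8) (nat_lit 11) C.nil) C.nil))) C.nil)) C.nil))) C.nil))) C.nil))) (C.cons (nat_lit 2368) (C.node (nat_lit 3) (nat_lit 7) (nat_lit 11) (C.cons (nat_lit 2696) (C.miq (nat_lit 1670425458) (nat_lit 632288366834692528963652740)) (C.cons (nat_lit 2186) (C.node (nat_lit 7) (nat_lit 9) (nat_lit 11) (C.cons (nat_lit 2688) (C.node (nat_lit 3) (nat_lit 9) (nat_lit 11) (C.cons (nat_lit 2600) (C.miq (nat_lit 1094256565) (nat_lit 632278552611492996126869729)) (C.cons (nat_lit 2568) (C.node (nat_lit 3) (nat_lit 5) (nat_lit 11) (C.cons (nat_lit 2344) (C.node (nat_lit 4) (nat_lit 5) (nat_lit 11) (C.cons (nat_lit 2098) (C.miq (nat_lit 1476703089) (nat_lit 407446703138975707923941514)) (C.cons (nat_lit 2096) (C.node (nat_lit 1) (nat_lit 3) (nat_lit 10) (C.cons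 (nat_lit 1290) (C.miq (nat_lit 1394063520) (nat_lit 2642753771786641803712859905)) (C.cons (nat_lit 1038) (C.miq (nat_lit 1729760050) (nat_lit 1415672297699805339050706973)) (C.cons (nat_lit 1034) (C.node (nat_lit 2) (nat_lit 3) (nat_lit 10) (C.cons (nat_lit 1548) (C.miq (nat_lit 1788326688) (nat_lit 2011694494172986463951849501)) (C.cons (nat_lit 1292) (C.miq (nat_lit 683058000) (nat_lit 2862756503502390187706614825)) (C.cons (nat_lit 1036) (C.node (nat_lit 3) (nat_lit 8) (nat_lit 10) (C.cons (nat_lit 1304) (C.miq (nat_lit 1487385408) (nat_lit 1702209484126460365920995357)) (C.cons (nat_lit 1288) (C.node (nat_lit 3) (nat_lit 4) (nat_lit 10) C.nil) C.nil))) C.nil)))) C.nil)))) C.nil))) (C.cons (nat_lit 2088) (C.node (nat_lit 3) (nat_lit 8) (nat_lit 11) (C.cons (nat_lit 2312) (C.node (nat_lit 4) (nat_lit 6) (nat_lit 11) (C.cons (nat_lit 2642) (C.miq (nat_lit 996700480) (nat_lit 2862743591033178499973186707)) (C.cons (nat_lit 2640) (C.node (nat_lit 1)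 (nat_lit 6) (nat_lit 11) (C.cons (nat_lit 2118) (C.node (nat_lit 1) (nat_lit 9) (nat_lit 11) C.nil) C.nil)) (C.cons (nat_lit 2130) (C.miq (nat_lit 996700480) (nat_lit 2862743591033176300949931155)) C.nil)))) C.nil)) C.nil))) C.nil))) C.nil))
  (C.cons (nat_lit 2184) (C.node (nat_lit 1) (nat_lit 7) (nat_lit 11) (C.cons (nat_lit 2690) (C.node (nat_lit 3) (nat_lit 9) (nat_lit 11) (C.cons (nat_lit 2600) (C.miq (nat_lit 2710767541) (nat_lit 632287849770508310404401377)) (C.cons (nat_lit 2568) (C.node (nat_lit 5) (nat_lit 9) (nat_lit 11) (C.cons (nat_lit 2596) (C.miq (nat_lit 1537512048) (nat_lit 3733173280324123043243950725)) (C.cons (nat_lit 2592) (C.node (nat_lit 2) (nat_lit 9) (nat_lit 11) (C.cons (nat_lit 2628) (C.miq (nat_lit 459962656) (nat_lit 3800884378762883413758509701)) (C.cons (nat_lit 2564) (C.node (nat_lit 2) (nat_lit 5) (nat_lit 11) (C.cons (nat_lit 2086) (C.node (nat_lit 2) (nat_lit 6) (nat_lit 11) C.nil) C.nil)) C.nil))) C.nil))) C.nil)))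 (C.cons (nat_lit 2178) (C.node (nat_lit 7) (nat_lit 9) (nat_lit 11) (C.cons (nat_lit 2688) (C.node (nat_lit 3) (nat_lit 9) (nat_lit 11) (C.cons (nat_lit 2600) (C.node (nat_lit 3) (nat_lit 9) (nat_lit 10) (C.cons (nat_lit 1560) (C.miq (nat_lit 1504162624) (nat_lit 2011694494019864128195332125)) (C.cons (nat_lit 1548) (C.miq (nat_lit 1788326688) (nat_lit 2011694494172986463951849501)) (C.cons (nat_lit 1544) (C.node (nat_lit 4) (nat_lit 9) (nat_lit 11) (C.cons (nat_lit 2642) (C.miq (nat_lit 991582528) (nat_lit 3716257616009654870547300913)) (C.cons (nat_lit 2640) (C.miq (nat_lit 1678424403) (nat_lit 1415710132075194854473796136)) (C.cons (nat_lit 2578) (C.miq (nat_lit 991582528) (nat_lit 3716257616009654595669393969)) (C.cons (nat_lit 2576) (C.node (nat_lit 1) (nat_lit 3) (nat_lit 11) (C.cons (nat_lit 2314) (C.node (nat_lit 4) (nat_lit 8) (nat_lit 11) (C.cons (nat_lit 2352) (C.miq (nat_lit 2214704531) (nat_lit 1415694821196548882217765416)) C.nil)) C.nil))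 C.nil))))) C.nil)))) (C.cons (nat_lit 2568) (C.node (nat_lit 3) (nat_lit 9) (nat_lit 10) (C.cons (nat_lit 1560) (C.node (nat_lit 4) (nat_lit 6) (nat_lit 10) (C.cons (nat_lit 1136) (C.miq (nat_lit 878094603) (nat_lit 1373397728084689858590740225)) (C.cons (nat_lit 1104) (C.node (nat_lit 3) (nat_lit 4) (nat_lit 7) (C.cons (nat_lit 216) (C.miq (nat_lit 1446251433) (nat_lit 261138326299991378337730305)) (C.cons (nat_lit 184) (C.miq (nat_lit 1665514128) (nat_lit 222484281143335336920813313)) (C.cons (nat_lit 152) (C.node (nat_lit 6) (nat_lit 7) (nat_lit 4) (C.cons (nat_lit 212) (C.miq (nat_lit 2322991908) (nat_lit 1470060014285301063196346397)) (C.cons (nat_lit 720) (C.node (nat_lit 9) (nat_lit 7) (nat_lit 3) C.nil) C.nil))) C.nil)))) C.nil))) (C.cons (nat_lit 1548) (C.miq (nat_lit 1788326688) (nat_lit 2011694494172986463951849501)) (C.cons (nat_lit 1544) (C.node (nat_lit 3) (nat_lit 4) (nat_lit 10) (C.cons (nat_lit 1304) (C.node (nat_lit 1) (nat_lit 3)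 (nat_lit 10) (C.cons (nat_lit 1038) (C.node (nat_lit 6) (nat_lit 8) (nat_lit 10) (C.cons (nat_lit 1378) (C.miq (nat_lit 1629726731) (nat_lit 1254922997711226473795096321)) (C.cons (nat_lit 1376) (C.miq (nat_lit 3062105507) (nat_lit 407446315737369658638468137)) (C.cons (nat_lit 1346) (C.miq (nat_lit 1629726731) (nat_lit 1254922997702219274540355329)) C.nil)))) (C.cons (nat_lit 1034) (C.node (nat_lit 2) (nat_lit 3) (nat_lit 10) C.nil) C.nil))) (C.cons (nat_lit 1048) (C.node (nat_lit 4) (nat_lit 9) (nat_lit 10) (C.cons (nat_lit 1616) (C.node (nat_lit 1) (nat_lit 3) (nat_lit 10) C.nil) (C.cons (nat_lit 1556) (C.miq (nat_lit 1470696228) (nat_lit 2011662913101974681010047005)) (C.cons (nat_lit 1552) (C.node (nat_lit 4) (nat_lit 6) (nat_lit 10) C.nil) C.nil)))) C.nil))) C.nil)))) C.nil))) C.nil)) C.nil))) C.nil)))) C.nil))) C.nil)) C.nil))) C.nil))) (C.cons (nat_lit 3080) (C.node (nat_lit 6) (nat_lit 10) (nat_lit 11) (C.cons (nat_lit 3136) (C.ref (nat_lit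 261) (nat_lit 198064386771216)) C.nil)) C.nil))) C.nil))))) C.nil))) C.nil)))) C.nil)))) List.nil)

theorem ok12_306 : okL par12 (nat_lit 307) c12_306 (nat_lit 306) = true := by decide +kernel

noncomputable def c12_307 : List C :=
  (List.cons (C.node (nat_lit 2) (nat_lit 10) (nat_lit 11) (C.cons (nat_lit 3108) (C.node (nat_lit 2) (nat_lit 8) (nat_lit 11) (C.cons (nat_lit 2372) (C.miq (nat_lit 1093142454) (nat_lit 317953707441016882568890593)) (C.cons (nat_lit 2308) (C.node (nat_lit 2) (nat_lit 6) (nat_lit 11) (C.cons (nat_lit 2628) (C.node (nat_lit 4) (nat_lit 6) (nat_lit 11) (C.cons (nat_lit 2130) (C.miq (nat_lit 1761915505) (nat_lit 678246677108402977481361542)) (C.cons (nat_lit 2128) (C.node (nat_lit 1) (nat_lit 2) (nat_lit 10) (C.cons (nat_lit 1542) (C.miq (nat_lit 1645722016) (nat_lit 2637918068588123262731620097)) (C.cons (nat_lit 1038) (C.miq (nat_lit 1461324579) (nat_lit 1415671781190971258003392541)) (C.cons (nat_lit 1030) (C.node (nat_lit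 2) (nat_lit 9) (nat_lit 10) (C.cons (nat_lit 1556) (C.miq (nat_lit 2608080394) (nat_lit 2649994100468771844351263813)) (C.cons (nat_lit 1548) (C.miq (nat_lit 1614394786) (nat_lit 632316682341673963377921060)) (C.cons (nat_lit 1540) (C.node (nat_lit 2) (nat_lit 4) (nat_lit 10) (C.cons (nat_lit 1300) (C.node (nat_lit 2) (nat_lit 4) (nat_lit 9) (C.cons (nat_lit 534) (C.miq (nat_lit 1529415444) (nat_lit 3177067403210472815903245459)) (C.cons (nat_lit 532) (C.node (nat_lit 4) (nat_lit 5) (nat_lit 10) (C.cons (nat_lit 1136) (C.miq (nat_lit 610641931) (nat_lit 1373397063928718749029437185)) (C.cons (nat_lit 1072) (C.node (nat_lit 2) (nat_lit 4) (nat_lit 7) (C.cons (nat_lit 212) (C.miq (nat_lit 1380366976) (nat_lit 256334204082410737944825601)) (C.cons (nat_lit 180) (C.miq (nat_lit 1696861096) (nat_lit 217612864723192062472883969)) (C.cons (nat_lit 148) (C.node (nat_lit 7) (nat_lit 8) (nat_lit 10) (C.cons (nat_lit 1472) (C.miq (nat_lit 1518776896) (nat_lit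 1779580736796843498074605597)) (C.cons (nat_lit 1440) (C.miq (nat_lit 849873751) (nat_lit 1571610815654075770452576481)) (C.cons (nat_lit 1408) (C.node (nat_lit 1) (nat_lit 2) (nat_lit 9) (C.cons (nat_lit 550) (C.node (nat_lit 1) (nat_lit 2) (nat_lit 4) (C.cons (nat_lit 86) (C.miq (nat_lit 1380366976) (nat_lit 104009550810967461931847425)) (C.cons (nat_lit 22) (C.node (nat_lit 1) (nat_lit 9) (nat_lit 10) (C.cons (nat_lit 1602) (C.miq (nat_lit 1631754763) (nat_lit 26644846525875492778479361)) (C.cons (nat_lit 1538) (C.node (nat_lit 1) (nat_lit 9) (nat_lit 11) (C.cons (nat_lit 2578) (C.miq (nat_lit 1780031563) (nat_lit 1859376388918382558520150045)) (C.cons (nat_lit 2562) (C.node (nat_lit 4) (nat_lit 9) (nat_lit 11) (C.cons (nat_lit 2576) (C.node (nat_lit 2) (nat_lit 3) (nat_lit 9) (C.cons (nat_lit 780) (C.miq (nat_lit 337840777) (nat_lit 2510948575316348127197007617)) (C.cons (nat_lit 524) (C.node (nat_lit 2) (nat_lit 8) (nat_lit 9) (C.cons (nat_lit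 772) (C.node (nat_lit 2) (nat_lit 4) (nat_lit 5) (C.cons (nat_lit 116) (C.node (nat_lit 1) (nat_lit 2) (nat_lit 3) (C.cons (nat_lit 78) (C.miq (nat_lit 1637163780) (nat_lit 664911340632315890884479005)) (C.cons (nat_lit 14) (C.node (nat_lit 1) (nat_lit 2) (nat_lit 6) C.nil) C.nil))) (C.cons (nat_lit 52) (C.miq (nat_lit 1696861096) (nat_lit 62870359812519528110493441)) C.nil))) C.nil)) C.nil))) C.nil)) C.nil))) C.nil))) C.nil))) (C.cons (nat_lit 518) (C.node (nat_lit 2) (nat_lit 3) (nat_lit 10) (C.cons (nat_lit 1164) (C.node (nat_lit 7) (nat_lit 10) (nat_lit 11) (C.cons (nat_lit 3200) (C.node (nat_lit 5) (nat_lit 7) (nat_lit 10) (C.cons (nat_lit 1696) (C.miq (nat_lit 1168312690) (nat_lit 1287544311934935912076280453)) (C.cons (nat_lit 1184) (C.node (nat_lit 6) (nat_lit 7) (nat_lit 10) (C.cons (nat_lit 1728) (C.miq (nat_lit 1732418059) (nat_lit 178969499832784615857000193)) (C.cons (nat_lit 1216) (C.node (nat_lit 7) (nat_lit 9) (nat_lit 10) (C.cons (nat_lit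 1664) (C.node (nat_lit 2) (nat_lit 3) (nat_lit 9) (C.cons (nat_lit 812) (C.miq (nat_lit 1647819136) (nat_lit 1407231584220427627503619841)) (C.cons (nat_lit 780) (C.miq (nat_lit 1647819136) (nat_lit 1407231584220427490064666369)) (C.cons (nat_lit 556) (C.miq (nat_lit 1161431335) (nat_lit 1287527599184800234959798917)) (C.cons (nat_lit 524)
  (C.node (nat_lit 2) (nat_lit 5) (nat_lit 7) (C.cons (nat_lit 420) (C.node (nat_lit 2) (nat_lit 5) (nat_lit 9) (C.cons (nat_lit 548) (C.node (nat_lit 2) (nat_lit 6) (nat_lit 7) (C.cons (nat_lit 196) (C.node (nat_lit 2) (nat_lit 8) (nat_lit 9) C.nil) C.nil)) C.nil)) (C.cons (nat_lit 164) (C.node (nat_lit 2) (nat_lit 5) (nat_lit 9) (C.cons (nat_lit 804) (C.node (nat_lit 2) (nat_lit 3) (nat_lit 8) (C.cons (nat_lit 332) (C.miq (nat_lit 1654948720) (nat_lit 1571609782145225458923536777)) (C.cons (nat_lit 268) (C.node (nat_lit 2) (nat_lit 6) (nat_lit 7) C.nil) C.nil))) (C.cons (nat_lit 548) (C.node (nat_lit 2) (nat_lit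 8) (nat_lit 9) C.nil) C.nil))) C.nil))) C.nil))))) C.nil)) C.nil))) C.nil))) C.nil)) (C.cons (nat_lit 1036) (C.node (nat_lit 2) (nat_lit 7) (nat_lit 10) (C.cons (nat_lit 1156) (C.node (nat_lit 4) (nat_lit 9) (nat_lit 11) (C.cons (nat_lit 2578) (C.node (nat_lit 5) (nat_lit 9) (nat_lit 11) (C.cons (nat_lit 2600) (C.miq (nat_lit 975786091) (nat_lit 1861793724040896118650046689)) (C.cons (nat_lit 2592) (C.node (nat_lit 1) (nat_lit 9) (nat_lit 10) (C.cons (nat_lit 1634) (C.miq (nat_lit 848956261) (nat_lit 1861765408573602243629156577)) (C.cons (nat_lit 1602) (C.node (nat_lit 1) (nat_lit 5) (nat_lit 10) (C.cons (nat_lit 1314) (C.miq (nat_lit 1705511716) (nat_lit 1588534744166181546589685789)) (C.cons (nat_lit 1058) (C.node (nat_lit 1) (nat_lit 10) (nat_lit 11) (C.cons (nat_lit 3082) (C.miq (nat_lit 2443529008) (nat_lit 1279053866501358745016666141)) (C.cons (nat_lit 3074) (C.node (nat_lit 4) (nat_lit 9) (nat_lit 10) (C.cons (nat_lit 1560) (C.miq (nat_lit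 323094952) (nat_lit 2510943778980494294530658049)) (C.cons (nat_lit 1552) (C.node (nat_lit 5) (nat_lit 6) (nat_lit 10) (C.cons (nat_lit 1120) (C.miq (nat_lit 2254061746) (nat_lit 1354020898830547327903860765)) C.nil)) C.nil))) C.nil))) C.nil))) (C.cons (nat_lit 1570) (C.miq (nat_lit 1780031563) (nat_lit 1898062015146050692110747677)) (C.cons (nat_lit 1538) (C.miq (nat_lit 1780031563) (nat_lit 1859376388918382558520150045)) C.nil))))) C.nil))) (C.cons (nat_lit 2576) (C.node (nat_lit 1) (nat_lit 9) (nat_lit 11) (C.cons (nat_lit 2594) (C.node (nat_lit 1) (nat_lit 9) (nat_lit 10) (C.cons (nat_lit 1602) (C.miq (nat_lit 431269408) (nat_lit 3114214512915529267928695877)) (C.cons (nat_lit 1538) (C.node (nat_lit 2) (nat_lit 4) (nat_lit 5) (C.cons (nat_lit 118) (C.miq (nat_lit 2435495264) (nat_lit 1245264448877201764800334049)) (C.cons (nat_lit 116) (C.node (nat_lit 1) (nat_lit 2) (nat_lit 4) (C.cons (nat_lit 22) (C.node (nat_lit 1) (nat_lit 2) (nat_lit 5) (C.cons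 (nat_lit 46) (C.miq (nat_lit 2769924656) (nat_lit 3136024430899159622795069469)) C.nil)) C.nil)) (C.cons (nat_lit 54) (C.miq (nat_lit 1696861096) (nat_lit 65288211451748786459905793)) (C.cons (nat_lit 52) (C.miq (nat_lit 1696861096) (nat_lit 62870359812519528110493441)) C.nil))))) C.nil))) (C.cons (nat_lit 2562) (C.node (nat_lit 5) (nat_lit 9) (nat_lit 11) (C.cons (nat_lit 2600) (C.miq (nat_lit 975786091) (nat_lit 1861793724040896118650046689)) (C.cons (nat_lit 2592) (C.node (nat_lit 3) (nat_lit 9) (nat_lit 11) (C.cons (nat_lit 2696) (C.node (nat_lit 7) (nat_lit 10) (nat_lit 11) (C.cons (nat_lit 3200) (C.node (nat_lit 2) (nat_lit 3) (nat_lit 7) (C.cons (nat_lit 204) (C.miq (nat_lit 2469050208) (nat_lit 1252518003823600356840245473)) (C.cons (nat_lit 172) (C.miq (nat_lit 2317552471) (nat_lit 1252454399772335527164643553)) C.nil))) C.nil)) (C.cons (nat_lit 2568) (C.node (nat_lit 7) (nat_lit 9) (nat_lit 11) (C.cons (nat_lit 2688) (C.node (nat_lit 2) (nat_lit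 3) (nat_lit 7) (C.cons (nat_lit 204) (C.node (nat_lit 1) (nat_lit 2) (nat_lit 3) C.nil) (C.cons (nat_lit 172) (C.miq (nat_lit 2317552471) (nat_lit 1252454399772335527164643553)) C.nil))) C.nil)) C.nil))) C.nil))) C.nil))) C.nil))) C.nil)) C.nil))) C.nil))) C.nil)))) C.nil)))) C.nil))) C.nil))) (C.cons (nat_lit 1044) (C.node (nat_lit 4) (nat_lit 9) (nat_lit 11) (C.cons (nat_lit 2578) (C.node (nat_lit 5) (nat_lit 9) (nat_lit 11) (C.cons (nat_lit 2600)
  (C.miq (nat_lit 975786091) (nat_lit 1861793724040896118650046689)) (C.cons (nat_lit 2592) (C.node (nat_lit 1) (nat_lit 9) (nat_lit 10) (C.cons (nat_lit 1634) (C.miq (nat_lit 848956261) (nat_lit 1861765408573602243629156577)) (C.cons (nat_lit 1602) (C.node (nat_lit 1) (nat_lit 10) (nat_lit 11) (C.cons (nat_lit 3082) (C.miq (nat_lit 1494877363) (nat_lit 1936718808962992973114116125)) (C.cons (nat_lit 3074) (C.node (nat_lit 1) (nat_lit 2) (nat_lit 4) (C.cons (nat_lit 118) (C.miq (nat_lit 2317618006) (nat_lit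 1262124773311584432823863521)) (C.cons (nat_lit 86) (C.node (nat_lit 1) (nat_lit 2) (nat_lit 3) (C.cons (nat_lit 46) (C.miq (nat_lit 1369056011) (nat_lit 1936756495516167122614028317)) (C.cons (nat_lit 14) (C.node (nat_lit 4) (nat_lit 5) (nat_lit 11) (C.cons (nat_lit 2352) (C.miq (nat_lit 1415755786) (nat_lit 104024953629469791010230017)) (C.cons (nat_lit 2096) (C.node (nat_lit 4) (nat_lit 8) (nat_lit 11) (C.cons (nat_lit 2320) (C.node (nat_lit 1) (nat_lit 7) (nat_lit 9) (C.cons (nat_lit 930) (C.miq (nat_lit 873925528) (nat_lit 1415659384923786330549391105)) (C.cons (nat_lit 898) (C.miq (nat_lit 873925528) (nat_lit 1415659384923786330547293953)) (C.cons (nat_lit 674) (C.miq (nat_lit 563394384) (nat_lit 3116649077468136401158605025)) (C.cons (nat_lit 642) (C.node (nat_lit 1) (nat_lit 2) (nat_lit 5) (C.cons (nat_lit 550) (C.node (nat_lit 1) (nat_lit 8) (nat_lit 9) (C.cons (nat_lit 770) (C.node (nat_lit 1) (nat_lit 3) (nat_lit 10) (C.cons (nat_lit 1290)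 (C.node (nat_lit 1) (nat_lit 5) (nat_lit 10) (C.cons (nat_lit 1058) (C.node (nat_lit 1) (nat_lit 3) (nat_lit 4) C.nil) C.nil)) (C.cons (nat_lit 1034) (C.node (nat_lit 1) (nat_lit 5) (nat_lit 10) (C.cons (nat_lit 1314) (C.node (nat_lit 1) (nat_lit 4) (nat_lit 5) C.nil) C.nil)) C.nil))) C.nil)) (C.cons (nat_lit 38) (C.node (nat_lit 1) (nat_lit 2) (nat_lit 9) (C.cons (nat_lit 518) (C.node (nat_lit 1) (nat_lit 3) (nat_lit 10) (C.cons (nat_lit 1290) (C.node (nat_lit 1) (nat_lit 5) (nat_lit 10) C.nil) (C.cons (nat_lit 1034) (C.node (nat_lit 2) (nat_lit 4) (nat_lit 9) C.nil) C.nil))) C.nil)) C.nil))) C.nil))))) C.nil)) C.nil))) C.nil))) (C.cons (nat_lit 54) (C.miq (nat_lit 1648468153) (nat_lit 65311546250857128496598785)) (C.cons (nat_lit 22) (C.miq (nat_lit 1648468153) (nat_lit 26625920023188994906001153)) C.nil))))) C.nil))) (C.cons (nat_lit 1570) (C.miq (nat_lit 1780031563) (nat_lit 1898062015146050692110747677)) (C.cons (nat_lit 1538) (C.miq (nat_lit 1780031563)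 (nat_lit 1859376388918382558520150045)) C.nil))))) C.nil))) (C.cons (nat_lit 2576) (C.node (nat_lit 1) (nat_lit 9) (nat_lit 11) (C.cons (nat_lit 2594) (C.node (nat_lit 1) (nat_lit 2) (nat_lit 9) (C.cons (nat_lit 534) (C.miq (nat_lit 1905635904) (nat_lit 3135995506143808313730598941)) (C.cons (nat_lit 518) (C.node (nat_lit 1) (nat_lit 9) (nat_lit 10) (C.cons (nat_lit 1602) (C.miq (nat_lit 431269408) (nat_lit 3114214512915529267928695877)) (C.cons (nat_lit 1538) (C.node (nat_lit 2) (nat_lit 4) (nat_lit 6) (C.cons (nat_lit 212) (C.miq (nat_lit 2454369904) (nat_lit 1262189410361377126186420449)) (C.cons (nat_lit 118) (C.miq (nat_lit 2317618006) (nat_lit 1262124773311584432823863521)) (C.cons (nat_lit 116) (C.miq (nat_lit 2317618006) (nat_lit 1262124773311584432823732449)) (C.cons (nat_lit 86) (C.miq (nat_lit 1638474763) (nat_lit 1859376388634937257055291421)) (C.cons (nat_lit 84) (C.node (nat_lit 4) (nat_lit 5) (nat_lit 11) (C.cons (nat_lit 2352) (C.miq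 (nat_lit 1415755786) (nat_lit 101607101990240532660817665)) (C.cons (nat_lit 2096) (C.node (nat_lit 1) (nat_lit 2) (nat_lit 4) (C.cons (nat_lit 54) (C.node (nat_lit 1) (nat_lit 2) (nat_lit 3) (C.cons (nat_lit 78) (C.node (nat_lit 1) (nat_lit 3) (nat_lit 7) (C.cons (nat_lit 170) (C.miq (nat_lit 2299726679) (nat_lit 632275454310028552927054049)) (C.cons (nat_lit 138) (C.node (nat_lit 1) (nat_lit 6) (nat_lit 11) (C.cons (nat_lit 3138) (C.miq (nat_lit 1902250681) (nat_lit 94308112409489293795659521)) (C.cons (nat_lit 2370)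
  (C.miq (nat_lit 1683062939) (nat_lit 65325713137504143869611777)) (C.cons (nat_lit 2114) (C.node (nat_lit 6) (nat_lit 8) (nat_lit 11) (C.cons (nat_lit 2376) (C.miq (nat_lit 1919093176) (nat_lit 94303463681924690789011201)) (C.cons (nat_lit 2368) (C.node (nat_lit 1) (nat_lit 6) (nat_lit 7) (C.cons (nat_lit 962) (C.miq (nat_lit 1931903161) (nat_lit 94313959808368570882330369)) (C.cons (nat_lit 706) (C.miq (nat_lit 1116801895) (nat_lit 626245176282323040231098593)) (C.cons (nat_lit 450) (C.miq (nat_lit 1108872054) (nat_lit 317953707696033211342784737)) (C.cons (nat_lit 194) (C.node (nat_lit 1) (nat_lit 4) (nat_lit 11) (C.cons (nat_lit 2322) (C.node (nat_lit 1) (nat_lit 3) (nat_lit 4) C.nil) C.nil)) C.nil))))) C.nil))) C.nil)))) C.nil))) (C.cons (nat_lit 14) (C.node (nat_lit 1) (nat_lit 2) (nat_lit 6) (C.cons (nat_lit 70) (C.node (nat_lit 1) (nat_lit 4) (nat_lit 11) (C.cons (nat_lit 2322) (C.node (nat_lit 1) (nat_lit 7) (nat_lit 9) (C.cons (nat_lit 962)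 (C.miq (nat_lit 1098037392) (nat_lit 2637914452940150981670539009)) (C.cons (nat_lit 898) (C.miq (nat_lit 1098037392) (nat_lit 2637914452940150706792632065)) (C.cons (nat_lit 706) (C.miq (nat_lit 1116801895) (nat_lit 626245176282323040231098593)) (C.cons (nat_lit 642) (C.node (nat_lit 1) (nat_lit 3) (nat_lit 4) (C.cons (nat_lit 90) (C.node (nat_lit 1) (nat_lit 4) (nat_lit 9) C.nil) (C.cons (nat_lit 26) (C.node (nat_lit 1) (nat_lit 4) (nat_lit 6) (C.cons (nat_lit 82) (C.node (nat_lit 1) (nat_lit 4) (nat_lit 9) C.nil) C.nil)) C.nil))) C.nil))))) (C.cons (nat_lit 2066) (C.node (nat_lit 4) (nat_lit 8) (nat_lit 11) (C.cons (nat_lit 2320) (C.node (nat_lit 2) (nat_lit 4) (nat_lit 7) (C.cons (nat_lit 404) (C.node (nat_lit 2) (nat_lit 4) (nat_lit 9) C.nil) C.nil)) C.nil)) C.nil))) C.nil)) C.nil))) (C.cons (nat_lit 22) (C.node (nat_lit 1) (nat_lit 2) (nat_lit 5) (C.cons (nat_lit 110) (C.miq (nat_lit 982667446) (nat_lit 1861747791648164384436652257)) (C.cons (nat_lit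 102) (C.miq (nat_lit 2435495264) (nat_lit 1245264448877201696080857313)) (C.cons (nat_lit 46) (C.miq (nat_lit 2769924656) (nat_lit 3136024430899159622795069469)) (C.cons (nat_lit 38) (C.node (nat_lit 1) (nat_lit 2) (nat_lit 3) (C.cons (nat_lit 78) (C.node (nat_lit 1) (nat_lit 3) (nat_lit 7) (C.cons (nat_lit 170) (C.miq (nat_lit 2299726679) (nat_lit 632275454310028552927054049)) (C.cons (nat_lit 138) (C.node (nat_lit 1) (nat_lit 6) (nat_lit 7) (C.cons (nat_lit 962) (C.miq (nat_lit 1931903161) (nat_lit 94313959808368570882330369)) (C.cons (nat_lit 706) (C.miq (nat_lit 1116801895) (nat_lit 626245176282323040231098593)) (C.cons (nat_lit 450) (C.miq (nat_lit 1108872054) (nat_lit 317953707696033211342784737)) (C.cons (nat_lit 194) (C.node (nat_lit 2) (nat_lit 4) (nat_lit 9) (C.cons (nat_lit 788) (C.node (nat_lit 2) (nat_lit 3) (nat_lit 9) C.nil) C.nil)) C.nil))))) C.nil))) (C.cons (nat_lit 14) (C.node (nat_lit 1) (nat_lit 2) (nat_lit 6) (C.cons (nat_lit 70)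 (C.node (nat_lit 2) (nat_lit 4) (nat_lit 9) C.nil) C.nil)) C.nil))) C.nil))))) C.nil))) C.nil))) C.nil)))))) C.nil))) C.nil))) (C.cons (nat_lit 2562) (C.node (nat_lit 5) (nat_lit 9) (nat_lit 11) (C.cons (nat_lit 2600) (C.miq (nat_lit 975786091) (nat_lit 1861793724040896118650046689)) (C.cons (nat_lit 2592) (C.node (nat_lit 3) (nat_lit 9) (nat_lit 11) (C.cons (nat_lit 2696) (C.node (nat_lit 7) (nat_lit 10) (nat_lit 11) (C.cons (nat_lit 3200) (C.node (nat_lit 6) (nat_lit 10) (nat_lit 11) (C.cons (nat_lit 3146) (C.miq (nat_lit 1651620106) (nat_lit 2637934172595695758584516353)) (C.cons (nat_lit 3144) (C.miq (nat_lit 975812103) (nat_lit 1861795495513513671218497761)) (C.cons (nat_lit 3138) (C.miq (nat_lit 1651620106) (nat_lit 2637934025021743168908103425)) (C.cons (nat_lit 3136) (C.node (nat_lit 1) (nat_lit 10) (nat_lit 11) (C.cons (nat_lit 3082) (C.node (nat_lit 1) (nat_lit 6) (nat_lit 11) (C.cons (nat_lit 2114) (C.node (nat_lit 3) (nat_lit 5) (nat_lit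 11) C.nil) C.nil)) (C.cons (nat_lit 3074) (C.node (nat_lit 3) (nat_lit 10) (nat_lit 11) C.nil) C.nil))) C.nil))))) C.nil))
  (C.cons (nat_lit 2568) (C.node (nat_lit 7) (nat_lit 9) (nat_lit 11) (C.cons (nat_lit 2688) (C.node (nat_lit 3) (nat_lit 7) (nat_lit 11) (C.cons (nat_lit 3208) (C.node (nat_lit 1) (nat_lit 10) (nat_lit 11) (C.cons (nat_lit 3138) (C.miq (nat_lit 1651620106) (nat_lit 2637934025021743168908103425)) (C.cons (nat_lit 3074) (C.node (nat_lit 6) (nat_lit 10) (nat_lit 11) C.nil) C.nil))) (C.cons (nat_lit 2184) (C.node (nat_lit 7) (nat_lit 10) (nat_lit 11) C.nil) C.nil))) C.nil)) C.nil))) C.nil))) C.nil))) C.nil))) C.nil))) C.nil)))) C.nil)))) C.nil))) (C.cons (nat_lit 2116) (C.node (nat_lit 2) (nat_lit 9) (nat_lit 11) (C.cons (nat_lit 2564) (C.node (nat_lit 7) (nat_lit 9) (nat_lit 11) (C.cons (nat_lit 2696) (C.node (nat_lit 7) (nat_lit 10) (nat_lit 11) (C.cons (nat_lit 3200) (C.node (nat_lit 9) (nat_lit 5) (nat_lit 11) (C.cons (nat_lit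 2594) (C.ref (nat_lit 286) (nat_lit 198064386771216)) (C.cons (nat_lit 2592) (C.ref (nat_lit 287) (nat_lit 198064386771216)) C.nil))) C.nil)) (C.cons (nat_lit 2688) (C.node (nat_lit 3) (nat_lit 7) (nat_lit 11) (C.cons (nat_lit 3208) (C.node (nat_lit 5) (nat_lit 7) (nat_lit 10) (C.cons (nat_lit 1696) (C.miq (nat_lit 2545179184) (nat_lit 2649975745696087840906871849)) (C.cons (nat_lit 1440) (C.miq (nat_lit 629193331) (nat_lit 349417876630899338624175240)) (C.cons (nat_lit 1184) (C.node (nat_lit 1) (nat_lit 10) (nat_lit 11) (C.cons (nat_lit 3138) (C.node (nat_lit 6) (nat_lit 8) (nat_lit 11) (C.cons (nat_lit 2376) (C.miq (nat_lit 1805943664) (nat_lit 3733169148191526054607913353)) (C.cons (nat_lit 2368) (C.node (nat_lit 1) (nat_lit 2) (nat_lit 10) (C.cons (nat_lit 1542) (C.miq (nat_lit 1629993616) (nat_lit 2637918068731675500819582721)) (C.cons (nat_lit 1038) (C.miq (nat_lit 1461324579) (nat_lit 1415671781190971258003392541)) (C.cons (nat_lit 1030) (C.node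 (nat_lit 1) (nat_lit 3) (nat_lit 10) (C.cons (nat_lit 1290) (C.miq (nat_lit 369666931) (nat_lit 407431798393263356602027144)) (C.cons (nat_lit 1034) (C.node (nat_lit 1) (nat_lit 8) (nat_lit 10) (C.cons (nat_lit 1314) (C.node (nat_lit 1) (nat_lit 9) (nat_lit 10) (C.cons (nat_lit 1538) (C.node (nat_lit 4) (nat_lit 5) (nat_lit 11) (C.cons (nat_lit 2352) (C.miq (nat_lit 1750729906) (nat_lit 1588548689359762469222090781)) (C.cons (nat_lit 2098) (C.miq (nat_lit 2461337364) (nat_lit 3757351796167253557779760275)) (C.cons (nat_lit 2096) (C.node (nat_lit 4) (nat_lit 8) (nat_lit 10) (C.cons (nat_lit 1304) (C.miq (nat_lit 946578439) (nat_lit 2862795518369475163129447571)) (C.cons (nat_lit 1300) (C.miq (nat_lit 1705511716) (nat_lit 1588534744166181546589685789)) (C.cons (nat_lit 1296) (C.node (nat_lit 2) (nat_lit 4) (nat_lit 10) (C.cons (nat_lit 1556) (C.node (nat_lit 2) (nat_lit 3) (nat_lit 10) (C.cons (nat_lit 1292) (C.miq (nat_lit 1973947171) (nat_lit 1588535777183849674324051997))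 (C.cons (nat_lit 1036) (C.node (nat_lit 4) (nat_lit 5) (nat_lit 10) (C.cons (nat_lit 1136) (C.miq (nat_lit 1967720098) (nat_lit 678219283593532010919101509)) (C.cons (nat_lit 1072) (C.node (nat_lit 5) (nat_lit 6) (nat_lit 10) (C.cons (nat_lit 1632) (C.miq (nat_lit 3046377122) (nat_lit 678245699331047693300794437)) (C.cons (nat_lit 1120) (C.node (nat_lit 5) (nat_lit 9) (nat_lit 10) C.nil) C.nil))) C.nil))) C.nil))) (C.cons (nat_lit 1044) (C.node (nat_lit 2) (nat_lit 7) (nat_lit 10) (C.cons (nat_lit 1412) (C.node (nat_lit 3) (nat_lit 2) (nat_lit 10) (C.cons (nat_lit 1548) (C.node (nat_lit 6) (nat_lit 7) (nat_lit 10) (C.cons (nat_lit 1728) (C.miq (nat_lit 1782282528) (nat_lit 3878275959259405342769742469)) (C.cons (nat_lit 1216) (C.node (nat_lit 7) (nat_lit 9) (nat_lit 10) (C.cons (nat_lit 1664) (C.node (nat_lit 3) (nat_lit 4) (nat_lit 10) C.nil) C.nil)) C.nil))) (C.cons (nat_lit 1036) (C.node (nat_lit 2) (nat_lit 9) (nat_lit 10) (C.cons (nat_lit 1540)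 (C.node (nat_lit 3) (nat_lit 8) (nat_lit 10) (C.cons (nat_lit 1352) (C.node (nat_lit 3) (nat_lit 4) (nat_lit 10) C.nil) C.nil)) C.nil)) C.nil))) (C.cons (nat_lit 1156) (C.node (nat_lit 2) (nat_lit 8) (nat_lit 10) (C.cons (nat_lit 1292)
  (C.miq (nat_lit 1973947171) (nat_lit 1588535777183849674324051997)) (C.cons (nat_lit 1284) (C.node (nat_lit 7) (nat_lit 8) (nat_lit 10) (C.cons (nat_lit 1472) (C.miq (nat_lit 981776224) (nat_lit 1566806177010978552659642593)) C.nil)) C.nil))) C.nil))) C.nil))) C.nil)))) C.nil)))) C.nil)) (C.cons (nat_lit 1282) (C.node (nat_lit 1) (nat_lit 5) (nat_lit 10) (C.cons (nat_lit 1570) (C.node (nat_lit 1) (nat_lit 2) (nat_lit 3) (C.cons (nat_lit 110) (C.miq (nat_lit 2602633811) (nat_lit 2637885787127430143615566889)) (C.cons (nat_lit 78) (C.miq (nat_lit 1362274571) (nat_lit 94353546852440124753252097)) (C.cons (nat_lit 46) (C.miq (nat_lit 2602633811) (nat_lit 2637885787127430143611372585)) (C.cons (nat_lit 14) (C.miq (nat_lit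 1362274571) (nat_lit 16982294397103857572056833)) C.nil))))) (C.cons (nat_lit 1058) (C.node (nat_lit 1) (nat_lit 9) (nat_lit 10) (C.cons (nat_lit 1538) (C.node (nat_lit 2) (nat_lit 7) (nat_lit 10) (C.cons (nat_lit 1412) (C.node (nat_lit 2) (nat_lit 3) (nat_lit 10) (C.cons (nat_lit 1548) (C.node (nat_lit 2) (nat_lit 4) (nat_lit 10) (C.cons (nat_lit 1044) (C.node (nat_lit 6) (nat_lit 7) (nat_lit 10) (C.cons (nat_lit 1728) (C.miq (nat_lit 1782282528) (nat_lit 3878275959259405342769742469)) (C.cons (nat_lit 1216) (C.node (nat_lit 7) (nat_lit 9) (nat_lit 10) (C.cons (nat_lit 1664) (C.node (nat_lit 5) (nat_lit 9) (nat_lit 10) (C.cons (nat_lit 1632) (C.miq (nat_lit 1764448816) (nat_lit 3099727731400562556494742569)) C.nil)) C.nil)) C.nil))) C.nil)) (C.cons (nat_lit 1036) (C.node (nat_lit 2) (nat_lit 4) (nat_lit 10) (C.cons (nat_lit 1556) (C.node (nat_lit 5) (nat_lit 9) (nat_lit 10) (C.cons (nat_lit 1632) (C.miq (nat_lit 3046377122) (nat_lit 678245699331047693300794437))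 (C.cons (nat_lit 1568) (C.node (nat_lit 6) (nat_lit 7) (nat_lit 10) (C.cons (nat_lit 1728) (C.miq (nat_lit 1764457024) (nat_lit 3099727731427584188618704019)) (C.cons (nat_lit 1216) (C.node (nat_lit 7) (nat_lit 9) (nat_lit 10) C.nil) C.nil))) C.nil))) (C.cons (nat_lit 1044) (C.node (nat_lit 2) (nat_lit 9) (nat_lit 10) (C.cons (nat_lit 1540) (C.node (nat_lit 3) (nat_lit 6) (nat_lit 11) (C.cons (nat_lit 2632) (C.node (nat_lit 4) (nat_lit 6) (nat_lit 11) C.nil) C.nil)) C.nil)) C.nil))) C.nil))) (C.cons (nat_lit 1156) (C.node (nat_lit 7) (nat_lit 8) (nat_lit 10) (C.cons (nat_lit 1472) (C.miq (nat_lit 1790215984) (nat_lit 3733169147937072675720855945)) (C.cons (nat_lit 1408) (C.node (nat_lit 3) (nat_lit 6) (nat_lit 11) (C.cons (nat_lit 2632) (C.node (nat_lit 4) (nat_lit 6) (nat_lit 11) (C.cons (nat_lit 2128) (C.node (nat_lit 1) (nat_lit 2) (nat_lit 3) (C.cons (nat_lit 110) (C.miq (nat_lit 2589002531) (nat_lit 1279053165880586951245826077)) (C.cons (nat_lit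 78) (C.miq (nat_lit 2338457905) (nat_lit 2558091886879403409195008523)) (C.cons (nat_lit 46) (C.miq (nat_lit 2589002531) (nat_lit 1279053165880586951241631773)) (C.cons (nat_lit 14) (C.node (nat_lit 1) (nat_lit 6) (nat_lit 7) (C.cons (nat_lit 962) (C.miq (nat_lit 1629722635) (nat_lit 16973513575786869293911809)) (C.cons (nat_lit 706) (C.miq (nat_lit 1133579111) (nat_lit 632289805380396203284498657)) (C.cons (nat_lit 450) (C.miq (nat_lit 1108872054) (nat_lit 317953707696033211342784737)) (C.cons (nat_lit 202) (C.miq (nat_lit 2316503911) (nat_lit 1250036548133106397666216161)) (C.cons (nat_lit 194) (C.node (nat_lit 4) (nat_lit 9) (nat_lit 11) (C.cons (nat_lit 2576) (C.node (nat_lit 1) (nat_lit 9) (nat_lit 11) (C.cons (nat_lit 2562) (C.node (nat_lit 5) (nat_lit 9) (nat_lit 11) C.nil) C.nil)) C.nil)) C.nil)))))) C.nil))))) C.nil)) (C.cons (nat_lit 2120) (C.node (nat_lit 3) (nat_lit 9) (nat_lit 11) (C.cons (nat_lit 2600) (C.miq (nat_lit 1203309109) (nat_lit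 3249602952077169548822316073)) (C.cons (nat_lit 2568) (C.node (nat_lit 4) (nat_lit 6) (nat_lit 11) (C.cons (nat_lit 2640) (C.node (nat_lit 1) (nat_lit 9) (nat_lit 11) (C.cons (nat_lit 2562) (C.node (nat_lit 5) (nat_lit 9) (nat_lit 11) C.nil) C.nil)) (C.cons (nat_lit 2128)
  (C.node (nat_lit 6) (nat_lit 9) (nat_lit 11) C.nil) C.nil))) C.nil))) C.nil))) C.nil))) C.nil))) C.nil)) C.nil))) C.nil))) C.nil))) C.nil)))) C.nil))) (C.cons (nat_lit 3074) (C.node (nat_lit 6) (nat_lit 10) (nat_lit 11) (C.cons (nat_lit 3136) (C.node (nat_lit 2) (nat_lit 7) (nat_lit 10) (C.cons (nat_lit 1412) (C.node (nat_lit 1) (nat_lit 2) (nat_lit 10) (C.cons (nat_lit 1542) (C.miq (nat_lit 824641960) (nat_lit 2637883388116759862814445313)) (C.cons (nat_lit 1038) (C.miq (nat_lit 1461324579) (nat_lit 1415671781190971258003392541)) (C.cons (nat_lit 1030) (C.node (nat_lit 2) (nat_lit 3) (nat_lit 10) (C.cons (nat_lit 1548) (C.node (nat_lit 2) (nat_lit 4) (nat_lit 10) (C.cons (nat_lit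 1044) (C.node (nat_lit 6) (nat_lit 7) (nat_lit 10) (C.cons (nat_lit 1728) (C.miq (nat_lit 1782282528) (nat_lit 3878275959259405342769742469)) (C.cons (nat_lit 1216) (C.node (nat_lit 7) (nat_lit 9) (nat_lit 10) (C.cons (nat_lit 1664) (C.node (nat_lit 7) (nat_lit 2) (nat_lit 3) (C.cons (nat_lit 204) (C.miq (nat_lit 1672180368) (nat_lit 3878275958830437478378308229)) (C.cons (nat_lit 172) (C.miq (nat_lit 2320960291) (nat_lit 1431375421075300645021157405)) (C.cons (nat_lit 140) (C.node (nat_lit 9) (nat_lit 10) (nat_lit 5) (C.cons (nat_lit 1634) (C.miq (nat_lit 1797869626) (nat_lit 3099715944111527188165821481)) (C.cons (nat_lit 1632) (C.miq (nat_lit 1797869626) (nat_lit 3099715907218039040746718249)) (C.cons (nat_lit 1570) (C.miq (nat_lit 280335146) (nat_lit 2747917349519468171773609484)) (C.cons (nat_lit 1568) (C.node (nat_lit 1) (nat_lit 9) (nat_lit 10) (C.cons (nat_lit 1602) (C.node (nat_lit 9) (nat_lit 10) (nat_lit 4) (C.cons (nat_lit 1552) (C.node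 (nat_lit 1) (nat_lit 9) (nat_lit 11) C.nil) C.nil)) (C.cons (nat_lit 1538) (C.node (nat_lit 9) (nat_lit 5) (nat_lit 11) C.nil) C.nil))) C.nil))))) C.nil)))) C.nil)) C.nil))) C.nil)) (C.cons (nat_lit 1036) (C.node (nat_lit 2) (nat_lit 4) (nat_lit 10) (C.cons (nat_lit 1556) (C.node (nat_lit 6) (nat_lit 7) (nat_lit 10) (C.cons (nat_lit 1728) (C.miq (nat_lit 1764457024) (nat_lit 3099727731427584188618704019)) (C.cons (nat_lit 1216) (C.node (nat_lit 7) (nat_lit 9) (nat_lit 10) (C.cons (nat_lit 1664) (C.node (nat_lit 2) (nat_lit 4) (nat_lit 7) (C.cons (nat_lit 212) (C.miq (nat_lit 2456527984) (nat_lit 2558157888686518426509837459)) (C.cons (nat_lit 180) (C.miq (nat_lit 2455479408) (nat_lit 3757412301744230430379410579)) (C.cons (nat_lit 148) (C.node (nat_lit 2) (nat_lit 5) (nat_lit 7) (C.cons (nat_lit 172) (C.miq (nat_lit 2317552471) (nat_lit 1252454399772335527164643553)) (C.cons (nat_lit 164) (C.node (nat_lit 4) (nat_lit 5) (nat_lit 10) (C.cons (nat_lit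 1328) (C.miq (nat_lit 2231870610) (nat_lit 2747914435160485370584696340)) (C.cons (nat_lit 1136) (C.miq (nat_lit 1967720098) (nat_lit 678219283593532010919101509)) (C.cons (nat_lit 1072) (C.node (nat_lit 4) (nat_lit 8) (nat_lit 10) (C.cons (nat_lit 1304) (C.miq (nat_lit 1916996008) (nat_lit 2510946177091563806751461121)) (C.cons (nat_lit 1296) (C.node (nat_lit 2) (nat_lit 3) (nat_lit 7) C.nil) C.nil))) C.nil)))) C.nil))) C.nil)))) C.nil)) C.nil))) (C.cons (nat_lit 1044) (C.node (nat_lit 2) (nat_lit 9) (nat_lit 10) (C.cons (nat_lit 1540) (C.node (nat_lit 6) (nat_lit 7) (nat_lit 10) (C.cons (nat_lit 1728) (C.node (nat_lit 3) (nat_lit 9) (nat_lit 10) (C.cons (nat_lit 1560) (C.miq (nat_lit 1470696244) (nat_lit 2089034165557310965371373597)) (C.cons (nat_lit 1544) (C.node (nat_lit 4) (nat_lit 9) (nat_lit 10) (C.cons (nat_lit 1552) (C.node (nat_lit 3) (nat_lit 9) (nat_lit 11) C.nil) C.nil)) C.nil))) (C.cons (nat_lit 1216) (C.node (nat_lit 7) (nat_lit 9) (nat_lit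 10) (C.cons (nat_lit 1664) (C.node (nat_lit 8) (nat_lit 10) (nat_lit 4) (C.cons (nat_lit 1304) (C.miq (nat_lit 1739066164) (nat_lit 1707009474488415635207882781)) (C.cons (nat_lit 1328) (C.node (nat_lit 8) (nat_lit 4) (nat_lit 11) C.nil) (C.cons (nat_lit 1296) (C.node (nat_lit 10) (nat_lit 5) (nat_lit 4) (C.cons (nat_lit 1072) (C.node (nat_lit 1) (nat_lit 10) (nat_lit 3) (C.cons (nat_lit 1354)
  (C.miq (nat_lit 438909040) (nat_lit 1861755410234802662145327497)) C.nil)) C.nil)) C.nil)))) C.nil)) C.nil))) C.nil)) C.nil))) C.nil))) C.nil)))) (C.cons (nat_lit 1156) (C.node (nat_lit 7) (nat_lit 8) (nat_lit 10) (C.cons (nat_lit 1472) (C.miq (nat_lit 1790215984) (nat_lit 3733169147937072675720855945)) (C.cons (nat_lit 1408) (C.node (nat_lit 6) (nat_lit 7) (nat_lit 10) (C.cons (nat_lit 1728) (C.node (nat_lit 2) (nat_lit 3) (nat_lit 7) (C.cons (nat_lit 204) (C.miq (nat_lit 1000743063) (nat_lit 3791195134031908152337760901)) (C.cons (nat_lit 172) (C.miq (nat_lit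 2320960291) (nat_lit 1431375421075300645021157405)) (C.cons (nat_lit 140) (C.node (nat_lit 3) (nat_lit 9) (nat_lit 10) (C.cons (nat_lit 1560) (C.miq (nat_lit 1470696244) (nat_lit 2089034165557310965371373597)) (C.cons (nat_lit 1548) (C.miq (nat_lit 1782282528) (nat_lit 3878275959259405342769742469)) (C.cons (nat_lit 1544) (C.node (nat_lit 4) (nat_lit 9) (nat_lit 10) (C.cons (nat_lit 1556) (C.miq (nat_lit 1764457024) (nat_lit 3099727731427584188618704019)) (C.cons (nat_lit 1552) (C.node (nat_lit 2) (nat_lit 3) (nat_lit 10) (C.cons (nat_lit 1292) (C.miq (nat_lit 1379383936) (nat_lit 169291545070157403009912577)) (C.cons (nat_lit 1038) (C.miq (nat_lit 1461324579) (nat_lit 1415671781190971258003392541)) (C.cons (nat_lit 1036) (C.node (nat_lit 3) (nat_lit 9) (nat_lit 11) (C.cons (nat_lit 2632) (C.miq (nat_lit 967095920) (nat_lit 1876291186670195134365370593)) (C.cons (nat_lit 2600) (C.miq (nat_lit 1245251509) (nat_lit 1866591814438033772958451937)) (C.cons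 (nat_lit 2568) (C.node (nat_lit 4) (nat_lit 6) (nat_lit 7) (C.cons (nat_lit 216) (C.miq (nat_lit 2322991924) (nat_lit 2089030033927991217826039837)) (C.cons (nat_lit 212) (C.miq (nat_lit 2519443264) (nat_lit 2558157888734932122491225235)) (C.cons (nat_lit 208) (C.node (nat_lit 1) (nat_lit 2) (nat_lit 10) (C.cons (nat_lit 1542) (C.node (nat_lit 5) (nat_lit 9) (nat_lit 10) C.nil) (C.cons (nat_lit 1030) (C.node (nat_lit 2) (nat_lit 9) (nat_lit 10) C.nil) C.nil))) C.nil)))) C.nil)))) C.nil)))) C.nil))) C.nil)))) C.nil)))) (C.cons (nat_lit 1216) (C.node (nat_lit 7) (nat_lit 9) (nat_lit 10) (C.cons (nat_lit 1664) (C.node (nat_lit 1) (nat_lit 2) (nat_lit 10) (C.cons (nat_lit 1542) (C.node (nat_lit 2) (nat_lit 3) (nat_lit 10) (C.cons (nat_lit 1292) (C.miq (nat_lit 1518842416) (nat_lit 1702209484341507196537341981)) (C.cons (nat_lit 1036) (C.node (nat_lit 2) (nat_lit 4) (nat_lit 10) (C.cons (nat_lit 1300) (C.node (nat_lit 2) (nat_lit 4) (nat_lit 9) (C.cons (nat_lit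 596) (C.miq (nat_lit 1380366976) (nat_lit 720561718814428341031997185)) (C.cons (nat_lit 532) (C.node (nat_lit 4) (nat_lit 5) (nat_lit 10) (C.cons (nat_lit 1136) (C.miq (nat_lit 610641931) (nat_lit 1373397063928718749029437185)) (C.cons (nat_lit 1072) (C.node (nat_lit 3) (nat_lit 9) (nat_lit 11) C.nil) C.nil))) C.nil))) (C.cons (nat_lit 1044) (C.node (nat_lit 2) (nat_lit 8) (nat_lit 10) (C.cons (nat_lit 1284) (C.node (nat_lit 5) (nat_lit 9) (nat_lit 10) (C.cons (nat_lit 1568) (C.node (nat_lit 4) (nat_lit 5) (nat_lit 10) C.nil) C.nil)) C.nil)) C.nil))) C.nil))) (C.cons (nat_lit 1038) (C.miq (nat_lit 1461324579) (nat_lit 1415671781190971258003392541)) (C.cons (nat_lit 1030) (C.node (nat_lit 2) (nat_lit 3) (nat_lit 7) (C.cons (nat_lit 204) (C.node (nat_lit 1) (nat_lit 2) (nat_lit 3) (C.cons (nat_lit 46) (C.miq (nat_lit 2602633811) (nat_lit 2637885787127430143611372585)) (C.cons (nat_lit 14) (C.node (nat_lit 2) (nat_lit 3) (nat_lit 10) (C.cons (nat_lit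 1548) (C.miq (nat_lit 1805873298) (nat_lit 3878237793099330548340097669)) (C.cons (nat_lit 1292) (C.miq (nat_lit 1379383936) (nat_lit 246662797525493670191107841)) (C.cons (nat_lit 1036) (C.node (nat_lit 6) (nat_lit 7) (nat_lit 8) (C.cons (nat_lit 962) (C.miq (nat_lit 1108872054) (nat_lit 317953707696033211376339169)) (C.cons (nat_lit 960) (C.miq (nat_lit 2519435056) (nat_lit 2558157888518759306017702281)) (C.cons (nat_lit 450) (C.miq (nat_lit 1108872054) (nat_lit 317953707696033211342784737)) (C.cons (nat_lit 448)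
  (C.node (nat_lit 1) (nat_lit 3) (nat_lit 7) (C.cons (nat_lit 170) (C.node (nat_lit 1) (nat_lit 7) (nat_lit 8) (C.cons (nat_lit 898) (C.miq (nat_lit 2270859568) (nat_lit 1431439024620473320540275211)) (C.cons (nat_lit 386) (C.node (nat_lit 3) (nat_lit 5) (nat_lit 11) C.nil) C.nil))) (C.cons (nat_lit 138) (C.node (nat_lit 1) (nat_lit 6) (nat_lit 7) (C.cons (nat_lit 706) (C.node (nat_lit 4) (nat_lit 6) (nat_lit 7) C.nil) (C.cons (nat_lit 194) (C.node (nat_lit 4) (nat_lit 6) (nat_lit 7) (C.cons (nat_lit 208) (C.node (nat_lit 6) (nat_lit 7) (nat_lit 9) C.nil) C.nil)) C.nil))) C.nil))) C.nil))))) C.nil)))) C.nil))) (C.cons (nat_lit 172) (C.miq (nat_lit 2320960291) (nat_lit 1431375421075300645021157405)) (C.cons (nat_lit 140) (C.node (nat_lit 2) (nat_lit 3) (nat_lit 10) (C.cons (nat_lit 1548) (C.node (nat_lit 5) (nat_lit 9) (nat_lit 10) (C.cons (nat_lit 1634) (C.miq (nat_lit 1764448816) (nat_lit 3099727731401125506448163881)) (C.cons (nat_lit 1632) (C.miq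 (nat_lit 1764448816) (nat_lit 3099727731400562556494742569)) (C.cons (nat_lit 1570) (C.miq (nat_lit 1359718706) (nat_lit 2479564188952103486448535052)) (C.cons (nat_lit 1568) (C.node (nat_lit 1) (nat_lit 9) (nat_lit 10) (C.cons (nat_lit 1602) (C.node (nat_lit 4) (nat_lit 9) (nat_lit 10) C.nil) (C.cons (nat_lit 1538) (C.node (nat_lit 2) (nat_lit 4) (nat_lit 10) (C.cons (nat_lit 1044) (C.node (nat_lit 2) (nat_lit 8) (nat_lit 10) C.nil) C.nil)) C.nil))) C.nil))))) (C.cons (nat_lit 1292) (C.miq (nat_lit 1379383936) (nat_lit 169291545070157403009912577)) (C.cons (nat_lit 1036) (C.node (nat_lit 2) (nat_lit 8) (nat_lit 10) (C.cons (nat_lit 1300) (C.node (nat_lit 2) (nat_lit 9) (nat_lit 10) (C.cons (nat_lit 1540) (C.node (nat_lit 2) (nat_lit 4) (nat_lit 7) (C.cons (nat_lit 212) (C.miq (nat_lit 1380366976) (nat_lit 256334204082410737944825601)) (C.cons (nat_lit 180) (C.miq (nat_lit 1696861096) (nat_lit 217612864723192062472883969)) C.nil))) C.nil)) (C.cons (nat_lit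 1284) (C.node (nat_lit 2) (nat_lit 4) (nat_lit 10) (C.cons (nat_lit 1556) (C.node (nat_lit 3) (nat_lit 9) (nat_lit 10) (C.cons (nat_lit 1544) (C.node (nat_lit 3) (nat_lit 4) (nat_lit 10) C.nil) C.nil)) (C.cons (nat_lit 1044) (C.node (nat_lit 2) (nat_lit 9) (nat_lit 10) C.nil) C.nil))) C.nil))) C.nil)))) C.nil)))) C.nil)))) C.nil)) C.nil))) C.nil))) C.nil))) C.nil)) C.nil))) C.nil)))) (C.cons (nat_lit 2184) (C.node (nat_lit 7) (nat_lit 10) (nat_lit 11) (C.cons (nat_lit 3200) (C.ref (nat_lit 296) (nat_lit 198128827013136)) C.nil)) C.nil))) C.nil))) C.nil)) C.nil))) C.nil))) (C.cons (nat_lit 3076) (C.node (nat_lit 5) (nat_lit 10) (nat_lit 11) (C.cons (nat_lit 3106) (C.node (nat_lit 1) (nat_lit 2) (nat_lit 10) (C.cons (nat_lit 1542) (C.miq (nat_lit 1361558160) (nat_lit 2637918068722668301564841729)) (C.cons (nat_lit 1038) (C.miq (nat_lit 1906684464) (nat_lit 3754965525786500615876708381)) (C.cons (nat_lit 1030) (C.node (nat_lit 1) (nat_lit 9) (nat_lit 10)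 (C.cons (nat_lit 1602) (C.node (nat_lit 1) (nat_lit 3) (nat_lit 10) (C.cons (nat_lit 1290) (C.miq (nat_lit 2276536410) (nat_lit 2637899934809605373041968169)) (C.cons (nat_lit 1034) (C.node (nat_lit 1) (nat_lit 8) (nat_lit 10) (C.cons (nat_lit 1282) (C.node (nat_lit 1) (nat_lit 9) (nat_lit 11) (C.cons (nat_lit 2578) (C.node (nat_lit 4) (nat_lit 6) (nat_lit 11) (C.cons (nat_lit 2128) (C.node (nat_lit 2) (nat_lit 6) (nat_lit 11) (C.cons (nat_lit 2628) (C.node (nat_lit 5) (nat_lit 9) (nat_lit 11) (C.cons (nat_lit 2600) (C.miq (nat_lit 1500134176) (nat_lit 1936718809536920665245157405)) (C.cons (nat_lit 2592) (C.node (nat_lit 3) (nat_lit 5) (nat_lit 11) (C.cons (nat_lit 2344) (C.miq (nat_lit 461874480) (nat_lit 2940129195314359811862758441)) (C.cons (nat_lit 2088) (C.node (nat_lit 1) (nat_lit 2) (nat_lit 4) (C.cons (nat_lit 118) (C.miq (nat_lit 2316569430) (nat_lit 1415658352402642329421613281)) (C.cons (nat_lit 86) (C.node (nat_lit 1) (nat_lit 7) (nat_lit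 9) (C.cons (nat_lit 930) (C.miq (nat_lit 873925528) (nat_lit 1415659384923786330549391105)) (C.cons (nat_lit 898)
  (C.miq (nat_lit 873925528) (nat_lit 1415659384923786330547293953)) (C.cons (nat_lit 674) (C.miq (nat_lit 563394384) (nat_lit 3116649077468136401158605025)) (C.cons (nat_lit 642) (C.node (nat_lit 1) (nat_lit 2) (nat_lit 3) (C.cons (nat_lit 46) (C.node (nat_lit 1) (nat_lit 2) (nat_lit 9) (C.cons (nat_lit 518) (C.node (nat_lit 1) (nat_lit 5) (nat_lit 6) (C.cons (nat_lit 354) (C.miq (nat_lit 2150982689) (nat_lit 1287512528131848152044929110)) (C.cons (nat_lit 98) (C.node (nat_lit 1) (nat_lit 5) (nat_lit 9) (C.cons (nat_lit 802) (C.miq (nat_lit 2503704864) (nat_lit 2524307965525075964200812807)) (C.cons (nat_lit 546) (C.node (nat_lit 1) (nat_lit 8) (nat_lit 9) C.nil) C.nil))) C.nil))) C.nil)) (C.cons (nat_lit 14) (C.node (nat_lit 1) (nat_lit 2) (nat_lit 5) (C.cons (nat_lit 550) (C.node (nat_lit 1) (nat_lit 8) (nat_lit 9) (C.cons (nat_lit 770)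 (C.node (nat_lit 2) (nat_lit 9) (nat_lit 10) (C.cons (nat_lit 1556) (C.miq (nat_lit 1982073754) (nat_lit 103989222263972332249026305)) (C.cons (nat_lit 1548) (C.miq (nat_lit 1452935971) (nat_lit 1936718809444878347890591773)) (C.cons (nat_lit 1540) (C.node (nat_lit 2) (nat_lit 3) (nat_lit 9) (C.cons (nat_lit 780) (C.node (nat_lit 2) (nat_lit 4) (nat_lit 9) (C.cons (nat_lit 532) (C.node (nat_lit 2) (nat_lit 3) (nat_lit 10) (C.cons (nat_lit 1164) (C.miq (nat_lit 1647819136) (nat_lit 1407231584220427490064666369)) (C.cons (nat_lit 1036) (C.node (nat_lit 3) (nat_lit 9) (nat_lit 11) (C.cons (nat_lit 2696) (C.miq (nat_lit 638098291) (nat_lit 407422390410233526608267912)) (C.cons (nat_lit 2568) (C.node (nat_lit 7) (nat_lit 9) (nat_lit 11) (C.cons (nat_lit 2688) (C.node (nat_lit 1) (nat_lit 3) (nat_lit 7) C.nil) C.nil)) C.nil))) C.nil))) C.nil)) (C.cons (nat_lit 524) (C.node (nat_lit 2) (nat_lit 3) (nat_lit 6) (C.cons (nat_lit 364) (C.miq (nat_lit 2837646181)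 (nat_lit 633496776341660860962048225)) (C.cons (nat_lit 332) (C.miq (nat_lit 840402496) (nat_lit 2637883388062991888774529361)) (C.cons (nat_lit 204) (C.miq (nat_lit 2300775271) (nat_lit 633484380129643328132876513)) (C.cons (nat_lit 108) (C.miq (nat_lit 2837646181) (nat_lit 633496776341660860945271009)) (C.cons (nat_lit 76) (C.node (nat_lit 2) (nat_lit 4) (nat_lit 9) (C.cons (nat_lit 788) (C.node (nat_lit 2) (nat_lit 4) (nat_lit 7) (C.cons (nat_lit 180) (C.miq (nat_lit 2189136976) (nat_lit 2637946992564911032487707185)) (C.cons (nat_lit 148) (C.node (nat_lit 1) (nat_lit 3) (nat_lit 7) C.nil) C.nil))) (C.cons (nat_lit 532) (C.node (nat_lit 2) (nat_lit 8) (nat_lit 9) (C.cons (nat_lit 772) (C.node (nat_lit 1) (nat_lit 3) (nat_lit 7) C.nil) C.nil)) C.nil))) C.nil)))))) C.nil))) C.nil)))) C.nil)) (C.cons (nat_lit 38) (C.node (nat_lit 1) (nat_lit 2) (nat_lit 9) (C.cons (nat_lit 518) (C.node (nat_lit 1) (nat_lit 5) (nat_lit 9) (C.cons (nat_lit 802) (C.node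 (nat_lit 1) (nat_lit 4) (nat_lit 5) (C.cons (nat_lit 58) (C.miq (nat_lit 1365914656) (nat_lit 1936718808821400356639803421)) C.nil)) C.nil)) C.nil)) C.nil))) C.nil))) C.nil))))) (C.cons (nat_lit 54) (C.miq (nat_lit 1648468153) (nat_lit 65311546250857128496598785)) (C.cons (nat_lit 22) (C.miq (nat_lit 1648468153) (nat_lit 26625920023188994906001153)) C.nil))))) C.nil))) C.nil))) (C.cons (nat_lit 2372) (C.miq (nat_lit 1093142454) (nat_lit 317953707441016882568890593)) (C.cons (nat_lit 2116) (C.miq (nat_lit 2602963978) (nat_lit 2558116586714212827058734227)) C.nil)))) C.nil)) (C.cons (nat_lit 2562) (C.node (nat_lit 2) (nat_lit 6) (nat_lit 11) (C.cons (nat_lit 2628) (C.miq (nat_lit 1100679778) (nat_lit 3097306264069735118773945413)) (C.cons (nat_lit 2372) (C.miq (nat_lit 1093142454) (nat_lit 317953707441016882568890593)) (C.cons (nat_lit 2116) (C.node (nat_lit 2) (nat_lit 9) (nat_lit 11) (C.cons (nat_lit 2596) (C.miq (nat_lit 1383184650) (nat_lit 2637933434716925610947710721))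 (C.cons (nat_lit 2564) (C.node (nat_lit 2) (nat_lit 5) (nat_lit 11) (C.cons (nat_lit 2340) (C.node (nat_lit 4) (nat_lit 5) (nat_lit 11) (C.cons (nat_lit 2096) (C.node (nat_lit 1) (nat_lit 2) (nat_lit 4) (C.cons (nat_lit 534)
  (C.miq (nat_lit 1529415444) (nat_lit 3099696150755136548722050195)) (C.cons (nat_lit 118) (C.miq (nat_lit 2316569430) (nat_lit 1415658352402642329421613281)) (C.cons (nat_lit 86) (C.miq (nat_lit 2519441728) (nat_lit 2558157888699465734259803283)) (C.cons (nat_lit 54) (C.miq (nat_lit 2233119296) (nat_lit 3754994450325677012533053469)) (C.cons (nat_lit 22) (C.node (nat_lit 1) (nat_lit 5) (nat_lit 7) (C.cons (nat_lit 930) (C.miq (nat_lit 2485211319) (nat_lit 26613523661426774451292385)) (C.cons (nat_lit 674) (C.miq (nat_lit 2485211319) (nat_lit 26608801294943904806078689)) (C.cons (nat_lit 418) (C.miq (nat_lit 1115753303) (nat_lit 317969092280591363711568097)) (C.cons (nat_lit 170) (C.miq (nat_lit 2316503895) (nat_lit 1250036548133106260225165537))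 (C.cons (nat_lit 162) (C.node (nat_lit 1) (nat_lit 2) (nat_lit 9) (C.cons (nat_lit 550) (C.node (nat_lit 1) (nat_lit 2) (nat_lit 3) (C.cons (nat_lit 78) (C.miq (nat_lit 3105032802) (nat_lit 632306518627044419198387269)) (C.cons (nat_lit 14) (C.node (nat_lit 1) (nat_lit 2) (nat_lit 6) (C.cons (nat_lit 70) (C.node (nat_lit 1) (nat_lit 3) (nat_lit 7) C.nil) C.nil)) C.nil))) (C.cons (nat_lit 518) (C.node (nat_lit 1) (nat_lit 3) (nat_lit 7) (C.cons (nat_lit 202) (C.node (nat_lit 1) (nat_lit 7) (nat_lit 8) (C.cons (nat_lit 898) (C.miq (nat_lit 2687932529) (nat_lit 88281137597021085936255874)) (C.cons (nat_lit 386) (C.node (nat_lit 1) (nat_lit 7) (nat_lit 9) C.nil) C.nil))) (C.cons (nat_lit 138) (C.node (nat_lit 1) (nat_lit 6) (nat_lit 7) (C.cons (nat_lit 450) (C.miq (nat_lit 1108872054) (nat_lit 317953707696033211342784737)) (C.cons (nat_lit 194) (C.node (nat_lit 1) (nat_lit 4) (nat_lit 9) C.nil) C.nil))) C.nil))) C.nil))) C.nil)))))) C.nil)))))) C.nil))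 (C.cons (nat_lit 2084) (C.node (nat_lit 2) (nat_lit 8) (nat_lit 11) (C.cons (nat_lit 2308) (C.node (nat_lit 4) (nat_lit 5) (nat_lit 11) (C.cons (nat_lit 2352) (C.node (nat_lit 1) (nat_lit 4) (nat_lit 11) (C.cons (nat_lit 2130) (C.node (nat_lit 4) (nat_lit 9) (nat_lit 11) (C.cons (nat_lit 2576) (C.node (nat_lit 6) (nat_lit 8) (nat_lit 11) (C.cons (nat_lit 2376) (C.miq (nat_lit 991397440) (nat_lit 2637883388638335520084263249)) (C.cons (nat_lit 2368) (C.node (nat_lit 6) (nat_lit 9) (nat_lit 11) (C.cons (nat_lit 2632) (C.miq (nat_lit 907327904) (nat_lit 2575050310407450256179662593)) C.nil)) C.nil))) C.nil)) (C.cons (nat_lit 2066) (C.node (nat_lit 1) (nat_lit 4) (nat_lit 6) (C.cons (nat_lit 122) (C.miq (nat_lit 2316569430) (nat_lit 1415658352402642329421875425)) (C.cons (nat_lit 118) (C.miq (nat_lit 2316569430) (nat_lit 1415658352402642329421613281)) (C.cons (nat_lit 114) (C.miq (nat_lit 2316569430) (nat_lit 1415658352402642329421351137)) (C.cons (nat_lit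 90) (C.miq (nat_lit 1689916169) (nat_lit 3733192482679322642997117451)) (C.cons (nat_lit 86) (C.miq (nat_lit 2519441728) (nat_lit 2558157888699465734259803283)) (C.cons (nat_lit 82) (C.node (nat_lit 3) (nat_lit 5) (nat_lit 11) (C.cons (nat_lit 2600) (C.node (nat_lit 7) (nat_lit 9) (nat_lit 11) (C.cons (nat_lit 2688) (C.node (nat_lit 3) (nat_lit 7) (nat_lit 11) (C.cons (nat_lit 3208) (C.miq (nat_lit 1203309109) (nat_lit 3249602952077169548822316073)) C.nil)) C.nil)) (C.cons (nat_lit 2088) (C.node (nat_lit 5) (nat_lit 9) (nat_lit 11) C.nil) C.nil))) C.nil))))))) C.nil))) (C.cons (nat_lit 2096) (C.node (nat_lit 5) (nat_lit 8) (nat_lit 11) (C.cons (nat_lit 2344) (C.miq (nat_lit 461874480) (nat_lit 2940129195314359811862758441)) (C.cons (nat_lit 2336) (C.node (nat_lit 3) (nat_lit 5) (nat_lit 11) (C.cons (nat_lit 2600) (C.node (nat_lit 7) (nat_lit 9) (nat_lit 11) C.nil) (C.cons (nat_lit 2088) (C.node (nat_lit 5) (nat_lit 9) (nat_lit 11) C.nil) C.nil))) C.nil)))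 C.nil))) C.nil)) C.nil))) C.nil))) C.nil)))) C.nil))) C.nil)) C.nil))) (C.cons (nat_lit 1538) (C.node (nat_lit 4) (nat_lit 5) (nat_lit 11) (C.cons (nat_lit 2352) (C.node (nat_lit 2) (nat_lit 5) (nat_lit 11) (C.cons (nat_lit 2596) (C.miq (nat_lit 1383184650) (nat_lit 2637933434716925610947710721)) (C.cons (nat_lit 2084)
  (C.node (nat_lit 2) (nat_lit 8) (nat_lit 11) (C.cons (nat_lit 2372) (C.miq (nat_lit 1093142454) (nat_lit 317953707441016882568890593)) (C.cons (nat_lit 2308) (C.node (nat_lit 2) (nat_lit 6) (nat_lit 11) (C.cons (nat_lit 2628) (C.node (nat_lit 1) (nat_lit 9) (nat_lit 11) (C.cons (nat_lit 2578) (C.miq (nat_lit 1780031563) (nat_lit 1859376388918382558520150045)) (C.cons (nat_lit 2562) (C.node (nat_lit 4) (nat_lit 9) (nat_lit 11) (C.cons (nat_lit 2576) (C.node (nat_lit 1) (nat_lit 4) (nat_lit 11) (C.cons (nat_lit 2130) (C.miq (nat_lit 1761915505) (nat_lit 678246677108402977481361542)) (C.cons (nat_lit 2066) (C.node (nat_lit 4) (nat_lit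 6) (nat_lit 11) (C.cons (nat_lit 2128) (C.node (nat_lit 2) (nat_lit 4) (nat_lit 9) (C.cons (nat_lit 1556) (C.miq (nat_lit 1956317734) (nat_lit 3114234841106178176723452997)) (C.cons (nat_lit 788) (C.miq (nat_lit 683119696) (nat_lit 2940119491674518079106253361)) (C.cons (nat_lit 534) (C.miq (nat_lit 1529415444) (nat_lit 3177067403210472815903245459)) (C.cons (nat_lit 532) (C.node (nat_lit 2) (nat_lit 4) (nat_lit 6) (C.cons (nat_lit 212) (C.miq (nat_lit 2837711719) (nat_lit 643170138253449707562207457)) (C.cons (nat_lit 118) (C.miq (nat_lit 2316569430) (nat_lit 1415658352402642329421613281)) (C.cons (nat_lit 116) (C.miq (nat_lit 2874280006) (nat_lit 2519421571449315251943899473)) (C.cons (nat_lit 86) (C.miq (nat_lit 1638474763) (nat_lit 1859376388634937257055291421)) (C.cons (nat_lit 84) (C.node (nat_lit 1) (nat_lit 2) (nat_lit 4) (C.cons (nat_lit 54) (C.node (nat_lit 1) (nat_lit 2) (nat_lit 9) (C.cons (nat_lit 518) (C.node (nat_lit 2) (nat_lit 4) (nat_lit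 10) (C.cons (nat_lit 1300) (C.miq (nat_lit 1411823776) (nat_lit 101591698958943121238724353)) (C.cons (nat_lit 1044) (C.node (nat_lit 1) (nat_lit 2) (nat_lit 3) (C.cons (nat_lit 78) (C.node (nat_lit 2) (nat_lit 8) (nat_lit 9) (C.cons (nat_lit 812) (C.miq (nat_lit 1982008216) (nat_lit 94303464140165952771460865)) (C.cons (nat_lit 804) (C.miq (nat_lit 2840856609) (nat_lit 678228987022266119597981959)) (C.cons (nat_lit 780) (C.miq (nat_lit 1982008216) (nat_lit 94303464140165952769363713)) C.nil)))) C.nil)) C.nil))) C.nil)) (C.cons (nat_lit 22) (C.node (nat_lit 1) (nat_lit 2) (nat_lit 9) (C.cons (nat_lit 550) (C.node (nat_lit 1) (nat_lit 4) (nat_lit 5) (C.cons (nat_lit 122) (C.miq (nat_lit 2316569430) (nat_lit 1415658352402642329421875425)) (C.cons (nat_lit 114) (C.miq (nat_lit 2316569430) (nat_lit 1415658352402642329421351137)) (C.cons (nat_lit 58) (C.miq (nat_lit 2233054256) (nat_lit 664980055394062558841997341)) (C.cons (nat_lit 50) (C.node (nat_lit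 1) (nat_lit 2) (nat_lit 3) (C.cons (nat_lit 78) (C.node (nat_lit 1) (nat_lit 3) (nat_lit 7) (C.cons (nat_lit 170) (C.miq (nat_lit 951414945) (nat_lit 2843396663790736512552928403)) C.nil)) (C.cons (nat_lit 14) (C.node (nat_lit 1) (nat_lit 2) (nat_lit 6) C.nil) C.nil))) C.nil))))) (C.cons (nat_lit 518) (C.node (nat_lit 3) (nat_lit 5) (nat_lit 11) (C.cons (nat_lit 2600) (C.node (nat_lit 7) (nat_lit 9) (nat_lit 11) (C.cons (nat_lit 2688) (C.node (nat_lit 3) (nat_lit 7) (nat_lit 11) C.nil) C.nil)) (C.cons (nat_lit 2088) (C.node (nat_lit 5) (nat_lit 9) (nat_lit 11) C.nil) C.nil))) C.nil))) C.nil))) C.nil)))))) C.nil))))) C.nil)) C.nil))) C.nil)) C.nil))) (C.cons (nat_lit 2116) (C.node (nat_lit 2) (nat_lit 9) (nat_lit 11) (C.cons (nat_lit 2564) (C.node (nat_lit 3) (nat_lit 5) (nat_lit 11) (C.cons (nat_lit 2600) (C.node (nat_lit 7) (nat_lit 9) (nat_lit 11) (C.cons (nat_lit 2688) (C.node (nat_lit 3) (nat_lit 7) (nat_lit 11) (C.cons (nat_lit 3208) (C.miq (nat_lit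 1203309109) (nat_lit 3249602952077169548822316073)) (C.cons (nat_lit 2184) (C.node (nat_lit 7) (nat_lit 10) (nat_lit 11) (C.cons (nat_lit 3200) (C.node (nat_lit 3) (nat_lit 8) (nat_lit 11) (C.cons (nat_lit 2376) (C.miq (nat_lit 1670417236) (nat_lit 632274420879999610106480944)) (C.cons (nat_lit 2314) (C.miq (nat_lit 2214704531) (nat_lit 1415694821196548882217765416)) C.nil))) C.nil)) C.nil))) C.nil)) (C.cons (nat_lit 2088)
  (C.node (nat_lit 5) (nat_lit 9) (nat_lit 11) (C.cons (nat_lit 2592) (C.node (nat_lit 6) (nat_lit 10) (nat_lit 11) (C.cons (nat_lit 3144) (C.node (nat_lit 7) (nat_lit 10) (nat_lit 11) (C.cons (nat_lit 3200) (C.node (nat_lit 1) (nat_lit 3) (nat_lit 11) (C.cons (nat_lit 2314) (C.node (nat_lit 6) (nat_lit 8) (nat_lit 11) C.nil) C.nil)) C.nil)) (C.cons (nat_lit 3136) (C.node (nat_lit 3) (nat_lit 10) (nat_lit 11) (C.cons (nat_lit 3208) (C.node (nat_lit 7) (nat_lit 9) (nat_lit 11) C.nil) C.nil)) C.nil))) C.nil)) C.nil))) C.nil)) C.nil)))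 C.nil))) C.nil))) (C.cons (nat_lit 2096) (C.node (nat_lit 4) (nat_lit 8) (nat_lit 11) (C.cons (nat_lit 2322) (C.node (nat_lit 1) (nat_lit 8) (nat_lit 10) (C.cons (nat_lit 1354) (C.miq (nat_lit 2065171875) (nat_lit 2807133003355395873842005033)) (C.cons (nat_lit 1346) (C.miq (nat_lit 2712823872) (nat_lit 2637896301069268715451515217)) (C.cons (nat_lit 1290) (C.miq (nat_lit 2065171875) (nat_lit 2807133003355395873837810729)) (C.cons (nat_lit 1282) (C.node (nat_lit 1) (nat_lit 3) (nat_lit 10) (C.cons (nat_lit 1098) (C.node (nat_lit 1) (nat_lit 3) (nat_lit 11) (C.cons (nat_lit 2058) (C.node (nat_lit 6) (nat_lit 10) (nat_lit 11) (C.cons (nat_lit 3136) (C.node (nat_lit 1) (nat_lit 3) (nat_lit 4) (C.cons (nat_lit 58) (C.miq (nat_lit 2170205232) (nat_lit 3754994450320610480125184029)) (C.cons (nat_lit 26) (C.node (nat_lit 1) (nat_lit 3) (nat_lit 7) (C.cons (nat_lit 170) (C.miq (nat_lit 2316503895) (nat_lit 1327407800588442527406360801)) (C.cons (nat_lit 138)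 (C.node (nat_lit 1) (nat_lit 2) (nat_lit 3) (C.cons (nat_lit 46) (C.node (nat_lit 1) (nat_lit 3) (nat_lit 8) (C.cons (nat_lit 266) (C.node (nat_lit 1) (nat_lit 4) (nat_lit 5) (C.cons (nat_lit 114) (C.miq (nat_lit 2705896800) (nat_lit 2807196607963417829367154913)) C.nil)) C.nil)) (C.cons (nat_lit 14) (C.node (nat_lit 1) (nat_lit 3) (nat_lit 5) (C.cons (nat_lit 298) (C.node (nat_lit 1) (nat_lit 5) (nat_lit 7) (C.cons (nat_lit 674) (C.miq (nat_lit 1370789664) (nat_lit 2807136101958317800783938181)) C.nil)) (C.cons (nat_lit 42) (C.node (nat_lit 1) (nat_lit 3) (nat_lit 8) C.nil) C.nil))) C.nil))) C.nil))) C.nil))) C.nil)) C.nil)) (C.cons (nat_lit 1034) (C.node (nat_lit 1) (nat_lit 6) (nat_lit 10) (C.cons (nat_lit 1090) (C.node (nat_lit 1) (nat_lit 3) (nat_lit 11) (C.cons (nat_lit 2122) (C.node (nat_lit 1) (nat_lit 9) (nat_lit 11) (C.cons (nat_lit 2562) (C.node (nat_lit 6) (nat_lit 10) (nat_lit 11) (C.cons (nat_lit 3136) (C.node (nat_lit 1) (nat_lit 3) (nat_lit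 4) (C.cons (nat_lit 58) (C.miq (nat_lit 2170205232) (nat_lit 3754994450320610480125184029)) (C.cons (nat_lit 26) (C.node (nat_lit 1) (nat_lit 3) (nat_lit 7) (C.cons (nat_lit 170) (C.miq (nat_lit 2316503895) (nat_lit 1250036548133106260225165537)) (C.cons (nat_lit 138) (C.node (nat_lit 1) (nat_lit 2) (nat_lit 3) C.nil) C.nil))) C.nil))) C.nil)) C.nil)) (C.cons (nat_lit 2058) (C.node (nat_lit 1) (nat_lit 6) (nat_lit 11) (C.cons (nat_lit 2626) (C.node (nat_lit 4) (nat_lit 6) (nat_lit 11) (C.cons (nat_lit 2128) (C.node (nat_lit 4) (nat_lit 9) (nat_lit 11) (C.cons (nat_lit 2576) (C.node (nat_lit 1) (nat_lit 4) (nat_lit 9) (C.cons (nat_lit 534) (C.miq (nat_lit 1102418544) (nat_lit 3754933944496780577026933381)) (C.cons (nat_lit 530) (C.node (nat_lit 2) (nat_lit 6) (nat_lit 11) (C.cons (nat_lit 2372) (C.miq (nat_lit 1093142454) (nat_lit 317953707441016882568890593)) (C.cons (nat_lit 2116) (C.node (nat_lit 2) (nat_lit 9) (nat_lit 11) (C.cons (nat_lit 2596)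 (C.miq (nat_lit 1383184650) (nat_lit 2637933434716925610947710721)) C.nil)) C.nil))) C.nil))) C.nil)) C.nil)) (C.cons (nat_lit 2114) (C.node (nat_lit 1) (nat_lit 9) (nat_lit 11) (C.cons (nat_lit 2562) (C.node (nat_lit 4) (nat_lit 6) (nat_lit 11) (C.cons (nat_lit 2640) (C.node (nat_lit 1) (nat_lit 4) (nat_lit 9) (C.cons (nat_lit 534) (C.miq (nat_lit 1102418544) (nat_lit 3754933944496780577026933381)) (C.cons (nat_lit 530) (C.node (nat_lit 1) (nat_lit 3) (nat_lit 7) C.nil) C.nil))) (C.cons (nat_lit 2128)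
  (C.node (nat_lit 4) (nat_lit 9) (nat_lit 11) C.nil) C.nil))) C.nil)) C.nil))) C.nil))) C.nil)) C.nil))) C.nil))))) (C.cons (nat_lit 2320) (C.node (nat_lit 6) (nat_lit 10) (nat_lit 11) (C.cons (nat_lit 3144) (C.node (nat_lit 7) (nat_lit 10) (nat_lit 11) (C.cons (nat_lit 3200) (C.node (nat_lit 1) (nat_lit 3) (nat_lit 10) (C.cons (nat_lit 1290) (C.miq (nat_lit 2276536410) (nat_lit 2637899934809605373041968169)) (C.cons (nat_lit 1034) (C.node (nat_lit 1) (nat_lit 3) (nat_lit 11) (C.cons (nat_lit 2314) (C.node (nat_lit 3) (nat_lit 7) (nat_lit 11) (C.cons (nat_lit 2696) (C.miq (nat_lit 824686601) (nat_lit 2637925871472477805887164161)) (C.cons (nat_lit 2184) (C.node (nat_lit 7) (nat_lit 9) (nat_lit 11) (C.cons (nat_lit 2688) (C.node (nat_lit 6) (nat_lit 8) (nat_lit 11) (C.cons (nat_lit 2372) (C.miq (nat_lit 1093142454) (nat_lit 317953707441016882568890593)) (C.cons (nat_lit 2368) (C.node (nat_lit 1) (nat_lit 3) (nat_lit 7) (C.cons (nat_lit 202) (C.miq (nat_lit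 640748216) (nat_lit 244207867363512131976302337)) (C.cons (nat_lit 170) (C.miq (nat_lit 2704848240) (nat_lit 2797525201406501036491344097)) (C.cons (nat_lit 138) (C.node (nat_lit 1) (nat_lit 6) (nat_lit 10) (C.cons (nat_lit 1346) (C.node (nat_lit 6) (nat_lit 7) (nat_lit 10) (C.cons (nat_lit 1728) (C.miq (nat_lit 1629988873) (nat_lit 2637908014751746677585284865)) (C.cons (nat_lit 1216) (C.node (nat_lit 1) (nat_lit 6) (nat_lit 7) (C.cons (nat_lit 706) (C.node (nat_lit 1) (nat_lit 6) (nat_lit 11) (C.cons (nat_lit 2130) (C.miq (nat_lit 1083617905) (nat_lit 697589490067144332078614662)) (C.cons (nat_lit 2114) (C.node (nat_lit 2) (nat_lit 6) (nat_lit 11) (C.cons (nat_lit 2628) (C.miq (nat_lit 1097533330) (nat_lit 2555707496882377400214880901)) C.nil)) C.nil))) (C.cons (nat_lit 194) (C.node (nat_lit 1) (nat_lit 7) (nat_lit 9) (C.cons (nat_lit 930) (C.miq (nat_lit 1634904208) (nat_lit 2637896301069262736763195137)) (C.cons (nat_lit 898) (C.miq (nat_lit 1634904208)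 (nat_lit 2637896301069262599324241665)) (C.cons (nat_lit 674) (C.miq (nat_lit 1159399794) (nat_lit 3754961909768389668261724805)) (C.cons (nat_lit 642) (C.node (nat_lit 1) (nat_lit 5) (nat_lit 7) (C.cons (nat_lit 418) (C.node (nat_lit 1) (nat_lit 3) (nat_lit 4) (C.cons (nat_lit 122) (C.miq (nat_lit 593562536) (nat_lit 147493802071313175019654913)) (C.cons (nat_lit 90) (C.miq (nat_lit 593562536) (nat_lit 108808175843645041429057281)) (C.cons (nat_lit 58) (C.miq (nat_lit 2551515956) (nat_lit 505341342303495670189393949)) C.nil)))) C.nil)) C.nil))))) C.nil))) C.nil))) (C.cons (nat_lit 1090) (C.node (nat_lit 1) (nat_lit 2) (nat_lit 3) (C.cons (nat_lit 110) (C.miq (nat_lit 2321615666) (nat_lit 1317733995954796074971826205)) (C.cons (nat_lit 78) (C.miq (nat_lit 2321615666) (nat_lit 1317733995954796074969729053)) (C.cons (nat_lit 46) (C.miq (nat_lit 1662167936) (nat_lit 55630750878512771926265601)) (C.cons (nat_lit 14) (C.miq (nat_lit 1662167936) (nat_lit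 16945124650844638335667969)) C.nil))))) C.nil))) C.nil)))) C.nil))) C.nil)) C.nil))) (C.cons (nat_lit 2058) (C.node (nat_lit 3) (nat_lit 8) (nat_lit 11) (C.cons (nat_lit 2344) (C.miq (nat_lit 461874480) (nat_lit 2940129195314359811862758441)) (C.cons (nat_lit 2312) (C.node (nat_lit 1) (nat_lit 6) (nat_lit 10) (C.cons (nat_lit 1346) (C.node (nat_lit 1) (nat_lit 2) (nat_lit 3) (C.cons (nat_lit 110) (C.miq (nat_lit 2335246946) (nat_lit 2487974189341757116087403589)) (C.cons (nat_lit 78) (C.miq (nat_lit 2335246946) (nat_lit 2487974189341757116085306437)) (C.cons (nat_lit 46) (C.miq (nat_lit 1629726731) (nat_lit 55668584644507133231828737)) (C.cons (nat_lit 14) (C.miq (nat_lit 1629726731) (nat_lit 16982958416838999641231105)) C.nil))))) (C.cons (nat_lit 1090) (C.node (nat_lit 1) (nat_lit 8) (nat_lit 10) (C.cons (nat_lit 1282) (C.node (nat_lit 1) (nat_lit 8) (nat_lit 11) (C.cons (nat_lit 2370) (C.node (nat_lit 1) (nat_lit 4) (nat_lit 11) (C.cons (nat_lit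 2578) (C.node (nat_lit 4) (nat_lit 6) (nat_lit 11) (C.cons (nat_lit 2128) (C.node (nat_lit 2) (nat_lit 6) (nat_lit 11)
  (C.cons (nat_lit 2116) (C.node (nat_lit 6) (nat_lit 9) (nat_lit 11) C.nil) C.nil)) C.nil)) (C.cons (nat_lit 2066) (C.node (nat_lit 1) (nat_lit 9) (nat_lit 11) C.nil) C.nil))) (C.cons (nat_lit 2306) (C.node (nat_lit 6) (nat_lit 8) (nat_lit 11) (C.cons (nat_lit 2372) (C.miq (nat_lit 1093142454) (nat_lit 317953707441016882568890593)) (C.cons (nat_lit 2368) (C.node (nat_lit 2) (nat_lit 6) (nat_lit 11) (C.cons (nat_lit 2628) (C.node (nat_lit 1) (nat_lit 6) (nat_lit 11) (C.cons (nat_lit 2130) (C.miq (nat_lit 1761915505) (nat_lit 678246677108402977481361542)) C.nil)) C.nil)) C.nil))) C.nil))) C.nil)) C.nil))) C.nil))) C.nil))) C.nil))) C.nil)) (C.cons (nat_lit 3136) (C.node (nat_lit 3) (nat_lit 10) (nat_lit 11) (C.cons (nat_lit 3208) (C.node (nat_lit 7) (nat_lit 9) (nat_lit 11) (C.cons (nat_lit 2688) (C.node (nat_lit 3) (nat_lit 5) (nat_lit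 11) (C.cons (nat_lit 2600) (C.miq (nat_lit 1203309109) (nat_lit 3249602952077169548822316073)) (C.cons (nat_lit 2344) (C.miq (nat_lit 461874480) (nat_lit 2940129195314359811862758441)) (C.cons (nat_lit 2088) (C.node (nat_lit 5) (nat_lit 9) (nat_lit 11) (C.cons (nat_lit 2596) (C.miq (nat_lit 1383184650) (nat_lit 2637933434716925610947710721)) (C.cons (nat_lit 2592) (C.node (nat_lit 2) (nat_lit 5) (nat_lit 11) (C.cons (nat_lit 2340) (C.node (nat_lit 1) (nat_lit 5) (nat_lit 7) (C.cons (nat_lit 930) (C.miq (nat_lit 1115753303) (nat_lit 317969092280591363745122529)) (C.cons (nat_lit 674) (C.miq (nat_lit 1159399794) (nat_lit 3754961909768389668261724805)) (C.cons (nat_lit 418) (C.miq (nat_lit 1115753303) (nat_lit 317969092280591363711568097)) (C.cons (nat_lit 170) (C.miq (nat_lit 2337475095) (nat_lit 2524244362006925410365473939)) (C.cons (nat_lit 162) (C.node (nat_lit 1) (nat_lit 3) (nat_lit 7) (C.cons (nat_lit 202) (C.node (nat_lit 1) (nat_lit 2) (nat_lit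 3) (C.cons (nat_lit 46) (C.miq (nat_lit 2605910049) (nat_lit 2524246760083651702654107911)) (C.cons (nat_lit 14) (C.node (nat_lit 1) (nat_lit 3) (nat_lit 10) (C.cons (nat_lit 1290) (C.miq (nat_lit 1362606720) (nat_lit 244244945885701453298339585)) (C.cons (nat_lit 1034) (C.node (nat_lit 3) (nat_lit 9) (nat_lit 11) (C.cons (nat_lit 2632) (C.miq (nat_lit 2468001392) (nat_lit 1250100152166356691396528353)) (C.cons (nat_lit 2568) (C.node (nat_lit 3) (nat_lit 6) (nat_lit 11) (C.cons (nat_lit 2376) (C.miq (nat_lit 1194724024) (nat_lit 244209232444528909548523265)) C.nil)) C.nil))) C.nil))) C.nil))) (C.cons (nat_lit 138) (C.node (nat_lit 2) (nat_lit 6) (nat_lit 11) (C.cons (nat_lit 2628) (C.node (nat_lit 3) (nat_lit 9) (nat_lit 11) (C.cons (nat_lit 2568) (C.node (nat_lit 1) (nat_lit 9) (nat_lit 11) C.nil) C.nil)) (C.cons (nat_lit 2116) (C.node (nat_lit 2) (nat_lit 9) (nat_lit 11) C.nil) C.nil))) C.nil))) C.nil)))))) (C.cons (nat_lit 2084) (C.node (nat_lit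 5) (nat_lit 8) (nat_lit 11) C.nil) C.nil))) C.nil))) C.nil)))) C.nil)) (C.cons (nat_lit 3080) (C.node (nat_lit 7) (nat_lit 10) (nat_lit 11) (C.cons (nat_lit 3200) (C.node (nat_lit 3) (nat_lit 7) (nat_lit 11) (C.cons (nat_lit 2696) (C.node (nat_lit 9) (nat_lit 5) (nat_lit 11) (C.cons (nat_lit 2596) (C.miq (nat_lit 1383184650) (nat_lit 2637933434716925610947710721)) (C.cons (nat_lit 2592) (C.node (nat_lit 5) (nat_lit 3) (nat_lit 11) (C.cons (nat_lit 2344) (C.miq (nat_lit 2333554080) (nat_lit 2637883388629332512717603881)) (C.cons (nat_lit 2088) (C.node (nat_lit 8) (nat_lit 5) (nat_lit 11) (C.cons (nat_lit 2340) (C.node (nat_lit 9) (nat_lit 2) (nat_lit 11) (C.cons (nat_lit 2628) (C.node (nat_lit 1) (nat_lit 9) (nat_lit 11) C.nil) C.nil)) C.nil)) C.nil))) C.nil))) (C.cons (nat_lit 2184) (C.node (nat_lit 7) (nat_lit 9) (nat_lit 11) (C.cons (nat_lit 2688) (C.ref (nat_lit 297) (nat_lit 198128827013136)) C.nil)) C.nil))) C.nil)) C.nil))) C.nil))) C.nil))) C.nil)))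 C.nil))) C.nil)))) (C.cons (nat_lit 3104) (C.node (nat_lit 7) (nat_lit 9) (nat_lit 11) (C.cons (nat_lit 2696) (C.node (nat_lit 7) (nat_lit 10) (nat_lit 11) (C.cons (nat_lit 3200) (C.ref (nat_lit 288) (nat_lit 198064386771216)) C.nil))
  (C.cons (nat_lit 2688) (C.node (nat_lit 3) (nat_lit 7) (nat_lit 11) (C.cons (nat_lit 3208) (C.node (nat_lit 1) (nat_lit 10) (nat_lit 11) (C.cons (nat_lit 3138) (C.node (nat_lit 1) (nat_lit 3) (nat_lit 10) (C.cons (nat_lit 1290) (C.miq (nat_lit 369666931) (nat_lit 407431798393263356602027144)) (C.cons (nat_lit 1038) (C.miq (nat_lit 1461324579) (nat_lit 1415671781190971258003392541)) (C.cons (nat_lit 1034) (C.node (nat_lit 2) (nat_lit 6) (nat_lit 11) (C.cons (nat_lit 2628) (C.miq (nat_lit 1651620106) (nat_lit 2637934025021743168908103425)) (C.cons (nat_lit 2372) (C.miq (nat_lit 1093142454) (nat_lit 317953707441016882568890593)) (C.cons (nat_lit 2116) (C.node (nat_lit 6) (nat_lit 8) (nat_lit 11) (C.cons (nat_lit 2376) (C.miq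 (nat_lit 1805943664) (nat_lit 3733169148191526054607913353)) (C.cons (nat_lit 2368) (C.node (nat_lit 1) (nat_lit 8) (nat_lit 10) (C.cons (nat_lit 1314) (C.node (nat_lit 1) (nat_lit 2) (nat_lit 10) (C.cons (nat_lit 1542) (C.miq (nat_lit 1629993616) (nat_lit 2637918068731675500819582721)) (C.cons (nat_lit 1030) (C.node (nat_lit 1) (nat_lit 9) (nat_lit 10) (C.cons (nat_lit 1538) (C.node (nat_lit 2) (nat_lit 8) (nat_lit 11) (C.cons (nat_lit 2340) (C.miq (nat_lit 1264190081) (nat_lit 3752527345805752849110532359)) (C.cons (nat_lit 2308) (C.node (nat_lit 2) (nat_lit 5) (nat_lit 11) (C.cons (nat_lit 2596) (C.node (nat_lit 1) (nat_lit 9) (nat_lit 11) (C.cons (nat_lit 2578) (C.miq (nat_lit 692172039) (nat_lit 3116651014492794295728408801)) (C.cons (nat_lit 2562) (C.node (nat_lit 1) (nat_lit 4) (nat_lit 11) (C.cons (nat_lit 2322) (C.miq (nat_lit 1528074864) (nat_lit 2807136102499312705962443397)) (C.cons (nat_lit 2098) (C.node (nat_lit 4) (nat_lit 8) (nat_lit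 11) (C.cons (nat_lit 2320) (C.node (nat_lit 1) (nat_lit 3) (nat_lit 11) C.nil) C.nil)) (C.cons (nat_lit 2066) (C.miq (nat_lit 1528074864) (nat_lit 2497651092677967637237662341)) C.nil)))) C.nil))) (C.cons (nat_lit 2084) (C.node (nat_lit 2) (nat_lit 9) (nat_lit 11) (C.cons (nat_lit 2564) (C.node (nat_lit 3) (nat_lit 6) (nat_lit 11) (C.cons (nat_lit 2632) (C.node (nat_lit 4) (nat_lit 6) (nat_lit 11) C.nil) C.nil)) C.nil)) C.nil))) C.nil))) C.nil)) C.nil))) (C.cons (nat_lit 1282) (C.node (nat_lit 2) (nat_lit 8) (nat_lit 11) (C.cons (nat_lit 2340) (C.node (nat_lit 2) (nat_lit 9) (nat_lit 11) (C.cons (nat_lit 2564) (C.node (nat_lit 4) (nat_lit 5) (nat_lit 11) (C.cons (nat_lit 2098) (C.miq (nat_lit 2461337364) (nat_lit 2828896766703218351605417107)) (C.cons (nat_lit 2096) (C.node (nat_lit 3) (nat_lit 6) (nat_lit 11) (C.cons (nat_lit 2632) (C.node (nat_lit 4) (nat_lit 6) (nat_lit 11) (C.cons (nat_lit 2128) (C.node (nat_lit 3) (nat_lit 5) (nat_lit 11) C.nil)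 C.nil)) (C.cons (nat_lit 2120) (C.node (nat_lit 3) (nat_lit 9) (nat_lit 11) (C.cons (nat_lit 2600) (C.miq (nat_lit 1203309109) (nat_lit 3249602952077169548822316073)) C.nil)) C.nil))) C.nil))) C.nil)) (C.cons (nat_lit 2308) (C.node (nat_lit 2) (nat_lit 5) (nat_lit 11) (C.cons (nat_lit 2596) (C.node (nat_lit 1) (nat_lit 9) (nat_lit 11) (C.cons (nat_lit 2578) (C.miq (nat_lit 692172039) (nat_lit 3116651014492794295728408801)) (C.cons (nat_lit 2562) (C.node (nat_lit 1) (nat_lit 4) (nat_lit 11) (C.cons (nat_lit 2322) (C.miq (nat_lit 1528074864) (nat_lit 2807136102499312705962443397)) (C.cons (nat_lit 2098) (C.node (nat_lit 4) (nat_lit 8) (nat_lit 11) (C.cons (nat_lit 2320) (C.node (nat_lit 1) (nat_lit 3) (nat_lit 11) C.nil) C.nil)) (C.cons (nat_lit 2066) (C.miq (nat_lit 1528074864) (nat_lit 2497651092677967637237662341)) C.nil)))) C.nil))) (C.cons (nat_lit 2084) (C.node (nat_lit 2) (nat_lit 9) (nat_lit 11) (C.cons (nat_lit 2564) (C.node (nat_lit 3) (nat_lit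 6) (nat_lit 11) (C.cons (nat_lit 2632) (C.node (nat_lit 4) (nat_lit 6) (nat_lit 11) C.nil) C.nil)) C.nil)) C.nil))) C.nil))) C.nil))) C.nil))) C.nil)))) C.nil)))) (C.cons (nat_lit 3074) (C.node (nat_lit 6) (nat_lit 10) (nat_lit 11) (C.cons (nat_lit 3136) (C.node (nat_lit 2) (nat_lit 6) (nat_lit 11) (C.cons (nat_lit 2628) (C.node (nat_lit 3) (nat_lit 9) (nat_lit 11)
  (C.cons (nat_lit 2600) (C.miq (nat_lit 1203309109) (nat_lit 3249602952077169548822316073)) (C.cons (nat_lit 2568) (C.node (nat_lit 4) (nat_lit 6) (nat_lit 11) (C.cons (nat_lit 2130) (C.miq (nat_lit 1761915505) (nat_lit 678246677108402977481361542)) (C.cons (nat_lit 2128) (C.node (nat_lit 6) (nat_lit 7) (nat_lit 10) (C.cons (nat_lit 1728) (C.miq (nat_lit 2796845344) (nat_lit 2572615745763641244725871237)) (C.cons (nat_lit 1472) (C.miq (nat_lit 1790215984) (nat_lit 3733169147937072675720855945)) (C.cons (nat_lit 1216) (C.node (nat_lit 7) (nat_lit 9) (nat_lit 10) (C.cons (nat_lit 1696) (C.miq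 (nat_lit 2545179184) (nat_lit 2649975745696087840906871849)) (C.cons (nat_lit 1664) (C.node (nat_lit 2) (nat_lit 5) (nat_lit 11) (C.cons (nat_lit 2340) (C.node (nat_lit 4) (nat_lit 5) (nat_lit 11) (C.cons (nat_lit 2098) (C.miq (nat_lit 2461337364) (nat_lit 2828896766703218351605417107)) (C.cons (nat_lit 2096) (C.node (nat_lit 3) (nat_lit 5) (nat_lit 11) (C.cons (nat_lit 2090) (C.node (nat_lit 5) (nat_lit 9) (nat_lit 11) C.nil) C.nil)) C.nil))) (C.cons (nat_lit 2084) (C.node (nat_lit 2) (nat_lit 8) (nat_lit 11) C.nil) C.nil))) C.nil))) C.nil)))) C.nil))) C.nil))) (C.cons (nat_lit 2372) (C.miq (nat_lit 1093142454) (nat_lit 317953707441016882568890593)) (C.cons (nat_lit 2116) (C.node (nat_lit 2) (nat_lit 8) (nat_lit 11) (C.cons (nat_lit 2340) (C.node (nat_lit 2) (nat_lit 9) (nat_lit 11) (C.cons (nat_lit 2564) (C.node (nat_lit 4) (nat_lit 5) (nat_lit 11) (C.cons (nat_lit 2098) (C.miq (nat_lit 2461337364) (nat_lit 2828896766703218351605417107)) (C.cons (nat_lit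 2096) (C.node (nat_lit 4) (nat_lit 8) (nat_lit 11) (C.cons (nat_lit 2322) (C.node (nat_lit 3) (nat_lit 8) (nat_lit 11) (C.cons (nat_lit 2376) (C.miq (nat_lit 1805943664) (nat_lit 3733169148191526054607913353)) C.nil)) C.nil)) C.nil))) C.nil)) (C.cons (nat_lit 2308) (C.node (nat_lit 2) (nat_lit 5) (nat_lit 11) (C.cons (nat_lit 2596) (C.node (nat_lit 3) (nat_lit 9) (nat_lit 11) (C.cons (nat_lit 2632) (C.node (nat_lit 1) (nat_lit 9) (nat_lit 11) (C.cons (nat_lit 2578) (C.miq (nat_lit 692172039) (nat_lit 3116651014492794295728408801)) (C.cons (nat_lit 2562) (C.node (nat_lit 4) (nat_lit 9) (nat_lit 11) C.nil) C.nil))) (C.cons (nat_lit 2568) (C.node (nat_lit 1) (nat_lit 9) (nat_lit 11) (C.cons (nat_lit 2642) (C.miq (nat_lit 692172039) (nat_lit 3194022266948130562909604065)) (C.cons (nat_lit 2626) (C.node (nat_lit 4) (nat_lit 6) (nat_lit 11) C.nil) (C.cons (nat_lit 2578) (C.miq (nat_lit 692172039) (nat_lit 3116651014492794295728408801)) C.nil)))) C.nil)))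 (C.cons (nat_lit 2084) (C.node (nat_lit 2) (nat_lit 9) (nat_lit 11) (C.cons (nat_lit 2564) (C.node (nat_lit 3) (nat_lit 9) (nat_lit 11) C.nil) C.nil)) C.nil))) C.nil))) C.nil)))) C.nil)) C.nil))) (C.cons (nat_lit 2184) (C.node (nat_lit 7) (nat_lit 10) (nat_lit 11) (C.cons (nat_lit 3200) (C.ref (nat_lit 298) (nat_lit 198128827013136)) C.nil)) C.nil))) C.nil))) C.nil))) C.nil))) List.nil)

theorem ok12_307 : okL par12 (nat_lit 308) c12_307 (nat_lit 307) = true := by decide +kernel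

noncomputable def c12_308 : List C :=
  (List.cons (C.node (nat_lit 6) (nat_lit 7) (nat_lit 10) (C.cons (nat_lit 1728) (C.node (nat_lit 3) (nat_lit 9) (nat_lit 10) (C.cons (nat_lit 1560) (C.miq (nat_lit 1470696244) (nat_lit 2089034165557310965371373597)) (C.cons (nat_lit 1548) (C.miq (nat_lit 1782282528) (nat_lit 3878275959259405342769742469)) (C.cons (nat_lit 1544) (C.node (nat_lit 4) (nat_lit 9) (nat_lit 10) (C.cons (nat_lit 1556) (C.miq (nat_lit 1783331104) (nat_lit 3733204860905649876164739717)) (C.cons (nat_lit 1552) (C.node (nat_lit 4) (nat_lit 6) (nat_lit 7) (C.cons (nat_lit 216) (C.miq (nat_lit 2322991924) (nat_lit 2089030033927991217826039837)) (C.cons (nat_lit 212) (C.miq (nat_lit 1269178519) (nat_lit 3791195281605860742014173829)) (C.cons (nat_lit 208) (C.node (nat_lit 3) (nat_lit 4) (nat_lit 7) (C.cons (nat_lit 664) (C.node (nat_lit 3) (nat_lit 4) (nat_lit 10) (C.cons (nat_lit 1304) (C.miq (nat_lit 1731464104) (nat_lit 802732961416673012527664897))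 (C.cons (nat_lit 1112) (C.node (nat_lit 1) (nat_lit 10) (nat_lit 11) (C.cons (nat_lit 3110) (C.miq (nat_lit 2275476402) (nat_lit 1415656986373055593499199517)) (C.cons (nat_lit 3106) (C.node (nat_lit 2) (nat_lit 10) (nat_lit 11) (C.cons (nat_lit 3076) (C.node (nat_lit 3) (nat_lit 5) (nat_lit 11) (C.cons (nat_lit 2344) (C.miq (nat_lit 461874480) (nat_lit 2940129195314359811862758441)) (C.cons (nat_lit 2088) (C.node (nat_lit 1) (nat_lit 6) (nat_lit 10) (C.cons (nat_lit 1346) (C.node (nat_lit 5) (nat_lit 6) (nat_lit 10) (C.cons (nat_lit 1120) (C.node (nat_lit 1) (nat_lit 3) (nat_lit 10) (C.cons (nat_lit 1038) (C.node (nat_lit 1) (nat_lit 9) (nat_lit 10) (C.cons (nat_lit 1538) (C.node (nat_lit 3) (nat_lit 8) (nat_lit 10) (C.cons (nat_lit 1288) (C.node (nat_lit 6) (nat_lit 7) (nat_lit 8) (C.cons (nat_lit 452) (C.miq (nat_lit 309756058) (nat_lit 546459299857366289265725185)) (C.cons (nat_lit 448) (C.node (nat_lit 1) (nat_lit 2) (nat_lit 7) (C.cons (nat_lit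 198) (C.node (nat_lit 1) (nat_lit 3) (nat_lit 7) (C.cons (nat_lit 170) (C.miq (nat_lit 2316503895) (nat_lit 1254872251411564776923990241)) (C.cons (nat_lit 138) (C.miq (nat_lit 1394018854) (nat_lit 166873692855873676306154565)) C.nil))) (C.cons (nat_lit 166) (C.miq (nat_lit 1629988873) (nat_lit 200713562408654261377634049)) (C.cons (nat_lit 134) (C.miq (nat_lit 1629988873) (nat_lit 162027936180986127787036417)) C.nil)))) C.nil))) C.nil)) C.nil)) (C.cons (nat_lit 1034) (C.miq (nat_lit 564332644) (nat_lit 1250067611443001361358651729)) C.nil))) C.nil)) (C.cons (nat_lit 1090) (C.node (nat_lit 1) (nat_lit 8) (nat_lit 10) (C.cons (nat_lit 1290) (C.miq (nat_lit 2276536410) (nat_lit 2633064231531146856343143465)) (C.cons (nat_lit 1282) (C.node (nat_lit 1) (nat_lit 3) (nat_lit 10) (C.cons (nat_lit 1038) (C.miq (nat_lit 1779974944) (nat_lit 1549849117611712074387752989)) (C.cons (nat_lit 1034) (C.node (nat_lit 1) (nat_lit 2) (nat_lit 10) (C.cons (nat_lit 1542)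 (C.node (nat_lit 5) (nat_lit 9) (nat_lit 10) (C.cons (nat_lit 1568) (C.node (nat_lit 1) (nat_lit 7) (nat_lit 9) (C.cons (nat_lit 930) (C.miq (nat_lit 659656890) (nat_lit 1124329457302527915247931137)) (C.cons (nat_lit 898) (C.miq (nat_lit 1108947079) (nat_lit 1864175863068447786802479497)) (C.cons (nat_lit 674) (C.miq (nat_lit 659656890) (nat_lit 814844447481182846523150081)) (C.cons (nat_lit 642) (C.node (nat_lit 2) (nat_lit 4) (nat_lit 7) (C.cons (nat_lit 436) (C.miq (nat_lit 309700875) (nat_lit 527148953373108446529916673)) (C.cons (nat_lit 404) (C.miq (nat_lit 2174165044) (nat_lit 776137828751227874006534173)) (C.cons (nat_lit 180) (C.miq (nat_lit 309700875) (nat_lit 217663943551763377805135617)) (C.cons (nat_lit 148) (C.node (nat_lit 2) (nat_lit 7) (nat_lit 10) (C.cons (nat_lit 1444) (C.miq (nat_lit 309700875) (nat_lit 1745746179544654654633742081)) (C.cons (nat_lit 1412) (C.miq (nat_lit 833095975) (nat_lit 1549850150463593605578883717)) (C.cons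 (nat_lit 1188) (C.miq (nat_lit 309700875) (nat_lit 1436261169723309585908961025)) (C.cons (nat_lit 1156)
  (C.node (nat_lit 1) (nat_lit 2) (nat_lit 11) C.nil) C.nil))))) C.nil))))) C.nil))))) C.nil)) (C.cons (nat_lit 1030) (C.node (nat_lit 1) (nat_lit 9) (nat_lit 10) (C.cons (nat_lit 1538) (C.node (nat_lit 4) (nat_lit 5) (nat_lit 11) C.nil) C.nil)) C.nil))) C.nil))) C.nil))) C.nil))) C.nil))) C.nil)) (C.cons (nat_lit 3078) (C.miq (nat_lit 2275476402) (nat_lit 1415656986373055593497102365)) (C.cons (nat_lit 3074) (C.node (nat_lit 2) (nat_lit 10) (nat_lit 11) (C.cons (nat_lit 3108) (C.node (nat_lit 5) (nat_lit 7) (nat_lit 10) (C.cons (nat_lit 1440) (C.miq (nat_lit 629193331) (nat_lit 349417876630899338624175240)) (C.cons (nat_lit 1184) (C.node (nat_lit 2) (nat_lit 3) (nat_lit 7) (C.cons (nat_lit 206) (C.miq (nat_lit 2322664242) (nat_lit 1415656987343581313007224861)) (C.cons (nat_lit 204) (C.miq (nat_lit 2468770826) (nat_lit 246652743362052026999833747))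 (C.cons (nat_lit 174) (C.miq (nat_lit 2322664242) (nat_lit 1415656987343581313005127709)) (C.cons (nat_lit 172) (C.miq (nat_lit 2320960291) (nat_lit 1431375421075300645021157405)) (C.cons (nat_lit 142) (C.miq (nat_lit 2322664242) (nat_lit 1415656987343581313003030557)) (C.cons (nat_lit 140) (C.node (nat_lit 2) (nat_lit 4) (nat_lit 10) (C.cons (nat_lit 1300) (C.node (nat_lit 2) (nat_lit 7) (nat_lit 10) (C.cons (nat_lit 1156) (C.node (nat_lit 4) (nat_lit 5) (nat_lit 10) (C.cons (nat_lit 1072) (C.node (nat_lit 7) (nat_lit 8) (nat_lit 10) (C.cons (nat_lit 1408) (C.node (nat_lit 2) (nat_lit 3) (nat_lit 10) (C.cons (nat_lit 1038) (C.miq (nat_lit 906077314) (nat_lit 81017177947530286743356692)) C.nil)) C.nil)) C.nil)) C.nil)) (C.cons (nat_lit 1044) (C.node (nat_lit 2) (nat_lit 7) (nat_lit 10) (C.cons (nat_lit 1412) (C.node (nat_lit 2) (nat_lit 6) (nat_lit 7) (C.cons (nat_lit 198) (C.miq (nat_lit 278276263) (nat_lit 697553850447012044254217604)) (C.cons (nat_lit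 196) (C.node (nat_lit 2) (nat_lit 9) (nat_lit 10) (C.cons (nat_lit 1542) (C.miq (nat_lit 309566080) (nat_lit 169259262827239113161772801)) (C.cons (nat_lit 1540) (C.node (nat_lit 1) (nat_lit 2) (nat_lit 7) (C.cons (nat_lit 166) (C.node (nat_lit 2) (nat_lit 4) (nat_lit 7) C.nil) C.nil)) C.nil))) C.nil))) (C.cons (nat_lit 1156) (C.node (nat_lit 7) (nat_lit 8) (nat_lit 10) (C.cons (nat_lit 1408) (C.node (nat_lit 2) (nat_lit 8) (nat_lit 10) (C.cons (nat_lit 1292) (C.miq (nat_lit 1379383936) (nat_lit 169291545070157403009912577)) C.nil)) C.nil)) C.nil))) C.nil))) C.nil))))))) C.nil))) (C.cons (nat_lit 3076) (C.node (nat_lit 5) (nat_lit 10) (nat_lit 11) (C.cons (nat_lit 3104) (C.node (nat_lit 3) (nat_lit 6) (nat_lit 7) (C.cons (nat_lit 206) (C.miq (nat_lit 2322664242) (nat_lit 1415656987343581313007224861)) (C.cons (nat_lit 204) (C.miq (nat_lit 2468770826) (nat_lit 246652743362052026999833747)) (C.cons (nat_lit 202) (C.node (nat_lit 3) (nat_lit 6) (nat_lit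 11) (C.cons (nat_lit 2376) (C.miq (nat_lit 1935977344) (nat_lit 1344347113451759886310379265)) (C.cons (nat_lit 2120) (C.node (nat_lit 2) (nat_lit 3) (nat_lit 6) (C.cons (nat_lit 876) (C.miq (nat_lit 561414313) (nat_lit 244219174983996611252719361)) (C.cons (nat_lit 844) (C.miq (nat_lit 561414313) (nat_lit 244218584688186252547067649)) (C.cons (nat_lit 620) (C.miq (nat_lit 328496720) (nat_lit 802748345418284694101887201)) (C.cons (nat_lit 588) (C.node (nat_lit 1) (nat_lit 3) (nat_lit 10) (C.cons (nat_lit 1290) (C.miq (nat_lit 2204868976) (nat_lit 2562993591890104556453954707)) (C.cons (nat_lit 1038) (C.miq (nat_lit 2251424929) (nat_lit 710853233521955183562458259)) (C.cons (nat_lit 1034) (C.node (nat_lit 1) (nat_lit 2) (nat_lit 3) (C.cons (nat_lit 46) (C.node (nat_lit 1) (nat_lit 2) (nat_lit 7) (C.cons (nat_lit 134) (C.node (nat_lit 2) (nat_lit 3) (nat_lit 7) (C.cons (nat_lit 140) (C.node (nat_lit 3) (nat_lit 5) (nat_lit 7) (C.cons (nat_lit 168) (C.node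 (nat_lit 1) (nat_lit 3) (nat_lit 4) (C.cons (nat_lit 282) (C.miq (nat_lit 2190676084) (nat_lit 710853583989261429993112723)) C.nil)) C.nil)) C.nil)) C.nil)) (C.cons (nat_lit 14) (C.node (nat_lit 1) (nat_lit 2) (nat_lit 7)
  (C.cons (nat_lit 166) (C.node (nat_lit 2) (nat_lit 3) (nat_lit 7) (C.cons (nat_lit 140) (C.node (nat_lit 3) (nat_lit 5) (nat_lit 7) (C.cons (nat_lit 168) (C.node (nat_lit 2) (nat_lit 3) (nat_lit 5) (C.cons (nat_lit 44) (C.node (nat_lit 2) (nat_lit 3) (nat_lit 8) C.nil) C.nil)) C.nil)) C.nil)) (C.cons (nat_lit 134) (C.node (nat_lit 2) (nat_lit 3) (nat_lit 7) (C.cons (nat_lit 172) (C.node (nat_lit 2) (nat_lit 3) (nat_lit 8) (C.cons (nat_lit 1292) (C.miq (nat_lit 1537372291) (nat_lit 3718658994614389138556453257)) (C.cons (nat_lit 268) (C.node (nat_lit 2) (nat_lit 3) (nat_lit 10) C.nil) C.nil))) (C.cons (nat_lit 140) (C.node (nat_lit 3) (nat_lit 5) (nat_lit 7) (C.cons (nat_lit 168) (C.node (nat_lit 2) (nat_lit 3) (nat_lit 5) (C.cons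 (nat_lit 44) (C.node (nat_lit 2) (nat_lit 3) (nat_lit 8) C.nil) C.nil)) C.nil)) C.nil))) C.nil))) C.nil))) C.nil)))) (C.cons (nat_lit 364) (C.miq (nat_lit 2468770826) (nat_lit 440080874500392694952821907)) (C.cons (nat_lit 332) (C.miq (nat_lit 2468770826) (nat_lit 401395248272724561362224275)) (C.cons (nat_lit 108) (C.miq (nat_lit 2468770826) (nat_lit 130595864679047626228040851)) (C.cons (nat_lit 76) (C.miq (nat_lit 2468770826) (nat_lit 91910238451379492637443219)) C.nil))))))))) C.nil))) (C.cons (nat_lit 200) (C.node (nat_lit 1) (nat_lit 3) (nat_lit 7) (C.cons (nat_lit 174) (C.miq (nat_lit 2322664242) (nat_lit 1415656987343581313005127709)) (C.cons (nat_lit 170) (C.node (nat_lit 2) (nat_lit 3) (nat_lit 7) (C.cons (nat_lit 140) (C.node (nat_lit 3) (nat_lit 5) (nat_lit 11) (C.cons (nat_lit 2344) (C.miq (nat_lit 448098435) (nat_lit 3752508880359925183762923913)) (C.cons (nat_lit 2088) (C.node (nat_lit 1) (nat_lit 2) (nat_lit 7) (C.cons (nat_lit 198)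 (C.node (nat_lit 6) (nat_lit 7) (nat_lit 8) (C.cons (nat_lit 448) (C.node (nat_lit 5) (nat_lit 7) (nat_lit 9) (C.cons (nat_lit 928) (C.miq (nat_lit 412557478) (nat_lit 1121886813131746884576085061)) C.nil)) C.nil)) (C.cons (nat_lit 134) (C.node (nat_lit 1) (nat_lit 7) (nat_lit 9) (C.cons (nat_lit 898) (C.miq (nat_lit 1729276288) (nat_lit 162016222606025490604429057)) C.nil)) C.nil))) C.nil))) C.nil)) (C.cons (nat_lit 142) (C.miq (nat_lit 2322664242) (nat_lit 1415656987343581313003030557)) (C.cons (nat_lit 138) (C.node (nat_lit 2) (nat_lit 3) (nat_lit 7) (C.cons (nat_lit 172) (C.node (nat_lit 5) (nat_lit 7) (nat_lit 10) (C.cons (nat_lit 1440) (C.miq (nat_lit 732246151) (nat_lit 3752508917508429660022636937)) (C.cons (nat_lit 1184) (C.node (nat_lit 1) (nat_lit 2) (nat_lit 7) (C.cons (nat_lit 198) (C.node (nat_lit 6) (nat_lit 7) (nat_lit 8) (C.cons (nat_lit 448) (C.node (nat_lit 2) (nat_lit 6) (nat_lit 11) C.nil) C.nil)) (C.cons (nat_lit 134) (C.node (nat_lit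 2) (nat_lit 8) (nat_lit 11) C.nil) C.nil))) C.nil))) (C.cons (nat_lit 140) (C.node (nat_lit 3) (nat_lit 5) (nat_lit 7) (C.cons (nat_lit 168) (C.node (nat_lit 3) (nat_lit 6) (nat_lit 11) (C.cons (nat_lit 2378) (C.miq (nat_lit 1935977344) (nat_lit 1344347113451759894900313857)) (C.cons (nat_lit 2376) (C.miq (nat_lit 1935977344) (nat_lit 1344347113451759886310379265)) (C.cons (nat_lit 2122) (C.node (nat_lit 1) (nat_lit 2) (nat_lit 7) C.nil) (C.cons (nat_lit 2120) (C.node (nat_lit 1) (nat_lit 2) (nat_lit 7) (C.cons (nat_lit 134) (C.node (nat_lit 1) (nat_lit 6) (nat_lit 7) (C.cons (nat_lit 194) (C.node (nat_lit 2) (nat_lit 6) (nat_lit 7) C.nil) C.nil)) C.nil)) C.nil))))) C.nil)) C.nil))) C.nil))))) C.nil))))) C.nil)) C.nil))) C.nil))))) (C.cons (nat_lit 1048) (C.node (nat_lit 2) (nat_lit 3) (nat_lit 9) (C.cons (nat_lit 876) (C.miq (nat_lit 1665831431) (nat_lit 1266986135176471745519616645)) (C.cons (nat_lit 844) (C.miq (nat_lit 1665831431) (nat_lit 1266986135167464546264875653))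 (C.cons (nat_lit 812) (C.miq (nat_lit 1764927296) (nat_lit 981667928304743066151748755)) (C.cons (nat_lit 780) (C.miq (nat_lit 1764927296) (nat_lit 942982302077074932561151123)) (C.cons (nat_lit 620) (C.miq (nat_lit 1665831431) (nat_lit 1266986135104414151481688709)) (C.cons (nat_lit 588)
  (C.miq (nat_lit 1665831431) (nat_lit 1266986135095406952226947717)) (C.cons (nat_lit 556) (C.miq (nat_lit 1764927296) (nat_lit 672182918483397997426967699)) (C.cons (nat_lit 524) (C.miq (nat_lit 1764927296) (nat_lit 633497292255729863836370067)) C.nil))))))))) C.nil)))) (C.cons (nat_lit 184) (C.miq (nat_lit 1235439799) (nat_lit 1866584859843820967418136801)) (C.cons (nat_lit 152) (C.node (nat_lit 3) (nat_lit 7) (nat_lit 9) (C.cons (nat_lit 680) (C.node (nat_lit 2) (nat_lit 3) (nat_lit 7) (C.cons (nat_lit 206) (C.miq (nat_lit 2322664242) (nat_lit 1415656987343581313007224861)) (C.cons (nat_lit 204) (C.miq (nat_lit 1000743063) (nat_lit 3791195134031908152337760901))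 (C.cons (nat_lit 142) (C.miq (nat_lit 2322664242) (nat_lit 1415656987343581313003030557)) (C.cons (nat_lit 140) (C.node (nat_lit 1) (nat_lit 3) (nat_lit 7) (C.cons (nat_lit 202) (C.node (nat_lit 1) (nat_lit 7) (nat_lit 9) (C.cons (nat_lit 898) (C.miq (nat_lit 644942488) (nat_lit 244207867363506050209812225)) (C.cons (nat_lit 642) (C.node (nat_lit 3) (nat_lit 6) (nat_lit 11) (C.cons (nat_lit 2376) (C.miq (nat_lit 1194724024) (nat_lit 244209232444528909548523265)) (C.cons (nat_lit 2120) (C.node (nat_lit 1) (nat_lit 2) (nat_lit 7) (C.cons (nat_lit 166) (C.node (nat_lit 1) (nat_lit 7) (nat_lit 8) (C.cons (nat_lit 386) (C.node (nat_lit 2) (nat_lit 4) (nat_lit 7) (C.cons (nat_lit 404) (C.node (nat_lit 2) (nat_lit 6) (nat_lit 7) C.nil) C.nil)) C.nil)) (C.cons (nat_lit 134) (C.node (nat_lit 1) (nat_lit 5) (nat_lit 7) (C.cons (nat_lit 418) (C.node (nat_lit 2) (nat_lit 6) (nat_lit 7) (C.cons (nat_lit 452) (C.node (nat_lit 7) (nat_lit 8) (nat_lit 10) C.nil) C.nil))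 C.nil)) C.nil))) C.nil))) C.nil))) (C.cons (nat_lit 138) (C.node (nat_lit 3) (nat_lit 6) (nat_lit 7) (C.cons (nat_lit 200) (C.node (nat_lit 1) (nat_lit 7) (nat_lit 9) (C.cons (nat_lit 898) (C.node (nat_lit 4) (nat_lit 7) (nat_lit 9) C.nil) (C.cons (nat_lit 642) (C.node (nat_lit 4) (nat_lit 7) (nat_lit 9) (C.cons (nat_lit 656) (C.node (nat_lit 7) (nat_lit 8) (nat_lit 9) C.nil) C.nil)) C.nil))) C.nil)) C.nil))) C.nil))))) (C.cons (nat_lit 648) (C.node (nat_lit 4) (nat_lit 7) (nat_lit 9) (C.cons (nat_lit 912) (C.node (nat_lit 1) (nat_lit 7) (nat_lit 9) (C.cons (nat_lit 674) (C.node (nat_lit 1) (nat_lit 7) (nat_lit 8) (C.cons (nat_lit 450) (C.miq (nat_lit 424178950) (nat_lit 1102548648713091520431982817)) (C.cons (nat_lit 386) (C.node (nat_lit 1) (nat_lit 9) (nat_lit 10) (C.cons (nat_lit 1542) (C.miq (nat_lit 558934390) (nat_lit 42332566411821894699386560)) (C.cons (nat_lit 1538) (C.node (nat_lit 1) (nat_lit 2) (nat_lit 7) (C.cons (nat_lit 206) (C.miq (nat_lit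 2803413792) (nat_lit 466716221218206589892626461)) (C.cons (nat_lit 198) (C.miq (nat_lit 2534975008) (nat_lit 466716220801623590001116229)) (C.cons (nat_lit 142) (C.miq (nat_lit 2803413792) (nat_lit 466716221218206315014719517)) (C.cons (nat_lit 134) (C.node (nat_lit 2) (nat_lit 4) (nat_lit 7) (C.cons (nat_lit 180) (C.miq (nat_lit 829557076) (nat_lit 162034373863015711788761649)) C.nil)) C.nil))))) C.nil))) C.nil))) (C.cons (nat_lit 642) (C.node (nat_lit 5) (nat_lit 7) (nat_lit 9) (C.cons (nat_lit 672) (C.node (nat_lit 2) (nat_lit 4) (nat_lit 7) (C.cons (nat_lit 180) (C.node (nat_lit 2) (nat_lit 7) (nat_lit 10) (C.cons (nat_lit 1412) (C.miq (nat_lit 1352812935) (nat_lit 1321359241410646914669740944)) C.nil)) (C.cons (nat_lit 148) (C.node (nat_lit 4) (nat_lit 5) (nat_lit 7) (C.cons (nat_lit 176) (C.node (nat_lit 1) (nat_lit 7) (nat_lit 8) C.nil) C.nil)) C.nil))) C.nil)) C.nil))) (C.cons (nat_lit 656) (C.node (nat_lit 3) (nat_lit 4) (nat_lit 10) (C.cons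 (nat_lit 1304) (C.miq (nat_lit 1731464104) (nat_lit 183762941773982875078102785)) (C.cons (nat_lit 1112) (C.node (nat_lit 2) (nat_lit 3) (nat_lit 9) (C.cons (nat_lit 876) (C.miq (nat_lit 1200818786) (nat_lit 783422245327335419437384773)) (C.cons (nat_lit 844) (C.miq (nat_lit 1200818786) (nat_lit 783422245327335419435287621)) (C.cons (nat_lit 812) (C.miq (nat_lit 1663673351) (nat_lit 981679641813847354758202515))
  (C.cons (nat_lit 780) (C.miq (nat_lit 1663673351) (nat_lit 942994015586179221167604883)) (C.cons (nat_lit 620) (C.miq (nat_lit 1200818786) (nat_lit 783422245327335419420607557)) (C.cons (nat_lit 588) (C.miq (nat_lit 1200818786) (nat_lit 783422245327335419418510405)) (C.cons (nat_lit 556) (C.miq (nat_lit 1663673351) (nat_lit 672194631992502286033421459)) (C.cons (nat_lit 524) (C.miq (nat_lit 1663673351) (nat_lit 633509005764834152442823827)) C.nil))))))))) (C.cons (nat_lit 1048) (C.node (nat_lit 4) (nat_lit 6) (nat_lit 10) (C.cons (nat_lit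 1136) (C.node (nat_lit 2) (nat_lit 4) (nat_lit 10) (C.cons (nat_lit 1300) (C.node (nat_lit 2) (nat_lit 7) (nat_lit 10) (C.cons (nat_lit 1188) (C.miq (nat_lit 654878052) (nat_lit 475131828210247122891637872)) (C.cons (nat_lit 1156) (C.node (nat_lit 4) (nat_lit 7) (nat_lit 8) (C.cons (nat_lit 432) (C.miq (nat_lit 544777812) (nat_lit 475131828183507000110351472)) (C.cons (nat_lit 400) (C.node (nat_lit 2) (nat_lit 10) (nat_lit 11) (C.cons (nat_lit 3110) (C.miq (nat_lit 610641931) (nat_lit 1373397100822206896448540417)) (C.cons (nat_lit 3108) (C.miq (nat_lit 610641931) (nat_lit 1373397063928718749029437185)) (C.cons (nat_lit 3078) (C.miq (nat_lit 2275476402) (nat_lit 1415656986373055593497102365)) (C.cons (nat_lit 3076) (C.node (nat_lit 1) (nat_lit 10) (nat_lit 11) (C.cons (nat_lit 3106) (C.node (nat_lit 3) (nat_lit 5) (nat_lit 11) (C.cons (nat_lit 2344) (C.miq (nat_lit 461874480) (nat_lit 2940129195314359811862758441)) (C.cons (nat_lit 2088) (C.node (nat_lit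 4) (nat_lit 5) (nat_lit 11) (C.cons (nat_lit 2352) (C.miq (nat_lit 643080376) (nat_lit 1373363712157176477042872065)) (C.cons (nat_lit 2096) (C.node (nat_lit 2) (nat_lit 4) (nat_lit 7) C.nil) C.nil))) C.nil))) (C.cons (nat_lit 3074) (C.node (nat_lit 5) (nat_lit 10) (nat_lit 11) (C.cons (nat_lit 3104) (C.node (nat_lit 5) (nat_lit 7) (nat_lit 10) (C.cons (nat_lit 1440) (C.node (nat_lit 2) (nat_lit 8) (nat_lit 11) (C.cons (nat_lit 2308) (C.miq (nat_lit 1479244352) (nat_lit 2790242721525173227089626259)) C.nil)) C.nil)) C.nil)) C.nil))) C.nil))))) C.nil))) C.nil))) (C.cons (nat_lit 1044) (C.node (nat_lit 4) (nat_lit 8) (nat_lit 10) (C.cons (nat_lit 1296) (C.node (nat_lit 1) (nat_lit 10) (nat_lit 11) (C.cons (nat_lit 3110) (C.miq (nat_lit 2275476402) (nat_lit 1415656986373055593499199517)) (C.cons (nat_lit 3106) (C.node (nat_lit 2) (nat_lit 10) (nat_lit 11) (C.cons (nat_lit 3076) (C.node (nat_lit 3) (nat_lit 5) (nat_lit 11) (C.cons (nat_lit 2344) (C.miq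 (nat_lit 461874480) (nat_lit 2940129195314359811862758441)) (C.cons (nat_lit 2088) (C.node (nat_lit 1) (nat_lit 9) (nat_lit 10) (C.cons (nat_lit 1542) (C.node (nat_lit 5) (nat_lit 9) (nat_lit 10) (C.cons (nat_lit 1568) (C.node (nat_lit 1) (nat_lit 7) (nat_lit 9) (C.cons (nat_lit 930) (C.miq (nat_lit 659656890) (nat_lit 1124329457302527915247931137)) (C.cons (nat_lit 898) (C.miq (nat_lit 1980275233) (nat_lit 407424566872701677225838086)) (C.cons (nat_lit 674) (C.miq (nat_lit 659656890) (nat_lit 814844447481182846523150081)) (C.cons (nat_lit 642) (C.node (nat_lit 5) (nat_lit 9) (nat_lit 11) (C.cons (nat_lit 2596) (C.node (nat_lit 5) (nat_lit 7) (nat_lit 9) C.nil) C.nil)) C.nil))))) C.nil)) (C.cons (nat_lit 1538) (C.node (nat_lit 1) (nat_lit 2) (nat_lit 10) (C.cons (nat_lit 1038) (C.node (nat_lit 1) (nat_lit 6) (nat_lit 10) (C.cons (nat_lit 1346) (C.miq (nat_lit 1781825824) (nat_lit 1266960475887753992175681799)) (C.cons (nat_lit 1090) (C.node (nat_lit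 1) (nat_lit 8) (nat_lit 10) C.nil) C.nil))) (C.cons (nat_lit 1030) (C.node (nat_lit 4) (nat_lit 5) (nat_lit 11) C.nil) C.nil))) C.nil))) C.nil))) C.nil)) (C.cons (nat_lit 3078) (C.miq (nat_lit 2275476402) (nat_lit 1415656986373055593497102365)) (C.cons (nat_lit 3074) (C.node (nat_lit 2) (nat_lit 10) (nat_lit 11) (C.cons (nat_lit 3108) (C.node (nat_lit 5) (nat_lit 7) (nat_lit 10) (C.cons (nat_lit 1440) (C.miq (nat_lit 629193331) (nat_lit 349417876630899338624175240)) (C.cons (nat_lit 1184) (C.node (nat_lit 2) (nat_lit 3) (nat_lit 7)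
  (C.cons (nat_lit 206) (C.miq (nat_lit 2322664242) (nat_lit 1415656987343581313007224861)) (C.cons (nat_lit 204) (C.miq (nat_lit 1000743063) (nat_lit 3791195134031908152337760901)) (C.cons (nat_lit 174) (C.miq (nat_lit 2322664242) (nat_lit 1415656987343581313005127709)) (C.cons (nat_lit 172) (C.miq (nat_lit 2320960291) (nat_lit 1431375421075300645021157405)) (C.cons (nat_lit 142) (C.miq (nat_lit 2322664242) (nat_lit 1415656987343581313003030557)) (C.cons (nat_lit 140) (C.node (nat_lit 2) (nat_lit 7) (nat_lit 10) (C.cons (nat_lit 1412) (C.node (nat_lit 2) (nat_lit 9) (nat_lit 10) (C.cons (nat_lit 1542) (C.miq (nat_lit 309566080) (nat_lit 169259262827239113161772801)) C.nil)) C.nil)) C.nil))))))) C.nil))) (C.cons (nat_lit 3076) (C.node (nat_lit 5) (nat_lit 10) (nat_lit 11) (C.cons (nat_lit 3104) (C.node (nat_lit 3) (nat_lit 6) (nat_lit 7) (C.cons (nat_lit 206) (C.miq (nat_lit 2322664242) (nat_lit 1415656987343581313007224861)) (C.cons (nat_lit 204) (C.miq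 (nat_lit 1000743063) (nat_lit 3791195134031908152337760901)) (C.cons (nat_lit 202) (C.node (nat_lit 1) (nat_lit 6) (nat_lit 10) (C.cons (nat_lit 1346) (C.miq (nat_lit 660670888) (nat_lit 244207867237405260672798465)) (C.cons (nat_lit 1090) (C.node (nat_lit 3) (nat_lit 6) (nat_lit 10) (C.cons (nat_lit 1096) (C.node (nat_lit 6) (nat_lit 8) (nat_lit 10) C.nil) C.nil)) C.nil))) (C.cons (nat_lit 200) (C.node (nat_lit 2) (nat_lit 7) (nat_lit 10) (C.cons (nat_lit 1444) (C.node (nat_lit 2) (nat_lit 4) (nat_lit 7) (C.cons (nat_lit 148) (C.node (nat_lit 1) (nat_lit 5) (nat_lit 10) C.nil) C.nil)) (C.cons (nat_lit 1156) (C.node (nat_lit 5) (nat_lit 7) (nat_lit 10) C.nil) C.nil))) C.nil))))) C.nil)) C.nil))) C.nil))))) C.nil)) C.nil))) (C.cons (nat_lit 1104) (C.node (nat_lit 1) (nat_lit 10) (nat_lit 11) (C.cons (nat_lit 3110) (C.miq (nat_lit 2275476402) (nat_lit 1415656986373055593499199517)) (C.cons (nat_lit 3106) (C.node (nat_lit 2) (nat_lit 10) (nat_lit 11) (C.cons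 (nat_lit 3076) (C.node (nat_lit 3) (nat_lit 5) (nat_lit 11) (C.cons (nat_lit 2344) (C.miq (nat_lit 461874480) (nat_lit 2940129195314359811862758441)) (C.cons (nat_lit 2088) (C.node (nat_lit 1) (nat_lit 9) (nat_lit 10) (C.cons (nat_lit 1542) (C.node (nat_lit 5) (nat_lit 9) (nat_lit 10) (C.cons (nat_lit 1568) (C.node (nat_lit 1) (nat_lit 7) (nat_lit 9) (C.cons (nat_lit 930) (C.miq (nat_lit 659656890) (nat_lit 1124329457302527915247931137)) (C.cons (nat_lit 898) (C.miq (nat_lit 1980275233) (nat_lit 407424566872701677225838086)) (C.cons (nat_lit 674) (C.miq (nat_lit 659656890) (nat_lit 814844447481182846523150081)) (C.cons (nat_lit 642) (C.node (nat_lit 1) (nat_lit 8) (nat_lit 10) (C.cons (nat_lit 1354) (C.miq (nat_lit 2276536410) (nat_lit 2633065412122767573754446889)) (C.cons (nat_lit 1346) (C.miq (nat_lit 1728620833) (nat_lit 475132676912464008743159302)) (C.cons (nat_lit 1290) (C.miq (nat_lit 2276536410) (nat_lit 2633064231531146856343143465)) (C.cons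 (nat_lit 1282) (C.node (nat_lit 2) (nat_lit 7) (nat_lit 10) (C.cons (nat_lit 1444) (C.miq (nat_lit 309700875) (nat_lit 1745746179544654654633742081)) (C.cons (nat_lit 1412) (C.miq (nat_lit 833095975) (nat_lit 1549850150463593605578883717)) (C.cons (nat_lit 1188) (C.miq (nat_lit 309700875) (nat_lit 1436261169723309585908961025)) (C.cons (nat_lit 1156) (C.node (nat_lit 1) (nat_lit 2) (nat_lit 11) C.nil) C.nil))))) C.nil))))) C.nil))))) C.nil)) (C.cons (nat_lit 1538) (C.node (nat_lit 1) (nat_lit 2) (nat_lit 10) (C.cons (nat_lit 1038) (C.node (nat_lit 1) (nat_lit 6) (nat_lit 10) (C.cons (nat_lit 1346) (C.miq (nat_lit 1781825824) (nat_lit 1266960475887753992175681799)) (C.cons (nat_lit 1090) (C.node (nat_lit 1) (nat_lit 8) (nat_lit 10) (C.cons (nat_lit 1282) (C.node (nat_lit 4) (nat_lit 5) (nat_lit 11) C.nil) C.nil)) C.nil))) (C.cons (nat_lit 1030) (C.node (nat_lit 2) (nat_lit 3) (nat_lit 10) (C.cons (nat_lit 1292) (C.node (nat_lit 5) (nat_lit 6) (nat_lit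 10) (C.cons (nat_lit 1376) (C.miq (nat_lit 2209718790) (nat_lit 2524262494438865731835724869)) (C.cons (nat_lit 1120)
  (C.node (nat_lit 4) (nat_lit 5) (nat_lit 11) C.nil) C.nil))) (C.cons (nat_lit 1036) (C.node (nat_lit 2) (nat_lit 9) (nat_lit 10) (C.cons (nat_lit 1572) (C.node (nat_lit 5) (nat_lit 9) (nat_lit 11) C.nil) (C.cons (nat_lit 1540) (C.node (nat_lit 4) (nat_lit 5) (nat_lit 11) C.nil) C.nil))) C.nil))) C.nil))) C.nil))) C.nil))) C.nil)) (C.cons (nat_lit 3078) (C.miq (nat_lit 2275476402) (nat_lit 1415656986373055593497102365)) (C.cons (nat_lit 3074) (C.node (nat_lit 2) (nat_lit 10) (nat_lit 11) (C.cons (nat_lit 3108) (C.node (nat_lit 5) (nat_lit 7) (nat_lit 10) (C.cons (nat_lit 1440) (C.miq (nat_lit 629193331) (nat_lit 349417876630899338624175240)) (C.cons (nat_lit 1184) (C.node (nat_lit 2) (nat_lit 3) (nat_lit 7) (C.cons (nat_lit 206) (C.miq (nat_lit 2322664242) (nat_lit 1415656987343581313007224861)) (C.cons (nat_lit 204) (C.miq (nat_lit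 1000743063) (nat_lit 3791195134031908152337760901)) (C.cons (nat_lit 174) (C.miq (nat_lit 2322664242) (nat_lit 1415656987343581313005127709)) (C.cons (nat_lit 172) (C.miq (nat_lit 2320960291) (nat_lit 1431375421075300645021157405)) (C.cons (nat_lit 142) (C.miq (nat_lit 2322664242) (nat_lit 1415656987343581313003030557)) (C.cons (nat_lit 140) (C.node (nat_lit 2) (nat_lit 4) (nat_lit 10) (C.cons (nat_lit 1300) (C.node (nat_lit 2) (nat_lit 7) (nat_lit 10) (C.cons (nat_lit 1156) (C.node (nat_lit 4) (nat_lit 5) (nat_lit 10) C.nil) C.nil)) (C.cons (nat_lit 1044) (C.node (nat_lit 2) (nat_lit 7) (nat_lit 10) (C.cons (nat_lit 1412) (C.node (nat_lit 2) (nat_lit 9) (nat_lit 10) (C.cons (nat_lit 1542) (C.miq (nat_lit 309566080) (nat_lit 169259262827239113161772801)) C.nil)) (C.cons (nat_lit 1156) (C.node (nat_lit 7) (nat_lit 8) (nat_lit 10) C.nil) C.nil))) C.nil))) C.nil))))))) C.nil))) (C.cons (nat_lit 3076) (C.node (nat_lit 5) (nat_lit 10) (nat_lit 11) (C.cons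 (nat_lit 3104) (C.node (nat_lit 3) (nat_lit 6) (nat_lit 7) (C.cons (nat_lit 206) (C.miq (nat_lit 2322664242) (nat_lit 1415656987343581313007224861)) (C.cons (nat_lit 204) (C.miq (nat_lit 1000743063) (nat_lit 3791195134031908152337760901)) (C.cons (nat_lit 202) (C.node (nat_lit 3) (nat_lit 6) (nat_lit 11) (C.cons (nat_lit 2376) (C.miq (nat_lit 1194724024) (nat_lit 244209232444528909548523265)) (C.cons (nat_lit 2120) (C.node (nat_lit 1) (nat_lit 2) (nat_lit 7) (C.cons (nat_lit 166) (C.node (nat_lit 2) (nat_lit 3) (nat_lit 7) C.nil) (C.cons (nat_lit 134) (C.node (nat_lit 2) (nat_lit 3) (nat_lit 7) (C.cons (nat_lit 140) (C.node (nat_lit 3) (nat_lit 5) (nat_lit 7) (C.cons (nat_lit 168) (C.node (nat_lit 2) (nat_lit 6) (nat_lit 7) C.nil) C.nil)) C.nil)) C.nil))) C.nil))) (C.cons (nat_lit 200) (C.node (nat_lit 1) (nat_lit 3) (nat_lit 7) (C.cons (nat_lit 174) (C.miq (nat_lit 2322664242) (nat_lit 1415656987343581313005127709)) (C.cons (nat_lit 170) (C.node (nat_lit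 2) (nat_lit 3) (nat_lit 7) (C.cons (nat_lit 140) (C.node (nat_lit 1) (nat_lit 2) (nat_lit 7) (C.cons (nat_lit 134) (C.node (nat_lit 1) (nat_lit 6) (nat_lit 7) C.nil) C.nil)) C.nil)) (C.cons (nat_lit 142) (C.miq (nat_lit 2322664242) (nat_lit 1415656987343581313003030557)) (C.cons (nat_lit 138) (C.node (nat_lit 2) (nat_lit 3) (nat_lit 7) (C.cons (nat_lit 172) (C.node (nat_lit 1) (nat_lit 2) (nat_lit 7) (C.cons (nat_lit 134) (C.node (nat_lit 1) (nat_lit 6) (nat_lit 7) C.nil) C.nil)) (C.cons (nat_lit 140) (C.node (nat_lit 3) (nat_lit 5) (nat_lit 7) C.nil) C.nil))) C.nil))))) C.nil))))) C.nil)) C.nil))) C.nil))))) C.nil))) C.nil)))) C.nil))) C.nil))) C.nil)))) C.nil)))) C.nil))) C.nil)))) (C.cons (nat_lit 1472) (C.miq (nat_lit 1790215984) (nat_lit 3733169147937072675720855945)) (C.cons (nat_lit 1216) (C.node (nat_lit 7) (nat_lit 9) (nat_lit 10) (C.cons (nat_lit 1696) (C.miq (nat_lit 2545179184) (nat_lit 2649975745696087840906871849)) (C.cons (nat_lit 1664)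 (C.node (nat_lit 1) (nat_lit 10) (nat_lit 11) (C.cons (nat_lit 3110) (C.miq (nat_lit 2275476402) (nat_lit 1415656986373055593499199517)) (C.cons (nat_lit 3106) (C.node (nat_lit 2) (nat_lit 10) (nat_lit 11) (C.cons (nat_lit 3076)
  (C.node (nat_lit 3) (nat_lit 5) (nat_lit 11) (C.cons (nat_lit 2344) (C.miq (nat_lit 461874480) (nat_lit 2940129195314359811862758441)) (C.cons (nat_lit 2088) (C.node (nat_lit 4) (nat_lit 5) (nat_lit 11) (C.cons (nat_lit 2352) (C.node (nat_lit 2) (nat_lit 5) (nat_lit 11) (C.cons (nat_lit 2596) (C.node (nat_lit 2) (nat_lit 8) (nat_lit 11) (C.cons (nat_lit 2372) (C.miq (nat_lit 1653640020) (nat_lit 779763370871858452333922608)) (C.cons (nat_lit 2308) (C.node (nat_lit 1) (nat_lit 2) (nat_lit 11) (C.cons (nat_lit 2118) (C.node (nat_lit 1) (nat_lit 3) (nat_lit 11) C.nil) C.nil)) C.nil))) (C.cons (nat_lit 2084) (C.node (nat_lit 5) (nat_lit 9) (nat_lit 11) C.nil) C.nil))) (C.cons (nat_lit 2096) (C.node (nat_lit 4) (nat_lit 8) (nat_lit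 11) (C.cons (nat_lit 2322) (C.node (nat_lit 3) (nat_lit 8) (nat_lit 11) (C.cons (nat_lit 2376) (C.miq (nat_lit 1805943664) (nat_lit 3733169148191526054607913353)) C.nil)) (C.cons (nat_lit 2320) (C.node (nat_lit 5) (nat_lit 8) (nat_lit 11) C.nil) C.nil))) C.nil))) C.nil))) C.nil)) (C.cons (nat_lit 3078) (C.miq (nat_lit 2275476402) (nat_lit 1415656986373055593497102365)) (C.cons (nat_lit 3074) (C.node (nat_lit 2) (nat_lit 10) (nat_lit 11) (C.cons (nat_lit 3108) (C.node (nat_lit 5) (nat_lit 7) (nat_lit 10) (C.cons (nat_lit 1440) (C.miq (nat_lit 629193331) (nat_lit 349417876630899338624175240)) (C.cons (nat_lit 1184) (C.node (nat_lit 2) (nat_lit 7) (nat_lit 10) (C.cons (nat_lit 1412) (C.node (nat_lit 2) (nat_lit 4) (nat_lit 10) (C.cons (nat_lit 1556) (C.node (nat_lit 2) (nat_lit 4) (nat_lit 7) (C.cons (nat_lit 212) (C.miq (nat_lit 1805938834) (nat_lit 3733166842319527637052293765)) (C.cons (nat_lit 180) (C.miq (nat_lit 2455479408) (nat_lit 3757412301744230430379410579))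 (C.cons (nat_lit 148) (C.node (nat_lit 4) (nat_lit 5) (nat_lit 10) (C.cons (nat_lit 1328) (C.miq (nat_lit 2231870610) (nat_lit 2747914435160485370584696340)) (C.cons (nat_lit 1136) (C.miq (nat_lit 1967720098) (nat_lit 678219283593532010919101509)) (C.cons (nat_lit 1072) (C.node (nat_lit 4) (nat_lit 8) (nat_lit 10) (C.cons (nat_lit 1304) (C.miq (nat_lit 1916996008) (nat_lit 2510946177091563806751461121)) (C.cons (nat_lit 1296) (C.node (nat_lit 1) (nat_lit 2) (nat_lit 10) (C.cons (nat_lit 1038) (C.node (nat_lit 1) (nat_lit 2) (nat_lit 11) (C.cons (nat_lit 2630) (C.miq (nat_lit 1377020816) (nat_lit 1254884647417259107432468225)) (C.cons (nat_lit 2566) (C.miq (nat_lit 1377020816) (nat_lit 1254884647417258832554561281)) (C.cons (nat_lit 2118) (C.miq (nat_lit 1613870498) (nat_lit 632307274502196371473173540)) (C.cons (nat_lit 2054) (C.node (nat_lit 2) (nat_lit 9) (nat_lit 11) (C.cons (nat_lit 2628) (C.miq (nat_lit 1648867744) (nat_lit 178962951491967581508800257))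 (C.cons (nat_lit 2564) (C.node (nat_lit 5) (nat_lit 9) (nat_lit 10) (C.cons (nat_lit 1632) (C.miq (nat_lit 3046377122) (nat_lit 678245699331047693300794437)) (C.cons (nat_lit 1570) (C.miq (nat_lit 1362274571) (nat_lit 1254922333682484132471181057)) (C.cons (nat_lit 1568) (C.node (nat_lit 5) (nat_lit 6) (nat_lit 10) (C.cons (nat_lit 1376) (C.miq (nat_lit 713340256) (nat_lit 1566806176982830642671716577)) (C.cons (nat_lit 1122) (C.miq (nat_lit 1630231088) (nat_lit 2483175563253547248838837289)) C.nil))) C.nil)))) C.nil))) C.nil))))) (C.cons (nat_lit 1030) (C.node (nat_lit 2) (nat_lit 3) (nat_lit 10) (C.cons (nat_lit 1036) (C.node (nat_lit 3) (nat_lit 4) (nat_lit 10) (C.cons (nat_lit 1112) (C.node (nat_lit 3) (nat_lit 9) (nat_lit 10) C.nil) C.nil)) C.nil)) C.nil))) C.nil))) C.nil)))) C.nil)))) (C.cons (nat_lit 1044) (C.ref (nat_lit 305) (nat_lit 205099542782736)) C.nil))) (C.cons (nat_lit 1156) (C.node (nat_lit 7) (nat_lit 8) (nat_lit 10) (C.cons (nat_lit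 1408) (C.node (nat_lit 2) (nat_lit 8) (nat_lit 11) (C.cons (nat_lit 2372) (C.node (nat_lit 2) (nat_lit 8) (nat_lit 10) (C.cons (nat_lit 1300) (C.miq (nat_lit 1755820608) (nat_lit 1702209484134341648089024541)) (C.cons (nat_lit 1292) (C.miq (nat_lit 1518842416) (nat_lit 1702209484341507196537341981)) (C.cons (nat_lit 1284)
  (C.node (nat_lit 4) (nat_lit 8) (nat_lit 11) (C.cons (nat_lit 2354) (C.miq (nat_lit 1800022032) (nat_lit 3733183093928916211220021511)) (C.cons (nat_lit 2352) (C.miq (nat_lit 1409988706) (nat_lit 1415709467911342445566429508)) (C.cons (nat_lit 2322) (C.miq (nat_lit 1800022032) (nat_lit 3733183093928916073781068039)) (C.cons (nat_lit 2320) (C.node (nat_lit 1) (nat_lit 2) (nat_lit 11) (C.cons (nat_lit 2566) (C.node (nat_lit 5) (nat_lit 9) (nat_lit 11) (C.cons (nat_lit 2592) (C.node (nat_lit 4) (nat_lit 9) (nat_lit 11) (C.cons (nat_lit 2640) (C.miq (nat_lit 2483140226) (nat_lit 1415699469857119288227727684)) C.nil)) C.nil)) (C.cons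 (nat_lit 2054) (C.node (nat_lit 2) (nat_lit 9) (nat_lit 11) C.nil) C.nil))) C.nil))))) C.nil)))) (C.cons (nat_lit 2308) (C.node (nat_lit 5) (nat_lit 9) (nat_lit 11) (C.cons (nat_lit 2594) (C.node (nat_lit 1) (nat_lit 2) (nat_lit 11) (C.cons (nat_lit 2118) (C.node (nat_lit 2) (nat_lit 9) (nat_lit 11) (C.cons (nat_lit 2564) (C.node (nat_lit 3) (nat_lit 6) (nat_lit 11) (C.cons (nat_lit 2376) (C.miq (nat_lit 1805943664) (nat_lit 3733169148191526054607913353)) C.nil)) C.nil)) (C.cons (nat_lit 2054) (C.node (nat_lit 2) (nat_lit 6) (nat_lit 11) (C.cons (nat_lit 2628) (C.node (nat_lit 4) (nat_lit 9) (nat_lit 11) C.nil) C.nil)) C.nil))) (C.cons (nat_lit 2592) (C.node (nat_lit 2) (nat_lit 8) (nat_lit 10) (C.cons (nat_lit 1300) (C.node (nat_lit 4) (nat_lit 5) (nat_lit 10) (C.cons (nat_lit 1136) (C.miq (nat_lit 610641931) (nat_lit 1373397063928718749029437185)) (C.cons (nat_lit 1072) (C.node (nat_lit 2) (nat_lit 4) (nat_lit 7) (C.cons (nat_lit 180) (C.miq (nat_lit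 1696861096) (nat_lit 217612864723192062472883969)) (C.cons (nat_lit 212) (C.miq (nat_lit 1380366976) (nat_lit 256334204082410737944825601)) (C.cons (nat_lit 148) (C.node (nat_lit 5) (nat_lit 7) (nat_lit 4) (C.cons (nat_lit 184) (C.miq (nat_lit 2591361844) (nat_lit 1431378520128305457723344925)) (C.cons (nat_lit 432) (C.node (nat_lit 8) (nat_lit 7) (nat_lit 2) C.nil) C.nil))) C.nil)))) C.nil))) (C.cons (nat_lit 1292) (C.miq (nat_lit 1518842416) (nat_lit 1702209484341507196537341981)) (C.cons (nat_lit 1284) (C.node (nat_lit 2) (nat_lit 4) (nat_lit 10) (C.cons (nat_lit 1556) (C.node (nat_lit 1) (nat_lit 2) (nat_lit 10) (C.cons (nat_lit 1038) (C.node (nat_lit 5) (nat_lit 9) (nat_lit 10) (C.cons (nat_lit 1634) (C.miq (nat_lit 1362274571) (nat_lit 1254922333700498530980663041)) (C.cons (nat_lit 1632) (C.miq (nat_lit 3046377122) (nat_lit 678245699331047693300794437)) (C.cons (nat_lit 1570) (C.miq (nat_lit 1362274571) (nat_lit 1254922333682484132471181057))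 C.nil)))) (C.cons (nat_lit 1030) (C.node (nat_lit 3) (nat_lit 2) (nat_lit 10) C.nil) C.nil))) (C.cons (nat_lit 1044) (C.node (nat_lit 4) (nat_lit 8) (nat_lit 10) (C.cons (nat_lit 1328) (C.node (nat_lit 1) (nat_lit 2) (nat_lit 10) C.nil) (C.cons (nat_lit 1304) (C.miq (nat_lit 1739066164) (nat_lit 1702173771209957118509058077)) (C.cons (nat_lit 1296) (C.node (nat_lit 4) (nat_lit 5) (nat_lit 10) C.nil) C.nil)))) C.nil))) C.nil)))) C.nil))) C.nil))) C.nil)) C.nil))) C.nil))) (C.cons (nat_lit 3076) (C.node (nat_lit 5) (nat_lit 10) (nat_lit 11) (C.cons (nat_lit 3104) (C.node (nat_lit 3) (nat_lit 6) (nat_lit 11) (C.cons (nat_lit 2378) (C.miq (nat_lit 1805943664) (nat_lit 3733169148192089004561334665)) (C.cons (nat_lit 2376) (C.miq (nat_lit 1805943664) (nat_lit 3733169148191526054607913353)) (C.cons (nat_lit 2122) (C.node (nat_lit 3) (nat_lit 5) (nat_lit 11) (C.cons (nat_lit 2344) (C.node (nat_lit 1) (nat_lit 8) (nat_lit 11) (C.cons (nat_lit 2322) (C.node (nat_lit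 4) (nat_lit 5) (nat_lit 11) C.nil) C.nil)) (C.cons (nat_lit 2088) (C.node (nat_lit 3) (nat_lit 8) (nat_lit 11) C.nil) C.nil))) (C.cons (nat_lit 2120) (C.node (nat_lit 3) (nat_lit 4) (nat_lit 7) (C.cons (nat_lit 728) (C.miq (nat_lit 2322991924) (nat_lit 1470060014285301080410032157)) (C.cons (nat_lit 664) (C.node (nat_lit 4) (nat_lit 6) (nat_lit 7) (C.cons (nat_lit 212) (C.node (nat_lit 3) (nat_lit 4) (nat_lit 10) (C.cons (nat_lit 1304)
  (C.miq (nat_lit 1731464104) (nat_lit 802732961416673012527664897)) (C.cons (nat_lit 1112) (C.miq (nat_lit 2476766306) (nat_lit 1287517896226411774334009556)) (C.cons (nat_lit 1048) (C.node (nat_lit 2) (nat_lit 4) (nat_lit 9) (C.cons (nat_lit 1556) (C.miq (nat_lit 1805938834) (nat_lit 3733166842319527637052293765)) (C.cons (nat_lit 788) (C.miq (nat_lit 3091597607) (nat_lit 407449931740558343680557701)) (C.cons (nat_lit 534) (C.miq (nat_lit 2269250449) (nat_lit 256297125362615288390353419)) (C.cons (nat_lit 532) (C.node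 (nat_lit 6) (nat_lit 7) (nat_lit 9) (C.cons (nat_lit 962) (C.miq (nat_lit 3093563762) (nat_lit 407446316178720643932750469)) (C.cons (nat_lit 960) (C.miq (nat_lit 3093563762) (nat_lit 407446316178720635342815877)) (C.cons (nat_lit 706) (C.miq (nat_lit 371234627) (nat_lit 1321365568684662482276254360)) (C.cons (nat_lit 704) (C.node (nat_lit 1) (nat_lit 2) (nat_lit 4) (C.cons (nat_lit 54) (C.node (nat_lit 1) (nat_lit 2) (nat_lit 7) (C.cons (nat_lit 142) (C.miq (nat_lit 2322664242) (nat_lit 1415656987343581313003030557)) (C.cons (nat_lit 134) (C.node (nat_lit 2) (nat_lit 4) (nat_lit 8) (C.cons (nat_lit 1300) (C.miq (nat_lit 2222695008) (nat_lit 2650036250905172649749578821)) (C.cons (nat_lit 276) (C.node (nat_lit 2) (nat_lit 4) (nat_lit 10) (C.cons (nat_lit 1044) (C.node (nat_lit 1) (nat_lit 3) (nat_lit 4) (C.cons (nat_lit 282) (C.miq (nat_lit 345146224) (nat_lit 643153387608052901888721289)) (C.cons (nat_lit 90) (C.miq (nat_lit 377041952) (nat_lit 851093424681183147567941661))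 (C.cons (nat_lit 26) (C.node (nat_lit 2) (nat_lit 5) (nat_lit 11) (C.cons (nat_lit 2596) (C.miq (nat_lit 447889557) (nat_lit 3718656817588403016579678769)) (C.cons (nat_lit 2340) (C.miq (nat_lit 1253380226) (nat_lit 3752506740537612633454674183)) (C.cons (nat_lit 2084) (C.node (nat_lit 2) (nat_lit 8) (nat_lit 11) C.nil) C.nil)))) C.nil)))) C.nil)) C.nil))) C.nil))) (C.cons (nat_lit 22) (C.node (nat_lit 3) (nat_lit 6) (nat_lit 7) (C.cons (nat_lit 202) (C.node (nat_lit 6) (nat_lit 7) (nat_lit 8) (C.cons (nat_lit 448) (C.node (nat_lit 1) (nat_lit 2) (nat_lit 7) (C.cons (nat_lit 166) (C.node (nat_lit 2) (nat_lit 3) (nat_lit 7) C.nil) C.nil)) C.nil)) (C.cons (nat_lit 200) (C.node (nat_lit 1) (nat_lit 6) (nat_lit 7) (C.cons (nat_lit 450) (C.node (nat_lit 1) (nat_lit 7) (nat_lit 9) (C.cons (nat_lit 674) (C.node (nat_lit 7) (nat_lit 8) (nat_lit 9) C.nil) C.nil)) (C.cons (nat_lit 194) (C.node (nat_lit 6) (nat_lit 7) (nat_lit 8) (C.cons (nat_lit 448) (C.node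 (nat_lit 4) (nat_lit 5) (nat_lit 7) (C.cons (nat_lit 176) (C.node (nat_lit 4) (nat_lit 7) (nat_lit 8) C.nil) C.nil)) C.nil)) C.nil))) C.nil))) C.nil))) C.nil))))) C.nil))))) C.nil)))) (C.cons (nat_lit 208) (C.node (nat_lit 3) (nat_lit 4) (nat_lit 10) (C.cons (nat_lit 1304) (C.miq (nat_lit 1731464104) (nat_lit 802732961416673012527664897)) (C.cons (nat_lit 1112) (C.node (nat_lit 3) (nat_lit 6) (nat_lit 9) (C.cons (nat_lit 876) (C.miq (nat_lit 2544246851) (nat_lit 1470069956180754035467880477)) (C.cons (nat_lit 872) (C.miq (nat_lit 641272391) (nat_lit 1054195213161541108596475027)) (C.cons (nat_lit 844) (C.miq (nat_lit 2544246851) (nat_lit 1470069365884943676762228765)) (C.cons (nat_lit 840) (C.miq (nat_lit 641272391) (nat_lit 1015509586933872975005877395)) (C.cons (nat_lit 620) (C.miq (nat_lit 2544246851) (nat_lit 1470065233814271165822666781)) (C.cons (nat_lit 616) (C.miq (nat_lit 641272391) (nat_lit 744710203340196039871693971)) (C.cons (nat_lit 588)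 (C.miq (nat_lit 2544246851) (nat_lit 1470064643518460807117015069)) (C.cons (nat_lit 584) (C.miq (nat_lit 641272391) (nat_lit 706024577112527906281096339)) C.nil))))))))) (C.cons (nat_lit 1048) (C.ref (nat_lit 259) (nat_lit 198128827013136)) C.nil)))) C.nil))) (C.cons (nat_lit 216) (C.miq (nat_lit 2322991924) (nat_lit 1470060014285301080376477725)) (C.cons (nat_lit 184) (C.miq (nat_lit 1504133299) (nat_lit 2011655958197576468382877725)) (C.cons (nat_lit 152) (C.node (nat_lit 3) (nat_lit 4) (nat_lit 10) (C.cons (nat_lit 1624)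
  (C.miq (nat_lit 1463028649) (nat_lit 183767073844655386038636289)) (C.cons (nat_lit 1560) (C.miq (nat_lit 1463028649) (nat_lit 183767073844655386034441985)) (C.cons (nat_lit 1304) (C.miq (nat_lit 1731464104) (nat_lit 183762941773982875078102785)) (C.cons (nat_lit 1112) (C.node (nat_lit 3) (nat_lit 4) (nat_lit 9) (C.cons (nat_lit 792) (C.node (nat_lit 3) (nat_lit 9) (nat_lit 10) (C.cons (nat_lit 1548) (C.miq (nat_lit 591833472) (nat_lit 1344345674138466872397467393)) (C.cons (nat_lit 1544) (C.node (nat_lit 1) (nat_lit 3) (nat_lit 4) (C.cons (nat_lit 58) (C.node (nat_lit 1) (nat_lit 3) (nat_lit 11) (C.cons (nat_lit 2314) (C.miq (nat_lit 2958133571) (nat_lit 42355090533446380043240216)) (C.cons (nat_lit 2058) (C.node (nat_lit 3) (nat_lit 5) (nat_lit 11) C.nil) C.nil))) (C.cons (nat_lit 26) (C.node (nat_lit 3) (nat_lit 4) (nat_lit 5) (C.cons (nat_lit 56) (C.node (nat_lit 4) (nat_lit 7) (nat_lit 9) (C.cons (nat_lit 720) (C.node (nat_lit 3) (nat_lit 7)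 (nat_lit 9) (C.cons (nat_lit 680) (C.miq (nat_lit 1687488567) (nat_lit 678249314347946977631142281)) (C.cons (nat_lit 648) (C.node (nat_lit 3) (nat_lit 6) (nat_lit 9) (C.cons (nat_lit 620) (C.miq (nat_lit 1228568144) (nat_lit 1866603066824962405812472033)) (C.cons (nat_lit 616) (C.miq (nat_lit 1228568144) (nat_lit 1866603066824962388632602849)) (C.cons (nat_lit 588) (C.miq (nat_lit 2794930976) (nat_lit 870448191572846019258681373)) (C.cons (nat_lit 584) (C.node (nat_lit 2) (nat_lit 3) (nat_lit 9) (C.cons (nat_lit 556) (C.node (nat_lit 3) (nat_lit 5) (nat_lit 7) (C.cons (nat_lit 170) (C.node (nat_lit 1) (nat_lit 3) (nat_lit 11) C.nil) C.nil)) (C.cons (nat_lit 524) (C.node (nat_lit 3) (nat_lit 5) (nat_lit 9) (C.cons (nat_lit 552) (C.node (nat_lit 1) (nat_lit 3) (nat_lit 10) C.nil) C.nil)) C.nil))) C.nil))))) C.nil))) (C.cons (nat_lit 656) (C.node (nat_lit 4) (nat_lit 6) (nat_lit 7) (C.cons (nat_lit 212) (C.node (nat_lit 4) (nat_lit 9) (nat_lit 10) (C.cons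 (nat_lit 1556) (C.miq (nat_lit 3125152039) (nat_lit 1344367441941899252612727429)) (C.cons (nat_lit 1552) (C.node (nat_lit 2) (nat_lit 4) (nat_lit 9) (C.cons (nat_lit 534) (C.node (nat_lit 4) (nat_lit 5) (nat_lit 6) (C.cons (nat_lit 114) (C.miq (nat_lit 376587529) (nat_lit 256302124351734655786222129)) (C.cons (nat_lit 112) (C.node (nat_lit 1) (nat_lit 4) (nat_lit 6) (C.cons (nat_lit 2130) (C.miq (nat_lit 2427529060) (nat_lit 2479516706772500920801558740)) (C.cons (nat_lit 82) (C.node (nat_lit 4) (nat_lit 6) (nat_lit 9) (C.cons (nat_lit 2640) (C.miq (nat_lit 1681373568) (nat_lit 183798654773800516522151681)) C.nil)) C.nil))) C.nil))) (C.cons (nat_lit 532) (C.node (nat_lit 1) (nat_lit 2) (nat_lit 4) (C.cons (nat_lit 54) (C.node (nat_lit 4) (nat_lit 5) (nat_lit 6) (C.cons (nat_lit 112) (C.node (nat_lit 2) (nat_lit 4) (nat_lit 8) (C.cons (nat_lit 1300) (C.miq (nat_lit 2222695008) (nat_lit 2650036250905172649749578821)) C.nil)) C.nil)) (C.cons (nat_lit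 22) (C.node (nat_lit 4) (nat_lit 5) (nat_lit 6) (C.cons (nat_lit 114) (C.node (nat_lit 4) (nat_lit 6) (nat_lit 9) (C.cons (nat_lit 2640) (C.miq (nat_lit 1681373568) (nat_lit 183798654773800516522151681)) C.nil)) (C.cons (nat_lit 112) (C.node (nat_lit 4) (nat_lit 5) (nat_lit 7) (C.cons (nat_lit 176) (C.node (nat_lit 4) (nat_lit 7) (nat_lit 8) (C.cons (nat_lit 400) (C.node (nat_lit 3) (nat_lit 6) (nat_lit 7) C.nil) C.nil)) C.nil)) C.nil))) C.nil))) C.nil))) C.nil))) (C.cons (nat_lit 208) (C.node (nat_lit 4) (nat_lit 9) (nat_lit 10) (C.cons (nat_lit 1556) (C.node (nat_lit 4) (nat_lit 5) (nat_lit 10) (C.cons (nat_lit 1328) (C.node (nat_lit 4) (nat_lit 5) (nat_lit 7) (C.cons (nat_lit 180) (C.miq (nat_lit 3125086503) (nat_lit 1605495418978659154347164293)) (C.cons (nat_lit 176) (C.node (nat_lit 7) (nat_lit 8) (nat_lit 10) (C.cons (nat_lit 1412) (C.miq (nat_lit 2231870610) (nat_lit 2747914435160485370584696340)) (C.cons (nat_lit 1408) (C.node (nat_lit 1) (nat_lit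 3) (nat_lit 10) (C.cons (nat_lit 1290) (C.miq (nat_lit 1480149520) (nat_lit 957479598132015967039587475)) (C.cons (nat_lit 1038)
  (C.miq (nat_lit 2217805474) (nat_lit 31436922898533587377587269)) C.nil))) C.nil))) C.nil))) (C.cons (nat_lit 1072) (C.node (nat_lit 4) (nat_lit 8) (nat_lit 10) (C.cons (nat_lit 1296) (C.node (nat_lit 1) (nat_lit 2) (nat_lit 10) (C.cons (nat_lit 1030) (C.node (nat_lit 1) (nat_lit 3) (nat_lit 10) (C.cons (nat_lit 1034) (C.node (nat_lit 2) (nat_lit 3) (nat_lit 10) C.nil) C.nil)) C.nil)) C.nil)) C.nil))) (C.cons (nat_lit 1552) (C.node (nat_lit 1) (nat_lit 3) (nat_lit 10) (C.cons (nat_lit 1290) (C.node (nat_lit 2) (nat_lit 3) (nat_lit 10) (C.cons (nat_lit 1036) (C.node (nat_lit 1) (nat_lit 3) (nat_lit 11) (C.cons (nat_lit 2058) (C.node (nat_lit 3) (nat_lit 5) (nat_lit 11) C.nil) C.nil)) C.nil)) (C.cons (nat_lit 1038) (C.miq (nat_lit 2217805474) (nat_lit 31436922898533587377587269)) (C.cons (nat_lit 1034) (C.node (nat_lit 2)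 (nat_lit 3) (nat_lit 10) (C.cons (nat_lit 1292) (C.node (nat_lit 2) (nat_lit 4) (nat_lit 10) (C.cons (nat_lit 1044) (C.node (nat_lit 2) (nat_lit 7) (nat_lit 10) (C.cons (nat_lit 1156) (C.node (nat_lit 4) (nat_lit 5) (nat_lit 10) C.nil) C.nil)) C.nil)) (C.cons (nat_lit 1036) (C.node (nat_lit 3) (nat_lit 8) (nat_lit 10) C.nil) C.nil))) C.nil)))) C.nil))) C.nil))) C.nil))) C.nil)) C.nil))) C.nil))) (C.cons (nat_lit 536) (C.node (nat_lit 3) (nat_lit 9) (nat_lit 10) (C.cons (nat_lit 1548) (C.node (nat_lit 4) (nat_lit 9) (nat_lit 10) (C.cons (nat_lit 1552) (C.node (nat_lit 2) (nat_lit 3) (nat_lit 7) (C.cons (nat_lit 206) (C.miq (nat_lit 2322664242) (nat_lit 1415656987343581313007224861)) (C.cons (nat_lit 204) (C.miq (nat_lit 2741736048) (nat_lit 2562993591962725109035238021)) (C.cons (nat_lit 174) (C.miq (nat_lit 2322664242) (nat_lit 1415656987343581313005127709)) (C.cons (nat_lit 172) (C.miq (nat_lit 3124037927) (nat_lit 1287547928420011647039177349)) (C.cons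 (nat_lit 142) (C.miq (nat_lit 2322664242) (nat_lit 1415656987343581313003030557)) (C.cons (nat_lit 140) (C.node (nat_lit 1) (nat_lit 2) (nat_lit 10) (C.cons (nat_lit 1062) (C.node (nat_lit 5) (nat_lit 9) (nat_lit 10) (C.cons (nat_lit 1632) (C.miq (nat_lit 1497066016) (nat_lit 3104563434679021073193567301)) (C.cons (nat_lit 1568) (C.node (nat_lit 1) (nat_lit 3) (nat_lit 10) (C.cons (nat_lit 1290) (C.node (nat_lit 2) (nat_lit 7) (nat_lit 10) (C.cons (nat_lit 1412) (C.miq (nat_lit 2207424775) (nat_lit 1871443215929183006598956179)) C.nil)) C.nil)) C.nil))) (C.cons (nat_lit 1030) (C.node (nat_lit 1) (nat_lit 3) (nat_lit 10) (C.cons (nat_lit 1290) (C.node (nat_lit 6) (nat_lit 8) (nat_lit 10) (C.cons (nat_lit 1376) (C.node (nat_lit 4) (nat_lit 8) (nat_lit 10) (C.cons (nat_lit 1300) (C.miq (nat_lit 1512794176) (nat_lit 3718697750971194034754486609)) C.nil)) C.nil)) (C.cons (nat_lit 1034) (C.node (nat_lit 3) (nat_lit 8) (nat_lit 10) (C.cons (nat_lit 1288) (C.node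 (nat_lit 2) (nat_lit 8) (nat_lit 11) (C.cons (nat_lit 2308) (C.node (nat_lit 6) (nat_lit 8) (nat_lit 11) C.nil) C.nil)) C.nil)) C.nil))) C.nil))) C.nil))))))) C.nil)) (C.cons (nat_lit 1544) (C.node (nat_lit 4) (nat_lit 9) (nat_lit 10) (C.cons (nat_lit 1556) (C.node (nat_lit 4) (nat_lit 5) (nat_lit 10) (C.cons (nat_lit 1328) (C.node (nat_lit 4) (nat_lit 5) (nat_lit 7) (C.cons (nat_lit 180) (C.miq (nat_lit 3125086503) (nat_lit 1605495418978659154347164293)) (C.cons (nat_lit 176) (C.node (nat_lit 7) (nat_lit 8) (nat_lit 10) (C.cons (nat_lit 1412) (C.miq (nat_lit 2231870610) (nat_lit 2747914435160485370584696340)) (C.cons (nat_lit 1408) (C.node (nat_lit 2) (nat_lit 7) (nat_lit 10) (C.cons (nat_lit 1188) (C.node (nat_lit 1) (nat_lit 2) (nat_lit 10) (C.cons (nat_lit 1038) (C.node (nat_lit 2) (nat_lit 8) (nat_lit 10) C.nil) C.nil)) C.nil)) C.nil))) C.nil))) (C.cons (nat_lit 1072) (C.node (nat_lit 4) (nat_lit 8) (nat_lit 10) (C.cons (nat_lit 1296) (C.node (nat_lit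 1) (nat_lit 2) (nat_lit 10) (C.cons (nat_lit 1030) (C.node (nat_lit 1) (nat_lit 3) (nat_lit 10) (C.cons (nat_lit 1034) (C.node (nat_lit 2) (nat_lit 3) (nat_lit 10) C.nil) C.nil)) C.nil)) C.nil)) C.nil))) (C.cons (nat_lit 1552)
  (C.node (nat_lit 1) (nat_lit 3) (nat_lit 10) (C.cons (nat_lit 1290) (C.node (nat_lit 2) (nat_lit 3) (nat_lit 10) (C.cons (nat_lit 1036) (C.node (nat_lit 6) (nat_lit 8) (nat_lit 10) (C.cons (nat_lit 1344) (C.node (nat_lit 1) (nat_lit 3) (nat_lit 11) (C.cons (nat_lit 2058) (C.node (nat_lit 3) (nat_lit 5) (nat_lit 11) C.nil) C.nil)) C.nil)) C.nil)) (C.cons (nat_lit 1038) (C.node (nat_lit 3) (nat_lit 8) (nat_lit 10) (C.cons (nat_lit 1288) (C.node (nat_lit 2) (nat_lit 9) (nat_lit 10) (C.cons (nat_lit 1540) (C.node (nat_lit 2) (nat_lit 8) (nat_lit 11) (C.cons (nat_lit 2308) (C.node (nat_lit 6) (nat_lit 8) (nat_lit 11) C.nil) C.nil)) C.nil)) C.nil)) (C.cons (nat_lit 1034) (C.node (nat_lit 2) (nat_lit 3) (nat_lit 10) (C.cons (nat_lit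 1292) (C.node (nat_lit 2) (nat_lit 4) (nat_lit 10) (C.cons (nat_lit 1044) (C.node (nat_lit 2) (nat_lit 7) (nat_lit 10) (C.cons (nat_lit 1156) (C.node (nat_lit 4) (nat_lit 5) (nat_lit 10) C.nil) C.nil)) C.nil)) (C.cons (nat_lit 1036) (C.node (nat_lit 3) (nat_lit 8) (nat_lit 10) (C.cons (nat_lit 1288) (C.node (nat_lit 2) (nat_lit 8) (nat_lit 11) (C.cons (nat_lit 2308) (C.node (nat_lit 6) (nat_lit 8) (nat_lit 11) C.nil) C.nil)) C.nil)) C.nil))) C.nil)))) C.nil))) C.nil))) C.nil))) (C.cons (nat_lit 1048) (C.node (nat_lit 8) (nat_lit 6) (nat_lit 11) (C.cons (nat_lit 2372) (C.node (nat_lit 8) (nat_lit 4) (nat_lit 11) (C.cons (nat_lit 2354) (C.miq (nat_lit 455755872) (nat_lit 3718677422934511938192081233)) C.nil)) (C.cons (nat_lit 2370) (C.node (nat_lit 1) (nat_lit 3) (nat_lit 11) C.nil) (C.cons (nat_lit 2368) (C.node (nat_lit 8) (nat_lit 2) (nat_lit 11) C.nil) C.nil)))) C.nil)))))) C.nil)))))) C.nil))))) C.nil)) C.nil))) C.nil))))) C.nil))) C.nil)))) List.nil)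

theorem ok12_308 : okL par12 (nat_lit 309) c12_308 (nat_lit 308) = true := by decide +kernel

noncomputable def c12_309 : List C :=
  (List.cons (C.node (nat_lit 6) (nat_lit 10) (nat_lit 11) (C.cons (nat_lit 3138) (C.node (nat_lit 2) (nat_lit 10) (nat_lit 11) (C.cons (nat_lit 3108) (C.node (nat_lit 5) (nat_lit 7) (nat_lit 10) (C.cons (nat_lit 1696) (C.miq (nat_lit 2545179184) (nat_lit 2649975745696087840906871849)) (C.cons (nat_lit 1440) (C.miq (nat_lit 629193331) (nat_lit 349417876630899338624175240)) (C.cons (nat_lit 1184) (C.node (nat_lit 1) (nat_lit 2) (nat_lit 11) (C.cons (nat_lit 2566) (C.node (nat_lit 1) (nat_lit 2) (nat_lit 10) (C.cons (nat_lit 1038) (C.miq (nat_lit 1377020816) (nat_lit 1254884647417258832554561281)) (C.cons (nat_lit 1030) (C.node (nat_lit 1) (nat_lit 3) (nat_lit 10) (C.cons (nat_lit 1290) (C.miq (nat_lit 369666931) (nat_lit 407431798393263356602027144)) (C.cons (nat_lit 1034) (C.node (nat_lit 5) (nat_lit 9) (nat_lit 11) (C.cons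 (nat_lit 2600) (C.miq (nat_lit 1203309109) (nat_lit 3249602952077169548822316073)) (C.cons (nat_lit 2592) (C.node (nat_lit 2) (nat_lit 3) (nat_lit 10) (C.cons (nat_lit 1548) (C.miq (nat_lit 1343988626) (nat_lit 2479564188809958623241700876)) (C.cons (nat_lit 1292) (C.miq (nat_lit 2270834866) (nat_lit 1431392003727693604104439837)) (C.cons (nat_lit 1036) (C.node (nat_lit 1) (nat_lit 3) (nat_lit 11) (C.cons (nat_lit 2346) (C.miq (nat_lit 557168906) (nat_lit 2836197306018768169724350209)) (C.cons (nat_lit 2314) (C.miq (nat_lit 999784736) (nat_lit 3249599853345888306500796679)) (C.cons (nat_lit 2090) (C.miq (nat_lit 557168906) (nat_lit 2526712296197423100999569153)) (C.cons (nat_lit 2058) (C.node (nat_lit 1) (nat_lit 2) (nat_lit 7) (C.cons (nat_lit 206) (C.miq (nat_lit 1377020816) (nat_lit 249058365497887359199022849)) (C.cons (nat_lit 198) (C.miq (nat_lit 2703865456) (nat_lit 3102174507958394908047640801)) (C.cons (nat_lit 174) (C.miq (nat_lit 2317552471)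 (nat_lit 1252454399772335527164774625)) (C.cons (nat_lit 166) (C.miq (nat_lit 891357881) (nat_lit 200691334002963192220094209)) (C.cons (nat_lit 142) (C.miq (nat_lit 1377020816) (nat_lit 171687113042551092017827585)) (C.cons (nat_lit 134) (C.node (nat_lit 1) (nat_lit 3) (nat_lit 7) (C.cons (nat_lit 202) (C.miq (nat_lit 2316503911) (nat_lit 1250036548133106397666216161)) (C.cons (nat_lit 170) (C.miq (nat_lit 557168906) (nat_lit 205574722537335085563711233)) (C.cons (nat_lit 138) (C.node (nat_lit 1) (nat_lit 8) (nat_lit 10) (C.cons (nat_lit 1314) (C.node (nat_lit 1) (nat_lit 2) (nat_lit 3) (C.cons (nat_lit 110) (C.miq (nat_lit 2589002531) (nat_lit 1588538175701932019970607133)) (C.cons (nat_lit 78) (C.miq (nat_lit 1377020816) (nat_lit 94315860587214824836632321)) (C.cons (nat_lit 46) (C.miq (nat_lit 2589002531) (nat_lit 1588538175701932019966412829)) (C.cons (nat_lit 14) (C.miq (nat_lit 1377020816) (nat_lit 16944608131878557655437057)) C.nil))))) (C.cons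 (nat_lit 1282) (C.node (nat_lit 1) (nat_lit 5) (nat_lit 10) (C.cons (nat_lit 1570) (C.node (nat_lit 1) (nat_lit 5) (nat_lit 7) (C.cons (nat_lit 418) (C.node (nat_lit 1) (nat_lit 5) (nat_lit 11) (C.cons (nat_lit 2098) (C.node (nat_lit 1) (nat_lit 8) (nat_lit 11) C.nil) (C.cons (nat_lit 2082) (C.node (nat_lit 1) (nat_lit 4) (nat_lit 11) C.nil) C.nil))) (C.cons (nat_lit 162) (C.node (nat_lit 2) (nat_lit 6) (nat_lit 11) (C.cons (nat_lit 2372) (C.node (nat_lit 3) (nat_lit 5) (nat_lit 11) (C.cons (nat_lit 2344) (C.miq (nat_lit 2208478470) (nat_lit 1252490905457480583673612513)) (C.cons (nat_lit 2088) (C.node (nat_lit 3) (nat_lit 8) (nat_lit 11) C.nil) C.nil))) (C.cons (nat_lit 2116) (C.node (nat_lit 2) (nat_lit 8) (nat_lit 11) C.nil) C.nil))) C.nil))) (C.cons (nat_lit 1058) (C.node (nat_lit 1) (nat_lit 2) (nat_lit 3) (C.cons (nat_lit 110) (C.miq (nat_lit 2589002531) (nat_lit 1279053165880586951245826077)) (C.cons (nat_lit 78) (C.miq (nat_lit 1377020816) (nat_lit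 94315860587214824836632321)) (C.cons (nat_lit 46) (C.miq (nat_lit 2589002531) (nat_lit 1279053165880586951241631773)) (C.cons (nat_lit 14)
  (C.miq (nat_lit 1377020816) (nat_lit 16944608131878557655437057)) C.nil))))) C.nil))) C.nil))) C.nil)))) C.nil))))))) C.nil))))) C.nil)))) C.nil))) C.nil))) C.nil))) (C.cons (nat_lit 2054) (C.node (nat_lit 2) (nat_lit 9) (nat_lit 11) (C.cons (nat_lit 2628) (C.miq (nat_lit 462923296) (nat_lit 3249614205144713299629507653)) (C.cons (nat_lit 2564) (C.node (nat_lit 2) (nat_lit 6) (nat_lit 11) (C.cons (nat_lit 2372) (C.node (nat_lit 4) (nat_lit 8) (nat_lit 11) (C.cons (nat_lit 2354) (C.miq (nat_lit 2258743812) (nat_lit 3793652646253919201746159645)) (C.cons (nat_lit 2352) (C.miq (nat_lit 1409988706) (nat_lit 1415709467911342445566429508)) (C.cons (nat_lit 2322) (C.miq (nat_lit 2258743812) (nat_lit 3793652055958108843040507933)) (C.cons (nat_lit 2320) (C.node (nat_lit 2) (nat_lit 7) (nat_lit 10) (C.cons (nat_lit 1412)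 (C.ref (nat_lit 235) (nat_lit 198128827013136)) (C.cons (nat_lit 1156) (C.node (nat_lit 7) (nat_lit 8) (nat_lit 10) (C.cons (nat_lit 1472) (C.miq (nat_lit 1790215984) (nat_lit 3733169147937072675720855945)) (C.cons (nat_lit 1408) (C.node (nat_lit 2) (nat_lit 8) (nat_lit 10) (C.cons (nat_lit 1300) (C.miq (nat_lit 1755820608) (nat_lit 1702209484134341648089024541)) (C.cons (nat_lit 1292) (C.miq (nat_lit 1518842416) (nat_lit 1702209484341507196537341981)) (C.cons (nat_lit 1284) (C.node (nat_lit 2) (nat_lit 4) (nat_lit 10) (C.cons (nat_lit 1556) (C.node (nat_lit 6) (nat_lit 7) (nat_lit 10) (C.cons (nat_lit 1728) (C.miq (nat_lit 1764457024) (nat_lit 3099727731427584188618704019)) (C.cons (nat_lit 1216) (C.node (nat_lit 7) (nat_lit 9) (nat_lit 10) (C.cons (nat_lit 1664) (C.node (nat_lit 5) (nat_lit 6) (nat_lit 10) (C.cons (nat_lit 1632) (C.miq (nat_lit 3046377122) (nat_lit 678245699331047693300794437)) (C.cons (nat_lit 1376) (C.miq (nat_lit 847907685) (nat_lit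 1552280398752256075375839457)) (C.cons (nat_lit 1136) (C.miq (nat_lit 1967720098) (nat_lit 678219283593532010919101509)) (C.cons (nat_lit 1120) (C.node (nat_lit 2) (nat_lit 4) (nat_lit 6) (C.cons (nat_lit 212) (C.miq (nat_lit 2185934448) (nat_lit 1881159429932009669598054625)) (C.cons (nat_lit 118) (C.miq (nat_lit 2585004901) (nat_lit 1415662484473314977800128737)) (C.cons (nat_lit 116) (C.miq (nat_lit 2185868880) (nat_lit 1881159429932009257241217249)) (C.cons (nat_lit 86) (C.miq (nat_lit 2249896512) (nat_lit 3793680076562352482817345565)) (C.cons (nat_lit 84) (C.node (nat_lit 1) (nat_lit 2) (nat_lit 4) (C.cons (nat_lit 54) (C.node (nat_lit 4) (nat_lit 5) (nat_lit 11) (C.cons (nat_lit 2096) (C.node (nat_lit 1) (nat_lit 9) (nat_lit 10) (C.cons (nat_lit 1570) (C.miq (nat_lit 844172201) (nat_lit 65291642490977401018912513)) (C.cons (nat_lit 1538) (C.node (nat_lit 5) (nat_lit 9) (nat_lit 10) C.nil) C.nil))) C.nil)) (C.cons (nat_lit 22) (C.node (nat_lit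 1) (nat_lit 2) (nat_lit 10) (C.cons (nat_lit 1038) (C.node (nat_lit 1) (nat_lit 9) (nat_lit 10) (C.cons (nat_lit 1570) (C.miq (nat_lit 1362274571) (nat_lit 1254922333682484132471181057)) (C.cons (nat_lit 1538) (C.node (nat_lit 5) (nat_lit 9) (nat_lit 10) C.nil) C.nil))) (C.cons (nat_lit 1030) (C.node (nat_lit 2) (nat_lit 3) (nat_lit 10) C.nil) C.nil))) C.nil))) C.nil)))))) C.nil))))) C.nil)) C.nil))) (C.cons (nat_lit 1044) (C.node (nat_lit 3) (nat_lit 6) (nat_lit 11) (C.cons (nat_lit 2632) (C.node (nat_lit 4) (nat_lit 6) (nat_lit 11) (C.cons (nat_lit 2128) (C.node (nat_lit 4) (nat_lit 5) (nat_lit 11) (C.cons (nat_lit 2096) (C.node (nat_lit 1) (nat_lit 4) (nat_lit 11) C.nil) C.nil)) C.nil)) (C.cons (nat_lit 2120) (C.node (nat_lit 3) (nat_lit 9) (nat_lit 11) (C.cons (nat_lit 2600) (C.miq (nat_lit 1203309109) (nat_lit 3249602952077169548822316073)) (C.cons (nat_lit 2568) (C.node (nat_lit 4) (nat_lit 5) (nat_lit 11) (C.cons (nat_lit 2098) (C.node (nat_lit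 1) (nat_lit 9) (nat_lit 11) C.nil) C.nil)) C.nil))) C.nil))) C.nil))) C.nil)))) C.nil))) C.nil))) C.nil))))) (C.cons (nat_lit 2116) (C.node (nat_lit 2) (nat_lit 8) (nat_lit 11) (C.cons (nat_lit 2308) (C.node (nat_lit 6) (nat_lit 8) (nat_lit 11) (C.cons (nat_lit 2376)
  (C.miq (nat_lit 1805943664) (nat_lit 3733169148191526054607913353)) (C.cons (nat_lit 2368) (C.node (nat_lit 3) (nat_lit 6) (nat_lit 11) (C.cons (nat_lit 2632) (C.node (nat_lit 4) (nat_lit 6) (nat_lit 11) C.nil) C.nil)) C.nil))) C.nil)) C.nil))) C.nil))) C.nil))) C.nil)))) (C.cons (nat_lit 3076) (C.node (nat_lit 5) (nat_lit 10) (nat_lit 11) (C.cons (nat_lit 3104) (C.node (nat_lit 4) (nat_lit 6) (nat_lit 11) (C.cons (nat_lit 2640) (C.node (nat_lit 3) (nat_lit 6) (nat_lit 11) (C.cons (nat_lit 2376) (C.miq (nat_lit 1805943664) (nat_lit 3733169148191526054607913353)) (C.cons (nat_lit 2120) (C.node (nat_lit 3) (nat_lit 9) (nat_lit 11) (C.cons (nat_lit 2600) (C.miq (nat_lit 2073338704) (nat_lit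 3191585765822914227348767785)) (C.cons (nat_lit 2568) (C.node (nat_lit 2) (nat_lit 6) (nat_lit 11) (C.cons (nat_lit 2372) (C.node (nat_lit 6) (nat_lit 7) (nat_lit 4) (C.cons (nat_lit 216) (C.miq (nat_lit 2252014714) (nat_lit 2562993591621858963839517843)) (C.cons (nat_lit 212) (C.miq (nat_lit 1924810368) (nat_lit 3718677422331592538257949009)) (C.cons (nat_lit 208) (C.node (nat_lit 9) (nat_lit 2) (nat_lit 11) (C.cons (nat_lit 2596) (C.miq (nat_lit 671462985) (nat_lit 349427450283903273684503120)) (C.cons (nat_lit 2566) (C.miq (nat_lit 423635816) (nat_lit 678212237019774481597532484)) (C.cons (nat_lit 2564) (C.node (nat_lit 1) (nat_lit 9) (nat_lit 11) (C.cons (nat_lit 2594) (C.node (nat_lit 1) (nat_lit 2) (nat_lit 11) C.nil) C.nil)) C.nil)))) C.nil)))) (C.cons (nat_lit 2116) (C.node (nat_lit 6) (nat_lit 8) (nat_lit 11) C.nil) C.nil))) C.nil))) C.nil))) (C.cons (nat_lit 2128) (C.node (nat_lit 4) (nat_lit 9) (nat_lit 11) (C.cons (nat_lit 2578) (C.node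 (nat_lit 1) (nat_lit 9) (nat_lit 10) (C.cons (nat_lit 1574) (C.miq (nat_lit 2065237666) (nat_lit 3116622661756247654827164741)) (C.cons (nat_lit 1570) (C.miq (nat_lit 974849428) (nat_lit 3793647536137925038431142449)) (C.cons (nat_lit 1542) (C.miq (nat_lit 2065237666) (nat_lit 3116622661756247654825067589)) (C.cons (nat_lit 1538) (C.node (nat_lit 1) (nat_lit 2) (nat_lit 11) (C.cons (nat_lit 2086) (C.node (nat_lit 1) (nat_lit 2) (nat_lit 4) (C.cons (nat_lit 86) (C.miq (nat_lit 2439689248) (nat_lit 3793680076620336328014628893)) (C.cons (nat_lit 22) (C.node (nat_lit 2) (nat_lit 9) (nat_lit 11) (C.cons (nat_lit 2628) (C.miq (nat_lit 1780031563) (nat_lit 1859376388918382558520150045)) (C.cons (nat_lit 2564) (C.node (nat_lit 5) (nat_lit 9) (nat_lit 11) (C.cons (nat_lit 2600) (C.miq (nat_lit 1511600203) (nat_lit 1859375872401667195304806429)) (C.cons (nat_lit 2592) (C.node (nat_lit 1) (nat_lit 3) (nat_lit 11) (C.cons (nat_lit 2314) (C.node (nat_lit 3) (nat_lit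 5) (nat_lit 11) C.nil) C.nil)) C.nil))) C.nil))) C.nil))) (C.cons (nat_lit 2054) (C.node (nat_lit 4) (nat_lit 5) (nat_lit 11) (C.cons (nat_lit 2352) (C.node (nat_lit 1) (nat_lit 8) (nat_lit 11) (C.cons (nat_lit 2314) (C.miq (nat_lit 2231612561) (nat_lit 1287548684317398189698910738)) (C.cons (nat_lit 2306) (C.node (nat_lit 3) (nat_lit 8) (nat_lit 11) (C.cons (nat_lit 2376) (C.miq (nat_lit 1805943664) (nat_lit 3733169148191526054607913353)) C.nil)) C.nil))) (C.cons (nat_lit 2096) (C.node (nat_lit 4) (nat_lit 8) (nat_lit 11) C.nil) C.nil))) C.nil))) C.nil))))) (C.cons (nat_lit 2576) (C.node (nat_lit 1) (nat_lit 3) (nat_lit 10) (C.cons (nat_lit 1290) (C.miq (nat_lit 369666931) (nat_lit 407431798393263356602027144)) (C.cons (nat_lit 1038) (C.node (nat_lit 1) (nat_lit 8) (nat_lit 10) (C.cons (nat_lit 1314) (C.node (nat_lit 1) (nat_lit 9) (nat_lit 10) (C.cons (nat_lit 1538) (C.node (nat_lit 1) (nat_lit 2) (nat_lit 7) (C.cons (nat_lit 198) (C.miq (nat_lit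 2584873831) (nat_lit 1254876899991071489171785953)) (C.cons (nat_lit 166) (C.node (nat_lit 5) (nat_lit 7) (nat_lit 10) (C.cons (nat_lit 1696) (C.miq (nat_lit 2545179184) (nat_lit 2649975745696087840906871849)) (C.cons (nat_lit 1184) (C.miq (nat_lit 2589394962) (nat_lit 1431380069654799514656440583)) C.nil))) (C.cons (nat_lit 134) (C.node (nat_lit 1) (nat_lit 3) (nat_lit 7) (C.cons (nat_lit 202)
  (C.miq (nat_lit 2316503911) (nat_lit 1254872251411564914365040865)) (C.cons (nat_lit 170) (C.miq (nat_lit 1645677109) (nat_lit 162037989585296458953393193)) (C.cons (nat_lit 138) (C.node (nat_lit 1) (nat_lit 5) (nat_lit 7) (C.cons (nat_lit 674) (C.node (nat_lit 3) (nat_lit 4) (nat_lit 10) (C.cons (nat_lit 1624) (C.miq (nat_lit 1779974944) (nat_lit 1588534743983495396054206493)) (C.cons (nat_lit 1560) (C.miq (nat_lit 2841064459) (nat_lit 814875180014351897287788573)) (C.cons (nat_lit 1304) (C.miq (nat_lit 1253475184) (nat_lit 3793615438870516338381619593)) (C.cons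 (nat_lit 1112) (C.miq (nat_lit 1779974944) (nat_lit 1588534743839380207978350621)) (C.cons (nat_lit 1048) (C.node (nat_lit 1) (nat_lit 4) (nat_lit 5) (C.cons (nat_lit 2098) (C.miq (nat_lit 656083284) (nat_lit 2633078749189657692172583473)) (C.cons (nat_lit 122) (C.miq (nat_lit 2585004901) (nat_lit 1415662484473314977800390881)) (C.cons (nat_lit 118) (C.miq (nat_lit 2585004901) (nat_lit 1415662484473314977800128737)) (C.cons (nat_lit 114) (C.miq (nat_lit 2585004901) (nat_lit 1415662484473314977799866593)) (C.cons (nat_lit 58) (C.miq (nat_lit 1899140416) (nat_lit 1254876899099627009553007153)) (C.cons (nat_lit 54) (C.miq (nat_lit 1269112961) (nat_lit 3752506740792628962287288583)) (C.cons (nat_lit 50) (C.node (nat_lit 1) (nat_lit 4) (nat_lit 11) (C.cons (nat_lit 2322) (C.miq (nat_lit 873794442) (nat_lit 60465937347803459035991809)) (C.cons (nat_lit 2066) (C.node (nat_lit 1) (nat_lit 6) (nat_lit 7) (C.cons (nat_lit 450) (C.node (nat_lit 1) (nat_lit 2)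 (nat_lit 4) (C.cons (nat_lit 598) (C.miq (nat_lit 2173986640) (nat_lit 722943856808967720957708513)) (C.cons (nat_lit 534) (C.miq (nat_lit 2173986640) (nat_lit 645572604353631453776513249)) (C.cons (nat_lit 86) (C.miq (nat_lit 1898153536) (nat_lit 1254872250457070160221897041)) C.nil)))) C.nil)) C.nil))) C.nil)))))))) C.nil)))))) (C.cons (nat_lit 162) (C.node (nat_lit 1) (nat_lit 3) (nat_lit 11) (C.cons (nat_lit 2314) (C.node (nat_lit 3) (nat_lit 5) (nat_lit 11) (C.cons (nat_lit 2600) (C.miq (nat_lit 2073338704) (nat_lit 3114214513367577960167572521)) (C.cons (nat_lit 2088) (C.node (nat_lit 4) (nat_lit 8) (nat_lit 11) (C.cons (nat_lit 2352) (C.miq (nat_lit 2508260531) (nat_lit 1588538174778690849508821021)) C.nil)) C.nil))) (C.cons (nat_lit 2090) (C.miq (nat_lit 1369879328) (nat_lit 3793651151988273051611760669)) (C.cons (nat_lit 2058) (C.node (nat_lit 1) (nat_lit 8) (nat_lit 11) (C.cons (nat_lit 2322) (C.node (nat_lit 4) (nat_lit 5) (nat_lit 11) C.nil)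 (C.cons (nat_lit 2306) (C.node (nat_lit 1) (nat_lit 4) (nat_lit 11) C.nil) C.nil))) C.nil)))) C.nil))) C.nil)))) C.nil)))) C.nil)) (C.cons (nat_lit 1282) (C.node (nat_lit 1) (nat_lit 5) (nat_lit 10) (C.cons (nat_lit 1570) (C.node (nat_lit 1) (nat_lit 9) (nat_lit 11) (C.cons (nat_lit 2566) (C.miq (nat_lit 1394712761) (nat_lit 1254893962447960578353139457)) (C.cons (nat_lit 2562) (C.node (nat_lit 2) (nat_lit 9) (nat_lit 10) (C.cons (nat_lit 1556) (C.miq (nat_lit 306815749) (nat_lit 1881117537000738666348348457)) (C.cons (nat_lit 1540) (C.node (nat_lit 3) (nat_lit 4) (nat_lit 10) (C.cons (nat_lit 1624) (C.miq (nat_lit 1779974944) (nat_lit 1549849117755827262463608861)) (C.cons (nat_lit 1560) (C.miq (nat_lit 2056631104) (nat_lit 1898055467147225771573053469)) (C.cons (nat_lit 1304) (C.miq (nat_lit 1253475184) (nat_lit 3793615438870516338381619593)) (C.cons (nat_lit 1112) (C.miq (nat_lit 1779974944) (nat_lit 1549849117611712074387752989)) (C.cons (nat_lit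 1048) (C.node (nat_lit 1) (nat_lit 2) (nat_lit 11) (C.cons (nat_lit 2086) (C.node (nat_lit 2) (nat_lit 9) (nat_lit 11) (C.cons (nat_lit 2628) (C.miq (nat_lit 462923296) (nat_lit 3249614205144713299629507653)) C.nil)) (C.cons (nat_lit 2054) (C.node (nat_lit 2) (nat_lit 5) (nat_lit 11) C.nil) C.nil))) C.nil)))))) C.nil))) C.nil))) (C.cons (nat_lit 1058) (C.node (nat_lit 1) (nat_lit 9) (nat_lit 10) (C.cons (nat_lit 1538) (C.node (nat_lit 1) (nat_lit 2) (nat_lit 7) (C.cons (nat_lit 198)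
  (C.miq (nat_lit 2584873831) (nat_lit 1254876899991071489171785953)) (C.cons (nat_lit 166) (C.node (nat_lit 1) (nat_lit 3) (nat_lit 7) (C.cons (nat_lit 202) (C.miq (nat_lit 2316503911) (nat_lit 1254872251411564914365040865)) (C.cons (nat_lit 138) (C.node (nat_lit 2) (nat_lit 5) (nat_lit 11) (C.cons (nat_lit 2340) (C.miq (nat_lit 2182788464) (nat_lit 1254935855362624360277018849)) (C.cons (nat_lit 2596) (C.miq (nat_lit 2451223920) (nat_lit 1254935855434681954314946785)) (C.cons (nat_lit 2084) (C.node (nat_lit 1) (nat_lit 2) (nat_lit 11) (C.cons (nat_lit 2566) (C.node (nat_lit 5) (nat_lit 9) (nat_lit 11) (C.cons (nat_lit 2600) (C.miq (nat_lit 2073338704) (nat_lit 3114214513367577960167572521)) C.nil)) (C.cons (nat_lit 2054) (C.node (nat_lit 1) (nat_lit 9) (nat_lit 11) C.nil) C.nil))) C.nil)))) C.nil))) (C.cons (nat_lit 134) (C.node (nat_lit 1) (nat_lit 3) (nat_lit 7) (C.cons (nat_lit 202) (C.miq (nat_lit 2316503911) (nat_lit 1254872251411564914365040865))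 (C.cons (nat_lit 170) (C.miq (nat_lit 1645677109) (nat_lit 162037989585296458953393193)) (C.cons (nat_lit 138) (C.node (nat_lit 3) (nat_lit 6) (nat_lit 11) (C.cons (nat_lit 2376) (C.miq (nat_lit 1668397066) (nat_lit 166889649658508359345835777)) (C.cons (nat_lit 2632) (C.node (nat_lit 3) (nat_lit 9) (nat_lit 10) (C.cons (nat_lit 1560) (C.miq (nat_lit 1530464164) (nat_lit 3181903106488935739305755795)) (C.cons (nat_lit 1544) (C.node (nat_lit 2) (nat_lit 6) (nat_lit 11) (C.cons (nat_lit 2372) (C.miq (nat_lit 1662171400) (nat_lit 1254908757177772307389026049)) (C.cons (nat_lit 2116) (C.node (nat_lit 6) (nat_lit 8) (nat_lit 11) C.nil) C.nil))) C.nil))) (C.cons (nat_lit 2120) (C.node (nat_lit 3) (nat_lit 9) (nat_lit 11) (C.cons (nat_lit 2600) (C.miq (nat_lit 2073338704) (nat_lit 3114214513367577960167572521)) (C.cons (nat_lit 2568) (C.node (nat_lit 6) (nat_lit 9) (nat_lit 11) C.nil) C.nil))) C.nil)))) C.nil)))) C.nil)))) C.nil)) C.nil))) C.nil))) (C.cons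 (nat_lit 1034) (C.node (nat_lit 1) (nat_lit 8) (nat_lit 10) (C.cons (nat_lit 1314) (C.node (nat_lit 1) (nat_lit 2) (nat_lit 10) (C.cons (nat_lit 1542) (C.miq (nat_lit 2544967786) (nat_lit 2633068880181585125283333189)) (C.cons (nat_lit 1030) (C.node (nat_lit 1) (nat_lit 9) (nat_lit 10) (C.cons (nat_lit 1538) (C.node (nat_lit 2) (nat_lit 6) (nat_lit 11) (C.cons (nat_lit 2628) (C.miq (nat_lit 462923296) (nat_lit 3249614205144713299629507653)) (C.cons (nat_lit 2372) (C.node (nat_lit 4) (nat_lit 8) (nat_lit 10) (C.cons (nat_lit 1304) (C.miq (nat_lit 946578439) (nat_lit 2867631221647933679828272275)) (C.cons (nat_lit 1300) (C.miq (nat_lit 1219994208) (nat_lit 2940129194806016124305605701)) (C.cons (nat_lit 1296) (C.node (nat_lit 3) (nat_lit 6) (nat_lit 11) (C.cons (nat_lit 2632) (C.node (nat_lit 1) (nat_lit 8) (nat_lit 11) (C.cons (nat_lit 2322) (C.miq (nat_lit 1779966027) (nat_lit 1588572282958222753723975709)) (C.cons (nat_lit 2314) (C.miq (nat_lit 647007025)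 (nat_lit 697555050079002368563415306)) (C.cons (nat_lit 2306) (C.node (nat_lit 3) (nat_lit 8) (nat_lit 11) (C.cons (nat_lit 2344) (C.miq (nat_lit 1784160315) (nat_lit 1588572282958222298458884125)) C.nil)) C.nil)))) (C.cons (nat_lit 2120) (C.node (nat_lit 6) (nat_lit 9) (nat_lit 11) C.nil) C.nil))) C.nil)))) (C.cons (nat_lit 2116) (C.node (nat_lit 2) (nat_lit 8) (nat_lit 11) (C.cons (nat_lit 2340) (C.miq (nat_lit 1264190081) (nat_lit 3752527345805752849110532359)) (C.cons (nat_lit 2308) (C.node (nat_lit 6) (nat_lit 8) (nat_lit 11) C.nil) C.nil))) C.nil)))) C.nil)) C.nil))) (C.cons (nat_lit 1282) (C.node (nat_lit 2) (nat_lit 6) (nat_lit 11) (C.cons (nat_lit 2628) (C.miq (nat_lit 462923296) (nat_lit 3249614205144713299629507653)) (C.cons (nat_lit 2372) (C.node (nat_lit 3) (nat_lit 6) (nat_lit 11) (C.cons (nat_lit 2632) (C.node (nat_lit 3) (nat_lit 6) (nat_lit 7) (C.cons (nat_lit 216) (C.miq (nat_lit 2335574644) (nat_lit 3181898974859615991760422035))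 (C.cons (nat_lit 206) (C.miq (nat_lit 2316503911) (nat_lit 1250036548133106397666478305)) (C.cons (nat_lit 204)
  (C.miq (nat_lit 308480185) (nat_lit 246630514922573008445378305)) (C.cons (nat_lit 202) (C.miq (nat_lit 640781200) (nat_lit 244207867723516428048600833)) (C.cons (nat_lit 200) (C.node (nat_lit 2) (nat_lit 6) (nat_lit 7) (C.cons (nat_lit 212) (C.miq (nat_lit 2871461988) (nat_lit 2635479888978357487966355793)) (C.cons (nat_lit 198) (C.miq (nat_lit 824610955) (nat_lit 239415864261311122683203329)) (C.cons (nat_lit 196) (C.node (nat_lit 6) (nat_lit 7) (nat_lit 10) (C.cons (nat_lit 1472) (C.miq (nat_lit 1131809704) (nat_lit 241791381060315980039720705)) (C.cons (nat_lit 1728) (C.miq (nat_lit 1130826650) (nat_lit 241806765644870979921383169)) (C.cons (nat_lit 1216) (C.node (nat_lit 7) (nat_lit 9) (nat_lit 10) (C.cons (nat_lit 1696) (C.miq (nat_lit 2545179184) (nat_lit 2649975745696087840906871849)) (C.cons (nat_lit 1664) (C.node (nat_lit 1) (nat_lit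 6) (nat_lit 7) (C.cons (nat_lit 962) (C.miq (nat_lit 1133579111) (nat_lit 632289805380396203301275873)) (C.cons (nat_lit 450) (C.miq (nat_lit 1115753319) (nat_lit 317969092280591501152618721)) (C.cons (nat_lit 706) (C.miq (nat_lit 1133579111) (nat_lit 632289805380396203284498657)) (C.cons (nat_lit 194) (C.node (nat_lit 6) (nat_lit 7) (nat_lit 8) (C.cons (nat_lit 960) (C.miq (nat_lit 409535155) (nat_lit 1160578434551232664523245597)) (C.cons (nat_lit 448) (C.node (nat_lit 4) (nat_lit 6) (nat_lit 7) (C.cons (nat_lit 720) (C.node (nat_lit 3) (nat_lit 4) (nat_lit 7) C.nil) C.nil)) C.nil))) C.nil))))) C.nil))) C.nil)))) C.nil)))) C.nil)))))) (C.cons (nat_lit 2120) (C.node (nat_lit 6) (nat_lit 9) (nat_lit 11) C.nil) C.nil))) (C.cons (nat_lit 2116) (C.node (nat_lit 6) (nat_lit 8) (nat_lit 11) (C.cons (nat_lit 2376) (C.miq (nat_lit 1805943664) (nat_lit 3733169148191526054607913353)) (C.cons (nat_lit 2368) (C.node (nat_lit 2) (nat_lit 8) (nat_lit 11) C.nil)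 C.nil))) C.nil)))) C.nil))) C.nil)))) C.nil))) C.nil))) C.nil)) C.nil))) (C.cons (nat_lit 3136) (C.node (nat_lit 3) (nat_lit 9) (nat_lit 11) (C.cons (nat_lit 2632) (C.node (nat_lit 4) (nat_lit 6) (nat_lit 11) (C.cons (nat_lit 2130) (C.node (nat_lit 4) (nat_lit 9) (nat_lit 11) (C.cons (nat_lit 2576) (C.node (nat_lit 2) (nat_lit 6) (nat_lit 11) (C.cons (nat_lit 2372) (C.ref (nat_lit 301) (nat_lit 205099542782736)) (C.cons (nat_lit 2116) (C.node (nat_lit 6) (nat_lit 8) (nat_lit 11) (C.cons (nat_lit 2368) (C.node (nat_lit 2) (nat_lit 8) (nat_lit 11) (C.cons (nat_lit 2340) (C.node (nat_lit 4) (nat_lit 5) (nat_lit 11) (C.cons (nat_lit 2096) (C.node (nat_lit 4) (nat_lit 8) (nat_lit 11) C.nil) C.nil)) (C.cons (nat_lit 2308) (C.node (nat_lit 4) (nat_lit 5) (nat_lit 11) (C.cons (nat_lit 2352) (C.node (nat_lit 1) (nat_lit 8) (nat_lit 11) (C.cons (nat_lit 2314) (C.node (nat_lit 3) (nat_lit 5) (nat_lit 11) C.nil) C.nil)) C.nil)) C.nil))) C.nil)) C.nil))) C.nil))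 (C.cons (nat_lit 2128) (C.node (nat_lit 4) (nat_lit 9) (nat_lit 11) (C.cons (nat_lit 2578) (C.node (nat_lit 2) (nat_lit 9) (nat_lit 11) (C.cons (nat_lit 2596) (C.node (nat_lit 2) (nat_lit 10) (nat_lit 11) (C.cons (nat_lit 3078) (C.miq (nat_lit 2275476402) (nat_lit 1415656986373055593497102365)) (C.cons (nat_lit 3076) (C.node (nat_lit 1) (nat_lit 7) (nat_lit 9) (C.cons (nat_lit 962) (C.miq (nat_lit 873925528) (nat_lit 1415659384923786330551488257)) (C.cons (nat_lit 930) (C.miq (nat_lit 873925528) (nat_lit 1415659384923786330549391105)) (C.cons (nat_lit 898) (C.miq (nat_lit 873925528) (nat_lit 1415659384923786330547293953)) (C.cons (nat_lit 706) (C.miq (nat_lit 957658736) (nat_lit 3116649077594800278157330657)) (C.cons (nat_lit 674) (C.miq (nat_lit 689223024) (nat_lit 3116649077584667041556793569)) (C.cons (nat_lit 642) (C.node (nat_lit 1) (nat_lit 2) (nat_lit 11) (C.cons (nat_lit 2118) (C.node (nat_lit 2) (nat_lit 8) (nat_lit 11) (C.cons (nat_lit 2308)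 (C.node (nat_lit 6) (nat_lit 8) (nat_lit 11) (C.cons (nat_lit 2368) (C.node (nat_lit 1) (nat_lit 10) (nat_lit 11) C.nil) C.nil)) C.nil)) (C.cons (nat_lit 2054) (C.node (nat_lit 1) (nat_lit 6) (nat_lit 11) (C.cons (nat_lit 2370)
  (C.node (nat_lit 2) (nat_lit 6) (nat_lit 11) (C.cons (nat_lit 2116) (C.node (nat_lit 2) (nat_lit 8) (nat_lit 11) C.nil) C.nil)) (C.cons (nat_lit 2114) (C.node (nat_lit 1) (nat_lit 10) (nat_lit 11) (C.cons (nat_lit 3106) (C.node (nat_lit 1) (nat_lit 3) (nat_lit 11) C.nil) C.nil)) C.nil))) C.nil))) C.nil))))))) C.nil))) (C.cons (nat_lit 2564) (C.node (nat_lit 5) (nat_lit 9) (nat_lit 11) (C.cons (nat_lit 2592) (C.node (nat_lit 4) (nat_lit 5) (nat_lit 11) (C.cons (nat_lit 2352) (C.node (nat_lit 3) (nat_lit 8) (nat_lit 11) (C.cons (nat_lit 2314) (C.miq (nat_lit 2231612561) (nat_lit 1287548684317398189698910738)) (C.cons (nat_lit 2312) (C.node (nat_lit 1) (nat_lit 3) (nat_lit 11) (C.cons (nat_lit 2090) (C.node (nat_lit 1) (nat_lit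 8) (nat_lit 11) C.nil) C.nil)) C.nil))) (C.cons (nat_lit 2096) (C.node (nat_lit 4) (nat_lit 8) (nat_lit 11) C.nil) C.nil))) C.nil)) C.nil))) (C.cons (nat_lit 2576) (C.node (nat_lit 3) (nat_lit 9) (nat_lit 10) (C.cons (nat_lit 1560) (C.miq (nat_lit 1530464164) (nat_lit 3181903106488935739305755795)) (C.cons (nat_lit 1548) (C.node (nat_lit 6) (nat_lit 7) (nat_lit 10) (C.cons (nat_lit 1728) (C.miq (nat_lit 1134168935) (nat_lit 1871438770485391107425306849)) (C.cons (nat_lit 1472) (C.miq (nat_lit 1790215984) (nat_lit 3733169147937072675720855945)) (C.cons (nat_lit 1216) (C.node (nat_lit 7) (nat_lit 9) (nat_lit 10) (C.cons (nat_lit 1696) (C.miq (nat_lit 1135151989) (nat_lit 1871427517971508618497886433)) (C.cons (nat_lit 1664) (C.node (nat_lit 3) (nat_lit 6) (nat_lit 7) (C.cons (nat_lit 216) (C.miq (nat_lit 1251176630) (nat_lit 1871421153589789578578364641)) (C.cons (nat_lit 206) (C.miq (nat_lit 2838563687) (nat_lit 632289805876918062169327841)) (C.cons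 (nat_lit 204) (C.miq (nat_lit 2741736048) (nat_lit 3181963611605415246484800133)) (C.cons (nat_lit 202) (C.miq (nat_lit 2838563687) (nat_lit 632289805876918062169065697)) (C.cons (nat_lit 200) (C.node (nat_lit 2) (nat_lit 3) (nat_lit 7) (C.cons (nat_lit 174) (C.miq (nat_lit 2322664242) (nat_lit 1415656987343581313005127709)) (C.cons (nat_lit 172) (C.miq (nat_lit 3124037927) (nat_lit 1287547928420011647039177349)) (C.cons (nat_lit 142) (C.miq (nat_lit 2322664242) (nat_lit 1415656987343581313003030557)) (C.cons (nat_lit 140) (C.node (nat_lit 1) (nat_lit 3) (nat_lit 7) (C.cons (nat_lit 170) (C.node (nat_lit 1) (nat_lit 2) (nat_lit 7) (C.cons (nat_lit 198) (C.miq (nat_lit 329413894) (nat_lit 1871420821266627877188995297)) (C.cons (nat_lit 134) (C.node (nat_lit 3) (nat_lit 5) (nat_lit 11) (C.cons (nat_lit 2344) (C.miq (nat_lit 2148907635) (nat_lit 42355643935771211267181704)) (C.cons (nat_lit 2088) (C.node (nat_lit 1) (nat_lit 10) (nat_lit 11) (C.cons (nat_lit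 3110) (C.miq (nat_lit 2275476402) (nat_lit 1415656986373055593499199517)) (C.cons (nat_lit 3106) (C.miq (nat_lit 2337475095) (nat_lit 2524244362006925410365473939)) (C.cons (nat_lit 3078) (C.miq (nat_lit 2275476402) (nat_lit 1415656986373055593497102365)) (C.cons (nat_lit 3074) (C.node (nat_lit 1) (nat_lit 2) (nat_lit 3) (C.cons (nat_lit 78) (C.node (nat_lit 1) (nat_lit 3) (nat_lit 10) (C.cons (nat_lit 1290) (C.miq (nat_lit 2203820400) (nat_lit 2524307965662436285424403603)) (C.cons (nat_lit 1034) (C.node (nat_lit 1) (nat_lit 3) (nat_lit 11) (C.cons (nat_lit 2314) (C.miq (nat_lit 2872444946) (nat_lit 3181912920598131876471636231)) (C.cons (nat_lit 2058) (C.node (nat_lit 3) (nat_lit 8) (nat_lit 11) C.nil) C.nil))) C.nil))) (C.cons (nat_lit 14) (C.node (nat_lit 1) (nat_lit 2) (nat_lit 10) (C.cons (nat_lit 1062) (C.node (nat_lit 2) (nat_lit 10) (nat_lit 11) (C.cons (nat_lit 3076) (C.node (nat_lit 5) (nat_lit 10) (nat_lit 11) C.nil) C.nil)) (C.cons (nat_lit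 1030) (C.node (nat_lit 1) (nat_lit 3) (nat_lit 11) (C.cons (nat_lit 2314) (C.node (nat_lit 6) (nat_lit 8) (nat_lit 11) (C.cons (nat_lit 2372) (C.miq (nat_lit 1645459465) (nat_lit 16973513972666586354093825)) C.nil)) (C.cons (nat_lit 2058) (C.node (nat_lit 3) (nat_lit 8) (nat_lit 11) C.nil) C.nil))) C.nil))) C.nil))) C.nil))))) C.nil))) C.nil)))
  (C.cons (nat_lit 138) (C.node (nat_lit 3) (nat_lit 5) (nat_lit 7) (C.cons (nat_lit 680) (C.miq (nat_lit 1698301842) (nat_lit 1287526160820648178344526469)) (C.cons (nat_lit 184) (C.miq (nat_lit 1235439799) (nat_lit 1871420563122279484116961505)) (C.cons (nat_lit 168) (C.node (nat_lit 3) (nat_lit 4) (nat_lit 7) (C.cons (nat_lit 664) (C.node (nat_lit 3) (nat_lit 4) (nat_lit 10) (C.cons (nat_lit 1304) (C.miq (nat_lit 1731464104) (nat_lit 802732961416673012527664897)) (C.cons (nat_lit 1112) (C.miq (nat_lit 1670554736) (nat_lit 1871437331367721552987882643)) (C.cons (nat_lit 1048) (C.node (nat_lit 3) (nat_lit 5)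 (nat_lit 9) (C.cons (nat_lit 808) (C.node (nat_lit 3) (nat_lit 4) (nat_lit 8) (C.cons (nat_lit 282) (C.miq (nat_lit 691537729) (nat_lit 976816913923865970629805203)) (C.cons (nat_lit 280) (C.node (nat_lit 1) (nat_lit 9) (nat_lit 10) (C.cons (nat_lit 1634) (C.miq (nat_lit 355969408) (nat_lit 203121139292501597540126465)) (C.cons (nat_lit 1602) (C.miq (nat_lit 1265238929) (nat_lit 3791212972033422236850455051)) (C.cons (nat_lit 1570) (C.miq (nat_lit 355969408) (nat_lit 203121139274487199030644481)) (C.cons (nat_lit 1538) (C.node (nat_lit 5) (nat_lit 9) (nat_lit 10) (C.cons (nat_lit 1632) (C.miq (nat_lit 1497066016) (nat_lit 3181934687134357340374762565)) (C.cons (nat_lit 1568) (C.node (nat_lit 4) (nat_lit 7) (nat_lit 8) (C.cons (nat_lit 436) (C.miq (nat_lit 323488114) (nat_lit 338504081133001819236336261)) (C.cons (nat_lit 432) (C.miq (nat_lit 341378947) (nat_lit 678217032780566570312663433)) (C.cons (nat_lit 404) (C.miq (nat_lit 323488114) (nat_lit 338504081133001819234239109))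 (C.cons (nat_lit 400) (C.node (nat_lit 4) (nat_lit 5) (nat_lit 7) (C.cons (nat_lit 180) (C.node (nat_lit 4) (nat_lit 6) (nat_lit 7) C.nil) C.nil)) C.nil))))) C.nil))) C.nil))))) C.nil))) (C.cons (nat_lit 552) (C.node (nat_lit 3) (nat_lit 8) (nat_lit 9) (C.cons (nat_lit 776) (C.node (nat_lit 4) (nat_lit 6) (nat_lit 7) (C.cons (nat_lit 212) (C.node (nat_lit 1) (nat_lit 2) (nat_lit 7) (C.cons (nat_lit 134) (C.node (nat_lit 4) (nat_lit 5) (nat_lit 7) C.nil) C.nil)) (C.cons (nat_lit 208) (C.node (nat_lit 6) (nat_lit 7) (nat_lit 9) (C.cons (nat_lit 962) (C.miq (nat_lit 1133579111) (nat_lit 632289805380396203301275873)) (C.cons (nat_lit 960) (C.node (nat_lit 1) (nat_lit 6) (nat_lit 7) C.nil) (C.cons (nat_lit 706) (C.miq (nat_lit 1133579111) (nat_lit 632289805380396203284498657)) C.nil)))) C.nil))) C.nil)) C.nil))) C.nil)))) (C.cons (nat_lit 152) (C.node (nat_lit 3) (nat_lit 7) (nat_lit 9) (C.cons (nat_lit 648) (C.node (nat_lit 1) (nat_lit 2) (nat_lit 7) (C.cons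 (nat_lit 134) (C.node (nat_lit 2) (nat_lit 6) (nat_lit 7) C.nil) C.nil)) C.nil)) C.nil))) C.nil)))) C.nil))) C.nil))))) C.nil)))))) C.nil))) C.nil)))) (C.cons (nat_lit 1544) (C.node (nat_lit 6) (nat_lit 7) (nat_lit 10) (C.cons (nat_lit 1728) (C.miq (nat_lit 1134168935) (nat_lit 1866603067206932590726482145)) (C.cons (nat_lit 1472) (C.miq (nat_lit 1790215984) (nat_lit 3733169147937072675720855945)) (C.cons (nat_lit 1216) (C.node (nat_lit 7) (nat_lit 9) (nat_lit 10) (C.cons (nat_lit 1696) (C.miq (nat_lit 1135151989) (nat_lit 1866591814693050101799061729)) (C.cons (nat_lit 1664) (C.node (nat_lit 3) (nat_lit 4) (nat_lit 10) (C.cons (nat_lit 1304) (C.miq (nat_lit 2256158899) (nat_lit 1470077851300528023520413725)) (C.cons (nat_lit 1112) (C.node (nat_lit 3) (nat_lit 4) (nat_lit 7) (C.cons (nat_lit 664) (C.miq (nat_lit 641272391) (nat_lit 3181904655683288456079344787)) (C.cons (nat_lit 184) (C.miq (nat_lit 2587102069) (nat_lit 1344335861116052157144500449))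 (C.cons (nat_lit 152) (C.node (nat_lit 3) (nat_lit 4) (nat_lit 9) (C.cons (nat_lit 792) (C.node (nat_lit 3) (nat_lit 7) (nat_lit 9) (C.cons (nat_lit 680) (C.miq (nat_lit 1687488567) (nat_lit 678249314347946977631142281)) (C.cons (nat_lit 648) (C.node (nat_lit 1) (nat_lit 3) (nat_lit 4) (C.cons (nat_lit 58) (C.node (nat_lit 1) (nat_lit 3) (nat_lit 11) (C.cons (nat_lit 2314) (C.miq (nat_lit 2958133571) (nat_lit 42355090533446380043240216))
  (C.cons (nat_lit 2058) (C.node (nat_lit 4) (nat_lit 5) (nat_lit 11) (C.cons (nat_lit 2352) (C.miq (nat_lit 280312196) (nat_lit 2747889458042436299204330264)) (C.cons (nat_lit 2096) (C.node (nat_lit 1) (nat_lit 3) (nat_lit 10) (C.cons (nat_lit 1290) (C.miq (nat_lit 1501773985) (nat_lit 957470319203866540509889683)) (C.cons (nat_lit 1038) (C.miq (nat_lit 2217805474) (nat_lit 70122549126201720968184901)) (C.cons (nat_lit 1034) (C.node (nat_lit 1) (nat_lit 3) (nat_lit 7) (C.cons (nat_lit 206) (C.miq (nat_lit 2468001392)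 (nat_lit 1250100152166356708576397537)) (C.cons (nat_lit 202) (C.miq (nat_lit 2468001392) (nat_lit 1250100152166356691396528353)) (C.cons (nat_lit 142) (C.miq (nat_lit 2322664242) (nat_lit 1415656987343581313003030557)) (C.cons (nat_lit 138) (C.node (nat_lit 2) (nat_lit 3) (nat_lit 9) (C.cons (nat_lit 556) (C.miq (nat_lit 588748096) (nat_lit 166843661413246705006215729)) (C.cons (nat_lit 524) (C.node (nat_lit 3) (nat_lit 5) (nat_lit 9) (C.cons (nat_lit 552) (C.node (nat_lit 1) (nat_lit 2) (nat_lit 3) C.nil) C.nil)) C.nil))) C.nil))))) C.nil)))) C.nil))) C.nil))) (C.cons (nat_lit 26) (C.node (nat_lit 3) (nat_lit 4) (nat_lit 5) (C.cons (nat_lit 56) (C.node (nat_lit 2) (nat_lit 3) (nat_lit 9) (C.cons (nat_lit 556) (C.node (nat_lit 5) (nat_lit 7) (nat_lit 9) (C.cons (nat_lit 930) (C.miq (nat_lit 355760416) (nat_lit 67721447297503664147333765)) (C.cons (nat_lit 928) (C.miq (nat_lit 1498118192) (nat_lit 3114234841037776475991638409)) (C.cons (nat_lit 674)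 (C.miq (nat_lit 355760416) (nat_lit 67721447225446070109405829)) (C.cons (nat_lit 672) (C.node (nat_lit 2) (nat_lit 8) (nat_lit 9) (C.cons (nat_lit 836) (C.node (nat_lit 4) (nat_lit 7) (nat_lit 9) (C.cons (nat_lit 720) (C.miq (nat_lit 342362002) (nat_lit 407412853033431707647476357)) (C.cons (nat_lit 656) (C.node (nat_lit 4) (nat_lit 6) (nat_lit 7) (C.cons (nat_lit 212) (C.miq (nat_lit 2253034096) (nat_lit 1344396365590768751800943237)) (C.cons (nat_lit 208) (C.node (nat_lit 6) (nat_lit 7) (nat_lit 9) (C.cons (nat_lit 706) (C.miq (nat_lit 1133579111) (nat_lit 632289805380396203284498657)) C.nil)) C.nil))) C.nil))) (C.cons (nat_lit 772) (C.node (nat_lit 2) (nat_lit 9) (nat_lit 11) (C.cons (nat_lit 2566) (C.node (nat_lit 5) (nat_lit 9) (nat_lit 11) (C.cons (nat_lit 2592) (C.node (nat_lit 1) (nat_lit 4) (nat_lit 9) (C.cons (nat_lit 594) (C.miq (nat_lit 1906025571) (nat_lit 3102162830615736671648875608)) C.nil)) C.nil)) (C.cons (nat_lit 2564) (C.node (nat_lit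 1) (nat_lit 9) (nat_lit 11) (C.cons (nat_lit 2594) (C.node (nat_lit 5) (nat_lit 8) (nat_lit 9) (C.cons (nat_lit 864) (C.miq (nat_lit 2209780741) (nat_lit 3181908695435520775230128689)) C.nil)) C.nil)) C.nil))) C.nil))) C.nil))))) (C.cons (nat_lit 524) (C.node (nat_lit 3) (nat_lit 5) (nat_lit 9) (C.cons (nat_lit 552) (C.node (nat_lit 4) (nat_lit 7) (nat_lit 9) (C.cons (nat_lit 720) (C.node (nat_lit 1) (nat_lit 4) (nat_lit 9) (C.cons (nat_lit 534) (C.node (nat_lit 4) (nat_lit 9) (nat_lit 10) (C.cons (nat_lit 1552) (C.node (nat_lit 1) (nat_lit 4) (nat_lit 6) (C.cons (nat_lit 114) (C.miq (nat_lit 542218084) (nat_lit 42322254429408504461787856)) (C.cons (nat_lit 82) (C.node (nat_lit 2) (nat_lit 4) (nat_lit 6) (C.cons (nat_lit 116) (C.node (nat_lit 2) (nat_lit 4) (nat_lit 7) (C.cons (nat_lit 404) (C.miq (nat_lit 2190701584) (nat_lit 633484379162204839537738899)) C.nil)) C.nil)) C.nil))) C.nil)) (C.cons (nat_lit 530) (C.node (nat_lit 2) (nat_lit 4) (nat_lit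 9) (C.cons (nat_lit 1556) (C.node (nat_lit 6) (nat_lit 9) (nat_lit 10) (C.cons (nat_lit 1634) (C.miq (nat_lit 339124409) (nat_lit 1344355653720900202228354817)) (C.cons (nat_lit 1632) (C.miq (nat_lit 1498114592) (nat_lit 3114234841235938140950955077)) (C.cons (nat_lit 1602) (C.miq (nat_lit 339124409) (nat_lit 1344355063425089843522703105)) (C.cons (nat_lit 1600) (C.node (nat_lit 1) (nat_lit 3) (nat_lit 10) C.nil) C.nil))))) (C.cons (nat_lit 532) (C.node (nat_lit 4) (nat_lit 9) (nat_lit 10) (C.cons (nat_lit 1552)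
  (C.node (nat_lit 1) (nat_lit 3) (nat_lit 10) C.nil) C.nil)) C.nil))) C.nil))) (C.cons (nat_lit 656) (C.node (nat_lit 6) (nat_lit 7) (nat_lit 9) (C.cons (nat_lit 962) (C.miq (nat_lit 1133579111) (nat_lit 632289805380396203301275873)) (C.cons (nat_lit 960) (C.miq (nat_lit 1766553648) (nat_lit 3114234841046783675246379401)) (C.cons (nat_lit 706) (C.miq (nat_lit 1133579111) (nat_lit 632289805380396203284498657)) (C.cons (nat_lit 704) (C.node (nat_lit 3) (nat_lit 6) (nat_lit 7) (C.cons (nat_lit 204) (C.node (nat_lit 4) (nat_lit 6) (nat_lit 7) C.nil) (C.cons (nat_lit 202) (C.miq (nat_lit 2838563687) (nat_lit 632289805876918062169065697)) C.nil))) C.nil))))) C.nil))) C.nil)) C.nil))) C.nil)) C.nil))) C.nil))) (C.cons (nat_lit 536) (C.node (nat_lit 3) (nat_lit 7) (nat_lit 9) (C.cons (nat_lit 680) (C.node (nat_lit 1) (nat_lit 3) (nat_lit 7) (C.cons (nat_lit 206) (C.miq (nat_lit 2838563687) (nat_lit 632289805876918062169327841)) (C.cons (nat_lit 202) (C.miq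 (nat_lit 2838563687) (nat_lit 632289805876918062169065697)) (C.cons (nat_lit 142) (C.miq (nat_lit 2322664242) (nat_lit 1415656987343581313003030557)) (C.cons (nat_lit 138) (C.node (nat_lit 2) (nat_lit 3) (nat_lit 7) (C.cons (nat_lit 204) (C.node (nat_lit 2) (nat_lit 3) (nat_lit 9) (C.cons (nat_lit 780) (C.miq (nat_lit 2204865136) (nat_lit 3181963611389242464371016325)) (C.cons (nat_lit 524) (C.node (nat_lit 3) (nat_lit 8) (nat_lit 9) (C.cons (nat_lit 776) (C.node (nat_lit 2) (nat_lit 3) (nat_lit 10) (C.cons (nat_lit 1292) (C.miq (nat_lit 3123054647) (nat_lit 1321397851369220164421419401)) (C.cons (nat_lit 1038) (C.miq (nat_lit 2251424929) (nat_lit 246625718789937580475286675)) (C.cons (nat_lit 1036) (C.node (nat_lit 1) (nat_lit 2) (nat_lit 3) (C.cons (nat_lit 46) (C.node (nat_lit 1) (nat_lit 2) (nat_lit 7) C.nil) (C.cons (nat_lit 14) (C.node (nat_lit 1) (nat_lit 2) (nat_lit 7) (C.cons (nat_lit 166) (C.node (nat_lit 2) (nat_lit 4) (nat_lit 7) (C.cons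 (nat_lit 404) (C.node (nat_lit 2) (nat_lit 7) (nat_lit 10) C.nil) C.nil)) (C.cons (nat_lit 134) (C.node (nat_lit 1) (nat_lit 3) (nat_lit 10) C.nil) C.nil))) C.nil))) C.nil)))) C.nil)) C.nil))) (C.cons (nat_lit 140) (C.node (nat_lit 3) (nat_lit 6) (nat_lit 7) (C.cons (nat_lit 200) (C.node (nat_lit 2) (nat_lit 3) (nat_lit 9) (C.cons (nat_lit 780) (C.node (nat_lit 2) (nat_lit 3) (nat_lit 10) (C.cons (nat_lit 1038) (C.miq (nat_lit 1663584784) (nat_lit 942968356165168228685251731)) (C.cons (nat_lit 1036) (C.node (nat_lit 1) (nat_lit 3) (nat_lit 10) (C.cons (nat_lit 1290) (C.miq (nat_lit 321366160) (nat_lit 169271216246464468417318657)) (C.cons (nat_lit 1034) (C.node (nat_lit 3) (nat_lit 8) (nat_lit 10) (C.cons (nat_lit 1288) (C.node (nat_lit 1) (nat_lit 2) (nat_lit 7) C.nil) C.nil)) C.nil))) C.nil))) (C.cons (nat_lit 524) (C.node (nat_lit 3) (nat_lit 8) (nat_lit 9) (C.cons (nat_lit 776) (C.node (nat_lit 4) (nat_lit 9) (nat_lit 10) (C.cons (nat_lit 1556)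 (C.node (nat_lit 6) (nat_lit 9) (nat_lit 10) (C.cons (nat_lit 1634) (C.miq (nat_lit 339124409) (nat_lit 1344355653720900202228354817)) (C.cons (nat_lit 1632) (C.miq (nat_lit 1498114592) (nat_lit 3114234841235938140950955077)) (C.cons (nat_lit 1602) (C.miq (nat_lit 339124409) (nat_lit 1344355063425089843522703105)) (C.cons (nat_lit 1600) (C.node (nat_lit 4) (nat_lit 7) (nat_lit 9) C.nil) C.nil))))) (C.cons (nat_lit 1552) (C.node (nat_lit 1) (nat_lit 7) (nat_lit 9) (C.cons (nat_lit 962) (C.miq (nat_lit 1133579111) (nat_lit 632289805380396203301275873)) (C.cons (nat_lit 898) (C.node (nat_lit 4) (nat_lit 7) (nat_lit 9) C.nil) (C.cons (nat_lit 706) (C.miq (nat_lit 1133579111) (nat_lit 632289805380396203284498657)) C.nil)))) C.nil))) C.nil)) C.nil))) C.nil)) C.nil))) C.nil))))) (C.cons (nat_lit 648) (C.node (nat_lit 4) (nat_lit 9) (nat_lit 10) (C.cons (nat_lit 1556) (C.node (nat_lit 6) (nat_lit 9) (nat_lit 10) (C.cons (nat_lit 1634) (C.miq (nat_lit 339124409)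 (nat_lit 1344355653720900202228354817)) (C.cons (nat_lit 1632) (C.miq (nat_lit 1498114592) (nat_lit 3114234841235938140950955077))
  (C.cons (nat_lit 1602) (C.miq (nat_lit 339124409) (nat_lit 1344355063425089843522703105)) (C.cons (nat_lit 1600) (C.node (nat_lit 1) (nat_lit 9) (nat_lit 10) (C.cons (nat_lit 1570) (C.node (nat_lit 1) (nat_lit 10) (nat_lit 11) (C.cons (nat_lit 3078) (C.miq (nat_lit 2275476402) (nat_lit 1415656986373055593497102365)) (C.cons (nat_lit 3074) (C.node (nat_lit 1) (nat_lit 2) (nat_lit 10) (C.cons (nat_lit 1038) (C.miq (nat_lit 306815749) (nat_lit 1881117537000738666348348457)) (C.cons (nat_lit 1030) (C.node (nat_lit 1) (nat_lit 6) (nat_lit 10) (C.cons (nat_lit 1346) (C.miq (nat_lit 840581254) (nat_lit 1245214107567102671261401425)) (C.cons (nat_lit 1090) (C.node (nat_lit 2) (nat_lit 10) (nat_lit 11) (C.cons (nat_lit 3108) (C.node (nat_lit 2) (nat_lit 3) (nat_lit 10) (C.cons (nat_lit 1292) (C.miq (nat_lit 2276601946) (nat_lit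 2635482120063864262111790121)) C.nil)) C.nil)) C.nil))) C.nil))) C.nil))) (C.cons (nat_lit 1538) (C.node (nat_lit 5) (nat_lit 9) (nat_lit 10) (C.cons (nat_lit 1568) (C.node (nat_lit 4) (nat_lit 5) (nat_lit 10) (C.cons (nat_lit 1328) (C.node (nat_lit 4) (nat_lit 5) (nat_lit 7) (C.cons (nat_lit 180) (C.miq (nat_lit 3125086503) (nat_lit 1605495418978659154347164293)) (C.cons (nat_lit 176) (C.node (nat_lit 7) (nat_lit 8) (nat_lit 10) (C.cons (nat_lit 1412) (C.miq (nat_lit 2231870610) (nat_lit 2747914435160485370584696340)) (C.cons (nat_lit 1408) (C.node (nat_lit 2) (nat_lit 7) (nat_lit 10) (C.cons (nat_lit 1188) (C.node (nat_lit 3) (nat_lit 5) (nat_lit 7) C.nil) C.nil)) C.nil))) C.nil))) (C.cons (nat_lit 1072) (C.node (nat_lit 4) (nat_lit 8) (nat_lit 10) (C.cons (nat_lit 1296) (C.node (nat_lit 1) (nat_lit 3) (nat_lit 10) (C.cons (nat_lit 1034) (C.node (nat_lit 1) (nat_lit 4) (nat_lit 9) C.nil) C.nil)) C.nil)) C.nil))) C.nil)) C.nil))) C.nil))))) (C.cons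 (nat_lit 1552) (C.node (nat_lit 1) (nat_lit 10) (nat_lit 11) (C.cons (nat_lit 3110) (C.miq (nat_lit 2275476402) (nat_lit 1415656986373055593499199517)) (C.cons (nat_lit 3106) (C.node (nat_lit 2) (nat_lit 10) (nat_lit 11) (C.cons (nat_lit 3076) (C.node (nat_lit 3) (nat_lit 5) (nat_lit 11) (C.cons (nat_lit 2344) (C.miq (nat_lit 461874480) (nat_lit 2940129195314359811862758441)) (C.cons (nat_lit 2088) (C.node (nat_lit 1) (nat_lit 3) (nat_lit 11) (C.cons (nat_lit 2314) (C.node (nat_lit 1) (nat_lit 4) (nat_lit 11) C.nil) C.nil)) C.nil))) C.nil)) (C.cons (nat_lit 3078) (C.miq (nat_lit 2275476402) (nat_lit 1415656986373055593497102365)) (C.cons (nat_lit 3074) (C.node (nat_lit 2) (nat_lit 10) (nat_lit 11) (C.cons (nat_lit 3108) (C.node (nat_lit 5) (nat_lit 7) (nat_lit 10) (C.cons (nat_lit 1440) (C.miq (nat_lit 629193331) (nat_lit 349417876630899338624175240)) (C.cons (nat_lit 1184) (C.node (nat_lit 2) (nat_lit 4) (nat_lit 10) (C.cons (nat_lit 1300) (C.node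 (nat_lit 2) (nat_lit 7) (nat_lit 10) (C.cons (nat_lit 1156) (C.node (nat_lit 4) (nat_lit 5) (nat_lit 10) C.nil) C.nil)) (C.cons (nat_lit 1044) (C.node (nat_lit 2) (nat_lit 7) (nat_lit 10) (C.cons (nat_lit 1412) (C.node (nat_lit 2) (nat_lit 9) (nat_lit 10) (C.cons (nat_lit 1542) (C.miq (nat_lit 2056487440) (nat_lit 1866588715452857703589413127)) C.nil)) (C.cons (nat_lit 1156) (C.node (nat_lit 7) (nat_lit 8) (nat_lit 10) C.nil) C.nil))) C.nil))) C.nil))) (C.cons (nat_lit 3076) (C.node (nat_lit 5) (nat_lit 10) (nat_lit 11) (C.cons (nat_lit 3104) (C.node (nat_lit 1) (nat_lit 6) (nat_lit 11) C.nil) C.nil)) C.nil))) C.nil))))) C.nil))) C.nil))) C.nil))) C.nil)))) (C.cons (nat_lit 1048) (C.node (nat_lit 1) (nat_lit 10) (nat_lit 11) (C.cons (nat_lit 3110) (C.miq (nat_lit 2275476402) (nat_lit 1415656986373055593499199517)) (C.cons (nat_lit 3106) (C.node (nat_lit 2) (nat_lit 10) (nat_lit 11) (C.cons (nat_lit 3076) (C.node (nat_lit 3) (nat_lit 5) (nat_lit 11)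 (C.cons (nat_lit 2344) (C.miq (nat_lit 461874480) (nat_lit 2940129195314359811862758441)) (C.cons (nat_lit 2088) (C.node (nat_lit 1) (nat_lit 3) (nat_lit 11) (C.cons (nat_lit 2314) (C.node (nat_lit 1) (nat_lit 4) (nat_lit 11) C.nil) C.nil)) C.nil))) C.nil))
  (C.cons (nat_lit 3078) (C.miq (nat_lit 2275476402) (nat_lit 1415656986373055593497102365)) (C.cons (nat_lit 3074) (C.node (nat_lit 2) (nat_lit 10) (nat_lit 11) (C.cons (nat_lit 3108) (C.node (nat_lit 5) (nat_lit 7) (nat_lit 10) (C.cons (nat_lit 1440) (C.miq (nat_lit 629193331) (nat_lit 349417876630899338624175240)) (C.cons (nat_lit 1184) (C.node (nat_lit 2) (nat_lit 7) (nat_lit 10) (C.cons (nat_lit 1412) (C.node (nat_lit 2) (nat_lit 3) (nat_lit 10) (C.cons (nat_lit 1038) (C.node (nat_lit 2) (nat_lit 8) (nat_lit 11) (C.cons (nat_lit 2372) (C.miq (nat_lit 1645459465) (nat_lit 1254913553258046861253218049)) (C.cons (nat_lit 2308) (C.node (nat_lit 2) (nat_lit 6) (nat_lit 11) (C.cons (nat_lit 2118)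 (C.miq (nat_lit 1613870498) (nat_lit 632307274502196371473173540)) C.nil)) C.nil))) (C.cons (nat_lit 1036) (C.node (nat_lit 1) (nat_lit 2) (nat_lit 10) (C.cons (nat_lit 1542) (C.miq (nat_lit 2056487440) (nat_lit 1866588715452857703589413127)) (C.cons (nat_lit 1030) (C.node (nat_lit 2) (nat_lit 4) (nat_lit 10) C.nil) C.nil))) C.nil))) (C.cons (nat_lit 1156) (C.node (nat_lit 7) (nat_lit 8) (nat_lit 10) (C.cons (nat_lit 1408) (C.node (nat_lit 2) (nat_lit 8) (nat_lit 11) (C.cons (nat_lit 2372) (C.node (nat_lit 1) (nat_lit 6) (nat_lit 11) (C.cons (nat_lit 2114) (C.node (nat_lit 1) (nat_lit 2) (nat_lit 11) (C.cons (nat_lit 2566) (C.miq (nat_lit 914397985) (nat_lit 407417649598132908353587718)) C.nil)) C.nil)) (C.cons (nat_lit 2308) (C.node (nat_lit 2) (nat_lit 6) (nat_lit 11) (C.cons (nat_lit 2118) (C.node (nat_lit 2) (nat_lit 9) (nat_lit 11) C.nil) C.nil)) C.nil))) C.nil)) C.nil))) C.nil))) (C.cons (nat_lit 3076) (C.node (nat_lit 5) (nat_lit 10) (nat_lit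 11) (C.cons (nat_lit 3104) (C.node (nat_lit 1) (nat_lit 6) (nat_lit 11) C.nil) C.nil)) C.nil))) C.nil))))) C.nil)))) C.nil))) C.nil)))) C.nil)))) C.nil))) C.nil))) (C.cons (nat_lit 2600) (C.miq (nat_lit 1203309109) (nat_lit 3249602952077169548822316073)) (C.cons (nat_lit 2568) (C.ref (nat_lit 308) (nat_lit 205163983024656)) C.nil)))) C.nil))) List.nil)

theorem ok12_309 : okL par12 (nat_lit 310) c12_309 (nat_lit 309) = true := by decide +kernel

noncomputable def c12_310 : List C :=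
  (List.cons (C.node (nat_lit 3) (nat_lit 7) (nat_lit 11) (C.cons (nat_lit 2184) (C.node (nat_lit 4) (nat_lit 9) (nat_lit 11) (C.cons (nat_lit 2640) (C.node (nat_lit 3) (nat_lit 9) (nat_lit 11) (C.cons (nat_lit 2600) (C.miq (nat_lit 2710767541) (nat_lit 632287849770508310404401377)) (C.cons (nat_lit 2568) (C.node (nat_lit 2) (nat_lit 9) (nat_lit 11) (C.cons (nat_lit 2596) (C.node (nat_lit 2) (nat_lit 8) (nat_lit 11) (C.cons (nat_lit 2372) (C.miq (nat_lit 1384160100) (nat_lit 317957839912792051231558224)) (C.cons (nat_lit 2308) (C.node (nat_lit 5) (nat_lit 10) (nat_lit 11) (C.cons (nat_lit 3106) (C.miq (nat_lit 1376434545) (nat_lit 1321413217156594439692683906)) (C.cons (nat_lit 3104) (C.node (nat_lit 1) (nat_lit 4) (nat_lit 9) (C.cons (nat_lit 786) (C.miq (nat_lit 1729366936) (nat_lit 1415658351961287779276689153)) (C.cons (nat_lit 534) (C.miq (nat_lit 1494725184) (nat_lit 3252052384943343354900580381)) (C.cons (nat_lit 530) (C.node (nat_lit 2) (nat_lit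 4) (nat_lit 9) (C.cons (nat_lit 1556) (C.miq (nat_lit 2813476953) (nat_lit 2635486990223287253280752177)) (C.cons (nat_lit 788) (C.miq (nat_lit 1797784980) (nat_lit 2790207008863120747190813233)) (C.cons (nat_lit 532) (C.node (nat_lit 2) (nat_lit 6) (nat_lit 11) (C.cons (nat_lit 2118) (C.node (nat_lit 2) (nat_lit 10) (nat_lit 11) (C.cons (nat_lit 3076) (C.node (nat_lit 1) (nat_lit 2) (nat_lit 4) (C.cons (nat_lit 54) (C.miq (nat_lit 2871069012) (nat_lit 2560526488162251441196892721)) (C.cons (nat_lit 22) (C.node (nat_lit 1) (nat_lit 2) (nat_lit 9) (C.cons (nat_lit 1542) (C.miq (nat_lit 1898363296) (nat_lit 2560546816150238444101373697)) (C.cons (nat_lit 518) (C.node (nat_lit 1) (nat_lit 10) (nat_lit 11) (C.cons (nat_lit 3082) (C.node (nat_lit 6) (nat_lit 10) (nat_lit 11) (C.cons (nat_lit 3136) (C.node (nat_lit 3) (nat_lit 6) (nat_lit 11) C.nil) C.nil)) (C.cons (nat_lit 3074) (C.node (nat_lit 3) (nat_lit 10) (nat_lit 11) (C.cons (nat_lit 3144) (C.node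 (nat_lit 6) (nat_lit 8) (nat_lit 11) C.nil) C.nil)) C.nil))) C.nil))) C.nil))) C.nil)) (C.cons (nat_lit 2116) (C.node (nat_lit 1) (nat_lit 2) (nat_lit 11) (C.cons (nat_lit 3078) (C.node (nat_lit 1) (nat_lit 4) (nat_lit 11) (C.cons (nat_lit 2322) (C.miq (nat_lit 1656228372) (nat_lit 2790207008530982344947008659)) (C.cons (nat_lit 2098) (C.miq (nat_lit 625064202) (nat_lit 2536383149360462335627693825)) (C.cons (nat_lit 2066) (C.node (nat_lit 3) (nat_lit 10) (nat_lit 11) (C.cons (nat_lit 3144) (C.node (nat_lit 1) (nat_lit 6) (nat_lit 11) C.nil) C.nil)) C.nil)))) (C.cons (nat_lit 2054) (C.node (nat_lit 2) (nat_lit 10) (nat_lit 11) C.nil) C.nil))) C.nil))) C.nil)))) C.nil)))) C.nil))) C.nil))) (C.cons (nat_lit 2564) (C.node (nat_lit 5) (nat_lit 9) (nat_lit 11) (C.cons (nat_lit 2592) (C.ref (nat_lit 296) (nat_lit 205099542782736)) C.nil)) C.nil))) C.nil))) (C.cons (nat_lit 2576) (C.node (nat_lit 4) (nat_lit 6) (nat_lit 11) (C.cons (nat_lit 2130) (C.node (nat_lit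 1) (nat_lit 4) (nat_lit 9) (C.cons (nat_lit 786) (C.miq (nat_lit 1900460416) (nat_lit 2575053925985610747153026817)) (C.cons (nat_lit 534) (C.miq (nat_lit 1637332000) (nat_lit 3252052384812176015718942749)) (C.cons (nat_lit 530) (C.node (nat_lit 1) (nat_lit 2) (nat_lit 4) (C.cons (nat_lit 54) (C.node (nat_lit 1) (nat_lit 3) (nat_lit 4) (C.cons (nat_lit 282) (C.miq (nat_lit 834110560) (nat_lit 3252017704413158539675107665)) (C.cons (nat_lit 26) (C.node (nat_lit 1) (nat_lit 4) (nat_lit 8) (C.cons (nat_lit 274) (C.node (nat_lit 1) (nat_lit 2) (nat_lit 11) (C.cons (nat_lit 3078) (C.node (nat_lit 5) (nat_lit 10) (nat_lit 11) (C.cons (nat_lit 3104) (C.node (nat_lit 2) (nat_lit 5) (nat_lit 11) (C.cons (nat_lit 2596) (C.node (nat_lit 2) (nat_lit 6) (nat_lit 11) (C.cons (nat_lit 2372) (C.miq (nat_lit 1683128475) (nat_lit 65325750030992291288846081)) (C.cons (nat_lit 2116) (C.node (nat_lit 2) (nat_lit 8) (nat_lit 11) (C.cons (nat_lit 2308) (C.node (nat_lit 6)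 (nat_lit 8) (nat_lit 11) (C.cons (nat_lit 2376) (C.miq (nat_lit 991397440) (nat_lit 3252017705002567140835000657))
  (C.cons (nat_lit 2368) (C.node (nat_lit 3) (nat_lit 9) (nat_lit 11) (C.cons (nat_lit 2632) (C.node (nat_lit 3) (nat_lit 10) (nat_lit 11) C.nil) C.nil)) C.nil))) C.nil)) C.nil))) (C.cons (nat_lit 2340) (C.miq (nat_lit 2602895892) (nat_lit 2828896767602816225329415315)) (C.cons (nat_lit 2084) (C.miq (nat_lit 2602895892) (nat_lit 2519411757781471156604634259)) C.nil)))) C.nil)) (C.cons (nat_lit 2054) (C.node (nat_lit 2) (nat_lit 9) (nat_lit 11) (C.cons (nat_lit 2628) (C.miq (nat_lit 1769058820) (nat_lit 3252049747067948490430810141)) (C.cons (nat_lit 2596) (C.miq (nat_lit 2871069012) (nat_lit 2483155235706915174015697457)) (C.cons (nat_lit 2564) (C.node (nat_lit 5) (nat_lit 9) (nat_lit 11) (C.cons (nat_lit 2600) (C.miq (nat_lit 2710767541) (nat_lit 632287849770508310404401377)) (C.cons (nat_lit 2592) (C.node (nat_lit 2) (nat_lit 6) (nat_lit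 11) (C.cons (nat_lit 2372) (C.node (nat_lit 2) (nat_lit 5) (nat_lit 11) (C.cons (nat_lit 3108) (C.node (nat_lit 4) (nat_lit 5) (nat_lit 11) (C.cons (nat_lit 2352) (C.miq (nat_lit 1649674936) (nat_lit 65288211119608314010275585)) (C.cons (nat_lit 2096) (C.node (nat_lit 4) (nat_lit 8) (nat_lit 11) C.nil) C.nil))) (C.cons (nat_lit 2084) (C.node (nat_lit 2) (nat_lit 10) (nat_lit 11) C.nil) C.nil))) (C.cons (nat_lit 2116) (C.node (nat_lit 2) (nat_lit 8) (nat_lit 11) (C.cons (nat_lit 2340) (C.miq (nat_lit 1420501256) (nat_lit 3733206096366312050244256007)) (C.cons (nat_lit 2308) (C.node (nat_lit 2) (nat_lit 5) (nat_lit 11) C.nil) C.nil))) C.nil))) C.nil))) C.nil)))) C.nil))) C.nil)) C.nil))) (C.cons (nat_lit 22) (C.node (nat_lit 4) (nat_lit 5) (nat_lit 11) (C.cons (nat_lit 2352) (C.node (nat_lit 1) (nat_lit 4) (nat_lit 8) (C.cons (nat_lit 282) (C.miq (nat_lit 834110560) (nat_lit 3252017704413158539675107665)) (C.cons (nat_lit 274) (C.node (nat_lit 1) (nat_lit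 3) (nat_lit 4) (C.cons (nat_lit 58) (C.node (nat_lit 3) (nat_lit 5) (nat_lit 11) (C.cons (nat_lit 2600) (C.miq (nat_lit 2710767541) (nat_lit 632287849770508310404401377)) (C.cons (nat_lit 2088) (C.node (nat_lit 4) (nat_lit 5) (nat_lit 7) (C.cons (nat_lit 180) (C.miq (nat_lit 1469137411) (nat_lit 3252011524725177021209708573)) (C.cons (nat_lit 176) (C.node (nat_lit 1) (nat_lit 7) (nat_lit 8) (C.cons (nat_lit 450) (C.miq (nat_lit 873991015) (nat_lit 331252924729462036661143777)) (C.cons (nat_lit 418) (C.miq (nat_lit 2555448131) (nat_lit 505340641327221032435189789)) (C.cons (nat_lit 386) (C.node (nat_lit 1) (nat_lit 5) (nat_lit 7) (C.cons (nat_lit 166) (C.node (nat_lit 1) (nat_lit 5) (nat_lit 11) (C.cons (nat_lit 3106) (C.miq (nat_lit 2686826865) (nat_lit 44787551993982377141865090)) (C.cons (nat_lit 2082) (C.node (nat_lit 5) (nat_lit 9) (nat_lit 11) (C.cons (nat_lit 2596) (C.miq (nat_lit 2874214695) (nat_lit 2517005158656124790914810501)) (C.cons (nat_lit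 2592) (C.node (nat_lit 2) (nat_lit 9) (nat_lit 11) (C.cons (nat_lit 2628) (C.miq (nat_lit 1769058820) (nat_lit 3252049747067948490430810141)) (C.cons (nat_lit 2564) (C.node (nat_lit 1) (nat_lit 2) (nat_lit 11) (C.cons (nat_lit 3078) (C.node (nat_lit 2) (nat_lit 5) (nat_lit 11) C.nil) C.nil)) C.nil))) C.nil))) C.nil))) (C.cons (nat_lit 162) (C.node (nat_lit 1) (nat_lit 2) (nat_lit 7) (C.cons (nat_lit 206) (C.miq (nat_lit 1366901536) (nat_lit 3252020803403104264472823837)) (C.cons (nat_lit 198) (C.miq (nat_lit 2870348146) (nat_lit 2575032159151589645684703877)) (C.cons (nat_lit 142) (C.miq (nat_lit 1366901536) (nat_lit 3252020803403103989594916893)) (C.cons (nat_lit 134) (C.node (nat_lit 1) (nat_lit 3) (nat_lit 7) (C.cons (nat_lit 202) (C.node (nat_lit 3) (nat_lit 9) (nat_lit 11) (C.cons (nat_lit 2632) (C.miq (nat_lit 2838563687) (nat_lit 632289805876918062169065697)) (C.cons (nat_lit 2568) (C.node (nat_lit 1) (nat_lit 8) (nat_lit 11) (C.cons (nat_lit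 2314) (C.node (nat_lit 1) (nat_lit 8) (nat_lit 10) (C.cons (nat_lit 1378) (C.miq (nat_lit 588647306) (nat_lit 244223178438061123103231745)) (C.cons (nat_lit 1346) (C.miq (nat_lit 588647306) (nat_lit 244223178438061123101134593))
  (C.cons (nat_lit 1314) (C.miq (nat_lit 2555448131) (nat_lit 1588538175701928772971923485)) C.nil)))) C.nil)) C.nil))) (C.cons (nat_lit 138) (C.node (nat_lit 1) (nat_lit 6) (nat_lit 7) (C.cons (nat_lit 194) (C.node (nat_lit 1) (nat_lit 8) (nat_lit 11) (C.cons (nat_lit 2314) (C.node (nat_lit 1) (nat_lit 2) (nat_lit 3) C.nil) (C.cons (nat_lit 2306) (C.node (nat_lit 1) (nat_lit 3) (nat_lit 11) C.nil) C.nil))) C.nil)) C.nil))) C.nil))))) C.nil))) C.nil)))) C.nil))) C.nil))) (C.cons (nat_lit 26) (C.node (nat_lit 1) (nat_lit 4) (nat_lit 5) (C.cons (nat_lit 50) (C.node (nat_lit 1) (nat_lit 8) (nat_lit 11) (C.cons (nat_lit 2314) (C.node (nat_lit 1) (nat_lit 8) (nat_lit 9) (C.cons (nat_lit 866) (C.miq (nat_lit 877726601) (nat_lit 60455939212515637278674689))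 (C.cons (nat_lit 834) (C.miq (nat_lit 1478052656) (nat_lit 1008254482844065166575470621)) (C.cons (nat_lit 802) (C.miq (nat_lit 877726601) (nat_lit 60455939212515637274480385)) (C.cons (nat_lit 770) (C.miq (nat_lit 1478052656) (nat_lit 930883230388728899394275357)) C.nil))))) (C.cons (nat_lit 2306) (C.node (nat_lit 3) (nat_lit 8) (nat_lit 11) (C.cons (nat_lit 2376) (C.miq (nat_lit 991397440) (nat_lit 3252017705002567140835000657)) (C.cons (nat_lit 2312) (C.node (nat_lit 2) (nat_lit 8) (nat_lit 11) (C.cons (nat_lit 2372) (C.node (nat_lit 2) (nat_lit 9) (nat_lit 11) (C.cons (nat_lit 2596) (C.miq (nat_lit 1653640020) (nat_lit 779763370871858452333922608)) (C.cons (nat_lit 2564) (C.node (nat_lit 5) (nat_lit 9) (nat_lit 11) (C.cons (nat_lit 2600) (C.miq (nat_lit 2710767541) (nat_lit 632287849770508310404401377)) (C.cons (nat_lit 2592) (C.node (nat_lit 2) (nat_lit 10) (nat_lit 11) (C.cons (nat_lit 3108) (C.miq (nat_lit 1409988706) (nat_lit 1415709467911342445566429508))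 (C.cons (nat_lit 3078) (C.miq (nat_lit 1678934187) (nat_lit 26640123803326777659887361)) C.nil))) C.nil))) C.nil))) (C.cons (nat_lit 2308) (C.node (nat_lit 6) (nat_lit 8) (nat_lit 11) (C.cons (nat_lit 2368) (C.node (nat_lit 2) (nat_lit 6) (nat_lit 11) (C.cons (nat_lit 2628) (C.miq (nat_lit 1769058820) (nat_lit 3252049747067948490430810141)) C.nil)) C.nil)) C.nil))) C.nil))) C.nil))) C.nil)) C.nil))) C.nil))) (C.cons (nat_lit 2096) (C.node (nat_lit 4) (nat_lit 8) (nat_lit 11) (C.cons (nat_lit 2320) (C.node (nat_lit 6) (nat_lit 10) (nat_lit 11) (C.cons (nat_lit 3144) (C.node (nat_lit 3) (nat_lit 9) (nat_lit 11) (C.cons (nat_lit 2600) (C.miq (nat_lit 2710767541) (nat_lit 632287849770508310404401377)) (C.cons (nat_lit 2568) (C.node (nat_lit 6) (nat_lit 9) (nat_lit 11) (C.cons (nat_lit 2628) (C.miq (nat_lit 1769058820) (nat_lit 3252049747067948490430810141)) (C.cons (nat_lit 2624) (C.node (nat_lit 2) (nat_lit 6) (nat_lit 11) (C.cons (nat_lit 2372) (C.node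 (nat_lit 3) (nat_lit 8) (nat_lit 11) (C.cons (nat_lit 2344) (C.miq (nat_lit 2181412515) (nat_lit 44773495161513393879845960)) (C.cons (nat_lit 2314) (C.miq (nat_lit 329288546) (nat_lit 1287510850034618056231422276)) C.nil))) C.nil)) C.nil))) C.nil))) (C.cons (nat_lit 3136) (C.node (nat_lit 3) (nat_lit 10) (nat_lit 11) (C.cons (nat_lit 3082) (C.node (nat_lit 1) (nat_lit 3) (nat_lit 4) (C.cons (nat_lit 314) (C.miq (nat_lit 2974393168) (nat_lit 640801539207247807860769833)) (C.cons (nat_lit 282) (C.miq (nat_lit 834110560) (nat_lit 3252017704413158539675107665)) (C.cons (nat_lit 58) (C.miq (nat_lit 2974393168) (nat_lit 640801539207246708349142057)) (C.cons (nat_lit 26) (C.node (nat_lit 1) (nat_lit 2) (nat_lit 11) (C.cons (nat_lit 2086) (C.node (nat_lit 1) (nat_lit 8) (nat_lit 11) (C.cons (nat_lit 2306) (C.node (nat_lit 2) (nat_lit 10) (nat_lit 11) C.nil) C.nil)) (C.cons (nat_lit 2054) (C.node (nat_lit 1) (nat_lit 5) (nat_lit 11) (C.cons (nat_lit 2338) (C.node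 (nat_lit 3) (nat_lit 5) (nat_lit 11) (C.cons (nat_lit 2600) (C.miq (nat_lit 1410568363) (nat_lit 31480033002484494919929601)) C.nil)) C.nil)) C.nil))) C.nil))))) (C.cons (nat_lit 3080) (C.ref (nat_lit 297) (nat_lit 205099542782736)) C.nil))) C.nil))) C.nil)) C.nil))) C.nil))) C.nil)))) (C.cons (nat_lit 2128)
  (C.ref (nat_lit 298) (nat_lit 205099542782736)) C.nil))) C.nil))) C.nil)) (List.cons (C.node (nat_lit 6) (nat_lit 8) (nat_lit 10) (C.cons (nat_lit 1378) (C.miq (nat_lit 1395040440) (nat_lit 246646287114497694401564417)) (C.cons (nat_lit 1376) (C.miq (nat_lit 1395040440) (nat_lit 246646250221009546982461185)) (C.cons (nat_lit 1354) (C.miq (nat_lit 2590115895) (nat_lit 1321367820069868431559360905)) (C.cons (nat_lit 1352) (C.miq (nat_lit 2590115895) (nat_lit 1321367820069868422969426313)) (C.cons (nat_lit 1346) (C.miq (nat_lit 414492192) (nat_lit 2804729503022125505654359109)) (C.cons (nat_lit 1344) (C.node (nat_lit 1) (nat_lit 2) (nat_lit 7) (C.cons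 (nat_lit 166) (C.node (nat_lit 1) (nat_lit 3) (nat_lit 7) (C.cons (nat_lit 138) (C.node (nat_lit 2) (nat_lit 5) (nat_lit 11) (C.cons (nat_lit 2596) (C.miq (nat_lit 448098450) (nat_lit 3752508806572948888941232773)) (C.cons (nat_lit 2084) (C.node (nat_lit 1) (nat_lit 2) (nat_lit 11) C.nil) C.nil))) C.nil)) (C.cons (nat_lit 134) (C.node (nat_lit 1) (nat_lit 3) (nat_lit 7) (C.cons (nat_lit 170) (C.node (nat_lit 1) (nat_lit 2) (nat_lit 3) (C.cons (nat_lit 1038) (C.miq (nat_lit 1445163169) (nat_lit 246624003787674198794437779)) (C.cons (nat_lit 14) (C.node (nat_lit 2) (nat_lit 3) (nat_lit 10) (C.cons (nat_lit 1548) (C.miq (nat_lit 2474353248) (nat_lit 2640364844418061376216433733)) (C.cons (nat_lit 1292) (C.miq (nat_lit 1445137290) (nat_lit 246640513623625662122954497)) (C.cons (nat_lit 1036) (C.node (nat_lit 3) (nat_lit 5) (nat_lit 11) (C.cons (nat_lit 2600) (C.miq (nat_lit 2838563671) (nat_lit 632289805876917924728015073)) (C.cons (nat_lit 2344) (C.miq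 (nat_lit 2208478470) (nat_lit 1252490905457480583673612513)) (C.cons (nat_lit 2088) (C.node (nat_lit 3) (nat_lit 8) (nat_lit 11) C.nil) C.nil)))) C.nil)))) C.nil))) (C.cons (nat_lit 138) (C.node (nat_lit 1) (nat_lit 6) (nat_lit 7) (C.cons (nat_lit 706) (C.node (nat_lit 4) (nat_lit 6) (nat_lit 7) (C.cons (nat_lit 208) (C.node (nat_lit 1) (nat_lit 5) (nat_lit 7) (C.cons (nat_lit 418) (C.node (nat_lit 3) (nat_lit 7) (nat_lit 10) C.nil) C.nil)) C.nil)) (C.cons (nat_lit 194) (C.node (nat_lit 3) (nat_lit 9) (nat_lit 11) (C.cons (nat_lit 2568) (C.node (nat_lit 1) (nat_lit 2) (nat_lit 11) C.nil) C.nil)) C.nil))) C.nil))) C.nil))) C.nil))))))) List.nil))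

theorem ok12_310 : okL par12 (nat_lit 312) c12_310 (nat_lit 310) = true := by decide +kernel

noncomputable def c12_312 : List C :=
  (List.cons (C.node (nat_lit 2) (nat_lit 7) (nat_lit 11) (C.cons (nat_lit 3204) (C.node (nat_lit 5) (nat_lit 10) (nat_lit 11) (C.cons (nat_lit 3106) (C.node (nat_lit 3) (nat_lit 10) (nat_lit 11) (C.cons (nat_lit 3144) (C.node (nat_lit 6) (nat_lit 7) (nat_lit 10) (C.cons (nat_lit 1728) (C.miq (nat_lit 915454578) (nat_lit 697588512690046877068233860)) (C.cons (nat_lit 1472) (C.miq (nat_lit 2276747808) (nat_lit 2649971613562364918004253765)) (C.cons (nat_lit 1216) (C.node (nat_lit 3) (nat_lit 7) (nat_lit 10) (C.cons (nat_lit 1672) (C.node (nat_lit 3) (nat_lit 4) (nat_lit 10) (C.cons (nat_lit 1304) (C.node (nat_lit 5) (nat_lit 7) (nat_lit 10) (C.cons (nat_lit 1440) (C.miq (nat_lit 1514895408) (nat_lit 3733204860824584000540311945)) (C.cons (nat_lit 1184) (C.node (nat_lit 7) (nat_lit 8) (nat_lit 10) (C.cons (nat_lit 1408)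 (C.node (nat_lit 3) (nat_lit 4) (nat_lit 7) (C.cons (nat_lit 216) (C.miq (nat_lit 2204869744) (nat_lit 3800933631179425541156570259)) (C.cons (nat_lit 184) (C.miq (nat_lit 1537503363) (nat_lit 3733166325810693573168333193)) (C.cons (nat_lit 152) (C.node (nat_lit 4) (nat_lit 6) (nat_lit 10) (C.cons (nat_lit 1616) (C.miq (nat_lit 2517083267) (nat_lit 2747919231395008366271595800)) (C.cons (nat_lit 1136) (C.miq (nat_lit 1984431523) (nat_lit 407415251420348500961395753)) (C.cons (nat_lit 1104) (C.node (nat_lit 4) (nat_lit 9) (nat_lit 10) (C.cons (nat_lit 1556) (C.miq (nat_lit 607623808) (nat_lit 183768623169331841641025281)) (C.cons (nat_lit 1552) (C.node (nat_lit 5) (nat_lit 6) (nat_lit 10) (C.cons (nat_lit 1632) (C.miq (nat_lit 982824528) (nat_lit 1876291186814309910084389089)) (C.cons (nat_lit 1376) (C.miq (nat_lit 3062105507) (nat_lit 407446315737369658638468137)) (C.cons (nat_lit 1120) (C.node (nat_lit 1) (nat_lit 3) (nat_lit 10) (C.cons (nat_lit 1038)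 (C.node (nat_lit 1) (nat_lit 8) (nat_lit 10) (C.cons (nat_lit 1346) (C.miq (nat_lit 1629726731) (nat_lit 1254922997702219274540355329)) (C.cons (nat_lit 1282) (C.node (nat_lit 6) (nat_lit 8) (nat_lit 10) (C.cons (nat_lit 1344) (C.node (nat_lit 2) (nat_lit 4) (nat_lit 10) (C.cons (nat_lit 1076) (C.miq (nat_lit 2510357539) (nat_lit 3754933243528100850120394781)) (C.cons (nat_lit 1044) (C.node (nat_lit 4) (nat_lit 5) (nat_lit 10) C.nil) C.nil))) C.nil)) C.nil))) (C.cons (nat_lit 1034) (C.node (nat_lit 2) (nat_lit 3) (nat_lit 10) (C.cons (nat_lit 1036) (C.node (nat_lit 1) (nat_lit 2) (nat_lit 10) (C.cons (nat_lit 1542) (C.miq (nat_lit 2208368530) (nat_lit 1250034149085844799391924869)) (C.cons (nat_lit 1030) (C.node (nat_lit 1) (nat_lit 8) (nat_lit 10) (C.cons (nat_lit 1346) (C.node (nat_lit 1) (nat_lit 9) (nat_lit 10) C.nil) C.nil)) C.nil))) C.nil)) C.nil))) C.nil)))) C.nil))) C.nil)))) C.nil)))) C.nil)) C.nil))) (C.cons (nat_lit 1048) (C.node (nat_lit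 3) (nat_lit 7) (nat_lit 11) (C.cons (nat_lit 2186) (C.node (nat_lit 7) (nat_lit 9) (nat_lit 11) (C.cons (nat_lit 2688) (C.node (nat_lit 3) (nat_lit 8) (nat_lit 11) (C.cons (nat_lit 2344) (C.miq (nat_lit 1399961610) (nat_lit 2642769137924451351183691521)) (C.cons (nat_lit 2312) (C.node (nat_lit 3) (nat_lit 5) (nat_lit 11) (C.cons (nat_lit 2600) (C.miq (nat_lit 1094256565) (nat_lit 632278552611492996126869729)) (C.cons (nat_lit 2088) (C.node (nat_lit 3) (nat_lit 9) (nat_lit 11) (C.cons (nat_lit 2568) (C.node (nat_lit 5) (nat_lit 9) (nat_lit 11) (C.cons (nat_lit 2596) (C.miq (nat_lit 1537512048) (nat_lit 3733173280324123043243950725)) (C.cons (nat_lit 2592) (C.node (nat_lit 1) (nat_lit 2) (nat_lit 10) (C.cons (nat_lit 1542) (C.miq (nat_lit 2275541905) (nat_lit 3873403177649590108504326667)) (C.cons (nat_lit 1038) (C.miq (nat_lit 1729760050) (nat_lit 1415672297699805339050706973)) (C.cons (nat_lit 1030) (C.node (nat_lit 1) (nat_lit 3) (nat_lit 10) (C.cons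 (nat_lit 1290) (C.miq (nat_lit 657525160) (nat_lit 2642716693352829302768013057)) (C.cons (nat_lit 1034) (C.node (nat_lit 1) (nat_lit 8) (nat_lit 10) (C.cons (nat_lit 1346) (C.node (nat_lit 1) (nat_lit 2) (nat_lit 3) (C.cons (nat_lit 110)
  (C.miq (nat_lit 2335246946) (nat_lit 2642716694252429650449794117)) (C.cons (nat_lit 78) (C.miq (nat_lit 2335246946) (nat_lit 2642716694252429650447696965)) (C.cons (nat_lit 46) (C.miq (nat_lit 1629726731) (nat_lit 55668584644507133231828737)) (C.cons (nat_lit 14) (C.miq (nat_lit 1629726731) (nat_lit 16982958416838999641231105)) C.nil))))) (C.cons (nat_lit 1282) (C.node (nat_lit 1) (nat_lit 6) (nat_lit 10) (C.cons (nat_lit 1602) (C.node (nat_lit 4) (nat_lit 9) (nat_lit 10) (C.cons (nat_lit 1556) (C.miq (nat_lit 1470696228) (nat_lit 2021334319658891714407696413)) (C.cons (nat_lit 1552) (C.node (nat_lit 4) (nat_lit 6) (nat_lit 11) (C.cons (nat_lit 2640) (C.miq (nat_lit 1500120243) (nat_lit 1936718808962993239406151709))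 (C.cons (nat_lit 2130) (C.miq (nat_lit 2209744660) (nat_lit 3800868993531776020180501651)) (C.cons (nat_lit 2128) (C.node (nat_lit 2) (nat_lit 3) (nat_lit 10) (C.cons (nat_lit 1292) (C.node (nat_lit 5) (nat_lit 7) (nat_lit 10) (C.cons (nat_lit 1440) (C.miq (nat_lit 1512798256) (nat_lit 3873440255899880933266620809)) (C.cons (nat_lit 1184) (C.node (nat_lit 7) (nat_lit 8) (nat_lit 10) (C.cons (nat_lit 1408) (C.node (nat_lit 2) (nat_lit 4) (nat_lit 10) C.nil) C.nil)) C.nil))) (C.cons (nat_lit 1036) (C.node (nat_lit 3) (nat_lit 8) (nat_lit 10) (C.cons (nat_lit 1288) (C.node (nat_lit 2) (nat_lit 9) (nat_lit 10) (C.cons (nat_lit 1572) (C.node (nat_lit 2) (nat_lit 4) (nat_lit 10) C.nil) C.nil)) C.nil)) C.nil))) C.nil)))) C.nil))) (C.cons (nat_lit 1090) (C.node (nat_lit 1) (nat_lit 9) (nat_lit 10) (C.cons (nat_lit 1538) (C.node (nat_lit 2) (nat_lit 3) (nat_lit 10) (C.cons (nat_lit 1292) (C.node (nat_lit 5) (nat_lit 7) (nat_lit 10) (C.cons (nat_lit 1440) (C.miq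 (nat_lit 1512798256) (nat_lit 3873440255899880933266620809)) (C.cons (nat_lit 1184) (C.node (nat_lit 7) (nat_lit 8) (nat_lit 10) (C.cons (nat_lit 1408) (C.node (nat_lit 6) (nat_lit 8) (nat_lit 10) (C.cons (nat_lit 1376) (C.miq (nat_lit 1480288800) (nat_lit 2795078424785617310919230533)) C.nil)) C.nil)) C.nil))) (C.cons (nat_lit 1036) (C.node (nat_lit 3) (nat_lit 8) (nat_lit 10) (C.cons (nat_lit 1288) (C.node (nat_lit 2) (nat_lit 5) (nat_lit 11) (C.cons (nat_lit 2340) (C.node (nat_lit 4) (nat_lit 5) (nat_lit 11) C.nil) C.nil)) C.nil)) C.nil))) C.nil)) C.nil))) C.nil))) C.nil))) C.nil)))) C.nil))) C.nil)) C.nil))) C.nil))) C.nil)) (C.cons (nat_lit 2184) (C.node (nat_lit 1) (nat_lit 3) (nat_lit 11) (C.cons (nat_lit 2314) (C.node (nat_lit 1) (nat_lit 3) (nat_lit 10) (C.cons (nat_lit 1038) (C.miq (nat_lit 1662167936) (nat_lit 1254885163936224913234792193)) (C.cons (nat_lit 1034) (C.node (nat_lit 1) (nat_lit 2) (nat_lit 10) (C.cons (nat_lit 1542) (C.miq (nat_lit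 2208368530) (nat_lit 1250034149085844799391924869)) (C.cons (nat_lit 1030) (C.node (nat_lit 2) (nat_lit 3) (nat_lit 10) (C.cons (nat_lit 1292) (C.miq (nat_lit 1796252546) (nat_lit 2479527019205844267212145932)) (C.cons (nat_lit 1036) (C.node (nat_lit 3) (nat_lit 8) (nat_lit 10) (C.cons (nat_lit 1288) (C.node (nat_lit 6) (nat_lit 8) (nat_lit 11) (C.cons (nat_lit 2372) (C.miq (nat_lit 1203243558) (nat_lit 2940113810185151951963161669)) (C.cons (nat_lit 2368) (C.node (nat_lit 1) (nat_lit 2) (nat_lit 11) (C.cons (nat_lit 2630) (C.miq (nat_lit 824621066) (nat_lit 3179532902801176698064015105)) (C.cons (nat_lit 2566) (C.miq (nat_lit 2537234561) (nat_lit 2640341324565196304319906055)) (C.cons (nat_lit 2118) (C.miq (nat_lit 824621066) (nat_lit 2560562883158486560614452993)) (C.cons (nat_lit 2054) (C.node (nat_lit 1) (nat_lit 2) (nat_lit 7) (C.cons (nat_lit 206) (C.miq (nat_lit 2586970983) (nat_lit 1252459048351842256592701665)) (C.cons (nat_lit 198) (C.miq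 (nat_lit 824621066) (nat_lit 239425309498398545178595073)) (C.cons (nat_lit 174) (C.miq (nat_lit 1662167936) (nat_lit 210373255789185306288656129)) (C.cons (nat_lit 166) (C.miq (nat_lit 2584873815) (nat_lit 1245205493434154318333085921)) (C.cons (nat_lit 142) (C.miq (nat_lit 1662167936) (nat_lit 171687629561517172698058497)) (C.cons (nat_lit 134)
  (C.node (nat_lit 1) (nat_lit 3) (nat_lit 7) (C.cons (nat_lit 202) (C.miq (nat_lit 640748216) (nat_lit 244207867363512131976302337)) (C.cons (nat_lit 170) (C.miq (nat_lit 2704848240) (nat_lit 2797525201406501036491344097)) (C.cons (nat_lit 138) (C.node (nat_lit 1) (nat_lit 7) (nat_lit 11) (C.cons (nat_lit 2690) (C.node (nat_lit 2) (nat_lit 6) (nat_lit 11) (C.cons (nat_lit 2628) (C.miq (nat_lit 2460071431) (nat_lit 1245243216684347261912811745)) (C.cons (nat_lit 2116) (C.node (nat_lit 2) (nat_lit 9) (nat_lit 11) (C.cons (nat_lit 2596) (C.miq (nat_lit 1383184650) (nat_lit 162053356146165061149462273)) (C.cons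 (nat_lit 2564) (C.node (nat_lit 3) (nat_lit 5) (nat_lit 11) (C.cons (nat_lit 2600) (C.miq (nat_lit 423263056) (nat_lit 2021345572290149148330100961)) (C.cons (nat_lit 2088) (C.node (nat_lit 3) (nat_lit 9) (nat_lit 11) (C.cons (nat_lit 2568) (C.node (nat_lit 5) (nat_lit 9) (nat_lit 11) (C.cons (nat_lit 2592) (C.node (nat_lit 1) (nat_lit 4) (nat_lit 11) C.nil) C.nil)) C.nil)) C.nil))) C.nil))) C.nil))) (C.cons (nat_lit 2178) (C.node (nat_lit 7) (nat_lit 9) (nat_lit 11) (C.cons (nat_lit 2688) (C.node (nat_lit 1) (nat_lit 8) (nat_lit 10) (C.cons (nat_lit 1346) (C.node (nat_lit 1) (nat_lit 9) (nat_lit 10) (C.cons (nat_lit 1538) (C.node (nat_lit 1) (nat_lit 6) (nat_lit 7) (C.cons (nat_lit 706) (C.node (nat_lit 1) (nat_lit 6) (nat_lit 11) C.nil) (C.cons (nat_lit 194) (C.node (nat_lit 2) (nat_lit 6) (nat_lit 11) (C.cons (nat_lit 2628) (C.node (nat_lit 1) (nat_lit 6) (nat_lit 11) (C.cons (nat_lit 2130) (C.miq (nat_lit 2534809675) (nat_lit 234580087230220158119315485))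 C.nil)) C.nil)) C.nil))) C.nil)) (C.cons (nat_lit 1282) (C.node (nat_lit 1) (nat_lit 2) (nat_lit 3) (C.cons (nat_lit 110) (C.miq (nat_lit 1636446731) (nat_lit 1549900897340285722069895197)) (C.cons (nat_lit 78) (C.miq (nat_lit 1636446731) (nat_lit 1549900897331278522815154205)) (C.cons (nat_lit 46) (C.miq (nat_lit 1662167936) (nat_lit 55630750878512771926265601)) (C.cons (nat_lit 14) (C.miq (nat_lit 1662167936) (nat_lit 16945124650844638335667969)) C.nil))))) C.nil))) C.nil)) C.nil))) C.nil)))) C.nil))))))) C.nil))))) C.nil))) C.nil)) C.nil))) C.nil))) C.nil))) (C.cons (nat_lit 2058) (C.node (nat_lit 3) (nat_lit 8) (nat_lit 11) (C.cons (nat_lit 2344) (C.miq (nat_lit 461874480) (nat_lit 2940129195314359811862758441)) (C.cons (nat_lit 2312) (C.node (nat_lit 1) (nat_lit 7) (nat_lit 11) (C.cons (nat_lit 2690) (C.node (nat_lit 3) (nat_lit 5) (nat_lit 11) (C.cons (nat_lit 2600) (C.miq (nat_lit 423263056) (nat_lit 2021345572290149148330100961)) (C.cons (nat_lit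 2088) (C.node (nat_lit 3) (nat_lit 9) (nat_lit 11) (C.cons (nat_lit 2568) (C.node (nat_lit 5) (nat_lit 9) (nat_lit 11) (C.cons (nat_lit 2596) (C.miq (nat_lit 1537512048) (nat_lit 3733173280324123043243950725)) (C.cons (nat_lit 2592) (C.node (nat_lit 2) (nat_lit 9) (nat_lit 11) (C.cons (nat_lit 2628) (C.miq (nat_lit 459962656) (nat_lit 3800884378762883413758509701)) (C.cons (nat_lit 2564) (C.node (nat_lit 1) (nat_lit 2) (nat_lit 7) (C.cons (nat_lit 206) (C.miq (nat_lit 698577078) (nat_lit 2021327770606507021430163681)) (C.cons (nat_lit 198) (C.miq (nat_lit 1789993111) (nat_lit 3754927248486033457819026053)) (C.cons (nat_lit 174) (C.miq (nat_lit 2836597621) (nat_lit 632287850522046498062862561)) (C.cons (nat_lit 166) (C.miq (nat_lit 699756705) (nat_lit 3133538786782202913775289491)) (C.cons (nat_lit 142) (C.miq (nat_lit 2803479088) (nat_lit 3252081309609186033647945757)) (C.cons (nat_lit 134) (C.node (nat_lit 1) (nat_lit 2) (nat_lit 11) (C.cons (nat_lit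 2118) (C.node (nat_lit 6) (nat_lit 8) (nat_lit 11) (C.cons (nat_lit 2368) (C.node (nat_lit 1) (nat_lit 4) (nat_lit 11) C.nil) C.nil)) (C.cons (nat_lit 2054) (C.node (nat_lit 2) (nat_lit 6) (nat_lit 11) (C.cons (nat_lit 2372) (C.miq (nat_lit 1203243558) (nat_lit 2940113810185151951963161669)) C.nil)) C.nil))) C.nil))))))) C.nil))) C.nil))) C.nil)) C.nil))) (C.cons (nat_lit 2178) (C.node (nat_lit 7) (nat_lit 9) (nat_lit 11) (C.cons (nat_lit 2688)
  (C.node (nat_lit 3) (nat_lit 5) (nat_lit 11) (C.cons (nat_lit 2600) (C.node (nat_lit 4) (nat_lit 9) (nat_lit 11) (C.cons (nat_lit 2642) (C.miq (nat_lit 2510402308) (nat_lit 3754972332752720470937372701)) (C.cons (nat_lit 2640) (C.miq (nat_lit 1678424403) (nat_lit 1415710132075194854473796136)) (C.cons (nat_lit 2578) (C.miq (nat_lit 2510402308) (nat_lit 3754971152161099753526069277)) (C.cons (nat_lit 2576) (C.node (nat_lit 2) (nat_lit 5) (nat_lit 11) (C.cons (nat_lit 2340) (C.node (nat_lit 4) (nat_lit 5) (nat_lit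 11) (C.cons (nat_lit 2096) (C.node (nat_lit 4) (nat_lit 6) (nat_lit 11) (C.cons (nat_lit 2128) (C.node (nat_lit 1) (nat_lit 4) (nat_lit 11) C.nil) C.nil)) C.nil)) (C.cons (nat_lit 2084) (C.node (nat_lit 2) (nat_lit 8) (nat_lit 11) (C.cons (nat_lit 2372) (C.miq (nat_lit 1203243558) (nat_lit 2940113810185151951963161669)) (C.cons (nat_lit 2308) (C.node (nat_lit 4) (nat_lit 5) (nat_lit 11) (C.cons (nat_lit 2352) (C.node (nat_lit 1) (nat_lit 4) (nat_lit 11) C.nil) C.nil)) C.nil))) C.nil))) C.nil))))) (C.cons (nat_lit 2088) (C.node (nat_lit 3) (nat_lit 9) (nat_lit 11) (C.cons (nat_lit 2568) (C.node (nat_lit 5) (nat_lit 9) (nat_lit 11) (C.cons (nat_lit 2596) (C.miq (nat_lit 1537512048) (nat_lit 3733173280324123043243950725)) (C.cons (nat_lit 2592) (C.node (nat_lit 2) (nat_lit 5) (nat_lit 11) (C.cons (nat_lit 2340) (C.node (nat_lit 4) (nat_lit 5) (nat_lit 11) C.nil) C.nil)) C.nil))) C.nil)) C.nil))) C.nil)) C.nil))) C.nil))) C.nil))) C.nil))) C.nil))) (C.cons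 (nat_lit 1160) (C.node (nat_lit 7) (nat_lit 9) (nat_lit 10) (C.cons (nat_lit 1696) (C.miq (nat_lit 1521784608) (nat_lit 3733173280070795564263735941)) (C.cons (nat_lit 1664) (C.node (nat_lit 4) (nat_lit 5) (nat_lit 11) (C.cons (nat_lit 2352) (C.node (nat_lit 2) (nat_lit 5) (nat_lit 11) (C.cons (nat_lit 2596) (C.miq (nat_lit 1537512048) (nat_lit 3733173280324123043243950725)) (C.cons (nat_lit 2084) (C.node (nat_lit 2) (nat_lit 8) (nat_lit 11) (C.cons (nat_lit 2372) (C.miq (nat_lit 2072289888) (nat_lit 2843415129772774145859322949)) (C.cons (nat_lit 2308) (C.node (nat_lit 3) (nat_lit 5) (nat_lit 11) (C.cons (nat_lit 2600) (C.node (nat_lit 3) (nat_lit 7) (nat_lit 11) (C.cons (nat_lit 2186) (C.miq (nat_lit 1094256565) (nat_lit 632278552611492996126869729)) (C.cons (nat_lit 2184) (C.node (nat_lit 1) (nat_lit 3) (nat_lit 11) (C.cons (nat_lit 2314) (C.miq (nat_lit 2214704531) (nat_lit 1415694821196548882217765416)) (C.cons (nat_lit 2058) (C.node (nat_lit 3)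 (nat_lit 8) (nat_lit 11) (C.cons (nat_lit 2312) (C.node (nat_lit 1) (nat_lit 7) (nat_lit 11) (C.cons (nat_lit 2690) (C.miq (nat_lit 2710767541) (nat_lit 632287849770508310404401377)) (C.cons (nat_lit 2178) (C.node (nat_lit 7) (nat_lit 9) (nat_lit 11) (C.cons (nat_lit 2688) (C.node (nat_lit 1) (nat_lit 8) (nat_lit 11) (C.cons (nat_lit 2306) (C.node (nat_lit 6) (nat_lit 8) (nat_lit 11) C.nil) C.nil)) C.nil)) C.nil))) C.nil)) C.nil))) C.nil))) (C.cons (nat_lit 2088) (C.node (nat_lit 5) (nat_lit 9) (nat_lit 11) (C.cons (nat_lit 2592) (C.node (nat_lit 3) (nat_lit 9) (nat_lit 11) (C.cons (nat_lit 2696) (C.miq (nat_lit 1670425458) (nat_lit 632288366834692528963652740)) (C.cons (nat_lit 2568) (C.node (nat_lit 3) (nat_lit 7) (nat_lit 11) (C.cons (nat_lit 2186) (C.node (nat_lit 3) (nat_lit 8) (nat_lit 11) (C.cons (nat_lit 2312) (C.node (nat_lit 7) (nat_lit 9) (nat_lit 11) (C.cons (nat_lit 2688) (C.node (nat_lit 1) (nat_lit 8) (nat_lit 11) (C.cons (nat_lit 2306)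 (C.node (nat_lit 6) (nat_lit 8) (nat_lit 11) C.nil) C.nil)) C.nil)) C.nil)) (C.cons (nat_lit 2184) (C.node (nat_lit 1) (nat_lit 3) (nat_lit 11) (C.cons (nat_lit 2314) (C.node (nat_lit 6) (nat_lit 8) (nat_lit 11) (C.cons (nat_lit 2368) (C.node (nat_lit 1) (nat_lit 7) (nat_lit 11) (C.cons (nat_lit 2178) (C.node (nat_lit 7) (nat_lit 9) (nat_lit 11) C.nil) C.nil)) C.nil)) (C.cons (nat_lit 2058) (C.node (nat_lit 3) (nat_lit 8) (nat_lit 11) (C.cons (nat_lit 2312) (C.node (nat_lit 1) (nat_lit 7) (nat_lit 11) (C.cons (nat_lit 2690)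
  (C.node (nat_lit 1) (nat_lit 2) (nat_lit 11) C.nil) C.nil)) C.nil)) C.nil))) C.nil))) C.nil))) C.nil)) C.nil))) C.nil))) C.nil))) (C.cons (nat_lit 2096) (C.node (nat_lit 4) (nat_lit 8) (nat_lit 11) (C.cons (nat_lit 2322) (C.node (nat_lit 3) (nat_lit 8) (nat_lit 11) (C.cons (nat_lit 2344) (C.miq (nat_lit 2241966852) (nat_lit 3754966429722559289842927645)) (C.cons (nat_lit 2312) (C.node (nat_lit 6) (nat_lit 8) (nat_lit 11) (C.cons (nat_lit 2372) (C.miq (nat_lit 2072289888) (nat_lit 2807147355184335270618137669)) (C.cons (nat_lit 2368) (C.node (nat_lit 1) (nat_lit 8) (nat_lit 10) (C.cons (nat_lit 1346) (C.miq (nat_lit 646646292) (nat_lit 2862774655042540911165834387)) (C.cons (nat_lit 1290) (C.miq (nat_lit 2065171875) (nat_lit 2807133003355395873837810729)) (C.cons (nat_lit 1282) (C.node (nat_lit 1) (nat_lit 3) (nat_lit 10) (C.cons (nat_lit 1038) (C.node (nat_lit 1) (nat_lit 3) (nat_lit 11) (C.cons (nat_lit 2186) (C.miq (nat_lit 1729760050) (nat_lit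 1415672297699805339050706973)) (C.cons (nat_lit 2058) (C.node (nat_lit 3) (nat_lit 7) (nat_lit 11) (C.cons (nat_lit 2696) (C.miq (nat_lit 2476899168) (nat_lit 1254876899668782666666543329)) (C.cons (nat_lit 2184) (C.node (nat_lit 2) (nat_lit 4) (nat_lit 10) (C.cons (nat_lit 1556) (C.miq (nat_lit 1470696228) (nat_lit 2011662913101974681010047005)) (C.cons (nat_lit 1332) (C.miq (nat_lit 2510357539) (nat_lit 3754933243528101949632022557)) (C.cons (nat_lit 1300) (C.miq (nat_lit 2256158898) (nat_lit 1470077777513551728681945117)) (C.cons (nat_lit 1076) (C.miq (nat_lit 2510357539) (nat_lit 3754933243528100850120394781)) (C.cons (nat_lit 1044) (C.node (nat_lit 1) (nat_lit 6) (nat_lit 10) (C.cons (nat_lit 1602) (C.node (nat_lit 1) (nat_lit 4) (nat_lit 9) (C.cons (nat_lit 534) (C.miq (nat_lit 2443526704) (nat_lit 3754933944496775663505180701)) (C.cons (nat_lit 530) (C.node (nat_lit 1) (nat_lit 6) (nat_lit 11) (C.cons (nat_lit 2118) (C.miq (nat_lit 1638249008)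 (nat_lit 3754965525768486217367226397)) (C.cons (nat_lit 2114) (C.node (nat_lit 2) (nat_lit 6) (nat_lit 11) (C.cons (nat_lit 2628) (C.miq (nat_lit 3021545638) (nat_lit 640779163023807727435646021)) (C.cons (nat_lit 2116) (C.node (nat_lit 3) (nat_lit 9) (nat_lit 10) (C.cons (nat_lit 1560) (C.miq (nat_lit 1453919028) (nat_lit 1936709512285867414480488477)) (C.cons (nat_lit 1544) (C.node (nat_lit 4) (nat_lit 9) (nat_lit 10) (C.cons (nat_lit 1552) (C.node (nat_lit 4) (nat_lit 6) (nat_lit 11) (C.cons (nat_lit 2640) (C.miq (nat_lit 1500120243) (nat_lit 1936718808962993239406151709)) (C.cons (nat_lit 2128) (C.node (nat_lit 4) (nat_lit 9) (nat_lit 11) C.nil) C.nil))) C.nil)) C.nil))) C.nil))) C.nil))) C.nil))) (C.cons (nat_lit 1090) (C.node (nat_lit 1) (nat_lit 9) (nat_lit 10) (C.cons (nat_lit 1538) (C.node (nat_lit 1) (nat_lit 7) (nat_lit 11) (C.cons (nat_lit 2690) (C.node (nat_lit 1) (nat_lit 2) (nat_lit 11) (C.cons (nat_lit 2118) (C.miq (nat_lit 1638249008)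 (nat_lit 3754965525768486217367226397)) (C.cons (nat_lit 2054) (C.node (nat_lit 1) (nat_lit 6) (nat_lit 11) (C.cons (nat_lit 2114) (C.node (nat_lit 1) (nat_lit 2) (nat_lit 7) (C.cons (nat_lit 198) (C.miq (nat_lit 2435495776) (nat_lit 1254935855461140739559590113)) (C.cons (nat_lit 166) (C.miq (nat_lit 2584873815) (nat_lit 1254876899991071351730735329)) C.nil))) C.nil)) C.nil))) (C.cons (nat_lit 2178) (C.node (nat_lit 7) (nat_lit 9) (nat_lit 11) (C.cons (nat_lit 2688) (C.node (nat_lit 2) (nat_lit 8) (nat_lit 10) (C.cons (nat_lit 1316) (C.node (nat_lit 2) (nat_lit 8) (nat_lit 11) (C.cons (nat_lit 2308) (C.node (nat_lit 5) (nat_lit 8) (nat_lit 11) C.nil) C.nil)) (C.cons (nat_lit 1284) (C.node (nat_lit 2) (nat_lit 5) (nat_lit 10) (C.cons (nat_lit 1572) (C.node (nat_lit 3) (nat_lit 9) (nat_lit 10) (C.cons (nat_lit 1560) (C.miq (nat_lit 1788195648) (nat_lit 1900473318768440631412983837)) C.nil)) C.nil)) C.nil))) C.nil)) C.nil))) C.nil)) C.nil))) C.nil))))))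 C.nil))) C.nil))) (C.cons (nat_lit 1034) (C.node (nat_lit 1) (nat_lit 2) (nat_lit 10) (C.cons (nat_lit 1542)
  (C.miq (nat_lit 352955250) (nat_lit 678235830557439667304991876)) (C.cons (nat_lit 1030) (C.node (nat_lit 1) (nat_lit 3) (nat_lit 11) (C.cons (nat_lit 2186) (C.node (nat_lit 7) (nat_lit 9) (nat_lit 11) (C.cons (nat_lit 2688) (C.node (nat_lit 3) (nat_lit 5) (nat_lit 11) (C.cons (nat_lit 2600) (C.miq (nat_lit 1094256565) (nat_lit 632278552611492996126869729)) (C.cons (nat_lit 2088) (C.node (nat_lit 3) (nat_lit 9) (nat_lit 11) (C.cons (nat_lit 2568) (C.node (nat_lit 5) (nat_lit 9) (nat_lit 11) (C.cons (nat_lit 2596) (C.miq (nat_lit 1537512048) (nat_lit 3733173280324123043243950725)) (C.cons (nat_lit 2592) (C.node (nat_lit 2) (nat_lit 5) (nat_lit 11) (C.cons (nat_lit 2084) (C.node (nat_lit 2) (nat_lit 8) (nat_lit 11) C.nil) C.nil)) C.nil))) C.nil)) C.nil))) C.nil)) (C.cons (nat_lit 2058) (C.node (nat_lit 3) (nat_lit 7) (nat_lit 11) (C.cons (nat_lit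 2696) (C.miq (nat_lit 1670425458) (nat_lit 632288366834692528963652740)) (C.cons (nat_lit 2184) (C.node (nat_lit 1) (nat_lit 6) (nat_lit 10) (C.cons (nat_lit 1602) (C.node (nat_lit 4) (nat_lit 6) (nat_lit 11) (C.cons (nat_lit 2640) (C.miq (nat_lit 1500120243) (nat_lit 1936718808962993239406151709)) (C.cons (nat_lit 2128) (C.node (nat_lit 4) (nat_lit 9) (nat_lit 11) (C.cons (nat_lit 2576) (C.node (nat_lit 6) (nat_lit 9) (nat_lit 11) (C.cons (nat_lit 2628) (C.miq (nat_lit 431269408) (nat_lit 3114214512915529267928695877)) (C.cons (nat_lit 2624) (C.node (nat_lit 1) (nat_lit 6) (nat_lit 11) (C.cons (nat_lit 2118) (C.node (nat_lit 1) (nat_lit 7) (nat_lit 11) C.nil) C.nil)) C.nil))) C.nil)) C.nil))) (C.cons (nat_lit 1090) (C.node (nat_lit 1) (nat_lit 9) (nat_lit 10) (C.cons (nat_lit 1538) (C.node (nat_lit 1) (nat_lit 7) (nat_lit 11) (C.cons (nat_lit 2690) (C.node (nat_lit 3) (nat_lit 5) (nat_lit 11) (C.cons (nat_lit 2600) (C.miq (nat_lit 2710767541) (nat_lit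 632287849770508310404401377)) (C.cons (nat_lit 2088) (C.node (nat_lit 3) (nat_lit 9) (nat_lit 11) (C.cons (nat_lit 2568) (C.node (nat_lit 1) (nat_lit 2) (nat_lit 11) (C.cons (nat_lit 2054) (C.node (nat_lit 1) (nat_lit 6) (nat_lit 11) C.nil) C.nil)) C.nil)) C.nil))) (C.cons (nat_lit 2178) (C.node (nat_lit 7) (nat_lit 9) (nat_lit 11) (C.cons (nat_lit 2688) (C.node (nat_lit 2) (nat_lit 8) (nat_lit 11) (C.cons (nat_lit 2340) (C.node (nat_lit 3) (nat_lit 5) (nat_lit 11) (C.cons (nat_lit 2088) (C.node (nat_lit 3) (nat_lit 9) (nat_lit 11) C.nil) C.nil)) (C.cons (nat_lit 2308) (C.node (nat_lit 5) (nat_lit 8) (nat_lit 11) C.nil) C.nil))) C.nil)) C.nil))) C.nil)) C.nil))) C.nil))) C.nil))) C.nil))) C.nil))) C.nil)))) C.nil))) C.nil))) (C.cons (nat_lit 2320) (C.node (nat_lit 5) (nat_lit 7) (nat_lit 10) (C.cons (nat_lit 1440) (C.node (nat_lit 2) (nat_lit 8) (nat_lit 10) (C.cons (nat_lit 1300) (C.miq (nat_lit 1739066148) (nat_lit 1740859397437625234919524381)) (C.cons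 (nat_lit 1292) (C.miq (nat_lit 1512798256) (nat_lit 3873440255899880933266620809)) (C.cons (nat_lit 1284) (C.node (nat_lit 4) (nat_lit 8) (nat_lit 10) (C.cons (nat_lit 1304) (C.miq (nat_lit 1514895408) (nat_lit 3733204860824584000540311945)) (C.cons (nat_lit 1296) (C.node (nat_lit 3) (nat_lit 8) (nat_lit 10) (C.cons (nat_lit 1290) (C.miq (nat_lit 410755845) (nat_lit 2940164889252975502780597289)) (C.cons (nat_lit 1288) (C.node (nat_lit 2) (nat_lit 5) (nat_lit 11) (C.cons (nat_lit 2596) (C.miq (nat_lit 1537512048) (nat_lit 3733173280324123043243950725)) (C.cons (nat_lit 2340) (C.miq (nat_lit 681882992) (nat_lit 1566806176766658135490496737)) (C.cons (nat_lit 2084) (C.node (nat_lit 2) (nat_lit 8) (nat_lit 11) (C.cons (nat_lit 2372) (C.miq (nat_lit 1244137398) (nat_lit 1552266969267557659400472801)) (C.cons (nat_lit 2308) (C.node (nat_lit 5) (nat_lit 8) (nat_lit 11) (C.cons (nat_lit 2344) (C.miq (nat_lit 950318448) (nat_lit 1566806176767784035397339361))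 (C.cons (nat_lit 2336) (C.node (nat_lit 4) (nat_lit 5) (nat_lit 7) (C.cons (nat_lit 184) (C.miq (nat_lit 998588583) (nat_lit 2824054109405323338362913939)) (C.cons (nat_lit 180)
  (C.miq (nat_lit 2591361828) (nat_lit 1740863529949650509267994653)) (C.cons (nat_lit 176) (C.node (nat_lit 2) (nat_lit 5) (nat_lit 7) (C.cons (nat_lit 174) (C.miq (nat_lit 327833355) (nat_lit 1557153751299713653010401505)) (C.cons (nat_lit 172) (C.miq (nat_lit 2771093296) (nat_lit 2519472262426199023809266057)) (C.cons (nat_lit 166) (C.miq (nat_lit 2605845015) (nat_lit 2519413307307973468473394323)) (C.cons (nat_lit 164) (C.node (nat_lit 2) (nat_lit 3) (nat_lit 7) (C.cons (nat_lit 206) (C.miq (nat_lit 2590444338) (nat_lit 1470065695882475508039813149)) (C.cons (nat_lit 204) (C.miq (nat_lit 2590444338) (nat_lit 1470065695882475508039682077)) (C.cons (nat_lit 142) (C.miq (nat_lit 2591099683) (nat_lit 1415661783497040460306581533)) (C.cons (nat_lit 140) (C.node (nat_lit 1) (nat_lit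 2) (nat_lit 7) (C.cons (nat_lit 198) (C.node (nat_lit 1) (nat_lit 7) (nat_lit 8) (C.cons (nat_lit 898) (C.miq (nat_lit 2540339488) (nat_lit 1470124650848141574391791879)) (C.cons (nat_lit 386) (C.node (nat_lit 1) (nat_lit 8) (nat_lit 10) (C.cons (nat_lit 1346) (C.miq (nat_lit 907197056) (nat_lit 239405627056100779152051969)) (C.cons (nat_lit 1282) (C.node (nat_lit 6) (nat_lit 8) (nat_lit 10) (C.cons (nat_lit 1344) (C.node (nat_lit 2) (nat_lit 6) (nat_lit 11) (C.cons (nat_lit 2628) (C.miq (nat_lit 448163986) (nat_lit 3800866429653344414637228677)) (C.cons (nat_lit 2116) (C.node (nat_lit 3) (nat_lit 8) (nat_lit 11) (C.cons (nat_lit 2314) (C.miq (nat_lit 824621066) (nat_lit 239425309498398545178595073)) C.nil)) C.nil))) C.nil)) C.nil))) C.nil))) (C.cons (nat_lit 134) (C.node (nat_lit 1) (nat_lit 3) (nat_lit 10) (C.cons (nat_lit 1038) (C.node (nat_lit 1) (nat_lit 8) (nat_lit 10) (C.cons (nat_lit 1346) (C.miq (nat_lit 1629726731) (nat_lit 1254922997702219274540355329))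 (C.cons (nat_lit 1282) (C.node (nat_lit 6) (nat_lit 8) (nat_lit 10) (C.cons (nat_lit 1344) (C.node (nat_lit 3) (nat_lit 8) (nat_lit 11) (C.cons (nat_lit 2314) (C.miq (nat_lit 1662167936) (nat_lit 1254885163936224913234792193)) (C.cons (nat_lit 2312) (C.node (nat_lit 1) (nat_lit 8) (nat_lit 11) C.nil) C.nil))) C.nil)) C.nil))) (C.cons (nat_lit 1034) (C.node (nat_lit 1) (nat_lit 2) (nat_lit 10) (C.cons (nat_lit 1542) (C.miq (nat_lit 1361558160) (nat_lit 162037990151907751766593281)) (C.cons (nat_lit 1030) (C.node (nat_lit 2) (nat_lit 3) (nat_lit 10) (C.cons (nat_lit 1548) (C.miq (nat_lit 1663548048) (nat_lit 169291545080291601699639041)) (C.cons (nat_lit 1036) (C.node (nat_lit 1) (nat_lit 8) (nat_lit 10) (C.cons (nat_lit 1346) (C.node (nat_lit 1) (nat_lit 9) (nat_lit 10) C.nil) C.nil)) C.nil))) C.nil))) C.nil))) C.nil))) C.nil))))) C.nil))))) C.nil)))) C.nil))) C.nil))) C.nil)))) C.nil))) C.nil))) C.nil)))) (C.cons (nat_lit 1184) (C.node (nat_lit 7) (nat_lit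 8) (nat_lit 10) (C.cons (nat_lit 1408) (C.node (nat_lit 1) (nat_lit 2) (nat_lit 10) (C.cons (nat_lit 1542) (C.miq (nat_lit 352955250) (nat_lit 678235830557439667304991876)) (C.cons (nat_lit 1038) (C.node (nat_lit 1) (nat_lit 8) (nat_lit 10) (C.cons (nat_lit 1346) (C.miq (nat_lit 1629726731) (nat_lit 1254922997702219274540355329)) (C.cons (nat_lit 1282) (C.node (nat_lit 1) (nat_lit 3) (nat_lit 11) (C.cons (nat_lit 2314) (C.miq (nat_lit 1662167936) (nat_lit 1254885163936224913234792193)) (C.cons (nat_lit 2186) (C.miq (nat_lit 1729760050) (nat_lit 1415672297699805339050706973)) (C.cons (nat_lit 2058) (C.node (nat_lit 3) (nat_lit 7) (nat_lit 11) (C.cons (nat_lit 2696) (C.miq (nat_lit 2476899168) (nat_lit 1254876899668782666666543329)) (C.cons (nat_lit 2184) (C.node (nat_lit 3) (nat_lit 8) (nat_lit 11) (C.cons (nat_lit 2344) (C.miq (nat_lit 461874480) (nat_lit 2940129195314359811862758441)) (C.cons (nat_lit 2312) (C.node (nat_lit 2) (nat_lit 4) (nat_lit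 10) (C.cons (nat_lit 1556) (C.miq (nat_lit 1470696228) (nat_lit 2011662913101974681010047005)) (C.cons (nat_lit 1332) (C.miq (nat_lit 2510357539) (nat_lit 3754933243528101949632022557)) (C.cons (nat_lit 1300) (C.miq (nat_lit 1739066148) (nat_lit 1702173771209957101328926749))
  (C.cons (nat_lit 1076) (C.miq (nat_lit 2510357539) (nat_lit 3754933243528100850120394781)) (C.cons (nat_lit 1044) (C.node (nat_lit 1) (nat_lit 6) (nat_lit 10) (C.cons (nat_lit 1602) (C.node (nat_lit 3) (nat_lit 9) (nat_lit 10) (C.cons (nat_lit 1560) (C.miq (nat_lit 1453919028) (nat_lit 1936709512285867414480488477)) (C.cons (nat_lit 1544) (C.node (nat_lit 4) (nat_lit 9) (nat_lit 10) (C.cons (nat_lit 1552) (C.node (nat_lit 2) (nat_lit 8) (nat_lit 10) (C.cons (nat_lit 1316) (C.node (nat_lit 2) (nat_lit 9) (nat_lit 10) C.nil) C.nil)) C.nil)) C.nil))) (C.cons (nat_lit 1090) (C.node (nat_lit 1) (nat_lit 9) (nat_lit 10) (C.cons (nat_lit 1538) (C.node (nat_lit 2) (nat_lit 8) (nat_lit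 10) (C.cons (nat_lit 1316) (C.node (nat_lit 2) (nat_lit 9) (nat_lit 10) C.nil) C.nil)) C.nil)) C.nil))) C.nil)))))) C.nil))) C.nil))) C.nil)))) C.nil))) (C.cons (nat_lit 1030) (C.node (nat_lit 1) (nat_lit 3) (nat_lit 10) (C.cons (nat_lit 1290) (C.miq (nat_lit 410755845) (nat_lit 2940164889252975502780597289)) (C.cons (nat_lit 1034) (C.node (nat_lit 1) (nat_lit 8) (nat_lit 10) (C.cons (nat_lit 1346) (C.node (nat_lit 1) (nat_lit 9) (nat_lit 10) (C.cons (nat_lit 1538) (C.node (nat_lit 6) (nat_lit 8) (nat_lit 11) (C.cons (nat_lit 2372) (C.miq (nat_lit 414492192) (nat_lit 2804729503022125505654359109)) (C.cons (nat_lit 2368) (C.node (nat_lit 2) (nat_lit 3) (nat_lit 10) (C.cons (nat_lit 1548) (C.miq (nat_lit 1788326688) (nat_lit 2011694494172986463951849501)) (C.cons (nat_lit 1292) (C.miq (nat_lit 380668466) (nat_lit 2747893239856622321885054220)) (C.cons (nat_lit 1036) (C.node (nat_lit 3) (nat_lit 8) (nat_lit 10) (C.cons (nat_lit 1304) (C.node (nat_lit 3)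 (nat_lit 9) (nat_lit 10) C.nil) C.nil)) C.nil)))) C.nil))) C.nil)) (C.cons (nat_lit 1282) (C.node (nat_lit 1) (nat_lit 6) (nat_lit 10) (C.cons (nat_lit 1602) (C.node (nat_lit 3) (nat_lit 9) (nat_lit 10) (C.cons (nat_lit 1560) (C.miq (nat_lit 1453919028) (nat_lit 1936709512285867414480488477)) (C.cons (nat_lit 1548) (C.miq (nat_lit 1788326688) (nat_lit 2011694494172986463951849501)) (C.cons (nat_lit 1544) (C.node (nat_lit 4) (nat_lit 9) (nat_lit 10) (C.cons (nat_lit 1556) (C.miq (nat_lit 1470696228) (nat_lit 2011662913101974681010047005)) C.nil)) C.nil)))) (C.cons (nat_lit 1090) (C.node (nat_lit 1) (nat_lit 9) (nat_lit 10) (C.cons (nat_lit 1538) (C.node (nat_lit 6) (nat_lit 8) (nat_lit 10) (C.cons (nat_lit 1344) (C.node (nat_lit 2) (nat_lit 3) (nat_lit 10) C.nil) C.nil)) C.nil)) C.nil))) C.nil))) C.nil))) C.nil)))) C.nil)) C.nil))) C.nil))) C.nil))) C.nil))) C.nil))) C.nil)))) (C.cons (nat_lit 3080) (C.node (nat_lit 6) (nat_lit 10) (nat_lit 11) (C.cons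 (nat_lit 3136) (C.node (nat_lit 4) (nat_lit 5) (nat_lit 11) (C.cons (nat_lit 2352) (C.node (nat_lit 2) (nat_lit 5) (nat_lit 11) (C.cons (nat_lit 2596) (C.miq (nat_lit 1537512048) (nat_lit 3733173280324123043243950725)) (C.cons (nat_lit 2084) (C.node (nat_lit 2) (nat_lit 8) (nat_lit 11) (C.cons (nat_lit 2372) (C.miq (nat_lit 2072289888) (nat_lit 2843415129772774145859322949)) (C.cons (nat_lit 2308) (C.node (nat_lit 3) (nat_lit 5) (nat_lit 11) (C.cons (nat_lit 2600) (C.node (nat_lit 3) (nat_lit 7) (nat_lit 11) (C.cons (nat_lit 2186) (C.miq (nat_lit 1094256565) (nat_lit 632278552611492996126869729)) (C.cons (nat_lit 2184) (C.node (nat_lit 1) (nat_lit 7) (nat_lit 11) (C.cons (nat_lit 2690) (C.miq (nat_lit 2710767541) (nat_lit 632287849770508310404401377)) (C.cons (nat_lit 2178) (C.node (nat_lit 7) (nat_lit 9) (nat_lit 11) (C.cons (nat_lit 2688) (C.node (nat_lit 5) (nat_lit 7) (nat_lit 4) (C.cons (nat_lit 180) (C.miq (nat_lit 2502624378) (nat_lit 2519472262178782553714197651))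 (C.cons (nat_lit 184) (C.miq (nat_lit 1941587344) (nat_lit 3723513125602170734861419057)) (C.cons (nat_lit 176) (C.node (nat_lit 8) (nat_lit 3) (nat_lit 11) (C.cons (nat_lit 2376) (C.miq (nat_lit 956740936) (nat_lit 697594028113397516646549808)) (C.cons (nat_lit 2314) (C.miq (nat_lit 406862681) (nat_lit 407417649508623779879782952)) (C.cons (nat_lit 2312)
  (C.node (nat_lit 1) (nat_lit 8) (nat_lit 11) (C.cons (nat_lit 2370) (C.node (nat_lit 1) (nat_lit 3) (nat_lit 11) C.nil) C.nil)) C.nil)))) C.nil)))) C.nil)) C.nil))) C.nil))) (C.cons (nat_lit 2088) (C.node (nat_lit 5) (nat_lit 9) (nat_lit 11) (C.cons (nat_lit 2592) (C.ref (nat_lit 241) (nat_lit 198064386771216)) C.nil)) C.nil))) C.nil))) C.nil))) (C.cons (nat_lit 2096) (C.ref (nat_lit 300) (nat_lit 205163983024656)) C.nil))) C.nil)) C.nil))) (C.cons (nat_lit 3104) (C.ref (nat_lit 306) (nat_lit 205163983024656)) C.nil))) (C.cons (nat_lit 2182) (C.ref (nat_lit 307) (nat_lit 205163983024656)) (C.cons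 (nat_lit 2180) (C.node (nat_lit 7) (nat_lit 10) (nat_lit 11) (C.cons (nat_lit 3208) (C.node (nat_lit 1) (nat_lit 7) (nat_lit 11) (C.cons (nat_lit 2690) (C.ref (nat_lit 295) (nat_lit 205099542782736)) (C.cons (nat_lit 2178) (C.node (nat_lit 7) (nat_lit 9) (nat_lit 11) (C.cons (nat_lit 2688) (C.ref (nat_lit 309) (nat_lit 205163983024656)) C.nil)) C.nil))) (C.cons (nat_lit 3200) (C.node (nat_lit 1) (nat_lit 7) (nat_lit 11) (C.cons (nat_lit 2690) (C.ref (nat_lit 310) (nat_lit 205163983024656)) (C.cons (nat_lit 2186) (C.ref (nat_lit 310) (nat_lit 198128827013136)) (C.cons (nat_lit 2178) (C.node (nat_lit 3) (nat_lit 7) (nat_lit 11) (C.cons (nat_lit 2696) (C.ref (nat_lit 293) (nat_lit 205099542782736)) (C.cons (nat_lit 2184) (C.node (nat_lit 7) (nat_lit 9) (nat_lit 11) (C.cons (nat_lit 2688) (C.node (nat_lit 2) (nat_lit 8) (nat_lit 11) (C.cons (nat_lit 2372) (C.node (nat_lit 2) (nat_lit 10) (nat_lit 11) (C.cons (nat_lit 3110) (C.miq (nat_lit 1805943312) (nat_lit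 3733169148190399733794275591)) (C.cons (nat_lit 3108) (C.node (nat_lit 4) (nat_lit 8) (nat_lit 11) (C.cons (nat_lit 2354) (C.miq (nat_lit 1800022032) (nat_lit 3733183093928916211220021511)) (C.cons (nat_lit 2352) (C.miq (nat_lit 1409988706) (nat_lit 1415709467911342445566429508)) (C.cons (nat_lit 2322) (C.miq (nat_lit 1800022032) (nat_lit 3733183093928916073781068039)) (C.cons (nat_lit 2320) (C.node (nat_lit 1) (nat_lit 2) (nat_lit 11) (C.cons (nat_lit 2566) (C.node (nat_lit 1) (nat_lit 2) (nat_lit 10) (C.cons (nat_lit 1038) (C.miq (nat_lit 1377020816) (nat_lit 1254884647417258832554561281)) (C.cons (nat_lit 1030) (C.node (nat_lit 4) (nat_lit 9) (nat_lit 11) (C.cons (nat_lit 2640) (C.miq (nat_lit 2483140226) (nat_lit 1415699469857119288227727684)) (C.cons (nat_lit 2576) (C.node (nat_lit 5) (nat_lit 9) (nat_lit 11) (C.cons (nat_lit 2600) (C.miq (nat_lit 312515411) (nat_lit 1321365569208218377117043240)) (C.cons (nat_lit 2592) (C.node (nat_lit 3) (nat_lit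 9) (nat_lit 11) (C.cons (nat_lit 2632) (C.miq (nat_lit 914397985) (nat_lit 407417649598132908353587718)) C.nil)) C.nil))) C.nil))) C.nil))) (C.cons (nat_lit 2054) (C.node (nat_lit 2) (nat_lit 9) (nat_lit 11) (C.cons (nat_lit 2564) (C.node (nat_lit 4) (nat_lit 5) (nat_lit 11) (C.cons (nat_lit 2098) (C.node (nat_lit 5) (nat_lit 8) (nat_lit 11) (C.cons (nat_lit 2344) (C.miq (nat_lit 2198255010) (nat_lit 88295341168592688431565860)) C.nil)) (C.cons (nat_lit 2096) (C.node (nat_lit 3) (nat_lit 9) (nat_lit 11) C.nil) C.nil))) C.nil)) C.nil))) C.nil))))) (C.cons (nat_lit 3078) (C.miq (nat_lit 1805943312) (nat_lit 3733169148190399596355322119)) (C.cons (nat_lit 3076) (C.node (nat_lit 5) (nat_lit 10) (nat_lit 11) (C.cons (nat_lit 3106) (C.node (nat_lit 1) (nat_lit 8) (nat_lit 10) (C.cons (nat_lit 1354) (C.miq (nat_lit 2276536410) (nat_lit 2633065412122767573754446889)) (C.cons (nat_lit 1346) (C.miq (nat_lit 1783333122) (nat_lit 3733206687025788078744469767))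 (C.cons (nat_lit 1290) (C.miq (nat_lit 2276536410) (nat_lit 2633064231531146856343143465)) (C.cons (nat_lit 1282) (C.node (nat_lit 1) (nat_lit 2) (nat_lit 11) (C.cons (nat_lit 2566) (C.node (nat_lit 2) (nat_lit 5) (nat_lit 11) (C.cons (nat_lit 2084) (C.node (nat_lit 4) (nat_lit 9) (nat_lit 11) (C.cons (nat_lit 2640) (C.miq (nat_lit 2483140226) (nat_lit 1415699469857119288227727684)) (C.cons (nat_lit 2576) (C.node (nat_lit 6) (nat_lit 9) (nat_lit 11) (C.cons (nat_lit 2632)
  (C.miq (nat_lit 914397985) (nat_lit 407417649598132908353587718)) C.nil)) C.nil))) C.nil)) (C.cons (nat_lit 2054) (C.node (nat_lit 2) (nat_lit 5) (nat_lit 11) (C.cons (nat_lit 2596) (C.node (nat_lit 3) (nat_lit 5) (nat_lit 11) (C.cons (nat_lit 2344) (C.miq (nat_lit 461874480) (nat_lit 2940129195314359811862758441)) (C.cons (nat_lit 2088) (C.node (nat_lit 4) (nat_lit 5) (nat_lit 11) (C.cons (nat_lit 2352) (C.miq (nat_lit 1653640020) (nat_lit 779763370871858452333922608)) C.nil)) C.nil)))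 (C.cons (nat_lit 2084) (C.node (nat_lit 2) (nat_lit 9) (nat_lit 11) (C.cons (nat_lit 2564) (C.node (nat_lit 3) (nat_lit 10) (nat_lit 11) C.nil) C.nil)) C.nil))) C.nil))) C.nil))))) (C.cons (nat_lit 3104) (C.node (nat_lit 4) (nat_lit 8) (nat_lit 11) (C.cons (nat_lit 2354) (C.miq (nat_lit 1800022032) (nat_lit 3733183093928916211220021511)) (C.cons (nat_lit 2352) (C.node (nat_lit 1) (nat_lit 8) (nat_lit 11) (C.cons (nat_lit 2314) (C.node (nat_lit 1) (nat_lit 4) (nat_lit 8) (C.cons (nat_lit 786) (C.miq (nat_lit 1478052656) (nat_lit 950226043502562966189574173)) (C.cons (nat_lit 274) (C.node (nat_lit 3) (nat_lit 5) (nat_lit 11) (C.cons (nat_lit 2600) (C.miq (nat_lit 2214704531) (nat_lit 1415694821196548882217765416)) (C.cons (nat_lit 2088) (C.node (nat_lit 3) (nat_lit 9) (nat_lit 11) (C.cons (nat_lit 2632) (C.miq (nat_lit 647007025) (nat_lit 697555050079002368563415306)) C.nil)) C.nil))) C.nil))) (C.cons (nat_lit 2306) (C.node (nat_lit 3) (nat_lit 8) (nat_lit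 11) (C.cons (nat_lit 2312) (C.node (nat_lit 9) (nat_lit 3) (nat_lit 11) C.nil) C.nil)) C.nil))) (C.cons (nat_lit 2322) (C.miq (nat_lit 1800022032) (nat_lit 3733183093928916073781068039)) (C.cons (nat_lit 2320) (C.node (nat_lit 4) (nat_lit 5) (nat_lit 11) (C.cons (nat_lit 2098) (C.node (nat_lit 2) (nat_lit 5) (nat_lit 11) (C.cons (nat_lit 2596) (C.miq (nat_lit 722965824) (nat_lit 2633052334001307935629836849)) (C.cons (nat_lit 2084) (C.node (nat_lit 1) (nat_lit 2) (nat_lit 11) C.nil) C.nil))) (C.cons (nat_lit 2096) (C.node (nat_lit 2) (nat_lit 6) (nat_lit 7) (C.cons (nat_lit 212) (C.miq (nat_lit 2871461988) (nat_lit 2635479888978357487966355793)) (C.cons (nat_lit 206) (C.miq (nat_lit 2820737895) (nat_lit 317969092777113360054225121)) (C.cons (nat_lit 204) (C.node (nat_lit 6) (nat_lit 7) (nat_lit 10) (C.cons (nat_lit 1728) (C.miq (nat_lit 2537268768) (nat_lit 2640364844468726872011506757)) (C.cons (nat_lit 1472) (C.miq (nat_lit 1114049418) (nat_lit 246642468923328379911933697))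 (C.cons (nat_lit 1216) (C.node (nat_lit 6) (nat_lit 7) (nat_lit 8) (C.cons (nat_lit 962) (C.miq (nat_lit 321294520) (nat_lit 246638613116403593850916609)) (C.cons (nat_lit 960) (C.miq (nat_lit 998645911) (nat_lit 2867575807846331462811910789)) (C.cons (nat_lit 450) (C.miq (nat_lit 1115753319) (nat_lit 317969092280591501152618721)) (C.cons (nat_lit 448) (C.ref (nat_lit 311) (nat_lit 205163983024656)) C.nil))))) C.nil)))) (C.cons (nat_lit 198) (C.miq (nat_lit 2820737895) (nat_lit 317969092777113360053700833)) (C.cons (nat_lit 196) (C.node (nat_lit 6) (nat_lit 7) (nat_lit 8) (C.cons (nat_lit 1472) (C.miq (nat_lit 1114049418) (nat_lit 236971062366411346514284289)) (C.cons (nat_lit 962) (C.miq (nat_lit 1115753319) (nat_lit 317969092280591501186173153)) (C.cons (nat_lit 960) (C.node (nat_lit 4) (nat_lit 6) (nat_lit 7) (C.cons (nat_lit 216) (C.miq (nat_lit 2537260608) (nat_lit 2640364844252554141437329745)) (C.cons (nat_lit 208) (C.ref (nat_lit 311) (nat_lit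 198128827013136)) C.nil))) (C.cons (nat_lit 450) (C.miq (nat_lit 1115753319) (nat_lit 317969092280591501152618721)) (C.cons (nat_lit 448) (C.node (nat_lit 1) (nat_lit 6) (nat_lit 7) (C.cons (nat_lit 706) (C.node (nat_lit 1) (nat_lit 7) (nat_lit 8) (C.cons (nat_lit 418) (C.node (nat_lit 5) (nat_lit 8) (nat_lit 11) (C.cons (nat_lit 2344) (C.miq (nat_lit 364148784) (nat_lit 2533930119167239671873601929)) (C.cons (nat_lit 2336) (C.node (nat_lit 1) (nat_lit 8) (nat_lit 11) C.nil) C.nil))) (C.cons (nat_lit 386) (C.node (nat_lit 4) (nat_lit 6) (nat_lit 7) (C.cons (nat_lit 216)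
  (C.node (nat_lit 6) (nat_lit 7) (nat_lit 10) (C.cons (nat_lit 1216) (C.node (nat_lit 4) (nat_lit 6) (nat_lit 11) (C.cons (nat_lit 2640) (C.miq (nat_lit 2524492848) (nat_lit 541669621874435854910949405)) (C.cons (nat_lit 2130) (C.miq (nat_lit 2528276800) (nat_lit 2867583942474558427038024851)) (C.cons (nat_lit 2128) (C.node (nat_lit 1) (nat_lit 4) (nat_lit 11) C.nil) C.nil)))) C.nil)) (C.cons (nat_lit 208) (C.node (nat_lit 3) (nat_lit 6) (nat_lit 7) (C.cons (nat_lit 1224) (C.node (nat_lit 3) (nat_lit 6) (nat_lit 11) (C.cons (nat_lit 2632) (C.miq (nat_lit 1133579111) (nat_lit 632289805380396203284498657)) (C.cons (nat_lit 2122) (C.miq (nat_lit 588843879) (nat_lit 632280102393011241627027681)) (C.cons (nat_lit 2120) (C.node (nat_lit 3) (nat_lit 9) (nat_lit 11) C.nil) C.nil)))) (C.cons (nat_lit 200) (C.node (nat_lit 6) (nat_lit 7) (nat_lit 10) (C.cons (nat_lit 1216) (C.node (nat_lit 1) (nat_lit 4) (nat_lit 11) (C.cons (nat_lit 2066) (C.node (nat_lit 4)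 (nat_lit 6) (nat_lit 11) C.nil) C.nil)) C.nil)) C.nil))) C.nil))) C.nil))) (C.cons (nat_lit 202) (C.node (nat_lit 1) (nat_lit 7) (nat_lit 2) (C.cons (nat_lit 166) (C.node (nat_lit 5) (nat_lit 2) (nat_lit 11) (C.cons (nat_lit 2596) (C.miq (nat_lit 364540560) (nat_lit 3752527345267855268293706373)) (C.cons (nat_lit 2084) (C.node (nat_lit 1) (nat_lit 2) (nat_lit 11) C.nil) C.nil))) (C.cons (nat_lit 134) (C.node (nat_lit 10) (nat_lit 6) (nat_lit 7) (C.cons (nat_lit 1728) (C.node (nat_lit 6) (nat_lit 7) (nat_lit 4) (C.cons (nat_lit 208) (C.node (nat_lit 10) (nat_lit 6) (nat_lit 11) (C.cons (nat_lit 3144) (C.miq (nat_lit 913488528) (nat_lit 236987775416873161505181441)) (C.cons (nat_lit 3138) (C.miq (nat_lit 918057376) (nat_lit 2867579293753192793411486867)) (C.cons (nat_lit 3136) (C.node (nat_lit 1) (nat_lit 10) (nat_lit 11) C.nil) C.nil)))) C.nil)) (C.cons (nat_lit 1216) (C.node (nat_lit 9) (nat_lit 6) (nat_lit 7) (C.cons (nat_lit 720) (C.node (nat_lit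 9) (nat_lit 6) (nat_lit 11) (C.cons (nat_lit 2632) (C.miq (nat_lit 2838563687) (nat_lit 632289805876918062169065697)) (C.cons (nat_lit 2626) (C.miq (nat_lit 2299726695) (nat_lit 632275454310028690368104673)) (C.cons (nat_lit 2624) (C.node (nat_lit 9) (nat_lit 3) (nat_lit 11) C.nil) C.nil)))) (C.cons (nat_lit 704) (C.node (nat_lit 6) (nat_lit 7) (nat_lit 4) (C.cons (nat_lit 208) (C.node (nat_lit 1) (nat_lit 10) (nat_lit 11) (C.cons (nat_lit 3074) (C.node (nat_lit 10) (nat_lit 6) (nat_lit 11) C.nil) C.nil)) C.nil)) C.nil))) C.nil))) C.nil))) (C.cons (nat_lit 194) (C.node (nat_lit 3) (nat_lit 9) (nat_lit 11) (C.cons (nat_lit 2632) (C.node (nat_lit 3) (nat_lit 10) (nat_lit 11) C.nil) (C.cons (nat_lit 2600) (C.node (nat_lit 2) (nat_lit 5) (nat_lit 11) C.nil) (C.cons (nat_lit 2568) (C.node (nat_lit 1) (nat_lit 2) (nat_lit 11) C.nil) C.nil)))) C.nil)))) C.nil)))))) C.nil)))))) C.nil))) C.nil))))) C.nil))) C.nil))))) (C.cons (nat_lit 2340) (C.node (nat_lit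 2) (nat_lit 10) (nat_lit 11) (C.cons (nat_lit 3078) (C.node (nat_lit 5) (nat_lit 10) (nat_lit 11) (C.cons (nat_lit 3104) (C.node (nat_lit 4) (nat_lit 8) (nat_lit 11) (C.cons (nat_lit 2322) (C.miq (nat_lit 1656228372) (nat_lit 2828892634758650478537606291)) (C.cons (nat_lit 2320) (C.node (nat_lit 2) (nat_lit 6) (nat_lit 11) (C.cons (nat_lit 2628) (C.node (nat_lit 4) (nat_lit 9) (nat_lit 11) (C.cons (nat_lit 2578) (C.miq (nat_lit 2516890273) (nat_lit 407455557656072988371651590)) (C.cons (nat_lit 2576) (C.node (nat_lit 1) (nat_lit 9) (nat_lit 11) (C.cons (nat_lit 2594) (C.node (nat_lit 3) (nat_lit 5) (nat_lit 11) C.nil) C.nil)) C.nil))) (C.cons (nat_lit 2116) (C.node (nat_lit 2) (nat_lit 9) (nat_lit 11) (C.cons (nat_lit 2564) (C.node (nat_lit 3) (nat_lit 10) (nat_lit 11) C.nil) C.nil)) C.nil))) C.nil))) C.nil)) (C.cons (nat_lit 3076) (C.node (nat_lit 4) (nat_lit 5) (nat_lit 11) (C.cons (nat_lit 2098) (C.node (nat_lit 4) (nat_lit 8) (nat_lit 11) (C.cons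 (nat_lit 2320) (C.node (nat_lit 5) (nat_lit 10) (nat_lit 11) (C.cons (nat_lit 3104) (C.node (nat_lit 3) (nat_lit 5) (nat_lit 11)
  (C.cons (nat_lit 2600) (C.node (nat_lit 4) (nat_lit 6) (nat_lit 11) (C.cons (nat_lit 2640) (C.node (nat_lit 1) (nat_lit 9) (nat_lit 11) (C.cons (nat_lit 2566) (C.miq (nat_lit 897620769) (nat_lit 349389210247623371273996806)) C.nil)) C.nil)) (C.cons (nat_lit 2088) (C.node (nat_lit 5) (nat_lit 9) (nat_lit 11) C.nil) C.nil))) C.nil)) C.nil)) (C.cons (nat_lit 2096) (C.node (nat_lit 4) (nat_lit 8) (nat_lit 11) (C.cons (nat_lit 2322) (C.node (nat_lit 8) (nat_lit 6) (nat_lit 11) (C.cons (nat_lit 2376) (C.node (nat_lit 10) (nat_lit 3) (nat_lit 11) (C.cons (nat_lit 3082) (C.miq (nat_lit 906672193) (nat_lit 1321412774372810852937173266)) (C.cons (nat_lit 3080) (C.node (nat_lit 1) (nat_lit 3) (nat_lit 11) (C.cons (nat_lit 2090) (C.node (nat_lit 9) (nat_lit 5) (nat_lit 11) C.nil) C.nil)) C.nil))) (C.cons (nat_lit 2368) (C.node (nat_lit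 8) (nat_lit 3) (nat_lit 11) (C.cons (nat_lit 2312) (C.node (nat_lit 9) (nat_lit 4) (nat_lit 11) C.nil) C.nil)) C.nil))) (C.cons (nat_lit 2320) (C.node (nat_lit 5) (nat_lit 10) (nat_lit 11) (C.cons (nat_lit 3106) (C.node (nat_lit 9) (nat_lit 5) (nat_lit 11) (C.cons (nat_lit 2600) (C.node (nat_lit 10) (nat_lit 6) (nat_lit 11) (C.cons (nat_lit 3144) (C.node (nat_lit 1) (nat_lit 3) (nat_lit 11) (C.cons (nat_lit 2314) (C.miq (nat_lit 2501917569) (nat_lit 44739903704736819248040202)) C.nil)) C.nil)) (C.cons (nat_lit 2592) (C.node (nat_lit 5) (nat_lit 3) (nat_lit 11) C.nil) C.nil))) (C.cons (nat_lit 3104) (C.node (nat_lit 1) (nat_lit 5) (nat_lit 11) (C.cons (nat_lit 2594) (C.node (nat_lit 3) (nat_lit 5) (nat_lit 11) C.nil) (C.cons (nat_lit 2090) (C.node (nat_lit 9) (nat_lit 5) (nat_lit 11) C.nil) (C.cons (nat_lit 2082) (C.node (nat_lit 3) (nat_lit 5) (nat_lit 11) C.nil) C.nil)))) C.nil))) C.nil))) C.nil))) C.nil))) (C.cons (nat_lit 2308) (C.node (nat_lit 3)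 (nat_lit 9) (nat_lit 11) (C.cons (nat_lit 2632) (C.node (nat_lit 2) (nat_lit 6) (nat_lit 11) (C.cons (nat_lit 2118) (C.node (nat_lit 4) (nat_lit 6) (nat_lit 11) (C.cons (nat_lit 2128) (C.node (nat_lit 6) (nat_lit 8) (nat_lit 11) (C.cons (nat_lit 2368) (C.node (nat_lit 6) (nat_lit 10) (nat_lit 11) (C.cons (nat_lit 3136) (C.node (nat_lit 2) (nat_lit 9) (nat_lit 11) C.nil) C.nil)) C.nil)) C.nil)) (C.cons (nat_lit 2116) (C.node (nat_lit 3) (nat_lit 10) (nat_lit 11) (C.cons (nat_lit 3082) (C.node (nat_lit 6) (nat_lit 10) (nat_lit 11) (C.cons (nat_lit 3136) (C.node (nat_lit 4) (nat_lit 9) (nat_lit 11) (C.cons (nat_lit 2578) (C.miq (nat_lit 1404635668) (nat_lit 3181903106148913426340119699)) (C.cons (nat_lit 2576) (C.node (nat_lit 2) (nat_lit 10) (nat_lit 11) C.nil) C.nil))) C.nil)) (C.cons (nat_lit 3080) (C.node (nat_lit 4) (nat_lit 6) (nat_lit 11) (C.cons (nat_lit 2130) (C.node (nat_lit 4) (nat_lit 9) (nat_lit 11) (C.cons (nat_lit 2576) (C.node (nat_lit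 6) (nat_lit 8) (nat_lit 11) C.nil) C.nil)) (C.cons (nat_lit 2128) (C.node (nat_lit 4) (nat_lit 9) (nat_lit 11) (C.cons (nat_lit 2578) (C.node (nat_lit 2) (nat_lit 9) (nat_lit 11) C.nil) (C.cons (nat_lit 2576) (C.node (nat_lit 6) (nat_lit 8) (nat_lit 11) C.nil) C.nil))) C.nil))) C.nil))) C.nil))) (C.cons (nat_lit 2600) (C.node (nat_lit 3) (nat_lit 10) (nat_lit 11) (C.cons (nat_lit 3146) (C.miq (nat_lit 1537512208) (nat_lit 3733173280325248694042690059)) (C.cons (nat_lit 3144) (C.node (nat_lit 4) (nat_lit 9) (nat_lit 11) (C.cons (nat_lit 2642) (C.miq (nat_lit 440090713) (nat_lit 3800911513495848637950329393)) (C.cons (nat_lit 2640) (C.miq (nat_lit 1678424403) (nat_lit 1415710132075194854473796136)) (C.cons (nat_lit 2578) (C.miq (nat_lit 440090713) (nat_lit 3800910332904227920539025969)) (C.cons (nat_lit 2576) (C.node (nat_lit 1) (nat_lit 3) (nat_lit 11) (C.cons (nat_lit 2314) (C.node (nat_lit 6) (nat_lit 8) (nat_lit 11) (C.cons (nat_lit 2368) (C.node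 (nat_lit 4) (nat_lit 8) (nat_lit 11) (C.cons (nat_lit 2352) (C.miq (nat_lit 2214704531) (nat_lit 1415694821196548882217765416)) C.nil)) C.nil)) (C.cons (nat_lit 2058) (C.node (nat_lit 3) (nat_lit 8) (nat_lit 11) (C.cons (nat_lit 2312)
  (C.node (nat_lit 4) (nat_lit 6) (nat_lit 11) C.nil) C.nil)) C.nil))) C.nil))))) (C.cons (nat_lit 3082) (C.miq (nat_lit 1537512208) (nat_lit 3733173280325248419164783115)) (C.cons (nat_lit 3080) (C.node (nat_lit 6) (nat_lit 10) (nat_lit 11) (C.cons (nat_lit 3138) (C.node (nat_lit 2) (nat_lit 6) (nat_lit 11) (C.cons (nat_lit 2628) (C.miq (nat_lit 462923296) (nat_lit 3249614205144713299629507653)) (C.cons (nat_lit 2116) (C.node (nat_lit 1) (nat_lit 9) (nat_lit 10) (C.cons (nat_lit 1574) (C.miq (nat_lit 2544967786) (nat_lit 2633069470477395483988984901)) (C.cons (nat_lit 1570) (C.miq (nat_lit 1514901763) (nat_lit 3733210892946487279305425419)) (C.cons (nat_lit 1542) (C.miq (nat_lit 2544967786) (nat_lit 2633068880181585125283333189))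 (C.cons (nat_lit 1538) (C.node (nat_lit 1) (nat_lit 3) (nat_lit 11) (C.cons (nat_lit 2314) (C.node (nat_lit 3) (nat_lit 6) (nat_lit 11) C.nil) (C.cons (nat_lit 2058) (C.node (nat_lit 2) (nat_lit 9) (nat_lit 11) C.nil) C.nil))) C.nil))))) C.nil))) (C.cons (nat_lit 3136) (C.node (nat_lit 4) (nat_lit 9) (nat_lit 11) (C.cons (nat_lit 2642) (C.miq (nat_lit 440090713) (nat_lit 3723540261040512370769134129)) (C.cons (nat_lit 2640) (C.node (nat_lit 1) (nat_lit 9) (nat_lit 11) (C.cons (nat_lit 2566) (C.node (nat_lit 2) (nat_lit 6) (nat_lit 11) C.nil) (C.cons (nat_lit 2562) (C.node (nat_lit 2) (nat_lit 9) (nat_lit 11) C.nil) C.nil))) (C.cons (nat_lit 2578) (C.miq (nat_lit 440090713) (nat_lit 3723539080448891653357830705)) (C.cons (nat_lit 2576) (C.node (nat_lit 4) (nat_lit 6) (nat_lit 11) (C.cons (nat_lit 2130) (C.node (nat_lit 1) (nat_lit 3) (nat_lit 11) C.nil) (C.cons (nat_lit 2128) (C.node (nat_lit 1) (nat_lit 3) (nat_lit 11) C.nil) C.nil))) C.nil))))) C.nil)))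 C.nil))))) (C.cons (nat_lit 2568) (C.node (nat_lit 2) (nat_lit 6) (nat_lit 11) (C.cons (nat_lit 2630) (C.node (nat_lit 4) (nat_lit 6) (nat_lit 11) (C.cons (nat_lit 2128) (C.node (nat_lit 4) (nat_lit 9) (nat_lit 11) (C.cons (nat_lit 2576) (C.node (nat_lit 5) (nat_lit 9) (nat_lit 11) (C.cons (nat_lit 2592) (C.node (nat_lit 2) (nat_lit 5) (nat_lit 11) (C.cons (nat_lit 2084) (C.node (nat_lit 2) (nat_lit 10) (nat_lit 11) C.nil) C.nil)) C.nil)) C.nil)) C.nil)) (C.cons (nat_lit 2628) (C.node (nat_lit 4) (nat_lit 6) (nat_lit 11) (C.cons (nat_lit 2130) (C.node (nat_lit 4) (nat_lit 9) (nat_lit 11) (C.cons (nat_lit 2576) (C.node (nat_lit 6) (nat_lit 8) (nat_lit 11) (C.cons (nat_lit 2376) (C.miq (nat_lit 991397440) (nat_lit 2633047685359877003385438545)) (C.cons (nat_lit 2368) (C.node (nat_lit 1) (nat_lit 9) (nat_lit 11) C.nil) C.nil))) C.nil)) (C.cons (nat_lit 2128) (C.node (nat_lit 4) (nat_lit 9) (nat_lit 11) (C.cons (nat_lit 2578) (C.node (nat_lit 5) (nat_lit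 9) (nat_lit 11) (C.cons (nat_lit 2592) (C.node (nat_lit 4) (nat_lit 5) (nat_lit 11) C.nil) C.nil)) (C.cons (nat_lit 2576) (C.node (nat_lit 1) (nat_lit 9) (nat_lit 11) (C.cons (nat_lit 2594) (C.node (nat_lit 1) (nat_lit 2) (nat_lit 11) C.nil) (C.cons (nat_lit 2562) (C.node (nat_lit 5) (nat_lit 9) (nat_lit 11) C.nil) C.nil))) C.nil))) C.nil))) (C.cons (nat_lit 2118) (C.node (nat_lit 2) (nat_lit 9) (nat_lit 11) (C.cons (nat_lit 2596) (C.node (nat_lit 2) (nat_lit 10) (nat_lit 11) (C.cons (nat_lit 3076) (C.node (nat_lit 1) (nat_lit 2) (nat_lit 4) (C.cons (nat_lit 534) (C.miq (nat_lit 2065761684) (nat_lit 2560526487720898677746041393)) (C.cons (nat_lit 54) (C.miq (nat_lit 2871069012) (nat_lit 2560526488162251441196892721)) (C.cons (nat_lit 22) (C.node (nat_lit 1) (nat_lit 2) (nat_lit 9) (C.cons (nat_lit 1542) (C.node (nat_lit 1) (nat_lit 9) (nat_lit 11) (C.cons (nat_lit 2578) (C.node (nat_lit 4) (nat_lit 6) (nat_lit 11) C.nil) (C.cons (nat_lit 2562) (C.node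 (nat_lit 4) (nat_lit 6) (nat_lit 11) C.nil) C.nil))) (C.cons (nat_lit 518) (C.node (nat_lit 1) (nat_lit 9) (nat_lit 11) (C.cons (nat_lit 2578) (C.node (nat_lit 4) (nat_lit 6) (nat_lit 11) C.nil) (C.cons (nat_lit 2562) (C.node (nat_lit 4) (nat_lit 6) (nat_lit 11) C.nil) C.nil))) C.nil))) C.nil)))) C.nil)) (C.cons (nat_lit 2564)
  (C.node (nat_lit 2) (nat_lit 5) (nat_lit 11) (C.cons (nat_lit 3108) (C.node (nat_lit 1) (nat_lit 10) (nat_lit 11) (C.cons (nat_lit 3082) (C.node (nat_lit 6) (nat_lit 10) (nat_lit 11) C.nil) (C.cons (nat_lit 3074) (C.node (nat_lit 3) (nat_lit 10) (nat_lit 11) C.nil) C.nil))) (C.cons (nat_lit 2084) (C.node (nat_lit 2) (nat_lit 10) (nat_lit 11) (C.cons (nat_lit 3076) (C.node (nat_lit 4) (nat_lit 6) (nat_lit 11) C.nil) C.nil)) C.nil))) C.nil))) (C.cons (nat_lit 2116) (C.node (nat_lit 2) (nat_lit 9) (nat_lit 11) (C.cons (nat_lit 2598) (C.node (nat_lit 2) (nat_lit 10) (nat_lit 11) (C.cons (nat_lit 3076) (C.node (nat_lit 5) (nat_lit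 10) (nat_lit 11) (C.cons (nat_lit 3104) (C.node (nat_lit 9) (nat_lit 6) (nat_lit 11) (C.cons (nat_lit 2624) (C.node (nat_lit 9) (nat_lit 4) (nat_lit 11) C.nil) C.nil)) C.nil)) C.nil)) (C.cons (nat_lit 2596) (C.node (nat_lit 1) (nat_lit 2) (nat_lit 11) (C.cons (nat_lit 3078) (C.node (nat_lit 5) (nat_lit 10) (nat_lit 11) (C.cons (nat_lit 3104) (C.node (nat_lit 10) (nat_lit 6) (nat_lit 11) C.nil) C.nil)) (C.cons (nat_lit 2054) (C.node (nat_lit 2) (nat_lit 10) (nat_lit 11) (C.cons (nat_lit 3076) (C.node (nat_lit 5) (nat_lit 10) (nat_lit 11) C.nil) C.nil)) C.nil))) (C.cons (nat_lit 2566) (C.node (nat_lit 5) (nat_lit 9) (nat_lit 11) (C.cons (nat_lit 2592) (C.node (nat_lit 2) (nat_lit 5) (nat_lit 11) (C.cons (nat_lit 3108) (C.node (nat_lit 4) (nat_lit 9) (nat_lit 11) C.nil) (C.cons (nat_lit 2084) (C.node (nat_lit 2) (nat_lit 10) (nat_lit 11) C.nil) C.nil))) C.nil)) (C.cons (nat_lit 2564) (C.node (nat_lit 5) (nat_lit 9) (nat_lit 11) (C.cons (nat_lit 2594) (C.node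 (nat_lit 1) (nat_lit 2) (nat_lit 11) (C.cons (nat_lit 3078) (C.node (nat_lit 2) (nat_lit 5) (nat_lit 11) C.nil) (C.cons (nat_lit 2054) (C.node (nat_lit 2) (nat_lit 5) (nat_lit 11) C.nil) C.nil))) (C.cons (nat_lit 2592) (C.node (nat_lit 1) (nat_lit 2) (nat_lit 11) (C.cons (nat_lit 3110) (C.node (nat_lit 3) (nat_lit 5) (nat_lit 11) (C.cons (nat_lit 2088) (C.node (nat_lit 3) (nat_lit 10) (nat_lit 11) C.nil) C.nil)) (C.cons (nat_lit 3078) (C.node (nat_lit 2) (nat_lit 5) (nat_lit 11) C.nil) (C.cons (nat_lit 2086) (C.node (nat_lit 2) (nat_lit 10) (nat_lit 11) C.nil) (C.cons (nat_lit 2054) (C.node (nat_lit 2) (nat_lit 5) (nat_lit 11) C.nil) C.nil))))) C.nil))) C.nil))))) C.nil))))) C.nil)))) C.nil)))) C.nil)) C.nil))) C.nil)))) C.nil))) C.nil)))) List.nil)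

theorem ok12_312 : okL par12 (nat_lit 313) c12_312 (nat_lit 312) = true := by decide +kernel

noncomputable def c12_313 : List C :=
  (List.cons (C.node (nat_lit 4) (nat_lit 7) (nat_lit 11) (C.cons (nat_lit 2704) (C.node (nat_lit 4) (nat_lit 8) (nat_lit 11) (C.cons (nat_lit 2354) (C.miq (nat_lit 658573752) (nat_lit 1415656986443985122917224193)) (C.cons (nat_lit 2352) (C.node (nat_lit 1) (nat_lit 4) (nat_lit 11) (C.cons (nat_lit 2130) (C.node (nat_lit 4) (nat_lit 10) (nat_lit 11) (C.cons (nat_lit 3088) (C.ref (nat_lit 236) (nat_lit 205163983024656)) C.nil)) (C.cons (nat_lit 2066) (C.ref (nat_lit 238) (nat_lit 205163983024656)) C.nil))) (C.cons (nat_lit 2322) (C.miq (nat_lit 658573752) (nat_lit 1415656986443985122915127041)) (C.cons (nat_lit 2320) (C.ref (nat_lit 265) (nat_lit 205163983024656)) C.nil))))) (C.cons (nat_lit 2448) (C.node (nat_lit 4) (nat_lit 9) (nat_lit 11) (C.cons (nat_lit 2642) (C.miq (nat_lit 927008953) (nat_lit 1415661782526511493776805633))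 (C.cons (nat_lit 2640) (C.node (nat_lit 1) (nat_lit 4) (nat_lit 11) (C.cons (nat_lit 2098) (C.node (nat_lit 4) (nat_lit 10) (nat_lit 11) (C.cons (nat_lit 3088) (C.ref (nat_lit 236) (nat_lit 205099542782736)) C.nil)) (C.cons (nat_lit 2066) (C.ref (nat_lit 238) (nat_lit 205099542782736)) C.nil))) (C.cons (nat_lit 2578) (C.miq (nat_lit 927008953) (nat_lit 1415661782526511493772611329)) (C.cons (nat_lit 2576) (C.ref (nat_lit 265) (nat_lit 205099542782736)) C.nil))))) (C.cons (nat_lit 2192) (C.node (nat_lit 4) (nat_lit 10) (nat_lit 11) (C.cons (nat_lit 3152) (C.ref (nat_lit 283) (nat_lit 205163983024656)) (C.cons (nat_lit 3120) (C.ref (nat_lit 283) (nat_lit 205099542782736)) (C.cons (nat_lit 3088) (C.node (nat_lit 7) (nat_lit 8) (nat_lit 11) (C.cons (nat_lit 2436) (C.node (nat_lit 7) (nat_lit 10) (nat_lit 11) (C.cons (nat_lit 3208) (C.node (nat_lit 7) (nat_lit 8) (nat_lit 10) (C.cons (nat_lit 1472) (C.miq (nat_lit 1790215984) (nat_lit 3733169147937072675720855945))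 (C.cons (nat_lit 1440) (C.miq (nat_lit 676378531) (nat_lit 349417876441748154318654600)) (C.cons (nat_lit 1408) (C.node (nat_lit 2) (nat_lit 10) (nat_lit 11) (C.cons (nat_lit 3110) (C.miq (nat_lit 2275476402) (nat_lit 1415656986373055593499199517)) (C.cons (nat_lit 3108) (C.miq (nat_lit 1384164211) (nat_lit 317967137215920663803006088)) (C.cons (nat_lit 3078) (C.miq (nat_lit 2275476402) (nat_lit 1415656986373055593497102365)) (C.cons (nat_lit 3076) (C.node (nat_lit 1) (nat_lit 7) (nat_lit 11) (C.cons (nat_lit 2690) (C.ref (nat_lit 284) (nat_lit 205163983024656)) (C.cons (nat_lit 2178) (C.node (nat_lit 7) (nat_lit 9) (nat_lit 11) (C.cons (nat_lit 2688) (C.ref (nat_lit 285) (nat_lit 205163983024656)) C.nil)) C.nil))) C.nil))))) C.nil)))) (C.cons (nat_lit 3200) (C.node (nat_lit 1) (nat_lit 7) (nat_lit 11) (C.cons (nat_lit 2690) (C.ref (nat_lit 289) (nat_lit 205163983024656)) (C.cons (nat_lit 2186) (C.ref (nat_lit 289) (nat_lit 198128827013136)) (C.cons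 (nat_lit 2178) (C.node (nat_lit 3) (nat_lit 7) (nat_lit 11) (C.cons (nat_lit 2696) (C.node (nat_lit 2) (nat_lit 7) (nat_lit 10) (C.cons (nat_lit 1188) (C.node (nat_lit 2) (nat_lit 10) (nat_lit 11) (C.cons (nat_lit 3078) (C.miq (nat_lit 2435526791) (nat_lit 3721123405343063863252484489)) (C.cons (nat_lit 3076) (C.node (nat_lit 1) (nat_lit 2) (nat_lit 10) (C.cons (nat_lit 1542) (C.miq (nat_lit 3104994056) (nat_lit 1864208550873180527361720713)) (C.cons (nat_lit 1038) (C.miq (nat_lit 1913894921) (nat_lit 1254914733867681977174003457)) (C.cons (nat_lit 1030) (C.node (nat_lit 5) (nat_lit 7) (nat_lit 9) (C.cons (nat_lit 930) (C.miq (nat_lit 1114966921) (nat_lit 1436214222910238799838711553)) (C.cons (nat_lit 928) (C.miq (nat_lit 1114966921) (nat_lit 1436214222910238799838580481)) (C.cons (nat_lit 674) (C.miq (nat_lit 2174165051) (nat_lit 814860938762853785539184669)) (C.cons (nat_lit 672) (C.node (nat_lit 1) (nat_lit 5) (nat_lit 7) (C.cons (nat_lit 418) (C.miq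 (nat_lit 2541828896) (nat_lit 505340641004932544892176413)) (C.cons (nat_lit 170) (C.miq (nat_lit 557285531) (nat_lit 205562325677080681487273729)) (C.cons (nat_lit 162) (C.node (nat_lit 4) (nat_lit 8) (nat_lit 11) (C.cons (nat_lit 2354)
  (C.miq (nat_lit 2274734596) (nat_lit 812441575102256131244886045)) (C.cons (nat_lit 2352) (C.miq (nat_lit 2274734596) (nat_lit 812441538208767983825782813)) (C.cons (nat_lit 2322) (C.miq (nat_lit 998348576) (nat_lit 2807135401551186493532734085)) (C.cons (nat_lit 2320) (C.node (nat_lit 2) (nat_lit 4) (nat_lit 7) (C.cons (nat_lit 212) (C.node (nat_lit 1) (nat_lit 2) (nat_lit 7) (C.cons (nat_lit 142) (C.node (nat_lit 3) (nat_lit 4) (nat_lit 7) (C.cons (nat_lit 184) (C.miq (nat_lit 2722301557) (nat_lit 2510958573429676356627073249)) (C.cons (nat_lit 152) (C.node (nat_lit 3) (nat_lit 5) (nat_lit 7) (C.cons (nat_lit 168) (C.node (nat_lit 4) (nat_lit 5) (nat_lit 7) (C.cons (nat_lit 432) (C.miq (nat_lit 1477080162) (nat_lit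 4643505987993348864408355028)) (C.cons (nat_lit 176) (C.node (nat_lit 5) (nat_lit 7) (nat_lit 8) (C.cons (nat_lit 416) (C.node (nat_lit 4) (nat_lit 7) (nat_lit 8) (C.cons (nat_lit 912) (C.miq (nat_lit 412557491) (nat_lit 1102542967000244690109335581)) (C.cons (nat_lit 400) (C.node (nat_lit 4) (nat_lit 7) (nat_lit 9) C.nil) C.nil))) C.nil)) C.nil))) C.nil)) C.nil))) (C.cons (nat_lit 134) (C.miq (nat_lit 924949376) (nat_lit 162005708234377859275624193)) C.nil))) (C.cons (nat_lit 148) (C.node (nat_lit 3) (nat_lit 5) (nat_lit 7) (C.cons (nat_lit 184) (C.node (nat_lit 5) (nat_lit 7) (nat_lit 8) (C.cons (nat_lit 416) (C.node (nat_lit 4) (nat_lit 7) (nat_lit 8) (C.cons (nat_lit 912) (C.miq (nat_lit 427295666) (nat_lit 1102545199129456185155258397)) (C.cons (nat_lit 400) (C.node (nat_lit 1) (nat_lit 7) (nat_lit 8) (C.cons (nat_lit 962) (C.miq (nat_lit 1681359033) (nat_lit 222460096671756664709844737)) (C.cons (nat_lit 898) (C.node (nat_lit 4) (nat_lit 8) (nat_lit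 9) (C.cons (nat_lit 792) (C.miq (nat_lit 1731464088) (nat_lit 222448568001648809611890433)) (C.cons (nat_lit 788) (C.miq (nat_lit 1461980041) (nat_lit 178931370566193553570270977)) (C.cons (nat_lit 784) (C.node (nat_lit 3) (nat_lit 4) (nat_lit 8) (C.cons (nat_lit 1304) (C.miq (nat_lit 1537503363) (nat_lit 3733166325810693573168333193)) (C.cons (nat_lit 282) (C.miq (nat_lit 3088282121) (nat_lit 340966814239022321096131205)) (C.cons (nat_lit 280) (C.node (nat_lit 3) (nat_lit 5) (nat_lit 11) (C.cons (nat_lit 2346) (C.miq (nat_lit 2821983063) (nat_lit 338520831710561944353638625)) (C.cons (nat_lit 2344) (C.miq (nat_lit 2821983063) (nat_lit 338520831710561935763704033)) (C.cons (nat_lit 2090) (C.miq (nat_lit 2168135831) (nat_lit 2526699899337168696923128453)) (C.cons (nat_lit 2088) (C.node (nat_lit 5) (nat_lit 8) (nat_lit 11) (C.cons (nat_lit 2338) (C.miq (nat_lit 998348576) (nat_lit 2826478214665020560328032901)) (C.cons (nat_lit 2336) (C.node (nat_lit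 4) (nat_lit 9) (nat_lit 11) (C.cons (nat_lit 2642) (C.miq (nat_lit 873925528) (nat_lit 1415659384923786605425200897)) (C.cons (nat_lit 2640) (C.miq (nat_lit 961051488) (nat_lit 947805092907158116771104993)) (C.cons (nat_lit 2578) (C.miq (nat_lit 873925528) (nat_lit 1415659384923786330547293953)) (C.cons (nat_lit 2576) (C.node (nat_lit 2) (nat_lit 3) (nat_lit 5) (C.cons (nat_lit 876) (C.miq (nat_lit 2754742102) (nat_lit 2510959089960465348464216289)) (C.cons (nat_lit 812) (C.miq (nat_lit 391644210) (nat_lit 502917992782985110345222173)) (C.cons (nat_lit 620) (C.miq (nat_lit 2754742102) (nat_lit 2510959089960465348447439073)) (C.cons (nat_lit 556) (C.miq (nat_lit 324667687) (nat_lit 1287527599174104185846366853)) (C.cons (nat_lit 364) (C.miq (nat_lit 2754742102) (nat_lit 2510959089960465348430661857)) (C.cons (nat_lit 300) (C.miq (nat_lit 391644210) (nat_lit 502917992782985110311667741)) (C.cons (nat_lit 110) (C.miq (nat_lit 1898158091) (nat_lit 133031572832397588967526145))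 (C.cons (nat_lit 108) (C.miq (nat_lit 2754742102) (nat_lit 2510959089960465348413884641)) (C.cons (nat_lit 46) (C.miq (nat_lit 1898158091) (nat_lit 55660320377061321786330881)) (C.cons (nat_lit 44) (C.node (nat_lit 1) (nat_lit 3) (nat_lit 4) (C.cons (nat_lit 90) (C.node (nat_lit 4) (nat_lit 6) (nat_lit 11) (C.cons (nat_lit 2128)
  (C.node (nat_lit 1) (nat_lit 2) (nat_lit 3) (C.cons (nat_lit 142) (C.node (nat_lit 1) (nat_lit 6) (nat_lit 7) (C.cons (nat_lit 194) (C.node (nat_lit 2) (nat_lit 6) (nat_lit 7) (C.cons (nat_lit 196) (C.node (nat_lit 1) (nat_lit 4) (nat_lit 11) C.nil) C.nil)) C.nil)) (C.cons (nat_lit 14) (C.miq (nat_lit 1898158091) (nat_lit 16974694149393188195733249)) C.nil))) C.nil)) (C.cons (nat_lit 26) (C.node (nat_lit 1) (nat_lit 4) (nat_lit 8) (C.cons (nat_lit 306) (C.node (nat_lit 4) (nat_lit 5) (nat_lit 11) (C.cons (nat_lit 2096) (C.node (nat_lit 1) (nat_lit 4) (nat_lit 11) C.nil) C.nil)) (C.cons (nat_lit 274) (C.node (nat_lit 3) (nat_lit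 7) (nat_lit 10) (C.cons (nat_lit 1224) (C.node (nat_lit 6) (nat_lit 7) (nat_lit 8) (C.cons (nat_lit 448) (C.node (nat_lit 7) (nat_lit 8) (nat_lit 10) C.nil) C.nil)) (C.cons (nat_lit 1160) (C.node (nat_lit 4) (nat_lit 5) (nat_lit 11) (C.cons (nat_lit 2098) (C.node (nat_lit 5) (nat_lit 10) (nat_lit 11) C.nil) (C.cons (nat_lit 2096) (C.node (nat_lit 1) (nat_lit 4) (nat_lit 11) (C.cons (nat_lit 2130) (C.node (nat_lit 1) (nat_lit 4) (nat_lit 5) C.nil) C.nil)) C.nil))) C.nil))) C.nil))) C.nil))) C.nil))))))))))) C.nil))))) C.nil))) C.nil))))) C.nil)))) C.nil)))) (C.cons (nat_lit 450) (C.miq (nat_lit 2541828896) (nat_lit 544026267232600678482774045)) (C.cons (nat_lit 386) (C.miq (nat_lit 2541828896) (nat_lit 466655014777264411301578781)) C.nil))))) C.nil))) C.nil)) (C.cons (nat_lit 168) (C.node (nat_lit 3) (nat_lit 4) (nat_lit 7) (C.cons (nat_lit 216) (C.node (nat_lit 3) (nat_lit 7) (nat_lit 10) (C.cons (nat_lit 1160) (C.node (nat_lit 1) (nat_lit 3) (nat_lit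 7) (C.cons (nat_lit 142) (C.node (nat_lit 2) (nat_lit 6) (nat_lit 7) (C.cons (nat_lit 196) (C.node (nat_lit 4) (nat_lit 7) (nat_lit 9) (C.cons (nat_lit 912) (C.miq (nat_lit 881423883) (nat_lit 1102590079971364570908395745)) (C.cons (nat_lit 656) (C.node (nat_lit 7) (nat_lit 8) (nat_lit 10) (C.cons (nat_lit 1472) (C.miq (nat_lit 409411651) (nat_lit 1779541425984421978216859677)) C.nil)) C.nil))) C.nil)) (C.cons (nat_lit 138) (C.miq (nat_lit 557285531) (nat_lit 166876699449412547896676097)) C.nil))) C.nil)) (C.cons (nat_lit 152) (C.node (nat_lit 1) (nat_lit 7) (nat_lit 8) (C.cons (nat_lit 962) (C.miq (nat_lit 1681359033) (nat_lit 183774470444088531119247105)) (C.cons (nat_lit 898) (C.node (nat_lit 4) (nat_lit 8) (nat_lit 9) (C.cons (nat_lit 792) (C.miq (nat_lit 1731464088) (nat_lit 183762941773980676021292801)) (C.cons (nat_lit 788) (C.miq (nat_lit 1461980041) (nat_lit 178931370566193553570270977)) (C.cons (nat_lit 784) (C.node (nat_lit 4) (nat_lit 9)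 (nat_lit 11) (C.cons (nat_lit 2642) (C.miq (nat_lit 873925528) (nat_lit 1415659384923786605425200897)) (C.cons (nat_lit 2640) (C.miq (nat_lit 961051488) (nat_lit 947805092907158116771104993)) (C.cons (nat_lit 2578) (C.miq (nat_lit 873925528) (nat_lit 1415659384923786330547293953)) (C.cons (nat_lit 2576) (C.node (nat_lit 3) (nat_lit 7) (nat_lit 10) (C.cons (nat_lit 1224) (C.node (nat_lit 6) (nat_lit 7) (nat_lit 8) (C.cons (nat_lit 448) (C.node (nat_lit 7) (nat_lit 8) (nat_lit 10) (C.cons (nat_lit 1408) (C.node (nat_lit 7) (nat_lit 9) (nat_lit 10) C.nil) C.nil)) C.nil)) (C.cons (nat_lit 1160) (C.node (nat_lit 4) (nat_lit 5) (nat_lit 7) (C.cons (nat_lit 432) (C.node (nat_lit 1) (nat_lit 4) (nat_lit 8) (C.cons (nat_lit 282) (C.miq (nat_lit 3088282121) (nat_lit 340966814239022321096131205)) (C.cons (nat_lit 274) (C.node (nat_lit 4) (nat_lit 5) (nat_lit 10) (C.cons (nat_lit 1136) (C.miq (nat_lit 41445972) (nat_lit 2944949513441646761697346672)) (C.cons (nat_lit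 1072) (C.node (nat_lit 6) (nat_lit 7) (nat_lit 8) (C.cons (nat_lit 1472) (C.miq (nat_lit 624994182) (nat_lit 678227547429473659330299328)) (C.cons (nat_lit 448) (C.node (nat_lit 7) (nat_lit 8) (nat_lit 10) C.nil) C.nil))) C.nil))) C.nil))) (C.cons (nat_lit 176) (C.node (nat_lit 4) (nat_lit 7) (nat_lit 8) C.nil) C.nil))) C.nil))) C.nil))))) C.nil)))) (C.cons (nat_lit 450) (C.miq (nat_lit 2541828896) (nat_lit 544026267232600678482774045))
  (C.cons (nat_lit 386) (C.miq (nat_lit 2541828896) (nat_lit 466655014777264411301578781)) C.nil))))) C.nil))) C.nil))) C.nil))) C.nil))))) C.nil)))) C.nil))))) C.nil)))) C.nil))) (C.cons (nat_lit 1164) (C.miq (nat_lit 326240696) (nat_lit 1407194505672342737181216513)) (C.cons (nat_lit 1156) (C.node (nat_lit 3) (nat_lit 7) (nat_lit 10) (C.cons (nat_lit 1224) (C.node (nat_lit 3) (nat_lit 10) (nat_lit 11) (C.cons (nat_lit 3082) (C.miq (nat_lit 2168135831) (nat_lit 3725954312394880838231655045)) (C.cons (nat_lit 3080) (C.node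 (nat_lit 1) (nat_lit 3) (nat_lit 10) (C.cons (nat_lit 1290) (C.miq (nat_lit 3088282121) (nat_lit 1559564040410568529199956613)) (C.cons (nat_lit 1038) (C.miq (nat_lit 1913894921) (nat_lit 1254914733867681977174003457)) (C.cons (nat_lit 1034) (C.node (nat_lit 6) (nat_lit 7) (nat_lit 8) (C.cons (nat_lit 962) (C.miq (nat_lit 1131809688) (nat_lit 1479731420345694055882166017)) (C.cons (nat_lit 960) (C.miq (nat_lit 1131809688) (nat_lit 1479731420345694055882034945)) (C.cons (nat_lit 450) (C.miq (nat_lit 2541828896) (nat_lit 544026267232600678482774045)) (C.cons (nat_lit 448) (C.node (nat_lit 1) (nat_lit 6) (nat_lit 7) (C.cons (nat_lit 706) (C.miq (nat_lit 2174165051) (nat_lit 853546564990521919129782301)) (C.cons (nat_lit 198) (C.miq (nat_lit 924949376) (nat_lit 239376960689714126456819457)) (C.cons (nat_lit 194) (C.node (nat_lit 4) (nat_lit 9) (nat_lit 11) (C.cons (nat_lit 2642) (C.miq (nat_lit 2542187268) (nat_lit 541647504244054836059899933)) (C.cons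 (nat_lit 2640) (C.miq (nat_lit 2542187268) (nat_lit 541647467350566688640796701)) (C.cons (nat_lit 2578) (C.miq (nat_lit 730957616) (nat_lit 3116615615145890020537860489)) (C.cons (nat_lit 2576) (C.node (nat_lit 2) (nat_lit 6) (nat_lit 7) (C.cons (nat_lit 212) (C.node (nat_lit 6) (nat_lit 7) (nat_lit 9) (C.cons (nat_lit 704) (C.node (nat_lit 3) (nat_lit 4) (nat_lit 7) (C.cons (nat_lit 184) (C.miq (nat_lit 2722301557) (nat_lit 2510958573429676356627073249)) (C.cons (nat_lit 152) (C.node (nat_lit 4) (nat_lit 7) (nat_lit 9) (C.cons (nat_lit 912) (C.miq (nat_lit 427295666) (nat_lit 1102545199129456185155258397)) (C.cons (nat_lit 656) (C.node (nat_lit 1) (nat_lit 7) (nat_lit 8) (C.cons (nat_lit 930) (C.miq (nat_lit 1411879096) (nat_lit 256309429388206317662113537)) (C.cons (nat_lit 898) (C.node (nat_lit 4) (nat_lit 8) (nat_lit 9) (C.cons (nat_lit 792) (C.miq (nat_lit 1731464088) (nat_lit 183762941773980676021292801)) (C.cons (nat_lit 788) (C.miq (nat_lit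 1461980041) (nat_lit 256302623021529820751466241)) (C.cons (nat_lit 784) (C.node (nat_lit 2) (nat_lit 4) (nat_lit 9) (C.cons (nat_lit 1556) (C.miq (nat_lit 1805938834) (nat_lit 3733166842319527637052293765)) (C.cons (nat_lit 534) (C.miq (nat_lit 3104994056) (nat_lit 645611324701634319257895305)) (C.cons (nat_lit 532) (C.node (nat_lit 2) (nat_lit 6) (nat_lit 11) (C.cons (nat_lit 2630) (C.miq (nat_lit 2837711719) (nat_lit 643170138253449716152142049)) (C.cons (nat_lit 2628) (C.miq (nat_lit 2837711719) (nat_lit 643170138253449707562207457)) (C.cons (nat_lit 2118) (C.miq (nat_lit 2435526791) (nat_lit 2560554618513019855534555529)) (C.cons (nat_lit 2116) (C.node (nat_lit 6) (nat_lit 9) (nat_lit 11) (C.cons (nat_lit 2626) (C.miq (nat_lit 730957616) (nat_lit 3174644054487392220923756937)) (C.cons (nat_lit 2624) (C.node (nat_lit 4) (nat_lit 8) (nat_lit 11) (C.cons (nat_lit 2354) (C.miq (nat_lit 605490057) (nat_lit 1415664033503291943281626881)) (C.cons (nat_lit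 2352) (C.miq (nat_lit 675904336) (nat_lit 947809741413479960697440481)) (C.cons (nat_lit 2322) (C.miq (nat_lit 605490057) (nat_lit 1415664033503291805842673409)) (C.cons (nat_lit 2320) (C.node (nat_lit 2) (nat_lit 3) (nat_lit 6) (C.cons (nat_lit 876) (C.miq (nat_lit 2753759077) (nat_lit 2510958573451631404855855329)) (C.cons (nat_lit 844) (C.miq (nat_lit 392758307) (nat_lit 851093424985457597405202461)) (C.cons (nat_lit 620) (C.miq (nat_lit 2753759077) (nat_lit 2510958573451631404839078113)) (C.cons (nat_lit 588)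
  (C.miq (nat_lit 392758307) (nat_lit 851093424985457597388425245)) (C.cons (nat_lit 364) (C.miq (nat_lit 2753759077) (nat_lit 2510958573451631404822300897)) (C.cons (nat_lit 332) (C.miq (nat_lit 308938807) (nat_lit 1321377522050129346723053961)) (C.cons (nat_lit 110) (C.miq (nat_lit 1898158091) (nat_lit 133031572832397588967526145)) (C.cons (nat_lit 108) (C.miq (nat_lit 2753759077) (nat_lit 2510958573451631404805523681)) (C.cons (nat_lit 78) (C.miq (nat_lit 1898158091) (nat_lit 94345946604729455376928513)) (C.cons (nat_lit 76) (C.node (nat_lit 1) (nat_lit 2) (nat_lit 4) (C.cons (nat_lit 54) (C.node (nat_lit 4) (nat_lit 5) (nat_lit 11) (C.cons (nat_lit 2096) (C.node (nat_lit 1) (nat_lit 2) (nat_lit 3) (C.cons (nat_lit 142) (C.node (nat_lit 1) (nat_lit 5) (nat_lit 7) (C.cons (nat_lit 162) (C.node (nat_lit 2) (nat_lit 5) (nat_lit 7) C.nil) C.nil)) (C.cons (nat_lit 14) (C.miq (nat_lit 1898158091) (nat_lit 16974694149393188195733249)) C.nil))) C.nil)) (C.cons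 (nat_lit 22) (C.node (nat_lit 1) (nat_lit 4) (nat_lit 9) (C.cons (nat_lit 594) (C.node (nat_lit 4) (nat_lit 6) (nat_lit 11) (C.cons (nat_lit 2128) (C.node (nat_lit 1) (nat_lit 4) (nat_lit 11) C.nil) C.nil)) (C.cons (nat_lit 530) (C.node (nat_lit 4) (nat_lit 6) (nat_lit 11) (C.cons (nat_lit 2130) (C.node (nat_lit 6) (nat_lit 10) (nat_lit 11) C.nil) (C.cons (nat_lit 2128) (C.node (nat_lit 1) (nat_lit 4) (nat_lit 11) (C.cons (nat_lit 2098) (C.node (nat_lit 1) (nat_lit 4) (nat_lit 6) C.nil) C.nil)) C.nil))) C.nil))) C.nil))) C.nil))))))))))) C.nil))))) C.nil))) C.nil))))) C.nil)))) C.nil)))) (C.cons (nat_lit 418) (C.miq (nat_lit 2541828896) (nat_lit 505340641004932544892176413)) (C.cons (nat_lit 386) (C.miq (nat_lit 2541828896) (nat_lit 466655014777264411301578781)) C.nil))))) C.nil))) C.nil))) C.nil)) (C.cons (nat_lit 196) (C.node (nat_lit 2) (nat_lit 4) (nat_lit 7) (C.cons (nat_lit 180) (C.node (nat_lit 3) (nat_lit 4) (nat_lit 7) (C.cons (nat_lit 152)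 (C.node (nat_lit 1) (nat_lit 2) (nat_lit 7) (C.cons (nat_lit 142) (C.node (nat_lit 3) (nat_lit 5) (nat_lit 7) (C.cons (nat_lit 168) (C.node (nat_lit 4) (nat_lit 7) (nat_lit 8) (C.cons (nat_lit 912) (C.miq (nat_lit 613971211) (nat_lit 1102585283807773269336066273)) (C.cons (nat_lit 400) (C.node (nat_lit 7) (nat_lit 9) (nat_lit 10) (C.cons (nat_lit 1696) (C.miq (nat_lit 425144386) (nat_lit 2050340809651283369366128669)) C.nil)) C.nil))) C.nil)) (C.cons (nat_lit 134) (C.miq (nat_lit 824676491) (nat_lit 162045792397595572917505793)) C.nil))) C.nil)) (C.cons (nat_lit 148) (C.node (nat_lit 1) (nat_lit 7) (nat_lit 8) (C.cons (nat_lit 930) (C.miq (nat_lit 1411879096) (nat_lit 178938176932870050480918273)) (C.cons (nat_lit 898) (C.node (nat_lit 4) (nat_lit 8) (nat_lit 9) (C.cons (nat_lit 792) (C.miq (nat_lit 1181974713) (nat_lit 1479739813124479317594083073)) (C.cons (nat_lit 788) (C.miq (nat_lit 1461980041) (nat_lit 178931370566193553570270977)) (C.cons (nat_lit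 784) (C.node (nat_lit 4) (nat_lit 8) (nat_lit 11) (C.cons (nat_lit 2354) (C.miq (nat_lit 605490057) (nat_lit 1415664033503291943281626881)) (C.cons (nat_lit 2352) (C.miq (nat_lit 675904336) (nat_lit 947809741413479960697440481)) (C.cons (nat_lit 2322) (C.miq (nat_lit 605490057) (nat_lit 1415664033503291805842673409)) (C.cons (nat_lit 2320) (C.node (nat_lit 3) (nat_lit 4) (nat_lit 7) (C.cons (nat_lit 184) (C.node (nat_lit 4) (nat_lit 7) (nat_lit 8) (C.cons (nat_lit 400) (C.node (nat_lit 1) (nat_lit 3) (nat_lit 7) (C.cons (nat_lit 142) (C.node (nat_lit 1) (nat_lit 5) (nat_lit 7) (C.cons (nat_lit 162) (C.node (nat_lit 2) (nat_lit 5) (nat_lit 7) C.nil) C.nil)) (C.cons (nat_lit 138) (C.miq (nat_lit 594611096) (nat_lit 166836615185145317640244993)) C.nil))) C.nil)) (C.cons (nat_lit 152) (C.node (nat_lit 4) (nat_lit 6) (nat_lit 7) (C.cons (nat_lit 720) (C.node (nat_lit 1) (nat_lit 4) (nat_lit 9) (C.cons (nat_lit 534) (C.miq (nat_lit 3104994056) (nat_lit 645611324701634319257895305))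 (C.cons (nat_lit 530) (C.node (nat_lit 4) (nat_lit 6) (nat_lit 10) (C.cons (nat_lit 1136)
  (C.miq (nat_lit 58284644) (nat_lit 3259274358604241713350313072)) (C.cons (nat_lit 1104) (C.node (nat_lit 5) (nat_lit 7) (nat_lit 9) (C.cons (nat_lit 1696) (C.miq (nat_lit 910206869) (nat_lit 407427647337096996455515808)) (C.cons (nat_lit 672) (C.node (nat_lit 7) (nat_lit 9) (nat_lit 10) C.nil) C.nil))) C.nil))) C.nil))) (C.cons (nat_lit 208) (C.node (nat_lit 4) (nat_lit 7) (nat_lit 9) C.nil) C.nil))) C.nil))) C.nil))))) C.nil)))) (C.cons (nat_lit 418) (C.miq (nat_lit 2541828896) (nat_lit 505340641004932544892176413)) (C.cons (nat_lit 386) (C.miq (nat_lit 2541828896) (nat_lit 466655014777264411301578781)) C.nil))))) C.nil))) C.nil))) C.nil))))) C.nil)))) C.nil))))) C.nil)))) C.nil))) (C.cons (nat_lit 1160) (C.node (nat_lit 4) (nat_lit 7) (nat_lit 8) (C.cons (nat_lit 912) (C.miq (nat_lit 427295666) (nat_lit 1102545199129456185155258397)) (C.cons (nat_lit 432)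 (C.node (nat_lit 4) (nat_lit 8) (nat_lit 11) (C.cons (nat_lit 2322) (C.miq (nat_lit 998348576) (nat_lit 2807135401551186493532734085)) (C.cons (nat_lit 2320) (C.node (nat_lit 1) (nat_lit 4) (nat_lit 8) (C.cons (nat_lit 786) (C.miq (nat_lit 2014949891) (nat_lit 950265427324795425148045341)) (C.cons (nat_lit 282) (C.miq (nat_lit 3088282121) (nat_lit 340966814239022321096131205)) (C.cons (nat_lit 274) (C.node (nat_lit 2) (nat_lit 5) (nat_lit 7) (C.cons (nat_lit 174) (C.miq (nat_lit 2826242851) (nat_lit 522275600937114152242907165)) (C.cons (nat_lit 172) (C.miq (nat_lit 326240696) (nat_lit 207940092614630595872689921)) (C.cons (nat_lit 166) (C.miq (nat_lit 924949376) (nat_lit 200691334462045992866221825)) (C.cons (nat_lit 164) (C.node (nat_lit 3) (nat_lit 5) (nat_lit 7) (C.cons (nat_lit 170) (C.miq (nat_lit 557285531) (nat_lit 205562325677080681487273729)) (C.cons (nat_lit 168) (C.node (nat_lit 1) (nat_lit 5) (nat_lit 7) (C.cons (nat_lit 674) (C.miq (nat_lit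 2174165051) (nat_lit 814860938762853785539184669)) (C.cons (nat_lit 162) (C.node (nat_lit 2) (nat_lit 10) (nat_lit 11) (C.cons (nat_lit 3110) (C.miq (nat_lit 891751096) (nat_lit 198271084287004360210386689)) (C.cons (nat_lit 3108) (C.miq (nat_lit 891751096) (nat_lit 198271084287004351620452097)) (C.cons (nat_lit 3078) (C.miq (nat_lit 2435526791) (nat_lit 3721123405343063863252484489)) (C.cons (nat_lit 3076) (C.node (nat_lit 2) (nat_lit 4) (nat_lit 7) (C.cons (nat_lit 212) (C.node (nat_lit 3) (nat_lit 4) (nat_lit 7) (C.cons (nat_lit 152) (C.node (nat_lit 4) (nat_lit 7) (nat_lit 9) (C.cons (nat_lit 656) (C.node (nat_lit 3) (nat_lit 6) (nat_lit 7) (C.cons (nat_lit 202) (C.miq (nat_lit 557285531) (nat_lit 244247951904748815077871361)) C.nil)) C.nil)) C.nil)) (C.cons (nat_lit 148) (C.node (nat_lit 3) (nat_lit 4) (nat_lit 7) (C.cons (nat_lit 216) (C.node (nat_lit 4) (nat_lit 7) (nat_lit 9) (C.cons (nat_lit 656) (C.node (nat_lit 2) (nat_lit 6) (nat_lit 7)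 (C.cons (nat_lit 198) (C.miq (nat_lit 924949376) (nat_lit 239376960689714126456819457)) C.nil)) C.nil)) (C.cons (nat_lit 152) (C.node (nat_lit 4) (nat_lit 8) (nat_lit 9) (C.cons (nat_lit 792) (C.miq (nat_lit 1731464088) (nat_lit 183762941773980676021292801)) (C.cons (nat_lit 788) (C.miq (nat_lit 1461980041) (nat_lit 178931370566193553570270977)) (C.cons (nat_lit 784) (C.node (nat_lit 1) (nat_lit 7) (nat_lit 8) (C.cons (nat_lit 962) (C.miq (nat_lit 1681359033) (nat_lit 183774470444088531119247105)) (C.cons (nat_lit 898) (C.node (nat_lit 4) (nat_lit 6) (nat_lit 7) (C.cons (nat_lit 720) (C.node (nat_lit 1) (nat_lit 6) (nat_lit 7) (C.cons (nat_lit 206) (C.miq (nat_lit 2843085618) (nat_lit 870446753494962535119325213)) (C.cons (nat_lit 202) (C.miq (nat_lit 594611096) (nat_lit 244207867640481584821440257)) (C.cons (nat_lit 198) (C.miq (nat_lit 923974016) (nat_lit 239405626929998065440329473)) C.nil)))) C.nil)) (C.cons (nat_lit 450) (C.miq (nat_lit 2541828896)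 (nat_lit 544026267232600678482774045)) (C.cons (nat_lit 386) (C.miq (nat_lit 2541828896) (nat_lit 466655014777264411301578781)) C.nil))))) C.nil)))) C.nil))) C.nil))) C.nil))))) C.nil))) C.nil))) C.nil))))) C.nil)))) C.nil)))
  (C.cons (nat_lit 400) (C.node (nat_lit 4) (nat_lit 7) (nat_lit 9) (C.cons (nat_lit 720) (C.node (nat_lit 4) (nat_lit 9) (nat_lit 11) (C.cons (nat_lit 2578) (C.miq (nat_lit 730957616) (nat_lit 3116615615145890020537860489)) (C.cons (nat_lit 2576) (C.node (nat_lit 1) (nat_lit 4) (nat_lit 9) (C.cons (nat_lit 786) (C.miq (nat_lit 2014949891) (nat_lit 950265427324795425148045341)) (C.cons (nat_lit 534) (C.miq (nat_lit 3104994056) (nat_lit 645611324701634319257895305)) (C.cons (nat_lit 530) (C.node (nat_lit 2) (nat_lit 6) (nat_lit 7) (C.cons (nat_lit 206) (C.miq (nat_lit 2843085618) (nat_lit 870446753494962535119325213)) (C.cons (nat_lit 204) (C.miq (nat_lit 326240696) (nat_lit 246625718842298729463287553)) (C.cons (nat_lit 198) (C.miq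 (nat_lit 924949376) (nat_lit 239376960689714126456819457)) (C.cons (nat_lit 196) (C.node (nat_lit 3) (nat_lit 6) (nat_lit 7) (C.cons (nat_lit 202) (C.miq (nat_lit 557285531) (nat_lit 244247951904748815077871361)) (C.cons (nat_lit 200) (C.node (nat_lit 1) (nat_lit 6) (nat_lit 7) (C.cons (nat_lit 450) (C.miq (nat_lit 2541828896) (nat_lit 544026267232600678482774045)) (C.cons (nat_lit 194) (C.node (nat_lit 3) (nat_lit 10) (nat_lit 11) (C.cons (nat_lit 3146) (C.miq (nat_lit 641141433) (nat_lit 241797062380519039290576641)) (C.cons (nat_lit 3144) (C.miq (nat_lit 641141433) (nat_lit 241797062380519030700642049)) (C.cons (nat_lit 3082) (C.miq (nat_lit 2168135831) (nat_lit 3725954312394880838231655045)) (C.cons (nat_lit 3080) (C.node (nat_lit 2) (nat_lit 4) (nat_lit 7) (C.cons (nat_lit 180) (C.node (nat_lit 3) (nat_lit 4) (nat_lit 7) (C.cons (nat_lit 152) (C.node (nat_lit 3) (nat_lit 5) (nat_lit 7) (C.cons (nat_lit 170) (C.miq (nat_lit 657558416) (nat_lit 205522241513862967845392129))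 C.nil)) C.nil)) (C.cons (nat_lit 148) (C.node (nat_lit 4) (nat_lit 8) (nat_lit 9) (C.cons (nat_lit 792) (C.miq (nat_lit 1181974713) (nat_lit 241799773839099042694958849)) (C.cons (nat_lit 788) (C.miq (nat_lit 1461980041) (nat_lit 178931370566193553570270977)) (C.cons (nat_lit 784) (C.node (nat_lit 1) (nat_lit 7) (nat_lit 8) (C.cons (nat_lit 930) (C.miq (nat_lit 1411879096) (nat_lit 178938176932870050480918273)) (C.cons (nat_lit 898) (C.node (nat_lit 3) (nat_lit 4) (nat_lit 7) (C.cons (nat_lit 184) (C.node (nat_lit 1) (nat_lit 5) (nat_lit 7) (C.cons (nat_lit 166) (C.miq (nat_lit 923974016) (nat_lit 200720000702329931849731841)) C.nil)) C.nil)) (C.cons (nat_lit 418) (C.miq (nat_lit 2541828896) (nat_lit 505340641004932544892176413)) (C.cons (nat_lit 386) (C.miq (nat_lit 2541828896) (nat_lit 466655014777264411301578781)) C.nil))))) C.nil)))) C.nil))) C.nil))))) C.nil))) C.nil))) C.nil))))) C.nil)))) C.nil))) (C.cons (nat_lit 656) (C.node (nat_lit 2) (nat_lit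 6) (nat_lit 11) (C.cons (nat_lit 2630) (C.node (nat_lit 4) (nat_lit 6) (nat_lit 11) (C.cons (nat_lit 2128) (C.node (nat_lit 4) (nat_lit 9) (nat_lit 11) (C.cons (nat_lit 2576) (C.node (nat_lit 5) (nat_lit 9) (nat_lit 11) (C.cons (nat_lit 2592) (C.node (nat_lit 1) (nat_lit 4) (nat_lit 9) (C.cons (nat_lit 786) (C.miq (nat_lit 2014949891) (nat_lit 950265427324795425148045341)) (C.cons (nat_lit 530) (C.node (nat_lit 6) (nat_lit 8) (nat_lit 11) (C.cons (nat_lit 2376) (C.miq (nat_lit 330828146) (nat_lit 2872412599045273296925098629)) (C.cons (nat_lit 2368) (C.node (nat_lit 3) (nat_lit 6) (nat_lit 11) (C.cons (nat_lit 3144) (C.miq (nat_lit 1939905378) (nat_lit 1287517896798377654383610438)) (C.cons (nat_lit 2120) (C.node (nat_lit 6) (nat_lit 10) (nat_lit 11) (C.cons (nat_lit 3136) (C.node (nat_lit 3) (nat_lit 10) (nat_lit 11) (C.cons (nat_lit 3082) (C.miq (nat_lit 2168135831) (nat_lit 3725954312394880838231655045)) (C.cons (nat_lit 3080) (C.node (nat_lit 1)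 (nat_lit 6) (nat_lit 7) (C.cons (nat_lit 450) (C.miq (nat_lit 840436583) (nat_lit 317954740713703263223023841)) (C.cons (nat_lit 202) (C.miq (nat_lit 557285531) (nat_lit 244247951904748815077871361)) (C.cons (nat_lit 194) (C.node (nat_lit 2) (nat_lit 6) (nat_lit 7) (C.cons (nat_lit 212)
  (C.miq (nat_lit 2875459879) (nat_lit 2572615746358397878983197317)) (C.cons (nat_lit 204) (C.miq (nat_lit 326240696) (nat_lit 246625718842298729463287553)) (C.cons (nat_lit 196) (C.node (nat_lit 6) (nat_lit 7) (nat_lit 9) (C.cons (nat_lit 1728) (C.miq (nat_lit 929216928) (nat_lit 236987775290772371968167681)) (C.cons (nat_lit 960) (C.miq (nat_lit 845613976) (nat_lit 236956710799523108551134977)) (C.cons (nat_lit 704) (C.node (nat_lit 3) (nat_lit 6) (nat_lit 7) (C.cons (nat_lit 216) (C.miq (nat_lit 2306214708) (nat_lit 851089994642608743903660061)) (C.cons (nat_lit 200) (C.node (nat_lit 4) (nat_lit 6) (nat_lit 7) C.nil) C.nil))) C.nil)))) C.nil)))) C.nil)))) C.nil)))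 C.nil)) C.nil))) C.nil))) C.nil))) C.nil)) C.nil)) C.nil)) (C.cons (nat_lit 2628) (C.miq (nat_lit 314116211) (nat_lit 3177066701668434402815246729)) (C.cons (nat_lit 2118) (C.miq (nat_lit 2435526791) (nat_lit 2560554618513019855534555529)) (C.cons (nat_lit 2116) (C.node (nat_lit 2) (nat_lit 9) (nat_lit 11) (C.cons (nat_lit 2598) (C.node (nat_lit 2) (nat_lit 10) (nat_lit 11) (C.cons (nat_lit 3076) (C.node (nat_lit 5) (nat_lit 10) (nat_lit 11) (C.cons (nat_lit 3104) (C.node (nat_lit 1) (nat_lit 10) (nat_lit 2) (C.cons (nat_lit 1038) (C.miq (nat_lit 1930606856) (nat_lit 1254909937787407423309811457)) (C.cons (nat_lit 1030) (C.node (nat_lit 5) (nat_lit 3) (nat_lit 11) (C.cons (nat_lit 2344) (C.miq (nat_lit 414384761) (nat_lit 2833731768897879717198692997)) (C.cons (nat_lit 2088) (C.node (nat_lit 8) (nat_lit 5) (nat_lit 11) (C.cons (nat_lit 2352) (C.miq (nat_lit 2017471321) (nat_lit 407419900045740719603780134)) (C.cons (nat_lit 2336) (C.node (nat_lit 5)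 (nat_lit 4) (nat_lit 11) (C.cons (nat_lit 2096) (C.node (nat_lit 8) (nat_lit 4) (nat_lit 11) (C.cons (nat_lit 2322) (C.miq (nat_lit 831229991) (nat_lit 2807175485714404207174615685)) (C.cons (nat_lit 2320) (C.node (nat_lit 1) (nat_lit 5) (nat_lit 7) (C.cons (nat_lit 170) (C.miq (nat_lit 2299726679) (nat_lit 632275454310028570106923233)) (C.cons (nat_lit 418) (C.miq (nat_lit 2441556011) (nat_lit 505380725168150258534058013)) (C.cons (nat_lit 162) (C.node (nat_lit 9) (nat_lit 5) (nat_lit 7) (C.cons (nat_lit 1696) (C.miq (nat_lit 1264190103) (nat_lit 3752527345805753957237129861)) (C.cons (nat_lit 928) (C.miq (nat_lit 410583731) (nat_lit 1121892808323564805814749213)) (C.cons (nat_lit 672) (C.node (nat_lit 5) (nat_lit 7) (nat_lit 2) (C.cons (nat_lit 180) (C.miq (nat_lit 2270802496) (nat_lit 812469005410691740188346397)) (C.cons (nat_lit 172) (C.miq (nat_lit 2304183075) (nat_lit 812405401432608317138274333)) (C.cons (nat_lit 164) (C.node (nat_lit 8) (nat_lit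 5) (nat_lit 7) (C.cons (nat_lit 1440) (C.miq (nat_lit 846531466) (nat_lit 198283480783871674587025153)) (C.cons (nat_lit 416) (C.node (nat_lit 10) (nat_lit 5) (nat_lit 7) C.nil) C.nil))) C.nil)))) C.nil)))) C.nil)))) C.nil))) C.nil)) C.nil))) C.nil))) C.nil))) C.nil)) C.nil)) (C.cons (nat_lit 2596) (C.miq (nat_lit 314116211) (nat_lit 3138381075440766269224649097)) (C.cons (nat_lit 2566) (C.node (nat_lit 5) (nat_lit 9) (nat_lit 11) (C.cons (nat_lit 2592) (C.node (nat_lit 2) (nat_lit 5) (nat_lit 11) (C.cons (nat_lit 3108) (C.node (nat_lit 1) (nat_lit 2) (nat_lit 10) (C.cons (nat_lit 1038) (C.miq (nat_lit 1913894921) (nat_lit 1254914733867681977174003457)) (C.cons (nat_lit 1030) (C.node (nat_lit 2) (nat_lit 3) (nat_lit 10) (C.cons (nat_lit 1548) (C.miq (nat_lit 2191752016) (nat_lit 1871424419019553322394257633)) (C.cons (nat_lit 1292) (C.node (nat_lit 4) (nat_lit 8) (nat_lit 10) (C.cons (nat_lit 1328) (C.miq (nat_lit 2024124976) (nat_lit 1605495418583185678255327261))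 (C.cons (nat_lit 1296) (C.node (nat_lit 5) (nat_lit 7) (nat_lit 10) (C.cons (nat_lit 1696) (C.miq (nat_lit 2320966411) (nat_lit 2050383126698644880968714269)) (C.cons (nat_lit 1440) (C.node (nat_lit 5) (nat_lit 7) (nat_lit 9) (C.cons (nat_lit 674) (C.miq (nat_lit 2174165051) (nat_lit 814860938762853785539184669)) (C.cons (nat_lit 672) (C.node (nat_lit 6) (nat_lit 7) (nat_lit 10) (C.cons (nat_lit 1728)
  (C.miq (nat_lit 2586015243) (nat_lit 1561981891850517068962924769)) (C.cons (nat_lit 1216) (C.node (nat_lit 7) (nat_lit 9) (nat_lit 10) (C.cons (nat_lit 1664) (C.node (nat_lit 4) (nat_lit 5) (nat_lit 7) (C.cons (nat_lit 184) (C.miq (nat_lit 628341376) (nat_lit 222480665571363275280027393)) (C.cons (nat_lit 180) (C.miq (nat_lit 844565416) (nat_lit 217613897685691094781660929)) (C.cons (nat_lit 176) (C.node (nat_lit 2) (nat_lit 4) (nat_lit 7) (C.cons (nat_lit 148) (C.node (nat_lit 3) (nat_lit 4) (nat_lit 7) C.nil) C.nil)) C.nil)))) C.nil)) C.nil))) C.nil)))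 (C.cons (nat_lit 1184) (C.miq (nat_lit 2320966411) (nat_lit 1431413107055954743519152157)) C.nil)))) C.nil))) (C.cons (nat_lit 1036) (C.miq (nat_lit 2191752016) (nat_lit 1252454399376863184944695521)) C.nil)))) C.nil))) (C.cons (nat_lit 2084) (C.node (nat_lit 2) (nat_lit 10) (nat_lit 11) (C.cons (nat_lit 3076) (C.node (nat_lit 4) (nat_lit 9) (nat_lit 11) (C.cons (nat_lit 2640) (C.node (nat_lit 1) (nat_lit 4) (nat_lit 9) (C.cons (nat_lit 786) (C.miq (nat_lit 961051488) (nat_lit 950222944546387375120517345)) (C.cons (nat_lit 530) (C.node (nat_lit 3) (nat_lit 4) (nat_lit 9) (C.cons (nat_lit 1560) (C.miq (nat_lit 2207516598) (nat_lit 1885930495262205597912664289)) (C.cons (nat_lit 792) (C.node (nat_lit 3) (nat_lit 4) (nat_lit 10) (C.cons (nat_lit 1112) (C.miq (nat_lit 1934014848) (nat_lit 1344367441619607122932207361)) (C.cons (nat_lit 1048) (C.node (nat_lit 3) (nat_lit 4) (nat_lit 7) (C.cons (nat_lit 216) (C.node (nat_lit 2) (nat_lit 4) (nat_lit 7) (C.cons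 (nat_lit 180) (C.miq (nat_lit 613971211) (nat_lit 957514185454017768371325153)) (C.cons (nat_lit 148) (C.node (nat_lit 4) (nat_lit 5) (nat_lit 7) (C.cons (nat_lit 176) (C.node (nat_lit 2) (nat_lit 6) (nat_lit 7) (C.cons (nat_lit 198) (C.miq (nat_lit 924949376) (nat_lit 239376960689714126456819457)) (C.cons (nat_lit 196) (C.node (nat_lit 6) (nat_lit 7) (nat_lit 10) (C.cons (nat_lit 1728) (C.miq (nat_lit 929216928) (nat_lit 236987775290772371968167681)) (C.cons (nat_lit 1472) (C.miq (nat_lit 2557887243) (nat_lit 1779587506100018608009709597)) (C.cons (nat_lit 1216) (C.node (nat_lit 1) (nat_lit 2) (nat_lit 7) (C.cons (nat_lit 174) (C.miq (nat_lit 2871330931) (nat_lit 2519421054940481548857508233)) (C.cons (nat_lit 134) (C.miq (nat_lit 924949376) (nat_lit 162005708234377859275624193)) C.nil))) C.nil)))) C.nil))) C.nil)) C.nil))) (C.cons (nat_lit 184) (C.miq (nat_lit 1731464088) (nat_lit 222448568001648809611890433)) (C.cons (nat_lit 152) (C.miq (nat_lit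 1731464088) (nat_lit 183762941773980676021292801)) C.nil)))) C.nil))) (C.cons (nat_lit 536) (C.miq (nat_lit 2207516598) (nat_lit 647990455976825323013540065)) C.nil)))) C.nil))) (C.cons (nat_lit 2576) (C.node (nat_lit 6) (nat_lit 9) (nat_lit 11) (C.cons (nat_lit 2624) (C.node (nat_lit 4) (nat_lit 6) (nat_lit 11) (C.cons (nat_lit 2130) (C.node (nat_lit 1) (nat_lit 4) (nat_lit 9) (C.cons (nat_lit 786) (C.miq (nat_lit 2014949891) (nat_lit 950265427324795425148045341)) (C.cons (nat_lit 530) (C.node (nat_lit 6) (nat_lit 8) (nat_lit 11) (C.cons (nat_lit 2376) (C.miq (nat_lit 330828146) (nat_lit 2872412599045273296925098629)) (C.cons (nat_lit 2368) (C.node (nat_lit 3) (nat_lit 5) (nat_lit 11) (C.cons (nat_lit 2344) (C.miq (nat_lit 330828146) (nat_lit 2833726972817605163334500997)) (C.cons (nat_lit 2090) (C.miq (nat_lit 2168135831) (nat_lit 2526699899337168696923128453)) C.nil))) C.nil))) C.nil))) (C.cons (nat_lit 2128) (C.node (nat_lit 5) (nat_lit 10) (nat_lit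 11) (C.cons (nat_lit 3106) (C.node (nat_lit 1) (nat_lit 4) (nat_lit 11) (C.cons (nat_lit 2322) (C.miq (nat_lit 998348576) (nat_lit 2807135401551186493532734085)) C.nil)) C.nil)) C.nil))) C.nil)) C.nil))) C.nil)) C.nil))) C.nil)) (C.cons (nat_lit 2564) (C.miq (nat_lit 314116211) (nat_lit 3099695449213098135634051465)) C.nil))))) C.nil))))) C.nil))) C.nil)))) C.nil))) C.nil)))) (C.cons (nat_lit 2184) (C.node (nat_lit 7) (nat_lit 9) (nat_lit 11) (C.cons (nat_lit 2688)
  (C.ref (nat_lit 293) (nat_lit 205163983024656)) C.nil)) C.nil))) C.nil)))) C.nil))) (C.cons (nat_lit 2434) (C.ref (nat_lit 299) (nat_lit 205163983024656)) (C.cons (nat_lit 2432) (C.ref (nat_lit 312) (nat_lit 205163983024656)) C.nil)))) C.nil)))) C.nil)))) (List.cons (C.qs (C.cons (nat_lit 16642) (C.pat (nat_lit 6) (nat_lit 567410932322) (nat_lit 3035589590342713434458379211797203767658005467038761)) (C.cons (nat_lit 16450) (C.ref (nat_lit 313) (nat_lit 205163983024656)) (C.cons (nat_lit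 16641) (C.ref (nat_lit 313) (nat_lit 205163983024656)) (C.cons (nat_lit 16449) (C.pat (nat_lit 6) (nat_lit 385492891208) (nat_lit 5613674107725271220044332672622097464523859373917253)) C.nil))))) List.nil))

theorem ok12_313 : okL par12 (nat_lit 315) c12_313 (nat_lit 313) = true := by decide +kernel


end Pool.Agent.MP_1f1ca1_co

end
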