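import Pool.Agent.Mg.F1f1ca1.G140a50

set_option autoImplicit false
set_option maxRecDepth 1000000
set_option maxHeartbeats 0

namespace Pool.Agent.MP_1f1ca1_co

noncomputable def c14_0 : List C :=
  (List.cons (C.big C.nil C.nil) (List.cons (C.big C.nil C.nil) (List.cons (C.big (C.cons (nat_lit 8223) (C.big C.nil C.nil) (C.cons (nat_lit 4381) (C.ref (nat_lit 0) (nat_lit 62129658859368976)) (C.cons (nat_lit 4379) (C.ref (nat_lit 0) (nat_lit 62129658859368736)) (C.cons (nat_lit 4375) (C.ref (nat_lit 0) (nat_lit 62129658859364656)) (C.cons (nat_lit 4367) (C.ref (nat_lit 0) (nat_lit 62129658859299136)) (C.cons (nat_lit 4253) (C.ref (nat_lit 0) (nat_lit 62129654832837136)) (C.cons (nat_lit 4251) (C.ref (nat_lit 0) (nat_lit 62129654832836896)) (C.cons (nat_lit 4247) (C.ref (nat_lit 0) (nat_lit 62129654832832816)) (C.cons (nat_lit 4239) (C.ref (nat_lit 0) (nat_lit 62129654832767296)) (C.cons (nat_lit 4189) (C.ref (nat_lit 0) (nat_lit 62129650554647056)) (C.cons (nat_lit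 4187) (C.ref (nat_lit 0) (nat_lit 62129650554646816)) (C.cons (nat_lit 4183) (C.ref (nat_lit 0) (nat_lit 62129650554642736)) (C.cons (nat_lit 4175) (C.ref (nat_lit 0) (nat_lit 62129650554577216)) (C.cons (nat_lit 4157) (C.ref (nat_lit 0) (nat_lit 62129646260728336)) (C.cons (nat_lit 4155) (C.ref (nat_lit 0) (nat_lit 62129646260728096)) (C.cons (nat_lit 4151) (C.ref (nat_lit 0) (nat_lit 62129646260724016)) (C.cons (nat_lit 4143) (C.ref (nat_lit 0) (nat_lit 62129646260658496)) (C.cons (nat_lit 4127) (C.ref (nat_lit 1) (nat_lit 62129658859368976)) (C.cons (nat_lit 2333) (C.ref (nat_lit 0) (nat_lit 61865776068702736)) (C.cons (nat_lit 2331) (C.ref (nat_lit 0) (nat_lit 61865776068702496)) (C.cons (nat_lit 2327) (C.ref (nat_lit 0) (nat_lit 61865776068698416)) (C.cons (nat_lit 2319) (C.ref (nat_lit 0) (nat_lit 61865776068632896)) (C.cons (nat_lit 2205) (C.ref (nat_lit 0) (nat_lit 61865772042170896)) (C.cons (nat_lit 2203) (C.ref (nat_lit 0) (nat_lit 61865772042170656))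 (C.cons (nat_lit 2199) (C.ref (nat_lit 0) (nat_lit 61865772042166576)) (C.cons (nat_lit 2191) (C.ref (nat_lit 0) (nat_lit 61865772042101056)) (C.cons (nat_lit 2141) (C.ref (nat_lit 0) (nat_lit 61865767763980816)) (C.cons (nat_lit 2139) (C.ref (nat_lit 0) (nat_lit 61865767763980576)) (C.cons (nat_lit 2135) (C.ref (nat_lit 0) (nat_lit 61865767763976496)) (C.cons (nat_lit 2127) (C.ref (nat_lit 0) (nat_lit 61865767763910976)) (C.cons (nat_lit 2109) (C.ref (nat_lit 0) (nat_lit 61865763470062096)) (C.cons (nat_lit 2107) (C.ref (nat_lit 0) (nat_lit 61865763470061856)) (C.cons (nat_lit 2103) (C.ref (nat_lit 0) (nat_lit 61865763470057776)) (C.cons (nat_lit 2095) (C.ref (nat_lit 0) (nat_lit 61865763469992256)) (C.cons (nat_lit 2079) (C.ref (nat_lit 1) (nat_lit 61865776068702736)) (C.cons (nat_lit 1309) (C.ref (nat_lit 0) (nat_lit 61585400603619856)) (C.cons (nat_lit 1307) (C.ref (nat_lit 0) (nat_lit 61585400603619616)) (C.cons (nat_lit 1303) (C.ref (nat_lit 0) (nat_lit 61585400603615536))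 (C.cons (nat_lit 1295) (C.ref (nat_lit 0) (nat_lit 61585400603550016)) (C.cons (nat_lit 1181) (C.ref (nat_lit 0) (nat_lit 61585396577088016)) (C.cons (nat_lit 1179) (C.ref (nat_lit 0) (nat_lit 61585396577087776)) (C.cons (nat_lit 1175) (C.ref (nat_lit 0) (nat_lit 61585396577083696)) (C.cons (nat_lit 1167) (C.ref (nat_lit 0) (nat_lit 61585396577018176)) (C.cons (nat_lit 1117) (C.ref (nat_lit 0) (nat_lit 61585392298897936)) (C.cons (nat_lit 1115) (C.ref (nat_lit 0) (nat_lit 61585392298897696)) (C.cons (nat_lit 1111) (C.ref (nat_lit 0) (nat_lit 61585392298893616)) (C.cons (nat_lit 1103) (C.ref (nat_lit 0) (nat_lit 61585392298828096)) (C.cons (nat_lit 1085) (C.ref (nat_lit 0) (nat_lit 61585388004979216)) (C.cons (nat_lit 1083) (C.ref (nat_lit 0) (nat_lit 61585388004978976)) (C.cons (nat_lit 1079) (C.ref (nat_lit 0) (nat_lit 61585388004974896)) (C.cons (nat_lit 1071) (C.ref (nat_lit 0) (nat_lit 61585388004909376)) (C.cons (nat_lit 1055) (C.ref (nat_lit 1) (nat_lit 61585400603619856))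 (C.cons (nat_lit 797) (C.ref (nat_lit 0) (nat_lit 61303994346385936)) (C.cons (nat_lit 795) (C.ref (nat_lit 0) (nat_lit 61303994346385696)) (C.cons (nat_lit 791) (C.ref (nat_lit 0) (nat_lit 61303994346381616)) (C.cons (nat_lit 783)
  (C.ref (nat_lit 0) (nat_lit 61303994346316096)) (C.cons (nat_lit 669) (C.ref (nat_lit 0) (nat_lit 61303990319854096)) (C.cons (nat_lit 667) (C.ref (nat_lit 0) (nat_lit 61303990319853856)) (C.cons (nat_lit 663) (C.ref (nat_lit 0) (nat_lit 61303990319849776)) (C.cons (nat_lit 655) (C.ref (nat_lit 0) (nat_lit 61303990319784256)) (C.cons (nat_lit 605) (C.ref (nat_lit 0) (nat_lit 61303986041664016)) (C.cons (nat_lit 603) (C.ref (nat_lit 0) (nat_lit 61303986041663776)) (C.cons (nat_lit 599) (C.ref (nat_lit 0) (nat_lit 61303986041659696)) (C.cons (nat_lit 591) (C.ref (nat_lit 0) (nat_lit 61303986041594176)) (C.cons (nat_lit 573) (C.ref (nat_lit 0) (nat_lit 61303981747745296)) (C.cons (nat_lit 571) (C.ref (nat_lit 0) (nat_lit 61303981747745056))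 (C.cons (nat_lit 567) (C.ref (nat_lit 0) (nat_lit 61303981747740976)) (C.cons (nat_lit 559) (C.ref (nat_lit 0) (nat_lit 61303981747675456)) (C.cons (nat_lit 543) (C.ref (nat_lit 1) (nat_lit 61303994346385936)) (C.cons (nat_lit 287) (C.ref (nat_lit 1) (nat_lit 60928735608844816)) (C.cons (nat_lit 159) (C.ref (nat_lit 1) (nat_lit 60664852818178576)) (C.cons (nat_lit 95) (C.ref (nat_lit 1) (nat_lit 60384477353095696)) (C.cons (nat_lit 63) (C.ref (nat_lit 1) (nat_lit 60103071095861776)) C.nil))))))))))))))))))))))))))))))))))))))))))))))))))))))))))))))))))))))))) C.nil) (List.cons (C.big (C.cons (nat_lit 8463) (C.ref (nat_lit 1) (nat_lit 60853693940458816)) (C.cons (nat_lit 8335) (C.ref (nat_lit 1) (nat_lit 60572218963813696)) (C.cons (nat_lit 8271) (C.ref (nat_lit 1) (nat_lit 60290743987107136)) (C.cons (nat_lit 8239) (C.ref (nat_lit 1) (nat_lit 60009269010396736)) (C.cons (nat_lit 8223) (C.ref (nat_lit 1) (nat_lit 59727794033686096)) (C.cons (nat_lit 4367) (C.ref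 (nat_lit 1) (nat_lit 56350098608055616)) (C.cons (nat_lit 4239) (C.ref (nat_lit 1) (nat_lit 56068623631410496)) (C.cons (nat_lit 4175) (C.ref (nat_lit 1) (nat_lit 55787148654703936)) (C.cons (nat_lit 4143) (C.ref (nat_lit 1) (nat_lit 55505673677993536)) (C.cons (nat_lit 4127) (C.ref (nat_lit 1) (nat_lit 55224198701282896)) (C.cons (nat_lit 2319) (C.ref (nat_lit 1) (nat_lit 51846499249120576)) (C.cons (nat_lit 2191) (C.ref (nat_lit 1) (nat_lit 51565024272475456)) (C.cons (nat_lit 2127) (C.ref (nat_lit 1) (nat_lit 51283549295768896)) (C.cons (nat_lit 2095) (C.ref (nat_lit 1) (nat_lit 51002074319058496)) (C.cons (nat_lit 2079) (C.ref (nat_lit 1) (nat_lit 50720599342347856)) (C.cons (nat_lit 1295) (C.ref (nat_lit 1) (nat_lit 47342899638527296)) (C.cons (nat_lit 1167) (C.ref (nat_lit 1) (nat_lit 47061424661882176)) (C.cons (nat_lit 1103) (C.ref (nat_lit 1) (nat_lit 46779949685175616)) (C.cons (nat_lit 1071) (C.ref (nat_lit 1) (nat_lit 46498474708465216)) (C.cons (nat_lit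 1055) (C.ref (nat_lit 1) (nat_lit 46216999731754576)) (C.cons (nat_lit 783) (C.ref (nat_lit 1) (nat_lit 42839300012205376)) (C.cons (nat_lit 655) (C.ref (nat_lit 1) (nat_lit 42557825035560256)) (C.cons (nat_lit 591) (C.ref (nat_lit 1) (nat_lit 42276350058853696)) (C.cons (nat_lit 559) (C.ref (nat_lit 1) (nat_lit 41994875082143296)) (C.cons (nat_lit 543) (C.ref (nat_lit 1) (nat_lit 41713400105432656)) C.nil))))))))))))))))))))))))) C.nil) List.nil))))

theorem ok14_0 : okL par14 (nat_lit 4) c14_0 (nat_lit 0) = true := by decide +kernel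

noncomputable def c14_4 : List C :=
  (List.cons (C.big (C.cons (nat_lit 8673) (C.ref (nat_lit 2) (nat_lit 62129658859368976)) (C.cons (nat_lit 8657) (C.ref (nat_lit 2) (nat_lit 62129658858385936)) (C.cons (nat_lit 8649) (C.ref (nat_lit 2) (nat_lit 62129658857341456)) (C.cons (nat_lit 8645) (C.ref (nat_lit 2) (nat_lit 62129658856293136)) (C.cons (nat_lit 8643) (C.ref (nat_lit 2) (nat_lit 62129658855244576)) (C.cons (nat_lit 8625) (C.ref (nat_lit 2) (nat_lit 62129658841674256)) (C.cons (nat_lit 8617) (C.ref (nat_lit 2) (nat_lit 62129658840629776)) (C.cons (nat_lit 8613) (C.ref (nat_lit 2) (nat_lit 62129658839581456)) (C.cons (nat_lit 8611) (C.ref (nat_lit 2) (nat_lit 62129658838532896)) (C.cons (nat_lit 8601) (C.ref (nat_lit 2) (nat_lit 62129658823856656)) (C.cons (nat_lit 8597) (C.ref (nat_lit 2) (nat_lit 62129658822808336)) (C.cons (nat_lit 8595) (C.ref (nat_lit 2) (nat_lit 62129658821759776)) (C.cons (nat_lit 8589) (C.ref (nat_lit 2) (nat_lit 62129658806031376))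 (C.cons (nat_lit 8587) (C.ref (nat_lit 2) (nat_lit 62129658804982816)) (C.cons (nat_lit 8583) (C.ref (nat_lit 2) (nat_lit 62129658788205616)) (C.cons (nat_lit 8561) (C.ref (nat_lit 2) (nat_lit 62129658573304336)) (C.cons (nat_lit 8553) (C.ref (nat_lit 2) (nat_lit 62129658572259856)) (C.cons (nat_lit 8549) (C.ref (nat_lit 2) (nat_lit 62129658571211536)) (C.cons (nat_lit 8547) (C.ref (nat_lit 2) (nat_lit 62129658570162976)) (C.cons (nat_lit 8537) (C.ref (nat_lit 2) (nat_lit 62129658555486736)) (C.cons (nat_lit 8533) (C.ref (nat_lit 2) (nat_lit 62129658554438416)) (C.cons (nat_lit 8531) (C.ref (nat_lit 2) (nat_lit 62129658553389856)) (C.cons (nat_lit 8525) (C.ref (nat_lit 2) (nat_lit 62129658537661456)) (C.cons (nat_lit 8523) (C.ref (nat_lit 2) (nat_lit 62129658536612896)) (C.cons (nat_lit 8519) (C.ref (nat_lit 2) (nat_lit 62129658519835696)) (C.cons (nat_lit 8505) (C.ref (nat_lit 2) (nat_lit 62129658287055376)) (C.cons (nat_lit 8501) (C.ref (nat_lit 2) (nat_lit 62129658286007056))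 (C.cons (nat_lit 8499) (C.ref (nat_lit 2) (nat_lit 62129658284958496)) (C.cons (nat_lit 8493) (C.ref (nat_lit 2) (nat_lit 62129658269230096)) (C.cons (nat_lit 8491) (C.ref (nat_lit 2) (nat_lit 62129658268181536)) (C.cons (nat_lit 8487) (C.ref (nat_lit 2) (nat_lit 62129658251404336)) (C.cons (nat_lit 8477) (C.ref (nat_lit 2) (nat_lit 62129658000794896)) (C.cons (nat_lit 8475) (C.ref (nat_lit 2) (nat_lit 62129657999746336)) (C.cons (nat_lit 8471) (C.ref (nat_lit 2) (nat_lit 62129657982969136)) (C.cons (nat_lit 8463) (C.ref (nat_lit 2) (nat_lit 62129657714533696)) (C.cons (nat_lit 8433) (C.ref (nat_lit 2) (nat_lit 62129654278402576)) (C.cons (nat_lit 8425) (C.ref (nat_lit 2) (nat_lit 62129654277358096)) (C.cons (nat_lit 8421) (C.ref (nat_lit 2) (nat_lit 62129654276309776)) (C.cons (nat_lit 8419) (C.ref (nat_lit 2) (nat_lit 62129654275261216)) (C.cons (nat_lit 8409) (C.ref (nat_lit 2) (nat_lit 62129654260584976)) (C.cons (nat_lit 8405) (C.ref (nat_lit 2) (nat_lit 62129654259536656))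 (C.cons (nat_lit 8403) (C.ref (nat_lit 2) (nat_lit 62129654258488096)) (C.cons (nat_lit 8397) (C.ref (nat_lit 2) (nat_lit 62129654242759696)) (C.cons (nat_lit 8395) (C.ref (nat_lit 2) (nat_lit 62129654241711136)) (C.cons (nat_lit 8391) (C.ref (nat_lit 2) (nat_lit 62129654224933936)) (C.cons (nat_lit 8377) (C.ref (nat_lit 2) (nat_lit 62129653992153616)) (C.cons (nat_lit 8373) (C.ref (nat_lit 2) (nat_lit 62129653991105296)) (C.cons (nat_lit 8371) (C.ref (nat_lit 2) (nat_lit 62129653990056736)) (C.cons (nat_lit 8365) (C.ref (nat_lit 2) (nat_lit 62129653974328336)) (C.cons (nat_lit 8363) (C.ref (nat_lit 2) (nat_lit 62129653973279776)) (C.cons (nat_lit 8359) (C.ref (nat_lit 2) (nat_lit 62129653956502576)) (C.cons (nat_lit 8349) (C.ref (nat_lit 2) (nat_lit 62129653705893136)) (C.cons (nat_lit 8347) (C.ref (nat_lit 2) (nat_lit 62129653704844576)) (C.cons (nat_lit 8343) (C.ref (nat_lit 2) (nat_lit 62129653688067376)) (C.cons (nat_lit 8335) (C.ref (nat_lit 2) (nat_lit 62129653419631936))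 (C.cons (nat_lit 8313) (C.ref (nat_lit 2) (nat_lit 62129649697190416))
  (C.cons (nat_lit 8309) (C.ref (nat_lit 2) (nat_lit 62129649696142096)) (C.cons (nat_lit 8307) (C.ref (nat_lit 2) (nat_lit 62129649695093536)) (C.cons (nat_lit 8301) (C.ref (nat_lit 2) (nat_lit 62129649679365136)) (C.cons (nat_lit 8299) (C.ref (nat_lit 2) (nat_lit 62129649678316576)) (C.cons (nat_lit 8295) (C.ref (nat_lit 2) (nat_lit 62129649661539376)) (C.cons (nat_lit 8285) (C.ref (nat_lit 2) (nat_lit 62129649410929936)) (C.cons (nat_lit 8283) (C.ref (nat_lit 2) (nat_lit 62129649409881376)) (C.cons (nat_lit 8279) (C.ref (nat_lit 2) (nat_lit 62129649393104176)) (C.cons (nat_lit 8271) (C.ref (nat_lit 2) (nat_lit 62129649124668736)) (C.cons (nat_lit 8253) (C.ref (nat_lit 2) (nat_lit 62129645115962896)) (C.cons (nat_lit 8251) (C.ref (nat_lit 2) (nat_lit 62129645114914336)) (C.cons (nat_lit 8247) (C.ref (nat_lit 2) (nat_lit 62129645098137136)) (C.cons (nat_lit 8239) (C.ref (nat_lit 2) (nat_lit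 62129644829701696)) (C.cons (nat_lit 8223) (C.ref (nat_lit 2) (nat_lit 62129640534734416)) (C.cons (nat_lit 4577) (C.ref (nat_lit 2) (nat_lit 57907534208709136)) (C.cons (nat_lit 4561) (C.ref (nat_lit 2) (nat_lit 57907534207726096)) (C.cons (nat_lit 4553) (C.ref (nat_lit 2) (nat_lit 57907534206681616)) (C.cons (nat_lit 4549) (C.ref (nat_lit 2) (nat_lit 57907534205633296)) (C.cons (nat_lit 4547) (C.ref (nat_lit 2) (nat_lit 57907534204584736)) (C.cons (nat_lit 4529) (C.ref (nat_lit 2) (nat_lit 57907534191014416)) (C.cons (nat_lit 4521) (C.ref (nat_lit 2) (nat_lit 57907534189969936)) (C.cons (nat_lit 4517) (C.ref (nat_lit 2) (nat_lit 57907534188921616)) (C.cons (nat_lit 4515) (C.ref (nat_lit 2) (nat_lit 57907534187873056)) (C.cons (nat_lit 4505) (C.ref (nat_lit 2) (nat_lit 57907534173196816)) (C.cons (nat_lit 4501) (C.ref (nat_lit 2) (nat_lit 57907534172148496)) (C.cons (nat_lit 4499) (C.ref (nat_lit 2) (nat_lit 57907534171099936)) (C.cons (nat_lit 4493) (C.ref (nat_lit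 2) (nat_lit 57907534155371536)) (C.cons (nat_lit 4491) (C.ref (nat_lit 2) (nat_lit 57907534154322976)) (C.cons (nat_lit 4487) (C.ref (nat_lit 2) (nat_lit 57907534137545776)) (C.cons (nat_lit 4465) (C.ref (nat_lit 2) (nat_lit 57907533922644496)) (C.cons (nat_lit 4457) (C.ref (nat_lit 2) (nat_lit 57907533921600016)) (C.cons (nat_lit 4453) (C.ref (nat_lit 2) (nat_lit 57907533920551696)) (C.cons (nat_lit 4451) (C.ref (nat_lit 2) (nat_lit 57907533919503136)) (C.cons (nat_lit 4441) (C.ref (nat_lit 2) (nat_lit 57907533904826896)) (C.cons (nat_lit 4437) (C.ref (nat_lit 2) (nat_lit 57907533903778576)) (C.cons (nat_lit 4435) (C.ref (nat_lit 2) (nat_lit 57907533902730016)) (C.cons (nat_lit 4429) (C.ref (nat_lit 2) (nat_lit 57907533887001616)) (C.cons (nat_lit 4427) (C.ref (nat_lit 2) (nat_lit 57907533885953056)) (C.cons (nat_lit 4423) (C.ref (nat_lit 2) (nat_lit 57907533869175856)) (C.cons (nat_lit 4409) (C.ref (nat_lit 2) (nat_lit 57907533636395536)) (C.cons (nat_lit 4405)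 (C.ref (nat_lit 2) (nat_lit 57907533635347216)) (C.cons (nat_lit 4403) (C.ref (nat_lit 2) (nat_lit 57907533634298656)) (C.cons (nat_lit 4397) (C.ref (nat_lit 2) (nat_lit 57907533618570256)) (C.cons (nat_lit 4395) (C.ref (nat_lit 2) (nat_lit 57907533617521696)) (C.cons (nat_lit 4391) (C.ref (nat_lit 2) (nat_lit 57907533600744496)) (C.cons (nat_lit 4381) (C.ref (nat_lit 2) (nat_lit 57907533350135056)) (C.cons (nat_lit 4379) (C.ref (nat_lit 2) (nat_lit 57907533349086496)) (C.cons (nat_lit 4375) (C.ref (nat_lit 2) (nat_lit 57907533332309296)) (C.cons (nat_lit 4367) (C.ref (nat_lit 2) (nat_lit 57907533063873856)) (C.cons (nat_lit 4337) (C.ref (nat_lit 2) (nat_lit 57907529627742736)) (C.cons (nat_lit 4329) (C.ref (nat_lit 2) (nat_lit 57907529626698256)) (C.cons (nat_lit 4325) (C.ref (nat_lit 2) (nat_lit 57907529625649936)) (C.cons (nat_lit 4323) (C.ref (nat_lit 2) (nat_lit 57907529624601376)) (C.cons (nat_lit 4313) (C.ref (nat_lit 2) (nat_lit 57907529609925136)) (C.cons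 (nat_lit 4309) (C.ref (nat_lit 2) (nat_lit 57907529608876816)) (C.cons (nat_lit 4307) (C.ref (nat_lit 2) (nat_lit 57907529607828256))
  (C.cons (nat_lit 4301) (C.ref (nat_lit 2) (nat_lit 57907529592099856)) (C.cons (nat_lit 4299) (C.ref (nat_lit 2) (nat_lit 57907529591051296)) (C.cons (nat_lit 4295) (C.ref (nat_lit 2) (nat_lit 57907529574274096)) (C.cons (nat_lit 4281) (C.ref (nat_lit 2) (nat_lit 57907529341493776)) (C.cons (nat_lit 4277) (C.ref (nat_lit 2) (nat_lit 57907529340445456)) (C.cons (nat_lit 4275) (C.ref (nat_lit 2) (nat_lit 57907529339396896)) (C.cons (nat_lit 4269) (C.ref (nat_lit 2) (nat_lit 57907529323668496)) (C.cons (nat_lit 4267) (C.ref (nat_lit 2) (nat_lit 57907529322619936)) (C.cons (nat_lit 4263) (C.ref (nat_lit 2) (nat_lit 57907529305842736)) (C.cons (nat_lit 4253) (C.ref (nat_lit 2) (nat_lit 57907529055233296)) (C.cons (nat_lit 4251) (C.ref (nat_lit 2) (nat_lit 57907529054184736)) (C.cons (nat_lit 4247) (C.ref (nat_lit 2) (nat_lit 57907529037407536))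 (C.cons (nat_lit 4239) (C.ref (nat_lit 2) (nat_lit 57907528768972096)) (C.cons (nat_lit 4217) (C.ref (nat_lit 2) (nat_lit 57907525046530576)) (C.cons (nat_lit 4213) (C.ref (nat_lit 2) (nat_lit 57907525045482256)) (C.cons (nat_lit 4211) (C.ref (nat_lit 2) (nat_lit 57907525044433696)) (C.cons (nat_lit 4205) (C.ref (nat_lit 2) (nat_lit 57907525028705296)) (C.cons (nat_lit 4203) (C.ref (nat_lit 2) (nat_lit 57907525027656736)) (C.cons (nat_lit 4199) (C.ref (nat_lit 2) (nat_lit 57907525010879536)) (C.cons (nat_lit 4189) (C.ref (nat_lit 2) (nat_lit 57907524760270096)) (C.cons (nat_lit 4187) (C.ref (nat_lit 2) (nat_lit 57907524759221536)) (C.cons (nat_lit 4183) (C.ref (nat_lit 2) (nat_lit 57907524742444336)) (C.cons (nat_lit 4175) (C.ref (nat_lit 2) (nat_lit 57907524474008896)) (C.cons (nat_lit 4157) (C.ref (nat_lit 2) (nat_lit 57907520465303056)) (C.cons (nat_lit 4155) (C.ref (nat_lit 2) (nat_lit 57907520464254496)) (C.cons (nat_lit 4151) (C.ref (nat_lit 2) (nat_lit 57907520447477296))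 (C.cons (nat_lit 4143) (C.ref (nat_lit 2) (nat_lit 57907520179041856)) (C.cons (nat_lit 4127) (C.ref (nat_lit 2) (nat_lit 57907515884074576)) (C.cons (nat_lit 2529) (C.ref (nat_lit 2) (nat_lit 53421526767383056)) (C.cons (nat_lit 2513) (C.ref (nat_lit 2) (nat_lit 53421526766400016)) (C.cons (nat_lit 2505) (C.ref (nat_lit 2) (nat_lit 53421526765355536)) (C.cons (nat_lit 2501) (C.ref (nat_lit 2) (nat_lit 53421526764307216)) (C.cons (nat_lit 2499) (C.ref (nat_lit 2) (nat_lit 53421526763258656)) (C.cons (nat_lit 2481) (C.ref (nat_lit 2) (nat_lit 53421526749688336)) (C.cons (nat_lit 2473) (C.ref (nat_lit 2) (nat_lit 53421526748643856)) (C.cons (nat_lit 2469) (C.ref (nat_lit 2) (nat_lit 53421526747595536)) (C.cons (nat_lit 2467) (C.ref (nat_lit 2) (nat_lit 53421526746546976)) (C.cons (nat_lit 2457) (C.ref (nat_lit 2) (nat_lit 53421526731870736)) (C.cons (nat_lit 2453) (C.ref (nat_lit 2) (nat_lit 53421526730822416)) (C.cons (nat_lit 2451) (C.ref (nat_lit 2) (nat_lit 53421526729773856))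 (C.cons (nat_lit 2445) (C.ref (nat_lit 2) (nat_lit 53421526714045456)) (C.cons (nat_lit 2443) (C.ref (nat_lit 2) (nat_lit 53421526712996896)) (C.cons (nat_lit 2439) (C.ref (nat_lit 2) (nat_lit 53421526696219696)) (C.cons (nat_lit 2417) (C.ref (nat_lit 2) (nat_lit 53421526481318416)) (C.cons (nat_lit 2409) (C.ref (nat_lit 2) (nat_lit 53421526480273936)) (C.cons (nat_lit 2405) (C.ref (nat_lit 2) (nat_lit 53421526479225616)) (C.cons (nat_lit 2403) (C.ref (nat_lit 2) (nat_lit 53421526478177056)) (C.cons (nat_lit 2393) (C.ref (nat_lit 2) (nat_lit 53421526463500816)) (C.cons (nat_lit 2389) (C.ref (nat_lit 2) (nat_lit 53421526462452496)) (C.cons (nat_lit 2387) (C.ref (nat_lit 2) (nat_lit 53421526461403936)) (C.cons (nat_lit 2381) (C.ref (nat_lit 2) (nat_lit 53421526445675536)) (C.cons (nat_lit 2379) (C.ref (nat_lit 2) (nat_lit 53421526444626976)) (C.cons (nat_lit 2375) (C.ref (nat_lit 2) (nat_lit 53421526427849776)) (C.cons (nat_lit 2361) (C.ref (nat_lit 2) (nat_lit 53421526195069456))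 (C.cons (nat_lit 2357) (C.ref (nat_lit 2) (nat_lit 53421526194021136)) (C.cons (nat_lit 2355) (C.ref (nat_lit 2) (nat_lit 53421526192972576))
  (C.cons (nat_lit 2349) (C.ref (nat_lit 2) (nat_lit 53421526177244176)) (C.cons (nat_lit 2347) (C.ref (nat_lit 2) (nat_lit 53421526176195616)) (C.cons (nat_lit 2343) (C.ref (nat_lit 2) (nat_lit 53421526159418416)) (C.cons (nat_lit 2333) (C.ref (nat_lit 2) (nat_lit 53421525908808976)) (C.cons (nat_lit 2331) (C.ref (nat_lit 2) (nat_lit 53421525907760416)) (C.cons (nat_lit 2327) (C.ref (nat_lit 2) (nat_lit 53421525890983216)) (C.cons (nat_lit 2319) (C.ref (nat_lit 2) (nat_lit 53421525622547776)) (C.cons (nat_lit 2289) (C.ref (nat_lit 2) (nat_lit 53421522186416656)) (C.cons (nat_lit 2281) (C.ref (nat_lit 2) (nat_lit 53421522185372176)) (C.cons (nat_lit 2277) (C.ref (nat_lit 2) (nat_lit 53421522184323856)) (C.cons (nat_lit 2275) (C.ref (nat_lit 2) (nat_lit 53421522183275296)) (C.cons (nat_lit 2265) (C.ref (nat_lit 2) (nat_lit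 53421522168599056)) (C.cons (nat_lit 2261) (C.ref (nat_lit 2) (nat_lit 53421522167550736)) (C.cons (nat_lit 2259) (C.ref (nat_lit 2) (nat_lit 53421522166502176)) (C.cons (nat_lit 2253) (C.ref (nat_lit 2) (nat_lit 53421522150773776)) (C.cons (nat_lit 2251) (C.ref (nat_lit 2) (nat_lit 53421522149725216)) (C.cons (nat_lit 2247) (C.ref (nat_lit 2) (nat_lit 53421522132948016)) (C.cons (nat_lit 2233) (C.ref (nat_lit 2) (nat_lit 53421521900167696)) (C.cons (nat_lit 2229) (C.ref (nat_lit 2) (nat_lit 53421521899119376)) (C.cons (nat_lit 2227) (C.ref (nat_lit 2) (nat_lit 53421521898070816)) (C.cons (nat_lit 2221) (C.ref (nat_lit 2) (nat_lit 53421521882342416)) (C.cons (nat_lit 2219) (C.ref (nat_lit 2) (nat_lit 53421521881293856)) (C.cons (nat_lit 2215) (C.ref (nat_lit 2) (nat_lit 53421521864516656)) (C.cons (nat_lit 2205) (C.ref (nat_lit 2) (nat_lit 53421521613907216)) (C.cons (nat_lit 2203) (C.ref (nat_lit 2) (nat_lit 53421521612858656)) (C.cons (nat_lit 2199) (C.ref (nat_lit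 2) (nat_lit 53421521596081456)) (C.cons (nat_lit 2191) (C.ref (nat_lit 2) (nat_lit 53421521327646016)) (C.cons (nat_lit 2169) (C.ref (nat_lit 2) (nat_lit 53421517605204496)) (C.cons (nat_lit 2165) (C.ref (nat_lit 2) (nat_lit 53421517604156176)) (C.cons (nat_lit 2163) (C.ref (nat_lit 2) (nat_lit 53421517603107616)) (C.cons (nat_lit 2157) (C.ref (nat_lit 2) (nat_lit 53421517587379216)) (C.cons (nat_lit 2155) (C.ref (nat_lit 2) (nat_lit 53421517586330656)) (C.cons (nat_lit 2151) (C.ref (nat_lit 2) (nat_lit 53421517569553456)) (C.cons (nat_lit 2141) (C.ref (nat_lit 2) (nat_lit 53421517318944016)) (C.cons (nat_lit 2139) (C.ref (nat_lit 2) (nat_lit 53421517317895456)) (C.cons (nat_lit 2135) (C.ref (nat_lit 2) (nat_lit 53421517301118256)) (C.cons (nat_lit 2127) (C.ref (nat_lit 2) (nat_lit 53421517032682816)) (C.cons (nat_lit 2109) (C.ref (nat_lit 2) (nat_lit 53421513023976976)) (C.cons (nat_lit 2107) (C.ref (nat_lit 2) (nat_lit 53421513022928416)) (C.cons (nat_lit 2103)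 (C.ref (nat_lit 2) (nat_lit 53421513006151216)) (C.cons (nat_lit 2095) (C.ref (nat_lit 2) (nat_lit 53421512737715776)) (C.cons (nat_lit 2079) (C.ref (nat_lit 2) (nat_lit 53421508442748496)) (C.cons (nat_lit 1505) (C.ref (nat_lit 2) (nat_lit 48919026651640336)) (C.cons (nat_lit 1489) (C.ref (nat_lit 2) (nat_lit 48919026650657296)) (C.cons (nat_lit 1481) (C.ref (nat_lit 2) (nat_lit 48919026649612816)) (C.cons (nat_lit 1477) (C.ref (nat_lit 2) (nat_lit 48919026648564496)) (C.cons (nat_lit 1475) (C.ref (nat_lit 2) (nat_lit 48919026647515936)) (C.cons (nat_lit 1457) (C.ref (nat_lit 2) (nat_lit 48919026633945616)) (C.cons (nat_lit 1449) (C.ref (nat_lit 2) (nat_lit 48919026632901136)) (C.cons (nat_lit 1445) (C.ref (nat_lit 2) (nat_lit 48919026631852816)) (C.cons (nat_lit 1443) (C.ref (nat_lit 2) (nat_lit 48919026630804256)) (C.cons (nat_lit 1433) (C.ref (nat_lit 2) (nat_lit 48919026616128016)) (C.cons (nat_lit 1429) (C.ref (nat_lit 2) (nat_lit 48919026615079696)) (C.cons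 (nat_lit 1427) (C.ref (nat_lit 2) (nat_lit 48919026614031136)) (C.cons (nat_lit 1421) (C.ref (nat_lit 2) (nat_lit 48919026598302736)) (C.cons (nat_lit 1419) (C.ref (nat_lit 2) (nat_lit 48919026597254176))
  (C.cons (nat_lit 1415) (C.ref (nat_lit 2) (nat_lit 48919026580476976)) (C.cons (nat_lit 1393) (C.ref (nat_lit 2) (nat_lit 48919026365575696)) (C.cons (nat_lit 1385) (C.ref (nat_lit 2) (nat_lit 48919026364531216)) (C.cons (nat_lit 1381) (C.ref (nat_lit 2) (nat_lit 48919026363482896)) (C.cons (nat_lit 1379) (C.ref (nat_lit 2) (nat_lit 48919026362434336)) (C.cons (nat_lit 1369) (C.ref (nat_lit 2) (nat_lit 48919026347758096)) (C.cons (nat_lit 1365) (C.ref (nat_lit 2) (nat_lit 48919026346709776)) (C.cons (nat_lit 1363) (C.ref (nat_lit 2) (nat_lit 48919026345661216)) (C.cons (nat_lit 1357) (C.ref (nat_lit 2) (nat_lit 48919026329932816)) (C.cons (nat_lit 1355) (C.ref (nat_lit 2) (nat_lit 48919026328884256)) (C.cons (nat_lit 1351) (C.ref (nat_lit 2) (nat_lit 48919026312107056))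 (C.cons (nat_lit 1337) (C.ref (nat_lit 2) (nat_lit 48919026079326736)) (C.cons (nat_lit 1333) (C.ref (nat_lit 2) (nat_lit 48919026078278416)) (C.cons (nat_lit 1331) (C.ref (nat_lit 2) (nat_lit 48919026077229856)) (C.cons (nat_lit 1325) (C.ref (nat_lit 2) (nat_lit 48919026061501456)) (C.cons (nat_lit 1323) (C.ref (nat_lit 2) (nat_lit 48919026060452896)) (C.cons (nat_lit 1319) (C.ref (nat_lit 2) (nat_lit 48919026043675696)) (C.cons (nat_lit 1309) (C.ref (nat_lit 2) (nat_lit 48919025793066256)) (C.cons (nat_lit 1307) (C.ref (nat_lit 2) (nat_lit 48919025792017696)) (C.cons (nat_lit 1303) (C.ref (nat_lit 2) (nat_lit 48919025775240496)) (C.cons (nat_lit 1295) (C.ref (nat_lit 2) (nat_lit 48919025506805056)) (C.cons (nat_lit 1265) (C.ref (nat_lit 2) (nat_lit 48919022070673936)) (C.cons (nat_lit 1257) (C.ref (nat_lit 2) (nat_lit 48919022069629456)) (C.cons (nat_lit 1253) (C.ref (nat_lit 2) (nat_lit 48919022068581136)) (C.cons (nat_lit 1251) (C.ref (nat_lit 2) (nat_lit 48919022067532576))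 (C.cons (nat_lit 1241) (C.ref (nat_lit 2) (nat_lit 48919022052856336)) (C.cons (nat_lit 1237) (C.ref (nat_lit 2) (nat_lit 48919022051808016)) (C.cons (nat_lit 1235) (C.ref (nat_lit 2) (nat_lit 48919022050759456)) (C.cons (nat_lit 1229) (C.ref (nat_lit 2) (nat_lit 48919022035031056)) (C.cons (nat_lit 1227) (C.ref (nat_lit 2) (nat_lit 48919022033982496)) (C.cons (nat_lit 1223) (C.ref (nat_lit 2) (nat_lit 48919022017205296)) (C.cons (nat_lit 1209) (C.ref (nat_lit 2) (nat_lit 48919021784424976)) (C.cons (nat_lit 1205) (C.ref (nat_lit 2) (nat_lit 48919021783376656)) (C.cons (nat_lit 1203) (C.ref (nat_lit 2) (nat_lit 48919021782328096)) (C.cons (nat_lit 1197) (C.ref (nat_lit 2) (nat_lit 48919021766599696)) (C.cons (nat_lit 1195) (C.ref (nat_lit 2) (nat_lit 48919021765551136)) (C.cons (nat_lit 1191) (C.ref (nat_lit 2) (nat_lit 48919021748773936)) (C.cons (nat_lit 1181) (C.ref (nat_lit 2) (nat_lit 48919021498164496)) (C.cons (nat_lit 1179) (C.ref (nat_lit 2) (nat_lit 48919021497115936))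 (C.cons (nat_lit 1175) (C.ref (nat_lit 2) (nat_lit 48919021480338736)) (C.cons (nat_lit 1167) (C.ref (nat_lit 2) (nat_lit 48919021211903296)) (C.cons (nat_lit 1145) (C.ref (nat_lit 2) (nat_lit 48919017489461776)) (C.cons (nat_lit 1141) (C.ref (nat_lit 2) (nat_lit 48919017488413456)) (C.cons (nat_lit 1139) (C.ref (nat_lit 2) (nat_lit 48919017487364896)) (C.cons (nat_lit 1133) (C.ref (nat_lit 2) (nat_lit 48919017471636496)) (C.cons (nat_lit 1131) (C.ref (nat_lit 2) (nat_lit 48919017470587936)) (C.cons (nat_lit 1127) (C.ref (nat_lit 2) (nat_lit 48919017453810736)) (C.cons (nat_lit 1117) (C.ref (nat_lit 2) (nat_lit 48919017203201296)) (C.cons (nat_lit 1115) (C.ref (nat_lit 2) (nat_lit 48919017202152736)) (C.cons (nat_lit 1111) (C.ref (nat_lit 2) (nat_lit 48919017185375536)) (C.cons (nat_lit 1103) (C.ref (nat_lit 2) (nat_lit 48919016916940096)) (C.cons (nat_lit 1085) (C.ref (nat_lit 2) (nat_lit 48919012908234256)) (C.cons (nat_lit 1083) (C.ref (nat_lit 2) (nat_lit 48919012907185696))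 (C.cons (nat_lit 1079) (C.ref (nat_lit 2) (nat_lit 48919012890408496)) (C.cons (nat_lit 1071) (C.ref (nat_lit 2) (nat_lit 48919012621973056)) (C.cons (nat_lit 1055) (C.ref (nat_lit 2) (nat_lit 48919008327005776))
  (C.cons (nat_lit 993) (C.ref (nat_lit 2) (nat_lit 44415495743746576)) (C.cons (nat_lit 977) (C.ref (nat_lit 2) (nat_lit 44415495742763536)) (C.cons (nat_lit 969) (C.ref (nat_lit 2) (nat_lit 44415495741719056)) (C.cons (nat_lit 965) (C.ref (nat_lit 2) (nat_lit 44415495740670736)) (C.cons (nat_lit 963) (C.ref (nat_lit 2) (nat_lit 44415495739622176)) (C.cons (nat_lit 945) (C.ref (nat_lit 2) (nat_lit 44415495726051856)) (C.cons (nat_lit 937) (C.ref (nat_lit 2) (nat_lit 44415495725007376)) (C.cons (nat_lit 933) (C.ref (nat_lit 2) (nat_lit 44415495723959056)) (C.cons (nat_lit 931) (C.ref (nat_lit 2) (nat_lit 44415495722910496)) (C.cons (nat_lit 921) (C.ref (nat_lit 2) (nat_lit 44415495708234256)) (C.cons (nat_lit 917) (C.ref (nat_lit 2) (nat_lit 44415495707185936))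 (C.cons (nat_lit 915) (C.ref (nat_lit 2) (nat_lit 44415495706137376)) (C.cons (nat_lit 909) (C.ref (nat_lit 2) (nat_lit 44415495690408976)) (C.cons (nat_lit 907) (C.ref (nat_lit 2) (nat_lit 44415495689360416)) (C.cons (nat_lit 903) (C.ref (nat_lit 2) (nat_lit 44415495672583216)) (C.cons (nat_lit 881) (C.ref (nat_lit 2) (nat_lit 44415495457681936)) (C.cons (nat_lit 873) (C.ref (nat_lit 2) (nat_lit 44415495456637456)) (C.cons (nat_lit 869) (C.ref (nat_lit 2) (nat_lit 44415495455589136)) (C.cons (nat_lit 867) (C.ref (nat_lit 2) (nat_lit 44415495454540576)) (C.cons (nat_lit 857) (C.ref (nat_lit 2) (nat_lit 44415495439864336)) (C.cons (nat_lit 853) (C.ref (nat_lit 2) (nat_lit 44415495438816016)) (C.cons (nat_lit 851) (C.ref (nat_lit 2) (nat_lit 44415495437767456)) (C.cons (nat_lit 845) (C.ref (nat_lit 2) (nat_lit 44415495422039056)) (C.cons (nat_lit 843) (C.ref (nat_lit 2) (nat_lit 44415495420990496)) (C.cons (nat_lit 839) (C.ref (nat_lit 2) (nat_lit 44415495404213296))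 (C.cons (nat_lit 825) (C.ref (nat_lit 2) (nat_lit 44415495171432976)) (C.cons (nat_lit 821) (C.ref (nat_lit 2) (nat_lit 44415495170384656)) (C.cons (nat_lit 819) (C.ref (nat_lit 2) (nat_lit 44415495169336096)) (C.cons (nat_lit 813) (C.ref (nat_lit 2) (nat_lit 44415495153607696)) (C.cons (nat_lit 811) (C.ref (nat_lit 2) (nat_lit 44415495152559136)) (C.cons (nat_lit 807) (C.ref (nat_lit 2) (nat_lit 44415495135781936)) (C.cons (nat_lit 797) (C.ref (nat_lit 2) (nat_lit 44415494885172496)) (C.cons (nat_lit 795) (C.ref (nat_lit 2) (nat_lit 44415494884123936)) (C.cons (nat_lit 791) (C.ref (nat_lit 2) (nat_lit 44415494867346736)) (C.cons (nat_lit 783) (C.ref (nat_lit 2) (nat_lit 44415494598911296)) (C.cons (nat_lit 753) (C.ref (nat_lit 2) (nat_lit 44415491162780176)) (C.cons (nat_lit 745) (C.ref (nat_lit 2) (nat_lit 44415491161735696)) (C.cons (nat_lit 741) (C.ref (nat_lit 2) (nat_lit 44415491160687376)) (C.cons (nat_lit 739) (C.ref (nat_lit 2) (nat_lit 44415491159638816))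 (C.cons (nat_lit 729) (C.ref (nat_lit 2) (nat_lit 44415491144962576)) (C.cons (nat_lit 725) (C.ref (nat_lit 2) (nat_lit 44415491143914256)) (C.cons (nat_lit 723) (C.ref (nat_lit 2) (nat_lit 44415491142865696)) (C.cons (nat_lit 717) (C.ref (nat_lit 2) (nat_lit 44415491127137296)) (C.cons (nat_lit 715) (C.ref (nat_lit 2) (nat_lit 44415491126088736)) (C.cons (nat_lit 711) (C.ref (nat_lit 2) (nat_lit 44415491109311536)) (C.cons (nat_lit 697) (C.ref (nat_lit 2) (nat_lit 44415490876531216)) (C.cons (nat_lit 693) (C.ref (nat_lit 2) (nat_lit 44415490875482896)) (C.cons (nat_lit 691) (C.ref (nat_lit 2) (nat_lit 44415490874434336)) (C.cons (nat_lit 685) (C.ref (nat_lit 2) (nat_lit 44415490858705936)) (C.cons (nat_lit 683) (C.ref (nat_lit 2) (nat_lit 44415490857657376)) (C.cons (nat_lit 679) (C.ref (nat_lit 2) (nat_lit 44415490840880176)) (C.cons (nat_lit 669) (C.ref (nat_lit 2) (nat_lit 44415490590270736)) (C.cons (nat_lit 667) (C.ref (nat_lit 2) (nat_lit 44415490589222176))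 (C.cons (nat_lit 663) (C.ref (nat_lit 2) (nat_lit 44415490572444976)) (C.cons (nat_lit 655) (C.ref (nat_lit 2) (nat_lit 44415490304009536)) (C.cons (nat_lit 633) (C.ref (nat_lit 2) (nat_lit 44415486581568016)) (C.cons (nat_lit 629) (C.ref (nat_lit 2) (nat_lit 44415486580519696))
  (C.cons (nat_lit 627) (C.ref (nat_lit 2) (nat_lit 44415486579471136)) (C.cons (nat_lit 621) (C.ref (nat_lit 2) (nat_lit 44415486563742736)) (C.cons (nat_lit 619) (C.ref (nat_lit 2) (nat_lit 44415486562694176)) (C.cons (nat_lit 615) (C.ref (nat_lit 2) (nat_lit 44415486545916976)) (C.cons (nat_lit 605) (C.ref (nat_lit 2) (nat_lit 44415486295307536)) (C.cons (nat_lit 603) (C.ref (nat_lit 2) (nat_lit 44415486294258976)) (C.cons (nat_lit 599) (C.ref (nat_lit 2) (nat_lit 44415486277481776)) (C.cons (nat_lit 591) (C.ref (nat_lit 2) (nat_lit 44415486009046336)) (C.cons (nat_lit 573) (C.ref (nat_lit 2) (nat_lit 44415482000340496)) (C.cons (nat_lit 571) (C.ref (nat_lit 2) (nat_lit 44415481999291936))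 (C.cons (nat_lit 567) (C.ref (nat_lit 2) (nat_lit 44415481982514736)) (C.cons (nat_lit 559) (C.ref (nat_lit 2) (nat_lit 44415481714079296)) (C.cons (nat_lit 543) (C.ref (nat_lit 2) (nat_lit 44415477419112016)) (C.cons (nat_lit 497) (C.ref (nat_lit 3) (nat_lit 62129658859368976)) (C.cons (nat_lit 489) (C.ref (nat_lit 3) (nat_lit 62129658859307536)) (C.cons (nat_lit 485) (C.ref (nat_lit 3) (nat_lit 62129658859242256)) (C.cons (nat_lit 483) (C.ref (nat_lit 3) (nat_lit 62129658859176736)) (C.cons (nat_lit 473) (C.ref (nat_lit 3) (nat_lit 62129658858263056)) (C.cons (nat_lit 469) (C.ref (nat_lit 3) (nat_lit 62129658858197776)) (C.cons (nat_lit 467) (C.ref (nat_lit 3) (nat_lit 62129658858132256)) (C.cons (nat_lit 461) (C.ref (nat_lit 3) (nat_lit 62129658857149456)) (C.cons (nat_lit 459) (C.ref (nat_lit 3) (nat_lit 62129658857083936)) (C.cons (nat_lit 455) (C.ref (nat_lit 3) (nat_lit 62129658856035376)) (C.cons (nat_lit 441) (C.ref (nat_lit 3) (nat_lit 62129658841489936))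 (C.cons (nat_lit 437) (C.ref (nat_lit 3) (nat_lit 62129658841424656)) (C.cons (nat_lit 435) (C.ref (nat_lit 3) (nat_lit 62129658841359136)) (C.cons (nat_lit 429) (C.ref (nat_lit 3) (nat_lit 62129658840376336)) (C.cons (nat_lit 427) (C.ref (nat_lit 3) (nat_lit 62129658840310816)) (C.cons (nat_lit 423) (C.ref (nat_lit 3) (nat_lit 62129658839262256)) (C.cons (nat_lit 413) (C.ref (nat_lit 3) (nat_lit 62129658823599376)) (C.cons (nat_lit 411) (C.ref (nat_lit 3) (nat_lit 62129658823533856)) (C.cons (nat_lit 407) (C.ref (nat_lit 3) (nat_lit 62129658822485296)) (C.cons (nat_lit 399) (C.ref (nat_lit 3) (nat_lit 62129658805708096)) (C.cons (nat_lit 377) (C.ref (nat_lit 3) (nat_lit 62129658573058576)) (C.cons (nat_lit 373) (C.ref (nat_lit 3) (nat_lit 62129658572993296)) (C.cons (nat_lit 371) (C.ref (nat_lit 3) (nat_lit 62129658572927776)) (C.cons (nat_lit 365) (C.ref (nat_lit 3) (nat_lit 62129658571944976)) (C.cons (nat_lit 363) (C.ref (nat_lit 3) (nat_lit 62129658571879456))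 (C.cons (nat_lit 359) (C.ref (nat_lit 3) (nat_lit 62129658570830896)) (C.cons (nat_lit 349) (C.ref (nat_lit 3) (nat_lit 62129658555168016)) (C.cons (nat_lit 347) (C.ref (nat_lit 3) (nat_lit 62129658555102496)) (C.cons (nat_lit 343) (C.ref (nat_lit 3) (nat_lit 62129658554053936)) (C.cons (nat_lit 335) (C.ref (nat_lit 3) (nat_lit 62129658537276736)) (C.cons (nat_lit 317) (C.ref (nat_lit 3) (nat_lit 62129658286732816)) (C.cons (nat_lit 315) (C.ref (nat_lit 3) (nat_lit 62129658286667296)) (C.cons (nat_lit 311) (C.ref (nat_lit 3) (nat_lit 62129658285618736)) (C.cons (nat_lit 303) (C.ref (nat_lit 3) (nat_lit 62129658268841536)) (C.cons (nat_lit 287) (C.ref (nat_lit 3) (nat_lit 62129658000406096)) (C.cons (nat_lit 249) (C.ref (nat_lit 3) (nat_lit 62129654278095376)) (C.cons (nat_lit 245) (C.ref (nat_lit 3) (nat_lit 62129654278030096)) (C.cons (nat_lit 243) (C.ref (nat_lit 3) (nat_lit 62129654277964576)) (C.cons (nat_lit 237) (C.ref (nat_lit 3) (nat_lit 62129654276981776))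 (C.cons (nat_lit 235) (C.ref (nat_lit 3) (nat_lit 62129654276916256)) (C.cons (nat_lit 231) (C.ref (nat_lit 3) (nat_lit 62129654275867696)) (C.cons (nat_lit 221) (C.ref (nat_lit 3) (nat_lit 62129654260204816)) (C.cons (nat_lit 219) (C.ref (nat_lit 3) (nat_lit 62129654260139296)) (C.cons (nat_lit 215) (C.ref (nat_lit 3) (nat_lit 62129654259090736))
  (C.cons (nat_lit 207) (C.ref (nat_lit 3) (nat_lit 62129654242313536)) (C.cons (nat_lit 189) (C.ref (nat_lit 3) (nat_lit 62129653991769616)) (C.cons (nat_lit 187) (C.ref (nat_lit 3) (nat_lit 62129653991704096)) (C.cons (nat_lit 183) (C.ref (nat_lit 3) (nat_lit 62129653990655536)) (C.cons (nat_lit 175) (C.ref (nat_lit 3) (nat_lit 62129653973878336)) (C.cons (nat_lit 159) (C.ref (nat_lit 3) (nat_lit 62129653705442896)) (C.cons (nat_lit 125) (C.ref (nat_lit 3) (nat_lit 62129649696802576)) (C.cons (nat_lit 123) (C.ref (nat_lit 3) (nat_lit 62129649696737056)) (C.cons (nat_lit 119) (C.ref (nat_lit 3) (nat_lit 62129649695688496))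 (C.cons (nat_lit 111) (C.ref (nat_lit 3) (nat_lit 62129649678911296)) (C.cons (nat_lit 95) (C.ref (nat_lit 3) (nat_lit 62129649410475856)) (C.cons (nat_lit 63) (C.ref (nat_lit 3) (nat_lit 62129645115508576)) C.nil)))))))))))))))))))))))))))))))))))))))))))))))))))))))))))))))))))))))))))))))))))))))))))))))))))))))))))))))))))))))))))))))))))))))))))))))))))))))))))))))))))))))))))))))))))))))))))))))))))))))))))))))))))))))))))))))))))))))))))))))))))))))))))))))))))))))))))))))))))))))))))))))))))))))))))))))))))))))))))))))))))))))))))))))))))))))))))))))))))))))))))))))))))))))))))))))))))))))))))))))))))))) C.nil) List.nil)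

theorem ok14_4 : okL par14 (nat_lit 5) c14_4 (nat_lit 4) = true := by decide +kernel

noncomputable def c14_5 : List C :=
  (List.cons (C.big (C.cons (nat_lit 15873) (C.ref (nat_lit 4) (nat_lit 62129658859368976)) (C.cons (nat_lit 15617) (C.ref (nat_lit 4) (nat_lit 62129594434859536)) (C.cons (nat_lit 15489) (C.ref (nat_lit 4) (nat_lit 62129525983818256)) (C.cons (nat_lit 15425) (C.ref (nat_lit 4) (nat_lit 62129457281118736)) (C.cons (nat_lit 15393) (C.ref (nat_lit 4) (nat_lit 62129388562690576)) (C.cons (nat_lit 15377) (C.ref (nat_lit 4) (nat_lit 62129319843279376)) (C.cons (nat_lit 15369) (C.ref (nat_lit 4) (nat_lit 62129251123806736)) (C.cons (nat_lit 15365) (C.ref (nat_lit 4) (nat_lit 62129182404330256)) (C.cons (nat_lit 15363) (C.ref (nat_lit 4) (nat_lit 62129113684853536)) (C.cons (nat_lit 15105) (C.ref (nat_lit 4) (nat_lit 62128499218199056)) (C.cons (nat_lit 14977) (C.ref (nat_lit 4) (nat_lit 62128430767157776)) (C.cons (nat_lit 14913) (C.ref (nat_lit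 4) (nat_lit 62128362064458256)) (C.cons (nat_lit 14881) (C.ref (nat_lit 4) (nat_lit 62128293346030096)) (C.cons (nat_lit 14865) (C.ref (nat_lit 4) (nat_lit 62128224626618896)) (C.cons (nat_lit 14857) (C.ref (nat_lit 4) (nat_lit 62128155907146256)) (C.cons (nat_lit 14853) (C.ref (nat_lit 4) (nat_lit 62128087187669776)) (C.cons (nat_lit 14851) (C.ref (nat_lit 4) (nat_lit 62128018468193056)) (C.cons (nat_lit 14721) (C.ref (nat_lit 4) (nat_lit 62127331523965456)) (C.cons (nat_lit 14657) (C.ref (nat_lit 4) (nat_lit 62127262821265936)) (C.cons (nat_lit 14625) (C.ref (nat_lit 4) (nat_lit 62127194102837776)) (C.cons (nat_lit 14609) (C.ref (nat_lit 4) (nat_lit 62127125383426576)) (C.cons (nat_lit 14601) (C.ref (nat_lit 4) (nat_lit 62127056663953936)) (C.cons (nat_lit 14597) (C.ref (nat_lit 4) (nat_lit 62126987944477456)) (C.cons (nat_lit 14595) (C.ref (nat_lit 4) (nat_lit 62126919225000736)) (C.cons (nat_lit 14529) (C.ref (nat_lit 4) (nat_lit 62126163326415376)) (C.cons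 (nat_lit 14497) (C.ref (nat_lit 4) (nat_lit 62126094607987216)) (C.cons (nat_lit 14481) (C.ref (nat_lit 4) (nat_lit 62126025888576016)) (C.cons (nat_lit 14473) (C.ref (nat_lit 4) (nat_lit 62125957169103376)) (C.cons (nat_lit 14469) (C.ref (nat_lit 4) (nat_lit 62125888449626896)) (C.cons (nat_lit 14467) (C.ref (nat_lit 4) (nat_lit 62125819730150176)) (C.cons (nat_lit 14433) (C.ref (nat_lit 4) (nat_lit 62124995097408016)) (C.cons (nat_lit 14417) (C.ref (nat_lit 4) (nat_lit 62124926377996816)) (C.cons (nat_lit 14409) (C.ref (nat_lit 4) (nat_lit 62124857658524176)) (C.cons (nat_lit 14405) (C.ref (nat_lit 4) (nat_lit 62124788939047696)) (C.cons (nat_lit 14403) (C.ref (nat_lit 4) (nat_lit 62124720219570976)) (C.cons (nat_lit 14385) (C.ref (nat_lit 4) (nat_lit 62123826866434576)) (C.cons (nat_lit 14377) (C.ref (nat_lit 4) (nat_lit 62123758146961936)) (C.cons (nat_lit 14373) (C.ref (nat_lit 4) (nat_lit 62123689427485456)) (C.cons (nat_lit 14371) (C.ref (nat_lit 4) (nat_lit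 62123620708008736)) (C.cons (nat_lit 14361) (C.ref (nat_lit 4) (nat_lit 62122658635338256)) (C.cons (nat_lit 14357) (C.ref (nat_lit 4) (nat_lit 62122589915861776)) (C.cons (nat_lit 14355) (C.ref (nat_lit 4) (nat_lit 62122521196385056)) (C.cons (nat_lit 14349) (C.ref (nat_lit 4) (nat_lit 62121490404234256)) (C.cons (nat_lit 14347) (C.ref (nat_lit 4) (nat_lit 62121421684757536)) (C.cons (nat_lit 14343) (C.ref (nat_lit 4) (nat_lit 62120322173129776)) (C.cons (nat_lit 14081) (C.ref (nat_lit 4) (nat_lit 62110911327121936)) (C.cons (nat_lit 13953) (C.ref (nat_lit 4) (nat_lit 62110842876080656)) (C.cons (nat_lit 13889) (C.ref (nat_lit 4) (nat_lit 62110774173381136)) (C.cons (nat_lit 13857) (C.ref (nat_lit 4) (nat_lit 62110705454952976)) (C.cons (nat_lit 13841) (C.ref (nat_lit 4) (nat_lit 62110636735541776)) (C.cons (nat_lit 13833) (C.ref (nat_lit 4) (nat_lit 62110568016069136)) (C.cons (nat_lit 13829) (C.ref (nat_lit 4) (nat_lit 62110499296592656)) (C.cons (nat_lit 13827)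 (C.ref (nat_lit 4) (nat_lit 62110430577115936)) (C.cons (nat_lit 13697) (C.ref (nat_lit 4) (nat_lit 62109743632888336)) (C.cons (nat_lit 13633) (C.ref (nat_lit 4) (nat_lit 62109674930188816))
  (C.cons (nat_lit 13601) (C.ref (nat_lit 4) (nat_lit 62109606211760656)) (C.cons (nat_lit 13585) (C.ref (nat_lit 4) (nat_lit 62109537492349456)) (C.cons (nat_lit 13577) (C.ref (nat_lit 4) (nat_lit 62109468772876816)) (C.cons (nat_lit 13573) (C.ref (nat_lit 4) (nat_lit 62109400053400336)) (C.cons (nat_lit 13571) (C.ref (nat_lit 4) (nat_lit 62109331333923616)) (C.cons (nat_lit 13505) (C.ref (nat_lit 4) (nat_lit 62108575435338256)) (C.cons (nat_lit 13473) (C.ref (nat_lit 4) (nat_lit 62108506716910096)) (C.cons (nat_lit 13457) (C.ref (nat_lit 4) (nat_lit 62108437997498896)) (C.cons (nat_lit 13449) (C.ref (nat_lit 4) (nat_lit 62108369278026256)) (C.cons (nat_lit 13445) (C.ref (nat_lit 4) (nat_lit 62108300558549776)) (C.cons (nat_lit 13443) (C.ref (nat_lit 4) (nat_lit 62108231839073056))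 (C.cons (nat_lit 13409) (C.ref (nat_lit 4) (nat_lit 62107407206330896)) (C.cons (nat_lit 13393) (C.ref (nat_lit 4) (nat_lit 62107338486919696)) (C.cons (nat_lit 13385) (C.ref (nat_lit 4) (nat_lit 62107269767447056)) (C.cons (nat_lit 13381) (C.ref (nat_lit 4) (nat_lit 62107201047970576)) (C.cons (nat_lit 13379) (C.ref (nat_lit 4) (nat_lit 62107132328493856)) (C.cons (nat_lit 13361) (C.ref (nat_lit 4) (nat_lit 62106238975357456)) (C.cons (nat_lit 13353) (C.ref (nat_lit 4) (nat_lit 62106170255884816)) (C.cons (nat_lit 13349) (C.ref (nat_lit 4) (nat_lit 62106101536408336)) (C.cons (nat_lit 13347) (C.ref (nat_lit 4) (nat_lit 62106032816931616)) (C.cons (nat_lit 13337) (C.ref (nat_lit 4) (nat_lit 62105070744261136)) (C.cons (nat_lit 13333) (C.ref (nat_lit 4) (nat_lit 62105002024784656)) (C.cons (nat_lit 13331) (C.ref (nat_lit 4) (nat_lit 62104933305307936)) (C.cons (nat_lit 13325) (C.ref (nat_lit 4) (nat_lit 62103902513157136)) (C.cons (nat_lit 13323) (C.ref (nat_lit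 4) (nat_lit 62103833793680416)) (C.cons (nat_lit 13319) (C.ref (nat_lit 4) (nat_lit 62102734282052656)) (C.cons (nat_lit 13185) (C.ref (nat_lit 4) (nat_lit 62092151715279376)) (C.cons (nat_lit 13121) (C.ref (nat_lit 4) (nat_lit 62092083012579856)) (C.cons (nat_lit 13089) (C.ref (nat_lit 4) (nat_lit 62092014294151696)) (C.cons (nat_lit 13073) (C.ref (nat_lit 4) (nat_lit 62091945574740496)) (C.cons (nat_lit 13065) (C.ref (nat_lit 4) (nat_lit 62091876855267856)) (C.cons (nat_lit 13061) (C.ref (nat_lit 4) (nat_lit 62091808135791376)) (C.cons (nat_lit 13059) (C.ref (nat_lit 4) (nat_lit 62091739416314656)) (C.cons (nat_lit 12993) (C.ref (nat_lit 4) (nat_lit 62090983517729296)) (C.cons (nat_lit 12961) (C.ref (nat_lit 4) (nat_lit 62090914799301136)) (C.cons (nat_lit 12945) (C.ref (nat_lit 4) (nat_lit 62090846079889936)) (C.cons (nat_lit 12937) (C.ref (nat_lit 4) (nat_lit 62090777360417296)) (C.cons (nat_lit 12933) (C.ref (nat_lit 4) (nat_lit 62090708640940816)) (C.cons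 (nat_lit 12931) (C.ref (nat_lit 4) (nat_lit 62090639921464096)) (C.cons (nat_lit 12897) (C.ref (nat_lit 4) (nat_lit 62089815288721936)) (C.cons (nat_lit 12881) (C.ref (nat_lit 4) (nat_lit 62089746569310736)) (C.cons (nat_lit 12873) (C.ref (nat_lit 4) (nat_lit 62089677849838096)) (C.cons (nat_lit 12869) (C.ref (nat_lit 4) (nat_lit 62089609130361616)) (C.cons (nat_lit 12867) (C.ref (nat_lit 4) (nat_lit 62089540410884896)) (C.cons (nat_lit 12849) (C.ref (nat_lit 4) (nat_lit 62088647057748496)) (C.cons (nat_lit 12841) (C.ref (nat_lit 4) (nat_lit 62088578338275856)) (C.cons (nat_lit 12837) (C.ref (nat_lit 4) (nat_lit 62088509618799376)) (C.cons (nat_lit 12835) (C.ref (nat_lit 4) (nat_lit 62088440899322656)) (C.cons (nat_lit 12825) (C.ref (nat_lit 4) (nat_lit 62087478826652176)) (C.cons (nat_lit 12821) (C.ref (nat_lit 4) (nat_lit 62087410107175696)) (C.cons (nat_lit 12819) (C.ref (nat_lit 4) (nat_lit 62087341387698976)) (C.cons (nat_lit 12813) (C.ref (nat_lit 4) (nat_lit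 62086310595548176)) (C.cons (nat_lit 12811) (C.ref (nat_lit 4) (nat_lit 62086241876071456)) (C.cons (nat_lit 12807) (C.ref (nat_lit 4) (nat_lit 62085142364443696)) (C.cons (nat_lit 12737) (C.ref (nat_lit 4) (nat_lit 62073391348462096)) (C.cons (nat_lit 12705)
  (C.ref (nat_lit 4) (nat_lit 62073322630033936)) (C.cons (nat_lit 12689) (C.ref (nat_lit 4) (nat_lit 62073253910622736)) (C.cons (nat_lit 12681) (C.ref (nat_lit 4) (nat_lit 62073185191150096)) (C.cons (nat_lit 12677) (C.ref (nat_lit 4) (nat_lit 62073116471673616)) (C.cons (nat_lit 12675) (C.ref (nat_lit 4) (nat_lit 62073047752196896)) (C.cons (nat_lit 12641) (C.ref (nat_lit 4) (nat_lit 62072223119454736)) (C.cons (nat_lit 12625) (C.ref (nat_lit 4) (nat_lit 62072154400043536)) (C.cons (nat_lit 12617) (C.ref (nat_lit 4) (nat_lit 62072085680570896)) (C.cons (nat_lit 12613) (C.ref (nat_lit 4) (nat_lit 62072016961094416)) (C.cons (nat_lit 12611) (C.ref (nat_lit 4) (nat_lit 62071948241617696)) (C.cons (nat_lit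 12593) (C.ref (nat_lit 4) (nat_lit 62071054888481296)) (C.cons (nat_lit 12585) (C.ref (nat_lit 4) (nat_lit 62070986169008656)) (C.cons (nat_lit 12581) (C.ref (nat_lit 4) (nat_lit 62070917449532176)) (C.cons (nat_lit 12579) (C.ref (nat_lit 4) (nat_lit 62070848730055456)) (C.cons (nat_lit 12569) (C.ref (nat_lit 4) (nat_lit 62069886657384976)) (C.cons (nat_lit 12565) (C.ref (nat_lit 4) (nat_lit 62069817937908496)) (C.cons (nat_lit 12563) (C.ref (nat_lit 4) (nat_lit 62069749218431776)) (C.cons (nat_lit 12557) (C.ref (nat_lit 4) (nat_lit 62068718426280976)) (C.cons (nat_lit 12555) (C.ref (nat_lit 4) (nat_lit 62068649706804256)) (C.cons (nat_lit 12551) (C.ref (nat_lit 4) (nat_lit 62067550195176496)) (C.cons (nat_lit 12513) (C.ref (nat_lit 4) (nat_lit 62054630934458896)) (C.cons (nat_lit 12497) (C.ref (nat_lit 4) (nat_lit 62054562215047696)) (C.cons (nat_lit 12489) (C.ref (nat_lit 4) (nat_lit 62054493495575056)) (C.cons (nat_lit 12485) (C.ref (nat_lit 4) (nat_lit 62054424776098576))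 (C.cons (nat_lit 12483) (C.ref (nat_lit 4) (nat_lit 62054356056621856)) (C.cons (nat_lit 12465) (C.ref (nat_lit 4) (nat_lit 62053462703485456)) (C.cons (nat_lit 12457) (C.ref (nat_lit 4) (nat_lit 62053393984012816)) (C.cons (nat_lit 12453) (C.ref (nat_lit 4) (nat_lit 62053325264536336)) (C.cons (nat_lit 12451) (C.ref (nat_lit 4) (nat_lit 62053256545059616)) (C.cons (nat_lit 12441) (C.ref (nat_lit 4) (nat_lit 62052294472389136)) (C.cons (nat_lit 12437) (C.ref (nat_lit 4) (nat_lit 62052225752912656)) (C.cons (nat_lit 12435) (C.ref (nat_lit 4) (nat_lit 62052157033435936)) (C.cons (nat_lit 12429) (C.ref (nat_lit 4) (nat_lit 62051126241285136)) (C.cons (nat_lit 12427) (C.ref (nat_lit 4) (nat_lit 62051057521808416)) (C.cons (nat_lit 12423) (C.ref (nat_lit 4) (nat_lit 62049958010180656)) (C.cons (nat_lit 12401) (C.ref (nat_lit 4) (nat_lit 62035870517506576)) (C.cons (nat_lit 12393) (C.ref (nat_lit 4) (nat_lit 62035801798033936)) (C.cons (nat_lit 12389) (C.ref (nat_lit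 4) (nat_lit 62035733078557456)) (C.cons (nat_lit 12387) (C.ref (nat_lit 4) (nat_lit 62035664359080736)) (C.cons (nat_lit 12377) (C.ref (nat_lit 4) (nat_lit 62034702286410256)) (C.cons (nat_lit 12373) (C.ref (nat_lit 4) (nat_lit 62034633566933776)) (C.cons (nat_lit 12371) (C.ref (nat_lit 4) (nat_lit 62034564847457056)) (C.cons (nat_lit 12365) (C.ref (nat_lit 4) (nat_lit 62033534055306256)) (C.cons (nat_lit 12363) (C.ref (nat_lit 4) (nat_lit 62033465335829536)) (C.cons (nat_lit 12359) (C.ref (nat_lit 4) (nat_lit 62032365824201776)) (C.cons (nat_lit 12345) (C.ref (nat_lit 4) (nat_lit 62017110100369936)) (C.cons (nat_lit 12341) (C.ref (nat_lit 4) (nat_lit 62017041380893456)) (C.cons (nat_lit 12339) (C.ref (nat_lit 4) (nat_lit 62016972661416736)) (C.cons (nat_lit 12333) (C.ref (nat_lit 4) (nat_lit 62015941869265936)) (C.cons (nat_lit 12331) (C.ref (nat_lit 4) (nat_lit 62015873149789216)) (C.cons (nat_lit 12327) (C.ref (nat_lit 4) (nat_lit 62014773638161456)) (C.cons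 (nat_lit 12317) (C.ref (nat_lit 4) (nat_lit 61998349683221776)) (C.cons (nat_lit 12315) (C.ref (nat_lit 4) (nat_lit 61998280963745056)) (C.cons (nat_lit 12311) (C.ref (nat_lit 4) (nat_lit 61997181452117296)) (C.cons (nat_lit 12303) (C.ref (nat_lit 4) (nat_lit 61979589266072896)) (C.cons (nat_lit 12033)
  (C.ref (nat_lit 4) (nat_lit 61829440645378576)) (C.cons (nat_lit 11905) (C.ref (nat_lit 4) (nat_lit 61829372194337296)) (C.cons (nat_lit 11841) (C.ref (nat_lit 4) (nat_lit 61829303491637776)) (C.cons (nat_lit 11809) (C.ref (nat_lit 4) (nat_lit 61829234773209616)) (C.cons (nat_lit 11793) (C.ref (nat_lit 4) (nat_lit 61829166053798416)) (C.cons (nat_lit 11785) (C.ref (nat_lit 4) (nat_lit 61829097334325776)) (C.cons (nat_lit 11781) (C.ref (nat_lit 4) (nat_lit 61829028614849296)) (C.cons (nat_lit 11779) (C.ref (nat_lit 4) (nat_lit 61828959895372576)) (C.cons (nat_lit 11649) (C.ref (nat_lit 4) (nat_lit 61828272951144976)) (C.cons (nat_lit 11585) (C.ref (nat_lit 4) (nat_lit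 61828204248445456)) (C.cons (nat_lit 11553) (C.ref (nat_lit 4) (nat_lit 61828135530017296)) (C.cons (nat_lit 11537) (C.ref (nat_lit 4) (nat_lit 61828066810606096)) (C.cons (nat_lit 11529) (C.ref (nat_lit 4) (nat_lit 61827998091133456)) (C.cons (nat_lit 11525) (C.ref (nat_lit 4) (nat_lit 61827929371656976)) (C.cons (nat_lit 11523) (C.ref (nat_lit 4) (nat_lit 61827860652180256)) (C.cons (nat_lit 11457) (C.ref (nat_lit 4) (nat_lit 61827104753594896)) (C.cons (nat_lit 11425) (C.ref (nat_lit 4) (nat_lit 61827036035166736)) (C.cons (nat_lit 11409) (C.ref (nat_lit 4) (nat_lit 61826967315755536)) (C.cons (nat_lit 11401) (C.ref (nat_lit 4) (nat_lit 61826898596282896)) (C.cons (nat_lit 11397) (C.ref (nat_lit 4) (nat_lit 61826829876806416)) (C.cons (nat_lit 11395) (C.ref (nat_lit 4) (nat_lit 61826761157329696)) (C.cons (nat_lit 11361) (C.ref (nat_lit 4) (nat_lit 61825936524587536)) (C.cons (nat_lit 11345) (C.ref (nat_lit 4) (nat_lit 61825867805176336)) (C.cons (nat_lit 11337)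 (C.ref (nat_lit 4) (nat_lit 61825799085703696)) (C.cons (nat_lit 11333) (C.ref (nat_lit 4) (nat_lit 61825730366227216)) (C.cons (nat_lit 11331) (C.ref (nat_lit 4) (nat_lit 61825661646750496)) (C.cons (nat_lit 11313) (C.ref (nat_lit 4) (nat_lit 61824768293614096)) (C.cons (nat_lit 11305) (C.ref (nat_lit 4) (nat_lit 61824699574141456)) (C.cons (nat_lit 11301) (C.ref (nat_lit 4) (nat_lit 61824630854664976)) (C.cons (nat_lit 11299) (C.ref (nat_lit 4) (nat_lit 61824562135188256)) (C.cons (nat_lit 11289) (C.ref (nat_lit 4) (nat_lit 61823600062517776)) (C.cons (nat_lit 11285) (C.ref (nat_lit 4) (nat_lit 61823531343041296)) (C.cons (nat_lit 11283) (C.ref (nat_lit 4) (nat_lit 61823462623564576)) (C.cons (nat_lit 11277) (C.ref (nat_lit 4) (nat_lit 61822431831413776)) (C.cons (nat_lit 11275) (C.ref (nat_lit 4) (nat_lit 61822363111937056)) (C.cons (nat_lit 11271) (C.ref (nat_lit 4) (nat_lit 61821263600309296)) (C.cons (nat_lit 11137) (C.ref (nat_lit 4) (nat_lit 61810681033536016))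 (C.cons (nat_lit 11073) (C.ref (nat_lit 4) (nat_lit 61810612330836496)) (C.cons (nat_lit 11041) (C.ref (nat_lit 4) (nat_lit 61810543612408336)) (C.cons (nat_lit 11025) (C.ref (nat_lit 4) (nat_lit 61810474892997136)) (C.cons (nat_lit 11017) (C.ref (nat_lit 4) (nat_lit 61810406173524496)) (C.cons (nat_lit 11013) (C.ref (nat_lit 4) (nat_lit 61810337454048016)) (C.cons (nat_lit 11011) (C.ref (nat_lit 4) (nat_lit 61810268734571296)) (C.cons (nat_lit 10945) (C.ref (nat_lit 4) (nat_lit 61809512835985936)) (C.cons (nat_lit 10913) (C.ref (nat_lit 4) (nat_lit 61809444117557776)) (C.cons (nat_lit 10897) (C.ref (nat_lit 4) (nat_lit 61809375398146576)) (C.cons (nat_lit 10889) (C.ref (nat_lit 4) (nat_lit 61809306678673936)) (C.cons (nat_lit 10885) (C.ref (nat_lit 4) (nat_lit 61809237959197456)) (C.cons (nat_lit 10883) (C.ref (nat_lit 4) (nat_lit 61809169239720736)) (C.cons (nat_lit 10849) (C.ref (nat_lit 4) (nat_lit 61808344606978576)) (C.cons (nat_lit 10833) (C.ref (nat_lit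 4) (nat_lit 61808275887567376)) (C.cons (nat_lit 10825) (C.ref (nat_lit 4) (nat_lit 61808207168094736)) (C.cons (nat_lit 10821) (C.ref (nat_lit 4) (nat_lit 61808138448618256)) (C.cons (nat_lit 10819) (C.ref (nat_lit 4) (nat_lit 61808069729141536)) (C.cons (nat_lit 10801) (C.ref (nat_lit 4) (nat_lit 61807176376005136)) (C.cons (nat_lit 10793)
  (C.ref (nat_lit 4) (nat_lit 61807107656532496)) (C.cons (nat_lit 10789) (C.ref (nat_lit 4) (nat_lit 61807038937056016)) (C.cons (nat_lit 10787) (C.ref (nat_lit 4) (nat_lit 61806970217579296)) (C.cons (nat_lit 10777) (C.ref (nat_lit 4) (nat_lit 61806008144908816)) (C.cons (nat_lit 10773) (C.ref (nat_lit 4) (nat_lit 61805939425432336)) (C.cons (nat_lit 10771) (C.ref (nat_lit 4) (nat_lit 61805870705955616)) (C.cons (nat_lit 10765) (C.ref (nat_lit 4) (nat_lit 61804839913804816)) (C.cons (nat_lit 10763) (C.ref (nat_lit 4) (nat_lit 61804771194328096)) (C.cons (nat_lit 10759) (C.ref (nat_lit 4) (nat_lit 61803671682700336)) (C.cons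 (nat_lit 10689) (C.ref (nat_lit 4) (nat_lit 61791920666718736)) (C.cons (nat_lit 10657) (C.ref (nat_lit 4) (nat_lit 61791851948290576)) (C.cons (nat_lit 10641) (C.ref (nat_lit 4) (nat_lit 61791783228879376)) (C.cons (nat_lit 10633) (C.ref (nat_lit 4) (nat_lit 61791714509406736)) (C.cons (nat_lit 10629) (C.ref (nat_lit 4) (nat_lit 61791645789930256)) (C.cons (nat_lit 10627) (C.ref (nat_lit 4) (nat_lit 61791577070453536)) (C.cons (nat_lit 10593) (C.ref (nat_lit 4) (nat_lit 61790752437711376)) (C.cons (nat_lit 10577) (C.ref (nat_lit 4) (nat_lit 61790683718300176)) (C.cons (nat_lit 10569) (C.ref (nat_lit 4) (nat_lit 61790614998827536)) (C.cons (nat_lit 10565) (C.ref (nat_lit 4) (nat_lit 61790546279351056)) (C.cons (nat_lit 10563) (C.ref (nat_lit 4) (nat_lit 61790477559874336)) (C.cons (nat_lit 10545) (C.ref (nat_lit 4) (nat_lit 61789584206737936)) (C.cons (nat_lit 10537) (C.ref (nat_lit 4) (nat_lit 61789515487265296)) (C.cons (nat_lit 10533) (C.ref (nat_lit 4) (nat_lit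 61789446767788816)) (C.cons (nat_lit 10531) (C.ref (nat_lit 4) (nat_lit 61789378048312096)) (C.cons (nat_lit 10521) (C.ref (nat_lit 4) (nat_lit 61788415975641616)) (C.cons (nat_lit 10517) (C.ref (nat_lit 4) (nat_lit 61788347256165136)) (C.cons (nat_lit 10515) (C.ref (nat_lit 4) (nat_lit 61788278536688416)) (C.cons (nat_lit 10509) (C.ref (nat_lit 4) (nat_lit 61787247744537616)) (C.cons (nat_lit 10507) (C.ref (nat_lit 4) (nat_lit 61787179025060896)) (C.cons (nat_lit 10503) (C.ref (nat_lit 4) (nat_lit 61786079513433136)) (C.cons (nat_lit 10465) (C.ref (nat_lit 4) (nat_lit 61773160252715536)) (C.cons (nat_lit 10449) (C.ref (nat_lit 4) (nat_lit 61773091533304336)) (C.cons (nat_lit 10441) (C.ref (nat_lit 4) (nat_lit 61773022813831696)) (C.cons (nat_lit 10437) (C.ref (nat_lit 4) (nat_lit 61772954094355216)) (C.cons (nat_lit 10435) (C.ref (nat_lit 4) (nat_lit 61772885374878496)) (C.cons (nat_lit 10417) (C.ref (nat_lit 4) (nat_lit 61771992021742096)) (C.cons (nat_lit 10409)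 (C.ref (nat_lit 4) (nat_lit 61771923302269456)) (C.cons (nat_lit 10405) (C.ref (nat_lit 4) (nat_lit 61771854582792976)) (C.cons (nat_lit 10403) (C.ref (nat_lit 4) (nat_lit 61771785863316256)) (C.cons (nat_lit 10393) (C.ref (nat_lit 4) (nat_lit 61770823790645776)) (C.cons (nat_lit 10389) (C.ref (nat_lit 4) (nat_lit 61770755071169296)) (C.cons (nat_lit 10387) (C.ref (nat_lit 4) (nat_lit 61770686351692576)) (C.cons (nat_lit 10381) (C.ref (nat_lit 4) (nat_lit 61769655559541776)) (C.cons (nat_lit 10379) (C.ref (nat_lit 4) (nat_lit 61769586840065056)) (C.cons (nat_lit 10375) (C.ref (nat_lit 4) (nat_lit 61768487328437296)) (C.cons (nat_lit 10353) (C.ref (nat_lit 4) (nat_lit 61754399835763216)) (C.cons (nat_lit 10345) (C.ref (nat_lit 4) (nat_lit 61754331116290576)) (C.cons (nat_lit 10341) (C.ref (nat_lit 4) (nat_lit 61754262396814096)) (C.cons (nat_lit 10339) (C.ref (nat_lit 4) (nat_lit 61754193677337376)) (C.cons (nat_lit 10329) (C.ref (nat_lit 4) (nat_lit 61753231604666896))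 (C.cons (nat_lit 10325) (C.ref (nat_lit 4) (nat_lit 61753162885190416)) (C.cons (nat_lit 10323) (C.ref (nat_lit 4) (nat_lit 61753094165713696)) (C.cons (nat_lit 10317) (C.ref (nat_lit 4) (nat_lit 61752063373562896)) (C.cons (nat_lit 10315) (C.ref (nat_lit 4) (nat_lit 61751994654086176)) (C.cons (nat_lit 10311) (C.ref (nat_lit 4) (nat_lit 61750895142458416)) (C.cons (nat_lit 10297)
  (C.ref (nat_lit 4) (nat_lit 61735639418626576)) (C.cons (nat_lit 10293) (C.ref (nat_lit 4) (nat_lit 61735570699150096)) (C.cons (nat_lit 10291) (C.ref (nat_lit 4) (nat_lit 61735501979673376)) (C.cons (nat_lit 10285) (C.ref (nat_lit 4) (nat_lit 61734471187522576)) (C.cons (nat_lit 10283) (C.ref (nat_lit 4) (nat_lit 61734402468045856)) (C.cons (nat_lit 10279) (C.ref (nat_lit 4) (nat_lit 61733302956418096)) (C.cons (nat_lit 10269) (C.ref (nat_lit 4) (nat_lit 61716879001478416)) (C.cons (nat_lit 10267) (C.ref (nat_lit 4) (nat_lit 61716810282001696)) (C.cons (nat_lit 10263) (C.ref (nat_lit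 4) (nat_lit 61715710770373936)) (C.cons (nat_lit 10255) (C.ref (nat_lit 4) (nat_lit 61698118584329536)) (C.cons (nat_lit 10113) (C.ref (nat_lit 4) (nat_lit 61529206325260816)) (C.cons (nat_lit 10049) (C.ref (nat_lit 4) (nat_lit 61529137622561296)) (C.cons (nat_lit 10017) (C.ref (nat_lit 4) (nat_lit 61529068904133136)) (C.cons (nat_lit 10001) (C.ref (nat_lit 4) (nat_lit 61529000184721936)) (C.cons (nat_lit 9993) (C.ref (nat_lit 4) (nat_lit 61528931465249296)) (C.cons (nat_lit 9989) (C.ref (nat_lit 4) (nat_lit 61528862745772816)) (C.cons (nat_lit 9987) (C.ref (nat_lit 4) (nat_lit 61528794026296096)) (C.cons (nat_lit 9921) (C.ref (nat_lit 4) (nat_lit 61528038127710736)) (C.cons (nat_lit 9889) (C.ref (nat_lit 4) (nat_lit 61527969409282576)) (C.cons (nat_lit 9873) (C.ref (nat_lit 4) (nat_lit 61527900689871376)) (C.cons (nat_lit 9865) (C.ref (nat_lit 4) (nat_lit 61527831970398736)) (C.cons (nat_lit 9861) (C.ref (nat_lit 4) (nat_lit 61527763250922256)) (C.cons (nat_lit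 9859) (C.ref (nat_lit 4) (nat_lit 61527694531445536)) (C.cons (nat_lit 9825) (C.ref (nat_lit 4) (nat_lit 61526869898703376)) (C.cons (nat_lit 9809) (C.ref (nat_lit 4) (nat_lit 61526801179292176)) (C.cons (nat_lit 9801) (C.ref (nat_lit 4) (nat_lit 61526732459819536)) (C.cons (nat_lit 9797) (C.ref (nat_lit 4) (nat_lit 61526663740343056)) (C.cons (nat_lit 9795) (C.ref (nat_lit 4) (nat_lit 61526595020866336)) (C.cons (nat_lit 9777) (C.ref (nat_lit 4) (nat_lit 61525701667729936)) (C.cons (nat_lit 9769) (C.ref (nat_lit 4) (nat_lit 61525632948257296)) (C.cons (nat_lit 9765) (C.ref (nat_lit 4) (nat_lit 61525564228780816)) (C.cons (nat_lit 9763) (C.ref (nat_lit 4) (nat_lit 61525495509304096)) (C.cons (nat_lit 9753) (C.ref (nat_lit 4) (nat_lit 61524533436633616)) (C.cons (nat_lit 9749) (C.ref (nat_lit 4) (nat_lit 61524464717157136)) (C.cons (nat_lit 9747) (C.ref (nat_lit 4) (nat_lit 61524395997680416)) (C.cons (nat_lit 9741) (C.ref (nat_lit 4) (nat_lit 61523365205529616))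 (C.cons (nat_lit 9739) (C.ref (nat_lit 4) (nat_lit 61523296486052896)) (C.cons (nat_lit 9735) (C.ref (nat_lit 4) (nat_lit 61522196974425136)) (C.cons (nat_lit 9665) (C.ref (nat_lit 4) (nat_lit 61510445958443536)) (C.cons (nat_lit 9633) (C.ref (nat_lit 4) (nat_lit 61510377240015376)) (C.cons (nat_lit 9617) (C.ref (nat_lit 4) (nat_lit 61510308520604176)) (C.cons (nat_lit 9609) (C.ref (nat_lit 4) (nat_lit 61510239801131536)) (C.cons (nat_lit 9605) (C.ref (nat_lit 4) (nat_lit 61510171081655056)) (C.cons (nat_lit 9603) (C.ref (nat_lit 4) (nat_lit 61510102362178336)) (C.cons (nat_lit 9569) (C.ref (nat_lit 4) (nat_lit 61509277729436176)) (C.cons (nat_lit 9553) (C.ref (nat_lit 4) (nat_lit 61509209010024976)) (C.cons (nat_lit 9545) (C.ref (nat_lit 4) (nat_lit 61509140290552336)) (C.cons (nat_lit 9541) (C.ref (nat_lit 4) (nat_lit 61509071571075856)) (C.cons (nat_lit 9539) (C.ref (nat_lit 4) (nat_lit 61509002851599136)) (C.cons (nat_lit 9521) (C.ref (nat_lit 4) (nat_lit 61508109498462736))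 (C.cons (nat_lit 9513) (C.ref (nat_lit 4) (nat_lit 61508040778990096)) (C.cons (nat_lit 9509) (C.ref (nat_lit 4) (nat_lit 61507972059513616)) (C.cons (nat_lit 9507) (C.ref (nat_lit 4) (nat_lit 61507903340036896)) (C.cons (nat_lit 9497) (C.ref (nat_lit 4) (nat_lit 61506941267366416)) (C.cons (nat_lit 9493) (C.ref (nat_lit 4) (nat_lit 61506872547889936)) (C.cons (nat_lit 9491) (C.ref (nat_lit 4) (nat_lit 61506803828413216)) (C.cons (nat_lit 9485)
  (C.ref (nat_lit 4) (nat_lit 61505773036262416)) (C.cons (nat_lit 9483) (C.ref (nat_lit 4) (nat_lit 61505704316785696)) (C.cons (nat_lit 9479) (C.ref (nat_lit 4) (nat_lit 61504604805157936)) (C.cons (nat_lit 9441) (C.ref (nat_lit 4) (nat_lit 61491685544440336)) (C.cons (nat_lit 9425) (C.ref (nat_lit 4) (nat_lit 61491616825029136)) (C.cons (nat_lit 9417) (C.ref (nat_lit 4) (nat_lit 61491548105556496)) (C.cons (nat_lit 9413) (C.ref (nat_lit 4) (nat_lit 61491479386080016)) (C.cons (nat_lit 9411) (C.ref (nat_lit 4) (nat_lit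 61491410666603296)) (C.cons (nat_lit 9393) (C.ref (nat_lit 4) (nat_lit 61490517313466896)) (C.cons (nat_lit 9385) (C.ref (nat_lit 4) (nat_lit 61490448593994256)) (C.cons (nat_lit 9381) (C.ref (nat_lit 4) (nat_lit 61490379874517776)) (C.cons (nat_lit 9379) (C.ref (nat_lit 4) (nat_lit 61490311155041056)) (C.cons (nat_lit 9369) (C.ref (nat_lit 4) (nat_lit 61489349082370576)) (C.cons (nat_lit 9365) (C.ref (nat_lit 4) (nat_lit 61489280362894096)) (C.cons (nat_lit 9363) (C.ref (nat_lit 4) (nat_lit 61489211643417376)) (C.cons (nat_lit 9357) (C.ref (nat_lit 4) (nat_lit 61488180851266576)) (C.cons (nat_lit 9355) (C.ref (nat_lit 4) (nat_lit 61488112131789856)) (C.cons (nat_lit 9351) (C.ref (nat_lit 4) (nat_lit 61487012620162096)) (C.cons (nat_lit 9329) (C.ref (nat_lit 4) (nat_lit 61472925127488016)) (C.cons (nat_lit 9321) (C.ref (nat_lit 4) (nat_lit 61472856408015376)) (C.cons (nat_lit 9317) (C.ref (nat_lit 4) (nat_lit 61472787688538896)) (C.cons (nat_lit 9315) (C.ref (nat_lit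 4) (nat_lit 61472718969062176)) (C.cons (nat_lit 9305) (C.ref (nat_lit 4) (nat_lit 61471756896391696)) (C.cons (nat_lit 9301) (C.ref (nat_lit 4) (nat_lit 61471688176915216)) (C.cons (nat_lit 9299) (C.ref (nat_lit 4) (nat_lit 61471619457438496)) (C.cons (nat_lit 9293) (C.ref (nat_lit 4) (nat_lit 61470588665287696)) (C.cons (nat_lit 9291) (C.ref (nat_lit 4) (nat_lit 61470519945810976)) (C.cons (nat_lit 9287) (C.ref (nat_lit 4) (nat_lit 61469420434183216)) (C.cons (nat_lit 9273) (C.ref (nat_lit 4) (nat_lit 61454164710351376)) (C.cons (nat_lit 9269) (C.ref (nat_lit 4) (nat_lit 61454095990874896)) (C.cons (nat_lit 9267) (C.ref (nat_lit 4) (nat_lit 61454027271398176)) (C.cons (nat_lit 9261) (C.ref (nat_lit 4) (nat_lit 61452996479247376)) (C.cons (nat_lit 9259) (C.ref (nat_lit 4) (nat_lit 61452927759770656)) (C.cons (nat_lit 9255) (C.ref (nat_lit 4) (nat_lit 61451828248142896)) (C.cons (nat_lit 9245) (C.ref (nat_lit 4) (nat_lit 61435404293203216)) (C.cons (nat_lit 9243)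 (C.ref (nat_lit 4) (nat_lit 61435335573726496)) (C.cons (nat_lit 9239) (C.ref (nat_lit 4) (nat_lit 61434236062098736)) (C.cons (nat_lit 9231) (C.ref (nat_lit 4) (nat_lit 61416643876054336)) (C.cons (nat_lit 9153) (C.ref (nat_lit 4) (nat_lit 61228970998510096)) (C.cons (nat_lit 9121) (C.ref (nat_lit 4) (nat_lit 61228902280081936)) (C.cons (nat_lit 9105) (C.ref (nat_lit 4) (nat_lit 61228833560670736)) (C.cons (nat_lit 9097) (C.ref (nat_lit 4) (nat_lit 61228764841198096)) (C.cons (nat_lit 9093) (C.ref (nat_lit 4) (nat_lit 61228696121721616)) (C.cons (nat_lit 9091) (C.ref (nat_lit 4) (nat_lit 61228627402244896)) (C.cons (nat_lit 9057) (C.ref (nat_lit 4) (nat_lit 61227802769502736)) (C.cons (nat_lit 9041) (C.ref (nat_lit 4) (nat_lit 61227734050091536)) (C.cons (nat_lit 9033) (C.ref (nat_lit 4) (nat_lit 61227665330618896)) (C.cons (nat_lit 9029) (C.ref (nat_lit 4) (nat_lit 61227596611142416)) (C.cons (nat_lit 9027) (C.ref (nat_lit 4) (nat_lit 61227527891665696)) (C.cons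 (nat_lit 9009) (C.ref (nat_lit 4) (nat_lit 61226634538529296)) (C.cons (nat_lit 9001) (C.ref (nat_lit 4) (nat_lit 61226565819056656)) (C.cons (nat_lit 8997) (C.ref (nat_lit 4) (nat_lit 61226497099580176)) (C.cons (nat_lit 8995) (C.ref (nat_lit 4) (nat_lit 61226428380103456)) (C.cons (nat_lit 8985) (C.ref (nat_lit 4) (nat_lit 61225466307432976)) (C.cons (nat_lit 8981) (C.ref (nat_lit 4) (nat_lit 61225397587956496)) (C.cons (nat_lit 8979) (C.ref (nat_lit 4) (nat_lit 61225328868479776)) (C.cons (nat_lit 8973)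
  (C.ref (nat_lit 4) (nat_lit 61224298076328976)) (C.cons (nat_lit 8971) (C.ref (nat_lit 4) (nat_lit 61224229356852256)) (C.cons (nat_lit 8967) (C.ref (nat_lit 4) (nat_lit 61223129845224496)) (C.cons (nat_lit 8929) (C.ref (nat_lit 4) (nat_lit 61210210584506896)) (C.cons (nat_lit 8913) (C.ref (nat_lit 4) (nat_lit 61210141865095696)) (C.cons (nat_lit 8905) (C.ref (nat_lit 4) (nat_lit 61210073145623056)) (C.cons (nat_lit 8901) (C.ref (nat_lit 4) (nat_lit 61210004426146576)) (C.cons (nat_lit 8899) (C.ref (nat_lit 4) (nat_lit 61209935706669856)) (C.cons (nat_lit 8881) (C.ref (nat_lit 4) (nat_lit 61209042353533456)) (C.cons (nat_lit 8873) (C.ref (nat_lit 4) (nat_lit 61208973634060816)) (C.cons (nat_lit 8869) (C.ref (nat_lit 4) (nat_lit 61208904914584336)) (C.cons (nat_lit 8867) (C.ref (nat_lit 4) (nat_lit 61208836195107616)) (C.cons (nat_lit 8857) (C.ref (nat_lit 4) (nat_lit 61207874122437136)) (C.cons (nat_lit 8853) (C.ref (nat_lit 4) (nat_lit 61207805402960656)) (C.cons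 (nat_lit 8851) (C.ref (nat_lit 4) (nat_lit 61207736683483936)) (C.cons (nat_lit 8845) (C.ref (nat_lit 4) (nat_lit 61206705891333136)) (C.cons (nat_lit 8843) (C.ref (nat_lit 4) (nat_lit 61206637171856416)) (C.cons (nat_lit 8839) (C.ref (nat_lit 4) (nat_lit 61205537660228656)) (C.cons (nat_lit 8817) (C.ref (nat_lit 4) (nat_lit 61191450167554576)) (C.cons (nat_lit 8809) (C.ref (nat_lit 4) (nat_lit 61191381448081936)) (C.cons (nat_lit 8805) (C.ref (nat_lit 4) (nat_lit 61191312728605456)) (C.cons (nat_lit 8803) (C.ref (nat_lit 4) (nat_lit 61191244009128736)) (C.cons (nat_lit 8793) (C.ref (nat_lit 4) (nat_lit 61190281936458256)) (C.cons (nat_lit 8789) (C.ref (nat_lit 4) (nat_lit 61190213216981776)) (C.cons (nat_lit 8787) (C.ref (nat_lit 4) (nat_lit 61190144497505056)) (C.cons (nat_lit 8781) (C.ref (nat_lit 4) (nat_lit 61189113705354256)) (C.cons (nat_lit 8779) (C.ref (nat_lit 4) (nat_lit 61189044985877536)) (C.cons (nat_lit 8775) (C.ref (nat_lit 4) (nat_lit 61187945474249776))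 (C.cons (nat_lit 8761) (C.ref (nat_lit 4) (nat_lit 61172689750417936)) (C.cons (nat_lit 8757) (C.ref (nat_lit 4) (nat_lit 61172621030941456)) (C.cons (nat_lit 8755) (C.ref (nat_lit 4) (nat_lit 61172552311464736)) (C.cons (nat_lit 8749) (C.ref (nat_lit 4) (nat_lit 61171521519313936)) (C.cons (nat_lit 8747) (C.ref (nat_lit 4) (nat_lit 61171452799837216)) (C.cons (nat_lit 8743) (C.ref (nat_lit 4) (nat_lit 61170353288209456)) (C.cons (nat_lit 8733) (C.ref (nat_lit 4) (nat_lit 61153929333269776)) (C.cons (nat_lit 8731) (C.ref (nat_lit 4) (nat_lit 61153860613793056)) (C.cons (nat_lit 8727) (C.ref (nat_lit 4) (nat_lit 61152761102165296)) (C.cons (nat_lit 8719) (C.ref (nat_lit 4) (nat_lit 61135168916120896)) (C.cons (nat_lit 8673) (C.ref (nat_lit 4) (nat_lit 60928735608844816)) (C.cons (nat_lit 8657) (C.ref (nat_lit 4) (nat_lit 60928666889433616)) (C.cons (nat_lit 8649) (C.ref (nat_lit 4) (nat_lit 60928598169960976)) (C.cons (nat_lit 8645) (C.ref (nat_lit 4) (nat_lit 60928529450484496))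 (C.cons (nat_lit 8643) (C.ref (nat_lit 4) (nat_lit 60928460731007776)) (C.cons (nat_lit 8625) (C.ref (nat_lit 4) (nat_lit 60927567377871376)) (C.cons (nat_lit 8617) (C.ref (nat_lit 4) (nat_lit 60927498658398736)) (C.cons (nat_lit 8613) (C.ref (nat_lit 4) (nat_lit 60927429938922256)) (C.cons (nat_lit 8611) (C.ref (nat_lit 4) (nat_lit 60927361219445536)) (C.cons (nat_lit 8601) (C.ref (nat_lit 4) (nat_lit 60926399146775056)) (C.cons (nat_lit 8597) (C.ref (nat_lit 4) (nat_lit 60926330427298576)) (C.cons (nat_lit 8595) (C.ref (nat_lit 4) (nat_lit 60926261707821856)) (C.cons (nat_lit 8589) (C.ref (nat_lit 4) (nat_lit 60925230915671056)) (C.cons (nat_lit 8587) (C.ref (nat_lit 4) (nat_lit 60925162196194336)) (C.cons (nat_lit 8583) (C.ref (nat_lit 4) (nat_lit 60924062684566576)) (C.cons (nat_lit 8561) (C.ref (nat_lit 4) (nat_lit 60909975191892496)) (C.cons (nat_lit 8553) (C.ref (nat_lit 4) (nat_lit 60909906472419856)) (C.cons (nat_lit 8549) (C.ref (nat_lit 4) (nat_lit 60909837752943376))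 (C.cons (nat_lit 8547)
  (C.ref (nat_lit 4) (nat_lit 60909769033466656)) (C.cons (nat_lit 8537) (C.ref (nat_lit 4) (nat_lit 60908806960796176)) (C.cons (nat_lit 8533) (C.ref (nat_lit 4) (nat_lit 60908738241319696)) (C.cons (nat_lit 8531) (C.ref (nat_lit 4) (nat_lit 60908669521842976)) (C.cons (nat_lit 8525) (C.ref (nat_lit 4) (nat_lit 60907638729692176)) (C.cons (nat_lit 8523) (C.ref (nat_lit 4) (nat_lit 60907570010215456)) (C.cons (nat_lit 8519) (C.ref (nat_lit 4) (nat_lit 60906470498587696)) (C.cons (nat_lit 8505) (C.ref (nat_lit 4) (nat_lit 60891214774755856)) (C.cons (nat_lit 8501) (C.ref (nat_lit 4) (nat_lit 60891146055279376)) (C.cons (nat_lit 8499) (C.ref (nat_lit 4) (nat_lit 60891077335802656)) (C.cons (nat_lit 8493) (C.ref (nat_lit 4) (nat_lit 60890046543651856)) (C.cons (nat_lit 8491) (C.ref (nat_lit 4) (nat_lit 60889977824175136)) (C.cons (nat_lit 8487) (C.ref (nat_lit 4) (nat_lit 60888878312547376)) (C.cons (nat_lit 8477) (C.ref (nat_lit 4) (nat_lit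 60872454357607696)) (C.cons (nat_lit 8475) (C.ref (nat_lit 4) (nat_lit 60872385638130976)) (C.cons (nat_lit 8471) (C.ref (nat_lit 4) (nat_lit 60871286126503216)) (C.cons (nat_lit 8463) (C.ref (nat_lit 4) (nat_lit 60853693940458816)) (C.cons (nat_lit 8433) (C.ref (nat_lit 4) (nat_lit 60628500215247376)) (C.cons (nat_lit 8425) (C.ref (nat_lit 4) (nat_lit 60628431495774736)) (C.cons (nat_lit 8421) (C.ref (nat_lit 4) (nat_lit 60628362776298256)) (C.cons (nat_lit 8419) (C.ref (nat_lit 4) (nat_lit 60628294056821536)) (C.cons (nat_lit 8409) (C.ref (nat_lit 4) (nat_lit 60627331984151056)) (C.cons (nat_lit 8405) (C.ref (nat_lit 4) (nat_lit 60627263264674576)) (C.cons (nat_lit 8403) (C.ref (nat_lit 4) (nat_lit 60627194545197856)) (C.cons (nat_lit 8397) (C.ref (nat_lit 4) (nat_lit 60626163753047056)) (C.cons (nat_lit 8395) (C.ref (nat_lit 4) (nat_lit 60626095033570336)) (C.cons (nat_lit 8391) (C.ref (nat_lit 4) (nat_lit 60624995521942576)) (C.cons (nat_lit 8377) (C.ref (nat_lit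 4) (nat_lit 60609739798110736)) (C.cons (nat_lit 8373) (C.ref (nat_lit 4) (nat_lit 60609671078634256)) (C.cons (nat_lit 8371) (C.ref (nat_lit 4) (nat_lit 60609602359157536)) (C.cons (nat_lit 8365) (C.ref (nat_lit 4) (nat_lit 60608571567006736)) (C.cons (nat_lit 8363) (C.ref (nat_lit 4) (nat_lit 60608502847530016)) (C.cons (nat_lit 8359) (C.ref (nat_lit 4) (nat_lit 60607403335902256)) (C.cons (nat_lit 8349) (C.ref (nat_lit 4) (nat_lit 60590979380962576)) (C.cons (nat_lit 8347) (C.ref (nat_lit 4) (nat_lit 60590910661485856)) (C.cons (nat_lit 8343) (C.ref (nat_lit 4) (nat_lit 60589811149858096)) (C.cons (nat_lit 8335) (C.ref (nat_lit 4) (nat_lit 60572218963813696)) (C.cons (nat_lit 8313) (C.ref (nat_lit 4) (nat_lit 60328264821404176)) (C.cons (nat_lit 8309) (C.ref (nat_lit 4) (nat_lit 60328196101927696)) (C.cons (nat_lit 8307) (C.ref (nat_lit 4) (nat_lit 60328127382450976)) (C.cons (nat_lit 8301) (C.ref (nat_lit 4) (nat_lit 60327096590300176)) (C.cons (nat_lit 8299)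 (C.ref (nat_lit 4) (nat_lit 60327027870823456)) (C.cons (nat_lit 8295) (C.ref (nat_lit 4) (nat_lit 60325928359195696)) (C.cons (nat_lit 8285) (C.ref (nat_lit 4) (nat_lit 60309504404256016)) (C.cons (nat_lit 8283) (C.ref (nat_lit 4) (nat_lit 60309435684779296)) (C.cons (nat_lit 8279) (C.ref (nat_lit 4) (nat_lit 60308336173151536)) (C.cons (nat_lit 8271) (C.ref (nat_lit 4) (nat_lit 60290743987107136)) (C.cons (nat_lit 8253) (C.ref (nat_lit 4) (nat_lit 60028029427545616)) (C.cons (nat_lit 8251) (C.ref (nat_lit 4) (nat_lit 60027960708068896)) (C.cons (nat_lit 8247) (C.ref (nat_lit 4) (nat_lit 60026861196441136)) (C.cons (nat_lit 8239) (C.ref (nat_lit 4) (nat_lit 60009269010396736)) (C.cons (nat_lit 8223) (C.ref (nat_lit 4) (nat_lit 59727794033686096)) (C.cons (nat_lit 7937) (C.ref (nat_lit 4) (nat_lit 57325845312975376)) (C.cons (nat_lit 7809) (C.ref (nat_lit 4) (nat_lit 57325776861934096)) (C.cons (nat_lit 7745) (C.ref (nat_lit 4) (nat_lit 57325708159234576)) (C.cons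 (nat_lit 7713) (C.ref (nat_lit 4) (nat_lit 57325639440806416)) (C.cons (nat_lit 7697)
  (C.ref (nat_lit 4) (nat_lit 57325570721395216)) (C.cons (nat_lit 7689) (C.ref (nat_lit 4) (nat_lit 57325502001922576)) (C.cons (nat_lit 7685) (C.ref (nat_lit 4) (nat_lit 57325433282446096)) (C.cons (nat_lit 7683) (C.ref (nat_lit 4) (nat_lit 57325364562969376)) (C.cons (nat_lit 7553) (C.ref (nat_lit 4) (nat_lit 57324677618741776)) (C.cons (nat_lit 7489) (C.ref (nat_lit 4) (nat_lit 57324608916042256)) (C.cons (nat_lit 7457) (C.ref (nat_lit 4) (nat_lit 57324540197614096)) (C.cons (nat_lit 7441) (C.ref (nat_lit 4) (nat_lit 57324471478202896)) (C.cons (nat_lit 7433) (C.ref (nat_lit 4) (nat_lit 57324402758730256)) (C.cons (nat_lit 7429) (C.ref (nat_lit 4) (nat_lit 57324334039253776)) (C.cons (nat_lit 7427) (C.ref (nat_lit 4) (nat_lit 57324265319777056)) (C.cons (nat_lit 7361) (C.ref (nat_lit 4) (nat_lit 57323509421191696)) (C.cons (nat_lit 7329) (C.ref (nat_lit 4) (nat_lit 57323440702763536))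 (C.cons (nat_lit 7313) (C.ref (nat_lit 4) (nat_lit 57323371983352336)) (C.cons (nat_lit 7305) (C.ref (nat_lit 4) (nat_lit 57323303263879696)) (C.cons (nat_lit 7301) (C.ref (nat_lit 4) (nat_lit 57323234544403216)) (C.cons (nat_lit 7299) (C.ref (nat_lit 4) (nat_lit 57323165824926496)) (C.cons (nat_lit 7265) (C.ref (nat_lit 4) (nat_lit 57322341192184336)) (C.cons (nat_lit 7249) (C.ref (nat_lit 4) (nat_lit 57322272472773136)) (C.cons (nat_lit 7241) (C.ref (nat_lit 4) (nat_lit 57322203753300496)) (C.cons (nat_lit 7237) (C.ref (nat_lit 4) (nat_lit 57322135033824016)) (C.cons (nat_lit 7235) (C.ref (nat_lit 4) (nat_lit 57322066314347296)) (C.cons (nat_lit 7217) (C.ref (nat_lit 4) (nat_lit 57321172961210896)) (C.cons (nat_lit 7209) (C.ref (nat_lit 4) (nat_lit 57321104241738256)) (C.cons (nat_lit 7205) (C.ref (nat_lit 4) (nat_lit 57321035522261776)) (C.cons (nat_lit 7203) (C.ref (nat_lit 4) (nat_lit 57320966802785056)) (C.cons (nat_lit 7193) (C.ref (nat_lit 4) (nat_lit 57320004730114576))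 (C.cons (nat_lit 7189) (C.ref (nat_lit 4) (nat_lit 57319936010638096)) (C.cons (nat_lit 7187) (C.ref (nat_lit 4) (nat_lit 57319867291161376)) (C.cons (nat_lit 7181) (C.ref (nat_lit 4) (nat_lit 57318836499010576)) (C.cons (nat_lit 7179) (C.ref (nat_lit 4) (nat_lit 57318767779533856)) (C.cons (nat_lit 7175) (C.ref (nat_lit 4) (nat_lit 57317668267906096)) (C.cons (nat_lit 7041) (C.ref (nat_lit 4) (nat_lit 57307085701132816)) (C.cons (nat_lit 6977) (C.ref (nat_lit 4) (nat_lit 57307016998433296)) (C.cons (nat_lit 6945) (C.ref (nat_lit 4) (nat_lit 57306948280005136)) (C.cons (nat_lit 6929) (C.ref (nat_lit 4) (nat_lit 57306879560593936)) (C.cons (nat_lit 6921) (C.ref (nat_lit 4) (nat_lit 57306810841121296)) (C.cons (nat_lit 6917) (C.ref (nat_lit 4) (nat_lit 57306742121644816)) (C.cons (nat_lit 6915) (C.ref (nat_lit 4) (nat_lit 57306673402168096)) (C.cons (nat_lit 6849) (C.ref (nat_lit 4) (nat_lit 57305917503582736)) (C.cons (nat_lit 6817) (C.ref (nat_lit 4) (nat_lit 57305848785154576))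 (C.cons (nat_lit 6801) (C.ref (nat_lit 4) (nat_lit 57305780065743376)) (C.cons (nat_lit 6793) (C.ref (nat_lit 4) (nat_lit 57305711346270736)) (C.cons (nat_lit 6789) (C.ref (nat_lit 4) (nat_lit 57305642626794256)) (C.cons (nat_lit 6787) (C.ref (nat_lit 4) (nat_lit 57305573907317536)) (C.cons (nat_lit 6753) (C.ref (nat_lit 4) (nat_lit 57304749274575376)) (C.cons (nat_lit 6737) (C.ref (nat_lit 4) (nat_lit 57304680555164176)) (C.cons (nat_lit 6729) (C.ref (nat_lit 4) (nat_lit 57304611835691536)) (C.cons (nat_lit 6725) (C.ref (nat_lit 4) (nat_lit 57304543116215056)) (C.cons (nat_lit 6723) (C.ref (nat_lit 4) (nat_lit 57304474396738336)) (C.cons (nat_lit 6705) (C.ref (nat_lit 4) (nat_lit 57303581043601936)) (C.cons (nat_lit 6697) (C.ref (nat_lit 4) (nat_lit 57303512324129296)) (C.cons (nat_lit 6693) (C.ref (nat_lit 4) (nat_lit 57303443604652816)) (C.cons (nat_lit 6691) (C.ref (nat_lit 4) (nat_lit 57303374885176096)) (C.cons (nat_lit 6681) (C.ref (nat_lit 4) (nat_lit 57302412812505616))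 (C.cons (nat_lit 6677) (C.ref (nat_lit 4) (nat_lit 57302344093029136)) (C.cons (nat_lit 6675)
  (C.ref (nat_lit 4) (nat_lit 57302275373552416)) (C.cons (nat_lit 6669) (C.ref (nat_lit 4) (nat_lit 57301244581401616)) (C.cons (nat_lit 6667) (C.ref (nat_lit 4) (nat_lit 57301175861924896)) (C.cons (nat_lit 6663) (C.ref (nat_lit 4) (nat_lit 57300076350297136)) (C.cons (nat_lit 6593) (C.ref (nat_lit 4) (nat_lit 57288325334315536)) (C.cons (nat_lit 6561) (C.ref (nat_lit 4) (nat_lit 57288256615887376)) (C.cons (nat_lit 6545) (C.ref (nat_lit 4) (nat_lit 57288187896476176)) (C.cons (nat_lit 6537) (C.ref (nat_lit 4) (nat_lit 57288119177003536)) (C.cons (nat_lit 6533) (C.ref (nat_lit 4) (nat_lit 57288050457527056)) (C.cons (nat_lit 6531) (C.ref (nat_lit 4) (nat_lit 57287981738050336)) (C.cons (nat_lit 6497) (C.ref (nat_lit 4) (nat_lit 57287157105308176)) (C.cons (nat_lit 6481) (C.ref (nat_lit 4) (nat_lit 57287088385896976)) (C.cons (nat_lit 6473) (C.ref (nat_lit 4) (nat_lit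 57287019666424336)) (C.cons (nat_lit 6469) (C.ref (nat_lit 4) (nat_lit 57286950946947856)) (C.cons (nat_lit 6467) (C.ref (nat_lit 4) (nat_lit 57286882227471136)) (C.cons (nat_lit 6449) (C.ref (nat_lit 4) (nat_lit 57285988874334736)) (C.cons (nat_lit 6441) (C.ref (nat_lit 4) (nat_lit 57285920154862096)) (C.cons (nat_lit 6437) (C.ref (nat_lit 4) (nat_lit 57285851435385616)) (C.cons (nat_lit 6435) (C.ref (nat_lit 4) (nat_lit 57285782715908896)) (C.cons (nat_lit 6425) (C.ref (nat_lit 4) (nat_lit 57284820643238416)) (C.cons (nat_lit 6421) (C.ref (nat_lit 4) (nat_lit 57284751923761936)) (C.cons (nat_lit 6419) (C.ref (nat_lit 4) (nat_lit 57284683204285216)) (C.cons (nat_lit 6413) (C.ref (nat_lit 4) (nat_lit 57283652412134416)) (C.cons (nat_lit 6411) (C.ref (nat_lit 4) (nat_lit 57283583692657696)) (C.cons (nat_lit 6407) (C.ref (nat_lit 4) (nat_lit 57282484181029936)) (C.cons (nat_lit 6369) (C.ref (nat_lit 4) (nat_lit 57269564920312336)) (C.cons (nat_lit 6353) (C.ref (nat_lit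 4) (nat_lit 57269496200901136)) (C.cons (nat_lit 6345) (C.ref (nat_lit 4) (nat_lit 57269427481428496)) (C.cons (nat_lit 6341) (C.ref (nat_lit 4) (nat_lit 57269358761952016)) (C.cons (nat_lit 6339) (C.ref (nat_lit 4) (nat_lit 57269290042475296)) (C.cons (nat_lit 6321) (C.ref (nat_lit 4) (nat_lit 57268396689338896)) (C.cons (nat_lit 6313) (C.ref (nat_lit 4) (nat_lit 57268327969866256)) (C.cons (nat_lit 6309) (C.ref (nat_lit 4) (nat_lit 57268259250389776)) (C.cons (nat_lit 6307) (C.ref (nat_lit 4) (nat_lit 57268190530913056)) (C.cons (nat_lit 6297) (C.ref (nat_lit 4) (nat_lit 57267228458242576)) (C.cons (nat_lit 6293) (C.ref (nat_lit 4) (nat_lit 57267159738766096)) (C.cons (nat_lit 6291) (C.ref (nat_lit 4) (nat_lit 57267091019289376)) (C.cons (nat_lit 6285) (C.ref (nat_lit 4) (nat_lit 57266060227138576)) (C.cons (nat_lit 6283) (C.ref (nat_lit 4) (nat_lit 57265991507661856)) (C.cons (nat_lit 6279) (C.ref (nat_lit 4) (nat_lit 57264891996034096)) (C.cons (nat_lit 6257)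 (C.ref (nat_lit 4) (nat_lit 57250804503360016)) (C.cons (nat_lit 6249) (C.ref (nat_lit 4) (nat_lit 57250735783887376)) (C.cons (nat_lit 6245) (C.ref (nat_lit 4) (nat_lit 57250667064410896)) (C.cons (nat_lit 6243) (C.ref (nat_lit 4) (nat_lit 57250598344934176)) (C.cons (nat_lit 6233) (C.ref (nat_lit 4) (nat_lit 57249636272263696)) (C.cons (nat_lit 6229) (C.ref (nat_lit 4) (nat_lit 57249567552787216)) (C.cons (nat_lit 6227) (C.ref (nat_lit 4) (nat_lit 57249498833310496)) (C.cons (nat_lit 6221) (C.ref (nat_lit 4) (nat_lit 57248468041159696)) (C.cons (nat_lit 6219) (C.ref (nat_lit 4) (nat_lit 57248399321682976)) (C.cons (nat_lit 6215) (C.ref (nat_lit 4) (nat_lit 57247299810055216)) (C.cons (nat_lit 6201) (C.ref (nat_lit 4) (nat_lit 57232044086223376)) (C.cons (nat_lit 6197) (C.ref (nat_lit 4) (nat_lit 57231975366746896)) (C.cons (nat_lit 6195) (C.ref (nat_lit 4) (nat_lit 57231906647270176)) (C.cons (nat_lit 6189) (C.ref (nat_lit 4) (nat_lit 57230875855119376)) (C.cons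 (nat_lit 6187) (C.ref (nat_lit 4) (nat_lit 57230807135642656)) (C.cons (nat_lit 6183) (C.ref (nat_lit 4) (nat_lit 57229707624014896)) (C.cons (nat_lit 6173)
  (C.ref (nat_lit 4) (nat_lit 57213283669075216)) (C.cons (nat_lit 6171) (C.ref (nat_lit 4) (nat_lit 57213214949598496)) (C.cons (nat_lit 6167) (C.ref (nat_lit 4) (nat_lit 57212115437970736)) (C.cons (nat_lit 6159) (C.ref (nat_lit 4) (nat_lit 57194523251926336)) (C.cons (nat_lit 6017) (C.ref (nat_lit 4) (nat_lit 57025610992857616)) (C.cons (nat_lit 5953) (C.ref (nat_lit 4) (nat_lit 57025542290158096)) (C.cons (nat_lit 5921) (C.ref (nat_lit 4) (nat_lit 57025473571729936)) (C.cons (nat_lit 5905) (C.ref (nat_lit 4) (nat_lit 57025404852318736)) (C.cons (nat_lit 5897) (C.ref (nat_lit 4) (nat_lit 57025336132846096)) (C.cons (nat_lit 5893) (C.ref (nat_lit 4) (nat_lit 57025267413369616)) (C.cons (nat_lit 5891) (C.ref (nat_lit 4) (nat_lit 57025198693892896)) (C.cons (nat_lit 5825) (C.ref (nat_lit 4) (nat_lit 57024442795307536))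 (C.cons (nat_lit 5793) (C.ref (nat_lit 4) (nat_lit 57024374076879376)) (C.cons (nat_lit 5777) (C.ref (nat_lit 4) (nat_lit 57024305357468176)) (C.cons (nat_lit 5769) (C.ref (nat_lit 4) (nat_lit 57024236637995536)) (C.cons (nat_lit 5765) (C.ref (nat_lit 4) (nat_lit 57024167918519056)) (C.cons (nat_lit 5763) (C.ref (nat_lit 4) (nat_lit 57024099199042336)) (C.cons (nat_lit 5729) (C.ref (nat_lit 4) (nat_lit 57023274566300176)) (C.cons (nat_lit 5713) (C.ref (nat_lit 4) (nat_lit 57023205846888976)) (C.cons (nat_lit 5705) (C.ref (nat_lit 4) (nat_lit 57023137127416336)) (C.cons (nat_lit 5701) (C.ref (nat_lit 4) (nat_lit 57023068407939856)) (C.cons (nat_lit 5699) (C.ref (nat_lit 4) (nat_lit 57022999688463136)) (C.cons (nat_lit 5681) (C.ref (nat_lit 4) (nat_lit 57022106335326736)) (C.cons (nat_lit 5673) (C.ref (nat_lit 4) (nat_lit 57022037615854096)) (C.cons (nat_lit 5669) (C.ref (nat_lit 4) (nat_lit 57021968896377616)) (C.cons (nat_lit 5667) (C.ref (nat_lit 4) (nat_lit 57021900176900896))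 (C.cons (nat_lit 5657) (C.ref (nat_lit 4) (nat_lit 57020938104230416)) (C.cons (nat_lit 5653) (C.ref (nat_lit 4) (nat_lit 57020869384753936)) (C.cons (nat_lit 5651) (C.ref (nat_lit 4) (nat_lit 57020800665277216)) (C.cons (nat_lit 5645) (C.ref (nat_lit 4) (nat_lit 57019769873126416)) (C.cons (nat_lit 5643) (C.ref (nat_lit 4) (nat_lit 57019701153649696)) (C.cons (nat_lit 5639) (C.ref (nat_lit 4) (nat_lit 57018601642021936)) (C.cons (nat_lit 5569) (C.ref (nat_lit 4) (nat_lit 57006850626040336)) (C.cons (nat_lit 5537) (C.ref (nat_lit 4) (nat_lit 57006781907612176)) (C.cons (nat_lit 5521) (C.ref (nat_lit 4) (nat_lit 57006713188200976)) (C.cons (nat_lit 5513) (C.ref (nat_lit 4) (nat_lit 57006644468728336)) (C.cons (nat_lit 5509) (C.ref (nat_lit 4) (nat_lit 57006575749251856)) (C.cons (nat_lit 5507) (C.ref (nat_lit 4) (nat_lit 57006507029775136)) (C.cons (nat_lit 5473) (C.ref (nat_lit 4) (nat_lit 57005682397032976)) (C.cons (nat_lit 5457) (C.ref (nat_lit 4) (nat_lit 57005613677621776))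 (C.cons (nat_lit 5449) (C.ref (nat_lit 4) (nat_lit 57005544958149136)) (C.cons (nat_lit 5445) (C.ref (nat_lit 4) (nat_lit 57005476238672656)) (C.cons (nat_lit 5443) (C.ref (nat_lit 4) (nat_lit 57005407519195936)) (C.cons (nat_lit 5425) (C.ref (nat_lit 4) (nat_lit 57004514166059536)) (C.cons (nat_lit 5417) (C.ref (nat_lit 4) (nat_lit 57004445446586896)) (C.cons (nat_lit 5413) (C.ref (nat_lit 4) (nat_lit 57004376727110416)) (C.cons (nat_lit 5411) (C.ref (nat_lit 4) (nat_lit 57004308007633696)) (C.cons (nat_lit 5401) (C.ref (nat_lit 4) (nat_lit 57003345934963216)) (C.cons (nat_lit 5397) (C.ref (nat_lit 4) (nat_lit 57003277215486736)) (C.cons (nat_lit 5395) (C.ref (nat_lit 4) (nat_lit 57003208496010016)) (C.cons (nat_lit 5389) (C.ref (nat_lit 4) (nat_lit 57002177703859216)) (C.cons (nat_lit 5387) (C.ref (nat_lit 4) (nat_lit 57002108984382496)) (C.cons (nat_lit 5383) (C.ref (nat_lit 4) (nat_lit 57001009472754736)) (C.cons (nat_lit 5345) (C.ref (nat_lit 4) (nat_lit 56988090212037136))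 (C.cons (nat_lit 5329) (C.ref (nat_lit 4) (nat_lit 56988021492625936)) (C.cons (nat_lit 5321) (C.ref (nat_lit 4) (nat_lit 56987952773153296)) (C.cons (nat_lit 5317)
  (C.ref (nat_lit 4) (nat_lit 56987884053676816)) (C.cons (nat_lit 5315) (C.ref (nat_lit 4) (nat_lit 56987815334200096)) (C.cons (nat_lit 5297) (C.ref (nat_lit 4) (nat_lit 56986921981063696)) (C.cons (nat_lit 5289) (C.ref (nat_lit 4) (nat_lit 56986853261591056)) (C.cons (nat_lit 5285) (C.ref (nat_lit 4) (nat_lit 56986784542114576)) (C.cons (nat_lit 5283) (C.ref (nat_lit 4) (nat_lit 56986715822637856)) (C.cons (nat_lit 5273) (C.ref (nat_lit 4) (nat_lit 56985753749967376)) (C.cons (nat_lit 5269) (C.ref (nat_lit 4) (nat_lit 56985685030490896)) (C.cons (nat_lit 5267) (C.ref (nat_lit 4) (nat_lit 56985616311014176)) (C.cons (nat_lit 5261) (C.ref (nat_lit 4) (nat_lit 56984585518863376)) (C.cons (nat_lit 5259) (C.ref (nat_lit 4) (nat_lit 56984516799386656)) (C.cons (nat_lit 5255) (C.ref (nat_lit 4) (nat_lit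 56983417287758896)) (C.cons (nat_lit 5233) (C.ref (nat_lit 4) (nat_lit 56969329795084816)) (C.cons (nat_lit 5225) (C.ref (nat_lit 4) (nat_lit 56969261075612176)) (C.cons (nat_lit 5221) (C.ref (nat_lit 4) (nat_lit 56969192356135696)) (C.cons (nat_lit 5219) (C.ref (nat_lit 4) (nat_lit 56969123636658976)) (C.cons (nat_lit 5209) (C.ref (nat_lit 4) (nat_lit 56968161563988496)) (C.cons (nat_lit 5205) (C.ref (nat_lit 4) (nat_lit 56968092844512016)) (C.cons (nat_lit 5203) (C.ref (nat_lit 4) (nat_lit 56968024125035296)) (C.cons (nat_lit 5197) (C.ref (nat_lit 4) (nat_lit 56966993332884496)) (C.cons (nat_lit 5195) (C.ref (nat_lit 4) (nat_lit 56966924613407776)) (C.cons (nat_lit 5191) (C.ref (nat_lit 4) (nat_lit 56965825101780016)) (C.cons (nat_lit 5177) (C.ref (nat_lit 4) (nat_lit 56950569377948176)) (C.cons (nat_lit 5173) (C.ref (nat_lit 4) (nat_lit 56950500658471696)) (C.cons (nat_lit 5171) (C.ref (nat_lit 4) (nat_lit 56950431938994976)) (C.cons (nat_lit 5165) (C.ref (nat_lit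 4) (nat_lit 56949401146844176)) (C.cons (nat_lit 5163) (C.ref (nat_lit 4) (nat_lit 56949332427367456)) (C.cons (nat_lit 5159) (C.ref (nat_lit 4) (nat_lit 56948232915739696)) (C.cons (nat_lit 5149) (C.ref (nat_lit 4) (nat_lit 56931808960800016)) (C.cons (nat_lit 5147) (C.ref (nat_lit 4) (nat_lit 56931740241323296)) (C.cons (nat_lit 5143) (C.ref (nat_lit 4) (nat_lit 56930640729695536)) (C.cons (nat_lit 5135) (C.ref (nat_lit 4) (nat_lit 56913048543651136)) (C.cons (nat_lit 5057) (C.ref (nat_lit 4) (nat_lit 56725375666106896)) (C.cons (nat_lit 5025) (C.ref (nat_lit 4) (nat_lit 56725306947678736)) (C.cons (nat_lit 5009) (C.ref (nat_lit 4) (nat_lit 56725238228267536)) (C.cons (nat_lit 5001) (C.ref (nat_lit 4) (nat_lit 56725169508794896)) (C.cons (nat_lit 4997) (C.ref (nat_lit 4) (nat_lit 56725100789318416)) (C.cons (nat_lit 4995) (C.ref (nat_lit 4) (nat_lit 56725032069841696)) (C.cons (nat_lit 4961) (C.ref (nat_lit 4) (nat_lit 56724207437099536)) (C.cons (nat_lit 4945)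 (C.ref (nat_lit 4) (nat_lit 56724138717688336)) (C.cons (nat_lit 4937) (C.ref (nat_lit 4) (nat_lit 56724069998215696)) (C.cons (nat_lit 4933) (C.ref (nat_lit 4) (nat_lit 56724001278739216)) (C.cons (nat_lit 4931) (C.ref (nat_lit 4) (nat_lit 56723932559262496)) (C.cons (nat_lit 4913) (C.ref (nat_lit 4) (nat_lit 56723039206126096)) (C.cons (nat_lit 4905) (C.ref (nat_lit 4) (nat_lit 56722970486653456)) (C.cons (nat_lit 4901) (C.ref (nat_lit 4) (nat_lit 56722901767176976)) (C.cons (nat_lit 4899) (C.ref (nat_lit 4) (nat_lit 56722833047700256)) (C.cons (nat_lit 4889) (C.ref (nat_lit 4) (nat_lit 56721870975029776)) (C.cons (nat_lit 4885) (C.ref (nat_lit 4) (nat_lit 56721802255553296)) (C.cons (nat_lit 4883) (C.ref (nat_lit 4) (nat_lit 56721733536076576)) (C.cons (nat_lit 4877) (C.ref (nat_lit 4) (nat_lit 56720702743925776)) (C.cons (nat_lit 4875) (C.ref (nat_lit 4) (nat_lit 56720634024449056)) (C.cons (nat_lit 4871) (C.ref (nat_lit 4) (nat_lit 56719534512821296)) (C.cons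 (nat_lit 4833) (C.ref (nat_lit 4) (nat_lit 56706615252103696)) (C.cons (nat_lit 4817) (C.ref (nat_lit 4) (nat_lit 56706546532692496)) (C.cons (nat_lit 4809) (C.ref (nat_lit 4) (nat_lit 56706477813219856)) (C.cons (nat_lit 4805)
  (C.ref (nat_lit 4) (nat_lit 56706409093743376)) (C.cons (nat_lit 4803) (C.ref (nat_lit 4) (nat_lit 56706340374266656)) (C.cons (nat_lit 4785) (C.ref (nat_lit 4) (nat_lit 56705447021130256)) (C.cons (nat_lit 4777) (C.ref (nat_lit 4) (nat_lit 56705378301657616)) (C.cons (nat_lit 4773) (C.ref (nat_lit 4) (nat_lit 56705309582181136)) (C.cons (nat_lit 4771) (C.ref (nat_lit 4) (nat_lit 56705240862704416)) (C.cons (nat_lit 4761) (C.ref (nat_lit 4) (nat_lit 56704278790033936)) (C.cons (nat_lit 4757) (C.ref (nat_lit 4) (nat_lit 56704210070557456)) (C.cons (nat_lit 4755) (C.ref (nat_lit 4) (nat_lit 56704141351080736)) (C.cons (nat_lit 4749) (C.ref (nat_lit 4) (nat_lit 56703110558929936)) (C.cons (nat_lit 4747) (C.ref (nat_lit 4) (nat_lit 56703041839453216))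 (C.cons (nat_lit 4743) (C.ref (nat_lit 4) (nat_lit 56701942327825456)) (C.cons (nat_lit 4721) (C.ref (nat_lit 4) (nat_lit 56687854835151376)) (C.cons (nat_lit 4713) (C.ref (nat_lit 4) (nat_lit 56687786115678736)) (C.cons (nat_lit 4709) (C.ref (nat_lit 4) (nat_lit 56687717396202256)) (C.cons (nat_lit 4707) (C.ref (nat_lit 4) (nat_lit 56687648676725536)) (C.cons (nat_lit 4697) (C.ref (nat_lit 4) (nat_lit 56686686604055056)) (C.cons (nat_lit 4693) (C.ref (nat_lit 4) (nat_lit 56686617884578576)) (C.cons (nat_lit 4691) (C.ref (nat_lit 4) (nat_lit 56686549165101856)) (C.cons (nat_lit 4685) (C.ref (nat_lit 4) (nat_lit 56685518372951056)) (C.cons (nat_lit 4683) (C.ref (nat_lit 4) (nat_lit 56685449653474336)) (C.cons (nat_lit 4679) (C.ref (nat_lit 4) (nat_lit 56684350141846576)) (C.cons (nat_lit 4665) (C.ref (nat_lit 4) (nat_lit 56669094418014736)) (C.cons (nat_lit 4661) (C.ref (nat_lit 4) (nat_lit 56669025698538256)) (C.cons (nat_lit 4659) (C.ref (nat_lit 4) (nat_lit 56668956979061536))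 (C.cons (nat_lit 4653) (C.ref (nat_lit 4) (nat_lit 56667926186910736)) (C.cons (nat_lit 4651) (C.ref (nat_lit 4) (nat_lit 56667857467434016)) (C.cons (nat_lit 4647) (C.ref (nat_lit 4) (nat_lit 56666757955806256)) (C.cons (nat_lit 4637) (C.ref (nat_lit 4) (nat_lit 56650334000866576)) (C.cons (nat_lit 4635) (C.ref (nat_lit 4) (nat_lit 56650265281389856)) (C.cons (nat_lit 4631) (C.ref (nat_lit 4) (nat_lit 56649165769762096)) (C.cons (nat_lit 4623) (C.ref (nat_lit 4) (nat_lit 56631573583717696)) (C.cons (nat_lit 4577) (C.ref (nat_lit 4) (nat_lit 56425140276441616)) (C.cons (nat_lit 4561) (C.ref (nat_lit 4) (nat_lit 56425071557030416)) (C.cons (nat_lit 4553) (C.ref (nat_lit 4) (nat_lit 56425002837557776)) (C.cons (nat_lit 4549) (C.ref (nat_lit 4) (nat_lit 56424934118081296)) (C.cons (nat_lit 4547) (C.ref (nat_lit 4) (nat_lit 56424865398604576)) (C.cons (nat_lit 4529) (C.ref (nat_lit 4) (nat_lit 56423972045468176)) (C.cons (nat_lit 4521) (C.ref (nat_lit 4) (nat_lit 56423903325995536))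 (C.cons (nat_lit 4517) (C.ref (nat_lit 4) (nat_lit 56423834606519056)) (C.cons (nat_lit 4515) (C.ref (nat_lit 4) (nat_lit 56423765887042336)) (C.cons (nat_lit 4505) (C.ref (nat_lit 4) (nat_lit 56422803814371856)) (C.cons (nat_lit 4501) (C.ref (nat_lit 4) (nat_lit 56422735094895376)) (C.cons (nat_lit 4499) (C.ref (nat_lit 4) (nat_lit 56422666375418656)) (C.cons (nat_lit 4493) (C.ref (nat_lit 4) (nat_lit 56421635583267856)) (C.cons (nat_lit 4491) (C.ref (nat_lit 4) (nat_lit 56421566863791136)) (C.cons (nat_lit 4487) (C.ref (nat_lit 4) (nat_lit 56420467352163376)) (C.cons (nat_lit 4465) (C.ref (nat_lit 4) (nat_lit 56406379859489296)) (C.cons (nat_lit 4457) (C.ref (nat_lit 4) (nat_lit 56406311140016656)) (C.cons (nat_lit 4453) (C.ref (nat_lit 4) (nat_lit 56406242420540176)) (C.cons (nat_lit 4451) (C.ref (nat_lit 4) (nat_lit 56406173701063456)) (C.cons (nat_lit 4441) (C.ref (nat_lit 4) (nat_lit 56405211628392976)) (C.cons (nat_lit 4437) (C.ref (nat_lit 4) (nat_lit 56405142908916496))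 (C.cons (nat_lit 4435) (C.ref (nat_lit 4) (nat_lit 56405074189439776)) (C.cons (nat_lit 4429) (C.ref (nat_lit 4) (nat_lit 56404043397288976)) (C.cons (nat_lit 4427) (C.ref (nat_lit 4) (nat_lit 56403974677812256)) (C.cons (nat_lit 4423)
  (C.ref (nat_lit 4) (nat_lit 56402875166184496)) (C.cons (nat_lit 4409) (C.ref (nat_lit 4) (nat_lit 56387619442352656)) (C.cons (nat_lit 4405) (C.ref (nat_lit 4) (nat_lit 56387550722876176)) (C.cons (nat_lit 4403) (C.ref (nat_lit 4) (nat_lit 56387482003399456)) (C.cons (nat_lit 4397) (C.ref (nat_lit 4) (nat_lit 56386451211248656)) (C.cons (nat_lit 4395) (C.ref (nat_lit 4) (nat_lit 56386382491771936)) (C.cons (nat_lit 4391) (C.ref (nat_lit 4) (nat_lit 56385282980144176)) (C.cons (nat_lit 4381) (C.ref (nat_lit 4) (nat_lit 56368859025204496)) (C.cons (nat_lit 4379) (C.ref (nat_lit 4) (nat_lit 56368790305727776)) (C.cons (nat_lit 4375) (C.ref (nat_lit 4) (nat_lit 56367690794100016)) (C.cons (nat_lit 4367) (C.ref (nat_lit 4) (nat_lit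 56350098608055616)) (C.cons (nat_lit 4337) (C.ref (nat_lit 4) (nat_lit 56124904882844176)) (C.cons (nat_lit 4329) (C.ref (nat_lit 4) (nat_lit 56124836163371536)) (C.cons (nat_lit 4325) (C.ref (nat_lit 4) (nat_lit 56124767443895056)) (C.cons (nat_lit 4323) (C.ref (nat_lit 4) (nat_lit 56124698724418336)) (C.cons (nat_lit 4313) (C.ref (nat_lit 4) (nat_lit 56123736651747856)) (C.cons (nat_lit 4309) (C.ref (nat_lit 4) (nat_lit 56123667932271376)) (C.cons (nat_lit 4307) (C.ref (nat_lit 4) (nat_lit 56123599212794656)) (C.cons (nat_lit 4301) (C.ref (nat_lit 4) (nat_lit 56122568420643856)) (C.cons (nat_lit 4299) (C.ref (nat_lit 4) (nat_lit 56122499701167136)) (C.cons (nat_lit 4295) (C.ref (nat_lit 4) (nat_lit 56121400189539376)) (C.cons (nat_lit 4281) (C.ref (nat_lit 4) (nat_lit 56106144465707536)) (C.cons (nat_lit 4277) (C.ref (nat_lit 4) (nat_lit 56106075746231056)) (C.cons (nat_lit 4275) (C.ref (nat_lit 4) (nat_lit 56106007026754336)) (C.cons (nat_lit 4269) (C.ref (nat_lit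 4) (nat_lit 56104976234603536)) (C.cons (nat_lit 4267) (C.ref (nat_lit 4) (nat_lit 56104907515126816)) (C.cons (nat_lit 4263) (C.ref (nat_lit 4) (nat_lit 56103808003499056)) (C.cons (nat_lit 4253) (C.ref (nat_lit 4) (nat_lit 56087384048559376)) (C.cons (nat_lit 4251) (C.ref (nat_lit 4) (nat_lit 56087315329082656)) (C.cons (nat_lit 4247) (C.ref (nat_lit 4) (nat_lit 56086215817454896)) (C.cons (nat_lit 4239) (C.ref (nat_lit 4) (nat_lit 56068623631410496)) (C.cons (nat_lit 4217) (C.ref (nat_lit 4) (nat_lit 55824669489000976)) (C.cons (nat_lit 4213) (C.ref (nat_lit 4) (nat_lit 55824600769524496)) (C.cons (nat_lit 4211) (C.ref (nat_lit 4) (nat_lit 55824532050047776)) (C.cons (nat_lit 4205) (C.ref (nat_lit 4) (nat_lit 55823501257896976)) (C.cons (nat_lit 4203) (C.ref (nat_lit 4) (nat_lit 55823432538420256)) (C.cons (nat_lit 4199) (C.ref (nat_lit 4) (nat_lit 55822333026792496)) (C.cons (nat_lit 4189) (C.ref (nat_lit 4) (nat_lit 55805909071852816)) (C.cons (nat_lit 4187)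 (C.ref (nat_lit 4) (nat_lit 55805840352376096)) (C.cons (nat_lit 4183) (C.ref (nat_lit 4) (nat_lit 55804740840748336)) (C.cons (nat_lit 4175) (C.ref (nat_lit 4) (nat_lit 55787148654703936)) (C.cons (nat_lit 4157) (C.ref (nat_lit 4) (nat_lit 55524434095142416)) (C.cons (nat_lit 4155) (C.ref (nat_lit 4) (nat_lit 55524365375665696)) (C.cons (nat_lit 4151) (C.ref (nat_lit 4) (nat_lit 55523265864037936)) (C.cons (nat_lit 4143) (C.ref (nat_lit 4) (nat_lit 55505673677993536)) (C.cons (nat_lit 4127) (C.ref (nat_lit 4) (nat_lit 55224198701282896)) (C.cons (nat_lit 3969) (C.ref (nat_lit 4) (nat_lit 52522011633922576)) (C.cons (nat_lit 3905) (C.ref (nat_lit 4) (nat_lit 52521942931223056)) (C.cons (nat_lit 3873) (C.ref (nat_lit 4) (nat_lit 52521874212794896)) (C.cons (nat_lit 3857) (C.ref (nat_lit 4) (nat_lit 52521805493383696)) (C.cons (nat_lit 3849) (C.ref (nat_lit 4) (nat_lit 52521736773911056)) (C.cons (nat_lit 3845) (C.ref (nat_lit 4) (nat_lit 52521668054434576)) (C.cons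 (nat_lit 3843) (C.ref (nat_lit 4) (nat_lit 52521599334957856)) (C.cons (nat_lit 3777) (C.ref (nat_lit 4) (nat_lit 52520843436372496)) (C.cons (nat_lit 3745) (C.ref (nat_lit 4) (nat_lit 52520774717944336)) (C.cons (nat_lit 3729) (C.ref (nat_lit 4) (nat_lit 52520705998533136)) (C.cons (nat_lit 3721)
  (C.ref (nat_lit 4) (nat_lit 52520637279060496)) (C.cons (nat_lit 3717) (C.ref (nat_lit 4) (nat_lit 52520568559584016)) (C.cons (nat_lit 3715) (C.ref (nat_lit 4) (nat_lit 52520499840107296)) (C.cons (nat_lit 3681) (C.ref (nat_lit 4) (nat_lit 52519675207365136)) (C.cons (nat_lit 3665) (C.ref (nat_lit 4) (nat_lit 52519606487953936)) (C.cons (nat_lit 3657) (C.ref (nat_lit 4) (nat_lit 52519537768481296)) (C.cons (nat_lit 3653) (C.ref (nat_lit 4) (nat_lit 52519469049004816)) (C.cons (nat_lit 3651) (C.ref (nat_lit 4) (nat_lit 52519400329528096)) (C.cons (nat_lit 3633) (C.ref (nat_lit 4) (nat_lit 52518506976391696)) (C.cons (nat_lit 3625) (C.ref (nat_lit 4) (nat_lit 52518438256919056))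 (C.cons (nat_lit 3621) (C.ref (nat_lit 4) (nat_lit 52518369537442576)) (C.cons (nat_lit 3619) (C.ref (nat_lit 4) (nat_lit 52518300817965856)) (C.cons (nat_lit 3609) (C.ref (nat_lit 4) (nat_lit 52517338745295376)) (C.cons (nat_lit 3605) (C.ref (nat_lit 4) (nat_lit 52517270025818896)) (C.cons (nat_lit 3603) (C.ref (nat_lit 4) (nat_lit 52517201306342176)) (C.cons (nat_lit 3597) (C.ref (nat_lit 4) (nat_lit 52516170514191376)) (C.cons (nat_lit 3595) (C.ref (nat_lit 4) (nat_lit 52516101794714656)) (C.cons (nat_lit 3591) (C.ref (nat_lit 4) (nat_lit 52515002283086896)) (C.cons (nat_lit 3521) (C.ref (nat_lit 4) (nat_lit 52503251267105296)) (C.cons (nat_lit 3489) (C.ref (nat_lit 4) (nat_lit 52503182548677136)) (C.cons (nat_lit 3473) (C.ref (nat_lit 4) (nat_lit 52503113829265936)) (C.cons (nat_lit 3465) (C.ref (nat_lit 4) (nat_lit 52503045109793296)) (C.cons (nat_lit 3461) (C.ref (nat_lit 4) (nat_lit 52502976390316816)) (C.cons (nat_lit 3459) (C.ref (nat_lit 4) (nat_lit 52502907670840096))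 (C.cons (nat_lit 3425) (C.ref (nat_lit 4) (nat_lit 52502083038097936)) (C.cons (nat_lit 3409) (C.ref (nat_lit 4) (nat_lit 52502014318686736)) (C.cons (nat_lit 3401) (C.ref (nat_lit 4) (nat_lit 52501945599214096)) (C.cons (nat_lit 3397) (C.ref (nat_lit 4) (nat_lit 52501876879737616)) (C.cons (nat_lit 3395) (C.ref (nat_lit 4) (nat_lit 52501808160260896)) (C.cons (nat_lit 3377) (C.ref (nat_lit 4) (nat_lit 52500914807124496)) (C.cons (nat_lit 3369) (C.ref (nat_lit 4) (nat_lit 52500846087651856)) (C.cons (nat_lit 3365) (C.ref (nat_lit 4) (nat_lit 52500777368175376)) (C.cons (nat_lit 3363) (C.ref (nat_lit 4) (nat_lit 52500708648698656)) (C.cons (nat_lit 3353) (C.ref (nat_lit 4) (nat_lit 52499746576028176)) (C.cons (nat_lit 3349) (C.ref (nat_lit 4) (nat_lit 52499677856551696)) (C.cons (nat_lit 3347) (C.ref (nat_lit 4) (nat_lit 52499609137074976)) (C.cons (nat_lit 3341) (C.ref (nat_lit 4) (nat_lit 52498578344924176)) (C.cons (nat_lit 3339) (C.ref (nat_lit 4) (nat_lit 52498509625447456))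 (C.cons (nat_lit 3335) (C.ref (nat_lit 4) (nat_lit 52497410113819696)) (C.cons (nat_lit 3297) (C.ref (nat_lit 4) (nat_lit 52484490853102096)) (C.cons (nat_lit 3281) (C.ref (nat_lit 4) (nat_lit 52484422133690896)) (C.cons (nat_lit 3273) (C.ref (nat_lit 4) (nat_lit 52484353414218256)) (C.cons (nat_lit 3269) (C.ref (nat_lit 4) (nat_lit 52484284694741776)) (C.cons (nat_lit 3267) (C.ref (nat_lit 4) (nat_lit 52484215975265056)) (C.cons (nat_lit 3249) (C.ref (nat_lit 4) (nat_lit 52483322622128656)) (C.cons (nat_lit 3241) (C.ref (nat_lit 4) (nat_lit 52483253902656016)) (C.cons (nat_lit 3237) (C.ref (nat_lit 4) (nat_lit 52483185183179536)) (C.cons (nat_lit 3235) (C.ref (nat_lit 4) (nat_lit 52483116463702816)) (C.cons (nat_lit 3225) (C.ref (nat_lit 4) (nat_lit 52482154391032336)) (C.cons (nat_lit 3221) (C.ref (nat_lit 4) (nat_lit 52482085671555856)) (C.cons (nat_lit 3219) (C.ref (nat_lit 4) (nat_lit 52482016952079136)) (C.cons (nat_lit 3213) (C.ref (nat_lit 4) (nat_lit 52480986159928336))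 (C.cons (nat_lit 3211) (C.ref (nat_lit 4) (nat_lit 52480917440451616)) (C.cons (nat_lit 3207) (C.ref (nat_lit 4) (nat_lit 52479817928823856)) (C.cons (nat_lit 3185) (C.ref (nat_lit 4) (nat_lit 52465730436149776)) (C.cons (nat_lit 3177) (C.ref (nat_lit 4) (nat_lit 52465661716677136)) (C.cons (nat_lit 3173)
  (C.ref (nat_lit 4) (nat_lit 52465592997200656)) (C.cons (nat_lit 3171) (C.ref (nat_lit 4) (nat_lit 52465524277723936)) (C.cons (nat_lit 3161) (C.ref (nat_lit 4) (nat_lit 52464562205053456)) (C.cons (nat_lit 3157) (C.ref (nat_lit 4) (nat_lit 52464493485576976)) (C.cons (nat_lit 3155) (C.ref (nat_lit 4) (nat_lit 52464424766100256)) (C.cons (nat_lit 3149) (C.ref (nat_lit 4) (nat_lit 52463393973949456)) (C.cons (nat_lit 3147) (C.ref (nat_lit 4) (nat_lit 52463325254472736)) (C.cons (nat_lit 3143) (C.ref (nat_lit 4) (nat_lit 52462225742844976)) (C.cons (nat_lit 3129) (C.ref (nat_lit 4) (nat_lit 52446970019013136)) (C.cons (nat_lit 3125) (C.ref (nat_lit 4) (nat_lit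 52446901299536656)) (C.cons (nat_lit 3123) (C.ref (nat_lit 4) (nat_lit 52446832580059936)) (C.cons (nat_lit 3117) (C.ref (nat_lit 4) (nat_lit 52445801787909136)) (C.cons (nat_lit 3115) (C.ref (nat_lit 4) (nat_lit 52445733068432416)) (C.cons (nat_lit 3111) (C.ref (nat_lit 4) (nat_lit 52444633556804656)) (C.cons (nat_lit 3101) (C.ref (nat_lit 4) (nat_lit 52428209601864976)) (C.cons (nat_lit 3099) (C.ref (nat_lit 4) (nat_lit 52428140882388256)) (C.cons (nat_lit 3095) (C.ref (nat_lit 4) (nat_lit 52427041370760496)) (C.cons (nat_lit 3087) (C.ref (nat_lit 4) (nat_lit 52409449184716096)) (C.cons (nat_lit 3009) (C.ref (nat_lit 4) (nat_lit 52221776307171856)) (C.cons (nat_lit 2977) (C.ref (nat_lit 4) (nat_lit 52221707588743696)) (C.cons (nat_lit 2961) (C.ref (nat_lit 4) (nat_lit 52221638869332496)) (C.cons (nat_lit 2953) (C.ref (nat_lit 4) (nat_lit 52221570149859856)) (C.cons (nat_lit 2949) (C.ref (nat_lit 4) (nat_lit 52221501430383376)) (C.cons (nat_lit 2947) (C.ref (nat_lit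 4) (nat_lit 52221432710906656)) (C.cons (nat_lit 2913) (C.ref (nat_lit 4) (nat_lit 52220608078164496)) (C.cons (nat_lit 2897) (C.ref (nat_lit 4) (nat_lit 52220539358753296)) (C.cons (nat_lit 2889) (C.ref (nat_lit 4) (nat_lit 52220470639280656)) (C.cons (nat_lit 2885) (C.ref (nat_lit 4) (nat_lit 52220401919804176)) (C.cons (nat_lit 2883) (C.ref (nat_lit 4) (nat_lit 52220333200327456)) (C.cons (nat_lit 2865) (C.ref (nat_lit 4) (nat_lit 52219439847191056)) (C.cons (nat_lit 2857) (C.ref (nat_lit 4) (nat_lit 52219371127718416)) (C.cons (nat_lit 2853) (C.ref (nat_lit 4) (nat_lit 52219302408241936)) (C.cons (nat_lit 2851) (C.ref (nat_lit 4) (nat_lit 52219233688765216)) (C.cons (nat_lit 2841) (C.ref (nat_lit 4) (nat_lit 52218271616094736)) (C.cons (nat_lit 2837) (C.ref (nat_lit 4) (nat_lit 52218202896618256)) (C.cons (nat_lit 2835) (C.ref (nat_lit 4) (nat_lit 52218134177141536)) (C.cons (nat_lit 2829) (C.ref (nat_lit 4) (nat_lit 52217103384990736)) (C.cons (nat_lit 2827)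 (C.ref (nat_lit 4) (nat_lit 52217034665514016)) (C.cons (nat_lit 2823) (C.ref (nat_lit 4) (nat_lit 52215935153886256)) (C.cons (nat_lit 2785) (C.ref (nat_lit 4) (nat_lit 52203015893168656)) (C.cons (nat_lit 2769) (C.ref (nat_lit 4) (nat_lit 52202947173757456)) (C.cons (nat_lit 2761) (C.ref (nat_lit 4) (nat_lit 52202878454284816)) (C.cons (nat_lit 2757) (C.ref (nat_lit 4) (nat_lit 52202809734808336)) (C.cons (nat_lit 2755) (C.ref (nat_lit 4) (nat_lit 52202741015331616)) (C.cons (nat_lit 2737) (C.ref (nat_lit 4) (nat_lit 52201847662195216)) (C.cons (nat_lit 2729) (C.ref (nat_lit 4) (nat_lit 52201778942722576)) (C.cons (nat_lit 2725) (C.ref (nat_lit 4) (nat_lit 52201710223246096)) (C.cons (nat_lit 2723) (C.ref (nat_lit 4) (nat_lit 52201641503769376)) (C.cons (nat_lit 2713) (C.ref (nat_lit 4) (nat_lit 52200679431098896)) (C.cons (nat_lit 2709) (C.ref (nat_lit 4) (nat_lit 52200610711622416)) (C.cons (nat_lit 2707) (C.ref (nat_lit 4) (nat_lit 52200541992145696)) (C.cons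 (nat_lit 2701) (C.ref (nat_lit 4) (nat_lit 52199511199994896)) (C.cons (nat_lit 2699) (C.ref (nat_lit 4) (nat_lit 52199442480518176)) (C.cons (nat_lit 2695) (C.ref (nat_lit 4) (nat_lit 52198342968890416)) (C.cons (nat_lit 2673) (C.ref (nat_lit 4) (nat_lit 52184255476216336)) (C.cons (nat_lit 2665) (C.ref (nat_lit 4) (nat_lit 52184186756743696)) (C.cons (nat_lit 2661)
  (C.ref (nat_lit 4) (nat_lit 52184118037267216)) (C.cons (nat_lit 2659) (C.ref (nat_lit 4) (nat_lit 52184049317790496)) (C.cons (nat_lit 2649) (C.ref (nat_lit 4) (nat_lit 52183087245120016)) (C.cons (nat_lit 2645) (C.ref (nat_lit 4) (nat_lit 52183018525643536)) (C.cons (nat_lit 2643) (C.ref (nat_lit 4) (nat_lit 52182949806166816)) (C.cons (nat_lit 2637) (C.ref (nat_lit 4) (nat_lit 52181919014016016)) (C.cons (nat_lit 2635) (C.ref (nat_lit 4) (nat_lit 52181850294539296)) (C.cons (nat_lit 2631) (C.ref (nat_lit 4) (nat_lit 52180750782911536)) (C.cons (nat_lit 2617) (C.ref (nat_lit 4) (nat_lit 52165495059079696))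 (C.cons (nat_lit 2613) (C.ref (nat_lit 4) (nat_lit 52165426339603216)) (C.cons (nat_lit 2611) (C.ref (nat_lit 4) (nat_lit 52165357620126496)) (C.cons (nat_lit 2605) (C.ref (nat_lit 4) (nat_lit 52164326827975696)) (C.cons (nat_lit 2603) (C.ref (nat_lit 4) (nat_lit 52164258108498976)) (C.cons (nat_lit 2599) (C.ref (nat_lit 4) (nat_lit 52163158596871216)) (C.cons (nat_lit 2589) (C.ref (nat_lit 4) (nat_lit 52146734641931536)) (C.cons (nat_lit 2587) (C.ref (nat_lit 4) (nat_lit 52146665922454816)) (C.cons (nat_lit 2583) (C.ref (nat_lit 4) (nat_lit 52145566410827056)) (C.cons (nat_lit 2575) (C.ref (nat_lit 4) (nat_lit 52127974224782656)) (C.cons (nat_lit 2529) (C.ref (nat_lit 4) (nat_lit 51921540917506576)) (C.cons (nat_lit 2513) (C.ref (nat_lit 4) (nat_lit 51921472198095376)) (C.cons (nat_lit 2505) (C.ref (nat_lit 4) (nat_lit 51921403478622736)) (C.cons (nat_lit 2501) (C.ref (nat_lit 4) (nat_lit 51921334759146256)) (C.cons (nat_lit 2499) (C.ref (nat_lit 4) (nat_lit 51921266039669536))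 (C.cons (nat_lit 2481) (C.ref (nat_lit 4) (nat_lit 51920372686533136)) (C.cons (nat_lit 2473) (C.ref (nat_lit 4) (nat_lit 51920303967060496)) (C.cons (nat_lit 2469) (C.ref (nat_lit 4) (nat_lit 51920235247584016)) (C.cons (nat_lit 2467) (C.ref (nat_lit 4) (nat_lit 51920166528107296)) (C.cons (nat_lit 2457) (C.ref (nat_lit 4) (nat_lit 51919204455436816)) (C.cons (nat_lit 2453) (C.ref (nat_lit 4) (nat_lit 51919135735960336)) (C.cons (nat_lit 2451) (C.ref (nat_lit 4) (nat_lit 51919067016483616)) (C.cons (nat_lit 2445) (C.ref (nat_lit 4) (nat_lit 51918036224332816)) (C.cons (nat_lit 2443) (C.ref (nat_lit 4) (nat_lit 51917967504856096)) (C.cons (nat_lit 2439) (C.ref (nat_lit 4) (nat_lit 51916867993228336)) (C.cons (nat_lit 2417) (C.ref (nat_lit 4) (nat_lit 51902780500554256)) (C.cons (nat_lit 2409) (C.ref (nat_lit 4) (nat_lit 51902711781081616)) (C.cons (nat_lit 2405) (C.ref (nat_lit 4) (nat_lit 51902643061605136)) (C.cons (nat_lit 2403) (C.ref (nat_lit 4) (nat_lit 51902574342128416))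 (C.cons (nat_lit 2393) (C.ref (nat_lit 4) (nat_lit 51901612269457936)) (C.cons (nat_lit 2389) (C.ref (nat_lit 4) (nat_lit 51901543549981456)) (C.cons (nat_lit 2387) (C.ref (nat_lit 4) (nat_lit 51901474830504736)) (C.cons (nat_lit 2381) (C.ref (nat_lit 4) (nat_lit 51900444038353936)) (C.cons (nat_lit 2379) (C.ref (nat_lit 4) (nat_lit 51900375318877216)) (C.cons (nat_lit 2375) (C.ref (nat_lit 4) (nat_lit 51899275807249456)) (C.cons (nat_lit 2361) (C.ref (nat_lit 4) (nat_lit 51884020083417616)) (C.cons (nat_lit 2357) (C.ref (nat_lit 4) (nat_lit 51883951363941136)) (C.cons (nat_lit 2355) (C.ref (nat_lit 4) (nat_lit 51883882644464416)) (C.cons (nat_lit 2349) (C.ref (nat_lit 4) (nat_lit 51882851852313616)) (C.cons (nat_lit 2347) (C.ref (nat_lit 4) (nat_lit 51882783132836896)) (C.cons (nat_lit 2343) (C.ref (nat_lit 4) (nat_lit 51881683621209136)) (C.cons (nat_lit 2333) (C.ref (nat_lit 4) (nat_lit 51865259666269456)) (C.cons (nat_lit 2331) (C.ref (nat_lit 4) (nat_lit 51865190946792736))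 (C.cons (nat_lit 2327) (C.ref (nat_lit 4) (nat_lit 51864091435164976)) (C.cons (nat_lit 2319) (C.ref (nat_lit 4) (nat_lit 51846499249120576)) (C.cons (nat_lit 2289) (C.ref (nat_lit 4) (nat_lit 51621305523909136)) (C.cons (nat_lit 2281) (C.ref (nat_lit 4) (nat_lit 51621236804436496)) (C.cons (nat_lit 2277) (C.ref (nat_lit 4) (nat_lit 51621168084960016)) (C.cons (nat_lit 2275)
  (C.ref (nat_lit 4) (nat_lit 51621099365483296)) (C.cons (nat_lit 2265) (C.ref (nat_lit 4) (nat_lit 51620137292812816)) (C.cons (nat_lit 2261) (C.ref (nat_lit 4) (nat_lit 51620068573336336)) (C.cons (nat_lit 2259) (C.ref (nat_lit 4) (nat_lit 51619999853859616)) (C.cons (nat_lit 2253) (C.ref (nat_lit 4) (nat_lit 51618969061708816)) (C.cons (nat_lit 2251) (C.ref (nat_lit 4) (nat_lit 51618900342232096)) (C.cons (nat_lit 2247) (C.ref (nat_lit 4) (nat_lit 51617800830604336)) (C.cons (nat_lit 2233) (C.ref (nat_lit 4) (nat_lit 51602545106772496)) (C.cons (nat_lit 2229) (C.ref (nat_lit 4) (nat_lit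 51602476387296016)) (C.cons (nat_lit 2227) (C.ref (nat_lit 4) (nat_lit 51602407667819296)) (C.cons (nat_lit 2221) (C.ref (nat_lit 4) (nat_lit 51601376875668496)) (C.cons (nat_lit 2219) (C.ref (nat_lit 4) (nat_lit 51601308156191776)) (C.cons (nat_lit 2215) (C.ref (nat_lit 4) (nat_lit 51600208644564016)) (C.cons (nat_lit 2205) (C.ref (nat_lit 4) (nat_lit 51583784689624336)) (C.cons (nat_lit 2203) (C.ref (nat_lit 4) (nat_lit 51583715970147616)) (C.cons (nat_lit 2199) (C.ref (nat_lit 4) (nat_lit 51582616458519856)) (C.cons (nat_lit 2191) (C.ref (nat_lit 4) (nat_lit 51565024272475456)) (C.cons (nat_lit 2169) (C.ref (nat_lit 4) (nat_lit 51321070130065936)) (C.cons (nat_lit 2165) (C.ref (nat_lit 4) (nat_lit 51321001410589456)) (C.cons (nat_lit 2163) (C.ref (nat_lit 4) (nat_lit 51320932691112736)) (C.cons (nat_lit 2157) (C.ref (nat_lit 4) (nat_lit 51319901898961936)) (C.cons (nat_lit 2155) (C.ref (nat_lit 4) (nat_lit 51319833179485216)) (C.cons (nat_lit 2151) (C.ref (nat_lit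 4) (nat_lit 51318733667857456)) (C.cons (nat_lit 2141) (C.ref (nat_lit 4) (nat_lit 51302309712917776)) (C.cons (nat_lit 2139) (C.ref (nat_lit 4) (nat_lit 51302240993441056)) (C.cons (nat_lit 2135) (C.ref (nat_lit 4) (nat_lit 51301141481813296)) (C.cons (nat_lit 2127) (C.ref (nat_lit 4) (nat_lit 51283549295768896)) (C.cons (nat_lit 2109) (C.ref (nat_lit 4) (nat_lit 51020834736207376)) (C.cons (nat_lit 2107) (C.ref (nat_lit 4) (nat_lit 51020766016730656)) (C.cons (nat_lit 2103) (C.ref (nat_lit 4) (nat_lit 51019666505102896)) (C.cons (nat_lit 2095) (C.ref (nat_lit 4) (nat_lit 51002074319058496)) (C.cons (nat_lit 2079) (C.ref (nat_lit 4) (nat_lit 50720599342347856)) (C.cons (nat_lit 1985) (C.ref (nat_lit 4) (nat_lit 47718176696578576)) (C.cons (nat_lit 1953) (C.ref (nat_lit 4) (nat_lit 47718107978150416)) (C.cons (nat_lit 1937) (C.ref (nat_lit 4) (nat_lit 47718039258739216)) (C.cons (nat_lit 1929) (C.ref (nat_lit 4) (nat_lit 47717970539266576)) (C.cons (nat_lit 1925)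 (C.ref (nat_lit 4) (nat_lit 47717901819790096)) (C.cons (nat_lit 1923) (C.ref (nat_lit 4) (nat_lit 47717833100313376)) (C.cons (nat_lit 1889) (C.ref (nat_lit 4) (nat_lit 47717008467571216)) (C.cons (nat_lit 1873) (C.ref (nat_lit 4) (nat_lit 47716939748160016)) (C.cons (nat_lit 1865) (C.ref (nat_lit 4) (nat_lit 47716871028687376)) (C.cons (nat_lit 1861) (C.ref (nat_lit 4) (nat_lit 47716802309210896)) (C.cons (nat_lit 1859) (C.ref (nat_lit 4) (nat_lit 47716733589734176)) (C.cons (nat_lit 1841) (C.ref (nat_lit 4) (nat_lit 47715840236597776)) (C.cons (nat_lit 1833) (C.ref (nat_lit 4) (nat_lit 47715771517125136)) (C.cons (nat_lit 1829) (C.ref (nat_lit 4) (nat_lit 47715702797648656)) (C.cons (nat_lit 1827) (C.ref (nat_lit 4) (nat_lit 47715634078171936)) (C.cons (nat_lit 1817) (C.ref (nat_lit 4) (nat_lit 47714672005501456)) (C.cons (nat_lit 1813) (C.ref (nat_lit 4) (nat_lit 47714603286024976)) (C.cons (nat_lit 1811) (C.ref (nat_lit 4) (nat_lit 47714534566548256)) (C.cons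 (nat_lit 1805) (C.ref (nat_lit 4) (nat_lit 47713503774397456)) (C.cons (nat_lit 1803) (C.ref (nat_lit 4) (nat_lit 47713435054920736)) (C.cons (nat_lit 1799) (C.ref (nat_lit 4) (nat_lit 47712335543292976)) (C.cons (nat_lit 1761) (C.ref (nat_lit 4) (nat_lit 47699416282575376)) (C.cons (nat_lit 1745) (C.ref (nat_lit 4) (nat_lit 47699347563164176)) (C.cons (nat_lit 1737) (C.ref (nat_lit 4) (nat_lit 47699278843691536)) (C.cons (nat_lit 1733)
  (C.ref (nat_lit 4) (nat_lit 47699210124215056)) (C.cons (nat_lit 1731) (C.ref (nat_lit 4) (nat_lit 47699141404738336)) (C.cons (nat_lit 1713) (C.ref (nat_lit 4) (nat_lit 47698248051601936)) (C.cons (nat_lit 1705) (C.ref (nat_lit 4) (nat_lit 47698179332129296)) (C.cons (nat_lit 1701) (C.ref (nat_lit 4) (nat_lit 47698110612652816)) (C.cons (nat_lit 1699) (C.ref (nat_lit 4) (nat_lit 47698041893176096)) (C.cons (nat_lit 1689) (C.ref (nat_lit 4) (nat_lit 47697079820505616)) (C.cons (nat_lit 1685) (C.ref (nat_lit 4) (nat_lit 47697011101029136))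 (C.cons (nat_lit 1683) (C.ref (nat_lit 4) (nat_lit 47696942381552416)) (C.cons (nat_lit 1677) (C.ref (nat_lit 4) (nat_lit 47695911589401616)) (C.cons (nat_lit 1675) (C.ref (nat_lit 4) (nat_lit 47695842869924896)) (C.cons (nat_lit 1671) (C.ref (nat_lit 4) (nat_lit 47694743358297136)) (C.cons (nat_lit 1649) (C.ref (nat_lit 4) (nat_lit 47680655865623056)) (C.cons (nat_lit 1641) (C.ref (nat_lit 4) (nat_lit 47680587146150416)) (C.cons (nat_lit 1637) (C.ref (nat_lit 4) (nat_lit 47680518426673936)) (C.cons (nat_lit 1635) (C.ref (nat_lit 4) (nat_lit 47680449707197216)) (C.cons (nat_lit 1625) (C.ref (nat_lit 4) (nat_lit 47679487634526736)) (C.cons (nat_lit 1621) (C.ref (nat_lit 4) (nat_lit 47679418915050256)) (C.cons (nat_lit 1619) (C.ref (nat_lit 4) (nat_lit 47679350195573536)) (C.cons (nat_lit 1613) (C.ref (nat_lit 4) (nat_lit 47678319403422736)) (C.cons (nat_lit 1611) (C.ref (nat_lit 4) (nat_lit 47678250683946016)) (C.cons (nat_lit 1607) (C.ref (nat_lit 4) (nat_lit 47677151172318256))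 (C.cons (nat_lit 1593) (C.ref (nat_lit 4) (nat_lit 47661895448486416)) (C.cons (nat_lit 1589) (C.ref (nat_lit 4) (nat_lit 47661826729009936)) (C.cons (nat_lit 1587) (C.ref (nat_lit 4) (nat_lit 47661758009533216)) (C.cons (nat_lit 1581) (C.ref (nat_lit 4) (nat_lit 47660727217382416)) (C.cons (nat_lit 1579) (C.ref (nat_lit 4) (nat_lit 47660658497905696)) (C.cons (nat_lit 1575) (C.ref (nat_lit 4) (nat_lit 47659558986277936)) (C.cons (nat_lit 1565) (C.ref (nat_lit 4) (nat_lit 47643135031338256)) (C.cons (nat_lit 1563) (C.ref (nat_lit 4) (nat_lit 47643066311861536)) (C.cons (nat_lit 1559) (C.ref (nat_lit 4) (nat_lit 47641966800233776)) (C.cons (nat_lit 1551) (C.ref (nat_lit 4) (nat_lit 47624374614189376)) (C.cons (nat_lit 1505) (C.ref (nat_lit 4) (nat_lit 47417941306913296)) (C.cons (nat_lit 1489) (C.ref (nat_lit 4) (nat_lit 47417872587502096)) (C.cons (nat_lit 1481) (C.ref (nat_lit 4) (nat_lit 47417803868029456)) (C.cons (nat_lit 1477) (C.ref (nat_lit 4) (nat_lit 47417735148552976))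 (C.cons (nat_lit 1475) (C.ref (nat_lit 4) (nat_lit 47417666429076256)) (C.cons (nat_lit 1457) (C.ref (nat_lit 4) (nat_lit 47416773075939856)) (C.cons (nat_lit 1449) (C.ref (nat_lit 4) (nat_lit 47416704356467216)) (C.cons (nat_lit 1445) (C.ref (nat_lit 4) (nat_lit 47416635636990736)) (C.cons (nat_lit 1443) (C.ref (nat_lit 4) (nat_lit 47416566917514016)) (C.cons (nat_lit 1433) (C.ref (nat_lit 4) (nat_lit 47415604844843536)) (C.cons (nat_lit 1429) (C.ref (nat_lit 4) (nat_lit 47415536125367056)) (C.cons (nat_lit 1427) (C.ref (nat_lit 4) (nat_lit 47415467405890336)) (C.cons (nat_lit 1421) (C.ref (nat_lit 4) (nat_lit 47414436613739536)) (C.cons (nat_lit 1419) (C.ref (nat_lit 4) (nat_lit 47414367894262816)) (C.cons (nat_lit 1415) (C.ref (nat_lit 4) (nat_lit 47413268382635056)) (C.cons (nat_lit 1393) (C.ref (nat_lit 4) (nat_lit 47399180889960976)) (C.cons (nat_lit 1385) (C.ref (nat_lit 4) (nat_lit 47399112170488336)) (C.cons (nat_lit 1381) (C.ref (nat_lit 4) (nat_lit 47399043451011856))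 (C.cons (nat_lit 1379) (C.ref (nat_lit 4) (nat_lit 47398974731535136)) (C.cons (nat_lit 1369) (C.ref (nat_lit 4) (nat_lit 47398012658864656)) (C.cons (nat_lit 1365) (C.ref (nat_lit 4) (nat_lit 47397943939388176)) (C.cons (nat_lit 1363) (C.ref (nat_lit 4) (nat_lit 47397875219911456)) (C.cons (nat_lit 1357) (C.ref (nat_lit 4) (nat_lit 47396844427760656)) (C.cons (nat_lit 1355) (C.ref (nat_lit 4) (nat_lit 47396775708283936)) (C.cons (nat_lit 1351)
  (C.ref (nat_lit 4) (nat_lit 47395676196656176)) (C.cons (nat_lit 1337) (C.ref (nat_lit 4) (nat_lit 47380420472824336)) (C.cons (nat_lit 1333) (C.ref (nat_lit 4) (nat_lit 47380351753347856)) (C.cons (nat_lit 1331) (C.ref (nat_lit 4) (nat_lit 47380283033871136)) (C.cons (nat_lit 1325) (C.ref (nat_lit 4) (nat_lit 47379252241720336)) (C.cons (nat_lit 1323) (C.ref (nat_lit 4) (nat_lit 47379183522243616)) (C.cons (nat_lit 1319) (C.ref (nat_lit 4) (nat_lit 47378084010615856)) (C.cons (nat_lit 1309) (C.ref (nat_lit 4) (nat_lit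 47361660055676176)) (C.cons (nat_lit 1307) (C.ref (nat_lit 4) (nat_lit 47361591336199456)) (C.cons (nat_lit 1303) (C.ref (nat_lit 4) (nat_lit 47360491824571696)) (C.cons (nat_lit 1295) (C.ref (nat_lit 4) (nat_lit 47342899638527296)) (C.cons (nat_lit 1265) (C.ref (nat_lit 4) (nat_lit 47117705913315856)) (C.cons (nat_lit 1257) (C.ref (nat_lit 4) (nat_lit 47117637193843216)) (C.cons (nat_lit 1253) (C.ref (nat_lit 4) (nat_lit 47117568474366736)) (C.cons (nat_lit 1251) (C.ref (nat_lit 4) (nat_lit 47117499754890016)) (C.cons (nat_lit 1241) (C.ref (nat_lit 4) (nat_lit 47116537682219536)) (C.cons (nat_lit 1237) (C.ref (nat_lit 4) (nat_lit 47116468962743056)) (C.cons (nat_lit 1235) (C.ref (nat_lit 4) (nat_lit 47116400243266336)) (C.cons (nat_lit 1229) (C.ref (nat_lit 4) (nat_lit 47115369451115536)) (C.cons (nat_lit 1227) (C.ref (nat_lit 4) (nat_lit 47115300731638816)) (C.cons (nat_lit 1223) (C.ref (nat_lit 4) (nat_lit 47114201220011056)) (C.cons (nat_lit 1209) (C.ref (nat_lit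 4) (nat_lit 47098945496179216)) (C.cons (nat_lit 1205) (C.ref (nat_lit 4) (nat_lit 47098876776702736)) (C.cons (nat_lit 1203) (C.ref (nat_lit 4) (nat_lit 47098808057226016)) (C.cons (nat_lit 1197) (C.ref (nat_lit 4) (nat_lit 47097777265075216)) (C.cons (nat_lit 1195) (C.ref (nat_lit 4) (nat_lit 47097708545598496)) (C.cons (nat_lit 1191) (C.ref (nat_lit 4) (nat_lit 47096609033970736)) (C.cons (nat_lit 1181) (C.ref (nat_lit 4) (nat_lit 47080185079031056)) (C.cons (nat_lit 1179) (C.ref (nat_lit 4) (nat_lit 47080116359554336)) (C.cons (nat_lit 1175) (C.ref (nat_lit 4) (nat_lit 47079016847926576)) (C.cons (nat_lit 1167) (C.ref (nat_lit 4) (nat_lit 47061424661882176)) (C.cons (nat_lit 1145) (C.ref (nat_lit 4) (nat_lit 46817470519472656)) (C.cons (nat_lit 1141) (C.ref (nat_lit 4) (nat_lit 46817401799996176)) (C.cons (nat_lit 1139) (C.ref (nat_lit 4) (nat_lit 46817333080519456)) (C.cons (nat_lit 1133) (C.ref (nat_lit 4) (nat_lit 46816302288368656)) (C.cons (nat_lit 1131)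 (C.ref (nat_lit 4) (nat_lit 46816233568891936)) (C.cons (nat_lit 1127) (C.ref (nat_lit 4) (nat_lit 46815134057264176)) (C.cons (nat_lit 1117) (C.ref (nat_lit 4) (nat_lit 46798710102324496)) (C.cons (nat_lit 1115) (C.ref (nat_lit 4) (nat_lit 46798641382847776)) (C.cons (nat_lit 1111) (C.ref (nat_lit 4) (nat_lit 46797541871220016)) (C.cons (nat_lit 1103) (C.ref (nat_lit 4) (nat_lit 46779949685175616)) (C.cons (nat_lit 1085) (C.ref (nat_lit 4) (nat_lit 46517235125614096)) (C.cons (nat_lit 1083) (C.ref (nat_lit 4) (nat_lit 46517166406137376)) (C.cons (nat_lit 1079) (C.ref (nat_lit 4) (nat_lit 46516066894509616)) (C.cons (nat_lit 1071) (C.ref (nat_lit 4) (nat_lit 46498474708465216)) (C.cons (nat_lit 1055) (C.ref (nat_lit 4) (nat_lit 46216999731754576)) (C.cons (nat_lit 993) (C.ref (nat_lit 4) (nat_lit 42914341680591376)) (C.cons (nat_lit 977) (C.ref (nat_lit 4) (nat_lit 42914272961180176)) (C.cons (nat_lit 969) (C.ref (nat_lit 4) (nat_lit 42914204241707536)) (C.cons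 (nat_lit 965) (C.ref (nat_lit 4) (nat_lit 42914135522231056)) (C.cons (nat_lit 963) (C.ref (nat_lit 4) (nat_lit 42914066802754336)) (C.cons (nat_lit 945) (C.ref (nat_lit 4) (nat_lit 42913173449617936)) (C.cons (nat_lit 937) (C.ref (nat_lit 4) (nat_lit 42913104730145296)) (C.cons (nat_lit 933) (C.ref (nat_lit 4) (nat_lit 42913036010668816)) (C.cons (nat_lit 931) (C.ref (nat_lit 4) (nat_lit 42912967291192096)) (C.cons (nat_lit 921) (C.ref (nat_lit 4) (nat_lit 42912005218521616)) (C.cons (nat_lit 917)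
  (C.ref (nat_lit 4) (nat_lit 42911936499045136)) (C.cons (nat_lit 915) (C.ref (nat_lit 4) (nat_lit 42911867779568416)) (C.cons (nat_lit 909) (C.ref (nat_lit 4) (nat_lit 42910836987417616)) (C.cons (nat_lit 907) (C.ref (nat_lit 4) (nat_lit 42910768267940896)) (C.cons (nat_lit 903) (C.ref (nat_lit 4) (nat_lit 42909668756313136)) (C.cons (nat_lit 881) (C.ref (nat_lit 4) (nat_lit 42895581263639056)) (C.cons (nat_lit 873) (C.ref (nat_lit 4) (nat_lit 42895512544166416)) (C.cons (nat_lit 869) (C.ref (nat_lit 4) (nat_lit 42895443824689936)) (C.cons (nat_lit 867) (C.ref (nat_lit 4) (nat_lit 42895375105213216)) (C.cons (nat_lit 857) (C.ref (nat_lit 4) (nat_lit 42894413032542736)) (C.cons (nat_lit 853) (C.ref (nat_lit 4) (nat_lit 42894344313066256)) (C.cons (nat_lit 851) (C.ref (nat_lit 4) (nat_lit 42894275593589536)) (C.cons (nat_lit 845) (C.ref (nat_lit 4) (nat_lit 42893244801438736)) (C.cons (nat_lit 843) (C.ref (nat_lit 4) (nat_lit 42893176081962016)) (C.cons (nat_lit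 839) (C.ref (nat_lit 4) (nat_lit 42892076570334256)) (C.cons (nat_lit 825) (C.ref (nat_lit 4) (nat_lit 42876820846502416)) (C.cons (nat_lit 821) (C.ref (nat_lit 4) (nat_lit 42876752127025936)) (C.cons (nat_lit 819) (C.ref (nat_lit 4) (nat_lit 42876683407549216)) (C.cons (nat_lit 813) (C.ref (nat_lit 4) (nat_lit 42875652615398416)) (C.cons (nat_lit 811) (C.ref (nat_lit 4) (nat_lit 42875583895921696)) (C.cons (nat_lit 807) (C.ref (nat_lit 4) (nat_lit 42874484384293936)) (C.cons (nat_lit 797) (C.ref (nat_lit 4) (nat_lit 42858060429354256)) (C.cons (nat_lit 795) (C.ref (nat_lit 4) (nat_lit 42857991709877536)) (C.cons (nat_lit 791) (C.ref (nat_lit 4) (nat_lit 42856892198249776)) (C.cons (nat_lit 783) (C.ref (nat_lit 4) (nat_lit 42839300012205376)) (C.cons (nat_lit 753) (C.ref (nat_lit 4) (nat_lit 42614106286993936)) (C.cons (nat_lit 745) (C.ref (nat_lit 4) (nat_lit 42614037567521296)) (C.cons (nat_lit 741) (C.ref (nat_lit 4) (nat_lit 42613968848044816)) (C.cons (nat_lit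 739) (C.ref (nat_lit 4) (nat_lit 42613900128568096)) (C.cons (nat_lit 729) (C.ref (nat_lit 4) (nat_lit 42612938055897616)) (C.cons (nat_lit 725) (C.ref (nat_lit 4) (nat_lit 42612869336421136)) (C.cons (nat_lit 723) (C.ref (nat_lit 4) (nat_lit 42612800616944416)) (C.cons (nat_lit 717) (C.ref (nat_lit 4) (nat_lit 42611769824793616)) (C.cons (nat_lit 715) (C.ref (nat_lit 4) (nat_lit 42611701105316896)) (C.cons (nat_lit 711) (C.ref (nat_lit 4) (nat_lit 42610601593689136)) (C.cons (nat_lit 697) (C.ref (nat_lit 4) (nat_lit 42595345869857296)) (C.cons (nat_lit 693) (C.ref (nat_lit 4) (nat_lit 42595277150380816)) (C.cons (nat_lit 691) (C.ref (nat_lit 4) (nat_lit 42595208430904096)) (C.cons (nat_lit 685) (C.ref (nat_lit 4) (nat_lit 42594177638753296)) (C.cons (nat_lit 683) (C.ref (nat_lit 4) (nat_lit 42594108919276576)) (C.cons (nat_lit 679) (C.ref (nat_lit 4) (nat_lit 42593009407648816)) (C.cons (nat_lit 669) (C.ref (nat_lit 4) (nat_lit 42576585452709136)) (C.cons (nat_lit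 667) (C.ref (nat_lit 4) (nat_lit 42576516733232416)) (C.cons (nat_lit 663) (C.ref (nat_lit 4) (nat_lit 42575417221604656)) (C.cons (nat_lit 655) (C.ref (nat_lit 4) (nat_lit 42557825035560256)) (C.cons (nat_lit 633) (C.ref (nat_lit 4) (nat_lit 42313870893150736)) (C.cons (nat_lit 629) (C.ref (nat_lit 4) (nat_lit 42313802173674256)) (C.cons (nat_lit 627) (C.ref (nat_lit 4) (nat_lit 42313733454197536)) (C.cons (nat_lit 621) (C.ref (nat_lit 4) (nat_lit 42312702662046736)) (C.cons (nat_lit 619) (C.ref (nat_lit 4) (nat_lit 42312633942570016)) (C.cons (nat_lit 615) (C.ref (nat_lit 4) (nat_lit 42311534430942256)) (C.cons (nat_lit 605) (C.ref (nat_lit 4) (nat_lit 42295110476002576)) (C.cons (nat_lit 603) (C.ref (nat_lit 4) (nat_lit 42295041756525856)) (C.cons (nat_lit 599) (C.ref (nat_lit 4) (nat_lit 42293942244898096)) (C.cons (nat_lit 591) (C.ref (nat_lit 4) (nat_lit 42276350058853696)) (C.cons (nat_lit 573) (C.ref (nat_lit 4) (nat_lit 42013635499292176)) (C.cons (nat_lit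 571) (C.ref (nat_lit 4) (nat_lit 42013566779815456)) (C.cons (nat_lit 567)
  (C.ref (nat_lit 4) (nat_lit 42012467268187696)) (C.cons (nat_lit 559) (C.ref (nat_lit 4) (nat_lit 41994875082143296)) (C.cons (nat_lit 543) (C.ref (nat_lit 4) (nat_lit 41713400105432656)) (C.cons (nat_lit 497) (C.ref (nat_lit 4) (nat_lit 38110506659688976)) (C.cons (nat_lit 489) (C.ref (nat_lit 4) (nat_lit 38110437940216336)) (C.cons (nat_lit 485) (C.ref (nat_lit 4) (nat_lit 38110369220739856)) (C.cons (nat_lit 483) (C.ref (nat_lit 4) (nat_lit 38110300501263136)) (C.cons (nat_lit 473) (C.ref (nat_lit 4) (nat_lit 38109338428592656)) (C.cons (nat_lit 469) (C.ref (nat_lit 4) (nat_lit 38109269709116176)) (C.cons (nat_lit 467) (C.ref (nat_lit 4) (nat_lit 38109200989639456)) (C.cons (nat_lit 461) (C.ref (nat_lit 4) (nat_lit 38108170197488656)) (C.cons (nat_lit 459) (C.ref (nat_lit 4) (nat_lit 38108101478011936)) (C.cons (nat_lit 455) (C.ref (nat_lit 4) (nat_lit 38107001966384176)) (C.cons (nat_lit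 441) (C.ref (nat_lit 4) (nat_lit 38091746242552336)) (C.cons (nat_lit 437) (C.ref (nat_lit 4) (nat_lit 38091677523075856)) (C.cons (nat_lit 435) (C.ref (nat_lit 4) (nat_lit 38091608803599136)) (C.cons (nat_lit 429) (C.ref (nat_lit 4) (nat_lit 38090578011448336)) (C.cons (nat_lit 427) (C.ref (nat_lit 4) (nat_lit 38090509291971616)) (C.cons (nat_lit 423) (C.ref (nat_lit 4) (nat_lit 38089409780343856)) (C.cons (nat_lit 413) (C.ref (nat_lit 4) (nat_lit 38072985825404176)) (C.cons (nat_lit 411) (C.ref (nat_lit 4) (nat_lit 38072917105927456)) (C.cons (nat_lit 407) (C.ref (nat_lit 4) (nat_lit 38071817594299696)) (C.cons (nat_lit 399) (C.ref (nat_lit 4) (nat_lit 38054225408255296)) (C.cons (nat_lit 377) (C.ref (nat_lit 4) (nat_lit 37810271265845776)) (C.cons (nat_lit 373) (C.ref (nat_lit 4) (nat_lit 37810202546369296)) (C.cons (nat_lit 371) (C.ref (nat_lit 4) (nat_lit 37810133826892576)) (C.cons (nat_lit 365) (C.ref (nat_lit 4) (nat_lit 37809103034741776)) (C.cons (nat_lit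 363) (C.ref (nat_lit 4) (nat_lit 37809034315265056)) (C.cons (nat_lit 359) (C.ref (nat_lit 4) (nat_lit 37807934803637296)) (C.cons (nat_lit 349) (C.ref (nat_lit 4) (nat_lit 37791510848697616)) (C.cons (nat_lit 347) (C.ref (nat_lit 4) (nat_lit 37791442129220896)) (C.cons (nat_lit 343) (C.ref (nat_lit 4) (nat_lit 37790342617593136)) (C.cons (nat_lit 335) (C.ref (nat_lit 4) (nat_lit 37772750431548736)) (C.cons (nat_lit 317) (C.ref (nat_lit 4) (nat_lit 37510035871987216)) (C.cons (nat_lit 315) (C.ref (nat_lit 4) (nat_lit 37509967152510496)) (C.cons (nat_lit 311) (C.ref (nat_lit 4) (nat_lit 37508867640882736)) (C.cons (nat_lit 303) (C.ref (nat_lit 4) (nat_lit 37491275454838336)) (C.cons (nat_lit 287) (C.ref (nat_lit 4) (nat_lit 37209800478127696)) (C.cons (nat_lit 249) (C.ref (nat_lit 4) (nat_lit 33306671638479376)) (C.cons (nat_lit 245) (C.ref (nat_lit 4) (nat_lit 33306602919002896)) (C.cons (nat_lit 243) (C.ref (nat_lit 4) (nat_lit 33306534199526176)) (C.cons (nat_lit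 237) (C.ref (nat_lit 4) (nat_lit 33305503407375376)) (C.cons (nat_lit 235) (C.ref (nat_lit 4) (nat_lit 33305434687898656)) (C.cons (nat_lit 231) (C.ref (nat_lit 4) (nat_lit 33304335176270896)) (C.cons (nat_lit 221) (C.ref (nat_lit 4) (nat_lit 33287911221331216)) (C.cons (nat_lit 219) (C.ref (nat_lit 4) (nat_lit 33287842501854496)) (C.cons (nat_lit 215) (C.ref (nat_lit 4) (nat_lit 33286742990226736)) (C.cons (nat_lit 207) (C.ref (nat_lit 4) (nat_lit 33269150804182336)) (C.cons (nat_lit 189) (C.ref (nat_lit 4) (nat_lit 33006436244620816)) (C.cons (nat_lit 187) (C.ref (nat_lit 4) (nat_lit 33006367525144096)) (C.cons (nat_lit 183) (C.ref (nat_lit 4) (nat_lit 33005268013516336)) (C.cons (nat_lit 175) (C.ref (nat_lit 4) (nat_lit 32987675827471936)) (C.cons (nat_lit 159) (C.ref (nat_lit 4) (nat_lit 32706200850761296)) (C.cons (nat_lit 125) (C.ref (nat_lit 4) (nat_lit 28502836617250576)) (C.cons (nat_lit 123) (C.ref (nat_lit 4) (nat_lit 28502767897773856)) (C.cons (nat_lit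 119) (C.ref (nat_lit 4) (nat_lit 28501668386146096)) (C.cons (nat_lit 111) (C.ref (nat_lit 4) (nat_lit 28484076200101696)) (C.cons (nat_lit 95)
  (C.ref (nat_lit 4) (nat_lit 28202601223391056)) (C.cons (nat_lit 63) (C.ref (nat_lit 4) (nat_lit 23699001596020576)) C.nil))))))))))))))))))))))))))))))))))))))))))))))))))))))))))))))))))))))))))))))))))))))))))))))))))))))))))))))))))))))))))))))))))))))))))))))))))))))))))))))))))))))))))))))))))))))))))))))))))))))))))))))))))))))))))))))))))))))))))))))))))))))))))))))))))))))))))))))))))))))))))))))))))))))))))))))))))))))))))))))))))))))))))))))))))))))))))))))))))))))))))))))))))))))))))))))))))))))))))))))))))))))))))))))))))))))))))))))))))))))))))))))))))))))))))))))))))))))))))))))))))))))))))))))))))))))))))))))))))))))))))))))))))))))))))))))))))))))))))))))))))))))))))))))))))))))))))))))))))))))))))))))))))))))))))))))))))))))))))))))))))))))))))))))))))))))))))))))))))))))))))))))))))))))))))))))))))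))))))))))))))))))))))))))))))))))))))))))))))))))))))))))))))))))))))))))))))))))))))))))))))))))))))))))))))))))))))))))))))))))))))))))))))))))))))))))))))))))))))))))))))))))))))))))))))))))))))))))))))))))))))))))))))))))))))))))))))))))))))))))))))))))))))))))))))))))))))))))))))))))))))))))))))))))))))))))))))))))))))))))))))))))))))))))))))))))))))))))))))))))))))))))))))))))))))))))))))))))))))))))))))))))))))))))))))))))))))))))))))))))))))))))))))))))))))))))))))))))))))))))))))))))))))))))))))))))))))))))))))))))))))))))))))))))))))))))))))))))))))))))))))))))))) C.nil) List.nil)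

theorem ok14_5 : okL par14 (nat_lit 6) c14_5 (nat_lit 5) = true := by decide +kernel


end Pool.Agent.MP_1f1ca1_co
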