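import Pool.Agent.Mg.F1f1ca1.G5b5a76

section

set_option autoImplicit false
set_option maxRecDepth 1000000
set_option maxHeartbeats 0

namespace Pool.Agent.MP_1f1ca1_co

noncomputable def c12_243 : List C :=
  (List.cons (C.node (nat_lit 3) (nat_lit 4) (nat_lit 7) (C.cons (nat_lit 216) (C.node (nat_lit 3) (nat_lit 4) (nat_lit 9) (C.cons (nat_lit 1560) (C.miq (nat_lit 1464011674) (nat_lit 261147623459002638166134529)) (C.cons (nat_lit 792) (C.miq (nat_lit 2838760295) (nat_lit 957490851353253310165944545)) (C.cons (nat_lit 536) (C.miq (nat_lit 2838760295) (nat_lit 648005841531908241441163489)) C.nil)))) (C.cons (nat_lit 184) (C.miq (nat_lit 2876442949) (nat_lit 2640313636901945617380016689)) (C.cons (nat_lit 152) (C.node (nat_lit 4) (nat_lit 6) (nat_lit 7) (C.cons (nat_lit 212) (C.miq (nat_lit 2873493874) (nat_lit 2575032159151589705815163525)) (C.cons (nat_lit 208) (C.node (nat_lit 3) (nat_lit 4) (nat_lit 9) (C.cons (nat_lit 1560) (C.miq (nat_lit 1464011674)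 (nat_lit 183776371003666370984939265)) (C.cons (nat_lit 792) (C.node (nat_lit 6) (nat_lit 7) (nat_lit 9) (C.cons (nat_lit 1728) (C.miq (nat_lit 611715994) (nat_lit 251476733355750573211651841)) (C.cons (nat_lit 962) (C.miq (nat_lit 611388312) (nat_lit 1415656986847057289475657473)) (C.cons (nat_lit 960) (C.miq (nat_lit 1766553648) (nat_lit 3268977345957456209608769929)) (C.cons (nat_lit 706) (C.miq (nat_lit 605621095) (nat_lit 640742583130313680209709281)) (C.cons (nat_lit 704) (C.node (nat_lit 7) (nat_lit 8) (nat_lit 9) (C.cons (nat_lit 930) (C.miq (nat_lit 611388312) (nat_lit 1415656986847057289473560321)) (C.cons (nat_lit 928) (C.miq (nat_lit 1498118192) (nat_lit 3268977345948449010354028937)) (C.cons (nat_lit 898) (C.miq (nat_lit 611388312) (nat_lit 1415656986847057289471463169)) (C.cons (nat_lit 896) (C.node (nat_lit 1) (nat_lit 3) (nat_lit 4) (C.cons (nat_lit 58) (C.node (nat_lit 1) (nat_lit 4) (nat_lit 8) (C.cons (nat_lit 274) (C.node (nat_lit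 1) (nat_lit 3) (nat_lit 11) (C.cons (nat_lit 2314) (C.miq (nat_lit 2958133571) (nat_lit 42355090533446380043240216)) (C.cons (nat_lit 2058) (C.node (nat_lit 1) (nat_lit 8) (nat_lit 9) (C.cons (nat_lit 866) (C.miq (nat_lit 2168165696) (nat_lit 2488040190954651539008717361)) (C.cons (nat_lit 834) (C.miq (nat_lit 728236945) (nat_lit 2862741192925768102352912907)) (C.cons (nat_lit 802) (C.miq (nat_lit 2168165696) (nat_lit 2488040190936637140499235377)) (C.cons (nat_lit 770) (C.node (nat_lit 1) (nat_lit 7) (nat_lit 9) (C.cons (nat_lit 674) (C.node (nat_lit 3) (nat_lit 5) (nat_lit 7) (C.cons (nat_lit 172) (C.miq (nat_lit 2503110976) (nat_lit 207947139313358144257459347)) (C.cons (nat_lit 168) (C.node (nat_lit 3) (nat_lit 5) (nat_lit 9) (C.cons (nat_lit 556) (C.node (nat_lit 5) (nat_lit 9) (nat_lit 11) (C.cons (nat_lit 2592) (C.node (nat_lit 1) (nat_lit 9) (nat_lit 11) (C.cons (nat_lit 2566) (C.node (nat_lit 2) (nat_lit 7) (nat_lit 11) (C.cons (nat_lit 2436)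 (C.miq (nat_lit 2199613586) (nat_lit 2488014273146092310296396421)) C.nil)) C.nil)) C.nil)) (C.cons (nat_lit 552) (C.miq (nat_lit 693307156) (nat_lit 667365366496270653966648467)) C.nil))) C.nil))) (C.cons (nat_lit 642) (C.node (nat_lit 2) (nat_lit 3) (nat_lit 9) (C.cons (nat_lit 1548) (C.miq (nat_lit 1647577752) (nat_lit 2510945144199996434189651713)) (C.cons (nat_lit 556) (C.miq (nat_lit 1500590596) (nat_lit 776131446260251062697134109)) (C.cons (nat_lit 524) (C.node (nat_lit 3) (nat_lit 5) (nat_lit 9) (C.cons (nat_lit 680) (C.miq (nat_lit 1687488567) (nat_lit 678249314347946977631142281)) (C.cons (nat_lit 552) (C.node (nat_lit 5) (nat_lit 7) (nat_lit 9) (C.cons (nat_lit 1696) (C.miq (nat_lit 1397203129) (nat_lit 183788010559152416976015105)) (C.cons (nat_lit 672) (C.node (nat_lit 2) (nat_lit 4) (nat_lit 9) C.nil) C.nil))) C.nil))) C.nil)))) C.nil))) C.nil))))) C.nil))) C.nil)) (C.cons (nat_lit 26) (C.node (nat_lit 3) (nat_lit 4) (nat_lit 5) (C.cons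 (nat_lit 120) (C.miq (nat_lit 2204865616) (nat_lit 3181963611392619803314291249)) (C.cons (nat_lit 56) (C.node (nat_lit 1) (nat_lit 4) (nat_lit 5) (C.cons (nat_lit 306) (C.node (nat_lit 1) (nat_lit 8) (nat_lit 9) (C.cons (nat_lit 834) (C.miq (nat_lit 728236945) (nat_lit 2862741192925768102352912907)) (C.cons (nat_lit 770)
  (C.node (nat_lit 5) (nat_lit 8) (nat_lit 9) (C.cons (nat_lit 868) (C.miq (nat_lit 2035548801) (nat_lit 678228986122672368925147399)) (C.cons (nat_lit 864) (C.miq (nat_lit 996687961) (nat_lit 2862750951253381552814424625)) (C.cons (nat_lit 804) (C.miq (nat_lit 2035548801) (nat_lit 678228986122672094047240455)) (C.cons (nat_lit 800) (C.node (nat_lit 1) (nat_lit 7) (nat_lit 9) (C.cons (nat_lit 674) (C.node (nat_lit 3) (nat_lit 5) (nat_lit 9) (C.cons (nat_lit 556) (C.miq (nat_lit 355760416) (nat_lit 67721447225446070109405829)) (C.cons (nat_lit 552) (C.node (nat_lit 2) (nat_lit 3) (nat_lit 9) (C.cons (nat_lit 1548) (C.miq (nat_lit 1647577752)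 (nat_lit 2510945144199996434189651713)) (C.cons (nat_lit 524) (C.node (nat_lit 4) (nat_lit 5) (nat_lit 7) (C.cons (nat_lit 180) (C.miq (nat_lit 630408976) (nat_lit 667365366365384789826667667)) (C.cons (nat_lit 176) (C.node (nat_lit 1) (nat_lit 9) (nat_lit 11) C.nil) C.nil))) C.nil))) C.nil))) (C.cons (nat_lit 642) (C.node (nat_lit 5) (nat_lit 7) (nat_lit 9) (C.cons (nat_lit 1696) (C.miq (nat_lit 1397203129) (nat_lit 183788010559152416976015105)) (C.cons (nat_lit 680) (C.miq (nat_lit 1687488567) (nat_lit 678249314347946977631142281)) (C.cons (nat_lit 672) (C.node (nat_lit 2) (nat_lit 8) (nat_lit 9) (C.cons (nat_lit 836) (C.node (nat_lit 2) (nat_lit 4) (nat_lit 9) (C.cons (nat_lit 1556) (C.miq (nat_lit 645177529) (nat_lit 251485273921283472583823105)) C.nil)) (C.cons (nat_lit 772) (C.node (nat_lit 6) (nat_lit 8) (nat_lit 9) (C.cons (nat_lit 832) (C.node (nat_lit 2) (nat_lit 4) (nat_lit 9) C.nil) C.nil)) C.nil))) C.nil)))) C.nil))) C.nil))))) C.nil)))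 (C.cons (nat_lit 50) (C.node (nat_lit 1) (nat_lit 4) (nat_lit 8) (C.cons (nat_lit 274) (C.node (nat_lit 3) (nat_lit 4) (nat_lit 6) (C.cons (nat_lit 88) (C.node (nat_lit 3) (nat_lit 4) (nat_lit 10) C.nil) C.nil)) C.nil)) C.nil))) C.nil))) C.nil))) C.nil))))) C.nil)))))) (C.cons (nat_lit 536) (C.node (nat_lit 4) (nat_lit 8) (nat_lit 9) (C.cons (nat_lit 788) (C.node (nat_lit 2) (nat_lit 4) (nat_lit 6) (C.cons (nat_lit 116) (C.miq (nat_lit 2188088400) (nat_lit 2558157888470345232079192625)) (C.cons (nat_lit 84) (C.node (nat_lit 2) (nat_lit 4) (nat_lit 7) (C.cons (nat_lit 180) (C.miq (nat_lit 2220593776) (nat_lit 2533979372078052923462976133)) (C.cons (nat_lit 148) (C.node (nat_lit 6) (nat_lit 7) (nat_lit 9) (C.cons (nat_lit 1728) (C.miq (nat_lit 611715994) (nat_lit 251476733355750573211651841)) (C.cons (nat_lit 962) (C.miq (nat_lit 611388312) (nat_lit 1415656986847057289475657473)) (C.cons (nat_lit 960) (C.miq (nat_lit 1749776672) (nat_lit 2804749831225438589341729413))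 (C.cons (nat_lit 706) (C.miq (nat_lit 605621095) (nat_lit 640742583130313680209709281)) (C.cons (nat_lit 704) (C.node (nat_lit 6) (nat_lit 8) (nat_lit 9) (C.cons (nat_lit 866) (C.miq (nat_lit 728252505) (nat_lit 2862750877466405257976349233)) (C.cons (nat_lit 864) (C.miq (nat_lit 728252505) (nat_lit 2862750877466405257976218161)) (C.cons (nat_lit 834) (C.miq (nat_lit 728236945) (nat_lit 2862741192925768102352912907)) (C.cons (nat_lit 832) (C.node (nat_lit 4) (nat_lit 6) (nat_lit 9) (C.cons (nat_lit 592) (C.node (nat_lit 3) (nat_lit 4) (nat_lit 6) C.nil) C.nil)) C.nil))))) C.nil)))))) C.nil))) C.nil))) (C.cons (nat_lit 784) (C.node (nat_lit 2) (nat_lit 4) (nat_lit 9) (C.cons (nat_lit 1556) (C.miq (nat_lit 645177529) (nat_lit 251485273921283472583823105)) (C.cons (nat_lit 596) (C.node (nat_lit 4) (nat_lit 9) (nat_lit 10) (C.cons (nat_lit 1552) (C.node (nat_lit 6) (nat_lit 7) (nat_lit 9) (C.cons (nat_lit 1728) (C.miq (nat_lit 611715994) (nat_lit 251476733355750573211651841))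 (C.cons (nat_lit 962) (C.miq (nat_lit 611388312) (nat_lit 1415656986847057289475657473)) (C.cons (nat_lit 960) (C.miq (nat_lit 946079634) (nat_lit 407446315208194915669639813)) (C.cons (nat_lit 706) (C.miq (nat_lit 605621095) (nat_lit 640742583130313680209709281)) (C.cons (nat_lit 704) (C.node (nat_lit 6) (nat_lit 9) (nat_lit 10) (C.cons (nat_lit 1634)
  (C.miq (nat_lit 907327904) (nat_lit 2575050310407450393618616065)) (C.cons (nat_lit 1632) (C.miq (nat_lit 1497605664) (nat_lit 648003885555249460243399749)) (C.cons (nat_lit 1602) (C.miq (nat_lit 907327904) (nat_lit 2575050310407450256179662593)) (C.cons (nat_lit 1600) (C.node (nat_lit 7) (nat_lit 9) (nat_lit 10) (C.cons (nat_lit 1696) (C.miq (nat_lit 1397203129) (nat_lit 183788010559152416976015105)) (C.cons (nat_lit 1672) (C.node (nat_lit 6) (nat_lit 7) (nat_lit 10) (C.cons (nat_lit 1472) (C.node (nat_lit 3) (nat_lit 4) (nat_lit 6) C.nil) (C.cons (nat_lit 1216) (C.node (nat_lit 3) (nat_lit 4) (nat_lit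 6) C.nil) C.nil))) (C.cons (nat_lit 1664) (C.node (nat_lit 3) (nat_lit 7) (nat_lit 9) (C.cons (nat_lit 680) (C.node (nat_lit 1) (nat_lit 7) (nat_lit 9) (C.cons (nat_lit 898) (C.miq (nat_lit 611388312) (nat_lit 1415656986847057289471463169)) (C.cons (nat_lit 642) (C.node (nat_lit 7) (nat_lit 8) (nat_lit 9) C.nil) C.nil))) (C.cons (nat_lit 648) (C.node (nat_lit 6) (nat_lit 8) (nat_lit 9) (C.cons (nat_lit 866) (C.miq (nat_lit 728236945) (nat_lit 2862741192925768102355010059)) (C.cons (nat_lit 864) (C.node (nat_lit 1) (nat_lit 6) (nat_lit 9) C.nil) (C.cons (nat_lit 834) (C.miq (nat_lit 728236945) (nat_lit 2862741192925768102352912907)) C.nil)))) C.nil))) C.nil)))) C.nil))))) C.nil)))))) C.nil)) (C.cons (nat_lit 532) (C.node (nat_lit 2) (nat_lit 4) (nat_lit 6) (C.cons (nat_lit 116) (C.node (nat_lit 2) (nat_lit 4) (nat_lit 10) (C.cons (nat_lit 1300) (C.miq (nat_lit 2220597856) (nat_lit 2533979372222167836660925509)) (C.cons (nat_lit 1044) (C.node (nat_lit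 2) (nat_lit 4) (nat_lit 7) (C.cons (nat_lit 148) (C.node (nat_lit 2) (nat_lit 4) (nat_lit 8) C.nil) C.nil)) C.nil))) (C.cons (nat_lit 84) (C.node (nat_lit 4) (nat_lit 6) (nat_lit 9) (C.cons (nat_lit 1616) (C.node (nat_lit 3) (nat_lit 4) (nat_lit 6) (C.cons (nat_lit 88) (C.node (nat_lit 4) (nat_lit 5) (nat_lit 6) C.nil) C.nil)) (C.cons (nat_lit 592) (C.node (nat_lit 4) (nat_lit 9) (nat_lit 10) C.nil) C.nil))) C.nil))) C.nil)))) C.nil))) C.nil)))) C.nil))) C.nil)))) List.nil)

theorem ok12_243 : okL par12 (nat_lit 244) c12_243 (nat_lit 243) = true := by decide +kernel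

noncomputable def c12_244 : List C :=
  (List.cons (C.node (nat_lit 1) (nat_lit 4) (nat_lit 9) (C.cons (nat_lit 786) (C.node (nat_lit 1) (nat_lit 3) (nat_lit 4) (C.cons (nat_lit 58) (C.node (nat_lit 3) (nat_lit 4) (nat_lit 8) (C.cons (nat_lit 1304) (C.miq (nat_lit 329794825) (nat_lit 1576453767934648502565536305)) (C.cons (nat_lit 280) (C.node (nat_lit 3) (nat_lit 7) (nat_lit 11) (C.cons (nat_lit 3208) (C.miq (nat_lit 1951643914) (nat_lit 70176875453747698946608897)) (C.cons (nat_lit 2186) (C.miq (nat_lit 826833760) (nat_lit 950222944402832946564761825)) (C.cons (nat_lit 2184) (C.node (nat_lit 3) (nat_lit 10) (nat_lit 11) (C.cons (nat_lit 3082) (C.miq (nat_lit 2974393168) (nat_lit 950286549028591777073923113)) (C.cons (nat_lit 3080) (C.node (nat_lit 1) (nat_lit 3) (nat_lit 11) (C.cons (nat_lit 2314) (C.miq (nat_lit 1501642931) (nat_lit 950216764286178765528762397)) (C.cons (nat_lit 2058) (C.node (nat_lit 4) (nat_lit 9) (nat_lit 10) (C.cons (nat_lit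 1624) (C.miq (nat_lit 1678944640) (nat_lit 26616530779913144423091969)) (C.cons (nat_lit 1616) (C.miq (nat_lit 1678944640) (nat_lit 26616530777661344609406721)) (C.cons (nat_lit 1560) (C.miq (nat_lit 1949677984) (nat_lit 70159627748043071188176641)) (C.cons (nat_lit 1556) (C.miq (nat_lit 1800013714) (nat_lit 3733183093901051691789451909)) (C.cons (nat_lit 1552) (C.node (nat_lit 2) (nat_lit 4) (nat_lit 9) (C.cons (nat_lit 596) (C.node (nat_lit 3) (nat_lit 4) (nat_lit 9) (C.cons (nat_lit 536) (C.node (nat_lit 4) (nat_lit 5) (nat_lit 6) (C.cons (nat_lit 1136) (C.miq (nat_lit 2220527920) (nat_lit 1373410585247445441726448139)) (C.cons (nat_lit 112) (C.node (nat_lit 5) (nat_lit 6) (nat_lit 10) (C.cons (nat_lit 1634) (C.miq (nat_lit 874122085) (nat_lit 1415671781135801939268864225)) (C.cons (nat_lit 1632) (C.miq (nat_lit 1497605664) (nat_lit 648003885555249460243399749)) (C.cons (nat_lit 1378) (C.miq (nat_lit 874122085) (nat_lit 1415671781135801939252087009))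 (C.cons (nat_lit 1376) (C.miq (nat_lit 1168642825) (nat_lit 1663496426946901803144380939)) (C.cons (nat_lit 1122) (C.miq (nat_lit 874122085) (nat_lit 1415671781135801939235309793)) (C.cons (nat_lit 1120) (C.node (nat_lit 2) (nat_lit 6) (nat_lit 11) (C.cons (nat_lit 2372) (C.node (nat_lit 3) (nat_lit 6) (nat_lit 11) (C.cons (nat_lit 2632) (C.miq (nat_lit 1746514435) (nat_lit 950264246715160309227259933)) (C.cons (nat_lit 2120) (C.node (nat_lit 6) (nat_lit 9) (nat_lit 11) (C.cons (nat_lit 2624) (C.node (nat_lit 3) (nat_lit 8) (nat_lit 11) (C.cons (nat_lit 2344) (C.miq (nat_lit 2259005955) (nat_lit 1354040157804156790086633501)) (C.cons (nat_lit 2312) (C.node (nat_lit 3) (nat_lit 5) (nat_lit 11) (C.cons (nat_lit 2600) (C.miq (nat_lit 2761099189) (nat_lit 648003885425498549805123809)) (C.cons (nat_lit 2088) (C.node (nat_lit 3) (nat_lit 9) (nat_lit 11) C.nil) C.nil))) C.nil))) C.nil)) C.nil))) (C.cons (nat_lit 2116) (C.node (nat_lit 6) (nat_lit 8) (nat_lit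 11) (C.cons (nat_lit 2376) (C.miq (nat_lit 1940981860) (nat_lit 2487990938014847026259427665)) (C.cons (nat_lit 2368) (C.node (nat_lit 3) (nat_lit 4) (nat_lit 7) (C.cons (nat_lit 216) (C.node (nat_lit 3) (nat_lit 4) (nat_lit 10) (C.cons (nat_lit 1048) (C.node (nat_lit 4) (nat_lit 6) (nat_lit 10) (C.cons (nat_lit 1104) (C.node (nat_lit 3) (nat_lit 6) (nat_lit 11) (C.cons (nat_lit 2632) (C.miq (nat_lit 2471147120) (nat_lit 1267025113640961559971956961)) C.nil)) C.nil)) C.nil)) (C.cons (nat_lit 152) (C.node (nat_lit 4) (nat_lit 6) (nat_lit 7) (C.cons (nat_lit 208) (C.node (nat_lit 3) (nat_lit 4) (nat_lit 6) (C.cons (nat_lit 1112) (C.node (nat_lit 3) (nat_lit 6) (nat_lit 11) (C.cons (nat_lit 2632) (C.node (nat_lit 3) (nat_lit 5) (nat_lit 11) C.nil) C.nil)) C.nil)) C.nil)) C.nil))) C.nil))) C.nil))) C.nil))))))) C.nil))) C.nil)) (C.cons (nat_lit 532) (C.node (nat_lit 3) (nat_lit 4) (nat_lit 7) (C.cons (nat_lit 216) (C.node (nat_lit 3) (nat_lit 4) (nat_lit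 9) (C.cons (nat_lit 536) (C.node (nat_lit 3) (nat_lit 4) (nat_lit 10) (C.cons (nat_lit 1048) (C.node (nat_lit 4) (nat_lit 6) (nat_lit 9) (C.cons (nat_lit 592)
  (C.node (nat_lit 4) (nat_lit 6) (nat_lit 10) (C.cons (nat_lit 1136) (C.miq (nat_lit 2220527920) (nat_lit 1373410585247445441726448139)) C.nil)) C.nil)) C.nil)) C.nil)) (C.cons (nat_lit 152) (C.node (nat_lit 4) (nat_lit 6) (nat_lit 7) (C.cons (nat_lit 212) (C.miq (nat_lit 2839677814) (nat_lit 643168699407412284634695905)) (C.cons (nat_lit 208) (C.node (nat_lit 2) (nat_lit 4) (nat_lit 6) (C.cons (nat_lit 116) (C.node (nat_lit 2) (nat_lit 4) (nat_lit 10) (C.cons (nat_lit 1300) (C.miq (nat_lit 2220597856) (nat_lit 2533979372222167836660925509)) (C.cons (nat_lit 1044) (C.node (nat_lit 4) (nat_lit 5) (nat_lit 7) (C.cons (nat_lit 432) (C.miq (nat_lit 2823096595) (nat_lit 522275600937107065539265035)) C.nil)) C.nil))) (C.cons (nat_lit 84) (C.node (nat_lit 4) (nat_lit 5) (nat_lit 6) (C.cons (nat_lit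 1136) (C.miq (nat_lit 2220527920) (nat_lit 1373410585247445441726448139)) C.nil)) C.nil))) C.nil))) C.nil))) C.nil))) C.nil)))))) C.nil))) C.nil))) C.nil)))) C.nil))) (C.cons (nat_lit 26) (C.node (nat_lit 1) (nat_lit 4) (nat_lit 5) (C.cons (nat_lit 50) (C.node (nat_lit 1) (nat_lit 7) (nat_lit 9) (C.cons (nat_lit 706) (C.miq (nat_lit 605621095) (nat_lit 950227592951658748934490337)) (C.cons (nat_lit 674) (C.node (nat_lit 1) (nat_lit 7) (nat_lit 8) (C.cons (nat_lit 2434) (C.miq (nat_lit 1900394640) (nat_lit 60488221115124469740932865)) (C.cons (nat_lit 450) (C.miq (nat_lit 873991015) (nat_lit 950222944372152174110705889)) (C.cons (nat_lit 386) (C.miq (nat_lit 1729627540) (nat_lit 466651583563795218478268977)) C.nil)))) (C.cons (nat_lit 642) (C.node (nat_lit 2) (nat_lit 4) (nat_lit 9) (C.cons (nat_lit 1556) (C.miq (nat_lit 1800013714) (nat_lit 3733183093901051691789451909)) (C.cons (nat_lit 596) (C.node (nat_lit 2) (nat_lit 6) (nat_lit 11) (C.cons (nat_lit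 2372) (C.node (nat_lit 3) (nat_lit 6) (nat_lit 11) (C.cons (nat_lit 2632) (C.miq (nat_lit 1746514435) (nat_lit 950264246715160309227259933)) (C.cons (nat_lit 2120) (C.node (nat_lit 6) (nat_lit 9) (nat_lit 11) (C.cons (nat_lit 2624) (C.node (nat_lit 7) (nat_lit 8) (nat_lit 11) (C.cons (nat_lit 2434) (C.miq (nat_lit 1900394640) (nat_lit 60488221115124469740932865)) (C.cons (nat_lit 2432) (C.node (nat_lit 1) (nat_lit 7) (nat_lit 11) (C.cons (nat_lit 2186) (C.miq (nat_lit 826833760) (nat_lit 950222944402832946564761825)) (C.cons (nat_lit 2182) (C.miq (nat_lit 1093142454) (nat_lit 317953707441016882568890593)) (C.cons (nat_lit 2178) (C.node (nat_lit 2) (nat_lit 7) (nat_lit 11) (C.cons (nat_lit 3204) (C.miq (nat_lit 1919200128) (nat_lit 720541390529485315075280641)) (C.cons (nat_lit 2180) (C.node (nat_lit 6) (nat_lit 7) (nat_lit 8) (C.cons (nat_lit 1472) (C.miq (nat_lit 1948688568) (nat_lit 720546942427211607115566849)) (C.cons (nat_lit 960) (C.miq (nat_lit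 946079634) (nat_lit 407446315208194915669639813)) (C.cons (nat_lit 450) (C.miq (nat_lit 873991015) (nat_lit 950222944372152174110705889)) (C.cons (nat_lit 448) (C.node (nat_lit 1) (nat_lit 7) (nat_lit 8) (C.cons (nat_lit 418) (C.node (nat_lit 7) (nat_lit 8) (nat_lit 9) (C.cons (nat_lit 896) (C.node (nat_lit 5) (nat_lit 8) (nat_lit 11) (C.cons (nat_lit 2344) (C.miq (nat_lit 940881264) (nat_lit 950254008764318766840613089)) (C.cons (nat_lit 2336) (C.node (nat_lit 1) (nat_lit 8) (nat_lit 10) (C.cons (nat_lit 1354) (C.miq (nat_lit 826648720) (nat_lit 60465937144290453755072257)) (C.cons (nat_lit 1346) (C.miq (nat_lit 638892192) (nat_lit 2575050310334265662723264257)) (C.cons (nat_lit 1290) (C.miq (nat_lit 826648720) (nat_lit 60465937126276055245590273)) (C.cons (nat_lit 1282) (C.node (nat_lit 1) (nat_lit 6) (nat_lit 8) (C.cons (nat_lit 330) (C.node (nat_lit 1) (nat_lit 8) (nat_lit 11) C.nil) (C.cons (nat_lit 322) (C.node (nat_lit 1) (nat_lit 3) (nat_lit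 8) C.nil) C.nil))) C.nil))))) C.nil))) C.nil)) (C.cons (nat_lit 386) (C.node (nat_lit 3) (nat_lit 4) (nat_lit 9) (C.cons (nat_lit 1560) (C.node (nat_lit 3) (nat_lit 4) (nat_lit 8) (C.cons (nat_lit 312) (C.miq (nat_lit 1949677984) (nat_lit 377226785930158881563545345)) (C.cons (nat_lit 280)
  (C.node (nat_lit 3) (nat_lit 9) (nat_lit 11) (C.cons (nat_lit 2600) (C.node (nat_lit 2) (nat_lit 3) (nat_lit 9) (C.cons (nat_lit 780) (C.miq (nat_lit 338823832) (nat_lit 2510943779162890079405084417)) (C.cons (nat_lit 524) (C.node (nat_lit 3) (nat_lit 7) (nat_lit 11) (C.cons (nat_lit 3208) (C.node (nat_lit 4) (nat_lit 6) (nat_lit 7) (C.cons (nat_lit 216) (C.miq (nat_lit 1463028649) (nat_lit 261138326299991653215637249)) (C.cons (nat_lit 208) (C.node (nat_lit 1) (nat_lit 3) (nat_lit 11) (C.cons (nat_lit 2058) (C.node (nat_lit 3) (nat_lit 8) (nat_lit 11) (C.cons (nat_lit 2312) (C.node (nat_lit 1) (nat_lit 8) (nat_lit 11) C.nil) C.nil)) C.nil)) C.nil))) (C.cons (nat_lit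 2184) (C.miq (nat_lit 2813542489) (nat_lit 2640322767288722064818045489)) C.nil))) C.nil))) (C.cons (nat_lit 2568) (C.miq (nat_lit 1402669639) (nat_lit 3104563434519424812979324051)) C.nil))) C.nil))) (C.cons (nat_lit 536) (C.node (nat_lit 4) (nat_lit 9) (nat_lit 10) (C.cons (nat_lit 1552) (C.node (nat_lit 3) (nat_lit 9) (nat_lit 11) (C.cons (nat_lit 2600) (C.miq (nat_lit 2761099189) (nat_lit 648003885425498549805123809)) (C.cons (nat_lit 2568) (C.node (nat_lit 3) (nat_lit 7) (nat_lit 11) (C.cons (nat_lit 3208) (C.miq (nat_lit 1404635764) (nat_lit 3104531853693577700333061267)) (C.cons (nat_lit 2184) (C.node (nat_lit 7) (nat_lit 10) (nat_lit 11) C.nil) C.nil))) C.nil))) C.nil)) C.nil))) C.nil))) C.nil))))) C.nil))) C.nil)))) C.nil))) C.nil)) C.nil))) (C.cons (nat_lit 2116) (C.node (nat_lit 3) (nat_lit 4) (nat_lit 9) (C.cons (nat_lit 1560) (C.node (nat_lit 3) (nat_lit 4) (nat_lit 8) (C.cons (nat_lit 312) (C.miq (nat_lit 1949677984) (nat_lit 377226785930158881563545345))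 (C.cons (nat_lit 280) (C.node (nat_lit 4) (nat_lit 6) (nat_lit 7) (C.cons (nat_lit 216) (C.miq (nat_lit 1464011674) (nat_lit 261147623459002638166134529)) (C.cons (nat_lit 208) (C.node (nat_lit 3) (nat_lit 4) (nat_lit 6) (C.cons (nat_lit 120) (C.miq (nat_lit 1949677984) (nat_lit 145113028564150080019959553)) (C.cons (nat_lit 88) (C.node (nat_lit 3) (nat_lit 4) (nat_lit 5) (C.cons (nat_lit 184) (C.node (nat_lit 6) (nat_lit 9) (nat_lit 11) (C.cons (nat_lit 2632) (C.miq (nat_lit 1665644960) (nat_lit 222484280999220148884934401)) (C.cons (nat_lit 2624) (C.node (nat_lit 3) (nat_lit 9) (nat_lit 11) (C.cons (nat_lit 2600) (C.node (nat_lit 2) (nat_lit 3) (nat_lit 9) (C.cons (nat_lit 780) (C.miq (nat_lit 338823832) (nat_lit 2510943779162890079405084417)) (C.cons (nat_lit 524) (C.node (nat_lit 3) (nat_lit 6) (nat_lit 11) (C.cons (nat_lit 2376) (C.miq (nat_lit 1399102336) (nat_lit 106395821481357862744690433)) (C.cons (nat_lit 2120) (C.node (nat_lit 6) (nat_lit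 8) (nat_lit 11) (C.cons (nat_lit 2368) (C.node (nat_lit 4) (nat_lit 5) (nat_lit 6) (C.cons (nat_lit 112) (C.node (nat_lit 4) (nat_lit 6) (nat_lit 10) C.nil) C.nil)) C.nil)) C.nil))) C.nil))) (C.cons (nat_lit 2568) (C.miq (nat_lit 1402669639) (nat_lit 3104563434519424812979324051)) C.nil))) C.nil))) (C.cons (nat_lit 56) (C.miq (nat_lit 1949677984) (nat_lit 67741776108813812838764289)) C.nil))) C.nil))) C.nil))) C.nil))) (C.cons (nat_lit 536) (C.node (nat_lit 4) (nat_lit 9) (nat_lit 10) (C.cons (nat_lit 1552) (C.node (nat_lit 4) (nat_lit 6) (nat_lit 7) (C.cons (nat_lit 216) (C.node (nat_lit 3) (nat_lit 4) (nat_lit 10) (C.cons (nat_lit 1304) (C.miq (nat_lit 2758509424) (nat_lit 2575082850090191558004507017)) (C.cons (nat_lit 1048) (C.node (nat_lit 6) (nat_lit 8) (nat_lit 11) (C.cons (nat_lit 2376) (C.miq (nat_lit 2202711664) (nat_lit 1267025113568903965934029025)) (C.cons (nat_lit 2368) (C.node (nat_lit 3) (nat_lit 6) (nat_lit 11) (C.cons (nat_lit 2632)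 (C.miq (nat_lit 2471147120) (nat_lit 1267025113640961559971956961)) (C.cons (nat_lit 2120) (C.node (nat_lit 6) (nat_lit 9) (nat_lit 11) (C.cons (nat_lit 2624) (C.node (nat_lit 3) (nat_lit 9) (nat_lit 11) (C.cons (nat_lit 2600) (C.miq (nat_lit 2761099189) (nat_lit 648003885425498549805123809)) (C.cons (nat_lit 2568) (C.node (nat_lit 3) (nat_lit 7) (nat_lit 11) (C.cons (nat_lit 3208)
  (C.miq (nat_lit 1400113849) (nat_lit 261138325959969881424137985)) (C.cons (nat_lit 2186) (C.miq (nat_lit 826833760) (nat_lit 950222944402832946564761825)) (C.cons (nat_lit 2184) (C.node (nat_lit 6) (nat_lit 7) (nat_lit 9) (C.cons (nat_lit 1728) (C.miq (nat_lit 611715994) (nat_lit 261148139912667606609301249)) (C.cons (nat_lit 960) (C.miq (nat_lit 2252568864) (nat_lit 261135226877399407169176197)) (C.cons (nat_lit 704) (C.node (nat_lit 4) (nat_lit 5) (nat_lit 6) (C.cons (nat_lit 1136) (C.node (nat_lit 6) (nat_lit 7) (nat_lit 10) (C.cons (nat_lit 1472) (C.miq (nat_lit 2252056384)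 (nat_lit 2562993591941333062331991187)) (C.cons (nat_lit 1216) (C.node (nat_lit 2) (nat_lit 4) (nat_lit 10) C.nil) C.nil))) C.nil)) C.nil)))) C.nil)))) C.nil))) C.nil)) C.nil))) C.nil))) C.nil))) (C.cons (nat_lit 208) (C.node (nat_lit 3) (nat_lit 4) (nat_lit 7) (C.cons (nat_lit 184) (C.miq (nat_lit 2839743349) (nat_lit 648003886177036737464240353)) (C.cons (nat_lit 152) (C.node (nat_lit 3) (nat_lit 7) (nat_lit 11) (C.cons (nat_lit 3208) (C.miq (nat_lit 1400113849) (nat_lit 183767073504633614242942721)) (C.cons (nat_lit 2186) (C.miq (nat_lit 826833760) (nat_lit 950222944402832946564761825)) (C.cons (nat_lit 2184) (C.node (nat_lit 6) (nat_lit 8) (nat_lit 11) (C.cons (nat_lit 2376) (C.miq (nat_lit 389759110) (nat_lit 2640333281932836004709269841)) (C.cons (nat_lit 2368) (C.node (nat_lit 3) (nat_lit 6) (nat_lit 11) (C.cons (nat_lit 2632) (C.node (nat_lit 6) (nat_lit 7) (nat_lit 9) (C.cons (nat_lit 1728) (C.miq (nat_lit 611715994) (nat_lit 251476733355750573211651841))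 (C.cons (nat_lit 960) (C.miq (nat_lit 946079634) (nat_lit 407446315208194915669639813)) (C.cons (nat_lit 704) (C.node (nat_lit 6) (nat_lit 8) (nat_lit 9) (C.cons (nat_lit 864) (C.miq (nat_lit 1494706240) (nat_lit 776172305885069227771232593)) (C.cons (nat_lit 832) (C.node (nat_lit 6) (nat_lit 9) (nat_lit 10) (C.cons (nat_lit 1634) (C.miq (nat_lit 907327904) (nat_lit 2575050310407450393618616065)) (C.cons (nat_lit 1632) (C.miq (nat_lit 1497605664) (nat_lit 648003885555249460243399749)) (C.cons (nat_lit 1602) (C.miq (nat_lit 907327904) (nat_lit 2575050310407450256179662593)) C.nil)))) C.nil))) C.nil)))) (C.cons (nat_lit 2120) (C.node (nat_lit 6) (nat_lit 9) (nat_lit 11) (C.cons (nat_lit 2624) (C.node (nat_lit 3) (nat_lit 9) (nat_lit 11) (C.cons (nat_lit 2600) (C.miq (nat_lit 2761099189) (nat_lit 648003885425498549805123809)) (C.cons (nat_lit 2568) (C.node (nat_lit 3) (nat_lit 10) (nat_lit 11) C.nil) C.nil))) C.nil)) C.nil))) C.nil))) C.nil)))) C.nil)))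 C.nil))) C.nil)) C.nil))) C.nil))) (C.cons (nat_lit 532) (C.node (nat_lit 2) (nat_lit 4) (nat_lit 6) (C.cons (nat_lit 212) (C.miq (nat_lit 2839677814) (nat_lit 643168699407412284634695905)) (C.cons (nat_lit 116) (C.node (nat_lit 2) (nat_lit 4) (nat_lit 10) (C.cons (nat_lit 1300) (C.miq (nat_lit 2220597856) (nat_lit 2533979372222167836660925509)) (C.cons (nat_lit 1044) (C.node (nat_lit 4) (nat_lit 5) (nat_lit 10) (C.cons (nat_lit 1328) (C.miq (nat_lit 1410574480) (nat_lit 31451717466221004165156609)) (C.cons (nat_lit 1072) (C.node (nat_lit 2) (nat_lit 6) (nat_lit 11) (C.cons (nat_lit 2628) (C.miq (nat_lit 2761033654) (nat_lit 643168698655874096975579361)) (C.cons (nat_lit 2372) (C.miq (nat_lit 2185868880) (nat_lit 643219390646628982342093025)) (C.cons (nat_lit 2116) (C.node (nat_lit 5) (nat_lit 6) (nat_lit 10) (C.cons (nat_lit 1634) (C.miq (nat_lit 874122085) (nat_lit 1415671781135801939268864225)) (C.cons (nat_lit 1632) (C.miq (nat_lit 2504762912) (nat_lit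 2533979372315617528916018245)) (C.cons (nat_lit 1378) (C.miq (nat_lit 874122085) (nat_lit 1415671781135801939252087009)) (C.cons (nat_lit 1376) (C.miq (nat_lit 2236327456) (nat_lit 2533979372243559934878090309)) (C.cons (nat_lit 1122) (C.miq (nat_lit 874122085) (nat_lit 1415671781135801939235309793)) (C.cons (nat_lit 1120) (C.node (nat_lit 2) (nat_lit 4) (nat_lit 7) (C.cons (nat_lit 404) (C.node (nat_lit 7) (nat_lit 8) (nat_lit 11) (C.cons (nat_lit 2434)
  (C.miq (nat_lit 1900394640) (nat_lit 60488221115124469740932865)) (C.cons (nat_lit 2432) (C.node (nat_lit 2) (nat_lit 8) (nat_lit 11) (C.cons (nat_lit 2340) (C.node (nat_lit 1) (nat_lit 7) (nat_lit 8) (C.cons (nat_lit 450) (C.miq (nat_lit 873991015) (nat_lit 950222944372152174110705889)) (C.cons (nat_lit 418) (C.miq (nat_lit 672445808) (nat_lit 950254008763192866933770465)) (C.cons (nat_lit 386) (C.node (nat_lit 6) (nat_lit 8) (nat_lit 11) (C.cons (nat_lit 2376) (C.miq (nat_lit 1752281860) (nat_lit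 466684658604910095444936733)) (C.cons (nat_lit 2368) (C.node (nat_lit 5) (nat_lit 8) (nat_lit 10) (C.cons (nat_lit 1440) (C.miq (nat_lit 1948623032) (nat_lit 140261958716379244548853505)) (C.cons (nat_lit 1314) (C.miq (nat_lit 622114976) (nat_lit 60484605526829642640723713)) (C.cons (nat_lit 1312) (C.node (nat_lit 5) (nat_lit 9) (nat_lit 11) (C.cons (nat_lit 2600) (C.miq (nat_lit 1478078979) (nat_lit 950263656410342751266867229)) (C.cons (nat_lit 2594) (C.miq (nat_lit 1363589504) (nat_lit 2575053925958589149388803841)) (C.cons (nat_lit 2592) (C.node (nat_lit 3) (nat_lit 7) (nat_lit 11) (C.cons (nat_lit 3208) (C.miq (nat_lit 999663424) (nat_lit 3133555371126540660426998931)) (C.cons (nat_lit 2186) (C.miq (nat_lit 826833760) (nat_lit 950222944402832946564761825)) (C.cons (nat_lit 2184) (C.node (nat_lit 4) (nat_lit 5) (nat_lit 7) (C.cons (nat_lit 184) (C.miq (nat_lit 2876442949) (nat_lit 2640313636901945617380016689)) (C.cons (nat_lit 176) (C.node (nat_lit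 1) (nat_lit 7) (nat_lit 11) C.nil) C.nil))) C.nil)))) C.nil)))) C.nil)))) C.nil))) C.nil)))) (C.cons (nat_lit 2308) (C.node (nat_lit 4) (nat_lit 5) (nat_lit 7) (C.cons (nat_lit 184) (C.node (nat_lit 4) (nat_lit 5) (nat_lit 8) (C.cons (nat_lit 304) (C.node (nat_lit 4) (nat_lit 6) (nat_lit 7) C.nil) C.nil)) (C.cons (nat_lit 176) (C.node (nat_lit 4) (nat_lit 9) (nat_lit 10) (C.cons (nat_lit 1624) (C.miq (nat_lit 1678944640) (nat_lit 26616530779913144423091969)) (C.cons (nat_lit 1616) (C.miq (nat_lit 1678944640) (nat_lit 26616530777661344609406721)) (C.cons (nat_lit 1560) (C.miq (nat_lit 896835769) (nat_lit 212799721472710334483533569)) C.nil)))) C.nil))) C.nil))) C.nil))) (C.cons (nat_lit 148) (C.node (nat_lit 2) (nat_lit 4) (nat_lit 8) C.nil) C.nil))) C.nil))))))) C.nil)))) C.nil))) C.nil))) (C.cons (nat_lit 84) (C.node (nat_lit 4) (nat_lit 6) (nat_lit 7) (C.cons (nat_lit 216) (C.node (nat_lit 3) (nat_lit 4) (nat_lit 9) (C.cons (nat_lit 1560) (C.miq (nat_lit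 1464011674) (nat_lit 261147623459002638166134529)) (C.cons (nat_lit 536) (C.node (nat_lit 3) (nat_lit 4) (nat_lit 10) (C.cons (nat_lit 1304) (C.miq (nat_lit 2758509424) (nat_lit 2575082850090191558004507017)) (C.cons (nat_lit 1048) (C.node (nat_lit 4) (nat_lit 6) (nat_lit 9) (C.cons (nat_lit 1616) (C.miq (nat_lit 1678944640) (nat_lit 26616530777661344609406721)) C.nil)) C.nil))) C.nil))) (C.cons (nat_lit 208) (C.node (nat_lit 3) (nat_lit 4) (nat_lit 7) (C.cons (nat_lit 184) (C.node (nat_lit 3) (nat_lit 4) (nat_lit 8) (C.cons (nat_lit 1304) (C.miq (nat_lit 2486875984) (nat_lit 1576510123482572689574004961)) (C.cons (nat_lit 280) (C.node (nat_lit 3) (nat_lit 4) (nat_lit 6) (C.cons (nat_lit 1624) (C.miq (nat_lit 1678944640) (nat_lit 26616530779913144423091969)) (C.cons (nat_lit 1112) (C.miq (nat_lit 2486875984) (nat_lit 1344396366116563888030419169)) (C.cons (nat_lit 600) (C.miq (nat_lit 2839743349) (nat_lit 725375138632373004645435617)) C.nil)))) C.nil)))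 (C.cons (nat_lit 152) (C.node (nat_lit 3) (nat_lit 7) (nat_lit 11) (C.cons (nat_lit 3208) (C.miq (nat_lit 1400113849) (nat_lit 183767073504633614242942721)) (C.cons (nat_lit 2186) (C.miq (nat_lit 826833760) (nat_lit 950222944402832946564761825)) (C.cons (nat_lit 2184) (C.node (nat_lit 4) (nat_lit 9) (nat_lit 10) (C.cons (nat_lit 1624) (C.miq (nat_lit 1678944640) (nat_lit 26616530779913144423091969)) (C.cons (nat_lit 1616) (C.miq (nat_lit 1678944640) (nat_lit 26616530777661344609406721)) (C.cons (nat_lit 1560) (C.miq (nat_lit 1464011674) (nat_lit 183776371003666370984939265))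
  (C.cons (nat_lit 1552) (C.node (nat_lit 3) (nat_lit 4) (nat_lit 9) (C.cons (nat_lit 536) (C.node (nat_lit 4) (nat_lit 6) (nat_lit 9) C.nil) C.nil)) C.nil))))) C.nil)))) C.nil))) C.nil))) C.nil)))) C.nil)))) C.nil)))) C.nil)) C.nil))) (C.cons (nat_lit 530) (C.node (nat_lit 2) (nat_lit 6) (nat_lit 11) (C.cons (nat_lit 2628) (C.miq (nat_lit 1265269024) (nat_lit 3791212972209907030034809477)) (C.cons (nat_lit 2372) (C.node (nat_lit 7) (nat_lit 8) (nat_lit 11) (C.cons (nat_lit 2434) (C.miq (nat_lit 2709653430) (nat_lit 317967653179537689321670881)) (C.cons (nat_lit 2432) (C.node (nat_lit 1) (nat_lit 7) (nat_lit 11) (C.cons (nat_lit 2186) (C.miq (nat_lit 996700480) (nat_lit 2867579294311634817648755859)) (C.cons (nat_lit 2182) (C.miq (nat_lit 1093142454) (nat_lit 317953707441016882568890593)) (C.cons (nat_lit 2178) (C.node (nat_lit 2) (nat_lit 7) (nat_lit 11) (C.cons (nat_lit 3204) (C.miq (nat_lit 2072289888) (nat_lit 2804729503545106012268725317)) (C.cons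 (nat_lit 2180) (C.node (nat_lit 3) (nat_lit 6) (nat_lit 11) (C.cons (nat_lit 2632) (C.node (nat_lit 3) (nat_lit 7) (nat_lit 11) (C.cons (nat_lit 3208) (C.miq (nat_lit 1404635764) (nat_lit 3181903106148913967514256531)) (C.cons (nat_lit 2184) (C.node (nat_lit 7) (nat_lit 10) (nat_lit 11) (C.cons (nat_lit 3200) (C.node (nat_lit 2) (nat_lit 6) (nat_lit 7) (C.cons (nat_lit 212) (C.miq (nat_lit 2873493874) (nat_lit 2575032159151589705815163525)) (C.cons (nat_lit 206) (C.miq (nat_lit 2820737895) (nat_lit 317969092777113360054225121)) (C.cons (nat_lit 204) (C.miq (nat_lit 325192120) (nat_lit 246625718842298454581186305)) (C.cons (nat_lit 198) (C.miq (nat_lit 908172160) (nat_lit 239376960671699453069430529)) (C.cons (nat_lit 196) (C.node (nat_lit 1) (nat_lit 6) (nat_lit 7) (C.cons (nat_lit 962) (C.miq (nat_lit 611388312) (nat_lit 1415656986847057289475657473)) (C.cons (nat_lit 706) (C.miq (nat_lit 605621095) (nat_lit 640742583130313680209709281)) (C.cons (nat_lit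 450) (C.miq (nat_lit 1115753319) (nat_lit 317969092280591501152618721)) (C.cons (nat_lit 202) (C.miq (nat_lit 557219995) (nat_lit 244246771313128097662373633)) (C.cons (nat_lit 194) (C.node (nat_lit 6) (nat_lit 7) (nat_lit 8) (C.cons (nat_lit 1472) (C.miq (nat_lit 1114049418) (nat_lit 236971062366411346514284289)) (C.cons (nat_lit 960) (C.miq (nat_lit 426247090) (nat_lit 1160573638470958110659053597)) (C.cons (nat_lit 448) (C.node (nat_lit 6) (nat_lit 7) (nat_lit 9) (C.cons (nat_lit 1728) (C.miq (nat_lit 1197652384) (nat_lit 236987775293024171781852929)) (C.cons (nat_lit 704) (C.node (nat_lit 4) (nat_lit 6) (nat_lit 7) (C.cons (nat_lit 216) (C.miq (nat_lit 2842102580) (nat_lit 851105379227165942791800861)) (C.cons (nat_lit 208) (C.node (nat_lit 3) (nat_lit 4) (nat_lit 7) (C.cons (nat_lit 184) (C.miq (nat_lit 2876442949) (nat_lit 2640313636901945617380016689)) (C.cons (nat_lit 152) (C.node (nat_lit 3) (nat_lit 6) (nat_lit 7) (C.cons (nat_lit 1224) (C.node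 (nat_lit 7) (nat_lit 9) (nat_lit 10) (C.cons (nat_lit 1696) (C.miq (nat_lit 1397203129) (nat_lit 183788010559152416976015105)) (C.cons (nat_lit 1664) (C.node (nat_lit 3) (nat_lit 4) (nat_lit 6) C.nil) C.nil))) C.nil)) C.nil))) C.nil))) C.nil))) C.nil)))) C.nil)))))) C.nil)))))) C.nil)) C.nil))) (C.cons (nat_lit 2120) (C.node (nat_lit 6) (nat_lit 9) (nat_lit 11) (C.cons (nat_lit 2624) (C.node (nat_lit 3) (nat_lit 7) (nat_lit 11) (C.cons (nat_lit 3208) (C.node (nat_lit 3) (nat_lit 9) (nat_lit 11) (C.cons (nat_lit 2600) (C.node (nat_lit 3) (nat_lit 4) (nat_lit 7) (C.cons (nat_lit 216) (C.miq (nat_lit 1416859819) (nat_lit 261175938729264038122360577)) (C.cons (nat_lit 184) (C.node (nat_lit 1) (nat_lit 3) (nat_lit 4) (C.cons (nat_lit 282) (C.miq (nat_lit 834110560) (nat_lit 2633047684770468402225545553)) (C.cons (nat_lit 26) (C.node (nat_lit 4) (nat_lit 6) (nat_lit 7) (C.cons (nat_lit 212) (C.miq (nat_lit 2722301557) (nat_lit 2510958573429676356627073249))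 (C.cons (nat_lit 208) (C.node (nat_lit 7) (nat_lit 9) (nat_lit 10) (C.cons (nat_lit 1728)
  (C.miq (nat_lit 611715994) (nat_lit 251476733355750573211651841)) (C.cons (nat_lit 1696) (C.node (nat_lit 6) (nat_lit 7) (nat_lit 10) (C.cons (nat_lit 1472) (C.miq (nat_lit 1466210944) (nat_lit 251466919580656102112562945)) (C.cons (nat_lit 1216) (C.node (nat_lit 3) (nat_lit 4) (nat_lit 8) (C.cons (nat_lit 1304) (C.miq (nat_lit 1731464104) (nat_lit 222448568001651008668700417)) (C.cons (nat_lit 792) (C.miq (nat_lit 1697909656) (nat_lit 222448568001648397295030017)) (C.cons (nat_lit 280) (C.node (nat_lit 4) (nat_lit 8) (nat_lit 9) (C.cons (nat_lit 788) (C.miq (nat_lit 693863430) (nat_lit 3143250886896783384566104401)) (C.cons (nat_lit 784) (C.node (nat_lit 1) (nat_lit 7) (nat_lit 9) (C.cons (nat_lit 962) (C.miq (nat_lit 611388312) (nat_lit 1415656986847057289475657473)) (C.cons (nat_lit 898) (C.miq (nat_lit 611388312) (nat_lit 1415656986847057289471463169)) (C.cons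 (nat_lit 706) (C.miq (nat_lit 605621095) (nat_lit 640742583130313680209709281)) (C.cons (nat_lit 642) (C.node (nat_lit 1) (nat_lit 7) (nat_lit 8) (C.cons (nat_lit 450) (C.miq (nat_lit 2202103990) (nat_lit 31440372455442114474543329)) (C.cons (nat_lit 418) (C.miq (nat_lit 1411478280) (nat_lit 26604078822344968815182217)) (C.cons (nat_lit 386) (C.node (nat_lit 1) (nat_lit 8) (nat_lit 9) (C.cons (nat_lit 866) (C.miq (nat_lit 1196821144) (nat_lit 2747894604866419436275502849)) (C.cons (nat_lit 834) (C.miq (nat_lit 996737665) (nat_lit 3172230998900571218869616903)) (C.cons (nat_lit 802) (C.miq (nat_lit 1479250179) (nat_lit 2867620005886236108271714827)) (C.cons (nat_lit 770) (C.node (nat_lit 2) (nat_lit 3) (nat_lit 5) (C.cons (nat_lit 300) (C.miq (nat_lit 1477915140) (nat_lit 466648760656600046660421661)) (C.cons (nat_lit 110) (C.miq (nat_lit 2754742102) (nat_lit 2510959089960465348414015713)) (C.cons (nat_lit 108) (C.miq (nat_lit 2754742102) (nat_lit 2510959089960465348413884641))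 (C.cons (nat_lit 46) (C.miq (nat_lit 1367945739) (nat_lit 930920842650805088114771997)) (C.cons (nat_lit 44) (C.node (nat_lit 1) (nat_lit 3) (nat_lit 11) (C.cons (nat_lit 2314) (C.node (nat_lit 5) (nat_lit 8) (nat_lit 11) C.nil) (C.cons (nat_lit 2058) (C.node (nat_lit 1) (nat_lit 8) (nat_lit 11) C.nil) C.nil))) C.nil)))))) C.nil))))) C.nil)))) C.nil))))) C.nil))) C.nil)))) C.nil))) (C.cons (nat_lit 1664) (C.miq (nat_lit 1519857844) (nat_lit 2011655958339439856612018205)) C.nil)))) C.nil))) C.nil))) (C.cons (nat_lit 152) (C.miq (nat_lit 1416859819) (nat_lit 183804686273927770941165313)) C.nil)))) (C.cons (nat_lit 2568) (C.miq (nat_lit 1404635764) (nat_lit 3104531853693577700333061267)) C.nil))) (C.cons (nat_lit 2184) (C.node (nat_lit 7) (nat_lit 10) (nat_lit 11) (C.cons (nat_lit 3200) (C.node (nat_lit 3) (nat_lit 9) (nat_lit 11) (C.cons (nat_lit 2600) (C.miq (nat_lit 997873984) (nat_lit 3868582269281098412848251441)) C.nil)) C.nil)) C.nil))) C.nil))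 C.nil))) C.nil))) C.nil)))) C.nil))) (C.cons (nat_lit 2116) (C.node (nat_lit 6) (nat_lit 8) (nat_lit 11) (C.cons (nat_lit 2376) (C.node (nat_lit 6) (nat_lit 9) (nat_lit 11) (C.cons (nat_lit 2624) (C.node (nat_lit 3) (nat_lit 7) (nat_lit 11) (C.cons (nat_lit 3208) (C.miq (nat_lit 1805943664) (nat_lit 3733169148191526054607913353)) (C.cons (nat_lit 2186) (C.node (nat_lit 3) (nat_lit 10) (nat_lit 11) (C.cons (nat_lit 3080) (C.node (nat_lit 3) (nat_lit 5) (nat_lit 11) (C.cons (nat_lit 2600) (C.miq (nat_lit 1094256565) (nat_lit 632278552611492996126869729)) (C.cons (nat_lit 2088) (C.node (nat_lit 3) (nat_lit 9) (nat_lit 11) (C.cons (nat_lit 2568) (C.node (nat_lit 3) (nat_lit 4) (nat_lit 7) (C.cons (nat_lit 216) (C.miq (nat_lit 2875459639) (nat_lit 2575033597997626046411178377)) (C.cons (nat_lit 184) (C.miq (nat_lit 2876442949) (nat_lit 2642731488541174875729429041)) (C.cons (nat_lit 152) (C.node (nat_lit 4) (nat_lit 6) (nat_lit 7) (C.cons (nat_lit 212) (C.miq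 (nat_lit 2873493874) (nat_lit 2575032159151589705815163525)) (C.cons (nat_lit 208) (C.node (nat_lit 2) (nat_lit 6) (nat_lit 7) (C.cons (nat_lit 452)
  (C.miq (nat_lit 377965360) (nat_lit 546456072202674606113884189)) (C.cons (nat_lit 204) (C.miq (nat_lit 2606893111) (nat_lit 2558098933535638466740355465)) (C.cons (nat_lit 198) (C.miq (nat_lit 2266378315) (nat_lit 239411141858240405880047645)) (C.cons (nat_lit 196) (C.node (nat_lit 1) (nat_lit 6) (nat_lit 7) (C.cons (nat_lit 962) (C.miq (nat_lit 611388312) (nat_lit 1415656986847057289475657473)) (C.cons (nat_lit 706) (C.miq (nat_lit 605621095) (nat_lit 640742583130313680209709281)) (C.cons (nat_lit 450) (C.node (nat_lit 1) (nat_lit 7) (nat_lit 9) (C.cons (nat_lit 674) (C.miq (nat_lit 2173986640) (nat_lit 640736901075172937077688545)) (C.cons (nat_lit 642) (C.node (nat_lit 1) (nat_lit 2) (nat_lit 7) (C.cons (nat_lit 166) (C.node (nat_lit 1) (nat_lit 8) (nat_lit 11) (C.cons (nat_lit 2338) (C.miq (nat_lit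 2551319383) (nat_lit 317959389789730442798565601)) (C.cons (nat_lit 2306) (C.node (nat_lit 5) (nat_lit 8) (nat_lit 11) (C.cons (nat_lit 2340) (C.miq (nat_lit 2820737879) (nat_lit 317969092777113222612650209)) (C.cons (nat_lit 2336) (C.node (nat_lit 2) (nat_lit 8) (nat_lit 11) (C.cons (nat_lit 2436) (C.node (nat_lit 7) (nat_lit 10) (nat_lit 11) C.nil) C.nil)) C.nil))) C.nil))) (C.cons (nat_lit 134) (C.node (nat_lit 1) (nat_lit 5) (nat_lit 7) (C.cons (nat_lit 162) (C.node (nat_lit 1) (nat_lit 8) (nat_lit 9) (C.cons (nat_lit 802) (C.node (nat_lit 1) (nat_lit 8) (nat_lit 11) (C.cons (nat_lit 2306) (C.node (nat_lit 1) (nat_lit 4) (nat_lit 5) (C.cons (nat_lit 58) (C.miq (nat_lit 2217828535) (nat_lit 70125998667347649373014241)) C.nil)) C.nil)) (C.cons (nat_lit 770) (C.node (nat_lit 1) (nat_lit 8) (nat_lit 11) (C.cons (nat_lit 2338) (C.node (nat_lit 1) (nat_lit 9) (nat_lit 11) C.nil) (C.cons (nat_lit 2306) (C.node (nat_lit 1) (nat_lit 8) (nat_lit 10) C.nil)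 C.nil))) C.nil))) C.nil)) C.nil))) C.nil))) (C.cons (nat_lit 194) (C.miq (nat_lit 2266378315) (nat_lit 234575438579781889181222941)) C.nil))))) C.nil))))) C.nil))) C.nil)))) C.nil)) C.nil))) C.nil)) (C.cons (nat_lit 2184) (C.miq (nat_lit 389759110) (nat_lit 2640333281932836004709269841)) C.nil)))) C.nil)) (C.cons (nat_lit 2368) (C.node (nat_lit 3) (nat_lit 6) (nat_lit 11) (C.cons (nat_lit 2632) (C.node (nat_lit 3) (nat_lit 7) (nat_lit 11) (C.cons (nat_lit 3208) (C.miq (nat_lit 1404635764) (nat_lit 3181903106148913967514256531)) (C.cons (nat_lit 2186) (C.miq (nat_lit 996700480) (nat_lit 2862743591033176300949931155)) (C.cons (nat_lit 2184) (C.node (nat_lit 3) (nat_lit 10) (nat_lit 11) (C.cons (nat_lit 3082) (C.node (nat_lit 7) (nat_lit 10) (nat_lit 11) (C.cons (nat_lit 3204) (C.miq (nat_lit 2443641778) (nat_lit 1415664033065882956360583197)) (C.cons (nat_lit 3200) (C.node (nat_lit 1) (nat_lit 3) (nat_lit 4) (C.cons (nat_lit 314) (C.miq (nat_lit 1504919713)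 (nat_lit 3181898549661267091731907731)) (C.cons (nat_lit 282) (C.miq (nat_lit 1931151430) (nat_lit 3725951305612187535422914897)) (C.cons (nat_lit 58) (C.miq (nat_lit 1504919713) (nat_lit 3181893827294784222086694035)) (C.cons (nat_lit 26) (C.node (nat_lit 7) (nat_lit 9) (nat_lit 10) (C.cons (nat_lit 1728) (C.miq (nat_lit 647694964) (nat_lit 3181931071420804653990806675)) (C.cons (nat_lit 1696) (C.miq (nat_lit 1504945984) (nat_lit 3181912403485535662728086675)) (C.cons (nat_lit 1672) (C.miq (nat_lit 1671543156) (nat_lit 3725948668358013437753887376)) (C.cons (nat_lit 1664) (C.node (nat_lit 3) (nat_lit 4) (nat_lit 7) (C.cons (nat_lit 216) (C.miq (nat_lit 1739142155) (nat_lit 2011701115729948574878861341)) (C.cons (nat_lit 184) (C.miq (nat_lit 1519857844) (nat_lit 2011655958339439856612018205)) (C.cons (nat_lit 152) (C.node (nat_lit 4) (nat_lit 6) (nat_lit 7) (C.cons (nat_lit 212) (C.miq (nat_lit 1788289204) (nat_lit 2011656474856155219827361821)) (C.cons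 (nat_lit 208) (C.node (nat_lit 1) (nat_lit 6) (nat_lit 10) (C.cons (nat_lit 1634) (C.miq (nat_lit 1412534458) (nat_lit 31462213447713182733438721)) (C.cons (nat_lit 1602) (C.miq (nat_lit 907327904) (nat_lit 2575050310407450256179662593)) (C.cons (nat_lit 1378)
  (C.miq (nat_lit 828684928) (nat_lit 2575050310534113033572126465)) (C.cons (nat_lit 1346) (C.miq (nat_lit 828684928) (nat_lit 2575050310534112896133172993)) (C.cons (nat_lit 1122) (C.miq (nat_lit 1101248080) (nat_lit 3725947690539274730599942369)) (C.cons (nat_lit 1090) (C.node (nat_lit 1) (nat_lit 4) (nat_lit 5) (C.cons (nat_lit 306) (C.node (nat_lit 1) (nat_lit 8) (nat_lit 10) (C.cons (nat_lit 1282) (C.node (nat_lit 1) (nat_lit 8) (nat_lit 9) (C.cons (nat_lit 962) (C.miq (nat_lit 611388312) (nat_lit 1415656986847057289475657473)) (C.cons (nat_lit 898) (C.miq (nat_lit 611388312) (nat_lit 1415656986847057289471463169)) (C.cons (nat_lit 834) (C.miq (nat_lit 728236945) (nat_lit 2862741192925768102352912907))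 (C.cons (nat_lit 770) (C.node (nat_lit 1) (nat_lit 3) (nat_lit 8) (C.cons (nat_lit 330) (C.node (nat_lit 1) (nat_lit 7) (nat_lit 8) (C.cons (nat_lit 2434) (C.node (nat_lit 2) (nat_lit 7) (nat_lit 11) (C.cons (nat_lit 2180) (C.node (nat_lit 1) (nat_lit 6) (nat_lit 7) (C.cons (nat_lit 706) (C.miq (nat_lit 605621095) (nat_lit 640742583130313680209709281)) (C.cons (nat_lit 198) (C.miq (nat_lit 2819754870) (nat_lit 317967653931075876996647137)) C.nil))) C.nil)) (C.cons (nat_lit 386) (C.node (nat_lit 1) (nat_lit 8) (nat_lit 11) (C.cons (nat_lit 2306) (C.node (nat_lit 1) (nat_lit 7) (nat_lit 11) C.nil) C.nil)) C.nil))) (C.cons (nat_lit 266) (C.node (nat_lit 1) (nat_lit 6) (nat_lit 8) (C.cons (nat_lit 450) (C.miq (nat_lit 1099150960) (nat_lit 321612582504476088365287649)) (C.cons (nat_lit 322) (C.node (nat_lit 1) (nat_lit 7) (nat_lit 8) (C.cons (nat_lit 2434) (C.node (nat_lit 1) (nat_lit 7) (nat_lit 9) C.nil) (C.cons (nat_lit 386) (C.node (nat_lit 1) (nat_lit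 8) (nat_lit 11) C.nil) C.nil))) C.nil))) C.nil))) C.nil))))) C.nil)) (C.cons (nat_lit 50) (C.node (nat_lit 1) (nat_lit 4) (nat_lit 8) (C.cons (nat_lit 274) (C.node (nat_lit 1) (nat_lit 8) (nat_lit 10) (C.cons (nat_lit 1314) (C.node (nat_lit 3) (nat_lit 5) (nat_lit 11) (C.cons (nat_lit 2344) (C.miq (nat_lit 890550432) (nat_lit 60484605527955542547566337)) (C.cons (nat_lit 2088) (C.node (nat_lit 3) (nat_lit 8) (nat_lit 11) (C.cons (nat_lit 2312) (C.node (nat_lit 5) (nat_lit 8) (nat_lit 11) (C.cons (nat_lit 2340) (C.miq (nat_lit 622114976) (nat_lit 60484605526829642640723713)) (C.cons (nat_lit 2336) (C.node (nat_lit 1) (nat_lit 8) (nat_lit 11) (C.cons (nat_lit 2434) (C.node (nat_lit 2) (nat_lit 7) (nat_lit 11) C.nil) C.nil)) C.nil))) C.nil)) C.nil))) (C.cons (nat_lit 1282) (C.node (nat_lit 2) (nat_lit 10) (nat_lit 11) (C.cons (nat_lit 3108) (C.node (nat_lit 1) (nat_lit 5) (nat_lit 10) (C.cons (nat_lit 1570) (C.miq (nat_lit 827636368) (nat_lit 60484605735685174831681281))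 (C.cons (nat_lit 1058) (C.node (nat_lit 2) (nat_lit 9) (nat_lit 11) (C.cons (nat_lit 2566) (C.miq (nat_lit 621394481) (nat_lit 678254720023928907510778890)) (C.cons (nat_lit 2564) (C.node (nat_lit 1) (nat_lit 2) (nat_lit 11) C.nil) C.nil))) C.nil))) (C.cons (nat_lit 3076) (C.node (nat_lit 5) (nat_lit 10) (nat_lit 11) (C.cons (nat_lit 3104) (C.node (nat_lit 3) (nat_lit 5) (nat_lit 11) (C.cons (nat_lit 2344) (C.node (nat_lit 1) (nat_lit 8) (nat_lit 11) (C.cons (nat_lit 2306) (C.node (nat_lit 1) (nat_lit 3) (nat_lit 8) C.nil) C.nil)) (C.cons (nat_lit 2088) (C.node (nat_lit 3) (nat_lit 8) (nat_lit 11) C.nil) C.nil))) C.nil)) C.nil))) C.nil))) C.nil)) C.nil))) C.nil))))))) C.nil))) C.nil)))) C.nil))))) C.nil))))) C.nil))) (C.cons (nat_lit 3080) (C.node (nat_lit 7) (nat_lit 10) (nat_lit 11) (C.cons (nat_lit 3204) (C.node (nat_lit 1) (nat_lit 7) (nat_lit 11) (C.cons (nat_lit 2434) (C.node (nat_lit 1) (nat_lit 6) (nat_lit 7) (C.cons (nat_lit 706) (C.miq (nat_lit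 605621095) (nat_lit 640742583130313680209709281)) (C.cons (nat_lit 206) (C.miq (nat_lit 2819754870) (nat_lit 317967653931075876997171425)) (C.cons (nat_lit 202) (C.miq (nat_lit 2838563687) (nat_lit 632289805876918062169065697)) (C.cons (nat_lit 198) (C.miq (nat_lit 2819754870) (nat_lit 317967653931075876996647137)) (C.cons (nat_lit 194)
  (C.node (nat_lit 1) (nat_lit 3) (nat_lit 11) (C.cons (nat_lit 2090) (C.node (nat_lit 1) (nat_lit 10) (nat_lit 11) (C.cons (nat_lit 3074) (C.node (nat_lit 3) (nat_lit 8) (nat_lit 11) C.nil) C.nil)) (C.cons (nat_lit 2058) (C.node (nat_lit 1) (nat_lit 7) (nat_lit 9) (C.cons (nat_lit 674) (C.node (nat_lit 1) (nat_lit 2) (nat_lit 7) (C.cons (nat_lit 142) (C.miq (nat_lit 2803479088) (nat_lit 814886857266093617440294941)) (C.cons (nat_lit 134) (C.node (nat_lit 1) (nat_lit 3) (nat_lit 7) (C.cons (nat_lit 138) (C.node (nat_lit 1) (nat_lit 8) (nat_lit 9) (C.cons (nat_lit 834) (C.miq (nat_lit 728236945) (nat_lit 2862741192925768102352912907))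 (C.cons (nat_lit 770) (C.node (nat_lit 1) (nat_lit 9) (nat_lit 11) C.nil) C.nil))) C.nil)) C.nil))) (C.cons (nat_lit 642) (C.node (nat_lit 1) (nat_lit 10) (nat_lit 11) (C.cons (nat_lit 3106) (C.node (nat_lit 2) (nat_lit 8) (nat_lit 11) (C.cons (nat_lit 2340) (C.miq (nat_lit 901253655) (nat_lit 2828893667768437427191022739)) C.nil)) (C.cons (nat_lit 3074) (C.node (nat_lit 5) (nat_lit 10) (nat_lit 11) (C.cons (nat_lit 3104) (C.node (nat_lit 2) (nat_lit 8) (nat_lit 11) C.nil) C.nil)) C.nil))) C.nil))) C.nil))) C.nil)))))) (C.cons (nat_lit 2178) (C.node (nat_lit 7) (nat_lit 8) (nat_lit 11) (C.cons (nat_lit 2432) (C.node (nat_lit 1) (nat_lit 10) (nat_lit 11) (C.cons (nat_lit 3106) (C.node (nat_lit 1) (nat_lit 2) (nat_lit 11) (C.cons (nat_lit 2054) (C.node (nat_lit 1) (nat_lit 9) (nat_lit 11) C.nil) C.nil)) (C.cons (nat_lit 3074) (C.node (nat_lit 5) (nat_lit 10) (nat_lit 11) C.nil) C.nil))) C.nil)) C.nil))) (C.cons (nat_lit 3200) (C.ref (nat_lit 243) (nat_lit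 205163983024656)) C.nil))) C.nil))) C.nil)))) (C.cons (nat_lit 2120) (C.node (nat_lit 6) (nat_lit 9) (nat_lit 11) (C.cons (nat_lit 2624) (C.node (nat_lit 3) (nat_lit 9) (nat_lit 11) (C.cons (nat_lit 2600) (C.node (nat_lit 3) (nat_lit 7) (nat_lit 11) (C.cons (nat_lit 3208) (C.node (nat_lit 3) (nat_lit 4) (nat_lit 7) (C.cons (nat_lit 216) (C.miq (nat_lit 1416859819) (nat_lit 261175938729264038122360577)) (C.cons (nat_lit 184) (C.node (nat_lit 1) (nat_lit 3) (nat_lit 4) (C.cons (nat_lit 282) (C.miq (nat_lit 460539400) (nat_lit 3878239231905110641431085393)) (C.cons (nat_lit 26) (C.node (nat_lit 4) (nat_lit 6) (nat_lit 7) (C.cons (nat_lit 212) (C.miq (nat_lit 2722301557) (nat_lit 2510958573429676356627073249)) (C.cons (nat_lit 208) (C.node (nat_lit 7) (nat_lit 9) (nat_lit 10) (C.cons (nat_lit 1728) (C.miq (nat_lit 611715994) (nat_lit 251476733355750573211651841)) (C.cons (nat_lit 1696) (C.node (nat_lit 6) (nat_lit 7) (nat_lit 10) (C.cons (nat_lit 1472)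 (C.miq (nat_lit 1466210944) (nat_lit 251466919580656102112562945)) (C.cons (nat_lit 1216) (C.node (nat_lit 3) (nat_lit 4) (nat_lit 8) (C.cons (nat_lit 1304) (C.miq (nat_lit 1731464104) (nat_lit 222448568001651008668700417)) (C.cons (nat_lit 792) (C.miq (nat_lit 1697909656) (nat_lit 222448568001648397295030017)) (C.cons (nat_lit 280) (C.node (nat_lit 1) (nat_lit 7) (nat_lit 9) (C.cons (nat_lit 962) (C.miq (nat_lit 611388312) (nat_lit 1415656986847057289475657473)) (C.cons (nat_lit 898) (C.miq (nat_lit 611388312) (nat_lit 1415656986847057289471463169)) (C.cons (nat_lit 706) (C.miq (nat_lit 605621095) (nat_lit 640742583130313680209709281)) (C.cons (nat_lit 642) (C.node (nat_lit 1) (nat_lit 3) (nat_lit 11) (C.cons (nat_lit 2314) (C.node (nat_lit 1) (nat_lit 9) (nat_lit 11) (C.cons (nat_lit 2566) (C.miq (nat_lit 2174171936) (nat_lit 776137626414357015051962397)) (C.cons (nat_lit 2562) (C.node (nat_lit 2) (nat_lit 9) (nat_lit 11) (C.cons (nat_lit 2564) (C.node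 (nat_lit 1) (nat_lit 7) (nat_lit 11) (C.cons (nat_lit 2178) (C.node (nat_lit 2) (nat_lit 7) (nat_lit 11) C.nil) C.nil)) C.nil)) C.nil))) (C.cons (nat_lit 2058) (C.node (nat_lit 3) (nat_lit 8) (nat_lit 11) (C.cons (nat_lit 2312) (C.node (nat_lit 1) (nat_lit 4) (nat_lit 5) (C.cons (nat_lit 306) (C.node (nat_lit 1) (nat_lit 5) (nat_lit 7) (C.cons (nat_lit 166) (C.miq (nat_lit 2769852192) (nat_lit 370002155223445919330927237)) (C.cons (nat_lit 162)
  (C.node (nat_lit 5) (nat_lit 8) (nat_lit 11) (C.cons (nat_lit 2340) (C.miq (nat_lit 2508274464) (nat_lit 369940949181072067244001309)) (C.cons (nat_lit 2336) (C.node (nat_lit 1) (nat_lit 8) (nat_lit 11) (C.cons (nat_lit 2434) (C.node (nat_lit 2) (nat_lit 7) (nat_lit 11) C.nil) C.nil)) C.nil))) C.nil))) (C.cons (nat_lit 50) (C.node (nat_lit 1) (nat_lit 4) (nat_lit 8) (C.cons (nat_lit 274) (C.node (nat_lit 2) (nat_lit 4) (nat_lit 7) C.nil) C.nil)) C.nil))) C.nil)) C.nil))) C.nil))))) C.nil)))) C.nil))) (C.cons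 (nat_lit 1664) (C.miq (nat_lit 1519857844) (nat_lit 2011655958339439856612018205)) C.nil)))) C.nil))) C.nil))) (C.cons (nat_lit 152) (C.miq (nat_lit 1416859819) (nat_lit 183804686273927770941165313)) C.nil)))) (C.cons (nat_lit 2186) (C.miq (nat_lit 1094256565) (nat_lit 632278552611492996126869729)) (C.cons (nat_lit 2184) (C.miq (nat_lit 2746680724) (nat_lit 2640315591475442448732258865)) C.nil)))) (C.cons (nat_lit 2568) (C.node (nat_lit 3) (nat_lit 7) (nat_lit 11) (C.cons (nat_lit 3208) (C.miq (nat_lit 1404635764) (nat_lit 3104531853693577700333061267)) (C.cons (nat_lit 2186) (C.miq (nat_lit 996700480) (nat_lit 2862743591033176300949931155)) (C.cons (nat_lit 2184) (C.node (nat_lit 3) (nat_lit 10) (nat_lit 11) (C.cons (nat_lit 3082) (C.node (nat_lit 7) (nat_lit 10) (nat_lit 11) (C.cons (nat_lit 3204) (C.miq (nat_lit 2443641778) (nat_lit 1415664033065882956360583197)) (C.cons (nat_lit 3200) (C.node (nat_lit 2) (nat_lit 10) (nat_lit 11) (C.cons (nat_lit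 3108) (C.node (nat_lit 2) (nat_lit 9) (nat_lit 11) (C.cons (nat_lit 2566) (C.miq (nat_lit 621394481) (nat_lit 678254720023928907510778890)) C.nil)) C.nil)) C.nil))) (C.cons (nat_lit 3080) (C.node (nat_lit 7) (nat_lit 10) (nat_lit 11) (C.cons (nat_lit 3204) (C.node (nat_lit 1) (nat_lit 7) (nat_lit 11) (C.cons (nat_lit 2434) (C.node (nat_lit 1) (nat_lit 3) (nat_lit 11) (C.cons (nat_lit 2090) (C.node (nat_lit 1) (nat_lit 10) (nat_lit 11) C.nil) C.nil)) C.nil)) (C.cons (nat_lit 3200) (C.node (nat_lit 1) (nat_lit 7) (nat_lit 11) C.nil) C.nil))) C.nil))) C.nil)))) C.nil))) C.nil)) C.nil))) C.nil))) C.nil)))) C.nil))) List.nil)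

theorem ok12_244 : okL par12 (nat_lit 245) c12_244 (nat_lit 244) = true := by decide +kernel

noncomputable def c12_245 : List C :=
  (List.cons (C.node (nat_lit 4) (nat_lit 5) (nat_lit 11) (C.cons (nat_lit 3120) (C.node (nat_lit 7) (nat_lit 10) (nat_lit 11) (C.cons (nat_lit 3208) (C.miq (nat_lit 1930017364) (nat_lit 632318084557402668463623216)) (C.cons (nat_lit 3204) (C.miq (nat_lit 2718283668) (nat_lit 44787810069099848936786576)) (C.cons (nat_lit 3200) (C.node (nat_lit 2) (nat_lit 10) (nat_lit 11) (C.cons (nat_lit 3078) (C.node (nat_lit 2) (nat_lit 5) (nat_lit 11) (C.cons (nat_lit 2596) (C.miq (nat_lit 732403008) (nat_lit 3868574521647463341636125233)) (C.cons (nat_lit 2340) (C.miq (nat_lit 1166060321) (nat_lit 349401163884150122952985606)) (C.cons (nat_lit 2084) (C.node (nat_lit 2) (nat_lit 9) (nat_lit 11) (C.cons (nat_lit 2628) (C.miq (nat_lit 2763392914) (nat_lit 2575032158400051518156046981)) (C.cons (nat_lit 2564) (C.node (nat_lit 2) (nat_lit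 6) (nat_lit 11) (C.cons (nat_lit 2372) (C.miq (nat_lit 641841162) (nat_lit 2575068775525079112362430209)) (C.cons (nat_lit 2116) (C.node (nat_lit 1) (nat_lit 2) (nat_lit 4) (C.cons (nat_lit 534) (C.miq (nat_lit 1612822420) (nat_lit 317986782763319866644892304)) (C.cons (nat_lit 54) (C.miq (nat_lit 2337409601) (nat_lit 2519406260651737371546879123)) (C.cons (nat_lit 22) (C.node (nat_lit 1) (nat_lit 5) (nat_lit 10) (C.cons (nat_lit 1634) (C.miq (nat_lit 1411485882) (nat_lit 26626510169254666034351873)) (C.cons (nat_lit 1570) (C.miq (nat_lit 1411485882) (nat_lit 26625329577633948623048449)) (C.cons (nat_lit 1378) (C.miq (nat_lit 1361356811) (nat_lit 26653922260905463264382721)) (C.cons (nat_lit 1314) (C.miq (nat_lit 1361356811) (nat_lit 26653922242891064754900737)) (C.cons (nat_lit 1122) (C.miq (nat_lit 874122085) (nat_lit 1415671781135801939235309793)) (C.cons (nat_lit 1058) (C.node (nat_lit 1) (nat_lit 4) (nat_lit 9) (C.cons (nat_lit 786) (C.node (nat_lit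 1) (nat_lit 3) (nat_lit 4) (C.cons (nat_lit 58) (C.miq (nat_lit 2589002563) (nat_lit 1279053165880587002782025757)) (C.cons (nat_lit 26) (C.node (nat_lit 1) (nat_lit 4) (nat_lit 5) (C.cons (nat_lit 50) (C.node (nat_lit 1) (nat_lit 9) (nat_lit 11) (C.cons (nat_lit 2594) (C.miq (nat_lit 1363589504) (nat_lit 2575053925958589149388803841)) (C.cons (nat_lit 2562) (C.node (nat_lit 3) (nat_lit 7) (nat_lit 11) (C.cons (nat_lit 2186) (C.miq (nat_lit 826833760) (nat_lit 950222944402832946564761825)) (C.cons (nat_lit 2184) (C.node (nat_lit 1) (nat_lit 7) (nat_lit 11) (C.cons (nat_lit 2434) (C.miq (nat_lit 1900394640) (nat_lit 60488221115124469740932865)) (C.cons (nat_lit 2178) (C.node (nat_lit 5) (nat_lit 9) (nat_lit 11) (C.cons (nat_lit 2600) (C.miq (nat_lit 826642603) (nat_lit 60494252662539546000363265)) (C.cons (nat_lit 2592) (C.node (nat_lit 6) (nat_lit 8) (nat_lit 11) (C.cons (nat_lit 2376) (C.miq (nat_lit 991397440) (nat_lit 2633047685359877003385438545))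 (C.cons (nat_lit 2368) (C.node (nat_lit 1) (nat_lit 8) (nat_lit 10) (C.cons (nat_lit 1354) (C.miq (nat_lit 560249472) (nat_lit 2575050310532987030586068737)) (C.cons (nat_lit 1346) (C.miq (nat_lit 560249472) (nat_lit 2575050310532986996226330369)) (C.cons (nat_lit 1290) (C.miq (nat_lit 826648720) (nat_lit 60465937126276055245590273)) (C.cons (nat_lit 1282) (C.node (nat_lit 1) (nat_lit 3) (nat_lit 10) C.nil) C.nil))))) C.nil))) C.nil))) C.nil))) C.nil))) C.nil))) C.nil)) C.nil))) (C.cons (nat_lit 530) (C.node (nat_lit 1) (nat_lit 9) (nat_lit 10) (C.cons (nat_lit 1602) (C.node (nat_lit 6) (nat_lit 9) (nat_lit 11) (C.cons (nat_lit 2632) (C.miq (nat_lit 907327904) (nat_lit 2575050310407450256179662593)) (C.cons (nat_lit 2624) (C.node (nat_lit 3) (nat_lit 9) (nat_lit 11) (C.cons (nat_lit 2600) (C.miq (nat_lit 2443522123) (nat_lit 1279091478834085754104186909)) (C.cons (nat_lit 2568) (C.node (nat_lit 4) (nat_lit 9) (nat_lit 10) (C.cons (nat_lit 1560) (C.miq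 (nat_lit 1402669639) (nat_lit 3104563434519424812979324051)) (C.cons (nat_lit 1556) (C.miq (nat_lit 2040968224) (nat_lit 1936741093233030499756476445)) (C.cons (nat_lit 1552) (C.node (nat_lit 1) (nat_lit 2) (nat_lit 9) (C.cons (nat_lit 550)
  (C.node (nat_lit 1) (nat_lit 9) (nat_lit 11) (C.cons (nat_lit 2562) (C.node (nat_lit 5) (nat_lit 9) (nat_lit 11) (C.cons (nat_lit 2592) (C.node (nat_lit 1) (nat_lit 7) (nat_lit 9) (C.cons (nat_lit 898) (C.miq (nat_lit 611388312) (nat_lit 1415656986847057289471463169)) (C.cons (nat_lit 642) (C.node (nat_lit 1) (nat_lit 8) (nat_lit 9) (C.cons (nat_lit 770) (C.node (nat_lit 1) (nat_lit 3) (nat_lit 10) C.nil) C.nil)) C.nil))) C.nil)) C.nil)) (C.cons (nat_lit 518) (C.node (nat_lit 1) (nat_lit 3) (nat_lit 10) (C.cons (nat_lit 1290) (C.node (nat_lit 1) (nat_lit 3) (nat_lit 4) (C.cons (nat_lit 58) (C.miq (nat_lit 2589002563) (nat_lit 1279053165880587002782025757)) (C.cons (nat_lit 26) (C.node (nat_lit 3) (nat_lit 7) (nat_lit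 11) (C.cons (nat_lit 2186) (C.miq (nat_lit 2199127990) (nat_lit 31438287973362253446645985)) (C.cons (nat_lit 2184) (C.node (nat_lit 1) (nat_lit 7) (nat_lit 11) (C.cons (nat_lit 2434) (C.miq (nat_lit 2980411440) (nat_lit 1279085447286672842541302153)) (C.cons (nat_lit 2178) (C.node (nat_lit 1) (nat_lit 3) (nat_lit 11) (C.cons (nat_lit 2090) (C.node (nat_lit 1) (nat_lit 8) (nat_lit 11) C.nil) C.nil)) C.nil))) C.nil))) C.nil))) (C.cons (nat_lit 1034) (C.node (nat_lit 1) (nat_lit 8) (nat_lit 10) (C.cons (nat_lit 1282) (C.node (nat_lit 1) (nat_lit 9) (nat_lit 11) (C.cons (nat_lit 2594) (C.node (nat_lit 1) (nat_lit 7) (nat_lit 9) (C.cons (nat_lit 898) (C.miq (nat_lit 611388312) (nat_lit 1415656986847057289471463169)) (C.cons (nat_lit 642) (C.node (nat_lit 1) (nat_lit 8) (nat_lit 9) (C.cons (nat_lit 770) (C.node (nat_lit 1) (nat_lit 3) (nat_lit 11) C.nil) C.nil)) C.nil))) (C.cons (nat_lit 2562) (C.node (nat_lit 5) (nat_lit 9) (nat_lit 11) (C.cons (nat_lit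 2592) (C.node (nat_lit 1) (nat_lit 7) (nat_lit 9) (C.cons (nat_lit 930) (C.miq (nat_lit 611388312) (nat_lit 1415656986847057289473560321)) (C.cons (nat_lit 898) (C.miq (nat_lit 611388312) (nat_lit 1415656986847057289471463169)) (C.cons (nat_lit 674) (C.node (nat_lit 1) (nat_lit 8) (nat_lit 9) C.nil) C.nil)))) C.nil)) C.nil))) C.nil)) C.nil))) C.nil))) C.nil)))) C.nil))) C.nil))) (C.cons (nat_lit 1538) (C.node (nat_lit 1) (nat_lit 9) (nat_lit 11) (C.cons (nat_lit 2594) (C.node (nat_lit 3) (nat_lit 5) (nat_lit 11) (C.cons (nat_lit 2344) (C.miq (nat_lit 1958218323) (nat_lit 2804715151405981251351872553)) (C.cons (nat_lit 2088) (C.node (nat_lit 5) (nat_lit 8) (nat_lit 11) (C.cons (nat_lit 2336) (C.node (nat_lit 1) (nat_lit 7) (nat_lit 9) (C.cons (nat_lit 962) (C.miq (nat_lit 611388312) (nat_lit 1415656986847057289475657473)) (C.cons (nat_lit 898) (C.miq (nat_lit 611388312) (nat_lit 1415656986847057289471463169)) (C.cons (nat_lit 706) (C.miq (nat_lit 605621095)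 (nat_lit 640742583130313680209709281)) (C.cons (nat_lit 642) (C.node (nat_lit 1) (nat_lit 2) (nat_lit 9) (C.cons (nat_lit 582) (C.node (nat_lit 1) (nat_lit 8) (nat_lit 9) (C.cons (nat_lit 770) (C.node (nat_lit 2) (nat_lit 7) (nat_lit 11) (C.cons (nat_lit 2436) (C.node (nat_lit 1) (nat_lit 7) (nat_lit 11) (C.cons (nat_lit 2178) (C.node (nat_lit 3) (nat_lit 7) (nat_lit 11) C.nil) C.nil)) (C.cons (nat_lit 2180) (C.node (nat_lit 2) (nat_lit 8) (nat_lit 11) (C.cons (nat_lit 2308) (C.node (nat_lit 1) (nat_lit 3) (nat_lit 11) C.nil) C.nil)) C.nil))) C.nil)) (C.cons (nat_lit 518) (C.node (nat_lit 1) (nat_lit 6) (nat_lit 9) (C.cons (nat_lit 834) (C.node (nat_lit 3) (nat_lit 7) (nat_lit 11) (C.cons (nat_lit 2186) (C.miq (nat_lit 2019635275) (nat_lit 1008284458251766974175643677)) (C.cons (nat_lit 2184) (C.node (nat_lit 3) (nat_lit 9) (nat_lit 11) (C.cons (nat_lit 2632) (C.miq (nat_lit 2192969785) (nat_lit 2558102418963149647138783755)) (C.cons (nat_lit 2568)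 (C.node (nat_lit 1) (nat_lit 3) (nat_lit 11) C.nil) C.nil))) C.nil))) (C.cons (nat_lit 578) (C.node (nat_lit 1) (nat_lit 8) (nat_lit 9) (C.cons (nat_lit 770) (C.node (nat_lit 2) (nat_lit 7) (nat_lit 11) (C.cons (nat_lit 2436) (C.node (nat_lit 1) (nat_lit 7) (nat_lit 11) (C.cons (nat_lit 2178) (C.node (nat_lit 3) (nat_lit 7) (nat_lit 11) C.nil) C.nil))
  (C.cons (nat_lit 2180) (C.node (nat_lit 2) (nat_lit 8) (nat_lit 11) (C.cons (nat_lit 2308) (C.node (nat_lit 3) (nat_lit 7) (nat_lit 11) C.nil) C.nil)) C.nil))) C.nil)) C.nil))) C.nil))) C.nil))))) C.nil)) C.nil))) (C.cons (nat_lit 2562) (C.node (nat_lit 5) (nat_lit 9) (nat_lit 11) (C.cons (nat_lit 2600) (C.miq (nat_lit 2443522123) (nat_lit 1279091478834085754104186909)) (C.cons (nat_lit 2592) (C.node (nat_lit 2) (nat_lit 7) (nat_lit 11) (C.cons (nat_lit 2436) (C.node (nat_lit 2) (nat_lit 4) (nat_lit 7) (C.cons (nat_lit 212) (C.miq (nat_lit 2873493874) (nat_lit 2575032159151589705815163525)) (C.cons (nat_lit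 180) (C.miq (nat_lit 2605845063) (nat_lit 2519413307307973528603853971)) (C.cons (nat_lit 148) (C.node (nat_lit 1) (nat_lit 7) (nat_lit 11) (C.cons (nat_lit 2186) (C.node (nat_lit 3) (nat_lit 5) (nat_lit 11) (C.cons (nat_lit 2344) (C.miq (nat_lit 1748713585) (nat_lit 2833761412836426542073119891)) (C.cons (nat_lit 2088) (C.node (nat_lit 3) (nat_lit 8) (nat_lit 11) (C.cons (nat_lit 2376) (C.node (nat_lit 3) (nat_lit 9) (nat_lit 11) (C.cons (nat_lit 2568) (C.node (nat_lit 3) (nat_lit 10) (nat_lit 11) C.nil) C.nil)) (C.cons (nat_lit 2312) (C.miq (nat_lit 1748713585) (nat_lit 2795075786608758408482522259)) C.nil))) C.nil))) (C.cons (nat_lit 2178) (C.node (nat_lit 3) (nat_lit 7) (nat_lit 11) (C.cons (nat_lit 2184) (C.node (nat_lit 6) (nat_lit 8) (nat_lit 11) (C.cons (nat_lit 2376) (C.miq (nat_lit 991397440) (nat_lit 2633047685359877003385438545)) (C.cons (nat_lit 2368) (C.node (nat_lit 3) (nat_lit 9) (nat_lit 11) (C.cons (nat_lit 2568) (C.node (nat_lit 6)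 (nat_lit 9) (nat_lit 11) C.nil) C.nil)) C.nil))) C.nil)) C.nil))) C.nil)))) (C.cons (nat_lit 2180) (C.node (nat_lit 2) (nat_lit 8) (nat_lit 11) (C.cons (nat_lit 2308) (C.node (nat_lit 3) (nat_lit 7) (nat_lit 11) (C.cons (nat_lit 2186) (C.node (nat_lit 7) (nat_lit 8) (nat_lit 11) (C.cons (nat_lit 2432) (C.node (nat_lit 6) (nat_lit 8) (nat_lit 11) (C.cons (nat_lit 2368) (C.miq (nat_lit 996700480) (nat_lit 2862743591033176300949931155)) C.nil)) C.nil)) (C.cons (nat_lit 2184) (C.node (nat_lit 6) (nat_lit 8) (nat_lit 11) (C.cons (nat_lit 2376) (C.miq (nat_lit 389759110) (nat_lit 2640333281932836004709269841)) (C.cons (nat_lit 2368) (C.node (nat_lit 1) (nat_lit 7) (nat_lit 11) (C.cons (nat_lit 2434) (C.node (nat_lit 1) (nat_lit 3) (nat_lit 11) C.nil) C.nil)) C.nil))) C.nil))) C.nil)) C.nil))) C.nil))) C.nil))) C.nil))) C.nil))) C.nil))))))) C.nil)))) C.nil))) C.nil))) C.nil)))) (C.cons (nat_lit 3076) (C.node (nat_lit 1) (nat_lit 10) (nat_lit 11) (C.cons (nat_lit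 3082) (C.miq (nat_lit 2494629283) (nat_lit 2575021643584231554654274601)) (C.cons (nat_lit 3074) (C.node (nat_lit 3) (nat_lit 7) (nat_lit 11) (C.cons (nat_lit 2186) (C.node (nat_lit 3) (nat_lit 10) (nat_lit 11) (C.cons (nat_lit 3144) (C.miq (nat_lit 2209744660) (nat_lit 3800868993531776020180501651)) (C.cons (nat_lit 3080) (C.node (nat_lit 6) (nat_lit 10) (nat_lit 11) (C.cons (nat_lit 3136) (C.node (nat_lit 3) (nat_lit 6) (nat_lit 11) (C.cons (nat_lit 2632) (C.miq (nat_lit 2209744660) (nat_lit 3181898973889085882730939539)) (C.cons (nat_lit 2376) (C.node (nat_lit 2) (nat_lit 6) (nat_lit 11) (C.cons (nat_lit 2628) (C.miq (nat_lit 1265269024) (nat_lit 3791212972209907030034809477)) (C.cons (nat_lit 2116) (C.node (nat_lit 6) (nat_lit 9) (nat_lit 11) (C.cons (nat_lit 2624) (C.node (nat_lit 3) (nat_lit 5) (nat_lit 11) (C.cons (nat_lit 2600) (C.miq (nat_lit 1094256565) (nat_lit 632278552611492996126869729)) (C.cons (nat_lit 2088) (C.node (nat_lit 3) (nat_lit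 9) (nat_lit 11) (C.cons (nat_lit 2568) (C.node (nat_lit 1) (nat_lit 8) (nat_lit 11) (C.cons (nat_lit 2306) (C.node (nat_lit 2) (nat_lit 7) (nat_lit 11) C.nil) C.nil)) C.nil)) C.nil))) C.nil)) C.nil))) (C.cons (nat_lit 2120) (C.miq (nat_lit 2209744660) (nat_lit 2562928954246395745281377427)) C.nil)))) C.nil)) C.nil))) (C.cons (nat_lit 2184) (C.node (nat_lit 1) (nat_lit 3) (nat_lit 4) (C.cons (nat_lit 314) (C.miq (nat_lit 2604730963) (nat_lit 2575021644507469478083822633))
  (C.cons (nat_lit 282) (C.miq (nat_lit 460539400) (nat_lit 2640299192619730366531961169)) (C.cons (nat_lit 58) (C.miq (nat_lit 2604730963) (nat_lit 2575021644507469478067045417)) (C.cons (nat_lit 26) (C.node (nat_lit 3) (nat_lit 10) (nat_lit 11) (C.cons (nat_lit 3144) (C.node (nat_lit 3) (nat_lit 9) (nat_lit 11) (C.cons (nat_lit 2600) (C.miq (nat_lit 1393867018) (nat_lit 31489625883327518135750401)) (C.cons (nat_lit 2568) (C.node (nat_lit 6) (nat_lit 9) (nat_lit 11) (C.cons (nat_lit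 2628) (C.miq (nat_lit 1265269024) (nat_lit 3800884378766824063432458885)) (C.cons (nat_lit 2624) (C.node (nat_lit 3) (nat_lit 4) (nat_lit 10) (C.cons (nat_lit 1560) (C.miq (nat_lit 1402669639) (nat_lit 3104563434519424812979324051)) (C.cons (nat_lit 1304) (C.miq (nat_lit 2068317603) (nat_lit 2804715151716166675618858025)) (C.cons (nat_lit 1048) (C.node (nat_lit 2) (nat_lit 6) (nat_lit 11) (C.cons (nat_lit 2372) (C.node (nat_lit 2) (nat_lit 7) (nat_lit 11) (C.cons (nat_lit 2182) (C.miq (nat_lit 1093142454) (nat_lit 317953707441016882568890593)) (C.cons (nat_lit 2180) (C.node (nat_lit 1) (nat_lit 7) (nat_lit 11) (C.cons (nat_lit 2434) (C.miq (nat_lit 2709653430) (nat_lit 317967653179537689321670881)) (C.cons (nat_lit 2178) (C.node (nat_lit 7) (nat_lit 8) (nat_lit 11) (C.cons (nat_lit 2432) (C.node (nat_lit 4) (nat_lit 8) (nat_lit 10) (C.cons (nat_lit 1300) (C.miq (nat_lit 1219994208) (nat_lit 2940129194806016124305605701)) (C.cons (nat_lit 1296) (C.node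 (nat_lit 2) (nat_lit 4) (nat_lit 10) (C.cons (nat_lit 1556) (C.miq (nat_lit 699835504) (nat_lit 3172241513398046196471235731)) (C.cons (nat_lit 1044) (C.node (nat_lit 1) (nat_lit 2) (nat_lit 11) (C.cons (nat_lit 2054) (C.node (nat_lit 1) (nat_lit 9) (nat_lit 11) C.nil) C.nil)) C.nil))) C.nil))) C.nil)) C.nil))) C.nil))) (C.cons (nat_lit 2116) (C.node (nat_lit 6) (nat_lit 8) (nat_lit 11) (C.cons (nat_lit 2368) (C.node (nat_lit 4) (nat_lit 6) (nat_lit 10) (C.cons (nat_lit 1616) (C.node (nat_lit 1) (nat_lit 4) (nat_lit 9) (C.cons (nat_lit 786) (C.miq (nat_lit 641796760) (nat_lit 2575016847580510617999642369)) (C.cons (nat_lit 534) (C.miq (nat_lit 1612822420) (nat_lit 317986782763319866644892304)) (C.cons (nat_lit 530) (C.node (nat_lit 1) (nat_lit 9) (nat_lit 10) (C.cons (nat_lit 1574) (C.miq (nat_lit 1362405643) (nat_lit 31489625594534192089992961)) (C.cons (nat_lit 1570) (C.miq (nat_lit 1362405643) (nat_lit 31489625593408292183150337)) (C.cons (nat_lit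 1542) (C.miq (nat_lit 2224096930) (nat_lit 640735535984308856126047301)) (C.cons (nat_lit 1538) (C.node (nat_lit 1) (nat_lit 2) (nat_lit 4) (C.cons (nat_lit 54) (C.node (nat_lit 1) (nat_lit 4) (nat_lit 8) (C.cons (nat_lit 274) (C.node (nat_lit 2) (nat_lit 4) (nat_lit 6) (C.cons (nat_lit 212) (C.miq (nat_lit 714367159) (nat_lit 1953628035514653019441465569)) (C.cons (nat_lit 84) (C.node (nat_lit 2) (nat_lit 4) (nat_lit 10) (C.cons (nat_lit 1300) (C.miq (nat_lit 280307876) (nat_lit 2747889384182276510471685396)) (C.cons (nat_lit 1044) (C.node (nat_lit 4) (nat_lit 8) (nat_lit 10) (C.cons (nat_lit 1296) (C.node (nat_lit 4) (nat_lit 5) (nat_lit 6) (C.cons (nat_lit 120) (C.miq (nat_lit 2587102053) (nat_lit 1266964608660715615081203937)) (C.cons (nat_lit 112) (C.node (nat_lit 2) (nat_lit 4) (nat_lit 7) (C.cons (nat_lit 404) (C.node (nat_lit 2) (nat_lit 4) (nat_lit 9) C.nil) C.nil)) C.nil))) C.nil)) C.nil))) C.nil))) C.nil)) (C.cons (nat_lit 22) (C.node (nat_lit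 1) (nat_lit 4) (nat_lit 5) (C.cons (nat_lit 306) (C.node (nat_lit 1) (nat_lit 5) (nat_lit 10) (C.cons (nat_lit 1122) (C.miq (nat_lit 874122085) (nat_lit 1415671781135801939235309793)) (C.cons (nat_lit 1062) (C.miq (nat_lit 1683621906) (nat_lit 3771868719583773971104268551)) (C.cons (nat_lit 1058) (C.node (nat_lit 3) (nat_lit 4) (nat_lit 5) (C.cons (nat_lit 184) (C.miq (nat_lit 2486875984) (nat_lit 1267025113661227620849223905)) (C.cons (nat_lit 120) (C.miq (nat_lit 2587102053) (nat_lit 1266964608660715615081203937)) (C.cons (nat_lit 56) (C.node (nat_lit 4) (nat_lit 5) (nat_lit 7) (C.cons (nat_lit 180)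
  (C.miq (nat_lit 698642613) (nat_lit 1953627445092741871196702945)) (C.cons (nat_lit 176) (C.node (nat_lit 5) (nat_lit 8) (nat_lit 11) (C.cons (nat_lit 2344) (C.miq (nat_lit 1951599288) (nat_lit 67707095798460799817092865)) (C.cons (nat_lit 2340) (C.miq (nat_lit 558203051) (nat_lit 369974466257241956296953601)) (C.cons (nat_lit 2336) (C.node (nat_lit 1) (nat_lit 2) (nat_lit 10) (C.cons (nat_lit 1038) (C.node (nat_lit 3) (nat_lit 8) (nat_lit 10) (C.cons (nat_lit 1288) (C.node (nat_lit 1) (nat_lit 6) (nat_lit 10) (C.cons (nat_lit 1346) (C.miq (nat_lit 1629726731) (nat_lit 1254922997702219274540355329)) (C.cons (nat_lit 1090) (C.node (nat_lit 1) (nat_lit 8) (nat_lit 10) C.nil) C.nil))) C.nil)) (C.cons (nat_lit 1030) (C.node (nat_lit 1) (nat_lit 3) (nat_lit 10) (C.cons (nat_lit 1290) (C.node (nat_lit 1) (nat_lit 6) (nat_lit 10) C.nil) (C.cons (nat_lit 1034) (C.node (nat_lit 1) (nat_lit 6) (nat_lit 10) C.nil) C.nil))) C.nil))) C.nil)))) C.nil))) C.nil))))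 C.nil)))) (C.cons (nat_lit 50) (C.node (nat_lit 1) (nat_lit 4) (nat_lit 8) (C.cons (nat_lit 274) (C.node (nat_lit 2) (nat_lit 4) (nat_lit 9) (C.cons (nat_lit 788) (C.node (nat_lit 2) (nat_lit 4) (nat_lit 10) (C.cons (nat_lit 1044) (C.node (nat_lit 3) (nat_lit 4) (nat_lit 9) (C.cons (nat_lit 536) (C.node (nat_lit 4) (nat_lit 8) (nat_lit 10) C.nil) C.nil)) C.nil)) (C.cons (nat_lit 532) (C.node (nat_lit 2) (nat_lit 4) (nat_lit 10) (C.cons (nat_lit 1300) (C.node (nat_lit 6) (nat_lit 7) (nat_lit 10) (C.cons (nat_lit 1472) (C.miq (nat_lit 728252538) (nat_lit 2862760322199370997306492051)) (C.cons (nat_lit 1216) (C.node (nat_lit 7) (nat_lit 8) (nat_lit 10) (C.cons (nat_lit 1440) (C.miq (nat_lit 883428183) (nat_lit 1571610815654075821992184033)) (C.cons (nat_lit 1408) (C.node (nat_lit 2) (nat_lit 4) (nat_lit 5) (C.cons (nat_lit 180) (C.miq (nat_lit 2754196848) (nat_lit 643219390857172539805075681)) (C.cons (nat_lit 116) (C.miq (nat_lit 2220597856) (nat_lit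 3771919411507548111560049733)) (C.cons (nat_lit 52) (C.node (nat_lit 2) (nat_lit 4) (nat_lit 6) (C.cons (nat_lit 212) (C.miq (nat_lit 2485827424) (nat_lit 1571674420204114293136099553)) C.nil)) C.nil)))) C.nil))) C.nil))) (C.cons (nat_lit 1044) (C.node (nat_lit 4) (nat_lit 8) (nat_lit 10) C.nil) C.nil))) C.nil))) C.nil)) C.nil))) C.nil))) C.nil))))) C.nil)))) (C.cons (nat_lit 1104) (C.node (nat_lit 4) (nat_lit 9) (nat_lit 10) (C.cons (nat_lit 1556) (C.miq (nat_lit 699835504) (nat_lit 3172241513398046196471235731)) (C.cons (nat_lit 1552) (C.node (nat_lit 2) (nat_lit 4) (nat_lit 10) (C.cons (nat_lit 1300) (C.node (nat_lit 1) (nat_lit 2) (nat_lit 4) (C.cons (nat_lit 534) (C.miq (nat_lit 1612822420) (nat_lit 317986782763319866644892304)) (C.cons (nat_lit 54) (C.miq (nat_lit 280307876) (nat_lit 2747889384182276510471685396)) (C.cons (nat_lit 22) (C.node (nat_lit 2) (nat_lit 4) (nat_lit 5) (C.cons (nat_lit 180) (C.miq (nat_lit 2588019543) (nat_lit 1571615464730104255634213089))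 (C.cons (nat_lit 116) (C.miq (nat_lit 2220597856) (nat_lit 3771919411507548111560049733)) (C.cons (nat_lit 52) (C.node (nat_lit 2) (nat_lit 4) (nat_lit 7) (C.cons (nat_lit 212) (C.miq (nat_lit 2485827424) (nat_lit 1571674420204114293136099553)) (C.cons (nat_lit 148) (C.node (nat_lit 4) (nat_lit 5) (nat_lit 6) (C.cons (nat_lit 120) (C.miq (nat_lit 2587102053) (nat_lit 1266964608660715615081203937)) (C.cons (nat_lit 112) (C.node (nat_lit 1) (nat_lit 4) (nat_lit 5) (C.cons (nat_lit 306) (C.node (nat_lit 1) (nat_lit 4) (nat_lit 9) C.nil) C.nil)) C.nil))) C.nil))) C.nil)))) C.nil)))) (C.cons (nat_lit 1044) (C.node (nat_lit 4) (nat_lit 8) (nat_lit 10) (C.cons (nat_lit 1296) (C.ref (nat_lit 239) (nat_lit 205163983024656)) C.nil)) C.nil))) C.nil))) C.nil))) C.nil)) C.nil))) C.nil)))) C.nil))) C.nil))) (C.cons (nat_lit 3080) (C.node (nat_lit 6) (nat_lit 10) (nat_lit 11) (C.cons (nat_lit 3136) (C.node (nat_lit 1) (nat_lit 2) (nat_lit 4) (C.cons (nat_lit 534)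 (C.miq (nat_lit 1612822420) (nat_lit 317986782763319866644892304)) (C.cons (nat_lit 54)
  (C.node (nat_lit 2) (nat_lit 5) (nat_lit 11) (C.cons (nat_lit 2596) (C.miq (nat_lit 1951533753) (nat_lit 65293892738738116291202817)) (C.cons (nat_lit 2340) (C.node (nat_lit 2) (nat_lit 6) (nat_lit 11) (C.cons (nat_lit 2628) (C.miq (nat_lit 1265269024) (nat_lit 3791212972209907030034809477)) (C.cons (nat_lit 2116) (C.node (nat_lit 6) (nat_lit 8) (nat_lit 11) (C.cons (nat_lit 2376) (C.miq (nat_lit 389759110) (nat_lit 2640333281932836004709269841)) (C.cons (nat_lit 2368) (C.node (nat_lit 2) (nat_lit 4) (nat_lit 10) (C.cons (nat_lit 1556) (C.miq (nat_lit 1967262633) (nat_lit 65293893048923540558188289)) (C.cons (nat_lit 1300) (C.miq (nat_lit 1965296522) (nat_lit 65303596036302961691070209)) (C.cons (nat_lit 1044) (C.node (nat_lit 4) (nat_lit 8) (nat_lit 10) (C.cons (nat_lit 1304) (C.miq (nat_lit 2068317603) (nat_lit 2804715151716166675618858025)) (C.cons (nat_lit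 1296) (C.node (nat_lit 5) (nat_lit 8) (nat_lit 10) (C.cons (nat_lit 1440) (C.miq (nat_lit 1948623032) (nat_lit 65308557900272235717070593)) (C.cons (nat_lit 1378) (C.miq (nat_lit 874122085) (nat_lit 1415671781135801939252087009)) (C.cons (nat_lit 1376) (C.miq (nat_lit 413474996) (nat_lit 1663482923987954140760246301)) (C.cons (nat_lit 1314) (C.node (nat_lit 1) (nat_lit 4) (nat_lit 8) (C.cons (nat_lit 786) (C.node (nat_lit 7) (nat_lit 8) (nat_lit 11) (C.cons (nat_lit 2434) (C.miq (nat_lit 1900394640) (nat_lit 65323924393582986439757569)) (C.cons (nat_lit 2432) (C.node (nat_lit 1) (nat_lit 7) (nat_lit 8) (C.cons (nat_lit 450) (C.miq (nat_lit 873991015) (nat_lit 950222944372152174110705889)) (C.cons (nat_lit 386) (C.node (nat_lit 1) (nat_lit 7) (nat_lit 9) (C.cons (nat_lit 706) (C.miq (nat_lit 605621095) (nat_lit 950227592951658748934490337)) (C.cons (nat_lit 674) (C.miq (nat_lit 1729627540) (nat_lit 466651583563795218478268977)) (C.cons (nat_lit 642)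 (C.node (nat_lit 5) (nat_lit 9) (nat_lit 11) (C.cons (nat_lit 2600) (C.miq (nat_lit 891394944) (nat_lit 65291642638185515218046721)) (C.cons (nat_lit 2594) (C.miq (nat_lit 1363589504) (nat_lit 2575053925958589149388803841)) (C.cons (nat_lit 2592) (C.node (nat_lit 1) (nat_lit 5) (nat_lit 11) (C.cons (nat_lit 2090) (C.node (nat_lit 1) (nat_lit 8) (nat_lit 11) C.nil) C.nil)) C.nil)))) C.nil)))) C.nil))) C.nil))) (C.cons (nat_lit 274) (C.node (nat_lit 1) (nat_lit 4) (nat_lit 9) (C.cons (nat_lit 530) (C.node (nat_lit 2) (nat_lit 7) (nat_lit 11) (C.cons (nat_lit 2182) (C.node (nat_lit 2) (nat_lit 9) (nat_lit 11) (C.cons (nat_lit 2564) (C.node (nat_lit 7) (nat_lit 8) (nat_lit 11) (C.cons (nat_lit 2432) (C.node (nat_lit 1) (nat_lit 8) (nat_lit 11) C.nil) C.nil)) C.nil)) (C.cons (nat_lit 2180) (C.node (nat_lit 1) (nat_lit 2) (nat_lit 11) (C.cons (nat_lit 2566) (C.node (nat_lit 1) (nat_lit 5) (nat_lit 11) (C.cons (nat_lit 2082) (C.node (nat_lit 1) (nat_lit 3)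 (nat_lit 11) C.nil) C.nil)) (C.cons (nat_lit 2054) (C.node (nat_lit 2) (nat_lit 9) (nat_lit 11) C.nil) C.nil))) C.nil))) C.nil)) C.nil))) (C.cons (nat_lit 1312) (C.miq (nat_lit 413474996) (nat_lit 1586111671532617873579051037)) C.nil)))))) C.nil))) C.nil)))) C.nil))) C.nil))) (C.cons (nat_lit 2084) (C.miq (nat_lit 2337409601) (nat_lit 2519406260651737371546879123)) C.nil)))) (C.cons (nat_lit 22) (C.node (nat_lit 1) (nat_lit 4) (nat_lit 5) (C.cons (nat_lit 306) (C.node (nat_lit 1) (nat_lit 4) (nat_lit 9) (C.cons (nat_lit 530) (C.node (nat_lit 4) (nat_lit 5) (nat_lit 7) (C.cons (nat_lit 184) (C.miq (nat_lit 2336688723) (nat_lit 3268942666889537042114937897)) (C.cons (nat_lit 180) (C.miq (nat_lit 2686826868) (nat_lit 44787810248399409076505232)) (C.cons (nat_lit 176) (C.node (nat_lit 5) (nat_lit 8) (nat_lit 11) (C.cons (nat_lit 2344) (C.miq (nat_lit 927301803) (nat_lit 212814183530908205395742465)) (C.cons (nat_lit 2340) (C.miq (nat_lit 558203051) (nat_lit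 369974466257241956296953601)) (C.cons (nat_lit 2336) (C.node (nat_lit 1) (nat_lit 5) (nat_lit 10) (C.cons (nat_lit 1634) (C.miq (nat_lit 877726633) (nat_lit 369940949033864004588670721)) (C.cons (nat_lit 1574)
  (C.miq (nat_lit 877726633) (nat_lit 369940949033864004584738561)) (C.cons (nat_lit 1570) (C.miq (nat_lit 877726633) (nat_lit 369940949033864004584476417)) (C.cons (nat_lit 1122) (C.miq (nat_lit 874122085) (nat_lit 1415671781135801939235309793)) (C.cons (nat_lit 1062) (C.miq (nat_lit 1683621906) (nat_lit 3771868719583773971104268551)) (C.cons (nat_lit 1058) (C.node (nat_lit 2) (nat_lit 4) (nat_lit 5) (C.cons (nat_lit 116) (C.node (nat_lit 3) (nat_lit 4) (nat_lit 5) (C.cons (nat_lit 56) (C.node (nat_lit 2) (nat_lit 4) (nat_lit 10) (C.cons (nat_lit 1556) (C.miq (nat_lit 1967262633) (nat_lit 140247293865030549389971201)) (C.cons (nat_lit 1300) (C.miq (nat_lit 2220597856) (nat_lit 3771919411507548111560049733)) (C.cons (nat_lit 1044) (C.node (nat_lit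 4) (nat_lit 8) (nat_lit 10) (C.cons (nat_lit 1304) (C.miq (nat_lit 1967328168) (nat_lit 67707096108646224084078337)) (C.cons (nat_lit 1296) (C.node (nat_lit 5) (nat_lit 6) (nat_lit 10) (C.cons (nat_lit 1632) (C.miq (nat_lit 2504762912) (nat_lit 3771919411600997803815142469)) (C.cons (nat_lit 1376) (C.miq (nat_lit 2236327456) (nat_lit 3771919411528940209777214533)) (C.cons (nat_lit 1120) (C.node (nat_lit 5) (nat_lit 9) (nat_lit 10) (C.cons (nat_lit 1696) (C.miq (nat_lit 609684393) (nat_lit 212782842986739204446228225)) (C.cons (nat_lit 1572) (C.miq (nat_lit 2504565344) (nat_lit 370002155188542807475291205)) (C.cons (nat_lit 1568) (C.node (nat_lit 2) (nat_lit 4) (nat_lit 7) (C.cons (nat_lit 404) (C.node (nat_lit 2) (nat_lit 4) (nat_lit 9) (C.cons (nat_lit 532) (C.node (nat_lit 2) (nat_lit 8) (nat_lit 11) (C.cons (nat_lit 2372) (C.miq (nat_lit 2185868880) (nat_lit 643219390646628982342093025)) (C.cons (nat_lit 2308) (C.node (nat_lit 2) (nat_lit 6) (nat_lit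 11) (C.cons (nat_lit 2628) (C.miq (nat_lit 2761033654) (nat_lit 643168698655874096975579361)) (C.cons (nat_lit 2116) (C.node (nat_lit 3) (nat_lit 4) (nat_lit 7) C.nil) C.nil))) C.nil))) C.nil)) (C.cons (nat_lit 148) (C.node (nat_lit 4) (nat_lit 7) (nat_lit 8) (C.cons (nat_lit 400) (C.node (nat_lit 2) (nat_lit 4) (nat_lit 8) (C.cons (nat_lit 788) (C.node (nat_lit 3) (nat_lit 4) (nat_lit 8) C.nil) C.nil)) C.nil)) C.nil))) C.nil)))) C.nil)))) C.nil))) C.nil)))) C.nil)) (C.cons (nat_lit 52) (C.node (nat_lit 3) (nat_lit 4) (nat_lit 5) (C.cons (nat_lit 120) (C.node (nat_lit 3) (nat_lit 4) (nat_lit 7) (C.cons (nat_lit 152) (C.node (nat_lit 4) (nat_lit 6) (nat_lit 7) (C.cons (nat_lit 212) (C.miq (nat_lit 2873493874) (nat_lit 2575032159151589705815163525)) (C.cons (nat_lit 208) (C.node (nat_lit 3) (nat_lit 4) (nat_lit 10) (C.cons (nat_lit 1560) (C.miq (nat_lit 1949677984) (nat_lit 145113028564150080019959553)) (C.cons (nat_lit 1304) (C.miq (nat_lit 1412938368)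 (nat_lit 183798654908910704366522113)) (C.cons (nat_lit 1048) (C.node (nat_lit 5) (nat_lit 6) (nat_lit 10) (C.cons (nat_lit 1632) (C.miq (nat_lit 2521539888) (nat_lit 2575082850182514938035897385)) (C.cons (nat_lit 1376) (C.miq (nat_lit 2253104432) (nat_lit 2575082850110457343997969449)) (C.cons (nat_lit 1120) (C.node (nat_lit 2) (nat_lit 4) (nat_lit 6) (C.cons (nat_lit 596) (C.node (nat_lit 4) (nat_lit 6) (nat_lit 10) (C.cons (nat_lit 1104) (C.node (nat_lit 4) (nat_lit 9) (nat_lit 10) C.nil) C.nil)) (C.cons (nat_lit 84) (C.node (nat_lit 2) (nat_lit 4) (nat_lit 7) (C.cons (nat_lit 404) (C.node (nat_lit 4) (nat_lit 8) (nat_lit 10) C.nil) C.nil)) C.nil))) C.nil)))) C.nil)))) C.nil))) C.nil)) (C.cons (nat_lit 56) (C.node (nat_lit 4) (nat_lit 5) (nat_lit 6) (C.cons (nat_lit 112) (C.node (nat_lit 3) (nat_lit 4) (nat_lit 7) (C.cons (nat_lit 216) (C.node (nat_lit 3) (nat_lit 4) (nat_lit 8) (C.cons (nat_lit 1304) (C.miq (nat_lit 1412938368) (nat_lit 261169907364246971547717377))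 (C.cons (nat_lit 792) (C.miq (nat_lit 2490073968) (nat_lit 2575082849946076369928651145)) (C.cons (nat_lit 280) (C.node (nat_lit 3) (nat_lit 4) (nat_lit 9) (C.cons (nat_lit 1560) (C.miq (nat_lit 1949677984) (nat_lit 67741776108813812838764289)) (C.cons (nat_lit 536)
  (C.node (nat_lit 3) (nat_lit 4) (nat_lit 10) C.nil) C.nil))) C.nil)))) (C.cons (nat_lit 152) (C.node (nat_lit 4) (nat_lit 6) (nat_lit 7) (C.cons (nat_lit 212) (C.miq (nat_lit 2873493874) (nat_lit 2575032159151589705815163525)) (C.cons (nat_lit 208) (C.node (nat_lit 2) (nat_lit 4) (nat_lit 6) (C.cons (nat_lit 596) (C.node (nat_lit 4) (nat_lit 9) (nat_lit 10) (C.cons (nat_lit 1560) (C.miq (nat_lit 1949677984) (nat_lit 67741776108813812838764289)) C.nil)) C.nil)) C.nil))) C.nil))) C.nil)) C.nil))) C.nil))) C.nil))))))) C.nil)))) C.nil)))) C.nil)) (C.cons (nat_lit 50) (C.node (nat_lit 1) (nat_lit 4) (nat_lit 8) (C.cons (nat_lit 786) (C.node (nat_lit 4) (nat_lit 9) (nat_lit 10) (C.cons (nat_lit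 1624) (C.miq (nat_lit 1678944640) (nat_lit 26616530779913144423091969)) (C.cons (nat_lit 1616) (C.miq (nat_lit 1678944640) (nat_lit 26616530777661344609406721)) (C.cons (nat_lit 1560) (C.miq (nat_lit 1882830244) (nat_lit 632318084294223565304630320)) (C.cons (nat_lit 1556) (C.miq (nat_lit 1800013714) (nat_lit 3771868720128719825380049541)) (C.cons (nat_lit 1552) (C.node (nat_lit 5) (nat_lit 9) (nat_lit 11) (C.cons (nat_lit 2600) (C.miq (nat_lit 826642603) (nat_lit 60494252662539546000363265)) (C.cons (nat_lit 2598) (C.miq (nat_lit 1363589504) (nat_lit 2575053925959715049295646465)) (C.cons (nat_lit 2596) (C.miq (nat_lit 732403008) (nat_lit 3868574521647463341636125233)) (C.cons (nat_lit 2594) (C.miq (nat_lit 1363589504) (nat_lit 2575053925958589149388803841)) (C.cons (nat_lit 2592) (C.node (nat_lit 1) (nat_lit 9) (nat_lit 11) (C.cons (nat_lit 2566) (C.node (nat_lit 1) (nat_lit 7) (nat_lit 11) (C.cons (nat_lit 2434) (C.miq (nat_lit 1900394640) (nat_lit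 60488221115124469740932865)) (C.cons (nat_lit 2178) (C.node (nat_lit 2) (nat_lit 5) (nat_lit 11) (C.cons (nat_lit 2340) (C.miq (nat_lit 558203051) (nat_lit 60489456435896887572172545)) (C.cons (nat_lit 2084) (C.node (nat_lit 2) (nat_lit 7) (nat_lit 11) (C.cons (nat_lit 2436) (C.miq (nat_lit 934873121) (nat_lit 3268945063995737967056781575)) (C.cons (nat_lit 2180) (C.node (nat_lit 7) (nat_lit 8) (nat_lit 11) C.nil) C.nil))) C.nil))) C.nil))) (C.cons (nat_lit 2562) (C.node (nat_lit 2) (nat_lit 9) (nat_lit 11) (C.cons (nat_lit 2628) (C.miq (nat_lit 709451899) (nat_lit 1876301350392987366974294241)) (C.cons (nat_lit 2564) (C.node (nat_lit 2) (nat_lit 4) (nat_lit 9) (C.cons (nat_lit 596) (C.node (nat_lit 3) (nat_lit 4) (nat_lit 9) (C.cons (nat_lit 536) (C.node (nat_lit 2) (nat_lit 4) (nat_lit 10) (C.cons (nat_lit 1300) (C.node (nat_lit 2) (nat_lit 4) (nat_lit 5) (C.cons (nat_lit 180) (C.miq (nat_lit 2754196848) (nat_lit 720590643312508806986270945)) (C.cons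 (nat_lit 52) (C.node (nat_lit 2) (nat_lit 4) (nat_lit 7) (C.cons (nat_lit 148) (C.node (nat_lit 3) (nat_lit 4) (nat_lit 8) (C.cons (nat_lit 280) (C.node (nat_lit 3) (nat_lit 4) (nat_lit 10) C.nil) C.nil)) C.nil)) C.nil))) (C.cons (nat_lit 1044) (C.node (nat_lit 4) (nat_lit 8) (nat_lit 10) (C.cons (nat_lit 1304) (C.miq (nat_lit 2068317603) (nat_lit 2804715151716166675618858025)) (C.cons (nat_lit 1296) (C.node (nat_lit 2) (nat_lit 6) (nat_lit 11) (C.cons (nat_lit 2372) (C.node (nat_lit 2) (nat_lit 7) (nat_lit 11) (C.cons (nat_lit 2182) (C.miq (nat_lit 1093142454) (nat_lit 317953707441016882568890593)) (C.cons (nat_lit 2180) (C.node (nat_lit 1) (nat_lit 7) (nat_lit 11) (C.cons (nat_lit 2434) (C.miq (nat_lit 1900394640) (nat_lit 60488221115124469740932865)) C.nil)) C.nil))) (C.cons (nat_lit 2116) (C.node (nat_lit 6) (nat_lit 8) (nat_lit 11) (C.cons (nat_lit 2376) (C.miq (nat_lit 389759110) (nat_lit 2640333281932836004709269841)) C.nil)) C.nil))) C.nil)))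 C.nil))) C.nil)) (C.cons (nat_lit 532) (C.node (nat_lit 2) (nat_lit 4) (nat_lit 10) (C.cons (nat_lit 1300) (C.node (nat_lit 2) (nat_lit 6) (nat_lit 11) (C.cons (nat_lit 2372) (C.miq (nat_lit 1955269158) (nat_lit 2804749831284832008470266949)) (C.cons (nat_lit 2116) (C.node (nat_lit 6) (nat_lit 8) (nat_lit 11) (C.cons (nat_lit 2376)
  (C.miq (nat_lit 389759110) (nat_lit 2640333281932836004709269841)) C.nil)) C.nil))) (C.cons (nat_lit 1044) (C.node (nat_lit 4) (nat_lit 8) (nat_lit 10) (C.cons (nat_lit 1304) (C.miq (nat_lit 2068317603) (nat_lit 2804715151716166675618858025)) (C.cons (nat_lit 1296) (C.node (nat_lit 2) (nat_lit 6) (nat_lit 11) (C.cons (nat_lit 2372) (C.node (nat_lit 2) (nat_lit 7) (nat_lit 11) (C.cons (nat_lit 2182) (C.miq (nat_lit 1093142454) (nat_lit 317953707441016882568890593)) (C.cons (nat_lit 2180) (C.node (nat_lit 1) (nat_lit 7) (nat_lit 11) (C.cons (nat_lit 2434) (C.miq (nat_lit 1900394640) (nat_lit 60488221115124469740932865)) C.nil))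 C.nil))) (C.cons (nat_lit 2116) (C.node (nat_lit 6) (nat_lit 8) (nat_lit 11) (C.cons (nat_lit 2376) (C.miq (nat_lit 389759110) (nat_lit 2640333281932836004709269841)) C.nil)) C.nil))) C.nil))) C.nil))) C.nil))) C.nil))) C.nil))) C.nil)))))) C.nil)))))) (C.cons (nat_lit 274) (C.node (nat_lit 1) (nat_lit 4) (nat_lit 9) (C.cons (nat_lit 530) (C.node (nat_lit 2) (nat_lit 4) (nat_lit 10) (C.cons (nat_lit 1556) (C.miq (nat_lit 1800013714) (nat_lit 3771868720128719825380049541)) (C.cons (nat_lit 1300) (C.node (nat_lit 2) (nat_lit 4) (nat_lit 5) (C.cons (nat_lit 180) (C.miq (nat_lit 2588019543) (nat_lit 1571615464730104255634213089)) (C.cons (nat_lit 116) (C.miq (nat_lit 2220597856) (nat_lit 3771919411507548111560049733)) (C.cons (nat_lit 52) (C.node (nat_lit 2) (nat_lit 4) (nat_lit 7) (C.cons (nat_lit 212) (C.miq (nat_lit 2485827424) (nat_lit 1571674420204114293136099553)) (C.cons (nat_lit 148) (C.node (nat_lit 2) (nat_lit 6) (nat_lit 11) (C.cons (nat_lit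 2628) (C.miq (nat_lit 2460268039) (nat_lit 1571653446234714171017201889)) (C.cons (nat_lit 2372) (C.miq (nat_lit 1648867488) (nat_lit 178962951419908887959244545)) (C.cons (nat_lit 2116) (C.node (nat_lit 6) (nat_lit 8) (nat_lit 11) (C.cons (nat_lit 2376) (C.miq (nat_lit 389759110) (nat_lit 2640333281932836004709269841)) (C.cons (nat_lit 2368) (C.node (nat_lit 7) (nat_lit 8) (nat_lit 10) (C.cons (nat_lit 1472) (C.miq (nat_lit 728252538) (nat_lit 2862760322199370997306492051)) (C.cons (nat_lit 1440) (C.miq (nat_lit 883428183) (nat_lit 1571610815654075821992184033)) (C.cons (nat_lit 1408) (C.node (nat_lit 5) (nat_lit 8) (nat_lit 10) (C.cons (nat_lit 1378) (C.miq (nat_lit 609291176) (nat_lit 60451143059059771363692289)) (C.cons (nat_lit 1376) (C.miq (nat_lit 1481337376) (nat_lit 2804749831342534378676618309)) (C.cons (nat_lit 1314) (C.miq (nat_lit 609291176) (nat_lit 60451143059059771359497985)) (C.cons (nat_lit 1312) (C.node (nat_lit 2) (nat_lit 4) (nat_lit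 6) (C.cons (nat_lit 596) (C.node (nat_lit 4) (nat_lit 9) (nat_lit 10) (C.cons (nat_lit 1560) (C.miq (nat_lit 874617472) (nat_lit 26606016117778939082379009)) (C.cons (nat_lit 1552) (C.node (nat_lit 5) (nat_lit 6) (nat_lit 10) (C.cons (nat_lit 1634) (C.miq (nat_lit 877726633) (nat_lit 60455939212518935863889665)) (C.cons (nat_lit 1632) (C.miq (nat_lit 898894434) (nat_lit 678245698991025921371407429)) (C.cons (nat_lit 1122) (C.miq (nat_lit 874122085) (nat_lit 1415671781135801939235309793)) (C.cons (nat_lit 1120) (C.node (nat_lit 3) (nat_lit 4) (nat_lit 9) (C.cons (nat_lit 792) (C.node (nat_lit 4) (nat_lit 5) (nat_lit 6) (C.cons (nat_lit 120) (C.miq (nat_lit 918045961) (nat_lit 2862750950702535023586771505)) (C.cons (nat_lit 112) (C.node (nat_lit 3) (nat_lit 6) (nat_lit 11) C.nil) C.nil))) (C.cons (nat_lit 536) (C.node (nat_lit 4) (nat_lit 8) (nat_lit 9) C.nil) C.nil))) C.nil))))) C.nil))) (C.cons (nat_lit 84) (C.node (nat_lit 2) (nat_lit 4) (nat_lit 9)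 (C.cons (nat_lit 532) (C.node (nat_lit 3) (nat_lit 6) (nat_lit 11) C.nil) C.nil)) C.nil))) C.nil))))) C.nil)))) C.nil))) C.nil)))) C.nil))) C.nil)))) (C.cons (nat_lit 1044) (C.node (nat_lit 4) (nat_lit 8) (nat_lit 10) (C.cons (nat_lit 1304) (C.miq (nat_lit 2068317603) (nat_lit 2804715151716166675618858025)) (C.cons (nat_lit 1296)
  (C.ref (nat_lit 240) (nat_lit 205163983024656)) C.nil))) C.nil)))) C.nil)) C.nil))) C.nil))) C.nil)))) C.nil)) C.nil))) C.nil))))) C.nil))) C.nil))) C.nil))) C.nil)))) (C.cons (nat_lit 2096) (C.node (nat_lit 4) (nat_lit 10) (nat_lit 11) (C.cons (nat_lit 3088) (C.node (nat_lit 6) (nat_lit 10) (nat_lit 11) (C.cons (nat_lit 3144) (C.node (nat_lit 3) (nat_lit 7) (nat_lit 11) (C.cons (nat_lit 2186) (C.miq (nat_lit 2209744660) (nat_lit 3800868993531776020180501651)) (C.cons (nat_lit 2184) (C.node (nat_lit 3) (nat_lit 9) (nat_lit 11) (C.cons (nat_lit 2600) (C.miq (nat_lit 2746680724) (nat_lit 2640315591475442448732258865)) (C.cons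 (nat_lit 2568) (C.node (nat_lit 6) (nat_lit 9) (nat_lit 11) (C.cons (nat_lit 2628) (C.miq (nat_lit 1265269024) (nat_lit 3800884378766824063432458885)) (C.cons (nat_lit 2624) (C.node (nat_lit 2) (nat_lit 6) (nat_lit 11) (C.cons (nat_lit 2372) (C.node (nat_lit 7) (nat_lit 8) (nat_lit 11) (C.cons (nat_lit 2434) (C.miq (nat_lit 2709653430) (nat_lit 317967653179537689321670881)) (C.cons (nat_lit 2432) (C.node (nat_lit 1) (nat_lit 7) (nat_lit 11) (C.cons (nat_lit 2182) (C.miq (nat_lit 1093142454) (nat_lit 317953707441016882568890593)) (C.cons (nat_lit 2178) (C.node (nat_lit 2) (nat_lit 7) (nat_lit 11) (C.cons (nat_lit 3204) (C.miq (nat_lit 2072289888) (nat_lit 2804729503545106012268725317)) (C.cons (nat_lit 2180) (C.node (nat_lit 7) (nat_lit 10) (nat_lit 11) (C.cons (nat_lit 3200) (C.node (nat_lit 6) (nat_lit 7) (nat_lit 10) (C.cons (nat_lit 1728) (C.miq (nat_lit 647694964) (nat_lit 3172259664863887620593157267)) (C.cons (nat_lit 1472) (C.miq (nat_lit 2025104928)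 (nat_lit 2804729503057591352719901765)) (C.cons (nat_lit 1216) (C.node (nat_lit 3) (nat_lit 8) (nat_lit 11) (C.cons (nat_lit 2344) (C.miq (nat_lit 2181412515) (nat_lit 44773495161513393879845960)) (C.cons (nat_lit 2314) (C.miq (nat_lit 329288546) (nat_lit 1287510850034618056231422276)) (C.cons (nat_lit 2312) (C.node (nat_lit 1) (nat_lit 3) (nat_lit 11) (C.cons (nat_lit 2090) (C.node (nat_lit 1) (nat_lit 8) (nat_lit 11) C.nil) C.nil)) C.nil)))) C.nil)))) C.nil)) C.nil))) C.nil))) C.nil))) (C.cons (nat_lit 2116) (C.node (nat_lit 6) (nat_lit 8) (nat_lit 11) (C.cons (nat_lit 2368) (C.node (nat_lit 7) (nat_lit 10) (nat_lit 11) (C.cons (nat_lit 3204) (C.node (nat_lit 6) (nat_lit 7) (nat_lit 10) (C.cons (nat_lit 1728) (C.miq (nat_lit 647694964) (nat_lit 3172259664863887620593157267)) (C.cons (nat_lit 1472) (C.miq (nat_lit 2276747808) (nat_lit 3268941633205055055453815877)) (C.cons (nat_lit 1216) (C.node (nat_lit 1) (nat_lit 7) (nat_lit 11) (C.cons (nat_lit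 2434) (C.node (nat_lit 1) (nat_lit 4) (nat_lit 9) (C.cons (nat_lit 786) (C.miq (nat_lit 1460931465) (nat_lit 1415662484031959190704623361)) (C.cons (nat_lit 534) (C.miq (nat_lit 1612822420) (nat_lit 317986782763319866644892304)) (C.cons (nat_lit 530) (C.node (nat_lit 1) (nat_lit 2) (nat_lit 4) (C.cons (nat_lit 54) (C.node (nat_lit 1) (nat_lit 3) (nat_lit 4) (C.cons (nat_lit 282) (C.miq (nat_lit 1636283440) (nat_lit 2942567374990829864645888029)) (C.cons (nat_lit 26) (C.node (nat_lit 1) (nat_lit 4) (nat_lit 8) (C.cons (nat_lit 274) (C.node (nat_lit 2) (nat_lit 8) (nat_lit 11) (C.cons (nat_lit 2340) (C.miq (nat_lit 2874411041) (nat_lit 2533930120130728499841728775)) (C.cons (nat_lit 2308) (C.node (nat_lit 2) (nat_lit 5) (nat_lit 11) (C.cons (nat_lit 2596) (C.miq (nat_lit 1918151568) (nat_lit 65303596298357264471887617)) (C.cons (nat_lit 2084) (C.node (nat_lit 1) (nat_lit 2) (nat_lit 11) (C.cons (nat_lit 2054) (C.node (nat_lit 2) (nat_lit 9) (nat_lit 11)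 C.nil) C.nil)) C.nil))) C.nil))) C.nil)) C.nil))) (C.cons (nat_lit 22) (C.node (nat_lit 1) (nat_lit 3) (nat_lit 11) (C.cons (nat_lit 2090) (C.node (nat_lit 1) (nat_lit 10) (nat_lit 11) (C.cons (nat_lit 3074) (C.node (nat_lit 3) (nat_lit 8) (nat_lit 11) C.nil) C.nil)) (C.cons (nat_lit 2058) (C.node (nat_lit 1) (nat_lit 10) (nat_lit 11) (C.cons (nat_lit 3106) (C.node (nat_lit 2) (nat_lit 8) (nat_lit 11) (C.cons (nat_lit 2340)
  (C.miq (nat_lit 901253655) (nat_lit 2828893667768437427191022739)) C.nil)) (C.cons (nat_lit 3074) (C.node (nat_lit 5) (nat_lit 10) (nat_lit 11) (C.cons (nat_lit 3104) (C.node (nat_lit 2) (nat_lit 8) (nat_lit 11) C.nil) C.nil)) C.nil))) C.nil))) C.nil))) C.nil)))) (C.cons (nat_lit 2178) (C.node (nat_lit 7) (nat_lit 8) (nat_lit 11) (C.cons (nat_lit 2432) (C.node (nat_lit 1) (nat_lit 10) (nat_lit 11) (C.cons (nat_lit 3106) (C.node (nat_lit 1) (nat_lit 2) (nat_lit 11) (C.cons (nat_lit 2054) (C.node (nat_lit 1) (nat_lit 9) (nat_lit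 11) C.nil) C.nil)) (C.cons (nat_lit 3074) (C.node (nat_lit 5) (nat_lit 10) (nat_lit 11) C.nil) C.nil))) C.nil)) C.nil))) C.nil)))) (C.cons (nat_lit 3200) (C.ref (nat_lit 241) (nat_lit 205163983024656)) C.nil))) C.nil)) C.nil))) C.nil))) C.nil))) C.nil))) (C.cons (nat_lit 3136) (C.node (nat_lit 1) (nat_lit 2) (nat_lit 4) (C.cons (nat_lit 534) (C.miq (nat_lit 1612822420) (nat_lit 317986782763319866644892304)) (C.cons (nat_lit 54) (C.node (nat_lit 1) (nat_lit 3) (nat_lit 4) (C.cons (nat_lit 282) (C.node (nat_lit 1) (nat_lit 4) (nat_lit 9) (C.cons (nat_lit 530) (C.node (nat_lit 3) (nat_lit 7) (nat_lit 11) (C.cons (nat_lit 3208) (C.miq (nat_lit 460539400) (nat_lit 3878239231905110641431085393)) (C.cons (nat_lit 2186) (C.node (nat_lit 3) (nat_lit 10) (nat_lit 11) (C.cons (nat_lit 3080) (C.node (nat_lit 1) (nat_lit 2) (nat_lit 7) (C.cons (nat_lit 198) (C.miq (nat_lit 2271293620) (nat_lit 239372514376154791132923933)) (C.cons (nat_lit 134) (C.node (nat_lit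 3) (nat_lit 6) (nat_lit 11) (C.cons (nat_lit 2632) (C.miq (nat_lit 2259894385) (nat_lit 3181897959302399603675628691)) (C.cons (nat_lit 2376) (C.node (nat_lit 2) (nat_lit 6) (nat_lit 11) (C.cons (nat_lit 2628) (C.miq (nat_lit 1265269024) (nat_lit 3791212972209907030034809477)) (C.cons (nat_lit 2116) (C.node (nat_lit 6) (nat_lit 9) (nat_lit 11) (C.cons (nat_lit 2624) (C.node (nat_lit 3) (nat_lit 5) (nat_lit 11) (C.cons (nat_lit 2600) (C.miq (nat_lit 2491633771) (nat_lit 340965042823825981595715809)) (C.cons (nat_lit 2088) (C.node (nat_lit 3) (nat_lit 9) (nat_lit 11) (C.cons (nat_lit 2568) (C.node (nat_lit 2) (nat_lit 4) (nat_lit 7) (C.cons (nat_lit 404) (C.miq (nat_lit 605648944) (nat_lit 640742582659398107061223817)) (C.cons (nat_lit 212) (C.miq (nat_lit 2873493874) (nat_lit 2575032159151589705815163525)) (C.cons (nat_lit 148) (C.node (nat_lit 4) (nat_lit 6) (nat_lit 7) (C.cons (nat_lit 216) (C.miq (nat_lit 2821983079) (nat_lit 340938683349791331554167009))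 (C.cons (nat_lit 208) (C.node (nat_lit 3) (nat_lit 4) (nat_lit 7) (C.cons (nat_lit 184) (C.miq (nat_lit 2876442949) (nat_lit 2642731488541174875729429041)) (C.cons (nat_lit 152) (C.node (nat_lit 3) (nat_lit 4) (nat_lit 5) (C.cons (nat_lit 120) (C.miq (nat_lit 2553547621) (nat_lit 340927430835906368721389793)) (C.cons (nat_lit 56) (C.node (nat_lit 2) (nat_lit 6) (nat_lit 7) (C.cons (nat_lit 452) (C.miq (nat_lit 410403595) (nat_lit 546473762110067019815651357)) (C.cons (nat_lit 204) (C.miq (nat_lit 2606893111) (nat_lit 2558098933535638466740355465)) (C.cons (nat_lit 196) (C.node (nat_lit 1) (nat_lit 5) (nat_lit 7) (C.cons (nat_lit 930) (C.miq (nat_lit 1192409472) (nat_lit 162034374476913735511772929)) (C.cons (nat_lit 674) (C.miq (nat_lit 831829840) (nat_lit 640768998898501751267199201)) (C.cons (nat_lit 418) (C.miq (nat_lit 1636283440) (nat_lit 505372922647737448438237213)) (C.cons (nat_lit 162) (C.node (nat_lit 1) (nat_lit 6) (nat_lit 7) (C.cons (nat_lit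 962) (C.miq (nat_lit 1192409472) (nat_lit 162034374476913872950726401)) (C.cons (nat_lit 706) (C.miq (nat_lit 605621095) (nat_lit 640742583130313680209709281)) (C.cons (nat_lit 450) (C.node (nat_lit 1) (nat_lit 7) (nat_lit 9) (C.cons (nat_lit 642) (C.node (nat_lit 1) (nat_lit 8) (nat_lit 9) (C.cons (nat_lit 802) (C.miq (nat_lit 2504753440) (nat_lit 2533979372081993031958200583)) (C.cons (nat_lit 770) (C.node (nat_lit 1) (nat_lit 8) (nat_lit 10) (C.cons (nat_lit 1314) (C.miq (nat_lit 2773188896) (nat_lit 2533979372226108220034056455))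
  (C.cons (nat_lit 1282) (C.node (nat_lit 1) (nat_lit 3) (nat_lit 5) (C.cons (nat_lit 106) (C.node (nat_lit 1) (nat_lit 2) (nat_lit 3) C.nil) C.nil)) C.nil))) C.nil))) C.nil)) (C.cons (nat_lit 194) (C.miq (nat_lit 2271293620) (nat_lit 234536811097696274434099229)) C.nil))))) C.nil))))) C.nil)))) C.nil))) C.nil))) C.nil))) C.nil)))) C.nil)) C.nil))) C.nil)) C.nil))) (C.cons (nat_lit 2120) (C.miq (nat_lit 2259894385) (nat_lit 2562927939659709466226066579)) C.nil)))) C.nil))) C.nil)) (C.cons (nat_lit 2184) (C.miq (nat_lit 460539400) (nat_lit 2640299192619730366531961169)) C.nil)))) C.nil)) (C.cons (nat_lit 26) (C.ref (nat_lit 242) (nat_lit 205163983024656)) C.nil))) (C.cons (nat_lit 22) (C.ref (nat_lit 244) (nat_lit 205163983024656)) C.nil)))) C.nil))) C.nil)) C.nil))) List.nil)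

theorem ok12_245 : okL par12 (nat_lit 246) c12_245 (nat_lit 245) = true := by decide +kernel

noncomputable def c12_246 : List C :=
  (List.cons (C.node (nat_lit 2) (nat_lit 5) (nat_lit 11) (C.cons (nat_lit 2596) (C.miq (nat_lit 1375844724) (nat_lit 317986192558425925458528912)) (C.cons (nat_lit 2340) (C.node (nat_lit 3) (nat_lit 5) (nat_lit 11) (C.cons (nat_lit 2600) (C.node (nat_lit 3) (nat_lit 7) (nat_lit 11) (C.cons (nat_lit 3208) (C.node (nat_lit 2) (nat_lit 7) (nat_lit 11) (C.cons (nat_lit 2182) (C.miq (nat_lit 727281984) (nat_lit 3143219029762150806957655187)) (C.cons (nat_lit 2180) (C.node (nat_lit 2) (nat_lit 10) (nat_lit 11) (C.cons (nat_lit 3078) (C.miq (nat_lit 2275476402) (nat_lit 1415656986373055593497102365)) (C.cons (nat_lit 3076) (C.node (nat_lit 3) (nat_lit 4) (nat_lit 7) (C.cons (nat_lit 216) (C.miq (nat_lit 1416859819) (nat_lit 261175938729264038122360577)) (C.cons (nat_lit 184) (C.node (nat_lit 4) (nat_lit 6) (nat_lit 7) (C.cons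 (nat_lit 212) (C.miq (nat_lit 2722301557) (nat_lit 2510958573429676356627073249)) (C.cons (nat_lit 208) (C.node (nat_lit 7) (nat_lit 9) (nat_lit 10) (C.cons (nat_lit 1728) (C.miq (nat_lit 611715994) (nat_lit 251476733355750573211651841)) (C.cons (nat_lit 1696) (C.node (nat_lit 2) (nat_lit 5) (nat_lit 7) (C.cons (nat_lit 166) (C.miq (nat_lit 891394944) (nat_lit 200691334435023982785138433)) (C.cons (nat_lit 164) (C.node (nat_lit 1) (nat_lit 5) (nat_lit 7) (C.cons (nat_lit 418) (C.miq (nat_lit 1115753303) (nat_lit 317969092280591363711568097)) (C.cons (nat_lit 162) (C.node (nat_lit 5) (nat_lit 7) (nat_lit 8) (C.cons (nat_lit 416) (C.node (nat_lit 6) (nat_lit 7) (nat_lit 10) (C.cons (nat_lit 1472) (C.miq (nat_lit 1466210944) (nat_lit 251466919580656102112562945)) (C.cons (nat_lit 1216) (C.node (nat_lit 1) (nat_lit 4) (nat_lit 8) (C.cons (nat_lit 786) (C.miq (nat_lit 1478078979) (nat_lit 950263656410342751266867229)) (C.cons (nat_lit 282) (C.miq (nat_lit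 2270245044) (nat_lit 195851184870028140841404445)) (C.cons (nat_lit 274) (C.node (nat_lit 3) (nat_lit 4) (nat_lit 8) (C.cons (nat_lit 1304) (C.miq (nat_lit 1731464104) (nat_lit 222448568001651008668700417)) (C.cons (nat_lit 792) (C.miq (nat_lit 1697909656) (nat_lit 222448568001648397295030017)) (C.cons (nat_lit 280) (C.node (nat_lit 2) (nat_lit 3) (nat_lit 5) (C.cons (nat_lit 110) (C.miq (nat_lit 2754742102) (nat_lit 2510959089960465348414015713)) (C.cons (nat_lit 108) (C.miq (nat_lit 324143544) (nat_lit 130568840159293916368342785)) (C.cons (nat_lit 46) (C.node (nat_lit 1) (nat_lit 5) (nat_lit 9) (C.cons (nat_lit 866) (C.miq (nat_lit 1196821144) (nat_lit 2747894604866419436275502849)) (C.cons (nat_lit 802) (C.node (nat_lit 1) (nat_lit 5) (nat_lit 6) (C.cons (nat_lit 1122) (C.miq (nat_lit 605686614) (nat_lit 1415672297644635865663801569)) (C.cons (nat_lit 98) (C.node (nat_lit 1) (nat_lit 5) (nat_lit 10) (C.cons (nat_lit 1058) (C.node (nat_lit 2) (nat_lit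 9) (nat_lit 11) (C.cons (nat_lit 2630) (C.miq (nat_lit 1784225851) (nat_lit 2050386705310981660277737501)) (C.cons (nat_lit 2628) (C.miq (nat_lit 1784225851) (nat_lit 2050386668417493512858634269)) (C.cons (nat_lit 2566) (C.miq (nat_lit 2438640176) (nat_lit 1279114371818529773104728093)) (C.cons (nat_lit 2564) (C.node (nat_lit 3) (nat_lit 8) (nat_lit 11) (C.cons (nat_lit 2376) (C.miq (nat_lit 1683194011) (nat_lit 222486180367870378839117569)) (C.cons (nat_lit 2314) (C.miq (nat_lit 827635856) (nat_lit 2536364684090269643981262593)) (C.cons (nat_lit 2312) (C.node (nat_lit 1) (nat_lit 2) (nat_lit 11) (C.cons (nat_lit 2118) (C.node (nat_lit 1) (nat_lit 3) (nat_lit 11) C.nil) C.nil)) C.nil)))) C.nil))))) C.nil)) C.nil))) (C.cons (nat_lit 610) (C.miq (nat_lit 2303789874) (nat_lit 737449602539771734646458397)) (C.cons (nat_lit 546) (C.miq (nat_lit 2303789874) (nat_lit 660078350084435467465263133)) C.nil))))) (C.cons (nat_lit 44) (C.miq (nat_lit 324143544)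 (nat_lit 53197587703957649187147521)) C.nil))))) C.nil)))) C.nil)))) C.nil))) C.nil)) C.nil))) C.nil))) (C.cons (nat_lit 1664) (C.miq (nat_lit 1519857844) (nat_lit 2011655958339439856612018205)) C.nil)))) C.nil))) (C.cons (nat_lit 152)
  (C.miq (nat_lit 1416859819) (nat_lit 183804686273927770941165313)) C.nil)))) C.nil))) C.nil))) (C.cons (nat_lit 2186) (C.miq (nat_lit 1094256565) (nat_lit 632278552611492996126869729)) (C.cons (nat_lit 2184) (C.miq (nat_lit 2746680724) (nat_lit 2640315591475442448732258865)) C.nil)))) (C.cons (nat_lit 2088) (C.node (nat_lit 5) (nat_lit 9) (nat_lit 11) (C.cons (nat_lit 2592) (C.node (nat_lit 3) (nat_lit 9) (nat_lit 11) (C.cons (nat_lit 2632) (C.node (nat_lit 1) (nat_lit 7) (nat_lit 9) (C.cons (nat_lit 962) (C.miq (nat_lit 611388312) (nat_lit 1415656986847057289475657473)) (C.cons (nat_lit 930) (C.miq (nat_lit 611388312) (nat_lit 1415656986847057289473560321)) (C.cons (nat_lit 898) (C.miq (nat_lit 611388312) (nat_lit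 1415656986847057289471463169)) (C.cons (nat_lit 706) (C.miq (nat_lit 1133579111) (nat_lit 632289805380396203284498657)) (C.cons (nat_lit 674) (C.miq (nat_lit 2511499584) (nat_lit 2828898316237882956753732755)) (C.cons (nat_lit 642) (C.node (nat_lit 1) (nat_lit 9) (nat_lit 11) (C.cons (nat_lit 2566) (C.node (nat_lit 2) (nat_lit 6) (nat_lit 11) (C.cons (nat_lit 2116) (C.node (nat_lit 3) (nat_lit 8) (nat_lit 11) (C.cons (nat_lit 2314) (C.miq (nat_lit 2174171936) (nat_lit 776137626414357015051962397)) (C.cons (nat_lit 2312) (C.node (nat_lit 1) (nat_lit 2) (nat_lit 4) (C.cons (nat_lit 86) (C.node (nat_lit 1) (nat_lit 8) (nat_lit 9) (C.cons (nat_lit 866) (C.miq (nat_lit 907196800) (nat_lit 104005935115145061924802305)) (C.cons (nat_lit 834) (C.miq (nat_lit 907196800) (nat_lit 104005935115144924485848833)) (C.cons (nat_lit 802) (C.miq (nat_lit 1754349746) (nat_lit 969560093845796501424834589)) (C.cons (nat_lit 786) (C.miq (nat_lit 1754349746) (nat_lit 950217280731962434629535773))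 (C.cons (nat_lit 770) (C.miq (nat_lit 1754349746) (nat_lit 930874467618128367834236957)) C.nil)))))) (C.cons (nat_lit 22) (C.node (nat_lit 2) (nat_lit 7) (nat_lit 11) (C.cons (nat_lit 3204) (C.node (nat_lit 3) (nat_lit 10) (nat_lit 11) (C.cons (nat_lit 3082) (C.miq (nat_lit 2443641778) (nat_lit 1415664033065882956360583197)) (C.cons (nat_lit 3080) (C.node (nat_lit 1) (nat_lit 3) (nat_lit 11) (C.cons (nat_lit 2186) (C.node (nat_lit 7) (nat_lit 8) (nat_lit 11) C.nil) C.nil)) C.nil))) (C.cons (nat_lit 2180) (C.node (nat_lit 2) (nat_lit 10) (nat_lit 11) (C.cons (nat_lit 3076) (C.node (nat_lit 6) (nat_lit 8) (nat_lit 11) (C.cons (nat_lit 2368) (C.node (nat_lit 1) (nat_lit 6) (nat_lit 11) C.nil) C.nil)) C.nil)) C.nil))) C.nil))) C.nil))) C.nil)) (C.cons (nat_lit 2562) (C.node (nat_lit 2) (nat_lit 9) (nat_lit 11) (C.cons (nat_lit 2564) (C.node (nat_lit 2) (nat_lit 6) (nat_lit 11) (C.cons (nat_lit 2118) (C.node (nat_lit 6) (nat_lit 8) (nat_lit 11) (C.cons (nat_lit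 2368) (C.node (nat_lit 6) (nat_lit 10) (nat_lit 11) (C.cons (nat_lit 3136) (C.node (nat_lit 1) (nat_lit 10) (nat_lit 11) (C.cons (nat_lit 3074) (C.node (nat_lit 2) (nat_lit 7) (nat_lit 11) C.nil) C.nil)) C.nil)) C.nil)) (C.cons (nat_lit 2116) (C.node (nat_lit 3) (nat_lit 8) (nat_lit 11) (C.cons (nat_lit 2314) (C.node (nat_lit 6) (nat_lit 8) (nat_lit 11) (C.cons (nat_lit 2368) (C.node (nat_lit 7) (nat_lit 8) (nat_lit 11) (C.cons (nat_lit 2432) (C.node (nat_lit 1) (nat_lit 6) (nat_lit 11) C.nil) C.nil)) C.nil)) (C.cons (nat_lit 2312) (C.node (nat_lit 6) (nat_lit 8) (nat_lit 11) (C.cons (nat_lit 2370) (C.node (nat_lit 6) (nat_lit 10) (nat_lit 11) (C.cons (nat_lit 3136) (C.node (nat_lit 7) (nat_lit 8) (nat_lit 11) C.nil) C.nil)) (C.cons (nat_lit 2368) (C.node (nat_lit 1) (nat_lit 6) (nat_lit 11) (C.cons (nat_lit 3138) (C.node (nat_lit 1) (nat_lit 2) (nat_lit 11) C.nil) C.nil)) C.nil))) C.nil))) C.nil))) C.nil)) C.nil))) C.nil))))))) (C.cons (nat_lit 2568)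 (C.node (nat_lit 7) (nat_lit 8) (nat_lit 11) (C.cons (nat_lit 2434) (C.node (nat_lit 3) (nat_lit 7) (nat_lit 11) (C.cons (nat_lit 3208) (C.miq (nat_lit 999663424) (nat_lit 3133555371126540660426998931)) (C.cons (nat_lit 2184) (C.node (nat_lit 1) (nat_lit 4) (nat_lit 8) (C.cons (nat_lit 786)
  (C.miq (nat_lit 1900394640) (nat_lit 2536368299685885019539181313)) (C.cons (nat_lit 282) (C.miq (nat_lit 1367847984) (nat_lit 2942567374981822665391147037)) (C.cons (nat_lit 274) (C.node (nat_lit 1) (nat_lit 5) (nat_lit 7) (C.cons (nat_lit 674) (C.miq (nat_lit 2511499584) (nat_lit 2828898316237882956753732755)) (C.cons (nat_lit 174) (C.miq (nat_lit 2820737879) (nat_lit 317969092777113222613174497)) (C.cons (nat_lit 170) (C.miq (nat_lit 2870282355) (nat_lit 2536346016415086348713197961)) (C.cons (nat_lit 166) (C.miq (nat_lit 2820737879) (nat_lit 317969092777113222612650209)) (C.cons (nat_lit 162) (C.node (nat_lit 1) (nat_lit 3) (nat_lit 4) (C.cons (nat_lit 90)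 (C.node (nat_lit 1) (nat_lit 2) (nat_lit 4) (C.cons (nat_lit 534) (C.miq (nat_lit 2538676404) (nat_lit 195855833520466409779496989)) (C.cons (nat_lit 22) (C.node (nat_lit 1) (nat_lit 4) (nat_lit 9) (C.cons (nat_lit 530) (C.node (nat_lit 3) (nat_lit 4) (nat_lit 7) (C.cons (nat_lit 184) (C.miq (nat_lit 2876442949) (nat_lit 2640313636901945617380016689)) (C.cons (nat_lit 152) (C.node (nat_lit 4) (nat_lit 6) (nat_lit 7) (C.cons (nat_lit 212) (C.miq (nat_lit 2873493874) (nat_lit 2572614307512360447465751173)) (C.cons (nat_lit 208) (C.node (nat_lit 1) (nat_lit 7) (nat_lit 9) (C.cons (nat_lit 706) (C.miq (nat_lit 660867347) (nat_lit 251494884548838355308773899)) (C.cons (nat_lit 642) (C.node (nat_lit 1) (nat_lit 6) (nat_lit 7) (C.cons (nat_lit 198) (C.miq (nat_lit 2819754870) (nat_lit 317967653931075876996647137)) (C.cons (nat_lit 194) (C.node (nat_lit 1) (nat_lit 8) (nat_lit 9) (C.cons (nat_lit 866) (C.miq (nat_lit 995689089) (nat_lit 3133545372672902947842162951))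 (C.cons (nat_lit 834) (C.miq (nat_lit 3105032292) (nat_lit 632306518627041120664289617)) (C.cons (nat_lit 802) (C.miq (nat_lit 995689089) (nat_lit 3133545372672902947837968647)) (C.cons (nat_lit 770) (C.node (nat_lit 1) (nat_lit 2) (nat_lit 7) (C.cons (nat_lit 142) (C.node (nat_lit 1) (nat_lit 3) (nat_lit 11) (C.cons (nat_lit 3082) (C.miq (nat_lit 2709107488) (nat_lit 776201231004085536698992669)) (C.cons (nat_lit 2058) (C.node (nat_lit 1) (nat_lit 3) (nat_lit 5) C.nil) C.nil))) (C.cons (nat_lit 134) (C.node (nat_lit 1) (nat_lit 3) (nat_lit 7) (C.cons (nat_lit 138) (C.node (nat_lit 1) (nat_lit 3) (nat_lit 11) C.nil) C.nil)) C.nil))) C.nil))))) C.nil))) C.nil))) C.nil))) C.nil))) C.nil)) C.nil))) (C.cons (nat_lit 26) (C.node (nat_lit 1) (nat_lit 7) (nat_lit 9) (C.cons (nat_lit 706) (C.node (nat_lit 1) (nat_lit 4) (nat_lit 9) (C.cons (nat_lit 534) (C.miq (nat_lit 1368896544) (nat_lit 853543558687744533847148573)) (C.cons (nat_lit 530) (C.node (nat_lit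 1) (nat_lit 8) (nat_lit 9) (C.cons (nat_lit 802) (C.miq (nat_lit 995689089) (nat_lit 3133545372672902947837968647)) (C.cons (nat_lit 770) (C.node (nat_lit 6) (nat_lit 9) (nat_lit 11) (C.cons (nat_lit 2628) (C.miq (nat_lit 689223280) (nat_lit 640768999022913828452239585)) (C.cons (nat_lit 2624) (C.node (nat_lit 1) (nat_lit 2) (nat_lit 4) (C.cons (nat_lit 86) (C.node (nat_lit 2) (nat_lit 6) (nat_lit 11) (C.cons (nat_lit 2116) (C.node (nat_lit 1) (nat_lit 2) (nat_lit 7) (C.cons (nat_lit 142) (C.miq (nat_lit 1635271216) (nat_lit 2942531661518967709261957149)) (C.cons (nat_lit 134) (C.node (nat_lit 1) (nat_lit 3) (nat_lit 7) C.nil) C.nil))) C.nil)) (C.cons (nat_lit 22) (C.node (nat_lit 1) (nat_lit 4) (nat_lit 6) (C.cons (nat_lit 82) (C.node (nat_lit 1) (nat_lit 9) (nat_lit 11) (C.cons (nat_lit 2566) (C.node (nat_lit 2) (nat_lit 6) (nat_lit 11) C.nil) C.nil)) C.nil)) C.nil))) C.nil))) C.nil))) C.nil))) (C.cons (nat_lit 642) (C.node (nat_lit 2) (nat_lit 7)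 (nat_lit 11) (C.cons (nat_lit 3204) (C.node (nat_lit 1) (nat_lit 2) (nat_lit 7) (C.cons (nat_lit 206) (C.miq (nat_lit 2819754870) (nat_lit 317967653931075876997171425)) (C.cons (nat_lit 198) (C.miq (nat_lit 2819754870) (nat_lit 317967653931075876996647137)) (C.cons (nat_lit 142) (C.miq (nat_lit 2803479088) (nat_lit 776201231038425483849697309)) (C.cons (nat_lit 134) (C.node (nat_lit 2) (nat_lit 4) (nat_lit 10)
  (C.cons (nat_lit 1556) (C.miq (nat_lit 2511487098) (nat_lit 2828915121189928185480086675)) (C.cons (nat_lit 1300) (C.miq (nat_lit 1797785508) (nat_lit 2828892635090791492155081875)) (C.cons (nat_lit 1076) (C.miq (nat_lit 2192028993) (nat_lit 3873443226079003351771711538)) (C.cons (nat_lit 1044) (C.node (nat_lit 5) (nat_lit 7) (nat_lit 10) (C.cons (nat_lit 1696) (C.miq (nat_lit 2485801143) (nat_lit 1262149841513538252584519905)) (C.cons (nat_lit 1440) (C.miq (nat_lit 2319603467) (nat_lit 1262161721464134334750197985)) (C.cons (nat_lit 1184) (C.node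 (nat_lit 7) (nat_lit 8) (nat_lit 10) (C.cons (nat_lit 1472) (C.miq (nat_lit 2217369783) (nat_lit 1262145709379815346861770977)) (C.cons (nat_lit 1408) (C.node (nat_lit 1) (nat_lit 3) (nat_lit 7) (C.cons (nat_lit 202) (C.node (nat_lit 1) (nat_lit 3) (nat_lit 11) (C.cons (nat_lit 3082) (C.miq (nat_lit 2443641778) (nat_lit 1415664033065882956360583197)) (C.cons (nat_lit 2058) (C.node (nat_lit 1) (nat_lit 10) (nat_lit 11) (C.cons (nat_lit 3138) (C.miq (nat_lit 2687940721) (nat_lit 88309471795918303807539586)) (C.cons (nat_lit 3074) (C.node (nat_lit 1) (nat_lit 2) (nat_lit 3) C.nil) C.nil))) C.nil))) (C.cons (nat_lit 138) (C.node (nat_lit 1) (nat_lit 6) (nat_lit 7) (C.cons (nat_lit 194) (C.node (nat_lit 2) (nat_lit 8) (nat_lit 10) (C.cons (nat_lit 1292) (C.node (nat_lit 2) (nat_lit 3) (nat_lit 7) (C.cons (nat_lit 204) (C.miq (nat_lit 3123054647) (nat_lit 1321397851369220164421419401)) (C.cons (nat_lit 172) (C.miq (nat_lit 2723906416) (nat_lit 2828957272205885795993715081))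 (C.cons (nat_lit 140) (C.node (nat_lit 2) (nat_lit 5) (nat_lit 7) (C.cons (nat_lit 180) (C.miq (nat_lit 2586053493) (nat_lit 1262128905382257356084349153)) (C.cons (nat_lit 164) (C.node (nat_lit 2) (nat_lit 6) (nat_lit 7) (C.cons (nat_lit 452) (C.miq (nat_lit 1445595011) (nat_lit 1321375567261022752099533193)) (C.cons (nat_lit 212) (C.miq (nat_lit 2317618038) (nat_lit 1262124773311584845146884321)) (C.cons (nat_lit 196) (C.node (nat_lit 2) (nat_lit 4) (nat_lit 7) (C.cons (nat_lit 148) (C.node (nat_lit 2) (nat_lit 7) (nat_lit 8) C.nil) C.nil)) C.nil)))) C.nil))) C.nil)))) (C.cons (nat_lit 1284) (C.node (nat_lit 3) (nat_lit 8) (nat_lit 11) (C.cons (nat_lit 2376) (C.node (nat_lit 1) (nat_lit 3) (nat_lit 11) (C.cons (nat_lit 2058) (C.node (nat_lit 3) (nat_lit 10) (nat_lit 11) C.nil) C.nil)) (C.cons (nat_lit 2312) (C.node (nat_lit 6) (nat_lit 8) (nat_lit 11) (C.cons (nat_lit 2368) (C.node (nat_lit 1) (nat_lit 2) (nat_lit 11) (C.cons (nat_lit 2054) (C.node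 (nat_lit 1) (nat_lit 9) (nat_lit 11) C.nil) C.nil)) C.nil)) C.nil))) C.nil))) C.nil)) C.nil))) C.nil))) C.nil)))) C.nil))))) C.nil))))) (C.cons (nat_lit 2180) (C.node (nat_lit 7) (nat_lit 10) (nat_lit 11) (C.cons (nat_lit 3200) (C.node (nat_lit 2) (nat_lit 10) (nat_lit 11) (C.cons (nat_lit 3078) (C.node (nat_lit 1) (nat_lit 3) (nat_lit 11) (C.cons (nat_lit 2058) (C.node (nat_lit 1) (nat_lit 6) (nat_lit 11) C.nil) C.nil)) (C.cons (nat_lit 3076) (C.node (nat_lit 3) (nat_lit 8) (nat_lit 11) (C.cons (nat_lit 2376) (C.node (nat_lit 1) (nat_lit 3) (nat_lit 11) C.nil) C.nil)) C.nil))) C.nil)) C.nil))) C.nil))) C.nil))) C.nil)))))) C.nil)))) C.nil))) (C.cons (nat_lit 2432) (C.node (nat_lit 1) (nat_lit 7) (nat_lit 11) (C.cons (nat_lit 2186) (C.node (nat_lit 3) (nat_lit 8) (nat_lit 11) (C.cons (nat_lit 2376) (C.miq (nat_lit 1796506480) (nat_lit 2536332586773038782192222601)) (C.cons (nat_lit 2312) (C.node (nat_lit 1) (nat_lit 5) (nat_lit 7) (C.cons (nat_lit 930)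 (C.miq (nat_lit 611388312) (nat_lit 1415656986847057289473560321)) (C.cons (nat_lit 674) (C.miq (nat_lit 1125714805) (nat_lit 632278552866509324900501729)) (C.cons (nat_lit 418) (C.miq (nat_lit 1115753303) (nat_lit 317969092280591363711568097)) (C.cons (nat_lit 166) (C.miq (nat_lit 2820737879) (nat_lit 317969092777113222612650209)) (C.cons (nat_lit 162) (C.node (nat_lit 1) (nat_lit 7) (nat_lit 8) (C.cons (nat_lit 962) (C.miq (nat_lit 611388312) (nat_lit 1415656986847057289475657473)) (C.cons (nat_lit 898)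
  (C.miq (nat_lit 611388312) (nat_lit 1415656986847057289471463169)) (C.cons (nat_lit 450) (C.miq (nat_lit 1639221040) (nat_lit 2536332586230917977106874761)) (C.cons (nat_lit 386) (C.node (nat_lit 1) (nat_lit 2) (nat_lit 7) (C.cons (nat_lit 198) (C.node (nat_lit 1) (nat_lit 7) (nat_lit 9) (C.cons (nat_lit 642) (C.node (nat_lit 1) (nat_lit 2) (nat_lit 4) (C.cons (nat_lit 534) (C.miq (nat_lit 1368896544) (nat_lit 776172306232408266665953309)) (C.cons (nat_lit 22) (C.node (nat_lit 1) (nat_lit 8) (nat_lit 11) (C.cons (nat_lit 2370) (C.miq (nat_lit 2551319399) (nat_lit 317959389789730580239616225)) (C.cons (nat_lit 2306) (C.node (nat_lit 6) (nat_lit 8) (nat_lit 11) (C.cons (nat_lit 2368) (C.node (nat_lit 2) (nat_lit 6) (nat_lit 11) (C.cons (nat_lit 2628) (C.miq (nat_lit 2763392914) (nat_lit 2572614306760822259806634629)) C.nil)) C.nil)) C.nil))) C.nil))) C.nil)) (C.cons (nat_lit 134) (C.node (nat_lit 1) (nat_lit 6) (nat_lit 7) (C.cons (nat_lit 706) (C.node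 (nat_lit 6) (nat_lit 9) (nat_lit 11) (C.cons (nat_lit 2628) (C.miq (nat_lit 2811626674) (nat_lit 853521791268819573374453789)) (C.cons (nat_lit 2624) (C.node (nat_lit 1) (nat_lit 8) (nat_lit 11) (C.cons (nat_lit 2370) (C.node (nat_lit 2) (nat_lit 6) (nat_lit 11) (C.cons (nat_lit 2116) (C.node (nat_lit 1) (nat_lit 9) (nat_lit 11) C.nil) C.nil)) (C.cons (nat_lit 2306) (C.node (nat_lit 6) (nat_lit 8) (nat_lit 11) C.nil) C.nil))) C.nil))) (C.cons (nat_lit 194) (C.node (nat_lit 1) (nat_lit 7) (nat_lit 9) (C.cons (nat_lit 642) (C.node (nat_lit 1) (nat_lit 8) (nat_lit 11) (C.cons (nat_lit 2370) (C.node (nat_lit 2) (nat_lit 6) (nat_lit 11) (C.cons (nat_lit 2628) (C.miq (nat_lit 2763392914) (nat_lit 2572614306760822259806634629)) (C.cons (nat_lit 2116) (C.node (nat_lit 6) (nat_lit 9) (nat_lit 11) (C.cons (nat_lit 2624) (C.node (nat_lit 1) (nat_lit 9) (nat_lit 11) C.nil) C.nil)) C.nil))) (C.cons (nat_lit 2306) (C.node (nat_lit 6) (nat_lit 8) (nat_lit 11) (C.cons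 (nat_lit 2368) (C.node (nat_lit 2) (nat_lit 7) (nat_lit 11) (C.cons (nat_lit 3204) (C.node (nat_lit 1) (nat_lit 10) (nat_lit 11) C.nil) C.nil)) C.nil)) C.nil))) C.nil)) C.nil))) C.nil))) C.nil))))) C.nil)))))) C.nil))) (C.cons (nat_lit 2182) (C.miq (nat_lit 727281984) (nat_lit 3133547623205233773560005779)) (C.cons (nat_lit 2178) (C.node (nat_lit 3) (nat_lit 7) (nat_lit 11) (C.cons (nat_lit 3208) (C.miq (nat_lit 999663424) (nat_lit 3133555371126540660426998931)) (C.cons (nat_lit 2184) (C.node (nat_lit 2) (nat_lit 7) (nat_lit 11) (C.cons (nat_lit 3204) (C.node (nat_lit 2) (nat_lit 8) (nat_lit 10) (C.cons (nat_lit 1300) (C.miq (nat_lit 1797785508) (nat_lit 2828892635090791492155081875)) (C.cons (nat_lit 1292) (C.node (nat_lit 5) (nat_lit 7) (nat_lit 10) (C.cons (nat_lit 1696) (C.miq (nat_lit 1504945984) (nat_lit 3104541151030199395546891411)) (C.cons (nat_lit 1440) (C.miq (nat_lit 1116343127) (nat_lit 1561953760664044784551200993)) (C.cons (nat_lit 1184)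 (C.node (nat_lit 7) (nat_lit 8) (nat_lit 10) (C.cons (nat_lit 1472) (C.miq (nat_lit 1118309238) (nat_lit 1561938376079491021638994145)) (C.cons (nat_lit 1408) (C.node (nat_lit 2) (nat_lit 5) (nat_lit 7) (C.cons (nat_lit 180) (C.miq (nat_lit 1250062517) (nat_lit 1561935479685657856290588897)) (C.cons (nat_lit 174) (C.miq (nat_lit 2820737879) (nat_lit 317969092777113222613174497)) (C.cons (nat_lit 172) (C.miq (nat_lit 2723906416) (nat_lit 2828957272205885795993715081)) (C.cons (nat_lit 166) (C.miq (nat_lit 2820737879) (nat_lit 317969092777113222612650209)) (C.cons (nat_lit 164) (C.node (nat_lit 2) (nat_lit 3) (nat_lit 7) (C.cons (nat_lit 206) (C.miq (nat_lit 2591099683) (nat_lit 1415661783497040460310775837)) (C.cons (nat_lit 204) (C.miq (nat_lit 3123054647) (nat_lit 1321397851369220164421419401)) (C.cons (nat_lit 142) (C.miq (nat_lit 2591099683) (nat_lit 1415661783497040460306581533)) (C.cons (nat_lit 140) (C.node (nat_lit 1) (nat_lit 2) (nat_lit 7)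 (C.cons (nat_lit 198) (C.node (nat_lit 1) (nat_lit 2) (nat_lit 3) (C.cons (nat_lit 46)
  (C.miq (nat_lit 2605910049) (nat_lit 2524246760083651702654107911)) (C.cons (nat_lit 14) (C.node (nat_lit 1) (nat_lit 2) (nat_lit 4) (C.cons (nat_lit 534) (C.miq (nat_lit 1698787474) (nat_lit 2536330022646613634599748229)) (C.cons (nat_lit 22) (C.node (nat_lit 1) (nat_lit 3) (nat_lit 7) (C.cons (nat_lit 170) (C.miq (nat_lit 2719155829) (nat_lit 16944607564696309077772513)) (C.cons (nat_lit 138) (C.node (nat_lit 2) (nat_lit 6) (nat_lit 11) (C.cons (nat_lit 2628) (C.miq (nat_lit 2763392914) (nat_lit 2572614306760822259806634629)) (C.cons (nat_lit 2116) (C.node (nat_lit 1) (nat_lit 10) (nat_lit 11) (C.cons (nat_lit 3138) (C.miq (nat_lit 2606893591) (nat_lit 2558098933535641739505042579)) (C.cons (nat_lit 3082) (C.miq (nat_lit 2443641778) (nat_lit 1415664033065882956360583197)) C.nil))) C.nil))) C.nil))) C.nil))) C.nil))) (C.cons (nat_lit 134) (C.node (nat_lit 2) (nat_lit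 6) (nat_lit 7) (C.cons (nat_lit 452) (C.miq (nat_lit 1445595011) (nat_lit 1321375567261022752099533193)) (C.cons (nat_lit 212) (C.miq (nat_lit 1218601143) (nat_lit 1561936069746718084476176609)) (C.cons (nat_lit 196) (C.node (nat_lit 2) (nat_lit 4) (nat_lit 7) (C.cons (nat_lit 404) (C.node (nat_lit 4) (nat_lit 5) (nat_lit 7) (C.cons (nat_lit 184) (C.miq (nat_lit 2539303984) (nat_lit 1431439025128817188609263645)) (C.cons (nat_lit 176) (C.node (nat_lit 3) (nat_lit 4) (nat_lit 7) C.nil) C.nil))) (C.cons (nat_lit 148) (C.node (nat_lit 2) (nat_lit 7) (nat_lit 8) (C.cons (nat_lit 388) (C.node (nat_lit 4) (nat_lit 6) (nat_lit 7) C.nil) C.nil)) C.nil))) C.nil)))) C.nil))) C.nil))))) C.nil)))))) C.nil))) C.nil)))) (C.cons (nat_lit 1284) (C.node (nat_lit 5) (nat_lit 7) (nat_lit 10) (C.cons (nat_lit 1696) (C.miq (nat_lit 1504945984) (nat_lit 3104541151030199395546891411)) (C.cons (nat_lit 1440) (C.miq (nat_lit 1116343127) (nat_lit 1552282354107127751153551585))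 (C.cons (nat_lit 1184) (C.node (nat_lit 7) (nat_lit 8) (nat_lit 10) (C.cons (nat_lit 1472) (C.miq (nat_lit 1118309238) (nat_lit 1552266969522573988241344737)) (C.cons (nat_lit 1408) (C.node (nat_lit 2) (nat_lit 4) (nat_lit 10) (C.cons (nat_lit 1556) (C.miq (nat_lit 2507817138) (nat_lit 1431396873715416859519748125)) (C.cons (nat_lit 1076) (C.node (nat_lit 2) (nat_lit 4) (nat_lit 7) (C.cons (nat_lit 404) (C.miq (nat_lit 891816519) (nat_lit 2828893667768428708274373779)) (C.cons (nat_lit 212) (C.miq (nat_lit 2317618038) (nat_lit 1300810399539252978737481953)) (C.cons (nat_lit 148) (C.node (nat_lit 2) (nat_lit 4) (nat_lit 8) (C.cons (nat_lit 788) (C.node (nat_lit 2) (nat_lit 7) (nat_lit 8) (C.cons (nat_lit 452) (C.miq (nat_lit 1418070311) (nat_lit 407449930817320420085334661)) (C.cons (nat_lit 388) (C.node (nat_lit 7) (nat_lit 8) (nat_lit 9) (C.cons (nat_lit 962) (C.miq (nat_lit 611388312) (nat_lit 1415656986847057289475657473)) (C.cons (nat_lit 960) (C.miq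 (nat_lit 1749776672) (nat_lit 2804749831225438589341729413)) (C.cons (nat_lit 930) (C.miq (nat_lit 611388312) (nat_lit 1415656986847057289473560321)) (C.cons (nat_lit 928) (C.miq (nat_lit 1481341216) (nat_lit 2804749831216431390086988421)) (C.cons (nat_lit 898) (C.miq (nat_lit 611388312) (nat_lit 1415656986847057289471463169)) (C.cons (nat_lit 896) (C.node (nat_lit 1) (nat_lit 2) (nat_lit 4) (C.cons (nat_lit 86) (C.node (nat_lit 1) (nat_lit 4) (nat_lit 9) (C.cons (nat_lit 530) (C.node (nat_lit 1) (nat_lit 2) (nat_lit 11) (C.cons (nat_lit 2566) (C.miq (nat_lit 2959185986) (nat_lit 81045365340620126370005780)) (C.cons (nat_lit 2054) (C.node (nat_lit 2) (nat_lit 6) (nat_lit 11) (C.cons (nat_lit 2628) (C.miq (nat_lit 2761033654) (nat_lit 952653708477219165700360417)) C.nil)) C.nil))) C.nil)) (C.cons (nat_lit 22) (C.node (nat_lit 2) (nat_lit 4) (nat_lit 6) (C.cons (nat_lit 84) (C.node (nat_lit 1) (nat_lit 4) (nat_lit 8) (C.cons (nat_lit 282) (C.node (nat_lit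 1) (nat_lit 7) (nat_lit 8) (C.cons (nat_lit 450) (C.miq (nat_lit 1367847984) (nat_lit 544058548866398382774093853)) (C.cons (nat_lit 418) (C.miq (nat_lit 672445808) (nat_lit 340955395677419762881857761))
  (C.cons (nat_lit 386) (C.miq (nat_lit 1367847984) (nat_lit 466687296411062115592898589)) C.nil)))) (C.cons (nat_lit 274) (C.node (nat_lit 1) (nat_lit 3) (nat_lit 4) (C.cons (nat_lit 90) (C.node (nat_lit 1) (nat_lit 4) (nat_lit 9) (C.cons (nat_lit 530) (C.node (nat_lit 4) (nat_lit 5) (nat_lit 6) (C.cons (nat_lit 112) (C.node (nat_lit 4) (nat_lit 6) (nat_lit 7) C.nil) C.nil)) C.nil)) (C.cons (nat_lit 26) (C.node (nat_lit 1) (nat_lit 4) (nat_lit 6) (C.cons (nat_lit 594) (C.node (nat_lit 1) (nat_lit 7) (nat_lit 9) (C.cons (nat_lit 674) (C.miq (nat_lit 605621079) (nat_lit 718113835585649809949853921)) (C.cons (nat_lit 642) (C.node (nat_lit 1) (nat_lit 8) (nat_lit 9) (C.cons (nat_lit 802) (C.miq (nat_lit 995689089) (nat_lit 3133545372672902947837968647))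 (C.cons (nat_lit 770) (C.node (nat_lit 6) (nat_lit 8) (nat_lit 9) (C.cons (nat_lit 872) (C.miq (nat_lit 1747671360) (nat_lit 2828928347592961374885315121)) (C.cons (nat_lit 864) (C.miq (nat_lit 1747671360) (nat_lit 2828928347590709575071629873)) (C.cons (nat_lit 840) (C.miq (nat_lit 957843008) (nat_lit 776137625999454429739417937)) C.nil)))) C.nil))) C.nil))) (C.cons (nat_lit 82) (C.node (nat_lit 1) (nat_lit 4) (nat_lit 9) C.nil) C.nil))) C.nil))) C.nil))) C.nil)) C.nil))) C.nil))))))) C.nil))) (C.cons (nat_lit 276) (C.node (nat_lit 2) (nat_lit 7) (nat_lit 8) (C.cons (nat_lit 452) (C.node (nat_lit 1) (nat_lit 2) (nat_lit 7) (C.cons (nat_lit 174) (C.miq (nat_lit 2820737879) (nat_lit 317969092777113222613174497)) (C.cons (nat_lit 166) (C.miq (nat_lit 2820737879) (nat_lit 317969092777113222612650209)) (C.cons (nat_lit 142) (C.miq (nat_lit 2591099683) (nat_lit 1415661783497040460306581533)) (C.cons (nat_lit 134) (C.node (nat_lit 1) (nat_lit 7) (nat_lit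 8) (C.cons (nat_lit 930) (C.miq (nat_lit 1192409472) (nat_lit 162034374476913735511772929)) (C.cons (nat_lit 898) (C.miq (nat_lit 1192409472) (nat_lit 162034374476913598072819457)) (C.cons (nat_lit 418) (C.miq (nat_lit 1115753303) (nat_lit 317969092280591363711568097)) (C.cons (nat_lit 386) (C.node (nat_lit 2) (nat_lit 3) (nat_lit 7) (C.cons (nat_lit 172) (C.node (nat_lit 1) (nat_lit 5) (nat_lit 7) (C.cons (nat_lit 674) (C.miq (nat_lit 2511499584) (nat_lit 2828898316237882956753732755)) (C.cons (nat_lit 162) (C.node (nat_lit 5) (nat_lit 7) (nat_lit 9) (C.cons (nat_lit 928) (C.miq (nat_lit 2235275040) (nat_lit 2524307965560542352432235141)) C.nil)) C.nil))) (C.cons (nat_lit 140) (C.node (nat_lit 2) (nat_lit 5) (nat_lit 7) (C.cons (nat_lit 164) (C.node (nat_lit 4) (nat_lit 6) (nat_lit 7) C.nil) C.nil)) C.nil))) C.nil))))) C.nil))))) (C.cons (nat_lit 388) (C.node (nat_lit 4) (nat_lit 5) (nat_lit 6) (C.cons (nat_lit 120) (C.node (nat_lit 3) (nat_lit 4)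 (nat_lit 7) (C.cons (nat_lit 152) (C.node (nat_lit 4) (nat_lit 6) (nat_lit 7) (C.cons (nat_lit 208) (C.node (nat_lit 4) (nat_lit 8) (nat_lit 10) (C.cons (nat_lit 1304) (C.miq (nat_lit 2221646672) (nat_lit 2572664998450961887338234921)) (C.cons (nat_lit 1296) (C.node (nat_lit 3) (nat_lit 4) (nat_lit 10) (C.cons (nat_lit 1560) (C.miq (nat_lit 1949677984) (nat_lit 145113028564150080019959553)) (C.cons (nat_lit 1048) (C.node (nat_lit 3) (nat_lit 4) (nat_lit 9) (C.cons (nat_lit 792) (C.miq (nat_lit 2472248416) (nat_lit 2524307965522261532274131281)) C.nil)) C.nil))) C.nil))) C.nil)) C.nil)) (C.cons (nat_lit 112) (C.node (nat_lit 4) (nat_lit 6) (nat_lit 7) (C.cons (nat_lit 216) (C.node (nat_lit 4) (nat_lit 8) (nat_lit 10) (C.cons (nat_lit 1304) (C.miq (nat_lit 2758509424) (nat_lit 2572664998450962299655094665)) (C.cons (nat_lit 1296) (C.node (nat_lit 3) (nat_lit 4) (nat_lit 10) (C.cons (nat_lit 1560) (C.miq (nat_lit 1464011674) (nat_lit 261147623459002638166134529))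 (C.cons (nat_lit 1048) (C.node (nat_lit 3) (nat_lit 4) (nat_lit 9) (C.cons (nat_lit 792) (C.miq (nat_lit 2490073968) (nat_lit 2572664998306847111579238793)) (C.cons (nat_lit 536) (C.node (nat_lit 1) (nat_lit 3) (nat_lit 4) (C.cons (nat_lit 282) (C.node (nat_lit 3) (nat_lit 4) (nat_lit 5) C.nil) C.nil)) C.nil))) C.nil))) C.nil)))
  (C.cons (nat_lit 208) (C.node (nat_lit 3) (nat_lit 4) (nat_lit 7) (C.cons (nat_lit 184) (C.miq (nat_lit 2539303984) (nat_lit 1431439025128817188609263645)) (C.cons (nat_lit 152) (C.node (nat_lit 3) (nat_lit 4) (nat_lit 5) (C.cons (nat_lit 312) (C.node (nat_lit 4) (nat_lit 5) (nat_lit 7) (C.cons (nat_lit 176) (C.node (nat_lit 4) (nat_lit 7) (nat_lit 8) C.nil) C.nil)) (C.cons (nat_lit 56) (C.node (nat_lit 4) (nat_lit 5) (nat_lit 7) (C.cons (nat_lit 432) (C.node (nat_lit 4) (nat_lit 8) (nat_lit 10) (C.cons (nat_lit 1304) (C.node (nat_lit 5) (nat_lit 7) (nat_lit 9) C.nil) C.nil)) C.nil)) C.nil))) C.nil))) C.nil))) C.nil))) C.nil)))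 C.nil))) C.nil)))) (C.cons (nat_lit 1044) (C.node (nat_lit 2) (nat_lit 4) (nat_lit 5) (C.cons (nat_lit 180) (C.miq (nat_lit 2586053493) (nat_lit 1262128905382257356084349153)) (C.cons (nat_lit 116) (C.node (nat_lit 1) (nat_lit 2) (nat_lit 4) (C.cons (nat_lit 534) (C.miq (nat_lit 565679184) (nat_lit 2633052333420906533724684849)) (C.cons (nat_lit 22) (C.node (nat_lit 2) (nat_lit 4) (nat_lit 9) (C.cons (nat_lit 788) (C.miq (nat_lit 1803702420) (nat_lit 2828888558360353938204787249)) (C.cons (nat_lit 532) (C.node (nat_lit 2) (nat_lit 5) (nat_lit 7) (C.cons (nat_lit 174) (C.miq (nat_lit 2200176470) (nat_lit 2510945144002958049162823905)) (C.cons (nat_lit 172) (C.miq (nat_lit 2200176470) (nat_lit 2510945144002958040572889313)) (C.cons (nat_lit 166) (C.miq (nat_lit 2820737879) (nat_lit 317969092777113222612650209)) (C.cons (nat_lit 164) (C.node (nat_lit 5) (nat_lit 6) (nat_lit 10) (C.cons (nat_lit 1634) (C.miq (nat_lit 605686614) (nat_lit 1415672297644635865697356001))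 (C.cons (nat_lit 1632) (C.miq (nat_lit 2504762912) (nat_lit 2536397223954846787265430597)) (C.cons (nat_lit 1378) (C.miq (nat_lit 622114976) (nat_lit 2536364684097590467316879105)) (C.cons (nat_lit 1376) (C.miq (nat_lit 2236327456) (nat_lit 2536397223882789193227502661)) (C.cons (nat_lit 1122) (C.miq (nat_lit 605686614) (nat_lit 1415672297644635865663801569)) (C.cons (nat_lit 1120) (C.node (nat_lit 2) (nat_lit 4) (nat_lit 7) (C.cons (nat_lit 404) (C.node (nat_lit 4) (nat_lit 5) (nat_lit 7) (C.cons (nat_lit 184) (C.miq (nat_lit 2539303984) (nat_lit 1431439025128817188609263645)) (C.cons (nat_lit 176) (C.node (nat_lit 3) (nat_lit 4) (nat_lit 5) C.nil) C.nil))) (C.cons (nat_lit 148) (C.node (nat_lit 2) (nat_lit 4) (nat_lit 8) (C.cons (nat_lit 276) (C.node (nat_lit 2) (nat_lit 7) (nat_lit 8) (C.cons (nat_lit 452) (C.node (nat_lit 1) (nat_lit 2) (nat_lit 7) (C.cons (nat_lit 142) (C.miq (nat_lit 2591099683) (nat_lit 1415661783497040460306581533)) (C.cons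 (nat_lit 134) (C.node (nat_lit 2) (nat_lit 3) (nat_lit 7) C.nil) C.nil))) (C.cons (nat_lit 388) (C.node (nat_lit 2) (nat_lit 3) (nat_lit 5) (C.cons (nat_lit 556) (C.node (nat_lit 1) (nat_lit 2) (nat_lit 5) C.nil) (C.cons (nat_lit 46) (C.miq (nat_lit 2605910049) (nat_lit 2524246760083651702654107911)) C.nil))) C.nil))) C.nil)) C.nil))) C.nil))))))) C.nil))))) C.nil))) C.nil))) (C.cons (nat_lit 52) (C.node (nat_lit 2) (nat_lit 4) (nat_lit 7) (C.cons (nat_lit 404) (C.node (nat_lit 4) (nat_lit 5) (nat_lit 7) (C.cons (nat_lit 184) (C.miq (nat_lit 2539303984) (nat_lit 1431439025128817188609263645)) (C.cons (nat_lit 176) (C.node (nat_lit 3) (nat_lit 4) (nat_lit 7) (C.cons (nat_lit 216) (C.node (nat_lit 1) (nat_lit 3) (nat_lit 4) (C.cons (nat_lit 282) (C.miq (nat_lit 2537751169) (nat_lit 261137624865463546995671303)) (C.cons (nat_lit 26) (C.node (nat_lit 6) (nat_lit 7) (nat_lit 10) (C.cons (nat_lit 1728) (C.miq (nat_lit 611715994) (nat_lit 261148139912667606609301249))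 (C.cons (nat_lit 1216) (C.node (nat_lit 3) (nat_lit 4) (nat_lit 9) (C.cons (nat_lit 1560) (C.miq (nat_lit 1464011674) (nat_lit 261147623459002638166134529)) (C.cons (nat_lit 792) (C.miq (nat_lit 2490073968) (nat_lit 2572664998306847111579238793)) (C.cons (nat_lit 536) (C.node (nat_lit 3) (nat_lit 4) (nat_lit 10) (C.cons (nat_lit 1304) (C.miq (nat_lit 2758509424) (nat_lit 2572664998450962299655094665)) (C.cons (nat_lit 1048)
  (C.node (nat_lit 1) (nat_lit 2) (nat_lit 4) (C.cons (nat_lit 598) (C.miq (nat_lit 2199154834) (nat_lit 31439523905208049355588229)) (C.cons (nat_lit 534) (C.miq (nat_lit 2199154834) (nat_lit 31439523905208049351393925)) (C.cons (nat_lit 86) (C.miq (nat_lit 271984756) (nat_lit 88253171325887875586195860)) C.nil)))) C.nil))) C.nil)))) C.nil))) C.nil))) (C.cons (nat_lit 152) (C.node (nat_lit 4) (nat_lit 6) (nat_lit 7) (C.cons (nat_lit 208) (C.node (nat_lit 1) (nat_lit 3) (nat_lit 4) (C.cons (nat_lit 282) (C.miq (nat_lit 2537751169)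 (nat_lit 183766372410127279814476039)) (C.cons (nat_lit 90) (C.node (nat_lit 1) (nat_lit 2) (nat_lit 4) (C.cons (nat_lit 534) (C.miq (nat_lit 2199154834) (nat_lit 108810776360544316532589189)) (C.cons (nat_lit 22) (C.node (nat_lit 1) (nat_lit 4) (nat_lit 8) (C.cons (nat_lit 786) (C.node (nat_lit 3) (nat_lit 4) (nat_lit 9) (C.cons (nat_lit 1560) (C.miq (nat_lit 1464011674) (nat_lit 183776371003666370984939265)) C.nil)) C.nil)) C.nil))) (C.cons (nat_lit 26) (C.node (nat_lit 1) (nat_lit 4) (nat_lit 8) (C.cons (nat_lit 786) (C.node (nat_lit 1) (nat_lit 2) (nat_lit 4) (C.cons (nat_lit 86) (C.node (nat_lit 2) (nat_lit 4) (nat_lit 9) C.nil) C.nil)) (C.cons (nat_lit 274) (C.node (nat_lit 4) (nat_lit 8) (nat_lit 9) C.nil) C.nil))) C.nil)))) C.nil)) C.nil))) C.nil))) (C.cons (nat_lit 212) (C.miq (nat_lit 2317618038) (nat_lit 1262124773311584845146884321)) (C.cons (nat_lit 148) (C.node (nat_lit 2) (nat_lit 4) (nat_lit 8) (C.cons (nat_lit 788) (C.node (nat_lit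 2) (nat_lit 7) (nat_lit 8) (C.cons (nat_lit 452) (C.miq (nat_lit 1418070311) (nat_lit 407449930817320420085334661)) (C.cons (nat_lit 388) (C.node (nat_lit 7) (nat_lit 8) (nat_lit 9) (C.cons (nat_lit 962) (C.miq (nat_lit 611388312) (nat_lit 1415656986847057289475657473)) (C.cons (nat_lit 960) (C.miq (nat_lit 1749776672) (nat_lit 2804749831225438589341729413)) (C.cons (nat_lit 930) (C.miq (nat_lit 611388312) (nat_lit 1415656986847057289473560321)) (C.cons (nat_lit 928) (C.miq (nat_lit 1481341216) (nat_lit 2804749831216431390086988421)) (C.cons (nat_lit 898) (C.miq (nat_lit 611388312) (nat_lit 1415656986847057289471463169)) (C.cons (nat_lit 896) (C.node (nat_lit 1) (nat_lit 2) (nat_lit 4) (C.cons (nat_lit 86) (C.node (nat_lit 1) (nat_lit 4) (nat_lit 9) (C.cons (nat_lit 530) (C.node (nat_lit 1) (nat_lit 2) (nat_lit 11) (C.cons (nat_lit 2566) (C.miq (nat_lit 2959185986) (nat_lit 81045365340620126370005780)) (C.cons (nat_lit 2054) (C.node (nat_lit 2) (nat_lit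 6) (nat_lit 11) (C.cons (nat_lit 2628) (C.miq (nat_lit 2761033654) (nat_lit 952653708477219165700360417)) C.nil)) C.nil))) C.nil)) (C.cons (nat_lit 22) (C.node (nat_lit 2) (nat_lit 4) (nat_lit 6) (C.cons (nat_lit 84) (C.node (nat_lit 1) (nat_lit 4) (nat_lit 8) (C.cons (nat_lit 282) (C.node (nat_lit 1) (nat_lit 7) (nat_lit 8) (C.cons (nat_lit 450) (C.miq (nat_lit 1367847984) (nat_lit 544058548866398382774093853)) (C.cons (nat_lit 418) (C.miq (nat_lit 672445808) (nat_lit 340955395677419762881857761)) (C.cons (nat_lit 386) (C.miq (nat_lit 1367847984) (nat_lit 466687296411062115592898589)) C.nil)))) (C.cons (nat_lit 274) (C.node (nat_lit 1) (nat_lit 3) (nat_lit 4) (C.cons (nat_lit 90) (C.node (nat_lit 1) (nat_lit 4) (nat_lit 9) C.nil) (C.cons (nat_lit 26) (C.node (nat_lit 1) (nat_lit 4) (nat_lit 6) C.nil) C.nil))) C.nil))) C.nil)) C.nil))) C.nil))))))) C.nil))) (C.cons (nat_lit 276) (C.node (nat_lit 2) (nat_lit 7) (nat_lit 8) (C.cons (nat_lit 452) (C.node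 (nat_lit 1) (nat_lit 2) (nat_lit 7) (C.cons (nat_lit 174) (C.miq (nat_lit 2820737879) (nat_lit 317969092777113222613174497)) (C.cons (nat_lit 166) (C.miq (nat_lit 2820737879) (nat_lit 317969092777113222612650209)) (C.cons (nat_lit 142) (C.miq (nat_lit 2591099683) (nat_lit 1415661783497040460306581533)) (C.cons (nat_lit 134) (C.node (nat_lit 1) (nat_lit 7) (nat_lit 8) (C.cons (nat_lit 930) (C.miq (nat_lit 1192409472) (nat_lit 162034374476913735511772929)) (C.cons (nat_lit 898) (C.miq (nat_lit 1192409472) (nat_lit 162034374476913598072819457))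
  (C.cons (nat_lit 418) (C.miq (nat_lit 1115753303) (nat_lit 317969092280591363711568097)) (C.cons (nat_lit 386) (C.node (nat_lit 2) (nat_lit 3) (nat_lit 7) (C.cons (nat_lit 172) (C.node (nat_lit 1) (nat_lit 5) (nat_lit 7) (C.cons (nat_lit 674) (C.miq (nat_lit 2511499584) (nat_lit 2828898316237882956753732755)) (C.cons (nat_lit 162) (C.node (nat_lit 5) (nat_lit 7) (nat_lit 9) (C.cons (nat_lit 928) (C.miq (nat_lit 2235275040) (nat_lit 2524307965560542352432235141)) C.nil)) C.nil))) (C.cons (nat_lit 140) (C.node (nat_lit 2) (nat_lit 5) (nat_lit 7) (C.cons (nat_lit 164) (C.node (nat_lit 2) (nat_lit 3) (nat_lit 8) C.nil) C.nil)) C.nil))) C.nil))))) C.nil))))) (C.cons (nat_lit 388) (C.node (nat_lit 4) (nat_lit 6) (nat_lit 7) (C.cons (nat_lit 216) (C.node (nat_lit 6) (nat_lit 7) (nat_lit 10) (C.cons (nat_lit 1728) (C.miq (nat_lit 611715994) (nat_lit 261148139912667606609301249)) (C.cons (nat_lit 1216) (C.node (nat_lit 3) (nat_lit 4) (nat_lit 9) (C.cons (nat_lit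 1560) (C.miq (nat_lit 1464011674) (nat_lit 261147623459002638166134529)) (C.cons (nat_lit 792) (C.miq (nat_lit 2490073968) (nat_lit 2572664998306847111579238793)) (C.cons (nat_lit 536) (C.node (nat_lit 3) (nat_lit 4) (nat_lit 10) (C.cons (nat_lit 1304) (C.miq (nat_lit 2758509424) (nat_lit 2572664998450962299655094665)) (C.cons (nat_lit 1048) (C.node (nat_lit 1) (nat_lit 3) (nat_lit 4) (C.cons (nat_lit 282) (C.node (nat_lit 3) (nat_lit 4) (nat_lit 5) C.nil) (C.cons (nat_lit 26) (C.node (nat_lit 1) (nat_lit 4) (nat_lit 8) C.nil) C.nil))) C.nil))) C.nil)))) C.nil))) (C.cons (nat_lit 208) (C.node (nat_lit 3) (nat_lit 4) (nat_lit 7) (C.cons (nat_lit 184) (C.miq (nat_lit 2539303984) (nat_lit 1431439025128817188609263645)) (C.cons (nat_lit 152) (C.node (nat_lit 4) (nat_lit 5) (nat_lit 7) (C.cons (nat_lit 432) (C.node (nat_lit 3) (nat_lit 4) (nat_lit 5) (C.cons (nat_lit 120) (C.node (nat_lit 4) (nat_lit 5) (nat_lit 10) C.nil) (C.cons (nat_lit 56) (C.node (nat_lit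 4) (nat_lit 5) (nat_lit 6) C.nil) C.nil))) (C.cons (nat_lit 176) (C.node (nat_lit 4) (nat_lit 7) (nat_lit 8) (C.cons (nat_lit 400) (C.node (nat_lit 1) (nat_lit 3) (nat_lit 4) C.nil) C.nil)) C.nil))) C.nil))) C.nil))) C.nil))) C.nil))) C.nil)))) C.nil)))) C.nil)))) C.nil))) C.nil)))) C.nil)))) (C.cons (nat_lit 2180) (C.node (nat_lit 7) (nat_lit 10) (nat_lit 11) C.nil) C.nil))) C.nil))) C.nil)))) C.nil))) C.nil))) C.nil)) C.nil))) (C.cons (nat_lit 2084) (C.node (nat_lit 5) (nat_lit 8) (nat_lit 11) (C.cons (nat_lit 2344) (C.node (nat_lit 5) (nat_lit 9) (nat_lit 11) (C.cons (nat_lit 2592) (C.node (nat_lit 3) (nat_lit 7) (nat_lit 11) (C.cons (nat_lit 3208) (C.miq (nat_lit 999663424) (nat_lit 3133555371126540660426998931)) (C.cons (nat_lit 2186) (C.miq (nat_lit 1476703089) (nat_lit 407446703138975707923941514)) (C.cons (nat_lit 2184) (C.node (nat_lit 1) (nat_lit 7) (nat_lit 11) (C.cons (nat_lit 2434) (C.miq (nat_lit 1483846404) (nat_lit 2942564146870853087282792477))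 (C.cons (nat_lit 2182) (C.miq (nat_lit 727281984) (nat_lit 3133547623205233773560005779)) (C.cons (nat_lit 2178) (C.node (nat_lit 1) (nat_lit 7) (nat_lit 8) (C.cons (nat_lit 962) (C.miq (nat_lit 611388312) (nat_lit 1415656986847057289475657473)) (C.cons (nat_lit 930) (C.miq (nat_lit 611388312) (nat_lit 1415656986847057289473560321)) (C.cons (nat_lit 898) (C.miq (nat_lit 611388312) (nat_lit 1415656986847057289471463169)) (C.cons (nat_lit 450) (C.miq (nat_lit 1483846404) (nat_lit 544055320755428804665739293)) (C.cons (nat_lit 418) (C.node (nat_lit 1) (nat_lit 3) (nat_lit 4) (C.cons (nat_lit 282) (C.node (nat_lit 4) (nat_lit 7) (nat_lit 8) (C.cons (nat_lit 404) (C.miq (nat_lit 2441544514) (nat_lit 505342890896055161714903069)) (C.cons (nat_lit 400) (C.node (nat_lit 1) (nat_lit 7) (nat_lit 9) (C.cons (nat_lit 706) (C.node (nat_lit 1) (nat_lit 8) (nat_lit 9) (C.cons (nat_lit 770) (C.node (nat_lit 7) (nat_lit 8) (nat_lit 9) (C.cons (nat_lit 896) (C.node (nat_lit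 1) (nat_lit 4) (nat_lit 9) (C.cons (nat_lit 534)
  (C.miq (nat_lit 2174170144) (nat_lit 853508878297727402183559197)) (C.cons (nat_lit 530) (C.node (nat_lit 3) (nat_lit 9) (nat_lit 11) (C.cons (nat_lit 2632) (C.miq (nat_lit 957658736) (nat_lit 640768999024039728359082209)) (C.cons (nat_lit 2568) (C.node (nat_lit 6) (nat_lit 9) (nat_lit 11) (C.cons (nat_lit 2628) (C.miq (nat_lit 689223280) (nat_lit 640768999022913828452239585)) (C.cons (nat_lit 2624) (C.node (nat_lit 1) (nat_lit 2) (nat_lit 4) (C.cons (nat_lit 86) (C.node (nat_lit 1) (nat_lit 2) (nat_lit 7) (C.cons (nat_lit 142) (C.miq (nat_lit 1635271216) (nat_lit 505337209175875293054306333)) (C.cons (nat_lit 134) (C.node (nat_lit 1) (nat_lit 3) (nat_lit 7) (C.cons (nat_lit 138) (C.node (nat_lit 1) (nat_lit 8) (nat_lit 10) (C.cons (nat_lit 1346) (C.miq (nat_lit 2169218592) (nat_lit 2536397223874344815077164101)) (C.cons (nat_lit 1282) (C.node (nat_lit 1) (nat_lit 9) (nat_lit 11) (C.cons (nat_lit 2566)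 (C.miq (nat_lit 2299923236) (nat_lit 853507846281837443898804253)) C.nil)) C.nil))) C.nil)) C.nil))) (C.cons (nat_lit 22) (C.node (nat_lit 1) (nat_lit 4) (nat_lit 6) (C.cons (nat_lit 82) (C.node (nat_lit 1) (nat_lit 2) (nat_lit 7) (C.cons (nat_lit 142) (C.node (nat_lit 1) (nat_lit 8) (nat_lit 10) (C.cons (nat_lit 1346) (C.miq (nat_lit 2704435264) (nat_lit 171687629055416437317632337)) (C.cons (nat_lit 1282) (C.node (nat_lit 1) (nat_lit 9) (nat_lit 11) (C.cons (nat_lit 2566) (C.miq (nat_lit 2440606256) (nat_lit 505401847265167513565595677)) C.nil)) C.nil))) (C.cons (nat_lit 134) (C.node (nat_lit 1) (nat_lit 3) (nat_lit 7) C.nil) C.nil))) C.nil)) C.nil))) C.nil))) C.nil))) C.nil))) C.nil)) C.nil)) (C.cons (nat_lit 642) (C.node (nat_lit 1) (nat_lit 8) (nat_lit 9) (C.cons (nat_lit 834) (C.node (nat_lit 1) (nat_lit 8) (nat_lit 10) (C.cons (nat_lit 1282) (C.node (nat_lit 1) (nat_lit 8) (nat_lit 11) (C.cons (nat_lit 2306) (C.node (nat_lit 7) (nat_lit 8) (nat_lit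 9) (C.cons (nat_lit 896) (C.node (nat_lit 1) (nat_lit 4) (nat_lit 6) (C.cons (nat_lit 86) (C.miq (nat_lit 2521530656) (nat_lit 2572664998318668502242492679)) (C.cons (nat_lit 82) (C.node (nat_lit 1) (nat_lit 2) (nat_lit 4) (C.cons (nat_lit 534) (C.miq (nat_lit 2174170144) (nat_lit 776137625842391135002363933)) (C.cons (nat_lit 22) (C.node (nat_lit 1) (nat_lit 9) (nat_lit 11) (C.cons (nat_lit 2566) (C.miq (nat_lit 560249216) (nat_lit 99170231818109059328970497)) C.nil)) C.nil))) C.nil))) C.nil)) C.nil)) C.nil)) (C.cons (nat_lit 770) (C.node (nat_lit 1) (nat_lit 8) (nat_lit 10) (C.cons (nat_lit 1346) (C.node (nat_lit 1) (nat_lit 8) (nat_lit 11) (C.cons (nat_lit 2306) (C.node (nat_lit 3) (nat_lit 8) (nat_lit 10) (C.cons (nat_lit 1292) (C.miq (nat_lit 1487319840) (nat_lit 1627256083310353305544493085)) (C.cons (nat_lit 1288) (C.node (nat_lit 6) (nat_lit 8) (nat_lit 11) (C.cons (nat_lit 2372) (C.miq (nat_lit 674917200) (nat_lit 1557116618622583653792286945))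 (C.cons (nat_lit 2368) (C.node (nat_lit 1) (nat_lit 3) (nat_lit 10) (C.cons (nat_lit 3082) (C.miq (nat_lit 1680965818) (nat_lit 340941910543714628324167425)) (C.cons (nat_lit 1038) (C.node (nat_lit 1) (nat_lit 10) (nat_lit 11) (C.cons (nat_lit 3074) (C.node (nat_lit 3) (nat_lit 10) (nat_lit 11) (C.cons (nat_lit 3144) (C.miq (nat_lit 1629726731) (nat_lit 1254922997702219274540355329)) C.nil)) C.nil)) (C.cons (nat_lit 1034) (C.miq (nat_lit 705889924) (nat_lit 1250067611676625591974101329)) C.nil)))) C.nil))) C.nil))) C.nil)) (C.cons (nat_lit 1282) (C.node (nat_lit 1) (nat_lit 6) (nat_lit 8) (C.cons (nat_lit 2370) (C.node (nat_lit 2) (nat_lit 6) (nat_lit 11) (C.cons (nat_lit 2628) (C.miq (nat_lit 2763392914) (nat_lit 2572614306760822259806634629)) (C.cons (nat_lit 2116) (C.node (nat_lit 2) (nat_lit 3) (nat_lit 8) (C.cons (nat_lit 1292) (C.miq (nat_lit 683058000) (nat_lit 2865174355141619446056027177)) (C.cons (nat_lit 844) (C.miq (nat_lit 1904804914) (nat_lit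 930884779582800416148817949)) (C.cons (nat_lit 780) (C.miq (nat_lit 1904804914) (nat_lit 930884779582800416144623645)) (C.cons (nat_lit 332)
  (C.miq (nat_lit 2709914674) (nat_lit 2865174355107552117524269085)) (C.cons (nat_lit 268) (C.node (nat_lit 3) (nat_lit 4) (nat_lit 10) (C.cons (nat_lit 1624) (C.miq (nat_lit 1669506064) (nat_lit 324012282405109756737291411)) (C.cons (nat_lit 1560) (C.miq (nat_lit 968205424) (nat_lit 3133555370662669898920035475)) (C.cons (nat_lit 1112) (C.miq (nat_lit 1669506064) (nat_lit 324012282260994568661435539)) (C.cons (nat_lit 1048) (C.node (nat_lit 1) (nat_lit 3) (nat_lit 11) (C.cons (nat_lit 3082) (C.node (nat_lit 6) (nat_lit 10) (nat_lit 11) (C.cons (nat_lit 3136) (C.node (nat_lit 1) (nat_lit 2) (nat_lit 11) (C.cons (nat_lit 2054) (C.node (nat_lit 1) (nat_lit 9) (nat_lit 11) C.nil) C.nil)) C.nil)) (C.cons (nat_lit 2058) (C.node (nat_lit 1) (nat_lit 9) (nat_lit 11) (C.cons (nat_lit 2566) (C.node (nat_lit 1) (nat_lit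 10) (nat_lit 11) (C.cons (nat_lit 3074) (C.node (nat_lit 2) (nat_lit 8) (nat_lit 11) C.nil) C.nil)) (C.cons (nat_lit 2562) (C.node (nat_lit 2) (nat_lit 9) (nat_lit 11) C.nil) C.nil))) C.nil))) C.nil))))) C.nil)))))) C.nil))) (C.cons (nat_lit 322) (C.node (nat_lit 1) (nat_lit 8) (nat_lit 11) (C.cons (nat_lit 2306) (C.node (nat_lit 3) (nat_lit 9) (nat_lit 11) (C.cons (nat_lit 2632) (C.node (nat_lit 3) (nat_lit 4) (nat_lit 9) (C.cons (nat_lit 1560) (C.miq (nat_lit 968205424) (nat_lit 3133555370662669898920035475)) (C.cons (nat_lit 536) (C.node (nat_lit 3) (nat_lit 8) (nat_lit 9) (C.cons (nat_lit 780) (C.miq (nat_lit 1904804914) (nat_lit 930884779582800416144623645)) (C.cons (nat_lit 776) (C.node (nat_lit 6) (nat_lit 8) (nat_lit 11) (C.cons (nat_lit 2372) (C.miq (nat_lit 2525051680) (nat_lit 389283762303913470732994589)) (C.cons (nat_lit 2368) (C.node (nat_lit 2) (nat_lit 3) (nat_lit 8) (C.cons (nat_lit 1292) (C.miq (nat_lit 683058000) (nat_lit 2862756503502390187706614825))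 (C.cons (nat_lit 332) (C.miq (nat_lit 2709914674) (nat_lit 389294276536791567726020637)) C.nil))) C.nil))) C.nil))) C.nil))) (C.cons (nat_lit 2568) (C.node (nat_lit 4) (nat_lit 8) (nat_lit 9) (C.cons (nat_lit 788) (C.node (nat_lit 5) (nat_lit 8) (nat_lit 9) (C.cons (nat_lit 864) (C.miq (nat_lit 727269480) (nat_lit 3133550261060082193110401361)) (C.cons (nat_lit 800) (C.node (nat_lit 6) (nat_lit 8) (nat_lit 11) (C.cons (nat_lit 2372) (C.miq (nat_lit 1754640960) (nat_lit 967182585808644910804437021)) (C.cons (nat_lit 2368) (C.node (nat_lit 2) (nat_lit 8) (nat_lit 11) (C.cons (nat_lit 2436) (C.miq (nat_lit 2023076416) (nat_lit 967182585826659309313919005)) C.nil)) C.nil))) C.nil))) (C.cons (nat_lit 784) (C.node (nat_lit 6) (nat_lit 8) (nat_lit 11) (C.cons (nat_lit 2372) (C.node (nat_lit 7) (nat_lit 8) (nat_lit 11) (C.cons (nat_lit 2432) (C.node (nat_lit 2) (nat_lit 7) (nat_lit 8) (C.cons (nat_lit 1412) (C.miq (nat_lit 975720555) (nat_lit 1707046496763740714625665249))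 C.nil)) C.nil)) (C.cons (nat_lit 2368) (C.node (nat_lit 2) (nat_lit 3) (nat_lit 8) (C.cons (nat_lit 1292) (C.miq (nat_lit 683058000) (nat_lit 2862756503502390187706614825)) (C.cons (nat_lit 844) (C.miq (nat_lit 1904804914) (nat_lit 930884779582800416148817949)) (C.cons (nat_lit 780) (C.miq (nat_lit 1904804914) (nat_lit 930884779582800416144623645)) (C.cons (nat_lit 332) (C.miq (nat_lit 2709914674) (nat_lit 389294276536791567726020637)) C.nil))))) C.nil))) C.nil))) C.nil))) C.nil)) C.nil))) C.nil))) C.nil))) C.nil))) C.nil))) (C.cons (nat_lit 90) (C.miq (nat_lit 2202103989) (nat_lit 108811034614968022947989729)) (C.cons (nat_lit 26) (C.miq (nat_lit 2202103989) (nat_lit 31439782159631755766794465)) C.nil)))) (C.cons (nat_lit 386) (C.miq (nat_lit 1483846404) (nat_lit 466684068300092537484544029)) C.nil))))))) C.nil)))) C.nil)))) C.nil)) (C.cons (nat_lit 2336) (C.node (nat_lit 3) (nat_lit 5) (nat_lit 11) (C.cons (nat_lit 2600) (C.node (nat_lit 3) (nat_lit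 7) (nat_lit 11) (C.cons (nat_lit 3208) (C.node (nat_lit 2) (nat_lit 10) (nat_lit 11) (C.cons (nat_lit 3078) (C.miq (nat_lit 2275476402) (nat_lit 1415656986373055593497102365)) (C.cons (nat_lit 3076) (C.node (nat_lit 3) (nat_lit 4) (nat_lit 7)
  (C.cons (nat_lit 216) (C.miq (nat_lit 1416859819) (nat_lit 261175938729264038122360577)) (C.cons (nat_lit 184) (C.node (nat_lit 4) (nat_lit 6) (nat_lit 7) (C.cons (nat_lit 212) (C.miq (nat_lit 2722301557) (nat_lit 2510958573429676356627073249)) (C.cons (nat_lit 208) (C.node (nat_lit 7) (nat_lit 9) (nat_lit 10) (C.cons (nat_lit 1728) (C.miq (nat_lit 611715994) (nat_lit 251476733355750573211651841)) (C.cons (nat_lit 1696) (C.node (nat_lit 6) (nat_lit 7) (nat_lit 10) (C.cons (nat_lit 1472) (C.miq (nat_lit 1466210944) (nat_lit 251466919580656102112562945)) (C.cons (nat_lit 1216) (C.node (nat_lit 3) (nat_lit 4) (nat_lit 8) (C.cons (nat_lit 1304) (C.miq (nat_lit 1731464104) (nat_lit 222448568001651008668700417)) (C.cons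 (nat_lit 792) (C.miq (nat_lit 1697909656) (nat_lit 222448568001648397295030017)) (C.cons (nat_lit 282) (C.miq (nat_lit 2159097684) (nat_lit 2479512058122062651861369016)) (C.cons (nat_lit 280) (C.node (nat_lit 2) (nat_lit 3) (nat_lit 5) (C.cons (nat_lit 364) (C.miq (nat_lit 2754742102) (nat_lit 2510959089960465348430661857)) (C.cons (nat_lit 300) (C.miq (nat_lit 625050480) (nat_lit 2536331221129626677509554569)) (C.cons (nat_lit 110) (C.miq (nat_lit 2754742102) (nat_lit 2510959089960465348414015713)) (C.cons (nat_lit 108) (C.miq (nat_lit 2754742102) (nat_lit 2510959089960465348413884641)) (C.cons (nat_lit 46) (C.miq (nat_lit 2337409329) (nat_lit 2519406260651735138163360267)) (C.cons (nat_lit 44) (C.node (nat_lit 1) (nat_lit 3) (nat_lit 4) (C.cons (nat_lit 90) (C.node (nat_lit 1) (nat_lit 2) (nat_lit 4) (C.cons (nat_lit 534) (C.miq (nat_lit 427115019) (nat_lit 2050376891485788130907326493)) (C.cons (nat_lit 22) (C.node (nat_lit 1) (nat_lit 3) (nat_lit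 7) (C.cons (nat_lit 142) (C.miq (nat_lit 2322664242) (nat_lit 1415656987343581313003030557)) (C.cons (nat_lit 138) (C.node (nat_lit 3) (nat_lit 4) (nat_lit 9) (C.cons (nat_lit 1560) (C.node (nat_lit 3) (nat_lit 6) (nat_lit 11) (C.cons (nat_lit 2376) (C.miq (nat_lit 1399102336) (nat_lit 108813673120587121094102785)) (C.cons (nat_lit 2120) (C.node (nat_lit 6) (nat_lit 9) (nat_lit 10) (C.cons (nat_lit 1602) (C.miq (nat_lit 2520490304) (nat_lit 2562993591977924268138497171)) (C.cons (nat_lit 1600) (C.node (nat_lit 1) (nat_lit 7) (nat_lit 9) (C.cons (nat_lit 962) (C.miq (nat_lit 611388312) (nat_lit 1415656986847057289475657473)) (C.cons (nat_lit 898) (C.miq (nat_lit 611388312) (nat_lit 1415656986847057289471463169)) (C.cons (nat_lit 706) (C.miq (nat_lit 660867347) (nat_lit 251494884548838355308773899)) (C.cons (nat_lit 642) (C.node (nat_lit 2) (nat_lit 3) (nat_lit 9) (C.cons (nat_lit 844) (C.miq (nat_lit 338823832) (nat_lit 2510943779162890079409278721))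 (C.cons (nat_lit 780) (C.miq (nat_lit 338823832) (nat_lit 2510943779162890079405084417)) (C.cons (nat_lit 588) (C.miq (nat_lit 1769026052) (nat_lit 776132036565068620657526813)) (C.cons (nat_lit 524) (C.node (nat_lit 3) (nat_lit 8) (nat_lit 9) (C.cons (nat_lit 840) (C.miq (nat_lit 2838562916) (nat_lit 632289805876910365580329297)) (C.cons (nat_lit 776) (C.node (nat_lit 1) (nat_lit 2) (nat_lit 3) (C.cons (nat_lit 1038) (C.node (nat_lit 1) (nat_lit 9) (nat_lit 10) (C.cons (nat_lit 1538) (C.node (nat_lit 2) (nat_lit 9) (nat_lit 10) (C.cons (nat_lit 1540) (C.node (nat_lit 1) (nat_lit 3) (nat_lit 11) (C.cons (nat_lit 2314) (C.node (nat_lit 1) (nat_lit 3) (nat_lit 5) (C.cons (nat_lit 42) (C.node (nat_lit 1) (nat_lit 7) (nat_lit 11) (C.cons (nat_lit 2182) (C.miq (nat_lit 2450786229) (nat_lit 26606716836507924636502241)) C.nil)) C.nil)) C.nil)) C.nil)) C.nil)) (C.cons (nat_lit 14) (C.node (nat_lit 1) (nat_lit 3) (nat_lit 5) (C.cons (nat_lit 298) (C.node (nat_lit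 1) (nat_lit 3) (nat_lit 11) C.nil) (C.cons (nat_lit 42) (C.node (nat_lit 1) (nat_lit 3) (nat_lit 11) (C.cons (nat_lit 2314) (C.node (nat_lit 1) (nat_lit 7) (nat_lit 11) (C.cons (nat_lit 2182) (C.miq (nat_lit 2450786229) (nat_lit 26606716836507924636502241)) C.nil)) C.nil)) C.nil))) C.nil))) C.nil))) C.nil))))) C.nil))))) C.nil))) C.nil))) (C.cons (nat_lit 536)
  (C.miq (nat_lit 2739490999) (nat_lit 648015525291170020063185121)) C.nil))) C.nil))) C.nil))) (C.cons (nat_lit 26) (C.node (nat_lit 1) (nat_lit 4) (nat_lit 8) (C.cons (nat_lit 786) (C.node (nat_lit 1) (nat_lit 7) (nat_lit 11) (C.cons (nat_lit 2434) (C.miq (nat_lit 1900394640) (nat_lit 2536368299685885019539181313)) (C.cons (nat_lit 2182) (C.miq (nat_lit 558463824) (nat_lit 950227592981213484040653025)) (C.cons (nat_lit 2178) (C.node (nat_lit 1) (nat_lit 7) (nat_lit 8) (C.cons (nat_lit 450) (C.miq (nat_lit 425165830) (nat_lit 2050346491322485990920094033)) (C.cons (nat_lit 418) (C.miq (nat_lit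 873990999) (nat_lit 950222944372152036669655265)) (C.cons (nat_lit 386) (C.node (nat_lit 1) (nat_lit 2) (nat_lit 4) (C.cons (nat_lit 86) (C.node (nat_lit 1) (nat_lit 2) (nat_lit 11) (C.cons (nat_lit 2566) (C.miq (nat_lit 1754349746) (nat_lit 950217280731962434629535773)) (C.cons (nat_lit 2054) (C.node (nat_lit 2) (nat_lit 4) (nat_lit 9) (C.cons (nat_lit 1556) (C.miq (nat_lit 1948694944) (nat_lit 104009550697252670901915393)) (C.cons (nat_lit 532) (C.node (nat_lit 2) (nat_lit 9) (nat_lit 11) (C.cons (nat_lit 2628) (C.miq (nat_lit 2761033654) (nat_lit 643168698655874096975579361)) (C.cons (nat_lit 2564) (C.node (nat_lit 2) (nat_lit 6) (nat_lit 11) (C.cons (nat_lit 2372) (C.miq (nat_lit 2875459617) (nat_lit 2572615746358396770873377031)) (C.cons (nat_lit 2116) (C.node (nat_lit 6) (nat_lit 8) (nat_lit 11) (C.cons (nat_lit 2376) (C.miq (nat_lit 1683194011) (nat_lit 222486180367870378839117569)) (C.cons (nat_lit 2370) (C.miq (nat_lit 1631959184) (nat_lit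 2536368299667870621029699329)) C.nil))) C.nil))) C.nil))) C.nil))) C.nil))) (C.cons (nat_lit 22) (C.node (nat_lit 1) (nat_lit 4) (nat_lit 6) (C.cons (nat_lit 82) (C.node (nat_lit 3) (nat_lit 4) (nat_lit 9) (C.cons (nat_lit 1624) (C.miq (nat_lit 1678944640) (nat_lit 26616530779913144423091969)) (C.cons (nat_lit 1560) (C.node (nat_lit 3) (nat_lit 4) (nat_lit 6) (C.cons (nat_lit 88) (C.node (nat_lit 2) (nat_lit 9) (nat_lit 10) (C.cons (nat_lit 1542) (C.miq (nat_lit 558279040) (nat_lit 99152079933709946820038401)) (C.cons (nat_lit 1540) (C.node (nat_lit 4) (nat_lit 8) (nat_lit 10) (C.cons (nat_lit 1332) (C.miq (nat_lit 874617472) (nat_lit 26606016117779076521332481)) (C.cons (nat_lit 1328) (C.miq (nat_lit 1410574480) (nat_lit 31451717466221004165156609)) (C.cons (nat_lit 1300) (C.miq (nat_lit 874617472) (nat_lit 26606016117778939082379009)) (C.cons (nat_lit 1296) (C.node (nat_lit 1) (nat_lit 10) (nat_lit 11) (C.cons (nat_lit 3138) (C.node (nat_lit 3) (nat_lit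 6) (nat_lit 11) (C.cons (nat_lit 2376) (C.miq (nat_lit 1399102336) (nat_lit 106395821481357862744690433)) C.nil)) C.nil)) C.nil))))) C.nil))) C.nil)) (C.cons (nat_lit 600) (C.miq (nat_lit 2739490999) (nat_lit 725386777746506287244380385)) (C.cons (nat_lit 536) (C.miq (nat_lit 2739490999) (nat_lit 648015525291170020063185121)) C.nil))))) C.nil)) C.nil))) C.nil)))) C.nil)))) (C.cons (nat_lit 274) (C.node (nat_lit 1) (nat_lit 10) (nat_lit 11) (C.cons (nat_lit 3138) (C.node (nat_lit 1) (nat_lit 9) (nat_lit 10) (C.cons (nat_lit 1542) (C.miq (nat_lit 427532806) (nat_lit 3268993302554897773469172805)) (C.cons (nat_lit 1538) (C.node (nat_lit 3) (nat_lit 6) (nat_lit 11) (C.cons (nat_lit 2376) (C.miq (nat_lit 1683194011) (nat_lit 222486180367870378839117569)) (C.cons (nat_lit 2120) (C.node (nat_lit 6) (nat_lit 9) (nat_lit 11) (C.cons (nat_lit 2628) (C.miq (nat_lit 1784225851) (nat_lit 2050386668417493512858634269)) (C.cons (nat_lit 2624) (C.node (nat_lit 2) (nat_lit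 9) (nat_lit 10) (C.cons (nat_lit 1556) (C.miq (nat_lit 645177529) (nat_lit 251485273921283472583823105)) (C.cons (nat_lit 1548) (C.miq (nat_lit 1697778586) (nat_lit 53212898994120037306732289)) (C.cons (nat_lit 1540) (C.node (nat_lit 1) (nat_lit 3) (nat_lit 7) (C.cons (nat_lit 206) (C.miq (nat_lit 698446006) (nat_lit 1859331710778146712019142881)) (C.cons (nat_lit 202) (C.miq (nat_lit 2338523671) (nat_lit 2562929988234593681397122195)) (C.cons (nat_lit 142)
  (C.miq (nat_lit 2322664242) (nat_lit 1415656987343581313003030557)) (C.cons (nat_lit 138) (C.node (nat_lit 1) (nat_lit 3) (nat_lit 11) (C.cons (nat_lit 2314) (C.node (nat_lit 1) (nat_lit 7) (nat_lit 11) (C.cons (nat_lit 2182) (C.miq (nat_lit 395686404) (nat_lit 2050376891949658892414289949)) C.nil)) (C.cons (nat_lit 2058) (C.node (nat_lit 3) (nat_lit 8) (nat_lit 11) (C.cons (nat_lit 2312) (C.node (nat_lit 1) (nat_lit 8) (nat_lit 11) C.nil) C.nil)) C.nil))) C.nil))))) C.nil)))) C.nil))) C.nil)))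 C.nil))) (C.cons (nat_lit 3074) (C.node (nat_lit 6) (nat_lit 10) (nat_lit 11) (C.cons (nat_lit 3136) (C.node (nat_lit 2) (nat_lit 4) (nat_lit 7) (C.cons (nat_lit 404) (C.node (nat_lit 2) (nat_lit 7) (nat_lit 10) (C.cons (nat_lit 1156) (C.node (nat_lit 4) (nat_lit 8) (nat_lit 9) (C.cons (nat_lit 784) (C.node (nat_lit 7) (nat_lit 8) (nat_lit 10) (C.cons (nat_lit 1408) (C.node (nat_lit 2) (nat_lit 7) (nat_lit 11) (C.cons (nat_lit 2182) (C.miq (nat_lit 395686404) (nat_lit 2050376891949658892414289949)) (C.cons (nat_lit 2180) (C.node (nat_lit 5) (nat_lit 7) (nat_lit 8) (C.cons (nat_lit 418) (C.miq (nat_lit 873990999) (nat_lit 331252924729461899220093153)) (C.cons (nat_lit 416) (C.node (nat_lit 2) (nat_lit 4) (nat_lit 10) (C.cons (nat_lit 1556) (C.miq (nat_lit 1732381594) (nat_lit 488426194055386986878078721)) (C.cons (nat_lit 1076) (C.miq (nat_lit 2203218084) (nat_lit 53200188658273702403900563)) (C.cons (nat_lit 1044) (C.node (nat_lit 2) (nat_lit 4) (nat_lit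 5) (C.cons (nat_lit 116) (C.node (nat_lit 1) (nat_lit 5) (nat_lit 7) C.nil) C.nil)) C.nil)))) C.nil))) C.nil))) C.nil)) C.nil)) C.nil)) (C.cons (nat_lit 148) (C.node (nat_lit 4) (nat_lit 7) (nat_lit 8) (C.cons (nat_lit 400) (C.node (nat_lit 2) (nat_lit 7) (nat_lit 10) (C.cons (nat_lit 1412) (C.node (nat_lit 2) (nat_lit 5) (nat_lit 7) (C.cons (nat_lit 166) (C.miq (nat_lit 278210727) (nat_lit 678210447037367618751169924)) (C.cons (nat_lit 164) (C.node (nat_lit 1) (nat_lit 5) (nat_lit 7) (C.cons (nat_lit 418) (C.miq (nat_lit 873990999) (nat_lit 331252924729461899220093153)) (C.cons (nat_lit 162) (C.node (nat_lit 5) (nat_lit 7) (nat_lit 8) (C.cons (nat_lit 416) (C.node (nat_lit 4) (nat_lit 8) (nat_lit 10) C.nil) C.nil)) C.nil))) C.nil))) (C.cons (nat_lit 1156) (C.node (nat_lit 7) (nat_lit 8) (nat_lit 10) (C.cons (nat_lit 1408) (C.node (nat_lit 3) (nat_lit 7) (nat_lit 9) (C.cons (nat_lit 712) (C.node (nat_lit 1) (nat_lit 3) (nat_lit 7) (C.cons (nat_lit 142)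 (C.miq (nat_lit 2322664242) (nat_lit 1415656987343581313003030557)) (C.cons (nat_lit 138) (C.node (nat_lit 2) (nat_lit 3) (nat_lit 7) (C.cons (nat_lit 140) (C.node (nat_lit 1) (nat_lit 7) (nat_lit 9) (C.cons (nat_lit 898) (C.miq (nat_lit 611388312) (nat_lit 1415656986847057289471463169)) (C.cons (nat_lit 642) (C.node (nat_lit 7) (nat_lit 8) (nat_lit 9) C.nil) C.nil))) C.nil)) C.nil))) (C.cons (nat_lit 648) (C.node (nat_lit 4) (nat_lit 8) (nat_lit 9) (C.cons (nat_lit 788) (C.node (nat_lit 1) (nat_lit 2) (nat_lit 4) (C.cons (nat_lit 86) (C.node (nat_lit 1) (nat_lit 4) (nat_lit 9) C.nil) C.nil)) (C.cons (nat_lit 784) (C.node (nat_lit 4) (nat_lit 5) (nat_lit 6) (C.cons (nat_lit 112) (C.node (nat_lit 1) (nat_lit 7) (nat_lit 11) (C.cons (nat_lit 2434) (C.node (nat_lit 2) (nat_lit 7) (nat_lit 11) C.nil) (C.cons (nat_lit 2182) (C.miq (nat_lit 395686404) (nat_lit 2050376891949658892414289949)) C.nil))) C.nil)) C.nil))) C.nil))) C.nil)) C.nil))) C.nil)) C.nil)))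 C.nil)) C.nil))) C.nil))) C.nil))) C.nil))))))) C.nil))))) C.nil))) (C.cons (nat_lit 1664) (C.miq (nat_lit 1519857844) (nat_lit 2011655958339439856612018205)) C.nil)))) C.nil))) (C.cons (nat_lit 152) (C.miq (nat_lit 1416859819) (nat_lit 183804686273927770941165313)) C.nil)))) C.nil))) (C.cons (nat_lit 2186) (C.miq (nat_lit 1094256565) (nat_lit 632278552611492996126869729)) (C.cons (nat_lit 2184) (C.miq (nat_lit 2746680724) (nat_lit 2640315591475442448732258865)) C.nil)))) (C.cons (nat_lit 2088) (C.node (nat_lit 5) (nat_lit 9) (nat_lit 11) (C.cons (nat_lit 2592)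
  (C.node (nat_lit 3) (nat_lit 9) (nat_lit 11) (C.cons (nat_lit 2632) (C.node (nat_lit 1) (nat_lit 7) (nat_lit 9) (C.cons (nat_lit 962) (C.miq (nat_lit 611388312) (nat_lit 1415656986847057289475657473)) (C.cons (nat_lit 930) (C.miq (nat_lit 611388312) (nat_lit 1415656986847057289473560321)) (C.cons (nat_lit 898) (C.miq (nat_lit 611388312) (nat_lit 1415656986847057289471463169)) (C.cons (nat_lit 706) (C.miq (nat_lit 1133579111) (nat_lit 632289805380396203284498657)) (C.cons (nat_lit 674) (C.miq (nat_lit 2511499584) (nat_lit 2519413306416537888028951699)) (C.cons (nat_lit 642) (C.node (nat_lit 1) (nat_lit 9) (nat_lit 11) (C.cons (nat_lit 2566) (C.node (nat_lit 2) (nat_lit 6) (nat_lit 11) (C.cons (nat_lit 2372) (C.miq (nat_lit 914397985) (nat_lit 407417649598132908353587718)) (C.cons (nat_lit 2116) (C.node (nat_lit 2) (nat_lit 8) (nat_lit 11) (C.cons (nat_lit 2436) (C.miq (nat_lit 2073264656) (nat_lit 3181900007481809019867955463)) (C.cons (nat_lit 2308)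 (C.node (nat_lit 3) (nat_lit 8) (nat_lit 11) (C.cons (nat_lit 2314) (C.miq (nat_lit 2174171936) (nat_lit 776137626414357015051962397)) (C.cons (nat_lit 2312) (C.node (nat_lit 2) (nat_lit 7) (nat_lit 11) (C.cons (nat_lit 3204) (C.node (nat_lit 3) (nat_lit 7) (nat_lit 11) C.nil) C.nil)) C.nil))) C.nil))) C.nil))) (C.cons (nat_lit 2562) (C.node (nat_lit 2) (nat_lit 9) (nat_lit 11) (C.cons (nat_lit 2564) (C.node (nat_lit 3) (nat_lit 8) (nat_lit 11) (C.cons (nat_lit 2314) (C.node (nat_lit 1) (nat_lit 3) (nat_lit 4) (C.cons (nat_lit 90) (C.miq (nat_lit 2875459889) (nat_lit 2572615746358397887565136395)) (C.cons (nat_lit 26) (C.node (nat_lit 1) (nat_lit 7) (nat_lit 11) (C.cons (nat_lit 2182) (C.miq (nat_lit 1366903584) (nat_lit 776140725406561154019690525)) (C.cons (nat_lit 2178) (C.node (nat_lit 3) (nat_lit 7) (nat_lit 11) (C.cons (nat_lit 3208) (C.miq (nat_lit 999663424) (nat_lit 3133555371126540660426998931)) C.nil)) C.nil))) C.nil))) (C.cons (nat_lit 2312)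 (C.node (nat_lit 6) (nat_lit 10) (nat_lit 11) (C.cons (nat_lit 3138) (C.node (nat_lit 1) (nat_lit 2) (nat_lit 11) (C.cons (nat_lit 2182) (C.miq (nat_lit 1366903584) (nat_lit 776140725406561154019690525)) C.nil)) C.nil)) C.nil))) C.nil)) C.nil))) C.nil))))))) (C.cons (nat_lit 2568) (C.node (nat_lit 3) (nat_lit 7) (nat_lit 11) (C.cons (nat_lit 3208) (C.miq (nat_lit 999663424) (nat_lit 3133555371126540660426998931)) (C.cons (nat_lit 2186) (C.node (nat_lit 3) (nat_lit 8) (nat_lit 11) (C.cons (nat_lit 2376) (C.miq (nat_lit 1796506480) (nat_lit 2536332586773038782192222601)) (C.cons (nat_lit 2312) (C.node (nat_lit 1) (nat_lit 7) (nat_lit 8) (C.cons (nat_lit 962) (C.miq (nat_lit 611388312) (nat_lit 1415656986847057289475657473)) (C.cons (nat_lit 930) (C.miq (nat_lit 611388312) (nat_lit 1415656986847057289473560321)) (C.cons (nat_lit 898) (C.miq (nat_lit 611388312) (nat_lit 1415656986847057289471463169)) (C.cons (nat_lit 450) (C.miq (nat_lit 1639221040) (nat_lit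 2536332586230917977106874761)) (C.cons (nat_lit 418) (C.miq (nat_lit 2243129664) (nat_lit 2524244361043432235882841235)) (C.cons (nat_lit 386) (C.node (nat_lit 1) (nat_lit 8) (nat_lit 11) (C.cons (nat_lit 2370) (C.node (nat_lit 2) (nat_lit 6) (nat_lit 11) (C.cons (nat_lit 2628) (C.miq (nat_lit 2763392914) (nat_lit 2572614306760822259806634629)) (C.cons (nat_lit 2116) (C.node (nat_lit 6) (nat_lit 9) (nat_lit 11) C.nil) C.nil))) (C.cons (nat_lit 2306) (C.node (nat_lit 3) (nat_lit 6) (nat_lit 11) (C.cons (nat_lit 3144) (C.node (nat_lit 1) (nat_lit 10) (nat_lit 11) (C.cons (nat_lit 3078) (C.node (nat_lit 7) (nat_lit 10) (nat_lit 11) C.nil) C.nil)) C.nil)) C.nil))) C.nil))))))) C.nil))) (C.cons (nat_lit 2184) (C.node (nat_lit 7) (nat_lit 10) (nat_lit 11) (C.cons (nat_lit 3204) (C.node (nat_lit 2) (nat_lit 8) (nat_lit 11) (C.cons (nat_lit 2372) (C.miq (nat_lit 2072289888) (nat_lit 2804729503545106012268725317)) (C.cons (nat_lit 2308) (C.node (nat_lit 1) (nat_lit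 7) (nat_lit 11) (C.cons (nat_lit 2434) (C.node (nat_lit 3) (nat_lit 8) (nat_lit 11) (C.cons (nat_lit 2376)
  (C.node (nat_lit 1) (nat_lit 3) (nat_lit 11) C.nil) C.nil)) C.nil)) C.nil))) (C.cons (nat_lit 3200) (C.node (nat_lit 2) (nat_lit 10) (nat_lit 11) (C.cons (nat_lit 3078) (C.node (nat_lit 2) (nat_lit 9) (nat_lit 11) (C.cons (nat_lit 2628) (C.miq (nat_lit 2763392914) (nat_lit 2572614306760822259806634629)) C.nil)) (C.cons (nat_lit 3076) (C.node (nat_lit 1) (nat_lit 7) (nat_lit 11) C.nil) C.nil))) C.nil))) C.nil)))) C.nil))) C.nil)) C.nil))) C.nil))) C.nil)))) List.nil)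

theorem ok12_246 : okL par12 (nat_lit 247) c12_246 (nat_lit 246) = true := by decide +kernel

noncomputable def c12_247 : List C :=
  (List.cons (C.node (nat_lit 2) (nat_lit 7) (nat_lit 8) (C.cons (nat_lit 2436) (C.node (nat_lit 1) (nat_lit 7) (nat_lit 11) (C.cons (nat_lit 2178) (C.node (nat_lit 2) (nat_lit 9) (nat_lit 11) (C.cons (nat_lit 2630) (C.miq (nat_lit 2460268039) (nat_lit 1571653446235277120970623201)) (C.cons (nat_lit 2628) (C.miq (nat_lit 2460268039) (nat_lit 1571653446234714171017201889)) (C.cons (nat_lit 2598) (C.miq (nat_lit 1951533753) (nat_lit 62876041099508857941921537)) (C.cons (nat_lit 2596) (C.miq (nat_lit 1951533753) (nat_lit 62876041099508857941790465)) (C.cons (nat_lit 2566) (C.miq (nat_lit 934873121) (nat_lit 3268945063995737967056781575)) (C.cons (nat_lit 2564) (C.node (nat_lit 2) (nat_lit 5) (nat_lit 11) (C.cons (nat_lit 2086) (C.node (nat_lit 2) (nat_lit 6) (nat_lit 11) (C.cons (nat_lit 2116) (C.node (nat_lit 5) (nat_lit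 8) (nat_lit 11) (C.cons (nat_lit 2344) (C.miq (nat_lit 927301803) (nat_lit 522299193352253274120523521)) (C.cons (nat_lit 2336) (C.node (nat_lit 3) (nat_lit 5) (nat_lit 11) (C.cons (nat_lit 2600) (C.miq (nat_lit 347671123) (nat_lit 3268945064214728436697531433)) (C.cons (nat_lit 2088) (C.node (nat_lit 5) (nat_lit 9) (nat_lit 11) C.nil) C.nil))) C.nil))) C.nil)) (C.cons (nat_lit 2084) (C.node (nat_lit 1) (nat_lit 2) (nat_lit 11) (C.cons (nat_lit 2118) (C.node (nat_lit 1) (nat_lit 10) (nat_lit 11) (C.cons (nat_lit 3082) (C.miq (nat_lit 2494629283) (nat_lit 2497650391128895287473079337)) (C.cons (nat_lit 3074) (C.node (nat_lit 1) (nat_lit 4) (nat_lit 5) (C.cons (nat_lit 122) (C.miq (nat_lit 1210144694) (nat_lit 317949741183032118131165409)) (C.cons (nat_lit 114) (C.miq (nat_lit 1210144694) (nat_lit 317949593609079528454752481)) (C.cons (nat_lit 58) (C.miq (nat_lit 2604730963) (nat_lit 2497650392052133210885850153)) (C.cons (nat_lit 50) (C.node (nat_lit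 1) (nat_lit 7) (nat_lit 8) (C.cons (nat_lit 962) (C.miq (nat_lit 611388312) (nat_lit 1415656986847057289475657473)) (C.cons (nat_lit 898) (C.miq (nat_lit 611388312) (nat_lit 1415656986847057289471463169)) (C.cons (nat_lit 450) (C.miq (nat_lit 840436583) (nat_lit 317954740713701064199768289)) (C.cons (nat_lit 386) (C.node (nat_lit 1) (nat_lit 2) (nat_lit 4) (C.cons (nat_lit 534) (C.node (nat_lit 2) (nat_lit 4) (nat_lit 6) (C.cons (nat_lit 84) (C.node (nat_lit 1) (nat_lit 4) (nat_lit 8) (C.cons (nat_lit 282) (C.miq (nat_lit 2541822004) (nat_lit 466655217114135270256150557)) C.nil)) C.nil)) (C.cons (nat_lit 22) (C.node (nat_lit 2) (nat_lit 4) (nat_lit 6) (C.cons (nat_lit 596) (C.node (nat_lit 4) (nat_lit 9) (nat_lit 10) (C.cons (nat_lit 1560) (C.miq (nat_lit 874617472) (nat_lit 26606016117778939082379009)) C.nil)) C.nil)) C.nil))) C.nil))))) C.nil))))) C.nil))) (C.cons (nat_lit 2054) (C.node (nat_lit 2) (nat_lit 6) (nat_lit 11) (C.cons (nat_lit 2116) (C.node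 (nat_lit 3) (nat_lit 9) (nat_lit 11) (C.cons (nat_lit 2632) (C.node (nat_lit 3) (nat_lit 10) (nat_lit 11) (C.cons (nat_lit 3082) (C.miq (nat_lit 1530481168) (nat_lit 3181903106727344503345841299)) C.nil)) (C.cons (nat_lit 2600) (C.miq (nat_lit 347671123) (nat_lit 3268945064214728436697531433)) C.nil))) C.nil)) C.nil))) C.nil))) C.nil))))))) C.nil)) (C.cons (nat_lit 452) (C.miq (nat_lit 1445490852) (nat_lit 546442440099049546041263251)) (C.cons (nat_lit 388) (C.node (nat_lit 2) (nat_lit 8) (nat_lit 11) (C.cons (nat_lit 2372) (C.miq (nat_lit 1648867488) (nat_lit 178962951419908887959244545)) (C.cons (nat_lit 2340) (C.miq (nat_lit 340921016) (nat_lit 62868994443272700876295937)) (C.cons (nat_lit 2308) (C.node (nat_lit 2) (nat_lit 7) (nat_lit 11) (C.cons (nat_lit 2182) (C.node (nat_lit 7) (nat_lit 8) (nat_lit 11) (C.cons (nat_lit 2432) (C.node (nat_lit 2) (nat_lit 5) (nat_lit 11) (C.cons (nat_lit 2596) (C.miq (nat_lit 1951533753) (nat_lit 62876041099508857941790465))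 (C.cons (nat_lit 2084) (C.node (nat_lit 2) (nat_lit 6) (nat_lit 11) (C.cons (nat_lit 2628) (C.miq (nat_lit 2460268039) (nat_lit 1571653446234714171017201889)) (C.cons (nat_lit 2116) (C.node (nat_lit 2) (nat_lit 9) (nat_lit 11) (C.cons (nat_lit 2564)
  (C.node (nat_lit 3) (nat_lit 9) (nat_lit 11) (C.cons (nat_lit 2632) (C.node (nat_lit 3) (nat_lit 10) (nat_lit 11) (C.cons (nat_lit 3082) (C.miq (nat_lit 1530481168) (nat_lit 3181903106727344503345841299)) C.nil)) (C.cons (nat_lit 2600) (C.miq (nat_lit 347671123) (nat_lit 3268945064214728436697531433)) C.nil))) C.nil)) C.nil))) C.nil))) C.nil)) (C.cons (nat_lit 2180) (C.node (nat_lit 1) (nat_lit 7) (nat_lit 11) (C.cons (nat_lit 2434) (C.node (nat_lit 5) (nat_lit 8) (nat_lit 11) (C.cons (nat_lit 2344) (C.miq (nat_lit 927301803) (nat_lit 522299193352253274120523521)) (C.cons (nat_lit 2336) (C.node (nat_lit 3) (nat_lit 8) (nat_lit 11) (C.cons (nat_lit 2376) (C.node (nat_lit 3) (nat_lit 8) (nat_lit 10) (C.cons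 (nat_lit 1290) (C.miq (nat_lit 951427440) (nat_lit 2824070360765325426842207379)) (C.cons (nat_lit 1288) (C.node (nat_lit 3) (nat_lit 9) (nat_lit 11) (C.cons (nat_lit 2600) (C.miq (nat_lit 347671123) (nat_lit 3268945064214728436697531433)) (C.cons (nat_lit 2568) (C.node (nat_lit 3) (nat_lit 10) (nat_lit 11) (C.cons (nat_lit 3082) (C.miq (nat_lit 1530481168) (nat_lit 3104531854272008236164646035)) (C.cons (nat_lit 3080) (C.node (nat_lit 1) (nat_lit 10) (nat_lit 11) (C.cons (nat_lit 3138) (C.miq (nat_lit 1661646961) (nat_lit 1287563884441269604298459522)) C.nil)) C.nil))) C.nil))) C.nil))) (C.cons (nat_lit 2312) (C.node (nat_lit 6) (nat_lit 8) (nat_lit 11) (C.cons (nat_lit 2368) (C.node (nat_lit 6) (nat_lit 7) (nat_lit 8) (C.cons (nat_lit 960) (C.node (nat_lit 4) (nat_lit 8) (nat_lit 9) (C.cons (nat_lit 792) (C.miq (nat_lit 1766553648) (nat_lit 3268977345957456209608769929)) (C.cons (nat_lit 786) (C.miq (nat_lit 1460931465) (nat_lit 1415662484031959190704623361))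 C.nil))) C.nil)) C.nil)) C.nil))) C.nil))) (C.cons (nat_lit 2178) (C.node (nat_lit 7) (nat_lit 8) (nat_lit 11) (C.cons (nat_lit 2432) (C.node (nat_lit 3) (nat_lit 9) (nat_lit 11) (C.cons (nat_lit 2632) (C.node (nat_lit 3) (nat_lit 10) (nat_lit 11) (C.cons (nat_lit 3082) (C.miq (nat_lit 1530481168) (nat_lit 3181903106727344503345841299)) (C.cons (nat_lit 3080) (C.node (nat_lit 1) (nat_lit 10) (nat_lit 11) (C.cons (nat_lit 3138) (C.node (nat_lit 2) (nat_lit 6) (nat_lit 11) C.nil) C.nil)) C.nil))) (C.cons (nat_lit 2600) (C.miq (nat_lit 347671123) (nat_lit 3268945064214728436697531433)) (C.cons (nat_lit 2568) (C.node (nat_lit 5) (nat_lit 7) (nat_lit 10) (C.cons (nat_lit 1696) (C.miq (nat_lit 609684393) (nat_lit 522267852808084273171009281)) (C.cons (nat_lit 1188) (C.node (nat_lit 1) (nat_lit 5) (nat_lit 7) C.nil) (C.cons (nat_lit 1184) (C.node (nat_lit 2) (nat_lit 7) (nat_lit 10) C.nil) C.nil)))) C.nil)))) C.nil)) C.nil))) C.nil))) C.nil)))) C.nil)))) (List.cons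 (C.node (nat_lit 3) (nat_lit 9) (nat_lit 11) (C.cons (nat_lit 2632) (C.node (nat_lit 3) (nat_lit 10) (nat_lit 11) (C.cons (nat_lit 3082) (C.miq (nat_lit 1530481168) (nat_lit 3181903106727344503345841299)) (C.cons (nat_lit 3080) (C.node (nat_lit 1) (nat_lit 10) (nat_lit 11) (C.cons (nat_lit 3138) (C.node (nat_lit 2) (nat_lit 6) (nat_lit 11) (C.cons (nat_lit 2372) (C.miq (nat_lit 1648867488) (nat_lit 178962951419908887959244545)) (C.cons (nat_lit 2116) (C.node (nat_lit 6) (nat_lit 8) (nat_lit 11) (C.cons (nat_lit 2368) (C.node (nat_lit 1) (nat_lit 9) (nat_lit 10) (C.cons (nat_lit 1574) (C.miq (nat_lit 1497080068) (nat_lit 3181950311510257821374284947)) (C.cons (nat_lit 1570) (C.miq (nat_lit 1497080068) (nat_lit 3181950311509131921467442323)) (C.cons (nat_lit 1542) (C.miq (nat_lit 427532806) (nat_lit 3268993302554897773469172805)) (C.cons (nat_lit 1538) (C.node (nat_lit 1) (nat_lit 5) (nat_lit 10) (C.cons (nat_lit 1062) (C.node (nat_lit 5) (nat_lit 7)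 (nat_lit 10) (C.cons (nat_lit 1696) (C.miq (nat_lit 609684393) (nat_lit 212782842986739204446228225)) (C.cons (nat_lit 1184) (C.node (nat_lit 2) (nat_lit 5) (nat_lit 11) (C.cons (nat_lit 2596) (C.miq (nat_lit 1951533753) (nat_lit 62876041099508857941790465)) (C.cons (nat_lit 2340) (C.miq (nat_lit 1159834496) (nat_lit 1283900822446258475000860417))
  (C.cons (nat_lit 2084) (C.node (nat_lit 1) (nat_lit 4) (nat_lit 5) (C.cons (nat_lit 314) (C.miq (nat_lit 2589002563) (nat_lit 1283888869159045519497627677)) (C.cons (nat_lit 306) (C.miq (nat_lit 1683621906) (nat_lit 3771868719583773971104268551)) (C.cons (nat_lit 122) (C.miq (nat_lit 2585004901) (nat_lit 1415662484473314977800390881)) (C.cons (nat_lit 114) (C.miq (nat_lit 2585004901) (nat_lit 1415662484473314977799866593)) (C.cons (nat_lit 58) (C.miq (nat_lit 2589002563) (nat_lit 1283888869159045519480850461)) (C.cons (nat_lit 50) (C.node (nat_lit 4) (nat_lit 5) (nat_lit 6) C.nil) C.nil))))))) C.nil))))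 C.nil))) (C.cons (nat_lit 1058) (C.node (nat_lit 1) (nat_lit 2) (nat_lit 10) (C.cons (nat_lit 1038) (C.node (nat_lit 1) (nat_lit 8) (nat_lit 10) (C.cons (nat_lit 1282) (C.node (nat_lit 3) (nat_lit 4) (nat_lit 10) (C.cons (nat_lit 1560) (C.miq (nat_lit 323094952) (nat_lit 2510943778980494294530658049)) (C.cons (nat_lit 1112) (C.miq (nat_lit 1779974944) (nat_lit 1549849117611712074387752989)) (C.cons (nat_lit 1048) (C.node (nat_lit 4) (nat_lit 6) (nat_lit 10) C.nil) C.nil)))) C.nil)) (C.cons (nat_lit 1030) (C.node (nat_lit 1) (nat_lit 3) (nat_lit 10) (C.cons (nat_lit 1290) (C.node (nat_lit 3) (nat_lit 6) (nat_lit 7) (C.cons (nat_lit 1224) (C.miq (nat_lit 326543371) (nat_lit 1479783089454313818441191169)) (C.cons (nat_lit 206) (C.miq (nat_lit 2584873831) (nat_lit 1245205493434154455774660833)) (C.cons (nat_lit 204) (C.miq (nat_lit 326543371) (nat_lit 246678753447392060240891649)) (C.cons (nat_lit 202) (C.miq (nat_lit 2468001392) (nat_lit 1559585161987701760121309409))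 (C.cons (nat_lit 200) (C.miq (nat_lit 326543371) (nat_lit 241843050168933543542066945)) C.nil)))))) (C.cons (nat_lit 1034) (C.node (nat_lit 1) (nat_lit 8) (nat_lit 10) (C.cons (nat_lit 1282) (C.node (nat_lit 3) (nat_lit 4) (nat_lit 10) C.nil) C.nil)) C.nil))) C.nil))) C.nil))) C.nil))))) C.nil)) C.nil))) (C.cons (nat_lit 3074) (C.node (nat_lit 6) (nat_lit 10) (nat_lit 11) (C.cons (nat_lit 3136) (C.node (nat_lit 2) (nat_lit 6) (nat_lit 11) (C.cons (nat_lit 2372) (C.miq (nat_lit 1648867488) (nat_lit 178962951419908887959244545)) (C.cons (nat_lit 2118) (C.node (nat_lit 6) (nat_lit 8) (nat_lit 11) (C.cons (nat_lit 2368) (C.node (nat_lit 2) (nat_lit 9) (nat_lit 11) (C.cons (nat_lit 2596) (C.miq (nat_lit 1951533753) (nat_lit 62876041099508857941790465)) (C.cons (nat_lit 2564) (C.node (nat_lit 2) (nat_lit 5) (nat_lit 11) (C.cons (nat_lit 2340) (C.miq (nat_lit 340921016) (nat_lit 62868994443272700876295937)) C.nil)) C.nil))) C.nil)) (C.cons (nat_lit 2116) (C.node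 (nat_lit 1) (nat_lit 6) (nat_lit 11) (C.cons (nat_lit 2370) (C.node (nat_lit 3) (nat_lit 8) (nat_lit 11) (C.cons (nat_lit 2344) (C.miq (nat_lit 927301803) (nat_lit 212814183530908205395742465)) (C.cons (nat_lit 2312) (C.node (nat_lit 5) (nat_lit 8) (nat_lit 11) (C.cons (nat_lit 2340) (C.miq (nat_lit 340921016) (nat_lit 62868994443272700876295937)) C.nil)) C.nil))) (C.cons (nat_lit 2114) (C.node (nat_lit 6) (nat_lit 8) (nat_lit 11) C.nil) C.nil))) C.nil)))) C.nil)) C.nil))) C.nil))) (C.cons (nat_lit 2600) (C.miq (nat_lit 347671123) (nat_lit 3268945064214728436697531433)) (C.cons (nat_lit 2568) (C.node (nat_lit 5) (nat_lit 7) (nat_lit 10) (C.cons (nat_lit 1696) (C.miq (nat_lit 609684393) (nat_lit 212782842986739204446228225)) (C.cons (nat_lit 1188) (C.node (nat_lit 2) (nat_lit 5) (nat_lit 8) (C.cons (nat_lit 2340) (C.miq (nat_lit 340921016) (nat_lit 62868994443272700876295937)) (C.cons (nat_lit 876) (C.miq (nat_lit 337840777) (nat_lit 2510948575316348127203299073))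 (C.cons (nat_lit 868) (C.miq (nat_lit 2222284962) (nat_lit 212786956120892811275142213)) (C.cons (nat_lit 812) (C.miq (nat_lit 337840777) (nat_lit 2510948575316348127199104769)) (C.cons (nat_lit 804) (C.miq (nat_lit 1697122212) (nat_lit 971982576162712421152326803)) (C.cons (nat_lit 364) (C.miq (nat_lit 2222284962) (nat_lit 212777658961879661661127749)) (C.cons (nat_lit 356) (C.miq (nat_lit 2222284962) (nat_lit 212777511387927071984714821))
  (C.cons (nat_lit 300) (C.miq (nat_lit 1697122212) (nat_lit 362683963076939317100414099)) (C.cons (nat_lit 292) (C.miq (nat_lit 1697122212) (nat_lit 353012556520022283702764691)) C.nil)))))))))) (C.cons (nat_lit 1184) (C.node (nat_lit 2) (nat_lit 7) (nat_lit 10) (C.cons (nat_lit 1164) (C.node (nat_lit 6) (nat_lit 7) (nat_lit 10) (C.cons (nat_lit 1728) (C.miq (nat_lit 611715994) (nat_lit 251476733355750573211651841)) (C.cons (nat_lit 1216) (C.node (nat_lit 7) (nat_lit 9) (nat_lit 10) (C.cons (nat_lit 1664) (C.node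 (nat_lit 1) (nat_lit 10) (nat_lit 11) (C.cons (nat_lit 3146) (C.miq (nat_lit 1530481168) (nat_lit 3104531854272008511042552979)) (C.cons (nat_lit 3138) (C.node (nat_lit 3) (nat_lit 10) (nat_lit 11) (C.cons (nat_lit 3080) (C.node (nat_lit 6) (nat_lit 9) (nat_lit 11) (C.cons (nat_lit 2628) (C.miq (nat_lit 2460268039) (nat_lit 1571653446234714171017201889)) (C.cons (nat_lit 2624) (C.node (nat_lit 2) (nat_lit 6) (nat_lit 11) (C.cons (nat_lit 2372) (C.miq (nat_lit 1648867488) (nat_lit 178962951419908887959244545)) (C.cons (nat_lit 2116) (C.node (nat_lit 1) (nat_lit 3) (nat_lit 7) C.nil) C.nil))) C.nil))) C.nil)) (C.cons (nat_lit 3082) (C.miq (nat_lit 1530481168) (nat_lit 3104531854272008236164646035)) (C.cons (nat_lit 3074) (C.node (nat_lit 3) (nat_lit 10) (nat_lit 11) (C.cons (nat_lit 3144) (C.node (nat_lit 3) (nat_lit 4) (nat_lit 10) (C.cons (nat_lit 1560) (C.miq (nat_lit 323094952) (nat_lit 2510943778980494294530658049)) (C.cons (nat_lit 1048) (C.node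 (nat_lit 3) (nat_lit 9) (nat_lit 10) C.nil) C.nil))) (C.cons (nat_lit 3080) (C.node (nat_lit 6) (nat_lit 10) (nat_lit 11) (C.cons (nat_lit 3136) (C.node (nat_lit 1) (nat_lit 7) (nat_lit 11) C.nil) C.nil)) C.nil))) C.nil))))) C.nil)) C.nil))) (C.cons (nat_lit 1156) (C.node (nat_lit 1) (nat_lit 10) (nat_lit 11) (C.cons (nat_lit 3146) (C.miq (nat_lit 1530481168) (nat_lit 3104531854272008511042552979)) (C.cons (nat_lit 3138) (C.node (nat_lit 3) (nat_lit 10) (nat_lit 11) (C.cons (nat_lit 3080) (C.node (nat_lit 6) (nat_lit 9) (nat_lit 11) (C.cons (nat_lit 2628) (C.miq (nat_lit 2460268039) (nat_lit 1571653446234714171017201889)) (C.cons (nat_lit 2624) (C.node (nat_lit 2) (nat_lit 6) (nat_lit 11) (C.cons (nat_lit 2372) (C.miq (nat_lit 1648867488) (nat_lit 178962951419908887959244545)) (C.cons (nat_lit 2116) (C.node (nat_lit 1) (nat_lit 9) (nat_lit 10) (C.cons (nat_lit 1574) (C.miq (nat_lit 1497080068) (nat_lit 3104579059054921554193089683)) (C.cons (nat_lit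 1570) (C.miq (nat_lit 1497080068) (nat_lit 3104579059053795654286247059)) (C.cons (nat_lit 1542) (C.miq (nat_lit 427532806) (nat_lit 3268993302554897773469172805)) (C.cons (nat_lit 1538) (C.node (nat_lit 1) (nat_lit 5) (nat_lit 10) (C.cons (nat_lit 1062) (C.node (nat_lit 2) (nat_lit 5) (nat_lit 11) (C.cons (nat_lit 2596) (C.miq (nat_lit 1951533753) (nat_lit 62876041099508857941790465)) (C.cons (nat_lit 2340) (C.miq (nat_lit 1159834496) (nat_lit 1283900822446258475000860417)) (C.cons (nat_lit 2084) (C.node (nat_lit 2) (nat_lit 8) (nat_lit 11) (C.cons (nat_lit 2436) (C.node (nat_lit 1) (nat_lit 7) (nat_lit 11) C.nil) C.nil)) C.nil)))) (C.cons (nat_lit 1058) (C.node (nat_lit 4) (nat_lit 9) (nat_lit 10) (C.cons (nat_lit 1624) (C.miq (nat_lit 323094952) (nat_lit 2510943778980494569408564993)) (C.cons (nat_lit 1616) (C.node (nat_lit 3) (nat_lit 4) (nat_lit 10) C.nil) (C.cons (nat_lit 1560) (C.miq (nat_lit 323094952) (nat_lit 2510943778980494294530658049))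 C.nil)))) C.nil))) C.nil))))) C.nil))) C.nil))) C.nil)) (C.cons (nat_lit 3082) (C.miq (nat_lit 1530481168) (nat_lit 3104531854272008236164646035)) (C.cons (nat_lit 3074) (C.node (nat_lit 3) (nat_lit 10) (nat_lit 11) (C.cons (nat_lit 3144) (C.node (nat_lit 3) (nat_lit 4) (nat_lit 10) (C.cons (nat_lit 1560) (C.miq (nat_lit 323094952) (nat_lit 2510943778980494294530658049)) (C.cons (nat_lit 1048) (C.node (nat_lit 6) (nat_lit 7) (nat_lit 10) (C.cons (nat_lit 1728) (C.miq (nat_lit 611715994) (nat_lit 251476733355750573211651841)) (C.cons (nat_lit 1216)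
  (C.node (nat_lit 3) (nat_lit 7) (nat_lit 10) (C.cons (nat_lit 1672) (C.node (nat_lit 4) (nat_lit 6) (nat_lit 10) C.nil) C.nil)) C.nil))) C.nil))) (C.cons (nat_lit 3080) (C.node (nat_lit 6) (nat_lit 10) (nat_lit 11) (C.cons (nat_lit 3136) (C.node (nat_lit 2) (nat_lit 8) (nat_lit 11) (C.cons (nat_lit 2436) (C.node (nat_lit 1) (nat_lit 7) (nat_lit 11) (C.cons (nat_lit 2178) (C.node (nat_lit 2) (nat_lit 5) (nat_lit 7) C.nil) C.nil)) (C.cons (nat_lit 2372) (C.miq (nat_lit 1648867488) (nat_lit 178962951419908887959244545)) (C.cons (nat_lit 2340) (C.miq (nat_lit 340921016) (nat_lit 62868994443272700876295937)) (C.cons (nat_lit 2308) (C.node (nat_lit 2) (nat_lit 7) (nat_lit 11) (C.cons (nat_lit 2182) (C.node (nat_lit 7) (nat_lit 8) (nat_lit 11) C.nil) (C.cons (nat_lit 2180) (C.node (nat_lit 1) (nat_lit 7) (nat_lit 11) C.nil) C.nil))) C.nil))))) C.nil)) C.nil))) C.nil))))) C.nil))) C.nil)))) C.nil)))) List.nil))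

theorem ok12_247 : okL par12 (nat_lit 249) c12_247 (nat_lit 247) = true := by decide +kernel

noncomputable def c12_249 : List C :=
  (List.cons (C.node (nat_lit 3) (nat_lit 9) (nat_lit 11) (C.cons (nat_lit 2632) (C.node (nat_lit 3) (nat_lit 10) (nat_lit 11) (C.cons (nat_lit 3082) (C.miq (nat_lit 1530481168) (nat_lit 3181903106727344503345841299)) (C.cons (nat_lit 3080) (C.node (nat_lit 1) (nat_lit 10) (nat_lit 11) (C.cons (nat_lit 3138) (C.node (nat_lit 1) (nat_lit 9) (nat_lit 10) (C.cons (nat_lit 1574) (C.miq (nat_lit 1497080068) (nat_lit 3181950311510257821374284947)) (C.cons (nat_lit 1570) (C.miq (nat_lit 1497080068) (nat_lit 3181950311509131921467442323)) (C.cons (nat_lit 1542) (C.miq (nat_lit 427532806) (nat_lit 3268993302554897773469172805)) (C.cons (nat_lit 1538) (C.node (nat_lit 2) (nat_lit 6) (nat_lit 11) (C.cons (nat_lit 2372) (C.node (nat_lit 2) (nat_lit 7) (nat_lit 11) (C.cons (nat_lit 2182) (C.miq (nat_lit 1093142454) (nat_lit 317953707441016882568890593))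 (C.cons (nat_lit 2180) (C.node (nat_lit 1) (nat_lit 7) (nat_lit 11) (C.cons (nat_lit 2434) (C.miq (nat_lit 2709653430) (nat_lit 317967653179537689321670881)) (C.cons (nat_lit 2178) (C.node (nat_lit 7) (nat_lit 8) (nat_lit 11) (C.cons (nat_lit 2432) (C.node (nat_lit 1) (nat_lit 2) (nat_lit 11) (C.cons (nat_lit 2054) (C.node (nat_lit 1) (nat_lit 9) (nat_lit 11) C.nil) C.nil)) C.nil)) C.nil))) C.nil))) (C.cons (nat_lit 2116) (C.node (nat_lit 6) (nat_lit 8) (nat_lit 11) (C.cons (nat_lit 2368) (C.node (nat_lit 3) (nat_lit 4) (nat_lit 9) (C.cons (nat_lit 1560) (C.miq (nat_lit 1464011674) (nat_lit 183776371003666370984939265)) (C.cons (nat_lit 792) (C.node (nat_lit 1) (nat_lit 3) (nat_lit 4) (C.cons (nat_lit 122) (C.miq (nat_lit 2585004901) (nat_lit 1415662484473314977800390881)) (C.cons (nat_lit 90) (C.miq (nat_lit 2518332224) (nat_lit 3793680076635535993941985309)) (C.cons (nat_lit 58) (C.miq (nat_lit 1369064203) (nat_lit 1859385464425137439667980317)) (C.cons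 (nat_lit 26) (C.node (nat_lit 3) (nat_lit 4) (nat_lit 5) (C.cons (nat_lit 120) (C.miq (nat_lit 2204865616) (nat_lit 3181963611392619803314291249)) (C.cons (nat_lit 56) (C.node (nat_lit 6) (nat_lit 7) (nat_lit 9) (C.cons (nat_lit 1728) (C.miq (nat_lit 611715994) (nat_lit 251476733355750573211651841)) (C.cons (nat_lit 962) (C.miq (nat_lit 611388312) (nat_lit 1415656986847057289475657473)) (C.cons (nat_lit 960) (C.miq (nat_lit 1766553648) (nat_lit 3268977345957456209608769929)) (C.cons (nat_lit 706) (C.miq (nat_lit 1133579111) (nat_lit 632289805380396203284498657)) (C.cons (nat_lit 704) (C.node (nat_lit 7) (nat_lit 8) (nat_lit 9) (C.cons (nat_lit 930) (C.miq (nat_lit 611388312) (nat_lit 1415656986847057289473560321)) (C.cons (nat_lit 928) (C.miq (nat_lit 1498118192) (nat_lit 3268977345948449010354028937)) (C.cons (nat_lit 898) (C.miq (nat_lit 611388312) (nat_lit 1415656986847057289471463169)) (C.cons (nat_lit 896) (C.node (nat_lit 1) (nat_lit 4) (nat_lit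 8) (C.cons (nat_lit 306) (C.node (nat_lit 4) (nat_lit 5) (nat_lit 7) (C.cons (nat_lit 180) (C.miq (nat_lit 2588019543) (nat_lit 1262130454908759186909432033)) C.nil)) (C.cons (nat_lit 274) (C.node (nat_lit 3) (nat_lit 4) (nat_lit 6) (C.cons (nat_lit 88) (C.node (nat_lit 3) (nat_lit 4) (nat_lit 10) (C.cons (nat_lit 1048) (C.node (nat_lit 4) (nat_lit 6) (nat_lit 10) C.nil) C.nil)) C.nil)) C.nil))) C.nil))))) C.nil)))))) C.nil))) C.nil))))) (C.cons (nat_lit 536) (C.node (nat_lit 3) (nat_lit 4) (nat_lit 10) (C.cons (nat_lit 1112) (C.node (nat_lit 4) (nat_lit 9) (nat_lit 10) (C.cons (nat_lit 1552) (C.node (nat_lit 1) (nat_lit 2) (nat_lit 10) (C.cons (nat_lit 1062) (C.node (nat_lit 2) (nat_lit 5) (nat_lit 11) (C.cons (nat_lit 2596) (C.miq (nat_lit 732403008) (nat_lit 3868574521647463341636125233)) (C.cons (nat_lit 2340) (C.miq (nat_lit 1159834496) (nat_lit 1283900822446258475000860417)) (C.cons (nat_lit 2084) (C.node (nat_lit 5) (nat_lit 7) (nat_lit 10) (C.cons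 (nat_lit 1696) (C.miq (nat_lit 1397203129) (nat_lit 183788010559152416976015105)) (C.cons (nat_lit 1440) (C.miq (nat_lit 1463068683) (nat_lit 183814278828259262877994753)) (C.cons (nat_lit 1184) (C.node (nat_lit 1) (nat_lit 3) (nat_lit 4)
  (C.cons (nat_lit 314) (C.miq (nat_lit 2589002563) (nat_lit 1283888869159045519497627677)) (C.cons (nat_lit 282) (C.miq (nat_lit 975259144) (nat_lit 1283884422725569838150254929)) (C.cons (nat_lit 58) (C.miq (nat_lit 2589002563) (nat_lit 1283888869159045519480850461)) (C.cons (nat_lit 26) (C.node (nat_lit 3) (nat_lit 4) (nat_lit 5) C.nil) C.nil))))) C.nil)))) C.nil)))) (C.cons (nat_lit 1038) (C.miq (nat_lit 2258699314) (nat_lit 3793614073539259579063207965)) (C.cons (nat_lit 1030) (C.node (nat_lit 1) (nat_lit 3) (nat_lit 4) (C.cons (nat_lit 314) (C.miq (nat_lit 1369064203) (nat_lit 1859385464497195033705908253)) (C.cons (nat_lit 282) (C.miq (nat_lit 975259144) (nat_lit 1245198796497901704559657297)) (C.cons (nat_lit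 58) (C.miq (nat_lit 1369064203) (nat_lit 1859385464425137439667980317)) (C.cons (nat_lit 26) (C.node (nat_lit 3) (nat_lit 4) (nat_lit 5) (C.cons (nat_lit 56) (C.node (nat_lit 3) (nat_lit 4) (nat_lit 8) (C.cons (nat_lit 280) (C.node (nat_lit 1) (nat_lit 4) (nat_lit 8) C.nil) C.nil)) C.nil)) C.nil))))) C.nil)))) C.nil)) (C.cons (nat_lit 1048) (C.node (nat_lit 4) (nat_lit 6) (nat_lit 10) (C.cons (nat_lit 1616) (C.node (nat_lit 7) (nat_lit 9) (nat_lit 10) (C.cons (nat_lit 1696) (C.miq (nat_lit 1397203129) (nat_lit 183788010559152416976015105)) (C.cons (nat_lit 1672) (C.miq (nat_lit 2207647652) (nat_lit 3181898973889083675084063891)) (C.cons (nat_lit 1664) (C.node (nat_lit 3) (nat_lit 7) (nat_lit 9) (C.cons (nat_lit 680) (C.node (nat_lit 3) (nat_lit 9) (nat_lit 10) (C.cons (nat_lit 1548) (C.miq (nat_lit 1698301842) (nat_lit 1287526160820648178344526469)) (C.cons (nat_lit 1544) (C.node (nat_lit 1) (nat_lit 7) (nat_lit 9) (C.cons (nat_lit 962) (C.miq (nat_lit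 611388312) (nat_lit 1415656986847057289475657473)) (C.cons (nat_lit 898) (C.miq (nat_lit 611388312) (nat_lit 1415656986847057289471463169)) (C.cons (nat_lit 706) (C.miq (nat_lit 1133579111) (nat_lit 632289805380396203284498657)) (C.cons (nat_lit 642) (C.node (nat_lit 2) (nat_lit 3) (nat_lit 9) (C.cons (nat_lit 780) (C.node (nat_lit 2) (nat_lit 4) (nat_lit 9) (C.cons (nat_lit 534) (C.miq (nat_lit 2266574914) (nat_lit 776144764763594118900615197)) (C.cons (nat_lit 532) (C.node (nat_lit 1) (nat_lit 4) (nat_lit 9) C.nil) C.nil))) (C.cons (nat_lit 524) (C.node (nat_lit 3) (nat_lit 8) (nat_lit 9) (C.cons (nat_lit 776) (C.node (nat_lit 2) (nat_lit 9) (nat_lit 10) (C.cons (nat_lit 1572) (C.node (nat_lit 5) (nat_lit 7) (nat_lit 10) (C.cons (nat_lit 1440) (C.miq (nat_lit 1165212288) (nat_lit 822107872103597045654818561)) C.nil)) (C.cons (nat_lit 1540) (C.node (nat_lit 5) (nat_lit 9) (nat_lit 10) C.nil) C.nil))) C.nil)) C.nil))) C.nil))))) C.nil))) (C.cons (nat_lit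 648) (C.node (nat_lit 3) (nat_lit 9) (nat_lit 10) (C.cons (nat_lit 1548) (C.node (nat_lit 5) (nat_lit 9) (nat_lit 10) (C.cons (nat_lit 1568) (C.node (nat_lit 1) (nat_lit 2) (nat_lit 10) (C.cons (nat_lit 1062) (C.node (nat_lit 5) (nat_lit 7) (nat_lit 10) (C.cons (nat_lit 1440) (C.miq (nat_lit 1463068683) (nat_lit 183814278828259262877994753)) C.nil)) C.nil)) C.nil)) (C.cons (nat_lit 1544) (C.node (nat_lit 2) (nat_lit 9) (nat_lit 10) (C.cons (nat_lit 1572) (C.node (nat_lit 5) (nat_lit 7) (nat_lit 10) (C.cons (nat_lit 1440) (C.miq (nat_lit 1463068683) (nat_lit 183814278828259262877994753)) C.nil)) (C.cons (nat_lit 1540) (C.node (nat_lit 5) (nat_lit 9) (nat_lit 10) (C.cons (nat_lit 1568) (C.node (nat_lit 5) (nat_lit 6) (nat_lit 10) (C.cons (nat_lit 1120) (C.node (nat_lit 1) (nat_lit 2) (nat_lit 10) C.nil) C.nil)) C.nil)) C.nil))) C.nil))) C.nil))) C.nil)))) (C.cons (nat_lit 1104) (C.node (nat_lit 4) (nat_lit 9) (nat_lit 10) (C.cons (nat_lit 1552) (C.node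 (nat_lit 6) (nat_lit 9) (nat_lit 10) (C.cons (nat_lit 1728) (C.miq (nat_lit 611715994) (nat_lit 251476733355750573211651841)) (C.cons (nat_lit 1632) (C.node (nat_lit 2) (nat_lit 9) (nat_lit 10) (C.cons (nat_lit 1548) (C.miq (nat_lit 1497066016) (nat_lit 3181934687134357340374762565)) (C.cons (nat_lit 1540) (C.node (nat_lit 4) (nat_lit 8) (nat_lit 9) C.nil) C.nil)))
  (C.cons (nat_lit 1600) (C.node (nat_lit 5) (nat_lit 6) (nat_lit 10) (C.cons (nat_lit 1376) (C.node (nat_lit 3) (nat_lit 6) (nat_lit 10) C.nil) (C.cons (nat_lit 1120) (C.node (nat_lit 3) (nat_lit 6) (nat_lit 10) (C.cons (nat_lit 1096) (C.node (nat_lit 6) (nat_lit 7) (nat_lit 10) C.nil) C.nil)) C.nil))) C.nil)))) C.nil)) C.nil))) C.nil))) C.nil)))) C.nil)) C.nil))) C.nil))))) (C.cons (nat_lit 3074) (C.node (nat_lit 6) (nat_lit 10) (nat_lit 11) (C.cons (nat_lit 3136) (C.node (nat_lit 3) (nat_lit 4) (nat_lit 9) (C.cons (nat_lit 1560) (C.miq (nat_lit 1464011674) (nat_lit 183776371003666370984939265))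 (C.cons (nat_lit 792) (C.node (nat_lit 1) (nat_lit 3) (nat_lit 4) (C.cons (nat_lit 122) (C.miq (nat_lit 1402683658) (nat_lit 3181950311101556155306017939)) (C.cons (nat_lit 90) (C.miq (nat_lit 2875459889) (nat_lit 2572615746358397887565136395)) (C.cons (nat_lit 58) (C.miq (nat_lit 1402683658) (nat_lit 3181950311083541756796535955)) (C.cons (nat_lit 26) (C.node (nat_lit 3) (nat_lit 4) (nat_lit 5) (C.cons (nat_lit 120) (C.miq (nat_lit 2204865616) (nat_lit 3181963611392619803314291249)) (C.cons (nat_lit 56) (C.node (nat_lit 6) (nat_lit 7) (nat_lit 9) (C.cons (nat_lit 1728) (C.miq (nat_lit 611715994) (nat_lit 251476733355750573211651841)) (C.cons (nat_lit 962) (C.miq (nat_lit 611388312) (nat_lit 1415656986847057289475657473)) (C.cons (nat_lit 960) (C.miq (nat_lit 1766553648) (nat_lit 3268977345957456209608769929)) (C.cons (nat_lit 706) (C.miq (nat_lit 1133579111) (nat_lit 632289805380396203284498657)) (C.cons (nat_lit 704) (C.node (nat_lit 7) (nat_lit 8)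 (nat_lit 9) (C.cons (nat_lit 930) (C.miq (nat_lit 611388312) (nat_lit 1415656986847057289473560321)) (C.cons (nat_lit 928) (C.miq (nat_lit 1498118192) (nat_lit 3268977345948449010354028937)) (C.cons (nat_lit 898) (C.miq (nat_lit 611388312) (nat_lit 1415656986847057289471463169)) (C.cons (nat_lit 896) (C.node (nat_lit 1) (nat_lit 4) (nat_lit 8) (C.cons (nat_lit 306) (C.node (nat_lit 4) (nat_lit 5) (nat_lit 7) (C.cons (nat_lit 180) (C.miq (nat_lit 2588019543) (nat_lit 1262130454908759186909432033)) (C.cons (nat_lit 176) (C.node (nat_lit 1) (nat_lit 3) (nat_lit 11) C.nil) C.nil))) (C.cons (nat_lit 274) (C.node (nat_lit 1) (nat_lit 7) (nat_lit 9) (C.cons (nat_lit 674) (C.node (nat_lit 3) (nat_lit 5) (nat_lit 9) (C.cons (nat_lit 556) (C.miq (nat_lit 355760416) (nat_lit 67721447225446070109405829)) (C.cons (nat_lit 552) (C.node (nat_lit 2) (nat_lit 3) (nat_lit 9) (C.cons (nat_lit 1548) (C.miq (nat_lit 1647577752) (nat_lit 2510945144199996434189651713)) (C.cons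 (nat_lit 524) (C.node (nat_lit 5) (nat_lit 9) (nat_lit 11) (C.cons (nat_lit 2596) (C.miq (nat_lit 2778155808) (nat_lit 814837604435783454751524893)) (C.cons (nat_lit 2592) (C.node (nat_lit 3) (nat_lit 4) (nat_lit 6) C.nil) C.nil))) C.nil))) C.nil))) (C.cons (nat_lit 642) (C.node (nat_lit 5) (nat_lit 7) (nat_lit 9) (C.cons (nat_lit 1696) (C.miq (nat_lit 1397203129) (nat_lit 183788010559152416976015105)) (C.cons (nat_lit 680) (C.miq (nat_lit 1687488567) (nat_lit 678249314347946977631142281)) (C.cons (nat_lit 672) (C.node (nat_lit 3) (nat_lit 4) (nat_lit 6) (C.cons (nat_lit 1112) (C.node (nat_lit 4) (nat_lit 9) (nat_lit 10) C.nil) (C.cons (nat_lit 88) (C.node (nat_lit 3) (nat_lit 4) (nat_lit 10) (C.cons (nat_lit 1048) (C.node (nat_lit 4) (nat_lit 6) (nat_lit 10) C.nil) C.nil)) C.nil))) C.nil)))) C.nil))) C.nil))) C.nil))))) C.nil)))))) C.nil))) C.nil))))) (C.cons (nat_lit 536) (C.node (nat_lit 3) (nat_lit 4) (nat_lit 10) (C.cons (nat_lit 1112) (C.node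 (nat_lit 4) (nat_lit 9) (nat_lit 10) (C.cons (nat_lit 1552) (C.node (nat_lit 6) (nat_lit 7) (nat_lit 10) (C.cons (nat_lit 1728) (C.miq (nat_lit 611715994) (nat_lit 251476733355750573211651841)) (C.cons (nat_lit 1472) (C.node (nat_lit 6) (nat_lit 7) (nat_lit 9) (C.cons (nat_lit 706) (C.miq (nat_lit 1133579111) (nat_lit 632289805380396203284498657)) (C.cons (nat_lit 704) (C.node (nat_lit 3) (nat_lit 6) (nat_lit 7) (C.cons (nat_lit 206)
  (C.miq (nat_lit 2838563687) (nat_lit 632289805876918062169327841)) (C.cons (nat_lit 204) (C.miq (nat_lit 3126986867) (nat_lit 1321394235807382490443415945)) (C.cons (nat_lit 202) (C.miq (nat_lit 2838563687) (nat_lit 632289805876918062169065697)) (C.cons (nat_lit 200) (C.node (nat_lit 1) (nat_lit 6) (nat_lit 7) (C.cons (nat_lit 198) (C.node (nat_lit 1) (nat_lit 6) (nat_lit 11) (C.cons (nat_lit 2370) (C.miq (nat_lit 2551319399) (nat_lit 317959389789730580239616225)) (C.cons (nat_lit 2114) (C.node (nat_lit 2) (nat_lit 6)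 (nat_lit 11) (C.cons (nat_lit 2372) (C.miq (nat_lit 908172160) (nat_lit 239376960671699453069430529)) C.nil)) C.nil))) (C.cons (nat_lit 194) (C.node (nat_lit 2) (nat_lit 6) (nat_lit 7) (C.cons (nat_lit 196) (C.node (nat_lit 2) (nat_lit 6) (nat_lit 11) (C.cons (nat_lit 2372) (C.miq (nat_lit 645183648) (nat_lit 251494885034948930103873281)) (C.cons (nat_lit 2118) (C.node (nat_lit 6) (nat_lit 8) (nat_lit 11) C.nil) C.nil))) C.nil)) C.nil))) C.nil))))) C.nil))) (C.cons (nat_lit 1216) (C.node (nat_lit 7) (nat_lit 9) (nat_lit 10) (C.cons (nat_lit 1696) (C.miq (nat_lit 1397203129) (nat_lit 183788010559152416976015105)) (C.cons (nat_lit 1672) (C.node (nat_lit 1) (nat_lit 3) (nat_lit 4) (C.cons (nat_lit 314) (C.miq (nat_lit 1402683658) (nat_lit 3181950311155599350834463891)) (C.cons (nat_lit 282) (C.node (nat_lit 3) (nat_lit 4) (nat_lit 5) (C.cons (nat_lit 56) (C.node (nat_lit 1) (nat_lit 3) (nat_lit 11) C.nil) C.nil)) (C.cons (nat_lit 58) (C.miq (nat_lit 1402683658)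 (nat_lit 3181950311083541756796535955)) (C.cons (nat_lit 26) (C.node (nat_lit 3) (nat_lit 4) (nat_lit 5) (C.cons (nat_lit 312) (C.node (nat_lit 3) (nat_lit 5) (nat_lit 11) C.nil) (C.cons (nat_lit 56) (C.node (nat_lit 3) (nat_lit 4) (nat_lit 8) (C.cons (nat_lit 280) (C.node (nat_lit 1) (nat_lit 4) (nat_lit 8) C.nil) C.nil)) C.nil))) C.nil))))) (C.cons (nat_lit 1664) (C.node (nat_lit 3) (nat_lit 7) (nat_lit 9) (C.cons (nat_lit 680) (C.node (nat_lit 3) (nat_lit 9) (nat_lit 10) (C.cons (nat_lit 1548) (C.miq (nat_lit 1403418912) (nat_lit 1344367441052156816928342661)) (C.cons (nat_lit 1544) (C.node (nat_lit 1) (nat_lit 7) (nat_lit 9) (C.cons (nat_lit 962) (C.miq (nat_lit 611388312) (nat_lit 1415656986847057289475657473)) (C.cons (nat_lit 898) (C.miq (nat_lit 611388312) (nat_lit 1415656986847057289471463169)) (C.cons (nat_lit 706) (C.miq (nat_lit 1133579111) (nat_lit 632289805380396203284498657)) (C.cons (nat_lit 642) (C.node (nat_lit 2) (nat_lit 3) (nat_lit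 9) (C.cons (nat_lit 780) (C.node (nat_lit 3) (nat_lit 8) (nat_lit 10) (C.cons (nat_lit 1290) (C.miq (nat_lit 2033844865) (nat_lit 1866603066803852469768683783)) (C.cons (nat_lit 1288) (C.node (nat_lit 1) (nat_lit 3) (nat_lit 10) (C.cons (nat_lit 1038) (C.miq (nat_lit 1663584784) (nat_lit 942968356165168228685251731)) C.nil)) C.nil))) (C.cons (nat_lit 524) (C.node (nat_lit 3) (nat_lit 8) (nat_lit 9) (C.cons (nat_lit 776) (C.node (nat_lit 3) (nat_lit 7) (nat_lit 10) (C.cons (nat_lit 1164) (C.node (nat_lit 1) (nat_lit 3) (nat_lit 11) (C.cons (nat_lit 2346) (C.miq (nat_lit 1161276288) (nat_lit 822091159353470156041424641)) C.nil)) (C.cons (nat_lit 1160) (C.node (nat_lit 1) (nat_lit 3) (nat_lit 11) (C.cons (nat_lit 2346) (C.miq (nat_lit 1161276288) (nat_lit 822091159353470156041424641)) C.nil)) C.nil))) C.nil)) C.nil))) C.nil))))) C.nil))) (C.cons (nat_lit 648) (C.node (nat_lit 3) (nat_lit 7) (nat_lit 10) (C.cons (nat_lit 1164) (C.node (nat_lit 3) (nat_lit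 9) (nat_lit 10) (C.cons (nat_lit 1544) (C.node (nat_lit 1) (nat_lit 3) (nat_lit 10) (C.cons (nat_lit 1034) (C.node (nat_lit 3) (nat_lit 8) (nat_lit 10) C.nil) C.nil)) C.nil)) (C.cons (nat_lit 1160) (C.node (nat_lit 3) (nat_lit 9) (nat_lit 10) (C.cons (nat_lit 1548) (C.node (nat_lit 1) (nat_lit 2) (nat_lit 10) (C.cons (nat_lit 1030) (C.node (nat_lit 1) (nat_lit 3) (nat_lit 10) C.nil) C.nil)) (C.cons (nat_lit 1544) (C.node (nat_lit 6) (nat_lit 9) (nat_lit 10) (C.cons (nat_lit 1634) (C.miq (nat_lit 339124409) (nat_lit 1344355653720900202228354817))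
  (C.cons (nat_lit 1632) (C.node (nat_lit 1) (nat_lit 6) (nat_lit 10) C.nil) (C.cons (nat_lit 1602) (C.miq (nat_lit 339124409) (nat_lit 1344355063425089843522703105)) C.nil)))) C.nil))) C.nil))) C.nil))) C.nil)))) C.nil)))) C.nil)) (C.cons (nat_lit 1048) (C.node (nat_lit 4) (nat_lit 6) (nat_lit 10) (C.cons (nat_lit 1616) (C.node (nat_lit 7) (nat_lit 9) (nat_lit 10) (C.cons (nat_lit 1696) (C.miq (nat_lit 1397203129) (nat_lit 183788010559152416976015105)) (C.cons (nat_lit 1672) (C.miq (nat_lit 2207647652) (nat_lit 3181898973889083675084063891)) (C.cons (nat_lit 1664) (C.node (nat_lit 3) (nat_lit 7) (nat_lit 9) (C.cons (nat_lit 680) (C.node (nat_lit 3) (nat_lit 9) (nat_lit 10) (C.cons (nat_lit 1548) (C.miq (nat_lit 1698301842) (nat_lit 1287526160820648178344526469)) (C.cons (nat_lit 1544) (C.node (nat_lit 1) (nat_lit 7) (nat_lit 9) (C.cons (nat_lit 962) (C.miq (nat_lit 611388312) (nat_lit 1415656986847057289475657473)) (C.cons (nat_lit 898) (C.miq (nat_lit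 611388312) (nat_lit 1415656986847057289471463169)) (C.cons (nat_lit 706) (C.miq (nat_lit 1133579111) (nat_lit 632289805380396203284498657)) (C.cons (nat_lit 642) (C.node (nat_lit 2) (nat_lit 3) (nat_lit 9) (C.cons (nat_lit 780) (C.node (nat_lit 2) (nat_lit 4) (nat_lit 9) (C.cons (nat_lit 534) (C.miq (nat_lit 2266574914) (nat_lit 776144764763594118900615197)) (C.cons (nat_lit 532) (C.node (nat_lit 1) (nat_lit 4) (nat_lit 9) (C.cons (nat_lit 786) (C.miq (nat_lit 1770169360) (nat_lit 942982302045550259036685459)) (C.cons (nat_lit 530) (C.node (nat_lit 4) (nat_lit 8) (nat_lit 9) (C.cons (nat_lit 784) (C.node (nat_lit 1) (nat_lit 6) (nat_lit 11) C.nil) C.nil)) C.nil))) C.nil))) (C.cons (nat_lit 524) (C.node (nat_lit 3) (nat_lit 8) (nat_lit 9) (C.cons (nat_lit 776) (C.node (nat_lit 6) (nat_lit 7) (nat_lit 9) (C.cons (nat_lit 960) (C.node (nat_lit 4) (nat_lit 8) (nat_lit 9) (C.cons (nat_lit 788) (C.miq (nat_lit 1749776672) (nat_lit 2804749831225438589341729413))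 (C.cons (nat_lit 786) (C.miq (nat_lit 647498305) (nat_lit 1160573638631394483593413779)) (C.cons (nat_lit 784) (C.node (nat_lit 1) (nat_lit 9) (nat_lit 11) (C.cons (nat_lit 2598) (C.miq (nat_lit 2778155808) (nat_lit 822091159353471238389696541)) C.nil)) C.nil)))) (C.cons (nat_lit 704) (C.node (nat_lit 7) (nat_lit 8) (nat_lit 9) (C.cons (nat_lit 896) (C.node (nat_lit 2) (nat_lit 9) (nat_lit 11) (C.cons (nat_lit 2598) (C.miq (nat_lit 2778155808) (nat_lit 822091159353471238389696541)) (C.cons (nat_lit 2596) (C.miq (nat_lit 2778155808) (nat_lit 822091159353471229799761949)) (C.cons (nat_lit 2566) (C.node (nat_lit 5) (nat_lit 9) (nat_lit 11) C.nil) C.nil)))) C.nil)) C.nil))) C.nil)) C.nil))) C.nil))))) C.nil))) (C.cons (nat_lit 648) (C.node (nat_lit 3) (nat_lit 9) (nat_lit 10) (C.cons (nat_lit 1548) (C.node (nat_lit 1) (nat_lit 9) (nat_lit 10) (C.cons (nat_lit 1570) (C.miq (nat_lit 1497080068) (nat_lit 3181950311509131921467442323)) (C.cons (nat_lit 1538)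 (C.node (nat_lit 5) (nat_lit 9) (nat_lit 10) (C.cons (nat_lit 1568) (C.node (nat_lit 1) (nat_lit 2) (nat_lit 10) (C.cons (nat_lit 1030) (C.node (nat_lit 3) (nat_lit 7) (nat_lit 10) C.nil) C.nil)) C.nil)) C.nil))) (C.cons (nat_lit 1544) (C.node (nat_lit 2) (nat_lit 4) (nat_lit 7) (C.cons (nat_lit 436) (C.miq (nat_lit 2588019543) (nat_lit 1262130454908759186926209249)) (C.cons (nat_lit 404) (C.node (nat_lit 4) (nat_lit 5) (nat_lit 7) (C.cons (nat_lit 176) (C.node (nat_lit 2) (nat_lit 7) (nat_lit 11) C.nil) C.nil)) (C.cons (nat_lit 180) (C.miq (nat_lit 2588019543) (nat_lit 1262130454908759186909432033)) (C.cons (nat_lit 148) (C.node (nat_lit 4) (nat_lit 5) (nat_lit 7) (C.cons (nat_lit 432) (C.node (nat_lit 1) (nat_lit 6) (nat_lit 11) C.nil) (C.cons (nat_lit 176) (C.node (nat_lit 4) (nat_lit 7) (nat_lit 8) (C.cons (nat_lit 400) (C.node (nat_lit 1) (nat_lit 4) (nat_lit 9) C.nil) C.nil)) C.nil))) C.nil))))) C.nil))) C.nil))) C.nil)))) (C.cons (nat_lit 1104)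 (C.node (nat_lit 4) (nat_lit 9) (nat_lit 10) (C.cons (nat_lit 1552) (C.node (nat_lit 2) (nat_lit 4) (nat_lit 7)
  (C.cons (nat_lit 436) (C.miq (nat_lit 2588019543) (nat_lit 1262130454908759186926209249)) (C.cons (nat_lit 404) (C.node (nat_lit 4) (nat_lit 5) (nat_lit 7) (C.cons (nat_lit 176) (C.node (nat_lit 4) (nat_lit 8) (nat_lit 9) C.nil) C.nil)) (C.cons (nat_lit 180) (C.miq (nat_lit 2588019543) (nat_lit 1262130454908759186909432033)) (C.cons (nat_lit 148) (C.node (nat_lit 4) (nat_lit 5) (nat_lit 7) (C.cons (nat_lit 432) (C.node (nat_lit 2) (nat_lit 4) (nat_lit 8) C.nil) C.nil)) C.nil))))) C.nil)) C.nil))) C.nil))) C.nil)))) C.nil)) C.nil))) C.nil))) (C.cons (nat_lit 2600) (C.miq (nat_lit 347671123) (nat_lit 3268945064214728436697531433)) (C.cons (nat_lit 2568) (C.node (nat_lit 1) (nat_lit 10) (nat_lit 11) (C.cons (nat_lit 3146) (C.miq (nat_lit 1530481168) (nat_lit 3104531854272008511042552979)) (C.cons (nat_lit 3138) (C.node (nat_lit 3) (nat_lit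 10) (nat_lit 11) (C.cons (nat_lit 3080) (C.node (nat_lit 6) (nat_lit 9) (nat_lit 11) (C.cons (nat_lit 2628) (C.miq (nat_lit 2460268039) (nat_lit 1262168436413369102292420833)) (C.cons (nat_lit 2624) (C.node (nat_lit 1) (nat_lit 9) (nat_lit 10) (C.cons (nat_lit 1574) (C.miq (nat_lit 1497080068) (nat_lit 3104579059054921554193089683)) (C.cons (nat_lit 1570) (C.miq (nat_lit 1497080068) (nat_lit 3104579059053795654286247059)) (C.cons (nat_lit 1542) (C.miq (nat_lit 427532806) (nat_lit 3268993302554897773469172805)) (C.cons (nat_lit 1538) (C.node (nat_lit 2) (nat_lit 6) (nat_lit 11) (C.cons (nat_lit 2372) (C.node (nat_lit 3) (nat_lit 6) (nat_lit 11) (C.cons (nat_lit 2120) (C.node (nat_lit 2) (nat_lit 7) (nat_lit 11) (C.cons (nat_lit 2182) (C.miq (nat_lit 1093142454) (nat_lit 317953707441016882568890593)) (C.cons (nat_lit 2180) (C.node (nat_lit 1) (nat_lit 7) (nat_lit 11) (C.cons (nat_lit 2434) (C.miq (nat_lit 2709653430) (nat_lit 317967653179537689321670881))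 C.nil)) C.nil))) C.nil)) (C.cons (nat_lit 2116) (C.node (nat_lit 3) (nat_lit 6) (nat_lit 11) (C.cons (nat_lit 2376) (C.node (nat_lit 6) (nat_lit 7) (nat_lit 10) (C.cons (nat_lit 1736) (C.miq (nat_lit 372747136) (nat_lit 2098716824871585242960957185)) (C.cons (nat_lit 1728) (C.miq (nat_lit 611715994) (nat_lit 251476733355750573211651841)) (C.cons (nat_lit 1472) (C.miq (nat_lit 913619104) (nat_lit 251494885036074830010715905)) (C.cons (nat_lit 1224) (C.miq (nat_lit 372747136) (nat_lit 1479746805228895105511395073)) (C.cons (nat_lit 1216) (C.node (nat_lit 3) (nat_lit 6) (nat_lit 7) (C.cons (nat_lit 712) (C.miq (nat_lit 372747136) (nat_lit 860776785586204968061832961)) (C.cons (nat_lit 206) (C.miq (nat_lit 698446006) (nat_lit 1859331710778146712019142881)) (C.cons (nat_lit 204) (C.miq (nat_lit 372747136) (nat_lit 246642469221973347311095553)) (C.cons (nat_lit 202) (C.node (nat_lit 6) (nat_lit 7) (nat_lit 9) (C.cons (nat_lit 960) (C.miq (nat_lit 593955721)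 (nat_lit 244214914296716367484686081)) (C.cons (nat_lit 704) (C.node (nat_lit 1) (nat_lit 3) (nat_lit 10) (C.cons (nat_lit 1290) (C.node (nat_lit 1) (nat_lit 3) (nat_lit 4) (C.cons (nat_lit 58) (C.miq (nat_lit 1369064203) (nat_lit 1859385464425137439667980317)) (C.cons (nat_lit 26) (C.node (nat_lit 7) (nat_lit 9) (nat_lit 10) (C.cons (nat_lit 1696) (C.miq (nat_lit 1397203129) (nat_lit 183788010559152416976015105)) (C.cons (nat_lit 1672) (C.miq (nat_lit 657525160) (nat_lit 244207867237405020150959873)) (C.cons (nat_lit 1664) (C.node (nat_lit 7) (nat_lit 8) (nat_lit 10) (C.cons (nat_lit 1444) (C.miq (nat_lit 1463068683) (nat_lit 183814278829385162784837377)) (C.cons (nat_lit 1440) (C.miq (nat_lit 1463068683) (nat_lit 183814278828259262877994753)) (C.cons (nat_lit 1412) (C.miq (nat_lit 706312240) (nat_lit 1859339809114675421016424841)) (C.cons (nat_lit 1408) (C.node (nat_lit 6) (nat_lit 8) (nat_lit 10) (C.cons (nat_lit 1376) (C.node (nat_lit 2) (nat_lit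 8) (nat_lit 10) C.nil) C.nil)) C.nil))))) C.nil)))) C.nil))) (C.cons (nat_lit 1038) (C.miq (nat_lit 2316503911) (nat_lit 1254872251411564914365040865)) (C.cons (nat_lit 1034)
  (C.miq (nat_lit 2316503911) (nat_lit 1250036548133106397666216161)) C.nil)))) C.nil))) (C.cons (nat_lit 200) (C.miq (nat_lit 372747136) (nat_lit 241806765943514830612270849)) C.nil)))))) C.nil)))))) (C.cons (nat_lit 2120) (C.node (nat_lit 6) (nat_lit 8) (nat_lit 11) C.nil) C.nil))) C.nil))) C.nil))))) C.nil))) C.nil)) (C.cons (nat_lit 3082) (C.miq (nat_lit 1530481168) (nat_lit 3104531854272008236164646035)) (C.cons (nat_lit 3074) (C.node (nat_lit 3) (nat_lit 10) (nat_lit 11) (C.cons (nat_lit 3144) (C.node (nat_lit 3) (nat_lit 4) (nat_lit 10) (C.cons (nat_lit 1560) (C.miq (nat_lit 1464011674) (nat_lit 183776371003666370984939265)) (C.cons (nat_lit 1048) (C.node (nat_lit 4) (nat_lit 6) (nat_lit 10) (C.cons (nat_lit 1616) (C.node (nat_lit 3) (nat_lit 4) (nat_lit 9) (C.cons (nat_lit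 792) (C.node (nat_lit 3) (nat_lit 9) (nat_lit 10) (C.cons (nat_lit 1672) (C.miq (nat_lit 1748582522) (nat_lit 957499059168068176185918611)) (C.cons (nat_lit 1548) (C.miq (nat_lit 1647577752) (nat_lit 2510945144199996434189651713)) (C.cons (nat_lit 1544) (C.node (nat_lit 7) (nat_lit 9) (nat_lit 10) (C.cons (nat_lit 1696) (C.miq (nat_lit 1397203129) (nat_lit 183788010559152416976015105)) (C.cons (nat_lit 1664) (C.node (nat_lit 1) (nat_lit 9) (nat_lit 10) (C.cons (nat_lit 1574) (C.miq (nat_lit 1497080068) (nat_lit 3104579059054921554193089683)) (C.cons (nat_lit 1570) (C.miq (nat_lit 1497080068) (nat_lit 3104579059053795654286247059)) (C.cons (nat_lit 1542) (C.miq (nat_lit 407445610) (nat_lit 957497694088177332880671813)) (C.cons (nat_lit 1538) (C.node (nat_lit 3) (nat_lit 4) (nat_lit 5) (C.cons (nat_lit 122) (C.miq (nat_lit 2739517008) (nat_lit 957540103963731275556128993)) (C.cons (nat_lit 120) (C.miq (nat_lit 2739517008) (nat_lit 957540103963731266966194401))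 (C.cons (nat_lit 58) (C.miq (nat_lit 1369064203) (nat_lit 1859385464425137439667980317)) (C.cons (nat_lit 56) (C.node (nat_lit 7) (nat_lit 8) (nat_lit 9) (C.cons (nat_lit 962) (C.miq (nat_lit 611388312) (nat_lit 1415656986847057289475657473)) (C.cons (nat_lit 960) (C.miq (nat_lit 1766553648) (nat_lit 3268977345957456209608769929)) (C.cons (nat_lit 930) (C.miq (nat_lit 611388312) (nat_lit 1415656986847057289473560321)) (C.cons (nat_lit 928) (C.miq (nat_lit 1498118192) (nat_lit 3268977345948449010354028937)) (C.cons (nat_lit 898) (C.miq (nat_lit 611388312) (nat_lit 1415656986847057289471463169)) (C.cons (nat_lit 896) (C.node (nat_lit 1) (nat_lit 3) (nat_lit 4) (C.cons (nat_lit 90) (C.node (nat_lit 3) (nat_lit 8) (nat_lit 11) (C.cons (nat_lit 2346) (C.miq (nat_lit 640748216) (nat_lit 108808175566673664411307777)) (C.cons (nat_lit 2344) (C.miq (nat_lit 1951599288) (nat_lit 67707095798460799817092865)) (C.cons (nat_lit 2314) (C.miq (nat_lit 640748216) (nat_lit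 108808175566673664409210625)) (C.cons (nat_lit 2312) (C.node (nat_lit 6) (nat_lit 8) (nat_lit 9) (C.cons (nat_lit 868) (C.miq (nat_lit 558268585) (nat_lit 108819335613205554001874689)) (C.cons (nat_lit 866) (C.miq (nat_lit 1748719936) (nat_lit 2795078424642062925313147441)) (C.cons (nat_lit 864) (C.miq (nat_lit 1748719936) (nat_lit 2795078424641499975359726129)) (C.cons (nat_lit 836) (C.miq (nat_lit 558268585) (nat_lit 108818745317395195296222977)) (C.cons (nat_lit 834) (C.miq (nat_lit 3105032292) (nat_lit 632306518627041120664289617)) (C.cons (nat_lit 832) (C.node (nat_lit 1) (nat_lit 3) (nat_lit 11) (C.cons (nat_lit 2090) (C.node (nat_lit 1) (nat_lit 4) (nat_lit 8) (C.cons (nat_lit 306) (C.node (nat_lit 1) (nat_lit 2) (nat_lit 4) C.nil) C.nil)) (C.cons (nat_lit 2058) (C.node (nat_lit 3) (nat_lit 5) (nat_lit 11) C.nil) C.nil))) C.nil))))))) C.nil))))) (C.cons (nat_lit 26) (C.node (nat_lit 3) (nat_lit 4) (nat_lit 6) C.nil) C.nil))) C.nil))))))) C.nil)))))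 C.nil))))) C.nil))) C.nil)))) (C.cons (nat_lit 536) (C.node (nat_lit 6) (nat_lit 7) (nat_lit 10) (C.cons (nat_lit 1472) (C.node (nat_lit 3) (nat_lit 7) (nat_lit 10) (C.cons (nat_lit 1672) (C.miq (nat_lit 2466555782) (nat_lit 2510968737748635759504590272)) (C.cons (nat_lit 1164)
  (C.miq (nat_lit 1780778800) (nat_lit 1262124772644761863708279177)) (C.cons (nat_lit 1160) (C.node (nat_lit 3) (nat_lit 9) (nat_lit 10) (C.cons (nat_lit 1548) (C.miq (nat_lit 1990789938) (nat_lit 1953636023286974414527924253)) (C.cons (nat_lit 1544) (C.node (nat_lit 7) (nat_lit 9) (nat_lit 10) (C.cons (nat_lit 1696) (C.miq (nat_lit 1466210944) (nat_lit 251466919580656102112562945)) (C.cons (nat_lit 1664) (C.node (nat_lit 1) (nat_lit 6) (nat_lit 10) (C.cons (nat_lit 1122) (C.node (nat_lit 1) (nat_lit 8) (nat_lit 10) (C.cons (nat_lit 1290) (C.miq (nat_lit 410428165) (nat_lit 1779559504082689255312262185)) (C.cons (nat_lit 1282) (C.node (nat_lit 1) (nat_lit 3) (nat_lit 10) (C.cons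 (nat_lit 1038) (C.miq (nat_lit 542194538) (nat_lit 42331551991493820791524424)) C.nil)) C.nil))) (C.cons (nat_lit 1090) (C.node (nat_lit 5) (nat_lit 6) (nat_lit 10) C.nil) C.nil))) C.nil))) C.nil))) C.nil)))) (C.cons (nat_lit 1216) (C.node (nat_lit 3) (nat_lit 9) (nat_lit 10) (C.cons (nat_lit 1672) (C.node (nat_lit 3) (nat_lit 6) (nat_lit 9) (C.cons (nat_lit 876) (C.miq (nat_lit 1685291177) (nat_lit 183772884024094300790329089)) (C.cons (nat_lit 872) (C.miq (nat_lit 1685291177) (nat_lit 183772810237118005952122625)) (C.cons (nat_lit 844) (C.miq (nat_lit 1685291177) (nat_lit 183772293728283942084677377)) (C.cons (nat_lit 840) (C.miq (nat_lit 1685291177) (nat_lit 183772219941307647246470913)) (C.cons (nat_lit 620) (C.miq (nat_lit 2207647652) (nat_lit 749540224824449775575237779)) (C.cons (nat_lit 616) (C.miq (nat_lit 2207647652) (nat_lit 744704521545991258876413075)) (C.cons (nat_lit 588) (C.miq (nat_lit 2207647652) (nat_lit 710854598596781641984640147))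 (C.cons (nat_lit 584) (C.miq (nat_lit 2207647652) (nat_lit 706018895318323125285815443)) C.nil))))))))) (C.cons (nat_lit 1548) (C.miq (nat_lit 1990789938) (nat_lit 1953636023286974414527924253)) (C.cons (nat_lit 1544) (C.node (nat_lit 7) (nat_lit 9) (nat_lit 10) (C.cons (nat_lit 1696) (C.miq (nat_lit 1397203129) (nat_lit 183788010559152416976015105)) (C.cons (nat_lit 1664) (C.node (nat_lit 3) (nat_lit 7) (nat_lit 10) (C.cons (nat_lit 1164) (C.node (nat_lit 5) (nat_lit 7) (nat_lit 10) (C.cons (nat_lit 1440) (C.miq (nat_lit 1463068683) (nat_lit 183814278828259262877994753)) (C.cons (nat_lit 1184) (C.node (nat_lit 7) (nat_lit 8) (nat_lit 10) C.nil) C.nil))) (C.cons (nat_lit 1160) (C.node (nat_lit 2) (nat_lit 4) (nat_lit 7) (C.cons (nat_lit 436) (C.miq (nat_lit 2588019543) (nat_lit 1262130454908759186926209249)) (C.cons (nat_lit 404) (C.node (nat_lit 4) (nat_lit 5) (nat_lit 7) C.nil) (C.cons (nat_lit 180) (C.miq (nat_lit 2588019543) (nat_lit 1262130454908759186909432033))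 (C.cons (nat_lit 148) (C.node (nat_lit 4) (nat_lit 5) (nat_lit 7) (C.cons (nat_lit 176) (C.node (nat_lit 1) (nat_lit 3) (nat_lit 10) C.nil) C.nil)) C.nil))))) C.nil))) C.nil))) C.nil)))) C.nil))) C.nil))) (C.cons (nat_lit 1104) (C.node (nat_lit 4) (nat_lit 9) (nat_lit 10) (C.cons (nat_lit 1552) (C.node (nat_lit 3) (nat_lit 9) (nat_lit 10) (C.cons (nat_lit 1672) (C.node (nat_lit 6) (nat_lit 7) (nat_lit 10) (C.cons (nat_lit 1472) (C.node (nat_lit 3) (nat_lit 8) (nat_lit 10) (C.cons (nat_lit 1292) (C.miq (nat_lit 1781233712) (nat_lit 3718697750998215598158971273)) (C.cons (nat_lit 1290) (C.miq (nat_lit 665323825) (nat_lit 1779543658147984072027800075)) (C.cons (nat_lit 1288) (C.node (nat_lit 3) (nat_lit 6) (nat_lit 7) (C.cons (nat_lit 206) (C.miq (nat_lit 698577078) (nat_lit 2021327770606507021430163681)) (C.cons (nat_lit 204) (C.miq (nat_lit 698577078) (nat_lit 2021327733713018874011060449)) (C.cons (nat_lit 202) (C.miq (nat_lit 277232039) (nat_lit 407411727599660831090935432))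 (C.cons (nat_lit 200) (C.node (nat_lit 6) (nat_lit 9) (nat_lit 10) (C.cons (nat_lit 1634) (C.miq (nat_lit 376674944) (nat_lit 241794812030012819199561473)) (C.cons (nat_lit 1632) (C.miq (nat_lit 982824528) (nat_lit 1876291186814309910084389089)) (C.cons (nat_lit 1602) (C.miq (nat_lit 376674944) (nat_lit 241794812021005619944820481)) (C.cons (nat_lit 1600)
  (C.node (nat_lit 1) (nat_lit 9) (nat_lit 10) (C.cons (nat_lit 1574) (C.miq (nat_lit 1497080068) (nat_lit 3104579059054921554193089683)) (C.cons (nat_lit 1570) (C.miq (nat_lit 1497080068) (nat_lit 3104579059053795654286247059)) (C.cons (nat_lit 1542) (C.miq (nat_lit 406462585) (nat_lit 1557124900617033644056773253)) C.nil)))) C.nil))))) C.nil))))) C.nil)))) (C.cons (nat_lit 1216) (C.node (nat_lit 2) (nat_lit 4) (nat_lit 7) (C.cons (nat_lit 436) (C.miq (nat_lit 2588019543) (nat_lit 1262130454908759186926209249)) (C.cons (nat_lit 404) (C.node (nat_lit 4) (nat_lit 5) (nat_lit 7) (C.cons (nat_lit 176)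 (C.node (nat_lit 3) (nat_lit 4) (nat_lit 9) (C.cons (nat_lit 536) (C.node (nat_lit 4) (nat_lit 8) (nat_lit 9) C.nil) C.nil)) C.nil)) (C.cons (nat_lit 180) (C.miq (nat_lit 2588019543) (nat_lit 1262130454908759186909432033)) (C.cons (nat_lit 148) (C.node (nat_lit 4) (nat_lit 5) (nat_lit 7) (C.cons (nat_lit 432) (C.node (nat_lit 2) (nat_lit 4) (nat_lit 8) (C.cons (nat_lit 276) (C.node (nat_lit 1) (nat_lit 4) (nat_lit 8) C.nil) C.nil)) (C.cons (nat_lit 176) (C.node (nat_lit 4) (nat_lit 7) (nat_lit 8) C.nil) C.nil))) C.nil))))) C.nil))) (C.cons (nat_lit 1548) (C.miq (nat_lit 2067334818) (nat_lit 3104533403560101388848202821)) (C.cons (nat_lit 1544) (C.node (nat_lit 7) (nat_lit 9) (nat_lit 10) (C.cons (nat_lit 1728) (C.miq (nat_lit 611715994) (nat_lit 251476733355750573211651841)) (C.cons (nat_lit 1696) (C.miq (nat_lit 1397203129) (nat_lit 183788010559152416976015105)) (C.cons (nat_lit 1664) (C.node (nat_lit 3) (nat_lit 7) (nat_lit 10) (C.cons (nat_lit 1164)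 (C.node (nat_lit 5) (nat_lit 7) (nat_lit 10) (C.cons (nat_lit 1440) (C.miq (nat_lit 1463068683) (nat_lit 183814278828259262877994753)) (C.cons (nat_lit 1184) (C.node (nat_lit 1) (nat_lit 3) (nat_lit 10) (C.cons (nat_lit 1034) (C.node (nat_lit 3) (nat_lit 8) (nat_lit 10) C.nil) C.nil)) C.nil))) (C.cons (nat_lit 1160) (C.node (nat_lit 6) (nat_lit 7) (nat_lit 10) (C.cons (nat_lit 1472) (C.node (nat_lit 2) (nat_lit 7) (nat_lit 10) (C.cons (nat_lit 1156) (C.node (nat_lit 5) (nat_lit 7) (nat_lit 10) C.nil) C.nil)) (C.cons (nat_lit 1216) (C.node (nat_lit 5) (nat_lit 7) (nat_lit 10) (C.cons (nat_lit 1444) (C.miq (nat_lit 1463068683) (nat_lit 183814278829385162784837377)) (C.cons (nat_lit 1440) (C.miq (nat_lit 1463068683) (nat_lit 183814278828259262877994753)) (C.cons (nat_lit 1188) (C.node (nat_lit 7) (nat_lit 8) (nat_lit 10) C.nil) C.nil)))) C.nil))) C.nil))) C.nil)))) C.nil)))) C.nil)) C.nil))) C.nil))) (C.cons (nat_lit 3080) (C.node (nat_lit 6) (nat_lit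 10) (nat_lit 11) (C.cons (nat_lit 3136) (C.node (nat_lit 2) (nat_lit 4) (nat_lit 7) (C.cons (nat_lit 436) (C.miq (nat_lit 2588019543) (nat_lit 1262130454908759186926209249)) (C.cons (nat_lit 404) (C.node (nat_lit 4) (nat_lit 5) (nat_lit 7) (C.cons (nat_lit 176) (C.node (nat_lit 2) (nat_lit 7) (nat_lit 11) (C.cons (nat_lit 2182) (C.node (nat_lit 7) (nat_lit 8) (nat_lit 11) (C.cons (nat_lit 2432) (C.node (nat_lit 2) (nat_lit 6) (nat_lit 11) (C.cons (nat_lit 2628) (C.miq (nat_lit 2460268039) (nat_lit 1262168436413369102292420833)) (C.cons (nat_lit 2372) (C.miq (nat_lit 310672224) (nat_lit 488427632875809087333402849)) C.nil))) C.nil)) (C.cons (nat_lit 2180) (C.node (nat_lit 1) (nat_lit 7) (nat_lit 11) (C.cons (nat_lit 2434) (C.node (nat_lit 2) (nat_lit 8) (nat_lit 11) (C.cons (nat_lit 2372) (C.miq (nat_lit 2709653430) (nat_lit 317967653179537689321670881)) (C.cons (nat_lit 2340) (C.node (nat_lit 3) (nat_lit 5) (nat_lit 11) (C.cons (nat_lit 2090) (C.node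 (nat_lit 5) (nat_lit 9) (nat_lit 11) C.nil) C.nil)) C.nil))) (C.cons (nat_lit 2178) (C.node (nat_lit 7) (nat_lit 8) (nat_lit 11) C.nil) C.nil))) C.nil))) C.nil)) (C.cons (nat_lit 180) (C.miq (nat_lit 2588019543) (nat_lit 1262130454908759186909432033)) (C.cons (nat_lit 148) (C.node (nat_lit 4) (nat_lit 5) (nat_lit 7) (C.cons (nat_lit 432) (C.node (nat_lit 2) (nat_lit 4) (nat_lit 8) (C.cons (nat_lit 788) (C.node (nat_lit 7) (nat_lit 8) (nat_lit 9) (C.cons (nat_lit 962)
  (C.miq (nat_lit 611388312) (nat_lit 1415656986847057289475657473)) (C.cons (nat_lit 960) (C.miq (nat_lit 1749776672) (nat_lit 2804749831225438589341729413)) (C.cons (nat_lit 898) (C.miq (nat_lit 611388312) (nat_lit 1415656986847057289471463169)) (C.cons (nat_lit 896) (C.node (nat_lit 1) (nat_lit 4) (nat_lit 8) (C.cons (nat_lit 282) (C.node (nat_lit 3) (nat_lit 8) (nat_lit 11) (C.cons (nat_lit 2376) (C.miq (nat_lit 397623400) (nat_lit 2640299192349795863996399953)) (C.cons (nat_lit 2344)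 (C.miq (nat_lit 927301803) (nat_lit 522299193352253274120523521)) (C.cons (nat_lit 2312) (C.node (nat_lit 1) (nat_lit 4) (nat_lit 9) (C.cons (nat_lit 594) (C.node (nat_lit 1) (nat_lit 2) (nat_lit 4) (C.cons (nat_lit 22) (C.node (nat_lit 1) (nat_lit 4) (nat_lit 5) C.nil) C.nil)) (C.cons (nat_lit 530) (C.node (nat_lit 3) (nat_lit 4) (nat_lit 5) (C.cons (nat_lit 120) (C.node (nat_lit 1) (nat_lit 4) (nat_lit 5) C.nil) C.nil)) C.nil))) C.nil)))) (C.cons (nat_lit 274) (C.node (nat_lit 3) (nat_lit 4) (nat_lit 8) (C.cons (nat_lit 280) (C.node (nat_lit 1) (nat_lit 7) (nat_lit 11) C.nil) C.nil)) C.nil))) C.nil))))) (C.cons (nat_lit 276) (C.node (nat_lit 5) (nat_lit 7) (nat_lit 10) (C.cons (nat_lit 1696) (C.miq (nat_lit 609684393) (nat_lit 522267852808084273171009281)) (C.cons (nat_lit 1188) (C.node (nat_lit 2) (nat_lit 5) (nat_lit 8) (C.cons (nat_lit 2340) (C.miq (nat_lit 1649937012) (nat_lit 2828892634758642360925553811)) (C.cons (nat_lit 876) (C.miq (nat_lit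 2726589792) (nat_lit 333685127685344000849545441)) (C.cons (nat_lit 868) (C.miq (nat_lit 2726589792) (nat_lit 333685127685343966489807073)) (C.cons (nat_lit 812) (C.miq (nat_lit 1649937012) (nat_lit 981653982387488981974516883)) (C.cons (nat_lit 804) (C.miq (nat_lit 1649937012) (nat_lit 971982575830571948576867475)) (C.cons (nat_lit 364) (C.miq (nat_lit 2726589792) (nat_lit 333685127685341801826289889)) (C.cons (nat_lit 356) (C.miq (nat_lit 2726589792) (nat_lit 333685127685341767466551521)) (C.cons (nat_lit 300) (C.miq (nat_lit 1649937012) (nat_lit 362683962744798844524954771)) (C.cons (nat_lit 292) (C.miq (nat_lit 1649937012) (nat_lit 353012556187881811127305363)) C.nil)))))))))) (C.cons (nat_lit 1184) (C.node (nat_lit 3) (nat_lit 4) (nat_lit 5) (C.cons (nat_lit 122) (C.miq (nat_lit 1402683658) (nat_lit 3104579058646219888124822675)) (C.cons (nat_lit 120) (C.node (nat_lit 3) (nat_lit 4) (nat_lit 10) (C.cons (nat_lit 1560) (C.miq (nat_lit 1949677984)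 (nat_lit 145113028564150080019959553)) (C.cons (nat_lit 1048) (C.node (nat_lit 1) (nat_lit 7) (nat_lit 11) C.nil) C.nil))) (C.cons (nat_lit 58) (C.miq (nat_lit 1402683658) (nat_lit 3104579058628205489615340691)) (C.cons (nat_lit 56) (C.node (nat_lit 4) (nat_lit 9) (nat_lit 10) (C.cons (nat_lit 1624) (C.miq (nat_lit 1949677984) (nat_lit 67741776108814087716671233)) (C.cons (nat_lit 1616) (C.node (nat_lit 3) (nat_lit 4) (nat_lit 10) C.nil) (C.cons (nat_lit 1560) (C.miq (nat_lit 1949677984) (nat_lit 67741776108813812838764289)) (C.cons (nat_lit 1552) (C.node (nat_lit 1) (nat_lit 7) (nat_lit 11) C.nil) C.nil))))) C.nil))))) C.nil)))) C.nil))) (C.cons (nat_lit 176) (C.node (nat_lit 4) (nat_lit 7) (nat_lit 8) (C.cons (nat_lit 400) (C.node (nat_lit 4) (nat_lit 9) (nat_lit 10) (C.cons (nat_lit 1624) (C.miq (nat_lit 1464011674) (nat_lit 183776371003666370989133569)) (C.cons (nat_lit 1616) (C.node (nat_lit 3) (nat_lit 4) (nat_lit 10) (C.cons (nat_lit 1048) (C.node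 (nat_lit 1) (nat_lit 7) (nat_lit 11) C.nil) C.nil)) (C.cons (nat_lit 1560) (C.miq (nat_lit 1464011674) (nat_lit 183776371003666370984939265)) (C.cons (nat_lit 1552) (C.node (nat_lit 3) (nat_lit 4) (nat_lit 10) (C.cons (nat_lit 1112) (C.node (nat_lit 1) (nat_lit 7) (nat_lit 11) C.nil) (C.cons (nat_lit 1048) (C.node (nat_lit 4) (nat_lit 6) (nat_lit 10) C.nil) C.nil))) C.nil))))) C.nil)) C.nil))) C.nil))))) C.nil)) C.nil))) C.nil))))) C.nil)))) List.nil)

theorem ok12_249 : okL par12 (nat_lit 250) c12_249 (nat_lit 249) = true := by decide +kernel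

noncomputable def c12_250 : List C :=
  (List.cons (C.node (nat_lit 3) (nat_lit 4) (nat_lit 7) (C.cons (nat_lit 216) (C.node (nat_lit 3) (nat_lit 4) (nat_lit 10) (C.cons (nat_lit 1560) (C.miq (nat_lit 1464011674) (nat_lit 261147623459002638166134529)) (C.cons (nat_lit 1048) (C.node (nat_lit 3) (nat_lit 4) (nat_lit 9) (C.cons (nat_lit 792) (C.miq (nat_lit 2490073968) (nat_lit 2572664998306847111579238793)) (C.cons (nat_lit 536) (C.node (nat_lit 3) (nat_lit 9) (nat_lit 11) (C.cons (nat_lit 2632) (C.miq (nat_lit 2471147120) (nat_lit 1267025113640961559971956961)) (C.cons (nat_lit 2600) (C.miq (nat_lit 2761099189) (nat_lit 648003885425498549805123809)) (C.cons (nat_lit 2568) (C.node (nat_lit 6) (nat_lit 7) (nat_lit 10) (C.cons (nat_lit 1728) (C.miq (nat_lit 611715994) (nat_lit 261148139912667606609301249)) (C.cons (nat_lit 1472) (C.miq (nat_lit 2789967664) (nat_lit 2572664998498250095729639817)) (C.cons (nat_lit 1216) (C.node (nat_lit 4) (nat_lit 6) (nat_lit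 10) (C.cons (nat_lit 1616) (C.node (nat_lit 7) (nat_lit 9) (nat_lit 10) (C.cons (nat_lit 1696) (C.miq (nat_lit 1397203129) (nat_lit 261159263014488684157210369)) (C.cons (nat_lit 1672) (C.node (nat_lit 1) (nat_lit 3) (nat_lit 4) (C.cons (nat_lit 314) (C.miq (nat_lit 1402683658) (nat_lit 3104579058700263083653268627)) (C.cons (nat_lit 282) (C.node (nat_lit 3) (nat_lit 4) (nat_lit 5) (C.cons (nat_lit 56) (C.node (nat_lit 1) (nat_lit 4) (nat_lit 9) (C.cons (nat_lit 534) (C.miq (nat_lit 882344224) (nat_lit 3268942665887756493246497031)) (C.cons (nat_lit 530) (C.node (nat_lit 3) (nat_lit 8) (nat_lit 11) (C.cons (nat_lit 2376) (C.miq (nat_lit 2202711664) (nat_lit 1267025113568903965934029025)) (C.cons (nat_lit 2344) (C.miq (nat_lit 1951599288) (nat_lit 67707095798460799817092865)) (C.cons (nat_lit 2312) (C.node (nat_lit 1) (nat_lit 3) (nat_lit 7) (C.cons (nat_lit 174) (C.miq (nat_lit 2736297760) (nat_lit 340987935545939454056661637)) (C.cons (nat_lit 170)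 (C.miq (nat_lit 1350661699) (nat_lit 317950627144934073057280216)) (C.cons (nat_lit 142) (C.miq (nat_lit 2736297760) (nat_lit 340987935545939316617708165)) (C.cons (nat_lit 138) (C.node (nat_lit 1) (nat_lit 4) (nat_lit 6) (C.cons (nat_lit 118) (C.miq (nat_lit 2484643360) (nat_lit 340987935530176614842696773)) (C.cons (nat_lit 114) (C.miq (nat_lit 1462853764) (nat_lit 166833866675437539002286417)) (C.cons (nat_lit 86) (C.miq (nat_lit 2484643360) (nat_lit 340987935530176477403743301)) (C.cons (nat_lit 82) (C.node (nat_lit 2) (nat_lit 4) (nat_lit 7) (C.cons (nat_lit 436) (C.miq (nat_lit 2588019543) (nat_lit 1262130454908759186926209249)) (C.cons (nat_lit 404) (C.miq (nat_lit 605648944) (nat_lit 640742582659398107061223817)) (C.cons (nat_lit 180) (C.miq (nat_lit 2588019543) (nat_lit 1262130454908759186909432033)) C.nil)))) C.nil))))) C.nil))))) C.nil)))) C.nil))) C.nil)) (C.cons (nat_lit 58) (C.miq (nat_lit 1402683658) (nat_lit 3104579058628205489615340691))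 (C.cons (nat_lit 26) (C.node (nat_lit 3) (nat_lit 4) (nat_lit 5) (C.cons (nat_lit 312) (C.node (nat_lit 4) (nat_lit 5) (nat_lit 7) (C.cons (nat_lit 180) (C.miq (nat_lit 2588019543) (nat_lit 1262130454908759186909432033)) (C.cons (nat_lit 176) (C.node (nat_lit 7) (nat_lit 8) (nat_lit 9) (C.cons (nat_lit 962) (C.miq (nat_lit 611388312) (nat_lit 1415656986847057289475657473)) (C.cons (nat_lit 960) (C.miq (nat_lit 914977802) (nat_lit 1160599629846935292713436307)) (C.cons (nat_lit 930) (C.miq (nat_lit 611388312) (nat_lit 1415656986847057289473560321)) (C.cons (nat_lit 928) (C.miq (nat_lit 693372803) (nat_lit 678245698872803407477342601)) (C.cons (nat_lit 898) (C.miq (nat_lit 611388312) (nat_lit 1415656986847057289471463169)) (C.cons (nat_lit 896) (C.node (nat_lit 1) (nat_lit 4) (nat_lit 8) (C.cons (nat_lit 786) (C.node (nat_lit 2) (nat_lit 4) (nat_lit 9) (C.cons (nat_lit 532) (C.node (nat_lit 2) (nat_lit 4) (nat_lit 7) (C.cons (nat_lit 404) (C.node (nat_lit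 1) (nat_lit 2) (nat_lit 4) (C.cons (nat_lit 118) (C.miq (nat_lit 271984756) (nat_lit 88253761621698234291847572)) C.nil)) C.nil)) C.nil)) (C.cons (nat_lit 274)
  (C.node (nat_lit 1) (nat_lit 4) (nat_lit 9) (C.cons (nat_lit 534) (C.node (nat_lit 4) (nat_lit 8) (nat_lit 9) C.nil) C.nil)) C.nil))) C.nil))))))) C.nil))) (C.cons (nat_lit 56) (C.node (nat_lit 3) (nat_lit 4) (nat_lit 8) (C.cons (nat_lit 280) (C.node (nat_lit 2) (nat_lit 4) (nat_lit 7) (C.cons (nat_lit 436) (C.miq (nat_lit 2588019543) (nat_lit 1262130454908759186926209249)) (C.cons (nat_lit 404) (C.node (nat_lit 4) (nat_lit 5) (nat_lit 7) C.nil) (C.cons (nat_lit 180) (C.miq (nat_lit 2588019543) (nat_lit 1262130454908759186909432033)) C.nil)))) C.nil)) C.nil))) C.nil))))) (C.cons (nat_lit 1664) (C.node (nat_lit 3) (nat_lit 6) (nat_lit 9) (C.cons (nat_lit 876) (C.miq (nat_lit 967280192) (nat_lit 2011659813655742934907289937)) (C.cons (nat_lit 872) (C.miq (nat_lit 967280192) (nat_lit 2011659813654617035000447313))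 (C.cons (nat_lit 844) (C.miq (nat_lit 967280192) (nat_lit 2011659813646735735652548945)) (C.cons (nat_lit 840) (C.miq (nat_lit 967280192) (nat_lit 2011659813645609835745706321)) (C.cons (nat_lit 620) (C.miq (nat_lit 2304969287) (nat_lit 749541258812643382398551187)) (C.cons (nat_lit 616) (C.miq (nat_lit 2304969287) (nat_lit 744705555534184865699726483)) (C.cons (nat_lit 588) (C.miq (nat_lit 2304969287) (nat_lit 710855632584975248807953555)) (C.cons (nat_lit 584) (C.miq (nat_lit 2304969287) (nat_lit 706019929306516732109128851)) C.nil))))))))) C.nil)))) (C.cons (nat_lit 1104) (C.node (nat_lit 4) (nat_lit 9) (nat_lit 10) (C.cons (nat_lit 1552) (C.node (nat_lit 7) (nat_lit 9) (nat_lit 10) (C.cons (nat_lit 1696) (C.miq (nat_lit 1397203129) (nat_lit 261159263014488684157210369)) (C.cons (nat_lit 1672) (C.node (nat_lit 3) (nat_lit 6) (nat_lit 9) (C.cons (nat_lit 876) (C.miq (nat_lit 1772389232) (nat_lit 1876259088841236580123476361)) (C.cons (nat_lit 872)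 (C.miq (nat_lit 1772389232) (nat_lit 1876259088840110680216633737)) (C.cons (nat_lit 844) (C.miq (nat_lit 1772389232) (nat_lit 1876259088832229380868735369)) (C.cons (nat_lit 840) (C.miq (nat_lit 1772389232) (nat_lit 1876259088831103480961892745)) (C.cons (nat_lit 620) (C.miq (nat_lit 2302020212) (nat_lit 749540225794975495181829267)) (C.cons (nat_lit 616) (C.miq (nat_lit 2302020212) (nat_lit 744704522516516978483004563)) (C.cons (nat_lit 588) (C.miq (nat_lit 2302020212) (nat_lit 710854599567307361591231635)) (C.cons (nat_lit 584) (C.miq (nat_lit 2302020212) (nat_lit 706018896288848844892406931)) C.nil))))))))) (C.cons (nat_lit 1664) (C.node (nat_lit 3) (nat_lit 7) (nat_lit 9) (C.cons (nat_lit 680) (C.node (nat_lit 7) (nat_lit 8) (nat_lit 9) (C.cons (nat_lit 962) (C.miq (nat_lit 611388312) (nat_lit 1415656986847057289475657473)) (C.cons (nat_lit 960) (C.miq (nat_lit 2521532208) (nat_lit 2572664998354134907653783945)) (C.cons (nat_lit 898) (C.miq (nat_lit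 611388312) (nat_lit 1415656986847057289471463169)) (C.cons (nat_lit 896) (C.node (nat_lit 1) (nat_lit 3) (nat_lit 7) (C.cons (nat_lit 142) (C.node (nat_lit 3) (nat_lit 7) (nat_lit 10) (C.cons (nat_lit 1160) (C.node (nat_lit 1) (nat_lit 5) (nat_lit 7) (C.cons (nat_lit 418) (C.miq (nat_lit 1729643296) (nat_lit 505337209212467040018171933)) (C.cons (nat_lit 162) (C.node (nat_lit 1) (nat_lit 7) (nat_lit 9) (C.cons (nat_lit 706) (C.miq (nat_lit 2255553586) (nat_lit 853506480236477577828370461)) (C.cons (nat_lit 642) (C.node (nat_lit 6) (nat_lit 7) (nat_lit 9) (C.cons (nat_lit 704) (C.node (nat_lit 2) (nat_lit 4) (nat_lit 7) (C.cons (nat_lit 436) (C.miq (nat_lit 2588019543) (nat_lit 1262130454908759186926209249)) (C.cons (nat_lit 404) (C.miq (nat_lit 274933831) (nat_lit 88254204343555762802917780)) (C.cons (nat_lit 180) (C.miq (nat_lit 2588019543) (nat_lit 1262130454908759186909432033)) C.nil)))) C.nil)) C.nil))) C.nil))) C.nil)) (C.cons (nat_lit 138) (C.node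 (nat_lit 1) (nat_lit 7) (nat_lit 9) (C.cons (nat_lit 706) (C.node (nat_lit 6) (nat_lit 9) (nat_lit 11) (C.cons (nat_lit 2628) (C.miq (nat_lit 709451899) (nat_lit 1876301350392987366974294241)) (C.cons (nat_lit 2624) (C.node (nat_lit 2) (nat_lit 3) (nat_lit 7)
  (C.cons (nat_lit 1164) (C.node (nat_lit 5) (nat_lit 7) (nat_lit 10) (C.cons (nat_lit 1440) (C.miq (nat_lit 1165212288) (nat_lit 822107872103597045654818561)) (C.cons (nat_lit 1184) (C.node (nat_lit 7) (nat_lit 8) (nat_lit 10) (C.cons (nat_lit 1408) (C.node (nat_lit 2) (nat_lit 6) (nat_lit 7) (C.cons (nat_lit 452) (C.node (nat_lit 2) (nat_lit 4) (nat_lit 7) (C.cons (nat_lit 180) (C.miq (nat_lit 2588019543) (nat_lit 1262130454908759186909432033)) (C.cons (nat_lit 148) (C.node (nat_lit 2) (nat_lit 5) (nat_lit 7) C.nil) C.nil))) (C.cons (nat_lit 196) (C.node (nat_lit 6) (nat_lit 7) (nat_lit 8) (C.cons (nat_lit 448) (C.node (nat_lit 2) (nat_lit 8) (nat_lit 10) C.nil) C.nil)) C.nil))) C.nil)) C.nil)))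 (C.cons (nat_lit 140) (C.node (nat_lit 3) (nat_lit 7) (nat_lit 10) (C.cons (nat_lit 1160) (C.node (nat_lit 2) (nat_lit 6) (nat_lit 7) (C.cons (nat_lit 452) (C.node (nat_lit 2) (nat_lit 4) (nat_lit 7) (C.cons (nat_lit 180) (C.miq (nat_lit 2588019543) (nat_lit 1262130454908759186909432033)) (C.cons (nat_lit 148) (C.node (nat_lit 4) (nat_lit 5) (nat_lit 7) C.nil) C.nil))) (C.cons (nat_lit 196) (C.node (nat_lit 6) (nat_lit 7) (nat_lit 8) (C.cons (nat_lit 448) (C.node (nat_lit 4) (nat_lit 6) (nat_lit 9) (C.cons (nat_lit 596) (C.node (nat_lit 1) (nat_lit 2) (nat_lit 4) C.nil) C.nil)) C.nil)) C.nil))) C.nil)) C.nil))) C.nil))) (C.cons (nat_lit 642) (C.node (nat_lit 6) (nat_lit 7) (nat_lit 9) (C.cons (nat_lit 704) (C.node (nat_lit 2) (nat_lit 3) (nat_lit 7) (C.cons (nat_lit 1164) (C.node (nat_lit 5) (nat_lit 7) (nat_lit 10) (C.cons (nat_lit 1440) (C.miq (nat_lit 1165212288) (nat_lit 822107872103597045654818561)) (C.cons (nat_lit 1184) (C.node (nat_lit 7) (nat_lit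 8) (nat_lit 10) (C.cons (nat_lit 1408) (C.node (nat_lit 2) (nat_lit 8) (nat_lit 10) C.nil) C.nil)) C.nil))) (C.cons (nat_lit 140) (C.node (nat_lit 3) (nat_lit 7) (nat_lit 10) (C.cons (nat_lit 1160) (C.node (nat_lit 1) (nat_lit 6) (nat_lit 7) (C.cons (nat_lit 450) (C.miq (nat_lit 389187136) (nat_lit 169254466366404137439789393)) (C.cons (nat_lit 198) (C.node (nat_lit 6) (nat_lit 7) (nat_lit 8) C.nil) (C.cons (nat_lit 194) (C.node (nat_lit 2) (nat_lit 6) (nat_lit 7) (C.cons (nat_lit 196) (C.node (nat_lit 6) (nat_lit 7) (nat_lit 8) C.nil) C.nil)) C.nil)))) C.nil)) C.nil))) C.nil)) C.nil))) C.nil))) C.nil))))) (C.cons (nat_lit 648) (C.node (nat_lit 3) (nat_lit 7) (nat_lit 10) (C.cons (nat_lit 1164) (C.node (nat_lit 5) (nat_lit 7) (nat_lit 10) (C.cons (nat_lit 1440) (C.miq (nat_lit 1463068683) (nat_lit 261185531283595530059190017)) (C.cons (nat_lit 1184) (C.node (nat_lit 7) (nat_lit 8) (nat_lit 10) (C.cons (nat_lit 1408) (C.node (nat_lit 1) (nat_lit 3) (nat_lit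 7) (C.cons (nat_lit 170) (C.node (nat_lit 1) (nat_lit 3) (nat_lit 4) (C.cons (nat_lit 282) (C.miq (nat_lit 1350661699) (nat_lit 317950627144934073057280216)) (C.cons (nat_lit 26) (C.node (nat_lit 3) (nat_lit 5) (nat_lit 11) (C.cons (nat_lit 2344) (C.miq (nat_lit 1161276288) (nat_lit 205538991350009268351340289)) (C.cons (nat_lit 2088) (C.node (nat_lit 5) (nat_lit 9) (nat_lit 11) (C.cons (nat_lit 2598) (C.miq (nat_lit 2299726679) (nat_lit 632275454310028570106923233)) (C.cons (nat_lit 2596) (C.miq (nat_lit 2544181323) (nat_lit 1431416058352892682437658653)) (C.cons (nat_lit 2594) (C.miq (nat_lit 2299726679) (nat_lit 632275454310028552927054049)) (C.cons (nat_lit 2592) (C.node (nat_lit 1) (nat_lit 7) (nat_lit 8) (C.cons (nat_lit 2434) (C.miq (nat_lit 363557640) (nat_lit 3771893456620573754564608393)) (C.cons (nat_lit 962) (C.miq (nat_lit 611388312) (nat_lit 1415656986847057289475657473)) (C.cons (nat_lit 898) (C.miq (nat_lit 611388312) (nat_lit 1415656986847057289471463169))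 (C.cons (nat_lit 450) (C.miq (nat_lit 389187136) (nat_lit 1407194505651784412338913617)) (C.cons (nat_lit 386) (C.node (nat_lit 2) (nat_lit 4) (nat_lit 7) (C.cons (nat_lit 436) (C.miq (nat_lit 2588019543) (nat_lit 1262130454908759186926209249)) (C.cons (nat_lit 148)
  (C.node (nat_lit 2) (nat_lit 8) (nat_lit 10) C.nil) C.nil))) C.nil)))))) C.nil))))) C.nil))) C.nil))) (C.cons (nat_lit 138) (C.node (nat_lit 3) (nat_lit 5) (nat_lit 7) (C.cons (nat_lit 168) (C.node (nat_lit 2) (nat_lit 8) (nat_lit 10) (C.cons (nat_lit 1316) (C.node (nat_lit 1) (nat_lit 2) (nat_lit 10) (C.cons (nat_lit 1030) (C.node (nat_lit 2) (nat_lit 9) (nat_lit 10) C.nil) C.nil)) (C.cons (nat_lit 1284) (C.node (nat_lit 3) (nat_lit 9) (nat_lit 10) (C.cons (nat_lit 1608) (C.node (nat_lit 3) (nat_lit 8) (nat_lit 10) C.nil) C.nil)) C.nil))) C.nil)) C.nil))) C.nil)) C.nil))) (C.cons (nat_lit 1160) (C.node (nat_lit 1) (nat_lit 3) (nat_lit 4) (C.cons (nat_lit 314) (C.miq (nat_lit 1402683658)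 (nat_lit 3104579058700263083653268627)) (C.cons (nat_lit 282) (C.node (nat_lit 3) (nat_lit 4) (nat_lit 5) (C.cons (nat_lit 56) (C.node (nat_lit 2) (nat_lit 4) (nat_lit 7) (C.cons (nat_lit 436) (C.miq (nat_lit 2588019543) (nat_lit 1262130454908759186926209249)) (C.cons (nat_lit 404) (C.miq (nat_lit 1949902864) (nat_lit 647996137577085882109460743)) (C.cons (nat_lit 180) (C.miq (nat_lit 2588019543) (nat_lit 1262130454908759186909432033)) C.nil)))) C.nil)) (C.cons (nat_lit 58) (C.miq (nat_lit 1402683658) (nat_lit 3104579058628205489615340691)) (C.cons (nat_lit 26) (C.node (nat_lit 3) (nat_lit 4) (nat_lit 5) (C.cons (nat_lit 312) (C.node (nat_lit 4) (nat_lit 5) (nat_lit 7) (C.cons (nat_lit 180) (C.miq (nat_lit 2588019543) (nat_lit 1262130454908759186909432033)) C.nil)) (C.cons (nat_lit 56) (C.node (nat_lit 3) (nat_lit 4) (nat_lit 8) (C.cons (nat_lit 280) (C.node (nat_lit 1) (nat_lit 4) (nat_lit 8) C.nil) C.nil)) C.nil))) C.nil))))) C.nil))) C.nil))) C.nil))))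 C.nil)) C.nil))) C.nil)))) C.nil)))) C.nil))) C.nil))) (C.cons (nat_lit 184) (C.miq (nat_lit 950300853) (nat_lit 1566771256532105135997847777)) (C.cons (nat_lit 152) (C.node (nat_lit 4) (nat_lit 6) (nat_lit 7) (C.cons (nat_lit 212) (C.miq (nat_lit 2485827424) (nat_lit 1262189410382769224411318497)) (C.cons (nat_lit 208) (C.ref (nat_lit 249) (nat_lit 205163983024656)) C.nil))) C.nil)))) (List.cons (C.node (nat_lit 6) (nat_lit 7) (nat_lit 9) (C.cons (nat_lit 962) (C.miq (nat_lit 611388312) (nat_lit 1415656986847057289475657473)) (C.cons (nat_lit 960) (C.miq (nat_lit 914977802) (nat_lit 1160599629846935292713436307)) (C.cons (nat_lit 706) (C.node (nat_lit 6) (nat_lit 9) (nat_lit 11) (C.cons (nat_lit 2628) (C.miq (nat_lit 709451899) (nat_lit 1953672602848323634155489505)) (C.cons (nat_lit 2624) (C.node (nat_lit 3) (nat_lit 6) (nat_lit 9) (C.cons (nat_lit 876) (C.miq (nat_lit 423261776) (nat_lit 2021345571731695390012541153)) (C.cons (nat_lit 872) (C.miq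 (nat_lit 423261776) (nat_lit 2021345571731695372832671969)) (C.cons (nat_lit 844) (C.miq (nat_lit 2172002371) (nat_lit 853517197773959356499888157)) (C.cons (nat_lit 840) (C.node (nat_lit 1) (nat_lit 4) (nat_lit 9) (C.cons (nat_lit 786) (C.miq (nat_lit 647498305) (nat_lit 1015502540277638982628672659)) (C.cons (nat_lit 534) (C.miq (nat_lit 728318065) (nat_lit 3172231201814755604464534675)) (C.cons (nat_lit 530) (C.node (nat_lit 1) (nat_lit 8) (nat_lit 9) (C.cons (nat_lit 802) (C.node (nat_lit 5) (nat_lit 7) (nat_lit 9) (C.cons (nat_lit 672) (C.node (nat_lit 7) (nat_lit 8) (nat_lit 9) (C.cons (nat_lit 896) (C.node (nat_lit 1) (nat_lit 9) (nat_lit 10) (C.cons (nat_lit 1542) (C.miq (nat_lit 677974090) (nat_lit 1015526133429679533266568339)) (C.cons (nat_lit 1538) (C.node (nat_lit 3) (nat_lit 4) (nat_lit 5) (C.cons (nat_lit 312) (C.miq (nat_lit 1366591843) (nat_lit 1415657890378627724544049992)) (C.cons (nat_lit 58) (C.miq (nat_lit 2236322096) (nat_lit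 2533979372081993049138070027)) (C.cons (nat_lit 56) (C.node (nat_lit 1) (nat_lit 2) (nat_lit 4) (C.cons (nat_lit 118) (C.miq (nat_lit 2271281986) (nat_lit 853506480252240176522594333)) (C.cons (nat_lit 86) (C.miq (nat_lit 2271281986) (nat_lit 853506480252240176520497181)) (C.cons (nat_lit 54)
  (C.miq (nat_lit 2504753440) (nat_lit 2533979372081993031958200583)) C.nil)))) C.nil)))) C.nil))) C.nil)) C.nil)) (C.cons (nat_lit 770) (C.node (nat_lit 2) (nat_lit 3) (nat_lit 9) (C.cons (nat_lit 556) (C.node (nat_lit 2) (nat_lit 6) (nat_lit 9) (C.cons (nat_lit 580) (C.node (nat_lit 5) (nat_lit 6) (nat_lit 9) (C.cons (nat_lit 608) (C.node (nat_lit 2) (nat_lit 3) (nat_lit 7) (C.cons (nat_lit 142) (C.miq (nat_lit 2255553586) (nat_lit 853506480236477577828370461)) (C.cons (nat_lit 140) (C.node (nat_lit 2) (nat_lit 9) (nat_lit 10) (C.cons (nat_lit 1542) (C.miq (nat_lit 2257716385) (nat_lit 701181826965040314861356179)) (C.cons (nat_lit 1540) (C.node (nat_lit 1) (nat_lit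 9) (nat_lit 10) (C.cons (nat_lit 1570) (C.miq (nat_lit 605630629) (nat_lit 640740941370087001242600489)) (C.cons (nat_lit 1538) (C.node (nat_lit 5) (nat_lit 9) (nat_lit 10) C.nil) C.nil))) C.nil))) C.nil))) C.nil)) C.nil)) (C.cons (nat_lit 524) (C.node (nat_lit 3) (nat_lit 5) (nat_lit 9) (C.cons (nat_lit 552) (C.node (nat_lit 2) (nat_lit 4) (nat_lit 9) (C.cons (nat_lit 788) (C.node (nat_lit 2) (nat_lit 4) (nat_lit 7) (C.cons (nat_lit 148) (C.node (nat_lit 2) (nat_lit 4) (nat_lit 10) C.nil) C.nil)) (C.cons (nat_lit 532) (C.node (nat_lit 4) (nat_lit 8) (nat_lit 9) C.nil) C.nil))) C.nil)) C.nil))) C.nil))) C.nil)))) (C.cons (nat_lit 620) (C.miq (nat_lit 423261776) (nat_lit 2021345571731694290500913377)) (C.cons (nat_lit 616) (C.miq (nat_lit 423261776) (nat_lit 2021345571731694273321044193)) (C.cons (nat_lit 588) (C.miq (nat_lit 2302020212) (nat_lit 710854599567307361591231635)) (C.cons (nat_lit 584) (C.miq (nat_lit 2302020212) (nat_lit 706018896288848844892406931))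 C.nil))))))))) C.nil))) (C.cons (nat_lit 704) (C.node (nat_lit 7) (nat_lit 8) (nat_lit 9) (C.cons (nat_lit 930) (C.miq (nat_lit 611388312) (nat_lit 1415656986847057289473560321)) (C.cons (nat_lit 928) (C.node (nat_lit 1) (nat_lit 7) (nat_lit 9) (C.cons (nat_lit 642) (C.node (nat_lit 4) (nat_lit 5) (nat_lit 7) (C.cons (nat_lit 180) (C.miq (nat_lit 2236323616) (nat_lit 2533979372117459420189622917)) (C.cons (nat_lit 176) (C.node (nat_lit 2) (nat_lit 4) (nat_lit 7) (C.cons (nat_lit 404) (C.node (nat_lit 7) (nat_lit 8) (nat_lit 10) (C.cons (nat_lit 1408) (C.node (nat_lit 2) (nat_lit 4) (nat_lit 9) (C.cons (nat_lit 534) (C.miq (nat_lit 1955824144) (nat_lit 647991488997580389634212103)) (C.cons (nat_lit 532) (C.node (nat_lit 6) (nat_lit 7) (nat_lit 8) (C.cons (nat_lit 450) (C.miq (nat_lit 372279106) (nat_lit 88256436452223982734475668)) (C.cons (nat_lit 448) (C.node (nat_lit 3) (nat_lit 4) (nat_lit 8) (C.cons (nat_lit 314) (C.miq (nat_lit 410596384) (nat_lit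 1121892808337911302119032861)) (C.cons (nat_lit 312) (C.miq (nat_lit 693372803) (nat_lit 678245698872803407477342601)) (C.cons (nat_lit 282) (C.miq (nat_lit 410596384) (nat_lit 1121892808328904102864291869)) C.nil)))) C.nil))) C.nil))) C.nil)) (C.cons (nat_lit 148) (C.node (nat_lit 4) (nat_lit 7) (nat_lit 8) (C.cons (nat_lit 400) (C.node (nat_lit 5) (nat_lit 7) (nat_lit 10) (C.cons (nat_lit 1188) (C.node (nat_lit 7) (nat_lit 8) (nat_lit 10) (C.cons (nat_lit 1408) (C.node (nat_lit 2) (nat_lit 3) (nat_lit 7) (C.cons (nat_lit 142) (C.miq (nat_lit 2322729265) (nat_lit 1436208726277023411903267339)) C.nil)) C.nil)) (C.cons (nat_lit 1184) (C.node (nat_lit 2) (nat_lit 7) (nat_lit 10) (C.cons (nat_lit 1412) (C.node (nat_lit 2) (nat_lit 6) (nat_lit 7) (C.cons (nat_lit 198) (C.miq (nat_lit 924949120) (nat_lit 239376960401479352258596609)) C.nil)) C.nil)) C.nil))) C.nil)) C.nil))) C.nil))) C.nil)) (C.cons (nat_lit 898) (C.miq (nat_lit 611388312) (nat_lit 1415656986847057289471463169))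 (C.cons (nat_lit 896) (C.node (nat_lit 1) (nat_lit 7) (nat_lit 9) (C.cons (nat_lit 674) (C.node (nat_lit 5) (nat_lit 9) (nat_lit 11) (C.cons (nat_lit 2596) (C.miq (nat_lit 364149024) (nat_lit 2533930119239298348243288709)) (C.cons (nat_lit 2592) (C.node (nat_lit 1) (nat_lit 3) (nat_lit 7) (C.cons (nat_lit 142) (C.node (nat_lit 3) (nat_lit 5) (nat_lit 7) (C.cons (nat_lit 168)
  (C.node (nat_lit 1) (nat_lit 6) (nat_lit 7) (C.cons (nat_lit 450) (C.node (nat_lit 1) (nat_lit 7) (nat_lit 11) (C.cons (nat_lit 2178) (C.node (nat_lit 2) (nat_lit 6) (nat_lit 7) (C.cons (nat_lit 196) (C.node (nat_lit 1) (nat_lit 8) (nat_lit 9) (C.cons (nat_lit 786) (C.node (nat_lit 2) (nat_lit 4) (nat_lit 9) (C.cons (nat_lit 532) (C.node (nat_lit 2) (nat_lit 4) (nat_lit 7) (C.cons (nat_lit 436) (C.miq (nat_lit 2804454160) (nat_lit 527162511766592209522459147)) (C.cons (nat_lit 148) (C.miq (nat_lit 1462014256) (nat_lit 178931370116105213239427595)) C.nil))) C.nil)) (C.cons (nat_lit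 770) (C.miq (nat_lit 1209599605) (nat_lit 930883229821548815513159905)) C.nil))) C.nil)) C.nil)) (C.cons (nat_lit 194) (C.miq (nat_lit 2255553586) (nat_lit 234536460593787440378808349)) C.nil))) C.nil)) (C.cons (nat_lit 138) (C.node (nat_lit 1) (nat_lit 9) (nat_lit 10) (C.cons (nat_lit 1542) (C.node (nat_lit 2) (nat_lit 7) (nat_lit 10) (C.cons (nat_lit 1444) (C.miq (nat_lit 557285530) (nat_lit 166858400279291427954364161)) (C.cons (nat_lit 1412) (C.miq (nat_lit 557285530) (nat_lit 166857809983481069248712449)) (C.cons (nat_lit 1188) (C.miq (nat_lit 2275541905) (nat_lit 1436208725306497692296675851)) (C.cons (nat_lit 1156) (C.miq (nat_lit 2275541905) (nat_lit 1397523099078829558706078219)) C.nil))))) (C.cons (nat_lit 1538) (C.node (nat_lit 1) (nat_lit 4) (nat_lit 9) (C.cons (nat_lit 786) (C.miq (nat_lit 563742790) (nat_lit 1859348072932603530063118673)) (C.cons (nat_lit 534) (C.miq (nat_lit 727269489) (nat_lit 3133545575587087470871839891)) (C.cons (nat_lit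 530) (C.node (nat_lit 1) (nat_lit 8) (nat_lit 9) (C.cons (nat_lit 834) (C.miq (nat_lit 914977802) (nat_lit 1008274976575492016700458131)) (C.cons (nat_lit 770) (C.node (nat_lit 3) (nat_lit 6) (nat_lit 9) (C.cons (nat_lit 876) (C.miq (nat_lit 561217705) (nat_lit 166847922528660344067854081)) (C.cons (nat_lit 872) (C.miq (nat_lit 1100482390) (nat_lit 930879097985627397235935457)) (C.cons (nat_lit 844) (C.miq (nat_lit 561217705) (nat_lit 166847332232849985362202369)) (C.cons (nat_lit 840) (C.node (nat_lit 5) (nat_lit 6) (nat_lit 9) (C.cons (nat_lit 612) (C.miq (nat_lit 706306165) (nat_lit 1859339200282329959939311841)) (C.cons (nat_lit 608) (C.node (nat_lit 2) (nat_lit 3) (nat_lit 9) (C.cons (nat_lit 556) (C.node (nat_lit 2) (nat_lit 9) (nat_lit 10) C.nil) C.nil)) C.nil))) (C.cons (nat_lit 620) (C.miq (nat_lit 706306165) (nat_lit 1859339347856282549615724769)) (C.cons (nat_lit 616) (C.miq (nat_lit 2302020212) (nat_lit 744704522516516978483004563)) (C.cons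 (nat_lit 588) (C.miq (nat_lit 2302020212) (nat_lit 710854599567307361591231635)) (C.cons (nat_lit 584) (C.miq (nat_lit 2302020212) (nat_lit 706018896288848844892406931)) C.nil))))))))) C.nil))) C.nil)))) C.nil))) C.nil))) C.nil))) (C.cons (nat_lit 642) (C.node (nat_lit 5) (nat_lit 7) (nat_lit 9) (C.cons (nat_lit 672) (C.node (nat_lit 6) (nat_lit 9) (nat_lit 11) (C.cons (nat_lit 2630) (C.miq (nat_lit 709451899) (nat_lit 1953672639741811781574592737)) (C.cons (nat_lit 2628) (C.miq (nat_lit 709451899) (nat_lit 1953672602848323634155489505)) (C.cons (nat_lit 2626) (C.node (nat_lit 2) (nat_lit 6) (nat_lit 11) (C.cons (nat_lit 2372) (C.node (nat_lit 2) (nat_lit 6) (nat_lit 7) (C.cons (nat_lit 198) (C.miq (nat_lit 2820737895) (nat_lit 317969092777113360053700833)) (C.cons (nat_lit 196) (C.node (nat_lit 1) (nat_lit 6) (nat_lit 7) (C.cons (nat_lit 450) (C.miq (nat_lit 1115753319) (nat_lit 317969092280591501152618721)) (C.cons (nat_lit 194) (C.node (nat_lit 6)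 (nat_lit 7) (nat_lit 8) (C.cons (nat_lit 448) (C.node (nat_lit 2) (nat_lit 7) (nat_lit 11) (C.cons (nat_lit 2182) (C.miq (nat_lit 1093142454) (nat_lit 317953707441016882568890593)) (C.cons (nat_lit 2180) (C.node (nat_lit 1) (nat_lit 7) (nat_lit 11) C.nil) C.nil))) C.nil)) C.nil))) C.nil))) (C.cons (nat_lit 2116) (C.node (nat_lit 6) (nat_lit 8) (nat_lit 11) (C.cons (nat_lit 2376) (C.miq (nat_lit 2202711664) (nat_lit 1267025113568903965934029025)) (C.cons (nat_lit 2368)
  (C.node (nat_lit 2) (nat_lit 9) (nat_lit 11) (C.cons (nat_lit 2596) (C.node (nat_lit 2) (nat_lit 4) (nat_lit 9) (C.cons (nat_lit 788) (C.miq (nat_lit 2259828825) (nat_lit 2558101570433752246587228721)) (C.cons (nat_lit 534) (C.miq (nat_lit 1494725184) (nat_lit 776172306372582805102331933)) (C.cons (nat_lit 532) (C.node (nat_lit 3) (nat_lit 6) (nat_lit 9) (C.cons (nat_lit 872) (C.miq (nat_lit 2217304245) (nat_lit 643164621690680983641393377)) (C.cons (nat_lit 844) (C.miq (nat_lit 1502065200)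 (nat_lit 1083239464554699946866575389)) (C.cons (nat_lit 584) (C.miq (nat_lit 2302020212) (nat_lit 706018896288848844892406931)) C.nil)))) C.nil)))) (C.cons (nat_lit 2564) (C.node (nat_lit 5) (nat_lit 9) (nat_lit 11) (C.cons (nat_lit 2592) (C.node (nat_lit 3) (nat_lit 6) (nat_lit 11) C.nil) C.nil)) C.nil))) C.nil))) C.nil))) (C.cons (nat_lit 2624) (C.node (nat_lit 1) (nat_lit 4) (nat_lit 9) (C.cons (nat_lit 786) (C.node (nat_lit 2) (nat_lit 4) (nat_lit 9) (C.cons (nat_lit 532) (C.node (nat_lit 1) (nat_lit 6) (nat_lit 7) (C.cons (nat_lit 450) (C.miq (nat_lit 1461257860) (nat_lit 776140725455811836069937489)) (C.cons (nat_lit 198) (C.miq (nat_lit 1093048330) (nat_lit 239397122443360152569843457)) (C.cons (nat_lit 194) (C.node (nat_lit 1) (nat_lit 2) (nat_lit 4) (C.cons (nat_lit 118) (C.miq (nat_lit 2271281986) (nat_lit 234536460609550039073032221)) (C.cons (nat_lit 86) (C.miq (nat_lit 2271281986) (nat_lit 234536460609550039070935069)) (C.cons (nat_lit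 54) (C.miq (nat_lit 1678944640) (nat_lit 65302157005329478200004353)) (C.cons (nat_lit 22) (C.miq (nat_lit 1678944640) (nat_lit 26616530777661344609406721)) C.nil))))) C.nil)))) C.nil)) (C.cons (nat_lit 534) (C.node (nat_lit 4) (nat_lit 8) (nat_lit 9) (C.cons (nat_lit 784) (C.node (nat_lit 2) (nat_lit 9) (nat_lit 11) (C.cons (nat_lit 2596) (C.miq (nat_lit 1494725184) (nat_lit 776172306372582805102331933)) (C.cons (nat_lit 2564) (C.node (nat_lit 1) (nat_lit 4) (nat_lit 6) (C.cons (nat_lit 82) (C.node (nat_lit 2) (nat_lit 4) (nat_lit 6) C.nil) C.nil)) C.nil))) C.nil)) (C.cons (nat_lit 530) (C.node (nat_lit 2) (nat_lit 4) (nat_lit 9) (C.cons (nat_lit 788) (C.node (nat_lit 2) (nat_lit 4) (nat_lit 7) (C.cons (nat_lit 180) (C.miq (nat_lit 2220593776) (nat_lit 2533979372078052923462976133)) (C.cons (nat_lit 148) (C.node (nat_lit 2) (nat_lit 4) (nat_lit 10) (C.cons (nat_lit 1076) (C.node (nat_lit 4) (nat_lit 8) (nat_lit 10) C.nil) C.nil)) C.nil))) (C.cons (nat_lit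 532) (C.node (nat_lit 4) (nat_lit 8) (nat_lit 9) (C.cons (nat_lit 784) (C.node (nat_lit 1) (nat_lit 8) (nat_lit 9) C.nil) C.nil)) C.nil))) C.nil)))) C.nil))))) C.nil)) C.nil))) C.nil))))) C.nil))))) (List.cons (C.node (nat_lit 6) (nat_lit 7) (nat_lit 9) (C.cons (nat_lit 962) (C.miq (nat_lit 611388312) (nat_lit 1415656986847057289475657473)) (C.cons (nat_lit 960) (C.miq (nat_lit 2521532208) (nat_lit 2572664998354134907653783945)) (C.cons (nat_lit 706) (C.node (nat_lit 1) (nat_lit 4) (nat_lit 6) (C.cons (nat_lit 86) (C.miq (nat_lit 2271281986) (nat_lit 853506480252240176520497181)) (C.cons (nat_lit 82) (C.node (nat_lit 2) (nat_lit 4) (nat_lit 6) (C.cons (nat_lit 84) (C.node (nat_lit 4) (nat_lit 6) (nat_lit 9) C.nil) C.nil)) C.nil))) (C.cons (nat_lit 704) (C.node (nat_lit 7) (nat_lit 8) (nat_lit 9) (C.cons (nat_lit 930) (C.miq (nat_lit 611388312) (nat_lit 1415656986847057289473560321)) (C.cons (nat_lit 928) (C.node (nat_lit 1) (nat_lit 7) (nat_lit 9) (C.cons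 (nat_lit 642) (C.node (nat_lit 4) (nat_lit 5) (nat_lit 7) (C.cons (nat_lit 180) (C.miq (nat_lit 2236323616) (nat_lit 2533979372117459420189622917)) (C.cons (nat_lit 176) (C.node (nat_lit 2) (nat_lit 4) (nat_lit 7) (C.cons (nat_lit 148) (C.node (nat_lit 4) (nat_lit 7) (nat_lit 8) C.nil) C.nil)) C.nil))) C.nil)) (C.cons (nat_lit 898) (C.miq (nat_lit 611388312) (nat_lit 1415656986847057289471463169)) (C.cons (nat_lit 896) (C.node (nat_lit 1) (nat_lit 7) (nat_lit 9) (C.cons (nat_lit 674) (C.node (nat_lit 5) (nat_lit 9) (nat_lit 11) (C.cons (nat_lit 2596)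
  (C.miq (nat_lit 364149024) (nat_lit 2533930119239298348243288709)) (C.cons (nat_lit 2592) (C.node (nat_lit 1) (nat_lit 3) (nat_lit 7) (C.cons (nat_lit 142) (C.node (nat_lit 2) (nat_lit 4) (nat_lit 7) (C.cons (nat_lit 436) (C.miq (nat_lit 274933831) (nat_lit 88254204343555762802917812)) (C.cons (nat_lit 148) (C.miq (nat_lit 1462014256) (nat_lit 178931370116105213239427595)) C.nil))) (C.cons (nat_lit 138) (C.node (nat_lit 2) (nat_lit 3) (nat_lit 7) (C.cons (nat_lit 172) (C.node (nat_lit 2) (nat_lit 4) (nat_lit 7) C.nil) (C.cons (nat_lit 140) (C.node (nat_lit 4) (nat_lit 8) (nat_lit 9) C.nil) C.nil))) C.nil))) C.nil))) (C.cons (nat_lit 642) (C.node (nat_lit 5) (nat_lit 7) (nat_lit 9) (C.cons (nat_lit 672) (C.node (nat_lit 4) (nat_lit 8) (nat_lit 9) (C.cons (nat_lit 784) (C.node (nat_lit 3) (nat_lit 9) (nat_lit 10) C.nil) C.nil)) C.nil)) C.nil))) C.nil))))) C.nil))))) List.nil)))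

theorem ok12_250 : okL par12 (nat_lit 253) c12_250 (nat_lit 250) = true := by decide +kernel

noncomputable def c12_253 : List C :=
  (List.cons (C.node (nat_lit 6) (nat_lit 7) (nat_lit 9) (C.cons (nat_lit 962) (C.miq (nat_lit 611388312) (nat_lit 1415656986847057289475657473)) (C.cons (nat_lit 960) (C.miq (nat_lit 2521532208) (nat_lit 2572664998354134907653783945)) (C.cons (nat_lit 706) (C.node (nat_lit 6) (nat_lit 9) (nat_lit 11) (C.cons (nat_lit 2628) (C.miq (nat_lit 709451899) (nat_lit 1876301350392987366974294241)) (C.cons (nat_lit 2624) (C.node (nat_lit 2) (nat_lit 6) (nat_lit 7) (C.cons (nat_lit 452) (C.node (nat_lit 2) (nat_lit 4) (nat_lit 7) (C.cons (nat_lit 180) (C.node (nat_lit 2) (nat_lit 7) (nat_lit 10) (C.cons (nat_lit 1156) (C.node (nat_lit 4) (nat_lit 7) (nat_lit 8) (C.cons (nat_lit 400) (C.node (nat_lit 2) (nat_lit 4) (nat_lit 10) (C.cons (nat_lit 1044) (C.node (nat_lit 2) (nat_lit 4) (nat_lit 8) (C.cons (nat_lit 276) (C.node (nat_lit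 4) (nat_lit 5) (nat_lit 6) C.nil) C.nil)) C.nil)) C.nil)) C.nil)) (C.cons (nat_lit 148) (C.node (nat_lit 2) (nat_lit 6) (nat_lit 11) (C.cons (nat_lit 2118) (C.node (nat_lit 2) (nat_lit 7) (nat_lit 11) (C.cons (nat_lit 2180) (C.node (nat_lit 6) (nat_lit 8) (nat_lit 11) (C.cons (nat_lit 2376) (C.miq (nat_lit 2202711664) (nat_lit 1267025113568903965934029025)) (C.cons (nat_lit 2368) (C.node (nat_lit 4) (nat_lit 5) (nat_lit 7) (C.cons (nat_lit 176) (C.node (nat_lit 4) (nat_lit 7) (nat_lit 8) C.nil) C.nil)) C.nil))) C.nil)) (C.cons (nat_lit 2116) (C.node (nat_lit 2) (nat_lit 7) (nat_lit 10) (C.cons (nat_lit 1188) (C.node (nat_lit 7) (nat_lit 8) (nat_lit 10) (C.cons (nat_lit 1408) (C.node (nat_lit 2) (nat_lit 3) (nat_lit 7) (C.cons (nat_lit 142) (C.miq (nat_lit 2255553586) (nat_lit 853506480236477577828370461)) (C.cons (nat_lit 140) (C.node (nat_lit 2) (nat_lit 4) (nat_lit 10) (C.cons (nat_lit 1300) (C.miq (nat_lit 1384544832) (nat_lit 546476400249489784589845651))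 (C.cons (nat_lit 1044) (C.node (nat_lit 4) (nat_lit 5) (nat_lit 7) (C.cons (nat_lit 432) (C.miq (nat_lit 1482847242) (nat_lit 546456385319370591329125523)) C.nil)) C.nil))) C.nil))) C.nil)) (C.cons (nat_lit 1156) (C.node (nat_lit 2) (nat_lit 7) (nat_lit 11) (C.cons (nat_lit 2182) (C.node (nat_lit 7) (nat_lit 8) (nat_lit 11) (C.cons (nat_lit 2432) (C.node (nat_lit 4) (nat_lit 5) (nat_lit 7) C.nil) C.nil)) (C.cons (nat_lit 2180) (C.node (nat_lit 1) (nat_lit 7) (nat_lit 11) (C.cons (nat_lit 2434) (C.node (nat_lit 4) (nat_lit 5) (nat_lit 7) C.nil) C.nil)) C.nil))) C.nil))) C.nil))) C.nil))) (C.cons (nat_lit 196) (C.node (nat_lit 6) (nat_lit 7) (nat_lit 8) (C.cons (nat_lit 448) (C.node (nat_lit 4) (nat_lit 6) (nat_lit 9) (C.cons (nat_lit 596) (C.node (nat_lit 1) (nat_lit 2) (nat_lit 4) (C.cons (nat_lit 54) (C.node (nat_lit 1) (nat_lit 4) (nat_lit 6) C.nil) (C.cons (nat_lit 22) (C.node (nat_lit 1) (nat_lit 4) (nat_lit 6) (C.cons (nat_lit 114) (C.node (nat_lit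 1) (nat_lit 2) (nat_lit 6) C.nil) (C.cons (nat_lit 82) (C.node (nat_lit 4) (nat_lit 5) (nat_lit 6) C.nil) C.nil))) C.nil))) (C.cons (nat_lit 592) (C.node (nat_lit 5) (nat_lit 7) (nat_lit 9) (C.cons (nat_lit 928) (C.node (nat_lit 4) (nat_lit 5) (nat_lit 7) (C.cons (nat_lit 180) (C.miq (nat_lit 2236323616) (nat_lit 2533979372117459420189622917)) (C.cons (nat_lit 176) (C.node (nat_lit 2) (nat_lit 4) (nat_lit 7) (C.cons (nat_lit 404) (C.node (nat_lit 7) (nat_lit 8) (nat_lit 10) C.nil) C.nil)) C.nil))) (C.cons (nat_lit 672) (C.node (nat_lit 7) (nat_lit 8) (nat_lit 9) (C.cons (nat_lit 896) (C.node (nat_lit 1) (nat_lit 4) (nat_lit 9) (C.cons (nat_lit 530) (C.node (nat_lit 2) (nat_lit 4) (nat_lit 9) C.nil) C.nil)) C.nil)) C.nil))) C.nil))) C.nil)) C.nil))) C.nil))) (C.cons (nat_lit 704) (C.node (nat_lit 7) (nat_lit 8) (nat_lit 9) (C.cons (nat_lit 930) (C.miq (nat_lit 611388312) (nat_lit 1415656986847057289473560321)) (C.cons (nat_lit 928) (C.node (nat_lit 1)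 (nat_lit 7) (nat_lit 9) (C.cons (nat_lit 642) (C.node (nat_lit 4) (nat_lit 5) (nat_lit 7) (C.cons (nat_lit 180) (C.miq (nat_lit 2236323616) (nat_lit 2533979372117459420189622917)) (C.cons (nat_lit 176) (C.node (nat_lit 2) (nat_lit 4) (nat_lit 7)
  (C.cons (nat_lit 404) (C.node (nat_lit 7) (nat_lit 8) (nat_lit 10) C.nil) (C.cons (nat_lit 148) (C.node (nat_lit 4) (nat_lit 7) (nat_lit 8) C.nil) C.nil))) C.nil))) C.nil)) (C.cons (nat_lit 898) (C.miq (nat_lit 611388312) (nat_lit 1415656986847057289471463169)) (C.cons (nat_lit 896) (C.node (nat_lit 1) (nat_lit 7) (nat_lit 9) (C.cons (nat_lit 674) (C.node (nat_lit 5) (nat_lit 9) (nat_lit 11) (C.cons (nat_lit 2596) (C.miq (nat_lit 364149024) (nat_lit 2533930119239298348243288709)) (C.cons (nat_lit 2592) (C.node (nat_lit 1) (nat_lit 3) (nat_lit 7) (C.cons (nat_lit 142) (C.node (nat_lit 3) (nat_lit 5) (nat_lit 7) (C.cons (nat_lit 168) (C.node (nat_lit 1) (nat_lit 6) (nat_lit 7) (C.cons (nat_lit 450) (C.node (nat_lit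 1) (nat_lit 7) (nat_lit 11) (C.cons (nat_lit 2178) (C.node (nat_lit 2) (nat_lit 6) (nat_lit 7) C.nil) C.nil)) (C.cons (nat_lit 194) (C.miq (nat_lit 2255553586) (nat_lit 234536460593787440378808349)) C.nil))) C.nil)) (C.cons (nat_lit 138) (C.node (nat_lit 2) (nat_lit 3) (nat_lit 7) (C.cons (nat_lit 172) (C.node (nat_lit 3) (nat_lit 5) (nat_lit 11) (C.cons (nat_lit 2346) (C.miq (nat_lit 588843863) (nat_lit 632280102393012203697604833)) (C.cons (nat_lit 2344) (C.miq (nat_lit 2239345440) (nat_lit 814886857024025266326145053)) (C.cons (nat_lit 2090) (C.miq (nat_lit 588843863) (nat_lit 632280102393011104185977057)) (C.cons (nat_lit 2088) (C.node (nat_lit 2) (nat_lit 4) (nat_lit 7) (C.cons (nat_lit 404) (C.node (nat_lit 4) (nat_lit 5) (nat_lit 7) C.nil) (C.cons (nat_lit 148) (C.node (nat_lit 4) (nat_lit 5) (nat_lit 7) C.nil) C.nil))) C.nil))))) (C.cons (nat_lit 140) (C.node (nat_lit 3) (nat_lit 5) (nat_lit 7) (C.cons (nat_lit 168) (C.node (nat_lit 1) (nat_lit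 2) (nat_lit 7) (C.cons (nat_lit 134) (C.node (nat_lit 1) (nat_lit 6) (nat_lit 7) C.nil) C.nil)) C.nil)) C.nil))) C.nil))) C.nil))) (C.cons (nat_lit 642) (C.node (nat_lit 5) (nat_lit 7) (nat_lit 9) (C.cons (nat_lit 672) (C.node (nat_lit 6) (nat_lit 9) (nat_lit 11) (C.cons (nat_lit 2630) (C.miq (nat_lit 709451899) (nat_lit 1876301387286475514393397473)) (C.cons (nat_lit 2628) (C.miq (nat_lit 709451899) (nat_lit 1876301350392987366974294241)) (C.cons (nat_lit 2626) (C.node (nat_lit 2) (nat_lit 6) (nat_lit 11) (C.cons (nat_lit 2372) (C.node (nat_lit 2) (nat_lit 6) (nat_lit 7) (C.cons (nat_lit 198) (C.miq (nat_lit 2820737895) (nat_lit 317969092777113360053700833)) (C.cons (nat_lit 196) (C.node (nat_lit 1) (nat_lit 6) (nat_lit 7) (C.cons (nat_lit 450) (C.miq (nat_lit 1115753319) (nat_lit 317969092280591501152618721)) (C.cons (nat_lit 194) (C.node (nat_lit 6) (nat_lit 7) (nat_lit 8) C.nil) C.nil))) C.nil))) (C.cons (nat_lit 2116) (C.node (nat_lit 6) (nat_lit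 8) (nat_lit 11) (C.cons (nat_lit 2376) (C.miq (nat_lit 2202711664) (nat_lit 1267025113568903965934029025)) (C.cons (nat_lit 2368) (C.node (nat_lit 2) (nat_lit 9) (nat_lit 11) C.nil) C.nil))) C.nil))) (C.cons (nat_lit 2624) (C.node (nat_lit 1) (nat_lit 6) (nat_lit 7) (C.cons (nat_lit 450) (C.node (nat_lit 2) (nat_lit 6) (nat_lit 7) (C.cons (nat_lit 196) (C.node (nat_lit 1) (nat_lit 8) (nat_lit 9) C.nil) C.nil)) (C.cons (nat_lit 198) (C.node (nat_lit 6) (nat_lit 7) (nat_lit 8) (C.cons (nat_lit 448) (C.node (nat_lit 3) (nat_lit 9) (nat_lit 10) C.nil) C.nil)) (C.cons (nat_lit 194) (C.node (nat_lit 2) (nat_lit 6) (nat_lit 7) (C.cons (nat_lit 452) (C.node (nat_lit 3) (nat_lit 9) (nat_lit 10) C.nil) (C.cons (nat_lit 196) (C.node (nat_lit 6) (nat_lit 7) (nat_lit 8) C.nil) C.nil))) C.nil)))) C.nil))))) C.nil)) C.nil))) C.nil))))) C.nil))))) List.nil)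

theorem ok12_253 : okL par12 (nat_lit 254) c12_253 (nat_lit 253) = true := by decide +kernel

noncomputable def c12_254 : List C :=
  (List.cons (C.node (nat_lit 7) (nat_lit 10) (nat_lit 11) (C.cons (nat_lit 3204) (C.node (nat_lit 1) (nat_lit 7) (nat_lit 11) (C.cons (nat_lit 2434) (C.node (nat_lit 6) (nat_lit 8) (nat_lit 11) (C.cons (nat_lit 2376) (C.miq (nat_lit 2202711664) (nat_lit 1267025113568903965934029025)) (C.cons (nat_lit 2372) (C.miq (nat_lit 642234378) (nat_lit 261187081072432159378312961)) (C.cons (nat_lit 2368) (C.node (nat_lit 2) (nat_lit 8) (nat_lit 11) (C.cons (nat_lit 2340) (C.node (nat_lit 3) (nat_lit 8) (nat_lit 11) (C.cons (nat_lit 2312) (C.node (nat_lit 5) (nat_lit 10) (nat_lit 11) (C.cons (nat_lit 3106) (C.miq (nat_lit 1535353200) (nat_lit 2795056141605732884232602771)) (C.cons (nat_lit 3104) (C.node (nat_lit 1) (nat_lit 3) (nat_lit 7) (C.cons (nat_lit 174) (C.miq (nat_lit 2820737879) (nat_lit 317969092777113222613174497)) (C.cons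 (nat_lit 170) (C.miq (nat_lit 363557640) (nat_lit 3752550643506739687769309577)) (C.cons (nat_lit 142) (C.miq (nat_lit 1729643296) (nat_lit 2942531661555559456225822749)) (C.cons (nat_lit 138) (C.node (nat_lit 1) (nat_lit 2) (nat_lit 7) (C.cons (nat_lit 198) (C.miq (nat_lit 2819754870) (nat_lit 317967653931075876996647137)) (C.cons (nat_lit 166) (C.miq (nat_lit 2820737879) (nat_lit 317969092777113222612650209)) (C.cons (nat_lit 134) (C.node (nat_lit 1) (nat_lit 5) (nat_lit 7) (C.cons (nat_lit 674) (C.node (nat_lit 1) (nat_lit 6) (nat_lit 7) (C.cons (nat_lit 194) (C.node (nat_lit 5) (nat_lit 9) (nat_lit 11) (C.cons (nat_lit 2592) (C.node (nat_lit 1) (nat_lit 5) (nat_lit 11) (C.cons (nat_lit 2090) (C.miq (nat_lit 588843863) (nat_lit 632280102393011104185977057)) C.nil)) C.nil)) C.nil)) (C.cons (nat_lit 162) (C.node (nat_lit 1) (nat_lit 6) (nat_lit 7) (C.cons (nat_lit 706) (C.node (nat_lit 6) (nat_lit 9) (nat_lit 11) (C.cons (nat_lit 2628) (C.miq (nat_lit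 2811626674) (nat_lit 853521791268819573374453789)) (C.cons (nat_lit 2624) (C.node (nat_lit 2) (nat_lit 6) (nat_lit 11) (C.cons (nat_lit 2118) (C.node (nat_lit 2) (nat_lit 9) (nat_lit 11) C.nil) C.nil)) C.nil))) (C.cons (nat_lit 194) (C.node (nat_lit 1) (nat_lit 7) (nat_lit 9) (C.cons (nat_lit 642) (C.node (nat_lit 6) (nat_lit 7) (nat_lit 9) (C.cons (nat_lit 960) (C.miq (nat_lit 2521532208) (nat_lit 2572664998354134907653783945)) (C.cons (nat_lit 704) (C.node (nat_lit 2) (nat_lit 3) (nat_lit 7) (C.cons (nat_lit 172) (C.node (nat_lit 7) (nat_lit 8) (nat_lit 9) (C.cons (nat_lit 928) (C.miq (nat_lit 998580375) (nat_lit 2828889591322852970513564293)) (C.cons (nat_lit 896) (C.node (nat_lit 5) (nat_lit 7) (nat_lit 9) (C.cons (nat_lit 1696) (C.miq (nat_lit 1114966953) (nat_lit 207945590181778856922320641)) C.nil)) C.nil))) (C.cons (nat_lit 140) (C.node (nat_lit 2) (nat_lit 5) (nat_lit 7) (C.cons (nat_lit 180) (C.miq (nat_lit 2602895988) (nat_lit 2828896767602816766503552147))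 C.nil)) C.nil))) C.nil))) C.nil)) C.nil))) C.nil))) C.nil)))) C.nil))))) C.nil))) C.nil)) (C.cons (nat_lit 2308) (C.node (nat_lit 3) (nat_lit 7) (nat_lit 10) (C.cons (nat_lit 1672) (C.node (nat_lit 3) (nat_lit 8) (nat_lit 11) (C.cons (nat_lit 2344) (C.node (nat_lit 1) (nat_lit 3) (nat_lit 8) (C.cons (nat_lit 1354) (C.miq (nat_lit 2473109312) (nat_lit 1636956414172822109735158931)) (C.cons (nat_lit 1290) (C.miq (nat_lit 2189037715) (nat_lit 3873422122419157650318557707)) (C.cons (nat_lit 330) (C.miq (nat_lit 2709718965) (nat_lit 398965166584883780157704417)) (C.cons (nat_lit 282) (C.miq (nat_lit 2709718965) (nat_lit 340936727243381579771807969)) (C.cons (nat_lit 266) (C.miq (nat_lit 2709718965) (nat_lit 321593914129547512976509153)) C.nil)))))) (C.cons (nat_lit 2312) (C.node (nat_lit 5) (nat_lit 8) (nat_lit 11) (C.cons (nat_lit 2336) (C.node (nat_lit 5) (nat_lit 10) (nat_lit 11) (C.cons (nat_lit 3106) (C.miq (nat_lit 1535353200) (nat_lit 2795056141605732884232602771))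 C.nil)) C.nil)) C.nil))) (C.cons (nat_lit 1160) (C.node (nat_lit 7) (nat_lit 9) (nat_lit 10) (C.cons (nat_lit 1696) (C.miq (nat_lit 1397203129) (nat_lit 261159263014488684157210369)) (C.cons (nat_lit 1664)
  (C.node (nat_lit 3) (nat_lit 7) (nat_lit 9) (C.cons (nat_lit 680) (C.node (nat_lit 1) (nat_lit 3) (nat_lit 7) (C.cons (nat_lit 142) (C.miq (nat_lit 1729643296) (nat_lit 2942531661555559456225822749)) (C.cons (nat_lit 138) (C.node (nat_lit 2) (nat_lit 3) (nat_lit 7) (C.cons (nat_lit 140) (C.node (nat_lit 5) (nat_lit 10) (nat_lit 11) (C.cons (nat_lit 3106) (C.miq (nat_lit 1366535040) (nat_lit 166851409763529058421378817)) (C.cons (nat_lit 3104) (C.node (nat_lit 3) (nat_lit 8) (nat_lit 11) (C.cons (nat_lit 2344) (C.miq (nat_lit 458913840) (nat_lit 3752527345906239432959787401)) (C.cons (nat_lit 2312) (C.node (nat_lit 5) (nat_lit 8) (nat_lit 11) C.nil) C.nil))) C.nil))) C.nil)) C.nil))) (C.cons (nat_lit 648) (C.node (nat_lit 3) (nat_lit 8) (nat_lit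 11) (C.cons (nat_lit 2344) (C.node (nat_lit 3) (nat_lit 4) (nat_lit 8) (C.cons (nat_lit 282) (C.miq (nat_lit 2709718965) (nat_lit 340936727243381579771807969)) (C.cons (nat_lit 280) (C.node (nat_lit 5) (nat_lit 7) (nat_lit 10) (C.cons (nat_lit 1440) (C.miq (nat_lit 1464044043) (nat_lit 261171216610197672931692289)) (C.cons (nat_lit 1184) (C.node (nat_lit 7) (nat_lit 8) (nat_lit 10) (C.cons (nat_lit 1408) (C.node (nat_lit 5) (nat_lit 10) (nat_lit 11) (C.cons (nat_lit 3106) (C.node (nat_lit 1) (nat_lit 3) (nat_lit 4) (C.cons (nat_lit 58) (C.miq (nat_lit 1934721195) (nat_lit 70162597023348141372608257)) (C.cons (nat_lit 26) (C.node (nat_lit 3) (nat_lit 4) (nat_lit 5) (C.cons (nat_lit 56) (C.node (nat_lit 1) (nat_lit 3) (nat_lit 11) C.nil) C.nil)) C.nil))) (C.cons (nat_lit 3104) (C.miq (nat_lit 458913840) (nat_lit 3752527345906239432959787401)) C.nil))) C.nil)) C.nil))) C.nil))) (C.cons (nat_lit 2312) (C.node (nat_lit 5) (nat_lit 8) (nat_lit 11) (C.cons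 (nat_lit 2336) (C.node (nat_lit 5) (nat_lit 10) (nat_lit 11) (C.cons (nat_lit 3106) (C.miq (nat_lit 1535353200) (nat_lit 2795056141605732884232602771)) C.nil)) C.nil)) C.nil))) C.nil))) C.nil))) C.nil))) C.nil))) C.nil)))) (C.cons (nat_lit 2178) (C.node (nat_lit 7) (nat_lit 8) (nat_lit 11) (C.cons (nat_lit 2432) (C.node (nat_lit 3) (nat_lit 7) (nat_lit 10) (C.cons (nat_lit 1672) (C.node (nat_lit 5) (nat_lit 7) (nat_lit 10) (C.cons (nat_lit 1440) (C.node (nat_lit 4) (nat_lit 5) (nat_lit 7) (C.cons (nat_lit 180) (C.miq (nat_lit 2591361828) (nat_lit 1740863529949650509267994653)) (C.cons (nat_lit 176) (C.node (nat_lit 4) (nat_lit 8) (nat_lit 10) (C.cons (nat_lit 1300) (C.miq (nat_lit 610773003) (nat_lit 261187080770690984416710401)) (C.cons (nat_lit 1296) (C.node (nat_lit 2) (nat_lit 8) (nat_lit 10) (C.cons (nat_lit 1292) (C.miq (nat_lit 1512798256) (nat_lit 3873440255899880933266620809)) (C.cons (nat_lit 1284) (C.node (nat_lit 2) (nat_lit 8) (nat_lit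 11) (C.cons (nat_lit 2372) (C.miq (nat_lit 642234378) (nat_lit 261187081072432159378312961)) (C.cons (nat_lit 2340) (C.miq (nat_lit 628406432) (nat_lit 212809258798273459819581185)) (C.cons (nat_lit 2308) (C.node (nat_lit 1) (nat_lit 3) (nat_lit 7) (C.cons (nat_lit 174) (C.miq (nat_lit 2591099683) (nat_lit 1415661783497040460308678685)) (C.cons (nat_lit 170) (C.miq (nat_lit 277166503) (nat_lit 349382697962348271997290120)) (C.cons (nat_lit 142) (C.miq (nat_lit 2591099683) (nat_lit 1415661783497040460306581533)) (C.cons (nat_lit 138) (C.node (nat_lit 2) (nat_lit 3) (nat_lit 7) (C.cons (nat_lit 172) (C.miq (nat_lit 1387950856) (nat_lit 3873424889405160634405945737)) (C.cons (nat_lit 140) (C.node (nat_lit 3) (nat_lit 5) (nat_lit 7) (C.cons (nat_lit 168) (C.node (nat_lit 1) (nat_lit 7) (nat_lit 8) (C.cons (nat_lit 962) (C.miq (nat_lit 611388312) (nat_lit 1415656986847057289475657473)) (C.cons (nat_lit 898) (C.miq (nat_lit 611388312) (nat_lit 1415656986847057289471463169))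 (C.cons (nat_lit 450) (C.miq (nat_lit 389187136) (nat_lit 169254466366404137439789393)) (C.cons (nat_lit 386) (C.node (nat_lit 7) (nat_lit 8) (nat_lit 9) (C.cons (nat_lit 960) (C.miq (nat_lit 914977802) (nat_lit 1160599629846935292713436307)) (C.cons (nat_lit 896)
  (C.node (nat_lit 5) (nat_lit 10) (nat_lit 11) C.nil) C.nil))) C.nil))))) C.nil)) C.nil))) C.nil))))) C.nil)))) C.nil))) C.nil))) C.nil))) (C.cons (nat_lit 1184) (C.node (nat_lit 7) (nat_lit 8) (nat_lit 10) (C.cons (nat_lit 1408) (C.node (nat_lit 5) (nat_lit 10) (nat_lit 11) (C.cons (nat_lit 3106) (C.node (nat_lit 3) (nat_lit 5) (nat_lit 11) (C.cons (nat_lit 2344) (C.miq (nat_lit 461874480) (nat_lit 2940129195314359811862758441)) (C.cons (nat_lit 2088) (C.node (nat_lit 5) (nat_lit 9) (nat_lit 11) (C.cons (nat_lit 2596) (C.miq (nat_lit 1537512048) (nat_lit 3733173280324123043243950725)) (C.cons (nat_lit 2592) (C.node (nat_lit 2) (nat_lit 5) (nat_lit 11) (C.cons (nat_lit 2340) (C.node (nat_lit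 3) (nat_lit 10) (nat_lit 11) (C.cons (nat_lit 3144) (C.node (nat_lit 1) (nat_lit 3) (nat_lit 11) C.nil) C.nil)) C.nil)) C.nil))) C.nil))) (C.cons (nat_lit 3104) (C.node (nat_lit 2) (nat_lit 8) (nat_lit 11) (C.cons (nat_lit 2372) (C.miq (nat_lit 642234378) (nat_lit 261187081072432159378312961)) (C.cons (nat_lit 2340) (C.node (nat_lit 3) (nat_lit 5) (nat_lit 11) (C.cons (nat_lit 2090) (C.node (nat_lit 5) (nat_lit 9) (nat_lit 11) (C.cons (nat_lit 2592) (C.node (nat_lit 3) (nat_lit 8) (nat_lit 11) (C.cons (nat_lit 2376) (C.miq (nat_lit 2202711664) (nat_lit 1267025113568903965934029025)) C.nil)) C.nil)) (C.cons (nat_lit 2088) (C.node (nat_lit 1) (nat_lit 5) (nat_lit 11) (C.cons (nat_lit 2594) (C.node (nat_lit 2) (nat_lit 9) (nat_lit 11) (C.cons (nat_lit 2628) (C.miq (nat_lit 1786323019) (nat_lit 2021372448746742867939035165)) C.nil)) C.nil)) C.nil))) (C.cons (nat_lit 2308) (C.node (nat_lit 4) (nat_lit 9) (nat_lit 10) (C.cons (nat_lit 1616) (C.node (nat_lit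 1) (nat_lit 3) (nat_lit 7) (C.cons (nat_lit 174) (C.miq (nat_lit 2591099683) (nat_lit 1415661783497040460308678685)) (C.cons (nat_lit 170) (C.node (nat_lit 2) (nat_lit 3) (nat_lit 7) (C.cons (nat_lit 140) (C.node (nat_lit 1) (nat_lit 3) (nat_lit 4) (C.cons (nat_lit 282) (C.miq (nat_lit 1350661699) (nat_lit 317950627144934073057280216)) (C.cons (nat_lit 26) (C.node (nat_lit 3) (nat_lit 5) (nat_lit 11) (C.cons (nat_lit 2344) (C.miq (nat_lit 448098435) (nat_lit 3752508880359925183762923913)) (C.cons (nat_lit 2088) (C.node (nat_lit 5) (nat_lit 8) (nat_lit 11) C.nil) C.nil))) C.nil))) C.nil)) (C.cons (nat_lit 142) (C.miq (nat_lit 2591099683) (nat_lit 1415661783497040460306581533)) (C.cons (nat_lit 138) (C.node (nat_lit 2) (nat_lit 3) (nat_lit 7) (C.cons (nat_lit 172) (C.node (nat_lit 2) (nat_lit 3) (nat_lit 9) (C.cons (nat_lit 844) (C.miq (nat_lit 389155480) (nat_lit 207940092797021982630350593)) (C.cons (nat_lit 780) (C.miq (nat_lit 389155480) (nat_lit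 207940092797021982626156289)) (C.cons (nat_lit 588) (C.miq (nat_lit 2302020212) (nat_lit 710854599567307361591231635)) (C.cons (nat_lit 524) (C.node (nat_lit 2) (nat_lit 3) (nat_lit 8) (C.cons (nat_lit 1292) (C.miq (nat_lit 1537372291) (nat_lit 3873401499525061672918843785)) (C.cons (nat_lit 332) (C.miq (nat_lit 2473109312) (nat_lit 401434226526671093185447059)) (C.cons (nat_lit 268) (C.node (nat_lit 3) (nat_lit 6) (nat_lit 9) (C.cons (nat_lit 872) (C.miq (nat_lit 1488075175) (nat_lit 2790203964756007490135787144)) (C.cons (nat_lit 840) (C.node (nat_lit 3) (nat_lit 5) (nat_lit 9) (C.cons (nat_lit 552) (C.node (nat_lit 3) (nat_lit 8) (nat_lit 10) (C.cons (nat_lit 1290) (C.miq (nat_lit 657525160) (nat_lit 166836614782068752969764609)) C.nil)) C.nil)) (C.cons (nat_lit 616) (C.miq (nat_lit 2302020212) (nat_lit 744704522516516978483004563)) (C.cons (nat_lit 584) (C.miq (nat_lit 2302020212) (nat_lit 706018896288848844892406931)) C.nil))))) C.nil)))) C.nil)))))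 (C.cons (nat_lit 140) (C.node (nat_lit 3) (nat_lit 5) (nat_lit 7) (C.cons (nat_lit 168) (C.node (nat_lit 2) (nat_lit 4) (nat_lit 7) (C.cons (nat_lit 436) (C.miq (nat_lit 614102283) (nat_lit 1953683227987978411302783201)) (C.cons (nat_lit 404) (C.node (nat_lit 4) (nat_lit 5) (nat_lit 7) C.nil) (C.cons (nat_lit 180)
  (C.miq (nat_lit 614102283) (nat_lit 1953683227915920817264855265)) C.nil)))) C.nil)) C.nil))) C.nil))))) (C.cons (nat_lit 1556) (C.miq (nat_lit 645177529) (nat_lit 261156680478200505981472513)) (C.cons (nat_lit 1552) (C.node (nat_lit 3) (nat_lit 6) (nat_lit 9) (C.cons (nat_lit 876) (C.miq (nat_lit 1772389232) (nat_lit 1876259088841236580123476361)) (C.cons (nat_lit 872) (C.miq (nat_lit 1772389232) (nat_lit 1876259088840110680216633737)) (C.cons (nat_lit 844) (C.miq (nat_lit 1772389232) (nat_lit 1876259088832229380868735369)) (C.cons (nat_lit 840) (C.miq (nat_lit 1772389232) (nat_lit 1876259088831103480961892745)) (C.cons (nat_lit 620) (C.miq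 (nat_lit 2302020212) (nat_lit 749540225794975495181829267)) (C.cons (nat_lit 616) (C.miq (nat_lit 2302020212) (nat_lit 744704522516516978483004563)) (C.cons (nat_lit 588) (C.miq (nat_lit 2302020212) (nat_lit 710854599567307361591231635)) (C.cons (nat_lit 584) (C.miq (nat_lit 2302020212) (nat_lit 706018896288848844892406931)) C.nil))))))))) C.nil)))) C.nil)))) C.nil))) C.nil)) C.nil))) (C.cons (nat_lit 1160) (C.node (nat_lit 7) (nat_lit 9) (nat_lit 10) (C.cons (nat_lit 1696) (C.miq (nat_lit 1397203129) (nat_lit 261159263014488684157210369)) (C.cons (nat_lit 1664) (C.node (nat_lit 3) (nat_lit 7) (nat_lit 9) (C.cons (nat_lit 680) (C.node (nat_lit 1) (nat_lit 3) (nat_lit 7) (C.cons (nat_lit 142) (C.miq (nat_lit 2591099683) (nat_lit 1415661783497040460306581533)) (C.cons (nat_lit 138) (C.node (nat_lit 2) (nat_lit 3) (nat_lit 7) (C.cons (nat_lit 140) (C.node (nat_lit 7) (nat_lit 8) (nat_lit 9) (C.cons (nat_lit 962) (C.miq (nat_lit 611388312) (nat_lit 1415656986847057289475657473))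 (C.cons (nat_lit 960) (C.miq (nat_lit 2521532208) (nat_lit 2572664998354134907653783945)) (C.cons (nat_lit 898) (C.miq (nat_lit 611388312) (nat_lit 1415656986847057289471463169)) (C.cons (nat_lit 896) (C.node (nat_lit 1) (nat_lit 7) (nat_lit 9) (C.cons (nat_lit 706) (C.node (nat_lit 6) (nat_lit 9) (nat_lit 11) (C.cons (nat_lit 2628) (C.miq (nat_lit 2811626674) (nat_lit 853521791268819573374453789)) (C.cons (nat_lit 2624) (C.node (nat_lit 1) (nat_lit 2) (nat_lit 7) (C.cons (nat_lit 166) (C.node (nat_lit 1) (nat_lit 7) (nat_lit 8) (C.cons (nat_lit 386) (C.node (nat_lit 5) (nat_lit 10) (nat_lit 11) C.nil) C.nil)) (C.cons (nat_lit 134) (C.node (nat_lit 5) (nat_lit 10) (nat_lit 11) C.nil) C.nil))) C.nil))) (C.cons (nat_lit 642) (C.node (nat_lit 6) (nat_lit 7) (nat_lit 9) C.nil) C.nil))) C.nil))))) C.nil)) C.nil))) (C.cons (nat_lit 648) (C.node (nat_lit 5) (nat_lit 7) (nat_lit 10) (C.cons (nat_lit 1440) (C.node (nat_lit 4) (nat_lit 5) (nat_lit 7) (C.cons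 (nat_lit 180) (C.miq (nat_lit 2591361828) (nat_lit 1740863529949650509267994653)) (C.cons (nat_lit 176) (C.node (nat_lit 4) (nat_lit 8) (nat_lit 10) (C.cons (nat_lit 1300) (C.miq (nat_lit 610773003) (nat_lit 261187080770690984416710401)) (C.cons (nat_lit 1296) (C.node (nat_lit 2) (nat_lit 8) (nat_lit 10) (C.cons (nat_lit 1292) (C.miq (nat_lit 1512798256) (nat_lit 3873440255899880933266620809)) (C.cons (nat_lit 1284) (C.node (nat_lit 2) (nat_lit 8) (nat_lit 11) (C.cons (nat_lit 2372) (C.miq (nat_lit 642234378) (nat_lit 261187081072432159378312961)) (C.cons (nat_lit 2340) (C.miq (nat_lit 628406432) (nat_lit 212809258798273459819581185)) (C.cons (nat_lit 2308) (C.node (nat_lit 2) (nat_lit 3) (nat_lit 7) (C.cons (nat_lit 174) (C.miq (nat_lit 2591099683) (nat_lit 1415661783497040460308678685)) (C.cons (nat_lit 172) (C.miq (nat_lit 1387950856) (nat_lit 3873424889405160634405945737)) (C.cons (nat_lit 142) (C.miq (nat_lit 2591099683) (nat_lit 1415661783497040460306581533))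 (C.cons (nat_lit 140) (C.node (nat_lit 1) (nat_lit 7) (nat_lit 8) (C.cons (nat_lit 962) (C.miq (nat_lit 611388312) (nat_lit 1415656986847057289475657473)) (C.cons (nat_lit 898) (C.miq (nat_lit 611388312) (nat_lit 1415656986847057289471463169)) (C.cons (nat_lit 450) (C.miq (nat_lit 389187136) (nat_lit 169254466366404137439789393)) (C.cons (nat_lit 386)
  (C.node (nat_lit 5) (nat_lit 10) (nat_lit 11) C.nil) C.nil))))) C.nil))))) C.nil)))) C.nil))) C.nil))) C.nil))) (C.cons (nat_lit 1184) (C.node (nat_lit 7) (nat_lit 8) (nat_lit 10) (C.cons (nat_lit 1408) (C.node (nat_lit 5) (nat_lit 10) (nat_lit 11) (C.cons (nat_lit 3106) (C.node (nat_lit 3) (nat_lit 5) (nat_lit 11) (C.cons (nat_lit 2344) (C.miq (nat_lit 461874480) (nat_lit 2940129195314359811862758441)) (C.cons (nat_lit 2088) (C.node (nat_lit 5) (nat_lit 9) (nat_lit 11) (C.cons (nat_lit 2596) (C.miq (nat_lit 1537512048) (nat_lit 3733173280324123043243950725)) (C.cons (nat_lit 2592) (C.node (nat_lit 2)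 (nat_lit 5) (nat_lit 11) (C.cons (nat_lit 2340) (C.node (nat_lit 3) (nat_lit 10) (nat_lit 11) (C.cons (nat_lit 3144) (C.node (nat_lit 1) (nat_lit 3) (nat_lit 11) C.nil) C.nil)) C.nil)) C.nil))) C.nil))) (C.cons (nat_lit 3104) (C.node (nat_lit 2) (nat_lit 8) (nat_lit 11) (C.cons (nat_lit 2372) (C.miq (nat_lit 642234378) (nat_lit 261187081072432159378312961)) (C.cons (nat_lit 2340) (C.node (nat_lit 3) (nat_lit 5) (nat_lit 11) (C.cons (nat_lit 2090) (C.node (nat_lit 5) (nat_lit 9) (nat_lit 11) (C.cons (nat_lit 2592) (C.node (nat_lit 3) (nat_lit 8) (nat_lit 11) (C.cons (nat_lit 2376) (C.miq (nat_lit 2202711664) (nat_lit 1267025113568903965934029025)) C.nil)) C.nil)) (C.cons (nat_lit 2088) (C.node (nat_lit 1) (nat_lit 5) (nat_lit 11) (C.cons (nat_lit 2594) (C.node (nat_lit 2) (nat_lit 9) (nat_lit 11) (C.cons (nat_lit 2628) (C.miq (nat_lit 1786323019) (nat_lit 2011701042189825834541385757)) C.nil)) C.nil)) C.nil))) (C.cons (nat_lit 2308) (C.node (nat_lit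 4) (nat_lit 9) (nat_lit 10) (C.cons (nat_lit 1616) (C.node (nat_lit 3) (nat_lit 6) (nat_lit 9) (C.cons (nat_lit 876) (C.miq (nat_lit 967280192) (nat_lit 2011659813655742934907289937)) (C.cons (nat_lit 872) (C.miq (nat_lit 967280192) (nat_lit 2011659813654617035000447313)) (C.cons (nat_lit 844) (C.miq (nat_lit 967280192) (nat_lit 2011659813646735735652548945)) (C.cons (nat_lit 840) (C.miq (nat_lit 967280192) (nat_lit 2011659813645609835745706321)) (C.cons (nat_lit 620) (C.miq (nat_lit 2304969287) (nat_lit 749541258812643382398551187)) (C.cons (nat_lit 616) (C.miq (nat_lit 2304969287) (nat_lit 744705555534184865699726483)) (C.cons (nat_lit 588) (C.miq (nat_lit 2304969287) (nat_lit 710855632584975248807953555)) (C.cons (nat_lit 584) (C.miq (nat_lit 2304969287) (nat_lit 706019929306516732109128851)) C.nil))))))))) (C.cons (nat_lit 1556) (C.miq (nat_lit 645177529) (nat_lit 261156680478200505981472513)) (C.cons (nat_lit 1552) (C.node (nat_lit 4) (nat_lit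 6) (nat_lit 10) (C.cons (nat_lit 1136) (C.node (nat_lit 2) (nat_lit 4) (nat_lit 10) (C.cons (nat_lit 1300) (C.miq (nat_lit 610773003) (nat_lit 261187080770690984416710401)) (C.cons (nat_lit 1044) (C.node (nat_lit 4) (nat_lit 8) (nat_lit 10) (C.cons (nat_lit 1296) (C.node (nat_lit 2) (nat_lit 8) (nat_lit 10) C.nil) C.nil)) C.nil))) (C.cons (nat_lit 1104) (C.node (nat_lit 1) (nat_lit 3) (nat_lit 7) (C.cons (nat_lit 174) (C.miq (nat_lit 2591099683) (nat_lit 1415661783497040460308678685)) (C.cons (nat_lit 170) (C.node (nat_lit 2) (nat_lit 3) (nat_lit 7) C.nil) (C.cons (nat_lit 142) (C.miq (nat_lit 2591099683) (nat_lit 1415661783497040460306581533)) (C.cons (nat_lit 138) (C.node (nat_lit 2) (nat_lit 3) (nat_lit 7) C.nil) C.nil))))) C.nil))) C.nil)))) C.nil)))) C.nil))) C.nil)) C.nil))) C.nil))) C.nil))) C.nil))) C.nil)) C.nil))) (C.cons (nat_lit 3200) (C.node (nat_lit 4) (nat_lit 9) (nat_lit 10) (C.cons (nat_lit 1616) (C.node (nat_lit 7) (nat_lit 9) (nat_lit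 10) (C.cons (nat_lit 1696) (C.miq (nat_lit 1397203129) (nat_lit 261159263014488684157210369)) (C.cons (nat_lit 1672) (C.ref (nat_lit 251) (nat_lit 205163983024656)) (C.cons (nat_lit 1664) (C.node (nat_lit 3) (nat_lit 6) (nat_lit 9) (C.cons (nat_lit 876) (C.miq (nat_lit 967280192) (nat_lit 2011659813655742934907289937)) (C.cons (nat_lit 872) (C.miq (nat_lit 967280192) (nat_lit 2011659813654617035000447313)) (C.cons (nat_lit 844)
  (C.miq (nat_lit 967280192) (nat_lit 2011659813646735735652548945)) (C.cons (nat_lit 840) (C.miq (nat_lit 967280192) (nat_lit 2011659813645609835745706321)) (C.cons (nat_lit 620) (C.miq (nat_lit 2304969287) (nat_lit 749541258812643382398551187)) (C.cons (nat_lit 616) (C.miq (nat_lit 2304969287) (nat_lit 744705555534184865699726483)) (C.cons (nat_lit 588) (C.miq (nat_lit 2304969287) (nat_lit 710855632584975248807953555)) (C.cons (nat_lit 584) (C.miq (nat_lit 2304969287) (nat_lit 706019929306516732109128851)) C.nil))))))))) C.nil))))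 (C.cons (nat_lit 1556) (C.miq (nat_lit 645177529) (nat_lit 261156680478200505981472513)) (C.cons (nat_lit 1552) (C.node (nat_lit 4) (nat_lit 6) (nat_lit 10) (C.cons (nat_lit 1136) (C.node (nat_lit 2) (nat_lit 4) (nat_lit 10) (C.cons (nat_lit 1300) (C.node (nat_lit 4) (nat_lit 7) (nat_lit 8) (C.cons (nat_lit 432) (C.miq (nat_lit 544777812) (nat_lit 475131828183507000110351472)) (C.cons (nat_lit 400) (C.node (nat_lit 2) (nat_lit 4) (nat_lit 7) (C.cons (nat_lit 180) (C.node (nat_lit 2) (nat_lit 8) (nat_lit 11) (C.cons (nat_lit 2436) (C.miq (nat_lit 2552499061) (nat_lit 1571613915203599126274246881)) (C.cons (nat_lit 2372) (C.miq (nat_lit 1648867488) (nat_lit 217648577647577021549842177)) (C.cons (nat_lit 2340) (C.node (nat_lit 7) (nat_lit 8) (nat_lit 10) (C.cons (nat_lit 1440) (C.node (nat_lit 7) (nat_lit 8) (nat_lit 9) (C.cons (nat_lit 962) (C.miq (nat_lit 611388312) (nat_lit 1415656986847057289475657473)) (C.cons (nat_lit 960) (C.miq (nat_lit 2521532208)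 (nat_lit 2572664998354134907653783945)) (C.cons (nat_lit 898) (C.miq (nat_lit 611388312) (nat_lit 1415656986847057289471463169)) (C.cons (nat_lit 896) (C.node (nat_lit 3) (nat_lit 8) (nat_lit 9) (C.cons (nat_lit 872) (C.miq (nat_lit 2521465712) (nat_lit 1373410585271652968335344009)) (C.cons (nat_lit 844) (C.miq (nat_lit 337840777) (nat_lit 2510948575316348127201201921)) (C.cons (nat_lit 840) (C.miq (nat_lit 2521465712) (nat_lit 1373410585262645769080603017)) (C.cons (nat_lit 808) (C.miq (nat_lit 394857043) (nat_lit 1083207182351471673166267433)) (C.cons (nat_lit 780) (C.miq (nat_lit 337840777) (nat_lit 2510948575316348127197007617)) (C.cons (nat_lit 776) (C.node (nat_lit 7) (nat_lit 9) (nat_lit 10) (C.cons (nat_lit 1672) (C.miq (nat_lit 1754480807) (nat_lit 938130420612545725065594003)) (C.cons (nat_lit 1664) (C.node (nat_lit 2) (nat_lit 3) (nat_lit 8) (C.cons (nat_lit 332) (C.node (nat_lit 2) (nat_lit 7) (nat_lit 8) (C.cons (nat_lit 388) (C.node (nat_lit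 2) (nat_lit 8) (nat_lit 9) (C.cons (nat_lit 772) (C.node (nat_lit 2) (nat_lit 6) (nat_lit 7) (C.cons (nat_lit 198) (C.miq (nat_lit 2172002371) (nat_lit 239373436676761996458723357)) (C.cons (nat_lit 196) (C.node (nat_lit 2) (nat_lit 7) (nat_lit 10) (C.cons (nat_lit 1164) (C.miq (nat_lit 1654948720) (nat_lit 1571609782145225458923536777)) (C.cons (nat_lit 1156) (C.node (nat_lit 3) (nat_lit 7) (nat_lit 10) C.nil) C.nil))) C.nil))) C.nil)) C.nil)) (C.cons (nat_lit 268) (C.node (nat_lit 1) (nat_lit 3) (nat_lit 7) (C.cons (nat_lit 170) (C.miq (nat_lit 1402499338) (nat_lit 938152999380271373886751891)) (C.cons (nat_lit 142) (C.miq (nat_lit 1663584016) (nat_lit 323998336270272663812244627)) (C.cons (nat_lit 138) (C.node (nat_lit 1) (nat_lit 5) (nat_lit 7) (C.cons (nat_lit 674) (C.miq (nat_lit 588726421) (nat_lit 166835084105377866768843313)) (C.cons (nat_lit 162) (C.node (nat_lit 1) (nat_lit 4) (nat_lit 5) (C.cons (nat_lit 314) (C.miq (nat_lit 2438398786)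 (nat_lit 195857881074710230414395421)) (C.cons (nat_lit 306) (C.miq (nat_lit 1703060496) (nat_lit 2828906580509261721172903059)) (C.cons (nat_lit 58) (C.miq (nat_lit 2438398786) (nat_lit 195857881074709130902767645)) (C.cons (nat_lit 50) (C.node (nat_lit 1) (nat_lit 3) (nat_lit 4) (C.cons (nat_lit 282) (C.node (nat_lit 3) (nat_lit 4) (nat_lit 5) C.nil) C.nil)) C.nil))))) C.nil))) C.nil)))) C.nil))) C.nil))) C.nil))))))) C.nil))))) (C.cons (nat_lit 1408) (C.miq (nat_lit 1487385152) (nat_lit 1702209484125334448834283549)) C.nil))) (C.cons (nat_lit 2308)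
  (C.miq (nat_lit 1535275172) (nat_lit 2790204112724306522059048083)) C.nil))))) (C.cons (nat_lit 148) (C.node (nat_lit 4) (nat_lit 5) (nat_lit 7) C.nil) C.nil))) C.nil))) (C.cons (nat_lit 1044) (C.node (nat_lit 4) (nat_lit 8) (nat_lit 10) (C.cons (nat_lit 1296) (C.node (nat_lit 7) (nat_lit 9) (nat_lit 10) (C.cons (nat_lit 1696) (C.miq (nat_lit 1397203129) (nat_lit 261159263014488684157210369)) (C.cons (nat_lit 1672) (C.node (nat_lit 3) (nat_lit 6) (nat_lit 9) (C.cons (nat_lit 876) (C.miq (nat_lit 1772389232) (nat_lit 1876259088841236580123476361)) (C.cons (nat_lit 872) (C.miq (nat_lit 1772389232) (nat_lit 1876259088840110680216633737)) (C.cons (nat_lit 844) (C.miq (nat_lit 1772389232) (nat_lit 1876259088832229380868735369)) (C.cons (nat_lit 840) (C.miq (nat_lit 1772389232) (nat_lit 1876259088831103480961892745)) (C.cons (nat_lit 620) (C.miq (nat_lit 2302020212) (nat_lit 749540225794975495181829267)) (C.cons (nat_lit 616) (C.miq (nat_lit 2302020212)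 (nat_lit 744704522516516978483004563)) (C.cons (nat_lit 588) (C.miq (nat_lit 2302020212) (nat_lit 710854599567307361591231635)) (C.cons (nat_lit 584) (C.miq (nat_lit 2302020212) (nat_lit 706018896288848844892406931)) C.nil))))))))) (C.cons (nat_lit 1664) (C.node (nat_lit 3) (nat_lit 7) (nat_lit 9) (C.cons (nat_lit 680) (C.node (nat_lit 7) (nat_lit 8) (nat_lit 9) (C.cons (nat_lit 962) (C.miq (nat_lit 611388312) (nat_lit 1415656986847057289475657473)) (C.cons (nat_lit 960) (C.miq (nat_lit 2521532208) (nat_lit 2572664998354134907653783945)) (C.cons (nat_lit 898) (C.miq (nat_lit 611388312) (nat_lit 1415656986847057289471463169)) (C.cons (nat_lit 896) (C.node (nat_lit 1) (nat_lit 3) (nat_lit 7) (C.cons (nat_lit 142) (C.node (nat_lit 3) (nat_lit 7) (nat_lit 10) (C.cons (nat_lit 1160) (C.node (nat_lit 1) (nat_lit 5) (nat_lit 7) (C.cons (nat_lit 418) (C.miq (nat_lit 1729643296) (nat_lit 505337209212467040018171933)) (C.cons (nat_lit 162) (C.node (nat_lit 1)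 (nat_lit 7) (nat_lit 9) (C.cons (nat_lit 706) (C.miq (nat_lit 2255553586) (nat_lit 853506480236477577828370461)) (C.cons (nat_lit 642) (C.node (nat_lit 6) (nat_lit 7) (nat_lit 9) (C.cons (nat_lit 704) (C.node (nat_lit 1) (nat_lit 7) (nat_lit 11) (C.cons (nat_lit 2434) (C.miq (nat_lit 1729643296) (nat_lit 2942531661555559456225822749)) C.nil)) C.nil)) C.nil))) C.nil))) C.nil)) (C.cons (nat_lit 138) (C.node (nat_lit 1) (nat_lit 7) (nat_lit 9) (C.cons (nat_lit 706) (C.node (nat_lit 1) (nat_lit 4) (nat_lit 6) (C.cons (nat_lit 86) (C.miq (nat_lit 2271281986) (nat_lit 853506480252240176520497181)) (C.cons (nat_lit 82) (C.node (nat_lit 2) (nat_lit 4) (nat_lit 6) (C.cons (nat_lit 84) (C.node (nat_lit 4) (nat_lit 6) (nat_lit 9) C.nil) C.nil)) C.nil))) (C.cons (nat_lit 642) (C.node (nat_lit 6) (nat_lit 7) (nat_lit 9) (C.cons (nat_lit 704) (C.node (nat_lit 2) (nat_lit 3) (nat_lit 7) (C.cons (nat_lit 1164) (C.node (nat_lit 2) (nat_lit 8) (nat_lit 10) (C.cons (nat_lit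 1316) (C.node (nat_lit 5) (nat_lit 7) (nat_lit 10) (C.cons (nat_lit 1184) (C.node (nat_lit 7) (nat_lit 8) (nat_lit 10) C.nil) C.nil)) (C.cons (nat_lit 1284) (C.node (nat_lit 3) (nat_lit 9) (nat_lit 10) (C.cons (nat_lit 1608) (C.node (nat_lit 2) (nat_lit 3) (nat_lit 9) (C.cons (nat_lit 780) (C.node (nat_lit 4) (nat_lit 8) (nat_lit 9) (C.cons (nat_lit 784) (C.node (nat_lit 5) (nat_lit 7) (nat_lit 10) C.nil) C.nil)) (C.cons (nat_lit 524) (C.node (nat_lit 4) (nat_lit 8) (nat_lit 9) C.nil) C.nil))) (C.cons (nat_lit 1544) (C.node (nat_lit 5) (nat_lit 7) (nat_lit 10) (C.cons (nat_lit 1440) (C.node (nat_lit 4) (nat_lit 5) (nat_lit 7) C.nil) (C.cons (nat_lit 1184) (C.node (nat_lit 7) (nat_lit 8) (nat_lit 10) C.nil) C.nil))) C.nil))) C.nil))) (C.cons (nat_lit 140) (C.node (nat_lit 3) (nat_lit 7) (nat_lit 10) (C.cons (nat_lit 1160) (C.node (nat_lit 1) (nat_lit 5) (nat_lit 7) (C.cons (nat_lit 162) (C.node (nat_lit 4) (nat_lit 8) (nat_lit 9) C.nil) C.nil)) C.nil))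 C.nil))) C.nil)) C.nil))) C.nil))) C.nil))))) (C.cons (nat_lit 648) (C.node (nat_lit 3) (nat_lit 7) (nat_lit 10)
  (C.cons (nat_lit 1164) (C.node (nat_lit 1) (nat_lit 3) (nat_lit 7) (C.cons (nat_lit 170) (C.node (nat_lit 1) (nat_lit 3) (nat_lit 4) (C.cons (nat_lit 282) (C.miq (nat_lit 358889224) (nat_lit 1373344933111908037083333001)) (C.cons (nat_lit 26) (C.node (nat_lit 3) (nat_lit 4) (nat_lit 5) (C.cons (nat_lit 56) (C.node (nat_lit 3) (nat_lit 4) (nat_lit 8) C.nil) C.nil)) C.nil))) (C.cons (nat_lit 138) (C.node (nat_lit 3) (nat_lit 5) (nat_lit 7) (C.cons (nat_lit 168) (C.node (nat_lit 2) (nat_lit 8) (nat_lit 10) (C.cons (nat_lit 1316) (C.node (nat_lit 5) (nat_lit 7) (nat_lit 10) (C.cons (nat_lit 1184) (C.node (nat_lit 7) (nat_lit 8) (nat_lit 10) (C.cons (nat_lit 1408) (C.node (nat_lit 2) (nat_lit 4) (nat_lit 7) C.nil) C.nil)) C.nil)) (C.cons (nat_lit 1284) (C.node (nat_lit 3) (nat_lit 9) (nat_lit 10) (C.cons (nat_lit 1608) (C.node (nat_lit 3) (nat_lit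 8) (nat_lit 10) (C.cons (nat_lit 1290) (C.node (nat_lit 3) (nat_lit 10) (nat_lit 11) C.nil) (C.cons (nat_lit 1288) (C.node (nat_lit 1) (nat_lit 3) (nat_lit 10) C.nil) C.nil))) (C.cons (nat_lit 1544) (C.node (nat_lit 5) (nat_lit 7) (nat_lit 10) (C.cons (nat_lit 1440) (C.node (nat_lit 4) (nat_lit 5) (nat_lit 7) (C.cons (nat_lit 176) (C.node (nat_lit 6) (nat_lit 9) (nat_lit 10) C.nil) C.nil)) (C.cons (nat_lit 1184) (C.node (nat_lit 7) (nat_lit 8) (nat_lit 10) (C.cons (nat_lit 1408) (C.node (nat_lit 4) (nat_lit 8) (nat_lit 9) C.nil) C.nil)) C.nil))) C.nil))) C.nil))) C.nil)) C.nil))) (C.cons (nat_lit 1160) (C.ref (nat_lit 252) (nat_lit 205163983024656)) C.nil))) C.nil))) C.nil)))) C.nil)) C.nil))) (C.cons (nat_lit 1104) (C.node (nat_lit 7) (nat_lit 9) (nat_lit 10) (C.cons (nat_lit 1696) (C.miq (nat_lit 1397203129) (nat_lit 261159263014488684157210369)) (C.cons (nat_lit 1672) (C.node (nat_lit 3) (nat_lit 6) (nat_lit 9) (C.cons (nat_lit 876) (C.miq (nat_lit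 1772389232) (nat_lit 1876259088841236580123476361)) (C.cons (nat_lit 872) (C.miq (nat_lit 1772389232) (nat_lit 1876259088840110680216633737)) (C.cons (nat_lit 844) (C.miq (nat_lit 1772389232) (nat_lit 1876259088832229380868735369)) (C.cons (nat_lit 840) (C.miq (nat_lit 1772389232) (nat_lit 1876259088831103480961892745)) (C.cons (nat_lit 620) (C.miq (nat_lit 2302020212) (nat_lit 749540225794975495181829267)) (C.cons (nat_lit 616) (C.miq (nat_lit 2302020212) (nat_lit 744704522516516978483004563)) (C.cons (nat_lit 588) (C.miq (nat_lit 2302020212) (nat_lit 710854599567307361591231635)) (C.cons (nat_lit 584) (C.miq (nat_lit 2302020212) (nat_lit 706018896288848844892406931)) C.nil))))))))) (C.cons (nat_lit 1664) (C.node (nat_lit 3) (nat_lit 7) (nat_lit 9) (C.cons (nat_lit 680) (C.node (nat_lit 7) (nat_lit 8) (nat_lit 9) (C.cons (nat_lit 962) (C.miq (nat_lit 611388312) (nat_lit 1415656986847057289475657473)) (C.cons (nat_lit 960) (C.miq (nat_lit 2521532208)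 (nat_lit 2572664998354134907653783945)) (C.cons (nat_lit 898) (C.miq (nat_lit 611388312) (nat_lit 1415656986847057289471463169)) (C.cons (nat_lit 896) (C.node (nat_lit 1) (nat_lit 3) (nat_lit 7) (C.cons (nat_lit 142) (C.node (nat_lit 3) (nat_lit 7) (nat_lit 10) (C.cons (nat_lit 1160) (C.node (nat_lit 1) (nat_lit 5) (nat_lit 7) (C.cons (nat_lit 418) (C.miq (nat_lit 1729643296) (nat_lit 505337209212467040018171933)) (C.cons (nat_lit 162) (C.node (nat_lit 1) (nat_lit 7) (nat_lit 9) (C.cons (nat_lit 706) (C.miq (nat_lit 2255553586) (nat_lit 853506480236477577828370461)) (C.cons (nat_lit 642) (C.node (nat_lit 6) (nat_lit 7) (nat_lit 9) (C.cons (nat_lit 704) (C.node (nat_lit 1) (nat_lit 6) (nat_lit 7) (C.cons (nat_lit 450) (C.node (nat_lit 1) (nat_lit 7) (nat_lit 11) (C.cons (nat_lit 2178) (C.node (nat_lit 2) (nat_lit 6) (nat_lit 7) C.nil) C.nil)) (C.cons (nat_lit 194) (C.miq (nat_lit 2255553586) (nat_lit 234536460593787440378808349)) C.nil))) C.nil)) C.nil)))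 C.nil))) C.nil)) (C.cons (nat_lit 138) (C.node (nat_lit 1) (nat_lit 7) (nat_lit 9) (C.cons (nat_lit 706) (C.node (nat_lit 6) (nat_lit 9) (nat_lit 11) (C.cons (nat_lit 2628) (C.miq (nat_lit 709451899) (nat_lit 1876301350392987366974294241))
  (C.cons (nat_lit 2624) (C.node (nat_lit 2) (nat_lit 3) (nat_lit 7) (C.cons (nat_lit 1164) (C.node (nat_lit 2) (nat_lit 6) (nat_lit 7) (C.cons (nat_lit 452) (C.node (nat_lit 2) (nat_lit 4) (nat_lit 7) (C.cons (nat_lit 180) (C.node (nat_lit 4) (nat_lit 7) (nat_lit 8) (C.cons (nat_lit 400) (C.node (nat_lit 1) (nat_lit 2) (nat_lit 7) (C.cons (nat_lit 2182) (C.node (nat_lit 7) (nat_lit 8) (nat_lit 11) C.nil) C.nil)) C.nil)) (C.cons (nat_lit 148) (C.node (nat_lit 2) (nat_lit 5) (nat_lit 7) (C.cons (nat_lit 166) (C.node (nat_lit 2) (nat_lit 7) (nat_lit 11) (C.cons (nat_lit 2180) (C.node (nat_lit 1) (nat_lit 7) (nat_lit 8) (C.cons (nat_lit 386) (C.node (nat_lit 1) (nat_lit 7) (nat_lit 11) (C.cons (nat_lit 2178) (C.node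 (nat_lit 7) (nat_lit 8) (nat_lit 11) C.nil) C.nil)) C.nil)) C.nil)) (C.cons (nat_lit 164) (C.node (nat_lit 4) (nat_lit 5) (nat_lit 7) (C.cons (nat_lit 176) (C.node (nat_lit 4) (nat_lit 7) (nat_lit 8) C.nil) C.nil)) C.nil))) C.nil))) (C.cons (nat_lit 196) (C.node (nat_lit 6) (nat_lit 7) (nat_lit 8) (C.cons (nat_lit 448) (C.node (nat_lit 3) (nat_lit 9) (nat_lit 10) (C.cons (nat_lit 1608) (C.node (nat_lit 3) (nat_lit 6) (nat_lit 11) (C.cons (nat_lit 2378) (C.miq (nat_lit 588843879) (nat_lit 632280102393012341138655457)) (C.cons (nat_lit 2376) (C.miq (nat_lit 2202711664) (nat_lit 1267025113568903965934029025)) (C.cons (nat_lit 2122) (C.miq (nat_lit 588843879) (nat_lit 632280102393011241627027681)) (C.cons (nat_lit 2120) (C.node (nat_lit 2) (nat_lit 3) (nat_lit 9) (C.cons (nat_lit 780) (C.node (nat_lit 4) (nat_lit 6) (nat_lit 9) (C.cons (nat_lit 596) (C.node (nat_lit 1) (nat_lit 4) (nat_lit 6) C.nil) C.nil)) (C.cons (nat_lit 524) (C.node (nat_lit 3) (nat_lit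 8) (nat_lit 9) C.nil) C.nil))) C.nil))))) (C.cons (nat_lit 1544) (C.node (nat_lit 3) (nat_lit 6) (nat_lit 9) (C.cons (nat_lit 844) (C.miq (nat_lit 392692786) (nat_lit 541603619010653381376870429)) (C.cons (nat_lit 840) (C.miq (nat_lit 2521465712) (nat_lit 1334724959034977635490005385)) (C.cons (nat_lit 588) (C.miq (nat_lit 372537632) (nat_lit 261149578372794074756088453)) (C.cons (nat_lit 584) (C.node (nat_lit 2) (nat_lit 3) (nat_lit 9) (C.cons (nat_lit 780) (C.node (nat_lit 4) (nat_lit 6) (nat_lit 9) (C.cons (nat_lit 596) (C.node (nat_lit 1) (nat_lit 4) (nat_lit 6) C.nil) C.nil)) (C.cons (nat_lit 524) (C.node (nat_lit 3) (nat_lit 8) (nat_lit 9) C.nil) C.nil))) C.nil))))) C.nil))) C.nil)) C.nil))) (C.cons (nat_lit 140) (C.node (nat_lit 3) (nat_lit 7) (nat_lit 10) (C.cons (nat_lit 1160) (C.node (nat_lit 2) (nat_lit 6) (nat_lit 7) (C.cons (nat_lit 452) (C.node (nat_lit 2) (nat_lit 4) (nat_lit 7) (C.cons (nat_lit 180) (C.node (nat_lit 2) (nat_lit 7) (nat_lit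 10) (C.cons (nat_lit 1156) (C.node (nat_lit 4) (nat_lit 7) (nat_lit 8) C.nil) C.nil)) (C.cons (nat_lit 148) (C.node (nat_lit 2) (nat_lit 6) (nat_lit 11) (C.cons (nat_lit 2118) (C.node (nat_lit 2) (nat_lit 7) (nat_lit 11) (C.cons (nat_lit 2180) (C.node (nat_lit 1) (nat_lit 7) (nat_lit 11) C.nil) C.nil)) (C.cons (nat_lit 2116) (C.node (nat_lit 2) (nat_lit 7) (nat_lit 10) (C.cons (nat_lit 1188) (C.node (nat_lit 7) (nat_lit 8) (nat_lit 10) (C.cons (nat_lit 1408) (C.node (nat_lit 4) (nat_lit 5) (nat_lit 7) C.nil) C.nil)) (C.cons (nat_lit 1156) (C.node (nat_lit 4) (nat_lit 5) (nat_lit 7) C.nil) C.nil))) C.nil))) C.nil))) (C.cons (nat_lit 196) (C.node (nat_lit 6) (nat_lit 7) (nat_lit 8) (C.cons (nat_lit 448) (C.node (nat_lit 4) (nat_lit 6) (nat_lit 9) (C.cons (nat_lit 596) (C.node (nat_lit 1) (nat_lit 2) (nat_lit 4) (C.cons (nat_lit 54) (C.node (nat_lit 1) (nat_lit 4) (nat_lit 6) C.nil) C.nil)) (C.cons (nat_lit 592) (C.node (nat_lit 2) (nat_lit 4) (nat_lit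 7) C.nil) C.nil))) C.nil)) C.nil))) C.nil)) C.nil))) C.nil))) (C.cons (nat_lit 642) (C.node (nat_lit 6) (nat_lit 7) (nat_lit 9) (C.cons (nat_lit 704) (C.node (nat_lit 2) (nat_lit 3) (nat_lit 7) (C.cons (nat_lit 1164) (C.node (nat_lit 3) (nat_lit 9) (nat_lit 10) (C.cons (nat_lit 1608) (C.node (nat_lit 2) (nat_lit 3) (nat_lit 9) (C.cons (nat_lit 780)
  (C.node (nat_lit 3) (nat_lit 8) (nat_lit 10) (C.cons (nat_lit 1290) (C.miq (nat_lit 321366160) (nat_lit 1407211255531844743316442881)) (C.cons (nat_lit 1288) (C.node (nat_lit 1) (nat_lit 3) (nat_lit 10) (C.cons (nat_lit 3082) (C.node (nat_lit 6) (nat_lit 10) (nat_lit 11) (C.cons (nat_lit 3136) (C.node (nat_lit 3) (nat_lit 5) (nat_lit 11) (C.cons (nat_lit 2344) (C.miq (nat_lit 1395112080) (nat_lit 1407231584140488596695355137)) (C.cons (nat_lit 2088) (C.node (nat_lit 2) (nat_lit 10) (nat_lit 11) C.nil) C.nil))) C.nil)) (C.cons (nat_lit 1034) (C.node (nat_lit 3) (nat_lit 10) (nat_lit 11) (C.cons (nat_lit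 3080) (C.node (nat_lit 4) (nat_lit 8) (nat_lit 9) (C.cons (nat_lit 786) (C.node (nat_lit 1) (nat_lit 3) (nat_lit 4) C.nil) (C.cons (nat_lit 784) (C.node (nat_lit 1) (nat_lit 2) (nat_lit 3) (C.cons (nat_lit 110) (C.miq (nat_lit 2301692514) (nat_lit 632273056233294735843656773)) C.nil)) C.nil))) C.nil)) C.nil))) C.nil))) (C.cons (nat_lit 524) (C.node (nat_lit 3) (nat_lit 8) (nat_lit 9) (C.cons (nat_lit 776) (C.node (nat_lit 3) (nat_lit 8) (nat_lit 10) (C.cons (nat_lit 1290) (C.node (nat_lit 3) (nat_lit 10) (nat_lit 11) (C.cons (nat_lit 3080) (C.node (nat_lit 1) (nat_lit 3) (nat_lit 4) C.nil) C.nil)) (C.cons (nat_lit 1288) (C.node (nat_lit 1) (nat_lit 3) (nat_lit 10) (C.cons (nat_lit 3082) (C.node (nat_lit 3) (nat_lit 5) (nat_lit 11) C.nil) C.nil)) C.nil))) C.nil)) C.nil))) (C.cons (nat_lit 1544) (C.node (nat_lit 5) (nat_lit 7) (nat_lit 10) (C.cons (nat_lit 1440) (C.node (nat_lit 4) (nat_lit 5) (nat_lit 10) (C.cons (nat_lit 1076) (C.miq (nat_lit 1476699954)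 (nat_lit 407427850312078997875131532)) (C.cons (nat_lit 1072) (C.node (nat_lit 4) (nat_lit 7) (nat_lit 8) (C.cons (nat_lit 404) (C.miq (nat_lit 2231663154) (nat_lit 678214837693741286408651916)) (C.cons (nat_lit 400) (C.node (nat_lit 2) (nat_lit 4) (nat_lit 7) (C.cons (nat_lit 180) (C.node (nat_lit 1) (nat_lit 5) (nat_lit 7) C.nil) C.nil)) C.nil))) C.nil))) (C.cons (nat_lit 1184) (C.node (nat_lit 7) (nat_lit 8) (nat_lit 10) (C.cons (nat_lit 1408) (C.node (nat_lit 1) (nat_lit 6) (nat_lit 7) (C.cons (nat_lit 450) (C.miq (nat_lit 389187136) (nat_lit 1407194505651784412338913617)) (C.cons (nat_lit 198) (C.node (nat_lit 6) (nat_lit 7) (nat_lit 8) C.nil) C.nil))) C.nil)) C.nil))) C.nil))) (C.cons (nat_lit 140) (C.node (nat_lit 3) (nat_lit 7) (nat_lit 10) (C.cons (nat_lit 1160) (C.node (nat_lit 1) (nat_lit 6) (nat_lit 7) (C.cons (nat_lit 450) (C.miq (nat_lit 389187136) (nat_lit 169254466366404137439789393)) (C.cons (nat_lit 198) (C.node (nat_lit 6) (nat_lit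 7) (nat_lit 8) C.nil) (C.cons (nat_lit 194) (C.node (nat_lit 2) (nat_lit 6) (nat_lit 7) (C.cons (nat_lit 196) (C.node (nat_lit 6) (nat_lit 7) (nat_lit 8) C.nil) C.nil)) C.nil)))) C.nil)) C.nil))) C.nil)) C.nil))) C.nil))) C.nil))))) (C.cons (nat_lit 648) (C.node (nat_lit 3) (nat_lit 7) (nat_lit 10) (C.cons (nat_lit 1164) (C.node (nat_lit 1) (nat_lit 3) (nat_lit 7) (C.cons (nat_lit 170) (C.node (nat_lit 1) (nat_lit 3) (nat_lit 4) (C.cons (nat_lit 282) (C.miq (nat_lit 1350661699) (nat_lit 317950627144934073057280216)) (C.cons (nat_lit 26) (C.node (nat_lit 1) (nat_lit 2) (nat_lit 3) (C.cons (nat_lit 78) (C.node (nat_lit 3) (nat_lit 9) (nat_lit 10) (C.cons (nat_lit 1608) (C.miq (nat_lit 2301692514) (nat_lit 632273056233294735841559621)) (C.cons (nat_lit 1544) (C.node (nat_lit 2) (nat_lit 6) (nat_lit 11) (C.cons (nat_lit 2628) (C.miq (nat_lit 709451899) (nat_lit 1876301350392987366974294241)) (C.cons (nat_lit 2372) (C.miq (nat_lit 1671110920) (nat_lit 3104565260469267854404944135))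 (C.cons (nat_lit 2116) (C.node (nat_lit 1) (nat_lit 2) (nat_lit 7) (C.cons (nat_lit 2182) (C.node (nat_lit 7) (nat_lit 8) (nat_lit 11) (C.cons (nat_lit 2432) (C.node (nat_lit 2) (nat_lit 9) (nat_lit 11) (C.cons (nat_lit 2596) (C.miq (nat_lit 1528074864) (nat_lit 2497651092677967637237662341)) (C.cons (nat_lit 2564) (C.node (nat_lit 3) (nat_lit 4) (nat_lit 5) (C.cons (nat_lit 56) (C.node (nat_lit 3) (nat_lit 4) (nat_lit 8) C.nil) C.nil)) C.nil))) C.nil))
  (C.cons (nat_lit 134) (C.node (nat_lit 1) (nat_lit 7) (nat_lit 11) (C.cons (nat_lit 2434) (C.node (nat_lit 2) (nat_lit 7) (nat_lit 11) (C.cons (nat_lit 2180) (C.node (nat_lit 1) (nat_lit 3) (nat_lit 8) (C.cons (nat_lit 1290) (C.node (nat_lit 3) (nat_lit 5) (nat_lit 11) (C.cons (nat_lit 2088) (C.miq (nat_lit 2337478410) (nat_lit 2524260908340320657952277651)) C.nil)) (C.cons (nat_lit 266) (C.miq (nat_lit 2819820405) (nat_lit 321593914881085700651485409)) C.nil))) C.nil)) (C.cons (nat_lit 2178) (C.node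 (nat_lit 1) (nat_lit 7) (nat_lit 8) (C.cons (nat_lit 962) (C.miq (nat_lit 1192409472) (nat_lit 162034374476913872950726401)) (C.cons (nat_lit 898) (C.miq (nat_lit 1192409472) (nat_lit 162034374476913598072819457)) (C.cons (nat_lit 450) (C.miq (nat_lit 2184581191) (nat_lit 94304515038811084461442195)) (C.cons (nat_lit 386) (C.node (nat_lit 5) (nat_lit 7) (nat_lit 10) (C.cons (nat_lit 1440) (C.miq (nat_lit 2557545043) (nat_lit 466655015099548981841757225)) (C.cons (nat_lit 1184) (C.node (nat_lit 7) (nat_lit 8) (nat_lit 10) (C.cons (nat_lit 1408) (C.node (nat_lit 3) (nat_lit 4) (nat_lit 5) C.nil) C.nil)) C.nil))) C.nil))))) C.nil))) C.nil))) C.nil)))) C.nil))) (C.cons (nat_lit 14) (C.node (nat_lit 3) (nat_lit 4) (nat_lit 5) (C.cons (nat_lit 312) (C.node (nat_lit 3) (nat_lit 5) (nat_lit 11) (C.cons (nat_lit 2088) (C.node (nat_lit 2) (nat_lit 3) (nat_lit 5) (C.cons (nat_lit 620) (C.miq (nat_lit 321549664) (nat_lit 1407211255216592082235099361)) (C.cons (nat_lit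 556) (C.miq (nat_lit 1403294320) (nat_lit 1266964607736061812620329605)) (C.cons (nat_lit 108) (C.miq (nat_lit 321549664) (nat_lit 1407211255216589883211843809)) C.nil)))) C.nil)) (C.cons (nat_lit 56) (C.node (nat_lit 3) (nat_lit 4) (nat_lit 8) C.nil) C.nil))) C.nil))) C.nil))) (C.cons (nat_lit 138) (C.node (nat_lit 3) (nat_lit 5) (nat_lit 7) (C.cons (nat_lit 168) (C.node (nat_lit 3) (nat_lit 9) (nat_lit 10) (C.cons (nat_lit 1608) (C.node (nat_lit 3) (nat_lit 8) (nat_lit 10) (C.cons (nat_lit 1290) (C.node (nat_lit 3) (nat_lit 10) (nat_lit 11) (C.cons (nat_lit 3080) (C.node (nat_lit 6) (nat_lit 10) (nat_lit 11) (C.cons (nat_lit 3138) (C.miq (nat_lit 1631042176) (nat_lit 166873693439372385371885313)) (C.cons (nat_lit 3136) (C.node (nat_lit 3) (nat_lit 8) (nat_lit 11) (C.cons (nat_lit 2376) (C.miq (nat_lit 1662498976) (nat_lit 166873693224888453169352449)) (C.cons (nat_lit 2344) (C.miq (nat_lit 1394063520) (nat_lit 166873693215881253914611457)) (C.cons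 (nat_lit 2312) (C.node (nat_lit 3) (nat_lit 5) (nat_lit 11) C.nil) C.nil)))) C.nil))) C.nil)) (C.cons (nat_lit 1288) (C.node (nat_lit 1) (nat_lit 3) (nat_lit 10) (C.cons (nat_lit 3082) (C.node (nat_lit 6) (nat_lit 10) (nat_lit 11) (C.cons (nat_lit 3136) (C.node (nat_lit 3) (nat_lit 6) (nat_lit 11) (C.cons (nat_lit 2376) (C.miq (nat_lit 325364608) (nat_lit 261149579041586298708102913)) (C.cons (nat_lit 2120) (C.node (nat_lit 2) (nat_lit 10) (nat_lit 11) C.nil) C.nil))) C.nil)) (C.cons (nat_lit 1034) (C.node (nat_lit 3) (nat_lit 10) (nat_lit 11) (C.cons (nat_lit 3080) (C.node (nat_lit 1) (nat_lit 2) (nat_lit 3) C.nil) C.nil)) C.nil))) C.nil))) (C.cons (nat_lit 1544) (C.node (nat_lit 5) (nat_lit 7) (nat_lit 10) (C.cons (nat_lit 1440) (C.node (nat_lit 4) (nat_lit 5) (nat_lit 10) (C.cons (nat_lit 1076) (C.miq (nat_lit 1476699954) (nat_lit 407427850312078997875131532)) (C.cons (nat_lit 1072) (C.node (nat_lit 4) (nat_lit 7) (nat_lit 8) (C.cons (nat_lit 404)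 (C.miq (nat_lit 2231663154) (nat_lit 678214837693741286408651916)) (C.cons (nat_lit 400) (C.node (nat_lit 7) (nat_lit 8) (nat_lit 9) (C.cons (nat_lit 962) (C.miq (nat_lit 611388312) (nat_lit 1415656986847057289475657473)) (C.cons (nat_lit 960) (C.miq (nat_lit 2521532208) (nat_lit 2572664998354134907653783945)) (C.cons (nat_lit 898) (C.miq (nat_lit 611388312) (nat_lit 1415656986847057289471463169)) (C.cons (nat_lit 896) (C.node (nat_lit 2) (nat_lit 4) (nat_lit 7) (C.cons (nat_lit 180) (C.node (nat_lit 1) (nat_lit 5) (nat_lit 7) (C.cons (nat_lit 674)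
  (C.miq (nat_lit 388207936) (nat_lit 1407199301868293816986698289)) C.nil)) C.nil)) C.nil))))) C.nil))) C.nil))) (C.cons (nat_lit 1184) (C.node (nat_lit 7) (nat_lit 8) (nat_lit 10) (C.cons (nat_lit 1408) (C.node (nat_lit 6) (nat_lit 7) (nat_lit 9) (C.cons (nat_lit 962) (C.miq (nat_lit 611388312) (nat_lit 1415656986847057289475657473)) (C.cons (nat_lit 960) (C.miq (nat_lit 2521532208) (nat_lit 2572664998354134907653783945)) (C.cons (nat_lit 706) (C.node (nat_lit 6) (nat_lit 9) (nat_lit 11) (C.cons (nat_lit 2628) (C.miq (nat_lit 709451899) (nat_lit 1876301350392987366974294241)) (C.cons (nat_lit 2624) (C.node (nat_lit 3) (nat_lit 6) (nat_lit 9) (C.cons (nat_lit 876) (C.miq (nat_lit 423261776) (nat_lit 1866603066821022855650150625)) (C.cons (nat_lit 872) (C.miq (nat_lit 423261776) (nat_lit 1866603066821022838470281441)) (C.cons (nat_lit 844) (C.miq (nat_lit 2172002371) (nat_lit 853517197773959356499888157)) (C.cons (nat_lit 840) (C.miq (nat_lit 2521465712)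 (nat_lit 1334724959034977635490005385)) (C.cons (nat_lit 620) (C.miq (nat_lit 423261776) (nat_lit 1866603066821021756138522849)) (C.cons (nat_lit 616) (C.miq (nat_lit 423261776) (nat_lit 1866603066821021738958653665)) (C.cons (nat_lit 588) (C.miq (nat_lit 372537632) (nat_lit 261149578372794074756088453)) (C.cons (nat_lit 584) (C.node (nat_lit 2) (nat_lit 6) (nat_lit 7) (C.cons (nat_lit 452) (C.node (nat_lit 2) (nat_lit 4) (nat_lit 7) (C.cons (nat_lit 180) (C.node (nat_lit 4) (nat_lit 7) (nat_lit 8) C.nil) C.nil)) C.nil)) C.nil))))))))) C.nil))) (C.cons (nat_lit 704) (C.node (nat_lit 1) (nat_lit 6) (nat_lit 7) (C.cons (nat_lit 450) (C.miq (nat_lit 389187136) (nat_lit 1407194505651784412338913617)) (C.cons (nat_lit 198) (C.node (nat_lit 6) (nat_lit 7) (nat_lit 8) C.nil) (C.cons (nat_lit 194) (C.node (nat_lit 2) (nat_lit 6) (nat_lit 7) (C.cons (nat_lit 196) (C.node (nat_lit 6) (nat_lit 7) (nat_lit 8) C.nil) C.nil)) C.nil)))) C.nil))))) C.nil)) C.nil)))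 C.nil))) C.nil)) C.nil))) (C.cons (nat_lit 1160) (C.ref (nat_lit 253) (nat_lit 205163983024656)) C.nil))) C.nil))) C.nil)))) C.nil))) C.nil)))) C.nil))) List.nil)

theorem ok12_254 : okL par12 (nat_lit 255) c12_254 (nat_lit 254) = true := by decide +kernel

noncomputable def c12_255 : List C :=
  (List.cons (C.node (nat_lit 1) (nat_lit 4) (nat_lit 8) (C.cons (nat_lit 786) (C.node (nat_lit 2) (nat_lit 4) (nat_lit 8) (C.cons (nat_lit 1300) (C.node (nat_lit 3) (nat_lit 4) (nat_lit 8) (C.cons (nat_lit 280) (C.node (nat_lit 4) (nat_lit 5) (nat_lit 10) (C.cons (nat_lit 1136) (C.miq (nat_lit 728401748) (nat_lit 3791215351764455720097939888)) (C.cons (nat_lit 1072) (C.node (nat_lit 4) (nat_lit 9) (nat_lit 10) (C.cons (nat_lit 1624) (C.miq (nat_lit 323094952) (nat_lit 2510943778980494569408564993)) (C.cons (nat_lit 1616) (C.miq (nat_lit 1762698370) (nat_lit 632288366404590561137198356)) (C.cons (nat_lit 1560) (C.miq (nat_lit 323094952) (nat_lit 2510943778980494294530658049))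 C.nil)))) C.nil))) C.nil)) (C.cons (nat_lit 276) (C.node (nat_lit 3) (nat_lit 4) (nat_lit 8) (C.cons (nat_lit 1304) (C.node (nat_lit 3) (nat_lit 5) (nat_lit 11) (C.cons (nat_lit 2600) (C.miq (nat_lit 1094256565) (nat_lit 632278552611492996126869729)) (C.cons (nat_lit 2344) (C.miq (nat_lit 1397209248) (nat_lit 183798654690486122490040065)) (C.cons (nat_lit 2088) (C.node (nat_lit 3) (nat_lit 8) (nat_lit 11) (C.cons (nat_lit 2376) (C.miq (nat_lit 1665644704) (nat_lit 183798654699493321744781057)) (C.cons (nat_lit 2312) (C.node (nat_lit 3) (nat_lit 4) (nat_lit 5) (C.cons (nat_lit 122) (C.miq (nat_lit 2221646672) (nat_lit 2572664998450961895928169513)) (C.cons (nat_lit 120) (C.miq (nat_lit 2221646672) (nat_lit 2572664998450961887338234921)) (C.cons (nat_lit 58) (C.miq (nat_lit 329794825) (nat_lit 1576453767934648502565536305)) C.nil)))) C.nil))) C.nil)))) (C.cons (nat_lit 280) (C.node (nat_lit 4) (nat_lit 8) (nat_lit 10) (C.cons (nat_lit 1296) (C.node (nat_lit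 2) (nat_lit 4) (nat_lit 9) (C.cons (nat_lit 532) (C.node (nat_lit 2) (nat_lit 4) (nat_lit 10) C.nil) C.nil)) C.nil)) C.nil))) C.nil))) (C.cons (nat_lit 282) (C.miq (nat_lit 1729628980) (nat_lit 466651583563801712435791901)) (C.cons (nat_lit 274) (C.node (nat_lit 1) (nat_lit 5) (nat_lit 7) (C.cons (nat_lit 674) (C.miq (nat_lit 1125714805) (nat_lit 632278552866509324900501729)) (C.cons (nat_lit 166) (C.node (nat_lit 5) (nat_lit 7) (nat_lit 10) (C.cons (nat_lit 1696) (C.miq (nat_lit 880085914) (nat_lit 522275600440593444476292865)) (C.cons (nat_lit 1184) (C.node (nat_lit 1) (nat_lit 6) (nat_lit 7) (C.cons (nat_lit 706) (C.node (nat_lit 1) (nat_lit 4) (nat_lit 9) (C.cons (nat_lit 534) (C.miq (nat_lit 1632336160) (nat_lit 2497682672971827043960160901)) (C.cons (nat_lit 530) (C.node (nat_lit 3) (nat_lit 6) (nat_lit 11) (C.cons (nat_lit 2632) (C.miq (nat_lit 957658736) (nat_lit 640768999024039728359082209)) (C.cons (nat_lit 2376) (C.miq (nat_lit 943830535)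 (nat_lit 331285999825739515094567137)) (C.cons (nat_lit 2120) (C.node (nat_lit 3) (nat_lit 9) (nat_lit 11) (C.cons (nat_lit 2600) (C.miq (nat_lit 1094256565) (nat_lit 632278552611492996126869729)) (C.cons (nat_lit 2568) (C.node (nat_lit 2) (nat_lit 6) (nat_lit 7) C.nil) C.nil))) C.nil)))) C.nil))) (C.cons (nat_lit 194) (C.node (nat_lit 1) (nat_lit 7) (nat_lit 9) C.nil) C.nil))) C.nil))) (C.cons (nat_lit 162) (C.node (nat_lit 1) (nat_lit 2) (nat_lit 7) (C.cons (nat_lit 198) (C.node (nat_lit 1) (nat_lit 7) (nat_lit 9) (C.cons (nat_lit 642) (C.node (nat_lit 2) (nat_lit 6) (nat_lit 11) (C.cons (nat_lit 2628) (C.miq (nat_lit 1265269024) (nat_lit 3791212972209907030034809477)) (C.cons (nat_lit 2116) (C.node (nat_lit 1) (nat_lit 6) (nat_lit 11) C.nil) C.nil))) C.nil)) (C.cons (nat_lit 134) (C.node (nat_lit 1) (nat_lit 6) (nat_lit 7) (C.cons (nat_lit 706) (C.node (nat_lit 2) (nat_lit 6) (nat_lit 7) (C.cons (nat_lit 204) (C.node (nat_lit 6) (nat_lit 7) (nat_lit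 10) C.nil) C.nil)) C.nil)) C.nil))) C.nil)))) C.nil)))) (List.cons (C.node (nat_lit 3) (nat_lit 5) (nat_lit 11) (C.cons (nat_lit 2600) (C.miq (nat_lit 1094256565) (nat_lit 632278552611492996126869729)) (C.cons (nat_lit 2344) (C.node (nat_lit 5) (nat_lit 10) (nat_lit 11) (C.cons (nat_lit 3110) (C.miq (nat_lit 1399961610) (nat_lit 2642769211711427646021897985)) (C.cons (nat_lit 3108)
  (C.miq (nat_lit 1923124051) (nat_lit 1321363171094897047902947624)) (C.cons (nat_lit 3106) (C.miq (nat_lit 1399961610) (nat_lit 2642769137924451351183691521)) (C.cons (nat_lit 3104) (C.node (nat_lit 5) (nat_lit 7) (nat_lit 8) (C.cons (nat_lit 1440) (C.miq (nat_lit 896841888) (nat_lit 212809258799399359726423809)) (C.cons (nat_lit 930) (C.miq (nat_lit 611388312) (nat_lit 1415656986847057289473560321)) (C.cons (nat_lit 928) (C.miq (nat_lit 659863696) (nat_lit 212809258825292858520571649)) (C.cons (nat_lit 418) (C.miq (nat_lit 364148784) (nat_lit 2533930119167239671873601929))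 (C.cons (nat_lit 416) (C.node (nat_lit 1) (nat_lit 7) (nat_lit 8) (C.cons (nat_lit 962) (C.miq (nat_lit 611388312) (nat_lit 1415656986847057289475657473)) (C.cons (nat_lit 898) (C.miq (nat_lit 611388312) (nat_lit 1415656986847057289471463169)) (C.cons (nat_lit 450) (C.miq (nat_lit 1639221040) (nat_lit 2497646960003249843516277129)) (C.cons (nat_lit 386) (C.node (nat_lit 2) (nat_lit 9) (nat_lit 11) (C.cons (nat_lit 2630) (C.miq (nat_lit 657569801) (nat_lit 2642760357300167963252035329)) (C.cons (nat_lit 2628) (C.miq (nat_lit 1265269024) (nat_lit 3791212972209907030034809477)) (C.cons (nat_lit 2598) (C.miq (nat_lit 657569801) (nat_lit 2642759767004357604546383617)) (C.cons (nat_lit 2596) (C.miq (nat_lit 2542084155) (nat_lit 502961028888854134727903261)) (C.cons (nat_lit 2566) (C.miq (nat_lit 657569801) (nat_lit 2642759176708547245840731905)) (C.cons (nat_lit 2564) (C.node (nat_lit 1) (nat_lit 8) (nat_lit 11) (C.cons (nat_lit 2370) (C.node (nat_lit 2)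 (nat_lit 6) (nat_lit 11) (C.cons (nat_lit 2116) (C.node (nat_lit 1) (nat_lit 9) (nat_lit 11) C.nil) C.nil)) (C.cons (nat_lit 2306) (C.node (nat_lit 6) (nat_lit 8) (nat_lit 11) C.nil) C.nil))) C.nil))))))) C.nil))))) C.nil)))))) C.nil))))) (C.cons (nat_lit 2088) (C.node (nat_lit 3) (nat_lit 8) (nat_lit 11) (C.cons (nat_lit 2376) (C.miq (nat_lit 1796506480) (nat_lit 2497646960545370648601624969)) (C.cons (nat_lit 2312) (C.node (nat_lit 3) (nat_lit 6) (nat_lit 11) (C.cons (nat_lit 2632) (C.node (nat_lit 1) (nat_lit 7) (nat_lit 9) (C.cons (nat_lit 962) (C.miq (nat_lit 611388312) (nat_lit 1415656986847057289475657473)) (C.cons (nat_lit 930) (C.miq (nat_lit 611388312) (nat_lit 1415656986847057289473560321)) (C.cons (nat_lit 898) (C.miq (nat_lit 611388312) (nat_lit 1415656986847057289471463169)) (C.cons (nat_lit 706) (C.miq (nat_lit 1133579111) (nat_lit 632289805380396203284498657)) (C.cons (nat_lit 674) (C.miq (nat_lit 1125714805) (nat_lit 632278552866509324900501729))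 (C.cons (nat_lit 642) (C.node (nat_lit 2) (nat_lit 6) (nat_lit 11) (C.cons (nat_lit 2118) (C.node (nat_lit 6) (nat_lit 8) (nat_lit 11) (C.cons (nat_lit 2368) (C.node (nat_lit 1) (nat_lit 8) (nat_lit 11) C.nil) C.nil)) (C.cons (nat_lit 2116) (C.node (nat_lit 1) (nat_lit 6) (nat_lit 11) (C.cons (nat_lit 2370) (C.node (nat_lit 5) (nat_lit 8) (nat_lit 11) C.nil) C.nil)) C.nil))) C.nil))))))) (C.cons (nat_lit 2120) (C.node (nat_lit 3) (nat_lit 9) (nat_lit 11) C.nil) C.nil))) C.nil))) C.nil)))) (List.cons (C.node (nat_lit 3) (nat_lit 4) (nat_lit 6) (C.cons (nat_lit 122) (C.miq (nat_lit 446054579) (nat_lit 1953626375329641433760532509)) (C.cons (nat_lit 120) (C.node (nat_lit 1) (nat_lit 3) (nat_lit 4) (C.cons (nat_lit 282) (C.node (nat_lit 1) (nat_lit 3) (nat_lit 11) (C.cons (nat_lit 2090) (C.miq (nat_lit 2961266243) (nat_lit 317986044893555595396382840)) (C.cons (nat_lit 2058) (C.node (nat_lit 3) (nat_lit 5) (nat_lit 11) (C.cons (nat_lit 2344) (C.node (nat_lit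 1) (nat_lit 4) (nat_lit 5) C.nil) C.nil)) C.nil))) (C.cons (nat_lit 26) (C.node (nat_lit 3) (nat_lit 4) (nat_lit 8) (C.cons (nat_lit 280) (C.node (nat_lit 3) (nat_lit 7) (nat_lit 10) C.nil) C.nil)) C.nil))) (C.cons (nat_lit 90) (C.miq (nat_lit 446054579) (nat_lit 1953625785033831075054880797)) (C.cons (nat_lit 88) (C.node (nat_lit 6) (nat_lit 7) (nat_lit 9) (C.cons (nat_lit 962) (C.miq (nat_lit 611388312) (nat_lit 1415656986847057289475657473)) (C.cons (nat_lit 960)
  (C.node (nat_lit 4) (nat_lit 8) (nat_lit 9) (C.cons (nat_lit 788) (C.miq (nat_lit 1749776672) (nat_lit 2804749831225438589341729413)) (C.cons (nat_lit 786) (C.miq (nat_lit 647498305) (nat_lit 1160573638631394483593413779)) (C.cons (nat_lit 784) (C.node (nat_lit 1) (nat_lit 4) (nat_lit 9) (C.cons (nat_lit 534) (C.node (nat_lit 1) (nat_lit 4) (nat_lit 6) (C.cons (nat_lit 82) (C.node (nat_lit 2) (nat_lit 4) (nat_lit 6) C.nil) C.nil)) (C.cons (nat_lit 530) (C.node (nat_lit 2) (nat_lit 4) (nat_lit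 9) C.nil) C.nil))) C.nil)))) (C.cons (nat_lit 706) (C.miq (nat_lit 1133579111) (nat_lit 632289805380396203284498657)) (C.cons (nat_lit 704) (C.node (nat_lit 7) (nat_lit 8) (nat_lit 9) (C.cons (nat_lit 930) (C.miq (nat_lit 611388312) (nat_lit 1415656986847057289473560321)) (C.cons (nat_lit 928) (C.node (nat_lit 1) (nat_lit 7) (nat_lit 9) (C.cons (nat_lit 642) (C.node (nat_lit 4) (nat_lit 5) (nat_lit 7) (C.cons (nat_lit 180) (C.miq (nat_lit 2236323616) (nat_lit 2533979372117459420189622917)) (C.cons (nat_lit 176) (C.node (nat_lit 2) (nat_lit 4) (nat_lit 7) (C.cons (nat_lit 404) (C.node (nat_lit 2) (nat_lit 4) (nat_lit 9) (C.cons (nat_lit 532) (C.node (nat_lit 1) (nat_lit 4) (nat_lit 9) C.nil) C.nil)) (C.cons (nat_lit 148) (C.node (nat_lit 4) (nat_lit 7) (nat_lit 8) C.nil) C.nil))) C.nil))) C.nil)) (C.cons (nat_lit 898) (C.miq (nat_lit 611388312) (nat_lit 1415656986847057289471463169)) (C.cons (nat_lit 896) (C.node (nat_lit 1) (nat_lit 7) (nat_lit 9) (C.cons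 (nat_lit 674) (C.node (nat_lit 5) (nat_lit 9) (nat_lit 11) (C.cons (nat_lit 2596) (C.miq (nat_lit 364149024) (nat_lit 2533930119239298348243288709)) (C.cons (nat_lit 2592) (C.node (nat_lit 1) (nat_lit 9) (nat_lit 10) (C.cons (nat_lit 1542) (C.node (nat_lit 1) (nat_lit 4) (nat_lit 9) (C.cons (nat_lit 530) (C.miq (nat_lit 2224096930) (nat_lit 640735535984308856126047301)) C.nil)) (C.cons (nat_lit 1538) (C.node (nat_lit 1) (nat_lit 9) (nat_lit 11) (C.cons (nat_lit 2566) (C.node (nat_lit 1) (nat_lit 4) (nat_lit 9) C.nil) C.nil)) C.nil))) C.nil))) (C.cons (nat_lit 642) (C.node (nat_lit 5) (nat_lit 7) (nat_lit 9) (C.cons (nat_lit 672) (C.node (nat_lit 1) (nat_lit 4) (nat_lit 9) (C.cons (nat_lit 786) (C.node (nat_lit 2) (nat_lit 4) (nat_lit 9) C.nil) (C.cons (nat_lit 534) (C.node (nat_lit 4) (nat_lit 8) (nat_lit 9) C.nil) (C.cons (nat_lit 530) (C.node (nat_lit 2) (nat_lit 4) (nat_lit 9) C.nil) C.nil)))) C.nil)) C.nil))) C.nil))))) C.nil))))) C.nil))))) List.nil)))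

theorem ok12_255 : okL par12 (nat_lit 258) c12_255 (nat_lit 255) = true := by decide +kernel

noncomputable def c12_258 : List C :=
  (List.cons (C.node (nat_lit 7) (nat_lit 9) (nat_lit 10) (C.cons (nat_lit 1728) (C.miq (nat_lit 611715994) (nat_lit 251476733355750573211651841)) (C.cons (nat_lit 1696) (C.miq (nat_lit 1397203129) (nat_lit 183788010559152416976015105)) (C.cons (nat_lit 1672) (C.node (nat_lit 6) (nat_lit 7) (nat_lit 10) (C.cons (nat_lit 1472) (C.node (nat_lit 6) (nat_lit 7) (nat_lit 9) (C.cons (nat_lit 706) (C.miq (nat_lit 1133579111) (nat_lit 632289805380396203284498657)) (C.cons (nat_lit 704) (C.node (nat_lit 3) (nat_lit 6) (nat_lit 7) (C.cons (nat_lit 206) (C.miq (nat_lit 2838563687) (nat_lit 632289805876918062169327841)) (C.cons (nat_lit 204) (C.miq (nat_lit 3126986867) (nat_lit 1321394235807382490443415945)) (C.cons (nat_lit 202) (C.miq (nat_lit 2838563687) (nat_lit 632289805876918062169065697)) (C.cons (nat_lit 200) (C.node (nat_lit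 3) (nat_lit 8) (nat_lit 10) (C.cons (nat_lit 1304) (C.miq (nat_lit 2209784839) (nat_lit 3181919911200032778713367699)) (C.cons (nat_lit 1292) (C.miq (nat_lit 3064072067) (nat_lit 1321394235366029727032410505)) (C.cons (nat_lit 1290) (C.miq (nat_lit 665323825) (nat_lit 1779543658147984072027800075)) (C.cons (nat_lit 1288) (C.node (nat_lit 1) (nat_lit 6) (nat_lit 7) (C.cons (nat_lit 198) (C.node (nat_lit 1) (nat_lit 6) (nat_lit 11) (C.cons (nat_lit 2370) (C.miq (nat_lit 2551319399) (nat_lit 317959389789730580239616225)) (C.cons (nat_lit 2114) (C.node (nat_lit 1) (nat_lit 7) (nat_lit 11) (C.cons (nat_lit 2434) (C.miq (nat_lit 2819754870) (nat_lit 317967653931075876996647137)) (C.cons (nat_lit 2178) (C.node (nat_lit 2) (nat_lit 6) (nat_lit 11) (C.cons (nat_lit 2372) (C.miq (nat_lit 908172160) (nat_lit 239376960671699453069430529)) (C.cons (nat_lit 2116) (C.node (nat_lit 6) (nat_lit 8) (nat_lit 11) C.nil) C.nil))) C.nil))) C.nil))) (C.cons (nat_lit 194)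 (C.node (nat_lit 2) (nat_lit 6) (nat_lit 7) (C.cons (nat_lit 196) (C.node (nat_lit 1) (nat_lit 8) (nat_lit 10) (C.cons (nat_lit 1314) (C.node (nat_lit 2) (nat_lit 8) (nat_lit 10) (C.cons (nat_lit 1300) (C.miq (nat_lit 2018208288) (nat_lit 2804749831369555976440841285)) (C.cons (nat_lit 1284) (C.node (nat_lit 4) (nat_lit 8) (nat_lit 10) (C.cons (nat_lit 1296) (C.node (nat_lit 1) (nat_lit 6) (nat_lit 10) (C.cons (nat_lit 1602) (C.miq (nat_lit 376674944) (nat_lit 241794812021005619944820481)) (C.cons (nat_lit 1098) (C.miq (nat_lit 347514771) (nat_lit 2572614398994542628354655880)) (C.cons (nat_lit 1090) (C.node (nat_lit 1) (nat_lit 9) (nat_lit 10) (C.cons (nat_lit 1542) (C.miq (nat_lit 974682400) (nat_lit 1588535777014676487334724229)) (C.cons (nat_lit 1538) (C.node (nat_lit 3) (nat_lit 6) (nat_lit 10) C.nil) C.nil))) C.nil)))) C.nil)) C.nil))) (C.cons (nat_lit 1282) (C.node (nat_lit 2) (nat_lit 3) (nat_lit 10) (C.cons (nat_lit 1038) (C.node (nat_lit 1)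 (nat_lit 3) (nat_lit 7) (C.cons (nat_lit 170) (C.miq (nat_lit 561423184) (nat_lit 234551771588682380551980073)) (C.cons (nat_lit 138) (C.node (nat_lit 3) (nat_lit 4) (nat_lit 10) (C.cons (nat_lit 1112) (C.miq (nat_lit 1779974944) (nat_lit 1549849117611712074387752989)) (C.cons (nat_lit 1048) (C.node (nat_lit 3) (nat_lit 6) (nat_lit 10) (C.cons (nat_lit 1096) (C.node (nat_lit 4) (nat_lit 6) (nat_lit 10) C.nil) C.nil)) C.nil))) C.nil))) (C.cons (nat_lit 1036) (C.node (nat_lit 1) (nat_lit 3) (nat_lit 10) (C.cons (nat_lit 1098) (C.miq (nat_lit 347514771) (nat_lit 2572614398994542628354655880)) (C.cons (nat_lit 1034) (C.node (nat_lit 2) (nat_lit 7) (nat_lit 10) (C.cons (nat_lit 1188) (C.node (nat_lit 2) (nat_lit 3) (nat_lit 7) (C.cons (nat_lit 142) (C.miq (nat_lit 2318469490) (nat_lit 1250034150056370518998516357)) (C.cons (nat_lit 140) (C.node (nat_lit 4) (nat_lit 5) (nat_lit 7) (C.cons (nat_lit 432) (C.miq (nat_lit 624994182) (nat_lit 678227547429473659330299328))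 C.nil)) C.nil))) (C.cons (nat_lit 1156) (C.node (nat_lit 5) (nat_lit 7) (nat_lit 10) (C.cons (nat_lit 1184) (C.node (nat_lit 3) (nat_lit 4) (nat_lit 10) C.nil) C.nil)) C.nil))) C.nil))) C.nil))) C.nil))) C.nil)) C.nil))) C.nil))))) C.nil))))) C.nil)))
  (C.cons (nat_lit 1216) (C.node (nat_lit 3) (nat_lit 6) (nat_lit 7) (C.cons (nat_lit 206) (C.miq (nat_lit 2838563687) (nat_lit 632289805876918062169327841)) (C.cons (nat_lit 204) (C.node (nat_lit 6) (nat_lit 7) (nat_lit 9) (C.cons (nat_lit 962) (C.miq (nat_lit 305561785) (nat_lit 246638613043220099923185409)) (C.cons (nat_lit 960) (C.miq (nat_lit 2252052256) (nat_lit 3181963611439907960166089349)) (C.cons (nat_lit 706) (C.miq (nat_lit 1133579111) (nat_lit 632289805380396203284498657)) (C.cons (nat_lit 704) (C.node (nat_lit 1) (nat_lit 3) (nat_lit 7) (C.cons (nat_lit 170) (C.node (nat_lit 1) (nat_lit 2) (nat_lit 3) (C.cons (nat_lit 1038) (C.miq (nat_lit 1445163169) (nat_lit 246624003787674198794437779))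 (C.cons (nat_lit 14) (C.node (nat_lit 1) (nat_lit 7) (nat_lit 9) (C.cons (nat_lit 898) (C.miq (nat_lit 611388312) (nat_lit 1415656986847057289471463169)) (C.cons (nat_lit 642) (C.node (nat_lit 2) (nat_lit 3) (nat_lit 10) (C.cons (nat_lit 1292) (C.miq (nat_lit 3123054647) (nat_lit 1321397851369220164421419401)) (C.cons (nat_lit 1036) (C.node (nat_lit 1) (nat_lit 3) (nat_lit 10) (C.cons (nat_lit 1354) (C.miq (nat_lit 1930599040) (nat_lit 16936860095164327569854209)) (C.cons (nat_lit 1290) (C.miq (nat_lit 1930599040) (nat_lit 16936860095164052691947265)) (C.cons (nat_lit 1098) (C.miq (nat_lit 347514771) (nat_lit 2572614398994542628354655880)) (C.cons (nat_lit 1034) (C.node (nat_lit 3) (nat_lit 5) (nat_lit 11) (C.cons (nat_lit 2344) (C.miq (nat_lit 2199565680) (nat_lit 1250100152085291760664905953)) (C.cons (nat_lit 2088) (C.node (nat_lit 1) (nat_lit 3) (nat_lit 11) (C.cons (nat_lit 2314) (C.node (nat_lit 1) (nat_lit 3) (nat_lit 4) C.nil) C.nil)) C.nil)))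 C.nil))))) C.nil))) C.nil))) C.nil))) (C.cons (nat_lit 138) (C.node (nat_lit 3) (nat_lit 5) (nat_lit 7) (C.cons (nat_lit 168) (C.node (nat_lit 1) (nat_lit 6) (nat_lit 7) (C.cons (nat_lit 450) (C.node (nat_lit 1) (nat_lit 6) (nat_lit 11) (C.cons (nat_lit 2118) (C.miq (nat_lit 840436583) (nat_lit 317954740713701064199768289)) (C.cons (nat_lit 2114) (C.node (nat_lit 1) (nat_lit 7) (nat_lit 11) (C.cons (nat_lit 2182) (C.miq (nat_lit 1108872054) (nat_lit 317953707696033211342784737)) (C.cons (nat_lit 2178) (C.node (nat_lit 1) (nat_lit 2) (nat_lit 7) (C.cons (nat_lit 166) (C.node (nat_lit 1) (nat_lit 7) (nat_lit 9) C.nil) C.nil)) C.nil))) C.nil))) (C.cons (nat_lit 194) (C.node (nat_lit 6) (nat_lit 7) (nat_lit 8) (C.cons (nat_lit 448) (C.node (nat_lit 2) (nat_lit 3) (nat_lit 10) (C.cons (nat_lit 1292) (C.miq (nat_lit 3123054647) (nat_lit 1321397851369220164421419401)) (C.cons (nat_lit 1038) (C.node (nat_lit 3) (nat_lit 6) (nat_lit 10) (C.cons (nat_lit 1352)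 (C.miq (nat_lit 2590115895) (nat_lit 1321367820069868422969426313)) (C.cons (nat_lit 1112) (C.miq (nat_lit 2251424929) (nat_lit 246625718789937580475286675)) (C.cons (nat_lit 1096) (C.node (nat_lit 3) (nat_lit 4) (nat_lit 6) (C.cons (nat_lit 122) (C.miq (nat_lit 592016976) (nat_lit 647996137520790199575054561)) C.nil)) C.nil)))) (C.cons (nat_lit 1036) (C.node (nat_lit 1) (nat_lit 3) (nat_lit 10) (C.cons (nat_lit 1354) (C.miq (nat_lit 657525160) (nat_lit 166836614782068752973958913)) (C.cons (nat_lit 1290) (C.miq (nat_lit 657525160) (nat_lit 166836614782068752969764609)) (C.cons (nat_lit 1098) (C.miq (nat_lit 347514771) (nat_lit 2572614398994542628354655880)) (C.cons (nat_lit 1034) (C.node (nat_lit 1) (nat_lit 2) (nat_lit 3) (C.cons (nat_lit 46) (C.node (nat_lit 2) (nat_lit 3) (nat_lit 8) (C.cons (nat_lit 780) (C.miq (nat_lit 1931585920) (nat_lit 55632189310212767073373953)) C.nil)) (C.cons (nat_lit 14) (C.node (nat_lit 1) (nat_lit 2) (nat_lit 7) C.nil)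 C.nil))) C.nil))))) C.nil)))) C.nil)) C.nil))) C.nil)) C.nil))) C.nil))))) (C.cons (nat_lit 202) (C.miq (nat_lit 2838563687) (nat_lit 632289805876918062169065697)) (C.cons (nat_lit 200) (C.node (nat_lit 6) (nat_lit 7) (nat_lit 9) (C.cons (nat_lit 962) (C.miq (nat_lit 611388312) (nat_lit 1415656986847057289475657473)) (C.cons (nat_lit 960) (C.node (nat_lit 6) (nat_lit 9) (nat_lit 10)
  (C.cons (nat_lit 1634) (C.miq (nat_lit 1450420608) (nat_lit 241804810165298570753281793)) (C.cons (nat_lit 1632) (C.miq (nat_lit 1450420608) (nat_lit 241804810164735620799860481)) (C.cons (nat_lit 1602) (C.miq (nat_lit 1265238929) (nat_lit 3791212972033422236850455051)) (C.cons (nat_lit 1600) (C.node (nat_lit 1) (nat_lit 6) (nat_lit 7) (C.cons (nat_lit 198) (C.node (nat_lit 1) (nat_lit 6) (nat_lit 11) (C.cons (nat_lit 2370) (C.miq (nat_lit 2551319399) (nat_lit 317959389789730580239616225)) (C.cons (nat_lit 2114) (C.node (nat_lit 2) (nat_lit 6) (nat_lit 11) C.nil) C.nil)))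 (C.cons (nat_lit 194) (C.node (nat_lit 2) (nat_lit 6) (nat_lit 7) (C.cons (nat_lit 196) (C.node (nat_lit 1) (nat_lit 7) (nat_lit 9) (C.cons (nat_lit 674) (C.node (nat_lit 1) (nat_lit 8) (nat_lit 9) (C.cons (nat_lit 786) (C.miq (nat_lit 1501983040) (nat_lit 1160610716469041059698115731)) (C.cons (nat_lit 770) (C.node (nat_lit 4) (nat_lit 8) (nat_lit 9) (C.cons (nat_lit 788) (C.miq (nat_lit 1749776672) (nat_lit 2804749831225438589341729413)) (C.cons (nat_lit 784) (C.node (nat_lit 5) (nat_lit 9) (nat_lit 11) (C.cons (nat_lit 2596) (C.miq (nat_lit 364149024) (nat_lit 2533930119239298348243288709)) (C.cons (nat_lit 2592) (C.node (nat_lit 1) (nat_lit 6) (nat_lit 11) C.nil) C.nil))) C.nil))) C.nil))) (C.cons (nat_lit 642) (C.node (nat_lit 5) (nat_lit 7) (nat_lit 9) (C.cons (nat_lit 672) (C.node (nat_lit 2) (nat_lit 6) (nat_lit 11) (C.cons (nat_lit 2372) (C.miq (nat_lit 426247090) (nat_lit 1160573638470958110659053597)) (C.cons (nat_lit 2118) (C.node (nat_lit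 6) (nat_lit 8) (nat_lit 11) C.nil) (C.cons (nat_lit 2116) (C.node (nat_lit 1) (nat_lit 6) (nat_lit 11) C.nil) C.nil)))) C.nil)) C.nil))) C.nil)) C.nil))) C.nil))))) (C.cons (nat_lit 706) (C.miq (nat_lit 1133579111) (nat_lit 632289805380396203284498657)) (C.cons (nat_lit 704) (C.node (nat_lit 6) (nat_lit 9) (nat_lit 10) (C.cons (nat_lit 1634) (C.miq (nat_lit 1265238929) (nat_lit 3791212972033422236852552203)) (C.cons (nat_lit 1632) (C.node (nat_lit 1) (nat_lit 9) (nat_lit 10) (C.cons (nat_lit 1542) (C.node (nat_lit 1) (nat_lit 9) (nat_lit 11) (C.cons (nat_lit 2594) (C.miq (nat_lit 302750309) (nat_lit 2510986778627751107077670496)) (C.cons (nat_lit 2562) (C.node (nat_lit 2) (nat_lit 3) (nat_lit 10) (C.cons (nat_lit 1292) (C.miq (nat_lit 2458099975) (nat_lit 1561963002332227679780668563)) (C.cons (nat_lit 1036) (C.node (nat_lit 2) (nat_lit 4) (nat_lit 9) (C.cons (nat_lit 788) (C.miq (nat_lit 958954000) (nat_lit 952640795897381541439276179)) (C.cons (nat_lit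 596) (C.miq (nat_lit 1497605664) (nat_lit 648003885555249460243399749)) (C.cons (nat_lit 532) (C.node (nat_lit 2) (nat_lit 6) (nat_lit 9) (C.cons (nat_lit 836) (C.miq (nat_lit 958954000) (nat_lit 1010669235238883741825172627)) (C.cons (nat_lit 580) (C.node (nat_lit 4) (nat_lit 8) (nat_lit 9) (C.cons (nat_lit 786) (C.miq (nat_lit 2250850465) (nat_lit 701191474612188618688955539)) (C.cons (nat_lit 784) (C.node (nat_lit 1) (nat_lit 4) (nat_lit 9) (C.cons (nat_lit 530) (C.node (nat_lit 4) (nat_lit 6) (nat_lit 9) C.nil) C.nil)) C.nil))) C.nil))) C.nil)))) C.nil))) C.nil))) (C.cons (nat_lit 1538) (C.node (nat_lit 2) (nat_lit 9) (nat_lit 10) (C.cons (nat_lit 1540) (C.node (nat_lit 4) (nat_lit 6) (nat_lit 10) (C.cons (nat_lit 1112) (C.node (nat_lit 1) (nat_lit 6) (nat_lit 10) (C.cons (nat_lit 1346) (C.node (nat_lit 1) (nat_lit 3) (nat_lit 10) (C.cons (nat_lit 1038) (C.node (nat_lit 3) (nat_lit 8) (nat_lit 10) (C.cons (nat_lit 1288) (C.node (nat_lit 1) (nat_lit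 6) (nat_lit 7) (C.cons (nat_lit 198) (C.miq (nat_lit 2792980768) (nat_lit 851154631331552226479243527)) (C.cons (nat_lit 194) (C.node (nat_lit 2) (nat_lit 3) (nat_lit 6) (C.cons (nat_lit 76) (C.miq (nat_lit 2184581194) (nat_lit 91903191682271869928998035)) C.nil)) C.nil))) C.nil)) (C.cons (nat_lit 1034) (C.miq (nat_lit 564332644) (nat_lit 1250067611443001361358651729)) C.nil))) (C.cons (nat_lit 1090) (C.node (nat_lit 6) (nat_lit 8) (nat_lit 10) (C.cons (nat_lit 1344)
  (C.node (nat_lit 1) (nat_lit 3) (nat_lit 10) C.nil) C.nil)) C.nil))) (C.cons (nat_lit 1104) (C.node (nat_lit 3) (nat_lit 4) (nat_lit 6) (C.cons (nat_lit 122) (C.miq (nat_lit 446054579) (nat_lit 1972969188443475500555831325)) (C.cons (nat_lit 120) (C.miq (nat_lit 2521539888) (nat_lit 2572664998543285679686485033)) (C.cons (nat_lit 90) (C.miq (nat_lit 446054579) (nat_lit 1972968598147665141850179613)) (C.cons (nat_lit 88) (C.node (nat_lit 4) (nat_lit 5) (nat_lit 6) (C.cons (nat_lit 118)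 (C.miq (nat_lit 2504762912) (nat_lit 2533979372315617537505952837)) (C.cons (nat_lit 116) (C.miq (nat_lit 2504762912) (nat_lit 2533979372315617528916018245)) (C.cons (nat_lit 114) (C.node (nat_lit 1) (nat_lit 2) (nat_lit 4) C.nil) C.nil)))) C.nil))))) C.nil))) C.nil)) C.nil))) (C.cons (nat_lit 1602) (C.miq (nat_lit 1265238929) (nat_lit 3791212972033422236850455051)) (C.cons (nat_lit 1600) (C.node (nat_lit 7) (nat_lit 8) (nat_lit 9) (C.cons (nat_lit 930) (C.miq (nat_lit 611388312) (nat_lit 1415656986847057289473560321)) (C.cons (nat_lit 928) (C.node (nat_lit 1) (nat_lit 7) (nat_lit 9) (C.cons (nat_lit 642) (C.node (nat_lit 4) (nat_lit 5) (nat_lit 7) (C.cons (nat_lit 180) (C.miq (nat_lit 2236323616) (nat_lit 2533979372117459420189622917)) (C.cons (nat_lit 176) (C.node (nat_lit 2) (nat_lit 4) (nat_lit 7) (C.cons (nat_lit 404) (C.node (nat_lit 7) (nat_lit 8) (nat_lit 10) (C.cons (nat_lit 1408) (C.node (nat_lit 2) (nat_lit 4) (nat_lit 10) (C.cons (nat_lit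 1044) (C.node (nat_lit 4) (nat_lit 8) (nat_lit 9) C.nil) C.nil)) C.nil)) (C.cons (nat_lit 148) (C.node (nat_lit 4) (nat_lit 7) (nat_lit 8) C.nil) C.nil))) C.nil))) C.nil)) (C.cons (nat_lit 898) (C.miq (nat_lit 611388312) (nat_lit 1415656986847057289471463169)) (C.cons (nat_lit 896) (C.node (nat_lit 1) (nat_lit 7) (nat_lit 9) (C.cons (nat_lit 674) (C.node (nat_lit 5) (nat_lit 9) (nat_lit 11) (C.cons (nat_lit 2596) (C.miq (nat_lit 364149024) (nat_lit 2533930119239298348243288709)) (C.cons (nat_lit 2592) (C.node (nat_lit 1) (nat_lit 3) (nat_lit 7) (C.cons (nat_lit 142) (C.node (nat_lit 3) (nat_lit 5) (nat_lit 7) (C.cons (nat_lit 168) (C.node (nat_lit 2) (nat_lit 7) (nat_lit 11) (C.cons (nat_lit 2436) (C.miq (nat_lit 2266608176) (nat_lit 814886857049920835326511133)) C.nil)) C.nil)) (C.cons (nat_lit 138) (C.node (nat_lit 1) (nat_lit 9) (nat_lit 10) (C.cons (nat_lit 1542) (C.node (nat_lit 1) (nat_lit 3) (nat_lit 10) (C.cons (nat_lit 1354) (C.miq (nat_lit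 657525160) (nat_lit 166836614782068752973958913)) (C.cons (nat_lit 1290) (C.miq (nat_lit 657525160) (nat_lit 166836614782068752969764609)) (C.cons (nat_lit 1098) (C.miq (nat_lit 1369864480) (nat_lit 1327442479575863132852388485)) (C.cons (nat_lit 1034) (C.miq (nat_lit 2208368530) (nat_lit 1250034149085844799391924869)) C.nil))))) (C.cons (nat_lit 1538) (C.node (nat_lit 1) (nat_lit 9) (nat_lit 11) (C.cons (nat_lit 2566) (C.node (nat_lit 2) (nat_lit 7) (nat_lit 11) (C.cons (nat_lit 2436) (C.miq (nat_lit 657569801) (nat_lit 166879098137786696042483457)) C.nil)) (C.cons (nat_lit 2562) (C.node (nat_lit 2) (nat_lit 9) (nat_lit 11) C.nil) C.nil))) C.nil))) C.nil))) C.nil))) (C.cons (nat_lit 642) (C.node (nat_lit 5) (nat_lit 7) (nat_lit 9) (C.cons (nat_lit 672) (C.node (nat_lit 1) (nat_lit 6) (nat_lit 7) (C.cons (nat_lit 450) (C.node (nat_lit 2) (nat_lit 6) (nat_lit 7) (C.cons (nat_lit 196) (C.node (nat_lit 1) (nat_lit 6) (nat_lit 11) C.nil) C.nil)) (C.cons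 (nat_lit 198) (C.node (nat_lit 6) (nat_lit 7) (nat_lit 8) (C.cons (nat_lit 448) (C.node (nat_lit 1) (nat_lit 6) (nat_lit 11) C.nil) C.nil)) (C.cons (nat_lit 194) (C.node (nat_lit 2) (nat_lit 6) (nat_lit 7) (C.cons (nat_lit 452) (C.node (nat_lit 2) (nat_lit 6) (nat_lit 11) C.nil) C.nil)) C.nil)))) C.nil)) C.nil))) C.nil))))) C.nil))))) C.nil))))) C.nil))))) C.nil))) (C.cons (nat_lit 1664) (C.node (nat_lit 3) (nat_lit 7) (nat_lit 9) (C.cons (nat_lit 680) (C.node (nat_lit 3) (nat_lit 9) (nat_lit 10) (C.cons (nat_lit 1548) (C.miq (nat_lit 1698301842) (nat_lit 1287526160820648178344526469))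
  (C.cons (nat_lit 1544) (C.node (nat_lit 1) (nat_lit 7) (nat_lit 9) (C.cons (nat_lit 962) (C.miq (nat_lit 611388312) (nat_lit 1415656986847057289475657473)) (C.cons (nat_lit 898) (C.miq (nat_lit 611388312) (nat_lit 1415656986847057289471463169)) (C.cons (nat_lit 706) (C.miq (nat_lit 1133579111) (nat_lit 632289805380396203284498657)) (C.cons (nat_lit 642) (C.node (nat_lit 2) (nat_lit 3) (nat_lit 9) (C.cons (nat_lit 780) (C.node (nat_lit 6) (nat_lit 7) (nat_lit 9) (C.cons (nat_lit 960) (C.miq (nat_lit 2209780231) (nat_lit 3181910466319574151626556037)) (C.cons (nat_lit 704) (C.node (nat_lit 7) (nat_lit 8) (nat_lit 9) (C.cons (nat_lit 896) (C.node (nat_lit 1) (nat_lit 3) (nat_lit 7) (C.cons (nat_lit 206) (C.miq (nat_lit 2838563687) (nat_lit 632289805876918062169327841)) (C.cons (nat_lit 202) (C.miq (nat_lit 2838563687) (nat_lit 632289805876918062169065697)) (C.cons (nat_lit 142) (C.miq (nat_lit 2838956065) (nat_lit 822091159556406888314568967)) (C.cons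 (nat_lit 138) (C.node (nat_lit 6) (nat_lit 8) (nat_lit 9) (C.cons (nat_lit 866) (C.miq (nat_lit 542653289) (nat_lit 349393950913638614085798472)) (C.cons (nat_lit 864) (C.miq (nat_lit 542653289) (nat_lit 349393950913638614085667400)) (C.cons (nat_lit 834) (C.miq (nat_lit 380668210) (nat_lit 2747893239712504934785942284)) (C.cons (nat_lit 832) (C.node (nat_lit 2) (nat_lit 3) (nat_lit 6) (C.cons (nat_lit 204) (C.miq (nat_lit 2204865136) (nat_lit 3181963611389242464371016325)) (C.cons (nat_lit 110) (C.miq (nat_lit 412491955) (nat_lit 1005828311135263997422995485)) (C.cons (nat_lit 108) (C.miq (nat_lit 2152897379) (nat_lit 44744644867273920927763016)) (C.cons (nat_lit 78) (C.miq (nat_lit 412491955) (nat_lit 1005827720839453638717343773)) (C.cons (nat_lit 76) (C.node (nat_lit 2) (nat_lit 3) (nat_lit 5) (C.cons (nat_lit 46) (C.node (nat_lit 3) (nat_lit 5) (nat_lit 11) (C.cons (nat_lit 2344) (C.miq (nat_lit 1966214025) (nat_lit 55622486492003174215061249))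 (C.cons (nat_lit 2088) (C.node (nat_lit 1) (nat_lit 3) (nat_lit 11) C.nil) C.nil))) (C.cons (nat_lit 44) (C.node (nat_lit 1) (nat_lit 2) (nat_lit 3) (C.cons (nat_lit 1038) (C.node (nat_lit 2) (nat_lit 3) (nat_lit 7) C.nil) (C.cons (nat_lit 14) (C.node (nat_lit 2) (nat_lit 3) (nat_lit 7) (C.cons (nat_lit 140) (C.node (nat_lit 2) (nat_lit 3) (nat_lit 10) C.nil) C.nil)) C.nil))) C.nil))) C.nil)))))) C.nil))))) C.nil))))) C.nil)) C.nil))) (C.cons (nat_lit 524) (C.node (nat_lit 3) (nat_lit 8) (nat_lit 9) (C.cons (nat_lit 776) (C.node (nat_lit 6) (nat_lit 7) (nat_lit 9) (C.cons (nat_lit 960) (C.node (nat_lit 6) (nat_lit 9) (nat_lit 10) (C.cons (nat_lit 1634) (C.miq (nat_lit 895945368) (nat_lit 2747895637854250950197251841)) (C.cons (nat_lit 1632) (C.miq (nat_lit 895945368) (nat_lit 2747895637854250941607317249)) (C.cons (nat_lit 1602) (C.miq (nat_lit 1265238929) (nat_lit 3791212972033422236850455051)) (C.cons (nat_lit 1600) (C.node (nat_lit 6) (nat_lit 7)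 (nat_lit 10) (C.cons (nat_lit 1224) (C.node (nat_lit 1) (nat_lit 3) (nat_lit 7) (C.cons (nat_lit 142) (C.node (nat_lit 1) (nat_lit 6) (nat_lit 7) (C.cons (nat_lit 194) (C.node (nat_lit 2) (nat_lit 6) (nat_lit 7) (C.cons (nat_lit 196) (C.node (nat_lit 1) (nat_lit 3) (nat_lit 10) (C.cons (nat_lit 1290) (C.miq (nat_lit 2200543600) (nat_lit 633547983785156135818167443)) (C.cons (nat_lit 1034) (C.node (nat_lit 2) (nat_lit 3) (nat_lit 10) (C.cons (nat_lit 1292) (C.node (nat_lit 3) (nat_lit 4) (nat_lit 10) C.nil) C.nil)) C.nil))) C.nil)) C.nil)) (C.cons (nat_lit 138) (C.node (nat_lit 2) (nat_lit 3) (nat_lit 7) (C.cons (nat_lit 140) (C.node (nat_lit 1) (nat_lit 6) (nat_lit 7) (C.cons (nat_lit 194) (C.node (nat_lit 2) (nat_lit 6) (nat_lit 7) C.nil) C.nil)) C.nil)) C.nil))) (C.cons (nat_lit 1216) (C.node (nat_lit 3) (nat_lit 6) (nat_lit 7) (C.cons (nat_lit 206) (C.miq (nat_lit 2838563687) (nat_lit 632289805876918062169327841)) (C.cons (nat_lit 204) (C.miq (nat_lit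 2252052256) (nat_lit 3181963611439907960166089349)) (C.cons (nat_lit 202)
  (C.miq (nat_lit 2838563687) (nat_lit 632289805876918062169065697)) (C.cons (nat_lit 200) (C.node (nat_lit 1) (nat_lit 3) (nat_lit 7) (C.cons (nat_lit 142) (C.node (nat_lit 1) (nat_lit 6) (nat_lit 7) (C.cons (nat_lit 194) (C.node (nat_lit 2) (nat_lit 6) (nat_lit 7) C.nil) C.nil)) (C.cons (nat_lit 138) (C.node (nat_lit 2) (nat_lit 3) (nat_lit 7) (C.cons (nat_lit 1164) (C.node (nat_lit 1) (nat_lit 6) (nat_lit 7) C.nil) C.nil)) C.nil))) C.nil))))) C.nil))) C.nil))))) (C.cons (nat_lit 704) (C.node (nat_lit 7) (nat_lit 8) (nat_lit 9) (C.cons (nat_lit 896) (C.node (nat_lit 6) (nat_lit 9) (nat_lit 10) (C.cons (nat_lit 1634) (C.miq (nat_lit 1265238929) (nat_lit 3791212972033422236852552203)) (C.cons (nat_lit 1632) (C.node (nat_lit 1) (nat_lit 9) (nat_lit 10) (C.cons (nat_lit 1542) (C.node (nat_lit 1) (nat_lit 9) (nat_lit 11) (C.cons (nat_lit 2594) (C.miq (nat_lit 302750309) (nat_lit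 2510986778627751107077670496)) C.nil)) C.nil)) (C.cons (nat_lit 1602) (C.miq (nat_lit 1265238929) (nat_lit 3791212972033422236850455051)) (C.cons (nat_lit 1600) (C.node (nat_lit 4) (nat_lit 8) (nat_lit 9) C.nil) C.nil))))) C.nil)) C.nil))) C.nil)) C.nil))) C.nil))))) C.nil))) (C.cons (nat_lit 648) (C.node (nat_lit 3) (nat_lit 9) (nat_lit 10) (C.cons (nat_lit 1548) (C.node (nat_lit 6) (nat_lit 9) (nat_lit 10) (C.cons (nat_lit 1634) (C.miq (nat_lit 1497066016) (nat_lit 3181934687134920290328183877)) (C.cons (nat_lit 1632) (C.miq (nat_lit 1497066016) (nat_lit 3181934687134357340374762565)) (C.cons (nat_lit 1602) (C.miq (nat_lit 1265238929) (nat_lit 3791212972033422236850455051)) (C.cons (nat_lit 1600) (C.node (nat_lit 1) (nat_lit 9) (nat_lit 10) (C.cons (nat_lit 1570) (C.node (nat_lit 1) (nat_lit 9) (nat_lit 11) (C.cons (nat_lit 2566) (C.miq (nat_lit 353081906) (nat_lit 2747935722771265540528604684)) (C.cons (nat_lit 2562) (C.node (nat_lit 5) (nat_lit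 10) (nat_lit 11) (C.cons (nat_lit 3108) (C.miq (nat_lit 1359718706) (nat_lit 2479564188952103486448535052)) (C.cons (nat_lit 3104) (C.node (nat_lit 1) (nat_lit 7) (nat_lit 9) (C.cons (nat_lit 962) (C.miq (nat_lit 611388312) (nat_lit 1415656986847057289475657473)) (C.cons (nat_lit 898) (C.miq (nat_lit 611388312) (nat_lit 1415656986847057289471463169)) (C.cons (nat_lit 706) (C.miq (nat_lit 1133579111) (nat_lit 632289805380396203284498657)) (C.cons (nat_lit 642) (C.node (nat_lit 3) (nat_lit 5) (nat_lit 9) (C.cons (nat_lit 808) (C.miq (nat_lit 2266575013) (nat_lit 776145281272428182835954729)) (C.cons (nat_lit 552) (C.node (nat_lit 3) (nat_lit 8) (nat_lit 9) C.nil) C.nil))) C.nil))))) C.nil))) C.nil))) (C.cons (nat_lit 1538) (C.node (nat_lit 5) (nat_lit 9) (nat_lit 10) (C.cons (nat_lit 1568) (C.node (nat_lit 3) (nat_lit 5) (nat_lit 9) (C.cons (nat_lit 808) (C.node (nat_lit 3) (nat_lit 5) (nat_lit 7) (C.cons (nat_lit 174) (C.miq (nat_lit 3124037927) (nat_lit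 1287547928420011647039308421)) (C.cons (nat_lit 172) (C.miq (nat_lit 3124037927) (nat_lit 1287547928420011647039177349)) (C.cons (nat_lit 170) (C.miq (nat_lit 446001283) (nat_lit 1895598821431854771313574281)) (C.cons (nat_lit 168) (C.node (nat_lit 2) (nat_lit 3) (nat_lit 8) (C.cons (nat_lit 332) (C.node (nat_lit 2) (nat_lit 3) (nat_lit 7) (C.cons (nat_lit 142) (C.miq (nat_lit 1668579856) (nat_lit 183762941227626776904270087)) (C.cons (nat_lit 140) (C.node (nat_lit 1) (nat_lit 3) (nat_lit 7) (C.cons (nat_lit 202) (C.miq (nat_lit 2838563687) (nat_lit 632289805876918062169065697)) (C.cons (nat_lit 138) (C.node (nat_lit 3) (nat_lit 6) (nat_lit 7) (C.cons (nat_lit 1224) (C.miq (nat_lit 308938807) (nat_lit 1321377522050129346723053961)) (C.cons (nat_lit 200) (C.node (nat_lit 3) (nat_lit 7) (nat_lit 10) C.nil) C.nil))) C.nil))) C.nil))) (C.cons (nat_lit 268) (C.node (nat_lit 3) (nat_lit 5) (nat_lit 11) (C.cons (nat_lit 2090) (C.node (nat_lit 3) (nat_lit 8)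 (nat_lit 11) (C.cons (nat_lit 2312) (C.node (nat_lit 1) (nat_lit 9) (nat_lit 11) C.nil) C.nil)) (C.cons (nat_lit 2088) (C.node (nat_lit 1) (nat_lit 3) (nat_lit 11) (C.cons (nat_lit 2314)
  (C.node (nat_lit 5) (nat_lit 7) (nat_lit 9) C.nil) C.nil)) C.nil))) C.nil))) C.nil))))) (C.cons (nat_lit 552) (C.node (nat_lit 3) (nat_lit 8) (nat_lit 9) (C.cons (nat_lit 776) (C.node (nat_lit 3) (nat_lit 7) (nat_lit 10) (C.cons (nat_lit 1224) (C.node (nat_lit 1) (nat_lit 3) (nat_lit 10) (C.cons (nat_lit 1290) (C.node (nat_lit 3) (nat_lit 4) (nat_lit 10) C.nil) (C.cons (nat_lit 1034) (C.node (nat_lit 3) (nat_lit 4) (nat_lit 10) C.nil) C.nil))) (C.cons (nat_lit 1160) (C.node (nat_lit 3) (nat_lit 6) (nat_lit 7) (C.cons (nat_lit 206) (C.miq (nat_lit 2838563687) (nat_lit 632289805876918062169327841)) (C.cons (nat_lit 204) (C.miq (nat_lit 2741736048) (nat_lit 3181963611605415246484800133)) (C.cons (nat_lit 202) (C.miq (nat_lit 2838563687) (nat_lit 632289805876918062169065697))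 (C.cons (nat_lit 200) (C.node (nat_lit 3) (nat_lit 4) (nat_lit 10) C.nil) C.nil))))) C.nil))) C.nil)) C.nil))) C.nil)) C.nil))) C.nil))))) (C.cons (nat_lit 1544) (C.node (nat_lit 6) (nat_lit 7) (nat_lit 9) (C.cons (nat_lit 962) (C.miq (nat_lit 611388312) (nat_lit 1415656986847057289475657473)) (C.cons (nat_lit 960) (C.node (nat_lit 6) (nat_lit 9) (nat_lit 10) (C.cons (nat_lit 1634) (C.miq (nat_lit 895945368) (nat_lit 2747895637854250950197251841)) (C.cons (nat_lit 1632) (C.miq (nat_lit 895945368) (nat_lit 2747895637854250941607317249)) (C.cons (nat_lit 1602) (C.miq (nat_lit 1265238929) (nat_lit 3791212972033422236850455051)) (C.cons (nat_lit 1600) (C.node (nat_lit 1) (nat_lit 7) (nat_lit 9) (C.cons (nat_lit 674) (C.node (nat_lit 1) (nat_lit 8) (nat_lit 9) (C.cons (nat_lit 786) (C.miq (nat_lit 1501983040) (nat_lit 1160610716469041059698115731)) (C.cons (nat_lit 770) (C.node (nat_lit 4) (nat_lit 8) (nat_lit 9) (C.cons (nat_lit 788) (C.miq (nat_lit 1749776672)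 (nat_lit 2804749831225438589341729413)) (C.cons (nat_lit 784) (C.node (nat_lit 5) (nat_lit 9) (nat_lit 11) (C.cons (nat_lit 2596) (C.miq (nat_lit 364149024) (nat_lit 2533930119239298348243288709)) (C.cons (nat_lit 2592) (C.node (nat_lit 1) (nat_lit 9) (nat_lit 11) C.nil) C.nil))) C.nil))) C.nil))) (C.cons (nat_lit 642) (C.node (nat_lit 5) (nat_lit 7) (nat_lit 9) (C.cons (nat_lit 672) (C.node (nat_lit 6) (nat_lit 7) (nat_lit 10) (C.cons (nat_lit 1224) (C.node (nat_lit 1) (nat_lit 6) (nat_lit 7) (C.cons (nat_lit 198) (C.node (nat_lit 1) (nat_lit 3) (nat_lit 7) (C.cons (nat_lit 170) (C.miq (nat_lit 1344354919) (nat_lit 317950626804915548180579528)) (C.cons (nat_lit 138) (C.node (nat_lit 1) (nat_lit 6) (nat_lit 11) (C.cons (nat_lit 2370) (C.miq (nat_lit 2551319399) (nat_lit 317959389789730580239616225)) (C.cons (nat_lit 2114) (C.node (nat_lit 1) (nat_lit 7) (nat_lit 11) (C.cons (nat_lit 2434) (C.miq (nat_lit 2819754870) (nat_lit 317967653931075876996647137))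 C.nil)) C.nil))) C.nil))) (C.cons (nat_lit 194) (C.node (nat_lit 2) (nat_lit 6) (nat_lit 7) (C.cons (nat_lit 196) (C.node (nat_lit 4) (nat_lit 6) (nat_lit 9) (C.cons (nat_lit 598) (C.miq (nat_lit 946079634) (nat_lit 407446315208194915669770885)) (C.cons (nat_lit 596) (C.miq (nat_lit 946079634) (nat_lit 407446315208194915669639813)) (C.cons (nat_lit 594) (C.node (nat_lit 2) (nat_lit 4) (nat_lit 9) (C.cons (nat_lit 788) (C.miq (nat_lit 1749776672) (nat_lit 2804749831225438589341729413)) C.nil)) C.nil)))) C.nil)) C.nil))) (C.cons (nat_lit 1216) (C.node (nat_lit 3) (nat_lit 6) (nat_lit 7) (C.cons (nat_lit 206) (C.miq (nat_lit 2838563687) (nat_lit 632289805876918062169327841)) (C.cons (nat_lit 204) (C.miq (nat_lit 2252052256) (nat_lit 3181963611439907960166089349)) (C.cons (nat_lit 202) (C.miq (nat_lit 2838563687) (nat_lit 632289805876918062169065697)) (C.cons (nat_lit 200) (C.node (nat_lit 1) (nat_lit 6) (nat_lit 7) (C.cons (nat_lit 198) (C.node (nat_lit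 1) (nat_lit 6) (nat_lit 11) (C.cons (nat_lit 2370) (C.miq (nat_lit 2551319399) (nat_lit 317959389789730580239616225)) (C.cons (nat_lit 2114) (C.node (nat_lit 1) (nat_lit 7) (nat_lit 11) C.nil) C.nil))) (C.cons (nat_lit 194) (C.node (nat_lit 2) (nat_lit 6) (nat_lit 7) (C.cons (nat_lit 196)
  (C.node (nat_lit 1) (nat_lit 6) (nat_lit 11) C.nil) C.nil)) C.nil))) C.nil))))) C.nil))) C.nil)) C.nil))) C.nil))))) (C.cons (nat_lit 706) (C.miq (nat_lit 1133579111) (nat_lit 632289805380396203284498657)) (C.cons (nat_lit 704) (C.node (nat_lit 6) (nat_lit 9) (nat_lit 10) (C.cons (nat_lit 1634) (C.miq (nat_lit 1265238929) (nat_lit 3791212972033422236852552203)) (C.cons (nat_lit 1632) (C.node (nat_lit 1) (nat_lit 9) (nat_lit 10) (C.cons (nat_lit 1542) (C.node (nat_lit 1) (nat_lit 9) (nat_lit 11) (C.cons (nat_lit 2594) (C.miq (nat_lit 302750309) (nat_lit 2510986778627751107077670496)) (C.cons (nat_lit 2562) (C.node (nat_lit 2) (nat_lit 6) (nat_lit 9) (C.cons (nat_lit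 836) (C.miq (nat_lit 1772388880) (nat_lit 1876259088829977022709301511)) (C.cons (nat_lit 596) (C.miq (nat_lit 1497605664) (nat_lit 648003885555249460243399749)) (C.cons (nat_lit 580) (C.node (nat_lit 2) (nat_lit 9) (nat_lit 11) (C.cons (nat_lit 2596) (C.node (nat_lit 2) (nat_lit 3) (nat_lit 9) C.nil) C.nil)) C.nil)))) C.nil))) (C.cons (nat_lit 1538) (C.node (nat_lit 2) (nat_lit 9) (nat_lit 10) (C.cons (nat_lit 1540) (C.node (nat_lit 4) (nat_lit 6) (nat_lit 10) (C.cons (nat_lit 1112) (C.node (nat_lit 1) (nat_lit 6) (nat_lit 10) (C.cons (nat_lit 1346) (C.node (nat_lit 6) (nat_lit 7) (nat_lit 10) (C.cons (nat_lit 1216) (C.node (nat_lit 1) (nat_lit 3) (nat_lit 10) (C.cons (nat_lit 1038) (C.node (nat_lit 3) (nat_lit 7) (nat_lit 10) C.nil) (C.cons (nat_lit 1034) (C.miq (nat_lit 564332644) (nat_lit 1250067611443001361358651729)) C.nil))) C.nil)) (C.cons (nat_lit 1090) (C.node (nat_lit 3) (nat_lit 7) (nat_lit 10) (C.cons (nat_lit 1164) (C.node (nat_lit 3)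 (nat_lit 6) (nat_lit 7) (C.cons (nat_lit 202) (C.miq (nat_lit 2838563687) (nat_lit 632289805876918062169065697)) (C.cons (nat_lit 200) (C.node (nat_lit 6) (nat_lit 7) (nat_lit 10) (C.cons (nat_lit 1472) (C.miq (nat_lit 1185024115) (nat_lit 1321394234821094172112191881)) (C.cons (nat_lit 1216) (C.node (nat_lit 6) (nat_lit 8) (nat_lit 10) C.nil) C.nil))) C.nil))) (C.cons (nat_lit 1160) (C.node (nat_lit 6) (nat_lit 7) (nat_lit 10) (C.cons (nat_lit 1472) (C.node (nat_lit 2) (nat_lit 7) (nat_lit 10) (C.cons (nat_lit 1156) (C.node (nat_lit 5) (nat_lit 7) (nat_lit 10) C.nil) C.nil)) (C.cons (nat_lit 1216) (C.node (nat_lit 6) (nat_lit 8) (nat_lit 10) C.nil) C.nil))) C.nil))) C.nil))) (C.cons (nat_lit 1104) (C.node (nat_lit 3) (nat_lit 4) (nat_lit 6) (C.cons (nat_lit 122) (C.miq (nat_lit 446054579) (nat_lit 1972969188443475500555831325)) (C.cons (nat_lit 120) (C.miq (nat_lit 2521539888) (nat_lit 2572664998543285679686485033)) (C.cons (nat_lit 90) (C.miq (nat_lit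 446054579) (nat_lit 1972968598147665141850179613)) (C.cons (nat_lit 88) (C.node (nat_lit 4) (nat_lit 6) (nat_lit 9) (C.cons (nat_lit 598) (C.miq (nat_lit 1497605664) (nat_lit 648003885555249468833334341)) (C.cons (nat_lit 596) (C.miq (nat_lit 1497605664) (nat_lit 648003885555249460243399749)) (C.cons (nat_lit 594) (C.node (nat_lit 2) (nat_lit 4) (nat_lit 6) (C.cons (nat_lit 116) (C.miq (nat_lit 2504762912) (nat_lit 2533979372315617528916018245)) C.nil)) C.nil)))) C.nil))))) C.nil))) C.nil)) C.nil))) (C.cons (nat_lit 1602) (C.miq (nat_lit 1265238929) (nat_lit 3791212972033422236850455051)) (C.cons (nat_lit 1600) (C.node (nat_lit 7) (nat_lit 8) (nat_lit 9) (C.cons (nat_lit 930) (C.miq (nat_lit 611388312) (nat_lit 1415656986847057289473560321)) (C.cons (nat_lit 928) (C.node (nat_lit 1) (nat_lit 7) (nat_lit 9) (C.cons (nat_lit 642) (C.node (nat_lit 4) (nat_lit 5) (nat_lit 7) (C.cons (nat_lit 180) (C.miq (nat_lit 2236323616) (nat_lit 2533979372117459420189622917))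 (C.cons (nat_lit 176) (C.node (nat_lit 2) (nat_lit 4) (nat_lit 7) (C.cons (nat_lit 404) (C.node (nat_lit 3) (nat_lit 8) (nat_lit 9) (C.cons (nat_lit 780) (C.miq (nat_lit 394855459) (nat_lit 1121892808579135357168912413)) (C.cons (nat_lit 776) (C.node (nat_lit 4) (nat_lit 8) (nat_lit 9) (C.cons (nat_lit 784) (C.node (nat_lit 1) (nat_lit 8) (nat_lit 9) C.nil) C.nil)) C.nil))) (C.cons (nat_lit 148)
  (C.node (nat_lit 4) (nat_lit 7) (nat_lit 8) (C.cons (nat_lit 400) (C.node (nat_lit 5) (nat_lit 7) (nat_lit 10) C.nil) C.nil)) C.nil))) C.nil))) C.nil)) (C.cons (nat_lit 898) (C.miq (nat_lit 611388312) (nat_lit 1415656986847057289471463169)) (C.cons (nat_lit 896) (C.node (nat_lit 1) (nat_lit 7) (nat_lit 9) (C.cons (nat_lit 674) (C.node (nat_lit 5) (nat_lit 9) (nat_lit 11) (C.cons (nat_lit 2596) (C.miq (nat_lit 364149024) (nat_lit 2533930119239298348243288709)) (C.cons (nat_lit 2592) (C.node (nat_lit 1) (nat_lit 9) (nat_lit 11) C.nil) C.nil))) (C.cons (nat_lit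 642) (C.node (nat_lit 5) (nat_lit 7) (nat_lit 9) (C.cons (nat_lit 672) (C.node (nat_lit 1) (nat_lit 6) (nat_lit 11) (C.cons (nat_lit 2370) (C.node (nat_lit 2) (nat_lit 6) (nat_lit 11) C.nil) (C.cons (nat_lit 2118) (C.node (nat_lit 6) (nat_lit 8) (nat_lit 11) C.nil) (C.cons (nat_lit 2114) (C.node (nat_lit 2) (nat_lit 6) (nat_lit 11) C.nil) C.nil)))) C.nil)) C.nil))) C.nil))))) C.nil))))) C.nil))))) C.nil))) C.nil))) C.nil))))) List.nil)

theorem ok12_258 : okL par12 (nat_lit 259) c12_258 (nat_lit 258) = true := by decide +kernel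

noncomputable def c12_259 : List C :=
  (List.cons (C.node (nat_lit 2) (nat_lit 3) (nat_lit 10) (C.cons (nat_lit 1292) (C.node (nat_lit 7) (nat_lit 8) (nat_lit 10) (C.cons (nat_lit 1440) (C.miq (nat_lit 729296986) (nat_lit 2940131427080754674809177129)) (C.cons (nat_lit 1408) (C.node (nat_lit 2) (nat_lit 3) (nat_lit 7) (C.cons (nat_lit 206) (C.miq (nat_lit 2468914960) (nat_lit 1562003013356715057948853395)) (C.cons (nat_lit 204) (C.miq (nat_lit 3123054647) (nat_lit 1321397851369220164421419401)) (C.cons (nat_lit 174) (C.miq (nat_lit 2468914960) (nat_lit 1562003013356714920509899923)) (C.cons (nat_lit 172) (C.miq (nat_lit 2189140816) (nat_lit 2635529141067545128040727593)) (C.cons (nat_lit 142) (C.miq (nat_lit 2468914960) (nat_lit 1562003013356714783070946451)) (C.cons (nat_lit 140) (C.node (nat_lit 2) (nat_lit 4) (nat_lit 10) (C.cons (nat_lit 1076) (C.node (nat_lit 2) (nat_lit 7) (nat_lit 10) (C.cons (nat_lit 1156) (C.node (nat_lit 4) (nat_lit 8) (nat_lit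 10) (C.cons (nat_lit 1296) (C.node (nat_lit 5) (nat_lit 7) (nat_lit 10) (C.cons (nat_lit 1184) (C.node (nat_lit 2) (nat_lit 4) (nat_lit 7) (C.cons (nat_lit 404) (C.miq (nat_lit 1384359024) (nat_lit 1561951805027408204526060691)) C.nil)) C.nil)) C.nil)) C.nil)) (C.cons (nat_lit 1044) (C.node (nat_lit 2) (nat_lit 7) (nat_lit 10) (C.cons (nat_lit 1188) (C.node (nat_lit 1) (nat_lit 2) (nat_lit 7) (C.cons (nat_lit 134) (C.node (nat_lit 2) (nat_lit 4) (nat_lit 7) (C.cons (nat_lit 148) (C.node (nat_lit 2) (nat_lit 6) (nat_lit 7) C.nil) C.nil)) C.nil)) (C.cons (nat_lit 1156) (C.node (nat_lit 5) (nat_lit 7) (nat_lit 10) (C.cons (nat_lit 1184) (C.node (nat_lit 3) (nat_lit 5) (nat_lit 7) (C.cons (nat_lit 170) (C.node (nat_lit 3) (nat_lit 6) (nat_lit 7) C.nil) C.nil)) C.nil)) C.nil))) C.nil))) C.nil))))))) C.nil))) (C.cons (nat_lit 1038) (C.node (nat_lit 2) (nat_lit 9) (nat_lit 10) (C.cons (nat_lit 1572) (C.node (nat_lit 2) (nat_lit 10) (nat_lit 11) (C.cons (nat_lit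 3076) (C.node (nat_lit 2) (nat_lit 9) (nat_lit 11) C.nil) C.nil)) (C.cons (nat_lit 1540) (C.node (nat_lit 2) (nat_lit 10) (nat_lit 11) (C.cons (nat_lit 3108) (C.node (nat_lit 1) (nat_lit 10) (nat_lit 11) C.nil) (C.cons (nat_lit 3076) (C.node (nat_lit 3) (nat_lit 10) (nat_lit 11) C.nil) C.nil))) C.nil))) (C.cons (nat_lit 1036) (C.node (nat_lit 2) (nat_lit 6) (nat_lit 11) (C.cons (nat_lit 2372) (C.node (nat_lit 1) (nat_lit 8) (nat_lit 11) (C.cons (nat_lit 2346) (C.miq (nat_lit 2208478470) (nat_lit 1252490905458043533627033825)) C.nil)) (C.cons (nat_lit 2118) (C.node (nat_lit 1) (nat_lit 9) (nat_lit 11) C.nil) (C.cons (nat_lit 2116) (C.node (nat_lit 2) (nat_lit 8) (nat_lit 11) C.nil) C.nil)))) C.nil)))) List.nil)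

theorem ok12_259 : okL par12 (nat_lit 260) c12_259 (nat_lit 259) = true := by decide +kernel


end Pool.Agent.MP_1f1ca1_co

end

section

set_option autoImplicit false
set_option maxRecDepth 1000000
set_option maxHeartbeats 0

namespace Pool.Agent.MP_1f1ca1_co

noncomputable def c12_260 : List C :=
  (List.cons (C.node (nat_lit 4) (nat_lit 9) (nat_lit 10) (C.cons (nat_lit 1624) (C.miq (nat_lit 1464011674) (nat_lit 183776371003666370989133569)) (C.cons (nat_lit 1616) (C.node (nat_lit 3) (nat_lit 4) (nat_lit 9) (C.cons (nat_lit 792) (C.node (nat_lit 3) (nat_lit 4) (nat_lit 10) (C.cons (nat_lit 1048) (C.node (nat_lit 3) (nat_lit 9) (nat_lit 10) (C.cons (nat_lit 1672) (C.miq (nat_lit 1748582522) (nat_lit 957499059168068176185918611)) (C.cons (nat_lit 1548) (C.miq (nat_lit 1647577752) (nat_lit 2510945144199996434189651713)) (C.cons (nat_lit 1544) (C.node (nat_lit 7) (nat_lit 9) (nat_lit 10) (C.cons (nat_lit 1696) (C.miq (nat_lit 1397203129) (nat_lit 183788010559152416976015105))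 (C.cons (nat_lit 1664) (C.node (nat_lit 7) (nat_lit 8) (nat_lit 9) (C.cons (nat_lit 962) (C.miq (nat_lit 611388312) (nat_lit 1415656986847057289475657473)) (C.cons (nat_lit 960) (C.miq (nat_lit 1766553648) (nat_lit 3268977345957456209608769929)) (C.cons (nat_lit 930) (C.miq (nat_lit 611388312) (nat_lit 1415656986847057289473560321)) (C.cons (nat_lit 928) (C.miq (nat_lit 1498118192) (nat_lit 3268977345948449010354028937)) (C.cons (nat_lit 898) (C.miq (nat_lit 611388312) (nat_lit 1415656986847057289471463169)) (C.cons (nat_lit 896) (C.node (nat_lit 1) (nat_lit 4) (nat_lit 8) (C.cons (nat_lit 306) (C.node (nat_lit 3) (nat_lit 4) (nat_lit 5) (C.cons (nat_lit 120) (C.miq (nat_lit 1536385156) (nat_lit 3104523719019465684876263761)) (C.cons (nat_lit 56) (C.node (nat_lit 2) (nat_lit 8) (nat_lit 9) (C.cons (nat_lit 868) (C.miq (nat_lit 345508450) (nat_lit 957474100958091830431581253)) (C.cons (nat_lit 836) (C.miq (nat_lit 345508450) (nat_lit 957474100958091830429484101))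 (C.cons (nat_lit 804) (C.miq (nat_lit 2035548801) (nat_lit 678228986122672094047240455)) (C.cons (nat_lit 772) (C.node (nat_lit 5) (nat_lit 8) (nat_lit 9) (C.cons (nat_lit 864) (C.miq (nat_lit 1497065536) (nat_lit 3104563434462845044084506961)) (C.cons (nat_lit 800) (C.node (nat_lit 1) (nat_lit 3) (nat_lit 4) (C.cons (nat_lit 90) (C.node (nat_lit 1) (nat_lit 8) (nat_lit 9) (C.cons (nat_lit 834) (C.miq (nat_lit 3105032292) (nat_lit 632306518627041120664289617)) (C.cons (nat_lit 770) (C.node (nat_lit 6) (nat_lit 8) (nat_lit 9) (C.cons (nat_lit 832) (C.node (nat_lit 1) (nat_lit 2) (nat_lit 4) C.nil) C.nil)) C.nil))) (C.cons (nat_lit 26) (C.node (nat_lit 3) (nat_lit 4) (nat_lit 6) C.nil) C.nil))) C.nil))) C.nil))))) C.nil))) (C.cons (nat_lit 274) (C.node (nat_lit 1) (nat_lit 4) (nat_lit 9) (C.cons (nat_lit 534) (C.node (nat_lit 2) (nat_lit 9) (nat_lit 11) (C.cons (nat_lit 2596) (C.miq (nat_lit 620862324) (nat_lit 42322254978566184093551248)) (C.cons (nat_lit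 2564) (C.node (nat_lit 1) (nat_lit 7) (nat_lit 9) (C.cons (nat_lit 706) (C.miq (nat_lit 1764454720) (nat_lit 3099727731139912372963837075)) (C.cons (nat_lit 674) (C.miq (nat_lit 1496019264) (nat_lit 3099727731130905173709096083)) (C.cons (nat_lit 642) (C.node (nat_lit 5) (nat_lit 7) (nat_lit 9) (C.cons (nat_lit 680) (C.miq (nat_lit 1687488567) (nat_lit 678249314347946977631142281)) (C.cons (nat_lit 672) (C.node (nat_lit 2) (nat_lit 4) (nat_lit 6) (C.cons (nat_lit 116) (C.node (nat_lit 2) (nat_lit 4) (nat_lit 7) (C.cons (nat_lit 404) (C.miq (nat_lit 691552519) (nat_lit 957476701769701968883287187)) C.nil)) C.nil)) C.nil))) C.nil)))) C.nil))) (C.cons (nat_lit 530) (C.node (nat_lit 2) (nat_lit 4) (nat_lit 9) (C.cons (nat_lit 532) (C.node (nat_lit 1) (nat_lit 2) (nat_lit 4) (C.cons (nat_lit 118) (C.miq (nat_lit 2484643360) (nat_lit 331316528973259581445047365)) (C.cons (nat_lit 22) (C.node (nat_lit 2) (nat_lit 4) (nat_lit 6) C.nil) C.nil))) C.nil)) C.nil)))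 C.nil))) C.nil))))))) C.nil))) C.nil)))) C.nil)) (C.cons (nat_lit 536) (C.node (nat_lit 3) (nat_lit 4) (nat_lit 10) (C.cons (nat_lit 1304) (C.node (nat_lit 7) (nat_lit 9) (nat_lit 10) (C.cons (nat_lit 1696) (C.miq (nat_lit 1397203129) (nat_lit 183788010559152416976015105)) (C.cons (nat_lit 1672) (C.miq (nat_lit 2517083267) (nat_lit 2747919231395008366271595800)) (C.cons (nat_lit 1664)
  (C.node (nat_lit 2) (nat_lit 4) (nat_lit 10) (C.cons (nat_lit 1076) (C.node (nat_lit 2) (nat_lit 4) (nat_lit 7) (C.cons (nat_lit 404) (C.miq (nat_lit 1383113859) (nat_lit 779776799736743128491164952)) (C.cons (nat_lit 148) (C.node (nat_lit 5) (nat_lit 7) (nat_lit 10) (C.cons (nat_lit 1440) (C.miq (nat_lit 1514895408) (nat_lit 3733204860824584000540311945)) (C.cons (nat_lit 1184) (C.node (nat_lit 2) (nat_lit 4) (nat_lit 6) (C.cons (nat_lit 86) (C.node (nat_lit 1) (nat_lit 3) (nat_lit 4) (C.cons (nat_lit 58) (C.miq (nat_lit 1613834836) (nat_lit 632269790386098121081488436))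 (C.cons (nat_lit 26) (C.node (nat_lit 1) (nat_lit 4) (nat_lit 5) (C.cons (nat_lit 306) (C.miq (nat_lit 2484643360) (nat_lit 370002155200927577596691525)) C.nil)) C.nil))) (C.cons (nat_lit 84) (C.node (nat_lit 1) (nat_lit 2) (nat_lit 4) (C.cons (nat_lit 534) (C.node (nat_lit 2) (nat_lit 4) (nat_lit 8) C.nil) C.nil)) C.nil))) C.nil))) C.nil))) (C.cons (nat_lit 1044) (C.node (nat_lit 4) (nat_lit 5) (nat_lit 10) (C.cons (nat_lit 1072) (C.node (nat_lit 3) (nat_lit 9) (nat_lit 10) (C.cons (nat_lit 1548) (C.node (nat_lit 1) (nat_lit 9) (nat_lit 10) (C.cons (nat_lit 1570) (C.node (nat_lit 1) (nat_lit 8) (nat_lit 10) (C.cons (nat_lit 1346) (C.miq (nat_lit 1367382628) (nat_lit 317957839623994318489978448)) (C.cons (nat_lit 1282) (C.node (nat_lit 1) (nat_lit 9) (nat_lit 11) (C.cons (nat_lit 2566) (C.miq (nat_lit 353081906) (nat_lit 2747935722771265540528604684)) (C.cons (nat_lit 2562) (C.node (nat_lit 5) (nat_lit 6) (nat_lit 10) (C.cons (nat_lit 1376) (C.miq (nat_lit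 1749768752) (nat_lit 2804749831342534395856487465)) (C.cons (nat_lit 1120) (C.node (nat_lit 5) (nat_lit 10) (nat_lit 11) (C.cons (nat_lit 3108) (C.miq (nat_lit 1359718706) (nat_lit 2479564188952103486448535052)) (C.cons (nat_lit 3104) (C.node (nat_lit 1) (nat_lit 2) (nat_lit 10) (C.cons (nat_lit 1030) (C.node (nat_lit 2) (nat_lit 10) (nat_lit 11) C.nil) C.nil)) C.nil))) C.nil))) C.nil))) C.nil))) (C.cons (nat_lit 1538) (C.node (nat_lit 5) (nat_lit 9) (nat_lit 10) (C.cons (nat_lit 1568) (C.node (nat_lit 3) (nat_lit 7) (nat_lit 10) (C.cons (nat_lit 1224) (C.node (nat_lit 3) (nat_lit 7) (nat_lit 9) (C.cons (nat_lit 680) (C.miq (nat_lit 1403418912) (nat_lit 1479767132848995284495434373)) (C.cons (nat_lit 648) (C.node (nat_lit 3) (nat_lit 6) (nat_lit 9) (C.cons (nat_lit 872) (C.miq (nat_lit 1178052992) (nat_lit 1479746804800483731326963457)) (C.cons (nat_lit 840) (C.miq (nat_lit 1178052992) (nat_lit 1479746804800483593888009985)) (C.cons (nat_lit 616) (C.miq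 (nat_lit 2744415824) (nat_lit 648005840795279568757917921)) (C.cons (nat_lit 584) (C.node (nat_lit 1) (nat_lit 4) (nat_lit 9) C.nil) C.nil))))) C.nil))) (C.cons (nat_lit 1160) (C.node (nat_lit 6) (nat_lit 7) (nat_lit 10) (C.cons (nat_lit 1472) (C.miq (nat_lit 1783330864) (nat_lit 3733204860833591199795052937)) (C.cons (nat_lit 1216) (C.node (nat_lit 1) (nat_lit 4) (nat_lit 8) (C.cons (nat_lit 786) (C.miq (nat_lit 430081120) (nat_lit 1871422020478383620490592593)) (C.cons (nat_lit 306) (C.node (nat_lit 3) (nat_lit 4) (nat_lit 5) (C.cons (nat_lit 120) (C.miq (nat_lit 2221646672) (nat_lit 2572664998450961887338234921)) C.nil)) (C.cons (nat_lit 274) (C.node (nat_lit 1) (nat_lit 4) (nat_lit 9) (C.cons (nat_lit 530) (C.node (nat_lit 2) (nat_lit 4) (nat_lit 9) C.nil) C.nil)) C.nil)))) C.nil))) C.nil))) C.nil)) C.nil))) (C.cons (nat_lit 1544) (C.node (nat_lit 6) (nat_lit 7) (nat_lit 10) (C.cons (nat_lit 1472) (C.miq (nat_lit 1783330864) (nat_lit 3733204860833591199795052937))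 (C.cons (nat_lit 1224) (C.node (nat_lit 2) (nat_lit 3) (nat_lit 10) (C.cons (nat_lit 1038) (C.node (nat_lit 3) (nat_lit 10) (nat_lit 11) (C.cons (nat_lit 3080) (C.node (nat_lit 1) (nat_lit 3) (nat_lit 7) (C.cons (nat_lit 170) (C.miq (nat_lit 542221939) (nat_lit 42331551714522443645846728)) (C.cons (nat_lit 138) (C.node (nat_lit 1) (nat_lit 9) (nat_lit 10) (C.cons (nat_lit 1570) (C.miq (nat_lit 1512345904) (nat_lit 1262128904743018381199606283)) (C.cons (nat_lit 1538)
  (C.node (nat_lit 1) (nat_lit 4) (nat_lit 9) (C.cons (nat_lit 786) (C.miq (nat_lit 563742790) (nat_lit 1859348072932603530063118673)) (C.cons (nat_lit 534) (C.miq (nat_lit 1494877219) (nat_lit 1859347556507647926885812253)) (C.cons (nat_lit 530) (C.node (nat_lit 1) (nat_lit 4) (nat_lit 8) (C.cons (nat_lit 274) (C.node (nat_lit 2) (nat_lit 4) (nat_lit 9) C.nil) C.nil)) C.nil)))) C.nil))) C.nil))) C.nil)) (C.cons (nat_lit 1036) (C.node (nat_lit 1) (nat_lit 3) (nat_lit 10) (C.cons (nat_lit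 3082) (C.node (nat_lit 6) (nat_lit 10) (nat_lit 11) (C.cons (nat_lit 3136) (C.node (nat_lit 2) (nat_lit 10) (nat_lit 11) (C.cons (nat_lit 3076) (C.node (nat_lit 5) (nat_lit 10) (nat_lit 11) C.nil) C.nil)) C.nil)) (C.cons (nat_lit 1034) (C.node (nat_lit 3) (nat_lit 10) (nat_lit 11) (C.cons (nat_lit 3080) (C.node (nat_lit 3) (nat_lit 7) (nat_lit 9) (C.cons (nat_lit 680) (C.node (nat_lit 1) (nat_lit 3) (nat_lit 4) (C.cons (nat_lit 122) (C.miq (nat_lit 2221646672) (nat_lit 2572664998450961895928169513)) C.nil)) (C.cons (nat_lit 648) (C.node (nat_lit 1) (nat_lit 3) (nat_lit 4) (C.cons (nat_lit 122) (C.miq (nat_lit 2221646672) (nat_lit 2572664998450961895928169513)) C.nil)) C.nil))) C.nil)) C.nil))) C.nil))) (C.cons (nat_lit 1216) (C.node (nat_lit 3) (nat_lit 7) (nat_lit 10) (C.cons (nat_lit 1164) (C.node (nat_lit 5) (nat_lit 7) (nat_lit 10) (C.cons (nat_lit 1440) (C.miq (nat_lit 1514895408) (nat_lit 3733204860824584000540311945)) (C.cons (nat_lit 1184) (C.node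 (nat_lit 7) (nat_lit 8) (nat_lit 10) (C.cons (nat_lit 1408) (C.node (nat_lit 2) (nat_lit 8) (nat_lit 10) (C.cons (nat_lit 1316) (C.node (nat_lit 1) (nat_lit 8) (nat_lit 10) (C.cons (nat_lit 1346) (C.node (nat_lit 5) (nat_lit 6) (nat_lit 10) C.nil) C.nil)) (C.cons (nat_lit 1284) (C.node (nat_lit 1) (nat_lit 4) (nat_lit 8) (C.cons (nat_lit 274) (C.node (nat_lit 1) (nat_lit 8) (nat_lit 10) (C.cons (nat_lit 1378) (C.miq (nat_lit 1749768752) (nat_lit 2804749831343097345809908777)) C.nil)) C.nil)) C.nil))) C.nil)) C.nil))) (C.cons (nat_lit 1160) (C.node (nat_lit 2) (nat_lit 3) (nat_lit 10) (C.cons (nat_lit 1038) (C.node (nat_lit 1) (nat_lit 9) (nat_lit 10) (C.cons (nat_lit 1570) (C.miq (nat_lit 1512345904) (nat_lit 1262128904743018381199606283)) (C.cons (nat_lit 1538) (C.node (nat_lit 1) (nat_lit 4) (nat_lit 9) (C.cons (nat_lit 786) (C.miq (nat_lit 563742790) (nat_lit 1859348072932603530063118673)) (C.cons (nat_lit 534) (C.miq (nat_lit 1494877219) (nat_lit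 1859347556507647926885812253)) (C.cons (nat_lit 530) (C.node (nat_lit 1) (nat_lit 4) (nat_lit 8) (C.cons (nat_lit 274) (C.node (nat_lit 2) (nat_lit 4) (nat_lit 9) C.nil) C.nil)) C.nil)))) C.nil))) (C.cons (nat_lit 1036) (C.node (nat_lit 3) (nat_lit 4) (nat_lit 5) (C.cons (nat_lit 122) (C.miq (nat_lit 2221646672) (nat_lit 2572664998450961895928169513)) (C.cons (nat_lit 120) (C.miq (nat_lit 2221646672) (nat_lit 2572664998450961887338234921)) (C.cons (nat_lit 58) (C.node (nat_lit 3) (nat_lit 4) (nat_lit 6) C.nil) (C.cons (nat_lit 56) (C.node (nat_lit 1) (nat_lit 3) (nat_lit 4) (C.cons (nat_lit 26) (C.node (nat_lit 3) (nat_lit 4) (nat_lit 6) C.nil) C.nil)) C.nil))))) C.nil))) C.nil))) C.nil)))) C.nil))) C.nil)) C.nil))) C.nil)))) (C.cons (nat_lit 1048) (C.node (nat_lit 7) (nat_lit 9) (nat_lit 10) (C.cons (nat_lit 1696) (C.miq (nat_lit 1397203129) (nat_lit 183788010559152416976015105)) (C.cons (nat_lit 1672) (C.node (nat_lit 3) (nat_lit 6) (nat_lit 9) (C.cons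 (nat_lit 876) (C.miq (nat_lit 1685291177) (nat_lit 183772884024094300790329089)) (C.cons (nat_lit 872) (C.miq (nat_lit 1685291177) (nat_lit 183772810237118005952122625)) (C.cons (nat_lit 844) (C.miq (nat_lit 1685291177) (nat_lit 183772293728283942084677377)) (C.cons (nat_lit 840) (C.miq (nat_lit 1685291177) (nat_lit 183772219941307647246470913)) (C.cons (nat_lit 620) (C.miq (nat_lit 2207647652) (nat_lit 749540224824449775575237779)) (C.cons (nat_lit 616) (C.miq (nat_lit 2207647652) (nat_lit 744704521545991258876413075)) (C.cons (nat_lit 588)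
  (C.miq (nat_lit 2207647652) (nat_lit 710854598596781641984640147)) (C.cons (nat_lit 584) (C.miq (nat_lit 2207647652) (nat_lit 706018895318323125285815443)) C.nil))))))))) (C.cons (nat_lit 1664) (C.node (nat_lit 3) (nat_lit 9) (nat_lit 10) (C.cons (nat_lit 1548) (C.node (nat_lit 1) (nat_lit 9) (nat_lit 10) (C.cons (nat_lit 1570) (C.node (nat_lit 1) (nat_lit 9) (nat_lit 11) (C.cons (nat_lit 2566) (C.miq (nat_lit 353081906) (nat_lit 2747935722771265540528604684)) (C.cons (nat_lit 2562) (C.node (nat_lit 5) (nat_lit 10) (nat_lit 11) (C.cons (nat_lit 3108) (C.miq (nat_lit 1359718706) (nat_lit 2479564188952103486448535052)) (C.cons (nat_lit 3104) (C.node (nat_lit 1) (nat_lit 4) (nat_lit 9) (C.cons (nat_lit 786) (C.miq (nat_lit 430081120) (nat_lit 1871422020478383620490592593)) (C.cons (nat_lit 534) (C.miq (nat_lit 1495507264) (nat_lit 1871436814987802470202016915)) (C.cons (nat_lit 530) (C.node (nat_lit 3) (nat_lit 10) (nat_lit 11) (C.cons (nat_lit 3146)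 (C.miq (nat_lit 1788326688) (nat_lit 2011694494173549413905270813)) (C.cons (nat_lit 3144) (C.miq (nat_lit 1788326688) (nat_lit 2011694494172986463951849501)) (C.cons (nat_lit 3082) (C.miq (nat_lit 2444515888) (nat_lit 2497651092389178176662471721)) (C.cons (nat_lit 3080) (C.node (nat_lit 1) (nat_lit 2) (nat_lit 9) (C.cons (nat_lit 582) (C.node (nat_lit 1) (nat_lit 7) (nat_lit 9) (C.cons (nat_lit 898) (C.miq (nat_lit 611388312) (nat_lit 1415656986847057289471463169)) (C.cons (nat_lit 642) (C.node (nat_lit 1) (nat_lit 8) (nat_lit 9) (C.cons (nat_lit 770) (C.node (nat_lit 2) (nat_lit 4) (nat_lit 9) C.nil) C.nil)) C.nil))) (C.cons (nat_lit 518) (C.node (nat_lit 1) (nat_lit 2) (nat_lit 10) (C.cons (nat_lit 3078) (C.node (nat_lit 6) (nat_lit 10) (nat_lit 11) C.nil) (C.cons (nat_lit 1030) (C.node (nat_lit 2) (nat_lit 10) (nat_lit 11) (C.cons (nat_lit 3076) (C.node (nat_lit 1) (nat_lit 10) (nat_lit 11) C.nil) C.nil)) C.nil))) C.nil))) C.nil))))) C.nil))))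 C.nil))) C.nil))) (C.cons (nat_lit 1538) (C.node (nat_lit 5) (nat_lit 9) (nat_lit 10) (C.cons (nat_lit 1568) (C.node (nat_lit 3) (nat_lit 7) (nat_lit 10) (C.cons (nat_lit 1224) (C.node (nat_lit 3) (nat_lit 7) (nat_lit 9) (C.cons (nat_lit 680) (C.miq (nat_lit 1403418912) (nat_lit 1479767132848995284495434373)) (C.cons (nat_lit 648) (C.node (nat_lit 3) (nat_lit 6) (nat_lit 9) (C.cons (nat_lit 872) (C.miq (nat_lit 1178052992) (nat_lit 1479746804800483731326963457)) (C.cons (nat_lit 840) (C.miq (nat_lit 1178052992) (nat_lit 1479746804800483593888009985)) (C.cons (nat_lit 616) (C.miq (nat_lit 2744415824) (nat_lit 648005840795279568757917921)) (C.cons (nat_lit 584) (C.node (nat_lit 3) (nat_lit 5) (nat_lit 9) (C.cons (nat_lit 808) (C.node (nat_lit 2) (nat_lit 3) (nat_lit 8) (C.cons (nat_lit 332) (C.miq (nat_lit 308938807) (nat_lit 1321377522050129346723053961)) (C.cons (nat_lit 268) (C.node (nat_lit 3) (nat_lit 5) (nat_lit 7) (C.cons (nat_lit 174) (C.miq (nat_lit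 3124037927) (nat_lit 1287547928420011647039308421)) (C.cons (nat_lit 172) (C.miq (nat_lit 3124037927) (nat_lit 1287547928420011647039177349)) (C.cons (nat_lit 170) (C.miq (nat_lit 446001283) (nat_lit 1895598821431854771313574281)) (C.cons (nat_lit 168) (C.node (nat_lit 1) (nat_lit 3) (nat_lit 7) (C.cons (nat_lit 138) (C.node (nat_lit 2) (nat_lit 3) (nat_lit 7) C.nil) C.nil)) C.nil))))) C.nil))) (C.cons (nat_lit 552) (C.node (nat_lit 3) (nat_lit 8) (nat_lit 9) (C.cons (nat_lit 776) (C.node (nat_lit 3) (nat_lit 8) (nat_lit 10) C.nil) C.nil)) C.nil))) C.nil))))) C.nil))) (C.cons (nat_lit 1160) (C.node (nat_lit 6) (nat_lit 7) (nat_lit 10) (C.cons (nat_lit 1472) (C.node (nat_lit 2) (nat_lit 7) (nat_lit 10) (C.cons (nat_lit 1188) (C.node (nat_lit 2) (nat_lit 4) (nat_lit 10) (C.cons (nat_lit 1300) (C.miq (nat_lit 2018208288) (nat_lit 2804749831369555976440841285)) (C.cons (nat_lit 1044) (C.node (nat_lit 2) (nat_lit 8) (nat_lit 10) (C.cons (nat_lit 1284) (C.node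 (nat_lit 4) (nat_lit 5) (nat_lit 7) (C.cons (nat_lit 432) (C.miq (nat_lit 624994182) (nat_lit 678227547429473659330299328))
  (C.cons (nat_lit 176) (C.node (nat_lit 4) (nat_lit 5) (nat_lit 10) (C.cons (nat_lit 1328) (C.node (nat_lit 1) (nat_lit 2) (nat_lit 10) (C.cons (nat_lit 3078) (C.node (nat_lit 5) (nat_lit 10) (nat_lit 11) C.nil) C.nil)) C.nil)) C.nil))) C.nil)) C.nil))) (C.cons (nat_lit 1156) (C.node (nat_lit 5) (nat_lit 7) (nat_lit 10) (C.cons (nat_lit 1184) (C.node (nat_lit 3) (nat_lit 8) (nat_lit 10) (C.cons (nat_lit 1290) (C.node (nat_lit 3) (nat_lit 6) (nat_lit 10) (C.cons (nat_lit 3144) (C.miq (nat_lit 1788326688) (nat_lit 2011694494172986463951849501)) (C.cons (nat_lit 1096) (C.node (nat_lit 3) (nat_lit 10) (nat_lit 11) C.nil) C.nil))) (C.cons (nat_lit 1288) (C.node (nat_lit 1) (nat_lit 8) (nat_lit 10) (C.cons (nat_lit 1314) (C.node (nat_lit 5) (nat_lit 6) (nat_lit 10) C.nil) (C.cons (nat_lit 1282) (C.node (nat_lit 5) (nat_lit 6) (nat_lit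 10) (C.cons (nat_lit 1120) (C.node (nat_lit 1) (nat_lit 3) (nat_lit 10) (C.cons (nat_lit 3146) (C.miq (nat_lit 1788326688) (nat_lit 2011694494173549413905270813)) C.nil)) C.nil)) C.nil))) C.nil))) C.nil)) C.nil))) (C.cons (nat_lit 1216) (C.node (nat_lit 1) (nat_lit 4) (nat_lit 9) (C.cons (nat_lit 786) (C.miq (nat_lit 430081120) (nat_lit 1871422020478383620490592593)) (C.cons (nat_lit 534) (C.node (nat_lit 4) (nat_lit 8) (nat_lit 9) (C.cons (nat_lit 784) (C.node (nat_lit 2) (nat_lit 9) (nat_lit 11) (C.cons (nat_lit 2596) (C.miq (nat_lit 620862324) (nat_lit 42322254978566184093551248)) (C.cons (nat_lit 2564) (C.node (nat_lit 1) (nat_lit 7) (nat_lit 9) (C.cons (nat_lit 962) (C.miq (nat_lit 611388312) (nat_lit 1415656986847057289475657473)) (C.cons (nat_lit 930) (C.miq (nat_lit 611388312) (nat_lit 1415656986847057289473560321)) (C.cons (nat_lit 898) (C.miq (nat_lit 611388312) (nat_lit 1415656986847057289471463169)) (C.cons (nat_lit 706) (C.miq (nat_lit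 1764454720) (nat_lit 3099727731139912372963837075)) (C.cons (nat_lit 674) (C.miq (nat_lit 1496019264) (nat_lit 3099727731130905173709096083)) C.nil)))))) C.nil))) C.nil)) (C.cons (nat_lit 530) (C.node (nat_lit 2) (nat_lit 4) (nat_lit 9) (C.cons (nat_lit 788) (C.node (nat_lit 2) (nat_lit 4) (nat_lit 7) (C.cons (nat_lit 180) (C.miq (nat_lit 2220593776) (nat_lit 2533979372078052923462976133)) (C.cons (nat_lit 148) (C.node (nat_lit 2) (nat_lit 4) (nat_lit 10) (C.cons (nat_lit 1044) (C.node (nat_lit 4) (nat_lit 5) (nat_lit 7) C.nil) C.nil)) C.nil))) (C.cons (nat_lit 532) (C.node (nat_lit 4) (nat_lit 8) (nat_lit 9) C.nil) C.nil))) C.nil)))) C.nil))) C.nil))) C.nil)) C.nil))) (C.cons (nat_lit 1544) (C.node (nat_lit 1) (nat_lit 4) (nat_lit 9) (C.cons (nat_lit 786) (C.node (nat_lit 2) (nat_lit 4) (nat_lit 9) (C.cons (nat_lit 532) (C.node (nat_lit 2) (nat_lit 6) (nat_lit 11) (C.cons (nat_lit 2372) (C.miq (nat_lit 2552643850) (nat_lit 2867601854285563978381067411))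 (C.cons (nat_lit 2118) (C.miq (nat_lit 1093048330) (nat_lit 2560534696103448168005701377)) (C.cons (nat_lit 2116) (C.node (nat_lit 3) (nat_lit 4) (nat_lit 8) (C.cons (nat_lit 312) (C.node (nat_lit 1) (nat_lit 3) (nat_lit 4) (C.cons (nat_lit 90) (C.miq (nat_lit 641796760) (nat_lit 108808175566667101599043329)) C.nil)) (C.cons (nat_lit 280) (C.node (nat_lit 1) (nat_lit 2) (nat_lit 4) (C.cons (nat_lit 118) (C.node (nat_lit 1) (nat_lit 3) (nat_lit 4) (C.cons (nat_lit 26) (C.node (nat_lit 3) (nat_lit 4) (nat_lit 5) C.nil) C.nil)) (C.cons (nat_lit 22) (C.miq (nat_lit 1678944640) (nat_lit 26616530777661344609406721)) C.nil))) C.nil))) C.nil)))) C.nil)) (C.cons (nat_lit 534) (C.node (nat_lit 4) (nat_lit 8) (nat_lit 9) (C.cons (nat_lit 784) (C.node (nat_lit 2) (nat_lit 9) (nat_lit 11) (C.cons (nat_lit 2596) (C.miq (nat_lit 620862324) (nat_lit 42322254978566184093551248)) (C.cons (nat_lit 2564) (C.node (nat_lit 1) (nat_lit 7) (nat_lit 9) (C.cons (nat_lit 962)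 (C.miq (nat_lit 611388312) (nat_lit 1415656986847057289475657473)) (C.cons (nat_lit 930) (C.miq (nat_lit 611388312) (nat_lit 1415656986847057289473560321)) (C.cons (nat_lit 898) (C.miq (nat_lit 611388312) (nat_lit 1415656986847057289471463169))
  (C.cons (nat_lit 706) (C.miq (nat_lit 1764454720) (nat_lit 3099727731139912372963837075)) (C.cons (nat_lit 674) (C.miq (nat_lit 1496019264) (nat_lit 3099727731130905173709096083)) (C.cons (nat_lit 642) (C.node (nat_lit 1) (nat_lit 9) (nat_lit 10) (C.cons (nat_lit 1570) (C.node (nat_lit 1) (nat_lit 9) (nat_lit 11) C.nil) (C.cons (nat_lit 1538) (C.node (nat_lit 2) (nat_lit 4) (nat_lit 6) C.nil) C.nil))) C.nil))))))) C.nil))) C.nil)) (C.cons (nat_lit 530) (C.node (nat_lit 2) (nat_lit 4) (nat_lit 9) (C.cons (nat_lit 788) (C.node (nat_lit 2) (nat_lit 4) (nat_lit 7) (C.cons (nat_lit 180) (C.miq (nat_lit 2220593776) (nat_lit 2533979372078052923462976133)) (C.cons (nat_lit 148) (C.node (nat_lit 2) (nat_lit 4) (nat_lit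 10) (C.cons (nat_lit 1044) (C.node (nat_lit 4) (nat_lit 5) (nat_lit 7) C.nil) C.nil)) C.nil))) (C.cons (nat_lit 532) (C.node (nat_lit 4) (nat_lit 8) (nat_lit 9) (C.cons (nat_lit 784) (C.node (nat_lit 2) (nat_lit 4) (nat_lit 6) (C.cons (nat_lit 118) (C.miq (nat_lit 2302741090) (nat_lit 640735536970597174426862661)) (C.cons (nat_lit 116) (C.node (nat_lit 1) (nat_lit 2) (nat_lit 4) C.nil) (C.cons (nat_lit 86) (C.miq (nat_lit 2302741090) (nat_lit 640735536970597174424765509)) C.nil)))) C.nil)) C.nil))) C.nil)))) C.nil))) C.nil)))) C.nil))) C.nil))) (C.cons (nat_lit 1560) (C.miq (nat_lit 1464011674) (nat_lit 183776371003666370984939265)) (C.cons (nat_lit 1556) (C.miq (nat_lit 645177529) (nat_lit 251485273921283472583823105)) (C.cons (nat_lit 1552) (C.node (nat_lit 7) (nat_lit 9) (nat_lit 10) (C.cons (nat_lit 1736) (C.miq (nat_lit 611715994) (nat_lit 251476733355750573212176129)) (C.cons (nat_lit 1728) (C.miq (nat_lit 611715994) (nat_lit 251476733355750573211651841))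 (C.cons (nat_lit 1696) (C.miq (nat_lit 1397203129) (nat_lit 183788010559152416976015105)) (C.cons (nat_lit 1672) (C.node (nat_lit 6) (nat_lit 7) (nat_lit 10) (C.cons (nat_lit 1472) (C.node (nat_lit 3) (nat_lit 6) (nat_lit 7) (C.cons (nat_lit 206) (C.miq (nat_lit 3126986867) (nat_lit 1321394235807382490443547017)) (C.cons (nat_lit 204) (C.miq (nat_lit 3126986867) (nat_lit 1321394235807382490443415945)) (C.cons (nat_lit 202) (C.miq (nat_lit 277232039) (nat_lit 407411727599660831090935432)) (C.cons (nat_lit 200) (C.node (nat_lit 3) (nat_lit 8) (nat_lit 10) (C.cons (nat_lit 1304) (C.miq (nat_lit 1783330864) (nat_lit 3733204860833591199795052937)) (C.cons (nat_lit 1292) (C.miq (nat_lit 3064072067) (nat_lit 1321394235366029727032410505)) (C.cons (nat_lit 1290) (C.miq (nat_lit 665323825) (nat_lit 1779543658147984072027800075)) (C.cons (nat_lit 1288) (C.node (nat_lit 1) (nat_lit 8) (nat_lit 10) (C.cons (nat_lit 1314) (C.node (nat_lit 2) (nat_lit 8) (nat_lit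 10) (C.cons (nat_lit 1300) (C.miq (nat_lit 2018208288) (nat_lit 2804749831369555976440841285)) (C.cons (nat_lit 1284) (C.node (nat_lit 4) (nat_lit 8) (nat_lit 10) (C.cons (nat_lit 1296) (C.node (nat_lit 1) (nat_lit 9) (nat_lit 10) (C.cons (nat_lit 1602) (C.miq (nat_lit 376674944) (nat_lit 241794812021005619944820481)) (C.cons (nat_lit 1542) (C.miq (nat_lit 974682400) (nat_lit 1588535777014676487334724229)) (C.cons (nat_lit 1538) (C.node (nat_lit 5) (nat_lit 8) (nat_lit 11) (C.cons (nat_lit 2344) (C.miq (nat_lit 414491952) (nat_lit 2804729503013118186140533801)) (C.cons (nat_lit 2340) (C.miq (nat_lit 2763329576) (nat_lit 2533932757263591723063574791)) (C.cons (nat_lit 2336) (C.node (nat_lit 2) (nat_lit 3) (nat_lit 8) (C.cons (nat_lit 876) (C.miq (nat_lit 1194723992) (nat_lit 241791380805293054031040257)) (C.cons (nat_lit 844) (C.miq (nat_lit 1194723992) (nat_lit 241791380805293054028943105)) (C.cons (nat_lit 812) (C.miq (nat_lit 439879570) (nat_lit 1557101307486948141600342661))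 (C.cons (nat_lit 780) (C.miq (nat_lit 439879570) (nat_lit 1557101307486948141598245509)) (C.cons (nat_lit 364) (C.miq (nat_lit 1247938435) (nat_lit 1321394235055844302636450185)) (C.cons (nat_lit 332) (C.miq (nat_lit 1247938435) (nat_lit 1321394235055844302634353033)) (C.cons (nat_lit 300)
  (C.miq (nat_lit 1099041363) (nat_lit 317985804775701409021297705)) (C.cons (nat_lit 268) (C.node (nat_lit 2) (nat_lit 3) (nat_lit 10) (C.cons (nat_lit 1038) (C.node (nat_lit 2) (nat_lit 4) (nat_lit 10) (C.cons (nat_lit 1076) (C.miq (nat_lit 1511604784) (nat_lit 1859338259493596554907551773)) (C.cons (nat_lit 1044) (C.node (nat_lit 3) (nat_lit 4) (nat_lit 10) (C.cons (nat_lit 1112) (C.miq (nat_lit 1779974944) (nat_lit 1588534743839380207978350621)) (C.cons (nat_lit 1048) (C.node (nat_lit 4) (nat_lit 5) (nat_lit 10) (C.cons (nat_lit 1136) (C.node (nat_lit 6) (nat_lit 9) (nat_lit 10) (C.cons (nat_lit 1600) (C.node (nat_lit 1) (nat_lit 4) (nat_lit 5) C.nil) C.nil))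 C.nil)) C.nil))) C.nil))) (C.cons (nat_lit 1036) (C.node (nat_lit 1) (nat_lit 2) (nat_lit 10) (C.cons (nat_lit 3078) (C.node (nat_lit 5) (nat_lit 10) (nat_lit 11) (C.cons (nat_lit 3104) (C.node (nat_lit 1) (nat_lit 3) (nat_lit 10) (C.cons (nat_lit 1098) (C.node (nat_lit 3) (nat_lit 4) (nat_lit 10) C.nil) C.nil)) C.nil)) (C.cons (nat_lit 1030) (C.node (nat_lit 2) (nat_lit 4) (nat_lit 10) (C.cons (nat_lit 1076) (C.node (nat_lit 2) (nat_lit 7) (nat_lit 10) (C.cons (nat_lit 1156) (C.node (nat_lit 2) (nat_lit 9) (nat_lit 10) C.nil) C.nil)) (C.cons (nat_lit 1044) (C.node (nat_lit 2) (nat_lit 6) (nat_lit 7) (C.cons (nat_lit 198) (C.node (nat_lit 6) (nat_lit 7) (nat_lit 9) (C.cons (nat_lit 704) (C.node (nat_lit 1) (nat_lit 2) (nat_lit 3) (C.cons (nat_lit 46) (C.miq (nat_lit 3088190035) (nat_lit 317985805527239596822103081)) (C.cons (nat_lit 14) (C.node (nat_lit 1) (nat_lit 3) (nat_lit 7) (C.cons (nat_lit 170) (C.miq (nat_lit 2719155829) (nat_lit 16944607564696309077772513))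 (C.cons (nat_lit 138) (C.node (nat_lit 3) (nat_lit 4) (nat_lit 10) (C.cons (nat_lit 1048) (C.node (nat_lit 2) (nat_lit 3) (nat_lit 7) C.nil) C.nil)) C.nil))) C.nil))) C.nil)) (C.cons (nat_lit 196) (C.node (nat_lit 1) (nat_lit 6) (nat_lit 7) (C.cons (nat_lit 706) (C.node (nat_lit 1) (nat_lit 7) (nat_lit 8) (C.cons (nat_lit 2434) (C.node (nat_lit 2) (nat_lit 10) (nat_lit 11) C.nil) (C.cons (nat_lit 386) (C.node (nat_lit 1) (nat_lit 7) (nat_lit 11) (C.cons (nat_lit 2182) (C.node (nat_lit 7) (nat_lit 8) (nat_lit 11) C.nil) (C.cons (nat_lit 2178) (C.node (nat_lit 2) (nat_lit 7) (nat_lit 10) (C.cons (nat_lit 1156) (C.node (nat_lit 5) (nat_lit 7) (nat_lit 10) C.nil) C.nil)) C.nil))) C.nil))) (C.cons (nat_lit 194) (C.node (nat_lit 6) (nat_lit 7) (nat_lit 9) (C.cons (nat_lit 704) (C.node (nat_lit 2) (nat_lit 7) (nat_lit 10) (C.cons (nat_lit 1188) (C.node (nat_lit 2) (nat_lit 9) (nat_lit 10) C.nil) (C.cons (nat_lit 1156) (C.node (nat_lit 5) (nat_lit 7) (nat_lit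 10) (C.cons (nat_lit 1184) (C.node (nat_lit 2) (nat_lit 9) (nat_lit 10) C.nil) C.nil)) C.nil))) C.nil)) C.nil))) C.nil))) C.nil))) C.nil))) C.nil))) C.nil))))))))) C.nil)))) C.nil)))) C.nil)) C.nil))) (C.cons (nat_lit 1282) (C.node (nat_lit 2) (nat_lit 3) (nat_lit 10) (C.cons (nat_lit 1038) (C.node (nat_lit 3) (nat_lit 4) (nat_lit 10) (C.cons (nat_lit 1112) (C.miq (nat_lit 1779974944) (nat_lit 1549849117611712074387752989)) (C.cons (nat_lit 1048) (C.node (nat_lit 1) (nat_lit 3) (nat_lit 7) (C.cons (nat_lit 170) (C.node (nat_lit 2) (nat_lit 3) (nat_lit 7) (C.cons (nat_lit 140) (C.node (nat_lit 2) (nat_lit 6) (nat_lit 7) (C.cons (nat_lit 198) (C.node (nat_lit 6) (nat_lit 7) (nat_lit 9) (C.cons (nat_lit 704) (C.node (nat_lit 1) (nat_lit 7) (nat_lit 9) (C.cons (nat_lit 898) (C.miq (nat_lit 1192409472) (nat_lit 239405626932249865254014721)) (C.cons (nat_lit 642) (C.node (nat_lit 1) (nat_lit 7) (nat_lit 8) (C.cons (nat_lit 2434) (C.miq (nat_lit 2168108880)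 (nat_lit 1254935855389083025260742881)) (C.cons (nat_lit 386) (C.node (nat_lit 1) (nat_lit 7) (nat_lit 11) (C.cons (nat_lit 2178) (C.node (nat_lit 2) (nat_lit 7) (nat_lit 10) (C.cons (nat_lit 1188) (C.miq (nat_lit 811705714) (nat_lit 81017177934309277890380964)) C.nil)) C.nil)) C.nil))) C.nil))) C.nil)) (C.cons (nat_lit 196) (C.miq (nat_lit 392312074) (nat_lit 236968608412676337330095145)) C.nil))) C.nil))
  (C.cons (nat_lit 138) (C.node (nat_lit 2) (nat_lit 6) (nat_lit 7) (C.cons (nat_lit 198) (C.miq (nat_lit 1394018854) (nat_lit 166873692855873676306154565)) (C.cons (nat_lit 196) (C.node (nat_lit 1) (nat_lit 6) (nat_lit 7) (C.cons (nat_lit 706) (C.node (nat_lit 2) (nat_lit 3) (nat_lit 6) (C.cons (nat_lit 876) (C.miq (nat_lit 1931585920) (nat_lit 1254886602367925320698760961)) (C.cons (nat_lit 844) (C.miq (nat_lit 1931585920) (nat_lit 1254886602367925183259807489)) (C.cons (nat_lit 620) (C.miq (nat_lit 423261776) (nat_lit 2021345571731694290500913377))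 (C.cons (nat_lit 588) (C.miq (nat_lit 645150992) (nat_lit 251494884532794281707110923)) (C.cons (nat_lit 364) (C.miq (nat_lit 1247938435) (nat_lit 1321394235055844302636450185)) (C.cons (nat_lit 332) (C.miq (nat_lit 1247938435) (nat_lit 1321394235055844302634353033)) (C.cons (nat_lit 108) (C.miq (nat_lit 1460887714) (nat_lit 166833755994976438279078981)) (C.cons (nat_lit 76) (C.node (nat_lit 1) (nat_lit 9) (nat_lit 10) (C.cons (nat_lit 1570) (C.node (nat_lit 1) (nat_lit 2) (nat_lit 9) (C.cons (nat_lit 2566) (C.miq (nat_lit 1394712761) (nat_lit 1254893962447960578353139457)) (C.cons (nat_lit 534) (C.miq (nat_lit 728318065) (nat_lit 3172231201814755604464534675)) (C.cons (nat_lit 518) (C.miq (nat_lit 1225917859) (nat_lit 626261888605733212337865769)) C.nil)))) (C.cons (nat_lit 1538) (C.node (nat_lit 2) (nat_lit 4) (nat_lit 10) (C.cons (nat_lit 1332) (C.miq (nat_lit 1511604784) (nat_lit 1859338259565654148945479709)) (C.cons (nat_lit 1300) (C.miq (nat_lit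 2018208288) (nat_lit 2804749831369555976440841285)) (C.cons (nat_lit 1076) (C.miq (nat_lit 1511604784) (nat_lit 1859338259493596554907551773)) (C.cons (nat_lit 1044) (C.node (nat_lit 2) (nat_lit 3) (nat_lit 9) (C.cons (nat_lit 812) (C.miq (nat_lit 1931585920) (nat_lit 1254886602367925045820854017)) (C.cons (nat_lit 780) (C.miq (nat_lit 1931585920) (nat_lit 1254886602367924908381900545)) (C.cons (nat_lit 556) (C.miq (nat_lit 1386517264) (nat_lit 1262128904457602754755625483)) (C.cons (nat_lit 524) (C.node (nat_lit 2) (nat_lit 3) (nat_lit 7) (C.cons (nat_lit 172) (C.node (nat_lit 2) (nat_lit 3) (nat_lit 8) (C.cons (nat_lit 268) (C.node (nat_lit 3) (nat_lit 6) (nat_lit 10) C.nil) C.nil)) (C.cons (nat_lit 140) (C.node (nat_lit 3) (nat_lit 5) (nat_lit 7) (C.cons (nat_lit 168) (C.node (nat_lit 2) (nat_lit 3) (nat_lit 5) C.nil) C.nil)) C.nil))) C.nil))))) C.nil))))) C.nil))) C.nil))))))))) (C.cons (nat_lit 194) (C.node (nat_lit 6) (nat_lit 7) (nat_lit 9) (C.cons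 (nat_lit 704) (C.node (nat_lit 2) (nat_lit 3) (nat_lit 7) (C.cons (nat_lit 172) (C.node (nat_lit 2) (nat_lit 7) (nat_lit 10) (C.cons (nat_lit 1156) (C.node (nat_lit 5) (nat_lit 7) (nat_lit 10) C.nil) C.nil)) (C.cons (nat_lit 140) (C.node (nat_lit 3) (nat_lit 5) (nat_lit 7) (C.cons (nat_lit 168) (C.node (nat_lit 3) (nat_lit 6) (nat_lit 10) C.nil) C.nil)) C.nil))) C.nil)) C.nil))) C.nil))) C.nil))) C.nil))) (C.cons (nat_lit 1036) (C.node (nat_lit 2) (nat_lit 6) (nat_lit 7) (C.cons (nat_lit 198) (C.node (nat_lit 6) (nat_lit 7) (nat_lit 9) (C.cons (nat_lit 704) (C.node (nat_lit 1) (nat_lit 3) (nat_lit 7) (C.cons (nat_lit 170) (C.miq (nat_lit 329413894) (nat_lit 1252450801623937739739433185)) (C.cons (nat_lit 138) (C.node (nat_lit 1) (nat_lit 7) (nat_lit 11) (C.cons (nat_lit 2434) (C.miq (nat_lit 2819754870) (nat_lit 317967653931075876996647137)) (C.cons (nat_lit 2178) (C.node (nat_lit 2) (nat_lit 6) (nat_lit 11) (C.cons (nat_lit 2372) (C.miq (nat_lit 645183648)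 (nat_lit 251494885034948930103873281)) (C.cons (nat_lit 2116) (C.node (nat_lit 6) (nat_lit 8) (nat_lit 11) (C.cons (nat_lit 2378) (C.miq (nat_lit 913619104) (nat_lit 251494885036637779964137217)) (C.cons (nat_lit 2376) (C.miq (nat_lit 913619104) (nat_lit 251494885036074830010715905)) (C.cons (nat_lit 2370) (C.miq (nat_lit 2551319399) (nat_lit 317959389789730580239616225)) (C.cons (nat_lit 2368) (C.node (nat_lit 1) (nat_lit 2) (nat_lit 3) (C.cons (nat_lit 46) (C.node (nat_lit 2) (nat_lit 3) (nat_lit 7) (C.cons (nat_lit 140)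
  (C.node (nat_lit 3) (nat_lit 5) (nat_lit 7) C.nil) C.nil)) (C.cons (nat_lit 14) (C.node (nat_lit 2) (nat_lit 3) (nat_lit 7) (C.cons (nat_lit 172) (C.node (nat_lit 2) (nat_lit 7) (nat_lit 10) (C.cons (nat_lit 1156) (C.node (nat_lit 5) (nat_lit 7) (nat_lit 10) C.nil) C.nil)) (C.cons (nat_lit 140) (C.node (nat_lit 3) (nat_lit 5) (nat_lit 7) C.nil) C.nil))) C.nil))) C.nil))))) C.nil))) C.nil))) C.nil))) C.nil)) (C.cons (nat_lit 196) (C.node (nat_lit 1) (nat_lit 6) (nat_lit 7) (C.cons (nat_lit 706) (C.node (nat_lit 2) (nat_lit 7) (nat_lit 10) (C.cons (nat_lit 1188) (C.node (nat_lit 2) (nat_lit 3) (nat_lit 7) (C.cons (nat_lit 142) (C.miq (nat_lit 413343895) (nat_lit 1557099075175345259731747461)) (C.cons (nat_lit 140) (C.node (nat_lit 2) (nat_lit 4) (nat_lit 10) (C.cons (nat_lit 1300) (C.miq (nat_lit 2018208288) (nat_lit 2804749831369555976440841285)) (C.cons (nat_lit 1044) (C.node (nat_lit 2) (nat_lit 8) (nat_lit 10) (C.cons (nat_lit 1284) (C.node (nat_lit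 2) (nat_lit 9) (nat_lit 10) (C.cons (nat_lit 1542) (C.miq (nat_lit 974682400) (nat_lit 1549850150787008353744126597)) (C.cons (nat_lit 1540) (C.node (nat_lit 4) (nat_lit 5) (nat_lit 7) (C.cons (nat_lit 432) (C.miq (nat_lit 624994182) (nat_lit 678227547429473659330299328)) (C.cons (nat_lit 176) (C.node (nat_lit 2) (nat_lit 3) (nat_lit 9) (C.cons (nat_lit 876) (C.miq (nat_lit 389155480) (nat_lit 169254466569353849041850113)) (C.cons (nat_lit 844) (C.miq (nat_lit 389155480) (nat_lit 169254466569353849039752961)) (C.cons (nat_lit 812) (C.miq (nat_lit 389155480) (nat_lit 169254466569353849037655809)) (C.cons (nat_lit 780) (C.miq (nat_lit 389155480) (nat_lit 169254466569353849035558657)) (C.cons (nat_lit 620) (C.miq (nat_lit 423261776) (nat_lit 2021345571731694290500913377)) (C.cons (nat_lit 588) (C.miq (nat_lit 645150992) (nat_lit 251494884532794281707110923)) (C.cons (nat_lit 556) (C.miq (nat_lit 324667687) (nat_lit 1287527599174104185846366853)) (C.cons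 (nat_lit 524) (C.node (nat_lit 1) (nat_lit 2) (nat_lit 7) (C.cons (nat_lit 2182) (C.node (nat_lit 1) (nat_lit 2) (nat_lit 10) (C.cons (nat_lit 1030) (C.node (nat_lit 2) (nat_lit 10) (nat_lit 11) C.nil) C.nil)) (C.cons (nat_lit 134) (C.node (nat_lit 1) (nat_lit 2) (nat_lit 10) (C.cons (nat_lit 3078) (C.node (nat_lit 5) (nat_lit 10) (nat_lit 11) C.nil) (C.cons (nat_lit 1030) (C.node (nat_lit 2) (nat_lit 10) (nat_lit 11) (C.cons (nat_lit 3076) (C.node (nat_lit 2) (nat_lit 4) (nat_lit 7) C.nil) C.nil)) C.nil))) C.nil))) C.nil))))))))) C.nil))) C.nil))) C.nil)) C.nil))) C.nil))) (C.cons (nat_lit 1156) (C.node (nat_lit 5) (nat_lit 7) (nat_lit 10) (C.cons (nat_lit 1184) (C.node (nat_lit 3) (nat_lit 4) (nat_lit 10) (C.cons (nat_lit 1112) (C.node (nat_lit 3) (nat_lit 6) (nat_lit 11) (C.cons (nat_lit 2378) (C.miq (nat_lit 913619104) (nat_lit 251494885036637779964137217)) (C.cons (nat_lit 2376) (C.miq (nat_lit 913619104) (nat_lit 251494885036074830010715905))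 (C.cons (nat_lit 2122) (C.miq (nat_lit 588843879) (nat_lit 632280102393011241627027681)) (C.cons (nat_lit 2120) (C.node (nat_lit 3) (nat_lit 6) (nat_lit 9) (C.cons (nat_lit 876) (C.miq (nat_lit 1935976832) (nat_lit 1344347113019407879631867649)) (C.cons (nat_lit 872) (C.miq (nat_lit 1935976832) (nat_lit 1344347113019407862451998465)) (C.cons (nat_lit 844) (C.miq (nat_lit 1935976832) (nat_lit 1344347113019407742192914177)) (C.cons (nat_lit 840) (C.miq (nat_lit 1935976832) (nat_lit 1344347113019407725013044993)) (C.cons (nat_lit 620) (C.miq (nat_lit 423261776) (nat_lit 2021345571731694290500913377)) (C.cons (nat_lit 616) (C.miq (nat_lit 423261776) (nat_lit 2021345571731694273321044193)) (C.cons (nat_lit 588) (C.miq (nat_lit 2794930976) (nat_lit 853523230098241210812794909)) (C.cons (nat_lit 584) (C.node (nat_lit 1) (nat_lit 3) (nat_lit 10) (C.cons (nat_lit 3082) (C.node (nat_lit 6) (nat_lit 10) (nat_lit 11) C.nil) (C.cons (nat_lit 1034) (C.node (nat_lit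 3) (nat_lit 10) (nat_lit 11) C.nil) C.nil))) C.nil))))))))) C.nil))))) (C.cons (nat_lit 1048)
  (C.node (nat_lit 4) (nat_lit 6) (nat_lit 10) (C.cons (nat_lit 1136) (C.node (nat_lit 6) (nat_lit 9) (nat_lit 10) (C.cons (nat_lit 1600) (C.node (nat_lit 2) (nat_lit 4) (nat_lit 10) (C.cons (nat_lit 1300) (C.miq (nat_lit 2018208288) (nat_lit 2804749831369555976440841285)) (C.cons (nat_lit 1044) (C.node (nat_lit 4) (nat_lit 8) (nat_lit 10) (C.cons (nat_lit 1296) (C.node (nat_lit 2) (nat_lit 8) (nat_lit 10) C.nil) C.nil)) C.nil))) C.nil)) (C.cons (nat_lit 1104) (C.node (nat_lit 5) (nat_lit 7) (nat_lit 9) (C.cons (nat_lit 928) (C.node (nat_lit 4) (nat_lit 5) (nat_lit 7) (C.cons (nat_lit 180) (C.miq (nat_lit 2236323616) (nat_lit 2533979372117459420189622917)) (C.cons (nat_lit 176) (C.node (nat_lit 2) (nat_lit 4) (nat_lit 7) (C.cons (nat_lit 404) (C.node (nat_lit 2) (nat_lit 4) (nat_lit 10) (C.cons (nat_lit 1044) (C.node (nat_lit 1) (nat_lit 7) (nat_lit 8) C.nil)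 C.nil)) C.nil)) C.nil))) (C.cons (nat_lit 672) (C.node (nat_lit 7) (nat_lit 8) (nat_lit 9) (C.cons (nat_lit 896) (C.node (nat_lit 6) (nat_lit 9) (nat_lit 10) (C.cons (nat_lit 1600) (C.node (nat_lit 5) (nat_lit 6) (nat_lit 10) C.nil) C.nil)) C.nil)) C.nil))) C.nil))) C.nil))) C.nil)) C.nil))) (C.cons (nat_lit 194) (C.node (nat_lit 6) (nat_lit 7) (nat_lit 9) (C.cons (nat_lit 704) (C.node (nat_lit 2) (nat_lit 7) (nat_lit 10) (C.cons (nat_lit 1188) (C.node (nat_lit 2) (nat_lit 3) (nat_lit 7) (C.cons (nat_lit 142) (C.miq (nat_lit 413343895) (nat_lit 1557099075175345259731747461)) (C.cons (nat_lit 140) (C.node (nat_lit 2) (nat_lit 4) (nat_lit 10) (C.cons (nat_lit 1300) (C.miq (nat_lit 2018208288) (nat_lit 2804749831369555976440841285)) (C.cons (nat_lit 1044) (C.node (nat_lit 2) (nat_lit 8) (nat_lit 10) (C.cons (nat_lit 1284) (C.node (nat_lit 2) (nat_lit 9) (nat_lit 10) (C.cons (nat_lit 1542) (C.miq (nat_lit 974682400) (nat_lit 1549850150787008353744126597))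 (C.cons (nat_lit 1540) (C.node (nat_lit 4) (nat_lit 5) (nat_lit 7) (C.cons (nat_lit 432) (C.miq (nat_lit 624994182) (nat_lit 678227547429473659330299328)) (C.cons (nat_lit 176) (C.node (nat_lit 1) (nat_lit 2) (nat_lit 7) (C.cons (nat_lit 2182) (C.node (nat_lit 1) (nat_lit 2) (nat_lit 10) C.nil) C.nil)) C.nil))) C.nil))) C.nil)) C.nil))) C.nil))) (C.cons (nat_lit 1156) (C.node (nat_lit 5) (nat_lit 7) (nat_lit 10) (C.cons (nat_lit 1184) (C.node (nat_lit 3) (nat_lit 4) (nat_lit 10) (C.cons (nat_lit 1112) (C.node (nat_lit 1) (nat_lit 3) (nat_lit 10) (C.cons (nat_lit 3082) (C.node (nat_lit 6) (nat_lit 10) (nat_lit 11) (C.cons (nat_lit 3136) (C.node (nat_lit 2) (nat_lit 10) (nat_lit 11) C.nil) C.nil)) (C.cons (nat_lit 1034) (C.node (nat_lit 3) (nat_lit 10) (nat_lit 11) (C.cons (nat_lit 3080) (C.node (nat_lit 1) (nat_lit 3) (nat_lit 7) (C.cons (nat_lit 174) (C.miq (nat_lit 2318469490) (nat_lit 1250034150056370519000613509)) C.nil)) C.nil)) C.nil))) (C.cons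 (nat_lit 1048) (C.node (nat_lit 4) (nat_lit 6) (nat_lit 10) (C.cons (nat_lit 1136) (C.node (nat_lit 2) (nat_lit 4) (nat_lit 10) (C.cons (nat_lit 1300) (C.miq (nat_lit 2018208288) (nat_lit 2804749831369555976440841285)) (C.cons (nat_lit 1044) (C.node (nat_lit 4) (nat_lit 8) (nat_lit 10) (C.cons (nat_lit 1296) (C.node (nat_lit 1) (nat_lit 7) (nat_lit 11) C.nil) C.nil)) C.nil))) (C.cons (nat_lit 1104) (C.node (nat_lit 2) (nat_lit 6) (nat_lit 11) (C.cons (nat_lit 2372) (C.miq (nat_lit 645183648) (nat_lit 251494885034948930103873281)) (C.cons (nat_lit 2118) (C.node (nat_lit 6) (nat_lit 10) (nat_lit 11) (C.cons (nat_lit 3136) (C.node (nat_lit 1) (nat_lit 7) (nat_lit 11) C.nil) C.nil)) (C.cons (nat_lit 2116) (C.node (nat_lit 1) (nat_lit 7) (nat_lit 11) C.nil) C.nil)))) C.nil))) C.nil))) C.nil)) C.nil))) C.nil)) C.nil))) C.nil))) C.nil))) C.nil))) C.nil))))) C.nil))))) (C.cons (nat_lit 1216) (C.node (nat_lit 1) (nat_lit 7) (nat_lit 11) (C.cons (nat_lit 2434)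 (C.node (nat_lit 2) (nat_lit 7) (nat_lit 11) (C.cons (nat_lit 2180) (C.node (nat_lit 2) (nat_lit 6) (nat_lit 11) (C.cons (nat_lit 2372) (C.miq (nat_lit 2709653430) (nat_lit 317967653179537689321670881)) (C.cons (nat_lit 2118)
  (C.node (nat_lit 1) (nat_lit 9) (nat_lit 11) (C.cons (nat_lit 2594) (C.node (nat_lit 2) (nat_lit 9) (nat_lit 11) (C.cons (nat_lit 2564) (C.node (nat_lit 3) (nat_lit 5) (nat_lit 11) (C.cons (nat_lit 2344) (C.miq (nat_lit 2712995715) (nat_lit 3135973222192404231692485001)) C.nil)) C.nil)) (C.cons (nat_lit 2562) (C.node (nat_lit 2) (nat_lit 8) (nat_lit 11) (C.cons (nat_lit 2340) (C.node (nat_lit 2) (nat_lit 9) (nat_lit 11) C.nil) C.nil)) C.nil))) (C.cons (nat_lit 2116) (C.node (nat_lit 2) (nat_lit 8) (nat_lit 11) (C.cons (nat_lit 2340) (C.node (nat_lit 5) (nat_lit 10) (nat_lit 11) (C.cons (nat_lit 3106) (C.miq (nat_lit 901253655) (nat_lit 2828893667768437427191022739)) C.nil)) (C.cons (nat_lit 2308) (C.node (nat_lit 5) (nat_lit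 8) (nat_lit 11) C.nil) C.nil))) C.nil)))) C.nil)) (C.cons (nat_lit 2182) (C.node (nat_lit 7) (nat_lit 8) (nat_lit 11) (C.cons (nat_lit 2432) (C.node (nat_lit 2) (nat_lit 6) (nat_lit 11) (C.cons (nat_lit 2372) (C.miq (nat_lit 1093142454) (nat_lit 317953707441016882568890593)) (C.cons (nat_lit 2116) (C.node (nat_lit 2) (nat_lit 9) (nat_lit 11) (C.cons (nat_lit 2596) (C.miq (nat_lit 1528074864) (nat_lit 2497651092677967637237662341)) (C.cons (nat_lit 2564) (C.node (nat_lit 1) (nat_lit 9) (nat_lit 11) C.nil) C.nil))) C.nil))) C.nil)) (C.cons (nat_lit 2178) (C.node (nat_lit 2) (nat_lit 7) (nat_lit 11) (C.cons (nat_lit 2436) (C.node (nat_lit 2) (nat_lit 4) (nat_lit 7) (C.cons (nat_lit 180) (C.miq (nat_lit 1350715831) (nat_lit 317950811130504699730725520)) (C.cons (nat_lit 148) (C.node (nat_lit 2) (nat_lit 6) (nat_lit 11) (C.cons (nat_lit 2118) (C.node (nat_lit 1) (nat_lit 9) (nat_lit 11) (C.cons (nat_lit 2594) (C.node (nat_lit 2) (nat_lit 9) (nat_lit 11)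 (C.cons (nat_lit 2564) (C.node (nat_lit 1) (nat_lit 8) (nat_lit 11) (C.cons (nat_lit 2314) (C.miq (nat_lit 723089456) (nat_lit 3135965474915958603704369545)) C.nil)) C.nil)) (C.cons (nat_lit 2562) (C.node (nat_lit 2) (nat_lit 9) (nat_lit 11) (C.cons (nat_lit 2596) (C.node (nat_lit 2) (nat_lit 10) (nat_lit 11) C.nil) C.nil)) C.nil))) (C.cons (nat_lit 2116) (C.node (nat_lit 2) (nat_lit 7) (nat_lit 10) (C.cons (nat_lit 1188) (C.node (nat_lit 7) (nat_lit 8) (nat_lit 10) (C.cons (nat_lit 1408) (C.node (nat_lit 2) (nat_lit 9) (nat_lit 10) (C.cons (nat_lit 1542) (C.miq (nat_lit 2275541905) (nat_lit 1436208725306497692296675851)) (C.cons (nat_lit 1540) (C.node (nat_lit 2) (nat_lit 4) (nat_lit 10) (C.cons (nat_lit 1300) (C.node (nat_lit 4) (nat_lit 5) (nat_lit 10) (C.cons (nat_lit 1136) (C.miq (nat_lit 2221615703) (nat_lit 2572639080774416789198144676)) (C.cons (nat_lit 1072) (C.node (nat_lit 4) (nat_lit 5) (nat_lit 7) (C.cons (nat_lit 176) (C.node (nat_lit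 4) (nat_lit 7) (nat_lit 8) C.nil) C.nil)) C.nil))) (C.cons (nat_lit 1044) (C.node (nat_lit 2) (nat_lit 8) (nat_lit 10) (C.cons (nat_lit 1292) (C.miq (nat_lit 896704696) (nat_lit 1436227707195303305108786945)) (C.cons (nat_lit 1284) (C.node (nat_lit 2) (nat_lit 3) (nat_lit 10) (C.cons (nat_lit 1038) (C.node (nat_lit 2) (nat_lit 10) (nat_lit 11) (C.cons (nat_lit 3076) (C.node (nat_lit 3) (nat_lit 10) (nat_lit 11) C.nil) C.nil)) (C.cons (nat_lit 1036) (C.node (nat_lit 1) (nat_lit 2) (nat_lit 10) (C.cons (nat_lit 3078) (C.node (nat_lit 5) (nat_lit 10) (nat_lit 11) C.nil) (C.cons (nat_lit 1030) (C.node (nat_lit 2) (nat_lit 10) (nat_lit 11) (C.cons (nat_lit 3076) (C.node (nat_lit 5) (nat_lit 10) (nat_lit 11) C.nil) C.nil)) C.nil))) C.nil))) C.nil))) C.nil))) C.nil))) C.nil)) (C.cons (nat_lit 1156) (C.node (nat_lit 4) (nat_lit 5) (nat_lit 7) (C.cons (nat_lit 432) (C.node (nat_lit 5) (nat_lit 7) (nat_lit 10) (C.cons (nat_lit 1184) (C.node (nat_lit 7) (nat_lit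 8) (nat_lit 10) C.nil) C.nil)) (C.cons (nat_lit 176) (C.node (nat_lit 4) (nat_lit 7) (nat_lit 8) (C.cons (nat_lit 400) (C.node (nat_lit 5) (nat_lit 7) (nat_lit 10) C.nil) C.nil)) C.nil))) C.nil))) C.nil))) C.nil))) (C.cons (nat_lit 2180) (C.node (nat_lit 7) (nat_lit 8) (nat_lit 11) (C.cons (nat_lit 2432)
  (C.ref (nat_lit 259) (nat_lit 205163983024656)) C.nil)) C.nil))) C.nil)))) C.nil))) (C.cons (nat_lit 1664) (C.node (nat_lit 1) (nat_lit 7) (nat_lit 11) (C.cons (nat_lit 2434) (C.node (nat_lit 2) (nat_lit 7) (nat_lit 11) (C.cons (nat_lit 2180) (C.node (nat_lit 2) (nat_lit 6) (nat_lit 11) (C.cons (nat_lit 2372) (C.miq (nat_lit 2709653430) (nat_lit 317967653179537689321670881)) (C.cons (nat_lit 2118) (C.node (nat_lit 1) (nat_lit 9) (nat_lit 11) (C.cons (nat_lit 2594) (C.node (nat_lit 2) (nat_lit 9) (nat_lit 11) (C.cons (nat_lit 2564) (C.node (nat_lit 3) (nat_lit 5) (nat_lit 11) (C.cons (nat_lit 2344) (C.miq (nat_lit 2712995715) (nat_lit 3135973222192404231692485001))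 C.nil)) C.nil)) (C.cons (nat_lit 2562) (C.node (nat_lit 2) (nat_lit 8) (nat_lit 11) (C.cons (nat_lit 2340) (C.node (nat_lit 2) (nat_lit 9) (nat_lit 11) C.nil) C.nil)) C.nil))) (C.cons (nat_lit 2116) (C.node (nat_lit 2) (nat_lit 8) (nat_lit 11) (C.cons (nat_lit 2340) (C.node (nat_lit 5) (nat_lit 10) (nat_lit 11) (C.cons (nat_lit 3106) (C.miq (nat_lit 901253655) (nat_lit 2828893667768437427191022739)) C.nil)) (C.cons (nat_lit 2308) (C.node (nat_lit 5) (nat_lit 8) (nat_lit 11) C.nil) C.nil))) C.nil)))) C.nil)) (C.cons (nat_lit 2182) (C.node (nat_lit 7) (nat_lit 8) (nat_lit 11) (C.cons (nat_lit 2432) (C.node (nat_lit 2) (nat_lit 6) (nat_lit 11) (C.cons (nat_lit 2372) (C.miq (nat_lit 1093142454) (nat_lit 317953707441016882568890593)) (C.cons (nat_lit 2116) (C.node (nat_lit 2) (nat_lit 9) (nat_lit 11) (C.cons (nat_lit 2596) (C.miq (nat_lit 1528074864) (nat_lit 2497651092677967637237662341)) (C.cons (nat_lit 2564) (C.node (nat_lit 1) (nat_lit 9) (nat_lit 11)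 C.nil) C.nil))) C.nil))) C.nil)) (C.cons (nat_lit 2178) (C.node (nat_lit 2) (nat_lit 7) (nat_lit 11) (C.cons (nat_lit 2436) (C.node (nat_lit 2) (nat_lit 4) (nat_lit 7) (C.cons (nat_lit 180) (C.miq (nat_lit 1350715831) (nat_lit 317950811130504699730725520)) (C.cons (nat_lit 148) (C.node (nat_lit 2) (nat_lit 6) (nat_lit 11) (C.cons (nat_lit 2118) (C.node (nat_lit 1) (nat_lit 9) (nat_lit 11) (C.cons (nat_lit 2594) (C.node (nat_lit 2) (nat_lit 9) (nat_lit 11) (C.cons (nat_lit 2564) (C.node (nat_lit 1) (nat_lit 8) (nat_lit 11) (C.cons (nat_lit 2314) (C.miq (nat_lit 723089456) (nat_lit 3135965474915958603704369545)) C.nil)) C.nil)) (C.cons (nat_lit 2562) (C.node (nat_lit 2) (nat_lit 9) (nat_lit 11) (C.cons (nat_lit 2596) (C.node (nat_lit 2) (nat_lit 10) (nat_lit 11) C.nil) C.nil)) C.nil))) (C.cons (nat_lit 2116) (C.node (nat_lit 4) (nat_lit 5) (nat_lit 7) (C.cons (nat_lit 432) (C.node (nat_lit 5) (nat_lit 7) (nat_lit 10) (C.cons (nat_lit 1188) (C.node (nat_lit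 4) (nat_lit 5) (nat_lit 10) (C.cons (nat_lit 1136) (C.miq (nat_lit 41445972) (nat_lit 2944949513441646761697346672)) (C.cons (nat_lit 1072) (C.node (nat_lit 7) (nat_lit 8) (nat_lit 10) (C.cons (nat_lit 1472) (C.miq (nat_lit 624994182) (nat_lit 678227547429473659330299328)) (C.cons (nat_lit 1408) (C.node (nat_lit 2) (nat_lit 4) (nat_lit 10) (C.cons (nat_lit 1300) (C.node (nat_lit 3) (nat_lit 4) (nat_lit 10) C.nil) (C.cons (nat_lit 1044) (C.node (nat_lit 2) (nat_lit 4) (nat_lit 8) C.nil) C.nil))) C.nil))) C.nil))) (C.cons (nat_lit 1184) (C.node (nat_lit 2) (nat_lit 7) (nat_lit 10) (C.cons (nat_lit 1164) (C.node (nat_lit 6) (nat_lit 7) (nat_lit 10) (C.cons (nat_lit 1472) (C.miq (nat_lit 1185024115) (nat_lit 1321394234821094172112191881)) (C.cons (nat_lit 1216) (C.node (nat_lit 7) (nat_lit 8) (nat_lit 10) C.nil) C.nil))) (C.cons (nat_lit 1156) (C.node (nat_lit 3) (nat_lit 7) (nat_lit 10) (C.cons (nat_lit 1224) (C.node (nat_lit 7) (nat_lit 8) (nat_lit 10)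 C.nil) (C.cons (nat_lit 1160) (C.node (nat_lit 6) (nat_lit 7) (nat_lit 10) C.nil) C.nil))) C.nil))) C.nil))) (C.cons (nat_lit 176) (C.node (nat_lit 4) (nat_lit 7) (nat_lit 8) (C.cons (nat_lit 400) (C.node (nat_lit 3) (nat_lit 4) (nat_lit 9) (C.cons (nat_lit 792) (C.node (nat_lit 1) (nat_lit 4) (nat_lit 8) C.nil) (C.cons (nat_lit 600)
  (C.node (nat_lit 3) (nat_lit 4) (nat_lit 10) C.nil) C.nil))) C.nil)) C.nil))) C.nil))) C.nil))) (C.cons (nat_lit 2180) (C.node (nat_lit 7) (nat_lit 8) (nat_lit 11) (C.cons (nat_lit 2432) (C.node (nat_lit 2) (nat_lit 6) (nat_lit 11) (C.cons (nat_lit 2372) (C.node (nat_lit 2) (nat_lit 10) (nat_lit 11) (C.cons (nat_lit 3110) (C.miq (nat_lit 461677152) (nat_lit 2804729503518647364457923653)) C.nil)) (C.cons (nat_lit 2118) (C.node (nat_lit 1) (nat_lit 9) (nat_lit 11) C.nil) (C.cons (nat_lit 2116) (C.node (nat_lit 2) (nat_lit 8) (nat_lit 11) C.nil) C.nil)))) C.nil)) C.nil))) C.nil)))) C.nil)))))) C.nil)))))) List.nil)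

theorem ok12_260 : okL par12 (nat_lit 261) c12_260 (nat_lit 260) = true := by decide +kernel

noncomputable def c12_261 : List C :=
  (List.cons (C.node (nat_lit 6) (nat_lit 9) (nat_lit 11) (C.cons (nat_lit 2630) (C.miq (nat_lit 2763392914) (nat_lit 2572614306760822259806765701)) (C.cons (nat_lit 2628) (C.miq (nat_lit 2763392914) (nat_lit 2572614306760822259806634629)) (C.cons (nat_lit 2626) (C.node (nat_lit 2) (nat_lit 6) (nat_lit 11) (C.cons (nat_lit 2372) (C.node (nat_lit 2) (nat_lit 7) (nat_lit 11) (C.cons (nat_lit 2182) (C.miq (nat_lit 1093142454) (nat_lit 317953707441016882568890593)) (C.cons (nat_lit 2180) (C.node (nat_lit 1) (nat_lit 7) (nat_lit 11) (C.cons (nat_lit 2434) (C.miq (nat_lit 2709653430) (nat_lit 317967653179537689321670881)) (C.cons (nat_lit 2178) (C.node (nat_lit 7) (nat_lit 8) (nat_lit 11) (C.cons (nat_lit 2432) (C.node (nat_lit 2) (nat_lit 9) (nat_lit 11) (C.cons (nat_lit 2596) (C.node (nat_lit 1) (nat_lit 2) (nat_lit 11) (C.cons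 (nat_lit 3078) (C.miq (nat_lit 461677152) (nat_lit 2804729503509640165203182661)) C.nil)) C.nil)) C.nil)) C.nil))) C.nil))) (C.cons (nat_lit 2116) (C.node (nat_lit 2) (nat_lit 9) (nat_lit 11) (C.cons (nat_lit 2596) (C.node (nat_lit 1) (nat_lit 7) (nat_lit 9) (C.cons (nat_lit 930) (C.miq (nat_lit 611388312) (nat_lit 1415656986847057289473560321)) (C.cons (nat_lit 898) (C.miq (nat_lit 611388312) (nat_lit 1415656986847057289471463169)) (C.cons (nat_lit 674) (C.miq (nat_lit 364149024) (nat_lit 2533930119239298348243288709)) (C.cons (nat_lit 642) (C.node (nat_lit 2) (nat_lit 8) (nat_lit 11) (C.cons (nat_lit 2436) (C.node (nat_lit 1) (nat_lit 7) (nat_lit 11) (C.cons (nat_lit 2178) (C.node (nat_lit 2) (nat_lit 4) (nat_lit 7) (C.cons (nat_lit 180) (C.miq (nat_lit 2874411303) (nat_lit 2533930120130729599361614469)) (C.cons (nat_lit 148) (C.node (nat_lit 1) (nat_lit 2) (nat_lit 11) (C.cons (nat_lit 3078) (C.node (nat_lit 5) (nat_lit 10) (nat_lit 11) (C.cons (nat_lit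 3104) (C.node (nat_lit 3) (nat_lit 10) (nat_lit 11) C.nil) C.nil)) (C.cons (nat_lit 2054) (C.node (nat_lit 2) (nat_lit 10) (nat_lit 11) C.nil) C.nil))) C.nil))) C.nil)) (C.cons (nat_lit 2308) (C.node (nat_lit 2) (nat_lit 7) (nat_lit 11) (C.cons (nat_lit 2182) (C.miq (nat_lit 1528074864) (nat_lit 2497651092677967637237662341)) (C.cons (nat_lit 2180) (C.node (nat_lit 1) (nat_lit 2) (nat_lit 11) (C.cons (nat_lit 3078) (C.node (nat_lit 5) (nat_lit 10) (nat_lit 11) C.nil) C.nil)) C.nil))) C.nil))) C.nil))))) (C.cons (nat_lit 2564) (C.node (nat_lit 5) (nat_lit 9) (nat_lit 11) (C.cons (nat_lit 2592) (C.node (nat_lit 6) (nat_lit 8) (nat_lit 11) (C.cons (nat_lit 2376) (C.node (nat_lit 6) (nat_lit 10) (nat_lit 11) C.nil) (C.cons (nat_lit 2368) (C.node (nat_lit 3) (nat_lit 6) (nat_lit 11) C.nil) C.nil))) C.nil)) C.nil))) C.nil))) (C.cons (nat_lit 2624) (C.ref (nat_lit 260) (nat_lit 205163983024656)) C.nil))))) List.nil)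

theorem ok12_261 : okL par12 (nat_lit 262) c12_261 (nat_lit 261) = true := by decide +kernel

noncomputable def c12_262 : List C :=
  (List.cons (C.node (nat_lit 7) (nat_lit 10) (nat_lit 11) (C.cons (nat_lit 3204) (C.node (nat_lit 1) (nat_lit 7) (nat_lit 11) (C.cons (nat_lit 2434) (C.node (nat_lit 5) (nat_lit 10) (nat_lit 11) (C.cons (nat_lit 3106) (C.node (nat_lit 3) (nat_lit 5) (nat_lit 11) (C.cons (nat_lit 2600) (C.miq (nat_lit 2203807905) (nat_lit 3143252030483735503475704979)) (C.cons (nat_lit 2344) (C.node (nat_lit 2) (nat_lit 5) (nat_lit 11) (C.cons (nat_lit 2596) (C.miq (nat_lit 1537512048) (nat_lit 3733173280324123043243950725)) (C.cons (nat_lit 2084) (C.node (nat_lit 5) (nat_lit 9) (nat_lit 11) (C.cons (nat_lit 2592) (C.node (nat_lit 2) (nat_lit 8) (nat_lit 11) (C.cons (nat_lit 2372) (C.miq (nat_lit 642234378) (nat_lit 251515674515515125980663553)) (C.cons (nat_lit 2308) (C.node (nat_lit 6) (nat_lit 8) (nat_lit 11) (C.cons (nat_lit 2368)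 (C.node (nat_lit 1) (nat_lit 3) (nat_lit 11) (C.cons (nat_lit 2058) (C.node (nat_lit 3) (nat_lit 9) (nat_lit 11) C.nil) C.nil)) C.nil)) C.nil))) C.nil)) C.nil))) (C.cons (nat_lit 2088) (C.miq (nat_lit 2203807905) (nat_lit 2524282010841045366026142867)) C.nil)))) (C.cons (nat_lit 3104) (C.node (nat_lit 2) (nat_lit 8) (nat_lit 11) (C.cons (nat_lit 2372) (C.miq (nat_lit 642234378) (nat_lit 251515674515515125980663553)) (C.cons (nat_lit 2340) (C.node (nat_lit 1) (nat_lit 2) (nat_lit 7) (C.cons (nat_lit 206) (C.miq (nat_lit 2819754870) (nat_lit 317967653931075876997171425)) (C.cons (nat_lit 198) (C.miq (nat_lit 2819754870) (nat_lit 317967653931075876996647137)) (C.cons (nat_lit 174) (C.miq (nat_lit 2820737879) (nat_lit 317969092777113222613174497)) (C.cons (nat_lit 166) (C.miq (nat_lit 2820737879) (nat_lit 317969092777113222612650209)) (C.cons (nat_lit 142) (C.miq (nat_lit 2591099683) (nat_lit 1415661783497040460306581533)) (C.cons (nat_lit 134) (C.node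 (nat_lit 3) (nat_lit 8) (nat_lit 11) (C.cons (nat_lit 2376) (C.node (nat_lit 3) (nat_lit 9) (nat_lit 11) (C.cons (nat_lit 2600) (C.miq (nat_lit 997873984) (nat_lit 3873417972559556929547076145)) (C.cons (nat_lit 2568) (C.node (nat_lit 3) (nat_lit 10) (nat_lit 11) (C.cons (nat_lit 3082) (C.miq (nat_lit 2443641778) (nat_lit 1415664033065882956360583197)) (C.cons (nat_lit 3080) (C.node (nat_lit 1) (nat_lit 10) (nat_lit 11) (C.cons (nat_lit 3138) (C.miq (nat_lit 1661646961) (nat_lit 1287563884441269604298459522)) (C.cons (nat_lit 3074) (C.node (nat_lit 6) (nat_lit 10) (nat_lit 11) (C.cons (nat_lit 3136) (C.node (nat_lit 1) (nat_lit 3) (nat_lit 11) C.nil) C.nil)) C.nil))) C.nil))) C.nil))) (C.cons (nat_lit 2312) (C.node (nat_lit 6) (nat_lit 8) (nat_lit 11) (C.cons (nat_lit 2368) (C.node (nat_lit 1) (nat_lit 3) (nat_lit 7) (C.cons (nat_lit 202) (C.node (nat_lit 1) (nat_lit 10) (nat_lit 11) (C.cons (nat_lit 3138) (C.miq (nat_lit 951480481) (nat_lit 2862740067200380938055976083))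 (C.cons (nat_lit 3082) (C.miq (nat_lit 2443641778) (nat_lit 1415664033065882956360583197)) (C.cons (nat_lit 3074) (C.node (nat_lit 3) (nat_lit 9) (nat_lit 11) (C.cons (nat_lit 2632) (C.miq (nat_lit 2838563687) (nat_lit 632289805876918062169065697)) (C.cons (nat_lit 2600) (C.miq (nat_lit 997873984) (nat_lit 3873417972559556929547076145)) (C.cons (nat_lit 2568) (C.node (nat_lit 6) (nat_lit 9) (nat_lit 11) (C.cons (nat_lit 2628) (C.miq (nat_lit 2763392914) (nat_lit 2572614306760822259806634629)) (C.cons (nat_lit 2626) (C.miq (nat_lit 2299726695) (nat_lit 632275454310028690368104673)) C.nil))) C.nil)))) C.nil)))) (C.cons (nat_lit 170) (C.miq (nat_lit 363557640) (nat_lit 3752550643506739687769309577)) (C.cons (nat_lit 138) (C.node (nat_lit 1) (nat_lit 5) (nat_lit 7) (C.cons (nat_lit 674) (C.node (nat_lit 1) (nat_lit 6) (nat_lit 7) (C.cons (nat_lit 194) (C.node (nat_lit 1) (nat_lit 5) (nat_lit 11) (C.cons (nat_lit 2090) (C.miq (nat_lit 588843863) (nat_lit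 632280102393011104185977057)) (C.cons (nat_lit 2082) (C.node (nat_lit 3) (nat_lit 5) (nat_lit 11) (C.cons (nat_lit 2600) (C.miq (nat_lit 1133579095) (nat_lit 632289805380396065843448033)) (C.cons (nat_lit 2088)
  (C.node (nat_lit 5) (nat_lit 9) (nat_lit 11) C.nil) C.nil))) C.nil))) C.nil)) (C.cons (nat_lit 162) (C.node (nat_lit 1) (nat_lit 6) (nat_lit 7) (C.cons (nat_lit 706) (C.node (nat_lit 1) (nat_lit 4) (nat_lit 9) (C.cons (nat_lit 786) (C.miq (nat_lit 1460931465) (nat_lit 1415662484031959190704623361)) (C.cons (nat_lit 534) (C.miq (nat_lit 1632336160) (nat_lit 2497682672971827043960160901)) (C.cons (nat_lit 530) (C.node (nat_lit 3) (nat_lit 9) (nat_lit 11) (C.cons (nat_lit 2632) (C.miq (nat_lit 957658736) (nat_lit 640768999024039728359082209)) (C.cons (nat_lit 2600) (C.miq (nat_lit 997873984) (nat_lit 3873417972559556929547076145)) (C.cons (nat_lit 2568) (C.node (nat_lit 1) (nat_lit 8) (nat_lit 9) (C.cons (nat_lit 802) (C.miq (nat_lit 1497071874)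 (nat_lit 3104564670377245378722201863)) (C.cons (nat_lit 770) (C.node (nat_lit 6) (nat_lit 9) (nat_lit 11) (C.cons (nat_lit 2628) (C.miq (nat_lit 689223280) (nat_lit 640768999022913828452239585)) (C.cons (nat_lit 2624) (C.node (nat_lit 2) (nat_lit 6) (nat_lit 11) (C.cons (nat_lit 2118) (C.node (nat_lit 2) (nat_lit 9) (nat_lit 11) C.nil) C.nil)) C.nil))) C.nil))) C.nil)))) C.nil)))) (C.cons (nat_lit 194) (C.node (nat_lit 1) (nat_lit 7) (nat_lit 9) (C.cons (nat_lit 642) (C.node (nat_lit 2) (nat_lit 4) (nat_lit 7) (C.cons (nat_lit 404) (C.node (nat_lit 4) (nat_lit 5) (nat_lit 7) (C.cons (nat_lit 176) (C.node (nat_lit 5) (nat_lit 7) (nat_lit 10) (C.cons (nat_lit 1696) (C.miq (nat_lit 659864208) (nat_lit 212809259041468939169238785)) (C.cons (nat_lit 1440) (C.miq (nat_lit 628406432) (nat_lit 212809258798273459819581185)) C.nil))) C.nil)) (C.cons (nat_lit 180) (C.miq (nat_lit 2602895988) (nat_lit 2828896767602816766503552147)) (C.cons (nat_lit 148) (C.node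 (nat_lit 5) (nat_lit 7) (nat_lit 10) (C.cons (nat_lit 1696) (C.miq (nat_lit 1411879098) (nat_lit 178952307138830512047787777)) (C.cons (nat_lit 1440) (C.miq (nat_lit 1463978507) (nat_lit 178964187089426594213465857)) (C.cons (nat_lit 1184) (C.node (nat_lit 2) (nat_lit 5) (nat_lit 7) (C.cons (nat_lit 164) (C.node (nat_lit 2) (nat_lit 3) (nat_lit 7) (C.cons (nat_lit 140) (C.node (nat_lit 2) (nat_lit 6) (nat_lit 7) C.nil) C.nil)) C.nil)) C.nil)))) C.nil)))) C.nil)) C.nil))) C.nil))) C.nil)))) C.nil)) C.nil))) C.nil))))))) (C.cons (nat_lit 2308) (C.node (nat_lit 5) (nat_lit 8) (nat_lit 11) (C.cons (nat_lit 2344) (C.miq (nat_lit 458913840) (nat_lit 3752527345906239432959787401)) (C.cons (nat_lit 2336) (C.node (nat_lit 3) (nat_lit 8) (nat_lit 11) (C.cons (nat_lit 2376) (C.node (nat_lit 3) (nat_lit 9) (nat_lit 11) (C.cons (nat_lit 2600) (C.miq (nat_lit 997873984) (nat_lit 3873417972559556929547076145)) (C.cons (nat_lit 2568) (C.node (nat_lit 3) (nat_lit 10)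 (nat_lit 11) (C.cons (nat_lit 3082) (C.miq (nat_lit 2443641778) (nat_lit 1415664033065882956360583197)) (C.cons (nat_lit 3080) (C.node (nat_lit 1) (nat_lit 10) (nat_lit 11) (C.cons (nat_lit 3138) (C.miq (nat_lit 1661646961) (nat_lit 1287563884441269604298459522)) C.nil)) C.nil))) C.nil))) (C.cons (nat_lit 2312) (C.node (nat_lit 6) (nat_lit 8) (nat_lit 11) (C.cons (nat_lit 2368) (C.node (nat_lit 3) (nat_lit 5) (nat_lit 11) (C.cons (nat_lit 2600) (C.miq (nat_lit 997873984) (nat_lit 3873417972559556929547076145)) (C.cons (nat_lit 2090) (C.node (nat_lit 2) (nat_lit 5) (nat_lit 11) (C.cons (nat_lit 2596) (C.miq (nat_lit 1537512048) (nat_lit 3733173280324123043243950725)) C.nil)) C.nil))) C.nil)) C.nil))) C.nil))) C.nil)))) C.nil))) (C.cons (nat_lit 2178) (C.node (nat_lit 7) (nat_lit 8) (nat_lit 11) (C.cons (nat_lit 2432) (C.node (nat_lit 5) (nat_lit 10) (nat_lit 11) (C.cons (nat_lit 3106) (C.node (nat_lit 3) (nat_lit 5) (nat_lit 11) (C.cons (nat_lit 2600)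 (C.miq (nat_lit 997873984) (nat_lit 3873417972559556929547076145)) (C.cons (nat_lit 2344) (C.miq (nat_lit 461874480) (nat_lit 2940129195314359811862758441)) (C.cons (nat_lit 2088) (C.node (nat_lit 5) (nat_lit 9) (nat_lit 11) (C.cons (nat_lit 2596) (C.miq (nat_lit 1537512048) (nat_lit 3733173280324123043243950725)) (C.cons (nat_lit 2592)
  (C.node (nat_lit 2) (nat_lit 5) (nat_lit 11) (C.cons (nat_lit 2340) (C.node (nat_lit 3) (nat_lit 9) (nat_lit 11) (C.cons (nat_lit 2632) (C.node (nat_lit 3) (nat_lit 10) (nat_lit 11) (C.cons (nat_lit 3080) (C.node (nat_lit 6) (nat_lit 10) (nat_lit 11) C.nil) C.nil)) (C.cons (nat_lit 2568) (C.node (nat_lit 3) (nat_lit 10) (nat_lit 11) (C.cons (nat_lit 3144) (C.node (nat_lit 1) (nat_lit 3) (nat_lit 11) C.nil) C.nil)) C.nil))) (C.cons (nat_lit 2084) (C.node (nat_lit 5) (nat_lit 8) (nat_lit 11) C.nil) C.nil))) C.nil))) C.nil)))) (C.cons (nat_lit 3104) (C.node (nat_lit 2) (nat_lit 8) (nat_lit 11) (C.cons (nat_lit 2372) (C.miq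 (nat_lit 642234378) (nat_lit 251515674515515125980663553)) (C.cons (nat_lit 2340) (C.node (nat_lit 2) (nat_lit 4) (nat_lit 7) (C.cons (nat_lit 404) (C.node (nat_lit 4) (nat_lit 5) (nat_lit 7) (C.cons (nat_lit 176) (C.node (nat_lit 2) (nat_lit 4) (nat_lit 10) (C.cons (nat_lit 1556) (C.miq (nat_lit 1461980073) (nat_lit 488416380387541920880267009)) (C.cons (nat_lit 1076) (C.miq (nat_lit 891816519) (nat_lit 2828893667768428708274373779)) (C.cons (nat_lit 1044) (C.node (nat_lit 5) (nat_lit 7) (nat_lit 10) (C.cons (nat_lit 1696) (C.miq (nat_lit 659864208) (nat_lit 212809259041468939169238785)) (C.cons (nat_lit 1440) (C.miq (nat_lit 628406432) (nat_lit 212809258798273459819581185)) (C.cons (nat_lit 1184) (C.node (nat_lit 7) (nat_lit 8) (nat_lit 10) (C.cons (nat_lit 1472) (C.miq (nat_lit 660912768) (nat_lit 251494885269136110672482049)) (C.cons (nat_lit 1408) (C.node (nat_lit 2) (nat_lit 8) (nat_lit 10) (C.cons (nat_lit 1292) (C.node (nat_lit 2) (nat_lit 5)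 (nat_lit 7) (C.cons (nat_lit 174) (C.miq (nat_lit 2820737879) (nat_lit 317969092777113222613174497)) (C.cons (nat_lit 172) (C.miq (nat_lit 2723906416) (nat_lit 2828957272205885795993715081)) (C.cons (nat_lit 166) (C.miq (nat_lit 2820737879) (nat_lit 317969092777113222612650209)) (C.cons (nat_lit 164) (C.node (nat_lit 2) (nat_lit 3) (nat_lit 7) (C.cons (nat_lit 206) (C.miq (nat_lit 2591099683) (nat_lit 1415661783497040460310775837)) (C.cons (nat_lit 204) (C.miq (nat_lit 3123054647) (nat_lit 1321397851369220164421419401)) (C.cons (nat_lit 142) (C.miq (nat_lit 2591099683) (nat_lit 1415661783497040460306581533)) (C.cons (nat_lit 140) (C.node (nat_lit 1) (nat_lit 2) (nat_lit 7) (C.cons (nat_lit 198) (C.node (nat_lit 1) (nat_lit 2) (nat_lit 11) C.nil) (C.cons (nat_lit 134) (C.node (nat_lit 2) (nat_lit 6) (nat_lit 7) (C.cons (nat_lit 196) (C.node (nat_lit 1) (nat_lit 3) (nat_lit 7) C.nil) C.nil)) C.nil))) C.nil))))) C.nil))))) (C.cons (nat_lit 1284) (C.node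 (nat_lit 3) (nat_lit 5) (nat_lit 11) (C.cons (nat_lit 2600) (C.miq (nat_lit 2510795524) (nat_lit 1431418051151535767144302621)) (C.cons (nat_lit 2090) (C.node (nat_lit 5) (nat_lit 9) (nat_lit 11) (C.cons (nat_lit 2592) (C.node (nat_lit 1) (nat_lit 5) (nat_lit 7) (C.cons (nat_lit 930) (C.miq (nat_lit 611388312) (nat_lit 1415656986847057289473560321)) (C.cons (nat_lit 674) (C.miq (nat_lit 588843863) (nat_lit 632280102393011104185977057)) (C.cons (nat_lit 418) (C.miq (nat_lit 1115753303) (nat_lit 317969092280591363711568097)) (C.cons (nat_lit 166) (C.miq (nat_lit 2820737879) (nat_lit 317969092777113222612650209)) (C.cons (nat_lit 162) (C.node (nat_lit 1) (nat_lit 8) (nat_lit 11) (C.cons (nat_lit 2370) (C.node (nat_lit 1) (nat_lit 10) (nat_lit 11) (C.cons (nat_lit 3074) (C.node (nat_lit 3) (nat_lit 8) (nat_lit 11) C.nil) C.nil)) (C.cons (nat_lit 2306) (C.node (nat_lit 1) (nat_lit 10) (nat_lit 11) (C.cons (nat_lit 3138) (C.node (nat_lit 3) (nat_lit 10) (nat_lit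 11) C.nil) C.nil)) C.nil))) C.nil)))))) C.nil)) (C.cons (nat_lit 2088) (C.node (nat_lit 1) (nat_lit 5) (nat_lit 11) (C.cons (nat_lit 2594) (C.node (nat_lit 2) (nat_lit 9) (nat_lit 11) (C.cons (nat_lit 2628) (C.miq (nat_lit 2460268039) (nat_lit 1262168436413369102292420833)) (C.cons (nat_lit 2564) (C.node (nat_lit 1) (nat_lit 2) (nat_lit 11) (C.cons (nat_lit 2118) (C.node (nat_lit 1) (nat_lit 8) (nat_lit 11) C.nil) C.nil)) C.nil))) (C.cons (nat_lit 2082)
  (C.node (nat_lit 5) (nat_lit 9) (nat_lit 11) C.nil) C.nil))) C.nil)))) C.nil))) C.nil))) C.nil)))) C.nil)))) C.nil)) (C.cons (nat_lit 180) (C.miq (nat_lit 2602895988) (nat_lit 2828896767602816766503552147)) (C.cons (nat_lit 148) (C.node (nat_lit 5) (nat_lit 7) (nat_lit 10) (C.cons (nat_lit 1696) (C.miq (nat_lit 1411879098) (nat_lit 178952307138830512047787777)) (C.cons (nat_lit 1440) (C.miq (nat_lit 1463978507) (nat_lit 178964187089426594213465857)) (C.cons (nat_lit 1184) (C.node (nat_lit 7) (nat_lit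 8) (nat_lit 10) (C.cons (nat_lit 1472) (C.miq (nat_lit 660912768) (nat_lit 251494885269136110672482049)) (C.cons (nat_lit 1408) (C.node (nat_lit 2) (nat_lit 7) (nat_lit 8) (C.cons (nat_lit 452) (C.node (nat_lit 2) (nat_lit 4) (nat_lit 8) (C.cons (nat_lit 1300) (C.miq (nat_lit 1730415528) (nat_lit 178927238495524341199146753)) (C.cons (nat_lit 788) (C.miq (nat_lit 1418070311) (nat_lit 407449930817320420085334661)) (C.cons (nat_lit 276) (C.node (nat_lit 2) (nat_lit 8) (nat_lit 10) (C.cons (nat_lit 1292) (C.miq (nat_lit 1445595011) (nat_lit 1321375567261022752099533193)) (C.cons (nat_lit 1284) (C.node (nat_lit 1) (nat_lit 2) (nat_lit 7) (C.cons (nat_lit 174) (C.miq (nat_lit 2820737879) (nat_lit 317969092777113222613174497)) (C.cons (nat_lit 166) (C.miq (nat_lit 2820737879) (nat_lit 317969092777113222612650209)) (C.cons (nat_lit 142) (C.miq (nat_lit 2591099683) (nat_lit 1415661783497040460306581533)) (C.cons (nat_lit 134) (C.node (nat_lit 1) (nat_lit 7)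 (nat_lit 8) (C.cons (nat_lit 930) (C.miq (nat_lit 1192409472) (nat_lit 162034374476913735511772929)) (C.cons (nat_lit 898) (C.miq (nat_lit 1192409472) (nat_lit 162034374476913598072819457)) (C.cons (nat_lit 418) (C.miq (nat_lit 1115753303) (nat_lit 317969092280591363711568097)) (C.cons (nat_lit 386) (C.node (nat_lit 2) (nat_lit 3) (nat_lit 7) (C.cons (nat_lit 172) (C.node (nat_lit 1) (nat_lit 5) (nat_lit 11) C.nil) (C.cons (nat_lit 140) (C.node (nat_lit 2) (nat_lit 5) (nat_lit 7) (C.cons (nat_lit 164) (C.node (nat_lit 4) (nat_lit 5) (nat_lit 7) C.nil) C.nil)) C.nil))) C.nil))))) C.nil))))) C.nil))) C.nil)))) (C.cons (nat_lit 388) (C.node (nat_lit 4) (nat_lit 5) (nat_lit 7) (C.cons (nat_lit 432) (C.node (nat_lit 2) (nat_lit 4) (nat_lit 8) (C.cons (nat_lit 1300) (C.miq (nat_lit 1730415528) (nat_lit 178927238495524341199146753)) (C.cons (nat_lit 788) (C.node (nat_lit 2) (nat_lit 8) (nat_lit 10) (C.cons (nat_lit 1292) (C.miq (nat_lit 1394870921) (nat_lit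 2510949276262786546269425409)) (C.cons (nat_lit 1284) (C.node (nat_lit 7) (nat_lit 8) (nat_lit 9) (C.cons (nat_lit 962) (C.miq (nat_lit 611388312) (nat_lit 1415656986847057289475657473)) (C.cons (nat_lit 960) (C.miq (nat_lit 1749776672) (nat_lit 2804749831225438589341729413)) (C.cons (nat_lit 898) (C.miq (nat_lit 611388312) (nat_lit 1415656986847057289471463169)) (C.cons (nat_lit 896) (C.node (nat_lit 1) (nat_lit 4) (nat_lit 8) (C.cons (nat_lit 282) (C.node (nat_lit 4) (nat_lit 8) (nat_lit 10) (C.cons (nat_lit 1296) (C.node (nat_lit 3) (nat_lit 8) (nat_lit 11) (C.cons (nat_lit 2376) (C.miq (nat_lit 397623400) (nat_lit 2640299192349795863996399953)) C.nil)) C.nil)) (C.cons (nat_lit 274) (C.node (nat_lit 1) (nat_lit 4) (nat_lit 9) (C.cons (nat_lit 594) (C.node (nat_lit 1) (nat_lit 2) (nat_lit 4) (C.cons (nat_lit 54) (C.miq (nat_lit 2874411041) (nat_lit 2533930120130728499841728775)) C.nil)) (C.cons (nat_lit 530) (C.node (nat_lit 1) (nat_lit 7) (nat_lit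 8) (C.cons (nat_lit 386) (C.node (nat_lit 6) (nat_lit 7) (nat_lit 8) C.nil) C.nil)) C.nil))) C.nil))) C.nil))))) C.nil))) (C.cons (nat_lit 276) (C.node (nat_lit 2) (nat_lit 8) (nat_lit 10) (C.cons (nat_lit 1292) (C.node (nat_lit 4) (nat_lit 8) (nat_lit 10) (C.cons (nat_lit 1296) (C.node (nat_lit 2) (nat_lit 5) (nat_lit 7) (C.cons (nat_lit 174) (C.miq (nat_lit 2820737879) (nat_lit 317969092777113222613174497)) (C.cons (nat_lit 172) (C.miq (nat_lit 2723906416) (nat_lit 2828957272205885795993715081)) (C.cons (nat_lit 166) (C.miq (nat_lit 2820737879) (nat_lit 317969092777113222612650209))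
  (C.cons (nat_lit 164) (C.node (nat_lit 2) (nat_lit 3) (nat_lit 7) (C.cons (nat_lit 206) (C.miq (nat_lit 2591099683) (nat_lit 1415661783497040460310775837)) (C.cons (nat_lit 204) (C.miq (nat_lit 3123054647) (nat_lit 1321397851369220164421419401)) (C.cons (nat_lit 142) (C.miq (nat_lit 2591099683) (nat_lit 1415661783497040460306581533)) (C.cons (nat_lit 140) (C.node (nat_lit 1) (nat_lit 2) (nat_lit 7) (C.cons (nat_lit 134) (C.node (nat_lit 2) (nat_lit 6) (nat_lit 7) C.nil) C.nil)) C.nil))))) C.nil))))) C.nil)) (C.cons (nat_lit 1284) (C.node (nat_lit 4) (nat_lit 8) (nat_lit 10) (C.cons (nat_lit 1304) (C.node (nat_lit 5) (nat_lit 8) (nat_lit 10) (C.cons (nat_lit 1378) (C.miq (nat_lit 1749768752) (nat_lit 2804749831343097345809908777)) (C.cons (nat_lit 1376) (C.miq (nat_lit 1749768752) (nat_lit 2804749831342534395856487465)) (C.cons (nat_lit 1314) (C.miq (nat_lit 1264190081) (nat_lit 3752527345805752849110532359)) (C.cons (nat_lit 1312) (C.node (nat_lit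 1) (nat_lit 4) (nat_lit 8) (C.cons (nat_lit 786) (C.node (nat_lit 1) (nat_lit 7) (nat_lit 8) (C.cons (nat_lit 450) (C.miq (nat_lit 369723220) (nat_lit 697564697185156471530258864)) (C.cons (nat_lit 386) (C.node (nat_lit 6) (nat_lit 7) (nat_lit 8) C.nil) C.nil))) (C.cons (nat_lit 274) (C.node (nat_lit 4) (nat_lit 8) (nat_lit 9) C.nil) C.nil))) C.nil))))) (C.cons (nat_lit 1296) (C.node (nat_lit 2) (nat_lit 4) (nat_lit 10) (C.cons (nat_lit 1556) (C.miq (nat_lit 1461980073) (nat_lit 178931370566196852155485953)) (C.cons (nat_lit 1076) (C.node (nat_lit 3) (nat_lit 5) (nat_lit 11) (C.cons (nat_lit 2600) (C.miq (nat_lit 2510795524) (nat_lit 1431418051151535767144302621)) (C.cons (nat_lit 2090) (C.node (nat_lit 5) (nat_lit 9) (nat_lit 11) (C.cons (nat_lit 2592) (C.node (nat_lit 1) (nat_lit 4) (nat_lit 5) C.nil) C.nil)) (C.cons (nat_lit 2088) (C.node (nat_lit 1) (nat_lit 4) (nat_lit 8) C.nil) C.nil)))) (C.cons (nat_lit 1044) (C.node (nat_lit 4) (nat_lit 5) (nat_lit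 10) (C.cons (nat_lit 1136) (C.node (nat_lit 2) (nat_lit 4) (nat_lit 5) (C.cons (nat_lit 52) (C.node (nat_lit 1) (nat_lit 4) (nat_lit 5) C.nil) C.nil)) (C.cons (nat_lit 1072) (C.node (nat_lit 3) (nat_lit 5) (nat_lit 11) (C.cons (nat_lit 2600) (C.miq (nat_lit 2510795524) (nat_lit 1431418051151535767144302621)) (C.cons (nat_lit 2090) (C.node (nat_lit 5) (nat_lit 9) (nat_lit 11) C.nil) C.nil))) C.nil))) C.nil)))) C.nil))) C.nil))) C.nil)))) (C.cons (nat_lit 176) (C.node (nat_lit 4) (nat_lit 7) (nat_lit 8) (C.cons (nat_lit 400) (C.node (nat_lit 2) (nat_lit 4) (nat_lit 8) (C.cons (nat_lit 1300) (C.miq (nat_lit 1730415528) (nat_lit 178927238495524341199146753)) (C.cons (nat_lit 788) (C.node (nat_lit 2) (nat_lit 8) (nat_lit 10) (C.cons (nat_lit 1292) (C.miq (nat_lit 1394870921) (nat_lit 2510949276262786546269425409)) (C.cons (nat_lit 1284) (C.node (nat_lit 5) (nat_lit 7) (nat_lit 8) (C.cons (nat_lit 930) (C.miq (nat_lit 611388312) (nat_lit 1415656986847057289473560321))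 (C.cons (nat_lit 928) (C.miq (nat_lit 1481341216) (nat_lit 2804749831216431390086988421)) (C.cons (nat_lit 418) (C.miq (nat_lit 1115753303) (nat_lit 317969092280591363711568097)) (C.cons (nat_lit 416) (C.node (nat_lit 7) (nat_lit 8) (nat_lit 9) (C.cons (nat_lit 962) (C.miq (nat_lit 611388312) (nat_lit 1415656986847057289475657473)) (C.cons (nat_lit 960) (C.miq (nat_lit 1749776672) (nat_lit 2804749831225438589341729413)) (C.cons (nat_lit 898) (C.miq (nat_lit 611388312) (nat_lit 1415656986847057289471463169)) C.nil)))) C.nil))))) C.nil))) (C.cons (nat_lit 276) (C.node (nat_lit 2) (nat_lit 8) (nat_lit 10) (C.cons (nat_lit 1292) (C.node (nat_lit 2) (nat_lit 5) (nat_lit 7) (C.cons (nat_lit 174) (C.miq (nat_lit 2820737879) (nat_lit 317969092777113222613174497)) (C.cons (nat_lit 172) (C.miq (nat_lit 2723906416) (nat_lit 2828957272205885795993715081)) (C.cons (nat_lit 166) (C.miq (nat_lit 2820737879) (nat_lit 317969092777113222612650209)) (C.cons (nat_lit 164)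 (C.node (nat_lit 2) (nat_lit 3) (nat_lit 7) (C.cons (nat_lit 206)
  (C.miq (nat_lit 2591099683) (nat_lit 1415661783497040460310775837)) (C.cons (nat_lit 204) (C.miq (nat_lit 3123054647) (nat_lit 1321397851369220164421419401)) (C.cons (nat_lit 142) (C.miq (nat_lit 2591099683) (nat_lit 1415661783497040460306581533)) C.nil)))) C.nil))))) (C.cons (nat_lit 1284) (C.node (nat_lit 2) (nat_lit 4) (nat_lit 10) (C.cons (nat_lit 1556) (C.miq (nat_lit 1461980073) (nat_lit 178931370566196852155485953)) (C.cons (nat_lit 1076) (C.node (nat_lit 4) (nat_lit 8) (nat_lit 10) (C.cons (nat_lit 1304) (C.node (nat_lit 2) (nat_lit 5) (nat_lit 7) C.nil) (C.cons (nat_lit 1296) (C.node (nat_lit 2) (nat_lit 5) (nat_lit 7) C.nil) C.nil))) (C.cons (nat_lit 1044) (C.node (nat_lit 2) (nat_lit 5) (nat_lit 7) C.nil) C.nil)))) C.nil))) C.nil)))) C.nil)) C.nil))) C.nil))) C.nil))) C.nil)))) C.nil)))) (C.cons (nat_lit 2308) (C.node (nat_lit 3) (nat_lit 9) (nat_lit 11) (C.cons (nat_lit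 2632) (C.node (nat_lit 3) (nat_lit 10) (nat_lit 11) (C.cons (nat_lit 3082) (C.miq (nat_lit 2443641778) (nat_lit 1415664033065882956360583197)) (C.cons (nat_lit 3080) (C.node (nat_lit 1) (nat_lit 10) (nat_lit 11) (C.cons (nat_lit 3138) (C.node (nat_lit 2) (nat_lit 6) (nat_lit 11) C.nil) C.nil)) C.nil))) (C.cons (nat_lit 2600) (C.miq (nat_lit 997873984) (nat_lit 3873417972559556929547076145)) (C.cons (nat_lit 2568) (C.node (nat_lit 5) (nat_lit 7) (nat_lit 10) (C.cons (nat_lit 1696) (C.miq (nat_lit 1397203129) (nat_lit 183788010559152416976015105)) (C.cons (nat_lit 1440) (C.node (nat_lit 4) (nat_lit 5) (nat_lit 7) (C.cons (nat_lit 180) (C.miq (nat_lit 2591361828) (nat_lit 1740863529949650509267994653)) (C.cons (nat_lit 176) (C.node (nat_lit 2) (nat_lit 8) (nat_lit 10) (C.cons (nat_lit 1300) (C.miq (nat_lit 610773003) (nat_lit 251515674213773951019060993)) (C.cons (nat_lit 1292) (C.miq (nat_lit 1512798256) (nat_lit 3873440255899880933266620809)) (C.cons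 (nat_lit 1284) (C.node (nat_lit 4) (nat_lit 8) (nat_lit 10) (C.cons (nat_lit 1304) (C.miq (nat_lit 1514895408) (nat_lit 3733204860824584000540311945)) (C.cons (nat_lit 1296) (C.node (nat_lit 2) (nat_lit 4) (nat_lit 7) (C.cons (nat_lit 404) (C.node (nat_lit 2) (nat_lit 4) (nat_lit 10) (C.cons (nat_lit 1556) (C.miq (nat_lit 1461980073) (nat_lit 488416380387541920880267009)) (C.cons (nat_lit 1076) (C.node (nat_lit 1) (nat_lit 10) (nat_lit 11) (C.cons (nat_lit 3146) (C.miq (nat_lit 2443641778) (nat_lit 1415664033065883231238490141)) (C.cons (nat_lit 3138) (C.node (nat_lit 3) (nat_lit 10) (nat_lit 11) C.nil) (C.cons (nat_lit 3082) (C.miq (nat_lit 2443641778) (nat_lit 1415664033065882956360583197)) (C.cons (nat_lit 3074) (C.node (nat_lit 3) (nat_lit 10) (nat_lit 11) C.nil) C.nil))))) (C.cons (nat_lit 1044) (C.node (nat_lit 2) (nat_lit 3) (nat_lit 8) (C.cons (nat_lit 876) (C.miq (nat_lit 1380614919) (nat_lit 1262145119235720000469926281)) (C.cons (nat_lit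 844) (C.miq (nat_lit 1478731584) (nat_lit 1020353037942511225890735251)) (C.cons (nat_lit 812) (C.miq (nat_lit 1380614919) (nat_lit 1262145119217705601960444297)) (C.cons (nat_lit 780) (C.miq (nat_lit 1478731584) (nat_lit 942981785487174958709539987)) (C.cons (nat_lit 364) (C.miq (nat_lit 1380614919) (nat_lit 1262145119091604812394070409)) (C.cons (nat_lit 332) (C.miq (nat_lit 1478731584) (nat_lit 401383018299821088441173139)) (C.cons (nat_lit 300) (C.miq (nat_lit 1380614919) (nat_lit 1262145119073590413884588425)) (C.cons (nat_lit 268) (C.miq (nat_lit 1478731584) (nat_lit 324011765844484821259977875)) C.nil))))))))) C.nil)))) (C.cons (nat_lit 148) (C.node (nat_lit 4) (nat_lit 7) (nat_lit 8) (C.cons (nat_lit 400) (C.node (nat_lit 2) (nat_lit 4) (nat_lit 10) (C.cons (nat_lit 1556) (C.miq (nat_lit 1461980073) (nat_lit 178931370566196852155485953)) (C.cons (nat_lit 1076) (C.node (nat_lit 2) (nat_lit 4) (nat_lit 8) C.nil) C.nil))) C.nil)) C.nil))) C.nil)))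 C.nil)))) C.nil))) (C.cons (nat_lit 1184) (C.node (nat_lit 7) (nat_lit 8) (nat_lit 10) (C.cons (nat_lit 1472) (C.miq (nat_lit 660912768) (nat_lit 251494885269136110672482049)) (C.cons (nat_lit 1408)
  (C.node (nat_lit 1) (nat_lit 10) (nat_lit 11) (C.cons (nat_lit 3146) (C.miq (nat_lit 2443641778) (nat_lit 1415664033065883231238490141)) (C.cons (nat_lit 3138) (C.node (nat_lit 3) (nat_lit 10) (nat_lit 11) C.nil) (C.cons (nat_lit 3082) (C.miq (nat_lit 2443641778) (nat_lit 1415664033065882956360583197)) (C.cons (nat_lit 3074) (C.node (nat_lit 3) (nat_lit 10) (nat_lit 11) C.nil) C.nil))))) C.nil))) C.nil)))) C.nil)))) C.nil)))) C.nil))) C.nil)) C.nil))) (C.cons (nat_lit 3200) (C.node (nat_lit 3) (nat_lit 9) (nat_lit 11) (C.cons (nat_lit 2632) (C.node (nat_lit 3) (nat_lit 10) (nat_lit 11) (C.cons (nat_lit 3082) (C.node (nat_lit 6) (nat_lit 10) (nat_lit 11) (C.cons (nat_lit 3136) (C.node (nat_lit 2) (nat_lit 10) (nat_lit 11) (C.cons (nat_lit 3108) (C.node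 (nat_lit 2) (nat_lit 9) (nat_lit 11) (C.cons (nat_lit 2566) (C.miq (nat_lit 621394481) (nat_lit 678254720023928907510778890)) (C.cons (nat_lit 2564) (C.node (nat_lit 1) (nat_lit 2) (nat_lit 10) (C.cons (nat_lit 1542) (C.node (nat_lit 3) (nat_lit 9) (nat_lit 10) (C.cons (nat_lit 1672) (C.miq (nat_lit 2208368530) (nat_lit 3725914227656605349190173317)) (C.cons (nat_lit 1560) (C.miq (nat_lit 1464011674) (nat_lit 183776371003666370984939265)) (C.cons (nat_lit 1544) (C.node (nat_lit 7) (nat_lit 9) (nat_lit 10) (C.cons (nat_lit 1728) (C.miq (nat_lit 611715994) (nat_lit 251476733355750573211651841)) (C.cons (nat_lit 1696) (C.miq (nat_lit 1397203129) (nat_lit 183788010559152416976015105)) (C.cons (nat_lit 1664) (C.node (nat_lit 1) (nat_lit 9) (nat_lit 11) (C.cons (nat_lit 2594) (C.node (nat_lit 1) (nat_lit 2) (nat_lit 5) (C.cons (nat_lit 174) (C.miq (nat_lit 1695681434) (nat_lit 210373255544021804248338177)) (C.cons (nat_lit 166) (C.miq (nat_lit 1695681434)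 (nat_lit 200701848987104770850688769)) (C.cons (nat_lit 118) (C.miq (nat_lit 2337540646) (nat_lit 2533914735546174324614759493)) (C.cons (nat_lit 110) (C.miq (nat_lit 2769924656) (nat_lit 3136024430899159897672976413)) (C.cons (nat_lit 102) (C.miq (nat_lit 2422319954) (nat_lit 81026475874696962846886948)) (C.cons (nat_lit 54) (C.miq (nat_lit 1695681434) (nat_lit 65302157190266303283597057)) (C.cons (nat_lit 46) (C.miq (nat_lit 1695681434) (nat_lit 55630750633349269885947649)) (C.cons (nat_lit 38) (C.miq (nat_lit 1695681434) (nat_lit 45959344076432236488298241)) C.nil))))))))) (C.cons (nat_lit 2562) (C.node (nat_lit 5) (nat_lit 9) (nat_lit 11) (C.cons (nat_lit 2592) (C.node (nat_lit 1) (nat_lit 5) (nat_lit 11) (C.cons (nat_lit 2338) (C.node (nat_lit 3) (nat_lit 5) (nat_lit 11) C.nil) C.nil)) C.nil)) C.nil))) C.nil)))) C.nil)))) (C.cons (nat_lit 1030) (C.node (nat_lit 1) (nat_lit 9) (nat_lit 10) (C.cons (nat_lit 1634) (C.miq (nat_lit 2444515888) (nat_lit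 2497651092407192575171953705)) (C.cons (nat_lit 1602) (C.miq (nat_lit 1265238929) (nat_lit 3791212972033422236850455051)) (C.cons (nat_lit 1570) (C.miq (nat_lit 2444515888) (nat_lit 2497651092389178176662471721)) (C.cons (nat_lit 1538) (C.node (nat_lit 1) (nat_lit 9) (nat_lit 11) (C.cons (nat_lit 2594) (C.node (nat_lit 1) (nat_lit 7) (nat_lit 9) (C.cons (nat_lit 962) (C.miq (nat_lit 611388312) (nat_lit 1415656986847057289475657473)) (C.cons (nat_lit 898) (C.miq (nat_lit 611388312) (nat_lit 1415656986847057289471463169)) (C.cons (nat_lit 706) (C.miq (nat_lit 1133579111) (nat_lit 632289805380396203284498657)) (C.cons (nat_lit 642) (C.node (nat_lit 1) (nat_lit 3) (nat_lit 7) (C.cons (nat_lit 206) (C.miq (nat_lit 2468001392) (nat_lit 3725980230737117258374645985)) (C.cons (nat_lit 202) (C.miq (nat_lit 2468001392) (nat_lit 3725980230737117241194776801)) (C.cons (nat_lit 174) (C.miq (nat_lit 2299726679) (nat_lit 632275454310028552927316193)) (C.cons (nat_lit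 170) (C.miq (nat_lit 2299726679) (nat_lit 632275454310028552927054049)) (C.cons (nat_lit 142) (C.miq (nat_lit 2709107488) (nat_lit 776201231004085536698992669)) (C.cons (nat_lit 138) (C.node (nat_lit 3) (nat_lit 5) (nat_lit 11) (C.cons (nat_lit 2344) (C.node (nat_lit 2) (nat_lit 8) (nat_lit 11) (C.cons (nat_lit 2436)
  (C.miq (nat_lit 1923124051) (nat_lit 1321363171094897047902947624)) (C.cons (nat_lit 2372) (C.miq (nat_lit 2198255010) (nat_lit 88295341168592688431565860)) C.nil))) (C.cons (nat_lit 2088) (C.node (nat_lit 3) (nat_lit 8) (nat_lit 11) (C.cons (nat_lit 2312) (C.node (nat_lit 5) (nat_lit 8) (nat_lit 11) C.nil) C.nil)) C.nil))) C.nil))))))) C.nil))))) (C.cons (nat_lit 2562) (C.node (nat_lit 5) (nat_lit 9) (nat_lit 11) (C.cons (nat_lit 2592) (C.node (nat_lit 1) (nat_lit 5) (nat_lit 11) (C.cons (nat_lit 2338) (C.node (nat_lit 3) (nat_lit 5) (nat_lit 11) C.nil) C.nil)) C.nil)) C.nil))) C.nil))))) C.nil))) C.nil))) (C.cons (nat_lit 3076) (C.node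 (nat_lit 5) (nat_lit 10) (nat_lit 11) (C.cons (nat_lit 3104) (C.node (nat_lit 3) (nat_lit 5) (nat_lit 11) (C.cons (nat_lit 2344) (C.node (nat_lit 1) (nat_lit 3) (nat_lit 7) (C.cons (nat_lit 206) (C.miq (nat_lit 2468001392) (nat_lit 3725980230737117258374645985)) (C.cons (nat_lit 202) (C.miq (nat_lit 2468001392) (nat_lit 3725980230737117241194776801)) (C.cons (nat_lit 174) (C.miq (nat_lit 2199565680) (nat_lit 3725980230656052327643023585)) (C.cons (nat_lit 170) (C.miq (nat_lit 2199565680) (nat_lit 3725980230656052310463154401)) (C.cons (nat_lit 142) (C.miq (nat_lit 2585201458) (nat_lit 1415664033999816928885868573)) (C.cons (nat_lit 138) (C.node (nat_lit 1) (nat_lit 7) (nat_lit 11) (C.cons (nat_lit 2434) (C.miq (nat_lit 2208412935) (nat_lit 3725954276087144445119760609)) (C.cons (nat_lit 2182) (C.node (nat_lit 7) (nat_lit 8) (nat_lit 11) (C.cons (nat_lit 2432) (C.node (nat_lit 1) (nat_lit 5) (nat_lit 11) C.nil) C.nil)) (C.cons (nat_lit 2178) (C.node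 (nat_lit 1) (nat_lit 8) (nat_lit 11) (C.cons (nat_lit 2370) (C.node (nat_lit 2) (nat_lit 6) (nat_lit 11) C.nil) C.nil)) C.nil)))) C.nil))))))) (C.cons (nat_lit 2088) (C.node (nat_lit 3) (nat_lit 8) (nat_lit 11) C.nil) C.nil))) C.nil)) C.nil))) C.nil)) (C.cons (nat_lit 3080) (C.node (nat_lit 6) (nat_lit 10) (nat_lit 11) (C.cons (nat_lit 3138) (C.node (nat_lit 2) (nat_lit 6) (nat_lit 11) (C.cons (nat_lit 2372) (C.node (nat_lit 2) (nat_lit 7) (nat_lit 11) (C.cons (nat_lit 2182) (C.miq (nat_lit 1093142454) (nat_lit 317953707441016882568890593)) (C.cons (nat_lit 2180) (C.node (nat_lit 1) (nat_lit 7) (nat_lit 11) (C.cons (nat_lit 2434) (C.miq (nat_lit 2709653430) (nat_lit 317967653179537689321670881)) (C.cons (nat_lit 2178) (C.node (nat_lit 7) (nat_lit 8) (nat_lit 11) (C.cons (nat_lit 2432) (C.node (nat_lit 2) (nat_lit 10) (nat_lit 11) (C.cons (nat_lit 3108) (C.node (nat_lit 1) (nat_lit 2) (nat_lit 11) C.nil) C.nil)) C.nil)) C.nil))) C.nil))) (C.cons (nat_lit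 2116) (C.node (nat_lit 6) (nat_lit 8) (nat_lit 11) (C.cons (nat_lit 2368) (C.node (nat_lit 2) (nat_lit 10) (nat_lit 11) (C.cons (nat_lit 3108) (C.node (nat_lit 2) (nat_lit 8) (nat_lit 11) (C.cons (nat_lit 2436) (C.node (nat_lit 1) (nat_lit 7) (nat_lit 11) (C.cons (nat_lit 2178) (C.node (nat_lit 1) (nat_lit 2) (nat_lit 11) C.nil) C.nil)) (C.cons (nat_lit 2308) (C.node (nat_lit 2) (nat_lit 7) (nat_lit 11) (C.cons (nat_lit 2182) (C.node (nat_lit 2) (nat_lit 9) (nat_lit 11) C.nil) C.nil)) C.nil))) (C.cons (nat_lit 3076) (C.node (nat_lit 5) (nat_lit 10) (nat_lit 11) C.nil) C.nil))) C.nil)) C.nil))) (C.cons (nat_lit 3136) (C.node (nat_lit 3) (nat_lit 4) (nat_lit 9) (C.cons (nat_lit 1560) (C.miq (nat_lit 1464011674) (nat_lit 183776371003666370984939265)) (C.cons (nat_lit 792) (C.node (nat_lit 6) (nat_lit 7) (nat_lit 9) (C.cons (nat_lit 1728) (C.miq (nat_lit 611715994) (nat_lit 251476733355750573211651841)) (C.cons (nat_lit 962) (C.miq (nat_lit 611388312) (nat_lit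 1415656986847057289475657473)) (C.cons (nat_lit 960) (C.miq (nat_lit 1766553648) (nat_lit 3268977345957456209608769929)) (C.cons (nat_lit 706) (C.miq (nat_lit 1133579111) (nat_lit 632289805380396203284498657)) (C.cons (nat_lit 704) (C.node (nat_lit 7) (nat_lit 8) (nat_lit 9) (C.cons (nat_lit 930) (C.miq (nat_lit 611388312) (nat_lit 1415656986847057289473560321)) (C.cons (nat_lit 928)
  (C.miq (nat_lit 1498118192) (nat_lit 3268977345948449010354028937)) (C.cons (nat_lit 898) (C.miq (nat_lit 611388312) (nat_lit 1415656986847057289471463169)) (C.cons (nat_lit 896) (C.node (nat_lit 1) (nat_lit 4) (nat_lit 8) (C.cons (nat_lit 306) (C.node (nat_lit 1) (nat_lit 3) (nat_lit 4) (C.cons (nat_lit 90) (C.miq (nat_lit 2875459889) (nat_lit 2572615746358397887565136395)) (C.cons (nat_lit 26) (C.node (nat_lit 3) (nat_lit 4) (nat_lit 5) (C.cons (nat_lit 120) (C.miq (nat_lit 2204865616) (nat_lit 3181963611392619803314291249)) (C.cons (nat_lit 56) (C.node (nat_lit 5)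 (nat_lit 8) (nat_lit 9) (C.cons (nat_lit 868) (C.miq (nat_lit 2035548801) (nat_lit 678228986122672368925147399)) (C.cons (nat_lit 864) (C.miq (nat_lit 2209780741) (nat_lit 3181908695435520775230128689)) (C.cons (nat_lit 804) (C.miq (nat_lit 2035548801) (nat_lit 678228986122672094047240455)) (C.cons (nat_lit 800) (C.node (nat_lit 1) (nat_lit 7) (nat_lit 9) (C.cons (nat_lit 674) (C.node (nat_lit 3) (nat_lit 5) (nat_lit 9) (C.cons (nat_lit 556) (C.miq (nat_lit 355760416) (nat_lit 67721447225446070109405829)) (C.cons (nat_lit 552) (C.node (nat_lit 2) (nat_lit 3) (nat_lit 9) (C.cons (nat_lit 1548) (C.miq (nat_lit 1647577752) (nat_lit 2510945144199996434189651713)) (C.cons (nat_lit 524) (C.node (nat_lit 4) (nat_lit 5) (nat_lit 7) (C.cons (nat_lit 180) (C.miq (nat_lit 630408976) (nat_lit 667365366365384789826667667)) (C.cons (nat_lit 176) (C.node (nat_lit 5) (nat_lit 9) (nat_lit 11) (C.cons (nat_lit 2596) (C.miq (nat_lit 364149024) (nat_lit 2533930119239298348243288709))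 (C.cons (nat_lit 2592) (C.node (nat_lit 1) (nat_lit 3) (nat_lit 7) (C.cons (nat_lit 206) (C.miq (nat_lit 2838563687) (nat_lit 632289805876918062169327841)) (C.cons (nat_lit 202) (C.miq (nat_lit 2838563687) (nat_lit 632289805876918062169065697)) (C.cons (nat_lit 142) (C.miq (nat_lit 1362401056) (nat_lit 31442420123120453925274245)) (C.cons (nat_lit 138) (C.node (nat_lit 1) (nat_lit 3) (nat_lit 11) (C.cons (nat_lit 2314) (C.node (nat_lit 3) (nat_lit 5) (nat_lit 11) C.nil) (C.cons (nat_lit 2090) (C.miq (nat_lit 588843863) (nat_lit 632280102393011104185977057)) C.nil))) C.nil))))) C.nil))) C.nil))) C.nil))) C.nil))) (C.cons (nat_lit 642) (C.node (nat_lit 5) (nat_lit 7) (nat_lit 9) (C.cons (nat_lit 1696) (C.miq (nat_lit 1397203129) (nat_lit 183788010559152416976015105)) (C.cons (nat_lit 680) (C.miq (nat_lit 1687488567) (nat_lit 678249314347946977631142281)) (C.cons (nat_lit 672) (C.node (nat_lit 1) (nat_lit 8) (nat_lit 9) (C.cons (nat_lit 834) (C.node (nat_lit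 2) (nat_lit 8) (nat_lit 9) (C.cons (nat_lit 772) (C.node (nat_lit 1) (nat_lit 4) (nat_lit 6) (C.cons (nat_lit 86) (C.miq (nat_lit 907196800) (nat_lit 104005935115144924485848833)) (C.cons (nat_lit 82) (C.node (nat_lit 1) (nat_lit 6) (nat_lit 11) (C.cons (nat_lit 2118) (C.miq (nat_lit 907196800) (nat_lit 2560543200572071407488798465)) (C.cons (nat_lit 2114) (C.node (nat_lit 2) (nat_lit 6) (nat_lit 11) (C.cons (nat_lit 2372) (C.node (nat_lit 1) (nat_lit 2) (nat_lit 4) C.nil) (C.cons (nat_lit 2116) (C.miq (nat_lit 2192969785) (nat_lit 2558102418963149647138783755)) C.nil))) C.nil))) C.nil))) C.nil)) (C.cons (nat_lit 770) (C.node (nat_lit 2) (nat_lit 8) (nat_lit 9) (C.cons (nat_lit 836) (C.node (nat_lit 4) (nat_lit 9) (nat_lit 10) (C.cons (nat_lit 1616) (C.miq (nat_lit 1233233440) (nat_lit 930894482695441931383014469)) (C.cons (nat_lit 1556) (C.miq (nat_lit 645177529) (nat_lit 251485273921283472583823105)) (C.cons (nat_lit 1552) (C.node (nat_lit 2) (nat_lit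 4) (nat_lit 9) (C.cons (nat_lit 532) (C.node (nat_lit 1) (nat_lit 4) (nat_lit 9) C.nil) C.nil)) C.nil)))) (C.cons (nat_lit 772) (C.node (nat_lit 6) (nat_lit 8) (nat_lit 9) (C.cons (nat_lit 832) (C.node (nat_lit 3) (nat_lit 4) (nat_lit 6) (C.cons (nat_lit 1112) (C.node (nat_lit 4) (nat_lit 9) (nat_lit 10) (C.cons (nat_lit 1556) (C.miq (nat_lit 645177529) (nat_lit 251485273921283472583823105)) C.nil)) (C.cons (nat_lit 88)
  (C.node (nat_lit 4) (nat_lit 9) (nat_lit 10) C.nil) C.nil))) C.nil)) C.nil))) C.nil))) C.nil)))) C.nil))) C.nil))))) C.nil))) C.nil))) (C.cons (nat_lit 274) (C.node (nat_lit 1) (nat_lit 7) (nat_lit 9) (C.cons (nat_lit 674) (C.node (nat_lit 5) (nat_lit 9) (nat_lit 11) (C.cons (nat_lit 2596) (C.miq (nat_lit 364149024) (nat_lit 2533930119239298348243288709)) (C.cons (nat_lit 2592) (C.node (nat_lit 1) (nat_lit 8) (nat_lit 9) (C.cons (nat_lit 834) (C.node (nat_lit 1) (nat_lit 4) (nat_lit 9) (C.cons (nat_lit 534) (C.miq (nat_lit 727269489)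 (nat_lit 3133545575587087470871839891)) (C.cons (nat_lit 530) (C.node (nat_lit 1) (nat_lit 6) (nat_lit 11) (C.cons (nat_lit 2118) (C.miq (nat_lit 907196800) (nat_lit 2560543200572071407488798465)) (C.cons (nat_lit 2114) (C.node (nat_lit 1) (nat_lit 9) (nat_lit 11) (C.cons (nat_lit 2566) (C.miq (nat_lit 1773437216) (nat_lit 3268941633025471280123281671)) (C.cons (nat_lit 2562) (C.node (nat_lit 2) (nat_lit 9) (nat_lit 11) C.nil) C.nil))) C.nil))) C.nil))) (C.cons (nat_lit 770) (C.node (nat_lit 1) (nat_lit 9) (nat_lit 11) (C.cons (nat_lit 2566) (C.node (nat_lit 1) (nat_lit 9) (nat_lit 10) (C.cons (nat_lit 1602) (C.miq (nat_lit 1265238929) (nat_lit 3791212972033422236850455051)) (C.cons (nat_lit 1538) (C.node (nat_lit 2) (nat_lit 6) (nat_lit 11) (C.cons (nat_lit 2372) (C.miq (nat_lit 1746514435) (nat_lit 930921433601326242431961117)) (C.cons (nat_lit 2116) (C.node (nat_lit 2) (nat_lit 7) (nat_lit 11) (C.cons (nat_lit 2436) (C.miq (nat_lit 2073264656) (nat_lit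 3181900007481809019867955463)) C.nil)) C.nil))) C.nil))) (C.cons (nat_lit 2562) (C.node (nat_lit 2) (nat_lit 9) (nat_lit 11) (C.cons (nat_lit 2564) (C.node (nat_lit 1) (nat_lit 6) (nat_lit 11) C.nil) C.nil)) C.nil))) C.nil))) C.nil))) (C.cons (nat_lit 642) (C.node (nat_lit 5) (nat_lit 7) (nat_lit 9) (C.cons (nat_lit 1696) (C.miq (nat_lit 1397203129) (nat_lit 183788010559152416976015105)) (C.cons (nat_lit 680) (C.miq (nat_lit 1687488567) (nat_lit 678249314347946977631142281)) (C.cons (nat_lit 672) (C.node (nat_lit 3) (nat_lit 4) (nat_lit 10) (C.cons (nat_lit 1112) (C.node (nat_lit 4) (nat_lit 9) (nat_lit 10) (C.cons (nat_lit 1556) (C.miq (nat_lit 645177529) (nat_lit 251485273921283472583823105)) (C.cons (nat_lit 1552) (C.node (nat_lit 1) (nat_lit 3) (nat_lit 4) (C.cons (nat_lit 58) (C.node (nat_lit 1) (nat_lit 3) (nat_lit 11) (C.cons (nat_lit 2314) (C.miq (nat_lit 2958133571) (nat_lit 42355090533446380043240216)) (C.cons (nat_lit 2058) (C.node (nat_lit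 3) (nat_lit 5) (nat_lit 9) (C.cons (nat_lit 556) (C.miq (nat_lit 362234656) (nat_lit 812419751934669055980800029)) (C.cons (nat_lit 552) (C.node (nat_lit 2) (nat_lit 3) (nat_lit 9) (C.cons (nat_lit 1548) (C.miq (nat_lit 591833472) (nat_lit 1344345674138466872397467393)) (C.cons (nat_lit 524) (C.node (nat_lit 1) (nat_lit 3) (nat_lit 10) (C.cons (nat_lit 1290) (C.miq (nat_lit 2203689280) (nat_lit 667397906734365391927182483)) (C.cons (nat_lit 1038) (C.miq (nat_lit 2217805474) (nat_lit 70122549126201720968184901)) (C.cons (nat_lit 1034) (C.node (nat_lit 1) (nat_lit 3) (nat_lit 7) (C.cons (nat_lit 206) (C.miq (nat_lit 2468001392) (nat_lit 1250100152166356708576397537)) (C.cons (nat_lit 202) (C.miq (nat_lit 2468001392) (nat_lit 1250100152166356691396528353)) (C.cons (nat_lit 142) (C.miq (nat_lit 1366901536) (nat_lit 776140724832343439796668445)) (C.cons (nat_lit 138) (C.node (nat_lit 3) (nat_lit 5) (nat_lit 11) (C.cons (nat_lit 2344) (C.node (nat_lit 1)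 (nat_lit 2) (nat_lit 3) C.nil) C.nil)) C.nil))))) C.nil)))) C.nil))) C.nil))) C.nil))) (C.cons (nat_lit 26) (C.node (nat_lit 3) (nat_lit 4) (nat_lit 5) (C.cons (nat_lit 56) (C.node (nat_lit 3) (nat_lit 5) (nat_lit 9) (C.cons (nat_lit 556) (C.node (nat_lit 2) (nat_lit 4) (nat_lit 7) (C.cons (nat_lit 436) (C.miq (nat_lit 391709731) (nat_lit 812407798757790425868404765)) (C.cons (nat_lit 148) (C.node (nat_lit 4) (nat_lit 5) (nat_lit 7) C.nil) C.nil))) (C.cons (nat_lit 552) (C.node (nat_lit 2) (nat_lit 3) (nat_lit 9) (C.cons (nat_lit 1548)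
  (C.miq (nat_lit 591833472) (nat_lit 1344345674138466872397467393)) (C.cons (nat_lit 524) (C.node (nat_lit 3) (nat_lit 7) (nat_lit 9) (C.cons (nat_lit 1672) (C.node (nat_lit 1) (nat_lit 3) (nat_lit 10) (C.cons (nat_lit 1290) (C.miq (nat_lit 691537825) (nat_lit 957474100810036233227601043)) (C.cons (nat_lit 1038) (C.miq (nat_lit 2217805474) (nat_lit 31436922898533587377587269)) (C.cons (nat_lit 1034) (C.node (nat_lit 1) (nat_lit 4) (nat_lit 9) C.nil) C.nil)))) (C.cons (nat_lit 648) (C.node (nat_lit 3) (nat_lit 9) (nat_lit 10) C.nil) C.nil))) C.nil))) C.nil))) C.nil)) C.nil))) C.nil))) (C.cons (nat_lit 1048) (C.node (nat_lit 3) (nat_lit 4) (nat_lit 6) (C.cons (nat_lit 122) (C.miq (nat_lit 2204865616) (nat_lit 3181963611392619811904225841)) (C.cons (nat_lit 120) (C.miq (nat_lit 2204865616) (nat_lit 3181963611392619803314291249)) (C.cons (nat_lit 90) (C.miq (nat_lit 2875459889) (nat_lit 2572615746358397887565136395)) (C.cons (nat_lit 88) (C.node (nat_lit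 1) (nat_lit 3) (nat_lit 4) (C.cons (nat_lit 58) (C.node (nat_lit 1) (nat_lit 3) (nat_lit 11) (C.cons (nat_lit 2314) (C.miq (nat_lit 2958133571) (nat_lit 42355090533446380043240216)) (C.cons (nat_lit 2058) (C.node (nat_lit 3) (nat_lit 5) (nat_lit 9) (C.cons (nat_lit 556) (C.miq (nat_lit 362234656) (nat_lit 812419751934669055980800029)) (C.cons (nat_lit 552) (C.node (nat_lit 2) (nat_lit 3) (nat_lit 9) (C.cons (nat_lit 1548) (C.miq (nat_lit 591833472) (nat_lit 106405634853086597498343169)) (C.cons (nat_lit 524) (C.node (nat_lit 3) (nat_lit 5) (nat_lit 11) C.nil) C.nil))) C.nil))) C.nil))) (C.cons (nat_lit 26) (C.node (nat_lit 3) (nat_lit 4) (nat_lit 5) (C.cons (nat_lit 56) (C.node (nat_lit 4) (nat_lit 9) (nat_lit 10) (C.cons (nat_lit 1616) (C.node (nat_lit 1) (nat_lit 4) (nat_lit 9) C.nil) (C.cons (nat_lit 1556) (C.miq (nat_lit 645177529) (nat_lit 251485273921283472583823105)) C.nil))) C.nil)) C.nil))) C.nil))))) C.nil))) C.nil)))) C.nil))) C.nil))) C.nil)))))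 C.nil)))))) (C.cons (nat_lit 536) (C.node (nat_lit 4) (nat_lit 9) (nat_lit 10) (C.cons (nat_lit 1616) (C.node (nat_lit 7) (nat_lit 9) (nat_lit 10) (C.cons (nat_lit 1696) (C.miq (nat_lit 1397203129) (nat_lit 183788010559152416976015105)) (C.cons (nat_lit 1672) (C.miq (nat_lit 2207647652) (nat_lit 3181898973889083675084063891)) (C.cons (nat_lit 1664) (C.node (nat_lit 3) (nat_lit 4) (nat_lit 10) (C.cons (nat_lit 1304) (C.node (nat_lit 3) (nat_lit 4) (nat_lit 6) (C.cons (nat_lit 122) (C.miq (nat_lit 446054579) (nat_lit 1953626375329641433760532509)) (C.cons (nat_lit 120) (C.miq (nat_lit 2221646672) (nat_lit 2572664998450961887338234921)) (C.cons (nat_lit 90) (C.miq (nat_lit 446054579) (nat_lit 1953625785033831075054880797)) (C.cons (nat_lit 88) (C.node (nat_lit 1) (nat_lit 3) (nat_lit 4) (C.cons (nat_lit 58) (C.node (nat_lit 1) (nat_lit 4) (nat_lit 8) (C.cons (nat_lit 786) (C.miq (nat_lit 329794825) (nat_lit 1576453767934648502565536305)) (C.cons (nat_lit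 274) (C.node (nat_lit 1) (nat_lit 4) (nat_lit 6) (C.cons (nat_lit 86) (C.miq (nat_lit 2484643360) (nat_lit 331316528973259444006093893)) C.nil)) C.nil))) (C.cons (nat_lit 26) (C.node (nat_lit 3) (nat_lit 4) (nat_lit 5) (C.cons (nat_lit 56) (C.node (nat_lit 2) (nat_lit 4) (nat_lit 10) (C.cons (nat_lit 1044) (C.node (nat_lit 4) (nat_lit 5) (nat_lit 10) C.nil) C.nil)) C.nil)) C.nil))) C.nil))))) (C.cons (nat_lit 1048) (C.node (nat_lit 3) (nat_lit 7) (nat_lit 9) (C.cons (nat_lit 680) (C.node (nat_lit 3) (nat_lit 9) (nat_lit 10) (C.cons (nat_lit 1548) (C.miq (nat_lit 1698301842) (nat_lit 1287526160820648178344526469)) (C.cons (nat_lit 1544) (C.node (nat_lit 1) (nat_lit 7) (nat_lit 9) (C.cons (nat_lit 962) (C.miq (nat_lit 611388312) (nat_lit 1415656986847057289475657473)) (C.cons (nat_lit 898) (C.miq (nat_lit 611388312) (nat_lit 1415656986847057289471463169)) (C.cons (nat_lit 706) (C.miq (nat_lit 1133579111) (nat_lit 632289805380396203284498657)) (C.cons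 (nat_lit 642) (C.node (nat_lit 2) (nat_lit 3) (nat_lit 9) (C.cons (nat_lit 780) (C.node (nat_lit 2) (nat_lit 4) (nat_lit 9)
  (C.cons (nat_lit 534) (C.miq (nat_lit 2266574914) (nat_lit 776144764763594118900615197)) (C.cons (nat_lit 532) (C.node (nat_lit 1) (nat_lit 4) (nat_lit 9) (C.cons (nat_lit 786) (C.miq (nat_lit 1770169360) (nat_lit 942982302045550259036685459)) (C.cons (nat_lit 530) (C.node (nat_lit 4) (nat_lit 8) (nat_lit 9) (C.cons (nat_lit 784) (C.node (nat_lit 6) (nat_lit 7) (nat_lit 9) (C.cons (nat_lit 704) (C.node (nat_lit 7) (nat_lit 8) (nat_lit 9) C.nil) C.nil)) C.nil)) C.nil))) C.nil))) (C.cons (nat_lit 524) (C.node (nat_lit 3) (nat_lit 8) (nat_lit 9) (C.cons (nat_lit 776) (C.node (nat_lit 6) (nat_lit 7) (nat_lit 9) (C.cons (nat_lit 960) (C.node (nat_lit 4) (nat_lit 8) (nat_lit 9) (C.cons (nat_lit 788) (C.miq (nat_lit 1749776672) (nat_lit 2804749831225438589341729413)) (C.cons (nat_lit 786) (C.miq (nat_lit 647498305) (nat_lit 1160573638631394483593413779))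 (C.cons (nat_lit 784) (C.node (nat_lit 1) (nat_lit 4) (nat_lit 9) (C.cons (nat_lit 530) (C.node (nat_lit 2) (nat_lit 4) (nat_lit 9) C.nil) C.nil)) C.nil)))) (C.cons (nat_lit 704) (C.node (nat_lit 7) (nat_lit 8) (nat_lit 9) (C.cons (nat_lit 896) (C.node (nat_lit 3) (nat_lit 4) (nat_lit 6) (C.cons (nat_lit 122) (C.miq (nat_lit 446054579) (nat_lit 1953626375329641433760532509)) (C.cons (nat_lit 120) (C.node (nat_lit 1) (nat_lit 3) (nat_lit 4) (C.cons (nat_lit 282) (C.node (nat_lit 1) (nat_lit 3) (nat_lit 11) (C.cons (nat_lit 2090) (C.miq (nat_lit 2961266243) (nat_lit 317986044893555595396382840)) C.nil)) C.nil)) (C.cons (nat_lit 90) (C.miq (nat_lit 446054579) (nat_lit 1953625785033831075054880797)) (C.cons (nat_lit 88) (C.node (nat_lit 1) (nat_lit 4) (nat_lit 9) (C.cons (nat_lit 786) (C.node (nat_lit 2) (nat_lit 4) (nat_lit 9) C.nil) (C.cons (nat_lit 534) (C.node (nat_lit 4) (nat_lit 8) (nat_lit 9) C.nil) C.nil))) C.nil))))) C.nil)) C.nil))) C.nil)) C.nil)))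 C.nil))))) C.nil))) (C.cons (nat_lit 648) (C.node (nat_lit 3) (nat_lit 9) (nat_lit 10) (C.cons (nat_lit 1548) (C.node (nat_lit 1) (nat_lit 9) (nat_lit 10) (C.cons (nat_lit 1570) (C.node (nat_lit 1) (nat_lit 9) (nat_lit 11) (C.cons (nat_lit 2566) (C.miq (nat_lit 353081906) (nat_lit 2747935722771265540528604684)) (C.cons (nat_lit 2562) (C.node (nat_lit 5) (nat_lit 10) (nat_lit 11) (C.cons (nat_lit 3108) (C.miq (nat_lit 1359718706) (nat_lit 2479564188952103486448535052)) (C.cons (nat_lit 3104) (C.node (nat_lit 1) (nat_lit 4) (nat_lit 9) (C.cons (nat_lit 786) (C.miq (nat_lit 430081120) (nat_lit 1871422020478383620490592593)) (C.cons (nat_lit 534) (C.miq (nat_lit 1495507264) (nat_lit 1871436814987802470202016915)) (C.cons (nat_lit 530) (C.node (nat_lit 1) (nat_lit 6) (nat_lit 10) (C.cons (nat_lit 1354) (C.miq (nat_lit 1367382628) (nat_lit 317957839623994352849716816)) (C.cons (nat_lit 1346) (C.miq (nat_lit 1367382628) (nat_lit 317957839623994318489978448))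 (C.cons (nat_lit 1098) (C.miq (nat_lit 330802836) (nat_lit 2640315591484731260402665040)) (C.cons (nat_lit 1090) (C.node (nat_lit 1) (nat_lit 7) (nat_lit 9) (C.cons (nat_lit 962) (C.miq (nat_lit 611388312) (nat_lit 1415656986847057289475657473)) (C.cons (nat_lit 898) (C.miq (nat_lit 611388312) (nat_lit 1415656986847057289471463169)) (C.cons (nat_lit 706) (C.miq (nat_lit 957658736) (nat_lit 640768999024039728359082209)) (C.cons (nat_lit 642) (C.node (nat_lit 3) (nat_lit 5) (nat_lit 9) (C.cons (nat_lit 808) (C.miq (nat_lit 2266575013) (nat_lit 776145281272428182835954729)) (C.cons (nat_lit 552) (C.node (nat_lit 3) (nat_lit 8) (nat_lit 9) (C.cons (nat_lit 776) (C.node (nat_lit 1) (nat_lit 2) (nat_lit 9) C.nil) C.nil)) C.nil))) C.nil))))) C.nil))))) C.nil)))) C.nil))) C.nil))) (C.cons (nat_lit 1538) (C.node (nat_lit 5) (nat_lit 9) (nat_lit 10) (C.cons (nat_lit 1568) (C.node (nat_lit 3) (nat_lit 5) (nat_lit 9) (C.cons (nat_lit 808) (C.node (nat_lit 3) (nat_lit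 5) (nat_lit 7) (C.cons (nat_lit 174) (C.miq (nat_lit 3124037927) (nat_lit 1287547928420011647039308421)) (C.cons (nat_lit 172) (C.miq (nat_lit 3124037927) (nat_lit 1287547928420011647039177349)) (C.cons (nat_lit 170)
  (C.miq (nat_lit 446001283) (nat_lit 1895598821431854771313574281)) (C.cons (nat_lit 168) (C.node (nat_lit 2) (nat_lit 3) (nat_lit 8) (C.cons (nat_lit 332) (C.node (nat_lit 2) (nat_lit 3) (nat_lit 7) (C.cons (nat_lit 142) (C.miq (nat_lit 1668579856) (nat_lit 183762941227626776904270087)) (C.cons (nat_lit 140) (C.node (nat_lit 1) (nat_lit 3) (nat_lit 7) (C.cons (nat_lit 202) (C.miq (nat_lit 2838563687) (nat_lit 632289805876918062169065697)) (C.cons (nat_lit 138) (C.node (nat_lit 3) (nat_lit 4) (nat_lit 8) (C.cons (nat_lit 282) (C.miq (nat_lit 1665804304) (nat_lit 1266974421340854843157446919)) C.nil)) C.nil))) C.nil))) (C.cons (nat_lit 268) (C.node (nat_lit 3) (nat_lit 4) (nat_lit 8) (C.cons (nat_lit 282) (C.node (nat_lit 3) (nat_lit 8)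 (nat_lit 11) (C.cons (nat_lit 2312) (C.node (nat_lit 1) (nat_lit 3) (nat_lit 11) C.nil) C.nil)) (C.cons (nat_lit 280) (C.node (nat_lit 1) (nat_lit 3) (nat_lit 4) (C.cons (nat_lit 26) (C.node (nat_lit 3) (nat_lit 4) (nat_lit 5) C.nil) C.nil)) C.nil))) C.nil))) C.nil))))) (C.cons (nat_lit 552) (C.node (nat_lit 3) (nat_lit 8) (nat_lit 9) (C.cons (nat_lit 776) (C.node (nat_lit 3) (nat_lit 7) (nat_lit 10) (C.cons (nat_lit 1224) (C.node (nat_lit 1) (nat_lit 3) (nat_lit 10) (C.cons (nat_lit 1290) (C.node (nat_lit 1) (nat_lit 6) (nat_lit 10) (C.cons (nat_lit 1122) (C.miq (nat_lit 352888435) (nat_lit 349403358484307603167446216)) (C.cons (nat_lit 1090) (C.node (nat_lit 5) (nat_lit 6) (nat_lit 10) (C.cons (nat_lit 1376) (C.node (nat_lit 3) (nat_lit 4) (nat_lit 8) (C.cons (nat_lit 312) (C.miq (nat_lit 646187603) (nat_lit 407446315405229186054882345)) C.nil)) C.nil)) C.nil))) (C.cons (nat_lit 1034) (C.node (nat_lit 3) (nat_lit 8) (nat_lit 10) (C.cons (nat_lit 1288)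 (C.node (nat_lit 1) (nat_lit 4) (nat_lit 9) C.nil) C.nil)) C.nil))) (C.cons (nat_lit 1160) (C.node (nat_lit 3) (nat_lit 6) (nat_lit 7) (C.cons (nat_lit 206) (C.miq (nat_lit 2838563687) (nat_lit 632289805876918062169327841)) (C.cons (nat_lit 204) (C.miq (nat_lit 2741736048) (nat_lit 3181963611605415246484800133)) (C.cons (nat_lit 202) (C.miq (nat_lit 2838563687) (nat_lit 632289805876918062169065697)) (C.cons (nat_lit 200) (C.node (nat_lit 6) (nat_lit 7) (nat_lit 10) (C.cons (nat_lit 1472) (C.node (nat_lit 3) (nat_lit 6) (nat_lit 10) (C.cons (nat_lit 1098) (C.miq (nat_lit 330802836) (nat_lit 2640315591484731260402665040)) (C.cons (nat_lit 1096) (C.node (nat_lit 1) (nat_lit 3) (nat_lit 10) C.nil) C.nil))) (C.cons (nat_lit 1216) (C.node (nat_lit 1) (nat_lit 4) (nat_lit 9) (C.cons (nat_lit 786) (C.miq (nat_lit 430081120) (nat_lit 1871422020478383620490592593)) (C.cons (nat_lit 534) (C.node (nat_lit 4) (nat_lit 8) (nat_lit 9) C.nil) (C.cons (nat_lit 530)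 (C.node (nat_lit 2) (nat_lit 4) (nat_lit 9) C.nil) C.nil)))) C.nil))) C.nil))))) C.nil))) C.nil)) C.nil))) C.nil)) C.nil))) (C.cons (nat_lit 1544) (C.ref (nat_lit 257) (nat_lit 205163983024656)) C.nil))) C.nil))) C.nil))) C.nil)))) (C.cons (nat_lit 1556) (C.miq (nat_lit 645177529) (nat_lit 251485273921283472583823105)) (C.cons (nat_lit 1552) (C.ref (nat_lit 258) (nat_lit 205163983024656)) C.nil)))) C.nil)))) C.nil))) C.nil))) (C.cons (nat_lit 2600) (C.miq (nat_lit 997873984) (nat_lit 3868582269281098412848251441)) (C.cons (nat_lit 2568) (C.ref (nat_lit 261) (nat_lit 205163983024656)) C.nil)))) C.nil))) List.nil)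

theorem ok12_262 : okL par12 (nat_lit 263) c12_262 (nat_lit 262) = true := by decide +kernel

noncomputable def c12_263 : List C :=
  (List.cons (C.node (nat_lit 3) (nat_lit 4) (nat_lit 7) (C.cons (nat_lit 184) (C.node (nat_lit 3) (nat_lit 7) (nat_lit 11) (C.cons (nat_lit 3208) (C.node (nat_lit 3) (nat_lit 9) (nat_lit 11) (C.cons (nat_lit 2632) (C.miq (nat_lit 1404635764) (nat_lit 3181903106148913967514256531)) (C.cons (nat_lit 2600) (C.node (nat_lit 7) (nat_lit 9) (nat_lit 10) (C.cons (nat_lit 1728) (C.miq (nat_lit 611715994) (nat_lit 251476733355750573211651841)) (C.cons (nat_lit 1696) (C.node (nat_lit 6) (nat_lit 7) (nat_lit 10) (C.cons (nat_lit 1472) (C.miq (nat_lit 1466210944) (nat_lit 251466919580656102112562945)) (C.cons (nat_lit 1216) (C.node (nat_lit 2) (nat_lit 4) (nat_lit 7) (C.cons (nat_lit 404) (C.node (nat_lit 2) (nat_lit 7) (nat_lit 10) (C.cons (nat_lit 1156) (C.node (nat_lit 7) (nat_lit 8) (nat_lit 10) (C.cons (nat_lit 1408) (C.node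 (nat_lit 5) (nat_lit 7) (nat_lit 8) (C.cons (nat_lit 418) (C.miq (nat_lit 355501890) (nat_lit 1287510849500928787349307796)) (C.cons (nat_lit 416) (C.node (nat_lit 2) (nat_lit 4) (nat_lit 10) (C.cons (nat_lit 1556) (C.miq (nat_lit 1732381594) (nat_lit 488426194055386986878078721)) (C.cons (nat_lit 1076) (C.miq (nat_lit 2191553619) (nat_lit 1321363170522931167853347000)) (C.cons (nat_lit 1044) (C.node (nat_lit 3) (nat_lit 4) (nat_lit 8) (C.cons (nat_lit 1304) (C.miq (nat_lit 1731464104) (nat_lit 222448568001651008668700417)) (C.cons (nat_lit 792) (C.miq (nat_lit 1697909656) (nat_lit 222448568001648397295030017)) (C.cons (nat_lit 282) (C.miq (nat_lit 2537751169) (nat_lit 222451998637795413405073671)) (C.cons (nat_lit 280) (C.node (nat_lit 1) (nat_lit 3) (nat_lit 4) (C.cons (nat_lit 90) (C.node (nat_lit 1) (nat_lit 3) (nat_lit 7) (C.cons (nat_lit 142) (C.miq (nat_lit 2322664242) (nat_lit 1415656987343581313003030557)) (C.cons (nat_lit 138) (C.node (nat_lit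 3) (nat_lit 4) (nat_lit 9) (C.cons (nat_lit 1560) (C.node (nat_lit 3) (nat_lit 6) (nat_lit 11) (C.cons (nat_lit 2376) (C.miq (nat_lit 1399102336) (nat_lit 108813673120587121094102785)) (C.cons (nat_lit 2120) (C.node (nat_lit 6) (nat_lit 9) (nat_lit 10) (C.cons (nat_lit 1602) (C.miq (nat_lit 2520490304) (nat_lit 2562993591977924268138497171)) (C.cons (nat_lit 1600) (C.node (nat_lit 1) (nat_lit 2) (nat_lit 4) (C.cons (nat_lit 534) (C.miq (nat_lit 344167024) (nat_lit 338508877289556091769258629)) (C.cons (nat_lit 54) (C.miq (nat_lit 410329140) (nat_lit 502914137157895323802667037)) (C.cons (nat_lit 22) (C.node (nat_lit 1) (nat_lit 7) (nat_lit 9) (C.cons (nat_lit 962) (C.miq (nat_lit 611388312) (nat_lit 1415656986847057289475657473)) (C.cons (nat_lit 898) (C.miq (nat_lit 611388312) (nat_lit 1415656986847057289471463169)) (C.cons (nat_lit 706) (C.miq (nat_lit 660867347) (nat_lit 251494884548838355308773899)) (C.cons (nat_lit 642) (C.node (nat_lit 2) (nat_lit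 3) (nat_lit 9) (C.cons (nat_lit 844) (C.miq (nat_lit 338823832) (nat_lit 2510943779162890079409278721)) (C.cons (nat_lit 780) (C.miq (nat_lit 338823832) (nat_lit 2510943779162890079405084417)) (C.cons (nat_lit 588) (C.miq (nat_lit 1769026052) (nat_lit 776132036565068620657526813)) (C.cons (nat_lit 524) (C.node (nat_lit 3) (nat_lit 8) (nat_lit 9) (C.cons (nat_lit 840) (C.miq (nat_lit 2838562916) (nat_lit 632289805876910365580329297)) (C.cons (nat_lit 776) (C.node (nat_lit 1) (nat_lit 3) (nat_lit 11) (C.cons (nat_lit 2314) (C.node (nat_lit 7) (nat_lit 8) (nat_lit 11) (C.cons (nat_lit 2432) (C.node (nat_lit 1) (nat_lit 4) (nat_lit 5) (C.cons (nat_lit 306) (C.node (nat_lit 1) (nat_lit 4) (nat_lit 9) C.nil) C.nil)) C.nil)) (C.cons (nat_lit 2058) (C.node (nat_lit 3) (nat_lit 8) (nat_lit 11) (C.cons (nat_lit 2312) (C.node (nat_lit 1) (nat_lit 4) (nat_lit 5) (C.cons (nat_lit 306) (C.node (nat_lit 1) (nat_lit 4) (nat_lit 9) C.nil) C.nil)) C.nil)) C.nil))) C.nil)))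 C.nil))))) C.nil))))) C.nil)))) C.nil))) C.nil))) (C.cons (nat_lit 536) (C.miq (nat_lit 2739490999) (nat_lit 648015525291170020063185121)) C.nil))) C.nil))) (C.cons (nat_lit 26) (C.node (nat_lit 1) (nat_lit 5) (nat_lit 7) (C.cons (nat_lit 166)
  (C.node (nat_lit 2) (nat_lit 7) (nat_lit 11) (C.cons (nat_lit 2180) (C.node (nat_lit 4) (nat_lit 8) (nat_lit 10) (C.cons (nat_lit 1328) (C.miq (nat_lit 413474967) (nat_lit 1605456550681788195750806149)) (C.cons (nat_lit 1296) (C.node (nat_lit 4) (nat_lit 5) (nat_lit 8) (C.cons (nat_lit 306) (C.miq (nat_lit 2769852192) (nat_lit 370002155223445919330927237)) (C.cons (nat_lit 304) (C.node (nat_lit 1) (nat_lit 4) (nat_lit 5) (C.cons (nat_lit 50) (C.node (nat_lit 1) (nat_lit 4) (nat_lit 8) C.nil) C.nil)) C.nil))) C.nil))) C.nil)) (C.cons (nat_lit 162) (C.node (nat_lit 2) (nat_lit 5) (nat_lit 7) (C.cons (nat_lit 164) (C.node (nat_lit 2) (nat_lit 7) (nat_lit 11) (C.cons (nat_lit 2182) (C.node (nat_lit 7) (nat_lit 8)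 (nat_lit 11) (C.cons (nat_lit 2432) (C.node (nat_lit 2) (nat_lit 9) (nat_lit 11) (C.cons (nat_lit 2628) (C.miq (nat_lit 2460268039) (nat_lit 1262168436413369102292420833)) (C.cons (nat_lit 2564) (C.node (nat_lit 2) (nat_lit 6) (nat_lit 11) (C.cons (nat_lit 2372) (C.miq (nat_lit 310672224) (nat_lit 488427632875809087333402849)) (C.cons (nat_lit 2116) (C.node (nat_lit 1) (nat_lit 7) (nat_lit 8) (C.cons (nat_lit 962) (C.miq (nat_lit 1192409472) (nat_lit 2637914453047674422748974849)) (C.cons (nat_lit 898) (C.miq (nat_lit 1192409472) (nat_lit 2637914453047674147871067905)) (C.cons (nat_lit 450) (C.miq (nat_lit 1108872054) (nat_lit 317953707696033211342784737)) (C.cons (nat_lit 386) (C.node (nat_lit 1) (nat_lit 3) (nat_lit 7) (C.cons (nat_lit 202) (C.node (nat_lit 1) (nat_lit 9) (nat_lit 11) (C.cons (nat_lit 2626) (C.miq (nat_lit 2299726695) (nat_lit 632275454310028690368104673)) C.nil)) (C.cons (nat_lit 138) (C.node (nat_lit 1) (nat_lit 6) (nat_lit 7) (C.cons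 (nat_lit 706) (C.node (nat_lit 1) (nat_lit 9) (nat_lit 11) C.nil) C.nil)) C.nil))) C.nil))))) C.nil))) C.nil))) C.nil)) (C.cons (nat_lit 2180) (C.node (nat_lit 1) (nat_lit 7) (nat_lit 11) (C.cons (nat_lit 2434) (C.node (nat_lit 3) (nat_lit 8) (nat_lit 11) (C.cons (nat_lit 2376) (C.miq (nat_lit 1683194011) (nat_lit 222486180367870378839117569)) (C.cons (nat_lit 2312) (C.node (nat_lit 4) (nat_lit 8) (nat_lit 9) (C.cons (nat_lit 786) (C.miq (nat_lit 1460931465) (nat_lit 1415662484031959190704623361)) (C.cons (nat_lit 784) (C.node (nat_lit 1) (nat_lit 4) (nat_lit 8) (C.cons (nat_lit 274) (C.node (nat_lit 1) (nat_lit 7) (nat_lit 9) (C.cons (nat_lit 642) (C.node (nat_lit 3) (nat_lit 7) (nat_lit 9) C.nil) C.nil)) C.nil)) C.nil))) C.nil))) (C.cons (nat_lit 2178) (C.node (nat_lit 7) (nat_lit 8) (nat_lit 11) (C.cons (nat_lit 2432) (C.node (nat_lit 3) (nat_lit 7) (nat_lit 9) (C.cons (nat_lit 712) (C.node (nat_lit 1) (nat_lit 3) (nat_lit 7) (C.cons (nat_lit 142)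 (C.miq (nat_lit 2322664242) (nat_lit 1415656987343581313003030557)) C.nil)) C.nil)) C.nil)) C.nil))) C.nil))) C.nil)) C.nil))) C.nil))) C.nil))))) C.nil)))) C.nil))) C.nil)) C.nil)) (C.cons (nat_lit 148) (C.node (nat_lit 4) (nat_lit 7) (nat_lit 8) (C.cons (nat_lit 400) (C.node (nat_lit 2) (nat_lit 7) (nat_lit 10) (C.cons (nat_lit 1412) (C.node (nat_lit 2) (nat_lit 5) (nat_lit 7) (C.cons (nat_lit 166) (C.miq (nat_lit 278210727) (nat_lit 678210447037367618751169924)) (C.cons (nat_lit 164) (C.node (nat_lit 4) (nat_lit 8) (nat_lit 10) (C.cons (nat_lit 1328) (C.miq (nat_lit 2181343125) (nat_lit 2510963425013160119555393184)) (C.cons (nat_lit 1304) (C.miq (nat_lit 1731464104) (nat_lit 222448568001651008668700417)) (C.cons (nat_lit 1296) (C.node (nat_lit 2) (nat_lit 9) (nat_lit 10) (C.cons (nat_lit 1556) (C.miq (nat_lit 1732381594) (nat_lit 178941184234041918153297665)) (C.cons (nat_lit 1548) (C.miq (nat_lit 1235466064) (nat_lit 1871455483412002678543812833))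 (C.cons (nat_lit 1542) (C.miq (nat_lit 933824545) (nat_lit 2050347837824187360839336199)) (C.cons (nat_lit 1540) (C.node (nat_lit 1) (nat_lit 5) (nat_lit 7) (C.cons (nat_lit 418) (C.node (nat_lit 7) (nat_lit 8) (nat_lit 11) (C.cons (nat_lit 2432) (C.node (nat_lit 2) (nat_lit 4) (nat_lit 10) (C.cons (nat_lit 1076)
  (C.miq (nat_lit 356681520) (nat_lit 1300809033516689708271075721)) (C.cons (nat_lit 1044) (C.node (nat_lit 4) (nat_lit 5) (nat_lit 8) (C.cons (nat_lit 308) (C.miq (nat_lit 897730320) (nat_lit 372387466380540071576536211)) (C.cons (nat_lit 304) (C.node (nat_lit 5) (nat_lit 8) (nat_lit 11) (C.cons (nat_lit 2340) (C.miq (nat_lit 1115753303) (nat_lit 317969092280591363711568097)) (C.cons (nat_lit 2336) (C.node (nat_lit 3) (nat_lit 4) (nat_lit 8) (C.cons (nat_lit 792) (C.miq (nat_lit 1697909656) (nat_lit 222448568001648397295030017)) (C.cons (nat_lit 282) (C.miq (nat_lit 995639409) (nat_lit 2824055917186235827323274387)) (C.cons (nat_lit 280)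 (C.node (nat_lit 1) (nat_lit 3) (nat_lit 4) (C.cons (nat_lit 90) (C.node (nat_lit 1) (nat_lit 4) (nat_lit 5) C.nil) C.nil)) C.nil)))) C.nil))) C.nil))) C.nil))) C.nil)) (C.cons (nat_lit 162) (C.node (nat_lit 5) (nat_lit 7) (nat_lit 8) (C.cons (nat_lit 416) (C.node (nat_lit 1) (nat_lit 9) (nat_lit 10) (C.cons (nat_lit 1602) (C.node (nat_lit 6) (nat_lit 10) (nat_lit 11) (C.cons (nat_lit 3136) (C.node (nat_lit 1) (nat_lit 7) (nat_lit 9) (C.cons (nat_lit 898) (C.miq (nat_lit 611388312) (nat_lit 1415656986847057289471463169)) (C.cons (nat_lit 642) (C.node (nat_lit 3) (nat_lit 9) (nat_lit 10) (C.cons (nat_lit 1560) (C.node (nat_lit 3) (nat_lit 4) (nat_lit 6) (C.cons (nat_lit 90) (C.miq (nat_lit 1673073674) (nat_lit 3143236682707383605740504211)) (C.cons (nat_lit 88) (C.node (nat_lit 1) (nat_lit 3) (nat_lit 4) (C.cons (nat_lit 26) (C.node (nat_lit 3) (nat_lit 4) (nat_lit 8) (C.cons (nat_lit 280) (C.node (nat_lit 2) (nat_lit 4) (nat_lit 10) C.nil) C.nil)) C.nil))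 C.nil))) (C.cons (nat_lit 1544) (C.miq (nat_lit 1235466064) (nat_lit 1866619780133544161844988129)) C.nil))) C.nil))) C.nil)) (C.cons (nat_lit 1538) (C.node (nat_lit 2) (nat_lit 3) (nat_lit 10) (C.cons (nat_lit 1038) (C.node (nat_lit 2) (nat_lit 4) (nat_lit 10) (C.cons (nat_lit 1076) (C.miq (nat_lit 1511604784) (nat_lit 1859338259493596554907551773)) (C.cons (nat_lit 1044) (C.node (nat_lit 2) (nat_lit 7) (nat_lit 11) (C.cons (nat_lit 2182) (C.miq (nat_lit 1461324579) (nat_lit 1415671781190971258003392541)) (C.cons (nat_lit 2180) (C.node (nat_lit 1) (nat_lit 2) (nat_lit 7) (C.cons (nat_lit 198) (C.miq (nat_lit 829792864) (nat_lit 195865628852180303353021509)) (C.cons (nat_lit 134) (C.node (nat_lit 2) (nat_lit 3) (nat_lit 5) (C.cons (nat_lit 364) (C.miq (nat_lit 1126856032) (nat_lit 1254886601949088356384442593)) (C.cons (nat_lit 300) (C.miq (nat_lit 391644210) (nat_lit 502917992782985110311667741)) (C.cons (nat_lit 108) (C.miq (nat_lit 1126856032) (nat_lit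 1254886601949087256872814817)) (C.cons (nat_lit 44) (C.node (nat_lit 5) (nat_lit 8) (nat_lit 9) (C.cons (nat_lit 868) (C.miq (nat_lit 391252632) (nat_lit 198268686240105052313489153)) (C.cons (nat_lit 866) (C.miq (nat_lit 1196821144) (nat_lit 2747894604866419436275502849)) (C.cons (nat_lit 864) (C.miq (nat_lit 1196821144) (nat_lit 2747894604866419436275371777)) (C.cons (nat_lit 804) (C.miq (nat_lit 391252632) (nat_lit 198268686240105052309294849)) (C.cons (nat_lit 802) (C.miq (nat_lit 305496249) (nat_lit 53207530425827638439841537)) (C.cons (nat_lit 800) (C.node (nat_lit 1) (nat_lit 3) (nat_lit 7) (C.cons (nat_lit 202) (C.node (nat_lit 2) (nat_lit 3) (nat_lit 7) (C.cons (nat_lit 140) (C.node (nat_lit 2) (nat_lit 6) (nat_lit 7) C.nil) C.nil)) (C.cons (nat_lit 138) (C.node (nat_lit 4) (nat_lit 5) (nat_lit 10) C.nil) C.nil))) C.nil))))))) C.nil))))) C.nil))) C.nil))) C.nil))) (C.cons (nat_lit 1036) (C.node (nat_lit 2) (nat_lit 4) (nat_lit 10) (C.cons (nat_lit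 1076) (C.node (nat_lit 1) (nat_lit 2) (nat_lit 10) (C.cons (nat_lit 3078) (C.miq (nat_lit 2275476402) (nat_lit 1415656986373055593497102365)) (C.cons (nat_lit 1030) (C.node (nat_lit 2) (nat_lit 10) (nat_lit 11) (C.cons (nat_lit 3076) (C.node (nat_lit 2) (nat_lit 4) (nat_lit 8) (C.cons (nat_lit 788) (C.node (nat_lit 7) (nat_lit 8) (nat_lit 9) (C.cons (nat_lit 962) (C.miq (nat_lit 611388312) (nat_lit 1415656986847057289475657473))
  (C.cons (nat_lit 960) (C.miq (nat_lit 1749776672) (nat_lit 2804749831225438589341729413)) (C.cons (nat_lit 898) (C.miq (nat_lit 611388312) (nat_lit 1415656986847057289471463169)) (C.cons (nat_lit 896) (C.node (nat_lit 1) (nat_lit 2) (nat_lit 4) (C.cons (nat_lit 86) (C.node (nat_lit 1) (nat_lit 4) (nat_lit 9) C.nil) C.nil)) C.nil))))) (C.cons (nat_lit 276) (C.node (nat_lit 3) (nat_lit 4) (nat_lit 10) (C.cons (nat_lit 1624) (C.node (nat_lit 3) (nat_lit 7) (nat_lit 9) (C.cons (nat_lit 648) (C.node (nat_lit 1) (nat_lit 3) (nat_lit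 4) (C.cons (nat_lit 26) (C.node (nat_lit 3) (nat_lit 4) (nat_lit 8) (C.cons (nat_lit 280) (C.node (nat_lit 2) (nat_lit 4) (nat_lit 6) C.nil) C.nil)) C.nil)) C.nil)) (C.cons (nat_lit 1048) (C.miq (nat_lit 2587129099) (nat_lit 1267004139429492820497205473)) C.nil))) C.nil))) C.nil)) C.nil))) (C.cons (nat_lit 1044) (C.node (nat_lit 2) (nat_lit 7) (nat_lit 11) (C.cons (nat_lit 2182) (C.node (nat_lit 7) (nat_lit 8) (nat_lit 11) (C.cons (nat_lit 2432) (C.node (nat_lit 2) (nat_lit 9) (nat_lit 11) (C.cons (nat_lit 2628) (C.miq (nat_lit 975786091) (nat_lit 1861793724040896118650046689)) (C.cons (nat_lit 2564) (C.node (nat_lit 2) (nat_lit 6) (nat_lit 11) (C.cons (nat_lit 2372) (C.miq (nat_lit 1093142454) (nat_lit 317953707441016882568890593)) (C.cons (nat_lit 2116) (C.node (nat_lit 1) (nat_lit 7) (nat_lit 8) (C.cons (nat_lit 962) (C.miq (nat_lit 1192409472) (nat_lit 2637914453047674422748974849)) (C.cons (nat_lit 898) (C.miq (nat_lit 1192409472) (nat_lit 2637914453047674147871067905))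 (C.cons (nat_lit 450) (C.miq (nat_lit 1108872054) (nat_lit 317953707696033211342784737)) (C.cons (nat_lit 386) (C.node (nat_lit 1) (nat_lit 2) (nat_lit 10) (C.cons (nat_lit 1062) (C.node (nat_lit 2) (nat_lit 10) (nat_lit 11) (C.cons (nat_lit 3076) (C.node (nat_lit 1) (nat_lit 3) (nat_lit 7) C.nil) C.nil)) (C.cons (nat_lit 1030) (C.node (nat_lit 2) (nat_lit 3) (nat_lit 7) (C.cons (nat_lit 204) (C.node (nat_lit 1) (nat_lit 2) (nat_lit 3) C.nil) C.nil)) C.nil))) C.nil))))) C.nil))) C.nil))) C.nil)) (C.cons (nat_lit 2180) (C.node (nat_lit 1) (nat_lit 7) (nat_lit 11) (C.cons (nat_lit 2434) (C.node (nat_lit 3) (nat_lit 8) (nat_lit 11) (C.cons (nat_lit 2376) (C.miq (nat_lit 1683194011) (nat_lit 222486180367870378839117569)) (C.cons (nat_lit 2312) (C.node (nat_lit 6) (nat_lit 8) (nat_lit 11) (C.cons (nat_lit 2372) (C.miq (nat_lit 405437280) (nat_lit 1707024859118286989617858785)) (C.cons (nat_lit 2368) (C.node (nat_lit 1) (nat_lit 2) (nat_lit 7) (C.cons (nat_lit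 206) (C.miq (nat_lit 2819754870) (nat_lit 317967653931075876997171425)) (C.cons (nat_lit 198) (C.miq (nat_lit 2819754870) (nat_lit 317967653931075876996647137)) (C.cons (nat_lit 142) (C.miq (nat_lit 2803413792) (nat_lit 2942596299788966864812967965)) (C.cons (nat_lit 134) (C.node (nat_lit 1) (nat_lit 3) (nat_lit 7) (C.cons (nat_lit 202) (C.node (nat_lit 1) (nat_lit 3) (nat_lit 11) C.nil) (C.cons (nat_lit 138) (C.node (nat_lit 3) (nat_lit 4) (nat_lit 10) (C.cons (nat_lit 1048) (C.miq (nat_lit 2587129099) (nat_lit 1267004139429492820497205473)) C.nil)) C.nil))) C.nil))))) C.nil))) C.nil))) (C.cons (nat_lit 2178) (C.node (nat_lit 7) (nat_lit 8) (nat_lit 11) (C.cons (nat_lit 2432) (C.node (nat_lit 3) (nat_lit 4) (nat_lit 10) (C.cons (nat_lit 1048) (C.miq (nat_lit 2587129099) (nat_lit 1267004139429492820497205473)) C.nil)) C.nil)) C.nil))) C.nil))) C.nil))) C.nil))) C.nil))) C.nil)) C.nil))) C.nil))))) C.nil)))) C.nil))) (C.cons (nat_lit 1156) (C.node (nat_lit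 7) (nat_lit 8) (nat_lit 10) (C.cons (nat_lit 1408) (C.node (nat_lit 3) (nat_lit 7) (nat_lit 9) (C.cons (nat_lit 712) (C.node (nat_lit 1) (nat_lit 3) (nat_lit 7) (C.cons (nat_lit 142) (C.miq (nat_lit 2322664242) (nat_lit 1415656987343581313003030557)) (C.cons (nat_lit 138) (C.node (nat_lit 2) (nat_lit 3) (nat_lit 7) (C.cons (nat_lit 140) (C.node (nat_lit 1) (nat_lit 7) (nat_lit 9) (C.cons (nat_lit 898) (C.miq (nat_lit 611388312) (nat_lit 1415656986847057289471463169)) (C.cons (nat_lit 642)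
  (C.node (nat_lit 7) (nat_lit 8) (nat_lit 9) (C.cons (nat_lit 896) (C.node (nat_lit 3) (nat_lit 4) (nat_lit 9) (C.cons (nat_lit 1560) (C.node (nat_lit 2) (nat_lit 3) (nat_lit 9) (C.cons (nat_lit 780) (C.miq (nat_lit 338823832) (nat_lit 2510943779162890079405084417)) (C.cons (nat_lit 524) (C.node (nat_lit 3) (nat_lit 8) (nat_lit 9) (C.cons (nat_lit 776) (C.node (nat_lit 2) (nat_lit 9) (nat_lit 10) (C.cons (nat_lit 1542) (C.node (nat_lit 2) (nat_lit 6) (nat_lit 7) (C.cons (nat_lit 452) (C.miq (nat_lit 1762816776) (nat_lit 1864171951974491933817373065)) (C.cons (nat_lit 198) (C.miq (nat_lit 3105294886) (nat_lit 776172306723023480370365509)) C.nil))) (C.cons (nat_lit 1540) (C.node (nat_lit 1) (nat_lit 9) (nat_lit 10) (C.cons (nat_lit 1602) (C.node (nat_lit 6) (nat_lit 10) (nat_lit 11) (C.cons (nat_lit 3136) (C.node (nat_lit 3) (nat_lit 4) (nat_lit 6) (C.cons (nat_lit 90) (C.miq (nat_lit 3110275604) (nat_lit 860793498534209333218641043)) (C.cons (nat_lit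 88) (C.node (nat_lit 1) (nat_lit 3) (nat_lit 4) (C.cons (nat_lit 282) (C.node (nat_lit 1) (nat_lit 4) (nat_lit 9) C.nil) C.nil)) C.nil))) C.nil)) (C.cons (nat_lit 1538) (C.node (nat_lit 6) (nat_lit 9) (nat_lit 10) C.nil) C.nil))) C.nil))) C.nil)) C.nil))) (C.cons (nat_lit 792) (C.miq (nat_lit 1697909656) (nat_lit 222448568001648397295030017)) (C.cons (nat_lit 536) (C.miq (nat_lit 2739490999) (nat_lit 648015525291170020063185121)) C.nil)))) C.nil)) C.nil))) C.nil)) C.nil))) (C.cons (nat_lit 648) (C.node (nat_lit 6) (nat_lit 10) (nat_lit 11) (C.cons (nat_lit 3138) (C.node (nat_lit 1) (nat_lit 9) (nat_lit 10) (C.cons (nat_lit 1542) (C.miq (nat_lit 427532806) (nat_lit 3268993302554897773469172805)) (C.cons (nat_lit 1538) (C.node (nat_lit 3) (nat_lit 6) (nat_lit 11) (C.cons (nat_lit 2376) (C.miq (nat_lit 1683194011) (nat_lit 222486180367870378839117569)) (C.cons (nat_lit 2120) (C.node (nat_lit 6) (nat_lit 9) (nat_lit 11) (C.cons (nat_lit 2628) (C.miq (nat_lit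 1784225851) (nat_lit 2050386668417493512858634269)) (C.cons (nat_lit 2624) (C.node (nat_lit 2) (nat_lit 9) (nat_lit 10) (C.cons (nat_lit 1556) (C.miq (nat_lit 1732381594) (nat_lit 178941184234041918153297665)) (C.cons (nat_lit 1548) (C.miq (nat_lit 1235466064) (nat_lit 1871455483412002678543812833)) (C.cons (nat_lit 1540) (C.node (nat_lit 1) (nat_lit 3) (nat_lit 7) (C.cons (nat_lit 206) (C.miq (nat_lit 698446006) (nat_lit 1859331710778146712019142881)) (C.cons (nat_lit 202) (C.miq (nat_lit 2338523671) (nat_lit 2562929988234593681397122195)) (C.cons (nat_lit 142) (C.miq (nat_lit 2322664242) (nat_lit 1415656987343581313003030557)) (C.cons (nat_lit 138) (C.node (nat_lit 1) (nat_lit 3) (nat_lit 11) (C.cons (nat_lit 2314) (C.node (nat_lit 1) (nat_lit 9) (nat_lit 11) (C.cons (nat_lit 2566) (C.miq (nat_lit 557292416) (nat_lit 166843661979021097589870337)) (C.cons (nat_lit 2562) (C.node (nat_lit 2) (nat_lit 9) (nat_lit 11) (C.cons (nat_lit 2564) (C.node (nat_lit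 1) (nat_lit 7) (nat_lit 11) (C.cons (nat_lit 2178) (C.node (nat_lit 2) (nat_lit 7) (nat_lit 11) C.nil) C.nil)) C.nil)) C.nil))) (C.cons (nat_lit 2058) (C.node (nat_lit 3) (nat_lit 8) (nat_lit 11) (C.cons (nat_lit 2312) (C.node (nat_lit 1) (nat_lit 9) (nat_lit 11) (C.cons (nat_lit 2566) (C.node (nat_lit 1) (nat_lit 7) (nat_lit 11) (C.cons (nat_lit 2178) (C.node (nat_lit 2) (nat_lit 7) (nat_lit 11) C.nil) C.nil)) (C.cons (nat_lit 2562) (C.node (nat_lit 2) (nat_lit 9) (nat_lit 11) (C.cons (nat_lit 2564) (C.node (nat_lit 2) (nat_lit 6) (nat_lit 11) (C.cons (nat_lit 2372) (C.node (nat_lit 2) (nat_lit 7) (nat_lit 11) C.nil) C.nil)) C.nil)) C.nil))) C.nil)) C.nil))) C.nil))))) C.nil)))) C.nil))) C.nil))) C.nil))) (C.cons (nat_lit 3136) (C.node (nat_lit 1) (nat_lit 3) (nat_lit 7) (C.cons (nat_lit 206) (C.miq (nat_lit 2322664242) (nat_lit 1415656987343581313007224861)) (C.cons (nat_lit 202) (C.node (nat_lit 2) (nat_lit 3) (nat_lit 7) (C.cons (nat_lit 140) (C.node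 (nat_lit 1) (nat_lit 7) (nat_lit 9) (C.cons (nat_lit 898) (C.miq (nat_lit 611388312) (nat_lit 1415656986847057289471463169))
  (C.cons (nat_lit 642) (C.node (nat_lit 3) (nat_lit 6) (nat_lit 11) (C.cons (nat_lit 2376) (C.miq (nat_lit 1683194011) (nat_lit 222486180367870378839117569)) (C.cons (nat_lit 2120) (C.node (nat_lit 6) (nat_lit 9) (nat_lit 11) (C.cons (nat_lit 2630) (C.miq (nat_lit 2299726695) (nat_lit 632275454310028707547973857)) (C.cons (nat_lit 2628) (C.miq (nat_lit 1784225851) (nat_lit 2050386668417493512858634269)) (C.cons (nat_lit 2626) (C.miq (nat_lit 2299726695) (nat_lit 632275454310028690368104673)) (C.cons (nat_lit 2624) (C.node (nat_lit 1) (nat_lit 3) (nat_lit 4) (C.cons (nat_lit 282) (C.node (nat_lit 1) (nat_lit 3) (nat_lit 11) (C.cons (nat_lit 2058) (C.node (nat_lit 3) (nat_lit 8) (nat_lit 11) (C.cons (nat_lit 2312) (C.node (nat_lit 2) (nat_lit 6) (nat_lit 7) (C.cons (nat_lit 452) (C.node (nat_lit 6) (nat_lit 7) (nat_lit 9) C.nil)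 C.nil)) C.nil)) C.nil)) (C.cons (nat_lit 26) (C.node (nat_lit 3) (nat_lit 4) (nat_lit 8) (C.cons (nat_lit 1304) (C.miq (nat_lit 1731464104) (nat_lit 222448568001651008668700417)) (C.cons (nat_lit 792) (C.miq (nat_lit 1697909656) (nat_lit 222448568001648397295030017)) (C.cons (nat_lit 280) (C.node (nat_lit 1) (nat_lit 3) (nat_lit 11) (C.cons (nat_lit 2314) (C.node (nat_lit 7) (nat_lit 8) (nat_lit 11) (C.cons (nat_lit 2436) (C.miq (nat_lit 2274472451) (nat_lit 776173062644054307619145757)) C.nil)) (C.cons (nat_lit 2058) (C.node (nat_lit 3) (nat_lit 8) (nat_lit 11) (C.cons (nat_lit 2312) (C.node (nat_lit 1) (nat_lit 2) (nat_lit 3) C.nil) C.nil)) C.nil))) C.nil)))) C.nil))) C.nil))))) C.nil))) C.nil))) C.nil)) (C.cons (nat_lit 142) (C.miq (nat_lit 2322664242) (nat_lit 1415656987343581313003030557)) (C.cons (nat_lit 138) (C.node (nat_lit 2) (nat_lit 3) (nat_lit 7) (C.cons (nat_lit 204) (C.node (nat_lit 2) (nat_lit 3) (nat_lit 9) (C.cons (nat_lit 1548) (C.miq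 (nat_lit 1395046816) (nat_lit 246662797382505481579597569)) (C.cons (nat_lit 780) (C.node (nat_lit 2) (nat_lit 9) (nat_lit 11) (C.cons (nat_lit 2630) (C.miq (nat_lit 2727544501) (nat_lit 942981785389512702422419681)) (C.cons (nat_lit 2628) (C.miq (nat_lit 2727544501) (nat_lit 942981785389512693832485089)) (C.cons (nat_lit 2566) (C.miq (nat_lit 1804759171) (nat_lit 3102107416906738618128400777)) (C.cons (nat_lit 2564) (C.miq (nat_lit 1804759171) (nat_lit 3099689565267509359778988425)) C.nil))))) (C.cons (nat_lit 524) (C.node (nat_lit 2) (nat_lit 3) (nat_lit 8) (C.cons (nat_lit 1292) (C.miq (nat_lit 3123054647) (nat_lit 1321397851369220164421419401)) (C.cons (nat_lit 300) (C.node (nat_lit 2) (nat_lit 5) (nat_lit 7) (C.cons (nat_lit 166) (C.miq (nat_lit 2171936835) (nat_lit 200687220153283504160376861)) (C.cons (nat_lit 164) (C.node (nat_lit 1) (nat_lit 5) (nat_lit 7) (C.cons (nat_lit 418) (C.node (nat_lit 5) (nat_lit 8) (nat_lit 11) (C.cons (nat_lit 2336)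 (C.node (nat_lit 5) (nat_lit 8) (nat_lit 9) (C.cons (nat_lit 864) (C.miq (nat_lit 1196821144) (nat_lit 2747894604866419436275371777)) (C.cons (nat_lit 800) (C.node (nat_lit 3) (nat_lit 4) (nat_lit 8) (C.cons (nat_lit 1304) (C.miq (nat_lit 1731464104) (nat_lit 222448568001651008668700417)) (C.cons (nat_lit 792) (C.miq (nat_lit 1697909656) (nat_lit 222448568001648397295030017)) (C.cons (nat_lit 282) (C.miq (nat_lit 3045263124) (nat_lit 362716060411624264528692371)) (C.cons (nat_lit 280) (C.node (nat_lit 1) (nat_lit 2) (nat_lit 3) (C.cons (nat_lit 1038) (C.node (nat_lit 1) (nat_lit 2) (nat_lit 7) (C.cons (nat_lit 2182) (C.miq (nat_lit 1461324579) (nat_lit 1415671781190971258003392541)) (C.cons (nat_lit 134) (C.node (nat_lit 1) (nat_lit 7) (nat_lit 11) C.nil) C.nil))) (C.cons (nat_lit 14) (C.node (nat_lit 2) (nat_lit 3) (nat_lit 10) (C.cons (nat_lit 1036) (C.node (nat_lit 1) (nat_lit 2) (nat_lit 7) (C.cons (nat_lit 2182) (C.node (nat_lit 2) (nat_lit 7)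 (nat_lit 8) (C.cons (nat_lit 388) (C.node (nat_lit 7) (nat_lit 8) (nat_lit 11) C.nil) C.nil)) (C.cons (nat_lit 134) (C.node (nat_lit 1) (nat_lit 7) (nat_lit 11) C.nil) C.nil))) C.nil)) C.nil))) C.nil))))) C.nil))) C.nil)) (C.cons (nat_lit 162)
  (C.miq (nat_lit 2171936835) (nat_lit 195851516874824987461552157)) C.nil))) C.nil))) (C.cons (nat_lit 268) (C.node (nat_lit 2) (nat_lit 3) (nat_lit 5) (C.cons (nat_lit 46) (C.node (nat_lit 2) (nat_lit 3) (nat_lit 10) (C.cons (nat_lit 1036) (C.node (nat_lit 1) (nat_lit 5) (nat_lit 7) (C.cons (nat_lit 418) (C.miq (nat_lit 2501423904) (nat_lit 505401847274737250448377885)) (C.cons (nat_lit 162) (C.node (nat_lit 2) (nat_lit 5) (nat_lit 7) (C.cons (nat_lit 420) (C.miq (nat_lit 3039335184) (nat_lit 507819698913966508797788683)) (C.cons (nat_lit 164) (C.node (nat_lit 5) (nat_lit 7) (nat_lit 8) C.nil) C.nil))) C.nil))) C.nil)) (C.cons (nat_lit 44) (C.node (nat_lit 1) (nat_lit 2) (nat_lit 3) (C.cons (nat_lit 1038) (C.node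 (nat_lit 2) (nat_lit 9) (nat_lit 10) (C.cons (nat_lit 1556) (C.miq (nat_lit 1732381594) (nat_lit 178941184234041918153297665)) (C.cons (nat_lit 1540) (C.node (nat_lit 3) (nat_lit 8) (nat_lit 10) (C.cons (nat_lit 1352) (C.miq (nat_lit 2590115895) (nat_lit 1321367820069868422969426313)) (C.cons (nat_lit 1304) (C.miq (nat_lit 1731464104) (nat_lit 222448568001651008668700417)) (C.cons (nat_lit 1288) (C.node (nat_lit 3) (nat_lit 4) (nat_lit 8) (C.cons (nat_lit 792) (C.miq (nat_lit 1697909656) (nat_lit 222448568001648397295030017)) (C.cons (nat_lit 282) (C.miq (nat_lit 1647839764) (nat_lit 323998336517130066679432339)) (C.cons (nat_lit 280) (C.node (nat_lit 3) (nat_lit 4) (nat_lit 9) (C.cons (nat_lit 1624) (C.miq (nat_lit 1663584784) (nat_lit 323998336666593279311545491)) (C.cons (nat_lit 536) (C.miq (nat_lit 2739490999) (nat_lit 648015525291170020063185121)) C.nil))) C.nil)))) C.nil)))) C.nil))) (C.cons (nat_lit 14) (C.node (nat_lit 2) (nat_lit 3) (nat_lit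 10) (C.cons (nat_lit 1036) (C.node (nat_lit 1) (nat_lit 5) (nat_lit 7) (C.cons (nat_lit 418) (C.miq (nat_lit 2184515655) (nat_lit 53200446876103333813683347)) (C.cons (nat_lit 166) (C.node (nat_lit 5) (nat_lit 7) (nat_lit 8) (C.cons (nat_lit 416) (C.node (nat_lit 1) (nat_lit 2) (nat_lit 10) (C.cons (nat_lit 3078) (C.miq (nat_lit 2275476402) (nat_lit 1415656986373055593497102365)) (C.cons (nat_lit 1542) (C.miq (nat_lit 632887050) (nat_lit 3143235575924132123211007123)) (C.cons (nat_lit 1030) (C.node (nat_lit 2) (nat_lit 7) (nat_lit 8) (C.cons (nat_lit 2436) (C.node (nat_lit 2) (nat_lit 5) (nat_lit 11) C.nil) C.nil)) C.nil)))) C.nil)) (C.cons (nat_lit 162) (C.node (nat_lit 5) (nat_lit 8) (nat_lit 9) (C.cons (nat_lit 868) (C.miq (nat_lit 561348777) (nat_lit 195861994625458854585962241)) (C.cons (nat_lit 866) (C.miq (nat_lit 1196821144) (nat_lit 2747894604866419436275502849)) (C.cons (nat_lit 864) (C.miq (nat_lit 1196821144) (nat_lit 2747894604866419436275371777))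 (C.cons (nat_lit 804) (C.miq (nat_lit 561348777) (nat_lit 195860814033838137174658817)) (C.cons (nat_lit 802) (C.miq (nat_lit 305496249) (nat_lit 53207530425827638439841537)) (C.cons (nat_lit 800) (C.node (nat_lit 1) (nat_lit 2) (nat_lit 7) (C.cons (nat_lit 2182) (C.node (nat_lit 7) (nat_lit 8) (nat_lit 11) (C.cons (nat_lit 2432) (C.node (nat_lit 1) (nat_lit 3) (nat_lit 4) C.nil) C.nil)) (C.cons (nat_lit 134) (C.node (nat_lit 1) (nat_lit 3) (nat_lit 4) C.nil) C.nil))) C.nil))))))) C.nil)))) C.nil)) C.nil))) C.nil))) C.nil)))) C.nil)))) (C.cons (nat_lit 140) (C.node (nat_lit 3) (nat_lit 6) (nat_lit 7) (C.cons (nat_lit 200) (C.node (nat_lit 7) (nat_lit 8) (nat_lit 9) (C.cons (nat_lit 962) (C.miq (nat_lit 611388312) (nat_lit 1415656986847057289475657473)) (C.cons (nat_lit 960) (C.node (nat_lit 1) (nat_lit 7) (nat_lit 9) C.nil) (C.cons (nat_lit 898) (C.miq (nat_lit 611388312) (nat_lit 1415656986847057289471463169)) C.nil)))) C.nil)) C.nil))) C.nil)))))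 C.nil))) C.nil))) C.nil)) C.nil))) C.nil)) C.nil))) C.nil))) (C.cons (nat_lit 1664) (C.miq (nat_lit 1519857844) (nat_lit 2011655958339439856612018205)) C.nil)))) (C.cons (nat_lit 2568) (C.miq (nat_lit 1404635764) (nat_lit 3104531853693577700333061267)) C.nil)))) (C.cons (nat_lit 2186) (C.miq (nat_lit 2876442949) (nat_lit 2642731488541174875729429041))
  (C.cons (nat_lit 2184) (C.miq (nat_lit 2876442949) (nat_lit 2640313636901945617380016689)) C.nil)))) (C.cons (nat_lit 152) (C.node (nat_lit 3) (nat_lit 7) (nat_lit 11) (C.cons (nat_lit 3208) (C.miq (nat_lit 1400113849) (nat_lit 183767073504633614242942721)) (C.cons (nat_lit 2186) (C.node (nat_lit 3) (nat_lit 10) (nat_lit 11) (C.cons (nat_lit 3144) (C.node (nat_lit 3) (nat_lit 9) (nat_lit 11) (C.cons (nat_lit 2600) (C.miq (nat_lit 1094256565) (nat_lit 632278552611492996126869729)) (C.cons (nat_lit 2568) (C.node (nat_lit 3) (nat_lit 5) (nat_lit 11) (C.cons (nat_lit 2344) (C.node (nat_lit 1) (nat_lit 3)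 (nat_lit 10) (C.cons (nat_lit 1290) (C.miq (nat_lit 1394063520) (nat_lit 2642753771786641803712859905)) (C.cons (nat_lit 1038) (C.miq (nat_lit 1729760050) (nat_lit 1415672297699805339050706973)) (C.cons (nat_lit 1034) (C.node (nat_lit 3) (nat_lit 4) (nat_lit 10) (C.cons (nat_lit 1560) (C.miq (nat_lit 1464011674) (nat_lit 183776371003666370984939265)) (C.cons (nat_lit 1304) (C.miq (nat_lit 1397209248) (nat_lit 183798654690486122490040065)) (C.cons (nat_lit 1048) (C.node (nat_lit 3) (nat_lit 8) (nat_lit 10) (C.cons (nat_lit 1292) (C.miq (nat_lit 1344845475) (nat_lit 317990730366553564683963464)) (C.cons (nat_lit 1288) (C.node (nat_lit 1) (nat_lit 7) (nat_lit 8) (C.cons (nat_lit 962) (C.miq (nat_lit 611388312) (nat_lit 1415656986847057289475657473)) (C.cons (nat_lit 930) (C.miq (nat_lit 611388312) (nat_lit 1415656986847057289473560321)) (C.cons (nat_lit 898) (C.miq (nat_lit 611388312) (nat_lit 1415656986847057289471463169)) (C.cons (nat_lit 450) (C.miq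 (nat_lit 1639221040) (nat_lit 2497646960003249843516277129)) (C.cons (nat_lit 418) (C.miq (nat_lit 364148784) (nat_lit 2533930119167239671873601929)) (C.cons (nat_lit 386) (C.node (nat_lit 1) (nat_lit 8) (nat_lit 11) (C.cons (nat_lit 2370) (C.node (nat_lit 1) (nat_lit 3) (nat_lit 8) (C.cons (nat_lit 282) (C.miq (nat_lit 1904653120) (nat_lit 2865196122551256196156819485)) (C.cons (nat_lit 266) (C.node (nat_lit 1) (nat_lit 8) (nat_lit 10) (C.cons (nat_lit 1314) (C.miq (nat_lit 414491952) (nat_lit 2804729503013118186140533801)) (C.cons (nat_lit 1282) (C.node (nat_lit 2) (nat_lit 6) (nat_lit 11) (C.cons (nat_lit 2628) (C.miq (nat_lit 1265269024) (nat_lit 3800884378766824063432458885)) (C.cons (nat_lit 2116) (C.node (nat_lit 6) (nat_lit 9) (nat_lit 11) (C.cons (nat_lit 2624) (C.node (nat_lit 3) (nat_lit 4) (nat_lit 5) (C.cons (nat_lit 122) (C.miq (nat_lit 2587102053) (nat_lit 1266964608660715615081335009)) (C.cons (nat_lit 120) (C.miq (nat_lit 2587102053)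 (nat_lit 1266964608660715615081203937)) (C.cons (nat_lit 58) (C.miq (nat_lit 1369977867) (nat_lit 1549886139930393955469953053)) (C.cons (nat_lit 56) (C.node (nat_lit 1) (nat_lit 3) (nat_lit 4) (C.cons (nat_lit 90) (C.node (nat_lit 1) (nat_lit 6) (nat_lit 7) (C.cons (nat_lit 706) (C.miq (nat_lit 660867347) (nat_lit 251494884548838355308773899)) (C.cons (nat_lit 198) (C.miq (nat_lit 2551319399) (nat_lit 317959389789730580239616225)) (C.cons (nat_lit 194) (C.node (nat_lit 1) (nat_lit 7) (nat_lit 9) (C.cons (nat_lit 674) (C.miq (nat_lit 1125714805) (nat_lit 632278552866509324900501729)) (C.cons (nat_lit 642) (C.node (nat_lit 1) (nat_lit 2) (nat_lit 3) (C.cons (nat_lit 46) (C.node (nat_lit 1) (nat_lit 2) (nat_lit 11) C.nil) (C.cons (nat_lit 14) (C.node (nat_lit 1) (nat_lit 3) (nat_lit 5) C.nil) C.nil))) C.nil))) C.nil)))) (C.cons (nat_lit 26) (C.node (nat_lit 1) (nat_lit 3) (nat_lit 6) (C.cons (nat_lit 110) (C.miq (nat_lit 2168108624) (nat_lit 1250100152092609852354398433))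 (C.cons (nat_lit 106) (C.miq (nat_lit 2168108624) (nat_lit 1250100152092609835174529249)) (C.cons (nat_lit 78) (C.miq (nat_lit 2786636576) (nat_lit 2865225047315615924244383773)) (C.cons (nat_lit 74) (C.node (nat_lit 1) (nat_lit 2) (nat_lit 3) (C.cons (nat_lit 14) (C.node (nat_lit 1) (nat_lit 3) (nat_lit 5) C.nil) C.nil)) C.nil))))) C.nil))) C.nil))))) C.nil)) C.nil))) C.nil))) C.nil))) (C.cons (nat_lit 2306) (C.node (nat_lit 6) (nat_lit 8) (nat_lit 11)
  (C.cons (nat_lit 2372) (C.miq (nat_lit 674917200) (nat_lit 1557116618622583653792286945)) (C.cons (nat_lit 2368) (C.node (nat_lit 2) (nat_lit 8) (nat_lit 11) (C.cons (nat_lit 2436) (C.node (nat_lit 7) (nat_lit 10) (nat_lit 11) (C.cons (nat_lit 3200) (C.node (nat_lit 2) (nat_lit 4) (nat_lit 7) (C.cons (nat_lit 180) (C.miq (nat_lit 1350715831) (nat_lit 317950811130504699730725520)) (C.cons (nat_lit 148) (C.node (nat_lit 5) (nat_lit 10) (nat_lit 11) (C.cons (nat_lit 3110) (C.miq (nat_lit 1399961610) (nat_lit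 2642769211711427646021897985)) (C.cons (nat_lit 3108) (C.miq (nat_lit 708359431) (nat_lit 1557141392807034735271938273)) (C.cons (nat_lit 3106) (C.miq (nat_lit 1399961610) (nat_lit 2642769137924451351183691521)) (C.cons (nat_lit 3104) (C.node (nat_lit 1) (nat_lit 10) (nat_lit 11) (C.cons (nat_lit 3074) (C.node (nat_lit 2) (nat_lit 10) (nat_lit 11) C.nil) C.nil)) C.nil))))) C.nil))) C.nil)) (C.cons (nat_lit 2308) (C.node (nat_lit 7) (nat_lit 8) (nat_lit 11) (C.cons (nat_lit 2432) (C.node (nat_lit 2) (nat_lit 7) (nat_lit 11) (C.cons (nat_lit 3204) (C.node (nat_lit 1) (nat_lit 10) (nat_lit 11) (C.cons (nat_lit 3074) (C.node (nat_lit 5) (nat_lit 10) (nat_lit 11) C.nil) C.nil)) (C.cons (nat_lit 2180) (C.node (nat_lit 7) (nat_lit 10) (nat_lit 11) C.nil) C.nil))) C.nil)) C.nil))) C.nil))) C.nil))) C.nil))))))) C.nil))) C.nil)))) C.nil)))) (C.cons (nat_lit 2088) (C.node (nat_lit 3) (nat_lit 8) (nat_lit 11) (C.cons (nat_lit 2312) (C.node (nat_lit 7) (nat_lit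 8) (nat_lit 11) (C.cons (nat_lit 2436) (C.node (nat_lit 7) (nat_lit 10) (nat_lit 11) (C.cons (nat_lit 3200) (C.node (nat_lit 2) (nat_lit 4) (nat_lit 7) (C.cons (nat_lit 180) (C.miq (nat_lit 1350715831) (nat_lit 317950811130504699730725520)) (C.cons (nat_lit 148) (C.node (nat_lit 4) (nat_lit 5) (nat_lit 7) (C.cons (nat_lit 432) (C.node (nat_lit 1) (nat_lit 7) (nat_lit 8) (C.cons (nat_lit 962) (C.miq (nat_lit 611388312) (nat_lit 1415656986847057289475657473)) (C.cons (nat_lit 898) (C.miq (nat_lit 611388312) (nat_lit 1415656986847057289471463169)) (C.cons (nat_lit 450) (C.miq (nat_lit 1639221040) (nat_lit 2497646960003249843516277129)) (C.cons (nat_lit 386) (C.node (nat_lit 5) (nat_lit 8) (nat_lit 11) (C.cons (nat_lit 2338) (C.node (nat_lit 6) (nat_lit 8) (nat_lit 11) (C.cons (nat_lit 2368) (C.node (nat_lit 1) (nat_lit 10) (nat_lit 11) (C.cons (nat_lit 3074) (C.node (nat_lit 2) (nat_lit 10) (nat_lit 11) C.nil) C.nil)) C.nil)) (C.cons (nat_lit 2336) (C.node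 (nat_lit 1) (nat_lit 8) (nat_lit 11) (C.cons (nat_lit 2370) (C.node (nat_lit 2) (nat_lit 6) (nat_lit 11) (C.cons (nat_lit 2116) (C.node (nat_lit 6) (nat_lit 9) (nat_lit 11) C.nil) C.nil)) (C.cons (nat_lit 2306) (C.node (nat_lit 6) (nat_lit 8) (nat_lit 11) C.nil) C.nil))) C.nil))) C.nil))))) (C.cons (nat_lit 176) (C.node (nat_lit 4) (nat_lit 7) (nat_lit 8) (C.cons (nat_lit 400) (C.node (nat_lit 5) (nat_lit 8) (nat_lit 11) (C.cons (nat_lit 2338) (C.node (nat_lit 6) (nat_lit 8) (nat_lit 11) (C.cons (nat_lit 2368) (C.node (nat_lit 1) (nat_lit 10) (nat_lit 11) (C.cons (nat_lit 3074) (C.node (nat_lit 2) (nat_lit 10) (nat_lit 11) C.nil) C.nil)) C.nil)) (C.cons (nat_lit 2336) (C.node (nat_lit 1) (nat_lit 8) (nat_lit 11) (C.cons (nat_lit 2370) (C.node (nat_lit 2) (nat_lit 6) (nat_lit 11) (C.cons (nat_lit 2116) (C.node (nat_lit 6) (nat_lit 9) (nat_lit 11) C.nil) C.nil)) (C.cons (nat_lit 2306) (C.node (nat_lit 6) (nat_lit 8) (nat_lit 11) C.nil) C.nil))) C.nil)))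 C.nil)) C.nil))) C.nil))) C.nil)) (C.cons (nat_lit 2432) (C.node (nat_lit 2) (nat_lit 7) (nat_lit 11) (C.cons (nat_lit 3204) (C.node (nat_lit 6) (nat_lit 7) (nat_lit 10) (C.cons (nat_lit 1728) (C.miq (nat_lit 611715994) (nat_lit 251476733355750573211651841)) (C.cons (nat_lit 1472) (C.miq (nat_lit 660912768) (nat_lit 251494885269136110672482049)) (C.cons (nat_lit 1216) (C.node (nat_lit 1) (nat_lit 10) (nat_lit 11) (C.cons (nat_lit 3106) (C.node (nat_lit 5) (nat_lit 9) (nat_lit 11) (C.cons (nat_lit 2596) (C.miq (nat_lit 1537512048) (nat_lit 3733173280324123043243950725))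
  (C.cons (nat_lit 2592) (C.node (nat_lit 1) (nat_lit 8) (nat_lit 11) (C.cons (nat_lit 2306) (C.node (nat_lit 2) (nat_lit 5) (nat_lit 11) C.nil) C.nil)) C.nil))) (C.cons (nat_lit 3074) (C.node (nat_lit 5) (nat_lit 10) (nat_lit 11) (C.cons (nat_lit 3104) (C.node (nat_lit 2) (nat_lit 8) (nat_lit 11) (C.cons (nat_lit 2372) (C.miq (nat_lit 642234378) (nat_lit 251515674515515125980663553)) (C.cons (nat_lit 2340) (C.node (nat_lit 1) (nat_lit 5) (nat_lit 11) C.nil) C.nil))) C.nil)) C.nil))) C.nil)))) (C.cons (nat_lit 2180) (C.node (nat_lit 7) (nat_lit 10) (nat_lit 11) (C.cons (nat_lit 3200) (C.node (nat_lit 6) (nat_lit 9) (nat_lit 11) (C.cons (nat_lit 2630) (C.miq (nat_lit 1265269024) (nat_lit 3800884378766824072022393477)) (C.cons (nat_lit 2628) (C.miq (nat_lit 1265269024) (nat_lit 3800884378766824063432458885)) (C.cons (nat_lit 2626) (C.node (nat_lit 1) (nat_lit 8) (nat_lit 11) (C.cons (nat_lit 2338) (C.node (nat_lit 1) (nat_lit 2) (nat_lit 11) C.nil) C.nil))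 C.nil)))) C.nil)) C.nil))) C.nil))) C.nil)) C.nil))) C.nil))) (C.cons (nat_lit 3080) (C.node (nat_lit 6) (nat_lit 10) (nat_lit 11) (C.cons (nat_lit 3138) (C.node (nat_lit 1) (nat_lit 3) (nat_lit 10) (C.cons (nat_lit 1290) (C.miq (nat_lit 1631042176) (nat_lit 2642753772010132935170133761)) (C.cons (nat_lit 1038) (C.miq (nat_lit 1906750240) (nat_lit 3793651152015294649375983645)) (C.cons (nat_lit 1034) (C.node (nat_lit 1) (nat_lit 8) (nat_lit 10) (C.cons (nat_lit 1314) (C.node (nat_lit 1) (nat_lit 8) (nat_lit 11) (C.cons (nat_lit 2306) (C.node (nat_lit 1) (nat_lit 2) (nat_lit 10) (C.cons (nat_lit 1542) (C.miq (nat_lit 2544967786) (nat_lit 2642740286738502158680982597)) (C.cons (nat_lit 1030) (C.node (nat_lit 1) (nat_lit 9) (nat_lit 10) (C.cons (nat_lit 1538) (C.node (nat_lit 3) (nat_lit 5) (nat_lit 11) (C.cons (nat_lit 2600) (C.miq (nat_lit 1094256565) (nat_lit 632278552611492996126869729)) (C.cons (nat_lit 2344) (C.miq (nat_lit 414491952) (nat_lit 2804729503013118186140533801))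 (C.cons (nat_lit 2088) (C.node (nat_lit 3) (nat_lit 8) (nat_lit 11) (C.cons (nat_lit 2376) (C.miq (nat_lit 1668397066) (nat_lit 2642769728229268909144084225)) (C.cons (nat_lit 2312) (C.node (nat_lit 5) (nat_lit 8) (nat_lit 11) (C.cons (nat_lit 2340) (C.miq (nat_lit 2763329576) (nat_lit 2533932757263591723063574791)) (C.cons (nat_lit 2336) (C.node (nat_lit 1) (nat_lit 7) (nat_lit 8) (C.cons (nat_lit 962) (C.miq (nat_lit 611388312) (nat_lit 1415656986847057289475657473)) (C.cons (nat_lit 898) (C.miq (nat_lit 611388312) (nat_lit 1415656986847057289471463169)) (C.cons (nat_lit 450) (C.miq (nat_lit 1639221040) (nat_lit 2497646960003249843516277129)) (C.cons (nat_lit 386) (C.node (nat_lit 1) (nat_lit 4) (nat_lit 5) (C.cons (nat_lit 122) (C.miq (nat_lit 2585004901) (nat_lit 1415662484473314977800390881)) (C.cons (nat_lit 118) (C.miq (nat_lit 2585004901) (nat_lit 1415662484473314977800128737)) (C.cons (nat_lit 114) (C.miq (nat_lit 2585004901) (nat_lit 1415662484473314977799866593))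 (C.cons (nat_lit 58) (C.miq (nat_lit 2235277632) (nat_lit 2524307965669191203816277139)) (C.cons (nat_lit 54) (C.miq (nat_lit 730153121) (nat_lit 2824051711328593756112946323)) (C.cons (nat_lit 50) (C.node (nat_lit 1) (nat_lit 2) (nat_lit 7) C.nil) C.nil))))))) C.nil))))) C.nil))) C.nil))) C.nil)))) C.nil)) C.nil))) C.nil)) (C.cons (nat_lit 1282) (C.node (nat_lit 1) (nat_lit 8) (nat_lit 11) (C.cons (nat_lit 2338) (C.node (nat_lit 3) (nat_lit 5) (nat_lit 11) (C.cons (nat_lit 2600) (C.miq (nat_lit 1094256565) (nat_lit 632278552611492996126869729)) (C.cons (nat_lit 2088) (C.node (nat_lit 3) (nat_lit 8) (nat_lit 11) (C.cons (nat_lit 2376) (C.miq (nat_lit 1668397066) (nat_lit 2642769728229268909144084225)) (C.cons (nat_lit 2312) (C.node (nat_lit 1) (nat_lit 2) (nat_lit 7) (C.cons (nat_lit 198) (C.miq (nat_lit 2601978466) (nat_lit 2642723740908665781734474821)) (C.cons (nat_lit 166) (C.miq (nat_lit 2551319383) (nat_lit 317959389789730442798565601)) (C.cons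 (nat_lit 134) (C.node (nat_lit 1) (nat_lit 5) (nat_lit 7) (C.cons (nat_lit 674)
  (C.miq (nat_lit 1125714805) (nat_lit 632278552866509324900501729)) (C.cons (nat_lit 162) (C.node (nat_lit 1) (nat_lit 7) (nat_lit 8) (C.cons (nat_lit 962) (C.miq (nat_lit 1192409472) (nat_lit 162034374476913872950726401)) (C.cons (nat_lit 898) (C.miq (nat_lit 1192409472) (nat_lit 162034374476913598072819457)) (C.cons (nat_lit 450) (C.miq (nat_lit 1639221040) (nat_lit 2497646960003249843516277129)) (C.cons (nat_lit 386) (C.node (nat_lit 1) (nat_lit 2) (nat_lit 11) (C.cons (nat_lit 2566) (C.node (nat_lit 5) (nat_lit 9) (nat_lit 11) (C.cons (nat_lit 2592) (C.node (nat_lit 7) (nat_lit 8) (nat_lit 11) (C.cons (nat_lit 2436) (C.miq (nat_lit 824641976) (nat_lit 162003309546003711129816833)) (C.cons (nat_lit 2432) (C.node (nat_lit 1) (nat_lit 2) (nat_lit 10) (C.cons (nat_lit 1062) (C.node (nat_lit 1) (nat_lit 9) (nat_lit 10) C.nil) C.nil)) C.nil))) C.nil)) (C.cons (nat_lit 2054)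 (C.node (nat_lit 1) (nat_lit 9) (nat_lit 11) C.nil) C.nil))) C.nil))))) C.nil))) C.nil)))) C.nil))) C.nil))) (C.cons (nat_lit 2306) (C.node (nat_lit 5) (nat_lit 10) (nat_lit 11) (C.cons (nat_lit 3108) (C.node (nat_lit 7) (nat_lit 10) (nat_lit 11) (C.cons (nat_lit 3200) (C.node (nat_lit 1) (nat_lit 2) (nat_lit 10) (C.cons (nat_lit 1542) (C.miq (nat_lit 2544967786) (nat_lit 2642740286738502158680982597)) (C.cons (nat_lit 1030) (C.node (nat_lit 1) (nat_lit 2) (nat_lit 11) (C.cons (nat_lit 2566) (C.node (nat_lit 1) (nat_lit 5) (nat_lit 11) (C.cons (nat_lit 2082) (C.node (nat_lit 2) (nat_lit 7) (nat_lit 11) (C.cons (nat_lit 2436) (C.miq (nat_lit 657569801) (nat_lit 2642759176708547245840731905)) (C.cons (nat_lit 2180) (C.node (nat_lit 7) (nat_lit 8) (nat_lit 11) (C.cons (nat_lit 2432) (C.node (nat_lit 2) (nat_lit 6) (nat_lit 11) C.nil) C.nil)) C.nil))) C.nil)) (C.cons (nat_lit 2054) (C.node (nat_lit 2) (nat_lit 9) (nat_lit 11) (C.cons (nat_lit 2628) (C.miq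 (nat_lit 1265269024) (nat_lit 3793630823849136288384221829)) (C.cons (nat_lit 2564) (C.node (nat_lit 1) (nat_lit 5) (nat_lit 10) (C.cons (nat_lit 1570) (C.node (nat_lit 1) (nat_lit 2) (nat_lit 3) (C.cons (nat_lit 110) (C.miq (nat_lit 2602633811) (nat_lit 2483143282216757609253176361)) (C.cons (nat_lit 78) (C.miq (nat_lit 1362274571) (nat_lit 94353546852440124753252097)) (C.cons (nat_lit 46) (C.miq (nat_lit 2602633811) (nat_lit 2483143282216757609248982057)) (C.cons (nat_lit 14) (C.miq (nat_lit 1362274571) (nat_lit 16982294397103857572056833)) C.nil))))) (C.cons (nat_lit 1058) (C.node (nat_lit 1) (nat_lit 9) (nat_lit 10) (C.cons (nat_lit 1538) (C.node (nat_lit 1) (nat_lit 5) (nat_lit 11) C.nil) C.nil)) C.nil))) C.nil))) C.nil))) C.nil))) C.nil)) (C.cons (nat_lit 3104) (C.node (nat_lit 2) (nat_lit 10) (nat_lit 11) (C.cons (nat_lit 3204) (C.node (nat_lit 7) (nat_lit 8) (nat_lit 11) (C.cons (nat_lit 2432) (C.node (nat_lit 2) (nat_lit 6) (nat_lit 11) (C.cons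 (nat_lit 2628) (C.miq (nat_lit 1265269024) (nat_lit 3793630823849136288384221829)) (C.cons (nat_lit 2372) (C.miq (nat_lit 642234378) (nat_lit 251515674515515125980663553)) (C.cons (nat_lit 2116) (C.node (nat_lit 6) (nat_lit 8) (nat_lit 11) (C.cons (nat_lit 2376) (C.miq (nat_lit 1668397066) (nat_lit 2642769728229268909144084225)) (C.cons (nat_lit 2368) (C.node (nat_lit 2) (nat_lit 8) (nat_lit 11) (C.cons (nat_lit 2340) (C.node (nat_lit 3) (nat_lit 8) (nat_lit 11) C.nil) C.nil)) C.nil))) C.nil)))) C.nil)) (C.cons (nat_lit 3076) (C.node (nat_lit 7) (nat_lit 10) (nat_lit 11) (C.cons (nat_lit 3200) (C.node (nat_lit 2) (nat_lit 7) (nat_lit 11) (C.cons (nat_lit 2436) (C.node (nat_lit 2) (nat_lit 4) (nat_lit 7) (C.cons (nat_lit 180) (C.miq (nat_lit 1350715831) (nat_lit 317950811130504699730725520)) (C.cons (nat_lit 148) (C.node (nat_lit 2) (nat_lit 6) (nat_lit 11) (C.cons (nat_lit 2628) (C.miq (nat_lit 1265269024) (nat_lit 3793630823849136288384221829)) (C.cons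 (nat_lit 2116) (C.node (nat_lit 6) (nat_lit 8) (nat_lit 11) (C.cons (nat_lit 2376) (C.miq (nat_lit 1668397066) (nat_lit 2642769728229268909144084225)) C.nil)) C.nil))) C.nil))) (C.cons (nat_lit 2180)
  (C.node (nat_lit 7) (nat_lit 8) (nat_lit 11) C.nil) C.nil))) C.nil)) C.nil))) C.nil))) C.nil))) C.nil))) C.nil)))) (C.cons (nat_lit 3136) (C.node (nat_lit 7) (nat_lit 8) (nat_lit 11) (C.cons (nat_lit 2436) (C.node (nat_lit 7) (nat_lit 10) (nat_lit 11) (C.cons (nat_lit 3200) (C.node (nat_lit 2) (nat_lit 4) (nat_lit 7) (C.cons (nat_lit 180) (C.miq (nat_lit 1350715831) (nat_lit 317950811130504699730725520)) (C.cons (nat_lit 148) (C.node (nat_lit 4) (nat_lit 5) (nat_lit 7) (C.cons (nat_lit 432) (C.node (nat_lit 1) (nat_lit 7) (nat_lit 8) (C.cons (nat_lit 962) (C.miq (nat_lit 611388312) (nat_lit 1415656986847057289475657473)) (C.cons (nat_lit 898) (C.miq (nat_lit 611388312) (nat_lit 1415656986847057289471463169)) (C.cons (nat_lit 450) (C.miq (nat_lit 1639221040)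 (nat_lit 2497646960003249843516277129)) (C.cons (nat_lit 386) (C.node (nat_lit 7) (nat_lit 8) (nat_lit 9) (C.cons (nat_lit 960) (C.node (nat_lit 7) (nat_lit 8) (nat_lit 10) (C.cons (nat_lit 1408) (C.node (nat_lit 1) (nat_lit 7) (nat_lit 9) (C.cons (nat_lit 674) (C.miq (nat_lit 1125714805) (nat_lit 632278552866509324900501729)) (C.cons (nat_lit 642) (C.node (nat_lit 3) (nat_lit 8) (nat_lit 9) (C.cons (nat_lit 812) (C.miq (nat_lit 341378947) (nat_lit 678217032780566570312925577)) (C.cons (nat_lit 808) (C.miq (nat_lit 341378947) (nat_lit 678217032780566570312663433)) (C.cons (nat_lit 792) (C.miq (nat_lit 1766553648) (nat_lit 3268977345957456209608769929)) (C.cons (nat_lit 780) (C.miq (nat_lit 812198776) (nat_lit 697564586962651816407337348)) (C.cons (nat_lit 776) (C.node (nat_lit 1) (nat_lit 5) (nat_lit 7) (C.cons (nat_lit 166) (C.node (nat_lit 1) (nat_lit 6) (nat_lit 7) (C.cons (nat_lit 194) (C.node (nat_lit 2) (nat_lit 6) (nat_lit 7) (C.cons (nat_lit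 204) (C.miq (nat_lit 815147911) (nat_lit 697553961638072094214326660)) (C.cons (nat_lit 196) (C.node (nat_lit 5) (nat_lit 7) (nat_lit 10) (C.cons (nat_lit 1696) (C.miq (nat_lit 880085914) (nat_lit 522275600440593444476292865)) (C.cons (nat_lit 1184) (C.node (nat_lit 2) (nat_lit 3) (nat_lit 7) (C.cons (nat_lit 1164) (C.node (nat_lit 3) (nat_lit 6) (nat_lit 7) C.nil) C.nil)) C.nil))) C.nil))) C.nil)) (C.cons (nat_lit 162) (C.node (nat_lit 1) (nat_lit 2) (nat_lit 7) (C.cons (nat_lit 198) (C.node (nat_lit 2) (nat_lit 6) (nat_lit 11) (C.cons (nat_lit 2628) (C.miq (nat_lit 845613976) (nat_lit 239374562438752358310612737)) (C.cons (nat_lit 2116) (C.node (nat_lit 6) (nat_lit 8) (nat_lit 11) (C.cons (nat_lit 2376) (C.miq (nat_lit 913488016) (nat_lit 239405626839926339205926657)) (C.cons (nat_lit 2370) (C.miq (nat_lit 2551319399) (nat_lit 317959389789730580239616225)) (C.cons (nat_lit 2368) (C.node (nat_lit 3) (nat_lit 6) (nat_lit 7) (C.cons (nat_lit 200) (C.node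 (nat_lit 6) (nat_lit 7) (nat_lit 10) C.nil) C.nil)) C.nil)))) C.nil))) (C.cons (nat_lit 134) (C.node (nat_lit 1) (nat_lit 6) (nat_lit 7) (C.cons (nat_lit 194) (C.node (nat_lit 2) (nat_lit 6) (nat_lit 7) (C.cons (nat_lit 204) (C.miq (nat_lit 815147911) (nat_lit 697553961638072094214326660)) C.nil)) C.nil)) C.nil))) C.nil))) C.nil)))))) C.nil))) C.nil)) (C.cons (nat_lit 896) (C.node (nat_lit 6) (nat_lit 7) (nat_lit 8) (C.cons (nat_lit 1472) (C.node (nat_lit 2) (nat_lit 4) (nat_lit 8) (C.cons (nat_lit 1300) (C.miq (nat_lit 1747679808) (nat_lit 2944985226444852960706757779)) (C.cons (nat_lit 788) (C.miq (nat_lit 1461980041) (nat_lit 178931370566193553570270977)) (C.cons (nat_lit 276) (C.node (nat_lit 4) (nat_lit 8) (nat_lit 10) (C.cons (nat_lit 1304) (C.miq (nat_lit 1783330864) (nat_lit 3733204860833591199795052937)) (C.cons (nat_lit 1296) (C.node (nat_lit 2) (nat_lit 7) (nat_lit 10) (C.cons (nat_lit 1188) (C.miq (nat_lit 624994182) (nat_lit 678227547429473659330299328))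 (C.cons (nat_lit 1164) (C.miq (nat_lit 1185024115) (nat_lit 1321394234821094172112191881)) (C.cons (nat_lit 1156) (C.node (nat_lit 5) (nat_lit 7) (nat_lit 10) (C.cons (nat_lit 1696) (C.miq (nat_lit 1466210944) (nat_lit 251466919580656102112562945)) (C.cons (nat_lit 1184)
  (C.node (nat_lit 2) (nat_lit 3) (nat_lit 7) (C.cons (nat_lit 204) (C.miq (nat_lit 3126986867) (nat_lit 1321394235807382490443415945)) (C.cons (nat_lit 172) (C.miq (nat_lit 2270868016) (nat_lit 1431439025053381843311200285)) (C.cons (nat_lit 140) (C.node (nat_lit 2) (nat_lit 5) (nat_lit 7) (C.cons (nat_lit 166) (C.node (nat_lit 2) (nat_lit 6) (nat_lit 7) (C.cons (nat_lit 196) (C.node (nat_lit 1) (nat_lit 6) (nat_lit 7) (C.cons (nat_lit 706) (C.node (nat_lit 3) (nat_lit 6) (nat_lit 7) C.nil) C.nil)) C.nil)) (C.cons (nat_lit 164) (C.node (nat_lit 1) (nat_lit 5) (nat_lit 7) (C.cons (nat_lit 674) (C.miq (nat_lit 1125714805) (nat_lit 632278552866509324900501729)) C.nil)) C.nil))) C.nil))))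 C.nil))) C.nil)))) C.nil))) C.nil)))) (C.cons (nat_lit 448) (C.node (nat_lit 7) (nat_lit 8) (nat_lit 10) (C.cons (nat_lit 1408) (C.ref (nat_lit 255) (nat_lit 205163983024656)) C.nil)) C.nil))) C.nil))) C.nil))))) (C.cons (nat_lit 176) (C.node (nat_lit 4) (nat_lit 7) (nat_lit 8) (C.cons (nat_lit 400) (C.ref (nat_lit 256) (nat_lit 205163983024656)) C.nil)) C.nil))) C.nil))) C.nil)) (C.cons (nat_lit 2432) (C.node (nat_lit 2) (nat_lit 7) (nat_lit 11) (C.cons (nat_lit 3204) (C.node (nat_lit 1) (nat_lit 10) (nat_lit 11) (C.cons (nat_lit 3106) (C.node (nat_lit 1) (nat_lit 2) (nat_lit 10) (C.cons (nat_lit 1542) (C.miq (nat_lit 352955250) (nat_lit 678235830557439667304991876)) (C.cons (nat_lit 1038) (C.miq (nat_lit 1729760050) (nat_lit 1415672297699805339050706973)) (C.cons (nat_lit 1030) (C.node (nat_lit 3) (nat_lit 5) (nat_lit 11) (C.cons (nat_lit 2600) (C.miq (nat_lit 1094256565) (nat_lit 632278552611492996126869729)) (C.cons (nat_lit 2344) (C.miq (nat_lit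 1399961610) (nat_lit 2642769137924451351183691521)) (C.cons (nat_lit 2088) (C.node (nat_lit 3) (nat_lit 8) (nat_lit 11) (C.cons (nat_lit 2376) (C.miq (nat_lit 1796506480) (nat_lit 2497646960545370648601624969)) (C.cons (nat_lit 2312) (C.node (nat_lit 5) (nat_lit 9) (nat_lit 11) (C.cons (nat_lit 2596) (C.miq (nat_lit 1537512048) (nat_lit 3733173280324123043243950725)) (C.cons (nat_lit 2592) (C.node (nat_lit 1) (nat_lit 8) (nat_lit 11) (C.cons (nat_lit 2370) (C.node (nat_lit 1) (nat_lit 2) (nat_lit 11) C.nil) C.nil)) C.nil))) C.nil))) C.nil)))) C.nil)))) (C.cons (nat_lit 3074) (C.node (nat_lit 5) (nat_lit 10) (nat_lit 11) (C.cons (nat_lit 3104) (C.node (nat_lit 2) (nat_lit 8) (nat_lit 11) (C.cons (nat_lit 2372) (C.miq (nat_lit 642234378) (nat_lit 251515674515515125980663553)) (C.cons (nat_lit 2340) (C.node (nat_lit 3) (nat_lit 5) (nat_lit 11) (C.cons (nat_lit 2600) (C.miq (nat_lit 1094256565) (nat_lit 632278552611492996126869729)) (C.cons (nat_lit 2088)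 (C.node (nat_lit 3) (nat_lit 8) (nat_lit 11) (C.cons (nat_lit 2376) (C.miq (nat_lit 1796506480) (nat_lit 2497646960545370648601624969)) C.nil)) C.nil))) (C.cons (nat_lit 2308) (C.node (nat_lit 3) (nat_lit 5) (nat_lit 11) (C.cons (nat_lit 2600) (C.miq (nat_lit 1094256565) (nat_lit 632278552611492996126869729)) (C.cons (nat_lit 2344) (C.node (nat_lit 1) (nat_lit 8) (nat_lit 11) (C.cons (nat_lit 2370) (C.node (nat_lit 2) (nat_lit 6) (nat_lit 11) C.nil) C.nil)) C.nil))) C.nil)))) C.nil)) C.nil))) (C.cons (nat_lit 2180) (C.node (nat_lit 7) (nat_lit 10) (nat_lit 11) (C.cons (nat_lit 3200) (C.node (nat_lit 3) (nat_lit 5) (nat_lit 11) (C.cons (nat_lit 2600) (C.miq (nat_lit 1094256565) (nat_lit 632278552611492996126869729)) (C.cons (nat_lit 2344) (C.node (nat_lit 1) (nat_lit 7) (nat_lit 8) (C.cons (nat_lit 962) (C.miq (nat_lit 611388312) (nat_lit 1415656986847057289475657473)) (C.cons (nat_lit 930) (C.miq (nat_lit 611388312) (nat_lit 1415656986847057289473560321))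 (C.cons (nat_lit 898) (C.miq (nat_lit 611388312) (nat_lit 1415656986847057289471463169)) (C.cons (nat_lit 450) (C.miq (nat_lit 1639221040) (nat_lit 2497646960003249843516277129)) (C.cons (nat_lit 418) (C.miq (nat_lit 364148784) (nat_lit 2533930119167239671873601929)) (C.cons (nat_lit 386) (C.node (nat_lit 1) (nat_lit 8) (nat_lit 11) (C.cons (nat_lit 2370) (C.node (nat_lit 2) (nat_lit 8) (nat_lit 11)
  (C.cons (nat_lit 2308) (C.node (nat_lit 2) (nat_lit 6) (nat_lit 11) (C.cons (nat_lit 2628) (C.miq (nat_lit 1265269024) (nat_lit 3791212972209907030034809477)) C.nil)) C.nil)) (C.cons (nat_lit 2306) (C.node (nat_lit 2) (nat_lit 8) (nat_lit 11) (C.cons (nat_lit 2372) (C.node (nat_lit 1) (nat_lit 10) (nat_lit 11) (C.cons (nat_lit 3106) (C.miq (nat_lit 1399961610) (nat_lit 2642769137924451351183691521)) (C.cons (nat_lit 3078) (C.miq (nat_lit 461677152) (nat_lit 2804729503509640165203182661)) C.nil))) C.nil)) C.nil))) C.nil))))))) (C.cons (nat_lit 2088) (C.node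 (nat_lit 3) (nat_lit 8) (nat_lit 11) (C.cons (nat_lit 2376) (C.miq (nat_lit 1796506480) (nat_lit 2497646960545370648601624969)) (C.cons (nat_lit 2312) (C.node (nat_lit 3) (nat_lit 6) (nat_lit 11) C.nil) C.nil))) C.nil)))) C.nil)) C.nil))) C.nil))) C.nil))) C.nil))) (C.cons (nat_lit 2184) (C.ref (nat_lit 262) (nat_lit 205163983024656)) C.nil)))) C.nil))) List.nil)

theorem ok12_263 : okL par12 (nat_lit 264) c12_263 (nat_lit 263) = true := by decide +kernel

noncomputable def c12_264 : List C :=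
  (List.cons (C.node (nat_lit 4) (nat_lit 6) (nat_lit 11) (C.cons (nat_lit 3152) (C.node (nat_lit 4) (nat_lit 6) (nat_lit 7) (C.cons (nat_lit 216) (C.miq (nat_lit 642190009) (nat_lit 261139875494353131856203521)) (C.cons (nat_lit 212) (C.node (nat_lit 3) (nat_lit 4) (nat_lit 7) (C.cons (nat_lit 184) (C.miq (nat_lit 2722301557) (nat_lit 2510958573429676356627073249)) (C.cons (nat_lit 152) (C.node (nat_lit 4) (nat_lit 9) (nat_lit 10) (C.cons (nat_lit 1560) (C.miq (nat_lit 1464011674) (nat_lit 183776371003666370984939265)) (C.cons (nat_lit 1556) (C.node (nat_lit 3) (nat_lit 4) (nat_lit 10) (C.cons (nat_lit 1304) (C.miq (nat_lit 607623808) (nat_lit 183768623169331841641025281)) (C.cons (nat_lit 1048) (C.node (nat_lit 3) (nat_lit 9) (nat_lit 11) (C.cons (nat_lit 2632) (C.miq (nat_lit 649660999) (nat_lit 3181904655683297217946322067)) (C.cons (nat_lit 2600) (C.miq (nat_lit 977883259) (nat_lit 1881136537154730520457775329)) (C.cons (nat_lit 2568) (C.node (nat_lit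 7) (nat_lit 10) (nat_lit 11) (C.cons (nat_lit 3208) (C.miq (nat_lit 1400113849) (nat_lit 183767073504633614242942721)) (C.cons (nat_lit 3204) (C.miq (nat_lit 1461980073) (nat_lit 256302623021533119336681217)) (C.cons (nat_lit 3200) (C.node (nat_lit 1) (nat_lit 2) (nat_lit 4) (C.cons (nat_lit 54) (C.node (nat_lit 2) (nat_lit 4) (nat_lit 8) (C.cons (nat_lit 276) (C.node (nat_lit 2) (nat_lit 8) (nat_lit 9) (C.cons (nat_lit 876) (C.miq (nat_lit 1948453528) (nat_lit 2510946177239619644473216769)) (C.cons (nat_lit 868) (C.miq (nat_lit 3106293514) (nat_lit 1049405756323929563502806163)) (C.cons (nat_lit 844) (C.miq (nat_lit 1948453528) (nat_lit 2510946177239619644471119617)) (C.cons (nat_lit 836) (C.miq (nat_lit 3106293514) (nat_lit 1010720130096261429912208531)) (C.cons (nat_lit 812) (C.miq (nat_lit 1948453528) (nat_lit 2510946177239619644469022465)) (C.cons (nat_lit 804) (C.miq (nat_lit 2840856609) (nat_lit 678228987022266119597981959)) (C.cons (nat_lit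 780) (C.miq (nat_lit 1948453528) (nat_lit 2510946177239619644466925313)) (C.cons (nat_lit 772) (C.node (nat_lit 3) (nat_lit 7) (nat_lit 11) (C.cons (nat_lit 2186) (C.node (nat_lit 1) (nat_lit 2) (nat_lit 7) (C.cons (nat_lit 134) (C.node (nat_lit 3) (nat_lit 10) (nat_lit 11) (C.cons (nat_lit 3080) (C.node (nat_lit 3) (nat_lit 6) (nat_lit 11) (C.cons (nat_lit 2376) (C.miq (nat_lit 927367339) (nat_lit 256336103332845214392913665)) (C.cons (nat_lit 2120) (C.node (nat_lit 1) (nat_lit 2) (nat_lit 10) (C.cons (nat_lit 3078) (C.miq (nat_lit 2226194082) (nat_lit 2497645594912385865645163589)) (C.cons (nat_lit 1038) (C.miq (nat_lit 1729760050) (nat_lit 1415672297699805339050706973)) (C.cons (nat_lit 1030) (C.node (nat_lit 1) (nat_lit 3) (nat_lit 4) (C.cons (nat_lit 282) (C.miq (nat_lit 2259894385) (nat_lit 2562927939659709466226066579)) (C.cons (nat_lit 90) (C.miq (nat_lit 2606959169) (nat_lit 2562932386311323323761034387)) (C.cons (nat_lit 26) (C.node (nat_lit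 1) (nat_lit 5) (nat_lit 7) (C.cons (nat_lit 930) (C.miq (nat_lit 1192409472) (nat_lit 162034374476913735511772929)) (C.cons (nat_lit 674) (C.miq (nat_lit 1125714805) (nat_lit 632278552866509324900501729)) (C.cons (nat_lit 418) (C.miq (nat_lit 1412895240) (nat_lit 183764435335655014563119367)) (C.cons (nat_lit 162) (C.node (nat_lit 1) (nat_lit 6) (nat_lit 7) (C.cons (nat_lit 962) (C.miq (nat_lit 1192409472) (nat_lit 162034374476913872950726401)) (C.cons (nat_lit 706) (C.miq (nat_lit 2792956084) (nat_lit 853530332089368801587496989)) (C.cons (nat_lit 450) (C.miq (nat_lit 2217828535) (nat_lit 31440372439679515782416609)) (C.cons (nat_lit 194) (C.node (nat_lit 1) (nat_lit 7) (nat_lit 8) (C.cons (nat_lit 898) (C.miq (nat_lit 1192409472) (nat_lit 162034374476913598072819457)) (C.cons (nat_lit 386) (C.node (nat_lit 1) (nat_lit 7) (nat_lit 9) (C.cons (nat_lit 642) (C.node (nat_lit 6) (nat_lit 7) (nat_lit 8) (C.cons (nat_lit 1472) (C.miq (nat_lit 879168424)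 (nat_lit 256299523913359417352916737)) (C.cons (nat_lit 960) (C.miq (nat_lit 2792956084) (nat_lit 1160597490271484611962865693))
  (C.cons (nat_lit 448) (C.node (nat_lit 1) (nat_lit 9) (nat_lit 10) (C.cons (nat_lit 1634) (C.miq (nat_lit 1630841099) (nat_lit 31490215907233049398284033)) (C.cons (nat_lit 1602) (C.miq (nat_lit 1630841099) (nat_lit 31490215898225850143543041)) (C.cons (nat_lit 1570) (C.miq (nat_lit 3121744212) (nat_lit 1245231909171661273333891633)) (C.cons (nat_lit 1538) (C.node (nat_lit 1) (nat_lit 2) (nat_lit 3) (C.cons (nat_lit 78) (C.node (nat_lit 1) (nat_lit 2) (nat_lit 9) C.nil) C.nil)) C.nil))))) C.nil)))) C.nil)) C.nil))) C.nil))))) C.nil))))) C.nil)))) C.nil)))) C.nil))) C.nil)) C.nil)) (C.cons (nat_lit 2184) (C.node (nat_lit 3) (nat_lit 10) (nat_lit 11) (C.cons (nat_lit 3082) (C.node (nat_lit 1) (nat_lit 2) (nat_lit 10) (C.cons (nat_lit 1030) (C.node (nat_lit 3) (nat_lit 6) (nat_lit 11) (C.cons (nat_lit 2376) (C.miq (nat_lit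 927367339) (nat_lit 256336103332845214392913665)) (C.cons (nat_lit 2120) (C.node (nat_lit 1) (nat_lit 8) (nat_lit 10) (C.cons (nat_lit 1378) (C.miq (nat_lit 306610362) (nat_lit 256317693445671796528385793)) (C.cons (nat_lit 1346) (C.miq (nat_lit 306610362) (nat_lit 256317103149861437822734081)) (C.cons (nat_lit 1314) (C.miq (nat_lit 2773188896) (nat_lit 2533979372226108220034056455)) (C.cons (nat_lit 1282) (C.node (nat_lit 1) (nat_lit 9) (nat_lit 10) (C.cons (nat_lit 1634) (C.miq (nat_lit 827636368) (nat_lit 65320309014143966408412929)) (C.cons (nat_lit 1602) (C.miq (nat_lit 2040968224) (nat_lit 1936741093233030499756476445)) (C.cons (nat_lit 1570) (C.miq (nat_lit 827636368) (nat_lit 65320309014143691530505985)) (C.cons (nat_lit 1538) (C.node (nat_lit 5) (nat_lit 9) (nat_lit 10) (C.cons (nat_lit 1696) (C.miq (nat_lit 1397203129) (nat_lit 183788010559152416976015105)) (C.cons (nat_lit 1632) (C.miq (nat_lit 2040968224) (nat_lit 1973008867821469374997661725))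 (C.cons (nat_lit 1568) (C.node (nat_lit 1) (nat_lit 5) (nat_lit 10) (C.cons (nat_lit 1122) (C.node (nat_lit 6) (nat_lit 9) (nat_lit 11) (C.cons (nat_lit 2630) (C.miq (nat_lit 564377168) (nat_lit 3725947690680012218955270369)) (C.cons (nat_lit 2628) (C.node (nat_lit 1) (nat_lit 2) (nat_lit 9) (C.cons (nat_lit 518) (C.node (nat_lit 6) (nat_lit 7) (nat_lit 8) (C.cons (nat_lit 1472) (C.miq (nat_lit 879168424) (nat_lit 256299523913359417352916737)) (C.cons (nat_lit 962) (C.miq (nat_lit 611388312) (nat_lit 1415656986847057289475657473)) (C.cons (nat_lit 960) (C.miq (nat_lit 845613976) (nat_lit 256299523913357166756499201)) (C.cons (nat_lit 450) (C.miq (nat_lit 2174973520) (nat_lit 3725916625749376642841118945)) (C.cons (nat_lit 448) (C.node (nat_lit 1) (nat_lit 7) (nat_lit 9) (C.cons (nat_lit 930) (C.miq (nat_lit 611388312) (nat_lit 1415656986847057289473560321)) (C.cons (nat_lit 898) (C.miq (nat_lit 611388312) (nat_lit 1415656986847057289471463169)) (C.cons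 (nat_lit 706) (C.miq (nat_lit 1116801895) (nat_lit 626245176282323040231098593)) (C.cons (nat_lit 674) (C.miq (nat_lit 2443343200) (nat_lit 1245205492542714545936074977)) (C.cons (nat_lit 642) (C.node (nat_lit 1) (nat_lit 2) (nat_lit 6) (C.cons (nat_lit 78) (C.node (nat_lit 1) (nat_lit 6) (nat_lit 7) (C.cons (nat_lit 194) (C.node (nat_lit 6) (nat_lit 7) (nat_lit 9) (C.cons (nat_lit 1736) (C.miq (nat_lit 2301692514) (nat_lit 632273056233295285597373509)) (C.cons (nat_lit 1728) (C.node (nat_lit 3) (nat_lit 6) (nat_lit 7) (C.cons (nat_lit 200) (C.node (nat_lit 3) (nat_lit 9) (nat_lit 10) (C.cons (nat_lit 1544) (C.node (nat_lit 1) (nat_lit 6) (nat_lit 9) C.nil) C.nil)) C.nil)) (C.cons (nat_lit 712) (C.miq (nat_lit 2792956084) (nat_lit 860783887007056576635734045)) (C.cons (nat_lit 704) (C.miq (nat_lit 2792956084) (nat_lit 851112480450139543238084637)) C.nil))))) C.nil)) (C.cons (nat_lit 70) (C.node (nat_lit 1) (nat_lit 2) (nat_lit 3) (C.cons (nat_lit 142)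 (C.miq (nat_lit 2709107488) (nat_lit 776201231004085536698992669)) (C.cons (nat_lit 14) (C.node (nat_lit 1) (nat_lit 2) (nat_lit 7) (C.cons (nat_lit 2182) (C.node (nat_lit 1) (nat_lit 6) (nat_lit 7) C.nil) (C.cons (nat_lit 134)
  (C.node (nat_lit 1) (nat_lit 2) (nat_lit 11) C.nil) C.nil))) C.nil))) C.nil))) C.nil)))))) C.nil)))))) C.nil)) (C.cons (nat_lit 2626) (C.miq (nat_lit 649660999) (nat_lit 3174651100765609442898085011)) (C.cons (nat_lit 2624) (C.miq (nat_lit 649660999) (nat_lit 3172233249126380184548672659)) C.nil))))) (C.cons (nat_lit 1058) (C.node (nat_lit 1) (nat_lit 6) (nat_lit 10) (C.cons (nat_lit 1090) (C.node (nat_lit 2) (nat_lit 10) (nat_lit 11) (C.cons (nat_lit 3108) (C.node (nat_lit 5) (nat_lit 6) (nat_lit 10) (C.cons (nat_lit 1376) (C.miq (nat_lit 1680179386) (nat_lit 65307377073901387779411713)) (C.cons (nat_lit 1120) (C.node (nat_lit 2) (nat_lit 9) (nat_lit 11) (C.cons (nat_lit 2630) (C.miq (nat_lit 891357881) (nat_lit 65291642206124724657196801))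 (C.cons (nat_lit 2628) (C.node (nat_lit 1) (nat_lit 2) (nat_lit 9) (C.cons (nat_lit 518) (C.node (nat_lit 1) (nat_lit 2) (nat_lit 6) (C.cons (nat_lit 78) (C.node (nat_lit 3) (nat_lit 9) (nat_lit 10) (C.cons (nat_lit 1736) (C.miq (nat_lit 2301692514) (nat_lit 632273056233295285597373509)) (C.cons (nat_lit 1672) (C.miq (nat_lit 1738148674) (nat_lit 2021344133326736780405508125)) (C.cons (nat_lit 1608) (C.miq (nat_lit 2040968224) (nat_lit 1943994648150718274804713501)) C.nil)))) (C.cons (nat_lit 70) (C.node (nat_lit 1) (nat_lit 2) (nat_lit 3) (C.cons (nat_lit 142) (C.miq (nat_lit 2585201458) (nat_lit 1415664033999816928885868573)) (C.cons (nat_lit 14) (C.node (nat_lit 1) (nat_lit 2) (nat_lit 7) (C.cons (nat_lit 2182) (C.node (nat_lit 2) (nat_lit 8) (nat_lit 11) C.nil) C.nil)) C.nil))) C.nil))) C.nil)) (C.cons (nat_lit 2566) (C.miq (nat_lit 891357881) (nat_lit 65291642206124724653002497)) (C.cons (nat_lit 2564) (C.miq (nat_lit 1804772464) (nat_lit 3099705964670402508712379539))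 C.nil))))) C.nil))) (C.cons (nat_lit 3076) (C.node (nat_lit 5) (nat_lit 10) (nat_lit 11) (C.cons (nat_lit 3104) (C.node (nat_lit 2) (nat_lit 5) (nat_lit 11) (C.cons (nat_lit 2596) (C.miq (nat_lit 1380432288) (nat_lit 256334203938296649435254529)) (C.cons (nat_lit 2340) (C.miq (nat_lit 2233119296) (nat_lit 1279114371754916462734805021)) (C.cons (nat_lit 2084) (C.node (nat_lit 4) (nat_lit 5) (nat_lit 10) C.nil) C.nil)))) C.nil)) C.nil))) C.nil)) C.nil))) C.nil)))) C.nil))))) C.nil))))) C.nil))) C.nil)) (C.cons (nat_lit 3080) (C.node (nat_lit 4) (nat_lit 5) (nat_lit 6) (C.cons (nat_lit 120) (C.node (nat_lit 3) (nat_lit 4) (nat_lit 9) (C.cons (nat_lit 792) (C.miq (nat_lit 1536385156) (nat_lit 3104523719019465684876263761)) (C.cons (nat_lit 536) (C.node (nat_lit 6) (nat_lit 8) (nat_lit 10) (C.cons (nat_lit 1472) (C.miq (nat_lit 879168424) (nat_lit 256299523913359417352916737)) (C.cons (nat_lit 1378) (C.miq (nat_lit 306610362) (nat_lit 256317693445671796528385793))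 (C.cons (nat_lit 1376) (C.miq (nat_lit 2253104432) (nat_lit 3810605037756608360547681321)) (C.cons (nat_lit 1354) (C.miq (nat_lit 306610362) (nat_lit 256317250723814027499147009)) (C.cons (nat_lit 1352) (C.miq (nat_lit 2556693045) (nat_lit 407418350914706575283717161)) (C.cons (nat_lit 1346) (C.miq (nat_lit 306610362) (nat_lit 256317103149861437822734081)) (C.cons (nat_lit 1344) (C.node (nat_lit 1) (nat_lit 3) (nat_lit 4) (C.cons (nat_lit 282) (C.node (nat_lit 4) (nat_lit 8) (nat_lit 9) (C.cons (nat_lit 784) (C.node (nat_lit 1) (nat_lit 4) (nat_lit 6) (C.cons (nat_lit 82) (C.node (nat_lit 1) (nat_lit 4) (nat_lit 9) (C.cons (nat_lit 530) (C.node (nat_lit 4) (nat_lit 6) (nat_lit 9) C.nil) C.nil)) C.nil)) C.nil)) (C.cons (nat_lit 26) (C.node (nat_lit 3) (nat_lit 4) (nat_lit 8) (C.cons (nat_lit 280) (C.node (nat_lit 1) (nat_lit 4) (nat_lit 6) (C.cons (nat_lit 594) (C.node (nat_lit 1) (nat_lit 4) (nat_lit 8) (C.cons (nat_lit 274) (C.node (nat_lit 4) (nat_lit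 8) (nat_lit 9) C.nil) C.nil)) (C.cons (nat_lit 82) (C.node (nat_lit 4) (nat_lit 6) (nat_lit 9) C.nil) C.nil))) C.nil)) C.nil))) C.nil)))))))) C.nil))) (C.cons (nat_lit 112) (C.node (nat_lit 3) (nat_lit 4) (nat_lit 5) (C.cons (nat_lit 312) (C.node (nat_lit 4) (nat_lit 5) (nat_lit 7) (C.cons (nat_lit 176)
  (C.node (nat_lit 4) (nat_lit 5) (nat_lit 10) (C.cons (nat_lit 1072) (C.node (nat_lit 4) (nat_lit 7) (nat_lit 8) (C.cons (nat_lit 400) (C.node (nat_lit 4) (nat_lit 8) (nat_lit 10) C.nil) C.nil)) C.nil)) C.nil)) (C.cons (nat_lit 56) (C.node (nat_lit 4) (nat_lit 5) (nat_lit 7) (C.cons (nat_lit 432) (C.node (nat_lit 4) (nat_lit 5) (nat_lit 10) (C.cons (nat_lit 1072) (C.node (nat_lit 4) (nat_lit 8) (nat_lit 10) (C.cons (nat_lit 1296) (C.node (nat_lit 1) (nat_lit 3) (nat_lit 4) (C.cons (nat_lit 282) (C.node (nat_lit 4) (nat_lit 8) (nat_lit 9) C.nil) (C.cons (nat_lit 90) (C.miq (nat_lit 1671119114) (nat_lit 3104579648933023047575733395)) C.nil))) C.nil))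 C.nil)) (C.cons (nat_lit 176) (C.node (nat_lit 4) (nat_lit 7) (nat_lit 8) (C.cons (nat_lit 400) (C.node (nat_lit 4) (nat_lit 5) (nat_lit 8) (C.cons (nat_lit 1328) (C.node (nat_lit 1) (nat_lit 3) (nat_lit 4) (C.cons (nat_lit 282) (C.node (nat_lit 4) (nat_lit 8) (nat_lit 9) C.nil) (C.cons (nat_lit 90) (C.miq (nat_lit 1671119114) (nat_lit 3104579648933023047575733395)) C.nil))) C.nil)) C.nil)) C.nil))) C.nil))) C.nil))) C.nil))) C.nil))) C.nil))))))))) C.nil)) (C.cons (nat_lit 22) (C.node (nat_lit 2) (nat_lit 4) (nat_lit 5) (C.cons (nat_lit 308) (C.node (nat_lit 4) (nat_lit 5) (nat_lit 7) (C.cons (nat_lit 176) (C.node (nat_lit 4) (nat_lit 5) (nat_lit 10) (C.cons (nat_lit 1072) (C.node (nat_lit 4) (nat_lit 7) (nat_lit 8) (C.cons (nat_lit 400) (C.node (nat_lit 4) (nat_lit 8) (nat_lit 10) (C.cons (nat_lit 1296) (C.node (nat_lit 2) (nat_lit 8) (nat_lit 9) (C.cons (nat_lit 844) (C.miq (nat_lit 1948453528) (nat_lit 2510946177239619644471119617)) (C.cons (nat_lit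 836) (C.miq (nat_lit 3106293514) (nat_lit 1010720130096261429912208531)) (C.cons (nat_lit 780) (C.miq (nat_lit 1948453528) (nat_lit 2510946177239619644466925313)) (C.cons (nat_lit 772) (C.node (nat_lit 3) (nat_lit 7) (nat_lit 11) (C.cons (nat_lit 2186) (C.node (nat_lit 3) (nat_lit 10) (nat_lit 11) (C.cons (nat_lit 3080) (C.node (nat_lit 3) (nat_lit 6) (nat_lit 11) (C.cons (nat_lit 2376) (C.miq (nat_lit 927367339) (nat_lit 256336103332845214392913665)) (C.cons (nat_lit 2120) (C.node (nat_lit 1) (nat_lit 4) (nat_lit 8) (C.cons (nat_lit 786) (C.node (nat_lit 3) (nat_lit 4) (nat_lit 8) C.nil) (C.cons (nat_lit 282) (C.miq (nat_lit 2259894385) (nat_lit 2562927939659709466226066579)) C.nil))) C.nil))) C.nil)) (C.cons (nat_lit 2184) (C.node (nat_lit 3) (nat_lit 10) (nat_lit 11) (C.cons (nat_lit 3082) (C.node (nat_lit 3) (nat_lit 6) (nat_lit 11) (C.cons (nat_lit 2376) (C.miq (nat_lit 927367339) (nat_lit 256336103332845214392913665)) (C.cons (nat_lit 2120) (C.node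 (nat_lit 1) (nat_lit 4) (nat_lit 5) (C.cons (nat_lit 122) (C.miq (nat_lit 2606959169) (nat_lit 2562932386311323323763131539)) (C.cons (nat_lit 114) (C.node (nat_lit 3) (nat_lit 4) (nat_lit 5) C.nil) (C.cons (nat_lit 58) (C.miq (nat_lit 1504919713) (nat_lit 3104522574839447954905498771)) C.nil)))) C.nil))) (C.cons (nat_lit 3080) (C.node (nat_lit 1) (nat_lit 4) (nat_lit 8) (C.cons (nat_lit 786) (C.node (nat_lit 3) (nat_lit 4) (nat_lit 8) C.nil) (C.cons (nat_lit 282) (C.node (nat_lit 4) (nat_lit 8) (nat_lit 9) C.nil) C.nil))) C.nil))) C.nil))) C.nil))))) C.nil)) C.nil)) C.nil)) C.nil)) (C.cons (nat_lit 52) (C.node (nat_lit 2) (nat_lit 4) (nat_lit 8) (C.cons (nat_lit 276) (C.node (nat_lit 3) (nat_lit 7) (nat_lit 11) (C.cons (nat_lit 2186) (C.node (nat_lit 3) (nat_lit 10) (nat_lit 11) (C.cons (nat_lit 3080) (C.node (nat_lit 3) (nat_lit 6) (nat_lit 11) (C.cons (nat_lit 2376) (C.miq (nat_lit 927367339) (nat_lit 256336103332845214392913665)) (C.cons (nat_lit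 2120) (C.node (nat_lit 1) (nat_lit 6) (nat_lit 7) (C.cons (nat_lit 962) (C.miq (nat_lit 611388312) (nat_lit 1415656986847057289475657473)) (C.cons (nat_lit 706) (C.miq (nat_lit 2792956084) (nat_lit 853530332089368801587496989)) (C.cons (nat_lit 450) (C.miq (nat_lit 1639221040) (nat_lit 2497646960003249843516277129)) (C.cons (nat_lit 194) (C.node (nat_lit 6) (nat_lit 7) (nat_lit 8) (C.cons (nat_lit 1472)
  (C.miq (nat_lit 879168424) (nat_lit 256299523913359417352916737)) (C.cons (nat_lit 960) (C.miq (nat_lit 2792956084) (nat_lit 1160597490271484611962865693)) (C.cons (nat_lit 448) (C.node (nat_lit 1) (nat_lit 7) (nat_lit 9) (C.cons (nat_lit 930) (C.miq (nat_lit 611388312) (nat_lit 1415656986847057289473560321)) (C.cons (nat_lit 898) (C.miq (nat_lit 611388312) (nat_lit 1415656986847057289471463169)) (C.cons (nat_lit 674) (C.miq (nat_lit 1125714805) (nat_lit 632278552866509324900501729)) (C.cons (nat_lit 642) (C.node (nat_lit 1) (nat_lit 2) (nat_lit 7)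 (C.cons (nat_lit 166) (C.node (nat_lit 1) (nat_lit 7) (nat_lit 8) (C.cons (nat_lit 386) (C.node (nat_lit 1) (nat_lit 2) (nat_lit 10) (C.cons (nat_lit 3078) (C.miq (nat_lit 2226194082) (nat_lit 2497645594912385865645163589)) (C.cons (nat_lit 1038) (C.miq (nat_lit 1729760050) (nat_lit 1415672297699805339050706973)) (C.cons (nat_lit 1030) (C.node (nat_lit 1) (nat_lit 10) (nat_lit 11) (C.cons (nat_lit 3106) (C.miq (nat_lit 2584873815) (nat_lit 1245205493434154318333085921)) (C.cons (nat_lit 3074) (C.node (nat_lit 2) (nat_lit 5) (nat_lit 6) (C.cons (nat_lit 876) (C.miq (nat_lit 1948453528) (nat_lit 2510946177239619644473216769)) (C.cons (nat_lit 868) (C.miq (nat_lit 310670688) (nat_lit 333685127397676540291516641)) (C.cons (nat_lit 620) (C.miq (nat_lit 2753759077) (nat_lit 2510958573451631404839078113)) (C.cons (nat_lit 612) (C.miq (nat_lit 3106293514) (nat_lit 739920746502584494778025107)) (C.cons (nat_lit 364) (C.miq (nat_lit 2753759077) (nat_lit 2510958573451631404822300897))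 (C.cons (nat_lit 356) (C.miq (nat_lit 310670688) (nat_lit 333685127397674341268261089)) (C.cons (nat_lit 108) (C.miq (nat_lit 2753759077) (nat_lit 2510958573451631404805523681)) (C.cons (nat_lit 100) (C.node (nat_lit 1) (nat_lit 2) (nat_lit 3) (C.cons (nat_lit 78) (C.node (nat_lit 1) (nat_lit 2) (nat_lit 9) (C.cons (nat_lit 2566) (C.miq (nat_lit 1804772464) (nat_lit 3102123816309631767061791891)) (C.cons (nat_lit 518) (C.node (nat_lit 1) (nat_lit 2) (nat_lit 11) (C.cons (nat_lit 2054) (C.node (nat_lit 1) (nat_lit 3) (nat_lit 10) C.nil) C.nil)) C.nil))) (C.cons (nat_lit 14) (C.node (nat_lit 2) (nat_lit 3) (nat_lit 7) (C.cons (nat_lit 1164) (C.node (nat_lit 3) (nat_lit 6) (nat_lit 7) (C.cons (nat_lit 712) (C.miq (nat_lit 2792956084) (nat_lit 860783887007056576635734045)) (C.cons (nat_lit 200) (C.node (nat_lit 3) (nat_lit 9) (nat_lit 10) (C.cons (nat_lit 1608) (C.miq (nat_lit 2040968224) (nat_lit 1943994648150718274804713501)) (C.cons (nat_lit 1544) (C.node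 (nat_lit 6) (nat_lit 7) (nat_lit 9) (C.cons (nat_lit 1728) (C.node (nat_lit 2) (nat_lit 3) (nat_lit 6) (C.cons (nat_lit 844) (C.miq (nat_lit 392301208) (nat_lit 256297125581607390136766209)) (C.cons (nat_lit 588) (C.miq (nat_lit 392758307) (nat_lit 2089033464270837872287549469)) (C.cons (nat_lit 332) (C.miq (nat_lit 1654948720) (nat_lit 1881094791966570527648317833)) (C.cons (nat_lit 76) (C.node (nat_lit 1) (nat_lit 3) (nat_lit 10) (C.cons (nat_lit 1354) (C.miq (nat_lit 660670888) (nat_lit 234536460680488227275673345)) C.nil)) C.nil))))) (C.cons (nat_lit 704) (C.miq (nat_lit 2792956084) (nat_lit 851112480450139543238084637)) C.nil))) C.nil))) C.nil))) (C.cons (nat_lit 140) (C.node (nat_lit 2) (nat_lit 3) (nat_lit 10) (C.cons (nat_lit 1292) (C.node (nat_lit 2) (nat_lit 7) (nat_lit 10) (C.cons (nat_lit 1156) (C.node (nat_lit 1) (nat_lit 4) (nat_lit 9) (C.cons (nat_lit 530) (C.node (nat_lit 2) (nat_lit 7) (nat_lit 8) C.nil) C.nil)) C.nil)) (C.cons (nat_lit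 1036) (C.node (nat_lit 1) (nat_lit 2) (nat_lit 6) (C.cons (nat_lit 2630) (C.node (nat_lit 5) (nat_lit 9) (nat_lit 11) (C.cons (nat_lit 2592) (C.node (nat_lit 1) (nat_lit 5) (nat_lit 11) (C.cons (nat_lit 2338) (C.miq (nat_lit 2166994288) (nat_lit 3179545760188551056421357793)) C.nil)) C.nil)) (C.cons (nat_lit 2118) (C.miq (nat_lit 2456514724) (nat_lit 2560554766121315957239448723)) (C.cons (nat_lit 582)
  (C.miq (nat_lit 3106293514) (nat_lit 703652971914145619536839827)) C.nil)))) C.nil))) C.nil))) C.nil))) C.nil))))))))) C.nil))) C.nil)))) C.nil)) (C.cons (nat_lit 134) (C.node (nat_lit 1) (nat_lit 5) (nat_lit 7) (C.cons (nat_lit 418) (C.node (nat_lit 4) (nat_lit 5) (nat_lit 7) (C.cons (nat_lit 176) (C.node (nat_lit 4) (nat_lit 7) (nat_lit 8) (C.cons (nat_lit 400) (C.node (nat_lit 7) (nat_lit 8) (nat_lit 9) (C.cons (nat_lit 896) (C.node (nat_lit 2) (nat_lit 7) (nat_lit 11) C.nil) C.nil)) C.nil)) C.nil)) (C.cons (nat_lit 162) (C.node (nat_lit 1) (nat_lit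 7) (nat_lit 8) (C.cons (nat_lit 386) (C.node (nat_lit 2) (nat_lit 7) (nat_lit 11) (C.cons (nat_lit 2436) (C.node (nat_lit 7) (nat_lit 8) (nat_lit 9) (C.cons (nat_lit 928) (C.miq (nat_lit 1411879096) (nat_lit 256309392494718170243010305)) (C.cons (nat_lit 896) (C.node (nat_lit 2) (nat_lit 6) (nat_lit 11) (C.cons (nat_lit 2630) (C.miq (nat_lit 824641976) (nat_lit 162003309546003986007723777)) (C.cons (nat_lit 2628) (C.node (nat_lit 1) (nat_lit 2) (nat_lit 9) (C.cons (nat_lit 550) (C.node (nat_lit 1) (nat_lit 9) (nat_lit 11) (C.cons (nat_lit 2562) (C.node (nat_lit 5) (nat_lit 9) (nat_lit 11) (C.cons (nat_lit 2592) (C.node (nat_lit 1) (nat_lit 2) (nat_lit 11) C.nil) C.nil)) C.nil)) (C.cons (nat_lit 518) (C.node (nat_lit 1) (nat_lit 6) (nat_lit 11) (C.cons (nat_lit 2370) (C.node (nat_lit 1) (nat_lit 9) (nat_lit 11) (C.cons (nat_lit 2562) (C.node (nat_lit 5) (nat_lit 9) (nat_lit 11) C.nil) C.nil)) (C.cons (nat_lit 2114) (C.node (nat_lit 4) (nat_lit 5) (nat_lit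 7) C.nil) C.nil))) C.nil))) (C.cons (nat_lit 2118) (C.miq (nat_lit 2456514724) (nat_lit 2560554766121315957239448723)) (C.cons (nat_lit 2116) (C.miq (nat_lit 2456514724) (nat_lit 2558136914482086698890036371)) C.nil))))) C.nil))) (C.cons (nat_lit 2180) (C.node (nat_lit 7) (nat_lit 8) (nat_lit 11) (C.cons (nat_lit 2432) (C.node (nat_lit 4) (nat_lit 5) (nat_lit 7) (C.cons (nat_lit 176) (C.node (nat_lit 4) (nat_lit 7) (nat_lit 8) C.nil) C.nil)) C.nil)) C.nil))) C.nil)) C.nil))) C.nil))) C.nil))))) C.nil)))) C.nil))))) C.nil))) C.nil)) (C.cons (nat_lit 2184) (C.node (nat_lit 3) (nat_lit 10) (nat_lit 11) (C.cons (nat_lit 3082) (C.node (nat_lit 3) (nat_lit 6) (nat_lit 11) (C.cons (nat_lit 2376) (C.miq (nat_lit 927367339) (nat_lit 256336103332845214392913665)) (C.cons (nat_lit 2120) (C.node (nat_lit 1) (nat_lit 9) (nat_lit 10) (C.cons (nat_lit 1634) (C.miq (nat_lit 2040968224) (nat_lit 1975426719460698633347074077)) (C.cons (nat_lit 1602) (C.miq (nat_lit 2040968224)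 (nat_lit 1936741093233030499756476445)) (C.cons (nat_lit 1570) (C.miq (nat_lit 2444515888) (nat_lit 2497651092389178176662471721)) (C.cons (nat_lit 1538) (C.node (nat_lit 5) (nat_lit 9) (nat_lit 10) (C.cons (nat_lit 1696) (C.miq (nat_lit 1397203129) (nat_lit 183788010559152416976015105)) (C.cons (nat_lit 1632) (C.miq (nat_lit 2040968224) (nat_lit 1973008867821469374997661725)) (C.cons (nat_lit 1568) (C.node (nat_lit 1) (nat_lit 2) (nat_lit 10) (C.cons (nat_lit 1062) (C.node (nat_lit 2) (nat_lit 10) (nat_lit 11) (C.cons (nat_lit 3076) (C.node (nat_lit 5) (nat_lit 10) (nat_lit 11) (C.cons (nat_lit 3104) (C.node (nat_lit 1) (nat_lit 6) (nat_lit 10) (C.cons (nat_lit 1346) (C.miq (nat_lit 306610362) (nat_lit 256317103149861437822734081)) (C.cons (nat_lit 1090) (C.node (nat_lit 1) (nat_lit 8) (nat_lit 10) (C.cons (nat_lit 1282) (C.node (nat_lit 2) (nat_lit 5) (nat_lit 6) (C.cons (nat_lit 876) (C.miq (nat_lit 1948453528) (nat_lit 2510946177239619644473216769))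 (C.cons (nat_lit 868) (C.miq (nat_lit 3106293514) (nat_lit 1049405756323929563502806163)) (C.cons (nat_lit 620) (C.miq (nat_lit 2753759077) (nat_lit 2510958573451631404839078113)) (C.cons (nat_lit 612) (C.miq (nat_lit 3106293514) (nat_lit 739920746502584494778025107)) (C.cons (nat_lit 364) (C.miq (nat_lit 2753759077) (nat_lit 2510958573451631404822300897)) (C.cons (nat_lit 356) (C.miq (nat_lit 1514545416) (nat_lit 3810540750765132853969748231)) (C.cons (nat_lit 108)
  (C.miq (nat_lit 2753759077) (nat_lit 2510958573451631404805523681)) (C.cons (nat_lit 100) (C.node (nat_lit 3) (nat_lit 5) (nat_lit 11) (C.cons (nat_lit 2344) (C.node (nat_lit 2) (nat_lit 5) (nat_lit 11) (C.cons (nat_lit 2596) (C.miq (nat_lit 1380432288) (nat_lit 256334203938296649435254529)) (C.cons (nat_lit 2084) (C.node (nat_lit 4) (nat_lit 5) (nat_lit 10) (C.cons (nat_lit 1072) (C.node (nat_lit 4) (nat_lit 8) (nat_lit 10) C.nil) C.nil)) C.nil))) (C.cons (nat_lit 2088) (C.node (nat_lit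 3) (nat_lit 8) (nat_lit 11) (C.cons (nat_lit 2312) (C.node (nat_lit 4) (nat_lit 5) (nat_lit 10) (C.cons (nat_lit 1072) (C.node (nat_lit 4) (nat_lit 8) (nat_lit 10) C.nil) C.nil)) C.nil)) C.nil))) C.nil))))))))) C.nil)) C.nil))) C.nil)) C.nil)) (C.cons (nat_lit 1030) (C.node (nat_lit 2) (nat_lit 10) (nat_lit 11) (C.cons (nat_lit 3108) (C.node (nat_lit 2) (nat_lit 9) (nat_lit 11) (C.cons (nat_lit 2630) (C.miq (nat_lit 621394481) (nat_lit 678255900615549624922082314)) (C.cons (nat_lit 2628) (C.node (nat_lit 1) (nat_lit 2) (nat_lit 9) (C.cons (nat_lit 550) (C.node (nat_lit 1) (nat_lit 9) (nat_lit 11) (C.cons (nat_lit 2562) (C.node (nat_lit 5) (nat_lit 9) (nat_lit 11) (C.cons (nat_lit 2592) (C.node (nat_lit 2) (nat_lit 3) (nat_lit 9) (C.cons (nat_lit 780) (C.miq (nat_lit 1948453528) (nat_lit 2510946177239619644466925313)) (C.cons (nat_lit 524) (C.node (nat_lit 2) (nat_lit 8) (nat_lit 9) (C.cons (nat_lit 772) (C.node (nat_lit 1) (nat_lit 7) (nat_lit 9) (C.cons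 (nat_lit 962) (C.miq (nat_lit 611388312) (nat_lit 1415656986847057289475657473)) (C.cons (nat_lit 898) (C.miq (nat_lit 611388312) (nat_lit 1415656986847057289471463169)) (C.cons (nat_lit 706) (C.miq (nat_lit 1116801895) (nat_lit 664930802509991173821696225)) (C.cons (nat_lit 642) (C.node (nat_lit 1) (nat_lit 2) (nat_lit 11) C.nil) C.nil))))) C.nil)) C.nil))) C.nil)) C.nil)) (C.cons (nat_lit 518) (C.node (nat_lit 1) (nat_lit 2) (nat_lit 11) (C.cons (nat_lit 2182) (C.node (nat_lit 2) (nat_lit 8) (nat_lit 11) (C.cons (nat_lit 2308) (C.node (nat_lit 7) (nat_lit 8) (nat_lit 11) (C.cons (nat_lit 2432) (C.node (nat_lit 1) (nat_lit 6) (nat_lit 11) (C.cons (nat_lit 2370) (C.node (nat_lit 1) (nat_lit 5) (nat_lit 11) (C.cons (nat_lit 2594) (C.node (nat_lit 1) (nat_lit 4) (nat_lit 9) (C.cons (nat_lit 530) (C.miq (nat_lit 2173987664) (nat_lit 640736901615613138699356385)) C.nil)) C.nil)) C.nil)) C.nil)) C.nil)) (C.cons (nat_lit 2054) (C.node (nat_lit 1) (nat_lit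 6) (nat_lit 11) (C.cons (nat_lit 2370) (C.node (nat_lit 1) (nat_lit 7) (nat_lit 11) (C.cons (nat_lit 2178) (C.node (nat_lit 1) (nat_lit 5) (nat_lit 11) C.nil) C.nil)) (C.cons (nat_lit 2114) (C.node (nat_lit 6) (nat_lit 8) (nat_lit 11) (C.cons (nat_lit 2368) (C.node (nat_lit 1) (nat_lit 7) (nat_lit 11) (C.cons (nat_lit 2178) (C.node (nat_lit 1) (nat_lit 8) (nat_lit 11) C.nil) C.nil)) C.nil)) C.nil))) C.nil))) C.nil))) (C.cons (nat_lit 2566) (C.miq (nat_lit 1804772464) (nat_lit 3102123816309631767061791891)) (C.cons (nat_lit 2564) (C.miq (nat_lit 1804772464) (nat_lit 3099705964670402508712379539)) C.nil))))) (C.cons (nat_lit 3076) (C.node (nat_lit 5) (nat_lit 10) (nat_lit 11) (C.cons (nat_lit 3104) (C.node (nat_lit 3) (nat_lit 5) (nat_lit 11) (C.cons (nat_lit 2344) (C.node (nat_lit 1) (nat_lit 8) (nat_lit 10) (C.cons (nat_lit 1378) (C.miq (nat_lit 306610362) (nat_lit 256317693445671796528385793)) (C.cons (nat_lit 1346) (C.miq (nat_lit 306610362) (nat_lit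 256317103149861437822734081)) (C.cons (nat_lit 1314) (C.miq (nat_lit 414491952) (nat_lit 2804729503013118186140533801)) (C.cons (nat_lit 1282) (C.node (nat_lit 1) (nat_lit 5) (nat_lit 10) (C.cons (nat_lit 1122) (C.node (nat_lit 6) (nat_lit 9) (nat_lit 11) (C.cons (nat_lit 2630) (C.miq (nat_lit 564377168) (nat_lit 3725947690680012218955270369)) (C.cons (nat_lit 2628) (C.node (nat_lit 1) (nat_lit 3) (nat_lit 5) (C.cons (nat_lit 174) (C.miq (nat_lit 2199565680) (nat_lit 3725980230656052327643023585)) (C.cons (nat_lit 170) (C.miq (nat_lit 2199565680) (nat_lit 3725980230656052310463154401))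
  (C.cons (nat_lit 58) (C.miq (nat_lit 2585070388) (nat_lit 1356425119312197907717425181)) (C.cons (nat_lit 46) (C.miq (nat_lit 1680190257) (nat_lit 62884840754029466443713546)) (C.cons (nat_lit 42) (C.node (nat_lit 6) (nat_lit 7) (nat_lit 8) (C.cons (nat_lit 1472) (C.miq (nat_lit 879168424) (nat_lit 256299523913359417352916737)) (C.cons (nat_lit 962) (C.miq (nat_lit 611388312) (nat_lit 1415656986847057289475657473)) (C.cons (nat_lit 960) (C.miq (nat_lit 845613976) (nat_lit 256299523913357166756499201)) (C.cons (nat_lit 450) (C.miq (nat_lit 2174973520) (nat_lit 3725916625749376642841118945)) (C.cons (nat_lit 448) (C.node (nat_lit 7) (nat_lit 8) (nat_lit 9) (C.cons (nat_lit 930) (C.miq (nat_lit 611388312) (nat_lit 1415656986847057289473560321)) (C.cons (nat_lit 928) (C.miq (nat_lit 1529447175) (nat_lit 3177074173185532139690852745)) (C.cons (nat_lit 898) (C.miq (nat_lit 611388312) (nat_lit 1415656986847057289471463169)) (C.cons (nat_lit 896) (C.node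 (nat_lit 1) (nat_lit 7) (nat_lit 8) (C.cons (nat_lit 2434) (C.miq (nat_lit 974671995) (nat_lit 1549886140213839256925374689)) (C.cons (nat_lit 418) (C.miq (nat_lit 364148784) (nat_lit 2533930119167239671873601929)) (C.cons (nat_lit 386) (C.node (nat_lit 1) (nat_lit 6) (nat_lit 11) (C.cons (nat_lit 2114) (C.node (nat_lit 1) (nat_lit 8) (nat_lit 11) C.nil) C.nil)) C.nil)))) C.nil))))) C.nil)))))) C.nil)))))) (C.cons (nat_lit 2626) (C.miq (nat_lit 649660999) (nat_lit 3174651100765609442898085011)) (C.cons (nat_lit 2624) (C.miq (nat_lit 649660999) (nat_lit 3172233249126380184548672659)) C.nil))))) (C.cons (nat_lit 1058) (C.node (nat_lit 1) (nat_lit 6) (nat_lit 10) (C.cons (nat_lit 1090) (C.node (nat_lit 4) (nat_lit 5) (nat_lit 10) (C.cons (nat_lit 1072) (C.node (nat_lit 4) (nat_lit 8) (nat_lit 10) C.nil) C.nil)) C.nil)) C.nil))) C.nil))))) (C.cons (nat_lit 2088) (C.node (nat_lit 3) (nat_lit 8) (nat_lit 11) (C.cons (nat_lit 2312) (C.node (nat_lit 6) (nat_lit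 8) (nat_lit 11) (C.cons (nat_lit 2372) (C.miq (nat_lit 341969592) (nat_lit 256297125581613506270334721)) (C.cons (nat_lit 2370) (C.node (nat_lit 1) (nat_lit 7) (nat_lit 11) (C.cons (nat_lit 2182) (C.node (nat_lit 7) (nat_lit 8) (nat_lit 11) C.nil) C.nil)) C.nil))) C.nil)) C.nil))) C.nil)) C.nil))) C.nil))) C.nil)))) C.nil))))) C.nil))) (C.cons (nat_lit 3080) (C.node (nat_lit 4) (nat_lit 5) (nat_lit 7) (C.cons (nat_lit 432) (C.node (nat_lit 4) (nat_lit 5) (nat_lit 10) (C.cons (nat_lit 1072) (C.node (nat_lit 4) (nat_lit 8) (nat_lit 10) (C.cons (nat_lit 1296) (C.node (nat_lit 5) (nat_lit 7) (nat_lit 10) (C.cons (nat_lit 1696) (C.miq (nat_lit 880085914) (nat_lit 522275600440593444476292865)) (C.cons (nat_lit 1188) (C.miq (nat_lit 1477080162) (nat_lit 4643505987993348864408355028)) (C.cons (nat_lit 1184) (C.node (nat_lit 7) (nat_lit 8) (nat_lit 9) (C.cons (nat_lit 962) (C.miq (nat_lit 611388312) (nat_lit 1415656986847057289475657473)) (C.cons (nat_lit 960)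 (C.miq (nat_lit 2792956084) (nat_lit 1160597490271484611962865693)) (C.cons (nat_lit 898) (C.miq (nat_lit 611388312) (nat_lit 1415656986847057289471463169)) (C.cons (nat_lit 896) (C.node (nat_lit 1) (nat_lit 4) (nat_lit 8) (C.cons (nat_lit 786) (C.node (nat_lit 3) (nat_lit 4) (nat_lit 8) C.nil) (C.cons (nat_lit 282) (C.node (nat_lit 4) (nat_lit 8) (nat_lit 9) C.nil) C.nil))) C.nil))))) C.nil)))) C.nil)) C.nil)) (C.cons (nat_lit 176) (C.node (nat_lit 4) (nat_lit 7) (nat_lit 8) (C.cons (nat_lit 400) (C.node (nat_lit 4) (nat_lit 5) (nat_lit 10) (C.cons (nat_lit 1328) (C.node (nat_lit 7) (nat_lit 8) (nat_lit 10) (C.cons (nat_lit 1472) (C.miq (nat_lit 879168424) (nat_lit 256299523913359417352916737)) (C.cons (nat_lit 1412) (C.miq (nat_lit 2231870610) (nat_lit 2747914435160485370584696340)) (C.cons (nat_lit 1408) (C.node (nat_lit 2) (nat_lit 8) (nat_lit 9) (C.cons (nat_lit 876) (C.miq (nat_lit 1948453528) (nat_lit 2510946177239619644473216769)) (C.cons (nat_lit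 868) (C.miq (nat_lit 1951533705) (nat_lit 62876041099501161247149825)) (C.cons (nat_lit 844)
  (C.miq (nat_lit 1948453528) (nat_lit 2510946177239619644471119617)) (C.cons (nat_lit 836) (C.miq (nat_lit 3106293514) (nat_lit 1010720130096261429912208531)) (C.cons (nat_lit 812) (C.miq (nat_lit 1948453528) (nat_lit 2510946177239619644469022465)) (C.cons (nat_lit 804) (C.miq (nat_lit 1951533705) (nat_lit 62876041099501161242955521)) (C.cons (nat_lit 780) (C.miq (nat_lit 1948453528) (nat_lit 2510946177239619644466925313)) (C.cons (nat_lit 772) (C.node (nat_lit 2) (nat_lit 8) (nat_lit 10) (C.cons (nat_lit 1292) (C.node (nat_lit 1) (nat_lit 8) (nat_lit 10) (C.cons (nat_lit 1346) (C.miq (nat_lit 306610362) (nat_lit 256317103149861437822734081)) (C.cons (nat_lit 1282) (C.node (nat_lit 6) (nat_lit 8) (nat_lit 10) (C.cons (nat_lit 1344) (C.node (nat_lit 1) (nat_lit 4) (nat_lit 8) (C.cons (nat_lit 786) (C.miq (nat_lit 413373520) (nat_lit 1561941806810496479296815665))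 (C.cons (nat_lit 282) (C.node (nat_lit 4) (nat_lit 8) (nat_lit 9) C.nil) C.nil))) C.nil)) C.nil))) (C.cons (nat_lit 1284) (C.node (nat_lit 1) (nat_lit 4) (nat_lit 8) (C.cons (nat_lit 786) (C.node (nat_lit 3) (nat_lit 4) (nat_lit 8) C.nil) (C.cons (nat_lit 282) (C.node (nat_lit 4) (nat_lit 8) (nat_lit 9) C.nil) C.nil))) C.nil))) C.nil))))))))) C.nil)))) C.nil)) C.nil)) C.nil))) C.nil))) C.nil))) C.nil)) C.nil))) C.nil))) C.nil)))) C.nil)))) C.nil))) (C.cons (nat_lit 1552) (C.miq (nat_lit 714367159) (nat_lit 1876256783059316752260270305)) C.nil)))) C.nil))) (C.cons (nat_lit 208) (C.miq (nat_lit 642190009) (nat_lit 251468468937436098458554113)) C.nil)))) (C.cons (nat_lit 2128) (C.node (nat_lit 4) (nat_lit 10) (nat_lit 11) (C.cons (nat_lit 3088) (C.node (nat_lit 4) (nat_lit 6) (nat_lit 7) (C.cons (nat_lit 216) (C.node (nat_lit 3) (nat_lit 4) (nat_lit 9) (C.cons (nat_lit 1560) (C.miq (nat_lit 1464011674) (nat_lit 261147623459002638166134529)) (C.cons (nat_lit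 792) (C.miq (nat_lit 2490073968) (nat_lit 2572664998306847111579238793)) (C.cons (nat_lit 536) (C.node (nat_lit 3) (nat_lit 4) (nat_lit 10) (C.cons (nat_lit 1304) (C.miq (nat_lit 2758509424) (nat_lit 2572664998450962299655094665)) (C.cons (nat_lit 1048) (C.node (nat_lit 3) (nat_lit 9) (nat_lit 11) (C.cons (nat_lit 2632) (C.miq (nat_lit 2471147120) (nat_lit 1267025113640961559971956961)) (C.cons (nat_lit 2600) (C.miq (nat_lit 2761099189) (nat_lit 648003885425498549805123809)) (C.cons (nat_lit 2568) (C.node (nat_lit 6) (nat_lit 7) (nat_lit 10) (C.cons (nat_lit 1728) (C.miq (nat_lit 611715994) (nat_lit 261148139912667606609301249)) (C.cons (nat_lit 1472) (C.miq (nat_lit 2789967664) (nat_lit 2572664998498250095729639817)) (C.cons (nat_lit 1216) (C.node (nat_lit 3) (nat_lit 7) (nat_lit 11) (C.cons (nat_lit 3208) (C.miq (nat_lit 1400113849) (nat_lit 261138325959969881424137985)) (C.cons (nat_lit 2186) (C.node (nat_lit 3) (nat_lit 5) (nat_lit 11) (C.cons (nat_lit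 2344) (C.node (nat_lit 3) (nat_lit 4) (nat_lit 8) (C.cons (nat_lit 282) (C.miq (nat_lit 1798833940) (nat_lit 2833728338369245636510483603)) (C.cons (nat_lit 280) (C.node (nat_lit 1) (nat_lit 7) (nat_lit 8) (C.cons (nat_lit 962) (C.miq (nat_lit 611388312) (nat_lit 1415656986847057289475657473)) (C.cons (nat_lit 930) (C.miq (nat_lit 611388312) (nat_lit 1415656986847057289473560321)) (C.cons (nat_lit 898) (C.miq (nat_lit 611388312) (nat_lit 1415656986847057289471463169)) (C.cons (nat_lit 450) (C.miq (nat_lit 407074315) (nat_lit 338539554201306485057456353)) (C.cons (nat_lit 418) (C.miq (nat_lit 339243189) (nat_lit 338506940560735098039175393)) (C.cons (nat_lit 386) (C.node (nat_lit 1) (nat_lit 3) (nat_lit 4) (C.cons (nat_lit 58) (C.node (nat_lit 1) (nat_lit 5) (nat_lit 8) (C.cons (nat_lit 1378) (C.miq (nat_lit 414491952) (nat_lit 2804729503031132584650015785)) (C.cons (nat_lit 1314) (C.miq (nat_lit 414491952) (nat_lit 2804729503013118186140533801)) (C.cons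 (nat_lit 866) (C.miq (nat_lit 2823883572) (nat_lit 1046951362004734632133265437)) (C.cons (nat_lit 802) (C.miq (nat_lit 2823883572) (nat_lit 969580109549398364952070173)) (C.cons (nat_lit 354)
  (C.miq (nat_lit 2823883572) (nat_lit 427981342362044494683703325)) (C.cons (nat_lit 290) (C.miq (nat_lit 2823883572) (nat_lit 350610089906708227502508061)) C.nil))))))) (C.cons (nat_lit 26) (C.node (nat_lit 3) (nat_lit 4) (nat_lit 5) (C.cons (nat_lit 56) (C.node (nat_lit 1) (nat_lit 8) (nat_lit 11) (C.cons (nat_lit 2370) (C.node (nat_lit 1) (nat_lit 3) (nat_lit 8) (C.cons (nat_lit 1290) (C.miq (nat_lit 1394063520) (nat_lit 2642753771786641803712859905)) (C.cons (nat_lit 266) (C.node (nat_lit 1) (nat_lit 8) (nat_lit 10) (C.cons (nat_lit 1314) (C.miq (nat_lit 339058872) (nat_lit 67724085249748206663241473)) (C.cons (nat_lit 1282) (C.node (nat_lit 2) (nat_lit 6) (nat_lit 11) (C.cons (nat_lit 2628) (C.miq (nat_lit 2527572484) (nat_lit 1470103677387085320341882909))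 (C.cons (nat_lit 2116) (C.node (nat_lit 6) (nat_lit 9) (nat_lit 11) (C.cons (nat_lit 2624) (C.node (nat_lit 2) (nat_lit 8) (nat_lit 11) (C.cons (nat_lit 2436) (C.node (nat_lit 7) (nat_lit 10) (nat_lit 11) (C.cons (nat_lit 3200) (C.node (nat_lit 2) (nat_lit 4) (nat_lit 7) (C.cons (nat_lit 180) (C.miq (nat_lit 1350715831) (nat_lit 317950811130504699730725520)) (C.cons (nat_lit 148) (C.node (nat_lit 2) (nat_lit 6) (nat_lit 7) (C.cons (nat_lit 198) (C.miq (nat_lit 2551319399) (nat_lit 317959389789730580239616225)) (C.cons (nat_lit 196) (C.node (nat_lit 6) (nat_lit 7) (nat_lit 8) (C.cons (nat_lit 960) (C.miq (nat_lit 2521532208) (nat_lit 2572664998354134907653783945)) (C.cons (nat_lit 448) (C.node (nat_lit 7) (nat_lit 8) (nat_lit 9) (C.cons (nat_lit 928) (C.miq (nat_lit 1411879096) (nat_lit 178938140039381903061815041)) (C.cons (nat_lit 896) (C.node (nat_lit 7) (nat_lit 8) (nat_lit 10) (C.cons (nat_lit 1440) (C.miq (nat_lit 1949671608) (nat_lit 67726409539501494066745089))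 (C.cons (nat_lit 1408) (C.node (nat_lit 4) (nat_lit 7) (nat_lit 8) C.nil) C.nil))) C.nil))) C.nil))) C.nil))) C.nil))) C.nil)) (C.cons (nat_lit 2308) (C.node (nat_lit 7) (nat_lit 8) (nat_lit 11) (C.cons (nat_lit 2432) (C.node (nat_lit 2) (nat_lit 7) (nat_lit 11) (C.cons (nat_lit 3204) (C.node (nat_lit 1) (nat_lit 10) (nat_lit 11) (C.cons (nat_lit 3074) (C.node (nat_lit 5) (nat_lit 10) (nat_lit 11) C.nil) C.nil)) (C.cons (nat_lit 2180) (C.node (nat_lit 7) (nat_lit 10) (nat_lit 11) C.nil) C.nil))) C.nil)) C.nil))) C.nil)) C.nil))) C.nil))) C.nil))) (C.cons (nat_lit 2306) (C.node (nat_lit 3) (nat_lit 6) (nat_lit 11) (C.cons (nat_lit 3144) (C.node (nat_lit 6) (nat_lit 8) (nat_lit 11) (C.cons (nat_lit 2372) (C.miq (nat_lit 2181412515) (nat_lit 44773495161513393879845960)) (C.cons (nat_lit 2368) (C.node (nat_lit 1) (nat_lit 3) (nat_lit 10) (C.cons (nat_lit 1290) (C.miq (nat_lit 1394063520) (nat_lit 2642753771786641803712859905)) (C.cons (nat_lit 1038) (C.miq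 (nat_lit 1729760050) (nat_lit 1415672297699805339050706973)) (C.cons (nat_lit 1034) (C.node (nat_lit 3) (nat_lit 8) (nat_lit 10) (C.cons (nat_lit 1292) (C.miq (nat_lit 683058000) (nat_lit 2862756503502390187706614825)) (C.cons (nat_lit 1288) (C.node (nat_lit 1) (nat_lit 3) (nat_lit 8) (C.cons (nat_lit 330) (C.node (nat_lit 1) (nat_lit 8) (nat_lit 10) (C.cons (nat_lit 1314) (C.miq (nat_lit 339058872) (nat_lit 67724085249748206663241473)) (C.cons (nat_lit 1282) (C.node (nat_lit 6) (nat_lit 8) (nat_lit 10) (C.cons (nat_lit 1376) (C.miq (nat_lit 596249430) (nat_lit 1557116618539548535683025121)) (C.cons (nat_lit 1344) (C.node (nat_lit 2) (nat_lit 3) (nat_lit 8) (C.cons (nat_lit 780) (C.node (nat_lit 2) (nat_lit 8) (nat_lit 11) C.nil) C.nil)) C.nil))) C.nil))) (C.cons (nat_lit 266) (C.node (nat_lit 2) (nat_lit 8) (nat_lit 11) (C.cons (nat_lit 2436) (C.node (nat_lit 7) (nat_lit 10) (nat_lit 11) C.nil) C.nil)) C.nil))) C.nil))) C.nil)))) C.nil))) (C.cons (nat_lit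 2120) (C.node (nat_lit 3) (nat_lit 10) (nat_lit 11) (C.cons (nat_lit 3080) (C.node (nat_lit 6) (nat_lit 8) (nat_lit 11) (C.cons (nat_lit 2372) (C.node (nat_lit 7) (nat_lit 8) (nat_lit 11) (C.cons (nat_lit 2432) (C.node (nat_lit 2) (nat_lit 6) (nat_lit 7) (C.cons (nat_lit 198)
  (C.miq (nat_lit 2820737895) (nat_lit 317969092777113360053700833)) (C.cons (nat_lit 196) (C.node (nat_lit 2) (nat_lit 7) (nat_lit 11) (C.cons (nat_lit 3204) (C.miq (nat_lit 1193675448) (nat_lit 236955677526841117320154881)) (C.cons (nat_lit 2180) (C.node (nat_lit 7) (nat_lit 10) (nat_lit 11) C.nil) C.nil))) C.nil))) C.nil)) (C.cons (nat_lit 2368) (C.node (nat_lit 1) (nat_lit 3) (nat_lit 8) (C.cons (nat_lit 1354) (C.miq (nat_lit 1394063520) (nat_lit 2642753771786642078590766849)) (C.cons (nat_lit 1290) (C.miq (nat_lit 1394063520) (nat_lit 2642753771786641803712859905)) (C.cons (nat_lit 330) (C.node (nat_lit 1) (nat_lit 3) (nat_lit 10) (C.cons (nat_lit 1038) (C.miq (nat_lit 1729760050)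 (nat_lit 1415672297699805339050706973)) C.nil)) C.nil)))) C.nil))) C.nil)) C.nil))) C.nil))) C.nil)) C.nil))) C.nil))))))) C.nil))) (C.cons (nat_lit 2088) (C.node (nat_lit 3) (nat_lit 8) (nat_lit 11) (C.cons (nat_lit 2376) (C.miq (nat_lit 2202711664) (nat_lit 1267025113568903965934029025)) (C.cons (nat_lit 2312) (C.node (nat_lit 3) (nat_lit 6) (nat_lit 11) (C.cons (nat_lit 3144) (C.node (nat_lit 7) (nat_lit 8) (nat_lit 11) (C.cons (nat_lit 2436) (C.node (nat_lit 7) (nat_lit 10) (nat_lit 11) (C.cons (nat_lit 3200) (C.node (nat_lit 2) (nat_lit 4) (nat_lit 7) (C.cons (nat_lit 180) (C.miq (nat_lit 1350715831) (nat_lit 317950811130504699730725520)) (C.cons (nat_lit 148) (C.node (nat_lit 6) (nat_lit 7) (nat_lit 8) (C.cons (nat_lit 962) (C.miq (nat_lit 611388312) (nat_lit 1415656986847057289475657473)) (C.cons (nat_lit 960) (C.miq (nat_lit 2521532208) (nat_lit 2572664998354134907653783945)) (C.cons (nat_lit 450) (C.miq (nat_lit 1639221040) (nat_lit 2497646960003249843516277129))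 (C.cons (nat_lit 448) (C.node (nat_lit 7) (nat_lit 8) (nat_lit 9) (C.cons (nat_lit 930) (C.miq (nat_lit 611388312) (nat_lit 1415656986847057289473560321)) (C.cons (nat_lit 928) (C.miq (nat_lit 1411879096) (nat_lit 178938140039381903061815041)) (C.cons (nat_lit 898) (C.miq (nat_lit 611388312) (nat_lit 1415656986847057289471463169)) (C.cons (nat_lit 896) (C.node (nat_lit 1) (nat_lit 7) (nat_lit 8) (C.cons (nat_lit 418) (C.node (nat_lit 4) (nat_lit 5) (nat_lit 7) (C.cons (nat_lit 176) (C.node (nat_lit 4) (nat_lit 7) (nat_lit 8) (C.cons (nat_lit 400) (C.node (nat_lit 5) (nat_lit 8) (nat_lit 11) (C.cons (nat_lit 2336) (C.node (nat_lit 7) (nat_lit 8) (nat_lit 10) (C.cons (nat_lit 1408) (C.node (nat_lit 1) (nat_lit 3) (nat_lit 4) (C.cons (nat_lit 26) (C.node (nat_lit 1) (nat_lit 4) (nat_lit 8) C.nil) C.nil)) C.nil)) C.nil)) C.nil)) C.nil)) (C.cons (nat_lit 386) (C.node (nat_lit 2) (nat_lit 6) (nat_lit 7) (C.cons (nat_lit 198) (C.node (nat_lit 6) (nat_lit 7)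 (nat_lit 9) (C.cons (nat_lit 704) (C.node (nat_lit 1) (nat_lit 5) (nat_lit 7) (C.cons (nat_lit 674) (C.miq (nat_lit 1125714805) (nat_lit 632278552866509324900501729)) (C.cons (nat_lit 162) (C.node (nat_lit 1) (nat_lit 7) (nat_lit 9) (C.cons (nat_lit 642) (C.node (nat_lit 4) (nat_lit 5) (nat_lit 7) (C.cons (nat_lit 432) (C.node (nat_lit 7) (nat_lit 8) (nat_lit 10) C.nil) C.nil)) C.nil)) C.nil))) C.nil)) (C.cons (nat_lit 196) (C.node (nat_lit 1) (nat_lit 2) (nat_lit 7) (C.cons (nat_lit 166) (C.node (nat_lit 5) (nat_lit 8) (nat_lit 11) (C.cons (nat_lit 2338) (C.miq (nat_lit 2551319383) (nat_lit 317959389789730442798565601)) (C.cons (nat_lit 2336) (C.node (nat_lit 7) (nat_lit 8) (nat_lit 10) (C.cons (nat_lit 1440) (C.miq (nat_lit 846531466) (nat_lit 200701332423100932936437505)) (C.cons (nat_lit 1408) (C.node (nat_lit 5) (nat_lit 7) (nat_lit 10) (C.cons (nat_lit 1696) (C.miq (nat_lit 1397203129) (nat_lit 261159263014488684157210369)) (C.cons (nat_lit 1184)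 (C.node (nat_lit 1) (nat_lit 6) (nat_lit 7) (C.cons (nat_lit 706) (C.node (nat_lit 2) (nat_lit 3) (nat_lit 7) C.nil) C.nil)) C.nil))) C.nil))) C.nil))) (C.cons (nat_lit 134) (C.node (nat_lit 1) (nat_lit 5) (nat_lit 7) (C.cons (nat_lit 674) (C.miq (nat_lit 1125714805) (nat_lit 632278552866509324900501729)) (C.cons (nat_lit 162) (C.node (nat_lit 1) (nat_lit 6) (nat_lit 7)
  (C.cons (nat_lit 706) (C.node (nat_lit 4) (nat_lit 5) (nat_lit 7) (C.cons (nat_lit 432) (C.node (nat_lit 7) (nat_lit 8) (nat_lit 10) C.nil) C.nil)) C.nil)) C.nil))) C.nil))) C.nil))) C.nil))) C.nil))))) C.nil))))) C.nil))) C.nil)) (C.cons (nat_lit 2432) (C.node (nat_lit 2) (nat_lit 7) (nat_lit 11) (C.cons (nat_lit 3204) (C.node (nat_lit 1) (nat_lit 10) (nat_lit 11) (C.cons (nat_lit 3106) (C.node (nat_lit 5) (nat_lit 9) (nat_lit 11) (C.cons (nat_lit 2596) (C.miq (nat_lit 1537512048) (nat_lit 3733173280324123043243950725)) (C.cons (nat_lit 2592) (C.node (nat_lit 1) (nat_lit 8) (nat_lit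 11) (C.cons (nat_lit 2306) (C.node (nat_lit 2) (nat_lit 5) (nat_lit 11) C.nil) C.nil)) C.nil))) (C.cons (nat_lit 3074) (C.node (nat_lit 5) (nat_lit 10) (nat_lit 11) (C.cons (nat_lit 3104) (C.node (nat_lit 2) (nat_lit 8) (nat_lit 11) (C.cons (nat_lit 2372) (C.miq (nat_lit 642234378) (nat_lit 261187081072432159378312961)) (C.cons (nat_lit 2340) (C.node (nat_lit 1) (nat_lit 5) (nat_lit 11) C.nil) C.nil))) C.nil)) C.nil))) (C.cons (nat_lit 2180) (C.node (nat_lit 7) (nat_lit 10) (nat_lit 11) (C.cons (nat_lit 3200) (C.node (nat_lit 6) (nat_lit 9) (nat_lit 11) (C.cons (nat_lit 2630) (C.miq (nat_lit 2527572484) (nat_lit 1470103677387648270295304221)) (C.cons (nat_lit 2628) (C.miq (nat_lit 2527572484) (nat_lit 1470103677387085320341882909)) (C.cons (nat_lit 2626) (C.node (nat_lit 1) (nat_lit 8) (nat_lit 11) (C.cons (nat_lit 2338) (C.node (nat_lit 1) (nat_lit 2) (nat_lit 11) C.nil) C.nil)) C.nil)))) C.nil)) C.nil))) C.nil))) (C.cons (nat_lit 2120) (C.node (nat_lit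 3) (nat_lit 10) (nat_lit 11) (C.cons (nat_lit 3080) (C.node (nat_lit 6) (nat_lit 10) (nat_lit 11) (C.cons (nat_lit 3138) (C.node (nat_lit 6) (nat_lit 9) (nat_lit 11) (C.cons (nat_lit 2628) (C.miq (nat_lit 2527572484) (nat_lit 1470103677387085320341882909)) (C.cons (nat_lit 2624) (C.node (nat_lit 1) (nat_lit 8) (nat_lit 11) (C.cons (nat_lit 2338) (C.node (nat_lit 1) (nat_lit 2) (nat_lit 11) (C.cons (nat_lit 2566) (C.node (nat_lit 5) (nat_lit 9) (nat_lit 11) C.nil) C.nil)) C.nil)) C.nil))) (C.cons (nat_lit 3136) (C.node (nat_lit 7) (nat_lit 8) (nat_lit 11) (C.cons (nat_lit 2436) (C.node (nat_lit 7) (nat_lit 10) (nat_lit 11) C.nil) (C.cons (nat_lit 2432) (C.node (nat_lit 2) (nat_lit 7) (nat_lit 11) C.nil) C.nil))) C.nil))) C.nil)) C.nil))) C.nil))) C.nil))) (C.cons (nat_lit 2184) (C.ref (nat_lit 254) (nat_lit 205163983024656)) C.nil)))) C.nil)))) C.nil)))) C.nil))) C.nil)))) (C.cons (nat_lit 212) (C.miq (nat_lit 2873493874) (nat_lit 2572614307512360447465751173))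 (C.cons (nat_lit 208) (C.ref (nat_lit 263) (nat_lit 205163983024656)) C.nil)))) C.nil)) C.nil))) List.nil)

theorem ok12_264 : okL par12 (nat_lit 265) c12_264 (nat_lit 264) = true := by decide +kernel

noncomputable def c12_265 : List C :=
  (List.cons (C.node (nat_lit 1) (nat_lit 4) (nat_lit 11) (C.cons (nat_lit 2130) (C.ref (nat_lit 245) (nat_lit 205163983024656)) (C.cons (nat_lit 2098) (C.node (nat_lit 4) (nat_lit 6) (nat_lit 11) (C.cons (nat_lit 3152) (C.node (nat_lit 4) (nat_lit 6) (nat_lit 7) (C.cons (nat_lit 216) (C.miq (nat_lit 642190009) (nat_lit 261139875494353131856203521)) (C.cons (nat_lit 212) (C.node (nat_lit 1) (nat_lit 2) (nat_lit 4) (C.cons (nat_lit 534) (C.miq (nat_lit 2839677814) (nat_lit 645586551046641542984108257)) (C.cons (nat_lit 22) (C.node (nat_lit 3) (nat_lit 4) (nat_lit 7) (C.cons (nat_lit 184) (C.miq (nat_lit 2722301557) (nat_lit 2510958573429676356627073249)) (C.cons (nat_lit 152) (C.node (nat_lit 2) (nat_lit 4) (nat_lit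 9) (C.cons (nat_lit 1556) (C.node (nat_lit 3) (nat_lit 4) (nat_lit 10) (C.cons (nat_lit 1304) (C.miq (nat_lit 607623808) (nat_lit 183768623169331841641025281)) (C.cons (nat_lit 1048) (C.node (nat_lit 3) (nat_lit 9) (nat_lit 11) (C.cons (nat_lit 2632) (C.miq (nat_lit 649660999) (nat_lit 3181904655683297217946322067)) (C.cons (nat_lit 2600) (C.miq (nat_lit 977883259) (nat_lit 1881136537154730520457775329)) (C.cons (nat_lit 2568) (C.node (nat_lit 5) (nat_lit 9) (nat_lit 11) (C.cons (nat_lit 2596) (C.miq (nat_lit 1380432288) (nat_lit 256334203938296649435254529)) (C.cons (nat_lit 2592) (C.node (nat_lit 7) (nat_lit 10) (nat_lit 11) (C.cons (nat_lit 3208) (C.miq (nat_lit 1400113849) (nat_lit 183767073504633614242942721)) (C.cons (nat_lit 3204) (C.miq (nat_lit 1461980073) (nat_lit 256302623021533119336681217)) (C.cons (nat_lit 3200) (C.node (nat_lit 1) (nat_lit 7) (nat_lit 9) (C.cons (nat_lit 962) (C.miq (nat_lit 611388312) (nat_lit 1415656986847057289475657473))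 (C.cons (nat_lit 930) (C.miq (nat_lit 611388312) (nat_lit 1415656986847057289473560321)) (C.cons (nat_lit 898) (C.miq (nat_lit 611388312) (nat_lit 1415656986847057289471463169)) (C.cons (nat_lit 706) (C.miq (nat_lit 2792956084) (nat_lit 853530332089368801587496989)) (C.cons (nat_lit 674) (C.miq (nat_lit 2453762229) (nat_lit 26608801318587802844268769)) (C.cons (nat_lit 642) (C.node (nat_lit 2) (nat_lit 4) (nat_lit 5) (C.cons (nat_lit 308) (C.node (nat_lit 4) (nat_lit 5) (nat_lit 7) (C.cons (nat_lit 176) (C.node (nat_lit 4) (nat_lit 5) (nat_lit 10) (C.cons (nat_lit 1072) (C.node (nat_lit 4) (nat_lit 7) (nat_lit 8) (C.cons (nat_lit 400) (C.node (nat_lit 4) (nat_lit 8) (nat_lit 10) (C.cons (nat_lit 1296) (C.node (nat_lit 2) (nat_lit 8) (nat_lit 9) (C.cons (nat_lit 844) (C.miq (nat_lit 1948453528) (nat_lit 2510946177239619644471119617)) (C.cons (nat_lit 836) (C.miq (nat_lit 3106293514) (nat_lit 1010720130096261429912208531)) (C.cons (nat_lit 780) (C.miq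 (nat_lit 1948453528) (nat_lit 2510946177239619644466925313)) (C.cons (nat_lit 772) (C.node (nat_lit 2) (nat_lit 5) (nat_lit 11) (C.cons (nat_lit 3108) (C.node (nat_lit 5) (nat_lit 6) (nat_lit 10) (C.cons (nat_lit 1634) (C.miq (nat_lit 605686614) (nat_lit 1415672297644635865697356001)) (C.cons (nat_lit 1632) (C.miq (nat_lit 2040968224) (nat_lit 1973008867821469374997661725)) (C.cons (nat_lit 1378) (C.miq (nat_lit 306610362) (nat_lit 256317693445671796528385793)) (C.cons (nat_lit 1376) (C.miq (nat_lit 1680179386) (nat_lit 372374535256017198154780417)) (C.cons (nat_lit 1122) (C.miq (nat_lit 605686614) (nat_lit 1415672297644635865663801569)) (C.cons (nat_lit 1120) (C.node (nat_lit 1) (nat_lit 2) (nat_lit 10) (C.cons (nat_lit 1038) (C.node (nat_lit 1) (nat_lit 10) (nat_lit 11) (C.cons (nat_lit 3074) (C.node (nat_lit 3) (nat_lit 10) (nat_lit 11) (C.cons (nat_lit 3080) (C.node (nat_lit 2) (nat_lit 3) (nat_lit 7) (C.cons (nat_lit 172) (C.miq (nat_lit 2317552471)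 (nat_lit 1254872251411564785514055905)) (C.cons (nat_lit 140) (C.node (nat_lit 2) (nat_lit 3) (nat_lit 8) (C.cons (nat_lit 332) (C.miq (nat_lit 1671725584) (nat_lit 1266960475602338365731700999)) (C.cons (nat_lit 268) (C.node (nat_lit 2) (nat_lit 6) (nat_lit 8) (C.cons (nat_lit 2372) (C.miq (nat_lit 341969592) (nat_lit 256297125581613506270334721))
  (C.cons (nat_lit 324) (C.node (nat_lit 2) (nat_lit 8) (nat_lit 11) (C.cons (nat_lit 2436) (C.miq (nat_lit 1383312256) (nat_lit 169269261403321275314147073)) (C.cons (nat_lit 2308) (C.node (nat_lit 2) (nat_lit 7) (nat_lit 11) (C.cons (nat_lit 2182) (C.miq (nat_lit 2450786229) (nat_lit 26606716836507924636502241)) (C.cons (nat_lit 2180) (C.node (nat_lit 2) (nat_lit 6) (nat_lit 11) (C.cons (nat_lit 2630) (C.miq (nat_lit 1377020816) (nat_lit 1254884647417259107432468225)) (C.cons (nat_lit 2116) (C.miq (nat_lit 2456514724) (nat_lit 2558136914482086698890036371)) C.nil))) C.nil))) C.nil))) C.nil))) C.nil))) C.nil)))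 C.nil)) C.nil)) (C.cons (nat_lit 1030) (C.node (nat_lit 1) (nat_lit 10) (nat_lit 11) (C.cons (nat_lit 3082) (C.node (nat_lit 3) (nat_lit 7) (nat_lit 11) (C.cons (nat_lit 2184) (C.node (nat_lit 3) (nat_lit 6) (nat_lit 11) (C.cons (nat_lit 2376) (C.miq (nat_lit 927367339) (nat_lit 256336103332845214392913665)) (C.cons (nat_lit 2120) (C.node (nat_lit 1) (nat_lit 6) (nat_lit 10) (C.cons (nat_lit 1602) (C.miq (nat_lit 2040968224) (nat_lit 1936741093233030499756476445)) (C.cons (nat_lit 1346) (C.miq (nat_lit 306610362) (nat_lit 256317103149861437822734081)) (C.cons (nat_lit 1090) (C.node (nat_lit 1) (nat_lit 9) (nat_lit 10) (C.cons (nat_lit 1570) (C.miq (nat_lit 827636368) (nat_lit 2536364684306445724629929729)) (C.cons (nat_lit 1538) (C.node (nat_lit 5) (nat_lit 9) (nat_lit 10) (C.cons (nat_lit 1696) (C.miq (nat_lit 880085914) (nat_lit 212790590619248375751511809)) (C.cons (nat_lit 1568) (C.node (nat_lit 1) (nat_lit 5) (nat_lit 10) (C.cons (nat_lit 1314)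 (C.node (nat_lit 5) (nat_lit 7) (nat_lit 10) C.nil) C.nil)) C.nil))) C.nil))) C.nil)))) C.nil))) C.nil)) (C.cons (nat_lit 3074) (C.node (nat_lit 3) (nat_lit 10) (nat_lit 11) (C.cons (nat_lit 3080) (C.node (nat_lit 3) (nat_lit 4) (nat_lit 5) (C.cons (nat_lit 120) (C.node (nat_lit 1) (nat_lit 3) (nat_lit 4) (C.cons (nat_lit 26) (C.node (nat_lit 1) (nat_lit 4) (nat_lit 6) (C.cons (nat_lit 82) (C.node (nat_lit 4) (nat_lit 6) (nat_lit 9) C.nil) C.nil)) C.nil)) (C.cons (nat_lit 56) (C.node (nat_lit 4) (nat_lit 5) (nat_lit 6) (C.cons (nat_lit 112) (C.node (nat_lit 3) (nat_lit 5) (nat_lit 11) (C.cons (nat_lit 2344) (C.node (nat_lit 1) (nat_lit 5) (nat_lit 10) C.nil) C.nil)) C.nil)) C.nil))) C.nil)) C.nil))) C.nil))) C.nil))))))) (C.cons (nat_lit 2084) (C.node (nat_lit 5) (nat_lit 10) (nat_lit 11) (C.cons (nat_lit 3104) (C.node (nat_lit 2) (nat_lit 10) (nat_lit 11) (C.cons (nat_lit 3078) (C.miq (nat_lit 2226194082) (nat_lit 2536331221140053999235761221)) (C.cons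 (nat_lit 3076) (C.node (nat_lit 1) (nat_lit 10) (nat_lit 11) (C.cons (nat_lit 3082) (C.node (nat_lit 3) (nat_lit 7) (nat_lit 11) (C.cons (nat_lit 2184) (C.node (nat_lit 3) (nat_lit 6) (nat_lit 11) (C.cons (nat_lit 2376) (C.miq (nat_lit 927367339) (nat_lit 256336103332845214392913665)) (C.cons (nat_lit 2120) (C.node (nat_lit 3) (nat_lit 4) (nat_lit 5) (C.cons (nat_lit 56) (C.node (nat_lit 4) (nat_lit 5) (nat_lit 6) C.nil) C.nil)) C.nil))) C.nil)) (C.cons (nat_lit 3074) (C.node (nat_lit 3) (nat_lit 10) (nat_lit 11) (C.cons (nat_lit 3080) (C.node (nat_lit 3) (nat_lit 4) (nat_lit 5) (C.cons (nat_lit 120) (C.node (nat_lit 3) (nat_lit 5) (nat_lit 11) C.nil) (C.cons (nat_lit 56) (C.node (nat_lit 4) (nat_lit 5) (nat_lit 6) (C.cons (nat_lit 112) (C.node (nat_lit 3) (nat_lit 5) (nat_lit 11) C.nil) C.nil)) C.nil))) C.nil)) C.nil))) C.nil))) C.nil)) C.nil))) C.nil))))) C.nil)) C.nil)) C.nil)) C.nil)) (C.cons (nat_lit 52) (C.node (nat_lit 2) (nat_lit 4) (nat_lit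 8) (C.cons (nat_lit 276) (C.node (nat_lit 3) (nat_lit 5) (nat_lit 11) (C.cons (nat_lit 2344) (C.node (nat_lit 3) (nat_lit 7) (nat_lit 11) (C.cons (nat_lit 2186) (C.miq (nat_lit 1476703089) (nat_lit 407446703138975707923941514)) (C.cons (nat_lit 2184) (C.node (nat_lit 4) (nat_lit 5) (nat_lit 7) (C.cons (nat_lit 432) (C.miq (nat_lit 361188144) (nat_lit 522277555801374685926066205)) (C.cons (nat_lit 176) (C.node (nat_lit 4) (nat_lit 7) (nat_lit 8) (C.cons (nat_lit 400)
  (C.node (nat_lit 1) (nat_lit 7) (nat_lit 11) (C.cons (nat_lit 2434) (C.miq (nat_lit 1483846404) (nat_lit 2942564146870853087282792477)) (C.cons (nat_lit 2182) (C.miq (nat_lit 2450786229) (nat_lit 26606716836507924636502241)) (C.cons (nat_lit 2178) (C.node (nat_lit 1) (nat_lit 7) (nat_lit 8) (C.cons (nat_lit 450) (C.miq (nat_lit 1483846404) (nat_lit 544055320755428804665739293)) (C.cons (nat_lit 418) (C.node (nat_lit 7) (nat_lit 8) (nat_lit 9) (C.cons (nat_lit 960) (C.miq (nat_lit 2792956084)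 (nat_lit 1160597490271484611962865693)) (C.cons (nat_lit 896) (C.node (nat_lit 6) (nat_lit 7) (nat_lit 8) (C.cons (nat_lit 1472) (C.miq (nat_lit 879168424) (nat_lit 256299523913359417352916737)) (C.cons (nat_lit 448) (C.node (nat_lit 1) (nat_lit 3) (nat_lit 4) (C.cons (nat_lit 282) (C.node (nat_lit 4) (nat_lit 8) (nat_lit 9) (C.cons (nat_lit 784) (C.node (nat_lit 1) (nat_lit 8) (nat_lit 10) (C.cons (nat_lit 1346) (C.miq (nat_lit 306610362) (nat_lit 256317103149861437822734081)) (C.cons (nat_lit 1282) (C.node (nat_lit 2) (nat_lit 6) (nat_lit 8) (C.cons (nat_lit 2372) (C.miq (nat_lit 341969592) (nat_lit 256297125581613506270334721)) (C.cons (nat_lit 868) (C.miq (nat_lit 2709653334) (nat_lit 317967653179529030569036001)) (C.cons (nat_lit 844) (C.miq (nat_lit 1948453528) (nat_lit 2510946177239619644471119617)) (C.cons (nat_lit 836) (C.miq (nat_lit 3106293514) (nat_lit 1010720130096261429912208531)) (C.cons (nat_lit 356) (C.miq (nat_lit 2709653334) (nat_lit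 317967653179529030535481569)) (C.cons (nat_lit 332) (C.miq (nat_lit 1779966019) (nat_lit 1549849025372644252514387997)) (C.cons (nat_lit 324) (C.node (nat_lit 4) (nat_lit 5) (nat_lit 8) C.nil) C.nil)))))))) C.nil))) C.nil)) (C.cons (nat_lit 90) (C.miq (nat_lit 2202103989) (nat_lit 108811034614968022947989729)) (C.cons (nat_lit 26) (C.miq (nat_lit 2202103989) (nat_lit 31439782159631755766794465)) C.nil)))) C.nil))) C.nil))) (C.cons (nat_lit 386) (C.miq (nat_lit 1483846404) (nat_lit 466684068300092537484544029)) C.nil)))) C.nil)))) C.nil)) C.nil))) C.nil))) (C.cons (nat_lit 2088) (C.node (nat_lit 3) (nat_lit 7) (nat_lit 11) (C.cons (nat_lit 2186) (C.node (nat_lit 3) (nat_lit 10) (nat_lit 11) (C.cons (nat_lit 3080) (C.node (nat_lit 1) (nat_lit 6) (nat_lit 7) (C.cons (nat_lit 450) (C.miq (nat_lit 1639221040) (nat_lit 2536332586230917977106874761)) (C.cons (nat_lit 194) (C.node (nat_lit 1) (nat_lit 7) (nat_lit 8) (C.cons (nat_lit 418) (C.miq (nat_lit 2243129664)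 (nat_lit 2524244361043432235882841235)) (C.cons (nat_lit 386) (C.node (nat_lit 1) (nat_lit 10) (nat_lit 11) (C.cons (nat_lit 3078) (C.miq (nat_lit 2226194082) (nat_lit 2536331221140053999235761221)) (C.cons (nat_lit 3074) (C.node (nat_lit 3) (nat_lit 6) (nat_lit 11) (C.cons (nat_lit 2376) (C.miq (nat_lit 927367339) (nat_lit 256336103332845214392913665)) (C.cons (nat_lit 2120) (C.node (nat_lit 3) (nat_lit 8) (nat_lit 11) (C.cons (nat_lit 2312) (C.node (nat_lit 1) (nat_lit 3) (nat_lit 4) (C.cons (nat_lit 282) (C.miq (nat_lit 1367847984) (nat_lit 466687296411062115592898589)) (C.cons (nat_lit 90) (C.miq (nat_lit 2439447362) (nat_lit 234543507302377401934415901)) (C.cons (nat_lit 26) (C.node (nat_lit 6) (nat_lit 7) (nat_lit 8) (C.cons (nat_lit 1472) (C.miq (nat_lit 879168424) (nat_lit 256299523913359417352916737)) (C.cons (nat_lit 960) (C.miq (nat_lit 2792956084) (nat_lit 1160597490271484611962865693)) (C.cons (nat_lit 448) (C.node (nat_lit 1) (nat_lit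 2) (nat_lit 7) (C.cons (nat_lit 166) (C.node (nat_lit 1) (nat_lit 2) (nat_lit 10) (C.cons (nat_lit 1038) (C.miq (nat_lit 1729760050) (nat_lit 1415672297699805339050706973)) (C.cons (nat_lit 1030) (C.node (nat_lit 1) (nat_lit 4) (nat_lit 6) (C.cons (nat_lit 594) (C.node (nat_lit 1) (nat_lit 4) (nat_lit 8) C.nil) C.nil)) C.nil))) (C.cons (nat_lit 134) (C.node (nat_lit 1) (nat_lit 5) (nat_lit 7) (C.cons (nat_lit 162) (C.node (nat_lit 1) (nat_lit 4) (nat_lit 6) (C.cons (nat_lit 594)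
  (C.node (nat_lit 1) (nat_lit 4) (nat_lit 8) C.nil) C.nil)) C.nil)) C.nil))) C.nil)))) C.nil)))) C.nil)) C.nil))) C.nil))) C.nil))) C.nil))) C.nil)) (C.cons (nat_lit 2184) (C.node (nat_lit 3) (nat_lit 10) (nat_lit 11) (C.cons (nat_lit 3082) (C.node (nat_lit 3) (nat_lit 6) (nat_lit 11) (C.cons (nat_lit 2376) (C.miq (nat_lit 927367339) (nat_lit 256336103332845214392913665)) (C.cons (nat_lit 2120) (C.node (nat_lit 3) (nat_lit 8) (nat_lit 11) (C.cons (nat_lit 2312) (C.node (nat_lit 1) (nat_lit 9) (nat_lit 10) (C.cons (nat_lit 1634) (C.miq (nat_lit 827636368) (nat_lit 2536364684306445999507836673)) (C.cons (nat_lit 1602) (C.miq (nat_lit 2040968224) (nat_lit 1936741093233030499756476445)) (C.cons (nat_lit 1570) (C.miq (nat_lit 827636368) (nat_lit 2536364684306445724629929729)) (C.cons (nat_lit 1538) (C.node (nat_lit 5) (nat_lit 9) (nat_lit 10) (C.cons (nat_lit 1696) (C.miq (nat_lit 1397203129) (nat_lit 183788010559152416976015105)) (C.cons (nat_lit 1632)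 (C.miq (nat_lit 2040968224) (nat_lit 1973008867821469374997661725)) (C.cons (nat_lit 1568) (C.node (nat_lit 1) (nat_lit 6) (nat_lit 10) (C.cons (nat_lit 1378) (C.miq (nat_lit 306610362) (nat_lit 256317693445671796528385793)) (C.cons (nat_lit 1346) (C.miq (nat_lit 306610362) (nat_lit 256317103149861437822734081)) (C.cons (nat_lit 1122) (C.miq (nat_lit 605686614) (nat_lit 1415672297644635865663801569)) (C.cons (nat_lit 1090) (C.node (nat_lit 1) (nat_lit 2) (nat_lit 10) (C.cons (nat_lit 1062) (C.node (nat_lit 1) (nat_lit 8) (nat_lit 10) (C.cons (nat_lit 1282) (C.node (nat_lit 2) (nat_lit 10) (nat_lit 11) (C.cons (nat_lit 3076) (C.node (nat_lit 5) (nat_lit 10) (nat_lit 11) (C.cons (nat_lit 3104) (C.node (nat_lit 1) (nat_lit 2) (nat_lit 7) (C.cons (nat_lit 2182) (C.miq (nat_lit 2450786229) (nat_lit 26606716836507924636502241)) (C.cons (nat_lit 142) (C.miq (nat_lit 2709107488) (nat_lit 776201231004085536698992669)) (C.cons (nat_lit 134) (C.node (nat_lit 2)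 (nat_lit 9) (nat_lit 11) (C.cons (nat_lit 2628) (C.node (nat_lit 1) (nat_lit 2) (nat_lit 9) (C.cons (nat_lit 518) (C.node (nat_lit 1) (nat_lit 2) (nat_lit 11) C.nil) C.nil)) (C.cons (nat_lit 2566) (C.miq (nat_lit 1804772464) (nat_lit 3102123816309631767061791891)) (C.cons (nat_lit 2564) (C.miq (nat_lit 1804772464) (nat_lit 3099705964670402508712379539)) C.nil)))) C.nil)))) C.nil)) C.nil)) C.nil)) (C.cons (nat_lit 1030) (C.node (nat_lit 1) (nat_lit 5) (nat_lit 10) (C.cons (nat_lit 1314) (C.node (nat_lit 4) (nat_lit 5) (nat_lit 10) (C.cons (nat_lit 1072) (C.node (nat_lit 4) (nat_lit 8) (nat_lit 10) (C.cons (nat_lit 1296) (C.node (nat_lit 5) (nat_lit 6) (nat_lit 10) (C.cons (nat_lit 1120) (C.node (nat_lit 2) (nat_lit 10) (nat_lit 11) (C.cons (nat_lit 3108) (C.node (nat_lit 5) (nat_lit 7) (nat_lit 10) C.nil) C.nil)) C.nil)) C.nil)) C.nil)) (C.cons (nat_lit 1058) (C.node (nat_lit 1) (nat_lit 8) (nat_lit 10) (C.cons (nat_lit 1282) (C.node (nat_lit 2) (nat_lit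 10) (nat_lit 11) (C.cons (nat_lit 3108) (C.node (nat_lit 5) (nat_lit 8) (nat_lit 11) (C.cons (nat_lit 2336) (C.node (nat_lit 1) (nat_lit 7) (nat_lit 11) (C.cons (nat_lit 2178) (C.node (nat_lit 1) (nat_lit 8) (nat_lit 11) C.nil) C.nil)) C.nil)) (C.cons (nat_lit 3076) (C.node (nat_lit 5) (nat_lit 10) (nat_lit 11) (C.cons (nat_lit 3104) (C.node (nat_lit 4) (nat_lit 5) (nat_lit 10) C.nil) C.nil)) C.nil))) C.nil)) C.nil))) C.nil))) C.nil))))) C.nil)))) C.nil))))) C.nil)) C.nil))) (C.cons (nat_lit 3080) (C.node (nat_lit 1) (nat_lit 10) (nat_lit 11) (C.cons (nat_lit 3078) (C.miq (nat_lit 2226194082) (nat_lit 2536331221140053999235761221)) (C.cons (nat_lit 3074) (C.node (nat_lit 2) (nat_lit 10) (nat_lit 11) (C.cons (nat_lit 3108) (C.node (nat_lit 5) (nat_lit 8) (nat_lit 11) (C.cons (nat_lit 2336) (C.node (nat_lit 5) (nat_lit 6) (nat_lit 10) (C.cons (nat_lit 1634) (C.miq (nat_lit 605686614) (nat_lit 1415672297644635865697356001)) (C.cons (nat_lit 1632) (C.miq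 (nat_lit 2040968224) (nat_lit 1973008867821469374997661725)) (C.cons (nat_lit 1378)
  (C.miq (nat_lit 306610362) (nat_lit 256317693445671796528385793)) (C.cons (nat_lit 1376) (C.miq (nat_lit 1680179386) (nat_lit 62889525434672129429999361)) (C.cons (nat_lit 1122) (C.miq (nat_lit 605686614) (nat_lit 1415672297644635865663801569)) (C.cons (nat_lit 1120) (C.node (nat_lit 1) (nat_lit 2) (nat_lit 10) (C.cons (nat_lit 1038) (C.node (nat_lit 2) (nat_lit 3) (nat_lit 7) (C.cons (nat_lit 172) (C.miq (nat_lit 2317552471) (nat_lit 1254872251411564785514055905)) (C.cons (nat_lit 140) (C.node (nat_lit 1) (nat_lit 3) (nat_lit 4) (C.cons (nat_lit 282) (C.miq (nat_lit 1681524754) (nat_lit 1266974421342262218032283911)) (C.cons (nat_lit 90) (C.miq (nat_lit 1737572867) (nat_lit 776132036459234029371852829)) (C.cons (nat_lit 26) (C.node (nat_lit 1) (nat_lit 6) (nat_lit 10) (C.cons (nat_lit 1602) (C.miq (nat_lit 1630841099) (nat_lit 31490215898225850143543041)) (C.cons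 (nat_lit 1346) (C.miq (nat_lit 306610362) (nat_lit 256317103149861437822734081)) (C.cons (nat_lit 1090) (C.node (nat_lit 1) (nat_lit 9) (nat_lit 10) (C.cons (nat_lit 1570) (C.miq (nat_lit 1362274571) (nat_lit 1254922333682484132471181057)) (C.cons (nat_lit 1538) (C.node (nat_lit 5) (nat_lit 9) (nat_lit 10) (C.cons (nat_lit 1696) (C.miq (nat_lit 1397203129) (nat_lit 183788010559152416976015105)) (C.cons (nat_lit 1568) (C.node (nat_lit 5) (nat_lit 7) (nat_lit 10) (C.cons (nat_lit 1440) (C.miq (nat_lit 1462937611) (nat_lit 169306947631954828266901249)) (C.cons (nat_lit 1184) (C.node (nat_lit 1) (nat_lit 5) (nat_lit 10) (C.cons (nat_lit 1314) (C.node (nat_lit 4) (nat_lit 5) (nat_lit 10) C.nil) C.nil)) C.nil))) C.nil))) C.nil))) C.nil)))) C.nil)))) C.nil))) (C.cons (nat_lit 1030) (C.node (nat_lit 4) (nat_lit 5) (nat_lit 6) (C.cons (nat_lit 120) (C.node (nat_lit 3) (nat_lit 4) (nat_lit 9) (C.cons (nat_lit 792) (C.miq (nat_lit 2472248416) (nat_lit 2524307965522261532274131281))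 (C.cons (nat_lit 536) (C.node (nat_lit 6) (nat_lit 8) (nat_lit 10) (C.cons (nat_lit 1472) (C.miq (nat_lit 879168424) (nat_lit 256299523913359417352916737)) (C.cons (nat_lit 1354) (C.miq (nat_lit 306610362) (nat_lit 256317250723814027499147009)) (C.cons (nat_lit 1352) (C.miq (nat_lit 2556693045) (nat_lit 407418350914706575283717161)) (C.cons (nat_lit 1346) (C.miq (nat_lit 306610362) (nat_lit 256317103149861437822734081)) (C.cons (nat_lit 1344) (C.node (nat_lit 1) (nat_lit 3) (nat_lit 4) (C.cons (nat_lit 282) (C.node (nat_lit 4) (nat_lit 8) (nat_lit 9) C.nil) (C.cons (nat_lit 26) (C.node (nat_lit 3) (nat_lit 4) (nat_lit 8) (C.cons (nat_lit 280) (C.node (nat_lit 1) (nat_lit 4) (nat_lit 6) C.nil) C.nil)) C.nil))) C.nil)))))) C.nil))) (C.cons (nat_lit 112) (C.node (nat_lit 3) (nat_lit 4) (nat_lit 5) (C.cons (nat_lit 312) (C.node (nat_lit 4) (nat_lit 5) (nat_lit 7) (C.cons (nat_lit 176) (C.node (nat_lit 4) (nat_lit 5) (nat_lit 10) C.nil) C.nil)) (C.cons (nat_lit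 56) (C.node (nat_lit 4) (nat_lit 5) (nat_lit 7) (C.cons (nat_lit 432) (C.node (nat_lit 4) (nat_lit 5) (nat_lit 10) C.nil) (C.cons (nat_lit 176) (C.node (nat_lit 4) (nat_lit 7) (nat_lit 8) C.nil) C.nil))) C.nil))) C.nil))) C.nil))) C.nil))))))) C.nil)) (C.cons (nat_lit 3076) (C.node (nat_lit 5) (nat_lit 10) (nat_lit 11) (C.cons (nat_lit 3104) (C.node (nat_lit 2) (nat_lit 5) (nat_lit 11) (C.cons (nat_lit 2340) (C.node (nat_lit 2) (nat_lit 7) (nat_lit 11) (C.cons (nat_lit 2182) (C.miq (nat_lit 2450786229) (nat_lit 26606716836507924636502241)) (C.cons (nat_lit 2180) (C.node (nat_lit 1) (nat_lit 2) (nat_lit 11) (C.cons (nat_lit 2566) (C.miq (nat_lit 1804772464) (nat_lit 3102123816309631767061791891)) (C.cons (nat_lit 2118) (C.miq (nat_lit 2456514724) (nat_lit 2560554766121315957239448723)) C.nil))) C.nil))) (C.cons (nat_lit 2084) (C.node (nat_lit 5) (nat_lit 8) (nat_lit 11) C.nil) C.nil))) C.nil)) C.nil))) C.nil))) C.nil))) C.nil))) C.nil))) C.nil)) C.nil)))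 C.nil))))))) C.nil)))) C.nil))) C.nil)))) C.nil))) (C.cons (nat_lit 788) (C.miq (nat_lit 2839677814) (nat_lit 952653709228757353359476961)) (C.cons (nat_lit 532)
  (C.miq (nat_lit 2839677814) (nat_lit 643168699407412284634695905)) C.nil)))) C.nil))) C.nil))) (C.cons (nat_lit 208) (C.miq (nat_lit 642190009) (nat_lit 251468468937436098458554113)) C.nil)))) (C.cons (nat_lit 2128) (C.node (nat_lit 4) (nat_lit 10) (nat_lit 11) (C.cons (nat_lit 3088) (C.node (nat_lit 5) (nat_lit 10) (nat_lit 11) (C.cons (nat_lit 3108) (C.node (nat_lit 5) (nat_lit 8) (nat_lit 11) (C.cons (nat_lit 2344) (C.node (nat_lit 5) (nat_lit 9) (nat_lit 11) (C.cons (nat_lit 2592) (C.node (nat_lit 7) (nat_lit 10) (nat_lit 11) (C.cons (nat_lit 3208) (C.miq (nat_lit 999663424) (nat_lit 3133555371126540660426998931)) (C.cons (nat_lit 3200) (C.node (nat_lit 3) (nat_lit 7) (nat_lit 11) (C.cons (nat_lit 2186) (C.miq (nat_lit 1476703089) (nat_lit 407446703138975707923941514)) (C.cons (nat_lit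 2184) (C.node (nat_lit 1) (nat_lit 7) (nat_lit 11) (C.cons (nat_lit 2434) (C.miq (nat_lit 1483846404) (nat_lit 2942564146870853087282792477)) (C.cons (nat_lit 2182) (C.miq (nat_lit 727281984) (nat_lit 3133547623205233773560005779)) (C.cons (nat_lit 2178) (C.node (nat_lit 2) (nat_lit 7) (nat_lit 11) (C.cons (nat_lit 2436) (C.miq (nat_lit 1923124051) (nat_lit 1321363171094897047902947624)) (C.cons (nat_lit 2180) (C.node (nat_lit 7) (nat_lit 8) (nat_lit 11) (C.cons (nat_lit 2432) (C.node (nat_lit 2) (nat_lit 8) (nat_lit 11) (C.cons (nat_lit 2372) (C.miq (nat_lit 2198255010) (nat_lit 88295341168592688431565860)) (C.cons (nat_lit 2308) (C.node (nat_lit 5) (nat_lit 7) (nat_lit 10) (C.cons (nat_lit 1696) (C.miq (nat_lit 899353204) (nat_lit 3133574038628338050215707795)) (C.cons (nat_lit 1440) (C.miq (nat_lit 361188144) (nat_lit 1740874781972920894029891613)) (C.cons (nat_lit 1184) (C.node (nat_lit 1) (nat_lit 7) (nat_lit 8) (C.cons (nat_lit 962) (C.miq (nat_lit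 611388312) (nat_lit 1415656986847057289475657473)) (C.cons (nat_lit 930) (C.miq (nat_lit 611388312) (nat_lit 1415656986847057289473560321)) (C.cons (nat_lit 898) (C.miq (nat_lit 611388312) (nat_lit 1415656986847057289471463169)) (C.cons (nat_lit 450) (C.miq (nat_lit 1483846404) (nat_lit 544055320755428804665739293)) (C.cons (nat_lit 418) (C.node (nat_lit 1) (nat_lit 3) (nat_lit 4) (C.cons (nat_lit 282) (C.node (nat_lit 4) (nat_lit 7) (nat_lit 8) (C.cons (nat_lit 404) (C.miq (nat_lit 2441544514) (nat_lit 505342890896055161714903069)) (C.cons (nat_lit 400) (C.node (nat_lit 1) (nat_lit 7) (nat_lit 9) (C.cons (nat_lit 706) (C.node (nat_lit 1) (nat_lit 8) (nat_lit 9) (C.cons (nat_lit 770) (C.node (nat_lit 7) (nat_lit 8) (nat_lit 9) (C.cons (nat_lit 896) (C.node (nat_lit 1) (nat_lit 4) (nat_lit 9) (C.cons (nat_lit 534) (C.miq (nat_lit 2174170144) (nat_lit 853508878297727402183559197)) (C.cons (nat_lit 530) (C.node (nat_lit 3) (nat_lit 9) (nat_lit 11) (C.cons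 (nat_lit 2632) (C.miq (nat_lit 957658736) (nat_lit 640768999024039728359082209)) (C.cons (nat_lit 2568) (C.node (nat_lit 6) (nat_lit 9) (nat_lit 11) (C.cons (nat_lit 2628) (C.miq (nat_lit 689223280) (nat_lit 640768999022913828452239585)) C.nil)) C.nil))) C.nil))) C.nil)) C.nil)) (C.cons (nat_lit 642) (C.node (nat_lit 1) (nat_lit 8) (nat_lit 9) (C.cons (nat_lit 834) (C.node (nat_lit 1) (nat_lit 8) (nat_lit 10) (C.cons (nat_lit 1282) (C.node (nat_lit 1) (nat_lit 8) (nat_lit 11) (C.cons (nat_lit 2306) (C.node (nat_lit 6) (nat_lit 8) (nat_lit 11) C.nil) C.nil)) C.nil)) (C.cons (nat_lit 770) (C.node (nat_lit 1) (nat_lit 8) (nat_lit 10) (C.cons (nat_lit 1346) (C.node (nat_lit 1) (nat_lit 8) (nat_lit 11) (C.cons (nat_lit 2306) (C.node (nat_lit 6) (nat_lit 8) (nat_lit 11) C.nil) C.nil)) (C.cons (nat_lit 1282) (C.node (nat_lit 2) (nat_lit 3) (nat_lit 8) (C.cons (nat_lit 1292) (C.miq (nat_lit 2270834866) (nat_lit 1431392003727693604104439837)) (C.cons (nat_lit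 844) (C.miq (nat_lit 1904804914) (nat_lit 930884779582800416148817949)) (C.cons (nat_lit 780) (C.miq (nat_lit 1904804914) (nat_lit 930884779582800416144623645)) (C.cons (nat_lit 332) (C.miq (nat_lit 1779966019) (nat_lit 1549849025372644252514387997)) (C.cons (nat_lit 268)
  (C.node (nat_lit 3) (nat_lit 4) (nat_lit 10) (C.cons (nat_lit 1624) (C.miq (nat_lit 2589410059) (nat_lit 1431418050876816189946923037)) (C.cons (nat_lit 1560) (C.miq (nat_lit 2589410059) (nat_lit 1431418050858801791437441053)) (C.cons (nat_lit 1112) (C.miq (nat_lit 1669506064) (nat_lit 324012282260994568661435539)) (C.cons (nat_lit 1048) (C.node (nat_lit 1) (nat_lit 6) (nat_lit 8) (C.cons (nat_lit 2370) (C.node (nat_lit 1) (nat_lit 2) (nat_lit 11) (C.cons (nat_lit 2054) (C.node (nat_lit 1) (nat_lit 9) (nat_lit 11) C.nil) C.nil)) (C.cons (nat_lit 322) (C.node (nat_lit 1) (nat_lit 8) (nat_lit 11) C.nil) C.nil))) C.nil))))) C.nil)))))) C.nil))) C.nil))) C.nil))) C.nil))) (C.cons (nat_lit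 90) (C.miq (nat_lit 2202103989) (nat_lit 108811034614968022947989729)) (C.cons (nat_lit 26) (C.miq (nat_lit 2202103989) (nat_lit 31439782159631755766794465)) C.nil)))) (C.cons (nat_lit 386) (C.miq (nat_lit 1483846404) (nat_lit 466684068300092537484544029)) C.nil))))))) C.nil)))) C.nil))) C.nil)) C.nil))) C.nil)))) C.nil))) C.nil))) C.nil)) (C.cons (nat_lit 2336) (C.node (nat_lit 3) (nat_lit 5) (nat_lit 11) (C.cons (nat_lit 2600) (C.node (nat_lit 7) (nat_lit 10) (nat_lit 11) (C.cons (nat_lit 3208) (C.node (nat_lit 3) (nat_lit 4) (nat_lit 7) (C.cons (nat_lit 216) (C.miq (nat_lit 1416859819) (nat_lit 261175938729264038122360577)) (C.cons (nat_lit 184) (C.node (nat_lit 4) (nat_lit 6) (nat_lit 7) (C.cons (nat_lit 212) (C.miq (nat_lit 2722301557) (nat_lit 2510958573429676356627073249)) (C.cons (nat_lit 208) (C.node (nat_lit 5) (nat_lit 7) (nat_lit 10) (C.cons (nat_lit 1696) (C.node (nat_lit 6) (nat_lit 7) (nat_lit 10) (C.cons (nat_lit 1472) (C.miq (nat_lit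 1466210944) (nat_lit 251466919580656102112562945)) (C.cons (nat_lit 1216) (C.node (nat_lit 2) (nat_lit 7) (nat_lit 11) (C.cons (nat_lit 2436) (C.miq (nat_lit 657831946) (nat_lit 222499683975347588691463937)) (C.cons (nat_lit 2182) (C.miq (nat_lit 395686404) (nat_lit 2050376891949658892414289949)) (C.cons (nat_lit 2180) (C.node (nat_lit 2) (nat_lit 9) (nat_lit 11) (C.cons (nat_lit 2630) (C.miq (nat_lit 1784225851) (nat_lit 2050386705310981660277737501)) (C.cons (nat_lit 2628) (C.miq (nat_lit 1784225851) (nat_lit 2050386668417493512858634269)) (C.cons (nat_lit 2566) (C.miq (nat_lit 312515411) (nat_lit 1321365569208218377117043240)) (C.cons (nat_lit 2564) (C.node (nat_lit 3) (nat_lit 4) (nat_lit 8) (C.cons (nat_lit 1304) (C.miq (nat_lit 1731464104) (nat_lit 222448568001651008668700417)) (C.cons (nat_lit 792) (C.miq (nat_lit 1697909656) (nat_lit 222448568001648397295030017)) (C.cons (nat_lit 282) (C.miq (nat_lit 2159097684) (nat_lit 2479512058122062651861369016))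 (C.cons (nat_lit 280) (C.node (nat_lit 2) (nat_lit 3) (nat_lit 5) (C.cons (nat_lit 364) (C.miq (nat_lit 2754742102) (nat_lit 2510959089960465348430661857)) (C.cons (nat_lit 300) (C.miq (nat_lit 625050480) (nat_lit 2536331221129626677509554569)) (C.cons (nat_lit 110) (C.miq (nat_lit 2754742102) (nat_lit 2510959089960465348414015713)) (C.cons (nat_lit 108) (C.miq (nat_lit 2754742102) (nat_lit 2510959089960465348413884641)) (C.cons (nat_lit 46) (C.miq (nat_lit 430256306) (nat_lit 2050339038763866380933793821)) (C.cons (nat_lit 44) (C.node (nat_lit 1) (nat_lit 2) (nat_lit 11) (C.cons (nat_lit 2118) (C.node (nat_lit 1) (nat_lit 9) (nat_lit 11) (C.cons (nat_lit 2562) (C.node (nat_lit 1) (nat_lit 10) (nat_lit 11) (C.cons (nat_lit 3074) (C.node (nat_lit 2) (nat_lit 8) (nat_lit 11) (C.cons (nat_lit 2308) (C.node (nat_lit 6) (nat_lit 9) (nat_lit 11) C.nil) C.nil)) C.nil)) C.nil)) (C.cons (nat_lit 2054) (C.node (nat_lit 1) (nat_lit 3) (nat_lit 4) (C.cons (nat_lit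 90) (C.node (nat_lit 1) (nat_lit 2) (nat_lit 4) (C.cons (nat_lit 534) (C.miq (nat_lit 427115019) (nat_lit 2050376891485788130907326493)) (C.cons (nat_lit 22) (C.node (nat_lit 1) (nat_lit 3) (nat_lit 7) (C.cons (nat_lit 142) (C.miq (nat_lit 2322664242) (nat_lit 1415656987343581313003030557)) (C.cons (nat_lit 138) (C.node (nat_lit 3) (nat_lit 4) (nat_lit 9) (C.cons (nat_lit 1560)
  (C.node (nat_lit 2) (nat_lit 4) (nat_lit 10) (C.cons (nat_lit 1300) (C.miq (nat_lit 874617472) (nat_lit 26606016117778939082379009)) (C.cons (nat_lit 1044) (C.node (nat_lit 3) (nat_lit 6) (nat_lit 11) (C.cons (nat_lit 2376) (C.miq (nat_lit 1399102336) (nat_lit 108813673120587121094102785)) (C.cons (nat_lit 2120) (C.node (nat_lit 6) (nat_lit 9) (nat_lit 10) (C.cons (nat_lit 1602) (C.miq (nat_lit 2520490304) (nat_lit 2562993591977924268138497171)) (C.cons (nat_lit 1600) (C.node (nat_lit 1) (nat_lit 7) (nat_lit 9) (C.cons (nat_lit 962) (C.miq (nat_lit 611388312) (nat_lit 1415656986847057289475657473))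 (C.cons (nat_lit 898) (C.miq (nat_lit 611388312) (nat_lit 1415656986847057289471463169)) (C.cons (nat_lit 706) (C.miq (nat_lit 660867347) (nat_lit 251494884548838355308773899)) (C.cons (nat_lit 642) (C.node (nat_lit 2) (nat_lit 3) (nat_lit 9) (C.cons (nat_lit 844) (C.miq (nat_lit 338823832) (nat_lit 2510943779162890079409278721)) (C.cons (nat_lit 780) (C.miq (nat_lit 338823832) (nat_lit 2510943779162890079405084417)) (C.cons (nat_lit 588) (C.miq (nat_lit 1769026052) (nat_lit 776132036565068620657526813)) (C.cons (nat_lit 524) (C.node (nat_lit 3) (nat_lit 8) (nat_lit 9) (C.cons (nat_lit 840) (C.miq (nat_lit 2838562916) (nat_lit 632289805876910365580329297)) (C.cons (nat_lit 776) (C.node (nat_lit 1) (nat_lit 2) (nat_lit 3) (C.cons (nat_lit 1038) (C.node (nat_lit 1) (nat_lit 9) (nat_lit 10) (C.cons (nat_lit 1538) (C.node (nat_lit 2) (nat_lit 9) (nat_lit 10) (C.cons (nat_lit 1540) (C.node (nat_lit 2) (nat_lit 3) (nat_lit 8) (C.cons (nat_lit 332) (C.miq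 (nat_lit 327459424) (nat_lit 338520830921578934579561541)) C.nil)) C.nil)) C.nil)) (C.cons (nat_lit 14) (C.node (nat_lit 2) (nat_lit 3) (nat_lit 10) (C.cons (nat_lit 1292) (C.miq (nat_lit 1965231016) (nat_lit 53199986273270622447210241)) (C.cons (nat_lit 1036) (C.node (nat_lit 1) (nat_lit 3) (nat_lit 11) (C.cons (nat_lit 2314) (C.node (nat_lit 1) (nat_lit 7) (nat_lit 11) C.nil) C.nil)) C.nil))) C.nil))) C.nil))) C.nil))))) C.nil))))) C.nil))) C.nil))) C.nil))) (C.cons (nat_lit 536) (C.miq (nat_lit 2739490999) (nat_lit 648015525291170020063185121)) C.nil))) C.nil))) C.nil))) (C.cons (nat_lit 26) (C.node (nat_lit 1) (nat_lit 4) (nat_lit 8) (C.cons (nat_lit 786) (C.node (nat_lit 1) (nat_lit 7) (nat_lit 11) (C.cons (nat_lit 2434) (C.miq (nat_lit 1900394640) (nat_lit 2536368299685885019539181313)) (C.cons (nat_lit 2178) (C.node (nat_lit 7) (nat_lit 8) (nat_lit 11) (C.cons (nat_lit 2432) (C.node (nat_lit 1) (nat_lit 7) (nat_lit 8) (C.cons (nat_lit 450) (C.miq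 (nat_lit 425165830) (nat_lit 2050346491322485990920094033)) (C.cons (nat_lit 418) (C.miq (nat_lit 873990999) (nat_lit 950222944372152036669655265)) (C.cons (nat_lit 386) (C.node (nat_lit 1) (nat_lit 2) (nat_lit 4) (C.cons (nat_lit 86) (C.node (nat_lit 2) (nat_lit 4) (nat_lit 9) (C.cons (nat_lit 1556) (C.miq (nat_lit 1948694944) (nat_lit 104009550697252670901915393)) (C.cons (nat_lit 532) (C.node (nat_lit 2) (nat_lit 4) (nat_lit 10) (C.cons (nat_lit 1300) (C.miq (nat_lit 1380366976) (nat_lit 104009550810967461931847425)) (C.cons (nat_lit 1044) (C.node (nat_lit 3) (nat_lit 4) (nat_lit 9) (C.cons (nat_lit 1560) (C.miq (nat_lit 1788092545) (nat_lit 1885925865326480498128716039)) (C.cons (nat_lit 600) (C.miq (nat_lit 2739490999) (nat_lit 725386777746506287244380385)) (C.cons (nat_lit 536) (C.miq (nat_lit 2739490999) (nat_lit 648015525291170020063185121)) C.nil)))) C.nil))) C.nil))) (C.cons (nat_lit 22) (C.node (nat_lit 1) (nat_lit 4) (nat_lit 6) (C.cons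 (nat_lit 82) (C.node (nat_lit 3) (nat_lit 4) (nat_lit 9) (C.cons (nat_lit 1624) (C.miq (nat_lit 1678944640) (nat_lit 26616530779913144423091969)) (C.cons (nat_lit 1560) (C.node (nat_lit 3) (nat_lit 4) (nat_lit 6) (C.cons (nat_lit 88) (C.node (nat_lit 2) (nat_lit 4) (nat_lit 10) (C.cons (nat_lit 1300) (C.miq (nat_lit 874617472) (nat_lit 26606016117778939082379009)) C.nil)) C.nil)) (C.cons (nat_lit 600) (C.miq (nat_lit 2739490999) (nat_lit 725386777746506287244380385)) (C.cons (nat_lit 536)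
  (C.miq (nat_lit 2739490999) (nat_lit 648015525291170020063185121)) C.nil))))) C.nil)) C.nil))) C.nil)))) C.nil)) C.nil))) (C.cons (nat_lit 274) (C.node (nat_lit 1) (nat_lit 7) (nat_lit 11) (C.cons (nat_lit 2434) (C.node (nat_lit 2) (nat_lit 6) (nat_lit 11) (C.cons (nat_lit 2372) (C.miq (nat_lit 2709653430) (nat_lit 317967653179537689321670881)) (C.cons (nat_lit 2116) (C.node (nat_lit 2) (nat_lit 8) (nat_lit 11) (C.cons (nat_lit 2308) (C.node (nat_lit 3) (nat_lit 8) (nat_lit 11) (C.cons (nat_lit 2376) (C.miq (nat_lit 1683194011) (nat_lit 222486180367870378839117569)) C.nil)) C.nil)) C.nil))) (C.cons (nat_lit 2178) (C.node (nat_lit 7) (nat_lit 8) (nat_lit 11) (C.cons (nat_lit 2432) (C.node (nat_lit 1) (nat_lit 9) (nat_lit 11) (C.cons (nat_lit 2626) (C.node (nat_lit 1) (nat_lit 10) (nat_lit 11) C.nil) (C.cons (nat_lit 2562) (C.node (nat_lit 6) (nat_lit 9) (nat_lit 11) (C.cons (nat_lit 2624) (C.node (nat_lit 1) (nat_lit 10) (nat_lit 11) C.nil) C.nil))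 C.nil))) C.nil)) C.nil))) C.nil))) C.nil))) C.nil))) C.nil))))))) C.nil))))) C.nil))))) C.nil)))) C.nil))) (C.cons (nat_lit 1440) (C.miq (nat_lit 628341376) (nat_lit 222480665571363275280027393)) (C.cons (nat_lit 1184) (C.miq (nat_lit 2539303984) (nat_lit 1431439025128817188609263645)) C.nil)))) C.nil))) (C.cons (nat_lit 152) (C.miq (nat_lit 1416859819) (nat_lit 183804686273927770941165313)) C.nil)))) (C.cons (nat_lit 3200) (C.miq (nat_lit 997873984) (nat_lit 3868582269281098412848251441)) C.nil))) (C.cons (nat_lit 2088) (C.node (nat_lit 5) (nat_lit 9) (nat_lit 11) (C.cons (nat_lit 2592) (C.node (nat_lit 7) (nat_lit 10) (nat_lit 11) (C.cons (nat_lit 3208) (C.miq (nat_lit 999663424) (nat_lit 3133555371126540660426998931)) (C.cons (nat_lit 3200) (C.node (nat_lit 3) (nat_lit 7) (nat_lit 11) (C.cons (nat_lit 2186) (C.node (nat_lit 3) (nat_lit 8) (nat_lit 11) (C.cons (nat_lit 2376) (C.miq (nat_lit 1796506480) (nat_lit 2536332586773038782192222601)) (C.cons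 (nat_lit 2312) (C.node (nat_lit 1) (nat_lit 7) (nat_lit 8) (C.cons (nat_lit 962) (C.miq (nat_lit 611388312) (nat_lit 1415656986847057289475657473)) (C.cons (nat_lit 930) (C.miq (nat_lit 611388312) (nat_lit 1415656986847057289473560321)) (C.cons (nat_lit 898) (C.miq (nat_lit 611388312) (nat_lit 1415656986847057289471463169)) (C.cons (nat_lit 450) (C.miq (nat_lit 1639221040) (nat_lit 2536332586230917977106874761)) (C.cons (nat_lit 418) (C.miq (nat_lit 2243129664) (nat_lit 2524244361043432235882841235)) (C.cons (nat_lit 386) (C.node (nat_lit 1) (nat_lit 8) (nat_lit 11) (C.cons (nat_lit 2370) (C.node (nat_lit 1) (nat_lit 10) (nat_lit 11) (C.cons (nat_lit 3074) (C.node (nat_lit 2) (nat_lit 6) (nat_lit 11) (C.cons (nat_lit 2628) (C.miq (nat_lit 2763392914) (nat_lit 2572614306760822259806634629)) (C.cons (nat_lit 2116) (C.node (nat_lit 1) (nat_lit 2) (nat_lit 11) (C.cons (nat_lit 2054) (C.node (nat_lit 1) (nat_lit 9) (nat_lit 11) C.nil) C.nil)) C.nil))) C.nil))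 (C.cons (nat_lit 2306) (C.node (nat_lit 1) (nat_lit 10) (nat_lit 11) (C.cons (nat_lit 3138) (C.node (nat_lit 3) (nat_lit 10) (nat_lit 11) (C.cons (nat_lit 3080) (C.node (nat_lit 1) (nat_lit 2) (nat_lit 11) (C.cons (nat_lit 2054) (C.node (nat_lit 1) (nat_lit 9) (nat_lit 11) C.nil) C.nil)) C.nil)) (C.cons (nat_lit 3074) (C.node (nat_lit 2) (nat_lit 7) (nat_lit 11) (C.cons (nat_lit 2436) (C.node (nat_lit 6) (nat_lit 8) (nat_lit 11) (C.cons (nat_lit 2368) (C.node (nat_lit 3) (nat_lit 9) (nat_lit 11) C.nil) C.nil)) (C.cons (nat_lit 2180) (C.node (nat_lit 7) (nat_lit 8) (nat_lit 11) C.nil) C.nil))) C.nil))) C.nil))) C.nil))))))) C.nil))) (C.cons (nat_lit 2184) (C.node (nat_lit 3) (nat_lit 9) (nat_lit 11) (C.cons (nat_lit 2632) (C.node (nat_lit 1) (nat_lit 7) (nat_lit 9) (C.cons (nat_lit 962) (C.miq (nat_lit 611388312) (nat_lit 1415656986847057289475657473)) (C.cons (nat_lit 930) (C.miq (nat_lit 611388312) (nat_lit 1415656986847057289473560321)) (C.cons (nat_lit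 898) (C.miq (nat_lit 611388312) (nat_lit 1415656986847057289471463169)) (C.cons (nat_lit 706)
  (C.miq (nat_lit 1133579111) (nat_lit 632289805380396203284498657)) (C.cons (nat_lit 674) (C.miq (nat_lit 2511499584) (nat_lit 3757353345701918162928075923)) (C.cons (nat_lit 642) (C.node (nat_lit 1) (nat_lit 9) (nat_lit 11) (C.cons (nat_lit 2566) (C.node (nat_lit 1) (nat_lit 2) (nat_lit 10) (C.cons (nat_lit 1038) (C.miq (nat_lit 1377020816) (nat_lit 1254884647417258832554561281)) (C.cons (nat_lit 1030) (C.node (nat_lit 2) (nat_lit 6) (nat_lit 11) (C.cons (nat_lit 2372) (C.miq (nat_lit 914397985) (nat_lit 407417649598132908353587718)) (C.cons (nat_lit 2116) (C.node (nat_lit 2) (nat_lit 7) (nat_lit 11) (C.cons (nat_lit 2436) (C.miq (nat_lit 2073264656) (nat_lit 3181900007481809019867955463)) (C.cons (nat_lit 2180) (C.node (nat_lit 2) (nat_lit 8) (nat_lit 11) (C.cons (nat_lit 2308) (C.node (nat_lit 1) (nat_lit 7) (nat_lit 11) C.nil) C.nil)) C.nil))) C.nil)))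 C.nil))) (C.cons (nat_lit 2562) (C.node (nat_lit 2) (nat_lit 9) (nat_lit 11) (C.cons (nat_lit 2564) (C.node (nat_lit 3) (nat_lit 8) (nat_lit 11) (C.cons (nat_lit 2314) (C.node (nat_lit 3) (nat_lit 10) (nat_lit 11) (C.cons (nat_lit 3080) (C.node (nat_lit 1) (nat_lit 7) (nat_lit 11) C.nil) C.nil)) (C.cons (nat_lit 2312) (C.node (nat_lit 1) (nat_lit 3) (nat_lit 11) (C.cons (nat_lit 3082) (C.node (nat_lit 6) (nat_lit 10) (nat_lit 11) C.nil) C.nil)) C.nil))) C.nil)) C.nil))) C.nil))))))) (C.cons (nat_lit 2568) (C.node (nat_lit 1) (nat_lit 7) (nat_lit 11) (C.cons (nat_lit 2434) (C.node (nat_lit 2) (nat_lit 7) (nat_lit 11) (C.cons (nat_lit 2180) (C.node (nat_lit 2) (nat_lit 8) (nat_lit 11) (C.cons (nat_lit 2372) (C.miq (nat_lit 2709653430) (nat_lit 317967653179537689321670881)) (C.cons (nat_lit 2308) (C.node (nat_lit 3) (nat_lit 8) (nat_lit 11) (C.cons (nat_lit 2376) (C.node (nat_lit 1) (nat_lit 3) (nat_lit 11) C.nil) C.nil)) C.nil))) C.nil)) (C.cons (nat_lit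 2182) (C.miq (nat_lit 727281984) (nat_lit 3133547623205233773560005779)) (C.cons (nat_lit 2178) (C.node (nat_lit 2) (nat_lit 7) (nat_lit 11) (C.cons (nat_lit 2436) (C.node (nat_lit 2) (nat_lit 7) (nat_lit 10) (C.cons (nat_lit 1164) (C.miq (nat_lit 1383312256) (nat_lit 1407209300688701550213271297)) (C.cons (nat_lit 1156) (C.node (nat_lit 2) (nat_lit 8) (nat_lit 10) (C.cons (nat_lit 1300) (C.miq (nat_lit 942278581) (nat_lit 1571623211392086556381808865)) (C.cons (nat_lit 1292) (C.node (nat_lit 2) (nat_lit 4) (nat_lit 10) (C.cons (nat_lit 1556) (C.miq (nat_lit 1800013714) (nat_lit 3733183093901051691789451909)) (C.cons (nat_lit 1044) (C.node (nat_lit 4) (nat_lit 7) (nat_lit 8) (C.cons (nat_lit 432) (C.miq (nat_lit 2776117426) (nat_lit 522279787566643649030916125)) (C.cons (nat_lit 400) (C.node (nat_lit 4) (nat_lit 8) (nat_lit 10) (C.cons (nat_lit 1328) (C.miq (nat_lit 2024124976) (nat_lit 1605495418583185678255327261)) (C.cons (nat_lit 1296) (C.node (nat_lit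 5) (nat_lit 7) (nat_lit 10) (C.cons (nat_lit 1696) (C.miq (nat_lit 2320966411) (nat_lit 2050383126698644880968714269)) (C.cons (nat_lit 1440) (C.node (nat_lit 2) (nat_lit 4) (nat_lit 7) (C.cons (nat_lit 212) (C.miq (nat_lit 2485827424) (nat_lit 1262189410382769224411318497)) (C.cons (nat_lit 180) (C.miq (nat_lit 844565416) (nat_lit 217613897685691094781660929)) (C.cons (nat_lit 148) (C.node (nat_lit 4) (nat_lit 5) (nat_lit 7) (C.cons (nat_lit 184) (C.miq (nat_lit 628341376) (nat_lit 222480665571363275280027393)) (C.cons (nat_lit 176) (C.node (nat_lit 5) (nat_lit 7) (nat_lit 9) (C.cons (nat_lit 680) (C.miq (nat_lit 628341376) (nat_lit 822107872100219345934290689)) (C.cons (nat_lit 674) (C.miq (nat_lit 2511499584) (nat_lit 3757353345701918162928075923)) (C.cons (nat_lit 672) (C.node (nat_lit 2) (nat_lit 9) (nat_lit 11) (C.cons (nat_lit 2628) (C.miq (nat_lit 2460268039) (nat_lit 1262168436413369102292420833)) (C.cons (nat_lit 2566) (C.miq (nat_lit 2073264656)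 (nat_lit 3104528755026472752686760199)) (C.cons (nat_lit 2564) (C.node (nat_lit 1) (nat_lit 2) (nat_lit 11) (C.cons (nat_lit 2118)
  (C.node (nat_lit 1) (nat_lit 9) (nat_lit 11) C.nil) C.nil)) C.nil)))) C.nil)))) C.nil))) C.nil)))) (C.cons (nat_lit 1184) (C.miq (nat_lit 2320966411) (nat_lit 1431413107055954743519152157)) C.nil)))) C.nil))) C.nil))) C.nil))) (C.cons (nat_lit 1284) (C.miq (nat_lit 942278581) (nat_lit 1552280398278252489586510049)) C.nil)))) C.nil))) (C.cons (nat_lit 2180) (C.node (nat_lit 7) (nat_lit 8) (nat_lit 11) C.nil) C.nil))) C.nil)))) C.nil))) C.nil))) C.nil))) C.nil)) C.nil))) C.nil))) (C.cons (nat_lit 3104) (C.ref (nat_lit 246) (nat_lit 205163983024656)) C.nil))) C.nil)) C.nil))) (C.cons (nat_lit 2066) (C.node (nat_lit 4) (nat_lit 5) (nat_lit 11) (C.cons (nat_lit 3120) (C.node (nat_lit 4) (nat_lit 6) (nat_lit 11) (C.cons (nat_lit 2128) (C.node (nat_lit 7) (nat_lit 10) (nat_lit 11) (C.cons (nat_lit 3208) (C.miq (nat_lit 1930017364)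 (nat_lit 632318084557402668463623216)) (C.cons (nat_lit 3204) (C.miq (nat_lit 2718283668) (nat_lit 44787810069099848936786576)) (C.cons (nat_lit 3200) (C.node (nat_lit 2) (nat_lit 10) (nat_lit 11) (C.cons (nat_lit 3078) (C.node (nat_lit 2) (nat_lit 5) (nat_lit 11) (C.cons (nat_lit 2596) (C.miq (nat_lit 732403008) (nat_lit 3868574521647463341636125233)) (C.cons (nat_lit 2340) (C.miq (nat_lit 1166060321) (nat_lit 349401163884150122952985606)) (C.cons (nat_lit 2084) (C.node (nat_lit 2) (nat_lit 9) (nat_lit 11) (C.cons (nat_lit 2628) (C.miq (nat_lit 2763392914) (nat_lit 2572614306760822259806634629)) (C.cons (nat_lit 2564) (C.node (nat_lit 2) (nat_lit 6) (nat_lit 11) (C.cons (nat_lit 2372) (C.miq (nat_lit 461677152) (nat_lit 2804729503509640165203182661)) (C.cons (nat_lit 2116) (C.node (nat_lit 2) (nat_lit 7) (nat_lit 11) (C.cons (nat_lit 2436) (C.node (nat_lit 2) (nat_lit 4) (nat_lit 7) (C.cons (nat_lit 212) (C.miq (nat_lit 2873493874) (nat_lit 2572614307512360447465751173))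 (C.cons (nat_lit 180) (C.miq (nat_lit 2605845063) (nat_lit 2519413307307973528603853971)) (C.cons (nat_lit 148) (C.node (nat_lit 1) (nat_lit 7) (nat_lit 11) (C.cons (nat_lit 2186) (C.node (nat_lit 3) (nat_lit 5) (nat_lit 11) (C.cons (nat_lit 2600) (C.miq (nat_lit 1094256565) (nat_lit 632278552611492996126869729)) (C.cons (nat_lit 2344) (C.miq (nat_lit 1267180848) (nat_lit 2944964898596758978235532329)) (C.cons (nat_lit 2088) (C.node (nat_lit 3) (nat_lit 8) (nat_lit 11) (C.cons (nat_lit 2376) (C.miq (nat_lit 1796506480) (nat_lit 2497646960545370648601624969)) (C.cons (nat_lit 2312) (C.node (nat_lit 3) (nat_lit 9) (nat_lit 11) (C.cons (nat_lit 2632) (C.node (nat_lit 3) (nat_lit 10) (nat_lit 11) C.nil) (C.cons (nat_lit 2568) (C.node (nat_lit 3) (nat_lit 6) (nat_lit 11) (C.cons (nat_lit 2120) (C.node (nat_lit 3) (nat_lit 10) (nat_lit 11) C.nil) C.nil)) C.nil))) C.nil))) C.nil)))) (C.cons (nat_lit 2178) (C.node (nat_lit 3) (nat_lit 7) (nat_lit 11) (C.cons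 (nat_lit 2184) (C.node (nat_lit 3) (nat_lit 10) (nat_lit 11) (C.cons (nat_lit 3144) (C.node (nat_lit 3) (nat_lit 9) (nat_lit 11) (C.cons (nat_lit 2600) (C.miq (nat_lit 347671123) (nat_lit 3268945064214728436697531433)) (C.cons (nat_lit 2568) (C.node (nat_lit 5) (nat_lit 9) (nat_lit 11) (C.cons (nat_lit 2592) (C.node (nat_lit 1) (nat_lit 9) (nat_lit 11) C.nil) C.nil)) C.nil))) (C.cons (nat_lit 3080) (C.node (nat_lit 6) (nat_lit 10) (nat_lit 11) (C.cons (nat_lit 3136) (C.node (nat_lit 3) (nat_lit 9) (nat_lit 11) (C.cons (nat_lit 2632) (C.node (nat_lit 1) (nat_lit 6) (nat_lit 11) C.nil) (C.cons (nat_lit 2600) (C.miq (nat_lit 347671123) (nat_lit 3268945064214728436697531433)) C.nil))) C.nil)) C.nil))) C.nil)) C.nil))) C.nil)))) (C.cons (nat_lit 2180) (C.node (nat_lit 2) (nat_lit 8) (nat_lit 11) (C.cons (nat_lit 2308) (C.node (nat_lit 3) (nat_lit 7) (nat_lit 11) (C.cons (nat_lit 2186) (C.node (nat_lit 7) (nat_lit 8) (nat_lit 11) (C.cons (nat_lit 2432) (C.node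 (nat_lit 3) (nat_lit 5) (nat_lit 11) (C.cons (nat_lit 2600) (C.miq (nat_lit 1094256565) (nat_lit 632278552611492996126869729)) (C.cons (nat_lit 2344) (C.miq (nat_lit 1267180848) (nat_lit 2940129195318300461536707625))
  (C.cons (nat_lit 2088) (C.node (nat_lit 3) (nat_lit 8) (nat_lit 11) (C.cons (nat_lit 2376) (C.miq (nat_lit 1796506480) (nat_lit 2497646960545370648601624969)) C.nil)) C.nil)))) C.nil)) (C.cons (nat_lit 2184) (C.node (nat_lit 1) (nat_lit 7) (nat_lit 11) (C.cons (nat_lit 2434) (C.node (nat_lit 5) (nat_lit 8) (nat_lit 11) (C.cons (nat_lit 2344) (C.miq (nat_lit 458913840) (nat_lit 3771870159020073499755086217)) (C.cons (nat_lit 2336) (C.node (nat_lit 3) (nat_lit 8) (nat_lit 11) (C.cons (nat_lit 2376) (C.node (nat_lit 3) (nat_lit 10) (nat_lit 11) C.nil) C.nil)) C.nil))) (C.cons (nat_lit 2178) (C.node (nat_lit 7) (nat_lit 8) (nat_lit 11) C.nil) C.nil))) C.nil))) C.nil)) C.nil))) C.nil))) C.nil))) C.nil)))) (C.cons (nat_lit 3076) (C.node (nat_lit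 3) (nat_lit 7) (nat_lit 11) (C.cons (nat_lit 2186) (C.node (nat_lit 3) (nat_lit 5) (nat_lit 11) (C.cons (nat_lit 2600) (C.miq (nat_lit 1094256565) (nat_lit 632278552611492996126869729)) (C.cons (nat_lit 2344) (C.miq (nat_lit 1958218323) (nat_lit 2804715151405981251351872553)) (C.cons (nat_lit 2088) (C.node (nat_lit 3) (nat_lit 8) (nat_lit 11) (C.cons (nat_lit 2376) (C.miq (nat_lit 1796506480) (nat_lit 2497646960545370648601624969)) (C.cons (nat_lit 2312) (C.node (nat_lit 1) (nat_lit 10) (nat_lit 11) (C.cons (nat_lit 3138) (C.node (nat_lit 3) (nat_lit 10) (nat_lit 11) (C.cons (nat_lit 3080) (C.node (nat_lit 1) (nat_lit 3) (nat_lit 10) (C.cons (nat_lit 1290) (C.miq (nat_lit 1631042176) (nat_lit 2642753772010132935170133761)) (C.cons (nat_lit 1038) (C.miq (nat_lit 1906750240) (nat_lit 3793651152015294649375983645)) (C.cons (nat_lit 1034) (C.node (nat_lit 1) (nat_lit 9) (nat_lit 10) (C.cons (nat_lit 1574) (C.miq (nat_lit 2478116938) (nat_lit 2524266146677738069291959443))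 (C.cons (nat_lit 1570) (C.miq (nat_lit 2478116938) (nat_lit 2524266072890761774453752979)) (C.cons (nat_lit 1542) (C.miq (nat_lit 2544967786) (nat_lit 2642740286738502158680982597)) (C.cons (nat_lit 1538) (C.node (nat_lit 1) (nat_lit 2) (nat_lit 10) (C.cons (nat_lit 1062) (C.node (nat_lit 1) (nat_lit 8) (nat_lit 10) (C.cons (nat_lit 1282) (C.node (nat_lit 1) (nat_lit 2) (nat_lit 7) (C.cons (nat_lit 198) (C.miq (nat_lit 2584873831) (nat_lit 1283891119661822589364734177)) (C.cons (nat_lit 134) (C.node (nat_lit 2) (nat_lit 5) (nat_lit 11) (C.cons (nat_lit 2596) (C.miq (nat_lit 732403008) (nat_lit 3868574521647463341636125233)) (C.cons (nat_lit 2340) (C.miq (nat_lit 1159834496) (nat_lit 1283900822446258475000860417)) (C.cons (nat_lit 2084) (C.node (nat_lit 5) (nat_lit 7) (nat_lit 10) (C.cons (nat_lit 1696) (C.miq (nat_lit 2603971594) (nat_lit 2524268397794411985928520851)) (C.cons (nat_lit 1440) (C.miq (nat_lit 2243131968) (nat_lit 2524244361331104051537708179))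 (C.cons (nat_lit 1184) (C.node (nat_lit 1) (nat_lit 4) (nat_lit 5) (C.cons (nat_lit 314) (C.miq (nat_lit 2589002563) (nat_lit 1283888869159045519497627677)) (C.cons (nat_lit 306) (C.miq (nat_lit 1683621906) (nat_lit 3771868719583773971104268551)) (C.cons (nat_lit 122) (C.miq (nat_lit 2585004901) (nat_lit 1415662484473314977800390881)) (C.cons (nat_lit 114) (C.miq (nat_lit 2585004901) (nat_lit 1415662484473314977799866593)) (C.cons (nat_lit 58) (C.miq (nat_lit 2589002563) (nat_lit 1283888869159045519480850461)) (C.cons (nat_lit 50) (C.node (nat_lit 1) (nat_lit 2) (nat_lit 3) (C.cons (nat_lit 78) (C.node (nat_lit 1) (nat_lit 2) (nat_lit 11) (C.cons (nat_lit 2566) (C.node (nat_lit 1) (nat_lit 2) (nat_lit 4) C.nil) C.nil)) (C.cons (nat_lit 14) (C.node (nat_lit 1) (nat_lit 2) (nat_lit 11) (C.cons (nat_lit 2566) (C.node (nat_lit 5) (nat_lit 9) (nat_lit 11) C.nil) C.nil)) C.nil))) C.nil))))))) C.nil)))) C.nil)))) C.nil))) C.nil)) (C.cons (nat_lit 1030) (C.node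 (nat_lit 1) (nat_lit 5) (nat_lit 10) (C.cons (nat_lit 1314) (C.node (nat_lit 1) (nat_lit 8) (nat_lit 11) (C.cons (nat_lit 2306) (C.node (nat_lit 2) (nat_lit 7) (nat_lit 11) (C.cons (nat_lit 2436) (C.miq (nat_lit 1479254276) (nat_lit 2945000850792605892495606931)) (C.cons (nat_lit 2180)
  (C.node (nat_lit 7) (nat_lit 8) (nat_lit 11) (C.cons (nat_lit 2432) (C.node (nat_lit 6) (nat_lit 8) (nat_lit 11) (C.cons (nat_lit 2372) (C.miq (nat_lit 1479254276) (nat_lit 2867629598337269625314411667)) C.nil)) C.nil)) C.nil))) C.nil)) (C.cons (nat_lit 1058) (C.node (nat_lit 1) (nat_lit 8) (nat_lit 10) (C.cons (nat_lit 1282) (C.node (nat_lit 1) (nat_lit 8) (nat_lit 11) (C.cons (nat_lit 2338) (C.node (nat_lit 2) (nat_lit 5) (nat_lit 11) (C.cons (nat_lit 2596) (C.miq (nat_lit 732403008) (nat_lit 3868574521647463341636125233)) (C.cons (nat_lit 2084) (C.node (nat_lit 5) (nat_lit 9) (nat_lit 11) (C.cons (nat_lit 2592) (C.node (nat_lit 1) (nat_lit 2) (nat_lit 11) (C.cons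 (nat_lit 2054) (C.node (nat_lit 1) (nat_lit 9) (nat_lit 11) C.nil) C.nil)) C.nil)) C.nil))) (C.cons (nat_lit 2306) (C.node (nat_lit 5) (nat_lit 8) (nat_lit 11) (C.cons (nat_lit 2340) (C.miq (nat_lit 2175082571) (nat_lit 1279086682607443095675996189)) (C.cons (nat_lit 2336) (C.node (nat_lit 2) (nat_lit 7) (nat_lit 11) (C.cons (nat_lit 2436) (C.node (nat_lit 6) (nat_lit 8) (nat_lit 11) (C.cons (nat_lit 2368) (C.node (nat_lit 2) (nat_lit 6) (nat_lit 11) C.nil) C.nil)) (C.cons (nat_lit 2180) (C.node (nat_lit 7) (nat_lit 8) (nat_lit 11) C.nil) C.nil))) C.nil))) C.nil))) C.nil)) C.nil))) C.nil))) C.nil))))) C.nil)))) C.nil)) (C.cons (nat_lit 3074) (C.node (nat_lit 2) (nat_lit 7) (nat_lit 11) (C.cons (nat_lit 2436) (C.node (nat_lit 2) (nat_lit 4) (nat_lit 7) (C.cons (nat_lit 212) (C.miq (nat_lit 2873493874) (nat_lit 2572614307512360447465751173)) (C.cons (nat_lit 180) (C.miq (nat_lit 2686826868) (nat_lit 44787810248399409076505232)) (C.cons (nat_lit 148) (C.node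 (nat_lit 2) (nat_lit 9) (nat_lit 11) (C.cons (nat_lit 2630) (C.miq (nat_lit 657569801) (nat_lit 2642760357300167963252035329)) (C.cons (nat_lit 2628) (C.miq (nat_lit 2763392914) (nat_lit 2572614306760822259806634629)) (C.cons (nat_lit 2598) (C.miq (nat_lit 657569801) (nat_lit 2642759767004357604546383617)) (C.cons (nat_lit 2596) (C.miq (nat_lit 1383381258) (nat_lit 178978575875186901529071361)) (C.cons (nat_lit 2566) (C.miq (nat_lit 657569801) (nat_lit 2642759176708547245840731905)) (C.cons (nat_lit 2564) (C.node (nat_lit 2) (nat_lit 5) (nat_lit 11) (C.cons (nat_lit 2086) (C.node (nat_lit 2) (nat_lit 6) (nat_lit 11) (C.cons (nat_lit 2116) (C.node (nat_lit 5) (nat_lit 8) (nat_lit 11) (C.cons (nat_lit 2336) (C.node (nat_lit 5) (nat_lit 9) (nat_lit 11) C.nil) C.nil)) C.nil)) (C.cons (nat_lit 2084) (C.node (nat_lit 1) (nat_lit 2) (nat_lit 11) (C.cons (nat_lit 2118) (C.node (nat_lit 6) (nat_lit 8) (nat_lit 11) (C.cons (nat_lit 2368) (C.node (nat_lit 1) (nat_lit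 8) (nat_lit 11) C.nil) C.nil)) (C.cons (nat_lit 2054) (C.node (nat_lit 2) (nat_lit 6) (nat_lit 11) C.nil) C.nil))) C.nil))) C.nil))))))) C.nil)))) (C.cons (nat_lit 2180) (C.node (nat_lit 7) (nat_lit 8) (nat_lit 11) (C.cons (nat_lit 2432) (C.node (nat_lit 3) (nat_lit 9) (nat_lit 11) (C.cons (nat_lit 2632) (C.node (nat_lit 3) (nat_lit 10) (nat_lit 11) (C.cons (nat_lit 3080) (C.node (nat_lit 6) (nat_lit 10) (nat_lit 11) C.nil) C.nil)) (C.cons (nat_lit 2568) (C.node (nat_lit 3) (nat_lit 6) (nat_lit 11) (C.cons (nat_lit 3144) (C.node (nat_lit 5) (nat_lit 9) (nat_lit 11) (C.cons (nat_lit 2596) (C.miq (nat_lit 732403008) (nat_lit 3868574521647463341636125233)) (C.cons (nat_lit 2594) (C.node (nat_lit 1) (nat_lit 2) (nat_lit 11) C.nil) C.nil))) C.nil)) C.nil))) C.nil)) C.nil))) C.nil))) C.nil))) C.nil)))) (C.cons (nat_lit 2184) (C.node (nat_lit 2) (nat_lit 4) (nat_lit 10) (C.cons (nat_lit 1556) (C.miq (nat_lit 1800013714) (nat_lit 3771868720128719825380049541))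 (C.cons (nat_lit 1300) (C.node (nat_lit 2) (nat_lit 4) (nat_lit 7) (C.cons (nat_lit 212) (C.miq (nat_lit 2485827424) (nat_lit 1571674420204114293136099553)) (C.cons (nat_lit 180) (C.miq (nat_lit 2588019543) (nat_lit 1571615464730104255634213089)) (C.cons (nat_lit 148) (C.node (nat_lit 7) (nat_lit 8) (nat_lit 10) (C.cons (nat_lit 1472) (C.miq (nat_lit 2018208288) (nat_lit 2804749831369555976440841285))
  (C.cons (nat_lit 1440) (C.miq (nat_lit 883428183) (nat_lit 1571610815654075821992184033)) (C.cons (nat_lit 1408) (C.node (nat_lit 2) (nat_lit 4) (nat_lit 5) (C.cons (nat_lit 118) (C.miq (nat_lit 2220597856) (nat_lit 3771919411507548120149984325)) (C.cons (nat_lit 116) (C.miq (nat_lit 2220597856) (nat_lit 3771919411507548111560049733)) (C.cons (nat_lit 54) (C.miq (nat_lit 280307876) (nat_lit 2747889384182276510471685396)) (C.cons (nat_lit 52) (C.node (nat_lit 5) (nat_lit 8) (nat_lit 10) (C.cons (nat_lit 1378) (C.miq (nat_lit 306544826) (nat_lit 62889562307331128573300481))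 (C.cons (nat_lit 1376) (C.miq (nat_lit 1481337376) (nat_lit 2804749831342534378676618309)) (C.cons (nat_lit 1314) (C.miq (nat_lit 306544826) (nat_lit 62888381715710411161997057)) (C.cons (nat_lit 1312) (C.node (nat_lit 4) (nat_lit 6) (nat_lit 7) (C.cons (nat_lit 216) (C.node (nat_lit 3) (nat_lit 4) (nat_lit 10) (C.cons (nat_lit 1560) (C.miq (nat_lit 323094952) (nat_lit 2510943778980494294530658049)) (C.cons (nat_lit 1048) (C.node (nat_lit 3) (nat_lit 4) (nat_lit 9) (C.cons (nat_lit 792) (C.miq (nat_lit 2490073968) (nat_lit 2572664998306847111579238793)) (C.cons (nat_lit 536) (C.node (nat_lit 6) (nat_lit 7) (nat_lit 10) (C.cons (nat_lit 1728) (C.miq (nat_lit 611715994) (nat_lit 261148139912667606609301249)) (C.cons (nat_lit 1216) (C.node (nat_lit 3) (nat_lit 9) (nat_lit 11) (C.cons (nat_lit 2632) (C.miq (nat_lit 2471147120) (nat_lit 1267025113640961559971956961)) (C.cons (nat_lit 2600) (C.miq (nat_lit 2761099189) (nat_lit 648003885425498549805123809))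 (C.cons (nat_lit 2568) (C.node (nat_lit 4) (nat_lit 5) (nat_lit 6) (C.cons (nat_lit 114) (C.node (nat_lit 1) (nat_lit 3) (nat_lit 4) (C.cons (nat_lit 282) (C.miq (nat_lit 2152806244) (nat_lit 42317605778970235523694808)) (C.cons (nat_lit 26) (C.node (nat_lit 1) (nat_lit 10) (nat_lit 11) (C.cons (nat_lit 3146) (C.miq (nat_lit 2585004901) (nat_lit 1415662484473315012159604961)) (C.cons (nat_lit 3138) (C.miq (nat_lit 2585004901) (nat_lit 1415662484473314977799866593)) (C.cons (nat_lit 3082) (C.miq (nat_lit 1530481168) (nat_lit 3104531854272008236164646035)) (C.cons (nat_lit 3074) (C.node (nat_lit 1) (nat_lit 2) (nat_lit 4) (C.cons (nat_lit 534) (C.node (nat_lit 1) (nat_lit 4) (nat_lit 8) (C.cons (nat_lit 274) (C.node (nat_lit 2) (nat_lit 4) (nat_lit 6) (C.cons (nat_lit 84) (C.node (nat_lit 4) (nat_lit 8) (nat_lit 9) C.nil) C.nil)) C.nil)) (C.cons (nat_lit 22) (C.node (nat_lit 1) (nat_lit 4) (nat_lit 8) (C.cons (nat_lit 786) (C.node (nat_lit 4) (nat_lit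 6) (nat_lit 10) (C.cons (nat_lit 1616) (C.miq (nat_lit 1678944640) (nat_lit 26616530777661344609406721)) (C.cons (nat_lit 1104) (C.node (nat_lit 4) (nat_lit 9) (nat_lit 10) C.nil) C.nil))) (C.cons (nat_lit 274) (C.node (nat_lit 1) (nat_lit 4) (nat_lit 9) C.nil) C.nil))) C.nil))) C.nil))))) C.nil))) (C.cons (nat_lit 112) (C.node (nat_lit 4) (nat_lit 5) (nat_lit 7) (C.cons (nat_lit 432) (C.node (nat_lit 1) (nat_lit 4) (nat_lit 5) (C.cons (nat_lit 58) (C.miq (nat_lit 1402683658) (nat_lit 3104579058628205489615340691)) (C.cons (nat_lit 50) (C.node (nat_lit 3) (nat_lit 4) (nat_lit 5) (C.cons (nat_lit 56) (C.node (nat_lit 1) (nat_lit 3) (nat_lit 4) (C.cons (nat_lit 282) (C.node (nat_lit 4) (nat_lit 8) (nat_lit 9) C.nil) C.nil)) C.nil)) C.nil))) (C.cons (nat_lit 176) (C.node (nat_lit 4) (nat_lit 7) (nat_lit 8) (C.cons (nat_lit 400) (C.node (nat_lit 4) (nat_lit 6) (nat_lit 10) (C.cons (nat_lit 1616) (C.node (nat_lit 1) (nat_lit 4) (nat_lit 6) (C.cons (nat_lit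 86) (C.miq (nat_lit 278276260) (nat_lit 697551784411675788777096468)) C.nil)) C.nil)) C.nil)) C.nil))) C.nil))) C.nil)))) C.nil))) C.nil))) C.nil))) (C.cons (nat_lit 208) (C.node (nat_lit 3) (nat_lit 4) (nat_lit 7) (C.cons (nat_lit 184) (C.miq (nat_lit 950300853) (nat_lit 1571606959810563652696672481)) (C.cons (nat_lit 152) (C.node (nat_lit 4) (nat_lit 5) (nat_lit 7) (C.cons (nat_lit 432) (C.ref (nat_lit 247) (nat_lit 205163983024656)) (C.cons (nat_lit 176) (C.node (nat_lit 4) (nat_lit 7) (nat_lit 8)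
  (C.cons (nat_lit 400) (C.ref (nat_lit 248) (nat_lit 205163983024656)) C.nil)) C.nil))) C.nil))) C.nil))) C.nil))))) C.nil))))) C.nil)))) C.nil)))) (C.cons (nat_lit 1044) (C.node (nat_lit 4) (nat_lit 8) (nat_lit 10) (C.cons (nat_lit 1304) (C.miq (nat_lit 2068317603) (nat_lit 2804715151716166675618858025)) (C.cons (nat_lit 1296) (C.ref (nat_lit 250) (nat_lit 205163983024656)) C.nil))) C.nil)))) C.nil))) C.nil))) C.nil)))) C.nil)) (C.cons (nat_lit 2096) (C.ref (nat_lit 264) (nat_lit 205163983024656)) C.nil))) C.nil)))) List.nil)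

theorem ok12_265 : okL par12 (nat_lit 266) c12_265 (nat_lit 265) = true := by decide +kernel

noncomputable def c12_266 : List C :=
  (List.cons (C.node (nat_lit 3) (nat_lit 9) (nat_lit 11) (C.cons (nat_lit 2696) (C.node (nat_lit 3) (nat_lit 10) (nat_lit 11) (C.cons (nat_lit 3082) (C.miq (nat_lit 999661888) (nat_lit 3133555371091074272195576979)) (C.cons (nat_lit 3080) (C.node (nat_lit 4) (nat_lit 5) (nat_lit 11) (C.cons (nat_lit 2352) (C.node (nat_lit 2) (nat_lit 8) (nat_lit 11) (C.cons (nat_lit 2436) (C.miq (nat_lit 730957616) (nat_lit 3116615615145890020537860489)) (C.cons (nat_lit 2372) (C.miq (nat_lit 347605602) (nat_lit 2843398379556919940141548613)) (C.cons (nat_lit 2308) (C.node (nat_lit 4) (nat_lit 8) (nat_lit 10) (C.cons (nat_lit 1304) (C.miq (nat_lit 1940588614) (nat_lit 3723533453972962666597056849)) (C.cons (nat_lit 1300) (C.miq (nat_lit 1344845476) (nat_lit 317990877940506154360900688)) (C.cons (nat_lit 1296) (C.node (nat_lit 3) (nat_lit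 8) (nat_lit 11) (C.cons (nat_lit 2378) (C.miq (nat_lit 462586736) (nat_lit 3099690653654959663450751369)) (C.cons (nat_lit 2376) (C.miq (nat_lit 1941571684) (nat_lit 3723513125660998042876117329)) (C.cons (nat_lit 2314) (C.miq (nat_lit 462586736) (nat_lit 3099690653636945264941269385)) (C.cons (nat_lit 2312) (C.node (nat_lit 1) (nat_lit 4) (nat_lit 8) (C.cons (nat_lit 282) (C.node (nat_lit 2) (nat_lit 4) (nat_lit 8) (C.cons (nat_lit 788) (C.miq (nat_lit 1921714501) (nat_lit 2790242721301398421599420977)) (C.cons (nat_lit 404) (C.miq (nat_lit 605648944) (nat_lit 3116622661230158656859472265)) (C.cons (nat_lit 276) (C.node (nat_lit 2) (nat_lit 4) (nat_lit 7) (C.cons (nat_lit 212) (C.miq (nat_lit 699822244) (nat_lit 3172225261560098438008276115)) (C.cons (nat_lit 180) (C.miq (nat_lit 2554465111) (nat_lit 333675425444720682200205537)) (C.cons (nat_lit 148) (C.node (nat_lit 2) (nat_lit 6) (nat_lit 11) (C.cons (nat_lit 2118) (C.node (nat_lit 3) (nat_lit 6)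 (nat_lit 11) (C.cons (nat_lit 2120) (C.node (nat_lit 6) (nat_lit 8) (nat_lit 11) (C.cons (nat_lit 2368) (C.node (nat_lit 2) (nat_lit 5) (nat_lit 11) (C.cons (nat_lit 3108) (C.miq (nat_lit 1376303716) (nat_lit 317990878175537759851187280)) (C.cons (nat_lit 2084) (C.node (nat_lit 1) (nat_lit 3) (nat_lit 11) (C.cons (nat_lit 2058) (C.node (nat_lit 3) (nat_lit 5) (nat_lit 11) C.nil) C.nil)) C.nil))) C.nil)) C.nil)) (C.cons (nat_lit 2116) (C.node (nat_lit 3) (nat_lit 4) (nat_lit 10) (C.cons (nat_lit 1560) (C.node (nat_lit 4) (nat_lit 5) (nat_lit 7) (C.cons (nat_lit 184) (C.miq (nat_lit 1536389284) (nat_lit 3259267404521758936700290195)) (C.cons (nat_lit 176) (C.node (nat_lit 3) (nat_lit 4) (nat_lit 5) (C.cons (nat_lit 120) (C.miq (nat_lit 2490082128) (nat_lit 3810605037808399756275287081)) (C.cons (nat_lit 56) (C.node (nat_lit 3) (nat_lit 4) (nat_lit 6) (C.cons (nat_lit 216) (C.miq (nat_lit 2471016288) (nat_lit 340987935834170010601851105)) (C.cons (nat_lit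 88) (C.node (nat_lit 3) (nat_lit 4) (nat_lit 7) (C.cons (nat_lit 152) (C.node (nat_lit 7) (nat_lit 9) (nat_lit 10) (C.cons (nat_lit 1728) (C.miq (nat_lit 1730455819) (nat_lit 178979165926676980509249281)) (C.cons (nat_lit 1696) (C.miq (nat_lit 1497070144) (nat_lit 3259305939607708057605047443)) (C.cons (nat_lit 1664) (C.node (nat_lit 6) (nat_lit 9) (nat_lit 10) (C.cons (nat_lit 1634) (C.miq (nat_lit 323391674) (nat_lit 106415614253124142454804225)) (C.cons (nat_lit 1632) (C.miq (nat_lit 1766545968) (nat_lit 3116652692875167416480236585)) (C.cons (nat_lit 1602) (C.miq (nat_lit 323391674) (nat_lit 106415023957313783749152513)) (C.cons (nat_lit 1600) (C.node (nat_lit 2) (nat_lit 4) (nat_lit 9) (C.cons (nat_lit 596) (C.node (nat_lit 4) (nat_lit 6) (nat_lit 7) (C.cons (nat_lit 208) (C.node (nat_lit 1) (nat_lit 2) (nat_lit 4) (C.cons (nat_lit 54) (C.node (nat_lit 2) (nat_lit 5) (nat_lit 11) (C.cons (nat_lit 3108) (C.miq (nat_lit 1649674936) (nat_lit 65288211119608314010275585))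 C.nil)) (C.cons (nat_lit 22) (C.node (nat_lit 1) (nat_lit 4) (nat_lit 5) (C.cons (nat_lit 114) (C.node (nat_lit 2) (nat_lit 4) (nat_lit 5) C.nil) C.nil)) C.nil))) C.nil)) (C.cons (nat_lit 532) (C.node (nat_lit 2) (nat_lit 4) (nat_lit 6)
  (C.cons (nat_lit 118) (C.miq (nat_lit 2822900566) (nat_lit 333683689586065704075266273)) (C.cons (nat_lit 116) (C.miq (nat_lit 2822900566) (nat_lit 333683689586065704075135201)) (C.cons (nat_lit 86) (C.miq (nat_lit 380191243) (nat_lit 1934328867113840245402044445)) (C.cons (nat_lit 84) (C.node (nat_lit 1) (nat_lit 2) (nat_lit 4) (C.cons (nat_lit 54) (C.node (nat_lit 1) (nat_lit 4) (nat_lit 6) C.nil) C.nil)) C.nil))))) C.nil))) C.nil))))) C.nil)))) C.nil)) C.nil))) C.nil))) C.nil))) (C.cons (nat_lit 1048) (C.node (nat_lit 4) (nat_lit 9) (nat_lit 10) (C.cons (nat_lit 1556) (C.miq (nat_lit 1680325264) (nat_lit 178962951639460469270712065)) (C.cons (nat_lit 1552) (C.node (nat_lit 2) (nat_lit 4) (nat_lit 9) (C.cons (nat_lit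 596) (C.node (nat_lit 3) (nat_lit 4) (nat_lit 9) (C.cons (nat_lit 536) (C.node (nat_lit 4) (nat_lit 6) (nat_lit 7) (C.cons (nat_lit 216) (C.miq (nat_lit 2471016288) (nat_lit 340987935834170010601851105)) (C.cons (nat_lit 208) (C.node (nat_lit 1) (nat_lit 2) (nat_lit 4) (C.cons (nat_lit 54) (C.node (nat_lit 1) (nat_lit 4) (nat_lit 6) (C.cons (nat_lit 82) (C.node (nat_lit 2) (nat_lit 4) (nat_lit 10) (C.cons (nat_lit 1044) (C.node (nat_lit 4) (nat_lit 5) (nat_lit 10) C.nil) C.nil)) C.nil)) (C.cons (nat_lit 22) (C.node (nat_lit 1) (nat_lit 4) (nat_lit 5) (C.cons (nat_lit 114) (C.node (nat_lit 3) (nat_lit 4) (nat_lit 6) (C.cons (nat_lit 88) (C.node (nat_lit 3) (nat_lit 4) (nat_lit 5) (C.cons (nat_lit 184) (C.miq (nat_lit 359876104) (nat_lit 222447552823018464070926673)) C.nil)) C.nil)) (C.cons (nat_lit 50) (C.node (nat_lit 1) (nat_lit 4) (nat_lit 6) C.nil) C.nil))) C.nil))) C.nil))) C.nil)) (C.cons (nat_lit 532) (C.node (nat_lit 2) (nat_lit 4) (nat_lit 6)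 (C.cons (nat_lit 118) (C.miq (nat_lit 2822900566) (nat_lit 333683689586065704075266273)) (C.cons (nat_lit 116) (C.miq (nat_lit 2822900566) (nat_lit 333683689586065704075135201)) (C.cons (nat_lit 86) (C.miq (nat_lit 2338458177) (nat_lit 2558091886879405642578527379)) (C.cons (nat_lit 84) (C.node (nat_lit 1) (nat_lit 2) (nat_lit 4) (C.cons (nat_lit 54) (C.node (nat_lit 1) (nat_lit 4) (nat_lit 6) (C.cons (nat_lit 82) (C.node (nat_lit 2) (nat_lit 4) (nat_lit 10) (C.cons (nat_lit 1044) (C.node (nat_lit 4) (nat_lit 5) (nat_lit 10) C.nil) C.nil)) C.nil)) (C.cons (nat_lit 22) (C.node (nat_lit 1) (nat_lit 4) (nat_lit 5) (C.cons (nat_lit 114) (C.node (nat_lit 3) (nat_lit 4) (nat_lit 5) (C.cons (nat_lit 184) (C.miq (nat_lit 359876104) (nat_lit 222447552823018464070926673)) (C.cons (nat_lit 56) (C.node (nat_lit 4) (nat_lit 5) (nat_lit 7) C.nil) C.nil))) (C.cons (nat_lit 50) (C.node (nat_lit 1) (nat_lit 4) (nat_lit 6) C.nil) C.nil))) C.nil))) C.nil))))) C.nil)))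 C.nil))) C.nil))) C.nil))) C.nil)))) C.nil)))) (C.cons (nat_lit 274) (C.node (nat_lit 3) (nat_lit 4) (nat_lit 8) (C.cons (nat_lit 792) (C.miq (nat_lit 1236697968) (nat_lit 3172227567444479555483533705)) (C.cons (nat_lit 280) (C.node (nat_lit 1) (nat_lit 3) (nat_lit 4) (C.cons (nat_lit 122) (C.miq (nat_lit 968233124) (nat_lit 3172223601318791856989930643)) (C.cons (nat_lit 90) (C.miq (nat_lit 968233124) (nat_lit 3172223011022981498284278931)) (C.cons (nat_lit 58) (C.miq (nat_lit 329991433) (nat_lit 3723539080135610004360200753)) (C.cons (nat_lit 26) (C.node (nat_lit 2) (nat_lit 6) (nat_lit 11) (C.cons (nat_lit 2118) (C.node (nat_lit 3) (nat_lit 6) (nat_lit 11) (C.cons (nat_lit 2120) (C.node (nat_lit 6) (nat_lit 8) (nat_lit 11) (C.cons (nat_lit 2368) (C.node (nat_lit 2) (nat_lit 5) (nat_lit 11) (C.cons (nat_lit 3108) (C.miq (nat_lit 1376303716) (nat_lit 317990878175537759851187280)) (C.cons (nat_lit 2084) (C.node (nat_lit 1) (nat_lit 3) (nat_lit 11) (C.cons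 (nat_lit 2058) (C.node (nat_lit 3) (nat_lit 5) (nat_lit 11) C.nil) C.nil)) C.nil))) C.nil)) C.nil)) (C.cons (nat_lit 2116) (C.node (nat_lit 3) (nat_lit 4) (nat_lit 10) (C.cons (nat_lit 1560) (C.node (nat_lit 3) (nat_lit 4) (nat_lit 5) (C.cons (nat_lit 184) (C.miq (nat_lit 1536389284) (nat_lit 3259267404521758936700290195)) (C.cons (nat_lit 120)
  (C.miq (nat_lit 2490082128) (nat_lit 3810605037808399756275287081)) (C.cons (nat_lit 56) (C.node (nat_lit 3) (nat_lit 4) (nat_lit 6) (C.cons (nat_lit 216) (C.miq (nat_lit 2471016288) (nat_lit 338570084194940752252438753)) (C.cons (nat_lit 88) (C.node (nat_lit 3) (nat_lit 4) (nat_lit 7) (C.cons (nat_lit 152) (C.node (nat_lit 7) (nat_lit 9) (nat_lit 10) (C.cons (nat_lit 1728) (C.miq (nat_lit 597298038) (nat_lit 1885944441474729183054661857)) (C.cons (nat_lit 1696) (C.miq (nat_lit 1497070144) (nat_lit 3259305939607708057605047443)) (C.cons (nat_lit 1664) (C.node (nat_lit 6) (nat_lit 9) (nat_lit 10) (C.cons (nat_lit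 1634) (C.miq (nat_lit 323391674) (nat_lit 106415614253124142454804225)) (C.cons (nat_lit 1632) (C.miq (nat_lit 1766545968) (nat_lit 3116652692875167416480236585)) (C.cons (nat_lit 1602) (C.miq (nat_lit 323391674) (nat_lit 106415023957313783749152513)) (C.cons (nat_lit 1600) (C.node (nat_lit 2) (nat_lit 4) (nat_lit 10) (C.cons (nat_lit 1076) (C.node (nat_lit 4) (nat_lit 5) (nat_lit 7) (C.cons (nat_lit 176) (C.node (nat_lit 1) (nat_lit 2) (nat_lit 4) (C.cons (nat_lit 86) (C.miq (nat_lit 380191243) (nat_lit 1934328867113840245402044445)) (C.cons (nat_lit 22) (C.node (nat_lit 1) (nat_lit 4) (nat_lit 5) (C.cons (nat_lit 114) (C.node (nat_lit 5) (nat_lit 10) (nat_lit 11) (C.cons (nat_lit 3106) (C.miq (nat_lit 2705896800) (nat_lit 331316529392657279568906465)) C.nil)) C.nil)) C.nil))) C.nil)) (C.cons (nat_lit 1044) (C.node (nat_lit 4) (nat_lit 5) (nat_lit 10) (C.cons (nat_lit 1072) (C.node (nat_lit 3) (nat_lit 5) (nat_lit 11) (C.cons (nat_lit 2090) (C.node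 (nat_lit 3) (nat_lit 6) (nat_lit 11) C.nil) C.nil)) C.nil)) C.nil))) C.nil))))) C.nil)))) C.nil)) C.nil))) C.nil)))) (C.cons (nat_lit 1048) (C.node (nat_lit 4) (nat_lit 9) (nat_lit 10) (C.cons (nat_lit 1556) (C.miq (nat_lit 2068383394) (nat_lit 3116622661756247714955527237)) (C.cons (nat_lit 1552) (C.node (nat_lit 2) (nat_lit 4) (nat_lit 10) (C.cons (nat_lit 1076) (C.node (nat_lit 1) (nat_lit 2) (nat_lit 4) (C.cons (nat_lit 86) (C.miq (nat_lit 2338458177) (nat_lit 2558091886879405642578527379)) (C.cons (nat_lit 22) (C.node (nat_lit 1) (nat_lit 4) (nat_lit 5) (C.cons (nat_lit 114) (C.node (nat_lit 5) (nat_lit 10) (nat_lit 11) (C.cons (nat_lit 3106) (C.miq (nat_lit 2705896800) (nat_lit 331316529392657279568906465)) (C.cons (nat_lit 3104) (C.node (nat_lit 1) (nat_lit 10) (nat_lit 11) (C.cons (nat_lit 3078) (C.miq (nat_lit 1797802512) (nat_lit 2790207009110539321859310739)) (C.cons (nat_lit 3074) (C.node (nat_lit 6) (nat_lit 8) (nat_lit 11) (C.cons (nat_lit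 2370) (C.miq (nat_lit 2169091664) (nat_lit 3116681617577597315247573217)) (C.cons (nat_lit 2368) (C.node (nat_lit 1) (nat_lit 6) (nat_lit 11) (C.cons (nat_lit 2122) (C.node (nat_lit 3) (nat_lit 5) (nat_lit 11) C.nil) C.nil)) C.nil))) C.nil))) C.nil))) (C.cons (nat_lit 50) (C.node (nat_lit 1) (nat_lit 4) (nat_lit 6) (C.cons (nat_lit 82) (C.node (nat_lit 2) (nat_lit 5) (nat_lit 11) (C.cons (nat_lit 2086) (C.node (nat_lit 1) (nat_lit 10) (nat_lit 11) C.nil) C.nil)) C.nil)) C.nil))) C.nil))) (C.cons (nat_lit 1044) (C.node (nat_lit 4) (nat_lit 5) (nat_lit 10) (C.cons (nat_lit 1072) (C.node (nat_lit 3) (nat_lit 4) (nat_lit 9) (C.cons (nat_lit 600) (C.node (nat_lit 2) (nat_lit 4) (nat_lit 9) (C.cons (nat_lit 788) (C.miq (nat_lit 1921714501) (nat_lit 2790242721301398421599420977)) (C.cons (nat_lit 532) (C.node (nat_lit 4) (nat_lit 6) (nat_lit 7) (C.cons (nat_lit 212) (C.miq (nat_lit 2754197104) (nat_lit 643219390866179876498770145)) C.nil)) C.nil))) (C.cons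 (nat_lit 536) (C.node (nat_lit 3) (nat_lit 5) (nat_lit 11) (C.cons (nat_lit 2090) (C.node (nat_lit 3) (nat_lit 6) (nat_lit 11) (C.cons (nat_lit 2120) (C.node (nat_lit 1) (nat_lit 6) (nat_lit 11) (C.cons (nat_lit 2114) (C.node (nat_lit 2) (nat_lit 4) (nat_lit 8) C.nil) C.nil)) C.nil)) (C.cons (nat_lit 2088) (C.node (nat_lit 2) (nat_lit 4) (nat_lit 8) (C.cons (nat_lit 276) (C.node (nat_lit 1) (nat_lit 3) (nat_lit 11) (C.cons (nat_lit 2122)
  (C.node (nat_lit 6) (nat_lit 8) (nat_lit 11) C.nil) C.nil)) C.nil)) C.nil))) C.nil))) C.nil)) C.nil))) C.nil))) C.nil))) C.nil))) C.nil))))) C.nil))) C.nil))) C.nil))))) C.nil)))) C.nil)))) (C.cons (nat_lit 2096) (C.node (nat_lit 4) (nat_lit 8) (nat_lit 11) (C.cons (nat_lit 2320) (C.node (nat_lit 7) (nat_lit 10) (nat_lit 11) (C.cons (nat_lit 3204) (C.node (nat_lit 7) (nat_lit 9) (nat_lit 10) (C.cons (nat_lit 1728) (C.miq (nat_lit 694880164) (nat_lit 3172259664737786831056143507)) (C.cons (nat_lit 1696) (C.miq (nat_lit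 1521784608) (nat_lit 3810544532526131831444931205)) (C.cons (nat_lit 1664) (C.node (nat_lit 1) (nat_lit 7) (nat_lit 11) (C.cons (nat_lit 2434) (C.node (nat_lit 6) (nat_lit 8) (nat_lit 11) (C.cons (nat_lit 2376) (C.miq (nat_lit 1000834624) (nat_lit 3873405576284490926090551633)) (C.cons (nat_lit 2372) (C.miq (nat_lit 2709653430) (nat_lit 317967653179537689321670881)) (C.cons (nat_lit 2368) (C.node (nat_lit 1) (nat_lit 10) (nat_lit 11) (C.cons (nat_lit 3106) (C.node (nat_lit 2) (nat_lit 5) (nat_lit 11) (C.cons (nat_lit 2340) (C.miq (nat_lit 901253655) (nat_lit 2828893667768437427191022739)) (C.cons (nat_lit 2084) (C.node (nat_lit 2) (nat_lit 8) (nat_lit 11) C.nil) C.nil))) (C.cons (nat_lit 3074) (C.node (nat_lit 5) (nat_lit 10) (nat_lit 11) (C.cons (nat_lit 3104) (C.node (nat_lit 2) (nat_lit 6) (nat_lit 11) (C.cons (nat_lit 2116) (C.node (nat_lit 1) (nat_lit 2) (nat_lit 11) C.nil) C.nil)) C.nil)) C.nil))) C.nil)))) (C.cons (nat_lit 2178) (C.node (nat_lit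 7) (nat_lit 8) (nat_lit 11) (C.cons (nat_lit 2432) (C.node (nat_lit 1) (nat_lit 10) (nat_lit 11) (C.cons (nat_lit 3106) (C.node (nat_lit 3) (nat_lit 5) (nat_lit 11) (C.cons (nat_lit 2344) (C.miq (nat_lit 461874480) (nat_lit 2940129195314359811862758441)) (C.cons (nat_lit 2088) (C.node (nat_lit 1) (nat_lit 2) (nat_lit 11) (C.cons (nat_lit 2054) (C.node (nat_lit 2) (nat_lit 5) (nat_lit 11) C.nil) C.nil)) C.nil))) (C.cons (nat_lit 3074) (C.node (nat_lit 5) (nat_lit 10) (nat_lit 11) (C.cons (nat_lit 3104) (C.node (nat_lit 8) (nat_lit 2) (nat_lit 11) (C.cons (nat_lit 2340) (C.node (nat_lit 1) (nat_lit 5) (nat_lit 11) C.nil) (C.cons (nat_lit 2372) (C.miq (nat_lit 447874152) (nat_lit 3873403177868583996991209809)) C.nil))) C.nil)) C.nil))) C.nil)) C.nil))) C.nil)))) (C.cons (nat_lit 3200) (C.node (nat_lit 2) (nat_lit 6) (nat_lit 11) (C.cons (nat_lit 2372) (C.miq (nat_lit 347605602) (nat_lit 2804712753329251806550950981)) (C.cons (nat_lit 2118) (C.node (nat_lit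 2) (nat_lit 7) (nat_lit 11) (C.cons (nat_lit 2436) (C.miq (nat_lit 730957616) (nat_lit 3116615615145890020537860489)) (C.cons (nat_lit 2180) (C.node (nat_lit 3) (nat_lit 6) (nat_lit 11) (C.cons (nat_lit 2376) (C.miq (nat_lit 1000834624) (nat_lit 3868569873006032409391726929)) (C.cons (nat_lit 2120) (C.node (nat_lit 6) (nat_lit 8) (nat_lit 11) (C.cons (nat_lit 2368) (C.node (nat_lit 1) (nat_lit 7) (nat_lit 11) (C.cons (nat_lit 2434) (C.node (nat_lit 1) (nat_lit 3) (nat_lit 11) C.nil) C.nil)) C.nil)) C.nil))) C.nil))) (C.cons (nat_lit 2116) (C.node (nat_lit 2) (nat_lit 7) (nat_lit 11) (C.cons (nat_lit 2436) (C.miq (nat_lit 730957616) (nat_lit 3116615615145890020537860489)) (C.cons (nat_lit 2182) (C.node (nat_lit 7) (nat_lit 8) (nat_lit 11) (C.cons (nat_lit 2432) (C.node (nat_lit 1) (nat_lit 10) (nat_lit 11) (C.cons (nat_lit 3106) (C.node (nat_lit 2) (nat_lit 10) (nat_lit 11) (C.cons (nat_lit 3076) (C.node (nat_lit 2) (nat_lit 5) (nat_lit 11) C.nil) C.nil))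 (C.cons (nat_lit 3074) (C.node (nat_lit 2) (nat_lit 8) (nat_lit 11) (C.cons (nat_lit 2340) (C.node (nat_lit 2) (nat_lit 10) (nat_lit 11) C.nil) C.nil)) C.nil))) C.nil)) (C.cons (nat_lit 2180) (C.node (nat_lit 1) (nat_lit 7) (nat_lit 11) (C.cons (nat_lit 2434) (C.node (nat_lit 6) (nat_lit 8) (nat_lit 11) (C.cons (nat_lit 2376) (C.miq (nat_lit 1000834624) (nat_lit 3868569873006032409391726929)) (C.cons (nat_lit 2368) (C.node (nat_lit 1) (nat_lit 6) (nat_lit 11) (C.cons (nat_lit 2122) (C.node (nat_lit 2) (nat_lit 8) (nat_lit 11) C.nil) C.nil)) C.nil)))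
  (C.cons (nat_lit 2178) (C.node (nat_lit 7) (nat_lit 8) (nat_lit 11) C.nil) C.nil))) C.nil)))) C.nil)))) C.nil))) C.nil)) C.nil))) C.nil))) (C.cons (nat_lit 2568) (C.node (nat_lit 7) (nat_lit 9) (nat_lit 11) (C.cons (nat_lit 2688) (C.node (nat_lit 4) (nat_lit 5) (nat_lit 11) (C.cons (nat_lit 2352) (C.node (nat_lit 1) (nat_lit 4) (nat_lit 8) (C.cons (nat_lit 282) (C.node (nat_lit 4) (nat_lit 8) (nat_lit 10) (C.cons (nat_lit 1300) (C.miq (nat_lit 1344845476) (nat_lit 317990877940506154360900688)) (C.cons (nat_lit 1296) (C.node (nat_lit 3) (nat_lit 7) (nat_lit 11) (C.cons (nat_lit 3208) (C.miq (nat_lit 977828704) (nat_lit 1566775112693965641319778529)) (C.cons (nat_lit 2186) (C.miq (nat_lit 1679493175) (nat_lit 3116652692510651832678875529)) (C.cons (nat_lit 2184) (C.node (nat_lit 3) (nat_lit 8) (nat_lit 11) (C.cons (nat_lit 2376) (C.miq (nat_lit 2805678214) (nat_lit 2640352134505279335871021393)) (C.cons (nat_lit 2312) (C.node (nat_lit 3) (nat_lit 10)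 (nat_lit 11) (C.cons (nat_lit 3082) (C.miq (nat_lit 1393822393) (nat_lit 340927430054534865780608769)) (C.cons (nat_lit 3080) (C.node (nat_lit 3) (nat_lit 4) (nat_lit 10) (C.cons (nat_lit 1560) (C.node (nat_lit 3) (nat_lit 4) (nat_lit 5) (C.cons (nat_lit 184) (C.miq (nat_lit 1536389284) (nat_lit 3104524899611086402337899667)) (C.cons (nat_lit 120) (C.miq (nat_lit 2490082128) (nat_lit 3810605037808399756275287081)) (C.cons (nat_lit 56) (C.node (nat_lit 3) (nat_lit 4) (nat_lit 6) (C.cons (nat_lit 216) (C.miq (nat_lit 2755180144) (nat_lit 340987935962522599985580257)) (C.cons (nat_lit 88) (C.node (nat_lit 3) (nat_lit 4) (nat_lit 7) (C.cons (nat_lit 152) (C.node (nat_lit 7) (nat_lit 9) (nat_lit 10) (C.cons (nat_lit 1728) (C.miq (nat_lit 615058279) (nat_lit 1885936177333386119680624865)) (C.cons (nat_lit 1696) (C.miq (nat_lit 1497070144) (nat_lit 3104563434697035523242656915)) (C.cons (nat_lit 1664) (C.node (nat_lit 6) (nat_lit 9) (nat_lit 10) (C.cons (nat_lit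 1634) (C.miq (nat_lit 323391674) (nat_lit 106415614253124142454804225)) (C.cons (nat_lit 1632) (C.miq (nat_lit 1766545968) (nat_lit 3116652692875167416480236585)) (C.cons (nat_lit 1602) (C.miq (nat_lit 323391674) (nat_lit 106415023957313783749152513)) (C.cons (nat_lit 1600) (C.node (nat_lit 2) (nat_lit 4) (nat_lit 10) (C.cons (nat_lit 1076) (C.node (nat_lit 4) (nat_lit 5) (nat_lit 7) (C.cons (nat_lit 176) (C.node (nat_lit 1) (nat_lit 2) (nat_lit 4) (C.cons (nat_lit 86) (C.miq (nat_lit 380191243) (nat_lit 1934328867113840245402044445)) (C.cons (nat_lit 22) (C.node (nat_lit 5) (nat_lit 9) (nat_lit 10) (C.cons (nat_lit 1570) (C.miq (nat_lit 1396809913) (nat_lit 340946042819300922276056833)) (C.cons (nat_lit 1568) (C.node (nat_lit 2) (nat_lit 4) (nat_lit 7) (C.cons (nat_lit 404) (C.miq (nat_lit 605648944) (nat_lit 3116622661230158656859472265)) (C.cons (nat_lit 212) (C.miq (nat_lit 2588019559) (nat_lit 1300816081136427457941080289)) (C.cons (nat_lit 148)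 (C.node (nat_lit 2) (nat_lit 4) (nat_lit 8) (C.cons (nat_lit 788) (C.miq (nat_lit 1411889296) (nat_lit 178962951414277189367303937)) (C.cons (nat_lit 276) (C.node (nat_lit 2) (nat_lit 4) (nat_lit 9) (C.cons (nat_lit 596) (C.node (nat_lit 1) (nat_lit 9) (nat_lit 10) C.nil) C.nil)) C.nil))) C.nil)))) C.nil))) C.nil))) C.nil)) (C.cons (nat_lit 1044) (C.node (nat_lit 4) (nat_lit 5) (nat_lit 10) (C.cons (nat_lit 1072) (C.node (nat_lit 3) (nat_lit 5) (nat_lit 11) (C.cons (nat_lit 2090) (C.node (nat_lit 1) (nat_lit 5) (nat_lit 8) (C.cons (nat_lit 1378) (C.miq (nat_lit 613026646) (nat_lit 1566788025096465603440543969)) (C.cons (nat_lit 1314) (C.miq (nat_lit 1696074548) (nat_lit 1588534744166177174246262813)) (C.cons (nat_lit 930) (C.miq (nat_lit 873925528) (nat_lit 1415659384923786330549391105)) (C.cons (nat_lit 866) (C.miq (nat_lit 1158920336) (nat_lit 2526693277544048934574034689)) (C.cons (nat_lit 802) (C.miq (nat_lit 1158920336) (nat_lit 2526693277544048659696127745))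 (C.cons (nat_lit 418) (C.miq (nat_lit 1696074548) (nat_lit 505337209791469433709529117)) (C.cons (nat_lit 354)
  (C.miq (nat_lit 828421508) (nat_lit 81036344389905471209802032)) (C.cons (nat_lit 290) (C.miq (nat_lit 1696074548) (nat_lit 350594704880796899347138589)) C.nil))))))))) (C.cons (nat_lit 2088) (C.node (nat_lit 1) (nat_lit 3) (nat_lit 11) (C.cons (nat_lit 2122) (C.node (nat_lit 1) (nat_lit 3) (nat_lit 10) (C.cons (nat_lit 1038) (C.miq (nat_lit 1681524754) (nat_lit 1885944440984952355481846023)) C.nil)) (C.cons (nat_lit 2058) (C.node (nat_lit 3) (nat_lit 6) (nat_lit 11) C.nil) C.nil))) C.nil))) C.nil)) C.nil))) C.nil))))) C.nil)))) C.nil)) C.nil))) C.nil)))) (C.cons (nat_lit 1048) (C.node (nat_lit 4) (nat_lit 9) (nat_lit 10) (C.cons (nat_lit 1556) (C.miq (nat_lit 2068383394) (nat_lit 3116622661756247714955527237)) (C.cons (nat_lit 1552) (C.node (nat_lit 2) (nat_lit 4) (nat_lit 10) (C.cons (nat_lit 1076) (C.node (nat_lit 1) (nat_lit 2) (nat_lit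 4) (C.cons (nat_lit 86) (C.miq (nat_lit 3021514272) (nat_lit 340987935962522041631310917)) (C.cons (nat_lit 22) (C.node (nat_lit 2) (nat_lit 4) (nat_lit 7) (C.cons (nat_lit 404) (C.miq (nat_lit 605648944) (nat_lit 3116622661230158656859472265)) (C.cons (nat_lit 212) (C.miq (nat_lit 2588019559) (nat_lit 1300816081136427457941080289)) (C.cons (nat_lit 148) (C.node (nat_lit 2) (nat_lit 4) (nat_lit 8) (C.cons (nat_lit 788) (C.miq (nat_lit 1411889296) (nat_lit 178962951414277189367303937)) (C.cons (nat_lit 276) (C.node (nat_lit 2) (nat_lit 8) (nat_lit 11) (C.cons (nat_lit 2436) (C.miq (nat_lit 2458126261) (nat_lit 333673875018624825950210273)) (C.cons (nat_lit 2372) (C.miq (nat_lit 1645525002) (nat_lit 26654512836501948761050881)) (C.cons (nat_lit 2308) (C.node (nat_lit 1) (nat_lit 4) (nat_lit 5) (C.cons (nat_lit 114) (C.node (nat_lit 3) (nat_lit 4) (nat_lit 5) (C.cons (nat_lit 184) (C.miq (nat_lit 359876104) (nat_lit 222447552823018464070926673)) (C.cons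 (nat_lit 56) (C.node (nat_lit 4) (nat_lit 5) (nat_lit 7) (C.cons (nat_lit 176) (C.node (nat_lit 2) (nat_lit 4) (nat_lit 6) C.nil) C.nil)) C.nil))) (C.cons (nat_lit 50) (C.node (nat_lit 1) (nat_lit 4) (nat_lit 6) (C.cons (nat_lit 82) (C.node (nat_lit 2) (nat_lit 4) (nat_lit 6) (C.cons (nat_lit 596) (C.node (nat_lit 3) (nat_lit 4) (nat_lit 9) C.nil) C.nil)) C.nil)) C.nil))) C.nil)))) C.nil))) C.nil)))) C.nil))) (C.cons (nat_lit 1044) (C.node (nat_lit 4) (nat_lit 5) (nat_lit 10) (C.cons (nat_lit 1072) (C.node (nat_lit 3) (nat_lit 5) (nat_lit 11) (C.cons (nat_lit 2090) (C.node (nat_lit 1) (nat_lit 5) (nat_lit 8) (C.cons (nat_lit 1378) (C.miq (nat_lit 613026646) (nat_lit 1566788025096465603440543969)) (C.cons (nat_lit 1314) (C.miq (nat_lit 1696074548) (nat_lit 1588534744166177174246262813)) (C.cons (nat_lit 930) (C.miq (nat_lit 873925528) (nat_lit 1415659384923786330549391105)) (C.cons (nat_lit 866) (C.miq (nat_lit 1158920336) (nat_lit 2526693277544048934574034689))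 (C.cons (nat_lit 802) (C.miq (nat_lit 1158920336) (nat_lit 2526693277544048659696127745)) (C.cons (nat_lit 418) (C.miq (nat_lit 1696074548) (nat_lit 505337209791469433709529117)) (C.cons (nat_lit 354) (C.miq (nat_lit 828421508) (nat_lit 81036344389905471209802032)) (C.cons (nat_lit 290) (C.miq (nat_lit 1696074548) (nat_lit 350594704880796899347138589)) C.nil))))))))) (C.cons (nat_lit 2088) (C.node (nat_lit 1) (nat_lit 3) (nat_lit 11) (C.cons (nat_lit 2122) (C.node (nat_lit 1) (nat_lit 3) (nat_lit 10) (C.cons (nat_lit 1038) (C.miq (nat_lit 1681524754) (nat_lit 1266974421342262218032283911)) (C.cons (nat_lit 1034) (C.node (nat_lit 2) (nat_lit 6) (nat_lit 11) (C.cons (nat_lit 2372) (C.miq (nat_lit 347605602) (nat_lit 2843398379556919940141548613)) (C.cons (nat_lit 2116) (C.node (nat_lit 6) (nat_lit 8) (nat_lit 11) C.nil) C.nil))) C.nil))) (C.cons (nat_lit 2058) (C.node (nat_lit 3) (nat_lit 6) (nat_lit 11) C.nil) C.nil))) C.nil))) C.nil)) C.nil))) C.nil)))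 C.nil))) C.nil))) C.nil))) C.nil)))) C.nil))) (C.cons (nat_lit 274) (C.node (nat_lit 1) (nat_lit 3) (nat_lit 4) (C.cons (nat_lit 122) (C.miq (nat_lit 968233124) (nat_lit 3172223601318791856989930643)) (C.cons (nat_lit 90)
  (C.miq (nat_lit 968233124) (nat_lit 3172223011022981498284278931)) (C.cons (nat_lit 58) (C.miq (nat_lit 2873428243) (nat_lit 2843413174597202777556517387)) (C.cons (nat_lit 26) (C.node (nat_lit 3) (nat_lit 5) (nat_lit 11) (C.cons (nat_lit 2090) (C.node (nat_lit 1) (nat_lit 10) (nat_lit 11) (C.cons (nat_lit 3078) (C.miq (nat_lit 2226194082) (nat_lit 3116615614555076003094725701)) (C.cons (nat_lit 3074) (C.node (nat_lit 2) (nat_lit 5) (nat_lit 11) (C.cons (nat_lit 3108) (C.miq (nat_lit 1376303716) (nat_lit 317990878175537759851187280)) (C.cons (nat_lit 2084) (C.node (nat_lit 5) (nat_lit 10) (nat_lit 11) (C.cons (nat_lit 3104) (C.node (nat_lit 2) (nat_lit 10) (nat_lit 11) (C.cons (nat_lit 3204) (C.node (nat_lit 3) (nat_lit 7) (nat_lit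 11) (C.cons (nat_lit 2184) (C.node (nat_lit 3) (nat_lit 10) (nat_lit 11) (C.cons (nat_lit 3080) (C.node (nat_lit 1) (nat_lit 2) (nat_lit 11) C.nil) C.nil)) C.nil)) (C.cons (nat_lit 3076) (C.node (nat_lit 3) (nat_lit 6) (nat_lit 11) (C.cons (nat_lit 2376) (C.node (nat_lit 3) (nat_lit 7) (nat_lit 11) (C.cons (nat_lit 2184) (C.miq (nat_lit 2805678214) (nat_lit 2640352134505279335871021393)) C.nil)) (C.cons (nat_lit 2120) (C.node (nat_lit 3) (nat_lit 8) (nat_lit 11) C.nil) C.nil))) C.nil))) C.nil)) C.nil))) C.nil))) (C.cons (nat_lit 2088) (C.node (nat_lit 4) (nat_lit 5) (nat_lit 10) (C.cons (nat_lit 1076) (C.node (nat_lit 1) (nat_lit 2) (nat_lit 4) (C.cons (nat_lit 86) (C.miq (nat_lit 3021514272) (nat_lit 331316529405605008233661509)) (C.cons (nat_lit 22) (C.node (nat_lit 1) (nat_lit 4) (nat_lit 5) (C.cons (nat_lit 114) (C.node (nat_lit 5) (nat_lit 10) (nat_lit 11) (C.cons (nat_lit 3106) (C.miq (nat_lit 2705896800) (nat_lit 331316529392657279568906465))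 (C.cons (nat_lit 3104) (C.node (nat_lit 1) (nat_lit 10) (nat_lit 11) (C.cons (nat_lit 3082) (C.miq (nat_lit 826649488) (nat_lit 137837190086023177273675521)) (C.cons (nat_lit 3078) (C.miq (nat_lit 2226194082) (nat_lit 3116615614555076003094725701)) (C.cons (nat_lit 3074) (C.node (nat_lit 1) (nat_lit 5) (nat_lit 11) (C.cons (nat_lit 2086) (C.node (nat_lit 2) (nat_lit 6) (nat_lit 11) (C.cons (nat_lit 2372) (C.miq (nat_lit 558268587) (nat_lit 137861299187043513461116673)) (C.cons (nat_lit 2116) (C.node (nat_lit 2) (nat_lit 8) (nat_lit 11) (C.cons (nat_lit 2436) (C.node (nat_lit 2) (nat_lit 4) (nat_lit 8) (C.cons (nat_lit 788) (C.miq (nat_lit 1917171856) (nat_lit 1300846112040296961532825345)) (C.cons (nat_lit 276) (C.miq (nat_lit 2458126261) (nat_lit 333673875018624825950210273)) C.nil))) (C.cons (nat_lit 2308) (C.node (nat_lit 2) (nat_lit 7) (nat_lit 11) (C.cons (nat_lit 3204) (C.node (nat_lit 3) (nat_lit 10) (nat_lit 11) C.nil) C.nil)) C.nil))) C.nil)))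 (C.cons (nat_lit 2082) (C.node (nat_lit 2) (nat_lit 5) (nat_lit 11) (C.cons (nat_lit 2084) (C.node (nat_lit 2) (nat_lit 10) (nat_lit 11) (C.cons (nat_lit 3204) (C.node (nat_lit 3) (nat_lit 10) (nat_lit 11) C.nil) C.nil)) C.nil)) C.nil))) C.nil)))) C.nil))) (C.cons (nat_lit 50) (C.node (nat_lit 1) (nat_lit 4) (nat_lit 6) (C.cons (nat_lit 82) (C.node (nat_lit 2) (nat_lit 5) (nat_lit 11) (C.cons (nat_lit 2086) (C.node (nat_lit 5) (nat_lit 10) (nat_lit 11) (C.cons (nat_lit 3104) (C.node (nat_lit 1) (nat_lit 10) (nat_lit 11) (C.cons (nat_lit 3082) (C.miq (nat_lit 826649488) (nat_lit 60465937630686910092480257)) (C.cons (nat_lit 3074) (C.node (nat_lit 2) (nat_lit 6) (nat_lit 11) (C.cons (nat_lit 2372) (C.miq (nat_lit 558268587) (nat_lit 99175672959375379870519041)) (C.cons (nat_lit 2116) (C.node (nat_lit 2) (nat_lit 8) (nat_lit 11) (C.cons (nat_lit 2436) (C.node (nat_lit 2) (nat_lit 4) (nat_lit 8) (C.cons (nat_lit 788) (C.miq (nat_lit 1917171856) (nat_lit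 1300846112040296961532825345)) (C.cons (nat_lit 276) (C.miq (nat_lit 2458126261) (nat_lit 333673875018624825950210273)) C.nil))) (C.cons (nat_lit 2308) (C.node (nat_lit 2) (nat_lit 7) (nat_lit 11) (C.cons (nat_lit 3204) (C.node (nat_lit 3) (nat_lit 10) (nat_lit 11) C.nil) C.nil)) C.nil))) C.nil))) C.nil))) C.nil)) (C.cons (nat_lit 2084)
  (C.node (nat_lit 1) (nat_lit 5) (nat_lit 11) (C.cons (nat_lit 3106) (C.node (nat_lit 2) (nat_lit 10) (nat_lit 11) (C.cons (nat_lit 3204) (C.node (nat_lit 3) (nat_lit 10) (nat_lit 11) (C.cons (nat_lit 3080) (C.node (nat_lit 2) (nat_lit 8) (nat_lit 11) (C.cons (nat_lit 2372) (C.miq (nat_lit 558268587) (nat_lit 99175672959375379870519041)) (C.cons (nat_lit 2308) (C.node (nat_lit 1) (nat_lit 2) (nat_lit 11) (C.cons (nat_lit 2054) (C.node (nat_lit 2) (nat_lit 6) (nat_lit 11) C.nil) C.nil)) C.nil))) C.nil)) (C.cons (nat_lit 3076) (C.node (nat_lit 3) (nat_lit 10) (nat_lit 11) (C.cons (nat_lit 3208) (C.node (nat_lit 2) (nat_lit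 7) (nat_lit 10) (C.cons (nat_lit 1412) (C.miq (nat_lit 1786268464) (nat_lit 1707009474735832139676846109)) (C.cons (nat_lit 1156) (C.node (nat_lit 2) (nat_lit 8) (nat_lit 10) (C.cons (nat_lit 1292) (C.miq (nat_lit 1211785339) (nat_lit 1561990303174279981510953185)) (C.cons (nat_lit 1284) (C.node (nat_lit 4) (nat_lit 5) (nat_lit 7) (C.cons (nat_lit 184) (C.miq (nat_lit 2603944564) (nat_lit 2524247461059930231657727123)) (C.cons (nat_lit 176) (C.node (nat_lit 4) (nat_lit 8) (nat_lit 10) (C.cons (nat_lit 1304) (C.node (nat_lit 4) (nat_lit 9) (nat_lit 10) (C.cons (nat_lit 1552) (C.node (nat_lit 3) (nat_lit 6) (nat_lit 11) (C.cons (nat_lit 2378) (C.miq (nat_lit 2231612561) (nat_lit 1287549864909018907110214162)) (C.cons (nat_lit 2120) (C.miq (nat_lit 2259894394) (nat_lit 2562946792232152797454795923)) C.nil))) C.nil)) (C.cons (nat_lit 1296) (C.miq (nat_lit 977828704) (nat_lit 1566775112693965641319778529)) C.nil))) C.nil))) C.nil))) C.nil))) (C.cons (nat_lit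 3080) (C.node (nat_lit 7) (nat_lit 10) (nat_lit 11) (C.cons (nat_lit 3200) (C.node (nat_lit 3) (nat_lit 8) (nat_lit 11) (C.cons (nat_lit 2376) (C.miq (nat_lit 1000834624) (nat_lit 3868569873006032409391726929)) (C.cons (nat_lit 2314) (C.miq (nat_lit 2231612561) (nat_lit 1287548684317398189698910738)) C.nil))) C.nil)) C.nil))) C.nil))) (C.cons (nat_lit 2082) (C.node (nat_lit 5) (nat_lit 10) (nat_lit 11) (C.cons (nat_lit 3104) (C.node (nat_lit 1) (nat_lit 10) (nat_lit 11) (C.cons (nat_lit 3082) (C.miq (nat_lit 826649488) (nat_lit 60465937630686910092480257)) (C.cons (nat_lit 3078) (C.miq (nat_lit 2226194082) (nat_lit 3116615614555076003094725701)) (C.cons (nat_lit 3074) (C.node (nat_lit 2) (nat_lit 10) (nat_lit 11) (C.cons (nat_lit 3204) (C.node (nat_lit 3) (nat_lit 10) (nat_lit 11) C.nil) C.nil)) C.nil)))) C.nil)) C.nil))) C.nil))) C.nil)) C.nil))) C.nil))) (C.cons (nat_lit 1072) (C.node (nat_lit 2) (nat_lit 4) (nat_lit 10) (C.cons (nat_lit 1556) (C.miq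 (nat_lit 2068383394) (nat_lit 3116622661756247714955527237)) (C.cons (nat_lit 1300) (C.miq (nat_lit 1344845476) (nat_lit 317990877940506154360900688)) (C.cons (nat_lit 1044) (C.node (nat_lit 4) (nat_lit 8) (nat_lit 10) (C.cons (nat_lit 1304) (C.node (nat_lit 4) (nat_lit 9) (nat_lit 10) (C.cons (nat_lit 1552) (C.node (nat_lit 3) (nat_lit 7) (nat_lit 11) (C.cons (nat_lit 3208) (C.node (nat_lit 6) (nat_lit 7) (nat_lit 10) (C.cons (nat_lit 1728) (C.miq (nat_lit 615058279) (nat_lit 1876264770776469086282975457)) (C.cons (nat_lit 1472) (C.node (nat_lit 7) (nat_lit 9) (nat_lit 10) (C.cons (nat_lit 1696) (C.miq (nat_lit 1165363624) (nat_lit 2747894604694719700521717505)) (C.cons (nat_lit 1664) (C.node (nat_lit 3) (nat_lit 4) (nat_lit 5) (C.cons (nat_lit 184) (C.miq (nat_lit 1731504139) (nat_lit 222500495360744954428985089)) (C.cons (nat_lit 120) (C.miq (nat_lit 1934000314) (nat_lit 145098252071660588125654785)) (C.cons (nat_lit 56) (C.node (nat_lit 3) (nat_lit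 6) (nat_lit 11) (C.cons (nat_lit 2378) (C.miq (nat_lit 2231612561) (nat_lit 1287549864909018907110214162)) (C.cons (nat_lit 2376) (C.node (nat_lit 1) (nat_lit 3) (nat_lit 11) (C.cons (nat_lit 2058) (C.node (nat_lit 2) (nat_lit 10) (nat_lit 11) (C.cons (nat_lit 3110) (C.miq (nat_lit 2275476402) (nat_lit 1415656986373055593499199517)) (C.cons (nat_lit 3108) (C.miq (nat_lit 1516810756) (nat_lit 1779582194089624432070952989)) (C.cons (nat_lit 3078)
  (C.miq (nat_lit 2275476402) (nat_lit 1415656986373055593497102365)) (C.cons (nat_lit 3076) (C.node (nat_lit 1) (nat_lit 3) (nat_lit 8) (C.cons (nat_lit 298) (C.node (nat_lit 1) (nat_lit 8) (nat_lit 10) (C.cons (nat_lit 1282) (C.node (nat_lit 2) (nat_lit 3) (nat_lit 8) (C.cons (nat_lit 780) (C.miq (nat_lit 1949436553) (nat_lit 2510950825819125136942173953)) (C.cons (nat_lit 268) (C.node (nat_lit 3) (nat_lit 8) (nat_lit 9) (C.cons (nat_lit 776) (C.node (nat_lit 1) (nat_lit 3) (nat_lit 7) (C.cons (nat_lit 206)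 (C.miq (nat_lit 1181989504) (nat_lit 249077033615270153537785601)) (C.cons (nat_lit 202) (C.miq (nat_lit 1181989504) (nat_lit 244241330336811636838960897)) (C.cons (nat_lit 142) (C.miq (nat_lit 2322664242) (nat_lit 1415656987343581313003030557)) (C.cons (nat_lit 138) (C.node (nat_lit 1) (nat_lit 6) (nat_lit 11) (C.cons (nat_lit 2114) (C.node (nat_lit 2) (nat_lit 6) (nat_lit 11) (C.cons (nat_lit 2116) (C.node (nat_lit 1) (nat_lit 8) (nat_lit 11) C.nil) C.nil)) C.nil)) C.nil))))) C.nil)) C.nil))) C.nil)) (C.cons (nat_lit 266) (C.node (nat_lit 1) (nat_lit 6) (nat_lit 11) (C.cons (nat_lit 2118) (C.node (nat_lit 2) (nat_lit 5) (nat_lit 11) C.nil) (C.cons (nat_lit 2114) (C.node (nat_lit 2) (nat_lit 6) (nat_lit 11) (C.cons (nat_lit 2116) (C.node (nat_lit 1) (nat_lit 8) (nat_lit 11) C.nil) C.nil)) C.nil))) C.nil))) C.nil))))) C.nil)) (C.cons (nat_lit 2122) (C.miq (nat_lit 2259909184) (nat_lit 2565347839207008780171412627)) (C.cons (nat_lit 2120) (C.miq (nat_lit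 2259909184) (nat_lit 2562929987567779521822000275)) C.nil))))) C.nil)))) C.nil))) (C.cons (nat_lit 1216) (C.miq (nat_lit 2271883444) (nat_lit 1470077851316290622212540445)) C.nil)))) (C.cons (nat_lit 2186) (C.miq (nat_lit 2876458504) (nat_lit 2642735897119070382241415505)) (C.cons (nat_lit 2184) (C.miq (nat_lit 2876458504) (nat_lit 2640318045479841123892003153)) C.nil)))) C.nil)) (C.cons (nat_lit 1296) (C.node (nat_lit 3) (nat_lit 10) (nat_lit 11) (C.cons (nat_lit 3208) (C.miq (nat_lit 977828704) (nat_lit 1566775112693965641319778529)) (C.cons (nat_lit 3082) (C.miq (nat_lit 1393822393) (nat_lit 31442420233189797055827713)) (C.cons (nat_lit 3080) (C.node (nat_lit 3) (nat_lit 8) (nat_lit 11) (C.cons (nat_lit 2378) (C.miq (nat_lit 1941571684) (nat_lit 3723513125660998051466051921)) (C.cons (nat_lit 2376) (C.miq (nat_lit 1941571684) (nat_lit 3723513125660998042876117329)) (C.cons (nat_lit 2314) (C.miq (nat_lit 2231612561) (nat_lit 1287548684317398189698910738))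 (C.cons (nat_lit 2312) (C.node (nat_lit 3) (nat_lit 4) (nat_lit 8) (C.cons (nat_lit 792) (C.node (nat_lit 3) (nat_lit 4) (nat_lit 10) (C.cons (nat_lit 1048) (C.node (nat_lit 4) (nat_lit 9) (nat_lit 10) (C.cons (nat_lit 1552) (C.node (nat_lit 2) (nat_lit 8) (nat_lit 11) (C.cons (nat_lit 2436) (C.miq (nat_lit 675904336) (nat_lit 957481147970396994095089889)) (C.cons (nat_lit 2372) (C.miq (nat_lit 347605602) (nat_lit 2843398379556919940141548613)) (C.cons (nat_lit 2308) (C.node (nat_lit 3) (nat_lit 4) (nat_lit 5) (C.cons (nat_lit 184) (C.miq (nat_lit 2489025392) (nat_lit 2843464381900523909274468745)) (C.cons (nat_lit 120) (C.miq (nat_lit 1803767956) (nat_lit 2795038709198120616151482929)) (C.cons (nat_lit 56) (C.node (nat_lit 3) (nat_lit 4) (nat_lit 6) (C.cons (nat_lit 216) (C.miq (nat_lit 2755180144) (nat_lit 957540103965983479085730017)) C.nil)) C.nil)))) C.nil)))) C.nil)) C.nil)) (C.cons (nat_lit 280) (C.node (nat_lit 3) (nat_lit 4) (nat_lit 10) (C.cons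 (nat_lit 1560) (C.node (nat_lit 3) (nat_lit 4) (nat_lit 5) (C.cons (nat_lit 184) (C.miq (nat_lit 2472256624) (nat_lit 2524307965738434589265822867)) (C.cons (nat_lit 120) (C.miq (nat_lit 2490082128) (nat_lit 3810605037808399756275287081)) (C.cons (nat_lit 56) (C.node (nat_lit 3) (nat_lit 4) (nat_lit 6) (C.cons (nat_lit 216) (C.miq (nat_lit 2755180144) (nat_lit 338570084323293341636167905)) (C.cons (nat_lit 88) (C.node (nat_lit 3) (nat_lit 4) (nat_lit 7) (C.cons (nat_lit 152) (C.node (nat_lit 3) (nat_lit 6) (nat_lit 11) C.nil) C.nil)) C.nil))) C.nil))))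
  (C.cons (nat_lit 1048) (C.node (nat_lit 4) (nat_lit 9) (nat_lit 10) (C.cons (nat_lit 1552) (C.node (nat_lit 3) (nat_lit 6) (nat_lit 11) (C.cons (nat_lit 2122) (C.node (nat_lit 3) (nat_lit 7) (nat_lit 11) (C.cons (nat_lit 2184) (C.node (nat_lit 2) (nat_lit 6) (nat_lit 11) (C.cons (nat_lit 2372) (C.miq (nat_lit 347605602) (nat_lit 2843398379556919940141548613)) (C.cons (nat_lit 2116) (C.node (nat_lit 6) (nat_lit 8) (nat_lit 11) C.nil) C.nil))) C.nil)) (C.cons (nat_lit 2120) (C.node (nat_lit 1) (nat_lit 3) (nat_lit 11) (C.cons (nat_lit 2186) (C.node (nat_lit 1) (nat_lit 8) (nat_lit 11) (C.cons (nat_lit 2370) (C.node (nat_lit 2) (nat_lit 6) (nat_lit 11) (C.cons (nat_lit 2116) (C.node (nat_lit 2) (nat_lit 8) (nat_lit 11) C.nil) C.nil)) (C.cons (nat_lit 2306) (C.node (nat_lit 6) (nat_lit 8) (nat_lit 11) (C.cons (nat_lit 2372) (C.miq (nat_lit 1266787872) (nat_lit 2787804542055864505029035077)) C.nil)) C.nil))) (C.cons (nat_lit 2058) (C.node (nat_lit 3) (nat_lit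 7) (nat_lit 11) C.nil) C.nil))) C.nil))) C.nil)) C.nil))) C.nil))) C.nil))))) C.nil)))) C.nil))) C.nil)))) C.nil))) C.nil))) C.nil))))) C.nil))) (C.cons (nat_lit 2096) (C.node (nat_lit 4) (nat_lit 8) (nat_lit 11) (C.cons (nat_lit 2320) (C.node (nat_lit 2) (nat_lit 6) (nat_lit 11) (C.cons (nat_lit 2372) (C.miq (nat_lit 347605602) (nat_lit 2804712753329251806550950981)) (C.cons (nat_lit 2118) (C.node (nat_lit 1) (nat_lit 2) (nat_lit 4) (C.cons (nat_lit 54) (C.node (nat_lit 1) (nat_lit 4) (nat_lit 6) (C.cons (nat_lit 90) (C.miq (nat_lit 968233124) (nat_lit 3172223011022981498284278931)) (C.cons (nat_lit 82) (C.node (nat_lit 1) (nat_lit 2) (nat_lit 7) (C.cons (nat_lit 142) (C.node (nat_lit 3) (nat_lit 7) (nat_lit 11) (C.cons (nat_lit 3208) (C.miq (nat_lit 2322664242) (nat_lit 1415656987343581313003030557)) (C.cons (nat_lit 2184) (C.node (nat_lit 3) (nat_lit 6) (nat_lit 11) (C.cons (nat_lit 2376) (C.miq (nat_lit 2805678214) (nat_lit 2640352134505279335871021393))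 (C.cons (nat_lit 2120) (C.node (nat_lit 6) (nat_lit 8) (nat_lit 11) (C.cons (nat_lit 2368) (C.node (nat_lit 3) (nat_lit 10) (nat_lit 11) (C.cons (nat_lit 3082) (C.miq (nat_lit 826649488) (nat_lit 65301640909145426791304961)) C.nil)) C.nil)) C.nil))) C.nil))) (C.cons (nat_lit 134) (C.node (nat_lit 1) (nat_lit 2) (nat_lit 3) (C.cons (nat_lit 1038) (C.node (nat_lit 1) (nat_lit 2) (nat_lit 9) (C.cons (nat_lit 518) (C.node (nat_lit 1) (nat_lit 3) (nat_lit 4) (C.cons (nat_lit 282) (C.miq (nat_lit 979636744) (nat_lit 3810539385699315665014423815)) (C.cons (nat_lit 26) (C.node (nat_lit 1) (nat_lit 4) (nat_lit 8) (C.cons (nat_lit 274) (C.node (nat_lit 1) (nat_lit 10) (nat_lit 11) (C.cons (nat_lit 3106) (C.miq (nat_lit 1638249008) (nat_lit 3754965525768486217367226397)) (C.cons (nat_lit 3074) (C.node (nat_lit 5) (nat_lit 10) (nat_lit 11) (C.cons (nat_lit 3108) (C.miq (nat_lit 1613870498) (nat_lit 632307274502196371473173540)) (C.cons (nat_lit 3104) (C.node (nat_lit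 1) (nat_lit 8) (nat_lit 10) (C.cons (nat_lit 1378) (C.miq (nat_lit 1175632512) (nat_lit 2560543200718440731840548609)) (C.cons (nat_lit 1346) (C.miq (nat_lit 1175632512) (nat_lit 2560543200718440594401595137)) (C.cons (nat_lit 1314) (C.miq (nat_lit 1638249008) (nat_lit 1588570457019070736293759005)) C.nil)))) C.nil))) C.nil))) C.nil)) C.nil))) C.nil)) (C.cons (nat_lit 14) (C.node (nat_lit 1) (nat_lit 2) (nat_lit 9) (C.cons (nat_lit 1542) (C.node (nat_lit 1) (nat_lit 10) (nat_lit 11) (C.cons (nat_lit 3106) (C.miq (nat_lit 1361558160) (nat_lit 162037990151907751766593281)) (C.cons (nat_lit 3082) (C.miq (nat_lit 826649488) (nat_lit 65301640909145426791304961)) (C.cons (nat_lit 3074) (C.node (nat_lit 1) (nat_lit 5) (nat_lit 10) (C.cons (nat_lit 1378) (C.miq (nat_lit 1175632512) (nat_lit 2560543200718440731840548609)) (C.cons (nat_lit 1314) (C.miq (nat_lit 2773188896) (nat_lit 2533979372226108220034056455)) (C.cons (nat_lit 1122) (C.miq (nat_lit 840567653)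 (nat_lit 1864183260212829311511693537)) (C.cons (nat_lit 1058) (C.node (nat_lit 1) (nat_lit 8) (nat_lit 10)
  (C.cons (nat_lit 1354) (C.miq (nat_lit 1913850280) (nat_lit 16932211226583759206354689)) (C.cons (nat_lit 1346) (C.miq (nat_lit 1175632512) (nat_lit 2560543200718440594401595137)) (C.cons (nat_lit 1290) (C.miq (nat_lit 1913850280) (nat_lit 16932211226583759202160385)) (C.cons (nat_lit 1282) (C.node (nat_lit 1) (nat_lit 5) (nat_lit 11) (C.cons (nat_lit 2346) (C.miq (nat_lit 2719155893) (nat_lit 16944607564704555557587169)) (C.cons (nat_lit 2338) (C.node (nat_lit 1) (nat_lit 5) (nat_lit 9) (C.cons (nat_lit 674) (C.miq (nat_lit 1696204690) (nat_lit 1279063680083345748351386245)) (C.cons (nat_lit 610) (C.miq (nat_lit 563394128) (nat_lit 3116649077450121727771216097)) C.nil))) (C.cons (nat_lit 2090) (C.miq (nat_lit 2719155893) (nat_lit 16944607564704555540809953)) C.nil)))) C.nil))))) C.nil))))) C.nil)))) (C.cons (nat_lit 518) (C.node (nat_lit 1)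 (nat_lit 2) (nat_lit 10) (C.cons (nat_lit 1030) (C.node (nat_lit 1) (nat_lit 9) (nat_lit 10) (C.cons (nat_lit 1634) (C.miq (nat_lit 878775209) (nat_lit 99141565440187206893440769)) (C.cons (nat_lit 1602) (C.miq (nat_lit 878775209) (nat_lit 99141565440187206891343617)) (C.cons (nat_lit 1570) (C.miq (nat_lit 873794458) (nat_lit 65301640626263075263221505)) (C.cons (nat_lit 1538) (C.node (nat_lit 1) (nat_lit 3) (nat_lit 4) (C.cons (nat_lit 282) (C.node (nat_lit 2) (nat_lit 4) (nat_lit 7) (C.cons (nat_lit 404) (C.miq (nat_lit 605648944) (nat_lit 3116622661230158656859472265)) (C.cons (nat_lit 212) (C.miq (nat_lit 2606893639) (nat_lit 2560516785174871057984914579)) (C.cons (nat_lit 148) (C.node (nat_lit 3) (nat_lit 7) (nat_lit 11) (C.cons (nat_lit 3208) (C.miq (nat_lit 2760095239) (nat_lit 340976259173524461530450145)) (C.cons (nat_lit 2186) (C.miq (nat_lit 1102480240) (nat_lit 2560511102575922764526453129)) (C.cons (nat_lit 2184) (C.node (nat_lit 1) (nat_lit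 3) (nat_lit 11) (C.cons (nat_lit 3082) (C.miq (nat_lit 826649488) (nat_lit 65301640909145426791304961)) (C.cons (nat_lit 2090) (C.miq (nat_lit 2719155893) (nat_lit 16944607564704555540809953)) C.nil))) C.nil)))) C.nil)))) (C.cons (nat_lit 26) (C.node (nat_lit 1) (nat_lit 4) (nat_lit 8) (C.cons (nat_lit 274) (C.node (nat_lit 3) (nat_lit 6) (nat_lit 11) (C.cons (nat_lit 2376) (C.node (nat_lit 3) (nat_lit 5) (nat_lit 11) (C.cons (nat_lit 2090) (C.miq (nat_lit 2719155893) (nat_lit 16944607564704555540809953)) (C.cons (nat_lit 2088) (C.node (nat_lit 1) (nat_lit 3) (nat_lit 11) (C.cons (nat_lit 3082) (C.miq (nat_lit 1678999723) (nat_lit 31475900868761589197180673)) (C.cons (nat_lit 2186) (C.miq (nat_lit 2215862395) (nat_lit 31475900868761589138458849)) C.nil))) C.nil))) (C.cons (nat_lit 2120) (C.node (nat_lit 6) (nat_lit 8) (nat_lit 11) C.nil) C.nil))) C.nil)) C.nil))) C.nil))))) C.nil)) C.nil))) C.nil))) C.nil))) C.nil))) (C.cons (nat_lit 22) (C.node (nat_lit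 3) (nat_lit 6) (nat_lit 11) (C.cons (nat_lit 2376) (C.node (nat_lit 3) (nat_lit 7) (nat_lit 11) (C.cons (nat_lit 3208) (C.node (nat_lit 3) (nat_lit 4) (nat_lit 10) (C.cons (nat_lit 1560) (C.miq (nat_lit 2225299579) (nat_lit 1885968108157602743204710625)) (C.cons (nat_lit 1304) (C.node (nat_lit 4) (nat_lit 9) (nat_lit 10) (C.cons (nat_lit 1556) (C.miq (nat_lit 1916996008) (nat_lit 2510946177091563806751461121)) (C.cons (nat_lit 1552) (C.node (nat_lit 6) (nat_lit 7) (nat_lit 10) (C.cons (nat_lit 1728) (C.miq (nat_lit 615058279) (nat_lit 1876264770776469086282975457)) (C.cons (nat_lit 1472) (C.node (nat_lit 7) (nat_lit 9) (nat_lit 10) (C.cons (nat_lit 1696) (C.miq (nat_lit 1165363624) (nat_lit 2747894604694719700521717505)) (C.cons (nat_lit 1664) (C.node (nat_lit 2) (nat_lit 6) (nat_lit 7) (C.cons (nat_lit 212) (C.miq (nat_lit 879168424) (nat_lit 256299523913359417352916737)) (C.cons (nat_lit 204) (C.miq (nat_lit 1181989504) (nat_lit 246659181976040895188373249))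 (C.cons (nat_lit 196) (C.node (nat_lit 1) (nat_lit 3) (nat_lit 4) (C.cons (nat_lit 122) (C.miq (nat_lit 1934000314) (nat_lit 147516103710889846475067137)) (C.cons (nat_lit 90)
  (C.miq (nat_lit 1934000314) (nat_lit 108830477483221712884469505)) (C.cons (nat_lit 58) (C.miq (nat_lit 329991433) (nat_lit 3878281585046282538722591281)) (C.cons (nat_lit 26) (C.node (nat_lit 3) (nat_lit 4) (nat_lit 5) (C.cons (nat_lit 184) (C.miq (nat_lit 1731504139) (nat_lit 222500495360744954428985089)) (C.cons (nat_lit 120) (C.miq (nat_lit 1934000314) (nat_lit 145098252071660588125654785)) (C.cons (nat_lit 56) (C.node (nat_lit 1) (nat_lit 3) (nat_lit 8) (C.cons (nat_lit 298) (C.node (nat_lit 1) (nat_lit 3) (nat_lit 11) (C.cons (nat_lit 2058) (C.node (nat_lit 1) (nat_lit 4) (nat_lit 8) (C.cons (nat_lit 274) (C.node (nat_lit 1) (nat_lit 8) (nat_lit 10) (C.cons (nat_lit 1282) (C.node (nat_lit 3) (nat_lit 5) (nat_lit 11) (C.cons (nat_lit 2088) (C.node (nat_lit 1) (nat_lit 5)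 (nat_lit 11) (C.cons (nat_lit 2082) (C.node (nat_lit 1) (nat_lit 10) (nat_lit 11) C.nil) C.nil)) C.nil)) C.nil)) C.nil)) C.nil)) (C.cons (nat_lit 266) (C.node (nat_lit 1) (nat_lit 3) (nat_lit 11) (C.cons (nat_lit 2090) (C.node (nat_lit 1) (nat_lit 10) (nat_lit 11) (C.cons (nat_lit 3074) (C.node (nat_lit 2) (nat_lit 10) (nat_lit 11) (C.cons (nat_lit 3108) (C.miq (nat_lit 319206818) (nat_lit 88290655624103322120948772)) C.nil)) C.nil)) (C.cons (nat_lit 2058) (C.node (nat_lit 3) (nat_lit 5) (nat_lit 11) (C.cons (nat_lit 2088) (C.node (nat_lit 1) (nat_lit 7) (nat_lit 11) (C.cons (nat_lit 2178) (C.node (nat_lit 1) (nat_lit 8) (nat_lit 11) C.nil) C.nil)) C.nil)) C.nil))) C.nil))) C.nil)))) C.nil))))) C.nil)))) C.nil))) (C.cons (nat_lit 1216) (C.miq (nat_lit 2271883444) (nat_lit 1470077851316290622212540445)) C.nil)))) C.nil))) (C.cons (nat_lit 1048) (C.miq (nat_lit 2225299579) (nat_lit 1266998088514912605755148513)) C.nil)))) (C.cons (nat_lit 2186) (C.miq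 (nat_lit 1796506480) (nat_lit 3116616980188060786051187081)) (C.cons (nat_lit 2184) (C.miq (nat_lit 2805678214) (nat_lit 2640352134505279335871021393)) C.nil)))) (C.cons (nat_lit 2120) (C.node (nat_lit 6) (nat_lit 8) (nat_lit 11) (C.cons (nat_lit 2368) (C.node (nat_lit 3) (nat_lit 10) (nat_lit 11) (C.cons (nat_lit 3208) (C.miq (nat_lit 996702784) (nat_lit 2862743591320848116604798099)) (C.cons (nat_lit 3082) (C.miq (nat_lit 999661888) (nat_lit 3133555371091074272195576979)) (C.cons (nat_lit 3080) (C.node (nat_lit 1) (nat_lit 10) (nat_lit 11) (C.cons (nat_lit 3106) (C.node (nat_lit 2) (nat_lit 5) (nat_lit 11) (C.cons (nat_lit 2340) (C.node (nat_lit 3) (nat_lit 5) (nat_lit 11) C.nil) C.nil)) C.nil)) C.nil)))) C.nil)) C.nil))) C.nil))) (C.cons (nat_lit 2116) (C.node (nat_lit 3) (nat_lit 10) (nat_lit 11) (C.cons (nat_lit 3208) (C.node (nat_lit 3) (nat_lit 4) (nat_lit 10) (C.cons (nat_lit 1560) (C.miq (nat_lit 2208565174) (nat_lit 1885930495262207796969474273))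 (C.cons (nat_lit 1304) (C.node (nat_lit 4) (nat_lit 9) (nat_lit 10) (C.cons (nat_lit 1556) (C.miq (nat_lit 1916996008) (nat_lit 2510946177091563806751461121)) (C.cons (nat_lit 1552) (C.node (nat_lit 6) (nat_lit 7) (nat_lit 10) (C.cons (nat_lit 1728) (C.miq (nat_lit 615058279) (nat_lit 1876264770776469086282975457)) (C.cons (nat_lit 1472) (C.node (nat_lit 7) (nat_lit 9) (nat_lit 10) (C.cons (nat_lit 1696) (C.miq (nat_lit 1165363624) (nat_lit 2747894604694719700521717505)) (C.cons (nat_lit 1664) (C.node (nat_lit 1) (nat_lit 3) (nat_lit 4) (C.cons (nat_lit 122) (C.miq (nat_lit 1934000314) (nat_lit 147516103710889846475067137)) (C.cons (nat_lit 90) (C.miq (nat_lit 1934000314) (nat_lit 108830477483221712884469505)) (C.cons (nat_lit 58) (C.miq (nat_lit 329991433) (nat_lit 3878281585046282538722591281)) (C.cons (nat_lit 26) (C.node (nat_lit 3) (nat_lit 4) (nat_lit 5) (C.cons (nat_lit 184) (C.miq (nat_lit 1731504139) (nat_lit 222500495360744954428985089)) (C.cons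 (nat_lit 120) (C.miq (nat_lit 1934000314) (nat_lit 145098252071660588125654785)) (C.cons (nat_lit 56) (C.node (nat_lit 1) (nat_lit 4) (nat_lit 8) (C.cons (nat_lit 306) (C.node (nat_lit 1) (nat_lit 8) (nat_lit 10) (C.cons (nat_lit 1282) (C.node (nat_lit 1) (nat_lit 2) (nat_lit 4) (C.cons (nat_lit 86)
  (C.miq (nat_lit 413540532) (nat_lit 1779540392966768900239788061)) (C.cons (nat_lit 22) (C.node (nat_lit 1) (nat_lit 4) (nat_lit 6) (C.cons (nat_lit 82) (C.node (nat_lit 5) (nat_lit 6) (nat_lit 8) (C.cons (nat_lit 876) (C.miq (nat_lit 1197804169) (nat_lit 2747898736937090985143045889)) (C.cons (nat_lit 872) (C.miq (nat_lit 1197804169) (nat_lit 2747898736937090985142783745)) (C.cons (nat_lit 868) (C.miq (nat_lit 1197804169) (nat_lit 2747898736937090985142521601)) (C.cons (nat_lit 864) (C.miq (nat_lit 1197804169) (nat_lit 2747898736937090985142259457)) (C.cons (nat_lit 364) (C.miq (nat_lit 3011919994) (nat_lit 440107143061670566746391699)) (C.cons (nat_lit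 360) (C.miq (nat_lit 3011919994) (nat_lit 435271439783212050047566995)) (C.cons (nat_lit 356) (C.miq (nat_lit 1420198146) (nat_lit 3810540750552337771626037511)) (C.cons (nat_lit 352) (C.node (nat_lit 2) (nat_lit 4) (nat_lit 10) (C.cons (nat_lit 1076) (C.node (nat_lit 2) (nat_lit 7) (nat_lit 10) (C.cons (nat_lit 1156) (C.node (nat_lit 2) (nat_lit 8) (nat_lit 10) (C.cons (nat_lit 1284) (C.node (nat_lit 4) (nat_lit 5) (nat_lit 6) (C.cons (nat_lit 112) (C.node (nat_lit 4) (nat_lit 5) (nat_lit 7) (C.cons (nat_lit 176) (C.node (nat_lit 2) (nat_lit 10) (nat_lit 11) C.nil) C.nil)) C.nil)) C.nil)) C.nil)) (C.cons (nat_lit 1044) (C.node (nat_lit 4) (nat_lit 5) (nat_lit 10) (C.cons (nat_lit 1072) (C.node (nat_lit 1) (nat_lit 7) (nat_lit 11) C.nil) C.nil)) C.nil))) C.nil))))))))) C.nil)) C.nil))) C.nil)) (C.cons (nat_lit 274) (C.node (nat_lit 1) (nat_lit 8) (nat_lit 10) (C.cons (nat_lit 1314) (C.node (nat_lit 2) (nat_lit 8) (nat_lit 10) (C.cons (nat_lit 1284)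 (C.node (nat_lit 1) (nat_lit 10) (nat_lit 11) (C.cons (nat_lit 3078) (C.miq (nat_lit 2048408352) (nat_lit 1588535777447028648632059933)) (C.cons (nat_lit 3074) (C.node (nat_lit 5) (nat_lit 8) (nat_lit 11) (C.cons (nat_lit 2344) (C.miq (nat_lit 339058872) (nat_lit 67724085249748206663241473)) (C.cons (nat_lit 2340) (C.miq (nat_lit 2763329576) (nat_lit 2533932757263591723063574791)) (C.cons (nat_lit 2336) (C.node (nat_lit 2) (nat_lit 8) (nat_lit 11) (C.cons (nat_lit 2436) (C.node (nat_lit 1) (nat_lit 7) (nat_lit 11) C.nil) C.nil)) C.nil)))) C.nil))) C.nil)) (C.cons (nat_lit 1282) (C.node (nat_lit 2) (nat_lit 4) (nat_lit 10) (C.cons (nat_lit 1076) (C.node (nat_lit 2) (nat_lit 7) (nat_lit 10) (C.cons (nat_lit 1156) (C.node (nat_lit 2) (nat_lit 8) (nat_lit 10) (C.cons (nat_lit 1284) (C.node (nat_lit 5) (nat_lit 7) (nat_lit 10) (C.cons (nat_lit 1184) (C.node (nat_lit 5) (nat_lit 8) (nat_lit 10) (C.cons (nat_lit 1312) (C.node (nat_lit 1) (nat_lit 2) (nat_lit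 4) (C.cons (nat_lit 86) (C.miq (nat_lit 413540532) (nat_lit 1779540392966768900239788061)) (C.cons (nat_lit 22) (C.node (nat_lit 2) (nat_lit 10) (nat_lit 11) (C.cons (nat_lit 3078) (C.miq (nat_lit 2048408352) (nat_lit 1549850151219360515041462301)) (C.cons (nat_lit 3076) (C.node (nat_lit 1) (nat_lit 4) (nat_lit 5) (C.cons (nat_lit 50) (C.node (nat_lit 1) (nat_lit 4) (nat_lit 6) C.nil) C.nil)) C.nil))) C.nil))) C.nil)) C.nil)) C.nil)) C.nil)) (C.cons (nat_lit 1044) (C.node (nat_lit 4) (nat_lit 5) (nat_lit 10) (C.cons (nat_lit 1072) (C.node (nat_lit 2) (nat_lit 7) (nat_lit 10) (C.cons (nat_lit 1188) (C.node (nat_lit 2) (nat_lit 8) (nat_lit 10) (C.cons (nat_lit 1284) (C.node (nat_lit 5) (nat_lit 8) (nat_lit 10) (C.cons (nat_lit 1312) (C.node (nat_lit 2) (nat_lit 10) (nat_lit 11) (C.cons (nat_lit 3078) (C.miq (nat_lit 2048408352) (nat_lit 1549850151219360515041462301)) (C.cons (nat_lit 3076) (C.node (nat_lit 4) (nat_lit 5) (nat_lit 7) (C.cons (nat_lit 432)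 (C.miq (nat_lit 624994182) (nat_lit 678227547429473659330299328)) C.nil)) C.nil))) C.nil)) C.nil)) (C.cons (nat_lit 1156) (C.node (nat_lit 5) (nat_lit 7) (nat_lit 10) (C.cons (nat_lit 1184) (C.node (nat_lit 2) (nat_lit 8) (nat_lit 10) (C.cons (nat_lit 1316) (C.node (nat_lit 2) (nat_lit 10) (nat_lit 11) (C.cons (nat_lit 3078) (C.miq (nat_lit 2048408352) (nat_lit 1549850151219360515041462301)) (C.cons (nat_lit 3076)
  (C.node (nat_lit 4) (nat_lit 5) (nat_lit 8) (C.cons (nat_lit 432) (C.node (nat_lit 2) (nat_lit 4) (nat_lit 7) C.nil) C.nil)) C.nil))) (C.cons (nat_lit 1284) (C.node (nat_lit 5) (nat_lit 8) (nat_lit 10) (C.cons (nat_lit 1312) (C.node (nat_lit 1) (nat_lit 10) (nat_lit 11) (C.cons (nat_lit 3110) (C.miq (nat_lit 2048408352) (nat_lit 1549850151219360652480415773)) (C.cons (nat_lit 3106) (C.node (nat_lit 2) (nat_lit 10) (nat_lit 11) C.nil) (C.cons (nat_lit 3078) (C.miq (nat_lit 2048408352) (nat_lit 1549850151219360515041462301)) C.nil)))) C.nil))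 C.nil))) C.nil)) C.nil))) C.nil)) C.nil))) C.nil))) C.nil))) C.nil)))) C.nil))))) C.nil))) (C.cons (nat_lit 1216) (C.miq (nat_lit 2271883444) (nat_lit 1470077851316290622212540445)) C.nil)))) C.nil))) (C.cons (nat_lit 1048) (C.miq (nat_lit 2208565174) (nat_lit 1266960475619517659519912161)) C.nil)))) (C.cons (nat_lit 3082) (C.miq (nat_lit 999661888) (nat_lit 3133555371091074272195576979)) (C.cons (nat_lit 3080) (C.node (nat_lit 3) (nat_lit 7) (nat_lit 11) (C.cons (nat_lit 2186) (C.node (nat_lit 3) (nat_lit 6) (nat_lit 11) (C.cons (nat_lit 2376) (C.miq (nat_lit 1796506480) (nat_lit 3116616980188060786051187081)) (C.cons (nat_lit 2120) (C.node (nat_lit 1) (nat_lit 6) (nat_lit 11) (C.cons (nat_lit 2370) (C.node (nat_lit 3) (nat_lit 5) (nat_lit 11) (C.cons (nat_lit 2344) (C.node (nat_lit 2) (nat_lit 8) (nat_lit 11) C.nil) C.nil)) C.nil)) C.nil))) (C.cons (nat_lit 2184) (C.node (nat_lit 7) (nat_lit 10) (nat_lit 11) (C.cons (nat_lit 3204) (C.node (nat_lit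 1) (nat_lit 2) (nat_lit 11) (C.cons (nat_lit 2086) (C.node (nat_lit 1) (nat_lit 10) (nat_lit 11) C.nil) C.nil)) (C.cons (nat_lit 3200) (C.node (nat_lit 1) (nat_lit 7) (nat_lit 11) C.nil) C.nil))) C.nil))) C.nil)))) C.nil)))) C.nil)) C.nil))) C.nil)) C.nil))) List.nil)

theorem ok12_266 : okL par12 (nat_lit 267) c12_266 (nat_lit 266) = true := by decide +kernel

noncomputable def c12_267 : List C :=
  (List.cons (C.node (nat_lit 3) (nat_lit 4) (nat_lit 5) (C.cons (nat_lit 58) (C.miq (nat_lit 277166500) (nat_lit 349380631927012016520168984)) (C.cons (nat_lit 56) (C.node (nat_lit 3) (nat_lit 8) (nat_lit 9) (C.cons (nat_lit 876) (C.miq (nat_lit 338823832) (nat_lit 2510943779162890079411375873)) (C.cons (nat_lit 872) (C.miq (nat_lit 340986505) (nat_lit 67709493875182685380939521)) (C.cons (nat_lit 844) (C.miq (nat_lit 338823832) (nat_lit 2510943779162890079409278721)) (C.cons (nat_lit 840) (C.miq (nat_lit 1399392884) (nat_lit 1015508037399489965095650451))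 (C.cons (nat_lit 812) (C.miq (nat_lit 338823832) (nat_lit 2510943779162890079407181569)) (C.cons (nat_lit 808) (C.miq (nat_lit 340986505) (nat_lit 67709493875182685376745217)) (C.cons (nat_lit 780) (C.miq (nat_lit 338823832) (nat_lit 2510943779162890079405084417)) (C.cons (nat_lit 776) (C.node (nat_lit 1) (nat_lit 3) (nat_lit 4) (C.cons (nat_lit 282) (C.node (nat_lit 4) (nat_lit 8) (nat_lit 11) (C.cons (nat_lit 2320) (C.node (nat_lit 1) (nat_lit 3) (nat_lit 10) (C.cons (nat_lit 1038) (C.miq (nat_lit 1134985504) (nat_lit 1479731419840439351639343367)) (C.cons (nat_lit 1034) (C.node (nat_lit 1) (nat_lit 4) (nat_lit 9) (C.cons (nat_lit 534) (C.miq (nat_lit 882344224) (nat_lit 870433839772332210629443847)) (C.cons (nat_lit 530) (C.node (nat_lit 1) (nat_lit 8) (nat_lit 10) (C.cons (nat_lit 1346) (C.miq (nat_lit 705889924) (nat_lit 1250067611676625591974101329)) (C.cons (nat_lit 1282) (C.node (nat_lit 6) (nat_lit 8) (nat_lit 10) (C.cons (nat_lit 1344) (C.node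 (nat_lit 4) (nat_lit 7) (nat_lit 8) (C.cons (nat_lit 404) (C.miq (nat_lit 674853904) (nat_lit 938138334284596884038943891)) (C.cons (nat_lit 400) (C.node (nat_lit 3) (nat_lit 6) (nat_lit 8) (C.cons (nat_lit 2376) (C.miq (nat_lit 1178053504) (nat_lit 1479746805232835755185344257)) (C.cons (nat_lit 364) (C.miq (nat_lit 409617184) (nat_lit 1624817902778749431562176541)) (C.cons (nat_lit 360) (C.miq (nat_lit 2503360679) (nat_lit 435226576874911609926452371)) (C.cons (nat_lit 332) (C.miq (nat_lit 409617184) (nat_lit 1624817902778749294123223069)) (C.cons (nat_lit 328) (C.node (nat_lit 1) (nat_lit 3) (nat_lit 7) (C.cons (nat_lit 174) (C.miq (nat_lit 1401319744) (nat_lit 396569598331855768264967315)) (C.cons (nat_lit 170) (C.miq (nat_lit 1401319744) (nat_lit 396569598330729868358124691)) (C.cons (nat_lit 142) (C.miq (nat_lit 3004733216) (nat_lit 340987935834169692769419909)) (C.cons (nat_lit 138) (C.node (nat_lit 1) (nat_lit 4) (nat_lit 6) (C.cons (nat_lit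 114) (C.miq (nat_lit 1462853764) (nat_lit 166833866675437539002286417)) (C.cons (nat_lit 86) (C.miq (nat_lit 413540532) (nat_lit 1624797888056096365877397533)) C.nil))) C.nil))))) C.nil)))))) C.nil))) C.nil)) C.nil))) C.nil))) C.nil))) C.nil)) (C.cons (nat_lit 26) (C.node (nat_lit 3) (nat_lit 4) (nat_lit 8) (C.cons (nat_lit 280) (C.node (nat_lit 4) (nat_lit 5) (nat_lit 7) (C.cons (nat_lit 180) (C.node (nat_lit 4) (nat_lit 7) (nat_lit 8) (C.cons (nat_lit 400) (C.node (nat_lit 5) (nat_lit 7) (nat_lit 10) (C.cons (nat_lit 1184) (C.node (nat_lit 2) (nat_lit 4) (nat_lit 8) (C.cons (nat_lit 788) (C.miq (nat_lit 1385711370) (nat_lit 952658043183125942266561683)) (C.cons (nat_lit 276) (C.node (nat_lit 4) (nat_lit 8) (nat_lit 9) (C.cons (nat_lit 786) (C.miq (nat_lit 1410574480) (nat_lit 31451717466221004165156609)) C.nil)) C.nil))) C.nil)) C.nil)) (C.cons (nat_lit 176) (C.node (nat_lit 2) (nat_lit 4) (nat_lit 7) (C.cons (nat_lit 404) (C.node (nat_lit 7) (nat_lit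 8) (nat_lit 10) (C.cons (nat_lit 1408) (C.node (nat_lit 2) (nat_lit 4) (nat_lit 9) (C.cons (nat_lit 534) (C.miq (nat_lit 691552519) (nat_lit 938133888655867902087988371)) (C.cons (nat_lit 532) (C.node (nat_lit 1) (nat_lit 4) (nat_lit 9) (C.cons (nat_lit 786) (C.miq (nat_lit 1410574480) (nat_lit 31451717466221004165156609)) C.nil)) C.nil))) C.nil)) (C.cons (nat_lit 148) (C.node (nat_lit 4) (nat_lit 7) (nat_lit 8) C.nil) C.nil))) C.nil))) C.nil)) C.nil))) C.nil))))))))) C.nil))) (List.cons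
  (C.node (nat_lit 2) (nat_lit 6) (nat_lit 11) (C.cons (nat_lit 2372) (C.node (nat_lit 2) (nat_lit 6) (nat_lit 7) (C.cons (nat_lit 198) (C.miq (nat_lit 1176611712) (nat_lit 239388914308226204748418817)) (C.cons (nat_lit 196) (C.node (nat_lit 1) (nat_lit 6) (nat_lit 7) (C.cons (nat_lit 450) (C.miq (nat_lit 1115753319) (nat_lit 317969092280591501152618721)) (C.cons (nat_lit 194) (C.node (nat_lit 6) (nat_lit 7) (nat_lit 8) (C.cons (nat_lit 448) (C.node (nat_lit 2) (nat_lit 7) (nat_lit 11) (C.cons (nat_lit 2182) (C.miq (nat_lit 1093142454) (nat_lit 317953707441016882568890593)) (C.cons (nat_lit 2180) (C.node (nat_lit 1) (nat_lit 7) (nat_lit 11) (C.cons (nat_lit 2434) (C.miq (nat_lit 2709653430) (nat_lit 317967653179537689321670881)) (C.cons (nat_lit 2178) (C.node (nat_lit 7) (nat_lit 8) (nat_lit 11) (C.cons (nat_lit 2432) (C.node (nat_lit 1) (nat_lit 6) (nat_lit 9) (C.cons (nat_lit 866) (C.miq (nat_lit 638826640) (nat_lit 2565378903777346567698845441))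 (C.cons (nat_lit 834) (C.miq (nat_lit 638826640) (nat_lit 2565378903777346430259891969)) (C.cons (nat_lit 614) (C.miq (nat_lit 1176611712) (nat_lit 742302055267911941426188033)) (C.cons (nat_lit 610) (C.miq (nat_lit 1125714789) (nat_lit 632278552866509050018400481)) (C.cons (nat_lit 582) (C.miq (nat_lit 1176611712) (nat_lit 703616429040243807835590401)) C.nil)))))) C.nil)) C.nil))) C.nil))) C.nil)) C.nil))) C.nil))) (C.cons (nat_lit 2116) (C.node (nat_lit 6) (nat_lit 8) (nat_lit 11) (C.cons (nat_lit 2368) (C.node (nat_lit 3) (nat_lit 5) (nat_lit 11) (C.cons (nat_lit 2344) (C.node (nat_lit 2) (nat_lit 8) (nat_lit 11) (C.cons (nat_lit 2436) (C.miq (nat_lit 330828146) (nat_lit 2833726972817605163334500997)) (C.cons (nat_lit 2308) (C.node (nat_lit 4) (nat_lit 8) (nat_lit 11) (C.cons (nat_lit 2322) (C.miq (nat_lit 1803723792) (nat_lit 2790220954849055799285056659)) (C.cons (nat_lit 2320) (C.node (nat_lit 2) (nat_lit 3) (nat_lit 7) (C.cons (nat_lit 174) (C.miq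 (nat_lit 2335246706) (nat_lit 2565345441797091459127444101)) (C.cons (nat_lit 172) (C.miq (nat_lit 2149955955) (nat_lit 44773495574998210463926920)) (C.cons (nat_lit 142) (C.miq (nat_lit 2335246706) (nat_lit 2565345441797091459125346949)) (C.cons (nat_lit 140) (C.node (nat_lit 2) (nat_lit 9) (nat_lit 11) (C.cons (nat_lit 2598) (C.miq (nat_lit 1400027145) (nat_lit 169297540046930615248162561)) (C.cons (nat_lit 2596) (C.miq (nat_lit 1400027145) (nat_lit 169297503153442467829059329)) (C.cons (nat_lit 2566) (C.miq (nat_lit 2209417106) (nat_lit 2565345440826565739585864325)) (C.cons (nat_lit 2564) (C.node (nat_lit 3) (nat_lit 6) (nat_lit 8) (C.cons (nat_lit 844) (C.miq (nat_lit 338823832) (nat_lit 2510943779162890079409278721)) (C.cons (nat_lit 840) (C.miq (nat_lit 1399392884) (nat_lit 1015508037399489965095650451)) (C.cons (nat_lit 332) (C.miq (nat_lit 308938807) (nat_lit 1321377522050129346723053961)) (C.cons (nat_lit 328) (C.node (nat_lit 6) (nat_lit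 8) (nat_lit 10) (C.cons (nat_lit 1378) (C.miq (nat_lit 728237217) (nat_lit 2862741192925770335771559059)) (C.cons (nat_lit 1376) (C.miq (nat_lit 1756538160) (nat_lit 2790220954349156335255094313)) (C.cons (nat_lit 1346) (C.miq (nat_lit 728237217) (nat_lit 2862741192925770335769461907)) C.nil)))) C.nil))))) C.nil))))) C.nil))))) C.nil))) C.nil))) (C.cons (nat_lit 2088) (C.node (nat_lit 3) (nat_lit 8) (nat_lit 11) (C.cons (nat_lit 2312) (C.node (nat_lit 2) (nat_lit 7) (nat_lit 11) (C.cons (nat_lit 2436) (C.miq (nat_lit 330828146) (nat_lit 2795041346589937029743903365)) (C.cons (nat_lit 2182) (C.node (nat_lit 7) (nat_lit 8) (nat_lit 11) (C.cons (nat_lit 2432) (C.node (nat_lit 1) (nat_lit 6) (nat_lit 7) (C.cons (nat_lit 450) (C.miq (nat_lit 1108872054) (nat_lit 317953707696033211342784737)) (C.cons (nat_lit 194) (C.node (nat_lit 2) (nat_lit 6) (nat_lit 7) (C.cons (nat_lit 452) (C.node (nat_lit 2) (nat_lit 3) (nat_lit 10) (C.cons (nat_lit 1292) (C.miq (nat_lit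 1445595011) (nat_lit 1321375567261022752099533193)) (C.cons (nat_lit 1038)
  (C.miq (nat_lit 1461324579) (nat_lit 1415671781190971258003392541)) (C.cons (nat_lit 1036) (C.node (nat_lit 1) (nat_lit 4) (nat_lit 6) (C.cons (nat_lit 118) (C.miq (nat_lit 3056116752) (nat_lit 546505325297009138770314387)) (C.cons (nat_lit 114) (C.node (nat_lit 2) (nat_lit 4) (nat_lit 6) C.nil) (C.cons (nat_lit 86) (C.miq (nat_lit 3056116752) (nat_lit 546505325297009001331360915)) C.nil)))) C.nil)))) C.nil)) C.nil))) C.nil)) (C.cons (nat_lit 2180) (C.node (nat_lit 1) (nat_lit 7) (nat_lit 11) (C.cons (nat_lit 2434) (C.node (nat_lit 1) (nat_lit 6) (nat_lit 7) (C.cons (nat_lit 198) (C.miq (nat_lit 2819754870) (nat_lit 317967653931075876996647137)) (C.cons (nat_lit 194) (C.node (nat_lit 2) (nat_lit 6) (nat_lit 7) (C.cons (nat_lit 452) (C.node (nat_lit 3) (nat_lit 8) (nat_lit 10) (C.cons (nat_lit 1292) (C.miq (nat_lit 1445595011) (nat_lit 1321375567261022752099533193)) (C.cons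 (nat_lit 1290) (C.miq (nat_lit 1401621015) (nat_lit 2795078424698078584595678355)) (C.cons (nat_lit 1288) (C.node (nat_lit 4) (nat_lit 8) (nat_lit 9) (C.cons (nat_lit 788) (C.miq (nat_lit 1418070311) (nat_lit 407449930817320420085334661)) (C.cons (nat_lit 786) (C.miq (nat_lit 1460931465) (nat_lit 1415662484031959190704623361)) (C.cons (nat_lit 784) (C.node (nat_lit 1) (nat_lit 4) (nat_lit 6) (C.cons (nat_lit 118) (C.miq (nat_lit 3056116752) (nat_lit 546505325297009138770314387)) (C.cons (nat_lit 114) (C.node (nat_lit 2) (nat_lit 4) (nat_lit 6) C.nil) (C.cons (nat_lit 86) (C.miq (nat_lit 3056116752) (nat_lit 546505325297009001331360915)) C.nil)))) C.nil)))) C.nil)))) C.nil)) C.nil))) (C.cons (nat_lit 2178) (C.node (nat_lit 7) (nat_lit 8) (nat_lit 11) C.nil) C.nil))) C.nil)))) C.nil)) C.nil))) C.nil)) C.nil))) (List.cons (C.node (nat_lit 3) (nat_lit 4) (nat_lit 5) (C.cons (nat_lit 58) (C.miq (nat_lit 277166500) (nat_lit 349380631927012016520168984)) (C.cons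 (nat_lit 56) (C.node (nat_lit 3) (nat_lit 8) (nat_lit 9) (C.cons (nat_lit 876) (C.miq (nat_lit 338823832) (nat_lit 2510943779162890079411375873)) (C.cons (nat_lit 872) (C.miq (nat_lit 340986505) (nat_lit 67709493875182685380939521)) (C.cons (nat_lit 844) (C.miq (nat_lit 338823832) (nat_lit 2510943779162890079409278721)) (C.cons (nat_lit 840) (C.miq (nat_lit 1399392884) (nat_lit 1015508037399489965095650451)) (C.cons (nat_lit 812) (C.miq (nat_lit 338823832) (nat_lit 2510943779162890079407181569)) (C.cons (nat_lit 808) (C.miq (nat_lit 340986505) (nat_lit 67709493875182685376745217)) (C.cons (nat_lit 780) (C.miq (nat_lit 338823832) (nat_lit 2510943779162890079405084417)) (C.cons (nat_lit 776) (C.node (nat_lit 1) (nat_lit 3) (nat_lit 4) (C.cons (nat_lit 282) (C.node (nat_lit 4) (nat_lit 8) (nat_lit 11) (C.cons (nat_lit 2320) (C.node (nat_lit 1) (nat_lit 3) (nat_lit 10) (C.cons (nat_lit 1038) (C.miq (nat_lit 1134985504) (nat_lit 1479731419840439351639343367))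 (C.cons (nat_lit 1034) (C.node (nat_lit 1) (nat_lit 4) (nat_lit 9) (C.cons (nat_lit 534) (C.miq (nat_lit 882344224) (nat_lit 870433839772332210629443847)) (C.cons (nat_lit 530) (C.node (nat_lit 2) (nat_lit 3) (nat_lit 9) C.nil) C.nil))) C.nil))) C.nil)) (C.cons (nat_lit 26) (C.node (nat_lit 3) (nat_lit 4) (nat_lit 8) (C.cons (nat_lit 280) (C.node (nat_lit 4) (nat_lit 5) (nat_lit 7) (C.cons (nat_lit 180) (C.node (nat_lit 4) (nat_lit 7) (nat_lit 8) (C.cons (nat_lit 400) (C.node (nat_lit 2) (nat_lit 4) (nat_lit 8) (C.cons (nat_lit 788) (C.miq (nat_lit 1385711370) (nat_lit 952658043183125942266561683)) C.nil)) C.nil)) (C.cons (nat_lit 176) (C.node (nat_lit 2) (nat_lit 4) (nat_lit 7) (C.cons (nat_lit 404) (C.node (nat_lit 2) (nat_lit 4) (nat_lit 9) (C.cons (nat_lit 534) (C.miq (nat_lit 691552519) (nat_lit 938133888655867902087988371)) C.nil)) C.nil)) C.nil))) C.nil)) C.nil))) C.nil))))))))) C.nil))) (List.cons (C.node (nat_lit 3) (nat_lit 9) (nat_lit 11)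 (C.cons (nat_lit 2696) (C.node (nat_lit 5) (nat_lit 7) (nat_lit 9) (C.cons (nat_lit 674) (C.node (nat_lit 6) (nat_lit 7) (nat_lit 9) (C.cons (nat_lit 704) (C.node (nat_lit 3) (nat_lit 5) (nat_lit 9)
  (C.cons (nat_lit 876) (C.miq (nat_lit 338823832) (nat_lit 2510943779162890079411375873)) (C.cons (nat_lit 872) (C.miq (nat_lit 428111200) (nat_lit 1102561948815570000753527009)) (C.cons (nat_lit 812) (C.miq (nat_lit 338823832) (nat_lit 2510943779162890079407181569)) (C.cons (nat_lit 808) (C.miq (nat_lit 2761230211) (nat_lit 678227030915856582473941385)) (C.cons (nat_lit 620) (C.miq (nat_lit 1231528784) (nat_lit 851105378585112879575401513)) (C.cons (nat_lit 616) (C.miq (nat_lit 1231528784) (nat_lit 851105378585112862395532329)) (C.cons (nat_lit 556) (C.miq (nat_lit 628373776) (nat_lit 212809258296118811422818827)) (C.cons (nat_lit 552) (C.node (nat_lit 1) (nat_lit 8) (nat_lit 9) (C.cons (nat_lit 834) (C.node (nat_lit 1) (nat_lit 9) (nat_lit 11) (C.cons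 (nat_lit 2566) (C.miq (nat_lit 2031631136) (nat_lit 1008251383887889257673984029)) (C.cons (nat_lit 2562) (C.node (nat_lit 3) (nat_lit 8) (nat_lit 9) (C.cons (nat_lit 780) (C.miq (nat_lit 338823832) (nat_lit 2510943779162890079405084417)) (C.cons (nat_lit 776) (C.node (nat_lit 1) (nat_lit 4) (nat_lit 9) (C.cons (nat_lit 530) (C.node (nat_lit 1) (nat_lit 2) (nat_lit 9) C.nil) C.nil)) C.nil))) C.nil))) (C.cons (nat_lit 770) (C.node (nat_lit 1) (nat_lit 9) (nat_lit 10) (C.cons (nat_lit 1542) (C.node (nat_lit 5) (nat_lit 9) (nat_lit 10) (C.cons (nat_lit 1568) (C.node (nat_lit 5) (nat_lit 6) (nat_lit 9) (C.cons (nat_lit 868) (C.miq (nat_lit 428111200) (nat_lit 1102561948815569983573657825)) (C.cons (nat_lit 608) (C.miq (nat_lit 693543280) (nat_lit 735047061051004411806024851)) C.nil))) C.nil)) (C.cons (nat_lit 1538) (C.node (nat_lit 5) (nat_lit 6) (nat_lit 9) (C.cons (nat_lit 868) (C.miq (nat_lit 428111200) (nat_lit 1102561948815569983573657825)) (C.cons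 (nat_lit 864) (C.miq (nat_lit 428111200) (nat_lit 1102561948815569966393788641)) (C.cons (nat_lit 612) (C.miq (nat_lit 706306165) (nat_lit 1859339200282329959939311841)) (C.cons (nat_lit 608) (C.node (nat_lit 2) (nat_lit 9) (nat_lit 10) (C.cons (nat_lit 1572) (C.node (nat_lit 5) (nat_lit 8) (nat_lit 9) C.nil) C.nil)) C.nil))))) C.nil))) C.nil))) C.nil))))))))) C.nil)) (C.cons (nat_lit 672) (C.node (nat_lit 1) (nat_lit 7) (nat_lit 9) (C.cons (nat_lit 706) (C.node (nat_lit 1) (nat_lit 4) (nat_lit 9) (C.cons (nat_lit 534) (C.miq (nat_lit 347509255) (nat_lit 3810547206976943755976835717)) (C.cons (nat_lit 530) (C.node (nat_lit 3) (nat_lit 6) (nat_lit 7) (C.cons (nat_lit 204) (C.miq (nat_lit 714301623) (nat_lit 1885928042042281195980982497)) (C.cons (nat_lit 200) (C.node (nat_lit 2) (nat_lit 6) (nat_lit 7) (C.cons (nat_lit 196) (C.node (nat_lit 6) (nat_lit 7) (nat_lit 8) C.nil) C.nil)) C.nil))) C.nil))) (C.cons (nat_lit 642) (C.node (nat_lit 6) (nat_lit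 7) (nat_lit 9) (C.cons (nat_lit 704) (C.node (nat_lit 2) (nat_lit 7) (nat_lit 11) (C.cons (nat_lit 2436) (C.miq (nat_lit 427295666) (nat_lit 1102545199129456185155258397)) (C.cons (nat_lit 2182) (C.node (nat_lit 7) (nat_lit 8) (nat_lit 11) C.nil) C.nil))) C.nil)) C.nil))) C.nil))) (C.cons (nat_lit 2632) (C.miq (nat_lit 342035129) (nat_lit 106395120102858653107228417)) (C.cons (nat_lit 2600) (C.miq (nat_lit 1397209504) (nat_lit 183798654762544816039595777)) (C.cons (nat_lit 2568) (C.node (nat_lit 3) (nat_lit 7) (nat_lit 11) (C.cons (nat_lit 2186) (C.node (nat_lit 7) (nat_lit 9) (nat_lit 11) (C.cons (nat_lit 2688) (C.node (nat_lit 3) (nat_lit 6) (nat_lit 11) (C.cons (nat_lit 2376) (C.miq (nat_lit 1952647864) (nat_lit 106392722026129070848741121)) (C.cons (nat_lit 2120) (C.node (nat_lit 2) (nat_lit 7) (nat_lit 11) (C.cons (nat_lit 2436) (C.node (nat_lit 6) (nat_lit 7) (nat_lit 8) (C.cons (nat_lit 450) (C.miq (nat_lit 457601800) (nat_lit 3810542485075457547730747785))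 (C.cons (nat_lit 448) (C.node (nat_lit 1) (nat_lit 7) (nat_lit 8) (C.cons (nat_lit 386) (C.node (nat_lit 2) (nat_lit 7) (nat_lit 10) C.nil) C.nil)) C.nil))) (C.cons (nat_lit 2180) (C.node (nat_lit 7) (nat_lit 8) (nat_lit 11) (C.cons (nat_lit 2432) (C.node (nat_lit 1) (nat_lit 7) (nat_lit 8) (C.cons (nat_lit 450)
  (C.miq (nat_lit 457601800) (nat_lit 3810542485075457547730747785)) (C.cons (nat_lit 418) (C.node (nat_lit 1) (nat_lit 2) (nat_lit 7) C.nil) C.nil))) C.nil)) C.nil))) C.nil))) C.nil)) (C.cons (nat_lit 2184) (C.node (nat_lit 7) (nat_lit 9) (nat_lit 11) (C.cons (nat_lit 2690) (C.node (nat_lit 6) (nat_lit 9) (nat_lit 11) (C.cons (nat_lit 2628) (C.miq (nat_lit 658935979) (nat_lit 251505048704824966632181505)) (C.cons (nat_lit 2624) (C.node (nat_lit 2) (nat_lit 7) (nat_lit 11) (C.cons (nat_lit 2436) (C.node (nat_lit 4) (nat_lit 8) (nat_lit 11) (C.cons (nat_lit 2354) (C.miq (nat_lit 675904336) (nat_lit 1102552246324152503649765601)) (C.cons (nat_lit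 2352) (C.miq (nat_lit 675904336) (nat_lit 1102552246324152495059831009)) (C.cons (nat_lit 2322) (C.miq (nat_lit 1803723792) (nat_lit 2944963459759728333647447187)) (C.cons (nat_lit 2320) (C.node (nat_lit 1) (nat_lit 4) (nat_lit 11) (C.cons (nat_lit 2098) (C.node (nat_lit 1) (nat_lit 10) (nat_lit 11) (C.cons (nat_lit 3078) (C.miq (nat_lit 1797802512) (nat_lit 2944949514021211856221701267)) (C.cons (nat_lit 3074) (C.node (nat_lit 2) (nat_lit 7) (nat_lit 10) (C.cons (nat_lit 1156) (C.node (nat_lit 2) (nat_lit 9) (nat_lit 11) (C.cons (nat_lit 2596) (C.miq (nat_lit 1500623364) (nat_lit 3252049156763130932470417437)) C.nil)) C.nil)) C.nil))) (C.cons (nat_lit 2066) (C.node (nat_lit 4) (nat_lit 5) (nat_lit 11) C.nil) C.nil))) C.nil))))) (C.cons (nat_lit 2180) (C.node (nat_lit 7) (nat_lit 8) (nat_lit 11) (C.cons (nat_lit 2432) (C.node (nat_lit 5) (nat_lit 7) (nat_lit 9) (C.cons (nat_lit 680) (C.node (nat_lit 6) (nat_lit 7) (nat_lit 9) C.nil) C.nil)) C.nil))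 C.nil))) C.nil))) (C.cons (nat_lit 2688) (C.node (nat_lit 4) (nat_lit 8) (nat_lit 10) (C.cons (nat_lit 1332) (C.miq (nat_lit 323094952) (nat_lit 2510943778980494294532755201)) (C.cons (nat_lit 1328) (C.node (nat_lit 2) (nat_lit 4) (nat_lit 8) (C.cons (nat_lit 276) (C.node (nat_lit 2) (nat_lit 4) (nat_lit 10) (C.cons (nat_lit 1044) (C.node (nat_lit 3) (nat_lit 4) (nat_lit 5) (C.cons (nat_lit 58) (C.miq (nat_lit 428093605) (nat_lit 1102541417546925992362116137)) (C.cons (nat_lit 56) (C.node (nat_lit 7) (nat_lit 8) (nat_lit 10) (C.cons (nat_lit 1412) (C.miq (nat_lit 1344948600) (nat_lit 1321380418272829806519518096)) C.nil)) C.nil))) C.nil)) C.nil)) (C.cons (nat_lit 1300) (C.miq (nat_lit 323094952) (nat_lit 2510943778980494294530658049)) (C.cons (nat_lit 1296) (C.node (nat_lit 2) (nat_lit 4) (nat_lit 8) (C.cons (nat_lit 308) (C.node (nat_lit 2) (nat_lit 4) (nat_lit 10) (C.cons (nat_lit 1044) (C.node (nat_lit 4) (nat_lit 5) (nat_lit 10) (C.cons (nat_lit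 1072) (C.node (nat_lit 3) (nat_lit 4) (nat_lit 5) (C.cons (nat_lit 58) (C.node (nat_lit 3) (nat_lit 4) (nat_lit 8) C.nil) C.nil)) C.nil)) C.nil)) (C.cons (nat_lit 276) (C.node (nat_lit 2) (nat_lit 4) (nat_lit 10) (C.cons (nat_lit 1076) (C.node (nat_lit 5) (nat_lit 9) (nat_lit 10) (C.cons (nat_lit 1570) (C.miq (nat_lit 354458179) (nat_lit 44739903414812164516283928)) (C.cons (nat_lit 1568) (C.node (nat_lit 1) (nat_lit 9) (nat_lit 10) (C.cons (nat_lit 1542) (C.node (nat_lit 2) (nat_lit 10) (nat_lit 11) (C.cons (nat_lit 3076) (C.node (nat_lit 2) (nat_lit 7) (nat_lit 10) (C.cons (nat_lit 1412) (C.miq (nat_lit 2056487440) (nat_lit 1885931528566691770384711943)) C.nil)) C.nil)) (C.cons (nat_lit 1538) (C.node (nat_lit 2) (nat_lit 9) (nat_lit 10) (C.cons (nat_lit 1540) (C.node (nat_lit 2) (nat_lit 7) (nat_lit 10) (C.cons (nat_lit 1412) (C.node (nat_lit 5) (nat_lit 7) (nat_lit 10) C.nil) C.nil)) C.nil)) C.nil))) C.nil))) (C.cons (nat_lit 1044) (C.node (nat_lit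 4) (nat_lit 5) (nat_lit 10) (C.cons (nat_lit 1072) (C.node (nat_lit 1) (nat_lit 7) (nat_lit 9) (C.cons (nat_lit 706) (C.node (nat_lit 3) (nat_lit 6) (nat_lit 7) C.nil) (C.cons (nat_lit 674) (C.node (nat_lit 3) (nat_lit 5) (nat_lit 7) C.nil) C.nil))) C.nil)) C.nil))) C.nil))) C.nil))))) C.nil))) C.nil))) C.nil))))) (List.cons (C.node (nat_lit 3) (nat_lit 6) (nat_lit 11) (C.cons (nat_lit 2376)
  (C.miq (nat_lit 1952647864) (nat_lit 106392722026129070848741121)) (C.cons (nat_lit 2120) (C.node (nat_lit 2) (nat_lit 7) (nat_lit 11) (C.cons (nat_lit 2436) (C.node (nat_lit 2) (nat_lit 4) (nat_lit 7) (C.cons (nat_lit 180) (C.node (nat_lit 2) (nat_lit 7) (nat_lit 10) (C.cons (nat_lit 1156) (C.node (nat_lit 4) (nat_lit 7) (nat_lit 8) (C.cons (nat_lit 400) (C.node (nat_lit 5) (nat_lit 7) (nat_lit 8) (C.cons (nat_lit 930) (C.miq (nat_lit 655603856) (nat_lit 2642750156250697508267429633)) (C.cons (nat_lit 416) (C.miq (nat_lit 2557807396) (nat_lit 502923490664266935833987101))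 C.nil))) C.nil)) C.nil)) (C.cons (nat_lit 148) (C.node (nat_lit 2) (nat_lit 7) (nat_lit 10) (C.cons (nat_lit 1188) (C.node (nat_lit 7) (nat_lit 8) (nat_lit 10) (C.cons (nat_lit 1408) (C.node (nat_lit 1) (nat_lit 2) (nat_lit 7) (C.cons (nat_lit 134) (C.node (nat_lit 2) (nat_lit 3) (nat_lit 7) C.nil) C.nil)) C.nil)) (C.cons (nat_lit 1156) (C.node (nat_lit 3) (nat_lit 5) (nat_lit 11) (C.cons (nat_lit 2344) (C.node (nat_lit 3) (nat_lit 4) (nat_lit 8) (C.cons (nat_lit 282) (C.miq (nat_lit 1798833940) (nat_lit 2833728338369245636510483603)) (C.cons (nat_lit 280) (C.node (nat_lit 4) (nat_lit 5) (nat_lit 11) (C.cons (nat_lit 2098) (C.miq (nat_lit 1476703089) (nat_lit 407446703138975707923941514)) (C.cons (nat_lit 2096) (C.node (nat_lit 1) (nat_lit 4) (nat_lit 11) (C.cons (nat_lit 2322) (C.miq (nat_lit 1803723792) (nat_lit 2944963459759728333647447187)) (C.cons (nat_lit 2066) (C.node (nat_lit 4) (nat_lit 8) (nat_lit 11) (C.cons (nat_lit 2320) (C.node (nat_lit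 1) (nat_lit 3) (nat_lit 4) C.nil) C.nil)) C.nil))) C.nil))) C.nil))) (C.cons (nat_lit 2088) (C.node (nat_lit 3) (nat_lit 8) (nat_lit 11) (C.cons (nat_lit 2312) (C.node (nat_lit 4) (nat_lit 5) (nat_lit 7) (C.cons (nat_lit 432) (C.node (nat_lit 4) (nat_lit 8) (nat_lit 11) (C.cons (nat_lit 2322) (C.miq (nat_lit 1803723792) (nat_lit 2944963459759728333647447187)) C.nil)) (C.cons (nat_lit 176) (C.node (nat_lit 4) (nat_lit 7) (nat_lit 8) C.nil) C.nil))) C.nil)) C.nil))) C.nil))) C.nil))) (C.cons (nat_lit 2180) (C.node (nat_lit 7) (nat_lit 8) (nat_lit 11) (C.cons (nat_lit 2432) (C.node (nat_lit 3) (nat_lit 5) (nat_lit 11) (C.cons (nat_lit 2344) (C.node (nat_lit 3) (nat_lit 4) (nat_lit 8) (C.cons (nat_lit 282) (C.miq (nat_lit 1798833940) (nat_lit 2833728338369245636510483603)) (C.cons (nat_lit 280) (C.node (nat_lit 4) (nat_lit 5) (nat_lit 11) (C.cons (nat_lit 2098) (C.miq (nat_lit 1476703089) (nat_lit 407446703138975707923941514)) (C.cons (nat_lit 2096) (C.node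 (nat_lit 5) (nat_lit 7) (nat_lit 10) (C.cons (nat_lit 1440) (C.miq (nat_lit 1464044043) (nat_lit 183799964154861405750497025)) (C.cons (nat_lit 1188) (C.node (nat_lit 7) (nat_lit 8) (nat_lit 10) C.nil) C.nil))) C.nil))) C.nil))) (C.cons (nat_lit 2088) (C.node (nat_lit 3) (nat_lit 8) (nat_lit 11) (C.cons (nat_lit 2312) (C.node (nat_lit 1) (nat_lit 2) (nat_lit 7) (C.cons (nat_lit 198) (C.node (nat_lit 2) (nat_lit 3) (nat_lit 7) C.nil) (C.cons (nat_lit 166) (C.node (nat_lit 2) (nat_lit 3) (nat_lit 7) C.nil) C.nil))) C.nil)) C.nil))) C.nil)) C.nil))) C.nil))) List.nil)))))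

theorem ok12_267 : okL par12 (nat_lit 272) c12_267 (nat_lit 267) = true := by decide +kernel


end Pool.Agent.MP_1f1ca1_co

end
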