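import Pool.Agent.Mg.F1f1ca1.G140a50

section

set_option autoImplicit false
set_option maxRecDepth 1000000
set_option maxHeartbeats 0

namespace Pool.Agent.MP_1f1ca1_co

def tb12_3 : Nat := nat_lit 819153468951337218213523933955707132076895282337996429604466517316426542295726548363009100949897308868870556894595854036227302694771467897131878138357587147316183203115286500819558401107033758604839717057622573521017259590985508542977312929207991855183060265326065259650770205468279574045073825010256736086995210097082539780965524674245081433927063702851398823093963861884600850799401318986494003124277240047770106831329608985199163780019953501774876098862578307871286769969049728579913667671709218626182873236880462639608189832461632864093099005121521199491684361386280538198108474127761022565682242721519001966278640269417735224200180269148691369061678796220199177358148364821533282626149524436499438743288064698081770125126743683678768882585179248549005692004790325800261686385836385765094884856106348030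3579704964405660755526107332875461966914577081344405875389194733129527720091228483752099890355617288546310927704670116390053744647398585150005778529451627317613107313794447642219250324060296665237593567818260636374654889819168928008766681047441592982487082769990646409655797580334502728743822440560503241761172761594938447591339596916713244232961120013741454699036904527660601890902676004282993385664112192593317107948820968489256500288306770849479094992023644325944272181775106599026977615421494502348811168685531194555578453781387736677538929669612081115759382841443491445770697190136328136762958579077918600967416615257660394404950401423493682652446468112132512221151825903472914174590459951682414676060019374662210663052328241159592370988139167929043588141468727944140831903522166338744102847782165988068493946611894110819086831655044819239800723527742078569965276151162937855976637181766633381773445160349809951203794640762808661555591868593062275667601562585685770285739893413594874913513979236091174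3310769708785905283829757615931251852781861553196910063745154114543605991789629008985479424345963810013203387352296239817501747722105471324874424574051630461133037100403054655928907970138869351079402067689787521777449484529080080181859545785390656816554743234075460004250595040302211228126565895282597601889534357585066875034344671149029100901194363005919279794415923216222304585301561056713299067215529925328089425451653902823086417137257110807253966516418808456607555793190787601697713146065610445950577298269207100228656778730624884295494450779384712857013804780589242207506219665187797456462313541631207852595946061348403492045181359541391622589318017924764281236978418137176800646898034558067924815733881657618470118668798780764760907636642380000809512870783817323187903310693694317903892446304131677609523604475933738398817452484769816482130289830808276890637454862189605753264991571109821706871884265794886975700123501264186606067879446781478783572192834051240563135500983870056451993869758785932098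6422390691309023879108108664406644125095280606196606306169782568578754261326160595625898568676903992987150518015870474028362976520546857091983189880419815391174895147628788074392475310844680037550264114350849331872163334634804078379835653245055468030585303446849759136229937840363262014151047055088706915078748338586759481924027766564852697694074175674059937928955997222322337130214545629878978405183752791424489023412233334797451391778120524874411730556393395059308770143156409074649953116545956200394204274163345384546615603941165396950764454845525016548987613788122812323394128662536046673375804132524597715508082325118492901438054836971543331462507813436121716621252158468082794394688125747045941937946066163874111650105299453115262037825424656972430284701500410419971827944208822203258523943964612840086913724205381658647108018554058487097063086853255952991036139107202735889343937957931940595300010579816195502843240247349008856903942502111124324058201186588280844628643149805110835127877608692875747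7897224151023954781975542238978795671886057244835309891216388283402170089933155994470173487479850341888382553432470330051079341799765489971425130545320963136018880000370089430667437574377763986156732644518182079677772718553711642037216475575290116047131922868991309917726728823708029273404151279880112227785361611336303353022474236394377176826216732120061503135061763777816982541675724654870771060269585850583559463130190549494259862573982519547480217623030777120451520085521879047283345823762060873630397958574159884334697778200278557672721135875662691010482429569854074520851886873228026858339466197147550234365140481551174473399294376887741454790564946689645379339061473553294122627615599262434090193684871740479779852027762325577803901987482307263050246165669076212811887349476755177222734953119178531689901397559402826878806089284908089676242330122147684617345046814848860684768668104739441565694239436994968311212365554922289151144305285905225845890959956803589701601657765218059598044483193946044145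8827424541080888731172010904385140673455419465218499280923307466886167147890456149652600894884190143684163227324878918821554497267152878310262276794107645504829032285129480979980003260042294886048661031358212017489351283296757268725192686569897406408297193597064717900125731330568124649130442069747993361041198734798674700106504058872618923080177769634320167694575484722786751499570002832083100578635414274693896394690604661334206518896054602872033613821178583779720736189897947038003240183001801444437787100887848021789535596705951873062380720940876837638646383585429238767773924264938812459123871876648313646989867369807784495200381568516006525330543958787304342928981773720002121297952450094334083420478186993765127133791236432314205364769117549257434531388583775232247447608855596529995021616307347851799233246064001778002105533383765025703622175503350633327515520035305294623222558354012951486797957139843924857285718528212417519068877993521201378915703104084727761832689011906602233402221218986799373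4923660422759320800710599712511452670847407213660576374993000898169775616379544715331446256876889586468587550992344418621074190533525140696599135194164708255437825150325430659463768690837458072960515387310761191535551935584437128105501631747481402009026949302335123700994355246461515641298418826205096039207879053669864704815478743828018782004974751238419875461809729187343599154554229733983295047282646969633630131279466853945542459499121524328608055737471972467310494961601139683311830858097403156958672421538876911081340185542420039432786632502555106024088085235965824453686598946056430298083329330057878061294669801386040226724250218264702995972384532099443740747531575285639205636751691585536928520082872752480395101633213799214822740495113091820218777351604062982643154698547106350442664899155395028188833175452431618690115218855981059452079741985462891776546446421839928234220851129057563339006189099628471526837620606220031792406981349169285248302126575768145904172918002284114067473495764455596051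7528982963953813816033000330558248236423179497595358809981200076559209386259906019966355225713685347726725461599193047244062487937850935471243428500128824853132270923678533996194278159810609147936409233758587595168736841360138833669398672103660181577927537483756152380334388134150602970840421800621149225865208553478322300614466529692639147943206828988057849833806697559866217990030659887846724257589429640918936737712326035109978983481217191166646589984233971069538506212201486833619211424190355477653790658472291365863602873538760454083076565119243693442013656592284285385004745318133723352019765513564807589057342245436742678462680140666164403674215316575837026140297506761411641162625224245501401873023599657449347799110278173176085656887649130109967502552343484013932895009236626998038214045294156186651763129101066515851593273394184225430155137190996587711791101913686978327383843071439831953808468856252433981691152888429643571131061862560215406087626618612231363080251323952238163462145772120810039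1859383390621099494040999825982912809537205449538898879273320849401013752774462196315166365801864235052152175970203732657930716639711591943985106757031433655674907671810390010178913377924490461711934327291286648233840391984576915355202268424461101922498384918179837083785383193883057291337941104529864804953178715849603042838002022700746956315533594190139462082330020252507794346936995283683504197685227128581205782693845367501904311744681333761989357142840247030738277879897144020550016878151711638320834458769545423097955699748778535974845410807481476517252971449744056535961636862218228092228763435339138857944364397527605442984281937785953612144732080421493616791545232439735304871936935737651206604505298742276149407521854742201955202595413178999650109352692129429679111182996937802565835603315867807443005813361566010326314871539701657180037485756827738373734121641726073570882776579825220032892088837342900867131676735517709553218509132279012402328889378307379139588043374697164295528939437336008595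8709873547938293452862499315574439679206505273671784553149515469297940809757396033754484800309666912017888766965436423102676096907368828643938153623862758812273523561743105928085606668144707546428526242253253860772350601868498544050009216805216448963415660028601141754349313068824559031714457594228216394198424603877270822009888286865933538021001215900536699601220190897822492538435532235612171495173177520241254132742333603266081633925998263237552230587411781911041358565890579563372159954221069221405483179843415177302609916159054272557041194750653094628863678438761035611341367079439844262648670555217970649739597620766993964989623005580535800000758511180772839902026173560587154668789101402190854227521675392512039698973174216546053964869552803268102257137117549562815885806635405175293320924136824709848228809777920862840570384072609503501043618299197469575794940891763223845844578479533081278929866017475288923431333580271070163571012882418112285572042401580643550336509921498317014075274076985807609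6448378218725827283616961953862915396590041610464712719736697297600436087008393657650702157099949780716120447357482737674160834661676040191180157991247895221134977659066614433959599754099259392529911225150968098037250306126214079606938090431191198427961094941873715832407841221281269182055829324252879502300745560140465865007348793165562336144046939333250378172453721867293747558690088333052028097345599190405076716282990851721699434778280158780576137403070584709497574841700684811642337130640864145105431926255037662983795431267111694965255334881504202856788306878383123947956810226085172790964084403031646056959414044068442971289724467830360857554069530352788360537672785640056193988214983915645164040758147123361156732154317382602644152326009435872690154905131471197983016351389267930431158531699371062975684378252187412226779801039720598486680736670604936538020219279117021435228630034705048918404010118160434355394747652075447477687947617764437630074237258378625166884133913597988619734982339413083664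2067357385442235692883809386319781204044297803530125651109941010506259693033274938755403481522575858026660746551839909104040435170564127156004389491402670450238158046712100937373331000023082368991200504282962072473875548855763966635298175033912156595920939324341691298896354722973826664679604093767240163570726896983799580829309714953680490834417782561551923111124371463126412239928670194485513293485086504899725549829521092593202225079358470134231837046966058208103576880343214374738182969416194185964122041113394705626060506749965237511638911876123251560226237937587404790725633501865629236703308027944738150058664237702028153186367502387739512962546438195326371962562866035655505249491744771858824722573654683267204654124235454768671275245153350034604575255992823259770369682735770186311486379416336206565417481981021030636398330489011551601390266410341122710185273562709992954960526891993237575539006157493182332034246039709029078956386774147673139525782038794019972467106539186294429463595392652342892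2871204792279196770180115823411120825235491257984888805816341495507664898579457162749223050812076659940569522667519919550433599970689547781717847698082946055138789796856744939840528220393302091840532492244403649517229741568766553653638155260193318730394888469855034413818170826940071441695537901344034918330405382107778335095804456307754494208270090363268522137846828254945690104662903679164190731186211790170467871148687038300539597287053553558449870297762203826142198483326739449240056738877166844043343302545841087768406253344634092471788290053038249955634068163252094949478811079803506800717683337314083287601615465992596851982712999086905352904379215006223101571693825705220725779628120754033090830318586963242084374254856185452943803861768704803212370810267594296333339534653967626155993543969506308664356394431166294268062236239804704920904179073956997136483049507496844922638447611815376405581045354691863810959439979466423241649551410700037420112973951423984083349825197407573742177503022057951216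4167518053605062732727554587455658516911249621312909617992657218529092202665990689582663246406639800368684058212375087379294614235211427349473655719072962580735205551495788447819220401380250150308568302578388838174159020704180761750643231615384993610913002490731426590009711413283361309759492574768739615239143754010823796836032078453080250525769307222865058576823317873127323903990956737376448628789664328364177744278376988287858893852763051308533886069679214165516865849961121674388699779215797787607955614841961266401939821302703026677065604481556179508538841043897911656158598724933339296039763835356977071378065221432230184327422410490797885035530154018225277127518194282697059696481922116546511052734708015156617325611296718300144810864200612862807887852810146340551627927499700979849199841456590643399198161383429745367287230429533399156021386495088587362402830775143499035024951421426405283149556784493327455079544656219352041650321484864839926947692443480458477599453541804197928778260768438620786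8040364250793228320490151127149486720295869566793579682891100744287163858784761253515169631292285367657054714796215991419246587542544304555920676516693748850617960245908266180871528047782549068989441130574632470695659936020791277466242906725314744800359836885755402917101867931929614112124250667711662414694049407405793668064550414812126486209285628504286342298600234607087668401758218695697500578029023847673065314697204455798216716847170254291274346760270708660665858461645331240226980194875307500657089164524233688570431107852467234818659922522501016736538657239872647505776137512903194497253028808729897460439609174102337859742390378105753220702817688013968792930448766149004688861917227445982338702736613485434196187777789758849732912152422954692166940045912094125759495953728014142191642613376636636644108070149718710846508119057589785978799002234079201903238822685694629715116169876539351913848818772411456067207312104943901061558965650519830057055677671100718661639218094986441092465121210762014648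2422177435140049919089224332017975535208845113346540558629150569537783941866866904210150073058816543866475582007643599965583519535884618266085791750957498525233208949226840259255753039102155486789091891236583220731221857128274495664887031557323966973596702383280403491264723163529970405048519001090277405307633594275366566203501938930253193813198780437981811038010303066684397850970538645865153664562787213884263805181104384349340968860298890274352265886445238110052307671418230958327399359646409543389751795458498221078911567252682855456386265913218898212447879125002967406999797258959283455707985990304694088613644277679622193340234117728494242707618882361646581939955658591220692689747172467868220710459454976979540380819491274048037574887247833437923247662937923363463677259482113424009934980543221075243110726927739292668246843876719148793383938962958837254443360464376056894726811151836163682873555707339178021711275300469455886199579842014065337473979134765649268809324084963443842430743690353590043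9263644448964532930643656904458868532191213601751462073859496315483782693383045581619244291053804915559603619881142123650641214987110213391838262077299326414464827166883916334586211498009269320150473650197888229074572659099182998499027375534191211872874656790207747579738885656463341245315858055795962833520508646254002187058507201699692772151468906394493143297701881974564778865817905267574677110802121583297376461238213126365918226113135442849358640652295366747300762808461304286905371309158721826512414556992434106370841915700074387511353058953295219493860945646629921193699963095379220195972289375366589093547456834124002503122301746788193104362279667030743454265217432210236490453714861649954081795759085979227510156191230395855696009129978046224930660081780469207681741176369109196144763927918239107207967965032990679999131648187723703421887547949757583623609085687232780254612787586829835276861735312901180761283939974353214093442110297960107329143847063988751712667044576262607693793560883771734709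3126428216137513481568105820523413184467798252020864226909699695262600482319785379232915215818703891645155209671985414505975627232988199361243474397192009059028003013636172234547583996187686807290792499750344470533929811754248479702561037491432583847841629298194322975952313477940805170117811684364395587938787897095282254902018785412590756809462577796044613852438144467848711679445581196997028121593671844022122212865559954002494715213572837817509636545803003931218142324696773679647866501153301078670970073168949473635621671998051553952419449705320916563194837778585357238895362783075036540611086136066134727744450125399526762520595344981686342443120028302089644638181956605445319703426029350252145731683990598612581534059589748744703402689241694249452898853384740898816388768346307466459891827940302261810370772642453433633874076114504734393187571540999559321574055399705264819464547020082795954964014621641571071622724351649328622933893511958706049862245564387758301968587278375634147586665400976727855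9143577689515873919829015414026351746140716332493609126803069322928296447302378155908085945454827926752010497554336527943171843946069413765993238287863749122702574758327980520478394176267322182444054417677254255167426599712510892791043711815397773247934244664787143695553648651265795280447613461858901349686444108937123565993175039376273370518795316483747669198650179543246232130079936014502130952916840034813690319021280455230534159878192198790497976435337841267967287776586540594829986020694581566855899272421948708659351535995052163182249370261113424976436277414220189183419657519227450130075653467732003438404180958874004895217681567470115254064077771629116554102528524251568137698920193547076542877721987940605474174459634651209179457155231724665673819143923003623346488606824870262711237356293617368594386435668322149461831380773528526263141326715928068422379573262268593260977062750330241587931978316937651877487921451112564377382040635086648494249593659455701947511831331070238699060246193877452846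0951837554330702924967700259047651486883772112138227964211153886239183480144060775953350488913433298325954078580358427985673448273603597561756632549217396111034360455824656817103443371562867087592679085285289986292253095999684921893498234947068493503310311004539240295055770752636067072393644612198625282801448491814217388592693657552636193409960538709252794924577775969446405741388420102862870802900322342773868465461052859695314479472784952170244828945130218383525055496072185409446115862773696724427721934656758983747434274496936485953561337057295693102063213985920300048626018204681064491405106504261047461910557588814959457827651940911037179943094148631924750339446930594428555716342455970123490217309971041841821006373130602522887684149781320540855313762797367644257821486349221989557769270342920190348371592827428779380823705544025398227014996002546563101729539751439670609382174844692430237441175087923968987333227665395284304043744607535063318181259468780831732235512147247979880940616966459922227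2618478592538172926722042106997852618521033104933673742965118809713000179315090333909284268931645994022916342852329472859050803304923327156136787201891410008296482259966116921429797705414408995355213479875839989742224030100723046023493080616239007044731875040900158877827021472522601000820596721980551594510023457188754932870397436180312319148689734001963788878329543690306944432495124654897988737371433938805836485542557144397149552176629406498401028103273914686052381260018223655477933700122944988660227997645329777165033416161781453667685144159765284262518350440468300277698717931525143402994759279087504155849745858244213009837479362719023834403376238148089912107420797365616364387339933588801606154692930459086083218958457242133668544548275217732721108333816076605666145909451979394402800377705587178594751580341600914863472858291694392558807510336855390058506175012716529955513003802163080951367265520403426624471610153133294155904281812687155958406432105418085044460877472506614315710274500174804706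0690876583572818070518552178441161875084229934348124214667507605260313677915612383854875790810868582371657602799259896939117251657502204740675638821072987238062196227768353154211939004889647560458155153937503642679016771515293326772676329825155342436251229909418707067085363656582942831591988552916211623170892721930767621245351650439137033376152800547517330902226146727257062837178548375729404978651125452850754157306612456305183875525725880851706426793945794016104339419907667631272539363080368311982581646555648517743801019105956064736550543499368149229539741407285692043435793915085481259898260854152210291976870807942625003311544280946793187772698293960708126973267161195073917056336257900560968255799681955398880388154274630343555567361550228016785819336452904822045438800446514550284513112987561312243594089821907186771542815278733245087709436628230627708487453061067761401726769768505257430598298631534366487532532587463239940042761633770264220055686860376935752239426166800949408235296311800108733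4384314405243550221903783705279210071132013281763494760407006903593655660812727171844338842878790015547907770085071901129047973159836253033370068174099981342040746924982583172748508235589419170314334227566739871589058800650986210477204508684984471302715254150593963469456320033749058244969988891561842121465715905818154651015249131083066826500666574084340637057275849100537322113416111997103433370069926892138375267406885373838745987291484935795880963022596166125910382144500865666708142062812418459188127798885175608052936111536856159716798336602964868915914622217496574985646082422256520401462778259803713098554941413934630925982648260193207315806315701129252277625515921313289587905819617512107181177482075884528857532589303232527089311796951898288251638760631901088821870812625472719221949591002598272702026960369732858049902405887955975417132029561418770096096001987648130048147386411816348475601619680180440597599764756017663849124486471959162365830774492523662994205188117205680589646376442777096588875993635253018852279479967952358187594332183324706546557553855319105134222297922352605134194660278173048529521804503692115960158323295776703160195385090882183321701654287794258489795534384482918965614145500077275561213539671522278332653076735931973422031937744906986156283661795589164999500273082748424823580198239092336968117155255774714055972236839153706804928307045647326895555051450350346502128331489028035797686157961218147074610937958900312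

def tb12_4 : Nat := nat_lit 8191534689513372182135239339557071320768952823379964296044665173164265422957265483630091009498973088688705568945958540362273026947714678971318781383575871473161832031152865008195584011070337586048397170576225735210172595909855085429773129292079918551830602653260652596507702054682795740450738250102567360869952100970825397809655246742450814339270637028513988230939638618846008507994013189864940031242772400477701068313296089851991637800199535017748760988625783078712867699690497285799136676717092186261828732368804626396081898324616328640930990051215211994916843613862805381981084741277610225656822427215190019662786402694177352242001802691486913690616787962201991773581483648215332826261495244364994387432880646980817701251267436836787688825851792485490056920047903258002616863858363857650948848561063480303579704964405660755526107332875461966914577081344405875389194733129527720091228483752099890355617288546310927704670116390053744647398585150005778529451627317613107313794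4476422192503240602966652375935678182606363746548898191689280087666810474415929824870827699906464096557975803345027287438224405605032417611727615949384475913395969167132442329611200137414546990369045276606018909026760042829933856641121925933171079488209684892565002883067708494790949920236443259442721817751065990269776154214945023488111686855311945555784537813877366775389296696120811157593828414434914457706971901363281367629585790779186009674166152576603944049504014234936826524464681121325122211518259034729141745904599516824146760600193746622106630523282411595923709881391679290435881414687279441408319035221663387441028477821659880684939466118941108190868316550448192398007235277420785699652761511629378559766371817666333817734451603498099512037946407628086615555918685930622756676015625856857702857398934135948749135139792360911743310769708785905283829757615931251852781861553196910063745154114543605991789629008985479424345963810013203387352296239817501747722105471324874424574051630461133037100403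0546559289079701388693510794020676897875217774494845290800801818595457853906568165547432340754600042505950403022112281265658952825976018895343575850668750343446711490291009011943630059192797944159232162223045191924930737526285319030636531840078545000077577245017869172535405122492636507493771288271105964983360270636841717949996337563884437435835138841435069261130610190023670679962340778687832267449302793799465401194066859063349659960094788837086387129425449844894567782187809750108730163842831170405194097954715102809209974744155252330866728701989720352514937003611518782258239883864461384359589183612777049936803469735449058385372793290985917887284895826018491658731520316278918173485143703553476409197207144611311988539426097995881233363730763749727971032977872380739548576272082785013247909757626213168402868214163328466600489347655198467560910619162401573253819511046153535103903735677754911502573730713093002831204131942460766186502468248918054210591607790949666035682284087306456883443201303326494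2181228810451177166404651042713676614746700386444938757543201017849350357908751600051372521108960854440458777378005298336253035958363252393179372734657833800929488356191146454385729543344826388087558838880389431909944640840838853889167898331125679850400762906280726155573295824684228438140574761316362125620394133213748065112379673939812664192137807798551820824763141250633761732299153462383813491761236509899980946647238254258351908896827151833317732817177352237596225128925621462670035625171569936497518809228564931850164141520939384041585022340891801484082374237237998966429856561214805712764523280443087377566104319198734126236079327862528137718610532705815595137361568217203933987645381072198215669584136015188039970136665033864531646605195681947548593620490731458942348616901342976346878514696004668700968555958916654780122389598092109088758567279394135474848701264530459986436615646503507868121332687809086543017560704734158165220812415607986630964914383748574378223106207211357163005054401433000271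5658605927050605137091037905791820997526032701076436740528373704466509679071788346398917851069893226205840832602211599286038345513568317783425798844636597296630479501091314147253048911123062878232703826629114225946817907388024922839703204749779339241472145760422847198808503628879288609770865143265791354945885872633560560600459565515424159040649530911192473319857112095986031785291362100491784085400123149522076767391052826990535281051133492348099038430460511870460257340389713793806171833370668143841816087142868669373749893422975705419964318754665015335228893635442119598989031789061262460786388200269603328357222697005268399814080595710042533614821338001445211860841245076478937619892876463704717949179681895042371522867335160715531992164966878515321113489456895865352302115955492382549162645239080806066777983750043026181974710764541989443579939163550388733857493053266680421729993011391369742361594094444125197848703191371174523296004723425360062559688991469026576424396997671484303465712418373009696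7203090901461197355810733973857786395441586532565575261192951579847087754430033904231957209866728841864307954603665226368202350879370548261479812299607915874236363174294568141341325819790207421628800675966050136101360103812470156287472107948003605947747446659127229434250713164629710693087707914720169673002113659392430507605746761581925823390127944292278240896708627232717452223753370390635220328516772225871764985886950764695738147572780925545795572352359774100285541921530515601271626563015414888870217801154426998683674702918055145300290824330208984382795908503813768927951586131605457851195160595686767764632068417529884672718653228489937023819616623753506075143452545298673085117306673703479117324992469059459532426530415743238875083850466954598970304324290958156677133524351237524377480896221085506627089769714516924905417479764682765327797296183900746806246636203325549751710258302639722830638568917343044554154789390884046346464901670135684305482374614552522228030160856281597774143055008232760302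5293419940056527817348388889794346818913137605386854907899374849644880848800561122339080144612453562209564220601574060108828636179715438722095984472851274232288331105906069946433981901350653291501727876858923345672828866303204182257725187010371356809517721784877342985039634336617410910903485974742795614420251744913174175957407712213275386026855366414728791510332022887174475910974348797765888708833794574902190619410570159827595600295345048476683321204024300582935658380951998432745254749748027393214225482883738367792302195409903705379221894994989546857946639764894950838241390062763148744534651189446250590101000124717277374244749644577760337561912205321526166739449809719355189894183332689846686919408854930417401924258061811633560820163391255495796324575139308175612255035813410017585069337985351334125531815137712849569159631935526598999705844652721592939086921010604915720135835098707057107221456510737864922148476201327472245096178064739777341525375015531507834566945678565404765997707617509292714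7632348283400041590278316701098377109549013230312990056655015513080827969136816577635325039882578552633242988093099404785281450293526418826748062081029981754529692527364122789114775455448666449042590804656950389860061148586139090629842020135315357140610435857832578209220251665684133772891953733612568595572967035083346400103092640663766065023279482067571636108554109769793276485026314683732140671328857677542854240775363746193597192017379056230675197221180853981197043075112214075464994749012608357169021280906006721377611364252035931279193672078073301771981409635327147411892774249397396005932443617016806131641859499946538765380361145967708008583695795689211015398505838375555456317317676821831459391868069778724624683098256871175453533005439852884625713857923336033358730104638481630913708516076958769063995203050789213143270293539422786409554184192449866196455692486966243079238601184079807413952847359429498775865239588687371872717601902645014921315907221482601996771724341406194495554779858662261387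9521130856699185576300445724775047883432362533552673131359201852018284097062989212382099445658600885326334341642537388650196927566205497387089976389281878544153099656456436519938601196938532743021708119024987532204657015112911043854282211829381793149298523173481452873677456006215842302197721254348497431661111146816801566399092005299546678892399421978554846314265566402767404844355788072965399183595834273645263637527185462223687475126403660760441936825184407750979848046753126596257789740720300458494041873252394554700250004589131921615168612909282044488244908076451056014621650156540983935389762055316327674201451565188271419908987895289754001813079233231244741111240812572612541775095452033166232283860090742622734604071173303562770469407302493362194182115639868226822777920016155269319469901517596916052903732414381705283838051047055740317379553312124141559666410547230318966827894299434878707503181916283892879800779088368595570571784903598834215637512049101397847604114325514857439792374030773925149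4932026937720544065142765488412547575912652546826761212694482857358031847397878449244810141239484468362099376805920319659708814826343521339878563411943017649589692431962661736538714289015606274820728551163078864947490282759686709719945416316969659331802393153904000019036736571895777412252673868444722351211095643215526659968387233278023841157175284792299588285010306461938429381429959539354200968961224890675671929169474339291147491055828035596954041039541415118920132641041208377222150747996970172577289831478389821163550328937408028552725393903676460837831952433864929792517238886794019325501816550078979720098000954580210068792666211856447082007319444547392405347778079079472354371945845901552809666810830341318992833099011437627467238313032205851085309009106629335810119713543891709249382782362416213495789653314915943398935209496867673323689878921986620025960612753759940465250792526728625581747728494127877883969472499238359635259182624706128971837330481547799348215821522909169725240953171203444298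4893557491750343440434898054375599892240602441489828947382543151316347968792628381881327651110615831011687007731572799645345483984498820613038355663626351324906187902220778965462476562464363559097971931983991542511965797668858024642099370959650227432864367054045844776344869984297507844964379090431085527532002114638896389182300503592250398027905328338722181915999106096391488005276808779827695694616816966828695370508031398000092013736619770566717893071667100808081731489432657597273560529333487103433317662531175041213943386791159217603930726785381437211915935183452907644364699404131465680569598464399437330165794619171248421211357496714467358212967306930205655525518775333126586418885375869487012950393973537638431135773719315058961638621341609720690030580545939665230321385767323204826416738068560638876341354782099109208486390426807511195916956041970093042277156514468732533158128392294470968814345776460411901960960808131514188238978881295594984297829766637957378814181992731724965121850401613141679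2297853948979157402454548002199040989414706569400924623579162925043176350933411156793718248620754437501677406259445621033840877162515357315156548908071612180307810492798067940310214841886927183420229604106249014790637187296358844613830285151582094840096319604158666653047184026443181322697581125693006196696398790540832960343047720450532261002981456465750696721164360382030532778728073346927539978283260743889409138266527860276965148322710962328608916296981645430085325503745425724304456554429311827793168530840873498036673864125879282619658032328451671047503431141919780073786584896999574308432061797712325707044808394944739009800879426299918645594515006470738586080039716669232525053347211788617766234904201934855841251776891728214550640177646851618532100428700294237749402482518935854569571599095462839561655446517158818803233930619056552428111706713523748280226376326186301406381913085482199274929207585020241778284307140963818653471636679278101283279323920495915306954029106261829723458168697996002310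6261192379181334631707952622225484318170417394868978572231926870398439802667477171583096922690640378917809276991322622934808723545031299993746479517437949337901331286226287171832485159370692391788412852548046591065050309336074802224699762638884245817221407603876901082856603967276045270113106805014293301840531471597195514492911000040211025162949084026973582198079369302446217660784986367307746510815282381791404371027936362044065023832050250128798110960784334868998054651995435344998499484858888307608664740485139667633221765021816976198666195765605439086041443813996030187815889892713832879763317177724746910699237702984762130903883816158301765235426380340539068881859669821014266307059862069382253999529981698634379418302980832008569767267661653915129552216021209201944924194389005421059773626988421943309112394771885094675250539688631145288895006649399430343783094307258745107221981419710874053774442898946948043447505176889998816611397978278824181123426427144746191485436016677109544067535091565581856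7307433819802088090629884501067617063810331682686897508117834790561960101912151424652777697537315026101684358566579225288462978163327539233954163648952291446214217560923575543360880734280461038152721608504305068860956011071375773410185238833025600278729549349315316026644736669426967726184971614957608654708790155302206932776613109885645263334454678079544152882907025013108245309137973329544178829912398339921779478182401148959020820285113386899208196273435186375226220597788545519341576342439831378527043540883018649609583640867745248408895810554244576661660694591936589607291433977453129244705593624332543171537691247300989411762670146601010745431836548053328667837882824296580896654658374543998733381499282092653280622669061319649944302489209896714962518958698850086025528880266800743496701135345061560546193680432922016026382312263026074888042937542591028070668470431497660625351396079364863318482439530288462834921314084648849120136730894350619734482758021971278176369002927902596058232897589134463049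7499600733092729397408997949558498682656130434292014526956571105688206913073698710659967546220511444316428708131033142986914361263864837828988205954768573669317471783578351245815201801405828189912991554011701424796287625649627893062937229442909054257497013363804851286360443852115005067678931255215483464827170631808518495861002359952186502807529985567728247521717998963262744773061614879407846545447415730492652661543887954185882871718528684074900562411629833424196462002872551495498424469456391157328310108657131460072199438720790819600444728395273244137804132411115334334449592752417803877328672471941729095440075682758646292130704029791802149412231552077219271904677995159488651497969527070589170208572508073224530651381847953753665684011255104651351013276538457942464250238250377251757608972781413571029457360022977254457070870604986672502512513362732490781443867581697346196520899626172822280740080496495087406239576257687087929281210647075550808458683015641464373242832775446519452732823992229693623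9220382699192667961058033413900015780968313128001653958739046602333905576679473856542182780181179072599524283072868222119477049721548990877711068331685099374128508755306406692698454937893988241290443085546405068547331986584640400083650732255971811985057780911458291977147292602651079121667801076845686121336802116633663596769331386544934061109223679225964193740156716873663890031927358277402604676068601918028486020532171796994914334768241987912426513802541640144010583671731371578100211795033319333599172062703226983249678127614920287640350771313733220725543338479142711197946871834731505288778262694401966516416152131816274813241709328183935227171167616707599859375855591988501335635237512261442640552360005383230579723018940596180720225120958596256649754119286387074419307458177750905890654568286466459882511502680963685222115772076096641530181760127465330681045111276114136515477368241929720124672817592077424513701585197247865089150706666020441287109968015431394759997544542475946177431443315321654144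3716184220599681821204312890082441961310726667142826361038950436291230810304429722496342480786599875787750485837025751977803715059776347481403231927441450704360162509443321103965273788066141411269001325069963877380595200602494679523289460228776561944408782054518142202666577552881928542519549938421131872187067576006396490722666912118114965127699767589506780706861514223706848328502277822658408764284524110437696198756252666833058592746763052217503471369974931094774397264570260604089500239213193102137008345268692339778908371350558897416385293150971243660276030027615653883967072697709819608384595652586005677502484654043226782874621285801306747647066456554647109122133768466685392208670286266302023126637420876078911965576680835893505374810054776591569567637876521469740913865311195795574845112466100415370633167045199411257001597946292026446757662124550324255751262813635207255703122251203380265737801312637536082495294550780659652862402754319367941481820579228891705263481799279804209153252788058899284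2883964215630060255383087762984555403375932120392978290295742311016191861538187747227274400413444458104053834319692390396263698244875746835052405832580376318451450421965983028297226095006083739218832470470435178178671702238700035645073636568369766127029856037914217501540767130050237653116522123013113044790708249920743742331783147161002963868474148472032977480911966491674190370419267138661444074929975110099449737716619315897008246020704045144649539326033070385470605498952767026661798765765290783665579829138353340531426966302207028277435339493325414499636568819742589109208826454361999046921974722818890988305976861267451108529771557312312226670400954011487693501509093959690285115382086637043019125912356334343844189037372858829685107891199214780501125769601059865978572878801281632528160353079766068772535370923488674457843743731849730030003458206843265992773240773339567601292995379113760420512874966227768082629224335655236695904428925346458882112608573538860103263709284241335577720375989778339886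1367352562888757039528398647556499808672589685578485716136471652529180037199307991553282861215754493825948299142875374369390757131597362445996213028260634383844213644836076760549352494832089857511137994046267354175360209019880500699246209508995388761495177539784131293237656466823922876176850127608726483189386271618398113422735712240233465878377356511148407336787652142315075178051683600952693092257005786732824496414376019886826875914123859944469662781198695491379160567499195930244980577071536958746781562359812458988581094267818585841889763821425014014480863105275758613449264681180746422860319488942062137720354467099294690524147823666532416647527807933199574648656247334059978415820170992703956044289265968296432582952903662641690202565345751870819274909273542236596206464093907897639668561142965054530726166313148124567065809009642839882626282344378369898799443556315568935677407942623127017092487199590306043458785260065860545206762705966716841149006390465300753676115945641642497012234182166189975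8507049979167938752680735398125497185835637952707578950368447871417707699704526043703914161621919686222992995728407726663047085646369742094280468589009221788014677694314224052326105797696009776366025347087562982383226328374372107857778915100353818594763213208970316124351691591770396427309456307938477323354647651156349809631858403392283815888102793723696152620427983861890843267578179249195115011116288747945034922217660532816804966484709327390044606462581467704764381413692944374915122424121336652432797053848305610606865431779069141506191163201748805588317699340234324116516436608810693238957935800129016254499153721521563725929519973929653364484088215642939175260328906590827153107109537070945868206010074627158476828920718401526143620063404579355714492915354602867930762414093737828727537604176111266088565021244804226077262168875978915159196881228059897351236389690489401950463690719830844960796315707670144437004263410342752099627127001799751974339097232873178127111563154221795445274928382733322139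6474866540237831139979916242355644496654504709202020969706310881339835495787963839400747968164739141887904304141582469947492129874037866042185405476491932858623074554192650964795605665924877266573232161068934550207591872690773696341945140348673911852177899651418126742168803138358334765728352883768040811488417049371955301528822208901807466791113524584330732639465208625733485711361248050213463380562661405789657951259876849843211306792706424863119912570219966871501660447695369237911898428129409431797775615038698216573399316420627534034467366356098665245222648519408787532303536729549044834564328415736091090447429519744632963407689639433840144171830162377032814579593623488632291906555647085386759431971806851590785475750777381102534790201706422135118890576612096408722021751061897387564441860327759456006248855040845342121411598868871368384568060837330238684867875843668027009676643906525051160516263328383270071804038255936440489482840258653658714610929755658921640440840951632563425050321755697173358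4769247652474875320323477826265984826060833965873145705900331260744889728908476711945081398537321141715225716279857261383784483516807162326696933038560115079612631680220026591446182873630814026370772708330769060273500617651648957060380220356057019566627300489606185244601245165914986452864212228241519901364658403978205355595050797530598089963441919016055811989510357371828623129643529715063845042362064427663917908129497099626482851613564446381858916611352771626721964011335416102652132702799079290817057447378840153515005282512025800085191498603716321307704202239372959746293266180611776774135535671387870383278072466795647892563292615712563920926801483435209381139386561724036129356994270237190767559589721136489143856125812069122268284111335220977977211938551885369277167028703039630303626332308729502688807825147190564503565152248526755247106737789524441593514252157703136423768822022009311329222710558122745570212132524192110173959985680478846564313213908030059122349511357476580536765461058238486911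975237670163778919371815795467147745229798066810543847562041898738232126596166046593677656028114812862795175280562196097334856872111585674479800252844035688489252022777489878226837296204149807132043495859159420626464930918522682661657812075184364340494742718414463702185019103428076147244228051926096729841267343212392887037608291836043852647017857132756840424712744268576110576629951218939137140787885582593370807712514020140037746080278005675134399336749697750946530268252860048351625366182186439703928054129229069090162860693381489893748090291866901849438282344133955041015879373554994908521768862129935340813835756608199550871885669258784411383952559388429108707737067061995680504106729510761279069342460878107649707791228260137984784418707004847060183975364167997437040072472116446329278263358832382289216857195487811250441552473880382559388719837303910687356102154808770942111694703940208430854294137636815564838768582402687513155609015561139139153142383372469696415414943366756384747720225198084101030591156475982702402174246194497000300745085867123986964189896671284889377095017779777746090549480056085988303432147043071323935103117975944720403257119512955318601689267612730998766522917776085060449709188110896177521148801600431540612525506459424978572615473917269997814849684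

def tb12_5 : Nat := nat_lit 8191534689513372182135239339557071320768952823379964296044665173164265422957265483630091009498973088688705568945958540362273026947714678971318781383575871473161832031152865008195584011070337586048397170576225735210172595909855085429773129292079918551830602653260652596507702054682795740450738250102567360869952100970825397809655246742450814339270637028513988230939638618846008507994013189864940031242772400477701068313296089851991637800199535017748760988625783078712867699690497285799136676717092186261828732368804626396081898324616328640930990051215211994916843613862805381981084741277610225656822427215190019662786402694177352242001802691486913690616787962201991773581483648215332826261495244364994387432880646980817701251267436836787688825851792485490056920047903258002616863858363857650948848561063480303579704964405660755526107332875461966914577081344405875389194733129527720091228483752099890355617288546310927704670116390053744647398585150005778529451627317613107313794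4476422192503240602966652375935678182606363746548898191689280087666810474415929824870827699906464096557975803345027287438224405605032417611727615949384475913395969167132442329611200137414546990369045276606018909026760042829933856641121925933171079488209684892565002883067708494790949920236443259442721817751065990269776154214945023488111686855311945555784537813877366775389296696120811157593828414434914457706971901363281367629585790779186009674166152576603944049504014234936826524464681121325122211518259034729141745904599516824146760600193746622106630523282411595923709881391679290435881414687279441408319035221663387441028477821659880684939466118941108190868316550448192398007235277420785699652761511629378559766371817666333817734451603498099512037946407628086615555918685930622756676015625856857702857398934135948749135139792360911743310769708785905283829757615931251852781861553196910063745154114543605991789629008985479424345963810013203387352296239817501747722105471324874424574051630461133037100403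0546559289079701388693510794020676897875217774494845290800801818595457853906568165547432340754600042505950403022112281265658952825976018895343575850668750343446711490291009011943630059192797944159232162223045191924930737526285319030636531840078545000077577245017869172535405122492636507493771288271105964983360270636841717949996337563884437435835138841435069261130610190023670679962340778687832267449302793799465401194066859063349659960094788837086387129425449844894567782187809750108730163842831170405194097954715102809209974744155252330866728701989720352514937003611518782258239883864461384359589183612777049936803469735449058385372793290985917887284895826018491658731520316278918173485143703553476409197207144611311988539426097995881233363730763749727971032977872380739548576272082785013247909757626213168402868214163328466600489347655198467560910619162401573253819511046153535103903735677754911502573730713093002831204131942460766186502468248918054210591607790949666035682284087306456883443201303326494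2181228810451177166404651042713676614746700386444938757543201017849350357908751600051372521108960854440458777378005298336253035958363252393179372734657833800929488356191146454385729543344826388087558838880389431909944640840838853889167898331125679850400762906280726155573295824684228438140574761316362125620394133213748065112379673939812664192137807798551820824763141250633761732299153462383813491761236509899980946647238254258351908896827151833317732817177352237596225128925621462670035625171569936497518809228564931850164141520939384041585022340891801484082374237237998966429856561214805712764523280443087377566104319198734126236079327862528137718610532705815595137361568217203933987645381072198215669584136015188039970136665033864531646605195681947548593620490731458942348616901342976346878514696004668700968555958916654780122389598092109088758567279394135474848701264530459986436615646503502481801297445511306367892125439692563027381081330397940373145548859407276506533715809000501018989561369483743011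4008528707549867287948849945479688490099485737631798880625080149652294230903659420453698669367189244865234297453192046528073955490054060587944221541513801588465899703213631288692093454719377916132976080554469685395141984871570810569264813072933283912230995081265577250917894492163250326514810659578963227299277464466489335008765409313553433832404477937604328221148538720951975459070265671034850848233797126302028055376697151164257387803714803562094996434633894909888986631217268339118671020016831404856637224815968976665633479765843214580869936144861305831758676139633988448287314406998266593768272204550258205972522759343778005606379761178499284985857236639680331659901926914840716981112747272006570607795205022984498808262757353365568675534199621771458217282077258723064134207768162102614441274169200045482370503211927269967878341919233143571338134743437630221424782173547961886414329118111781792426844602840617439967127833598850897663810431753977182449541148230180131128759483583896535204388207759595791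3517799806846198509842421219472893646586616692064960751233267424412875412045887799769676050259102783709046496657661398199720307553211235165595822413085034239165659527073033571001268461212423746106977974628827668049094267032364137489127693989986040515509064320465113211837433940173009815019456089808801110487289897245918435163307759556007571819913119202921041591711489310693804143219999174108525626199543780686542656320152710351554166264646207631728344373016475767413088986951049603755171212678035979227159497727254308897522347382019607069709069784543204344942315645112891635025381245119935694398526930262157273082022642551427232779686362047999487476802619654214380426061271887298701816636956450838467681268567364667022031349629968980380919674281576590193761579910046732939598375795973938464302587446468893844949384299596243360289988737734743302800374330978947161155309514304979166874156271007404460956227167424577295024188966419165111695666100980134126710169568217036901883254822313687075803720685566306228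3861543100827895633758379304775915780720695994872183766266041956233518513267111808577025579188075509302519876427549598926283825978486807585655805909285583739829585859560491739250646139673872998794096207638105974196447643307425034761191915086398322785203130246593679803033611302232057918255570348073309649274440264280808658871085561637008113509196934411442827981377922290211139030621016922562568250713831866347801724800561664344783460633436640913161241243989342589274252999565965804057622709408359484976674412970951534794925172204407098302402810395860026609831556645069161727236212961289156078630291749637673222006154793192585759239605918291010227912453911350762075000420728631545365914997142058804187737487008478534832752522331673480819297161582921338553868457414863200724182285209352870569706652001370885312326856798356761935469621106294633385463076782809289400773635385040446146921129095023376956642664580662435578422514561204153346286352848376786910815418299737900443506574798358913274799743027249858967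4129205133421570778383051625069807538476025616289743973882763087778071626003601870039044338244376390873258544400264777948945201357728853049620887074356090161585115704828045785325760017411232960118159070452032857310617348474750528215546729250341095085010699816707018980461178223041428361331162453794661235404590448100415487628075931342211996691920642918994404447161828348200946810400150885758427864640307015431778239720893357583662886938323540259752975548053032923543049388542251268077813423854083539603074046771952283681784467714914073512894647210594926107471075288514602324397241959949316865516550930791366430065638887255293407559431815722025324575392519269032413553752875789024058670784340113262366461586079467137451343039224201400277251198936869201797062643440343189323060431553626124820085349206607928823508555223641553006666746626339586002738270646743738080946021429019899482726083297557815760132463483640313962628006619280988756918511131776319689263255957377540981950632204701663028963167878932672809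9711292893578923626543450307938352416169068335289033331675896839478571512356060995968271546165675319633165105678114484561798361956876130090085267502964944516078433164029790350732388421043952454207566126159591742769181978888206298365345925944245163953950088644333891204699086415099798355264741659842537756113081837204197448686725877737155214617757399720355527358195828250742467753536075356361299458686126760467134098465683954597360466945534543102989837062993511321541586353934746786182151893921293882483232376979381443852218286246851310115524877454369988340691342768782344684062302524080735018731173459416162365420261714247421345711073435626056340060786629173090563485257542723971156878889022926029994457429144654811306820623739245944344913777843700914814417767011131781598627545562444083703238943355024731211508900465669129122632895663250830079790082659811654652962235676245993701745200839674283306379787733202813602310304969220277921095182481504539286995312452029434056331679595639974036076740906312473904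3109626834854094204414683440866750836287450764483463312832191092143262155898405465997911892416338558533788506865999824120955582164455522303022552700574986211083959557128403965889140943058369447290547046498019449069413613644659359004315335034344772248901219466338059366933596416399334718452507108416040281502931155433518127004609629273904497176670201880629971876398802581039458320782042892997637131916654087412719791210936682519826225226881759992963640666371828418721107532216107794835126527134240733460348675091691013613379684052396109577185163642566912466256591600463330192177722761571339577105092022488539953518350700181786777092812369908615716362350609150962051503468804026463881579209841062044122588921413795723125902710541198977290792809254680924294328768271088711953581212712865061537704625762252015360472339435380114787903971818094025040260789901053216825084601875895234223121430547546075473356200222085379934874342248503635072562446844737862517896733763299527478944175826608108053013609375166913324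3401430382407106162127128003611318454121373361348079658129808331774133576583517418099328208478376965450748185499969989910600557781271855958789099412332512715262989652783312822587334782712910731403276855799729470611185152374586800537785242049551665373602960403155936607726133411629807986991745220576153224993975687807630923363153429743432118186114887126777085842027269084882974857669854483816824915471797438127968128921226899674122451676695305771501064726506238761832110515303501713373382471503348990556356982365522412917273834825757566174653526815563103702890847694038622807868874128678371050114714740218405697345937057595266541515121488624240701064245141144764799424369502808125982493028460869807371010814971628154442896581611003620850414923988095330945437219897719523089636500751062359778257043561994473691706890610381053405126262679504831750936800555435238874748680343344032365584105519225995193099969028802873260113228524332230158150491906786184350065683557578706644497591953928121331948411075766536525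6720725621520383605431997256886007114937297221516898689979607261274859850209780143868800675168339115372834338104485406254584133978925452276894569819968884671833168322620810231795891101504356190353246961708810402370443900951993171222386151646517339293037289597631447900867911724148120392399646783279878028478986356386231683327054744920081838408249326951722257096780430005818823167341707905584216770187496765162943687445230696562157700976119742557243238178393313081518188877397595808825207837061851761178732686862722357761434203454152748266749507538437020473708532881072355314819570678201750824711537832902652510552458640459901606638098696337840224262914591480745522200181943081212703568140225339616423468034549113378404820253122310914688005269060820347387425846154550819946659413422350291298577306965692347957377880008651834970616203225086407506274817875338053917709914602506191906822237398539816622246501662496433893021074942086546461770834062566602212299203724966370439921433154999660789005312353680410556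6036736534146535295935808320809880421404293532716646948617032108825864022097805203403841956851605276121874448769352621049794583737159321469986745488301950090866344063726181035046693842478144155559265826924269533186154211575356673147647431552970953021728247201347606309916627489457480701258031242453277462061737181567877657757680769551041185442861538530255855354950521424376866432119087599071739342253033150862024361280746301015815833404792481525710019700902486188806060342874403361277799439534619244205838206836661447689847473084052543551301680638069341830360339270291315598703424830889518615901045623032305147397440267574751681134015139455061833459539831947552281375097647171770035215623982368131630876911863278416066905633329365785712730649786966407920941127490362598662770613799326866881358778252582767456103461447719204588753607929756988393779078995713938981353922077647935097173014286426797647620530219268782605102605670059774272814309973951562297651274330752599729358588839148507686813627703500636695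2641322552604411042874984808573610286079797420374944747055342431734418015140163162157588301718583729876003730639669235432763850871339884707039012412636529550364226419016471764650733874718122791885904216117952804071448564220206813495352212447188984535669368461444024709944728683635408755742001339027149965518625753573749473609819615388318860742344133330181298430610424162267382398414347447114842246440346133464151742213617947876127295701181709101038014218987881233599960016398097355040758541365168274864871616045334520879190949154072440052901423574036006196198291567887911103993635791153685061409983961658978994592446607468046164320068931713189828646646061563692355837466363719523397426215742772993171755702092672181307743518413325261359158672067858537943023191136315611145226581855073292299480960306368871498225960521208429927519661145382879049215866233217246210934068185656270921219305436843664853430065538102698459896898771034634080941552806690660757415166902763232053104731187178732099068673302149398180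9120345799900025070998438265591553866304049006124708599861382606295445365481297888657967575915091150207645746739163719572201065931702188594159453636380590113408257292136132339716378367394113324843720630485040151747908172120254335852639289853818814791691401240547250552719071744120800312899669518127712025416903639624083602148947540114525355055619240161122451687497855050378005478991882899044727128104428011398863089186680124336189006500866274493664477159578543386371657626293259960160840701128729715867233249651998545743842716895648207121562212384192123751008241695938329457608043715702290311408723917371772447947585540811864439833257772894651005902155867385272541141225661867983830843632338604397062795460758487213136346605641889746182329301461491256526886069351620251670814120663763928682435134447153778759261499855150826657677924536191571795143353421720319862338938740153423137474878310280191310714661595697375892828268660930599947904632452329345288762158422713592161697666048790118053811489992533887592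3342785962567233918408369842551643690641129037350633517425903009431344595254452149034077277153500049214729071928700122949603766196347513246956468011656470682809047722201293875357641005672717652920073260611948410627574996303625924657997131362572589584950221244736068843376702184869612311091951795547098562197259183972844460405978716886077775757358137573017244298249771140161961038147637894450987532484636113588437439015516878796524792880263426396407952666790196805212645571896822645106992543141329778859267122034732965371611225220939335311921656319498422445193430274492307613259493677535937017182371825219690937479371091158283782672594179181391660729365493326595259612676963072158905677678514608309995834838157768962379744347719487226332623616477106510207989302847655979898647953391002251241963077966402820879585417742140739102339724332338294407148953896784650744726470153790645795791491787037432756520301207432174076258927729140582978931880038443591069354843375714979850671075169298645947741726086862673823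1747333883827263926802414412391388957467171415383594687119396001760757430480637733881567736575998694949571714852537598964318105593820206959634464581790223481485036704023269152493599550389114211082653478856025208462185957117003386924337625814682170635322019617108836774524411178958566944208392661555677956411081195898351393385496141903535038182648126308550682947212677590726253988445240592147594793778249447369596077724333785629480187467070004686660021682487991217088328834390229959856372620895643351373118531461044217424421067059758459149080587427491651572229415894944732822715983572556359414792899738175357425775645036316012864265146901734220654841585918896143338344981997699219210103564133837671239580157516832096027526999817612666027584735495392506548206845959458012592328093394600854913696486496662652536112008143053528842571734378914289772774833371320222272221369550808252950700717120955195402947347114331508088575761408632581597523103143918193447579058032653462374500584992253228096765039249877759006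6018107001550855631056965372691677445511223363392920238128739423433137542628898680399711365532997804443178127156567424679350568263326688351103212442916154945008295710692746792997639988604227376789711822731351994995172529460259478718035417276138512600165342840296904593459530679935314841362749353287921985590552437270980064970100677771306627003996553320520173089676880252784692343439513159420597310842791208909687545127543473205592321517782787446655058283025221306992604176067434308853516294675988871740055690697701804283304902165766168241215895162821601064088905168413191776101740303268194821606396668143259670463180336470251669756906137941120832365528859516805472964706981950658938129467481126007457054799507230135012156726293105494632491754704139077678075742469517307119364598189266564906662348682150997800845273633807694522202699989721524086587568461553407080255069813579818945277102273298435739511358493678903407846751938337512336623486793112200945102741491299418135681185166068921777167093849256658360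7404054874011779416150550166085932116253786862365332634467047891224474184854633569038705122470891271208901935144881530400912659291108335839000208109854057102699772979171217736779900779924093124772127724811305304896416735736744129109492381694680787328977399967243432398695048508128797650098809124983354935365422600645929748388853339213454021990810601743914668223410171107217687498888016843452319335312351122993467586353498354181494802295222105413312976115317417415235661840625366204501071205697059175697457435537320985147617386536153905388365777663434475104973442498238072825718339207407952392725363027270896274566030862467510794424244029546298865185613528210067568151015811101139958657778028309803880145404233701494909156902387220995580234770435014434358014529026849540775638425221765896000504719178970402834660558621725252728118238925598414729542543341330036220904032945436239998588811981794693124050938145655026082023106879717853449799603438153975483220968767503904018163860815224313266128237584990273515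7115089627450657135715110013273248285160447626749952810716600019846615790880895447380721712437394825544061972771974141643614795330216446243920146970315388098323902301218946938103592333634532131981010158482769988112413210640457601552785627783027328602890162321580463134702414592714760107303552712385458032040937554092371911308050425389009696662661801154771373619706413555390229077292455864447216595138616182767448072481306470415918245994650490494618920206787047889081544290646874799496171633428925351961822435219801374184561143244769625624556080913086027425694232040424663327183747314706227424350008705797817500609227452033439083093576648971284372490569983560905449058374394397882657415387566702252684036669564185353664752843283910137480331194717893592380146514202740959820656031685637415540236266155072915127956708240533075960238211251400829031928745861634644915183161635504308692251146175677294247764811509712723238528932653325058858768074846148290917857456859544021040743513379318177036438005336174481178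7666521779545702981670963458834384536531880946466311874942610816430421386130006693372223059106269318340144325452795551797459393839508902522783382115505969399612134962296605944505413502187540152075973748556502143257008547792777725117663527884897565963222663732074674076476730910106796491660631693335472760800332075696997671520394351473751123680121880553316658618509076418067186678250805354911708225517066229618537705264498852710696395763903124205406676574713776456493252911815925209359279498257328519339220294644613766457694586276192214022371053773698597084927262180386376879394960450569003290066326021490384054729899311898124594343596566976209761832839436655779420755372223258623159155508989368841091137948077536460031809482850067237783603622109754071913653431753532122227085287987600084631121117951795771606873667980707269707036727701135579166227456701686347064705261370782409749339031263587550902075698284806876590300151260669928856607376032507303404938881130398509097998385026979497961281875103965521557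3550065975229164896172542665345583156771009952665612011584396639377737585850652674577380701831964284099593266854683035365180127695776061720248922700674813032560864431279508686194656251469080058146146361324752041089842114013017831052475293631322563759533714086418673269720705189105730006254308662152651480245990857620923946055210845039097880510328416088450678953213359665708071819214172239987133559387475373534756136674540261869161843781209587707116391957952741306191567899665665519884460817575131239882392272330827573662663142159435074209070184353736344904867056100898703114419870802929005142628517647056334975048988987542166192232017104008322010029991479307435577262980173455946304156213139676919657899902283226210841101058580920332212215510751416404688114369604415459821687211712602559099426089657442473012946298241646733197774727583234692984353743528235053911411671575744507977871323887887471820304529850063399588851355687211085422473429497371868475709021025511083376147620982060646136259414375495462184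167716830626980119157273872468998976392810791452506130488383432371517870389382027415103266998560322043405471468424872570395660191763858492613359091428797214909967054659118762235391969351682389478726342311460029477815023136557807233995788798648097862003114173679939351300998488294223512007057916450809951913463132940175498349810685569159241517903869224888824157111817562068434898926865613440749990123386630648497929139969587956854943798411168906662472641322952792613521450790398198777930434254813204643762880188314451492520833544074918655696974205685610913080444643613203831044557864074943182305554190576800445700040990129279707649056234576668945054835545857240986165221023543189544401315683782626023768827008803211544526912806300166256227303490769976538599579348683689335004570419373562116016091017856237390378496072511814887243750010958133448339439351555975242079121234854305767037023690778239038010802905245500926678564617665752261209628887256105825250369301198405339478269853443890508623452266134575322844843271848932945400690202956169197887467995364272295728991178081523171431490647639845005790799376547363161460812849961200234548266546226730161184268020959264299077759487880599724198255557816941998211181632554454344948126365608434339112459530099004282639176590512736373166960702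

noncomputable def hd12 : BT Hd :=
  (BT.node (BT.node (BT.node (BT.node (BT.node (BT.node (BT.node (BT.node (BT.node (BT.leaf (Hd.mk (List.cons (nat_lit 3969) (List.cons (nat_lit 2169) (List.cons (nat_lit 1095) List.nil))) (nat_lit 4) (nat_lit 0))) (BT.leaf (Hd.mk (List.cons (nat_lit 3841) (List.cons (nat_lit 2273) (List.cons (nat_lit 2077) (List.cons (nat_lit 1171) (List.cons (nat_lit 2051) (List.cons (nat_lit 645) (List.cons (nat_lit 393) (List.cons (nat_lit 1093) (List.cons (nat_lit 1065) (List.cons (nat_lit 263) (List.cons (nat_lit 37) (List.cons (nat_lit 35) (List.cons (nat_lit 289) (List.cons (nat_lit 561) (List.cons (nat_lit 337) (List.cons (nat_lit 523) (List.cons (nat_lit 67) (List.cons (nat_lit 73) (List.cons (nat_lit 577) (List.cons (nat_lit 2704) (List.cons (nat_lit 2320) (List.cons (nat_lit 2066) (List.cons (nat_lit 2096) (List.cons (nat_lit 2128) (List.cons (nat_lit 3088) (List.cons (nat_lit 208) (List.cons (nat_lit 152) (List.cons (nat_lit 2186) (List.cons (nat_lit 3080) (List.cons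 (nat_lit 3136) (List.cons (nat_lit 2436) (List.cons (nat_lit 3200) (List.cons (nat_lit 148) (List.cons (nat_lit 176) (List.cons (nat_lit 400) List.nil))))))))))))))))))))))))))))))))))) (nat_lit 3) (nat_lit 248)))) (BT.node (BT.leaf (Hd.mk (List.cons (nat_lit 3969) (List.cons (nat_lit 195) (List.cons (nat_lit 165) (List.cons (nat_lit 153) (List.cons (nat_lit 291) (List.cons (nat_lit 329) (List.cons (nat_lit 261) (List.cons (nat_lit 273) (List.cons (nat_lit 519) (List.cons (nat_lit 521) (List.cons (nat_lit 2059) List.nil))))))))))) (nat_lit 3) (nat_lit 0))) (BT.leaf (Hd.mk (List.cons (nat_lit 3841) (List.cons (nat_lit 2273) (List.cons (nat_lit 1177) (List.cons (nat_lit 597) (List.cons (nat_lit 299) List.nil))))) (nat_lit 4) (nat_lit 0))))) (BT.node (BT.node (BT.leaf (Hd.mk (List.cons (nat_lit 3969) (List.cons (nat_lit 2161) (List.cons (nat_lit 2059) (List.cons (nat_lit 2053) (List.cons (nat_lit 145) (List.cons (nat_lit 195) (List.cons (nat_lit 133) (List.cons (nat_lit 137) (List.cons (nat_lit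 161) List.nil))))))))) (nat_lit 3) (nat_lit 0))) (BT.leaf (Hd.mk (List.cons (nat_lit 3841) (List.cons (nat_lit 2273) (List.cons (nat_lit 2077) (List.cons (nat_lit 1171) (List.cons (nat_lit 2051) (List.cons (nat_lit 645) (List.cons (nat_lit 393) (List.cons (nat_lit 1029) (List.cons (nat_lit 1057) (List.cons (nat_lit 1033) (List.cons (nat_lit 1089) List.nil))))))))))) (nat_lit 3) (nat_lit 0)))) (BT.node (BT.leaf (Hd.mk (List.cons (nat_lit 3969) (List.cons (nat_lit 195) (List.cons (nat_lit 165) (List.cons (nat_lit 137) (List.cons (nat_lit 145) (List.cons (nat_lit 291) (List.cons (nat_lit 519) (List.cons (nat_lit 1027) (List.cons (nat_lit 27) (List.cons (nat_lit 2051) (List.cons (nat_lit 269) (List.cons (nat_lit 273) (List.cons (nat_lit 321) List.nil))))))))))))) (nat_lit 3) (nat_lit 0))) (BT.leaf (Hd.mk (List.cons (nat_lit 3841) (List.cons (nat_lit 2273) (List.cons (nat_lit 1177) (List.cons (nat_lit 2061) (List.cons (nat_lit 2051) (List.cons (nat_lit 2065) (List.cons (nat_lit 1061) (List.cons (nat_lit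 1027) (List.cons (nat_lit 1089) (List.cons (nat_lit 389) (List.cons (nat_lit 131) (List.cons (nat_lit 641) List.nil)))))))))))) (nat_lit 3) (nat_lit 0)))))) (BT.node (BT.node (BT.node (BT.leaf (Hd.mk (List.cons (nat_lit 3969) (List.cons (nat_lit 2161) (List.cons (nat_lit 1101) List.nil))) (nat_lit 4) (nat_lit 0))) (BT.leaf (Hd.mk (List.cons (nat_lit 3841) (List.cons (nat_lit 2273) (List.cons (nat_lit 2077) (List.cons (nat_lit 1171) (List.cons (nat_lit 2051) (List.cons (nat_lit 645) (List.cons (nat_lit 393) (List.cons (nat_lit 1093) (List.cons (nat_lit 1065) (List.cons (nat_lit 263) (List.cons (nat_lit 37) (List.cons (nat_lit 35) (List.cons (nat_lit 289) (List.cons (nat_lit 561) (List.cons (nat_lit 337) (List.cons (nat_lit 523) (List.cons (nat_lit 67) (List.cons (nat_lit 73) (List.cons (nat_lit 577) (List.cons (nat_lit 2192) (List.cons (nat_lit 3088) (List.cons (nat_lit 2436) (List.cons (nat_lit 3200) (List.cons (nat_lit 2690) (List.cons (nat_lit 2184) (List.cons (nat_lit 2576)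
  (List.cons (nat_lit 2128) List.nil))))))))))))))))))))))))))) (nat_lit 3) (nat_lit 248)))) (BT.node (BT.leaf (Hd.mk (List.cons (nat_lit 3969) (List.cons (nat_lit 195) (List.cons (nat_lit 165) (List.cons (nat_lit 153) (List.cons (nat_lit 291) (List.cons (nat_lit 265) (List.cons (nat_lit 325) (List.cons (nat_lit 273) (List.cons (nat_lit 515) (List.cons (nat_lit 517) (List.cons (nat_lit 585) (List.cons (nat_lit 529) List.nil)))))))))))) (nat_lit 3) (nat_lit 0))) (BT.leaf (Hd.mk (List.cons (nat_lit 3841) (List.cons (nat_lit 2273) (List.cons (nat_lit 1177) (List.cons (nat_lit 2061) (List.cons (nat_lit 2067) (List.cons (nat_lit 1061) (List.cons (nat_lit 1091) (List.cons (nat_lit 73) (List.cons (nat_lit 297) (List.cons (nat_lit 523) (List.cons (nat_lit 35) (List.cons (nat_lit 49) (List.cons (nat_lit 545) List.nil))))))))))))) (nat_lit 3) (nat_lit 0))))) (BT.node (BT.node (BT.leaf (Hd.mk (List.cons (nat_lit 3969) (List.cons (nat_lit 195) (List.cons (nat_lit 165) (List.cons (nat_lit 153) (List.cons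 (nat_lit 291) (List.cons (nat_lit 329) (List.cons (nat_lit 277) (List.cons (nat_lit 2067) (List.cons (nat_lit 523) (List.cons (nat_lit 7) (List.cons (nat_lit 1027) List.nil))))))))))) (nat_lit 3) (nat_lit 0))) (BT.leaf (Hd.mk (List.cons (nat_lit 3841) (List.cons (nat_lit 2273) (List.cons (nat_lit 2077) (List.cons (nat_lit 2051) (List.cons (nat_lit 1061) (List.cons (nat_lit 581) (List.cons (nat_lit 263) (List.cons (nat_lit 133) (List.cons (nat_lit 289) (List.cons (nat_lit 41) (List.cons (nat_lit 35) (List.cons (nat_lit 49) (List.cons (nat_lit 545) List.nil))))))))))))) (nat_lit 3) (nat_lit 0)))) (BT.node (BT.leaf (Hd.mk (List.cons (nat_lit 3969) (List.cons (nat_lit 195) (List.cons (nat_lit 133) (List.cons (nat_lit 137) (List.cons (nat_lit 145) (List.cons (nat_lit 161) (List.cons (nat_lit 291) (List.cons (nat_lit 515) List.nil)))))))) (nat_lit 3) (nat_lit 0))) (BT.leaf (Hd.mk (List.cons (nat_lit 3841) (List.cons (nat_lit 2273) (List.cons (nat_lit 31) (List.cons (nat_lit 2051) (List.cons (nat_lit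 2053) (List.cons (nat_lit 2057) (List.cons (nat_lit 2065) (List.cons (nat_lit 1059) (List.cons (nat_lit 579) List.nil))))))))) (nat_lit 3) (nat_lit 0))))))) (BT.node (BT.node (BT.node (BT.node (BT.leaf (Hd.mk (List.cons (nat_lit 3969) (List.cons (nat_lit 2169) (List.cons (nat_lit 2051) (List.cons (nat_lit 2053) (List.cons (nat_lit 141) (List.cons (nat_lit 265) (List.cons (nat_lit 521) (List.cons (nat_lit 11) (List.cons (nat_lit 1033) List.nil))))))))) (nat_lit 3) (nat_lit 0))) (BT.leaf (Hd.mk (List.cons (nat_lit 3841) (List.cons (nat_lit 2273) (List.cons (nat_lit 2077) (List.cons (nat_lit 1171) (List.cons (nat_lit 2051) (List.cons (nat_lit 645) (List.cons (nat_lit 393) (List.cons (nat_lit 1093) (List.cons (nat_lit 1065) (List.cons (nat_lit 263) (List.cons (nat_lit 37) (List.cons (nat_lit 35) (List.cons (nat_lit 289) (List.cons (nat_lit 561) (List.cons (nat_lit 337) (List.cons (nat_lit 523) (List.cons (nat_lit 67) (List.cons (nat_lit 73) (List.cons (nat_lit 577) (List.cons (nat_lit 2192) (List.cons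 (nat_lit 3152) (List.cons (nat_lit 2576) (List.cons (nat_lit 1560) (List.cons (nat_lit 152) (List.cons (nat_lit 1664) (List.cons (nat_lit 88) (List.cons (nat_lit 1600) (List.cons (nat_lit 3080) (List.cons (nat_lit 3200) List.nil))))))))))))))))))))))))))))) (nat_lit 3) (nat_lit 248)))) (BT.node (BT.leaf (Hd.mk (List.cons (nat_lit 3969) (List.cons (nat_lit 195) (List.cons (nat_lit 165) (List.cons (nat_lit 153) (List.cons (nat_lit 291) (List.cons (nat_lit 265) (List.cons (nat_lit 325) (List.cons (nat_lit 273) (List.cons (nat_lit 531) (List.cons (nat_lit 525) (List.cons (nat_lit 609) (List.cons (nat_lit 2055) (List.cons (nat_lit 11) (List.cons (nat_lit 1027) (List.cons (nat_lit 21) (List.cons (nat_lit 1029) List.nil)))))))))))))))) (nat_lit 3) (nat_lit 0))) (BT.leaf (Hd.mk (List.cons (nat_lit 3841) (List.cons (nat_lit 2273) (List.cons (nat_lit 1177) (List.cons (nat_lit 597) List.nil)))) (nat_lit 4) (nat_lit 0))))) (BT.node (BT.node (BT.leaf (Hd.mk (List.cons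
  (nat_lit 3969) (List.cons (nat_lit 121) (List.cons (nat_lit 141) (List.cons (nat_lit 267) (List.cons (nat_lit 521) (List.cons (nat_lit 1033) (List.cons (nat_lit 2057) List.nil))))))) (nat_lit 3) (nat_lit 0))) (BT.leaf (Hd.mk (List.cons (nat_lit 3841) (List.cons (nat_lit 2273) (List.cons (nat_lit 2077) (List.cons (nat_lit 2051) (List.cons (nat_lit 1061) (List.cons (nat_lit 581) (List.cons (nat_lit 263) (List.cons (nat_lit 133) (List.cons (nat_lit 305) (List.cons (nat_lit 321) (List.cons (nat_lit 393) (List.cons (nat_lit 35) (List.cons (nat_lit 553) List.nil))))))))))))) (nat_lit 3) (nat_lit 0)))) (BT.node (BT.leaf (Hd.mk (List.cons (nat_lit 3969) (List.cons (nat_lit 195) (List.cons (nat_lit 165) (List.cons (nat_lit 137) (List.cons (nat_lit 145) (List.cons (nat_lit 275) (List.cons (nat_lit 261) (List.cons (nat_lit 329) (List.cons (nat_lit 289) List.nil))))))))) (nat_lit 3) (nat_lit 0))) (BT.leaf (Hd.mk (List.cons (nat_lit 3841) (List.cons (nat_lit 2273) (List.cons (nat_lit 1177) (List.cons (nat_lit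 2061) List.nil)))) (nat_lit 3) (nat_lit 0)))))) (BT.node (BT.node (BT.node (BT.leaf (Hd.mk (List.cons (nat_lit 3969) (List.cons (nat_lit 2161) (List.cons (nat_lit 2059) (List.cons (nat_lit 2053) (List.cons (nat_lit 153) (List.cons (nat_lit 273) (List.cons (nat_lit 529) (List.cons (nat_lit 23) (List.cons (nat_lit 1041) (List.cons (nat_lit 195) List.nil)))))))))) (nat_lit 3) (nat_lit 0))) (BT.leaf (Hd.mk (List.cons (nat_lit 3841) (List.cons (nat_lit 2273) (List.cons (nat_lit 2077) (List.cons (nat_lit 1171) (List.cons (nat_lit 2051) (List.cons (nat_lit 645) (List.cons (nat_lit 393) (List.cons (nat_lit 1093) (List.cons (nat_lit 1065) (List.cons (nat_lit 263) (List.cons (nat_lit 37) (List.cons (nat_lit 35) (List.cons (nat_lit 289) (List.cons (nat_lit 561) (List.cons (nat_lit 337) (List.cons (nat_lit 523) (List.cons (nat_lit 67) (List.cons (nat_lit 73) (List.cons (nat_lit 577) (List.cons (nat_lit 2192) (List.cons (nat_lit 3088) (List.cons (nat_lit 2432) (List.cons (nat_lit 3204) (List.cons (nat_lit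 3104) (List.cons (nat_lit 2308) (List.cons (nat_lit 1440) (List.cons (nat_lit 1284) (List.cons (nat_lit 1296) (List.cons (nat_lit 176) (List.cons (nat_lit 148) List.nil)))))))))))))))))))))))))))))) (nat_lit 3) (nat_lit 248)))) (BT.node (BT.leaf (Hd.mk (List.cons (nat_lit 3969) (List.cons (nat_lit 195) (List.cons (nat_lit 165) (List.cons (nat_lit 137) (List.cons (nat_lit 145) (List.cons (nat_lit 291) (List.cons (nat_lit 531) (List.cons (nat_lit 1035) (List.cons (nat_lit 2055) (List.cons (nat_lit 525) (List.cons (nat_lit 545) (List.cons (nat_lit 577) (List.cons (nat_lit 261) List.nil))))))))))))) (nat_lit 3) (nat_lit 0))) (BT.leaf (Hd.mk (List.cons (nat_lit 3841) (List.cons (nat_lit 2273) (List.cons (nat_lit 1177) (List.cons (nat_lit 2061) (List.cons (nat_lit 2067) (List.cons (nat_lit 1057) (List.cons (nat_lit 1031) (List.cons (nat_lit 1089) (List.cons (nat_lit 643) (List.cons (nat_lit 133) (List.cons (nat_lit 385) List.nil))))))))))) (nat_lit 3) (nat_lit 0))))) (BT.node (BT.node (BT.leaf (Hd.mk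 (List.cons (nat_lit 3969) (List.cons (nat_lit 195) (List.cons (nat_lit 165) (List.cons (nat_lit 153) (List.cons (nat_lit 291) (List.cons (nat_lit 329) (List.cons (nat_lit 261) (List.cons (nat_lit 273) (List.cons (nat_lit 531) (List.cons (nat_lit 1035) (List.cons (nat_lit 7) (List.cons (nat_lit 2051) List.nil)))))))))))) (nat_lit 3) (nat_lit 0))) (BT.leaf (Hd.mk (List.cons (nat_lit 3841) (List.cons (nat_lit 2273) (List.cons (nat_lit 2077) (List.cons (nat_lit 2051) (List.cons (nat_lit 1061) (List.cons (nat_lit 581) List.nil)))))) (nat_lit 3) (nat_lit 0)))) (BT.leaf (Hd.mk (List.cons (nat_lit 3841) (List.cons (nat_lit 2273) (List.cons (nat_lit 2077) (List.cons (nat_lit 1171) (List.cons (nat_lit 2051) (List.cons (nat_lit 645) (List.cons (nat_lit 393) (List.cons (nat_lit 1093) (List.cons (nat_lit 1065) (List.cons (nat_lit 263) (List.cons (nat_lit 37) (List.cons (nat_lit 35) (List.cons (nat_lit 289) (List.cons (nat_lit 561) (List.cons (nat_lit 337) (List.cons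
  (nat_lit 523) (List.cons (nat_lit 67) (List.cons (nat_lit 73) (List.cons (nat_lit 577) (List.cons (nat_lit 2704) (List.cons (nat_lit 2320) (List.cons (nat_lit 2130) (List.cons (nat_lit 3120) (List.cons (nat_lit 3200) (List.cons (nat_lit 3076) (List.cons (nat_lit 3074) (List.cons (nat_lit 2184) (List.cons (nat_lit 26) (List.cons (nat_lit 3080) (List.cons (nat_lit 3136) (List.cons (nat_lit 22) (List.cons (nat_lit 50) (List.cons (nat_lit 274) (List.cons (nat_lit 530) (List.cons (nat_lit 1044) (List.cons (nat_lit 1296) List.nil)))))))))))))))))))))))))))))))))))) (nat_lit 3) (nat_lit 248))))))) (BT.node (BT.node (BT.node (BT.node (BT.node (BT.leaf (Hd.mk (List.cons (nat_lit 3969) (List.cons (nat_lit 2169) (List.cons (nat_lit 2055) (List.cons (nat_lit 141) (List.cons (nat_lit 265) (List.cons (nat_lit 521) (List.cons (nat_lit 11) (List.cons (nat_lit 1033) List.nil)))))))) (nat_lit 3) (nat_lit 0))) (BT.leaf (Hd.mk (List.cons (nat_lit 3841) (List.cons (nat_lit 2273) (List.cons (nat_lit 2077) (List.cons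 (nat_lit 1171) (List.cons (nat_lit 2051) (List.cons (nat_lit 645) (List.cons (nat_lit 393) (List.cons (nat_lit 1093) (List.cons (nat_lit 1065) (List.cons (nat_lit 263) (List.cons (nat_lit 37) (List.cons (nat_lit 35) (List.cons (nat_lit 289) (List.cons (nat_lit 561) (List.cons (nat_lit 337) (List.cons (nat_lit 523) (List.cons (nat_lit 67) (List.cons (nat_lit 73) (List.cons (nat_lit 577) (List.cons (nat_lit 2704) (List.cons (nat_lit 2320) (List.cons (nat_lit 2066) (List.cons (nat_lit 2096) List.nil))))))))))))))))))))))) (nat_lit 3) (nat_lit 248)))) (BT.node (BT.leaf (Hd.mk (List.cons (nat_lit 3969) (List.cons (nat_lit 195) (List.cons (nat_lit 165) (List.cons (nat_lit 153) (List.cons (nat_lit 291) (List.cons (nat_lit 329) (List.cons (nat_lit 261) (List.cons (nat_lit 273) (List.cons (nat_lit 515) (List.cons (nat_lit 521) (List.cons (nat_lit 581) (List.cons (nat_lit 561) (List.cons (nat_lit 2089) List.nil))))))))))))) (nat_lit 3) (nat_lit 0))) (BT.leaf (Hd.mk (List.cons (nat_lit 3841) (List.cons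 (nat_lit 2273) (List.cons (nat_lit 1177) (List.cons (nat_lit 597) (List.cons (nat_lit 2067) (List.cons (nat_lit 2061) (List.cons (nat_lit 49) (List.cons (nat_lit 273) (List.cons (nat_lit 1091) (List.cons (nat_lit 1061) (List.cons (nat_lit 73) (List.cons (nat_lit 321) (List.cons (nat_lit 641) List.nil))))))))))))) (nat_lit 3) (nat_lit 0))))) (BT.node (BT.node (BT.leaf (Hd.mk (List.cons (nat_lit 3969) (List.cons (nat_lit 2161) (List.cons (nat_lit 2051) (List.cons (nat_lit 2053) (List.cons (nat_lit 2057) (List.cons (nat_lit 153) (List.cons (nat_lit 277) (List.cons (nat_lit 531) (List.cons (nat_lit 1041) List.nil))))))))) (nat_lit 3) (nat_lit 0))) (BT.leaf (Hd.mk (List.cons (nat_lit 3841) (List.cons (nat_lit 2273) (List.cons (nat_lit 2077) (List.cons (nat_lit 2051) (List.cons (nat_lit 1061) (List.cons (nat_lit 581) (List.cons (nat_lit 263) (List.cons (nat_lit 133) (List.cons (nat_lit 305) (List.cons (nat_lit 329) (List.cons (nat_lit 385) (List.cons (nat_lit 547) (List.cons (nat_lit 41) (List.cons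 (nat_lit 649) (List.cons (nat_lit 529) List.nil))))))))))))))) (nat_lit 3) (nat_lit 0)))) (BT.node (BT.leaf (Hd.mk (List.cons (nat_lit 3969) (List.cons (nat_lit 195) (List.cons (nat_lit 165) (List.cons (nat_lit 137) (List.cons (nat_lit 145) (List.cons (nat_lit 275) (List.cons (nat_lit 325) (List.cons (nat_lit 265) (List.cons (nat_lit 289) List.nil))))))))) (nat_lit 3) (nat_lit 0))) (BT.leaf (Hd.mk (List.cons (nat_lit 3841) (List.cons (nat_lit 2273) (List.cons (nat_lit 1177) (List.cons (nat_lit 2061) (List.cons (nat_lit 2051) (List.cons (nat_lit 2065) (List.cons (nat_lit 1059) (List.cons (nat_lit 1029) (List.cons (nat_lit 1089) (List.cons (nat_lit 41) (List.cons (nat_lit 329) (List.cons (nat_lit 523) List.nil)))))))))))) (nat_lit 3) (nat_lit 0)))))) (BT.node (BT.node (BT.node (BT.leaf (Hd.mk (List.cons (nat_lit 3969) (List.cons (nat_lit 2161) (List.cons (nat_lit 2059) (List.cons (nat_lit 2053) (List.cons (nat_lit 153) (List.cons (nat_lit 277) (List.cons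
  (nat_lit 529) (List.cons (nat_lit 19) (List.cons (nat_lit 1041) (List.cons (nat_lit 323) (List.cons (nat_lit 265) (List.cons (nat_lit 289) List.nil)))))))))))) (nat_lit 3) (nat_lit 0))) (BT.leaf (Hd.mk (List.cons (nat_lit 3841) (List.cons (nat_lit 2273) (List.cons (nat_lit 2077) (List.cons (nat_lit 1171) (List.cons (nat_lit 2051) (List.cons (nat_lit 645) (List.cons (nat_lit 393) (List.cons (nat_lit 1093) (List.cons (nat_lit 1065) (List.cons (nat_lit 263) (List.cons (nat_lit 37) (List.cons (nat_lit 35) (List.cons (nat_lit 289) (List.cons (nat_lit 561) (List.cons (nat_lit 337) (List.cons (nat_lit 523) (List.cons (nat_lit 67) (List.cons (nat_lit 73) (List.cons (nat_lit 577) (List.cons (nat_lit 2192) (List.cons (nat_lit 3088) (List.cons (nat_lit 2434) (List.cons (nat_lit 2180) (List.cons (nat_lit 2352) (List.cons (nat_lit 2308) (List.cons (nat_lit 2312) (List.cons (nat_lit 2368) (List.cons (nat_lit 2688) (List.cons (nat_lit 2184) (List.cons (nat_lit 3200) List.nil))))))))))))))))))))))))))))))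 (nat_lit 3) (nat_lit 248)))) (BT.node (BT.leaf (Hd.mk (List.cons (nat_lit 3969) (List.cons (nat_lit 195) (List.cons (nat_lit 165) (List.cons (nat_lit 153) (List.cons (nat_lit 291) (List.cons (nat_lit 265) (List.cons (nat_lit 261) List.nil))))))) (nat_lit 3) (nat_lit 0))) (BT.leaf (Hd.mk (List.cons (nat_lit 3841) (List.cons (nat_lit 2273) (List.cons (nat_lit 1177) (List.cons (nat_lit 2061) (List.cons (nat_lit 2067) (List.cons (nat_lit 1061) (List.cons (nat_lit 1027) (List.cons (nat_lit 1089) (List.cons (nat_lit 49) (List.cons (nat_lit 277) (List.cons (nat_lit 81) (List.cons (nat_lit 529) List.nil)))))))))))) (nat_lit 3) (nat_lit 0))))) (BT.node (BT.node (BT.leaf (Hd.mk (List.cons (nat_lit 3969) (List.cons (nat_lit 195) (List.cons (nat_lit 165) (List.cons (nat_lit 153) (List.cons (nat_lit 291) (List.cons (nat_lit 329) (List.cons (nat_lit 261) (List.cons (nat_lit 273) (List.cons (nat_lit 531) (List.cons (nat_lit 1035) (List.cons (nat_lit 2055) (List.cons (nat_lit 525) (List.cons (nat_lit 2089)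 (List.cons (nat_lit 2065) (List.cons (nat_lit 2113) (List.cons (nat_lit 545) (List.cons (nat_lit 577) List.nil))))))))))))))))) (nat_lit 3) (nat_lit 0))) (BT.leaf (Hd.mk (List.cons (nat_lit 3841) (List.cons (nat_lit 2273) (List.cons (nat_lit 2077) (List.cons (nat_lit 2051) (List.cons (nat_lit 1061) (List.cons (nat_lit 581) (List.cons (nat_lit 7) (List.cons (nat_lit 389) (List.cons (nat_lit 43) (List.cons (nat_lit 329) (List.cons (nat_lit 259) (List.cons (nat_lit 521) (List.cons (nat_lit 1161) List.nil))))))))))))) (nat_lit 3) (nat_lit 0)))) (BT.leaf (Hd.mk (List.cons (nat_lit 3841) (List.cons (nat_lit 2273) (List.cons (nat_lit 2077) (List.cons (nat_lit 1171) (List.cons (nat_lit 587) (List.cons (nat_lit 295) (List.cons (nat_lit 2051) (List.cons (nat_lit 1093) (List.cons (nat_lit 645) (List.cons (nat_lit 41) (List.cons (nat_lit 1033) (List.cons (nat_lit 1057) List.nil)))))))))))) (nat_lit 3) (nat_lit 0)))))) (BT.node (BT.node (BT.node (BT.node (BT.leaf (Hd.mk (List.cons (nat_lit 3969) (List.cons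 (nat_lit 125) (List.cons (nat_lit 135) (List.cons (nat_lit 261) List.nil)))) (nat_lit 3) (nat_lit 0))) (BT.leaf (Hd.mk (List.cons (nat_lit 3841) (List.cons (nat_lit 2273) (List.cons (nat_lit 2077) (List.cons (nat_lit 1171) (List.cons (nat_lit 2051) (List.cons (nat_lit 645) (List.cons (nat_lit 393) (List.cons (nat_lit 1093) (List.cons (nat_lit 1065) (List.cons (nat_lit 263) (List.cons (nat_lit 37) (List.cons (nat_lit 35) (List.cons (nat_lit 289) (List.cons (nat_lit 561) (List.cons (nat_lit 337) (List.cons (nat_lit 523) (List.cons (nat_lit 67) (List.cons (nat_lit 73) (List.cons (nat_lit 577) (List.cons (nat_lit 2192) (List.cons (nat_lit 3152) (List.cons (nat_lit 2576) (List.cons (nat_lit 1552) (List.cons (nat_lit 1048) (List.cons (nat_lit 3080) (List.cons (nat_lit 3200) (List.cons (nat_lit 208) (List.cons (nat_lit 1216) (List.cons (nat_lit 2180) (List.cons (nat_lit 2432) (List.cons (nat_lit 2178) (List.cons (nat_lit 2696) (List.cons (nat_lit 152) (List.cons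
  (nat_lit 1160) (List.cons (nat_lit 656) (List.cons (nat_lit 1664) (List.cons (nat_lit 600) (List.cons (nat_lit 1544) List.nil)))))))))))))))))))))))))))))))))))))) (nat_lit 3) (nat_lit 248)))) (BT.node (BT.leaf (Hd.mk (List.cons (nat_lit 3969) (List.cons (nat_lit 195) (List.cons (nat_lit 165) (List.cons (nat_lit 153) (List.cons (nat_lit 291) (List.cons (nat_lit 265) (List.cons (nat_lit 325) (List.cons (nat_lit 273) (List.cons (nat_lit 531) (List.cons (nat_lit 517) (List.cons (nat_lit 1035) (List.cons (nat_lit 2055) List.nil)))))))))))) (nat_lit 3) (nat_lit 0))) (BT.leaf (Hd.mk (List.cons (nat_lit 3841) (List.cons (nat_lit 2273) (List.cons (nat_lit 1177) (List.cons (nat_lit 2061) (List.cons (nat_lit 2067) (List.cons (nat_lit 1061) (List.cons (nat_lit 1091) (List.cons (nat_lit 585) (List.cons (nat_lit 267) (List.cons (nat_lit 41) (List.cons (nat_lit 35) (List.cons (nat_lit 289) (List.cons (nat_lit 561) List.nil))))))))))))) (nat_lit 3) (nat_lit 0))))) (BT.node (BT.node (BT.leaf (Hd.mk (List.cons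 (nat_lit 3969) (List.cons (nat_lit 195) (List.cons (nat_lit 165) (List.cons (nat_lit 153) (List.cons (nat_lit 291) (List.cons (nat_lit 329) (List.cons (nat_lit 277) (List.cons (nat_lit 2067) (List.cons (nat_lit 523) (List.cons (nat_lit 1031) (List.cons (nat_lit 2061) (List.cons (nat_lit 69) (List.cons (nat_lit 517) List.nil))))))))))))) (nat_lit 3) (nat_lit 0))) (BT.leaf (Hd.mk (List.cons (nat_lit 3841) (List.cons (nat_lit 2273) (List.cons (nat_lit 2077) (List.cons (nat_lit 2051) (List.cons (nat_lit 1061) (List.cons (nat_lit 581) (List.cons (nat_lit 263) (List.cons (nat_lit 133) (List.cons (nat_lit 289) (List.cons (nat_lit 553) (List.cons (nat_lit 51) (List.cons (nat_lit 643) (List.cons (nat_lit 529) List.nil))))))))))))) (nat_lit 3) (nat_lit 0)))) (BT.node (BT.leaf (Hd.mk (List.cons (nat_lit 3969) (List.cons (nat_lit 195) (List.cons (nat_lit 165) (List.cons (nat_lit 137) (List.cons (nat_lit 145) List.nil))))) (nat_lit 3) (nat_lit 0))) (BT.leaf (Hd.mk (List.cons (nat_lit 3841) (List.cons (nat_lit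 2273) (List.cons (nat_lit 1053) (List.cons (nat_lit 2055) (List.cons (nat_lit 2057) (List.cons (nat_lit 2065) (List.cons (nat_lit 1059) (List.cons (nat_lit 1089) (List.cons (nat_lit 1153) List.nil))))))))) (nat_lit 3) (nat_lit 0)))))) (BT.node (BT.node (BT.node (BT.leaf (Hd.mk (List.cons (nat_lit 3969) (List.cons (nat_lit 2161) (List.cons (nat_lit 2059) (List.cons (nat_lit 2053) (List.cons (nat_lit 145) (List.cons (nat_lit 195) (List.cons (nat_lit 141) (List.cons (nat_lit 161) (List.cons (nat_lit 329) (List.cons (nat_lit 581) (List.cons (nat_lit 1089) List.nil))))))))))) (nat_lit 3) (nat_lit 0))) (BT.leaf (Hd.mk (List.cons (nat_lit 3841) (List.cons (nat_lit 2273) (List.cons (nat_lit 2077) (List.cons (nat_lit 1171) (List.cons (nat_lit 2051) (List.cons (nat_lit 645) (List.cons (nat_lit 393) (List.cons (nat_lit 1093) (List.cons (nat_lit 1065) (List.cons (nat_lit 263) (List.cons (nat_lit 37) (List.cons (nat_lit 35) (List.cons (nat_lit 289) (List.cons (nat_lit 561) (List.cons (nat_lit 337) (List.cons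 (nat_lit 523) (List.cons (nat_lit 67) (List.cons (nat_lit 73) (List.cons (nat_lit 577) (List.cons (nat_lit 2192) (List.cons (nat_lit 3088) (List.cons (nat_lit 2432) List.nil)))))))))))))))))))))) (nat_lit 3) (nat_lit 248)))) (BT.node (BT.leaf (Hd.mk (List.cons (nat_lit 3969) (List.cons (nat_lit 195) (List.cons (nat_lit 165) (List.cons (nat_lit 137) (List.cons (nat_lit 145) (List.cons (nat_lit 291) (List.cons (nat_lit 531) (List.cons (nat_lit 1031) (List.cons (nat_lit 11) (List.cons (nat_lit 2051) (List.cons (nat_lit 525) (List.cons (nat_lit 545) (List.cons (nat_lit 577) List.nil))))))))))))) (nat_lit 3) (nat_lit 0))) (BT.leaf (Hd.mk (List.cons (nat_lit 3841) (List.cons (nat_lit 2273) (List.cons (nat_lit 1177) (List.cons (nat_lit 2061) (List.cons (nat_lit 2067) (List.cons (nat_lit 1057) (List.cons (nat_lit 1027) (List.cons (nat_lit 1029) (List.cons (nat_lit 1089) (List.cons (nat_lit 389) (List.cons (nat_lit 131) (List.cons (nat_lit 641) (List.cons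
  (nat_lit 337) List.nil))))))))))))) (nat_lit 3) (nat_lit 0))))) (BT.node (BT.node (BT.leaf (Hd.mk (List.cons (nat_lit 3969) (List.cons (nat_lit 195) (List.cons (nat_lit 165) (List.cons (nat_lit 153) (List.cons (nat_lit 291) (List.cons (nat_lit 329) (List.cons (nat_lit 261) (List.cons (nat_lit 273) (List.cons (nat_lit 523) (List.cons (nat_lit 1027) (List.cons (nat_lit 23) (List.cons (nat_lit 2051) (List.cons (nat_lit 517) (List.cons (nat_lit 2061) List.nil)))))))))))))) (nat_lit 3) (nat_lit 0))) (BT.leaf (Hd.mk (List.cons (nat_lit 3841) (List.cons (nat_lit 2273) (List.cons (nat_lit 2077) (List.cons (nat_lit 2051) (List.cons (nat_lit 1061) (List.cons (nat_lit 69) (List.cons (nat_lit 261) (List.cons (nat_lit 7) (List.cons (nat_lit 133) (List.cons (nat_lit 517) List.nil)))))))))) (nat_lit 3) (nat_lit 0)))) (BT.leaf (Hd.mk (List.cons (nat_lit 3841) (List.cons (nat_lit 2273) (List.cons (nat_lit 2077) (List.cons (nat_lit 1171) (List.cons (nat_lit 2051) (List.cons (nat_lit 645) (List.cons (nat_lit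 393) (List.cons (nat_lit 1093) (List.cons (nat_lit 1065) (List.cons (nat_lit 263) (List.cons (nat_lit 37) (List.cons (nat_lit 35) (List.cons (nat_lit 289) (List.cons (nat_lit 561) (List.cons (nat_lit 337) (List.cons (nat_lit 523) (List.cons (nat_lit 67) (List.cons (nat_lit 73) (List.cons (nat_lit 577) (List.cons (nat_lit 2704) (List.cons (nat_lit 2320) (List.cons (nat_lit 2066) (List.cons (nat_lit 3120) (List.cons (nat_lit 2128) (List.cons (nat_lit 3200) (List.cons (nat_lit 3076) (List.cons (nat_lit 2184) (List.cons (nat_lit 1300) (List.cons (nat_lit 148) (List.cons (nat_lit 1408) (List.cons (nat_lit 52) (List.cons (nat_lit 1312) (List.cons (nat_lit 208) (List.cons (nat_lit 152) (List.cons (nat_lit 176) (List.cons (nat_lit 400) List.nil)))))))))))))))))))))))))))))))))))) (nat_lit 3) (nat_lit 248)))))))) (BT.node (BT.node (BT.node (BT.node (BT.node (BT.node (BT.leaf (Hd.mk (List.cons (nat_lit 3969) (List.cons (nat_lit 2169) (List.cons (nat_lit 2055) (List.cons (nat_lit 141) (List.cons (nat_lit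 267) (List.cons (nat_lit 521) (List.cons (nat_lit 1033) (List.cons (nat_lit 145) (List.cons (nat_lit 273) (List.cons (nat_lit 163) (List.cons (nat_lit 193) List.nil))))))))))) (nat_lit 3) (nat_lit 0))) (BT.leaf (Hd.mk (List.cons (nat_lit 3841) (List.cons (nat_lit 2273) (List.cons (nat_lit 2077) (List.cons (nat_lit 1171) (List.cons (nat_lit 2051) (List.cons (nat_lit 645) (List.cons (nat_lit 393) (List.cons (nat_lit 1093) (List.cons (nat_lit 1065) (List.cons (nat_lit 263) (List.cons (nat_lit 37) (List.cons (nat_lit 35) (List.cons (nat_lit 289) (List.cons (nat_lit 561) (List.cons (nat_lit 337) (List.cons (nat_lit 523) (List.cons (nat_lit 67) (List.cons (nat_lit 73) (List.cons (nat_lit 577) (List.cons (nat_lit 2704) (List.cons (nat_lit 2320) (List.cons (nat_lit 2066) (List.cons (nat_lit 2096) (List.cons (nat_lit 2128) (List.cons (nat_lit 3088) (List.cons (nat_lit 208) (List.cons (nat_lit 152) (List.cons (nat_lit 2184) (List.cons (nat_lit 3200) (List.cons (nat_lit 2568) (List.cons (nat_lit 2624)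 List.nil))))))))))))))))))))))))))))))) (nat_lit 3) (nat_lit 248)))) (BT.node (BT.leaf (Hd.mk (List.cons (nat_lit 3969) (List.cons (nat_lit 195) (List.cons (nat_lit 165) (List.cons (nat_lit 153) (List.cons (nat_lit 291) (List.cons (nat_lit 329) (List.cons (nat_lit 261) (List.cons (nat_lit 273) (List.cons (nat_lit 515) (List.cons (nat_lit 525) (List.cons (nat_lit 2059) (List.cons (nat_lit 1065) List.nil)))))))))))) (nat_lit 3) (nat_lit 0))) (BT.leaf (Hd.mk (List.cons (nat_lit 3841) (List.cons (nat_lit 2273) (List.cons (nat_lit 1177) (List.cons (nat_lit 597) (List.cons (nat_lit 2067) (List.cons (nat_lit 2061) (List.cons (nat_lit 305) (List.cons (nat_lit 1089) (List.cons (nat_lit 641) (List.cons (nat_lit 323) (List.cons (nat_lit 73) (List.cons (nat_lit 265) (List.cons (nat_lit 131) (List.cons (nat_lit 389) List.nil)))))))))))))) (nat_lit 3) (nat_lit 0))))) (BT.node (BT.node (BT.leaf (Hd.mk (List.cons (nat_lit 3969) (List.cons (nat_lit 2161) (List.cons (nat_lit 2059)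
  (List.cons (nat_lit 2053) (List.cons (nat_lit 145) (List.cons (nat_lit 135) (List.cons (nat_lit 161) (List.cons (nat_lit 137) List.nil)))))))) (nat_lit 3) (nat_lit 0))) (BT.leaf (Hd.mk (List.cons (nat_lit 3841) (List.cons (nat_lit 2273) (List.cons (nat_lit 2077) (List.cons (nat_lit 1171) (List.cons (nat_lit 2051) (List.cons (nat_lit 645) (List.cons (nat_lit 137) (List.cons (nat_lit 385) (List.cons (nat_lit 1029) (List.cons (nat_lit 1057) (List.cons (nat_lit 1033) (List.cons (nat_lit 1089) List.nil)))))))))))) (nat_lit 3) (nat_lit 0)))) (BT.node (BT.leaf (Hd.mk (List.cons (nat_lit 3969) (List.cons (nat_lit 195) (List.cons (nat_lit 165) (List.cons (nat_lit 137) (List.cons (nat_lit 145) (List.cons (nat_lit 291) (List.cons (nat_lit 515) (List.cons (nat_lit 1027) (List.cons (nat_lit 23) List.nil))))))))) (nat_lit 3) (nat_lit 0))) (BT.leaf (Hd.mk (List.cons (nat_lit 3841) (List.cons (nat_lit 2273) (List.cons (nat_lit 1177) (List.cons (nat_lit 2061) (List.cons (nat_lit 2051) (List.cons (nat_lit 2065)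 (List.cons (nat_lit 1061) (List.cons (nat_lit 1027) (List.cons (nat_lit 1089) (List.cons (nat_lit 385) (List.cons (nat_lit 135) (List.cons (nat_lit 641) List.nil)))))))))))) (nat_lit 3) (nat_lit 0)))))) (BT.node (BT.node (BT.node (BT.leaf (Hd.mk (List.cons (nat_lit 3969) (List.cons (nat_lit 2161) (List.cons (nat_lit 2059) (List.cons (nat_lit 2053) (List.cons (nat_lit 153) (List.cons (nat_lit 277) (List.cons (nat_lit 531) (List.cons (nat_lit 1041) (List.cons (nat_lit 323) (List.cons (nat_lit 265) (List.cons (nat_lit 289) List.nil))))))))))) (nat_lit 3) (nat_lit 0))) (BT.leaf (Hd.mk (List.cons (nat_lit 3841) (List.cons (nat_lit 2273) (List.cons (nat_lit 2077) (List.cons (nat_lit 1171) (List.cons (nat_lit 2051) (List.cons (nat_lit 645) (List.cons (nat_lit 393) (List.cons (nat_lit 1093) (List.cons (nat_lit 1065) (List.cons (nat_lit 263) (List.cons (nat_lit 37) (List.cons (nat_lit 35) (List.cons (nat_lit 289) (List.cons (nat_lit 561) (List.cons (nat_lit 337) (List.cons (nat_lit 523) (List.cons (nat_lit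 67) (List.cons (nat_lit 73) (List.cons (nat_lit 577) (List.cons (nat_lit 2192) (List.cons (nat_lit 3088) (List.cons (nat_lit 2436) (List.cons (nat_lit 3200) (List.cons (nat_lit 2178) (List.cons (nat_lit 2184) (List.cons (nat_lit 2688) (List.cons (nat_lit 148) List.nil))))))))))))))))))))))))))) (nat_lit 3) (nat_lit 248)))) (BT.node (BT.leaf (Hd.mk (List.cons (nat_lit 3969) (List.cons (nat_lit 195) (List.cons (nat_lit 165) (List.cons (nat_lit 153) (List.cons (nat_lit 291) (List.cons (nat_lit 265) (List.cons (nat_lit 261) (List.cons (nat_lit 273) (List.cons (nat_lit 321) (List.cons (nat_lit 531) (List.cons (nat_lit 1031) List.nil))))))))))) (nat_lit 3) (nat_lit 0))) (BT.leaf (Hd.mk (List.cons (nat_lit 3841) (List.cons (nat_lit 2273) (List.cons (nat_lit 1177) (List.cons (nat_lit 2061) (List.cons (nat_lit 2067) (List.cons (nat_lit 1061) (List.cons (nat_lit 1091) (List.cons (nat_lit 73) (List.cons (nat_lit 267) (List.cons (nat_lit 35) (List.cons (nat_lit 41) (List.cons (nat_lit 521) List.nil))))))))))))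 (nat_lit 3) (nat_lit 0))))) (BT.node (BT.node (BT.leaf (Hd.mk (List.cons (nat_lit 3969) (List.cons (nat_lit 195) (List.cons (nat_lit 165) (List.cons (nat_lit 153) (List.cons (nat_lit 291) (List.cons (nat_lit 329) (List.cons (nat_lit 277) (List.cons (nat_lit 19) (List.cons (nat_lit 523) (List.cons (nat_lit 1031) (List.cons (nat_lit 2051) List.nil))))))))))) (nat_lit 3) (nat_lit 0))) (BT.leaf (Hd.mk (List.cons (nat_lit 3841) (List.cons (nat_lit 2273) (List.cons (nat_lit 2077) (List.cons (nat_lit 2051) (List.cons (nat_lit 1061) (List.cons (nat_lit 581) (List.cons (nat_lit 7) (List.cons (nat_lit 389) (List.cons (nat_lit 553) (List.cons (nat_lit 35) (List.cons (nat_lit 305) (List.cons (nat_lit 259) (List.cons (nat_lit 265) (List.cons (nat_lit 321) List.nil)))))))))))))) (nat_lit 3) (nat_lit 0)))) (BT.node (BT.leaf (Hd.mk (List.cons (nat_lit 3969) (List.cons (nat_lit 195) (List.cons (nat_lit 133) List.nil))) (nat_lit 3) (nat_lit 0))) (BT.leaf (Hd.mk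
  (List.cons (nat_lit 3841) (List.cons (nat_lit 2273) List.nil)) (nat_lit 4) (nat_lit 0))))))) (BT.node (BT.node (BT.node (BT.node (BT.leaf (Hd.mk (List.cons (nat_lit 3969) (List.cons (nat_lit 2169) (List.cons (nat_lit 2051) (List.cons (nat_lit 2053) (List.cons (nat_lit 137) (List.cons (nat_lit 265) (List.cons (nat_lit 521) (List.cons (nat_lit 15) (List.cons (nat_lit 1033) (List.cons (nat_lit 149) List.nil)))))))))) (nat_lit 3) (nat_lit 0))) (BT.leaf (Hd.mk (List.cons (nat_lit 3841) (List.cons (nat_lit 2273) (List.cons (nat_lit 2077) (List.cons (nat_lit 1171) (List.cons (nat_lit 2051) (List.cons (nat_lit 645) (List.cons (nat_lit 393) (List.cons (nat_lit 1093) (List.cons (nat_lit 1065) (List.cons (nat_lit 263) (List.cons (nat_lit 37) (List.cons (nat_lit 35) (List.cons (nat_lit 289) (List.cons (nat_lit 561) (List.cons (nat_lit 337) (List.cons (nat_lit 523) (List.cons (nat_lit 67) (List.cons (nat_lit 73) (List.cons (nat_lit 577) (List.cons (nat_lit 2192) (List.cons (nat_lit 3152) (List.cons (nat_lit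 2576) (List.cons (nat_lit 1552) (List.cons (nat_lit 1048) (List.cons (nat_lit 3080) (List.cons (nat_lit 3200) (List.cons (nat_lit 720) (List.cons (nat_lit 152) (List.cons (nat_lit 536) (List.cons (nat_lit 1216) List.nil)))))))))))))))))))))))))))))) (nat_lit 3) (nat_lit 248)))) (BT.node (BT.leaf (Hd.mk (List.cons (nat_lit 3969) (List.cons (nat_lit 195) (List.cons (nat_lit 165) (List.cons (nat_lit 153) (List.cons (nat_lit 291) (List.cons (nat_lit 265) (List.cons (nat_lit 325) (List.cons (nat_lit 273) (List.cons (nat_lit 531) (List.cons (nat_lit 525) (List.cons (nat_lit 545) (List.cons (nat_lit 577) (List.cons (nat_lit 2055) (List.cons (nat_lit 1035) (List.cons (nat_lit 21) (List.cons (nat_lit 1029) List.nil)))))))))))))))) (nat_lit 3) (nat_lit 0))) (BT.leaf (Hd.mk (List.cons (nat_lit 3841) (List.cons (nat_lit 2273) (List.cons (nat_lit 1177) (List.cons (nat_lit 583) (List.cons (nat_lit 1089) (List.cons (nat_lit 641) (List.cons (nat_lit 387) (List.cons (nat_lit 133) (List.cons (nat_lit 1027) List.nil)))))))))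 (nat_lit 3) (nat_lit 0))))) (BT.node (BT.node (BT.leaf (Hd.mk (List.cons (nat_lit 3969) (List.cons (nat_lit 121) (List.cons (nat_lit 141) (List.cons (nat_lit 265) List.nil)))) (nat_lit 3) (nat_lit 0))) (BT.leaf (Hd.mk (List.cons (nat_lit 3841) (List.cons (nat_lit 2273) (List.cons (nat_lit 2077) (List.cons (nat_lit 2051) (List.cons (nat_lit 1061) (List.cons (nat_lit 581) (List.cons (nat_lit 263) (List.cons (nat_lit 133) (List.cons (nat_lit 305) (List.cons (nat_lit 321) (List.cons (nat_lit 265) (List.cons (nat_lit 385) (List.cons (nat_lit 35) (List.cons (nat_lit 553) List.nil)))))))))))))) (nat_lit 3) (nat_lit 0)))) (BT.node (BT.leaf (Hd.mk (List.cons (nat_lit 3969) (List.cons (nat_lit 195) (List.cons (nat_lit 165) (List.cons (nat_lit 137) (List.cons (nat_lit 145) (List.cons (nat_lit 275) List.nil)))))) (nat_lit 3) (nat_lit 0))) (BT.leaf (Hd.mk (List.cons (nat_lit 3841) (List.cons (nat_lit 2273) (List.cons (nat_lit 1053) (List.cons (nat_lit 2055) (List.cons (nat_lit 2057) (List.cons (nat_lit 2065)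 (List.cons (nat_lit 1059) (List.cons (nat_lit 1089) (List.cons (nat_lit 1153) (List.cons (nat_lit 549) List.nil)))))))))) (nat_lit 3) (nat_lit 0)))))) (BT.node (BT.node (BT.node (BT.leaf (Hd.mk (List.cons (nat_lit 3969) (List.cons (nat_lit 2161) (List.cons (nat_lit 2059) (List.cons (nat_lit 2053) (List.cons (nat_lit 149) (List.cons (nat_lit 195) (List.cons (nat_lit 137) (List.cons (nat_lit 161) List.nil)))))))) (nat_lit 3) (nat_lit 0))) (BT.leaf (Hd.mk (List.cons (nat_lit 3841) (List.cons (nat_lit 2273) (List.cons (nat_lit 2077) (List.cons (nat_lit 1171) (List.cons (nat_lit 2051) (List.cons (nat_lit 645) (List.cons (nat_lit 393) (List.cons (nat_lit 1093) (List.cons (nat_lit 1065) (List.cons (nat_lit 263) (List.cons (nat_lit 37) (List.cons (nat_lit 35) (List.cons (nat_lit 289) (List.cons (nat_lit 561) (List.cons (nat_lit 337) (List.cons (nat_lit 523) (List.cons (nat_lit 67) (List.cons (nat_lit 73) (List.cons (nat_lit 577) (List.cons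
  (nat_lit 2192) (List.cons (nat_lit 3088) (List.cons (nat_lit 2432) (List.cons (nat_lit 2180) (List.cons (nat_lit 3208) (List.cons (nat_lit 2178) (List.cons (nat_lit 2688) (List.cons (nat_lit 3136) (List.cons (nat_lit 2568) List.nil)))))))))))))))))))))))))))) (nat_lit 3) (nat_lit 248)))) (BT.node (BT.leaf (Hd.mk (List.cons (nat_lit 3969) (List.cons (nat_lit 195) (List.cons (nat_lit 165) (List.cons (nat_lit 137) (List.cons (nat_lit 145) (List.cons (nat_lit 291) (List.cons (nat_lit 531) (List.cons (nat_lit 1035) (List.cons (nat_lit 7) (List.cons (nat_lit 2051) (List.cons (nat_lit 517) (List.cons (nat_lit 1045) (List.cons (nat_lit 1121) (List.cons (nat_lit 545) (List.cons (nat_lit 585) List.nil))))))))))))))) (nat_lit 3) (nat_lit 0))) (BT.leaf (Hd.mk (List.cons (nat_lit 3841) (List.cons (nat_lit 2273) (List.cons (nat_lit 1177) (List.cons (nat_lit 2061) (List.cons (nat_lit 2067) (List.cons (nat_lit 1057) (List.cons (nat_lit 1031) (List.cons (nat_lit 1089) List.nil)))))))) (nat_lit 3) (nat_lit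 0))))) (BT.node (BT.node (BT.leaf (Hd.mk (List.cons (nat_lit 3969) (List.cons (nat_lit 195) (List.cons (nat_lit 165) (List.cons (nat_lit 153) (List.cons (nat_lit 291) (List.cons (nat_lit 329) (List.cons (nat_lit 261) (List.cons (nat_lit 273) (List.cons (nat_lit 523) (List.cons (nat_lit 1031) (List.cons (nat_lit 19) (List.cons (nat_lit 2051) (List.cons (nat_lit 2061) (List.cons (nat_lit 1065) (List.cons (nat_lit 1105) List.nil))))))))))))))) (nat_lit 3) (nat_lit 0))) (BT.leaf (Hd.mk (List.cons (nat_lit 3841) (List.cons (nat_lit 2273) (List.cons (nat_lit 2077) (List.cons (nat_lit 2051) (List.cons (nat_lit 1061) (List.cons (nat_lit 71) (List.cons (nat_lit 261) List.nil))))))) (nat_lit 3) (nat_lit 0)))) (BT.leaf (Hd.mk (List.cons (nat_lit 3841) (List.cons (nat_lit 2273) (List.cons (nat_lit 2077) (List.cons (nat_lit 1171) (List.cons (nat_lit 2051) (List.cons (nat_lit 645) (List.cons (nat_lit 393) (List.cons (nat_lit 1093) (List.cons (nat_lit 1065) (List.cons (nat_lit 263) (List.cons (nat_lit 37)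 (List.cons (nat_lit 35) (List.cons (nat_lit 289) (List.cons (nat_lit 561) (List.cons (nat_lit 337) (List.cons (nat_lit 523) (List.cons (nat_lit 67) (List.cons (nat_lit 73) (List.cons (nat_lit 577) (List.cons (nat_lit 2704) (List.cons (nat_lit 2320) (List.cons (nat_lit 2130) (List.cons (nat_lit 2096) (List.cons (nat_lit 3088) (List.cons (nat_lit 3136) (List.cons (nat_lit 22) List.nil)))))))))))))))))))))))))) (nat_lit 3) (nat_lit 248))))))) (BT.node (BT.node (BT.node (BT.node (BT.node (BT.leaf (Hd.mk (List.cons (nat_lit 3969) (List.cons (nat_lit 2169) (List.cons (nat_lit 2055) (List.cons (nat_lit 137) (List.cons (nat_lit 265) (List.cons (nat_lit 11) (List.cons (nat_lit 521) (List.cons (nat_lit 13) (List.cons (nat_lit 1033) (List.cons (nat_lit 149) List.nil)))))))))) (nat_lit 3) (nat_lit 0))) (BT.leaf (Hd.mk (List.cons (nat_lit 3841) (List.cons (nat_lit 2273) (List.cons (nat_lit 2077) (List.cons (nat_lit 1171) (List.cons (nat_lit 2051) (List.cons (nat_lit 645) (List.cons (nat_lit 393) (List.cons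 (nat_lit 1093) (List.cons (nat_lit 1065) (List.cons (nat_lit 263) (List.cons (nat_lit 37) (List.cons (nat_lit 35) (List.cons (nat_lit 289) (List.cons (nat_lit 561) (List.cons (nat_lit 337) (List.cons (nat_lit 523) (List.cons (nat_lit 67) (List.cons (nat_lit 73) (List.cons (nat_lit 577) (List.cons (nat_lit 2192) (List.cons (nat_lit 3152) (List.cons (nat_lit 2576) (List.cons (nat_lit 1560) (List.cons (nat_lit 152) (List.cons (nat_lit 1664) (List.cons (nat_lit 88) (List.cons (nat_lit 1600) (List.cons (nat_lit 3080) (List.cons (nat_lit 3200) (List.cons (nat_lit 720) (List.cons (nat_lit 2696) (List.cons (nat_lit 1224) (List.cons (nat_lit 1296) (List.cons (nat_lit 1044) (List.cons (nat_lit 1072) (List.cons (nat_lit 2122) (List.cons (nat_lit 2624) List.nil))))))))))))))))))))))))))))))))))))) (nat_lit 3) (nat_lit 248)))) (BT.node (BT.leaf (Hd.mk (List.cons (nat_lit 3969) (List.cons (nat_lit 195) (List.cons (nat_lit 165) (List.cons (nat_lit 153) (List.cons (nat_lit 291)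
  (List.cons (nat_lit 329) (List.cons (nat_lit 261) (List.cons (nat_lit 273) List.nil)))))))) (nat_lit 3) (nat_lit 0))) (BT.leaf (Hd.mk (List.cons (nat_lit 3841) (List.cons (nat_lit 2273) (List.cons (nat_lit 1177) (List.cons (nat_lit 597) (List.cons (nat_lit 2067) (List.cons (nat_lit 2061) (List.cons (nat_lit 49) (List.cons (nat_lit 273) List.nil)))))))) (nat_lit 3) (nat_lit 0))))) (BT.node (BT.node (BT.leaf (Hd.mk (List.cons (nat_lit 3969) (List.cons (nat_lit 2161) (List.cons (nat_lit 2051) (List.cons (nat_lit 2053) (List.cons (nat_lit 2057) (List.cons (nat_lit 153) (List.cons (nat_lit 273) (List.cons (nat_lit 529) List.nil)))))))) (nat_lit 3) (nat_lit 0))) (BT.leaf (Hd.mk (List.cons (nat_lit 3841) (List.cons (nat_lit 2273) (List.cons (nat_lit 2077) (List.cons (nat_lit 2051) (List.cons (nat_lit 1061) (List.cons (nat_lit 581) (List.cons (nat_lit 263) (List.cons (nat_lit 133) (List.cons (nat_lit 305) (List.cons (nat_lit 329) (List.cons (nat_lit 385) (List.cons (nat_lit 35) (List.cons (nat_lit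 553) List.nil))))))))))))) (nat_lit 3) (nat_lit 0)))) (BT.node (BT.leaf (Hd.mk (List.cons (nat_lit 3969) (List.cons (nat_lit 195) (List.cons (nat_lit 165) (List.cons (nat_lit 137) (List.cons (nat_lit 145) (List.cons (nat_lit 275) (List.cons (nat_lit 261) (List.cons (nat_lit 329) (List.cons (nat_lit 289) (List.cons (nat_lit 547) (List.cons (nat_lit 1035) (List.cons (nat_lit 7) (List.cons (nat_lit 2051) List.nil))))))))))))) (nat_lit 3) (nat_lit 0))) (BT.leaf (Hd.mk (List.cons (nat_lit 3841) (List.cons (nat_lit 2273) (List.cons (nat_lit 1177) (List.cons (nat_lit 2061) (List.cons (nat_lit 2051) (List.cons (nat_lit 2065) (List.cons (nat_lit 1057) (List.cons (nat_lit 1031) (List.cons (nat_lit 1089) (List.cons (nat_lit 643) List.nil)))))))))) (nat_lit 3) (nat_lit 0)))))) (BT.node (BT.node (BT.node (BT.leaf (Hd.mk (List.cons (nat_lit 3969) (List.cons (nat_lit 2161) (List.cons (nat_lit 2059) (List.cons (nat_lit 2053) (List.cons (nat_lit 153) (List.cons (nat_lit 275) (List.cons (nat_lit 529) (List.cons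 (nat_lit 21) (List.cons (nat_lit 1041) (List.cons (nat_lit 165) (List.cons (nat_lit 195) List.nil))))))))))) (nat_lit 3) (nat_lit 0))) (BT.leaf (Hd.mk (List.cons (nat_lit 3841) (List.cons (nat_lit 2273) (List.cons (nat_lit 2077) (List.cons (nat_lit 1171) (List.cons (nat_lit 2051) (List.cons (nat_lit 645) (List.cons (nat_lit 393) (List.cons (nat_lit 1093) (List.cons (nat_lit 1065) (List.cons (nat_lit 263) (List.cons (nat_lit 37) (List.cons (nat_lit 35) (List.cons (nat_lit 289) (List.cons (nat_lit 561) (List.cons (nat_lit 337) (List.cons (nat_lit 523) (List.cons (nat_lit 67) (List.cons (nat_lit 73) (List.cons (nat_lit 577) (List.cons (nat_lit 2192) (List.cons (nat_lit 3088) (List.cons (nat_lit 2432) (List.cons (nat_lit 3204) (List.cons (nat_lit 3106) (List.cons (nat_lit 3080) (List.cons (nat_lit 3136) (List.cons (nat_lit 2096) List.nil))))))))))))))))))))))))))) (nat_lit 3) (nat_lit 248)))) (BT.node (BT.leaf (Hd.mk (List.cons (nat_lit 3969) (List.cons (nat_lit 195) (List.cons (nat_lit 165) (List.cons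 (nat_lit 153) (List.cons (nat_lit 259) (List.cons (nat_lit 261) (List.cons (nat_lit 265) (List.cons (nat_lit 273) (List.cons (nat_lit 289) (List.cons (nat_lit 321) (List.cons (nat_lit 547) List.nil))))))))))) (nat_lit 3) (nat_lit 0))) (BT.leaf (Hd.mk (List.cons (nat_lit 3841) (List.cons (nat_lit 2273) (List.cons (nat_lit 1177) (List.cons (nat_lit 2061) (List.cons (nat_lit 2067) (List.cons (nat_lit 1057) (List.cons (nat_lit 1031) (List.cons (nat_lit 1089) (List.cons (nat_lit 643) (List.cons (nat_lit 389) (List.cons (nat_lit 291) List.nil))))))))))) (nat_lit 3) (nat_lit 0))))) (BT.node (BT.node (BT.leaf (Hd.mk (List.cons (nat_lit 3969) (List.cons (nat_lit 195) (List.cons (nat_lit 165) (List.cons (nat_lit 153) (List.cons (nat_lit 291) (List.cons (nat_lit 329) (List.cons (nat_lit 261) (List.cons (nat_lit 273) (List.cons (nat_lit 531) (List.cons (nat_lit 1035) (List.cons (nat_lit 2055) (List.cons (nat_lit 13) (List.cons (nat_lit 581) (List.cons (nat_lit 1045)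
  (List.cons (nat_lit 521) (List.cons (nat_lit 545) List.nil)))))))))))))))) (nat_lit 3) (nat_lit 0))) (BT.leaf (Hd.mk (List.cons (nat_lit 3841) (List.cons (nat_lit 2273) (List.cons (nat_lit 2077) (List.cons (nat_lit 2051) (List.cons (nat_lit 1061) (List.cons (nat_lit 581) (List.cons (nat_lit 7) (List.cons (nat_lit 389) (List.cons (nat_lit 43) (List.cons (nat_lit 265) List.nil)))))))))) (nat_lit 3) (nat_lit 0)))) (BT.leaf (Hd.mk (List.cons (nat_lit 3841) (List.cons (nat_lit 2273) (List.cons (nat_lit 2077) (List.cons (nat_lit 1171) (List.cons (nat_lit 2051) (List.cons (nat_lit 645) (List.cons (nat_lit 393) (List.cons (nat_lit 1093) (List.cons (nat_lit 1065) (List.cons (nat_lit 263) (List.cons (nat_lit 37) (List.cons (nat_lit 35) (List.cons (nat_lit 289) (List.cons (nat_lit 561) (List.cons (nat_lit 337) (List.cons (nat_lit 523) (List.cons (nat_lit 67) (List.cons (nat_lit 73) (List.cons (nat_lit 577) (List.cons (nat_lit 2704) (List.cons (nat_lit 2352) (List.cons (nat_lit 2130) (List.cons (nat_lit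 3088) List.nil))))))))))))))))))))))) (nat_lit 3) (nat_lit 248)))))) (BT.node (BT.node (BT.node (BT.node (BT.leaf (Hd.mk (List.cons (nat_lit 3969) (List.cons (nat_lit 2161) (List.cons (nat_lit 1101) (List.cons (nat_lit 555) (List.cons (nat_lit 2057) (List.cons (nat_lit 1057) (List.cons (nat_lit 577) (List.cons (nat_lit 1043) (List.cons (nat_lit 2055) (List.cons (nat_lit 195) (List.cons (nat_lit 259) (List.cons (nat_lit 321) List.nil)))))))))))) (nat_lit 3) (nat_lit 0))) (BT.leaf (Hd.mk (List.cons (nat_lit 3841) (List.cons (nat_lit 2273) (List.cons (nat_lit 2077) (List.cons (nat_lit 1171) (List.cons (nat_lit 2051) (List.cons (nat_lit 645) (List.cons (nat_lit 393) (List.cons (nat_lit 1093) (List.cons (nat_lit 1065) (List.cons (nat_lit 263) (List.cons (nat_lit 37) (List.cons (nat_lit 35) (List.cons (nat_lit 289) (List.cons (nat_lit 561) (List.cons (nat_lit 337) (List.cons (nat_lit 523) (List.cons (nat_lit 67) (List.cons (nat_lit 73) (List.cons (nat_lit 577) (List.cons (nat_lit 2192) (List.cons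 (nat_lit 3088) (List.cons (nat_lit 2436) (List.cons (nat_lit 3208) (List.cons (nat_lit 1408) (List.cons (nat_lit 3076) (List.cons (nat_lit 2690) List.nil)))))))))))))))))))))))))) (nat_lit 3) (nat_lit 248)))) (BT.node (BT.leaf (Hd.mk (List.cons (nat_lit 3969) (List.cons (nat_lit 195) (List.cons (nat_lit 165) (List.cons (nat_lit 153) (List.cons (nat_lit 291) (List.cons (nat_lit 265) (List.cons (nat_lit 325) (List.cons (nat_lit 273) (List.cons (nat_lit 531) List.nil))))))))) (nat_lit 3) (nat_lit 0))) (BT.leaf (Hd.mk (List.cons (nat_lit 3841) (List.cons (nat_lit 2273) (List.cons (nat_lit 1177) (List.cons (nat_lit 2061) (List.cons (nat_lit 2067) (List.cons (nat_lit 1061) (List.cons (nat_lit 1091) (List.cons (nat_lit 585) (List.cons (nat_lit 11) (List.cons (nat_lit 297) (List.cons (nat_lit 35) (List.cons (nat_lit 49) (List.cons (nat_lit 545) List.nil))))))))))))) (nat_lit 3) (nat_lit 0))))) (BT.node (BT.node (BT.leaf (Hd.mk (List.cons (nat_lit 3969) (List.cons (nat_lit 195) (List.cons (nat_lit 165)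 (List.cons (nat_lit 153) (List.cons (nat_lit 291) (List.cons (nat_lit 329) (List.cons (nat_lit 277) (List.cons (nat_lit 2067) (List.cons (nat_lit 523) (List.cons (nat_lit 1031) (List.cons (nat_lit 13) (List.cons (nat_lit 517) (List.cons (nat_lit 2117) (List.cons (nat_lit 1033) (List.cons (nat_lit 2089) (List.cons (nat_lit 593) (List.cons (nat_lit 545) List.nil))))))))))))))))) (nat_lit 3) (nat_lit 0))) (BT.leaf (Hd.mk (List.cons (nat_lit 3841) (List.cons (nat_lit 2273) (List.cons (nat_lit 2077) (List.cons (nat_lit 2051) (List.cons (nat_lit 1061) (List.cons (nat_lit 581) (List.cons (nat_lit 263) (List.cons (nat_lit 133) (List.cons (nat_lit 289) (List.cons (nat_lit 553) (List.cons (nat_lit 35) (List.cons (nat_lit 49) (List.cons (nat_lit 515) (List.cons (nat_lit 657) List.nil)))))))))))))) (nat_lit 3) (nat_lit 0)))) (BT.node (BT.leaf (Hd.mk (List.cons (nat_lit 3969) (List.cons (nat_lit 195) (List.cons (nat_lit 133) (List.cons (nat_lit 137) (List.cons (nat_lit 145)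
  (List.cons (nat_lit 161) (List.cons (nat_lit 291) (List.cons (nat_lit 531) (List.cons (nat_lit 1027) (List.cons (nat_lit 15) (List.cons (nat_lit 2051) List.nil))))))))))) (nat_lit 3) (nat_lit 0))) (BT.leaf (Hd.mk (List.cons (nat_lit 3841) (List.cons (nat_lit 2273) (List.cons (nat_lit 1053) List.nil))) (nat_lit 4) (nat_lit 0)))))) (BT.node (BT.node (BT.node (BT.leaf (Hd.mk (List.cons (nat_lit 3969) (List.cons (nat_lit 2161) (List.cons (nat_lit 2059) (List.cons (nat_lit 2053) (List.cons (nat_lit 145) (List.cons (nat_lit 195) (List.cons (nat_lit 133) (List.cons (nat_lit 169) (List.cons (nat_lit 293) (List.cons (nat_lit 275) (List.cons (nat_lit 265) (List.cons (nat_lit 321) List.nil)))))))))))) (nat_lit 3) (nat_lit 0))) (BT.leaf (Hd.mk (List.cons (nat_lit 3841) (List.cons (nat_lit 2273) (List.cons (nat_lit 2077) (List.cons (nat_lit 1171) (List.cons (nat_lit 2051) (List.cons (nat_lit 645) (List.cons (nat_lit 393) (List.cons (nat_lit 1093) (List.cons (nat_lit 1065) (List.cons (nat_lit 7) (List.cons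 (nat_lit 37) (List.cons (nat_lit 261) (List.cons (nat_lit 523) List.nil))))))))))))) (nat_lit 3) (nat_lit 0)))) (BT.node (BT.leaf (Hd.mk (List.cons (nat_lit 3969) (List.cons (nat_lit 195) (List.cons (nat_lit 165) (List.cons (nat_lit 137) (List.cons (nat_lit 145) (List.cons (nat_lit 291) (List.cons (nat_lit 531) (List.cons (nat_lit 1027) (List.cons (nat_lit 15) (List.cons (nat_lit 2051) List.nil)))))))))) (nat_lit 3) (nat_lit 0))) (BT.leaf (Hd.mk (List.cons (nat_lit 3841) (List.cons (nat_lit 2273) (List.cons (nat_lit 1177) (List.cons (nat_lit 2061) (List.cons (nat_lit 2051) (List.cons (nat_lit 2065) (List.cons (nat_lit 1061) (List.cons (nat_lit 1027) (List.cons (nat_lit 1089) (List.cons (nat_lit 389) (List.cons (nat_lit 643) (List.cons (nat_lit 71) List.nil)))))))))))) (nat_lit 3) (nat_lit 0))))) (BT.node (BT.node (BT.leaf (Hd.mk (List.cons (nat_lit 3969) (List.cons (nat_lit 195) (List.cons (nat_lit 165) (List.cons (nat_lit 153) (List.cons (nat_lit 291) (List.cons (nat_lit 329) (List.cons (nat_lit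 261) (List.cons (nat_lit 273) (List.cons (nat_lit 519) (List.cons (nat_lit 553) (List.cons (nat_lit 593) (List.cons (nat_lit 2059) List.nil)))))))))))) (nat_lit 3) (nat_lit 0))) (BT.leaf (Hd.mk (List.cons (nat_lit 3841) (List.cons (nat_lit 2273) (List.cons (nat_lit 2077) (List.cons (nat_lit 2051) (List.cons (nat_lit 39) (List.cons (nat_lit 261) (List.cons (nat_lit 69) (List.cons (nat_lit 517) (List.cons (nat_lit 133) (List.cons (nat_lit 1029) (List.cons (nat_lit 305) (List.cons (nat_lit 553) (List.cons (nat_lit 1057) List.nil))))))))))))) (nat_lit 3) (nat_lit 0)))) (BT.leaf (Hd.mk (List.cons (nat_lit 3841) (List.cons (nat_lit 2273) (List.cons (nat_lit 2077) (List.cons (nat_lit 1171) (List.cons (nat_lit 2051) (List.cons (nat_lit 645) (List.cons (nat_lit 393) (List.cons (nat_lit 1093) (List.cons (nat_lit 1065) (List.cons (nat_lit 263) (List.cons (nat_lit 37) (List.cons (nat_lit 35) (List.cons (nat_lit 289) (List.cons (nat_lit 561) (List.cons (nat_lit 337) (List.cons (nat_lit 523) (List.cons (nat_lit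 67) (List.cons (nat_lit 73) (List.cons (nat_lit 577) (List.cons (nat_lit 2704) (List.cons (nat_lit 2320) (List.cons (nat_lit 2066) (List.cons (nat_lit 2096) (List.cons (nat_lit 2128) (List.cons (nat_lit 3088) (List.cons (nat_lit 216) (List.cons (nat_lit 536) (List.cons (nat_lit 1048) (List.cons (nat_lit 2568) (List.cons (nat_lit 1216) (List.cons (nat_lit 2184) (List.cons (nat_lit 3200) (List.cons (nat_lit 1552) (List.cons (nat_lit 1136) (List.cons (nat_lit 1044) (List.cons (nat_lit 1296) (List.cons (nat_lit 1664) (List.cons (nat_lit 648) (List.cons (nat_lit 1160) List.nil))))))))))))))))))))))))))))))))))))))) (nat_lit 3) (nat_lit 248))))))))) (BT.node (BT.node (BT.node (BT.node (BT.node (BT.node (BT.node (BT.leaf (Hd.mk (List.cons (nat_lit 3969) (List.cons (nat_lit 2169) (List.cons (nat_lit 2055) (List.cons (nat_lit 141) (List.cons (nat_lit 267) (List.cons (nat_lit 521) (List.cons (nat_lit 1033) (List.cons (nat_lit 147) (List.cons (nat_lit 161)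
  (List.cons (nat_lit 193) (List.cons (nat_lit 273) (List.cons (nat_lit 533) (List.cons (nat_lit 1041) List.nil))))))))))))) (nat_lit 3) (nat_lit 0))) (BT.leaf (Hd.mk (List.cons (nat_lit 3841) (List.cons (nat_lit 2273) (List.cons (nat_lit 2077) (List.cons (nat_lit 1171) (List.cons (nat_lit 2051) (List.cons (nat_lit 645) (List.cons (nat_lit 393) (List.cons (nat_lit 1093) (List.cons (nat_lit 1065) (List.cons (nat_lit 263) (List.cons (nat_lit 37) (List.cons (nat_lit 35) (List.cons (nat_lit 289) (List.cons (nat_lit 561) (List.cons (nat_lit 337) (List.cons (nat_lit 523) (List.cons (nat_lit 67) (List.cons (nat_lit 73) (List.cons (nat_lit 577) (List.cons (nat_lit 2704) (List.cons (nat_lit 2320) (List.cons (nat_lit 2066) (List.cons (nat_lit 2096) (List.cons (nat_lit 2128) (List.cons (nat_lit 3088) (List.cons (nat_lit 208) (List.cons (nat_lit 152) (List.cons (nat_lit 2184) (List.cons (nat_lit 3200) (List.cons (nat_lit 2632) (List.cons (nat_lit 3080) (List.cons (nat_lit 3136) (List.cons (nat_lit 536)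 (List.cons (nat_lit 1552) List.nil)))))))))))))))))))))))))))))))))) (nat_lit 3) (nat_lit 248)))) (BT.node (BT.leaf (Hd.mk (List.cons (nat_lit 3969) (List.cons (nat_lit 195) (List.cons (nat_lit 165) (List.cons (nat_lit 153) (List.cons (nat_lit 291) (List.cons (nat_lit 329) (List.cons (nat_lit 261) (List.cons (nat_lit 273) (List.cons (nat_lit 515) (List.cons (nat_lit 553) (List.cons (nat_lit 533) (List.cons (nat_lit 577) (List.cons (nat_lit 2067) List.nil))))))))))))) (nat_lit 3) (nat_lit 0))) (BT.leaf (Hd.mk (List.cons (nat_lit 3841) (List.cons (nat_lit 2273) (List.cons (nat_lit 1177) (List.cons (nat_lit 597) (List.cons (nat_lit 2067) (List.cons (nat_lit 2061) (List.cons (nat_lit 305) (List.cons (nat_lit 1091) (List.cons (nat_lit 1029) (List.cons (nat_lit 1057) (List.cons (nat_lit 37) (List.cons (nat_lit 73) (List.cons (nat_lit 321) List.nil))))))))))))) (nat_lit 3) (nat_lit 0))))) (BT.node (BT.node (BT.leaf (Hd.mk (List.cons (nat_lit 3969) (List.cons (nat_lit 2161) (List.cons (nat_lit 2059)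 (List.cons (nat_lit 2053) (List.cons (nat_lit 145) (List.cons (nat_lit 135) (List.cons (nat_lit 161) (List.cons (nat_lit 137) (List.cons (nat_lit 193) (List.cons (nat_lit 1043) (List.cons (nat_lit 547) List.nil))))))))))) (nat_lit 3) (nat_lit 0))) (BT.leaf (Hd.mk (List.cons (nat_lit 3841) (List.cons (nat_lit 2273) (List.cons (nat_lit 2077) (List.cons (nat_lit 1171) (List.cons (nat_lit 2051) (List.cons (nat_lit 645) (List.cons (nat_lit 137) (List.cons (nat_lit 385) (List.cons (nat_lit 1093) List.nil))))))))) (nat_lit 3) (nat_lit 0)))) (BT.node (BT.leaf (Hd.mk (List.cons (nat_lit 3969) (List.cons (nat_lit 195) (List.cons (nat_lit 165) (List.cons (nat_lit 137) (List.cons (nat_lit 145) (List.cons (nat_lit 291) (List.cons (nat_lit 519) (List.cons (nat_lit 1027) (List.cons (nat_lit 11) (List.cons (nat_lit 19) (List.cons (nat_lit 2051) List.nil))))))))))) (nat_lit 3) (nat_lit 0))) (BT.leaf (Hd.mk (List.cons (nat_lit 3841) (List.cons (nat_lit 2273) (List.cons (nat_lit 1177) (List.cons (nat_lit 2061)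 (List.cons (nat_lit 2051) (List.cons (nat_lit 2065) (List.cons (nat_lit 1061) (List.cons (nat_lit 1027) (List.cons (nat_lit 1089) (List.cons (nat_lit 387) (List.cons (nat_lit 133) (List.cons (nat_lit 641) List.nil)))))))))))) (nat_lit 3) (nat_lit 0)))))) (BT.node (BT.node (BT.node (BT.leaf (Hd.mk (List.cons (nat_lit 3969) (List.cons (nat_lit 2161) (List.cons (nat_lit 79) List.nil))) (nat_lit 4) (nat_lit 0))) (BT.leaf (Hd.mk (List.cons (nat_lit 3841) (List.cons (nat_lit 2273) (List.cons (nat_lit 2077) (List.cons (nat_lit 1171) (List.cons (nat_lit 2051) (List.cons (nat_lit 645) (List.cons (nat_lit 393) (List.cons (nat_lit 1093) (List.cons (nat_lit 1065) (List.cons (nat_lit 263) (List.cons (nat_lit 37) (List.cons (nat_lit 35) (List.cons (nat_lit 289) (List.cons (nat_lit 561) (List.cons (nat_lit 337) (List.cons (nat_lit 523) (List.cons (nat_lit 67) (List.cons (nat_lit 73) (List.cons (nat_lit 577) (List.cons (nat_lit 2192) (List.cons (nat_lit 3088) (List.cons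
  (nat_lit 2436) (List.cons (nat_lit 3200) (List.cons (nat_lit 2178) (List.cons (nat_lit 2184) (List.cons (nat_lit 2688) (List.cons (nat_lit 148) (List.cons (nat_lit 1188) (List.cons (nat_lit 3076) (List.cons (nat_lit 3104) (List.cons (nat_lit 1408) List.nil))))))))))))))))))))))))))))))) (nat_lit 3) (nat_lit 248)))) (BT.node (BT.leaf (Hd.mk (List.cons (nat_lit 3969) (List.cons (nat_lit 195) (List.cons (nat_lit 165) (List.cons (nat_lit 153) (List.cons (nat_lit 291) (List.cons (nat_lit 265) (List.cons (nat_lit 261) (List.cons (nat_lit 273) (List.cons (nat_lit 321) (List.cons (nat_lit 531) (List.cons (nat_lit 1035) (List.cons (nat_lit 7) (List.cons (nat_lit 2051) List.nil))))))))))))) (nat_lit 3) (nat_lit 0))) (BT.leaf (Hd.mk (List.cons (nat_lit 3841) (List.cons (nat_lit 2273) (List.cons (nat_lit 1177) (List.cons (nat_lit 2061) (List.cons (nat_lit 2067) (List.cons (nat_lit 1061) (List.cons (nat_lit 1091) (List.cons (nat_lit 73) (List.cons (nat_lit 267) (List.cons (nat_lit 547) (List.cons (nat_lit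 41) (List.cons (nat_lit 521) (List.cons (nat_lit 135) (List.cons (nat_lit 385) (List.cons (nat_lit 641) List.nil))))))))))))))) (nat_lit 3) (nat_lit 0))))) (BT.node (BT.node (BT.leaf (Hd.mk (List.cons (nat_lit 3969) (List.cons (nat_lit 195) (List.cons (nat_lit 165) (List.cons (nat_lit 153) (List.cons (nat_lit 291) (List.cons (nat_lit 329) (List.cons (nat_lit 277) (List.cons (nat_lit 2067) (List.cons (nat_lit 515) (List.cons (nat_lit 15) (List.cons (nat_lit 1027) (List.cons (nat_lit 581) (List.cons (nat_lit 1029) List.nil))))))))))))) (nat_lit 3) (nat_lit 0))) (BT.leaf (Hd.mk (List.cons (nat_lit 3841) (List.cons (nat_lit 2273) (List.cons (nat_lit 2077) (List.cons (nat_lit 2051) (List.cons (nat_lit 1061) (List.cons (nat_lit 581) (List.cons (nat_lit 7) (List.cons (nat_lit 389) (List.cons (nat_lit 553) (List.cons (nat_lit 35) (List.cons (nat_lit 305) (List.cons (nat_lit 323) List.nil)))))))))))) (nat_lit 3) (nat_lit 0)))) (BT.node (BT.leaf (Hd.mk (List.cons (nat_lit 3969) (List.cons (nat_lit 195)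 (List.cons (nat_lit 133) (List.cons (nat_lit 137) (List.cons (nat_lit 145) (List.cons (nat_lit 161) List.nil)))))) (nat_lit 3) (nat_lit 0))) (BT.leaf (Hd.mk (List.cons (nat_lit 3841) (List.cons (nat_lit 2273) (List.cons (nat_lit 31) (List.cons (nat_lit 2051) (List.cons (nat_lit 2053) (List.cons (nat_lit 2057) (List.cons (nat_lit 2065) (List.cons (nat_lit 1059) List.nil)))))))) (nat_lit 3) (nat_lit 0))))))) (BT.node (BT.node (BT.node (BT.node (BT.leaf (Hd.mk (List.cons (nat_lit 3969) (List.cons (nat_lit 2169) (List.cons (nat_lit 2051) (List.cons (nat_lit 2053) (List.cons (nat_lit 141) (List.cons (nat_lit 265) List.nil)))))) (nat_lit 3) (nat_lit 0))) (BT.leaf (Hd.mk (List.cons (nat_lit 3841) (List.cons (nat_lit 2273) (List.cons (nat_lit 2077) (List.cons (nat_lit 1171) (List.cons (nat_lit 2051) (List.cons (nat_lit 645) (List.cons (nat_lit 393) (List.cons (nat_lit 1093) (List.cons (nat_lit 1065) (List.cons (nat_lit 263) (List.cons (nat_lit 37) (List.cons (nat_lit 35) (List.cons (nat_lit 289) (List.cons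 (nat_lit 561) (List.cons (nat_lit 337) (List.cons (nat_lit 523) (List.cons (nat_lit 67) (List.cons (nat_lit 73) (List.cons (nat_lit 577) (List.cons (nat_lit 2192) (List.cons (nat_lit 3152) (List.cons (nat_lit 2576) (List.cons (nat_lit 1552) (List.cons (nat_lit 1048) (List.cons (nat_lit 3080) (List.cons (nat_lit 3200) (List.cons (nat_lit 720) (List.cons (nat_lit 184) (List.cons (nat_lit 536) (List.cons (nat_lit 1216) List.nil)))))))))))))))))))))))))))))) (nat_lit 3) (nat_lit 248)))) (BT.node (BT.leaf (Hd.mk (List.cons (nat_lit 3969) (List.cons (nat_lit 195) (List.cons (nat_lit 165) (List.cons (nat_lit 153) (List.cons (nat_lit 291) (List.cons (nat_lit 265) (List.cons (nat_lit 325) (List.cons (nat_lit 273) (List.cons (nat_lit 531) (List.cons (nat_lit 525) (List.cons (nat_lit 609) (List.cons (nat_lit 7) (List.cons (nat_lit 1035) (List.cons (nat_lit 2051) List.nil)))))))))))))) (nat_lit 3) (nat_lit 0))) (BT.leaf (Hd.mk (List.cons (nat_lit 3841) (List.cons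
  (nat_lit 2273) (List.cons (nat_lit 1177) (List.cons (nat_lit 583) (List.cons (nat_lit 1089) (List.cons (nat_lit 641) (List.cons (nat_lit 387) (List.cons (nat_lit 133) (List.cons (nat_lit 1059) (List.cons (nat_lit 1029) List.nil)))))))))) (nat_lit 3) (nat_lit 0))))) (BT.node (BT.node (BT.leaf (Hd.mk (List.cons (nat_lit 3969) (List.cons (nat_lit 121) (List.cons (nat_lit 141) (List.cons (nat_lit 265) (List.cons (nat_lit 521) (List.cons (nat_lit 1033) List.nil)))))) (nat_lit 3) (nat_lit 0))) (BT.leaf (Hd.mk (List.cons (nat_lit 3841) (List.cons (nat_lit 2273) (List.cons (nat_lit 2077) (List.cons (nat_lit 2051) (List.cons (nat_lit 1061) (List.cons (nat_lit 581) (List.cons (nat_lit 263) (List.cons (nat_lit 133) (List.cons (nat_lit 305) (List.cons (nat_lit 321) (List.cons (nat_lit 265) (List.cons (nat_lit 385) (List.cons (nat_lit 43) (List.cons (nat_lit 545) List.nil)))))))))))))) (nat_lit 3) (nat_lit 0)))) (BT.node (BT.leaf (Hd.mk (List.cons (nat_lit 3969) (List.cons (nat_lit 195) (List.cons (nat_lit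 165) (List.cons (nat_lit 137) (List.cons (nat_lit 145) (List.cons (nat_lit 275) (List.cons (nat_lit 261) (List.cons (nat_lit 265) (List.cons (nat_lit 289) (List.cons (nat_lit 321) List.nil)))))))))) (nat_lit 3) (nat_lit 0))) (BT.leaf (Hd.mk (List.cons (nat_lit 3841) (List.cons (nat_lit 2273) (List.cons (nat_lit 1177) List.nil))) (nat_lit 4) (nat_lit 0)))))) (BT.node (BT.node (BT.node (BT.leaf (Hd.mk (List.cons (nat_lit 3969) (List.cons (nat_lit 2161) (List.cons (nat_lit 2059) (List.cons (nat_lit 2053) (List.cons (nat_lit 149) (List.cons (nat_lit 195) (List.cons (nat_lit 169) (List.cons (nat_lit 281) (List.cons (nat_lit 529) List.nil))))))))) (nat_lit 3) (nat_lit 0))) (BT.leaf (Hd.mk (List.cons (nat_lit 3841) (List.cons (nat_lit 2273) (List.cons (nat_lit 2077) (List.cons (nat_lit 1171) (List.cons (nat_lit 2051) (List.cons (nat_lit 645) (List.cons (nat_lit 393) (List.cons (nat_lit 1093) (List.cons (nat_lit 1065) (List.cons (nat_lit 263) (List.cons (nat_lit 37) (List.cons (nat_lit 35) (List.cons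 (nat_lit 289) (List.cons (nat_lit 561) (List.cons (nat_lit 337) (List.cons (nat_lit 523) (List.cons (nat_lit 67) (List.cons (nat_lit 73) (List.cons (nat_lit 577) (List.cons (nat_lit 2192) (List.cons (nat_lit 3088) (List.cons (nat_lit 2432) (List.cons (nat_lit 3204) (List.cons (nat_lit 3104) List.nil)))))))))))))))))))))))) (nat_lit 3) (nat_lit 248)))) (BT.node (BT.leaf (Hd.mk (List.cons (nat_lit 3969) (List.cons (nat_lit 195) (List.cons (nat_lit 165) (List.cons (nat_lit 137) (List.cons (nat_lit 145) (List.cons (nat_lit 291) (List.cons (nat_lit 531) (List.cons (nat_lit 1035) (List.cons (nat_lit 2055) List.nil))))))))) (nat_lit 3) (nat_lit 0))) (BT.leaf (Hd.mk (List.cons (nat_lit 3841) (List.cons (nat_lit 2273) (List.cons (nat_lit 1177) (List.cons (nat_lit 2061) (List.cons (nat_lit 2067) (List.cons (nat_lit 1057) (List.cons (nat_lit 1031) (List.cons (nat_lit 1089) (List.cons (nat_lit 131) (List.cons (nat_lit 385) (List.cons (nat_lit 133) (List.cons (nat_lit 641) (List.cons (nat_lit 547) List.nil)))))))))))))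 (nat_lit 3) (nat_lit 0))))) (BT.node (BT.node (BT.leaf (Hd.mk (List.cons (nat_lit 3969) (List.cons (nat_lit 195) (List.cons (nat_lit 165) (List.cons (nat_lit 153) (List.cons (nat_lit 291) (List.cons (nat_lit 329) (List.cons (nat_lit 261) (List.cons (nat_lit 273) (List.cons (nat_lit 531) (List.cons (nat_lit 1031) (List.cons (nat_lit 11) (List.cons (nat_lit 2051) (List.cons (nat_lit 1033) List.nil))))))))))))) (nat_lit 3) (nat_lit 0))) (BT.leaf (Hd.mk (List.cons (nat_lit 3841) (List.cons (nat_lit 2273) (List.cons (nat_lit 2077) (List.cons (nat_lit 2051) (List.cons (nat_lit 1061) (List.cons (nat_lit 71) (List.cons (nat_lit 261) (List.cons (nat_lit 133) (List.cons (nat_lit 517) (List.cons (nat_lit 337) List.nil)))))))))) (nat_lit 3) (nat_lit 0)))) (BT.leaf (Hd.mk (List.cons (nat_lit 3841) (List.cons (nat_lit 2273) (List.cons (nat_lit 2077) (List.cons (nat_lit 1171) (List.cons (nat_lit 2051) (List.cons (nat_lit 645) (List.cons (nat_lit 393)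
  (List.cons (nat_lit 1093) (List.cons (nat_lit 1065) (List.cons (nat_lit 263) (List.cons (nat_lit 37) (List.cons (nat_lit 35) (List.cons (nat_lit 289) (List.cons (nat_lit 561) (List.cons (nat_lit 337) (List.cons (nat_lit 523) (List.cons (nat_lit 67) (List.cons (nat_lit 73) (List.cons (nat_lit 577) (List.cons (nat_lit 2704) (List.cons (nat_lit 2320) (List.cons (nat_lit 2130) (List.cons (nat_lit 2096) (List.cons (nat_lit 3088) (List.cons (nat_lit 3136) (List.cons (nat_lit 54) (List.cons (nat_lit 26) List.nil))))))))))))))))))))))))))) (nat_lit 3) (nat_lit 248))))))) (BT.node (BT.node (BT.node (BT.node (BT.node (BT.leaf (Hd.mk (List.cons (nat_lit 3969) (List.cons (nat_lit 2169) (List.cons (nat_lit 2055) (List.cons (nat_lit 141) (List.cons (nat_lit 265) List.nil))))) (nat_lit 3) (nat_lit 0))) (BT.leaf (Hd.mk (List.cons (nat_lit 3841) (List.cons (nat_lit 2273) (List.cons (nat_lit 2077) (List.cons (nat_lit 1171) (List.cons (nat_lit 2051) (List.cons (nat_lit 645) (List.cons (nat_lit 393) (List.cons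 (nat_lit 1093) (List.cons (nat_lit 1065) (List.cons (nat_lit 263) (List.cons (nat_lit 37) (List.cons (nat_lit 35) (List.cons (nat_lit 289) (List.cons (nat_lit 561) (List.cons (nat_lit 337) (List.cons (nat_lit 523) (List.cons (nat_lit 67) (List.cons (nat_lit 73) (List.cons (nat_lit 577) (List.cons (nat_lit 2192) (List.cons (nat_lit 3152) (List.cons (nat_lit 2578) (List.cons (nat_lit 2624) (List.cons (nat_lit 2564) (List.cons (nat_lit 2592) List.nil))))))))))))))))))))))))) (nat_lit 3) (nat_lit 248)))) (BT.node (BT.leaf (Hd.mk (List.cons (nat_lit 3969) (List.cons (nat_lit 195) (List.cons (nat_lit 165) (List.cons (nat_lit 153) (List.cons (nat_lit 291) (List.cons (nat_lit 329) (List.cons (nat_lit 261) (List.cons (nat_lit 273) (List.cons (nat_lit 515) (List.cons (nat_lit 521) (List.cons (nat_lit 533) (List.cons (nat_lit 545) (List.cons (nat_lit 577) List.nil))))))))))))) (nat_lit 3) (nat_lit 0))) (BT.leaf (Hd.mk (List.cons (nat_lit 3841) (List.cons (nat_lit 2273) (List.cons (nat_lit 1177) (List.cons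 (nat_lit 597) (List.cons (nat_lit 2067) (List.cons (nat_lit 2061) (List.cons (nat_lit 49) (List.cons (nat_lit 273) (List.cons (nat_lit 1089) (List.cons (nat_lit 641) List.nil)))))))))) (nat_lit 3) (nat_lit 0))))) (BT.node (BT.node (BT.leaf (Hd.mk (List.cons (nat_lit 3969) (List.cons (nat_lit 2161) (List.cons (nat_lit 2051) (List.cons (nat_lit 2053) (List.cons (nat_lit 2057) (List.cons (nat_lit 153) (List.cons (nat_lit 277) (List.cons (nat_lit 529) List.nil)))))))) (nat_lit 3) (nat_lit 0))) (BT.leaf (Hd.mk (List.cons (nat_lit 3841) (List.cons (nat_lit 2273) (List.cons (nat_lit 2077) (List.cons (nat_lit 2051) (List.cons (nat_lit 1061) (List.cons (nat_lit 581) (List.cons (nat_lit 263) (List.cons (nat_lit 133) (List.cons (nat_lit 305) (List.cons (nat_lit 329) (List.cons (nat_lit 385) (List.cons (nat_lit 35) (List.cons (nat_lit 553) (List.cons (nat_lit 139) (List.cons (nat_lit 1033) List.nil))))))))))))))) (nat_lit 3) (nat_lit 0)))) (BT.node (BT.leaf (Hd.mk (List.cons (nat_lit 3969) (List.cons (nat_lit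 195) (List.cons (nat_lit 165) (List.cons (nat_lit 137) (List.cons (nat_lit 145) (List.cons (nat_lit 275) (List.cons (nat_lit 269) (List.cons (nat_lit 289) (List.cons (nat_lit 321) List.nil))))))))) (nat_lit 3) (nat_lit 0))) (BT.leaf (Hd.mk (List.cons (nat_lit 3841) (List.cons (nat_lit 2273) (List.cons (nat_lit 1177) (List.cons (nat_lit 2061) (List.cons (nat_lit 2051) (List.cons (nat_lit 2065) (List.cons (nat_lit 1059) (List.cons (nat_lit 1029) (List.cons (nat_lit 1089) List.nil))))))))) (nat_lit 3) (nat_lit 0)))))) (BT.node (BT.node (BT.node (BT.leaf (Hd.mk (List.cons (nat_lit 3969) (List.cons (nat_lit 2161) (List.cons (nat_lit 2059) (List.cons (nat_lit 2053) (List.cons (nat_lit 153) (List.cons (nat_lit 277) (List.cons (nat_lit 529) (List.cons (nat_lit 19) (List.cons (nat_lit 1041) List.nil))))))))) (nat_lit 3) (nat_lit 0))) (BT.leaf (Hd.mk (List.cons (nat_lit 3841) (List.cons (nat_lit 2273) (List.cons (nat_lit 2077) (List.cons (nat_lit 1171) (List.cons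
  (nat_lit 2051) (List.cons (nat_lit 645) (List.cons (nat_lit 393) (List.cons (nat_lit 1093) (List.cons (nat_lit 1065) (List.cons (nat_lit 263) (List.cons (nat_lit 37) (List.cons (nat_lit 35) (List.cons (nat_lit 289) (List.cons (nat_lit 561) (List.cons (nat_lit 337) (List.cons (nat_lit 523) (List.cons (nat_lit 67) (List.cons (nat_lit 73) (List.cons (nat_lit 577) (List.cons (nat_lit 2192) (List.cons (nat_lit 3088) (List.cons (nat_lit 2434) (List.cons (nat_lit 2180) (List.cons (nat_lit 2320) (List.cons (nat_lit 2096) (List.cons (nat_lit 2688) (List.cons (nat_lit 2184) (List.cons (nat_lit 3200) List.nil)))))))))))))))))))))))))))) (nat_lit 3) (nat_lit 248)))) (BT.node (BT.leaf (Hd.mk (List.cons (nat_lit 3969) (List.cons (nat_lit 195) (List.cons (nat_lit 165) (List.cons (nat_lit 153) (List.cons (nat_lit 291) List.nil))))) (nat_lit 3) (nat_lit 0))) (BT.leaf (Hd.mk (List.cons (nat_lit 3841) (List.cons (nat_lit 2273) (List.cons (nat_lit 1177) (List.cons (nat_lit 2061) (List.cons (nat_lit 2067) (List.cons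 (nat_lit 1061) List.nil)))))) (nat_lit 3) (nat_lit 0))))) (BT.node (BT.node (BT.leaf (Hd.mk (List.cons (nat_lit 3969) (List.cons (nat_lit 195) (List.cons (nat_lit 165) (List.cons (nat_lit 153) (List.cons (nat_lit 291) (List.cons (nat_lit 329) (List.cons (nat_lit 261) (List.cons (nat_lit 273) (List.cons (nat_lit 531) (List.cons (nat_lit 1035) (List.cons (nat_lit 2055) (List.cons (nat_lit 525) (List.cons (nat_lit 41) (List.cons (nat_lit 2057) (List.cons (nat_lit 545) (List.cons (nat_lit 577) List.nil)))))))))))))))) (nat_lit 3) (nat_lit 0))) (BT.leaf (Hd.mk (List.cons (nat_lit 3841) (List.cons (nat_lit 2273) (List.cons (nat_lit 2077) (List.cons (nat_lit 2051) (List.cons (nat_lit 1061) (List.cons (nat_lit 581) (List.cons (nat_lit 7) (List.cons (nat_lit 389) (List.cons (nat_lit 43) (List.cons (nat_lit 265) (List.cons (nat_lit 73) (List.cons (nat_lit 649) (List.cons (nat_lit 1033) List.nil))))))))))))) (nat_lit 3) (nat_lit 0)))) (BT.leaf (Hd.mk (List.cons (nat_lit 3841) (List.cons (nat_lit 2273)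 (List.cons (nat_lit 2077) (List.cons (nat_lit 1171) (List.cons (nat_lit 587) List.nil))))) (nat_lit 4) (nat_lit 0)))))) (BT.node (BT.node (BT.node (BT.node (BT.leaf (Hd.mk (List.cons (nat_lit 3969) (List.cons (nat_lit 2161) (List.cons (nat_lit 1101) (List.cons (nat_lit 555) (List.cons (nat_lit 279) List.nil))))) (nat_lit 4) (nat_lit 0))) (BT.leaf (Hd.mk (List.cons (nat_lit 3841) (List.cons (nat_lit 2273) (List.cons (nat_lit 2077) (List.cons (nat_lit 1171) (List.cons (nat_lit 2051) (List.cons (nat_lit 645) (List.cons (nat_lit 393) (List.cons (nat_lit 1093) (List.cons (nat_lit 1065) (List.cons (nat_lit 263) (List.cons (nat_lit 37) (List.cons (nat_lit 35) (List.cons (nat_lit 289) (List.cons (nat_lit 561) (List.cons (nat_lit 337) (List.cons (nat_lit 523) (List.cons (nat_lit 67) (List.cons (nat_lit 73) (List.cons (nat_lit 577) (List.cons (nat_lit 2192) (List.cons (nat_lit 3152) (List.cons (nat_lit 2576) (List.cons (nat_lit 1552) (List.cons (nat_lit 1048) List.nil)))))))))))))))))))))))) (nat_lit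 3) (nat_lit 248)))) (BT.node (BT.leaf (Hd.mk (List.cons (nat_lit 3969) (List.cons (nat_lit 195) (List.cons (nat_lit 165) (List.cons (nat_lit 153) (List.cons (nat_lit 291) (List.cons (nat_lit 265) (List.cons (nat_lit 325) (List.cons (nat_lit 273) (List.cons (nat_lit 531) (List.cons (nat_lit 517) (List.cons (nat_lit 1031) (List.cons (nat_lit 11) (List.cons (nat_lit 2051) List.nil))))))))))))) (nat_lit 3) (nat_lit 0))) (BT.leaf (Hd.mk (List.cons (nat_lit 3841) (List.cons (nat_lit 2273) (List.cons (nat_lit 1177) (List.cons (nat_lit 2061) (List.cons (nat_lit 2067) (List.cons (nat_lit 1061) (List.cons (nat_lit 1091) (List.cons (nat_lit 585) (List.cons (nat_lit 43) (List.cons (nat_lit 265) (List.cons (nat_lit 289) (List.cons (nat_lit 49) (List.cons (nat_lit 545) List.nil))))))))))))) (nat_lit 3) (nat_lit 0))))) (BT.node (BT.node (BT.leaf (Hd.mk (List.cons (nat_lit 3969) (List.cons (nat_lit 195) (List.cons (nat_lit 165) (List.cons (nat_lit 153) (List.cons (nat_lit 291)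
  (List.cons (nat_lit 329) (List.cons (nat_lit 277) (List.cons (nat_lit 2067) (List.cons (nat_lit 523) (List.cons (nat_lit 1031) (List.cons (nat_lit 13) (List.cons (nat_lit 581) (List.cons (nat_lit 2053) (List.cons (nat_lit 1033) (List.cons (nat_lit 2089) (List.cons (nat_lit 2113) List.nil)))))))))))))))) (nat_lit 3) (nat_lit 0))) (BT.leaf (Hd.mk (List.cons (nat_lit 3841) (List.cons (nat_lit 2273) (List.cons (nat_lit 2077) (List.cons (nat_lit 2051) (List.cons (nat_lit 1061) (List.cons (nat_lit 581) (List.cons (nat_lit 263) (List.cons (nat_lit 133) (List.cons (nat_lit 289) (List.cons (nat_lit 553) (List.cons (nat_lit 51) (List.cons (nat_lit 515) (List.cons (nat_lit 529) (List.cons (nat_lit 641) List.nil)))))))))))))) (nat_lit 3) (nat_lit 0)))) (BT.node (BT.leaf (Hd.mk (List.cons (nat_lit 3969) (List.cons (nat_lit 195) (List.cons (nat_lit 133) (List.cons (nat_lit 137) (List.cons (nat_lit 145) (List.cons (nat_lit 161) (List.cons (nat_lit 291) (List.cons (nat_lit 531) (List.cons (nat_lit 1035) (List.cons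 (nat_lit 7) (List.cons (nat_lit 2051) List.nil))))))))))) (nat_lit 3) (nat_lit 0))) (BT.leaf (Hd.mk (List.cons (nat_lit 3841) (List.cons (nat_lit 2273) (List.cons (nat_lit 1053) (List.cons (nat_lit 2055) (List.cons (nat_lit 2057) (List.cons (nat_lit 2065) (List.cons (nat_lit 1057) (List.cons (nat_lit 1089) (List.cons (nat_lit 1027) (List.cons (nat_lit 1153) List.nil)))))))))) (nat_lit 3) (nat_lit 0)))))) (BT.node (BT.node (BT.node (BT.leaf (Hd.mk (List.cons (nat_lit 3969) (List.cons (nat_lit 2161) (List.cons (nat_lit 2059) (List.cons (nat_lit 2053) (List.cons (nat_lit 145) (List.cons (nat_lit 195) (List.cons (nat_lit 141) (List.cons (nat_lit 161) List.nil)))))))) (nat_lit 3) (nat_lit 0))) (BT.leaf (Hd.mk (List.cons (nat_lit 3841) (List.cons (nat_lit 2273) (List.cons (nat_lit 2077) (List.cons (nat_lit 1171) (List.cons (nat_lit 2051) (List.cons (nat_lit 645) (List.cons (nat_lit 393) (List.cons (nat_lit 1093) (List.cons (nat_lit 1065) (List.cons (nat_lit 263) (List.cons (nat_lit 37) (List.cons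 (nat_lit 35) (List.cons (nat_lit 289) (List.cons (nat_lit 561) (List.cons (nat_lit 337) (List.cons (nat_lit 523) (List.cons (nat_lit 67) (List.cons (nat_lit 73) (List.cons (nat_lit 577) List.nil))))))))))))))))))) (nat_lit 3) (nat_lit 0)))) (BT.node (BT.leaf (Hd.mk (List.cons (nat_lit 3969) (List.cons (nat_lit 195) (List.cons (nat_lit 165) (List.cons (nat_lit 137) (List.cons (nat_lit 145) (List.cons (nat_lit 291) (List.cons (nat_lit 531) (List.cons (nat_lit 1031) (List.cons (nat_lit 11) (List.cons (nat_lit 2051) List.nil)))))))))) (nat_lit 3) (nat_lit 0))) (BT.leaf (Hd.mk (List.cons (nat_lit 3841) (List.cons (nat_lit 2273) (List.cons (nat_lit 1177) (List.cons (nat_lit 2061) (List.cons (nat_lit 2067) (List.cons (nat_lit 1057) (List.cons (nat_lit 1027) (List.cons (nat_lit 1029) (List.cons (nat_lit 1089) (List.cons (nat_lit 389) List.nil)))))))))) (nat_lit 3) (nat_lit 0))))) (BT.node (BT.node (BT.leaf (Hd.mk (List.cons (nat_lit 3969) (List.cons (nat_lit 195) (List.cons (nat_lit 165) (List.cons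 (nat_lit 153) (List.cons (nat_lit 291) (List.cons (nat_lit 329) (List.cons (nat_lit 261) (List.cons (nat_lit 273) (List.cons (nat_lit 523) (List.cons (nat_lit 1027) (List.cons (nat_lit 7) (List.cons (nat_lit 19) (List.cons (nat_lit 2051) (List.cons (nat_lit 2061) (List.cons (nat_lit 1065) List.nil))))))))))))))) (nat_lit 3) (nat_lit 0))) (BT.leaf (Hd.mk (List.cons (nat_lit 3841) (List.cons (nat_lit 2273) (List.cons (nat_lit 2077) (List.cons (nat_lit 2051) (List.cons (nat_lit 1061) (List.cons (nat_lit 69) List.nil)))))) (nat_lit 3) (nat_lit 0)))) (BT.leaf (Hd.mk (List.cons (nat_lit 3841) (List.cons (nat_lit 2273) (List.cons (nat_lit 2077) (List.cons (nat_lit 1171) (List.cons (nat_lit 2051) (List.cons (nat_lit 645) (List.cons (nat_lit 393) (List.cons (nat_lit 1093) (List.cons (nat_lit 1065) (List.cons (nat_lit 263) (List.cons (nat_lit 37) (List.cons (nat_lit 35) (List.cons (nat_lit 289) (List.cons (nat_lit 561) (List.cons (nat_lit 337) (List.cons (nat_lit 523)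
  (List.cons (nat_lit 67) (List.cons (nat_lit 73) (List.cons (nat_lit 577) (List.cons (nat_lit 2704) (List.cons (nat_lit 2320) (List.cons (nat_lit 2066) (List.cons (nat_lit 3120) (List.cons (nat_lit 2128) (List.cons (nat_lit 3200) (List.cons (nat_lit 3076) (List.cons (nat_lit 2184) (List.cons (nat_lit 1044) (List.cons (nat_lit 1296) List.nil))))))))))))))))))))))))))))) (nat_lit 3) (nat_lit 248)))))))) (BT.node (BT.node (BT.node (BT.node (BT.node (BT.node (BT.leaf (Hd.mk (List.cons (nat_lit 3969) (List.cons (nat_lit 2169) (List.cons (nat_lit 2055) (List.cons (nat_lit 141) (List.cons (nat_lit 267) (List.cons (nat_lit 521) (List.cons (nat_lit 1033) List.nil))))))) (nat_lit 3) (nat_lit 0))) (BT.leaf (Hd.mk (List.cons (nat_lit 3841) (List.cons (nat_lit 2273) (List.cons (nat_lit 2077) (List.cons (nat_lit 1171) (List.cons (nat_lit 2051) (List.cons (nat_lit 645) (List.cons (nat_lit 393) (List.cons (nat_lit 1093) (List.cons (nat_lit 1065) (List.cons (nat_lit 263) (List.cons (nat_lit 37) (List.cons (nat_lit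 35) (List.cons (nat_lit 289) (List.cons (nat_lit 561) (List.cons (nat_lit 337) (List.cons (nat_lit 523) (List.cons (nat_lit 67) (List.cons (nat_lit 73) (List.cons (nat_lit 577) (List.cons (nat_lit 2704) (List.cons (nat_lit 2320) (List.cons (nat_lit 2066) (List.cons (nat_lit 2096) (List.cons (nat_lit 2128) (List.cons (nat_lit 3088) (List.cons (nat_lit 208) (List.cons (nat_lit 152) (List.cons (nat_lit 2184) List.nil)))))))))))))))))))))))))))) (nat_lit 3) (nat_lit 248)))) (BT.node (BT.leaf (Hd.mk (List.cons (nat_lit 3969) (List.cons (nat_lit 195) (List.cons (nat_lit 165) (List.cons (nat_lit 153) (List.cons (nat_lit 291) (List.cons (nat_lit 329) (List.cons (nat_lit 261) (List.cons (nat_lit 273) (List.cons (nat_lit 515) (List.cons (nat_lit 525) (List.cons (nat_lit 11) (List.cons (nat_lit 1065) (List.cons (nat_lit 2057) List.nil))))))))))))) (nat_lit 3) (nat_lit 0))) (BT.leaf (Hd.mk (List.cons (nat_lit 3841) (List.cons (nat_lit 2273) (List.cons (nat_lit 1177) (List.cons (nat_lit 597) (List.cons (nat_lit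 2067) (List.cons (nat_lit 2061) (List.cons (nat_lit 305) (List.cons (nat_lit 1089) (List.cons (nat_lit 641) List.nil))))))))) (nat_lit 3) (nat_lit 0))))) (BT.node (BT.node (BT.leaf (Hd.mk (List.cons (nat_lit 3969) (List.cons (nat_lit 2161) (List.cons (nat_lit 2051) (List.cons (nat_lit 2053) (List.cons (nat_lit 2057) (List.cons (nat_lit 153) (List.cons (nat_lit 277) (List.cons (nat_lit 531) (List.cons (nat_lit 1041) (List.cons (nat_lit 165) (List.cons (nat_lit 131) (List.cons (nat_lit 193) List.nil)))))))))))) (nat_lit 3) (nat_lit 0))) (BT.leaf (Hd.mk (List.cons (nat_lit 3841) (List.cons (nat_lit 2273) (List.cons (nat_lit 2077) (List.cons (nat_lit 1171) (List.cons (nat_lit 2051) (List.cons (nat_lit 645) List.nil)))))) (nat_lit 3) (nat_lit 0)))) (BT.node (BT.leaf (Hd.mk (List.cons (nat_lit 3969) (List.cons (nat_lit 195) (List.cons (nat_lit 165) (List.cons (nat_lit 137) (List.cons (nat_lit 145) (List.cons (nat_lit 275) (List.cons (nat_lit 325) (List.cons (nat_lit 265) (List.cons (nat_lit 289) (List.cons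 (nat_lit 547) (List.cons (nat_lit 1035) (List.cons (nat_lit 2055) List.nil)))))))))))) (nat_lit 3) (nat_lit 0))) (BT.leaf (Hd.mk (List.cons (nat_lit 3841) (List.cons (nat_lit 2273) (List.cons (nat_lit 1177) (List.cons (nat_lit 2061) (List.cons (nat_lit 2051) (List.cons (nat_lit 2065) (List.cons (nat_lit 1059) (List.cons (nat_lit 1029) (List.cons (nat_lit 1089) (List.cons (nat_lit 553) (List.cons (nat_lit 75) (List.cons (nat_lit 265) (List.cons (nat_lit 37) (List.cons (nat_lit 305) List.nil)))))))))))))) (nat_lit 3) (nat_lit 0)))))) (BT.node (BT.node (BT.node (BT.leaf (Hd.mk (List.cons (nat_lit 3969) (List.cons (nat_lit 2161) (List.cons (nat_lit 2059) (List.cons (nat_lit 2053) (List.cons (nat_lit 153) (List.cons (nat_lit 277) (List.cons (nat_lit 531) (List.cons (nat_lit 1041) List.nil)))))))) (nat_lit 3) (nat_lit 0))) (BT.leaf (Hd.mk (List.cons (nat_lit 3841) (List.cons (nat_lit 2273) (List.cons (nat_lit 2077) (List.cons (nat_lit 1171)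
  (List.cons (nat_lit 2051) (List.cons (nat_lit 645) (List.cons (nat_lit 393) (List.cons (nat_lit 1093) (List.cons (nat_lit 1065) (List.cons (nat_lit 263) (List.cons (nat_lit 37) (List.cons (nat_lit 35) (List.cons (nat_lit 289) (List.cons (nat_lit 561) (List.cons (nat_lit 337) (List.cons (nat_lit 523) (List.cons (nat_lit 67) (List.cons (nat_lit 73) (List.cons (nat_lit 577) (List.cons (nat_lit 2192) (List.cons (nat_lit 3088) (List.cons (nat_lit 2434) (List.cons (nat_lit 3204) (List.cons (nat_lit 2184) (List.cons (nat_lit 2688) (List.cons (nat_lit 2352) (List.cons (nat_lit 2308) (List.cons (nat_lit 3104) (List.cons (nat_lit 2312) (List.cons (nat_lit 2368) List.nil)))))))))))))))))))))))))))))) (nat_lit 3) (nat_lit 248)))) (BT.node (BT.leaf (Hd.mk (List.cons (nat_lit 3969) (List.cons (nat_lit 195) (List.cons (nat_lit 165) (List.cons (nat_lit 153) (List.cons (nat_lit 291) (List.cons (nat_lit 265) (List.cons (nat_lit 261) (List.cons (nat_lit 273) (List.cons (nat_lit 321) (List.cons (nat_lit 531)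 List.nil)))))))))) (nat_lit 3) (nat_lit 0))) (BT.leaf (Hd.mk (List.cons (nat_lit 3841) (List.cons (nat_lit 2273) (List.cons (nat_lit 1177) (List.cons (nat_lit 2061) (List.cons (nat_lit 2067) (List.cons (nat_lit 1061) (List.cons (nat_lit 1027) (List.cons (nat_lit 1089) (List.cons (nat_lit 49) (List.cons (nat_lit 337) (List.cons (nat_lit 533) List.nil))))))))))) (nat_lit 3) (nat_lit 0))))) (BT.node (BT.node (BT.leaf (Hd.mk (List.cons (nat_lit 3969) (List.cons (nat_lit 195) (List.cons (nat_lit 165) (List.cons (nat_lit 153) (List.cons (nat_lit 291) (List.cons (nat_lit 329) (List.cons (nat_lit 277) (List.cons (nat_lit 19) (List.cons (nat_lit 523) (List.cons (nat_lit 1027) List.nil)))))))))) (nat_lit 3) (nat_lit 0))) (BT.leaf (Hd.mk (List.cons (nat_lit 3841) (List.cons (nat_lit 2273) (List.cons (nat_lit 2077) (List.cons (nat_lit 2051) (List.cons (nat_lit 1061) (List.cons (nat_lit 581) (List.cons (nat_lit 7) (List.cons (nat_lit 389) (List.cons (nat_lit 553) (List.cons (nat_lit 35) (List.cons (nat_lit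 49) (List.cons (nat_lit 289) List.nil)))))))))))) (nat_lit 3) (nat_lit 0)))) (BT.node (BT.leaf (Hd.mk (List.cons (nat_lit 3969) (List.cons (nat_lit 131) (List.cons (nat_lit 133) (List.cons (nat_lit 137) (List.cons (nat_lit 145) (List.cons (nat_lit 161) (List.cons (nat_lit 193) (List.cons (nat_lit 323) List.nil)))))))) (nat_lit 3) (nat_lit 0))) (BT.leaf (Hd.mk (List.cons (nat_lit 3841) List.nil) (nat_lit 4) (nat_lit 0))))))) (BT.node (BT.node (BT.node (BT.node (BT.leaf (Hd.mk (List.cons (nat_lit 3969) (List.cons (nat_lit 2169) List.nil)) (nat_lit 5) (nat_lit 0))) (BT.leaf (Hd.mk (List.cons (nat_lit 3841) (List.cons (nat_lit 2273) (List.cons (nat_lit 2077) (List.cons (nat_lit 1171) (List.cons (nat_lit 2051) (List.cons (nat_lit 645) (List.cons (nat_lit 393) (List.cons (nat_lit 1093) (List.cons (nat_lit 1065) (List.cons (nat_lit 263) (List.cons (nat_lit 37) (List.cons (nat_lit 35) (List.cons (nat_lit 289) (List.cons (nat_lit 561) (List.cons (nat_lit 337) (List.cons (nat_lit 523) (List.cons (nat_lit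 67) (List.cons (nat_lit 73) (List.cons (nat_lit 577) (List.cons (nat_lit 2192) (List.cons (nat_lit 3152) (List.cons (nat_lit 2576) (List.cons (nat_lit 1552) (List.cons (nat_lit 1048) (List.cons (nat_lit 3080) (List.cons (nat_lit 3200) (List.cons (nat_lit 208) (List.cons (nat_lit 1216) (List.cons (nat_lit 2182) (List.cons (nat_lit 2432) List.nil)))))))))))))))))))))))))))))) (nat_lit 3) (nat_lit 248)))) (BT.node (BT.leaf (Hd.mk (List.cons (nat_lit 3969) (List.cons (nat_lit 195) (List.cons (nat_lit 165) (List.cons (nat_lit 153) (List.cons (nat_lit 291) (List.cons (nat_lit 265) (List.cons (nat_lit 325) (List.cons (nat_lit 273) (List.cons (nat_lit 531) (List.cons (nat_lit 525) (List.cons (nat_lit 545) (List.cons (nat_lit 577) List.nil)))))))))))) (nat_lit 3) (nat_lit 0))) (BT.leaf (Hd.mk (List.cons (nat_lit 3841) (List.cons (nat_lit 2273) (List.cons (nat_lit 1177) (List.cons (nat_lit 2061) (List.cons (nat_lit 2067) (List.cons (nat_lit 1061) (List.cons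
  (nat_lit 1091) (List.cons (nat_lit 585) (List.cons (nat_lit 267) (List.cons (nat_lit 41) (List.cons (nat_lit 547) (List.cons (nat_lit 135) (List.cons (nat_lit 385) (List.cons (nat_lit 641) List.nil)))))))))))))) (nat_lit 3) (nat_lit 0))))) (BT.node (BT.node (BT.leaf (Hd.mk (List.cons (nat_lit 3969) (List.cons (nat_lit 121) List.nil)) (nat_lit 4) (nat_lit 0))) (BT.leaf (Hd.mk (List.cons (nat_lit 3841) (List.cons (nat_lit 2273) (List.cons (nat_lit 2077) (List.cons (nat_lit 2051) (List.cons (nat_lit 1061) (List.cons (nat_lit 581) (List.cons (nat_lit 263) (List.cons (nat_lit 133) (List.cons (nat_lit 305) List.nil))))))))) (nat_lit 3) (nat_lit 0)))) (BT.node (BT.leaf (Hd.mk (List.cons (nat_lit 3969) (List.cons (nat_lit 195) (List.cons (nat_lit 165) (List.cons (nat_lit 137) (List.cons (nat_lit 145) (List.cons (nat_lit 259) (List.cons (nat_lit 325) (List.cons (nat_lit 265) (List.cons (nat_lit 273) (List.cons (nat_lit 289) (List.cons (nat_lit 519) (List.cons (nat_lit 1045) (List.cons (nat_lit 2061)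 List.nil))))))))))))) (nat_lit 3) (nat_lit 0))) (BT.leaf (Hd.mk (List.cons (nat_lit 3841) (List.cons (nat_lit 2273) (List.cons (nat_lit 1053) (List.cons (nat_lit 2055) (List.cons (nat_lit 2057) (List.cons (nat_lit 2065) (List.cons (nat_lit 1059) (List.cons (nat_lit 1089) (List.cons (nat_lit 1153) (List.cons (nat_lit 37) (List.cons (nat_lit 581) (List.cons (nat_lit 133) (List.cons (nat_lit 261) List.nil))))))))))))) (nat_lit 3) (nat_lit 0)))))) (BT.node (BT.node (BT.node (BT.leaf (Hd.mk (List.cons (nat_lit 3969) (List.cons (nat_lit 2161) (List.cons (nat_lit 2059) (List.cons (nat_lit 2053) (List.cons (nat_lit 149) (List.cons (nat_lit 131) (List.cons (nat_lit 161) (List.cons (nat_lit 137) (List.cons (nat_lit 193) List.nil))))))))) (nat_lit 3) (nat_lit 0))) (BT.leaf (Hd.mk (List.cons (nat_lit 3841) (List.cons (nat_lit 2273) (List.cons (nat_lit 2077) (List.cons (nat_lit 1171) (List.cons (nat_lit 2051) (List.cons (nat_lit 645) (List.cons (nat_lit 393) (List.cons (nat_lit 1093) (List.cons (nat_lit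 1065) (List.cons (nat_lit 263) (List.cons (nat_lit 37) (List.cons (nat_lit 35) (List.cons (nat_lit 289) (List.cons (nat_lit 561) (List.cons (nat_lit 337) (List.cons (nat_lit 523) (List.cons (nat_lit 67) (List.cons (nat_lit 73) (List.cons (nat_lit 577) (List.cons (nat_lit 2192) (List.cons (nat_lit 3088) (List.cons (nat_lit 2432) (List.cons (nat_lit 2180) (List.cons (nat_lit 3200) (List.cons (nat_lit 2690) List.nil))))))))))))))))))))))))) (nat_lit 3) (nat_lit 248)))) (BT.node (BT.leaf (Hd.mk (List.cons (nat_lit 3969) (List.cons (nat_lit 195) (List.cons (nat_lit 165) (List.cons (nat_lit 137) (List.cons (nat_lit 145) (List.cons (nat_lit 291) (List.cons (nat_lit 531) (List.cons (nat_lit 1031) (List.cons (nat_lit 11) (List.cons (nat_lit 2051) (List.cons (nat_lit 581) (List.cons (nat_lit 553) List.nil)))))))))))) (nat_lit 3) (nat_lit 0))) (BT.leaf (Hd.mk (List.cons (nat_lit 3841) (List.cons (nat_lit 2273) (List.cons (nat_lit 1177) (List.cons (nat_lit 2061) (List.cons (nat_lit 2067) (List.cons (nat_lit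 1057) (List.cons (nat_lit 1027) (List.cons (nat_lit 1029) (List.cons (nat_lit 1089) (List.cons (nat_lit 389) (List.cons (nat_lit 643) (List.cons (nat_lit 71) List.nil)))))))))))) (nat_lit 3) (nat_lit 0))))) (BT.node (BT.node (BT.leaf (Hd.mk (List.cons (nat_lit 3969) (List.cons (nat_lit 195) (List.cons (nat_lit 165) (List.cons (nat_lit 153) (List.cons (nat_lit 291) (List.cons (nat_lit 329) (List.cons (nat_lit 261) (List.cons (nat_lit 273) (List.cons (nat_lit 523) (List.cons (nat_lit 1031) (List.cons (nat_lit 19) (List.cons (nat_lit 2051) (List.cons (nat_lit 13) (List.cons (nat_lit 1033) (List.cons (nat_lit 2089) List.nil))))))))))))))) (nat_lit 3) (nat_lit 0))) (BT.leaf (Hd.mk (List.cons (nat_lit 3841) (List.cons (nat_lit 2273) (List.cons (nat_lit 2077) (List.cons (nat_lit 2051) (List.cons (nat_lit 1061) (List.cons (nat_lit 69) (List.cons (nat_lit 261) (List.cons (nat_lit 7) (List.cons (nat_lit 133) (List.cons (nat_lit 517) (List.cons (nat_lit 553) (List.cons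
  (nat_lit 51) (List.cons (nat_lit 289) List.nil))))))))))))) (nat_lit 3) (nat_lit 0)))) (BT.leaf (Hd.mk (List.cons (nat_lit 3841) (List.cons (nat_lit 2273) (List.cons (nat_lit 2077) (List.cons (nat_lit 1171) (List.cons (nat_lit 2051) (List.cons (nat_lit 645) (List.cons (nat_lit 393) (List.cons (nat_lit 1093) (List.cons (nat_lit 1065) (List.cons (nat_lit 263) (List.cons (nat_lit 37) (List.cons (nat_lit 35) (List.cons (nat_lit 289) (List.cons (nat_lit 561) (List.cons (nat_lit 337) (List.cons (nat_lit 523) (List.cons (nat_lit 67) (List.cons (nat_lit 73) (List.cons (nat_lit 577) (List.cons (nat_lit 2704) (List.cons (nat_lit 2320) (List.cons (nat_lit 2098) (List.cons (nat_lit 2128) (List.cons (nat_lit 3088) (List.cons (nat_lit 3104) List.nil))))))))))))))))))))))))) (nat_lit 3) (nat_lit 248))))))) (BT.node (BT.node (BT.node (BT.node (BT.node (BT.leaf (Hd.mk (List.cons (nat_lit 3969) (List.cons (nat_lit 2169) (List.cons (nat_lit 2051) (List.cons (nat_lit 2053) (List.cons (nat_lit 141) (List.cons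 (nat_lit 267) (List.cons (nat_lit 521) (List.cons (nat_lit 1033) (List.cons (nat_lit 147) (List.cons (nat_lit 161) (List.cons (nat_lit 193) (List.cons (nat_lit 273) List.nil)))))))))))) (nat_lit 3) (nat_lit 0))) (BT.leaf (Hd.mk (List.cons (nat_lit 3841) (List.cons (nat_lit 2273) (List.cons (nat_lit 2077) (List.cons (nat_lit 1171) (List.cons (nat_lit 2051) (List.cons (nat_lit 645) (List.cons (nat_lit 393) (List.cons (nat_lit 1093) (List.cons (nat_lit 1065) (List.cons (nat_lit 263) (List.cons (nat_lit 37) (List.cons (nat_lit 35) (List.cons (nat_lit 289) (List.cons (nat_lit 561) (List.cons (nat_lit 337) (List.cons (nat_lit 523) (List.cons (nat_lit 67) (List.cons (nat_lit 73) (List.cons (nat_lit 577) (List.cons (nat_lit 2192) (List.cons (nat_lit 3152) (List.cons (nat_lit 2576) (List.cons (nat_lit 1560) (List.cons (nat_lit 152) (List.cons (nat_lit 1664) (List.cons (nat_lit 88) (List.cons (nat_lit 1600) (List.cons (nat_lit 3080) (List.cons (nat_lit 3200) (List.cons (nat_lit 208) (List.cons (nat_lit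 912) (List.cons (nat_lit 148) (List.cons (nat_lit 176) (List.cons (nat_lit 1216) (List.cons (nat_lit 1160) List.nil))))))))))))))))))))))))))))))))))) (nat_lit 3) (nat_lit 248)))) (BT.node (BT.leaf (Hd.mk (List.cons (nat_lit 3969) (List.cons (nat_lit 195) (List.cons (nat_lit 165) (List.cons (nat_lit 153) (List.cons (nat_lit 291) (List.cons (nat_lit 265) (List.cons (nat_lit 325) (List.cons (nat_lit 273) (List.cons (nat_lit 531) (List.cons (nat_lit 525) (List.cons (nat_lit 609) (List.cons (nat_lit 2055) (List.cons (nat_lit 1035) (List.cons (nat_lit 1045) (List.cons (nat_lit 1057) (List.cons (nat_lit 1089) List.nil)))))))))))))))) (nat_lit 3) (nat_lit 0))) (BT.leaf (Hd.mk (List.cons (nat_lit 3841) (List.cons (nat_lit 2273) (List.cons (nat_lit 1177) (List.cons (nat_lit 597) (List.cons (nat_lit 2067) (List.cons (nat_lit 2053) (List.cons (nat_lit 2057) (List.cons (nat_lit 49) (List.cons (nat_lit 273) (List.cons (nat_lit 1089) List.nil)))))))))) (nat_lit 3) (nat_lit 0))))) (BT.node (BT.node (BT.leaf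 (Hd.mk (List.cons (nat_lit 3969) (List.cons (nat_lit 2161) (List.cons (nat_lit 2051) (List.cons (nat_lit 2053) (List.cons (nat_lit 2057) (List.cons (nat_lit 153) List.nil)))))) (nat_lit 3) (nat_lit 0))) (BT.leaf (Hd.mk (List.cons (nat_lit 3841) (List.cons (nat_lit 2273) (List.cons (nat_lit 2077) (List.cons (nat_lit 2051) (List.cons (nat_lit 1061) (List.cons (nat_lit 581) (List.cons (nat_lit 263) (List.cons (nat_lit 133) (List.cons (nat_lit 305) (List.cons (nat_lit 321) (List.cons (nat_lit 393) (List.cons (nat_lit 547) List.nil)))))))))))) (nat_lit 3) (nat_lit 0)))) (BT.node (BT.leaf (Hd.mk (List.cons (nat_lit 3969) (List.cons (nat_lit 195) (List.cons (nat_lit 165) (List.cons (nat_lit 137) (List.cons (nat_lit 145) (List.cons (nat_lit 275) (List.cons (nat_lit 261) (List.cons (nat_lit 329) (List.cons (nat_lit 289) (List.cons (nat_lit 547) (List.cons (nat_lit 1027) List.nil))))))))))) (nat_lit 3) (nat_lit 0))) (BT.leaf (Hd.mk (List.cons (nat_lit 3841) (List.cons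
  (nat_lit 2273) (List.cons (nat_lit 1177) (List.cons (nat_lit 2061) (List.cons (nat_lit 2051) (List.cons (nat_lit 2065) (List.cons (nat_lit 1057) (List.cons (nat_lit 1027) (List.cons (nat_lit 1029) (List.cons (nat_lit 1089) List.nil)))))))))) (nat_lit 3) (nat_lit 0)))))) (BT.node (BT.node (BT.node (BT.leaf (Hd.mk (List.cons (nat_lit 3969) (List.cons (nat_lit 2161) (List.cons (nat_lit 2059) (List.cons (nat_lit 2053) (List.cons (nat_lit 153) (List.cons (nat_lit 275) (List.cons (nat_lit 529) (List.cons (nat_lit 21) (List.cons (nat_lit 1041) (List.cons (nat_lit 161) (List.cons (nat_lit 135) (List.cons (nat_lit 193) List.nil)))))))))))) (nat_lit 3) (nat_lit 0))) (BT.leaf (Hd.mk (List.cons (nat_lit 3841) (List.cons (nat_lit 2273) (List.cons (nat_lit 2077) (List.cons (nat_lit 1171) (List.cons (nat_lit 2051) (List.cons (nat_lit 645) (List.cons (nat_lit 393) (List.cons (nat_lit 1093) (List.cons (nat_lit 1065) (List.cons (nat_lit 263) (List.cons (nat_lit 37) (List.cons (nat_lit 35) (List.cons (nat_lit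 289) (List.cons (nat_lit 561) (List.cons (nat_lit 337) (List.cons (nat_lit 523) (List.cons (nat_lit 67) (List.cons (nat_lit 73) (List.cons (nat_lit 577) (List.cons (nat_lit 2192) (List.cons (nat_lit 3088) (List.cons (nat_lit 2432) (List.cons (nat_lit 3204) (List.cons (nat_lit 3104) (List.cons (nat_lit 2340) (List.cons (nat_lit 2096) (List.cons (nat_lit 2320) List.nil))))))))))))))))))))))))))) (nat_lit 3) (nat_lit 248)))) (BT.node (BT.leaf (Hd.mk (List.cons (nat_lit 3969) (List.cons (nat_lit 195) (List.cons (nat_lit 165) (List.cons (nat_lit 137) (List.cons (nat_lit 145) (List.cons (nat_lit 291) (List.cons (nat_lit 531) (List.cons (nat_lit 1035) (List.cons (nat_lit 2055) (List.cons (nat_lit 581) (List.cons (nat_lit 1045) (List.cons (nat_lit 13) (List.cons (nat_lit 261) (List.cons (nat_lit 521) (List.cons (nat_lit 545) List.nil))))))))))))))) (nat_lit 3) (nat_lit 0))) (BT.leaf (Hd.mk (List.cons (nat_lit 3841) (List.cons (nat_lit 2273) (List.cons (nat_lit 1177) (List.cons (nat_lit 2061) (List.cons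 (nat_lit 2067) (List.cons (nat_lit 1057) (List.cons (nat_lit 1031) (List.cons (nat_lit 1089) (List.cons (nat_lit 643) (List.cons (nat_lit 133) (List.cons (nat_lit 385) (List.cons (nat_lit 291) (List.cons (nat_lit 11) (List.cons (nat_lit 67) List.nil)))))))))))))) (nat_lit 3) (nat_lit 0))))) (BT.node (BT.node (BT.leaf (Hd.mk (List.cons (nat_lit 3969) (List.cons (nat_lit 195) (List.cons (nat_lit 165) (List.cons (nat_lit 153) (List.cons (nat_lit 291) (List.cons (nat_lit 329) (List.cons (nat_lit 261) (List.cons (nat_lit 273) (List.cons (nat_lit 531) (List.cons (nat_lit 1035) (List.cons (nat_lit 2055) List.nil))))))))))) (nat_lit 3) (nat_lit 0))) (BT.leaf (Hd.mk (List.cons (nat_lit 3841) (List.cons (nat_lit 2273) (List.cons (nat_lit 2077) (List.cons (nat_lit 2051) (List.cons (nat_lit 1061) (List.cons (nat_lit 581) (List.cons (nat_lit 7) (List.cons (nat_lit 133) (List.cons (nat_lit 261) (List.cons (nat_lit 43) (List.cons (nat_lit 521) List.nil))))))))))) (nat_lit 3) (nat_lit 0)))) (BT.leaf (Hd.mk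 (List.cons (nat_lit 3841) (List.cons (nat_lit 2273) (List.cons (nat_lit 2077) (List.cons (nat_lit 1171) (List.cons (nat_lit 2051) (List.cons (nat_lit 645) (List.cons (nat_lit 393) (List.cons (nat_lit 1093) (List.cons (nat_lit 1065) (List.cons (nat_lit 263) (List.cons (nat_lit 37) (List.cons (nat_lit 35) (List.cons (nat_lit 289) (List.cons (nat_lit 561) (List.cons (nat_lit 337) (List.cons (nat_lit 523) (List.cons (nat_lit 67) (List.cons (nat_lit 73) (List.cons (nat_lit 577) (List.cons (nat_lit 2704) (List.cons (nat_lit 2352) (List.cons (nat_lit 2066) List.nil)))))))))))))))))))))) (nat_lit 3) (nat_lit 248)))))) (BT.node (BT.node (BT.node (BT.node (BT.leaf (Hd.mk (List.cons (nat_lit 3969) (List.cons (nat_lit 2161) (List.cons (nat_lit 1101) (List.cons (nat_lit 555) (List.cons (nat_lit 2057) (List.cons (nat_lit 1057) (List.cons (nat_lit 577) (List.cons (nat_lit 1043) (List.cons (nat_lit 2051) (List.cons (nat_lit 2053) List.nil)))))))))) (nat_lit 3) (nat_lit 0)))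
  (BT.leaf (Hd.mk (List.cons (nat_lit 3841) (List.cons (nat_lit 2273) (List.cons (nat_lit 2077) (List.cons (nat_lit 1171) (List.cons (nat_lit 2051) (List.cons (nat_lit 645) (List.cons (nat_lit 393) (List.cons (nat_lit 1093) (List.cons (nat_lit 1065) (List.cons (nat_lit 263) (List.cons (nat_lit 37) (List.cons (nat_lit 35) (List.cons (nat_lit 289) (List.cons (nat_lit 561) (List.cons (nat_lit 337) (List.cons (nat_lit 523) (List.cons (nat_lit 67) (List.cons (nat_lit 73) (List.cons (nat_lit 577) (List.cons (nat_lit 2192) (List.cons (nat_lit 3088) (List.cons (nat_lit 2436) (List.cons (nat_lit 3200) (List.cons (nat_lit 2690) (List.cons (nat_lit 2184) (List.cons (nat_lit 2640) (List.cons (nat_lit 2568) (List.cons (nat_lit 2118) (List.cons (nat_lit 2564) (List.cons (nat_lit 2592) List.nil)))))))))))))))))))))))))))))) (nat_lit 3) (nat_lit 248)))) (BT.node (BT.leaf (Hd.mk (List.cons (nat_lit 3969) (List.cons (nat_lit 195) (List.cons (nat_lit 165) (List.cons (nat_lit 153) (List.cons (nat_lit 291) (List.cons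 (nat_lit 265) (List.cons (nat_lit 325) (List.cons (nat_lit 273) (List.cons (nat_lit 519) (List.cons (nat_lit 2059) List.nil)))))))))) (nat_lit 3) (nat_lit 0))) (BT.leaf (Hd.mk (List.cons (nat_lit 3841) (List.cons (nat_lit 2273) (List.cons (nat_lit 1177) (List.cons (nat_lit 2061) (List.cons (nat_lit 2067) (List.cons (nat_lit 1061) (List.cons (nat_lit 1091) (List.cons (nat_lit 585) (List.cons (nat_lit 11) (List.cons (nat_lit 41) (List.cons (nat_lit 265) (List.cons (nat_lit 291) (List.cons (nat_lit 49) (List.cons (nat_lit 545) List.nil)))))))))))))) (nat_lit 3) (nat_lit 0))))) (BT.node (BT.node (BT.leaf (Hd.mk (List.cons (nat_lit 3969) (List.cons (nat_lit 195) (List.cons (nat_lit 165) (List.cons (nat_lit 153) (List.cons (nat_lit 291) (List.cons (nat_lit 329) (List.cons (nat_lit 277) (List.cons (nat_lit 2067) (List.cons (nat_lit 523) (List.cons (nat_lit 1031) (List.cons (nat_lit 13) (List.cons (nat_lit 517) (List.cons (nat_lit 2117) (List.cons (nat_lit 1033) (List.cons (nat_lit 41) (List.cons (nat_lit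 2057) (List.cons (nat_lit 2081) List.nil))))))))))))))))) (nat_lit 3) (nat_lit 0))) (BT.leaf (Hd.mk (List.cons (nat_lit 3841) (List.cons (nat_lit 2273) (List.cons (nat_lit 2077) (List.cons (nat_lit 2051) (List.cons (nat_lit 1061) (List.cons (nat_lit 581) (List.cons (nat_lit 263) (List.cons (nat_lit 133) (List.cons (nat_lit 289) (List.cons (nat_lit 43) (List.cons (nat_lit 649) (List.cons (nat_lit 531) (List.cons (nat_lit 49) (List.cons (nat_lit 545) List.nil)))))))))))))) (nat_lit 3) (nat_lit 0)))) (BT.node (BT.leaf (Hd.mk (List.cons (nat_lit 3969) (List.cons (nat_lit 195) (List.cons (nat_lit 133) (List.cons (nat_lit 137) (List.cons (nat_lit 145) (List.cons (nat_lit 161) (List.cons (nat_lit 291) (List.cons (nat_lit 531) List.nil)))))))) (nat_lit 3) (nat_lit 0))) (BT.leaf (Hd.mk (List.cons (nat_lit 3841) (List.cons (nat_lit 2273) (List.cons (nat_lit 31) (List.cons (nat_lit 2051) (List.cons (nat_lit 2053) (List.cons (nat_lit 2057) (List.cons (nat_lit 2065) (List.cons (nat_lit 1059) (List.cons (nat_lit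 579) (List.cons (nat_lit 387) (List.cons (nat_lit 549) (List.cons (nat_lit 133) List.nil)))))))))))) (nat_lit 3) (nat_lit 0)))))) (BT.node (BT.node (BT.node (BT.leaf (Hd.mk (List.cons (nat_lit 3969) (List.cons (nat_lit 2161) (List.cons (nat_lit 2059) (List.cons (nat_lit 2053) (List.cons (nat_lit 145) (List.cons (nat_lit 195) (List.cons (nat_lit 133) (List.cons (nat_lit 169) (List.cons (nat_lit 289) (List.cons (nat_lit 263) (List.cons (nat_lit 281) (List.cons (nat_lit 321) (List.cons (nat_lit 1043) List.nil))))))))))))) (nat_lit 3) (nat_lit 0))) (BT.leaf (Hd.mk (List.cons (nat_lit 3841) (List.cons (nat_lit 2273) (List.cons (nat_lit 2077) (List.cons (nat_lit 1171) (List.cons (nat_lit 2051) (List.cons (nat_lit 645) (List.cons (nat_lit 393) (List.cons (nat_lit 1093) List.nil)))))))) (nat_lit 3) (nat_lit 0)))) (BT.node (BT.leaf (Hd.mk (List.cons (nat_lit 3969) (List.cons (nat_lit 195) (List.cons (nat_lit 165) (List.cons (nat_lit 137) (List.cons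
  (nat_lit 145) (List.cons (nat_lit 291) (List.cons (nat_lit 531) (List.cons (nat_lit 1027) List.nil)))))))) (nat_lit 3) (nat_lit 0))) (BT.leaf (Hd.mk (List.cons (nat_lit 3841) (List.cons (nat_lit 2273) (List.cons (nat_lit 1177) (List.cons (nat_lit 2061) (List.cons (nat_lit 2051) (List.cons (nat_lit 2065) (List.cons (nat_lit 1061) (List.cons (nat_lit 1027) (List.cons (nat_lit 1089) (List.cons (nat_lit 389) (List.cons (nat_lit 643) List.nil))))))))))) (nat_lit 3) (nat_lit 0))))) (BT.node (BT.node (BT.leaf (Hd.mk (List.cons (nat_lit 3969) (List.cons (nat_lit 195) (List.cons (nat_lit 165) (List.cons (nat_lit 153) (List.cons (nat_lit 291) (List.cons (nat_lit 329) (List.cons (nat_lit 261) (List.cons (nat_lit 273) (List.cons (nat_lit 519) (List.cons (nat_lit 553) (List.cons (nat_lit 529) (List.cons (nat_lit 577) (List.cons (nat_lit 2059) List.nil))))))))))))) (nat_lit 3) (nat_lit 0))) (BT.leaf (Hd.mk (List.cons (nat_lit 3841) (List.cons (nat_lit 2273) (List.cons (nat_lit 2077) (List.cons (nat_lit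 2051) (List.cons (nat_lit 39) (List.cons (nat_lit 261) (List.cons (nat_lit 69) List.nil))))))) (nat_lit 3) (nat_lit 0)))) (BT.leaf (Hd.mk (List.cons (nat_lit 3841) (List.cons (nat_lit 2273) (List.cons (nat_lit 2077) (List.cons (nat_lit 1171) (List.cons (nat_lit 2051) (List.cons (nat_lit 645) (List.cons (nat_lit 393) (List.cons (nat_lit 1093) (List.cons (nat_lit 1065) (List.cons (nat_lit 263) (List.cons (nat_lit 37) (List.cons (nat_lit 35) (List.cons (nat_lit 289) (List.cons (nat_lit 561) (List.cons (nat_lit 337) (List.cons (nat_lit 523) (List.cons (nat_lit 67) (List.cons (nat_lit 73) (List.cons (nat_lit 577) (List.cons (nat_lit 2704) (List.cons (nat_lit 2320) (List.cons (nat_lit 2066) (List.cons (nat_lit 2096) (List.cons (nat_lit 2128) (List.cons (nat_lit 3088) (List.cons (nat_lit 216) (List.cons (nat_lit 536) (List.cons (nat_lit 1048) (List.cons (nat_lit 2568) (List.cons (nat_lit 1216) (List.cons (nat_lit 2184) List.nil))))))))))))))))))))))))))))))) (nat_lit 3) (nat_lit 248)))))))))) (BT.node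 (BT.node (BT.node (BT.node (BT.node (BT.node (BT.node (BT.node (BT.leaf (Hd.mk (List.cons (nat_lit 3969) (List.cons (nat_lit 2169) (List.cons (nat_lit 2055) (List.cons (nat_lit 141) (List.cons (nat_lit 267) (List.cons (nat_lit 521) (List.cons (nat_lit 1033) (List.cons (nat_lit 147) (List.cons (nat_lit 161) (List.cons (nat_lit 193) (List.cons (nat_lit 273) (List.cons (nat_lit 533) (List.cons (nat_lit 1041) (List.cons (nat_lit 293) (List.cons (nat_lit 321) (List.cons (nat_lit 1093) (List.cons (nat_lit 579) (List.cons (nat_lit 545) List.nil)))))))))))))))))) (nat_lit 3) (nat_lit 0))) (BT.leaf (Hd.mk (List.cons (nat_lit 3841) (List.cons (nat_lit 2273) (List.cons (nat_lit 2077) (List.cons (nat_lit 1171) (List.cons (nat_lit 2051) (List.cons (nat_lit 645) (List.cons (nat_lit 393) (List.cons (nat_lit 1093) (List.cons (nat_lit 1065) (List.cons (nat_lit 263) (List.cons (nat_lit 37) (List.cons (nat_lit 35) (List.cons (nat_lit 289) (List.cons (nat_lit 561) (List.cons (nat_lit 337) (List.cons (nat_lit 523)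 (List.cons (nat_lit 67) (List.cons (nat_lit 73) (List.cons (nat_lit 577) (List.cons (nat_lit 2704) (List.cons (nat_lit 2320) (List.cons (nat_lit 2066) (List.cons (nat_lit 2096) (List.cons (nat_lit 2128) (List.cons (nat_lit 3088) (List.cons (nat_lit 208) (List.cons (nat_lit 152) (List.cons (nat_lit 2184) (List.cons (nat_lit 3200) (List.cons (nat_lit 2632) (List.cons (nat_lit 3080) (List.cons (nat_lit 3136) (List.cons (nat_lit 536) (List.cons (nat_lit 1616) (List.cons (nat_lit 1664) (List.cons (nat_lit 1048) (List.cons (nat_lit 648) (List.cons (nat_lit 1544) List.nil)))))))))))))))))))))))))))))))))))))) (nat_lit 3) (nat_lit 248)))) (BT.node (BT.leaf (Hd.mk (List.cons (nat_lit 3969) (List.cons (nat_lit 195) (List.cons (nat_lit 165) (List.cons (nat_lit 153) (List.cons (nat_lit 291) (List.cons (nat_lit 329) (List.cons (nat_lit 261) (List.cons (nat_lit 273) (List.cons (nat_lit 515) (List.cons (nat_lit 553) (List.cons (nat_lit 581) (List.cons (nat_lit 529) (List.cons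
  (nat_lit 1037) List.nil))))))))))))) (nat_lit 3) (nat_lit 0))) (BT.leaf (Hd.mk (List.cons (nat_lit 3841) (List.cons (nat_lit 2273) (List.cons (nat_lit 1177) (List.cons (nat_lit 597) (List.cons (nat_lit 2067) (List.cons (nat_lit 2061) (List.cons (nat_lit 305) (List.cons (nat_lit 1091) (List.cons (nat_lit 1061) (List.cons (nat_lit 73) (List.cons (nat_lit 321) (List.cons (nat_lit 265) (List.cons (nat_lit 641) List.nil))))))))))))) (nat_lit 3) (nat_lit 0))))) (BT.node (BT.node (BT.leaf (Hd.mk (List.cons (nat_lit 3969) (List.cons (nat_lit 2161) (List.cons (nat_lit 2059) (List.cons (nat_lit 2053) (List.cons (nat_lit 145) (List.cons (nat_lit 195) List.nil)))))) (nat_lit 3) (nat_lit 0))) (BT.leaf (Hd.mk (List.cons (nat_lit 3841) (List.cons (nat_lit 2273) (List.cons (nat_lit 2077) (List.cons (nat_lit 1171) (List.cons (nat_lit 2051) (List.cons (nat_lit 645) (List.cons (nat_lit 137) (List.cons (nat_lit 385) (List.cons (nat_lit 1093) (List.cons (nat_lit 1033) (List.cons (nat_lit 1057) (List.cons (nat_lit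 263) List.nil)))))))))))) (nat_lit 3) (nat_lit 0)))) (BT.node (BT.leaf (Hd.mk (List.cons (nat_lit 3969) (List.cons (nat_lit 195) (List.cons (nat_lit 165) (List.cons (nat_lit 137) (List.cons (nat_lit 145) (List.cons (nat_lit 291) (List.cons (nat_lit 519) (List.cons (nat_lit 1027) (List.cons (nat_lit 27) (List.cons (nat_lit 2051) List.nil)))))))))) (nat_lit 3) (nat_lit 0))) (BT.leaf (Hd.mk (List.cons (nat_lit 3841) (List.cons (nat_lit 2273) (List.cons (nat_lit 1177) (List.cons (nat_lit 2061) (List.cons (nat_lit 2051) (List.cons (nat_lit 2065) (List.cons (nat_lit 1061) (List.cons (nat_lit 1027) (List.cons (nat_lit 1089) (List.cons (nat_lit 387) (List.cons (nat_lit 133) (List.cons (nat_lit 641) (List.cons (nat_lit 325) List.nil))))))))))))) (nat_lit 3) (nat_lit 0)))))) (BT.node (BT.node (BT.node (BT.leaf (Hd.mk (List.cons (nat_lit 3969) (List.cons (nat_lit 2161) (List.cons (nat_lit 1039) List.nil))) (nat_lit 4) (nat_lit 0))) (BT.leaf (Hd.mk (List.cons (nat_lit 3841) (List.cons (nat_lit 2273) (List.cons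 (nat_lit 2077) (List.cons (nat_lit 1171) (List.cons (nat_lit 2051) (List.cons (nat_lit 645) (List.cons (nat_lit 393) (List.cons (nat_lit 1093) (List.cons (nat_lit 1065) (List.cons (nat_lit 263) (List.cons (nat_lit 37) (List.cons (nat_lit 35) (List.cons (nat_lit 289) (List.cons (nat_lit 561) (List.cons (nat_lit 337) (List.cons (nat_lit 523) (List.cons (nat_lit 67) (List.cons (nat_lit 73) (List.cons (nat_lit 577) (List.cons (nat_lit 2192) (List.cons (nat_lit 3088) (List.cons (nat_lit 2436) (List.cons (nat_lit 3200) (List.cons (nat_lit 2690) List.nil)))))))))))))))))))))))) (nat_lit 3) (nat_lit 248)))) (BT.node (BT.leaf (Hd.mk (List.cons (nat_lit 3969) (List.cons (nat_lit 195) (List.cons (nat_lit 165) (List.cons (nat_lit 153) (List.cons (nat_lit 291) (List.cons (nat_lit 265) (List.cons (nat_lit 261) (List.cons (nat_lit 273) (List.cons (nat_lit 321) (List.cons (nat_lit 531) (List.cons (nat_lit 1035) (List.cons (nat_lit 2055) List.nil)))))))))))) (nat_lit 3) (nat_lit 0))) (BT.leaf (Hd.mk (List.cons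 (nat_lit 3841) (List.cons (nat_lit 2273) (List.cons (nat_lit 1177) (List.cons (nat_lit 2061) (List.cons (nat_lit 2067) (List.cons (nat_lit 1061) (List.cons (nat_lit 1091) (List.cons (nat_lit 73) (List.cons (nat_lit 297) (List.cons (nat_lit 11) (List.cons (nat_lit 521) List.nil))))))))))) (nat_lit 3) (nat_lit 0))))) (BT.node (BT.node (BT.leaf (Hd.mk (List.cons (nat_lit 3969) (List.cons (nat_lit 195) (List.cons (nat_lit 165) (List.cons (nat_lit 153) (List.cons (nat_lit 291) (List.cons (nat_lit 329) (List.cons (nat_lit 277) (List.cons (nat_lit 2067) (List.cons (nat_lit 523) List.nil))))))))) (nat_lit 3) (nat_lit 0))) (BT.leaf (Hd.mk (List.cons (nat_lit 3841) (List.cons (nat_lit 2273) (List.cons (nat_lit 2077) (List.cons (nat_lit 2051) (List.cons (nat_lit 1061) (List.cons (nat_lit 581) (List.cons (nat_lit 263) (List.cons (nat_lit 133) List.nil)))))))) (nat_lit 3) (nat_lit 0)))) (BT.node (BT.leaf (Hd.mk (List.cons (nat_lit 3969) (List.cons (nat_lit 195)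
  (List.cons (nat_lit 133) (List.cons (nat_lit 137) (List.cons (nat_lit 145) (List.cons (nat_lit 161) (List.cons (nat_lit 291) List.nil))))))) (nat_lit 3) (nat_lit 0))) (BT.leaf (Hd.mk (List.cons (nat_lit 3841) (List.cons (nat_lit 2273) (List.cons (nat_lit 31) (List.cons (nat_lit 2051) (List.cons (nat_lit 2053) (List.cons (nat_lit 2057) (List.cons (nat_lit 2065) (List.cons (nat_lit 1059) (List.cons (nat_lit 67) List.nil))))))))) (nat_lit 3) (nat_lit 0))))))) (BT.node (BT.node (BT.node (BT.node (BT.leaf (Hd.mk (List.cons (nat_lit 3969) (List.cons (nat_lit 2169) (List.cons (nat_lit 2051) (List.cons (nat_lit 2053) (List.cons (nat_lit 141) (List.cons (nat_lit 265) (List.cons (nat_lit 521) List.nil))))))) (nat_lit 3) (nat_lit 0))) (BT.leaf (Hd.mk (List.cons (nat_lit 3841) (List.cons (nat_lit 2273) (List.cons (nat_lit 2077) (List.cons (nat_lit 1171) (List.cons (nat_lit 2051) (List.cons (nat_lit 645) (List.cons (nat_lit 393) (List.cons (nat_lit 1093) (List.cons (nat_lit 1065) (List.cons (nat_lit 263)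 (List.cons (nat_lit 37) (List.cons (nat_lit 35) (List.cons (nat_lit 289) (List.cons (nat_lit 561) (List.cons (nat_lit 337) (List.cons (nat_lit 523) (List.cons (nat_lit 67) (List.cons (nat_lit 73) (List.cons (nat_lit 577) (List.cons (nat_lit 2192) (List.cons (nat_lit 3152) (List.cons (nat_lit 2576) (List.cons (nat_lit 1560) (List.cons (nat_lit 152) (List.cons (nat_lit 1664) (List.cons (nat_lit 88) (List.cons (nat_lit 1600) List.nil))))))))))))))))))))))))))) (nat_lit 3) (nat_lit 248)))) (BT.node (BT.leaf (Hd.mk (List.cons (nat_lit 3969) (List.cons (nat_lit 195) (List.cons (nat_lit 165) (List.cons (nat_lit 153) (List.cons (nat_lit 291) (List.cons (nat_lit 265) (List.cons (nat_lit 325) (List.cons (nat_lit 273) (List.cons (nat_lit 531) (List.cons (nat_lit 525) (List.cons (nat_lit 609) (List.cons (nat_lit 2055) List.nil)))))))))))) (nat_lit 3) (nat_lit 0))) (BT.leaf (Hd.mk (List.cons (nat_lit 3841) (List.cons (nat_lit 2273) (List.cons (nat_lit 1177) (List.cons (nat_lit 583) (List.cons (nat_lit 1089)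 (List.cons (nat_lit 641) (List.cons (nat_lit 387) (List.cons (nat_lit 133) (List.cons (nat_lit 1059) (List.cons (nat_lit 1029) (List.cons (nat_lit 2059) (List.cons (nat_lit 19) List.nil)))))))))))) (nat_lit 3) (nat_lit 0))))) (BT.node (BT.node (BT.leaf (Hd.mk (List.cons (nat_lit 3969) (List.cons (nat_lit 121) (List.cons (nat_lit 141) (List.cons (nat_lit 265) (List.cons (nat_lit 521) (List.cons (nat_lit 1033) (List.cons (nat_lit 11) (List.cons (nat_lit 2057) List.nil)))))))) (nat_lit 3) (nat_lit 0))) (BT.leaf (Hd.mk (List.cons (nat_lit 3841) (List.cons (nat_lit 2273) (List.cons (nat_lit 2077) (List.cons (nat_lit 2051) (List.cons (nat_lit 1061) (List.cons (nat_lit 581) (List.cons (nat_lit 263) (List.cons (nat_lit 133) (List.cons (nat_lit 305) (List.cons (nat_lit 321) (List.cons (nat_lit 393) (List.cons (nat_lit 35) (List.cons (nat_lit 41) (List.cons (nat_lit 545) List.nil)))))))))))))) (nat_lit 3) (nat_lit 0)))) (BT.node (BT.leaf (Hd.mk (List.cons (nat_lit 3969) (List.cons (nat_lit 195) (List.cons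 (nat_lit 165) (List.cons (nat_lit 137) (List.cons (nat_lit 145) (List.cons (nat_lit 275) (List.cons (nat_lit 261) (List.cons (nat_lit 265) (List.cons (nat_lit 289) (List.cons (nat_lit 321) (List.cons (nat_lit 547) (List.cons (nat_lit 1035) (List.cons (nat_lit 2055) List.nil))))))))))))) (nat_lit 3) (nat_lit 0))) (BT.leaf (Hd.mk (List.cons (nat_lit 3841) (List.cons (nat_lit 2273) (List.cons (nat_lit 1177) (List.cons (nat_lit 2057) (List.cons (nat_lit 2055) (List.cons (nat_lit 2065) (List.cons (nat_lit 131) (List.cons (nat_lit 385) (List.cons (nat_lit 133) (List.cons (nat_lit 641) List.nil)))))))))) (nat_lit 3) (nat_lit 0)))))) (BT.node (BT.node (BT.node (BT.leaf (Hd.mk (List.cons (nat_lit 3969) (List.cons (nat_lit 2161) (List.cons (nat_lit 2059) (List.cons (nat_lit 2053) (List.cons (nat_lit 153) List.nil))))) (nat_lit 3) (nat_lit 0))) (BT.leaf (Hd.mk (List.cons (nat_lit 3841) (List.cons (nat_lit 2273) (List.cons (nat_lit 2077) (List.cons (nat_lit 1171)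
  (List.cons (nat_lit 2051) (List.cons (nat_lit 645) (List.cons (nat_lit 393) (List.cons (nat_lit 1093) (List.cons (nat_lit 1065) (List.cons (nat_lit 263) (List.cons (nat_lit 37) (List.cons (nat_lit 35) (List.cons (nat_lit 289) (List.cons (nat_lit 561) (List.cons (nat_lit 337) (List.cons (nat_lit 523) (List.cons (nat_lit 67) (List.cons (nat_lit 73) (List.cons (nat_lit 577) (List.cons (nat_lit 2192) (List.cons (nat_lit 3088) (List.cons (nat_lit 2432) (List.cons (nat_lit 3204) (List.cons (nat_lit 3104) (List.cons (nat_lit 2308) (List.cons (nat_lit 1184) (List.cons (nat_lit 1408) (List.cons (nat_lit 3074) (List.cons (nat_lit 3144) (List.cons (nat_lit 1216) (List.cons (nat_lit 1672) (List.cons (nat_lit 1048) (List.cons (nat_lit 2184) (List.cons (nat_lit 2178) (List.cons (nat_lit 2688) List.nil))))))))))))))))))))))))))))))))))) (nat_lit 3) (nat_lit 248)))) (BT.node (BT.leaf (Hd.mk (List.cons (nat_lit 3969) (List.cons (nat_lit 195) (List.cons (nat_lit 165) (List.cons (nat_lit 137) (List.cons (nat_lit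 145) (List.cons (nat_lit 291) (List.cons (nat_lit 531) (List.cons (nat_lit 1035) (List.cons (nat_lit 2055) (List.cons (nat_lit 525) (List.cons (nat_lit 545) (List.cons (nat_lit 577) List.nil)))))))))))) (nat_lit 3) (nat_lit 0))) (BT.leaf (Hd.mk (List.cons (nat_lit 3841) (List.cons (nat_lit 2273) (List.cons (nat_lit 1177) (List.cons (nat_lit 2061) (List.cons (nat_lit 2067) (List.cons (nat_lit 1057) (List.cons (nat_lit 1031) (List.cons (nat_lit 1089) (List.cons (nat_lit 643) List.nil))))))))) (nat_lit 3) (nat_lit 0))))) (BT.node (BT.node (BT.leaf (Hd.mk (List.cons (nat_lit 3969) (List.cons (nat_lit 195) (List.cons (nat_lit 165) (List.cons (nat_lit 153) (List.cons (nat_lit 291) (List.cons (nat_lit 329) (List.cons (nat_lit 261) (List.cons (nat_lit 273) (List.cons (nat_lit 531) (List.cons (nat_lit 1031) (List.cons (nat_lit 11) (List.cons (nat_lit 2051) (List.cons (nat_lit 1065) (List.cons (nat_lit 525) (List.cons (nat_lit 2057) List.nil))))))))))))))) (nat_lit 3) (nat_lit 0))) (BT.leaf (Hd.mk (List.cons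 (nat_lit 3841) (List.cons (nat_lit 2273) (List.cons (nat_lit 2077) (List.cons (nat_lit 2051) (List.cons (nat_lit 1061) (List.cons (nat_lit 71) (List.cons (nat_lit 261) (List.cons (nat_lit 133) (List.cons (nat_lit 517) (List.cons (nat_lit 337) (List.cons (nat_lit 577) (List.cons (nat_lit 73) List.nil)))))))))))) (nat_lit 3) (nat_lit 0)))) (BT.leaf (Hd.mk (List.cons (nat_lit 3841) (List.cons (nat_lit 2273) (List.cons (nat_lit 2077) (List.cons (nat_lit 1171) (List.cons (nat_lit 2051) (List.cons (nat_lit 645) (List.cons (nat_lit 393) (List.cons (nat_lit 1093) (List.cons (nat_lit 1065) (List.cons (nat_lit 263) (List.cons (nat_lit 37) (List.cons (nat_lit 35) (List.cons (nat_lit 289) (List.cons (nat_lit 561) (List.cons (nat_lit 337) (List.cons (nat_lit 523) (List.cons (nat_lit 67) (List.cons (nat_lit 73) (List.cons (nat_lit 577) (List.cons (nat_lit 2704) (List.cons (nat_lit 2320) (List.cons (nat_lit 2130) (List.cons (nat_lit 2096) (List.cons (nat_lit 3088) (List.cons (nat_lit 3144) (List.cons (nat_lit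 2184) (List.cons (nat_lit 2568) (List.cons (nat_lit 2624) (List.cons (nat_lit 2116) (List.cons (nat_lit 2368) (List.cons (nat_lit 3200) List.nil))))))))))))))))))))))))))))))) (nat_lit 3) (nat_lit 248))))))) (BT.node (BT.node (BT.node (BT.node (BT.node (BT.leaf (Hd.mk (List.cons (nat_lit 3969) (List.cons (nat_lit 2169) (List.cons (nat_lit 2055) (List.cons (nat_lit 141) (List.cons (nat_lit 265) (List.cons (nat_lit 521) List.nil)))))) (nat_lit 3) (nat_lit 0))) (BT.leaf (Hd.mk (List.cons (nat_lit 3841) (List.cons (nat_lit 2273) (List.cons (nat_lit 2077) (List.cons (nat_lit 1171) (List.cons (nat_lit 2051) (List.cons (nat_lit 645) (List.cons (nat_lit 393) (List.cons (nat_lit 1093) (List.cons (nat_lit 1065) (List.cons (nat_lit 263) (List.cons (nat_lit 37) (List.cons (nat_lit 35) (List.cons (nat_lit 289) (List.cons (nat_lit 561) (List.cons (nat_lit 337) (List.cons (nat_lit 523) (List.cons (nat_lit 67) (List.cons (nat_lit 73) (List.cons (nat_lit 577)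
  (List.cons (nat_lit 2704) (List.cons (nat_lit 2320) List.nil))))))))))))))))))))) (nat_lit 3) (nat_lit 248)))) (BT.node (BT.leaf (Hd.mk (List.cons (nat_lit 3969) (List.cons (nat_lit 195) (List.cons (nat_lit 165) (List.cons (nat_lit 153) (List.cons (nat_lit 291) (List.cons (nat_lit 329) (List.cons (nat_lit 261) (List.cons (nat_lit 273) (List.cons (nat_lit 515) (List.cons (nat_lit 521) (List.cons (nat_lit 533) (List.cons (nat_lit 609) (List.cons (nat_lit 2067) List.nil))))))))))))) (nat_lit 3) (nat_lit 0))) (BT.leaf (Hd.mk (List.cons (nat_lit 3841) (List.cons (nat_lit 2273) (List.cons (nat_lit 1177) (List.cons (nat_lit 597) (List.cons (nat_lit 2067) (List.cons (nat_lit 2061) (List.cons (nat_lit 49) (List.cons (nat_lit 273) (List.cons (nat_lit 1091) (List.cons (nat_lit 1029) (List.cons (nat_lit 1057) (List.cons (nat_lit 73) (List.cons (nat_lit 321) List.nil))))))))))))) (nat_lit 3) (nat_lit 0))))) (BT.node (BT.node (BT.leaf (Hd.mk (List.cons (nat_lit 3969) (List.cons (nat_lit 2161) (List.cons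 (nat_lit 2051) (List.cons (nat_lit 2053) (List.cons (nat_lit 2057) (List.cons (nat_lit 153) (List.cons (nat_lit 277) (List.cons (nat_lit 529) (List.cons (nat_lit 19) (List.cons (nat_lit 1041) List.nil)))))))))) (nat_lit 3) (nat_lit 0))) (BT.leaf (Hd.mk (List.cons (nat_lit 3841) (List.cons (nat_lit 2273) (List.cons (nat_lit 2077) (List.cons (nat_lit 2051) (List.cons (nat_lit 1061) (List.cons (nat_lit 581) (List.cons (nat_lit 263) (List.cons (nat_lit 133) (List.cons (nat_lit 305) (List.cons (nat_lit 329) (List.cons (nat_lit 385) (List.cons (nat_lit 547) List.nil)))))))))))) (nat_lit 3) (nat_lit 0)))) (BT.node (BT.leaf (Hd.mk (List.cons (nat_lit 3969) (List.cons (nat_lit 195) (List.cons (nat_lit 165) (List.cons (nat_lit 137) (List.cons (nat_lit 145) (List.cons (nat_lit 275) (List.cons (nat_lit 269) (List.cons (nat_lit 289) (List.cons (nat_lit 321) (List.cons (nat_lit 2055) List.nil)))))))))) (nat_lit 3) (nat_lit 0))) (BT.leaf (Hd.mk (List.cons (nat_lit 3841) (List.cons (nat_lit 2273) (List.cons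 (nat_lit 1177) (List.cons (nat_lit 2061) (List.cons (nat_lit 2051) (List.cons (nat_lit 2065) (List.cons (nat_lit 1059) (List.cons (nat_lit 1029) (List.cons (nat_lit 1089) (List.cons (nat_lit 41) (List.cons (nat_lit 329) (List.cons (nat_lit 11) (List.cons (nat_lit 521) List.nil))))))))))))) (nat_lit 3) (nat_lit 0)))))) (BT.node (BT.node (BT.node (BT.leaf (Hd.mk (List.cons (nat_lit 3969) (List.cons (nat_lit 2161) (List.cons (nat_lit 2059) (List.cons (nat_lit 2053) (List.cons (nat_lit 153) (List.cons (nat_lit 277) (List.cons (nat_lit 529) (List.cons (nat_lit 19) (List.cons (nat_lit 1041) (List.cons (nat_lit 259) (List.cons (nat_lit 297) (List.cons (nat_lit 321) List.nil)))))))))))) (nat_lit 3) (nat_lit 0))) (BT.leaf (Hd.mk (List.cons (nat_lit 3841) (List.cons (nat_lit 2273) (List.cons (nat_lit 2077) (List.cons (nat_lit 1171) (List.cons (nat_lit 2051) (List.cons (nat_lit 645) (List.cons (nat_lit 393) (List.cons (nat_lit 1093) (List.cons (nat_lit 1065) (List.cons (nat_lit 263) (List.cons (nat_lit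 37) (List.cons (nat_lit 35) (List.cons (nat_lit 289) (List.cons (nat_lit 561) (List.cons (nat_lit 337) (List.cons (nat_lit 523) (List.cons (nat_lit 67) (List.cons (nat_lit 73) (List.cons (nat_lit 577) (List.cons (nat_lit 2192) (List.cons (nat_lit 3088) (List.cons (nat_lit 2434) (List.cons (nat_lit 2180) (List.cons (nat_lit 2320) (List.cons (nat_lit 2098) (List.cons (nat_lit 274) (List.cons (nat_lit 26) (List.cons (nat_lit 2128) (List.cons (nat_lit 2576) (List.cons (nat_lit 3104) (List.cons (nat_lit 3076) (List.cons (nat_lit 2688) (List.cons (nat_lit 2184) (List.cons (nat_lit 3200) List.nil)))))))))))))))))))))))))))))))))) (nat_lit 3) (nat_lit 248)))) (BT.node (BT.leaf (Hd.mk (List.cons (nat_lit 3969) (List.cons (nat_lit 195) (List.cons (nat_lit 165) (List.cons (nat_lit 153) (List.cons (nat_lit 291) (List.cons (nat_lit 265) List.nil)))))) (nat_lit 3) (nat_lit 0))) (BT.leaf (Hd.mk (List.cons (nat_lit 3841) (List.cons (nat_lit 2273) (List.cons (nat_lit 1177)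
  (List.cons (nat_lit 2061) (List.cons (nat_lit 2067) (List.cons (nat_lit 1061) (List.cons (nat_lit 1027) (List.cons (nat_lit 1089) List.nil)))))))) (nat_lit 3) (nat_lit 0))))) (BT.node (BT.node (BT.leaf (Hd.mk (List.cons (nat_lit 3969) (List.cons (nat_lit 195) (List.cons (nat_lit 165) (List.cons (nat_lit 153) (List.cons (nat_lit 291) (List.cons (nat_lit 329) (List.cons (nat_lit 261) (List.cons (nat_lit 273) (List.cons (nat_lit 531) (List.cons (nat_lit 1035) (List.cons (nat_lit 2055) (List.cons (nat_lit 525) (List.cons (nat_lit 2089) (List.cons (nat_lit 2065) (List.cons (nat_lit 2113) List.nil))))))))))))))) (nat_lit 3) (nat_lit 0))) (BT.leaf (Hd.mk (List.cons (nat_lit 3841) (List.cons (nat_lit 2273) (List.cons (nat_lit 2077) (List.cons (nat_lit 2051) (List.cons (nat_lit 1061) (List.cons (nat_lit 581) (List.cons (nat_lit 7) (List.cons (nat_lit 389) (List.cons (nat_lit 43) (List.cons (nat_lit 265) (List.cons (nat_lit 1097) (List.cons (nat_lit 137) (List.cons (nat_lit 521) List.nil)))))))))))))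 (nat_lit 3) (nat_lit 0)))) (BT.leaf (Hd.mk (List.cons (nat_lit 3841) (List.cons (nat_lit 2273) (List.cons (nat_lit 2077) (List.cons (nat_lit 1171) (List.cons (nat_lit 587) (List.cons (nat_lit 295) (List.cons (nat_lit 2051) (List.cons (nat_lit 1093) (List.cons (nat_lit 133) (List.cons (nat_lit 517) (List.cons (nat_lit 641) List.nil))))))))))) (nat_lit 3) (nat_lit 0)))))) (BT.node (BT.node (BT.node (BT.node (BT.leaf (Hd.mk (List.cons (nat_lit 3969) (List.cons (nat_lit 125) List.nil)) (nat_lit 5) (nat_lit 0))) (BT.leaf (Hd.mk (List.cons (nat_lit 3841) (List.cons (nat_lit 2273) (List.cons (nat_lit 2077) (List.cons (nat_lit 1171) (List.cons (nat_lit 2051) (List.cons (nat_lit 645) (List.cons (nat_lit 393) (List.cons (nat_lit 1093) (List.cons (nat_lit 1065) (List.cons (nat_lit 263) (List.cons (nat_lit 37) (List.cons (nat_lit 35) (List.cons (nat_lit 289) (List.cons (nat_lit 561) (List.cons (nat_lit 337) (List.cons (nat_lit 523) (List.cons (nat_lit 67) (List.cons (nat_lit 73) (List.cons (nat_lit 577)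 (List.cons (nat_lit 2192) (List.cons (nat_lit 3152) (List.cons (nat_lit 2576) (List.cons (nat_lit 1552) (List.cons (nat_lit 1048) (List.cons (nat_lit 3080) (List.cons (nat_lit 3200) (List.cons (nat_lit 208) List.nil))))))))))))))))))))))))))) (nat_lit 3) (nat_lit 248)))) (BT.node (BT.leaf (Hd.mk (List.cons (nat_lit 3969) (List.cons (nat_lit 195) (List.cons (nat_lit 165) (List.cons (nat_lit 153) (List.cons (nat_lit 291) (List.cons (nat_lit 265) (List.cons (nat_lit 325) (List.cons (nat_lit 273) (List.cons (nat_lit 531) (List.cons (nat_lit 517) (List.cons (nat_lit 1035) (List.cons (nat_lit 7) (List.cons (nat_lit 2051) List.nil))))))))))))) (nat_lit 3) (nat_lit 0))) (BT.leaf (Hd.mk (List.cons (nat_lit 3841) (List.cons (nat_lit 2273) (List.cons (nat_lit 1177) (List.cons (nat_lit 2061) (List.cons (nat_lit 2067) (List.cons (nat_lit 1061) (List.cons (nat_lit 1091) (List.cons (nat_lit 585) (List.cons (nat_lit 267) (List.cons (nat_lit 41) (List.cons (nat_lit 35) (List.cons (nat_lit 289) (List.cons (nat_lit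 49) (List.cons (nat_lit 545) List.nil)))))))))))))) (nat_lit 3) (nat_lit 0))))) (BT.node (BT.node (BT.leaf (Hd.mk (List.cons (nat_lit 3969) (List.cons (nat_lit 195) (List.cons (nat_lit 165) (List.cons (nat_lit 153) (List.cons (nat_lit 291) (List.cons (nat_lit 329) (List.cons (nat_lit 277) (List.cons (nat_lit 2067) (List.cons (nat_lit 523) (List.cons (nat_lit 1031) (List.cons (nat_lit 13) (List.cons (nat_lit 581) (List.cons (nat_lit 2053) (List.cons (nat_lit 1033) (List.cons (nat_lit 2089) (List.cons (nat_lit 2113) (List.cons (nat_lit 529) (List.cons (nat_lit 545) List.nil)))))))))))))))))) (nat_lit 3) (nat_lit 0))) (BT.leaf (Hd.mk (List.cons (nat_lit 3841) (List.cons (nat_lit 2273) (List.cons (nat_lit 2077) (List.cons (nat_lit 2051) (List.cons (nat_lit 1061) (List.cons (nat_lit 581) (List.cons (nat_lit 263) (List.cons (nat_lit 133) (List.cons (nat_lit 289) (List.cons (nat_lit 553) (List.cons (nat_lit 51) (List.cons (nat_lit 515) (List.cons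
  (nat_lit 657) List.nil))))))))))))) (nat_lit 3) (nat_lit 0)))) (BT.node (BT.leaf (Hd.mk (List.cons (nat_lit 3969) (List.cons (nat_lit 195) (List.cons (nat_lit 165) List.nil))) (nat_lit 3) (nat_lit 0))) (BT.leaf (Hd.mk (List.cons (nat_lit 3841) (List.cons (nat_lit 2273) (List.cons (nat_lit 1053) (List.cons (nat_lit 2055) (List.cons (nat_lit 2057) (List.cons (nat_lit 2065) (List.cons (nat_lit 1057) (List.cons (nat_lit 1089) (List.cons (nat_lit 1027) (List.cons (nat_lit 1153) (List.cons (nat_lit 549) (List.cons (nat_lit 325) (List.cons (nat_lit 133) List.nil))))))))))))) (nat_lit 3) (nat_lit 0)))))) (BT.node (BT.node (BT.node (BT.leaf (Hd.mk (List.cons (nat_lit 3969) (List.cons (nat_lit 2161) (List.cons (nat_lit 2059) (List.cons (nat_lit 2053) (List.cons (nat_lit 145) (List.cons (nat_lit 195) (List.cons (nat_lit 141) (List.cons (nat_lit 161) (List.cons (nat_lit 325) (List.cons (nat_lit 577) List.nil)))))))))) (nat_lit 3) (nat_lit 0))) (BT.leaf (Hd.mk (List.cons (nat_lit 3841) (List.cons (nat_lit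 2273) (List.cons (nat_lit 2077) (List.cons (nat_lit 1171) (List.cons (nat_lit 2051) (List.cons (nat_lit 645) (List.cons (nat_lit 393) (List.cons (nat_lit 1093) (List.cons (nat_lit 1065) (List.cons (nat_lit 263) (List.cons (nat_lit 37) (List.cons (nat_lit 35) (List.cons (nat_lit 289) (List.cons (nat_lit 561) (List.cons (nat_lit 337) (List.cons (nat_lit 523) (List.cons (nat_lit 67) (List.cons (nat_lit 73) (List.cons (nat_lit 577) List.nil))))))))))))))))))) (nat_lit 3) (nat_lit 248)))) (BT.node (BT.leaf (Hd.mk (List.cons (nat_lit 3969) (List.cons (nat_lit 195) (List.cons (nat_lit 165) (List.cons (nat_lit 137) (List.cons (nat_lit 145) (List.cons (nat_lit 291) (List.cons (nat_lit 531) (List.cons (nat_lit 1031) (List.cons (nat_lit 11) (List.cons (nat_lit 2051) (List.cons (nat_lit 517) (List.cons (nat_lit 585) (List.cons (nat_lit 545) List.nil))))))))))))) (nat_lit 3) (nat_lit 0))) (BT.leaf (Hd.mk (List.cons (nat_lit 3841) (List.cons (nat_lit 2273) (List.cons (nat_lit 1177) (List.cons (nat_lit 2061)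 (List.cons (nat_lit 2067) (List.cons (nat_lit 1057) (List.cons (nat_lit 1027) (List.cons (nat_lit 1029) (List.cons (nat_lit 1089) (List.cons (nat_lit 389) (List.cons (nat_lit 131) (List.cons (nat_lit 641) List.nil)))))))))))) (nat_lit 3) (nat_lit 0))))) (BT.node (BT.node (BT.leaf (Hd.mk (List.cons (nat_lit 3969) (List.cons (nat_lit 195) (List.cons (nat_lit 165) (List.cons (nat_lit 153) (List.cons (nat_lit 291) (List.cons (nat_lit 329) (List.cons (nat_lit 261) (List.cons (nat_lit 273) (List.cons (nat_lit 523) (List.cons (nat_lit 1027) (List.cons (nat_lit 23) (List.cons (nat_lit 2051) List.nil)))))))))))) (nat_lit 3) (nat_lit 0))) (BT.leaf (Hd.mk (List.cons (nat_lit 3841) (List.cons (nat_lit 2273) (List.cons (nat_lit 2077) (List.cons (nat_lit 2051) (List.cons (nat_lit 1061) (List.cons (nat_lit 69) (List.cons (nat_lit 261) List.nil))))))) (nat_lit 3) (nat_lit 0)))) (BT.leaf (Hd.mk (List.cons (nat_lit 3841) (List.cons (nat_lit 2273) (List.cons (nat_lit 2077) (List.cons (nat_lit 1171) (List.cons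 (nat_lit 2051) (List.cons (nat_lit 645) (List.cons (nat_lit 393) (List.cons (nat_lit 1093) (List.cons (nat_lit 1065) (List.cons (nat_lit 263) (List.cons (nat_lit 37) (List.cons (nat_lit 35) (List.cons (nat_lit 289) (List.cons (nat_lit 561) (List.cons (nat_lit 337) (List.cons (nat_lit 523) (List.cons (nat_lit 67) (List.cons (nat_lit 73) (List.cons (nat_lit 577) (List.cons (nat_lit 2704) (List.cons (nat_lit 2320) (List.cons (nat_lit 2066) (List.cons (nat_lit 3120) (List.cons (nat_lit 2128) (List.cons (nat_lit 3200) (List.cons (nat_lit 3076) (List.cons (nat_lit 2184) (List.cons (nat_lit 1044) (List.cons (nat_lit 1296) (List.cons (nat_lit 152) (List.cons (nat_lit 208) List.nil))))))))))))))))))))))))))))))) (nat_lit 3) (nat_lit 248)))))))) (BT.node (BT.node (BT.node (BT.node (BT.node (BT.node (BT.leaf (Hd.mk (List.cons (nat_lit 3969) (List.cons (nat_lit 2169) (List.cons (nat_lit 2055) (List.cons (nat_lit 141) (List.cons (nat_lit 267) (List.cons (nat_lit 521)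
  (List.cons (nat_lit 1033) (List.cons (nat_lit 145) (List.cons (nat_lit 273) (List.cons (nat_lit 161) (List.cons (nat_lit 131) (List.cons (nat_lit 193) List.nil)))))))))))) (nat_lit 3) (nat_lit 0))) (BT.leaf (Hd.mk (List.cons (nat_lit 3841) (List.cons (nat_lit 2273) (List.cons (nat_lit 2077) (List.cons (nat_lit 1171) (List.cons (nat_lit 2051) (List.cons (nat_lit 645) (List.cons (nat_lit 393) (List.cons (nat_lit 1093) (List.cons (nat_lit 1065) (List.cons (nat_lit 263) (List.cons (nat_lit 37) (List.cons (nat_lit 35) (List.cons (nat_lit 289) (List.cons (nat_lit 561) (List.cons (nat_lit 337) (List.cons (nat_lit 523) (List.cons (nat_lit 67) (List.cons (nat_lit 73) (List.cons (nat_lit 577) (List.cons (nat_lit 2704) (List.cons (nat_lit 2320) (List.cons (nat_lit 2066) (List.cons (nat_lit 2096) (List.cons (nat_lit 2128) (List.cons (nat_lit 3088) (List.cons (nat_lit 208) (List.cons (nat_lit 152) (List.cons (nat_lit 2184) (List.cons (nat_lit 3200) (List.cons (nat_lit 2568) List.nil))))))))))))))))))))))))))))))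 (nat_lit 3) (nat_lit 248)))) (BT.node (BT.leaf (Hd.mk (List.cons (nat_lit 3969) (List.cons (nat_lit 195) (List.cons (nat_lit 165) (List.cons (nat_lit 153) (List.cons (nat_lit 291) (List.cons (nat_lit 329) (List.cons (nat_lit 261) (List.cons (nat_lit 273) (List.cons (nat_lit 515) (List.cons (nat_lit 525) (List.cons (nat_lit 2059) (List.cons (nat_lit 41) (List.cons (nat_lit 1033) List.nil))))))))))))) (nat_lit 3) (nat_lit 0))) (BT.leaf (Hd.mk (List.cons (nat_lit 3841) (List.cons (nat_lit 2273) (List.cons (nat_lit 1177) (List.cons (nat_lit 597) (List.cons (nat_lit 2067) (List.cons (nat_lit 2061) (List.cons (nat_lit 305) (List.cons (nat_lit 1089) (List.cons (nat_lit 641) (List.cons (nat_lit 323) List.nil)))))))))) (nat_lit 3) (nat_lit 0))))) (BT.node (BT.node (BT.leaf (Hd.mk (List.cons (nat_lit 3969) (List.cons (nat_lit 2161) (List.cons (nat_lit 2059) (List.cons (nat_lit 2053) List.nil)))) (nat_lit 3) (nat_lit 0))) (BT.leaf (Hd.mk (List.cons (nat_lit 3841) (List.cons (nat_lit 2273) (List.cons (nat_lit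 2077) (List.cons (nat_lit 1171) (List.cons (nat_lit 2051) (List.cons (nat_lit 645) (List.cons (nat_lit 137) (List.cons (nat_lit 385) List.nil)))))))) (nat_lit 3) (nat_lit 0)))) (BT.node (BT.leaf (Hd.mk (List.cons (nat_lit 3969) (List.cons (nat_lit 195) (List.cons (nat_lit 165) (List.cons (nat_lit 137) (List.cons (nat_lit 145) (List.cons (nat_lit 291) List.nil)))))) (nat_lit 3) (nat_lit 0))) (BT.leaf (Hd.mk (List.cons (nat_lit 3841) (List.cons (nat_lit 2273) (List.cons (nat_lit 1177) (List.cons (nat_lit 2061) (List.cons (nat_lit 2051) (List.cons (nat_lit 2065) (List.cons (nat_lit 1061) (List.cons (nat_lit 1027) (List.cons (nat_lit 1089) List.nil))))))))) (nat_lit 3) (nat_lit 0)))))) (BT.node (BT.node (BT.node (BT.leaf (Hd.mk (List.cons (nat_lit 3969) (List.cons (nat_lit 2161) (List.cons (nat_lit 2059) (List.cons (nat_lit 2053) (List.cons (nat_lit 153) (List.cons (nat_lit 277) (List.cons (nat_lit 531) (List.cons (nat_lit 1041) (List.cons (nat_lit 259) (List.cons (nat_lit 289) (List.cons (nat_lit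 265) (List.cons (nat_lit 321) List.nil)))))))))))) (nat_lit 3) (nat_lit 0))) (BT.leaf (Hd.mk (List.cons (nat_lit 3841) (List.cons (nat_lit 2273) (List.cons (nat_lit 2077) (List.cons (nat_lit 1171) (List.cons (nat_lit 2051) (List.cons (nat_lit 645) (List.cons (nat_lit 393) (List.cons (nat_lit 1093) (List.cons (nat_lit 1065) (List.cons (nat_lit 263) (List.cons (nat_lit 37) (List.cons (nat_lit 35) (List.cons (nat_lit 289) (List.cons (nat_lit 561) (List.cons (nat_lit 337) (List.cons (nat_lit 523) (List.cons (nat_lit 67) (List.cons (nat_lit 73) (List.cons (nat_lit 577) (List.cons (nat_lit 2192) (List.cons (nat_lit 3088) (List.cons (nat_lit 2436) (List.cons (nat_lit 3200) (List.cons (nat_lit 2178) (List.cons (nat_lit 2184) (List.cons (nat_lit 2688) List.nil)))))))))))))))))))))))))) (nat_lit 3) (nat_lit 248)))) (BT.node (BT.leaf (Hd.mk (List.cons (nat_lit 3969) (List.cons (nat_lit 195) (List.cons (nat_lit 165) (List.cons (nat_lit 153) (List.cons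
  (nat_lit 291) (List.cons (nat_lit 265) (List.cons (nat_lit 261) (List.cons (nat_lit 273) (List.cons (nat_lit 321) (List.cons (nat_lit 531) (List.cons (nat_lit 1027) List.nil))))))))))) (nat_lit 3) (nat_lit 0))) (BT.leaf (Hd.mk (List.cons (nat_lit 3841) (List.cons (nat_lit 2273) (List.cons (nat_lit 1177) (List.cons (nat_lit 2061) (List.cons (nat_lit 2067) (List.cons (nat_lit 1061) (List.cons (nat_lit 1027) (List.cons (nat_lit 1089) (List.cons (nat_lit 561) List.nil))))))))) (nat_lit 3) (nat_lit 0))))) (BT.node (BT.node (BT.leaf (Hd.mk (List.cons (nat_lit 3969) (List.cons (nat_lit 195) (List.cons (nat_lit 165) (List.cons (nat_lit 153) (List.cons (nat_lit 291) (List.cons (nat_lit 329) (List.cons (nat_lit 277) (List.cons (nat_lit 19) (List.cons (nat_lit 523) (List.cons (nat_lit 1027) (List.cons (nat_lit 7) (List.cons (nat_lit 2051) List.nil)))))))))))) (nat_lit 3) (nat_lit 0))) (BT.leaf (Hd.mk (List.cons (nat_lit 3841) (List.cons (nat_lit 2273) (List.cons (nat_lit 2077) (List.cons (nat_lit 2051)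 (List.cons (nat_lit 1061) (List.cons (nat_lit 581) (List.cons (nat_lit 7) (List.cons (nat_lit 389) (List.cons (nat_lit 553) (List.cons (nat_lit 35) (List.cons (nat_lit 49) (List.cons (nat_lit 289) (List.cons (nat_lit 643) (List.cons (nat_lit 529) List.nil)))))))))))))) (nat_lit 3) (nat_lit 0)))) (BT.node (BT.leaf (Hd.mk (List.cons (nat_lit 3969) (List.cons (nat_lit 195) List.nil)) (nat_lit 3) (nat_lit 0))) (BT.leaf (Hd.mk (List.cons (nat_lit 3841) (List.cons (nat_lit 241) List.nil)) (nat_lit 4) (nat_lit 0))))))) (BT.node (BT.node (BT.node (BT.node (BT.leaf (Hd.mk (List.cons (nat_lit 3969) (List.cons (nat_lit 2169) (List.cons (nat_lit 2051) (List.cons (nat_lit 2053) (List.cons (nat_lit 137) (List.cons (nat_lit 265) (List.cons (nat_lit 521) (List.cons (nat_lit 15) (List.cons (nat_lit 1033) (List.cons (nat_lit 145) (List.cons (nat_lit 195) List.nil))))))))))) (nat_lit 3) (nat_lit 0))) (BT.leaf (Hd.mk (List.cons (nat_lit 3841) (List.cons (nat_lit 2273) (List.cons (nat_lit 2077) (List.cons (nat_lit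 1171) (List.cons (nat_lit 2051) (List.cons (nat_lit 645) (List.cons (nat_lit 393) (List.cons (nat_lit 1093) (List.cons (nat_lit 1065) (List.cons (nat_lit 263) (List.cons (nat_lit 37) (List.cons (nat_lit 35) (List.cons (nat_lit 289) (List.cons (nat_lit 561) (List.cons (nat_lit 337) (List.cons (nat_lit 523) (List.cons (nat_lit 67) (List.cons (nat_lit 73) (List.cons (nat_lit 577) (List.cons (nat_lit 2192) (List.cons (nat_lit 3152) (List.cons (nat_lit 2576) (List.cons (nat_lit 1552) (List.cons (nat_lit 1048) (List.cons (nat_lit 3080) (List.cons (nat_lit 3200) (List.cons (nat_lit 720) (List.cons (nat_lit 152) List.nil)))))))))))))))))))))))))))) (nat_lit 3) (nat_lit 248)))) (BT.node (BT.leaf (Hd.mk (List.cons (nat_lit 3969) (List.cons (nat_lit 195) (List.cons (nat_lit 165) (List.cons (nat_lit 153) (List.cons (nat_lit 291) (List.cons (nat_lit 265) (List.cons (nat_lit 325) (List.cons (nat_lit 273) (List.cons (nat_lit 531) (List.cons (nat_lit 525) (List.cons (nat_lit 545) (List.cons (nat_lit 577) (List.cons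 (nat_lit 2055) List.nil))))))))))))) (nat_lit 3) (nat_lit 0))) (BT.leaf (Hd.mk (List.cons (nat_lit 3841) (List.cons (nat_lit 2273) (List.cons (nat_lit 1177) (List.cons (nat_lit 583) List.nil)))) (nat_lit 4) (nat_lit 0))))) (BT.node (BT.node (BT.leaf (Hd.mk (List.cons (nat_lit 3969) (List.cons (nat_lit 121) (List.cons (nat_lit 141) List.nil))) (nat_lit 3) (nat_lit 0))) (BT.leaf (Hd.mk (List.cons (nat_lit 3841) (List.cons (nat_lit 2273) (List.cons (nat_lit 2077) (List.cons (nat_lit 2051) (List.cons (nat_lit 1061) (List.cons (nat_lit 581) (List.cons (nat_lit 263) (List.cons (nat_lit 133) (List.cons (nat_lit 305) (List.cons (nat_lit 321) (List.cons (nat_lit 265) (List.cons (nat_lit 385) List.nil)))))))))))) (nat_lit 3) (nat_lit 0)))) (BT.node (BT.leaf (Hd.mk (List.cons (nat_lit 3969) (List.cons (nat_lit 195) (List.cons (nat_lit 165) (List.cons (nat_lit 137) (List.cons (nat_lit 145) (List.cons (nat_lit 259) (List.cons (nat_lit 325) (List.cons (nat_lit 265)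
  (List.cons (nat_lit 273) (List.cons (nat_lit 289) (List.cons (nat_lit 533) List.nil))))))))))) (nat_lit 3) (nat_lit 0))) (BT.leaf (Hd.mk (List.cons (nat_lit 3841) (List.cons (nat_lit 2273) (List.cons (nat_lit 1053) (List.cons (nat_lit 2055) (List.cons (nat_lit 2057) (List.cons (nat_lit 2065) (List.cons (nat_lit 1059) (List.cons (nat_lit 1089) (List.cons (nat_lit 1153) (List.cons (nat_lit 37) (List.cons (nat_lit 581) (List.cons (nat_lit 389) (List.cons (nat_lit 553) List.nil))))))))))))) (nat_lit 3) (nat_lit 0)))))) (BT.node (BT.node (BT.node (BT.leaf (Hd.mk (List.cons (nat_lit 3969) (List.cons (nat_lit 2161) (List.cons (nat_lit 2059) (List.cons (nat_lit 2053) (List.cons (nat_lit 149) (List.cons (nat_lit 195) List.nil)))))) (nat_lit 3) (nat_lit 0))) (BT.leaf (Hd.mk (List.cons (nat_lit 3841) (List.cons (nat_lit 2273) (List.cons (nat_lit 2077) (List.cons (nat_lit 1171) (List.cons (nat_lit 2051) (List.cons (nat_lit 645) (List.cons (nat_lit 393) (List.cons (nat_lit 1093) (List.cons (nat_lit 1065)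 (List.cons (nat_lit 263) (List.cons (nat_lit 37) (List.cons (nat_lit 35) (List.cons (nat_lit 289) (List.cons (nat_lit 561) (List.cons (nat_lit 337) (List.cons (nat_lit 523) (List.cons (nat_lit 67) (List.cons (nat_lit 73) (List.cons (nat_lit 577) (List.cons (nat_lit 2192) (List.cons (nat_lit 3088) (List.cons (nat_lit 2432) (List.cons (nat_lit 2180) (List.cons (nat_lit 3208) (List.cons (nat_lit 2178) (List.cons (nat_lit 2688) List.nil)))))))))))))))))))))))))) (nat_lit 3) (nat_lit 248)))) (BT.node (BT.leaf (Hd.mk (List.cons (nat_lit 3969) (List.cons (nat_lit 195) (List.cons (nat_lit 165) (List.cons (nat_lit 137) (List.cons (nat_lit 145) (List.cons (nat_lit 291) (List.cons (nat_lit 531) (List.cons (nat_lit 1035) (List.cons (nat_lit 7) (List.cons (nat_lit 2051) List.nil)))))))))) (nat_lit 3) (nat_lit 0))) (BT.leaf (Hd.mk (List.cons (nat_lit 3841) (List.cons (nat_lit 2273) (List.cons (nat_lit 1177) (List.cons (nat_lit 2061) (List.cons (nat_lit 2067) (List.cons (nat_lit 1057) (List.cons (nat_lit 1027)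 (List.cons (nat_lit 1029) (List.cons (nat_lit 1089) (List.cons (nat_lit 389) (List.cons (nat_lit 643) (List.cons (nat_lit 71) (List.cons (nat_lit 43) (List.cons (nat_lit 259) List.nil)))))))))))))) (nat_lit 3) (nat_lit 0))))) (BT.node (BT.node (BT.leaf (Hd.mk (List.cons (nat_lit 3969) (List.cons (nat_lit 195) (List.cons (nat_lit 165) (List.cons (nat_lit 153) (List.cons (nat_lit 291) (List.cons (nat_lit 329) (List.cons (nat_lit 261) (List.cons (nat_lit 273) (List.cons (nat_lit 523) (List.cons (nat_lit 1031) (List.cons (nat_lit 19) (List.cons (nat_lit 2051) (List.cons (nat_lit 13) (List.cons (nat_lit 1065) (List.cons (nat_lit 2057) List.nil))))))))))))))) (nat_lit 3) (nat_lit 0))) (BT.leaf (Hd.mk (List.cons (nat_lit 3841) (List.cons (nat_lit 2273) (List.cons (nat_lit 2077) (List.cons (nat_lit 2051) (List.cons (nat_lit 1061) (List.cons (nat_lit 71) List.nil)))))) (nat_lit 3) (nat_lit 0)))) (BT.leaf (Hd.mk (List.cons (nat_lit 3841) (List.cons (nat_lit 2273) (List.cons (nat_lit 2077) (List.cons (nat_lit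 1171) (List.cons (nat_lit 2051) (List.cons (nat_lit 645) (List.cons (nat_lit 393) (List.cons (nat_lit 1093) (List.cons (nat_lit 1065) (List.cons (nat_lit 263) (List.cons (nat_lit 37) (List.cons (nat_lit 35) (List.cons (nat_lit 289) (List.cons (nat_lit 561) (List.cons (nat_lit 337) (List.cons (nat_lit 523) (List.cons (nat_lit 67) (List.cons (nat_lit 73) (List.cons (nat_lit 577) (List.cons (nat_lit 2704) (List.cons (nat_lit 2320) (List.cons (nat_lit 2130) List.nil)))))))))))))))))))))) (nat_lit 3) (nat_lit 248))))))) (BT.node (BT.node (BT.node (BT.node (BT.node (BT.leaf (Hd.mk (List.cons (nat_lit 3969) (List.cons (nat_lit 2169) (List.cons (nat_lit 2055) (List.cons (nat_lit 137) (List.cons (nat_lit 265) (List.cons (nat_lit 11) (List.cons (nat_lit 521) (List.cons (nat_lit 13) (List.cons (nat_lit 1033) (List.cons (nat_lit 145) (List.cons (nat_lit 195) List.nil))))))))))) (nat_lit 3) (nat_lit 0))) (BT.leaf (Hd.mk (List.cons (nat_lit 3841) (List.cons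
  (nat_lit 2273) (List.cons (nat_lit 2077) (List.cons (nat_lit 1171) (List.cons (nat_lit 2051) (List.cons (nat_lit 645) (List.cons (nat_lit 393) (List.cons (nat_lit 1093) (List.cons (nat_lit 1065) (List.cons (nat_lit 263) (List.cons (nat_lit 37) (List.cons (nat_lit 35) (List.cons (nat_lit 289) (List.cons (nat_lit 561) (List.cons (nat_lit 337) (List.cons (nat_lit 523) (List.cons (nat_lit 67) (List.cons (nat_lit 73) (List.cons (nat_lit 577) (List.cons (nat_lit 2192) (List.cons (nat_lit 3152) (List.cons (nat_lit 2576) (List.cons (nat_lit 1560) (List.cons (nat_lit 152) (List.cons (nat_lit 1664) (List.cons (nat_lit 88) (List.cons (nat_lit 1600) (List.cons (nat_lit 3080) (List.cons (nat_lit 3200) (List.cons (nat_lit 720) (List.cons (nat_lit 648) (List.cons (nat_lit 2568) (List.cons (nat_lit 2184) (List.cons (nat_lit 2688) (List.cons (nat_lit 1224) (List.cons (nat_lit 1328) (List.cons (nat_lit 1044) List.nil))))))))))))))))))))))))))))))))))))) (nat_lit 3) (nat_lit 248)))) (BT.node (BT.leaf (Hd.mk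 (List.cons (nat_lit 3969) (List.cons (nat_lit 195) (List.cons (nat_lit 165) (List.cons (nat_lit 153) (List.cons (nat_lit 291) (List.cons (nat_lit 329) List.nil)))))) (nat_lit 3) (nat_lit 0))) (BT.leaf (Hd.mk (List.cons (nat_lit 3841) (List.cons (nat_lit 2273) (List.cons (nat_lit 1177) (List.cons (nat_lit 597) (List.cons (nat_lit 2067) (List.cons (nat_lit 2053) (List.cons (nat_lit 2057) (List.cons (nat_lit 49) (List.cons (nat_lit 273) (List.cons (nat_lit 1089) (List.cons (nat_lit 641) List.nil))))))))))) (nat_lit 3) (nat_lit 0))))) (BT.node (BT.node (BT.leaf (Hd.mk (List.cons (nat_lit 3969) (List.cons (nat_lit 2161) (List.cons (nat_lit 2051) (List.cons (nat_lit 2053) (List.cons (nat_lit 2057) (List.cons (nat_lit 153) (List.cons (nat_lit 273) List.nil))))))) (nat_lit 3) (nat_lit 0))) (BT.leaf (Hd.mk (List.cons (nat_lit 3841) (List.cons (nat_lit 2273) (List.cons (nat_lit 2077) (List.cons (nat_lit 2051) (List.cons (nat_lit 1061) (List.cons (nat_lit 581) (List.cons (nat_lit 263) (List.cons (nat_lit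 133) (List.cons (nat_lit 305) (List.cons (nat_lit 329) (List.cons (nat_lit 385) (List.cons (nat_lit 35) (List.cons (nat_lit 41) (List.cons (nat_lit 545) List.nil)))))))))))))) (nat_lit 3) (nat_lit 0)))) (BT.node (BT.leaf (Hd.mk (List.cons (nat_lit 3969) (List.cons (nat_lit 195) (List.cons (nat_lit 165) (List.cons (nat_lit 137) (List.cons (nat_lit 145) (List.cons (nat_lit 275) (List.cons (nat_lit 261) (List.cons (nat_lit 329) (List.cons (nat_lit 289) (List.cons (nat_lit 547) (List.cons (nat_lit 1035) List.nil))))))))))) (nat_lit 3) (nat_lit 0))) (BT.leaf (Hd.mk (List.cons (nat_lit 3841) (List.cons (nat_lit 2273) (List.cons (nat_lit 1177) (List.cons (nat_lit 2061) (List.cons (nat_lit 2051) (List.cons (nat_lit 2065) (List.cons (nat_lit 1057) (List.cons (nat_lit 1031) (List.cons (nat_lit 1089) List.nil))))))))) (nat_lit 3) (nat_lit 0)))))) (BT.node (BT.node (BT.node (BT.leaf (Hd.mk (List.cons (nat_lit 3969) (List.cons (nat_lit 2161) (List.cons (nat_lit 2059) (List.cons (nat_lit 2053) (List.cons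 (nat_lit 153) (List.cons (nat_lit 275) (List.cons (nat_lit 529) (List.cons (nat_lit 21) (List.cons (nat_lit 1041) (List.cons (nat_lit 163) (List.cons (nat_lit 133) (List.cons (nat_lit 193) List.nil)))))))))))) (nat_lit 3) (nat_lit 0))) (BT.leaf (Hd.mk (List.cons (nat_lit 3841) (List.cons (nat_lit 2273) (List.cons (nat_lit 2077) (List.cons (nat_lit 1171) (List.cons (nat_lit 2051) (List.cons (nat_lit 645) (List.cons (nat_lit 393) (List.cons (nat_lit 1093) (List.cons (nat_lit 1065) (List.cons (nat_lit 263) (List.cons (nat_lit 37) (List.cons (nat_lit 35) (List.cons (nat_lit 289) (List.cons (nat_lit 561) (List.cons (nat_lit 337) (List.cons (nat_lit 523) (List.cons (nat_lit 67) (List.cons (nat_lit 73) (List.cons (nat_lit 577) (List.cons (nat_lit 2192) (List.cons (nat_lit 3088) (List.cons (nat_lit 2432) (List.cons (nat_lit 3204) (List.cons (nat_lit 3104) (List.cons (nat_lit 2340) (List.cons (nat_lit 2098) (List.cons (nat_lit 2320) (List.cons (nat_lit 2600) (List.cons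
  (nat_lit 2184) (List.cons (nat_lit 2178) (List.cons (nat_lit 2688) List.nil))))))))))))))))))))))))))))))) (nat_lit 3) (nat_lit 248)))) (BT.node (BT.leaf (Hd.mk (List.cons (nat_lit 3969) (List.cons (nat_lit 195) (List.cons (nat_lit 165) (List.cons (nat_lit 153) (List.cons (nat_lit 259) (List.cons (nat_lit 261) (List.cons (nat_lit 265) (List.cons (nat_lit 273) (List.cons (nat_lit 289) (List.cons (nat_lit 321) List.nil)))))))))) (nat_lit 3) (nat_lit 0))) (BT.leaf (Hd.mk (List.cons (nat_lit 3841) (List.cons (nat_lit 2273) (List.cons (nat_lit 1177) (List.cons (nat_lit 2061) (List.cons (nat_lit 2067) (List.cons (nat_lit 1057) (List.cons (nat_lit 1031) (List.cons (nat_lit 1089) (List.cons (nat_lit 643) (List.cons (nat_lit 133) (List.cons (nat_lit 385) (List.cons (nat_lit 291) (List.cons (nat_lit 75) List.nil))))))))))))) (nat_lit 3) (nat_lit 0))))) (BT.node (BT.node (BT.leaf (Hd.mk (List.cons (nat_lit 3969) (List.cons (nat_lit 195) (List.cons (nat_lit 165) (List.cons (nat_lit 153) (List.cons (nat_lit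 291) (List.cons (nat_lit 329) (List.cons (nat_lit 261) (List.cons (nat_lit 273) (List.cons (nat_lit 531) (List.cons (nat_lit 1035) (List.cons (nat_lit 2055) (List.cons (nat_lit 13) (List.cons (nat_lit 517) (List.cons (nat_lit 553) (List.cons (nat_lit 2057) (List.cons (nat_lit 577) List.nil)))))))))))))))) (nat_lit 3) (nat_lit 0))) (BT.leaf (Hd.mk (List.cons (nat_lit 3841) (List.cons (nat_lit 2273) (List.cons (nat_lit 2077) (List.cons (nat_lit 2051) (List.cons (nat_lit 1061) (List.cons (nat_lit 581) (List.cons (nat_lit 7) (List.cons (nat_lit 133) (List.cons (nat_lit 261) (List.cons (nat_lit 297) (List.cons (nat_lit 51) (List.cons (nat_lit 545) (List.cons (nat_lit 529) List.nil))))))))))))) (nat_lit 3) (nat_lit 0)))) (BT.leaf (Hd.mk (List.cons (nat_lit 3841) (List.cons (nat_lit 2273) (List.cons (nat_lit 2077) (List.cons (nat_lit 1171) (List.cons (nat_lit 2051) (List.cons (nat_lit 645) (List.cons (nat_lit 393) (List.cons (nat_lit 1093) (List.cons (nat_lit 1065) (List.cons (nat_lit 263) (List.cons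 (nat_lit 37) (List.cons (nat_lit 35) (List.cons (nat_lit 289) (List.cons (nat_lit 561) (List.cons (nat_lit 337) (List.cons (nat_lit 523) (List.cons (nat_lit 67) (List.cons (nat_lit 73) (List.cons (nat_lit 577) (List.cons (nat_lit 2704) (List.cons (nat_lit 2352) (List.cons (nat_lit 2066) (List.cons (nat_lit 2128) (List.cons (nat_lit 3088) (List.cons (nat_lit 400) (List.cons (nat_lit 148) List.nil)))))))))))))))))))))))))) (nat_lit 3) (nat_lit 248)))))) (BT.node (BT.node (BT.node (BT.node (BT.leaf (Hd.mk (List.cons (nat_lit 3969) (List.cons (nat_lit 2161) (List.cons (nat_lit 1101) (List.cons (nat_lit 555) (List.cons (nat_lit 2057) (List.cons (nat_lit 1057) (List.cons (nat_lit 577) (List.cons (nat_lit 1043) (List.cons (nat_lit 2051) (List.cons (nat_lit 2053) (List.cons (nat_lit 517) (List.cons (nat_lit 529) List.nil)))))))))))) (nat_lit 3) (nat_lit 0))) (BT.leaf (Hd.mk (List.cons (nat_lit 3841) (List.cons (nat_lit 2273) (List.cons (nat_lit 2077) (List.cons (nat_lit 1171) (List.cons (nat_lit 2051)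 (List.cons (nat_lit 645) (List.cons (nat_lit 393) (List.cons (nat_lit 1093) (List.cons (nat_lit 1065) (List.cons (nat_lit 263) (List.cons (nat_lit 37) (List.cons (nat_lit 35) (List.cons (nat_lit 289) (List.cons (nat_lit 561) (List.cons (nat_lit 337) (List.cons (nat_lit 523) (List.cons (nat_lit 67) (List.cons (nat_lit 73) (List.cons (nat_lit 577) (List.cons (nat_lit 2192) (List.cons (nat_lit 3088) (List.cons (nat_lit 2436) (List.cons (nat_lit 3208) (List.cons (nat_lit 1408) (List.cons (nat_lit 3076) (List.cons (nat_lit 2178) (List.cons (nat_lit 2688) List.nil))))))))))))))))))))))))))) (nat_lit 3) (nat_lit 248)))) (BT.node (BT.leaf (Hd.mk (List.cons (nat_lit 3969) (List.cons (nat_lit 195) (List.cons (nat_lit 165) (List.cons (nat_lit 153) (List.cons (nat_lit 291) (List.cons (nat_lit 265) (List.cons (nat_lit 325) (List.cons (nat_lit 273) (List.cons (nat_lit 519) (List.cons (nat_lit 2059) (List.cons (nat_lit 19) (List.cons (nat_lit 1027) List.nil))))))))))))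
  (nat_lit 3) (nat_lit 0))) (BT.leaf (Hd.mk (List.cons (nat_lit 3841) (List.cons (nat_lit 2273) (List.cons (nat_lit 1177) (List.cons (nat_lit 2061) (List.cons (nat_lit 2067) (List.cons (nat_lit 1061) (List.cons (nat_lit 1091) (List.cons (nat_lit 585) (List.cons (nat_lit 11) (List.cons (nat_lit 41) (List.cons (nat_lit 265) (List.cons (nat_lit 547) (List.cons (nat_lit 49) (List.cons (nat_lit 289) List.nil)))))))))))))) (nat_lit 3) (nat_lit 0))))) (BT.node (BT.node (BT.leaf (Hd.mk (List.cons (nat_lit 3969) (List.cons (nat_lit 195) (List.cons (nat_lit 165) (List.cons (nat_lit 153) (List.cons (nat_lit 291) (List.cons (nat_lit 329) (List.cons (nat_lit 277) (List.cons (nat_lit 2067) (List.cons (nat_lit 523) (List.cons (nat_lit 1031) (List.cons (nat_lit 13) (List.cons (nat_lit 517) (List.cons (nat_lit 2117) (List.cons (nat_lit 1033) (List.cons (nat_lit 2089) List.nil))))))))))))))) (nat_lit 3) (nat_lit 0))) (BT.leaf (Hd.mk (List.cons (nat_lit 3841) (List.cons (nat_lit 2273) (List.cons (nat_lit 2077)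 (List.cons (nat_lit 2051) (List.cons (nat_lit 1061) (List.cons (nat_lit 581) (List.cons (nat_lit 263) (List.cons (nat_lit 133) (List.cons (nat_lit 289) (List.cons (nat_lit 553) (List.cons (nat_lit 35) (List.cons (nat_lit 49) List.nil)))))))))))) (nat_lit 3) (nat_lit 0)))) (BT.node (BT.leaf (Hd.mk (List.cons (nat_lit 3969) (List.cons (nat_lit 195) (List.cons (nat_lit 133) (List.cons (nat_lit 137) (List.cons (nat_lit 145) (List.cons (nat_lit 161) (List.cons (nat_lit 291) (List.cons (nat_lit 531) (List.cons (nat_lit 1027) List.nil))))))))) (nat_lit 3) (nat_lit 0))) (BT.leaf (Hd.mk (List.cons (nat_lit 3841) (List.cons (nat_lit 2273) (List.cons (nat_lit 31) (List.cons (nat_lit 2051) (List.cons (nat_lit 2053) (List.cons (nat_lit 2057) (List.cons (nat_lit 2065) (List.cons (nat_lit 1059) (List.cons (nat_lit 579) (List.cons (nat_lit 387) (List.cons (nat_lit 549) (List.cons (nat_lit 1157) (List.cons (nat_lit 69) (List.cons (nat_lit 261) List.nil)))))))))))))) (nat_lit 3) (nat_lit 0)))))) (BT.node (BT.node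 (BT.node (BT.leaf (Hd.mk (List.cons (nat_lit 3969) (List.cons (nat_lit 2161) (List.cons (nat_lit 2059) (List.cons (nat_lit 2053) (List.cons (nat_lit 145) (List.cons (nat_lit 195) (List.cons (nat_lit 133) (List.cons (nat_lit 169) (List.cons (nat_lit 291) (List.cons (nat_lit 549) (List.cons (nat_lit 1057) List.nil))))))))))) (nat_lit 3) (nat_lit 0))) (BT.leaf (Hd.mk (List.cons (nat_lit 3841) (List.cons (nat_lit 2273) (List.cons (nat_lit 2077) (List.cons (nat_lit 1171) (List.cons (nat_lit 2051) (List.cons (nat_lit 645) (List.cons (nat_lit 393) (List.cons (nat_lit 1093) (List.cons (nat_lit 1033) (List.cons (nat_lit 1057) List.nil)))))))))) (nat_lit 3) (nat_lit 0)))) (BT.node (BT.leaf (Hd.mk (List.cons (nat_lit 3969) (List.cons (nat_lit 195) (List.cons (nat_lit 165) (List.cons (nat_lit 137) (List.cons (nat_lit 145) (List.cons (nat_lit 291) (List.cons (nat_lit 531) (List.cons (nat_lit 1027) (List.cons (nat_lit 7) (List.cons (nat_lit 11) (List.cons (nat_lit 2051) List.nil))))))))))) (nat_lit 3) (nat_lit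 0))) (BT.leaf (Hd.mk (List.cons (nat_lit 3841) (List.cons (nat_lit 2273) (List.cons (nat_lit 1177) (List.cons (nat_lit 2061) (List.cons (nat_lit 2051) (List.cons (nat_lit 2065) (List.cons (nat_lit 1061) (List.cons (nat_lit 1027) (List.cons (nat_lit 1089) (List.cons (nat_lit 389) (List.cons (nat_lit 643) (List.cons (nat_lit 7) (List.cons (nat_lit 533) (List.cons (nat_lit 69) List.nil)))))))))))))) (nat_lit 3) (nat_lit 0))))) (BT.node (BT.node (BT.leaf (Hd.mk (List.cons (nat_lit 3969) (List.cons (nat_lit 195) (List.cons (nat_lit 165) (List.cons (nat_lit 153) (List.cons (nat_lit 291) (List.cons (nat_lit 329) (List.cons (nat_lit 261) (List.cons (nat_lit 273) (List.cons (nat_lit 519) (List.cons (nat_lit 553) (List.cons (nat_lit 593) (List.cons (nat_lit 11) (List.cons (nat_lit 1043) (List.cons (nat_lit 2051) List.nil)))))))))))))) (nat_lit 3) (nat_lit 0))) (BT.leaf (Hd.mk (List.cons (nat_lit 3841) (List.cons (nat_lit 2273) (List.cons (nat_lit 2077) (List.cons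
  (nat_lit 2051) (List.cons (nat_lit 39) (List.cons (nat_lit 261) (List.cons (nat_lit 69) (List.cons (nat_lit 517) (List.cons (nat_lit 133) List.nil))))))))) (nat_lit 3) (nat_lit 0)))) (BT.leaf (Hd.mk (List.cons (nat_lit 3841) (List.cons (nat_lit 2273) (List.cons (nat_lit 2077) (List.cons (nat_lit 1171) (List.cons (nat_lit 2051) (List.cons (nat_lit 645) (List.cons (nat_lit 393) (List.cons (nat_lit 1093) (List.cons (nat_lit 1065) (List.cons (nat_lit 263) (List.cons (nat_lit 37) (List.cons (nat_lit 35) (List.cons (nat_lit 289) (List.cons (nat_lit 561) (List.cons (nat_lit 337) (List.cons (nat_lit 523) (List.cons (nat_lit 67) (List.cons (nat_lit 73) (List.cons (nat_lit 577) (List.cons (nat_lit 2704) (List.cons (nat_lit 2320) (List.cons (nat_lit 2066) (List.cons (nat_lit 2096) (List.cons (nat_lit 2128) (List.cons (nat_lit 3088) (List.cons (nat_lit 216) (List.cons (nat_lit 536) (List.cons (nat_lit 1048) (List.cons (nat_lit 2568) (List.cons (nat_lit 1216) (List.cons (nat_lit 2184) (List.cons (nat_lit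 3200) (List.cons (nat_lit 1552) (List.cons (nat_lit 1104) (List.cons (nat_lit 1664) (List.cons (nat_lit 648) (List.cons (nat_lit 1160) List.nil))))))))))))))))))))))))))))))))))))) (nat_lit 3) (nat_lit 248))))))))) (BT.node (BT.node (BT.node (BT.node (BT.node (BT.node (BT.node (BT.leaf (Hd.mk (List.cons (nat_lit 3969) (List.cons (nat_lit 2169) (List.cons (nat_lit 2055) (List.cons (nat_lit 141) (List.cons (nat_lit 267) (List.cons (nat_lit 521) (List.cons (nat_lit 1033) (List.cons (nat_lit 147) (List.cons (nat_lit 161) (List.cons (nat_lit 193) (List.cons (nat_lit 273) List.nil))))))))))) (nat_lit 3) (nat_lit 0))) (BT.leaf (Hd.mk (List.cons (nat_lit 3841) (List.cons (nat_lit 2273) (List.cons (nat_lit 2077) (List.cons (nat_lit 1171) (List.cons (nat_lit 2051) (List.cons (nat_lit 645) (List.cons (nat_lit 393) (List.cons (nat_lit 1093) (List.cons (nat_lit 1065) (List.cons (nat_lit 263) (List.cons (nat_lit 37) (List.cons (nat_lit 35) (List.cons (nat_lit 289) (List.cons (nat_lit 561) (List.cons (nat_lit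 337) (List.cons (nat_lit 523) (List.cons (nat_lit 67) (List.cons (nat_lit 73) (List.cons (nat_lit 577) (List.cons (nat_lit 2704) (List.cons (nat_lit 2320) (List.cons (nat_lit 2066) (List.cons (nat_lit 2096) (List.cons (nat_lit 2128) (List.cons (nat_lit 3088) (List.cons (nat_lit 208) (List.cons (nat_lit 152) (List.cons (nat_lit 2184) (List.cons (nat_lit 3200) (List.cons (nat_lit 2568) (List.cons (nat_lit 2624) (List.cons (nat_lit 1552) (List.cons (nat_lit 1672) (List.cons (nat_lit 1216) (List.cons (nat_lit 2178) (List.cons (nat_lit 2180) (List.cons (nat_lit 2432) List.nil))))))))))))))))))))))))))))))))))))) (nat_lit 3) (nat_lit 248)))) (BT.node (BT.leaf (Hd.mk (List.cons (nat_lit 3969) (List.cons (nat_lit 195) (List.cons (nat_lit 165) (List.cons (nat_lit 153) (List.cons (nat_lit 291) (List.cons (nat_lit 329) (List.cons (nat_lit 261) (List.cons (nat_lit 273) (List.cons (nat_lit 515) (List.cons (nat_lit 553) (List.cons (nat_lit 517) (List.cons (nat_lit 529) (List.cons (nat_lit 577) List.nil)))))))))))))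 (nat_lit 3) (nat_lit 0))) (BT.leaf (Hd.mk (List.cons (nat_lit 3841) (List.cons (nat_lit 2273) (List.cons (nat_lit 1177) (List.cons (nat_lit 597) (List.cons (nat_lit 2067) (List.cons (nat_lit 2061) (List.cons (nat_lit 305) (List.cons (nat_lit 1089) (List.cons (nat_lit 643) (List.cons (nat_lit 133) (List.cons (nat_lit 385) (List.cons (nat_lit 261) (List.cons (nat_lit 521) (List.cons (nat_lit 545) List.nil)))))))))))))) (nat_lit 3) (nat_lit 0))))) (BT.node (BT.node (BT.leaf (Hd.mk (List.cons (nat_lit 3969) (List.cons (nat_lit 2161) (List.cons (nat_lit 2059) (List.cons (nat_lit 2053) (List.cons (nat_lit 145) (List.cons (nat_lit 135) (List.cons (nat_lit 161) (List.cons (nat_lit 137) (List.cons (nat_lit 193) (List.cons (nat_lit 1043) List.nil)))))))))) (nat_lit 3) (nat_lit 0))) (BT.leaf (Hd.mk (List.cons (nat_lit 3841) (List.cons (nat_lit 2273) (List.cons (nat_lit 2077) (List.cons (nat_lit 1171) (List.cons (nat_lit 2051) (List.cons (nat_lit 645) (List.cons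
  (nat_lit 137) (List.cons (nat_lit 385) (List.cons (nat_lit 1029) (List.cons (nat_lit 1065) (List.cons (nat_lit 1089) List.nil))))))))))) (nat_lit 3) (nat_lit 0)))) (BT.node (BT.leaf (Hd.mk (List.cons (nat_lit 3969) (List.cons (nat_lit 195) (List.cons (nat_lit 165) (List.cons (nat_lit 137) (List.cons (nat_lit 145) (List.cons (nat_lit 291) (List.cons (nat_lit 519) (List.cons (nat_lit 1027) List.nil)))))))) (nat_lit 3) (nat_lit 0))) (BT.leaf (Hd.mk (List.cons (nat_lit 3841) (List.cons (nat_lit 2273) (List.cons (nat_lit 1177) (List.cons (nat_lit 2061) (List.cons (nat_lit 2051) (List.cons (nat_lit 2065) (List.cons (nat_lit 1061) (List.cons (nat_lit 1027) (List.cons (nat_lit 1089) (List.cons (nat_lit 385) (List.cons (nat_lit 135) (List.cons (nat_lit 641) (List.cons (nat_lit 325) List.nil))))))))))))) (nat_lit 3) (nat_lit 0)))))) (BT.node (BT.node (BT.node (BT.leaf (Hd.mk (List.cons (nat_lit 3969) (List.cons (nat_lit 2161) (List.cons (nat_lit 2059) (List.cons (nat_lit 2053) (List.cons (nat_lit 153)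 (List.cons (nat_lit 277) (List.cons (nat_lit 531) (List.cons (nat_lit 1041) (List.cons (nat_lit 323) (List.cons (nat_lit 297) List.nil)))))))))) (nat_lit 3) (nat_lit 0))) (BT.leaf (Hd.mk (List.cons (nat_lit 3841) (List.cons (nat_lit 2273) (List.cons (nat_lit 2077) (List.cons (nat_lit 1171) (List.cons (nat_lit 2051) (List.cons (nat_lit 645) (List.cons (nat_lit 393) (List.cons (nat_lit 1093) (List.cons (nat_lit 1065) (List.cons (nat_lit 263) (List.cons (nat_lit 37) (List.cons (nat_lit 35) (List.cons (nat_lit 289) (List.cons (nat_lit 561) (List.cons (nat_lit 337) (List.cons (nat_lit 523) (List.cons (nat_lit 67) (List.cons (nat_lit 73) (List.cons (nat_lit 577) (List.cons (nat_lit 2192) (List.cons (nat_lit 3088) (List.cons (nat_lit 2436) (List.cons (nat_lit 3200) (List.cons (nat_lit 2178) (List.cons (nat_lit 2184) (List.cons (nat_lit 2688) (List.cons (nat_lit 148) (List.cons (nat_lit 1156) (List.cons (nat_lit 2568) List.nil))))))))))))))))))))))))))))) (nat_lit 3) (nat_lit 248)))) (BT.node (BT.leaf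 (Hd.mk (List.cons (nat_lit 3969) (List.cons (nat_lit 195) (List.cons (nat_lit 165) (List.cons (nat_lit 153) (List.cons (nat_lit 291) (List.cons (nat_lit 265) (List.cons (nat_lit 261) (List.cons (nat_lit 273) (List.cons (nat_lit 321) (List.cons (nat_lit 531) (List.cons (nat_lit 1031) (List.cons (nat_lit 11) (List.cons (nat_lit 2051) List.nil))))))))))))) (nat_lit 3) (nat_lit 0))) (BT.leaf (Hd.mk (List.cons (nat_lit 3841) (List.cons (nat_lit 2273) (List.cons (nat_lit 1177) (List.cons (nat_lit 2061) (List.cons (nat_lit 2067) (List.cons (nat_lit 1061) (List.cons (nat_lit 1091) (List.cons (nat_lit 73) (List.cons (nat_lit 267) (List.cons (nat_lit 547) (List.cons (nat_lit 41) (List.cons (nat_lit 521) List.nil)))))))))))) (nat_lit 3) (nat_lit 0))))) (BT.node (BT.node (BT.leaf (Hd.mk (List.cons (nat_lit 3969) (List.cons (nat_lit 195) (List.cons (nat_lit 165) (List.cons (nat_lit 153) (List.cons (nat_lit 291) (List.cons (nat_lit 329) (List.cons (nat_lit 277) (List.cons (nat_lit 2067) List.nil)))))))) (nat_lit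 3) (nat_lit 0))) (BT.leaf (Hd.mk (List.cons (nat_lit 3841) (List.cons (nat_lit 2273) (List.cons (nat_lit 2077) (List.cons (nat_lit 2051) (List.cons (nat_lit 1061) (List.cons (nat_lit 581) (List.cons (nat_lit 7) (List.cons (nat_lit 389) (List.cons (nat_lit 553) (List.cons (nat_lit 35) (List.cons (nat_lit 305) (List.cons (nat_lit 259) (List.cons (nat_lit 329) (List.cons (nat_lit 1035) (List.cons (nat_lit 137) List.nil))))))))))))))) (nat_lit 3) (nat_lit 0)))) (BT.node (BT.leaf (Hd.mk (List.cons (nat_lit 3969) (List.cons (nat_lit 195) (List.cons (nat_lit 133) (List.cons (nat_lit 137) List.nil)))) (nat_lit 3) (nat_lit 0))) (BT.leaf (Hd.mk (List.cons (nat_lit 3841) (List.cons (nat_lit 2273) (List.cons (nat_lit 31) List.nil))) (nat_lit 4) (nat_lit 0))))))) (BT.node (BT.node (BT.node (BT.node (BT.leaf (Hd.mk (List.cons (nat_lit 3969) (List.cons (nat_lit 2169) (List.cons (nat_lit 2051) (List.cons (nat_lit 2053) (List.cons (nat_lit 141) List.nil))))) (nat_lit 3)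
  (nat_lit 0))) (BT.leaf (Hd.mk (List.cons (nat_lit 3841) (List.cons (nat_lit 2273) (List.cons (nat_lit 2077) (List.cons (nat_lit 1171) (List.cons (nat_lit 2051) (List.cons (nat_lit 645) (List.cons (nat_lit 393) (List.cons (nat_lit 1093) (List.cons (nat_lit 1065) (List.cons (nat_lit 263) (List.cons (nat_lit 37) (List.cons (nat_lit 35) (List.cons (nat_lit 289) (List.cons (nat_lit 561) (List.cons (nat_lit 337) (List.cons (nat_lit 523) (List.cons (nat_lit 67) (List.cons (nat_lit 73) (List.cons (nat_lit 577) (List.cons (nat_lit 2192) (List.cons (nat_lit 3152) (List.cons (nat_lit 2576) (List.cons (nat_lit 1552) (List.cons (nat_lit 1048) (List.cons (nat_lit 3080) (List.cons (nat_lit 3200) (List.cons (nat_lit 720) (List.cons (nat_lit 152) (List.cons (nat_lit 792) (List.cons (nat_lit 530) (List.cons (nat_lit 532) (List.cons (nat_lit 2184) (List.cons (nat_lit 2688) (List.cons (nat_lit 1672) (List.cons (nat_lit 1216) List.nil))))))))))))))))))))))))))))))))))) (nat_lit 3) (nat_lit 248)))) (BT.node (BT.leaf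 (Hd.mk (List.cons (nat_lit 3969) (List.cons (nat_lit 195) (List.cons (nat_lit 165) (List.cons (nat_lit 153) (List.cons (nat_lit 291) (List.cons (nat_lit 265) (List.cons (nat_lit 325) (List.cons (nat_lit 273) (List.cons (nat_lit 531) (List.cons (nat_lit 525) (List.cons (nat_lit 545) (List.cons (nat_lit 577) (List.cons (nat_lit 2055) (List.cons (nat_lit 1035) (List.cons (nat_lit 1045) List.nil))))))))))))))) (nat_lit 3) (nat_lit 0))) (BT.leaf (Hd.mk (List.cons (nat_lit 3841) (List.cons (nat_lit 2273) (List.cons (nat_lit 1177) (List.cons (nat_lit 583) (List.cons (nat_lit 1089) (List.cons (nat_lit 641) (List.cons (nat_lit 387) (List.cons (nat_lit 133) (List.cons (nat_lit 1027) (List.cons (nat_lit 1029) List.nil)))))))))) (nat_lit 3) (nat_lit 0))))) (BT.node (BT.node (BT.leaf (Hd.mk (List.cons (nat_lit 3969) (List.cons (nat_lit 121) (List.cons (nat_lit 141) (List.cons (nat_lit 265) (List.cons (nat_lit 521) List.nil))))) (nat_lit 3) (nat_lit 0))) (BT.leaf (Hd.mk (List.cons (nat_lit 3841) (List.cons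 (nat_lit 2273) (List.cons (nat_lit 2077) (List.cons (nat_lit 2051) (List.cons (nat_lit 1061) (List.cons (nat_lit 581) (List.cons (nat_lit 263) (List.cons (nat_lit 133) (List.cons (nat_lit 305) (List.cons (nat_lit 321) (List.cons (nat_lit 265) (List.cons (nat_lit 385) (List.cons (nat_lit 35) (List.cons (nat_lit 553) (List.cons (nat_lit 515) (List.cons (nat_lit 657) List.nil)))))))))))))))) (nat_lit 3) (nat_lit 0)))) (BT.node (BT.leaf (Hd.mk (List.cons (nat_lit 3969) (List.cons (nat_lit 195) (List.cons (nat_lit 165) (List.cons (nat_lit 137) (List.cons (nat_lit 145) (List.cons (nat_lit 275) (List.cons (nat_lit 261) List.nil))))))) (nat_lit 3) (nat_lit 0))) (BT.leaf (Hd.mk (List.cons (nat_lit 3841) (List.cons (nat_lit 2273) (List.cons (nat_lit 1053) (List.cons (nat_lit 2055) (List.cons (nat_lit 2057) (List.cons (nat_lit 2065) (List.cons (nat_lit 1059) (List.cons (nat_lit 1089) (List.cons (nat_lit 1153) (List.cons (nat_lit 549) (List.cons (nat_lit 325) (List.cons (nat_lit 133) (List.cons (nat_lit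 297) (List.cons (nat_lit 49) List.nil)))))))))))))) (nat_lit 3) (nat_lit 0)))))) (BT.node (BT.node (BT.node (BT.leaf (Hd.mk (List.cons (nat_lit 3969) (List.cons (nat_lit 2161) (List.cons (nat_lit 2059) (List.cons (nat_lit 2053) (List.cons (nat_lit 149) (List.cons (nat_lit 195) (List.cons (nat_lit 137) (List.cons (nat_lit 161) (List.cons (nat_lit 275) (List.cons (nat_lit 529) List.nil)))))))))) (nat_lit 3) (nat_lit 0))) (BT.leaf (Hd.mk (List.cons (nat_lit 3841) (List.cons (nat_lit 2273) (List.cons (nat_lit 2077) (List.cons (nat_lit 1171) (List.cons (nat_lit 2051) (List.cons (nat_lit 645) (List.cons (nat_lit 393) (List.cons (nat_lit 1093) (List.cons (nat_lit 1065) (List.cons (nat_lit 263) (List.cons (nat_lit 37) (List.cons (nat_lit 35) (List.cons (nat_lit 289) (List.cons (nat_lit 561) (List.cons (nat_lit 337) (List.cons (nat_lit 523) (List.cons (nat_lit 67) (List.cons (nat_lit 73) (List.cons (nat_lit 577) (List.cons (nat_lit 2192) (List.cons (nat_lit 3088)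
  (List.cons (nat_lit 2432) (List.cons (nat_lit 2182) List.nil))))))))))))))))))))))) (nat_lit 3) (nat_lit 248)))) (BT.node (BT.leaf (Hd.mk (List.cons (nat_lit 3969) (List.cons (nat_lit 195) (List.cons (nat_lit 165) (List.cons (nat_lit 137) (List.cons (nat_lit 145) (List.cons (nat_lit 291) (List.cons (nat_lit 531) (List.cons (nat_lit 1035) (List.cons (nat_lit 7) (List.cons (nat_lit 2051) (List.cons (nat_lit 525) (List.cons (nat_lit 545) (List.cons (nat_lit 577) List.nil))))))))))))) (nat_lit 3) (nat_lit 0))) (BT.leaf (Hd.mk (List.cons (nat_lit 3841) (List.cons (nat_lit 2273) (List.cons (nat_lit 1177) (List.cons (nat_lit 2061) (List.cons (nat_lit 2067) (List.cons (nat_lit 1057) (List.cons (nat_lit 1031) (List.cons (nat_lit 1089) (List.cons (nat_lit 131) (List.cons (nat_lit 385) (List.cons (nat_lit 133) (List.cons (nat_lit 641) List.nil)))))))))))) (nat_lit 3) (nat_lit 0))))) (BT.node (BT.node (BT.leaf (Hd.mk (List.cons (nat_lit 3969) (List.cons (nat_lit 195) (List.cons (nat_lit 165) (List.cons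 (nat_lit 153) (List.cons (nat_lit 291) (List.cons (nat_lit 329) (List.cons (nat_lit 261) (List.cons (nat_lit 273) (List.cons (nat_lit 531) (List.cons (nat_lit 1031) (List.cons (nat_lit 11) (List.cons (nat_lit 2051) List.nil)))))))))))) (nat_lit 3) (nat_lit 0))) (BT.leaf (Hd.mk (List.cons (nat_lit 3841) (List.cons (nat_lit 2273) (List.cons (nat_lit 2077) (List.cons (nat_lit 2051) (List.cons (nat_lit 1061) (List.cons (nat_lit 71) (List.cons (nat_lit 261) (List.cons (nat_lit 133) (List.cons (nat_lit 517) List.nil))))))))) (nat_lit 3) (nat_lit 0)))) (BT.leaf (Hd.mk (List.cons (nat_lit 3841) (List.cons (nat_lit 2273) (List.cons (nat_lit 2077) (List.cons (nat_lit 1171) (List.cons (nat_lit 2051) (List.cons (nat_lit 645) (List.cons (nat_lit 393) (List.cons (nat_lit 1093) (List.cons (nat_lit 1065) (List.cons (nat_lit 263) (List.cons (nat_lit 37) (List.cons (nat_lit 35) (List.cons (nat_lit 289) (List.cons (nat_lit 561) (List.cons (nat_lit 337) (List.cons (nat_lit 523) (List.cons (nat_lit 67) (List.cons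 (nat_lit 73) (List.cons (nat_lit 577) (List.cons (nat_lit 2704) (List.cons (nat_lit 2320) (List.cons (nat_lit 2130) (List.cons (nat_lit 2096) (List.cons (nat_lit 3088) (List.cons (nat_lit 3136) (List.cons (nat_lit 22) (List.cons (nat_lit 530) (List.cons (nat_lit 2116) (List.cons (nat_lit 2368) (List.cons (nat_lit 2632) (List.cons (nat_lit 2184) (List.cons (nat_lit 3080) (List.cons (nat_lit 3200) List.nil))))))))))))))))))))))))))))))))) (nat_lit 3) (nat_lit 248))))))) (BT.node (BT.node (BT.node (BT.node (BT.node (BT.leaf (Hd.mk (List.cons (nat_lit 3969) (List.cons (nat_lit 2169) (List.cons (nat_lit 2055) (List.cons (nat_lit 141) List.nil)))) (nat_lit 3) (nat_lit 0))) (BT.leaf (Hd.mk (List.cons (nat_lit 3841) (List.cons (nat_lit 2273) (List.cons (nat_lit 2077) (List.cons (nat_lit 1171) (List.cons (nat_lit 2051) (List.cons (nat_lit 645) (List.cons (nat_lit 393) (List.cons (nat_lit 1093) (List.cons (nat_lit 1065) (List.cons (nat_lit 263) (List.cons (nat_lit 37) (List.cons (nat_lit 35) (List.cons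 (nat_lit 289) (List.cons (nat_lit 561) (List.cons (nat_lit 337) (List.cons (nat_lit 523) (List.cons (nat_lit 67) (List.cons (nat_lit 73) (List.cons (nat_lit 577) (List.cons (nat_lit 2192) (List.cons (nat_lit 3152) (List.cons (nat_lit 2576) (List.cons (nat_lit 1560) (List.cons (nat_lit 152) (List.cons (nat_lit 1664) (List.cons (nat_lit 88) (List.cons (nat_lit 1600) (List.cons (nat_lit 3080) (List.cons (nat_lit 3200) (List.cons (nat_lit 720) (List.cons (nat_lit 2696) (List.cons (nat_lit 1224) (List.cons (nat_lit 1328) (List.cons (nat_lit 1044) List.nil)))))))))))))))))))))))))))))))))) (nat_lit 3) (nat_lit 248)))) (BT.node (BT.leaf (Hd.mk (List.cons (nat_lit 3969) (List.cons (nat_lit 195) (List.cons (nat_lit 165) (List.cons (nat_lit 153) (List.cons (nat_lit 291) (List.cons (nat_lit 329) (List.cons (nat_lit 261) (List.cons (nat_lit 273) (List.cons (nat_lit 515) (List.cons (nat_lit 521) (List.cons (nat_lit 517) (List.cons (nat_lit 2089) List.nil))))))))))))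
  (nat_lit 3) (nat_lit 0))) (BT.leaf (Hd.mk (List.cons (nat_lit 3841) (List.cons (nat_lit 2273) (List.cons (nat_lit 1177) (List.cons (nat_lit 597) (List.cons (nat_lit 2067) (List.cons (nat_lit 2061) (List.cons (nat_lit 49) (List.cons (nat_lit 273) (List.cons (nat_lit 1089) List.nil))))))))) (nat_lit 3) (nat_lit 0))))) (BT.node (BT.node (BT.leaf (Hd.mk (List.cons (nat_lit 3969) (List.cons (nat_lit 2161) (List.cons (nat_lit 2051) (List.cons (nat_lit 2053) (List.cons (nat_lit 2057) (List.cons (nat_lit 153) (List.cons (nat_lit 273) (List.cons (nat_lit 529) (List.cons (nat_lit 23) (List.cons (nat_lit 1041) List.nil)))))))))) (nat_lit 3) (nat_lit 0))) (BT.leaf (Hd.mk (List.cons (nat_lit 3841) (List.cons (nat_lit 2273) (List.cons (nat_lit 2077) (List.cons (nat_lit 2051) (List.cons (nat_lit 1061) (List.cons (nat_lit 581) (List.cons (nat_lit 263) (List.cons (nat_lit 133) (List.cons (nat_lit 305) (List.cons (nat_lit 329) (List.cons (nat_lit 385) (List.cons (nat_lit 35) (List.cons (nat_lit 553) (List.cons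 (nat_lit 11) (List.cons (nat_lit 1161) List.nil))))))))))))))) (nat_lit 3) (nat_lit 0)))) (BT.node (BT.leaf (Hd.mk (List.cons (nat_lit 3969) (List.cons (nat_lit 195) (List.cons (nat_lit 165) (List.cons (nat_lit 137) (List.cons (nat_lit 145) (List.cons (nat_lit 275) (List.cons (nat_lit 261) (List.cons (nat_lit 329) (List.cons (nat_lit 289) (List.cons (nat_lit 547) (List.cons (nat_lit 1035) (List.cons (nat_lit 2055) List.nil)))))))))))) (nat_lit 3) (nat_lit 0))) (BT.leaf (Hd.mk (List.cons (nat_lit 3841) (List.cons (nat_lit 2273) (List.cons (nat_lit 1177) (List.cons (nat_lit 2061) (List.cons (nat_lit 2051) (List.cons (nat_lit 2065) (List.cons (nat_lit 1057) (List.cons (nat_lit 1031) (List.cons (nat_lit 1089) (List.cons (nat_lit 643) (List.cons (nat_lit 133) (List.cons (nat_lit 385) (List.cons (nat_lit 585) List.nil))))))))))))) (nat_lit 3) (nat_lit 0)))))) (BT.node (BT.node (BT.node (BT.leaf (Hd.mk (List.cons (nat_lit 3969) (List.cons (nat_lit 2161) (List.cons (nat_lit 2059) (List.cons (nat_lit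 2053) (List.cons (nat_lit 153) (List.cons (nat_lit 275) (List.cons (nat_lit 529) (List.cons (nat_lit 21) (List.cons (nat_lit 1041) (List.cons (nat_lit 165) (List.cons (nat_lit 195) (List.cons (nat_lit 289) (List.cons (nat_lit 1031) List.nil))))))))))))) (nat_lit 3) (nat_lit 0))) (BT.leaf (Hd.mk (List.cons (nat_lit 3841) (List.cons (nat_lit 2273) (List.cons (nat_lit 2077) (List.cons (nat_lit 1171) (List.cons (nat_lit 2051) (List.cons (nat_lit 645) (List.cons (nat_lit 393) (List.cons (nat_lit 1093) (List.cons (nat_lit 1065) (List.cons (nat_lit 263) (List.cons (nat_lit 37) (List.cons (nat_lit 35) (List.cons (nat_lit 289) (List.cons (nat_lit 561) (List.cons (nat_lit 337) (List.cons (nat_lit 523) (List.cons (nat_lit 67) (List.cons (nat_lit 73) (List.cons (nat_lit 577) (List.cons (nat_lit 2192) (List.cons (nat_lit 3088) (List.cons (nat_lit 2434) List.nil)))))))))))))))))))))) (nat_lit 3) (nat_lit 248)))) (BT.node (BT.leaf (Hd.mk (List.cons (nat_lit 3969) (List.cons (nat_lit 195) (List.cons (nat_lit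 165) (List.cons (nat_lit 153) (List.cons (nat_lit 259) (List.cons (nat_lit 261) (List.cons (nat_lit 265) (List.cons (nat_lit 273) (List.cons (nat_lit 289) (List.cons (nat_lit 321) (List.cons (nat_lit 547) (List.cons (nat_lit 585) List.nil)))))))))))) (nat_lit 3) (nat_lit 0))) (BT.leaf (Hd.mk (List.cons (nat_lit 3841) (List.cons (nat_lit 2273) (List.cons (nat_lit 1177) (List.cons (nat_lit 2061) (List.cons (nat_lit 2067) (List.cons (nat_lit 1057) (List.cons (nat_lit 1031) (List.cons (nat_lit 1089) (List.cons (nat_lit 643) (List.cons (nat_lit 389) (List.cons (nat_lit 291) (List.cons (nat_lit 11) (List.cons (nat_lit 67) List.nil))))))))))))) (nat_lit 3) (nat_lit 0))))) (BT.node (BT.node (BT.leaf (Hd.mk (List.cons (nat_lit 3969) (List.cons (nat_lit 195) (List.cons (nat_lit 165) (List.cons (nat_lit 153) (List.cons (nat_lit 291) (List.cons (nat_lit 329) (List.cons (nat_lit 261) (List.cons (nat_lit 273) (List.cons (nat_lit 531) (List.cons (nat_lit 1035) (List.cons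
  (nat_lit 2055) (List.cons (nat_lit 525) (List.cons (nat_lit 41) (List.cons (nat_lit 2057) List.nil)))))))))))))) (nat_lit 3) (nat_lit 0))) (BT.leaf (Hd.mk (List.cons (nat_lit 3841) (List.cons (nat_lit 2273) (List.cons (nat_lit 2077) (List.cons (nat_lit 2051) (List.cons (nat_lit 1061) (List.cons (nat_lit 581) (List.cons (nat_lit 7) (List.cons (nat_lit 389) (List.cons (nat_lit 43) (List.cons (nat_lit 265) (List.cons (nat_lit 73) List.nil))))))))))) (nat_lit 3) (nat_lit 0)))) (BT.leaf (Hd.mk (List.cons (nat_lit 3841) (List.cons (nat_lit 2273) (List.cons (nat_lit 2077) (List.cons (nat_lit 1171) (List.cons (nat_lit 2051) (List.cons (nat_lit 645) (List.cons (nat_lit 393) (List.cons (nat_lit 1093) (List.cons (nat_lit 1065) (List.cons (nat_lit 263) (List.cons (nat_lit 37) (List.cons (nat_lit 35) (List.cons (nat_lit 289) (List.cons (nat_lit 561) (List.cons (nat_lit 337) (List.cons (nat_lit 523) (List.cons (nat_lit 67) (List.cons (nat_lit 73) (List.cons (nat_lit 577) (List.cons (nat_lit 2704) (List.cons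 (nat_lit 2352) (List.cons (nat_lit 2130) (List.cons (nat_lit 3088) (List.cons (nat_lit 404) (List.cons (nat_lit 2372) (List.cons (nat_lit 2432) (List.cons (nat_lit 2178) (List.cons (nat_lit 2180) (List.cons (nat_lit 3076) (List.cons (nat_lit 2306) (List.cons (nat_lit 2312) (List.cons (nat_lit 2184) (List.cons (nat_lit 3200) (List.cons (nat_lit 176) List.nil)))))))))))))))))))))))))))))))))) (nat_lit 3) (nat_lit 248)))))) (BT.node (BT.node (BT.node (BT.node (BT.leaf (Hd.mk (List.cons (nat_lit 3969) (List.cons (nat_lit 2161) (List.cons (nat_lit 1101) (List.cons (nat_lit 555) (List.cons (nat_lit 2057) (List.cons (nat_lit 1057) (List.cons (nat_lit 577) (List.cons (nat_lit 1043) (List.cons (nat_lit 2055) (List.cons (nat_lit 195) (List.cons (nat_lit 259) (List.cons (nat_lit 321) (List.cons (nat_lit 517) (List.cons (nat_lit 529) List.nil)))))))))))))) (nat_lit 3) (nat_lit 0))) (BT.leaf (Hd.mk (List.cons (nat_lit 3841) (List.cons (nat_lit 2273) (List.cons (nat_lit 2077) (List.cons (nat_lit 1171) (List.cons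 (nat_lit 2051) (List.cons (nat_lit 645) (List.cons (nat_lit 393) (List.cons (nat_lit 1093) (List.cons (nat_lit 1065) (List.cons (nat_lit 263) (List.cons (nat_lit 37) (List.cons (nat_lit 35) (List.cons (nat_lit 289) (List.cons (nat_lit 561) (List.cons (nat_lit 337) (List.cons (nat_lit 523) (List.cons (nat_lit 67) (List.cons (nat_lit 73) (List.cons (nat_lit 577) (List.cons (nat_lit 2192) (List.cons (nat_lit 3152) List.nil))))))))))))))))))))) (nat_lit 3) (nat_lit 248)))) (BT.node (BT.leaf (Hd.mk (List.cons (nat_lit 3969) (List.cons (nat_lit 195) (List.cons (nat_lit 165) (List.cons (nat_lit 153) (List.cons (nat_lit 291) (List.cons (nat_lit 265) (List.cons (nat_lit 325) (List.cons (nat_lit 273) (List.cons (nat_lit 531) (List.cons (nat_lit 517) List.nil)))))))))) (nat_lit 3) (nat_lit 0))) (BT.leaf (Hd.mk (List.cons (nat_lit 3841) (List.cons (nat_lit 2273) (List.cons (nat_lit 1177) (List.cons (nat_lit 2061) (List.cons (nat_lit 2067) (List.cons (nat_lit 1061) (List.cons (nat_lit 1091) (List.cons (nat_lit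 585) (List.cons (nat_lit 11) (List.cons (nat_lit 297) (List.cons (nat_lit 547) (List.cons (nat_lit 49) List.nil)))))))))))) (nat_lit 3) (nat_lit 0))))) (BT.node (BT.node (BT.leaf (Hd.mk (List.cons (nat_lit 3969) (List.cons (nat_lit 195) (List.cons (nat_lit 165) (List.cons (nat_lit 153) (List.cons (nat_lit 291) (List.cons (nat_lit 329) (List.cons (nat_lit 277) (List.cons (nat_lit 2067) (List.cons (nat_lit 523) (List.cons (nat_lit 1031) (List.cons (nat_lit 13) (List.cons (nat_lit 517) (List.cons (nat_lit 2117) (List.cons (nat_lit 1033) (List.cons (nat_lit 2089) (List.cons (nat_lit 593) (List.cons (nat_lit 545) (List.cons (nat_lit 1073) (List.cons (nat_lit 97) (List.cons (nat_lit 1089) List.nil)))))))))))))))))))) (nat_lit 3) (nat_lit 0))) (BT.leaf (Hd.mk (List.cons (nat_lit 3841) (List.cons (nat_lit 2273) (List.cons (nat_lit 2077) (List.cons (nat_lit 2051) (List.cons (nat_lit 1061) (List.cons (nat_lit 581) (List.cons (nat_lit 263) (List.cons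
  (nat_lit 133) (List.cons (nat_lit 289) (List.cons (nat_lit 553) (List.cons (nat_lit 35) (List.cons (nat_lit 49) (List.cons (nat_lit 531) (List.cons (nat_lit 641) List.nil)))))))))))))) (nat_lit 3) (nat_lit 0)))) (BT.node (BT.leaf (Hd.mk (List.cons (nat_lit 3969) (List.cons (nat_lit 195) (List.cons (nat_lit 133) (List.cons (nat_lit 137) (List.cons (nat_lit 145) (List.cons (nat_lit 161) (List.cons (nat_lit 291) (List.cons (nat_lit 531) (List.cons (nat_lit 1035) List.nil))))))))) (nat_lit 3) (nat_lit 0))) (BT.leaf (Hd.mk (List.cons (nat_lit 3841) (List.cons (nat_lit 2273) (List.cons (nat_lit 1053) (List.cons (nat_lit 2055) (List.cons (nat_lit 2057) (List.cons (nat_lit 2065) List.nil)))))) (nat_lit 3) (nat_lit 0)))))) (BT.node (BT.node (BT.node (BT.leaf (Hd.mk (List.cons (nat_lit 3969) (List.cons (nat_lit 2161) (List.cons (nat_lit 2059) (List.cons (nat_lit 2053) (List.cons (nat_lit 145) (List.cons (nat_lit 195) (List.cons (nat_lit 133) (List.cons (nat_lit 169) (List.cons (nat_lit 293) (List.cons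 (nat_lit 275) (List.cons (nat_lit 329) (List.cons (nat_lit 547) (List.cons (nat_lit 1057) List.nil))))))))))))) (nat_lit 3) (nat_lit 0))) (BT.leaf (Hd.mk (List.cons (nat_lit 3841) (List.cons (nat_lit 2273) (List.cons (nat_lit 2077) (List.cons (nat_lit 1171) (List.cons (nat_lit 2051) (List.cons (nat_lit 645) (List.cons (nat_lit 393) (List.cons (nat_lit 1093) (List.cons (nat_lit 1065) (List.cons (nat_lit 263) List.nil)))))))))) (nat_lit 3) (nat_lit 0)))) (BT.node (BT.leaf (Hd.mk (List.cons (nat_lit 3969) (List.cons (nat_lit 195) (List.cons (nat_lit 165) (List.cons (nat_lit 137) (List.cons (nat_lit 145) (List.cons (nat_lit 291) (List.cons (nat_lit 531) (List.cons (nat_lit 1031) List.nil)))))))) (nat_lit 3) (nat_lit 0))) (BT.leaf (Hd.mk (List.cons (nat_lit 3841) (List.cons (nat_lit 2273) (List.cons (nat_lit 1177) (List.cons (nat_lit 2061) (List.cons (nat_lit 2067) (List.cons (nat_lit 1057) (List.cons (nat_lit 1027) (List.cons (nat_lit 1029) (List.cons (nat_lit 1089) List.nil))))))))) (nat_lit 3)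 (nat_lit 0))))) (BT.node (BT.node (BT.leaf (Hd.mk (List.cons (nat_lit 3969) (List.cons (nat_lit 195) (List.cons (nat_lit 165) (List.cons (nat_lit 153) (List.cons (nat_lit 291) (List.cons (nat_lit 329) (List.cons (nat_lit 261) (List.cons (nat_lit 273) (List.cons (nat_lit 523) (List.cons (nat_lit 1027) (List.cons (nat_lit 7) (List.cons (nat_lit 19) (List.cons (nat_lit 2051) List.nil))))))))))))) (nat_lit 3) (nat_lit 0))) (BT.leaf (Hd.mk (List.cons (nat_lit 3841) (List.cons (nat_lit 2273) (List.cons (nat_lit 2077) (List.cons (nat_lit 2051) (List.cons (nat_lit 1061) List.nil))))) (nat_lit 3) (nat_lit 0)))) (BT.leaf (Hd.mk (List.cons (nat_lit 3841) (List.cons (nat_lit 2273) (List.cons (nat_lit 2077) (List.cons (nat_lit 1171) (List.cons (nat_lit 2051) (List.cons (nat_lit 645) (List.cons (nat_lit 393) (List.cons (nat_lit 1093) (List.cons (nat_lit 1065) (List.cons (nat_lit 263) (List.cons (nat_lit 37) (List.cons (nat_lit 35) (List.cons (nat_lit 289) (List.cons (nat_lit 561) (List.cons (nat_lit 337)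 (List.cons (nat_lit 523) (List.cons (nat_lit 67) (List.cons (nat_lit 73) (List.cons (nat_lit 577) (List.cons (nat_lit 2704) (List.cons (nat_lit 2320) (List.cons (nat_lit 2066) (List.cons (nat_lit 2096) (List.cons (nat_lit 2128) (List.cons (nat_lit 3088) (List.cons (nat_lit 216) (List.cons (nat_lit 536) (List.cons (nat_lit 1048) (List.cons (nat_lit 2568) (List.cons (nat_lit 1216) (List.cons (nat_lit 2184) (List.cons (nat_lit 3200) (List.cons (nat_lit 1616) (List.cons (nat_lit 1672) List.nil)))))))))))))))))))))))))))))))))) (nat_lit 3) (nat_lit 248)))))))) (BT.node (BT.node (BT.node (BT.node (BT.node (BT.node (BT.leaf (Hd.mk (List.cons (nat_lit 3969) (List.cons (nat_lit 2169) (List.cons (nat_lit 2055) (List.cons (nat_lit 141) (List.cons (nat_lit 265) (List.cons (nat_lit 521) (List.cons (nat_lit 11) (List.cons (nat_lit 1033) (List.cons (nat_lit 147) (List.cons (nat_lit 161) List.nil)))))))))) (nat_lit 3) (nat_lit 0))) (BT.leaf (Hd.mk (List.cons (nat_lit 3841)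
  (List.cons (nat_lit 2273) (List.cons (nat_lit 2077) (List.cons (nat_lit 1171) (List.cons (nat_lit 2051) (List.cons (nat_lit 645) (List.cons (nat_lit 393) (List.cons (nat_lit 1093) (List.cons (nat_lit 1065) (List.cons (nat_lit 263) (List.cons (nat_lit 37) (List.cons (nat_lit 35) (List.cons (nat_lit 289) (List.cons (nat_lit 561) (List.cons (nat_lit 337) (List.cons (nat_lit 523) (List.cons (nat_lit 67) (List.cons (nat_lit 73) (List.cons (nat_lit 577) (List.cons (nat_lit 2704) (List.cons (nat_lit 2320) (List.cons (nat_lit 2066) (List.cons (nat_lit 2096) (List.cons (nat_lit 2128) (List.cons (nat_lit 3088) (List.cons (nat_lit 208) List.nil)))))))))))))))))))))))))) (nat_lit 3) (nat_lit 248)))) (BT.node (BT.leaf (Hd.mk (List.cons (nat_lit 3969) (List.cons (nat_lit 195) (List.cons (nat_lit 165) (List.cons (nat_lit 153) (List.cons (nat_lit 291) (List.cons (nat_lit 329) (List.cons (nat_lit 261) (List.cons (nat_lit 273) (List.cons (nat_lit 515) (List.cons (nat_lit 521) (List.cons (nat_lit 581) (List.cons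 (nat_lit 561) (List.cons (nat_lit 2089) (List.cons (nat_lit 1121) (List.cons (nat_lit 2129) List.nil))))))))))))))) (nat_lit 3) (nat_lit 0))) (BT.leaf (Hd.mk (List.cons (nat_lit 3841) (List.cons (nat_lit 2273) (List.cons (nat_lit 1177) (List.cons (nat_lit 597) (List.cons (nat_lit 2067) (List.cons (nat_lit 2061) (List.cons (nat_lit 305) (List.cons (nat_lit 1089) List.nil)))))))) (nat_lit 3) (nat_lit 0))))) (BT.node (BT.node (BT.leaf (Hd.mk (List.cons (nat_lit 3969) (List.cons (nat_lit 2161) (List.cons (nat_lit 2051) (List.cons (nat_lit 2053) (List.cons (nat_lit 2057) (List.cons (nat_lit 153) (List.cons (nat_lit 277) (List.cons (nat_lit 531) (List.cons (nat_lit 1041) (List.cons (nat_lit 165) List.nil)))))))))) (nat_lit 3) (nat_lit 0))) (BT.leaf (Hd.mk (List.cons (nat_lit 3841) (List.cons (nat_lit 2273) (List.cons (nat_lit 2077) (List.cons (nat_lit 1171) List.nil)))) (nat_lit 4) (nat_lit 0)))) (BT.node (BT.leaf (Hd.mk (List.cons (nat_lit 3969) (List.cons (nat_lit 195) (List.cons (nat_lit 165) (List.cons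 (nat_lit 137) (List.cons (nat_lit 145) (List.cons (nat_lit 275) (List.cons (nat_lit 325) (List.cons (nat_lit 265) (List.cons (nat_lit 289) (List.cons (nat_lit 523) (List.cons (nat_lit 517) List.nil))))))))))) (nat_lit 3) (nat_lit 0))) (BT.leaf (Hd.mk (List.cons (nat_lit 3841) (List.cons (nat_lit 2273) (List.cons (nat_lit 1177) (List.cons (nat_lit 2061) (List.cons (nat_lit 2051) (List.cons (nat_lit 2065) (List.cons (nat_lit 1059) (List.cons (nat_lit 1029) (List.cons (nat_lit 1089) (List.cons (nat_lit 553) List.nil)))))))))) (nat_lit 3) (nat_lit 0)))))) (BT.node (BT.node (BT.node (BT.leaf (Hd.mk (List.cons (nat_lit 3969) (List.cons (nat_lit 2161) (List.cons (nat_lit 2059) (List.cons (nat_lit 2053) (List.cons (nat_lit 153) (List.cons (nat_lit 277) (List.cons (nat_lit 529) (List.cons (nat_lit 19) (List.cons (nat_lit 1041) (List.cons (nat_lit 323) (List.cons (nat_lit 297) List.nil))))))))))) (nat_lit 3) (nat_lit 0))) (BT.leaf (Hd.mk (List.cons (nat_lit 3841) (List.cons (nat_lit 2273) (List.cons (nat_lit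 2077) (List.cons (nat_lit 1171) (List.cons (nat_lit 2051) (List.cons (nat_lit 645) (List.cons (nat_lit 393) (List.cons (nat_lit 1093) (List.cons (nat_lit 1065) (List.cons (nat_lit 263) (List.cons (nat_lit 37) (List.cons (nat_lit 35) (List.cons (nat_lit 289) (List.cons (nat_lit 561) (List.cons (nat_lit 337) (List.cons (nat_lit 523) (List.cons (nat_lit 67) (List.cons (nat_lit 73) (List.cons (nat_lit 577) (List.cons (nat_lit 2192) (List.cons (nat_lit 3088) (List.cons (nat_lit 2434) (List.cons (nat_lit 3204) (List.cons (nat_lit 2184) (List.cons (nat_lit 2688) List.nil))))))))))))))))))))))))) (nat_lit 3) (nat_lit 248)))) (BT.node (BT.leaf (Hd.mk (List.cons (nat_lit 3969) (List.cons (nat_lit 195) (List.cons (nat_lit 165) (List.cons (nat_lit 153) (List.cons (nat_lit 291) (List.cons (nat_lit 265) (List.cons (nat_lit 261) (List.cons (nat_lit 273) (List.cons (nat_lit 321) List.nil))))))))) (nat_lit 3) (nat_lit 0))) (BT.leaf (Hd.mk (List.cons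
  (nat_lit 3841) (List.cons (nat_lit 2273) (List.cons (nat_lit 1177) (List.cons (nat_lit 2061) (List.cons (nat_lit 2067) (List.cons (nat_lit 1061) (List.cons (nat_lit 1027) (List.cons (nat_lit 1089) (List.cons (nat_lit 49) (List.cons (nat_lit 337) (List.cons (nat_lit 21) (List.cons (nat_lit 529) List.nil)))))))))))) (nat_lit 3) (nat_lit 0))))) (BT.node (BT.node (BT.leaf (Hd.mk (List.cons (nat_lit 3969) (List.cons (nat_lit 195) (List.cons (nat_lit 165) (List.cons (nat_lit 153) (List.cons (nat_lit 291) (List.cons (nat_lit 329) (List.cons (nat_lit 261) (List.cons (nat_lit 273) (List.cons (nat_lit 531) (List.cons (nat_lit 1035) (List.cons (nat_lit 2055) (List.cons (nat_lit 525) (List.cons (nat_lit 2089) (List.cons (nat_lit 2129) List.nil)))))))))))))) (nat_lit 3) (nat_lit 0))) (BT.leaf (Hd.mk (List.cons (nat_lit 3841) (List.cons (nat_lit 2273) (List.cons (nat_lit 2077) (List.cons (nat_lit 2051) (List.cons (nat_lit 1061) (List.cons (nat_lit 581) (List.cons (nat_lit 7) (List.cons (nat_lit 389) (List.cons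 (nat_lit 553) List.nil))))))))) (nat_lit 3) (nat_lit 0)))) (BT.node (BT.leaf (Hd.mk (List.cons (nat_lit 3969) List.nil) (nat_lit 5) (nat_lit 0))) (BT.leaf (Hd.mk List.nil (nat_lit 5) (nat_lit 0))))))) (BT.node (BT.node (BT.node (BT.node (BT.leaf (Hd.mk (List.cons (nat_lit 3969) (List.cons (nat_lit 125) (List.cons (nat_lit 135) (List.cons (nat_lit 261) (List.cons (nat_lit 517) (List.cons (nat_lit 1029) (List.cons (nat_lit 2053) List.nil))))))) (nat_lit 3) (nat_lit 0))) (BT.leaf (Hd.mk (List.cons (nat_lit 3841) (List.cons (nat_lit 2273) (List.cons (nat_lit 2077) (List.cons (nat_lit 1171) (List.cons (nat_lit 2051) (List.cons (nat_lit 645) (List.cons (nat_lit 393) (List.cons (nat_lit 1093) (List.cons (nat_lit 1065) (List.cons (nat_lit 263) (List.cons (nat_lit 37) (List.cons (nat_lit 35) (List.cons (nat_lit 289) (List.cons (nat_lit 561) (List.cons (nat_lit 337) (List.cons (nat_lit 523) (List.cons (nat_lit 67) (List.cons (nat_lit 73) (List.cons (nat_lit 577) (List.cons (nat_lit 2192) (List.cons (nat_lit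 3152) (List.cons (nat_lit 2576) (List.cons (nat_lit 1552) (List.cons (nat_lit 1048) (List.cons (nat_lit 3080) (List.cons (nat_lit 3200) (List.cons (nat_lit 208) (List.cons (nat_lit 1216) (List.cons (nat_lit 2180) (List.cons (nat_lit 2432) (List.cons (nat_lit 2690) List.nil))))))))))))))))))))))))))))))) (nat_lit 3) (nat_lit 248)))) (BT.node (BT.leaf (Hd.mk (List.cons (nat_lit 3969) (List.cons (nat_lit 195) (List.cons (nat_lit 165) (List.cons (nat_lit 153) (List.cons (nat_lit 291) (List.cons (nat_lit 265) (List.cons (nat_lit 325) (List.cons (nat_lit 273) (List.cons (nat_lit 531) (List.cons (nat_lit 517) (List.cons (nat_lit 1035) (List.cons (nat_lit 2055) (List.cons (nat_lit 13) (List.cons (nat_lit 1045) List.nil)))))))))))))) (nat_lit 3) (nat_lit 0))) (BT.leaf (Hd.mk (List.cons (nat_lit 3841) (List.cons (nat_lit 2273) (List.cons (nat_lit 1177) (List.cons (nat_lit 2061) (List.cons (nat_lit 2067) (List.cons (nat_lit 1061) (List.cons (nat_lit 1091) (List.cons (nat_lit 585) (List.cons (nat_lit 267)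 (List.cons (nat_lit 41) (List.cons (nat_lit 35) (List.cons (nat_lit 305) (List.cons (nat_lit 545) List.nil))))))))))))) (nat_lit 3) (nat_lit 0))))) (BT.node (BT.node (BT.leaf (Hd.mk (List.cons (nat_lit 3969) (List.cons (nat_lit 195) (List.cons (nat_lit 165) (List.cons (nat_lit 153) (List.cons (nat_lit 291) (List.cons (nat_lit 329) (List.cons (nat_lit 277) (List.cons (nat_lit 2067) (List.cons (nat_lit 523) (List.cons (nat_lit 1031) (List.cons (nat_lit 2061) (List.cons (nat_lit 581) (List.cons (nat_lit 41) (List.cons (nat_lit 1033) (List.cons (nat_lit 529) (List.cons (nat_lit 545) List.nil)))))))))))))))) (nat_lit 3) (nat_lit 0))) (BT.leaf (Hd.mk (List.cons (nat_lit 3841) (List.cons (nat_lit 2273) (List.cons (nat_lit 2077) (List.cons (nat_lit 2051) (List.cons (nat_lit 1061) (List.cons (nat_lit 581) (List.cons (nat_lit 263) (List.cons (nat_lit 133) (List.cons (nat_lit 289) (List.cons (nat_lit 553) (List.cons (nat_lit 51) (List.cons (nat_lit 643)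
  (List.cons (nat_lit 529) (List.cons (nat_lit 1035) (List.cons (nat_lit 67) List.nil))))))))))))))) (nat_lit 3) (nat_lit 0)))) (BT.node (BT.leaf (Hd.mk (List.cons (nat_lit 3969) (List.cons (nat_lit 195) (List.cons (nat_lit 165) (List.cons (nat_lit 137) (List.cons (nat_lit 145) (List.cons (nat_lit 259) (List.cons (nat_lit 325) (List.cons (nat_lit 265) (List.cons (nat_lit 273) (List.cons (nat_lit 289) List.nil)))))))))) (nat_lit 3) (nat_lit 0))) (BT.leaf (Hd.mk (List.cons (nat_lit 3841) (List.cons (nat_lit 2273) (List.cons (nat_lit 1053) (List.cons (nat_lit 2055) (List.cons (nat_lit 2057) (List.cons (nat_lit 2065) (List.cons (nat_lit 1059) (List.cons (nat_lit 1089) (List.cons (nat_lit 1153) (List.cons (nat_lit 37) (List.cons (nat_lit 581) List.nil))))))))))) (nat_lit 3) (nat_lit 0)))))) (BT.node (BT.node (BT.node (BT.leaf (Hd.mk (List.cons (nat_lit 3969) (List.cons (nat_lit 2161) (List.cons (nat_lit 2059) (List.cons (nat_lit 2053) (List.cons (nat_lit 145) (List.cons (nat_lit 195) (List.cons (nat_lit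 141) (List.cons (nat_lit 161) (List.cons (nat_lit 329) (List.cons (nat_lit 581) (List.cons (nat_lit 1089) (List.cons (nat_lit 547) List.nil)))))))))))) (nat_lit 3) (nat_lit 0))) (BT.leaf (Hd.mk (List.cons (nat_lit 3841) (List.cons (nat_lit 2273) (List.cons (nat_lit 2077) (List.cons (nat_lit 1171) (List.cons (nat_lit 2051) (List.cons (nat_lit 645) (List.cons (nat_lit 393) (List.cons (nat_lit 1093) (List.cons (nat_lit 1065) (List.cons (nat_lit 263) (List.cons (nat_lit 37) (List.cons (nat_lit 35) (List.cons (nat_lit 289) (List.cons (nat_lit 561) (List.cons (nat_lit 337) (List.cons (nat_lit 523) (List.cons (nat_lit 67) (List.cons (nat_lit 73) (List.cons (nat_lit 577) (List.cons (nat_lit 2192) (List.cons (nat_lit 3088) (List.cons (nat_lit 2432) (List.cons (nat_lit 2180) (List.cons (nat_lit 3200) (List.cons (nat_lit 2178) (List.cons (nat_lit 2184) (List.cons (nat_lit 2688) (List.cons (nat_lit 2372) (List.cons (nat_lit 3076) (List.cons (nat_lit 3104) (List.cons (nat_lit 2320) (List.cons (nat_lit 2096)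 (List.cons (nat_lit 204) (List.cons (nat_lit 1216) (List.cons (nat_lit 448) List.nil))))))))))))))))))))))))))))))))))) (nat_lit 3) (nat_lit 248)))) (BT.node (BT.leaf (Hd.mk (List.cons (nat_lit 3969) (List.cons (nat_lit 195) (List.cons (nat_lit 165) (List.cons (nat_lit 137) (List.cons (nat_lit 145) (List.cons (nat_lit 291) (List.cons (nat_lit 531) (List.cons (nat_lit 1031) (List.cons (nat_lit 11) (List.cons (nat_lit 2051) (List.cons (nat_lit 581) (List.cons (nat_lit 521) (List.cons (nat_lit 545) List.nil))))))))))))) (nat_lit 3) (nat_lit 0))) (BT.leaf (Hd.mk (List.cons (nat_lit 3841) (List.cons (nat_lit 2273) (List.cons (nat_lit 1177) (List.cons (nat_lit 2061) (List.cons (nat_lit 2067) (List.cons (nat_lit 1057) (List.cons (nat_lit 1027) (List.cons (nat_lit 1029) (List.cons (nat_lit 1089) (List.cons (nat_lit 389) (List.cons (nat_lit 643) (List.cons (nat_lit 7) (List.cons (nat_lit 291) List.nil))))))))))))) (nat_lit 3) (nat_lit 0))))) (BT.node (BT.node (BT.leaf (Hd.mk (List.cons (nat_lit 3969)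 (List.cons (nat_lit 195) (List.cons (nat_lit 165) (List.cons (nat_lit 153) (List.cons (nat_lit 291) (List.cons (nat_lit 329) (List.cons (nat_lit 261) (List.cons (nat_lit 273) (List.cons (nat_lit 523) (List.cons (nat_lit 1031) (List.cons (nat_lit 19) (List.cons (nat_lit 2051) List.nil)))))))))))) (nat_lit 3) (nat_lit 0))) (BT.leaf (Hd.mk (List.cons (nat_lit 3841) (List.cons (nat_lit 2273) (List.cons (nat_lit 2077) (List.cons (nat_lit 2051) (List.cons (nat_lit 1061) (List.cons (nat_lit 69) (List.cons (nat_lit 261) (List.cons (nat_lit 7) (List.cons (nat_lit 133) (List.cons (nat_lit 517) (List.cons (nat_lit 553) List.nil))))))))))) (nat_lit 3) (nat_lit 0)))) (BT.leaf (Hd.mk (List.cons (nat_lit 3841) (List.cons (nat_lit 2273) (List.cons (nat_lit 2077) (List.cons (nat_lit 1171) (List.cons (nat_lit 2051) (List.cons (nat_lit 645) (List.cons (nat_lit 393) (List.cons (nat_lit 1093) (List.cons (nat_lit 1065) (List.cons (nat_lit 263) (List.cons (nat_lit 37)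
  (List.cons (nat_lit 35) (List.cons (nat_lit 289) (List.cons (nat_lit 561) (List.cons (nat_lit 337) (List.cons (nat_lit 523) (List.cons (nat_lit 67) (List.cons (nat_lit 73) (List.cons (nat_lit 577) (List.cons (nat_lit 2704) (List.cons (nat_lit 2320) (List.cons (nat_lit 2066) (List.cons (nat_lit 3120) (List.cons (nat_lit 2128) (List.cons (nat_lit 3200) (List.cons (nat_lit 3076) (List.cons (nat_lit 2184) (List.cons (nat_lit 1300) (List.cons (nat_lit 148) (List.cons (nat_lit 1408) (List.cons (nat_lit 52) (List.cons (nat_lit 1312) (List.cons (nat_lit 208) (List.cons (nat_lit 152) (List.cons (nat_lit 432) List.nil))))))))))))))))))))))))))))))))))) (nat_lit 3) (nat_lit 248))))))) (BT.node (BT.node (BT.node (BT.node (BT.node (BT.leaf (Hd.mk (List.cons (nat_lit 3969) (List.cons (nat_lit 2169) (List.cons (nat_lit 2051) (List.cons (nat_lit 2053) (List.cons (nat_lit 141) (List.cons (nat_lit 267) (List.cons (nat_lit 521) (List.cons (nat_lit 1033) List.nil)))))))) (nat_lit 3) (nat_lit 0))) (BT.leaf (Hd.mk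 (List.cons (nat_lit 3841) (List.cons (nat_lit 2273) (List.cons (nat_lit 2077) (List.cons (nat_lit 1171) (List.cons (nat_lit 2051) (List.cons (nat_lit 645) (List.cons (nat_lit 393) (List.cons (nat_lit 1093) (List.cons (nat_lit 1065) (List.cons (nat_lit 263) (List.cons (nat_lit 37) (List.cons (nat_lit 35) (List.cons (nat_lit 289) (List.cons (nat_lit 561) (List.cons (nat_lit 337) (List.cons (nat_lit 523) (List.cons (nat_lit 67) (List.cons (nat_lit 73) (List.cons (nat_lit 577) (List.cons (nat_lit 2192) (List.cons (nat_lit 3152) (List.cons (nat_lit 2576) (List.cons (nat_lit 1560) (List.cons (nat_lit 152) (List.cons (nat_lit 1664) (List.cons (nat_lit 88) (List.cons (nat_lit 1600) (List.cons (nat_lit 3080) (List.cons (nat_lit 3200) (List.cons (nat_lit 208) (List.cons (nat_lit 656) (List.cons (nat_lit 1216) (List.cons (nat_lit 1160) (List.cons (nat_lit 2568) (List.cons (nat_lit 2186) (List.cons (nat_lit 2688) List.nil)))))))))))))))))))))))))))))))))))) (nat_lit 3) (nat_lit 248)))) (BT.node (BT.leaf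 (Hd.mk (List.cons (nat_lit 3969) (List.cons (nat_lit 195) (List.cons (nat_lit 165) (List.cons (nat_lit 153) (List.cons (nat_lit 291) (List.cons (nat_lit 265) (List.cons (nat_lit 325) (List.cons (nat_lit 273) (List.cons (nat_lit 531) (List.cons (nat_lit 525) (List.cons (nat_lit 609) (List.cons (nat_lit 2055) (List.cons (nat_lit 1035) (List.cons (nat_lit 21) (List.cons (nat_lit 1029) List.nil))))))))))))))) (nat_lit 3) (nat_lit 0))) (BT.leaf (Hd.mk (List.cons (nat_lit 3841) (List.cons (nat_lit 2273) (List.cons (nat_lit 1177) (List.cons (nat_lit 597) (List.cons (nat_lit 2065) (List.cons (nat_lit 1089) (List.cons (nat_lit 641) (List.cons (nat_lit 275) List.nil)))))))) (nat_lit 3) (nat_lit 0))))) (BT.node (BT.node (BT.leaf (Hd.mk (List.cons (nat_lit 3969) (List.cons (nat_lit 2161) List.nil)) (nat_lit 4) (nat_lit 0))) (BT.leaf (Hd.mk (List.cons (nat_lit 3841) (List.cons (nat_lit 2273) (List.cons (nat_lit 2077) (List.cons (nat_lit 2051) (List.cons (nat_lit 1061) (List.cons (nat_lit 581) (List.cons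 (nat_lit 263) (List.cons (nat_lit 133) (List.cons (nat_lit 305) (List.cons (nat_lit 321) (List.cons (nat_lit 393) (List.cons (nat_lit 35) (List.cons (nat_lit 553) (List.cons (nat_lit 75) (List.cons (nat_lit 1033) List.nil))))))))))))))) (nat_lit 3) (nat_lit 0)))) (BT.node (BT.leaf (Hd.mk (List.cons (nat_lit 3969) (List.cons (nat_lit 195) (List.cons (nat_lit 165) (List.cons (nat_lit 137) (List.cons (nat_lit 145) (List.cons (nat_lit 275) (List.cons (nat_lit 261) (List.cons (nat_lit 329) (List.cons (nat_lit 289) (List.cons (nat_lit 547) List.nil)))))))))) (nat_lit 3) (nat_lit 0))) (BT.leaf (Hd.mk (List.cons (nat_lit 3841) (List.cons (nat_lit 2273) (List.cons (nat_lit 1177) (List.cons (nat_lit 2061) (List.cons (nat_lit 2051) (List.cons (nat_lit 2065) List.nil)))))) (nat_lit 3) (nat_lit 0)))))) (BT.node (BT.node (BT.node (BT.leaf (Hd.mk (List.cons (nat_lit 3969) (List.cons (nat_lit 2161) (List.cons (nat_lit 2059) (List.cons (nat_lit 2053) (List.cons (nat_lit 153)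
  (List.cons (nat_lit 275) (List.cons (nat_lit 529) (List.cons (nat_lit 21) (List.cons (nat_lit 1041) List.nil))))))))) (nat_lit 3) (nat_lit 0))) (BT.leaf (Hd.mk (List.cons (nat_lit 3841) (List.cons (nat_lit 2273) (List.cons (nat_lit 2077) (List.cons (nat_lit 1171) (List.cons (nat_lit 2051) (List.cons (nat_lit 645) (List.cons (nat_lit 393) (List.cons (nat_lit 1093) (List.cons (nat_lit 1065) (List.cons (nat_lit 263) (List.cons (nat_lit 37) (List.cons (nat_lit 35) (List.cons (nat_lit 289) (List.cons (nat_lit 561) (List.cons (nat_lit 337) (List.cons (nat_lit 523) (List.cons (nat_lit 67) (List.cons (nat_lit 73) (List.cons (nat_lit 577) (List.cons (nat_lit 2192) (List.cons (nat_lit 3088) (List.cons (nat_lit 2432) (List.cons (nat_lit 3204) (List.cons (nat_lit 3104) (List.cons (nat_lit 2340) List.nil))))))))))))))))))))))))) (nat_lit 3) (nat_lit 248)))) (BT.node (BT.leaf (Hd.mk (List.cons (nat_lit 3969) (List.cons (nat_lit 195) (List.cons (nat_lit 165) (List.cons (nat_lit 137) (List.cons (nat_lit 145)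 (List.cons (nat_lit 291) (List.cons (nat_lit 531) (List.cons (nat_lit 1035) (List.cons (nat_lit 2055) (List.cons (nat_lit 581) (List.cons (nat_lit 1029) (List.cons (nat_lit 521) (List.cons (nat_lit 545) List.nil))))))))))))) (nat_lit 3) (nat_lit 0))) (BT.leaf (Hd.mk (List.cons (nat_lit 3841) (List.cons (nat_lit 2273) (List.cons (nat_lit 1177) (List.cons (nat_lit 2061) (List.cons (nat_lit 2067) (List.cons (nat_lit 1057) (List.cons (nat_lit 1031) (List.cons (nat_lit 1089) (List.cons (nat_lit 643) (List.cons (nat_lit 133) (List.cons (nat_lit 385) (List.cons (nat_lit 43) (List.cons (nat_lit 67) List.nil))))))))))))) (nat_lit 3) (nat_lit 0))))) (BT.node (BT.node (BT.leaf (Hd.mk (List.cons (nat_lit 3969) (List.cons (nat_lit 195) (List.cons (nat_lit 165) (List.cons (nat_lit 153) (List.cons (nat_lit 291) (List.cons (nat_lit 329) (List.cons (nat_lit 261) (List.cons (nat_lit 273) (List.cons (nat_lit 531) (List.cons (nat_lit 1035) (List.cons (nat_lit 7) (List.cons (nat_lit 2051) (List.cons (nat_lit 525)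 (List.cons (nat_lit 2089) List.nil)))))))))))))) (nat_lit 3) (nat_lit 0))) (BT.leaf (Hd.mk (List.cons (nat_lit 3841) (List.cons (nat_lit 2273) (List.cons (nat_lit 2077) (List.cons (nat_lit 2051) (List.cons (nat_lit 1061) (List.cons (nat_lit 581) (List.cons (nat_lit 7) (List.cons (nat_lit 133) (List.cons (nat_lit 261) List.nil))))))))) (nat_lit 3) (nat_lit 0)))) (BT.leaf (Hd.mk (List.cons (nat_lit 3841) (List.cons (nat_lit 2273) (List.cons (nat_lit 2077) (List.cons (nat_lit 1171) (List.cons (nat_lit 2051) (List.cons (nat_lit 645) (List.cons (nat_lit 393) (List.cons (nat_lit 1093) (List.cons (nat_lit 1065) (List.cons (nat_lit 263) (List.cons (nat_lit 37) (List.cons (nat_lit 35) (List.cons (nat_lit 289) (List.cons (nat_lit 561) (List.cons (nat_lit 337) (List.cons (nat_lit 523) (List.cons (nat_lit 67) (List.cons (nat_lit 73) (List.cons (nat_lit 577) (List.cons (nat_lit 2704) (List.cons (nat_lit 2320) (List.cons (nat_lit 2130) (List.cons (nat_lit 3120) (List.cons (nat_lit 3200) (List.cons (nat_lit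 3076) (List.cons (nat_lit 3074) (List.cons (nat_lit 2184) (List.cons (nat_lit 26) (List.cons (nat_lit 3144) (List.cons (nat_lit 2568) (List.cons (nat_lit 2624) (List.cons (nat_lit 1048) (List.cons (nat_lit 2116) (List.cons (nat_lit 2368) (List.cons (nat_lit 1104) (List.cons (nat_lit 1552) (List.cons (nat_lit 1044) (List.cons (nat_lit 1296) List.nil)))))))))))))))))))))))))))))))))))))) (nat_lit 3) (nat_lit 248)))))) (BT.node (BT.node (BT.node (BT.node (BT.leaf (Hd.mk (List.cons (nat_lit 3969) (List.cons (nat_lit 2161) (List.cons (nat_lit 1101) (List.cons (nat_lit 555) List.nil)))) (nat_lit 4) (nat_lit 0))) (BT.leaf (Hd.mk (List.cons (nat_lit 3841) (List.cons (nat_lit 2273) (List.cons (nat_lit 2077) (List.cons (nat_lit 1171) (List.cons (nat_lit 2051) (List.cons (nat_lit 645) (List.cons (nat_lit 393) (List.cons (nat_lit 1093) (List.cons (nat_lit 1065) (List.cons (nat_lit 263) (List.cons (nat_lit 37) (List.cons (nat_lit 35) (List.cons (nat_lit 289) (List.cons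
  (nat_lit 561) (List.cons (nat_lit 337) (List.cons (nat_lit 523) (List.cons (nat_lit 67) (List.cons (nat_lit 73) (List.cons (nat_lit 577) (List.cons (nat_lit 2192) (List.cons (nat_lit 3088) (List.cons (nat_lit 2436) (List.cons (nat_lit 3200) (List.cons (nat_lit 2690) (List.cons (nat_lit 2184) (List.cons (nat_lit 2640) (List.cons (nat_lit 2568) (List.cons (nat_lit 2116) (List.cons (nat_lit 2564) (List.cons (nat_lit 2592) List.nil)))))))))))))))))))))))))))))) (nat_lit 3) (nat_lit 248)))) (BT.node (BT.leaf (Hd.mk (List.cons (nat_lit 3969) (List.cons (nat_lit 195) (List.cons (nat_lit 165) (List.cons (nat_lit 153) (List.cons (nat_lit 291) (List.cons (nat_lit 265) (List.cons (nat_lit 325) (List.cons (nat_lit 273) (List.cons (nat_lit 519) (List.cons (nat_lit 11) (List.cons (nat_lit 1027) (List.cons (nat_lit 19) (List.cons (nat_lit 2051) List.nil))))))))))))) (nat_lit 3) (nat_lit 0))) (BT.leaf (Hd.mk (List.cons (nat_lit 3841) (List.cons (nat_lit 2273) (List.cons (nat_lit 1177) (List.cons (nat_lit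 2061) (List.cons (nat_lit 2067) (List.cons (nat_lit 1061) (List.cons (nat_lit 1091) (List.cons (nat_lit 585) List.nil)))))))) (nat_lit 3) (nat_lit 0))))) (BT.node (BT.node (BT.leaf (Hd.mk (List.cons (nat_lit 3969) (List.cons (nat_lit 195) (List.cons (nat_lit 165) (List.cons (nat_lit 153) (List.cons (nat_lit 291) (List.cons (nat_lit 329) (List.cons (nat_lit 277) (List.cons (nat_lit 2067) (List.cons (nat_lit 523) (List.cons (nat_lit 7) (List.cons (nat_lit 1027) (List.cons (nat_lit 517) (List.cons (nat_lit 13) (List.cons (nat_lit 1093) (List.cons (nat_lit 2053) List.nil))))))))))))))) (nat_lit 3) (nat_lit 0))) (BT.leaf (Hd.mk (List.cons (nat_lit 3841) (List.cons (nat_lit 2273) (List.cons (nat_lit 2077) (List.cons (nat_lit 2051) (List.cons (nat_lit 1061) (List.cons (nat_lit 581) (List.cons (nat_lit 263) (List.cons (nat_lit 133) (List.cons (nat_lit 289) (List.cons (nat_lit 43) (List.cons (nat_lit 521) (List.cons (nat_lit 49) (List.cons (nat_lit 545) List.nil))))))))))))) (nat_lit 3) (nat_lit 0))))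 (BT.node (BT.leaf (Hd.mk (List.cons (nat_lit 3969) (List.cons (nat_lit 195) (List.cons (nat_lit 133) (List.cons (nat_lit 137) (List.cons (nat_lit 145) (List.cons (nat_lit 161) (List.cons (nat_lit 291) (List.cons (nat_lit 515) (List.cons (nat_lit 1027) List.nil))))))))) (nat_lit 3) (nat_lit 0))) (BT.leaf (Hd.mk (List.cons (nat_lit 3841) (List.cons (nat_lit 2273) (List.cons (nat_lit 31) (List.cons (nat_lit 2051) (List.cons (nat_lit 2053) (List.cons (nat_lit 2057) (List.cons (nat_lit 2065) (List.cons (nat_lit 1059) (List.cons (nat_lit 579) (List.cons (nat_lit 131) (List.cons (nat_lit 259) List.nil))))))))))) (nat_lit 3) (nat_lit 0)))))) (BT.node (BT.node (BT.node (BT.leaf (Hd.mk (List.cons (nat_lit 3969) (List.cons (nat_lit 2161) (List.cons (nat_lit 2059) (List.cons (nat_lit 2053) (List.cons (nat_lit 145) (List.cons (nat_lit 195) (List.cons (nat_lit 133) (List.cons (nat_lit 137) (List.cons (nat_lit 161) (List.cons (nat_lit 329) (List.cons (nat_lit 581) (List.cons (nat_lit 1089) List.nil))))))))))))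 (nat_lit 3) (nat_lit 0))) (BT.leaf (Hd.mk (List.cons (nat_lit 3841) (List.cons (nat_lit 2273) (List.cons (nat_lit 2077) (List.cons (nat_lit 1171) (List.cons (nat_lit 2051) (List.cons (nat_lit 645) (List.cons (nat_lit 393) (List.cons (nat_lit 1029) (List.cons (nat_lit 1057) (List.cons (nat_lit 1033) (List.cons (nat_lit 1089) (List.cons (nat_lit 293) (List.cons (nat_lit 71) (List.cons (nat_lit 259) List.nil)))))))))))))) (nat_lit 3) (nat_lit 0)))) (BT.node (BT.leaf (Hd.mk (List.cons (nat_lit 3969) (List.cons (nat_lit 195) (List.cons (nat_lit 165) (List.cons (nat_lit 137) (List.cons (nat_lit 145) (List.cons (nat_lit 291) (List.cons (nat_lit 531) List.nil))))))) (nat_lit 3) (nat_lit 0))) (BT.leaf (Hd.mk (List.cons (nat_lit 3841) (List.cons (nat_lit 2273) (List.cons (nat_lit 1177) (List.cons (nat_lit 2061) (List.cons (nat_lit 2051) (List.cons (nat_lit 2065) (List.cons (nat_lit 1061) (List.cons (nat_lit 1027) (List.cons (nat_lit 1089) (List.cons (nat_lit 389)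
  (List.cons (nat_lit 131) (List.cons (nat_lit 641) (List.cons (nat_lit 519) List.nil))))))))))))) (nat_lit 3) (nat_lit 0))))) (BT.node (BT.node (BT.leaf (Hd.mk (List.cons (nat_lit 3969) (List.cons (nat_lit 195) (List.cons (nat_lit 165) (List.cons (nat_lit 153) (List.cons (nat_lit 291) (List.cons (nat_lit 329) (List.cons (nat_lit 261) (List.cons (nat_lit 273) (List.cons (nat_lit 519) (List.cons (nat_lit 553) (List.cons (nat_lit 529) (List.cons (nat_lit 577) List.nil)))))))))))) (nat_lit 3) (nat_lit 0))) (BT.leaf (Hd.mk (List.cons (nat_lit 3841) (List.cons (nat_lit 2273) (List.cons (nat_lit 2077) List.nil))) (nat_lit 4) (nat_lit 0)))) (BT.leaf (Hd.mk (List.cons (nat_lit 3841) (List.cons (nat_lit 2273) (List.cons (nat_lit 2077) (List.cons (nat_lit 1171) (List.cons (nat_lit 2051) (List.cons (nat_lit 645) (List.cons (nat_lit 393) (List.cons (nat_lit 1093) (List.cons (nat_lit 1065) (List.cons (nat_lit 263) (List.cons (nat_lit 37) (List.cons (nat_lit 35) (List.cons (nat_lit 289) (List.cons (nat_lit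 561) (List.cons (nat_lit 337) (List.cons (nat_lit 523) (List.cons (nat_lit 67) (List.cons (nat_lit 73) (List.cons (nat_lit 577) (List.cons (nat_lit 2704) (List.cons (nat_lit 2320) (List.cons (nat_lit 2066) (List.cons (nat_lit 2096) (List.cons (nat_lit 2128) (List.cons (nat_lit 3088) (List.cons (nat_lit 208) (List.cons (nat_lit 152) (List.cons (nat_lit 2186) (List.cons (nat_lit 3080) (List.cons (nat_lit 3136) (List.cons (nat_lit 2436) (List.cons (nat_lit 3200) (List.cons (nat_lit 148) (List.cons (nat_lit 432) (List.cons (nat_lit 386) (List.cons (nat_lit 896) (List.cons (nat_lit 448) (List.cons (nat_lit 1408) List.nil)))))))))))))))))))))))))))))))))))))) (nat_lit 3) (nat_lit 248)))))))))))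

noncomputable def par12 : Par := Par.mk (nat_lit 12) (nat_lit 4095) (nat_lit 3000) (nat_lit 100) tb12_3 tb12_4 tb12_5 (nat_lit 7059) hd12 patLib


end Pool.Agent.MP_1f1ca1_co

end

section

set_option autoImplicit false
set_option maxRecDepth 1000000
set_option maxHeartbeats 0

namespace Pool.Agent.MP_1f1ca1_co

theorem tb12_3_ok : tabOK (nat_lit 12) (nat_lit 100) (nat_lit 7059) (nat_lit 3) tb12_3 (nat_lit 56) = true := by decide +kernel

theorem tb12_4_ok : tabOK (nat_lit 12) (nat_lit 100) (nat_lit 7059) (nat_lit 4) tb12_4 (nat_lit 56) = true := by decide +kernel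

theorem tb12_5_ok : tabOK (nat_lit 12) (nat_lit 100) (nat_lit 7059) (nat_lit 5) tb12_5 (nat_lit 56) = true := by decide +kernel


end Pool.Agent.MP_1f1ca1_co

end

section

set_option autoImplicit false
set_option maxRecDepth 1000000
set_option maxHeartbeats 0

namespace Pool.Agent.MP_1f1ca1_co

noncomputable def c12_0 : List C :=
  (List.cons (C.big C.nil (C.node (nat_lit 0) (nat_lit 1) (nat_lit 11) (C.cons (nat_lit 2051) (C.node (nat_lit 0) (nat_lit 2) (nat_lit 11) (C.cons (nat_lit 2053) (C.node (nat_lit 0) (nat_lit 3) (nat_lit 10) (C.cons (nat_lit 1033) (C.node (nat_lit 0) (nat_lit 4) (nat_lit 10) (C.cons (nat_lit 1041) (C.node (nat_lit 0) (nat_lit 5) (nat_lit 10) (C.cons (nat_lit 1057) (C.node (nat_lit 0) (nat_lit 6) (nat_lit 7) (C.cons (nat_lit 193) (C.node (nat_lit 0) (nat_lit 6) (nat_lit 8) (C.cons (nat_lit 321) (C.node (nat_lit 0) (nat_lit 6) (nat_lit 9) (C.cons (nat_lit 577) (C.node (nat_lit 0) (nat_lit 3) (nat_lit 7) (C.cons (nat_lit 141) (C.node (nat_lit 0) (nat_lit 3) (nat_lit 8)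 (C.cons (nat_lit 267) (C.node (nat_lit 0) (nat_lit 3) (nat_lit 9) C.nil) C.nil)) (C.cons (nat_lit 139) (C.node (nat_lit 0) (nat_lit 3) (nat_lit 8) (C.cons (nat_lit 269) (C.node (nat_lit 0) (nat_lit 3) (nat_lit 9) C.nil) C.nil)) C.nil))) C.nil)) C.nil)) C.nil)) C.nil)) C.nil)) C.nil)) C.nil)) C.nil))) (List.cons (C.node (nat_lit 0) (nat_lit 1) (nat_lit 5) (C.cons (nat_lit 1059) (C.qs (C.cons (nat_lit 75008) (C.pat (nat_lit 1) (nat_lit 2554805281) (nat_lit 1386657717983539798360599175952662801)) (C.cons (nat_lit 70912) (C.pat (nat_lit 1) (nat_lit 2050513953) (nat_lit 5498956830088187737572303043360523273)) (C.cons (nat_lit 74496) (C.pat (nat_lit 1) (nat_lit 2554805281) (nat_lit 1386657717983539798360599175952662801)) (C.cons (nat_lit 70400) (C.pat (nat_lit 0) (nat_lit 213542706) (nat_lit 314456810360854438688399338832013)) (C.cons (nat_lit 74816) (C.pat (nat_lit 0) (nat_lit 213538625) (nat_lit 314456771675375784972855422419091)) (C.cons (nat_lit 74304) (C.pat (nat_lit 1) (nat_lit 2808695841) (nat_lit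 763582095481626029475003735869817025)) (C.cons (nat_lit 8800) (C.pat (nat_lit 1) (nat_lit 3398723378) (nat_lit 5675262943540104969382120011750510465)) (C.cons (nat_lit 74768) (C.pat (nat_lit 0) (nat_lit 213477425) (nat_lit 314456965093914616395194377109771)) (C.cons (nat_lit 70672) (C.pat (nat_lit 1) (nat_lit 2050513953) (nat_lit 5498956830088187737572303043360523273)) (C.cons (nat_lit 5264) (C.pat (nat_lit 1) (nat_lit 3366344498) (nat_lit 1521368413112230465067152763935854465)) (C.cons (nat_lit 73808) (C.pat (nat_lit 0) (nat_lit 213477425) (nat_lit 314456965093914616395194377109771)) (C.cons (nat_lit 66640) (C.pat (nat_lit 0) (nat_lit 213538625) (nat_lit 314456771675375784972855422419091)) (C.cons (nat_lit 9296) (C.pat (nat_lit 4) (nat_lit 869850518627) (nat_lit 5800748368973546353978373052233276332896900768531011)) (C.cons (nat_lit 74832) (C.pat (nat_lit 0) (nat_lit 213477425) (nat_lit 314456965093914616395194377109771)) (C.cons (nat_lit 9480) (C.pat (nat_lit 1) (nat_lit 3365164850) (nat_lit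 1521364609483431321250640747914923905)) (C.cons (nat_lit 5380) (C.pat (nat_lit 1) (nat_lit 3349497905) (nat_lit 763280395219041937176124737533316993)) (C.cons (nat_lit 70146) (C.pat (nat_lit 0) (nat_lit 213542706) (nat_lit 314456810360854438688399338832013)) (C.cons (nat_lit 69890) (C.pat (nat_lit 0) (nat_lit 213408066) (nat_lit 314457235888723417541849523749397)) (C.cons (nat_lit 66306) (C.pat (nat_lit 0) (nat_lit 213408066) (nat_lit 314457235888723417541849523749397)) (C.cons (nat_lit 4866) (C.pat (nat_lit 4) (nat_lit 178914096227) (nat_lit 5800748369234206655502968993208654591265668798152897)) (C.cons (nat_lit 70402) (C.pat (nat_lit 0) (nat_lit 213542706) (nat_lit 314456810360854438688399338832013)) (C.cons (nat_lit 66114) (C.pat (nat_lit 1) (nat_lit 2808695841) (nat_lit 763582095481626029475003735869817025)) (C.cons (nat_lit 16962) (C.pat (nat_lit 1) (nat_lit 3383060289) (nat_lit 3006383061720491474469660460286807937)) (C.cons (nat_lit 69650) (C.pat (nat_lit 1) (nat_lit 2304404513) (nat_lit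 3006654338948942676534287101742875169)) (C.cons (nat_lit 6162) (C.pat (nat_lit 1) (nat_lit 3383060529) (nat_lit 3006383061720493835650650610691805057)) (C.cons (nat_lit 65618) (C.pat (nat_lit 1) (nat_lit 2304404513) (nat_lit 3006654338948942676534287101742875169)) (C.cons (nat_lit 32850)
  (C.pat (nat_lit 1) (nat_lit 3366345026) (nat_lit 1521368413112237548619130551844540289)) (C.cons (nat_lit 8961) (C.pat (nat_lit 1) (nat_lit 3348514865) (nat_lit 763282929939958000075790539004907393)) C.nil))))))))))))))))))))))))))))) C.nil)) (List.cons (C.node (nat_lit 0) (nat_lit 5) (nat_lit 8) (C.cons (nat_lit 293) (C.node (nat_lit 0) (nat_lit 6) (nat_lit 8) (C.cons (nat_lit 321) (C.node (nat_lit 0) (nat_lit 2) (nat_lit 6) (C.cons (nat_lit 1093) (C.node (nat_lit 0) (nat_lit 1) (nat_lit 6) (C.cons (nat_lit 579) (C.node (nat_lit 0) (nat_lit 5) (nat_lit 9) (C.cons (nat_lit 545) (C.ref (nat_lit 1) (nat_lit 205163983024656)) C.nil)) (C.cons (nat_lit 67) (C.node (nat_lit 0) (nat_lit 6) (nat_lit 9) C.nil) C.nil)))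 (C.cons (nat_lit 69) (C.node (nat_lit 0) (nat_lit 2) (nat_lit 10) C.nil) C.nil))) C.nil)) (C.cons (nat_lit 289) (C.node (nat_lit 0) (nat_lit 2) (nat_lit 5) (C.cons (nat_lit 1061) (C.node (nat_lit 0) (nat_lit 1) (nat_lit 5) (C.cons (nat_lit 547) (C.node (nat_lit 0) (nat_lit 6) (nat_lit 9) (C.cons (nat_lit 577) (C.node (nat_lit 0) (nat_lit 1) (nat_lit 6) (C.cons (nat_lit 1091) (C.ref (nat_lit 1) (nat_lit 202836598346016)) C.nil)) C.nil)) (C.cons (nat_lit 35) (C.node (nat_lit 0) (nat_lit 5) (nat_lit 9) C.nil) C.nil))) (C.cons (nat_lit 37) (C.node (nat_lit 0) (nat_lit 2) (nat_lit 8) (C.cons (nat_lit 325) (C.node (nat_lit 0) (nat_lit 2) (nat_lit 10) C.nil) C.nil)) C.nil))) C.nil))) (List.cons (C.node (nat_lit 0) (nat_lit 4) (nat_lit 9) (C.cons (nat_lit 533) (C.node (nat_lit 0) (nat_lit 4) (nat_lit 10) (C.cons (nat_lit 1041) (C.ref (nat_lit 2) (nat_lit 205163983024656)) C.nil)) (C.cons (nat_lit 529) (C.node (nat_lit 0) (nat_lit 2) (nat_lit 4) (C.cons (nat_lit 1045) (C.ref (nat_lit 2) (nat_lit 204133190873616))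 (C.cons (nat_lit 21) (C.node (nat_lit 0) (nat_lit 4) (nat_lit 10) (C.cons (nat_lit 1041) (C.node (nat_lit 0) (nat_lit 5) (nat_lit 8) (C.cons (nat_lit 293) (C.node (nat_lit 0) (nat_lit 6) (nat_lit 8) C.nil) C.nil)) C.nil)) C.nil))) C.nil))) (List.cons (C.node (nat_lit 0) (nat_lit 5) (nat_lit 8) (C.cons (nat_lit 293) (C.pat (nat_lit 0) (nat_lit 91765537) (nat_lit 314459199184622835741724588574727)) (C.cons (nat_lit 289) (C.node (nat_lit 0) (nat_lit 2) (nat_lit 8) (C.cons (nat_lit 325) (C.ref (nat_lit 2) (nat_lit 198346867765776)) (C.cons (nat_lit 261) (C.node (nat_lit 0) (nat_lit 8) (nat_lit 6) (C.cons (nat_lit 321) (C.node (nat_lit 0) (nat_lit 9) (nat_lit 5) (C.cons (nat_lit 549) (C.node (nat_lit 0) (nat_lit 10) (nat_lit 5) C.nil) C.nil)) C.nil)) C.nil))) C.nil))) (List.cons (C.node (nat_lit 0) (nat_lit 5) (nat_lit 8) (C.cons (nat_lit 293) (C.node (nat_lit 0) (nat_lit 6) (nat_lit 8) (C.cons (nat_lit 321) (C.node (nat_lit 0) (nat_lit 9) (nat_lit 5) (C.cons (nat_lit 547) (C.node (nat_lit 0) (nat_lit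 10) (nat_lit 5) C.nil) C.nil)) C.nil)) (C.cons (nat_lit 289) (C.node (nat_lit 0) (nat_lit 2) (nat_lit 8) (C.cons (nat_lit 325) (C.node (nat_lit 0) (nat_lit 9) (nat_lit 6) (C.cons (nat_lit 579) (C.node (nat_lit 0) (nat_lit 10) (nat_lit 6) C.nil) C.nil)) C.nil)) C.nil))) (List.cons (C.node (nat_lit 0) (nat_lit 4) (nat_lit 7) (C.cons (nat_lit 147) (C.node (nat_lit 0) (nat_lit 5) (nat_lit 7) (C.cons (nat_lit 161) (C.node (nat_lit 0) (nat_lit 6) (nat_lit 7) (C.cons (nat_lit 193) (C.node (nat_lit 0) (nat_lit 4) (nat_lit 8) (C.cons (nat_lit 277) (C.pat (nat_lit 0) (nat_lit 74988321) (nat_lit 314459199184327687836476516272135)) (C.cons (nat_lit 273) (C.ref (nat_lit 3) (nat_lit 205163983024656)) C.nil))) C.nil)) C.nil)) (C.cons (nat_lit 145) (C.node (nat_lit 0) (nat_lit 4) (nat_lit 8) (C.cons (nat_lit 277) (C.node (nat_lit 0) (nat_lit 5) (nat_lit 8) (C.cons (nat_lit 289) (C.node (nat_lit 0) (nat_lit 6) (nat_lit 8) (C.cons (nat_lit 321) (C.ref (nat_lit 3) (nat_lit 205159956492576)) C.nil)) C.nil)) (C.cons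 (nat_lit 273) (C.node (nat_lit 0) (nat_lit 5) (nat_lit 7) (C.cons (nat_lit 163) (C.node (nat_lit 0) (nat_lit 6) (nat_lit 7) (C.cons (nat_lit 193) (C.ref (nat_lit 4) (nat_lit 205163983024656)) C.nil)) (C.cons (nat_lit 161)
  (C.node (nat_lit 0) (nat_lit 1) (nat_lit 7) (C.cons (nat_lit 195) (C.ref (nat_lit 4) (nat_lit 205163967296016)) (C.cons (nat_lit 131) (C.node (nat_lit 0) (nat_lit 6) (nat_lit 7) (C.cons (nat_lit 193) (C.ref (nat_lit 5) (nat_lit 205163983024656)) C.nil)) C.nil))) C.nil))) C.nil))) C.nil))) (List.cons (C.node (nat_lit 0) (nat_lit 6) (nat_lit 7) (C.cons (nat_lit 193) (C.node (nat_lit 0) (nat_lit 4) (nat_lit 8) (C.cons (nat_lit 277) (C.node (nat_lit 0) (nat_lit 4) (nat_lit 9) (C.cons (nat_lit 529) (C.node (nat_lit 0) (nat_lit 10) (nat_lit 4) (C.cons (nat_lit 1041) (C.node (nat_lit 0) (nat_lit 5) (nat_lit 8) (C.cons (nat_lit 291) (C.node (nat_lit 0) (nat_lit 6) (nat_lit 8) C.nil) C.nil)) C.nil)) C.nil)) (C.cons (nat_lit 273) (C.ref (nat_lit 5) (nat_lit 200472876577296)) C.nil)))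 C.nil)) (List.cons (C.node (nat_lit 0) (nat_lit 4) (nat_lit 7) (C.cons (nat_lit 147) (C.node (nat_lit 0) (nat_lit 5) (nat_lit 7) (C.cons (nat_lit 161) (C.ref (nat_lit 7) (nat_lit 205163983024656)) C.nil)) (C.cons (nat_lit 145) (C.node (nat_lit 0) (nat_lit 5) (nat_lit 7) (C.cons (nat_lit 163) (C.ref (nat_lit 7) (nat_lit 205163982041616)) (C.cons (nat_lit 161) (C.node (nat_lit 0) (nat_lit 1) (nat_lit 7) (C.cons (nat_lit 195) (C.node (nat_lit 0) (nat_lit 6) (nat_lit 8) (C.cons (nat_lit 325) (C.node (nat_lit 0) (nat_lit 6) (nat_lit 9) (C.cons (nat_lit 577) (C.node (nat_lit 0) (nat_lit 10) (nat_lit 6) (C.cons (nat_lit 1089) (C.node (nat_lit 0) (nat_lit 4) (nat_lit 8) (C.cons (nat_lit 275) (C.node (nat_lit 0) (nat_lit 5) (nat_lit 8) C.nil) C.nil)) C.nil)) C.nil)) (C.cons (nat_lit 321) (C.ref (nat_lit 5) (nat_lit 199313235407376)) C.nil))) (C.cons (nat_lit 131) (C.node (nat_lit 0) (nat_lit 6) (nat_lit 7) (C.cons (nat_lit 193) (C.node (nat_lit 0) (nat_lit 4) (nat_lit 8) (C.cons (nat_lit 277) (C.node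 (nat_lit 0) (nat_lit 4) (nat_lit 9) (C.cons (nat_lit 531) (C.node (nat_lit 0) (nat_lit 4) (nat_lit 10) C.nil) C.nil)) (C.cons (nat_lit 275) (C.node (nat_lit 0) (nat_lit 4) (nat_lit 9) (C.cons (nat_lit 533) (C.node (nat_lit 0) (nat_lit 4) (nat_lit 10) C.nil) C.nil)) C.nil))) C.nil)) C.nil))) C.nil))) C.nil))) (List.cons (C.node (nat_lit 0) (nat_lit 1) (nat_lit 3) (C.cons (nat_lit 1035) (C.ref (nat_lit 6) (nat_lit 204004341854736)) (C.cons (nat_lit 11) (C.node (nat_lit 0) (nat_lit 3) (nat_lit 10) (C.cons (nat_lit 1033) (C.ref (nat_lit 8) (nat_lit 205163983024656)) C.nil)) C.nil))) (List.cons (C.node (nat_lit 0) (nat_lit 3) (nat_lit 9) (C.cons (nat_lit 523) (C.node (nat_lit 0) (nat_lit 3) (nat_lit 10) (C.cons (nat_lit 1033) (C.ref (nat_lit 6) (nat_lit 205099558515216)) C.nil)) (C.cons (nat_lit 521) (C.ref (nat_lit 9) (nat_lit 205163983024656)) C.nil))) (List.cons (C.node (nat_lit 0) (nat_lit 3) (nat_lit 8) (C.cons (nat_lit 267) (C.node (nat_lit 0) (nat_lit 3) (nat_lit 9) (C.cons (nat_lit 521) (C.node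 (nat_lit 0) (nat_lit 3) (nat_lit 10) (C.cons (nat_lit 1033) (C.ref (nat_lit 6) (nat_lit 205163983024656)) C.nil)) C.nil)) (C.cons (nat_lit 265) (C.ref (nat_lit 10) (nat_lit 205163983024656)) C.nil))) (List.cons (C.node (nat_lit 0) (nat_lit 4) (nat_lit 8) (C.cons (nat_lit 275) (C.node (nat_lit 0) (nat_lit 4) (nat_lit 9) (C.cons (nat_lit 529) (C.node (nat_lit 0) (nat_lit 4) (nat_lit 10) (C.cons (nat_lit 1041) (C.node (nat_lit 0) (nat_lit 5) (nat_lit 7) (C.cons (nat_lit 163) (C.node (nat_lit 0) (nat_lit 6) (nat_lit 7) C.nil) C.nil)) C.nil)) C.nil)) (C.cons (nat_lit 273) (C.node (nat_lit 0) (nat_lit 4) (nat_lit 9) (C.cons (nat_lit 531) (C.node (nat_lit 0) (nat_lit 4) (nat_lit 10) (C.cons (nat_lit 1041) (C.node (nat_lit 0) (nat_lit 5) (nat_lit 7) (C.cons (nat_lit 163) (C.node (nat_lit 0) (nat_lit 6) (nat_lit 7) C.nil) C.nil)) C.nil)) (C.cons (nat_lit 529) (C.node (nat_lit 0) (nat_lit 1) (nat_lit 4) (C.cons (nat_lit 1043) (C.node (nat_lit 0) (nat_lit 5) (nat_lit 7) (C.cons (nat_lit 163) (C.node (nat_lit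 0) (nat_lit 6) (nat_lit 7) C.nil) C.nil)) C.nil)) C.nil))) C.nil))) (List.cons (C.node (nat_lit 0) (nat_lit 2) (nat_lit 7) (C.cons (nat_lit 165)
  (C.node (nat_lit 0) (nat_lit 5) (nat_lit 8) (C.cons (nat_lit 291) (C.node (nat_lit 0) (nat_lit 5) (nat_lit 9) (C.cons (nat_lit 545) (C.node (nat_lit 0) (nat_lit 5) (nat_lit 10) C.nil) C.nil)) (C.cons (nat_lit 289) (C.node (nat_lit 0) (nat_lit 1) (nat_lit 8) (C.cons (nat_lit 275) (C.node (nat_lit 0) (nat_lit 1) (nat_lit 9) (C.cons (nat_lit 547) (C.node (nat_lit 0) (nat_lit 1) (nat_lit 10) C.nil) C.nil)) C.nil)) C.nil))) (C.cons (nat_lit 133) (C.node (nat_lit 0) (nat_lit 5) (nat_lit 7) C.nil) C.nil))) (List.cons (C.node (nat_lit 0) (nat_lit 4) (nat_lit 9) (C.cons (nat_lit 533) (C.node (nat_lit 0) (nat_lit 4) (nat_lit 10) (C.cons (nat_lit 1041) (C.node (nat_lit 0) (nat_lit 5) (nat_lit 8) (C.cons (nat_lit 293) (C.node (nat_lit 0) (nat_lit 6) (nat_lit 8) C.nil) C.nil)) C.nil)) (C.cons (nat_lit 529) (C.node (nat_lit 0) (nat_lit 2) (nat_lit 4) (C.cons (nat_lit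 1045) (C.node (nat_lit 0) (nat_lit 5) (nat_lit 8) (C.cons (nat_lit 293) (C.node (nat_lit 0) (nat_lit 6) (nat_lit 8) C.nil) C.nil)) C.nil)) C.nil))) (List.cons (C.node (nat_lit 0) (nat_lit 4) (nat_lit 7) (C.cons (nat_lit 147) (C.node (nat_lit 0) (nat_lit 5) (nat_lit 7) (C.cons (nat_lit 161) (C.node (nat_lit 0) (nat_lit 6) (nat_lit 7) (C.cons (nat_lit 193) (C.node (nat_lit 0) (nat_lit 4) (nat_lit 8) (C.cons (nat_lit 277) (C.node (nat_lit 0) (nat_lit 4) (nat_lit 9) (C.cons (nat_lit 529) (C.node (nat_lit 0) (nat_lit 4) (nat_lit 10) (C.cons (nat_lit 1041) (C.node (nat_lit 0) (nat_lit 5) (nat_lit 8) C.nil) C.nil)) C.nil)) (C.cons (nat_lit 273) (C.ref (nat_lit 14) (nat_lit 205163983024656)) C.nil))) C.nil)) C.nil)) (C.cons (nat_lit 145) (C.node (nat_lit 0) (nat_lit 4) (nat_lit 8) (C.cons (nat_lit 277) (C.node (nat_lit 0) (nat_lit 5) (nat_lit 8) (C.cons (nat_lit 289) (C.node (nat_lit 0) (nat_lit 6) (nat_lit 8) (C.cons (nat_lit 321) (C.ref (nat_lit 14) (nat_lit 205159956492576)) C.nil)) C.nil)) (C.cons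 (nat_lit 273) (C.node (nat_lit 0) (nat_lit 5) (nat_lit 7) (C.cons (nat_lit 163) (C.node (nat_lit 0) (nat_lit 6) (nat_lit 7) (C.cons (nat_lit 193) (C.node (nat_lit 0) (nat_lit 5) (nat_lit 8) (C.cons (nat_lit 293) (C.node (nat_lit 0) (nat_lit 8) (nat_lit 6) (C.cons (nat_lit 321) (C.node (nat_lit 0) (nat_lit 9) (nat_lit 5) C.nil) C.nil)) (C.cons (nat_lit 289) (C.node (nat_lit 0) (nat_lit 2) (nat_lit 8) (C.cons (nat_lit 325) (C.node (nat_lit 0) (nat_lit 9) (nat_lit 5) (C.cons (nat_lit 549) (C.node (nat_lit 0) (nat_lit 10) (nat_lit 5) C.nil) C.nil)) C.nil)) C.nil))) C.nil)) (C.cons (nat_lit 161) (C.node (nat_lit 0) (nat_lit 1) (nat_lit 7) (C.cons (nat_lit 195) (C.node (nat_lit 0) (nat_lit 6) (nat_lit 8) (C.cons (nat_lit 325) (C.node (nat_lit 0) (nat_lit 8) (nat_lit 5) (C.cons (nat_lit 289) (C.node (nat_lit 0) (nat_lit 9) (nat_lit 6) C.nil) C.nil)) (C.cons (nat_lit 321) (C.node (nat_lit 0) (nat_lit 2) (nat_lit 8) (C.cons (nat_lit 293) (C.node (nat_lit 0) (nat_lit 9) (nat_lit 6) (C.cons (nat_lit 581)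 (C.node (nat_lit 0) (nat_lit 10) (nat_lit 6) C.nil) C.nil)) C.nil)) C.nil))) (C.cons (nat_lit 131) (C.node (nat_lit 0) (nat_lit 6) (nat_lit 7) C.nil) C.nil))) C.nil))) C.nil))) C.nil))) (List.cons (C.node (nat_lit 0) (nat_lit 4) (nat_lit 7) (C.cons (nat_lit 147) (C.node (nat_lit 0) (nat_lit 5) (nat_lit 7) (C.cons (nat_lit 161) (C.node (nat_lit 0) (nat_lit 6) (nat_lit 7) (C.cons (nat_lit 193) (C.node (nat_lit 0) (nat_lit 4) (nat_lit 8) (C.cons (nat_lit 277) (C.node (nat_lit 0) (nat_lit 4) (nat_lit 9) C.nil) C.nil)) C.nil)) C.nil)) (C.cons (nat_lit 145) (C.node (nat_lit 0) (nat_lit 5) (nat_lit 7) (C.cons (nat_lit 163) (C.node (nat_lit 0) (nat_lit 6) (nat_lit 7) (C.cons (nat_lit 193) (C.node (nat_lit 0) (nat_lit 5) (nat_lit 8) (C.cons (nat_lit 293) (C.node (nat_lit 0) (nat_lit 5) (nat_lit 9) C.nil) C.nil)) C.nil)) (C.cons (nat_lit 161) (C.node (nat_lit 0) (nat_lit 1) (nat_lit 7) (C.cons (nat_lit 195) (C.node (nat_lit 0) (nat_lit 6) (nat_lit 8) (C.cons (nat_lit 325) (C.node (nat_lit 0) (nat_lit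 6) (nat_lit 9) C.nil) C.nil)) C.nil)) C.nil))) C.nil))) (List.cons
  (C.node (nat_lit 0) (nat_lit 1) (nat_lit 3) (C.cons (nat_lit 1035) (C.ref (nat_lit 15) (nat_lit 204004341854736)) (C.cons (nat_lit 11) (C.node (nat_lit 0) (nat_lit 3) (nat_lit 10) (C.cons (nat_lit 1033) (C.ref (nat_lit 16) (nat_lit 205163983024656)) C.nil)) C.nil))) (List.cons (C.node (nat_lit 0) (nat_lit 3) (nat_lit 9) (C.cons (nat_lit 523) (C.node (nat_lit 0) (nat_lit 3) (nat_lit 10) (C.cons (nat_lit 1033) (C.ref (nat_lit 15) (nat_lit 205099558515216)) C.nil)) (C.cons (nat_lit 521) (C.ref (nat_lit 17) (nat_lit 205163983024656)) C.nil))) (List.cons (C.node (nat_lit 0) (nat_lit 3) (nat_lit 8) (C.cons (nat_lit 267) (C.node (nat_lit 0) (nat_lit 3) (nat_lit 9) (C.cons (nat_lit 521) (C.node (nat_lit 0) (nat_lit 3) (nat_lit 10) (C.cons (nat_lit 1033) (C.ref (nat_lit 15) (nat_lit 205163983024656)) C.nil)) C.nil)) (C.cons (nat_lit 265) (C.ref (nat_lit 18) (nat_lit 205163983024656)) C.nil))) (List.cons (C.node (nat_lit 0) (nat_lit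 4) (nat_lit 8) (C.cons (nat_lit 275) (C.node (nat_lit 0) (nat_lit 4) (nat_lit 9) (C.cons (nat_lit 529) (C.node (nat_lit 0) (nat_lit 4) (nat_lit 10) (C.cons (nat_lit 1041) (C.node (nat_lit 0) (nat_lit 5) (nat_lit 7) (C.cons (nat_lit 163) (C.node (nat_lit 0) (nat_lit 6) (nat_lit 7) C.nil) C.nil)) C.nil)) C.nil)) (C.cons (nat_lit 273) (C.node (nat_lit 0) (nat_lit 4) (nat_lit 9) (C.cons (nat_lit 531) (C.node (nat_lit 0) (nat_lit 4) (nat_lit 10) (C.cons (nat_lit 1041) (C.node (nat_lit 0) (nat_lit 5) (nat_lit 7) (C.cons (nat_lit 163) (C.node (nat_lit 0) (nat_lit 6) (nat_lit 7) C.nil) C.nil)) C.nil)) (C.cons (nat_lit 529) (C.node (nat_lit 0) (nat_lit 1) (nat_lit 4) (C.cons (nat_lit 1043) (C.node (nat_lit 0) (nat_lit 5) (nat_lit 7) (C.cons (nat_lit 163) (C.node (nat_lit 0) (nat_lit 6) (nat_lit 7) C.nil) C.nil)) C.nil)) C.nil))) C.nil))) (List.cons (C.node (nat_lit 0) (nat_lit 2) (nat_lit 7) (C.cons (nat_lit 165) (C.node (nat_lit 0) (nat_lit 5) (nat_lit 8) (C.cons (nat_lit 291) (C.node (nat_lit 0) (nat_lit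 5) (nat_lit 9) (C.cons (nat_lit 545) (C.node (nat_lit 0) (nat_lit 5) (nat_lit 10) C.nil) C.nil)) (C.cons (nat_lit 289) (C.node (nat_lit 0) (nat_lit 1) (nat_lit 8) (C.cons (nat_lit 275) (C.node (nat_lit 0) (nat_lit 1) (nat_lit 9) (C.cons (nat_lit 547) (C.node (nat_lit 0) (nat_lit 1) (nat_lit 10) C.nil) C.nil)) C.nil)) C.nil))) (C.cons (nat_lit 133) (C.node (nat_lit 0) (nat_lit 5) (nat_lit 7) C.nil) C.nil))) List.nil))))))))))))))))))))))

theorem ok12_0 : okL par12 (nat_lit 22) c12_0 (nat_lit 0) = true := by decide +kernel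

noncomputable def c12_22 : List C :=
  (List.cons (C.big C.nil (C.big (C.cons (nat_lit 1095) (C.ref (nat_lit 0) (nat_lit 205163983024656)) (C.cons (nat_lit 1063) (C.ref (nat_lit 0) (nat_lit 205163967296016)) (C.cons (nat_lit 1047) (C.ref (nat_lit 0) (nat_lit 205163950584336)) (C.cons (nat_lit 1039) (C.ref (nat_lit 0) (nat_lit 205163933811216)) (C.cons (nat_lit 583) (C.ref (nat_lit 0) (nat_lit 204133190873616)) (C.cons (nat_lit 551) (C.ref (nat_lit 0) (nat_lit 204133175144976)) (C.cons (nat_lit 535) (C.ref (nat_lit 0) (nat_lit 204133158433296)) (C.cons (nat_lit 527) (C.ref (nat_lit 0) (nat_lit 204133141660176)) (C.cons (nat_lit 327) (C.ref (nat_lit 0) (nat_lit 203037974213136)) (C.cons (nat_lit 295) (C.ref (nat_lit 0) (nat_lit 203037958484496)) (C.cons (nat_lit 279) (C.ref (nat_lit 0) (nat_lit 203037941772816)) (C.cons (nat_lit 271) (C.ref (nat_lit 0) (nat_lit 203037924999696)) (C.cons (nat_lit 199) (C.ref (nat_lit 0) (nat_lit 201938731020816)) (C.cons (nat_lit 167) (C.ref (nat_lit 0) (nat_lit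 201938715292176)) (C.cons (nat_lit 151) (C.ref (nat_lit 0) (nat_lit 201938698580496)) (C.cons (nat_lit 143) (C.ref (nat_lit 0) (nat_lit 201938681807376)) C.nil)))))))))))))))) (C.node (nat_lit 0) (nat_lit 1) (nat_lit 11) (C.cons (nat_lit 2055) (C.node (nat_lit 0) (nat_lit 3) (nat_lit 7) (C.cons (nat_lit 141) (C.ref (nat_lit 11) (nat_lit 205163983024656)) (C.cons (nat_lit 139) (C.ref (nat_lit 11) (nat_lit 205163983024416)) (C.cons (nat_lit 137) (C.node (nat_lit 0) (nat_lit 3) (nat_lit 8) (C.cons (nat_lit 269) (C.ref (nat_lit 10) (nat_lit 205159956492816)) (C.cons (nat_lit 267) (C.ref (nat_lit 10) (nat_lit 205159956492576)) (C.cons (nat_lit 265) (C.node (nat_lit 0) (nat_lit 1) (nat_lit 3) (C.cons (nat_lit 1035) (C.ref (nat_lit 9) (nat_lit 203992262258976)) (C.cons (nat_lit 523) (C.ref (nat_lit 9) (nat_lit 205091505451296)) (C.cons (nat_lit 11) (C.node (nat_lit 0) (nat_lit 3) (nat_lit 9) (C.cons (nat_lit 525) (C.node (nat_lit 0) (nat_lit 3) (nat_lit 10) (C.cons (nat_lit 1033) (C.ref (nat_lit 8)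 (nat_lit 205091505451536)) C.nil)) (C.cons (nat_lit 521) (C.node (nat_lit 0) (nat_lit 2) (nat_lit 3) (C.cons (nat_lit 1037) (C.ref (nat_lit 8) (nat_lit 203992262259216)) (C.cons (nat_lit 13) (C.node (nat_lit 0) (nat_lit 3) (nat_lit 10) (C.cons (nat_lit 1033) (C.node (nat_lit 0) (nat_lit 4) (nat_lit 7) (C.cons (nat_lit 149) (C.ref (nat_lit 12) (nat_lit 205163983024656)) (C.cons (nat_lit 147) (C.ref (nat_lit 12) (nat_lit 205163983024416)) (C.cons (nat_lit 145) (C.node (nat_lit 0) (nat_lit 1) (nat_lit 7) (C.cons (nat_lit 195) (C.ref (nat_lit 13) (nat_lit 205163983024656)) (C.cons (nat_lit 163) (C.ref (nat_lit 13) (nat_lit 205163967296016)) (C.cons (nat_lit 131) (C.node (nat_lit 0) (nat_lit 5) (nat_lit 7) (C.cons (nat_lit 165) (C.node (nat_lit 0) (nat_lit 6) (nat_lit 7) C.nil) C.nil)) C.nil)))) C.nil)))) C.nil)) C.nil))) C.nil))) C.nil)))) C.nil)))) C.nil)))) (C.cons (nat_lit 2051) (C.node (nat_lit 0) (nat_lit 2) (nat_lit 11) (C.cons (nat_lit 2053) (C.node (nat_lit 0) (nat_lit 3) (nat_lit 7) (C.cons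 (nat_lit 141) (C.ref (nat_lit 19) (nat_lit 205163983024656)) (C.cons (nat_lit 139) (C.ref (nat_lit 19) (nat_lit 205163983024416)) (C.cons (nat_lit 137) (C.node (nat_lit 0) (nat_lit 3) (nat_lit 8) (C.cons (nat_lit 269) (C.ref (nat_lit 18) (nat_lit 205159956492816)) (C.cons (nat_lit 267) (C.ref (nat_lit 18) (nat_lit 205159956492576)) (C.cons (nat_lit 265) (C.node (nat_lit 0) (nat_lit 3) (nat_lit 9) (C.cons (nat_lit 525) (C.ref (nat_lit 17) (nat_lit 205091505451536)) (C.cons (nat_lit 523) (C.ref (nat_lit 17) (nat_lit 205091505451296)) (C.cons (nat_lit 521) (C.node (nat_lit 0) (nat_lit 1) (nat_lit 3) (C.cons (nat_lit 1035) (C.node (nat_lit 0) (nat_lit 2) (nat_lit 3) (C.cons (nat_lit 13) (C.ref (nat_lit 16) (nat_lit 203992262258976)) C.nil)) (C.cons (nat_lit 15) (C.node (nat_lit 0) (nat_lit 3) (nat_lit 10) (C.cons (nat_lit 1033) (C.node (nat_lit 0) (nat_lit 4) (nat_lit 7) (C.cons (nat_lit 149) (C.ref (nat_lit 20) (nat_lit 205163983024656)) (C.cons (nat_lit 147)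
  (C.ref (nat_lit 20) (nat_lit 205163983024416)) (C.cons (nat_lit 145) (C.node (nat_lit 0) (nat_lit 1) (nat_lit 7) (C.cons (nat_lit 195) (C.ref (nat_lit 21) (nat_lit 205163983024656)) (C.cons (nat_lit 163) (C.ref (nat_lit 21) (nat_lit 205163967296016)) (C.cons (nat_lit 131) (C.node (nat_lit 0) (nat_lit 5) (nat_lit 7) (C.cons (nat_lit 165) (C.node (nat_lit 0) (nat_lit 6) (nat_lit 7) C.nil) C.nil)) C.nil)))) C.nil)))) C.nil)) (C.cons (nat_lit 11) (C.node (nat_lit 0) (nat_lit 2) (nat_lit 3) (C.cons (nat_lit 1037) (C.ref (nat_lit 16) (nat_lit 203992262259216)) (C.cons (nat_lit 13) (C.node (nat_lit 0) (nat_lit 3) (nat_lit 10) (C.cons (nat_lit 1033) (C.node (nat_lit 0) (nat_lit 4) (nat_lit 7) (C.cons (nat_lit 149) (C.node (nat_lit 0) (nat_lit 4) (nat_lit 8) (C.cons (nat_lit 275) (C.node (nat_lit 0) (nat_lit 4) (nat_lit 9) C.nil) C.nil)) (C.cons (nat_lit 147) (C.node (nat_lit 0) (nat_lit 4) (nat_lit 8) (C.cons (nat_lit 277) (C.node (nat_lit 0) (nat_lit 4) (nat_lit 9) C.nil) C.nil)) C.nil))) C.nil))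 C.nil))) C.nil)))) C.nil)))) C.nil)))) C.nil)))) C.nil)) C.nil))))) (List.cons (C.node (nat_lit 0) (nat_lit 3) (nat_lit 7) (C.cons (nat_lit 137) (C.node (nat_lit 0) (nat_lit 4) (nat_lit 7) (C.cons (nat_lit 145) (C.node (nat_lit 0) (nat_lit 5) (nat_lit 7) (C.cons (nat_lit 161) (C.node (nat_lit 0) (nat_lit 6) (nat_lit 7) (C.cons (nat_lit 193) (C.node (nat_lit 0) (nat_lit 3) (nat_lit 8) (C.cons (nat_lit 267) (C.node (nat_lit 0) (nat_lit 3) (nat_lit 9) C.nil) C.nil)) C.nil)) C.nil)) C.nil)) C.nil)) (List.cons (C.node (nat_lit 0) (nat_lit 2) (nat_lit 9) (C.cons (nat_lit 517) (C.node (nat_lit 0) (nat_lit 2) (nat_lit 10) (C.cons (nat_lit 1029) (C.node (nat_lit 0) (nat_lit 2) (nat_lit 11) (C.cons (nat_lit 2053) (C.ref (nat_lit 23) (nat_lit 205163983024656)) C.nil)) C.nil)) C.nil)) (List.cons (C.big C.nil (C.big C.nil (C.node (nat_lit 0) (nat_lit 2) (nat_lit 7) (C.cons (nat_lit 135) (C.node (nat_lit 0) (nat_lit 2) (nat_lit 8) (C.cons (nat_lit 261) (C.ref (nat_lit 24) (nat_lit 205163983024656)) C.nil))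 (C.cons (nat_lit 133) (C.node (nat_lit 0) (nat_lit 2) (nat_lit 8) (C.cons (nat_lit 263) (C.ref (nat_lit 24) (nat_lit 205159956492816)) (C.cons (nat_lit 261) (C.node (nat_lit 0) (nat_lit 2) (nat_lit 9) (C.cons (nat_lit 519) (C.node (nat_lit 0) (nat_lit 2) (nat_lit 10) (C.cons (nat_lit 1029) (C.node (nat_lit 0) (nat_lit 2) (nat_lit 11) (C.cons (nat_lit 2053) (C.ref (nat_lit 23) (nat_lit 205091505451536)) C.nil)) C.nil)) (C.cons (nat_lit 517) (C.node (nat_lit 0) (nat_lit 2) (nat_lit 10) (C.cons (nat_lit 1031) (C.node (nat_lit 0) (nat_lit 2) (nat_lit 11) (C.cons (nat_lit 2053) (C.ref (nat_lit 23) (nat_lit 203992262259216)) C.nil)) (C.cons (nat_lit 1029) (C.node (nat_lit 0) (nat_lit 1) (nat_lit 2) (C.cons (nat_lit 2055) (C.ref (nat_lit 23) (nat_lit 186400344650256)) (C.cons (nat_lit 7) (C.node (nat_lit 0) (nat_lit 2) (nat_lit 11) (C.cons (nat_lit 2053) (C.node (nat_lit 0) (nat_lit 3) (nat_lit 7) (C.cons (nat_lit 139) (C.node (nat_lit 0) (nat_lit 3) (nat_lit 8) (C.cons (nat_lit 265) (C.node (nat_lit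 0) (nat_lit 3) (nat_lit 9) (C.cons (nat_lit 521) (C.node (nat_lit 0) (nat_lit 3) (nat_lit 10) C.nil) C.nil)) C.nil)) (C.cons (nat_lit 137) (C.node (nat_lit 0) (nat_lit 3) (nat_lit 8) (C.cons (nat_lit 267) (C.node (nat_lit 0) (nat_lit 3) (nat_lit 9) (C.cons (nat_lit 521) (C.node (nat_lit 0) (nat_lit 3) (nat_lit 10) C.nil) C.nil)) (C.cons (nat_lit 265) (C.node (nat_lit 0) (nat_lit 3) (nat_lit 9) (C.cons (nat_lit 523) (C.node (nat_lit 0) (nat_lit 3) (nat_lit 10) C.nil) C.nil)) C.nil))) C.nil))) C.nil)) C.nil))) C.nil))) C.nil))) C.nil))) C.nil))))) (List.cons (C.big C.nil (C.node (nat_lit 0) (nat_lit 1) (nat_lit 10) (C.cons (nat_lit 1027) (C.node (nat_lit 0) (nat_lit 1) (nat_lit 11) (C.cons (nat_lit 2051) (C.node (nat_lit 0) (nat_lit 2) (nat_lit 9) (C.cons (nat_lit 517) (C.node (nat_lit 0) (nat_lit 2) (nat_lit 11) (C.cons (nat_lit 2053) (C.node (nat_lit 0) (nat_lit 3) (nat_lit 8) (C.cons (nat_lit 265) (C.node (nat_lit 0) (nat_lit 3) (nat_lit 11)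
  (C.cons (nat_lit 2057) (C.node (nat_lit 0) (nat_lit 4) (nat_lit 9) (C.cons (nat_lit 529) (C.node (nat_lit 0) (nat_lit 4) (nat_lit 10) (C.cons (nat_lit 1041) (C.node (nat_lit 0) (nat_lit 5) (nat_lit 8) (C.cons (nat_lit 289) (C.node (nat_lit 0) (nat_lit 5) (nat_lit 10) C.nil) C.nil)) C.nil)) C.nil)) C.nil)) C.nil)) C.nil)) C.nil)) C.nil)) C.nil))) (List.cons (C.node (nat_lit 0) (nat_lit 3) (nat_lit 7) (C.cons (nat_lit 153) (C.node (nat_lit 0) (nat_lit 3) (nat_lit 8) (C.cons (nat_lit 265) (C.node (nat_lit 0) (nat_lit 2) (nat_lit 4) (C.cons (nat_lit 277) (C.node (nat_lit 0) (nat_lit 5) (nat_lit 8) (C.cons (nat_lit 289) (C.node (nat_lit 0) (nat_lit 2) (nat_lit 5) (C.cons (nat_lit 165) (C.pat (nat_lit 1) (nat_lit 1951640353) (nat_lit 5415577746031716944060759426160461937)) C.nil)) C.nil)) (C.cons (nat_lit 21) (C.node (nat_lit 0) (nat_lit 4) (nat_lit 8) C.nil) C.nil))) C.nil)) (C.cons (nat_lit 137) (C.node (nat_lit 0) (nat_lit 3) (nat_lit 4) (C.cons (nat_lit 281) (C.node (nat_lit 0) (nat_lit 2) (nat_lit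 4) (C.cons (nat_lit 149) (C.pat (nat_lit 0) (nat_lit 108677921) (nat_lit 314459189528121250288185812125703)) (C.cons (nat_lit 21) (C.node (nat_lit 0) (nat_lit 4) (nat_lit 7) C.nil) C.nil))) (C.cons (nat_lit 25) (C.node (nat_lit 0) (nat_lit 3) (nat_lit 8) C.nil) C.nil))) C.nil))) (List.cons (C.node (nat_lit 0) (nat_lit 2) (nat_lit 9) (C.cons (nat_lit 533) (C.node (nat_lit 0) (nat_lit 2) (nat_lit 7) (C.cons (nat_lit 165) (C.pat (nat_lit 1) (nat_lit 664103489) (nat_lit 1012510960732080381080524707507277697)) (C.cons (nat_lit 133) (C.node (nat_lit 0) (nat_lit 5) (nat_lit 7) (C.cons (nat_lit 161) (C.node (nat_lit 0) (nat_lit 2) (nat_lit 5) (C.cons (nat_lit 293) (C.node (nat_lit 0) (nat_lit 3) (nat_lit 7) (C.cons (nat_lit 153) (C.pat (nat_lit 1) (nat_lit 1200843553) (nat_lit 1012510009994149763457196063542022017)) (C.cons (nat_lit 137) (C.node (nat_lit 0) (nat_lit 4) (nat_lit 7) (C.cons (nat_lit 145) (C.node (nat_lit 0) (nat_lit 3) (nat_lit 4) (C.cons (nat_lit 281) (C.pat (nat_lit 1) (nat_lit 2220075809)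 (nat_lit 5415587887236518769932000196805068913)) C.nil)) C.nil)) C.nil))) (C.cons (nat_lit 37) (C.node (nat_lit 0) (nat_lit 2) (nat_lit 8) (C.cons (nat_lit 261) (C.node (nat_lit 0) (nat_lit 5) (nat_lit 8) C.nil) C.nil)) C.nil))) C.nil)) C.nil))) (C.cons (nat_lit 517) (C.node (nat_lit 0) (nat_lit 4) (nat_lit 9) (C.cons (nat_lit 529) (C.ref (nat_lit 27) (nat_lit 205163983024656)) C.nil)) C.nil))) (List.cons (C.node (nat_lit 0) (nat_lit 3) (nat_lit 7) (C.cons (nat_lit 153) (C.node (nat_lit 0) (nat_lit 3) (nat_lit 8) (C.cons (nat_lit 265) (C.node (nat_lit 0) (nat_lit 2) (nat_lit 4) (C.cons (nat_lit 277) (C.node (nat_lit 0) (nat_lit 5) (nat_lit 8) (C.cons (nat_lit 289) (C.node (nat_lit 0) (nat_lit 1) (nat_lit 2) (C.cons (nat_lit 135) (C.node (nat_lit 0) (nat_lit 2) (nat_lit 5) C.nil) C.nil)) C.nil)) (C.cons (nat_lit 21) (C.node (nat_lit 0) (nat_lit 4) (nat_lit 8) C.nil) C.nil))) C.nil)) (C.cons (nat_lit 137) (C.node (nat_lit 0) (nat_lit 3) (nat_lit 4) (C.cons (nat_lit 281) (C.node (nat_lit 0) (nat_lit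 2) (nat_lit 4) (C.cons (nat_lit 149) (C.node (nat_lit 0) (nat_lit 5) (nat_lit 7) (C.cons (nat_lit 161) (C.node (nat_lit 0) (nat_lit 1) (nat_lit 2) (C.cons (nat_lit 263) (C.node (nat_lit 0) (nat_lit 2) (nat_lit 5) C.nil) C.nil)) C.nil)) (C.cons (nat_lit 21) (C.node (nat_lit 0) (nat_lit 4) (nat_lit 7) C.nil) C.nil))) (C.cons (nat_lit 25) (C.node (nat_lit 0) (nat_lit 3) (nat_lit 8) C.nil) C.nil))) C.nil))) (List.cons (C.node (nat_lit 0) (nat_lit 2) (nat_lit 9) (C.cons (nat_lit 533) (C.node (nat_lit 0) (nat_lit 3) (nat_lit 7) (C.cons (nat_lit 153) (C.node (nat_lit 0) (nat_lit 3) (nat_lit 8) (C.cons (nat_lit 265) (C.node (nat_lit 0) (nat_lit 4) (nat_lit 8) (C.cons (nat_lit 273) (C.ref (nat_lit 27) (nat_lit 186609674899776)) C.nil)) C.nil)) (C.cons (nat_lit 137) (C.node (nat_lit 0) (nat_lit 4) (nat_lit 7) (C.cons (nat_lit 145) (C.node (nat_lit 0) (nat_lit 3) (nat_lit 4) (C.cons (nat_lit 281) (C.ref (nat_lit 27) (nat_lit 186605648367936))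
  (C.cons (nat_lit 25) (C.node (nat_lit 0) (nat_lit 3) (nat_lit 8) (C.cons (nat_lit 265) (C.node (nat_lit 0) (nat_lit 4) (nat_lit 8) C.nil) C.nil)) C.nil))) C.nil)) C.nil))) (C.cons (nat_lit 517) (C.node (nat_lit 0) (nat_lit 4) (nat_lit 9) (C.cons (nat_lit 529) (C.ref (nat_lit 29) (nat_lit 205163983024656)) C.nil)) C.nil))) (List.cons (C.big (C.cons (nat_lit 279) (C.ref (nat_lit 26) (nat_lit 205163983024656)) (C.cons (nat_lit 151) (C.ref (nat_lit 26) (nat_lit 205159956492816)) C.nil)) (C.node (nat_lit 0) (nat_lit 3) (nat_lit 11) (C.cons (nat_lit 2057) (C.node (nat_lit 0) (nat_lit 5) (nat_lit 10) (C.cons (nat_lit 1057) (C.node (nat_lit 0) (nat_lit 6) (nat_lit 9) (C.cons (nat_lit 577) (C.node (nat_lit 0) (nat_lit 1) (nat_lit 10) (C.cons (nat_lit 1043) (C.node (nat_lit 0) (nat_lit 1) (nat_lit 11) (C.cons (nat_lit 2055) (C.node (nat_lit 0) (nat_lit 1) (nat_lit 7) (C.cons (nat_lit 195) (C.node (nat_lit 0) (nat_lit 1) (nat_lit 8) (C.cons (nat_lit 259) (C.node (nat_lit 0) (nat_lit 6) (nat_lit 8) (C.cons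 (nat_lit 321) (C.ref (nat_lit 28) (nat_lit 205163983024656)) C.nil)) C.nil)) (C.cons (nat_lit 131) (C.node (nat_lit 0) (nat_lit 6) (nat_lit 7) (C.cons (nat_lit 193) (C.node (nat_lit 0) (nat_lit 1) (nat_lit 6) (C.cons (nat_lit 323) (C.ref (nat_lit 28) (nat_lit 205159956492816)) (C.cons (nat_lit 67) (C.node (nat_lit 0) (nat_lit 1) (nat_lit 8) (C.cons (nat_lit 259) (C.node (nat_lit 0) (nat_lit 6) (nat_lit 8) (C.cons (nat_lit 321) (C.node (nat_lit 0) (nat_lit 2) (nat_lit 9) (C.cons (nat_lit 533) (C.node (nat_lit 0) (nat_lit 2) (nat_lit 7) (C.cons (nat_lit 165) (C.node (nat_lit 0) (nat_lit 2) (nat_lit 8) (C.cons (nat_lit 261) (C.node (nat_lit 0) (nat_lit 5) (nat_lit 8) C.nil) C.nil)) (C.cons (nat_lit 133) (C.node (nat_lit 0) (nat_lit 5) (nat_lit 7) C.nil) C.nil))) (C.cons (nat_lit 517) (C.node (nat_lit 0) (nat_lit 4) (nat_lit 9) C.nil) C.nil))) C.nil)) C.nil)) C.nil))) C.nil)) C.nil))) (C.cons (nat_lit 2051) (C.node (nat_lit 0) (nat_lit 2) (nat_lit 11) (C.cons (nat_lit 2053) (C.ref (nat_lit 30) (nat_lit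 205163983024656)) C.nil)) C.nil))) (C.cons (nat_lit 1027) (C.node (nat_lit 0) (nat_lit 4) (nat_lit 10) (C.cons (nat_lit 1041) (C.node (nat_lit 0) (nat_lit 1) (nat_lit 11) (C.cons (nat_lit 2055) (C.ref (nat_lit 30) (nat_lit 188671306388496)) (C.cons (nat_lit 2051) (C.node (nat_lit 0) (nat_lit 2) (nat_lit 11) (C.cons (nat_lit 2053) (C.node (nat_lit 0) (nat_lit 2) (nat_lit 9) (C.cons (nat_lit 533) (C.ref (nat_lit 29) (nat_lit 204133175144736)) (C.cons (nat_lit 517) (C.node (nat_lit 0) (nat_lit 4) (nat_lit 9) (C.cons (nat_lit 529) (C.node (nat_lit 0) (nat_lit 3) (nat_lit 7) (C.cons (nat_lit 153) (C.node (nat_lit 0) (nat_lit 3) (nat_lit 8) C.nil) C.nil)) C.nil)) C.nil))) C.nil)) C.nil))) C.nil)) C.nil))) C.nil)) C.nil)) C.nil))) (List.cons (C.big (C.cons (nat_lit 555) (C.ref (nat_lit 31) (nat_lit 205163983024656)) (C.cons (nat_lit 551) (C.ref (nat_lit 31) (nat_lit 205163983020816)) (C.cons (nat_lit 539) (C.ref (nat_lit 31) (nat_lit 205163982041616)) (C.cons (nat_lit 535) (C.ref (nat_lit 31) (nat_lit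 205163982037776)) (C.cons (nat_lit 299) (C.ref (nat_lit 31) (nat_lit 205099558515216)) (C.cons (nat_lit 295) (C.ref (nat_lit 31) (nat_lit 205099558511376)) (C.cons (nat_lit 283) (C.ref (nat_lit 31) (nat_lit 205099557532176)) (C.cons (nat_lit 279) (C.ref (nat_lit 31) (nat_lit 205099557528336)) (C.cons (nat_lit 171) (C.ref (nat_lit 31) (nat_lit 205031107473936)) (C.cons (nat_lit 167) (C.ref (nat_lit 31) (nat_lit 205031107470096)) (C.cons (nat_lit 155) (C.ref (nat_lit 31) (nat_lit 205031106490896)) (C.cons (nat_lit 151) (C.ref (nat_lit 31) (nat_lit 205031106487056)) C.nil)))))))))))) C.nil) (List.cons (C.big C.nil C.nil) (List.cons (C.big C.nil C.nil) (List.cons (C.node (nat_lit 0) (nat_lit 5) (nat_lit 9) (C.cons (nat_lit 549) (C.node (nat_lit 0) (nat_lit 3) (nat_lit 9) (C.cons (nat_lit 585) (C.node (nat_lit 0) (nat_lit 2) (nat_lit 3) (C.cons (nat_lit 1037) (C.node (nat_lit 0) (nat_lit 6) (nat_lit 10) (C.cons (nat_lit 1089)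
  (C.node (nat_lit 0) (nat_lit 1) (nat_lit 2) (C.cons (nat_lit 135) (C.pat (nat_lit 2) (nat_lit 30972154500) (nat_lit 3010710514548576211456586655563739849949512265)) (C.cons (nat_lit 7) (C.node (nat_lit 0) (nat_lit 1) (nat_lit 7) (C.cons (nat_lit 163) (C.pat (nat_lit 1) (nat_lit 947218753) (nat_lit 1677135416268081760509151224662134657)) (C.cons (nat_lit 131) (C.node (nat_lit 0) (nat_lit 5) (nat_lit 7) (C.cons (nat_lit 161) (C.node (nat_lit 0) (nat_lit 1) (nat_lit 5) (C.cons (nat_lit 1059) (C.pat (nat_lit 2) (nat_lit 43287745413) (nat_lit 23125967030769319640317928782858670480019751443)) C.nil)) C.nil)) C.nil))) C.nil))) C.nil)) (C.cons (nat_lit 13) (C.node (nat_lit 0) (nat_lit 3) (nat_lit 10) (C.cons (nat_lit 1033) (C.node (nat_lit 0) (nat_lit 5) (nat_lit 7) (C.cons (nat_lit 163) (C.pat (nat_lit 1) (nat_lit 947218753) (nat_lit 1677135416268081760509151224662134657)) (C.cons (nat_lit 161) (C.node (nat_lit 0) (nat_lit 1) (nat_lit 5) (C.cons (nat_lit 1059) (C.node (nat_lit 0) (nat_lit 1) (nat_lit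 2) (C.cons (nat_lit 135) (C.pat (nat_lit 2) (nat_lit 30972154500) (nat_lit 3010710514548576211456586655563739849949512265)) (C.cons (nat_lit 7) (C.node (nat_lit 0) (nat_lit 1) (nat_lit 7) C.nil) C.nil))) (C.cons (nat_lit 35) (C.node (nat_lit 0) (nat_lit 5) (nat_lit 10) C.nil) C.nil))) C.nil))) C.nil)) C.nil))) (C.cons (nat_lit 521) (C.node (nat_lit 0) (nat_lit 6) (nat_lit 9) (C.cons (nat_lit 577) (C.node (nat_lit 0) (nat_lit 5) (nat_lit 7) (C.cons (nat_lit 163) (C.node (nat_lit 0) (nat_lit 5) (nat_lit 10) (C.cons (nat_lit 1057) (C.node (nat_lit 0) (nat_lit 1) (nat_lit 2) (C.cons (nat_lit 1031) (C.node (nat_lit 0) (nat_lit 2) (nat_lit 3) (C.cons (nat_lit 77) (C.pat (nat_lit 2) (nat_lit 14917142100) (nat_lit 1717344196152665496210621201848972964397125505)) (C.cons (nat_lit 13) (C.node (nat_lit 0) (nat_lit 2) (nat_lit 6) (C.cons (nat_lit 197) (C.pat (nat_lit 1) (nat_lit 663116097) (nat_lit 846359996279685380600969369113137025)) C.nil)) C.nil))) (C.cons (nat_lit 7) (C.node (nat_lit 0) (nat_lit 1)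 (nat_lit 10) C.nil) C.nil))) C.nil)) (C.cons (nat_lit 161) (C.node (nat_lit 0) (nat_lit 1) (nat_lit 5) (C.cons (nat_lit 1059) (C.node (nat_lit 0) (nat_lit 1) (nat_lit 2) (C.cons (nat_lit 135) (C.node (nat_lit 0) (nat_lit 6) (nat_lit 7) (C.cons (nat_lit 193) (C.node (nat_lit 0) (nat_lit 2) (nat_lit 3) (C.cons (nat_lit 1037) (C.node (nat_lit 0) (nat_lit 2) (nat_lit 6) C.nil) (C.cons (nat_lit 77) (C.pat (nat_lit 1) (nat_lit 1267087137) (nat_lit 10691110444172889274543169239706832769)) C.nil))) C.nil)) (C.cons (nat_lit 7) (C.node (nat_lit 0) (nat_lit 1) (nat_lit 7) C.nil) C.nil))) (C.cons (nat_lit 35) (C.node (nat_lit 0) (nat_lit 5) (nat_lit 10) C.nil) C.nil))) C.nil))) C.nil)) C.nil))) (C.cons (nat_lit 545) (C.node (nat_lit 0) (nat_lit 6) (nat_lit 7) (C.cons (nat_lit 197) (C.node (nat_lit 0) (nat_lit 1) (nat_lit 7) (C.cons (nat_lit 163) (C.node (nat_lit 0) (nat_lit 1) (nat_lit 2) (C.cons (nat_lit 1031) (C.node (nat_lit 0) (nat_lit 2) (nat_lit 5) (C.cons (nat_lit 37) (C.node (nat_lit 0) (nat_lit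 5) (nat_lit 10) (C.cons (nat_lit 1057) (C.node (nat_lit 0) (nat_lit 2) (nat_lit 3) (C.cons (nat_lit 525) (C.pat (nat_lit 2) (nat_lit 39026262900) (nat_lit 11707958265701519419060811160799350145626472771)) (C.cons (nat_lit 13) (C.node (nat_lit 0) (nat_lit 2) (nat_lit 9) C.nil) C.nil))) C.nil)) C.nil)) (C.cons (nat_lit 7) (C.node (nat_lit 0) (nat_lit 1) (nat_lit 10) (C.cons (nat_lit 1027) (C.node (nat_lit 0) (nat_lit 2) (nat_lit 5) (C.cons (nat_lit 1061) (C.node (nat_lit 0) (nat_lit 2) (nat_lit 3) (C.cons (nat_lit 525) (C.pat (nat_lit 2) (nat_lit 39026262900) (nat_lit 11707958265701519419060811160799350145626472771)) (C.cons (nat_lit 13) (C.node (nat_lit 0) (nat_lit 2) (nat_lit 9) C.nil) C.nil))) (C.cons (nat_lit 37) (C.node (nat_lit 0) (nat_lit 5) (nat_lit 10) C.nil) C.nil))) C.nil)) C.nil))) (C.cons (nat_lit 131) (C.node (nat_lit 0) (nat_lit 5) (nat_lit 7) (C.cons (nat_lit 161) (C.node (nat_lit 0) (nat_lit 2) (nat_lit 9) (C.cons (nat_lit 525)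
  (C.node (nat_lit 0) (nat_lit 6) (nat_lit 9) (C.cons (nat_lit 577) (C.node (nat_lit 0) (nat_lit 3) (nat_lit 6) (C.cons (nat_lit 1097) (C.node (nat_lit 0) (nat_lit 2) (nat_lit 1) (C.cons (nat_lit 1031) (C.node (nat_lit 0) (nat_lit 2) (nat_lit 5) C.nil) (C.cons (nat_lit 39) (C.pat (nat_lit 1) (nat_lit 1267013923) (nat_lit 10691110444141464176102450418409738113)) C.nil))) C.nil)) C.nil)) (C.cons (nat_lit 517) (C.node (nat_lit 0) (nat_lit 2) (nat_lit 3) (C.cons (nat_lit 1037) (C.node (nat_lit 0) (nat_lit 6) (nat_lit 10) C.nil) C.nil)) C.nil))) C.nil)) C.nil))) (C.cons (nat_lit 193) (C.node (nat_lit 0) (nat_lit 1) (nat_lit 7) (C.cons (nat_lit 163) (C.node (nat_lit 0) (nat_lit 2) (nat_lit 7) (C.cons (nat_lit 133) (C.node (nat_lit 0) (nat_lit 1) (nat_lit 2) (C.cons (nat_lit 1031) (C.node (nat_lit 0) (nat_lit 2) (nat_lit 5) (C.cons (nat_lit 37) (C.node (nat_lit 0) (nat_lit 5) (nat_lit 10) C.nil) C.nil)) (C.cons (nat_lit 7) (C.node (nat_lit 0) (nat_lit 1) (nat_lit 10) C.nil) C.nil))) C.nil)) (C.cons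 (nat_lit 135) (C.node (nat_lit 0) (nat_lit 5) (nat_lit 7) (C.cons (nat_lit 161) (C.node (nat_lit 0) (nat_lit 1) (nat_lit 5) (C.cons (nat_lit 1059) (C.node (nat_lit 0) (nat_lit 2) (nat_lit 5) (C.cons (nat_lit 37) (C.node (nat_lit 0) (nat_lit 2) (nat_lit 9) (C.cons (nat_lit 581) (C.node (nat_lit 0) (nat_lit 3) (nat_lit 9) C.nil) (C.cons (nat_lit 525) (C.node (nat_lit 0) (nat_lit 6) (nat_lit 9) C.nil) C.nil))) C.nil)) (C.cons (nat_lit 35) (C.node (nat_lit 0) (nat_lit 1) (nat_lit 10) C.nil) C.nil))) C.nil)) (C.cons (nat_lit 131) (C.node (nat_lit 0) (nat_lit 2) (nat_lit 7) (C.cons (nat_lit 165) (C.node (nat_lit 0) (nat_lit 1) (nat_lit 2) (C.cons (nat_lit 1031) (C.node (nat_lit 0) (nat_lit 1) (nat_lit 5) (C.cons (nat_lit 35) (C.node (nat_lit 0) (nat_lit 5) (nat_lit 10) C.nil) C.nil)) (C.cons (nat_lit 7) (C.node (nat_lit 0) (nat_lit 1) (nat_lit 5) (C.cons (nat_lit 1059) (C.node (nat_lit 0) (nat_lit 2) (nat_lit 9) (C.cons (nat_lit 581) (C.node (nat_lit 0) (nat_lit 3) (nat_lit 9) C.nil) (C.cons (nat_lit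 525) (C.node (nat_lit 0) (nat_lit 6) (nat_lit 9) C.nil) C.nil))) C.nil)) C.nil))) (C.cons (nat_lit 133) (C.node (nat_lit 0) (nat_lit 5) (nat_lit 7) C.nil) C.nil))) C.nil)))) C.nil))) C.nil))) (List.cons (C.node (nat_lit 0) (nat_lit 6) (nat_lit 7) (C.cons (nat_lit 197) (C.node (nat_lit 0) (nat_lit 1) (nat_lit 7) (C.cons (nat_lit 163) (C.node (nat_lit 0) (nat_lit 1) (nat_lit 2) (C.cons (nat_lit 1031) (C.node (nat_lit 0) (nat_lit 5) (nat_lit 10) (C.cons (nat_lit 1065) (C.node (nat_lit 0) (nat_lit 6) (nat_lit 10) (C.cons (nat_lit 1089) (C.node (nat_lit 0) (nat_lit 2) (nat_lit 3) (C.cons (nat_lit 525) (C.node (nat_lit 0) (nat_lit 2) (nat_lit 5) (C.cons (nat_lit 37) (C.node (nat_lit 0) (nat_lit 3) (nat_lit 6) C.nil) C.nil)) (C.cons (nat_lit 13) (C.node (nat_lit 0) (nat_lit 2) (nat_lit 5) (C.cons (nat_lit 549) (C.pat (nat_lit 1) (nat_lit 663116097) (nat_lit 846359996279685380600969369113137025)) C.nil)) C.nil))) C.nil)) (C.cons (nat_lit 1057) (C.node (nat_lit 0) (nat_lit 3) (nat_lit 10) (C.cons (nat_lit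 1097) (C.node (nat_lit 0) (nat_lit 6) (nat_lit 9) (C.cons (nat_lit 577) (C.node (nat_lit 0) (nat_lit 2) (nat_lit 3) (C.cons (nat_lit 525) (C.node (nat_lit 0) (nat_lit 2) (nat_lit 5) C.nil) (C.cons (nat_lit 45) (C.pat (nat_lit 1) (nat_lit 1802844705) (nat_lit 10691110443979478557108720003722317697)) C.nil))) C.nil)) (C.cons (nat_lit 1033) (C.node (nat_lit 0) (nat_lit 6) (nat_lit 10) C.nil) C.nil))) C.nil))) (C.cons (nat_lit 7) (C.node (nat_lit 0) (nat_lit 1) (nat_lit 10) (C.cons (nat_lit 1027) (C.node (nat_lit 0) (nat_lit 6) (nat_lit 9) (C.cons (nat_lit 585) (C.node (nat_lit 0) (nat_lit 6) (nat_lit 10) C.nil) C.nil)) C.nil)) C.nil))) (C.cons (nat_lit 131) (C.node (nat_lit 0) (nat_lit 5) (nat_lit 7) (C.cons (nat_lit 161) (C.node (nat_lit 0) (nat_lit 6) (nat_lit 9) (C.cons (nat_lit 585) (C.node (nat_lit 0) (nat_lit 6) (nat_lit 10) C.nil) C.nil)) C.nil)) C.nil))) (C.cons (nat_lit 193) (C.node (nat_lit 0) (nat_lit 1) (nat_lit 7) (C.cons (nat_lit 163)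
  (C.node (nat_lit 0) (nat_lit 2) (nat_lit 7) (C.cons (nat_lit 133) (C.node (nat_lit 0) (nat_lit 1) (nat_lit 2) (C.cons (nat_lit 1031) (C.node (nat_lit 0) (nat_lit 5) (nat_lit 10) (C.cons (nat_lit 1065) (C.node (nat_lit 0) (nat_lit 6) (nat_lit 10) C.nil) C.nil)) C.nil)) C.nil)) (C.cons (nat_lit 135) (C.node (nat_lit 0) (nat_lit 5) (nat_lit 7) (C.cons (nat_lit 161) (C.node (nat_lit 0) (nat_lit 1) (nat_lit 5) (C.cons (nat_lit 1059) (C.node (nat_lit 0) (nat_lit 2) (nat_lit 5) (C.cons (nat_lit 549) (C.node (nat_lit 0) (nat_lit 3) (nat_lit 5) C.nil) (C.cons (nat_lit 45) (C.node (nat_lit 0) (nat_lit 5) (nat_lit 9) C.nil) C.nil))) C.nil)) C.nil)) (C.cons (nat_lit 131) (C.node (nat_lit 0) (nat_lit 2) (nat_lit 7) (C.cons (nat_lit 165) (C.node (nat_lit 0) (nat_lit 1) (nat_lit 2) (C.cons (nat_lit 1031) (C.node (nat_lit 0) (nat_lit 1) (nat_lit 5) C.nil) C.nil)) C.nil)) C.nil)))) C.nil))) List.nil)))))))))))))))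

theorem ok12_22 : okL par12 (nat_lit 37) c12_22 (nat_lit 22) = true := by decide +kernel

noncomputable def c12_37 : List C :=
  (List.cons (C.node (nat_lit 0) (nat_lit 5) (nat_lit 7) (C.cons (nat_lit 165) (C.node (nat_lit 0) (nat_lit 1) (nat_lit 5) (C.cons (nat_lit 1059) (C.node (nat_lit 0) (nat_lit 1) (nat_lit 2) (C.cons (nat_lit 71) (C.node (nat_lit 0) (nat_lit 1) (nat_lit 7) C.nil) C.nil)) C.nil)) (C.cons (nat_lit 163) (C.node (nat_lit 0) (nat_lit 2) (nat_lit 7) (C.cons (nat_lit 197) (C.node (nat_lit 0) (nat_lit 1) (nat_lit 2) (C.cons (nat_lit 1031) (C.node (nat_lit 0) (nat_lit 1) (nat_lit 6) C.nil) C.nil)) C.nil)) C.nil))) (List.cons (C.node (nat_lit 0) (nat_lit 1) (nat_lit 8) (C.cons (nat_lit 323) (C.node (nat_lit 0) (nat_lit 3) (nat_lit 8) (C.cons (nat_lit 297) (C.ref (nat_lit 35) (nat_lit 205163983024656)) (C.cons (nat_lit 265) (C.node (nat_lit 0) (nat_lit 5) (nat_lit 8) (C.cons (nat_lit 289) (C.ref (nat_lit 36) (nat_lit 205163983024656)) C.nil)) C.nil))) (C.cons (nat_lit 291) (C.node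 (nat_lit 0) (nat_lit 3) (nat_lit 8) (C.cons (nat_lit 329) (C.ref (nat_lit 35) (nat_lit 205163967296016)) (C.cons (nat_lit 265) (C.node (nat_lit 0) (nat_lit 6) (nat_lit 8) (C.cons (nat_lit 321) (C.ref (nat_lit 36) (nat_lit 205163967296016)) C.nil)) C.nil))) (C.cons (nat_lit 259) (C.node (nat_lit 0) (nat_lit 5) (nat_lit 8) (C.cons (nat_lit 297) (C.node (nat_lit 0) (nat_lit 6) (nat_lit 8) (C.cons (nat_lit 321) (C.ref (nat_lit 36) (nat_lit 205027065205296)) C.nil)) (C.cons (nat_lit 289) (C.node (nat_lit 0) (nat_lit 3) (nat_lit 8) (C.cons (nat_lit 329) (C.ref (nat_lit 36) (nat_lit 205027080933936)) (C.cons (nat_lit 265) (C.node (nat_lit 0) (nat_lit 6) (nat_lit 8) (C.cons (nat_lit 321) (C.ref (nat_lit 37) (nat_lit 205163983024656)) C.nil)) C.nil))) C.nil))) C.nil)))) (List.cons (C.node (nat_lit 0) (nat_lit 6) (nat_lit 7) (C.cons (nat_lit 197) (C.node (nat_lit 0) (nat_lit 1) (nat_lit 7) (C.cons (nat_lit 163) (C.node (nat_lit 0) (nat_lit 1) (nat_lit 9) (C.cons (nat_lit 519) (C.node (nat_lit 0) (nat_lit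 1) (nat_lit 10) (C.cons (nat_lit 1027) (C.node (nat_lit 0) (nat_lit 5) (nat_lit 9) (C.cons (nat_lit 545) (C.node (nat_lit 0) (nat_lit 2) (nat_lit 3) (C.cons (nat_lit 1037) (C.node (nat_lit 0) (nat_lit 2) (nat_lit 5) C.nil) C.nil)) C.nil)) C.nil)) (C.cons (nat_lit 515) (C.node (nat_lit 0) (nat_lit 1) (nat_lit 2) (C.cons (nat_lit 1031) (C.node (nat_lit 0) (nat_lit 5) (nat_lit 10) (C.cons (nat_lit 1057) (C.node (nat_lit 0) (nat_lit 2) (nat_lit 3) (C.cons (nat_lit 525) (C.node (nat_lit 0) (nat_lit 2) (nat_lit 5) C.nil) C.nil)) C.nil)) (C.cons (nat_lit 7) (C.node (nat_lit 0) (nat_lit 1) (nat_lit 10) C.nil) C.nil))) C.nil))) (C.cons (nat_lit 131) (C.node (nat_lit 0) (nat_lit 5) (nat_lit 7) (C.cons (nat_lit 161) (C.node (nat_lit 0) (nat_lit 6) (nat_lit 9) (C.cons (nat_lit 585) (C.node (nat_lit 0) (nat_lit 6) (nat_lit 10) C.nil) C.nil)) C.nil)) C.nil))) (C.cons (nat_lit 193) (C.node (nat_lit 0) (nat_lit 1) (nat_lit 7) (C.cons (nat_lit 163) (C.node (nat_lit 0) (nat_lit 2) (nat_lit 7) (C.cons (nat_lit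 133) (C.node (nat_lit 0) (nat_lit 1) (nat_lit 9) (C.cons (nat_lit 519) (C.node (nat_lit 0) (nat_lit 1) (nat_lit 10) C.nil) C.nil)) C.nil)) (C.cons (nat_lit 135) (C.node (nat_lit 0) (nat_lit 5) (nat_lit 7) (C.cons (nat_lit 161) (C.node (nat_lit 0) (nat_lit 1) (nat_lit 9) (C.cons (nat_lit 547) (C.node (nat_lit 0) (nat_lit 1) (nat_lit 10) C.nil) C.nil)) C.nil)) (C.cons (nat_lit 131) (C.node (nat_lit 0) (nat_lit 2) (nat_lit 7) (C.cons (nat_lit 165) (C.node (nat_lit 0) (nat_lit 5) (nat_lit 9) (C.cons (nat_lit 547) (C.node (nat_lit 0) (nat_lit 5) (nat_lit 10) C.nil) C.nil)) C.nil)) C.nil)))) C.nil))) (List.cons (C.node (nat_lit 0) (nat_lit 6) (nat_lit 7) (C.cons (nat_lit 197) (C.node (nat_lit 0) (nat_lit 1) (nat_lit 7) (C.cons (nat_lit 163) (C.node (nat_lit 0) (nat_lit 1) (nat_lit 9) (C.cons (nat_lit 519) (C.node (nat_lit 0) (nat_lit 1) (nat_lit 10) C.nil) C.nil)) C.nil)) C.nil)) (List.cons (C.node (nat_lit 0) (nat_lit 3) (nat_lit 9) (C.cons (nat_lit 585) (C.node (nat_lit 0) (nat_lit 2) (nat_lit 3)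 (C.cons (nat_lit 1037) (C.node (nat_lit 0) (nat_lit 5) (nat_lit 10) (C.cons (nat_lit 1059)
  (C.node (nat_lit 0) (nat_lit 6) (nat_lit 10) C.nil) C.nil)) C.nil)) (C.cons (nat_lit 525) (C.node (nat_lit 0) (nat_lit 3) (nat_lit 6) (C.cons (nat_lit 1097) (C.node (nat_lit 0) (nat_lit 5) (nat_lit 9) (C.cons (nat_lit 547) (C.node (nat_lit 0) (nat_lit 6) (nat_lit 9) C.nil) C.nil)) C.nil)) C.nil))) (List.cons (C.node (nat_lit 0) (nat_lit 1) (nat_lit 8) (C.cons (nat_lit 323) (C.node (nat_lit 0) (nat_lit 3) (nat_lit 8) (C.cons (nat_lit 297) (C.ref (nat_lit 39) (nat_lit 205163983024656)) (C.cons (nat_lit 265) (C.node (nat_lit 0) (nat_lit 5) (nat_lit 8) (C.cons (nat_lit 289) (C.ref (nat_lit 40) (nat_lit 205163983024656)) C.nil)) C.nil))) (C.cons (nat_lit 291) (C.node (nat_lit 0) (nat_lit 3) (nat_lit 8) (C.cons (nat_lit 329) (C.ref (nat_lit 39) (nat_lit 205163967296016)) (C.cons (nat_lit 265) (C.node (nat_lit 0) (nat_lit 6) (nat_lit 8) (C.cons (nat_lit 321) (C.ref (nat_lit 40) (nat_lit 205163967296016)) C.nil))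 C.nil))) (C.cons (nat_lit 259) (C.node (nat_lit 0) (nat_lit 5) (nat_lit 8) (C.cons (nat_lit 297) (C.node (nat_lit 0) (nat_lit 6) (nat_lit 8) (C.cons (nat_lit 321) (C.ref (nat_lit 41) (nat_lit 205163983024656)) C.nil)) (C.cons (nat_lit 289) (C.node (nat_lit 0) (nat_lit 3) (nat_lit 8) (C.cons (nat_lit 329) (C.ref (nat_lit 41) (nat_lit 205163967296016)) C.nil)) C.nil))) C.nil)))) (List.cons (C.node (nat_lit 0) (nat_lit 1) (nat_lit 5) (C.cons (nat_lit 547) (C.node (nat_lit 0) (nat_lit 3) (nat_lit 5) (C.cons (nat_lit 1065) (C.node (nat_lit 0) (nat_lit 6) (nat_lit 10) (C.cons (nat_lit 1089) (C.node (nat_lit 0) (nat_lit 2) (nat_lit 9) (C.cons (nat_lit 581) (C.node (nat_lit 0) (nat_lit 3) (nat_lit 9) C.nil) (C.cons (nat_lit 525) (C.node (nat_lit 0) (nat_lit 6) (nat_lit 9) C.nil) C.nil))) C.nil)) (C.cons (nat_lit 41) (C.node (nat_lit 0) (nat_lit 5) (nat_lit 10) C.nil) C.nil))) (C.cons (nat_lit 35) (C.node (nat_lit 0) (nat_lit 1) (nat_lit 9) C.nil) C.nil))) (List.cons (C.node (nat_lit 0) (nat_lit 5) (nat_lit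 8) (C.cons (nat_lit 297) (C.node (nat_lit 0) (nat_lit 2) (nat_lit 8) (C.cons (nat_lit 325) (C.node (nat_lit 0) (nat_lit 5) (nat_lit 9) (C.cons (nat_lit 547) (C.node (nat_lit 0) (nat_lit 5) (nat_lit 10) (C.cons (nat_lit 1057) (C.node (nat_lit 0) (nat_lit 1) (nat_lit 2) (C.cons (nat_lit 1031) (C.node (nat_lit 0) (nat_lit 2) (nat_lit 3) (C.cons (nat_lit 525) (C.pat (nat_lit 2) (nat_lit 39026193285) (nat_lit 11708001822426022547165950144267915097998426307)) (C.cons (nat_lit 13) (C.node (nat_lit 0) (nat_lit 2) (nat_lit 9) C.nil) C.nil))) (C.cons (nat_lit 7) (C.node (nat_lit 0) (nat_lit 1) (nat_lit 10) C.nil) C.nil))) C.nil)) (C.cons (nat_lit 545) (C.node (nat_lit 0) (nat_lit 1) (nat_lit 5) (C.cons (nat_lit 1059) (C.node (nat_lit 0) (nat_lit 1) (nat_lit 2) (C.cons (nat_lit 519) (C.node (nat_lit 0) (nat_lit 2) (nat_lit 3) (C.cons (nat_lit 1037) (C.pat (nat_lit 2) (nat_lit 43321160581) (nat_lit 23125983364073701595632247344596841928350826691)) (C.cons (nat_lit 13) (C.node (nat_lit 0) (nat_lit 2) (nat_lit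 10) C.nil) C.nil))) (C.cons (nat_lit 7) (C.node (nat_lit 0) (nat_lit 1) (nat_lit 9) C.nil) C.nil))) (C.cons (nat_lit 35) (C.node (nat_lit 0) (nat_lit 5) (nat_lit 10) C.nil) C.nil))) C.nil))) (C.cons (nat_lit 261) (C.node (nat_lit 0) (nat_lit 6) (nat_lit 8) (C.cons (nat_lit 321) (C.node (nat_lit 0) (nat_lit 5) (nat_lit 9) (C.cons (nat_lit 547) (C.node (nat_lit 0) (nat_lit 5) (nat_lit 10) C.nil) C.nil)) C.nil)) C.nil))) (C.cons (nat_lit 289) (C.node (nat_lit 0) (nat_lit 1) (nat_lit 2) (C.cons (nat_lit 1031) (C.ref (nat_lit 43) (nat_lit 205163983024656)) (C.cons (nat_lit 519) (C.ref (nat_lit 43) (nat_lit 204133190873616)) (C.cons (nat_lit 7) (C.node (nat_lit 0) (nat_lit 1) (nat_lit 9) (C.cons (nat_lit 547) (C.node (nat_lit 0) (nat_lit 1) (nat_lit 10) C.nil) C.nil)) C.nil)))) C.nil))) (List.cons (C.node (nat_lit 0) (nat_lit 1) (nat_lit 9) (C.cons (nat_lit 579) (C.node (nat_lit 0) (nat_lit 1) (nat_lit 2) (C.cons (nat_lit 1031) (C.node (nat_lit 0) (nat_lit 5) (nat_lit 10) (C.cons (nat_lit 1065)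
  (C.node (nat_lit 0) (nat_lit 6) (nat_lit 10) C.nil) C.nil)) C.nil)) (C.cons (nat_lit 519) (C.node (nat_lit 0) (nat_lit 1) (nat_lit 6) (C.cons (nat_lit 1091) (C.node (nat_lit 0) (nat_lit 5) (nat_lit 9) (C.cons (nat_lit 553) (C.node (nat_lit 0) (nat_lit 6) (nat_lit 9) C.nil) C.nil)) C.nil)) C.nil))) (List.cons (C.node (nat_lit 0) (nat_lit 1) (nat_lit 5) (C.cons (nat_lit 1059) (C.node (nat_lit 0) (nat_lit 1) (nat_lit 6) (C.cons (nat_lit 579) (C.node (nat_lit 0) (nat_lit 2) (nat_lit 9) (C.cons (nat_lit 549) (C.node (nat_lit 0) (nat_lit 3) (nat_lit 9) C.nil) (C.cons (nat_lit 525) (C.node (nat_lit 0) (nat_lit 5) (nat_lit 9) C.nil) C.nil))) C.nil)) (C.cons (nat_lit 547) (C.node (nat_lit 0) (nat_lit 1) (nat_lit 6) (C.cons (nat_lit 1091) (C.node (nat_lit 0) (nat_lit 2) (nat_lit 10) (C.cons (nat_lit 1061) (C.node (nat_lit 0) (nat_lit 3) (nat_lit 10) C.nil) (C.cons (nat_lit 1037) (C.node (nat_lit 0) (nat_lit 5) (nat_lit 10) C.nil) C.nil))) C.nil)) C.nil))) (List.cons (C.node (nat_lit 0) (nat_lit 5) (nat_lit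 7) (C.cons (nat_lit 165) (C.node (nat_lit 0) (nat_lit 1) (nat_lit 7) (C.cons (nat_lit 195) (C.ref (nat_lit 44) (nat_lit 205163983024656)) (C.cons (nat_lit 131) (C.node (nat_lit 0) (nat_lit 6) (nat_lit 7) (C.cons (nat_lit 193) (C.node (nat_lit 0) (nat_lit 5) (nat_lit 8) (C.cons (nat_lit 297) (C.node (nat_lit 0) (nat_lit 2) (nat_lit 8) (C.cons (nat_lit 325) (C.node (nat_lit 0) (nat_lit 5) (nat_lit 9) (C.cons (nat_lit 547) (C.node (nat_lit 0) (nat_lit 5) (nat_lit 10) C.nil) C.nil)) C.nil)) C.nil)) C.nil)) C.nil))) (C.cons (nat_lit 163) (C.node (nat_lit 0) (nat_lit 2) (nat_lit 7) (C.cons (nat_lit 197) (C.ref (nat_lit 44) (nat_lit 205163967296016)) (C.cons (nat_lit 133) (C.node (nat_lit 0) (nat_lit 6) (nat_lit 7) (C.cons (nat_lit 193) (C.ref (nat_lit 45) (nat_lit 205163983024656)) C.nil)) C.nil))) (C.cons (nat_lit 161) (C.node (nat_lit 0) (nat_lit 1) (nat_lit 7) (C.cons (nat_lit 195) (C.node (nat_lit 0) (nat_lit 2) (nat_lit 7) (C.cons (nat_lit 133) (C.ref (nat_lit 45) (nat_lit 205163967296016)) C.nil))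 (C.cons (nat_lit 135) (C.node (nat_lit 0) (nat_lit 6) (nat_lit 7) (C.cons (nat_lit 193) (C.ref (nat_lit 46) (nat_lit 205163983024656)) C.nil)) (C.cons (nat_lit 131) (C.node (nat_lit 0) (nat_lit 2) (nat_lit 7) (C.cons (nat_lit 197) (C.node (nat_lit 0) (nat_lit 6) (nat_lit 8) (C.cons (nat_lit 329) (C.node (nat_lit 0) (nat_lit 2) (nat_lit 8) (C.cons (nat_lit 293) (C.node (nat_lit 0) (nat_lit 6) (nat_lit 9) (C.cons (nat_lit 579) (C.node (nat_lit 0) (nat_lit 6) (nat_lit 10) C.nil) C.nil)) C.nil)) C.nil)) C.nil)) C.nil)))) C.nil)))) (List.cons (C.node (nat_lit 0) (nat_lit 1) (nat_lit 8) (C.cons (nat_lit 291) (C.node (nat_lit 0) (nat_lit 1) (nat_lit 9) (C.cons (nat_lit 515) (C.node (nat_lit 0) (nat_lit 1) (nat_lit 10) (C.cons (nat_lit 1027) (C.node (nat_lit 0) (nat_lit 2) (nat_lit 7) (C.cons (nat_lit 165) (C.node (nat_lit 0) (nat_lit 5) (nat_lit 9) (C.cons (nat_lit 553) (C.node (nat_lit 0) (nat_lit 5) (nat_lit 10) C.nil) C.nil)) C.nil)) C.nil)) C.nil)) (C.cons (nat_lit 259) (C.node (nat_lit 0) (nat_lit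 1) (nat_lit 9) (C.cons (nat_lit 547) (C.node (nat_lit 0) (nat_lit 1) (nat_lit 10) (C.cons (nat_lit 1027) (C.node (nat_lit 0) (nat_lit 2) (nat_lit 7) (C.cons (nat_lit 165) (C.node (nat_lit 0) (nat_lit 5) (nat_lit 8) (C.cons (nat_lit 297) (C.node (nat_lit 0) (nat_lit 5) (nat_lit 10) C.nil) C.nil)) C.nil)) C.nil)) (C.cons (nat_lit 515) (C.node (nat_lit 0) (nat_lit 1) (nat_lit 5) (C.cons (nat_lit 1059) (C.node (nat_lit 0) (nat_lit 2) (nat_lit 7) (C.cons (nat_lit 165) (C.node (nat_lit 0) (nat_lit 5) (nat_lit 8) (C.cons (nat_lit 297) (C.node (nat_lit 0) (nat_lit 5) (nat_lit 9) C.nil) C.nil)) C.nil)) C.nil)) C.nil))) C.nil))) (List.cons (C.node (nat_lit 0) (nat_lit 4) (nat_lit 8) (C.cons (nat_lit 277) (C.node (nat_lit 0) (nat_lit 4) (nat_lit 9) (C.cons (nat_lit 531) (C.node (nat_lit 0) (nat_lit 4) (nat_lit 10) (C.cons (nat_lit 1041) (C.ref (nat_lit 38) (nat_lit 205163983024656)) C.nil)) (C.cons (nat_lit 529) (C.node (nat_lit 0) (nat_lit 1) (nat_lit 4)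
  (C.cons (nat_lit 1043) (C.ref (nat_lit 38) (nat_lit 204133190873616)) (C.cons (nat_lit 19) (C.node (nat_lit 0) (nat_lit 4) (nat_lit 10) (C.cons (nat_lit 1041) (C.ref (nat_lit 42) (nat_lit 205163983024656)) C.nil)) C.nil))) C.nil))) (C.cons (nat_lit 275) (C.node (nat_lit 0) (nat_lit 4) (nat_lit 9) (C.cons (nat_lit 533) (C.node (nat_lit 0) (nat_lit 4) (nat_lit 10) (C.cons (nat_lit 1041) (C.ref (nat_lit 38) (nat_lit 205099558515216)) C.nil)) (C.cons (nat_lit 529) (C.node (nat_lit 0) (nat_lit 2) (nat_lit 4) (C.cons (nat_lit 1045) (C.ref (nat_lit 38) (nat_lit 204004341854736)) (C.cons (nat_lit 21) (C.node (nat_lit 0) (nat_lit 4) (nat_lit 10) (C.cons (nat_lit 1041) (C.ref (nat_lit 47) (nat_lit 205163983024656)) C.nil)) C.nil))) C.nil))) (C.cons (nat_lit 273) (C.node (nat_lit 0) (nat_lit 4) (nat_lit 9) (C.cons (nat_lit 533) (C.node (nat_lit 0) (nat_lit 1) (nat_lit 4) (C.cons (nat_lit 1043) (C.ref (nat_lit 38) (nat_lit 203037974213136)) (C.cons (nat_lit 19) (C.node (nat_lit 0) (nat_lit 4) (nat_lit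 10) (C.cons (nat_lit 1041) (C.ref (nat_lit 42) (nat_lit 205099558515216)) C.nil)) C.nil))) (C.cons (nat_lit 531) (C.node (nat_lit 0) (nat_lit 2) (nat_lit 4) (C.cons (nat_lit 1045) (C.ref (nat_lit 38) (nat_lit 202973549703696)) (C.cons (nat_lit 21) (C.node (nat_lit 0) (nat_lit 4) (nat_lit 10) (C.cons (nat_lit 1041) (C.ref (nat_lit 47) (nat_lit 205099558515216)) C.nil)) C.nil))) (C.cons (nat_lit 529) (C.node (nat_lit 0) (nat_lit 1) (nat_lit 4) (C.cons (nat_lit 1043) (C.node (nat_lit 0) (nat_lit 2) (nat_lit 4) (C.cons (nat_lit 21) (C.ref (nat_lit 47) (nat_lit 204004341854736)) C.nil)) (C.cons (nat_lit 23) (C.node (nat_lit 0) (nat_lit 4) (nat_lit 10) (C.cons (nat_lit 1041) (C.node (nat_lit 0) (nat_lit 1) (nat_lit 7) (C.cons (nat_lit 195) (C.ref (nat_lit 48) (nat_lit 205163983024656)) (C.cons (nat_lit 163) (C.ref (nat_lit 48) (nat_lit 205163967296016)) (C.cons (nat_lit 131) (C.node (nat_lit 0) (nat_lit 5) (nat_lit 7) (C.cons (nat_lit 165) (C.node (nat_lit 0) (nat_lit 6) (nat_lit 7) (C.cons (nat_lit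 193) (C.node (nat_lit 0) (nat_lit 1) (nat_lit 8) (C.cons (nat_lit 323) (C.node (nat_lit 0) (nat_lit 1) (nat_lit 9) (C.cons (nat_lit 547) (C.node (nat_lit 0) (nat_lit 1) (nat_lit 10) C.nil) C.nil)) (C.cons (nat_lit 291) (C.node (nat_lit 0) (nat_lit 1) (nat_lit 9) (C.cons (nat_lit 579) (C.node (nat_lit 0) (nat_lit 1) (nat_lit 10) C.nil) C.nil)) C.nil))) C.nil)) (C.cons (nat_lit 161) (C.node (nat_lit 0) (nat_lit 2) (nat_lit 7) (C.cons (nat_lit 197) (C.node (nat_lit 0) (nat_lit 1) (nat_lit 8) (C.cons (nat_lit 291) (C.node (nat_lit 0) (nat_lit 1) (nat_lit 9) (C.cons (nat_lit 579) (C.node (nat_lit 0) (nat_lit 1) (nat_lit 10) C.nil) C.nil)) (C.cons (nat_lit 323) (C.node (nat_lit 0) (nat_lit 1) (nat_lit 9) (C.cons (nat_lit 547) (C.node (nat_lit 0) (nat_lit 1) (nat_lit 10) C.nil) C.nil)) C.nil))) C.nil)) C.nil))) C.nil)))) C.nil)) (C.cons (nat_lit 19) (C.node (nat_lit 0) (nat_lit 2) (nat_lit 4) (C.cons (nat_lit 1045) (C.ref (nat_lit 42) (nat_lit 204004341854736)) (C.cons (nat_lit 21) (C.node (nat_lit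 0) (nat_lit 4) (nat_lit 10) (C.cons (nat_lit 1041) (C.node (nat_lit 0) (nat_lit 5) (nat_lit 7) (C.cons (nat_lit 165) (C.node (nat_lit 0) (nat_lit 1) (nat_lit 7) (C.cons (nat_lit 195) (C.node (nat_lit 0) (nat_lit 1) (nat_lit 8) (C.cons (nat_lit 291) (C.node (nat_lit 0) (nat_lit 1) (nat_lit 9) (C.cons (nat_lit 519) (C.node (nat_lit 0) (nat_lit 1) (nat_lit 10) C.nil) C.nil)) (C.cons (nat_lit 263) (C.node (nat_lit 0) (nat_lit 1) (nat_lit 9) (C.cons (nat_lit 547) (C.node (nat_lit 0) (nat_lit 1) (nat_lit 10) C.nil) C.nil)) C.nil))) C.nil)) (C.cons (nat_lit 163) (C.node (nat_lit 0) (nat_lit 2) (nat_lit 7) (C.cons (nat_lit 197) (C.node (nat_lit 0) (nat_lit 1) (nat_lit 8) (C.cons (nat_lit 323) (C.node (nat_lit 0) (nat_lit 1) (nat_lit 9) (C.cons (nat_lit 519) (C.node (nat_lit 0) (nat_lit 1) (nat_lit 10) C.nil) C.nil)) (C.cons (nat_lit 263) (C.node (nat_lit 0) (nat_lit 1) (nat_lit 9) (C.cons (nat_lit 579)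
  (C.node (nat_lit 0) (nat_lit 1) (nat_lit 10) C.nil) C.nil)) C.nil))) C.nil)) C.nil))) C.nil)) C.nil))) C.nil)))) C.nil)))) C.nil)))) (List.cons (C.node (nat_lit 0) (nat_lit 1) (nat_lit 4) (C.cons (nat_lit 1043) (C.ref (nat_lit 35) (nat_lit 204129164341776)) (C.cons (nat_lit 19) (C.node (nat_lit 0) (nat_lit 4) (nat_lit 10) (C.cons (nat_lit 1041) (C.ref (nat_lit 39) (nat_lit 205159956492816)) C.nil)) C.nil))) (List.cons (C.node (nat_lit 0) (nat_lit 3) (nat_lit 4) (C.cons (nat_lit 1049) (C.ref (nat_lit 36) (nat_lit 203992262259216)) (C.cons (nat_lit 25) (C.node (nat_lit 0) (nat_lit 4) (nat_lit 10) (C.cons (nat_lit 1041) (C.ref (nat_lit 41) (nat_lit 205159940756016)) C.nil)) C.nil))) (List.cons (C.node (nat_lit 0) (nat_lit 4) (nat_lit 8) (C.cons (nat_lit 281) (C.node (nat_lit 0) (nat_lit 4) (nat_lit 9) (C.cons (nat_lit 531) (C.node (nat_lit 0) (nat_lit 4) (nat_lit 10) (C.cons (nat_lit 1041) (C.ref (nat_lit 36) (nat_lit 205159956492816)) C.nil)) (C.cons (nat_lit 529) (C.node (nat_lit 0) (nat_lit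 1) (nat_lit 4) (C.cons (nat_lit 1043) (C.ref (nat_lit 36) (nat_lit 204129164341776)) (C.cons (nat_lit 19) (C.node (nat_lit 0) (nat_lit 4) (nat_lit 10) (C.cons (nat_lit 1041) (C.ref (nat_lit 40) (nat_lit 205159956492816)) C.nil)) C.nil))) C.nil))) (C.cons (nat_lit 275) (C.node (nat_lit 0) (nat_lit 4) (nat_lit 9) (C.cons (nat_lit 537) (C.node (nat_lit 0) (nat_lit 4) (nat_lit 10) (C.cons (nat_lit 1041) (C.ref (nat_lit 36) (nat_lit 205091505451536)) C.nil)) (C.cons (nat_lit 529) (C.ref (nat_lit 51) (nat_lit 205163983024656)) C.nil))) (C.cons (nat_lit 273) (C.node (nat_lit 0) (nat_lit 1) (nat_lit 4) (C.cons (nat_lit 1043) (C.ref (nat_lit 51) (nat_lit 204004341854736)) (C.cons (nat_lit 531) (C.ref (nat_lit 51) (nat_lit 205099558515216)) (C.cons (nat_lit 19) (C.node (nat_lit 0) (nat_lit 4) (nat_lit 9) (C.cons (nat_lit 537) (C.node (nat_lit 0) (nat_lit 4) (nat_lit 10) (C.cons (nat_lit 1041) (C.ref (nat_lit 40) (nat_lit 205091505451536)) C.nil)) (C.cons (nat_lit 529) (C.node (nat_lit 0) (nat_lit 3) (nat_lit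 4) (C.cons (nat_lit 1049) (C.ref (nat_lit 40) (nat_lit 203992262259216)) C.nil)) C.nil))) C.nil)))) C.nil)))) (List.cons (C.node (nat_lit 0) (nat_lit 3) (nat_lit 7) (C.cons (nat_lit 169) (C.node (nat_lit 0) (nat_lit 4) (nat_lit 8) (C.cons (nat_lit 281) (C.node (nat_lit 0) (nat_lit 4) (nat_lit 9) (C.cons (nat_lit 531) (C.node (nat_lit 0) (nat_lit 4) (nat_lit 10) (C.cons (nat_lit 1041) (C.ref (nat_lit 35) (nat_lit 205159956492816)) C.nil)) (C.cons (nat_lit 529) (C.ref (nat_lit 50) (nat_lit 205163983024656)) C.nil))) (C.cons (nat_lit 275) (C.node (nat_lit 0) (nat_lit 4) (nat_lit 9) (C.cons (nat_lit 537) (C.node (nat_lit 0) (nat_lit 4) (nat_lit 10) (C.cons (nat_lit 1041) (C.ref (nat_lit 35) (nat_lit 205159940756016)) C.nil)) (C.cons (nat_lit 529) (C.ref (nat_lit 50) (nat_lit 205163967287856)) C.nil))) (C.cons (nat_lit 273) (C.node (nat_lit 0) (nat_lit 1) (nat_lit 4) (C.cons (nat_lit 1043) (C.ref (nat_lit 50) (nat_lit 204004326117936)) (C.cons (nat_lit 531) (C.ref (nat_lit 50) (nat_lit 205099542778416))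 (C.cons (nat_lit 19) (C.node (nat_lit 0) (nat_lit 4) (nat_lit 9) (C.cons (nat_lit 537) (C.node (nat_lit 0) (nat_lit 4) (nat_lit 10) (C.cons (nat_lit 1041) (C.ref (nat_lit 39) (nat_lit 205091505451536)) C.nil)) (C.cons (nat_lit 529) (C.node (nat_lit 0) (nat_lit 3) (nat_lit 4) (C.cons (nat_lit 1049) (C.ref (nat_lit 39) (nat_lit 203992262259216)) (C.cons (nat_lit 25) (C.node (nat_lit 0) (nat_lit 4) (nat_lit 10) (C.cons (nat_lit 1041) (C.node (nat_lit 0) (nat_lit 1) (nat_lit 8) (C.cons (nat_lit 291) (C.node (nat_lit 0) (nat_lit 1) (nat_lit 9) (C.cons (nat_lit 519) (C.node (nat_lit 0) (nat_lit 1) (nat_lit 10) C.nil) C.nil)) (C.cons (nat_lit 263) (C.node (nat_lit 0) (nat_lit 5) (nat_lit 8) C.nil) C.nil))) C.nil)) C.nil))) C.nil))) C.nil)))) C.nil)))) (C.cons (nat_lit 137) (C.node (nat_lit 0) (nat_lit 5) (nat_lit 7) (C.cons (nat_lit 161) (C.ref (nat_lit 52) (nat_lit 205163983024656)) C.nil)) C.nil))) (List.cons (C.node (nat_lit 0) (nat_lit 4) (nat_lit 8)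
  (C.cons (nat_lit 281) (C.node (nat_lit 0) (nat_lit 4) (nat_lit 9) (C.cons (nat_lit 531) (C.node (nat_lit 0) (nat_lit 4) (nat_lit 10) (C.cons (nat_lit 1041) (C.ref (nat_lit 37) (nat_lit 205159956492816)) C.nil)) (C.cons (nat_lit 529) (C.node (nat_lit 0) (nat_lit 1) (nat_lit 4) (C.cons (nat_lit 1043) (C.ref (nat_lit 37) (nat_lit 204129164341776)) C.nil)) C.nil))) (C.cons (nat_lit 275) (C.node (nat_lit 0) (nat_lit 4) (nat_lit 9) (C.cons (nat_lit 537) (C.node (nat_lit 0) (nat_lit 4) (nat_lit 10) (C.cons (nat_lit 1041) (C.ref (nat_lit 37) (nat_lit 205159956484656)) C.nil)) (C.cons (nat_lit 529) (C.node (nat_lit 0) (nat_lit 3) (nat_lit 4) (C.cons (nat_lit 1049) (C.ref (nat_lit 37) (nat_lit 204129164333616)) C.nil)) C.nil))) (C.cons (nat_lit 273) (C.node (nat_lit 0) (nat_lit 1) (nat_lit 4) (C.cons (nat_lit 1043) (C.node (nat_lit 0) (nat_lit 3) (nat_lit 4) (C.cons (nat_lit 537) (C.ref (nat_lit 37) (nat_lit 202961470100016)) C.nil)) (C.cons (nat_lit 531) (C.node (nat_lit 0) (nat_lit 3) (nat_lit 4)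 (C.cons (nat_lit 1049) (C.ref (nat_lit 37) (nat_lit 203029921141296)) C.nil)) C.nil))) C.nil)))) List.nil))))))))))))))))))

theorem ok12_37 : okL par12 (nat_lit 55) c12_37 (nat_lit 37) = true := by decide +kernel

noncomputable def c12_55 : List C :=
  (List.cons (C.node (nat_lit 0) (nat_lit 3) (nat_lit 5) (C.cons (nat_lit 1065) (C.node (nat_lit 0) (nat_lit 2) (nat_lit 5) (C.cons (nat_lit 293) (C.node (nat_lit 0) (nat_lit 1) (nat_lit 8) (C.cons (nat_lit 275) (C.node (nat_lit 0) (nat_lit 1) (nat_lit 2) (C.cons (nat_lit 1031) (C.node (nat_lit 0) (nat_lit 2) (nat_lit 4) (C.cons (nat_lit 21) (C.node (nat_lit 0) (nat_lit 4) (nat_lit 10) (C.cons (nat_lit 1041) (C.node (nat_lit 0) (nat_lit 3) (nat_lit 4) (C.cons (nat_lit 537) (C.pat (nat_lit 2) (nat_lit 43823567493) (nat_lit 22992161879044555840738160919646754342391054873)) C.nil)) C.nil)) C.nil)) (C.cons (nat_lit 7) (C.node (nat_lit 0) (nat_lit 1) (nat_lit 10) (C.cons (nat_lit 1027) (C.node (nat_lit 0) (nat_lit 2) (nat_lit 4) (C.cons (nat_lit 1045)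 (C.node (nat_lit 0) (nat_lit 3) (nat_lit 4) (C.cons (nat_lit 537) (C.pat (nat_lit 1) (nat_lit 949377602) (nat_lit 1521369046318577235256198302473981825)) C.nil)) C.nil)) C.nil)) C.nil))) (C.cons (nat_lit 259) (C.node (nat_lit 0) (nat_lit 4) (nat_lit 8) (C.cons (nat_lit 273) (C.node (nat_lit 0) (nat_lit 3) (nat_lit 4) (C.cons (nat_lit 537) (C.node (nat_lit 0) (nat_lit 2) (nat_lit 1) (C.cons (nat_lit 1031) (C.node (nat_lit 0) (nat_lit 2) (nat_lit 4) C.nil) (C.cons (nat_lit 23) (C.pat (nat_lit 1) (nat_lit 1804867363) (nat_lit 10691110444431600174789519397581426561)) C.nil))) C.nil)) C.nil)) C.nil))) (C.cons (nat_lit 37) (C.node (nat_lit 0) (nat_lit 5) (nat_lit 8) (C.cons (nat_lit 289) (C.node (nat_lit 0) (nat_lit 3) (nat_lit 4) (C.cons (nat_lit 537) (C.node (nat_lit 0) (nat_lit 2) (nat_lit 8) (C.cons (nat_lit 277) (C.node (nat_lit 0) (nat_lit 1) (nat_lit 8) C.nil) (C.cons (nat_lit 263) (C.node (nat_lit 0) (nat_lit 4) (nat_lit 8) C.nil) C.nil))) C.nil)) C.nil)) C.nil))) (C.cons (nat_lit 41) (C.node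 (nat_lit 0) (nat_lit 3) (nat_lit 9) (C.cons (nat_lit 537) (C.node (nat_lit 0) (nat_lit 3) (nat_lit 10) (C.cons (nat_lit 1033) (C.node (nat_lit 0) (nat_lit 5) (nat_lit 8) (C.cons (nat_lit 293) (C.node (nat_lit 0) (nat_lit 5) (nat_lit 10) C.nil) C.nil)) C.nil)) (C.cons (nat_lit 521) (C.node (nat_lit 0) (nat_lit 4) (nat_lit 9) C.nil) C.nil))) C.nil))) (List.cons (C.node (nat_lit 0) (nat_lit 1) (nat_lit 9) (C.cons (nat_lit 547) (C.ref (nat_lit 55) (nat_lit 205163983024656)) (C.cons (nat_lit 531) (C.ref (nat_lit 55) (nat_lit 205163982041616)) (C.cons (nat_lit 515) (C.node (nat_lit 0) (nat_lit 4) (nat_lit 9) (C.cons (nat_lit 537) (C.node (nat_lit 0) (nat_lit 5) (nat_lit 9) (C.cons (nat_lit 545) (C.node (nat_lit 0) (nat_lit 3) (nat_lit 5) (C.cons (nat_lit 1065) (C.node (nat_lit 0) (nat_lit 2) (nat_lit 5) (C.cons (nat_lit 293) (C.node (nat_lit 0) (nat_lit 1) (nat_lit 5) C.nil) (C.cons (nat_lit 39) (C.node (nat_lit 0) (nat_lit 5) (nat_lit 8) C.nil) C.nil))) C.nil)) C.nil)) (C.cons (nat_lit 529) (C.node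 (nat_lit 0) (nat_lit 3) (nat_lit 4) (C.cons (nat_lit 1049) (C.node (nat_lit 0) (nat_lit 3) (nat_lit 5) (C.cons (nat_lit 553) (C.node (nat_lit 0) (nat_lit 2) (nat_lit 4) (C.cons (nat_lit 277) (C.node (nat_lit 0) (nat_lit 1) (nat_lit 4) C.nil) (C.cons (nat_lit 23) (C.node (nat_lit 0) (nat_lit 4) (nat_lit 8) C.nil) C.nil))) C.nil)) C.nil)) C.nil))) C.nil)))) (List.cons (C.node (nat_lit 0) (nat_lit 3) (nat_lit 6) (C.cons (nat_lit 1097) (C.ref (nat_lit 56) (nat_lit 204004341854736)) (C.cons (nat_lit 73) (C.node (nat_lit 0) (nat_lit 6) (nat_lit 10) (C.cons (nat_lit 1089) (C.node (nat_lit 0) (nat_lit 1) (nat_lit 8) (C.cons (nat_lit 291) (C.node (nat_lit 0) (nat_lit 3) (nat_lit 8) (C.cons (nat_lit 281) (C.node (nat_lit 0) (nat_lit 3) (nat_lit 9) (C.cons (nat_lit 553) (C.node (nat_lit 0) (nat_lit 3) (nat_lit 10) C.nil) C.nil)) C.nil)) (C.cons (nat_lit 275) (C.node (nat_lit 0) (nat_lit 3) (nat_lit 8) (C.cons (nat_lit 297) (C.node (nat_lit 0) (nat_lit 3) (nat_lit 9) (C.cons (nat_lit 537) (C.node (nat_lit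 0) (nat_lit 3) (nat_lit 10) C.nil) C.nil)) C.nil)) C.nil))) C.nil)) C.nil))) (List.cons (C.node (nat_lit 0) (nat_lit 6) (nat_lit 8) (C.cons (nat_lit 329) (C.node (nat_lit 0) (nat_lit 6) (nat_lit 9)
  (C.cons (nat_lit 581) (C.node (nat_lit 0) (nat_lit 6) (nat_lit 10) (C.cons (nat_lit 1089) (C.ref (nat_lit 56) (nat_lit 205163983024656)) C.nil)) (C.cons (nat_lit 577) (C.node (nat_lit 0) (nat_lit 2) (nat_lit 6) (C.cons (nat_lit 1093) (C.ref (nat_lit 56) (nat_lit 204133190873616)) (C.cons (nat_lit 69) (C.node (nat_lit 0) (nat_lit 6) (nat_lit 10) (C.cons (nat_lit 1089) (C.ref (nat_lit 46) (nat_lit 205163965321776)) C.nil)) C.nil))) C.nil))) (C.cons (nat_lit 325) (C.node (nat_lit 0) (nat_lit 6) (nat_lit 9) (C.cons (nat_lit 585) (C.node (nat_lit 0) (nat_lit 6) (nat_lit 10) (C.cons (nat_lit 1089) (C.ref (nat_lit 56) (nat_lit 205099558515216)) C.nil)) (C.cons (nat_lit 577) (C.ref (nat_lit 57) (nat_lit 205163983024656)) C.nil))) (C.cons (nat_lit 321) (C.node (nat_lit 0) (nat_lit 2) (nat_lit 6) (C.cons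 (nat_lit 1093) (C.ref (nat_lit 57) (nat_lit 204004341854736)) (C.cons (nat_lit 581) (C.ref (nat_lit 57) (nat_lit 205099558515216)) (C.cons (nat_lit 69) (C.node (nat_lit 0) (nat_lit 6) (nat_lit 9) (C.cons (nat_lit 585) (C.node (nat_lit 0) (nat_lit 6) (nat_lit 10) (C.cons (nat_lit 1089) (C.ref (nat_lit 46) (nat_lit 205099540812336)) C.nil)) (C.cons (nat_lit 577) (C.node (nat_lit 0) (nat_lit 3) (nat_lit 6) (C.cons (nat_lit 1097) (C.ref (nat_lit 46) (nat_lit 204004324151856)) C.nil)) C.nil))) C.nil)))) C.nil)))) (List.cons (C.node (nat_lit 0) (nat_lit 1) (nat_lit 2) (C.cons (nat_lit 1031) (C.node (nat_lit 0) (nat_lit 6) (nat_lit 10) (C.cons (nat_lit 1089) (C.node (nat_lit 0) (nat_lit 2) (nat_lit 6) (C.cons (nat_lit 581) (C.node (nat_lit 0) (nat_lit 2) (nat_lit 3) (C.cons (nat_lit 29) (C.pat (nat_lit 2) (nat_lit 14917141605) (nat_lit 646919315825093090164024349131974951948062593)) (C.cons (nat_lit 13) (C.node (nat_lit 0) (nat_lit 2) (nat_lit 4) C.nil) C.nil))) (C.cons (nat_lit 69) (C.node (nat_lit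 0) (nat_lit 6) (nat_lit 9) C.nil) C.nil))) C.nil)) (C.cons (nat_lit 7) (C.node (nat_lit 0) (nat_lit 1) (nat_lit 10) (C.cons (nat_lit 1027) (C.node (nat_lit 0) (nat_lit 6) (nat_lit 9) (C.cons (nat_lit 581) (C.node (nat_lit 0) (nat_lit 6) (nat_lit 10) C.nil) C.nil)) C.nil)) C.nil))) (List.cons (C.node (nat_lit 0) (nat_lit 5) (nat_lit 9) (C.cons (nat_lit 547) (C.node (nat_lit 0) (nat_lit 5) (nat_lit 10) (C.cons (nat_lit 1057) (C.node (nat_lit 0) (nat_lit 1) (nat_lit 2) (C.cons (nat_lit 1031) (C.node (nat_lit 0) (nat_lit 6) (nat_lit 10) (C.cons (nat_lit 1097) (C.node (nat_lit 0) (nat_lit 4) (nat_lit 10) C.nil) C.nil)) C.nil)) C.nil)) (C.cons (nat_lit 545) (C.node (nat_lit 0) (nat_lit 1) (nat_lit 5) (C.cons (nat_lit 1059) (C.node (nat_lit 0) (nat_lit 1) (nat_lit 2) (C.cons (nat_lit 519) (C.node (nat_lit 0) (nat_lit 6) (nat_lit 9) (C.cons (nat_lit 585) (C.node (nat_lit 0) (nat_lit 4) (nat_lit 9) C.nil) C.nil)) C.nil)) C.nil)) C.nil))) (List.cons (C.node (nat_lit 0) (nat_lit 1) (nat_lit 9) (C.cons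 (nat_lit 531) (C.node (nat_lit 0) (nat_lit 1) (nat_lit 2) (C.cons (nat_lit 1031) (C.node (nat_lit 0) (nat_lit 3) (nat_lit 9) (C.cons (nat_lit 585) (C.node (nat_lit 0) (nat_lit 6) (nat_lit 10) (C.cons (nat_lit 1089) (C.node (nat_lit 0) (nat_lit 2) (nat_lit 6) (C.cons (nat_lit 325) (C.node (nat_lit 0) (nat_lit 2) (nat_lit 3) (C.cons (nat_lit 29) (C.pat (nat_lit 2) (nat_lit 14900368485) (nat_lit 646832203539181612636466386652184940735696769)) (C.cons (nat_lit 13) (C.node (nat_lit 0) (nat_lit 2) (nat_lit 4) C.nil) C.nil))) (C.cons (nat_lit 69) (C.node (nat_lit 0) (nat_lit 6) (nat_lit 8) C.nil) C.nil))) C.nil)) (C.cons (nat_lit 521) (C.node (nat_lit 0) (nat_lit 6) (nat_lit 9) (C.cons (nat_lit 577) (C.node (nat_lit 0) (nat_lit 6) (nat_lit 10) (C.cons (nat_lit 1097) (C.node (nat_lit 0) (nat_lit 4) (nat_lit 10) C.nil) C.nil)) C.nil)) C.nil))) (C.cons (nat_lit 7) (C.node (nat_lit 0) (nat_lit 1) (nat_lit 10) (C.cons (nat_lit 1027) (C.node (nat_lit 0) (nat_lit 3) (nat_lit 9) (C.cons (nat_lit 585) (C.node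 (nat_lit 0) (nat_lit 6) (nat_lit 8) (C.cons (nat_lit 325) (C.node (nat_lit 0) (nat_lit 6) (nat_lit 10) C.nil) C.nil)) C.nil)) C.nil)) C.nil))) (C.cons (nat_lit 515)
  (C.node (nat_lit 0) (nat_lit 4) (nat_lit 9) (C.cons (nat_lit 537) (C.node (nat_lit 0) (nat_lit 6) (nat_lit 9) (C.cons (nat_lit 577) (C.node (nat_lit 0) (nat_lit 4) (nat_lit 8) (C.cons (nat_lit 277) (C.node (nat_lit 0) (nat_lit 1) (nat_lit 2) (C.cons (nat_lit 1031) (C.node (nat_lit 0) (nat_lit 1) (nat_lit 4) C.nil) C.nil)) C.nil)) C.nil)) (C.cons (nat_lit 529) (C.node (nat_lit 0) (nat_lit 3) (nat_lit 9) (C.cons (nat_lit 585) (C.node (nat_lit 0) (nat_lit 6) (nat_lit 8) (C.cons (nat_lit 325) (C.node (nat_lit 0) (nat_lit 6) (nat_lit 10) C.nil) C.nil)) C.nil)) C.nil))) C.nil))) (List.cons (C.node (nat_lit 0) (nat_lit 1) (nat_lit 5) (C.cons (nat_lit 547) (C.node (nat_lit 0) (nat_lit 2) (nat_lit 4) (C.cons (nat_lit 533) (C.node (nat_lit 0) (nat_lit 2) (nat_lit 5) (C.cons (nat_lit 1061) (C.node (nat_lit 0) (nat_lit 2) (nat_lit 3) (C.cons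 (nat_lit 77) (C.pat (nat_lit 5) (nat_lit 559577258801) (nat_lit 88512393044622015651674205544084365571961454669)) (C.cons (nat_lit 13) (C.node (nat_lit 0) (nat_lit 2) (nat_lit 6) C.nil) C.nil))) (C.cons (nat_lit 37) (C.node (nat_lit 0) (nat_lit 5) (nat_lit 10) C.nil) C.nil))) (C.cons (nat_lit 21) (C.node (nat_lit 0) (nat_lit 4) (nat_lit 9) C.nil) C.nil))) (C.cons (nat_lit 35) (C.node (nat_lit 0) (nat_lit 1) (nat_lit 9) C.nil) C.nil))) (List.cons (C.node (nat_lit 0) (nat_lit 1) (nat_lit 9) (C.cons (nat_lit 547) (C.node (nat_lit 0) (nat_lit 3) (nat_lit 9) (C.cons (nat_lit 537) (C.node (nat_lit 0) (nat_lit 5) (nat_lit 8) (C.cons (nat_lit 293) (C.node (nat_lit 0) (nat_lit 1) (nat_lit 8) (C.cons (nat_lit 275) (C.node (nat_lit 0) (nat_lit 1) (nat_lit 2) (C.cons (nat_lit 1031) (C.node (nat_lit 0) (nat_lit 2) (nat_lit 3) C.nil) C.nil)) C.nil)) C.nil)) C.nil)) (C.cons (nat_lit 531) (C.node (nat_lit 0) (nat_lit 3) (nat_lit 9) (C.cons (nat_lit 553) (C.node (nat_lit 0) (nat_lit 4) (nat_lit 8) (C.cons (nat_lit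 277) (C.node (nat_lit 0) (nat_lit 1) (nat_lit 8) (C.cons (nat_lit 291) (C.node (nat_lit 0) (nat_lit 1) (nat_lit 2) (C.cons (nat_lit 1031) (C.node (nat_lit 0) (nat_lit 2) (nat_lit 3) C.nil) C.nil)) C.nil)) C.nil)) C.nil)) C.nil))) (List.cons (C.node (nat_lit 0) (nat_lit 6) (nat_lit 8) (C.cons (nat_lit 329) (C.node (nat_lit 0) (nat_lit 6) (nat_lit 9) (C.cons (nat_lit 581) (C.node (nat_lit 0) (nat_lit 6) (nat_lit 10) (C.cons (nat_lit 1089) (C.ref (nat_lit 63) (nat_lit 205163983024656)) C.nil)) (C.cons (nat_lit 577) (C.node (nat_lit 0) (nat_lit 2) (nat_lit 6) (C.cons (nat_lit 1093) (C.ref (nat_lit 63) (nat_lit 204133190873616)) C.nil)) C.nil))) (C.cons (nat_lit 325) (C.node (nat_lit 0) (nat_lit 6) (nat_lit 9) (C.cons (nat_lit 585) (C.node (nat_lit 0) (nat_lit 6) (nat_lit 10) (C.cons (nat_lit 1089) (C.ref (nat_lit 63) (nat_lit 205099558515216)) C.nil)) (C.cons (nat_lit 577) (C.node (nat_lit 0) (nat_lit 3) (nat_lit 6) (C.cons (nat_lit 1097) (C.ref (nat_lit 63) (nat_lit 204004341854736)) C.nil)) C.nil)))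 (C.cons (nat_lit 321) (C.node (nat_lit 0) (nat_lit 6) (nat_lit 9) (C.cons (nat_lit 585) (C.node (nat_lit 0) (nat_lit 2) (nat_lit 6) (C.cons (nat_lit 1093) (C.ref (nat_lit 63) (nat_lit 203037974213136)) C.nil)) (C.cons (nat_lit 581) (C.node (nat_lit 0) (nat_lit 3) (nat_lit 6) (C.cons (nat_lit 1097) (C.ref (nat_lit 63) (nat_lit 202973549703696)) C.nil)) C.nil))) C.nil)))) (List.cons (C.node (nat_lit 0) (nat_lit 2) (nat_lit 7) (C.cons (nat_lit 165) (C.node (nat_lit 0) (nat_lit 3) (nat_lit 7) (C.cons (nat_lit 137) (C.ref (nat_lit 52) (nat_lit 205163982041616)) C.nil)) (C.cons (nat_lit 141) (C.node (nat_lit 0) (nat_lit 5) (nat_lit 7) (C.cons (nat_lit 161) (C.ref (nat_lit 58) (nat_lit 205163983024656)) C.nil)) (C.cons (nat_lit 133) (C.node (nat_lit 0) (nat_lit 3) (nat_lit 7) (C.cons (nat_lit 169) (C.node (nat_lit 0) (nat_lit 5) (nat_lit 8) (C.cons (nat_lit 293) (C.node (nat_lit 0) (nat_lit 1) (nat_lit 8) (C.cons (nat_lit 275) (C.node (nat_lit 0) (nat_lit 3) (nat_lit 8) (C.cons (nat_lit 329) (C.node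 (nat_lit 0) (nat_lit 5) (nat_lit 9) (C.cons (nat_lit 547) (C.node (nat_lit 0) (nat_lit 5) (nat_lit 10)
  (C.cons (nat_lit 1057) (C.ref (nat_lit 59) (nat_lit 205163983024656)) C.nil)) (C.cons (nat_lit 545) (C.node (nat_lit 0) (nat_lit 1) (nat_lit 5) (C.cons (nat_lit 1059) (C.ref (nat_lit 59) (nat_lit 204133190873616)) (C.cons (nat_lit 35) (C.node (nat_lit 0) (nat_lit 5) (nat_lit 10) (C.cons (nat_lit 1057) (C.node (nat_lit 0) (nat_lit 1) (nat_lit 9) (C.cons (nat_lit 519) (C.node (nat_lit 0) (nat_lit 1) (nat_lit 10) C.nil) C.nil)) C.nil)) C.nil))) C.nil))) (C.cons (nat_lit 265) (C.node (nat_lit 0) (nat_lit 6) (nat_lit 8) (C.cons (nat_lit 321) (C.ref (nat_lit 60) (nat_lit 205163983024656)) C.nil)) C.nil))) (C.cons (nat_lit 259) (C.node (nat_lit 0) (nat_lit 4) (nat_lit 8) (C.cons (nat_lit 281) (C.node (nat_lit 0) (nat_lit 6) (nat_lit 8) (C.cons (nat_lit 321) (C.node (nat_lit 0) (nat_lit 5) (nat_lit 9) (C.cons (nat_lit 547) (C.node (nat_lit 0) (nat_lit 5) (nat_lit 10) (C.cons (nat_lit 1057) (C.node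 (nat_lit 0) (nat_lit 4) (nat_lit 9) (C.cons (nat_lit 533) (C.node (nat_lit 0) (nat_lit 1) (nat_lit 2) (C.cons (nat_lit 1031) (C.node (nat_lit 0) (nat_lit 1) (nat_lit 4) C.nil) C.nil)) C.nil)) C.nil)) (C.cons (nat_lit 545) (C.node (nat_lit 0) (nat_lit 1) (nat_lit 5) (C.cons (nat_lit 1059) (C.node (nat_lit 0) (nat_lit 4) (nat_lit 10) (C.cons (nat_lit 1045) (C.node (nat_lit 0) (nat_lit 1) (nat_lit 2) (C.cons (nat_lit 519) (C.node (nat_lit 0) (nat_lit 1) (nat_lit 4) C.nil) C.nil)) C.nil)) C.nil)) C.nil))) C.nil)) (C.cons (nat_lit 273) (C.node (nat_lit 0) (nat_lit 3) (nat_lit 8) (C.cons (nat_lit 329) (C.node (nat_lit 0) (nat_lit 5) (nat_lit 9) (C.cons (nat_lit 547) (C.node (nat_lit 0) (nat_lit 5) (nat_lit 10) (C.cons (nat_lit 1057) (C.node (nat_lit 0) (nat_lit 6) (nat_lit 9) (C.cons (nat_lit 581) (C.node (nat_lit 0) (nat_lit 6) (nat_lit 10) C.nil) C.nil)) C.nil)) (C.cons (nat_lit 545) (C.node (nat_lit 0) (nat_lit 1) (nat_lit 5) (C.cons (nat_lit 1059) (C.node (nat_lit 0) (nat_lit 6) (nat_lit 10) (C.cons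 (nat_lit 1093) (C.node (nat_lit 0) (nat_lit 6) (nat_lit 9) C.nil) C.nil)) C.nil)) C.nil))) (C.cons (nat_lit 265) (C.node (nat_lit 0) (nat_lit 6) (nat_lit 8) C.nil) C.nil))) C.nil))) C.nil))) (C.cons (nat_lit 291) (C.node (nat_lit 0) (nat_lit 5) (nat_lit 9) (C.cons (nat_lit 549) (C.node (nat_lit 0) (nat_lit 5) (nat_lit 10) (C.cons (nat_lit 1057) (C.ref (nat_lit 61) (nat_lit 205163983024656)) C.nil)) (C.cons (nat_lit 545) (C.node (nat_lit 0) (nat_lit 2) (nat_lit 5) (C.cons (nat_lit 1061) (C.ref (nat_lit 61) (nat_lit 204133190873616)) (C.cons (nat_lit 37) (C.node (nat_lit 0) (nat_lit 5) (nat_lit 10) (C.cons (nat_lit 1057) (C.ref (nat_lit 45) (nat_lit 205163950584336)) C.nil)) C.nil))) C.nil))) (C.cons (nat_lit 289) (C.node (nat_lit 0) (nat_lit 1) (nat_lit 8) (C.cons (nat_lit 275) (C.node (nat_lit 0) (nat_lit 1) (nat_lit 9) (C.cons (nat_lit 547) (C.node (nat_lit 0) (nat_lit 1) (nat_lit 2) (C.cons (nat_lit 1031) (C.node (nat_lit 0) (nat_lit 2) (nat_lit 5) (C.cons (nat_lit 37) (C.node (nat_lit 0)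 (nat_lit 5) (nat_lit 10) (C.cons (nat_lit 1057) (C.node (nat_lit 0) (nat_lit 6) (nat_lit 10) (C.cons (nat_lit 1097) (C.node (nat_lit 0) (nat_lit 4) (nat_lit 10) C.nil) C.nil)) C.nil)) C.nil)) (C.cons (nat_lit 7) (C.node (nat_lit 0) (nat_lit 1) (nat_lit 10) (C.cons (nat_lit 1027) (C.node (nat_lit 0) (nat_lit 2) (nat_lit 5) (C.cons (nat_lit 1061) (C.node (nat_lit 0) (nat_lit 4) (nat_lit 10) (C.cons (nat_lit 1049) (C.node (nat_lit 0) (nat_lit 6) (nat_lit 10) C.nil) C.nil)) C.nil)) C.nil)) C.nil))) (C.cons (nat_lit 519) (C.node (nat_lit 0) (nat_lit 5) (nat_lit 9) (C.cons (nat_lit 545) (C.node (nat_lit 0) (nat_lit 1) (nat_lit 5) (C.cons (nat_lit 1059) (C.node (nat_lit 0) (nat_lit 2) (nat_lit 5) (C.cons (nat_lit 37) (C.node (nat_lit 0) (nat_lit 6) (nat_lit 9) (C.cons (nat_lit 585) (C.node (nat_lit 0) (nat_lit 4) (nat_lit 9) C.nil) C.nil)) C.nil)) (C.cons (nat_lit 35) (C.node (nat_lit 0) (nat_lit 1) (nat_lit 10) C.nil) C.nil))) C.nil)) (C.cons (nat_lit 515) (C.node (nat_lit 0) (nat_lit 5) (nat_lit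 9) (C.cons (nat_lit 549) (C.node (nat_lit 0) (nat_lit 1) (nat_lit 2)
  (C.cons (nat_lit 1031) (C.node (nat_lit 0) (nat_lit 1) (nat_lit 5) (C.cons (nat_lit 35) (C.node (nat_lit 0) (nat_lit 5) (nat_lit 10) C.nil) C.nil)) (C.cons (nat_lit 7) (C.node (nat_lit 0) (nat_lit 1) (nat_lit 5) (C.cons (nat_lit 1059) (C.node (nat_lit 0) (nat_lit 4) (nat_lit 9) (C.cons (nat_lit 537) (C.node (nat_lit 0) (nat_lit 6) (nat_lit 9) C.nil) C.nil)) C.nil)) C.nil))) (C.cons (nat_lit 545) (C.node (nat_lit 0) (nat_lit 1) (nat_lit 2) (C.cons (nat_lit 1031) (C.node (nat_lit 0) (nat_lit 1) (nat_lit 5) C.nil) (C.cons (nat_lit 39) (C.node (nat_lit 0) (nat_lit 1) (nat_lit 10) C.nil) C.nil))) C.nil))) C.nil)))) (C.cons (nat_lit 263) (C.node (nat_lit 0) (nat_lit 4) (nat_lit 8) (C.cons (nat_lit 281) (C.node (nat_lit 0) (nat_lit 6) (nat_lit 8) (C.cons (nat_lit 321) (C.node (nat_lit 0) (nat_lit 1) (nat_lit 4) (C.cons (nat_lit 1043) (C.ref (nat_lit 62) (nat_lit 205163983024656)) (C.cons (nat_lit 531) (C.ref (nat_lit 62) (nat_lit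 204133190873616)) (C.cons (nat_lit 19) (C.node (nat_lit 0) (nat_lit 1) (nat_lit 9) (C.cons (nat_lit 547) (C.node (nat_lit 0) (nat_lit 1) (nat_lit 10) C.nil) C.nil)) C.nil)))) C.nil)) (C.cons (nat_lit 273) (C.node (nat_lit 0) (nat_lit 3) (nat_lit 8) (C.cons (nat_lit 329) (C.node (nat_lit 0) (nat_lit 6) (nat_lit 9) (C.cons (nat_lit 581) (C.node (nat_lit 0) (nat_lit 6) (nat_lit 10) (C.cons (nat_lit 1089) (C.node (nat_lit 0) (nat_lit 2) (nat_lit 5) (C.cons (nat_lit 1061) (C.node (nat_lit 0) (nat_lit 1) (nat_lit 5) (C.cons (nat_lit 547) (C.node (nat_lit 0) (nat_lit 1) (nat_lit 4) (C.cons (nat_lit 1043) (C.node (nat_lit 0) (nat_lit 3) (nat_lit 10) C.nil) C.nil)) C.nil)) C.nil)) C.nil)) (C.cons (nat_lit 577) (C.node (nat_lit 0) (nat_lit 2) (nat_lit 6) (C.cons (nat_lit 1093) (C.node (nat_lit 0) (nat_lit 2) (nat_lit 5) (C.cons (nat_lit 549) (C.node (nat_lit 0) (nat_lit 1) (nat_lit 5) (C.cons (nat_lit 1059) (C.node (nat_lit 0) (nat_lit 1) (nat_lit 4) (C.cons (nat_lit 531) (C.node (nat_lit 0) (nat_lit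 3) (nat_lit 9) C.nil) C.nil)) C.nil)) C.nil)) C.nil)) C.nil))) (C.cons (nat_lit 265) (C.node (nat_lit 0) (nat_lit 6) (nat_lit 8) C.nil) C.nil))) C.nil))) (C.cons (nat_lit 259) (C.node (nat_lit 0) (nat_lit 4) (nat_lit 8) (C.cons (nat_lit 281) (C.node (nat_lit 0) (nat_lit 2) (nat_lit 8) (C.cons (nat_lit 325) (C.ref (nat_lit 60) (nat_lit 205163967287856)) (C.cons (nat_lit 261) (C.node (nat_lit 0) (nat_lit 6) (nat_lit 8) C.nil) C.nil))) (C.cons (nat_lit 277) (C.node (nat_lit 0) (nat_lit 3) (nat_lit 8) (C.cons (nat_lit 329) (C.node (nat_lit 0) (nat_lit 6) (nat_lit 9) (C.cons (nat_lit 581) (C.node (nat_lit 0) (nat_lit 6) (nat_lit 10) (C.cons (nat_lit 1089) (C.node (nat_lit 0) (nat_lit 2) (nat_lit 3) (C.cons (nat_lit 1037) (C.node (nat_lit 0) (nat_lit 1) (nat_lit 2) (C.cons (nat_lit 39) (C.node (nat_lit 0) (nat_lit 5) (nat_lit 9) C.nil) C.nil)) C.nil)) C.nil)) (C.cons (nat_lit 577) (C.node (nat_lit 0) (nat_lit 2) (nat_lit 6) (C.cons (nat_lit 1093) (C.node (nat_lit 0) (nat_lit 2) (nat_lit 3) (C.cons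 (nat_lit 525) (C.node (nat_lit 0) (nat_lit 1) (nat_lit 2) (C.cons (nat_lit 39) (C.node (nat_lit 0) (nat_lit 5) (nat_lit 10) C.nil) C.nil)) C.nil)) C.nil)) C.nil))) (C.cons (nat_lit 265) (C.node (nat_lit 0) (nat_lit 6) (nat_lit 8) C.nil) C.nil))) (C.cons (nat_lit 273) (C.node (nat_lit 0) (nat_lit 2) (nat_lit 8) (C.cons (nat_lit 325) (C.node (nat_lit 0) (nat_lit 3) (nat_lit 8) C.nil) (C.cons (nat_lit 269) (C.node (nat_lit 0) (nat_lit 6) (nat_lit 8) C.nil) C.nil))) C.nil)))) C.nil)))) C.nil)))) (C.cons (nat_lit 137) (C.node (nat_lit 0) (nat_lit 5) (nat_lit 7) (C.cons (nat_lit 161) (C.ref (nat_lit 64) (nat_lit 205163983024656)) C.nil)) C.nil))) C.nil)))) (List.cons (C.node (nat_lit 0) (nat_lit 1) (nat_lit 6) (C.cons (nat_lit 323) (C.node (nat_lit 0) (nat_lit 4) (nat_lit 8) (C.cons (nat_lit 281) (C.node (nat_lit 0) (nat_lit 2) (nat_lit 4) (C.cons (nat_lit 533) (C.node (nat_lit 0) (nat_lit 2) (nat_lit 8) (C.cons (nat_lit 293) (C.node (nat_lit 0) (nat_lit 3) (nat_lit 5) (C.cons (nat_lit 1065) (C.node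 (nat_lit 0) (nat_lit 2) (nat_lit 3)
  (C.cons (nat_lit 77) (C.pat (nat_lit 2) (nat_lit 11176871508) (nat_lit 1717519783847838377222499065351631187924291457)) (C.cons (nat_lit 13) (C.node (nat_lit 0) (nat_lit 2) (nat_lit 6) (C.cons (nat_lit 1093) (C.pat (nat_lit 1) (nat_lit 680880705) (nat_lit 1677135099819668589236770588199030657)) C.nil)) C.nil))) (C.cons (nat_lit 41) (C.node (nat_lit 0) (nat_lit 5) (nat_lit 10) C.nil) C.nil))) (C.cons (nat_lit 261) (C.node (nat_lit 0) (nat_lit 5) (nat_lit 8) C.nil) C.nil))) (C.cons (nat_lit 21) (C.node (nat_lit 0) (nat_lit 4) (nat_lit 9) C.nil) C.nil))) (C.cons (nat_lit 277) (C.node (nat_lit 0) (nat_lit 3) (nat_lit 4) (C.cons (nat_lit 537) (C.node (nat_lit 0) (nat_lit 2) (nat_lit 9) (C.cons (nat_lit 581) (C.node (nat_lit 0) (nat_lit 3) (nat_lit 6) (C.cons (nat_lit 1097) (C.node (nat_lit 0) (nat_lit 2) (nat_lit 3) (C.cons (nat_lit 45) (C.pat (nat_lit 2) (nat_lit 10908439908) (nat_lit 1003906825367548228393984289179912364228677505)) (C.cons (nat_lit 13) (C.node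 (nat_lit 0) (nat_lit 2) (nat_lit 5) (C.cons (nat_lit 1061) (C.pat (nat_lit 1) (nat_lit 696670785) (nat_lit 2840232413571474112195283818724265857)) C.nil)) C.nil))) (C.cons (nat_lit 73) (C.node (nat_lit 0) (nat_lit 6) (nat_lit 10) C.nil) C.nil))) (C.cons (nat_lit 517) (C.node (nat_lit 0) (nat_lit 6) (nat_lit 9) C.nil) C.nil))) (C.cons (nat_lit 25) (C.node (nat_lit 0) (nat_lit 4) (nat_lit 9) C.nil) C.nil))) (C.cons (nat_lit 273) (C.node (nat_lit 0) (nat_lit 2) (nat_lit 4) (C.cons (nat_lit 533) (C.node (nat_lit 0) (nat_lit 3) (nat_lit 4) C.nil) (C.cons (nat_lit 29) (C.node (nat_lit 0) (nat_lit 4) (nat_lit 9) C.nil) C.nil))) C.nil)))) (C.cons (nat_lit 67) (C.node (nat_lit 0) (nat_lit 1) (nat_lit 8) C.nil) C.nil))) (List.cons (C.node (nat_lit 0) (nat_lit 1) (nat_lit 5) (C.cons (nat_lit 547) (C.ref (nat_lit 66) (nat_lit 205163983024656)) (C.cons (nat_lit 291) (C.ref (nat_lit 66) (nat_lit 205099558515216)) (C.cons (nat_lit 35) (C.node (nat_lit 0) (nat_lit 1) (nat_lit 8) (C.cons (nat_lit 323) (C.node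 (nat_lit 0) (nat_lit 1) (nat_lit 9) C.nil) C.nil)) C.nil)))) (List.cons (C.node (nat_lit 0) (nat_lit 6) (nat_lit 7) (C.cons (nat_lit 193) (C.node (nat_lit 0) (nat_lit 1) (nat_lit 4) (C.cons (nat_lit 1043) (C.ref (nat_lit 67) (nat_lit 205163983024656)) (C.cons (nat_lit 531) (C.ref (nat_lit 67) (nat_lit 204133190873616)) (C.cons (nat_lit 275) (C.ref (nat_lit 67) (nat_lit 203037974213136)) (C.cons (nat_lit 19) (C.node (nat_lit 0) (nat_lit 1) (nat_lit 8) (C.cons (nat_lit 323) (C.node (nat_lit 0) (nat_lit 1) (nat_lit 9) (C.cons (nat_lit 547) (C.node (nat_lit 0) (nat_lit 1) (nat_lit 10) C.nil) C.nil)) (C.cons (nat_lit 291) (C.node (nat_lit 0) (nat_lit 1) (nat_lit 9) (C.cons (nat_lit 579) (C.node (nat_lit 0) (nat_lit 1) (nat_lit 10) C.nil) C.nil)) C.nil))) C.nil))))) C.nil)) List.nil))))))))))))))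

theorem ok12_55 : okL par12 (nat_lit 69) c12_55 (nat_lit 55) = true := by decide +kernel

noncomputable def c12_69 : List C :=
  (List.cons (C.node (nat_lit 0) (nat_lit 4) (nat_lit 7) (C.cons (nat_lit 153) (C.ref (nat_lit 49) (nat_lit 205163983024656)) (C.cons (nat_lit 149) (C.node (nat_lit 0) (nat_lit 1) (nat_lit 7) (C.cons (nat_lit 195) (C.ref (nat_lit 53) (nat_lit 205163983024656)) (C.cons (nat_lit 163) (C.ref (nat_lit 53) (nat_lit 205163967296016)) (C.cons (nat_lit 131) (C.node (nat_lit 0) (nat_lit 5) (nat_lit 7) (C.cons (nat_lit 169) (C.node (nat_lit 0) (nat_lit 6) (nat_lit 7) (C.cons (nat_lit 193) (C.ref (nat_lit 52) (nat_lit 205163967287856)) C.nil)) (C.cons (nat_lit 161) (C.node (nat_lit 0) (nat_lit 3) (nat_lit 7) (C.cons (nat_lit 201) (C.ref (nat_lit 52) (nat_lit 205163983016496)) (C.cons (nat_lit 137) (C.node (nat_lit 0) (nat_lit 6) (nat_lit 7) (C.cons (nat_lit 193) (C.ref (nat_lit 54) (nat_lit 205163983024656)) C.nil)) C.nil))) C.nil))) C.nil)))) (C.cons (nat_lit 147) (C.ref (nat_lit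 49) (nat_lit 205163983016496)) (C.cons (nat_lit 145) (C.node (nat_lit 0) (nat_lit 1) (nat_lit 7) (C.cons (nat_lit 195) (C.ref (nat_lit 65) (nat_lit 205163983024656)) (C.cons (nat_lit 163) (C.ref (nat_lit 65) (nat_lit 205163967296016)) (C.cons (nat_lit 135) (C.node (nat_lit 0) (nat_lit 5) (nat_lit 7) (C.cons (nat_lit 169) (C.node (nat_lit 0) (nat_lit 6) (nat_lit 7) (C.cons (nat_lit 193) (C.ref (nat_lit 58) (nat_lit 205163967287856)) C.nil)) (C.cons (nat_lit 161) (C.node (nat_lit 0) (nat_lit 3) (nat_lit 7) (C.cons (nat_lit 201) (C.ref (nat_lit 58) (nat_lit 205163983016496)) (C.cons (nat_lit 137) (C.ref (nat_lit 68) (nat_lit 205163983024656)) C.nil))) C.nil))) (C.cons (nat_lit 131) (C.node (nat_lit 0) (nat_lit 5) (nat_lit 7) (C.cons (nat_lit 169) (C.node (nat_lit 0) (nat_lit 2) (nat_lit 7) (C.cons (nat_lit 197) (C.ref (nat_lit 52) (nat_lit 205163965321776)) (C.cons (nat_lit 133) (C.node (nat_lit 0) (nat_lit 6) (nat_lit 7) (C.cons (nat_lit 193) (C.ref (nat_lit 64) (nat_lit 205163967287856)) C.nil))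 C.nil))) (C.cons (nat_lit 165) (C.node (nat_lit 0) (nat_lit 3) (nat_lit 7) (C.cons (nat_lit 201) (C.ref (nat_lit 52) (nat_lit 205163982033456)) (C.cons (nat_lit 137) (C.node (nat_lit 0) (nat_lit 6) (nat_lit 7) (C.cons (nat_lit 193) (C.ref (nat_lit 54) (nat_lit 205163982041616)) C.nil)) C.nil))) (C.cons (nat_lit 161) (C.node (nat_lit 0) (nat_lit 2) (nat_lit 7) (C.cons (nat_lit 197) (C.node (nat_lit 0) (nat_lit 3) (nat_lit 7) (C.cons (nat_lit 137) (C.ref (nat_lit 54) (nat_lit 205163965329936)) C.nil)) (C.cons (nat_lit 141) (C.ref (nat_lit 68) (nat_lit 205163983016496)) (C.cons (nat_lit 133) (C.node (nat_lit 0) (nat_lit 3) (nat_lit 7) (C.cons (nat_lit 201) (C.ref (nat_lit 64) (nat_lit 205163983016496)) (C.cons (nat_lit 137) (C.node (nat_lit 0) (nat_lit 6) (nat_lit 7) C.nil) C.nil))) C.nil)))) C.nil)))) C.nil))))) C.nil))))) (List.cons (C.node (nat_lit 0) (nat_lit 5) (nat_lit 9) (C.cons (nat_lit 553) (C.node (nat_lit 0) (nat_lit 2) (nat_lit 9) (C.cons (nat_lit 581) (C.node (nat_lit 0) (nat_lit 5)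 (nat_lit 8) (C.cons (nat_lit 291) (C.node (nat_lit 0) (nat_lit 5) (nat_lit 10) C.nil) C.nil)) C.nil)) C.nil)) (List.cons (C.node (nat_lit 0) (nat_lit 1) (nat_lit 7) (C.cons (nat_lit 195) (C.node (nat_lit 0) (nat_lit 5) (nat_lit 9) (C.cons (nat_lit 553) (C.node (nat_lit 0) (nat_lit 2) (nat_lit 9) (C.cons (nat_lit 581) (C.node (nat_lit 0) (nat_lit 5) (nat_lit 8) (C.cons (nat_lit 291) (C.pat (nat_lit 1) (nat_lit 663054657) (nat_lit 1012510960412914372323284483356823425)) (C.cons (nat_lit 289) (C.node (nat_lit 0) (nat_lit 1) (nat_lit 5) (C.cons (nat_lit 1059) (C.node (nat_lit 0) (nat_lit 1) (nat_lit 2) (C.cons (nat_lit 15) (C.pat (nat_lit 1) (nat_lit 1417057057) (nat_lit 2757280844176937531904002085362139289)) (C.cons (nat_lit 7) (C.node (nat_lit 0) (nat_lit 1) (nat_lit 3) (C.cons (nat_lit 267) (C.pat (nat_lit 2) (nat_lit 34998686580) (nat_lit 5954365323926269400694218899312270443625906757)) C.nil)) C.nil))) (C.cons (nat_lit 35) (C.node (nat_lit 0) (nat_lit 5) (nat_lit 10) C.nil) C.nil))) C.nil)))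 (C.cons (nat_lit 517) (C.node (nat_lit 0) (nat_lit 6) (nat_lit 9) (C.cons (nat_lit 577)
  (C.node (nat_lit 0) (nat_lit 5) (nat_lit 8) (C.cons (nat_lit 291) (C.node (nat_lit 0) (nat_lit 5) (nat_lit 10) C.nil) C.nil)) C.nil)) C.nil))) (C.cons (nat_lit 545) (C.node (nat_lit 0) (nat_lit 6) (nat_lit 8) (C.cons (nat_lit 329) (C.node (nat_lit 0) (nat_lit 1) (nat_lit 8) (C.cons (nat_lit 291) (C.node (nat_lit 0) (nat_lit 3) (nat_lit 5) (C.cons (nat_lit 1065) (C.node (nat_lit 0) (nat_lit 3) (nat_lit 1) (C.cons (nat_lit 15) (C.pat (nat_lit 1) (nat_lit 1418097171) (nat_lit 794592631812761590846600030061789461)) (C.cons (nat_lit 11) (C.node (nat_lit 0) (nat_lit 3) (nat_lit 2) (C.cons (nat_lit 525) (C.pat (nat_lit 2) (nat_lit 39027307140) (nat_lit 11708003183638566980670868054510303085541523651)) C.nil)) C.nil))) (C.cons (nat_lit 41) (C.node (nat_lit 0) (nat_lit 5) (nat_lit 10) C.nil) C.nil))) (C.cons (nat_lit 259) (C.node (nat_lit 0) (nat_lit 5) (nat_lit 8) C.nil) C.nil))) (C.cons (nat_lit 321) (C.node (nat_lit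 0) (nat_lit 1) (nat_lit 2) (C.cons (nat_lit 1031) (C.node (nat_lit 0) (nat_lit 5) (nat_lit 10) (C.cons (nat_lit 1065) (C.node (nat_lit 0) (nat_lit 6) (nat_lit 10) C.nil) C.nil)) (C.cons (nat_lit 15) (C.node (nat_lit 0) (nat_lit 1) (nat_lit 8) (C.cons (nat_lit 291) (C.node (nat_lit 0) (nat_lit 1) (nat_lit 10) C.nil) C.nil)) C.nil))) C.nil))) C.nil))) (C.cons (nat_lit 131) (C.node (nat_lit 0) (nat_lit 6) (nat_lit 7) (C.cons (nat_lit 193) (C.ref (nat_lit 70) (nat_lit 205163983024656)) C.nil)) C.nil))) (List.cons (C.node (nat_lit 0) (nat_lit 5) (nat_lit 7) (C.cons (nat_lit 165) (C.ref (nat_lit 71) (nat_lit 205163983024656)) (C.cons (nat_lit 163) (C.ref (nat_lit 71) (nat_lit 205099558514976)) (C.cons (nat_lit 161) (C.node (nat_lit 0) (nat_lit 1) (nat_lit 7) (C.cons (nat_lit 195) (C.node (nat_lit 0) (nat_lit 2) (nat_lit 7) (C.cons (nat_lit 133) (C.ref (nat_lit 70) (nat_lit 205099542786336)) C.nil)) (C.cons (nat_lit 135) (C.node (nat_lit 0) (nat_lit 6) (nat_lit 7) (C.cons (nat_lit 193) (C.node (nat_lit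 0) (nat_lit 5) (nat_lit 8) (C.cons (nat_lit 297) (C.node (nat_lit 0) (nat_lit 1) (nat_lit 5) (C.cons (nat_lit 1059) (C.node (nat_lit 0) (nat_lit 1) (nat_lit 3) (C.cons (nat_lit 75) (C.node (nat_lit 0) (nat_lit 1) (nat_lit 8) C.nil) C.nil)) C.nil)) (C.cons (nat_lit 291) (C.node (nat_lit 0) (nat_lit 3) (nat_lit 8) (C.cons (nat_lit 329) (C.node (nat_lit 0) (nat_lit 1) (nat_lit 3) (C.cons (nat_lit 1035) (C.node (nat_lit 0) (nat_lit 1) (nat_lit 6) C.nil) C.nil)) C.nil)) C.nil))) C.nil)) (C.cons (nat_lit 131) (C.node (nat_lit 0) (nat_lit 2) (nat_lit 7) (C.cons (nat_lit 197) (C.ref (nat_lit 70) (nat_lit 205163967296016)) C.nil)) C.nil)))) C.nil)))) (List.cons (C.node (nat_lit 0) (nat_lit 5) (nat_lit 7) (C.cons (nat_lit 165) (C.node (nat_lit 0) (nat_lit 1) (nat_lit 7) (C.cons (nat_lit 195) (C.node (nat_lit 0) (nat_lit 6) (nat_lit 8) (C.cons (nat_lit 329) (C.node (nat_lit 0) (nat_lit 1) (nat_lit 8) (C.cons (nat_lit 291) (C.node (nat_lit 0) (nat_lit 5) (nat_lit 9) (C.cons (nat_lit 553) (C.node (nat_lit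 0) (nat_lit 5) (nat_lit 10) C.nil) C.nil)) C.nil)) C.nil)) C.nil)) (C.cons (nat_lit 163) (C.node (nat_lit 0) (nat_lit 2) (nat_lit 7) (C.cons (nat_lit 197) (C.node (nat_lit 0) (nat_lit 5) (nat_lit 8) (C.cons (nat_lit 297) (C.node (nat_lit 0) (nat_lit 1) (nat_lit 8) (C.cons (nat_lit 323) (C.node (nat_lit 0) (nat_lit 6) (nat_lit 9) (C.cons (nat_lit 585) (C.node (nat_lit 0) (nat_lit 6) (nat_lit 10) C.nil) C.nil)) C.nil)) C.nil)) C.nil)) C.nil))) (List.cons (C.node (nat_lit 0) (nat_lit 1) (nat_lit 4) (C.cons (nat_lit 1043) (C.ref (nat_lit 72) (nat_lit 204133190873616)) (C.cons (nat_lit 19) (C.node (nat_lit 0) (nat_lit 4) (nat_lit 10) (C.cons (nat_lit 1041) (C.ref (nat_lit 73) (nat_lit 205163983024656)) C.nil)) C.nil))) (List.cons (C.node (nat_lit 0) (nat_lit 1) (nat_lit 7) (C.cons (nat_lit 195) (C.node (nat_lit 0) (nat_lit 2) (nat_lit 7) (C.cons (nat_lit 165) (C.node (nat_lit 0) (nat_lit 1) (nat_lit 8) (C.cons (nat_lit 291) (C.node (nat_lit 0) (nat_lit 1) (nat_lit 9) (C.cons (nat_lit 523)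
  (C.node (nat_lit 0) (nat_lit 1) (nat_lit 10) C.nil) C.nil)) (C.cons (nat_lit 267) (C.node (nat_lit 0) (nat_lit 5) (nat_lit 8) C.nil) C.nil))) C.nil)) (C.cons (nat_lit 163) (C.node (nat_lit 0) (nat_lit 2) (nat_lit 7) (C.cons (nat_lit 197) (C.node (nat_lit 0) (nat_lit 1) (nat_lit 8) (C.cons (nat_lit 323) (C.node (nat_lit 0) (nat_lit 1) (nat_lit 9) (C.cons (nat_lit 523) (C.node (nat_lit 0) (nat_lit 1) (nat_lit 10) C.nil) C.nil)) (C.cons (nat_lit 267) (C.node (nat_lit 0) (nat_lit 6) (nat_lit 8) C.nil) C.nil))) C.nil)) C.nil))) (List.cons (C.node (nat_lit 0) (nat_lit 1) (nat_lit 4) (C.cons (nat_lit 1043) (C.node (nat_lit 0) (nat_lit 2) (nat_lit 4) (C.cons (nat_lit 21) (C.ref (nat_lit 73) (nat_lit 204004341854496)) C.nil)) (C.cons (nat_lit 23) (C.node (nat_lit 0) (nat_lit 4) (nat_lit 10) (C.cons (nat_lit 1041) (C.ref (nat_lit 75) (nat_lit 205163983024656)) C.nil)) (C.cons (nat_lit 19) (C.node (nat_lit 0) (nat_lit 2) (nat_lit 4) (C.cons (nat_lit 1045) (C.ref (nat_lit 73) (nat_lit 204004341854736))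 C.nil)) C.nil)))) (List.cons (C.node (nat_lit 0) (nat_lit 4) (nat_lit 9) (C.cons (nat_lit 533) (C.ref (nat_lit 74) (nat_lit 205099558515216)) (C.cons (nat_lit 531) (C.ref (nat_lit 74) (nat_lit 205099558514976)) (C.cons (nat_lit 529) (C.ref (nat_lit 76) (nat_lit 205163983024656)) C.nil)))) (List.cons (C.node (nat_lit 0) (nat_lit 4) (nat_lit 8) (C.cons (nat_lit 277) (C.node (nat_lit 0) (nat_lit 4) (nat_lit 9) (C.cons (nat_lit 531) (C.node (nat_lit 0) (nat_lit 4) (nat_lit 10) (C.cons (nat_lit 1041) (C.ref (nat_lit 72) (nat_lit 205163983024656)) C.nil)) (C.cons (nat_lit 529) (C.ref (nat_lit 74) (nat_lit 205163983024656)) C.nil))) (C.cons (nat_lit 275) (C.node (nat_lit 0) (nat_lit 4) (nat_lit 9) (C.cons (nat_lit 533) (C.node (nat_lit 0) (nat_lit 4) (nat_lit 10) (C.cons (nat_lit 1041) (C.ref (nat_lit 72) (nat_lit 205163983024416)) C.nil)) (C.cons (nat_lit 529) (C.ref (nat_lit 74) (nat_lit 205163983024416)) C.nil))) (C.cons (nat_lit 273) (C.ref (nat_lit 77) (nat_lit 205163983024656)) C.nil)))) (List.cons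 (C.big (C.cons (nat_lit 2063) (C.big C.nil C.nil) (C.cons (nat_lit 1101) (C.ref (nat_lit 32) (nat_lit 205163983024656)) (C.cons (nat_lit 1099) (C.ref (nat_lit 32) (nat_lit 205163983024416)) (C.cons (nat_lit 1095) (C.ref (nat_lit 32) (nat_lit 205163983020336)) (C.cons (nat_lit 1069) (C.ref (nat_lit 32) (nat_lit 205163967296016)) (C.cons (nat_lit 1067) (C.ref (nat_lit 32) (nat_lit 205163967295776)) (C.cons (nat_lit 1063) (C.ref (nat_lit 32) (nat_lit 205163967291696)) (C.cons (nat_lit 1053) (C.ref (nat_lit 32) (nat_lit 205163950584336)) (C.cons (nat_lit 1051) (C.ref (nat_lit 32) (nat_lit 205163950584096)) (C.cons (nat_lit 1047) (C.ref (nat_lit 32) (nat_lit 205163950580016)) (C.cons (nat_lit 1039) (C.ref (nat_lit 33) (nat_lit 205163983024656)) (C.cons (nat_lit 589) (C.ref (nat_lit 32) (nat_lit 204133190873616)) (C.cons (nat_lit 587) (C.ref (nat_lit 32) (nat_lit 204133190873376)) (C.cons (nat_lit 583) (C.ref (nat_lit 32) (nat_lit 204133190869296)) (C.cons (nat_lit 557) (C.ref (nat_lit 32) (nat_lit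 204133175144976)) (C.cons (nat_lit 555) (C.ref (nat_lit 32) (nat_lit 204133175144736)) (C.cons (nat_lit 551) (C.ref (nat_lit 32) (nat_lit 204133175140656)) (C.cons (nat_lit 541) (C.ref (nat_lit 32) (nat_lit 204133158433296)) (C.cons (nat_lit 539) (C.ref (nat_lit 32) (nat_lit 204133158433056)) (C.cons (nat_lit 535) (C.ref (nat_lit 32) (nat_lit 204133158428976)) (C.cons (nat_lit 527) (C.ref (nat_lit 33) (nat_lit 204133190873616)) (C.cons (nat_lit 333) (C.ref (nat_lit 32) (nat_lit 203037974213136)) (C.cons (nat_lit 331) (C.ref (nat_lit 32) (nat_lit 203037974212896)) (C.cons (nat_lit 327) (C.ref (nat_lit 32) (nat_lit 203037974208816)) (C.cons (nat_lit 301) (C.ref (nat_lit 32) (nat_lit 203037958484496)) (C.cons (nat_lit 299) (C.ref (nat_lit 32) (nat_lit 203037958484256)) (C.cons (nat_lit 295) (C.ref (nat_lit 32) (nat_lit 203037958480176)) (C.cons (nat_lit 285) (C.ref (nat_lit 32) (nat_lit 203037941772816)) (C.cons (nat_lit 283)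
  (C.ref (nat_lit 32) (nat_lit 203037941772576)) (C.cons (nat_lit 279) (C.ref (nat_lit 32) (nat_lit 203037941768496)) (C.cons (nat_lit 271) (C.ref (nat_lit 33) (nat_lit 203037974213136)) (C.cons (nat_lit 205) (C.ref (nat_lit 32) (nat_lit 201938731020816)) (C.cons (nat_lit 203) (C.ref (nat_lit 32) (nat_lit 201938731020576)) (C.cons (nat_lit 199) (C.ref (nat_lit 32) (nat_lit 201938731016496)) (C.cons (nat_lit 173) (C.ref (nat_lit 32) (nat_lit 201938715292176)) (C.cons (nat_lit 171) (C.ref (nat_lit 32) (nat_lit 201938715291936)) (C.cons (nat_lit 167) (C.ref (nat_lit 32) (nat_lit 201938715287856)) (C.cons (nat_lit 157) (C.ref (nat_lit 32) (nat_lit 201938698580496)) (C.cons (nat_lit 155) (C.ref (nat_lit 32) (nat_lit 201938698580256)) (C.cons (nat_lit 151) (C.ref (nat_lit 32) (nat_lit 201938698576176)) (C.cons (nat_lit 143) (C.ref (nat_lit 33) (nat_lit 201938731020816)) (C.cons (nat_lit 79) (C.ref (nat_lit 34) (nat_lit 205163983024656)) (C.cons (nat_lit 47) (C.ref (nat_lit 34) (nat_lit 205163967296016))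 (C.cons (nat_lit 31) (C.ref (nat_lit 34) (nat_lit 205163950584336)) C.nil)))))))))))))))))))))))))))))))))))))))))))) (C.node (nat_lit 0) (nat_lit 1) (nat_lit 11) (C.cons (nat_lit 2059) (C.node (nat_lit 0) (nat_lit 2) (nat_lit 11) (C.cons (nat_lit 2053) (C.ref (nat_lit 69) (nat_lit 205163983024656)) C.nil)) (C.cons (nat_lit 2055) (C.node (nat_lit 0) (nat_lit 3) (nat_lit 11) (C.cons (nat_lit 2057) (C.ref (nat_lit 69) (nat_lit 205163983020816)) C.nil)) (C.cons (nat_lit 2051) (C.node (nat_lit 0) (nat_lit 2) (nat_lit 11) (C.cons (nat_lit 2061) (C.ref (nat_lit 69) (nat_lit 205163983024416)) (C.cons (nat_lit 2053) (C.node (nat_lit 0) (nat_lit 3) (nat_lit 11) (C.cons (nat_lit 2057) (C.node (nat_lit 0) (nat_lit 4) (nat_lit 7) (C.cons (nat_lit 153) (C.ref (nat_lit 78) (nat_lit 205163983024656)) (C.cons (nat_lit 149) (C.ref (nat_lit 78) (nat_lit 205163983020816)) (C.cons (nat_lit 147) (C.ref (nat_lit 78) (nat_lit 205163983016736)) (C.cons (nat_lit 145) (C.node (nat_lit 0) (nat_lit 4) (nat_lit 8) (C.cons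 (nat_lit 281) (C.ref (nat_lit 77) (nat_lit 205159956492816)) (C.cons (nat_lit 277) (C.ref (nat_lit 77) (nat_lit 205159956488976)) (C.cons (nat_lit 275) (C.ref (nat_lit 77) (nat_lit 205159956484896)) (C.cons (nat_lit 273) (C.node (nat_lit 0) (nat_lit 4) (nat_lit 9) (C.cons (nat_lit 537) (C.ref (nat_lit 76) (nat_lit 205091505451536)) (C.cons (nat_lit 533) (C.ref (nat_lit 76) (nat_lit 205091505447696)) (C.cons (nat_lit 531) (C.ref (nat_lit 76) (nat_lit 205091505443616)) (C.cons (nat_lit 529) (C.node (nat_lit 0) (nat_lit 1) (nat_lit 4) (C.cons (nat_lit 1043) (C.node (nat_lit 0) (nat_lit 2) (nat_lit 4) (C.cons (nat_lit 29) (C.ref (nat_lit 75) (nat_lit 203992262251296)) C.nil)) (C.cons (nat_lit 27) (C.node (nat_lit 0) (nat_lit 2) (nat_lit 4) (C.cons (nat_lit 1045) (C.ref (nat_lit 75) (nat_lit 203992262255376)) C.nil)) (C.cons (nat_lit 23) (C.node (nat_lit 0) (nat_lit 3) (nat_lit 4) (C.cons (nat_lit 1049) (C.ref (nat_lit 75) (nat_lit 203992262259216)) C.nil)) C.nil)))) C.nil))))) C.nil))))) C.nil)))))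 C.nil)) C.nil))) C.nil))))) (List.cons (C.node (nat_lit 0) (nat_lit 4) (nat_lit 7) (C.cons (nat_lit 147) (C.node (nat_lit 0) (nat_lit 5) (nat_lit 7) (C.cons (nat_lit 161) (C.node (nat_lit 0) (nat_lit 6) (nat_lit 7) (C.cons (nat_lit 193) (C.node (nat_lit 0) (nat_lit 4) (nat_lit 8) (C.cons (nat_lit 277) (C.node (nat_lit 0) (nat_lit 4) (nat_lit 9) (C.cons (nat_lit 529) (C.node (nat_lit 0) (nat_lit 4) (nat_lit 10) C.nil) C.nil)) (C.cons (nat_lit 273) (C.node (nat_lit 0) (nat_lit 4) (nat_lit 9) (C.cons (nat_lit 533) (C.node (nat_lit 0) (nat_lit 4) (nat_lit 10) C.nil) C.nil)) C.nil))) C.nil)) C.nil)) (C.cons (nat_lit 145) (C.node (nat_lit 0) (nat_lit 4) (nat_lit 8) (C.cons (nat_lit 277) (C.node (nat_lit 0) (nat_lit 5) (nat_lit 8) (C.cons (nat_lit 289) (C.node (nat_lit 0) (nat_lit 6) (nat_lit 8) (C.cons (nat_lit 321) (C.node (nat_lit 0) (nat_lit 4) (nat_lit 9) (C.cons (nat_lit 531) (C.node (nat_lit 0) (nat_lit 4) (nat_lit 10) C.nil) C.nil)) C.nil)) C.nil))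
  (C.cons (nat_lit 273) (C.node (nat_lit 0) (nat_lit 5) (nat_lit 7) (C.cons (nat_lit 163) (C.node (nat_lit 0) (nat_lit 6) (nat_lit 7) (C.cons (nat_lit 193) (C.node (nat_lit 0) (nat_lit 5) (nat_lit 8) (C.cons (nat_lit 293) (C.node (nat_lit 0) (nat_lit 5) (nat_lit 9) C.nil) C.nil)) C.nil)) (C.cons (nat_lit 161) (C.node (nat_lit 0) (nat_lit 1) (nat_lit 7) (C.cons (nat_lit 195) (C.node (nat_lit 0) (nat_lit 6) (nat_lit 8) (C.cons (nat_lit 325) (C.node (nat_lit 0) (nat_lit 6) (nat_lit 9) C.nil) C.nil)) C.nil)) C.nil))) C.nil))) C.nil))) (List.cons (C.node (nat_lit 0) (nat_lit 4) (nat_lit 7) (C.cons (nat_lit 147) (C.node (nat_lit 0) (nat_lit 5) (nat_lit 7) (C.cons (nat_lit 161) (C.node (nat_lit 0) (nat_lit 6) (nat_lit 7) C.nil) C.nil)) (C.cons (nat_lit 145) (C.node (nat_lit 0) (nat_lit 5) (nat_lit 7) (C.cons (nat_lit 163) (C.node (nat_lit 0) (nat_lit 6) (nat_lit 7) C.nil) C.nil)) C.nil))) (List.cons (C.node (nat_lit 0) (nat_lit 1) (nat_lit 3) (C.cons (nat_lit 2059) (C.ref (nat_lit 80) (nat_lit 186416450777616))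 (C.cons (nat_lit 11) (C.node (nat_lit 0) (nat_lit 3) (nat_lit 11) (C.cons (nat_lit 2057) (C.ref (nat_lit 81) (nat_lit 205163983024656)) C.nil)) C.nil))) (List.cons (C.node (nat_lit 0) (nat_lit 3) (nat_lit 10) (C.cons (nat_lit 1035) (C.node (nat_lit 0) (nat_lit 3) (nat_lit 11) (C.cons (nat_lit 2057) (C.ref (nat_lit 80) (nat_lit 204004341854736)) C.nil)) (C.cons (nat_lit 1033) (C.ref (nat_lit 82) (nat_lit 205163983024656)) C.nil))) (List.cons (C.node (nat_lit 0) (nat_lit 3) (nat_lit 9) (C.cons (nat_lit 523) (C.node (nat_lit 0) (nat_lit 3) (nat_lit 10) (C.cons (nat_lit 1033) (C.node (nat_lit 0) (nat_lit 3) (nat_lit 11) (C.cons (nat_lit 2057) (C.ref (nat_lit 80) (nat_lit 205099558515216)) C.nil)) C.nil)) (C.cons (nat_lit 521) (C.ref (nat_lit 83) (nat_lit 205163983024656)) C.nil))) (List.cons (C.node (nat_lit 0) (nat_lit 3) (nat_lit 8) (C.cons (nat_lit 267) (C.node (nat_lit 0) (nat_lit 3) (nat_lit 9) (C.cons (nat_lit 521) (C.node (nat_lit 0) (nat_lit 3) (nat_lit 10) (C.cons (nat_lit 1033) (C.node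 (nat_lit 0) (nat_lit 3) (nat_lit 11) (C.cons (nat_lit 2057) (C.ref (nat_lit 80) (nat_lit 205163983024656)) C.nil)) C.nil)) C.nil)) (C.cons (nat_lit 265) (C.ref (nat_lit 84) (nat_lit 205163983024656)) C.nil))) (List.cons (C.big (C.cons (nat_lit 2119) (C.ref (nat_lit 34) (nat_lit 205163979691056)) (C.cons (nat_lit 2087) (C.ref (nat_lit 34) (nat_lit 205163962917936)) (C.cons (nat_lit 2071) (C.ref (nat_lit 34) (nat_lit 205163946140976)) (C.cons (nat_lit 2063) (C.ref (nat_lit 34) (nat_lit 205163929363776)) (C.cons (nat_lit 1095) (C.ref (nat_lit 34) (nat_lit 188671305274416)) (C.cons (nat_lit 1063) (C.ref (nat_lit 34) (nat_lit 188671288501296)) (C.cons (nat_lit 1047) (C.ref (nat_lit 34) (nat_lit 188671271724336)) (C.cons (nat_lit 1039) (C.ref (nat_lit 34) (nat_lit 188671254947136)) (C.cons (nat_lit 583) (C.ref (nat_lit 34) (nat_lit 171147838706736)) (C.cons (nat_lit 551) (C.ref (nat_lit 34) (nat_lit 171147821933616)) (C.cons (nat_lit 535) (C.ref (nat_lit 34) (nat_lit 171147805156656)) (C.cons (nat_lit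 527) (C.ref (nat_lit 34) (nat_lit 171147788379456)) (C.cons (nat_lit 327) (C.ref (nat_lit 34) (nat_lit 153559947629616)) (C.cons (nat_lit 295) (C.ref (nat_lit 34) (nat_lit 153559930856496)) (C.cons (nat_lit 279) (C.ref (nat_lit 34) (nat_lit 153559914079536)) (C.cons (nat_lit 271) (C.ref (nat_lit 34) (nat_lit 153559897302336)) (C.cons (nat_lit 199) (C.ref (nat_lit 34) (nat_lit 135968030020656)) (C.cons (nat_lit 167) (C.ref (nat_lit 34) (nat_lit 135968013247536)) (C.cons (nat_lit 151) (C.ref (nat_lit 34) (nat_lit 135967996470576)) (C.cons (nat_lit 143) (C.ref (nat_lit 34) (nat_lit 135967979693376)) C.nil)))))))))))))))))))) (C.node (nat_lit 0) (nat_lit 3) (nat_lit 7) (C.cons (nat_lit 141) (C.ref (nat_lit 85) (nat_lit 205163983024656)) (C.cons (nat_lit 139) (C.ref (nat_lit 85) (nat_lit 205163983024416)) (C.cons (nat_lit 137) (C.node (nat_lit 0) (nat_lit 3) (nat_lit 8) (C.cons (nat_lit 269) (C.ref (nat_lit 84) (nat_lit 205159956492816))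
  (C.cons (nat_lit 267) (C.ref (nat_lit 84) (nat_lit 205159956492576)) (C.cons (nat_lit 265) (C.node (nat_lit 0) (nat_lit 3) (nat_lit 9) (C.cons (nat_lit 525) (C.ref (nat_lit 83) (nat_lit 205091505451536)) (C.cons (nat_lit 523) (C.ref (nat_lit 83) (nat_lit 205091505451296)) (C.cons (nat_lit 521) (C.node (nat_lit 0) (nat_lit 3) (nat_lit 10) (C.cons (nat_lit 1037) (C.ref (nat_lit 82) (nat_lit 203992262259216)) (C.cons (nat_lit 1035) (C.ref (nat_lit 82) (nat_lit 203992262258976)) (C.cons (nat_lit 1033) (C.node (nat_lit 0) (nat_lit 1) (nat_lit 3) (C.cons (nat_lit 2059) (C.node (nat_lit 0) (nat_lit 2) (nat_lit 3) (C.cons (nat_lit 13) (C.ref (nat_lit 81) (nat_lit 186400344650016)) C.nil)) (C.cons (nat_lit 15) (C.node (nat_lit 0) (nat_lit 3) (nat_lit 11) (C.cons (nat_lit 2057) (C.node (nat_lit 0) (nat_lit 4) (nat_lit 7) (C.cons (nat_lit 149) (C.node (nat_lit 0) (nat_lit 4) (nat_lit 8) (C.cons (nat_lit 275) (C.node (nat_lit 0) (nat_lit 4) (nat_lit 9) (C.cons (nat_lit 529) (C.node (nat_lit 0) (nat_lit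 4) (nat_lit 10) C.nil) C.nil)) (C.cons (nat_lit 273) (C.node (nat_lit 0) (nat_lit 4) (nat_lit 9) (C.cons (nat_lit 531) (C.node (nat_lit 0) (nat_lit 4) (nat_lit 10) C.nil) C.nil)) C.nil))) (C.cons (nat_lit 147) (C.node (nat_lit 0) (nat_lit 4) (nat_lit 8) (C.cons (nat_lit 277) (C.node (nat_lit 0) (nat_lit 4) (nat_lit 9) (C.cons (nat_lit 529) (C.node (nat_lit 0) (nat_lit 4) (nat_lit 10) C.nil) C.nil)) (C.cons (nat_lit 273) (C.node (nat_lit 0) (nat_lit 4) (nat_lit 9) (C.cons (nat_lit 533) (C.node (nat_lit 0) (nat_lit 4) (nat_lit 10) C.nil) C.nil)) C.nil))) (C.cons (nat_lit 145) (C.node (nat_lit 0) (nat_lit 1) (nat_lit 7) (C.cons (nat_lit 195) (C.node (nat_lit 0) (nat_lit 2) (nat_lit 7) (C.cons (nat_lit 165) (C.node (nat_lit 0) (nat_lit 5) (nat_lit 8) (C.cons (nat_lit 291) (C.node (nat_lit 0) (nat_lit 5) (nat_lit 9) C.nil) C.nil)) C.nil)) (C.cons (nat_lit 163) (C.node (nat_lit 0) (nat_lit 2) (nat_lit 7) (C.cons (nat_lit 197) (C.node (nat_lit 0) (nat_lit 6) (nat_lit 8) (C.cons (nat_lit 323) (C.node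 (nat_lit 0) (nat_lit 6) (nat_lit 9) C.nil) C.nil)) C.nil)) C.nil))) C.nil)))) C.nil)) (C.cons (nat_lit 11) (C.node (nat_lit 0) (nat_lit 2) (nat_lit 3) (C.cons (nat_lit 2061) (C.ref (nat_lit 81) (nat_lit 186400344650256)) (C.cons (nat_lit 13) (C.node (nat_lit 0) (nat_lit 3) (nat_lit 11) C.nil) C.nil))) C.nil)))) C.nil)))) C.nil)))) C.nil)))) C.nil))))) (List.cons (C.node (nat_lit 0) (nat_lit 5) (nat_lit 11) (C.cons (nat_lit 2145) (C.pat (nat_lit 3) (nat_lit 5742148487) (nat_lit 46096370232550823781084712082480431527802507137)) (C.cons (nat_lit 2081) (C.node (nat_lit 0) (nat_lit 6) (nat_lit 11) (C.cons (nat_lit 2113) (C.node (nat_lit 0) (nat_lit 4) (nat_lit 5) (C.cons (nat_lit 1073) (C.node (nat_lit 0) (nat_lit 4) (nat_lit 6) C.nil) (C.cons (nat_lit 113) (C.pat (nat_lit 2) (nat_lit 47599485812) (nat_lit 45961892001774968593940672043562876083923124515)) C.nil))) C.nil)) C.nil))) (List.cons (C.node (nat_lit 0) (nat_lit 3) (nat_lit 5) (C.cons (nat_lit 1065) (C.node (nat_lit 0) (nat_lit 5) (nat_lit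 11) (C.cons (nat_lit 2145) (C.pat (nat_lit 3) (nat_lit 5742148487) (nat_lit 46096370232550823781084712082480431527802507137)) (C.cons (nat_lit 2081) (C.node (nat_lit 0) (nat_lit 6) (nat_lit 11) (C.cons (nat_lit 2113) (C.ref (nat_lit 87) (nat_lit 186609691861296)) C.nil)) C.nil))) (C.cons (nat_lit 41) (C.node (nat_lit 0) (nat_lit 3) (nat_lit 10) (C.cons (nat_lit 1033) (C.node (nat_lit 0) (nat_lit 5) (nat_lit 11) (C.cons (nat_lit 2145) (C.pat (nat_lit 3) (nat_lit 5742148487) (nat_lit 46096370232550823781084712082480431527802507137)) (C.cons (nat_lit 2081) (C.node (nat_lit 0) (nat_lit 6) (nat_lit 11) (C.cons (nat_lit 2113) (C.node (nat_lit 0) (nat_lit 4) (nat_lit 9) (C.cons (nat_lit 593) (C.node (nat_lit 0) (nat_lit 5) (nat_lit 9) C.nil) (C.cons (nat_lit 561) (C.node (nat_lit 0) (nat_lit 6) (nat_lit 9) C.nil) C.nil))) C.nil)) C.nil))) C.nil)) C.nil))) (List.cons (C.node (nat_lit 0) (nat_lit 4) (nat_lit 5) (C.cons (nat_lit 1073)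
  (C.node (nat_lit 0) (nat_lit 4) (nat_lit 6) C.nil) (C.cons (nat_lit 113) (C.pat (nat_lit 1) (nat_lit 947280705) (nat_lit 1510984452134881102985739925225279361)) C.nil))) List.nil)))))))))))))))))))))

theorem ok12_69 : okL par12 (nat_lit 90) c12_69 (nat_lit 69) = true := by decide +kernel

noncomputable def c12_90 : List C :=
  (List.cons (C.node (nat_lit 0) (nat_lit 4) (nat_lit 9) (C.cons (nat_lit 561) (C.pat (nat_lit 3) (nat_lit 9754057095) (nat_lit 12956923860192426988222143287340903552245763969)) (C.cons (nat_lit 529) (C.node (nat_lit 0) (nat_lit 5) (nat_lit 9) (C.cons (nat_lit 545) (C.ref (nat_lit 89) (nat_lit 205163983024656)) C.nil)) C.nil))) (List.cons (C.qs (C.cons (nat_lit 4418) (C.pat (nat_lit 5) (nat_lit 502927018850) (nat_lit 88512361057632979788972153384035555163908407393)) (C.cons (nat_lit 4617) (C.pat (nat_lit 5) (nat_lit 490847410997) (nat_lit 88512361057414903320896765920424967720653225997)) C.nil))) (List.cons (C.node (nat_lit 0) (nat_lit 4) (nat_lit 5) (C.cons (nat_lit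 1073) (C.node (nat_lit 0) (nat_lit 5) (nat_lit 6) (C.cons (nat_lit 97) (C.node (nat_lit 0) (nat_lit 6) (nat_lit 10) (C.cons (nat_lit 1089) (C.ref (nat_lit 91) (nat_lit 205163983024656)) C.nil)) C.nil)) (C.cons (nat_lit 49) (C.node (nat_lit 0) (nat_lit 4) (nat_lit 10) (C.cons (nat_lit 1041) (C.node (nat_lit 0) (nat_lit 5) (nat_lit 6) (C.cons (nat_lit 1121) (C.pat (nat_lit 6) (nat_lit 245926364695) (nat_lit 5800706488139353839772116422889301070034336154322017)) C.nil)) C.nil)) C.nil))) (List.cons (C.node (nat_lit 0) (nat_lit 4) (nat_lit 9) (C.cons (nat_lit 593) (C.node (nat_lit 0) (nat_lit 5) (nat_lit 9) (C.cons (nat_lit 545) (C.ref (nat_lit 92) (nat_lit 205163983024656)) C.nil)) (C.cons (nat_lit 561) (C.node (nat_lit 0) (nat_lit 6) (nat_lit 9) (C.cons (nat_lit 577) (C.ref (nat_lit 92) (nat_lit 152384171225616)) C.nil)) (C.cons (nat_lit 529) (C.node (nat_lit 0) (nat_lit 5) (nat_lit 9) (C.cons (nat_lit 609) (C.ref (nat_lit 92) (nat_lit 134808374489616)) (C.cons (nat_lit 545) (C.node (nat_lit 0)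 (nat_lit 6) (nat_lit 9) (C.cons (nat_lit 577) (C.node (nat_lit 0) (nat_lit 4) (nat_lit 5) (C.cons (nat_lit 1073) (C.node (nat_lit 0) (nat_lit 4) (nat_lit 6) C.nil) (C.cons (nat_lit 113) (C.pat (nat_lit 1) (nat_lit 947280705) (nat_lit 1510984452134881102985739925225279361)) C.nil))) C.nil)) C.nil))) C.nil)))) (List.cons (C.node (nat_lit 0) (nat_lit 4) (nat_lit 9) (C.cons (nat_lit 593) (C.node (nat_lit 0) (nat_lit 5) (nat_lit 9) C.nil) (C.cons (nat_lit 561) (C.node (nat_lit 0) (nat_lit 6) (nat_lit 9) C.nil) C.nil))) (List.cons (C.node (nat_lit 0) (nat_lit 3) (nat_lit 10) (C.cons (nat_lit 1065) (C.node (nat_lit 0) (nat_lit 3) (nat_lit 11) (C.cons (nat_lit 2057) (C.node (nat_lit 0) (nat_lit 4) (nat_lit 10) C.nil) C.nil)) (C.cons (nat_lit 1033) (C.node (nat_lit 0) (nat_lit 3) (nat_lit 5) (C.cons (nat_lit 2089) (C.node (nat_lit 0) (nat_lit 6) (nat_lit 11) C.nil) C.nil)) C.nil))) (List.cons (C.node (nat_lit 0) (nat_lit 2) (nat_lit 9) (C.cons (nat_lit 581) (C.node (nat_lit 0) (nat_lit 2) (nat_lit 10)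 (C.cons (nat_lit 1037) (C.node (nat_lit 0) (nat_lit 2) (nat_lit 11) (C.cons (nat_lit 2053) (C.node (nat_lit 0) (nat_lit 3) (nat_lit 5) (C.cons (nat_lit 2089) (C.node (nat_lit 0) (nat_lit 6) (nat_lit 11) (C.cons (nat_lit 2113) (C.ref (nat_lit 90) (nat_lit 205159955501616)) C.nil)) (C.cons (nat_lit 41) (C.node (nat_lit 0) (nat_lit 3) (nat_lit 11) (C.cons (nat_lit 2057) (C.node (nat_lit 0) (nat_lit 4) (nat_lit 9) (C.cons (nat_lit 561) (C.pat (nat_lit 3) (nat_lit 9754057095) (nat_lit 12956923860192426988222143287340903552245763969)) (C.cons (nat_lit 529) (C.node (nat_lit 0) (nat_lit 5) (nat_lit 9) C.nil) C.nil))) C.nil)) C.nil))) C.nil)) (C.cons (nat_lit 1029) (C.node (nat_lit 0) (nat_lit 2) (nat_lit 3) (C.cons (nat_lit 2061) (C.node (nat_lit 0) (nat_lit 3) (nat_lit 5) (C.cons (nat_lit 1065) (C.node (nat_lit 0) (nat_lit 5) (nat_lit 11) (C.cons (nat_lit 2145) (C.pat (nat_lit 3) (nat_lit 5742148487) (nat_lit 46096370232550823781084712082480431527802507137)) (C.cons (nat_lit 2081) (C.node (nat_lit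 0) (nat_lit 6) (nat_lit 11) (C.cons (nat_lit 2113) (C.node (nat_lit 0) (nat_lit 5) (nat_lit 6) (C.cons (nat_lit 113) (C.pat (nat_lit 2) (nat_lit 39262191990) (nat_lit 11663341802890698245195164357871442798938620181)) (C.cons (nat_lit 97) (C.node (nat_lit 0) (nat_lit 5) (nat_lit 4)
  (C.cons (nat_lit 561) (C.pat (nat_lit 3) (nat_lit 9754057095) (nat_lit 12956923860192426988222143287340903552245763969)) C.nil)) C.nil))) C.nil)) C.nil))) (C.cons (nat_lit 41) (C.node (nat_lit 0) (nat_lit 3) (nat_lit 10) (C.cons (nat_lit 1033) (C.node (nat_lit 0) (nat_lit 4) (nat_lit 9) (C.cons (nat_lit 561) (C.pat (nat_lit 3) (nat_lit 9754057095) (nat_lit 12956923860192426988222143287340903552245763969)) (C.cons (nat_lit 529) (C.node (nat_lit 0) (nat_lit 5) (nat_lit 9) C.nil) C.nil))) C.nil)) C.nil))) (C.cons (nat_lit 13) (C.node (nat_lit 0) (nat_lit 2) (nat_lit 11) (C.cons (nat_lit 2053) (C.node (nat_lit 0) (nat_lit 3) (nat_lit 10) (C.cons (nat_lit 1065) (C.node (nat_lit 0) (nat_lit 3) (nat_lit 11) (C.cons (nat_lit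 2057) (C.node (nat_lit 0) (nat_lit 4) (nat_lit 9) (C.cons (nat_lit 561) (C.pat (nat_lit 3) (nat_lit 9754057095) (nat_lit 12956923860192426988222143287340903552245763969)) C.nil)) C.nil)) (C.cons (nat_lit 1033) (C.node (nat_lit 0) (nat_lit 3) (nat_lit 5) (C.cons (nat_lit 2089) (C.node (nat_lit 0) (nat_lit 6) (nat_lit 11) C.nil) C.nil)) C.nil))) C.nil)) C.nil))) C.nil))) (C.cons (nat_lit 517) (C.node (nat_lit 0) (nat_lit 2) (nat_lit 3) (C.cons (nat_lit 2061) (C.node (nat_lit 0) (nat_lit 2) (nat_lit 6) (C.cons (nat_lit 1093) (C.node (nat_lit 0) (nat_lit 3) (nat_lit 5) (C.cons (nat_lit 1065) (C.node (nat_lit 0) (nat_lit 4) (nat_lit 10) (C.cons (nat_lit 1041) (C.ref (nat_lit 90) (nat_lit 186609691861296)) C.nil)) (C.cons (nat_lit 41) (C.node (nat_lit 0) (nat_lit 3) (nat_lit 10) (C.cons (nat_lit 1033) (C.node (nat_lit 0) (nat_lit 6) (nat_lit 11) (C.cons (nat_lit 2145) (C.pat (nat_lit 3) (nat_lit 5993868152) (nat_lit 46096370232052353458373213836124636494528057217)) (C.cons (nat_lit 2113) (C.node (nat_lit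 0) (nat_lit 5) (nat_lit 11) C.nil) C.nil))) C.nil)) C.nil))) (C.cons (nat_lit 69) (C.node (nat_lit 0) (nat_lit 2) (nat_lit 10) (C.cons (nat_lit 1029) (C.node (nat_lit 0) (nat_lit 3) (nat_lit 5) (C.cons (nat_lit 1065) (C.node (nat_lit 0) (nat_lit 5) (nat_lit 11) (C.cons (nat_lit 2145) (C.pat (nat_lit 3) (nat_lit 5742148487) (nat_lit 46096370232550823781084712082480431527802507137)) (C.cons (nat_lit 2081) (C.node (nat_lit 0) (nat_lit 6) (nat_lit 11) C.nil) C.nil))) (C.cons (nat_lit 41) (C.node (nat_lit 0) (nat_lit 3) (nat_lit 10) C.nil) C.nil))) C.nil)) C.nil))) (C.cons (nat_lit 1037) (C.node (nat_lit 0) (nat_lit 2) (nat_lit 6) (C.cons (nat_lit 2117) (C.node (nat_lit 0) (nat_lit 3) (nat_lit 5) (C.cons (nat_lit 2089) (C.ref (nat_lit 93) (nat_lit 204133158428976)) (C.cons (nat_lit 41) (C.node (nat_lit 0) (nat_lit 3) (nat_lit 11) (C.cons (nat_lit 2057) (C.node (nat_lit 0) (nat_lit 5) (nat_lit 11) (C.cons (nat_lit 2081) (C.node (nat_lit 0) (nat_lit 4) (nat_lit 9) (C.cons (nat_lit 593) (C.node (nat_lit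 0) (nat_lit 5) (nat_lit 9) C.nil) (C.cons (nat_lit 561) (C.node (nat_lit 0) (nat_lit 6) (nat_lit 9) C.nil) C.nil))) C.nil)) C.nil)) C.nil))) (C.cons (nat_lit 69) (C.node (nat_lit 0) (nat_lit 2) (nat_lit 11) (C.cons (nat_lit 2053) (C.node (nat_lit 0) (nat_lit 3) (nat_lit 5) (C.cons (nat_lit 2089) (C.node (nat_lit 0) (nat_lit 6) (nat_lit 11) (C.cons (nat_lit 2113) (C.ref (nat_lit 94) (nat_lit 204133158428976)) C.nil)) (C.cons (nat_lit 41) (C.node (nat_lit 0) (nat_lit 3) (nat_lit 11) C.nil) C.nil))) C.nil)) C.nil))) (C.cons (nat_lit 13) (C.node (nat_lit 0) (nat_lit 2) (nat_lit 10) (C.cons (nat_lit 1093) (C.node (nat_lit 0) (nat_lit 2) (nat_lit 11) (C.cons (nat_lit 2053) (C.ref (nat_lit 95) (nat_lit 205163983024656)) C.nil)) (C.cons (nat_lit 1029) (C.node (nat_lit 0) (nat_lit 2) (nat_lit 6) (C.cons (nat_lit 2117) (C.node (nat_lit 0) (nat_lit 3) (nat_lit 10) (C.cons (nat_lit 1065) (C.node (nat_lit 0) (nat_lit 3) (nat_lit 11) (C.cons (nat_lit 2057) (C.node (nat_lit 0) (nat_lit 5) (nat_lit 11) C.nil)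 C.nil)) (C.cons (nat_lit 1033) (C.node (nat_lit 0) (nat_lit 3) (nat_lit 5) (C.cons (nat_lit 2089) (C.node (nat_lit 0) (nat_lit 4) (nat_lit 9) (C.cons (nat_lit 593) (C.node (nat_lit 0) (nat_lit 5) (nat_lit 9) C.nil)
  (C.cons (nat_lit 561) (C.node (nat_lit 0) (nat_lit 6) (nat_lit 9) C.nil) C.nil))) C.nil)) C.nil))) (C.cons (nat_lit 69) (C.node (nat_lit 0) (nat_lit 2) (nat_lit 11) C.nil) C.nil))) C.nil))) C.nil)))) C.nil))) (List.cons (C.node (nat_lit 0) (nat_lit 1) (nat_lit 2) (C.cons (nat_lit 1031) (C.node (nat_lit 0) (nat_lit 2) (nat_lit 3) (C.cons (nat_lit 2061) (C.node (nat_lit 0) (nat_lit 2) (nat_lit 6) (C.cons (nat_lit 581) (C.node (nat_lit 0) (nat_lit 3) (nat_lit 5) (C.cons (nat_lit 1065) (C.node (nat_lit 0) (nat_lit 4) (nat_lit 9) (C.cons (nat_lit 561) (C.pat (nat_lit 3) (nat_lit 9754057095) (nat_lit 12956923860192426988222143287340903552245763969)) (C.cons (nat_lit 529) (C.node (nat_lit 0) (nat_lit 5) (nat_lit 9) (C.cons (nat_lit 545) (C.node (nat_lit 0) (nat_lit 4) (nat_lit 5) (C.cons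 (nat_lit 113) (C.pat (nat_lit 2) (nat_lit 47599485812) (nat_lit 45961892001774968593940672043562876083923124515)) (C.cons (nat_lit 49) (C.node (nat_lit 0) (nat_lit 4) (nat_lit 6) (C.cons (nat_lit 1105) (C.pat (nat_lit 3) (nat_lit 14567942791) (nat_lit 23750669650158850005837324559834347726979796865)) (C.cons (nat_lit 81) (C.node (nat_lit 0) (nat_lit 4) (nat_lit 10) (C.cons (nat_lit 1041) (C.node (nat_lit 0) (nat_lit 6) (nat_lit 10) (C.cons (nat_lit 1089) (C.node (nat_lit 0) (nat_lit 5) (nat_lit 6) (C.cons (nat_lit 2145) (C.pat (nat_lit 3) (nat_lit 5742148487) (nat_lit 46096370232550823781084712082480431527802507137)) C.nil)) C.nil)) C.nil)) C.nil))) C.nil))) C.nil)) C.nil))) (C.cons (nat_lit 41) (C.node (nat_lit 0) (nat_lit 3) (nat_lit 10) (C.cons (nat_lit 1033) (C.node (nat_lit 0) (nat_lit 4) (nat_lit 9) (C.cons (nat_lit 561) (C.pat (nat_lit 3) (nat_lit 9754057095) (nat_lit 12956923860192426988222143287340903552245763969)) (C.cons (nat_lit 529) (C.node (nat_lit 0) (nat_lit 5) (nat_lit 9) (C.cons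 (nat_lit 545) (C.ref (nat_lit 87) (nat_lit 205163983024656)) C.nil)) C.nil))) C.nil)) C.nil))) (C.cons (nat_lit 69) (C.node (nat_lit 0) (nat_lit 2) (nat_lit 9) (C.cons (nat_lit 517) (C.ref (nat_lit 88) (nat_lit 205163983024656)) C.nil)) C.nil))) (C.cons (nat_lit 13) (C.node (nat_lit 0) (nat_lit 2) (nat_lit 9) (C.cons (nat_lit 581) (C.node (nat_lit 0) (nat_lit 2) (nat_lit 11) (C.cons (nat_lit 2053) (C.node (nat_lit 0) (nat_lit 3) (nat_lit 10) (C.cons (nat_lit 1065) (C.node (nat_lit 0) (nat_lit 3) (nat_lit 11) (C.cons (nat_lit 2057) (C.node (nat_lit 0) (nat_lit 4) (nat_lit 9) (C.cons (nat_lit 561) (C.pat (nat_lit 3) (nat_lit 9754057095) (nat_lit 12956923860192426988222143287340903552245763969)) (C.cons (nat_lit 529) (C.node (nat_lit 0) (nat_lit 5) (nat_lit 9) (C.cons (nat_lit 545) (C.node (nat_lit 0) (nat_lit 4) (nat_lit 5) (C.cons (nat_lit 113) (C.pat (nat_lit 2) (nat_lit 43856986741) (nat_lit 22992134655541357918191440737317483326057283913)) (C.cons (nat_lit 49) (C.node (nat_lit 0) (nat_lit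 4) (nat_lit 6) (C.cons (nat_lit 1105) (C.pat (nat_lit 3) (nat_lit 14567942791) (nat_lit 23750669650158850005837324559834347726979796865)) C.nil)) C.nil))) C.nil)) C.nil))) C.nil)) (C.cons (nat_lit 1033) (C.node (nat_lit 0) (nat_lit 3) (nat_lit 5) (C.cons (nat_lit 2089) (C.node (nat_lit 0) (nat_lit 6) (nat_lit 11) (C.cons (nat_lit 2113) (C.ref (nat_lit 90) (nat_lit 205163983024656)) C.nil)) (C.cons (nat_lit 41) (C.node (nat_lit 0) (nat_lit 3) (nat_lit 11) (C.cons (nat_lit 2057) (C.node (nat_lit 0) (nat_lit 4) (nat_lit 9) (C.cons (nat_lit 561) (C.pat (nat_lit 3) (nat_lit 9754057095) (nat_lit 12956923860192426988222143287340903552245763969)) (C.cons (nat_lit 529) (C.node (nat_lit 0) (nat_lit 5) (nat_lit 9) C.nil) C.nil))) C.nil)) C.nil))) C.nil))) C.nil)) (C.cons (nat_lit 517) (C.node (nat_lit 0) (nat_lit 2) (nat_lit 6) (C.cons (nat_lit 2117) (C.node (nat_lit 0) (nat_lit 3) (nat_lit 10) (C.cons (nat_lit 1065) (C.node (nat_lit 0) (nat_lit 3) (nat_lit 11) (C.cons (nat_lit 2057) (C.node (nat_lit 0)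 (nat_lit 5) (nat_lit 11) (C.cons (nat_lit 2081) (C.ref (nat_lit 90) (nat_lit 204129148609296)) C.nil)) C.nil)) (C.cons (nat_lit 1033) (C.node (nat_lit 0) (nat_lit 3) (nat_lit 5)
  (C.cons (nat_lit 2089) (C.ref (nat_lit 93) (nat_lit 205163983024656)) (C.cons (nat_lit 41) (C.node (nat_lit 0) (nat_lit 3) (nat_lit 11) (C.cons (nat_lit 2057) (C.node (nat_lit 0) (nat_lit 5) (nat_lit 11) (C.cons (nat_lit 2081) (C.ref (nat_lit 94) (nat_lit 205163983024656)) C.nil)) C.nil)) C.nil))) C.nil))) (C.cons (nat_lit 69) (C.node (nat_lit 0) (nat_lit 2) (nat_lit 11) (C.cons (nat_lit 2053) (C.node (nat_lit 0) (nat_lit 3) (nat_lit 10) (C.cons (nat_lit 1065) (C.node (nat_lit 0) (nat_lit 3) (nat_lit 11) (C.cons (nat_lit 2057) (C.node (nat_lit 0) (nat_lit 4) (nat_lit 10) (C.cons (nat_lit 1105) (C.pat (nat_lit 3) (nat_lit 14064687736) (nat_lit 23750669649244995775986716587322969490412736385)) (C.cons (nat_lit 1041) (C.node (nat_lit 0) (nat_lit 6) (nat_lit 10) C.nil) C.nil))) C.nil)) (C.cons (nat_lit 1033) (C.node (nat_lit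 0) (nat_lit 3) (nat_lit 5) (C.cons (nat_lit 2089) (C.node (nat_lit 0) (nat_lit 6) (nat_lit 11) (C.cons (nat_lit 2113) (C.ref (nat_lit 94) (nat_lit 204129148609296)) C.nil)) (C.cons (nat_lit 41) (C.node (nat_lit 0) (nat_lit 3) (nat_lit 11) C.nil) C.nil))) C.nil))) C.nil)) C.nil))) C.nil))) C.nil))) (C.cons (nat_lit 7) (C.node (nat_lit 0) (nat_lit 1) (nat_lit 10) (C.cons (nat_lit 1027) (C.ref (nat_lit 96) (nat_lit 205163983024656)) C.nil)) C.nil))) (List.cons (C.node (nat_lit 0) (nat_lit 2) (nat_lit 11) (C.cons (nat_lit 2053) (C.node (nat_lit 0) (nat_lit 3) (nat_lit 9) (C.cons (nat_lit 553) (C.pat (nat_lit 1) (nat_lit 2556908321) (nat_lit 1511272842646404691096145684095893833)) (C.cons (nat_lit 521) (C.node (nat_lit 0) (nat_lit 3) (nat_lit 10) (C.cons (nat_lit 1065) (C.node (nat_lit 0) (nat_lit 3) (nat_lit 11) (C.cons (nat_lit 2057) (C.node (nat_lit 0) (nat_lit 4) (nat_lit 9) (C.cons (nat_lit 561) (C.pat (nat_lit 2) (nat_lit 40319944050) (nat_lit 12510770120590630830329566481060410654984569161))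 C.nil)) C.nil)) (C.cons (nat_lit 1033) (C.node (nat_lit 0) (nat_lit 3) (nat_lit 5) (C.cons (nat_lit 2089) (C.pat (nat_lit 1) (nat_lit 2069381921) (nat_lit 10732792063520308059234588491437639721)) C.nil)) C.nil))) C.nil))) C.nil)) (List.cons (C.node (nat_lit 0) (nat_lit 1) (nat_lit 9) (C.cons (nat_lit 523) (C.ref (nat_lit 97) (nat_lit 205163983024656)) (C.cons (nat_lit 519) (C.ref (nat_lit 97) (nat_lit 205159940760336)) (C.cons (nat_lit 515) (C.node (nat_lit 0) (nat_lit 1) (nat_lit 2) (C.cons (nat_lit 1031) (C.node (nat_lit 0) (nat_lit 1) (nat_lit 3) (C.cons (nat_lit 11) (C.ref (nat_lit 96) (nat_lit 204129148609296)) C.nil)) (C.cons (nat_lit 15) (C.node (nat_lit 0) (nat_lit 1) (nat_lit 10) (C.cons (nat_lit 1027) (C.node (nat_lit 0) (nat_lit 2) (nat_lit 9) (C.cons (nat_lit 581) (C.node (nat_lit 0) (nat_lit 2) (nat_lit 10) (C.cons (nat_lit 1029) (C.ref (nat_lit 98) (nat_lit 205163983024656)) C.nil)) (C.cons (nat_lit 517) (C.node (nat_lit 0) (nat_lit 2) (nat_lit 10) (C.cons (nat_lit 1093) (C.ref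 (nat_lit 98) (nat_lit 204133190873616)) (C.cons (nat_lit 1029) (C.node (nat_lit 0) (nat_lit 2) (nat_lit 6) (C.cons (nat_lit 2117) (C.pat (nat_lit 1) (nat_lit 2269864737) (nat_lit 1012812346490166240919562947809050777)) (C.cons (nat_lit 69) (C.node (nat_lit 0) (nat_lit 2) (nat_lit 11) (C.cons (nat_lit 2053) (C.node (nat_lit 0) (nat_lit 3) (nat_lit 9) (C.cons (nat_lit 553) (C.node (nat_lit 0) (nat_lit 3) (nat_lit 10) C.nil) C.nil)) C.nil)) C.nil))) C.nil))) C.nil))) C.nil)) (C.cons (nat_lit 7) (C.node (nat_lit 0) (nat_lit 1) (nat_lit 3) (C.cons (nat_lit 1035) (C.ref (nat_lit 96) (nat_lit 204133190873616)) (C.cons (nat_lit 11) (C.node (nat_lit 0) (nat_lit 1) (nat_lit 10) (C.cons (nat_lit 1027) (C.node (nat_lit 0) (nat_lit 2) (nat_lit 9) (C.cons (nat_lit 581) (C.node (nat_lit 0) (nat_lit 2) (nat_lit 10) (C.cons (nat_lit 1037) (C.node (nat_lit 0) (nat_lit 2) (nat_lit 11) (C.cons (nat_lit 2053) (C.ref (nat_lit 95) (nat_lit 171143782084896)) C.nil)) (C.cons (nat_lit 1029) (C.node (nat_lit 0) (nat_lit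 2) (nat_lit 3) (C.cons (nat_lit 2061) (C.node (nat_lit 0) (nat_lit 3) (nat_lit 10) (C.cons (nat_lit 1065)
  (C.node (nat_lit 0) (nat_lit 3) (nat_lit 9) (C.cons (nat_lit 521) (C.node (nat_lit 0) (nat_lit 6) (nat_lit 11) (C.cons (nat_lit 2145) (C.pat (nat_lit 3) (nat_lit 5993868152) (nat_lit 46096370232052353458373213836124636494528057217)) C.nil)) C.nil)) (C.cons (nat_lit 1033) (C.node (nat_lit 0) (nat_lit 3) (nat_lit 5) (C.cons (nat_lit 553) (C.node (nat_lit 0) (nat_lit 4) (nat_lit 9) C.nil) C.nil)) C.nil))) (C.cons (nat_lit 13) (C.node (nat_lit 0) (nat_lit 2) (nat_lit 11) C.nil) C.nil))) C.nil))) (C.cons (nat_lit 525) (C.node (nat_lit 0) (nat_lit 2) (nat_lit 10) (C.cons (nat_lit 1093) (C.node (nat_lit 0) (nat_lit 2) (nat_lit 11) (C.cons (nat_lit 2053) (C.ref (nat_lit 95) (nat_lit 188667248652576)) C.nil)) (C.cons (nat_lit 1029) (C.node (nat_lit 0) (nat_lit 2) (nat_lit 6) (C.cons (nat_lit 2117) (C.node (nat_lit 0) (nat_lit 3) (nat_lit 10) (C.cons (nat_lit 1065) (C.node (nat_lit 0) (nat_lit 3)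 (nat_lit 11) (C.cons (nat_lit 2057) (C.node (nat_lit 0) (nat_lit 5) (nat_lit 11) C.nil) C.nil)) (C.cons (nat_lit 1033) (C.node (nat_lit 0) (nat_lit 3) (nat_lit 5) (C.cons (nat_lit 2089) (C.node (nat_lit 0) (nat_lit 6) (nat_lit 9) (C.cons (nat_lit 593) (C.node (nat_lit 0) (nat_lit 5) (nat_lit 9) C.nil) (C.cons (nat_lit 609) (C.node (nat_lit 0) (nat_lit 4) (nat_lit 9) C.nil) C.nil))) C.nil)) C.nil))) (C.cons (nat_lit 69) (C.node (nat_lit 0) (nat_lit 2) (nat_lit 11) C.nil) C.nil))) C.nil))) (C.cons (nat_lit 517) (C.node (nat_lit 0) (nat_lit 3) (nat_lit 9) (C.cons (nat_lit 553) (C.node (nat_lit 0) (nat_lit 3) (nat_lit 10) (C.cons (nat_lit 1037) (C.node (nat_lit 0) (nat_lit 3) (nat_lit 11) (C.cons (nat_lit 2057) (C.node (nat_lit 0) (nat_lit 2) (nat_lit 6) (C.cons (nat_lit 2117) (C.node (nat_lit 0) (nat_lit 5) (nat_lit 11) C.nil) C.nil)) C.nil)) (C.cons (nat_lit 1033) (C.node (nat_lit 0) (nat_lit 2) (nat_lit 3) (C.cons (nat_lit 2061) (C.node (nat_lit 0) (nat_lit 2) (nat_lit 6) (C.cons (nat_lit 1093)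 (C.node (nat_lit 0) (nat_lit 5) (nat_lit 11) (C.cons (nat_lit 2145) (C.pat (nat_lit 3) (nat_lit 5742148487) (nat_lit 46096370232550823781084712082480431527802507137)) C.nil)) C.nil)) C.nil)) C.nil))) (C.cons (nat_lit 521) (C.node (nat_lit 0) (nat_lit 2) (nat_lit 3) (C.cons (nat_lit 2061) (C.node (nat_lit 0) (nat_lit 2) (nat_lit 6) (C.cons (nat_lit 1093) (C.node (nat_lit 0) (nat_lit 3) (nat_lit 5) (C.cons (nat_lit 1065) (C.node (nat_lit 0) (nat_lit 4) (nat_lit 10) C.nil) C.nil)) C.nil)) (C.cons (nat_lit 1037) (C.node (nat_lit 0) (nat_lit 2) (nat_lit 6) (C.cons (nat_lit 2117) (C.node (nat_lit 0) (nat_lit 3) (nat_lit 5) (C.cons (nat_lit 2089) (C.node (nat_lit 0) (nat_lit 6) (nat_lit 10) (C.cons (nat_lit 1105) (C.node (nat_lit 0) (nat_lit 5) (nat_lit 10) C.nil) (C.cons (nat_lit 1121) (C.node (nat_lit 0) (nat_lit 4) (nat_lit 10) C.nil) C.nil))) C.nil)) C.nil)) C.nil))) C.nil))) C.nil)))) C.nil)) C.nil))) C.nil)))) C.nil)))) (List.cons (C.node (nat_lit 0) (nat_lit 2) (nat_lit 3) (C.cons (nat_lit 2061)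 (C.node (nat_lit 0) (nat_lit 2) (nat_lit 6) (C.cons (nat_lit 581) (C.ref (nat_lit 88) (nat_lit 170112989933856)) (C.cons (nat_lit 69) (C.node (nat_lit 0) (nat_lit 2) (nat_lit 9) (C.cons (nat_lit 517) (C.node (nat_lit 0) (nat_lit 3) (nat_lit 5) (C.cons (nat_lit 1065) (C.node (nat_lit 0) (nat_lit 6) (nat_lit 10) (C.cons (nat_lit 1105) (C.pat (nat_lit 3) (nat_lit 14567942791) (nat_lit 23750669650158850005837324559834347726979796865)) (C.cons (nat_lit 1089) (C.node (nat_lit 0) (nat_lit 4) (nat_lit 10) (C.cons (nat_lit 1041) (C.node (nat_lit 0) (nat_lit 5) (nat_lit 11) (C.cons (nat_lit 2097) (C.node (nat_lit 0) (nat_lit 6) (nat_lit 11) C.nil) (C.cons (nat_lit 2145) (C.node (nat_lit 0) (nat_lit 4) (nat_lit 11) C.nil) C.nil))) C.nil)) C.nil))) (C.cons (nat_lit 41) (C.node (nat_lit 0) (nat_lit 3) (nat_lit 10) (C.cons (nat_lit 1033) (C.node (nat_lit 0) (nat_lit 4) (nat_lit 9) (C.cons (nat_lit 593) (C.node (nat_lit 0) (nat_lit 5) (nat_lit 9) C.nil) (C.cons (nat_lit 561) (C.node (nat_lit 0) (nat_lit 6)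 (nat_lit 9) C.nil) C.nil))) C.nil)) C.nil))) C.nil)) C.nil)))
  (C.cons (nat_lit 13) (C.node (nat_lit 0) (nat_lit 2) (nat_lit 9) (C.cons (nat_lit 581) (C.node (nat_lit 0) (nat_lit 2) (nat_lit 11) (C.cons (nat_lit 2053) (C.node (nat_lit 0) (nat_lit 3) (nat_lit 10) (C.cons (nat_lit 1065) (C.node (nat_lit 0) (nat_lit 3) (nat_lit 11) (C.cons (nat_lit 2057) (C.node (nat_lit 0) (nat_lit 6) (nat_lit 10) (C.cons (nat_lit 1105) (C.pat (nat_lit 3) (nat_lit 14567942791) (nat_lit 23750669650158850005837324559834347726979796865)) (C.cons (nat_lit 1089) (C.node (nat_lit 0) (nat_lit 4) (nat_lit 10) C.nil) C.nil))) C.nil)) (C.cons (nat_lit 1033) (C.node (nat_lit 0) (nat_lit 3) (nat_lit 5) (C.cons (nat_lit 2089) (C.node (nat_lit 0) (nat_lit 5) (nat_lit 9) (C.cons (nat_lit 561) (C.pat (nat_lit 3) (nat_lit 10005592440) (nat_lit 12956923859610879123492463135905094046671507329)) (C.cons (nat_lit 545) (C.node (nat_lit 0) (nat_lit 4) (nat_lit 9) C.nil) C.nil))) (C.cons (nat_lit 41) (C.node (nat_lit 0) (nat_lit 3)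 (nat_lit 11) C.nil) C.nil))) C.nil))) C.nil)) (C.cons (nat_lit 517) (C.node (nat_lit 0) (nat_lit 2) (nat_lit 6) (C.cons (nat_lit 2117) (C.node (nat_lit 0) (nat_lit 3) (nat_lit 10) (C.cons (nat_lit 1065) (C.node (nat_lit 0) (nat_lit 3) (nat_lit 11) (C.cons (nat_lit 2057) (C.node (nat_lit 0) (nat_lit 6) (nat_lit 10) (C.cons (nat_lit 1105) (C.pat (nat_lit 3) (nat_lit 14567942791) (nat_lit 23750669650158850005837324559834347726979796865)) (C.cons (nat_lit 1089) (C.node (nat_lit 0) (nat_lit 4) (nat_lit 10) C.nil) C.nil))) C.nil)) (C.cons (nat_lit 1033) (C.node (nat_lit 0) (nat_lit 3) (nat_lit 5) (C.cons (nat_lit 2089) (C.node (nat_lit 0) (nat_lit 4) (nat_lit 11) (C.cons (nat_lit 2065) (C.node (nat_lit 0) (nat_lit 6) (nat_lit 10) (C.cons (nat_lit 1121) (C.node (nat_lit 0) (nat_lit 4) (nat_lit 10) C.nil) (C.cons (nat_lit 1105) (C.node (nat_lit 0) (nat_lit 5) (nat_lit 10) C.nil) C.nil))) C.nil)) (C.cons (nat_lit 41) (C.node (nat_lit 0) (nat_lit 3) (nat_lit 11) C.nil) C.nil))) C.nil))) (C.cons (nat_lit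 69) (C.node (nat_lit 0) (nat_lit 2) (nat_lit 11) (C.cons (nat_lit 2053) (C.node (nat_lit 0) (nat_lit 3) (nat_lit 10) (C.cons (nat_lit 1065) (C.node (nat_lit 0) (nat_lit 3) (nat_lit 11) C.nil) C.nil)) C.nil)) C.nil))) C.nil))) C.nil))) List.nil)))))))))))

theorem ok12_90 : okL par12 (nat_lit 101) c12_90 (nat_lit 90) = true := by decide +kernel

noncomputable def c12_101 : List C :=
  (List.cons (C.node (nat_lit 0) (nat_lit 2) (nat_lit 9) (C.cons (nat_lit 581) (C.node (nat_lit 0) (nat_lit 2) (nat_lit 10) (C.cons (nat_lit 1037) (C.node (nat_lit 0) (nat_lit 2) (nat_lit 11) (C.cons (nat_lit 2053) (C.node (nat_lit 0) (nat_lit 3) (nat_lit 5) (C.cons (nat_lit 2089) (C.node (nat_lit 0) (nat_lit 5) (nat_lit 9) (C.cons (nat_lit 561) (C.pat (nat_lit 3) (nat_lit 10005592440) (nat_lit 12956923859610879123492463135905094046671507329)) (C.cons (nat_lit 545) (C.node (nat_lit 0) (nat_lit 4) (nat_lit 9) C.nil) C.nil))) (C.cons (nat_lit 41) (C.node (nat_lit 0) (nat_lit 3) (nat_lit 11) C.nil) C.nil))) C.nil)) (C.cons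 (nat_lit 1029) (C.node (nat_lit 0) (nat_lit 2) (nat_lit 3) (C.cons (nat_lit 2061) (C.node (nat_lit 0) (nat_lit 3) (nat_lit 5) (C.cons (nat_lit 1065) (C.node (nat_lit 0) (nat_lit 5) (nat_lit 9) (C.cons (nat_lit 561) (C.pat (nat_lit 3) (nat_lit 10005592440) (nat_lit 12956923859610879123492463135905094046671507329)) (C.cons (nat_lit 545) (C.node (nat_lit 0) (nat_lit 4) (nat_lit 9) C.nil) C.nil))) (C.cons (nat_lit 41) (C.node (nat_lit 0) (nat_lit 3) (nat_lit 10) C.nil) C.nil))) (C.cons (nat_lit 13) (C.node (nat_lit 0) (nat_lit 2) (nat_lit 11) C.nil) C.nil))) C.nil))) (C.cons (nat_lit 517) (C.node (nat_lit 0) (nat_lit 2) (nat_lit 3) (C.cons (nat_lit 2061) (C.node (nat_lit 0) (nat_lit 2) (nat_lit 6) (C.cons (nat_lit 1093) (C.node (nat_lit 0) (nat_lit 3) (nat_lit 5) (C.cons (nat_lit 1065) (C.node (nat_lit 0) (nat_lit 4) (nat_lit 10) (C.cons (nat_lit 1041) (C.ref (nat_lit 94) (nat_lit 188667281084976)) C.nil)) (C.cons (nat_lit 41) (C.node (nat_lit 0) (nat_lit 3) (nat_lit 10) C.nil) C.nil))) (C.cons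 (nat_lit 69) (C.node (nat_lit 0) (nat_lit 2) (nat_lit 10) C.nil) C.nil))) (C.cons (nat_lit 1037) (C.node (nat_lit 0) (nat_lit 2) (nat_lit 6) (C.cons (nat_lit 2117) (C.node (nat_lit 0) (nat_lit 3) (nat_lit 5) (C.cons (nat_lit 2089) (C.node (nat_lit 0) (nat_lit 4) (nat_lit 11) (C.cons (nat_lit 2065) (C.ref (nat_lit 94) (nat_lit 205159955501616)) C.nil)) (C.cons (nat_lit 41) (C.node (nat_lit 0) (nat_lit 3) (nat_lit 11) C.nil) C.nil))) (C.cons (nat_lit 69) (C.node (nat_lit 0) (nat_lit 2) (nat_lit 11) C.nil) C.nil))) (C.cons (nat_lit 13) (C.node (nat_lit 0) (nat_lit 2) (nat_lit 10) (C.cons (nat_lit 1093) (C.node (nat_lit 0) (nat_lit 2) (nat_lit 11) C.nil) C.nil)) C.nil)))) C.nil))) (List.cons (C.node (nat_lit 0) (nat_lit 1) (nat_lit 2) (C.cons (nat_lit 2055) (C.ref (nat_lit 100) (nat_lit 188671308608016)) (C.cons (nat_lit 7) (C.node (nat_lit 0) (nat_lit 1) (nat_lit 11) (C.cons (nat_lit 2051) (C.ref (nat_lit 101) (nat_lit 205163983024656)) C.nil)) C.nil))) (List.cons (C.node (nat_lit 0) (nat_lit 2)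 (nat_lit 4) (C.cons (nat_lit 1045) (C.node (nat_lit 0) (nat_lit 2) (nat_lit 6) (C.cons (nat_lit 69) (C.node (nat_lit 0) (nat_lit 4) (nat_lit 5) (C.cons (nat_lit 49) (C.node (nat_lit 0) (nat_lit 5) (nat_lit 9) (C.cons (nat_lit 609) (C.pat (nat_lit 3) (nat_lit 5471689623) (nat_lit 45828755846896756463037385305655524803379269505)) (C.cons (nat_lit 545) (C.node (nat_lit 0) (nat_lit 6) (nat_lit 9) (C.cons (nat_lit 577) (C.node (nat_lit 0) (nat_lit 5) (nat_lit 6) (C.cons (nat_lit 1121) (C.pat (nat_lit 6) (nat_lit 314160214810) (nat_lit 5800704347593129355132122314215948008031305968845129)) C.nil)) C.nil)) C.nil))) C.nil)) C.nil)) (C.cons (nat_lit 21) (C.node (nat_lit 0) (nat_lit 2) (nat_lit 6) (C.cons (nat_lit 1093) (C.node (nat_lit 0) (nat_lit 4) (nat_lit 5) (C.cons (nat_lit 1073) (C.pat (nat_lit 3) (nat_lit 18578807719) (nat_lit 47478997383107615636853578980088744538343149441)) (C.cons (nat_lit 49) (C.node (nat_lit 0) (nat_lit 4) (nat_lit 10) (C.cons (nat_lit 1041) (C.node (nat_lit 0) (nat_lit 5)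 (nat_lit 10) (C.cons (nat_lit 1057) (C.node (nat_lit 0) (nat_lit 5) (nat_lit 6) (C.cons (nat_lit 609) (C.pat (nat_lit 3) (nat_lit 5471689623) (nat_lit 45828755846896756463037385305655524803379269505)) C.nil)) C.nil)) C.nil)) C.nil))) (C.cons (nat_lit 69) (C.node (nat_lit 0) (nat_lit 2) (nat_lit 10) (C.cons (nat_lit 1029)
  (C.node (nat_lit 0) (nat_lit 4) (nat_lit 5) (C.cons (nat_lit 1073) (C.node (nat_lit 0) (nat_lit 6) (nat_lit 10) (C.cons (nat_lit 1089) (C.node (nat_lit 0) (nat_lit 6) (nat_lit 5) (C.cons (nat_lit 609) (C.pat (nat_lit 3) (nat_lit 13509945243) (nat_lit 3412070164691725216622267701347201927678594945)) C.nil)) C.nil)) (C.cons (nat_lit 49) (C.node (nat_lit 0) (nat_lit 4) (nat_lit 10) C.nil) C.nil))) C.nil)) C.nil))) C.nil))) (List.cons (C.node (nat_lit 0) (nat_lit 2) (nat_lit 4) (C.cons (nat_lit 1045) (C.node (nat_lit 0) (nat_lit 2) (nat_lit 6) C.nil) (C.cons (nat_lit 85) (C.node (nat_lit 0) (nat_lit 2) (nat_lit 10) C.nil) C.nil))) (List.cons (C.node (nat_lit 0) (nat_lit 5) (nat_lit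 9) (C.cons (nat_lit 609) (C.node (nat_lit 0) (nat_lit 4) (nat_lit 5) (C.cons (nat_lit 1073) (C.node (nat_lit 0) (nat_lit 2) (nat_lit 4) (C.cons (nat_lit 85) (C.pat (nat_lit 2) (nat_lit 47583761778) (nat_lit 46586308783945422990980609602825028075079926291)) (C.cons (nat_lit 21) (C.node (nat_lit 0) (nat_lit 4) (nat_lit 6) (C.cons (nat_lit 81) (C.node (nat_lit 0) (nat_lit 6) (nat_lit 2) (C.cons (nat_lit 1093) (C.pat (nat_lit 3) (nat_lit 23123278487) (nat_lit 23929071529812554074861644183024173356926177153)) C.nil)) C.nil)) C.nil))) (C.cons (nat_lit 49) (C.node (nat_lit 0) (nat_lit 5) (nat_lit 10) (C.cons (nat_lit 1057) (C.node (nat_lit 0) (nat_lit 2) (nat_lit 4) (C.cons (nat_lit 1045) (C.node (nat_lit 0) (nat_lit 2) (nat_lit 6) C.nil) (C.cons (nat_lit 85) (C.pat (nat_lit 2) (nat_lit 47583761778) (nat_lit 46586308783945422990980609602825028075079926291)) C.nil))) C.nil)) C.nil))) (C.cons (nat_lit 545) (C.node (nat_lit 0) (nat_lit 6) (nat_lit 9) (C.cons (nat_lit 577) (C.ref (nat_lit 104) (nat_lit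 205163983024656)) C.nil)) C.nil))) (List.cons (C.node (nat_lit 0) (nat_lit 2) (nat_lit 4) (C.cons (nat_lit 1045) (C.node (nat_lit 0) (nat_lit 2) (nat_lit 6) C.nil) (C.cons (nat_lit 85) (C.node (nat_lit 0) (nat_lit 2) (nat_lit 10) C.nil) C.nil))) (List.cons (C.node (nat_lit 0) (nat_lit 5) (nat_lit 9) (C.cons (nat_lit 609) (C.node (nat_lit 0) (nat_lit 5) (nat_lit 10) (C.cons (nat_lit 1073) (C.node (nat_lit 0) (nat_lit 5) (nat_lit 11) (C.cons (nat_lit 2081) (C.node (nat_lit 0) (nat_lit 2) (nat_lit 4) (C.cons (nat_lit 85) (C.pat (nat_lit 2) (nat_lit 44393730932) (nat_lit 23081337636397787973359815292780943084478857825)) (C.cons (nat_lit 21) (C.node (nat_lit 0) (nat_lit 2) (nat_lit 6) (C.cons (nat_lit 1093) (C.pat (nat_lit 3) (nat_lit 23123278487) (nat_lit 23929071529812554074861644183024173356926177153)) C.nil)) C.nil))) C.nil)) (C.cons (nat_lit 1057) (C.node (nat_lit 0) (nat_lit 4) (nat_lit 5) (C.cons (nat_lit 2097) (C.node (nat_lit 0) (nat_lit 6) (nat_lit 11) (C.cons (nat_lit 2113) (C.ref (nat_lit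 89) (nat_lit 205099557344016)) C.nil)) (C.cons (nat_lit 49) (C.node (nat_lit 0) (nat_lit 5) (nat_lit 11) C.nil) C.nil))) C.nil))) (C.cons (nat_lit 545) (C.node (nat_lit 0) (nat_lit 6) (nat_lit 9) (C.cons (nat_lit 577) (C.ref (nat_lit 106) (nat_lit 205163983024656)) C.nil)) C.nil))) (List.cons (C.node (nat_lit 0) (nat_lit 3) (nat_lit 5) (C.cons (nat_lit 2089) (C.node (nat_lit 0) (nat_lit 4) (nat_lit 5) (C.cons (nat_lit 113) (C.node (nat_lit 0) (nat_lit 4) (nat_lit 11) (C.cons (nat_lit 2065) (C.node (nat_lit 0) (nat_lit 5) (nat_lit 10) C.nil) C.nil)) (C.cons (nat_lit 49) (C.node (nat_lit 0) (nat_lit 4) (nat_lit 6) (C.cons (nat_lit 2129) (C.node (nat_lit 0) (nat_lit 5) (nat_lit 6) (C.cons (nat_lit 1121) (C.ref (nat_lit 91) (nat_lit 133640644613136)) C.nil)) C.nil)) C.nil))) (C.cons (nat_lit 41) (C.node (nat_lit 0) (nat_lit 3) (nat_lit 11) C.nil) C.nil))) (List.cons (C.node (nat_lit 0) (nat_lit 2) (nat_lit 4) (C.cons (nat_lit 1045) (C.node (nat_lit 0) (nat_lit 2) (nat_lit 6) C.nil) (C.cons (nat_lit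 85) (C.node (nat_lit 0) (nat_lit 2) (nat_lit 10) C.nil) C.nil))) (List.cons (C.node (nat_lit 0) (nat_lit 2) (nat_lit 3) (C.cons (nat_lit 525) (C.node (nat_lit 0) (nat_lit 3) (nat_lit 5) (C.cons (nat_lit 2089) (C.node (nat_lit 0) (nat_lit 4) (nat_lit 11) (C.cons (nat_lit 2129)
  (C.ref (nat_lit 103) (nat_lit 205163983024656)) (C.cons (nat_lit 2065) (C.node (nat_lit 0) (nat_lit 6) (nat_lit 11) (C.cons (nat_lit 2113) (C.ref (nat_lit 105) (nat_lit 205163983024656)) C.nil)) C.nil))) (C.cons (nat_lit 41) (C.node (nat_lit 0) (nat_lit 3) (nat_lit 11) (C.cons (nat_lit 2057) (C.ref (nat_lit 107) (nat_lit 205163983024656)) C.nil)) C.nil))) (C.cons (nat_lit 13) (C.node (nat_lit 0) (nat_lit 2) (nat_lit 9) (C.cons (nat_lit 581) (C.node (nat_lit 0) (nat_lit 2) (nat_lit 4) (C.cons (nat_lit 1045) (C.node (nat_lit 0) (nat_lit 3) (nat_lit 9) (C.cons (nat_lit 553) (C.node (nat_lit 0) (nat_lit 3) (nat_lit 11) (C.cons (nat_lit 2057) (C.ref (nat_lit 90) (nat_lit 153551865459216)) C.nil)) (C.cons (nat_lit 521) (C.node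 (nat_lit 0) (nat_lit 5) (nat_lit 9) (C.cons (nat_lit 545) (C.ref (nat_lit 108) (nat_lit 205163983024656)) C.nil)) C.nil))) (C.cons (nat_lit 21) (C.node (nat_lit 0) (nat_lit 2) (nat_lit 10) (C.cons (nat_lit 1029) (C.node (nat_lit 0) (nat_lit 3) (nat_lit 9) (C.cons (nat_lit 553) (C.node (nat_lit 0) (nat_lit 3) (nat_lit 11) (C.cons (nat_lit 2057) (C.ref (nat_lit 94) (nat_lit 152529157825296)) C.nil)) (C.cons (nat_lit 521) (C.node (nat_lit 0) (nat_lit 5) (nat_lit 9) C.nil) C.nil))) C.nil)) C.nil))) (C.cons (nat_lit 517) (C.node (nat_lit 0) (nat_lit 3) (nat_lit 9) (C.cons (nat_lit 553) (C.node (nat_lit 0) (nat_lit 3) (nat_lit 11) (C.cons (nat_lit 2057) (C.node (nat_lit 0) (nat_lit 6) (nat_lit 9) (C.cons (nat_lit 577) (C.ref (nat_lit 109) (nat_lit 205163983024656)) C.nil)) C.nil)) (C.cons (nat_lit 521) (C.node (nat_lit 0) (nat_lit 3) (nat_lit 5) (C.cons (nat_lit 2089) (C.node (nat_lit 0) (nat_lit 4) (nat_lit 11) (C.cons (nat_lit 2129) (C.node (nat_lit 0) (nat_lit 2) (nat_lit 4) (C.cons (nat_lit 1045)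 (C.node (nat_lit 0) (nat_lit 2) (nat_lit 6) (C.cons (nat_lit 69) (C.node (nat_lit 0) (nat_lit 4) (nat_lit 5) C.nil) C.nil)) (C.cons (nat_lit 21) (C.node (nat_lit 0) (nat_lit 2) (nat_lit 6) (C.cons (nat_lit 1093) (C.node (nat_lit 0) (nat_lit 4) (nat_lit 5) (C.cons (nat_lit 1073) (C.pat (nat_lit 3) (nat_lit 18578807719) (nat_lit 47478997383107615636853578980088744538343149441)) C.nil)) C.nil)) C.nil))) (C.cons (nat_lit 2065) (C.node (nat_lit 0) (nat_lit 6) (nat_lit 11) C.nil) C.nil))) (C.cons (nat_lit 41) (C.node (nat_lit 0) (nat_lit 3) (nat_lit 11) C.nil) C.nil))) C.nil))) C.nil))) C.nil))) (List.cons (C.node (nat_lit 0) (nat_lit 5) (nat_lit 9) (C.cons (nat_lit 609) (C.node (nat_lit 0) (nat_lit 4) (nat_lit 5) (C.cons (nat_lit 1073) (C.ref (nat_lit 87) (nat_lit 188598827881296)) (C.cons (nat_lit 49) (C.node (nat_lit 0) (nat_lit 5) (nat_lit 10) (C.cons (nat_lit 1057) (C.node (nat_lit 0) (nat_lit 6) (nat_lit 10) (C.cons (nat_lit 1105) (C.node (nat_lit 0) (nat_lit 2) (nat_lit 10) C.nil) (C.cons (nat_lit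 1093) (C.node (nat_lit 0) (nat_lit 4) (nat_lit 10) C.nil) C.nil))) C.nil)) C.nil))) (C.cons (nat_lit 545) (C.node (nat_lit 0) (nat_lit 6) (nat_lit 9) (C.cons (nat_lit 577) (C.ref (nat_lit 106) (nat_lit 205099521938736)) C.nil)) C.nil))) (List.cons (C.node (nat_lit 0) (nat_lit 2) (nat_lit 3) (C.cons (nat_lit 2061) (C.node (nat_lit 0) (nat_lit 2) (nat_lit 9) (C.cons (nat_lit 581) (C.node (nat_lit 0) (nat_lit 2) (nat_lit 4) (C.cons (nat_lit 1045) (C.node (nat_lit 0) (nat_lit 3) (nat_lit 5) (C.cons (nat_lit 553) (C.ref (nat_lit 90) (nat_lit 153559917531696)) (C.cons (nat_lit 41) (C.node (nat_lit 0) (nat_lit 3) (nat_lit 9) (C.cons (nat_lit 521) (C.node (nat_lit 0) (nat_lit 5) (nat_lit 9) C.nil) C.nil)) C.nil))) (C.cons (nat_lit 21) (C.node (nat_lit 0) (nat_lit 2) (nat_lit 10) (C.cons (nat_lit 1029) (C.node (nat_lit 0) (nat_lit 3) (nat_lit 5) (C.cons (nat_lit 553) (C.ref (nat_lit 94) (nat_lit 152521088049456)) C.nil)) C.nil)) C.nil))) (C.cons (nat_lit 517) (C.node (nat_lit 0) (nat_lit 3) (nat_lit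 5) (C.cons (nat_lit 553) (C.node (nat_lit 0) (nat_lit 6) (nat_lit 9) (C.cons (nat_lit 577) (C.ref (nat_lit 109) (nat_lit 205099525083696)) C.nil)) (C.cons (nat_lit 41)
  (C.node (nat_lit 0) (nat_lit 3) (nat_lit 9) C.nil) C.nil))) C.nil))) (C.cons (nat_lit 525) (C.node (nat_lit 0) (nat_lit 3) (nat_lit 5) (C.cons (nat_lit 2089) (C.ref (nat_lit 111) (nat_lit 205163983024656)) (C.cons (nat_lit 41) (C.node (nat_lit 0) (nat_lit 3) (nat_lit 11) (C.cons (nat_lit 2057) (C.node (nat_lit 0) (nat_lit 5) (nat_lit 9) (C.cons (nat_lit 609) (C.node (nat_lit 0) (nat_lit 5) (nat_lit 10) (C.cons (nat_lit 1073) (C.node (nat_lit 0) (nat_lit 5) (nat_lit 11) C.nil) C.nil)) C.nil)) C.nil)) C.nil))) (C.cons (nat_lit 13) (C.node (nat_lit 0) (nat_lit 2) (nat_lit 9) (C.cons (nat_lit 581) (C.node (nat_lit 0) (nat_lit 2) (nat_lit 10) (C.cons (nat_lit 1045) (C.node (nat_lit 0) (nat_lit 2) (nat_lit 11) (C.cons (nat_lit 2053) (C.node (nat_lit 0) (nat_lit 3) (nat_lit 9) (C.cons (nat_lit 553) (C.node (nat_lit 0) (nat_lit 3) (nat_lit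 11) C.nil) C.nil)) C.nil)) (C.cons (nat_lit 1029) (C.node (nat_lit 0) (nat_lit 2) (nat_lit 4) (C.cons (nat_lit 2069) (C.node (nat_lit 0) (nat_lit 3) (nat_lit 9) (C.cons (nat_lit 553) (C.node (nat_lit 0) (nat_lit 3) (nat_lit 11) C.nil) C.nil)) C.nil)) C.nil))) (C.cons (nat_lit 517) (C.node (nat_lit 0) (nat_lit 3) (nat_lit 9) (C.cons (nat_lit 553) (C.node (nat_lit 0) (nat_lit 3) (nat_lit 11) C.nil) C.nil)) C.nil))) C.nil)))) (List.cons (C.node (nat_lit 0) (nat_lit 4) (nat_lit 10) (C.cons (nat_lit 1105) (C.node (nat_lit 0) (nat_lit 2) (nat_lit 4) (C.cons (nat_lit 2069) (C.node (nat_lit 0) (nat_lit 2) (nat_lit 6) (C.cons (nat_lit 69) (C.node (nat_lit 0) (nat_lit 4) (nat_lit 5) C.nil) C.nil)) (C.cons (nat_lit 21) (C.node (nat_lit 0) (nat_lit 2) (nat_lit 6) (C.cons (nat_lit 2117) (C.node (nat_lit 0) (nat_lit 4) (nat_lit 5) (C.cons (nat_lit 2097) (C.node (nat_lit 0) (nat_lit 5) (nat_lit 6) (C.cons (nat_lit 609) (C.pat (nat_lit 3) (nat_lit 5471689367) (nat_lit 22992444314457671323880283259580212215707668353))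 C.nil)) C.nil)) C.nil)) C.nil))) (C.cons (nat_lit 1041) (C.node (nat_lit 0) (nat_lit 6) (nat_lit 10) C.nil) C.nil))) (List.cons (C.node (nat_lit 0) (nat_lit 2) (nat_lit 3) (C.cons (nat_lit 2061) (C.node (nat_lit 0) (nat_lit 2) (nat_lit 4) (C.cons (nat_lit 85) (C.node (nat_lit 0) (nat_lit 2) (nat_lit 9) (C.cons (nat_lit 517) (C.node (nat_lit 0) (nat_lit 3) (nat_lit 5) (C.cons (nat_lit 553) (C.node (nat_lit 0) (nat_lit 6) (nat_lit 9) C.nil) C.nil)) C.nil)) (C.cons (nat_lit 21) (C.node (nat_lit 0) (nat_lit 2) (nat_lit 6) (C.cons (nat_lit 581) (C.node (nat_lit 0) (nat_lit 3) (nat_lit 5) (C.cons (nat_lit 553) (C.node (nat_lit 0) (nat_lit 5) (nat_lit 10) (C.cons (nat_lit 1121) (C.node (nat_lit 0) (nat_lit 4) (nat_lit 10) C.nil) (C.cons (nat_lit 1073) (C.node (nat_lit 0) (nat_lit 6) (nat_lit 10) C.nil) C.nil))) C.nil)) C.nil)) C.nil))) (C.cons (nat_lit 525) (C.node (nat_lit 0) (nat_lit 3) (nat_lit 5) (C.cons (nat_lit 2089) (C.node (nat_lit 0) (nat_lit 5) (nat_lit 9) (C.cons (nat_lit 609) (C.node (nat_lit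 0) (nat_lit 4) (nat_lit 5) (C.cons (nat_lit 1073) (C.node (nat_lit 0) (nat_lit 6) (nat_lit 10) (C.cons (nat_lit 1089) (C.ref (nat_lit 89) (nat_lit 188598827881296)) C.nil)) (C.cons (nat_lit 49) (C.node (nat_lit 0) (nat_lit 5) (nat_lit 10) C.nil) C.nil))) (C.cons (nat_lit 545) (C.node (nat_lit 0) (nat_lit 6) (nat_lit 9) C.nil) C.nil))) (C.cons (nat_lit 41) (C.node (nat_lit 0) (nat_lit 3) (nat_lit 11) C.nil) C.nil))) (C.cons (nat_lit 13) (C.node (nat_lit 0) (nat_lit 2) (nat_lit 9) (C.cons (nat_lit 581) (C.node (nat_lit 0) (nat_lit 2) (nat_lit 4) (C.cons (nat_lit 2069) (C.node (nat_lit 0) (nat_lit 3) (nat_lit 9) (C.cons (nat_lit 553) (C.node (nat_lit 0) (nat_lit 3) (nat_lit 11) C.nil) C.nil)) C.nil)) C.nil)) C.nil)))) (List.cons (C.node (nat_lit 0) (nat_lit 3) (nat_lit 10) (C.cons (nat_lit 1065) (C.node (nat_lit 0) (nat_lit 3) (nat_lit 9) (C.cons (nat_lit 525) (C.node (nat_lit 0) (nat_lit 3) (nat_lit 11) (C.cons (nat_lit 2057) (C.ref (nat_lit 113) (nat_lit 205163983024656)) C.nil)) (C.cons (nat_lit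 521) (C.node (nat_lit 0) (nat_lit 2) (nat_lit 3) (C.cons (nat_lit 2061)
  (C.node (nat_lit 0) (nat_lit 2) (nat_lit 4) (C.cons (nat_lit 85) (C.node (nat_lit 0) (nat_lit 2) (nat_lit 9) (C.cons (nat_lit 517) (C.node (nat_lit 0) (nat_lit 4) (nat_lit 10) C.nil) C.nil)) (C.cons (nat_lit 21) (C.node (nat_lit 0) (nat_lit 2) (nat_lit 6) (C.cons (nat_lit 581) (C.node (nat_lit 0) (nat_lit 5) (nat_lit 9) C.nil) C.nil)) C.nil))) (C.cons (nat_lit 13) (C.node (nat_lit 0) (nat_lit 3) (nat_lit 11) C.nil) C.nil))) C.nil))) (C.cons (nat_lit 1033) (C.ref (nat_lit 114) (nat_lit 205163983024656)) C.nil))) (List.cons (C.node (nat_lit 0) (nat_lit 2) (nat_lit 4) (C.cons (nat_lit 533) (C.node (nat_lit 0) (nat_lit 2) (nat_lit 6) (C.cons (nat_lit 69) (C.node (nat_lit 0) (nat_lit 4) (nat_lit 5) (C.cons (nat_lit 2097) (C.node (nat_lit 0) (nat_lit 6) (nat_lit 11) (C.cons (nat_lit 2113) (C.node (nat_lit 0) (nat_lit 6) (nat_lit 5) (C.cons (nat_lit 609) (C.ref (nat_lit 91) (nat_lit 188598746178096)) C.nil)) C.nil)) (C.cons (nat_lit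 49) (C.node (nat_lit 0) (nat_lit 4) (nat_lit 11) C.nil) C.nil))) C.nil)) (C.cons (nat_lit 21) (C.node (nat_lit 0) (nat_lit 2) (nat_lit 6) (C.cons (nat_lit 581) (C.node (nat_lit 0) (nat_lit 4) (nat_lit 9) (C.cons (nat_lit 561) (C.pat (nat_lit 3) (nat_lit 18578807447) (nat_lit 24642685848010033941307428440132004196317859713)) (C.cons (nat_lit 529) (C.node (nat_lit 0) (nat_lit 5) (nat_lit 9) C.nil) C.nil))) (C.cons (nat_lit 69) (C.node (nat_lit 0) (nat_lit 2) (nat_lit 9) C.nil) C.nil))) C.nil))) (List.cons (C.node (nat_lit 0) (nat_lit 4) (nat_lit 10) (C.cons (nat_lit 1105) (C.node (nat_lit 0) (nat_lit 2) (nat_lit 4) (C.cons (nat_lit 2069) (C.node (nat_lit 0) (nat_lit 2) (nat_lit 6) (C.cons (nat_lit 581) (C.node (nat_lit 0) (nat_lit 4) (nat_lit 5) (C.cons (nat_lit 561) (C.pat (nat_lit 3) (nat_lit 18578807447) (nat_lit 24642685848010033941307428440132004196317859713)) C.nil)) C.nil)) (C.cons (nat_lit 533) (C.node (nat_lit 0) (nat_lit 2) (nat_lit 6) (C.cons (nat_lit 2117) (C.node (nat_lit 0) (nat_lit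 4) (nat_lit 5) (C.cons (nat_lit 2097) (C.node (nat_lit 0) (nat_lit 5) (nat_lit 6) (C.cons (nat_lit 609) (C.pat (nat_lit 6) (nat_lit 103954478681) (nat_lit 5800703678370684657069427086452700096227264469993541)) C.nil)) C.nil)) C.nil)) C.nil))) C.nil)) (List.cons (C.node (nat_lit 0) (nat_lit 2) (nat_lit 9) (C.cons (nat_lit 581) (C.node (nat_lit 0) (nat_lit 2) (nat_lit 4) (C.cons (nat_lit 2069) (C.node (nat_lit 0) (nat_lit 6) (nat_lit 11) C.nil) C.nil)) (C.cons (nat_lit 533) (C.node (nat_lit 0) (nat_lit 2) (nat_lit 6) (C.cons (nat_lit 2117) (C.node (nat_lit 0) (nat_lit 4) (nat_lit 11) C.nil) C.nil)) C.nil))) (List.cons (C.node (nat_lit 0) (nat_lit 2) (nat_lit 3) (C.cons (nat_lit 2061) (C.node (nat_lit 0) (nat_lit 3) (nat_lit 5) (C.cons (nat_lit 1065) (C.node (nat_lit 0) (nat_lit 4) (nat_lit 10) (C.cons (nat_lit 1105) (C.ref (nat_lit 116) (nat_lit 205163983024656)) (C.cons (nat_lit 1041) (C.node (nat_lit 0) (nat_lit 6) (nat_lit 10) (C.cons (nat_lit 1089) (C.node (nat_lit 0) (nat_lit 2) (nat_lit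 4) (C.cons (nat_lit 533) (C.node (nat_lit 0) (nat_lit 2) (nat_lit 6) C.nil) (C.cons (nat_lit 85) (C.node (nat_lit 0) (nat_lit 2) (nat_lit 9) C.nil) C.nil))) C.nil)) C.nil))) (C.cons (nat_lit 41) (C.node (nat_lit 0) (nat_lit 3) (nat_lit 10) (C.cons (nat_lit 1033) (C.node (nat_lit 0) (nat_lit 2) (nat_lit 4) (C.cons (nat_lit 533) (C.node (nat_lit 0) (nat_lit 2) (nat_lit 6) C.nil) (C.cons (nat_lit 85) (C.node (nat_lit 0) (nat_lit 2) (nat_lit 9) C.nil) C.nil))) C.nil)) C.nil))) (C.cons (nat_lit 13) (C.node (nat_lit 0) (nat_lit 3) (nat_lit 10) (C.cons (nat_lit 1065) (C.node (nat_lit 0) (nat_lit 3) (nat_lit 11) (C.cons (nat_lit 2057) (C.ref (nat_lit 117) (nat_lit 205163983024656)) C.nil)) (C.cons (nat_lit 1033) (C.node (nat_lit 0) (nat_lit 3) (nat_lit 5) (C.cons (nat_lit 2089) (C.ref (nat_lit 118) (nat_lit 205163983024656)) C.nil)) C.nil))) C.nil))) (List.cons (C.node (nat_lit 0) (nat_lit 2) (nat_lit 6) (C.cons (nat_lit 1093) (C.node (nat_lit 0) (nat_lit 3) (nat_lit 5) (C.cons (nat_lit 1065)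
  (C.node (nat_lit 0) (nat_lit 4) (nat_lit 10) (C.cons (nat_lit 1041) (C.node (nat_lit 0) (nat_lit 4) (nat_lit 9) (C.cons (nat_lit 593) (C.node (nat_lit 0) (nat_lit 5) (nat_lit 9) C.nil) (C.cons (nat_lit 561) (C.node (nat_lit 0) (nat_lit 6) (nat_lit 9) C.nil) C.nil))) C.nil)) (C.cons (nat_lit 41) (C.node (nat_lit 0) (nat_lit 3) (nat_lit 10) C.nil) C.nil))) (C.cons (nat_lit 69) (C.node (nat_lit 0) (nat_lit 2) (nat_lit 10) C.nil) C.nil))) List.nil))))))))))))))))))))

theorem ok12_101 : okL par12 (nat_lit 121) c12_101 (nat_lit 101) = true := by decide +kernel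

noncomputable def c12_121 : List C :=
  (List.cons (C.node (nat_lit 0) (nat_lit 2) (nat_lit 9) (C.cons (nat_lit 581) (C.node (nat_lit 0) (nat_lit 2) (nat_lit 10) (C.cons (nat_lit 1037) (C.node (nat_lit 0) (nat_lit 2) (nat_lit 11) (C.cons (nat_lit 2053) (C.node (nat_lit 0) (nat_lit 3) (nat_lit 5) (C.cons (nat_lit 2089) (C.node (nat_lit 0) (nat_lit 4) (nat_lit 9) (C.cons (nat_lit 561) (C.pat (nat_lit 2) (nat_lit 35772339825) (nat_lit 7336997234375757356087818151084789836992938545)) (C.cons (nat_lit 529) (C.node (nat_lit 0) (nat_lit 5) (nat_lit 9) C.nil) C.nil))) (C.cons (nat_lit 41) (C.node (nat_lit 0) (nat_lit 3) (nat_lit 11) C.nil) C.nil))) C.nil)) (C.cons (nat_lit 1029) (C.node (nat_lit 0) (nat_lit 2) (nat_lit 3) (C.cons (nat_lit 2061) (C.node (nat_lit 0) (nat_lit 3) (nat_lit 5) (C.cons (nat_lit 1065) (C.node (nat_lit 0) (nat_lit 4) (nat_lit 9) (C.cons (nat_lit 561) (C.pat (nat_lit 2) (nat_lit 35772339825) (nat_lit 7336997234375757356087818151084789836992938545)) (C.cons (nat_lit 529) (C.node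 (nat_lit 0) (nat_lit 5) (nat_lit 9) C.nil) C.nil))) (C.cons (nat_lit 41) (C.node (nat_lit 0) (nat_lit 3) (nat_lit 10) C.nil) C.nil))) (C.cons (nat_lit 13) (C.node (nat_lit 0) (nat_lit 2) (nat_lit 11) C.nil) C.nil))) C.nil))) (C.cons (nat_lit 517) (C.node (nat_lit 0) (nat_lit 2) (nat_lit 3) (C.cons (nat_lit 2061) (C.ref (nat_lit 120) (nat_lit 205163983024656)) (C.cons (nat_lit 1037) (C.ref (nat_lit 120) (nat_lit 188671308608016)) (C.cons (nat_lit 13) (C.node (nat_lit 0) (nat_lit 2) (nat_lit 10) (C.cons (nat_lit 1093) (C.node (nat_lit 0) (nat_lit 2) (nat_lit 11) C.nil) C.nil)) C.nil)))) C.nil))) (List.cons (C.node (nat_lit 0) (nat_lit 2) (nat_lit 9) (C.cons (nat_lit 581) (C.node (nat_lit 0) (nat_lit 2) (nat_lit 4) (C.cons (nat_lit 1045) (C.node (nat_lit 0) (nat_lit 6) (nat_lit 10) C.nil) C.nil)) (C.cons (nat_lit 533) (C.node (nat_lit 0) (nat_lit 2) (nat_lit 6) (C.cons (nat_lit 1093) (C.node (nat_lit 0) (nat_lit 4) (nat_lit 10) C.nil) C.nil)) C.nil))) (List.cons (C.node (nat_lit 0) (nat_lit 2)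 (nat_lit 3) (C.cons (nat_lit 2061) (C.node (nat_lit 0) (nat_lit 3) (nat_lit 5) (C.cons (nat_lit 1065) (C.ref (nat_lit 122) (nat_lit 205163983024656)) C.nil)) (C.cons (nat_lit 1037) (C.node (nat_lit 0) (nat_lit 3) (nat_lit 5) (C.cons (nat_lit 2089) (C.ref (nat_lit 122) (nat_lit 188671308608016)) C.nil)) C.nil))) (List.cons (C.node (nat_lit 0) (nat_lit 1) (nat_lit 4) (C.cons (nat_lit 1043) (C.node (nat_lit 0) (nat_lit 2) (nat_lit 3) (C.cons (nat_lit 1037) (C.ref (nat_lit 103) (nat_lit 171147842040336)) (C.cons (nat_lit 13) (C.node (nat_lit 0) (nat_lit 3) (nat_lit 10) (C.cons (nat_lit 1033) (C.ref (nat_lit 116) (nat_lit 184411222053936)) C.nil)) C.nil))) (C.cons (nat_lit 19) (C.node (nat_lit 0) (nat_lit 1) (nat_lit 10) (C.cons (nat_lit 1027) (C.node (nat_lit 0) (nat_lit 2) (nat_lit 3) (C.cons (nat_lit 1037) (C.ref (nat_lit 116) (nat_lit 186609724305936)) (C.cons (nat_lit 13) (C.node (nat_lit 0) (nat_lit 3) (nat_lit 10) (C.cons (nat_lit 1033) (C.node (nat_lit 0) (nat_lit 2) (nat_lit 4) (C.cons (nat_lit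 1045) (C.node (nat_lit 0) (nat_lit 2) (nat_lit 6) (C.cons (nat_lit 2117) (C.node (nat_lit 0) (nat_lit 4) (nat_lit 5) (C.cons (nat_lit 2097) (C.pat (nat_lit 3) (nat_lit 18578807223) (nat_lit 13224530089765981040896022898738631165543124865)) C.nil)) C.nil)) (C.cons (nat_lit 2069) (C.node (nat_lit 0) (nat_lit 2) (nat_lit 6) (C.cons (nat_lit 1093) (C.node (nat_lit 0) (nat_lit 4) (nat_lit 5) (C.cons (nat_lit 1073) (C.node (nat_lit 0) (nat_lit 5) (nat_lit 6) (C.cons (nat_lit 2145) (C.pat (nat_lit 6) (nat_lit 103954413147) (nat_lit 5800703678893366348027963275827680627854446073807941)) C.nil)) C.nil)) C.nil)) C.nil))) C.nil)) C.nil))) C.nil)) C.nil))) (List.cons (C.node (nat_lit 0) (nat_lit 2) (nat_lit 4) (C.cons (nat_lit 2069) (C.node (nat_lit 0) (nat_lit 3) (nat_lit 11) (C.cons (nat_lit 2057) (C.node (nat_lit 0) (nat_lit 4) (nat_lit 5) (C.cons (nat_lit 49) (C.node (nat_lit 0) (nat_lit 2) (nat_lit 3) (C.cons (nat_lit 1037) (C.node (nat_lit 0) (nat_lit 2) (nat_lit 6) C.nil) C.nil)) C.nil)) C.nil))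
  (C.cons (nat_lit 21) (C.node (nat_lit 0) (nat_lit 3) (nat_lit 10) (C.cons (nat_lit 1037) (C.node (nat_lit 0) (nat_lit 3) (nat_lit 11) (C.cons (nat_lit 2057) (C.node (nat_lit 0) (nat_lit 2) (nat_lit 6) (C.cons (nat_lit 2117) (C.node (nat_lit 0) (nat_lit 4) (nat_lit 5) (C.cons (nat_lit 2097) (C.node (nat_lit 0) (nat_lit 5) (nat_lit 6) (C.cons (nat_lit 1121) (C.pat (nat_lit 3) (nat_lit 5471689127) (nat_lit 11574288550896625310690780730423983676225556353)) C.nil)) C.nil)) C.nil)) C.nil)) (C.cons (nat_lit 1033) (C.node (nat_lit 0) (nat_lit 2) (nat_lit 3) (C.cons (nat_lit 2061) (C.node (nat_lit 0) (nat_lit 2) (nat_lit 6) (C.cons (nat_lit 1093) (C.node (nat_lit 0) (nat_lit 5) (nat_lit 10) C.nil) C.nil)) C.nil)) C.nil))) C.nil))) (List.cons (C.node (nat_lit 0) (nat_lit 1) (nat_lit 4) (C.cons (nat_lit 1043) (C.node (nat_lit 0) (nat_lit 2) (nat_lit 3) (C.cons (nat_lit 1037) (C.ref (nat_lit 105) (nat_lit 171147842040336)) (C.cons (nat_lit 13) (C.node (nat_lit 0) (nat_lit 3) (nat_lit 10) (C.cons (nat_lit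 1033) (C.node (nat_lit 0) (nat_lit 2) (nat_lit 10) (C.cons (nat_lit 1093) (C.node (nat_lit 0) (nat_lit 5) (nat_lit 10) C.nil) C.nil)) C.nil)) C.nil))) (C.cons (nat_lit 19) (C.node (nat_lit 0) (nat_lit 1) (nat_lit 10) (C.cons (nat_lit 1027) (C.node (nat_lit 0) (nat_lit 2) (nat_lit 3) (C.cons (nat_lit 1037) (C.node (nat_lit 0) (nat_lit 2) (nat_lit 4) (C.cons (nat_lit 2069) (C.node (nat_lit 0) (nat_lit 2) (nat_lit 6) C.nil) (C.cons (nat_lit 85) (C.node (nat_lit 0) (nat_lit 2) (nat_lit 11) C.nil) C.nil))) C.nil)) C.nil)) C.nil))) (List.cons (C.node (nat_lit 0) (nat_lit 1) (nat_lit 3) (C.cons (nat_lit 2059) (C.ref (nat_lit 126) (nat_lit 205163983024656)) (C.cons (nat_lit 1035) (C.ref (nat_lit 126) (nat_lit 188671308608016)) (C.cons (nat_lit 11) (C.node (nat_lit 0) (nat_lit 1) (nat_lit 10) (C.cons (nat_lit 1043) (C.node (nat_lit 0) (nat_lit 1) (nat_lit 11) (C.cons (nat_lit 2051) (C.node (nat_lit 0) (nat_lit 3) (nat_lit 10) (C.cons (nat_lit 1037) (C.node (nat_lit 0) (nat_lit 3) (nat_lit 11) C.nil)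 C.nil)) C.nil)) (C.cons (nat_lit 1027) (C.node (nat_lit 0) (nat_lit 1) (nat_lit 4) (C.cons (nat_lit 2067) (C.node (nat_lit 0) (nat_lit 3) (nat_lit 11) (C.cons (nat_lit 2061) (C.node (nat_lit 0) (nat_lit 3) (nat_lit 10) C.nil) C.nil)) C.nil)) C.nil))) C.nil)))) (List.cons (C.node (nat_lit 0) (nat_lit 1) (nat_lit 4) (C.cons (nat_lit 1043) (C.node (nat_lit 0) (nat_lit 2) (nat_lit 3) (C.cons (nat_lit 1037) (C.node (nat_lit 0) (nat_lit 3) (nat_lit 5) (C.cons (nat_lit 41) (C.ref (nat_lit 107) (nat_lit 171147842040336)) C.nil)) (C.cons (nat_lit 13) (C.node (nat_lit 0) (nat_lit 2) (nat_lit 10) (C.cons (nat_lit 1093) (C.node (nat_lit 0) (nat_lit 2) (nat_lit 4) (C.cons (nat_lit 2069) (C.node (nat_lit 0) (nat_lit 3) (nat_lit 5) (C.cons (nat_lit 1065) (C.ref (nat_lit 90) (nat_lit 151421830115856)) (C.cons (nat_lit 41) (C.node (nat_lit 0) (nat_lit 3) (nat_lit 10) (C.cons (nat_lit 1033) (C.node (nat_lit 0) (nat_lit 5) (nat_lit 10) C.nil) C.nil)) C.nil))) (C.cons (nat_lit 21) (C.node (nat_lit 0) (nat_lit 2)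 (nat_lit 11) (C.cons (nat_lit 2053) (C.node (nat_lit 0) (nat_lit 3) (nat_lit 5) (C.cons (nat_lit 1065) (C.ref (nat_lit 94) (nat_lit 153495525466896)) C.nil)) C.nil)) C.nil))) (C.cons (nat_lit 1029) (C.node (nat_lit 0) (nat_lit 3) (nat_lit 5) (C.cons (nat_lit 1065) (C.node (nat_lit 0) (nat_lit 6) (nat_lit 10) (C.cons (nat_lit 1089) (C.ref (nat_lit 109) (nat_lit 171147842040336)) C.nil)) (C.cons (nat_lit 41) (C.node (nat_lit 0) (nat_lit 3) (nat_lit 10) C.nil) C.nil))) C.nil))) C.nil))) (C.cons (nat_lit 19) (C.node (nat_lit 0) (nat_lit 1) (nat_lit 10) (C.cons (nat_lit 1027) (C.node (nat_lit 0) (nat_lit 2) (nat_lit 3) (C.cons (nat_lit 1037) (C.node (nat_lit 0) (nat_lit 3) (nat_lit 5) (C.cons (nat_lit 41) (C.node (nat_lit 0) (nat_lit 2) (nat_lit 4) (C.cons (nat_lit 2069) (C.node (nat_lit 0) (nat_lit 2) (nat_lit 6) C.nil) (C.cons (nat_lit 85) (C.node (nat_lit 0) (nat_lit 2) (nat_lit 11) C.nil) C.nil))) C.nil)) (C.cons (nat_lit 13)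
  (C.node (nat_lit 0) (nat_lit 3) (nat_lit 5) (C.cons (nat_lit 1065) (C.ref (nat_lit 118) (nat_lit 186609724305936)) C.nil)) C.nil))) C.nil)) C.nil))) (List.cons (C.node (nat_lit 0) (nat_lit 1) (nat_lit 3) (C.cons (nat_lit 2059) (C.node (nat_lit 0) (nat_lit 1) (nat_lit 2) (C.cons (nat_lit 23) (C.node (nat_lit 0) (nat_lit 1) (nat_lit 10) (C.cons (nat_lit 1027) (C.node (nat_lit 0) (nat_lit 2) (nat_lit 11) (C.cons (nat_lit 2053) (C.node (nat_lit 0) (nat_lit 4) (nat_lit 11) (C.cons (nat_lit 2129) (C.node (nat_lit 0) (nat_lit 5) (nat_lit 11) C.nil) (C.cons (nat_lit 2097) (C.node (nat_lit 0) (nat_lit 6) (nat_lit 11) C.nil) C.nil))) C.nil)) C.nil)) (C.cons (nat_lit 7) (C.node (nat_lit 0) (nat_lit 1) (nat_lit 4) (C.cons (nat_lit 1043) (C.node (nat_lit 0) (nat_lit 2) (nat_lit 4) (C.cons (nat_lit 2069) (C.node (nat_lit 0) (nat_lit 4) (nat_lit 5) (C.cons (nat_lit 113) (C.node (nat_lit 0) (nat_lit 5) (nat_lit 10) (C.cons (nat_lit 1057) (C.node (nat_lit 0) (nat_lit 5) (nat_lit 11) C.nil) C.nil)) (C.cons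 (nat_lit 49) (C.node (nat_lit 0) (nat_lit 4) (nat_lit 6) C.nil) C.nil))) (C.cons (nat_lit 21) (C.node (nat_lit 0) (nat_lit 2) (nat_lit 11) C.nil) C.nil))) (C.cons (nat_lit 19) (C.node (nat_lit 0) (nat_lit 1) (nat_lit 10) C.nil) C.nil))) C.nil))) (C.cons (nat_lit 11) (C.node (nat_lit 0) (nat_lit 3) (nat_lit 11) (C.cons (nat_lit 2057) (C.node (nat_lit 0) (nat_lit 1) (nat_lit 10) (C.cons (nat_lit 1043) (C.node (nat_lit 0) (nat_lit 1) (nat_lit 2) (C.cons (nat_lit 2055) (C.node (nat_lit 0) (nat_lit 2) (nat_lit 4) C.nil) C.nil)) C.nil)) C.nil)) C.nil))) (List.cons (C.node (nat_lit 0) (nat_lit 3) (nat_lit 11) (C.cons (nat_lit 2061) (C.node (nat_lit 0) (nat_lit 1) (nat_lit 2) (C.cons (nat_lit 1031) (C.node (nat_lit 0) (nat_lit 1) (nat_lit 3) (C.cons (nat_lit 11) (C.node (nat_lit 0) (nat_lit 2) (nat_lit 6) (C.cons (nat_lit 69) (C.node (nat_lit 0) (nat_lit 3) (nat_lit 10) C.nil) C.nil)) C.nil)) (C.cons (nat_lit 7) (C.node (nat_lit 0) (nat_lit 1) (nat_lit 3) (C.cons (nat_lit 1035) (C.node (nat_lit 0) (nat_lit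 2) (nat_lit 6) (C.cons (nat_lit 1093) (C.node (nat_lit 0) (nat_lit 4) (nat_lit 6) (C.cons (nat_lit 113) (C.node (nat_lit 0) (nat_lit 4) (nat_lit 10) (C.cons (nat_lit 1041) (C.node (nat_lit 0) (nat_lit 5) (nat_lit 10) C.nil) C.nil)) (C.cons (nat_lit 81) (C.node (nat_lit 0) (nat_lit 4) (nat_lit 5) (C.cons (nat_lit 1073) (C.node (nat_lit 0) (nat_lit 5) (nat_lit 6) (C.cons (nat_lit 2145) (C.pat (nat_lit 3) (nat_lit 10287664039) (nat_lit 45962565765523922177734882622580729815617834881)) C.nil)) C.nil)) C.nil))) (C.cons (nat_lit 69) (C.node (nat_lit 0) (nat_lit 2) (nat_lit 10) C.nil) C.nil))) (C.cons (nat_lit 11) (C.node (nat_lit 0) (nat_lit 1) (nat_lit 10) C.nil) C.nil))) C.nil))) (C.cons (nat_lit 2057) (C.node (nat_lit 0) (nat_lit 2) (nat_lit 11) (C.cons (nat_lit 2117) (C.node (nat_lit 0) (nat_lit 5) (nat_lit 11) (C.cons (nat_lit 2081) (C.node (nat_lit 0) (nat_lit 1) (nat_lit 2) (C.cons (nat_lit 1031) (C.node (nat_lit 0) (nat_lit 1) (nat_lit 3) C.nil) (C.cons (nat_lit 15) (C.pat (nat_lit 4) (nat_lit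 380564173106) (nat_lit 5800700333258905033386521414393885537675074056945817)) C.nil))) C.nil)) (C.cons (nat_lit 2053) (C.node (nat_lit 0) (nat_lit 2) (nat_lit 6) (C.cons (nat_lit 1093) (C.node (nat_lit 0) (nat_lit 1) (nat_lit 2) (C.cons (nat_lit 15) (C.node (nat_lit 0) (nat_lit 1) (nat_lit 10) C.nil) C.nil)) C.nil)) C.nil))) C.nil))) (List.cons (C.node (nat_lit 0) (nat_lit 3) (nat_lit 10) (C.cons (nat_lit 1037) (C.node (nat_lit 0) (nat_lit 1) (nat_lit 3) (C.cons (nat_lit 2059) (C.node (nat_lit 0) (nat_lit 1) (nat_lit 2) (C.cons (nat_lit 23) (C.node (nat_lit 0) (nat_lit 1) (nat_lit 10) C.nil) C.nil)) C.nil)) (C.cons (nat_lit 1035) (C.node (nat_lit 0) (nat_lit 2) (nat_lit 3) (C.cons (nat_lit 2061) (C.node (nat_lit 0) (nat_lit 1) (nat_lit 2) (C.cons (nat_lit 23) (C.node (nat_lit 0) (nat_lit 1) (nat_lit 11) C.nil) C.nil)) C.nil)) C.nil))) (List.cons (C.node (nat_lit 0) (nat_lit 1) (nat_lit 2) (C.cons (nat_lit 1031)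
  (C.node (nat_lit 0) (nat_lit 1) (nat_lit 4) (C.cons (nat_lit 19) (C.node (nat_lit 0) (nat_lit 4) (nat_lit 10) (C.cons (nat_lit 1105) (C.ref (nat_lit 116) (nat_lit 170117049889296)) (C.cons (nat_lit 1041) (C.node (nat_lit 0) (nat_lit 6) (nat_lit 10) (C.cons (nat_lit 1089) (C.node (nat_lit 0) (nat_lit 2) (nat_lit 4) (C.cons (nat_lit 2069) (C.node (nat_lit 0) (nat_lit 2) (nat_lit 6) C.nil) (C.cons (nat_lit 85) (C.node (nat_lit 0) (nat_lit 2) (nat_lit 11) C.nil) C.nil))) C.nil)) C.nil))) C.nil)) (C.cons (nat_lit 23) (C.node (nat_lit 0) (nat_lit 1) (nat_lit 10) (C.cons (nat_lit 1027) (C.node (nat_lit 0) (nat_lit 2) (nat_lit 10) (C.cons (nat_lit 1093) (C.node (nat_lit 0) (nat_lit 2) (nat_lit 11) (C.cons (nat_lit 2053) (C.node (nat_lit 0) (nat_lit 4) (nat_lit 10) (C.cons (nat_lit 1041) (C.node (nat_lit 0) (nat_lit 4) (nat_lit 11) (C.cons (nat_lit 2129) (C.node (nat_lit 0) (nat_lit 5) (nat_lit 11) C.nil) (C.cons (nat_lit 2097) (C.node (nat_lit 0) (nat_lit 6) (nat_lit 11) C.nil) C.nil))) C.nil)) C.nil))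 (C.cons (nat_lit 1029) (C.node (nat_lit 0) (nat_lit 2) (nat_lit 6) (C.cons (nat_lit 2117) (C.node (nat_lit 0) (nat_lit 4) (nat_lit 11) (C.cons (nat_lit 2097) (C.pat (nat_lit 2) (nat_lit 35772348017) (nat_lit 7336997234375757357944728210012866846411393073)) (C.cons (nat_lit 2065) (C.node (nat_lit 0) (nat_lit 5) (nat_lit 11) C.nil) C.nil))) (C.cons (nat_lit 69) (C.node (nat_lit 0) (nat_lit 2) (nat_lit 11) C.nil) C.nil))) C.nil))) C.nil)) (C.cons (nat_lit 7) (C.node (nat_lit 0) (nat_lit 1) (nat_lit 4) (C.cons (nat_lit 1043) (C.node (nat_lit 0) (nat_lit 2) (nat_lit 10) (C.cons (nat_lit 1093) (C.node (nat_lit 0) (nat_lit 2) (nat_lit 4) (C.cons (nat_lit 2069) (C.ref (nat_lit 90) (nat_lit 151433908720176)) (C.cons (nat_lit 21) (C.node (nat_lit 0) (nat_lit 2) (nat_lit 11) (C.cons (nat_lit 2053) (C.ref (nat_lit 94) (nat_lit 153483429159216)) C.nil)) C.nil))) (C.cons (nat_lit 1029) (C.node (nat_lit 0) (nat_lit 6) (nat_lit 10) (C.cons (nat_lit 1089) (C.ref (nat_lit 109) (nat_lit 171018959589936)) C.nil))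 C.nil))) (C.cons (nat_lit 19) (C.node (nat_lit 0) (nat_lit 1) (nat_lit 10) (C.cons (nat_lit 1027) (C.ref (nat_lit 122) (nat_lit 170117049889296)) C.nil)) C.nil))) C.nil)))) (List.cons (C.node (nat_lit 0) (nat_lit 1) (nat_lit 2) (C.cons (nat_lit 1031) (C.node (nat_lit 0) (nat_lit 1) (nat_lit 4) (C.cons (nat_lit 19) (C.node (nat_lit 0) (nat_lit 2) (nat_lit 4) (C.cons (nat_lit 2069) (C.node (nat_lit 0) (nat_lit 2) (nat_lit 6) C.nil) (C.cons (nat_lit 85) (C.node (nat_lit 0) (nat_lit 2) (nat_lit 11) C.nil) C.nil))) C.nil)) (C.cons (nat_lit 23) (C.node (nat_lit 0) (nat_lit 1) (nat_lit 10) (C.cons (nat_lit 1027) (C.node (nat_lit 0) (nat_lit 2) (nat_lit 10) (C.cons (nat_lit 1093) (C.node (nat_lit 0) (nat_lit 2) (nat_lit 11) C.nil) C.nil)) C.nil)) (C.cons (nat_lit 7) (C.node (nat_lit 0) (nat_lit 1) (nat_lit 4) (C.cons (nat_lit 1043) (C.node (nat_lit 0) (nat_lit 2) (nat_lit 10) (C.cons (nat_lit 1093) (C.node (nat_lit 0) (nat_lit 5) (nat_lit 10) C.nil) C.nil)) C.nil)) C.nil)))) (List.cons (C.node (nat_lit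 0) (nat_lit 1) (nat_lit 10) (C.cons (nat_lit 1043) (C.node (nat_lit 0) (nat_lit 1) (nat_lit 2) (C.cons (nat_lit 2055) (C.node (nat_lit 0) (nat_lit 2) (nat_lit 4) (C.cons (nat_lit 85) (C.node (nat_lit 0) (nat_lit 2) (nat_lit 10) (C.cons (nat_lit 1029) (C.node (nat_lit 0) (nat_lit 6) (nat_lit 10) C.nil) C.nil)) (C.cons (nat_lit 21) (C.node (nat_lit 0) (nat_lit 2) (nat_lit 6) (C.cons (nat_lit 1093) (C.node (nat_lit 0) (nat_lit 5) (nat_lit 11) (C.cons (nat_lit 2145) (C.node (nat_lit 0) (nat_lit 4) (nat_lit 11) C.nil) (C.cons (nat_lit 2097) (C.node (nat_lit 0) (nat_lit 6) (nat_lit 11) C.nil) C.nil))) C.nil)) C.nil))) (C.cons (nat_lit 7) (C.node (nat_lit 0) (nat_lit 1) (nat_lit 11) C.nil) C.nil))) (C.cons (nat_lit 1031) (C.node (nat_lit 0) (nat_lit 1) (nat_lit 4) (C.cons (nat_lit 2067) (C.node (nat_lit 0) (nat_lit 2) (nat_lit 4) (C.cons (nat_lit 85) (C.node (nat_lit 0) (nat_lit 2) (nat_lit 11) (C.cons (nat_lit 2053)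
  (C.node (nat_lit 0) (nat_lit 4) (nat_lit 10) C.nil) C.nil)) (C.cons (nat_lit 21) (C.node (nat_lit 0) (nat_lit 2) (nat_lit 6) (C.cons (nat_lit 2117) (C.node (nat_lit 0) (nat_lit 5) (nat_lit 11) C.nil) C.nil)) C.nil))) (C.cons (nat_lit 19) (C.node (nat_lit 0) (nat_lit 1) (nat_lit 11) C.nil) C.nil))) (C.cons (nat_lit 1027) (C.node (nat_lit 0) (nat_lit 1) (nat_lit 2) (C.cons (nat_lit 2055) (C.node (nat_lit 0) (nat_lit 1) (nat_lit 4) C.nil) (C.cons (nat_lit 23) (C.node (nat_lit 0) (nat_lit 1) (nat_lit 11) C.nil) C.nil))) C.nil)))) (List.cons (C.node (nat_lit 0) (nat_lit 1) (nat_lit 11) (C.cons (nat_lit 2055) (C.node (nat_lit 0) (nat_lit 1) (nat_lit 3) (C.cons (nat_lit 1035) (C.node (nat_lit 0) (nat_lit 1) (nat_lit 4) (C.cons (nat_lit 19) (C.node (nat_lit 0) (nat_lit 2) (nat_lit 3) (C.cons (nat_lit 13) (C.node (nat_lit 0) (nat_lit 4) (nat_lit 2) (C.cons (nat_lit 1045) (C.pat (nat_lit 6) (nat_lit 103954347610) (nat_lit 5800703678544911887388939149577693270500886160933445)) C.nil)) C.nil)) C.nil))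 (C.cons (nat_lit 11) (C.node (nat_lit 0) (nat_lit 1) (nat_lit 4) (C.cons (nat_lit 1043) (C.node (nat_lit 0) (nat_lit 2) (nat_lit 4) (C.cons (nat_lit 21) (C.node (nat_lit 0) (nat_lit 2) (nat_lit 3) (C.cons (nat_lit 1037) (C.pat (nat_lit 3) (nat_lit 5471689639) (nat_lit 45828755849555253019426433799536952557732958081)) C.nil)) C.nil)) (C.cons (nat_lit 19) (C.node (nat_lit 0) (nat_lit 1) (nat_lit 10) C.nil) C.nil))) C.nil))) (C.cons (nat_lit 2051) (C.node (nat_lit 0) (nat_lit 2) (nat_lit 11) (C.cons (nat_lit 2053) (C.ref (nat_lit 104) (nat_lit 205099490173776)) C.nil)) C.nil))) (List.cons (C.node (nat_lit 0) (nat_lit 5) (nat_lit 6) (C.cons (nat_lit 1121) (C.node (nat_lit 0) (nat_lit 4) (nat_lit 6) (C.cons (nat_lit 2129) (C.ref (nat_lit 135) (nat_lit 205163983024656)) (C.cons (nat_lit 81) (C.node (nat_lit 0) (nat_lit 6) (nat_lit 11) (C.cons (nat_lit 2113) (C.ref (nat_lit 106) (nat_lit 205099490173776)) C.nil)) C.nil))) (C.cons (nat_lit 97) (C.node (nat_lit 0) (nat_lit 5) (nat_lit 10) (C.cons (nat_lit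 1057) (C.node (nat_lit 0) (nat_lit 6) (nat_lit 10) (C.cons (nat_lit 1105) (C.node (nat_lit 0) (nat_lit 6) (nat_lit 11) C.nil) C.nil)) C.nil)) C.nil))) (List.cons (C.node (nat_lit 0) (nat_lit 4) (nat_lit 5) (C.cons (nat_lit 1073) (C.node (nat_lit 0) (nat_lit 4) (nat_lit 6) (C.cons (nat_lit 81) (C.node (nat_lit 0) (nat_lit 3) (nat_lit 5) (C.cons (nat_lit 2089) (C.node (nat_lit 0) (nat_lit 2) (nat_lit 11) (C.cons (nat_lit 2117) (C.node (nat_lit 0) (nat_lit 6) (nat_lit 10) (C.cons (nat_lit 1089) (C.ref (nat_lit 89) (nat_lit 152400240403536)) C.nil)) (C.cons (nat_lit 2053) (C.node (nat_lit 0) (nat_lit 6) (nat_lit 11) C.nil) C.nil))) (C.cons (nat_lit 41) (C.node (nat_lit 0) (nat_lit 5) (nat_lit 11) C.nil) C.nil))) C.nil)) (C.cons (nat_lit 49) (C.node (nat_lit 0) (nat_lit 4) (nat_lit 6) (C.cons (nat_lit 1105) (C.node (nat_lit 0) (nat_lit 2) (nat_lit 6) (C.cons (nat_lit 2117) (C.node (nat_lit 0) (nat_lit 3) (nat_lit 11) (C.cons (nat_lit 2089) (C.node (nat_lit 0) (nat_lit 5) (nat_lit 10) (C.cons (nat_lit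 1057) (C.ref (nat_lit 89) (nat_lit 152384132306016)) C.nil)) (C.cons (nat_lit 2057) (C.node (nat_lit 0) (nat_lit 5) (nat_lit 11) C.nil) C.nil))) (C.cons (nat_lit 69) (C.node (nat_lit 0) (nat_lit 6) (nat_lit 11) C.nil) C.nil))) (C.cons (nat_lit 81) (C.node (nat_lit 0) (nat_lit 4) (nat_lit 10) C.nil) C.nil))) C.nil))) (List.cons (C.node (nat_lit 0) (nat_lit 1) (nat_lit 4) (C.cons (nat_lit 2067) (C.node (nat_lit 0) (nat_lit 1) (nat_lit 2) (C.cons (nat_lit 1031) (C.node (nat_lit 0) (nat_lit 1) (nat_lit 3) C.nil) (C.cons (nat_lit 15) (C.node (nat_lit 0) (nat_lit 1) (nat_lit 10) C.nil) C.nil))) (C.cons (nat_lit 1043) (C.node (nat_lit 0) (nat_lit 1) (nat_lit 2) (C.cons (nat_lit 2055) (C.node (nat_lit 0) (nat_lit 1) (nat_lit 3) C.nil) (C.cons (nat_lit 15) (C.node (nat_lit 0) (nat_lit 1) (nat_lit 11) C.nil) C.nil))) C.nil))) (List.cons (C.node (nat_lit 0) (nat_lit 1) (nat_lit 3) (C.cons (nat_lit 1035) (C.node (nat_lit 0) (nat_lit 2) (nat_lit 3)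
  (C.cons (nat_lit 13) (C.node (nat_lit 0) (nat_lit 1) (nat_lit 2) (C.cons (nat_lit 2055) (C.node (nat_lit 0) (nat_lit 1) (nat_lit 4) C.nil) (C.cons (nat_lit 23) (C.node (nat_lit 0) (nat_lit 1) (nat_lit 11) C.nil) C.nil))) C.nil)) (C.cons (nat_lit 15) (C.node (nat_lit 0) (nat_lit 3) (nat_lit 10) (C.cons (nat_lit 1033) (C.node (nat_lit 0) (nat_lit 1) (nat_lit 10) (C.cons (nat_lit 1043) (C.node (nat_lit 0) (nat_lit 1) (nat_lit 11) C.nil) C.nil)) C.nil)) (C.cons (nat_lit 11) (C.node (nat_lit 0) (nat_lit 2) (nat_lit 3) (C.cons (nat_lit 1037) (C.node (nat_lit 0) (nat_lit 1) (nat_lit 10) (C.cons (nat_lit 1043) (C.node (nat_lit 0) (nat_lit 1) (nat_lit 2) (C.cons (nat_lit 2055) (C.node (nat_lit 0) (nat_lit 2) (nat_lit 4) (C.cons (nat_lit 85) (C.node (nat_lit 0) (nat_lit 4) (nat_lit 11) C.nil) C.nil)) C.nil)) C.nil)) C.nil)) C.nil)))) List.nil)))))))))))))))))))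

theorem ok12_121 : okL par12 (nat_lit 140) c12_121 (nat_lit 121) = true := by decide +kernel

noncomputable def c12_140 : List C :=
  (List.cons (C.node (nat_lit 0) (nat_lit 1) (nat_lit 9) (C.cons (nat_lit 531) (C.node (nat_lit 0) (nat_lit 1) (nat_lit 10) (C.cons (nat_lit 1035) (C.node (nat_lit 0) (nat_lit 1) (nat_lit 2) (C.cons (nat_lit 2055) (C.ref (nat_lit 110) (nat_lit 205163983024656)) (C.cons (nat_lit 7) (C.node (nat_lit 0) (nat_lit 1) (nat_lit 11) (C.cons (nat_lit 2051) (C.ref (nat_lit 112) (nat_lit 205163983024656)) C.nil)) C.nil))) (C.cons (nat_lit 1031) (C.node (nat_lit 0) (nat_lit 1) (nat_lit 3) (C.cons (nat_lit 2059) (C.ref (nat_lit 110) (nat_lit 188671308608016)) (C.cons (nat_lit 11) (C.node (nat_lit 0) (nat_lit 1) (nat_lit 11) (C.cons (nat_lit 2051) (C.ref (nat_lit 115) (nat_lit 205163983024656)) C.nil)) C.nil))) (C.cons (nat_lit 1027) (C.node (nat_lit 0) (nat_lit 1) (nat_lit 2) (C.cons (nat_lit 2055) (C.node (nat_lit 0) (nat_lit 1) (nat_lit 3) (C.cons (nat_lit 11) (C.ref (nat_lit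 115) (nat_lit 188671308608016)) C.nil)) (C.cons (nat_lit 15) (C.node (nat_lit 0) (nat_lit 1) (nat_lit 11) (C.cons (nat_lit 2051) (C.node (nat_lit 0) (nat_lit 2) (nat_lit 9) (C.cons (nat_lit 581) (C.node (nat_lit 0) (nat_lit 2) (nat_lit 10) (C.cons (nat_lit 1045) (C.node (nat_lit 0) (nat_lit 2) (nat_lit 11) (C.cons (nat_lit 2053) (C.node (nat_lit 0) (nat_lit 3) (nat_lit 9) (C.cons (nat_lit 553) (C.pat (nat_lit 1) (nat_lit 2556908321) (nat_lit 1511272842646404691096145684095893833)) (C.cons (nat_lit 521) (C.node (nat_lit 0) (nat_lit 5) (nat_lit 9) C.nil) C.nil))) C.nil)) (C.cons (nat_lit 1029) (C.node (nat_lit 0) (nat_lit 2) (nat_lit 4) (C.cons (nat_lit 2069) (C.node (nat_lit 0) (nat_lit 3) (nat_lit 9) (C.cons (nat_lit 553) (C.pat (nat_lit 1) (nat_lit 2556908321) (nat_lit 1511272842646404691096145684095893833)) (C.cons (nat_lit 521) (C.node (nat_lit 0) (nat_lit 5) (nat_lit 9) C.nil) C.nil))) (C.cons (nat_lit 21) (C.node (nat_lit 0) (nat_lit 2) (nat_lit 11) C.nil) C.nil))) C.nil))) (C.cons (nat_lit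 517) (C.node (nat_lit 0) (nat_lit 3) (nat_lit 9) (C.cons (nat_lit 553) (C.node (nat_lit 0) (nat_lit 3) (nat_lit 10) (C.cons (nat_lit 1033) (C.node (nat_lit 0) (nat_lit 3) (nat_lit 11) C.nil) C.nil)) (C.cons (nat_lit 521) (C.node (nat_lit 0) (nat_lit 3) (nat_lit 10) (C.cons (nat_lit 1065) (C.node (nat_lit 0) (nat_lit 3) (nat_lit 11) C.nil) C.nil)) C.nil))) C.nil))) C.nil)) (C.cons (nat_lit 7) (C.node (nat_lit 0) (nat_lit 1) (nat_lit 3) (C.cons (nat_lit 2059) (C.ref (nat_lit 112) (nat_lit 188671308608016)) (C.cons (nat_lit 11) (C.node (nat_lit 0) (nat_lit 1) (nat_lit 11) (C.cons (nat_lit 2051) (C.node (nat_lit 0) (nat_lit 2) (nat_lit 9) (C.cons (nat_lit 581) (C.node (nat_lit 0) (nat_lit 3) (nat_lit 9) (C.cons (nat_lit 553) (C.node (nat_lit 0) (nat_lit 3) (nat_lit 10) (C.cons (nat_lit 1037) (C.node (nat_lit 0) (nat_lit 3) (nat_lit 11) C.nil) C.nil)) C.nil)) (C.cons (nat_lit 525) (C.node (nat_lit 0) (nat_lit 3) (nat_lit 10) (C.cons (nat_lit 1065) (C.node (nat_lit 0) (nat_lit 3) (nat_lit 11) C.nil)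 C.nil)) C.nil))) C.nil)) C.nil))) C.nil)))) C.nil)))) (C.cons (nat_lit 523) (C.node (nat_lit 0) (nat_lit 1) (nat_lit 10) (C.cons (nat_lit 1043) (C.node (nat_lit 0) (nat_lit 1) (nat_lit 2) (C.cons (nat_lit 2055) (C.ref (nat_lit 110) (nat_lit 204133190873616)) (C.cons (nat_lit 7) (C.node (nat_lit 0) (nat_lit 1) (nat_lit 11) (C.cons (nat_lit 2051) (C.ref (nat_lit 112) (nat_lit 204133190873616)) C.nil)) C.nil))) (C.cons (nat_lit 1031) (C.node (nat_lit 0) (nat_lit 1) (nat_lit 4) (C.cons (nat_lit 2067) (C.ref (nat_lit 110) (nat_lit 186609724305936)) (C.cons (nat_lit 19) (C.node (nat_lit 0) (nat_lit 1) (nat_lit 11) (C.cons (nat_lit 2051) (C.ref (nat_lit 119) (nat_lit 205163983024656)) C.nil)) C.nil))) (C.cons (nat_lit 1027) (C.node (nat_lit 0) (nat_lit 1) (nat_lit 2) (C.cons (nat_lit 2055) (C.node (nat_lit 0) (nat_lit 1) (nat_lit 4) (C.cons (nat_lit 19) (C.ref (nat_lit 119) (nat_lit 188671308608016)) C.nil)) (C.cons (nat_lit 23) (C.node (nat_lit 0) (nat_lit 1) (nat_lit 11) (C.cons (nat_lit 2051) (C.ref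 (nat_lit 121) (nat_lit 205163983024656)) C.nil)) (C.cons (nat_lit 7)
  (C.node (nat_lit 0) (nat_lit 1) (nat_lit 4) (C.cons (nat_lit 2067) (C.ref (nat_lit 112) (nat_lit 186609724305936)) (C.cons (nat_lit 19) (C.node (nat_lit 0) (nat_lit 1) (nat_lit 11) (C.cons (nat_lit 2051) (C.ref (nat_lit 123) (nat_lit 205163983024656)) C.nil)) C.nil))) C.nil)))) C.nil)))) (C.cons (nat_lit 519) (C.node (nat_lit 0) (nat_lit 3) (nat_lit 9) (C.cons (nat_lit 553) (C.node (nat_lit 0) (nat_lit 4) (nat_lit 9) (C.cons (nat_lit 593) (C.node (nat_lit 0) (nat_lit 1) (nat_lit 3) (C.cons (nat_lit 2059) (C.ref (nat_lit 124) (nat_lit 205163983024656)) (C.cons (nat_lit 1035) (C.ref (nat_lit 124) (nat_lit 188671308608016)) (C.cons (nat_lit 11) (C.node (nat_lit 0) (nat_lit 1) (nat_lit 10) (C.cons (nat_lit 1043) (C.node (nat_lit 0) (nat_lit 1) (nat_lit 11) (C.cons (nat_lit 2051) (C.ref (nat_lit 125) (nat_lit 205163983024656)) C.nil)) (C.cons (nat_lit 1027) (C.node (nat_lit 0) (nat_lit 1) (nat_lit 4) (C.cons (nat_lit 2067) (C.ref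 (nat_lit 125) (nat_lit 188671308608016)) (C.cons (nat_lit 19) (C.node (nat_lit 0) (nat_lit 1) (nat_lit 11) (C.cons (nat_lit 2051) (C.node (nat_lit 0) (nat_lit 3) (nat_lit 10) (C.cons (nat_lit 1037) (C.node (nat_lit 0) (nat_lit 3) (nat_lit 11) C.nil) C.nil)) C.nil)) C.nil))) C.nil))) C.nil)))) (C.cons (nat_lit 529) (C.node (nat_lit 0) (nat_lit 6) (nat_lit 9) (C.cons (nat_lit 577) (C.ref (nat_lit 127) (nat_lit 205163983024656)) C.nil)) C.nil))) (C.cons (nat_lit 521) (C.node (nat_lit 0) (nat_lit 1) (nat_lit 3) (C.cons (nat_lit 2059) (C.ref (nat_lit 128) (nat_lit 205163983024656)) (C.cons (nat_lit 1035) (C.ref (nat_lit 128) (nat_lit 188671308608016)) (C.cons (nat_lit 11) (C.node (nat_lit 0) (nat_lit 1) (nat_lit 10) (C.cons (nat_lit 1043) (C.node (nat_lit 0) (nat_lit 1) (nat_lit 11) (C.cons (nat_lit 2051) (C.ref (nat_lit 114) (nat_lit 204133190873616)) C.nil)) (C.cons (nat_lit 1027) (C.node (nat_lit 0) (nat_lit 1) (nat_lit 4) (C.cons (nat_lit 2067) (C.ref (nat_lit 114) (nat_lit 186609724305936))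 (C.cons (nat_lit 19) (C.node (nat_lit 0) (nat_lit 1) (nat_lit 11) C.nil) C.nil))) C.nil))) C.nil)))) C.nil))) (C.cons (nat_lit 515) (C.node (nat_lit 0) (nat_lit 3) (nat_lit 9) (C.cons (nat_lit 553) (C.node (nat_lit 0) (nat_lit 2) (nat_lit 9) (C.cons (nat_lit 581) (C.node (nat_lit 0) (nat_lit 4) (nat_lit 9) (C.cons (nat_lit 529) (C.node (nat_lit 0) (nat_lit 3) (nat_lit 10) (C.cons (nat_lit 1037) (C.ref (nat_lit 129) (nat_lit 205163983024656)) (C.cons (nat_lit 1035) (C.ref (nat_lit 129) (nat_lit 205099542786336)) (C.cons (nat_lit 1033) (C.node (nat_lit 0) (nat_lit 1) (nat_lit 3) (C.cons (nat_lit 2059) (C.node (nat_lit 0) (nat_lit 2) (nat_lit 3) (C.cons (nat_lit 13) (C.node (nat_lit 0) (nat_lit 2) (nat_lit 11) (C.cons (nat_lit 2069) (C.node (nat_lit 0) (nat_lit 2) (nat_lit 1) (C.cons (nat_lit 1031) (C.node (nat_lit 0) (nat_lit 1) (nat_lit 4) C.nil) C.nil)) C.nil)) C.nil)) (C.cons (nat_lit 15) (C.pat (nat_lit 1) (nat_lit 2556908321) (nat_lit 1511272842646404691096145684095893833)) (C.cons (nat_lit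 11) (C.node (nat_lit 0) (nat_lit 2) (nat_lit 3) (C.cons (nat_lit 2061) (C.node (nat_lit 0) (nat_lit 1) (nat_lit 11) (C.cons (nat_lit 2067) (C.node (nat_lit 0) (nat_lit 1) (nat_lit 2) (C.cons (nat_lit 1031) (C.node (nat_lit 0) (nat_lit 2) (nat_lit 4) C.nil) C.nil)) C.nil)) C.nil)) C.nil)))) C.nil)))) C.nil)) (C.cons (nat_lit 533) (C.node (nat_lit 0) (nat_lit 6) (nat_lit 9) (C.cons (nat_lit 577) (C.node (nat_lit 0) (nat_lit 1) (nat_lit 4) (C.cons (nat_lit 2067) (C.ref (nat_lit 130) (nat_lit 205163983024656)) (C.cons (nat_lit 1043) (C.ref (nat_lit 130) (nat_lit 188671308608016)) (C.cons (nat_lit 19) (C.node (nat_lit 0) (nat_lit 1) (nat_lit 10) (C.cons (nat_lit 1035) (C.node (nat_lit 0) (nat_lit 1) (nat_lit 2) (C.cons (nat_lit 2055) (C.node (nat_lit 0) (nat_lit 2) (nat_lit 3) (C.cons (nat_lit 13) (C.node (nat_lit 0) (nat_lit 3) (nat_lit 11) C.nil) C.nil)) (C.cons (nat_lit 7) (C.node (nat_lit 0) (nat_lit 1) (nat_lit 11) C.nil) C.nil))) (C.cons (nat_lit 1031) (C.node (nat_lit 0) (nat_lit 3) (nat_lit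 10) (C.cons (nat_lit 1033)
  (C.node (nat_lit 0) (nat_lit 1) (nat_lit 3) (C.cons (nat_lit 2059) (C.node (nat_lit 0) (nat_lit 2) (nat_lit 3) C.nil) C.nil)) C.nil)) (C.cons (nat_lit 1027) (C.node (nat_lit 0) (nat_lit 3) (nat_lit 10) (C.cons (nat_lit 1037) (C.node (nat_lit 0) (nat_lit 1) (nat_lit 2) (C.cons (nat_lit 2055) (C.node (nat_lit 0) (nat_lit 1) (nat_lit 3) C.nil) C.nil)) C.nil)) C.nil)))) C.nil)))) C.nil)) (C.cons (nat_lit 517) (C.node (nat_lit 0) (nat_lit 4) (nat_lit 9) (C.cons (nat_lit 593) (C.ref (nat_lit 127) (nat_lit 205163896919136)) (C.cons (nat_lit 529) (C.node (nat_lit 0) (nat_lit 6) (nat_lit 9) (C.cons (nat_lit 577) (C.ref (nat_lit 131) (nat_lit 205163983024656)) C.nil)) C.nil))) C.nil)))) (C.cons (nat_lit 525) (C.node (nat_lit 0) (nat_lit 1) (nat_lit 3) (C.cons (nat_lit 2059) (C.node (nat_lit 0) (nat_lit 3) (nat_lit 5) (C.cons (nat_lit 1065) (C.ref (nat_lit 132) (nat_lit 205163983024656)) (C.cons (nat_lit 41) (C.node (nat_lit 0) (nat_lit 3) (nat_lit 10) (C.cons (nat_lit 1033)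 (C.ref (nat_lit 133) (nat_lit 205163983024656)) C.nil)) C.nil))) (C.cons (nat_lit 1035) (C.node (nat_lit 0) (nat_lit 3) (nat_lit 5) (C.cons (nat_lit 2089) (C.ref (nat_lit 132) (nat_lit 188671308608016)) (C.cons (nat_lit 41) (C.node (nat_lit 0) (nat_lit 3) (nat_lit 11) (C.cons (nat_lit 2057) (C.ref (nat_lit 133) (nat_lit 188671308608016)) C.nil)) C.nil))) (C.cons (nat_lit 11) (C.node (nat_lit 0) (nat_lit 3) (nat_lit 10) (C.cons (nat_lit 1065) (C.node (nat_lit 0) (nat_lit 3) (nat_lit 11) (C.cons (nat_lit 2057) (C.ref (nat_lit 134) (nat_lit 205163983024656)) C.nil)) (C.cons (nat_lit 1033) (C.node (nat_lit 0) (nat_lit 3) (nat_lit 5) (C.cons (nat_lit 2089) (C.ref (nat_lit 134) (nat_lit 188671308608016)) (C.cons (nat_lit 41) (C.node (nat_lit 0) (nat_lit 3) (nat_lit 11) C.nil) C.nil))) C.nil))) C.nil)))) (C.cons (nat_lit 521) (C.node (nat_lit 0) (nat_lit 2) (nat_lit 9) (C.cons (nat_lit 581) (C.node (nat_lit 0) (nat_lit 4) (nat_lit 9) (C.cons (nat_lit 561) (C.node (nat_lit 0) (nat_lit 3) (nat_lit 5)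 (C.cons (nat_lit 2089) (C.ref (nat_lit 136) (nat_lit 205163983024656)) (C.cons (nat_lit 1065) (C.ref (nat_lit 136) (nat_lit 188671308608016)) (C.cons (nat_lit 41) (C.node (nat_lit 0) (nat_lit 5) (nat_lit 10) (C.cons (nat_lit 1121) (C.node (nat_lit 0) (nat_lit 5) (nat_lit 11) (C.cons (nat_lit 2081) (C.node (nat_lit 0) (nat_lit 4) (nat_lit 6) (C.cons (nat_lit 2129) (C.ref (nat_lit 106) (nat_lit 205163896919136)) C.nil)) C.nil)) (C.cons (nat_lit 1057) (C.node (nat_lit 0) (nat_lit 5) (nat_lit 6) (C.cons (nat_lit 2145) (C.node (nat_lit 0) (nat_lit 4) (nat_lit 6) (C.cons (nat_lit 1105) (C.ref (nat_lit 106) (nat_lit 188671222502496)) C.nil)) C.nil)) C.nil))) C.nil)))) (C.cons (nat_lit 529) (C.node (nat_lit 0) (nat_lit 5) (nat_lit 9) (C.cons (nat_lit 545) (C.node (nat_lit 0) (nat_lit 3) (nat_lit 5) (C.cons (nat_lit 2089) (C.node (nat_lit 0) (nat_lit 6) (nat_lit 11) (C.cons (nat_lit 2129) (C.node (nat_lit 0) (nat_lit 1) (nat_lit 11) (C.cons (nat_lit 2055) (C.node (nat_lit 0) (nat_lit 1) (nat_lit 3) (C.cons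 (nat_lit 1035) (C.node (nat_lit 0) (nat_lit 1) (nat_lit 4) C.nil) C.nil)) C.nil)) C.nil)) (C.cons (nat_lit 1065) (C.node (nat_lit 0) (nat_lit 6) (nat_lit 10) (C.cons (nat_lit 1105) (C.node (nat_lit 0) (nat_lit 1) (nat_lit 10) (C.cons (nat_lit 1031) (C.node (nat_lit 0) (nat_lit 1) (nat_lit 3) (C.cons (nat_lit 2059) (C.node (nat_lit 0) (nat_lit 1) (nat_lit 4) C.nil) C.nil)) C.nil)) C.nil)) C.nil))) C.nil)) C.nil))) (C.cons (nat_lit 533) (C.node (nat_lit 0) (nat_lit 5) (nat_lit 9) (C.cons (nat_lit 609) (C.node (nat_lit 0) (nat_lit 1) (nat_lit 4) (C.cons (nat_lit 2067) (C.ref (nat_lit 137) (nat_lit 205163983024656)) (C.cons (nat_lit 1043) (C.ref (nat_lit 137) (nat_lit 188671308608016)) (C.cons (nat_lit 19) (C.node (nat_lit 0) (nat_lit 1) (nat_lit 10) (C.cons (nat_lit 1035) (C.node (nat_lit 0) (nat_lit 1) (nat_lit 2) (C.cons (nat_lit 2055) (C.node (nat_lit 0) (nat_lit 2) (nat_lit 3) (C.cons (nat_lit 13) (C.node (nat_lit 0) (nat_lit 2) (nat_lit 6) (C.cons (nat_lit 1093)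
  (C.node (nat_lit 0) (nat_lit 3) (nat_lit 5) (C.cons (nat_lit 2089) (C.node (nat_lit 0) (nat_lit 4) (nat_lit 5) (C.cons (nat_lit 1073) (C.node (nat_lit 0) (nat_lit 4) (nat_lit 6) (C.cons (nat_lit 2129) (C.pat (nat_lit 3) (nat_lit 18578807719) (nat_lit 47478997383107615636853578980088744538343149441)) C.nil)) C.nil)) C.nil)) C.nil)) C.nil)) (C.cons (nat_lit 7) (C.node (nat_lit 0) (nat_lit 1) (nat_lit 11) C.nil) C.nil))) (C.cons (nat_lit 1031) (C.node (nat_lit 0) (nat_lit 1) (nat_lit 3) (C.cons (nat_lit 2059) (C.node (nat_lit 0) (nat_lit 2) (nat_lit 3) (C.cons (nat_lit 13) (C.node (nat_lit 0) (nat_lit 2) (nat_lit 6) (C.cons (nat_lit 2117) (C.node (nat_lit 0) (nat_lit 3) (nat_lit 5) (C.cons (nat_lit 1065) (C.node (nat_lit 0) (nat_lit 4) (nat_lit 5) (C.cons (nat_lit 2097) (C.node (nat_lit 0) (nat_lit 4) (nat_lit 6) (C.cons (nat_lit 1105) (C.pat (nat_lit 3) (nat_lit 18578807479) (nat_lit 24642685855985523610474573921776287459378925441)) C.nil)) C.nil)) C.nil)) C.nil)) C.nil)) (C.cons (nat_lit 11)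 (C.node (nat_lit 0) (nat_lit 1) (nat_lit 11) C.nil) C.nil))) (C.cons (nat_lit 1027) (C.node (nat_lit 0) (nat_lit 1) (nat_lit 2) (C.cons (nat_lit 2055) (C.node (nat_lit 0) (nat_lit 1) (nat_lit 3) C.nil) (C.cons (nat_lit 15) (C.node (nat_lit 0) (nat_lit 1) (nat_lit 11) C.nil) C.nil))) C.nil)))) C.nil)))) (C.cons (nat_lit 545) (C.node (nat_lit 0) (nat_lit 6) (nat_lit 9) (C.cons (nat_lit 577) (C.ref (nat_lit 138) (nat_lit 205163983024656)) C.nil)) C.nil))) (C.cons (nat_lit 517) (C.node (nat_lit 0) (nat_lit 3) (nat_lit 5) (C.cons (nat_lit 2089) (C.ref (nat_lit 139) (nat_lit 205163983024656)) (C.cons (nat_lit 1065) (C.ref (nat_lit 139) (nat_lit 188671308608016)) (C.cons (nat_lit 41) (C.node (nat_lit 0) (nat_lit 3) (nat_lit 10) (C.cons (nat_lit 1037) (C.node (nat_lit 0) (nat_lit 1) (nat_lit 3) (C.cons (nat_lit 2059) (C.node (nat_lit 0) (nat_lit 1) (nat_lit 2) (C.cons (nat_lit 23) (C.node (nat_lit 0) (nat_lit 1) (nat_lit 10) C.nil) C.nil)) C.nil)) (C.cons (nat_lit 1035) (C.node (nat_lit 0) (nat_lit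 2) (nat_lit 3) (C.cons (nat_lit 2061) (C.node (nat_lit 0) (nat_lit 1) (nat_lit 2) (C.cons (nat_lit 23) (C.node (nat_lit 0) (nat_lit 1) (nat_lit 11) C.nil) C.nil)) C.nil)) C.nil))) C.nil)))) C.nil)))) C.nil)))) C.nil))))) (List.cons (C.node (nat_lit 0) (nat_lit 2) (nat_lit 8) (C.cons (nat_lit 277) (C.node (nat_lit 0) (nat_lit 1) (nat_lit 4) (C.cons (nat_lit 2067) (C.ref (nat_lit 99) (nat_lit 205163983024656)) (C.cons (nat_lit 1043) (C.ref (nat_lit 99) (nat_lit 188671308608016)) (C.cons (nat_lit 531) (C.ref (nat_lit 99) (nat_lit 171147842040336)) (C.cons (nat_lit 19) (C.node (nat_lit 0) (nat_lit 1) (nat_lit 9) (C.cons (nat_lit 523) (C.node (nat_lit 0) (nat_lit 1) (nat_lit 10) (C.cons (nat_lit 1031) (C.node (nat_lit 0) (nat_lit 1) (nat_lit 11) (C.cons (nat_lit 2051) (C.ref (nat_lit 100) (nat_lit 205163983024656)) C.nil)) (C.cons (nat_lit 1027) (C.ref (nat_lit 102) (nat_lit 205163983024656)) C.nil))) (C.cons (nat_lit 519) (C.node (nat_lit 0) (nat_lit 1) (nat_lit 10) (C.cons (nat_lit 1035) (C.node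 (nat_lit 0) (nat_lit 1) (nat_lit 11) (C.cons (nat_lit 2051) (C.ref (nat_lit 100) (nat_lit 205159940760336)) C.nil)) (C.cons (nat_lit 1027) (C.ref (nat_lit 102) (nat_lit 205159940760336)) C.nil))) (C.cons (nat_lit 515) (C.node (nat_lit 0) (nat_lit 1) (nat_lit 10) (C.cons (nat_lit 1035) (C.ref (nat_lit 102) (nat_lit 204133190873616)) (C.cons (nat_lit 1031) (C.ref (nat_lit 102) (nat_lit 204129148609296)) (C.cons (nat_lit 1027) (C.node (nat_lit 0) (nat_lit 1) (nat_lit 2) (C.cons (nat_lit 2055) (C.node (nat_lit 0) (nat_lit 1) (nat_lit 3) (C.cons (nat_lit 11) (C.ref (nat_lit 101) (nat_lit 186605682041616)) C.nil)) (C.cons (nat_lit 15) (C.node (nat_lit 0) (nat_lit 1) (nat_lit 11) (C.cons (nat_lit 2051) (C.node (nat_lit 0) (nat_lit 2) (nat_lit 9) (C.cons (nat_lit 581) (C.node (nat_lit 0) (nat_lit 2) (nat_lit 10) (C.cons (nat_lit 1029) (C.node (nat_lit 0) (nat_lit 2) (nat_lit 11) (C.cons (nat_lit 2053) (C.node (nat_lit 0) (nat_lit 3) (nat_lit 10) (C.cons (nat_lit 1065)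
  (C.node (nat_lit 0) (nat_lit 3) (nat_lit 11) C.nil) C.nil)) C.nil)) C.nil)) (C.cons (nat_lit 517) (C.node (nat_lit 0) (nat_lit 2) (nat_lit 10) (C.cons (nat_lit 1093) (C.node (nat_lit 0) (nat_lit 2) (nat_lit 11) (C.cons (nat_lit 2053) (C.node (nat_lit 0) (nat_lit 3) (nat_lit 9) (C.cons (nat_lit 553) (C.node (nat_lit 0) (nat_lit 3) (nat_lit 11) C.nil) C.nil)) C.nil)) (C.cons (nat_lit 1029) (C.node (nat_lit 0) (nat_lit 2) (nat_lit 6) (C.cons (nat_lit 2117) (C.node (nat_lit 0) (nat_lit 3) (nat_lit 9) (C.cons (nat_lit 553) (C.node (nat_lit 0) (nat_lit 3) (nat_lit 10) C.nil) C.nil)) C.nil)) C.nil))) C.nil))) C.nil)) (C.cons (nat_lit 7) (C.node (nat_lit 0) (nat_lit 1) (nat_lit 3) (C.cons (nat_lit 2059) (C.ref (nat_lit 101) (nat_lit 186609724305936)) (C.cons (nat_lit 11) (C.node (nat_lit 0) (nat_lit 1) (nat_lit 11) (C.cons (nat_lit 2051) (C.node (nat_lit 0) (nat_lit 2) (nat_lit 9) (C.cons (nat_lit 581) (C.node (nat_lit 0) (nat_lit 2) (nat_lit 10) (C.cons (nat_lit 1037) (C.node (nat_lit 0) (nat_lit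 2) (nat_lit 11) C.nil) C.nil)) (C.cons (nat_lit 525) (C.node (nat_lit 0) (nat_lit 2) (nat_lit 10) (C.cons (nat_lit 1093) (C.node (nat_lit 0) (nat_lit 2) (nat_lit 11) C.nil) C.nil)) C.nil))) C.nil)) C.nil))) C.nil)))) C.nil)))) C.nil)))) C.nil))))) (C.cons (nat_lit 261) (C.node (nat_lit 0) (nat_lit 4) (nat_lit 8) (C.cons (nat_lit 273) (C.ref (nat_lit 140) (nat_lit 205163983024656)) C.nil)) C.nil))) (List.cons (C.node (nat_lit 0) (nat_lit 3) (nat_lit 5) (C.cons (nat_lit 2089) (C.node (nat_lit 0) (nat_lit 3) (nat_lit 6) (C.cons (nat_lit 73) (C.node (nat_lit 0) (nat_lit 4) (nat_lit 5) (C.cons (nat_lit 49) (C.node (nat_lit 0) (nat_lit 4) (nat_lit 6) (C.cons (nat_lit 2129) (C.pat (nat_lit 3) (nat_lit 5471689623) (nat_lit 45828755846896756463037385305655524803379269505)) C.nil)) C.nil)) C.nil)) (C.cons (nat_lit 41) (C.node (nat_lit 0) (nat_lit 3) (nat_lit 6) (C.cons (nat_lit 2121) (C.node (nat_lit 0) (nat_lit 4) (nat_lit 6) (C.cons (nat_lit 81) (C.node (nat_lit 0) (nat_lit 4) (nat_lit 5) (C.cons (nat_lit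 2097) (C.ref (nat_lit 91) (nat_lit 205099557344016)) C.nil)) C.nil)) (C.cons (nat_lit 73) (C.node (nat_lit 0) (nat_lit 3) (nat_lit 11) C.nil) C.nil))) C.nil))) (List.cons (C.node (nat_lit 0) (nat_lit 3) (nat_lit 5) (C.cons (nat_lit 2089) (C.node (nat_lit 0) (nat_lit 3) (nat_lit 6) (C.cons (nat_lit 73) (C.node (nat_lit 0) (nat_lit 4) (nat_lit 5) (C.cons (nat_lit 1073) (C.node (nat_lit 0) (nat_lit 6) (nat_lit 10) (C.cons (nat_lit 1089) (C.node (nat_lit 0) (nat_lit 4) (nat_lit 6) (C.cons (nat_lit 2129) (C.pat (nat_lit 3) (nat_lit 5471689623) (nat_lit 45828755846896756463037385305655524803379269505)) C.nil)) C.nil)) (C.cons (nat_lit 49) (C.node (nat_lit 0) (nat_lit 5) (nat_lit 10) C.nil) C.nil))) C.nil)) (C.cons (nat_lit 41) (C.node (nat_lit 0) (nat_lit 3) (nat_lit 6) (C.cons (nat_lit 2121) (C.node (nat_lit 0) (nat_lit 4) (nat_lit 6) (C.cons (nat_lit 1105) (C.pat (nat_lit 6) (nat_lit 378549212695) (nat_lit 5800711840314118161004948004298019353306216477688913)) (C.cons (nat_lit 81) (C.node (nat_lit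 0) (nat_lit 6) (nat_lit 10) C.nil) C.nil))) (C.cons (nat_lit 73) (C.node (nat_lit 0) (nat_lit 3) (nat_lit 11) C.nil) C.nil))) C.nil))) (List.cons (C.node (nat_lit 0) (nat_lit 3) (nat_lit 5) (C.cons (nat_lit 2089) (C.node (nat_lit 0) (nat_lit 3) (nat_lit 6) (C.cons (nat_lit 1097) (C.node (nat_lit 0) (nat_lit 4) (nat_lit 5) (C.cons (nat_lit 1073) (C.node (nat_lit 0) (nat_lit 4) (nat_lit 6) (C.cons (nat_lit 2129) (C.pat (nat_lit 3) (nat_lit 5471689623) (nat_lit 45828755846896756463037385305655524803379269505)) C.nil)) C.nil)) C.nil)) (C.cons (nat_lit 1065) (C.node (nat_lit 0) (nat_lit 3) (nat_lit 6) (C.cons (nat_lit 2121) (C.node (nat_lit 0) (nat_lit 4) (nat_lit 5) (C.cons (nat_lit 2097) (C.node (nat_lit 0) (nat_lit 4) (nat_lit 6) (C.cons (nat_lit 1105) (C.ref (nat_lit 91) (nat_lit 169923708326736)) C.nil)) C.nil)) C.nil)) C.nil))) (List.cons (C.node (nat_lit 0) (nat_lit 1) (nat_lit 3) (C.cons (nat_lit 1035) (C.node (nat_lit 0) (nat_lit 2) (nat_lit 4)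
  (C.cons (nat_lit 1045) (C.node (nat_lit 0) (nat_lit 5) (nat_lit 10) (C.cons (nat_lit 1057) (C.node (nat_lit 0) (nat_lit 6) (nat_lit 10) (C.cons (nat_lit 1089) (C.ref (nat_lit 142) (nat_lit 205163983024656)) C.nil)) C.nil)) (C.cons (nat_lit 21) (C.node (nat_lit 0) (nat_lit 2) (nat_lit 10) (C.cons (nat_lit 1029) (C.ref (nat_lit 143) (nat_lit 205163983024656)) C.nil)) C.nil))) (C.cons (nat_lit 11) (C.node (nat_lit 0) (nat_lit 1) (nat_lit 10) (C.cons (nat_lit 1027) (C.node (nat_lit 0) (nat_lit 2) (nat_lit 4) (C.cons (nat_lit 1045) (C.ref (nat_lit 143) (nat_lit 205163967234336)) (C.cons (nat_lit 21) (C.node (nat_lit 0) (nat_lit 2) (nat_lit 10) (C.cons (nat_lit 1029) (C.ref (nat_lit 144) (nat_lit 205163983024656)) C.nil)) C.nil))) C.nil)) C.nil))) (List.cons (C.node (nat_lit 0) (nat_lit 2) (nat_lit 10) (C.cons (nat_lit 1045) (C.node (nat_lit 0) (nat_lit 2) (nat_lit 11) (C.cons (nat_lit 2053) (C.node (nat_lit 0) (nat_lit 5) (nat_lit 10) (C.cons (nat_lit 1057) (C.node (nat_lit 0) (nat_lit 6) (nat_lit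 10) C.nil) C.nil)) C.nil)) (C.cons (nat_lit 1029) (C.node (nat_lit 0) (nat_lit 2) (nat_lit 4) (C.cons (nat_lit 2069) (C.node (nat_lit 0) (nat_lit 3) (nat_lit 5) (C.cons (nat_lit 2089) (C.pat (nat_lit 6) (nat_lit 447016047911) (nat_lit 5800711706509647125587421194706642424259716938270761)) (C.cons (nat_lit 41) (C.node (nat_lit 0) (nat_lit 5) (nat_lit 11) C.nil) C.nil))) (C.cons (nat_lit 21) (C.node (nat_lit 0) (nat_lit 2) (nat_lit 11) C.nil) C.nil))) C.nil))) (List.cons (C.node (nat_lit 0) (nat_lit 5) (nat_lit 10) (C.cons (nat_lit 1121) (C.ref (nat_lit 142) (nat_lit 204133190812176)) (C.cons (nat_lit 1057) (C.node (nat_lit 0) (nat_lit 6) (nat_lit 10) (C.cons (nat_lit 1089) (C.node (nat_lit 0) (nat_lit 3) (nat_lit 5) (C.cons (nat_lit 2089) (C.node (nat_lit 0) (nat_lit 3) (nat_lit 6) C.nil) (C.cons (nat_lit 105) (C.node (nat_lit 0) (nat_lit 3) (nat_lit 11) C.nil) C.nil))) C.nil)) C.nil))) (List.cons (C.node (nat_lit 0) (nat_lit 3) (nat_lit 5) (C.cons (nat_lit 2089) (C.node (nat_lit 0) (nat_lit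 3) (nat_lit 6) C.nil) (C.cons (nat_lit 105) (C.node (nat_lit 0) (nat_lit 3) (nat_lit 11) C.nil) C.nil))) (List.cons (C.node (nat_lit 0) (nat_lit 1) (nat_lit 3) (C.cons (nat_lit 1035) (C.node (nat_lit 0) (nat_lit 2) (nat_lit 4) (C.cons (nat_lit 1045) (C.ref (nat_lit 147) (nat_lit 205163983024656)) (C.cons (nat_lit 21) (C.node (nat_lit 0) (nat_lit 2) (nat_lit 10) (C.cons (nat_lit 1029) (C.ref (nat_lit 148) (nat_lit 205163983024656)) C.nil)) C.nil))) (C.cons (nat_lit 11) (C.node (nat_lit 0) (nat_lit 1) (nat_lit 10) (C.cons (nat_lit 1027) (C.node (nat_lit 0) (nat_lit 2) (nat_lit 4) (C.cons (nat_lit 1045) (C.ref (nat_lit 148) (nat_lit 205163967234336)) C.nil)) C.nil)) C.nil))) List.nil))))))))))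

theorem ok12_140 : okL par12 (nat_lit 150) c12_140 (nat_lit 140) = true := by decide +kernel

noncomputable def c12_150 : List C :=
  (List.cons (C.node (nat_lit 0) (nat_lit 1) (nat_lit 2) (C.cons (nat_lit 2055) (C.ref (nat_lit 149) (nat_lit 205163983024656)) (C.cons (nat_lit 1031) (C.ref (nat_lit 149) (nat_lit 188671308608016)) (C.cons (nat_lit 7) (C.node (nat_lit 0) (nat_lit 1) (nat_lit 10) (C.cons (nat_lit 1035) (C.node (nat_lit 0) (nat_lit 1) (nat_lit 11) (C.cons (nat_lit 2051) (C.node (nat_lit 0) (nat_lit 2) (nat_lit 10) (C.cons (nat_lit 1045) (C.node (nat_lit 0) (nat_lit 2) (nat_lit 11) C.nil) C.nil)) C.nil)) (C.cons (nat_lit 1027) (C.node (nat_lit 0) (nat_lit 1) (nat_lit 3) (C.cons (nat_lit 2059) (C.node (nat_lit 0) (nat_lit 2) (nat_lit 11) (C.cons (nat_lit 2069) (C.node (nat_lit 0) (nat_lit 2) (nat_lit 10) C.nil) C.nil)) C.nil)) C.nil))) C.nil)))) (List.cons (C.node (nat_lit 0) (nat_lit 5) (nat_lit 10) (C.cons (nat_lit 1121) (C.ref (nat_lit 143) (nat_lit 204133190812176)) (C.cons (nat_lit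 1057) (C.node (nat_lit 0) (nat_lit 6) (nat_lit 10) (C.cons (nat_lit 1089) (C.ref (nat_lit 148) (nat_lit 204133190812176)) C.nil)) C.nil))) (List.cons (C.node (nat_lit 0) (nat_lit 2) (nat_lit 3) (C.cons (nat_lit 13) (C.node (nat_lit 0) (nat_lit 2) (nat_lit 4) (C.cons (nat_lit 1045) (C.ref (nat_lit 151) (nat_lit 205163983024656)) (C.cons (nat_lit 21) (C.node (nat_lit 0) (nat_lit 2) (nat_lit 10) (C.cons (nat_lit 1029) (C.node (nat_lit 0) (nat_lit 3) (nat_lit 9) (C.cons (nat_lit 585) (C.node (nat_lit 0) (nat_lit 5) (nat_lit 9) C.nil) (C.cons (nat_lit 553) (C.node (nat_lit 0) (nat_lit 6) (nat_lit 9) C.nil) C.nil))) C.nil)) C.nil))) C.nil)) (List.cons (C.node (nat_lit 0) (nat_lit 2) (nat_lit 3) (C.cons (nat_lit 2061) (C.node (nat_lit 0) (nat_lit 2) (nat_lit 4) (C.cons (nat_lit 1045) (C.node (nat_lit 0) (nat_lit 5) (nat_lit 10) (C.cons (nat_lit 1121) (C.node (nat_lit 0) (nat_lit 3) (nat_lit 6) (C.cons (nat_lit 585) (C.pat (nat_lit 6) (nat_lit 378564879895) (nat_lit 5800723079889698220439011338309620933137555219743305))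 (C.cons (nat_lit 73) (C.node (nat_lit 0) (nat_lit 6) (nat_lit 9) C.nil) C.nil))) (C.cons (nat_lit 1057) (C.node (nat_lit 0) (nat_lit 6) (nat_lit 10) C.nil) C.nil))) (C.cons (nat_lit 21) (C.node (nat_lit 0) (nat_lit 2) (nat_lit 10) C.nil) C.nil))) (C.cons (nat_lit 13) (C.node (nat_lit 0) (nat_lit 2) (nat_lit 10) (C.cons (nat_lit 1045) (C.node (nat_lit 0) (nat_lit 2) (nat_lit 11) C.nil) C.nil)) C.nil))) (List.cons (C.node (nat_lit 0) (nat_lit 2) (nat_lit 3) (C.cons (nat_lit 2061) (C.node (nat_lit 0) (nat_lit 2) (nat_lit 4) (C.cons (nat_lit 21) (C.node (nat_lit 0) (nat_lit 3) (nat_lit 9) (C.cons (nat_lit 585) (C.node (nat_lit 0) (nat_lit 5) (nat_lit 9) C.nil) (C.cons (nat_lit 553) (C.node (nat_lit 0) (nat_lit 6) (nat_lit 9) C.nil) C.nil))) C.nil)) (C.cons (nat_lit 13) (C.node (nat_lit 0) (nat_lit 2) (nat_lit 4) (C.cons (nat_lit 2069) (C.node (nat_lit 0) (nat_lit 3) (nat_lit 9) (C.cons (nat_lit 585) (C.node (nat_lit 0) (nat_lit 5) (nat_lit 9) C.nil) (C.cons (nat_lit 553) (C.node (nat_lit 0) (nat_lit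 6) (nat_lit 9) C.nil) C.nil))) C.nil)) C.nil))) (List.cons (C.node (nat_lit 0) (nat_lit 1) (nat_lit 10) (C.cons (nat_lit 1035) (C.node (nat_lit 0) (nat_lit 1) (nat_lit 2) (C.cons (nat_lit 2055) (C.ref (nat_lit 152) (nat_lit 205163983024656)) (C.cons (nat_lit 7) (C.node (nat_lit 0) (nat_lit 1) (nat_lit 11) (C.cons (nat_lit 2051) (C.ref (nat_lit 153) (nat_lit 205163983024656)) C.nil)) C.nil))) (C.cons (nat_lit 1031) (C.node (nat_lit 0) (nat_lit 1) (nat_lit 3) (C.cons (nat_lit 2059) (C.ref (nat_lit 152) (nat_lit 188671308608016)) (C.cons (nat_lit 11) (C.node (nat_lit 0) (nat_lit 1) (nat_lit 11) (C.cons (nat_lit 2051) (C.ref (nat_lit 154) (nat_lit 205163983024656)) C.nil)) C.nil))) (C.cons (nat_lit 1027) (C.node (nat_lit 0) (nat_lit 1) (nat_lit 2) (C.cons (nat_lit 2055) (C.node (nat_lit 0) (nat_lit 1) (nat_lit 3) (C.cons (nat_lit 11) (C.ref (nat_lit 154) (nat_lit 188671308608016)) C.nil)) (C.cons (nat_lit 15) (C.node (nat_lit 0) (nat_lit 1) (nat_lit 11) (C.cons (nat_lit 2051) (C.node (nat_lit 0)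 (nat_lit 2) (nat_lit 10) (C.cons (nat_lit 1045)
  (C.node (nat_lit 0) (nat_lit 2) (nat_lit 11) (C.cons (nat_lit 2053) (C.node (nat_lit 0) (nat_lit 3) (nat_lit 9) (C.cons (nat_lit 585) (C.node (nat_lit 0) (nat_lit 5) (nat_lit 9) C.nil) (C.cons (nat_lit 553) (C.node (nat_lit 0) (nat_lit 6) (nat_lit 9) C.nil) C.nil))) C.nil)) (C.cons (nat_lit 1029) (C.node (nat_lit 0) (nat_lit 2) (nat_lit 4) (C.cons (nat_lit 2069) (C.node (nat_lit 0) (nat_lit 3) (nat_lit 9) (C.cons (nat_lit 585) (C.node (nat_lit 0) (nat_lit 5) (nat_lit 9) C.nil) (C.cons (nat_lit 553) (C.node (nat_lit 0) (nat_lit 6) (nat_lit 9) C.nil) C.nil))) C.nil)) C.nil))) C.nil)) (C.cons (nat_lit 7) (C.node (nat_lit 0) (nat_lit 1) (nat_lit 3) (C.cons (nat_lit 2059) (C.ref (nat_lit 153) (nat_lit 188671308608016)) (C.cons (nat_lit 11) (C.node (nat_lit 0) (nat_lit 1) (nat_lit 11) C.nil) C.nil))) C.nil)))) C.nil)))) (List.cons (C.node (nat_lit 0) (nat_lit 2) (nat_lit 9) (C.cons (nat_lit 525) (C.node (nat_lit 0) (nat_lit 5) (nat_lit 9) (C.cons (nat_lit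 609) (C.node (nat_lit 0) (nat_lit 1) (nat_lit 2) (C.cons (nat_lit 2055) (C.ref (nat_lit 145) (nat_lit 205163983024656)) (C.cons (nat_lit 1031) (C.ref (nat_lit 145) (nat_lit 188671308608016)) (C.cons (nat_lit 7) (C.node (nat_lit 0) (nat_lit 1) (nat_lit 10) (C.cons (nat_lit 1035) (C.node (nat_lit 0) (nat_lit 1) (nat_lit 11) (C.cons (nat_lit 2051) (C.ref (nat_lit 146) (nat_lit 205163983024656)) C.nil)) (C.cons (nat_lit 1027) (C.node (nat_lit 0) (nat_lit 1) (nat_lit 3) (C.cons (nat_lit 2059) (C.ref (nat_lit 146) (nat_lit 188671308608016)) (C.cons (nat_lit 11) (C.node (nat_lit 0) (nat_lit 1) (nat_lit 11) (C.cons (nat_lit 2051) (C.node (nat_lit 0) (nat_lit 2) (nat_lit 10) (C.cons (nat_lit 1045) (C.node (nat_lit 0) (nat_lit 2) (nat_lit 11) C.nil) C.nil)) C.nil)) C.nil))) C.nil))) C.nil)))) (C.cons (nat_lit 545) (C.node (nat_lit 0) (nat_lit 6) (nat_lit 9) (C.cons (nat_lit 577) (C.ref (nat_lit 150) (nat_lit 205163983024656)) C.nil)) C.nil))) (C.cons (nat_lit 517) (C.ref (nat_lit 155) (nat_lit 205163983024656))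 C.nil))) (List.cons (C.node (nat_lit 0) (nat_lit 2) (nat_lit 3) (C.cons (nat_lit 1037) (C.node (nat_lit 0) (nat_lit 2) (nat_lit 4) (C.cons (nat_lit 2069) (C.ref (nat_lit 151) (nat_lit 171147826250016)) (C.cons (nat_lit 21) (C.node (nat_lit 0) (nat_lit 2) (nat_lit 11) (C.cons (nat_lit 2053) (C.node (nat_lit 0) (nat_lit 4) (nat_lit 11) (C.cons (nat_lit 2129) (C.node (nat_lit 0) (nat_lit 5) (nat_lit 11) C.nil) (C.cons (nat_lit 2097) (C.node (nat_lit 0) (nat_lit 6) (nat_lit 11) C.nil) C.nil))) C.nil)) C.nil))) (C.cons (nat_lit 13) (C.node (nat_lit 0) (nat_lit 2) (nat_lit 10) (C.cons (nat_lit 1045) (C.node (nat_lit 0) (nat_lit 2) (nat_lit 11) (C.cons (nat_lit 2053) (C.node (nat_lit 0) (nat_lit 3) (nat_lit 10) (C.cons (nat_lit 1065) (C.node (nat_lit 0) (nat_lit 6) (nat_lit 10) C.nil) (C.cons (nat_lit 1097) (C.node (nat_lit 0) (nat_lit 5) (nat_lit 10) C.nil) C.nil))) C.nil)) (C.cons (nat_lit 1029) (C.node (nat_lit 0) (nat_lit 2) (nat_lit 4) (C.cons (nat_lit 2069) (C.node (nat_lit 0) (nat_lit 5) (nat_lit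 11) (C.cons (nat_lit 2145) (C.ref (nat_lit 144) (nat_lit 170117049827856)) C.nil)) C.nil)) C.nil))) C.nil))) (List.cons (C.node (nat_lit 0) (nat_lit 1) (nat_lit 4) (C.cons (nat_lit 1043) (C.node (nat_lit 0) (nat_lit 2) (nat_lit 3) (C.cons (nat_lit 1037) (C.node (nat_lit 0) (nat_lit 2) (nat_lit 4) (C.cons (nat_lit 2069) (C.node (nat_lit 0) (nat_lit 5) (nat_lit 10) (C.cons (nat_lit 1121) (C.node (nat_lit 0) (nat_lit 5) (nat_lit 11) (C.cons (nat_lit 2081) (C.node (nat_lit 0) (nat_lit 6) (nat_lit 11) (C.cons (nat_lit 2113) (C.ref (nat_lit 142) (nat_lit 171147842040336)) C.nil)) C.nil)) (C.cons (nat_lit 1057) (C.node (nat_lit 0) (nat_lit 6) (nat_lit 10) (C.cons (nat_lit 1089) (C.ref (nat_lit 147) (nat_lit 171147842040336)) C.nil)) C.nil))) (C.cons (nat_lit 21) (C.node (nat_lit 0) (nat_lit 2) (nat_lit 11) (C.cons (nat_lit 2053) (C.ref (nat_lit 151) (nat_lit 170117049827856)) C.nil)) C.nil))) (C.cons (nat_lit 13) (C.node (nat_lit 0) (nat_lit 2) (nat_lit 10) (C.cons (nat_lit 1029)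
  (C.node (nat_lit 0) (nat_lit 2) (nat_lit 4) (C.cons (nat_lit 2069) (C.ref (nat_lit 151) (nat_lit 171147842040336)) (C.cons (nat_lit 21) (C.node (nat_lit 0) (nat_lit 2) (nat_lit 11) (C.cons (nat_lit 2053) (C.node (nat_lit 0) (nat_lit 3) (nat_lit 10) (C.cons (nat_lit 1097) (C.node (nat_lit 0) (nat_lit 5) (nat_lit 10) C.nil) (C.cons (nat_lit 1065) (C.node (nat_lit 0) (nat_lit 6) (nat_lit 10) C.nil) C.nil))) C.nil)) C.nil))) C.nil)) C.nil))) (C.cons (nat_lit 19) (C.node (nat_lit 0) (nat_lit 1) (nat_lit 10) (C.cons (nat_lit 1027) (C.ref (nat_lit 157) (nat_lit 205163983024656)) C.nil)) C.nil))) (List.cons (C.node (nat_lit 0) (nat_lit 2) (nat_lit 3) (C.cons (nat_lit 2061) (C.node (nat_lit 0) (nat_lit 2) (nat_lit 4) (C.cons (nat_lit 1045) (C.node (nat_lit 0) (nat_lit 3) (nat_lit 10) (C.cons (nat_lit 1065) (C.node (nat_lit 0) (nat_lit 6) (nat_lit 10) C.nil) (C.cons (nat_lit 1097) (C.node (nat_lit 0) (nat_lit 5) (nat_lit 10) C.nil) C.nil))) C.nil)) (C.cons (nat_lit 1037) (C.node (nat_lit 0) (nat_lit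 2) (nat_lit 4) (C.cons (nat_lit 2069) (C.node (nat_lit 0) (nat_lit 3) (nat_lit 11) (C.cons (nat_lit 2089) (C.node (nat_lit 0) (nat_lit 6) (nat_lit 11) C.nil) (C.cons (nat_lit 2121) (C.node (nat_lit 0) (nat_lit 5) (nat_lit 11) C.nil) C.nil))) C.nil)) C.nil))) (List.cons (C.node (nat_lit 0) (nat_lit 5) (nat_lit 9) (C.cons (nat_lit 545) (C.node (nat_lit 0) (nat_lit 3) (nat_lit 5) (C.cons (nat_lit 2089) (C.node (nat_lit 0) (nat_lit 6) (nat_lit 11) (C.cons (nat_lit 2129) (C.node (nat_lit 0) (nat_lit 1) (nat_lit 11) (C.cons (nat_lit 2055) (C.node (nat_lit 0) (nat_lit 1) (nat_lit 3) (C.cons (nat_lit 1035) (C.node (nat_lit 0) (nat_lit 1) (nat_lit 4) C.nil) C.nil)) C.nil)) C.nil)) (C.cons (nat_lit 1065) (C.node (nat_lit 0) (nat_lit 6) (nat_lit 10) (C.cons (nat_lit 1105) (C.node (nat_lit 0) (nat_lit 1) (nat_lit 10) (C.cons (nat_lit 1031) (C.node (nat_lit 0) (nat_lit 1) (nat_lit 3) (C.cons (nat_lit 2059) (C.node (nat_lit 0) (nat_lit 1) (nat_lit 4) C.nil) C.nil)) C.nil)) C.nil)) C.nil))) C.nil)) (List.cons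 (C.node (nat_lit 0) (nat_lit 2) (nat_lit 3) (C.cons (nat_lit 525) (C.node (nat_lit 0) (nat_lit 5) (nat_lit 9) (C.cons (nat_lit 609) (C.node (nat_lit 0) (nat_lit 3) (nat_lit 5) (C.cons (nat_lit 2089) (C.node (nat_lit 0) (nat_lit 3) (nat_lit 6) (C.cons (nat_lit 73) (C.node (nat_lit 0) (nat_lit 4) (nat_lit 5) (C.cons (nat_lit 1073) (C.node (nat_lit 0) (nat_lit 2) (nat_lit 4) (C.cons (nat_lit 85) (C.pat (nat_lit 2) (nat_lit 47583761778) (nat_lit 46586308783945422990980609602825028075079926291)) (C.cons (nat_lit 21) (C.node (nat_lit 0) (nat_lit 2) (nat_lit 6) (C.cons (nat_lit 1093) (C.pat (nat_lit 3) (nat_lit 17504283287) (nat_lit 23929051793030279685331840562424166689532088193)) C.nil)) C.nil))) (C.cons (nat_lit 49) (C.node (nat_lit 0) (nat_lit 5) (nat_lit 10) C.nil) C.nil))) C.nil)) (C.cons (nat_lit 41) (C.node (nat_lit 0) (nat_lit 3) (nat_lit 6) (C.cons (nat_lit 2121) (C.node (nat_lit 0) (nat_lit 4) (nat_lit 11) (C.cons (nat_lit 2097) (C.node (nat_lit 0) (nat_lit 5) (nat_lit 10) (C.cons (nat_lit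 1057) (C.node (nat_lit 0) (nat_lit 2) (nat_lit 4) (C.cons (nat_lit 1045) (C.node (nat_lit 0) (nat_lit 2) (nat_lit 6) C.nil) (C.cons (nat_lit 85) (C.pat (nat_lit 1) (nat_lit 1500924705) (nat_lit 2757157882068743875424915474399694721)) C.nil))) C.nil)) (C.cons (nat_lit 2065) (C.node (nat_lit 0) (nat_lit 5) (nat_lit 11) C.nil) C.nil))) (C.cons (nat_lit 73) (C.node (nat_lit 0) (nat_lit 3) (nat_lit 11) C.nil) C.nil))) C.nil))) (C.cons (nat_lit 545) (C.node (nat_lit 0) (nat_lit 6) (nat_lit 9) (C.cons (nat_lit 577) (C.node (nat_lit 0) (nat_lit 2) (nat_lit 4) (C.cons (nat_lit 1045) (C.node (nat_lit 0) (nat_lit 2) (nat_lit 6) C.nil) (C.cons (nat_lit 85) (C.node (nat_lit 0) (nat_lit 2) (nat_lit 10) C.nil) C.nil))) C.nil)) C.nil))) (C.cons (nat_lit 77) (C.node (nat_lit 0) (nat_lit 2) (nat_lit 9) (C.cons (nat_lit 517) (C.node (nat_lit 0) (nat_lit 2) (nat_lit 4) (C.cons (nat_lit 1045) (C.node (nat_lit 0) (nat_lit 3) (nat_lit 9) (C.cons (nat_lit 553)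
  (C.node (nat_lit 0) (nat_lit 3) (nat_lit 11) (C.cons (nat_lit 2057) (C.node (nat_lit 0) (nat_lit 6) (nat_lit 9) C.nil) C.nil)) (C.cons (nat_lit 521) (C.node (nat_lit 0) (nat_lit 3) (nat_lit 5) (C.cons (nat_lit 2089) (C.node (nat_lit 0) (nat_lit 4) (nat_lit 5) (C.cons (nat_lit 113) (C.pat (nat_lit 2) (nat_lit 20054111794) (nat_lit 2520695062672497626171882244587746828300914561)) C.nil)) C.nil)) C.nil))) (C.cons (nat_lit 21) (C.node (nat_lit 0) (nat_lit 2) (nat_lit 10) C.nil) C.nil))) C.nil)) (C.cons (nat_lit 13) (C.node (nat_lit 0) (nat_lit 2) (nat_lit 9) (C.cons (nat_lit 581) (C.node (nat_lit 0) (nat_lit 2) (nat_lit 4) (C.cons (nat_lit 1045) (C.node (nat_lit 0) (nat_lit 3) (nat_lit 9) (C.cons (nat_lit 553) (C.node (nat_lit 0) (nat_lit 3) (nat_lit 6) (C.cons (nat_lit 2121) (C.node (nat_lit 0) (nat_lit 4) (nat_lit 6) (C.cons (nat_lit 113) (C.pat (nat_lit 2) (nat_lit 43588621172) (nat_lit 23081337636397787973393664699229199936851083845)) (C.cons (nat_lit 81) (C.node (nat_lit 0) (nat_lit 4) (nat_lit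 5) (C.cons (nat_lit 2097) (C.pat (nat_lit 3) (nat_lit 14300617623) (nat_lit 47300594141078271087971673973568697965129961345)) C.nil)) C.nil))) (C.cons (nat_lit 73) (C.node (nat_lit 0) (nat_lit 3) (nat_lit 11) C.nil) C.nil))) (C.cons (nat_lit 521) (C.node (nat_lit 0) (nat_lit 5) (nat_lit 9) C.nil) C.nil))) (C.cons (nat_lit 21) (C.node (nat_lit 0) (nat_lit 2) (nat_lit 10) C.nil) C.nil))) (C.cons (nat_lit 517) (C.node (nat_lit 0) (nat_lit 2) (nat_lit 4) (C.cons (nat_lit 1045) (C.node (nat_lit 0) (nat_lit 2) (nat_lit 6) C.nil) (C.cons (nat_lit 85) (C.node (nat_lit 0) (nat_lit 2) (nat_lit 10) C.nil) C.nil))) C.nil))) C.nil)))) (List.cons (C.node (nat_lit 0) (nat_lit 2) (nat_lit 9) (C.cons (nat_lit 581) (C.node (nat_lit 0) (nat_lit 2) (nat_lit 3) (C.cons (nat_lit 2061) (C.node (nat_lit 0) (nat_lit 2) (nat_lit 4) (C.cons (nat_lit 1045) (C.node (nat_lit 0) (nat_lit 3) (nat_lit 6) (C.cons (nat_lit 105) (C.node (nat_lit 0) (nat_lit 3) (nat_lit 9) C.nil) C.nil)) C.nil)) C.nil)) (C.cons (nat_lit 525) (C.node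 (nat_lit 0) (nat_lit 5) (nat_lit 9) (C.cons (nat_lit 609) (C.node (nat_lit 0) (nat_lit 3) (nat_lit 5) (C.cons (nat_lit 2089) (C.node (nat_lit 0) (nat_lit 3) (nat_lit 6) C.nil) C.nil)) C.nil)) C.nil))) (List.cons (C.node (nat_lit 0) (nat_lit 2) (nat_lit 4) (C.cons (nat_lit 2069) (C.node (nat_lit 0) (nat_lit 2) (nat_lit 3) (C.cons (nat_lit 525) (C.node (nat_lit 0) (nat_lit 2) (nat_lit 6) C.nil) (C.cons (nat_lit 77) (C.node (nat_lit 0) (nat_lit 2) (nat_lit 9) C.nil) C.nil))) (C.cons (nat_lit 85) (C.node (nat_lit 0) (nat_lit 2) (nat_lit 9) (C.cons (nat_lit 525) (C.node (nat_lit 0) (nat_lit 2) (nat_lit 11) C.nil) C.nil)) C.nil))) (List.cons (C.node (nat_lit 0) (nat_lit 1) (nat_lit 3) (C.cons (nat_lit 2059) (C.ref (nat_lit 161) (nat_lit 188671308608016)) (C.cons (nat_lit 11) (C.node (nat_lit 0) (nat_lit 1) (nat_lit 11) (C.cons (nat_lit 2051) (C.ref (nat_lit 163) (nat_lit 205163983024656)) C.nil)) C.nil))) (List.cons (C.node (nat_lit 0) (nat_lit 1) (nat_lit 2) (C.cons (nat_lit 2055) (C.node (nat_lit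 0) (nat_lit 1) (nat_lit 3) (C.cons (nat_lit 11) (C.ref (nat_lit 163) (nat_lit 188671308608016)) C.nil)) (C.cons (nat_lit 15) (C.node (nat_lit 0) (nat_lit 1) (nat_lit 11) (C.cons (nat_lit 2051) (C.node (nat_lit 0) (nat_lit 2) (nat_lit 9) (C.cons (nat_lit 581) (C.node (nat_lit 0) (nat_lit 2) (nat_lit 10) (C.cons (nat_lit 1045) (C.node (nat_lit 0) (nat_lit 2) (nat_lit 11) C.nil) C.nil)) C.nil)) C.nil)) (C.cons (nat_lit 7) (C.node (nat_lit 0) (nat_lit 1) (nat_lit 3) (C.cons (nat_lit 2059) (C.ref (nat_lit 162) (nat_lit 188671308608016)) C.nil)) C.nil)))) (List.cons (C.node (nat_lit 0) (nat_lit 1) (nat_lit 10) (C.cons (nat_lit 1035) (C.node (nat_lit 0) (nat_lit 1) (nat_lit 2) (C.cons (nat_lit 2055) (C.ref (nat_lit 161) (nat_lit 205163983024656)) (C.cons (nat_lit 7) (C.node (nat_lit 0) (nat_lit 1) (nat_lit 11) (C.cons (nat_lit 2051) (C.ref (nat_lit 162) (nat_lit 205163983024656)) C.nil)) C.nil))) (C.cons (nat_lit 1031)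
  (C.ref (nat_lit 164) (nat_lit 205163983024656)) (C.cons (nat_lit 1027) (C.ref (nat_lit 165) (nat_lit 205163983024656)) C.nil)))) (List.cons (C.node (nat_lit 0) (nat_lit 1) (nat_lit 9) (C.cons (nat_lit 531) (C.ref (nat_lit 166) (nat_lit 205163983024656)) (C.cons (nat_lit 523) (C.ref (nat_lit 166) (nat_lit 205163982963216)) (C.cons (nat_lit 519) (C.node (nat_lit 0) (nat_lit 1) (nat_lit 3) (C.cons (nat_lit 2059) (C.ref (nat_lit 164) (nat_lit 186609724244496)) (C.cons (nat_lit 1035) (C.ref (nat_lit 164) (nat_lit 204133190812176)) (C.cons (nat_lit 11) (C.node (nat_lit 0) (nat_lit 1) (nat_lit 10) (C.cons (nat_lit 1043) (C.node (nat_lit 0) (nat_lit 1) (nat_lit 11) (C.cons (nat_lit 2051) (C.ref (nat_lit 163) (nat_lit 204133190873616)) C.nil)) (C.cons (nat_lit 1027) (C.node (nat_lit 0) (nat_lit 1) (nat_lit 4) (C.cons (nat_lit 2067) (C.ref (nat_lit 163) (nat_lit 186609724305936)) C.nil)) C.nil))) C.nil)))) (C.cons (nat_lit 515) (C.node (nat_lit 0) (nat_lit 1) (nat_lit 3) (C.cons (nat_lit 2059) (C.ref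 (nat_lit 165) (nat_lit 186609724244496)) (C.cons (nat_lit 1035) (C.ref (nat_lit 165) (nat_lit 204133190812176)) (C.cons (nat_lit 15) (C.node (nat_lit 0) (nat_lit 1) (nat_lit 10) (C.cons (nat_lit 1043) (C.node (nat_lit 0) (nat_lit 1) (nat_lit 11) (C.cons (nat_lit 2051) (C.node (nat_lit 0) (nat_lit 2) (nat_lit 10) (C.cons (nat_lit 1093) (C.node (nat_lit 0) (nat_lit 2) (nat_lit 9) (C.cons (nat_lit 533) (C.node (nat_lit 0) (nat_lit 2) (nat_lit 11) C.nil) C.nil)) C.nil)) C.nil)) (C.cons (nat_lit 1027) (C.node (nat_lit 0) (nat_lit 1) (nat_lit 4) (C.cons (nat_lit 2067) (C.node (nat_lit 0) (nat_lit 2) (nat_lit 11) (C.cons (nat_lit 2117) (C.node (nat_lit 0) (nat_lit 2) (nat_lit 9) (C.cons (nat_lit 533) (C.node (nat_lit 0) (nat_lit 2) (nat_lit 10) C.nil) C.nil)) C.nil)) C.nil)) C.nil))) (C.cons (nat_lit 11) (C.node (nat_lit 0) (nat_lit 1) (nat_lit 10) (C.cons (nat_lit 1043) (C.node (nat_lit 0) (nat_lit 1) (nat_lit 2) (C.cons (nat_lit 2055) (C.ref (nat_lit 163) (nat_lit 171147842040336)) C.nil)) (C.cons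 (nat_lit 1031) (C.node (nat_lit 0) (nat_lit 1) (nat_lit 4) (C.cons (nat_lit 2067) (C.ref (nat_lit 163) (nat_lit 170117049889296)) C.nil)) C.nil))) C.nil))))) C.nil))))) (List.cons (C.node (nat_lit 0) (nat_lit 4) (nat_lit 8) (C.cons (nat_lit 337) (C.ref (nat_lit 140) (nat_lit 205163982963216)) (C.cons (nat_lit 273) (C.node (nat_lit 0) (nat_lit 6) (nat_lit 8) (C.cons (nat_lit 321) (C.ref (nat_lit 167) (nat_lit 205163983024656)) C.nil)) C.nil))) List.nil)))))))))))))))))))

theorem ok12_150 : okL par12 (nat_lit 169) c12_150 (nat_lit 150) = true := by decide +kernel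


end Pool.Agent.MP_1f1ca1_co

end

section

set_option autoImplicit false
set_option maxRecDepth 1000000
set_option maxHeartbeats 0

namespace Pool.Agent.MP_1f1ca1_co

noncomputable def c12_422 : List C :=
  (List.cons (C.node (nat_lit 0) (nat_lit 2) (nat_lit 6) (C.cons (nat_lit 71) (C.node (nat_lit 0) (nat_lit 2) (nat_lit 7) (C.cons (nat_lit 389) (C.node (nat_lit 0) (nat_lit 1) (nat_lit 7) (C.cons (nat_lit 643) (C.pat (nat_lit 1) (nat_lit 2339980833) (nat_lit 10732781922741051516167686185184200929)) (C.cons (nat_lit 131) (C.node (nat_lit 0) (nat_lit 7) (nat_lit 9) (C.cons (nat_lit 641) (C.node (nat_lit 0) (nat_lit 3) (nat_lit 6) (C.cons (nat_lit 585) (C.pat (nat_lit 1) (nat_lit 1754561330) (nat_lit 2019830178505214646048680701687566081)) (C.cons (nat_lit 73) (C.node (nat_lit 0) (nat_lit 6) (nat_lit 9) (C.cons (nat_lit 577) (C.node (nat_lit 0) (nat_lit 1) (nat_lit 8) (C.cons (nat_lit 291) (C.node (nat_lit 0) (nat_lit 3) (nat_lit 8) C.nil) (C.cons (nat_lit 267) (C.pat (nat_lit 1) (nat_lit 1954788897)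 (nat_lit 10732570858461593120693763116203049297)) C.nil))) C.nil)) C.nil))) C.nil)) C.nil))) (C.cons (nat_lit 133) (C.node (nat_lit 0) (nat_lit 2) (nat_lit 8) (C.cons (nat_lit 261) (C.node (nat_lit 0) (nat_lit 3) (nat_lit 6) (C.cons (nat_lit 585) (C.node (nat_lit 0) (nat_lit 5) (nat_lit 9) (C.cons (nat_lit 547) (C.pat (nat_lit 2) (nat_lit 44395771026) (nat_lit 26248176166695682886078303724338241656600201441)) (C.cons (nat_lit 545) (C.node (nat_lit 0) (nat_lit 1) (nat_lit 9) (C.cons (nat_lit 643) (C.pat (nat_lit 1) (nat_lit 934581793) (nat_lit 3338740134084033915339298597101701345)) (C.cons (nat_lit 515) (C.node (nat_lit 0) (nat_lit 7) (nat_lit 9) C.nil) C.nil))) C.nil))) (C.cons (nat_lit 73) (C.node (nat_lit 0) (nat_lit 6) (nat_lit 9) (C.cons (nat_lit 577) (C.node (nat_lit 0) (nat_lit 7) (nat_lit 8) (C.cons (nat_lit 387) (C.node (nat_lit 0) (nat_lit 7) (nat_lit 9) C.nil) C.nil)) C.nil)) C.nil))) C.nil)) C.nil))) (C.cons (nat_lit 69) (C.node (nat_lit 0) (nat_lit 7) (nat_lit 9) (C.cons (nat_lit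 643) (C.node (nat_lit 0) (nat_lit 1) (nat_lit 2) (C.cons (nat_lit 263) (C.node (nat_lit 0) (nat_lit 2) (nat_lit 7) (C.cons (nat_lit 133) (C.node (nat_lit 0) (nat_lit 7) (nat_lit 8) (C.cons (nat_lit 385) (C.node (nat_lit 0) (nat_lit 1) (nat_lit 5) (C.cons (nat_lit 43) (C.node (nat_lit 0) (nat_lit 1) (nat_lit 6) (C.cons (nat_lit 67) (C.node (nat_lit 0) (nat_lit 3) (nat_lit 8) C.nil) C.nil)) (C.cons (nat_lit 35) (C.node (nat_lit 0) (nat_lit 1) (nat_lit 3) (C.cons (nat_lit 75) (C.pat (nat_lit 3) (nat_lit 11143703361) (nat_lit 45963142881510545099237515201538356264999520275)) C.nil)) C.nil))) C.nil)) C.nil)) (C.cons (nat_lit 7) (C.node (nat_lit 0) (nat_lit 1) (nat_lit 6) (C.cons (nat_lit 75) (C.node (nat_lit 0) (nat_lit 6) (nat_lit 9) (C.cons (nat_lit 577) (C.node (nat_lit 0) (nat_lit 1) (nat_lit 5) (C.cons (nat_lit 291) (C.node (nat_lit 0) (nat_lit 3) (nat_lit 8) (C.cons (nat_lit 265) (C.node (nat_lit 0) (nat_lit 2) (nat_lit 7) (C.cons (nat_lit 389) (C.pat (nat_lit 2) (nat_lit 28069507956) (nat_lit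 1672774693471710465122231021587457546923872001)) C.nil)) C.nil)) (C.cons (nat_lit 35) (C.node (nat_lit 0) (nat_lit 1) (nat_lit 8) C.nil) C.nil))) C.nil)) (C.cons (nat_lit 67) (C.node (nat_lit 0) (nat_lit 2) (nat_lit 7) (C.cons (nat_lit 389) (C.node (nat_lit 0) (nat_lit 3) (nat_lit 6) (C.cons (nat_lit 585) (C.pat (nat_lit 1) (nat_lit 1754561330) (nat_lit 2019830178505214646048680701687566081)) (C.cons (nat_lit 73) (C.node (nat_lit 0) (nat_lit 6) (nat_lit 9) C.nil) C.nil))) (C.cons (nat_lit 133) (C.node (nat_lit 0) (nat_lit 2) (nat_lit 8) C.nil) C.nil))) C.nil))) C.nil))) (C.cons (nat_lit 641) (C.node (nat_lit 0) (nat_lit 1) (nat_lit 2) (C.cons (nat_lit 263) (C.node (nat_lit 0) (nat_lit 1) (nat_lit 7) (C.cons (nat_lit 131) (C.node (nat_lit 0) (nat_lit 2) (nat_lit 7) (C.cons (nat_lit 133) (C.node (nat_lit 0) (nat_lit 7) (nat_lit 8) C.nil) C.nil)) C.nil)) (C.cons (nat_lit 135) (C.node (nat_lit 0) (nat_lit 2) (nat_lit 8) (C.cons (nat_lit 261) (C.node (nat_lit 0) (nat_lit 7) (nat_lit 8) (C.cons (nat_lit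 385) (C.node (nat_lit 0) (nat_lit 1) (nat_lit 6) (C.cons (nat_lit 579) (C.node (nat_lit 0) (nat_lit 3) (nat_lit 6) C.nil) (C.cons (nat_lit 75)
  (C.node (nat_lit 0) (nat_lit 6) (nat_lit 9) C.nil) C.nil))) C.nil)) C.nil)) (C.cons (nat_lit 7) (C.node (nat_lit 0) (nat_lit 1) (nat_lit 7) (C.cons (nat_lit 387) (C.node (nat_lit 0) (nat_lit 2) (nat_lit 7) (C.cons (nat_lit 133) (C.node (nat_lit 0) (nat_lit 2) (nat_lit 8) C.nil) C.nil)) (C.cons (nat_lit 131) (C.node (nat_lit 0) (nat_lit 2) (nat_lit 7) (C.cons (nat_lit 389) (C.node (nat_lit 0) (nat_lit 1) (nat_lit 6) (C.cons (nat_lit 579) (C.node (nat_lit 0) (nat_lit 3) (nat_lit 6) C.nil) (C.cons (nat_lit 75) (C.node (nat_lit 0) (nat_lit 6) (nat_lit 9) C.nil) C.nil))) C.nil)) C.nil))) C.nil)))) C.nil))) C.nil))) (List.cons (C.node (nat_lit 0) (nat_lit 2) (nat_lit 6) (C.cons (nat_lit 581) (C.node (nat_lit 0) (nat_lit 1) (nat_lit 6) (C.cons (nat_lit 75) (C.node (nat_lit 0) (nat_lit 3) (nat_lit 8) (C.cons (nat_lit 297) (C.node (nat_lit 0) (nat_lit 3) (nat_lit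 9) (C.cons (nat_lit 521) (C.node (nat_lit 0) (nat_lit 1) (nat_lit 5) (C.cons (nat_lit 547) (C.node (nat_lit 0) (nat_lit 7) (nat_lit 9) (C.cons (nat_lit 641) (C.node (nat_lit 0) (nat_lit 1) (nat_lit 2) (C.cons (nat_lit 263) (C.pat (nat_lit 1) (nat_lit 3040253985) (nat_lit 2840366467322685926640736980588364073)) (C.cons (nat_lit 135) (C.node (nat_lit 0) (nat_lit 1) (nat_lit 8) C.nil) C.nil))) C.nil)) (C.cons (nat_lit 35) (C.node (nat_lit 0) (nat_lit 5) (nat_lit 9) C.nil) C.nil))) C.nil)) (C.cons (nat_lit 265) (C.node (nat_lit 0) (nat_lit 3) (nat_lit 5) (C.cons (nat_lit 553) (C.node (nat_lit 0) (nat_lit 1) (nat_lit 5) (C.cons (nat_lit 291) (C.node (nat_lit 0) (nat_lit 1) (nat_lit 2) (C.cons (nat_lit 135) (C.node (nat_lit 0) (nat_lit 1) (nat_lit 9) (C.cons (nat_lit 515) (C.node (nat_lit 0) (nat_lit 2) (nat_lit 8) C.nil) C.nil)) (C.cons (nat_lit 7) (C.node (nat_lit 0) (nat_lit 1) (nat_lit 7) (C.cons (nat_lit 643) (C.node (nat_lit 0) (nat_lit 2) (nat_lit 7) (C.cons (nat_lit 389) (C.pat (nat_lit 2)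 (nat_lit 6613538421) (nat_lit 1672956404255517102567611151326282350499794689)) C.nil)) C.nil)) C.nil))) (C.cons (nat_lit 35) (C.node (nat_lit 0) (nat_lit 5) (nat_lit 8) C.nil) C.nil))) (C.cons (nat_lit 41) (C.node (nat_lit 0) (nat_lit 3) (nat_lit 9) C.nil) C.nil))) C.nil))) (C.cons (nat_lit 67) (C.node (nat_lit 0) (nat_lit 3) (nat_lit 6) (C.cons (nat_lit 73) (C.node (nat_lit 0) (nat_lit 7) (nat_lit 9) (C.cons (nat_lit 643) (C.node (nat_lit 0) (nat_lit 1) (nat_lit 2) (C.cons (nat_lit 263) (C.node (nat_lit 0) (nat_lit 2) (nat_lit 7) C.nil) C.nil)) C.nil)) C.nil)) C.nil))) (C.cons (nat_lit 71) (C.node (nat_lit 0) (nat_lit 2) (nat_lit 8) (C.cons (nat_lit 389) (C.node (nat_lit 0) (nat_lit 2) (nat_lit 9) (C.cons (nat_lit 517) (C.node (nat_lit 0) (nat_lit 1) (nat_lit 7) (C.cons (nat_lit 643) (C.node (nat_lit 0) (nat_lit 3) (nat_lit 6) (C.cons (nat_lit 585) (C.node (nat_lit 0) (nat_lit 5) (nat_lit 9) (C.cons (nat_lit 545) (C.node (nat_lit 0) (nat_lit 1) (nat_lit 3) (C.cons (nat_lit 43) (C.node (nat_lit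 0) (nat_lit 1) (nat_lit 8) C.nil) (C.cons (nat_lit 267) (C.pat (nat_lit 1) (nat_lit 2608346642) (nat_lit 10701628141282779967078412320869386465)) C.nil))) C.nil)) (C.cons (nat_lit 73) (C.node (nat_lit 0) (nat_lit 6) (nat_lit 9) C.nil) C.nil))) (C.cons (nat_lit 131) (C.node (nat_lit 0) (nat_lit 7) (nat_lit 9) C.nil) C.nil))) C.nil)) (C.cons (nat_lit 261) (C.node (nat_lit 0) (nat_lit 2) (nat_lit 7) (C.cons (nat_lit 645) (C.node (nat_lit 0) (nat_lit 1) (nat_lit 7) (C.cons (nat_lit 387) (C.node (nat_lit 0) (nat_lit 3) (nat_lit 6) (C.cons (nat_lit 585) (C.pat (nat_lit 3) (nat_lit 34704866166) (nat_lit 85657865673218019055352090499433350781964191969)) (C.cons (nat_lit 73) (C.node (nat_lit 0) (nat_lit 6) (nat_lit 9) C.nil) C.nil))) (C.cons (nat_lit 131) (C.node (nat_lit 0) (nat_lit 7) (nat_lit 8) C.nil) C.nil))) (C.cons (nat_lit 133) (C.node (nat_lit 0) (nat_lit 2) (nat_lit 9) C.nil) C.nil))) C.nil))) (C.cons (nat_lit 69) (C.node (nat_lit 0) (nat_lit 1) (nat_lit 6) (C.cons (nat_lit 579) (C.node (nat_lit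 0) (nat_lit 3) (nat_lit 6) (C.cons (nat_lit 73) (C.node (nat_lit 0) (nat_lit 2) (nat_lit 9)
  (C.cons (nat_lit 645) (C.node (nat_lit 0) (nat_lit 1) (nat_lit 2) (C.cons (nat_lit 263) (C.node (nat_lit 0) (nat_lit 1) (nat_lit 7) C.nil) C.nil)) C.nil)) C.nil)) (C.cons (nat_lit 75) (C.node (nat_lit 0) (nat_lit 6) (nat_lit 9) (C.cons (nat_lit 577) (C.node (nat_lit 0) (nat_lit 3) (nat_lit 8) (C.cons (nat_lit 297) (C.node (nat_lit 0) (nat_lit 3) (nat_lit 9) C.nil) C.nil)) C.nil)) (C.cons (nat_lit 67) (C.node (nat_lit 0) (nat_lit 3) (nat_lit 6) (C.cons (nat_lit 585) (C.node (nat_lit 0) (nat_lit 5) (nat_lit 9) (C.cons (nat_lit 547) (C.node (nat_lit 0) (nat_lit 1) (nat_lit 3) (C.cons (nat_lit 267) (C.node (nat_lit 0) (nat_lit 3) (nat_lit 5) C.nil) C.nil)) C.nil)) C.nil)) C.nil)))) C.nil)))) (List.cons (C.node (nat_lit 0) (nat_lit 7) (nat_lit 8) (C.cons (nat_lit 387) (C.node (nat_lit 0) (nat_lit 2) (nat_lit 7) (C.cons (nat_lit 645) (C.node (nat_lit 0) (nat_lit 1) (nat_lit 2) (C.cons (nat_lit 71) (C.node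 (nat_lit 0) (nat_lit 5) (nat_lit 8) (C.cons (nat_lit 297) (C.node (nat_lit 0) (nat_lit 6) (nat_lit 8) (C.cons (nat_lit 321) (C.node (nat_lit 0) (nat_lit 1) (nat_lit 3) (C.cons (nat_lit 523) (C.pat (nat_lit 1) (nat_lit 682916145) (nat_lit 2009440832952856311336303711206575873)) (C.cons (nat_lit 11) (C.node (nat_lit 0) (nat_lit 1) (nat_lit 5) (C.cons (nat_lit 547) (C.pat (nat_lit 2) (nat_lit 39247458695) (nat_lit 12198608688897796924828912627445377121290225677)) C.nil)) C.nil))) C.nil)) (C.cons (nat_lit 289) (C.node (nat_lit 0) (nat_lit 3) (nat_lit 8) (C.cons (nat_lit 329) (C.pat (nat_lit 1) (nat_lit 934577697) (nat_lit 2009512138299113320069008667159365857)) (C.cons (nat_lit 265) (C.node (nat_lit 0) (nat_lit 6) (nat_lit 8) C.nil) C.nil))) C.nil))) (C.cons (nat_lit 7) (C.node (nat_lit 0) (nat_lit 2) (nat_lit 6) (C.cons (nat_lit 69) (C.node (nat_lit 0) (nat_lit 5) (nat_lit 8) (C.cons (nat_lit 297) (C.node (nat_lit 0) (nat_lit 6) (nat_lit 8) C.nil) C.nil)) C.nil)) C.nil))) (C.cons (nat_lit 133)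 (C.node (nat_lit 0) (nat_lit 7) (nat_lit 9) (C.cons (nat_lit 641) (C.node (nat_lit 0) (nat_lit 5) (nat_lit 8) (C.cons (nat_lit 297) (C.node (nat_lit 0) (nat_lit 6) (nat_lit 8) C.nil) C.nil)) C.nil)) C.nil))) (C.cons (nat_lit 385) (C.node (nat_lit 0) (nat_lit 1) (nat_lit 7) (C.cons (nat_lit 643) (C.node (nat_lit 0) (nat_lit 2) (nat_lit 7) (C.cons (nat_lit 133) (C.node (nat_lit 0) (nat_lit 1) (nat_lit 2) (C.cons (nat_lit 71) (C.node (nat_lit 0) (nat_lit 2) (nat_lit 9) C.nil) C.nil)) C.nil)) (C.cons (nat_lit 135) (C.node (nat_lit 0) (nat_lit 7) (nat_lit 9) (C.cons (nat_lit 641) (C.node (nat_lit 0) (nat_lit 2) (nat_lit 6) (C.cons (nat_lit 581) (C.node (nat_lit 0) (nat_lit 1) (nat_lit 6) (C.cons (nat_lit 323) (C.node (nat_lit 0) (nat_lit 3) (nat_lit 6) C.nil) (C.cons (nat_lit 75) (C.node (nat_lit 0) (nat_lit 6) (nat_lit 8) C.nil) C.nil))) C.nil)) C.nil)) (C.cons (nat_lit 131) (C.node (nat_lit 0) (nat_lit 2) (nat_lit 7) (C.cons (nat_lit 645) (C.node (nat_lit 0) (nat_lit 1) (nat_lit 2) (C.cons (nat_lit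 71) (C.node (nat_lit 0) (nat_lit 6) (nat_lit 8) (C.cons (nat_lit 329) (C.node (nat_lit 0) (nat_lit 6) (nat_lit 9) C.nil) C.nil)) C.nil)) C.nil)) C.nil)))) C.nil))) (List.cons (C.node (nat_lit 0) (nat_lit 4) (nat_lit 5) (C.cons (nat_lit 561) (C.ref (nat_lit 421) (nat_lit 205163983024656)) (C.cons (nat_lit 305) (C.ref (nat_lit 421) (nat_lit 205099558515216)) (C.cons (nat_lit 49) (C.node (nat_lit 0) (nat_lit 4) (nat_lit 8) (C.cons (nat_lit 337) (C.node (nat_lit 0) (nat_lit 2) (nat_lit 4) (C.cons (nat_lit 533) (C.ref (nat_lit 422) (nat_lit 205163983024656)) (C.cons (nat_lit 21) (C.node (nat_lit 0) (nat_lit 4) (nat_lit 9) (C.cons (nat_lit 529) (C.ref (nat_lit 423) (nat_lit 205163983024656)) C.nil)) C.nil))) (C.cons (nat_lit 277) (C.node (nat_lit 0) (nat_lit 4) (nat_lit 6) (C.cons (nat_lit 593) (C.ref (nat_lit 422) (nat_lit 205099558515216)) (C.cons (nat_lit 81) (C.node (nat_lit 0) (nat_lit 4) (nat_lit 9) (C.cons (nat_lit 529) (C.ref (nat_lit 424) (nat_lit 205163983024656)) C.nil)) C.nil))) (C.cons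 (nat_lit 273) (C.node (nat_lit 0) (nat_lit 2) (nat_lit 4)
  (C.cons (nat_lit 533) (C.node (nat_lit 0) (nat_lit 4) (nat_lit 6) (C.cons (nat_lit 81) (C.ref (nat_lit 424) (nat_lit 205099558515216)) C.nil)) (C.cons (nat_lit 85) (C.node (nat_lit 0) (nat_lit 4) (nat_lit 9) (C.cons (nat_lit 529) (C.node (nat_lit 0) (nat_lit 2) (nat_lit 8) (C.cons (nat_lit 389) (C.node (nat_lit 0) (nat_lit 1) (nat_lit 2) (C.cons (nat_lit 519) (C.node (nat_lit 0) (nat_lit 1) (nat_lit 7) (C.cons (nat_lit 131) (C.node (nat_lit 0) (nat_lit 7) (nat_lit 9) (C.cons (nat_lit 641) (C.node (nat_lit 0) (nat_lit 9) (nat_lit 6) (C.cons (nat_lit 585) (C.node (nat_lit 0) (nat_lit 9) (nat_lit 5) C.nil) C.nil)) C.nil)) C.nil)) (C.cons (nat_lit 7) (C.node (nat_lit 0) (nat_lit 2) (nat_lit 9) (C.cons (nat_lit 517) (C.node (nat_lit 0) (nat_lit 1) (nat_lit 7) (C.cons (nat_lit 643) (C.node (nat_lit 0) (nat_lit 5) (nat_lit 9) (C.cons (nat_lit 553) (C.node (nat_lit 0) (nat_lit 6) (nat_lit 9) C.nil) C.nil)) C.nil)) C.nil)) C.nil))) (C.cons (nat_lit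 263) (C.node (nat_lit 0) (nat_lit 7) (nat_lit 8) (C.cons (nat_lit 385) (C.node (nat_lit 0) (nat_lit 1) (nat_lit 7) (C.cons (nat_lit 643) (C.node (nat_lit 0) (nat_lit 2) (nat_lit 7) (C.cons (nat_lit 133) (C.node (nat_lit 0) (nat_lit 2) (nat_lit 9) C.nil) C.nil)) (C.cons (nat_lit 131) (C.node (nat_lit 0) (nat_lit 2) (nat_lit 7) (C.cons (nat_lit 645) (C.node (nat_lit 0) (nat_lit 8) (nat_lit 6) (C.cons (nat_lit 329) (C.node (nat_lit 0) (nat_lit 8) (nat_lit 5) C.nil) C.nil)) C.nil)) C.nil))) C.nil)) (C.cons (nat_lit 261) (C.node (nat_lit 0) (nat_lit 7) (nat_lit 8) (C.cons (nat_lit 387) (C.node (nat_lit 0) (nat_lit 1) (nat_lit 2) (C.cons (nat_lit 519) (C.node (nat_lit 0) (nat_lit 2) (nat_lit 7) (C.cons (nat_lit 133) (C.node (nat_lit 0) (nat_lit 7) (nat_lit 9) C.nil) C.nil)) (C.cons (nat_lit 7) (C.node (nat_lit 0) (nat_lit 2) (nat_lit 7) (C.cons (nat_lit 645) (C.node (nat_lit 0) (nat_lit 5) (nat_lit 8) (C.cons (nat_lit 297) (C.node (nat_lit 0) (nat_lit 6) (nat_lit 8) C.nil) C.nil)) C.nil)) C.nil)))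 (C.cons (nat_lit 385) (C.node (nat_lit 0) (nat_lit 1) (nat_lit 2) (C.cons (nat_lit 519) (C.node (nat_lit 0) (nat_lit 1) (nat_lit 7) C.nil) (C.cons (nat_lit 135) (C.node (nat_lit 0) (nat_lit 2) (nat_lit 9) C.nil) C.nil))) C.nil))) C.nil)))) C.nil)) (C.cons (nat_lit 21) (C.node (nat_lit 0) (nat_lit 4) (nat_lit 6) (C.cons (nat_lit 593) (C.ref (nat_lit 423) (nat_lit 205099558515216)) (C.cons (nat_lit 81) (C.node (nat_lit 0) (nat_lit 4) (nat_lit 9) (C.cons (nat_lit 529) (C.node (nat_lit 0) (nat_lit 5) (nat_lit 8) (C.cons (nat_lit 297) (C.node (nat_lit 0) (nat_lit 1) (nat_lit 5) (C.cons (nat_lit 547) (C.node (nat_lit 0) (nat_lit 1) (nat_lit 3) (C.cons (nat_lit 75) (C.node (nat_lit 0) (nat_lit 3) (nat_lit 9) C.nil) C.nil)) C.nil)) (C.cons (nat_lit 291) (C.node (nat_lit 0) (nat_lit 3) (nat_lit 5) (C.cons (nat_lit 553) (C.node (nat_lit 0) (nat_lit 1) (nat_lit 3) (C.cons (nat_lit 75) (C.node (nat_lit 0) (nat_lit 3) (nat_lit 8) C.nil) C.nil)) C.nil)) C.nil))) C.nil)) C.nil))) C.nil)))) C.nil)))) C.nil))))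 (List.cons (C.node (nat_lit 0) (nat_lit 1) (nat_lit 10) (C.cons (nat_lit 1091) (C.node (nat_lit 0) (nat_lit 3) (nat_lit 6) (C.cons (nat_lit 585) (C.ref (nat_lit 415) (nat_lit 205163983024656)) (C.cons (nat_lit 329) (C.ref (nat_lit 415) (nat_lit 205099558515216)) (C.cons (nat_lit 73) (C.node (nat_lit 0) (nat_lit 3) (nat_lit 8) (C.cons (nat_lit 297) (C.node (nat_lit 0) (nat_lit 1) (nat_lit 3) (C.cons (nat_lit 523) (C.node (nat_lit 0) (nat_lit 1) (nat_lit 5) (C.cons (nat_lit 35) (C.node (nat_lit 0) (nat_lit 4) (nat_lit 5) (C.cons (nat_lit 561) (C.ref (nat_lit 411) (nat_lit 188671273095696)) (C.cons (nat_lit 49) (C.node (nat_lit 0) (nat_lit 5) (nat_lit 9) (C.cons (nat_lit 545) (C.ref (nat_lit 416) (nat_lit 205163983024656)) C.nil)) C.nil))) C.nil)) (C.cons (nat_lit 11) (C.node (nat_lit 0) (nat_lit 3) (nat_lit 9) (C.cons (nat_lit 521) (C.ref (nat_lit 417) (nat_lit 205163983024656)) C.nil)) C.nil))) (C.cons (nat_lit 267) (C.node (nat_lit 0) (nat_lit 1) (nat_lit 5) (C.cons (nat_lit 547)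
  (C.node (nat_lit 0) (nat_lit 3) (nat_lit 5) (C.cons (nat_lit 41) (C.node (nat_lit 0) (nat_lit 3) (nat_lit 9) (C.cons (nat_lit 521) (C.ref (nat_lit 419) (nat_lit 205163983024656)) C.nil)) C.nil)) (C.cons (nat_lit 35) (C.node (nat_lit 0) (nat_lit 3) (nat_lit 5) (C.cons (nat_lit 553) (C.node (nat_lit 0) (nat_lit 4) (nat_lit 5) (C.cons (nat_lit 305) (C.ref (nat_lit 411) (nat_lit 188606848586256)) (C.cons (nat_lit 49) (C.node (nat_lit 0) (nat_lit 5) (nat_lit 8) (C.cons (nat_lit 289) (C.ref (nat_lit 416) (nat_lit 205099558515216)) C.nil)) C.nil))) (C.cons (nat_lit 41) (C.node (nat_lit 0) (nat_lit 3) (nat_lit 9) (C.cons (nat_lit 521) (C.ref (nat_lit 420) (nat_lit 205163983024656)) C.nil)) C.nil))) C.nil))) (C.cons (nat_lit 265) (C.node (nat_lit 0) (nat_lit 1) (nat_lit 3) (C.cons (nat_lit 523) (C.node (nat_lit 0) (nat_lit 3) (nat_lit 5) (C.cons (nat_lit 41) (C.node (nat_lit 0) (nat_lit 1) (nat_lit 5) (C.cons (nat_lit 291) (C.ref (nat_lit 419) (nat_lit 205099558515216)) (C.cons (nat_lit 35) (C.ref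 (nat_lit 420) (nat_lit 205099558515216)) C.nil))) C.nil)) (C.cons (nat_lit 43) (C.node (nat_lit 0) (nat_lit 3) (nat_lit 9) (C.cons (nat_lit 521) (C.node (nat_lit 0) (nat_lit 5) (nat_lit 8) (C.cons (nat_lit 305) (C.node (nat_lit 0) (nat_lit 5) (nat_lit 9) (C.cons (nat_lit 545) (C.ref (nat_lit 410) (nat_lit 188606848586256)) C.nil)) (C.cons (nat_lit 289) (C.node (nat_lit 0) (nat_lit 4) (nat_lit 5) (C.cons (nat_lit 561) (C.ref (nat_lit 410) (nat_lit 188671273095696)) (C.cons (nat_lit 49) (C.node (nat_lit 0) (nat_lit 5) (nat_lit 9) (C.cons (nat_lit 545) (C.node (nat_lit 0) (nat_lit 1) (nat_lit 8) (C.cons (nat_lit 387) (C.node (nat_lit 0) (nat_lit 1) (nat_lit 2) (C.cons (nat_lit 519) (C.node (nat_lit 0) (nat_lit 2) (nat_lit 7) (C.cons (nat_lit 133) (C.node (nat_lit 0) (nat_lit 7) (nat_lit 9) C.nil) C.nil)) (C.cons (nat_lit 7) (C.node (nat_lit 0) (nat_lit 1) (nat_lit 9) C.nil) C.nil))) (C.cons (nat_lit 263) (C.node (nat_lit 0) (nat_lit 7) (nat_lit 8) (C.cons (nat_lit 385) (C.node (nat_lit 0) (nat_lit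 1) (nat_lit 7) (C.cons (nat_lit 643) (C.node (nat_lit 0) (nat_lit 2) (nat_lit 7) C.nil) C.nil)) C.nil)) (C.cons (nat_lit 259) (C.node (nat_lit 0) (nat_lit 7) (nat_lit 8) (C.cons (nat_lit 389) (C.node (nat_lit 0) (nat_lit 1) (nat_lit 2) (C.cons (nat_lit 519) (C.node (nat_lit 0) (nat_lit 1) (nat_lit 7) C.nil) C.nil)) C.nil)) C.nil)))) C.nil)) C.nil))) C.nil))) C.nil)) (C.cons (nat_lit 11) (C.node (nat_lit 0) (nat_lit 3) (nat_lit 5) (C.cons (nat_lit 553) (C.ref (nat_lit 417) (nat_lit 205099558515216)) (C.cons (nat_lit 41) (C.node (nat_lit 0) (nat_lit 3) (nat_lit 9) (C.cons (nat_lit 521) (C.node (nat_lit 0) (nat_lit 1) (nat_lit 5) (C.cons (nat_lit 547) (C.node (nat_lit 0) (nat_lit 4) (nat_lit 5) (C.cons (nat_lit 305) (C.ref (nat_lit 409) (nat_lit 188606848586256)) (C.cons (nat_lit 49) (C.node (nat_lit 0) (nat_lit 5) (nat_lit 8) (C.cons (nat_lit 289) (C.node (nat_lit 0) (nat_lit 7) (nat_lit 9) (C.cons (nat_lit 645) (C.node (nat_lit 0) (nat_lit 1) (nat_lit 2) (C.cons (nat_lit 263) (C.node (nat_lit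 0) (nat_lit 1) (nat_lit 7) C.nil) C.nil)) C.nil)) C.nil)) C.nil))) (C.cons (nat_lit 291) (C.node (nat_lit 0) (nat_lit 4) (nat_lit 5) (C.cons (nat_lit 561) (C.ref (nat_lit 409) (nat_lit 188671273095696)) (C.cons (nat_lit 49) (C.node (nat_lit 0) (nat_lit 5) (nat_lit 9) (C.cons (nat_lit 545) (C.node (nat_lit 0) (nat_lit 7) (nat_lit 8) (C.cons (nat_lit 389) (C.node (nat_lit 0) (nat_lit 1) (nat_lit 2) (C.cons (nat_lit 519) (C.node (nat_lit 0) (nat_lit 1) (nat_lit 7) C.nil) C.nil)) C.nil)) C.nil)) C.nil))) (C.cons (nat_lit 35) (C.node (nat_lit 0) (nat_lit 5) (nat_lit 8) (C.cons (nat_lit 305) (C.node (nat_lit 0) (nat_lit 5) (nat_lit 9) (C.cons (nat_lit 545) (C.node (nat_lit 0) (nat_lit 6) (nat_lit 8) (C.cons (nat_lit 325) (C.node (nat_lit 0) (nat_lit 1) (nat_lit 8) (C.cons (nat_lit 387) (C.node (nat_lit 0) (nat_lit 1) (nat_lit 2) (C.cons (nat_lit 519) (C.node (nat_lit 0) (nat_lit 2) (nat_lit 4) C.nil) C.nil)) C.nil)) C.nil)) C.nil)) (C.cons (nat_lit 289)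
  (C.node (nat_lit 0) (nat_lit 4) (nat_lit 5) (C.cons (nat_lit 561) (C.node (nat_lit 0) (nat_lit 6) (nat_lit 9) (C.cons (nat_lit 581) (C.node (nat_lit 0) (nat_lit 1) (nat_lit 9) (C.cons (nat_lit 643) (C.node (nat_lit 0) (nat_lit 1) (nat_lit 2) (C.cons (nat_lit 263) (C.node (nat_lit 0) (nat_lit 2) (nat_lit 4) C.nil) C.nil)) C.nil)) C.nil)) C.nil)) C.nil))) C.nil)))) C.nil)) C.nil))) C.nil)))) C.nil)))) C.nil)))) (C.cons (nat_lit 1027) (C.node (nat_lit 0) (nat_lit 6) (nat_lit 10) (C.cons (nat_lit 1089) (C.ref (nat_lit 425) (nat_lit 205163983024656)) C.nil)) C.nil))) (List.cons (C.node (nat_lit 0) (nat_lit 3) (nat_lit 5) (C.cons (nat_lit 553) (C.node (nat_lit 0) (nat_lit 2) (nat_lit 5) (C.cons (nat_lit 53) (C.pat (nat_lit 1) (nat_lit 2072332833) (nat_lit 10732657692556702756447016077934006017)) (C.cons (nat_lit 37) (C.node (nat_lit 0) (nat_lit 4) (nat_lit 5) (C.cons (nat_lit 49) (C.node (nat_lit 0) (nat_lit 3) (nat_lit 6) (C.cons (nat_lit 329) (C.node (nat_lit 0) (nat_lit 4) (nat_lit 8) (C.cons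 (nat_lit 273) (C.node (nat_lit 0) (nat_lit 2) (nat_lit 4) (C.cons (nat_lit 85) (C.node (nat_lit 0) (nat_lit 2) (nat_lit 9) C.nil) (C.cons (nat_lit 533) (C.pat (nat_lit 2) (nat_lit 22322393465) (nat_lit 6489649228724657069856928182025662386063738893)) C.nil))) C.nil)) (C.cons (nat_lit 73) (C.node (nat_lit 0) (nat_lit 3) (nat_lit 8) C.nil) C.nil))) C.nil)) C.nil))) (C.cons (nat_lit 41) (C.node (nat_lit 0) (nat_lit 3) (nat_lit 8) (C.cons (nat_lit 329) (C.node (nat_lit 0) (nat_lit 3) (nat_lit 9) (C.cons (nat_lit 521) (C.node (nat_lit 0) (nat_lit 4) (nat_lit 8) (C.cons (nat_lit 273) (C.node (nat_lit 0) (nat_lit 2) (nat_lit 6) (C.cons (nat_lit 85) (C.node (nat_lit 0) (nat_lit 9) (nat_lit 6) C.nil) (C.cons (nat_lit 581) (C.node (nat_lit 0) (nat_lit 4) (nat_lit 6) C.nil) C.nil))) C.nil)) C.nil)) (C.cons (nat_lit 265) (C.node (nat_lit 0) (nat_lit 3) (nat_lit 6) (C.cons (nat_lit 585) (C.node (nat_lit 0) (nat_lit 2) (nat_lit 6) (C.cons (nat_lit 85) (C.node (nat_lit 0) (nat_lit 4) (nat_lit 8) (C.cons (nat_lit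 273) (C.node (nat_lit 0) (nat_lit 6) (nat_lit 8) C.nil) C.nil)) (C.cons (nat_lit 69) (C.node (nat_lit 0) (nat_lit 4) (nat_lit 6) (C.cons (nat_lit 337) (C.node (nat_lit 0) (nat_lit 2) (nat_lit 9) (C.cons (nat_lit 549) (C.node (nat_lit 0) (nat_lit 2) (nat_lit 4) C.nil) (C.cons (nat_lit 533) (C.pat (nat_lit 1) (nat_lit 1665775490) (nat_lit 10701370174559749978437580787808273561)) C.nil))) C.nil)) C.nil))) (C.cons (nat_lit 73) (C.node (nat_lit 0) (nat_lit 3) (nat_lit 9) C.nil) C.nil))) C.nil))) C.nil))) (List.cons (C.node (nat_lit 0) (nat_lit 1) (nat_lit 3) (C.cons (nat_lit 75) (C.node (nat_lit 0) (nat_lit 3) (nat_lit 8) (C.cons (nat_lit 265) (C.node (nat_lit 0) (nat_lit 3) (nat_lit 5) (C.cons (nat_lit 553) (C.ref (nat_lit 406) (nat_lit 201582839083536)) (C.cons (nat_lit 41) (C.node (nat_lit 0) (nat_lit 3) (nat_lit 9) (C.cons (nat_lit 521) (C.ref (nat_lit 418) (nat_lit 201582839083536)) C.nil)) C.nil))) C.nil)) (C.cons (nat_lit 11) (C.node (nat_lit 0) (nat_lit 1) (nat_lit 6) (C.cons (nat_lit 67)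 (C.ref (nat_lit 427) (nat_lit 205163983024656)) C.nil)) C.nil))) (List.cons (C.node (nat_lit 0) (nat_lit 3) (nat_lit 8) (C.cons (nat_lit 265) (C.node (nat_lit 0) (nat_lit 3) (nat_lit 5) (C.cons (nat_lit 553) (C.node (nat_lit 0) (nat_lit 2) (nat_lit 5) (C.cons (nat_lit 53) (C.node (nat_lit 0) (nat_lit 2) (nat_lit 8) (C.cons (nat_lit 325) (C.pat (nat_lit 2) (nat_lit 14584166945) (nat_lit 26247995135323650020236350300561021261582895329)) (C.cons (nat_lit 261) (C.node (nat_lit 0) (nat_lit 2) (nat_lit 6) (C.cons (nat_lit 581) (C.pat (nat_lit 1) (nat_lit 3073808929) (nat_lit 3338826965742029378979667926728377497)) (C.cons (nat_lit 69) (C.node (nat_lit 0) (nat_lit 2) (nat_lit 9) C.nil) C.nil))) C.nil))) (C.cons (nat_lit 37) (C.node (nat_lit 0) (nat_lit 4) (nat_lit 5) (C.cons (nat_lit 49) (C.node (nat_lit 0) (nat_lit 2) (nat_lit 8) (C.cons (nat_lit 325) (C.node (nat_lit 0) (nat_lit 4) (nat_lit 8) C.nil) (C.cons (nat_lit 277)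
  (C.node (nat_lit 0) (nat_lit 6) (nat_lit 8) C.nil) C.nil))) C.nil)) C.nil))) (C.cons (nat_lit 41) (C.node (nat_lit 0) (nat_lit 3) (nat_lit 9) (C.cons (nat_lit 521) (C.node (nat_lit 0) (nat_lit 2) (nat_lit 8) (C.cons (nat_lit 325) (C.node (nat_lit 0) (nat_lit 4) (nat_lit 8) C.nil) (C.cons (nat_lit 277) (C.node (nat_lit 0) (nat_lit 8) (nat_lit 6) C.nil) C.nil))) C.nil)) C.nil))) C.nil)) (List.cons (C.node (nat_lit 0) (nat_lit 3) (nat_lit 5) (C.cons (nat_lit 553) (C.node (nat_lit 0) (nat_lit 2) (nat_lit 5) (C.cons (nat_lit 53) (C.node (nat_lit 0) (nat_lit 2) (nat_lit 8) (C.cons (nat_lit 325) (C.node (nat_lit 0) (nat_lit 2) (nat_lit 9) (C.cons (nat_lit 517) (C.node (nat_lit 0) (nat_lit 3) (nat_lit 6) C.nil) C.nil)) (C.cons (nat_lit 261) (C.node (nat_lit 0) (nat_lit 2) (nat_lit 6) (C.cons (nat_lit 581) (C.node (nat_lit 0) (nat_lit 4) (nat_lit 9) C.nil) C.nil)) C.nil))) (C.cons (nat_lit 37) (C.node (nat_lit 0) (nat_lit 4) (nat_lit 5) C.nil) C.nil))) (C.cons (nat_lit 41) (C.node (nat_lit 0) (nat_lit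 3) (nat_lit 8) (C.cons (nat_lit 329) (C.node (nat_lit 0) (nat_lit 3) (nat_lit 9) C.nil) C.nil)) C.nil))) List.nil)))))))))

theorem ok12_422 : okL par12 (nat_lit 431) c12_422 (nat_lit 422) = true := by decide +kernel

noncomputable def c12_431 : List C :=
  (List.cons (C.node (nat_lit 0) (nat_lit 1) (nat_lit 8) (C.cons (nat_lit 259) (C.node (nat_lit 0) (nat_lit 3) (nat_lit 8) (C.cons (nat_lit 329) (C.node (nat_lit 0) (nat_lit 3) (nat_lit 9) (C.cons (nat_lit 521) (C.node (nat_lit 0) (nat_lit 2) (nat_lit 8) (C.cons (nat_lit 293) (C.node (nat_lit 0) (nat_lit 4) (nat_lit 8) C.nil) (C.cons (nat_lit 277) (C.node (nat_lit 0) (nat_lit 8) (nat_lit 5) C.nil) C.nil))) C.nil)) (C.cons (nat_lit 265) (C.node (nat_lit 0) (nat_lit 3) (nat_lit 6) (C.cons (nat_lit 585) (C.node (nat_lit 0) (nat_lit 2) (nat_lit 6) (C.cons (nat_lit 325) (C.node (nat_lit 0) (nat_lit 4) (nat_lit 6) C.nil) (C.cons (nat_lit 85) (C.node (nat_lit 0) (nat_lit 6) (nat_lit 8) C.nil) C.nil))) C.nil)) C.nil))) C.nil)) (List.cons (C.node (nat_lit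 0) (nat_lit 1) (nat_lit 5) (C.cons (nat_lit 291) (C.node (nat_lit 0) (nat_lit 1) (nat_lit 3) (C.cons (nat_lit 75) (C.ref (nat_lit 429) (nat_lit 205163983024656)) (C.cons (nat_lit 11) (C.node (nat_lit 0) (nat_lit 1) (nat_lit 6) (C.cons (nat_lit 67) (C.ref (nat_lit 430) (nat_lit 205163983024656)) C.nil)) C.nil))) (C.cons (nat_lit 43) (C.node (nat_lit 0) (nat_lit 1) (nat_lit 6) (C.cons (nat_lit 323) (C.ref (nat_lit 429) (nat_lit 205163967296016)) (C.cons (nat_lit 67) (C.ref (nat_lit 431) (nat_lit 205163983024656)) C.nil))) (C.cons (nat_lit 35) (C.node (nat_lit 0) (nat_lit 1) (nat_lit 3) (C.cons (nat_lit 267) (C.node (nat_lit 0) (nat_lit 1) (nat_lit 6) (C.cons (nat_lit 67) (C.node (nat_lit 0) (nat_lit 3) (nat_lit 5) (C.cons (nat_lit 553) (C.node (nat_lit 0) (nat_lit 3) (nat_lit 6) (C.cons (nat_lit 73) (C.node (nat_lit 0) (nat_lit 2) (nat_lit 5) (C.cons (nat_lit 293) (C.node (nat_lit 0) (nat_lit 4) (nat_lit 5) C.nil) (C.cons (nat_lit 53) (C.node (nat_lit 0) (nat_lit 5) (nat_lit 8) C.nil) C.nil)))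 C.nil)) (C.cons (nat_lit 41) (C.node (nat_lit 0) (nat_lit 3) (nat_lit 6) (C.cons (nat_lit 585) (C.node (nat_lit 0) (nat_lit 2) (nat_lit 6) (C.cons (nat_lit 325) (C.node (nat_lit 0) (nat_lit 4) (nat_lit 6) C.nil) (C.cons (nat_lit 85) (C.node (nat_lit 0) (nat_lit 6) (nat_lit 8) C.nil) C.nil))) C.nil)) C.nil))) C.nil)) (C.cons (nat_lit 75) (C.ref (nat_lit 431) (nat_lit 205163967296016)) (C.cons (nat_lit 11) (C.node (nat_lit 0) (nat_lit 1) (nat_lit 6) (C.cons (nat_lit 323) (C.ref (nat_lit 430) (nat_lit 205163967296016)) (C.cons (nat_lit 67) (C.node (nat_lit 0) (nat_lit 1) (nat_lit 8) C.nil) C.nil))) C.nil)))) C.nil)))) (List.cons (C.node (nat_lit 0) (nat_lit 2) (nat_lit 7) (C.cons (nat_lit 389) (C.node (nat_lit 0) (nat_lit 1) (nat_lit 5) (C.cons (nat_lit 291) (C.ref (nat_lit 428) (nat_lit 205163983024656)) (C.cons (nat_lit 43) (C.ref (nat_lit 428) (nat_lit 134431240716816)) (C.cons (nat_lit 35) (C.node (nat_lit 0) (nat_lit 1) (nat_lit 3) (C.cons (nat_lit 267) (C.node (nat_lit 0) (nat_lit 1) (nat_lit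 6) (C.cons (nat_lit 67) (C.node (nat_lit 0) (nat_lit 3) (nat_lit 5) (C.cons (nat_lit 553) (C.node (nat_lit 0) (nat_lit 3) (nat_lit 6) (C.cons (nat_lit 73) (C.node (nat_lit 0) (nat_lit 2) (nat_lit 5) (C.cons (nat_lit 53) (C.pat (nat_lit 2) (nat_lit 24027182195) (nat_lit 1182071868701682239713829279425187319025045249)) (C.cons (nat_lit 37) (C.node (nat_lit 0) (nat_lit 4) (nat_lit 5) (C.cons (nat_lit 305) (C.pat (nat_lit 1) (nat_lit 1536641073) (nat_lit 10732657692982228559436691887600766721)) (C.cons (nat_lit 49) (C.node (nat_lit 0) (nat_lit 5) (nat_lit 8) C.nil) C.nil))) C.nil))) C.nil)) (C.cons (nat_lit 41) (C.node (nat_lit 0) (nat_lit 3) (nat_lit 6) (C.cons (nat_lit 585) (C.node (nat_lit 0) (nat_lit 2) (nat_lit 6) (C.cons (nat_lit 85) (C.pat (nat_lit 2) (nat_lit 28322149491) (nat_lit 1895695715054662180242972854445745245922070273)) (C.cons (nat_lit 69) (C.node (nat_lit 0) (nat_lit 4) (nat_lit 6) (C.cons (nat_lit 337) (C.pat (nat_lit 1) (nat_lit 1805076529) (nat_lit 10732657692982229149741509445561159425))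 (C.cons (nat_lit 81) (C.node (nat_lit 0) (nat_lit 6) (nat_lit 8) C.nil) C.nil))) C.nil))) (C.cons (nat_lit 73) (C.node (nat_lit 0) (nat_lit 3) (nat_lit 9) (C.cons (nat_lit 521)
  (C.node (nat_lit 0) (nat_lit 5) (nat_lit 8) (C.cons (nat_lit 305) (C.node (nat_lit 0) (nat_lit 6) (nat_lit 8) C.nil) C.nil)) C.nil)) C.nil))) C.nil))) C.nil)) (C.cons (nat_lit 75) (C.node (nat_lit 0) (nat_lit 1) (nat_lit 8) (C.cons (nat_lit 259) (C.ref (nat_lit 427) (nat_lit 134431224988176)) C.nil)) (C.cons (nat_lit 11) (C.node (nat_lit 0) (nat_lit 1) (nat_lit 6) (C.cons (nat_lit 323) (C.ref (nat_lit 427) (nat_lit 205163967296016)) (C.cons (nat_lit 67) (C.node (nat_lit 0) (nat_lit 1) (nat_lit 8) (C.cons (nat_lit 259) (C.node (nat_lit 0) (nat_lit 2) (nat_lit 5) (C.cons (nat_lit 549) (C.node (nat_lit 0) (nat_lit 2) (nat_lit 4) (C.cons (nat_lit 85) (C.node (nat_lit 0) (nat_lit 4) (nat_lit 9) (C.cons (nat_lit 529) (C.node (nat_lit 0) (nat_lit 3) (nat_lit 5) (C.cons (nat_lit 297) (C.node (nat_lit 0) (nat_lit 4) (nat_lit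 5) C.nil) C.nil)) C.nil)) (C.cons (nat_lit 21) (C.node (nat_lit 0) (nat_lit 2) (nat_lit 6) C.nil) C.nil))) (C.cons (nat_lit 53) (C.node (nat_lit 0) (nat_lit 2) (nat_lit 9) (C.cons (nat_lit 581) (C.node (nat_lit 0) (nat_lit 9) (nat_lit 4) (C.cons (nat_lit 529) (C.node (nat_lit 0) (nat_lit 8) (nat_lit 5) (C.cons (nat_lit 297) (C.node (nat_lit 0) (nat_lit 9) (nat_lit 5) C.nil) C.nil)) C.nil)) (C.cons (nat_lit 517) (C.node (nat_lit 0) (nat_lit 2) (nat_lit 6) C.nil) C.nil))) (C.cons (nat_lit 37) (C.node (nat_lit 0) (nat_lit 2) (nat_lit 4) (C.cons (nat_lit 533) (C.node (nat_lit 0) (nat_lit 2) (nat_lit 6) C.nil) (C.cons (nat_lit 85) (C.node (nat_lit 0) (nat_lit 2) (nat_lit 9) C.nil) C.nil))) C.nil)))) C.nil)) C.nil))) C.nil)))) C.nil)))) (C.cons (nat_lit 133) (C.node (nat_lit 0) (nat_lit 7) (nat_lit 8) (C.cons (nat_lit 385) (C.ref (nat_lit 432) (nat_lit 205163983024656)) C.nil)) C.nil))) (List.cons (C.node (nat_lit 0) (nat_lit 3) (nat_lit 5) (C.cons (nat_lit 297) (C.node (nat_lit 0) (nat_lit 1) (nat_lit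 3) (C.cons (nat_lit 75) (C.node (nat_lit 0) (nat_lit 1) (nat_lit 8) (C.cons (nat_lit 259) (C.node (nat_lit 0) (nat_lit 3) (nat_lit 9) C.nil) C.nil)) (C.cons (nat_lit 11) (C.node (nat_lit 0) (nat_lit 1) (nat_lit 6) (C.cons (nat_lit 323) (C.node (nat_lit 0) (nat_lit 2) (nat_lit 5) (C.cons (nat_lit 53) (C.node (nat_lit 0) (nat_lit 2) (nat_lit 8) C.nil) C.nil)) C.nil)) C.nil))) (C.cons (nat_lit 41) (C.node (nat_lit 0) (nat_lit 3) (nat_lit 9) (C.cons (nat_lit 585) (C.node (nat_lit 0) (nat_lit 1) (nat_lit 3) (C.cons (nat_lit 267) (C.node (nat_lit 0) (nat_lit 1) (nat_lit 6) C.nil) C.nil)) C.nil)) C.nil))) (List.cons (C.node (nat_lit 0) (nat_lit 1) (nat_lit 5) (C.cons (nat_lit 547) (C.ref (nat_lit 434) (nat_lit 205163983024656)) (C.cons (nat_lit 291) (C.ref (nat_lit 434) (nat_lit 205099558515216)) (C.cons (nat_lit 43) (C.node (nat_lit 0) (nat_lit 1) (nat_lit 8) (C.cons (nat_lit 323) (C.node (nat_lit 0) (nat_lit 1) (nat_lit 9) (C.cons (nat_lit 515) (C.node (nat_lit 0) (nat_lit 3) (nat_lit 8) C.nil) C.nil))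 (C.cons (nat_lit 259) (C.node (nat_lit 0) (nat_lit 1) (nat_lit 6) (C.cons (nat_lit 579) (C.node (nat_lit 0) (nat_lit 3) (nat_lit 9) C.nil) C.nil)) C.nil))) (C.cons (nat_lit 35) (C.node (nat_lit 0) (nat_lit 1) (nat_lit 8) (C.cons (nat_lit 323) (C.node (nat_lit 0) (nat_lit 1) (nat_lit 3) (C.cons (nat_lit 523) (C.node (nat_lit 0) (nat_lit 3) (nat_lit 6) C.nil) C.nil)) (C.cons (nat_lit 267) (C.node (nat_lit 0) (nat_lit 1) (nat_lit 6) (C.cons (nat_lit 579) (C.node (nat_lit 0) (nat_lit 3) (nat_lit 6) C.nil) C.nil)) C.nil))) C.nil))))) (List.cons (C.node (nat_lit 0) (nat_lit 1) (nat_lit 7) (C.cons (nat_lit 643) (C.ref (nat_lit 433) (nat_lit 205163983024656)) (C.cons (nat_lit 387) (C.ref (nat_lit 433) (nat_lit 205099558515216)) (C.cons (nat_lit 131) (C.node (nat_lit 0) (nat_lit 7) (nat_lit 8) (C.cons (nat_lit 389) (C.node (nat_lit 0) (nat_lit 7) (nat_lit 9) (C.cons (nat_lit 641) (C.ref (nat_lit 432) (nat_lit 205099558453536)) C.nil)) (C.cons (nat_lit 385) (C.node (nat_lit 0) (nat_lit 2) (nat_lit 7)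 (C.cons (nat_lit 645) (C.ref (nat_lit 432) (nat_lit 205163982962976)) (C.cons (nat_lit 133) (C.node (nat_lit 0) (nat_lit 7) (nat_lit 9)
  (C.cons (nat_lit 641) (C.ref (nat_lit 435) (nat_lit 205163983024656)) C.nil)) C.nil))) C.nil))) C.nil)))) (List.cons (C.node (nat_lit 0) (nat_lit 3) (nat_lit 8) (C.cons (nat_lit 329) (C.node (nat_lit 0) (nat_lit 3) (nat_lit 9) (C.cons (nat_lit 521) (C.node (nat_lit 0) (nat_lit 4) (nat_lit 6) (C.cons (nat_lit 593) (C.pat (nat_lit 3) (nat_lit 38998784886) (nat_lit 85657865674547226768727402720738791489014401249)) (C.cons (nat_lit 81) (C.node (nat_lit 0) (nat_lit 6) (nat_lit 9) C.nil) C.nil))) C.nil)) (C.cons (nat_lit 265) (C.node (nat_lit 0) (nat_lit 3) (nat_lit 6) (C.cons (nat_lit 585) (C.node (nat_lit 0) (nat_lit 4) (nat_lit 6) (C.cons (nat_lit 337) (C.node (nat_lit 0) (nat_lit 5) (nat_lit 8) (C.cons (nat_lit 289) (C.node (nat_lit 0) (nat_lit 2) (nat_lit 4) (C.cons (nat_lit 53) (C.node (nat_lit 0) (nat_lit 2) (nat_lit 9) C.nil) (C.cons (nat_lit 533) (C.pat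 (nat_lit 1) (nat_lit 2339980833) (nat_lit 10732781922741051516167686185184200929)) C.nil))) C.nil)) (C.cons (nat_lit 81) (C.node (nat_lit 0) (nat_lit 6) (nat_lit 8) C.nil) C.nil))) (C.cons (nat_lit 73) (C.node (nat_lit 0) (nat_lit 3) (nat_lit 9) C.nil) C.nil))) C.nil))) (List.cons (C.node (nat_lit 0) (nat_lit 1) (nat_lit 3) (C.cons (nat_lit 267) (C.node (nat_lit 0) (nat_lit 1) (nat_lit 5) (C.cons (nat_lit 35) (C.node (nat_lit 0) (nat_lit 3) (nat_lit 5) (C.cons (nat_lit 553) (C.node (nat_lit 0) (nat_lit 3) (nat_lit 6) (C.cons (nat_lit 73) (C.node (nat_lit 0) (nat_lit 2) (nat_lit 5) (C.cons (nat_lit 53) (C.pat (nat_lit 2) (nat_lit 24027182195) (nat_lit 1182071868701682239713829279425187319025045249)) (C.cons (nat_lit 37) (C.node (nat_lit 0) (nat_lit 2) (nat_lit 4) (C.cons (nat_lit 533) (C.pat (nat_lit 1) (nat_lit 699693105) (nat_lit 3338689111147371113544050749581364993)) C.nil)) C.nil))) C.nil)) (C.cons (nat_lit 41) (C.node (nat_lit 0) (nat_lit 3) (nat_lit 6) (C.cons (nat_lit 585) (C.pat (nat_lit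 1) (nat_lit 3107485217) (nat_lit 3338951195732936578332311705427968585)) (C.cons (nat_lit 73) (C.node (nat_lit 0) (nat_lit 3) (nat_lit 9) C.nil) C.nil))) C.nil))) C.nil)) (C.cons (nat_lit 43) (C.node (nat_lit 0) (nat_lit 1) (nat_lit 8) (C.cons (nat_lit 259) (C.ref (nat_lit 437) (nat_lit 205163983024656)) C.nil)) (C.cons (nat_lit 11) (C.node (nat_lit 0) (nat_lit 1) (nat_lit 5) (C.cons (nat_lit 291) (C.ref (nat_lit 437) (nat_lit 134431240716816)) (C.cons (nat_lit 35) (C.node (nat_lit 0) (nat_lit 1) (nat_lit 8) (C.cons (nat_lit 259) (C.node (nat_lit 0) (nat_lit 2) (nat_lit 4) (C.cons (nat_lit 533) (C.node (nat_lit 0) (nat_lit 2) (nat_lit 5) C.nil) (C.cons (nat_lit 53) (C.node (nat_lit 0) (nat_lit 2) (nat_lit 9) C.nil) C.nil))) C.nil)) C.nil))) C.nil)))) (List.cons (C.node (nat_lit 0) (nat_lit 1) (nat_lit 3) (C.cons (nat_lit 75) (C.node (nat_lit 0) (nat_lit 3) (nat_lit 8) (C.cons (nat_lit 265) (C.node (nat_lit 0) (nat_lit 3) (nat_lit 5) (C.cons (nat_lit 553) (C.node (nat_lit 0) (nat_lit 2) (nat_lit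 5) (C.cons (nat_lit 53) (C.pat (nat_lit 3) (nat_lit 6849506165) (nat_lit 46096947353272881492269269235792872390907988193)) (C.cons (nat_lit 37) (C.node (nat_lit 0) (nat_lit 4) (nat_lit 5) C.nil) C.nil))) (C.cons (nat_lit 41) (C.node (nat_lit 0) (nat_lit 3) (nat_lit 9) C.nil) C.nil))) C.nil)) (C.cons (nat_lit 11) (C.node (nat_lit 0) (nat_lit 1) (nat_lit 6) (C.cons (nat_lit 67) (C.node (nat_lit 0) (nat_lit 3) (nat_lit 5) (C.cons (nat_lit 553) (C.node (nat_lit 0) (nat_lit 2) (nat_lit 5) (C.cons (nat_lit 53) (C.pat (nat_lit 3) (nat_lit 6849506165) (nat_lit 46096947353272881492269269235792872390907988193)) C.nil)) C.nil)) C.nil)) C.nil))) (List.cons (C.node (nat_lit 0) (nat_lit 1) (nat_lit 8) (C.cons (nat_lit 291) (C.node (nat_lit 0) (nat_lit 3) (nat_lit 8) (C.cons (nat_lit 265) (C.node (nat_lit 0) (nat_lit 3) (nat_lit 5) (C.cons (nat_lit 553) (C.node (nat_lit 0) (nat_lit 1) (nat_lit 3) (C.cons (nat_lit 75) (C.node (nat_lit 0) (nat_lit 1) (nat_lit 2) (C.cons (nat_lit 519) (C.node (nat_lit 0) (nat_lit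 2) (nat_lit 6) C.nil) C.nil)) C.nil)) C.nil)) C.nil)) (C.cons (nat_lit 267)
  (C.node (nat_lit 0) (nat_lit 5) (nat_lit 8) (C.cons (nat_lit 289) (C.node (nat_lit 0) (nat_lit 3) (nat_lit 5) (C.cons (nat_lit 553) (C.node (nat_lit 0) (nat_lit 3) (nat_lit 6) C.nil) C.nil)) C.nil)) (C.cons (nat_lit 259) (C.node (nat_lit 0) (nat_lit 3) (nat_lit 8) (C.cons (nat_lit 297) (C.node (nat_lit 0) (nat_lit 1) (nat_lit 3) (C.cons (nat_lit 523) (C.node (nat_lit 0) (nat_lit 3) (nat_lit 6) C.nil) (C.cons (nat_lit 75) (C.node (nat_lit 0) (nat_lit 3) (nat_lit 9) C.nil) C.nil))) C.nil)) C.nil)))) (List.cons (C.node (nat_lit 0) (nat_lit 4) (nat_lit 8) (C.cons (nat_lit 337) (C.ref (nat_lit 440) (nat_lit 205163983024656)) (C.cons (nat_lit 305) (C.ref (nat_lit 440) (nat_lit 205163967296016)) (C.cons (nat_lit 273) (C.node (nat_lit 0) (nat_lit 4) (nat_lit 5) (C.cons (nat_lit 561) (C.node (nat_lit 0) (nat_lit 2) (nat_lit 4) (C.cons (nat_lit 85) (C.node (nat_lit 0) (nat_lit 2) (nat_lit 5) (C.cons (nat_lit 39) (C.node (nat_lit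 0) (nat_lit 2) (nat_lit 9) C.nil) C.nil)) C.nil)) (C.cons (nat_lit 53) (C.node (nat_lit 0) (nat_lit 4) (nat_lit 6) (C.cons (nat_lit 593) (C.node (nat_lit 0) (nat_lit 2) (nat_lit 6) (C.cons (nat_lit 71) (C.node (nat_lit 0) (nat_lit 2) (nat_lit 9) C.nil) C.nil)) C.nil)) C.nil))) C.nil)))) (List.cons (C.node (nat_lit 0) (nat_lit 1) (nat_lit 7) (C.cons (nat_lit 643) (C.node (nat_lit 0) (nat_lit 1) (nat_lit 2) (C.cons (nat_lit 71) (C.ref (nat_lit 438) (nat_lit 205163983024656)) (C.cons (nat_lit 39) (C.ref (nat_lit 438) (nat_lit 205163967296016)) (C.cons (nat_lit 7) (C.node (nat_lit 0) (nat_lit 1) (nat_lit 5) (C.cons (nat_lit 291) (C.ref (nat_lit 439) (nat_lit 205163983024656)) (C.cons (nat_lit 43) (C.ref (nat_lit 439) (nat_lit 134431240716816)) (C.cons (nat_lit 35) (C.node (nat_lit 0) (nat_lit 1) (nat_lit 3) (C.cons (nat_lit 267) (C.node (nat_lit 0) (nat_lit 1) (nat_lit 6) (C.cons (nat_lit 67) (C.node (nat_lit 0) (nat_lit 3) (nat_lit 5) (C.cons (nat_lit 553) (C.node (nat_lit 0) (nat_lit 3) (nat_lit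 6) C.nil) C.nil)) C.nil)) (C.cons (nat_lit 75) (C.node (nat_lit 0) (nat_lit 1) (nat_lit 8) (C.cons (nat_lit 259) (C.node (nat_lit 0) (nat_lit 8) (nat_lit 6) (C.cons (nat_lit 337) (C.node (nat_lit 0) (nat_lit 2) (nat_lit 6) (C.cons (nat_lit 581) (C.pat (nat_lit 3) (nat_lit 5429012406) (nat_lit 14339779685733838547012979401309815089383409889)) C.nil)) C.nil)) C.nil)) (C.cons (nat_lit 11) (C.node (nat_lit 0) (nat_lit 1) (nat_lit 6) (C.cons (nat_lit 323) (C.node (nat_lit 0) (nat_lit 3) (nat_lit 6) (C.cons (nat_lit 585) (C.node (nat_lit 0) (nat_lit 2) (nat_lit 6) (C.cons (nat_lit 85) (C.pat (nat_lit 3) (nat_lit 6849506166) (nat_lit 46096947353272881492269269235801879727603779809)) C.nil)) C.nil)) C.nil)) C.nil)))) C.nil)))) C.nil)))) (C.cons (nat_lit 131) (C.node (nat_lit 0) (nat_lit 7) (nat_lit 9) (C.cons (nat_lit 641) (C.ref (nat_lit 441) (nat_lit 205163983024656)) C.nil)) C.nil))) (List.cons (C.node (nat_lit 0) (nat_lit 7) (nat_lit 8) (C.cons (nat_lit 389) (C.ref (nat_lit 442) (nat_lit 205163983024656))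 (C.cons (nat_lit 387) (C.ref (nat_lit 442) (nat_lit 205163982962976)) (C.cons (nat_lit 385) (C.node (nat_lit 0) (nat_lit 1) (nat_lit 7) (C.cons (nat_lit 643) (C.node (nat_lit 0) (nat_lit 2) (nat_lit 7) (C.cons (nat_lit 133) (C.ref (nat_lit 441) (nat_lit 205099558453536)) C.nil)) (C.cons (nat_lit 135) (C.node (nat_lit 0) (nat_lit 7) (nat_lit 9) (C.cons (nat_lit 641) (C.ref (nat_lit 435) (nat_lit 201647263592976)) C.nil)) (C.cons (nat_lit 131) (C.node (nat_lit 0) (nat_lit 2) (nat_lit 7) (C.cons (nat_lit 645) (C.ref (nat_lit 441) (nat_lit 205099558515216)) (C.cons (nat_lit 133) (C.node (nat_lit 0) (nat_lit 7) (nat_lit 9) C.nil) C.nil))) C.nil)))) C.nil)))) (List.cons (C.node (nat_lit 0) (nat_lit 2) (nat_lit 4) (C.cons (nat_lit 533) (C.node (nat_lit 0) (nat_lit 4) (nat_lit 6) (C.cons (nat_lit 337) (C.node (nat_lit 0) (nat_lit 1) (nat_lit 4) (C.cons (nat_lit 51) (C.pat (nat_lit 2) (nat_lit 44400998722) (nat_lit 85657276982978676235010795414693119123671812321)) (C.cons (nat_lit 19) (C.node (nat_lit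 0) (nat_lit 4) (nat_lit 5)
  (C.cons (nat_lit 49) (C.node (nat_lit 0) (nat_lit 3) (nat_lit 6) (C.cons (nat_lit 585) (C.pat (nat_lit 1) (nat_lit 1754561330) (nat_lit 2019830178505214646048680701687566081)) (C.cons (nat_lit 73) (C.node (nat_lit 0) (nat_lit 6) (nat_lit 9) C.nil) C.nil))) C.nil)) C.nil))) (C.cons (nat_lit 81) (C.node (nat_lit 0) (nat_lit 5) (nat_lit 9) (C.cons (nat_lit 553) (C.node (nat_lit 0) (nat_lit 6) (nat_lit 9) (C.cons (nat_lit 577) (C.node (nat_lit 0) (nat_lit 1) (nat_lit 3) (C.cons (nat_lit 267) (C.node (nat_lit 0) (nat_lit 3) (nat_lit 6) (C.cons (nat_lit 73) (C.node (nat_lit 0) (nat_lit 6) (nat_lit 8) C.nil) C.nil)) (C.cons (nat_lit 11) (C.node (nat_lit 0) (nat_lit 3) (nat_lit 6) (C.cons (nat_lit 329) (C.node (nat_lit 0) (nat_lit 1) (nat_lit 4) (C.cons (nat_lit 275) (C.pat (nat_lit 3) (nat_lit 39002191986) (nat_lit 85657255888545853710765193707864873768101675397)) (C.cons (nat_lit 51) (C.node (nat_lit 0) (nat_lit 1) (nat_lit 8) C.nil) C.nil))) C.nil)) C.nil))) C.nil)) (C.cons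 (nat_lit 545) (C.node (nat_lit 0) (nat_lit 3) (nat_lit 9) (C.cons (nat_lit 585) (C.node (nat_lit 0) (nat_lit 6) (nat_lit 8) (C.cons (nat_lit 321) (C.node (nat_lit 0) (nat_lit 1) (nat_lit 3) (C.cons (nat_lit 43) (C.node (nat_lit 0) (nat_lit 8) (nat_lit 3) C.nil) (C.cons (nat_lit 267) (C.pat (nat_lit 1) (nat_lit 3107485217) (nat_lit 3338951195732936578332311705427968585)) C.nil))) C.nil)) (C.cons (nat_lit 521) (C.node (nat_lit 0) (nat_lit 6) (nat_lit 9) C.nil) C.nil))) C.nil))) C.nil))) (C.cons (nat_lit 21) (C.node (nat_lit 0) (nat_lit 2) (nat_lit 9) (C.cons (nat_lit 517) (C.node (nat_lit 0) (nat_lit 1) (nat_lit 3) (C.cons (nat_lit 267) (C.node (nat_lit 0) (nat_lit 1) (nat_lit 4) (C.cons (nat_lit 51) (C.node (nat_lit 0) (nat_lit 5) (nat_lit 8) (C.cons (nat_lit 289) (C.node (nat_lit 0) (nat_lit 3) (nat_lit 5) (C.cons (nat_lit 553) (C.node (nat_lit 0) (nat_lit 3) (nat_lit 6) C.nil) C.nil)) C.nil)) (C.cons (nat_lit 19) (C.node (nat_lit 0) (nat_lit 1) (nat_lit 5) C.nil) C.nil))) (C.cons (nat_lit 43)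 (C.node (nat_lit 0) (nat_lit 1) (nat_lit 4) (C.cons (nat_lit 275) (C.node (nat_lit 0) (nat_lit 5) (nat_lit 8) (C.cons (nat_lit 289) (C.node (nat_lit 0) (nat_lit 3) (nat_lit 8) (C.cons (nat_lit 329) (C.node (nat_lit 0) (nat_lit 3) (nat_lit 9) C.nil) C.nil)) C.nil)) (C.cons (nat_lit 19) (C.node (nat_lit 0) (nat_lit 1) (nat_lit 8) C.nil) C.nil))) (C.cons (nat_lit 11) (C.node (nat_lit 0) (nat_lit 1) (nat_lit 4) (C.cons (nat_lit 275) (C.node (nat_lit 0) (nat_lit 1) (nat_lit 5) C.nil) (C.cons (nat_lit 51) (C.node (nat_lit 0) (nat_lit 1) (nat_lit 8) C.nil) C.nil))) C.nil)))) C.nil)) C.nil))) (List.cons (C.node (nat_lit 0) (nat_lit 5) (nat_lit 9) (C.cons (nat_lit 553) (C.node (nat_lit 0) (nat_lit 6) (nat_lit 9) (C.cons (nat_lit 577) (C.node (nat_lit 0) (nat_lit 1) (nat_lit 3) (C.cons (nat_lit 267) (C.node (nat_lit 0) (nat_lit 3) (nat_lit 6) C.nil) (C.cons (nat_lit 75) (C.node (nat_lit 0) (nat_lit 3) (nat_lit 8) C.nil) C.nil))) C.nil)) (C.cons (nat_lit 545) (C.node (nat_lit 0) (nat_lit 3) (nat_lit 9)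 (C.cons (nat_lit 585) (C.node (nat_lit 0) (nat_lit 1) (nat_lit 6) (C.cons (nat_lit 83) (C.node (nat_lit 0) (nat_lit 8) (nat_lit 6) C.nil) (C.cons (nat_lit 323) (C.node (nat_lit 0) (nat_lit 6) (nat_lit 4) C.nil) C.nil))) C.nil)) C.nil))) (List.cons (C.node (nat_lit 0) (nat_lit 1) (nat_lit 2) (C.cons (nat_lit 71) (C.ref (nat_lit 444) (nat_lit 205163983024656)) (C.cons (nat_lit 23) (C.ref (nat_lit 444) (nat_lit 188671273095696)) (C.cons (nat_lit 7) (C.node (nat_lit 0) (nat_lit 2) (nat_lit 4) (C.cons (nat_lit 533) (C.node (nat_lit 0) (nat_lit 2) (nat_lit 6) (C.cons (nat_lit 69) (C.ref (nat_lit 445) (nat_lit 205163983024656)) C.nil)) (C.cons (nat_lit 85) (C.node (nat_lit 0) (nat_lit 2) (nat_lit 9) (C.cons (nat_lit 517) (C.node (nat_lit 0) (nat_lit 4) (nat_lit 9) (C.cons (nat_lit 561) (C.node (nat_lit 0) (nat_lit 1) (nat_lit 4) (C.cons (nat_lit 275) (C.node (nat_lit 0) (nat_lit 1) (nat_lit 5) (C.cons (nat_lit 43) (C.node (nat_lit 0) (nat_lit 1) (nat_lit 6) (C.cons (nat_lit 67)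
  (C.node (nat_lit 0) (nat_lit 5) (nat_lit 8) C.nil) C.nil)) (C.cons (nat_lit 35) (C.node (nat_lit 0) (nat_lit 1) (nat_lit 3) (C.cons (nat_lit 75) (C.node (nat_lit 0) (nat_lit 3) (nat_lit 9) C.nil) C.nil)) C.nil))) (C.cons (nat_lit 19) (C.node (nat_lit 0) (nat_lit 4) (nat_lit 8) C.nil) C.nil))) (C.cons (nat_lit 529) (C.node (nat_lit 0) (nat_lit 5) (nat_lit 9) (C.cons (nat_lit 553) (C.node (nat_lit 0) (nat_lit 6) (nat_lit 9) C.nil) C.nil)) C.nil))) C.nil)) (C.cons (nat_lit 21) (C.node (nat_lit 0) (nat_lit 2) (nat_lit 6) (C.cons (nat_lit 581) (C.ref (nat_lit 445) (nat_lit 188671273095696)) (C.cons (nat_lit 69) (C.node (nat_lit 0) (nat_lit 2) (nat_lit 9) C.nil) C.nil))) C.nil)))) C.nil)))) (List.cons (C.node (nat_lit 0) (nat_lit 2) (nat_lit 4) (C.cons (nat_lit 85) (C.node (nat_lit 0) (nat_lit 4) (nat_lit 9) (C.cons (nat_lit 561) (C.node (nat_lit 0) (nat_lit 1) (nat_lit 4) (C.cons (nat_lit 275) (C.node (nat_lit 0) (nat_lit 1) (nat_lit 5) (C.cons (nat_lit 43) (C.pat (nat_lit 5) (nat_lit 623982115410)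 (nat_lit 85657562822814909088597035256709715405828063275)) (C.cons (nat_lit 35) (C.node (nat_lit 0) (nat_lit 1) (nat_lit 3) (C.cons (nat_lit 75) (C.node (nat_lit 0) (nat_lit 3) (nat_lit 9) C.nil) C.nil)) C.nil))) (C.cons (nat_lit 19) (C.node (nat_lit 0) (nat_lit 4) (nat_lit 8) C.nil) C.nil))) (C.cons (nat_lit 529) (C.node (nat_lit 0) (nat_lit 5) (nat_lit 9) (C.cons (nat_lit 553) (C.node (nat_lit 0) (nat_lit 6) (nat_lit 9) C.nil) C.nil)) C.nil))) (C.cons (nat_lit 21) (C.node (nat_lit 0) (nat_lit 2) (nat_lit 6) C.nil) C.nil))) (List.cons (C.node (nat_lit 0) (nat_lit 1) (nat_lit 2) (C.cons (nat_lit 519) (C.ref (nat_lit 447) (nat_lit 205163983024656)) (C.cons (nat_lit 71) (C.ref (nat_lit 447) (nat_lit 201647263592976)) (C.cons (nat_lit 23) (C.ref (nat_lit 447) (nat_lit 183909317235216)) (C.cons (nat_lit 7) (C.node (nat_lit 0) (nat_lit 2) (nat_lit 4) (C.cons (nat_lit 533) (C.node (nat_lit 0) (nat_lit 2) (nat_lit 6) C.nil) (C.cons (nat_lit 85) (C.node (nat_lit 0) (nat_lit 2) (nat_lit 9) C.nil) C.nil)))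 C.nil))))) List.nil))))))))))))))))))

theorem ok12_431 : okL par12 (nat_lit 449) c12_431 (nat_lit 431) = true := by decide +kernel

noncomputable def c12_449 : List C :=
  (List.cons (C.node (nat_lit 0) (nat_lit 3) (nat_lit 8) (C.cons (nat_lit 297) (C.node (nat_lit 0) (nat_lit 4) (nat_lit 8) (C.cons (nat_lit 273) (C.node (nat_lit 0) (nat_lit 1) (nat_lit 2) (C.cons (nat_lit 519) (C.node (nat_lit 0) (nat_lit 2) (nat_lit 4) C.nil) (C.cons (nat_lit 23) (C.node (nat_lit 0) (nat_lit 2) (nat_lit 9) C.nil) C.nil))) C.nil)) (C.cons (nat_lit 265) (C.node (nat_lit 0) (nat_lit 4) (nat_lit 8) (C.cons (nat_lit 305) (C.node (nat_lit 0) (nat_lit 1) (nat_lit 2) (C.cons (nat_lit 519) (C.node (nat_lit 0) (nat_lit 2) (nat_lit 4) C.nil) (C.cons (nat_lit 23) (C.node (nat_lit 0) (nat_lit 2) (nat_lit 9) C.nil) C.nil))) C.nil)) C.nil))) (List.cons (C.node (nat_lit 0) (nat_lit 2) (nat_lit 8) (C.cons (nat_lit 325) (C.ref (nat_lit 449) (nat_lit 205163983024656)) (C.cons (nat_lit 277) (C.ref (nat_lit 449) (nat_lit 188671273095696))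 (C.cons (nat_lit 261) (C.node (nat_lit 0) (nat_lit 3) (nat_lit 8) (C.cons (nat_lit 329) (C.node (nat_lit 0) (nat_lit 4) (nat_lit 8) (C.cons (nat_lit 305) (C.node (nat_lit 0) (nat_lit 1) (nat_lit 3) (C.cons (nat_lit 523) (C.node (nat_lit 0) (nat_lit 1) (nat_lit 5) C.nil) (C.cons (nat_lit 43) (C.node (nat_lit 0) (nat_lit 3) (nat_lit 9) C.nil) C.nil))) C.nil)) (C.cons (nat_lit 297) (C.node (nat_lit 0) (nat_lit 4) (nat_lit 8) (C.cons (nat_lit 337) (C.node (nat_lit 0) (nat_lit 1) (nat_lit 3) (C.cons (nat_lit 523) (C.node (nat_lit 0) (nat_lit 3) (nat_lit 6) C.nil) (C.cons (nat_lit 75) (C.node (nat_lit 0) (nat_lit 3) (nat_lit 9) C.nil) C.nil))) C.nil)) C.nil))) C.nil)))) (List.cons (C.node (nat_lit 0) (nat_lit 2) (nat_lit 4) (C.cons (nat_lit 533) (C.node (nat_lit 0) (nat_lit 4) (nat_lit 6) (C.cons (nat_lit 83) (C.node (nat_lit 0) (nat_lit 3) (nat_lit 6) (C.cons (nat_lit 585) (C.node (nat_lit 0) (nat_lit 1) (nat_lit 9) (C.cons (nat_lit 547) (C.node (nat_lit 0) (nat_lit 1) (nat_lit 3) (C.cons (nat_lit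 267) (C.pat (nat_lit 2) (nat_lit 39754099506) (nat_lit 85657253169059471130926899789817071148439765075)) (C.cons (nat_lit 11) (C.node (nat_lit 0) (nat_lit 1) (nat_lit 8) C.nil) C.nil))) (C.cons (nat_lit 515) (C.node (nat_lit 0) (nat_lit 5) (nat_lit 9) C.nil) C.nil))) (C.cons (nat_lit 73) (C.node (nat_lit 0) (nat_lit 6) (nat_lit 9) C.nil) C.nil))) (C.cons (nat_lit 81) (C.node (nat_lit 0) (nat_lit 1) (nat_lit 4) (C.cons (nat_lit 275) (C.node (nat_lit 0) (nat_lit 4) (nat_lit 5) C.nil) (C.cons (nat_lit 51) (C.node (nat_lit 0) (nat_lit 4) (nat_lit 8) C.nil) C.nil))) C.nil))) (C.cons (nat_lit 21) (C.node (nat_lit 0) (nat_lit 2) (nat_lit 9) C.nil) C.nil))) (List.cons (C.node (nat_lit 0) (nat_lit 2) (nat_lit 8) (C.cons (nat_lit 325) (C.ref (nat_lit 451) (nat_lit 205163983024656)) (C.cons (nat_lit 277) (C.ref (nat_lit 451) (nat_lit 188671273095696)) (C.cons (nat_lit 261) (C.node (nat_lit 0) (nat_lit 2) (nat_lit 4) (C.cons (nat_lit 533) (C.node (nat_lit 0) (nat_lit 2) (nat_lit 6) C.nil) (C.cons (nat_lit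 85) (C.node (nat_lit 0) (nat_lit 2) (nat_lit 9) C.nil) C.nil))) C.nil)))) (List.cons (C.node (nat_lit 0) (nat_lit 7) (nat_lit 8) (C.cons (nat_lit 389) (C.node (nat_lit 0) (nat_lit 1) (nat_lit 7) (C.cons (nat_lit 643) (C.ref (nat_lit 446) (nat_lit 205163983024656)) (C.cons (nat_lit 131) (C.node (nat_lit 0) (nat_lit 7) (nat_lit 9) (C.cons (nat_lit 641) (C.ref (nat_lit 448) (nat_lit 205163983024656)) C.nil)) C.nil))) (C.cons (nat_lit 387) (C.node (nat_lit 0) (nat_lit 2) (nat_lit 7) (C.cons (nat_lit 645) (C.ref (nat_lit 446) (nat_lit 205099558515216)) (C.cons (nat_lit 133) (C.node (nat_lit 0) (nat_lit 7) (nat_lit 9) (C.cons (nat_lit 641) (C.ref (nat_lit 450) (nat_lit 205163983024656)) C.nil)) C.nil))) (C.cons (nat_lit 385) (C.node (nat_lit 0) (nat_lit 1) (nat_lit 7) (C.cons (nat_lit 643) (C.node (nat_lit 0) (nat_lit 2) (nat_lit 7) (C.cons (nat_lit 133) (C.ref (nat_lit 450) (nat_lit 205099558515216)) C.nil)) (C.cons (nat_lit 135) (C.node (nat_lit 0) (nat_lit 7) (nat_lit 9) (C.cons (nat_lit 641) (C.ref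 (nat_lit 452) (nat_lit 205163983024656)) C.nil)) (C.cons (nat_lit 131) (C.node (nat_lit 0) (nat_lit 2) (nat_lit 7)
  (C.cons (nat_lit 645) (C.ref (nat_lit 448) (nat_lit 205099558515216)) (C.cons (nat_lit 133) (C.node (nat_lit 0) (nat_lit 7) (nat_lit 9) C.nil) C.nil))) C.nil)))) C.nil)))) (List.cons (C.node (nat_lit 0) (nat_lit 6) (nat_lit 8) (C.cons (nat_lit 325) (C.node (nat_lit 0) (nat_lit 1) (nat_lit 8) (C.cons (nat_lit 387) (C.node (nat_lit 0) (nat_lit 2) (nat_lit 7) (C.cons (nat_lit 645) (C.node (nat_lit 0) (nat_lit 1) (nat_lit 2) (C.cons (nat_lit 23) (C.pat (nat_lit 5) (nat_lit 421901215512) (nat_lit 50689994348995420361316780201947767398329417751)) (C.cons (nat_lit 7) (C.node (nat_lit 0) (nat_lit 2) (nat_lit 4) C.nil) C.nil))) (C.cons (nat_lit 133) (C.node (nat_lit 0) (nat_lit 7) (nat_lit 9) C.nil) C.nil))) (C.cons (nat_lit 259) (C.node (nat_lit 0) (nat_lit 7) (nat_lit 8) C.nil) C.nil))) (C.cons (nat_lit 321) (C.node (nat_lit 0) (nat_lit 1) (nat_lit 4) (C.cons (nat_lit 531) (C.node (nat_lit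 0) (nat_lit 2) (nat_lit 4) (C.cons (nat_lit 85) (C.node (nat_lit 0) (nat_lit 6) (nat_lit 9) C.nil) C.nil)) (C.cons (nat_lit 23) (C.node (nat_lit 0) (nat_lit 1) (nat_lit 8) (C.cons (nat_lit 387) (C.node (nat_lit 0) (nat_lit 1) (nat_lit 9) C.nil) C.nil)) C.nil))) C.nil))) (List.cons (C.node (nat_lit 0) (nat_lit 1) (nat_lit 3) (C.cons (nat_lit 267) (C.node (nat_lit 0) (nat_lit 3) (nat_lit 6) (C.cons (nat_lit 73) (C.node (nat_lit 0) (nat_lit 7) (nat_lit 8) (C.cons (nat_lit 389) (C.node (nat_lit 0) (nat_lit 1) (nat_lit 7) (C.cons (nat_lit 643) (C.node (nat_lit 0) (nat_lit 2) (nat_lit 5) (C.cons (nat_lit 53) (C.node (nat_lit 0) (nat_lit 5) (nat_lit 8) (C.cons (nat_lit 289) (C.node (nat_lit 0) (nat_lit 1) (nat_lit 2) (C.cons (nat_lit 71) (C.node (nat_lit 0) (nat_lit 1) (nat_lit 4) (C.cons (nat_lit 19) (C.node (nat_lit 0) (nat_lit 2) (nat_lit 9) C.nil) C.nil)) (C.cons (nat_lit 7) (C.node (nat_lit 0) (nat_lit 1) (nat_lit 4) (C.cons (nat_lit 83) (C.node (nat_lit 0) (nat_lit 4) (nat_lit 8) C.nil) C.nil))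 C.nil))) C.nil)) (C.cons (nat_lit 37) (C.node (nat_lit 0) (nat_lit 4) (nat_lit 5) (C.cons (nat_lit 305) (C.node (nat_lit 0) (nat_lit 6) (nat_lit 8) (C.cons (nat_lit 321) (C.node (nat_lit 0) (nat_lit 1) (nat_lit 2) (C.cons (nat_lit 71) (C.node (nat_lit 0) (nat_lit 1) (nat_lit 4) C.nil) (C.cons (nat_lit 23) (C.pat (nat_lit 2) (nat_lit 11695129715) (nat_lit 513135952930256075260970112498287609137139457)) C.nil))) C.nil)) (C.cons (nat_lit 49) (C.node (nat_lit 0) (nat_lit 5) (nat_lit 8) C.nil) C.nil))) C.nil))) (C.cons (nat_lit 131) (C.node (nat_lit 0) (nat_lit 7) (nat_lit 9) (C.cons (nat_lit 641) (C.node (nat_lit 0) (nat_lit 2) (nat_lit 5) (C.cons (nat_lit 53) (C.node (nat_lit 0) (nat_lit 5) (nat_lit 8) C.nil) C.nil)) C.nil)) C.nil))) (C.cons (nat_lit 385) (C.node (nat_lit 0) (nat_lit 1) (nat_lit 7) (C.cons (nat_lit 643) (C.node (nat_lit 0) (nat_lit 2) (nat_lit 7) (C.cons (nat_lit 133) (C.node (nat_lit 0) (nat_lit 2) (nat_lit 1) (C.cons (nat_lit 23) (C.node (nat_lit 0) (nat_lit 1) (nat_lit 6) C.nil)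 (C.cons (nat_lit 71) (C.node (nat_lit 0) (nat_lit 1) (nat_lit 4) C.nil) C.nil))) C.nil)) (C.cons (nat_lit 135) (C.node (nat_lit 0) (nat_lit 7) (nat_lit 9) (C.cons (nat_lit 641) (C.node (nat_lit 0) (nat_lit 1) (nat_lit 4) (C.cons (nat_lit 531) (C.node (nat_lit 0) (nat_lit 1) (nat_lit 6) C.nil) (C.cons (nat_lit 83) (C.node (nat_lit 0) (nat_lit 1) (nat_lit 9) C.nil) C.nil))) C.nil)) (C.cons (nat_lit 131) (C.node (nat_lit 0) (nat_lit 2) (nat_lit 7) (C.cons (nat_lit 645) (C.node (nat_lit 0) (nat_lit 1) (nat_lit 2) (C.cons (nat_lit 71) (C.node (nat_lit 0) (nat_lit 1) (nat_lit 4) (C.cons (nat_lit 531) (C.node (nat_lit 0) (nat_lit 6) (nat_lit 9) C.nil) C.nil)) (C.cons (nat_lit 23) (C.node (nat_lit 0) (nat_lit 1) (nat_lit 6) (C.cons (nat_lit 579) (C.node (nat_lit 0) (nat_lit 4) (nat_lit 9) C.nil) C.nil)) C.nil))) C.nil)) C.nil)))) C.nil))) C.nil)) (C.cons (nat_lit 75) (C.node (nat_lit 0) (nat_lit 3) (nat_lit 8) (C.cons (nat_lit 265) (C.node (nat_lit 0) (nat_lit 2) (nat_lit 5) (C.cons (nat_lit 293) (C.node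 (nat_lit 0) (nat_lit 4) (nat_lit 5) (C.cons (nat_lit 49)
  (C.node (nat_lit 0) (nat_lit 6) (nat_lit 8) (C.cons (nat_lit 337) (C.node (nat_lit 0) (nat_lit 1) (nat_lit 8) (C.cons (nat_lit 387) (C.node (nat_lit 0) (nat_lit 2) (nat_lit 6) (C.cons (nat_lit 581) (C.node (nat_lit 0) (nat_lit 2) (nat_lit 7) (C.cons (nat_lit 133) (C.node (nat_lit 0) (nat_lit 7) (nat_lit 9) C.nil) C.nil)) (C.cons (nat_lit 69) (C.node (nat_lit 0) (nat_lit 6) (nat_lit 9) C.nil) C.nil))) (C.cons (nat_lit 259) (C.node (nat_lit 0) (nat_lit 7) (nat_lit 8) C.nil) C.nil))) (C.cons (nat_lit 321) (C.node (nat_lit 0) (nat_lit 4) (nat_lit 8) (C.cons (nat_lit 275) (C.node (nat_lit 0) (nat_lit 7) (nat_lit 8) C.nil) C.nil)) C.nil))) C.nil)) (C.cons (nat_lit 53) (C.node (nat_lit 0) (nat_lit 5) (nat_lit 8) (C.cons (nat_lit 289) (C.node (nat_lit 0) (nat_lit 1) (nat_lit 4) (C.cons (nat_lit 531) (C.node (nat_lit 0) (nat_lit 4) (nat_lit 6) (C.cons (nat_lit 337) (C.node (nat_lit 0) (nat_lit 2) (nat_lit 6) (C.cons (nat_lit 581) (C.pat (nat_lit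 3) (nat_lit 43297155411) (nat_lit 85657343002991780964466957197816880378390839849)) (C.cons (nat_lit 69) (C.node (nat_lit 0) (nat_lit 6) (nat_lit 9) C.nil) C.nil))) (C.cons (nat_lit 81) (C.node (nat_lit 0) (nat_lit 4) (nat_lit 8) C.nil) C.nil))) (C.cons (nat_lit 275) (C.node (nat_lit 0) (nat_lit 4) (nat_lit 6) (C.cons (nat_lit 593) (C.node (nat_lit 0) (nat_lit 2) (nat_lit 6) (C.cons (nat_lit 325) (C.node (nat_lit 0) (nat_lit 7) (nat_lit 8) (C.cons (nat_lit 385) (C.node (nat_lit 0) (nat_lit 1) (nat_lit 2) (C.cons (nat_lit 519) (C.pat (nat_lit 2) (nat_lit 26661787713) (nat_lit 7247760230599279720177020531941178941918872105)) (C.cons (nat_lit 135) (C.node (nat_lit 0) (nat_lit 1) (nat_lit 9) C.nil) C.nil))) C.nil)) (C.cons (nat_lit 69) (C.node (nat_lit 0) (nat_lit 6) (nat_lit 8) C.nil) C.nil))) (C.cons (nat_lit 81) (C.node (nat_lit 0) (nat_lit 4) (nat_lit 9) C.nil) C.nil))) (C.cons (nat_lit 19) (C.node (nat_lit 0) (nat_lit 4) (nat_lit 8) (C.cons (nat_lit 337) (C.node (nat_lit 0) (nat_lit 4) (nat_lit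 9) C.nil) C.nil)) C.nil)))) C.nil)) (C.cons (nat_lit 37) (C.node (nat_lit 0) (nat_lit 4) (nat_lit 5) (C.cons (nat_lit 305) (C.ref (nat_lit 454) (nat_lit 205163983024656)) (C.cons (nat_lit 49) (C.node (nat_lit 0) (nat_lit 5) (nat_lit 8) C.nil) C.nil))) C.nil)))) C.nil)) (C.cons (nat_lit 11) (C.node (nat_lit 0) (nat_lit 3) (nat_lit 6) (C.cons (nat_lit 329) (C.node (nat_lit 0) (nat_lit 2) (nat_lit 5) (C.cons (nat_lit 293) (C.node (nat_lit 0) (nat_lit 4) (nat_lit 5) (C.cons (nat_lit 49) (C.node (nat_lit 0) (nat_lit 4) (nat_lit 8) (C.cons (nat_lit 275) (C.node (nat_lit 0) (nat_lit 7) (nat_lit 8) (C.cons (nat_lit 385) (C.node (nat_lit 0) (nat_lit 1) (nat_lit 6) (C.cons (nat_lit 579) (C.node (nat_lit 0) (nat_lit 1) (nat_lit 2) (C.cons (nat_lit 135) (C.node (nat_lit 0) (nat_lit 7) (nat_lit 9) C.nil) C.nil)) (C.cons (nat_lit 71) (C.node (nat_lit 0) (nat_lit 1) (nat_lit 7) (C.cons (nat_lit 643) (C.node (nat_lit 0) (nat_lit 2) (nat_lit 7) C.nil) C.nil)) C.nil))) C.nil)) (C.cons (nat_lit 273) (C.node (nat_lit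 0) (nat_lit 1) (nat_lit 8) (C.cons (nat_lit 387) (C.node (nat_lit 0) (nat_lit 2) (nat_lit 7) (C.cons (nat_lit 645) (C.node (nat_lit 0) (nat_lit 2) (nat_lit 1) (C.cons (nat_lit 23) (C.node (nat_lit 0) (nat_lit 2) (nat_lit 6) C.nil) (C.cons (nat_lit 71) (C.pat (nat_lit 2) (nat_lit 7132644981) (nat_lit 1583572397333702312550111142969714016010702593)) C.nil))) C.nil)) C.nil)) C.nil))) C.nil)) (C.cons (nat_lit 53) (C.node (nat_lit 0) (nat_lit 5) (nat_lit 8) (C.cons (nat_lit 289) (C.ref (nat_lit 454) (nat_lit 188671273095456)) C.nil)) (C.cons (nat_lit 37) (C.node (nat_lit 0) (nat_lit 4) (nat_lit 5) (C.cons (nat_lit 305) (C.node (nat_lit 0) (nat_lit 1) (nat_lit 8) (C.cons (nat_lit 387) (C.node (nat_lit 0) (nat_lit 2) (nat_lit 8) (C.cons (nat_lit 261) (C.node (nat_lit 0) (nat_lit 2) (nat_lit 7) (C.cons (nat_lit 645) (C.node (nat_lit 0) (nat_lit 1) (nat_lit 2) (C.cons (nat_lit 71) (C.node (nat_lit 0) (nat_lit 2) (nat_lit 4) C.nil) (C.cons (nat_lit 23)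
  (C.node (nat_lit 0) (nat_lit 2) (nat_lit 6) C.nil) C.nil))) C.nil)) C.nil)) (C.cons (nat_lit 263) (C.node (nat_lit 0) (nat_lit 7) (nat_lit 8) (C.cons (nat_lit 385) (C.node (nat_lit 0) (nat_lit 1) (nat_lit 7) (C.cons (nat_lit 643) (C.node (nat_lit 0) (nat_lit 2) (nat_lit 7) C.nil) C.nil)) C.nil)) (C.cons (nat_lit 259) (C.node (nat_lit 0) (nat_lit 2) (nat_lit 8) (C.cons (nat_lit 389) (C.node (nat_lit 0) (nat_lit 1) (nat_lit 7) (C.cons (nat_lit 643) (C.node (nat_lit 0) (nat_lit 2) (nat_lit 1) (C.cons (nat_lit 23) (C.node (nat_lit 0) (nat_lit 1) (nat_lit 6) C.nil) (C.cons (nat_lit 71) (C.node (nat_lit 0) (nat_lit 1) (nat_lit 4) C.nil) C.nil))) C.nil)) C.nil)) C.nil)))) (C.cons (nat_lit 49) (C.node (nat_lit 0) (nat_lit 5) (nat_lit 8) C.nil) C.nil))) C.nil)))) (C.cons (nat_lit 73) (C.node (nat_lit 0) (nat_lit 3) (nat_lit 8) (C.cons (nat_lit 265) (C.node (nat_lit 0) (nat_lit 2) (nat_lit 5) (C.cons (nat_lit 293) (C.node (nat_lit 0) (nat_lit 4) (nat_lit 5) C.nil) (C.cons (nat_lit 53) (C.node (nat_lit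 0) (nat_lit 5) (nat_lit 8) C.nil) C.nil))) C.nil)) C.nil))) C.nil)))) (List.cons (C.node (nat_lit 0) (nat_lit 7) (nat_lit 9) (C.cons (nat_lit 645) (C.node (nat_lit 0) (nat_lit 1) (nat_lit 7) (C.cons (nat_lit 387) (C.node (nat_lit 0) (nat_lit 5) (nat_lit 9) (C.cons (nat_lit 561) (C.node (nat_lit 0) (nat_lit 6) (nat_lit 9) (C.cons (nat_lit 577) (C.node (nat_lit 0) (nat_lit 2) (nat_lit 5) (C.cons (nat_lit 293) (C.node (nat_lit 0) (nat_lit 4) (nat_lit 8) (C.cons (nat_lit 273) (C.node (nat_lit 0) (nat_lit 1) (nat_lit 2) (C.cons (nat_lit 71) (C.pat (nat_lit 1) (nat_lit 3090773537) (nat_lit 2009723200257505715249849713889182025)) (C.cons (nat_lit 23) (C.pat (nat_lit 1) (nat_lit 2591577121) (nat_lit 5498946689028464388930330715408893081)) C.nil))) C.nil)) (C.cons (nat_lit 37) (C.node (nat_lit 0) (nat_lit 5) (nat_lit 8) C.nil) C.nil))) C.nil)) (C.cons (nat_lit 545) (C.node (nat_lit 0) (nat_lit 4) (nat_lit 9) (C.cons (nat_lit 593) (C.node (nat_lit 0) (nat_lit 1) (nat_lit 4) (C.cons (nat_lit 23) (C.pat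 (nat_lit 2) (nat_lit 11678422131) (nat_lit 513048840644344597772097776255172930770112257)) (C.cons (nat_lit 19) (C.node (nat_lit 0) (nat_lit 1) (nat_lit 2) (C.cons (nat_lit 71) (C.pat (nat_lit 1) (nat_lit 3090773537) (nat_lit 2009723200257505715249849713889182025)) C.nil)) C.nil))) (C.cons (nat_lit 529) (C.node (nat_lit 0) (nat_lit 6) (nat_lit 9) C.nil) C.nil))) C.nil))) (C.cons (nat_lit 131) (C.node (nat_lit 0) (nat_lit 7) (nat_lit 8) (C.cons (nat_lit 385) (C.node (nat_lit 0) (nat_lit 5) (nat_lit 9) (C.cons (nat_lit 561) (C.node (nat_lit 0) (nat_lit 6) (nat_lit 9) C.nil) C.nil)) C.nil)) C.nil))) (C.cons (nat_lit 641) (C.node (nat_lit 0) (nat_lit 1) (nat_lit 6) (C.cons (nat_lit 83) (C.node (nat_lit 0) (nat_lit 2) (nat_lit 6) (C.cons (nat_lit 581) (C.node (nat_lit 0) (nat_lit 4) (nat_lit 9) (C.cons (nat_lit 561) (C.node (nat_lit 0) (nat_lit 2) (nat_lit 4) (C.cons (nat_lit 277) (C.node (nat_lit 0) (nat_lit 2) (nat_lit 5) (C.cons (nat_lit 37) (C.node (nat_lit 0) (nat_lit 5) (nat_lit 8) C.nil) C.nil))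 (C.cons (nat_lit 21) (C.node (nat_lit 0) (nat_lit 4) (nat_lit 8) C.nil) C.nil))) (C.cons (nat_lit 529) (C.node (nat_lit 0) (nat_lit 5) (nat_lit 9) C.nil) C.nil))) (C.cons (nat_lit 69) (C.node (nat_lit 0) (nat_lit 6) (nat_lit 9) C.nil) C.nil))) (C.cons (nat_lit 71) (C.node (nat_lit 0) (nat_lit 1) (nat_lit 4) (C.cons (nat_lit 275) (C.node (nat_lit 0) (nat_lit 1) (nat_lit 7) (C.cons (nat_lit 131) (C.node (nat_lit 0) (nat_lit 2) (nat_lit 7) (C.cons (nat_lit 389) (C.node (nat_lit 0) (nat_lit 5) (nat_lit 8) C.nil) C.nil)) C.nil)) (C.cons (nat_lit 19) (C.node (nat_lit 0) (nat_lit 1) (nat_lit 7) (C.cons (nat_lit 387) (C.node (nat_lit 0) (nat_lit 2) (nat_lit 7) C.nil) C.nil)) C.nil))) (C.cons (nat_lit 67) (C.node (nat_lit 0) (nat_lit 1) (nat_lit 4) (C.cons (nat_lit 275) (C.node (nat_lit 0) (nat_lit 1) (nat_lit 2) (C.cons (nat_lit 135) (C.node (nat_lit 0) (nat_lit 7) (nat_lit 8) C.nil) C.nil)) (C.cons (nat_lit 23) (C.node (nat_lit 0) (nat_lit 1) (nat_lit 7)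
  (C.cons (nat_lit 387) (C.node (nat_lit 0) (nat_lit 2) (nat_lit 7) C.nil) C.nil)) C.nil))) C.nil)))) C.nil))) (List.cons (C.node (nat_lit 0) (nat_lit 5) (nat_lit 8) (C.cons (nat_lit 305) (C.node (nat_lit 0) (nat_lit 2) (nat_lit 5) (C.cons (nat_lit 549) (C.node (nat_lit 0) (nat_lit 7) (nat_lit 9) (C.cons (nat_lit 643) (C.node (nat_lit 0) (nat_lit 1) (nat_lit 8) (C.cons (nat_lit 263) (C.node (nat_lit 0) (nat_lit 2) (nat_lit 7) C.nil) C.nil)) C.nil)) C.nil)) (C.cons (nat_lit 293) (C.node (nat_lit 0) (nat_lit 4) (nat_lit 5) (C.cons (nat_lit 561) (C.node (nat_lit 0) (nat_lit 4) (nat_lit 8) (C.cons (nat_lit 275) (C.node (nat_lit 0) (nat_lit 7) (nat_lit 8) C.nil) C.nil)) C.nil)) C.nil))) (List.cons (C.node (nat_lit 0) (nat_lit 3) (nat_lit 5) (C.cons (nat_lit 553) (C.ref (nat_lit 455) (nat_lit 205163983024656)) (C.cons (nat_lit 297) (C.ref (nat_lit 455) (nat_lit 205099558515216)) (C.cons (nat_lit 41) (C.node (nat_lit 0) (nat_lit 3) (nat_lit 8) (C.cons (nat_lit 329) (C.node (nat_lit 0) (nat_lit 1) (nat_lit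 3) (C.cons (nat_lit 523) (C.ref (nat_lit 456) (nat_lit 205163983024656)) (C.cons (nat_lit 11) (C.node (nat_lit 0) (nat_lit 3) (nat_lit 9) (C.cons (nat_lit 521) (C.ref (nat_lit 457) (nat_lit 205163983024656)) C.nil)) C.nil))) (C.cons (nat_lit 267) (C.node (nat_lit 0) (nat_lit 3) (nat_lit 6) (C.cons (nat_lit 585) (C.ref (nat_lit 456) (nat_lit 205099558515216)) (C.cons (nat_lit 73) (C.node (nat_lit 0) (nat_lit 3) (nat_lit 9) (C.cons (nat_lit 521) (C.node (nat_lit 0) (nat_lit 7) (nat_lit 8) (C.cons (nat_lit 389) (C.node (nat_lit 0) (nat_lit 1) (nat_lit 7) (C.cons (nat_lit 643) (C.node (nat_lit 0) (nat_lit 5) (nat_lit 8) (C.cons (nat_lit 305) (C.node (nat_lit 0) (nat_lit 6) (nat_lit 8) C.nil) C.nil)) C.nil)) C.nil)) C.nil)) C.nil))) (C.cons (nat_lit 265) (C.node (nat_lit 0) (nat_lit 1) (nat_lit 3) (C.cons (nat_lit 523) (C.node (nat_lit 0) (nat_lit 3) (nat_lit 6) (C.cons (nat_lit 73) (C.node (nat_lit 0) (nat_lit 7) (nat_lit 9) (C.cons (nat_lit 645) (C.node (nat_lit 0) (nat_lit 1) (nat_lit 7) (C.cons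 (nat_lit 387) (C.node (nat_lit 0) (nat_lit 5) (nat_lit 9) (C.cons (nat_lit 561) (C.node (nat_lit 0) (nat_lit 6) (nat_lit 9) C.nil) C.nil)) C.nil)) C.nil)) C.nil)) (C.cons (nat_lit 75) (C.node (nat_lit 0) (nat_lit 3) (nat_lit 9) (C.cons (nat_lit 521) (C.node (nat_lit 0) (nat_lit 5) (nat_lit 8) (C.cons (nat_lit 305) (C.node (nat_lit 0) (nat_lit 2) (nat_lit 5) (C.cons (nat_lit 549) (C.node (nat_lit 0) (nat_lit 6) (nat_lit 8) (C.cons (nat_lit 325) (C.node (nat_lit 0) (nat_lit 1) (nat_lit 8) (C.cons (nat_lit 387) (C.node (nat_lit 0) (nat_lit 2) (nat_lit 7) C.nil) C.nil)) C.nil)) C.nil)) (C.cons (nat_lit 293) (C.node (nat_lit 0) (nat_lit 4) (nat_lit 5) (C.cons (nat_lit 561) (C.node (nat_lit 0) (nat_lit 6) (nat_lit 9) (C.cons (nat_lit 581) (C.node (nat_lit 0) (nat_lit 1) (nat_lit 9) (C.cons (nat_lit 643) (C.node (nat_lit 0) (nat_lit 2) (nat_lit 7) C.nil) C.nil)) C.nil)) C.nil)) C.nil))) C.nil)) (C.cons (nat_lit 11) (C.node (nat_lit 0) (nat_lit 3) (nat_lit 6) (C.cons (nat_lit 585) (C.ref (nat_lit 457)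 (nat_lit 205099558515216)) C.nil)) C.nil)))) C.nil)))) C.nil)))) (List.cons (C.node (nat_lit 0) (nat_lit 1) (nat_lit 3) (C.cons (nat_lit 267) (C.node (nat_lit 0) (nat_lit 3) (nat_lit 5) (C.cons (nat_lit 41) (C.node (nat_lit 0) (nat_lit 1) (nat_lit 5) (C.cons (nat_lit 51) (C.node (nat_lit 0) (nat_lit 1) (nat_lit 6) C.nil) C.nil)) C.nil)) (C.cons (nat_lit 43) (C.node (nat_lit 0) (nat_lit 3) (nat_lit 8) (C.cons (nat_lit 265) (C.node (nat_lit 0) (nat_lit 1) (nat_lit 4) (C.cons (nat_lit 83) (C.node (nat_lit 0) (nat_lit 1) (nat_lit 8) C.nil) (C.cons (nat_lit 275) (C.node (nat_lit 0) (nat_lit 1) (nat_lit 6) C.nil) C.nil))) C.nil)) (C.cons (nat_lit 11) (C.node (nat_lit 0) (nat_lit 3) (nat_lit 5) (C.cons (nat_lit 297) (C.node (nat_lit 0) (nat_lit 1) (nat_lit 5) (C.cons (nat_lit 51) (C.node (nat_lit 0) (nat_lit 1) (nat_lit 6) (C.cons (nat_lit 323) (C.node (nat_lit 0) (nat_lit 2) (nat_lit 5) (C.cons (nat_lit 549)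
  (C.node (nat_lit 0) (nat_lit 4) (nat_lit 9) C.nil) C.nil)) C.nil)) C.nil)) C.nil)) C.nil)))) (List.cons (C.node (nat_lit 0) (nat_lit 2) (nat_lit 7) (C.cons (nat_lit 389) (C.ref (nat_lit 432) (nat_lit 134366816145696)) (C.cons (nat_lit 133) (C.node (nat_lit 0) (nat_lit 7) (nat_lit 8) (C.cons (nat_lit 385) (C.node (nat_lit 0) (nat_lit 3) (nat_lit 9) (C.cons (nat_lit 585) (C.ref (nat_lit 459) (nat_lit 205163983024656)) (C.cons (nat_lit 553) (C.ref (nat_lit 459) (nat_lit 205163967296016)) (C.cons (nat_lit 521) (C.node (nat_lit 0) (nat_lit 3) (nat_lit 5) (C.cons (nat_lit 297) (C.node (nat_lit 0) (nat_lit 1) (nat_lit 3) (C.cons (nat_lit 75) (C.node (nat_lit 0) (nat_lit 1) (nat_lit 5) (C.cons (nat_lit 51) (C.node (nat_lit 0) (nat_lit 1) (nat_lit 8) C.nil) C.nil)) C.nil)) (C.cons (nat_lit 43) (C.node (nat_lit 0) (nat_lit 3) (nat_lit 6) (C.cons (nat_lit 329) (C.node (nat_lit 0) (nat_lit 1) (nat_lit 6) (C.cons (nat_lit 83) (C.node (nat_lit 0) (nat_lit 1) (nat_lit 8) C.nil) C.nil)) C.nil)) C.nil))) C.nil))))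 C.nil)) C.nil))) (List.cons (C.node (nat_lit 0) (nat_lit 1) (nat_lit 7) (C.cons (nat_lit 643) (C.ref (nat_lit 460) (nat_lit 205163983024656)) (C.cons (nat_lit 387) (C.ref (nat_lit 460) (nat_lit 205099558515216)) (C.cons (nat_lit 131) (C.node (nat_lit 0) (nat_lit 7) (nat_lit 8) (C.cons (nat_lit 389) (C.node (nat_lit 0) (nat_lit 7) (nat_lit 9) (C.cons (nat_lit 641) (C.ref (nat_lit 452) (nat_lit 201647263592976)) C.nil)) (C.cons (nat_lit 385) (C.node (nat_lit 0) (nat_lit 2) (nat_lit 7) (C.cons (nat_lit 645) (C.ref (nat_lit 452) (nat_lit 201647247864336)) (C.cons (nat_lit 133) (C.node (nat_lit 0) (nat_lit 7) (nat_lit 9) C.nil) C.nil))) C.nil))) C.nil)))) (List.cons (C.node (nat_lit 0) (nat_lit 7) (nat_lit 8) (C.cons (nat_lit 389) (C.node (nat_lit 0) (nat_lit 1) (nat_lit 7) (C.cons (nat_lit 643) (C.ref (nat_lit 441) (nat_lit 134431240716816)) (C.cons (nat_lit 131) (C.node (nat_lit 0) (nat_lit 7) (nat_lit 9) C.nil) C.nil))) (C.cons (nat_lit 387) (C.node (nat_lit 0) (nat_lit 2) (nat_lit 7) (C.cons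 (nat_lit 645) (C.ref (nat_lit 441) (nat_lit 134431240655376)) (C.cons (nat_lit 133) (C.node (nat_lit 0) (nat_lit 7) (nat_lit 9) C.nil) C.nil))) (C.cons (nat_lit 385) (C.node (nat_lit 0) (nat_lit 1) (nat_lit 7) (C.cons (nat_lit 643) (C.node (nat_lit 0) (nat_lit 2) (nat_lit 7) C.nil) (C.cons (nat_lit 135) (C.node (nat_lit 0) (nat_lit 7) (nat_lit 9) C.nil) C.nil))) C.nil)))) List.nil))))))))))))))

theorem ok12_449 : okL par12 (nat_lit 463) c12_449 (nat_lit 449) = true := by decide +kernel

noncomputable def c12_463 : List C :=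
  (List.cons (C.node (nat_lit 0) (nat_lit 5) (nat_lit 10) (C.cons (nat_lit 1061) (C.node (nat_lit 0) (nat_lit 1) (nat_lit 10) (C.cons (nat_lit 1091) (C.ref (nat_lit 425) (nat_lit 188671273095696)) (C.cons (nat_lit 1027) (C.node (nat_lit 0) (nat_lit 6) (nat_lit 10) (C.cons (nat_lit 1089) (C.ref (nat_lit 453) (nat_lit 205163983024656)) C.nil)) C.nil))) (C.cons (nat_lit 1059) (C.node (nat_lit 0) (nat_lit 2) (nat_lit 10) (C.cons (nat_lit 1093) (C.ref (nat_lit 425) (nat_lit 188671273034256)) (C.cons (nat_lit 1029) (C.node (nat_lit 0) (nat_lit 6) (nat_lit 10) (C.cons (nat_lit 1089) (C.ref (nat_lit 458) (nat_lit 205163983024656)) C.nil)) C.nil))) (C.cons (nat_lit 1057) (C.node (nat_lit 0) (nat_lit 1) (nat_lit 10) (C.cons (nat_lit 1091) (C.node (nat_lit 0) (nat_lit 2) (nat_lit 10) (C.cons (nat_lit 1029) (C.ref (nat_lit 458) (nat_lit 205163967296016)) C.nil)) (C.cons (nat_lit 1031) (C.node (nat_lit 0) (nat_lit 6) (nat_lit 10) (C.cons (nat_lit 1089) (C.ref (nat_lit 461) (nat_lit 205163983024656)) C.nil))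 (C.cons (nat_lit 1027) (C.node (nat_lit 0) (nat_lit 2) (nat_lit 10) (C.cons (nat_lit 1093) (C.ref (nat_lit 453) (nat_lit 205163967296016)) (C.cons (nat_lit 1029) (C.node (nat_lit 0) (nat_lit 6) (nat_lit 10) (C.cons (nat_lit 1089) (C.ref (nat_lit 462) (nat_lit 205163983024656)) C.nil)) C.nil))) C.nil)))) C.nil)))) (List.cons (C.node (nat_lit 0) (nat_lit 1) (nat_lit 11) (C.cons (nat_lit 2067) (C.node (nat_lit 0) (nat_lit 5) (nat_lit 10) (C.cons (nat_lit 1061) (C.ref (nat_lit 426) (nat_lit 205163983024656)) (C.cons (nat_lit 1059) (C.ref (nat_lit 426) (nat_lit 205163982962976)) (C.cons (nat_lit 1057) (C.node (nat_lit 0) (nat_lit 1) (nat_lit 10) (C.cons (nat_lit 1091) (C.node (nat_lit 0) (nat_lit 2) (nat_lit 10) (C.cons (nat_lit 1029) (C.ref (nat_lit 425) (nat_lit 205163967234336)) C.nil)) (C.cons (nat_lit 1031) (C.node (nat_lit 0) (nat_lit 6) (nat_lit 10) (C.cons (nat_lit 1089) (C.ref (nat_lit 436) (nat_lit 205163983024656)) C.nil)) (C.cons (nat_lit 1027) (C.node (nat_lit 0) (nat_lit 2) (nat_lit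 10) (C.cons (nat_lit 1093) (C.ref (nat_lit 425) (nat_lit 205163967296016)) (C.cons (nat_lit 1029) (C.node (nat_lit 0) (nat_lit 6) (nat_lit 10) (C.cons (nat_lit 1089) (C.ref (nat_lit 443) (nat_lit 205163983024656)) C.nil)) C.nil))) C.nil)))) C.nil)))) (C.cons (nat_lit 2051) (C.node (nat_lit 0) (nat_lit 4) (nat_lit 11) (C.cons (nat_lit 2065) (C.ref (nat_lit 463) (nat_lit 205163983024656)) C.nil)) C.nil))) (List.cons (C.node (nat_lit 0) (nat_lit 1) (nat_lit 10) (C.cons (nat_lit 1091) (C.node (nat_lit 0) (nat_lit 2) (nat_lit 10) (C.cons (nat_lit 1061) (C.ref (nat_lit 435) (nat_lit 188671273095696)) (C.cons (nat_lit 1029) (C.node (nat_lit 0) (nat_lit 5) (nat_lit 10) C.nil) C.nil))) (C.cons (nat_lit 1059) (C.node (nat_lit 0) (nat_lit 2) (nat_lit 10) (C.cons (nat_lit 1093) (C.ref (nat_lit 435) (nat_lit 188671273034256)) (C.cons (nat_lit 1029) (C.node (nat_lit 0) (nat_lit 6) (nat_lit 10) C.nil) C.nil))) (C.cons (nat_lit 1027) (C.node (nat_lit 0) (nat_lit 5) (nat_lit 10) (C.cons (nat_lit 1061) (C.node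 (nat_lit 0) (nat_lit 6) (nat_lit 10) C.nil) C.nil)) C.nil)))) (List.cons (C.big (C.cons (nat_lit 2071) (C.ref (nat_lit 327) (nat_lit 205163983020336)) (C.cons (nat_lit 2063) (C.ref (nat_lit 327) (nat_lit 205163982954816)) (C.cons (nat_lit 1095) (C.ref (nat_lit 327) (nat_lit 188671273083216)) (C.cons (nat_lit 1063) (C.ref (nat_lit 327) (nat_lit 188671273017696)) (C.cons (nat_lit 647) (C.ref (nat_lit 327) (nat_lit 135676477120896)) (C.cons (nat_lit 597) (C.ref (nat_lit 400) (nat_lit 205163983024656)) (C.cons (nat_lit 595) (C.ref (nat_lit 400) (nat_lit 205163983024416)) (C.cons (nat_lit 589) (C.ref (nat_lit 400) (nat_lit 205163982963216)) (C.cons (nat_lit 587) (C.ref (nat_lit 400) (nat_lit 205163982962976)) (C.cons (nat_lit 583) (C.ref (nat_lit 405) (nat_lit 205163983024656)) (C.cons (nat_lit 565) (C.ref (nat_lit 400) (nat_lit 205163967296016)) (C.cons (nat_lit 563) (C.ref (nat_lit 400) (nat_lit 205163967295776)) (C.cons (nat_lit 557)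
  (C.ref (nat_lit 400) (nat_lit 205163967234576)) (C.cons (nat_lit 555) (C.ref (nat_lit 400) (nat_lit 205163967234336)) (C.cons (nat_lit 551) (C.ref (nat_lit 405) (nat_lit 205163967296016)) (C.cons (nat_lit 535) (C.ref (nat_lit 405) (nat_lit 188671273095696)) (C.cons (nat_lit 527) (C.ref (nat_lit 405) (nat_lit 188671257367056)) (C.cons (nat_lit 391) (C.ref (nat_lit 327) (nat_lit 135676477055376)) (C.cons (nat_lit 341) (C.ref (nat_lit 400) (nat_lit 205099558515216)) (C.cons (nat_lit 339) (C.ref (nat_lit 400) (nat_lit 205099558514976)) (C.cons (nat_lit 333) (C.ref (nat_lit 400) (nat_lit 205099558453776)) (C.cons (nat_lit 331) (C.ref (nat_lit 400) (nat_lit 205099558453536)) (C.cons (nat_lit 327) (C.ref (nat_lit 405) (nat_lit 205099558515216)) (C.cons (nat_lit 309) (C.ref (nat_lit 400) (nat_lit 205099542786576)) (C.cons (nat_lit 307) (C.ref (nat_lit 400) (nat_lit 205099542786336)) (C.cons (nat_lit 301) (C.ref (nat_lit 400) (nat_lit 205099542725136)) (C.cons (nat_lit 299) (C.ref (nat_lit 400) (nat_lit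 205099542724896)) (C.cons (nat_lit 295) (C.ref (nat_lit 405) (nat_lit 205099542786576)) (C.cons (nat_lit 279) (C.ref (nat_lit 405) (nat_lit 188606848586256)) (C.cons (nat_lit 271) (C.ref (nat_lit 405) (nat_lit 188606832857616)) (C.cons (nat_lit 87) (C.ref (nat_lit 405) (nat_lit 135676477145616)) (C.cons (nat_lit 79) (C.ref (nat_lit 405) (nat_lit 135676461416976)) (C.cons (nat_lit 55) (C.ref (nat_lit 405) (nat_lit 135612052636176)) (C.cons (nat_lit 47) (C.ref (nat_lit 405) (nat_lit 135612036907536)) C.nil)))))))))))))))))))))))))))))))))) (C.node (nat_lit 0) (nat_lit 3) (nat_lit 11) (C.cons (nat_lit 2061) (C.ref (nat_lit 464) (nat_lit 205163983024656)) (C.cons (nat_lit 2059) (C.ref (nat_lit 464) (nat_lit 205163983024416)) (C.cons (nat_lit 2057) (C.node (nat_lit 0) (nat_lit 1) (nat_lit 11) (C.cons (nat_lit 2067) (C.node (nat_lit 0) (nat_lit 2) (nat_lit 11) (C.cons (nat_lit 2053) (C.ref (nat_lit 463) (nat_lit 205163982962976)) C.nil)) (C.cons (nat_lit 2055) (C.node (nat_lit 0) (nat_lit 4) (nat_lit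 11) (C.cons (nat_lit 2065) (C.node (nat_lit 0) (nat_lit 1) (nat_lit 7) (C.cons (nat_lit 643) (C.node (nat_lit 0) (nat_lit 2) (nat_lit 7) (C.cons (nat_lit 389) (C.ref (nat_lit 436) (nat_lit 135676477145616)) (C.cons (nat_lit 133) (C.node (nat_lit 0) (nat_lit 7) (nat_lit 8) (C.cons (nat_lit 385) (C.ref (nat_lit 461) (nat_lit 135676477083936)) C.nil)) C.nil))) (C.cons (nat_lit 387) (C.node (nat_lit 0) (nat_lit 2) (nat_lit 7) (C.cons (nat_lit 645) (C.ref (nat_lit 436) (nat_lit 135676477084176)) (C.cons (nat_lit 133) (C.node (nat_lit 0) (nat_lit 7) (nat_lit 9) (C.cons (nat_lit 641) (C.ref (nat_lit 461) (nat_lit 135676477145376)) C.nil)) C.nil))) (C.cons (nat_lit 131) (C.node (nat_lit 0) (nat_lit 7) (nat_lit 8) (C.cons (nat_lit 389) (C.node (nat_lit 0) (nat_lit 7) (nat_lit 9) (C.cons (nat_lit 641) (C.ref (nat_lit 461) (nat_lit 135676477145616)) C.nil)) (C.cons (nat_lit 385) (C.node (nat_lit 0) (nat_lit 2) (nat_lit 7) (C.cons (nat_lit 645) (C.ref (nat_lit 461) (nat_lit 135676477084176)) (C.cons (nat_lit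 133) (C.node (nat_lit 0) (nat_lit 7) (nat_lit 9) (C.cons (nat_lit 641) (C.ref (nat_lit 465) (nat_lit 205163983024656)) C.nil)) C.nil))) C.nil))) C.nil)))) C.nil)) (C.cons (nat_lit 2051) (C.node (nat_lit 0) (nat_lit 2) (nat_lit 11) (C.cons (nat_lit 2069) (C.ref (nat_lit 463) (nat_lit 205163982963216)) (C.cons (nat_lit 2053) (C.node (nat_lit 0) (nat_lit 4) (nat_lit 11) (C.cons (nat_lit 2065) (C.node (nat_lit 0) (nat_lit 5) (nat_lit 10) (C.cons (nat_lit 1061) (C.node (nat_lit 0) (nat_lit 1) (nat_lit 10) (C.cons (nat_lit 1091) (C.ref (nat_lit 443) (nat_lit 188671273095696)) (C.cons (nat_lit 1027) (C.node (nat_lit 0) (nat_lit 6) (nat_lit 10) (C.cons (nat_lit 1089) (C.ref (nat_lit 462) (nat_lit 188671273095696)) C.nil)) C.nil))) (C.cons (nat_lit 1059) (C.node (nat_lit 0) (nat_lit 2) (nat_lit 10) (C.cons (nat_lit 1093) (C.ref (nat_lit 443) (nat_lit 188671273095456)) (C.cons (nat_lit 1029) (C.node (nat_lit 0) (nat_lit 6) (nat_lit 10) (C.cons (nat_lit 1089)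
  (C.ref (nat_lit 462) (nat_lit 188671273095456)) C.nil)) C.nil))) (C.cons (nat_lit 1057) (C.node (nat_lit 0) (nat_lit 1) (nat_lit 10) (C.cons (nat_lit 1091) (C.node (nat_lit 0) (nat_lit 2) (nat_lit 10) (C.cons (nat_lit 1029) (C.ref (nat_lit 462) (nat_lit 188671273034016)) C.nil)) (C.cons (nat_lit 1031) (C.node (nat_lit 0) (nat_lit 6) (nat_lit 10) (C.cons (nat_lit 1089) (C.ref (nat_lit 465) (nat_lit 183909317235216)) C.nil)) (C.cons (nat_lit 1027) (C.node (nat_lit 0) (nat_lit 2) (nat_lit 10) (C.cons (nat_lit 1093) (C.ref (nat_lit 462) (nat_lit 188671273034256)) (C.cons (nat_lit 1029) (C.node (nat_lit 0) (nat_lit 6) (nat_lit 10) C.nil) C.nil))) C.nil)))) C.nil)))) C.nil)) C.nil))) C.nil)))) C.nil))))) (List.cons (C.node (nat_lit 0) (nat_lit 1) (nat_lit 8) (C.cons (nat_lit 387) (C.node (nat_lit 0) (nat_lit 4) (nat_lit 8) (C.cons (nat_lit 273) (C.node (nat_lit 0) (nat_lit 3) (nat_lit 7) (C.cons (nat_lit 649) (C.node (nat_lit 0) (nat_lit 4) (nat_lit 7) C.nil) C.nil)) C.nil)) (C.cons (nat_lit 275)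 (C.node (nat_lit 0) (nat_lit 7) (nat_lit 8) (C.cons (nat_lit 385) (C.node (nat_lit 0) (nat_lit 6) (nat_lit 4) (C.cons (nat_lit 593) (C.node (nat_lit 0) (nat_lit 7) (nat_lit 4) C.nil) C.nil)) C.nil)) (C.cons (nat_lit 259) (C.node (nat_lit 0) (nat_lit 4) (nat_lit 8) (C.cons (nat_lit 401) (C.node (nat_lit 0) (nat_lit 1) (nat_lit 4) (C.cons (nat_lit 531) (C.node (nat_lit 0) (nat_lit 4) (nat_lit 6) C.nil) (C.cons (nat_lit 83) (C.node (nat_lit 0) (nat_lit 4) (nat_lit 9) C.nil) C.nil))) C.nil)) C.nil)))) (List.cons (C.node (nat_lit 0) (nat_lit 2) (nat_lit 6) (C.cons (nat_lit 325) (C.node (nat_lit 0) (nat_lit 2) (nat_lit 7) (C.cons (nat_lit 133) (C.node (nat_lit 0) (nat_lit 3) (nat_lit 5) (C.cons (nat_lit 297) (C.node (nat_lit 0) (nat_lit 4) (nat_lit 5) (C.cons (nat_lit 49) (C.ref (nat_lit 467) (nat_lit 205163983024656)) C.nil)) (C.cons (nat_lit 41) (C.node (nat_lit 0) (nat_lit 4) (nat_lit 5) (C.cons (nat_lit 305) (C.ref (nat_lit 467) (nat_lit 205163982963216)) (C.cons (nat_lit 49) (C.node (nat_lit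 0) (nat_lit 5) (nat_lit 8) C.nil) C.nil))) C.nil))) C.nil)) (C.cons (nat_lit 69) (C.node (nat_lit 0) (nat_lit 2) (nat_lit 7) (C.cons (nat_lit 389) (C.node (nat_lit 0) (nat_lit 3) (nat_lit 5) (C.cons (nat_lit 297) (C.node (nat_lit 0) (nat_lit 4) (nat_lit 5) (C.cons (nat_lit 49) (C.ref (nat_lit 467) (nat_lit 205163731366416)) C.nil)) (C.cons (nat_lit 41) (C.node (nat_lit 0) (nat_lit 4) (nat_lit 5) (C.cons (nat_lit 305) (C.ref (nat_lit 467) (nat_lit 205163731304976)) (C.cons (nat_lit 49) (C.node (nat_lit 0) (nat_lit 5) (nat_lit 8) C.nil) C.nil))) C.nil))) (C.cons (nat_lit 133) (C.node (nat_lit 0) (nat_lit 2) (nat_lit 8) (C.cons (nat_lit 261) (C.node (nat_lit 0) (nat_lit 3) (nat_lit 5) (C.cons (nat_lit 297) (C.node (nat_lit 0) (nat_lit 4) (nat_lit 5) C.nil) C.nil)) C.nil)) C.nil))) C.nil))) (List.cons (C.node (nat_lit 0) (nat_lit 3) (nat_lit 7) (C.cons (nat_lit 139) (C.node (nat_lit 0) (nat_lit 1) (nat_lit 9) (C.cons (nat_lit 531) (C.node (nat_lit 0) (nat_lit 4) (nat_lit 7) (C.cons (nat_lit 145)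 (C.node (nat_lit 0) (nat_lit 7) (nat_lit 9) (C.cons (nat_lit 641) (C.node (nat_lit 0) (nat_lit 1) (nat_lit 6) (C.cons (nat_lit 323) (C.pat (nat_lit 5) (nat_lit 701580733202) (nat_lit 85657935774874860580878202810601029919020613771)) C.nil)) C.nil)) C.nil)) (C.cons (nat_lit 515) (C.node (nat_lit 0) (nat_lit 3) (nat_lit 6) (C.cons (nat_lit 329) (C.node (nat_lit 0) (nat_lit 1) (nat_lit 6) (C.cons (nat_lit 83) (C.node (nat_lit 0) (nat_lit 1) (nat_lit 8) (C.cons (nat_lit 259) (C.node (nat_lit 0) (nat_lit 4) (nat_lit 5) (C.cons (nat_lit 305) (C.node (nat_lit 0) (nat_lit 4) (nat_lit 7) (C.cons (nat_lit 657) (C.pat (nat_lit 1) (nat_lit 1469482034) (nat_lit 2019983564285834397946415414126379665)) C.nil)) C.nil)) C.nil)) (C.cons (nat_lit 67) (C.node (nat_lit 0) (nat_lit 4) (nat_lit 6) C.nil) C.nil))) (C.cons (nat_lit 73) (C.node (nat_lit 0) (nat_lit 3) (nat_lit 8) C.nil) C.nil))) C.nil))) (C.cons (nat_lit 137) (C.node (nat_lit 0) (nat_lit 4) (nat_lit 5)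
  (C.cons (nat_lit 305) (C.node (nat_lit 0) (nat_lit 4) (nat_lit 6) (C.cons (nat_lit 83) (C.node (nat_lit 0) (nat_lit 1) (nat_lit 3) (C.cons (nat_lit 267) (C.pat (nat_lit 5) (nat_lit 782376647189) (nat_lit 85657520635558841365445582620504929006514798675)) (C.cons (nat_lit 11) (C.node (nat_lit 0) (nat_lit 1) (nat_lit 8) C.nil) C.nil))) (C.cons (nat_lit 81) (C.node (nat_lit 0) (nat_lit 1) (nat_lit 3) (C.cons (nat_lit 267) (C.node (nat_lit 0) (nat_lit 1) (nat_lit 6) C.nil) (C.cons (nat_lit 75) (C.pat (nat_lit 1) (nat_lit 2506337057) (nat_lit 5498686186452993137371114936635033825)) C.nil))) C.nil))) (C.cons (nat_lit 49) (C.node (nat_lit 0) (nat_lit 5) (nat_lit 8) C.nil) C.nil))) C.nil))) (List.cons (C.node (nat_lit 0) (nat_lit 3) (nat_lit 5) (C.cons (nat_lit 553) (C.node (nat_lit 0) (nat_lit 4) (nat_lit 5) (C.cons (nat_lit 305) (C.node (nat_lit 0) (nat_lit 6) (nat_lit 4) (C.cons (nat_lit 83) (C.node (nat_lit 0) (nat_lit 1) (nat_lit 9) (C.cons (nat_lit 643) (C.node (nat_lit 0) (nat_lit 7) (nat_lit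 4) C.nil) C.nil)) C.nil)) C.nil)) (C.cons (nat_lit 297) (C.node (nat_lit 0) (nat_lit 3) (nat_lit 6) (C.cons (nat_lit 75) (C.node (nat_lit 0) (nat_lit 3) (nat_lit 7) (C.cons (nat_lit 649) (C.node (nat_lit 0) (nat_lit 1) (nat_lit 9) (C.cons (nat_lit 531) (C.node (nat_lit 0) (nat_lit 4) (nat_lit 5) C.nil) C.nil)) C.nil)) C.nil)) C.nil))) (List.cons (C.node (nat_lit 0) (nat_lit 2) (nat_lit 7) (C.cons (nat_lit 389) (C.node (nat_lit 0) (nat_lit 3) (nat_lit 5) (C.cons (nat_lit 553) (C.ref (nat_lit 469) (nat_lit 205163983024656)) (C.cons (nat_lit 297) (C.ref (nat_lit 469) (nat_lit 205099306856976)) (C.cons (nat_lit 41) (C.node (nat_lit 0) (nat_lit 5) (nat_lit 8) (C.cons (nat_lit 305) (C.node (nat_lit 0) (nat_lit 5) (nat_lit 9) (C.cons (nat_lit 545) (C.node (nat_lit 0) (nat_lit 4) (nat_lit 6) (C.cons (nat_lit 83) (C.node (nat_lit 0) (nat_lit 1) (nat_lit 8) (C.cons (nat_lit 267) (C.node (nat_lit 0) (nat_lit 3) (nat_lit 6) C.nil) C.nil)) C.nil)) C.nil)) (C.cons (nat_lit 289) (C.node (nat_lit 0) (nat_lit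 4) (nat_lit 5) (C.cons (nat_lit 561) (C.node (nat_lit 0) (nat_lit 4) (nat_lit 7) (C.cons (nat_lit 147) (C.node (nat_lit 0) (nat_lit 1) (nat_lit 9) (C.cons (nat_lit 523) (C.node (nat_lit 0) (nat_lit 3) (nat_lit 7) C.nil) C.nil)) C.nil)) C.nil)) C.nil))) C.nil)))) (C.cons (nat_lit 133) (C.node (nat_lit 0) (nat_lit 2) (nat_lit 8) (C.cons (nat_lit 261) (C.ref (nat_lit 470) (nat_lit 205163983024656)) C.nil)) C.nil))) (List.cons (C.node (nat_lit 0) (nat_lit 2) (nat_lit 5) (C.cons (nat_lit 549) (C.ref (nat_lit 468) (nat_lit 205163983024656)) (C.cons (nat_lit 293) (C.ref (nat_lit 468) (nat_lit 205099558515216)) (C.cons (nat_lit 37) (C.node (nat_lit 0) (nat_lit 2) (nat_lit 6) (C.cons (nat_lit 581) (C.ref (nat_lit 471) (nat_lit 205163983024656)) (C.cons (nat_lit 325) (C.ref (nat_lit 471) (nat_lit 205099558515216)) (C.cons (nat_lit 69) (C.node (nat_lit 0) (nat_lit 2) (nat_lit 8) (C.cons (nat_lit 389) (C.node (nat_lit 0) (nat_lit 2) (nat_lit 9) (C.cons (nat_lit 517) (C.ref (nat_lit 470) (nat_lit 205099306856976))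 C.nil)) (C.cons (nat_lit 261) (C.node (nat_lit 0) (nat_lit 2) (nat_lit 7) (C.cons (nat_lit 645) (C.ref (nat_lit 470) (nat_lit 205163731366416)) C.nil)) C.nil))) C.nil)))) C.nil)))) (List.cons (C.node (nat_lit 0) (nat_lit 3) (nat_lit 5) (C.cons (nat_lit 297) (C.node (nat_lit 0) (nat_lit 1) (nat_lit 5) (C.cons (nat_lit 51) (C.node (nat_lit 0) (nat_lit 1) (nat_lit 8) (C.cons (nat_lit 387) (C.node (nat_lit 0) (nat_lit 4) (nat_lit 8) C.nil) C.nil)) C.nil)) (C.cons (nat_lit 43) (C.node (nat_lit 0) (nat_lit 3) (nat_lit 6) (C.cons (nat_lit 585) (C.node (nat_lit 0) (nat_lit 1) (nat_lit 6) (C.cons (nat_lit 83) (C.node (nat_lit 0) (nat_lit 1) (nat_lit 8) (C.cons (nat_lit 387) (C.node (nat_lit 0) (nat_lit 1) (nat_lit 9) C.nil) C.nil)) C.nil)) C.nil)) C.nil))) (List.cons (C.node (nat_lit 0) (nat_lit 2) (nat_lit 5) (C.cons (nat_lit 549) (C.node (nat_lit 0) (nat_lit 2) (nat_lit 6) (C.cons (nat_lit 325) (C.node (nat_lit 0) (nat_lit 2) (nat_lit 7)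
  (C.cons (nat_lit 133) (C.ref (nat_lit 473) (nat_lit 205163983024656)) C.nil)) (C.cons (nat_lit 69) (C.node (nat_lit 0) (nat_lit 2) (nat_lit 7) (C.cons (nat_lit 389) (C.ref (nat_lit 473) (nat_lit 205163731366416)) C.nil)) C.nil))) (C.cons (nat_lit 293) (C.node (nat_lit 0) (nat_lit 2) (nat_lit 6) (C.cons (nat_lit 581) (C.node (nat_lit 0) (nat_lit 2) (nat_lit 7) (C.cons (nat_lit 133) (C.ref (nat_lit 473) (nat_lit 205099558515216)) C.nil)) (C.cons (nat_lit 69) (C.node (nat_lit 0) (nat_lit 2) (nat_lit 7) (C.cons (nat_lit 645) (C.ref (nat_lit 473) (nat_lit 205099306856976)) C.nil)) C.nil))) (C.cons (nat_lit 37) (C.node (nat_lit 0) (nat_lit 2) (nat_lit 6) (C.cons (nat_lit 581) (C.node (nat_lit 0) (nat_lit 2) (nat_lit 7) (C.cons (nat_lit 389) (C.ref (nat_lit 473) (nat_lit 205163463979536)) C.nil)) (C.cons (nat_lit 325) (C.node (nat_lit 0) (nat_lit 2) (nat_lit 7) (C.cons (nat_lit 645) (C.ref (nat_lit 473) (nat_lit 205099039470096)) C.nil)) C.nil))) C.nil)))) (List.cons (C.node (nat_lit 0) (nat_lit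 5) (nat_lit 10) (C.cons (nat_lit 1059) (C.node (nat_lit 0) (nat_lit 6) (nat_lit 10) (C.cons (nat_lit 1089) (C.node (nat_lit 0) (nat_lit 7) (nat_lit 10) (C.cons (nat_lit 1153) (C.ref (nat_lit 472) (nat_lit 205163983024656)) C.nil)) C.nil)) (C.cons (nat_lit 1057) (C.node (nat_lit 0) (nat_lit 6) (nat_lit 10) (C.cons (nat_lit 1091) (C.node (nat_lit 0) (nat_lit 7) (nat_lit 10) (C.cons (nat_lit 1153) (C.ref (nat_lit 472) (nat_lit 205163967296016)) C.nil)) (C.cons (nat_lit 1089) (C.node (nat_lit 0) (nat_lit 1) (nat_lit 10) (C.cons (nat_lit 1155) (C.ref (nat_lit 472) (nat_lit 205163699909136)) (C.cons (nat_lit 1027) (C.node (nat_lit 0) (nat_lit 7) (nat_lit 10) (C.cons (nat_lit 1153) (C.ref (nat_lit 474) (nat_lit 205163983024656)) C.nil)) C.nil))) C.nil))) C.nil))) (List.cons (C.big (C.cons (nat_lit 659) (C.ref (nat_lit 405) (nat_lit 171147804431136)) (C.cons (nat_lit 651) (C.ref (nat_lit 405) (nat_lit 171147787654176)) (C.cons (nat_lit 647) (C.ref (nat_lit 405) (nat_lit 171147770876976)) (C.cons (nat_lit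 595) (C.ref (nat_lit 405) (nat_lit 171147536061216)) (C.cons (nat_lit 587) (C.ref (nat_lit 405) (nat_lit 171147519284256)) (C.cons (nat_lit 583) (C.ref (nat_lit 405) (nat_lit 171147502507056)) (C.cons (nat_lit 563) (C.ref (nat_lit 405) (nat_lit 171147267629856)) (C.cons (nat_lit 555) (C.ref (nat_lit 405) (nat_lit 171147250852896)) (C.cons (nat_lit 551) (C.ref (nat_lit 405) (nat_lit 171147234075696)) (C.cons (nat_lit 403) (C.ref (nat_lit 405) (nat_lit 153559913354016)) (C.cons (nat_lit 395) (C.ref (nat_lit 405) (nat_lit 153559896577056)) (C.cons (nat_lit 391) (C.ref (nat_lit 405) (nat_lit 153559879799856)) (C.cons (nat_lit 339) (C.ref (nat_lit 405) (nat_lit 153559644984096)) (C.cons (nat_lit 331) (C.ref (nat_lit 405) (nat_lit 153559628207136)) (C.cons (nat_lit 327) (C.ref (nat_lit 405) (nat_lit 153559611429936)) (C.cons (nat_lit 307) (C.ref (nat_lit 405) (nat_lit 153559376552736)) (C.cons (nat_lit 299) (C.ref (nat_lit 405) (nat_lit 153559359775776)) (C.cons (nat_lit 295) (C.ref (nat_lit 405)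 (nat_lit 153559342998576)) C.nil)))))))))))))))))) (C.node (nat_lit 0) (nat_lit 2) (nat_lit 11) (C.cons (nat_lit 2055) (C.node (nat_lit 0) (nat_lit 3) (nat_lit 11) (C.cons (nat_lit 2057) (C.node (nat_lit 0) (nat_lit 4) (nat_lit 11) (C.cons (nat_lit 2065) (C.ref (nat_lit 475) (nat_lit 205163983024656)) C.nil)) C.nil)) (C.cons (nat_lit 2053) (C.node (nat_lit 0) (nat_lit 3) (nat_lit 11) (C.cons (nat_lit 2059) (C.node (nat_lit 0) (nat_lit 4) (nat_lit 11) (C.cons (nat_lit 2065) (C.ref (nat_lit 475) (nat_lit 205163983020816)) C.nil)) (C.cons (nat_lit 2057) (C.node (nat_lit 0) (nat_lit 1) (nat_lit 11) (C.cons (nat_lit 2067) (C.ref (nat_lit 475) (nat_lit 205163982955536)) (C.cons (nat_lit 2051) (C.node (nat_lit 0) (nat_lit 4) (nat_lit 11) (C.cons (nat_lit 2065) (C.node (nat_lit 0) (nat_lit 5) (nat_lit 10) (C.cons (nat_lit 1059) (C.node (nat_lit 0) (nat_lit 6) (nat_lit 10) (C.cons (nat_lit 1089) (C.node (nat_lit 0) (nat_lit 7) (nat_lit 10) (C.cons (nat_lit 1153)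
  (C.ref (nat_lit 474) (nat_lit 188670450033936)) C.nil)) C.nil)) (C.cons (nat_lit 1057) (C.node (nat_lit 0) (nat_lit 6) (nat_lit 10) (C.cons (nat_lit 1091) (C.node (nat_lit 0) (nat_lit 7) (nat_lit 10) (C.cons (nat_lit 1153) (C.ref (nat_lit 474) (nat_lit 188670450030096)) C.nil)) (C.cons (nat_lit 1089) (C.node (nat_lit 0) (nat_lit 1) (nat_lit 10) (C.cons (nat_lit 1155) (C.ref (nat_lit 474) (nat_lit 188670449964816)) (C.cons (nat_lit 1027) (C.node (nat_lit 0) (nat_lit 7) (nat_lit 10) C.nil) C.nil))) C.nil))) C.nil))) C.nil)) C.nil))) C.nil))) C.nil)))) (List.cons (C.node (nat_lit 0) (nat_lit 3) (nat_lit 5) (C.cons (nat_lit 297) (C.node (nat_lit 0) (nat_lit 4) (nat_lit 5) (C.cons (nat_lit 49) (C.node (nat_lit 0) (nat_lit 3) (nat_lit 6) (C.cons (nat_lit 1097) (C.node (nat_lit 0) (nat_lit 4) (nat_lit 10) C.nil) C.nil)) C.nil)) (C.cons (nat_lit 41) (C.node (nat_lit 0) (nat_lit 3) (nat_lit 7) (C.cons (nat_lit 649) (C.node (nat_lit 0) (nat_lit 4) (nat_lit 7) C.nil) C.nil)) C.nil))) (List.cons (C.node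 (nat_lit 0) (nat_lit 2) (nat_lit 8) (C.cons (nat_lit 325) (C.node (nat_lit 0) (nat_lit 2) (nat_lit 10) (C.cons (nat_lit 1029) (C.ref (nat_lit 477) (nat_lit 204003822809616)) C.nil)) (C.cons (nat_lit 261) (C.node (nat_lit 0) (nat_lit 2) (nat_lit 6) (C.cons (nat_lit 1093) (C.node (nat_lit 0) (nat_lit 3) (nat_lit 5) (C.cons (nat_lit 297) (C.node (nat_lit 0) (nat_lit 3) (nat_lit 6) (C.cons (nat_lit 73) (C.node (nat_lit 0) (nat_lit 4) (nat_lit 5) C.nil) C.nil)) (C.cons (nat_lit 41) (C.node (nat_lit 0) (nat_lit 3) (nat_lit 6) (C.cons (nat_lit 329) (C.node (nat_lit 0) (nat_lit 4) (nat_lit 6) C.nil) C.nil)) C.nil))) (C.cons (nat_lit 69) (C.node (nat_lit 0) (nat_lit 2) (nat_lit 10) C.nil) C.nil))) C.nil))) (List.cons (C.node (nat_lit 0) (nat_lit 2) (nat_lit 5) (C.cons (nat_lit 549) (C.node (nat_lit 0) (nat_lit 3) (nat_lit 5) (C.cons (nat_lit 297) (C.node (nat_lit 0) (nat_lit 4) (nat_lit 5) (C.cons (nat_lit 49) (C.node (nat_lit 0) (nat_lit 3) (nat_lit 6) (C.cons (nat_lit 1097) (C.node (nat_lit 0) (nat_lit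 2) (nat_lit 6) (C.cons (nat_lit 325) (C.pat (nat_lit 1) (nat_lit 2322158369) (nat_lit 5498946689260573276265832099459957833)) C.nil)) C.nil)) C.nil)) (C.cons (nat_lit 41) (C.node (nat_lit 0) (nat_lit 3) (nat_lit 9) (C.cons (nat_lit 649) (C.node (nat_lit 0) (nat_lit 4) (nat_lit 9) C.nil) C.nil)) C.nil))) (C.cons (nat_lit 293) (C.node (nat_lit 0) (nat_lit 2) (nat_lit 6) (C.cons (nat_lit 1093) (C.node (nat_lit 0) (nat_lit 2) (nat_lit 7) (C.cons (nat_lit 645) (C.ref (nat_lit 477) (nat_lit 205163463979296)) (C.cons (nat_lit 133) (C.node (nat_lit 0) (nat_lit 2) (nat_lit 9) C.nil) C.nil))) (C.cons (nat_lit 69) (C.node (nat_lit 0) (nat_lit 2) (nat_lit 9) (C.cons (nat_lit 645) (C.node (nat_lit 0) (nat_lit 2) (nat_lit 10) C.nil) C.nil)) C.nil))) (C.cons (nat_lit 37) (C.node (nat_lit 0) (nat_lit 2) (nat_lit 9) (C.cons (nat_lit 645) (C.node (nat_lit 0) (nat_lit 2) (nat_lit 8) (C.cons (nat_lit 325) (C.node (nat_lit 0) (nat_lit 2) (nat_lit 10) C.nil) C.nil)) C.nil)) C.nil)))) List.nil)))))))))))))))))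

theorem ok12_463 : okL par12 (nat_lit 480) c12_463 (nat_lit 463) = true := by decide +kernel

noncomputable def c12_480 : List C :=
  (List.cons (C.node (nat_lit 0) (nat_lit 1) (nat_lit 7) (C.cons (nat_lit 387) (C.node (nat_lit 0) (nat_lit 2) (nat_lit 5) (C.cons (nat_lit 549) (C.node (nat_lit 0) (nat_lit 2) (nat_lit 7) (C.cons (nat_lit 1157) (C.node (nat_lit 0) (nat_lit 2) (nat_lit 6) (C.cons (nat_lit 325) (C.pat (nat_lit 1) (nat_lit 680950353) (nat_lit 2009444634105784820745317866031615745)) (C.cons (nat_lit 69) (C.node (nat_lit 0) (nat_lit 2) (nat_lit 8) (C.cons (nat_lit 261) (C.ref (nat_lit 477) (nat_lit 205163983024656)) C.nil)) C.nil))) (C.cons (nat_lit 133) (C.ref (nat_lit 478) (nat_lit 205163983024656)) C.nil))) (C.cons (nat_lit 293) (C.node (nat_lit 0) (nat_lit 2) (nat_lit 6) (C.cons (nat_lit 1093) (C.node (nat_lit 0) (nat_lit 2) (nat_lit 7) (C.cons (nat_lit 645) (C.pat (nat_lit 1) (nat_lit 696740433) (nat_lit 3006390983724361351981515982313164545)) (C.cons (nat_lit 133) (C.node (nat_lit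 0) (nat_lit 2) (nat_lit 9) (C.cons (nat_lit 517) (C.ref (nat_lit 477) (nat_lit 205099306856976)) C.nil)) C.nil))) (C.cons (nat_lit 69) (C.ref (nat_lit 478) (nat_lit 205099306856976)) C.nil))) (C.cons (nat_lit 37) (C.node (nat_lit 0) (nat_lit 2) (nat_lit 8) (C.cons (nat_lit 325) (C.ref (nat_lit 478) (nat_lit 204003822809616)) (C.cons (nat_lit 261) (C.node (nat_lit 0) (nat_lit 2) (nat_lit 6) (C.cons (nat_lit 1093) (C.node (nat_lit 0) (nat_lit 2) (nat_lit 7) (C.cons (nat_lit 645) (C.ref (nat_lit 477) (nat_lit 204133175144976)) (C.cons (nat_lit 133) (C.node (nat_lit 0) (nat_lit 2) (nat_lit 9) C.nil) C.nil))) (C.cons (nat_lit 69) (C.node (nat_lit 0) (nat_lit 2) (nat_lit 9) (C.cons (nat_lit 645) (C.node (nat_lit 0) (nat_lit 2) (nat_lit 10) C.nil) C.nil)) C.nil))) C.nil))) C.nil)))) (C.cons (nat_lit 131) (C.node (nat_lit 0) (nat_lit 1) (nat_lit 8) (C.cons (nat_lit 259) (C.ref (nat_lit 479) (nat_lit 205163983024656)) C.nil)) C.nil))) (List.cons (C.node (nat_lit 0) (nat_lit 1) (nat_lit 8) (C.cons (nat_lit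 387) (C.node (nat_lit 0) (nat_lit 1) (nat_lit 9) (C.cons (nat_lit 515) (C.ref (nat_lit 479) (nat_lit 205099306856976)) C.nil)) (C.cons (nat_lit 259) (C.node (nat_lit 0) (nat_lit 1) (nat_lit 7) (C.cons (nat_lit 643) (C.ref (nat_lit 479) (nat_lit 205163731366416)) (C.cons (nat_lit 131) (C.node (nat_lit 0) (nat_lit 1) (nat_lit 9) C.nil) C.nil))) C.nil))) (List.cons (C.node (nat_lit 0) (nat_lit 1) (nat_lit 6) (C.cons (nat_lit 579) (C.ref (nat_lit 480) (nat_lit 205163983024656)) (C.cons (nat_lit 323) (C.ref (nat_lit 480) (nat_lit 205099558515216)) (C.cons (nat_lit 67) (C.ref (nat_lit 481) (nat_lit 205163983024656)) C.nil)))) (List.cons (C.big C.nil (C.node (nat_lit 0) (nat_lit 1) (nat_lit 11) (C.cons (nat_lit 2051) (C.node (nat_lit 0) (nat_lit 2) (nat_lit 11) (C.cons (nat_lit 2053) (C.node (nat_lit 0) (nat_lit 3) (nat_lit 11) (C.cons (nat_lit 2057) (C.node (nat_lit 0) (nat_lit 4) (nat_lit 11) (C.cons (nat_lit 2065) (C.node (nat_lit 0) (nat_lit 1) (nat_lit 5) (C.cons (nat_lit 1059) (C.ref (nat_lit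 482) (nat_lit 205163983024656)) (C.cons (nat_lit 547) (C.ref (nat_lit 482) (nat_lit 204133190873616)) (C.cons (nat_lit 291) (C.ref (nat_lit 482) (nat_lit 203037974213136)) (C.cons (nat_lit 35) (C.node (nat_lit 0) (nat_lit 1) (nat_lit 8) (C.cons (nat_lit 387) (C.ref (nat_lit 481) (nat_lit 203037691097616)) (C.cons (nat_lit 323) (C.ref (nat_lit 481) (nat_lit 203037958484496)) (C.cons (nat_lit 259) (C.node (nat_lit 0) (nat_lit 1) (nat_lit 6) (C.cons (nat_lit 1091) (C.node (nat_lit 0) (nat_lit 1) (nat_lit 7) (C.cons (nat_lit 643) (C.ref (nat_lit 479) (nat_lit 205163463979536)) (C.cons (nat_lit 131) (C.node (nat_lit 0) (nat_lit 1) (nat_lit 9) C.nil) C.nil))) (C.cons (nat_lit 579) (C.node (nat_lit 0) (nat_lit 1) (nat_lit 7) (C.cons (nat_lit 1155) (C.ref (nat_lit 479) (nat_lit 204132671828496)) (C.cons (nat_lit 131) (C.node (nat_lit 0) (nat_lit 1) (nat_lit 10) C.nil) C.nil))) (C.cons (nat_lit 67) (C.node (nat_lit 0) (nat_lit 1) (nat_lit 9) (C.cons (nat_lit 643)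
  (C.node (nat_lit 0) (nat_lit 1) (nat_lit 10) C.nil) C.nil)) C.nil)))) C.nil)))) C.nil))))) C.nil)) C.nil)) C.nil)) C.nil))) (List.cons (C.big (C.cons (nat_lit 2077) (C.ref (nat_lit 383) (nat_lit 205163983024656)) (C.cons (nat_lit 2075) (C.ref (nat_lit 383) (nat_lit 205163983024416)) (C.cons (nat_lit 2071) (C.ref (nat_lit 383) (nat_lit 205163983020336)) (C.cons (nat_lit 2063) (C.ref (nat_lit 383) (nat_lit 205163982954816)) (C.cons (nat_lit 1177) (C.ref (nat_lit 466) (nat_lit 205163983024656)) (C.cons (nat_lit 1173) (C.ref (nat_lit 466) (nat_lit 205163983020816)) (C.cons (nat_lit 1171) (C.ref (nat_lit 466) (nat_lit 205163983016736)) (C.cons (nat_lit 1165) (C.ref (nat_lit 466) (nat_lit 205163982955536)) (C.cons (nat_lit 1163) (C.ref (nat_lit 466) (nat_lit 205163982951456)) (C.cons (nat_lit 1159) (C.ref (nat_lit 466) (nat_lit 205163982885936)) (C.cons (nat_lit 1113) (C.ref (nat_lit 466) (nat_lit 205163731366416)) (C.cons (nat_lit 1109) (C.ref (nat_lit 466) (nat_lit 205163731362576)) (C.cons (nat_lit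 1107) (C.ref (nat_lit 466) (nat_lit 205163731358496)) (C.cons (nat_lit 1101) (C.ref (nat_lit 466) (nat_lit 205163731297296)) (C.cons (nat_lit 1099) (C.ref (nat_lit 466) (nat_lit 205163731293216)) (C.cons (nat_lit 1095) (C.ref (nat_lit 466) (nat_lit 205163731227696)) (C.cons (nat_lit 1081) (C.ref (nat_lit 466) (nat_lit 205163463979536)) (C.cons (nat_lit 1077) (C.ref (nat_lit 466) (nat_lit 205163463975696)) (C.cons (nat_lit 1075) (C.ref (nat_lit 466) (nat_lit 205163463971616)) (C.cons (nat_lit 1069) (C.ref (nat_lit 466) (nat_lit 205163463910416)) (C.cons (nat_lit 1067) (C.ref (nat_lit 466) (nat_lit 205163463906336)) (C.cons (nat_lit 1063) (C.ref (nat_lit 466) (nat_lit 205163463840816)) (C.cons (nat_lit 1053) (C.ref (nat_lit 476) (nat_lit 205163983024656)) (C.cons (nat_lit 1051) (C.ref (nat_lit 476) (nat_lit 205163983024416)) (C.cons (nat_lit 1047) (C.ref (nat_lit 476) (nat_lit 205163983020336)) (C.cons (nat_lit 1039) (C.ref (nat_lit 476) (nat_lit 205163982954816)) (C.cons (nat_lit 665) (C.ref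 (nat_lit 466) (nat_lit 204133190873616)) (C.cons (nat_lit 661) (C.ref (nat_lit 466) (nat_lit 204133190869776)) (C.cons (nat_lit 659) (C.ref (nat_lit 466) (nat_lit 204133190865696)) (C.cons (nat_lit 653) (C.ref (nat_lit 466) (nat_lit 204133190804496)) (C.cons (nat_lit 651) (C.ref (nat_lit 466) (nat_lit 204133190800416)) (C.cons (nat_lit 647) (C.ref (nat_lit 466) (nat_lit 204133190734896)) (C.cons (nat_lit 601) (C.ref (nat_lit 466) (nat_lit 204132939215376)) (C.cons (nat_lit 597) (C.ref (nat_lit 466) (nat_lit 204132939211536)) (C.cons (nat_lit 595) (C.ref (nat_lit 466) (nat_lit 204132939207456)) (C.cons (nat_lit 589) (C.ref (nat_lit 466) (nat_lit 204132939146256)) (C.cons (nat_lit 587) (C.ref (nat_lit 466) (nat_lit 204132939142176)) (C.cons (nat_lit 583) (C.ref (nat_lit 466) (nat_lit 204132939076656)) (C.cons (nat_lit 569) (C.ref (nat_lit 466) (nat_lit 204132671828496)) (C.cons (nat_lit 565) (C.ref (nat_lit 466) (nat_lit 204132671824656)) (C.cons (nat_lit 563) (C.ref (nat_lit 466) (nat_lit 204132671820576))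 (C.cons (nat_lit 557) (C.ref (nat_lit 466) (nat_lit 204132671759376)) (C.cons (nat_lit 555) (C.ref (nat_lit 466) (nat_lit 204132671755296)) (C.cons (nat_lit 551) (C.ref (nat_lit 466) (nat_lit 204132671689776)) (C.cons (nat_lit 541) (C.ref (nat_lit 476) (nat_lit 204133190873616)) (C.cons (nat_lit 539) (C.ref (nat_lit 476) (nat_lit 204133190873376)) (C.cons (nat_lit 535) (C.ref (nat_lit 476) (nat_lit 204133190869296)) (C.cons (nat_lit 527) (C.ref (nat_lit 476) (nat_lit 204133190803776)) (C.cons (nat_lit 409) (C.ref (nat_lit 466) (nat_lit 203037974213136)) (C.cons (nat_lit 405) (C.ref (nat_lit 466) (nat_lit 203037974209296)) (C.cons (nat_lit 403) (C.ref (nat_lit 466) (nat_lit 203037974205216)) (C.cons (nat_lit 397) (C.ref (nat_lit 466) (nat_lit 203037974144016)) (C.cons (nat_lit 395) (C.ref (nat_lit 466) (nat_lit 203037974139936)) (C.cons (nat_lit 391) (C.ref (nat_lit 466) (nat_lit 203037974074416)) (C.cons (nat_lit 345)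
  (C.ref (nat_lit 466) (nat_lit 203037722554896)) (C.cons (nat_lit 341) (C.ref (nat_lit 466) (nat_lit 203037722551056)) (C.cons (nat_lit 339) (C.ref (nat_lit 466) (nat_lit 203037722546976)) (C.cons (nat_lit 333) (C.ref (nat_lit 466) (nat_lit 203037722485776)) (C.cons (nat_lit 331) (C.ref (nat_lit 466) (nat_lit 203037722481696)) (C.cons (nat_lit 327) (C.ref (nat_lit 466) (nat_lit 203037722416176)) (C.cons (nat_lit 313) (C.ref (nat_lit 466) (nat_lit 203037455168016)) (C.cons (nat_lit 309) (C.ref (nat_lit 466) (nat_lit 203037455164176)) (C.cons (nat_lit 307) (C.ref (nat_lit 466) (nat_lit 203037455160096)) (C.cons (nat_lit 301) (C.ref (nat_lit 466) (nat_lit 203037455098896)) (C.cons (nat_lit 299) (C.ref (nat_lit 466) (nat_lit 203037455094816)) (C.cons (nat_lit 295) (C.ref (nat_lit 466) (nat_lit 203037455029296)) (C.cons (nat_lit 285) (C.ref (nat_lit 476) (nat_lit 203037974213136)) (C.cons (nat_lit 283) (C.ref (nat_lit 476) (nat_lit 203037974212896)) (C.cons (nat_lit 279) (C.ref (nat_lit 476) (nat_lit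 203037974208816)) (C.cons (nat_lit 271) (C.ref (nat_lit 476) (nat_lit 203037974143296)) (C.cons (nat_lit 157) (C.ref (nat_lit 476) (nat_lit 201647263592976)) (C.cons (nat_lit 155) (C.ref (nat_lit 476) (nat_lit 201647263592736)) (C.cons (nat_lit 151) (C.ref (nat_lit 476) (nat_lit 201647263588656)) (C.cons (nat_lit 143) (C.ref (nat_lit 476) (nat_lit 201647263523136)) (C.cons (nat_lit 93) (C.ref (nat_lit 476) (nat_lit 200616471441936)) (C.cons (nat_lit 91) (C.ref (nat_lit 476) (nat_lit 200616471441696)) (C.cons (nat_lit 87) (C.ref (nat_lit 476) (nat_lit 200616471437616)) (C.cons (nat_lit 79) (C.ref (nat_lit 476) (nat_lit 200616471372096)) (C.cons (nat_lit 61) (C.ref (nat_lit 476) (nat_lit 199521254781456)) (C.cons (nat_lit 59) (C.ref (nat_lit 476) (nat_lit 199521254781216)) (C.cons (nat_lit 55) (C.ref (nat_lit 476) (nat_lit 199521254777136)) (C.cons (nat_lit 47) (C.ref (nat_lit 476) (nat_lit 199521254711616)) (C.cons (nat_lit 31) (C.ref (nat_lit 483) (nat_lit 205163983024656)) C.nil)))))))))))))))))))))))))))))))))))))))))))))))))))))))))))))))))))))))))))))))))))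 C.nil) (List.cons (C.big (C.cons (nat_lit 2189) (C.ref (nat_lit 476) (nat_lit 201428220400656)) (C.cons (nat_lit 2187) (C.ref (nat_lit 476) (nat_lit 201423925433376)) (C.cons (nat_lit 2183) (C.ref (nat_lit 476) (nat_lit 201355205956656)) (C.cons (nat_lit 2125) (C.ref (nat_lit 476) (nat_lit 200328708838416)) (C.cons (nat_lit 2123) (C.ref (nat_lit 476) (nat_lit 200324413871136)) (C.cons (nat_lit 2119) (C.ref (nat_lit 476) (nat_lit 200255694394416)) (C.cons (nat_lit 2093) (C.ref (nat_lit 476) (nat_lit 199229197214736)) (C.cons (nat_lit 2091) (C.ref (nat_lit 476) (nat_lit 199224902247456)) (C.cons (nat_lit 2087) (C.ref (nat_lit 476) (nat_lit 199156182770736)) (C.cons (nat_lit 2077) (C.ref (nat_lit 476) (nat_lit 198129685587216)) (C.cons (nat_lit 2075) (C.ref (nat_lit 476) (nat_lit 198125390619936)) (C.cons (nat_lit 2071) (C.ref (nat_lit 476) (nat_lit 198056671143216)) (C.cons (nat_lit 2063) (C.ref (nat_lit 483) (nat_lit 205162838189376)) (C.cons (nat_lit 1165) (C.ref (nat_lit 476) (nat_lit 183836302791696))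 (C.cons (nat_lit 1163) (C.ref (nat_lit 476) (nat_lit 183832007824416)) (C.cons (nat_lit 1159) (C.ref (nat_lit 476) (nat_lit 183763288347696)) (C.cons (nat_lit 1101) (C.ref (nat_lit 476) (nat_lit 182736791229456)) (C.cons (nat_lit 1099) (C.ref (nat_lit 476) (nat_lit 182732496262176)) (C.cons (nat_lit 1095) (C.ref (nat_lit 476) (nat_lit 182663776785456)) (C.cons (nat_lit 1069) (C.ref (nat_lit 476) (nat_lit 181637279605776)) (C.cons (nat_lit 1067) (C.ref (nat_lit 476) (nat_lit 181632984638496)) (C.cons (nat_lit 1063) (C.ref (nat_lit 476) (nat_lit 181564265161776)) (C.cons (nat_lit 1053) (C.ref (nat_lit 476) (nat_lit 180537767978256)) (C.cons (nat_lit 1051) (C.ref (nat_lit 476) (nat_lit 180533473010976)) (C.cons (nat_lit 1047) (C.ref (nat_lit 476) (nat_lit 180464753534256)) (C.cons (nat_lit 1039) (C.ref (nat_lit 483) (nat_lit 188670163772736)) (C.cons (nat_lit 653)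
  (C.ref (nat_lit 476) (nat_lit 166244133524496)) (C.cons (nat_lit 651) (C.ref (nat_lit 476) (nat_lit 166239838557216)) (C.cons (nat_lit 647) (C.ref (nat_lit 476) (nat_lit 166171119080496)) (C.cons (nat_lit 589) (C.ref (nat_lit 476) (nat_lit 165144621962256)) (C.cons (nat_lit 587) (C.ref (nat_lit 476) (nat_lit 165140326994976)) (C.cons (nat_lit 583) (C.ref (nat_lit 476) (nat_lit 165071607518256)) (C.cons (nat_lit 557) (C.ref (nat_lit 476) (nat_lit 164045110338576)) (C.cons (nat_lit 555) (C.ref (nat_lit 476) (nat_lit 164040815371296)) (C.cons (nat_lit 551) (C.ref (nat_lit 476) (nat_lit 163972095894576)) (C.cons (nat_lit 541) (C.ref (nat_lit 476) (nat_lit 162945598711056)) (C.cons (nat_lit 539) (C.ref (nat_lit 476) (nat_lit 162941303743776)) (C.cons (nat_lit 535) (C.ref (nat_lit 476) (nat_lit 162872584267056)) (C.cons (nat_lit 527) (C.ref (nat_lit 483) (nat_lit 171146697205056)) (C.cons (nat_lit 397) (C.ref (nat_lit 476) (nat_lit 148651948528656)) (C.cons (nat_lit 395) (C.ref (nat_lit 476) (nat_lit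 148647653561376)) (C.cons (nat_lit 391) (C.ref (nat_lit 476) (nat_lit 148578934084656)) (C.cons (nat_lit 333) (C.ref (nat_lit 476) (nat_lit 147552436966416)) (C.cons (nat_lit 331) (C.ref (nat_lit 476) (nat_lit 147548141999136)) (C.cons (nat_lit 327) (C.ref (nat_lit 476) (nat_lit 147479422522416)) (C.cons (nat_lit 301) (C.ref (nat_lit 476) (nat_lit 146452925342736)) (C.cons (nat_lit 299) (C.ref (nat_lit 476) (nat_lit 146448630375456)) (C.cons (nat_lit 295) (C.ref (nat_lit 476) (nat_lit 146379910898736)) (C.cons (nat_lit 285) (C.ref (nat_lit 476) (nat_lit 145353413715216)) (C.cons (nat_lit 283) (C.ref (nat_lit 476) (nat_lit 145349118747936)) (C.cons (nat_lit 279) (C.ref (nat_lit 476) (nat_lit 145280399271216)) (C.cons (nat_lit 271) (C.ref (nat_lit 483) (nat_lit 153558806127936)) (C.cons (nat_lit 143) (C.ref (nat_lit 483) (nat_lit 130103990004096)) (C.cons (nat_lit 79) (C.ref (nat_lit 483) (nat_lit 113611315587456)) (C.cons (nat_lit 47) (C.ref (nat_lit 483) (nat_lit 96087849019776)) (C.cons (nat_lit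 31) (C.ref (nat_lit 483) (nat_lit 78499957942656)) C.nil)))))))))))))))))))))))))))))))))))))))))))))))))))))))) C.nil) (List.cons (C.big (C.cons (nat_lit 2273) (C.ref (nat_lit 484) (nat_lit 205163983024656)) (C.cons (nat_lit 2257) (C.ref (nat_lit 484) (nat_lit 205163982041616)) (C.cons (nat_lit 2249) (C.ref (nat_lit 484) (nat_lit 205163980997136)) (C.cons (nat_lit 2245) (C.ref (nat_lit 484) (nat_lit 205163979948816)) (C.cons (nat_lit 2243) (C.ref (nat_lit 484) (nat_lit 205163978900256)) (C.cons (nat_lit 2225) (C.ref (nat_lit 484) (nat_lit 205163965329936)) (C.cons (nat_lit 2217) (C.ref (nat_lit 484) (nat_lit 205163964285456)) (C.cons (nat_lit 2213) (C.ref (nat_lit 484) (nat_lit 205163963237136)) (C.cons (nat_lit 2211) (C.ref (nat_lit 484) (nat_lit 205163962188576)) (C.cons (nat_lit 2201) (C.ref (nat_lit 484) (nat_lit 205163947512336)) (C.cons (nat_lit 2197) (C.ref (nat_lit 484) (nat_lit 205163946464016)) (C.cons (nat_lit 2195) (C.ref (nat_lit 484) (nat_lit 205163945415456)) (C.cons (nat_lit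 2189) (C.ref (nat_lit 484) (nat_lit 205163929687056)) (C.cons (nat_lit 2187) (C.ref (nat_lit 484) (nat_lit 205163928638496)) (C.cons (nat_lit 2183) (C.ref (nat_lit 484) (nat_lit 205163911861296)) (C.cons (nat_lit 2161) (C.ref (nat_lit 484) (nat_lit 205163696960016)) (C.cons (nat_lit 2153) (C.ref (nat_lit 484) (nat_lit 205163695915536)) (C.cons (nat_lit 2149) (C.ref (nat_lit 484) (nat_lit 205163694867216)) (C.cons (nat_lit 2147) (C.ref (nat_lit 484) (nat_lit 205163693818656)) (C.cons (nat_lit 2137) (C.ref (nat_lit 484) (nat_lit 205163679142416)) (C.cons (nat_lit 2133) (C.ref (nat_lit 484) (nat_lit 205163678094096)) (C.cons (nat_lit 2131) (C.ref (nat_lit 484) (nat_lit 205163677045536)) (C.cons (nat_lit 2125) (C.ref (nat_lit 484) (nat_lit 205163661317136)) (C.cons (nat_lit 2123) (C.ref (nat_lit 484) (nat_lit 205163660268576)) (C.cons (nat_lit 2119) (C.ref (nat_lit 484) (nat_lit 205163643491376)) (C.cons (nat_lit 2105)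
  (C.ref (nat_lit 484) (nat_lit 205163410711056)) (C.cons (nat_lit 2101) (C.ref (nat_lit 484) (nat_lit 205163409662736)) (C.cons (nat_lit 2099) (C.ref (nat_lit 484) (nat_lit 205163408614176)) (C.cons (nat_lit 2093) (C.ref (nat_lit 484) (nat_lit 205163392885776)) (C.cons (nat_lit 2091) (C.ref (nat_lit 484) (nat_lit 205163391837216)) (C.cons (nat_lit 2087) (C.ref (nat_lit 484) (nat_lit 205163375060016)) (C.cons (nat_lit 2077) (C.ref (nat_lit 484) (nat_lit 205163124450576)) (C.cons (nat_lit 2075) (C.ref (nat_lit 484) (nat_lit 205163123402016)) (C.cons (nat_lit 2071) (C.ref (nat_lit 484) (nat_lit 205163106624816)) (C.cons (nat_lit 2063) (C.ref (nat_lit 484) (nat_lit 205162838189376)) (C.cons (nat_lit 1249) (C.ref (nat_lit 484) (nat_lit 188671308608016)) (C.cons (nat_lit 1233) (C.ref (nat_lit 484) (nat_lit 188671307624976)) (C.cons (nat_lit 1225) (C.ref (nat_lit 484) (nat_lit 188671306580496)) (C.cons (nat_lit 1221) (C.ref (nat_lit 484) (nat_lit 188671305532176)) (C.cons (nat_lit 1219) (C.ref (nat_lit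 484) (nat_lit 188671304483616)) (C.cons (nat_lit 1201) (C.ref (nat_lit 484) (nat_lit 188671290913296)) (C.cons (nat_lit 1193) (C.ref (nat_lit 484) (nat_lit 188671289868816)) (C.cons (nat_lit 1189) (C.ref (nat_lit 484) (nat_lit 188671288820496)) (C.cons (nat_lit 1187) (C.ref (nat_lit 484) (nat_lit 188671287771936)) (C.cons (nat_lit 1177) (C.ref (nat_lit 484) (nat_lit 188671273095696)) (C.cons (nat_lit 1173) (C.ref (nat_lit 484) (nat_lit 188671272047376)) (C.cons (nat_lit 1171) (C.ref (nat_lit 484) (nat_lit 188671270998816)) (C.cons (nat_lit 1165) (C.ref (nat_lit 484) (nat_lit 188671255270416)) (C.cons (nat_lit 1163) (C.ref (nat_lit 484) (nat_lit 188671254221856)) (C.cons (nat_lit 1159) (C.ref (nat_lit 484) (nat_lit 188671237444656)) (C.cons (nat_lit 1137) (C.ref (nat_lit 484) (nat_lit 188671022543376)) (C.cons (nat_lit 1129) (C.ref (nat_lit 484) (nat_lit 188671021498896)) (C.cons (nat_lit 1125) (C.ref (nat_lit 484) (nat_lit 188671020450576)) (C.cons (nat_lit 1123) (C.ref (nat_lit 484) (nat_lit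 188671019402016)) (C.cons (nat_lit 1113) (C.ref (nat_lit 484) (nat_lit 188671004725776)) (C.cons (nat_lit 1109) (C.ref (nat_lit 484) (nat_lit 188671003677456)) (C.cons (nat_lit 1107) (C.ref (nat_lit 484) (nat_lit 188671002628896)) (C.cons (nat_lit 1101) (C.ref (nat_lit 484) (nat_lit 188670986900496)) (C.cons (nat_lit 1099) (C.ref (nat_lit 484) (nat_lit 188670985851936)) (C.cons (nat_lit 1095) (C.ref (nat_lit 484) (nat_lit 188670969074736)) (C.cons (nat_lit 1081) (C.ref (nat_lit 484) (nat_lit 188670736294416)) (C.cons (nat_lit 1077) (C.ref (nat_lit 484) (nat_lit 188670735246096)) (C.cons (nat_lit 1075) (C.ref (nat_lit 484) (nat_lit 188670734197536)) (C.cons (nat_lit 1069) (C.ref (nat_lit 484) (nat_lit 188670718469136)) (C.cons (nat_lit 1067) (C.ref (nat_lit 484) (nat_lit 188670717420576)) (C.cons (nat_lit 1063) (C.ref (nat_lit 484) (nat_lit 188670700643376)) (C.cons (nat_lit 1053) (C.ref (nat_lit 484) (nat_lit 188670450033936)) (C.cons (nat_lit 1051) (C.ref (nat_lit 484) (nat_lit 188670448985376))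 (C.cons (nat_lit 1047) (C.ref (nat_lit 484) (nat_lit 188670432208176)) (C.cons (nat_lit 1039) (C.ref (nat_lit 484) (nat_lit 188670163772736)) (C.cons (nat_lit 737) (C.ref (nat_lit 484) (nat_lit 171147842040336)) (C.cons (nat_lit 721) (C.ref (nat_lit 484) (nat_lit 171147841057296)) (C.cons (nat_lit 713) (C.ref (nat_lit 484) (nat_lit 171147840012816)) (C.cons (nat_lit 709) (C.ref (nat_lit 484) (nat_lit 171147838964496)) (C.cons (nat_lit 707) (C.ref (nat_lit 484) (nat_lit 171147837915936)) (C.cons (nat_lit 689) (C.ref (nat_lit 484) (nat_lit 171147824345616)) (C.cons (nat_lit 681) (C.ref (nat_lit 484) (nat_lit 171147823301136)) (C.cons (nat_lit 677) (C.ref (nat_lit 484) (nat_lit 171147822252816)) (C.cons (nat_lit 675) (C.ref (nat_lit 484) (nat_lit 171147821204256)) (C.cons (nat_lit 665) (C.ref (nat_lit 484) (nat_lit 171147806528016)) (C.cons (nat_lit 661) (C.ref (nat_lit 484) (nat_lit 171147805479696)) (C.cons (nat_lit 659)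
  (C.ref (nat_lit 484) (nat_lit 171147804431136)) (C.cons (nat_lit 653) (C.ref (nat_lit 484) (nat_lit 171147788702736)) (C.cons (nat_lit 651) (C.ref (nat_lit 484) (nat_lit 171147787654176)) (C.cons (nat_lit 647) (C.ref (nat_lit 484) (nat_lit 171147770876976)) (C.cons (nat_lit 625) (C.ref (nat_lit 484) (nat_lit 171147555975696)) (C.cons (nat_lit 617) (C.ref (nat_lit 484) (nat_lit 171147554931216)) (C.cons (nat_lit 613) (C.ref (nat_lit 484) (nat_lit 171147553882896)) (C.cons (nat_lit 611) (C.ref (nat_lit 484) (nat_lit 171147552834336)) (C.cons (nat_lit 601) (C.ref (nat_lit 484) (nat_lit 171147538158096)) (C.cons (nat_lit 597) (C.ref (nat_lit 484) (nat_lit 171147537109776)) (C.cons (nat_lit 595) (C.ref (nat_lit 484) (nat_lit 171147536061216)) (C.cons (nat_lit 589) (C.ref (nat_lit 484) (nat_lit 171147520332816)) (C.cons (nat_lit 587) (C.ref (nat_lit 484) (nat_lit 171147519284256)) (C.cons (nat_lit 583) (C.ref (nat_lit 484) (nat_lit 171147502507056)) (C.cons (nat_lit 569) (C.ref (nat_lit 484) (nat_lit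 171147269726736)) (C.cons (nat_lit 565) (C.ref (nat_lit 484) (nat_lit 171147268678416)) (C.cons (nat_lit 563) (C.ref (nat_lit 484) (nat_lit 171147267629856)) (C.cons (nat_lit 557) (C.ref (nat_lit 484) (nat_lit 171147251901456)) (C.cons (nat_lit 555) (C.ref (nat_lit 484) (nat_lit 171147250852896)) (C.cons (nat_lit 551) (C.ref (nat_lit 484) (nat_lit 171147234075696)) (C.cons (nat_lit 541) (C.ref (nat_lit 484) (nat_lit 171146983466256)) (C.cons (nat_lit 539) (C.ref (nat_lit 484) (nat_lit 171146982417696)) (C.cons (nat_lit 535) (C.ref (nat_lit 484) (nat_lit 171146965640496)) (C.cons (nat_lit 527) (C.ref (nat_lit 484) (nat_lit 171146697205056)) (C.cons (nat_lit 481) (C.ref (nat_lit 484) (nat_lit 153559950963216)) (C.cons (nat_lit 465) (C.ref (nat_lit 484) (nat_lit 153559949980176)) (C.cons (nat_lit 457) (C.ref (nat_lit 484) (nat_lit 153559948935696)) (C.cons (nat_lit 453) (C.ref (nat_lit 484) (nat_lit 153559947887376)) (C.cons (nat_lit 451) (C.ref (nat_lit 484) (nat_lit 153559946838816)) (C.cons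 (nat_lit 433) (C.ref (nat_lit 484) (nat_lit 153559933268496)) (C.cons (nat_lit 425) (C.ref (nat_lit 484) (nat_lit 153559932224016)) (C.cons (nat_lit 421) (C.ref (nat_lit 484) (nat_lit 153559931175696)) (C.cons (nat_lit 419) (C.ref (nat_lit 484) (nat_lit 153559930127136)) (C.cons (nat_lit 409) (C.ref (nat_lit 484) (nat_lit 153559915450896)) (C.cons (nat_lit 405) (C.ref (nat_lit 484) (nat_lit 153559914402576)) (C.cons (nat_lit 403) (C.ref (nat_lit 484) (nat_lit 153559913354016)) (C.cons (nat_lit 397) (C.ref (nat_lit 484) (nat_lit 153559897625616)) (C.cons (nat_lit 395) (C.ref (nat_lit 484) (nat_lit 153559896577056)) (C.cons (nat_lit 391) (C.ref (nat_lit 484) (nat_lit 153559879799856)) (C.cons (nat_lit 369) (C.ref (nat_lit 484) (nat_lit 153559664898576)) (C.cons (nat_lit 361) (C.ref (nat_lit 484) (nat_lit 153559663854096)) (C.cons (nat_lit 357) (C.ref (nat_lit 484) (nat_lit 153559662805776)) (C.cons (nat_lit 355) (C.ref (nat_lit 484) (nat_lit 153559661757216)) (C.cons (nat_lit 345) (C.ref (nat_lit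 484) (nat_lit 153559647080976)) (C.cons (nat_lit 341) (C.ref (nat_lit 484) (nat_lit 153559646032656)) (C.cons (nat_lit 339) (C.ref (nat_lit 484) (nat_lit 153559644984096)) (C.cons (nat_lit 333) (C.ref (nat_lit 484) (nat_lit 153559629255696)) (C.cons (nat_lit 331) (C.ref (nat_lit 484) (nat_lit 153559628207136)) (C.cons (nat_lit 327) (C.ref (nat_lit 484) (nat_lit 153559611429936)) (C.cons (nat_lit 313) (C.ref (nat_lit 484) (nat_lit 153559378649616)) (C.cons (nat_lit 309) (C.ref (nat_lit 484) (nat_lit 153559377601296)) (C.cons (nat_lit 307) (C.ref (nat_lit 484) (nat_lit 153559376552736)) (C.cons (nat_lit 301) (C.ref (nat_lit 484) (nat_lit 153559360824336)) (C.cons (nat_lit 299) (C.ref (nat_lit 484) (nat_lit 153559359775776)) (C.cons (nat_lit 295) (C.ref (nat_lit 484) (nat_lit 153559342998576)) (C.cons (nat_lit 285) (C.ref (nat_lit 484) (nat_lit 153559092389136)) (C.cons (nat_lit 283) (C.ref (nat_lit 484) (nat_lit 153559091340576)) (C.cons (nat_lit 279)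
  (C.ref (nat_lit 484) (nat_lit 153559074563376)) (C.cons (nat_lit 271) (C.ref (nat_lit 484) (nat_lit 153558806127936)) (C.cons (nat_lit 241) (C.ref (nat_lit 485) (nat_lit 205163983024656)) (C.cons (nat_lit 233) (C.ref (nat_lit 485) (nat_lit 205163982963216)) (C.cons (nat_lit 229) (C.ref (nat_lit 485) (nat_lit 205163982897936)) (C.cons (nat_lit 227) (C.ref (nat_lit 485) (nat_lit 205163982832416)) (C.cons (nat_lit 217) (C.ref (nat_lit 485) (nat_lit 205163981918736)) (C.cons (nat_lit 213) (C.ref (nat_lit 485) (nat_lit 205163981853456)) (C.cons (nat_lit 211) (C.ref (nat_lit 485) (nat_lit 205163981787936)) (C.cons (nat_lit 205) (C.ref (nat_lit 485) (nat_lit 205163980805136)) (C.cons (nat_lit 203) (C.ref (nat_lit 485) (nat_lit 205163980739616)) (C.cons (nat_lit 199) (C.ref (nat_lit 485) (nat_lit 205163979691056)) (C.cons (nat_lit 185) (C.ref (nat_lit 485) (nat_lit 205163965145616)) (C.cons (nat_lit 181) (C.ref (nat_lit 485) (nat_lit 205163965080336)) (C.cons (nat_lit 179) (C.ref (nat_lit 485) (nat_lit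 205163965014816)) (C.cons (nat_lit 173) (C.ref (nat_lit 485) (nat_lit 205163964032016)) (C.cons (nat_lit 171) (C.ref (nat_lit 485) (nat_lit 205163963966496)) (C.cons (nat_lit 167) (C.ref (nat_lit 485) (nat_lit 205163962917936)) (C.cons (nat_lit 157) (C.ref (nat_lit 485) (nat_lit 205163947255056)) (C.cons (nat_lit 155) (C.ref (nat_lit 485) (nat_lit 205163947189536)) (C.cons (nat_lit 151) (C.ref (nat_lit 485) (nat_lit 205163946140976)) (C.cons (nat_lit 143) (C.ref (nat_lit 485) (nat_lit 205163929363776)) (C.cons (nat_lit 121) (C.ref (nat_lit 485) (nat_lit 205163696714256)) (C.cons (nat_lit 117) (C.ref (nat_lit 485) (nat_lit 205163696648976)) (C.cons (nat_lit 115) (C.ref (nat_lit 485) (nat_lit 205163696583456)) (C.cons (nat_lit 109) (C.ref (nat_lit 485) (nat_lit 205163695600656)) (C.cons (nat_lit 107) (C.ref (nat_lit 485) (nat_lit 205163695535136)) (C.cons (nat_lit 103) (C.ref (nat_lit 485) (nat_lit 205163694486576)) (C.cons (nat_lit 93) (C.ref (nat_lit 485) (nat_lit 205163678823696)) (C.cons (nat_lit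 91) (C.ref (nat_lit 485) (nat_lit 205163678758176)) (C.cons (nat_lit 87) (C.ref (nat_lit 485) (nat_lit 205163677709616)) (C.cons (nat_lit 79) (C.ref (nat_lit 485) (nat_lit 205163660932416)) (C.cons (nat_lit 61) (C.ref (nat_lit 485) (nat_lit 205163410388496)) (C.cons (nat_lit 59) (C.ref (nat_lit 485) (nat_lit 205163410322976)) (C.cons (nat_lit 55) (C.ref (nat_lit 485) (nat_lit 205163409274416)) (C.cons (nat_lit 47) (C.ref (nat_lit 485) (nat_lit 205163392497216)) (C.cons (nat_lit 31) (C.ref (nat_lit 485) (nat_lit 205163124061776)) C.nil))))))))))))))))))))))))))))))))))))))))))))))))))))))))))))))))))))))))))))))))))))))))))))))))))))))))))))))))))))))))))))))))))))))))))))))))))))))))))))))))))))))))))))))) C.nil) List.nil)))))))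

theorem ok12_480 : okL par12 (nat_lit 487) c12_480 (nat_lit 480) = true := by decide +kernel

noncomputable def c12_487 : List C :=
  (List.cons (C.big (C.cons (nat_lit 3969) (C.ref (nat_lit 231) (nat_lit 205163983024656)) (C.cons (nat_lit 3905) (C.ref (nat_lit 231) (nat_lit 205163731366416)) (C.cons (nat_lit 3873) (C.ref (nat_lit 231) (nat_lit 205163463979536)) (C.cons (nat_lit 3857) (C.ref (nat_lit 231) (nat_lit 205163195609616)) (C.cons (nat_lit 3849) (C.ref (nat_lit 231) (nat_lit 205162927178256)) (C.cons (nat_lit 3845) (C.ref (nat_lit 231) (nat_lit 205162658743056)) (C.cons (nat_lit 3843) (C.ref (nat_lit 231) (nat_lit 205162390307616)) (C.cons (nat_lit 3777) (C.ref (nat_lit 231) (nat_lit 205159453176336)) (C.cons (nat_lit 3745) (C.ref (nat_lit 231) (nat_lit 205159185789456)) (C.cons (nat_lit 3729) (C.ref (nat_lit 231) (nat_lit 205158917419536)) (C.cons (nat_lit 3721) (C.ref (nat_lit 231) (nat_lit 205158648988176)) (C.cons (nat_lit 3717) (C.ref (nat_lit 231) (nat_lit 205158380552976)) (C.cons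 (nat_lit 3715) (C.ref (nat_lit 231) (nat_lit 205158112117536)) (C.cons (nat_lit 3681) (C.ref (nat_lit 231) (nat_lit 205154891870736)) (C.cons (nat_lit 3665) (C.ref (nat_lit 231) (nat_lit 205154623500816)) (C.cons (nat_lit 3657) (C.ref (nat_lit 231) (nat_lit 205154355069456)) (C.cons (nat_lit 3653) (C.ref (nat_lit 231) (nat_lit 205154086634256)) (C.cons (nat_lit 3651) (C.ref (nat_lit 231) (nat_lit 205153818198816)) (C.cons (nat_lit 3633) (C.ref (nat_lit 231) (nat_lit 205150328599056)) (C.cons (nat_lit 3625) (C.ref (nat_lit 231) (nat_lit 205150060167696)) (C.cons (nat_lit 3621) (C.ref (nat_lit 231) (nat_lit 205149791732496)) (C.cons (nat_lit 3619) (C.ref (nat_lit 231) (nat_lit 205149523297056)) (C.cons (nat_lit 3609) (C.ref (nat_lit 231) (nat_lit 205145765204496)) (C.cons (nat_lit 3605) (C.ref (nat_lit 231) (nat_lit 205145496769296)) (C.cons (nat_lit 3603) (C.ref (nat_lit 231) (nat_lit 205145228333856)) (C.cons (nat_lit 3597) (C.ref (nat_lit 231) (nat_lit 205141201802256)) (C.cons (nat_lit 3595)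 (C.ref (nat_lit 231) (nat_lit 205140933366816)) (C.cons (nat_lit 3591) (C.ref (nat_lit 231) (nat_lit 205136638399536)) (C.cons (nat_lit 3521) (C.ref (nat_lit 231) (nat_lit 205090750476816)) (C.cons (nat_lit 3489) (C.ref (nat_lit 231) (nat_lit 205090483089936)) (C.cons (nat_lit 3473) (C.ref (nat_lit 231) (nat_lit 205090214720016)) (C.cons (nat_lit 3465) (C.ref (nat_lit 231) (nat_lit 205089946288656)) (C.cons (nat_lit 3461) (C.ref (nat_lit 231) (nat_lit 205089677853456)) (C.cons (nat_lit 3459) (C.ref (nat_lit 231) (nat_lit 205089409418016)) (C.cons (nat_lit 3425) (C.ref (nat_lit 231) (nat_lit 205086189171216)) (C.cons (nat_lit 3409) (C.ref (nat_lit 231) (nat_lit 205085920801296)) (C.cons (nat_lit 3401) (C.ref (nat_lit 231) (nat_lit 205085652369936)) (C.cons (nat_lit 3397) (C.ref (nat_lit 231) (nat_lit 205085383934736)) (C.cons (nat_lit 3395) (C.ref (nat_lit 231) (nat_lit 205085115499296)) (C.cons (nat_lit 3377) (C.ref (nat_lit 231) (nat_lit 205081625899536)) (C.cons (nat_lit 3369) (C.ref (nat_lit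 231) (nat_lit 205081357468176)) (C.cons (nat_lit 3365) (C.ref (nat_lit 231) (nat_lit 205081089032976)) (C.cons (nat_lit 3363) (C.ref (nat_lit 231) (nat_lit 205080820597536)) (C.cons (nat_lit 3353) (C.ref (nat_lit 231) (nat_lit 205077062504976)) (C.cons (nat_lit 3349) (C.ref (nat_lit 231) (nat_lit 205076794069776)) (C.cons (nat_lit 3347) (C.ref (nat_lit 231) (nat_lit 205076525634336)) (C.cons (nat_lit 3341) (C.ref (nat_lit 231) (nat_lit 205072499102736)) (C.cons (nat_lit 3339) (C.ref (nat_lit 231) (nat_lit 205072230667296)) (C.cons (nat_lit 3335) (C.ref (nat_lit 231) (nat_lit 205067935700016)) (C.cons (nat_lit 3297) (C.ref (nat_lit 231) (nat_lit 205017470743056)) (C.cons (nat_lit 3281) (C.ref (nat_lit 231) (nat_lit 205017202373136)) (C.cons (nat_lit 3273) (C.ref (nat_lit 231) (nat_lit 205016933941776)) (C.cons (nat_lit 3269) (C.ref (nat_lit 231) (nat_lit 205016665506576)) (C.cons (nat_lit 3267) (C.ref (nat_lit 231) (nat_lit 205016397071136)) (C.cons (nat_lit 3249) (C.ref (nat_lit 231) (nat_lit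 205012907471376)) (C.cons (nat_lit 3241) (C.ref (nat_lit 231) (nat_lit 205012639040016))
  (C.cons (nat_lit 3237) (C.ref (nat_lit 231) (nat_lit 205012370604816)) (C.cons (nat_lit 3235) (C.ref (nat_lit 231) (nat_lit 205012102169376)) (C.cons (nat_lit 3225) (C.ref (nat_lit 231) (nat_lit 205008344076816)) (C.cons (nat_lit 3221) (C.ref (nat_lit 231) (nat_lit 205008075641616)) (C.cons (nat_lit 3219) (C.ref (nat_lit 231) (nat_lit 205007807206176)) (C.cons (nat_lit 3213) (C.ref (nat_lit 231) (nat_lit 205003780674576)) (C.cons (nat_lit 3211) (C.ref (nat_lit 231) (nat_lit 205003512239136)) (C.cons (nat_lit 3207) (C.ref (nat_lit 231) (nat_lit 204999217271856)) (C.cons (nat_lit 3185) (C.ref (nat_lit 231) (nat_lit 204944188060176)) (C.cons (nat_lit 3177) (C.ref (nat_lit 231) (nat_lit 204943919628816)) (C.cons (nat_lit 3173) (C.ref (nat_lit 231) (nat_lit 204943651193616)) (C.cons (nat_lit 3171) (C.ref (nat_lit 231) (nat_lit 204943382758176)) (C.cons (nat_lit 3161) (C.ref (nat_lit 231) (nat_lit 204939624665616))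 (C.cons (nat_lit 3157) (C.ref (nat_lit 231) (nat_lit 204939356230416)) (C.cons (nat_lit 3155) (C.ref (nat_lit 231) (nat_lit 204939087794976)) (C.cons (nat_lit 3149) (C.ref (nat_lit 231) (nat_lit 204935061263376)) (C.cons (nat_lit 3147) (C.ref (nat_lit 231) (nat_lit 204934792827936)) (C.cons (nat_lit 3143) (C.ref (nat_lit 231) (nat_lit 204930497860656)) (C.cons (nat_lit 3129) (C.ref (nat_lit 231) (nat_lit 204870905192976)) (C.cons (nat_lit 3125) (C.ref (nat_lit 231) (nat_lit 204870636757776)) (C.cons (nat_lit 3123) (C.ref (nat_lit 231) (nat_lit 204870368322336)) (C.cons (nat_lit 3117) (C.ref (nat_lit 231) (nat_lit 204866341790736)) (C.cons (nat_lit 3115) (C.ref (nat_lit 231) (nat_lit 204866073355296)) (C.cons (nat_lit 3111) (C.ref (nat_lit 231) (nat_lit 204861778388016)) (C.cons (nat_lit 3101) (C.ref (nat_lit 231) (nat_lit 204797622314256)) (C.cons (nat_lit 3099) (C.ref (nat_lit 231) (nat_lit 204797353878816)) (C.cons (nat_lit 3095) (C.ref (nat_lit 231) (nat_lit 204793058911536)) (C.cons (nat_lit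 3087) (C.ref (nat_lit 231) (nat_lit 204724339434816)) (C.cons (nat_lit 3009) (C.ref (nat_lit 231) (nat_lit 203991255626256)) (C.cons (nat_lit 2977) (C.ref (nat_lit 231) (nat_lit 203990988239376)) (C.cons (nat_lit 2961) (C.ref (nat_lit 231) (nat_lit 203990719869456)) (C.cons (nat_lit 2953) (C.ref (nat_lit 231) (nat_lit 203990451438096)) (C.cons (nat_lit 2949) (C.ref (nat_lit 231) (nat_lit 203990183002896)) (C.cons (nat_lit 2947) (C.ref (nat_lit 231) (nat_lit 203989914567456)) (C.cons (nat_lit 2913) (C.ref (nat_lit 231) (nat_lit 203986694320656)) (C.cons (nat_lit 2897) (C.ref (nat_lit 231) (nat_lit 203986425950736)) (C.cons (nat_lit 2889) (C.ref (nat_lit 231) (nat_lit 203986157519376)) (C.cons (nat_lit 2885) (C.ref (nat_lit 231) (nat_lit 203985889084176)) (C.cons (nat_lit 2883) (C.ref (nat_lit 231) (nat_lit 203985620648736)) (C.cons (nat_lit 2865) (C.ref (nat_lit 231) (nat_lit 203982131048976)) (C.cons (nat_lit 2857) (C.ref (nat_lit 231) (nat_lit 203981862617616)) (C.cons (nat_lit 2853) (C.ref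 (nat_lit 231) (nat_lit 203981594182416)) (C.cons (nat_lit 2851) (C.ref (nat_lit 231) (nat_lit 203981325746976)) (C.cons (nat_lit 2841) (C.ref (nat_lit 231) (nat_lit 203977567654416)) (C.cons (nat_lit 2837) (C.ref (nat_lit 231) (nat_lit 203977299219216)) (C.cons (nat_lit 2835) (C.ref (nat_lit 231) (nat_lit 203977030783776)) (C.cons (nat_lit 2829) (C.ref (nat_lit 231) (nat_lit 203973004252176)) (C.cons (nat_lit 2827) (C.ref (nat_lit 231) (nat_lit 203972735816736)) (C.cons (nat_lit 2823) (C.ref (nat_lit 231) (nat_lit 203968440849456)) (C.cons (nat_lit 2785) (C.ref (nat_lit 231) (nat_lit 203917975892496)) (C.cons (nat_lit 2769) (C.ref (nat_lit 231) (nat_lit 203917707522576)) (C.cons (nat_lit 2761) (C.ref (nat_lit 231) (nat_lit 203917439091216)) (C.cons (nat_lit 2757) (C.ref (nat_lit 231) (nat_lit 203917170656016)) (C.cons (nat_lit 2755) (C.ref (nat_lit 231) (nat_lit 203916902220576)) (C.cons (nat_lit 2737) (C.ref (nat_lit 231) (nat_lit 203913412620816)) (C.cons (nat_lit 2729) (C.ref (nat_lit 231)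 (nat_lit 203913144189456))
  (C.cons (nat_lit 2725) (C.ref (nat_lit 231) (nat_lit 203912875754256)) (C.cons (nat_lit 2723) (C.ref (nat_lit 231) (nat_lit 203912607318816)) (C.cons (nat_lit 2713) (C.ref (nat_lit 231) (nat_lit 203908849226256)) (C.cons (nat_lit 2709) (C.ref (nat_lit 231) (nat_lit 203908580791056)) (C.cons (nat_lit 2707) (C.ref (nat_lit 231) (nat_lit 203908312355616)) (C.cons (nat_lit 2701) (C.ref (nat_lit 231) (nat_lit 203904285824016)) (C.cons (nat_lit 2699) (C.ref (nat_lit 231) (nat_lit 203904017388576)) (C.cons (nat_lit 2695) (C.ref (nat_lit 231) (nat_lit 203899722421296)) (C.cons (nat_lit 2673) (C.ref (nat_lit 231) (nat_lit 203844693209616)) (C.cons (nat_lit 2665) (C.ref (nat_lit 231) (nat_lit 203844424778256)) (C.cons (nat_lit 2661) (C.ref (nat_lit 231) (nat_lit 203844156343056)) (C.cons (nat_lit 2659) (C.ref (nat_lit 231) (nat_lit 203843887907616)) (C.cons (nat_lit 2649) (C.ref (nat_lit 231) (nat_lit 203840129815056)) (C.cons (nat_lit 2645) (C.ref (nat_lit 231) (nat_lit 203839861379856))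 (C.cons (nat_lit 2643) (C.ref (nat_lit 231) (nat_lit 203839592944416)) (C.cons (nat_lit 2637) (C.ref (nat_lit 231) (nat_lit 203835566412816)) (C.cons (nat_lit 2635) (C.ref (nat_lit 231) (nat_lit 203835297977376)) (C.cons (nat_lit 2631) (C.ref (nat_lit 231) (nat_lit 203831003010096)) (C.cons (nat_lit 2617) (C.ref (nat_lit 231) (nat_lit 203771410342416)) (C.cons (nat_lit 2613) (C.ref (nat_lit 231) (nat_lit 203771141907216)) (C.cons (nat_lit 2611) (C.ref (nat_lit 231) (nat_lit 203770873471776)) (C.cons (nat_lit 2605) (C.ref (nat_lit 231) (nat_lit 203766846940176)) (C.cons (nat_lit 2603) (C.ref (nat_lit 231) (nat_lit 203766578504736)) (C.cons (nat_lit 2599) (C.ref (nat_lit 231) (nat_lit 203762283537456)) (C.cons (nat_lit 2589) (C.ref (nat_lit 231) (nat_lit 203698127463696)) (C.cons (nat_lit 2587) (C.ref (nat_lit 231) (nat_lit 203697859028256)) (C.cons (nat_lit 2583) (C.ref (nat_lit 231) (nat_lit 203693564060976)) (C.cons (nat_lit 2575) (C.ref (nat_lit 231) (nat_lit 203624844584256)) (C.cons (nat_lit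 2529) (C.ref (nat_lit 231) (nat_lit 202818465313296)) (C.cons (nat_lit 2513) (C.ref (nat_lit 231) (nat_lit 202818196943376)) (C.cons (nat_lit 2505) (C.ref (nat_lit 231) (nat_lit 202817928512016)) (C.cons (nat_lit 2501) (C.ref (nat_lit 231) (nat_lit 202817660076816)) (C.cons (nat_lit 2499) (C.ref (nat_lit 231) (nat_lit 202817391641376)) (C.cons (nat_lit 2481) (C.ref (nat_lit 231) (nat_lit 202813902041616)) (C.cons (nat_lit 2473) (C.ref (nat_lit 231) (nat_lit 202813633610256)) (C.cons (nat_lit 2469) (C.ref (nat_lit 231) (nat_lit 202813365175056)) (C.cons (nat_lit 2467) (C.ref (nat_lit 231) (nat_lit 202813096739616)) (C.cons (nat_lit 2457) (C.ref (nat_lit 231) (nat_lit 202809338647056)) (C.cons (nat_lit 2453) (C.ref (nat_lit 231) (nat_lit 202809070211856)) (C.cons (nat_lit 2451) (C.ref (nat_lit 231) (nat_lit 202808801776416)) (C.cons (nat_lit 2445) (C.ref (nat_lit 231) (nat_lit 202804775244816)) (C.cons (nat_lit 2443) (C.ref (nat_lit 231) (nat_lit 202804506809376)) (C.cons (nat_lit 2439) (C.ref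 (nat_lit 231) (nat_lit 202800211842096)) (C.cons (nat_lit 2417) (C.ref (nat_lit 231) (nat_lit 202745182630416)) (C.cons (nat_lit 2409) (C.ref (nat_lit 231) (nat_lit 202744914199056)) (C.cons (nat_lit 2405) (C.ref (nat_lit 231) (nat_lit 202744645763856)) (C.cons (nat_lit 2403) (C.ref (nat_lit 231) (nat_lit 202744377328416)) (C.cons (nat_lit 2393) (C.ref (nat_lit 231) (nat_lit 202740619235856)) (C.cons (nat_lit 2389) (C.ref (nat_lit 231) (nat_lit 202740350800656)) (C.cons (nat_lit 2387) (C.ref (nat_lit 231) (nat_lit 202740082365216)) (C.cons (nat_lit 2381) (C.ref (nat_lit 231) (nat_lit 202736055833616)) (C.cons (nat_lit 2379) (C.ref (nat_lit 231) (nat_lit 202735787398176)) (C.cons (nat_lit 2375) (C.ref (nat_lit 231) (nat_lit 202731492430896)) (C.cons (nat_lit 2361) (C.ref (nat_lit 231) (nat_lit 202671899763216)) (C.cons (nat_lit 2357) (C.ref (nat_lit 231) (nat_lit 202671631328016)) (C.cons (nat_lit 2355) (C.ref (nat_lit 231) (nat_lit 202671362892576))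
  (C.cons (nat_lit 2349) (C.ref (nat_lit 231) (nat_lit 202667336360976)) (C.cons (nat_lit 2347) (C.ref (nat_lit 231) (nat_lit 202667067925536)) (C.cons (nat_lit 2343) (C.ref (nat_lit 231) (nat_lit 202662772958256)) (C.cons (nat_lit 2333) (C.ref (nat_lit 231) (nat_lit 202598616884496)) (C.cons (nat_lit 2331) (C.ref (nat_lit 231) (nat_lit 202598348449056)) (C.cons (nat_lit 2327) (C.ref (nat_lit 231) (nat_lit 202594053481776)) (C.cons (nat_lit 2319) (C.ref (nat_lit 231) (nat_lit 202525334005056)) (C.cons (nat_lit 2289) (C.ref (nat_lit 231) (nat_lit 201645671068176)) (C.cons (nat_lit 2281) (C.ref (nat_lit 231) (nat_lit 201645402636816)) (C.cons (nat_lit 2277) (C.ref (nat_lit 231) (nat_lit 201645134201616)) (C.cons (nat_lit 2275) (C.ref (nat_lit 231) (nat_lit 201644865766176)) (C.cons (nat_lit 2265) (C.ref (nat_lit 231) (nat_lit 201641107673616)) (C.cons (nat_lit 2261) (C.ref (nat_lit 231) (nat_lit 201640839238416)) (C.cons (nat_lit 2259) (C.ref (nat_lit 231) (nat_lit 201640570802976)) (C.cons (nat_lit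 2253) (C.ref (nat_lit 231) (nat_lit 201636544271376)) (C.cons (nat_lit 2251) (C.ref (nat_lit 231) (nat_lit 201636275835936)) (C.cons (nat_lit 2247) (C.ref (nat_lit 231) (nat_lit 201631980868656)) (C.cons (nat_lit 2233) (C.ref (nat_lit 231) (nat_lit 201572388200976)) (C.cons (nat_lit 2229) (C.ref (nat_lit 231) (nat_lit 201572119765776)) (C.cons (nat_lit 2227) (C.ref (nat_lit 231) (nat_lit 201571851330336)) (C.cons (nat_lit 2221) (C.ref (nat_lit 231) (nat_lit 201567824798736)) (C.cons (nat_lit 2219) (C.ref (nat_lit 231) (nat_lit 201567556363296)) (C.cons (nat_lit 2215) (C.ref (nat_lit 231) (nat_lit 201563261396016)) (C.cons (nat_lit 2205) (C.ref (nat_lit 231) (nat_lit 201499105322256)) (C.cons (nat_lit 2203) (C.ref (nat_lit 231) (nat_lit 201498836886816)) (C.cons (nat_lit 2199) (C.ref (nat_lit 231) (nat_lit 201494541919536)) (C.cons (nat_lit 2191) (C.ref (nat_lit 231) (nat_lit 201425822442816)) (C.cons (nat_lit 2169) (C.ref (nat_lit 231) (nat_lit 200472876577296)) (C.cons (nat_lit 2165) (C.ref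 (nat_lit 231) (nat_lit 200472608142096)) (C.cons (nat_lit 2163) (C.ref (nat_lit 231) (nat_lit 200472339706656)) (C.cons (nat_lit 2157) (C.ref (nat_lit 231) (nat_lit 200468313175056)) (C.cons (nat_lit 2155) (C.ref (nat_lit 231) (nat_lit 200468044739616)) (C.cons (nat_lit 2151) (C.ref (nat_lit 231) (nat_lit 200463749772336)) (C.cons (nat_lit 2141) (C.ref (nat_lit 231) (nat_lit 200399593698576)) (C.cons (nat_lit 2139) (C.ref (nat_lit 231) (nat_lit 200399325263136)) (C.cons (nat_lit 2135) (C.ref (nat_lit 231) (nat_lit 200395030295856)) (C.cons (nat_lit 2127) (C.ref (nat_lit 231) (nat_lit 200326310819136)) (C.cons (nat_lit 2109) (C.ref (nat_lit 231) (nat_lit 199300082071056)) (C.cons (nat_lit 2107) (C.ref (nat_lit 231) (nat_lit 199299813635616)) (C.cons (nat_lit 2103) (C.ref (nat_lit 231) (nat_lit 199295518668336)) (C.cons (nat_lit 2095) (C.ref (nat_lit 231) (nat_lit 199226799191616)) (C.cons (nat_lit 2079) (C.ref (nat_lit 231) (nat_lit 198127287563856)) (C.cons (nat_lit 1985) (C.ref (nat_lit 231)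 (nat_lit 186399086359056)) (C.cons (nat_lit 1953) (C.ref (nat_lit 231) (nat_lit 186398818972176)) (C.cons (nat_lit 1937) (C.ref (nat_lit 231) (nat_lit 186398550602256)) (C.cons (nat_lit 1929) (C.ref (nat_lit 231) (nat_lit 186398282170896)) (C.cons (nat_lit 1925) (C.ref (nat_lit 231) (nat_lit 186398013735696)) (C.cons (nat_lit 1923) (C.ref (nat_lit 231) (nat_lit 186397745300256)) (C.cons (nat_lit 1889) (C.ref (nat_lit 231) (nat_lit 186394525053456)) (C.cons (nat_lit 1873) (C.ref (nat_lit 231) (nat_lit 186394256683536)) (C.cons (nat_lit 1865) (C.ref (nat_lit 231) (nat_lit 186393988252176)) (C.cons (nat_lit 1861) (C.ref (nat_lit 231) (nat_lit 186393719816976)) (C.cons (nat_lit 1859) (C.ref (nat_lit 231) (nat_lit 186393451381536)) (C.cons (nat_lit 1841) (C.ref (nat_lit 231) (nat_lit 186389961781776)) (C.cons (nat_lit 1833) (C.ref (nat_lit 231) (nat_lit 186389693350416)) (C.cons (nat_lit 1829) (C.ref (nat_lit 231) (nat_lit 186389424915216))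
  (C.cons (nat_lit 1827) (C.ref (nat_lit 231) (nat_lit 186389156479776)) (C.cons (nat_lit 1817) (C.ref (nat_lit 231) (nat_lit 186385398387216)) (C.cons (nat_lit 1813) (C.ref (nat_lit 231) (nat_lit 186385129952016)) (C.cons (nat_lit 1811) (C.ref (nat_lit 231) (nat_lit 186384861516576)) (C.cons (nat_lit 1805) (C.ref (nat_lit 231) (nat_lit 186380834984976)) (C.cons (nat_lit 1803) (C.ref (nat_lit 231) (nat_lit 186380566549536)) (C.cons (nat_lit 1799) (C.ref (nat_lit 231) (nat_lit 186376271582256)) (C.cons (nat_lit 1761) (C.ref (nat_lit 231) (nat_lit 186325806625296)) (C.cons (nat_lit 1745) (C.ref (nat_lit 231) (nat_lit 186325538255376)) (C.cons (nat_lit 1737) (C.ref (nat_lit 231) (nat_lit 186325269824016)) (C.cons (nat_lit 1733) (C.ref (nat_lit 231) (nat_lit 186325001388816)) (C.cons (nat_lit 1731) (C.ref (nat_lit 231) (nat_lit 186324732953376)) (C.cons (nat_lit 1713) (C.ref (nat_lit 231) (nat_lit 186321243353616)) (C.cons (nat_lit 1705) (C.ref (nat_lit 231) (nat_lit 186320974922256)) (C.cons (nat_lit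 1701) (C.ref (nat_lit 231) (nat_lit 186320706487056)) (C.cons (nat_lit 1699) (C.ref (nat_lit 231) (nat_lit 186320438051616)) (C.cons (nat_lit 1689) (C.ref (nat_lit 231) (nat_lit 186316679959056)) (C.cons (nat_lit 1685) (C.ref (nat_lit 231) (nat_lit 186316411523856)) (C.cons (nat_lit 1683) (C.ref (nat_lit 231) (nat_lit 186316143088416)) (C.cons (nat_lit 1677) (C.ref (nat_lit 231) (nat_lit 186312116556816)) (C.cons (nat_lit 1675) (C.ref (nat_lit 231) (nat_lit 186311848121376)) (C.cons (nat_lit 1671) (C.ref (nat_lit 231) (nat_lit 186307553154096)) (C.cons (nat_lit 1649) (C.ref (nat_lit 231) (nat_lit 186252523942416)) (C.cons (nat_lit 1641) (C.ref (nat_lit 231) (nat_lit 186252255511056)) (C.cons (nat_lit 1637) (C.ref (nat_lit 231) (nat_lit 186251987075856)) (C.cons (nat_lit 1635) (C.ref (nat_lit 231) (nat_lit 186251718640416)) (C.cons (nat_lit 1625) (C.ref (nat_lit 231) (nat_lit 186247960547856)) (C.cons (nat_lit 1621) (C.ref (nat_lit 231) (nat_lit 186247692112656)) (C.cons (nat_lit 1619) (C.ref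 (nat_lit 231) (nat_lit 186247423677216)) (C.cons (nat_lit 1613) (C.ref (nat_lit 231) (nat_lit 186243397145616)) (C.cons (nat_lit 1611) (C.ref (nat_lit 231) (nat_lit 186243128710176)) (C.cons (nat_lit 1607) (C.ref (nat_lit 231) (nat_lit 186238833742896)) (C.cons (nat_lit 1593) (C.ref (nat_lit 231) (nat_lit 186179241075216)) (C.cons (nat_lit 1589) (C.ref (nat_lit 231) (nat_lit 186178972640016)) (C.cons (nat_lit 1587) (C.ref (nat_lit 231) (nat_lit 186178704204576)) (C.cons (nat_lit 1581) (C.ref (nat_lit 231) (nat_lit 186174677672976)) (C.cons (nat_lit 1579) (C.ref (nat_lit 231) (nat_lit 186174409237536)) (C.cons (nat_lit 1575) (C.ref (nat_lit 231) (nat_lit 186170114270256)) (C.cons (nat_lit 1565) (C.ref (nat_lit 231) (nat_lit 186105958196496)) (C.cons (nat_lit 1563) (C.ref (nat_lit 231) (nat_lit 186105689761056)) (C.cons (nat_lit 1559) (C.ref (nat_lit 231) (nat_lit 186101394793776)) (C.cons (nat_lit 1551) (C.ref (nat_lit 231) (nat_lit 186032675317056)) (C.cons (nat_lit 1505) (C.ref (nat_lit 231)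 (nat_lit 185226296046096)) (C.cons (nat_lit 1489) (C.ref (nat_lit 231) (nat_lit 185226027676176)) (C.cons (nat_lit 1481) (C.ref (nat_lit 231) (nat_lit 185225759244816)) (C.cons (nat_lit 1477) (C.ref (nat_lit 231) (nat_lit 185225490809616)) (C.cons (nat_lit 1475) (C.ref (nat_lit 231) (nat_lit 185225222374176)) (C.cons (nat_lit 1457) (C.ref (nat_lit 231) (nat_lit 185221732774416)) (C.cons (nat_lit 1449) (C.ref (nat_lit 231) (nat_lit 185221464343056)) (C.cons (nat_lit 1445) (C.ref (nat_lit 231) (nat_lit 185221195907856)) (C.cons (nat_lit 1443) (C.ref (nat_lit 231) (nat_lit 185220927472416)) (C.cons (nat_lit 1433) (C.ref (nat_lit 231) (nat_lit 185217169379856)) (C.cons (nat_lit 1429) (C.ref (nat_lit 231) (nat_lit 185216900944656)) (C.cons (nat_lit 1427) (C.ref (nat_lit 231) (nat_lit 185216632509216)) (C.cons (nat_lit 1421) (C.ref (nat_lit 231) (nat_lit 185212605977616)) (C.cons (nat_lit 1419) (C.ref (nat_lit 231) (nat_lit 185212337542176))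
  (C.cons (nat_lit 1415) (C.ref (nat_lit 231) (nat_lit 185208042574896)) (C.cons (nat_lit 1393) (C.ref (nat_lit 231) (nat_lit 185153013363216)) (C.cons (nat_lit 1385) (C.ref (nat_lit 231) (nat_lit 185152744931856)) (C.cons (nat_lit 1381) (C.ref (nat_lit 231) (nat_lit 185152476496656)) (C.cons (nat_lit 1379) (C.ref (nat_lit 231) (nat_lit 185152208061216)) (C.cons (nat_lit 1369) (C.ref (nat_lit 231) (nat_lit 185148449968656)) (C.cons (nat_lit 1365) (C.ref (nat_lit 231) (nat_lit 185148181533456)) (C.cons (nat_lit 1363) (C.ref (nat_lit 231) (nat_lit 185147913098016)) (C.cons (nat_lit 1357) (C.ref (nat_lit 231) (nat_lit 185143886566416)) (C.cons (nat_lit 1355) (C.ref (nat_lit 231) (nat_lit 185143618130976)) (C.cons (nat_lit 1351) (C.ref (nat_lit 231) (nat_lit 185139323163696)) (C.cons (nat_lit 1337) (C.ref (nat_lit 231) (nat_lit 185079730496016)) (C.cons (nat_lit 1333) (C.ref (nat_lit 231) (nat_lit 185079462060816)) (C.cons (nat_lit 1331) (C.ref (nat_lit 231) (nat_lit 185079193625376)) (C.cons (nat_lit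 1325) (C.ref (nat_lit 231) (nat_lit 185075167093776)) (C.cons (nat_lit 1323) (C.ref (nat_lit 231) (nat_lit 185074898658336)) (C.cons (nat_lit 1319) (C.ref (nat_lit 231) (nat_lit 185070603691056)) (C.cons (nat_lit 1309) (C.ref (nat_lit 231) (nat_lit 185006447617296)) (C.cons (nat_lit 1307) (C.ref (nat_lit 231) (nat_lit 185006179181856)) (C.cons (nat_lit 1303) (C.ref (nat_lit 231) (nat_lit 185001884214576)) (C.cons (nat_lit 1295) (C.ref (nat_lit 231) (nat_lit 184933164737856)) (C.cons (nat_lit 1265) (C.ref (nat_lit 231) (nat_lit 184053501800976)) (C.cons (nat_lit 1257) (C.ref (nat_lit 231) (nat_lit 184053233369616)) (C.cons (nat_lit 1253) (C.ref (nat_lit 231) (nat_lit 184052964934416)) (C.cons (nat_lit 1251) (C.ref (nat_lit 231) (nat_lit 184052696498976)) (C.cons (nat_lit 1241) (C.ref (nat_lit 231) (nat_lit 184048938406416)) (C.cons (nat_lit 1237) (C.ref (nat_lit 231) (nat_lit 184048669971216)) (C.cons (nat_lit 1235) (C.ref (nat_lit 231) (nat_lit 184048401535776)) (C.cons (nat_lit 1229) (C.ref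 (nat_lit 231) (nat_lit 184044375004176)) (C.cons (nat_lit 1227) (C.ref (nat_lit 231) (nat_lit 184044106568736)) (C.cons (nat_lit 1223) (C.ref (nat_lit 231) (nat_lit 184039811601456)) (C.cons (nat_lit 1209) (C.ref (nat_lit 231) (nat_lit 183980218933776)) (C.cons (nat_lit 1205) (C.ref (nat_lit 231) (nat_lit 183979950498576)) (C.cons (nat_lit 1203) (C.ref (nat_lit 231) (nat_lit 183979682063136)) (C.cons (nat_lit 1197) (C.ref (nat_lit 231) (nat_lit 183975655531536)) (C.cons (nat_lit 1195) (C.ref (nat_lit 231) (nat_lit 183975387096096)) (C.cons (nat_lit 1191) (C.ref (nat_lit 231) (nat_lit 183971092128816)) (C.cons (nat_lit 1181) (C.ref (nat_lit 231) (nat_lit 183906936055056)) (C.cons (nat_lit 1179) (C.ref (nat_lit 231) (nat_lit 183906667619616)) (C.cons (nat_lit 1175) (C.ref (nat_lit 231) (nat_lit 183902372652336)) (C.cons (nat_lit 1167) (C.ref (nat_lit 231) (nat_lit 183833653175616)) (C.cons (nat_lit 1145) (C.ref (nat_lit 231) (nat_lit 182880707310096)) (C.cons (nat_lit 1141) (C.ref (nat_lit 231)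 (nat_lit 182880438874896)) (C.cons (nat_lit 1139) (C.ref (nat_lit 231) (nat_lit 182880170439456)) (C.cons (nat_lit 1133) (C.ref (nat_lit 231) (nat_lit 182876143907856)) (C.cons (nat_lit 1131) (C.ref (nat_lit 231) (nat_lit 182875875472416)) (C.cons (nat_lit 1127) (C.ref (nat_lit 231) (nat_lit 182871580505136)) (C.cons (nat_lit 1117) (C.ref (nat_lit 231) (nat_lit 182807424431376)) (C.cons (nat_lit 1115) (C.ref (nat_lit 231) (nat_lit 182807155995936)) (C.cons (nat_lit 1111) (C.ref (nat_lit 231) (nat_lit 182802861028656)) (C.cons (nat_lit 1103) (C.ref (nat_lit 231) (nat_lit 182734141551936)) (C.cons (nat_lit 1085) (C.ref (nat_lit 231) (nat_lit 181707912803856)) (C.cons (nat_lit 1083) (C.ref (nat_lit 231) (nat_lit 181707644368416)) (C.cons (nat_lit 1079) (C.ref (nat_lit 231) (nat_lit 181703349401136)) (C.cons (nat_lit 1071) (C.ref (nat_lit 231) (nat_lit 181634629924416)) (C.cons (nat_lit 1055) (C.ref (nat_lit 231) (nat_lit 180535118296656))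
  (C.cons (nat_lit 993) (C.ref (nat_lit 231) (nat_lit 167634111050256)) (C.cons (nat_lit 977) (C.ref (nat_lit 231) (nat_lit 167633842680336)) (C.cons (nat_lit 969) (C.ref (nat_lit 231) (nat_lit 167633574248976)) (C.cons (nat_lit 965) (C.ref (nat_lit 231) (nat_lit 167633305813776)) (C.cons (nat_lit 963) (C.ref (nat_lit 231) (nat_lit 167633037378336)) (C.cons (nat_lit 945) (C.ref (nat_lit 231) (nat_lit 167629547778576)) (C.cons (nat_lit 937) (C.ref (nat_lit 231) (nat_lit 167629279347216)) (C.cons (nat_lit 933) (C.ref (nat_lit 231) (nat_lit 167629010912016)) (C.cons (nat_lit 931) (C.ref (nat_lit 231) (nat_lit 167628742476576)) (C.cons (nat_lit 921) (C.ref (nat_lit 231) (nat_lit 167624984384016)) (C.cons (nat_lit 917) (C.ref (nat_lit 231) (nat_lit 167624715948816)) (C.cons (nat_lit 915) (C.ref (nat_lit 231) (nat_lit 167624447513376)) (C.cons (nat_lit 909) (C.ref (nat_lit 231) (nat_lit 167620420981776)) (C.cons (nat_lit 907) (C.ref (nat_lit 231) (nat_lit 167620152546336)) (C.cons (nat_lit 903) (C.ref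 (nat_lit 231) (nat_lit 167615857579056)) (C.cons (nat_lit 881) (C.ref (nat_lit 231) (nat_lit 167560828367376)) (C.cons (nat_lit 873) (C.ref (nat_lit 231) (nat_lit 167560559936016)) (C.cons (nat_lit 869) (C.ref (nat_lit 231) (nat_lit 167560291500816)) (C.cons (nat_lit 867) (C.ref (nat_lit 231) (nat_lit 167560023065376)) (C.cons (nat_lit 857) (C.ref (nat_lit 231) (nat_lit 167556264972816)) (C.cons (nat_lit 853) (C.ref (nat_lit 231) (nat_lit 167555996537616)) (C.cons (nat_lit 851) (C.ref (nat_lit 231) (nat_lit 167555728102176)) (C.cons (nat_lit 845) (C.ref (nat_lit 231) (nat_lit 167551701570576)) (C.cons (nat_lit 843) (C.ref (nat_lit 231) (nat_lit 167551433135136)) (C.cons (nat_lit 839) (C.ref (nat_lit 231) (nat_lit 167547138167856)) (C.cons (nat_lit 825) (C.ref (nat_lit 231) (nat_lit 167487545500176)) (C.cons (nat_lit 821) (C.ref (nat_lit 231) (nat_lit 167487277064976)) (C.cons (nat_lit 819) (C.ref (nat_lit 231) (nat_lit 167487008629536)) (C.cons (nat_lit 813) (C.ref (nat_lit 231) (nat_lit 167482982097936))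 (C.cons (nat_lit 811) (C.ref (nat_lit 231) (nat_lit 167482713662496)) (C.cons (nat_lit 807) (C.ref (nat_lit 231) (nat_lit 167478418695216)) (C.cons (nat_lit 797) (C.ref (nat_lit 231) (nat_lit 167414262621456)) (C.cons (nat_lit 795) (C.ref (nat_lit 231) (nat_lit 167413994186016)) (C.cons (nat_lit 791) (C.ref (nat_lit 231) (nat_lit 167409699218736)) (C.cons (nat_lit 783) (C.ref (nat_lit 231) (nat_lit 167340979742016)) (C.cons (nat_lit 753) (C.ref (nat_lit 231) (nat_lit 166461316805136)) (C.cons (nat_lit 745) (C.ref (nat_lit 231) (nat_lit 166461048373776)) (C.cons (nat_lit 741) (C.ref (nat_lit 231) (nat_lit 166460779938576)) (C.cons (nat_lit 739) (C.ref (nat_lit 231) (nat_lit 166460511503136)) (C.cons (nat_lit 729) (C.ref (nat_lit 231) (nat_lit 166456753410576)) (C.cons (nat_lit 725) (C.ref (nat_lit 231) (nat_lit 166456484975376)) (C.cons (nat_lit 723) (C.ref (nat_lit 231) (nat_lit 166456216539936)) (C.cons (nat_lit 717) (C.ref (nat_lit 231) (nat_lit 166452190008336)) (C.cons (nat_lit 715) (C.ref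 (nat_lit 231) (nat_lit 166451921572896)) (C.cons (nat_lit 711) (C.ref (nat_lit 231) (nat_lit 166447626605616)) (C.cons (nat_lit 697) (C.ref (nat_lit 231) (nat_lit 166388033937936)) (C.cons (nat_lit 693) (C.ref (nat_lit 231) (nat_lit 166387765502736)) (C.cons (nat_lit 691) (C.ref (nat_lit 231) (nat_lit 166387497067296)) (C.cons (nat_lit 685) (C.ref (nat_lit 231) (nat_lit 166383470535696)) (C.cons (nat_lit 683) (C.ref (nat_lit 231) (nat_lit 166383202100256)) (C.cons (nat_lit 679) (C.ref (nat_lit 231) (nat_lit 166378907132976)) (C.cons (nat_lit 669) (C.ref (nat_lit 231) (nat_lit 166314751059216)) (C.cons (nat_lit 667) (C.ref (nat_lit 231) (nat_lit 166314482623776)) (C.cons (nat_lit 663) (C.ref (nat_lit 231) (nat_lit 166310187656496)) (C.cons (nat_lit 655) (C.ref (nat_lit 231) (nat_lit 166241468179776)) (C.cons (nat_lit 633) (C.ref (nat_lit 231) (nat_lit 165288522314256)) (C.cons (nat_lit 629) (C.ref (nat_lit 231) (nat_lit 165288253879056))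
  (C.cons (nat_lit 627) (C.ref (nat_lit 231) (nat_lit 165287985443616)) (C.cons (nat_lit 621) (C.ref (nat_lit 231) (nat_lit 165283958912016)) (C.cons (nat_lit 619) (C.ref (nat_lit 231) (nat_lit 165283690476576)) (C.cons (nat_lit 615) (C.ref (nat_lit 231) (nat_lit 165279395509296)) (C.cons (nat_lit 605) (C.ref (nat_lit 231) (nat_lit 165215239435536)) (C.cons (nat_lit 603) (C.ref (nat_lit 231) (nat_lit 165214971000096)) (C.cons (nat_lit 599) (C.ref (nat_lit 231) (nat_lit 165210676032816)) (C.cons (nat_lit 591) (C.ref (nat_lit 231) (nat_lit 165141956556096)) (C.cons (nat_lit 573) (C.ref (nat_lit 231) (nat_lit 164115727808016)) (C.cons (nat_lit 571) (C.ref (nat_lit 231) (nat_lit 164115459372576)) (C.cons (nat_lit 567) (C.ref (nat_lit 231) (nat_lit 164111164405296)) (C.cons (nat_lit 559) (C.ref (nat_lit 231) (nat_lit 164042444928576)) (C.cons (nat_lit 543) (C.ref (nat_lit 231) (nat_lit 162942933300816)) (C.cons (nat_lit 497) (C.ref (nat_lit 231) (nat_lit 148869130826256)) (C.cons (nat_lit 489) (C.ref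 (nat_lit 231) (nat_lit 148868862394896)) (C.cons (nat_lit 485) (C.ref (nat_lit 231) (nat_lit 148868593959696)) (C.cons (nat_lit 483) (C.ref (nat_lit 231) (nat_lit 148868325524256)) (C.cons (nat_lit 473) (C.ref (nat_lit 231) (nat_lit 148864567431696)) (C.cons (nat_lit 469) (C.ref (nat_lit 231) (nat_lit 148864298996496)) (C.cons (nat_lit 467) (C.ref (nat_lit 231) (nat_lit 148864030561056)) (C.cons (nat_lit 461) (C.ref (nat_lit 231) (nat_lit 148860004029456)) (C.cons (nat_lit 459) (C.ref (nat_lit 231) (nat_lit 148859735594016)) (C.cons (nat_lit 455) (C.ref (nat_lit 231) (nat_lit 148855440626736)) (C.cons (nat_lit 441) (C.ref (nat_lit 231) (nat_lit 148795847959056)) (C.cons (nat_lit 437) (C.ref (nat_lit 231) (nat_lit 148795579523856)) (C.cons (nat_lit 435) (C.ref (nat_lit 231) (nat_lit 148795311088416)) (C.cons (nat_lit 429) (C.ref (nat_lit 231) (nat_lit 148791284556816)) (C.cons (nat_lit 427) (C.ref (nat_lit 231) (nat_lit 148791016121376)) (C.cons (nat_lit 423) (C.ref (nat_lit 231) (nat_lit 148786721154096))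 (C.cons (nat_lit 413) (C.ref (nat_lit 231) (nat_lit 148722565080336)) (C.cons (nat_lit 411) (C.ref (nat_lit 231) (nat_lit 148722296644896)) (C.cons (nat_lit 407) (C.ref (nat_lit 231) (nat_lit 148718001677616)) (C.cons (nat_lit 399) (C.ref (nat_lit 231) (nat_lit 148649282200896)) (C.cons (nat_lit 377) (C.ref (nat_lit 231) (nat_lit 147696336335376)) (C.cons (nat_lit 373) (C.ref (nat_lit 231) (nat_lit 147696067900176)) (C.cons (nat_lit 371) (C.ref (nat_lit 231) (nat_lit 147695799464736)) (C.cons (nat_lit 365) (C.ref (nat_lit 231) (nat_lit 147691772933136)) (C.cons (nat_lit 363) (C.ref (nat_lit 231) (nat_lit 147691504497696)) (C.cons (nat_lit 359) (C.ref (nat_lit 231) (nat_lit 147687209530416)) (C.cons (nat_lit 349) (C.ref (nat_lit 231) (nat_lit 147623053456656)) (C.cons (nat_lit 347) (C.ref (nat_lit 231) (nat_lit 147622785021216)) (C.cons (nat_lit 343) (C.ref (nat_lit 231) (nat_lit 147618490053936)) (C.cons (nat_lit 335) (C.ref (nat_lit 231) (nat_lit 147549770577216)) (C.cons (nat_lit 317) (C.ref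 (nat_lit 231) (nat_lit 146523541829136)) (C.cons (nat_lit 315) (C.ref (nat_lit 231) (nat_lit 146523273393696)) (C.cons (nat_lit 311) (C.ref (nat_lit 231) (nat_lit 146518978426416)) (C.cons (nat_lit 303) (C.ref (nat_lit 231) (nat_lit 146450258949696)) (C.cons (nat_lit 287) (C.ref (nat_lit 231) (nat_lit 145350747321936)) (C.cons (nat_lit 249) (C.ref (nat_lit 231) (nat_lit 130104150295056)) (C.cons (nat_lit 245) (C.ref (nat_lit 231) (nat_lit 130103881859856)) (C.cons (nat_lit 243) (C.ref (nat_lit 231) (nat_lit 130103613424416)) (C.cons (nat_lit 237) (C.ref (nat_lit 231) (nat_lit 130099586892816)) (C.cons (nat_lit 235) (C.ref (nat_lit 231) (nat_lit 130099318457376)) (C.cons (nat_lit 231) (C.ref (nat_lit 231) (nat_lit 130095023490096)) (C.cons (nat_lit 221) (C.ref (nat_lit 231) (nat_lit 130030867416336)) (C.cons (nat_lit 219) (C.ref (nat_lit 231) (nat_lit 130030598980896)) (C.cons (nat_lit 215) (C.ref (nat_lit 231) (nat_lit 130026304013616))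
  (C.cons (nat_lit 207) (C.ref (nat_lit 231) (nat_lit 129957584536896)) (C.cons (nat_lit 189) (C.ref (nat_lit 231) (nat_lit 128931355788816)) (C.cons (nat_lit 187) (C.ref (nat_lit 231) (nat_lit 128931087353376)) (C.cons (nat_lit 183) (C.ref (nat_lit 231) (nat_lit 128926792386096)) (C.cons (nat_lit 175) (C.ref (nat_lit 231) (nat_lit 128858072909376)) (C.cons (nat_lit 159) (C.ref (nat_lit 231) (nat_lit 127758561281616)) (C.cons (nat_lit 125) (C.ref (nat_lit 231) (nat_lit 111339169744656)) (C.cons (nat_lit 123) (C.ref (nat_lit 231) (nat_lit 111338901309216)) (C.cons (nat_lit 119) (C.ref (nat_lit 231) (nat_lit 111334606341936)) (C.cons (nat_lit 111) (C.ref (nat_lit 231) (nat_lit 111265886865216)) (C.cons (nat_lit 95) (C.ref (nat_lit 231) (nat_lit 110166375237456)) (C.cons (nat_lit 63) (C.ref (nat_lit 231) (nat_lit 92574189193056)) C.nil))))))))))))))))))))))))))))))))))))))))))))))))))))))))))))))))))))))))))))))))))))))))))))))))))))))))))))))))))))))))))))))))))))))))))))))))))))))))))))))))))))))))))))))))))))))))))))))))))))))))))))))))))))))))))))))))))))))))))))))))))))))))))))))))))))))))))))))))))))))))))))))))))))))))))))))))))))))))))))))))))))))))))))))))))))))))))))))))))))))))))))))))))))))))))))))))))))))))))))))))))))))))))))))))))))))))))))))))))))))))))))))))))))))))))))))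 (C.big (C.cons (nat_lit 3841) (C.ref (nat_lit 486) (nat_lit 205163983024656)) (C.cons (nat_lit 3713) (C.ref (nat_lit 486) (nat_lit 205159956492816)) (C.cons (nat_lit 3649) (C.ref (nat_lit 486) (nat_lit 205155678302736)) (C.cons (nat_lit 3617) (C.ref (nat_lit 486) (nat_lit 205151384384016)) (C.cons (nat_lit 3601) (C.ref (nat_lit 486) (nat_lit 205147089482256)) (C.cons (nat_lit 3593) (C.ref (nat_lit 486) (nat_lit 205142794519056)) (C.cons (nat_lit 3589) (C.ref (nat_lit 486) (nat_lit 205138499552016)) (C.cons (nat_lit 3587) (C.ref (nat_lit 486) (nat_lit 205134204584736)) (C.cons (nat_lit 3457) (C.ref (nat_lit 486) (nat_lit 205091505451536)) (C.cons (nat_lit 3393) (C.ref (nat_lit 486) (nat_lit 205087227261456)) (C.cons (nat_lit 3361) (C.ref (nat_lit 486) (nat_lit 205082933342736)) (C.cons (nat_lit 3345) (C.ref (nat_lit 486) (nat_lit 205078638440976)) (C.cons (nat_lit 3337) (C.ref (nat_lit 486) (nat_lit 205074343477776)) (C.cons (nat_lit 3333) (C.ref (nat_lit 486) (nat_lit 205070048510736)) (C.cons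 (nat_lit 3331) (C.ref (nat_lit 486) (nat_lit 205065753543456)) (C.cons (nat_lit 3265) (C.ref (nat_lit 486) (nat_lit 205018524561936)) (C.cons (nat_lit 3233) (C.ref (nat_lit 486) (nat_lit 205014230643216)) (C.cons (nat_lit 3217) (C.ref (nat_lit 486) (nat_lit 205009935741456)) (C.cons (nat_lit 3209) (C.ref (nat_lit 486) (nat_lit 205005640778256)) (C.cons (nat_lit 3205) (C.ref (nat_lit 486) (nat_lit 205001345811216)) (C.cons (nat_lit 3203) (C.ref (nat_lit 486) (nat_lit 204997050843936)) (C.cons (nat_lit 3169) (C.ref (nat_lit 486) (nat_lit 204945512215056)) (C.cons (nat_lit 3153) (C.ref (nat_lit 486) (nat_lit 204941217313296)) (C.cons (nat_lit 3145) (C.ref (nat_lit 486) (nat_lit 204936922350096)) (C.cons (nat_lit 3141) (C.ref (nat_lit 486) (nat_lit 204932627383056)) (C.cons (nat_lit 3139) (C.ref (nat_lit 486) (nat_lit 204928332415776)) (C.cons (nat_lit 3121) (C.ref (nat_lit 486) (nat_lit 204872497902096)) (C.cons (nat_lit 3113) (C.ref (nat_lit 486) (nat_lit 204868202938896)) (C.cons (nat_lit 3109)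 (C.ref (nat_lit 486) (nat_lit 204863907971856)) (C.cons (nat_lit 3107) (C.ref (nat_lit 486) (nat_lit 204859613004576)) (C.cons (nat_lit 3097) (C.ref (nat_lit 486) (nat_lit 204799483466256)) (C.cons (nat_lit 3093) (C.ref (nat_lit 486) (nat_lit 204795188499216)) (C.cons (nat_lit 3091) (C.ref (nat_lit 486) (nat_lit 204790893531936)) (C.cons (nat_lit 3085) (C.ref (nat_lit 486) (nat_lit 204726469022736)) (C.cons (nat_lit 3083) (C.ref (nat_lit 486) (nat_lit 204722174055456)) (C.cons (nat_lit 3079) (C.ref (nat_lit 486) (nat_lit 204653454578736)) (C.cons (nat_lit 2945) (C.ref (nat_lit 486) (nat_lit 203992262259216)) (C.cons (nat_lit 2881)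
  (C.ref (nat_lit 486) (nat_lit 203987984069136)) (C.cons (nat_lit 2849) (C.ref (nat_lit 486) (nat_lit 203983690150416)) (C.cons (nat_lit 2833) (C.ref (nat_lit 486) (nat_lit 203979395248656)) (C.cons (nat_lit 2825) (C.ref (nat_lit 486) (nat_lit 203975100285456)) (C.cons (nat_lit 2821) (C.ref (nat_lit 486) (nat_lit 203970805318416)) (C.cons (nat_lit 2819) (C.ref (nat_lit 486) (nat_lit 203966510351136)) (C.cons (nat_lit 2753) (C.ref (nat_lit 486) (nat_lit 203919281369616)) (C.cons (nat_lit 2721) (C.ref (nat_lit 486) (nat_lit 203914987450896)) (C.cons (nat_lit 2705) (C.ref (nat_lit 486) (nat_lit 203910692549136)) (C.cons (nat_lit 2697) (C.ref (nat_lit 486) (nat_lit 203906397585936)) (C.cons (nat_lit 2693) (C.ref (nat_lit 486) (nat_lit 203902102618896)) (C.cons (nat_lit 2691) (C.ref (nat_lit 486) (nat_lit 203897807651616)) (C.cons (nat_lit 2657) (C.ref (nat_lit 486) (nat_lit 203846269022736)) (C.cons (nat_lit 2641) (C.ref (nat_lit 486) (nat_lit 203841974120976)) (C.cons (nat_lit 2633) (C.ref (nat_lit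 486) (nat_lit 203837679157776)) (C.cons (nat_lit 2629) (C.ref (nat_lit 486) (nat_lit 203833384190736)) (C.cons (nat_lit 2627) (C.ref (nat_lit 486) (nat_lit 203829089223456)) (C.cons (nat_lit 2609) (C.ref (nat_lit 486) (nat_lit 203773254709776)) (C.cons (nat_lit 2601) (C.ref (nat_lit 486) (nat_lit 203768959746576)) (C.cons (nat_lit 2597) (C.ref (nat_lit 486) (nat_lit 203764664779536)) (C.cons (nat_lit 2595) (C.ref (nat_lit 486) (nat_lit 203760369812256)) (C.cons (nat_lit 2585) (C.ref (nat_lit 486) (nat_lit 203700240273936)) (C.cons (nat_lit 2581) (C.ref (nat_lit 486) (nat_lit 203695945306896)) (C.cons (nat_lit 2579) (C.ref (nat_lit 486) (nat_lit 203691650339616)) (C.cons (nat_lit 2573) (C.ref (nat_lit 486) (nat_lit 203627225830416)) (C.cons (nat_lit 2571) (C.ref (nat_lit 486) (nat_lit 203622930863136)) (C.cons (nat_lit 2567) (C.ref (nat_lit 486) (nat_lit 203554211386416)) (C.cons (nat_lit 2497) (C.ref (nat_lit 486) (nat_lit 202819786519056)) (C.cons (nat_lit 2465) (C.ref (nat_lit 486) (nat_lit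 202815492600336)) (C.cons (nat_lit 2449) (C.ref (nat_lit 486) (nat_lit 202811197698576)) (C.cons (nat_lit 2441) (C.ref (nat_lit 486) (nat_lit 202806902735376)) (C.cons (nat_lit 2437) (C.ref (nat_lit 486) (nat_lit 202802607768336)) (C.cons (nat_lit 2435) (C.ref (nat_lit 486) (nat_lit 202798312801056)) (C.cons (nat_lit 2401) (C.ref (nat_lit 486) (nat_lit 202746774172176)) (C.cons (nat_lit 2385) (C.ref (nat_lit 486) (nat_lit 202742479270416)) (C.cons (nat_lit 2377) (C.ref (nat_lit 486) (nat_lit 202738184307216)) (C.cons (nat_lit 2373) (C.ref (nat_lit 486) (nat_lit 202733889340176)) (C.cons (nat_lit 2371) (C.ref (nat_lit 486) (nat_lit 202729594372896)) (C.cons (nat_lit 2353) (C.ref (nat_lit 486) (nat_lit 202673759859216)) (C.cons (nat_lit 2345) (C.ref (nat_lit 486) (nat_lit 202669464896016)) (C.cons (nat_lit 2341) (C.ref (nat_lit 486) (nat_lit 202665169928976)) (C.cons (nat_lit 2339) (C.ref (nat_lit 486) (nat_lit 202660874961696)) (C.cons (nat_lit 2329) (C.ref (nat_lit 486) (nat_lit 202600745423376))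 (C.cons (nat_lit 2325) (C.ref (nat_lit 486) (nat_lit 202596450456336)) (C.cons (nat_lit 2323) (C.ref (nat_lit 486) (nat_lit 202592155489056)) (C.cons (nat_lit 2317) (C.ref (nat_lit 486) (nat_lit 202527730979856)) (C.cons (nat_lit 2315) (C.ref (nat_lit 486) (nat_lit 202523436012576)) (C.cons (nat_lit 2311) (C.ref (nat_lit 486) (nat_lit 202454716535856)) (C.cons (nat_lit 2273) (C.ref (nat_lit 486) (nat_lit 201647263592976)) (C.cons (nat_lit 2257) (C.ref (nat_lit 486) (nat_lit 201642968691216)) (C.cons (nat_lit 2249) (C.ref (nat_lit 486) (nat_lit 201638673728016)) (C.cons (nat_lit 2245) (C.ref (nat_lit 486) (nat_lit 201634378760976)) (C.cons (nat_lit 2243) (C.ref (nat_lit 486) (nat_lit 201630083793696)) (C.cons (nat_lit 2225) (C.ref (nat_lit 486) (nat_lit 201574249280016)) (C.cons (nat_lit 2217) (C.ref (nat_lit 486) (nat_lit 201569954316816)) (C.cons (nat_lit 2213) (C.ref (nat_lit 486) (nat_lit 201565659349776)) (C.cons (nat_lit 2211)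
  (C.ref (nat_lit 486) (nat_lit 201561364382496)) (C.cons (nat_lit 2201) (C.ref (nat_lit 486) (nat_lit 201501234844176)) (C.cons (nat_lit 2197) (C.ref (nat_lit 486) (nat_lit 201496939877136)) (C.cons (nat_lit 2195) (C.ref (nat_lit 486) (nat_lit 201492644909856)) (C.cons (nat_lit 2189) (C.ref (nat_lit 486) (nat_lit 201428220400656)) (C.cons (nat_lit 2187) (C.ref (nat_lit 486) (nat_lit 201423925433376)) (C.cons (nat_lit 2183) (C.ref (nat_lit 486) (nat_lit 201355205956656)) (C.cons (nat_lit 2161) (C.ref (nat_lit 486) (nat_lit 200474737717776)) (C.cons (nat_lit 2153) (C.ref (nat_lit 486) (nat_lit 200470442754576)) (C.cons (nat_lit 2149) (C.ref (nat_lit 486) (nat_lit 200466147787536)) (C.cons (nat_lit 2147) (C.ref (nat_lit 486) (nat_lit 200461852820256)) (C.cons (nat_lit 2137) (C.ref (nat_lit 486) (nat_lit 200401723281936)) (C.cons (nat_lit 2133) (C.ref (nat_lit 486) (nat_lit 200397428314896)) (C.cons (nat_lit 2131) (C.ref (nat_lit 486) (nat_lit 200393133347616)) (C.cons (nat_lit 2125) (C.ref (nat_lit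 486) (nat_lit 200328708838416)) (C.cons (nat_lit 2123) (C.ref (nat_lit 486) (nat_lit 200324413871136)) (C.cons (nat_lit 2119) (C.ref (nat_lit 486) (nat_lit 200255694394416)) (C.cons (nat_lit 2105) (C.ref (nat_lit 486) (nat_lit 199302211658256)) (C.cons (nat_lit 2101) (C.ref (nat_lit 486) (nat_lit 199297916691216)) (C.cons (nat_lit 2099) (C.ref (nat_lit 486) (nat_lit 199293621723936)) (C.cons (nat_lit 2093) (C.ref (nat_lit 486) (nat_lit 199229197214736)) (C.cons (nat_lit 2091) (C.ref (nat_lit 486) (nat_lit 199224902247456)) (C.cons (nat_lit 2087) (C.ref (nat_lit 486) (nat_lit 199156182770736)) (C.cons (nat_lit 2077) (C.ref (nat_lit 486) (nat_lit 198129685587216)) (C.cons (nat_lit 2075) (C.ref (nat_lit 486) (nat_lit 198125390619936)) (C.cons (nat_lit 2071) (C.ref (nat_lit 486) (nat_lit 198056671143216)) (C.cons (nat_lit 2063) (C.ref (nat_lit 486) (nat_lit 196957159515456)) (C.cons (nat_lit 1921) (C.ref (nat_lit 486) (nat_lit 186400344650256)) (C.cons (nat_lit 1857) (C.ref (nat_lit 486) (nat_lit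 186396066460176)) (C.cons (nat_lit 1825) (C.ref (nat_lit 486) (nat_lit 186391772541456)) (C.cons (nat_lit 1809) (C.ref (nat_lit 486) (nat_lit 186387477639696)) (C.cons (nat_lit 1801) (C.ref (nat_lit 486) (nat_lit 186383182676496)) (C.cons (nat_lit 1797) (C.ref (nat_lit 486) (nat_lit 186378887709456)) (C.cons (nat_lit 1795) (C.ref (nat_lit 486) (nat_lit 186374592742176)) (C.cons (nat_lit 1729) (C.ref (nat_lit 486) (nat_lit 186327363760656)) (C.cons (nat_lit 1697) (C.ref (nat_lit 486) (nat_lit 186323069841936)) (C.cons (nat_lit 1681) (C.ref (nat_lit 486) (nat_lit 186318774940176)) (C.cons (nat_lit 1673) (C.ref (nat_lit 486) (nat_lit 186314479976976)) (C.cons (nat_lit 1669) (C.ref (nat_lit 486) (nat_lit 186310185009936)) (C.cons (nat_lit 1667) (C.ref (nat_lit 486) (nat_lit 186305890042656)) (C.cons (nat_lit 1633) (C.ref (nat_lit 486) (nat_lit 186254351413776)) (C.cons (nat_lit 1617) (C.ref (nat_lit 486) (nat_lit 186250056512016)) (C.cons (nat_lit 1609) (C.ref (nat_lit 486) (nat_lit 186245761548816))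 (C.cons (nat_lit 1605) (C.ref (nat_lit 486) (nat_lit 186241466581776)) (C.cons (nat_lit 1603) (C.ref (nat_lit 486) (nat_lit 186237171614496)) (C.cons (nat_lit 1585) (C.ref (nat_lit 486) (nat_lit 186181337100816)) (C.cons (nat_lit 1577) (C.ref (nat_lit 486) (nat_lit 186177042137616)) (C.cons (nat_lit 1573) (C.ref (nat_lit 486) (nat_lit 186172747170576)) (C.cons (nat_lit 1571) (C.ref (nat_lit 486) (nat_lit 186168452203296)) (C.cons (nat_lit 1561) (C.ref (nat_lit 486) (nat_lit 186108322664976)) (C.cons (nat_lit 1557) (C.ref (nat_lit 486) (nat_lit 186104027697936)) (C.cons (nat_lit 1555) (C.ref (nat_lit 486) (nat_lit 186099732730656)) (C.cons (nat_lit 1549) (C.ref (nat_lit 486) (nat_lit 186035308221456)) (C.cons (nat_lit 1547) (C.ref (nat_lit 486) (nat_lit 186031013254176)) (C.cons (nat_lit 1543) (C.ref (nat_lit 486) (nat_lit 185962293777456)) (C.cons (nat_lit 1473) (C.ref (nat_lit 486) (nat_lit 185227868910096)) (C.cons (nat_lit 1441)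
  (C.ref (nat_lit 486) (nat_lit 185223574991376)) (C.cons (nat_lit 1425) (C.ref (nat_lit 486) (nat_lit 185219280089616)) (C.cons (nat_lit 1417) (C.ref (nat_lit 486) (nat_lit 185214985126416)) (C.cons (nat_lit 1413) (C.ref (nat_lit 486) (nat_lit 185210690159376)) (C.cons (nat_lit 1411) (C.ref (nat_lit 486) (nat_lit 185206395192096)) (C.cons (nat_lit 1377) (C.ref (nat_lit 486) (nat_lit 185154856563216)) (C.cons (nat_lit 1361) (C.ref (nat_lit 486) (nat_lit 185150561661456)) (C.cons (nat_lit 1353) (C.ref (nat_lit 486) (nat_lit 185146266698256)) (C.cons (nat_lit 1349) (C.ref (nat_lit 486) (nat_lit 185141971731216)) (C.cons (nat_lit 1347) (C.ref (nat_lit 486) (nat_lit 185137676763936)) (C.cons (nat_lit 1329) (C.ref (nat_lit 486) (nat_lit 185081842250256)) (C.cons (nat_lit 1321) (C.ref (nat_lit 486) (nat_lit 185077547287056)) (C.cons (nat_lit 1317) (C.ref (nat_lit 486) (nat_lit 185073252320016)) (C.cons (nat_lit 1315) (C.ref (nat_lit 486) (nat_lit 185068957352736)) (C.cons (nat_lit 1305) (C.ref (nat_lit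 486) (nat_lit 185008827814416)) (C.cons (nat_lit 1301) (C.ref (nat_lit 486) (nat_lit 185004532847376)) (C.cons (nat_lit 1299) (C.ref (nat_lit 486) (nat_lit 185000237880096)) (C.cons (nat_lit 1293) (C.ref (nat_lit 486) (nat_lit 184935813370896)) (C.cons (nat_lit 1291) (C.ref (nat_lit 486) (nat_lit 184931518403616)) (C.cons (nat_lit 1287) (C.ref (nat_lit 486) (nat_lit 184862798926896)) (C.cons (nat_lit 1249) (C.ref (nat_lit 486) (nat_lit 184055345984016)) (C.cons (nat_lit 1233) (C.ref (nat_lit 486) (nat_lit 184051051082256)) (C.cons (nat_lit 1225) (C.ref (nat_lit 486) (nat_lit 184046756119056)) (C.cons (nat_lit 1221) (C.ref (nat_lit 486) (nat_lit 184042461152016)) (C.cons (nat_lit 1219) (C.ref (nat_lit 486) (nat_lit 184038166184736)) (C.cons (nat_lit 1201) (C.ref (nat_lit 486) (nat_lit 183982331671056)) (C.cons (nat_lit 1193) (C.ref (nat_lit 486) (nat_lit 183978036707856)) (C.cons (nat_lit 1189) (C.ref (nat_lit 486) (nat_lit 183973741740816)) (C.cons (nat_lit 1187) (C.ref (nat_lit 486) (nat_lit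 183969446773536)) (C.cons (nat_lit 1177) (C.ref (nat_lit 486) (nat_lit 183909317235216)) (C.cons (nat_lit 1173) (C.ref (nat_lit 486) (nat_lit 183905022268176)) (C.cons (nat_lit 1171) (C.ref (nat_lit 486) (nat_lit 183900727300896)) (C.cons (nat_lit 1165) (C.ref (nat_lit 486) (nat_lit 183836302791696)) (C.cons (nat_lit 1163) (C.ref (nat_lit 486) (nat_lit 183832007824416)) (C.cons (nat_lit 1159) (C.ref (nat_lit 486) (nat_lit 183763288347696)) (C.cons (nat_lit 1137) (C.ref (nat_lit 486) (nat_lit 182882820108816)) (C.cons (nat_lit 1129) (C.ref (nat_lit 486) (nat_lit 182878525145616)) (C.cons (nat_lit 1125) (C.ref (nat_lit 486) (nat_lit 182874230178576)) (C.cons (nat_lit 1123) (C.ref (nat_lit 486) (nat_lit 182869935211296)) (C.cons (nat_lit 1113) (C.ref (nat_lit 486) (nat_lit 182809805672976)) (C.cons (nat_lit 1109) (C.ref (nat_lit 486) (nat_lit 182805510705936)) (C.cons (nat_lit 1107) (C.ref (nat_lit 486) (nat_lit 182801215738656)) (C.cons (nat_lit 1101) (C.ref (nat_lit 486) (nat_lit 182736791229456))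 (C.cons (nat_lit 1099) (C.ref (nat_lit 486) (nat_lit 182732496262176)) (C.cons (nat_lit 1095) (C.ref (nat_lit 486) (nat_lit 182663776785456)) (C.cons (nat_lit 1081) (C.ref (nat_lit 486) (nat_lit 181710294049296)) (C.cons (nat_lit 1077) (C.ref (nat_lit 486) (nat_lit 181705999082256)) (C.cons (nat_lit 1075) (C.ref (nat_lit 486) (nat_lit 181701704114976)) (C.cons (nat_lit 1069) (C.ref (nat_lit 486) (nat_lit 181637279605776)) (C.cons (nat_lit 1067) (C.ref (nat_lit 486) (nat_lit 181632984638496)) (C.cons (nat_lit 1063) (C.ref (nat_lit 486) (nat_lit 181564265161776)) (C.cons (nat_lit 1053) (C.ref (nat_lit 486) (nat_lit 180537767978256)) (C.cons (nat_lit 1051) (C.ref (nat_lit 486) (nat_lit 180533473010976)) (C.cons (nat_lit 1047) (C.ref (nat_lit 486) (nat_lit 180464753534256)) (C.cons (nat_lit 1039) (C.ref (nat_lit 486) (nat_lit 179365241906496)) (C.cons (nat_lit 961) (C.ref (nat_lit 486) (nat_lit 167635699642896)) (C.cons (nat_lit 929)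
  (C.ref (nat_lit 486) (nat_lit 167631405724176)) (C.cons (nat_lit 913) (C.ref (nat_lit 486) (nat_lit 167627110822416)) (C.cons (nat_lit 905) (C.ref (nat_lit 486) (nat_lit 167622815859216)) (C.cons (nat_lit 901) (C.ref (nat_lit 486) (nat_lit 167618520892176)) (C.cons (nat_lit 899) (C.ref (nat_lit 486) (nat_lit 167614225924896)) (C.cons (nat_lit 865) (C.ref (nat_lit 486) (nat_lit 167562687296016)) (C.cons (nat_lit 849) (C.ref (nat_lit 486) (nat_lit 167558392394256)) (C.cons (nat_lit 841) (C.ref (nat_lit 486) (nat_lit 167554097431056)) (C.cons (nat_lit 837) (C.ref (nat_lit 486) (nat_lit 167549802464016)) (C.cons (nat_lit 835) (C.ref (nat_lit 486) (nat_lit 167545507496736)) (C.cons (nat_lit 817) (C.ref (nat_lit 486) (nat_lit 167489672983056)) (C.cons (nat_lit 809) (C.ref (nat_lit 486) (nat_lit 167485378019856)) (C.cons (nat_lit 805) (C.ref (nat_lit 486) (nat_lit 167481083052816)) (C.cons (nat_lit 803) (C.ref (nat_lit 486) (nat_lit 167476788085536)) (C.cons (nat_lit 793) (C.ref (nat_lit 486) (nat_lit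 167416658547216)) (C.cons (nat_lit 789) (C.ref (nat_lit 486) (nat_lit 167412363580176)) (C.cons (nat_lit 787) (C.ref (nat_lit 486) (nat_lit 167408068612896)) (C.cons (nat_lit 781) (C.ref (nat_lit 486) (nat_lit 167343644103696)) (C.cons (nat_lit 779) (C.ref (nat_lit 486) (nat_lit 167339349136416)) (C.cons (nat_lit 775) (C.ref (nat_lit 486) (nat_lit 167270629659696)) (C.cons (nat_lit 737) (C.ref (nat_lit 486) (nat_lit 166463176716816)) (C.cons (nat_lit 721) (C.ref (nat_lit 486) (nat_lit 166458881815056)) (C.cons (nat_lit 713) (C.ref (nat_lit 486) (nat_lit 166454586851856)) (C.cons (nat_lit 709) (C.ref (nat_lit 486) (nat_lit 166450291884816)) (C.cons (nat_lit 707) (C.ref (nat_lit 486) (nat_lit 166445996917536)) (C.cons (nat_lit 689) (C.ref (nat_lit 486) (nat_lit 166390162403856)) (C.cons (nat_lit 681) (C.ref (nat_lit 486) (nat_lit 166385867440656)) (C.cons (nat_lit 677) (C.ref (nat_lit 486) (nat_lit 166381572473616)) (C.cons (nat_lit 675) (C.ref (nat_lit 486) (nat_lit 166377277506336)) (C.cons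 (nat_lit 665) (C.ref (nat_lit 486) (nat_lit 166317147968016)) (C.cons (nat_lit 661) (C.ref (nat_lit 486) (nat_lit 166312853000976)) (C.cons (nat_lit 659) (C.ref (nat_lit 486) (nat_lit 166308558033696)) (C.cons (nat_lit 653) (C.ref (nat_lit 486) (nat_lit 166244133524496)) (C.cons (nat_lit 651) (C.ref (nat_lit 486) (nat_lit 166239838557216)) (C.cons (nat_lit 647) (C.ref (nat_lit 486) (nat_lit 166171119080496)) (C.cons (nat_lit 625) (C.ref (nat_lit 486) (nat_lit 165290650841616)) (C.cons (nat_lit 617) (C.ref (nat_lit 486) (nat_lit 165286355878416)) (C.cons (nat_lit 613) (C.ref (nat_lit 486) (nat_lit 165282060911376)) (C.cons (nat_lit 611) (C.ref (nat_lit 486) (nat_lit 165277765944096)) (C.cons (nat_lit 601) (C.ref (nat_lit 486) (nat_lit 165217636405776)) (C.cons (nat_lit 597) (C.ref (nat_lit 486) (nat_lit 165213341438736)) (C.cons (nat_lit 595) (C.ref (nat_lit 486) (nat_lit 165209046471456)) (C.cons (nat_lit 589) (C.ref (nat_lit 486) (nat_lit 165144621962256)) (C.cons (nat_lit 587) (C.ref (nat_lit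 486) (nat_lit 165140326994976)) (C.cons (nat_lit 583) (C.ref (nat_lit 486) (nat_lit 165071607518256)) (C.cons (nat_lit 569) (C.ref (nat_lit 486) (nat_lit 164118124782096)) (C.cons (nat_lit 565) (C.ref (nat_lit 486) (nat_lit 164113829815056)) (C.cons (nat_lit 563) (C.ref (nat_lit 486) (nat_lit 164109534847776)) (C.cons (nat_lit 557) (C.ref (nat_lit 486) (nat_lit 164045110338576)) (C.cons (nat_lit 555) (C.ref (nat_lit 486) (nat_lit 164040815371296)) (C.cons (nat_lit 551) (C.ref (nat_lit 486) (nat_lit 163972095894576)) (C.cons (nat_lit 541) (C.ref (nat_lit 486) (nat_lit 162945598711056)) (C.cons (nat_lit 539) (C.ref (nat_lit 486) (nat_lit 162941303743776)) (C.cons (nat_lit 535) (C.ref (nat_lit 486) (nat_lit 162872584267056)) (C.cons (nat_lit 527) (C.ref (nat_lit 486) (nat_lit 161773072639296)) (C.cons (nat_lit 481) (C.ref (nat_lit 486) (nat_lit 148870991720976)) (C.cons (nat_lit 465) (C.ref (nat_lit 486) (nat_lit 148866696819216)) (C.cons (nat_lit 457)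
  (C.ref (nat_lit 486) (nat_lit 148862401856016)) (C.cons (nat_lit 453) (C.ref (nat_lit 486) (nat_lit 148858106888976)) (C.cons (nat_lit 451) (C.ref (nat_lit 486) (nat_lit 148853811921696)) (C.cons (nat_lit 433) (C.ref (nat_lit 486) (nat_lit 148797977408016)) (C.cons (nat_lit 425) (C.ref (nat_lit 486) (nat_lit 148793682444816)) (C.cons (nat_lit 421) (C.ref (nat_lit 486) (nat_lit 148789387477776)) (C.cons (nat_lit 419) (C.ref (nat_lit 486) (nat_lit 148785092510496)) (C.cons (nat_lit 409) (C.ref (nat_lit 486) (nat_lit 148724962972176)) (C.cons (nat_lit 405) (C.ref (nat_lit 486) (nat_lit 148720668005136)) (C.cons (nat_lit 403) (C.ref (nat_lit 486) (nat_lit 148716373037856)) (C.cons (nat_lit 397) (C.ref (nat_lit 486) (nat_lit 148651948528656)) (C.cons (nat_lit 395) (C.ref (nat_lit 486) (nat_lit 148647653561376)) (C.cons (nat_lit 391) (C.ref (nat_lit 486) (nat_lit 148578934084656)) (C.cons (nat_lit 369) (C.ref (nat_lit 486) (nat_lit 147698465845776)) (C.cons (nat_lit 361) (C.ref (nat_lit 486) (nat_lit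 147694170882576)) (C.cons (nat_lit 357) (C.ref (nat_lit 486) (nat_lit 147689875915536)) (C.cons (nat_lit 355) (C.ref (nat_lit 486) (nat_lit 147685580948256)) (C.cons (nat_lit 345) (C.ref (nat_lit 486) (nat_lit 147625451409936)) (C.cons (nat_lit 341) (C.ref (nat_lit 486) (nat_lit 147621156442896)) (C.cons (nat_lit 339) (C.ref (nat_lit 486) (nat_lit 147616861475616)) (C.cons (nat_lit 333) (C.ref (nat_lit 486) (nat_lit 147552436966416)) (C.cons (nat_lit 331) (C.ref (nat_lit 486) (nat_lit 147548141999136)) (C.cons (nat_lit 327) (C.ref (nat_lit 486) (nat_lit 147479422522416)) (C.cons (nat_lit 313) (C.ref (nat_lit 486) (nat_lit 146525939786256)) (C.cons (nat_lit 309) (C.ref (nat_lit 486) (nat_lit 146521644819216)) (C.cons (nat_lit 307) (C.ref (nat_lit 486) (nat_lit 146517349851936)) (C.cons (nat_lit 301) (C.ref (nat_lit 486) (nat_lit 146452925342736)) (C.cons (nat_lit 299) (C.ref (nat_lit 486) (nat_lit 146448630375456)) (C.cons (nat_lit 295) (C.ref (nat_lit 486) (nat_lit 146379910898736)) (C.cons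 (nat_lit 285) (C.ref (nat_lit 486) (nat_lit 145353413715216)) (C.cons (nat_lit 283) (C.ref (nat_lit 486) (nat_lit 145349118747936)) (C.cons (nat_lit 279) (C.ref (nat_lit 486) (nat_lit 145280399271216)) (C.cons (nat_lit 271) (C.ref (nat_lit 486) (nat_lit 144180887643456)) (C.cons (nat_lit 241) (C.ref (nat_lit 486) (nat_lit 130106279866896)) (C.cons (nat_lit 233) (C.ref (nat_lit 486) (nat_lit 130101984903696)) (C.cons (nat_lit 229) (C.ref (nat_lit 486) (nat_lit 130097689936656)) (C.cons (nat_lit 227) (C.ref (nat_lit 486) (nat_lit 130093394969376)) (C.cons (nat_lit 217) (C.ref (nat_lit 486) (nat_lit 130033265431056)) (C.cons (nat_lit 213) (C.ref (nat_lit 486) (nat_lit 130028970464016)) (C.cons (nat_lit 211) (C.ref (nat_lit 486) (nat_lit 130024675496736)) (C.cons (nat_lit 205) (C.ref (nat_lit 486) (nat_lit 129960250987536)) (C.cons (nat_lit 203) (C.ref (nat_lit 486) (nat_lit 129955956020256)) (C.cons (nat_lit 199) (C.ref (nat_lit 486) (nat_lit 129887236543536)) (C.cons (nat_lit 185) (C.ref (nat_lit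 486) (nat_lit 128933753807376)) (C.cons (nat_lit 181) (C.ref (nat_lit 486) (nat_lit 128929458840336)) (C.cons (nat_lit 179) (C.ref (nat_lit 486) (nat_lit 128925163873056)) (C.cons (nat_lit 173) (C.ref (nat_lit 486) (nat_lit 128860739363856)) (C.cons (nat_lit 171) (C.ref (nat_lit 486) (nat_lit 128856444396576)) (C.cons (nat_lit 167) (C.ref (nat_lit 486) (nat_lit 128787724919856)) (C.cons (nat_lit 157) (C.ref (nat_lit 486) (nat_lit 127761227736336)) (C.cons (nat_lit 155) (C.ref (nat_lit 486) (nat_lit 127756932769056)) (C.cons (nat_lit 151) (C.ref (nat_lit 486) (nat_lit 127688213292336)) (C.cons (nat_lit 143) (C.ref (nat_lit 486) (nat_lit 126588701664576)) (C.cons (nat_lit 121) (C.ref (nat_lit 486) (nat_lit 111341567767056)) (C.cons (nat_lit 117) (C.ref (nat_lit 486) (nat_lit 111337272800016)) (C.cons (nat_lit 115) (C.ref (nat_lit 486) (nat_lit 111332977832736)) (C.cons (nat_lit 109) (C.ref (nat_lit 486) (nat_lit 111268553323536)) (C.cons (nat_lit 107)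
  (C.ref (nat_lit 486) (nat_lit 111264258356256)) (C.cons (nat_lit 103) (C.ref (nat_lit 486) (nat_lit 111195538879536)) (C.cons (nat_lit 93) (C.ref (nat_lit 486) (nat_lit 110169041696016)) (C.cons (nat_lit 91) (C.ref (nat_lit 486) (nat_lit 110164746728736)) (C.cons (nat_lit 87) (C.ref (nat_lit 486) (nat_lit 110096027252016)) (C.cons (nat_lit 79) (C.ref (nat_lit 486) (nat_lit 108996515624256)) (C.cons (nat_lit 61) (C.ref (nat_lit 486) (nat_lit 92576855651856)) (C.cons (nat_lit 59) (C.ref (nat_lit 486) (nat_lit 92572560684576)) (C.cons (nat_lit 55) (C.ref (nat_lit 486) (nat_lit 92503841207856)) (C.cons (nat_lit 47) (C.ref (nat_lit 486) (nat_lit 91404329580096)) (C.cons (nat_lit 31) (C.ref (nat_lit 486) (nat_lit 73812143535696)) C.nil))))))))))))))))))))))))))))))))))))))))))))))))))))))))))))))))))))))))))))))))))))))))))))))))))))))))))))))))))))))))))))))))))))))))))))))))))))))))))))))))))))))))))))))))))))))))))))))))))))))))))))))))))))))))))))))))))))))))))))))))))))))))))))))))))))))))))))))))))))))))))))))))))))))))))))))))))))))))))))))))))))))))))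 C.nil)) List.nil)

theorem ok12_487 : okL par12 (nat_lit 488) c12_487 (nat_lit 487) = true := by decide +kernel


end Pool.Agent.MP_1f1ca1_co

end
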