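import Pool.Agent.Mg.F1f1ca1.G140a50

set_option autoImplicit false
set_option maxRecDepth 1000000
set_option maxHeartbeats 0

namespace Pool.Agent.MP_1f1ca1_co

noncomputable def c13_239 : List C :=
  (List.cons (C.big (C.cons (nat_lit 7937) (C.ref (nat_lit 210) (nat_lit 3582863703552528)) (C.cons (nat_lit 7809) (C.ref (nat_lit 210) (nat_lit 3582859677020688)) (C.cons (nat_lit 7745) (C.ref (nat_lit 210) (nat_lit 3582855398830608)) (C.cons (nat_lit 7713) (C.ref (nat_lit 210) (nat_lit 3582851104911888)) (C.cons (nat_lit 7697) (C.ref (nat_lit 210) (nat_lit 3582846810010128)) (C.cons (nat_lit 7689) (C.ref (nat_lit 210) (nat_lit 3582842515046928)) (C.cons (nat_lit 7685) (C.ref (nat_lit 210) (nat_lit 3582838220079888)) (C.cons (nat_lit 7683) (C.ref (nat_lit 210) (nat_lit 3582833925112608)) (C.cons (nat_lit 7553) (C.ref (nat_lit 210) (nat_lit 3582791225979408)) (C.cons (nat_lit 7489) (C.ref (nat_lit 210) (nat_lit 3582786947789328)) (C.cons (nat_lit 7457) (C.ref (nat_lit 210) (nat_lit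 3582782653870608)) (C.cons (nat_lit 7441) (C.ref (nat_lit 210) (nat_lit 3582778358968848)) (C.cons (nat_lit 7433) (C.ref (nat_lit 210) (nat_lit 3582774064005648)) (C.cons (nat_lit 7429) (C.ref (nat_lit 210) (nat_lit 3582769769038608)) (C.cons (nat_lit 7427) (C.ref (nat_lit 210) (nat_lit 3582765474071328)) (C.cons (nat_lit 7361) (C.ref (nat_lit 210) (nat_lit 3582718245089808)) (C.cons (nat_lit 7329) (C.ref (nat_lit 210) (nat_lit 3582713951171088)) (C.cons (nat_lit 7313) (C.ref (nat_lit 210) (nat_lit 3582709656269328)) (C.cons (nat_lit 7305) (C.ref (nat_lit 210) (nat_lit 3582705361306128)) (C.cons (nat_lit 7301) (C.ref (nat_lit 210) (nat_lit 3582701066339088)) (C.cons (nat_lit 7299) (C.ref (nat_lit 210) (nat_lit 3582696771371808)) (C.cons (nat_lit 7265) (C.ref (nat_lit 210) (nat_lit 3582645232742928)) (C.cons (nat_lit 7249) (C.ref (nat_lit 210) (nat_lit 3582640937841168)) (C.cons (nat_lit 7241) (C.ref (nat_lit 210) (nat_lit 3582636642877968)) (C.cons (nat_lit 7237) (C.ref (nat_lit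 210) (nat_lit 3582632347910928)) (C.cons (nat_lit 7235) (C.ref (nat_lit 210) (nat_lit 3582628052943648)) (C.cons (nat_lit 7217) (C.ref (nat_lit 210) (nat_lit 3582572218429968)) (C.cons (nat_lit 7209) (C.ref (nat_lit 210) (nat_lit 3582567923466768)) (C.cons (nat_lit 7205) (C.ref (nat_lit 210) (nat_lit 3582563628499728)) (C.cons (nat_lit 7203) (C.ref (nat_lit 210) (nat_lit 3582559333532448)) (C.cons (nat_lit 7193) (C.ref (nat_lit 210) (nat_lit 3582499203994128)) (C.cons (nat_lit 7189) (C.ref (nat_lit 210) (nat_lit 3582494909027088)) (C.cons (nat_lit 7187) (C.ref (nat_lit 210) (nat_lit 3582490614059808)) (C.cons (nat_lit 7181) (C.ref (nat_lit 210) (nat_lit 3582426189550608)) (C.cons (nat_lit 7179) (C.ref (nat_lit 210) (nat_lit 3582421894583328)) (C.cons (nat_lit 7175) (C.ref (nat_lit 210) (nat_lit 3582353175106608)) (C.cons (nat_lit 7041) (C.ref (nat_lit 210) (nat_lit 3581691982787088)) (C.cons (nat_lit 6977) (C.ref (nat_lit 210) (nat_lit 3581687704597008)) (C.cons (nat_lit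 6945) (C.ref (nat_lit 210) (nat_lit 3581683410678288)) (C.cons (nat_lit 6929) (C.ref (nat_lit 210) (nat_lit 3581679115776528)) (C.cons (nat_lit 6921) (C.ref (nat_lit 210) (nat_lit 3581674820813328)) (C.cons (nat_lit 6917) (C.ref (nat_lit 210) (nat_lit 3581670525846288)) (C.cons (nat_lit 6915) (C.ref (nat_lit 210) (nat_lit 3581666230879008)) (C.cons (nat_lit 6849) (C.ref (nat_lit 210) (nat_lit 3581619001897488)) (C.cons (nat_lit 6817) (C.ref (nat_lit 210) (nat_lit 3581614707978768)) (C.cons (nat_lit 6801) (C.ref (nat_lit 210) (nat_lit 3581610413077008)) (C.cons (nat_lit 6793) (C.ref (nat_lit 210) (nat_lit 3581606118113808)) (C.cons (nat_lit 6789) (C.ref (nat_lit 210) (nat_lit 3581601823146768)) (C.cons (nat_lit 6787) (C.ref (nat_lit 210) (nat_lit 3581597528179488)) (C.cons (nat_lit 6753) (C.ref (nat_lit 210) (nat_lit 3581545989550608)) (C.cons (nat_lit 6737) (C.ref (nat_lit 210) (nat_lit 3581541694648848)) (C.cons (nat_lit 6729) (C.ref (nat_lit 210) (nat_lit 3581537399685648))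 (C.cons (nat_lit 6725) (C.ref (nat_lit 210) (nat_lit 3581533104718608)) (C.cons (nat_lit 6723) (C.ref (nat_lit 210) (nat_lit 3581528809751328)) (C.cons (nat_lit 6705) (C.ref (nat_lit 210) (nat_lit 3581472975237648))
  (C.cons (nat_lit 6697) (C.ref (nat_lit 210) (nat_lit 3581468680274448)) (C.cons (nat_lit 6693) (C.ref (nat_lit 210) (nat_lit 3581464385307408)) (C.cons (nat_lit 6691) (C.ref (nat_lit 210) (nat_lit 3581460090340128)) (C.cons (nat_lit 6681) (C.ref (nat_lit 210) (nat_lit 3581399960801808)) (C.cons (nat_lit 6677) (C.ref (nat_lit 210) (nat_lit 3581395665834768)) (C.cons (nat_lit 6675) (C.ref (nat_lit 210) (nat_lit 3581391370867488)) (C.cons (nat_lit 6669) (C.ref (nat_lit 210) (nat_lit 3581326946358288)) (C.cons (nat_lit 6667) (C.ref (nat_lit 210) (nat_lit 3581322651391008)) (C.cons (nat_lit 6663) (C.ref (nat_lit 210) (nat_lit 3581253931914288)) (C.cons (nat_lit 6593) (C.ref (nat_lit 210) (nat_lit 3580519507046928)) (C.cons (nat_lit 6561) (C.ref (nat_lit 210) (nat_lit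 3580515213128208)) (C.cons (nat_lit 6545) (C.ref (nat_lit 210) (nat_lit 3580510918226448)) (C.cons (nat_lit 6537) (C.ref (nat_lit 210) (nat_lit 3580506623263248)) (C.cons (nat_lit 6533) (C.ref (nat_lit 210) (nat_lit 3580502328296208)) (C.cons (nat_lit 6531) (C.ref (nat_lit 210) (nat_lit 3580498033328928)) (C.cons (nat_lit 6497) (C.ref (nat_lit 210) (nat_lit 3580446494700048)) (C.cons (nat_lit 6481) (C.ref (nat_lit 210) (nat_lit 3580442199798288)) (C.cons (nat_lit 6473) (C.ref (nat_lit 210) (nat_lit 3580437904835088)) (C.cons (nat_lit 6469) (C.ref (nat_lit 210) (nat_lit 3580433609868048)) (C.cons (nat_lit 6467) (C.ref (nat_lit 210) (nat_lit 3580429314900768)) (C.cons (nat_lit 6449) (C.ref (nat_lit 210) (nat_lit 3580373480387088)) (C.cons (nat_lit 6441) (C.ref (nat_lit 210) (nat_lit 3580369185423888)) (C.cons (nat_lit 6437) (C.ref (nat_lit 210) (nat_lit 3580364890456848)) (C.cons (nat_lit 6435) (C.ref (nat_lit 210) (nat_lit 3580360595489568)) (C.cons (nat_lit 6425) (C.ref (nat_lit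 210) (nat_lit 3580300465951248)) (C.cons (nat_lit 6421) (C.ref (nat_lit 210) (nat_lit 3580296170984208)) (C.cons (nat_lit 6419) (C.ref (nat_lit 210) (nat_lit 3580291876016928)) (C.cons (nat_lit 6413) (C.ref (nat_lit 210) (nat_lit 3580227451507728)) (C.cons (nat_lit 6411) (C.ref (nat_lit 210) (nat_lit 3580223156540448)) (C.cons (nat_lit 6407) (C.ref (nat_lit 210) (nat_lit 3580154437063728)) (C.cons (nat_lit 6369) (C.ref (nat_lit 210) (nat_lit 3579346984120848)) (C.cons (nat_lit 6353) (C.ref (nat_lit 210) (nat_lit 3579342689219088)) (C.cons (nat_lit 6345) (C.ref (nat_lit 210) (nat_lit 3579338394255888)) (C.cons (nat_lit 6341) (C.ref (nat_lit 210) (nat_lit 3579334099288848)) (C.cons (nat_lit 6339) (C.ref (nat_lit 210) (nat_lit 3579329804321568)) (C.cons (nat_lit 6321) (C.ref (nat_lit 210) (nat_lit 3579273969807888)) (C.cons (nat_lit 6313) (C.ref (nat_lit 210) (nat_lit 3579269674844688)) (C.cons (nat_lit 6309) (C.ref (nat_lit 210) (nat_lit 3579265379877648)) (C.cons (nat_lit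 6307) (C.ref (nat_lit 210) (nat_lit 3579261084910368)) (C.cons (nat_lit 6297) (C.ref (nat_lit 210) (nat_lit 3579200955372048)) (C.cons (nat_lit 6293) (C.ref (nat_lit 210) (nat_lit 3579196660405008)) (C.cons (nat_lit 6291) (C.ref (nat_lit 210) (nat_lit 3579192365437728)) (C.cons (nat_lit 6285) (C.ref (nat_lit 210) (nat_lit 3579127940928528)) (C.cons (nat_lit 6283) (C.ref (nat_lit 210) (nat_lit 3579123645961248)) (C.cons (nat_lit 6279) (C.ref (nat_lit 210) (nat_lit 3579054926484528)) (C.cons (nat_lit 6257) (C.ref (nat_lit 210) (nat_lit 3578174458245648)) (C.cons (nat_lit 6249) (C.ref (nat_lit 210) (nat_lit 3578170163282448)) (C.cons (nat_lit 6245) (C.ref (nat_lit 210) (nat_lit 3578165868315408)) (C.cons (nat_lit 6243) (C.ref (nat_lit 210) (nat_lit 3578161573348128)) (C.cons (nat_lit 6233) (C.ref (nat_lit 210) (nat_lit 3578101443809808)) (C.cons (nat_lit 6229) (C.ref (nat_lit 210) (nat_lit 3578097148842768)) (C.cons (nat_lit 6227) (C.ref (nat_lit 210) (nat_lit 3578092853875488))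 (C.cons (nat_lit 6221) (C.ref (nat_lit 210) (nat_lit 3578028429366288)) (C.cons (nat_lit 6219) (C.ref (nat_lit 210) (nat_lit 3578024134399008)) (C.cons (nat_lit 6215) (C.ref (nat_lit 210) (nat_lit 3577955414922288)) (C.cons (nat_lit 6201)
  (C.ref (nat_lit 210) (nat_lit 3577001932186128)) (C.cons (nat_lit 6197) (C.ref (nat_lit 210) (nat_lit 3576997637219088)) (C.cons (nat_lit 6195) (C.ref (nat_lit 210) (nat_lit 3576993342251808)) (C.cons (nat_lit 6189) (C.ref (nat_lit 210) (nat_lit 3576928917742608)) (C.cons (nat_lit 6187) (C.ref (nat_lit 210) (nat_lit 3576924622775328)) (C.cons (nat_lit 6183) (C.ref (nat_lit 210) (nat_lit 3576855903298608)) (C.cons (nat_lit 6173) (C.ref (nat_lit 210) (nat_lit 3575829406115088)) (C.cons (nat_lit 6171) (C.ref (nat_lit 210) (nat_lit 3575825111147808)) (C.cons (nat_lit 6167) (C.ref (nat_lit 210) (nat_lit 3575756391671088)) (C.cons (nat_lit 6159) (C.ref (nat_lit 210) (nat_lit 3574656880043328)) (C.cons (nat_lit 6017) (C.ref (nat_lit 210) (nat_lit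 3564100065178128)) (C.cons (nat_lit 5953) (C.ref (nat_lit 210) (nat_lit 3564095786988048)) (C.cons (nat_lit 5921) (C.ref (nat_lit 210) (nat_lit 3564091493069328)) (C.cons (nat_lit 5905) (C.ref (nat_lit 210) (nat_lit 3564087198167568)) (C.cons (nat_lit 5897) (C.ref (nat_lit 210) (nat_lit 3564082903204368)) (C.cons (nat_lit 5893) (C.ref (nat_lit 210) (nat_lit 3564078608237328)) (C.cons (nat_lit 5891) (C.ref (nat_lit 210) (nat_lit 3564074313270048)) (C.cons (nat_lit 5825) (C.ref (nat_lit 210) (nat_lit 3564027084288528)) (C.cons (nat_lit 5793) (C.ref (nat_lit 210) (nat_lit 3564022790369808)) (C.cons (nat_lit 5777) (C.ref (nat_lit 210) (nat_lit 3564018495468048)) (C.cons (nat_lit 5769) (C.ref (nat_lit 210) (nat_lit 3564014200504848)) (C.cons (nat_lit 5765) (C.ref (nat_lit 210) (nat_lit 3564009905537808)) (C.cons (nat_lit 5763) (C.ref (nat_lit 210) (nat_lit 3564005610570528)) (C.cons (nat_lit 5729) (C.ref (nat_lit 210) (nat_lit 3563954071941648)) (C.cons (nat_lit 5713) (C.ref (nat_lit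 210) (nat_lit 3563949777039888)) (C.cons (nat_lit 5705) (C.ref (nat_lit 210) (nat_lit 3563945482076688)) (C.cons (nat_lit 5701) (C.ref (nat_lit 210) (nat_lit 3563941187109648)) (C.cons (nat_lit 5699) (C.ref (nat_lit 210) (nat_lit 3563936892142368)) (C.cons (nat_lit 5681) (C.ref (nat_lit 210) (nat_lit 3563881057628688)) (C.cons (nat_lit 5673) (C.ref (nat_lit 210) (nat_lit 3563876762665488)) (C.cons (nat_lit 5669) (C.ref (nat_lit 210) (nat_lit 3563872467698448)) (C.cons (nat_lit 5667) (C.ref (nat_lit 210) (nat_lit 3563868172731168)) (C.cons (nat_lit 5657) (C.ref (nat_lit 210) (nat_lit 3563808043192848)) (C.cons (nat_lit 5653) (C.ref (nat_lit 210) (nat_lit 3563803748225808)) (C.cons (nat_lit 5651) (C.ref (nat_lit 210) (nat_lit 3563799453258528)) (C.cons (nat_lit 5645) (C.ref (nat_lit 210) (nat_lit 3563735028749328)) (C.cons (nat_lit 5643) (C.ref (nat_lit 210) (nat_lit 3563730733782048)) (C.cons (nat_lit 5639) (C.ref (nat_lit 210) (nat_lit 3563662014305328)) (C.cons (nat_lit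 5569) (C.ref (nat_lit 210) (nat_lit 3562927589437968)) (C.cons (nat_lit 5537) (C.ref (nat_lit 210) (nat_lit 3562923295519248)) (C.cons (nat_lit 5521) (C.ref (nat_lit 210) (nat_lit 3562919000617488)) (C.cons (nat_lit 5513) (C.ref (nat_lit 210) (nat_lit 3562914705654288)) (C.cons (nat_lit 5509) (C.ref (nat_lit 210) (nat_lit 3562910410687248)) (C.cons (nat_lit 5507) (C.ref (nat_lit 210) (nat_lit 3562906115719968)) (C.cons (nat_lit 5473) (C.ref (nat_lit 210) (nat_lit 3562854577091088)) (C.cons (nat_lit 5457) (C.ref (nat_lit 210) (nat_lit 3562850282189328)) (C.cons (nat_lit 5449) (C.ref (nat_lit 210) (nat_lit 3562845987226128)) (C.cons (nat_lit 5445) (C.ref (nat_lit 210) (nat_lit 3562841692259088)) (C.cons (nat_lit 5443) (C.ref (nat_lit 210) (nat_lit 3562837397291808)) (C.cons (nat_lit 5425) (C.ref (nat_lit 210) (nat_lit 3562781562778128)) (C.cons (nat_lit 5417) (C.ref (nat_lit 210) (nat_lit 3562777267814928)) (C.cons (nat_lit 5413) (C.ref (nat_lit 210) (nat_lit 3562772972847888))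 (C.cons (nat_lit 5411) (C.ref (nat_lit 210) (nat_lit 3562768677880608)) (C.cons (nat_lit 5401) (C.ref (nat_lit 210) (nat_lit 3562708548342288)) (C.cons (nat_lit 5397) (C.ref (nat_lit 210) (nat_lit 3562704253375248)) (C.cons (nat_lit 5395)
  (C.ref (nat_lit 210) (nat_lit 3562699958407968)) (C.cons (nat_lit 5389) (C.ref (nat_lit 210) (nat_lit 3562635533898768)) (C.cons (nat_lit 5387) (C.ref (nat_lit 210) (nat_lit 3562631238931488)) (C.cons (nat_lit 5383) (C.ref (nat_lit 210) (nat_lit 3562562519454768)) (C.cons (nat_lit 5345) (C.ref (nat_lit 210) (nat_lit 3561755066511888)) (C.cons (nat_lit 5329) (C.ref (nat_lit 210) (nat_lit 3561750771610128)) (C.cons (nat_lit 5321) (C.ref (nat_lit 210) (nat_lit 3561746476646928)) (C.cons (nat_lit 5317) (C.ref (nat_lit 210) (nat_lit 3561742181679888)) (C.cons (nat_lit 5315) (C.ref (nat_lit 210) (nat_lit 3561737886712608)) (C.cons (nat_lit 5297) (C.ref (nat_lit 210) (nat_lit 3561682052198928)) (C.cons (nat_lit 5289) (C.ref (nat_lit 210) (nat_lit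 3561677757235728)) (C.cons (nat_lit 5285) (C.ref (nat_lit 210) (nat_lit 3561673462268688)) (C.cons (nat_lit 5283) (C.ref (nat_lit 210) (nat_lit 3561669167301408)) (C.cons (nat_lit 5273) (C.ref (nat_lit 210) (nat_lit 3561609037763088)) (C.cons (nat_lit 5269) (C.ref (nat_lit 210) (nat_lit 3561604742796048)) (C.cons (nat_lit 5267) (C.ref (nat_lit 210) (nat_lit 3561600447828768)) (C.cons (nat_lit 5261) (C.ref (nat_lit 210) (nat_lit 3561536023319568)) (C.cons (nat_lit 5259) (C.ref (nat_lit 210) (nat_lit 3561531728352288)) (C.cons (nat_lit 5255) (C.ref (nat_lit 210) (nat_lit 3561463008875568)) (C.cons (nat_lit 5233) (C.ref (nat_lit 210) (nat_lit 3560582540636688)) (C.cons (nat_lit 5225) (C.ref (nat_lit 210) (nat_lit 3560578245673488)) (C.cons (nat_lit 5221) (C.ref (nat_lit 210) (nat_lit 3560573950706448)) (C.cons (nat_lit 5219) (C.ref (nat_lit 210) (nat_lit 3560569655739168)) (C.cons (nat_lit 5209) (C.ref (nat_lit 210) (nat_lit 3560509526200848)) (C.cons (nat_lit 5205) (C.ref (nat_lit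 210) (nat_lit 3560505231233808)) (C.cons (nat_lit 5203) (C.ref (nat_lit 210) (nat_lit 3560500936266528)) (C.cons (nat_lit 5197) (C.ref (nat_lit 210) (nat_lit 3560436511757328)) (C.cons (nat_lit 5195) (C.ref (nat_lit 210) (nat_lit 3560432216790048)) (C.cons (nat_lit 5191) (C.ref (nat_lit 210) (nat_lit 3560363497313328)) (C.cons (nat_lit 5177) (C.ref (nat_lit 210) (nat_lit 3559410014577168)) (C.cons (nat_lit 5173) (C.ref (nat_lit 210) (nat_lit 3559405719610128)) (C.cons (nat_lit 5171) (C.ref (nat_lit 210) (nat_lit 3559401424642848)) (C.cons (nat_lit 5165) (C.ref (nat_lit 210) (nat_lit 3559337000133648)) (C.cons (nat_lit 5163) (C.ref (nat_lit 210) (nat_lit 3559332705166368)) (C.cons (nat_lit 5159) (C.ref (nat_lit 210) (nat_lit 3559263985689648)) (C.cons (nat_lit 5149) (C.ref (nat_lit 210) (nat_lit 3558237488506128)) (C.cons (nat_lit 5147) (C.ref (nat_lit 210) (nat_lit 3558233193538848)) (C.cons (nat_lit 5143) (C.ref (nat_lit 210) (nat_lit 3558164474062128)) (C.cons (nat_lit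 5135) (C.ref (nat_lit 210) (nat_lit 3557064962434368)) (C.cons (nat_lit 5057) (C.ref (nat_lit 210) (nat_lit 3545335420170768)) (C.cons (nat_lit 5025) (C.ref (nat_lit 210) (nat_lit 3545331126252048)) (C.cons (nat_lit 5009) (C.ref (nat_lit 210) (nat_lit 3545326831350288)) (C.cons (nat_lit 5001) (C.ref (nat_lit 210) (nat_lit 3545322536387088)) (C.cons (nat_lit 4997) (C.ref (nat_lit 210) (nat_lit 3545318241420048)) (C.cons (nat_lit 4995) (C.ref (nat_lit 210) (nat_lit 3545313946452768)) (C.cons (nat_lit 4961) (C.ref (nat_lit 210) (nat_lit 3545262407823888)) (C.cons (nat_lit 4945) (C.ref (nat_lit 210) (nat_lit 3545258112922128)) (C.cons (nat_lit 4937) (C.ref (nat_lit 210) (nat_lit 3545253817958928)) (C.cons (nat_lit 4933) (C.ref (nat_lit 210) (nat_lit 3545249522991888)) (C.cons (nat_lit 4931) (C.ref (nat_lit 210) (nat_lit 3545245228024608)) (C.cons (nat_lit 4913) (C.ref (nat_lit 210) (nat_lit 3545189393510928)) (C.cons (nat_lit 4905) (C.ref (nat_lit 210) (nat_lit 3545185098547728))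 (C.cons (nat_lit 4901) (C.ref (nat_lit 210) (nat_lit 3545180803580688)) (C.cons (nat_lit 4899) (C.ref (nat_lit 210) (nat_lit 3545176508613408)) (C.cons (nat_lit 4889) (C.ref (nat_lit 210) (nat_lit 3545116379075088)) (C.cons (nat_lit 4885)
  (C.ref (nat_lit 210) (nat_lit 3545112084108048)) (C.cons (nat_lit 4883) (C.ref (nat_lit 210) (nat_lit 3545107789140768)) (C.cons (nat_lit 4877) (C.ref (nat_lit 210) (nat_lit 3545043364631568)) (C.cons (nat_lit 4875) (C.ref (nat_lit 210) (nat_lit 3545039069664288)) (C.cons (nat_lit 4871) (C.ref (nat_lit 210) (nat_lit 3544970350187568)) (C.cons (nat_lit 4833) (C.ref (nat_lit 210) (nat_lit 3544162897244688)) (C.cons (nat_lit 4817) (C.ref (nat_lit 210) (nat_lit 3544158602342928)) (C.cons (nat_lit 4809) (C.ref (nat_lit 210) (nat_lit 3544154307379728)) (C.cons (nat_lit 4805) (C.ref (nat_lit 210) (nat_lit 3544150012412688)) (C.cons (nat_lit 4803) (C.ref (nat_lit 210) (nat_lit 3544145717445408)) (C.cons (nat_lit 4785) (C.ref (nat_lit 210) (nat_lit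 3544089882931728)) (C.cons (nat_lit 4777) (C.ref (nat_lit 210) (nat_lit 3544085587968528)) (C.cons (nat_lit 4773) (C.ref (nat_lit 210) (nat_lit 3544081293001488)) (C.cons (nat_lit 4771) (C.ref (nat_lit 210) (nat_lit 3544076998034208)) (C.cons (nat_lit 4761) (C.ref (nat_lit 210) (nat_lit 3544016868495888)) (C.cons (nat_lit 4757) (C.ref (nat_lit 210) (nat_lit 3544012573528848)) (C.cons (nat_lit 4755) (C.ref (nat_lit 210) (nat_lit 3544008278561568)) (C.cons (nat_lit 4749) (C.ref (nat_lit 210) (nat_lit 3543943854052368)) (C.cons (nat_lit 4747) (C.ref (nat_lit 210) (nat_lit 3543939559085088)) (C.cons (nat_lit 4743) (C.ref (nat_lit 210) (nat_lit 3543870839608368)) (C.cons (nat_lit 4721) (C.ref (nat_lit 210) (nat_lit 3542990371369488)) (C.cons (nat_lit 4713) (C.ref (nat_lit 210) (nat_lit 3542986076406288)) (C.cons (nat_lit 4709) (C.ref (nat_lit 210) (nat_lit 3542981781439248)) (C.cons (nat_lit 4707) (C.ref (nat_lit 210) (nat_lit 3542977486471968)) (C.cons (nat_lit 4697) (C.ref (nat_lit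 210) (nat_lit 3542917356933648)) (C.cons (nat_lit 4693) (C.ref (nat_lit 210) (nat_lit 3542913061966608)) (C.cons (nat_lit 4691) (C.ref (nat_lit 210) (nat_lit 3542908766999328)) (C.cons (nat_lit 4685) (C.ref (nat_lit 210) (nat_lit 3542844342490128)) (C.cons (nat_lit 4683) (C.ref (nat_lit 210) (nat_lit 3542840047522848)) (C.cons (nat_lit 4679) (C.ref (nat_lit 210) (nat_lit 3542771328046128)) (C.cons (nat_lit 4665) (C.ref (nat_lit 210) (nat_lit 3541817845309968)) (C.cons (nat_lit 4661) (C.ref (nat_lit 210) (nat_lit 3541813550342928)) (C.cons (nat_lit 4659) (C.ref (nat_lit 210) (nat_lit 3541809255375648)) (C.cons (nat_lit 4653) (C.ref (nat_lit 210) (nat_lit 3541744830866448)) (C.cons (nat_lit 4651) (C.ref (nat_lit 210) (nat_lit 3541740535899168)) (C.cons (nat_lit 4647) (C.ref (nat_lit 210) (nat_lit 3541671816422448)) (C.cons (nat_lit 4637) (C.ref (nat_lit 210) (nat_lit 3540645319238928)) (C.cons (nat_lit 4635) (C.ref (nat_lit 210) (nat_lit 3540641024271648)) (C.cons (nat_lit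 4631) (C.ref (nat_lit 210) (nat_lit 3540572304794928)) (C.cons (nat_lit 4623) (C.ref (nat_lit 210) (nat_lit 3539472793167168)) (C.cons (nat_lit 4577) (C.ref (nat_lit 210) (nat_lit 3526570712248848)) (C.cons (nat_lit 4561) (C.ref (nat_lit 210) (nat_lit 3526566417347088)) (C.cons (nat_lit 4553) (C.ref (nat_lit 210) (nat_lit 3526562122383888)) (C.cons (nat_lit 4549) (C.ref (nat_lit 210) (nat_lit 3526557827416848)) (C.cons (nat_lit 4547) (C.ref (nat_lit 210) (nat_lit 3526553532449568)) (C.cons (nat_lit 4529) (C.ref (nat_lit 210) (nat_lit 3526497697935888)) (C.cons (nat_lit 4521) (C.ref (nat_lit 210) (nat_lit 3526493402972688)) (C.cons (nat_lit 4517) (C.ref (nat_lit 210) (nat_lit 3526489108005648)) (C.cons (nat_lit 4515) (C.ref (nat_lit 210) (nat_lit 3526484813038368)) (C.cons (nat_lit 4505) (C.ref (nat_lit 210) (nat_lit 3526424683500048)) (C.cons (nat_lit 4501) (C.ref (nat_lit 210) (nat_lit 3526420388533008)) (C.cons (nat_lit 4499) (C.ref (nat_lit 210) (nat_lit 3526416093565728))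 (C.cons (nat_lit 4493) (C.ref (nat_lit 210) (nat_lit 3526351669056528)) (C.cons (nat_lit 4491) (C.ref (nat_lit 210) (nat_lit 3526347374089248)) (C.cons (nat_lit 4487) (C.ref (nat_lit 210) (nat_lit 3526278654612528)) (C.cons (nat_lit 4465)
  (C.ref (nat_lit 210) (nat_lit 3525398186373648)) (C.cons (nat_lit 4457) (C.ref (nat_lit 210) (nat_lit 3525393891410448)) (C.cons (nat_lit 4453) (C.ref (nat_lit 210) (nat_lit 3525389596443408)) (C.cons (nat_lit 4451) (C.ref (nat_lit 210) (nat_lit 3525385301476128)) (C.cons (nat_lit 4441) (C.ref (nat_lit 210) (nat_lit 3525325171937808)) (C.cons (nat_lit 4437) (C.ref (nat_lit 210) (nat_lit 3525320876970768)) (C.cons (nat_lit 4435) (C.ref (nat_lit 210) (nat_lit 3525316582003488)) (C.cons (nat_lit 4429) (C.ref (nat_lit 210) (nat_lit 3525252157494288)) (C.cons (nat_lit 4427) (C.ref (nat_lit 210) (nat_lit 3525247862527008)) (C.cons (nat_lit 4423) (C.ref (nat_lit 210) (nat_lit 3525179143050288)) (C.cons (nat_lit 4409) (C.ref (nat_lit 210) (nat_lit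 3524225660314128)) (C.cons (nat_lit 4405) (C.ref (nat_lit 210) (nat_lit 3524221365347088)) (C.cons (nat_lit 4403) (C.ref (nat_lit 210) (nat_lit 3524217070379808)) (C.cons (nat_lit 4397) (C.ref (nat_lit 210) (nat_lit 3524152645870608)) (C.cons (nat_lit 4395) (C.ref (nat_lit 210) (nat_lit 3524148350903328)) (C.cons (nat_lit 4391) (C.ref (nat_lit 210) (nat_lit 3524079631426608)) (C.cons (nat_lit 4381) (C.ref (nat_lit 210) (nat_lit 3523053134243088)) (C.cons (nat_lit 4379) (C.ref (nat_lit 210) (nat_lit 3523048839275808)) (C.cons (nat_lit 4375) (C.ref (nat_lit 210) (nat_lit 3522980119799088)) (C.cons (nat_lit 4367) (C.ref (nat_lit 210) (nat_lit 3521880608171328)) (C.cons (nat_lit 4337) (C.ref (nat_lit 210) (nat_lit 3507806000394768)) (C.cons (nat_lit 4329) (C.ref (nat_lit 210) (nat_lit 3507801705431568)) (C.cons (nat_lit 4325) (C.ref (nat_lit 210) (nat_lit 3507797410464528)) (C.cons (nat_lit 4323) (C.ref (nat_lit 210) (nat_lit 3507793115497248)) (C.cons (nat_lit 4313) (C.ref (nat_lit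 210) (nat_lit 3507732985958928)) (C.cons (nat_lit 4309) (C.ref (nat_lit 210) (nat_lit 3507728690991888)) (C.cons (nat_lit 4307) (C.ref (nat_lit 210) (nat_lit 3507724396024608)) (C.cons (nat_lit 4301) (C.ref (nat_lit 210) (nat_lit 3507659971515408)) (C.cons (nat_lit 4299) (C.ref (nat_lit 210) (nat_lit 3507655676548128)) (C.cons (nat_lit 4295) (C.ref (nat_lit 210) (nat_lit 3507586957071408)) (C.cons (nat_lit 4281) (C.ref (nat_lit 210) (nat_lit 3506633474335248)) (C.cons (nat_lit 4277) (C.ref (nat_lit 210) (nat_lit 3506629179368208)) (C.cons (nat_lit 4275) (C.ref (nat_lit 210) (nat_lit 3506624884400928)) (C.cons (nat_lit 4269) (C.ref (nat_lit 210) (nat_lit 3506560459891728)) (C.cons (nat_lit 4267) (C.ref (nat_lit 210) (nat_lit 3506556164924448)) (C.cons (nat_lit 4263) (C.ref (nat_lit 210) (nat_lit 3506487445447728)) (C.cons (nat_lit 4253) (C.ref (nat_lit 210) (nat_lit 3505460948264208)) (C.cons (nat_lit 4251) (C.ref (nat_lit 210) (nat_lit 3505456653296928)) (C.cons (nat_lit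 4247) (C.ref (nat_lit 210) (nat_lit 3505387933820208)) (C.cons (nat_lit 4239) (C.ref (nat_lit 210) (nat_lit 3504288422192448)) (C.cons (nat_lit 4217) (C.ref (nat_lit 210) (nat_lit 3489041288294928)) (C.cons (nat_lit 4213) (C.ref (nat_lit 210) (nat_lit 3489036993327888)) (C.cons (nat_lit 4211) (C.ref (nat_lit 210) (nat_lit 3489032698360608)) (C.cons (nat_lit 4205) (C.ref (nat_lit 210) (nat_lit 3488968273851408)) (C.cons (nat_lit 4203) (C.ref (nat_lit 210) (nat_lit 3488963978884128)) (C.cons (nat_lit 4199) (C.ref (nat_lit 210) (nat_lit 3488895259407408)) (C.cons (nat_lit 4189) (C.ref (nat_lit 210) (nat_lit 3487868762223888)) (C.cons (nat_lit 4187) (C.ref (nat_lit 210) (nat_lit 3487864467256608)) (C.cons (nat_lit 4183) (C.ref (nat_lit 210) (nat_lit 3487795747779888)) (C.cons (nat_lit 4175) (C.ref (nat_lit 210) (nat_lit 3486696236152128)) (C.cons (nat_lit 4157) (C.ref (nat_lit 210) (nat_lit 3470276576179728)) (C.cons (nat_lit 4155) (C.ref (nat_lit 210) (nat_lit 3470272281212448))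 (C.cons (nat_lit 4151) (C.ref (nat_lit 210) (nat_lit 3470203561735728)) (C.cons (nat_lit 4143) (C.ref (nat_lit 210) (nat_lit 3469104050107968)) (C.cons (nat_lit 4127) (C.ref (nat_lit 210) (nat_lit 3451511864063568)) (C.cons (nat_lit 3969)
  (C.ref (nat_lit 210) (nat_lit 3282625356902928)) (C.cons (nat_lit 3905) (C.ref (nat_lit 210) (nat_lit 3282621078712848)) (C.cons (nat_lit 3873) (C.ref (nat_lit 210) (nat_lit 3282616784794128)) (C.cons (nat_lit 3857) (C.ref (nat_lit 210) (nat_lit 3282612489892368)) (C.cons (nat_lit 3849) (C.ref (nat_lit 210) (nat_lit 3282608194929168)) (C.cons (nat_lit 3845) (C.ref (nat_lit 210) (nat_lit 3282603899962128)) (C.cons (nat_lit 3843) (C.ref (nat_lit 210) (nat_lit 3282599604994848)) (C.cons (nat_lit 3777) (C.ref (nat_lit 210) (nat_lit 3282552376013328)) (C.cons (nat_lit 3745) (C.ref (nat_lit 210) (nat_lit 3282548082094608)) (C.cons (nat_lit 3729) (C.ref (nat_lit 210) (nat_lit 3282543787192848)) (C.cons (nat_lit 3721) (C.ref (nat_lit 210) (nat_lit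 3282539492229648)) (C.cons (nat_lit 3717) (C.ref (nat_lit 210) (nat_lit 3282535197262608)) (C.cons (nat_lit 3715) (C.ref (nat_lit 210) (nat_lit 3282530902295328)) (C.cons (nat_lit 3681) (C.ref (nat_lit 210) (nat_lit 3282479363666448)) (C.cons (nat_lit 3665) (C.ref (nat_lit 210) (nat_lit 3282475068764688)) (C.cons (nat_lit 3657) (C.ref (nat_lit 210) (nat_lit 3282470773801488)) (C.cons (nat_lit 3653) (C.ref (nat_lit 210) (nat_lit 3282466478834448)) (C.cons (nat_lit 3651) (C.ref (nat_lit 210) (nat_lit 3282462183867168)) (C.cons (nat_lit 3633) (C.ref (nat_lit 210) (nat_lit 3282406349353488)) (C.cons (nat_lit 3625) (C.ref (nat_lit 210) (nat_lit 3282402054390288)) (C.cons (nat_lit 3621) (C.ref (nat_lit 210) (nat_lit 3282397759423248)) (C.cons (nat_lit 3619) (C.ref (nat_lit 210) (nat_lit 3282393464455968)) (C.cons (nat_lit 3609) (C.ref (nat_lit 210) (nat_lit 3282333334917648)) (C.cons (nat_lit 3605) (C.ref (nat_lit 210) (nat_lit 3282329039950608)) (C.cons (nat_lit 3603) (C.ref (nat_lit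 210) (nat_lit 3282324744983328)) (C.cons (nat_lit 3597) (C.ref (nat_lit 210) (nat_lit 3282260320474128)) (C.cons (nat_lit 3595) (C.ref (nat_lit 210) (nat_lit 3282256025506848)) (C.cons (nat_lit 3591) (C.ref (nat_lit 210) (nat_lit 3282187306030128)) (C.cons (nat_lit 3521) (C.ref (nat_lit 210) (nat_lit 3281452881162768)) (C.cons (nat_lit 3489) (C.ref (nat_lit 210) (nat_lit 3281448587244048)) (C.cons (nat_lit 3473) (C.ref (nat_lit 210) (nat_lit 3281444292342288)) (C.cons (nat_lit 3465) (C.ref (nat_lit 210) (nat_lit 3281439997379088)) (C.cons (nat_lit 3461) (C.ref (nat_lit 210) (nat_lit 3281435702412048)) (C.cons (nat_lit 3459) (C.ref (nat_lit 210) (nat_lit 3281431407444768)) (C.cons (nat_lit 3425) (C.ref (nat_lit 210) (nat_lit 3281379868815888)) (C.cons (nat_lit 3409) (C.ref (nat_lit 210) (nat_lit 3281375573914128)) (C.cons (nat_lit 3401) (C.ref (nat_lit 210) (nat_lit 3281371278950928)) (C.cons (nat_lit 3397) (C.ref (nat_lit 210) (nat_lit 3281366983983888)) (C.cons (nat_lit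 3395) (C.ref (nat_lit 210) (nat_lit 3281362689016608)) (C.cons (nat_lit 3377) (C.ref (nat_lit 210) (nat_lit 3281306854502928)) (C.cons (nat_lit 3369) (C.ref (nat_lit 210) (nat_lit 3281302559539728)) (C.cons (nat_lit 3365) (C.ref (nat_lit 210) (nat_lit 3281298264572688)) (C.cons (nat_lit 3363) (C.ref (nat_lit 210) (nat_lit 3281293969605408)) (C.cons (nat_lit 3353) (C.ref (nat_lit 210) (nat_lit 3281233840067088)) (C.cons (nat_lit 3349) (C.ref (nat_lit 210) (nat_lit 3281229545100048)) (C.cons (nat_lit 3347) (C.ref (nat_lit 210) (nat_lit 3281225250132768)) (C.cons (nat_lit 3341) (C.ref (nat_lit 210) (nat_lit 3281160825623568)) (C.cons (nat_lit 3339) (C.ref (nat_lit 210) (nat_lit 3281156530656288)) (C.cons (nat_lit 3335) (C.ref (nat_lit 210) (nat_lit 3281087811179568)) (C.cons (nat_lit 3297) (C.ref (nat_lit 210) (nat_lit 3280280358236688)) (C.cons (nat_lit 3281) (C.ref (nat_lit 210) (nat_lit 3280276063334928)) (C.cons (nat_lit 3273) (C.ref (nat_lit 210) (nat_lit 3280271768371728))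 (C.cons (nat_lit 3269) (C.ref (nat_lit 210) (nat_lit 3280267473404688)) (C.cons (nat_lit 3267) (C.ref (nat_lit 210) (nat_lit 3280263178437408)) (C.cons (nat_lit 3249) (C.ref (nat_lit 210) (nat_lit 3280207343923728)) (C.cons (nat_lit 3241)
  (C.ref (nat_lit 210) (nat_lit 3280203048960528)) (C.cons (nat_lit 3237) (C.ref (nat_lit 210) (nat_lit 3280198753993488)) (C.cons (nat_lit 3235) (C.ref (nat_lit 210) (nat_lit 3280194459026208)) (C.cons (nat_lit 3225) (C.ref (nat_lit 210) (nat_lit 3280134329487888)) (C.cons (nat_lit 3221) (C.ref (nat_lit 210) (nat_lit 3280130034520848)) (C.cons (nat_lit 3219) (C.ref (nat_lit 210) (nat_lit 3280125739553568)) (C.cons (nat_lit 3213) (C.ref (nat_lit 210) (nat_lit 3280061315044368)) (C.cons (nat_lit 3211) (C.ref (nat_lit 210) (nat_lit 3280057020077088)) (C.cons (nat_lit 3207) (C.ref (nat_lit 210) (nat_lit 3279988300600368)) (C.cons (nat_lit 3185) (C.ref (nat_lit 210) (nat_lit 3279107832361488)) (C.cons (nat_lit 3177) (C.ref (nat_lit 210) (nat_lit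 3279103537398288)) (C.cons (nat_lit 3173) (C.ref (nat_lit 210) (nat_lit 3279099242431248)) (C.cons (nat_lit 3171) (C.ref (nat_lit 210) (nat_lit 3279094947463968)) (C.cons (nat_lit 3161) (C.ref (nat_lit 210) (nat_lit 3279034817925648)) (C.cons (nat_lit 3157) (C.ref (nat_lit 210) (nat_lit 3279030522958608)) (C.cons (nat_lit 3155) (C.ref (nat_lit 210) (nat_lit 3279026227991328)) (C.cons (nat_lit 3149) (C.ref (nat_lit 210) (nat_lit 3278961803482128)) (C.cons (nat_lit 3147) (C.ref (nat_lit 210) (nat_lit 3278957508514848)) (C.cons (nat_lit 3143) (C.ref (nat_lit 210) (nat_lit 3278888789038128)) (C.cons (nat_lit 3129) (C.ref (nat_lit 210) (nat_lit 3277935306301968)) (C.cons (nat_lit 3125) (C.ref (nat_lit 210) (nat_lit 3277931011334928)) (C.cons (nat_lit 3123) (C.ref (nat_lit 210) (nat_lit 3277926716367648)) (C.cons (nat_lit 3117) (C.ref (nat_lit 210) (nat_lit 3277862291858448)) (C.cons (nat_lit 3115) (C.ref (nat_lit 210) (nat_lit 3277857996891168)) (C.cons (nat_lit 3111) (C.ref (nat_lit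 210) (nat_lit 3277789277414448)) (C.cons (nat_lit 3101) (C.ref (nat_lit 210) (nat_lit 3276762780230928)) (C.cons (nat_lit 3099) (C.ref (nat_lit 210) (nat_lit 3276758485263648)) (C.cons (nat_lit 3095) (C.ref (nat_lit 210) (nat_lit 3276689765786928)) (C.cons (nat_lit 3087) (C.ref (nat_lit 210) (nat_lit 3275590254159168)) (C.cons (nat_lit 3009) (C.ref (nat_lit 210) (nat_lit 3263860711895568)) (C.cons (nat_lit 2977) (C.ref (nat_lit 210) (nat_lit 3263856417976848)) (C.cons (nat_lit 2961) (C.ref (nat_lit 210) (nat_lit 3263852123075088)) (C.cons (nat_lit 2953) (C.ref (nat_lit 210) (nat_lit 3263847828111888)) (C.cons (nat_lit 2949) (C.ref (nat_lit 210) (nat_lit 3263843533144848)) (C.cons (nat_lit 2947) (C.ref (nat_lit 210) (nat_lit 3263839238177568)) (C.cons (nat_lit 2913) (C.ref (nat_lit 210) (nat_lit 3263787699548688)) (C.cons (nat_lit 2897) (C.ref (nat_lit 210) (nat_lit 3263783404646928)) (C.cons (nat_lit 2889) (C.ref (nat_lit 210) (nat_lit 3263779109683728)) (C.cons (nat_lit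 2885) (C.ref (nat_lit 210) (nat_lit 3263774814716688)) (C.cons (nat_lit 2883) (C.ref (nat_lit 210) (nat_lit 3263770519749408)) (C.cons (nat_lit 2865) (C.ref (nat_lit 210) (nat_lit 3263714685235728)) (C.cons (nat_lit 2857) (C.ref (nat_lit 210) (nat_lit 3263710390272528)) (C.cons (nat_lit 2853) (C.ref (nat_lit 210) (nat_lit 3263706095305488)) (C.cons (nat_lit 2851) (C.ref (nat_lit 210) (nat_lit 3263701800338208)) (C.cons (nat_lit 2841) (C.ref (nat_lit 210) (nat_lit 3263641670799888)) (C.cons (nat_lit 2837) (C.ref (nat_lit 210) (nat_lit 3263637375832848)) (C.cons (nat_lit 2835) (C.ref (nat_lit 210) (nat_lit 3263633080865568)) (C.cons (nat_lit 2829) (C.ref (nat_lit 210) (nat_lit 3263568656356368)) (C.cons (nat_lit 2827) (C.ref (nat_lit 210) (nat_lit 3263564361389088)) (C.cons (nat_lit 2823) (C.ref (nat_lit 210) (nat_lit 3263495641912368)) (C.cons (nat_lit 2785) (C.ref (nat_lit 210) (nat_lit 3262688188969488)) (C.cons (nat_lit 2769) (C.ref (nat_lit 210) (nat_lit 3262683894067728))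 (C.cons (nat_lit 2761) (C.ref (nat_lit 210) (nat_lit 3262679599104528)) (C.cons (nat_lit 2757) (C.ref (nat_lit 210) (nat_lit 3262675304137488)) (C.cons (nat_lit 2755) (C.ref (nat_lit 210) (nat_lit 3262671009170208)) (C.cons (nat_lit 2737)
  (C.ref (nat_lit 210) (nat_lit 3262615174656528)) (C.cons (nat_lit 2729) (C.ref (nat_lit 210) (nat_lit 3262610879693328)) (C.cons (nat_lit 2725) (C.ref (nat_lit 210) (nat_lit 3262606584726288)) (C.cons (nat_lit 2723) (C.ref (nat_lit 210) (nat_lit 3262602289759008)) (C.cons (nat_lit 2713) (C.ref (nat_lit 210) (nat_lit 3262542160220688)) (C.cons (nat_lit 2709) (C.ref (nat_lit 210) (nat_lit 3262537865253648)) (C.cons (nat_lit 2707) (C.ref (nat_lit 210) (nat_lit 3262533570286368)) (C.cons (nat_lit 2701) (C.ref (nat_lit 210) (nat_lit 3262469145777168)) (C.cons (nat_lit 2699) (C.ref (nat_lit 210) (nat_lit 3262464850809888)) (C.cons (nat_lit 2695) (C.ref (nat_lit 210) (nat_lit 3262396131333168)) (C.cons (nat_lit 2673) (C.ref (nat_lit 210) (nat_lit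 3261515663094288)) (C.cons (nat_lit 2665) (C.ref (nat_lit 210) (nat_lit 3261511368131088)) (C.cons (nat_lit 2661) (C.ref (nat_lit 210) (nat_lit 3261507073164048)) (C.cons (nat_lit 2659) (C.ref (nat_lit 210) (nat_lit 3261502778196768)) (C.cons (nat_lit 2649) (C.ref (nat_lit 210) (nat_lit 3261442648658448)) (C.cons (nat_lit 2645) (C.ref (nat_lit 210) (nat_lit 3261438353691408)) (C.cons (nat_lit 2643) (C.ref (nat_lit 210) (nat_lit 3261434058724128)) (C.cons (nat_lit 2637) (C.ref (nat_lit 210) (nat_lit 3261369634214928)) (C.cons (nat_lit 2635) (C.ref (nat_lit 210) (nat_lit 3261365339247648)) (C.cons (nat_lit 2631) (C.ref (nat_lit 210) (nat_lit 3261296619770928)) (C.cons (nat_lit 2617) (C.ref (nat_lit 210) (nat_lit 3260343137034768)) (C.cons (nat_lit 2613) (C.ref (nat_lit 210) (nat_lit 3260338842067728)) (C.cons (nat_lit 2611) (C.ref (nat_lit 210) (nat_lit 3260334547100448)) (C.cons (nat_lit 2605) (C.ref (nat_lit 210) (nat_lit 3260270122591248)) (C.cons (nat_lit 2603) (C.ref (nat_lit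 210) (nat_lit 3260265827623968)) (C.cons (nat_lit 2599) (C.ref (nat_lit 210) (nat_lit 3260197108147248)) (C.cons (nat_lit 2589) (C.ref (nat_lit 210) (nat_lit 3259170610963728)) (C.cons (nat_lit 2587) (C.ref (nat_lit 210) (nat_lit 3259166315996448)) (C.cons (nat_lit 2583) (C.ref (nat_lit 210) (nat_lit 3259097596519728)) (C.cons (nat_lit 2575) (C.ref (nat_lit 210) (nat_lit 3257998084891968)) (C.cons (nat_lit 2529) (C.ref (nat_lit 210) (nat_lit 3245096003973648)) (C.cons (nat_lit 2513) (C.ref (nat_lit 210) (nat_lit 3245091709071888)) (C.cons (nat_lit 2505) (C.ref (nat_lit 210) (nat_lit 3245087414108688)) (C.cons (nat_lit 2501) (C.ref (nat_lit 210) (nat_lit 3245083119141648)) (C.cons (nat_lit 2499) (C.ref (nat_lit 210) (nat_lit 3245078824174368)) (C.cons (nat_lit 2481) (C.ref (nat_lit 210) (nat_lit 3245022989660688)) (C.cons (nat_lit 2473) (C.ref (nat_lit 210) (nat_lit 3245018694697488)) (C.cons (nat_lit 2469) (C.ref (nat_lit 210) (nat_lit 3245014399730448)) (C.cons (nat_lit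 2467) (C.ref (nat_lit 210) (nat_lit 3245010104763168)) (C.cons (nat_lit 2457) (C.ref (nat_lit 210) (nat_lit 3244949975224848)) (C.cons (nat_lit 2453) (C.ref (nat_lit 210) (nat_lit 3244945680257808)) (C.cons (nat_lit 2451) (C.ref (nat_lit 210) (nat_lit 3244941385290528)) (C.cons (nat_lit 2445) (C.ref (nat_lit 210) (nat_lit 3244876960781328)) (C.cons (nat_lit 2443) (C.ref (nat_lit 210) (nat_lit 3244872665814048)) (C.cons (nat_lit 2439) (C.ref (nat_lit 210) (nat_lit 3244803946337328)) (C.cons (nat_lit 2417) (C.ref (nat_lit 210) (nat_lit 3243923478098448)) (C.cons (nat_lit 2409) (C.ref (nat_lit 210) (nat_lit 3243919183135248)) (C.cons (nat_lit 2405) (C.ref (nat_lit 210) (nat_lit 3243914888168208)) (C.cons (nat_lit 2403) (C.ref (nat_lit 210) (nat_lit 3243910593200928)) (C.cons (nat_lit 2393) (C.ref (nat_lit 210) (nat_lit 3243850463662608)) (C.cons (nat_lit 2389) (C.ref (nat_lit 210) (nat_lit 3243846168695568)) (C.cons (nat_lit 2387) (C.ref (nat_lit 210) (nat_lit 3243841873728288))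 (C.cons (nat_lit 2381) (C.ref (nat_lit 210) (nat_lit 3243777449219088)) (C.cons (nat_lit 2379) (C.ref (nat_lit 210) (nat_lit 3243773154251808)) (C.cons (nat_lit 2375) (C.ref (nat_lit 210) (nat_lit 3243704434775088)) (C.cons (nat_lit 2361)
  (C.ref (nat_lit 210) (nat_lit 3242750952038928)) (C.cons (nat_lit 2357) (C.ref (nat_lit 210) (nat_lit 3242746657071888)) (C.cons (nat_lit 2355) (C.ref (nat_lit 210) (nat_lit 3242742362104608)) (C.cons (nat_lit 2349) (C.ref (nat_lit 210) (nat_lit 3242677937595408)) (C.cons (nat_lit 2347) (C.ref (nat_lit 210) (nat_lit 3242673642628128)) (C.cons (nat_lit 2343) (C.ref (nat_lit 210) (nat_lit 3242604923151408)) (C.cons (nat_lit 2333) (C.ref (nat_lit 210) (nat_lit 3241578425967888)) (C.cons (nat_lit 2331) (C.ref (nat_lit 210) (nat_lit 3241574131000608)) (C.cons (nat_lit 2327) (C.ref (nat_lit 210) (nat_lit 3241505411523888)) (C.cons (nat_lit 2319) (C.ref (nat_lit 210) (nat_lit 3240405899896128)) (C.cons (nat_lit 2289) (C.ref (nat_lit 210) (nat_lit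 3226331292119568)) (C.cons (nat_lit 2281) (C.ref (nat_lit 210) (nat_lit 3226326997156368)) (C.cons (nat_lit 2277) (C.ref (nat_lit 210) (nat_lit 3226322702189328)) (C.cons (nat_lit 2275) (C.ref (nat_lit 210) (nat_lit 3226318407222048)) (C.cons (nat_lit 2265) (C.ref (nat_lit 210) (nat_lit 3226258277683728)) (C.cons (nat_lit 2261) (C.ref (nat_lit 210) (nat_lit 3226253982716688)) (C.cons (nat_lit 2259) (C.ref (nat_lit 210) (nat_lit 3226249687749408)) (C.cons (nat_lit 2253) (C.ref (nat_lit 210) (nat_lit 3226185263240208)) (C.cons (nat_lit 2251) (C.ref (nat_lit 210) (nat_lit 3226180968272928)) (C.cons (nat_lit 2247) (C.ref (nat_lit 210) (nat_lit 3226112248796208)) (C.cons (nat_lit 2233) (C.ref (nat_lit 210) (nat_lit 3225158766060048)) (C.cons (nat_lit 2229) (C.ref (nat_lit 210) (nat_lit 3225154471093008)) (C.cons (nat_lit 2227) (C.ref (nat_lit 210) (nat_lit 3225150176125728)) (C.cons (nat_lit 2221) (C.ref (nat_lit 210) (nat_lit 3225085751616528)) (C.cons (nat_lit 2219) (C.ref (nat_lit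 210) (nat_lit 3225081456649248)) (C.cons (nat_lit 2215) (C.ref (nat_lit 210) (nat_lit 3225012737172528)) (C.cons (nat_lit 2205) (C.ref (nat_lit 210) (nat_lit 3223986239989008)) (C.cons (nat_lit 2203) (C.ref (nat_lit 210) (nat_lit 3223981945021728)) (C.cons (nat_lit 2199) (C.ref (nat_lit 210) (nat_lit 3223913225545008)) (C.cons (nat_lit 2191) (C.ref (nat_lit 210) (nat_lit 3222813713917248)) (C.cons (nat_lit 2169) (C.ref (nat_lit 210) (nat_lit 3207566580019728)) (C.cons (nat_lit 2165) (C.ref (nat_lit 210) (nat_lit 3207562285052688)) (C.cons (nat_lit 2163) (C.ref (nat_lit 210) (nat_lit 3207557990085408)) (C.cons (nat_lit 2157) (C.ref (nat_lit 210) (nat_lit 3207493565576208)) (C.cons (nat_lit 2155) (C.ref (nat_lit 210) (nat_lit 3207489270608928)) (C.cons (nat_lit 2151) (C.ref (nat_lit 210) (nat_lit 3207420551132208)) (C.cons (nat_lit 2141) (C.ref (nat_lit 210) (nat_lit 3206394053948688)) (C.cons (nat_lit 2139) (C.ref (nat_lit 210) (nat_lit 3206389758981408)) (C.cons (nat_lit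 2135) (C.ref (nat_lit 210) (nat_lit 3206321039504688)) (C.cons (nat_lit 2127) (C.ref (nat_lit 210) (nat_lit 3205221527876928)) (C.cons (nat_lit 2109) (C.ref (nat_lit 210) (nat_lit 3188801867904528)) (C.cons (nat_lit 2107) (C.ref (nat_lit 210) (nat_lit 3188797572937248)) (C.cons (nat_lit 2103) (C.ref (nat_lit 210) (nat_lit 3188728853460528)) (C.cons (nat_lit 2095) (C.ref (nat_lit 210) (nat_lit 3187629341832768)) (C.cons (nat_lit 2079) (C.ref (nat_lit 210) (nat_lit 3170037155788368)) (C.cons (nat_lit 1985) (C.ref (nat_lit 210) (nat_lit 2982385751962128)) (C.cons (nat_lit 1953) (C.ref (nat_lit 210) (nat_lit 2982381458043408)) (C.cons (nat_lit 1937) (C.ref (nat_lit 210) (nat_lit 2982377163141648)) (C.cons (nat_lit 1929) (C.ref (nat_lit 210) (nat_lit 2982372868178448)) (C.cons (nat_lit 1925) (C.ref (nat_lit 210) (nat_lit 2982368573211408)) (C.cons (nat_lit 1923) (C.ref (nat_lit 210) (nat_lit 2982364278244128)) (C.cons (nat_lit 1889) (C.ref (nat_lit 210) (nat_lit 2982312739615248))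 (C.cons (nat_lit 1873) (C.ref (nat_lit 210) (nat_lit 2982308444713488)) (C.cons (nat_lit 1865) (C.ref (nat_lit 210) (nat_lit 2982304149750288)) (C.cons (nat_lit 1861) (C.ref (nat_lit 210) (nat_lit 2982299854783248)) (C.cons (nat_lit 1859)
  (C.ref (nat_lit 210) (nat_lit 2982295559815968)) (C.cons (nat_lit 1841) (C.ref (nat_lit 210) (nat_lit 2982239725302288)) (C.cons (nat_lit 1833) (C.ref (nat_lit 210) (nat_lit 2982235430339088)) (C.cons (nat_lit 1829) (C.ref (nat_lit 210) (nat_lit 2982231135372048)) (C.cons (nat_lit 1827) (C.ref (nat_lit 210) (nat_lit 2982226840404768)) (C.cons (nat_lit 1817) (C.ref (nat_lit 210) (nat_lit 2982166710866448)) (C.cons (nat_lit 1813) (C.ref (nat_lit 210) (nat_lit 2982162415899408)) (C.cons (nat_lit 1811) (C.ref (nat_lit 210) (nat_lit 2982158120932128)) (C.cons (nat_lit 1805) (C.ref (nat_lit 210) (nat_lit 2982093696422928)) (C.cons (nat_lit 1803) (C.ref (nat_lit 210) (nat_lit 2982089401455648)) (C.cons (nat_lit 1799) (C.ref (nat_lit 210) (nat_lit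 2982020681978928)) (C.cons (nat_lit 1761) (C.ref (nat_lit 210) (nat_lit 2981213229036048)) (C.cons (nat_lit 1745) (C.ref (nat_lit 210) (nat_lit 2981208934134288)) (C.cons (nat_lit 1737) (C.ref (nat_lit 210) (nat_lit 2981204639171088)) (C.cons (nat_lit 1733) (C.ref (nat_lit 210) (nat_lit 2981200344204048)) (C.cons (nat_lit 1731) (C.ref (nat_lit 210) (nat_lit 2981196049236768)) (C.cons (nat_lit 1713) (C.ref (nat_lit 210) (nat_lit 2981140214723088)) (C.cons (nat_lit 1705) (C.ref (nat_lit 210) (nat_lit 2981135919759888)) (C.cons (nat_lit 1701) (C.ref (nat_lit 210) (nat_lit 2981131624792848)) (C.cons (nat_lit 1699) (C.ref (nat_lit 210) (nat_lit 2981127329825568)) (C.cons (nat_lit 1689) (C.ref (nat_lit 210) (nat_lit 2981067200287248)) (C.cons (nat_lit 1685) (C.ref (nat_lit 210) (nat_lit 2981062905320208)) (C.cons (nat_lit 1683) (C.ref (nat_lit 210) (nat_lit 2981058610352928)) (C.cons (nat_lit 1677) (C.ref (nat_lit 210) (nat_lit 2980994185843728)) (C.cons (nat_lit 1675) (C.ref (nat_lit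 210) (nat_lit 2980989890876448)) (C.cons (nat_lit 1671) (C.ref (nat_lit 210) (nat_lit 2980921171399728)) (C.cons (nat_lit 1649) (C.ref (nat_lit 210) (nat_lit 2980040703160848)) (C.cons (nat_lit 1641) (C.ref (nat_lit 210) (nat_lit 2980036408197648)) (C.cons (nat_lit 1637) (C.ref (nat_lit 210) (nat_lit 2980032113230608)) (C.cons (nat_lit 1635) (C.ref (nat_lit 210) (nat_lit 2980027818263328)) (C.cons (nat_lit 1625) (C.ref (nat_lit 210) (nat_lit 2979967688725008)) (C.cons (nat_lit 1621) (C.ref (nat_lit 210) (nat_lit 2979963393757968)) (C.cons (nat_lit 1619) (C.ref (nat_lit 210) (nat_lit 2979959098790688)) (C.cons (nat_lit 1613) (C.ref (nat_lit 210) (nat_lit 2979894674281488)) (C.cons (nat_lit 1611) (C.ref (nat_lit 210) (nat_lit 2979890379314208)) (C.cons (nat_lit 1607) (C.ref (nat_lit 210) (nat_lit 2979821659837488)) (C.cons (nat_lit 1593) (C.ref (nat_lit 210) (nat_lit 2978868177101328)) (C.cons (nat_lit 1589) (C.ref (nat_lit 210) (nat_lit 2978863882134288)) (C.cons (nat_lit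 1587) (C.ref (nat_lit 210) (nat_lit 2978859587167008)) (C.cons (nat_lit 1581) (C.ref (nat_lit 210) (nat_lit 2978795162657808)) (C.cons (nat_lit 1579) (C.ref (nat_lit 210) (nat_lit 2978790867690528)) (C.cons (nat_lit 1575) (C.ref (nat_lit 210) (nat_lit 2978722148213808)) (C.cons (nat_lit 1565) (C.ref (nat_lit 210) (nat_lit 2977695651030288)) (C.cons (nat_lit 1563) (C.ref (nat_lit 210) (nat_lit 2977691356063008)) (C.cons (nat_lit 1559) (C.ref (nat_lit 210) (nat_lit 2977622636586288)) (C.cons (nat_lit 1551) (C.ref (nat_lit 210) (nat_lit 2976523124958528)) (C.cons (nat_lit 1505) (C.ref (nat_lit 210) (nat_lit 2963621044040208)) (C.cons (nat_lit 1489) (C.ref (nat_lit 210) (nat_lit 2963616749138448)) (C.cons (nat_lit 1481) (C.ref (nat_lit 210) (nat_lit 2963612454175248)) (C.cons (nat_lit 1477) (C.ref (nat_lit 210) (nat_lit 2963608159208208)) (C.cons (nat_lit 1475) (C.ref (nat_lit 210) (nat_lit 2963603864240928)) (C.cons (nat_lit 1457) (C.ref (nat_lit 210) (nat_lit 2963548029727248))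 (C.cons (nat_lit 1449) (C.ref (nat_lit 210) (nat_lit 2963543734764048)) (C.cons (nat_lit 1445) (C.ref (nat_lit 210) (nat_lit 2963539439797008)) (C.cons (nat_lit 1443) (C.ref (nat_lit 210) (nat_lit 2963535144829728)) (C.cons (nat_lit 1433)
  (C.ref (nat_lit 210) (nat_lit 2963475015291408)) (C.cons (nat_lit 1429) (C.ref (nat_lit 210) (nat_lit 2963470720324368)) (C.cons (nat_lit 1427) (C.ref (nat_lit 210) (nat_lit 2963466425357088)) (C.cons (nat_lit 1421) (C.ref (nat_lit 210) (nat_lit 2963402000847888)) (C.cons (nat_lit 1419) (C.ref (nat_lit 210) (nat_lit 2963397705880608)) (C.cons (nat_lit 1415) (C.ref (nat_lit 210) (nat_lit 2963328986403888)) (C.cons (nat_lit 1393) (C.ref (nat_lit 210) (nat_lit 2962448518165008)) (C.cons (nat_lit 1385) (C.ref (nat_lit 210) (nat_lit 2962444223201808)) (C.cons (nat_lit 1381) (C.ref (nat_lit 210) (nat_lit 2962439928234768)) (C.cons (nat_lit 1379) (C.ref (nat_lit 210) (nat_lit 2962435633267488)) (C.cons (nat_lit 1369) (C.ref (nat_lit 210) (nat_lit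 2962375503729168)) (C.cons (nat_lit 1365) (C.ref (nat_lit 210) (nat_lit 2962371208762128)) (C.cons (nat_lit 1363) (C.ref (nat_lit 210) (nat_lit 2962366913794848)) (C.cons (nat_lit 1357) (C.ref (nat_lit 210) (nat_lit 2962302489285648)) (C.cons (nat_lit 1355) (C.ref (nat_lit 210) (nat_lit 2962298194318368)) (C.cons (nat_lit 1351) (C.ref (nat_lit 210) (nat_lit 2962229474841648)) (C.cons (nat_lit 1337) (C.ref (nat_lit 210) (nat_lit 2961275992105488)) (C.cons (nat_lit 1333) (C.ref (nat_lit 210) (nat_lit 2961271697138448)) (C.cons (nat_lit 1331) (C.ref (nat_lit 210) (nat_lit 2961267402171168)) (C.cons (nat_lit 1325) (C.ref (nat_lit 210) (nat_lit 2961202977661968)) (C.cons (nat_lit 1323) (C.ref (nat_lit 210) (nat_lit 2961198682694688)) (C.cons (nat_lit 1319) (C.ref (nat_lit 210) (nat_lit 2961129963217968)) (C.cons (nat_lit 1309) (C.ref (nat_lit 210) (nat_lit 2960103466034448)) (C.cons (nat_lit 1307) (C.ref (nat_lit 210) (nat_lit 2960099171067168)) (C.cons (nat_lit 1303) (C.ref (nat_lit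 210) (nat_lit 2960030451590448)) (C.cons (nat_lit 1295) (C.ref (nat_lit 210) (nat_lit 2958930939962688)) (C.cons (nat_lit 1265) (C.ref (nat_lit 210) (nat_lit 2944856332186128)) (C.cons (nat_lit 1257) (C.ref (nat_lit 210) (nat_lit 2944852037222928)) (C.cons (nat_lit 1253) (C.ref (nat_lit 210) (nat_lit 2944847742255888)) (C.cons (nat_lit 1251) (C.ref (nat_lit 210) (nat_lit 2944843447288608)) (C.cons (nat_lit 1241) (C.ref (nat_lit 210) (nat_lit 2944783317750288)) (C.cons (nat_lit 1237) (C.ref (nat_lit 210) (nat_lit 2944779022783248)) (C.cons (nat_lit 1235) (C.ref (nat_lit 210) (nat_lit 2944774727815968)) (C.cons (nat_lit 1229) (C.ref (nat_lit 210) (nat_lit 2944710303306768)) (C.cons (nat_lit 1227) (C.ref (nat_lit 210) (nat_lit 2944706008339488)) (C.cons (nat_lit 1223) (C.ref (nat_lit 210) (nat_lit 2944637288862768)) (C.cons (nat_lit 1209) (C.ref (nat_lit 210) (nat_lit 2943683806126608)) (C.cons (nat_lit 1205) (C.ref (nat_lit 210) (nat_lit 2943679511159568)) (C.cons (nat_lit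 1203) (C.ref (nat_lit 210) (nat_lit 2943675216192288)) (C.cons (nat_lit 1197) (C.ref (nat_lit 210) (nat_lit 2943610791683088)) (C.cons (nat_lit 1195) (C.ref (nat_lit 210) (nat_lit 2943606496715808)) (C.cons (nat_lit 1191) (C.ref (nat_lit 210) (nat_lit 2943537777239088)) (C.cons (nat_lit 1181) (C.ref (nat_lit 210) (nat_lit 2942511280055568)) (C.cons (nat_lit 1179) (C.ref (nat_lit 210) (nat_lit 2942506985088288)) (C.cons (nat_lit 1175) (C.ref (nat_lit 210) (nat_lit 2942438265611568)) (C.cons (nat_lit 1167) (C.ref (nat_lit 210) (nat_lit 2941338753983808)) (C.cons (nat_lit 1145) (C.ref (nat_lit 210) (nat_lit 2926091620086288)) (C.cons (nat_lit 1141) (C.ref (nat_lit 210) (nat_lit 2926087325119248)) (C.cons (nat_lit 1139) (C.ref (nat_lit 210) (nat_lit 2926083030151968)) (C.cons (nat_lit 1133) (C.ref (nat_lit 210) (nat_lit 2926018605642768)) (C.cons (nat_lit 1131) (C.ref (nat_lit 210) (nat_lit 2926014310675488)) (C.cons (nat_lit 1127) (C.ref (nat_lit 210) (nat_lit 2925945591198768))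 (C.cons (nat_lit 1117) (C.ref (nat_lit 210) (nat_lit 2924919094015248)) (C.cons (nat_lit 1115) (C.ref (nat_lit 210) (nat_lit 2924914799047968)) (C.cons (nat_lit 1111) (C.ref (nat_lit 210) (nat_lit 2924846079571248)) (C.cons (nat_lit 1103)
  (C.ref (nat_lit 210) (nat_lit 2923746567943488)) (C.cons (nat_lit 1085) (C.ref (nat_lit 210) (nat_lit 2907326907971088)) (C.cons (nat_lit 1083) (C.ref (nat_lit 210) (nat_lit 2907322613003808)) (C.cons (nat_lit 1079) (C.ref (nat_lit 210) (nat_lit 2907253893527088)) (C.cons (nat_lit 1071) (C.ref (nat_lit 210) (nat_lit 2906154381899328)) (C.cons (nat_lit 1055) (C.ref (nat_lit 210) (nat_lit 2888562195854928)) (C.cons (nat_lit 993) (C.ref (nat_lit 210) (nat_lit 2682146068378128)) (C.cons (nat_lit 977) (C.ref (nat_lit 210) (nat_lit 2682141773476368)) (C.cons (nat_lit 969) (C.ref (nat_lit 210) (nat_lit 2682137478513168)) (C.cons (nat_lit 965) (C.ref (nat_lit 210) (nat_lit 2682133183546128)) (C.cons (nat_lit 963) (C.ref (nat_lit 210) (nat_lit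 2682128888578848)) (C.cons (nat_lit 945) (C.ref (nat_lit 210) (nat_lit 2682073054065168)) (C.cons (nat_lit 937) (C.ref (nat_lit 210) (nat_lit 2682068759101968)) (C.cons (nat_lit 933) (C.ref (nat_lit 210) (nat_lit 2682064464134928)) (C.cons (nat_lit 931) (C.ref (nat_lit 210) (nat_lit 2682060169167648)) (C.cons (nat_lit 921) (C.ref (nat_lit 210) (nat_lit 2682000039629328)) (C.cons (nat_lit 917) (C.ref (nat_lit 210) (nat_lit 2681995744662288)) (C.cons (nat_lit 915) (C.ref (nat_lit 210) (nat_lit 2681991449695008)) (C.cons (nat_lit 909) (C.ref (nat_lit 210) (nat_lit 2681927025185808)) (C.cons (nat_lit 907) (C.ref (nat_lit 210) (nat_lit 2681922730218528)) (C.cons (nat_lit 903) (C.ref (nat_lit 210) (nat_lit 2681854010741808)) (C.cons (nat_lit 881) (C.ref (nat_lit 210) (nat_lit 2680973542502928)) (C.cons (nat_lit 873) (C.ref (nat_lit 210) (nat_lit 2680969247539728)) (C.cons (nat_lit 869) (C.ref (nat_lit 210) (nat_lit 2680964952572688)) (C.cons (nat_lit 867) (C.ref (nat_lit 210) (nat_lit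 2680960657605408)) (C.cons (nat_lit 857) (C.ref (nat_lit 210) (nat_lit 2680900528067088)) (C.cons (nat_lit 853) (C.ref (nat_lit 210) (nat_lit 2680896233100048)) (C.cons (nat_lit 851) (C.ref (nat_lit 210) (nat_lit 2680891938132768)) (C.cons (nat_lit 845) (C.ref (nat_lit 210) (nat_lit 2680827513623568)) (C.cons (nat_lit 843) (C.ref (nat_lit 210) (nat_lit 2680823218656288)) (C.cons (nat_lit 839) (C.ref (nat_lit 210) (nat_lit 2680754499179568)) (C.cons (nat_lit 825) (C.ref (nat_lit 210) (nat_lit 2679801016443408)) (C.cons (nat_lit 821) (C.ref (nat_lit 210) (nat_lit 2679796721476368)) (C.cons (nat_lit 819) (C.ref (nat_lit 210) (nat_lit 2679792426509088)) (C.cons (nat_lit 813) (C.ref (nat_lit 210) (nat_lit 2679728001999888)) (C.cons (nat_lit 811) (C.ref (nat_lit 210) (nat_lit 2679723707032608)) (C.cons (nat_lit 807) (C.ref (nat_lit 210) (nat_lit 2679654987555888)) (C.cons (nat_lit 797) (C.ref (nat_lit 210) (nat_lit 2678628490372368)) (C.cons (nat_lit 795) (C.ref (nat_lit 210) (nat_lit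 2678624195405088)) (C.cons (nat_lit 791) (C.ref (nat_lit 210) (nat_lit 2678555475928368)) (C.cons (nat_lit 783) (C.ref (nat_lit 210) (nat_lit 2677455964300608)) (C.cons (nat_lit 753) (C.ref (nat_lit 210) (nat_lit 2663381356524048)) (C.cons (nat_lit 745) (C.ref (nat_lit 210) (nat_lit 2663377061560848)) (C.cons (nat_lit 741) (C.ref (nat_lit 210) (nat_lit 2663372766593808)) (C.cons (nat_lit 739) (C.ref (nat_lit 210) (nat_lit 2663368471626528)) (C.cons (nat_lit 729) (C.ref (nat_lit 210) (nat_lit 2663308342088208)) (C.cons (nat_lit 725) (C.ref (nat_lit 210) (nat_lit 2663304047121168)) (C.cons (nat_lit 723) (C.ref (nat_lit 210) (nat_lit 2663299752153888)) (C.cons (nat_lit 717) (C.ref (nat_lit 210) (nat_lit 2663235327644688)) (C.cons (nat_lit 715) (C.ref (nat_lit 210) (nat_lit 2663231032677408)) (C.cons (nat_lit 711) (C.ref (nat_lit 210) (nat_lit 2663162313200688)) (C.cons (nat_lit 697) (C.ref (nat_lit 210) (nat_lit 2662208830464528)) (C.cons (nat_lit 693) (C.ref (nat_lit 210) (nat_lit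 2662204535497488)) (C.cons (nat_lit 691) (C.ref (nat_lit 210) (nat_lit 2662200240530208)) (C.cons (nat_lit 685) (C.ref (nat_lit 210) (nat_lit 2662135816021008)) (C.cons (nat_lit 683) (C.ref (nat_lit 210) (nat_lit 2662131521053728)) (C.cons (nat_lit 679)
  (C.ref (nat_lit 210) (nat_lit 2662062801577008)) (C.cons (nat_lit 669) (C.ref (nat_lit 210) (nat_lit 2661036304393488)) (C.cons (nat_lit 667) (C.ref (nat_lit 210) (nat_lit 2661032009426208)) (C.cons (nat_lit 663) (C.ref (nat_lit 210) (nat_lit 2660963289949488)) (C.cons (nat_lit 655) (C.ref (nat_lit 210) (nat_lit 2659863778321728)) (C.cons (nat_lit 633) (C.ref (nat_lit 210) (nat_lit 2644616644424208)) (C.cons (nat_lit 629) (C.ref (nat_lit 210) (nat_lit 2644612349457168)) (C.cons (nat_lit 627) (C.ref (nat_lit 210) (nat_lit 2644608054489888)) (C.cons (nat_lit 621) (C.ref (nat_lit 210) (nat_lit 2644543629980688)) (C.cons (nat_lit 619) (C.ref (nat_lit 210) (nat_lit 2644539335013408)) (C.cons (nat_lit 615) (C.ref (nat_lit 210)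 (nat_lit 2644470615536688)) (C.cons (nat_lit 605) (C.ref (nat_lit 210) (nat_lit 2643444118353168)) (C.cons (nat_lit 603) (C.ref (nat_lit 210) (nat_lit 2643439823385888)) (C.cons (nat_lit 599) (C.ref (nat_lit 210) (nat_lit 2643371103909168)) (C.cons (nat_lit 591) (C.ref (nat_lit 210) (nat_lit 2642271592281408)) (C.cons (nat_lit 573) (C.ref (nat_lit 210) (nat_lit 2625851932309008)) (C.cons (nat_lit 571) (C.ref (nat_lit 210) (nat_lit 2625847637341728)) (C.cons (nat_lit 567) (C.ref (nat_lit 210) (nat_lit 2625778917865008)) (C.cons (nat_lit 559) (C.ref (nat_lit 210) (nat_lit 2624679406237248)) (C.cons (nat_lit 543) (C.ref (nat_lit 210) (nat_lit 2607087220192848)) (C.cons (nat_lit 497) (C.ref (nat_lit 210) (nat_lit 2381906379878928)) (C.cons (nat_lit 489) (C.ref (nat_lit 210) (nat_lit 2381902084915728)) (C.cons (nat_lit 485) (C.ref (nat_lit 210) (nat_lit 2381897789948688)) (C.cons (nat_lit 483) (C.ref (nat_lit 210) (nat_lit 2381893494981408)) (C.cons (nat_lit 473) (C.ref (nat_lit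 210) (nat_lit 2381833365443088)) (C.cons (nat_lit 469) (C.ref (nat_lit 210) (nat_lit 2381829070476048)) (C.cons (nat_lit 467) (C.ref (nat_lit 210) (nat_lit 2381824775508768)) (C.cons (nat_lit 461) (C.ref (nat_lit 210) (nat_lit 2381760350999568)) (C.cons (nat_lit 459) (C.ref (nat_lit 210) (nat_lit 2381756056032288)) (C.cons (nat_lit 455) (C.ref (nat_lit 210) (nat_lit 2381687336555568)) (C.cons (nat_lit 441) (C.ref (nat_lit 210) (nat_lit 2380733853819408)) (C.cons (nat_lit 437) (C.ref (nat_lit 210) (nat_lit 2380729558852368)) (C.cons (nat_lit 435) (C.ref (nat_lit 210) (nat_lit 2380725263885088)) (C.cons (nat_lit 429) (C.ref (nat_lit 210) (nat_lit 2380660839375888)) (C.cons (nat_lit 427) (C.ref (nat_lit 210) (nat_lit 2380656544408608)) (C.cons (nat_lit 423) (C.ref (nat_lit 210) (nat_lit 2380587824931888)) (C.cons (nat_lit 413) (C.ref (nat_lit 210) (nat_lit 2379561327748368)) (C.cons (nat_lit 411) (C.ref (nat_lit 210) (nat_lit 2379557032781088)) (C.cons (nat_lit 407) (C.ref (nat_lit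 210) (nat_lit 2379488313304368)) (C.cons (nat_lit 399) (C.ref (nat_lit 210) (nat_lit 2378388801676608)) (C.cons (nat_lit 377) (C.ref (nat_lit 210) (nat_lit 2363141667779088)) (C.cons (nat_lit 373) (C.ref (nat_lit 210) (nat_lit 2363137372812048)) (C.cons (nat_lit 371) (C.ref (nat_lit 210) (nat_lit 2363133077844768)) (C.cons (nat_lit 365) (C.ref (nat_lit 210) (nat_lit 2363068653335568)) (C.cons (nat_lit 363) (C.ref (nat_lit 210) (nat_lit 2363064358368288)) (C.cons (nat_lit 359) (C.ref (nat_lit 210) (nat_lit 2362995638891568)) (C.cons (nat_lit 349) (C.ref (nat_lit 210) (nat_lit 2361969141708048)) (C.cons (nat_lit 347) (C.ref (nat_lit 210) (nat_lit 2361964846740768)) (C.cons (nat_lit 343) (C.ref (nat_lit 210) (nat_lit 2361896127264048)) (C.cons (nat_lit 335) (C.ref (nat_lit 210) (nat_lit 2360796615636288)) (C.cons (nat_lit 317) (C.ref (nat_lit 210) (nat_lit 2344376955663888)) (C.cons (nat_lit 315) (C.ref (nat_lit 210) (nat_lit 2344372660696608)) (C.cons (nat_lit 311) (C.ref (nat_lit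 210) (nat_lit 2344303941219888)) (C.cons (nat_lit 303) (C.ref (nat_lit 210) (nat_lit 2343204429592128)) (C.cons (nat_lit 287) (C.ref (nat_lit 210) (nat_lit 2325612243547728)) (C.cons (nat_lit 249) (C.ref (nat_lit 210) (nat_lit 2081666691072528)) (C.cons (nat_lit 245)
  (C.ref (nat_lit 210) (nat_lit 2081662396105488)) (C.cons (nat_lit 243) (C.ref (nat_lit 210) (nat_lit 2081658101138208)) (C.cons (nat_lit 237) (C.ref (nat_lit 210) (nat_lit 2081593676629008)) (C.cons (nat_lit 235) (C.ref (nat_lit 210) (nat_lit 2081589381661728)) (C.cons (nat_lit 231) (C.ref (nat_lit 210) (nat_lit 2081520662185008)) (C.cons (nat_lit 221) (C.ref (nat_lit 210) (nat_lit 2080494165001488)) (C.cons (nat_lit 219) (C.ref (nat_lit 210) (nat_lit 2080489870034208)) (C.cons (nat_lit 215) (C.ref (nat_lit 210) (nat_lit 2080421150557488)) (C.cons (nat_lit 207) (C.ref (nat_lit 210) (nat_lit 2079321638929728)) (C.cons (nat_lit 189) (C.ref (nat_lit 210) (nat_lit 2062901978957328)) (C.cons (nat_lit 187) (C.ref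 (nat_lit 210) (nat_lit 2062897683990048)) (C.cons (nat_lit 183) (C.ref (nat_lit 210) (nat_lit 2062828964513328)) (C.cons (nat_lit 175) (C.ref (nat_lit 210) (nat_lit 2061729452885568)) (C.cons (nat_lit 159) (C.ref (nat_lit 210) (nat_lit 2044137266841168)) (C.cons (nat_lit 125) (C.ref (nat_lit 210) (nat_lit 1781427002246928)) (C.cons (nat_lit 123) (C.ref (nat_lit 210) (nat_lit 1781422707279648)) (C.cons (nat_lit 119) (C.ref (nat_lit 210) (nat_lit 1781353987802928)) (C.cons (nat_lit 111) (C.ref (nat_lit 210) (nat_lit 1780254476175168)) (C.cons (nat_lit 95) (C.ref (nat_lit 210) (nat_lit 1762662290130768)) (C.cons (nat_lit 63) (C.ref (nat_lit 210) (nat_lit 1481187313420128)) C.nil))))))))))))))))))))))))))))))))))))))))))))))))))))))))))))))))))))))))))))))))))))))))))))))))))))))))))))))))))))))))))))))))))))))))))))))))))))))))))))))))))))))))))))))))))))))))))))))))))))))))))))))))))))))))))))))))))))))))))))))))))))))))))))))))))))))))))))))))))))))))))))))))))))))))))))))))))))))))))))))))))))))))))))))))))))))))))))))))))))))))))))))))))))))))))))))))))))))))))))))))))))))))))))))))))))))))))))))))))))))))))))))))))))))))))))))))))))))))))))))))))))))))))))))))))))))))))))))))))))))))))))))))))))))))))))))))))))))))))))))))))))))))))))))))))))))))))))))))))))))))))))))))))))))))))))))))))))))))))))))))))))))))))))))))))))))))))))))))))))))))))))))))))))))))))))))))))))))))))))))))))))))))))))))))))))))))))))))))))))))))))))))))))))))))))))))))))))))))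 (C.big (C.cons (nat_lit 7681) (C.ref (nat_lit 238) (nat_lit 3582863703552528)) (C.cons (nat_lit 7425) (C.ref (nat_lit 238) (nat_lit 3582799279043088)) (C.cons (nat_lit 7297) (C.ref (nat_lit 238) (nat_lit 3582730828001808)) (C.cons (nat_lit 7233) (C.ref (nat_lit 238) (nat_lit 3582662125302288)) (C.cons (nat_lit 7201) (C.ref (nat_lit 238) (nat_lit 3582593406874128)) (C.cons (nat_lit 7185) (C.ref (nat_lit 238) (nat_lit 3582524687462928)) (C.cons (nat_lit 7177) (C.ref (nat_lit 238) (nat_lit 3582455967990288)) (C.cons (nat_lit 7173) (C.ref (nat_lit 238) (nat_lit 3582387248513808)) (C.cons (nat_lit 7171) (C.ref (nat_lit 238) (nat_lit 3582318529037088)) (C.cons (nat_lit 6913) (C.ref (nat_lit 238) (nat_lit 3581704062382608)) (C.cons (nat_lit 6785) (C.ref (nat_lit 238) (nat_lit 3581635611341328)) (C.cons (nat_lit 6721) (C.ref (nat_lit 238) (nat_lit 3581566908641808)) (C.cons (nat_lit 6689) (C.ref (nat_lit 238) (nat_lit 3581498190213648)) (C.cons (nat_lit 6673) (C.ref (nat_lit 238)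 (nat_lit 3581429470802448)) (C.cons (nat_lit 6665) (C.ref (nat_lit 238) (nat_lit 3581360751329808)) (C.cons (nat_lit 6661) (C.ref (nat_lit 238) (nat_lit 3581292031853328)) (C.cons (nat_lit 6659) (C.ref (nat_lit 238) (nat_lit 3581223312376608)) (C.cons (nat_lit 6529) (C.ref (nat_lit 238) (nat_lit 3580536368149008)) (C.cons (nat_lit 6465) (C.ref (nat_lit 238) (nat_lit 3580467665449488)) (C.cons (nat_lit 6433) (C.ref (nat_lit 238) (nat_lit 3580398947021328)) (C.cons (nat_lit 6417) (C.ref (nat_lit 238) (nat_lit 3580330227610128)) (C.cons (nat_lit 6409) (C.ref (nat_lit 238) (nat_lit 3580261508137488)) (C.cons (nat_lit 6405) (C.ref (nat_lit 238) (nat_lit 3580192788661008)) (C.cons (nat_lit 6403) (C.ref (nat_lit 238) (nat_lit 3580124069184288)) (C.cons (nat_lit 6337)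
  (C.ref (nat_lit 238) (nat_lit 3579368170598928)) (C.cons (nat_lit 6305) (C.ref (nat_lit 238) (nat_lit 3579299452170768)) (C.cons (nat_lit 6289) (C.ref (nat_lit 238) (nat_lit 3579230732759568)) (C.cons (nat_lit 6281) (C.ref (nat_lit 238) (nat_lit 3579162013286928)) (C.cons (nat_lit 6277) (C.ref (nat_lit 238) (nat_lit 3579093293810448)) (C.cons (nat_lit 6275) (C.ref (nat_lit 238) (nat_lit 3579024574333728)) (C.cons (nat_lit 6241) (C.ref (nat_lit 238) (nat_lit 3578199941591568)) (C.cons (nat_lit 6225) (C.ref (nat_lit 238) (nat_lit 3578131222180368)) (C.cons (nat_lit 6217) (C.ref (nat_lit 238) (nat_lit 3578062502707728)) (C.cons (nat_lit 6213) (C.ref (nat_lit 238) (nat_lit 3577993783231248)) (C.cons (nat_lit 6211) (C.ref (nat_lit 238) (nat_lit 3577925063754528)) (C.cons (nat_lit 6193) (C.ref (nat_lit 238) (nat_lit 3577031710618128)) (C.cons (nat_lit 6185) (C.ref (nat_lit 238) (nat_lit 3576962991145488)) (C.cons (nat_lit 6181) (C.ref (nat_lit 238) (nat_lit 3576894271669008))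 (C.cons (nat_lit 6179) (C.ref (nat_lit 238) (nat_lit 3576825552192288)) (C.cons (nat_lit 6169) (C.ref (nat_lit 238) (nat_lit 3575863479521808)) (C.cons (nat_lit 6165) (C.ref (nat_lit 238) (nat_lit 3575794760045328)) (C.cons (nat_lit 6163) (C.ref (nat_lit 238) (nat_lit 3575726040568608)) (C.cons (nat_lit 6157) (C.ref (nat_lit 238) (nat_lit 3574695248417808)) (C.cons (nat_lit 6155) (C.ref (nat_lit 238) (nat_lit 3574626528941088)) (C.cons (nat_lit 6151) (C.ref (nat_lit 238) (nat_lit 3573527017313328)) (C.cons (nat_lit 5889) (C.ref (nat_lit 238) (nat_lit 3564116171305488)) (C.cons (nat_lit 5761) (C.ref (nat_lit 238) (nat_lit 3564047720264208)) (C.cons (nat_lit 5697) (C.ref (nat_lit 238) (nat_lit 3563979017564688)) (C.cons (nat_lit 5665) (C.ref (nat_lit 238) (nat_lit 3563910299136528)) (C.cons (nat_lit 5649) (C.ref (nat_lit 238) (nat_lit 3563841579725328)) (C.cons (nat_lit 5641) (C.ref (nat_lit 238) (nat_lit 3563772860252688)) (C.cons (nat_lit 5637) (C.ref (nat_lit 238) (nat_lit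 3563704140776208)) (C.cons (nat_lit 5635) (C.ref (nat_lit 238) (nat_lit 3563635421299488)) (C.cons (nat_lit 5505) (C.ref (nat_lit 238) (nat_lit 3562948477071888)) (C.cons (nat_lit 5441) (C.ref (nat_lit 238) (nat_lit 3562879774372368)) (C.cons (nat_lit 5409) (C.ref (nat_lit 238) (nat_lit 3562811055944208)) (C.cons (nat_lit 5393) (C.ref (nat_lit 238) (nat_lit 3562742336533008)) (C.cons (nat_lit 5385) (C.ref (nat_lit 238) (nat_lit 3562673617060368)) (C.cons (nat_lit 5381) (C.ref (nat_lit 238) (nat_lit 3562604897583888)) (C.cons (nat_lit 5379) (C.ref (nat_lit 238) (nat_lit 3562536178107168)) (C.cons (nat_lit 5313) (C.ref (nat_lit 238) (nat_lit 3561780279521808)) (C.cons (nat_lit 5281) (C.ref (nat_lit 238) (nat_lit 3561711561093648)) (C.cons (nat_lit 5265) (C.ref (nat_lit 238) (nat_lit 3561642841682448)) (C.cons (nat_lit 5257) (C.ref (nat_lit 238) (nat_lit 3561574122209808)) (C.cons (nat_lit 5253) (C.ref (nat_lit 238) (nat_lit 3561505402733328)) (C.cons (nat_lit 5251) (C.ref (nat_lit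 238) (nat_lit 3561436683256608)) (C.cons (nat_lit 5217) (C.ref (nat_lit 238) (nat_lit 3560612050514448)) (C.cons (nat_lit 5201) (C.ref (nat_lit 238) (nat_lit 3560543331103248)) (C.cons (nat_lit 5193) (C.ref (nat_lit 238) (nat_lit 3560474611630608)) (C.cons (nat_lit 5189) (C.ref (nat_lit 238) (nat_lit 3560405892154128)) (C.cons (nat_lit 5187) (C.ref (nat_lit 238) (nat_lit 3560337172677408)) (C.cons (nat_lit 5169) (C.ref (nat_lit 238) (nat_lit 3559443819541008)) (C.cons (nat_lit 5161) (C.ref (nat_lit 238) (nat_lit 3559375100068368)) (C.cons (nat_lit 5157) (C.ref (nat_lit 238) (nat_lit 3559306380591888)) (C.cons (nat_lit 5155) (C.ref (nat_lit 238) (nat_lit 3559237661115168)) (C.cons (nat_lit 5145) (C.ref (nat_lit 238) (nat_lit 3558275588444688)) (C.cons (nat_lit 5141) (C.ref (nat_lit 238) (nat_lit 3558206868968208)) (C.cons (nat_lit 5139) (C.ref (nat_lit 238) (nat_lit 3558138149491488)) (C.cons (nat_lit 5133) (C.ref (nat_lit 238) (nat_lit 3557107357340688)) (C.cons (nat_lit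 5131)
  (C.ref (nat_lit 238) (nat_lit 3557038637863968)) (C.cons (nat_lit 5127) (C.ref (nat_lit 238) (nat_lit 3555939126236208)) (C.cons (nat_lit 4993) (C.ref (nat_lit 238) (nat_lit 3545356559462928)) (C.cons (nat_lit 4929) (C.ref (nat_lit 238) (nat_lit 3545287856763408)) (C.cons (nat_lit 4897) (C.ref (nat_lit 238) (nat_lit 3545219138335248)) (C.cons (nat_lit 4881) (C.ref (nat_lit 238) (nat_lit 3545150418924048)) (C.cons (nat_lit 4873) (C.ref (nat_lit 238) (nat_lit 3545081699451408)) (C.cons (nat_lit 4869) (C.ref (nat_lit 238) (nat_lit 3545012979974928)) (C.cons (nat_lit 4867) (C.ref (nat_lit 238) (nat_lit 3544944260498208)) (C.cons (nat_lit 4801) (C.ref (nat_lit 238) (nat_lit 3544188361912848)) (C.cons (nat_lit 4769) (C.ref (nat_lit 238) (nat_lit 3544119643484688)) (C.cons (nat_lit 4753) (C.ref (nat_lit 238) (nat_lit 3544050924073488)) (C.cons (nat_lit 4745) (C.ref (nat_lit 238) (nat_lit 3543982204600848)) (C.cons (nat_lit 4741) (C.ref (nat_lit 238) (nat_lit 3543913485124368))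 (C.cons (nat_lit 4739) (C.ref (nat_lit 238) (nat_lit 3543844765647648)) (C.cons (nat_lit 4705) (C.ref (nat_lit 238) (nat_lit 3543020132905488)) (C.cons (nat_lit 4689) (C.ref (nat_lit 238) (nat_lit 3542951413494288)) (C.cons (nat_lit 4681) (C.ref (nat_lit 238) (nat_lit 3542882694021648)) (C.cons (nat_lit 4677) (C.ref (nat_lit 238) (nat_lit 3542813974545168)) (C.cons (nat_lit 4675) (C.ref (nat_lit 238) (nat_lit 3542745255068448)) (C.cons (nat_lit 4657) (C.ref (nat_lit 238) (nat_lit 3541851901932048)) (C.cons (nat_lit 4649) (C.ref (nat_lit 238) (nat_lit 3541783182459408)) (C.cons (nat_lit 4645) (C.ref (nat_lit 238) (nat_lit 3541714462982928)) (C.cons (nat_lit 4643) (C.ref (nat_lit 238) (nat_lit 3541645743506208)) (C.cons (nat_lit 4633) (C.ref (nat_lit 238) (nat_lit 3540683670835728)) (C.cons (nat_lit 4629) (C.ref (nat_lit 238) (nat_lit 3540614951359248)) (C.cons (nat_lit 4627) (C.ref (nat_lit 238) (nat_lit 3540546231882528)) (C.cons (nat_lit 4621) (C.ref (nat_lit 238) (nat_lit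 3539515439731728)) (C.cons (nat_lit 4619) (C.ref (nat_lit 238) (nat_lit 3539446720255008)) (C.cons (nat_lit 4615) (C.ref (nat_lit 238) (nat_lit 3538347208627248)) (C.cons (nat_lit 4545) (C.ref (nat_lit 238) (nat_lit 3526596192645648)) (C.cons (nat_lit 4513) (C.ref (nat_lit 238) (nat_lit 3526527474217488)) (C.cons (nat_lit 4497) (C.ref (nat_lit 238) (nat_lit 3526458754806288)) (C.cons (nat_lit 4489) (C.ref (nat_lit 238) (nat_lit 3526390035333648)) (C.cons (nat_lit 4485) (C.ref (nat_lit 238) (nat_lit 3526321315857168)) (C.cons (nat_lit 4483) (C.ref (nat_lit 238) (nat_lit 3526252596380448)) (C.cons (nat_lit 4449) (C.ref (nat_lit 238) (nat_lit 3525427963638288)) (C.cons (nat_lit 4433) (C.ref (nat_lit 238) (nat_lit 3525359244227088)) (C.cons (nat_lit 4425) (C.ref (nat_lit 238) (nat_lit 3525290524754448)) (C.cons (nat_lit 4421) (C.ref (nat_lit 238) (nat_lit 3525221805277968)) (C.cons (nat_lit 4419) (C.ref (nat_lit 238) (nat_lit 3525153085801248)) (C.cons (nat_lit 4401) (C.ref (nat_lit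 238) (nat_lit 3524259732664848)) (C.cons (nat_lit 4393) (C.ref (nat_lit 238) (nat_lit 3524191013192208)) (C.cons (nat_lit 4389) (C.ref (nat_lit 238) (nat_lit 3524122293715728)) (C.cons (nat_lit 4387) (C.ref (nat_lit 238) (nat_lit 3524053574239008)) (C.cons (nat_lit 4377) (C.ref (nat_lit 238) (nat_lit 3523091501568528)) (C.cons (nat_lit 4373) (C.ref (nat_lit 238) (nat_lit 3523022782092048)) (C.cons (nat_lit 4371) (C.ref (nat_lit 238) (nat_lit 3522954062615328)) (C.cons (nat_lit 4365) (C.ref (nat_lit 238) (nat_lit 3521923270464528)) (C.cons (nat_lit 4363) (C.ref (nat_lit 238) (nat_lit 3521854550987808)) (C.cons (nat_lit 4359) (C.ref (nat_lit 238) (nat_lit 3520755039360048)) (C.cons (nat_lit 4321) (C.ref (nat_lit 238) (nat_lit 3507835778642448)) (C.cons (nat_lit 4305) (C.ref (nat_lit 238) (nat_lit 3507767059231248)) (C.cons (nat_lit 4297) (C.ref (nat_lit 238) (nat_lit 3507698339758608)) (C.cons (nat_lit 4293) (C.ref (nat_lit 238) (nat_lit 3507629620282128)) (C.cons (nat_lit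 4291)
  (C.ref (nat_lit 238) (nat_lit 3507560900805408)) (C.cons (nat_lit 4273) (C.ref (nat_lit 238) (nat_lit 3506667547669008)) (C.cons (nat_lit 4265) (C.ref (nat_lit 238) (nat_lit 3506598828196368)) (C.cons (nat_lit 4261) (C.ref (nat_lit 238) (nat_lit 3506530108719888)) (C.cons (nat_lit 4259) (C.ref (nat_lit 238) (nat_lit 3506461389243168)) (C.cons (nat_lit 4249) (C.ref (nat_lit 238) (nat_lit 3505499316572688)) (C.cons (nat_lit 4245) (C.ref (nat_lit 238) (nat_lit 3505430597096208)) (C.cons (nat_lit 4243) (C.ref (nat_lit 238) (nat_lit 3505361877619488)) (C.cons (nat_lit 4237) (C.ref (nat_lit 238) (nat_lit 3504331085468688)) (C.cons (nat_lit 4235) (C.ref (nat_lit 238) (nat_lit 3504262365991968)) (C.cons (nat_lit 4231) (C.ref (nat_lit 238) (nat_lit 3503162854364208)) (C.cons (nat_lit 4209) (C.ref (nat_lit 238) (nat_lit 3489075361690128)) (C.cons (nat_lit 4201) (C.ref (nat_lit 238) (nat_lit 3489006642217488)) (C.cons (nat_lit 4197) (C.ref (nat_lit 238) (nat_lit 3488937922741008))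 (C.cons (nat_lit 4195) (C.ref (nat_lit 238) (nat_lit 3488869203264288)) (C.cons (nat_lit 4185) (C.ref (nat_lit 238) (nat_lit 3487907130593808)) (C.cons (nat_lit 4181) (C.ref (nat_lit 238) (nat_lit 3487838411117328)) (C.cons (nat_lit 4179) (C.ref (nat_lit 238) (nat_lit 3487769691640608)) (C.cons (nat_lit 4173) (C.ref (nat_lit 238) (nat_lit 3486738899489808)) (C.cons (nat_lit 4171) (C.ref (nat_lit 238) (nat_lit 3486670180013088)) (C.cons (nat_lit 4167) (C.ref (nat_lit 238) (nat_lit 3485570668385328)) (C.cons (nat_lit 4153) (C.ref (nat_lit 238) (nat_lit 3470314944553488)) (C.cons (nat_lit 4149) (C.ref (nat_lit 238) (nat_lit 3470246225077008)) (C.cons (nat_lit 4147) (C.ref (nat_lit 238) (nat_lit 3470177505600288)) (C.cons (nat_lit 4141) (C.ref (nat_lit 238) (nat_lit 3469146713449488)) (C.cons (nat_lit 4139) (C.ref (nat_lit 238) (nat_lit 3469077993972768)) (C.cons (nat_lit 4135) (C.ref (nat_lit 238) (nat_lit 3467978482345008)) (C.cons (nat_lit 4125) (C.ref (nat_lit 238) (nat_lit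 3451554527405328)) (C.cons (nat_lit 4123) (C.ref (nat_lit 238) (nat_lit 3451485807928608)) (C.cons (nat_lit 4119) (C.ref (nat_lit 238) (nat_lit 3450386296300848)) (C.cons (nat_lit 4111) (C.ref (nat_lit 238) (nat_lit 3432794110256448)) (C.cons (nat_lit 3841) (C.ref (nat_lit 238) (nat_lit 3282645489562128)) (C.cons (nat_lit 3713) (C.ref (nat_lit 238) (nat_lit 3282577038520848)) (C.cons (nat_lit 3649) (C.ref (nat_lit 238) (nat_lit 3282508335821328)) (C.cons (nat_lit 3617) (C.ref (nat_lit 238) (nat_lit 3282439617393168)) (C.cons (nat_lit 3601) (C.ref (nat_lit 238) (nat_lit 3282370897981968)) (C.cons (nat_lit 3593) (C.ref (nat_lit 238) (nat_lit 3282302178509328)) (C.cons (nat_lit 3589) (C.ref (nat_lit 238) (nat_lit 3282233459032848)) (C.cons (nat_lit 3587) (C.ref (nat_lit 238) (nat_lit 3282164739556128)) (C.cons (nat_lit 3457) (C.ref (nat_lit 238) (nat_lit 3281477795328528)) (C.cons (nat_lit 3393) (C.ref (nat_lit 238) (nat_lit 3281409092629008)) (C.cons (nat_lit 3361) (C.ref (nat_lit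 238) (nat_lit 3281340374200848)) (C.cons (nat_lit 3345) (C.ref (nat_lit 238) (nat_lit 3281271654789648)) (C.cons (nat_lit 3337) (C.ref (nat_lit 238) (nat_lit 3281202935317008)) (C.cons (nat_lit 3333) (C.ref (nat_lit 238) (nat_lit 3281134215840528)) (C.cons (nat_lit 3331) (C.ref (nat_lit 238) (nat_lit 3281065496363808)) (C.cons (nat_lit 3265) (C.ref (nat_lit 238) (nat_lit 3280309597778448)) (C.cons (nat_lit 3233) (C.ref (nat_lit 238) (nat_lit 3280240879350288)) (C.cons (nat_lit 3217) (C.ref (nat_lit 238) (nat_lit 3280172159939088)) (C.cons (nat_lit 3209) (C.ref (nat_lit 238) (nat_lit 3280103440466448)) (C.cons (nat_lit 3205) (C.ref (nat_lit 238) (nat_lit 3280034720989968)) (C.cons (nat_lit 3203) (C.ref (nat_lit 238) (nat_lit 3279966001513248)) (C.cons (nat_lit 3169) (C.ref (nat_lit 238) (nat_lit 3279141368771088)) (C.cons (nat_lit 3153) (C.ref (nat_lit 238) (nat_lit 3279072649359888)) (C.cons (nat_lit 3145) (C.ref (nat_lit 238) (nat_lit 3279003929887248)) (C.cons (nat_lit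 3141)
  (C.ref (nat_lit 238) (nat_lit 3278935210410768)) (C.cons (nat_lit 3139) (C.ref (nat_lit 238) (nat_lit 3278866490934048)) (C.cons (nat_lit 3121) (C.ref (nat_lit 238) (nat_lit 3277973137797648)) (C.cons (nat_lit 3113) (C.ref (nat_lit 238) (nat_lit 3277904418325008)) (C.cons (nat_lit 3109) (C.ref (nat_lit 238) (nat_lit 3277835698848528)) (C.cons (nat_lit 3107) (C.ref (nat_lit 238) (nat_lit 3277766979371808)) (C.cons (nat_lit 3097) (C.ref (nat_lit 238) (nat_lit 3276804906701328)) (C.cons (nat_lit 3093) (C.ref (nat_lit 238) (nat_lit 3276736187224848)) (C.cons (nat_lit 3091) (C.ref (nat_lit 238) (nat_lit 3276667467748128)) (C.cons (nat_lit 3085) (C.ref (nat_lit 238) (nat_lit 3275636675597328)) (C.cons (nat_lit 3083) (C.ref (nat_lit 238) (nat_lit 3275567956120608)) (C.cons (nat_lit 3079) (C.ref (nat_lit 238) (nat_lit 3274468444492848)) (C.cons (nat_lit 2945) (C.ref (nat_lit 238) (nat_lit 3263885877719568)) (C.cons (nat_lit 2881) (C.ref (nat_lit 238) (nat_lit 3263817175020048))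 (C.cons (nat_lit 2849) (C.ref (nat_lit 238) (nat_lit 3263748456591888)) (C.cons (nat_lit 2833) (C.ref (nat_lit 238) (nat_lit 3263679737180688)) (C.cons (nat_lit 2825) (C.ref (nat_lit 238) (nat_lit 3263611017708048)) (C.cons (nat_lit 2821) (C.ref (nat_lit 238) (nat_lit 3263542298231568)) (C.cons (nat_lit 2819) (C.ref (nat_lit 238) (nat_lit 3263473578754848)) (C.cons (nat_lit 2753) (C.ref (nat_lit 238) (nat_lit 3262717680169488)) (C.cons (nat_lit 2721) (C.ref (nat_lit 238) (nat_lit 3262648961741328)) (C.cons (nat_lit 2705) (C.ref (nat_lit 238) (nat_lit 3262580242330128)) (C.cons (nat_lit 2697) (C.ref (nat_lit 238) (nat_lit 3262511522857488)) (C.cons (nat_lit 2693) (C.ref (nat_lit 238) (nat_lit 3262442803381008)) (C.cons (nat_lit 2691) (C.ref (nat_lit 238) (nat_lit 3262374083904288)) (C.cons (nat_lit 2657) (C.ref (nat_lit 238) (nat_lit 3261549451162128)) (C.cons (nat_lit 2641) (C.ref (nat_lit 238) (nat_lit 3261480731750928)) (C.cons (nat_lit 2633) (C.ref (nat_lit 238) (nat_lit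 3261412012278288)) (C.cons (nat_lit 2629) (C.ref (nat_lit 238) (nat_lit 3261343292801808)) (C.cons (nat_lit 2627) (C.ref (nat_lit 238) (nat_lit 3261274573325088)) (C.cons (nat_lit 2609) (C.ref (nat_lit 238) (nat_lit 3260381220188688)) (C.cons (nat_lit 2601) (C.ref (nat_lit 238) (nat_lit 3260312500716048)) (C.cons (nat_lit 2597) (C.ref (nat_lit 238) (nat_lit 3260243781239568)) (C.cons (nat_lit 2595) (C.ref (nat_lit 238) (nat_lit 3260175061762848)) (C.cons (nat_lit 2585) (C.ref (nat_lit 238) (nat_lit 3259212989092368)) (C.cons (nat_lit 2581) (C.ref (nat_lit 238) (nat_lit 3259144269615888)) (C.cons (nat_lit 2579) (C.ref (nat_lit 238) (nat_lit 3259075550139168)) (C.cons (nat_lit 2573) (C.ref (nat_lit 238) (nat_lit 3258044757988368)) (C.cons (nat_lit 2571) (C.ref (nat_lit 238) (nat_lit 3257976038511648)) (C.cons (nat_lit 2567) (C.ref (nat_lit 238) (nat_lit 3256876526883888)) (C.cons (nat_lit 2497) (C.ref (nat_lit 238) (nat_lit 3245125510902288)) (C.cons (nat_lit 2465) (C.ref (nat_lit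 238) (nat_lit 3245056792474128)) (C.cons (nat_lit 2449) (C.ref (nat_lit 238) (nat_lit 3244988073062928)) (C.cons (nat_lit 2441) (C.ref (nat_lit 238) (nat_lit 3244919353590288)) (C.cons (nat_lit 2437) (C.ref (nat_lit 238) (nat_lit 3244850634113808)) (C.cons (nat_lit 2435) (C.ref (nat_lit 238) (nat_lit 3244781914637088)) (C.cons (nat_lit 2401) (C.ref (nat_lit 238) (nat_lit 3243957281894928)) (C.cons (nat_lit 2385) (C.ref (nat_lit 238) (nat_lit 3243888562483728)) (C.cons (nat_lit 2377) (C.ref (nat_lit 238) (nat_lit 3243819843011088)) (C.cons (nat_lit 2373) (C.ref (nat_lit 238) (nat_lit 3243751123534608)) (C.cons (nat_lit 2371) (C.ref (nat_lit 238) (nat_lit 3243682404057888)) (C.cons (nat_lit 2353) (C.ref (nat_lit 238) (nat_lit 3242789050921488)) (C.cons (nat_lit 2345) (C.ref (nat_lit 238) (nat_lit 3242720331448848)) (C.cons (nat_lit 2341) (C.ref (nat_lit 238) (nat_lit 3242651611972368)) (C.cons (nat_lit 2339) (C.ref (nat_lit 238) (nat_lit 3242582892495648)) (C.cons (nat_lit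 2329)
  (C.ref (nat_lit 238) (nat_lit 3241620819825168)) (C.cons (nat_lit 2325) (C.ref (nat_lit 238) (nat_lit 3241552100348688)) (C.cons (nat_lit 2323) (C.ref (nat_lit 238) (nat_lit 3241483380871968)) (C.cons (nat_lit 2317) (C.ref (nat_lit 238) (nat_lit 3240452588721168)) (C.cons (nat_lit 2315) (C.ref (nat_lit 238) (nat_lit 3240383869244448)) (C.cons (nat_lit 2311) (C.ref (nat_lit 238) (nat_lit 3239284357616688)) (C.cons (nat_lit 2273) (C.ref (nat_lit 238) (nat_lit 3226365096899088)) (C.cons (nat_lit 2257) (C.ref (nat_lit 238) (nat_lit 3226296377487888)) (C.cons (nat_lit 2249) (C.ref (nat_lit 238) (nat_lit 3226227658015248)) (C.cons (nat_lit 2245) (C.ref (nat_lit 238) (nat_lit 3226158938538768)) (C.cons (nat_lit 2243) (C.ref (nat_lit 238) (nat_lit 3226090219062048)) (C.cons (nat_lit 2225) (C.ref (nat_lit 238) (nat_lit 3225196865925648)) (C.cons (nat_lit 2217) (C.ref (nat_lit 238) (nat_lit 3225128146453008)) (C.cons (nat_lit 2213) (C.ref (nat_lit 238) (nat_lit 3225059426976528))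 (C.cons (nat_lit 2211) (C.ref (nat_lit 238) (nat_lit 3224990707499808)) (C.cons (nat_lit 2201) (C.ref (nat_lit 238) (nat_lit 3224028634829328)) (C.cons (nat_lit 2197) (C.ref (nat_lit 238) (nat_lit 3223959915352848)) (C.cons (nat_lit 2195) (C.ref (nat_lit 238) (nat_lit 3223891195876128)) (C.cons (nat_lit 2189) (C.ref (nat_lit 238) (nat_lit 3222860403725328)) (C.cons (nat_lit 2187) (C.ref (nat_lit 238) (nat_lit 3222791684248608)) (C.cons (nat_lit 2183) (C.ref (nat_lit 238) (nat_lit 3221692172620848)) (C.cons (nat_lit 2161) (C.ref (nat_lit 238) (nat_lit 3207604679946768)) (C.cons (nat_lit 2153) (C.ref (nat_lit 238) (nat_lit 3207535960474128)) (C.cons (nat_lit 2149) (C.ref (nat_lit 238) (nat_lit 3207467240997648)) (C.cons (nat_lit 2147) (C.ref (nat_lit 238) (nat_lit 3207398521520928)) (C.cons (nat_lit 2137) (C.ref (nat_lit 238) (nat_lit 3206436448850448)) (C.cons (nat_lit 2133) (C.ref (nat_lit 238) (nat_lit 3206367729373968)) (C.cons (nat_lit 2131) (C.ref (nat_lit 238) (nat_lit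 3206299009897248)) (C.cons (nat_lit 2125) (C.ref (nat_lit 238) (nat_lit 3205268217746448)) (C.cons (nat_lit 2123) (C.ref (nat_lit 238) (nat_lit 3205199498269728)) (C.cons (nat_lit 2119) (C.ref (nat_lit 238) (nat_lit 3204099986641968)) (C.cons (nat_lit 2105) (C.ref (nat_lit 238) (nat_lit 3188844262810128)) (C.cons (nat_lit 2101) (C.ref (nat_lit 238) (nat_lit 3188775543333648)) (C.cons (nat_lit 2099) (C.ref (nat_lit 238) (nat_lit 3188706823856928)) (C.cons (nat_lit 2093) (C.ref (nat_lit 238) (nat_lit 3187676031706128)) (C.cons (nat_lit 2091) (C.ref (nat_lit 238) (nat_lit 3187607312229408)) (C.cons (nat_lit 2087) (C.ref (nat_lit 238) (nat_lit 3186507800601648)) (C.cons (nat_lit 2077) (C.ref (nat_lit 238) (nat_lit 3170083845661968)) (C.cons (nat_lit 2075) (C.ref (nat_lit 238) (nat_lit 3170015126185248)) (C.cons (nat_lit 2071) (C.ref (nat_lit 238) (nat_lit 3168915614557488)) (C.cons (nat_lit 2063) (C.ref (nat_lit 238) (nat_lit 3151323428513088)) (C.cons (nat_lit 1921) (C.ref (nat_lit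 238) (nat_lit 2982411169444368)) (C.cons (nat_lit 1857) (C.ref (nat_lit 238) (nat_lit 2982342466744848)) (C.cons (nat_lit 1825) (C.ref (nat_lit 238) (nat_lit 2982273748316688)) (C.cons (nat_lit 1809) (C.ref (nat_lit 238) (nat_lit 2982205028905488)) (C.cons (nat_lit 1801) (C.ref (nat_lit 238) (nat_lit 2982136309432848)) (C.cons (nat_lit 1797) (C.ref (nat_lit 238) (nat_lit 2982067589956368)) (C.cons (nat_lit 1795) (C.ref (nat_lit 238) (nat_lit 2981998870479648)) (C.cons (nat_lit 1729) (C.ref (nat_lit 238) (nat_lit 2981242971894288)) (C.cons (nat_lit 1697) (C.ref (nat_lit 238) (nat_lit 2981174253466128)) (C.cons (nat_lit 1681) (C.ref (nat_lit 238) (nat_lit 2981105534054928)) (C.cons (nat_lit 1673) (C.ref (nat_lit 238) (nat_lit 2981036814582288)) (C.cons (nat_lit 1669) (C.ref (nat_lit 238) (nat_lit 2980968095105808)) (C.cons (nat_lit 1667) (C.ref (nat_lit 238) (nat_lit 2980899375629088)) (C.cons (nat_lit 1633) (C.ref (nat_lit 238) (nat_lit 2980074742886928)) (C.cons (nat_lit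 1617)
  (C.ref (nat_lit 238) (nat_lit 2980006023475728)) (C.cons (nat_lit 1609) (C.ref (nat_lit 238) (nat_lit 2979937304003088)) (C.cons (nat_lit 1605) (C.ref (nat_lit 238) (nat_lit 2979868584526608)) (C.cons (nat_lit 1603) (C.ref (nat_lit 238) (nat_lit 2979799865049888)) (C.cons (nat_lit 1585) (C.ref (nat_lit 238) (nat_lit 2978906511913488)) (C.cons (nat_lit 1577) (C.ref (nat_lit 238) (nat_lit 2978837792440848)) (C.cons (nat_lit 1573) (C.ref (nat_lit 238) (nat_lit 2978769072964368)) (C.cons (nat_lit 1571) (C.ref (nat_lit 238) (nat_lit 2978700353487648)) (C.cons (nat_lit 1561) (C.ref (nat_lit 238) (nat_lit 2977738280817168)) (C.cons (nat_lit 1557) (C.ref (nat_lit 238) (nat_lit 2977669561340688)) (C.cons (nat_lit 1555) (C.ref (nat_lit 238) (nat_lit 2977600841863968)) (C.cons (nat_lit 1549) (C.ref (nat_lit 238) (nat_lit 2976570049713168)) (C.cons (nat_lit 1547) (C.ref (nat_lit 238) (nat_lit 2976501330236448)) (C.cons (nat_lit 1543) (C.ref (nat_lit 238) (nat_lit 2975401818608688))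 (C.cons (nat_lit 1473) (C.ref (nat_lit 238) (nat_lit 2963650802627088)) (C.cons (nat_lit 1441) (C.ref (nat_lit 238) (nat_lit 2963582084198928)) (C.cons (nat_lit 1425) (C.ref (nat_lit 238) (nat_lit 2963513364787728)) (C.cons (nat_lit 1417) (C.ref (nat_lit 238) (nat_lit 2963444645315088)) (C.cons (nat_lit 1413) (C.ref (nat_lit 238) (nat_lit 2963375925838608)) (C.cons (nat_lit 1411) (C.ref (nat_lit 238) (nat_lit 2963307206361888)) (C.cons (nat_lit 1377) (C.ref (nat_lit 238) (nat_lit 2962482573619728)) (C.cons (nat_lit 1361) (C.ref (nat_lit 238) (nat_lit 2962413854208528)) (C.cons (nat_lit 1353) (C.ref (nat_lit 238) (nat_lit 2962345134735888)) (C.cons (nat_lit 1349) (C.ref (nat_lit 238) (nat_lit 2962276415259408)) (C.cons (nat_lit 1347) (C.ref (nat_lit 238) (nat_lit 2962207695782688)) (C.cons (nat_lit 1329) (C.ref (nat_lit 238) (nat_lit 2961314342646288)) (C.cons (nat_lit 1321) (C.ref (nat_lit 238) (nat_lit 2961245623173648)) (C.cons (nat_lit 1317) (C.ref (nat_lit 238) (nat_lit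 2961176903697168)) (C.cons (nat_lit 1315) (C.ref (nat_lit 238) (nat_lit 2961108184220448)) (C.cons (nat_lit 1305) (C.ref (nat_lit 238) (nat_lit 2960146111549968)) (C.cons (nat_lit 1301) (C.ref (nat_lit 238) (nat_lit 2960077392073488)) (C.cons (nat_lit 1299) (C.ref (nat_lit 238) (nat_lit 2960008672596768)) (C.cons (nat_lit 1293) (C.ref (nat_lit 238) (nat_lit 2958977880445968)) (C.cons (nat_lit 1291) (C.ref (nat_lit 238) (nat_lit 2958909160969248)) (C.cons (nat_lit 1287) (C.ref (nat_lit 238) (nat_lit 2957809649341488)) (C.cons (nat_lit 1249) (C.ref (nat_lit 238) (nat_lit 2944890388623888)) (C.cons (nat_lit 1233) (C.ref (nat_lit 238) (nat_lit 2944821669212688)) (C.cons (nat_lit 1225) (C.ref (nat_lit 238) (nat_lit 2944752949740048)) (C.cons (nat_lit 1221) (C.ref (nat_lit 238) (nat_lit 2944684230263568)) (C.cons (nat_lit 1219) (C.ref (nat_lit 238) (nat_lit 2944615510786848)) (C.cons (nat_lit 1201) (C.ref (nat_lit 238) (nat_lit 2943722157650448)) (C.cons (nat_lit 1193) (C.ref (nat_lit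 238) (nat_lit 2943653438177808)) (C.cons (nat_lit 1189) (C.ref (nat_lit 238) (nat_lit 2943584718701328)) (C.cons (nat_lit 1187) (C.ref (nat_lit 238) (nat_lit 2943515999224608)) (C.cons (nat_lit 1177) (C.ref (nat_lit 238) (nat_lit 2942553926554128)) (C.cons (nat_lit 1173) (C.ref (nat_lit 238) (nat_lit 2942485207077648)) (C.cons (nat_lit 1171) (C.ref (nat_lit 238) (nat_lit 2942416487600928)) (C.cons (nat_lit 1165) (C.ref (nat_lit 238) (nat_lit 2941385695450128)) (C.cons (nat_lit 1163) (C.ref (nat_lit 238) (nat_lit 2941316975973408)) (C.cons (nat_lit 1159) (C.ref (nat_lit 238) (nat_lit 2940217464345648)) (C.cons (nat_lit 1137) (C.ref (nat_lit 238) (nat_lit 2926129971671568)) (C.cons (nat_lit 1129) (C.ref (nat_lit 238) (nat_lit 2926061252198928)) (C.cons (nat_lit 1125) (C.ref (nat_lit 238) (nat_lit 2925992532722448)) (C.cons (nat_lit 1123) (C.ref (nat_lit 238) (nat_lit 2925923813245728)) (C.cons (nat_lit 1113) (C.ref (nat_lit 238) (nat_lit 2924961740575248)) (C.cons (nat_lit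 1109)
  (C.ref (nat_lit 238) (nat_lit 2924893021098768)) (C.cons (nat_lit 1107) (C.ref (nat_lit 238) (nat_lit 2924824301622048)) (C.cons (nat_lit 1101) (C.ref (nat_lit 238) (nat_lit 2923793509471248)) (C.cons (nat_lit 1099) (C.ref (nat_lit 238) (nat_lit 2923724789994528)) (C.cons (nat_lit 1095) (C.ref (nat_lit 238) (nat_lit 2922625278366768)) (C.cons (nat_lit 1081) (C.ref (nat_lit 238) (nat_lit 2907369554534928)) (C.cons (nat_lit 1077) (C.ref (nat_lit 238) (nat_lit 2907300835058448)) (C.cons (nat_lit 1075) (C.ref (nat_lit 238) (nat_lit 2907232115581728)) (C.cons (nat_lit 1069) (C.ref (nat_lit 238) (nat_lit 2906201323430928)) (C.cons (nat_lit 1067) (C.ref (nat_lit 238) (nat_lit 2906132603954208)) (C.cons (nat_lit 1063) (C.ref (nat_lit 238) (nat_lit 2905033092326448)) (C.cons (nat_lit 1053) (C.ref (nat_lit 238) (nat_lit 2888609137386768)) (C.cons (nat_lit 1051) (C.ref (nat_lit 238) (nat_lit 2888540417910048)) (C.cons (nat_lit 1047) (C.ref (nat_lit 238) (nat_lit 2887440906282288))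 (C.cons (nat_lit 1039) (C.ref (nat_lit 238) (nat_lit 2869848720237888)) (C.cons (nat_lit 961) (C.ref (nat_lit 238) (nat_lit 2682175842693648)) (C.cons (nat_lit 929) (C.ref (nat_lit 238) (nat_lit 2682107124265488)) (C.cons (nat_lit 913) (C.ref (nat_lit 238) (nat_lit 2682038404854288)) (C.cons (nat_lit 905) (C.ref (nat_lit 238) (nat_lit 2681969685381648)) (C.cons (nat_lit 901) (C.ref (nat_lit 238) (nat_lit 2681900965905168)) (C.cons (nat_lit 899) (C.ref (nat_lit 238) (nat_lit 2681832246428448)) (C.cons (nat_lit 865) (C.ref (nat_lit 238) (nat_lit 2681007613686288)) (C.cons (nat_lit 849) (C.ref (nat_lit 238) (nat_lit 2680938894275088)) (C.cons (nat_lit 841) (C.ref (nat_lit 238) (nat_lit 2680870174802448)) (C.cons (nat_lit 837) (C.ref (nat_lit 238) (nat_lit 2680801455325968)) (C.cons (nat_lit 835) (C.ref (nat_lit 238) (nat_lit 2680732735849248)) (C.cons (nat_lit 817) (C.ref (nat_lit 238) (nat_lit 2679839382712848)) (C.cons (nat_lit 809) (C.ref (nat_lit 238) (nat_lit 2679770663240208))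 (C.cons (nat_lit 805) (C.ref (nat_lit 238) (nat_lit 2679701943763728)) (C.cons (nat_lit 803) (C.ref (nat_lit 238) (nat_lit 2679633224287008)) (C.cons (nat_lit 793) (C.ref (nat_lit 238) (nat_lit 2678671151616528)) (C.cons (nat_lit 789) (C.ref (nat_lit 238) (nat_lit 2678602432140048)) (C.cons (nat_lit 787) (C.ref (nat_lit 238) (nat_lit 2678533712663328)) (C.cons (nat_lit 781) (C.ref (nat_lit 238) (nat_lit 2677502920512528)) (C.cons (nat_lit 779) (C.ref (nat_lit 238) (nat_lit 2677434201035808)) (C.cons (nat_lit 775) (C.ref (nat_lit 238) (nat_lit 2676334689408048)) (C.cons (nat_lit 737) (C.ref (nat_lit 238) (nat_lit 2663415428690448)) (C.cons (nat_lit 721) (C.ref (nat_lit 238) (nat_lit 2663346709279248)) (C.cons (nat_lit 713) (C.ref (nat_lit 238) (nat_lit 2663277989806608)) (C.cons (nat_lit 709) (C.ref (nat_lit 238) (nat_lit 2663209270330128)) (C.cons (nat_lit 707) (C.ref (nat_lit 238) (nat_lit 2663140550853408)) (C.cons (nat_lit 689) (C.ref (nat_lit 238) (nat_lit 2662247197717008))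 (C.cons (nat_lit 681) (C.ref (nat_lit 238) (nat_lit 2662178478244368)) (C.cons (nat_lit 677) (C.ref (nat_lit 238) (nat_lit 2662109758767888)) (C.cons (nat_lit 675) (C.ref (nat_lit 238) (nat_lit 2662041039291168)) (C.cons (nat_lit 665) (C.ref (nat_lit 238) (nat_lit 2661078966620688)) (C.cons (nat_lit 661) (C.ref (nat_lit 238) (nat_lit 2661010247144208)) (C.cons (nat_lit 659) (C.ref (nat_lit 238) (nat_lit 2660941527667488)) (C.cons (nat_lit 653) (C.ref (nat_lit 238) (nat_lit 2659910735516688)) (C.cons (nat_lit 651) (C.ref (nat_lit 238) (nat_lit 2659842016039968)) (C.cons (nat_lit 647) (C.ref (nat_lit 238) (nat_lit 2658742504412208)) (C.cons (nat_lit 625) (C.ref (nat_lit 238) (nat_lit 2644655011738128)) (C.cons (nat_lit 617) (C.ref (nat_lit 238) (nat_lit 2644586292265488)) (C.cons (nat_lit 613) (C.ref (nat_lit 238) (nat_lit 2644517572789008)) (C.cons (nat_lit 611) (C.ref (nat_lit 238) (nat_lit 2644448853312288)) (C.cons (nat_lit 601) (C.ref (nat_lit 238) (nat_lit 2643486780641808))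 (C.cons (nat_lit 597)
  (C.ref (nat_lit 238) (nat_lit 2643418061165328)) (C.cons (nat_lit 595) (C.ref (nat_lit 238) (nat_lit 2643349341688608)) (C.cons (nat_lit 589) (C.ref (nat_lit 238) (nat_lit 2642318549537808)) (C.cons (nat_lit 587) (C.ref (nat_lit 238) (nat_lit 2642249830061088)) (C.cons (nat_lit 583) (C.ref (nat_lit 238) (nat_lit 2641150318433328)) (C.cons (nat_lit 569) (C.ref (nat_lit 238) (nat_lit 2625894594601488)) (C.cons (nat_lit 565) (C.ref (nat_lit 238) (nat_lit 2625825875125008)) (C.cons (nat_lit 563) (C.ref (nat_lit 238) (nat_lit 2625757155648288)) (C.cons (nat_lit 557) (C.ref (nat_lit 238) (nat_lit 2624726363497488)) (C.cons (nat_lit 555) (C.ref (nat_lit 238) (nat_lit 2624657644020768)) (C.cons (nat_lit 551) (C.ref (nat_lit 238) (nat_lit 2623558132393008)) (C.cons (nat_lit 541) (C.ref (nat_lit 238) (nat_lit 2607134177453328)) (C.cons (nat_lit 539) (C.ref (nat_lit 238) (nat_lit 2607065457976608)) (C.cons (nat_lit 535) (C.ref (nat_lit 238) (nat_lit 2605965946348848))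 (C.cons (nat_lit 527) (C.ref (nat_lit 238) (nat_lit 2588373760304448)) (C.cons (nat_lit 481) (C.ref (nat_lit 238) (nat_lit 2381940453028368)) (C.cons (nat_lit 465) (C.ref (nat_lit 238) (nat_lit 2381871733617168)) (C.cons (nat_lit 457) (C.ref (nat_lit 238) (nat_lit 2381803014144528)) (C.cons (nat_lit 453) (C.ref (nat_lit 238) (nat_lit 2381734294668048)) (C.cons (nat_lit 451) (C.ref (nat_lit 238) (nat_lit 2381665575191328)) (C.cons (nat_lit 433) (C.ref (nat_lit 238) (nat_lit 2380772222054928)) (C.cons (nat_lit 425) (C.ref (nat_lit 238) (nat_lit 2380703502582288)) (C.cons (nat_lit 421) (C.ref (nat_lit 238) (nat_lit 2380634783105808)) (C.cons (nat_lit 419) (C.ref (nat_lit 238) (nat_lit 2380566063629088)) (C.cons (nat_lit 409) (C.ref (nat_lit 238) (nat_lit 2379603990958608)) (C.cons (nat_lit 405) (C.ref (nat_lit 238) (nat_lit 2379535271482128)) (C.cons (nat_lit 403) (C.ref (nat_lit 238) (nat_lit 2379466552005408)) (C.cons (nat_lit 397) (C.ref (nat_lit 238) (nat_lit 2378435759854608))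 (C.cons (nat_lit 395) (C.ref (nat_lit 238) (nat_lit 2378367040377888)) (C.cons (nat_lit 391) (C.ref (nat_lit 238) (nat_lit 2377267528750128)) (C.cons (nat_lit 369) (C.ref (nat_lit 238) (nat_lit 2363180036076048)) (C.cons (nat_lit 361) (C.ref (nat_lit 238) (nat_lit 2363111316603408)) (C.cons (nat_lit 357) (C.ref (nat_lit 238) (nat_lit 2363042597126928)) (C.cons (nat_lit 355) (C.ref (nat_lit 238) (nat_lit 2362973877650208)) (C.cons (nat_lit 345) (C.ref (nat_lit 238) (nat_lit 2362011804979728)) (C.cons (nat_lit 341) (C.ref (nat_lit 238) (nat_lit 2361943085503248)) (C.cons (nat_lit 339) (C.ref (nat_lit 238) (nat_lit 2361874366026528)) (C.cons (nat_lit 333) (C.ref (nat_lit 238) (nat_lit 2360843573875728)) (C.cons (nat_lit 331) (C.ref (nat_lit 238) (nat_lit 2360774854399008)) (C.cons (nat_lit 327) (C.ref (nat_lit 238) (nat_lit 2359675342771248)) (C.cons (nat_lit 313) (C.ref (nat_lit 238) (nat_lit 2344419618939408)) (C.cons (nat_lit 309) (C.ref (nat_lit 238) (nat_lit 2344350899462928))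 (C.cons (nat_lit 307) (C.ref (nat_lit 238) (nat_lit 2344282179986208)) (C.cons (nat_lit 301) (C.ref (nat_lit 238) (nat_lit 2343251387835408)) (C.cons (nat_lit 299) (C.ref (nat_lit 238) (nat_lit 2343182668358688)) (C.cons (nat_lit 295) (C.ref (nat_lit 238) (nat_lit 2342083156730928)) (C.cons (nat_lit 285) (C.ref (nat_lit 238) (nat_lit 2325659201791248)) (C.cons (nat_lit 283) (C.ref (nat_lit 238) (nat_lit 2325590482314528)) (C.cons (nat_lit 279) (C.ref (nat_lit 238) (nat_lit 2324490970686768)) (C.cons (nat_lit 271) (C.ref (nat_lit 238) (nat_lit 2306898784642368)) (C.cons (nat_lit 241) (C.ref (nat_lit 238) (nat_lit 2081705059430928)) (C.cons (nat_lit 233) (C.ref (nat_lit 238) (nat_lit 2081636339958288)) (C.cons (nat_lit 229) (C.ref (nat_lit 238) (nat_lit 2081567620481808)) (C.cons (nat_lit 227) (C.ref (nat_lit 238) (nat_lit 2081498901005088)) (C.cons (nat_lit 217) (C.ref (nat_lit 238) (nat_lit 2080536828334608)) (C.cons (nat_lit 213) (C.ref (nat_lit 238) (nat_lit 2080468108858128))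 (C.cons (nat_lit 211)
  (C.ref (nat_lit 238) (nat_lit 2080399389381408)) (C.cons (nat_lit 205) (C.ref (nat_lit 238) (nat_lit 2079368597230608)) (C.cons (nat_lit 203) (C.ref (nat_lit 238) (nat_lit 2079299877753888)) (C.cons (nat_lit 199) (C.ref (nat_lit 238) (nat_lit 2078200366126128)) (C.cons (nat_lit 185) (C.ref (nat_lit 238) (nat_lit 2062944642294288)) (C.cons (nat_lit 181) (C.ref (nat_lit 238) (nat_lit 2062875922817808)) (C.cons (nat_lit 179) (C.ref (nat_lit 238) (nat_lit 2062807203341088)) (C.cons (nat_lit 173) (C.ref (nat_lit 238) (nat_lit 2061776411190288)) (C.cons (nat_lit 171) (C.ref (nat_lit 238) (nat_lit 2061707691713568)) (C.cons (nat_lit 167) (C.ref (nat_lit 238) (nat_lit 2060608180085808)) (C.cons (nat_lit 157) (C.ref (nat_lit 238) (nat_lit 2044184225146128)) (C.cons (nat_lit 155) (C.ref (nat_lit 238) (nat_lit 2044115505669408)) (C.cons (nat_lit 151) (C.ref (nat_lit 238) (nat_lit 2043015994041648)) (C.cons (nat_lit 143) (C.ref (nat_lit 238) (nat_lit 2025423807997248))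 (C.cons (nat_lit 121) (C.ref (nat_lit 238) (nat_lit 1781469665587728)) (C.cons (nat_lit 117) (C.ref (nat_lit 238) (nat_lit 1781400946111248)) (C.cons (nat_lit 115) (C.ref (nat_lit 238) (nat_lit 1781332226634528)) (C.cons (nat_lit 109) (C.ref (nat_lit 238) (nat_lit 1780301434483728)) (C.cons (nat_lit 107) (C.ref (nat_lit 238) (nat_lit 1780232715007008)) (C.cons (nat_lit 103) (C.ref (nat_lit 238) (nat_lit 1779133203379248)) (C.cons (nat_lit 93) (C.ref (nat_lit 238) (nat_lit 1762709248439568)) (C.cons (nat_lit 91) (C.ref (nat_lit 238) (nat_lit 1762640528962848)) (C.cons (nat_lit 87) (C.ref (nat_lit 238) (nat_lit 1761541017335088)) (C.cons (nat_lit 79) (C.ref (nat_lit 238) (nat_lit 1743948831290688)) (C.cons (nat_lit 61) (C.ref (nat_lit 238) (nat_lit 1481234271729168)) (C.cons (nat_lit 59) (C.ref (nat_lit 238) (nat_lit 1481165552252448)) (C.cons (nat_lit 55) (C.ref (nat_lit 238) (nat_lit 1480066040624688)) (C.cons (nat_lit 47) (C.ref (nat_lit 238) (nat_lit 1462473854580288))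 (C.cons (nat_lit 31) (C.ref (nat_lit 238) (nat_lit 1180998877869648)) C.nil))))))))))))))))))))))))))))))))))))))))))))))))))))))))))))))))))))))))))))))))))))))))))))))))))))))))))))))))))))))))))))))))))))))))))))))))))))))))))))))))))))))))))))))))))))))))))))))))))))))))))))))))))))))))))))))))))))))))))))))))))))))))))))))))))))))))))))))))))))))))))))))))))))))))))))))))))))))))))))))))))))))))))))))))))))))))))))))))))))))))))))))))))))))))))))))))))))))))))))))))))))))))))))))))))))))))))))))))))))))))))))))))))))))))))))))))))))))))))))))))))))))))))))))) C.nil)) List.nil)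

theorem ok13_239 : okL par13 (nat_lit 240) c13_239 (nat_lit 239) = true := by decide +kernel


end Pool.Agent.MP_1f1ca1_co
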