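import Pool.Agent.Mg.F1f1ca1.G5b5a76

section

set_option autoImplicit false
set_option maxRecDepth 1000000
set_option maxHeartbeats 0

namespace Pool.Agent.MP_1f1ca1_co

noncomputable def c12_283 : List C :=
  (List.cons (C.node (nat_lit 4) (nat_lit 9) (nat_lit 11) (C.cons (nat_lit 2578) (C.node (nat_lit 6) (nat_lit 9) (nat_lit 11) (C.cons (nat_lit 2632) (C.miq (nat_lit 916495169) (nat_lit 1321365569226795914565454354)) (C.cons (nat_lit 2628) (C.miq (nat_lit 1958283874) (nat_lit 3116622661446062290690638917)) (C.cons (nat_lit 2624) (C.node (nat_lit 2) (nat_lit 9) (nat_lit 11) (C.cons (nat_lit 2596) (C.node (nat_lit 2) (nat_lit 10) (nat_lit 11) (C.cons (nat_lit 3204) (C.miq (nat_lit 1537512048) (nat_lit 3810544532779459310425145989)) (C.cons (nat_lit 3078) (C.miq (nat_lit 2226194082) (nat_lit 3116615614555076003094725701)) (C.cons (nat_lit 3076) (C.node (nat_lit 1) (nat_lit 2) (nat_lit 4) (C.cons (nat_lit 118) (C.miq (nat_lit 2336295522) (nat_lit 3116615615541364321294877765))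 (C.cons (nat_lit 86) (C.miq (nat_lit 2336295522) (nat_lit 3116615615541364321292780613)) (C.cons (nat_lit 54) (C.miq (nat_lit 447889557) (nat_lit 3718656817588403016579678769)) (C.cons (nat_lit 22) (C.node (nat_lit 3) (nat_lit 9) (nat_lit 11) (C.cons (nat_lit 2696) (C.node (nat_lit 7) (nat_lit 10) (nat_lit 11) (C.cons (nat_lit 3200) (C.node (nat_lit 3) (nat_lit 10) (nat_lit 11) (C.cons (nat_lit 3082) (C.miq (nat_lit 999661888) (nat_lit 3138391074369532788894401683)) (C.cons (nat_lit 3080) (C.node (nat_lit 2) (nat_lit 7) (nat_lit 11) (C.cons (nat_lit 2436) (C.miq (nat_lit 730957616) (nat_lit 3116615615145890020537860489)) (C.cons (nat_lit 2182) (C.miq (nat_lit 2484228219) (nat_lit 26644255937049683323914465)) (C.cons (nat_lit 2180) (C.node (nat_lit 2) (nat_lit 8) (nat_lit 11) (C.cons (nat_lit 2372) (C.miq (nat_lit 1645525002) (nat_lit 26654512836501948761050881)) (C.cons (nat_lit 2308) (C.node (nat_lit 7) (nat_lit 9) (nat_lit 10) (C.cons (nat_lit 1728)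 (C.miq (nat_lit 694880164) (nat_lit 3172259664737786831056143507)) (C.cons (nat_lit 1696) (C.miq (nat_lit 1531613703) (nat_lit 3810565469833978130338087557)) (C.cons (nat_lit 1664) (C.node (nat_lit 5) (nat_lit 7) (nat_lit 9) (C.cons (nat_lit 930) (C.miq (nat_lit 873925528) (nat_lit 1415659384923786330549391105)) (C.cons (nat_lit 928) (C.miq (nat_lit 629193075) (nat_lit 349417876486781951525063304)) (C.cons (nat_lit 674) (C.miq (nat_lit 689223024) (nat_lit 3116649077584667041556793569)) (C.cons (nat_lit 672) (C.node (nat_lit 3) (nat_lit 8) (nat_lit 11) (C.cons (nat_lit 2378) (C.miq (nat_lit 462586736) (nat_lit 3138376279882627797041349001)) (C.cons (nat_lit 2376) (C.miq (nat_lit 1000834624) (nat_lit 3868569873006032409391726929)) (C.cons (nat_lit 2346) (C.miq (nat_lit 2241280800) (nat_lit 812405401011803218396907549)) (C.cons (nat_lit 2344) (C.miq (nat_lit 2241280800) (nat_lit 812405401011240268443486237)) (C.cons (nat_lit 2314) (C.miq (nat_lit 462586736)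 (nat_lit 3138376279864613398531867017)) (C.cons (nat_lit 2312) (C.node (nat_lit 1) (nat_lit 2) (nat_lit 11) (C.cons (nat_lit 2118) (C.node (nat_lit 3) (nat_lit 6) (nat_lit 11) (C.cons (nat_lit 2120) (C.node (nat_lit 6) (nat_lit 8) (nat_lit 11) (C.cons (nat_lit 2368) (C.node (nat_lit 1) (nat_lit 3) (nat_lit 11) (C.cons (nat_lit 2058) (C.node (nat_lit 3) (nat_lit 5) (nat_lit 11) C.nil) C.nil)) C.nil)) C.nil)) (C.cons (nat_lit 2054) (C.node (nat_lit 2) (nat_lit 6) (nat_lit 11) (C.cons (nat_lit 2116) (C.node (nat_lit 1) (nat_lit 7) (nat_lit 11) (C.cons (nat_lit 2434) (C.node (nat_lit 6) (nat_lit 8) (nat_lit 11) (C.cons (nat_lit 2368) (C.node (nat_lit 1) (nat_lit 6) (nat_lit 11) C.nil) C.nil)) (C.cons (nat_lit 2178) (C.node (nat_lit 7) (nat_lit 8) (nat_lit 11) C.nil) C.nil))) C.nil)) C.nil))) C.nil))))))) C.nil))))) C.nil)))) C.nil))) C.nil)))) C.nil))) C.nil)) (C.cons (nat_lit 2568) (C.node (nat_lit 7) (nat_lit 9) (nat_lit 11) (C.cons (nat_lit 2688) (C.node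 (nat_lit 4) (nat_lit 5) (nat_lit 11) (C.cons (nat_lit 2352) (C.node (nat_lit 2) (nat_lit 7) (nat_lit 11) (C.cons (nat_lit 2436) (C.miq (nat_lit 2215097746) (nat_lit 1415697071699325874791057956)) (C.cons (nat_lit 2182) (C.miq (nat_lit 2484228219) (nat_lit 26644255937049683323914465)) (C.cons (nat_lit 2180)
  (C.node (nat_lit 2) (nat_lit 8) (nat_lit 11) (C.cons (nat_lit 2372) (C.miq (nat_lit 1645525002) (nat_lit 26654512836501948761050881)) (C.cons (nat_lit 2308) (C.node (nat_lit 1) (nat_lit 2) (nat_lit 11) (C.cons (nat_lit 2118) (C.node (nat_lit 1) (nat_lit 2) (nat_lit 9) (C.cons (nat_lit 1542) (C.node (nat_lit 3) (nat_lit 5) (nat_lit 11) (C.cons (nat_lit 2090) (C.miq (nat_lit 975261803) (nat_lit 1864202167840647785094711521)) (C.cons (nat_lit 2088) (C.node (nat_lit 1) (nat_lit 2) (nat_lit 5) (C.cons (nat_lit 174) (C.miq (nat_lit 2337474855) (nat_lit 2524244362006923219932414597)) (C.cons (nat_lit 166) (C.node (nat_lit 1) (nat_lit 2) (nat_lit 3) (C.cons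 (nat_lit 14) (C.node (nat_lit 1) (nat_lit 5) (nat_lit 11) (C.cons (nat_lit 3106) (C.node (nat_lit 7) (nat_lit 8) (nat_lit 11) (C.cons (nat_lit 2434) (C.miq (nat_lit 890702520) (nat_lit 200688935926233601379798785)) (C.cons (nat_lit 2432) (C.node (nat_lit 1) (nat_lit 8) (nat_lit 11) (C.cons (nat_lit 2314) (C.miq (nat_lit 2231612561) (nat_lit 1287548684317398189698910738)) C.nil)) C.nil))) (C.cons (nat_lit 2082) (C.miq (nat_lit 2874214695) (nat_lit 2517005158656124790914810501)) C.nil))) C.nil)) (C.cons (nat_lit 46) (C.miq (nat_lit 1965099930) (nat_lit 55632189479387027820908289)) (C.cons (nat_lit 38) (C.miq (nat_lit 1965099930) (nat_lit 45960782922469994423258881)) C.nil))))) C.nil))) (C.cons (nat_lit 518) (C.node (nat_lit 1) (nat_lit 9) (nat_lit 10) (C.cons (nat_lit 1634) (C.miq (nat_lit 1096989088) (nat_lit 2560543200556875194774654721)) (C.cons (nat_lit 1602) (C.miq (nat_lit 1096989088) (nat_lit 2560543200556875057335701249)) (C.cons (nat_lit 1570)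 (C.miq (nat_lit 1363319307) (nat_lit 26644256221057934818086657)) (C.cons (nat_lit 1538) (C.node (nat_lit 1) (nat_lit 4) (nat_lit 8) (C.cons (nat_lit 282) (C.node (nat_lit 4) (nat_lit 8) (nat_lit 10) (C.cons (nat_lit 1300) (C.miq (nat_lit 1344845476) (nat_lit 317990877940506154360900688)) (C.cons (nat_lit 1296) (C.node (nat_lit 7) (nat_lit 10) (nat_lit 11) (C.cons (nat_lit 3208) (C.miq (nat_lit 977828704) (nat_lit 1566775112693965641319778529)) (C.cons (nat_lit 3200) (C.node (nat_lit 3) (nat_lit 6) (nat_lit 11) (C.cons (nat_lit 2376) (C.miq (nat_lit 1000834624) (nat_lit 3868569873006032409391726929)) (C.cons (nat_lit 2120) (C.node (nat_lit 3) (nat_lit 8) (nat_lit 11) (C.cons (nat_lit 2312) (C.node (nat_lit 6) (nat_lit 8) (nat_lit 11) (C.cons (nat_lit 2368) (C.node (nat_lit 1) (nat_lit 8) (nat_lit 11) C.nil) C.nil)) C.nil)) C.nil))) C.nil))) C.nil))) (C.cons (nat_lit 274) (C.node (nat_lit 1) (nat_lit 3) (nat_lit 4) (C.cons (nat_lit 122) (C.miq (nat_lit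 1637499659) (nat_lit 1859386054738962196883114013)) (C.cons (nat_lit 90) (C.miq (nat_lit 1637499659) (nat_lit 1859386054729954997628373021)) (C.cons (nat_lit 58) (C.miq (nat_lit 1519464628) (nat_lit 1859328980778243293187278877)) (C.cons (nat_lit 26) (C.node (nat_lit 1) (nat_lit 5) (nat_lit 9) (C.cons (nat_lit 930) (C.miq (nat_lit 873925528) (nat_lit 1415659384923786330549391105)) (C.cons (nat_lit 866) (C.miq (nat_lit 1362397451) (nat_lit 31475458295801299643207425)) (C.cons (nat_lit 802) (C.miq (nat_lit 1362397451) (nat_lit 31475458277786901133725441)) (C.cons (nat_lit 674) (C.miq (nat_lit 689223024) (nat_lit 3116649077584667041556793569)) (C.cons (nat_lit 610) (C.miq (nat_lit 563394128) (nat_lit 3116649077450121727771216097)) (C.cons (nat_lit 546) (C.node (nat_lit 1) (nat_lit 4) (nat_lit 5) (C.cons (nat_lit 114) (C.node (nat_lit 3) (nat_lit 5) (nat_lit 11) (C.cons (nat_lit 2090) (C.miq (nat_lit 2769683378) (nat_lit 137837706027120117273724957)) (C.cons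 (nat_lit 2088) (C.node (nat_lit 1) (nat_lit 5) (nat_lit 11) (C.cons (nat_lit 3106) (C.miq (nat_lit 2705896800) (nat_lit 331316529392657279568906465)) (C.cons (nat_lit 2082) (C.node (nat_lit 1) (nat_lit 10) (nat_lit 11) C.nil) C.nil))) C.nil))) (C.cons (nat_lit 50) (C.node (nat_lit 1) (nat_lit 4) (nat_lit 6) (C.cons (nat_lit 82) (C.node (nat_lit 3) (nat_lit 5) (nat_lit 11) (C.cons (nat_lit 2090)
  (C.node (nat_lit 1) (nat_lit 10) (nat_lit 11) (C.cons (nat_lit 3074) (C.node (nat_lit 5) (nat_lit 10) (nat_lit 11) C.nil) C.nil)) (C.cons (nat_lit 2088) (C.node (nat_lit 1) (nat_lit 5) (nat_lit 11) (C.cons (nat_lit 3106) (C.node (nat_lit 3) (nat_lit 6) (nat_lit 11) C.nil) (C.cons (nat_lit 2082) (C.node (nat_lit 5) (nat_lit 10) (nat_lit 11) C.nil) C.nil))) C.nil))) C.nil)) C.nil))) C.nil))))))) C.nil))))) C.nil))) C.nil))))) C.nil))) (C.cons (nat_lit 2054) (C.node (nat_lit 2) (nat_lit 6) (nat_lit 11) (C.cons (nat_lit 2116) (C.node (nat_lit 1) (nat_lit 4) (nat_lit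 8) (C.cons (nat_lit 282) (C.node (nat_lit 4) (nat_lit 8) (nat_lit 10) (C.cons (nat_lit 1300) (C.miq (nat_lit 1344845476) (nat_lit 317990877940506154360900688)) (C.cons (nat_lit 1296) (C.node (nat_lit 7) (nat_lit 10) (nat_lit 11) (C.cons (nat_lit 3208) (C.miq (nat_lit 977828704) (nat_lit 1566775112693965641319778529)) (C.cons (nat_lit 3200) (C.node (nat_lit 3) (nat_lit 7) (nat_lit 11) (C.cons (nat_lit 2186) (C.miq (nat_lit 1679493175) (nat_lit 3116652692510651832678875529)) (C.cons (nat_lit 2184) (C.node (nat_lit 3) (nat_lit 8) (nat_lit 11) (C.cons (nat_lit 2376) (C.miq (nat_lit 1000834624) (nat_lit 3868569873006032409391726929)) C.nil)) C.nil))) C.nil))) C.nil))) (C.cons (nat_lit 274) (C.node (nat_lit 1) (nat_lit 3) (nat_lit 4) (C.cons (nat_lit 122) (C.miq (nat_lit 968233124) (nat_lit 3172223601318791856989930643)) (C.cons (nat_lit 90) (C.miq (nat_lit 968233124) (nat_lit 3172223011022981498284278931)) (C.cons (nat_lit 58) (C.miq (nat_lit 2873428243) (nat_lit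 2843413174597202777556517387)) (C.cons (nat_lit 26) (C.node (nat_lit 1) (nat_lit 4) (nat_lit 5) (C.cons (nat_lit 114) (C.node (nat_lit 5) (nat_lit 10) (nat_lit 11) (C.cons (nat_lit 3106) (C.miq (nat_lit 2705896800) (nat_lit 331316529392657279568906465)) (C.cons (nat_lit 3104) (C.node (nat_lit 1) (nat_lit 10) (nat_lit 11) (C.cons (nat_lit 3082) (C.miq (nat_lit 826649488) (nat_lit 137837190086023177273675521)) (C.cons (nat_lit 3074) (C.node (nat_lit 1) (nat_lit 5) (nat_lit 11) (C.cons (nat_lit 2090) (C.node (nat_lit 1) (nat_lit 6) (nat_lit 11) C.nil) C.nil)) C.nil))) C.nil))) (C.cons (nat_lit 50) (C.node (nat_lit 1) (nat_lit 4) (nat_lit 6) (C.cons (nat_lit 82) (C.node (nat_lit 3) (nat_lit 5) (nat_lit 11) (C.cons (nat_lit 2090) (C.node (nat_lit 1) (nat_lit 10) (nat_lit 11) (C.cons (nat_lit 3074) (C.node (nat_lit 5) (nat_lit 10) (nat_lit 11) (C.cons (nat_lit 3104) (C.node (nat_lit 1) (nat_lit 6) (nat_lit 11) C.nil) C.nil)) C.nil)) (C.cons (nat_lit 2088) (C.node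 (nat_lit 1) (nat_lit 5) (nat_lit 11) (C.cons (nat_lit 3106) (C.node (nat_lit 3) (nat_lit 10) (nat_lit 11) (C.cons (nat_lit 3080) (C.node (nat_lit 7) (nat_lit 10) (nat_lit 11) C.nil) C.nil)) (C.cons (nat_lit 2082) (C.node (nat_lit 5) (nat_lit 10) (nat_lit 11) C.nil) C.nil))) C.nil))) C.nil)) C.nil))) C.nil))))) C.nil))) C.nil)) C.nil))) C.nil))) C.nil)))) (C.cons (nat_lit 2096) (C.node (nat_lit 4) (nat_lit 8) (nat_lit 11) (C.cons (nat_lit 2320) (C.node (nat_lit 5) (nat_lit 10) (nat_lit 11) (C.cons (nat_lit 3106) (C.node (nat_lit 1) (nat_lit 4) (nat_lit 6) (C.cons (nat_lit 122) (C.miq (nat_lit 2316569430) (nat_lit 1415658352402642329421875425)) (C.cons (nat_lit 114) (C.miq (nat_lit 2316569430) (nat_lit 1415658352402642329421351137)) (C.cons (nat_lit 90) (C.miq (nat_lit 968233124) (nat_lit 3172223011022981498284278931)) (C.cons (nat_lit 82) (C.node (nat_lit 3) (nat_lit 5) (nat_lit 11) (C.cons (nat_lit 2344) (C.node (nat_lit 3) (nat_lit 10) (nat_lit 11) (C.cons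 (nat_lit 3208) (C.miq (nat_lit 1748713594) (nat_lit 2833780265408869873301849235)) (C.cons (nat_lit 3080) (C.node (nat_lit 7) (nat_lit 10) (nat_lit 11) (C.cons (nat_lit 3200) (C.node (nat_lit 3) (nat_lit 7) (nat_lit 11) (C.cons (nat_lit 2186) (C.miq (nat_lit 1399961610) (nat_lit 2642769137924451351183691521)) (C.cons (nat_lit 2184) (C.node (nat_lit 1) (nat_lit 7) (nat_lit 11) (C.cons (nat_lit 2178) (C.miq (nat_lit 2266706085) (nat_lit 2633083674399395813156586537)) C.nil)) C.nil))) C.nil)) C.nil)))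
  (C.cons (nat_lit 2088) (C.node (nat_lit 5) (nat_lit 8) (nat_lit 11) (C.cons (nat_lit 2336) (C.node (nat_lit 1) (nat_lit 2) (nat_lit 5) (C.cons (nat_lit 174) (C.miq (nat_lit 2337475095) (nat_lit 2524244362006925410365736083)) (C.cons (nat_lit 166) (C.node (nat_lit 1) (nat_lit 2) (nat_lit 9) (C.cons (nat_lit 1542) (C.node (nat_lit 1) (nat_lit 8) (nat_lit 10) (C.cons (nat_lit 1354) (C.miq (nat_lit 924942490) (nat_lit 200706663058126681936367361)) (C.cons (nat_lit 1346) (C.miq (nat_lit 610339752) (nat_lit 99136769286728042391146241)) (C.cons (nat_lit 1290) (C.miq (nat_lit 924942490) (nat_lit 200705482466505964525063937)) (C.cons (nat_lit 1282) (C.node (nat_lit 7) (nat_lit 9) (nat_lit 10) (C.cons (nat_lit 1736) (C.miq (nat_lit 1251128944) (nat_lit 1864201928620415864833116385)) (C.cons (nat_lit 1728) (C.miq (nat_lit 1251128944) (nat_lit 1864201928620415830473378017)) (C.cons (nat_lit 1696) (C.miq (nat_lit 1113000858) (nat_lit 200703287777973433360453377))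 (C.cons (nat_lit 1672) (C.miq (nat_lit 974682400) (nat_lit 1549850150787008353744126597)) (C.cons (nat_lit 1664) (C.node (nat_lit 1) (nat_lit 2) (nat_lit 3) (C.cons (nat_lit 78) (C.node (nat_lit 1) (nat_lit 2) (nat_lit 11) (C.cons (nat_lit 2054) (C.node (nat_lit 1) (nat_lit 3) (nat_lit 10) (C.cons (nat_lit 1034) (C.node (nat_lit 1) (nat_lit 6) (nat_lit 10) (C.cons (nat_lit 1090) (C.node (nat_lit 1) (nat_lit 3) (nat_lit 7) (C.cons (nat_lit 2186) (C.node (nat_lit 1) (nat_lit 6) (nat_lit 11) C.nil) C.nil)) C.nil)) C.nil)) C.nil)) (C.cons (nat_lit 14) (C.node (nat_lit 1) (nat_lit 2) (nat_lit 6) (C.cons (nat_lit 2118) (C.node (nat_lit 1) (nat_lit 7) (nat_lit 8) (C.cons (nat_lit 2434) (C.miq (nat_lit 890702520) (nat_lit 200688935926233601379798785)) (C.cons (nat_lit 962) (C.miq (nat_lit 873925528) (nat_lit 1415659384923786330551488257)) (C.cons (nat_lit 898) (C.miq (nat_lit 873925528) (nat_lit 1415659384923786330547293953)) (C.cons (nat_lit 450) (C.miq (nat_lit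 840436583) (nat_lit 317954740713701064199768289)) (C.cons (nat_lit 386) (C.node (nat_lit 1) (nat_lit 7) (nat_lit 11) (C.cons (nat_lit 2178) (C.node (nat_lit 1) (nat_lit 3) (nat_lit 11) C.nil) C.nil)) C.nil)))))) (C.cons (nat_lit 70) (C.node (nat_lit 1) (nat_lit 2) (nat_lit 11) (C.cons (nat_lit 2054) (C.node (nat_lit 1) (nat_lit 3) (nat_lit 10) (C.cons (nat_lit 1098) (C.node (nat_lit 1) (nat_lit 3) (nat_lit 7) (C.cons (nat_lit 2186) (C.node (nat_lit 1) (nat_lit 6) (nat_lit 11) C.nil) C.nil)) C.nil)) C.nil)) C.nil))) C.nil))) C.nil)))))) C.nil))))) (C.cons (nat_lit 582) (C.miq (nat_lit 2703865200) (nat_lit 703665681833963288736893153)) (C.cons (nat_lit 518) (C.miq (nat_lit 2703865200) (nat_lit 626294429378627021555697889)) C.nil)))) (C.cons (nat_lit 110) (C.miq (nat_lit 1901202105) (nat_lit 132993738637157289945206529)) (C.cons (nat_lit 102) (C.miq (nat_lit 1901202105) (nat_lit 123322332080240256547557121)) (C.cons (nat_lit 46) (C.miq (nat_lit 1901202105)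 (nat_lit 55622486181821022764011265)) (C.cons (nat_lit 38) (C.miq (nat_lit 1901202105) (nat_lit 45951079624903989366361857)) C.nil))))))) C.nil)) C.nil))) C.nil))))) (C.cons (nat_lit 3104) (C.node (nat_lit 1) (nat_lit 10) (nat_lit 11) (C.cons (nat_lit 3082) (C.miq (nat_lit 999661888) (nat_lit 3138391074369532788894401683)) (C.cons (nat_lit 3074) (C.node (nat_lit 3) (nat_lit 10) (nat_lit 11) (C.cons (nat_lit 3208) (C.node (nat_lit 3) (nat_lit 4) (nat_lit 10) (C.cons (nat_lit 1560) (C.miq (nat_lit 2208565174) (nat_lit 1885930495262207796969474273)) (C.cons (nat_lit 1304) (C.node (nat_lit 4) (nat_lit 9) (nat_lit 10) (C.cons (nat_lit 1556) (C.miq (nat_lit 1916996008) (nat_lit 2510946177091563806751461121)) (C.cons (nat_lit 1552) (C.node (nat_lit 6) (nat_lit 7) (nat_lit 10) (C.cons (nat_lit 1728) (C.miq (nat_lit 615058279) (nat_lit 1876264770776469086282975457)) (C.cons (nat_lit 1472) (C.node (nat_lit 7) (nat_lit 9) (nat_lit 10) (C.cons (nat_lit 1696) (C.miq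 (nat_lit 1165363624) (nat_lit 2747894604694719700521717505)) (C.cons (nat_lit 1664)
  (C.node (nat_lit 1) (nat_lit 3) (nat_lit 4) (C.cons (nat_lit 122) (C.miq (nat_lit 1934000314) (nat_lit 147516103710889846475067137)) (C.cons (nat_lit 90) (C.miq (nat_lit 1934000314) (nat_lit 108830477483221712884469505)) (C.cons (nat_lit 58) (C.miq (nat_lit 984699028) (nat_lit 3716239039706313705535963697)) (C.cons (nat_lit 26) (C.node (nat_lit 3) (nat_lit 4) (nat_lit 5) (C.cons (nat_lit 184) (C.miq (nat_lit 1731504139) (nat_lit 222500495360744954428985089)) (C.cons (nat_lit 120) (C.miq (nat_lit 1934000314) (nat_lit 145098252071660588125654785)) (C.cons (nat_lit 56) (C.node (nat_lit 1) (nat_lit 4) (nat_lit 6) (C.cons (nat_lit 114) (C.node (nat_lit 1) (nat_lit 4) (nat_lit 8) (C.cons (nat_lit 274) (C.node (nat_lit 3) (nat_lit 6) (nat_lit 11) (C.cons (nat_lit 2378) (C.miq (nat_lit 2169091664) (nat_lit 3116681617579849115061258465)) (C.cons (nat_lit 2376) (C.node (nat_lit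 1) (nat_lit 5) (nat_lit 9) (C.cons (nat_lit 1570) (C.miq (nat_lit 873794458) (nat_lit 137837189803140825745592065)) (C.cons (nat_lit 930) (C.miq (nat_lit 873925528) (nat_lit 1415659384923786330549391105)) (C.cons (nat_lit 802) (C.miq (nat_lit 1487280564) (nat_lit 1779540909627317976554277394)) (C.cons (nat_lit 674) (C.miq (nat_lit 689223024) (nat_lit 3116649077584667041556793569)) (C.cons (nat_lit 546) (C.node (nat_lit 2) (nat_lit 6) (nat_lit 7) (C.cons (nat_lit 212) (C.miq (nat_lit 879168424) (nat_lit 256299523913359417352916737)) (C.cons (nat_lit 206) (C.miq (nat_lit 1181989504) (nat_lit 249077033615270153537785601)) (C.cons (nat_lit 204) (C.miq (nat_lit 1181989504) (nat_lit 246659181976040895188373249)) (C.cons (nat_lit 198) (C.miq (nat_lit 558462544) (nat_lit 3116622661172174090105063649)) (C.cons (nat_lit 196) (C.node (nat_lit 2) (nat_lit 3) (nat_lit 7) (C.cons (nat_lit 174) (C.miq (nat_lit 826832224) (nat_lit 331252924193806497319291105)) (C.cons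 (nat_lit 172) (C.miq (nat_lit 1401628425) (nat_lit 2872455635200389653265973893)) (C.cons (nat_lit 142) (C.miq (nat_lit 2322664242) (nat_lit 1415656987343581313003030557)) (C.cons (nat_lit 140) (C.node (nat_lit 1) (nat_lit 2) (nat_lit 7) (C.cons (nat_lit 2182) (C.miq (nat_lit 2484228219) (nat_lit 26644255937049683323914465)) (C.cons (nat_lit 166) (C.miq (nat_lit 448098450) (nat_lit 3752508806572948888941232773)) (C.cons (nat_lit 134) (C.node (nat_lit 1) (nat_lit 3) (nat_lit 7) (C.cons (nat_lit 202) (C.miq (nat_lit 1181989504) (nat_lit 244241330336811636838960897)) (C.cons (nat_lit 170) (C.miq (nat_lit 826832224) (nat_lit 331252924192680597412448481)) (C.cons (nat_lit 138) (C.node (nat_lit 1) (nat_lit 2) (nat_lit 11) (C.cons (nat_lit 2054) (C.node (nat_lit 1) (nat_lit 6) (nat_lit 11) C.nil) C.nil)) C.nil)))) C.nil)))) C.nil))))) C.nil)))))) C.nil)))))) (C.cons (nat_lit 2122) (C.miq (nat_lit 2259909184) (nat_lit 2565347839207008780171412627)) (C.cons (nat_lit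 2120) (C.miq (nat_lit 2259909184) (nat_lit 2562929987567779521822000275)) C.nil))))) C.nil)) (C.cons (nat_lit 82) (C.node (nat_lit 1) (nat_lit 4) (nat_lit 5) (C.cons (nat_lit 306) (C.node (nat_lit 1) (nat_lit 8) (nat_lit 10) (C.cons (nat_lit 1282) (C.node (nat_lit 4) (nat_lit 5) (nat_lit 7) (C.cons (nat_lit 180) (C.miq (nat_lit 615077643) (nat_lit 1876300759840190354606328033)) (C.cons (nat_lit 176) (C.node (nat_lit 2) (nat_lit 4) (nat_lit 10) (C.cons (nat_lit 1076) (C.node (nat_lit 4) (nat_lit 5) (nat_lit 6) C.nil) C.nil)) C.nil))) C.nil)) (C.cons (nat_lit 50) (C.node (nat_lit 1) (nat_lit 4) (nat_lit 8) (C.cons (nat_lit 274) (C.node (nat_lit 2) (nat_lit 4) (nat_lit 10) (C.cons (nat_lit 1044) (C.node (nat_lit 4) (nat_lit 5) (nat_lit 10) (C.cons (nat_lit 1072) (C.node (nat_lit 4) (nat_lit 5) (nat_lit 6) C.nil) C.nil)) C.nil)) C.nil)) C.nil))) C.nil))) C.nil)))) C.nil))))) C.nil))) (C.cons (nat_lit 1216) (C.miq (nat_lit 2271883444) (nat_lit 1470077851316290622212540445))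 C.nil)))) C.nil))) (C.cons (nat_lit 1048) (C.miq (nat_lit 2208565174) (nat_lit 1266960475619517659519912161)) C.nil)))) (C.cons (nat_lit 3080) (C.node (nat_lit 7) (nat_lit 10) (nat_lit 11)
  (C.cons (nat_lit 3200) (C.node (nat_lit 3) (nat_lit 7) (nat_lit 11) (C.cons (nat_lit 2186) (C.node (nat_lit 3) (nat_lit 6) (nat_lit 11) (C.cons (nat_lit 2376) (C.miq (nat_lit 1796506480) (nat_lit 3116616980188060786051187081)) C.nil)) C.nil)) C.nil)) C.nil))) C.nil))) C.nil))) C.nil)) C.nil))) C.nil)) C.nil))) C.nil))))) C.nil)))) (C.cons (nat_lit 2564) (C.node (nat_lit 5) (nat_lit 9) (nat_lit 11) (C.cons (nat_lit 2600) (C.miq (nat_lit 1531590928) (nat_lit 3810553829939595671296475659)) (C.cons (nat_lit 2592) (C.ref (nat_lit 266) (nat_lit 205163983024656)) C.nil))) C.nil))) C.nil)))) (C.cons (nat_lit 2576) (C.node (nat_lit 4) (nat_lit 9) (nat_lit 10) (C.cons (nat_lit 1560) (C.node (nat_lit 3) (nat_lit 4) (nat_lit 7) (C.cons (nat_lit 216) (C.miq (nat_lit 2319649639)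 (nat_lit 1885931529250401403692124385)) (C.cons (nat_lit 184) (C.miq (nat_lit 2491130704) (nat_lit 2650036250978356023435265065)) (C.cons (nat_lit 152) (C.node (nat_lit 7) (nat_lit 9) (nat_lit 10) (C.cons (nat_lit 1728) (C.miq (nat_lit 615058279) (nat_lit 1885936177333386119680624865)) (C.cons (nat_lit 1696) (C.miq (nat_lit 2034981424) (nat_lit 3114234841253952556640306217)) (C.cons (nat_lit 1664) (C.node (nat_lit 3) (nat_lit 4) (nat_lit 6) (C.cons (nat_lit 122) (C.miq (nat_lit 2490082128) (nat_lit 3810605037808399764865221673)) (C.cons (nat_lit 120) (C.miq (nat_lit 2490082128) (nat_lit 3810605037808399756275287081)) (C.cons (nat_lit 90) (C.miq (nat_lit 280377764) (nat_lit 2747890048338246657962411544)) (C.cons (nat_lit 88) (C.node (nat_lit 6) (nat_lit 9) (nat_lit 10) (C.cons (nat_lit 1634) (C.miq (nat_lit 323391674) (nat_lit 106415614253124142454804225)) (C.cons (nat_lit 1632) (C.miq (nat_lit 1766545968) (nat_lit 3114234841235938158130824233)) (C.cons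 (nat_lit 1602) (C.miq (nat_lit 323391674) (nat_lit 106415023957313783749152513)) (C.cons (nat_lit 1600) (C.ref (nat_lit 273) (nat_lit 205163983024656)) C.nil))))) C.nil))))) C.nil)))) C.nil)))) (C.cons (nat_lit 1556) (C.miq (nat_lit 2068383394) (nat_lit 3114204810117018456606114885)) (C.cons (nat_lit 1552) (C.node (nat_lit 3) (nat_lit 4) (nat_lit 10) (C.cons (nat_lit 1304) (C.node (nat_lit 3) (nat_lit 10) (nat_lit 11) (C.cons (nat_lit 3208) (C.node (nat_lit 6) (nat_lit 7) (nat_lit 10) (C.cons (nat_lit 1728) (C.miq (nat_lit 615058279) (nat_lit 1876264770776469086282975457)) (C.cons (nat_lit 1472) (C.node (nat_lit 7) (nat_lit 9) (nat_lit 10) (C.cons (nat_lit 1696) (C.miq (nat_lit 1165363624) (nat_lit 2747894604694719700521717505)) (C.cons (nat_lit 1664) (C.node (nat_lit 3) (nat_lit 9) (nat_lit 11) (C.cons (nat_lit 2632) (C.miq (nat_lit 2259909184) (nat_lit 3181900007210469659271562387)) (C.cons (nat_lit 2600) (C.miq (nat_lit 2493730939) (nat_lit 1576487230469980580202678497))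 (C.cons (nat_lit 2568) (C.node (nat_lit 1) (nat_lit 8) (nat_lit 10) (C.cons (nat_lit 1314) (C.node (nat_lit 2) (nat_lit 8) (nat_lit 10) (C.cons (nat_lit 1284) (C.node (nat_lit 1) (nat_lit 10) (nat_lit 11) (C.cons (nat_lit 3078) (C.miq (nat_lit 2048408352) (nat_lit 1588535777447028648632059933)) (C.cons (nat_lit 3074) (C.node (nat_lit 2) (nat_lit 3) (nat_lit 8) (C.cons (nat_lit 876) (C.miq (nat_lit 1197804169) (nat_lit 2747898736937090985143045889)) (C.cons (nat_lit 844) (C.miq (nat_lit 1949436553) (nat_lit 2510950825819125136946368257)) (C.cons (nat_lit 812) (C.miq (nat_lit 1949436553) (nat_lit 2510950825819125136944271105)) (C.cons (nat_lit 780) (C.miq (nat_lit 1949436553) (nat_lit 2510950825819125136942173953)) (C.cons (nat_lit 364) (C.miq (nat_lit 3011919994) (nat_lit 440107143061670566746391699)) (C.cons (nat_lit 332) (C.miq (nat_lit 3011919994) (nat_lit 401421516834002433155794067)) (C.cons (nat_lit 300) (C.miq (nat_lit 1099041363) (nat_lit 317985804775701409021297705))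 (C.cons (nat_lit 268) (C.node (nat_lit 2) (nat_lit 4) (nat_lit 10) (C.cons (nat_lit 1076) (C.node (nat_lit 2) (nat_lit 7) (nat_lit 10) (C.cons (nat_lit 1156) (C.node (nat_lit 2) (nat_lit 10) (nat_lit 11) (C.cons (nat_lit 3076) (C.node (nat_lit 5) (nat_lit 7) (nat_lit 10)
  (C.cons (nat_lit 1184) (C.node (nat_lit 5) (nat_lit 10) (nat_lit 11) (C.cons (nat_lit 3104) (C.node (nat_lit 2) (nat_lit 4) (nat_lit 7) (C.cons (nat_lit 404) (C.miq (nat_lit 1384359024) (nat_lit 324011765742027929626936467)) (C.cons (nat_lit 212) (C.miq (nat_lit 879168424) (nat_lit 256299523913359417352916737)) (C.cons (nat_lit 148) (C.node (nat_lit 2) (nat_lit 4) (nat_lit 8) (C.cons (nat_lit 788) (C.node (nat_lit 1) (nat_lit 2) (nat_lit 4) (C.cons (nat_lit 86) (C.miq (nat_lit 413540532) (nat_lit 1779540392966768900239788061)) (C.cons (nat_lit 22) (C.node (nat_lit 2) (nat_lit 4) (nat_lit 6) (C.cons (nat_lit 84) (C.node (nat_lit 1) (nat_lit 4) (nat_lit 8) (C.cons (nat_lit 2322) (C.miq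 (nat_lit 1678945152) (nat_lit 26616531210013505906740993)) (C.cons (nat_lit 274) (C.node (nat_lit 4) (nat_lit 8) (nat_lit 11) (C.cons (nat_lit 2352) (C.miq (nat_lit 1411889296) (nat_lit 178962951414277189367303937)) (C.cons (nat_lit 2320) (C.node (nat_lit 5) (nat_lit 8) (nat_lit 11) (C.cons (nat_lit 2344) (C.miq (nat_lit 1487385408) (nat_lit 1779580736581796633102190621)) (C.cons (nat_lit 2340) (C.miq (nat_lit 338010296) (nat_lit 1300828421256669964863278849)) (C.cons (nat_lit 2336) (C.node (nat_lit 2) (nat_lit 8) (nat_lit 11) (C.cons (nat_lit 2436) (C.miq (nat_lit 1917171856) (nat_lit 1300846112040296961532825345)) (C.cons (nat_lit 2372) (C.miq (nat_lit 341969592) (nat_lit 101554620670940971907944193)) (C.cons (nat_lit 2308) (C.node (nat_lit 1) (nat_lit 3) (nat_lit 4) (C.cons (nat_lit 122) (C.miq (nat_lit 1934000314) (nat_lit 147516103710889846475067137)) (C.cons (nat_lit 90) (C.miq (nat_lit 1934000314) (nat_lit 108830477483221712884469505)) (C.cons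 (nat_lit 58) (C.miq (nat_lit 998588577) (nat_lit 2824051785115570050951152787)) (C.cons (nat_lit 26) (C.node (nat_lit 3) (nat_lit 4) (nat_lit 5) (C.cons (nat_lit 184) (C.miq (nat_lit 1731504139) (nat_lit 222500495360744954428985089)) (C.cons (nat_lit 120) (C.miq (nat_lit 1934000314) (nat_lit 145098252071660588125654785)) C.nil))) C.nil))))) C.nil)))) C.nil)))) C.nil))) C.nil))) C.nil)) C.nil))) (C.cons (nat_lit 276) (C.node (nat_lit 5) (nat_lit 6) (nat_lit 10) (C.cons (nat_lit 1632) (C.node (nat_lit 1) (nat_lit 6) (nat_lit 10) (C.cons (nat_lit 1090) (C.node (nat_lit 3) (nat_lit 6) (nat_lit 10) (C.cons (nat_lit 1096) (C.node (nat_lit 1) (nat_lit 3) (nat_lit 10) C.nil) C.nil)) C.nil)) (C.cons (nat_lit 1120) (C.node (nat_lit 5) (nat_lit 9) (nat_lit 10) (C.cons (nat_lit 1568) (C.node (nat_lit 1) (nat_lit 2) (nat_lit 10) (C.cons (nat_lit 1542) (C.node (nat_lit 2) (nat_lit 3) (nat_lit 10) C.nil) (C.cons (nat_lit 1038) (C.miq (nat_lit 2510357539) (nat_lit 1588538174778685369046927389))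 C.nil))) C.nil)) C.nil))) C.nil))) C.nil)))) C.nil)) C.nil)) C.nil)) C.nil)) (C.cons (nat_lit 1044) (C.node (nat_lit 4) (nat_lit 5) (nat_lit 10) (C.cons (nat_lit 1072) (C.node (nat_lit 2) (nat_lit 7) (nat_lit 10) (C.cons (nat_lit 1188) (C.node (nat_lit 2) (nat_lit 10) (nat_lit 11) (C.cons (nat_lit 3076) (C.node (nat_lit 5) (nat_lit 10) (nat_lit 11) (C.cons (nat_lit 3104) (C.node (nat_lit 4) (nat_lit 5) (nat_lit 7) (C.cons (nat_lit 432) (C.miq (nat_lit 624994182) (nat_lit 678227547429473659330299328)) (C.cons (nat_lit 184) (C.miq (nat_lit 1731504139) (nat_lit 222500495360744954428985089)) (C.cons (nat_lit 176) (C.node (nat_lit 2) (nat_lit 3) (nat_lit 7) (C.cons (nat_lit 206) (C.miq (nat_lit 1181989504) (nat_lit 249077033615270153537785601)) (C.cons (nat_lit 204) (C.miq (nat_lit 1181989504) (nat_lit 246659181976040895188373249)) (C.cons (nat_lit 142) (C.miq (nat_lit 2322664242) (nat_lit 1415656987343581313003030557)) (C.cons (nat_lit 140) (C.node (nat_lit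 5) (nat_lit 6) (nat_lit 8) (C.cons (nat_lit 872) (C.miq (nat_lit 1197804169) (nat_lit 2747898736937090985142783745)) (C.cons (nat_lit 868) (C.miq (nat_lit 1197804169) (nat_lit 2747898736937090985142521601)) (C.cons (nat_lit 864) (C.miq (nat_lit 1197804169) (nat_lit 2747898736937090985142259457)) (C.cons (nat_lit 360)
  (C.miq (nat_lit 3011919994) (nat_lit 435271439783212050047566995)) (C.cons (nat_lit 356) (C.miq (nat_lit 1244137302) (nat_lit 1552266969267549000614283489)) (C.cons (nat_lit 352) (C.node (nat_lit 5) (nat_lit 6) (nat_lit 10) (C.cons (nat_lit 1632) (C.node (nat_lit 1) (nat_lit 6) (nat_lit 10) (C.cons (nat_lit 1090) (C.node (nat_lit 3) (nat_lit 6) (nat_lit 10) (C.cons (nat_lit 1096) (C.node (nat_lit 1) (nat_lit 3) (nat_lit 10) C.nil) C.nil)) C.nil)) (C.cons (nat_lit 1120) (C.node (nat_lit 5) (nat_lit 9) (nat_lit 10) (C.cons (nat_lit 1568) (C.node (nat_lit 1) (nat_lit 6) (nat_lit 10) (C.cons (nat_lit 1602) (C.miq (nat_lit 1765515524) (nat_lit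 3104579649358613212246639763)) (C.cons (nat_lit 1098) (C.node (nat_lit 6) (nat_lit 9) (nat_lit 10) C.nil) C.nil))) C.nil)) C.nil))) C.nil))))))) C.nil))))) C.nil)))) C.nil)) C.nil)) (C.cons (nat_lit 1156) (C.node (nat_lit 5) (nat_lit 7) (nat_lit 10) (C.cons (nat_lit 1184) (C.node (nat_lit 2) (nat_lit 10) (nat_lit 11) (C.cons (nat_lit 3108) (C.node (nat_lit 2) (nat_lit 8) (nat_lit 11) (C.cons (nat_lit 2436) (C.miq (nat_lit 942278581) (nat_lit 1552280398278252489586510049)) (C.cons (nat_lit 2372) (C.miq (nat_lit 681883248) (nat_lit 1576477583332582505581840609)) (C.cons (nat_lit 2308) (C.node (nat_lit 4) (nat_lit 8) (nat_lit 11) (C.cons (nat_lit 2352) (C.miq (nat_lit 1750729906) (nat_lit 1588548689359762469222090781)) (C.cons (nat_lit 2322) (C.miq (nat_lit 1803723792) (nat_lit 2790220954849055799285056659)) (C.cons (nat_lit 2320) (C.node (nat_lit 5) (nat_lit 8) (nat_lit 11) (C.cons (nat_lit 2344) (C.miq (nat_lit 1487385408) (nat_lit 1779580736581796633102190621))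 (C.cons (nat_lit 2336) (C.node (nat_lit 1) (nat_lit 3) (nat_lit 4) (C.cons (nat_lit 122) (C.miq (nat_lit 1934000314) (nat_lit 147516103710889846475067137)) (C.cons (nat_lit 90) (C.miq (nat_lit 1934000314) (nat_lit 108830477483221712884469505)) (C.cons (nat_lit 58) (C.miq (nat_lit 998588577) (nat_lit 2824051785115570050951152787)) (C.cons (nat_lit 26) (C.node (nat_lit 3) (nat_lit 4) (nat_lit 5) (C.cons (nat_lit 184) (C.miq (nat_lit 1731504139) (nat_lit 222500495360744954428985089)) (C.cons (nat_lit 120) (C.miq (nat_lit 1934000314) (nat_lit 145098252071660588125654785)) (C.cons (nat_lit 56) (C.node (nat_lit 2) (nat_lit 3) (nat_lit 7) (C.cons (nat_lit 206) (C.miq (nat_lit 1181989504) (nat_lit 249077033615270153537785601)) (C.cons (nat_lit 204) (C.miq (nat_lit 1181989504) (nat_lit 246659181976040895188373249)) (C.cons (nat_lit 174) (C.miq (nat_lit 2721625456) (nat_lit 324062974475532712175798497)) (C.cons (nat_lit 172) (C.miq (nat_lit 2721625456) (nat_lit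 324062974475532703585863905)) (C.cons (nat_lit 142) (C.miq (nat_lit 2322664242) (nat_lit 1415656987343581313003030557)) (C.cons (nat_lit 140) (C.node (nat_lit 1) (nat_lit 4) (nat_lit 8) (C.cons (nat_lit 786) (C.node (nat_lit 1) (nat_lit 8) (nat_lit 7) (C.cons (nat_lit 2434) (C.miq (nat_lit 1460931465) (nat_lit 1415662484031959190704623361)) (C.cons (nat_lit 386) (C.node (nat_lit 8) (nat_lit 7) (nat_lit 11) (C.cons (nat_lit 2432) (C.node (nat_lit 9) (nat_lit 7) (nat_lit 11) (C.cons (nat_lit 2690) (C.miq (nat_lit 1729366936) (nat_lit 1415658351961287779276689153)) (C.cons (nat_lit 2688) (C.node (nat_lit 1) (nat_lit 9) (nat_lit 10) (C.cons (nat_lit 1542) (C.miq (nat_lit 1788084760) (nat_lit 1876259088902316091698708743)) (C.cons (nat_lit 1602) (C.miq (nat_lit 1630841099) (nat_lit 31490215898225850143543041)) (C.cons (nat_lit 1538) (C.node (nat_lit 1) (nat_lit 8) (nat_lit 11) (C.cons (nat_lit 2378) (C.node (nat_lit 1) (nat_lit 10) (nat_lit 6) C.nil) (C.cons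 (nat_lit 2314) (C.miq (nat_lit 1798851184) (nat_lit 2797460564028227655261815955)) (C.cons (nat_lit 2370) (C.miq (nat_lit 946565194) (nat_lit 2865213369752280717753058451)) C.nil)))) C.nil)))) C.nil))) C.nil)) C.nil))) (C.cons (nat_lit 274) (C.node (nat_lit 1) (nat_lit 4) (nat_lit 11) (C.cons (nat_lit 2098) (C.node (nat_lit 3) (nat_lit 5) (nat_lit 11) (C.cons (nat_lit 2088) (C.node (nat_lit 5) (nat_lit 9) (nat_lit 11)
  (C.cons (nat_lit 2592) (C.node (nat_lit 4) (nat_lit 5) (nat_lit 6) (C.cons (nat_lit 116) (C.miq (nat_lit 2317618006) (nat_lit 1262124773311584432823732449)) C.nil)) C.nil)) C.nil)) (C.cons (nat_lit 2066) (C.node (nat_lit 4) (nat_lit 5) (nat_lit 11) (C.cons (nat_lit 2096) (C.node (nat_lit 2) (nat_lit 7) (nat_lit 11) (C.cons (nat_lit 2182) (C.node (nat_lit 4) (nat_lit 8) (nat_lit 9) C.nil) (C.cons (nat_lit 2180) (C.node (nat_lit 4) (nat_lit 8) (nat_lit 9) C.nil) C.nil))) C.nil)) C.nil))) C.nil))) C.nil))))))) C.nil)))) C.nil))))) C.nil)))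 C.nil)))) C.nil)))) (C.cons (nat_lit 3076) (C.node (nat_lit 5) (nat_lit 10) (nat_lit 11) (C.cons (nat_lit 3104) (C.node (nat_lit 2) (nat_lit 5) (nat_lit 10) (C.cons (nat_lit 1572) (C.node (nat_lit 5) (nat_lit 6) (nat_lit 10) C.nil) C.nil)) C.nil)) C.nil))) C.nil)) C.nil))) C.nil)) C.nil))) C.nil))))))))) C.nil))) C.nil)) (C.cons (nat_lit 1282) (C.node (nat_lit 2) (nat_lit 4) (nat_lit 10) (C.cons (nat_lit 1076) (C.node (nat_lit 2) (nat_lit 7) (nat_lit 10) (C.cons (nat_lit 1156) (C.node (nat_lit 2) (nat_lit 8) (nat_lit 10) (C.cons (nat_lit 1284) (C.node (nat_lit 5) (nat_lit 7) (nat_lit 10) (C.cons (nat_lit 1184) (C.node (nat_lit 5) (nat_lit 8) (nat_lit 10) (C.cons (nat_lit 1312) (C.node (nat_lit 2) (nat_lit 10) (nat_lit 11) (C.cons (nat_lit 3078) (C.miq (nat_lit 2048408352) (nat_lit 1549850151219360515041462301)) (C.cons (nat_lit 3076) (C.node (nat_lit 2) (nat_lit 4) (nat_lit 7) (C.cons (nat_lit 404) (C.miq (nat_lit 1383113859) (nat_lit 779776799736743128491164952))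 (C.cons (nat_lit 212) (C.miq (nat_lit 879168424) (nat_lit 256299523913359417352916737)) (C.cons (nat_lit 148) (C.node (nat_lit 2) (nat_lit 3) (nat_lit 8) (C.cons (nat_lit 876) (C.miq (nat_lit 1197804169) (nat_lit 2747898736937090985143045889)) (C.cons (nat_lit 844) (C.miq (nat_lit 1949436553) (nat_lit 2510950825819125136946368257)) (C.cons (nat_lit 812) (C.miq (nat_lit 1949436553) (nat_lit 2510950825819125136944271105)) (C.cons (nat_lit 780) (C.miq (nat_lit 1949436553) (nat_lit 2510950825819125136942173953)) (C.cons (nat_lit 364) (C.miq (nat_lit 2052588579) (nat_lit 1586117925234426264205133853)) (C.cons (nat_lit 332) (C.miq (nat_lit 3011919994) (nat_lit 401421516834002433155794067)) (C.cons (nat_lit 300) (C.miq (nat_lit 2052588579) (nat_lit 1586117925234426264200939549)) (C.cons (nat_lit 268) (C.node (nat_lit 1) (nat_lit 10) (nat_lit 11) (C.cons (nat_lit 3106) (C.node (nat_lit 1) (nat_lit 4) (nat_lit 11) (C.cons (nat_lit 2322) (C.miq (nat_lit 463635552)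 (nat_lit 3718660673281889160738963793)) (C.cons (nat_lit 2066) (C.node (nat_lit 3) (nat_lit 5) (nat_lit 11) (C.cons (nat_lit 2344) (C.miq (nat_lit 1487385408) (nat_lit 1779580736581796633102190621)) (C.cons (nat_lit 2088) (C.node (nat_lit 4) (nat_lit 5) (nat_lit 6) (C.cons (nat_lit 122) (C.miq (nat_lit 1934000314) (nat_lit 147516103710889846475067137)) (C.cons (nat_lit 120) (C.miq (nat_lit 1934000314) (nat_lit 145098252071660588125654785)) (C.cons (nat_lit 114) (C.miq (nat_lit 2316569430) (nat_lit 1415658352402642329421351137)) (C.cons (nat_lit 112) (C.node (nat_lit 1) (nat_lit 3) (nat_lit 7) (C.cons (nat_lit 206) (C.miq (nat_lit 1181989504) (nat_lit 249077033615270153537785601)) (C.cons (nat_lit 202) (C.miq (nat_lit 1181989504) (nat_lit 244241330336811636838960897)) (C.cons (nat_lit 174) (C.miq (nat_lit 950104245) (nat_lit 1549846110590059590455527649)) (C.cons (nat_lit 170) (C.miq (nat_lit 950104245) (nat_lit 1549846036803083295617321185)) (C.cons (nat_lit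 142) (C.miq (nat_lit 2322664242) (nat_lit 1415656987343581313003030557)) (C.cons (nat_lit 138) (C.node (nat_lit 2) (nat_lit 4) (nat_lit 8) (C.cons (nat_lit 788) (C.node (nat_lit 1) (nat_lit 2) (nat_lit 4) (C.cons (nat_lit 86) (C.miq (nat_lit 413540532) (nat_lit 1779540392966768900239788061)) (C.cons (nat_lit 22) (C.node (nat_lit 2) (nat_lit 4) (nat_lit 6) (C.cons (nat_lit 84) (C.node (nat_lit 4) (nat_lit 5) (nat_lit 11) (C.cons (nat_lit 2352) (C.miq (nat_lit 1411889296) (nat_lit 178962951414277189367303937))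
  (C.cons (nat_lit 2096) (C.node (nat_lit 4) (nat_lit 8) (nat_lit 11) C.nil) C.nil))) C.nil)) C.nil))) (C.cons (nat_lit 276) (C.node (nat_lit 4) (nat_lit 5) (nat_lit 11) (C.cons (nat_lit 2352) (C.node (nat_lit 4) (nat_lit 5) (nat_lit 7) (C.cons (nat_lit 184) (C.miq (nat_lit 1731504139) (nat_lit 222500495360744954428985089)) (C.cons (nat_lit 176) (C.node (nat_lit 2) (nat_lit 8) (nat_lit 11) (C.cons (nat_lit 2436) (C.miq (nat_lit 2458126261) (nat_lit 333673875018624825950210273)) (C.cons (nat_lit 2372) (C.miq (nat_lit 1732413963) (nat_lit 178964777394244152173858561)) (C.cons (nat_lit 2308) (C.node (nat_lit 7) (nat_lit 8) (nat_lit 11) (C.cons (nat_lit 2434) (C.miq (nat_lit 1366535040) (nat_lit 166851409763529058421378817)) (C.cons (nat_lit 2432) (C.node (nat_lit 1) (nat_lit 4) (nat_lit 5) (C.cons (nat_lit 58) (C.node (nat_lit 5) (nat_lit 6) (nat_lit 10) (C.cons (nat_lit 1120) (C.node (nat_lit 5) (nat_lit 9) (nat_lit 10) C.nil) C.nil)) (C.cons (nat_lit 50)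 (C.node (nat_lit 3) (nat_lit 4) (nat_lit 5) C.nil) C.nil))) C.nil))) C.nil)))) C.nil))) (C.cons (nat_lit 2096) (C.node (nat_lit 4) (nat_lit 8) (nat_lit 11) (C.cons (nat_lit 2320) (C.node (nat_lit 5) (nat_lit 6) (nat_lit 10) (C.cons (nat_lit 1632) (C.node (nat_lit 2) (nat_lit 4) (nat_lit 6) (C.cons (nat_lit 598) (C.miq (nat_lit 413540532) (nat_lit 1779549837699734639530215453)) (C.cons (nat_lit 596) (C.miq (nat_lit 898894434) (nat_lit 678245698991025921371407429)) (C.cons (nat_lit 86) (C.miq (nat_lit 413540532) (nat_lit 1779540392966768900239788061)) C.nil)))) (C.cons (nat_lit 1120) (C.node (nat_lit 5) (nat_lit 9) (nat_lit 10) (C.cons (nat_lit 1568) (C.node (nat_lit 1) (nat_lit 4) (nat_lit 5) C.nil) C.nil)) C.nil))) C.nil)) C.nil))) C.nil))) C.nil))))))) C.nil))))) C.nil))) C.nil))) (C.cons (nat_lit 3074) (C.node (nat_lit 5) (nat_lit 10) (nat_lit 11) (C.cons (nat_lit 3104) (C.node (nat_lit 2) (nat_lit 4) (nat_lit 8) (C.cons (nat_lit 788) (C.node (nat_lit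 1) (nat_lit 2) (nat_lit 4) (C.cons (nat_lit 86) (C.miq (nat_lit 413540532) (nat_lit 1779540392966768900239788061)) (C.cons (nat_lit 22) (C.node (nat_lit 2) (nat_lit 4) (nat_lit 6) (C.cons (nat_lit 84) (C.node (nat_lit 1) (nat_lit 2) (nat_lit 10) (C.cons (nat_lit 1542) (C.node (nat_lit 2) (nat_lit 3) (nat_lit 10) C.nil) (C.cons (nat_lit 1038) (C.miq (nat_lit 2485192099) (nat_lit 26606015836584475326546985)) C.nil))) C.nil)) C.nil))) (C.cons (nat_lit 276) (C.node (nat_lit 7) (nat_lit 9) (nat_lit 11) (C.cons (nat_lit 2690) (C.node (nat_lit 6) (nat_lit 9) (nat_lit 11) (C.cons (nat_lit 2628) (C.miq (nat_lit 1651816714) (nat_lit 178979166180004459489464065)) (C.cons (nat_lit 2624) (C.node (nat_lit 1) (nat_lit 2) (nat_lit 10) (C.cons (nat_lit 1542) (C.miq (nat_lit 699834736) (nat_lit 3172241513394105486667744403)) (C.cons (nat_lit 1038) (C.node (nat_lit 2) (nat_lit 9) (nat_lit 10) C.nil) C.nil))) C.nil))) (C.cons (nat_lit 2688) (C.node (nat_lit 1) (nat_lit 10)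 (nat_lit 2) (C.cons (nat_lit 1038) (C.node (nat_lit 9) (nat_lit 10) (nat_lit 2) C.nil) (C.cons (nat_lit 1542) (C.node (nat_lit 10) (nat_lit 2) (nat_lit 3) C.nil) C.nil))) C.nil))) C.nil))) C.nil)) C.nil))) C.nil))))))))) C.nil)))) C.nil))) C.nil)) C.nil)) C.nil)) C.nil)) (C.cons (nat_lit 1044) (C.node (nat_lit 4) (nat_lit 5) (nat_lit 10) (C.cons (nat_lit 1072) (C.node (nat_lit 2) (nat_lit 7) (nat_lit 10) (C.cons (nat_lit 1188) (C.node (nat_lit 2) (nat_lit 8) (nat_lit 10) (C.cons (nat_lit 1284) (C.node (nat_lit 5) (nat_lit 8) (nat_lit 10) (C.cons (nat_lit 1312) (C.node (nat_lit 2) (nat_lit 10) (nat_lit 11) (C.cons (nat_lit 3078) (C.miq (nat_lit 2048408352) (nat_lit 1549850151219360515041462301)) (C.cons (nat_lit 3076) (C.node (nat_lit 4) (nat_lit 5) (nat_lit 7) (C.cons (nat_lit 432) (C.miq (nat_lit 624994182) (nat_lit 678227547429473659330299328)) (C.cons (nat_lit 184) (C.miq (nat_lit 1731504139) (nat_lit 222500495360744954428985089)) (C.cons (nat_lit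 176) (C.node (nat_lit 2) (nat_lit 3) (nat_lit 7) (C.cons (nat_lit 206)
  (C.miq (nat_lit 1181989504) (nat_lit 249077033615270153537785601)) (C.cons (nat_lit 204) (C.miq (nat_lit 1181989504) (nat_lit 246659181976040895188373249)) (C.cons (nat_lit 142) (C.miq (nat_lit 2322664242) (nat_lit 1415656987343581313003030557)) (C.cons (nat_lit 140) (C.node (nat_lit 1) (nat_lit 10) (nat_lit 11) (C.cons (nat_lit 3106) (C.node (nat_lit 1) (nat_lit 4) (nat_lit 11) (C.cons (nat_lit 2322) (C.miq (nat_lit 463635552) (nat_lit 3718660673281889160738963793)) (C.cons (nat_lit 2066) (C.node (nat_lit 3) (nat_lit 5) (nat_lit 11) (C.cons (nat_lit 2344) (C.miq (nat_lit 880118283) (nat_lit 212814183787331909123641089)) (C.cons (nat_lit 2088) (C.node (nat_lit 5) (nat_lit 9) (nat_lit 11) (C.cons (nat_lit 2596) (C.miq (nat_lit 354921360) (nat_lit 1436225475713762200876551937)) (C.cons (nat_lit 2592) (C.node (nat_lit 1) (nat_lit 3) (nat_lit 7) (C.cons (nat_lit 202) (C.miq (nat_lit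 1181989504) (nat_lit 244241330336811636838960897)) (C.cons (nat_lit 170) (C.miq (nat_lit 950104245) (nat_lit 1549846036803083295617321185)) (C.cons (nat_lit 138) (C.node (nat_lit 1) (nat_lit 9) (nat_lit 10) (C.cons (nat_lit 1602) (C.miq (nat_lit 1731307529) (nat_lit 166861315205157762485653249)) (C.cons (nat_lit 1542) (C.miq (nat_lit 309700875) (nat_lit 1436261169723309585908961025)) (C.cons (nat_lit 1538) (C.node (nat_lit 1) (nat_lit 2) (nat_lit 10) (C.cons (nat_lit 1038) (C.node (nat_lit 1) (nat_lit 6) (nat_lit 10) (C.cons (nat_lit 1090) (C.node (nat_lit 2) (nat_lit 9) (nat_lit 10) C.nil) C.nil)) (C.cons (nat_lit 1030) (C.node (nat_lit 1) (nat_lit 3) (nat_lit 10) (C.cons (nat_lit 1098) (C.node (nat_lit 2) (nat_lit 3) (nat_lit 10) C.nil) C.nil)) C.nil))) C.nil)))) C.nil)))) C.nil))) C.nil))) C.nil))) (C.cons (nat_lit 3074) (C.node (nat_lit 5) (nat_lit 10) (nat_lit 11) (C.cons (nat_lit 3104) (C.node (nat_lit 7) (nat_lit 9) (nat_lit 11) (C.cons (nat_lit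 2690) (C.node (nat_lit 1) (nat_lit 2) (nat_lit 7) (C.cons (nat_lit 198) (C.miq (nat_lit 1789993111) (nat_lit 3716241622258365324228428421)) (C.cons (nat_lit 134) (C.node (nat_lit 1) (nat_lit 6) (nat_lit 7) (C.cons (nat_lit 202) (C.miq (nat_lit 1181989504) (nat_lit 244241330336811636838960897)) (C.cons (nat_lit 194) (C.node (nat_lit 1) (nat_lit 3) (nat_lit 7) (C.cons (nat_lit 170) (C.miq (nat_lit 2836597621) (nat_lit 632287850522046498062600417)) (C.cons (nat_lit 138) (C.node (nat_lit 2) (nat_lit 6) (nat_lit 7) (C.cons (nat_lit 212) (C.miq (nat_lit 879168424) (nat_lit 256299523913359417352916737)) (C.cons (nat_lit 196) (C.node (nat_lit 1) (nat_lit 5) (nat_lit 7) (C.cons (nat_lit 162) (C.node (nat_lit 1) (nat_lit 7) (nat_lit 8) C.nil) C.nil)) C.nil))) C.nil))) C.nil))) C.nil))) (C.cons (nat_lit 2688) (C.node (nat_lit 1) (nat_lit 10) (nat_lit 2) (C.cons (nat_lit 1038) (C.node (nat_lit 9) (nat_lit 10) (nat_lit 2) C.nil) (C.cons (nat_lit 1542) (C.node (nat_lit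 10) (nat_lit 2) (nat_lit 3) C.nil) C.nil))) C.nil))) C.nil)) C.nil))) C.nil))))) C.nil)))) C.nil))) C.nil)) C.nil)) (C.cons (nat_lit 1156) (C.node (nat_lit 5) (nat_lit 7) (nat_lit 10) (C.cons (nat_lit 1184) (C.node (nat_lit 2) (nat_lit 8) (nat_lit 10) (C.cons (nat_lit 1316) (C.node (nat_lit 2) (nat_lit 10) (nat_lit 11) (C.cons (nat_lit 3078) (C.miq (nat_lit 2048408352) (nat_lit 1549850151219360515041462301)) (C.cons (nat_lit 3076) (C.node (nat_lit 2) (nat_lit 3) (nat_lit 8) (C.cons (nat_lit 844) (C.miq (nat_lit 1949436553) (nat_lit 2510950825819125136946368257)) (C.cons (nat_lit 780) (C.miq (nat_lit 1949436553) (nat_lit 2510950825819125136942173953)) (C.cons (nat_lit 332) (C.miq (nat_lit 3011919994) (nat_lit 401421516834002433155794067)) (C.cons (nat_lit 268) (C.node (nat_lit 1) (nat_lit 10) (nat_lit 11) (C.cons (nat_lit 3106) (C.node (nat_lit 1) (nat_lit 4) (nat_lit 11) (C.cons (nat_lit 2322) (C.miq (nat_lit 463635552) (nat_lit 3718660673281889160738963793))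 (C.cons (nat_lit 2066) (C.node (nat_lit 3) (nat_lit 5) (nat_lit 11) (C.cons (nat_lit 2344) (C.miq (nat_lit 1487385408) (nat_lit 1779580736581796633102190621)) (C.cons (nat_lit 2088)
  (C.node (nat_lit 1) (nat_lit 3) (nat_lit 7) (C.cons (nat_lit 206) (C.miq (nat_lit 1181989504) (nat_lit 249077033615270153537785601)) (C.cons (nat_lit 202) (C.miq (nat_lit 1181989504) (nat_lit 244241330336811636838960897)) (C.cons (nat_lit 174) (C.miq (nat_lit 950104245) (nat_lit 1549846110590059590455527649)) (C.cons (nat_lit 170) (C.miq (nat_lit 950104245) (nat_lit 1549846036803083295617321185)) (C.cons (nat_lit 142) (C.miq (nat_lit 2322664242) (nat_lit 1415656987343581313003030557)) (C.cons (nat_lit 138) (C.node (nat_lit 2) (nat_lit 5) (nat_lit 11) (C.cons (nat_lit 2596) (C.node (nat_lit 7) (nat_lit 9) (nat_lit 11) (C.cons (nat_lit 2690) (C.miq (nat_lit 1376434545) (nat_lit 1321413217156594439692683906)) (C.cons (nat_lit 2688) (C.node (nat_lit 1) (nat_lit 7) (nat_lit 11)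 (C.cons (nat_lit 2434) (C.miq (nat_lit 1366535040) (nat_lit 166851409763529058421378817)) (C.cons (nat_lit 2182) (C.miq (nat_lit 1383184650) (nat_lit 2637933434716925610947710721)) (C.cons (nat_lit 2178) (C.node (nat_lit 1) (nat_lit 2) (nat_lit 7) (C.cons (nat_lit 198) (C.miq (nat_lit 1383184650) (nat_lit 239424608601501328330657537)) (C.cons (nat_lit 166) (C.node (nat_lit 2) (nat_lit 3) (nat_lit 7) (C.cons (nat_lit 204) (C.miq (nat_lit 1181989504) (nat_lit 246659181976040895188373249)) (C.cons (nat_lit 140) (C.node (nat_lit 2) (nat_lit 6) (nat_lit 7) (C.cons (nat_lit 212) (C.miq (nat_lit 879168424) (nat_lit 256299523913359417352916737)) (C.cons (nat_lit 196) (C.node (nat_lit 1) (nat_lit 2) (nat_lit 10) (C.cons (nat_lit 1542) (C.node (nat_lit 2) (nat_lit 3) (nat_lit 10) (C.cons (nat_lit 1036) (C.node (nat_lit 1) (nat_lit 2) (nat_lit 3) C.nil) C.nil)) (C.cons (nat_lit 1038) (C.miq (nat_lit 2584873815) (nat_lit 1254876899991071351730735329)) (C.cons (nat_lit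 1030) (C.miq (nat_lit 2584873815) (nat_lit 1245205493434154318333085921)) C.nil)))) C.nil))) C.nil))) (C.cons (nat_lit 134) (C.miq (nat_lit 1383184650) (nat_lit 162053356146165061149462273)) C.nil)))) C.nil)))) C.nil))) (C.cons (nat_lit 2084) (C.node (nat_lit 5) (nat_lit 9) (nat_lit 11) (C.cons (nat_lit 2592) (C.node (nat_lit 4) (nat_lit 5) (nat_lit 11) (C.cons (nat_lit 2352) (C.node (nat_lit 4) (nat_lit 5) (nat_lit 6) (C.cons (nat_lit 122) (C.miq (nat_lit 1934000314) (nat_lit 147516103710889846475067137)) (C.cons (nat_lit 120) (C.miq (nat_lit 1934000314) (nat_lit 145098252071660588125654785)) (C.cons (nat_lit 118) (C.miq (nat_lit 2316569430) (nat_lit 1415658352402642329421613281)) (C.cons (nat_lit 116) (C.miq (nat_lit 2217391456) (nat_lit 1262189410283689620292307169)) (C.cons (nat_lit 114) (C.miq (nat_lit 2316569430) (nat_lit 1415658352402642329421351137)) (C.cons (nat_lit 112) (C.node (nat_lit 1) (nat_lit 4) (nat_lit 8) (C.cons (nat_lit 786) (C.node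 (nat_lit 2) (nat_lit 8) (nat_lit 9) (C.cons (nat_lit 836) (C.miq (nat_lit 1766467600) (nat_lit 1876273034568493500135047431)) (C.cons (nat_lit 772) (C.node (nat_lit 2) (nat_lit 6) (nat_lit 8) (C.cons (nat_lit 2372) (C.miq (nat_lit 681883248) (nat_lit 1576477583332582505581840609)) (C.cons (nat_lit 324) (C.node (nat_lit 2) (nat_lit 8) (nat_lit 11) (C.cons (nat_lit 2436) (C.miq (nat_lit 675904336) (nat_lit 950227593052709219046852833)) (C.cons (nat_lit 2308) (C.node (nat_lit 5) (nat_lit 6) (nat_lit 10) (C.cons (nat_lit 1120) (C.node (nat_lit 5) (nat_lit 9) (nat_lit 10) C.nil) C.nil)) C.nil))) C.nil))) C.nil))) (C.cons (nat_lit 274) (C.node (nat_lit 5) (nat_lit 6) (nat_lit 10) (C.cons (nat_lit 1632) (C.node (nat_lit 1) (nat_lit 4) (nat_lit 5) C.nil) (C.cons (nat_lit 1120) (C.node (nat_lit 5) (nat_lit 9) (nat_lit 10) C.nil) C.nil))) C.nil))) C.nil))))))) (C.cons (nat_lit 2096) (C.node (nat_lit 4) (nat_lit 8) (nat_lit 11) (C.cons (nat_lit 2320) (C.node (nat_lit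 5) (nat_lit 8) (nat_lit 11) (C.cons (nat_lit 2336) (C.node (nat_lit 5) (nat_lit 6) (nat_lit 10) (C.cons (nat_lit 1120) (C.node (nat_lit 5) (nat_lit 9) (nat_lit 10) C.nil) C.nil)) C.nil)) C.nil)) C.nil))) C.nil)) C.nil))) C.nil))))))) C.nil))) C.nil))) (C.cons (nat_lit 3074)
  (C.node (nat_lit 5) (nat_lit 10) (nat_lit 11) (C.cons (nat_lit 3104) (C.node (nat_lit 7) (nat_lit 9) (nat_lit 11) (C.cons (nat_lit 2690) (C.node (nat_lit 9) (nat_lit 6) (nat_lit 11) (C.cons (nat_lit 2628) (C.miq (nat_lit 2544246859) (nat_lit 1779587284697716243460786205)) (C.cons (nat_lit 2624) (C.node (nat_lit 1) (nat_lit 10) (nat_lit 2) (C.cons (nat_lit 1038) (C.node (nat_lit 9) (nat_lit 10) (nat_lit 2) C.nil) (C.cons (nat_lit 1542) (C.miq (nat_lit 649699441) (nat_lit 3172249795855810526739301523)) C.nil))) C.nil))) (C.cons (nat_lit 2688) (C.node (nat_lit 1) (nat_lit 10) (nat_lit 2) (C.cons (nat_lit 1038) (C.node (nat_lit 9) (nat_lit 10) (nat_lit 2) C.nil) (C.cons (nat_lit 1542)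 (C.node (nat_lit 10) (nat_lit 2) (nat_lit 3) C.nil) C.nil))) C.nil))) C.nil)) C.nil))) C.nil))))) C.nil))) (C.cons (nat_lit 1284) (C.node (nat_lit 5) (nat_lit 8) (nat_lit 10) (C.cons (nat_lit 1312) (C.node (nat_lit 7) (nat_lit 9) (nat_lit 11) (C.cons (nat_lit 2690) (C.node (nat_lit 6) (nat_lit 9) (nat_lit 11) (C.cons (nat_lit 2628) (C.miq (nat_lit 2544246859) (nat_lit 1779587284697716243460786205)) (C.cons (nat_lit 2624) (C.node (nat_lit 1) (nat_lit 6) (nat_lit 7) (C.cons (nat_lit 206) (C.miq (nat_lit 1181989504) (nat_lit 249077033615270153537785601)) (C.cons (nat_lit 202) (C.miq (nat_lit 1181989504) (nat_lit 244241330336811636838960897)) (C.cons (nat_lit 198) (C.miq (nat_lit 380334601) (nat_lit 3810583805222606177407402629)) (C.cons (nat_lit 194) (C.node (nat_lit 2) (nat_lit 6) (nat_lit 7) (C.cons (nat_lit 212) (C.miq (nat_lit 879168424) (nat_lit 256299523913359417352916737)) (C.cons (nat_lit 204) (C.miq (nat_lit 1181989504) (nat_lit 246659181976040895188373249))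 (C.cons (nat_lit 196) (C.node (nat_lit 1) (nat_lit 3) (nat_lit 7) (C.cons (nat_lit 174) (C.miq (nat_lit 2836597621) (nat_lit 632287850522046498062862561)) (C.cons (nat_lit 170) (C.miq (nat_lit 2836597621) (nat_lit 632287850522046498062600417)) (C.cons (nat_lit 142) (C.miq (nat_lit 2322664242) (nat_lit 1415656987343581313003030557)) (C.cons (nat_lit 138) (C.node (nat_lit 1) (nat_lit 2) (nat_lit 7) (C.cons (nat_lit 166) (C.node (nat_lit 1) (nat_lit 7) (nat_lit 8) (C.cons (nat_lit 386) (C.node (nat_lit 2) (nat_lit 3) (nat_lit 7) (C.cons (nat_lit 140) (C.node (nat_lit 1) (nat_lit 10) (nat_lit 11) (C.cons (nat_lit 3106) (C.miq (nat_lit 2686826865) (nat_lit 44787551993982377141865090)) (C.cons (nat_lit 3078) (C.miq (nat_lit 2048408352) (nat_lit 1549850151219360515041462301)) (C.cons (nat_lit 3074) (C.node (nat_lit 2) (nat_lit 4) (nat_lit 7) C.nil) C.nil)))) C.nil)) C.nil)) (C.cons (nat_lit 134) (C.node (nat_lit 1) (nat_lit 5) (nat_lit 7) (C.cons (nat_lit 418)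 (C.node (nat_lit 5) (nat_lit 6) (nat_lit 8) (C.cons (nat_lit 876) (C.miq (nat_lit 829853864) (nat_lit 234547768500263071783063297)) (C.cons (nat_lit 872) (C.miq (nat_lit 829853864) (nat_lit 234547694713286776944856833)) (C.cons (nat_lit 868) (C.miq (nat_lit 1197804169) (nat_lit 2747898736937090985142521601)) (C.cons (nat_lit 864) (C.miq (nat_lit 1197804169) (nat_lit 2747898736937090985142259457)) (C.cons (nat_lit 364) (C.miq (nat_lit 405435744) (nat_lit 1552282353640152277912455393)) (C.cons (nat_lit 360) (C.miq (nat_lit 3011919994) (nat_lit 435271439783212050047566995)) (C.cons (nat_lit 356) (C.miq (nat_lit 405435744) (nat_lit 1552282353640152243552717025)) (C.cons (nat_lit 352) (C.node (nat_lit 2) (nat_lit 3) (nat_lit 7) (C.cons (nat_lit 172) (C.node (nat_lit 2) (nat_lit 10) (nat_lit 11) (C.cons (nat_lit 3110) (C.miq (nat_lit 840436567) (nat_lit 317954740713705324805228769)) (C.cons (nat_lit 3108) (C.miq (nat_lit 950169781) (nat_lit 1552263925335800701385967841))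 (C.cons (nat_lit 3078) (C.miq (nat_lit 2048408352) (nat_lit 1549850151219360515041462301)) C.nil)))) (C.cons (nat_lit 140) (C.node (nat_lit 2) (nat_lit 5) (nat_lit 7) (C.cons (nat_lit 180) (C.node (nat_lit 2) (nat_lit 7) (nat_lit 8) (C.cons (nat_lit 2436) (C.miq (nat_lit 2557807396) (nat_lit 505341342303496194183399453)) (C.cons (nat_lit 388)
  (C.node (nat_lit 2) (nat_lit 7) (nat_lit 11) C.nil) C.nil))) (C.cons (nat_lit 164) (C.node (nat_lit 1) (nat_lit 3) (nat_lit 10) C.nil) C.nil))) C.nil))) C.nil))))))))) (C.cons (nat_lit 162) (C.node (nat_lit 1) (nat_lit 7) (nat_lit 8) (C.cons (nat_lit 386) (C.node (nat_lit 1) (nat_lit 10) (nat_lit 11) (C.cons (nat_lit 3110) (C.miq (nat_lit 2048408352) (nat_lit 1549850151219360652480415773)) (C.cons (nat_lit 3106) (C.node (nat_lit 2) (nat_lit 10) (nat_lit 11) C.nil) (C.cons (nat_lit 3078) (C.miq (nat_lit 2048408352) (nat_lit 1549850151219360515041462301)) C.nil)))) C.nil)) C.nil))) C.nil))) C.nil))))) C.nil)))) C.nil)))))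 C.nil))) (C.cons (nat_lit 2688) (C.node (nat_lit 1) (nat_lit 10) (nat_lit 11) (C.cons (nat_lit 3110) (C.miq (nat_lit 2048408352) (nat_lit 1549850151219360652480415773)) (C.cons (nat_lit 3106) (C.node (nat_lit 2) (nat_lit 10) (nat_lit 11) (C.cons (nat_lit 3076) (C.node (nat_lit 2) (nat_lit 5) (nat_lit 10) (C.cons (nat_lit 1572) (C.node (nat_lit 5) (nat_lit 6) (nat_lit 10) C.nil) C.nil)) C.nil)) (C.cons (nat_lit 3078) (C.miq (nat_lit 2048408352) (nat_lit 1549850151219360515041462301)) (C.cons (nat_lit 3074) (C.node (nat_lit 2) (nat_lit 10) (nat_lit 11) (C.cons (nat_lit 3108) (C.node (nat_lit 2) (nat_lit 8) (nat_lit 11) (C.cons (nat_lit 2436) (C.miq (nat_lit 942278581) (nat_lit 1552280398278252489586510049)) (C.cons (nat_lit 2372) (C.miq (nat_lit 681883248) (nat_lit 1576477583332582505581840609)) (C.cons (nat_lit 2308) (C.node (nat_lit 4) (nat_lit 8) (nat_lit 11) (C.cons (nat_lit 2354) (C.miq (nat_lit 1750729906) (nat_lit 1586130837720533219462613021)) (C.cons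 (nat_lit 2352) (C.miq (nat_lit 1750729906) (nat_lit 1586130837720533210872678429)) (C.cons (nat_lit 2322) (C.miq (nat_lit 1803723792) (nat_lit 2790220954849055799285056659)) (C.cons (nat_lit 2320) (C.node (nat_lit 2) (nat_lit 3) (nat_lit 7) (C.cons (nat_lit 206) (C.miq (nat_lit 1181989504) (nat_lit 249077033615270153537785601)) (C.cons (nat_lit 204) (C.miq (nat_lit 1181989504) (nat_lit 246659181976040895188373249)) (C.cons (nat_lit 174) (C.miq (nat_lit 950169781) (nat_lit 1552263962229288848805071073)) (C.cons (nat_lit 172) (C.miq (nat_lit 950169781) (nat_lit 1552263925335800701385967841)) (C.cons (nat_lit 142) (C.miq (nat_lit 2322664242) (nat_lit 1415656987343581313003030557)) (C.cons (nat_lit 140) (C.node (nat_lit 1) (nat_lit 4) (nat_lit 11) (C.cons (nat_lit 2098) (C.node (nat_lit 5) (nat_lit 9) (nat_lit 11) (C.cons (nat_lit 2592) (C.node (nat_lit 2) (nat_lit 7) (nat_lit 11) (C.cons (nat_lit 2182) (C.miq (nat_lit 727281984) (nat_lit 3133547623205233773560005779))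 C.nil)) C.nil)) (C.cons (nat_lit 2066) (C.node (nat_lit 4) (nat_lit 5) (nat_lit 11) (C.cons (nat_lit 2096) (C.node (nat_lit 2) (nat_lit 7) (nat_lit 11) C.nil) C.nil)) C.nil))) C.nil))))))) C.nil))))) C.nil)))) C.nil)) C.nil))))) C.nil))) C.nil)) C.nil))) C.nil)) C.nil))) C.nil)) C.nil))) C.nil))) C.nil)))) C.nil))) (C.cons (nat_lit 1216) (C.miq (nat_lit 2271883444) (nat_lit 1470077851316290622212540445)) C.nil)))) (C.cons (nat_lit 3082) (C.miq (nat_lit 1940588614) (nat_lit 3725951305612191924946469201)) (C.cons (nat_lit 3080) (C.miq (nat_lit 1940588614) (nat_lit 3723533453972962666597056849)) C.nil)))) (C.cons (nat_lit 1048) (C.ref (nat_lit 282) (nat_lit 205163983024656)) C.nil))) C.nil)))) C.nil))) List.nil)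

theorem ok12_283 : okL par12 (nat_lit 284) c12_283 (nat_lit 283) = true := by decide +kernel

noncomputable def c12_284 : List C :=
  (List.cons (C.node (nat_lit 2) (nat_lit 7) (nat_lit 10) (C.cons (nat_lit 1188) (C.node (nat_lit 2) (nat_lit 4) (nat_lit 7) (C.cons (nat_lit 212) (C.node (nat_lit 1) (nat_lit 2) (nat_lit 7) (C.cons (nat_lit 142) (C.miq (nat_lit 2322664242) (nat_lit 1415656987343581313003030557)) (C.cons (nat_lit 134) (C.node (nat_lit 2) (nat_lit 3) (nat_lit 7) (C.cons (nat_lit 140) (C.node (nat_lit 6) (nat_lit 7) (nat_lit 10) (C.cons (nat_lit 1728) (C.miq (nat_lit 1689940489) (nat_lit 3733194807003415877559321221)) (C.cons (nat_lit 1216) (C.node (nat_lit 7) (nat_lit 9) (nat_lit 10) (C.cons (nat_lit 1664) (C.node (nat_lit 6) (nat_lit 10) (nat_lit 11) (C.cons (nat_lit 3138) (C.miq (nat_lit 1634904976) (nat_lit 162016223002912904372883201)) (C.cons (nat_lit 3136) (C.node (nat_lit 2) (nat_lit 4) (nat_lit 10) (C.cons (nat_lit 1556) (C.miq (nat_lit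 1805938834) (nat_lit 3733166842319527637052293765)) (C.cons (nat_lit 1300) (C.miq (nat_lit 1803710628) (nat_lit 2944947207930789415127090323)) (C.cons (nat_lit 1044) (C.node (nat_lit 2) (nat_lit 8) (nat_lit 10) (C.cons (nat_lit 1292) (C.miq (nat_lit 1461914506) (nat_lit 169269261168289669819666177)) (C.cons (nat_lit 1284) (C.node (nat_lit 4) (nat_lit 5) (nat_lit 7) (C.cons (nat_lit 432) (C.miq (nat_lit 1477080162) (nat_lit 4643505987993348864408355028)) (C.cons (nat_lit 184) (C.miq (nat_lit 2722301557) (nat_lit 2510958573429676356627073249)) (C.cons (nat_lit 176) (C.node (nat_lit 4) (nat_lit 7) (nat_lit 8) (C.cons (nat_lit 912) (C.miq (nat_lit 2823162226) (nat_lit 407428164582551898985595525)) (C.cons (nat_lit 400) (C.node (nat_lit 7) (nat_lit 8) (nat_lit 9) (C.cons (nat_lit 960) (C.miq (nat_lit 3093563762) (nat_lit 407446316178720635342815877)) (C.cons (nat_lit 928) (C.miq (nat_lit 659863696) (nat_lit 212809258825292858520571649)) (C.cons (nat_lit 896)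 (C.node (nat_lit 1) (nat_lit 10) (nat_lit 11) (C.cons (nat_lit 3106) (C.node (nat_lit 2) (nat_lit 5) (nat_lit 11) (C.cons (nat_lit 2596) (C.miq (nat_lit 354921360) (nat_lit 1436225475713762200876551937)) (C.cons (nat_lit 2084) (C.node (nat_lit 2) (nat_lit 9) (nat_lit 11) (C.cons (nat_lit 2628) (C.miq (nat_lit 2454369904) (nat_lit 1262189410361377126186420449)) (C.cons (nat_lit 2564) (C.node (nat_lit 4) (nat_lit 5) (nat_lit 11) (C.cons (nat_lit 2352) (C.miq (nat_lit 1484344096) (nat_lit 1083207883660172699401259037)) (C.cons (nat_lit 2096) (C.node (nat_lit 5) (nat_lit 8) (nat_lit 11) (C.cons (nat_lit 2344) (C.miq (nat_lit 461874480) (nat_lit 2944964898592818328561583145)) (C.cons (nat_lit 2336) (C.node (nat_lit 3) (nat_lit 5) (nat_lit 11) (C.cons (nat_lit 2600) (C.miq (nat_lit 893892874) (nat_lit 212830122139000543990976257)) (C.cons (nat_lit 2088) (C.node (nat_lit 5) (nat_lit 9) (nat_lit 11) (C.cons (nat_lit 2592) (C.node (nat_lit 3) (nat_lit 4) (nat_lit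 7) (C.cons (nat_lit 664) (C.node (nat_lit 5) (nat_lit 7) (nat_lit 9) C.nil) C.nil)) C.nil)) C.nil))) C.nil))) C.nil))) C.nil))) C.nil))) (C.cons (nat_lit 3074) (C.node (nat_lit 5) (nat_lit 10) (nat_lit 11) (C.cons (nat_lit 3104) (C.node (nat_lit 3) (nat_lit 4) (nat_lit 7) (C.cons (nat_lit 664) (C.node (nat_lit 5) (nat_lit 7) (nat_lit 9) (C.cons (nat_lit 672) (C.node (nat_lit 6) (nat_lit 7) (nat_lit 9) C.nil) C.nil)) (C.cons (nat_lit 152) (C.node (nat_lit 4) (nat_lit 7) (nat_lit 9) C.nil) C.nil))) C.nil)) C.nil))) C.nil)))) C.nil))) C.nil)))) C.nil))) C.nil)))) C.nil))) C.nil)) C.nil))) C.nil)) C.nil))) (C.cons (nat_lit 148) (C.node (nat_lit 4) (nat_lit 9) (nat_lit 11) (C.cons (nat_lit 2640) (C.node (nat_lit 3) (nat_lit 9) (nat_lit 11) (C.cons (nat_lit 2600) (C.miq (nat_lit 2710767541) (nat_lit 632287849770508310404401377)) (C.cons (nat_lit 2568) (C.node (nat_lit 4) (nat_lit 6) (nat_lit 7) (C.cons (nat_lit 216) (C.miq (nat_lit 1755791539) (nat_lit 1702171538608991363580561437))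 (C.cons (nat_lit 208) (C.node (nat_lit 6) (nat_lit 10) (nat_lit 11) (C.cons (nat_lit 3138) (C.miq (nat_lit 649660951) (nat_lit 3191576062240214191213511827)) (C.cons (nat_lit 3136) (C.node (nat_lit 1) (nat_lit 2) (nat_lit 7)
  (C.cons (nat_lit 206) (C.miq (nat_lit 2322664242) (nat_lit 1415656987343581313007224861)) (C.cons (nat_lit 198) (C.miq (nat_lit 380334601) (nat_lit 3791240992108772110612103813)) (C.cons (nat_lit 142) (C.miq (nat_lit 2322664242) (nat_lit 1415656987343581313003030557)) (C.cons (nat_lit 134) (C.node (nat_lit 1) (nat_lit 10) (nat_lit 11) (C.cons (nat_lit 3106) (C.node (nat_lit 2) (nat_lit 5) (nat_lit 11) (C.cons (nat_lit 2596) (C.miq (nat_lit 354921360) (nat_lit 1436225475713762200876551937)) (C.cons (nat_lit 2084) (C.node (nat_lit 2) (nat_lit 9) (nat_lit 11) (C.cons (nat_lit 2564) (C.node (nat_lit 5) (nat_lit 9) (nat_lit 11) (C.cons (nat_lit 2592) (C.node (nat_lit 3) (nat_lit 5) (nat_lit 11) (C.cons (nat_lit 2344) (C.miq (nat_lit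 461874480) (nat_lit 2944964898592818328561583145)) (C.cons (nat_lit 2088) (C.node (nat_lit 5) (nat_lit 9) (nat_lit 10) (C.cons (nat_lit 1632) (C.miq (nat_lit 980092308) (nat_lit 3791229684498696046373765681)) (C.cons (nat_lit 1568) (C.node (nat_lit 3) (nat_lit 8) (nat_lit 11) (C.cons (nat_lit 2378) (C.miq (nat_lit 910669834) (nat_lit 251515748304180270679133953)) (C.cons (nat_lit 2376) (C.miq (nat_lit 910669834) (nat_lit 251515748303617320725712641)) (C.cons (nat_lit 2314) (C.miq (nat_lit 2274472451) (nat_lit 3252053141214814857417394205)) (C.cons (nat_lit 2312) (C.node (nat_lit 1) (nat_lit 2) (nat_lit 11) (C.cons (nat_lit 2054) (C.node (nat_lit 2) (nat_lit 6) (nat_lit 11) C.nil) C.nil)) C.nil))))) C.nil))) C.nil))) C.nil)) C.nil)) C.nil))) (C.cons (nat_lit 3074) (C.node (nat_lit 5) (nat_lit 10) (nat_lit 11) (C.cons (nat_lit 3104) (C.node (nat_lit 2) (nat_lit 3) (nat_lit 7) (C.cons (nat_lit 204) (C.node (nat_lit 1) (nat_lit 3) (nat_lit 7) (C.cons (nat_lit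 170) (C.miq (nat_lit 2836597621) (nat_lit 632287850522046498062600417)) (C.cons (nat_lit 138) (C.node (nat_lit 6) (nat_lit 7) (nat_lit 10) (C.cons (nat_lit 1728) (C.miq (nat_lit 1000743063) (nat_lit 3791195134031908152337760901)) (C.cons (nat_lit 1216) (C.node (nat_lit 7) (nat_lit 9) (nat_lit 10) (C.cons (nat_lit 1664) (C.node (nat_lit 6) (nat_lit 7) (nat_lit 9) (C.cons (nat_lit 960) (C.miq (nat_lit 1181989248) (nat_lit 246659181831923508089261825)) (C.cons (nat_lit 704) (C.node (nat_lit 2) (nat_lit 3) (nat_lit 9) (C.cons (nat_lit 1548) (C.miq (nat_lit 1805873298) (nat_lit 3878237793099330548340097669)) (C.cons (nat_lit 812) (C.miq (nat_lit 324667687) (nat_lit 1287527599174105285357994629)) (C.cons (nat_lit 780) (C.miq (nat_lit 649672456) (nat_lit 3191578552300429172635926921)) (C.cons (nat_lit 556) (C.miq (nat_lit 324667687) (nat_lit 1287527599174104185846366853)) (C.cons (nat_lit 524) (C.node (nat_lit 1) (nat_lit 5) (nat_lit 7) (C.cons (nat_lit 418)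 (C.node (nat_lit 1) (nat_lit 6) (nat_lit 7) (C.cons (nat_lit 194) (C.node (nat_lit 6) (nat_lit 7) (nat_lit 8) C.nil) C.nil)) (C.cons (nat_lit 162) (C.node (nat_lit 1) (nat_lit 6) (nat_lit 7) (C.cons (nat_lit 450) (C.node (nat_lit 2) (nat_lit 6) (nat_lit 11) (C.cons (nat_lit 2118) (C.miq (nat_lit 840436583) (nat_lit 317954740713701064199768289)) (C.cons (nat_lit 2116) (C.node (nat_lit 6) (nat_lit 8) (nat_lit 11) (C.cons (nat_lit 2376) (C.miq (nat_lit 1194724024) (nat_lit 246627084083758167897935617)) C.nil)) C.nil))) C.nil)) C.nil))) C.nil)))))) C.nil))) C.nil)) C.nil))) C.nil))) (C.cons (nat_lit 140) (C.node (nat_lit 2) (nat_lit 6) (nat_lit 7) (C.cons (nat_lit 196) (C.node (nat_lit 2) (nat_lit 6) (nat_lit 11) (C.cons (nat_lit 2118) (C.node (nat_lit 3) (nat_lit 6) (nat_lit 11) (C.cons (nat_lit 2376) (C.miq (nat_lit 910669834) (nat_lit 251515748303617320725712641)) (C.cons (nat_lit 2120) (C.node (nat_lit 6) (nat_lit 8) (nat_lit 11) (C.cons (nat_lit 2368)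 (C.node (nat_lit 6) (nat_lit 7) (nat_lit 8) (C.cons (nat_lit 960) (C.miq (nat_lit 879168408) (nat_lit 251463820634898701597282049)) (C.cons (nat_lit 450) (C.miq (nat_lit 840436583) (nat_lit 317954740713701064199768289)) (C.cons (nat_lit 448) (C.node (nat_lit 1) (nat_lit 6) (nat_lit 7) (C.cons (nat_lit 202) (C.node (nat_lit 2) (nat_lit 5) (nat_lit 11)
  (C.cons (nat_lit 2084) (C.node (nat_lit 1) (nat_lit 6) (nat_lit 9) (C.cons (nat_lit 1634) (C.miq (nat_lit 2796771648) (nat_lit 2562942383825393801844556337)) (C.cons (nat_lit 1602) (C.miq (nat_lit 2792919344) (nat_lit 541669621582264768955744779)) (C.cons (nat_lit 866) (C.miq (nat_lit 1175632256) (nat_lit 2560543200574323344741437185)) (C.cons (nat_lit 834) (C.miq (nat_lit 1175632256) (nat_lit 2560543200574323207302483713)) (C.cons (nat_lit 610) (C.miq (nat_lit 558937748) (nat_lit 42350718170119736493410896)) C.nil)))))) C.nil)) (C.cons (nat_lit 194) (C.node (nat_lit 1) (nat_lit 3) (nat_lit 7) (C.cons (nat_lit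 170) (C.miq (nat_lit 2836597621) (nat_lit 632287850522046498062600417)) C.nil)) C.nil))) C.nil)))) C.nil)) C.nil))) (C.cons (nat_lit 2116) (C.node (nat_lit 1) (nat_lit 2) (nat_lit 11) (C.cons (nat_lit 2086) (C.node (nat_lit 2) (nat_lit 9) (nat_lit 11) (C.cons (nat_lit 2564) (C.node (nat_lit 5) (nat_lit 9) (nat_lit 11) (C.cons (nat_lit 2592) (C.node (nat_lit 1) (nat_lit 4) (nat_lit 11) (C.cons (nat_lit 2066) (C.node (nat_lit 3) (nat_lit 5) (nat_lit 11) C.nil) C.nil)) C.nil)) C.nil)) (C.cons (nat_lit 2054) (C.node (nat_lit 2) (nat_lit 5) (nat_lit 11) (C.cons (nat_lit 2596) (C.node (nat_lit 1) (nat_lit 4) (nat_lit 9) (C.cons (nat_lit 786) (C.miq (nat_lit 1729366936) (nat_lit 1415658351961287779276689153)) (C.cons (nat_lit 534) (C.miq (nat_lit 1494725184) (nat_lit 3252052384943343354900580381)) (C.cons (nat_lit 530) (C.node (nat_lit 2) (nat_lit 4) (nat_lit 9) (C.cons (nat_lit 1556) (C.miq (nat_lit 1380432288) (nat_lit 178962951482960382254059265)) (C.cons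 (nat_lit 788) (C.miq (nat_lit 1461980041) (nat_lit 178931370566193553570270977)) (C.cons (nat_lit 532) (C.node (nat_lit 4) (nat_lit 9) (nat_lit 10) (C.cons (nat_lit 1560) (C.miq (nat_lit 2507817139) (nat_lit 1436232650780851671057041437)) (C.cons (nat_lit 1552) (C.node (nat_lit 4) (nat_lit 5) (nat_lit 11) (C.cons (nat_lit 2354) (C.miq (nat_lit 2224207111) (nat_lit 643193472966140782107232481)) (C.cons (nat_lit 2352) (C.miq (nat_lit 2224207111) (nat_lit 643193472965577832153811169)) (C.cons (nat_lit 2098) (C.miq (nat_lit 1500623364) (nat_lit 3252049156763130932470417437)) (C.cons (nat_lit 2096) (C.node (nat_lit 1) (nat_lit 4) (nat_lit 11) (C.cons (nat_lit 2066) (C.node (nat_lit 4) (nat_lit 8) (nat_lit 11) C.nil) C.nil)) C.nil))))) C.nil))) C.nil)))) C.nil)))) (C.cons (nat_lit 2084) (C.node (nat_lit 2) (nat_lit 9) (nat_lit 11) (C.cons (nat_lit 2564) (C.node (nat_lit 5) (nat_lit 9) (nat_lit 11) C.nil) C.nil)) C.nil))) C.nil))) C.nil))) C.nil)) C.nil))) C.nil))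 C.nil))) C.nil))))) C.nil))) C.nil))) C.nil))) (C.cons (nat_lit 2576) (C.node (nat_lit 4) (nat_lit 6) (nat_lit 11) (C.cons (nat_lit 2130) (C.node (nat_lit 6) (nat_lit 10) (nat_lit 11) (C.cons (nat_lit 3136) (C.node (nat_lit 2) (nat_lit 6) (nat_lit 11) (C.cons (nat_lit 2628) (C.miq (nat_lit 1769058820) (nat_lit 3252049747067948490430810141)) (C.cons (nat_lit 2116) (C.node (nat_lit 6) (nat_lit 8) (nat_lit 11) (C.cons (nat_lit 2376) (C.miq (nat_lit 1805943664) (nat_lit 3733169148191526054607913353)) (C.cons (nat_lit 2368) (C.node (nat_lit 1) (nat_lit 4) (nat_lit 9) (C.cons (nat_lit 786) (C.miq (nat_lit 1900460416) (nat_lit 2575053925985610747153026817)) (C.cons (nat_lit 534) (C.miq (nat_lit 1637332000) (nat_lit 3252052384812176015718942749)) (C.cons (nat_lit 530) (C.node (nat_lit 1) (nat_lit 2) (nat_lit 7) (C.cons (nat_lit 206) (C.miq (nat_lit 2322664242) (nat_lit 1415656987343581313007224861)) (C.cons (nat_lit 198) (C.miq (nat_lit 2870348146) (nat_lit 2575032159151589645684703877))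 (C.cons (nat_lit 142) (C.miq (nat_lit 2322664242) (nat_lit 1415656987343581313003030557)) (C.cons (nat_lit 134) (C.node (nat_lit 1) (nat_lit 2) (nat_lit 4) (C.cons (nat_lit 54) (C.node (nat_lit 1) (nat_lit 2) (nat_lit 11) (C.cons (nat_lit 2054) (C.node (nat_lit 1) (nat_lit 3) (nat_lit 4) (C.cons (nat_lit 282) (C.miq (nat_lit 834110560) (nat_lit 3252017704413158539675107665)) (C.cons (nat_lit 26) (C.node (nat_lit 1) (nat_lit 4) (nat_lit 8)
  (C.cons (nat_lit 274) (C.node (nat_lit 2) (nat_lit 5) (nat_lit 11) (C.cons (nat_lit 2596) (C.miq (nat_lit 2871069012) (nat_lit 2483155235706915174015697457)) (C.cons (nat_lit 2084) (C.node (nat_lit 2) (nat_lit 9) (nat_lit 11) (C.cons (nat_lit 2564) (C.node (nat_lit 5) (nat_lit 9) (nat_lit 11) (C.cons (nat_lit 2600) (C.miq (nat_lit 2710767541) (nat_lit 632287849770508310404401377)) (C.cons (nat_lit 2592) (C.node (nat_lit 1) (nat_lit 10) (nat_lit 11) (C.cons (nat_lit 3106) (C.node (nat_lit 1) (nat_lit 3) (nat_lit 11)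 C.nil) C.nil)) C.nil))) C.nil)) C.nil))) C.nil)) C.nil))) C.nil)) (C.cons (nat_lit 22) (C.node (nat_lit 1) (nat_lit 2) (nat_lit 11) (C.cons (nat_lit 2086) (C.node (nat_lit 1) (nat_lit 10) (nat_lit 11) (C.cons (nat_lit 3074) (C.node (nat_lit 2) (nat_lit 9) (nat_lit 11) (C.cons (nat_lit 2564) (C.node (nat_lit 5) (nat_lit 10) (nat_lit 11) (C.cons (nat_lit 3104) (C.node (nat_lit 1) (nat_lit 3) (nat_lit 11) (C.cons (nat_lit 2058) (C.node (nat_lit 1) (nat_lit 8) (nat_lit 11) C.nil) C.nil)) C.nil)) C.nil)) C.nil)) (C.cons (nat_lit 2054) (C.node (nat_lit 1) (nat_lit 10) (nat_lit 11) (C.cons (nat_lit 3106) (C.node (nat_lit 1) (nat_lit 3) (nat_lit 11) (C.cons (nat_lit 2314) (C.miq (nat_lit 2274472451) (nat_lit 3252053141214814857417394205)) (C.cons (nat_lit 2058) (C.node (nat_lit 1) (nat_lit 8) (nat_lit 11) (C.cons (nat_lit 2306) (C.node (nat_lit 2) (nat_lit 5) (nat_lit 11) (C.cons (nat_lit 2084) (C.node (nat_lit 2) (nat_lit 9) (nat_lit 11) C.nil) C.nil)) C.nil))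 C.nil))) (C.cons (nat_lit 3074) (C.node (nat_lit 5) (nat_lit 10) (nat_lit 11) (C.cons (nat_lit 3104) (C.node (nat_lit 2) (nat_lit 3) (nat_lit 7) (C.cons (nat_lit 204) (C.node (nat_lit 1) (nat_lit 3) (nat_lit 7) (C.cons (nat_lit 170) (C.miq (nat_lit 2836597621) (nat_lit 632287850522046498062600417)) (C.cons (nat_lit 138) (C.node (nat_lit 1) (nat_lit 6) (nat_lit 7) (C.cons (nat_lit 450) (C.miq (nat_lit 946538260) (nat_lit 2862774654845504579165095059)) (C.cons (nat_lit 194) (C.node (nat_lit 6) (nat_lit 7) (nat_lit 8) (C.cons (nat_lit 960) (C.miq (nat_lit 998645911) (nat_lit 2862740104567872946113086085)) (C.cons (nat_lit 448) (C.node (nat_lit 6) (nat_lit 7) (nat_lit 10) (C.cons (nat_lit 1728) (C.miq (nat_lit 1000743063) (nat_lit 3791195134031908152337760901)) (C.cons (nat_lit 1216) (C.node (nat_lit 7) (nat_lit 9) (nat_lit 10) (C.cons (nat_lit 1664) (C.node (nat_lit 1) (nat_lit 5) (nat_lit 7) C.nil) C.nil)) C.nil))) C.nil))) C.nil))) C.nil))) (C.cons (nat_lit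 140) (C.node (nat_lit 2) (nat_lit 6) (nat_lit 7) (C.cons (nat_lit 196) (C.node (nat_lit 2) (nat_lit 5) (nat_lit 11) (C.cons (nat_lit 2596) (C.node (nat_lit 3) (nat_lit 6) (nat_lit 11) (C.cons (nat_lit 2120) (C.node (nat_lit 3) (nat_lit 9) (nat_lit 11) C.nil) C.nil)) (C.cons (nat_lit 2084) (C.node (nat_lit 2) (nat_lit 9) (nat_lit 11) C.nil) C.nil))) C.nil)) C.nil))) C.nil)) C.nil))) C.nil))) C.nil))) C.nil))))) C.nil)))) C.nil))) C.nil))) C.nil)) (C.cons (nat_lit 2128) (C.node (nat_lit 5) (nat_lit 10) (nat_lit 11) (C.cons (nat_lit 3106) (C.node (nat_lit 6) (nat_lit 10) (nat_lit 11) (C.cons (nat_lit 3136) (C.node (nat_lit 2) (nat_lit 5) (nat_lit 11) (C.cons (nat_lit 2596) (C.miq (nat_lit 354921360) (nat_lit 1436225475713762200876551937)) (C.cons (nat_lit 2084) (C.node (nat_lit 2) (nat_lit 9) (nat_lit 11) (C.cons (nat_lit 2628) (C.miq (nat_lit 459962656) (nat_lit 3791212972205966380360860293)) (C.cons (nat_lit 2564) (C.node (nat_lit 5) (nat_lit 9) (nat_lit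 11) (C.cons (nat_lit 2600) (C.miq (nat_lit 2710767541) (nat_lit 632287849770508310404401377)) (C.cons (nat_lit 2592) (C.node (nat_lit 3) (nat_lit 5) (nat_lit 11) (C.cons (nat_lit 2344) (C.miq (nat_lit 461874480) (nat_lit 2944964898592818328561583145)) (C.cons (nat_lit 2088) (C.node (nat_lit 3) (nat_lit 8) (nat_lit 11) (C.cons (nat_lit 2376) (C.miq (nat_lit 1805943664) (nat_lit 3733169148191526054607913353)) (C.cons (nat_lit 2314) (C.miq (nat_lit 2274472451) (nat_lit 3252053141214814857417394205)) (C.cons (nat_lit 2312)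
  (C.node (nat_lit 1) (nat_lit 2) (nat_lit 11) (C.cons (nat_lit 2118) (C.node (nat_lit 1) (nat_lit 3) (nat_lit 11) C.nil) C.nil)) C.nil)))) C.nil))) C.nil))) C.nil))) C.nil))) C.nil)) (C.cons (nat_lit 3104) (C.node (nat_lit 1) (nat_lit 10) (nat_lit 11) (C.cons (nat_lit 3138) (C.node (nat_lit 2) (nat_lit 6) (nat_lit 11) (C.cons (nat_lit 2628) (C.node (nat_lit 3) (nat_lit 6) (nat_lit 11) (C.cons (nat_lit 2376) (C.miq (nat_lit 1805943664) (nat_lit 3733169148191526054607913353)) (C.cons (nat_lit 2120) (C.node (nat_lit 6) (nat_lit 8) (nat_lit 11) (C.cons (nat_lit 2368) (C.node (nat_lit 3) (nat_lit 9) (nat_lit 11) (C.cons (nat_lit 2600) (C.miq (nat_lit 2710767541) (nat_lit 632287849770508310404401377)) (C.cons (nat_lit 2568) (C.node (nat_lit 5) (nat_lit 9) (nat_lit 11) (C.cons (nat_lit 2592) (C.node (nat_lit 1) (nat_lit 2) (nat_lit 11) (C.cons (nat_lit 2054) (C.node (nat_lit 2) (nat_lit 5) (nat_lit 11) C.nil) C.nil)) C.nil)) C.nil))) C.nil)) C.nil))) (C.cons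 (nat_lit 2116) (C.miq (nat_lit 2456514721) (nat_lit 2558136656227669666955396243)) C.nil))) (C.cons (nat_lit 3074) (C.node (nat_lit 6) (nat_lit 10) (nat_lit 11) (C.cons (nat_lit 3136) (C.node (nat_lit 1) (nat_lit 2) (nat_lit 7) (C.cons (nat_lit 206) (C.miq (nat_lit 2322664242) (nat_lit 1415656987343581313007224861)) (C.cons (nat_lit 198) (C.miq (nat_lit 1789993111) (nat_lit 3716241622258365324228428421)) (C.cons (nat_lit 142) (C.miq (nat_lit 2322664242) (nat_lit 1415656987343581313003030557)) (C.cons (nat_lit 134) (C.node (nat_lit 2) (nat_lit 3) (nat_lit 7) (C.cons (nat_lit 204) (C.node (nat_lit 1) (nat_lit 3) (nat_lit 7) (C.cons (nat_lit 170) (C.miq (nat_lit 2836597621) (nat_lit 632287850522046498062600417)) (C.cons (nat_lit 138) (C.node (nat_lit 6) (nat_lit 7) (nat_lit 10) (C.cons (nat_lit 1728) (C.miq (nat_lit 1000743063) (nat_lit 3791195134031908152337760901)) (C.cons (nat_lit 1216) (C.node (nat_lit 7) (nat_lit 9) (nat_lit 10) (C.cons (nat_lit 1664)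 (C.node (nat_lit 9) (nat_lit 2) (nat_lit 3) (C.cons (nat_lit 812) (C.miq (nat_lit 441648937) (nat_lit 1287515645866342921360114309)) (C.cons (nat_lit 556) (C.miq (nat_lit 441648937) (nat_lit 1287515645866342921343337093)) (C.cons (nat_lit 1548) (C.miq (nat_lit 1672180368) (nat_lit 3878275958830437478378308229)) (C.cons (nat_lit 780) (C.miq (nat_lit 2422442866) (nat_lit 88265974373400571223476612)) (C.cons (nat_lit 524) (C.node (nat_lit 1) (nat_lit 5) (nat_lit 7) (C.cons (nat_lit 418) (C.node (nat_lit 1) (nat_lit 6) (nat_lit 7) (C.cons (nat_lit 194) (C.node (nat_lit 8) (nat_lit 6) (nat_lit 7) (C.cons (nat_lit 960) (C.miq (nat_lit 2419493671) (nat_lit 88269294787332997129177476)) (C.cons (nat_lit 448) (C.node (nat_lit 5) (nat_lit 7) (nat_lit 4) (C.cons (nat_lit 184) (C.miq (nat_lit 2591361844) (nat_lit 1436214223406763974422169629)) (C.cons (nat_lit 176) (C.node (nat_lit 8) (nat_lit 9) (nat_lit 7) (C.cons (nat_lit 912) (C.node (nat_lit 9) (nat_lit 6) (nat_lit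 7) C.nil) C.nil)) C.nil))) C.nil))) C.nil)) (C.cons (nat_lit 162) (C.node (nat_lit 1) (nat_lit 8) (nat_lit 7) (C.cons (nat_lit 450) (C.node (nat_lit 8) (nat_lit 6) (nat_lit 11) (C.cons (nat_lit 2376) (C.miq (nat_lit 2556889906) (nat_lit 544028518057666261679867933)) (C.cons (nat_lit 2368) (C.node (nat_lit 6) (nat_lit 2) (nat_lit 11) (C.cons (nat_lit 2628) (C.miq (nat_lit 2524492336) (nat_lit 544087473510287362000226333)) (C.cons (nat_lit 2118) (C.miq (nat_lit 840436583) (nat_lit 317954740713701064199768289)) (C.cons (nat_lit 2116) (C.node (nat_lit 9) (nat_lit 6) (nat_lit 7) (C.cons (nat_lit 704) (C.node (nat_lit 6) (nat_lit 7) (nat_lit 4) C.nil) C.nil)) C.nil)))) C.nil))) (C.cons (nat_lit 386) (C.node (nat_lit 1) (nat_lit 6) (nat_lit 7) (C.cons (nat_lit 194) (C.node (nat_lit 8) (nat_lit 6) (nat_lit 7) (C.cons (nat_lit 960) (C.miq (nat_lit 2419493671) (nat_lit 88269294787332997129177476)) C.nil)) C.nil)) C.nil))) C.nil))) C.nil)))))) C.nil)) C.nil))) C.nil)))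 (C.cons (nat_lit 140) (C.node (nat_lit 2) (nat_lit 6) (nat_lit 7) (C.cons (nat_lit 196)
  (C.node (nat_lit 6) (nat_lit 7) (nat_lit 10) (C.cons (nat_lit 1728) (C.node (nat_lit 4) (nat_lit 6) (nat_lit 7) (C.cons (nat_lit 216) (C.miq (nat_lit 2322991924) (nat_lit 2089030033927991217826039837)) (C.cons (nat_lit 208) (C.node (nat_lit 3) (nat_lit 9) (nat_lit 10) (C.cons (nat_lit 1560) (C.miq (nat_lit 1470696244) (nat_lit 2089034165557310965371373597)) (C.cons (nat_lit 1548) (C.miq (nat_lit 1782282528) (nat_lit 3878275959259405342769742469)) (C.cons (nat_lit 1544) (C.node (nat_lit 4) (nat_lit 9) (nat_lit 10) (C.cons (nat_lit 1556) (C.miq (nat_lit 1783331104) (nat_lit 3733204860905649876164739717)) (C.cons (nat_lit 1552) (C.node (nat_lit 2) (nat_lit 9) (nat_lit 10) (C.cons (nat_lit 1542) (C.miq (nat_lit 1729235866) (nat_lit 162016222759437049576951553)) (C.cons (nat_lit 1540) (C.node (nat_lit 3) (nat_lit 9) (nat_lit 11) (C.cons (nat_lit 2632) (C.miq (nat_lit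 913619360) (nat_lit 251494885108133523560271617)) (C.cons (nat_lit 2600) (C.miq (nat_lit 1245251509) (nat_lit 1866591814438033772958451937)) (C.cons (nat_lit 2568) (C.node (nat_lit 6) (nat_lit 9) (nat_lit 11) (C.cons (nat_lit 2628) (C.miq (nat_lit 645183904) (nat_lit 251494885107007623653428993)) (C.cons (nat_lit 2624) (C.node (nat_lit 1) (nat_lit 2) (nat_lit 10) (C.cons (nat_lit 1038) (C.node (nat_lit 1) (nat_lit 9) (nat_lit 10) (C.cons (nat_lit 1570) (C.miq (nat_lit 1168247059) (nat_lit 1436242187747534759391003147)) C.nil)) (C.cons (nat_lit 1030) (C.node (nat_lit 1) (nat_lit 9) (nat_lit 10) C.nil) C.nil))) C.nil))) C.nil)))) C.nil))) C.nil))) C.nil)))) C.nil))) (C.cons (nat_lit 1216) (C.node (nat_lit 7) (nat_lit 9) (nat_lit 10) (C.cons (nat_lit 1664) (C.ref (nat_lit 255) (nat_lit 198128827013136)) C.nil)) C.nil))) C.nil)) C.nil))) C.nil))))) C.nil)) C.nil))) C.nil))) C.nil))) C.nil))) C.nil))) (C.cons (nat_lit 1156) (C.node (nat_lit 5) (nat_lit 7)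 (nat_lit 10) (C.cons (nat_lit 1696) (C.miq (nat_lit 2545179184) (nat_lit 2649975745696087840906871849)) (C.cons (nat_lit 1184) (C.node (nat_lit 4) (nat_lit 9) (nat_lit 11) (C.cons (nat_lit 2640) (C.node (nat_lit 3) (nat_lit 9) (nat_lit 11) (C.cons (nat_lit 2600) (C.miq (nat_lit 2710767541) (nat_lit 632287849770508310404401377)) (C.cons (nat_lit 2568) (C.node (nat_lit 6) (nat_lit 10) (nat_lit 11) (C.cons (nat_lit 3138) (C.miq (nat_lit 649660951) (nat_lit 3191576062240214191213511827)) (C.cons (nat_lit 3136) (C.node (nat_lit 1) (nat_lit 10) (nat_lit 11) (C.cons (nat_lit 3106) (C.node (nat_lit 2) (nat_lit 5) (nat_lit 11) (C.cons (nat_lit 2596) (C.miq (nat_lit 1376434545) (nat_lit 1321413217156594439692683906)) (C.cons (nat_lit 2084) (C.node (nat_lit 2) (nat_lit 9) (nat_lit 11) (C.cons (nat_lit 2564) (C.node (nat_lit 5) (nat_lit 9) (nat_lit 11) (C.cons (nat_lit 2592) (C.node (nat_lit 3) (nat_lit 5) (nat_lit 11) (C.cons (nat_lit 2344) (C.miq (nat_lit 461874480)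 (nat_lit 2944964898592818328561583145)) (C.cons (nat_lit 2088) (C.node (nat_lit 3) (nat_lit 8) (nat_lit 11) (C.cons (nat_lit 2378) (C.miq (nat_lit 2274472451) (nat_lit 3252054321806435574828697629)) (C.cons (nat_lit 2376) (C.miq (nat_lit 1805943664) (nat_lit 3733169148191526054607913353)) (C.cons (nat_lit 2314) (C.miq (nat_lit 2274472451) (nat_lit 3252053141214814857417394205)) (C.cons (nat_lit 2312) (C.node (nat_lit 1) (nat_lit 2) (nat_lit 11) (C.cons (nat_lit 2054) (C.node (nat_lit 2) (nat_lit 6) (nat_lit 11) C.nil) C.nil)) C.nil))))) C.nil))) C.nil)) C.nil)) C.nil))) (C.cons (nat_lit 3074) (C.node (nat_lit 5) (nat_lit 10) (nat_lit 11) (C.cons (nat_lit 3104) (C.node (nat_lit 2) (nat_lit 6) (nat_lit 11) (C.cons (nat_lit 2118) (C.node (nat_lit 3) (nat_lit 6) (nat_lit 11) (C.cons (nat_lit 2376) (C.miq (nat_lit 1805943664) (nat_lit 3733169148191526054607913353)) (C.cons (nat_lit 2120) (C.node (nat_lit 6) (nat_lit 8) (nat_lit 11) (C.cons (nat_lit 2368) (C.node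 (nat_lit 6) (nat_lit 7) (nat_lit 8) (C.cons (nat_lit 960) (C.miq (nat_lit 2041808448) (nat_lit 3104528754611016004991254865)) (C.cons (nat_lit 450) (C.miq (nat_lit 840436583) (nat_lit 317954740713701064199768289))
  (C.cons (nat_lit 448) (C.node (nat_lit 1) (nat_lit 6) (nat_lit 7) (C.cons (nat_lit 202) (C.node (nat_lit 2) (nat_lit 3) (nat_lit 7) (C.cons (nat_lit 172) (C.miq (nat_lit 2270868016) (nat_lit 1431439025053381843311200285)) (C.cons (nat_lit 140) (C.node (nat_lit 1) (nat_lit 6) (nat_lit 9) (C.cons (nat_lit 1634) (C.miq (nat_lit 2796771648) (nat_lit 2562942383825393801844556337)) (C.cons (nat_lit 1602) (C.miq (nat_lit 2792919344) (nat_lit 541669621582264768955744779)) (C.cons (nat_lit 866) (C.miq (nat_lit 1175632256) (nat_lit 2560543200574323344741437185)) (C.cons (nat_lit 834) (C.miq (nat_lit 1175632256) (nat_lit 2560543200574323207302483713)) (C.cons (nat_lit 610) (C.miq (nat_lit 558937748) (nat_lit 42350718170119736493410896)) (C.cons (nat_lit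 578) (C.node (nat_lit 1) (nat_lit 4) (nat_lit 9) (C.cons (nat_lit 786) (C.miq (nat_lit 1729366936) (nat_lit 1415658351961287779276689153)) (C.cons (nat_lit 534) (C.miq (nat_lit 1444481828) (nat_lit 698769473000482732877678621)) (C.cons (nat_lit 530) (C.node (nat_lit 3) (nat_lit 8) (nat_lit 10) (C.cons (nat_lit 1352) (C.miq (nat_lit 2299964275) (nat_lit 698784064816400257314851976)) (C.cons (nat_lit 1304) (C.miq (nat_lit 1181974714) (nat_lit 244227070211294040368353025)) (C.cons (nat_lit 1292) (C.miq (nat_lit 1461914506) (nat_lit 169269261168289669819666177)) (C.cons (nat_lit 1290) (C.miq (nat_lit 2204868976) (nat_lit 2562993591890104556453954707)) (C.cons (nat_lit 1288) (C.node (nat_lit 1) (nat_lit 2) (nat_lit 4) (C.cons (nat_lit 54) (C.node (nat_lit 1) (nat_lit 2) (nat_lit 7) (C.cons (nat_lit 134) (C.node (nat_lit 1) (nat_lit 4) (nat_lit 6) (C.cons (nat_lit 82) (C.node (nat_lit 2) (nat_lit 5) (nat_lit 7) (C.cons (nat_lit 164) (C.node (nat_lit 1) (nat_lit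 2) (nat_lit 9) (C.cons (nat_lit 1542) (C.miq (nat_lit 1898363296) (nat_lit 2560546816150238444101373697)) (C.cons (nat_lit 518) (C.node (nat_lit 1) (nat_lit 4) (nat_lit 11) C.nil) C.nil))) C.nil)) C.nil)) C.nil)) (C.cons (nat_lit 22) (C.node (nat_lit 1) (nat_lit 2) (nat_lit 7) (C.cons (nat_lit 166) (C.node (nat_lit 1) (nat_lit 7) (nat_lit 8) (C.cons (nat_lit 386) (C.node (nat_lit 1) (nat_lit 2) (nat_lit 9) (C.cons (nat_lit 1542) (C.miq (nat_lit 1898363296) (nat_lit 2560546816150238444101373697)) (C.cons (nat_lit 518) (C.node (nat_lit 1) (nat_lit 3) (nat_lit 11) (C.cons (nat_lit 2346) (C.miq (nat_lit 2166994288) (nat_lit 626294429164706039255599329)) C.nil)) C.nil))) C.nil)) (C.cons (nat_lit 134) (C.node (nat_lit 1) (nat_lit 3) (nat_lit 10) (C.cons (nat_lit 1038) (C.node (nat_lit 1) (nat_lit 4) (nat_lit 6) (C.cons (nat_lit 114) (C.miq (nat_lit 2774610098) (nat_lit 137836691456196849227401245)) (C.cons (nat_lit 82) (C.node (nat_lit 1) (nat_lit 3) (nat_lit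 11) (C.cons (nat_lit 2346) (C.miq (nat_lit 2274472451) (nat_lit 3252053731510625216123045917)) C.nil)) C.nil))) (C.cons (nat_lit 1034) (C.node (nat_lit 1) (nat_lit 3) (nat_lit 11) (C.cons (nat_lit 2346) (C.miq (nat_lit 557476688) (nat_lit 1250049460368973207922346209)) (C.cons (nat_lit 2314) (C.miq (nat_lit 2274472451) (nat_lit 3252053141214814857417394205)) (C.cons (nat_lit 2090) (C.miq (nat_lit 557476688) (nat_lit 1250049460368972108410718433)) (C.cons (nat_lit 2058) (C.node (nat_lit 1) (nat_lit 2) (nat_lit 3) C.nil) C.nil))))) C.nil))) C.nil))) C.nil))) C.nil)))))) C.nil)))) C.nil))))))) C.nil))) (C.cons (nat_lit 194) (C.node (nat_lit 1) (nat_lit 3) (nat_lit 7) (C.cons (nat_lit 174) (C.miq (nat_lit 2836597621) (nat_lit 632287850522046498062862561)) (C.cons (nat_lit 170) (C.miq (nat_lit 2836597621) (nat_lit 632287850522046498062600417)) (C.cons (nat_lit 142) (C.miq (nat_lit 2322664242) (nat_lit 1415656987343581313003030557)) (C.cons (nat_lit 138) (C.node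 (nat_lit 1) (nat_lit 2) (nat_lit 7) (C.cons (nat_lit 166) (C.node (nat_lit 1) (nat_lit 7) (nat_lit 8) (C.cons (nat_lit 386) (C.node (nat_lit 2) (nat_lit 5) (nat_lit 11) (C.cons (nat_lit 2596) (C.miq (nat_lit 448098450) (nat_lit 3752508806572948888941232773)) (C.cons (nat_lit 2084) (C.node (nat_lit 2) (nat_lit 9) (nat_lit 11)
  (C.cons (nat_lit 2564) (C.node (nat_lit 5) (nat_lit 9) (nat_lit 11) C.nil) C.nil)) C.nil))) C.nil)) (C.cons (nat_lit 134) (C.node (nat_lit 1) (nat_lit 5) (nat_lit 7) (C.cons (nat_lit 418) (C.node (nat_lit 1) (nat_lit 8) (nat_lit 9) (C.cons (nat_lit 834) (C.miq (nat_lit 1175632256) (nat_lit 2560543200574323207302483713)) (C.cons (nat_lit 786) (C.miq (nat_lit 1729366936) (nat_lit 1415658351961287779276689153)) (C.cons (nat_lit 770) (C.node (nat_lit 2) (nat_lit 5) (nat_lit 7) (C.cons (nat_lit 180) (C.miq (nat_lit 2557807396) (nat_lit 505341342303496194183399453)) (C.cons (nat_lit 172) (C.miq (nat_lit 2270868016) (nat_lit 1431439025053381843311200285))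 (C.cons (nat_lit 164) (C.node (nat_lit 4) (nat_lit 5) (nat_lit 7) (C.cons (nat_lit 184) (C.miq (nat_lit 2591361844) (nat_lit 1431378520128305457723344925)) C.nil)) C.nil)))) C.nil)))) (C.cons (nat_lit 162) (C.node (nat_lit 1) (nat_lit 7) (nat_lit 8) (C.cons (nat_lit 386) (C.node (nat_lit 2) (nat_lit 5) (nat_lit 11) (C.cons (nat_lit 2084) (C.node (nat_lit 6) (nat_lit 7) (nat_lit 10) C.nil) C.nil)) C.nil)) C.nil))) C.nil))) C.nil))))) C.nil))) C.nil)))) C.nil)) C.nil))) (C.cons (nat_lit 2116) (C.node (nat_lit 1) (nat_lit 2) (nat_lit 11) (C.cons (nat_lit 2086) (C.node (nat_lit 2) (nat_lit 9) (nat_lit 11) (C.cons (nat_lit 2564) (C.node (nat_lit 5) (nat_lit 9) (nat_lit 11) (C.cons (nat_lit 2592) (C.node (nat_lit 1) (nat_lit 4) (nat_lit 11) (C.cons (nat_lit 2066) (C.node (nat_lit 3) (nat_lit 5) (nat_lit 11) C.nil) C.nil)) C.nil)) C.nil)) (C.cons (nat_lit 2054) (C.node (nat_lit 2) (nat_lit 5) (nat_lit 11) (C.cons (nat_lit 2596) (C.node (nat_lit 1) (nat_lit 4)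 (nat_lit 9) (C.cons (nat_lit 786) (C.miq (nat_lit 1729366936) (nat_lit 1415658351961287779276689153)) (C.cons (nat_lit 534) (C.miq (nat_lit 1494725184) (nat_lit 3252052384943343354900580381)) (C.cons (nat_lit 530) (C.node (nat_lit 2) (nat_lit 4) (nat_lit 9) (C.cons (nat_lit 1556) (C.miq (nat_lit 2591368203) (nat_lit 1431416058609316386165557277)) (C.cons (nat_lit 788) (C.miq (nat_lit 1797784980) (nat_lit 2944949513773793281553203761)) (C.cons (nat_lit 532) (C.node (nat_lit 4) (nat_lit 9) (nat_lit 10) (C.cons (nat_lit 1560) (C.miq (nat_lit 2507817139) (nat_lit 1431396947502393154358216733)) (C.cons (nat_lit 1552) (C.node (nat_lit 4) (nat_lit 5) (nat_lit 11) (C.cons (nat_lit 2354) (C.miq (nat_lit 2224207111) (nat_lit 643193472966140782107232481)) (C.cons (nat_lit 2352) (C.miq (nat_lit 2224207111) (nat_lit 643193472965577832153811169)) (C.cons (nat_lit 2098) (C.miq (nat_lit 1500623364) (nat_lit 3252049156763130932470417437)) (C.cons (nat_lit 2096) (C.node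 (nat_lit 1) (nat_lit 4) (nat_lit 11) (C.cons (nat_lit 2066) (C.node (nat_lit 4) (nat_lit 8) (nat_lit 11) C.nil) C.nil)) C.nil))))) C.nil))) C.nil)))) C.nil)))) (C.cons (nat_lit 2084) (C.node (nat_lit 2) (nat_lit 9) (nat_lit 11) (C.cons (nat_lit 2564) (C.node (nat_lit 5) (nat_lit 9) (nat_lit 11) C.nil) C.nil)) C.nil))) C.nil))) C.nil))) C.nil)) C.nil))) C.nil))) C.nil))) (C.cons (nat_lit 2576) (C.node (nat_lit 4) (nat_lit 6) (nat_lit 11) (C.cons (nat_lit 2130) (C.node (nat_lit 6) (nat_lit 10) (nat_lit 11) (C.cons (nat_lit 3136) (C.node (nat_lit 2) (nat_lit 6) (nat_lit 11) (C.cons (nat_lit 2628) (C.miq (nat_lit 1769058820) (nat_lit 3252049747067948490430810141)) (C.cons (nat_lit 2116) (C.node (nat_lit 6) (nat_lit 8) (nat_lit 11) (C.cons (nat_lit 2376) (C.miq (nat_lit 1805943664) (nat_lit 3733169148191526054607913353)) (C.cons (nat_lit 2368) (C.node (nat_lit 1) (nat_lit 4) (nat_lit 9) (C.cons (nat_lit 786) (C.miq (nat_lit 1900460416) (nat_lit 2575053925985610747153026817))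 (C.cons (nat_lit 534) (C.miq (nat_lit 1637332000) (nat_lit 3252052384812176015718942749)) (C.cons (nat_lit 530) (C.node (nat_lit 1) (nat_lit 2) (nat_lit 4) (C.cons (nat_lit 54) (C.node (nat_lit 1) (nat_lit 2) (nat_lit 11) (C.cons (nat_lit 2054) (C.node (nat_lit 1) (nat_lit 3) (nat_lit 4) (C.cons (nat_lit 282) (C.miq (nat_lit 834110560) (nat_lit 3252017704413158539675107665)) (C.cons (nat_lit 26)
  (C.node (nat_lit 1) (nat_lit 4) (nat_lit 8) (C.cons (nat_lit 274) (C.node (nat_lit 2) (nat_lit 5) (nat_lit 7) (C.cons (nat_lit 172) (C.miq (nat_lit 2270868016) (nat_lit 1431439025053381843311200285)) (C.cons (nat_lit 164) (C.node (nat_lit 2) (nat_lit 5) (nat_lit 11) (C.cons (nat_lit 2596) (C.miq (nat_lit 2871069012) (nat_lit 2483155235706915174015697457)) (C.cons (nat_lit 2084) (C.node (nat_lit 2) (nat_lit 9) (nat_lit 11) (C.cons (nat_lit 2564) (C.node (nat_lit 5) (nat_lit 9) (nat_lit 11) (C.cons (nat_lit 2600) (C.miq (nat_lit 2710767541) (nat_lit 632287849770508310404401377))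 (C.cons (nat_lit 2592) (C.node (nat_lit 1) (nat_lit 10) (nat_lit 11) (C.cons (nat_lit 3106) (C.node (nat_lit 1) (nat_lit 3) (nat_lit 11) C.nil) C.nil)) C.nil))) C.nil)) C.nil))) C.nil))) C.nil)) C.nil))) C.nil)) (C.cons (nat_lit 22) (C.node (nat_lit 1) (nat_lit 2) (nat_lit 11) (C.cons (nat_lit 2086) (C.node (nat_lit 1) (nat_lit 10) (nat_lit 11) (C.cons (nat_lit 3074) (C.node (nat_lit 2) (nat_lit 9) (nat_lit 11) (C.cons (nat_lit 2564) (C.node (nat_lit 5) (nat_lit 10) (nat_lit 11) (C.cons (nat_lit 3104) (C.node (nat_lit 1) (nat_lit 3) (nat_lit 11) (C.cons (nat_lit 2058) (C.node (nat_lit 1) (nat_lit 8) (nat_lit 11) C.nil) C.nil)) C.nil)) C.nil)) C.nil)) (C.cons (nat_lit 2054) (C.node (nat_lit 1) (nat_lit 10) (nat_lit 11) (C.cons (nat_lit 3106) (C.node (nat_lit 1) (nat_lit 3) (nat_lit 11) (C.cons (nat_lit 2314) (C.miq (nat_lit 2274472451) (nat_lit 3252053141214814857417394205)) (C.cons (nat_lit 2058) (C.node (nat_lit 1) (nat_lit 8) (nat_lit 11) (C.cons (nat_lit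 2306) (C.node (nat_lit 2) (nat_lit 5) (nat_lit 11) (C.cons (nat_lit 2084) (C.node (nat_lit 2) (nat_lit 9) (nat_lit 11) C.nil) C.nil)) C.nil)) C.nil))) (C.cons (nat_lit 3074) (C.node (nat_lit 5) (nat_lit 10) (nat_lit 11) (C.cons (nat_lit 3104) (C.node (nat_lit 2) (nat_lit 5) (nat_lit 11) (C.cons (nat_lit 2596) (C.node (nat_lit 3) (nat_lit 6) (nat_lit 11) (C.cons (nat_lit 2120) (C.node (nat_lit 3) (nat_lit 9) (nat_lit 11) C.nil) C.nil)) (C.cons (nat_lit 2084) (C.node (nat_lit 2) (nat_lit 9) (nat_lit 11) C.nil) C.nil))) C.nil)) C.nil))) C.nil))) C.nil))) C.nil)))) C.nil))) C.nil))) C.nil)) (C.cons (nat_lit 2128) (C.node (nat_lit 5) (nat_lit 10) (nat_lit 11) (C.cons (nat_lit 3106) (C.node (nat_lit 6) (nat_lit 10) (nat_lit 11) (C.cons (nat_lit 3136) (C.node (nat_lit 2) (nat_lit 5) (nat_lit 11) (C.cons (nat_lit 2596) (C.miq (nat_lit 1376434545) (nat_lit 1321413217156594439692683906)) (C.cons (nat_lit 2084) (C.node (nat_lit 2) (nat_lit 9) (nat_lit 11) (C.cons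 (nat_lit 2628) (C.miq (nat_lit 459962656) (nat_lit 3791212972205966380360860293)) (C.cons (nat_lit 2564) (C.node (nat_lit 5) (nat_lit 9) (nat_lit 11) (C.cons (nat_lit 2600) (C.miq (nat_lit 2710767541) (nat_lit 632287849770508310404401377)) (C.cons (nat_lit 2592) (C.node (nat_lit 3) (nat_lit 5) (nat_lit 11) (C.cons (nat_lit 2344) (C.miq (nat_lit 461874480) (nat_lit 2944964898592818328561583145)) (C.cons (nat_lit 2088) (C.node (nat_lit 3) (nat_lit 8) (nat_lit 11) (C.cons (nat_lit 2376) (C.miq (nat_lit 1805943664) (nat_lit 3733169148191526054607913353)) (C.cons (nat_lit 2314) (C.miq (nat_lit 2274472451) (nat_lit 3252053141214814857417394205)) (C.cons (nat_lit 2312) (C.node (nat_lit 1) (nat_lit 2) (nat_lit 11) (C.cons (nat_lit 2118) (C.node (nat_lit 1) (nat_lit 3) (nat_lit 11) C.nil) C.nil)) C.nil)))) C.nil))) C.nil))) C.nil))) C.nil))) C.nil)) (C.cons (nat_lit 3104) (C.node (nat_lit 1) (nat_lit 10) (nat_lit 11) (C.cons (nat_lit 3138) (C.node (nat_lit 2)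 (nat_lit 6) (nat_lit 11) (C.cons (nat_lit 2628) (C.node (nat_lit 3) (nat_lit 6) (nat_lit 11) (C.cons (nat_lit 2376) (C.miq (nat_lit 1805943664) (nat_lit 3733169148191526054607913353)) (C.cons (nat_lit 2120) (C.node (nat_lit 6) (nat_lit 8) (nat_lit 11) (C.cons (nat_lit 2368) (C.node (nat_lit 3) (nat_lit 9) (nat_lit 11) (C.cons (nat_lit 2600) (C.miq (nat_lit 2710767541) (nat_lit 632287849770508310404401377)) (C.cons (nat_lit 2568) (C.node (nat_lit 5) (nat_lit 9) (nat_lit 11) (C.cons (nat_lit 2592)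
  (C.node (nat_lit 1) (nat_lit 2) (nat_lit 11) (C.cons (nat_lit 2054) (C.node (nat_lit 2) (nat_lit 5) (nat_lit 11) C.nil) C.nil)) C.nil)) C.nil))) C.nil)) C.nil))) (C.cons (nat_lit 2116) (C.miq (nat_lit 2456514721) (nat_lit 2558136656227669666955396243)) C.nil))) (C.cons (nat_lit 3074) (C.node (nat_lit 6) (nat_lit 10) (nat_lit 11) (C.cons (nat_lit 3136) (C.node (nat_lit 6) (nat_lit 7) (nat_lit 10) (C.cons (nat_lit 1728) (C.node (nat_lit 3) (nat_lit 9) (nat_lit 10) (C.cons (nat_lit 1560) (C.miq (nat_lit 1470696244) (nat_lit 2089034165557310965371373597)) (C.cons (nat_lit 1548) (C.miq (nat_lit 1782282528) (nat_lit 3878275959259405342769742469)) (C.cons (nat_lit 1544) (C.node (nat_lit 4) (nat_lit 9) (nat_lit 10) (C.cons (nat_lit 1556) (C.miq (nat_lit 1783331104) (nat_lit 3733204860905649876164739717)) (C.cons (nat_lit 1552) (C.node (nat_lit 3) (nat_lit 9) (nat_lit 11) (C.cons (nat_lit 2632) (C.miq (nat_lit 967095920) (nat_lit 1876291186670195134365370593))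 (C.cons (nat_lit 2600) (C.miq (nat_lit 1245251509) (nat_lit 1866591814438033772958451937)) (C.cons (nat_lit 2568) (C.node (nat_lit 6) (nat_lit 9) (nat_lit 11) (C.cons (nat_lit 2628) (C.miq (nat_lit 698660464) (nat_lit 1876291186669069234458527969)) (C.cons (nat_lit 2624) (C.node (nat_lit 4) (nat_lit 6) (nat_lit 7) (C.cons (nat_lit 216) (C.miq (nat_lit 2322991924) (nat_lit 2089030033927991217826039837)) (C.cons (nat_lit 212) (C.miq (nat_lit 731267239) (nat_lit 3172225261963170604564612243)) (C.cons (nat_lit 208) (C.node (nat_lit 2) (nat_lit 6) (nat_lit 7) (C.cons (nat_lit 206) (C.miq (nat_lit 2322664242) (nat_lit 1415656987343581313007224861)) (C.cons (nat_lit 204) (C.miq (nat_lit 1000743063) (nat_lit 3791195134031908152337760901)) (C.cons (nat_lit 198) (C.miq (nat_lit 1789993111) (nat_lit 3716241622258365324228428421)) (C.cons (nat_lit 196) (C.node (nat_lit 2) (nat_lit 3) (nat_lit 7) (C.cons (nat_lit 174) (C.miq (nat_lit 2836597621) (nat_lit 632287850522046498062862561))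 (C.cons (nat_lit 172) (C.miq (nat_lit 2270868016) (nat_lit 1431439025053381843311200285)) (C.cons (nat_lit 142) (C.miq (nat_lit 2322664242) (nat_lit 1415656987343581313003030557)) (C.cons (nat_lit 140) (C.node (nat_lit 1) (nat_lit 2) (nat_lit 7) (C.cons (nat_lit 166) (C.node (nat_lit 2) (nat_lit 4) (nat_lit 7) (C.cons (nat_lit 148) (C.node (nat_lit 1) (nat_lit 2) (nat_lit 10) (C.cons (nat_lit 1030) (C.node (nat_lit 1) (nat_lit 9) (nat_lit 10) C.nil) C.nil)) C.nil)) (C.cons (nat_lit 134) (C.node (nat_lit 2) (nat_lit 4) (nat_lit 7) (C.cons (nat_lit 180) (C.node (nat_lit 2) (nat_lit 4) (nat_lit 10) (C.cons (nat_lit 1044) (C.node (nat_lit 2) (nat_lit 3) (nat_lit 10) C.nil) C.nil)) (C.cons (nat_lit 148) (C.node (nat_lit 2) (nat_lit 5) (nat_lit 7) C.nil) C.nil))) C.nil))) C.nil))))) C.nil))))) C.nil)))) C.nil))) C.nil)))) C.nil))) C.nil)))) (C.cons (nat_lit 1216) (C.node (nat_lit 7) (nat_lit 9) (nat_lit 10) (C.cons (nat_lit 1664) (C.ref (nat_lit 256) (nat_lit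 198128827013136)) C.nil)) C.nil))) C.nil)) C.nil))) C.nil))) C.nil))) C.nil))) C.nil))) C.nil))) List.nil)

theorem ok12_284 : okL par12 (nat_lit 285) c12_284 (nat_lit 284) = true := by decide +kernel

noncomputable def c12_285 : List C :=
  (List.cons (C.node (nat_lit 2) (nat_lit 7) (nat_lit 10) (C.cons (nat_lit 1188) (C.node (nat_lit 2) (nat_lit 4) (nat_lit 7) (C.cons (nat_lit 212) (C.node (nat_lit 1) (nat_lit 2) (nat_lit 7) (C.cons (nat_lit 142) (C.miq (nat_lit 2322664242) (nat_lit 1415656987343581313003030557)) (C.cons (nat_lit 134) (C.node (nat_lit 2) (nat_lit 3) (nat_lit 7) (C.cons (nat_lit 140) (C.node (nat_lit 6) (nat_lit 7) (nat_lit 10) (C.cons (nat_lit 1728) (C.miq (nat_lit 1689940489) (nat_lit 3733194807003415877559321221)) (C.cons (nat_lit 1216) (C.node (nat_lit 7) (nat_lit 9) (nat_lit 10) (C.cons (nat_lit 1664) (C.node (nat_lit 2) (nat_lit 4) (nat_lit 10) (C.cons (nat_lit 1556) (C.miq (nat_lit 1805938834) (nat_lit 3733166842319527637052293765))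 (C.cons (nat_lit 1300) (C.miq (nat_lit 1803710628) (nat_lit 2944947207930789415127090323)) (C.cons (nat_lit 1044) (C.node (nat_lit 2) (nat_lit 8) (nat_lit 10) (C.cons (nat_lit 1292) (C.miq (nat_lit 1461914506) (nat_lit 169269261168289669819666177)) (C.cons (nat_lit 1284) (C.node (nat_lit 4) (nat_lit 5) (nat_lit 7) (C.cons (nat_lit 432) (C.miq (nat_lit 1477080162) (nat_lit 4643505987993348864408355028)) (C.cons (nat_lit 184) (C.miq (nat_lit 2722301557) (nat_lit 2510958573429676356627073249)) (C.cons (nat_lit 176) (C.node (nat_lit 4) (nat_lit 7) (nat_lit 8) (C.cons (nat_lit 912) (C.miq (nat_lit 2823162226) (nat_lit 407428164582551898985595525)) (C.cons (nat_lit 400) (C.node (nat_lit 7) (nat_lit 8) (nat_lit 9) (C.cons (nat_lit 962) (C.miq (nat_lit 846269321) (nat_lit 162005708060144848737537793)) (C.cons (nat_lit 960) (C.miq (nat_lit 3093563762) (nat_lit 407446316178720635342815877)) (C.cons (nat_lit 930) (C.miq (nat_lit 846269321) (nat_lit 162005708060144848735440641))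 (C.cons (nat_lit 928) (C.miq (nat_lit 659863696) (nat_lit 212809258825292858520571649)) (C.cons (nat_lit 898) (C.miq (nat_lit 846269321) (nat_lit 162005708060144848733343489)) C.nil)))))) C.nil))) C.nil)))) C.nil))) C.nil)))) C.nil)) C.nil))) C.nil)) C.nil))) (C.cons (nat_lit 148) (C.node (nat_lit 5) (nat_lit 10) (nat_lit 11) (C.cons (nat_lit 3106) (C.node (nat_lit 6) (nat_lit 10) (nat_lit 11) (C.cons (nat_lit 3136) (C.node (nat_lit 2) (nat_lit 5) (nat_lit 11) (C.cons (nat_lit 2596) (C.miq (nat_lit 354921360) (nat_lit 1436225475713762200876551937)) (C.cons (nat_lit 2084) (C.node (nat_lit 5) (nat_lit 9) (nat_lit 11) (C.cons (nat_lit 2600) (C.miq (nat_lit 1203309109) (nat_lit 3249602952077169548822316073)) (C.cons (nat_lit 2592) (C.node (nat_lit 3) (nat_lit 5) (nat_lit 11) (C.cons (nat_lit 2344) (C.miq (nat_lit 461874480) (nat_lit 2944964898592818328561583145)) (C.cons (nat_lit 2088) (C.node (nat_lit 3) (nat_lit 8) (nat_lit 11) (C.cons (nat_lit 2378) (C.miq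 (nat_lit 1805943664) (nat_lit 3733169148192089004561334665)) (C.cons (nat_lit 2376) (C.miq (nat_lit 1805943664) (nat_lit 3733169148191526054607913353)) (C.cons (nat_lit 2314) (C.miq (nat_lit 2545091201) (nat_lit 3878243677152442765223264519)) (C.cons (nat_lit 2312) (C.node (nat_lit 1) (nat_lit 3) (nat_lit 11) (C.cons (nat_lit 2122) (C.node (nat_lit 3) (nat_lit 9) (nat_lit 11) (C.cons (nat_lit 2568) (C.node (nat_lit 6) (nat_lit 8) (nat_lit 11) C.nil) C.nil)) (C.cons (nat_lit 2058) (C.node (nat_lit 3) (nat_lit 6) (nat_lit 11) (C.cons (nat_lit 2632) (C.node (nat_lit 2) (nat_lit 9) (nat_lit 11) (C.cons (nat_lit 2566) (C.miq (nat_lit 461607536) (nat_lit 2795046143318448454821806725)) C.nil)) C.nil)) C.nil))) C.nil))))) C.nil))) C.nil))) C.nil))) C.nil)) (C.cons (nat_lit 3104) (C.node (nat_lit 1) (nat_lit 10) (nat_lit 11) (C.cons (nat_lit 3138) (C.node (nat_lit 2) (nat_lit 6) (nat_lit 11) (C.cons (nat_lit 2628) (C.miq (nat_lit 462923296) (nat_lit 3249614205144713299629507653))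 (C.cons (nat_lit 2116) (C.node (nat_lit 6) (nat_lit 8) (nat_lit 11) (C.cons (nat_lit 2376) (C.miq (nat_lit 1805943664) (nat_lit 3733169148191526054607913353)) (C.cons (nat_lit 2368) (C.node (nat_lit 1) (nat_lit 2) (nat_lit 7) (C.cons (nat_lit 206) (C.miq (nat_lit 2322664242) (nat_lit 1415656987343581313007224861))
  (C.cons (nat_lit 198) (C.miq (nat_lit 2606893591) (nat_lit 2558098933535641739505042579)) (C.cons (nat_lit 142) (C.miq (nat_lit 2322664242) (nat_lit 1415656987343581313003030557)) (C.cons (nat_lit 134) (C.node (nat_lit 2) (nat_lit 3) (nat_lit 7) (C.cons (nat_lit 204) (C.node (nat_lit 6) (nat_lit 7) (nat_lit 10) (C.cons (nat_lit 1728) (C.miq (nat_lit 1000743063) (nat_lit 3793612985671137410687173253)) (C.cons (nat_lit 1216) (C.node (nat_lit 7) (nat_lit 9) (nat_lit 10) (C.cons (nat_lit 1664) (C.node (nat_lit 2) (nat_lit 3) (nat_lit 9) (C.cons (nat_lit 1548) (C.miq (nat_lit 1805873298) (nat_lit 3878237793099330548340097669)) (C.cons (nat_lit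 812) (C.miq (nat_lit 324667687) (nat_lit 1287527599174105285357994629)) (C.cons (nat_lit 780) (C.miq (nat_lit 918038281) (nat_lit 2862750729365250037115847301)) (C.cons (nat_lit 556) (C.miq (nat_lit 324667687) (nat_lit 1287527599174104185846366853)) (C.cons (nat_lit 524) (C.node (nat_lit 3) (nat_lit 8) (nat_lit 10) (C.cons (nat_lit 1352) (C.miq (nat_lit 2590115895) (nat_lit 1321367820069868422969426313)) (C.cons (nat_lit 1304) (C.miq (nat_lit 1181974714) (nat_lit 246644921850523298717765377)) (C.cons (nat_lit 1292) (C.miq (nat_lit 1461914506) (nat_lit 246640513623625937000861441)) (C.cons (nat_lit 1290) (C.miq (nat_lit 326543371) (nat_lit 246678753447392060240891649)) (C.cons (nat_lit 1288) (C.node (nat_lit 1) (nat_lit 3) (nat_lit 7) (C.cons (nat_lit 170) (C.node (nat_lit 1) (nat_lit 2) (nat_lit 3) (C.cons (nat_lit 1038) (C.miq (nat_lit 1445163169) (nat_lit 246624003787674198794437779)) (C.cons (nat_lit 14) (C.node (nat_lit 1) (nat_lit 3) (nat_lit 10)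 (C.cons (nat_lit 1034) (C.node (nat_lit 2) (nat_lit 3) (nat_lit 10) (C.cons (nat_lit 1036) (C.node (nat_lit 1) (nat_lit 2) (nat_lit 10) (C.cons (nat_lit 1542) (C.miq (nat_lit 1629993616) (nat_lit 162037990160914951021334273)) (C.cons (nat_lit 1030) (C.node (nat_lit 2) (nat_lit 8) (nat_lit 10) C.nil) C.nil))) C.nil)) C.nil)) C.nil))) (C.cons (nat_lit 138) (C.node (nat_lit 1) (nat_lit 3) (nat_lit 10) (C.cons (nat_lit 1038) (C.node (nat_lit 1) (nat_lit 9) (nat_lit 10) (C.cons (nat_lit 1570) (C.miq (nat_lit 1168247059) (nat_lit 1436242187747534759391003147)) (C.cons (nat_lit 1538) (C.node (nat_lit 1) (nat_lit 3) (nat_lit 11) (C.cons (nat_lit 2346) (C.miq (nat_lit 1369879328) (nat_lit 3793651152060330645649688605)) (C.cons (nat_lit 2314) (C.miq (nat_lit 2545091201) (nat_lit 3878243677152442765223264519)) (C.cons (nat_lit 2090) (C.miq (nat_lit 1369879328) (nat_lit 3793651151988273051611760669)) (C.cons (nat_lit 2058) (C.node (nat_lit 3) (nat_lit 4) (nat_lit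 10) (C.cons (nat_lit 1624) (C.miq (nat_lit 2258699314) (nat_lit 3793614073539261778086463517)) (C.cons (nat_lit 1560) (C.miq (nat_lit 1470696244) (nat_lit 2011662913101974698190178333)) (C.cons (nat_lit 1112) (C.miq (nat_lit 2258699314) (nat_lit 3793614073539259579063207965)) (C.cons (nat_lit 1048) (C.node (nat_lit 1) (nat_lit 5) (nat_lit 10) (C.cons (nat_lit 1314) (C.node (nat_lit 6) (nat_lit 8) (nat_lit 10) (C.cons (nat_lit 1344) (C.node (nat_lit 1) (nat_lit 5) (nat_lit 7) C.nil) C.nil)) (C.cons (nat_lit 1058) (C.node (nat_lit 1) (nat_lit 8) (nat_lit 10) C.nil) C.nil))) C.nil))))) C.nil))))) C.nil))) (C.cons (nat_lit 1034) (C.node (nat_lit 2) (nat_lit 3) (nat_lit 10) (C.cons (nat_lit 1036) (C.node (nat_lit 1) (nat_lit 2) (nat_lit 10) (C.cons (nat_lit 1542) (C.miq (nat_lit 1629993616) (nat_lit 162037990160914951021334273)) (C.cons (nat_lit 1030) (C.node (nat_lit 4) (nat_lit 6) (nat_lit 7) (C.cons (nat_lit 720) (C.node (nat_lit 3) (nat_lit 4) (nat_lit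 7) (C.cons (nat_lit 184) (C.miq (nat_lit 2591361844) (nat_lit 1436214223406763974422169629)) C.nil)) C.nil)) C.nil))) C.nil)) C.nil))) C.nil))) C.nil)))))) C.nil)))))) C.nil)) C.nil))) (C.cons (nat_lit 140) (C.node (nat_lit 2) (nat_lit 6) (nat_lit 7) (C.cons (nat_lit 196) (C.node (nat_lit 3) (nat_lit 6) (nat_lit 11) (C.cons (nat_lit 2632) (C.node (nat_lit 4) (nat_lit 6) (nat_lit 11) (C.cons (nat_lit 2128)
  (C.node (nat_lit 3) (nat_lit 6) (nat_lit 7) (C.cons (nat_lit 216) (C.miq (nat_lit 1755791539) (nat_lit 1702171538608991363580561437)) (C.cons (nat_lit 202) (C.miq (nat_lit 2838563687) (nat_lit 632289805876918062169065697)) (C.cons (nat_lit 200) (C.node (nat_lit 6) (nat_lit 7) (nat_lit 10) (C.cons (nat_lit 1728) (C.miq (nat_lit 1130826650) (nat_lit 241806765644870979921383169)) (C.cons (nat_lit 1216) (C.node (nat_lit 7) (nat_lit 9) (nat_lit 10) (C.cons (nat_lit 1664) (C.node (nat_lit 1) (nat_lit 3) (nat_lit 7) (C.cons (nat_lit 138) (C.node (nat_lit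 4) (nat_lit 6) (nat_lit 7) C.nil) C.nil)) C.nil)) C.nil))) C.nil)))) C.nil)) (C.cons (nat_lit 2120) (C.node (nat_lit 3) (nat_lit 9) (nat_lit 11) (C.cons (nat_lit 2600) (C.miq (nat_lit 1203309109) (nat_lit 3249602952077169548822316073)) (C.cons (nat_lit 2568) (C.node (nat_lit 4) (nat_lit 6) (nat_lit 11) (C.cons (nat_lit 2640) (C.node (nat_lit 4) (nat_lit 6) (nat_lit 7) (C.cons (nat_lit 216) (C.miq (nat_lit 1755791539) (nat_lit 1702171538608991363580561437)) (C.cons (nat_lit 208) (C.node (nat_lit 6) (nat_lit 7) (nat_lit 10) (C.cons (nat_lit 1728) (C.node (nat_lit 3) (nat_lit 6) (nat_lit 7) (C.cons (nat_lit 202) (C.miq (nat_lit 2338523671) (nat_lit 2562929988234593681397122195)) C.nil)) (C.cons (nat_lit 1216) (C.node (nat_lit 7) (nat_lit 9) (nat_lit 10) C.nil) C.nil))) C.nil))) (C.cons (nat_lit 2128) (C.node (nat_lit 6) (nat_lit 9) (nat_lit 11) C.nil) C.nil))) C.nil))) C.nil))) C.nil)) C.nil))) C.nil))))) C.nil))) C.nil))) (C.cons (nat_lit 3074) (C.node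 (nat_lit 6) (nat_lit 10) (nat_lit 11) (C.cons (nat_lit 3136) (C.node (nat_lit 6) (nat_lit 7) (nat_lit 10) (C.cons (nat_lit 1728) (C.node (nat_lit 4) (nat_lit 6) (nat_lit 7) (C.cons (nat_lit 216) (C.miq (nat_lit 2322991924) (nat_lit 2089030033927991217826039837)) (C.cons (nat_lit 208) (C.node (nat_lit 3) (nat_lit 9) (nat_lit 10) (C.cons (nat_lit 1560) (C.miq (nat_lit 1470696244) (nat_lit 2089034165557310965371373597)) (C.cons (nat_lit 1548) (C.miq (nat_lit 1782282528) (nat_lit 3878275959259405342769742469)) (C.cons (nat_lit 1544) (C.node (nat_lit 4) (nat_lit 9) (nat_lit 10) (C.cons (nat_lit 1556) (C.miq (nat_lit 1783331104) (nat_lit 3733204860905649876164739717)) (C.cons (nat_lit 1552) (C.node (nat_lit 3) (nat_lit 9) (nat_lit 11) (C.cons (nat_lit 2632) (C.miq (nat_lit 913619360) (nat_lit 251494885108133523560271617)) (C.cons (nat_lit 2600) (C.miq (nat_lit 1245251509) (nat_lit 1866591814438033772958451937)) (C.cons (nat_lit 2568) (C.node (nat_lit 2) (nat_lit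 3) (nat_lit 7) (C.cons (nat_lit 206) (C.miq (nat_lit 2322664242) (nat_lit 1415656987343581313007224861)) (C.cons (nat_lit 204) (C.miq (nat_lit 1000743063) (nat_lit 3791195134031908152337760901)) (C.cons (nat_lit 142) (C.miq (nat_lit 2322664242) (nat_lit 1415656987343581313003030557)) (C.cons (nat_lit 140) (C.node (nat_lit 1) (nat_lit 2) (nat_lit 7) (C.cons (nat_lit 198) (C.node (nat_lit 1) (nat_lit 7) (nat_lit 8) (C.cons (nat_lit 930) (C.miq (nat_lit 846269321) (nat_lit 239376960515481115916635905)) (C.cons (nat_lit 898) (C.miq (nat_lit 846269321) (nat_lit 239376960515481115914538753)) (C.cons (nat_lit 418) (C.miq (nat_lit 2534975008) (nat_lit 505401847029291723591713861)) (C.cons (nat_lit 386) (C.miq (nat_lit 2534975008) (nat_lit 466716220801623590001116229)) C.nil))))) (C.cons (nat_lit 134) (C.node (nat_lit 2) (nat_lit 6) (nat_lit 7) (C.cons (nat_lit 196) (C.node (nat_lit 2) (nat_lit 4) (nat_lit 10) (C.cons (nat_lit 1300) (C.node (nat_lit 4) (nat_lit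 5) (nat_lit 10) (C.cons (nat_lit 1136) (C.miq (nat_lit 3091624613) (nat_lit 407449931345088200485897380)) (C.cons (nat_lit 1072) (C.node (nat_lit 2) (nat_lit 8) (nat_lit 9) (C.cons (nat_lit 876) (C.miq (nat_lit 392301208) (nat_lit 236954312467773323343564545)) (C.cons (nat_lit 868) (C.miq (nat_lit 392301208) (nat_lit 236954312467773323343040257)) (C.cons (nat_lit 844) (C.miq (nat_lit 392301208) (nat_lit 236954312467773323341467393)) (C.cons (nat_lit 836) (C.miq (nat_lit 392301208) (nat_lit 236954312467773323340943105))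
  (C.cons (nat_lit 812) (C.miq (nat_lit 337840777) (nat_lit 2510948575316348127199104769)) (C.cons (nat_lit 804) (C.miq (nat_lit 1697122212) (nat_lit 971982576162712421152326803)) (C.cons (nat_lit 780) (C.miq (nat_lit 337840777) (nat_lit 2510948575316348127197007617)) (C.cons (nat_lit 772) (C.node (nat_lit 2) (nat_lit 3) (nat_lit 10) (C.cons (nat_lit 1038) (C.node (nat_lit 2) (nat_lit 9) (nat_lit 10) (C.cons (nat_lit 1540) (C.node (nat_lit 3) (nat_lit 6) (nat_lit 7) C.nil) C.nil)) (C.cons (nat_lit 1036) (C.node (nat_lit 3) (nat_lit 6) (nat_lit 7) C.nil) C.nil))) C.nil))))))))) C.nil))) (C.cons (nat_lit 1044) (C.node (nat_lit 2) (nat_lit 8) (nat_lit 10) (C.cons (nat_lit 1292) (C.miq (nat_lit 1461914506) (nat_lit 169269261168289669819666177)) (C.cons (nat_lit 1284) (C.node (nat_lit 3) (nat_lit 6) (nat_lit 7) (C.cons (nat_lit 202) (C.node (nat_lit 6) (nat_lit 7) (nat_lit 8) C.nil) C.nil)) C.nil))) C.nil))) C.nil)) C.nil))) C.nil))))) C.nil)))) C.nil))) C.nil))))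 C.nil))) (C.cons (nat_lit 1216) (C.node (nat_lit 7) (nat_lit 9) (nat_lit 10) (C.cons (nat_lit 1664) (C.node (nat_lit 2) (nat_lit 8) (nat_lit 10) (C.cons (nat_lit 1300) (C.node (nat_lit 4) (nat_lit 5) (nat_lit 10) (C.cons (nat_lit 1136) (C.miq (nat_lit 3091624613) (nat_lit 407449931345088200485897380)) (C.cons (nat_lit 1072) (C.node (nat_lit 3) (nat_lit 9) (nat_lit 11) (C.cons (nat_lit 2632) (C.node (nat_lit 2) (nat_lit 6) (nat_lit 11) (C.cons (nat_lit 2118) (C.node (nat_lit 4) (nat_lit 6) (nat_lit 11) (C.cons (nat_lit 2128) (C.node (nat_lit 6) (nat_lit 8) (nat_lit 11) (C.cons (nat_lit 2368) (C.node (nat_lit 1) (nat_lit 2) (nat_lit 7) (C.cons (nat_lit 142) (C.miq (nat_lit 2322664242) (nat_lit 1415656987343581313003030557)) (C.cons (nat_lit 134) (C.node (nat_lit 1) (nat_lit 6) (nat_lit 7) (C.cons (nat_lit 962) (C.miq (nat_lit 907196800) (nat_lit 2560543200572071957244612353)) (C.cons (nat_lit 706) (C.miq (nat_lit 1133579111) (nat_lit 632289805380396203284498657))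 (C.cons (nat_lit 450) (C.miq (nat_lit 840436583) (nat_lit 317954740713701064199768289)) (C.cons (nat_lit 202) (C.miq (nat_lit 2838563687) (nat_lit 632289805876918062169065697)) (C.cons (nat_lit 194) (C.node (nat_lit 1) (nat_lit 3) (nat_lit 7) (C.cons (nat_lit 170) (C.node (nat_lit 1) (nat_lit 7) (nat_lit 8) (C.cons (nat_lit 898) (C.miq (nat_lit 655603856) (nat_lit 205555703907604954620825345)) C.nil)) (C.cons (nat_lit 138) (C.node (nat_lit 2) (nat_lit 3) (nat_lit 7) C.nil) C.nil))) C.nil)))))) C.nil))) C.nil)) C.nil)) (C.cons (nat_lit 2116) (C.node (nat_lit 4) (nat_lit 6) (nat_lit 11) (C.cons (nat_lit 2130) (C.node (nat_lit 4) (nat_lit 9) (nat_lit 11) (C.cons (nat_lit 2576) (C.node (nat_lit 6) (nat_lit 8) (nat_lit 11) (C.cons (nat_lit 2368) (C.node (nat_lit 4) (nat_lit 5) (nat_lit 11) (C.cons (nat_lit 2352) (C.miq (nat_lit 2458126261) (nat_lit 1571613914304005100849334497)) C.nil)) C.nil)) C.nil)) (C.cons (nat_lit 2128) (C.node (nat_lit 1) (nat_lit 6)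 (nat_lit 11) (C.cons (nat_lit 2370) (C.node (nat_lit 4) (nat_lit 8) (nat_lit 11) (C.cons (nat_lit 2352) (C.miq (nat_lit 2458126261) (nat_lit 1571613914304005100849334497)) (C.cons (nat_lit 2320) (C.node (nat_lit 1) (nat_lit 3) (nat_lit 11) (C.cons (nat_lit 2090) (C.node (nat_lit 3) (nat_lit 8) (nat_lit 11) C.nil) C.nil)) C.nil))) (C.cons (nat_lit 2114) (C.node (nat_lit 6) (nat_lit 8) (nat_lit 11) C.nil) C.nil))) C.nil))) C.nil))) (C.cons (nat_lit 2600) (C.miq (nat_lit 1203309109) (nat_lit 3249602952077169548822316073)) (C.cons (nat_lit 2568) (C.node (nat_lit 4) (nat_lit 5) (nat_lit 7) (C.cons (nat_lit 432) (C.node (nat_lit 4) (nat_lit 5) (nat_lit 11) (C.cons (nat_lit 2098) (C.node (nat_lit 4) (nat_lit 8) (nat_lit 11) (C.cons (nat_lit 2320) (C.node (nat_lit 2) (nat_lit 4) (nat_lit 5) (C.cons (nat_lit 116) (C.miq (nat_lit 2250588327) (nat_lit 140243364163598588420818067)) (C.cons (nat_lit 52) (C.node (nat_lit 2) (nat_lit 5) (nat_lit 11) (C.cons (nat_lit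 2596) (C.miq (nat_lit 722965824) (nat_lit 2633052334001307935629836849)) (C.cons (nat_lit 2084)
  (C.node (nat_lit 5) (nat_lit 9) (nat_lit 11) C.nil) C.nil))) C.nil))) C.nil)) (C.cons (nat_lit 2096) (C.node (nat_lit 4) (nat_lit 8) (nat_lit 11) (C.cons (nat_lit 2322) (C.node (nat_lit 6) (nat_lit 8) (nat_lit 11) (C.cons (nat_lit 2376) (C.miq (nat_lit 944420359) (nat_lit 1571662743322792379504855265)) (C.cons (nat_lit 2368) (C.node (nat_lit 3) (nat_lit 6) (nat_lit 11) (C.cons (nat_lit 2122) (C.node (nat_lit 2) (nat_lit 6) (nat_lit 11) (C.cons (nat_lit 2628) (C.node (nat_lit 4) (nat_lit 6) (nat_lit 11) C.nil) C.nil)) C.nil)) C.nil))) (C.cons (nat_lit 2320) (C.node (nat_lit 1) (nat_lit 2) (nat_lit 7) (C.cons (nat_lit 206) (C.miq (nat_lit 2322664242) (nat_lit 1415656987343581313007224861)) (C.cons (nat_lit 198) (C.node (nat_lit 2) (nat_lit 3) (nat_lit 7) (C.cons (nat_lit 140) (C.node (nat_lit 1) (nat_lit 2) (nat_lit 10) (C.cons (nat_lit 1542) (C.miq (nat_lit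 1805742226) (nat_lit 3716241622590505796671767173)) (C.cons (nat_lit 1038) (C.miq (nat_lit 811705714) (nat_lit 81017177934309277890380964)) C.nil))) C.nil)) (C.cons (nat_lit 142) (C.miq (nat_lit 2322664242) (nat_lit 1415656987343581313003030557)) (C.cons (nat_lit 134) (C.node (nat_lit 2) (nat_lit 3) (nat_lit 7) (C.cons (nat_lit 204) (C.node (nat_lit 2) (nat_lit 3) (nat_lit 10) (C.cons (nat_lit 1548) (C.miq (nat_lit 1805873298) (nat_lit 3878237793099330548340097669)) (C.cons (nat_lit 1038) (C.node (nat_lit 2) (nat_lit 9) (nat_lit 10) C.nil) C.nil))) (C.cons (nat_lit 140) (C.node (nat_lit 2) (nat_lit 6) (nat_lit 7) C.nil) C.nil))) C.nil))))) C.nil))) C.nil))) (C.cons (nat_lit 184) (C.miq (nat_lit 2591361844) (nat_lit 1436214223406763974422169629)) (C.cons (nat_lit 176) (C.node (nat_lit 2) (nat_lit 5) (nat_lit 8) (C.cons (nat_lit 876) (C.miq (nat_lit 337840777) (nat_lit 2510948575316348127203299073)) (C.cons (nat_lit 868) (C.miq (nat_lit 2222284962) (nat_lit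 212786956120892811275142213)) (C.cons (nat_lit 812) (C.miq (nat_lit 337840777) (nat_lit 2510948575316348127199104769)) (C.cons (nat_lit 804) (C.miq (nat_lit 1697122212) (nat_lit 971982576162712421152326803)) (C.cons (nat_lit 364) (C.miq (nat_lit 2222284962) (nat_lit 212777658961879661661127749)) (C.cons (nat_lit 356) (C.miq (nat_lit 2222284962) (nat_lit 212777511387927071984714821)) (C.cons (nat_lit 300) (C.miq (nat_lit 1697122212) (nat_lit 362683963076939317100414099)) (C.cons (nat_lit 292) (C.miq (nat_lit 1697122212) (nat_lit 353012556520022283702764691)) C.nil))))))))) C.nil)))) C.nil)))) C.nil))) (C.cons (nat_lit 1292) (C.miq (nat_lit 896704696) (nat_lit 1436227707195303305108786945)) (C.cons (nat_lit 1284) (C.node (nat_lit 2) (nat_lit 4) (nat_lit 10) (C.cons (nat_lit 1556) (C.node (nat_lit 2) (nat_lit 9) (nat_lit 11) (C.cons (nat_lit 2630) (C.miq (nat_lit 1648867744) (nat_lit 178962951492530531462221569)) (C.cons (nat_lit 2628) (C.miq (nat_lit 1648867744)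 (nat_lit 178962951491967581508800257)) (C.cons (nat_lit 2598) (C.miq (nat_lit 1380432288) (nat_lit 178962951483523332207480577)) (C.cons (nat_lit 2596) (C.miq (nat_lit 1380432288) (nat_lit 178962951482960382254059265)) (C.cons (nat_lit 2566) (C.miq (nat_lit 934873121) (nat_lit 3249602250881903900261482759)) (C.cons (nat_lit 2564) (C.node (nat_lit 1) (nat_lit 2) (nat_lit 10) (C.cons (nat_lit 1038) (C.node (nat_lit 1) (nat_lit 2) (nat_lit 7) (C.cons (nat_lit 198) (C.miq (nat_lit 811705714) (nat_lit 81017177934309277890380964)) (C.cons (nat_lit 134) (C.node (nat_lit 5) (nat_lit 9) (nat_lit 10) (C.cons (nat_lit 1634) (C.miq (nat_lit 3046377122) (nat_lit 678245699331047701890729029)) (C.cons (nat_lit 1632) (C.miq (nat_lit 3046377122) (nat_lit 678245699331047693300794437)) (C.cons (nat_lit 1570) (C.miq (nat_lit 306815749) (nat_lit 1881117537000738666348348457)) (C.cons (nat_lit 1568) (C.node (nat_lit 1) (nat_lit 9) (nat_lit 10) (C.cons (nat_lit 1602) (C.node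 (nat_lit 3) (nat_lit 9) (nat_lit 10) C.nil) C.nil)) C.nil))))) C.nil))) (C.cons (nat_lit 1030) (C.node (nat_lit 2) (nat_lit 3) (nat_lit 10) (C.cons (nat_lit 1036) (C.node (nat_lit 3) (nat_lit 9) (nat_lit 10)
  (C.cons (nat_lit 1544) (C.node (nat_lit 3) (nat_lit 4) (nat_lit 10) C.nil) C.nil)) C.nil)) C.nil))) C.nil))))))) (C.cons (nat_lit 1044) (C.node (nat_lit 2) (nat_lit 4) (nat_lit 8) (C.cons (nat_lit 788) (C.miq (nat_lit 1461980041) (nat_lit 178931370566193553570270977)) (C.cons (nat_lit 308) (C.node (nat_lit 4) (nat_lit 5) (nat_lit 7) (C.cons (nat_lit 184) (C.miq (nat_lit 2591361844) (nat_lit 1436214223406763974422169629)) (C.cons (nat_lit 176) (C.node (nat_lit 4) (nat_lit 8) (nat_lit 10) (C.cons (nat_lit 1304) (C.miq (nat_lit 1739066164) (nat_lit 1702173771209957118509058077)) (C.cons (nat_lit 1296) (C.node (nat_lit 4) (nat_lit 5) (nat_lit 10) (C.cons (nat_lit 1136) (C.node (nat_lit 3) (nat_lit 4) (nat_lit 10) (C.cons (nat_lit 1048) (C.node (nat_lit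 4) (nat_lit 9) (nat_lit 10) C.nil) C.nil)) (C.cons (nat_lit 1072) (C.node (nat_lit 4) (nat_lit 9) (nat_lit 10) (C.cons (nat_lit 1624) (C.miq (nat_lit 878160139) (nat_lit 212830121864280966793596673)) (C.cons (nat_lit 1616) (C.node (nat_lit 3) (nat_lit 4) (nat_lit 10) C.nil) (C.cons (nat_lit 1560) (C.miq (nat_lit 878160139) (nat_lit 212830121846266568284114689)) C.nil)))) C.nil))) C.nil))) C.nil))) (C.cons (nat_lit 276) (C.node (nat_lit 3) (nat_lit 9) (nat_lit 11) (C.cons (nat_lit 2632) (C.node (nat_lit 2) (nat_lit 6) (nat_lit 11) (C.cons (nat_lit 2118) (C.node (nat_lit 4) (nat_lit 6) (nat_lit 11) (C.cons (nat_lit 2128) (C.node (nat_lit 6) (nat_lit 8) (nat_lit 11) (C.cons (nat_lit 2368) (C.node (nat_lit 1) (nat_lit 2) (nat_lit 7) (C.cons (nat_lit 142) (C.miq (nat_lit 2322664242) (nat_lit 1415656987343581313003030557)) (C.cons (nat_lit 134) (C.node (nat_lit 1) (nat_lit 6) (nat_lit 7) (C.cons (nat_lit 962) (C.miq (nat_lit 907196800) (nat_lit 2560543200572071957244612353))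 (C.cons (nat_lit 706) (C.miq (nat_lit 1133579111) (nat_lit 632289805380396203284498657)) (C.cons (nat_lit 450) (C.miq (nat_lit 840436583) (nat_lit 317954740713701064199768289)) (C.cons (nat_lit 202) (C.miq (nat_lit 2838563687) (nat_lit 632289805876918062169065697)) (C.cons (nat_lit 194) (C.node (nat_lit 1) (nat_lit 3) (nat_lit 7) (C.cons (nat_lit 170) (C.node (nat_lit 1) (nat_lit 7) (nat_lit 8) (C.cons (nat_lit 898) (C.miq (nat_lit 655603856) (nat_lit 205555703907604954620825345)) C.nil)) (C.cons (nat_lit 138) (C.node (nat_lit 2) (nat_lit 3) (nat_lit 7) C.nil) C.nil))) C.nil)))))) C.nil))) C.nil)) C.nil)) (C.cons (nat_lit 2116) (C.node (nat_lit 4) (nat_lit 6) (nat_lit 11) (C.cons (nat_lit 2130) (C.node (nat_lit 4) (nat_lit 9) (nat_lit 11) (C.cons (nat_lit 2576) (C.node (nat_lit 6) (nat_lit 8) (nat_lit 11) (C.cons (nat_lit 2368) (C.node (nat_lit 4) (nat_lit 5) (nat_lit 11) (C.cons (nat_lit 2352) (C.miq (nat_lit 2458126261) (nat_lit 333673875018624825950210273))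 C.nil)) C.nil)) C.nil)) (C.cons (nat_lit 2128) (C.node (nat_lit 1) (nat_lit 6) (nat_lit 11) (C.cons (nat_lit 2370) (C.node (nat_lit 4) (nat_lit 8) (nat_lit 11) (C.cons (nat_lit 2352) (C.miq (nat_lit 2458126261) (nat_lit 333673875018624825950210273)) (C.cons (nat_lit 2320) (C.node (nat_lit 1) (nat_lit 3) (nat_lit 11) (C.cons (nat_lit 2090) (C.node (nat_lit 3) (nat_lit 8) (nat_lit 11) C.nil) C.nil)) C.nil))) (C.cons (nat_lit 2114) (C.node (nat_lit 6) (nat_lit 8) (nat_lit 11) C.nil) C.nil))) C.nil))) C.nil))) (C.cons (nat_lit 2600) (C.miq (nat_lit 1203309109) (nat_lit 3249602952077169548822316073)) (C.cons (nat_lit 2568) (C.node (nat_lit 4) (nat_lit 5) (nat_lit 7) (C.cons (nat_lit 432) (C.node (nat_lit 2) (nat_lit 5) (nat_lit 8) (C.cons (nat_lit 876) (C.miq (nat_lit 2726589792) (nat_lit 333685127685344000849545441)) (C.cons (nat_lit 868) (C.miq (nat_lit 2726589792) (nat_lit 333685127685343966489807073)) (C.cons (nat_lit 812) (C.miq (nat_lit 1649937012) (nat_lit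 981653982387488981974516883)) (C.cons (nat_lit 804) (C.miq (nat_lit 1649937012) (nat_lit 971982575830571948576867475)) (C.cons (nat_lit 364) (C.miq (nat_lit 2726589792) (nat_lit 333685127685341801826289889)) (C.cons (nat_lit 356) (C.miq (nat_lit 2726589792) (nat_lit 333685127685341767466551521))
  (C.cons (nat_lit 300) (C.miq (nat_lit 1649937012) (nat_lit 362683962744798844524954771)) (C.cons (nat_lit 292) (C.miq (nat_lit 1649937012) (nat_lit 353012556187881811127305363)) C.nil))))))))) (C.cons (nat_lit 184) (C.miq (nat_lit 2591361844) (nat_lit 1436214223406763974422169629)) (C.cons (nat_lit 176) (C.node (nat_lit 4) (nat_lit 7) (nat_lit 8) (C.cons (nat_lit 912) (C.node (nat_lit 3) (nat_lit 4) (nat_lit 7) (C.cons (nat_lit 216) (C.miq (nat_lit 2322991924) (nat_lit 1470060014285301080376477725)) (C.cons (nat_lit 152) (C.node (nat_lit 4) (nat_lit 6) (nat_lit 7) (C.cons (nat_lit 208) (C.node (nat_lit 5) (nat_lit 7) (nat_lit 8) (C.cons (nat_lit 418) (C.node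 (nat_lit 6) (nat_lit 7) (nat_lit 8) C.nil) C.nil)) C.nil)) C.nil))) (C.cons (nat_lit 400) (C.node (nat_lit 4) (nat_lit 8) (nat_lit 10) (C.cons (nat_lit 1328) (C.node (nat_lit 4) (nat_lit 5) (nat_lit 11) (C.cons (nat_lit 2098) (C.node (nat_lit 4) (nat_lit 8) (nat_lit 11) (C.cons (nat_lit 2320) (C.node (nat_lit 1) (nat_lit 2) (nat_lit 10) C.nil) C.nil)) (C.cons (nat_lit 2096) (C.node (nat_lit 4) (nat_lit 8) (nat_lit 11) (C.cons (nat_lit 2322) (C.node (nat_lit 1) (nat_lit 2) (nat_lit 10) C.nil) (C.cons (nat_lit 2320) (C.node (nat_lit 1) (nat_lit 2) (nat_lit 10) C.nil) C.nil))) C.nil))) (C.cons (nat_lit 1304) (C.miq (nat_lit 1739066164) (nat_lit 1702173771209957118509058077)) (C.cons (nat_lit 1296) (C.node (nat_lit 4) (nat_lit 5) (nat_lit 10) (C.cons (nat_lit 1136) (C.node (nat_lit 3) (nat_lit 4) (nat_lit 10) (C.cons (nat_lit 1048) (C.node (nat_lit 4) (nat_lit 9) (nat_lit 10) C.nil) C.nil)) (C.cons (nat_lit 1072) (C.node (nat_lit 4) (nat_lit 9) (nat_lit 10)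 (C.cons (nat_lit 1624) (C.miq (nat_lit 878160139) (nat_lit 212830121864280966793596673)) (C.cons (nat_lit 1616) (C.node (nat_lit 3) (nat_lit 4) (nat_lit 10) C.nil) (C.cons (nat_lit 1560) (C.miq (nat_lit 878160139) (nat_lit 212830121846266568284114689)) C.nil)))) C.nil))) C.nil)))) C.nil))) C.nil)))) C.nil)))) C.nil)))) C.nil))) C.nil)))) C.nil)) C.nil))) C.nil)) C.nil))) C.nil))) C.nil))) (C.cons (nat_lit 1156) (C.node (nat_lit 5) (nat_lit 7) (nat_lit 10) (C.cons (nat_lit 1696) (C.miq (nat_lit 2545179184) (nat_lit 2649975745696087840906871849)) (C.cons (nat_lit 1184) (C.node (nat_lit 5) (nat_lit 10) (nat_lit 11) (C.cons (nat_lit 3106) (C.node (nat_lit 6) (nat_lit 10) (nat_lit 11) (C.cons (nat_lit 3136) (C.node (nat_lit 3) (nat_lit 5) (nat_lit 11) (C.cons (nat_lit 2600) (C.miq (nat_lit 1203309109) (nat_lit 3249602952077169548822316073)) (C.cons (nat_lit 2344) (C.miq (nat_lit 461874480) (nat_lit 2944964898592818328561583145)) (C.cons (nat_lit 2088) (C.node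 (nat_lit 3) (nat_lit 8) (nat_lit 11) (C.cons (nat_lit 2378) (C.miq (nat_lit 1805943664) (nat_lit 3733169148192089004561334665)) (C.cons (nat_lit 2376) (C.miq (nat_lit 1805943664) (nat_lit 3733169148191526054607913353)) (C.cons (nat_lit 2314) (C.miq (nat_lit 2545091201) (nat_lit 3878243677152442765223264519)) (C.cons (nat_lit 2312) (C.node (nat_lit 1) (nat_lit 3) (nat_lit 11) (C.cons (nat_lit 2122) (C.node (nat_lit 3) (nat_lit 9) (nat_lit 11) (C.cons (nat_lit 2568) (C.node (nat_lit 6) (nat_lit 8) (nat_lit 11) (C.cons (nat_lit 2368) (C.node (nat_lit 1) (nat_lit 2) (nat_lit 11) (C.cons (nat_lit 2566) (C.miq (nat_lit 461607536) (nat_lit 2795046143318448454821806725)) (C.cons (nat_lit 2054) (C.node (nat_lit 1) (nat_lit 8) (nat_lit 11) (C.cons (nat_lit 2322) (C.node (nat_lit 1) (nat_lit 9) (nat_lit 11) C.nil) C.nil)) C.nil))) C.nil)) C.nil)) (C.cons (nat_lit 2058) (C.node (nat_lit 2) (nat_lit 5) (nat_lit 11) (C.cons (nat_lit 2596) (C.node (nat_lit 4) (nat_lit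 5) (nat_lit 11) (C.cons (nat_lit 2352) (C.miq (nat_lit 2215097746) (nat_lit 1415697071699325874791057956)) (C.cons (nat_lit 2096) (C.node (nat_lit 5) (nat_lit 8) (nat_lit 11) (C.cons (nat_lit 2336) (C.node (nat_lit 1) (nat_lit 2) (nat_lit 11) (C.cons (nat_lit 2118) (C.node (nat_lit 6) (nat_lit 8) (nat_lit 11) C.nil) C.nil)) C.nil)) C.nil))) (C.cons (nat_lit 2084) (C.node (nat_lit 5) (nat_lit 9) (nat_lit 11)
  (C.cons (nat_lit 2592) (C.node (nat_lit 3) (nat_lit 6) (nat_lit 11) (C.cons (nat_lit 2632) (C.node (nat_lit 2) (nat_lit 9) (nat_lit 11) (C.cons (nat_lit 2566) (C.miq (nat_lit 461607536) (nat_lit 2795046143318448454821806725)) C.nil)) C.nil)) C.nil)) C.nil))) C.nil))) C.nil))))) C.nil)))) C.nil)) (C.cons (nat_lit 3104) (C.node (nat_lit 1) (nat_lit 10) (nat_lit 11) (C.cons (nat_lit 3138) (C.node (nat_lit 2) (nat_lit 6) (nat_lit 11) (C.cons (nat_lit 2628) (C.miq (nat_lit 462923296) (nat_lit 3249614205144713299629507653)) (C.cons (nat_lit 2116) (C.node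 (nat_lit 6) (nat_lit 8) (nat_lit 11) (C.cons (nat_lit 2376) (C.miq (nat_lit 1805943664) (nat_lit 3733169148191526054607913353)) (C.cons (nat_lit 2368) (C.node (nat_lit 3) (nat_lit 6) (nat_lit 11) (C.cons (nat_lit 2632) (C.node (nat_lit 4) (nat_lit 6) (nat_lit 11) (C.cons (nat_lit 2128) (C.node (nat_lit 4) (nat_lit 9) (nat_lit 11) (C.cons (nat_lit 2578) (C.node (nat_lit 1) (nat_lit 9) (nat_lit 10) (C.cons (nat_lit 1574) (C.miq (nat_lit 1504944448) (nat_lit 3181912403451195174403507347)) (C.cons (nat_lit 1570) (C.miq (nat_lit 1504944448) (nat_lit 3181912403450069274496664723)) (C.cons (nat_lit 1542) (C.miq (nat_lit 2065237666) (nat_lit 3116622661756247654825067589)) (C.cons (nat_lit 1538) (C.node (nat_lit 3) (nat_lit 4) (nat_lit 7) (C.cons (nat_lit 664) (C.miq (nat_lit 1632221811) (nat_lit 3116659315680189522300636296)) (C.cons (nat_lit 216) (C.miq (nat_lit 1755791539) (nat_lit 1702171538608991363580561437)) (C.cons (nat_lit 184) (C.miq (nat_lit 2591361844)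 (nat_lit 1431378520128305457723344925)) (C.cons (nat_lit 152) (C.node (nat_lit 6) (nat_lit 7) (nat_lit 10) (C.cons (nat_lit 1728) (C.miq (nat_lit 1732483595) (nat_lit 183805276898219427394031361)) (C.cons (nat_lit 1216) (C.node (nat_lit 7) (nat_lit 9) (nat_lit 10) (C.cons (nat_lit 1664) (C.node (nat_lit 1) (nat_lit 4) (nat_lit 6) (C.cons (nat_lit 122) (C.miq (nat_lit 2705962576) (nat_lit 3116681617793770131721095393)) (C.cons (nat_lit 118) (C.miq (nat_lit 2705962576) (nat_lit 3116681617793770114541226209)) (C.cons (nat_lit 114) (C.miq (nat_lit 2705962576) (nat_lit 3116681617793770097361357025)) (C.cons (nat_lit 90) (C.miq (nat_lit 2518332224) (nat_lit 3793680076635535993941985309)) (C.cons (nat_lit 86) (C.miq (nat_lit 2439689248) (nat_lit 3793680076620336328014628893)) (C.cons (nat_lit 82) (C.node (nat_lit 1) (nat_lit 2) (nat_lit 4) (C.cons (nat_lit 54) (C.node (nat_lit 1) (nat_lit 2) (nat_lit 11) (C.cons (nat_lit 2054) (C.node (nat_lit 2) (nat_lit 5)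 (nat_lit 11) (C.cons (nat_lit 2084) (C.node (nat_lit 2) (nat_lit 9) (nat_lit 11) C.nil) C.nil)) C.nil)) (C.cons (nat_lit 22) (C.node (nat_lit 1) (nat_lit 2) (nat_lit 11) (C.cons (nat_lit 2086) (C.node (nat_lit 2) (nat_lit 9) (nat_lit 11) C.nil) (C.cons (nat_lit 2054) (C.node (nat_lit 2) (nat_lit 5) (nat_lit 11) (C.cons (nat_lit 2084) (C.node (nat_lit 2) (nat_lit 9) (nat_lit 11) C.nil) C.nil)) C.nil))) C.nil))) C.nil))))))) C.nil)) C.nil))) C.nil))))) C.nil))))) (C.cons (nat_lit 2576) (C.node (nat_lit 6) (nat_lit 7) (nat_lit 10) (C.cons (nat_lit 1728) (C.node (nat_lit 3) (nat_lit 9) (nat_lit 10) (C.cons (nat_lit 1560) (C.miq (nat_lit 1470696244) (nat_lit 2089034165557310965371373597)) (C.cons (nat_lit 1548) (C.miq (nat_lit 1134168935) (nat_lit 1871438770485391107425306849)) (C.cons (nat_lit 1544) (C.miq (nat_lit 1134168935) (nat_lit 1866603067206932590726482145)) C.nil)))) (C.cons (nat_lit 1216) (C.node (nat_lit 7) (nat_lit 9) (nat_lit 10) (C.cons (nat_lit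 1664) (C.node (nat_lit 1) (nat_lit 3) (nat_lit 10) (C.cons (nat_lit 1290) (C.miq (nat_lit 369666931) (nat_lit 407431798393263356602027144)) (C.cons (nat_lit 1038) (C.node (nat_lit 3) (nat_lit 9) (nat_lit 10) (C.cons (nat_lit 1560) (C.miq (nat_lit 1470696244) (nat_lit 2011662913101974698190178333)) (C.cons (nat_lit 1544) (C.node (nat_lit 3) (nat_lit 4) (nat_lit 10) (C.cons (nat_lit 1304) (C.miq (nat_lit 1739066164) (nat_lit 1702173771209957118509058077)) (C.cons (nat_lit 1112)
  (C.miq (nat_lit 2258699314) (nat_lit 3793614073539259579063207965)) (C.cons (nat_lit 1048) (C.node (nat_lit 1) (nat_lit 8) (nat_lit 10) C.nil) C.nil)))) C.nil))) (C.cons (nat_lit 1034) (C.node (nat_lit 1) (nat_lit 8) (nat_lit 10) (C.cons (nat_lit 1314) (C.node (nat_lit 1) (nat_lit 2) (nat_lit 10) (C.cons (nat_lit 1542) (C.miq (nat_lit 2544967786) (nat_lit 2633068880181585125283333189)) (C.cons (nat_lit 1030) (C.node (nat_lit 1) (nat_lit 9) (nat_lit 10) C.nil) C.nil))) (C.cons (nat_lit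 1282) (C.node (nat_lit 2) (nat_lit 3) (nat_lit 10) (C.cons (nat_lit 1548) (C.node (nat_lit 1) (nat_lit 2) (nat_lit 10) C.nil) (C.cons (nat_lit 1292) (C.miq (nat_lit 1468664611) (nat_lit 1702187200439639463347095581)) (C.cons (nat_lit 1036) (C.node (nat_lit 3) (nat_lit 9) (nat_lit 10) C.nil) C.nil)))) C.nil))) C.nil)))) C.nil)) C.nil))) C.nil))) C.nil)) (C.cons (nat_lit 2120) (C.node (nat_lit 3) (nat_lit 9) (nat_lit 11) (C.cons (nat_lit 2600) (C.miq (nat_lit 1203309109) (nat_lit 3249602952077169548822316073)) (C.cons (nat_lit 2568) (C.node (nat_lit 4) (nat_lit 6) (nat_lit 11) (C.cons (nat_lit 2640) (C.node (nat_lit 6) (nat_lit 7) (nat_lit 10) (C.cons (nat_lit 1728) (C.node (nat_lit 3) (nat_lit 9) (nat_lit 10) (C.cons (nat_lit 1560) (C.miq (nat_lit 1452936003) (nat_lit 2089043462716321675443963933)) (C.cons (nat_lit 1548) (C.miq (nat_lit 1782282528) (nat_lit 3878275959259405342769742469)) (C.cons (nat_lit 1544) (C.node (nat_lit 4) (nat_lit 9) (nat_lit 10)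 (C.cons (nat_lit 1556) (C.miq (nat_lit 728318074) (nat_lit 3191592867501033002488562835)) (C.cons (nat_lit 1552) (C.node (nat_lit 4) (nat_lit 6) (nat_lit 7) (C.cons (nat_lit 216) (C.miq (nat_lit 2305231683) (nat_lit 2089031066945656906019506205)) (C.cons (nat_lit 212) (C.miq (nat_lit 2519443264) (nat_lit 2558157888734932122491225235)) (C.cons (nat_lit 208) (C.node (nat_lit 2) (nat_lit 6) (nat_lit 7) (C.cons (nat_lit 206) (C.miq (nat_lit 2322664242) (nat_lit 1415656987343581313007224861)) (C.cons (nat_lit 204) (C.miq (nat_lit 2788923168) (nat_lit 2562993592013390604830311045)) (C.cons (nat_lit 198) (C.miq (nat_lit 2606893591) (nat_lit 2558098933535641739505042579)) (C.cons (nat_lit 196) (C.node (nat_lit 3) (nat_lit 6) (nat_lit 7) (C.cons (nat_lit 202) (C.miq (nat_lit 2338523671) (nat_lit 2562929988234593681397122195)) (C.cons (nat_lit 200) (C.node (nat_lit 1) (nat_lit 6) (nat_lit 7) (C.cons (nat_lit 450) (C.node (nat_lit 2) (nat_lit 3) (nat_lit 7) (C.cons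 (nat_lit 174) (C.miq (nat_lit 2803413792) (nat_lit 544087473673542719634868253)) (C.cons (nat_lit 172) (C.miq (nat_lit 2270868016) (nat_lit 1431439025053381843311200285)) (C.cons (nat_lit 142) (C.miq (nat_lit 2803413792) (nat_lit 544087473673542582195914781)) C.nil)))) C.nil)) C.nil))) C.nil))))) C.nil)))) C.nil))) C.nil)))) (C.cons (nat_lit 1216) (C.node (nat_lit 7) (nat_lit 9) (nat_lit 10) (C.cons (nat_lit 1664) (C.node (nat_lit 1) (nat_lit 3) (nat_lit 10) (C.cons (nat_lit 1290) (C.miq (nat_lit 369666931) (nat_lit 407431798393263356602027144)) (C.cons (nat_lit 1038) (C.node (nat_lit 1) (nat_lit 3) (nat_lit 11) (C.cons (nat_lit 2314) (C.miq (nat_lit 2067343376) (nat_lit 3104533403605978245162008839)) (C.cons (nat_lit 2090) (C.miq (nat_lit 1369879328) (nat_lit 3793651151988273051611760669)) (C.cons (nat_lit 2058) (C.node (nat_lit 3) (nat_lit 5) (nat_lit 11) (C.cons (nat_lit 2344) (C.node (nat_lit 1) (nat_lit 8) (nat_lit 11) C.nil) C.nil)) C.nil)))) (C.cons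 (nat_lit 1034) (C.node (nat_lit 1) (nat_lit 8) (nat_lit 10) (C.cons (nat_lit 1314) (C.node (nat_lit 1) (nat_lit 2) (nat_lit 10) (C.cons (nat_lit 1542) (C.miq (nat_lit 2544967786) (nat_lit 2633068880181585125283333189)) (C.cons (nat_lit 1030) (C.node (nat_lit 1) (nat_lit 9) (nat_lit 10) C.nil) C.nil))) (C.cons (nat_lit 1282) (C.node (nat_lit 2) (nat_lit 3) (nat_lit 10) (C.cons (nat_lit 1548) (C.node (nat_lit 4) (nat_lit 9) (nat_lit 10) C.nil) (C.cons (nat_lit 1292) (C.miq (nat_lit 1468664611) (nat_lit 1702187200439639463347095581)) (C.cons (nat_lit 1036)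
  (C.node (nat_lit 3) (nat_lit 8) (nat_lit 10) C.nil) C.nil)))) C.nil))) C.nil)))) C.nil)) C.nil))) (C.cons (nat_lit 2128) (C.node (nat_lit 6) (nat_lit 9) (nat_lit 11) C.nil) C.nil))) C.nil))) C.nil))) C.nil))) C.nil))) (C.cons (nat_lit 3074) (C.node (nat_lit 6) (nat_lit 10) (nat_lit 11) (C.cons (nat_lit 3136) (C.node (nat_lit 6) (nat_lit 7) (nat_lit 10) (C.cons (nat_lit 1728) (C.node (nat_lit 3) (nat_lit 9) (nat_lit 10) (C.cons (nat_lit 1560) (C.miq (nat_lit 1470696244) (nat_lit 2089034165557310965371373597)) (C.cons (nat_lit 1548) (C.miq (nat_lit 1782282528) (nat_lit 3878275959259405342769742469)) (C.cons (nat_lit 1544) (C.node (nat_lit 4) (nat_lit 9) (nat_lit 10) (C.cons (nat_lit 1556) (C.miq (nat_lit 1783331104) (nat_lit 3733204860905649876164739717)) (C.cons (nat_lit 1552) (C.node (nat_lit 3) (nat_lit 9) (nat_lit 11) (C.cons (nat_lit 2632) (C.miq (nat_lit 967095920) (nat_lit 1876291186670195134365370593)) (C.cons (nat_lit 2600) (C.miq (nat_lit 1245251509)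 (nat_lit 1866591814438033772958451937)) (C.cons (nat_lit 2568) (C.node (nat_lit 4) (nat_lit 6) (nat_lit 7) (C.cons (nat_lit 216) (C.miq (nat_lit 2322991924) (nat_lit 2089030033927991217826039837)) (C.cons (nat_lit 212) (C.miq (nat_lit 1269178519) (nat_lit 3791195281605860742014173829)) (C.cons (nat_lit 208) (C.node (nat_lit 2) (nat_lit 3) (nat_lit 7) (C.cons (nat_lit 206) (C.miq (nat_lit 2322664242) (nat_lit 1415656987343581313007224861)) (C.cons (nat_lit 204) (C.miq (nat_lit 1000743063) (nat_lit 3791195134031908152337760901)) (C.cons (nat_lit 174) (C.miq (nat_lit 2322664242) (nat_lit 1415656987343581313005127709)) (C.cons (nat_lit 172) (C.miq (nat_lit 2270868016) (nat_lit 1431439025053381843311200285)) (C.cons (nat_lit 142) (C.miq (nat_lit 2322664242) (nat_lit 1415656987343581313003030557)) (C.cons (nat_lit 140) (C.node (nat_lit 2) (nat_lit 4) (nat_lit 7) (C.cons (nat_lit 180) (C.node (nat_lit 2) (nat_lit 4) (nat_lit 10) (C.cons (nat_lit 1300) (C.miq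 (nat_lit 2552499061) (nat_lit 1571613915203599126274246881)) (C.cons (nat_lit 1044) (C.node (nat_lit 2) (nat_lit 4) (nat_lit 8) (C.cons (nat_lit 788) (C.node (nat_lit 4) (nat_lit 7) (nat_lit 8) (C.cons (nat_lit 400) (C.node (nat_lit 1) (nat_lit 2) (nat_lit 7) (C.cons (nat_lit 198) (C.miq (nat_lit 1653174538) (nat_lit 952665421885820334990492819)) (C.cons (nat_lit 134) (C.node (nat_lit 2) (nat_lit 6) (nat_lit 7) C.nil) C.nil))) C.nil)) (C.cons (nat_lit 276) (C.miq (nat_lit 2552499061) (nat_lit 333673875918218851375122657)) C.nil))) C.nil))) (C.cons (nat_lit 148) (C.node (nat_lit 2) (nat_lit 5) (nat_lit 7) (C.cons (nat_lit 166) (C.node (nat_lit 2) (nat_lit 6) (nat_lit 7) (C.cons (nat_lit 196) (C.node (nat_lit 1) (nat_lit 7) (nat_lit 9) (C.cons (nat_lit 898) (C.miq (nat_lit 1729276288) (nat_lit 200701848833693624195026689)) C.nil)) C.nil)) (C.cons (nat_lit 164) (C.node (nat_lit 1) (nat_lit 2) (nat_lit 7) (C.cons (nat_lit 198) (C.node (nat_lit 3) (nat_lit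 6) (nat_lit 7) C.nil) (C.cons (nat_lit 134) (C.node (nat_lit 2) (nat_lit 6) (nat_lit 7) (C.cons (nat_lit 196) (C.node (nat_lit 3) (nat_lit 6) (nat_lit 7) C.nil) C.nil)) C.nil))) C.nil))) C.nil))) C.nil))))))) C.nil)))) C.nil)))) C.nil))) C.nil)))) (C.cons (nat_lit 1216) (C.node (nat_lit 7) (nat_lit 9) (nat_lit 10) (C.cons (nat_lit 1664) (C.node (nat_lit 3) (nat_lit 9) (nat_lit 11) (C.cons (nat_lit 2632) (C.node (nat_lit 2) (nat_lit 6) (nat_lit 11) (C.cons (nat_lit 2118) (C.node (nat_lit 4) (nat_lit 6) (nat_lit 11) (C.cons (nat_lit 2128) (C.node (nat_lit 6) (nat_lit 8) (nat_lit 11) (C.cons (nat_lit 2368) (C.node (nat_lit 1) (nat_lit 6) (nat_lit 7) (C.cons (nat_lit 962) (C.miq (nat_lit 907196800) (nat_lit 2560543200572071957244612353)) (C.cons (nat_lit 706) (C.miq (nat_lit 1133579111) (nat_lit 632289805380396203284498657)) (C.cons (nat_lit 450) (C.miq (nat_lit 840436583) (nat_lit 317954740713701064199768289)) (C.cons (nat_lit 202) (C.miq (nat_lit 2838563687)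 (nat_lit 632289805876918062169065697)) (C.cons (nat_lit 194) (C.node (nat_lit 2) (nat_lit 5) (nat_lit 11)
  (C.cons (nat_lit 2596) (C.node (nat_lit 1) (nat_lit 9) (nat_lit 11) (C.cons (nat_lit 2562) (C.node (nat_lit 4) (nat_lit 9) (nat_lit 11) C.nil) C.nil)) (C.cons (nat_lit 2084) (C.node (nat_lit 2) (nat_lit 9) (nat_lit 11) C.nil) C.nil))) C.nil)))))) C.nil)) C.nil)) (C.cons (nat_lit 2116) (C.node (nat_lit 4) (nat_lit 6) (nat_lit 11) (C.cons (nat_lit 2130) (C.node (nat_lit 4) (nat_lit 9) (nat_lit 11) (C.cons (nat_lit 2576) (C.node (nat_lit 6) (nat_lit 8) (nat_lit 11) (C.cons (nat_lit 2368) (C.node (nat_lit 4) (nat_lit 5) (nat_lit 11) (C.cons (nat_lit 2352) (C.node (nat_lit 1) (nat_lit 8) (nat_lit 11) C.nil) C.nil)) C.nil)) C.nil)) (C.cons (nat_lit 2128) (C.node (nat_lit 1) (nat_lit 6) (nat_lit 11) (C.cons (nat_lit 2370) (C.node (nat_lit 1) (nat_lit 6) (nat_lit 7) (C.cons (nat_lit 706) (C.miq (nat_lit 1133579111) (nat_lit 632289805380396203284498657))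 (C.cons (nat_lit 206) (C.miq (nat_lit 2551319399) (nat_lit 317959389789730580240140513)) (C.cons (nat_lit 202) (C.miq (nat_lit 2838563687) (nat_lit 632289805876918062169065697)) (C.cons (nat_lit 198) (C.miq (nat_lit 2551319399) (nat_lit 317959389789730580239616225)) (C.cons (nat_lit 194) (C.node (nat_lit 1) (nat_lit 3) (nat_lit 11) (C.cons (nat_lit 2090) (C.node (nat_lit 3) (nat_lit 8) (nat_lit 11) (C.cons (nat_lit 2312) (C.node (nat_lit 1) (nat_lit 2) (nat_lit 11) C.nil) C.nil)) (C.cons (nat_lit 2058) (C.node (nat_lit 3) (nat_lit 5) (nat_lit 11) (C.cons (nat_lit 2344) (C.node (nat_lit 4) (nat_lit 8) (nat_lit 11) C.nil) C.nil)) C.nil))) C.nil)))))) (C.cons (nat_lit 2114) (C.node (nat_lit 6) (nat_lit 8) (nat_lit 11) C.nil) C.nil))) C.nil))) C.nil))) (C.cons (nat_lit 2600) (C.miq (nat_lit 1203309109) (nat_lit 3249602952077169548822316073)) (C.cons (nat_lit 2568) (C.node (nat_lit 3) (nat_lit 6) (nat_lit 11) (C.cons (nat_lit 2378) (C.miq (nat_lit 1805943664)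 (nat_lit 3733169148192089004561334665)) (C.cons (nat_lit 2376) (C.miq (nat_lit 1805943664) (nat_lit 3733169148191526054607913353)) (C.cons (nat_lit 2122) (C.node (nat_lit 6) (nat_lit 8) (nat_lit 11) (C.cons (nat_lit 2368) (C.node (nat_lit 2) (nat_lit 6) (nat_lit 11) (C.cons (nat_lit 2628) (C.node (nat_lit 4) (nat_lit 6) (nat_lit 11) (C.cons (nat_lit 2128) (C.node (nat_lit 1) (nat_lit 2) (nat_lit 11) (C.cons (nat_lit 2086) (C.node (nat_lit 5) (nat_lit 9) (nat_lit 11) C.nil) C.nil)) C.nil)) (C.cons (nat_lit 2116) (C.node (nat_lit 3) (nat_lit 5) (nat_lit 11) (C.cons (nat_lit 2344) (C.node (nat_lit 2) (nat_lit 9) (nat_lit 11) (C.cons (nat_lit 2596) (C.miq (nat_lit 1393145970) (nat_lit 632316092065845441741523332)) (C.cons (nat_lit 2566) (C.miq (nat_lit 461607536) (nat_lit 2833731769546116588412404357)) C.nil))) C.nil)) C.nil))) C.nil)) (C.cons (nat_lit 2120) (C.node (nat_lit 6) (nat_lit 8) (nat_lit 11) (C.cons (nat_lit 2370) (C.node (nat_lit 1) (nat_lit 3)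 (nat_lit 11) (C.cons (nat_lit 2090) (C.node (nat_lit 3) (nat_lit 8) (nat_lit 11) (C.cons (nat_lit 2312) (C.node (nat_lit 1) (nat_lit 2) (nat_lit 11) (C.cons (nat_lit 2566) (C.miq (nat_lit 461607536) (nat_lit 2795046143318448454821806725)) C.nil)) C.nil)) (C.cons (nat_lit 2058) (C.node (nat_lit 2) (nat_lit 6) (nat_lit 11) (C.cons (nat_lit 2628) (C.node (nat_lit 4) (nat_lit 6) (nat_lit 11) C.nil) C.nil)) C.nil))) (C.cons (nat_lit 2368) (C.node (nat_lit 3) (nat_lit 8) (nat_lit 11) (C.cons (nat_lit 2346) (C.miq (nat_lit 2067343376) (nat_lit 3104533403605978382600962311)) (C.cons (nat_lit 2344) (C.node (nat_lit 1) (nat_lit 3) (nat_lit 11) C.nil) (C.cons (nat_lit 2314) (C.miq (nat_lit 2067343376) (nat_lit 3104533403605978245162008839)) (C.cons (nat_lit 2312) (C.node (nat_lit 1) (nat_lit 3) (nat_lit 11) C.nil) C.nil))))) C.nil))) C.nil))))) C.nil)))) C.nil)) C.nil))) C.nil)) C.nil))) C.nil))) C.nil))) C.nil))) List.nil)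

theorem ok12_285 : okL par12 (nat_lit 286) c12_285 (nat_lit 285) = true := by decide +kernel

noncomputable def c12_286 : List C :=
  (List.cons (C.node (nat_lit 2) (nat_lit 5) (nat_lit 11) (C.cons (nat_lit 3108) (C.node (nat_lit 2) (nat_lit 7) (nat_lit 10) (C.cons (nat_lit 1164) (C.miq (nat_lit 1383312256) (nat_lit 1407209300688701550213271297)) (C.cons (nat_lit 1156) (C.node (nat_lit 2) (nat_lit 8) (nat_lit 10) (C.cons (nat_lit 1300) (C.miq (nat_lit 942278581) (nat_lit 1571623211392086556381808865)) (C.cons (nat_lit 1292) (C.node (nat_lit 1) (nat_lit 2) (nat_lit 10) (C.cons (nat_lit 1542) (C.miq (nat_lit 1898363296) (nat_lit 2560546816150238444101373697)) (C.cons (nat_lit 1030) (C.node (nat_lit 4) (nat_lit 8) (nat_lit 10) (C.cons (nat_lit 1328) (C.miq (nat_lit 2024124976) (nat_lit 1605495418583185678255327261)) (C.cons (nat_lit 1296) (C.node (nat_lit 5) (nat_lit 7) (nat_lit 10) (C.cons (nat_lit 1696) (C.miq (nat_lit 2320966411) (nat_lit 2050383126698644880968714269))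 (C.cons (nat_lit 1440) (C.node (nat_lit 1) (nat_lit 7) (nat_lit 8) (C.cons (nat_lit 450) (C.miq (nat_lit 840436583) (nat_lit 317954740713701064199768289)) (C.cons (nat_lit 386) (C.node (nat_lit 5) (nat_lit 7) (nat_lit 9) (C.cons (nat_lit 680) (C.miq (nat_lit 628341376) (nat_lit 822107872100219345934290689)) (C.cons (nat_lit 672) (C.node (nat_lit 6) (nat_lit 7) (nat_lit 8) (C.cons (nat_lit 960) (C.miq (nat_lit 2041808448) (nat_lit 3104528754611016004991254865)) (C.cons (nat_lit 448) (C.node (nat_lit 4) (nat_lit 5) (nat_lit 7) (C.cons (nat_lit 184) (C.miq (nat_lit 628341376) (nat_lit 222480665571363275280027393)) (C.cons (nat_lit 180) (C.miq (nat_lit 844565416) (nat_lit 217613897685691094781660929)) (C.cons (nat_lit 176) (C.node (nat_lit 2) (nat_lit 5) (nat_lit 7) (C.cons (nat_lit 174) (C.miq (nat_lit 2836597621) (nat_lit 632287850522046498062862561)) (C.cons (nat_lit 172) (C.node (nat_lit 1) (nat_lit 2) (nat_lit 3) (C.cons (nat_lit 14) (C.node (nat_lit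 1) (nat_lit 2) (nat_lit 7) (C.cons (nat_lit 134) (C.node (nat_lit 1) (nat_lit 5) (nat_lit 7) (C.cons (nat_lit 162) (C.node (nat_lit 1) (nat_lit 3) (nat_lit 7) (C.cons (nat_lit 202) (C.node (nat_lit 2) (nat_lit 4) (nat_lit 7) (C.cons (nat_lit 212) (C.node (nat_lit 4) (nat_lit 7) (nat_lit 8) (C.cons (nat_lit 912) (C.miq (nat_lit 2823162226) (nat_lit 407428164582551898985595525)) C.nil)) C.nil)) C.nil)) C.nil)) C.nil)) C.nil)) (C.cons (nat_lit 166) (C.miq (nat_lit 844565416) (nat_lit 200688936211086286335774465)) (C.cons (nat_lit 164) (C.miq (nat_lit 844565416) (nat_lit 198271084571857027986362113)) C.nil))))) C.nil)))) C.nil))) C.nil))) C.nil))) (C.cons (nat_lit 1184) (C.miq (nat_lit 2320966411) (nat_lit 1431413107055954743519152157)) C.nil)))) C.nil))) C.nil))) (C.cons (nat_lit 1284) (C.miq (nat_lit 942278581) (nat_lit 1552280398278252489586510049)) C.nil)))) C.nil))) (C.cons (nat_lit 2084) (C.node (nat_lit 2) (nat_lit 10) (nat_lit 11) (C.cons (nat_lit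 3076) (C.node (nat_lit 5) (nat_lit 10) (nat_lit 11) (C.cons (nat_lit 3106) (C.node (nat_lit 1) (nat_lit 3) (nat_lit 11) (C.cons (nat_lit 2314) (C.miq (nat_lit 2274472451) (nat_lit 3252053141214814857417394205)) (C.cons (nat_lit 2058) (C.node (nat_lit 1) (nat_lit 4) (nat_lit 11) (C.cons (nat_lit 2066) (C.node (nat_lit 1) (nat_lit 8) (nat_lit 11) C.nil) C.nil)) C.nil))) (C.cons (nat_lit 3104) (C.node (nat_lit 1) (nat_lit 10) (nat_lit 11) (C.cons (nat_lit 3082) (C.node (nat_lit 6) (nat_lit 10) (nat_lit 11) (C.cons (nat_lit 3136) (C.node (nat_lit 3) (nat_lit 5) (nat_lit 11) C.nil) C.nil)) (C.cons (nat_lit 3074) (C.node (nat_lit 3) (nat_lit 10) (nat_lit 11) (C.cons (nat_lit 3144) (C.node (nat_lit 6) (nat_lit 8) (nat_lit 11) C.nil) C.nil)) C.nil))) C.nil))) C.nil)) C.nil))) (List.cons (C.node (nat_lit 1) (nat_lit 4) (nat_lit 9) (C.cons (nat_lit 786) (C.miq (nat_lit 1729366936) (nat_lit 1415658351961287779276689153)) (C.cons (nat_lit 534) (C.node (nat_lit 4)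 (nat_lit 5) (nat_lit 11) (C.cons (nat_lit 2354) (C.miq (nat_lit 2224207111) (nat_lit 645611324605370040456644833)) (C.cons (nat_lit 2352) (C.miq (nat_lit 2224207111) (nat_lit 645611324604807090503223521)) (C.cons (nat_lit 2098)
  (C.miq (nat_lit 1368896544) (nat_lit 3252052384803168816464201757)) (C.cons (nat_lit 2096) (C.node (nat_lit 1) (nat_lit 4) (nat_lit 11) (C.cons (nat_lit 2322) (C.node (nat_lit 4) (nat_lit 9) (nat_lit 10) (C.cons (nat_lit 1560) (C.node (nat_lit 2) (nat_lit 9) (nat_lit 10) (C.cons (nat_lit 1572) (C.miq (nat_lit 1772467248) (nat_lit 1900473318626577243183843357)) (C.cons (nat_lit 1540) (C.node (nat_lit 3) (nat_lit 4) (nat_lit 8) (C.cons (nat_lit 312) (C.miq (nat_lit 1681242528) (nat_lit 377226785912144483054063361)) (C.cons (nat_lit 280) (C.node (nat_lit 4) (nat_lit 6) (nat_lit 10) (C.cons (nat_lit 1136) (C.miq (nat_lit 895787193) (nat_lit 1373368508302754342197268225)) (C.cons (nat_lit 1104) (C.node (nat_lit 3) (nat_lit 4) (nat_lit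 7) (C.cons (nat_lit 216) (C.miq (nat_lit 1447234458) (nat_lit 261147623459002363288227585)) (C.cons (nat_lit 184) (C.miq (nat_lit 1681242528) (nat_lit 222484281001471948691672833)) (C.cons (nat_lit 152) (C.node (nat_lit 7) (nat_lit 9) (nat_lit 10) (C.cons (nat_lit 1728) (C.miq (nat_lit 1452936003) (nat_lit 2089043462716321675443963933)) (C.cons (nat_lit 1696) (C.miq (nat_lit 1772467248) (nat_lit 2050380120258791260847409181)) (C.cons (nat_lit 1664) (C.node (nat_lit 5) (nat_lit 9) (nat_lit 10) (C.cons (nat_lit 1634) (C.miq (nat_lit 313955333) (nat_lit 2558117176434688333445136945)) (C.cons (nat_lit 1632) (C.node (nat_lit 1) (nat_lit 9) (nat_lit 10) (C.cons (nat_lit 1538) (C.node (nat_lit 1) (nat_lit 6) (nat_lit 9) (C.cons (nat_lit 834) (C.miq (nat_lit 1629788171) (nat_lit 645615087313317832798572289)) (C.cons (nat_lit 578) (C.node (nat_lit 1) (nat_lit 5) (nat_lit 9) (C.cons (nat_lit 546) (C.node (nat_lit 1) (nat_lit 8) (nat_lit 9) C.nil) C.nil)) C.nil)))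 C.nil)) (C.cons (nat_lit 1570) (C.miq (nat_lit 1772467248) (nat_lit 1898055466987347984834431005)) (C.cons (nat_lit 1568) (C.miq (nat_lit 1772467248) (nat_lit 1895637615348118726485018653)) C.nil))))) C.nil)))) C.nil)))) C.nil))) C.nil))) C.nil))) (C.cons (nat_lit 1552) (C.node (nat_lit 3) (nat_lit 4) (nat_lit 9) (C.cons (nat_lit 792) (C.miq (nat_lit 968328288) (nat_lit 3252017704556712968230863185)) (C.cons (nat_lit 664) (C.miq (nat_lit 2274427714) (nat_lit 3252015306367666383312259101)) (C.cons (nat_lit 536) (C.node (nat_lit 4) (nat_lit 7) (nat_lit 9) (C.cons (nat_lit 912) (C.node (nat_lit 2) (nat_lit 4) (nat_lit 7) (C.cons (nat_lit 212) (C.miq (nat_lit 2823162226) (nat_lit 407428164582551898985595525)) (C.cons (nat_lit 180) (C.miq (nat_lit 2185869136) (nat_lit 645637242303872914078894305)) (C.cons (nat_lit 148) (C.node (nat_lit 4) (nat_lit 5) (nat_lit 7) (C.cons (nat_lit 184) (C.miq (nat_lit 2839873651) (nat_lit 678227031667394770250498441)) (C.cons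 (nat_lit 176) (C.node (nat_lit 3) (nat_lit 4) (nat_lit 7) (C.cons (nat_lit 216) (C.miq (nat_lit 2302872423) (nat_lit 647991489965018929769744609)) (C.cons (nat_lit 152) (C.node (nat_lit 4) (nat_lit 6) (nat_lit 7) (C.cons (nat_lit 208) (C.node (nat_lit 2) (nat_lit 4) (nat_lit 6) (C.cons (nat_lit 116) (C.node (nat_lit 2) (nat_lit 4) (nat_lit 8) (C.cons (nat_lit 1300) (C.miq (nat_lit 2220597856) (nat_lit 2533979372222167836660925509)) C.nil)) C.nil)) C.nil)) C.nil))) C.nil))) C.nil)))) (C.cons (nat_lit 656) (C.node (nat_lit 4) (nat_lit 8) (nat_lit 9) (C.cons (nat_lit 784) (C.node (nat_lit 7) (nat_lit 8) (nat_lit 9) (C.cons (nat_lit 960) (C.miq (nat_lit 882379623) (nat_lit 947805092732925106228037857)) (C.cons (nat_lit 928) (C.miq (nat_lit 680834896) (nat_lit 947836157150987396741925089)) (C.cons (nat_lit 896) (C.node (nat_lit 4) (nat_lit 7) (nat_lit 8) (C.cons (nat_lit 432) (C.node (nat_lit 3) (nat_lit 4) (nat_lit 7) (C.cons (nat_lit 216) (C.miq (nat_lit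 2302872423) (nat_lit 647991489965018929769744609)) (C.cons (nat_lit 152) (C.node (nat_lit 1) (nat_lit 7) (nat_lit 8) (C.cons (nat_lit 450) (C.node (nat_lit 7) (nat_lit 8) (nat_lit 10) (C.cons (nat_lit 1408) (C.node (nat_lit 6) (nat_lit 8) (nat_lit 11) (C.cons (nat_lit 2376) (C.miq (nat_lit 940881520) (nat_lit 2807164067701396515882993889))
  (C.cons (nat_lit 2368) (C.node (nat_lit 1) (nat_lit 8) (nat_lit 9) (C.cons (nat_lit 802) (C.node (nat_lit 1) (nat_lit 6) (nat_lit 9) (C.cons (nat_lit 1602) (C.node (nat_lit 6) (nat_lit 7) (nat_lit 9) C.nil) C.nil)) C.nil)) C.nil))) C.nil)) (C.cons (nat_lit 386) (C.node (nat_lit 2) (nat_lit 4) (nat_lit 7) (C.cons (nat_lit 212) (C.node (nat_lit 2) (nat_lit 6) (nat_lit 9) (C.cons (nat_lit 876) (C.miq (nat_lit 2753759077) (nat_lit 2510958573451631404855855329)) (C.cons (nat_lit 868) (C.miq (nat_lit 2825128231) (nat_lit 407429603428589459352060549)) (C.cons (nat_lit 844) (C.miq (nat_lit 1763123972) (nat_lit 3252014365710663233072990237))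 (C.cons (nat_lit 836) (C.miq (nat_lit 2825128231) (nat_lit 407429603428589321913107077)) (C.cons (nat_lit 620) (C.miq (nat_lit 2753759077) (nat_lit 2510958573451631404839078113)) (C.cons (nat_lit 612) (C.miq (nat_lit 392314969) (nat_lit 256302124649253706167222833)) (C.cons (nat_lit 588) (C.miq (nat_lit 1763123972) (nat_lit 3252014365638605639035062301)) C.nil)))))))) (C.cons (nat_lit 148) (C.node (nat_lit 4) (nat_lit 6) (nat_lit 7) C.nil) C.nil))) C.nil))) C.nil))) (C.cons (nat_lit 400) (C.node (nat_lit 5) (nat_lit 8) (nat_lit 11) (C.cons (nat_lit 2344) (C.node (nat_lit 6) (nat_lit 8) (nat_lit 11) (C.cons (nat_lit 2368) (C.node (nat_lit 1) (nat_lit 8) (nat_lit 9) (C.cons (nat_lit 866) (C.miq (nat_lit 1629788171) (nat_lit 645615087322325032053313281)) (C.cons (nat_lit 834) (C.miq (nat_lit 1629788171) (nat_lit 645615087313317832798572289)) (C.cons (nat_lit 802) (C.miq (nat_lit 2709849267) (nat_lit 969578153442988269582682141)) C.nil)))) C.nil)) (C.cons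 (nat_lit 2336) (C.node (nat_lit 1) (nat_lit 8) (nat_lit 9) (C.cons (nat_lit 866) (C.miq (nat_lit 1629788171) (nat_lit 645615087322325032053313281)) (C.cons (nat_lit 834) (C.miq (nat_lit 1629788171) (nat_lit 645615087313317832798572289)) (C.cons (nat_lit 802) (C.node (nat_lit 1) (nat_lit 6) (nat_lit 9) (C.cons (nat_lit 1602) (C.node (nat_lit 6) (nat_lit 7) (nat_lit 9) C.nil) C.nil)) C.nil)))) C.nil))) C.nil))) C.nil)))) C.nil)) C.nil))) C.nil)))) C.nil))) (C.cons (nat_lit 2066) (C.node (nat_lit 4) (nat_lit 8) (nat_lit 11) (C.cons (nat_lit 2320) (C.node (nat_lit 6) (nat_lit 10) (nat_lit 11) (C.cons (nat_lit 3146) (C.miq (nat_lit 2727436411) (nat_lit 645624421438722789517428961)) (C.cons (nat_lit 3144) (C.node (nat_lit 1) (nat_lit 6) (nat_lit 11) (C.cons (nat_lit 2370) (C.node (nat_lit 1) (nat_lit 3) (nat_lit 11) C.nil) C.nil)) (C.cons (nat_lit 3138) (C.miq (nat_lit 2727436411) (nat_lit 645624273864770199841016033)) C.nil)))) C.nil)) C.nil))) C.nil)))))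 (C.cons (nat_lit 530) (C.node (nat_lit 6) (nat_lit 10) (nat_lit 11) (C.cons (nat_lit 3146) (C.miq (nat_lit 1804771696) (nat_lit 3099705964668713598722573459)) (C.cons (nat_lit 3144) (C.node (nat_lit 4) (nat_lit 6) (nat_lit 10) (C.cons (nat_lit 1136) (C.miq (nat_lit 910535568) (nat_lit 1373359377749625908667420417)) (C.cons (nat_lit 1104) (C.node (nat_lit 1) (nat_lit 6) (nat_lit 11) (C.cons (nat_lit 2370) (C.node (nat_lit 3) (nat_lit 4) (nat_lit 6) (C.cons (nat_lit 216) (C.miq (nat_lit 1399065273) (nat_lit 261138325959969606542036737)) (C.cons (nat_lit 122) (C.miq (nat_lit 2169091664) (nat_lit 640801539006836799809063137)) (C.cons (nat_lit 120) (C.node (nat_lit 1) (nat_lit 4) (nat_lit 6) (C.cons (nat_lit 86) (C.miq (nat_lit 2518201376) (nat_lit 2865225047173752570341951517)) (C.cons (nat_lit 82) (C.node (nat_lit 3) (nat_lit 4) (nat_lit 7) (C.cons (nat_lit 664) (C.miq (nat_lit 2739517008) (nat_lit 802797599053058732603803873)) (C.cons (nat_lit 152) (C.node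 (nat_lit 3) (nat_lit 4) (nat_lit 9) (C.cons (nat_lit 1560) (C.node (nat_lit 7) (nat_lit 9) (nat_lit 10) (C.cons (nat_lit 1728) (C.miq (nat_lit 598281063) (nat_lit 1885936177333386085320886497)) (C.cons (nat_lit 1696) (C.miq (nat_lit 1772467248) (nat_lit 2050380120258791260847409181)) (C.cons (nat_lit 1664) (C.node (nat_lit 2) (nat_lit 9) (nat_lit 10) (C.cons (nat_lit 1574) (C.miq (nat_lit 1772467248) (nat_lit 1902891170265806501533255709))
  (C.cons (nat_lit 1572) (C.miq (nat_lit 1772467248) (nat_lit 1900473318626577243183843357)) (C.cons (nat_lit 1542) (C.miq (nat_lit 699834736) (nat_lit 3191584326507939553463043219)) (C.cons (nat_lit 1540) (C.node (nat_lit 1) (nat_lit 2) (nat_lit 4) (C.cons (nat_lit 54) (C.node (nat_lit 1) (nat_lit 4) (nat_lit 11) (C.cons (nat_lit 2066) (C.node (nat_lit 1) (nat_lit 2) (nat_lit 11) (C.cons (nat_lit 3078) (C.miq (nat_lit 1504854177) (nat_lit 3099686797774013143368205459)) (C.cons (nat_lit 2054) (C.node (nat_lit 1) (nat_lit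 3) (nat_lit 11) (C.cons (nat_lit 2058) (C.node (nat_lit 1) (nat_lit 5) (nat_lit 11) C.nil) C.nil)) C.nil))) C.nil)) (C.cons (nat_lit 22) (C.node (nat_lit 1) (nat_lit 3) (nat_lit 4) (C.cons (nat_lit 282) (C.node (nat_lit 1) (nat_lit 3) (nat_lit 10) (C.cons (nat_lit 1038) (C.miq (nat_lit 2793480259) (nat_lit 2865173340514673251535423517)) (C.cons (nat_lit 1034) (C.node (nat_lit 1) (nat_lit 3) (nat_lit 11) (C.cons (nat_lit 2090) (C.miq (nat_lit 1367782208) (nat_lit 2865196122524234598392596509)) (C.cons (nat_lit 2058) (C.node (nat_lit 1) (nat_lit 3) (nat_lit 5) (C.cons (nat_lit 174) (C.miq (nat_lit 2436544336) (nat_lit 1250100152182682119779715297)) (C.cons (nat_lit 170) (C.miq (nat_lit 2436544336) (nat_lit 1250100152182682102599846113)) (C.cons (nat_lit 46) (C.miq (nat_lit 1367749124) (nat_lit 2865156406108908967727007773)) (C.cons (nat_lit 42) (C.node (nat_lit 1) (nat_lit 2) (nat_lit 3) (C.cons (nat_lit 206) (C.miq (nat_lit 592016976) (nat_lit 1885936176806733415837665505))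 (C.cons (nat_lit 142) (C.miq (nat_lit 2266608176) (nat_lit 3252081309393013251534161949)) (C.cons (nat_lit 78) (C.miq (nat_lit 2786636576) (nat_lit 2865225047315615924244383773)) (C.cons (nat_lit 14) (C.node (nat_lit 1) (nat_lit 3) (nat_lit 6) C.nil) C.nil))))) C.nil))))) C.nil))) C.nil))) (C.cons (nat_lit 26) (C.node (nat_lit 3) (nat_lit 4) (nat_lit 8) (C.cons (nat_lit 280) (C.node (nat_lit 1) (nat_lit 3) (nat_lit 11) (C.cons (nat_lit 2090) (C.node (nat_lit 1) (nat_lit 4) (nat_lit 11) C.nil) (C.cons (nat_lit 2058) (C.node (nat_lit 1) (nat_lit 4) (nat_lit 8) (C.cons (nat_lit 306) (C.node (nat_lit 1) (nat_lit 4) (nat_lit 11) C.nil) (C.cons (nat_lit 274) (C.node (nat_lit 1) (nat_lit 4) (nat_lit 11) C.nil) C.nil))) C.nil))) C.nil)) C.nil))) C.nil))) C.nil))))) C.nil)))) (C.cons (nat_lit 792) (C.miq (nat_lit 1681373568) (nat_lit 183798654773800516522151681)) (C.cons (nat_lit 536) (C.miq (nat_lit 2739517008) (nat_lit 648055094142386198241413345)) C.nil))))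 C.nil))) C.nil))) (C.cons (nat_lit 90) (C.miq (nat_lit 1399065273) (nat_lit 108813672688526330529058561)) (C.cons (nat_lit 88) (C.miq (nat_lit 1399065273) (nat_lit 106395821049297072179646209)) C.nil)))))) (C.cons (nat_lit 2114) (C.node (nat_lit 6) (nat_lit 8) (nat_lit 11) (C.cons (nat_lit 2368) (C.node (nat_lit 4) (nat_lit 6) (nat_lit 7) (C.cons (nat_lit 216) (C.miq (nat_lit 1399065273) (nat_lit 261138325959969606542036737)) (C.cons (nat_lit 212) (C.node (nat_lit 2) (nat_lit 4) (nat_lit 9) (C.cons (nat_lit 1556) (C.miq (nat_lit 2456527984) (nat_lit 2558157888686518426509837459)) (C.cons (nat_lit 788) (C.miq (nat_lit 1461980041) (nat_lit 256302623021529820751466241)) (C.cons (nat_lit 532) (C.node (nat_lit 4) (nat_lit 8) (nat_lit 9) (C.cons (nat_lit 912) (C.miq (nat_lit 2221578016) (nat_lit 1334724959055243816628191877)) (C.cons (nat_lit 792) (C.miq (nat_lit 929333433) (nat_lit 256306883690237191483559681)) (C.cons (nat_lit 784) (C.node (nat_lit 6) (nat_lit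 7) (nat_lit 10) (C.cons (nat_lit 1728) (C.miq (nat_lit 913488528) (nat_lit 256330588530707228300480257)) (C.cons (nat_lit 1472) (C.miq (nat_lit 2251007808) (nat_lit 2558157888662874528453297299)) (C.cons (nat_lit 1216) (C.node (nat_lit 7) (nat_lit 8) (nat_lit 9) (C.cons (nat_lit 960) (C.miq (nat_lit 879168408) (nat_lit 256299523913357218296106753)) (C.cons (nat_lit 928) (C.miq (nat_lit 1411879096) (nat_lit 256309392494718170243010305)) (C.cons (nat_lit 896) (C.node (nat_lit 3) (nat_lit 4) (nat_lit 6) (C.cons (nat_lit 122)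
  (C.miq (nat_lit 1737572867) (nat_lit 3252012705325804937875752989)) (C.cons (nat_lit 120) (C.node (nat_lit 1) (nat_lit 4) (nat_lit 6) (C.cons (nat_lit 82) (C.node (nat_lit 6) (nat_lit 7) (nat_lit 8) (C.cons (nat_lit 450) (C.node (nat_lit 1) (nat_lit 3) (nat_lit 6) (C.cons (nat_lit 78) (C.miq (nat_lit 2786636576) (nat_lit 544087473655527908808525853)) C.nil)) C.nil)) C.nil)) (C.cons (nat_lit 90) (C.miq (nat_lit 1399065273) (nat_lit 108813672688526330529058561)) (C.cons (nat_lit 88) (C.miq (nat_lit 1399065273) (nat_lit 106395821049297072179646209)) C.nil))))) C.nil)))) C.nil)))) C.nil)))) C.nil)))) (C.cons (nat_lit 208) (C.node (nat_lit 2) (nat_lit 6) (nat_lit 7) (C.cons (nat_lit 206) (C.miq (nat_lit 2266608176) (nat_lit 3252081309393013526412068893)) (C.cons (nat_lit 204) (C.miq (nat_lit 2604075618) (nat_lit 2640305889269436549155259461)) (C.cons (nat_lit 198) (C.miq (nat_lit 2870348146) (nat_lit 2555689346037755578889405061)) (C.cons (nat_lit 196) (C.node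 (nat_lit 2) (nat_lit 4) (nat_lit 7) (C.cons (nat_lit 180) (C.node (nat_lit 1) (nat_lit 2) (nat_lit 7) (C.cons (nat_lit 142) (C.miq (nat_lit 1461273136) (nat_lit 3252020803437443936745621533)) (C.cons (nat_lit 134) (C.node (nat_lit 4) (nat_lit 7) (nat_lit 8) (C.cons (nat_lit 912) (C.miq (nat_lit 613971211) (nat_lit 1102585283807773269336066273)) (C.cons (nat_lit 400) (C.node (nat_lit 2) (nat_lit 4) (nat_lit 8) (C.cons (nat_lit 1300) (C.miq (nat_lit 2552499061) (nat_lit 1571613915203599126274246881)) (C.cons (nat_lit 788) (C.node (nat_lit 2) (nat_lit 4) (nat_lit 10) (C.cons (nat_lit 1044) (C.node (nat_lit 1) (nat_lit 2) (nat_lit 4) (C.cons (nat_lit 86) (C.miq (nat_lit 190941506) (nat_lit 2555674035240174185205859092)) (C.cons (nat_lit 22) (C.node (nat_lit 2) (nat_lit 4) (nat_lit 6) (C.cons (nat_lit 84) (C.node (nat_lit 4) (nat_lit 5) (nat_lit 10) (C.cons (nat_lit 1328) (C.miq (nat_lit 1385711370) (nat_lit 952658043183125942266561683)) (C.cons (nat_lit 1072)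 (C.node (nat_lit 3) (nat_lit 4) (nat_lit 7) C.nil) C.nil))) C.nil)) C.nil))) C.nil)) (C.cons (nat_lit 276) (C.miq (nat_lit 2552499061) (nat_lit 333673875918218851375122657)) C.nil)))) C.nil))) C.nil))) (C.cons (nat_lit 148) (C.node (nat_lit 2) (nat_lit 4) (nat_lit 9) (C.cons (nat_lit 1556) (C.node (nat_lit 3) (nat_lit 4) (nat_lit 6) (C.cons (nat_lit 122) (C.miq (nat_lit 882533643) (nat_lit 1881146571918073095560169697)) (C.cons (nat_lit 120) (C.miq (nat_lit 882533643) (nat_lit 1881146571917510145606748385)) (C.cons (nat_lit 90) (C.miq (nat_lit 1399065273) (nat_lit 108813672688526330529058561)) (C.cons (nat_lit 88) (C.miq (nat_lit 1399065273) (nat_lit 106395821049297072179646209)) C.nil))))) (C.cons (nat_lit 788) (C.miq (nat_lit 1461980041) (nat_lit 178931370566193553570270977)) (C.cons (nat_lit 532) (C.node (nat_lit 2) (nat_lit 9) (nat_lit 10) (C.cons (nat_lit 1574) (C.miq (nat_lit 308779531) (nat_lit 236999082829071904827051777)) (C.cons (nat_lit 1572)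 (C.miq (nat_lit 1784263428) (nat_lit 1900480088723513556809615389)) (C.cons (nat_lit 1548) (C.miq (nat_lit 846637323) (nat_lit 237007457643561095423659777)) (C.cons (nat_lit 1542) (C.miq (nat_lit 308779531) (nat_lit 236999082820064705572310785)) (C.cons (nat_lit 1540) (C.node (nat_lit 4) (nat_lit 9) (nat_lit 10) (C.cons (nat_lit 1560) (C.node (nat_lit 3) (nat_lit 4) (nat_lit 7) (C.cons (nat_lit 184) (C.miq (nat_lit 1665514128) (nat_lit 222484281143335336920813313)) (C.cons (nat_lit 152) (C.node (nat_lit 7) (nat_lit 9) (nat_lit 10) (C.cons (nat_lit 1728) (C.miq (nat_lit 913488528) (nat_lit 236987775416873161505181441)) (C.cons (nat_lit 1696) (C.miq (nat_lit 1772467248) (nat_lit 2050380120258791260847409181)) (C.cons (nat_lit 1664) (C.node (nat_lit 3) (nat_lit 7) (nat_lit 10) (C.cons (nat_lit 1164) (C.node (nat_lit 5) (nat_lit 7) (nat_lit 10) (C.cons (nat_lit 1440) (C.miq (nat_lit 1395105976) (nat_lit 1407216217642674272115887873)) (C.cons (nat_lit 1184)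 (C.node (nat_lit 6) (nat_lit 7) (nat_lit 10) (C.cons (nat_lit 1472)
  (C.miq (nat_lit 1185024115) (nat_lit 1321394234821094172112191881)) (C.cons (nat_lit 1216) (C.node (nat_lit 7) (nat_lit 8) (nat_lit 10) C.nil) C.nil))) C.nil))) (C.cons (nat_lit 1160) (C.node (nat_lit 2) (nat_lit 7) (nat_lit 10) (C.cons (nat_lit 1188) (C.node (nat_lit 1) (nat_lit 2) (nat_lit 7) (C.cons (nat_lit 142) (C.miq (nat_lit 2266608176) (nat_lit 3252081309393013251534161949)) (C.cons (nat_lit 134) (C.node (nat_lit 2) (nat_lit 3) (nat_lit 7) C.nil) C.nil))) (C.cons (nat_lit 1156) (C.node (nat_lit 4) (nat_lit 5) (nat_lit 7) (C.cons (nat_lit 432) (C.node (nat_lit 4) (nat_lit 7) (nat_lit 9) C.nil) (C.cons (nat_lit 176) (C.node (nat_lit 4) (nat_lit 7) (nat_lit 8) C.nil) C.nil))) C.nil))) C.nil))) C.nil)))) C.nil))) (C.cons (nat_lit 1552) (C.node (nat_lit 3) (nat_lit 4) (nat_lit 6) (C.cons (nat_lit 122) (C.miq (nat_lit 882533643) (nat_lit 1876310868639614578861344993)) (C.cons (nat_lit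 120) (C.miq (nat_lit 882533643) (nat_lit 1876310868639051628907923681)) (C.cons (nat_lit 90) (C.miq (nat_lit 1399065273) (nat_lit 108813672688526330529058561)) (C.cons (nat_lit 88) (C.miq (nat_lit 1399065273) (nat_lit 106395821049297072179646209)) C.nil))))) C.nil))) C.nil)))))) C.nil)))) C.nil))) C.nil))))) C.nil)))) C.nil)) C.nil))) C.nil))) (C.cons (nat_lit 3138) (C.miq (nat_lit 1804771696) (nat_lit 3099705964666461798908888211)) (C.cons (nat_lit 3136) (C.node (nat_lit 3) (nat_lit 10) (nat_lit 11) (C.cons (nat_lit 3082) (C.node (nat_lit 1) (nat_lit 2) (nat_lit 11) (C.cons (nat_lit 2086) (C.node (nat_lit 2) (nat_lit 10) (nat_lit 11) (C.cons (nat_lit 3076) (C.node (nat_lit 5) (nat_lit 10) (nat_lit 11) (C.cons (nat_lit 3104) (C.node (nat_lit 1) (nat_lit 4) (nat_lit 11) C.nil) C.nil)) C.nil)) (C.cons (nat_lit 2054) (C.node (nat_lit 1) (nat_lit 6) (nat_lit 11) (C.cons (nat_lit 2370) (C.node (nat_lit 3) (nat_lit 6) (nat_lit 11) (C.cons (nat_lit 2120) (C.node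 (nat_lit 1) (nat_lit 4) (nat_lit 11) C.nil) C.nil)) (C.cons (nat_lit 2114) (C.node (nat_lit 2) (nat_lit 5) (nat_lit 11) (C.cons (nat_lit 3108) (C.node (nat_lit 3) (nat_lit 5) (nat_lit 11) C.nil) C.nil)) C.nil))) C.nil))) (C.cons (nat_lit 3080) (C.node (nat_lit 1) (nat_lit 8) (nat_lit 9) (C.cons (nat_lit 866) (C.miq (nat_lit 431130176) (nat_lit 3099690653229369258239918417)) (C.cons (nat_lit 834) (C.miq (nat_lit 431130176) (nat_lit 3099690653220362058985177425)) (C.cons (nat_lit 802) (C.node (nat_lit 1) (nat_lit 2) (nat_lit 4) (C.cons (nat_lit 118) (C.miq (nat_lit 1636385291) (nat_lit 969607206768502368410601501)) (C.cons (nat_lit 86) (C.miq (nat_lit 1636385291) (nat_lit 969607206759495169155860509)) (C.cons (nat_lit 54) (C.miq (nat_lit 3109292050) (nat_lit 678245699772396891861811463)) (C.cons (nat_lit 22) (C.node (nat_lit 1) (nat_lit 7) (nat_lit 8) (C.cons (nat_lit 450) (C.node (nat_lit 6) (nat_lit 8) (nat_lit 11) (C.cons (nat_lit 2376) (C.miq (nat_lit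 380926000) (nat_lit 3191585765046605279607456137)) (C.cons (nat_lit 2368) (C.node (nat_lit 1) (nat_lit 6) (nat_lit 11) (C.cons (nat_lit 2122) (C.node (nat_lit 1) (nat_lit 8) (nat_lit 11) (C.cons (nat_lit 2322) (C.node (nat_lit 4) (nat_lit 5) (nat_lit 11) C.nil) C.nil)) C.nil)) C.nil))) (C.cons (nat_lit 386) (C.node (nat_lit 1) (nat_lit 2) (nat_lit 9) (C.cons (nat_lit 1542) (C.miq (nat_lit 699834736) (nat_lit 3191584326507939553463043219)) (C.cons (nat_lit 582) (C.node (nat_lit 1) (nat_lit 9) (nat_lit 10) (C.cons (nat_lit 1538) (C.node (nat_lit 1) (nat_lit 6) (nat_lit 7) (C.cons (nat_lit 202) (C.node (nat_lit 3) (nat_lit 6) (nat_lit 11) (C.cons (nat_lit 2376) (C.miq (nat_lit 448163971) (nat_lit 3791195096883403676061270409)) (C.cons (nat_lit 2120) (C.node (nat_lit 1) (nat_lit 6) (nat_lit 11) (C.cons (nat_lit 2370) (C.node (nat_lit 4) (nat_lit 8) (nat_lit 11) (C.cons (nat_lit 2352) (C.miq (nat_lit 2035818571) (nat_lit 969603443781049924191258653)) C.nil))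 C.nil)) C.nil))) (C.cons (nat_lit 194) (C.node (nat_lit 1) (nat_lit 3) (nat_lit 7) (C.cons (nat_lit 174) (C.miq (nat_lit 2836597621) (nat_lit 632287850522046498062862561))
  (C.cons (nat_lit 170) (C.miq (nat_lit 2836597621) (nat_lit 632287850522046498062600417)) (C.cons (nat_lit 142) (C.miq (nat_lit 2266608176) (nat_lit 3252081309393013251534161949)) (C.cons (nat_lit 138) (C.node (nat_lit 1) (nat_lit 2) (nat_lit 7) (C.cons (nat_lit 166) (C.node (nat_lit 1) (nat_lit 2) (nat_lit 3) (C.cons (nat_lit 1038) (C.node (nat_lit 1) (nat_lit 2) (nat_lit 11) C.nil) C.nil)) (C.cons (nat_lit 134) (C.node (nat_lit 1) (nat_lit 5) (nat_lit 7) C.nil) C.nil))) C.nil))))) C.nil))) C.nil)) (C.cons (nat_lit 518) (C.node (nat_lit 1) (nat_lit 6) (nat_lit 9) (C.cons (nat_lit 1602) (C.node (nat_lit 1) (nat_lit 2) (nat_lit 6) (C.cons (nat_lit 206) (C.miq (nat_lit 2836532086) (nat_lit 626243737932807416058874081)) (C.cons (nat_lit 198) (C.miq (nat_lit 2836532086) (nat_lit 626243737932807416058349793))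 (C.cons (nat_lit 110) (C.miq (nat_lit 3105032802) (nat_lit 632306518627044419200484421)) (C.cons (nat_lit 102) (C.miq (nat_lit 1453920776) (nat_lit 1936713957340098195215155463)) (C.cons (nat_lit 78) (C.miq (nat_lit 3105032802) (nat_lit 632306518627044419198387269)) (C.cons (nat_lit 70) (C.node (nat_lit 1) (nat_lit 6) (nat_lit 7) (C.cons (nat_lit 202) (C.node (nat_lit 1) (nat_lit 8) (nat_lit 10) (C.cons (nat_lit 1290) (C.miq (nat_lit 3122006071) (nat_lit 1936741093553066405756797321)) (C.cons (nat_lit 1282) (C.node (nat_lit 1) (nat_lit 2) (nat_lit 7) (C.cons (nat_lit 166) (C.node (nat_lit 1) (nat_lit 5) (nat_lit 10) (C.cons (nat_lit 3106) (C.miq (nat_lit 2703865200) (nat_lit 626294429378627021555697889)) C.nil)) C.nil)) C.nil))) (C.cons (nat_lit 194) (C.node (nat_lit 6) (nat_lit 7) (nat_lit 8) (C.cons (nat_lit 1472) (C.miq (nat_lit 828836264) (nat_lit 234538858722877321200537345)) (C.cons (nat_lit 960) (C.miq (nat_lit 2041808448) (nat_lit 3104528754611016004991254865))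 (C.cons (nat_lit 448) (C.node (nat_lit 1) (nat_lit 3) (nat_lit 7) (C.cons (nat_lit 174) (C.miq (nat_lit 2836597621) (nat_lit 632287850522046498062862561)) (C.cons (nat_lit 170) (C.miq (nat_lit 2836597621) (nat_lit 632287850522046498062600417)) (C.cons (nat_lit 142) (C.miq (nat_lit 2266608176) (nat_lit 3252081309393013251534161949)) (C.cons (nat_lit 138) (C.node (nat_lit 1) (nat_lit 2) (nat_lit 7) C.nil) C.nil))))) C.nil)))) C.nil))) C.nil))))))) (C.cons (nat_lit 578) (C.node (nat_lit 1) (nat_lit 9) (nat_lit 10) (C.cons (nat_lit 1538) (C.node (nat_lit 2) (nat_lit 4) (nat_lit 7) (C.cons (nat_lit 212) (C.node (nat_lit 2) (nat_lit 4) (nat_lit 9) (C.cons (nat_lit 1556) (C.miq (nat_lit 2456527984) (nat_lit 2558157888686518426509837459)) (C.cons (nat_lit 788) (C.miq (nat_lit 1461980041) (nat_lit 256302623021529820751466241)) (C.cons (nat_lit 532) (C.node (nat_lit 4) (nat_lit 8) (nat_lit 9) (C.cons (nat_lit 912) (C.miq (nat_lit 2823162226) (nat_lit 407428164582551898985595525))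 (C.cons (nat_lit 792) (C.miq (nat_lit 929333433) (nat_lit 256306883690237191483559681)) C.nil))) C.nil)))) (C.cons (nat_lit 180) (C.miq (nat_lit 1972904971) (nat_lit 969603443650164060118386717)) (C.cons (nat_lit 148) (C.node (nat_lit 2) (nat_lit 4) (nat_lit 6) (C.cons (nat_lit 116) (C.node (nat_lit 2) (nat_lit 4) (nat_lit 9) (C.cons (nat_lit 1556) (C.miq (nat_lit 3108309542) (nat_lit 678249315334238577343333445)) (C.cons (nat_lit 788) (C.miq (nat_lit 1917171856) (nat_lit 140277325210252953814896385)) (C.cons (nat_lit 532) (C.node (nat_lit 4) (nat_lit 9) (nat_lit 10) (C.cons (nat_lit 1560) (C.miq (nat_lit 895787193) (nat_lit 140264172295832583996968705)) C.nil)) C.nil)))) (C.cons (nat_lit 84) (C.node (nat_lit 4) (nat_lit 6) (nat_lit 7) (C.cons (nat_lit 216) (C.node (nat_lit 3) (nat_lit 4) (nat_lit 9) (C.cons (nat_lit 1560) (C.miq (nat_lit 1447234458) (nat_lit 261147623459002363288227585)) (C.cons (nat_lit 792) (C.miq (nat_lit 968328288) (nat_lit 3252017704556712968230863185))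 (C.cons (nat_lit 536) (C.miq (nat_lit 2302872423) (nat_lit 647991489965018929769744609)) C.nil)))) (C.cons (nat_lit 208) (C.node (nat_lit 2) (nat_lit 4) (nat_lit 9) (C.cons (nat_lit 1556)
  (C.node (nat_lit 2) (nat_lit 4) (nat_lit 5) (C.cons (nat_lit 308) (C.miq (nat_lit 878248577) (nat_lit 678217033035582366636179719)) (C.cons (nat_lit 52) (C.node (nat_lit 2) (nat_lit 4) (nat_lit 8) (C.cons (nat_lit 276) (C.node (nat_lit 5) (nat_lit 9) (nat_lit 10) (C.cons (nat_lit 1696) (C.miq (nat_lit 1496021568) (nat_lit 3099727731418576989363963027)) (C.cons (nat_lit 1632) (C.miq (nat_lit 882510693) (nat_lit 1881108221687436361963931873)) (C.cons (nat_lit 1568) (C.node (nat_lit 5) (nat_lit 7) (nat_lit 9) (C.cons (nat_lit 680) (C.node (nat_lit 2) (nat_lit 5) (nat_lit 9) C.nil) C.nil)) C.nil)))) C.nil)) C.nil))) (C.cons (nat_lit 788) (C.miq (nat_lit 1461980041) (nat_lit 178931370566193553570270977)) (C.cons (nat_lit 532) (C.node (nat_lit 4) (nat_lit 9) (nat_lit 10)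 (C.cons (nat_lit 1560) (C.node (nat_lit 2) (nat_lit 9) (nat_lit 10) (C.cons (nat_lit 1572) (C.miq (nat_lit 1772467248) (nat_lit 1900473318626577243183843357)) C.nil)) C.nil)) C.nil)))) C.nil))) C.nil))) C.nil)))) C.nil)) C.nil))) C.nil)))) C.nil))) C.nil))))) (C.cons (nat_lit 770) (C.node (nat_lit 1) (nat_lit 2) (nat_lit 4) (C.cons (nat_lit 118) (C.miq (nat_lit 1636385291) (nat_lit 930921580540834234820003869)) (C.cons (nat_lit 86) (C.miq (nat_lit 1636385291) (nat_lit 930921580531827035565262877)) (C.cons (nat_lit 54) (C.node (nat_lit 1) (nat_lit 2) (nat_lit 11) (C.cons (nat_lit 3078) (C.miq (nat_lit 1504854177) (nat_lit 3099686797774013143368205459)) (C.cons (nat_lit 2054) (C.node (nat_lit 1) (nat_lit 4) (nat_lit 11) (C.cons (nat_lit 2322) (C.node (nat_lit 4) (nat_lit 5) (nat_lit 11) C.nil) C.nil)) C.nil))) (C.cons (nat_lit 22) (C.node (nat_lit 1) (nat_lit 3) (nat_lit 7) (C.cons (nat_lit 206) (C.miq (nat_lit 2266608176) (nat_lit 3252081309393013526412068893))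 (C.cons (nat_lit 202) (C.node (nat_lit 3) (nat_lit 6) (nat_lit 11) (C.cons (nat_lit 2376) (C.miq (nat_lit 448163971) (nat_lit 3791195096883403676061270409)) (C.cons (nat_lit 2120) (C.node (nat_lit 1) (nat_lit 6) (nat_lit 11) (C.cons (nat_lit 2370) (C.node (nat_lit 1) (nat_lit 3) (nat_lit 11) (C.cons (nat_lit 2090) (C.node (nat_lit 1) (nat_lit 4) (nat_lit 11) C.nil) C.nil)) C.nil)) C.nil))) (C.cons (nat_lit 174) (C.miq (nat_lit 2836597621) (nat_lit 632287850522046498062862561)) (C.cons (nat_lit 170) (C.miq (nat_lit 2836597621) (nat_lit 632287850522046498062600417)) (C.cons (nat_lit 142) (C.miq (nat_lit 2266608176) (nat_lit 3252081309393013251534161949)) (C.cons (nat_lit 138) (C.node (nat_lit 1) (nat_lit 2) (nat_lit 7) (C.cons (nat_lit 198) (C.miq (nat_lit 380334601) (nat_lit 3791240992108772110612103813)) (C.cons (nat_lit 166) (C.node (nat_lit 2) (nat_lit 5) (nat_lit 11) (C.cons (nat_lit 3108) (C.miq (nat_lit 891751096) (nat_lit 200688935926233609969864449))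 (C.cons (nat_lit 2084) (C.node (nat_lit 5) (nat_lit 10) (nat_lit 11) (C.cons (nat_lit 3106) (C.miq (nat_lit 2605845015) (nat_lit 2519413307307973468473394323)) C.nil)) C.nil))) (C.cons (nat_lit 134) (C.node (nat_lit 1) (nat_lit 5) (nat_lit 7) (C.cons (nat_lit 418) (C.node (nat_lit 1) (nat_lit 6) (nat_lit 7) (C.cons (nat_lit 194) (C.node (nat_lit 4) (nat_lit 5) (nat_lit 7) (C.cons (nat_lit 184) (C.miq (nat_lit 1411478280) (nat_lit 26604078822344968815182217)) (C.cons (nat_lit 180) (C.miq (nat_lit 2557807396) (nat_lit 505341342303496194183399453)) (C.cons (nat_lit 176) (C.node (nat_lit 2) (nat_lit 4) (nat_lit 7) (C.cons (nat_lit 212) (C.node (nat_lit 4) (nat_lit 7) (nat_lit 8) (C.cons (nat_lit 912) (C.miq (nat_lit 2823162226) (nat_lit 407428164582551898985595525)) (C.cons (nat_lit 400) (C.node (nat_lit 7) (nat_lit 8) (nat_lit 9) (C.cons (nat_lit 960) (C.miq (nat_lit 879168408) (nat_lit 256299523913357218296106753)) (C.cons (nat_lit 896) (C.node (nat_lit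 6) (nat_lit 7) (nat_lit 8) (C.cons (nat_lit 1472) (C.miq (nat_lit 2251007808) (nat_lit 2558157888662874528453297299)) C.nil)) C.nil))) C.nil))) (C.cons (nat_lit 148) (C.node (nat_lit 2) (nat_lit 4) (nat_lit 6) (C.cons (nat_lit 116) (C.node (nat_lit 2) (nat_lit 4) (nat_lit 9) (C.cons (nat_lit 1556)
  (C.miq (nat_lit 3108309542) (nat_lit 678249315334238577343333445)) (C.cons (nat_lit 788) (C.miq (nat_lit 1917171856) (nat_lit 140277325210252953814896385)) (C.cons (nat_lit 532) (C.node (nat_lit 4) (nat_lit 9) (nat_lit 10) (C.cons (nat_lit 1560) (C.miq (nat_lit 895787193) (nat_lit 140264172295832583996968705)) (C.cons (nat_lit 1552) (C.node (nat_lit 1) (nat_lit 4) (nat_lit 6) (C.cons (nat_lit 90) (C.node (nat_lit 4) (nat_lit 6) (nat_lit 7) (C.cons (nat_lit 208) (C.node (nat_lit 1) (nat_lit 4) (nat_lit 5) (C.cons (nat_lit 2098) (C.miq (nat_lit 2202103989) (nat_lit 108811034614968022947989729)) C.nil)) C.nil)) (C.cons (nat_lit 82) (C.node (nat_lit 2) (nat_lit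 4) (nat_lit 8) (C.cons (nat_lit 1300) (C.node (nat_lit 4) (nat_lit 5) (nat_lit 8) (C.cons (nat_lit 2352) (C.miq (nat_lit 2458126261) (nat_lit 1571613914304005100849334497)) (C.cons (nat_lit 312) (C.miq (nat_lit 3091532326) (nat_lit 377226786250194813329867845)) (C.cons (nat_lit 304) (C.miq (nat_lit 3091532326) (nat_lit 367555379693277779932218437)) C.nil)))) (C.cons (nat_lit 276) (C.node (nat_lit 2) (nat_lit 4) (nat_lit 10) (C.cons (nat_lit 1044) (C.node (nat_lit 4) (nat_lit 5) (nat_lit 10) C.nil) C.nil)) C.nil))) C.nil))) C.nil))) C.nil)))) (C.cons (nat_lit 84) (C.node (nat_lit 2) (nat_lit 6) (nat_lit 7) (C.cons (nat_lit 204) (C.node (nat_lit 4) (nat_lit 6) (nat_lit 7) (C.cons (nat_lit 208) (C.node (nat_lit 7) (nat_lit 8) (nat_lit 10) (C.cons (nat_lit 1472) (C.miq (nat_lit 2787870512) (nat_lit 2558157888662874494093558153)) C.nil)) C.nil)) (C.cons (nat_lit 196) (C.node (nat_lit 4) (nat_lit 6) (nat_lit 7) (C.cons (nat_lit 216) (C.node (nat_lit 4) (nat_lit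 7) (nat_lit 8) (C.cons (nat_lit 912) (C.miq (nat_lit 949252278) (nat_lit 1102544332095897891584870625)) C.nil)) (C.cons (nat_lit 208) (C.node (nat_lit 3) (nat_lit 4) (nat_lit 7) C.nil) C.nil))) C.nil))) C.nil))) C.nil))) C.nil)))) C.nil)) (C.cons (nat_lit 162) (C.node (nat_lit 1) (nat_lit 6) (nat_lit 7) (C.cons (nat_lit 450) (C.node (nat_lit 6) (nat_lit 8) (nat_lit 11) (C.cons (nat_lit 2376) (C.miq (nat_lit 380926000) (nat_lit 3191585765046605279607456137)) (C.cons (nat_lit 2368) (C.node (nat_lit 1) (nat_lit 6) (nat_lit 11) (C.cons (nat_lit 2122) (C.node (nat_lit 3) (nat_lit 5) (nat_lit 11) (C.cons (nat_lit 2344) (C.node (nat_lit 1) (nat_lit 8) (nat_lit 11) C.nil) C.nil)) C.nil)) C.nil))) (C.cons (nat_lit 194) (C.node (nat_lit 1) (nat_lit 7) (nat_lit 8) (C.cons (nat_lit 386) (C.node (nat_lit 6) (nat_lit 7) (nat_lit 8) (C.cons (nat_lit 1472) (C.node (nat_lit 2) (nat_lit 6) (nat_lit 7) (C.cons (nat_lit 212) (C.miq (nat_lit 2251007808) (nat_lit 2558157888662874528453297299))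 (C.cons (nat_lit 204) (C.miq (nat_lit 2787870512) (nat_lit 2558157888662874494093558153)) (C.cons (nat_lit 196) (C.node (nat_lit 4) (nat_lit 6) (nat_lit 7) (C.cons (nat_lit 216) (C.miq (nat_lit 2524492848) (nat_lit 1779609661159816129810073629)) (C.cons (nat_lit 208) (C.node (nat_lit 2) (nat_lit 4) (nat_lit 7) C.nil) C.nil))) C.nil)))) (C.cons (nat_lit 960) (C.miq (nat_lit 2041808448) (nat_lit 3104528754611016004991254865)) (C.cons (nat_lit 448) (C.node (nat_lit 7) (nat_lit 8) (nat_lit 10) (C.cons (nat_lit 1440) (C.node (nat_lit 2) (nat_lit 7) (nat_lit 10) (C.cons (nat_lit 1164) (C.miq (nat_lit 1395105976) (nat_lit 1407216217642674272115887873)) (C.cons (nat_lit 1156) (C.node (nat_lit 4) (nat_lit 7) (nat_lit 8) C.nil) C.nil))) (C.cons (nat_lit 1408) (C.node (nat_lit 4) (nat_lit 6) (nat_lit 7) (C.cons (nat_lit 216) (C.miq (nat_lit 2524492848) (nat_lit 541669621874435854910949405)) (C.cons (nat_lit 212) (C.node (nat_lit 2) (nat_lit 3) (nat_lit 7) C.nil)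 (C.cons (nat_lit 208) (C.node (nat_lit 2) (nat_lit 4) (nat_lit 7) C.nil) C.nil)))) C.nil))) C.nil)))) C.nil)) C.nil))) C.nil))) C.nil)))) C.nil))))))) C.nil))))) C.nil))))) C.nil))) C.nil))))) C.nil)))) List.nil))

theorem ok12_286 : okL par12 (nat_lit 288) c12_286 (nat_lit 286) = true := by decide +kernel

noncomputable def c12_288 : List C :=
  (List.cons (C.node (nat_lit 3) (nat_lit 9) (nat_lit 11) (C.cons (nat_lit 2632) (C.node (nat_lit 6) (nat_lit 10) (nat_lit 11) (C.cons (nat_lit 3138) (C.miq (nat_lit 649660951) (nat_lit 3181904655683297157815862419)) (C.cons (nat_lit 3136) (C.node (nat_lit 1) (nat_lit 3) (nat_lit 7) (C.cons (nat_lit 206) (C.miq (nat_lit 2838563687) (nat_lit 632289805876918062169327841)) (C.cons (nat_lit 202) (C.miq (nat_lit 2838563687) (nat_lit 632289805876918062169065697)) (C.cons (nat_lit 174) (C.miq (nat_lit 2836597621) (nat_lit 632287850522046498062862561)) (C.cons (nat_lit 170) (C.miq (nat_lit 2836597621) (nat_lit 632287850522046498062600417))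 (C.cons (nat_lit 142) (C.miq (nat_lit 2266608176) (nat_lit 3252081309393013251534161949)) (C.cons (nat_lit 138) (C.node (nat_lit 2) (nat_lit 6) (nat_lit 11) (C.cons (nat_lit 2118) (C.node (nat_lit 6) (nat_lit 8) (nat_lit 11) (C.cons (nat_lit 2368) (C.node (nat_lit 1) (nat_lit 6) (nat_lit 7) (C.cons (nat_lit 450) (C.miq (nat_lit 840436583) (nat_lit 317954740713701064199768289)) (C.cons (nat_lit 194) (C.node (nat_lit 1) (nat_lit 2) (nat_lit 7) (C.cons (nat_lit 166) (C.node (nat_lit 1) (nat_lit 7) (nat_lit 8) (C.cons (nat_lit 386) (C.node (nat_lit 2) (nat_lit 10) (nat_lit 11) (C.cons (nat_lit 3108) (C.miq (nat_lit 891751096) (nat_lit 200688935926233609969864449)) (C.cons (nat_lit 3076) (C.node (nat_lit 5) (nat_lit 10) (nat_lit 11) (C.cons (nat_lit 3106) (C.miq (nat_lit 2686826865) (nat_lit 44787551993982377141865090)) (C.cons (nat_lit 3104) (C.node (nat_lit 2) (nat_lit 5) (nat_lit 11) (C.cons (nat_lit 2596) (C.miq (nat_lit 448098450) (nat_lit 3752508806572948888941232773))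 (C.cons (nat_lit 2084) (C.node (nat_lit 2) (nat_lit 9) (nat_lit 11) C.nil) C.nil))) C.nil))) C.nil))) C.nil)) (C.cons (nat_lit 134) (C.node (nat_lit 1) (nat_lit 5) (nat_lit 7) (C.cons (nat_lit 418) (C.node (nat_lit 1) (nat_lit 8) (nat_lit 9) (C.cons (nat_lit 834) (C.miq (nat_lit 907196800) (nat_lit 2560543200572071407488798465)) (C.cons (nat_lit 786) (C.miq (nat_lit 1729366936) (nat_lit 1415658351961287779276689153)) (C.cons (nat_lit 770) (C.node (nat_lit 2) (nat_lit 9) (nat_lit 11) (C.cons (nat_lit 2596) (C.node (nat_lit 2) (nat_lit 10) (nat_lit 11) (C.cons (nat_lit 3076) (C.node (nat_lit 5) (nat_lit 10) (nat_lit 11) (C.cons (nat_lit 3106) (C.miq (nat_lit 655724715) (nat_lit 505378880528086734611812097)) (C.cons (nat_lit 3104) (C.node (nat_lit 1) (nat_lit 10) (nat_lit 11) (C.cons (nat_lit 3074) (C.node (nat_lit 3) (nat_lit 10) (nat_lit 11) C.nil) C.nil)) C.nil))) C.nil)) (C.cons (nat_lit 2564) (C.node (nat_lit 5) (nat_lit 9) (nat_lit 11) (C.cons (nat_lit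 2592) (C.node (nat_lit 2) (nat_lit 5) (nat_lit 11) (C.cons (nat_lit 3108) (C.node (nat_lit 2) (nat_lit 5) (nat_lit 7) (C.cons (nat_lit 180) (C.miq (nat_lit 891751096) (nat_lit 217613897400838418415750913)) (C.cons (nat_lit 172) (C.miq (nat_lit 2776150576) (nat_lit 505401847417727079791790109)) (C.cons (nat_lit 164) (C.miq (nat_lit 891751096) (nat_lit 198271084287004351620452097)) C.nil)))) (C.cons (nat_lit 2084) (C.node (nat_lit 2) (nat_lit 10) (nat_lit 11) C.nil) C.nil))) C.nil)) C.nil))) C.nil)))) (C.cons (nat_lit 162) (C.node (nat_lit 1) (nat_lit 7) (nat_lit 8) (C.cons (nat_lit 386) (C.node (nat_lit 2) (nat_lit 9) (nat_lit 11) (C.cons (nat_lit 2596) (C.node (nat_lit 2) (nat_lit 10) (nat_lit 11) (C.cons (nat_lit 3076) (C.node (nat_lit 5) (nat_lit 10) (nat_lit 11) (C.cons (nat_lit 3106) (C.miq (nat_lit 655724715) (nat_lit 195893870706741665887031041)) (C.cons (nat_lit 3104) (C.node (nat_lit 1) (nat_lit 10) (nat_lit 11) (C.cons (nat_lit 3074) (C.node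 (nat_lit 3) (nat_lit 10) (nat_lit 11) C.nil) C.nil)) C.nil))) C.nil)) (C.cons (nat_lit 2564) (C.node (nat_lit 5) (nat_lit 9) (nat_lit 11) (C.cons (nat_lit 2592) (C.node (nat_lit 2) (nat_lit 5) (nat_lit 11) (C.cons (nat_lit 3108) (C.node (nat_lit 1) (nat_lit 10) (nat_lit 11) (C.cons (nat_lit 3074) (C.node (nat_lit 3) (nat_lit 10) (nat_lit 11) C.nil) C.nil)) (C.cons (nat_lit 2084)
  (C.node (nat_lit 2) (nat_lit 10) (nat_lit 11) C.nil) C.nil))) C.nil)) C.nil))) C.nil)) C.nil))) C.nil))) C.nil))) C.nil)) (C.cons (nat_lit 2116) (C.node (nat_lit 1) (nat_lit 6) (nat_lit 11) (C.cons (nat_lit 2370) (C.node (nat_lit 1) (nat_lit 6) (nat_lit 7) (C.cons (nat_lit 198) (C.miq (nat_lit 2551319399) (nat_lit 317959389789730580239616225)) (C.cons (nat_lit 194) (C.node (nat_lit 1) (nat_lit 2) (nat_lit 7) (C.cons (nat_lit 166) (C.node (nat_lit 1) (nat_lit 7) (nat_lit 8) (C.cons (nat_lit 386) (C.node (nat_lit 5) (nat_lit 10) (nat_lit 11) (C.cons (nat_lit 3108) (C.miq (nat_lit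 891751096) (nat_lit 200688935926233609969864449)) (C.cons (nat_lit 3106) (C.miq (nat_lit 2686826865) (nat_lit 44787551993982377141865090)) (C.cons (nat_lit 3104) (C.node (nat_lit 2) (nat_lit 5) (nat_lit 11) (C.cons (nat_lit 2596) (C.miq (nat_lit 448098450) (nat_lit 3752508806572948888941232773)) (C.cons (nat_lit 2084) (C.node (nat_lit 2) (nat_lit 9) (nat_lit 11) (C.cons (nat_lit 2564) (C.node (nat_lit 5) (nat_lit 9) (nat_lit 11) C.nil) C.nil)) C.nil))) C.nil)))) C.nil)) (C.cons (nat_lit 134) (C.node (nat_lit 1) (nat_lit 4) (nat_lit 11) (C.cons (nat_lit 2098) (C.node (nat_lit 4) (nat_lit 8) (nat_lit 11) (C.cons (nat_lit 2320) (C.node (nat_lit 2) (nat_lit 9) (nat_lit 11) (C.cons (nat_lit 2596) (C.miq (nat_lit 1500623364) (nat_lit 3252049156763130932470417437)) (C.cons (nat_lit 2564) (C.node (nat_lit 5) (nat_lit 9) (nat_lit 11) (C.cons (nat_lit 2592) (C.node (nat_lit 1) (nat_lit 2) (nat_lit 11) C.nil) C.nil)) C.nil))) C.nil)) (C.cons (nat_lit 2066) (C.node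 (nat_lit 1) (nat_lit 5) (nat_lit 7) (C.cons (nat_lit 418) (C.node (nat_lit 1) (nat_lit 8) (nat_lit 9) (C.cons (nat_lit 786) (C.miq (nat_lit 1729366936) (nat_lit 1415658351961287779276689153)) (C.cons (nat_lit 770) (C.node (nat_lit 1) (nat_lit 4) (nat_lit 8) (C.cons (nat_lit 282) (C.miq (nat_lit 1363900464) (nat_lit 2497682672890761168335733129)) (C.cons (nat_lit 274) (C.node (nat_lit 3) (nat_lit 8) (nat_lit 11) (C.cons (nat_lit 2344) (C.miq (nat_lit 940881264) (nat_lit 331283989121628629391050977)) (C.cons (nat_lit 2312) (C.node (nat_lit 4) (nat_lit 5) (nat_lit 11) (C.cons (nat_lit 2352) (C.miq (nat_lit 2508653746) (nat_lit 505342890906760101545379869)) (C.cons (nat_lit 2096) (C.node (nat_lit 4) (nat_lit 8) (nat_lit 11) C.nil) C.nil))) C.nil))) C.nil))) C.nil))) (C.cons (nat_lit 162) (C.node (nat_lit 1) (nat_lit 7) (nat_lit 8) (C.cons (nat_lit 386) (C.node (nat_lit 2) (nat_lit 9) (nat_lit 11) (C.cons (nat_lit 2596) (C.node (nat_lit 3) (nat_lit 8) (nat_lit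 11) (C.cons (nat_lit 2344) (C.miq (nat_lit 1393145970) (nat_lit 632316092065845441741523332)) (C.cons (nat_lit 2312) (C.node (nat_lit 1) (nat_lit 2) (nat_lit 11) (C.cons (nat_lit 2054) (C.node (nat_lit 2) (nat_lit 10) (nat_lit 11) C.nil) C.nil)) C.nil))) (C.cons (nat_lit 2564) (C.node (nat_lit 5) (nat_lit 9) (nat_lit 11) (C.cons (nat_lit 2592) (C.node (nat_lit 3) (nat_lit 8) (nat_lit 11) (C.cons (nat_lit 2344) (C.node (nat_lit 4) (nat_lit 5) (nat_lit 11) C.nil) C.nil)) C.nil)) C.nil))) C.nil)) C.nil))) C.nil))) C.nil))) C.nil))) (C.cons (nat_lit 2114) (C.node (nat_lit 6) (nat_lit 8) (nat_lit 11) (C.cons (nat_lit 2368) (C.node (nat_lit 2) (nat_lit 9) (nat_lit 11) (C.cons (nat_lit 2596) (C.node (nat_lit 5) (nat_lit 10) (nat_lit 11) (C.cons (nat_lit 3106) (C.miq (nat_lit 1376434545) (nat_lit 1321413217156594439692683906)) (C.cons (nat_lit 3104) (C.node (nat_lit 3) (nat_lit 8) (nat_lit 11) (C.cons (nat_lit 2344) (C.miq (nat_lit 1393145970) (nat_lit 632316092065845441741523332))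 (C.cons (nat_lit 2314) (C.miq (nat_lit 2274472451) (nat_lit 3252053141214814857417394205)) C.nil))) C.nil))) (C.cons (nat_lit 2564) (C.node (nat_lit 5) (nat_lit 9) (nat_lit 11) C.nil) C.nil))) C.nil)) C.nil))) C.nil))) C.nil))))))) C.nil))) (C.cons (nat_lit 2600) (C.miq (nat_lit 2710767541) (nat_lit 632287849770508310404401377)) (C.cons (nat_lit 2568) (C.node (nat_lit 5) (nat_lit 9) (nat_lit 11) (C.cons (nat_lit 2596) (C.node (nat_lit 6) (nat_lit 9) (nat_lit 11)
  (C.cons (nat_lit 2624) (C.node (nat_lit 5) (nat_lit 10) (nat_lit 11) (C.cons (nat_lit 3106) (C.miq (nat_lit 1376434545) (nat_lit 1321413217156594439692683906)) (C.cons (nat_lit 3104) (C.node (nat_lit 4) (nat_lit 5) (nat_lit 11) (C.cons (nat_lit 2354) (C.miq (nat_lit 1500623364) (nat_lit 3252053879129613802115631133)) (C.cons (nat_lit 2352) (C.miq (nat_lit 2215097746) (nat_lit 1415697071699325874791057956)) (C.cons (nat_lit 2098) (C.miq (nat_lit 1500623364) (nat_lit 3252049156763130932470417437))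 (C.cons (nat_lit 2096) (C.node (nat_lit 1) (nat_lit 4) (nat_lit 11) (C.cons (nat_lit 2322) (C.node (nat_lit 2) (nat_lit 10) (nat_lit 11) (C.cons (nat_lit 3078) (C.miq (nat_lit 1656228372) (nat_lit 2944949513441654879309399187)) (C.cons (nat_lit 3076) (C.node (nat_lit 5) (nat_lit 8) (nat_lit 11) (C.cons (nat_lit 2344) (C.miq (nat_lit 1393145970) (nat_lit 632316092065845441741523332)) C.nil)) C.nil))) (C.cons (nat_lit 2066) (C.node (nat_lit 4) (nat_lit 8) (nat_lit 11) C.nil) C.nil))) C.nil))))) C.nil))) C.nil)) (C.cons (nat_lit 2592) (C.node (nat_lit 2) (nat_lit 9) (nat_lit 11) (C.cons (nat_lit 2628) (C.node (nat_lit 6) (nat_lit 8) (nat_lit 11) (C.cons (nat_lit 2378) (C.miq (nat_lit 2274472451) (nat_lit 3252054321806435574828697629)) (C.cons (nat_lit 2376) (C.miq (nat_lit 1661581426) (nat_lit 632316682370662999701916036)) (C.cons (nat_lit 2370) (C.miq (nat_lit 2713061266) (nat_lit 2865174355107562459955987077)) (C.cons (nat_lit 2368) (C.node (nat_lit 2)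 (nat_lit 4) (nat_lit 7) (C.cons (nat_lit 212) (C.miq (nat_lit 2875459879) (nat_lit 2572615746358397870393262725)) (C.cons (nat_lit 180) (C.node (nat_lit 4) (nat_lit 7) (nat_lit 8) (C.cons (nat_lit 912) (C.miq (nat_lit 613971211) (nat_lit 1102585283807773269336066273)) (C.cons (nat_lit 400) (C.node (nat_lit 2) (nat_lit 4) (nat_lit 8) (C.cons (nat_lit 1300) (C.miq (nat_lit 2552499061) (nat_lit 1571613915203599126274246881)) (C.cons (nat_lit 788) (C.node (nat_lit 2) (nat_lit 4) (nat_lit 10) (C.cons (nat_lit 1044) (C.node (nat_lit 7) (nat_lit 8) (nat_lit 9) (C.cons (nat_lit 960) (C.miq (nat_lit 848825191) (nat_lit 952640796011383571387255009)) (C.cons (nat_lit 928) (C.node (nat_lit 5) (nat_lit 7) (nat_lit 10) (C.cons (nat_lit 1184) (C.node (nat_lit 1) (nat_lit 5) (nat_lit 7) (C.cons (nat_lit 170) (C.miq (nat_lit 2836597621) (nat_lit 632287850522046498062600417)) (C.cons (nat_lit 162) (C.node (nat_lit 3) (nat_lit 5) (nat_lit 7) (C.cons (nat_lit 168) (C.node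 (nat_lit 2) (nat_lit 3) (nat_lit 9) (C.cons (nat_lit 1548) (C.miq (nat_lit 422214496) (nat_lit 1871438770657935250927454433)) (C.cons (nat_lit 556) (C.miq (nat_lit 391709731) (nat_lit 1121892808579134395081558045)) (C.cons (nat_lit 524) (C.node (nat_lit 2) (nat_lit 10) (nat_lit 11) (C.cons (nat_lit 3110) (C.miq (nat_lit 891751096) (nat_lit 217613897400838427005685505)) (C.cons (nat_lit 3108) (C.miq (nat_lit 891751096) (nat_lit 217613897400838418415750913)) (C.cons (nat_lit 3078) (C.miq (nat_lit 2460071431) (nat_lit 3721123295255107811711060193)) (C.cons (nat_lit 3076) (C.node (nat_lit 5) (nat_lit 10) (nat_lit 11) (C.cons (nat_lit 3106) (C.miq (nat_lit 1780162681) (nat_lit 3754972074074121104466772613)) (C.cons (nat_lit 3104) (C.node (nat_lit 3) (nat_lit 8) (nat_lit 11) (C.cons (nat_lit 2346) (C.miq (nat_lit 896710800) (nat_lit 217644962078418627320942337)) (C.cons (nat_lit 2344) (C.miq (nat_lit 896710800) (nat_lit 217644962077855677367521025)) (C.cons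 (nat_lit 2314) (C.miq (nat_lit 410598176) (nat_lit 1121892808900869982913890333)) C.nil)))) C.nil))) C.nil))))) C.nil)))) C.nil)) C.nil))) C.nil)) (C.cons (nat_lit 896) (C.miq (nat_lit 1468599076) (nat_lit 1083207883637936176250488861)) C.nil)))) C.nil)) (C.cons (nat_lit 276) (C.miq (nat_lit 2552499061) (nat_lit 333673875918218851375122657)) C.nil)))) C.nil))) (C.cons (nat_lit 148) (C.node (nat_lit 2) (nat_lit 4) (nat_lit 9) (C.cons (nat_lit 1556) (C.miq (nat_lit 1648867744) (nat_lit 178962951491967581508800257)) (C.cons (nat_lit 788)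
  (C.miq (nat_lit 1461980041) (nat_lit 178931370566193553570270977)) (C.cons (nat_lit 534) (C.miq (nat_lit 2710702006) (nat_lit 645586550295103295195449569)) (C.cons (nat_lit 532) (C.node (nat_lit 1) (nat_lit 4) (nat_lit 9) (C.cons (nat_lit 786) (C.miq (nat_lit 1729366936) (nat_lit 1415658351961287779276689153)) (C.cons (nat_lit 594) (C.node (nat_lit 1) (nat_lit 2) (nat_lit 4) (C.cons (nat_lit 54) (C.node (nat_lit 2) (nat_lit 4) (nat_lit 6) (C.cons (nat_lit 84) (C.node (nat_lit 1) (nat_lit 2) (nat_lit 9) (C.cons (nat_lit 1542) (C.node (nat_lit 1) (nat_lit 2) (nat_lit 11) (C.cons (nat_lit 2054) (C.node (nat_lit 1) (nat_lit 5) (nat_lit 9) (C.cons (nat_lit 802) (C.miq (nat_lit 3109292050) (nat_lit 678245699772396891861811463)) (C.cons (nat_lit 546) (C.node (nat_lit 1) (nat_lit 8) (nat_lit 9) (C.cons (nat_lit 770) (C.node (nat_lit 4) (nat_lit 5) (nat_lit 11) (C.cons (nat_lit 2352) (C.miq (nat_lit 2224207111) (nat_lit 643193472965577832153811169)) (C.cons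 (nat_lit 2096) (C.node (nat_lit 1) (nat_lit 4) (nat_lit 11) (C.cons (nat_lit 2322) (C.node (nat_lit 3) (nat_lit 6) (nat_lit 11) (C.cons (nat_lit 3144) (C.miq (nat_lit 443257351) (nat_lit 3800912399043991512606114437)) (C.cons (nat_lit 2122) (C.miq (nat_lit 2796626041) (nat_lit 2565369034409266681036800645)) C.nil))) C.nil)) C.nil))) C.nil)) C.nil))) C.nil)) (C.cons (nat_lit 518) (C.miq (nat_lit 2710702006) (nat_lit 626243737181269228400150753)) C.nil))) C.nil)) (C.cons (nat_lit 22) (C.node (nat_lit 1) (nat_lit 8) (nat_lit 9) (C.cons (nat_lit 802) (C.node (nat_lit 1) (nat_lit 2) (nat_lit 9) (C.cons (nat_lit 1542) (C.node (nat_lit 1) (nat_lit 7) (nat_lit 8) (C.cons (nat_lit 450) (C.miq (nat_lit 644980921) (nat_lit 544045064013606700928077569)) (C.cons (nat_lit 386) (C.node (nat_lit 2) (nat_lit 8) (nat_lit 9) (C.cons (nat_lit 780) (C.miq (nat_lit 2810318905) (nat_lit 2944971741790207215414280715)) (C.cons (nat_lit 772) (C.node (nat_lit 1) (nat_lit 5) (nat_lit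 10) (C.cons (nat_lit 3106) (C.miq (nat_lit 1796867986) (nat_lit 3754943758654114956803703429)) (C.cons (nat_lit 1122) (C.miq (nat_lit 2980477216) (nat_lit 1356456699814067786094019205)) (C.cons (nat_lit 1058) (C.node (nat_lit 6) (nat_lit 8) (nat_lit 9) (C.cons (nat_lit 960) (C.miq (nat_lit 848825191) (nat_lit 933297982897549504591956193)) (C.cons (nat_lit 840) (C.miq (nat_lit 957843008) (nat_lit 3252017704570214979537666385)) (C.cons (nat_lit 832) (C.node (nat_lit 1) (nat_lit 5) (nat_lit 7) (C.cons (nat_lit 174) (C.miq (nat_lit 1729235866) (nat_lit 210373255544022216565198593)) (C.cons (nat_lit 170) (C.miq (nat_lit 2836597621) (nat_lit 632287850522046498062600417)) (C.cons (nat_lit 166) (C.miq (nat_lit 1729235866) (nat_lit 200701848987105183167549185)) (C.cons (nat_lit 162) (C.node (nat_lit 1) (nat_lit 2) (nat_lit 7) (C.cons (nat_lit 206) (C.miq (nat_lit 949121206) (nat_lit 933294532882409070029703393)) (C.cons (nat_lit 198) (C.node (nat_lit 1) (nat_lit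 3) (nat_lit 7) (C.cons (nat_lit 138) (C.node (nat_lit 1) (nat_lit 2) (nat_lit 3) (C.cons (nat_lit 46) (C.miq (nat_lit 999628929) (nat_lit 3133536573575986235127759111)) (C.cons (nat_lit 14) (C.node (nat_lit 1) (nat_lit 2) (nat_lit 11) (C.cons (nat_lit 2086) (C.node (nat_lit 1) (nat_lit 4) (nat_lit 5) C.nil) C.nil)) C.nil))) C.nil)) (C.cons (nat_lit 142) (C.miq (nat_lit 1729235866) (nat_lit 171687629316354082974600961)) (C.cons (nat_lit 134) (C.miq (nat_lit 1729235866) (nat_lit 162016222759437049576951553)) C.nil))))) C.nil))))) C.nil)))) C.nil)))) C.nil))) C.nil))) (C.cons (nat_lit 518) (C.miq (nat_lit 2710702006) (nat_lit 626243737181269228400150753)) C.nil))) (C.cons (nat_lit 770) (C.node (nat_lit 2) (nat_lit 4) (nat_lit 6) (C.cons (nat_lit 116) (C.node (nat_lit 1) (nat_lit 2) (nat_lit 9) (C.cons (nat_lit 1574) (C.miq (nat_lit 2303986214) (nat_lit 678213602437711952960816197)) (C.cons (nat_lit 1542) (C.node (nat_lit 1) (nat_lit 5) (nat_lit 9) (C.cons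 (nat_lit 546) (C.node (nat_lit 1) (nat_lit 2) (nat_lit 6) (C.cons (nat_lit 206)
  (C.miq (nat_lit 1444495920) (nat_lit 718112285507167062929901597)) (C.cons (nat_lit 198) (C.node (nat_lit 1) (nat_lit 3) (nat_lit 7) (C.cons (nat_lit 170) (C.miq (nat_lit 975261799) (nat_lit 1864166750092026262629779681)) (C.cons (nat_lit 138) (C.node (nat_lit 1) (nat_lit 6) (nat_lit 11) (C.cons (nat_lit 3146) (C.miq (nat_lit 2772840593) (nat_lit 140293428831926134227730955)) (C.cons (nat_lit 3138) (C.node (nat_lit 3) (nat_lit 6) (nat_lit 11) (C.cons (nat_lit 2120) (C.node (nat_lit 3) (nat_lit 10) (nat_lit 11) (C.cons (nat_lit 3080) (C.node (nat_lit 1) (nat_lit 2) (nat_lit 11) (C.cons (nat_lit 2086) (C.node (nat_lit 2) (nat_lit 10) (nat_lit 11) C.nil) C.nil)) C.nil)) C.nil)) (C.cons (nat_lit 2122) (C.miq (nat_lit 2870348146) (nat_lit 2565360752594672612287054469)) (C.cons (nat_lit 2114) (C.miq (nat_lit 2870348146) (nat_lit 2555689346037755578889405061)) C.nil))))) C.nil)))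 (C.cons (nat_lit 78) (C.miq (nat_lit 1898363296) (nat_lit 94338144136394927700774657)) (C.cons (nat_lit 70) (C.miq (nat_lit 1898363296) (nat_lit 84666737579477894303125249)) C.nil))))) C.nil)) (C.cons (nat_lit 550) (C.miq (nat_lit 2710702006) (nat_lit 664929363408937361990748385)) (C.cons (nat_lit 518) (C.miq (nat_lit 2710702006) (nat_lit 626243737181269228400150753)) C.nil))))) (C.cons (nat_lit 84) (C.node (nat_lit 4) (nat_lit 6) (nat_lit 7) (C.cons (nat_lit 216) (C.node (nat_lit 4) (nat_lit 9) (nat_lit 10) (C.cons (nat_lit 1560) (C.miq (nat_lit 1804824740) (nat_lit 3104525489906896761043551379)) (C.cons (nat_lit 1552) (C.node (nat_lit 3) (nat_lit 4) (nat_lit 9) (C.cons (nat_lit 792) (C.miq (nat_lit 2490073968) (nat_lit 2572664998306847111579238793)) (C.cons (nat_lit 536) (C.node (nat_lit 3) (nat_lit 4) (nat_lit 10) (C.cons (nat_lit 1304) (C.miq (nat_lit 918046474) (nat_lit 2862760395462522360641422483)) (C.cons (nat_lit 1048) (C.node (nat_lit 6) (nat_lit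 7) (nat_lit 9) (C.cons (nat_lit 1728) (C.miq (nat_lit 645183904) (nat_lit 261166291663924657051078401)) (C.cons (nat_lit 960) (C.miq (nat_lit 645118336) (nat_lit 261166291663921358465208065)) (C.cons (nat_lit 704) (C.node (nat_lit 4) (nat_lit 7) (nat_lit 9) (C.cons (nat_lit 912) (C.node (nat_lit 1) (nat_lit 2) (nat_lit 11) (C.cons (nat_lit 3110) (C.miq (nat_lit 2460071431) (nat_lit 3759808921482775945301657825)) C.nil)) C.nil)) C.nil)))) C.nil))) C.nil))) C.nil))) (C.cons (nat_lit 208) (C.node (nat_lit 4) (nat_lit 9) (nat_lit 10) (C.cons (nat_lit 1560) (C.node (nat_lit 3) (nat_lit 4) (nat_lit 6) (C.cons (nat_lit 120) (C.miq (nat_lit 2490082128) (nat_lit 2572664998523019481376162857)) (C.cons (nat_lit 88) (C.node (nat_lit 3) (nat_lit 4) (nat_lit 7) (C.cons (nat_lit 184) (C.miq (nat_lit 1536389284) (nat_lit 3104524899611086402337899667)) (C.cons (nat_lit 152) (C.node (nat_lit 4) (nat_lit 5) (nat_lit 6) (C.cons (nat_lit 1136) (C.miq (nat_lit 1443931283)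 (nat_lit 81017676016376780165940760)) (C.cons (nat_lit 112) (C.node (nat_lit 4) (nat_lit 6) (nat_lit 10) C.nil) C.nil))) C.nil))) C.nil))) (C.cons (nat_lit 1552) (C.node (nat_lit 1) (nat_lit 2) (nat_lit 9) (C.cons (nat_lit 1574) (C.node (nat_lit 1) (nat_lit 2) (nat_lit 11) (C.cons (nat_lit 2054) (C.node (nat_lit 2) (nat_lit 5) (nat_lit 11) (C.cons (nat_lit 2084) (C.node (nat_lit 2) (nat_lit 10) (nat_lit 11) C.nil) C.nil)) C.nil)) (C.cons (nat_lit 1542) (C.node (nat_lit 1) (nat_lit 5) (nat_lit 9) (C.cons (nat_lit 546) (C.node (nat_lit 2) (nat_lit 6) (nat_lit 7) (C.cons (nat_lit 206) (C.miq (nat_lit 2266608176) (nat_lit 3252081309393013526412068893)) (C.cons (nat_lit 204) (C.miq (nat_lit 308779531) (nat_lit 246670489376981738969960193)) (C.cons (nat_lit 198) (C.node (nat_lit 1) (nat_lit 3) (nat_lit 7) (C.cons (nat_lit 170) (C.miq (nat_lit 975261799) (nat_lit 1864166750092026262629779681)) (C.cons (nat_lit 138) (C.node (nat_lit 1) (nat_lit 2) (nat_lit 3)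 (C.cons (nat_lit 46) (C.node (nat_lit 1) (nat_lit 2) (nat_lit 11) (C.cons (nat_lit 2054) (C.node (nat_lit 2) (nat_lit 3) (nat_lit 9) (C.cons (nat_lit 780)
  (C.miq (nat_lit 1898121880) (nat_lit 55617837602307730509139713)) (C.cons (nat_lit 524) (C.node (nat_lit 1) (nat_lit 3) (nat_lit 4) C.nil) C.nil))) C.nil)) (C.cons (nat_lit 14) (C.node (nat_lit 1) (nat_lit 2) (nat_lit 5) (C.cons (nat_lit 2086) (C.node (nat_lit 2) (nat_lit 10) (nat_lit 11) (C.cons (nat_lit 3076) (C.node (nat_lit 5) (nat_lit 10) (nat_lit 11) (C.cons (nat_lit 3104) (C.node (nat_lit 4) (nat_lit 5) (nat_lit 11) (C.cons (nat_lit 2352) (C.miq (nat_lit 2224207111) (nat_lit 643193472965577832153811169)) C.nil)) C.nil)) C.nil)) (C.cons (nat_lit 38) (C.node (nat_lit 1) (nat_lit 2) (nat_lit 11) C.nil) C.nil))) C.nil))) C.nil))) (C.cons (nat_lit 196) (C.miq (nat_lit 308779531) (nat_lit 236999082820064705572310785)) C.nil))))) C.nil)) (C.cons (nat_lit 550) (C.miq (nat_lit 2710702006) (nat_lit 664929363408937361990748385))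 (C.cons (nat_lit 518) (C.miq (nat_lit 2710702006) (nat_lit 626243737181269228400150753)) C.nil))))) C.nil))) C.nil))) C.nil))) C.nil))) C.nil))) (C.cons (nat_lit 530) (C.node (nat_lit 1) (nat_lit 2) (nat_lit 9) (C.cons (nat_lit 1574) (C.node (nat_lit 1) (nat_lit 2) (nat_lit 11) (C.cons (nat_lit 2054) (C.node (nat_lit 2) (nat_lit 5) (nat_lit 11) (C.cons (nat_lit 2084) (C.node (nat_lit 2) (nat_lit 10) (nat_lit 11) C.nil) C.nil)) C.nil)) (C.cons (nat_lit 1542) (C.node (nat_lit 2) (nat_lit 6) (nat_lit 7) (C.cons (nat_lit 206) (C.miq (nat_lit 2266608176) (nat_lit 3252081309393013526412068893)) (C.cons (nat_lit 204) (C.miq (nat_lit 308779531) (nat_lit 246670489376981738969960193)) (C.cons (nat_lit 198) (C.node (nat_lit 1) (nat_lit 3) (nat_lit 7) (C.cons (nat_lit 170) (C.miq (nat_lit 975261799) (nat_lit 1864166750092026262629779681)) (C.cons (nat_lit 138) (C.node (nat_lit 1) (nat_lit 2) (nat_lit 3) (C.cons (nat_lit 46) (C.node (nat_lit 1) (nat_lit 2) (nat_lit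 4) (C.cons (nat_lit 22) (C.node (nat_lit 1) (nat_lit 2) (nat_lit 11) (C.cons (nat_lit 2054) (C.node (nat_lit 2) (nat_lit 3) (nat_lit 9) (C.cons (nat_lit 780) (C.miq (nat_lit 1898121880) (nat_lit 55617837602307730509139713)) (C.cons (nat_lit 524) (C.node (nat_lit 2) (nat_lit 5) (nat_lit 11) (C.cons (nat_lit 3108) (C.miq (nat_lit 1934786731) (nat_lit 55655524081460738695368449)) (C.cons (nat_lit 2084) (C.node (nat_lit 2) (nat_lit 10) (nat_lit 11) C.nil) C.nil))) C.nil))) C.nil)) C.nil)) (C.cons (nat_lit 14) (C.node (nat_lit 1) (nat_lit 2) (nat_lit 4) (C.cons (nat_lit 54) (C.node (nat_lit 1) (nat_lit 2) (nat_lit 11) (C.cons (nat_lit 2054) (C.node (nat_lit 2) (nat_lit 4) (nat_lit 6) (C.cons (nat_lit 84) (C.node (nat_lit 4) (nat_lit 5) (nat_lit 11) (C.cons (nat_lit 2352) (C.miq (nat_lit 2224207111) (nat_lit 643193472965577832153811169)) (C.cons (nat_lit 2096) (C.node (nat_lit 1) (nat_lit 4) (nat_lit 11) (C.cons (nat_lit 2322) (C.node (nat_lit 3) (nat_lit 6)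 (nat_lit 11) (C.cons (nat_lit 3144) (C.miq (nat_lit 380334601) (nat_lit 3800912398665689144009753221)) (C.cons (nat_lit 2122) (C.miq (nat_lit 2870348146) (nat_lit 2565360752594672612287054469)) C.nil))) C.nil)) C.nil))) C.nil)) C.nil)) (C.cons (nat_lit 22) (C.node (nat_lit 1) (nat_lit 2) (nat_lit 5) (C.cons (nat_lit 2086) (C.node (nat_lit 2) (nat_lit 10) (nat_lit 11) (C.cons (nat_lit 3076) (C.node (nat_lit 5) (nat_lit 10) (nat_lit 11) (C.cons (nat_lit 3104) (C.node (nat_lit 4) (nat_lit 5) (nat_lit 11) (C.cons (nat_lit 2352) (C.miq (nat_lit 2224207111) (nat_lit 643193472965577832153811169)) C.nil)) C.nil)) C.nil)) (C.cons (nat_lit 38) (C.node (nat_lit 1) (nat_lit 2) (nat_lit 11) (C.cons (nat_lit 2054) (C.node (nat_lit 1) (nat_lit 5) (nat_lit 7) (C.cons (nat_lit 418) (C.node (nat_lit 1) (nat_lit 5) (nat_lit 9) (C.cons (nat_lit 610) (C.miq (nat_lit 2190572389) (nat_lit 1864171325270465328470690017)) C.nil)) (C.cons (nat_lit 162) (C.node (nat_lit 1) (nat_lit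 7) (nat_lit 8) C.nil) C.nil))) C.nil)) C.nil))) C.nil))) C.nil))) C.nil))) (C.cons (nat_lit 196) (C.miq (nat_lit 308779531) (nat_lit 236999082820064705572310785)) C.nil))))) (C.cons (nat_lit 550)
  (C.miq (nat_lit 2710702006) (nat_lit 664929363408937361990748385)) (C.cons (nat_lit 518) (C.miq (nat_lit 2710702006) (nat_lit 626243737181269228400150753)) C.nil))))) C.nil)))) C.nil))))) C.nil)))) C.nil))))) (C.cons (nat_lit 2564) (C.node (nat_lit 6) (nat_lit 9) (nat_lit 11) (C.cons (nat_lit 2624) (C.node (nat_lit 2) (nat_lit 6) (nat_lit 11) (C.cons (nat_lit 2118) (C.node (nat_lit 2) (nat_lit 5) (nat_lit 11) (C.cons (nat_lit 3108) (C.node (nat_lit 2) (nat_lit 7) (nat_lit 10) (C.cons (nat_lit 1164) (C.miq (nat_lit 1383312256) (nat_lit 1407209300688701550213271297)) (C.cons (nat_lit 1156) (C.node (nat_lit 2) (nat_lit 8) (nat_lit 10) (C.cons (nat_lit 1300) (C.miq (nat_lit 942278581) (nat_lit 1571623211392086556381808865)) (C.cons (nat_lit 1292) (C.node (nat_lit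 1) (nat_lit 2) (nat_lit 10) (C.cons (nat_lit 1542) (C.miq (nat_lit 1898363296) (nat_lit 2560546816150238444101373697)) (C.cons (nat_lit 1030) (C.node (nat_lit 4) (nat_lit 8) (nat_lit 10) (C.cons (nat_lit 1328) (C.miq (nat_lit 2024124976) (nat_lit 1605495418583185678255327261)) (C.cons (nat_lit 1296) (C.node (nat_lit 5) (nat_lit 7) (nat_lit 10) (C.cons (nat_lit 1696) (C.miq (nat_lit 2320966411) (nat_lit 2050383126698644880968714269)) (C.cons (nat_lit 1440) (C.node (nat_lit 1) (nat_lit 7) (nat_lit 8) (C.cons (nat_lit 450) (C.miq (nat_lit 840436583) (nat_lit 317954740713701064199768289)) (C.cons (nat_lit 386) (C.node (nat_lit 5) (nat_lit 7) (nat_lit 9) (C.cons (nat_lit 680) (C.miq (nat_lit 628341376) (nat_lit 822107872100219345934290689)) (C.cons (nat_lit 672) (C.node (nat_lit 4) (nat_lit 5) (nat_lit 7) (C.cons (nat_lit 184) (C.miq (nat_lit 628341376) (nat_lit 222480665571363275280027393)) (C.cons (nat_lit 180) (C.miq (nat_lit 844565416) (nat_lit 217613897685691094781660929))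 (C.cons (nat_lit 176) (C.node (nat_lit 3) (nat_lit 5) (nat_lit 11) (C.cons (nat_lit 2344) (C.miq (nat_lit 896841888) (nat_lit 212809258799399359726423809)) (C.cons (nat_lit 2090) (C.miq (nat_lit 975261803) (nat_lit 1245232148197957647645149409)) (C.cons (nat_lit 2088) (C.node (nat_lit 1) (nat_lit 10) (nat_lit 11) (C.cons (nat_lit 3082) (C.node (nat_lit 6) (nat_lit 10) (nat_lit 11) C.nil) C.nil)) C.nil)))) C.nil)))) C.nil))) C.nil))) (C.cons (nat_lit 1184) (C.miq (nat_lit 2320966411) (nat_lit 1431413107055954743519152157)) C.nil)))) C.nil))) C.nil))) (C.cons (nat_lit 1284) (C.miq (nat_lit 942278581) (nat_lit 1552280398278252489586510049)) C.nil)))) C.nil))) (C.cons (nat_lit 2084) (C.node (nat_lit 2) (nat_lit 10) (nat_lit 11) C.nil) C.nil))) (C.cons (nat_lit 2116) (C.node (nat_lit 6) (nat_lit 10) (nat_lit 11) (C.cons (nat_lit 3146) (C.miq (nat_lit 1804771696) (nat_lit 3099705964668713598722573459)) (C.cons (nat_lit 3144) (C.node (nat_lit 1) (nat_lit 6)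 (nat_lit 11) (C.cons (nat_lit 2370) (C.node (nat_lit 1) (nat_lit 3) (nat_lit 11) (C.cons (nat_lit 2090) (C.node (nat_lit 1) (nat_lit 4) (nat_lit 11) C.nil) C.nil)) C.nil)) (C.cons (nat_lit 3138) (C.miq (nat_lit 1804771696) (nat_lit 3099705964666461798908888211)) (C.cons (nat_lit 3136) (C.node (nat_lit 3) (nat_lit 10) (nat_lit 11) C.nil) C.nil))))) C.nil))) C.nil)) C.nil))) C.nil))) C.nil)))) List.nil)

theorem ok12_288 : okL par12 (nat_lit 289) c12_288 (nat_lit 288) = true := by decide +kernel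

noncomputable def c12_289 : List C :=
  (List.cons (C.node (nat_lit 3) (nat_lit 7) (nat_lit 11) (C.cons (nat_lit 2184) (C.node (nat_lit 4) (nat_lit 9) (nat_lit 11) (C.cons (nat_lit 2640) (C.node (nat_lit 3) (nat_lit 9) (nat_lit 11) (C.cons (nat_lit 2600) (C.miq (nat_lit 2710767541) (nat_lit 632287849770508310404401377)) (C.cons (nat_lit 2568) (C.node (nat_lit 2) (nat_lit 6) (nat_lit 11) (C.cons (nat_lit 2118) (C.node (nat_lit 2) (nat_lit 9) (nat_lit 11) (C.cons (nat_lit 2596) (C.node (nat_lit 2) (nat_lit 10) (nat_lit 11) (C.cons (nat_lit 3076) (C.node (nat_lit 5) (nat_lit 10) (nat_lit 11) (C.cons (nat_lit 3106) (C.miq (nat_lit 1376434545) (nat_lit 1321413217156594439692683906)) (C.cons (nat_lit 3104) (C.node (nat_lit 1) (nat_lit 2) (nat_lit 4) (C.cons (nat_lit 534) (C.miq (nat_lit 1494725184) (nat_lit 3252052384943343354900580381)) (C.cons (nat_lit 54) (C.miq (nat_lit 2871069012) (nat_lit 2560526488162251441196892721)) (C.cons (nat_lit 22) (C.node (nat_lit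 1) (nat_lit 2) (nat_lit 9) (C.cons (nat_lit 1542) (C.miq (nat_lit 1898363296) (nat_lit 2560546816150238444101373697)) (C.cons (nat_lit 518) (C.node (nat_lit 1) (nat_lit 4) (nat_lit 9) (C.cons (nat_lit 786) (C.miq (nat_lit 1729366936) (nat_lit 1415658351961287779276689153)) (C.cons (nat_lit 530) (C.node (nat_lit 2) (nat_lit 4) (nat_lit 9) (C.cons (nat_lit 1556) (C.miq (nat_lit 2066351508) (nat_lit 3718677422911713427181535793)) (C.cons (nat_lit 788) (C.miq (nat_lit 1797784980) (nat_lit 2944949513773793281553203761)) (C.cons (nat_lit 532) (C.node (nat_lit 1) (nat_lit 2) (nat_lit 7) (C.cons (nat_lit 174) (C.miq (nat_lit 2836597621) (nat_lit 632287850522046498062862561)) (C.cons (nat_lit 166) (C.miq (nat_lit 2837515095) (nat_lit 626245176778844761674352865)) (C.cons (nat_lit 142) (C.miq (nat_lit 2266608176) (nat_lit 3252081309393013251534161949)) (C.cons (nat_lit 134) (C.node (nat_lit 4) (nat_lit 5) (nat_lit 11) (C.cons (nat_lit 2354) (C.miq (nat_lit 2224207111)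 (nat_lit 643193472966140782107232481)) (C.cons (nat_lit 2352) (C.miq (nat_lit 2224207111) (nat_lit 643193472965577832153811169)) (C.cons (nat_lit 2098) (C.miq (nat_lit 1500623364) (nat_lit 3252049156763130932470417437)) (C.cons (nat_lit 2096) (C.node (nat_lit 1) (nat_lit 4) (nat_lit 11) (C.cons (nat_lit 2322) (C.node (nat_lit 5) (nat_lit 8) (nat_lit 11) (C.cons (nat_lit 2344) (C.miq (nat_lit 1393145970) (nat_lit 632316092065845441741523332)) (C.cons (nat_lit 2336) (C.node (nat_lit 1) (nat_lit 5) (nat_lit 11) (C.cons (nat_lit 2090) (C.node (nat_lit 1) (nat_lit 10) (nat_lit 11) C.nil) C.nil)) C.nil))) (C.cons (nat_lit 2066) (C.node (nat_lit 4) (nat_lit 8) (nat_lit 11) (C.cons (nat_lit 2320) (C.node (nat_lit 1) (nat_lit 10) (nat_lit 11) (C.cons (nat_lit 3074) (C.node (nat_lit 3) (nat_lit 10) (nat_lit 11) C.nil) C.nil)) C.nil)) C.nil))) C.nil))))) C.nil))))) C.nil)))) C.nil))) C.nil))) C.nil)))) C.nil))) C.nil)) (C.cons (nat_lit 2564) (C.node (nat_lit 5)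 (nat_lit 9) (nat_lit 11) (C.cons (nat_lit 2592) (C.ref (nat_lit 286) (nat_lit 205163983024656)) C.nil)) C.nil))) (C.cons (nat_lit 2116) (C.node (nat_lit 2) (nat_lit 9) (nat_lit 11) (C.cons (nat_lit 2596) (C.node (nat_lit 5) (nat_lit 10) (nat_lit 11) (C.cons (nat_lit 3106) (C.miq (nat_lit 1376434545) (nat_lit 1321413217156594439692683906)) (C.cons (nat_lit 3104) (C.node (nat_lit 1) (nat_lit 4) (nat_lit 9) (C.cons (nat_lit 786) (C.miq (nat_lit 1729366936) (nat_lit 1415658351961287779276689153)) (C.cons (nat_lit 534) (C.miq (nat_lit 1494725184) (nat_lit 3252052384943343354900580381)) (C.cons (nat_lit 530) (C.node (nat_lit 2) (nat_lit 4) (nat_lit 9) (C.cons (nat_lit 1556) (C.miq (nat_lit 2813476953) (nat_lit 2944972000044632322005533233)) (C.cons (nat_lit 788) (C.miq (nat_lit 1797784980) (nat_lit 2944949513773793281553203761)) (C.cons (nat_lit 532) (C.node (nat_lit 4) (nat_lit 5) (nat_lit 11) (C.cons (nat_lit 2354) (C.miq (nat_lit 2224207111) (nat_lit 643193472966140782107232481))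 (C.cons (nat_lit 2352) (C.miq (nat_lit 2224207111) (nat_lit 643193472965577832153811169)) (C.cons (nat_lit 2098)
  (C.miq (nat_lit 1500623364) (nat_lit 3252049156763130932470417437)) (C.cons (nat_lit 2096) (C.node (nat_lit 1) (nat_lit 2) (nat_lit 11) (C.cons (nat_lit 3078) (C.node (nat_lit 1) (nat_lit 4) (nat_lit 11) (C.cons (nat_lit 2322) (C.miq (nat_lit 1656228372) (nat_lit 2944949513441654879309399187)) (C.cons (nat_lit 2066) (C.node (nat_lit 4) (nat_lit 8) (nat_lit 11) (C.cons (nat_lit 2320) (C.node (nat_lit 3) (nat_lit 10) (nat_lit 11) (C.cons (nat_lit 3080) (C.node (nat_lit 6) (nat_lit 10) (nat_lit 11) C.nil) C.nil)) C.nil)) C.nil))) (C.cons (nat_lit 2054) (C.node (nat_lit 2) (nat_lit 10) (nat_lit 11) (C.cons (nat_lit 3076) (C.node (nat_lit 1) (nat_lit 4) (nat_lit 11) (C.cons (nat_lit 2322) (C.node (nat_lit 1) (nat_lit 5) (nat_lit 11) (C.cons (nat_lit 2082) (C.node (nat_lit 3) (nat_lit 5) (nat_lit 11) C.nil) C.nil)) (C.cons (nat_lit 2066) (C.node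 (nat_lit 4) (nat_lit 8) (nat_lit 11) C.nil) C.nil))) C.nil)) C.nil))) C.nil))))) C.nil)))) C.nil)))) C.nil))) (C.cons (nat_lit 2564) (C.node (nat_lit 5) (nat_lit 9) (nat_lit 11) (C.cons (nat_lit 2592) (C.ref (nat_lit 287) (nat_lit 205163983024656)) C.nil)) C.nil))) C.nil))) C.nil))) (C.cons (nat_lit 2576) (C.node (nat_lit 4) (nat_lit 6) (nat_lit 11) (C.cons (nat_lit 2130) (C.node (nat_lit 2) (nat_lit 6) (nat_lit 11) (C.cons (nat_lit 2628) (C.miq (nat_lit 1769058820) (nat_lit 3252049747067948490430810141)) (C.cons (nat_lit 2116) (C.node (nat_lit 6) (nat_lit 8) (nat_lit 11) (C.cons (nat_lit 2376) (C.miq (nat_lit 991397440) (nat_lit 3252017705002567140835000657)) (C.cons (nat_lit 2368) (C.node (nat_lit 1) (nat_lit 4) (nat_lit 9) (C.cons (nat_lit 786) (C.miq (nat_lit 1900460416) (nat_lit 2575053925985610747153026817)) (C.cons (nat_lit 534) (C.miq (nat_lit 1637332000) (nat_lit 3252052384812176015718942749)) (C.cons (nat_lit 530) (C.node (nat_lit 1) (nat_lit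 2) (nat_lit 4) (C.cons (nat_lit 54) (C.node (nat_lit 1) (nat_lit 3) (nat_lit 4) (C.cons (nat_lit 282) (C.miq (nat_lit 834110560) (nat_lit 3252017704413158539675107665)) (C.cons (nat_lit 26) (C.node (nat_lit 1) (nat_lit 4) (nat_lit 8) (C.cons (nat_lit 274) (C.node (nat_lit 1) (nat_lit 2) (nat_lit 7) (C.cons (nat_lit 206) (C.miq (nat_lit 2266608176) (nat_lit 3252081309393013526412068893)) (C.cons (nat_lit 198) (C.miq (nat_lit 2870348146) (nat_lit 2575032159151589645684703877)) (C.cons (nat_lit 142) (C.miq (nat_lit 2266608176) (nat_lit 3252081309393013251534161949)) (C.cons (nat_lit 134) (C.node (nat_lit 1) (nat_lit 2) (nat_lit 11) (C.cons (nat_lit 3078) (C.node (nat_lit 5) (nat_lit 10) (nat_lit 11) (C.cons (nat_lit 3104) (C.node (nat_lit 2) (nat_lit 5) (nat_lit 11) (C.cons (nat_lit 2596) (C.node (nat_lit 4) (nat_lit 5) (nat_lit 11) (C.cons (nat_lit 2352) (C.miq (nat_lit 2215097746) (nat_lit 1415697071699325874791057956)) (C.cons (nat_lit 2096) (C.node (nat_lit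 4) (nat_lit 8) (nat_lit 11) (C.cons (nat_lit 2320) (C.node (nat_lit 3) (nat_lit 9) (nat_lit 11) (C.cons (nat_lit 2568) (C.node (nat_lit 6) (nat_lit 9) (nat_lit 11) C.nil) C.nil)) C.nil)) C.nil))) (C.cons (nat_lit 2084) (C.miq (nat_lit 2602895892) (nat_lit 2519411757781471156604634259)) C.nil))) C.nil)) (C.cons (nat_lit 2054) (C.node (nat_lit 2) (nat_lit 9) (nat_lit 11) (C.cons (nat_lit 2596) (C.miq (nat_lit 2871069012) (nat_lit 2483155235706915174015697457)) (C.cons (nat_lit 2564) (C.node (nat_lit 5) (nat_lit 9) (nat_lit 11) (C.cons (nat_lit 2600) (C.miq (nat_lit 2710767541) (nat_lit 632287849770508310404401377)) (C.cons (nat_lit 2592) (C.node (nat_lit 2) (nat_lit 4) (nat_lit 7) (C.cons (nat_lit 212) (C.node (nat_lit 2) (nat_lit 4) (nat_lit 8) (C.cons (nat_lit 1300) (C.miq (nat_lit 2188092528) (nat_lit 2558157888614460832471909523)) (C.cons (nat_lit 788) (C.miq (nat_lit 1917171856) (nat_lit 65323924394145944983113473)) (C.cons (nat_lit 276) (C.node (nat_lit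 2) (nat_lit 4) (nat_lit 9) (C.cons (nat_lit 1556) (C.miq (nat_lit 2456527984) (nat_lit 2558157888686518426509837459)) (C.cons (nat_lit 532) (C.node (nat_lit 2) (nat_lit 4) (nat_lit 10) (C.cons (nat_lit 1044)
  (C.node (nat_lit 4) (nat_lit 5) (nat_lit 11) (C.cons (nat_lit 2352) (C.miq (nat_lit 2458126261) (nat_lit 333673875018624825950210273)) (C.cons (nat_lit 2096) (C.node (nat_lit 4) (nat_lit 8) (nat_lit 11) C.nil) C.nil))) C.nil)) C.nil))) C.nil)))) (C.cons (nat_lit 148) (C.node (nat_lit 2) (nat_lit 4) (nat_lit 6) (C.cons (nat_lit 596) (C.node (nat_lit 1) (nat_lit 2) (nat_lit 9) (C.cons (nat_lit 1542) (C.miq (nat_lit 1729235866) (nat_lit 162016222759437049576951553)) (C.cons (nat_lit 518) (C.node (nat_lit 4) (nat_lit 5) (nat_lit 11) (C.cons (nat_lit 2352) (C.miq (nat_lit 2224207111) (nat_lit 720564725420914099335006433)) (C.cons (nat_lit 2096) (C.node (nat_lit 4) (nat_lit 8) (nat_lit 11) C.nil) C.nil))) C.nil))) (C.cons (nat_lit 84) (C.node (nat_lit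 2) (nat_lit 5) (nat_lit 11) (C.cons (nat_lit 3108) (C.node (nat_lit 2) (nat_lit 5) (nat_lit 7) (C.cons (nat_lit 172) (C.node (nat_lit 2) (nat_lit 6) (nat_lit 7) (C.cons (nat_lit 196) (C.node (nat_lit 2) (nat_lit 7) (nat_lit 10) (C.cons (nat_lit 1156) (C.node (nat_lit 1) (nat_lit 2) (nat_lit 10) (C.cons (nat_lit 1542) (C.miq (nat_lit 1729235866) (nat_lit 162016222759437049576951553)) (C.cons (nat_lit 1038) (C.miq (nat_lit 2184886096) (nat_lit 1254935855389645983804098785)) C.nil))) C.nil)) C.nil)) (C.cons (nat_lit 164) (C.miq (nat_lit 891751096) (nat_lit 198271084287004351620452097)) C.nil))) (C.cons (nat_lit 2084) (C.node (nat_lit 2) (nat_lit 10) (nat_lit 11) C.nil) C.nil))) C.nil))) C.nil))) C.nil))) C.nil))) C.nil))) C.nil))))) C.nil)) C.nil))) (C.cons (nat_lit 22) (C.node (nat_lit 2) (nat_lit 9) (nat_lit 11) (C.cons (nat_lit 2596) (C.node (nat_lit 1) (nat_lit 2) (nat_lit 11) (C.cons (nat_lit 3078) (C.miq (nat_lit 1410502827) (nat_lit 26644255937049683382636289))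 (C.cons (nat_lit 2054) (C.node (nat_lit 2) (nat_lit 10) (nat_lit 11) (C.cons (nat_lit 3076) (C.node (nat_lit 4) (nat_lit 5) (nat_lit 11) (C.cons (nat_lit 2352) (C.miq (nat_lit 2215097746) (nat_lit 1415697071699325874791057956)) (C.cons (nat_lit 2096) (C.node (nat_lit 4) (nat_lit 8) (nat_lit 11) (C.cons (nat_lit 2320) (C.node (nat_lit 5) (nat_lit 10) (nat_lit 11) (C.cons (nat_lit 3106) (C.miq (nat_lit 1376434545) (nat_lit 1321413217156594439692683906)) C.nil)) C.nil)) C.nil))) C.nil)) C.nil))) (C.cons (nat_lit 2564) (C.node (nat_lit 5) (nat_lit 9) (nat_lit 11) (C.cons (nat_lit 2600) (C.miq (nat_lit 2710767541) (nat_lit 632287849770508310404401377)) (C.cons (nat_lit 2592) (C.node (nat_lit 3) (nat_lit 9) (nat_lit 11) (C.cons (nat_lit 2632) (C.node (nat_lit 6) (nat_lit 10) (nat_lit 11) (C.cons (nat_lit 3136) (C.node (nat_lit 1) (nat_lit 6) (nat_lit 7) (C.cons (nat_lit 450) (C.miq (nat_lit 2259906880) (nat_lit 3181900006922797843616695443)) (C.cons (nat_lit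 206) (C.miq (nat_lit 2838563687) (nat_lit 632289805876918062169327841)) (C.cons (nat_lit 202) (C.miq (nat_lit 2838563687) (nat_lit 632289805876918062169065697)) (C.cons (nat_lit 198) (C.miq (nat_lit 2870348146) (nat_lit 2575032159151589645684703877)) (C.cons (nat_lit 194) (C.node (nat_lit 1) (nat_lit 3) (nat_lit 7) (C.cons (nat_lit 174) (C.miq (nat_lit 2836597621) (nat_lit 632287850522046498062862561)) (C.cons (nat_lit 170) (C.miq (nat_lit 2836597621) (nat_lit 632287850522046498062600417)) (C.cons (nat_lit 142) (C.miq (nat_lit 2266608176) (nat_lit 3252081309393013251534161949)) (C.cons (nat_lit 138) (C.node (nat_lit 1) (nat_lit 2) (nat_lit 7) (C.cons (nat_lit 166) (C.node (nat_lit 1) (nat_lit 7) (nat_lit 8) (C.cons (nat_lit 386) (C.node (nat_lit 2) (nat_lit 5) (nat_lit 11) (C.cons (nat_lit 3108) (C.miq (nat_lit 891751096) (nat_lit 200688935926233609969864449)) (C.cons (nat_lit 2084) (C.node (nat_lit 5) (nat_lit 10) (nat_lit 11) (C.cons (nat_lit 3106)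 (C.miq (nat_lit 2605845015) (nat_lit 2519413307307973468473394323)) C.nil)) C.nil))) C.nil)) (C.cons (nat_lit 134) (C.node (nat_lit 1) (nat_lit 5) (nat_lit 7) (C.cons (nat_lit 418) (C.node (nat_lit 1) (nat_lit 4) (nat_lit 8) (C.cons (nat_lit 282) (C.miq (nat_lit 1636283440) (nat_lit 505372922647737448438237213))
  (C.cons (nat_lit 274) (C.node (nat_lit 1) (nat_lit 8) (nat_lit 9) (C.cons (nat_lit 834) (C.miq (nat_lit 728236945) (nat_lit 2862741192925768102352912907)) (C.cons (nat_lit 770) (C.node (nat_lit 1) (nat_lit 3) (nat_lit 4) C.nil) C.nil))) C.nil))) (C.cons (nat_lit 162) (C.node (nat_lit 1) (nat_lit 7) (nat_lit 8) (C.cons (nat_lit 386) (C.node (nat_lit 3) (nat_lit 10) (nat_lit 11) (C.cons (nat_lit 3082) (C.node (nat_lit 1) (nat_lit 2) (nat_lit 11) C.nil) (C.cons (nat_lit 3080) (C.node (nat_lit 4) (nat_lit 5) (nat_lit 11) (C.cons (nat_lit 2352) (C.node (nat_lit 1) (nat_lit 8) (nat_lit 11) C.nil) C.nil)) C.nil))) C.nil)) C.nil))) C.nil))) C.nil)))))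 C.nil)))))) C.nil)) (C.cons (nat_lit 2568) (C.node (nat_lit 6) (nat_lit 9) (nat_lit 11) (C.cons (nat_lit 2624) (C.node (nat_lit 3) (nat_lit 6) (nat_lit 11) (C.cons (nat_lit 3144) (C.node (nat_lit 4) (nat_lit 5) (nat_lit 11) (C.cons (nat_lit 2352) (C.node (nat_lit 1) (nat_lit 8) (nat_lit 11) C.nil) C.nil)) C.nil)) C.nil)) C.nil))) C.nil))) C.nil))) C.nil))) C.nil)))) C.nil))) C.nil))) (C.cons (nat_lit 2128) (C.ref (nat_lit 288) (nat_lit 205163983024656)) C.nil))) C.nil))) C.nil)) List.nil)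

theorem ok12_289 : okL par12 (nat_lit 290) c12_289 (nat_lit 289) = true := by decide +kernel

noncomputable def c12_290 : List C :=
  (List.cons (C.node (nat_lit 2) (nat_lit 8) (nat_lit 10) (C.cons (nat_lit 1300) (C.node (nat_lit 4) (nat_lit 5) (nat_lit 10) (C.cons (nat_lit 1136) (C.miq (nat_lit 3091624613) (nat_lit 407449931345088200485897380)) (C.cons (nat_lit 1072) (C.node (nat_lit 1) (nat_lit 2) (nat_lit 7) (C.cons (nat_lit 206) (C.miq (nat_lit 2608007201) (nat_lit 2640303638766656515753246983)) (C.cons (nat_lit 198) (C.node (nat_lit 2) (nat_lit 3) (nat_lit 7) (C.cons (nat_lit 140) (C.node (nat_lit 1) (nat_lit 3) (nat_lit 7) (C.cons (nat_lit 170) (C.miq (nat_lit 1613834839) (nat_lit 632271856421434376558609572)) (C.cons (nat_lit 138) (C.node (nat_lit 1) (nat_lit 2) (nat_lit 10) (C.cons (nat_lit 1542) (C.miq (nat_lit 2440798816) (nat_lit 2633111289498684725538128965)) (C.cons (nat_lit 1038) (C.miq (nat_lit 1394018854) (nat_lit 166873692855873676306154565))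 (C.cons (nat_lit 1030) (C.node (nat_lit 2) (nat_lit 6) (nat_lit 11) (C.cons (nat_lit 2628) (C.miq (nat_lit 2451224176) (nat_lit 1245264448886772257610991841)) (C.cons (nat_lit 2116) (C.node (nat_lit 2) (nat_lit 3) (nat_lit 8) (C.cons (nat_lit 876) (C.miq (nat_lit 337840777) (nat_lit 2510948575316348127203299073)) (C.cons (nat_lit 844) (C.miq (nat_lit 337840777) (nat_lit 2510948575316348127201201921)) (C.cons (nat_lit 812) (C.miq (nat_lit 337840777) (nat_lit 2510948575316348127199104769)) (C.cons (nat_lit 780) (C.miq (nat_lit 337840777) (nat_lit 2510948575316348127197007617)) (C.cons (nat_lit 364) (C.miq (nat_lit 974278774) (nat_lit 1245200309117686759840680161)) (C.cons (nat_lit 332) (C.miq (nat_lit 1384544832) (nat_lit 401405301895734283625104531)) (C.cons (nat_lit 300) (C.miq (nat_lit 1697122212) (nat_lit 362683963076939317100414099)) (C.cons (nat_lit 268) (C.node (nat_lit 1) (nat_lit 2) (nat_lit 3) (C.cons (nat_lit 46) (C.node (nat_lit 1) (nat_lit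 2) (nat_lit 11) (C.cons (nat_lit 2566) (C.miq (nat_lit 309566336) (nat_lit 169259263115473887359995649)) (C.cons (nat_lit 2054) (C.node (nat_lit 2) (nat_lit 4) (nat_lit 5) (C.cons (nat_lit 116) (C.miq (nat_lit 2253537402) (nat_lit 140259375937459636373030035)) (C.cons (nat_lit 52) (C.node (nat_lit 5) (nat_lit 8) (nat_lit 10) (C.cons (nat_lit 1378) (C.miq (nat_lit 677749767) (nat_lit 1665921694526837486969226387)) (C.cons (nat_lit 1376) (C.miq (nat_lit 677749767) (nat_lit 1663503842887608228619814035)) (C.cons (nat_lit 1314) (C.miq (nat_lit 2167121200) (nat_lit 2483204487802293760336659497)) (C.cons (nat_lit 1312) (C.node (nat_lit 1) (nat_lit 2) (nat_lit 4) (C.cons (nat_lit 534) (C.node (nat_lit 1) (nat_lit 7) (nat_lit 9) (C.cons (nat_lit 930) (C.miq (nat_lit 655603856) (nat_lit 166870077679936958469181185)) (C.cons (nat_lit 898) (C.miq (nat_lit 655603856) (nat_lit 166870077679936821030227713)) (C.cons (nat_lit 674) (C.miq (nat_lit 1898666304) (nat_lit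 2483175563127444294608945713)) C.nil)))) (C.cons (nat_lit 22) (C.node (nat_lit 1) (nat_lit 2) (nat_lit 9) C.nil) C.nil))) C.nil))))) C.nil))) C.nil))) (C.cons (nat_lit 14) (C.node (nat_lit 2) (nat_lit 3) (nat_lit 5) (C.cons (nat_lit 620) (C.miq (nat_lit 2703427429) (nat_lit 16944607586651357290694881)) (C.cons (nat_lit 556) (C.miq (nat_lit 324667687) (nat_lit 1287527599174104185846366853)) (C.cons (nat_lit 108) (C.miq (nat_lit 2703427429) (nat_lit 16944607586651357257140449)) (C.cons (nat_lit 44) (C.node (nat_lit 2) (nat_lit 3) (nat_lit 6) (C.cons (nat_lit 588) (C.node (nat_lit 2) (nat_lit 3) (nat_lit 10) (C.cons (nat_lit 1036) (C.node (nat_lit 2) (nat_lit 9) (nat_lit 10) C.nil) C.nil)) (C.cons (nat_lit 76) (C.node (nat_lit 2) (nat_lit 3) (nat_lit 9) (C.cons (nat_lit 1548) (C.node (nat_lit 7) (nat_lit 9) (nat_lit 10) (C.cons (nat_lit 1728) (C.miq (nat_lit 997793898) (nat_lit 3249621159268582613198046277)) C.nil)) C.nil)) C.nil))) C.nil))))) C.nil))) C.nil)))))))))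 C.nil))) C.nil)))) C.nil))) C.nil)) (C.cons (nat_lit 142) (C.miq (nat_lit 2608007201) (nat_lit 2640303638766656515749052679)) (C.cons (nat_lit 134) (C.node (nat_lit 2) (nat_lit 3) (nat_lit 7) (C.cons (nat_lit 204)
  (C.node (nat_lit 6) (nat_lit 7) (nat_lit 10) (C.cons (nat_lit 1728) (C.miq (nat_lit 2537268768) (nat_lit 2640364844468726872011506757)) (C.cons (nat_lit 1216) (C.node (nat_lit 2) (nat_lit 3) (nat_lit 8) (C.cons (nat_lit 812) (C.miq (nat_lit 337840777) (nat_lit 2510948575316348127199104769)) (C.cons (nat_lit 780) (C.miq (nat_lit 337840777) (nat_lit 2510948575316348127197007617)) (C.cons (nat_lit 300) (C.miq (nat_lit 1697122212) (nat_lit 362683963076939317100414099)) (C.cons (nat_lit 268) (C.node (nat_lit 2) (nat_lit 3) (nat_lit 9) (C.cons (nat_lit 1548) (C.miq (nat_lit 2474353248) (nat_lit 2640364844418061376216433733)) (C.cons (nat_lit 556) (C.miq (nat_lit 324667687) (nat_lit 1287527599174104185846366853)) (C.cons (nat_lit 524) (C.node (nat_lit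 1) (nat_lit 3) (nat_lit 7) (C.cons (nat_lit 170) (C.node (nat_lit 2) (nat_lit 3) (nat_lit 5) (C.cons (nat_lit 44) (C.node (nat_lit 1) (nat_lit 2) (nat_lit 3) (C.cons (nat_lit 1038) (C.miq (nat_lit 1647643159) (nat_lit 53234665819979833229837459)) (C.cons (nat_lit 14) (C.node (nat_lit 2) (nat_lit 3) (nat_lit 10) (C.cons (nat_lit 1036) (C.node (nat_lit 5) (nat_lit 7) (nat_lit 9) (C.cons (nat_lit 928) (C.miq (nat_lit 1114966921) (nat_lit 1436214222910238799838580481)) C.nil)) C.nil)) C.nil))) C.nil)) (C.cons (nat_lit 138) (C.node (nat_lit 2) (nat_lit 3) (nat_lit 5) (C.cons (nat_lit 46) (C.node (nat_lit 2) (nat_lit 3) (nat_lit 10) (C.cons (nat_lit 1036) (C.node (nat_lit 2) (nat_lit 4) (nat_lit 5) (C.cons (nat_lit 116) (C.miq (nat_lit 2253537402) (nat_lit 140259375937459636373030035)) (C.cons (nat_lit 52) (C.node (nat_lit 1) (nat_lit 2) (nat_lit 10) (C.cons (nat_lit 1030) (C.node (nat_lit 2) (nat_lit 9) (nat_lit 10) C.nil) C.nil)) C.nil))) C.nil)) (C.cons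 (nat_lit 44) (C.node (nat_lit 1) (nat_lit 2) (nat_lit 3) (C.cons (nat_lit 1038) (C.node (nat_lit 2) (nat_lit 9) (nat_lit 10) (C.cons (nat_lit 1540) (C.node (nat_lit 3) (nat_lit 7) (nat_lit 10) (C.cons (nat_lit 1160) (C.node (nat_lit 7) (nat_lit 9) (nat_lit 10) C.nil) C.nil)) C.nil)) (C.cons (nat_lit 14) (C.node (nat_lit 2) (nat_lit 3) (nat_lit 10) (C.cons (nat_lit 1036) (C.node (nat_lit 1) (nat_lit 2) (nat_lit 10) (C.cons (nat_lit 1542) (C.node (nat_lit 2) (nat_lit 4) (nat_lit 9) C.nil) C.nil)) C.nil)) C.nil))) C.nil))) C.nil))) C.nil)))) C.nil))))) C.nil))) (C.cons (nat_lit 140) (C.node (nat_lit 2) (nat_lit 6) (nat_lit 7) (C.cons (nat_lit 196) (C.node (nat_lit 4) (nat_lit 9) (nat_lit 10) (C.cons (nat_lit 1624) (C.miq (nat_lit 323094952) (nat_lit 2510943778980494569408564993)) (C.cons (nat_lit 1616) (C.node (nat_lit 3) (nat_lit 4) (nat_lit 10) (C.cons (nat_lit 1048) (C.node (nat_lit 2) (nat_lit 4) (nat_lit 6) (C.cons (nat_lit 118) (C.miq (nat_lit 2253537402)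 (nat_lit 142677227576688894722442387)) (C.cons (nat_lit 116) (C.miq (nat_lit 2253537402) (nat_lit 140259375937459636373030035)) (C.cons (nat_lit 86) (C.miq (nat_lit 278276260) (nat_lit 697551784411675788777096468)) (C.cons (nat_lit 84) (C.node (nat_lit 2) (nat_lit 8) (nat_lit 9) (C.cons (nat_lit 876) (C.miq (nat_lit 341969560) (nat_lit 101554620670934374740135681)) (C.cons (nat_lit 868) (C.miq (nat_lit 341969560) (nat_lit 101554620670934374739611393)) (C.cons (nat_lit 844) (C.miq (nat_lit 341969560) (nat_lit 101554620670934374738038529)) (C.cons (nat_lit 836) (C.miq (nat_lit 341969560) (nat_lit 101554620670934374737514241)) (C.cons (nat_lit 812) (C.miq (nat_lit 337840777) (nat_lit 2510948575316348127199104769)) (C.cons (nat_lit 804) (C.miq (nat_lit 1697122212) (nat_lit 971982576162712421152326803)) (C.cons (nat_lit 780) (C.miq (nat_lit 337840777) (nat_lit 2510948575316348127197007617)) (C.cons (nat_lit 772) (C.node (nat_lit 2) (nat_lit 4) (nat_lit 5)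 (C.cons (nat_lit 54) (C.node (nat_lit 2) (nat_lit 4) (nat_lit 9) (C.cons (nat_lit 532) (C.node (nat_lit 2) (nat_lit 5) (nat_lit 11) (C.cons (nat_lit 2596) (C.miq (nat_lit 447889557) (nat_lit 3718656817588403016579678769)) (C.cons (nat_lit 2084) (C.node (nat_lit 2) (nat_lit 5) (nat_lit 9) (C.cons (nat_lit 620)
  (C.miq (nat_lit 2253537402) (nat_lit 749557989023232740424942739)) (C.cons (nat_lit 612) (C.miq (nat_lit 2253537402) (nat_lit 739886582466315707027293331)) (C.cons (nat_lit 556) (C.miq (nat_lit 324667687) (nat_lit 1287527599174104185846366853)) C.nil)))) C.nil))) C.nil)) (C.cons (nat_lit 52) (C.node (nat_lit 1) (nat_lit 2) (nat_lit 4) (C.cons (nat_lit 534) (C.node (nat_lit 4) (nat_lit 9) (nat_lit 11) (C.cons (nat_lit 2576) (C.node (nat_lit 1) (nat_lit 2) (nat_lit 10) (C.cons (nat_lit 1038) (C.miq (nat_lit 1118146864) (nat_lit 1436214222475916906418733579)) (C.cons (nat_lit 1030) (C.node (nat_lit 2) (nat_lit 5) (nat_lit 9) (C.cons (nat_lit 2596)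 (C.miq (nat_lit 2987874624) (nat_lit 162037990008351184351593009)) (C.cons (nat_lit 620) (C.miq (nat_lit 2253537402) (nat_lit 749557989023232740424942739)) (C.cons (nat_lit 612) (C.miq (nat_lit 2253537402) (nat_lit 739886582466315707027293331)) (C.cons (nat_lit 556) (C.miq (nat_lit 324667687) (nat_lit 1287527599174104185846366853)) C.nil))))) C.nil))) C.nil)) (C.cons (nat_lit 22) (C.node (nat_lit 2) (nat_lit 4) (nat_lit 9) (C.cons (nat_lit 532) (C.node (nat_lit 1) (nat_lit 2) (nat_lit 10) C.nil) C.nil)) C.nil))) C.nil))) C.nil))))))))) C.nil))))) C.nil)) (C.cons (nat_lit 1560) (C.miq (nat_lit 323094952) (nat_lit 2510943778980494294530658049)) (C.cons (nat_lit 1552) (C.node (nat_lit 3) (nat_lit 4) (nat_lit 10) (C.cons (nat_lit 1112) (C.node (nat_lit 6) (nat_lit 8) (nat_lit 10) (C.cons (nat_lit 1378) (C.miq (nat_lit 677749767) (nat_lit 1665921694526837486969226387)) (C.cons (nat_lit 1376) (C.miq (nat_lit 677749767) (nat_lit 1663503842887608228619814035))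 (C.cons (nat_lit 1346) (C.miq (nat_lit 372279874) (nat_lit 88256436704429410157921556)) (C.cons (nat_lit 1344) (C.node (nat_lit 2) (nat_lit 3) (nat_lit 8) (C.cons (nat_lit 876) (C.miq (nat_lit 337840777) (nat_lit 2510948575316348127203299073)) (C.cons (nat_lit 844) (C.miq (nat_lit 337840777) (nat_lit 2510948575316348127201201921)) (C.cons (nat_lit 812) (C.miq (nat_lit 337840777) (nat_lit 2510948575316348127199104769)) (C.cons (nat_lit 780) (C.miq (nat_lit 337840777) (nat_lit 2510948575316348127197007617)) (C.cons (nat_lit 364) (C.miq (nat_lit 443024434) (nat_lit 1624801153385364970172844061)) (C.cons (nat_lit 332) (C.miq (nat_lit 443024434) (nat_lit 1624801153385364970170746909)) (C.cons (nat_lit 300) (C.miq (nat_lit 1697122212) (nat_lit 362683963076939317100414099)) (C.cons (nat_lit 268) (C.node (nat_lit 3) (nat_lit 7) (nat_lit 10) (C.cons (nat_lit 1672) (C.node (nat_lit 6) (nat_lit 7) (nat_lit 10) (C.cons (nat_lit 1216) (C.node (nat_lit 2) (nat_lit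 3) (nat_lit 10) (C.cons (nat_lit 1038) (C.miq (nat_lit 409608259) (nat_lit 1624815449356439487671437341)) C.nil)) C.nil)) (C.cons (nat_lit 1160) (C.node (nat_lit 3) (nat_lit 8) (nat_lit 10) (C.cons (nat_lit 1290) (C.node (nat_lit 3) (nat_lit 10) (nat_lit 11) (C.cons (nat_lit 3080) (C.node (nat_lit 5) (nat_lit 8) (nat_lit 10) C.nil) C.nil)) (C.cons (nat_lit 1288) (C.node (nat_lit 6) (nat_lit 7) (nat_lit 10) C.nil) C.nil))) C.nil))) C.nil))))))))) C.nil))))) (C.cons (nat_lit 1048) (C.node (nat_lit 4) (nat_lit 6) (nat_lit 10) (C.cons (nat_lit 1104) (C.node (nat_lit 2) (nat_lit 4) (nat_lit 5) (C.cons (nat_lit 118) (C.miq (nat_lit 2253537402) (nat_lit 142677227576688894722442387)) (C.cons (nat_lit 116) (C.miq (nat_lit 2253537402) (nat_lit 140259375937459636373030035)) (C.cons (nat_lit 54) (C.node (nat_lit 2) (nat_lit 5) (nat_lit 11) (C.cons (nat_lit 2596) (C.miq (nat_lit 447889557) (nat_lit 3718656817588403016579678769)) (C.cons (nat_lit 2084) (C.node (nat_lit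 4) (nat_lit 5) (nat_lit 11) (C.cons (nat_lit 2352) (C.miq (nat_lit 1698827146) (nat_lit 65302157190265263885651713)) (C.cons (nat_lit 2096) (C.node (nat_lit 5) (nat_lit 8) (nat_lit 10) (C.cons (nat_lit 1378) (C.miq (nat_lit 2234229056) (nat_lit 2519472262408747068447065235)) (C.cons (nat_lit 1376) (C.miq (nat_lit 677749767) (nat_lit 1663503842887608228619814035)) (C.cons (nat_lit 1314)
  (C.miq (nat_lit 2234229056) (nat_lit 2519472262390732669937583251)) (C.cons (nat_lit 1312) (C.node (nat_lit 2) (nat_lit 5) (nat_lit 9) (C.cons (nat_lit 876) (C.miq (nat_lit 337840777) (nat_lit 2510948575316348127203299073)) (C.cons (nat_lit 868) (C.miq (nat_lit 2504688144) (nat_lit 1296039332815190105462604039)) (C.cons (nat_lit 812) (C.miq (nat_lit 337840777) (nat_lit 2510948575316348127199104769)) (C.cons (nat_lit 804) (C.miq (nat_lit 1697122212) (nat_lit 971982576162712421152326803)) (C.cons (nat_lit 620) (C.miq (nat_lit 2253537402) (nat_lit 749557989023232740424942739))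 (C.cons (nat_lit 612) (C.miq (nat_lit 2253537402) (nat_lit 739886582466315707027293331)) (C.cons (nat_lit 556) (C.miq (nat_lit 324667687) (nat_lit 1287527599174104185846366853)) (C.cons (nat_lit 548) (C.node (nat_lit 2) (nat_lit 8) (nat_lit 9) (C.cons (nat_lit 844) (C.miq (nat_lit 337840777) (nat_lit 2510948575316348127201201921)) (C.cons (nat_lit 836) (C.miq (nat_lit 1384544832) (nat_lit 1010703914981507387677017235)) (C.cons (nat_lit 780) (C.miq (nat_lit 337840777) (nat_lit 2510948575316348127197007617)) (C.cons (nat_lit 772) (C.node (nat_lit 2) (nat_lit 4) (nat_lit 6) (C.cons (nat_lit 596) (C.node (nat_lit 2) (nat_lit 3) (nat_lit 9) (C.cons (nat_lit 524) (C.node (nat_lit 2) (nat_lit 3) (nat_lit 10) C.nil) C.nil)) (C.cons (nat_lit 84) (C.node (nat_lit 2) (nat_lit 4) (nat_lit 9) C.nil) C.nil))) C.nil))))) C.nil))))))))) C.nil))))) C.nil))) C.nil))) (C.cons (nat_lit 52) (C.node (nat_lit 4) (nat_lit 5) (nat_lit 11) (C.cons (nat_lit 2354) (C.miq (nat_lit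 1698827146) (nat_lit 62884305551036014126173953)) (C.cons (nat_lit 2352) (C.miq (nat_lit 1698827146) (nat_lit 62884305551036005536239361)) (C.cons (nat_lit 2098) (C.node (nat_lit 4) (nat_lit 8) (nat_lit 11) (C.cons (nat_lit 2320) (C.node (nat_lit 2) (nat_lit 5) (nat_lit 11) (C.cons (nat_lit 2596) (C.miq (nat_lit 722965824) (nat_lit 2633052334001307935629836849)) (C.cons (nat_lit 2084) (C.node (nat_lit 4) (nat_lit 5) (nat_lit 6) (C.cons (nat_lit 120) (C.node (nat_lit 4) (nat_lit 6) (nat_lit 11) (C.cons (nat_lit 2640) (C.miq (nat_lit 2486875728) (nat_lit 1267025113643212947461834977)) (C.cons (nat_lit 2128) (C.node (nat_lit 4) (nat_lit 9) (nat_lit 11) C.nil) C.nil))) (C.cons (nat_lit 112) (C.node (nat_lit 4) (nat_lit 6) (nat_lit 11) (C.cons (nat_lit 2640) (C.node (nat_lit 2) (nat_lit 4) (nat_lit 6) C.nil) (C.cons (nat_lit 2128) (C.node (nat_lit 4) (nat_lit 9) (nat_lit 11) C.nil) C.nil))) C.nil))) C.nil))) C.nil)) (C.cons (nat_lit 2096) (C.node (nat_lit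 4) (nat_lit 8) (nat_lit 11) (C.cons (nat_lit 2322) (C.node (nat_lit 4) (nat_lit 6) (nat_lit 11) (C.cons (nat_lit 2640) (C.node (nat_lit 2) (nat_lit 4) (nat_lit 6) (C.cons (nat_lit 86) (C.miq (nat_lit 3026878752) (nat_lit 1334724959452122992624337159)) (C.cons (nat_lit 84) (C.node (nat_lit 4) (nat_lit 6) (nat_lit 7) (C.cons (nat_lit 208) (C.node (nat_lit 1) (nat_lit 3) (nat_lit 7) C.nil) C.nil)) C.nil))) (C.cons (nat_lit 2128) (C.node (nat_lit 4) (nat_lit 9) (nat_lit 11) (C.cons (nat_lit 2576) (C.node (nat_lit 3) (nat_lit 4) (nat_lit 8) C.nil) C.nil)) C.nil))) (C.cons (nat_lit 2320) (C.node (nat_lit 5) (nat_lit 8) (nat_lit 10) (C.cons (nat_lit 1378) (C.miq (nat_lit 677749767) (nat_lit 1665921694526837486969226387)) (C.cons (nat_lit 1376) (C.miq (nat_lit 677749767) (nat_lit 1663503842887608228619814035)) (C.cons (nat_lit 1314) (C.node (nat_lit 5) (nat_lit 8) (nat_lit 11) (C.cons (nat_lit 2344) (C.miq (nat_lit 414491952) (nat_lit 2804729503013118186140533801))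 (C.cons (nat_lit 2336) (C.node (nat_lit 2) (nat_lit 5) (nat_lit 8) (C.cons (nat_lit 876) (C.miq (nat_lit 337840777) (nat_lit 2510948575316348127203299073)) (C.cons (nat_lit 868) (C.miq (nat_lit 354920592) (nat_lit 1436225475209351620907568897)) (C.cons (nat_lit 812) (C.miq (nat_lit 337840777) (nat_lit 2510948575316348127199104769)) (C.cons (nat_lit 804) (C.miq (nat_lit 354920592) (nat_lit 1436225475209351346029661953)) (C.cons (nat_lit 364) (C.miq (nat_lit 405054768) (nat_lit 1571625167006187923904988201))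
  (C.cons (nat_lit 356) (C.node (nat_lit 2) (nat_lit 3) (nat_lit 8) (C.cons (nat_lit 780) (C.miq (nat_lit 337840777) (nat_lit 2510948575316348127197007617)) (C.cons (nat_lit 268) (C.node (nat_lit 2) (nat_lit 8) (nat_lit 9) (C.cons (nat_lit 772) (C.node (nat_lit 4) (nat_lit 5) (nat_lit 7) (C.cons (nat_lit 432) (C.node (nat_lit 2) (nat_lit 5) (nat_lit 11) (C.cons (nat_lit 2598) (C.miq (nat_lit 309566336) (nat_lit 169259263124481086614736641)) C.nil)) (C.cons (nat_lit 184) (C.miq (nat_lit 2222284962) (nat_lit 222448917944844105382364229)) (C.cons (nat_lit 176) (C.miq (nat_lit 2222284962) (nat_lit 212777511387927071984714821)) C.nil)))) C.nil)) C.nil))) (C.cons (nat_lit 300) (C.miq (nat_lit 1697122212) (nat_lit 362683963076939317100414099)) (C.cons (nat_lit 292) (C.miq (nat_lit 1697122212) (nat_lit 353012556520022283702764691)) C.nil))))))))) C.nil))) (C.cons (nat_lit 1312) (C.node (nat_lit 2) (nat_lit 8) (nat_lit 9) (C.cons (nat_lit 876) (C.miq (nat_lit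 337840777) (nat_lit 2510948575316348127203299073)) (C.cons (nat_lit 868) (C.node (nat_lit 2) (nat_lit 3) (nat_lit 8) (C.cons (nat_lit 268) (C.node (nat_lit 2) (nat_lit 4) (nat_lit 6) (C.cons (nat_lit 86) (C.miq (nat_lit 2521465360) (nat_lit 1334724959042858376492155143)) (C.cons (nat_lit 84) (C.node (nat_lit 1) (nat_lit 2) (nat_lit 4) (C.cons (nat_lit 534) (C.miq (nat_lit 1645697344) (nat_lit 162037989521962424595579441)) C.nil)) C.nil))) C.nil)) (C.cons (nat_lit 844) (C.miq (nat_lit 337840777) (nat_lit 2510948575316348127201201921)) (C.cons (nat_lit 836) (C.miq (nat_lit 1384544832) (nat_lit 1010703914981507387677017235)) (C.cons (nat_lit 812) (C.miq (nat_lit 337840777) (nat_lit 2510948575316348127199104769)) (C.cons (nat_lit 804) (C.miq (nat_lit 1697122212) (nat_lit 971982576162712421152326803)) (C.cons (nat_lit 780) (C.miq (nat_lit 337840777) (nat_lit 2510948575316348127197007617)) (C.cons (nat_lit 772) (C.node (nat_lit 2) (nat_lit 3) (nat_lit 8) (C.cons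 (nat_lit 364) (C.node (nat_lit 1) (nat_lit 2) (nat_lit 3) (C.cons (nat_lit 1038) (C.miq (nat_lit 308781904) (nat_lit 236971062073950221470073897)) (C.cons (nat_lit 14) (C.node (nat_lit 3) (nat_lit 8) (nat_lit 11) (C.cons (nat_lit 2314) (C.miq (nat_lit 2545091201) (nat_lit 2640303637867062490324140295)) (C.cons (nat_lit 2312) (C.node (nat_lit 6) (nat_lit 8) (nat_lit 10) (C.cons (nat_lit 1346) (C.miq (nat_lit 916727824) (nat_lit 1334692418844454376239726855)) (C.cons (nat_lit 1344) (C.node (nat_lit 1) (nat_lit 2) (nat_lit 10) (C.cons (nat_lit 1542) (C.node (nat_lit 2) (nat_lit 3) (nat_lit 9) C.nil) C.nil)) C.nil))) C.nil))) C.nil))) (C.cons (nat_lit 332) (C.miq (nat_lit 1384544832) (nat_lit 401405301895734283625104531)) (C.cons (nat_lit 300) (C.miq (nat_lit 1697122212) (nat_lit 362683963076939317100414099)) (C.cons (nat_lit 268) (C.node (nat_lit 2) (nat_lit 5) (nat_lit 8) (C.cons (nat_lit 356) (C.node (nat_lit 4) (nat_lit 5) (nat_lit 7) (C.cons (nat_lit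 432) (C.node (nat_lit 1) (nat_lit 3) (nat_lit 7) (C.cons (nat_lit 138) (C.node (nat_lit 1) (nat_lit 2) (nat_lit 10) C.nil) C.nil)) (C.cons (nat_lit 184) (C.miq (nat_lit 2222284962) (nat_lit 222448917944844105382364229)) (C.cons (nat_lit 176) (C.miq (nat_lit 2222284962) (nat_lit 212777511387927071984714821)) C.nil)))) (C.cons (nat_lit 292) (C.miq (nat_lit 1697122212) (nat_lit 353012556520022283702764691)) C.nil))) C.nil))))) C.nil))))))))) C.nil))))) C.nil))) C.nil))))) C.nil))))) C.nil)) C.nil))) C.nil))))) C.nil)) C.nil))) C.nil))))) C.nil))) (C.cons (nat_lit 1292) (C.miq (nat_lit 896704696) (nat_lit 1436227707195303305108786945)) (C.cons (nat_lit 1284) (C.node (nat_lit 2) (nat_lit 4) (nat_lit 10) (C.cons (nat_lit 1556) (C.node (nat_lit 2) (nat_lit 9) (nat_lit 11) (C.cons (nat_lit 2630) (C.miq (nat_lit 1648867744) (nat_lit 178962951492530531462221569)) (C.cons (nat_lit 2628) (C.miq (nat_lit 1648867744) (nat_lit 178962951491967581508800257)) (C.cons (nat_lit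 2598) (C.miq (nat_lit 1380432288) (nat_lit 178962951483523332207480577)) (C.cons (nat_lit 2596)
  (C.miq (nat_lit 1380432288) (nat_lit 178962951482960382254059265)) (C.cons (nat_lit 2566) (C.miq (nat_lit 934873121) (nat_lit 3249602250881903900261482759)) (C.cons (nat_lit 2564) (C.node (nat_lit 1) (nat_lit 2) (nat_lit 10) (C.cons (nat_lit 1038) (C.node (nat_lit 1) (nat_lit 2) (nat_lit 7) (C.cons (nat_lit 198) (C.miq (nat_lit 811705714) (nat_lit 81017177934309277890380964)) (C.cons (nat_lit 134) (C.node (nat_lit 5) (nat_lit 9) (nat_lit 10) (C.cons (nat_lit 1634) (C.miq (nat_lit 3046377122) (nat_lit 678245699331047701890729029)) (C.cons (nat_lit 1632) (C.miq (nat_lit 3046377122) (nat_lit 678245699331047693300794437)) (C.cons (nat_lit 1570) (C.miq (nat_lit 306815749) (nat_lit 1881117537000738666348348457)) (C.cons (nat_lit 1568) (C.node (nat_lit 1) (nat_lit 9) (nat_lit 10) (C.cons (nat_lit 1602) (C.node (nat_lit 1) (nat_lit 10) (nat_lit 11) (C.cons (nat_lit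 3074) (C.node (nat_lit 2) (nat_lit 6) (nat_lit 11) (C.cons (nat_lit 2118) (C.miq (nat_lit 1444547363) (nat_lit 1936718809444876157423847453)) (C.cons (nat_lit 2116) (C.node (nat_lit 1) (nat_lit 3) (nat_lit 7) (C.cons (nat_lit 202) (C.miq (nat_lit 1737102089) (nat_lit 1702197105758263594157408779)) (C.cons (nat_lit 170) (C.miq (nat_lit 1645677109) (nat_lit 162037989585296458953393193)) (C.cons (nat_lit 138) (C.node (nat_lit 3) (nat_lit 4) (nat_lit 10) (C.cons (nat_lit 1304) (C.miq (nat_lit 1916996008) (nat_lit 2510946177091563806751461121)) (C.cons (nat_lit 1112) (C.miq (nat_lit 2258699314) (nat_lit 1936704014611189166714521629)) (C.cons (nat_lit 1048) (C.node (nat_lit 3) (nat_lit 10) (nat_lit 11) (C.cons (nat_lit 3144) (C.node (nat_lit 3) (nat_lit 8) (nat_lit 10) C.nil) C.nil)) C.nil)))) C.nil)))) C.nil))) C.nil)) (C.cons (nat_lit 1538) (C.node (nat_lit 1) (nat_lit 10) (nat_lit 11) (C.cons (nat_lit 3138) (C.node (nat_lit 2) (nat_lit 6) (nat_lit 11) (C.cons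 (nat_lit 2116) (C.node (nat_lit 3) (nat_lit 10) (nat_lit 11) (C.cons (nat_lit 3080) (C.node (nat_lit 3) (nat_lit 4) (nat_lit 10) (C.cons (nat_lit 1304) (C.miq (nat_lit 1916996008) (nat_lit 2510946177091563806751461121)) (C.cons (nat_lit 1112) (C.miq (nat_lit 2258699314) (nat_lit 3793614073539259579063207965)) C.nil))) C.nil)) C.nil)) (C.cons (nat_lit 3074) (C.node (nat_lit 2) (nat_lit 3) (nat_lit 7) (C.cons (nat_lit 204) (C.node (nat_lit 1) (nat_lit 3) (nat_lit 7) (C.cons (nat_lit 170) (C.miq (nat_lit 1445163169) (nat_lit 246624003787674198794437779)) (C.cons (nat_lit 138) (C.node (nat_lit 3) (nat_lit 10) (nat_lit 11) (C.cons (nat_lit 3144) (C.miq (nat_lit 2586970983) (nat_lit 1254876899991071514941982945)) (C.cons (nat_lit 3080) (C.node (nat_lit 6) (nat_lit 10) (nat_lit 11) (C.cons (nat_lit 3136) (C.node (nat_lit 2) (nat_lit 5) (nat_lit 11) (C.cons (nat_lit 2084) (C.node (nat_lit 1) (nat_lit 2) (nat_lit 11) C.nil) C.nil)) C.nil)) C.nil))) C.nil))) (C.cons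 (nat_lit 140) (C.node (nat_lit 2) (nat_lit 6) (nat_lit 7) (C.cons (nat_lit 196) (C.node (nat_lit 2) (nat_lit 4) (nat_lit 8) (C.cons (nat_lit 308) (C.node (nat_lit 4) (nat_lit 5) (nat_lit 10) (C.cons (nat_lit 1136) (C.miq (nat_lit 1967720098) (nat_lit 678219283593532010919101509)) (C.cons (nat_lit 1072) (C.node (nat_lit 1) (nat_lit 2) (nat_lit 4) (C.cons (nat_lit 22) (C.node (nat_lit 2) (nat_lit 4) (nat_lit 6) C.nil) C.nil)) C.nil))) (C.cons (nat_lit 276) (C.node (nat_lit 2) (nat_lit 5) (nat_lit 11) (C.cons (nat_lit 2086) (C.node (nat_lit 2) (nat_lit 6) (nat_lit 11) C.nil) (C.cons (nat_lit 2084) (C.node (nat_lit 1) (nat_lit 2) (nat_lit 11) C.nil) C.nil))) C.nil))) C.nil)) C.nil))) C.nil))) C.nil))) C.nil))))) C.nil))) (C.cons (nat_lit 1030) (C.node (nat_lit 2) (nat_lit 3) (nat_lit 10) (C.cons (nat_lit 1036) (C.node (nat_lit 2) (nat_lit 4) (nat_lit 8) (C.cons (nat_lit 308) (C.node (nat_lit 4) (nat_lit 5) (nat_lit 10) (C.cons (nat_lit 1136) (C.miq (nat_lit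 1967720098) (nat_lit 678219283593532010919101509)) (C.cons (nat_lit 1072) (C.node (nat_lit 4) (nat_lit 8) (nat_lit 10) (C.cons (nat_lit 1304) (C.miq (nat_lit 1916996008) (nat_lit 2510946177091563806751461121))
  (C.cons (nat_lit 1296) (C.node (nat_lit 1) (nat_lit 2) (nat_lit 4) (C.cons (nat_lit 86) (C.node (nat_lit 2) (nat_lit 6) (nat_lit 11) (C.cons (nat_lit 2116) (C.node (nat_lit 1) (nat_lit 2) (nat_lit 7) (C.cons (nat_lit 142) (C.miq (nat_lit 431108231) (nat_lit 3099688421076795580651667849)) (C.cons (nat_lit 134) (C.node (nat_lit 4) (nat_lit 8) (nat_lit 11) (C.cons (nat_lit 2322) (C.miq (nat_lit 1790189697) (nat_lit 3733164517697633877180416263)) (C.cons (nat_lit 2320) (C.node (nat_lit 1) (nat_lit 2) (nat_lit 11) C.nil) C.nil))) C.nil))) C.nil)) (C.cons (nat_lit 22) (C.node (nat_lit 2) (nat_lit 4) (nat_lit 6) (C.cons (nat_lit 84) (C.node (nat_lit 2) (nat_lit 5) (nat_lit 11) (C.cons (nat_lit 2086) (C.node (nat_lit 2) (nat_lit 6) (nat_lit 11) (C.cons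 (nat_lit 2116) (C.node (nat_lit 4) (nat_lit 5) (nat_lit 11) C.nil) C.nil)) (C.cons (nat_lit 2084) (C.node (nat_lit 1) (nat_lit 2) (nat_lit 11) (C.cons (nat_lit 2118) (C.node (nat_lit 1) (nat_lit 10) (nat_lit 11) C.nil) C.nil)) C.nil))) C.nil)) C.nil))) C.nil))) C.nil))) (C.cons (nat_lit 276) (C.node (nat_lit 2) (nat_lit 5) (nat_lit 11) (C.cons (nat_lit 2086) (C.node (nat_lit 2) (nat_lit 6) (nat_lit 11) (C.cons (nat_lit 2116) (C.node (nat_lit 2) (nat_lit 4) (nat_lit 5) (C.cons (nat_lit 116) (C.miq (nat_lit 3108309542) (nat_lit 678249315334238577343333445)) (C.cons (nat_lit 52) (C.node (nat_lit 4) (nat_lit 5) (nat_lit 11) C.nil) C.nil))) C.nil)) (C.cons (nat_lit 2084) (C.node (nat_lit 1) (nat_lit 2) (nat_lit 11) (C.cons (nat_lit 2118) (C.node (nat_lit 1) (nat_lit 2) (nat_lit 7) (C.cons (nat_lit 142) (C.miq (nat_lit 2602633331) (nat_lit 2560514534672090990218445193)) (C.cons (nat_lit 134) (C.node (nat_lit 1) (nat_lit 10) (nat_lit 11) C.nil) C.nil))) (C.cons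 (nat_lit 2054) (C.node (nat_lit 2) (nat_lit 6) (nat_lit 11) (C.cons (nat_lit 2116) (C.node (nat_lit 1) (nat_lit 2) (nat_lit 4) C.nil) C.nil)) C.nil))) C.nil))) C.nil))) C.nil)) C.nil))) C.nil))))))) (C.cons (nat_lit 1044) (C.node (nat_lit 2) (nat_lit 4) (nat_lit 8) (C.cons (nat_lit 788) (C.miq (nat_lit 1461980041) (nat_lit 178931370566193553570270977)) (C.cons (nat_lit 308) (C.node (nat_lit 4) (nat_lit 5) (nat_lit 7) (C.cons (nat_lit 184) (C.node (nat_lit 4) (nat_lit 7) (nat_lit 8) (C.cons (nat_lit 912) (C.miq (nat_lit 2839873651) (nat_lit 678227031667394770250498441)) (C.cons (nat_lit 400) (C.node (nat_lit 4) (nat_lit 8) (nat_lit 10) (C.cons (nat_lit 1304) (C.miq (nat_lit 1537503363) (nat_lit 3733166325810693573168333193)) (C.cons (nat_lit 1296) (C.node (nat_lit 5) (nat_lit 7) (nat_lit 8) (C.cons (nat_lit 930) (C.miq (nat_lit 659863696) (nat_lit 222480665382209900508155649)) (C.cons (nat_lit 928) (C.miq (nat_lit 659863696) (nat_lit 222480665382209891918221057))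 (C.cons (nat_lit 418) (C.miq (nat_lit 897730320) (nat_lit 372387466380540071576536211)) (C.cons (nat_lit 416) (C.node (nat_lit 1) (nat_lit 5) (nat_lit 7) (C.cons (nat_lit 674) (C.node (nat_lit 4) (nat_lit 5) (nat_lit 11) (C.cons (nat_lit 2098) (C.miq (nat_lit 656083284) (nat_lit 2633078749189657692172583473)) (C.cons (nat_lit 2096) (C.node (nat_lit 5) (nat_lit 9) (nat_lit 11) (C.cons (nat_lit 2600) (C.miq (nat_lit 1133579095) (nat_lit 632289805380396065843448033)) (C.cons (nat_lit 2596) (C.miq (nat_lit 364149024) (nat_lit 2533930119239298348243288709)) (C.cons (nat_lit 2592) (C.node (nat_lit 2) (nat_lit 5) (nat_lit 9) (C.cons (nat_lit 620) (C.miq (nat_lit 2754742102) (nat_lit 2510959089960465348447439073)) (C.cons (nat_lit 612) (C.miq (nat_lit 1612262005) (nat_lit 632279493373481347612542116)) (C.cons (nat_lit 556) (C.miq (nat_lit 355760416) (nat_lit 222463952136118604471796357)) (C.cons (nat_lit 548) (C.node (nat_lit 3) (nat_lit 5) (nat_lit 11) (C.cons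 (nat_lit 2346) (C.miq (nat_lit 588843863) (nat_lit 632280102393012203697604833)) (C.cons (nat_lit 2344) (C.miq (nat_lit 883447563) (nat_lit 1566811101440464610981382369)) (C.cons (nat_lit 2090) (C.miq (nat_lit 588843863) (nat_lit 632280102393011104185977057)) (C.cons (nat_lit 2088) (C.node (nat_lit 1) (nat_lit 4) (nat_lit 5)
  (C.cons (nat_lit 114) (C.node (nat_lit 1) (nat_lit 7) (nat_lit 8) (C.cons (nat_lit 450) (C.miq (nat_lit 2157405265) (nat_lit 779765454781128463656026226)) C.nil)) (C.cons (nat_lit 50) (C.node (nat_lit 1) (nat_lit 7) (nat_lit 8) (C.cons (nat_lit 450) (C.node (nat_lit 7) (nat_lit 8) (nat_lit 9) C.nil) C.nil)) C.nil))) C.nil))))) C.nil))))) C.nil)))) C.nil))) (C.cons (nat_lit 162) (C.node (nat_lit 5) (nat_lit 7) (nat_lit 9) (C.cons (nat_lit 672) (C.node (nat_lit 4) (nat_lit 6) (nat_lit 7) (C.cons (nat_lit 208) (C.node (nat_lit 4) (nat_lit 7) (nat_lit 9) C.nil) C.nil)) C.nil)) C.nil))) C.nil))))) C.nil))) C.nil))) (C.cons (nat_lit 176)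 (C.node (nat_lit 4) (nat_lit 5) (nat_lit 10) (C.cons (nat_lit 1136) (C.node (nat_lit 4) (nat_lit 8) (nat_lit 10) (C.cons (nat_lit 1304) (C.miq (nat_lit 1984431523) (nat_lit 407415251420348500961395753)) (C.cons (nat_lit 1296) (C.node (nat_lit 3) (nat_lit 4) (nat_lit 5) (C.cons (nat_lit 58) (C.node (nat_lit 4) (nat_lit 5) (nat_lit 11) (C.cons (nat_lit 2096) (C.node (nat_lit 5) (nat_lit 9) (nat_lit 10) (C.cons (nat_lit 1570) (C.miq (nat_lit 2773193008) (nat_lit 2533979372298165831251853835)) (C.cons (nat_lit 1568) (C.node (nat_lit 1) (nat_lit 5) (nat_lit 7) (C.cons (nat_lit 930) (C.miq (nat_lit 659863696) (nat_lit 212809258825292867110506241)) (C.cons (nat_lit 674) (C.miq (nat_lit 1967296816) (nat_lit 372361050780947712017498635)) (C.cons (nat_lit 418) (C.miq (nat_lit 997278341) (nat_lit 2633041505616452606859804980)) (C.cons (nat_lit 162) (C.node (nat_lit 5) (nat_lit 7) (nat_lit 8) (C.cons (nat_lit 928) (C.miq (nat_lit 659863696) (nat_lit 212809258825292858520571649))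 (C.cons (nat_lit 416) (C.node (nat_lit 2) (nat_lit 3) (nat_lit 5) (C.cons (nat_lit 620) (C.miq (nat_lit 2534744131) (nat_lit 195857419940452015613282333)) (C.cons (nat_lit 556) (C.miq (nat_lit 2534744131) (nat_lit 195856239348831298201978909)) (C.cons (nat_lit 108) (C.miq (nat_lit 359285536) (nat_lit 1373361332235855068928477213)) (C.cons (nat_lit 44) (C.node (nat_lit 3) (nat_lit 5) (nat_lit 7) (C.cons (nat_lit 168) (C.node (nat_lit 5) (nat_lit 7) (nat_lit 9) C.nil) C.nil)) C.nil))))) C.nil))) C.nil))))) C.nil))) C.nil)) (C.cons (nat_lit 56) (C.node (nat_lit 1) (nat_lit 4) (nat_lit 5) (C.cons (nat_lit 2098) (C.node (nat_lit 4) (nat_lit 8) (nat_lit 11) (C.cons (nat_lit 2320) (C.node (nat_lit 2) (nat_lit 5) (nat_lit 11) (C.cons (nat_lit 2596) (C.miq (nat_lit 722965824) (nat_lit 2633052334001307935629836849)) (C.cons (nat_lit 2084) (C.node (nat_lit 3) (nat_lit 4) (nat_lit 10) (C.cons (nat_lit 1560) (C.node (nat_lit 3) (nat_lit 7) (nat_lit 10) (C.cons (nat_lit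 1224) (C.miq (nat_lit 923379284) (nat_lit 779785930916725938577278064)) (C.cons (nat_lit 1160) (C.node (nat_lit 4) (nat_lit 6) (nat_lit 11) (C.cons (nat_lit 2640) (C.miq (nat_lit 1681242528) (nat_lit 67741776090799414329282305)) (C.cons (nat_lit 2128) (C.node (nat_lit 4) (nat_lit 9) (nat_lit 11) C.nil) C.nil))) C.nil))) (C.cons (nat_lit 1048) (C.node (nat_lit 4) (nat_lit 9) (nat_lit 10) (C.cons (nat_lit 1552) (C.node (nat_lit 4) (nat_lit 6) (nat_lit 11) C.nil) C.nil)) C.nil))) C.nil))) C.nil)) (C.cons (nat_lit 50) (C.node (nat_lit 4) (nat_lit 5) (nat_lit 11) (C.cons (nat_lit 2096) (C.node (nat_lit 3) (nat_lit 4) (nat_lit 10) (C.cons (nat_lit 1560) (C.node (nat_lit 3) (nat_lit 7) (nat_lit 10) (C.cons (nat_lit 1224) (C.miq (nat_lit 923379284) (nat_lit 779785930916725938577278064)) (C.cons (nat_lit 1160) (C.node (nat_lit 2) (nat_lit 3) (nat_lit 10) (C.cons (nat_lit 1038) (C.node (nat_lit 2) (nat_lit 9) (nat_lit 10) (C.cons (nat_lit 1540) (C.node (nat_lit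 3) (nat_lit 4) (nat_lit 8) (C.cons (nat_lit 282) (C.miq (nat_lit 1681524754) (nat_lit 1885944440984952355481846023)) C.nil)) C.nil)) (C.cons (nat_lit 1036) (C.node (nat_lit 1) (nat_lit 2) (nat_lit 10) (C.cons (nat_lit 1542) (C.node (nat_lit 5) (nat_lit 9) (nat_lit 10) C.nil) (C.cons (nat_lit 1030) (C.node (nat_lit 2) (nat_lit 9) (nat_lit 10) (C.cons (nat_lit 1540)
  (C.node (nat_lit 5) (nat_lit 8) (nat_lit 10) C.nil) C.nil)) C.nil))) C.nil))) C.nil))) (C.cons (nat_lit 1048) (C.node (nat_lit 4) (nat_lit 9) (nat_lit 10) (C.cons (nat_lit 1552) (C.node (nat_lit 4) (nat_lit 7) (nat_lit 8) (C.cons (nat_lit 912) (C.node (nat_lit 3) (nat_lit 4) (nat_lit 7) (C.cons (nat_lit 152) (C.node (nat_lit 4) (nat_lit 6) (nat_lit 7) C.nil) C.nil)) (C.cons (nat_lit 400) (C.node (nat_lit 4) (nat_lit 8) (nat_lit 11) (C.cons (nat_lit 2322) (C.node (nat_lit 1) (nat_lit 3) (nat_lit 4) C.nil) C.nil)) C.nil))) C.nil)) C.nil))) C.nil)) C.nil))) C.nil))) C.nil))) (C.cons (nat_lit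 1072) (C.node (nat_lit 4) (nat_lit 5) (nat_lit 11) (C.cons (nat_lit 2098) (C.node (nat_lit 4) (nat_lit 8) (nat_lit 11) (C.cons (nat_lit 2320) (C.node (nat_lit 2) (nat_lit 5) (nat_lit 11) (C.cons (nat_lit 2596) (C.miq (nat_lit 722965824) (nat_lit 2633052334001307935629836849)) (C.cons (nat_lit 2084) (C.node (nat_lit 3) (nat_lit 4) (nat_lit 5) (C.cons (nat_lit 120) (C.node (nat_lit 4) (nat_lit 8) (nat_lit 10) (C.cons (nat_lit 1304) (C.miq (nat_lit 3091597877) (nat_lit 407449931740560559877653545)) (C.cons (nat_lit 1296) (C.node (nat_lit 2) (nat_lit 3) (nat_lit 5) (C.cons (nat_lit 556) (C.miq (nat_lit 324667687) (nat_lit 1287527599174104185846366853)) (C.cons (nat_lit 46) (C.miq (nat_lit 274933829) (nat_lit 88252433456124686679671092)) (C.cons (nat_lit 44) (C.node (nat_lit 2) (nat_lit 3) (nat_lit 7) (C.cons (nat_lit 206) (C.miq (nat_lit 2452883301) (nat_lit 2510949276144562391672686817)) (C.cons (nat_lit 204) (C.miq (nat_lit 2452883301) (nat_lit 2510949276144562383082752225))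 (C.cons (nat_lit 142) (C.miq (nat_lit 2608007201) (nat_lit 2640303638766656515749052679)) (C.cons (nat_lit 140) (C.node (nat_lit 1) (nat_lit 2) (nat_lit 7) (C.cons (nat_lit 198) (C.node (nat_lit 1) (nat_lit 2) (nat_lit 3) (C.cons (nat_lit 1038) (C.miq (nat_lit 1697804449) (nat_lit 53196389158167474449810579)) (C.cons (nat_lit 14) (C.node (nat_lit 1) (nat_lit 2) (nat_lit 11) (C.cons (nat_lit 2566) (C.miq (nat_lit 309566336) (nat_lit 169259263115473887359995649)) C.nil)) C.nil))) (C.cons (nat_lit 134) (C.node (nat_lit 2) (nat_lit 6) (nat_lit 7) (C.cons (nat_lit 196) (C.node (nat_lit 3) (nat_lit 4) (nat_lit 7) C.nil) C.nil)) C.nil))) C.nil))))) C.nil)))) C.nil))) (C.cons (nat_lit 56) (C.node (nat_lit 4) (nat_lit 5) (nat_lit 6) (C.cons (nat_lit 112) (C.node (nat_lit 4) (nat_lit 6) (nat_lit 11) (C.cons (nat_lit 2640) (C.node (nat_lit 1) (nat_lit 9) (nat_lit 11) (C.cons (nat_lit 2566) (C.miq (nat_lit 934873121) (nat_lit 3249602250881903900261482759)) (C.cons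 (nat_lit 2562) (C.node (nat_lit 2) (nat_lit 9) (nat_lit 11) C.nil) C.nil))) (C.cons (nat_lit 2128) (C.node (nat_lit 4) (nat_lit 9) (nat_lit 11) (C.cons (nat_lit 2576) (C.node (nat_lit 4) (nat_lit 7) (nat_lit 8) C.nil) C.nil)) C.nil))) C.nil)) C.nil))) C.nil))) C.nil)) (C.cons (nat_lit 2096) (C.node (nat_lit 4) (nat_lit 7) (nat_lit 8) (C.cons (nat_lit 912) (C.node (nat_lit 3) (nat_lit 4) (nat_lit 7) (C.cons (nat_lit 216) (C.node (nat_lit 2) (nat_lit 3) (nat_lit 7) (C.cons (nat_lit 142) (C.miq (nat_lit 428290226) (nat_lit 1102542967073428184037066781)) (C.cons (nat_lit 140) (C.node (nat_lit 3) (nat_lit 7) (nat_lit 10) (C.cons (nat_lit 1672) (C.miq (nat_lit 1621313687) (nat_lit 1287509982481173556555678608)) (C.cons (nat_lit 1160) (C.node (nat_lit 6) (nat_lit 7) (nat_lit 8) (C.cons (nat_lit 450) (C.miq (nat_lit 389187136) (nat_lit 169254466366404137439789393)) C.nil)) C.nil))) C.nil))) (C.cons (nat_lit 152) (C.node (nat_lit 4) (nat_lit 6) (nat_lit 7) (C.cons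 (nat_lit 208) (C.node (nat_lit 4) (nat_lit 8) (nat_lit 10) (C.cons (nat_lit 1304) (C.node (nat_lit 2) (nat_lit 8) (nat_lit 9) (C.cons (nat_lit 844) (C.miq (nat_lit 1949436553) (nat_lit 2510950825819125136946368257)) (C.cons (nat_lit 836) (C.miq (nat_lit 2760247186) (nat_lit 407428163831013711209038469)) (C.cons (nat_lit 780) (C.miq (nat_lit 1949436553) (nat_lit 2510950825819125136942173953)) (C.cons (nat_lit 772) (C.node (nat_lit 3) (nat_lit 8) (nat_lit 11)
  (C.cons (nat_lit 2378) (C.miq (nat_lit 1665644704) (nat_lit 183798654700056271698202369)) (C.cons (nat_lit 2376) (C.miq (nat_lit 1665644704) (nat_lit 183798654699493321744781057)) (C.cons (nat_lit 2346) (C.miq (nat_lit 1397209248) (nat_lit 183798654691049072443461377)) (C.cons (nat_lit 2344) (C.miq (nat_lit 1397209248) (nat_lit 183798654690486122490040065)) (C.cons (nat_lit 2314) (C.miq (nat_lit 410598176) (nat_lit 1102549995787035916118591517)) (C.cons (nat_lit 2312) (C.node (nat_lit 1) (nat_lit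 4) (nat_lit 8) (C.cons (nat_lit 2322) (C.node (nat_lit 4) (nat_lit 6) (nat_lit 11) C.nil) (C.cons (nat_lit 274) (C.node (nat_lit 4) (nat_lit 8) (nat_lit 11) (C.cons (nat_lit 2320) (C.node (nat_lit 5) (nat_lit 7) (nat_lit 8) C.nil) C.nil)) C.nil))) C.nil))))))) C.nil))))) (C.cons (nat_lit 1296) (C.node (nat_lit 3) (nat_lit 4) (nat_lit 8) (C.cons (nat_lit 282) (C.node (nat_lit 4) (nat_lit 8) (nat_lit 11) (C.cons (nat_lit 2320) (C.node (nat_lit 5) (nat_lit 7) (nat_lit 8) C.nil) C.nil)) (C.cons (nat_lit 280) (C.node (nat_lit 1) (nat_lit 4) (nat_lit 8) (C.cons (nat_lit 2322) (C.node (nat_lit 5) (nat_lit 7) (nat_lit 8) C.nil) (C.cons (nat_lit 274) (C.node (nat_lit 4) (nat_lit 8) (nat_lit 11) C.nil) C.nil))) C.nil))) C.nil))) C.nil)) C.nil))) (C.cons (nat_lit 400) (C.node (nat_lit 4) (nat_lit 8) (nat_lit 10) (C.cons (nat_lit 1304) (C.node (nat_lit 3) (nat_lit 8) (nat_lit 11) (C.cons (nat_lit 2378) (C.miq (nat_lit 1755820864) (nat_lit 1702209484136030515129157661))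 (C.cons (nat_lit 2376) (C.miq (nat_lit 1755820864) (nat_lit 1702209484135467565175736349)) (C.cons (nat_lit 2346) (C.miq (nat_lit 880118283) (nat_lit 212814220680820056542744321)) (C.cons (nat_lit 2344) (C.miq (nat_lit 880118283) (nat_lit 212814183787331909123641089)) (C.cons (nat_lit 2314) (C.miq (nat_lit 2545091201) (nat_lit 2640303637867062490324140295)) (C.cons (nat_lit 2312) (C.node (nat_lit 4) (nat_lit 6) (nat_lit 10) (C.cons (nat_lit 1616) (C.node (nat_lit 4) (nat_lit 6) (nat_lit 7) (C.cons (nat_lit 216) (C.miq (nat_lit 1803776164) (nat_lit 2795040480085551692301993107)) (C.cons (nat_lit 208) (C.node (nat_lit 7) (nat_lit 9) (nat_lit 10) (C.cons (nat_lit 1672) (C.miq (nat_lit 2517083267) (nat_lit 2747919231395008366271595800)) (C.cons (nat_lit 1664) (C.node (nat_lit 2) (nat_lit 4) (nat_lit 6) (C.cons (nat_lit 86) (C.node (nat_lit 2) (nat_lit 4) (nat_lit 9) (C.cons (nat_lit 532) (C.node (nat_lit 4) (nat_lit 6) (nat_lit 11) C.nil) C.nil)) (C.cons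 (nat_lit 84) (C.node (nat_lit 3) (nat_lit 4) (nat_lit 7) C.nil) C.nil))) C.nil))) C.nil))) (C.cons (nat_lit 1104) (C.node (nat_lit 4) (nat_lit 9) (nat_lit 10) (C.cons (nat_lit 1552) (C.node (nat_lit 4) (nat_lit 8) (nat_lit 9) (C.cons (nat_lit 786) (C.node (nat_lit 4) (nat_lit 8) (nat_lit 11) (C.cons (nat_lit 2320) (C.node (nat_lit 1) (nat_lit 2) (nat_lit 4) (C.cons (nat_lit 22) (C.node (nat_lit 1) (nat_lit 4) (nat_lit 11) C.nil) C.nil)) C.nil)) (C.cons (nat_lit 784) (C.node (nat_lit 1) (nat_lit 4) (nat_lit 8) (C.cons (nat_lit 2322) (C.node (nat_lit 5) (nat_lit 8) (nat_lit 11) C.nil) (C.cons (nat_lit 274) (C.node (nat_lit 4) (nat_lit 8) (nat_lit 11) C.nil) C.nil))) C.nil))) C.nil)) C.nil))) C.nil))))))) (C.cons (nat_lit 1296) (C.node (nat_lit 4) (nat_lit 8) (nat_lit 11) (C.cons (nat_lit 2322) (C.node (nat_lit 3) (nat_lit 4) (nat_lit 8) (C.cons (nat_lit 792) (C.node (nat_lit 3) (nat_lit 4) (nat_lit 7) (C.cons (nat_lit 216) (C.miq (nat_lit 2474345568) (nat_lit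 2640364844205266345362784593)) (C.cons (nat_lit 152) (C.node (nat_lit 4) (nat_lit 6) (nat_lit 7) (C.cons (nat_lit 208) (C.node (nat_lit 4) (nat_lit 7) (nat_lit 9) C.nil) C.nil)) C.nil))) (C.cons (nat_lit 280) (C.node (nat_lit 4) (nat_lit 8) (nat_lit 9) (C.cons (nat_lit 784) (C.node (nat_lit 4) (nat_lit 6) (nat_lit 11) (C.cons (nat_lit 2640) (C.node (nat_lit 1) (nat_lit 4) (nat_lit 9) (C.cons (nat_lit 530) (C.node (nat_lit 2) (nat_lit 4) (nat_lit 9) C.nil) C.nil)) (C.cons (nat_lit 2128) (C.node (nat_lit 4) (nat_lit 9) (nat_lit 11) C.nil) C.nil))) C.nil)) C.nil)))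
  (C.cons (nat_lit 2320) (C.node (nat_lit 1) (nat_lit 2) (nat_lit 7) (C.cons (nat_lit 206) (C.miq (nat_lit 2608007201) (nat_lit 2640303638766656515753246983)) (C.cons (nat_lit 198) (C.node (nat_lit 2) (nat_lit 3) (nat_lit 7) (C.cons (nat_lit 140) (C.node (nat_lit 1) (nat_lit 3) (nat_lit 7) (C.cons (nat_lit 170) (C.miq (nat_lit 1613834839) (nat_lit 632271856421434376558609572)) (C.cons (nat_lit 138) (C.node (nat_lit 3) (nat_lit 5) (nat_lit 7) (C.cons (nat_lit 168) (C.node (nat_lit 6) (nat_lit 7) (nat_lit 8) C.nil) C.nil)) C.nil))) C.nil)) (C.cons (nat_lit 142) (C.miq (nat_lit 2608007201) (nat_lit 2640303638766656515749052679)) (C.cons (nat_lit 134) (C.node (nat_lit 2) (nat_lit 3) (nat_lit 7) (C.cons (nat_lit 204) (C.node (nat_lit 2) (nat_lit 3) (nat_lit 8) (C.cons (nat_lit 780) (C.miq (nat_lit 2422442866) (nat_lit 88265974373400571223476612)) (C.cons (nat_lit 268) (C.node (nat_lit 6) (nat_lit 7) (nat_lit 10) (C.cons (nat_lit 1728) (C.miq (nat_lit 2537268768)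 (nat_lit 2640364844468726872011506757)) (C.cons (nat_lit 1216) (C.node (nat_lit 1) (nat_lit 3) (nat_lit 7) (C.cons (nat_lit 138) (C.node (nat_lit 3) (nat_lit 4) (nat_lit 7) C.nil) C.nil)) C.nil))) C.nil))) (C.cons (nat_lit 140) (C.node (nat_lit 2) (nat_lit 6) (nat_lit 7) (C.cons (nat_lit 196) (C.node (nat_lit 5) (nat_lit 7) (nat_lit 8) (C.cons (nat_lit 930) (C.miq (nat_lit 846269321) (nat_lit 162005708060144848735440641)) (C.cons (nat_lit 928) (C.miq (nat_lit 659863696) (nat_lit 212809258825292858520571649)) (C.cons (nat_lit 418) (C.node (nat_lit 1) (nat_lit 3) (nat_lit 7) C.nil) C.nil)))) C.nil)) C.nil))) C.nil))))) C.nil))) C.nil))) C.nil))) C.nil))) C.nil))) C.nil))) (C.cons (nat_lit 276) (C.node (nat_lit 1) (nat_lit 2) (nat_lit 7) (C.cons (nat_lit 206) (C.miq (nat_lit 2608007201) (nat_lit 2640303638766656515753246983)) (C.cons (nat_lit 198) (C.node (nat_lit 2) (nat_lit 3) (nat_lit 7) (C.cons (nat_lit 140) (C.node (nat_lit 1) (nat_lit 3) (nat_lit 7)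 (C.cons (nat_lit 170) (C.miq (nat_lit 1613834839) (nat_lit 632271856421434376558609572)) (C.cons (nat_lit 138) (C.node (nat_lit 1) (nat_lit 2) (nat_lit 10) (C.cons (nat_lit 1542) (C.miq (nat_lit 2440798816) (nat_lit 2633111289498684725538128965)) (C.cons (nat_lit 1038) (C.miq (nat_lit 1394018854) (nat_lit 166873692855873676306154565)) (C.cons (nat_lit 1030) (C.node (nat_lit 2) (nat_lit 6) (nat_lit 11) (C.cons (nat_lit 2628) (C.miq (nat_lit 2451224176) (nat_lit 1245264448886772257610991841)) (C.cons (nat_lit 2116) (C.node (nat_lit 1) (nat_lit 2) (nat_lit 3) (C.cons (nat_lit 46) (C.node (nat_lit 1) (nat_lit 2) (nat_lit 11) (C.cons (nat_lit 2566) (C.miq (nat_lit 309566336) (nat_lit 169259263115473887359995649)) (C.cons (nat_lit 2054) (C.node (nat_lit 1) (nat_lit 2) (nat_lit 4) (C.cons (nat_lit 534) (C.node (nat_lit 2) (nat_lit 4) (nat_lit 5) (C.cons (nat_lit 116) (C.miq (nat_lit 2506244209) (nat_lit 140245245794549569574798483)) C.nil)) C.nil)) C.nil)))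 (C.cons (nat_lit 14) (C.node (nat_lit 2) (nat_lit 3) (nat_lit 10) (C.cons (nat_lit 1548) (C.node (nat_lit 7) (nat_lit 9) (nat_lit 10) (C.cons (nat_lit 1728) (C.miq (nat_lit 997793898) (nat_lit 3249621159268582613198046277)) C.nil)) (C.cons (nat_lit 1036) (C.node (nat_lit 2) (nat_lit 9) (nat_lit 10) C.nil) C.nil))) C.nil))) C.nil))) C.nil)))) C.nil))) C.nil)) (C.cons (nat_lit 142) (C.miq (nat_lit 2608007201) (nat_lit 2640303638766656515749052679)) (C.cons (nat_lit 134) (C.node (nat_lit 2) (nat_lit 3) (nat_lit 7) (C.cons (nat_lit 204) (C.node (nat_lit 6) (nat_lit 7) (nat_lit 10) (C.cons (nat_lit 1728) (C.miq (nat_lit 2537268768) (nat_lit 2640364844468726872011506757)) (C.cons (nat_lit 1216) (C.node (nat_lit 2) (nat_lit 3) (nat_lit 9) (C.cons (nat_lit 1548) (C.miq (nat_lit 2474353248) (nat_lit 2640364844418061376216433733)) (C.cons (nat_lit 812) (C.miq (nat_lit 324667687) (nat_lit 1287527599174105285357994629)) (C.cons (nat_lit 780) (C.miq (nat_lit 2422442866)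 (nat_lit 88265974373400571223476612)) (C.cons (nat_lit 556)
  (C.miq (nat_lit 324667687) (nat_lit 1287527599174104185846366853)) (C.cons (nat_lit 524) (C.node (nat_lit 1) (nat_lit 3) (nat_lit 7) (C.cons (nat_lit 170) (C.node (nat_lit 1) (nat_lit 2) (nat_lit 3) (C.cons (nat_lit 1038) (C.miq (nat_lit 1445163169) (nat_lit 246624003787674198794437779)) (C.cons (nat_lit 14) (C.node (nat_lit 2) (nat_lit 3) (nat_lit 10) (C.cons (nat_lit 1036) (C.node (nat_lit 5) (nat_lit 7) (nat_lit 9) (C.cons (nat_lit 928) (C.miq (nat_lit 1114966921) (nat_lit 1436214222910238799838580481)) C.nil)) C.nil)) C.nil))) (C.cons (nat_lit 138) (C.node (nat_lit 2) (nat_lit 3) (nat_lit 8) (C.cons (nat_lit 300) (C.node (nat_lit 3) (nat_lit 8) (nat_lit 11) (C.cons (nat_lit 2378) (C.miq (nat_lit 2200548976) (nat_lit 633547984091401176767334625)) (C.cons (nat_lit 2376) (C.miq (nat_lit 2200548976) (nat_lit 633547984090838226813913313)) (C.cons (nat_lit 2314) (C.miq (nat_lit 2545091201) (nat_lit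 2640303637867062490324140295)) (C.cons (nat_lit 2312) (C.node (nat_lit 1) (nat_lit 2) (nat_lit 3) (C.cons (nat_lit 1038) (C.node (nat_lit 2) (nat_lit 9) (nat_lit 10) (C.cons (nat_lit 1540) (C.node (nat_lit 2) (nat_lit 6) (nat_lit 8) C.nil) C.nil)) (C.cons (nat_lit 14) (C.node (nat_lit 2) (nat_lit 3) (nat_lit 10) C.nil) C.nil))) C.nil))))) (C.cons (nat_lit 268) (C.node (nat_lit 2) (nat_lit 3) (nat_lit 5) (C.cons (nat_lit 46) (C.node (nat_lit 2) (nat_lit 3) (nat_lit 10) C.nil) (C.cons (nat_lit 44) (C.node (nat_lit 3) (nat_lit 7) (nat_lit 10) C.nil) C.nil))) C.nil))) C.nil))) C.nil)))))) C.nil))) (C.cons (nat_lit 140) (C.node (nat_lit 2) (nat_lit 6) (nat_lit 7) (C.cons (nat_lit 196) (C.node (nat_lit 4) (nat_lit 5) (nat_lit 11) (C.cons (nat_lit 2354) (C.miq (nat_lit 2458126261) (nat_lit 333673875018624825950341345)) (C.cons (nat_lit 2352) (C.miq (nat_lit 2458126261) (nat_lit 333673875018624825950210273)) (C.cons (nat_lit 2098) (C.node (nat_lit 4) (nat_lit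 8) (nat_lit 11) (C.cons (nat_lit 2320) (C.node (nat_lit 2) (nat_lit 5) (nat_lit 11) (C.cons (nat_lit 2596) (C.miq (nat_lit 722965824) (nat_lit 2633052334001307935629836849)) (C.cons (nat_lit 2084) (C.node (nat_lit 1) (nat_lit 2) (nat_lit 11) (C.cons (nat_lit 2630) (C.miq (nat_lit 309566336) (nat_lit 169259263133488285869477633)) C.nil)) C.nil))) C.nil)) (C.cons (nat_lit 2096) (C.node (nat_lit 4) (nat_lit 8) (nat_lit 11) (C.cons (nat_lit 2322) (C.node (nat_lit 4) (nat_lit 6) (nat_lit 11) (C.cons (nat_lit 2640) (C.node (nat_lit 1) (nat_lit 4) (nat_lit 9) (C.cons (nat_lit 534) (C.node (nat_lit 2) (nat_lit 9) (nat_lit 11) (C.cons (nat_lit 2596) (C.miq (nat_lit 2987874624) (nat_lit 162037990008351184351593009)) C.nil)) (C.cons (nat_lit 530) (C.node (nat_lit 2) (nat_lit 4) (nat_lit 9) (C.cons (nat_lit 532) (C.node (nat_lit 2) (nat_lit 6) (nat_lit 11) (C.cons (nat_lit 2118) (C.node (nat_lit 2) (nat_lit 5) (nat_lit 11) C.nil) C.nil)) C.nil)) C.nil))) (C.cons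 (nat_lit 2128) (C.node (nat_lit 4) (nat_lit 9) (nat_lit 11) (C.cons (nat_lit 2576) (C.node (nat_lit 5) (nat_lit 8) (nat_lit 11) (C.cons (nat_lit 2344) (C.node (nat_lit 6) (nat_lit 8) (nat_lit 11) C.nil) (C.cons (nat_lit 2336) (C.node (nat_lit 3) (nat_lit 8) (nat_lit 11) C.nil) C.nil))) C.nil)) C.nil))) (C.cons (nat_lit 2320) (C.node (nat_lit 1) (nat_lit 2) (nat_lit 10) (C.cons (nat_lit 1542) (C.node (nat_lit 2) (nat_lit 3) (nat_lit 10) (C.cons (nat_lit 1036) (C.node (nat_lit 2) (nat_lit 9) (nat_lit 11) (C.cons (nat_lit 2628) (C.miq (nat_lit 1645722016) (nat_lit 162037990017362712933371649)) (C.cons (nat_lit 2596) (C.miq (nat_lit 1377286560) (nat_lit 162037990008355513678630657)) (C.cons (nat_lit 2564) (C.node (nat_lit 2) (nat_lit 4) (nat_lit 9) C.nil) C.nil)))) C.nil)) (C.cons (nat_lit 1038) (C.node (nat_lit 2) (nat_lit 9) (nat_lit 10) (C.cons (nat_lit 1540) (C.node (nat_lit 1) (nat_lit 10) (nat_lit 11) (C.cons (nat_lit 3138) (C.node (nat_lit 3) (nat_lit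 10) (nat_lit 11) C.nil) (C.cons (nat_lit 3074) (C.node (nat_lit 3) (nat_lit 10) (nat_lit 11) (C.cons (nat_lit 3080) (C.node (nat_lit 6) (nat_lit 10) (nat_lit 11) (C.cons (nat_lit 3136)
  (C.node (nat_lit 3) (nat_lit 8) (nat_lit 10) C.nil) C.nil)) C.nil)) C.nil))) C.nil)) (C.cons (nat_lit 1030) (C.node (nat_lit 2) (nat_lit 3) (nat_lit 10) (C.cons (nat_lit 1548) (C.node (nat_lit 7) (nat_lit 9) (nat_lit 10) (C.cons (nat_lit 1728) (C.miq (nat_lit 997793898) (nat_lit 3249621159268582613198046277)) (C.cons (nat_lit 1664) (C.node (nat_lit 3) (nat_lit 7) (nat_lit 10) C.nil) C.nil))) (C.cons (nat_lit 1036) (C.node (nat_lit 2) (nat_lit 9) (nat_lit 10) (C.cons (nat_lit 1540) (C.node (nat_lit 2) (nat_lit 5) (nat_lit 11) (C.cons (nat_lit 2598) (C.miq (nat_lit 309566336) (nat_lit 169259263124481086614736641)) C.nil)) C.nil)) C.nil))) C.nil)))) C.nil))) C.nil))))) C.nil)) C.nil))) C.nil))))) C.nil)))) C.nil))) C.nil)))) List.nil)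

theorem ok12_290 : okL par12 (nat_lit 291) c12_290 (nat_lit 290) = true := by decide +kernel

noncomputable def c12_291 : List C :=
  (List.cons (C.node (nat_lit 4) (nat_lit 5) (nat_lit 7) (C.cons (nat_lit 432) (C.node (nat_lit 4) (nat_lit 5) (nat_lit 11) (C.cons (nat_lit 2098) (C.node (nat_lit 4) (nat_lit 8) (nat_lit 11) (C.cons (nat_lit 2320) (C.node (nat_lit 3) (nat_lit 5) (nat_lit 11) (C.cons (nat_lit 2344) (C.miq (nat_lit 361188144) (nat_lit 522277555801374685926066205)) (C.cons (nat_lit 2088) (C.node (nat_lit 5) (nat_lit 8) (nat_lit 11) (C.cons (nat_lit 2336) (C.node (nat_lit 5) (nat_lit 9) (nat_lit 11) (C.cons (nat_lit 2596) (C.miq (nat_lit 722965824) (nat_lit 2633052334001307935629836849)) (C.cons (nat_lit 2592) (C.node (nat_lit 2) (nat_lit 5) (nat_lit 11) (C.cons (nat_lit 3108) (C.node (nat_lit 2) (nat_lit 8) (nat_lit 10) (C.cons (nat_lit 1300) (C.miq (nat_lit 942278581) (nat_lit 1571623211392086556381808865)) (C.cons (nat_lit 1292) (C.miq (nat_lit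 2776117426) (nat_lit 522279787566643649030916125)) (C.cons (nat_lit 1284) (C.miq (nat_lit 942278581) (nat_lit 1552280398278252489586510049)) C.nil)))) (C.cons (nat_lit 2084) (C.node (nat_lit 5) (nat_lit 10) (nat_lit 11) C.nil) C.nil))) C.nil))) C.nil)) C.nil))) C.nil)) (C.cons (nat_lit 2096) (C.node (nat_lit 4) (nat_lit 8) (nat_lit 11) (C.cons (nat_lit 2322) (C.node (nat_lit 4) (nat_lit 6) (nat_lit 11) (C.cons (nat_lit 2640) (C.node (nat_lit 4) (nat_lit 8) (nat_lit 9) (C.cons (nat_lit 792) (C.miq (nat_lit 968328288) (nat_lit 3249599852917483709881450833)) (C.cons (nat_lit 788) (C.miq (nat_lit 1461980041) (nat_lit 178931370566193553570270977)) (C.cons (nat_lit 784) (C.node (nat_lit 4) (nat_lit 6) (nat_lit 7) (C.cons (nat_lit 216) (C.miq (nat_lit 949252278) (nat_lit 947801827185225357222480097)) (C.cons (nat_lit 208) (C.node (nat_lit 7) (nat_lit 8) (nat_lit 9) (C.cons (nat_lit 962) (C.miq (nat_lit 879168408) (nat_lit 251463820634898701597413121)) (C.cons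 (nat_lit 960) (C.miq (nat_lit 879168408) (nat_lit 251463820634898701597282049)) (C.cons (nat_lit 898) (C.miq (nat_lit 605490057) (nat_lit 1415664033503291805842673409)) (C.cons (nat_lit 896) (C.node (nat_lit 1) (nat_lit 4) (nat_lit 9) (C.cons (nat_lit 534) (C.node (nat_lit 2) (nat_lit 9) (nat_lit 11) (C.cons (nat_lit 2596) (C.miq (nat_lit 397557849) (nat_lit 2944953147472188990843781681)) (C.cons (nat_lit 2564) (C.node (nat_lit 3) (nat_lit 4) (nat_lit 7) (C.cons (nat_lit 664) (C.miq (nat_lit 410591284) (nat_lit 1083207385010072708277864477)) (C.cons (nat_lit 152) (C.node (nat_lit 4) (nat_lit 7) (nat_lit 9) (C.cons (nat_lit 656) (C.node (nat_lit 1) (nat_lit 7) (nat_lit 9) (C.cons (nat_lit 706) (C.miq (nat_lit 1764454720) (nat_lit 3099727731139912372963837075)) (C.cons (nat_lit 674) (C.miq (nat_lit 1496019264) (nat_lit 3099727731130905173709096083)) (C.cons (nat_lit 642) (C.node (nat_lit 1) (nat_lit 7) (nat_lit 8) (C.cons (nat_lit 450) (C.node (nat_lit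 7) (nat_lit 8) (nat_lit 10) C.nil) C.nil)) C.nil)))) C.nil)) C.nil))) C.nil))) (C.cons (nat_lit 530) (C.node (nat_lit 1) (nat_lit 7) (nat_lit 8) (C.cons (nat_lit 450) (C.node (nat_lit 7) (nat_lit 8) (nat_lit 10) (C.cons (nat_lit 1408) (C.node (nat_lit 1) (nat_lit 7) (nat_lit 9) (C.cons (nat_lit 674) (C.miq (nat_lit 2173986640) (nat_lit 640736901075172937077688545)) (C.cons (nat_lit 642) (C.node (nat_lit 2) (nat_lit 6) (nat_lit 7) (C.cons (nat_lit 196) (C.node (nat_lit 3) (nat_lit 4) (nat_lit 7) C.nil) C.nil)) C.nil))) C.nil)) (C.cons (nat_lit 386) (C.node (nat_lit 2) (nat_lit 4) (nat_lit 8) (C.cons (nat_lit 1300) (C.node (nat_lit 2) (nat_lit 5) (nat_lit 8) (C.cons (nat_lit 876) (C.miq (nat_lit 337840777) (nat_lit 2510948575316348127203299073)) (C.cons (nat_lit 868) (C.miq (nat_lit 1386702912) (nat_lit 1397560177168116731090239825)) (C.cons (nat_lit 812) (C.miq (nat_lit 337840777) (nat_lit 2510948575316348127199104769)) (C.cons (nat_lit 804) (C.miq (nat_lit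 1652886087) (nat_lit 972018288727099131305133203)) (C.cons (nat_lit 364) (C.miq (nat_lit 1386702912) (nat_lit 1397560177026253342828069201)) (C.cons (nat_lit 356) (C.miq (nat_lit 1386702912) (nat_lit 1397560177024001543014383953)) (C.cons (nat_lit 300)
  (C.miq (nat_lit 1652886087) (nat_lit 362719675641326027253220499)) (C.cons (nat_lit 292) (C.miq (nat_lit 1652886087) (nat_lit 353048269084408993855571091)) C.nil))))))))) (C.cons (nat_lit 276) (C.node (nat_lit 2) (nat_lit 4) (nat_lit 9) (C.cons (nat_lit 1556) (C.node (nat_lit 3) (nat_lit 4) (nat_lit 8) (C.cons (nat_lit 1304) (C.miq (nat_lit 1916996008) (nat_lit 2510946177091563806751461121)) (C.cons (nat_lit 280) (C.node (nat_lit 4) (nat_lit 8) (nat_lit 10) (C.cons (nat_lit 1296) (C.node (nat_lit 3) (nat_lit 4) (nat_lit 7) C.nil) C.nil)) C.nil))) (C.cons (nat_lit 532) (C.node (nat_lit 2) (nat_lit 4) (nat_lit 10) (C.cons (nat_lit 1076) (C.node (nat_lit 1) (nat_lit 2) (nat_lit 4) (C.cons (nat_lit 86) (C.miq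 (nat_lit 2873493522) (nat_lit 3191584327155048944229548295)) (C.cons (nat_lit 22) (C.node (nat_lit 2) (nat_lit 4) (nat_lit 6) C.nil) C.nil))) (C.cons (nat_lit 1044) (C.node (nat_lit 3) (nat_lit 4) (nat_lit 7) (C.cons (nat_lit 152) (C.node (nat_lit 4) (nat_lit 7) (nat_lit 9) C.nil) C.nil)) C.nil))) C.nil))) C.nil))) C.nil))) C.nil))) C.nil))))) C.nil))) C.nil)))) (C.cons (nat_lit 2128) (C.node (nat_lit 4) (nat_lit 9) (nat_lit 11) (C.cons (nat_lit 2576) (C.node (nat_lit 5) (nat_lit 7) (nat_lit 10) (C.cons (nat_lit 1696) (C.node (nat_lit 7) (nat_lit 8) (nat_lit 10) (C.cons (nat_lit 1472) (C.miq (nat_lit 1165363624) (nat_lit 2747894604694719700521717505)) (C.cons (nat_lit 1408) (C.node (nat_lit 3) (nat_lit 7) (nat_lit 10) (C.cons (nat_lit 1224) (C.node (nat_lit 4) (nat_lit 6) (nat_lit 7) (C.cons (nat_lit 720) (C.miq (nat_lit 910206869) (nat_lit 407427647337096996455515808)) (C.cons (nat_lit 208) (C.node (nat_lit 3) (nat_lit 9) (nat_lit 10) (C.cons (nat_lit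 1560) (C.miq (nat_lit 1497070144) (nat_lit 3104563434697035523242656915)) (C.cons (nat_lit 1548) (C.miq (nat_lit 3047360402) (nat_lit 1287544312416821072230089349)) (C.cons (nat_lit 1544) (C.node (nat_lit 2) (nat_lit 3) (nat_lit 7) (C.cons (nat_lit 174) (C.miq (nat_lit 2270868016) (nat_lit 2050409044696071989350696989)) (C.cons (nat_lit 172) (C.miq (nat_lit 2270868016) (nat_lit 2050409044696071980760762397)) (C.cons (nat_lit 142) (C.miq (nat_lit 2608007201) (nat_lit 2640303638766656515749052679)) (C.cons (nat_lit 140) (C.node (nat_lit 3) (nat_lit 10) (nat_lit 11) C.nil) C.nil))))) C.nil)))) C.nil))) (C.cons (nat_lit 1160) (C.node (nat_lit 6) (nat_lit 7) (nat_lit 10) (C.cons (nat_lit 1216) (C.node (nat_lit 5) (nat_lit 8) (nat_lit 11) (C.cons (nat_lit 2344) (C.node (nat_lit 1) (nat_lit 5) (nat_lit 7) (C.cons (nat_lit 174) (C.miq (nat_lit 2239345440) (nat_lit 2050409044670176291465791517)) C.nil)) (C.cons (nat_lit 2336) (C.node (nat_lit 1) (nat_lit 5) (nat_lit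 7) (C.cons (nat_lit 174) (C.miq (nat_lit 2270868016) (nat_lit 2050409044696071989350696989)) C.nil)) C.nil))) C.nil)) C.nil))) C.nil))) (C.cons (nat_lit 1184) (C.node (nat_lit 5) (nat_lit 8) (nat_lit 11) (C.cons (nat_lit 2344) (C.node (nat_lit 6) (nat_lit 8) (nat_lit 11) (C.cons (nat_lit 2368) (C.node (nat_lit 2) (nat_lit 10) (nat_lit 11) (C.cons (nat_lit 3110) (C.miq (nat_lit 2241966852) (nat_lit 3759802133001017806541752349)) (C.cons (nat_lit 3108) (C.miq (nat_lit 1923124051) (nat_lit 1321363171094897047902947624)) (C.cons (nat_lit 3078) (C.miq (nat_lit 730243392) (nat_lit 2862756504005104401495688339)) C.nil)))) C.nil)) (C.cons (nat_lit 2336) (C.node (nat_lit 3) (nat_lit 5) (nat_lit 11) (C.cons (nat_lit 2090) (C.node (nat_lit 3) (nat_lit 8) (nat_lit 11) (C.cons (nat_lit 2376) (C.node (nat_lit 3) (nat_lit 10) (nat_lit 11) C.nil) C.nil)) (C.cons (nat_lit 2088) (C.node (nat_lit 3) (nat_lit 8) (nat_lit 11) C.nil) C.nil))) C.nil))) C.nil))) C.nil)) C.nil)))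 (C.cons (nat_lit 2320) (C.node (nat_lit 5) (nat_lit 7) (nat_lit 10) (C.cons (nat_lit 1696) (C.node (nat_lit 7) (nat_lit 8) (nat_lit 10) (C.cons (nat_lit 1472) (C.miq (nat_lit 1165363624) (nat_lit 2747894604694719700521717505)) (C.cons (nat_lit 1408) (C.node (nat_lit 3) (nat_lit 7) (nat_lit 10) (C.cons (nat_lit 1224) (C.node (nat_lit 4) (nat_lit 6) (nat_lit 7)
  (C.cons (nat_lit 720) (C.miq (nat_lit 910206869) (nat_lit 407427647337096996455515808)) (C.cons (nat_lit 208) (C.node (nat_lit 3) (nat_lit 9) (nat_lit 10) (C.cons (nat_lit 1560) (C.miq (nat_lit 1497070144) (nat_lit 3104563434697035523242656915)) (C.cons (nat_lit 1548) (C.miq (nat_lit 3047360402) (nat_lit 1287544312416821072230089349)) (C.cons (nat_lit 1544) (C.node (nat_lit 2) (nat_lit 3) (nat_lit 7) (C.cons (nat_lit 174) (C.miq (nat_lit 2270868016) (nat_lit 2050409044696071989350696989)) (C.cons (nat_lit 172) (C.miq (nat_lit 2270868016) (nat_lit 2050409044696071980760762397)) (C.cons (nat_lit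 142) (C.miq (nat_lit 2608007201) (nat_lit 2640303638766656515749052679)) (C.cons (nat_lit 140) (C.node (nat_lit 1) (nat_lit 3) (nat_lit 7) (C.cons (nat_lit 170) (C.node (nat_lit 2) (nat_lit 5) (nat_lit 7) C.nil) C.nil)) C.nil))))) C.nil)))) C.nil))) (C.cons (nat_lit 1160) (C.node (nat_lit 6) (nat_lit 7) (nat_lit 10) (C.cons (nat_lit 1216) (C.node (nat_lit 2) (nat_lit 4) (nat_lit 8) (C.cons (nat_lit 1300) (C.node (nat_lit 2) (nat_lit 5) (nat_lit 8) (C.cons (nat_lit 876) (C.miq (nat_lit 1196821144) (nat_lit 2747894604866419436276158209)) (C.cons (nat_lit 868) (C.miq (nat_lit 1196821144) (nat_lit 2747894604866419436275633921)) (C.cons (nat_lit 812) (C.miq (nat_lit 337840777) (nat_lit 2510948575316348127199104769)) (C.cons (nat_lit 804) (C.miq (nat_lit 1652886087) (nat_lit 972018288727099131305133203)) (C.cons (nat_lit 364) (C.miq (nat_lit 1386702912) (nat_lit 1397560177026253342828069201)) (C.cons (nat_lit 356) (C.miq (nat_lit 1386702912) (nat_lit 1397560177024001543014383953))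 (C.cons (nat_lit 300) (C.miq (nat_lit 1652886087) (nat_lit 362719675641326027253220499)) (C.cons (nat_lit 292) (C.miq (nat_lit 1652886087) (nat_lit 353048269084408993855571091)) C.nil))))))))) (C.cons (nat_lit 788) (C.miq (nat_lit 1461980041) (nat_lit 178931370566193553570270977)) (C.cons (nat_lit 276) (C.node (nat_lit 4) (nat_lit 8) (nat_lit 10) (C.cons (nat_lit 1304) (C.node (nat_lit 3) (nat_lit 8) (nat_lit 11) (C.cons (nat_lit 2378) (C.miq (nat_lit 1755820864) (nat_lit 1702209484136030515129157661)) (C.cons (nat_lit 2376) (C.miq (nat_lit 1755820864) (nat_lit 1702209484135467565175736349)) (C.cons (nat_lit 2346) (C.miq (nat_lit 880118283) (nat_lit 522299230502165125267525377)) (C.cons (nat_lit 2344) (C.miq (nat_lit 880118283) (nat_lit 522299193608676977848422145)) (C.cons (nat_lit 2314) (C.miq (nat_lit 2067343376) (nat_lit 3104533403605978245162008839)) (C.cons (nat_lit 2312) (C.node (nat_lit 1) (nat_lit 4) (nat_lit 8) (C.cons (nat_lit 786) (C.node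 (nat_lit 1) (nat_lit 7) (nat_lit 8) (C.cons (nat_lit 450) (C.miq (nat_lit 425165830) (nat_lit 2050346491322485990920094033)) (C.cons (nat_lit 386) (C.node (nat_lit 1) (nat_lit 7) (nat_lit 9) (C.cons (nat_lit 642) (C.node (nat_lit 6) (nat_lit 7) (nat_lit 8) C.nil) C.nil)) C.nil))) (C.cons (nat_lit 274) (C.node (nat_lit 4) (nat_lit 8) (nat_lit 9) (C.cons (nat_lit 784) (C.node (nat_lit 2) (nat_lit 8) (nat_lit 10) (C.cons (nat_lit 1316) (C.node (nat_lit 2) (nat_lit 4) (nat_lit 10) (C.cons (nat_lit 1556) (C.miq (nat_lit 1916996008) (nat_lit 2510946177091563806751461121)) (C.cons (nat_lit 1044) (C.node (nat_lit 4) (nat_lit 5) (nat_lit 10) (C.cons (nat_lit 1136) (C.miq (nat_lit 1686592048) (nat_lit 522297883842560519490307113)) (C.cons (nat_lit 1072) (C.node (nat_lit 3) (nat_lit 4) (nat_lit 7) (C.cons (nat_lit 728) (C.miq (nat_lit 1803776164) (nat_lit 2795049924818517431592420499)) (C.cons (nat_lit 152) (C.node (nat_lit 3) (nat_lit 4) (nat_lit 9) C.nil) C.nil)))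 C.nil))) C.nil))) (C.cons (nat_lit 1284) (C.node (nat_lit 3) (nat_lit 5) (nat_lit 11) (C.cons (nat_lit 2090) (C.node (nat_lit 5) (nat_lit 8) (nat_lit 11) (C.cons (nat_lit 2336) (C.node (nat_lit 1) (nat_lit 3) (nat_lit 8) C.nil) C.nil)) (C.cons (nat_lit 2088) (C.node (nat_lit 5) (nat_lit 8) (nat_lit 11) (C.cons (nat_lit 2338) (C.node (nat_lit 6) (nat_lit 8) (nat_lit 11) C.nil) (C.cons (nat_lit 2336) (C.node (nat_lit 1) (nat_lit 7) (nat_lit 8) (C.cons (nat_lit 962)
  (C.miq (nat_lit 414422816) (nat_lit 2795046142866962592288277125)) C.nil)) C.nil))) C.nil))) C.nil))) C.nil)) C.nil))) C.nil))))))) (C.cons (nat_lit 1296) (C.node (nat_lit 2) (nat_lit 4) (nat_lit 10) (C.cons (nat_lit 1556) (C.miq (nat_lit 1514895648) (nat_lit 3733204860896642676909998725)) (C.cons (nat_lit 1076) (C.node (nat_lit 2) (nat_lit 8) (nat_lit 10) (C.cons (nat_lit 1292) (C.miq (nat_lit 1468664611) (nat_lit 1702187200439639463347095581)) (C.cons (nat_lit 1284) (C.node (nat_lit 2) (nat_lit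 3) (nat_lit 10) (C.cons (nat_lit 1548) (C.miq (nat_lit 3047360402) (nat_lit 1287544312416821072230089349)) (C.cons (nat_lit 1038) (C.miq (nat_lit 425340994) (nat_lit 2050357337933973413183096861)) (C.cons (nat_lit 1036) (C.node (nat_lit 2) (nat_lit 9) (nat_lit 10) (C.cons (nat_lit 1542) (C.node (nat_lit 2) (nat_lit 10) (nat_lit 11) (C.cons (nat_lit 3076) (C.node (nat_lit 5) (nat_lit 10) (nat_lit 11) (C.cons (nat_lit 3104) (C.node (nat_lit 1) (nat_lit 5) (nat_lit 7) (C.cons (nat_lit 174) (C.miq (nat_lit 2184886096) (nat_lit 1252518003750416734044621025)) C.nil)) C.nil)) C.nil)) (C.cons (nat_lit 1540) (C.node (nat_lit 1) (nat_lit 2) (nat_lit 10) (C.cons (nat_lit 3078) (C.node (nat_lit 5) (nat_lit 10) (nat_lit 11) (C.cons (nat_lit 3104) (C.node (nat_lit 2) (nat_lit 5) (nat_lit 11) C.nil) C.nil)) (C.cons (nat_lit 1030) (C.node (nat_lit 2) (nat_lit 10) (nat_lit 11) (C.cons (nat_lit 3076) (C.node (nat_lit 1) (nat_lit 5) (nat_lit 7) (C.cons (nat_lit 174) (C.miq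 (nat_lit 2184886096) (nat_lit 1252518003750416734044621025)) C.nil)) C.nil)) C.nil))) C.nil))) C.nil)))) C.nil))) (C.cons (nat_lit 1044) (C.node (nat_lit 4) (nat_lit 5) (nat_lit 10) (C.cons (nat_lit 1136) (C.node (nat_lit 3) (nat_lit 4) (nat_lit 10) (C.cons (nat_lit 1560) (C.miq (nat_lit 1497070144) (nat_lit 3104563434697035523242656915)) (C.cons (nat_lit 1048) (C.node (nat_lit 4) (nat_lit 9) (nat_lit 10) (C.cons (nat_lit 1552) (C.node (nat_lit 2) (nat_lit 4) (nat_lit 5) (C.cons (nat_lit 54) (C.node (nat_lit 3) (nat_lit 4) (nat_lit 5) (C.cons (nat_lit 56) (C.node (nat_lit 1) (nat_lit 5) (nat_lit 7) C.nil) C.nil)) (C.cons (nat_lit 52) (C.node (nat_lit 3) (nat_lit 4) (nat_lit 7) (C.cons (nat_lit 728) (C.node (nat_lit 1) (nat_lit 7) (nat_lit 9) C.nil) C.nil)) C.nil))) C.nil)) C.nil))) (C.cons (nat_lit 1072) (C.node (nat_lit 2) (nat_lit 8) (nat_lit 10) (C.cons (nat_lit 1316) (C.node (nat_lit 2) (nat_lit 5) (nat_lit 7) (C.cons (nat_lit 174) (C.miq (nat_lit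 981618871) (nat_lit 1590949588646108166701189345)) (C.cons (nat_lit 172) (C.miq (nat_lit 981618871) (nat_lit 1590949551752620019282086113)) (C.cons (nat_lit 166) (C.miq (nat_lit 2502469392) (nat_lit 1591017233034221385784165523)) (C.cons (nat_lit 164) (C.node (nat_lit 1) (nat_lit 5) (nat_lit 7) (C.cons (nat_lit 162) (C.node (nat_lit 3) (nat_lit 5) (nat_lit 7) C.nil) C.nil)) C.nil))))) (C.cons (nat_lit 1292) (C.miq (nat_lit 1468664611) (nat_lit 1702187200439639463347095581)) (C.cons (nat_lit 1284) (C.node (nat_lit 2) (nat_lit 3) (nat_lit 10) (C.cons (nat_lit 1548) (C.miq (nat_lit 3047360402) (nat_lit 1287544312416821072230089349)) (C.cons (nat_lit 1038) (C.node (nat_lit 2) (nat_lit 9) (nat_lit 10) (C.cons (nat_lit 1540) (C.node (nat_lit 2) (nat_lit 5) (nat_lit 10) (C.cons (nat_lit 3108) (C.miq (nat_lit 2191752016) (nat_lit 1254872251016092443294107873)) (C.cons (nat_lit 1060) (C.node (nat_lit 2) (nat_lit 10) (nat_lit 11) C.nil) C.nil))) C.nil)) (C.cons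 (nat_lit 1036) (C.node (nat_lit 2) (nat_lit 9) (nat_lit 10) (C.cons (nat_lit 1542) (C.node (nat_lit 2) (nat_lit 5) (nat_lit 10) (C.cons (nat_lit 3108) (C.miq (nat_lit 2191752016) (nat_lit 1252454399376863184944695521)) (C.cons (nat_lit 1060) (C.node (nat_lit 2) (nat_lit 10) (nat_lit 11) C.nil) C.nil))) (C.cons (nat_lit 1540) (C.node (nat_lit 1) (nat_lit 5) (nat_lit 7) (C.cons (nat_lit 174) (C.miq (nat_lit 2184886096) (nat_lit 1252518003750416734044621025)) C.nil)) C.nil))) C.nil)))) C.nil)))) C.nil))) C.nil)))) C.nil))) C.nil)))) C.nil)) C.nil))) C.nil))) (C.cons (nat_lit 1184)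
  (C.node (nat_lit 7) (nat_lit 8) (nat_lit 10) (C.cons (nat_lit 1472) (C.node (nat_lit 1) (nat_lit 7) (nat_lit 8) (C.cons (nat_lit 898) (C.miq (nat_lit 997786241) (nat_lit 3249602251355907760932913415)) (C.cons (nat_lit 386) (C.node (nat_lit 7) (nat_lit 8) (nat_lit 9) (C.cons (nat_lit 896) (C.node (nat_lit 2) (nat_lit 4) (nat_lit 8) (C.cons (nat_lit 1300) (C.miq (nat_lit 1747679808) (nat_lit 2944985226444852960706757779)) (C.cons (nat_lit 788) (C.miq (nat_lit 1461980041) (nat_lit 178931370566193553570270977)) (C.cons (nat_lit 276) (C.node (nat_lit 4) (nat_lit 8) (nat_lit 10) (C.cons (nat_lit 1304) (C.miq (nat_lit 1783330864) (nat_lit 3733204860833591199795052937)) (C.cons (nat_lit 1296) (C.node (nat_lit 2) (nat_lit 3) (nat_lit 7) (C.cons (nat_lit 206) (C.miq (nat_lit 2557545251) (nat_lit 466655015099553259631544349)) (C.cons (nat_lit 204) (C.miq (nat_lit 3126986867) (nat_lit 1321394235807382490443415945)) (C.cons (nat_lit 174) (C.miq (nat_lit 2557545251)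 (nat_lit 466655015099553259629447197)) (C.cons (nat_lit 172) (C.miq (nat_lit 2270868016) (nat_lit 1431439025053381843311200285)) (C.cons (nat_lit 142) (C.miq (nat_lit 2557545251) (nat_lit 466655015099553259627350045)) (C.cons (nat_lit 140) (C.node (nat_lit 2) (nat_lit 5) (nat_lit 7) (C.cons (nat_lit 164) (C.node (nat_lit 1) (nat_lit 2) (nat_lit 7) C.nil) C.nil)) C.nil))))))) C.nil))) C.nil)))) C.nil)) C.nil))) (C.cons (nat_lit 1408) (C.node (nat_lit 2) (nat_lit 4) (nat_lit 8) (C.cons (nat_lit 1300) (C.node (nat_lit 2) (nat_lit 5) (nat_lit 8) (C.cons (nat_lit 876) (C.miq (nat_lit 337840777) (nat_lit 2510948575316348127203299073)) (C.cons (nat_lit 868) (C.miq (nat_lit 1386702912) (nat_lit 1397560177168116731090239825)) (C.cons (nat_lit 812) (C.miq (nat_lit 337840777) (nat_lit 2510948575316348127199104769)) (C.cons (nat_lit 804) (C.miq (nat_lit 1652886087) (nat_lit 972018288727099131305133203)) (C.cons (nat_lit 364) (C.miq (nat_lit 1386702912) (nat_lit 1397560177026253342828069201))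 (C.cons (nat_lit 356) (C.miq (nat_lit 1386702912) (nat_lit 1397560177024001543014383953)) (C.cons (nat_lit 300) (C.miq (nat_lit 1652886087) (nat_lit 362719675641326027253220499)) (C.cons (nat_lit 292) (C.miq (nat_lit 1652886087) (nat_lit 353048269084408993855571091)) C.nil))))))))) (C.cons (nat_lit 788) (C.miq (nat_lit 1461980041) (nat_lit 178931370566193553570270977)) (C.cons (nat_lit 276) (C.node (nat_lit 4) (nat_lit 8) (nat_lit 10) (C.cons (nat_lit 1304) (C.node (nat_lit 3) (nat_lit 8) (nat_lit 11) (C.cons (nat_lit 2378) (C.miq (nat_lit 1755820864) (nat_lit 1702209484136030515129157661)) (C.cons (nat_lit 2376) (C.miq (nat_lit 1755820864) (nat_lit 1702209484135467565175736349)) (C.cons (nat_lit 2346) (C.miq (nat_lit 880118283) (nat_lit 522299230502165125267525377)) (C.cons (nat_lit 2344) (C.miq (nat_lit 880118283) (nat_lit 522299193608676977848422145)) (C.cons (nat_lit 2314) (C.miq (nat_lit 2067343376) (nat_lit 3104533403605978245162008839)) (C.cons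 (nat_lit 2312) (C.node (nat_lit 1) (nat_lit 4) (nat_lit 8) (C.cons (nat_lit 786) (C.node (nat_lit 1) (nat_lit 7) (nat_lit 8) (C.cons (nat_lit 450) (C.miq (nat_lit 369723220) (nat_lit 697564697185156471530258864)) (C.cons (nat_lit 386) (C.node (nat_lit 3) (nat_lit 4) (nat_lit 5) (C.cons (nat_lit 122) (C.miq (nat_lit 3091597877) (nat_lit 407449931740560559877784617)) (C.cons (nat_lit 120) (C.miq (nat_lit 3091597877) (nat_lit 407449931740560559877653545)) (C.cons (nat_lit 58) (C.miq (nat_lit 329794825) (nat_lit 1576453767934648502565536305)) (C.cons (nat_lit 56) (C.node (nat_lit 1) (nat_lit 3) (nat_lit 4) (C.cons (nat_lit 90) (C.node (nat_lit 1) (nat_lit 4) (nat_lit 11) (C.cons (nat_lit 2066) (C.node (nat_lit 6) (nat_lit 8) (nat_lit 11) (C.cons (nat_lit 2370) (C.miq (nat_lit 1444154249) (nat_lit 108813673028544777969340161)) (C.cons (nat_lit 2368) (C.node (nat_lit 1) (nat_lit 7) (nat_lit 9) (C.cons (nat_lit 706) (C.miq (nat_lit 1680282377) (nat_lit 178934044729622825393259019))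 (C.cons (nat_lit 674)
  (C.miq (nat_lit 1729627540) (nat_lit 466651583563795218478268977)) (C.cons (nat_lit 642) (C.node (nat_lit 4) (nat_lit 6) (nat_lit 10) (C.cons (nat_lit 1616) (C.miq (nat_lit 641796760) (nat_lit 108808175566667101599043329)) (C.cons (nat_lit 1136) (C.miq (nat_lit 1686592048) (nat_lit 522297883842560519490307113)) (C.cons (nat_lit 1104) (C.node (nat_lit 4) (nat_lit 9) (nat_lit 10) (C.cons (nat_lit 1556) (C.miq (nat_lit 1916996008) (nat_lit 2510946177091563806751461121)) C.nil)) C.nil)))) C.nil)))) C.nil))) C.nil)) (C.cons (nat_lit 26) (C.node (nat_lit 1) (nat_lit 4) (nat_lit 11) (C.cons (nat_lit 2130) (C.node (nat_lit 4) (nat_lit 9) (nat_lit 11) (C.cons (nat_lit 2576) (C.node (nat_lit 3) (nat_lit 4) (nat_lit 7) (C.cons (nat_lit 728) (C.miq (nat_lit 1803776164) (nat_lit 2795049924818517431592420499)) C.nil)) C.nil)) (C.cons (nat_lit 2066) (C.node (nat_lit 2) (nat_lit 8) (nat_lit 10) (C.cons (nat_lit 1316) (C.node (nat_lit 2) (nat_lit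 4) (nat_lit 10) (C.cons (nat_lit 1556) (C.miq (nat_lit 1916996008) (nat_lit 2510946177091563806751461121)) (C.cons (nat_lit 1044) (C.node (nat_lit 4) (nat_lit 6) (nat_lit 11) (C.cons (nat_lit 2128) (C.node (nat_lit 4) (nat_lit 9) (nat_lit 11) (C.cons (nat_lit 2576) (C.node (nat_lit 2) (nat_lit 4) (nat_lit 9) C.nil) C.nil)) C.nil)) C.nil))) (C.cons (nat_lit 1284) (C.node (nat_lit 3) (nat_lit 5) (nat_lit 11) (C.cons (nat_lit 2090) (C.node (nat_lit 5) (nat_lit 8) (nat_lit 11) (C.cons (nat_lit 2336) (C.node (nat_lit 1) (nat_lit 8) (nat_lit 11) C.nil) C.nil)) (C.cons (nat_lit 2088) (C.node (nat_lit 4) (nat_lit 6) (nat_lit 11) (C.cons (nat_lit 2640) (C.node (nat_lit 2) (nat_lit 6) (nat_lit 11) C.nil) (C.cons (nat_lit 2128) (C.node (nat_lit 4) (nat_lit 9) (nat_lit 11) C.nil) C.nil))) C.nil))) C.nil))) C.nil))) C.nil))) C.nil))))) C.nil))) (C.cons (nat_lit 274) (C.node (nat_lit 4) (nat_lit 8) (nat_lit 9) (C.cons (nat_lit 784) (C.node (nat_lit 2) (nat_lit 8) (nat_lit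 10) (C.cons (nat_lit 1316) (C.node (nat_lit 2) (nat_lit 4) (nat_lit 10) (C.cons (nat_lit 1556) (C.miq (nat_lit 1916996008) (nat_lit 2510946177091563806751461121)) (C.cons (nat_lit 1044) (C.node (nat_lit 4) (nat_lit 5) (nat_lit 10) (C.cons (nat_lit 1136) (C.miq (nat_lit 1686592048) (nat_lit 522297883842560519490307113)) (C.cons (nat_lit 1072) (C.node (nat_lit 1) (nat_lit 8) (nat_lit 10) (C.cons (nat_lit 1346) (C.node (nat_lit 6) (nat_lit 8) (nat_lit 11) (C.cons (nat_lit 2368) (C.node (nat_lit 1) (nat_lit 8) (nat_lit 11) (C.cons (nat_lit 2306) (C.node (nat_lit 5) (nat_lit 8) (nat_lit 11) C.nil) C.nil)) C.nil)) (C.cons (nat_lit 1282) (C.node (nat_lit 6) (nat_lit 8) (nat_lit 10) (C.cons (nat_lit 1344) (C.node (nat_lit 2) (nat_lit 10) (nat_lit 11) (C.cons (nat_lit 3078) (C.node (nat_lit 5) (nat_lit 10) (nat_lit 11) C.nil) (C.cons (nat_lit 3076) (C.node (nat_lit 5) (nat_lit 8) (nat_lit 11) (C.cons (nat_lit 2338) (C.node (nat_lit 6) (nat_lit 8) (nat_lit 11)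 C.nil) C.nil)) C.nil))) C.nil)) C.nil))) C.nil))) C.nil))) (C.cons (nat_lit 1284) (C.node (nat_lit 3) (nat_lit 5) (nat_lit 11) (C.cons (nat_lit 2090) (C.node (nat_lit 5) (nat_lit 8) (nat_lit 11) (C.cons (nat_lit 2336) (C.node (nat_lit 1) (nat_lit 3) (nat_lit 8) (C.cons (nat_lit 330) (C.node (nat_lit 1) (nat_lit 8) (nat_lit 11) C.nil) C.nil)) C.nil)) (C.cons (nat_lit 2088) (C.node (nat_lit 5) (nat_lit 8) (nat_lit 11) (C.cons (nat_lit 2338) (C.node (nat_lit 6) (nat_lit 8) (nat_lit 11) (C.cons (nat_lit 2368) (C.node (nat_lit 5) (nat_lit 9) (nat_lit 11) C.nil) C.nil)) (C.cons (nat_lit 2336) (C.node (nat_lit 1) (nat_lit 8) (nat_lit 11) (C.cons (nat_lit 2370) (C.node (nat_lit 1) (nat_lit 3) (nat_lit 11) C.nil) (C.cons (nat_lit 2306) (C.node (nat_lit 6) (nat_lit 8) (nat_lit 11) C.nil) C.nil))) C.nil))) C.nil))) C.nil))) C.nil)) C.nil))) C.nil))))))) (C.cons (nat_lit 1296) (C.node (nat_lit 2) (nat_lit 8) (nat_lit 10) (C.cons (nat_lit 1316) (C.node (nat_lit 2)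 (nat_lit 4) (nat_lit 10) (C.cons (nat_lit 1556) (C.node (nat_lit 4) (nat_lit 5) (nat_lit 10) (C.cons (nat_lit 1136)
  (C.miq (nat_lit 1967720098) (nat_lit 678219283593532010919101509)) (C.cons (nat_lit 1072) (C.node (nat_lit 2) (nat_lit 9) (nat_lit 11) (C.cons (nat_lit 2630) (C.miq (nat_lit 1648867744) (nat_lit 178962951492530531462221569)) (C.cons (nat_lit 2628) (C.miq (nat_lit 1648867744) (nat_lit 178962951491967581508800257)) (C.cons (nat_lit 2598) (C.miq (nat_lit 1380432288) (nat_lit 178962951483523332207480577)) (C.cons (nat_lit 2596) (C.miq (nat_lit 1380432288) (nat_lit 178962951482960382254059265)) (C.cons (nat_lit 2566) (C.miq (nat_lit 2073264656) (nat_lit 3104528755026472752686760199)) (C.cons (nat_lit 2564) (C.node (nat_lit 2) (nat_lit 3) (nat_lit 10) (C.cons (nat_lit 1038) (C.node (nat_lit 2) (nat_lit 10) (nat_lit 11) (C.cons (nat_lit 3076) (C.node (nat_lit 5) (nat_lit 9) (nat_lit 10) (C.cons (nat_lit 1634) (C.miq (nat_lit 3046377122) (nat_lit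 678245699331047701890729029)) (C.cons (nat_lit 1632) (C.miq (nat_lit 3046377122) (nat_lit 678245699331047693300794437)) (C.cons (nat_lit 1570) (C.miq (nat_lit 306815749) (nat_lit 1881117537000738666348348457)) (C.cons (nat_lit 1568) (C.node (nat_lit 1) (nat_lit 8) (nat_lit 10) (C.cons (nat_lit 1346) (C.node (nat_lit 3) (nat_lit 10) (nat_lit 11) (C.cons (nat_lit 3144) (C.miq (nat_lit 1629726731) (nat_lit 1254922997702219274540355329)) C.nil)) (C.cons (nat_lit 1282) (C.node (nat_lit 3) (nat_lit 10) (nat_lit 11) (C.cons (nat_lit 3080) (C.node (nat_lit 1) (nat_lit 9) (nat_lit 10) (C.cons (nat_lit 1538) (C.node (nat_lit 3) (nat_lit 4) (nat_lit 10) C.nil) C.nil)) C.nil)) C.nil))) C.nil))))) C.nil)) (C.cons (nat_lit 1036) (C.node (nat_lit 1) (nat_lit 2) (nat_lit 10) (C.cons (nat_lit 3078) (C.node (nat_lit 2) (nat_lit 5) (nat_lit 11) (C.cons (nat_lit 2084) (C.node (nat_lit 2) (nat_lit 6) (nat_lit 11) (C.cons (nat_lit 2116) (C.node (nat_lit 5) (nat_lit 10) (nat_lit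 11) C.nil) C.nil)) C.nil)) (C.cons (nat_lit 1030) (C.node (nat_lit 2) (nat_lit 10) (nat_lit 11) (C.cons (nat_lit 3076) (C.node (nat_lit 2) (nat_lit 5) (nat_lit 11) (C.cons (nat_lit 2086) (C.node (nat_lit 2) (nat_lit 6) (nat_lit 11) (C.cons (nat_lit 2116) (C.node (nat_lit 5) (nat_lit 9) (nat_lit 11) C.nil) C.nil)) (C.cons (nat_lit 2084) (C.node (nat_lit 1) (nat_lit 2) (nat_lit 11) (C.cons (nat_lit 2118) (C.node (nat_lit 1) (nat_lit 4) (nat_lit 11) C.nil) (C.cons (nat_lit 2054) (C.node (nat_lit 2) (nat_lit 6) (nat_lit 11) C.nil) C.nil))) C.nil))) C.nil)) C.nil))) C.nil))) C.nil))))))) C.nil))) (C.cons (nat_lit 1044) (C.node (nat_lit 2) (nat_lit 10) (nat_lit 11) (C.cons (nat_lit 3078) (C.node (nat_lit 5) (nat_lit 10) (nat_lit 11) (C.cons (nat_lit 3104) (C.node (nat_lit 2) (nat_lit 3) (nat_lit 10) (C.cons (nat_lit 1548) (C.node (nat_lit 2) (nat_lit 6) (nat_lit 11) (C.cons (nat_lit 2628) (C.miq (nat_lit 1402669606) (nat_lit 3104563434519424761434735685)) (C.cons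 (nat_lit 2116) (C.node (nat_lit 3) (nat_lit 10) (nat_lit 11) (C.cons (nat_lit 3144) (C.miq (nat_lit 2067334818) (nat_lit 3104533403560101388848202821)) (C.cons (nat_lit 3080) (C.node (nat_lit 6) (nat_lit 10) (nat_lit 11) C.nil) C.nil))) C.nil))) (C.cons (nat_lit 1036) (C.node (nat_lit 2) (nat_lit 9) (nat_lit 10) (C.cons (nat_lit 1540) (C.node (nat_lit 2) (nat_lit 5) (nat_lit 11) (C.cons (nat_lit 2596) (C.node (nat_lit 2) (nat_lit 6) (nat_lit 11) (C.cons (nat_lit 2116) (C.node (nat_lit 3) (nat_lit 10) (nat_lit 11) (C.cons (nat_lit 3144) (C.node (nat_lit 1) (nat_lit 3) (nat_lit 10) C.nil) C.nil)) C.nil)) (C.cons (nat_lit 2084) (C.node (nat_lit 2) (nat_lit 6) (nat_lit 11) (C.cons (nat_lit 2628) (C.node (nat_lit 4) (nat_lit 9) (nat_lit 11) (C.cons (nat_lit 2578) (C.miq (nat_lit 2516890273) (nat_lit 407455557656072988371651590)) C.nil)) (C.cons (nat_lit 2116) (C.node (nat_lit 2) (nat_lit 9) (nat_lit 11) C.nil) C.nil))) C.nil))) C.nil)) C.nil))) C.nil)) (C.cons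 (nat_lit 3076) (C.node (nat_lit 4) (nat_lit 5) (nat_lit 10) (C.cons (nat_lit 1136) (C.node (nat_lit 2) (nat_lit 4) (nat_lit 5) (C.cons (nat_lit 54) (C.node (nat_lit 3) (nat_lit 4) (nat_lit 5) (C.cons (nat_lit 56)
  (C.node (nat_lit 2) (nat_lit 5) (nat_lit 7) (C.cons (nat_lit 172) (C.miq (nat_lit 981618871) (nat_lit 1590949551752620019282086113)) (C.cons (nat_lit 164) (C.node (nat_lit 2) (nat_lit 5) (nat_lit 11) (C.cons (nat_lit 2596) (C.miq (nat_lit 447889557) (nat_lit 3718656817588403016579678769)) (C.cons (nat_lit 2084) (C.node (nat_lit 5) (nat_lit 9) (nat_lit 10) (C.cons (nat_lit 1570) (C.miq (nat_lit 2502664512) (nat_lit 2519472262462790263975511187)) (C.cons (nat_lit 1568) (C.node (nat_lit 1) (nat_lit 5) (nat_lit 10) (C.cons (nat_lit 3106) (C.node (nat_lit 5) (nat_lit 9) (nat_lit 11) C.nil) (C.cons (nat_lit 1058) (C.node (nat_lit 5) (nat_lit 10) (nat_lit 11) (C.cons (nat_lit 3104) (C.node (nat_lit 3) (nat_lit 4) (nat_lit 10) C.nil) C.nil)) C.nil)))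 C.nil))) C.nil))) C.nil))) C.nil)) (C.cons (nat_lit 52) (C.node (nat_lit 1) (nat_lit 4) (nat_lit 5) (C.cons (nat_lit 58) (C.node (nat_lit 1) (nat_lit 4) (nat_lit 8) (C.cons (nat_lit 786) (C.miq (nat_lit 2220527920) (nat_lit 1373410585247445441726448139)) (C.cons (nat_lit 274) (C.node (nat_lit 3) (nat_lit 5) (nat_lit 11) (C.cons (nat_lit 2344) (C.miq (nat_lit 444940467) (nat_lit 1590947448853631963918501917)) (C.cons (nat_lit 2088) (C.node (nat_lit 5) (nat_lit 9) (nat_lit 10) (C.cons (nat_lit 1570) (C.miq (nat_lit 2503713088) (nat_lit 2524307965741248797854205075)) (C.cons (nat_lit 1568) (C.node (nat_lit 1) (nat_lit 4) (nat_lit 11) (C.cons (nat_lit 2642) (C.miq (nat_lit 363414283) (nat_lit 1895644421469911409615767581)) (C.cons (nat_lit 2066) (C.node (nat_lit 1) (nat_lit 5) (nat_lit 10) (C.cons (nat_lit 1058) (C.node (nat_lit 5) (nat_lit 10) (nat_lit 11) C.nil) C.nil)) C.nil))) C.nil))) C.nil))) C.nil))) (C.cons (nat_lit 50) (C.node (nat_lit 3) (nat_lit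 4) (nat_lit 5) (C.cons (nat_lit 56) (C.node (nat_lit 3) (nat_lit 4) (nat_lit 10) (C.cons (nat_lit 1560) (C.node (nat_lit 3) (nat_lit 4) (nat_lit 7) (C.cons (nat_lit 152) (C.node (nat_lit 3) (nat_lit 4) (nat_lit 6) C.nil) C.nil)) (C.cons (nat_lit 1048) (C.node (nat_lit 4) (nat_lit 9) (nat_lit 10) C.nil) C.nil))) C.nil)) C.nil))) C.nil))) (C.cons (nat_lit 1072) (C.node (nat_lit 5) (nat_lit 10) (nat_lit 11) (C.cons (nat_lit 3106) (C.node (nat_lit 3) (nat_lit 5) (nat_lit 11) (C.cons (nat_lit 2344) (C.miq (nat_lit 461874480) (nat_lit 2944964898592818328561583145)) (C.cons (nat_lit 2088) (C.node (nat_lit 5) (nat_lit 8) (nat_lit 11) (C.cons (nat_lit 2336) (C.node (nat_lit 2) (nat_lit 5) (nat_lit 11) C.nil) C.nil)) C.nil))) (C.cons (nat_lit 3104) (C.node (nat_lit 7) (nat_lit 8) (nat_lit 9) (C.cons (nat_lit 962) (C.miq (nat_lit 997786241) (nat_lit 3249602251355907760937107719)) (C.cons (nat_lit 960) (C.node (nat_lit 1) (nat_lit 7) (nat_lit 8) (C.cons (nat_lit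 386) (C.node (nat_lit 2) (nat_lit 8) (nat_lit 9) (C.cons (nat_lit 780) (C.miq (nat_lit 812198776) (nat_lit 697564586962651816407337348)) (C.cons (nat_lit 772) (C.node (nat_lit 4) (nat_lit 6) (nat_lit 7) (C.cons (nat_lit 216) (C.miq (nat_lit 2537260608) (nat_lit 2640364844252554141437329745)) (C.cons (nat_lit 208) (C.node (nat_lit 1) (nat_lit 7) (nat_lit 9) (C.cons (nat_lit 642) (C.node (nat_lit 3) (nat_lit 4) (nat_lit 7) C.nil) C.nil)) C.nil))) C.nil))) C.nil)) (C.cons (nat_lit 898) (C.miq (nat_lit 997786241) (nat_lit 3249602251355907760932913415)) (C.cons (nat_lit 896) (C.node (nat_lit 1) (nat_lit 7) (nat_lit 8) (C.cons (nat_lit 450) (C.node (nat_lit 1) (nat_lit 7) (nat_lit 9) (C.cons (nat_lit 674) (C.miq (nat_lit 1636861780) (nat_lit 632274420337870532854743472)) (C.cons (nat_lit 642) (C.node (nat_lit 2) (nat_lit 6) (nat_lit 7) (C.cons (nat_lit 196) (C.node (nat_lit 5) (nat_lit 7) (nat_lit 9) C.nil) C.nil)) C.nil))) (C.cons (nat_lit 386) (C.node (nat_lit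 6) (nat_lit 7) (nat_lit 8) (C.cons (nat_lit 448) (C.node (nat_lit 2) (nat_lit 5) (nat_lit 11) (C.cons (nat_lit 2598) (C.miq (nat_lit 2073264656) (nat_lit 3104528755026472890125713671)) (C.cons (nat_lit 2084) (C.node (nat_lit 5) (nat_lit 9) (nat_lit 11) (C.cons (nat_lit 2592)
  (C.node (nat_lit 1) (nat_lit 2) (nat_lit 11) C.nil) C.nil)) C.nil))) C.nil)) C.nil))) C.nil))))) C.nil))) C.nil))) C.nil))) C.nil))) (C.cons (nat_lit 1292) (C.miq (nat_lit 1468664611) (nat_lit 1702187200439639463347095581)) (C.cons (nat_lit 1284) (C.node (nat_lit 7) (nat_lit 8) (nat_lit 9) (C.cons (nat_lit 962) (C.miq (nat_lit 997786241) (nat_lit 3249602251355907760937107719)) (C.cons (nat_lit 960) (C.node (nat_lit 1) (nat_lit 7) (nat_lit 8) (C.cons (nat_lit 386) (C.node (nat_lit 4) (nat_lit 6) (nat_lit 7) (C.cons (nat_lit 216) (C.miq (nat_lit 2537260608) (nat_lit 2640364844252554141437329745)) (C.cons (nat_lit 208) (C.node (nat_lit 1) (nat_lit 7) (nat_lit 9) (C.cons (nat_lit 642)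 (C.node (nat_lit 3) (nat_lit 4) (nat_lit 7) C.nil) C.nil)) C.nil))) C.nil)) (C.cons (nat_lit 898) (C.miq (nat_lit 997786241) (nat_lit 3249602251355907760932913415)) (C.cons (nat_lit 896) (C.node (nat_lit 1) (nat_lit 7) (nat_lit 8) (C.cons (nat_lit 450) (C.node (nat_lit 1) (nat_lit 7) (nat_lit 9) (C.cons (nat_lit 674) (C.miq (nat_lit 1636861780) (nat_lit 632274420337870532854743472)) (C.cons (nat_lit 642) (C.node (nat_lit 2) (nat_lit 6) (nat_lit 7) (C.cons (nat_lit 196) (C.node (nat_lit 5) (nat_lit 7) (nat_lit 9) C.nil) C.nil)) C.nil))) (C.cons (nat_lit 386) (C.node (nat_lit 6) (nat_lit 7) (nat_lit 8) (C.cons (nat_lit 448) (C.node (nat_lit 2) (nat_lit 5) (nat_lit 7) (C.cons (nat_lit 174) (C.miq (nat_lit 981618871) (nat_lit 1552263962418440033110591713)) (C.cons (nat_lit 172) (C.miq (nat_lit 981618871) (nat_lit 1552263925524951885691488481)) (C.cons (nat_lit 166) (C.node (nat_lit 1) (nat_lit 3) (nat_lit 7) C.nil) C.nil)))) C.nil)) C.nil))) C.nil))))) C.nil))))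 C.nil))) C.nil)))) C.nil))) C.nil))) C.nil))) C.nil))) (C.cons (nat_lit 184) (C.node (nat_lit 4) (nat_lit 7) (nat_lit 8) (C.cons (nat_lit 912) (C.miq (nat_lit 2839873651) (nat_lit 678227031667394770250498441)) (C.cons (nat_lit 400) (C.node (nat_lit 5) (nat_lit 7) (nat_lit 10) (C.cons (nat_lit 1696) (C.miq (nat_lit 1404662794) (nat_lit 3104552790500117048658560147)) (C.cons (nat_lit 1440) (C.miq (nat_lit 659798176) (nat_lit 222480665382212090974506753)) (C.cons (nat_lit 1184) (C.node (nat_lit 2) (nat_lit 5) (nat_lit 7) (C.cons (nat_lit 166) (C.node (nat_lit 5) (nat_lit 7) (nat_lit 8) (C.cons (nat_lit 928) (C.miq (nat_lit 659863696) (nat_lit 222480665382209891918221057)) (C.cons (nat_lit 416) (C.node (nat_lit 5) (nat_lit 7) (nat_lit 9) (C.cons (nat_lit 672) (C.node (nat_lit 1) (nat_lit 3) (nat_lit 7) (C.cons (nat_lit 138) (C.node (nat_lit 2) (nat_lit 3) (nat_lit 7) C.nil) C.nil)) C.nil)) C.nil))) (C.cons (nat_lit 164) (C.node (nat_lit 4) (nat_lit 6) (nat_lit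 7) (C.cons (nat_lit 720) (C.node (nat_lit 3) (nat_lit 4) (nat_lit 9) (C.cons (nat_lit 1560) (C.miq (nat_lit 1536389284) (nat_lit 3104524899611086402337899667)) (C.cons (nat_lit 792) (C.miq (nat_lit 3108309047) (nat_lit 678249315334235295992775049)) (C.cons (nat_lit 536) (C.node (nat_lit 7) (nat_lit 8) (nat_lit 9) (C.cons (nat_lit 930) (C.miq (nat_lit 659863696) (nat_lit 222480665382209900508155649)) (C.cons (nat_lit 928) (C.miq (nat_lit 659863696) (nat_lit 222480665382209891918221057)) (C.cons (nat_lit 898) (C.miq (nat_lit 997786241) (nat_lit 3249602251355907760932913415)) (C.cons (nat_lit 896) (C.node (nat_lit 1) (nat_lit 7) (nat_lit 9) (C.cons (nat_lit 642) (C.node (nat_lit 5) (nat_lit 7) (nat_lit 9) C.nil) C.nil)) C.nil))))) C.nil)))) (C.cons (nat_lit 208) (C.node (nat_lit 4) (nat_lit 7) (nat_lit 9) (C.cons (nat_lit 656) (C.node (nat_lit 7) (nat_lit 8) (nat_lit 10) (C.cons (nat_lit 1472) (C.node (nat_lit 3) (nat_lit 7) (nat_lit 10) C.nil) C.nil)) C.nil))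 C.nil))) C.nil))) C.nil)))) C.nil))) (C.cons (nat_lit 176) (C.node (nat_lit 4) (nat_lit 7) (nat_lit 8) (C.cons (nat_lit 912) (C.node (nat_lit 3) (nat_lit 4) (nat_lit 7) (C.cons (nat_lit 216) (C.node (nat_lit 3) (nat_lit 4) (nat_lit 9) (C.cons (nat_lit 1560) (C.miq (nat_lit 1804824740) (nat_lit 3104525489906896761043551379)) (C.cons (nat_lit 536)
  (C.node (nat_lit 3) (nat_lit 4) (nat_lit 10) (C.cons (nat_lit 1304) (C.miq (nat_lit 1805938819) (nat_lit 3733166916106503931873984905)) (C.cons (nat_lit 1048) (C.node (nat_lit 3) (nat_lit 7) (nat_lit 10) (C.cons (nat_lit 1672) (C.miq (nat_lit 1621313687) (nat_lit 1287509982481173556555678608)) (C.cons (nat_lit 1160) (C.node (nat_lit 6) (nat_lit 7) (nat_lit 10) (C.cons (nat_lit 1728) (C.miq (nat_lit 1673098250) (nat_lit 3104553380804934606618952851)) (C.cons (nat_lit 1472) (C.miq (nat_lit 1689940744) (nat_lit 3733190084638058907820949897)) (C.cons (nat_lit 1216) (C.node (nat_lit 2) (nat_lit 6) (nat_lit 7) (C.cons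 (nat_lit 198) (C.node (nat_lit 6) (nat_lit 7) (nat_lit 8) C.nil) (C.cons (nat_lit 196) (C.node (nat_lit 3) (nat_lit 7) (nat_lit 9) (C.cons (nat_lit 648) (C.node (nat_lit 6) (nat_lit 7) (nat_lit 8) C.nil) C.nil)) C.nil))) C.nil)))) C.nil))) C.nil))) C.nil))) (C.cons (nat_lit 152) (C.node (nat_lit 4) (nat_lit 6) (nat_lit 7) (C.cons (nat_lit 208) (C.node (nat_lit 4) (nat_lit 5) (nat_lit 11) (C.cons (nat_lit 2354) (C.miq (nat_lit 675904336) (nat_lit 1102552246324152503649765601)) (C.cons (nat_lit 2352) (C.miq (nat_lit 675904336) (nat_lit 1102552246324152495059831009)) (C.cons (nat_lit 2098) (C.node (nat_lit 4) (nat_lit 8) (nat_lit 11) (C.cons (nat_lit 2320) (C.node (nat_lit 5) (nat_lit 9) (nat_lit 11) (C.cons (nat_lit 2596) (C.miq (nat_lit 722965824) (nat_lit 2633052334001307935629836849)) (C.cons (nat_lit 2592) (C.node (nat_lit 1) (nat_lit 4) (nat_lit 8) (C.cons (nat_lit 282) (C.node (nat_lit 1) (nat_lit 7) (nat_lit 8) (C.cons (nat_lit 450) (C.miq (nat_lit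 1367847984) (nat_lit 544058548866398382774093853)) (C.cons (nat_lit 418) (C.node (nat_lit 2) (nat_lit 5) (nat_lit 7) (C.cons (nat_lit 172) (C.miq (nat_lit 2826242851) (nat_lit 505350639462509343796889629)) (C.cons (nat_lit 164) (C.node (nat_lit 1) (nat_lit 7) (nat_lit 9) (C.cons (nat_lit 642) (C.node (nat_lit 3) (nat_lit 5) (nat_lit 7) C.nil) C.nil)) C.nil))) (C.cons (nat_lit 386) (C.miq (nat_lit 1367847984) (nat_lit 466687296411062115592898589)) C.nil)))) (C.cons (nat_lit 274) (C.node (nat_lit 1) (nat_lit 3) (nat_lit 4) (C.cons (nat_lit 90) (C.node (nat_lit 1) (nat_lit 2) (nat_lit 4) (C.cons (nat_lit 534) (C.miq (nat_lit 565679184) (nat_lit 2633052333420906533724684849)) (C.cons (nat_lit 22) (C.node (nat_lit 1) (nat_lit 4) (nat_lit 9) (C.cons (nat_lit 530) (C.node (nat_lit 1) (nat_lit 7) (nat_lit 9) (C.cons (nat_lit 706) (C.miq (nat_lit 660867347) (nat_lit 251494884548838355308773899)) (C.cons (nat_lit 674) (C.miq (nat_lit 605621079) (nat_lit 640742583130313542768658657))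 (C.cons (nat_lit 642) (C.node (nat_lit 2) (nat_lit 5) (nat_lit 11) (C.cons (nat_lit 3108) (C.node (nat_lit 4) (nat_lit 6) (nat_lit 11) C.nil) (C.cons (nat_lit 2084) (C.node (nat_lit 4) (nat_lit 6) (nat_lit 11) C.nil) C.nil))) C.nil)))) C.nil)) C.nil))) (C.cons (nat_lit 26) (C.node (nat_lit 2) (nat_lit 5) (nat_lit 11) (C.cons (nat_lit 3108) (C.node (nat_lit 3) (nat_lit 5) (nat_lit 11) (C.cons (nat_lit 2344) (C.miq (nat_lit 1923124051) (nat_lit 1321363171094897047902947624)) (C.cons (nat_lit 2088) (C.node (nat_lit 5) (nat_lit 8) (nat_lit 11) (C.cons (nat_lit 2336) (C.node (nat_lit 4) (nat_lit 6) (nat_lit 11) (C.cons (nat_lit 2640) (C.node (nat_lit 1) (nat_lit 9) (nat_lit 11) (C.cons (nat_lit 2566) (C.miq (nat_lit 2073264656) (nat_lit 3104528755026472752686760199)) C.nil)) C.nil)) C.nil)) C.nil))) (C.cons (nat_lit 2084) (C.node (nat_lit 5) (nat_lit 10) (nat_lit 11) (C.cons (nat_lit 3104) (C.node (nat_lit 2) (nat_lit 10) (nat_lit 11) (C.cons (nat_lit 3078)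 (C.node (nat_lit 1) (nat_lit 9) (nat_lit 11) (C.cons (nat_lit 2626) (C.node (nat_lit 2) (nat_lit 6) (nat_lit 11) C.nil) C.nil)) (C.cons (nat_lit 3076) (C.node (nat_lit 3) (nat_lit 5) (nat_lit 11) C.nil) C.nil))) C.nil)) C.nil))) C.nil))) C.nil))) C.nil))) C.nil)) (C.cons (nat_lit 2096) (C.node (nat_lit 4) (nat_lit 8) (nat_lit 11) (C.cons (nat_lit 2322) (C.node (nat_lit 4) (nat_lit 6) (nat_lit 11) (C.cons (nat_lit 2640)
  (C.node (nat_lit 1) (nat_lit 4) (nat_lit 9) (C.cons (nat_lit 534) (C.node (nat_lit 2) (nat_lit 9) (nat_lit 11) (C.cons (nat_lit 2596) (C.miq (nat_lit 397557849) (nat_lit 2944953147472188990843781681)) (C.cons (nat_lit 2564) (C.node (nat_lit 1) (nat_lit 7) (nat_lit 9) (C.cons (nat_lit 706) (C.miq (nat_lit 1764454720) (nat_lit 3099727731139912372963837075)) (C.cons (nat_lit 674) (C.miq (nat_lit 1496019264) (nat_lit 3099727731130905173709096083)) (C.cons (nat_lit 642) (C.node (nat_lit 1) (nat_lit 9) (nat_lit 11) (C.cons (nat_lit 2594) (C.node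 (nat_lit 1) (nat_lit 8) (nat_lit 9) (C.cons (nat_lit 834) (C.miq (nat_lit 1629788171) (nat_lit 645615087313317832798572289)) (C.cons (nat_lit 770) (C.node (nat_lit 2) (nat_lit 6) (nat_lit 11) (C.cons (nat_lit 2118) (C.miq (nat_lit 1637200448) (nat_lit 3135995506125793915221116957)) (C.cons (nat_lit 2116) (C.node (nat_lit 1) (nat_lit 7) (nat_lit 8) C.nil) C.nil))) C.nil))) (C.cons (nat_lit 2562) (C.node (nat_lit 1) (nat_lit 7) (nat_lit 8) C.nil) C.nil))) C.nil)))) C.nil))) (C.cons (nat_lit 530) (C.node (nat_lit 2) (nat_lit 4) (nat_lit 9) (C.cons (nat_lit 1556) (C.node (nat_lit 3) (nat_lit 4) (nat_lit 9) (C.cons (nat_lit 536) (C.node (nat_lit 2) (nat_lit 4) (nat_lit 6) (C.cons (nat_lit 118) (C.miq (nat_lit 2489033312) (nat_lit 2533979372294225439288788037)) (C.cons (nat_lit 116) (C.miq (nat_lit 2489033312) (nat_lit 2533979372294225430698853445)) (C.cons (nat_lit 86) (C.miq (nat_lit 2873493522) (nat_lit 3191584327155048944229548295)) (C.cons (nat_lit 84)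 (C.node (nat_lit 1) (nat_lit 2) (nat_lit 4) (C.cons (nat_lit 54) (C.node (nat_lit 2) (nat_lit 4) (nat_lit 8) C.nil) C.nil)) C.nil))))) C.nil)) (C.cons (nat_lit 532) (C.node (nat_lit 2) (nat_lit 6) (nat_lit 11) (C.cons (nat_lit 2118) (C.node (nat_lit 1) (nat_lit 2) (nat_lit 4) (C.cons (nat_lit 54) (C.node (nat_lit 2) (nat_lit 4) (nat_lit 6) (C.cons (nat_lit 84) (C.node (nat_lit 2) (nat_lit 9) (nat_lit 11) (C.cons (nat_lit 2596) (C.miq (nat_lit 2871069012) (nat_lit 2560526488162251441196892721)) C.nil)) C.nil)) (C.cons (nat_lit 22) (C.node (nat_lit 1) (nat_lit 9) (nat_lit 11) (C.cons (nat_lit 2594) (C.node (nat_lit 2) (nat_lit 9) (nat_lit 11) (C.cons (nat_lit 2564) (C.node (nat_lit 1) (nat_lit 3) (nat_lit 11) (C.cons (nat_lit 2058) (C.node (nat_lit 2) (nat_lit 4) (nat_lit 6) C.nil) C.nil)) C.nil)) (C.cons (nat_lit 2562) (C.node (nat_lit 2) (nat_lit 4) (nat_lit 6) (C.cons (nat_lit 84) (C.node (nat_lit 2) (nat_lit 6) (nat_lit 7) (C.cons (nat_lit 196) (C.node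 (nat_lit 1) (nat_lit 7) (nat_lit 8) C.nil) C.nil)) C.nil)) C.nil))) C.nil))) (C.cons (nat_lit 2116) (C.node (nat_lit 3) (nat_lit 4) (nat_lit 9) (C.cons (nat_lit 1560) (C.node (nat_lit 3) (nat_lit 4) (nat_lit 8) (C.cons (nat_lit 312) (C.miq (nat_lit 1681242528) (nat_lit 377226785912144483054063361)) (C.cons (nat_lit 280) (C.node (nat_lit 5) (nat_lit 8) (nat_lit 11) C.nil) C.nil))) (C.cons (nat_lit 536) (C.node (nat_lit 4) (nat_lit 9) (nat_lit 10) (C.cons (nat_lit 1552) (C.node (nat_lit 5) (nat_lit 8) (nat_lit 11) (C.cons (nat_lit 2344) (C.node (nat_lit 6) (nat_lit 8) (nat_lit 11) C.nil) C.nil)) C.nil)) C.nil))) C.nil))) C.nil))) C.nil))) (C.cons (nat_lit 2128) (C.node (nat_lit 4) (nat_lit 9) (nat_lit 11) (C.cons (nat_lit 2576) (C.node (nat_lit 5) (nat_lit 8) (nat_lit 11) (C.cons (nat_lit 2344) (C.node (nat_lit 6) (nat_lit 8) (nat_lit 11) (C.cons (nat_lit 2368) (C.node (nat_lit 2) (nat_lit 10) (nat_lit 11) (C.cons (nat_lit 3110) (C.miq (nat_lit 2241966852)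 (nat_lit 3759802133001017806541752349)) (C.cons (nat_lit 3108) (C.miq (nat_lit 1923124051) (nat_lit 1321363171094897047902947624)) (C.cons (nat_lit 3078) (C.miq (nat_lit 730243392) (nat_lit 2862756504005104401495688339)) C.nil)))) C.nil)) (C.cons (nat_lit 2336) (C.node (nat_lit 3) (nat_lit 5) (nat_lit 11) (C.cons (nat_lit 2090) (C.node (nat_lit 3) (nat_lit 8) (nat_lit 11) (C.cons (nat_lit 2376) (C.node (nat_lit 3) (nat_lit 10) (nat_lit 11) C.nil) C.nil)) (C.cons (nat_lit 2088)
  (C.node (nat_lit 3) (nat_lit 8) (nat_lit 11) C.nil) C.nil))) C.nil))) C.nil)) C.nil))) (C.cons (nat_lit 2320) (C.node (nat_lit 1) (nat_lit 7) (nat_lit 8) (C.cons (nat_lit 450) (C.node (nat_lit 1) (nat_lit 7) (nat_lit 9) (C.cons (nat_lit 674) (C.miq (nat_lit 424178950) (nat_lit 1102548648713091520431982817)) (C.cons (nat_lit 642) (C.node (nat_lit 2) (nat_lit 6) (nat_lit 7) (C.cons (nat_lit 196) (C.node (nat_lit 5) (nat_lit 7) (nat_lit 8) C.nil) C.nil)) C.nil))) (C.cons (nat_lit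 418) (C.node (nat_lit 1) (nat_lit 4) (nat_lit 8) (C.cons (nat_lit 282) (C.miq (nat_lit 347439879) (nat_lit 2533916228730670425005162889)) (C.cons (nat_lit 274) (C.node (nat_lit 2) (nat_lit 5) (nat_lit 7) (C.cons (nat_lit 172) (C.miq (nat_lit 2826242851) (nat_lit 505350639462509343796889629)) (C.cons (nat_lit 164) (C.node (nat_lit 1) (nat_lit 7) (nat_lit 9) (C.cons (nat_lit 642) (C.node (nat_lit 3) (nat_lit 5) (nat_lit 7) C.nil) C.nil)) C.nil))) C.nil))) (C.cons (nat_lit 386) (C.node (nat_lit 5) (nat_lit 7) (nat_lit 8) (C.cons (nat_lit 1440) (C.node (nat_lit 2) (nat_lit 5) (nat_lit 7) (C.cons (nat_lit 174) (C.miq (nat_lit 2557545251) (nat_lit 466655015099553259629447197)) (C.cons (nat_lit 164) (C.miq (nat_lit 846531466) (nat_lit 198283480783871674587025153)) C.nil))) (C.cons (nat_lit 416) (C.node (nat_lit 5) (nat_lit 7) (nat_lit 10) (C.cons (nat_lit 1696) (C.node (nat_lit 1) (nat_lit 7) (nat_lit 9) C.nil) C.nil)) C.nil))) C.nil)))) C.nil))) C.nil)))))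 C.nil)) C.nil))) (C.cons (nat_lit 400) (C.node (nat_lit 7) (nat_lit 8) (nat_lit 9) (C.cons (nat_lit 962) (C.miq (nat_lit 997786241) (nat_lit 3249602251355907760937107719)) (C.cons (nat_lit 960) (C.node (nat_lit 4) (nat_lit 6) (nat_lit 7) (C.cons (nat_lit 216) (C.miq (nat_lit 2537260608) (nat_lit 2640364844252554141437329745)) (C.cons (nat_lit 208) (C.node (nat_lit 1) (nat_lit 7) (nat_lit 8) (C.cons (nat_lit 418) (C.node (nat_lit 1) (nat_lit 7) (nat_lit 9) (C.cons (nat_lit 642) (C.node (nat_lit 7) (nat_lit 8) (nat_lit 10) (C.cons (nat_lit 1408) (C.node (nat_lit 2) (nat_lit 5) (nat_lit 7) C.nil) C.nil)) C.nil)) (C.cons (nat_lit 386) (C.node (nat_lit 1) (nat_lit 7) (nat_lit 9) (C.cons (nat_lit 674) (C.node (nat_lit 2) (nat_lit 5) (nat_lit 7) (C.cons (nat_lit 164) (C.node (nat_lit 3) (nat_lit 5) (nat_lit 7) C.nil) C.nil)) (C.cons (nat_lit 642) (C.node (nat_lit 3) (nat_lit 4) (nat_lit 7) (C.cons (nat_lit 664) (C.node (nat_lit 3) (nat_lit 7) (nat_lit 10) C.nil)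 C.nil)) C.nil))) C.nil))) C.nil))) (C.cons (nat_lit 930) (C.miq (nat_lit 659863696) (nat_lit 212809258825292867110506241)) (C.cons (nat_lit 928) (C.miq (nat_lit 659863696) (nat_lit 212809258825292858520571649)) (C.cons (nat_lit 898) (C.miq (nat_lit 997786241) (nat_lit 3249602251355907760932913415)) (C.cons (nat_lit 896) (C.node (nat_lit 4) (nat_lit 5) (nat_lit 11) (C.cons (nat_lit 2354) (C.miq (nat_lit 1484344096) (nat_lit 1083207883660735649354680349)) (C.cons (nat_lit 2352) (C.miq (nat_lit 1484344096) (nat_lit 1083207883660172699401259037)) (C.cons (nat_lit 2098) (C.node (nat_lit 4) (nat_lit 8) (nat_lit 11) (C.cons (nat_lit 2320) (C.node (nat_lit 5) (nat_lit 9) (nat_lit 11) (C.cons (nat_lit 2596) (C.miq (nat_lit 722965824) (nat_lit 2633052334001307935629836849)) (C.cons (nat_lit 2592) (C.node (nat_lit 2) (nat_lit 5) (nat_lit 11) (C.cons (nat_lit 3108) (C.node (nat_lit 3) (nat_lit 5) (nat_lit 11) (C.cons (nat_lit 2344) (C.miq (nat_lit 1923124051) (nat_lit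 1321363171094897047902947624)) (C.cons (nat_lit 2088) (C.node (nat_lit 5) (nat_lit 8) (nat_lit 11) (C.cons (nat_lit 2336) (C.node (nat_lit 4) (nat_lit 6) (nat_lit 11) (C.cons (nat_lit 2640) (C.node (nat_lit 1) (nat_lit 9) (nat_lit 11) (C.cons (nat_lit 2566) (C.miq (nat_lit 2073264656) (nat_lit 3104528755026472752686760199)) C.nil)) C.nil)) C.nil)) C.nil))) (C.cons (nat_lit 2084) (C.node (nat_lit 5) (nat_lit 10) (nat_lit 11) (C.cons (nat_lit 3104) (C.node (nat_lit 2) (nat_lit 10) (nat_lit 11) (C.cons (nat_lit 3078) (C.node (nat_lit 1) (nat_lit 9) (nat_lit 11) (C.cons (nat_lit 2626)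
  (C.node (nat_lit 2) (nat_lit 6) (nat_lit 11) C.nil) C.nil)) (C.cons (nat_lit 3076) (C.node (nat_lit 3) (nat_lit 5) (nat_lit 11) C.nil) C.nil))) C.nil)) C.nil))) C.nil))) C.nil)) (C.cons (nat_lit 2096) (C.node (nat_lit 4) (nat_lit 8) (nat_lit 11) (C.cons (nat_lit 2322) (C.node (nat_lit 4) (nat_lit 6) (nat_lit 11) (C.cons (nat_lit 2640) (C.node (nat_lit 4) (nat_lit 6) (nat_lit 7) (C.cons (nat_lit 216) (C.miq (nat_lit 1737048843) (nat_lit 1083246233839862616896374813)) (C.cons (nat_lit 208) (C.node (nat_lit 4) (nat_lit 8) (nat_lit 9) (C.cons (nat_lit 792) (C.miq (nat_lit 929333433) (nat_lit 251471180411778674784734977)) (C.cons (nat_lit 788) (C.miq (nat_lit 1461980041) (nat_lit 178931370566193553570270977)) (C.cons (nat_lit 784) (C.node (nat_lit 1) (nat_lit 4) (nat_lit 9) (C.cons (nat_lit 534) (C.node (nat_lit 2) (nat_lit 9) (nat_lit 11) (C.cons (nat_lit 2596) (C.miq (nat_lit 397557849) (nat_lit 2944953147472188990843781681)) (C.cons (nat_lit 2564) (C.node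 (nat_lit 3) (nat_lit 4) (nat_lit 7) (C.cons (nat_lit 664) (C.miq (nat_lit 410591284) (nat_lit 1083207385010072708277864477)) (C.cons (nat_lit 152) (C.node (nat_lit 4) (nat_lit 7) (nat_lit 9) C.nil) C.nil))) C.nil))) (C.cons (nat_lit 530) (C.node (nat_lit 2) (nat_lit 4) (nat_lit 9) (C.cons (nat_lit 1556) (C.node (nat_lit 2) (nat_lit 4) (nat_lit 6) (C.cons (nat_lit 118) (C.miq (nat_lit 2489033312) (nat_lit 2533979372294225439288788037)) (C.cons (nat_lit 116) (C.miq (nat_lit 2489033312) (nat_lit 2533979372294225430698853445)) (C.cons (nat_lit 86) (C.miq (nat_lit 2873493522) (nat_lit 3191584327155048944229548295)) (C.cons (nat_lit 84) (C.node (nat_lit 3) (nat_lit 4) (nat_lit 7) (C.cons (nat_lit 664) (C.node (nat_lit 3) (nat_lit 7) (nat_lit 10) C.nil) C.nil)) C.nil))))) (C.cons (nat_lit 532) (C.node (nat_lit 2) (nat_lit 6) (nat_lit 11) (C.cons (nat_lit 2118) (C.node (nat_lit 1) (nat_lit 2) (nat_lit 4) (C.cons (nat_lit 54) (C.node (nat_lit 2) (nat_lit 4) (nat_lit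 6) (C.cons (nat_lit 84) (C.node (nat_lit 3) (nat_lit 4) (nat_lit 7) C.nil) C.nil)) (C.cons (nat_lit 22) (C.node (nat_lit 3) (nat_lit 4) (nat_lit 7) (C.cons (nat_lit 664) (C.node (nat_lit 2) (nat_lit 6) (nat_lit 7) C.nil) C.nil)) C.nil))) (C.cons (nat_lit 2116) (C.node (nat_lit 3) (nat_lit 4) (nat_lit 7) (C.cons (nat_lit 664) (C.node (nat_lit 4) (nat_lit 9) (nat_lit 10) (C.cons (nat_lit 1552) (C.node (nat_lit 3) (nat_lit 7) (nat_lit 10) C.nil) C.nil)) (C.cons (nat_lit 152) (C.node (nat_lit 4) (nat_lit 7) (nat_lit 9) C.nil) C.nil))) C.nil))) C.nil))) C.nil))) C.nil)))) C.nil))) (C.cons (nat_lit 2128) (C.node (nat_lit 4) (nat_lit 9) (nat_lit 11) (C.cons (nat_lit 2576) (C.node (nat_lit 5) (nat_lit 8) (nat_lit 11) (C.cons (nat_lit 2344) (C.node (nat_lit 6) (nat_lit 8) (nat_lit 11) (C.cons (nat_lit 2368) (C.node (nat_lit 2) (nat_lit 10) (nat_lit 11) (C.cons (nat_lit 3110) (C.miq (nat_lit 2241966852) (nat_lit 3759802133001017806541752349)) (C.cons (nat_lit 3108)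 (C.miq (nat_lit 1923124051) (nat_lit 1321363171094897047902947624)) (C.cons (nat_lit 3078) (C.miq (nat_lit 730243392) (nat_lit 2862756504005104401495688339)) C.nil)))) C.nil)) (C.cons (nat_lit 2336) (C.node (nat_lit 3) (nat_lit 5) (nat_lit 11) (C.cons (nat_lit 2090) (C.node (nat_lit 3) (nat_lit 8) (nat_lit 11) (C.cons (nat_lit 2376) (C.node (nat_lit 3) (nat_lit 10) (nat_lit 11) C.nil) C.nil)) (C.cons (nat_lit 2088) (C.node (nat_lit 3) (nat_lit 8) (nat_lit 11) C.nil) C.nil))) C.nil))) C.nil)) C.nil))) (C.cons (nat_lit 2320) (C.node (nat_lit 1) (nat_lit 7) (nat_lit 8) (C.cons (nat_lit 450) (C.node (nat_lit 1) (nat_lit 7) (nat_lit 9) (C.cons (nat_lit 674) (C.node (nat_lit 1) (nat_lit 2) (nat_lit 7) (C.cons (nat_lit 142) (C.miq (nat_lit 2266608176) (nat_lit 814886857049920835326511133)) (C.cons (nat_lit 134) (C.node (nat_lit 1) (nat_lit 3) (nat_lit 7) (C.cons (nat_lit 138) (C.node (nat_lit 2) (nat_lit 5) (nat_lit 7) C.nil) C.nil)) C.nil))) (C.cons (nat_lit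 642) (C.node (nat_lit 2) (nat_lit 6) (nat_lit 7) (C.cons (nat_lit 204) (C.node (nat_lit 1) (nat_lit 2) (nat_lit 7)
  (C.cons (nat_lit 134) (C.node (nat_lit 2) (nat_lit 5) (nat_lit 7) C.nil) C.nil)) (C.cons (nat_lit 196) (C.node (nat_lit 5) (nat_lit 7) (nat_lit 8) (C.cons (nat_lit 1440) (C.node (nat_lit 5) (nat_lit 7) (nat_lit 9) C.nil) C.nil)) C.nil))) C.nil))) (C.cons (nat_lit 418) (C.node (nat_lit 2) (nat_lit 5) (nat_lit 7) (C.cons (nat_lit 172) (C.miq (nat_lit 2826242851) (nat_lit 505350639462509343796889629)) (C.cons (nat_lit 164) (C.node (nat_lit 5) (nat_lit 8) (nat_lit 11) (C.cons (nat_lit 2344) (C.miq (nat_lit 364148784) (nat_lit 2533930119167239671873601929)) (C.cons (nat_lit 2336) (C.node (nat_lit 1) (nat_lit 7) (nat_lit 9) (C.cons (nat_lit 706) (C.node (nat_lit 1) (nat_lit 2) (nat_lit 7) (C.cons (nat_lit 134) (C.node (nat_lit 1) (nat_lit 3) (nat_lit 7) C.nil) C.nil)) (C.cons (nat_lit 642) (C.node (nat_lit 3) (nat_lit 5) (nat_lit 7) (C.cons (nat_lit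 680) (C.node (nat_lit 5) (nat_lit 7) (nat_lit 10) C.nil) C.nil)) C.nil))) C.nil))) C.nil))) (C.cons (nat_lit 386) (C.node (nat_lit 5) (nat_lit 7) (nat_lit 8) (C.cons (nat_lit 1440) (C.node (nat_lit 6) (nat_lit 7) (nat_lit 8) (C.cons (nat_lit 448) (C.node (nat_lit 5) (nat_lit 7) (nat_lit 9) (C.cons (nat_lit 680) (C.miq (nat_lit 659798176) (nat_lit 822107871911068161628770049)) (C.cons (nat_lit 674) (C.node (nat_lit 2) (nat_lit 5) (nat_lit 7) C.nil) C.nil))) C.nil)) (C.cons (nat_lit 416) (C.node (nat_lit 5) (nat_lit 7) (nat_lit 10) (C.cons (nat_lit 1696) (C.node (nat_lit 6) (nat_lit 7) (nat_lit 8) (C.cons (nat_lit 1472) (C.miq (nat_lit 1165363624) (nat_lit 2747894604694719700521717505)) C.nil)) (C.cons (nat_lit 1184) (C.node (nat_lit 6) (nat_lit 7) (nat_lit 8) (C.cons (nat_lit 448) (C.node (nat_lit 7) (nat_lit 8) (nat_lit 10) C.nil) C.nil)) C.nil))) C.nil))) C.nil)))) C.nil))) C.nil))))) C.nil))))))) C.nil))) C.nil)))) List.nil)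

theorem ok12_291 : okL par12 (nat_lit 292) c12_291 (nat_lit 291) = true := by decide +kernel

noncomputable def c12_292 : List C :=
  (List.cons (C.node (nat_lit 2) (nat_lit 7) (nat_lit 10) (C.cons (nat_lit 1188) (C.node (nat_lit 2) (nat_lit 10) (nat_lit 11) (C.cons (nat_lit 3078) (C.node (nat_lit 5) (nat_lit 10) (nat_lit 11) (C.cons (nat_lit 3104) (C.node (nat_lit 2) (nat_lit 5) (nat_lit 11) (C.cons (nat_lit 2596) (C.node (nat_lit 2) (nat_lit 6) (nat_lit 11) (C.cons (nat_lit 2116) (C.node (nat_lit 4) (nat_lit 5) (nat_lit 11) (C.cons (nat_lit 2354) (C.miq (nat_lit 625064202) (nat_lit 2845868159181807404352474881)) (C.cons (nat_lit 2352) (C.miq (nat_lit 2215097746) (nat_lit 1415697071699325874791057956)) (C.cons (nat_lit 2098) (C.miq (nat_lit 625064202) (nat_lit 2536383149360462335627693825)) (C.cons (nat_lit 2096) (C.node (nat_lit 4) (nat_lit 8) (nat_lit 11) (C.cons (nat_lit 2322) (C.miq (nat_lit 1656228372) (nat_lit 2944949513441654879309399187)) (C.cons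 (nat_lit 2320) (C.node (nat_lit 2) (nat_lit 4) (nat_lit 5) (C.cons (nat_lit 308) (C.miq (nat_lit 307538832) (nat_lit 372370754445007227781713665)) (C.cons (nat_lit 118) (C.miq (nat_lit 2334525972) (nat_lit 2558093251938466779259864211)) (C.cons (nat_lit 116) (C.miq (nat_lit 307538832) (nat_lit 140256997078998426238127873)) (C.cons (nat_lit 54) (C.node (nat_lit 1) (nat_lit 2) (nat_lit 9) (C.cons (nat_lit 582) (C.node (nat_lit 2) (nat_lit 4) (nat_lit 6) (C.cons (nat_lit 84) (C.node (nat_lit 1) (nat_lit 2) (nat_lit 3) (C.cons (nat_lit 142) (C.miq (nat_lit 2316765987) (nat_lit 1415659385420310336898992157)) (C.cons (nat_lit 14) (C.node (nat_lit 1) (nat_lit 2) (nat_lit 7) (C.cons (nat_lit 134) (C.node (nat_lit 1) (nat_lit 9) (nat_lit 10) (C.cons (nat_lit 1570) (C.node (nat_lit 1) (nat_lit 7) (nat_lit 9) (C.cons (nat_lit 898) (C.miq (nat_lit 846269321) (nat_lit 162005708060144848733343489)) (C.cons (nat_lit 642) (C.node (nat_lit 1) (nat_lit 9) (nat_lit 11)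 (C.cons (nat_lit 2578) (C.miq (nat_lit 873794458) (nat_lit 65301640626263075263221505)) (C.cons (nat_lit 2562) (C.node (nat_lit 1) (nat_lit 4) (nat_lit 11) (C.cons (nat_lit 2130) (C.node (nat_lit 4) (nat_lit 9) (nat_lit 11) C.nil) C.nil)) C.nil))) C.nil))) (C.cons (nat_lit 1538) (C.miq (nat_lit 1503740082) (nat_lit 1859328906849403610119669789)) C.nil))) C.nil)) C.nil))) C.nil)) (C.cons (nat_lit 518) (C.node (nat_lit 2) (nat_lit 4) (nat_lit 6) (C.cons (nat_lit 596) (C.node (nat_lit 2) (nat_lit 8) (nat_lit 9) (C.cons (nat_lit 780) (C.miq (nat_lit 928153785) (nat_lit 1436218262273186381479284481)) (C.cons (nat_lit 772) (C.node (nat_lit 4) (nat_lit 9) (nat_lit 11) (C.cons (nat_lit 2578) (C.miq (nat_lit 1955963314) (nat_lit 678229299865384804281486342)) (C.cons (nat_lit 2576) (C.node (nat_lit 1) (nat_lit 4) (nat_lit 11) (C.cons (nat_lit 2130) (C.node (nat_lit 1) (nat_lit 9) (nat_lit 11) C.nil) C.nil)) C.nil))) C.nil))) (C.cons (nat_lit 84) (C.node (nat_lit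 2) (nat_lit 4) (nat_lit 9) (C.cons (nat_lit 1556) (C.miq (nat_lit 1380432288) (nat_lit 178962951482960382254059265)) (C.cons (nat_lit 788) (C.miq (nat_lit 1380366720) (nat_lit 101591699027620816483323649)) (C.cons (nat_lit 532) (C.node (nat_lit 2) (nat_lit 4) (nat_lit 8) (C.cons (nat_lit 1300) (C.node (nat_lit 4) (nat_lit 5) (nat_lit 10) (C.cons (nat_lit 1136) (C.miq (nat_lit 3091624613) (nat_lit 407449931345088200485897380)) (C.cons (nat_lit 1072) (C.node (nat_lit 7) (nat_lit 8) (nat_lit 10) (C.cons (nat_lit 1472) (C.miq (nat_lit 1747679808) (nat_lit 2944985226444852960706757779)) (C.cons (nat_lit 1408) (C.node (nat_lit 2) (nat_lit 8) (nat_lit 9) (C.cons (nat_lit 844) (C.miq (nat_lit 928153785) (nat_lit 1436219442864807098890587905)) (C.cons (nat_lit 836) (C.miq (nat_lit 1384544832) (nat_lit 1010703914981507387677017235)) (C.cons (nat_lit 780) (C.miq (nat_lit 928153785) (nat_lit 1436218262273186381479284481)) (C.cons (nat_lit 772) (C.node (nat_lit 2)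 (nat_lit 3) (nat_lit 10) (C.cons (nat_lit 1548) (C.node (nat_lit 2) (nat_lit 6) (nat_lit 9) C.nil) C.nil)) C.nil))))) C.nil))) C.nil))) (C.cons (nat_lit 276) (C.node (nat_lit 2) (nat_lit 4) (nat_lit 10) (C.cons (nat_lit 1044)
  (C.node (nat_lit 2) (nat_lit 8) (nat_lit 10) (C.cons (nat_lit 1284) (C.node (nat_lit 2) (nat_lit 3) (nat_lit 10) C.nil) C.nil)) C.nil)) C.nil))) C.nil)))) C.nil))) C.nil))) (C.cons (nat_lit 52) (C.miq (nat_lit 307538832) (nat_lit 62885744623662159056932609)) C.nil)))))) C.nil))) C.nil))))) C.nil)) (C.cons (nat_lit 2084) (C.node (nat_lit 2) (nat_lit 6) (nat_lit 11) (C.cons (nat_lit 2628) (C.node (nat_lit 4) (nat_lit 9) (nat_lit 11) (C.cons (nat_lit 2578) (C.miq (nat_lit 2516890273) (nat_lit 407455557656072988371651590)) (C.cons (nat_lit 2576) (C.node (nat_lit 1) (nat_lit 2) (nat_lit 7) (C.cons (nat_lit 206) (C.miq (nat_lit 2451224176) (nat_lit 3721144527457532841768978657)) (C.cons (nat_lit 198) (C.miq (nat_lit 2451224176) (nat_lit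 3721144527457532807409240289)) (C.cons (nat_lit 142) (C.miq (nat_lit 2316765987) (nat_lit 1415659385420310336898992157)) (C.cons (nat_lit 134) (C.node (nat_lit 2) (nat_lit 3) (nat_lit 7) (C.cons (nat_lit 204) (C.miq (nat_lit 2419505266) (nat_lit 88300063956440711936346500)) (C.cons (nat_lit 140) (C.node (nat_lit 2) (nat_lit 6) (nat_lit 7) (C.cons (nat_lit 196) (C.node (nat_lit 1) (nat_lit 9) (nat_lit 11) (C.cons (nat_lit 2594) (C.node (nat_lit 3) (nat_lit 9) (nat_lit 11) (C.cons (nat_lit 2568) (C.node (nat_lit 1) (nat_lit 9) (nat_lit 10) (C.cons (nat_lit 1602) (C.miq (nat_lit 431269408) (nat_lit 3114214512915529267928695877)) (C.cons (nat_lit 1538) (C.node (nat_lit 5) (nat_lit 9) (nat_lit 10) (C.cons (nat_lit 1632) (C.miq (nat_lit 1504945696) (nat_lit 3104541151012184670619894853)) (C.cons (nat_lit 1568) (C.node (nat_lit 2) (nat_lit 3) (nat_lit 10) (C.cons (nat_lit 1548) (C.miq (nat_lit 1772466736) (nat_lit 1895637615344740975224883229)) (C.cons (nat_lit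 1292) (C.miq (nat_lit 1461914506) (nat_lit 169269261168289669819666177)) (C.cons (nat_lit 1036) (C.node (nat_lit 2) (nat_lit 9) (nat_lit 10) (C.cons (nat_lit 1556) (C.miq (nat_lit 1648867744) (nat_lit 178962951491967581508800257)) (C.cons (nat_lit 1540) (C.node (nat_lit 2) (nat_lit 3) (nat_lit 9) (C.cons (nat_lit 812) (C.miq (nat_lit 1647819136) (nat_lit 169291544935047352604495617)) (C.cons (nat_lit 780) (C.miq (nat_lit 1647819136) (nat_lit 169291544935047215165542145)) (C.cons (nat_lit 556) (C.miq (nat_lit 324667687) (nat_lit 1287527599174104185846366853)) (C.cons (nat_lit 524) (C.node (nat_lit 1) (nat_lit 2) (nat_lit 9) (C.cons (nat_lit 534) (C.node (nat_lit 2) (nat_lit 4) (nat_lit 6) C.nil) C.nil)) C.nil))))) C.nil))) C.nil)))) C.nil))) C.nil))) C.nil)) (C.cons (nat_lit 2562) (C.node (nat_lit 3) (nat_lit 9) (nat_lit 11) (C.cons (nat_lit 2600) (C.node (nat_lit 3) (nat_lit 10) (nat_lit 11) (C.cons (nat_lit 3144) (C.miq (nat_lit 2449847971) (nat_lit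 44778217600053857562987592)) (C.cons (nat_lit 3080) (C.node (nat_lit 6) (nat_lit 10) (nat_lit 11) C.nil) C.nil))) (C.cons (nat_lit 2568) (C.node (nat_lit 5) (nat_lit 9) (nat_lit 11) C.nil) C.nil))) C.nil))) C.nil)) C.nil))) C.nil))))) C.nil))) (C.cons (nat_lit 2116) (C.node (nat_lit 2) (nat_lit 9) (nat_lit 11) (C.cons (nat_lit 2564) (C.node (nat_lit 3) (nat_lit 10) (nat_lit 11) (C.cons (nat_lit 3144) (C.node (nat_lit 2) (nat_lit 3) (nat_lit 10) (C.cons (nat_lit 1548) (C.miq (nat_lit 2545098858) (nat_lit 2640322545779737342589273157)) (C.cons (nat_lit 1292) (C.miq (nat_lit 896704696) (nat_lit 1436227707195303305108786945)) (C.cons (nat_lit 1036) (C.node (nat_lit 2) (nat_lit 3) (nat_lit 7) (C.cons (nat_lit 206) (C.miq (nat_lit 2586970983) (nat_lit 1252459048351842256592701665)) (C.cons (nat_lit 204) (C.miq (nat_lit 2586970983) (nat_lit 1252459048351842256592570593)) (C.cons (nat_lit 142) (C.miq (nat_lit 2316765987) (nat_lit 1415659385420310336898992157))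 (C.cons (nat_lit 140) (C.node (nat_lit 1) (nat_lit 2) (nat_lit 7) (C.cons (nat_lit 198) (C.node (nat_lit 1) (nat_lit 3) (nat_lit 7) (C.cons (nat_lit 170) (C.miq (nat_lit 975261799) (nat_lit 3721076809020096674978466017)) (C.cons (nat_lit 138) (C.node (nat_lit 6) (nat_lit 8) (nat_lit 11) (C.cons (nat_lit 2370)
  (C.miq (nat_lit 2551319399) (nat_lit 317959389789730580239616225)) (C.cons (nat_lit 2368) (C.node (nat_lit 3) (nat_lit 9) (nat_lit 11) (C.cons (nat_lit 2600) (C.node (nat_lit 1) (nat_lit 3) (nat_lit 11) (C.cons (nat_lit 2314) (C.miq (nat_lit 824621066) (nat_lit 239425309498398545178595073)) C.nil)) C.nil)) C.nil))) C.nil))) (C.cons (nat_lit 134) (C.node (nat_lit 2) (nat_lit 6) (nat_lit 7) (C.cons (nat_lit 196) (C.node (nat_lit 2) (nat_lit 8) (nat_lit 10) (C.cons (nat_lit 1300) (C.node (nat_lit 2) (nat_lit 9) (nat_lit 10) C.nil) C.nil)) C.nil)) C.nil))) C.nil))))) C.nil)))) (C.cons (nat_lit 3080) (C.node (nat_lit 6) (nat_lit 10) (nat_lit 11) (C.cons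 (nat_lit 3136) (C.node (nat_lit 3) (nat_lit 9) (nat_lit 11) C.nil) C.nil)) C.nil))) C.nil)) C.nil))) C.nil))) C.nil)) (C.cons (nat_lit 3076) (C.node (nat_lit 5) (nat_lit 10) (nat_lit 11) (C.cons (nat_lit 3106) (C.node (nat_lit 2) (nat_lit 5) (nat_lit 11) (C.cons (nat_lit 2596) (C.miq (nat_lit 354921360) (nat_lit 1436225475713762200876551937)) (C.cons (nat_lit 2084) (C.node (nat_lit 3) (nat_lit 10) (nat_lit 11) (C.cons (nat_lit 3144) (C.node (nat_lit 1) (nat_lit 3) (nat_lit 11) (C.cons (nat_lit 2314) (C.miq (nat_lit 2545091201) (nat_lit 2640303637867062490324140295)) (C.cons (nat_lit 2058) (C.node (nat_lit 3) (nat_lit 8) (nat_lit 11) (C.cons (nat_lit 2344) (C.miq (nat_lit 461874480) (nat_lit 2944964898592818328561583145)) (C.cons (nat_lit 2312) (C.node (nat_lit 2) (nat_lit 3) (nat_lit 7) (C.cons (nat_lit 206) (C.miq (nat_lit 2335246946) (nat_lit 2487974189341757116093695045)) (C.cons (nat_lit 204) (C.miq (nat_lit 2604075618) (nat_lit 2640305889269436549155259461))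 (C.cons (nat_lit 142) (C.miq (nat_lit 2608007201) (nat_lit 2640303638766656515749052679)) (C.cons (nat_lit 140) (C.node (nat_lit 1) (nat_lit 2) (nat_lit 7) (C.cons (nat_lit 198) (C.node (nat_lit 1) (nat_lit 2) (nat_lit 11) (C.cons (nat_lit 2566) (C.miq (nat_lit 309566336) (nat_lit 169259263115473887359995649)) (C.cons (nat_lit 2054) (C.node (nat_lit 2) (nat_lit 6) (nat_lit 11) (C.cons (nat_lit 2628) (C.miq (nat_lit 448163986) (nat_lit 3800866429653344414637228677)) C.nil)) C.nil))) (C.cons (nat_lit 134) (C.node (nat_lit 2) (nat_lit 6) (nat_lit 7) (C.cons (nat_lit 196) (C.node (nat_lit 3) (nat_lit 5) (nat_lit 11) (C.cons (nat_lit 2600) (C.node (nat_lit 3) (nat_lit 5) (nat_lit 7) (C.cons (nat_lit 184) (C.miq (nat_lit 2507846464) (nat_lit 1436274728378002307737126941)) (C.cons (nat_lit 170) (C.miq (nat_lit 2838563671) (nat_lit 632289805876917924728015073)) (C.cons (nat_lit 168) (C.node (nat_lit 2) (nat_lit 9) (nat_lit 11) (C.cons (nat_lit 2628) (C.miq (nat_lit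 2449847971) (nat_lit 44778217600053857562987592)) (C.cons (nat_lit 2566) (C.miq (nat_lit 309566336) (nat_lit 169259263115473887359995649)) (C.cons (nat_lit 2564) (C.node (nat_lit 4) (nat_lit 9) (nat_lit 11) (C.cons (nat_lit 2640) (C.miq (nat_lit 1678424403) (nat_lit 1415710132075194854473796136)) (C.cons (nat_lit 2578) (C.miq (nat_lit 2510402308) (nat_lit 3754971152161099753526069277)) C.nil))) C.nil)))) C.nil)))) (C.cons (nat_lit 2088) (C.node (nat_lit 3) (nat_lit 9) (nat_lit 11) C.nil) C.nil))) C.nil)) C.nil))) C.nil))))) C.nil))) C.nil))) (C.cons (nat_lit 3080) (C.node (nat_lit 6) (nat_lit 10) (nat_lit 11) (C.cons (nat_lit 3136) (C.node (nat_lit 4) (nat_lit 5) (nat_lit 11) (C.cons (nat_lit 2352) (C.node (nat_lit 2) (nat_lit 4) (nat_lit 8) (C.cons (nat_lit 1300) (C.miq (nat_lit 2458126261) (nat_lit 1571613914304005100849334497)) (C.cons (nat_lit 788) (C.miq (nat_lit 1461980041) (nat_lit 178931370566193553570270977)) (C.cons (nat_lit 276) (C.miq (nat_lit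 2458126261) (nat_lit 333673875018624825950210273)) C.nil)))) (C.cons (nat_lit 2096) (C.node (nat_lit 5) (nat_lit 8) (nat_lit 11) (C.cons (nat_lit 2344) (C.miq (nat_lit 461874480) (nat_lit 2944964898592818328561583145)) (C.cons (nat_lit 2336) (C.node (nat_lit 3) (nat_lit 5) (nat_lit 11) C.nil) C.nil))) C.nil))) C.nil)) C.nil))) C.nil))) (C.cons (nat_lit 3104) (C.node (nat_lit 7) (nat_lit 8) (nat_lit 10)
  (C.cons (nat_lit 1472) (C.node (nat_lit 2) (nat_lit 8) (nat_lit 10) (C.cons (nat_lit 1300) (C.miq (nat_lit 1747679808) (nat_lit 2944985226444852960706757779)) (C.cons (nat_lit 1292) (C.miq (nat_lit 896704696) (nat_lit 1436227707195303305108786945)) (C.cons (nat_lit 1284) (C.node (nat_lit 2) (nat_lit 3) (nat_lit 7) (C.cons (nat_lit 206) (C.miq (nat_lit 3126986867) (nat_lit 1321394235807382490443547017)) (C.cons (nat_lit 204) (C.miq (nat_lit 3126986867) (nat_lit 1321394235807382490443415945)) (C.cons (nat_lit 142) (C.miq (nat_lit 2608007201) (nat_lit 2640303638766656515749052679))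 (C.cons (nat_lit 140) (C.node (nat_lit 1) (nat_lit 2) (nat_lit 7) (C.cons (nat_lit 198) (C.node (nat_lit 1) (nat_lit 3) (nat_lit 7) (C.cons (nat_lit 170) (C.miq (nat_lit 1613834839) (nat_lit 632271856421434376558609572)) (C.cons (nat_lit 138) (C.node (nat_lit 1) (nat_lit 2) (nat_lit 10) (C.cons (nat_lit 1542) (C.miq (nat_lit 2440798816) (nat_lit 2633111289498684725538128965)) (C.cons (nat_lit 1038) (C.miq (nat_lit 1394018854) (nat_lit 166873692855873676306154565)) (C.cons (nat_lit 1030) (C.node (nat_lit 2) (nat_lit 6) (nat_lit 11) (C.cons (nat_lit 2628) (C.miq (nat_lit 2451224176) (nat_lit 1245264448886772257610991841)) (C.cons (nat_lit 2116) (C.node (nat_lit 6) (nat_lit 8) (nat_lit 11) (C.cons (nat_lit 2378) (C.miq (nat_lit 2551319399) (nat_lit 317959389789730614599354593)) (C.cons (nat_lit 2376) (C.miq (nat_lit 1800045319) (nat_lit 3733190085246044857340985737)) (C.cons (nat_lit 2370) (C.miq (nat_lit 2551319399) (nat_lit 317959389789730580239616225))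 (C.cons (nat_lit 2368) (C.node (nat_lit 2) (nat_lit 6) (nat_lit 8) (C.cons (nat_lit 876) (C.miq (nat_lit 829853864) (nat_lit 239383471778721588481888001)) (C.cons (nat_lit 868) (C.miq (nat_lit 1197804169) (nat_lit 2747898736937090985142521601)) (C.cons (nat_lit 844) (C.miq (nat_lit 829853864) (nat_lit 239382881482911229776236289)) (C.cons (nat_lit 836) (C.miq (nat_lit 445018258) (nat_lit 1779542459257684434411061893)) (C.cons (nat_lit 364) (C.miq (nat_lit 974278774) (nat_lit 1245200309117686759840680161)) (C.cons (nat_lit 356) (C.miq (nat_lit 1244137302) (nat_lit 1552266969267549000614283489)) (C.cons (nat_lit 332) (C.miq (nat_lit 1247938435) (nat_lit 1321394235055844302634353033)) (C.cons (nat_lit 324) (C.node (nat_lit 1) (nat_lit 2) (nat_lit 3) (C.cons (nat_lit 46) (C.node (nat_lit 1) (nat_lit 2) (nat_lit 11) (C.cons (nat_lit 2566) (C.miq (nat_lit 309566336) (nat_lit 169259263115473887359995649)) (C.cons (nat_lit 2054) (C.node (nat_lit 2) (nat_lit 5)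 (nat_lit 11) (C.cons (nat_lit 2596) (C.node (nat_lit 1) (nat_lit 2) (nat_lit 4) C.nil) C.nil)) C.nil))) (C.cons (nat_lit 14) (C.node (nat_lit 2) (nat_lit 3) (nat_lit 10) (C.cons (nat_lit 1548) (C.node (nat_lit 2) (nat_lit 4) (nat_lit 10) (C.cons (nat_lit 1044) (C.node (nat_lit 2) (nat_lit 3) (nat_lit 6) (C.cons (nat_lit 108) (C.miq (nat_lit 305821264) (nat_lit 1871438769956488785645078753)) C.nil)) C.nil)) (C.cons (nat_lit 1036) (C.node (nat_lit 2) (nat_lit 4) (nat_lit 10) (C.cons (nat_lit 1556) (C.node (nat_lit 2) (nat_lit 4) (nat_lit 6) (C.cons (nat_lit 116) (C.miq (nat_lit 3108309542) (nat_lit 678249315334238577343333445)) C.nil)) (C.cons (nat_lit 1044) (C.node (nat_lit 2) (nat_lit 9) (nat_lit 10) C.nil) C.nil))) C.nil))) C.nil))) C.nil))))))))) C.nil))))) C.nil))) C.nil)))) C.nil))) (C.cons (nat_lit 134) (C.node (nat_lit 2) (nat_lit 6) (nat_lit 7) (C.cons (nat_lit 196) (C.node (nat_lit 2) (nat_lit 4) (nat_lit 10) (C.cons (nat_lit 1556) (C.node (nat_lit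 2) (nat_lit 9) (nat_lit 11) (C.cons (nat_lit 2630) (C.miq (nat_lit 309566336) (nat_lit 169259263133488285869477633)) (C.cons (nat_lit 2628) (C.miq (nat_lit 1648867744) (nat_lit 178962951491967581508800257)) (C.cons (nat_lit 2598) (C.miq (nat_lit 309566336) (nat_lit 169259263124481086614736641)) (C.cons (nat_lit 2596) (C.miq (nat_lit 1380432288) (nat_lit 178962951482960382254059265)) (C.cons (nat_lit 2566) (C.miq (nat_lit 309566336) (nat_lit 169259263115473887359995649)) (C.cons (nat_lit 2564)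
  (C.node (nat_lit 1) (nat_lit 2) (nat_lit 10) (C.cons (nat_lit 1038) (C.node (nat_lit 3) (nat_lit 8) (nat_lit 10) (C.cons (nat_lit 1304) (C.miq (nat_lit 1916996008) (nat_lit 2510946177091563806751461121)) (C.cons (nat_lit 1288) (C.node (nat_lit 3) (nat_lit 4) (nat_lit 10) (C.cons (nat_lit 1112) (C.miq (nat_lit 409608259) (nat_lit 1779557954267112022033827869)) (C.cons (nat_lit 1048) (C.node (nat_lit 4) (nat_lit 6) (nat_lit 10) (C.cons (nat_lit 1136) (C.miq (nat_lit 1967720098) (nat_lit 678219283593532010919101509)) (C.cons (nat_lit 1104) (C.node (nat_lit 5) (nat_lit 9) (nat_lit 10) (C.cons (nat_lit 1634) (C.miq (nat_lit 3046377122) (nat_lit 678245699331047701890729029)) (C.cons (nat_lit 1632) (C.miq (nat_lit 3046377122) (nat_lit 678245699331047693300794437)) (C.cons (nat_lit 1570) (C.miq (nat_lit 306815749) (nat_lit 1881117537000738666348348457)) (C.cons (nat_lit 1568) (C.node (nat_lit 3) (nat_lit 7) (nat_lit 10) (C.cons (nat_lit 1672) (C.node (nat_lit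 1) (nat_lit 3) (nat_lit 7) (C.cons (nat_lit 202) (C.miq (nat_lit 277232039) (nat_lit 407411727599660831090935432)) (C.cons (nat_lit 170) (C.miq (nat_lit 1645677109) (nat_lit 162037989585296458953393193)) C.nil))) C.nil)) C.nil))))) C.nil))) C.nil))) C.nil))) (C.cons (nat_lit 1030) (C.node (nat_lit 2) (nat_lit 3) (nat_lit 10) (C.cons (nat_lit 1036) (C.node (nat_lit 2) (nat_lit 4) (nat_lit 8) (C.cons (nat_lit 308) (C.node (nat_lit 2) (nat_lit 3) (nat_lit 8) (C.cons (nat_lit 844) (C.miq (nat_lit 1110944128) (nat_lit 169271216321337087083745025)) (C.cons (nat_lit 780) (C.miq (nat_lit 1110944128) (nat_lit 169271216321336812205838081)) (C.cons (nat_lit 332) (C.miq (nat_lit 1247938435) (nat_lit 1321394235055844302634353033)) C.nil)))) (C.cons (nat_lit 276) (C.node (nat_lit 2) (nat_lit 5) (nat_lit 11) C.nil) C.nil))) C.nil)) C.nil))) C.nil))))))) (C.cons (nat_lit 1044) (C.node (nat_lit 3) (nat_lit 7) (nat_lit 10) (C.cons (nat_lit 1672) (C.node (nat_lit 2) (nat_lit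 9) (nat_lit 10) (C.cons (nat_lit 1542) (C.miq (nat_lit 2049456400) (nat_lit 1552268002426237612093538827)) (C.cons (nat_lit 1540) (C.node (nat_lit 4) (nat_lit 9) (nat_lit 10) (C.cons (nat_lit 1616) (C.miq (nat_lit 2466555782) (nat_lit 2510968737748635759504590272)) (C.cons (nat_lit 1552) (C.node (nat_lit 3) (nat_lit 6) (nat_lit 7) (C.cons (nat_lit 216) (C.miq (nat_lit 1689940744) (nat_lit 3733190084638058907820949897)) (C.cons (nat_lit 202) (C.miq (nat_lit 277232039) (nat_lit 407411727599660831090935432)) (C.cons (nat_lit 200) (C.node (nat_lit 1) (nat_lit 2) (nat_lit 10) (C.cons (nat_lit 1038) (C.node (nat_lit 2) (nat_lit 4) (nat_lit 8) C.nil) C.nil)) C.nil)))) C.nil))) C.nil))) (C.cons (nat_lit 1160) (C.node (nat_lit 7) (nat_lit 9) (nat_lit 10) (C.cons (nat_lit 1664) (C.node (nat_lit 1) (nat_lit 3) (nat_lit 7) (C.cons (nat_lit 138) (C.node (nat_lit 1) (nat_lit 6) (nat_lit 7) C.nil) C.nil)) C.nil)) C.nil))) C.nil))) C.nil)) C.nil))) C.nil))))) C.nil))))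 (C.cons (nat_lit 1408) (C.ref (nat_lit 290) (nat_lit 205163983024656)) C.nil))) C.nil))) C.nil))) (C.cons (nat_lit 1164) (C.node (nat_lit 5) (nat_lit 7) (nat_lit 10) (C.cons (nat_lit 1696) (C.miq (nat_lit 1168312690) (nat_lit 1287544311934935912076280453)) (C.cons (nat_lit 1440) (C.miq (nat_lit 1395105976) (nat_lit 1407216217642674272115887873)) (C.cons (nat_lit 1184) (C.node (nat_lit 7) (nat_lit 8) (nat_lit 10) (C.cons (nat_lit 1472) (C.miq (nat_lit 1185024115) (nat_lit 1321394234821094172112191881)) (C.cons (nat_lit 1408) (C.node (nat_lit 2) (nat_lit 5) (nat_lit 7) (C.cons (nat_lit 166) (C.node (nat_lit 2) (nat_lit 6) (nat_lit 7) (C.cons (nat_lit 196) (C.node (nat_lit 1) (nat_lit 2) (nat_lit 3) (C.cons (nat_lit 78) (C.node (nat_lit 1) (nat_lit 3) (nat_lit 7) (C.cons (nat_lit 138) (C.node (nat_lit 1) (nat_lit 2) (nat_lit 4) (C.cons (nat_lit 534) (C.node (nat_lit 2) (nat_lit 4) (nat_lit 6) (C.cons (nat_lit 116) (C.miq (nat_lit 810948930) (nat_lit 2747889826977303685756092950))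 (C.cons (nat_lit 84) (C.node (nat_lit 2) (nat_lit 5) (nat_lit 11) (C.cons (nat_lit 3108)
  (C.miq (nat_lit 1383312256) (nat_lit 1407209300688701550213271297)) (C.cons (nat_lit 2596) (C.miq (nat_lit 2837515095) (nat_lit 645587989892678828469651681)) (C.cons (nat_lit 2084) (C.node (nat_lit 5) (nat_lit 10) (nat_lit 11) (C.cons (nat_lit 3106) (C.miq (nat_lit 2703865200) (nat_lit 645637242492461088350996705)) (C.cons (nat_lit 3104) (C.node (nat_lit 1) (nat_lit 9) (nat_lit 10) (C.cons (nat_lit 1634) (C.miq (nat_lit 3105032802) (nat_lit 632306518627044556637340741)) (C.cons (nat_lit 1602) (C.miq (nat_lit 3105032802) (nat_lit 632306518627044419198387269)) (C.cons (nat_lit 1570) (C.miq (nat_lit 2703448384) (nat_lit 94315860154297583383937585)) (C.cons (nat_lit 1538) (C.node (nat_lit 2) (nat_lit 3) (nat_lit 9) (C.cons (nat_lit 812) (C.miq (nat_lit 1511600194) (nat_lit 1859342889623263402492561437)) (C.cons (nat_lit 780) (C.miq (nat_lit 2185705744) (nat_lit 178928271092938861133890059))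 (C.cons (nat_lit 556) (C.miq (nat_lit 1511600194) (nat_lit 1859338167256780532847347741)) (C.cons (nat_lit 524) (C.node (nat_lit 2) (nat_lit 5) (nat_lit 6) (C.cons (nat_lit 868) (C.miq (nat_lit 1093142358) (nat_lit 317953707441008223816255713)) (C.cons (nat_lit 612) (C.miq (nat_lit 1645697344) (nat_lit 200723615677572964148249137)) (C.cons (nat_lit 356) (C.miq (nat_lit 1093142358) (nat_lit 317953707441008223782701281)) (C.cons (nat_lit 100) (C.node (nat_lit 4) (nat_lit 5) (nat_lit 11) (C.cons (nat_lit 2354) (C.miq (nat_lit 2224207111) (nat_lit 645611324605370040456644833)) (C.cons (nat_lit 2352) (C.miq (nat_lit 2224207111) (nat_lit 645611324604807090503223521)) (C.cons (nat_lit 2098) (C.miq (nat_lit 2538676404) (nat_lit 200691536798924926478321693)) (C.cons (nat_lit 2096) (C.node (nat_lit 1) (nat_lit 2) (nat_lit 10) (C.cons (nat_lit 3078) (C.node (nat_lit 2) (nat_lit 3) (nat_lit 5) (C.cons (nat_lit 300) (C.node (nat_lit 2) (nat_lit 4) (nat_lit 5) (C.cons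 (nat_lit 1076) (C.miq (nat_lit 2275749954) (nat_lit 1431373704557567751042107421)) C.nil)) C.nil)) (C.cons (nat_lit 1030) (C.node (nat_lit 1) (nat_lit 2) (nat_lit 11) (C.cons (nat_lit 2054) (C.node (nat_lit 2) (nat_lit 10) (nat_lit 11) C.nil) C.nil)) C.nil))) C.nil))))) C.nil))))) C.nil))))) C.nil))))) C.nil))) C.nil)))) C.nil))) (C.cons (nat_lit 22) (C.node (nat_lit 2) (nat_lit 6) (nat_lit 11) (C.cons (nat_lit 2628) (C.node (nat_lit 1) (nat_lit 2) (nat_lit 9) (C.cons (nat_lit 1542) (C.miq (nat_lit 1645722016) (nat_lit 200723616245030846523969281)) (C.cons (nat_lit 518) (C.node (nat_lit 2) (nat_lit 5) (nat_lit 11) (C.cons (nat_lit 3108) (C.miq (nat_lit 1383312256) (nat_lit 1407209300688701550213271297)) (C.cons (nat_lit 2084) (C.node (nat_lit 2) (nat_lit 6) (nat_lit 8) (C.cons (nat_lit 356) (C.miq (nat_lit 1093142358) (nat_lit 317953707441008223782701281)) (C.cons (nat_lit 324) (C.node (nat_lit 3) (nat_lit 9) (nat_lit 11) (C.cons (nat_lit 2600) (C.miq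 (nat_lit 2476913926) (nat_lit 1407238132806693581719144673)) (C.cons (nat_lit 2568) (C.node (nat_lit 5) (nat_lit 10) (nat_lit 11) (C.cons (nat_lit 3106) (C.miq (nat_lit 2703865200) (nat_lit 626294429378627021555697889)) (C.cons (nat_lit 3104) (C.node (nat_lit 6) (nat_lit 7) (nat_lit 10) (C.cons (nat_lit 1728) (C.miq (nat_lit 1114049434) (nat_lit 236971062366412446042689281)) (C.cons (nat_lit 1216) (C.node (nat_lit 7) (nat_lit 9) (nat_lit 10) (C.cons (nat_lit 1664) (C.node (nat_lit 3) (nat_lit 5) (nat_lit 7) C.nil) C.nil)) C.nil))) C.nil))) C.nil))) C.nil))) C.nil))) C.nil))) (C.cons (nat_lit 2116) (C.node (nat_lit 6) (nat_lit 7) (nat_lit 10) (C.cons (nat_lit 1728) (C.node (nat_lit 1) (nat_lit 7) (nat_lit 9) (C.cons (nat_lit 898) (C.miq (nat_lit 1729276288) (nat_lit 200701848833693624195026689)) C.nil)) (C.cons (nat_lit 1216) (C.node (nat_lit 7) (nat_lit 9) (nat_lit 10) (C.cons (nat_lit 1664) (C.node (nat_lit 3) (nat_lit 5) (nat_lit 7) C.nil) C.nil)) C.nil)))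 C.nil))) C.nil))) C.nil)) (C.cons (nat_lit 14) (C.node (nat_lit 1) (nat_lit 3) (nat_lit 7) (C.cons (nat_lit 202) (C.node (nat_lit 1) (nat_lit 7) (nat_lit 8) (C.cons (nat_lit 898)
  (C.miq (nat_lit 655603856) (nat_lit 244241330135273088211422977)) (C.cons (nat_lit 386) (C.node (nat_lit 1) (nat_lit 7) (nat_lit 9) C.nil) C.nil))) (C.cons (nat_lit 138) (C.node (nat_lit 6) (nat_lit 7) (nat_lit 10) (C.cons (nat_lit 1728) (C.node (nat_lit 1) (nat_lit 7) (nat_lit 9) (C.cons (nat_lit 898) (C.miq (nat_lit 1729276288) (nat_lit 200701848833693624195026689)) C.nil)) (C.cons (nat_lit 1216) (C.node (nat_lit 7) (nat_lit 9) (nat_lit 10) (C.cons (nat_lit 1664) (C.node (nat_lit 3) (nat_lit 5) (nat_lit 7) C.nil) C.nil)) C.nil))) C.nil))) C.nil))) C.nil)) (C.cons (nat_lit 164) (C.node (nat_lit 1) (nat_lit 2) (nat_lit 7) (C.cons (nat_lit 198) (C.node (nat_lit 1) (nat_lit 3) (nat_lit 7) (C.cons (nat_lit 170) (C.miq (nat_lit 329413894) (nat_lit 1407193306534610274101823713))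 (C.cons (nat_lit 138) (C.node (nat_lit 1) (nat_lit 2) (nat_lit 3) (C.cons (nat_lit 46) (C.node (nat_lit 1) (nat_lit 2) (nat_lit 4) (C.cons (nat_lit 534) (C.node (nat_lit 2) (nat_lit 4) (nat_lit 6) (C.cons (nat_lit 116) (C.miq (nat_lit 2506244209) (nat_lit 140245245794549569574798483)) (C.cons (nat_lit 84) (C.node (nat_lit 2) (nat_lit 6) (nat_lit 11) (C.cons (nat_lit 2628) (C.miq (nat_lit 2837515111) (nat_lit 645587989892678965910702305)) (C.cons (nat_lit 2116) (C.node (nat_lit 2) (nat_lit 9) (nat_lit 10) (C.cons (nat_lit 1572) (C.miq (nat_lit 1653961024) (nat_lit 1900473317939210943386944659)) (C.cons (nat_lit 1540) (C.node (nat_lit 2) (nat_lit 9) (nat_lit 11) (C.cons (nat_lit 2596) (C.miq (nat_lit 1653961024) (nat_lit 3138413357224591218286068883)) (C.cons (nat_lit 2564) (C.node (nat_lit 2) (nat_lit 5) (nat_lit 11) (C.cons (nat_lit 3108) (C.miq (nat_lit 1383312256) (nat_lit 1407209300688701550213271297)) (C.cons (nat_lit 2084) (C.node (nat_lit 1) (nat_lit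 2) (nat_lit 10) (C.cons (nat_lit 1030) (C.node (nat_lit 1) (nat_lit 2) (nat_lit 11) C.nil) C.nil)) C.nil))) C.nil))) C.nil))) C.nil))) C.nil))) (C.cons (nat_lit 22) (C.node (nat_lit 1) (nat_lit 2) (nat_lit 9) (C.cons (nat_lit 2566) (C.miq (nat_lit 309566336) (nat_lit 1407199302400854162259119873)) (C.cons (nat_lit 1542) (C.miq (nat_lit 2440798816) (nat_lit 2633111289498684725538128965)) (C.cons (nat_lit 518) (C.node (nat_lit 2) (nat_lit 6) (nat_lit 11) (C.cons (nat_lit 2628) (C.miq (nat_lit 2837515111) (nat_lit 626245176778844899115403489)) (C.cons (nat_lit 2116) (C.node (nat_lit 1) (nat_lit 2) (nat_lit 10) (C.cons (nat_lit 3078) (C.node (nat_lit 5) (nat_lit 10) (nat_lit 11) (C.cons (nat_lit 3104) (C.node (nat_lit 2) (nat_lit 5) (nat_lit 11) (C.cons (nat_lit 2596) (C.miq (nat_lit 1092946617) (nat_lit 55620936655318710902591233)) (C.cons (nat_lit 2084) (C.node (nat_lit 2) (nat_lit 9) (nat_lit 11) (C.cons (nat_lit 2564) (C.node (nat_lit 3) (nat_lit 10)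 (nat_lit 11) C.nil) C.nil)) C.nil))) C.nil)) (C.cons (nat_lit 1030) (C.node (nat_lit 1) (nat_lit 2) (nat_lit 11) (C.cons (nat_lit 2054) (C.node (nat_lit 2) (nat_lit 10) (nat_lit 11) (C.cons (nat_lit 3108) (C.miq (nat_lit 1383312256) (nat_lit 1407209300688701550213271297)) (C.cons (nat_lit 3076) (C.node (nat_lit 2) (nat_lit 5) (nat_lit 11) (C.cons (nat_lit 2596) (C.node (nat_lit 2) (nat_lit 9) (nat_lit 10) C.nil) C.nil)) C.nil))) C.nil)) C.nil))) C.nil))) C.nil)))) C.nil))) (C.cons (nat_lit 14) (C.node (nat_lit 2) (nat_lit 6) (nat_lit 11) (C.cons (nat_lit 2628) (C.node (nat_lit 6) (nat_lit 10) (nat_lit 11) (C.cons (nat_lit 3146) (C.miq (nat_lit 462923296) (nat_lit 3249614205146965099443192901)) (C.cons (nat_lit 3144) (C.miq (nat_lit 448163986) (nat_lit 3800866429653344414637228677)) (C.cons (nat_lit 3138) (C.miq (nat_lit 462923296) (nat_lit 3249614205144713299629507653)) (C.cons (nat_lit 3136) (C.miq (nat_lit 448163986) (nat_lit 3791195023096427381239579269))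 C.nil))))) (C.cons (nat_lit 2116) (C.node (nat_lit 6) (nat_lit 7) (nat_lit 8) (C.cons (nat_lit 960) (C.node (nat_lit 6) (nat_lit 7) (nat_lit 10) C.nil) (C.cons (nat_lit 448) (C.node (nat_lit 6) (nat_lit 7) (nat_lit 10) (C.cons (nat_lit 1216)
  (C.node (nat_lit 7) (nat_lit 9) (nat_lit 10) C.nil) C.nil)) C.nil))) C.nil))) C.nil))) C.nil))) (C.cons (nat_lit 134) (C.node (nat_lit 2) (nat_lit 6) (nat_lit 7) (C.cons (nat_lit 196) (C.node (nat_lit 6) (nat_lit 7) (nat_lit 10) (C.cons (nat_lit 1728) (C.node (nat_lit 4) (nat_lit 6) (nat_lit 7) (C.cons (nat_lit 208) (C.node (nat_lit 3) (nat_lit 6) (nat_lit 7) C.nil) C.nil)) (C.cons (nat_lit 1216) (C.node (nat_lit 7) (nat_lit 9) (nat_lit 10) C.nil) C.nil))) C.nil)) C.nil))) C.nil))) C.nil))) C.nil)))) (C.cons (nat_lit 1156) (C.node (nat_lit 3) (nat_lit 9) (nat_lit 11) (C.cons (nat_lit 2632) (C.node (nat_lit 2) (nat_lit 6) (nat_lit 11) (C.cons (nat_lit 2118) (C.node (nat_lit 4) (nat_lit 6) (nat_lit 11) (C.cons (nat_lit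 2128) (C.node (nat_lit 6) (nat_lit 8) (nat_lit 11) (C.cons (nat_lit 2368) (C.node (nat_lit 6) (nat_lit 10) (nat_lit 11) (C.cons (nat_lit 3136) (C.node (nat_lit 1) (nat_lit 6) (nat_lit 7) (C.cons (nat_lit 962) (C.miq (nat_lit 907196800) (nat_lit 2560543200572071957244612353)) (C.cons (nat_lit 706) (C.miq (nat_lit 1133579111) (nat_lit 632289805380396203284498657)) (C.cons (nat_lit 450) (C.miq (nat_lit 840436583) (nat_lit 317954740713701064199768289)) (C.cons (nat_lit 202) (C.miq (nat_lit 2838563687) (nat_lit 632289805876918062169065697)) (C.cons (nat_lit 194) (C.node (nat_lit 2) (nat_lit 6) (nat_lit 7) (C.cons (nat_lit 204) (C.node (nat_lit 2) (nat_lit 10) (nat_lit 11) (C.cons (nat_lit 3108) (C.miq (nat_lit 1383312256) (nat_lit 246640513858657542495342337)) (C.cons (nat_lit 3076) (C.node (nat_lit 6) (nat_lit 7) (nat_lit 8) (C.cons (nat_lit 1472) (C.miq (nat_lit 2787870512) (nat_lit 2560575740302103752442970505)) (C.cons (nat_lit 960) (C.miq (nat_lit 2252052256)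 (nat_lit 3181963611439907960166089349)) (C.cons (nat_lit 448) (C.node (nat_lit 6) (nat_lit 7) (nat_lit 10) (C.cons (nat_lit 1728) (C.miq (nat_lit 1130826650) (nat_lit 246642468923329496620207873)) (C.cons (nat_lit 1216) (C.node (nat_lit 7) (nat_lit 8) (nat_lit 10) (C.cons (nat_lit 1440) (C.miq (nat_lit 1395105976) (nat_lit 246647430812630264397958913)) (C.cons (nat_lit 1408) (C.node (nat_lit 1) (nat_lit 2) (nat_lit 7) C.nil) C.nil))) C.nil))) C.nil)))) C.nil))) (C.cons (nat_lit 196) (C.node (nat_lit 2) (nat_lit 9) (nat_lit 11) (C.cons (nat_lit 2596) (C.node (nat_lit 2) (nat_lit 10) (nat_lit 11) (C.cons (nat_lit 3076) (C.node (nat_lit 1) (nat_lit 2) (nat_lit 4) (C.cons (nat_lit 534) (C.miq (nat_lit 2065761684) (nat_lit 2560526487720898677746041393)) (C.cons (nat_lit 54) (C.miq (nat_lit 2871069012) (nat_lit 2560526488162251441196892721)) (C.cons (nat_lit 22) (C.node (nat_lit 3) (nat_lit 8) (nat_lit 11) (C.cons (nat_lit 2344) (C.miq (nat_lit 1393145970)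 (nat_lit 632316092065845441741523332)) (C.cons (nat_lit 2314) (C.miq (nat_lit 2461075331) (nat_lit 2560514533772496964793532809)) (C.cons (nat_lit 2312) (C.node (nat_lit 4) (nat_lit 5) (nat_lit 11) (C.cons (nat_lit 2352) (C.miq (nat_lit 2215097746) (nat_lit 1415697071699325874791057956)) (C.cons (nat_lit 2098) (C.miq (nat_lit 722965824) (nat_lit 2633052334001307935629836849)) C.nil))) C.nil)))) C.nil)))) C.nil)) (C.cons (nat_lit 2564) (C.node (nat_lit 2) (nat_lit 5) (nat_lit 11) (C.cons (nat_lit 3108) (C.node (nat_lit 2) (nat_lit 8) (nat_lit 10) (C.cons (nat_lit 1300) (C.miq (nat_lit 942278581) (nat_lit 1571623211392086556381808865)) (C.cons (nat_lit 1292) (C.node (nat_lit 2) (nat_lit 3) (nat_lit 6) (C.cons (nat_lit 108) (C.miq (nat_lit 1965231016) (nat_lit 130571238728606889628405505)) (C.cons (nat_lit 76) (C.node (nat_lit 2) (nat_lit 3) (nat_lit 9) (C.cons (nat_lit 556) (C.miq (nat_lit 1965231016) (nat_lit 672170005915960759896772353)) (C.cons (nat_lit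 524) (C.node (nat_lit 4) (nat_lit 8) (nat_lit 10) (C.cons (nat_lit 1328) (C.miq (nat_lit 2024124976) (nat_lit 1605495418583185678255327261)) (C.cons (nat_lit 1296) (C.node (nat_lit 5) (nat_lit 7) (nat_lit 10) (C.cons (nat_lit 1696) (C.miq (nat_lit 2320966411) (nat_lit 2050383126698644880968714269)) (C.cons (nat_lit 1440)
  (C.node (nat_lit 1) (nat_lit 7) (nat_lit 8) (C.cons (nat_lit 898) (C.miq (nat_lit 997786241) (nat_lit 3249602251355907760932913415)) (C.cons (nat_lit 386) (C.node (nat_lit 4) (nat_lit 5) (nat_lit 7) (C.cons (nat_lit 184) (C.miq (nat_lit 628341376) (nat_lit 222480665571363275280027393)) (C.cons (nat_lit 176) (C.node (nat_lit 1) (nat_lit 7) (nat_lit 9) C.nil) C.nil))) C.nil))) (C.cons (nat_lit 1184) (C.miq (nat_lit 2320966411) (nat_lit 1431413107055954743519152157)) C.nil)))) C.nil))) C.nil))) C.nil))) (C.cons (nat_lit 1284) (C.miq (nat_lit 942278581) (nat_lit 1552280398278252489586510049)) C.nil)))) (C.cons (nat_lit 2084) (C.node (nat_lit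 2) (nat_lit 10) (nat_lit 11) C.nil) C.nil))) C.nil))) C.nil))) C.nil)))))) C.nil)) C.nil)) C.nil)) (C.cons (nat_lit 2116) (C.node (nat_lit 3) (nat_lit 10) (nat_lit 11) (C.cons (nat_lit 3082) (C.node (nat_lit 6) (nat_lit 10) (nat_lit 11) (C.cons (nat_lit 3136) (C.node (nat_lit 4) (nat_lit 9) (nat_lit 11) (C.cons (nat_lit 2578) (C.miq (nat_lit 1404635668) (nat_lit 3181903106148913426340119699)) (C.cons (nat_lit 2576) (C.node (nat_lit 2) (nat_lit 10) (nat_lit 11) (C.cons (nat_lit 3108) (C.node (nat_lit 1) (nat_lit 2) (nat_lit 11) (C.cons (nat_lit 2566) (C.miq (nat_lit 2199613586) (nat_lit 3725954312431472585195520645)) (C.cons (nat_lit 2054) (C.node (nat_lit 2) (nat_lit 9) (nat_lit 11) (C.cons (nat_lit 2564) (C.node (nat_lit 3) (nat_lit 5) (nat_lit 11) (C.cons (nat_lit 2344) (C.miq (nat_lit 1923124051) (nat_lit 1321363171094897047902947624)) C.nil)) C.nil)) C.nil))) (C.cons (nat_lit 3076) (C.node (nat_lit 5) (nat_lit 10) (nat_lit 11) (C.cons (nat_lit 3104)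 (C.node (nat_lit 3) (nat_lit 5) (nat_lit 11) (C.cons (nat_lit 2344) (C.node (nat_lit 4) (nat_lit 8) (nat_lit 11) (C.cons (nat_lit 2322) (C.miq (nat_lit 2231677857) (nat_lit 678250218803328040215710730)) C.nil)) C.nil)) C.nil)) C.nil))) C.nil))) C.nil)) (C.cons (nat_lit 3080) (C.node (nat_lit 4) (nat_lit 6) (nat_lit 11) (C.cons (nat_lit 2130) (C.node (nat_lit 4) (nat_lit 9) (nat_lit 11) (C.cons (nat_lit 2576) (C.node (nat_lit 6) (nat_lit 8) (nat_lit 11) (C.cons (nat_lit 2368) (C.node (nat_lit 6) (nat_lit 10) (nat_lit 11) (C.cons (nat_lit 3136) (C.node (nat_lit 4) (nat_lit 5) (nat_lit 11) (C.cons (nat_lit 2352) (C.node (nat_lit 1) (nat_lit 8) (nat_lit 11) (C.cons (nat_lit 2314) (C.miq (nat_lit 2067343376) (nat_lit 3181904656061314512343204103)) C.nil)) C.nil)) C.nil)) C.nil)) C.nil)) (C.cons (nat_lit 2128) (C.node (nat_lit 4) (nat_lit 9) (nat_lit 11) (C.cons (nat_lit 2578) (C.node (nat_lit 2) (nat_lit 9) (nat_lit 11) (C.cons (nat_lit 2596) (C.node (nat_lit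 1) (nat_lit 2) (nat_lit 11) (C.cons (nat_lit 3078) (C.miq (nat_lit 621459777) (nat_lit 1287562777698550398156212754)) (C.cons (nat_lit 2054) (C.node (nat_lit 2) (nat_lit 10) (nat_lit 11) (C.cons (nat_lit 3076) (C.node (nat_lit 4) (nat_lit 5) (nat_lit 11) (C.cons (nat_lit 2352) (C.miq (nat_lit 2215097746) (nat_lit 1415697071699325874791057956)) C.nil)) C.nil)) C.nil))) (C.cons (nat_lit 2564) (C.node (nat_lit 5) (nat_lit 9) (nat_lit 11) (C.cons (nat_lit 2592) (C.node (nat_lit 4) (nat_lit 5) (nat_lit 11) (C.cons (nat_lit 2352) (C.node (nat_lit 3) (nat_lit 8) (nat_lit 11) (C.cons (nat_lit 2314) (C.miq (nat_lit 723089456) (nat_lit 3116622661802124536909070729)) C.nil)) C.nil)) C.nil)) C.nil))) (C.cons (nat_lit 2576) (C.node (nat_lit 6) (nat_lit 8) (nat_lit 11) (C.cons (nat_lit 2370) (C.node (nat_lit 6) (nat_lit 10) (nat_lit 11) (C.cons (nat_lit 3136) (C.node (nat_lit 1) (nat_lit 3) (nat_lit 11) (C.cons (nat_lit 2090) (C.node (nat_lit 1) (nat_lit 4) (nat_lit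 11) C.nil) C.nil)) C.nil)) (C.cons (nat_lit 2368) (C.node (nat_lit 1) (nat_lit 6) (nat_lit 11) (C.cons (nat_lit 3138) (C.node (nat_lit 2) (nat_lit 10) (nat_lit 11) (C.cons (nat_lit 3108) (C.node (nat_lit 1) (nat_lit 2) (nat_lit 11) (C.cons (nat_lit 2566) (C.miq (nat_lit 2073264656) (nat_lit 3181900007481809019867955463)) C.nil)) C.nil)) (C.cons (nat_lit 2114)
  (C.node (nat_lit 6) (nat_lit 10) (nat_lit 11) C.nil) C.nil))) C.nil))) C.nil))) C.nil))) C.nil))) C.nil))) (C.cons (nat_lit 2600) (C.node (nat_lit 5) (nat_lit 7) (nat_lit 9) (C.cons (nat_lit 1696) (C.miq (nat_lit 1201343059) (nat_lit 3249630917341178798512014377)) (C.cons (nat_lit 930) (C.miq (nat_lit 1411879096) (nat_lit 178938176932870050480918273)) (C.cons (nat_lit 928) (C.miq (nat_lit 1411879096) (nat_lit 178938140039381903061815041)) (C.cons (nat_lit 674) (C.miq (nat_lit 1133579095) (nat_lit 632289805380396065843448033)) (C.cons (nat_lit 672) (C.node (nat_lit 5) (nat_lit 7) (nat_lit 10) (C.cons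 (nat_lit 1440) (C.node (nat_lit 4) (nat_lit 5) (nat_lit 7) (C.cons (nat_lit 184) (C.miq (nat_lit 659798176) (nat_lit 222480665382212090974506753)) (C.cons (nat_lit 176) (C.node (nat_lit 2) (nat_lit 8) (nat_lit 10) (C.cons (nat_lit 1300) (C.miq (nat_lit 847907701) (nat_lit 1571623211866090417053239521)) (C.cons (nat_lit 1292) (C.node (nat_lit 4) (nat_lit 8) (nat_lit 10) (C.cons (nat_lit 1296) (C.node (nat_lit 2) (nat_lit 5) (nat_lit 7) (C.cons (nat_lit 174) (C.miq (nat_lit 2838563671) (nat_lit 632289805876917924728277217)) (C.cons (nat_lit 172) (C.node (nat_lit 1) (nat_lit 5) (nat_lit 7) (C.cons (nat_lit 162) (C.node (nat_lit 2) (nat_lit 9) (nat_lit 11) (C.cons (nat_lit 2630) (C.miq (nat_lit 309566336) (nat_lit 207944889361156419460075265)) (C.cons (nat_lit 2628) (C.miq (nat_lit 2476913926) (nat_lit 1561980637717366116081535201)) (C.cons (nat_lit 2566) (C.miq (nat_lit 309566336) (nat_lit 207944889343142020950593281)) (C.cons (nat_lit 2564) (C.node (nat_lit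 5) (nat_lit 9) (nat_lit 10) (C.cons (nat_lit 1634) (C.miq (nat_lit 359897728) (nat_lit 207944889080803064868835073)) (C.cons (nat_lit 1632) (C.miq (nat_lit 1647681721) (nat_lit 207965346367705582399917825)) (C.cons (nat_lit 1574) (C.miq (nat_lit 359897728) (nat_lit 207944889063914566266195713)) (C.cons (nat_lit 1572) (C.miq (nat_lit 2320697639) (nat_lit 1287513248541153176161354373)) (C.cons (nat_lit 1570) (C.miq (nat_lit 359897728) (nat_lit 207944889062788666359353089)) (C.cons (nat_lit 1568) (C.node (nat_lit 1) (nat_lit 2) (nat_lit 3) (C.cons (nat_lit 78) (C.node (nat_lit 1) (nat_lit 2) (nat_lit 7) (C.cons (nat_lit 134) (C.node (nat_lit 1) (nat_lit 3) (nat_lit 7) (C.cons (nat_lit 138) (C.node (nat_lit 2) (nat_lit 6) (nat_lit 7) C.nil) C.nil)) C.nil)) (C.cons (nat_lit 14) (C.node (nat_lit 1) (nat_lit 2) (nat_lit 7) (C.cons (nat_lit 198) (C.node (nat_lit 1) (nat_lit 3) (nat_lit 7) C.nil) (C.cons (nat_lit 134) (C.node (nat_lit 2) (nat_lit 6) (nat_lit 7)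 (C.cons (nat_lit 196) (C.node (nat_lit 1) (nat_lit 3) (nat_lit 7) C.nil) C.nil)) C.nil))) C.nil))) C.nil))))))) C.nil))))) C.nil)) (C.cons (nat_lit 166) (C.miq (nat_lit 846531466) (nat_lit 200701332423100932936437505)) (C.cons (nat_lit 164) (C.miq (nat_lit 846531466) (nat_lit 198283480783871674587025153)) C.nil))))) C.nil)) (C.cons (nat_lit 1284) (C.miq (nat_lit 847907701) (nat_lit 1552280398752256350257940705)) C.nil)))) C.nil))) (C.cons (nat_lit 1184) (C.node (nat_lit 3) (nat_lit 5) (nat_lit 7) (C.cons (nat_lit 184) (C.miq (nat_lit 2507846464) (nat_lit 1431439025099543791038302237)) (C.cons (nat_lit 174) (C.miq (nat_lit 2838563671) (nat_lit 632289805876917924728277217)) (C.cons (nat_lit 172) (C.miq (nat_lit 2270868016) (nat_lit 1431439025053381843311200285)) (C.cons (nat_lit 170) (C.miq (nat_lit 2838563671) (nat_lit 632289805876917924728015073)) (C.cons (nat_lit 168) (C.node (nat_lit 2) (nat_lit 5) (nat_lit 7) (C.cons (nat_lit 166) (C.node (nat_lit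 2) (nat_lit 5) (nat_lit 11) (C.cons (nat_lit 3108) (C.miq (nat_lit 891751096) (nat_lit 200688935926233609969864449)) (C.cons (nat_lit 2084) (C.node (nat_lit 5) (nat_lit 10) (nat_lit 11) (C.cons (nat_lit 3106) (C.miq (nat_lit 2605845015) (nat_lit 2519413307307973468473394323)) (C.cons (nat_lit 3104) (C.node (nat_lit 5) (nat_lit 8) (nat_lit 11) (C.cons (nat_lit 2354) (C.miq (nat_lit 2551319383) (nat_lit 317959389789730511518042337)) (C.cons (nat_lit 2352)
  (C.miq (nat_lit 2274734596) (nat_lit 812441538208767983825782813)) (C.cons (nat_lit 2338) (C.miq (nat_lit 2551319383) (nat_lit 317959389789730442798565601)) (C.cons (nat_lit 2336) (C.node (nat_lit 1) (nat_lit 3) (nat_lit 7) (C.cons (nat_lit 202) (C.node (nat_lit 2) (nat_lit 3) (nat_lit 7) (C.cons (nat_lit 140) (C.node (nat_lit 2) (nat_lit 6) (nat_lit 7) (C.cons (nat_lit 196) (C.node (nat_lit 1) (nat_lit 7) (nat_lit 8) C.nil) C.nil)) C.nil)) (C.cons (nat_lit 138) (C.node (nat_lit 1) (nat_lit 5) (nat_lit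 11) (C.cons (nat_lit 2098) (C.node (nat_lit 4) (nat_lit 8) (nat_lit 11) (C.cons (nat_lit 2320) (C.node (nat_lit 2) (nat_lit 3) (nat_lit 7) C.nil) C.nil)) (C.cons (nat_lit 2082) (C.node (nat_lit 4) (nat_lit 5) (nat_lit 11) (C.cons (nat_lit 2096) (C.node (nat_lit 2) (nat_lit 3) (nat_lit 7) C.nil) C.nil)) C.nil))) C.nil))) C.nil))))) C.nil))) C.nil))) (C.cons (nat_lit 164) (C.node (nat_lit 1) (nat_lit 5) (nat_lit 7) (C.cons (nat_lit 418) (C.node (nat_lit 4) (nat_lit 5) (nat_lit 7) (C.cons (nat_lit 176) (C.node (nat_lit 1) (nat_lit 7) (nat_lit 9) (C.cons (nat_lit 706) (C.node (nat_lit 1) (nat_lit 2) (nat_lit 7) C.nil) C.nil)) C.nil)) (C.cons (nat_lit 162) (C.node (nat_lit 4) (nat_lit 5) (nat_lit 7) (C.cons (nat_lit 432) (C.node (nat_lit 7) (nat_lit 8) (nat_lit 10) (C.cons (nat_lit 1472) (C.node (nat_lit 1) (nat_lit 7) (nat_lit 8) C.nil) C.nil)) (C.cons (nat_lit 176) (C.node (nat_lit 5) (nat_lit 7) (nat_lit 8) (C.cons (nat_lit 416) (C.node (nat_lit 4) (nat_lit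 7) (nat_lit 8) C.nil) C.nil)) C.nil))) C.nil))) C.nil))) C.nil)))))) C.nil))) C.nil)))))) (C.cons (nat_lit 2568) (C.ref (nat_lit 291) (nat_lit 205163983024656)) C.nil)))) C.nil)))) List.nil)

theorem ok12_292 : okL par12 (nat_lit 293) c12_292 (nat_lit 292) = true := by decide +kernel


end Pool.Agent.MP_1f1ca1_co

end

section

set_option autoImplicit false
set_option maxRecDepth 1000000
set_option maxHeartbeats 0

namespace Pool.Agent.MP_1f1ca1_co

noncomputable def c12_293 : List C :=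
  (List.cons (C.node (nat_lit 2) (nat_lit 4) (nat_lit 7) (C.cons (nat_lit 212) (C.node (nat_lit 7) (nat_lit 8) (nat_lit 9) (C.cons (nat_lit 962) (C.miq (nat_lit 3093563762) (nat_lit 407446316178720643932750469)) (C.cons (nat_lit 960) (C.miq (nat_lit 3093563762) (nat_lit 407446316178720635342815877)) (C.cons (nat_lit 930) (C.miq (nat_lit 1411879096) (nat_lit 256309429388206317662113537)) (C.cons (nat_lit 928) (C.miq (nat_lit 1411879096) (nat_lit 256309392494718170243010305)) (C.cons (nat_lit 912) (C.miq (nat_lit 2823162226) (nat_lit 407428164582551898985595525)) (C.cons (nat_lit 898) (C.miq (nat_lit 997786241) (nat_lit 3249602251355907760932913415)) (C.cons (nat_lit 896) (C.node (nat_lit 4) (nat_lit 7) (nat_lit 8) (C.cons (nat_lit 432) (C.node (nat_lit 7) (nat_lit 8) (nat_lit 10) (C.cons (nat_lit 1472) (C.miq (nat_lit 1656255498) (nat_lit 2944970450248194786005681299)) (C.cons (nat_lit 1408) (C.node (nat_lit 2) (nat_lit 4) (nat_lit 8) (C.cons (nat_lit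 1300) (C.miq (nat_lit 1803710628) (nat_lit 2944947207930789415127090323)) (C.cons (nat_lit 788) (C.miq (nat_lit 1461980041) (nat_lit 256302623021529820751466241)) (C.cons (nat_lit 276) (C.node (nat_lit 1) (nat_lit 7) (nat_lit 8) (C.cons (nat_lit 450) (C.node (nat_lit 1) (nat_lit 7) (nat_lit 9) (C.cons (nat_lit 674) (C.miq (nat_lit 1636861780) (nat_lit 632274420337870532854743472)) (C.cons (nat_lit 642) (C.node (nat_lit 2) (nat_lit 6) (nat_lit 11) (C.cons (nat_lit 2630) (C.miq (nat_lit 840436583) (nat_lit 317954740713703263223023841)) (C.cons (nat_lit 2628) (C.miq (nat_lit 1688938249) (nat_lit 3733211409073078324915405445)) (C.cons (nat_lit 2118) (C.miq (nat_lit 840436583) (nat_lit 317954740713701064199768289)) (C.cons (nat_lit 2116) (C.node (nat_lit 2) (nat_lit 6) (nat_lit 8) (C.cons (nat_lit 876) (C.miq (nat_lit 2753759077) (nat_lit 2510958573451631404855855329)) (C.cons (nat_lit 868) (C.miq (nat_lit 2759984982) (nat_lit 333683688834519269969758433))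 (C.cons (nat_lit 844) (C.miq (nat_lit 2440441922) (nat_lit 544032188025797781719615517)) (C.cons (nat_lit 836) (C.miq (nat_lit 2825128231) (nat_lit 407429603428589321913107077)) (C.cons (nat_lit 364) (C.miq (nat_lit 2753759077) (nat_lit 2510958573451631404822300897)) (C.cons (nat_lit 356) (C.miq (nat_lit 2759984982) (nat_lit 333683688834519269936204001)) (C.cons (nat_lit 332) (C.miq (nat_lit 371488816) (nat_lit 256313875022276864507707785)) (C.cons (nat_lit 324) (C.node (nat_lit 3) (nat_lit 4) (nat_lit 7) (C.cons (nat_lit 664) (C.node (nat_lit 4) (nat_lit 8) (nat_lit 9) (C.cons (nat_lit 786) (C.miq (nat_lit 1461257860) (nat_lit 776140725455811836069937489)) (C.cons (nat_lit 784) (C.node (nat_lit 6) (nat_lit 7) (nat_lit 9) (C.cons (nat_lit 1728) (C.miq (nat_lit 2519443264) (nat_lit 2558157888734932122491225235)) (C.cons (nat_lit 704) (C.node (nat_lit 2) (nat_lit 4) (nat_lit 9) (C.cons (nat_lit 1556) (C.miq (nat_lit 2456527984) (nat_lit 2558157888686518426509837459))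 (C.cons (nat_lit 534) (C.miq (nat_lit 2274427714) (nat_lit 776135227796905833514010653)) (C.cons (nat_lit 532) (C.node (nat_lit 1) (nat_lit 2) (nat_lit 4) (C.cons (nat_lit 54) (C.node (nat_lit 2) (nat_lit 4) (nat_lit 10) (C.cons (nat_lit 1044) (C.node (nat_lit 4) (nat_lit 5) (nat_lit 11) (C.cons (nat_lit 2096) (C.node (nat_lit 1) (nat_lit 2) (nat_lit 7) (C.cons (nat_lit 142) (C.miq (nat_lit 2266608176) (nat_lit 776201230822252701735913501)) (C.cons (nat_lit 134) (C.node (nat_lit 2) (nat_lit 5) (nat_lit 7) (C.cons (nat_lit 1188) (C.miq (nat_lit 1482847242) (nat_lit 391713880408698056966734995)) (C.cons (nat_lit 172) (C.miq (nat_lit 2826242851) (nat_lit 522275600937114152242776093)) C.nil))) C.nil))) C.nil)) C.nil)) (C.cons (nat_lit 22) (C.node (nat_lit 1) (nat_lit 8) (nat_lit 9) (C.cons (nat_lit 802) (C.node (nat_lit 2) (nat_lit 8) (nat_lit 9) (C.cons (nat_lit 780) (C.miq (nat_lit 2038514464) (nat_lit 969580108655145646626899997)) (C.cons (nat_lit 772)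 (C.node (nat_lit 1) (nat_lit 3) (nat_lit 4) (C.cons (nat_lit 282)
  (C.miq (nat_lit 942227719) (nat_lit 933302981459935739066516627)) (C.cons (nat_lit 122) (C.miq (nat_lit 377041952) (nat_lit 851093424690190346822682653)) (C.cons (nat_lit 90) (C.miq (nat_lit 377041952) (nat_lit 851093424681183147567941661)) (C.cons (nat_lit 58) (C.miq (nat_lit 3092515091) (nat_lit 522294269042109728324977163)) (C.cons (nat_lit 26) (C.node (nat_lit 6) (nat_lit 8) (nat_lit 11) (C.cons (nat_lit 2376) (C.miq (nat_lit 2168678155) (nat_lit 31475900900568261499619553)) (C.cons (nat_lit 2368) (C.node (nat_lit 1) (nat_lit 4) (nat_lit 8) (C.cons (nat_lit 2322) (C.node (nat_lit 4) (nat_lit 5) (nat_lit 11) (C.cons (nat_lit 2096) (C.node (nat_lit 1) (nat_lit 3) (nat_lit 8) (C.cons (nat_lit 266) (C.node (nat_lit 1) (nat_lit 8) (nat_lit 10) C.nil) C.nil)) C.nil)) (C.cons (nat_lit 274) (C.node (nat_lit 4) (nat_lit 8) (nat_lit 11) C.nil) C.nil))) C.nil))) C.nil)))))) C.nil))) (C.cons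 (nat_lit 770) (C.node (nat_lit 2) (nat_lit 4) (nat_lit 5) (C.cons (nat_lit 1076) (C.node (nat_lit 2) (nat_lit 8) (nat_lit 10) (C.cons (nat_lit 1292) (C.miq (nat_lit 1468664611) (nat_lit 1702187200439639463347095581)) (C.cons (nat_lit 1284) (C.node (nat_lit 2) (nat_lit 3) (nat_lit 8) (C.cons (nat_lit 812) (C.miq (nat_lit 2038514464) (nat_lit 930894482427477650475255837)) (C.cons (nat_lit 780) (C.miq (nat_lit 2038514464) (nat_lit 930894482427477513036302365)) (C.cons (nat_lit 300) (C.miq (nat_lit 2777104944) (nat_lit 522277555513698480814622749)) (C.cons (nat_lit 268) (C.node (nat_lit 2) (nat_lit 5) (nat_lit 8) (C.cons (nat_lit 804) (C.node (nat_lit 2) (nat_lit 7) (nat_lit 10) (C.cons (nat_lit 1164) (C.node (nat_lit 3) (nat_lit 6) (nat_lit 7) C.nil) C.nil)) (C.cons (nat_lit 292) (C.node (nat_lit 2) (nat_lit 8) (nat_lit 9) C.nil) C.nil))) C.nil))))) C.nil))) (C.cons (nat_lit 52) (C.node (nat_lit 2) (nat_lit 4) (nat_lit 10) (C.cons (nat_lit 1044) (C.node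 (nat_lit 3) (nat_lit 6) (nat_lit 7) (C.cons (nat_lit 1224) (C.node (nat_lit 2) (nat_lit 7) (nat_lit 10) (C.cons (nat_lit 1188) (C.miq (nat_lit 1482847242) (nat_lit 391713880408698056966734995)) (C.cons (nat_lit 1156) (C.node (nat_lit 2) (nat_lit 3) (nat_lit 7) (C.cons (nat_lit 174) (C.miq (nat_lit 2266608176) (nat_lit 776201230822252839174866973)) (C.cons (nat_lit 172) (C.miq (nat_lit 2826242851) (nat_lit 522275600937114152242776093)) (C.cons (nat_lit 142) (C.miq (nat_lit 2266608176) (nat_lit 776201230822252701735913501)) C.nil)))) C.nil))) (C.cons (nat_lit 200) (C.node (nat_lit 6) (nat_lit 7) (nat_lit 10) C.nil) C.nil))) C.nil)) C.nil))) C.nil))) C.nil))) C.nil)))) C.nil))) C.nil))) (C.cons (nat_lit 152) (C.node (nat_lit 4) (nat_lit 7) (nat_lit 9) (C.cons (nat_lit 656) (C.node (nat_lit 2) (nat_lit 7) (nat_lit 10) (C.cons (nat_lit 1188) (C.miq (nat_lit 1482847242) (nat_lit 391713880408698056966734995)) (C.cons (nat_lit 1164) (C.node (nat_lit 5) (nat_lit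 7) (nat_lit 10) (C.cons (nat_lit 1696) (C.miq (nat_lit 1168312690) (nat_lit 1287544311934935912076280453)) C.nil)) C.nil))) C.nil)) C.nil))) C.nil))))))))) C.nil))))) C.nil))) (C.cons (nat_lit 386) (C.node (nat_lit 6) (nat_lit 7) (nat_lit 8) (C.cons (nat_lit 448) (C.node (nat_lit 3) (nat_lit 4) (nat_lit 7) (C.cons (nat_lit 664) (C.node (nat_lit 2) (nat_lit 4) (nat_lit 9) (C.cons (nat_lit 1556) (C.miq (nat_lit 1805938834) (nat_lit 3733166842319527637052293765)) (C.cons (nat_lit 534) (C.miq (nat_lit 410591284) (nat_lit 1083207385010072708277864477)) (C.cons (nat_lit 532) (C.node (nat_lit 6) (nat_lit 7) (nat_lit 9) (C.cons (nat_lit 1728) (C.miq (nat_lit 1689940489) (nat_lit 3733194807003415877559321221)) (C.cons (nat_lit 706) (C.miq (nat_lit 371234627) (nat_lit 1321365568684662482276254360)) (C.cons (nat_lit 704) (C.node (nat_lit 1) (nat_lit 6) (nat_lit 7) (C.cons (nat_lit 202) (C.node (nat_lit 6) (nat_lit 7) (nat_lit 10) C.nil) C.nil)) C.nil)))) C.nil))))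 (C.cons (nat_lit 152) (C.node (nat_lit 4) (nat_lit 7) (nat_lit 9) (C.cons (nat_lit 656) (C.node (nat_lit 1) (nat_lit 6) (nat_lit 7) (C.cons (nat_lit 194)
  (C.node (nat_lit 1) (nat_lit 7) (nat_lit 9) C.nil) C.nil)) C.nil)) C.nil))) C.nil)) C.nil))) C.nil)))) C.nil))) (C.cons (nat_lit 400) (C.node (nat_lit 4) (nat_lit 5) (nat_lit 7) (C.cons (nat_lit 184) (C.miq (nat_lit 2722301557) (nat_lit 2510958573429676356627073249)) (C.cons (nat_lit 176) (C.node (nat_lit 3) (nat_lit 4) (nat_lit 7) (C.cons (nat_lit 664) (C.node (nat_lit 6) (nat_lit 7) (nat_lit 9) (C.cons (nat_lit 1728) (C.miq (nat_lit 1689940489) (nat_lit 3733194807003415877559321221)) (C.cons (nat_lit 706) (C.miq (nat_lit 371234627) (nat_lit 1321365568684662482276254360)) (C.cons (nat_lit 704) (C.node (nat_lit 2) (nat_lit 4) (nat_lit 9) (C.cons (nat_lit 1556) (C.miq (nat_lit 1805938834) (nat_lit 3733166842319527637052293765)) (C.cons (nat_lit 788) (C.miq (nat_lit 1461980041) (nat_lit 256302623021529820751466241))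 (C.cons (nat_lit 534) (C.miq (nat_lit 410591284) (nat_lit 1083207385010072708277864477)) (C.cons (nat_lit 532) (C.node (nat_lit 1) (nat_lit 2) (nat_lit 4) (C.cons (nat_lit 54) (C.node (nat_lit 1) (nat_lit 2) (nat_lit 7) (C.cons (nat_lit 142) (C.miq (nat_lit 428290226) (nat_lit 1083200153959594117241767965)) (C.cons (nat_lit 134) (C.node (nat_lit 2) (nat_lit 4) (nat_lit 8) (C.cons (nat_lit 1300) (C.miq (nat_lit 1803710628) (nat_lit 2944947207930789415127090323)) (C.cons (nat_lit 276) (C.node (nat_lit 2) (nat_lit 4) (nat_lit 10) (C.cons (nat_lit 1044) (C.node (nat_lit 4) (nat_lit 5) (nat_lit 11) (C.cons (nat_lit 2352) (C.miq (nat_lit 2458126261) (nat_lit 333673875018624825950210273)) (C.cons (nat_lit 2096) (C.node (nat_lit 1) (nat_lit 3) (nat_lit 4) (C.cons (nat_lit 282) (C.miq (nat_lit 345146224) (nat_lit 643153387608052901888721289)) (C.cons (nat_lit 90) (C.miq (nat_lit 377041952) (nat_lit 851093424681183147567941661)) (C.cons (nat_lit 26) (C.node (nat_lit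 2) (nat_lit 8) (nat_lit 9) (C.cons (nat_lit 876) (C.miq (nat_lit 2753759077) (nat_lit 2510958573451631404855855329)) (C.cons (nat_lit 868) (C.miq (nat_lit 2825128231) (nat_lit 407429603428589459352060549)) (C.cons (nat_lit 844) (C.miq (nat_lit 395838514) (nat_lit 1083202386198009175790585885)) (C.cons (nat_lit 836) (C.miq (nat_lit 2825128231) (nat_lit 407429603428589321913107077)) (C.cons (nat_lit 812) (C.miq (nat_lit 395838514) (nat_lit 1083202386198009175788488733)) (C.cons (nat_lit 804) (C.miq (nat_lit 2840856609) (nat_lit 678228987022266119597981959)) (C.cons (nat_lit 780) (C.miq (nat_lit 395838514) (nat_lit 1083202386198009175786391581)) (C.cons (nat_lit 772) (C.node (nat_lit 1) (nat_lit 7) (nat_lit 9) (C.cons (nat_lit 674) (C.node (nat_lit 7) (nat_lit 9) (nat_lit 10) C.nil) (C.cons (nat_lit 642) (C.node (nat_lit 5) (nat_lit 7) (nat_lit 9) (C.cons (nat_lit 672) (C.node (nat_lit 7) (nat_lit 9) (nat_lit 10) C.nil) C.nil)) C.nil))) C.nil))))))))) C.nil))))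 C.nil))) C.nil)) C.nil))) C.nil))) (C.cons (nat_lit 22) (C.node (nat_lit 1) (nat_lit 7) (nat_lit 9) (C.cons (nat_lit 674) (C.node (nat_lit 7) (nat_lit 9) (nat_lit 10) (C.cons (nat_lit 1664) (C.node (nat_lit 1) (nat_lit 2) (nat_lit 7) (C.cons (nat_lit 142) (C.miq (nat_lit 2266608176) (nat_lit 814886857049920835326511133)) C.nil)) C.nil)) (C.cons (nat_lit 642) (C.node (nat_lit 4) (nat_lit 8) (nat_lit 9) (C.cons (nat_lit 786) (C.node (nat_lit 4) (nat_lit 8) (nat_lit 11) (C.cons (nat_lit 2352) (C.miq (nat_lit 675904336) (nat_lit 950227593052709219046852833)) (C.cons (nat_lit 2320) (C.node (nat_lit 4) (nat_lit 9) (nat_lit 10) (C.cons (nat_lit 1616) (C.miq (nat_lit 1678944640) (nat_lit 26616530777661344609406721)) (C.cons (nat_lit 1552) (C.node (nat_lit 6) (nat_lit 7) (nat_lit 8) (C.cons (nat_lit 1472) (C.miq (nat_lit 1656255498) (nat_lit 2944970450248194786005681299)) (C.cons (nat_lit 450) (C.miq (nat_lit 1461257860) (nat_lit 776140725455811836069937489))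 (C.cons (nat_lit 448) (C.node (nat_lit 1) (nat_lit 6) (nat_lit 7) (C.cons (nat_lit 194) (C.node (nat_lit 1) (nat_lit 7) (nat_lit 8) C.nil) C.nil)) C.nil)))) C.nil))) C.nil))) (C.cons (nat_lit 784) (C.node (nat_lit 4) (nat_lit 9) (nat_lit 10)
  (C.cons (nat_lit 1616) (C.node (nat_lit 1) (nat_lit 4) (nat_lit 9) (C.cons (nat_lit 2578) (C.node (nat_lit 4) (nat_lit 6) (nat_lit 11) (C.cons (nat_lit 2128) (C.node (nat_lit 4) (nat_lit 5) (nat_lit 11) (C.cons (nat_lit 2352) (C.miq (nat_lit 675904336) (nat_lit 947809741413479960697440481)) (C.cons (nat_lit 2096) (C.node (nat_lit 4) (nat_lit 8) (nat_lit 11) C.nil) C.nil))) C.nil)) (C.cons (nat_lit 530) (C.node (nat_lit 4) (nat_lit 9) (nat_lit 11) (C.cons (nat_lit 2576) (C.node (nat_lit 3) (nat_lit 4) (nat_lit 10) (C.cons (nat_lit 1304) (C.node (nat_lit 3) (nat_lit 4) (nat_lit 6) (C.cons (nat_lit 122) (C.miq (nat_lit 377041952) (nat_lit 851093424690190346822682653)) (C.cons (nat_lit 120) (C.miq (nat_lit 3091597877)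 (nat_lit 407449931740560559877653545)) (C.cons (nat_lit 90) (C.miq (nat_lit 377041952) (nat_lit 851093424681183147567941661)) C.nil)))) (C.cons (nat_lit 1048) (C.node (nat_lit 5) (nat_lit 7) (nat_lit 9) C.nil) C.nil))) C.nil)) C.nil))) (C.cons (nat_lit 1552) (C.node (nat_lit 5) (nat_lit 7) (nat_lit 9) (C.cons (nat_lit 1696) (C.node (nat_lit 2) (nat_lit 7) (nat_lit 10) (C.cons (nat_lit 1164) (C.miq (nat_lit 1168312690) (nat_lit 1287544311934935912076280453)) C.nil)) (C.cons (nat_lit 672) (C.node (nat_lit 7) (nat_lit 9) (nat_lit 10) (C.cons (nat_lit 1664) (C.node (nat_lit 1) (nat_lit 6) (nat_lit 7) C.nil) C.nil)) C.nil))) C.nil))) C.nil))) C.nil))) C.nil))) C.nil))))) C.nil)))) (C.cons (nat_lit 152) (C.node (nat_lit 4) (nat_lit 7) (nat_lit 9) (C.cons (nat_lit 656) (C.node (nat_lit 6) (nat_lit 7) (nat_lit 8) (C.cons (nat_lit 1472) (C.miq (nat_lit 1656255498) (nat_lit 2944970450248194786005681299)) (C.cons (nat_lit 450) (C.node (nat_lit 2) (nat_lit 6) (nat_lit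 11) (C.cons (nat_lit 2630) (C.miq (nat_lit 840436583) (nat_lit 317954740713703263223023841)) (C.cons (nat_lit 2628) (C.miq (nat_lit 1688938249) (nat_lit 3733211409073078324915405445)) (C.cons (nat_lit 2118) (C.miq (nat_lit 840436583) (nat_lit 317954740713701064199768289)) (C.cons (nat_lit 2116) (C.node (nat_lit 1) (nat_lit 7) (nat_lit 9) (C.cons (nat_lit 674) (C.node (nat_lit 1) (nat_lit 2) (nat_lit 7) (C.cons (nat_lit 142) (C.miq (nat_lit 2266608176) (nat_lit 814886857049920835326511133)) C.nil)) (C.cons (nat_lit 642) (C.node (nat_lit 5) (nat_lit 7) (nat_lit 8) (C.cons (nat_lit 416) (C.node (nat_lit 7) (nat_lit 8) (nat_lit 10) C.nil) C.nil)) C.nil))) C.nil))))) (C.cons (nat_lit 448) (C.node (nat_lit 1) (nat_lit 7) (nat_lit 8) (C.cons (nat_lit 418) (C.node (nat_lit 7) (nat_lit 8) (nat_lit 10) (C.cons (nat_lit 1408) (C.node (nat_lit 1) (nat_lit 2) (nat_lit 7) C.nil) C.nil)) (C.cons (nat_lit 386) (C.node (nat_lit 5) (nat_lit 7) (nat_lit 8) (C.cons (nat_lit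 1440) (C.node (nat_lit 2) (nat_lit 7) (nat_lit 10) C.nil) C.nil)) C.nil))) C.nil)))) C.nil)) C.nil))) C.nil))) C.nil))) C.nil)))))))) (C.cons (nat_lit 180) (C.node (nat_lit 4) (nat_lit 7) (nat_lit 8) (C.cons (nat_lit 912) (C.miq (nat_lit 613971211) (nat_lit 1102585283807773269336066273)) (C.cons (nat_lit 400) (C.node (nat_lit 2) (nat_lit 4) (nat_lit 8) (C.cons (nat_lit 1300) (C.miq (nat_lit 2552499061) (nat_lit 1571613915203599126274246881)) (C.cons (nat_lit 788) (C.node (nat_lit 2) (nat_lit 4) (nat_lit 10) (C.cons (nat_lit 1044) (C.node (nat_lit 5) (nat_lit 7) (nat_lit 10) (C.cons (nat_lit 1696) (C.miq (nat_lit 2304189451) (nat_lit 2050383126556779328043026461)) (C.cons (nat_lit 1440) (C.miq (nat_lit 846531466) (nat_lit 217626293897705741382323969)) (C.cons (nat_lit 1184) (C.node (nat_lit 5) (nat_lit 7) (nat_lit 8) (C.cons (nat_lit 930) (C.miq (nat_lit 997786241) (nat_lit 3249602251355907760935010567)) (C.cons (nat_lit 928) (C.node (nat_lit 1) (nat_lit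 2) (nat_lit 4) (C.cons (nat_lit 86) (C.node (nat_lit 1) (nat_lit 2) (nat_lit 7) (C.cons (nat_lit 142) (C.miq (nat_lit 425144386) (nat_lit 1121885780187248163191785501)) (C.cons (nat_lit 134) (C.node (nat_lit 1) (nat_lit 7) (nat_lit 8) (C.cons (nat_lit 450) (C.miq (nat_lit 923928676) (nat_lit 162034373826423002737541457)) (C.cons (nat_lit 386)
  (C.node (nat_lit 4) (nat_lit 6) (nat_lit 11) (C.cons (nat_lit 2640) (C.miq (nat_lit 280373396) (nat_lit 2747889974478086869145879316)) (C.cons (nat_lit 2128) (C.node (nat_lit 1) (nat_lit 8) (nat_lit 9) (C.cons (nat_lit 834) (C.miq (nat_lit 2521530656) (nat_lit 2572664998318668502242492679)) (C.cons (nat_lit 770) (C.node (nat_lit 4) (nat_lit 5) (nat_lit 11) (C.cons (nat_lit 2354) (C.miq (nat_lit 2873493522) (nat_lit 2572614307512358944218939655)) (C.cons (nat_lit 2352) (C.node (nat_lit 1) (nat_lit 4) (nat_lit 5) (C.cons (nat_lit 58) (C.miq (nat_lit 360264736) (nat_lit 1121892808265852746008430621)) (C.cons (nat_lit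 50) (C.node (nat_lit 2) (nat_lit 10) (nat_lit 11) (C.cons (nat_lit 3110) (C.miq (nat_lit 891751096) (nat_lit 217613897400838427005685505)) (C.cons (nat_lit 3108) (C.miq (nat_lit 891751096) (nat_lit 217613897400838418415750913)) (C.cons (nat_lit 3078) (C.miq (nat_lit 1756512417) (nat_lit 2944944883096100572928279699)) (C.cons (nat_lit 3076) (C.node (nat_lit 1) (nat_lit 3) (nat_lit 4) (C.cons (nat_lit 282) (C.node (nat_lit 4) (nat_lit 8) (nat_lit 10) (C.cons (nat_lit 1296) (C.node (nat_lit 1) (nat_lit 5) (nat_lit 7) (C.cons (nat_lit 170) (C.miq (nat_lit 1679099959) (nat_lit 60488220524869278889542025)) (C.cons (nat_lit 162) (C.node (nat_lit 3) (nat_lit 5) (nat_lit 7) (C.cons (nat_lit 168) (C.node (nat_lit 1) (nat_lit 3) (nat_lit 7) (C.cons (nat_lit 138) (C.node (nat_lit 1) (nat_lit 6) (nat_lit 7) C.nil) C.nil)) C.nil)) C.nil))) C.nil)) (C.cons (nat_lit 26) (C.node (nat_lit 1) (nat_lit 4) (nat_lit 8) (C.cons (nat_lit 274) (C.node (nat_lit 1) (nat_lit 4)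 (nat_lit 9) (C.cons (nat_lit 2578) (C.node (nat_lit 1) (nat_lit 7) (nat_lit 9) (C.cons (nat_lit 706) (C.miq (nat_lit 2836794178) (nat_lit 853521792020357219859433501)) (C.cons (nat_lit 642) (C.node (nat_lit 1) (nat_lit 2) (nat_lit 11) C.nil) C.nil))) (C.cons (nat_lit 530) (C.node (nat_lit 1) (nat_lit 4) (nat_lit 11) C.nil) C.nil))) C.nil)) C.nil))) C.nil))))) C.nil))) (C.cons (nat_lit 2098) (C.miq (nat_lit 2336584201) (nat_lit 2536343488815674374948455045)) (C.cons (nat_lit 2096) (C.miq (nat_lit 2336584201) (nat_lit 2533925637176445116599042693)) C.nil))))) C.nil))) C.nil))) C.nil))) C.nil))) (C.cons (nat_lit 22) (C.node (nat_lit 2) (nat_lit 4) (nat_lit 6) (C.cons (nat_lit 84) (C.node (nat_lit 1) (nat_lit 5) (nat_lit 7) (C.cons (nat_lit 170) (C.node (nat_lit 3) (nat_lit 5) (nat_lit 11) (C.cons (nat_lit 2600) (C.miq (nat_lit 2838563671) (nat_lit 632289805876917924728015073)) (C.cons (nat_lit 2344) (C.miq (nat_lit 896710800) (nat_lit 217644962077855677367521025))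 (C.cons (nat_lit 2088) (C.node (nat_lit 5) (nat_lit 9) (nat_lit 11) (C.cons (nat_lit 2598) (C.miq (nat_lit 628341120) (nat_lit 205555703953204029688450817)) (C.cons (nat_lit 2596) (C.miq (nat_lit 628341120) (nat_lit 205555703952641079735029505)) (C.cons (nat_lit 2594) (C.miq (nat_lit 2299726679) (nat_lit 632275454310028552927054049)) (C.cons (nat_lit 2592) (C.node (nat_lit 5) (nat_lit 10) (nat_lit 11) (C.cons (nat_lit 3110) (C.miq (nat_lit 891751096) (nat_lit 217613897400838427005685505)) (C.cons (nat_lit 3108) (C.miq (nat_lit 891751096) (nat_lit 217613897400838418415750913)) (C.cons (nat_lit 3106) (C.miq (nat_lit 2337475095) (nat_lit 2524244362006925410365473939)) (C.cons (nat_lit 3104) (C.node (nat_lit 1) (nat_lit 2) (nat_lit 7) (C.cons (nat_lit 198) (C.node (nat_lit 1) (nat_lit 7) (nat_lit 8) (C.cons (nat_lit 386) (C.node (nat_lit 1) (nat_lit 7) (nat_lit 9) (C.cons (nat_lit 642) (C.node (nat_lit 1) (nat_lit 2) (nat_lit 3) (C.cons (nat_lit 1038) (C.node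 (nat_lit 2) (nat_lit 3) (nat_lit 7) (C.cons (nat_lit 140) (C.node (nat_lit 2) (nat_lit 7) (nat_lit 10) C.nil) C.nil)) (C.cons (nat_lit 14) (C.miq (nat_lit 2719155829) (nat_lit 16944607564696309077772513)) C.nil))) C.nil)) C.nil)) (C.cons (nat_lit 134) (C.node (nat_lit 1) (nat_lit 7) (nat_lit 8) (C.cons (nat_lit 450) (C.node (nat_lit 1) (nat_lit 7) (nat_lit 9) (C.cons (nat_lit 642) (C.node (nat_lit 1) (nat_lit 8) (nat_lit 9) (C.cons (nat_lit 770)
  (C.node (nat_lit 7) (nat_lit 8) (nat_lit 10) (C.cons (nat_lit 1408) (C.node (nat_lit 2) (nat_lit 6) (nat_lit 7) (C.cons (nat_lit 204) (C.node (nat_lit 2) (nat_lit 7) (nat_lit 10) C.nil) C.nil)) C.nil)) C.nil)) C.nil)) (C.cons (nat_lit 386) (C.node (nat_lit 1) (nat_lit 6) (nat_lit 7) (C.cons (nat_lit 706) (C.node (nat_lit 1) (nat_lit 8) (nat_lit 9) (C.cons (nat_lit 770) (C.node (nat_lit 3) (nat_lit 9) (nat_lit 11) (C.cons (nat_lit 2632) (C.miq (nat_lit 1133579111) (nat_lit 632289805380396203284498657)) (C.cons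 (nat_lit 2568) (C.node (nat_lit 2) (nat_lit 9) (nat_lit 11) (C.cons (nat_lit 2628) (C.miq (nat_lit 338260150) (nat_lit 952646569587259947159390433)) (C.cons (nat_lit 2566) (C.miq (nat_lit 824641976) (nat_lit 162003309546003711129816833)) (C.cons (nat_lit 2564) (C.node (nat_lit 3) (nat_lit 5) (nat_lit 9) (C.cons (nat_lit 620) (C.miq (nat_lit 2710767461) (nat_lit 632287849770499789059524833)) (C.cons (nat_lit 616) (C.miq (nat_lit 2710767461) (nat_lit 632287849770499789059262689)) (C.cons (nat_lit 556) (C.miq (nat_lit 391709731) (nat_lit 1121892808579134395081558045)) (C.cons (nat_lit 552) (C.node (nat_lit 1) (nat_lit 4) (nat_lit 9) (C.cons (nat_lit 2578) (C.node (nat_lit 4) (nat_lit 6) (nat_lit 11) (C.cons (nat_lit 2128) (C.node (nat_lit 6) (nat_lit 9) (nat_lit 11) C.nil) C.nil)) (C.cons (nat_lit 530) (C.node (nat_lit 1) (nat_lit 9) (nat_lit 11) (C.cons (nat_lit 2562) (C.node (nat_lit 2) (nat_lit 5) (nat_lit 11) (C.cons (nat_lit 2084) (C.node (nat_lit 2)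 (nat_lit 6) (nat_lit 11) C.nil) C.nil)) C.nil)) C.nil))) C.nil))))) C.nil)))) C.nil))) C.nil)) (C.cons (nat_lit 194) (C.node (nat_lit 1) (nat_lit 7) (nat_lit 9) C.nil) C.nil))) C.nil))) C.nil))) C.nil))))) C.nil))))) C.nil)))) (C.cons (nat_lit 162) (C.node (nat_lit 3) (nat_lit 5) (nat_lit 7) (C.cons (nat_lit 168) (C.node (nat_lit 1) (nat_lit 7) (nat_lit 8) (C.cons (nat_lit 450) (C.node (nat_lit 1) (nat_lit 7) (nat_lit 9) (C.cons (nat_lit 642) (C.node (nat_lit 7) (nat_lit 8) (nat_lit 10) C.nil) C.nil)) (C.cons (nat_lit 386) (C.node (nat_lit 1) (nat_lit 7) (nat_lit 9) (C.cons (nat_lit 706) (C.node (nat_lit 1) (nat_lit 2) (nat_lit 7) (C.cons (nat_lit 142) (C.miq (nat_lit 1461273136) (nat_lit 853511977322019654128568349)) C.nil)) (C.cons (nat_lit 642) (C.node (nat_lit 2) (nat_lit 7) (nat_lit 10) (C.cons (nat_lit 1156) (C.node (nat_lit 6) (nat_lit 7) (nat_lit 8) C.nil) C.nil)) C.nil))) C.nil))) C.nil)) C.nil))) C.nil)) C.nil))) (C.cons (nat_lit 418) (C.miq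 (nat_lit 2507686066) (nat_lit 505345528791162302708844573)) (C.cons (nat_lit 416) (C.miq (nat_lit 2507686066) (nat_lit 502927677151933044359432221)) C.nil))))) C.nil)))) C.nil)) (C.cons (nat_lit 276) (C.miq (nat_lit 2552499061) (nat_lit 333673875918218851375122657)) C.nil)))) C.nil))) (C.cons (nat_lit 148) (C.ref (nat_lit 292) (nat_lit 205163983024656)) C.nil)))) List.nil)

theorem ok12_293 : okL par12 (nat_lit 294) c12_293 (nat_lit 293) = true := by decide +kernel

noncomputable def c12_294 : List C :=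
  (List.cons (C.node (nat_lit 1) (nat_lit 4) (nat_lit 8) (C.cons (nat_lit 786) (C.miq (nat_lit 1460931465) (nat_lit 1415662484031959190704623361)) (C.cons (nat_lit 282) (C.node (nat_lit 4) (nat_lit 8) (nat_lit 10) (C.cons (nat_lit 1300) (C.miq (nat_lit 1797785508) (nat_lit 2790207008863123358564484243)) (C.cons (nat_lit 1296) (C.node (nat_lit 2) (nat_lit 4) (nat_lit 8) (C.cons (nat_lit 788) (C.miq (nat_lit 683119696) (nat_lit 2942537343313747337455665713)) (C.cons (nat_lit 404) (C.miq (nat_lit 2441544514) (nat_lit 2942537343239147577922553885)) (C.cons (nat_lit 276) (C.node (nat_lit 2) (nat_lit 4) (nat_lit 7) (C.cons (nat_lit 212) (C.miq (nat_lit 2722674528) (nat_lit 333734381059471506542758113)) (C.cons (nat_lit 180) (C.miq (nat_lit 2554465111) (nat_lit 333675425444720682200205537)) (C.cons (nat_lit 148) (C.node (nat_lit 4) (nat_lit 5) (nat_lit 7) (C.cons (nat_lit 184) (C.node (nat_lit 4) (nat_lit 7) (nat_lit 8) (C.cons (nat_lit 912) (C.miq (nat_lit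 2839873651) (nat_lit 678227031667394770250498441)) (C.cons (nat_lit 400) (C.node (nat_lit 4) (nat_lit 8) (nat_lit 9) (C.cons (nat_lit 784) (C.node (nat_lit 5) (nat_lit 7) (nat_lit 10) (C.cons (nat_lit 1696) (C.miq (nat_lit 659864208) (nat_lit 222480665598385972566888193)) (C.cons (nat_lit 1440) (C.miq (nat_lit 998588583) (nat_lit 2843396922519157405158212755)) (C.cons (nat_lit 1184) (C.node (nat_lit 7) (nat_lit 8) (nat_lit 10) (C.cons (nat_lit 1472) (C.miq (nat_lit 1680310458) (nat_lit 178948175005107606325038849)) (C.cons (nat_lit 1408) (C.node (nat_lit 1) (nat_lit 3) (nat_lit 7) (C.cons (nat_lit 206) (C.miq (nat_lit 2819754870) (nat_lit 317967653931075876997171425)) (C.cons (nat_lit 202) (C.miq (nat_lit 1665495435) (nat_lit 222484280315230466587232642)) (C.cons (nat_lit 142) (C.miq (nat_lit 2591099683) (nat_lit 1415661783497040460306581533)) (C.cons (nat_lit 138) (C.node (nat_lit 1) (nat_lit 4) (nat_lit 5) (C.cons (nat_lit 118) (C.miq (nat_lit 2822900566)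 (nat_lit 333683689586065704075266273)) (C.cons (nat_lit 114) (C.miq (nat_lit 1462853764) (nat_lit 166833866675437539002286417)) (C.cons (nat_lit 54) (C.miq (nat_lit 1367818755) (nat_lit 2942528839158117752136861725)) (C.cons (nat_lit 50) (C.node (nat_lit 3) (nat_lit 5) (nat_lit 8) (C.cons (nat_lit 876) (C.miq (nat_lit 2754742102) (nat_lit 2510959089960465348464216289)) (C.cons (nat_lit 872) (C.miq (nat_lit 2840856631) (nat_lit 678228987022266411664277897)) (C.cons (nat_lit 812) (C.miq (nat_lit 1477915140) (nat_lit 2942528839371475784534525981)) (C.cons (nat_lit 808) (C.miq (nat_lit 2840856631) (nat_lit 678228987022266136786370953)) (C.cons (nat_lit 364) (C.miq (nat_lit 2754742102) (nat_lit 2510959089960465348430661857)) (C.cons (nat_lit 360) (C.miq (nat_lit 1394042944) (nat_lit 166873692657430570793632081)) (C.cons (nat_lit 300) (C.miq (nat_lit 1477915140) (nat_lit 2942528839227360596458670109)) (C.cons (nat_lit 296) (C.node (nat_lit 2) (nat_lit 3) (nat_lit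 7) (C.cons (nat_lit 204) (C.node (nat_lit 2) (nat_lit 7) (nat_lit 8) (C.cons (nat_lit 388) (C.node (nat_lit 5) (nat_lit 7) (nat_lit 8) C.nil) C.nil)) (C.cons (nat_lit 140) (C.node (nat_lit 4) (nat_lit 6) (nat_lit 7) (C.cons (nat_lit 720) (C.node (nat_lit 6) (nat_lit 7) (nat_lit 8) C.nil) (C.cons (nat_lit 208) (C.node (nat_lit 4) (nat_lit 7) (nat_lit 9) C.nil) C.nil))) C.nil))) C.nil))))))))) C.nil))))) C.nil))))) C.nil))) C.nil)))) C.nil)) C.nil))) (C.cons (nat_lit 176) (C.node (nat_lit 3) (nat_lit 4) (nat_lit 5) (C.cons (nat_lit 120) (C.node (nat_lit 3) (nat_lit 4) (nat_lit 7) (C.cons (nat_lit 664) (C.miq (nat_lit 1954714384) (nat_lit 333675424550465790613586443)) (C.cons (nat_lit 152) (C.node (nat_lit 3) (nat_lit 5) (nat_lit 11) (C.cons (nat_lit 2600) (C.miq (nat_lit 2471015776) (nat_lit 340987935807148000520767713)) (C.cons (nat_lit 2090) (C.miq (nat_lit 2961266243) (nat_lit 317986044893555595396382840)) (C.cons (nat_lit 2088) (C.node (nat_lit 1) (nat_lit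 3) (nat_lit 5) (C.cons (nat_lit 174) (C.miq (nat_lit 2819820405) (nat_lit 340936727994919767447046369))
  (C.cons (nat_lit 170) (C.miq (nat_lit 2819820405) (nat_lit 340936727994919767446784225)) (C.cons (nat_lit 46) (C.miq (nat_lit 543496259) (nat_lit 2747889236608308871033258266)) (C.cons (nat_lit 42) (C.node (nat_lit 1) (nat_lit 3) (nat_lit 7) (C.cons (nat_lit 206) (C.miq (nat_lit 2452883301) (nat_lit 2510949276144562391672686817)) (C.cons (nat_lit 202) (C.node (nat_lit 1) (nat_lit 2) (nat_lit 3) (C.cons (nat_lit 1038) (C.miq (nat_lit 2789417089) (nat_lit 145090246381757608446525703)) (C.cons (nat_lit 14) (C.node (nat_lit 1) (nat_lit 3) (nat_lit 10) (C.cons (nat_lit 3082) (C.miq (nat_lit 2443641778) (nat_lit 1415664033065882956360583197)) (C.cons (nat_lit 1034) (C.node (nat_lit 1) (nat_lit 3) (nat_lit 11) (C.cons (nat_lit 2058) (C.node (nat_lit 3) (nat_lit 9) (nat_lit 11) (C.cons (nat_lit 2632) (C.miq (nat_lit 2468001392) (nat_lit 1250100152166356691396528353))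 C.nil)) C.nil)) C.nil))) C.nil))) (C.cons (nat_lit 142) (C.miq (nat_lit 2591099683) (nat_lit 1415661783497040460306581533)) (C.cons (nat_lit 138) (C.miq (nat_lit 1662473355) (nat_lit 166873692589876576465848624)) C.nil))))) C.nil))))) C.nil)))) C.nil))) (C.cons (nat_lit 56) (C.node (nat_lit 1) (nat_lit 3) (nat_lit 7) (C.cons (nat_lit 206) (C.miq (nat_lit 2819754870) (nat_lit 317967653931075876997171425)) (C.cons (nat_lit 202) (C.miq (nat_lit 1665495435) (nat_lit 67741775404557932224842114)) (C.cons (nat_lit 174) (C.miq (nat_lit 2819820405) (nat_lit 340936727994919767447046369)) (C.cons (nat_lit 170) (C.miq (nat_lit 2819820405) (nat_lit 340936727994919767446784225)) (C.cons (nat_lit 142) (C.miq (nat_lit 2591099683) (nat_lit 1415661783497040460306581533)) (C.cons (nat_lit 138) (C.node (nat_lit 4) (nat_lit 7) (nat_lit 8) (C.cons (nat_lit 912) (C.node (nat_lit 3) (nat_lit 4) (nat_lit 7) (C.cons (nat_lit 216) (C.node (nat_lit 3) (nat_lit 7) (nat_lit 10) (C.cons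 (nat_lit 1672) (C.miq (nat_lit 1621313687) (nat_lit 1287509982481173556555678608)) (C.cons (nat_lit 1160) (C.node (nat_lit 4) (nat_lit 6) (nat_lit 11) (C.cons (nat_lit 2642) (C.miq (nat_lit 2486744688) (nat_lit 340987935818970361863145697)) (C.cons (nat_lit 2640) (C.miq (nat_lit 2486744688) (nat_lit 340987935818407411909724385)) (C.cons (nat_lit 2130) (C.miq (nat_lit 1636283440) (nat_lit 2942567374990829864645888029)) (C.cons (nat_lit 2128) (C.node (nat_lit 3) (nat_lit 8) (nat_lit 9) (C.cons (nat_lit 876) (C.miq (nat_lit 1746350596) (nat_lit 2942529429685300541749659677)) (C.cons (nat_lit 872) (C.miq (nat_lit 2761230211) (nat_lit 678227030915856582478135689)) (C.cons (nat_lit 844) (C.miq (nat_lit 1746350596) (nat_lit 2942529429676293342494918685)) (C.cons (nat_lit 840) (C.miq (nat_lit 2474280512) (nat_lit 1402424804933396869273551185)) (C.cons (nat_lit 812) (C.miq (nat_lit 412566304) (nat_lit 1102561948705231552205096989)) (C.cons (nat_lit 808) (C.miq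 (nat_lit 2761230211) (nat_lit 678227030915856582473941385)) (C.cons (nat_lit 780) (C.miq (nat_lit 412566304) (nat_lit 1102561948705231414766143517)) (C.cons (nat_lit 776) (C.node (nat_lit 1) (nat_lit 4) (nat_lit 11) (C.cons (nat_lit 2578) (C.node (nat_lit 5) (nat_lit 9) (nat_lit 11) (C.cons (nat_lit 2600) (C.miq (nat_lit 1531590928) (nat_lit 3733182577484259404115280395)) (C.cons (nat_lit 2596) (C.miq (nat_lit 1416794283) (nat_lit 178968909208492959403872001)) (C.cons (nat_lit 2592) (C.node (nat_lit 1) (nat_lit 4) (nat_lit 6) (C.cons (nat_lit 114) (C.miq (nat_lit 1462853764) (nat_lit 166833866675437539002286417)) (C.cons (nat_lit 86) (C.miq (nat_lit 1636254211) (nat_lit 2942529429462935310097254429)) (C.cons (nat_lit 82) (C.node (nat_lit 1) (nat_lit 2) (nat_lit 4) (C.cons (nat_lit 54) (C.node (nat_lit 2) (nat_lit 4) (nat_lit 6) C.nil) C.nil)) C.nil)))) C.nil)))) (C.cons (nat_lit 2066) (C.node (nat_lit 4) (nat_lit 9) (nat_lit 11) C.nil) C.nil))) C.nil)))))))))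 C.nil))))) C.nil))) (C.cons (nat_lit 152) (C.node (nat_lit 4) (nat_lit 6) (nat_lit 7) (C.cons (nat_lit 208) (C.node (nat_lit 1) (nat_lit 2) (nat_lit 7) (C.cons (nat_lit 198)
  (C.miq (nat_lit 2819754870) (nat_lit 317967653931075876996647137)) (C.cons (nat_lit 166) (C.node (nat_lit 1) (nat_lit 4) (nat_lit 5) (C.cons (nat_lit 114) (C.miq (nat_lit 827819104) (nat_lit 200688935705825844062650705)) (C.cons (nat_lit 50) (C.node (nat_lit 2) (nat_lit 5) (nat_lit 11) (C.cons (nat_lit 2596) (C.miq (nat_lit 1193609913) (nat_lit 200692035009074753033211649)) (C.cons (nat_lit 2084) (C.node (nat_lit 1) (nat_lit 4) (nat_lit 11) (C.cons (nat_lit 2642) (C.miq (nat_lit 1636283440) (nat_lit 2942567375134945052721743901)) C.nil)) C.nil))) C.nil))) (C.cons (nat_lit 134) (C.node (nat_lit 1) (nat_lit 5) (nat_lit 7) (C.cons (nat_lit 674) (C.node (nat_lit 1) (nat_lit 6) (nat_lit 7) (C.cons (nat_lit 194) (C.node (nat_lit 3) (nat_lit 5) (nat_lit 7) (C.cons (nat_lit 172) (C.node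 (nat_lit 5) (nat_lit 7) (nat_lit 8) (C.cons (nat_lit 1440) (C.miq (nat_lit 732246151) (nat_lit 3752508917508429660022636937)) C.nil)) C.nil)) C.nil)) (C.cons (nat_lit 162) (C.node (nat_lit 1) (nat_lit 6) (nat_lit 7) (C.cons (nat_lit 706) (C.node (nat_lit 1) (nat_lit 8) (nat_lit 9) (C.cons (nat_lit 802) (C.miq (nat_lit 323326136) (nat_lit 67714640334386682464833281)) (C.cons (nat_lit 770) (C.node (nat_lit 1) (nat_lit 4) (nat_lit 9) (C.cons (nat_lit 2578) (C.node (nat_lit 4) (nat_lit 6) (nat_lit 11) C.nil) (C.cons (nat_lit 534) (C.miq (nat_lit 2174170144) (nat_lit 853508878297727402183559197)) C.nil))) C.nil))) (C.cons (nat_lit 194) (C.node (nat_lit 1) (nat_lit 7) (nat_lit 9) (C.cons (nat_lit 642) (C.node (nat_lit 2) (nat_lit 3) (nat_lit 7) C.nil) C.nil)) C.nil))) C.nil))) C.nil)))) C.nil)) C.nil))) (C.cons (nat_lit 400) (C.node (nat_lit 4) (nat_lit 8) (nat_lit 9) (C.cons (nat_lit 784) (C.node (nat_lit 1) (nat_lit 2) (nat_lit 7) (C.cons (nat_lit 198) (C.miq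 (nat_lit 2819754870) (nat_lit 317967653931075876996647137)) (C.cons (nat_lit 166) (C.node (nat_lit 1) (nat_lit 4) (nat_lit 5) (C.cons (nat_lit 114) (C.miq (nat_lit 827819104) (nat_lit 200688935705825844062650705)) (C.cons (nat_lit 50) (C.node (nat_lit 2) (nat_lit 5) (nat_lit 11) (C.cons (nat_lit 2596) (C.miq (nat_lit 1193609913) (nat_lit 200692035009074753033211649)) (C.cons (nat_lit 2084) (C.node (nat_lit 1) (nat_lit 6) (nat_lit 7) (C.cons (nat_lit 706) (C.node (nat_lit 1) (nat_lit 8) (nat_lit 9) (C.cons (nat_lit 802) (C.miq (nat_lit 877726601) (nat_lit 60455939212515637274480385)) (C.cons (nat_lit 770) (C.node (nat_lit 4) (nat_lit 7) (nat_lit 9) (C.cons (nat_lit 664) (C.miq (nat_lit 1954714384) (nat_lit 333675424550465790613586443)) (C.cons (nat_lit 656) (C.node (nat_lit 7) (nat_lit 8) (nat_lit 9) (C.cons (nat_lit 928) (C.miq (nat_lit 1165146256) (nat_lit 200720000605502668735319809)) (C.cons (nat_lit 896) (C.node (nat_lit 2) (nat_lit 7) (nat_lit 8)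 C.nil) C.nil))) C.nil))) C.nil))) (C.cons (nat_lit 194) (C.node (nat_lit 1) (nat_lit 7) (nat_lit 9) (C.cons (nat_lit 642) (C.node (nat_lit 2) (nat_lit 3) (nat_lit 7) (C.cons (nat_lit 204) (C.node (nat_lit 2) (nat_lit 7) (nat_lit 8) (C.cons (nat_lit 388) (C.node (nat_lit 3) (nat_lit 4) (nat_lit 7) C.nil) C.nil)) (C.cons (nat_lit 140) (C.node (nat_lit 3) (nat_lit 4) (nat_lit 7) (C.cons (nat_lit 728) (C.miq (nat_lit 1954714384) (nat_lit 333675424568480189123068427)) (C.cons (nat_lit 152) (C.node (nat_lit 4) (nat_lit 6) (nat_lit 7) C.nil) C.nil))) C.nil))) C.nil)) C.nil))) C.nil))) C.nil))) (C.cons (nat_lit 134) (C.node (nat_lit 1) (nat_lit 5) (nat_lit 7) (C.cons (nat_lit 674) (C.node (nat_lit 1) (nat_lit 6) (nat_lit 7) (C.cons (nat_lit 194) (C.node (nat_lit 3) (nat_lit 5) (nat_lit 11) (C.cons (nat_lit 2600) (C.miq (nat_lit 1133579095) (nat_lit 632289805380396065843448033)) (C.cons (nat_lit 2090) (C.miq (nat_lit 588843863) (nat_lit 632280102393011104185977057))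 (C.cons (nat_lit 2088) (C.node (nat_lit 5) (nat_lit 9) (nat_lit 11) (C.cons (nat_lit 2596) (C.miq (nat_lit 1416794283) (nat_lit 178968909208492959403872001)) (C.cons (nat_lit 2592) (C.node (nat_lit 1) (nat_lit 5) (nat_lit 11) (C.cons (nat_lit 2086) (C.node (nat_lit 1) (nat_lit 4) (nat_lit 5)
  (C.cons (nat_lit 114) (C.miq (nat_lit 827819104) (nat_lit 814823252070057464813388113)) (C.cons (nat_lit 50) (C.node (nat_lit 3) (nat_lit 5) (nat_lit 7) (C.cons (nat_lit 172) (C.node (nat_lit 5) (nat_lit 7) (nat_lit 8) C.nil) C.nil)) C.nil))) (C.cons (nat_lit 2082) (C.node (nat_lit 2) (nat_lit 5) (nat_lit 11) C.nil) C.nil))) C.nil))) C.nil)))) C.nil)) (C.cons (nat_lit 162) (C.node (nat_lit 1) (nat_lit 6) (nat_lit 7) (C.cons (nat_lit 706) (C.node (nat_lit 1) (nat_lit 8) (nat_lit 9) (C.cons (nat_lit 802) (C.miq (nat_lit 323326136) (nat_lit 67714640334386682464833281)) (C.cons (nat_lit 770) (C.node (nat_lit 4) (nat_lit 7) (nat_lit 9) (C.cons (nat_lit 664) (C.miq (nat_lit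 1954714384) (nat_lit 333675424550465790613586443)) (C.cons (nat_lit 656) (C.node (nat_lit 7) (nat_lit 8) (nat_lit 9) C.nil) C.nil))) C.nil))) (C.cons (nat_lit 194) (C.node (nat_lit 1) (nat_lit 7) (nat_lit 9) (C.cons (nat_lit 642) (C.node (nat_lit 2) (nat_lit 4) (nat_lit 10) (C.cons (nat_lit 1556) (C.miq (nat_lit 1461980073) (nat_lit 178931370566196852155485953)) (C.cons (nat_lit 1076) (C.node (nat_lit 1) (nat_lit 4) (nat_lit 5) (C.cons (nat_lit 114) (C.miq (nat_lit 827819104) (nat_lit 195853232427367327363826001)) (C.cons (nat_lit 50) (C.node (nat_lit 3) (nat_lit 4) (nat_lit 7) (C.cons (nat_lit 728) (C.miq (nat_lit 1954714384) (nat_lit 333675424568480189123068427)) C.nil)) C.nil))) (C.cons (nat_lit 1044) (C.node (nat_lit 4) (nat_lit 5) (nat_lit 10) (C.cons (nat_lit 1136) (C.node (nat_lit 3) (nat_lit 4) (nat_lit 7) (C.cons (nat_lit 728) (C.miq (nat_lit 1954714384) (nat_lit 333675424568480189123068427)) C.nil)) (C.cons (nat_lit 1072) (C.node (nat_lit 3)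 (nat_lit 4) (nat_lit 7) C.nil) C.nil))) C.nil)))) C.nil)) C.nil))) C.nil))) C.nil)))) C.nil)) C.nil))) C.nil))))))) C.nil))) C.nil))) C.nil)))) C.nil)))) C.nil))) (C.cons (nat_lit 274) (C.node (nat_lit 4) (nat_lit 8) (nat_lit 10) (C.cons (nat_lit 1304) (C.node (nat_lit 5) (nat_lit 7) (nat_lit 10) (C.cons (nat_lit 1696) (C.miq (nat_lit 1521784608) (nat_lit 3733173280070795564263735941)) (C.cons (nat_lit 1440) (C.miq (nat_lit 1480292928) (nat_lit 2795078424803631760968320147)) (C.cons (nat_lit 1184) (C.node (nat_lit 7) (nat_lit 8) (nat_lit 10) (C.cons (nat_lit 1472) (C.miq (nat_lit 713340768) (nat_lit 1576477583566769686150449377)) (C.cons (nat_lit 1408) (C.node (nat_lit 4) (nat_lit 5) (nat_lit 7) (C.cons (nat_lit 184) (C.miq (nat_lit 1535340708) (nat_lit 2795039889789741333596341395)) (C.cons (nat_lit 180) (C.miq (nat_lit 2591361828) (nat_lit 1431378520128305440543213597)) (C.cons (nat_lit 176) (C.node (nat_lit 2) (nat_lit 8) (nat_lit 10) (C.cons (nat_lit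 1316) (C.node (nat_lit 2) (nat_lit 4) (nat_lit 10) (C.cons (nat_lit 1556) (C.miq (nat_lit 1916996008) (nat_lit 2510946177091563806751461121)) (C.cons (nat_lit 1044) (C.node (nat_lit 4) (nat_lit 5) (nat_lit 10) (C.cons (nat_lit 1136) (C.miq (nat_lit 1984431523) (nat_lit 407415251420348500961395753)) (C.cons (nat_lit 1072) (C.node (nat_lit 5) (nat_lit 7) (nat_lit 8) (C.cons (nat_lit 928) (C.miq (nat_lit 609684361) (nat_lit 212782842986735905861013249)) (C.cons (nat_lit 416) (C.node (nat_lit 1) (nat_lit 8) (nat_lit 10) (C.cons (nat_lit 1346) (C.node (nat_lit 1) (nat_lit 8) (nat_lit 9) (C.cons (nat_lit 802) (C.miq (nat_lit 414422336) (nat_lit 2795046142821926235237319217)) (C.cons (nat_lit 770) (C.node (nat_lit 1) (nat_lit 10) (nat_lit 11) (C.cons (nat_lit 3082) (C.miq (nat_lit 2443641778) (nat_lit 1415664033065882956360583197)) (C.cons (nat_lit 3074) (C.node (nat_lit 1) (nat_lit 3) (nat_lit 10) (C.cons (nat_lit 1038) (C.miq (nat_lit 880877674) (nat_lit 331264822879381878504293445))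 (C.cons (nat_lit 1034) (C.node (nat_lit 1) (nat_lit 3) (nat_lit 4) (C.cons (nat_lit 122) (C.miq (nat_lit 1368933131) (nat_lit 930916267879668023067478045)) (C.cons (nat_lit 90) (C.miq (nat_lit 998654113) (nat_lit 2862738001639048543249499283)) (C.cons (nat_lit 58) (C.miq (nat_lit 1368933131) (nat_lit 930916267861653624557996061)) (C.cons (nat_lit 26)
  (C.node (nat_lit 3) (nat_lit 4) (nat_lit 5) (C.cons (nat_lit 120) (C.miq (nat_lit 3091597877) (nat_lit 407449931740560559877653545)) (C.cons (nat_lit 56) (C.node (nat_lit 2) (nat_lit 3) (nat_lit 8) (C.cons (nat_lit 844) (C.miq (nat_lit 1949436553) (nat_lit 2510950825819125136946368257)) (C.cons (nat_lit 780) (C.miq (nat_lit 1949436553) (nat_lit 2510950825819125136942173953)) (C.cons (nat_lit 332) (C.miq (nat_lit 406103584) (nat_lit 1576460870293653502419600453)) (C.cons (nat_lit 268) (C.node (nat_lit 2) (nat_lit 8) (nat_lit 9) (C.cons (nat_lit 836) (C.miq (nat_lit 1904806498) (nat_lit 930884779582804985993495621))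 (C.cons (nat_lit 788) (C.miq (nat_lit 659853496) (nat_lit 212785480468065940468141825)) (C.cons (nat_lit 772) (C.node (nat_lit 3) (nat_lit 10) (nat_lit 11) C.nil) C.nil)))) C.nil))))) C.nil))) C.nil))))) C.nil))) C.nil))) C.nil))) (C.cons (nat_lit 1282) (C.node (nat_lit 6) (nat_lit 8) (nat_lit 10) (C.cons (nat_lit 1344) (C.node (nat_lit 4) (nat_lit 6) (nat_lit 10) (C.cons (nat_lit 1616) (C.node (nat_lit 7) (nat_lit 9) (nat_lit 10) (C.cons (nat_lit 1672) (C.miq (nat_lit 2517083267) (nat_lit 2747919231395008366271595800)) (C.cons (nat_lit 1664) (C.node (nat_lit 3) (nat_lit 7) (nat_lit 10) (C.cons (nat_lit 1224) (C.node (nat_lit 3) (nat_lit 10) (nat_lit 11) (C.cons (nat_lit 3082) (C.miq (nat_lit 444152608) (nat_lit 2011662212353413136146303005)) C.nil)) C.nil)) C.nil))) (C.cons (nat_lit 1104) (C.node (nat_lit 4) (nat_lit 9) (nat_lit 10) (C.cons (nat_lit 1552) (C.node (nat_lit 1) (nat_lit 2) (nat_lit 10) (C.cons (nat_lit 1030) (C.node (nat_lit 2) (nat_lit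 3) (nat_lit 10) (C.cons (nat_lit 1036) (C.node (nat_lit 2) (nat_lit 9) (nat_lit 10) C.nil) C.nil)) C.nil)) C.nil)) C.nil))) C.nil)) C.nil))) C.nil))) C.nil))) C.nil))) (C.cons (nat_lit 1284) (C.node (nat_lit 2) (nat_lit 4) (nat_lit 7) (C.cons (nat_lit 404) (C.node (nat_lit 4) (nat_lit 8) (nat_lit 9) (C.cons (nat_lit 784) (C.node (nat_lit 5) (nat_lit 7) (nat_lit 8) (C.cons (nat_lit 928) (C.miq (nat_lit 609684361) (nat_lit 212782842986735905861013249)) (C.cons (nat_lit 416) (C.node (nat_lit 2) (nat_lit 4) (nat_lit 10) (C.cons (nat_lit 1556) (C.miq (nat_lit 1916996008) (nat_lit 2510946177091563806751461121)) (C.cons (nat_lit 1076) (C.miq (nat_lit 1383113859) (nat_lit 779776799736743128491164952)) (C.cons (nat_lit 1044) (C.node (nat_lit 4) (nat_lit 5) (nat_lit 10) (C.cons (nat_lit 1136) (C.miq (nat_lit 1686592048) (nat_lit 488447960893350902598534185)) (C.cons (nat_lit 1072) (C.node (nat_lit 3) (nat_lit 4) (nat_lit 7) (C.cons (nat_lit 728) (C.miq (nat_lit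 2541827104) (nat_lit 2942535092794073479559710749)) (C.cons (nat_lit 664) (C.miq (nat_lit 2541827104) (nat_lit 2942535092776059081050228765)) (C.cons (nat_lit 216) (C.miq (nat_lit 1803776164) (nat_lit 2795040480085551692301993107)) (C.cons (nat_lit 152) (C.node (nat_lit 3) (nat_lit 4) (nat_lit 9) (C.cons (nat_lit 600) (C.node (nat_lit 4) (nat_lit 6) (nat_lit 7) (C.cons (nat_lit 208) (C.node (nat_lit 4) (nat_lit 6) (nat_lit 10) C.nil) C.nil)) (C.cons (nat_lit 536) (C.node (nat_lit 4) (nat_lit 6) (nat_lit 7) (C.cons (nat_lit 720) (C.node (nat_lit 4) (nat_lit 6) (nat_lit 10) C.nil) (C.cons (nat_lit 208) (C.node (nat_lit 4) (nat_lit 7) (nat_lit 9) C.nil) C.nil))) C.nil))) C.nil))))) C.nil))) C.nil)))) C.nil))) C.nil)) (C.cons (nat_lit 212) (C.miq (nat_lit 1218601143) (nat_lit 1552264663189801051078527201)) (C.cons (nat_lit 148) (C.node (nat_lit 2) (nat_lit 4) (nat_lit 8) (C.cons (nat_lit 788) (C.miq (nat_lit 1411889296) (nat_lit 178962951414277189367303937))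 (C.cons (nat_lit 276) (C.node (nat_lit 4) (nat_lit 7) (nat_lit 8) (C.cons (nat_lit 912) (C.node (nat_lit 3) (nat_lit 4) (nat_lit 7) (C.cons (nat_lit 216) (C.miq (nat_lit 1803776164) (nat_lit 2795040480085551692301993107)) (C.cons (nat_lit 152) (C.node (nat_lit 4) (nat_lit 6) (nat_lit 7) (C.cons (nat_lit 208) (C.node (nat_lit 3) (nat_lit 4) (nat_lit 9) (C.cons (nat_lit 600) (C.node (nat_lit 4) (nat_lit 6) (nat_lit 10) (C.cons (nat_lit 1136)
  (C.miq (nat_lit 1686592048) (nat_lit 1102582277257582523349271593)) (C.cons (nat_lit 1104) (C.node (nat_lit 4) (nat_lit 9) (nat_lit 10) (C.cons (nat_lit 1556) (C.miq (nat_lit 607623808) (nat_lit 183768623169331841641025281)) (C.cons (nat_lit 1552) (C.node (nat_lit 5) (nat_lit 7) (nat_lit 8) C.nil) C.nil))) C.nil))) (C.cons (nat_lit 536) (C.node (nat_lit 5) (nat_lit 7) (nat_lit 8) (C.cons (nat_lit 420) (C.node (nat_lit 6) (nat_lit 7) (nat_lit 8) C.nil) (C.cons (nat_lit 416) (C.node (nat_lit 2) (nat_lit 7) (nat_lit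 8) C.nil) C.nil))) C.nil))) C.nil)) C.nil))) (C.cons (nat_lit 400) (C.node (nat_lit 4) (nat_lit 8) (nat_lit 9) (C.cons (nat_lit 784) (C.node (nat_lit 2) (nat_lit 4) (nat_lit 10) (C.cons (nat_lit 1556) (C.miq (nat_lit 1916996008) (nat_lit 2510946177091563806751461121)) (C.cons (nat_lit 1076) (C.node (nat_lit 4) (nat_lit 6) (nat_lit 10) (C.cons (nat_lit 1616) (C.node (nat_lit 2) (nat_lit 4) (nat_lit 6) (C.cons (nat_lit 86) (C.miq (nat_lit 2484643360) (nat_lit 331316528973259444006093893)) (C.cons (nat_lit 84) (C.node (nat_lit 4) (nat_lit 6) (nat_lit 7) (C.cons (nat_lit 216) (C.miq (nat_lit 1803776164) (nat_lit 2795040480085551692301993107)) C.nil)) C.nil))) (C.cons (nat_lit 1104) (C.node (nat_lit 4) (nat_lit 9) (nat_lit 10) (C.cons (nat_lit 1552) (C.node (nat_lit 1) (nat_lit 3) (nat_lit 4) (C.cons (nat_lit 122) (C.miq (nat_lit 3091597877) (nat_lit 407449931740560559877784617)) C.nil)) C.nil)) C.nil))) (C.cons (nat_lit 1044) (C.node (nat_lit 4) (nat_lit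 5) (nat_lit 10) (C.cons (nat_lit 1136) (C.miq (nat_lit 1686592048) (nat_lit 483612257614892385899709481)) (C.cons (nat_lit 1072) (C.node (nat_lit 4) (nat_lit 6) (nat_lit 10) (C.cons (nat_lit 1616) (C.node (nat_lit 2) (nat_lit 4) (nat_lit 9) C.nil) (C.cons (nat_lit 1104) (C.node (nat_lit 4) (nat_lit 9) (nat_lit 10) C.nil) C.nil))) C.nil))) C.nil)))) C.nil)) C.nil))) C.nil))) C.nil)))) C.nil))) C.nil)))) C.nil))) C.nil)))) (C.cons (nat_lit 1300) (C.miq (nat_lit 1797785508) (nat_lit 2790207008863123358564484243)) (C.cons (nat_lit 1296) (C.node (nat_lit 3) (nat_lit 4) (nat_lit 8) (C.cons (nat_lit 792) (C.node (nat_lit 3) (nat_lit 4) (nat_lit 7) (C.cons (nat_lit 216) (C.miq (nat_lit 2474345568) (nat_lit 2640364844205266345362784593)) (C.cons (nat_lit 184) (C.miq (nat_lit 2489025392) (nat_lit 2843464381900523909274468745)) (C.cons (nat_lit 152) (C.node (nat_lit 4) (nat_lit 5) (nat_lit 7) (C.cons (nat_lit 180) (C.miq (nat_lit 696545461) (nat_lit 957472569730287431188482273))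 (C.cons (nat_lit 176) (C.node (nat_lit 7) (nat_lit 8) (nat_lit 9) (C.cons (nat_lit 960) (C.miq (nat_lit 997802088) (nat_lit 3249607213530062888726692177)) (C.cons (nat_lit 928) (C.miq (nat_lit 609684361) (nat_lit 212782842986735905861013249)) (C.cons (nat_lit 896) (C.node (nat_lit 3) (nat_lit 4) (nat_lit 5) (C.cons (nat_lit 122) (C.miq (nat_lit 1803767956) (nat_lit 2795038746091608763570586161)) (C.cons (nat_lit 120) (C.miq (nat_lit 1803767956) (nat_lit 2795038709198120616151482929)) (C.cons (nat_lit 58) (C.miq (nat_lit 280312196) (nat_lit 2747889458042436299204330264)) (C.cons (nat_lit 56) (C.node (nat_lit 1) (nat_lit 3) (nat_lit 4) (C.cons (nat_lit 90) (C.node (nat_lit 3) (nat_lit 4) (nat_lit 10) (C.cons (nat_lit 1048) (C.node (nat_lit 4) (nat_lit 6) (nat_lit 11) (C.cons (nat_lit 2640) (C.miq (nat_lit 1681373568) (nat_lit 183798654773800516522151681)) (C.cons (nat_lit 2128) (C.node (nat_lit 3) (nat_lit 9) (nat_lit 11) (C.cons (nat_lit 2632) (C.miq (nat_lit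 2875459889) (nat_lit 2572615746358397887565136395)) (C.cons (nat_lit 2600) (C.miq (nat_lit 1397143936) (nat_lit 108845253946434508618272513)) (C.cons (nat_lit 2568) (C.node (nat_lit 1) (nat_lit 3) (nat_lit 7) (C.cons (nat_lit 174) (C.miq (nat_lit 2591099683) (nat_lit 1415661783497040460308678685)) (C.cons (nat_lit 170) (C.miq (nat_lit 363557640) (nat_lit 3752550643506739687769309577)) (C.cons (nat_lit 142) (C.miq (nat_lit 2591099683) (nat_lit 1415661783497040460306581533)) (C.cons (nat_lit 138) (C.node (nat_lit 1) (nat_lit 8) (nat_lit 9)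
  (C.cons (nat_lit 866) (C.miq (nat_lit 323326136) (nat_lit 67715820926007399876136705)) (C.cons (nat_lit 834) (C.miq (nat_lit 3105032292) (nat_lit 632306518627041120664289617)) (C.cons (nat_lit 802) (C.miq (nat_lit 323326136) (nat_lit 67714640334386682464833281)) (C.cons (nat_lit 770) (C.node (nat_lit 1) (nat_lit 4) (nat_lit 5) (C.cons (nat_lit 54) (C.node (nat_lit 2) (nat_lit 4) (nat_lit 10) (C.cons (nat_lit 1556) (C.miq (nat_lit 1917172368) (nat_lit 65323924610322025631780609)) C.nil)) (C.cons (nat_lit 50) (C.node (nat_lit 1) (nat_lit 2) (nat_lit 4) C.nil) C.nil))) C.nil))))) C.nil))))) C.nil)))) C.nil))) C.nil)) (C.cons (nat_lit 26) (C.node (nat_lit 2) (nat_lit 4) (nat_lit 8) (C.cons (nat_lit 404) (C.node (nat_lit 6) (nat_lit 7) (nat_lit 8) (C.cons (nat_lit 1472) (C.miq (nat_lit 1680310458) (nat_lit 488433184826452675049819905)) (C.cons (nat_lit 448) (C.node (nat_lit 3) (nat_lit 4) (nat_lit 6) (C.cons (nat_lit 1112) (C.node (nat_lit 3) (nat_lit 10)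 (nat_lit 11) (C.cons (nat_lit 3082) (C.miq (nat_lit 2443641778) (nat_lit 1415664033065882956360583197)) (C.cons (nat_lit 3080) (C.node (nat_lit 4) (nat_lit 9) (nat_lit 10) (C.cons (nat_lit 1556) (C.miq (nat_lit 1461980073) (nat_lit 488416380387541920880267009)) (C.cons (nat_lit 1552) (C.node (nat_lit 1) (nat_lit 3) (nat_lit 10) (C.cons (nat_lit 1290) (C.miq (nat_lit 951427440) (nat_lit 2843413173879159493637506195)) (C.cons (nat_lit 1038) (C.miq (nat_lit 2217805474) (nat_lit 31436922898533587377587269)) (C.cons (nat_lit 1034) (C.node (nat_lit 4) (nat_lit 6) (nat_lit 11) (C.cons (nat_lit 2642) (C.miq (nat_lit 1681373568) (nat_lit 183798654774363466475572993)) (C.cons (nat_lit 2640) (C.miq (nat_lit 1681373568) (nat_lit 183798654773800516522151681)) (C.cons (nat_lit 2130) (C.node (nat_lit 4) (nat_lit 9) (nat_lit 11) C.nil) C.nil)))) C.nil)))) C.nil))) C.nil))) (C.cons (nat_lit 88) (C.node (nat_lit 3) (nat_lit 4) (nat_lit 10) (C.cons (nat_lit 1048) (C.node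 (nat_lit 4) (nat_lit 6) (nat_lit 7) (C.cons (nat_lit 720) (C.node (nat_lit 5) (nat_lit 7) (nat_lit 8) C.nil) (C.cons (nat_lit 208) (C.node (nat_lit 4) (nat_lit 7) (nat_lit 9) (C.cons (nat_lit 656) (C.node (nat_lit 2) (nat_lit 4) (nat_lit 10) C.nil) C.nil)) C.nil))) C.nil)) C.nil))) C.nil))) (C.cons (nat_lit 276) (C.node (nat_lit 4) (nat_lit 7) (nat_lit 8) (C.cons (nat_lit 400) (C.node (nat_lit 2) (nat_lit 4) (nat_lit 7) (C.cons (nat_lit 212) (C.miq (nat_lit 2722674528) (nat_lit 333734381059471506542758113)) (C.cons (nat_lit 148) (C.node (nat_lit 3) (nat_lit 4) (nat_lit 6) (C.cons (nat_lit 1112) (C.node (nat_lit 4) (nat_lit 5) (nat_lit 10) (C.cons (nat_lit 1072) (C.node (nat_lit 2) (nat_lit 4) (nat_lit 10) C.nil) C.nil)) (C.cons (nat_lit 88) (C.node (nat_lit 3) (nat_lit 4) (nat_lit 10) C.nil) C.nil))) C.nil))) C.nil)) C.nil))) C.nil))) C.nil))))) C.nil)))) C.nil))) C.nil)))) (C.cons (nat_lit 280) (C.node (nat_lit 2) (nat_lit 4) (nat_lit 8) (C.cons (nat_lit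 788) (C.miq (nat_lit 683119696) (nat_lit 2942537343313747337455665713)) (C.cons (nat_lit 404) (C.node (nat_lit 4) (nat_lit 8) (nat_lit 9) (C.cons (nat_lit 784) (C.node (nat_lit 4) (nat_lit 5) (nat_lit 7) (C.cons (nat_lit 184) (C.node (nat_lit 2) (nat_lit 4) (nat_lit 10) (C.cons (nat_lit 1556) (C.miq (nat_lit 1461980073) (nat_lit 488416380387541920880267009)) (C.cons (nat_lit 1076) (C.miq (nat_lit 2191553619) (nat_lit 1321363170522931167853347000)) (C.cons (nat_lit 1044) (C.node (nat_lit 5) (nat_lit 7) (nat_lit 8) (C.cons (nat_lit 1440) (C.miq (nat_lit 998588583) (nat_lit 2843396922519157405158212755)) (C.cons (nat_lit 928) (C.miq (nat_lit 609684361) (nat_lit 222454249543652939258662657)) (C.cons (nat_lit 416) (C.node (nat_lit 5) (nat_lit 7) (nat_lit 10) (C.cons (nat_lit 1696) (C.miq (nat_lit 659864208) (nat_lit 222480665598385972566888193)) (C.cons (nat_lit 1184) (C.node (nat_lit 7) (nat_lit 8) (nat_lit 10) (C.cons (nat_lit 1472) (C.miq (nat_lit 1680310458)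 (nat_lit 488433184826452675049819905)) (C.cons (nat_lit 1408) (C.node (nat_lit 2) (nat_lit 4) (nat_lit 5)
  (C.cons (nat_lit 118) (C.miq (nat_lit 2217391456) (nat_lit 1262189410283689628882241761)) (C.cons (nat_lit 116) (C.miq (nat_lit 2217391456) (nat_lit 1262189410283689620292307169)) (C.cons (nat_lit 54) (C.miq (nat_lit 410329140) (nat_lit 502914137157895323802667037)) (C.cons (nat_lit 52) (C.node (nat_lit 1) (nat_lit 3) (nat_lit 4) (C.cons (nat_lit 90) (C.node (nat_lit 1) (nat_lit 4) (nat_lit 5) (C.cons (nat_lit 50) (C.node (nat_lit 1) (nat_lit 2) (nat_lit 4) (C.cons (nat_lit 534) (C.miq (nat_lit 344167024) (nat_lit 338508877289556091769258629)) C.nil)) C.nil)) (C.cons (nat_lit 26) (C.node (nat_lit 1) (nat_lit 4) (nat_lit 5) (C.cons (nat_lit 114) (C.node (nat_lit 4) (nat_lit 5) (nat_lit 10) C.nil) (C.cons (nat_lit 50) (C.node (nat_lit 4) (nat_lit 5) (nat_lit 6) C.nil) C.nil))) C.nil))) C.nil))))) C.nil))) C.nil))) C.nil)))) C.nil)))) (C.cons (nat_lit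 176) (C.node (nat_lit 2) (nat_lit 4) (nat_lit 10) (C.cons (nat_lit 1556) (C.miq (nat_lit 1461980073) (nat_lit 488416380387541920880267009)) (C.cons (nat_lit 1076) (C.node (nat_lit 2) (nat_lit 8) (nat_lit 10) (C.cons (nat_lit 1292) (C.miq (nat_lit 1384359024) (nat_lit 1561951805027408204526060691)) (C.cons (nat_lit 1284) (C.node (nat_lit 5) (nat_lit 7) (nat_lit 8) (C.cons (nat_lit 1440) (C.node (nat_lit 6) (nat_lit 7) (nat_lit 8) (C.cons (nat_lit 960) (C.node (nat_lit 1) (nat_lit 8) (nat_lit 9) (C.cons (nat_lit 802) (C.miq (nat_lit 414422336) (nat_lit 2795046142821926235237319217)) (C.cons (nat_lit 770) (C.node (nat_lit 2) (nat_lit 8) (nat_lit 9) (C.cons (nat_lit 812) (C.miq (nat_lit 2022785584) (nat_lit 930894482354294156547524637)) (C.cons (nat_lit 804) (C.miq (nat_lit 897714804) (nat_lit 972014673157379986178704531)) (C.cons (nat_lit 780) (C.miq (nat_lit 2022785584) (nat_lit 930894482354294019108571165)) C.nil)))) C.nil))) (C.cons (nat_lit 448) (C.node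 (nat_lit 7) (nat_lit 8) (nat_lit 9) C.nil) C.nil))) (C.cons (nat_lit 928) (C.miq (nat_lit 609684361) (nat_lit 212782842986735905861013249)) (C.cons (nat_lit 416) (C.node (nat_lit 2) (nat_lit 3) (nat_lit 8) (C.cons (nat_lit 876) (C.miq (nat_lit 2440572994) (nat_lit 2942541604437032423054903325)) (C.cons (nat_lit 844) (C.miq (nat_lit 2440572994) (nat_lit 2942541014141222064349251613)) (C.cons (nat_lit 812) (C.miq (nat_lit 2440572994) (nat_lit 2942540423845411705643599901)) (C.cons (nat_lit 780) (C.miq (nat_lit 2440572994) (nat_lit 2942539833549601346937948189)) (C.cons (nat_lit 364) (C.miq (nat_lit 2777104944) (nat_lit 502934742399864688897230877)) (C.cons (nat_lit 332) (C.miq (nat_lit 1384359024) (nat_lit 401383018197364196808131731)) (C.cons (nat_lit 300) (C.miq (nat_lit 2777104944) (nat_lit 502934742399864414019323933)) (C.cons (nat_lit 268) (C.miq (nat_lit 1384359024) (nat_lit 324011765742027929626936467)) C.nil))))))))) C.nil)))) C.nil))) (C.cons (nat_lit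 1044) (C.node (nat_lit 4) (nat_lit 5) (nat_lit 10) (C.cons (nat_lit 1136) (C.node (nat_lit 2) (nat_lit 4) (nat_lit 5) (C.cons (nat_lit 54) (C.node (nat_lit 3) (nat_lit 4) (nat_lit 5) (C.cons (nat_lit 56) (C.node (nat_lit 2) (nat_lit 5) (nat_lit 11) (C.cons (nat_lit 2596) (C.miq (nat_lit 1918151568) (nat_lit 65303596298357264471887617)) (C.cons (nat_lit 2084) (C.node (nat_lit 1) (nat_lit 5) (nat_lit 10) (C.cons (nat_lit 1570) (C.miq (nat_lit 2502664512) (nat_lit 2519472262462790263975511187)) (C.cons (nat_lit 1314) (C.miq (nat_lit 2234229056) (nat_lit 2519472262390732669937583251)) (C.cons (nat_lit 1058) (C.node (nat_lit 1) (nat_lit 2) (nat_lit 7) (C.cons (nat_lit 206) (C.miq (nat_lit 2819754870) (nat_lit 317967653931075876997171425)) (C.cons (nat_lit 198) (C.miq (nat_lit 2819754870) (nat_lit 317967653931075876996647137)) (C.cons (nat_lit 142) (C.miq (nat_lit 2591099683) (nat_lit 1415661783497040460306581533)) (C.cons (nat_lit 134) (C.node (nat_lit 1)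 (nat_lit 3) (nat_lit 4) (C.cons (nat_lit 90) (C.node (nat_lit 1) (nat_lit 4) (nat_lit 11) (C.cons (nat_lit 2578) (C.node (nat_lit 4) (nat_lit 6) (nat_lit 11) C.nil) C.nil)) (C.cons (nat_lit 26)
  (C.node (nat_lit 1) (nat_lit 5) (nat_lit 11) C.nil) C.nil))) C.nil))))) C.nil)))) C.nil))) C.nil)) (C.cons (nat_lit 52) (C.node (nat_lit 1) (nat_lit 4) (nat_lit 5) (C.cons (nat_lit 58) (C.node (nat_lit 1) (nat_lit 8) (nat_lit 9) (C.cons (nat_lit 866) (C.miq (nat_lit 414422336) (nat_lit 2795046142839940633746801201)) (C.cons (nat_lit 834) (C.miq (nat_lit 1368933131) (nat_lit 1008287520316989891739191325)) (C.cons (nat_lit 802) (C.miq (nat_lit 414422336) (nat_lit 2795046142821926235237319217)) (C.cons (nat_lit 770) (C.miq (nat_lit 1368933131) (nat_lit 930916267861653624557996061)) C.nil))))) (C.cons (nat_lit 50) (C.node (nat_lit 3) (nat_lit 4) (nat_lit 5) (C.cons (nat_lit 56) (C.node (nat_lit 1) (nat_lit 3) (nat_lit 4) (C.cons (nat_lit 26) (C.node (nat_lit 3) (nat_lit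 4) (nat_lit 10) C.nil) C.nil)) C.nil)) C.nil))) C.nil))) (C.cons (nat_lit 1072) (C.node (nat_lit 5) (nat_lit 7) (nat_lit 8) (C.cons (nat_lit 1440) (C.node (nat_lit 2) (nat_lit 5) (nat_lit 8) (C.cons (nat_lit 876) (C.miq (nat_lit 2440572994) (nat_lit 2942541604437032423054903325)) (C.cons (nat_lit 868) (C.miq (nat_lit 897714804) (nat_lit 1049385925612716253359899795)) (C.cons (nat_lit 812) (C.miq (nat_lit 2440572994) (nat_lit 2942540423845411705643599901)) (C.cons (nat_lit 804) (C.miq (nat_lit 897714804) (nat_lit 972014673157379986178704531)) (C.cons (nat_lit 364) (C.miq (nat_lit 614805624) (nat_lit 1295975193826353861690917257)) (C.cons (nat_lit 356) (C.miq (nat_lit 897714804) (nat_lit 430415905970026115910337683)) (C.cons (nat_lit 300) (C.miq (nat_lit 614805624) (nat_lit 1295974013234733144279613833)) (C.cons (nat_lit 292) (C.miq (nat_lit 897714804) (nat_lit 353044653514689848729142419)) C.nil))))))))) (C.cons (nat_lit 928) (C.miq (nat_lit 609684361)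 (nat_lit 212782842986735905861013249)) (C.cons (nat_lit 416) (C.node (nat_lit 5) (nat_lit 7) (nat_lit 10) (C.cons (nat_lit 1696) (C.miq (nat_lit 659864208) (nat_lit 212809259041468939169238785)) (C.cons (nat_lit 1184) (C.node (nat_lit 7) (nat_lit 8) (nat_lit 10) (C.cons (nat_lit 1472) (C.miq (nat_lit 1680310458) (nat_lit 488433184826452675049819905)) (C.cons (nat_lit 1408) (C.node (nat_lit 6) (nat_lit 7) (nat_lit 8) (C.cons (nat_lit 960) (C.node (nat_lit 1) (nat_lit 8) (nat_lit 9) (C.cons (nat_lit 802) (C.miq (nat_lit 414422336) (nat_lit 2795046142821926235237319217)) C.nil)) (C.cons (nat_lit 448) (C.node (nat_lit 7) (nat_lit 8) (nat_lit 9) C.nil) C.nil))) C.nil))) C.nil))) C.nil)))) C.nil))) C.nil)))) C.nil))) C.nil)) (C.cons (nat_lit 276) (C.node (nat_lit 2) (nat_lit 4) (nat_lit 7) (C.cons (nat_lit 212) (C.miq (nat_lit 2722674528) (nat_lit 333734381059471506542758113)) (C.cons (nat_lit 180) (C.miq (nat_lit 2554465111) (nat_lit 333675425444720682200205537))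 (C.cons (nat_lit 148) (C.node (nat_lit 4) (nat_lit 5) (nat_lit 7) (C.cons (nat_lit 184) (C.node (nat_lit 4) (nat_lit 7) (nat_lit 8) (C.cons (nat_lit 912) (C.miq (nat_lit 2839873651) (nat_lit 678227031667394770250498441)) (C.cons (nat_lit 400) (C.node (nat_lit 4) (nat_lit 8) (nat_lit 9) (C.cons (nat_lit 784) (C.node (nat_lit 5) (nat_lit 7) (nat_lit 10) (C.cons (nat_lit 1696) (C.miq (nat_lit 659864208) (nat_lit 222480665598385972566888193)) (C.cons (nat_lit 1440) (C.miq (nat_lit 998588583) (nat_lit 2843396922519157405158212755)) (C.cons (nat_lit 1184) (C.node (nat_lit 7) (nat_lit 8) (nat_lit 10) (C.cons (nat_lit 1472) (C.miq (nat_lit 1680310458) (nat_lit 178948175005107606325038849)) (C.cons (nat_lit 1408) (C.node (nat_lit 1) (nat_lit 3) (nat_lit 4) (C.cons (nat_lit 90) (C.node (nat_lit 1) (nat_lit 3) (nat_lit 7) (C.cons (nat_lit 142) (C.miq (nat_lit 2591099683) (nat_lit 1415661783497040460306581533)) (C.cons (nat_lit 138) (C.node (nat_lit 1) (nat_lit 4)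 (nat_lit 5) (C.cons (nat_lit 54) (C.miq (nat_lit 1367818755) (nat_lit 2942528839158117752136861725)) (C.cons (nat_lit 50) (C.node (nat_lit 1) (nat_lit 2) (nat_lit 4) C.nil) C.nil))) C.nil))) (C.cons (nat_lit 26) (C.node (nat_lit 4) (nat_lit 6) (nat_lit 7) (C.cons (nat_lit 720)
  (C.node (nat_lit 3) (nat_lit 4) (nat_lit 6) C.nil) (C.cons (nat_lit 208) (C.node (nat_lit 4) (nat_lit 7) (nat_lit 9) C.nil) C.nil))) C.nil))) C.nil))) C.nil)))) C.nil)) C.nil))) (C.cons (nat_lit 176) (C.node (nat_lit 4) (nat_lit 7) (nat_lit 8) (C.cons (nat_lit 912) (C.node (nat_lit 3) (nat_lit 4) (nat_lit 7) (C.cons (nat_lit 216) (C.node (nat_lit 3) (nat_lit 7) (nat_lit 10) (C.cons (nat_lit 1672) (C.miq (nat_lit 1621313687) (nat_lit 1287509982481173556555678608)) (C.cons (nat_lit 1160) (C.node (nat_lit 1) (nat_lit 3) (nat_lit 7) (C.cons (nat_lit 174) (C.miq (nat_lit 1729643296) (nat_lit 2942531661555559593664776221)) (C.cons (nat_lit 170) (C.miq (nat_lit 363557640) (nat_lit 3752550643506739687769309577))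 (C.cons (nat_lit 142) (C.miq (nat_lit 1729643296) (nat_lit 2942531661555559456225822749)) (C.cons (nat_lit 138) (C.node (nat_lit 1) (nat_lit 3) (nat_lit 4) (C.cons (nat_lit 58) (C.node (nat_lit 1) (nat_lit 8) (nat_lit 9) (C.cons (nat_lit 866) (C.miq (nat_lit 414422336) (nat_lit 2795046142839940633746801201)) (C.cons (nat_lit 834) (C.miq (nat_lit 1368933131) (nat_lit 1008287520316989891739191325)) (C.cons (nat_lit 802) (C.miq (nat_lit 414422336) (nat_lit 2795046142821926235237319217)) (C.cons (nat_lit 770) (C.miq (nat_lit 1368933131) (nat_lit 930916267861653624557996061)) C.nil))))) (C.cons (nat_lit 26) (C.node (nat_lit 3) (nat_lit 4) (nat_lit 5) (C.cons (nat_lit 56) (C.node (nat_lit 2) (nat_lit 3) (nat_lit 7) (C.cons (nat_lit 172) (C.node (nat_lit 3) (nat_lit 7) (nat_lit 9) (C.cons (nat_lit 648) (C.node (nat_lit 3) (nat_lit 4) (nat_lit 9) C.nil) C.nil)) (C.cons (nat_lit 140) (C.node (nat_lit 3) (nat_lit 4) (nat_lit 9) (C.cons (nat_lit 1560) (C.node (nat_lit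 3) (nat_lit 5) (nat_lit 7) C.nil) (C.cons (nat_lit 536) (C.node (nat_lit 3) (nat_lit 4) (nat_lit 10) (C.cons (nat_lit 1048) (C.node (nat_lit 3) (nat_lit 5) (nat_lit 7) C.nil) C.nil)) C.nil))) C.nil))) C.nil)) C.nil))) C.nil))))) C.nil))) (C.cons (nat_lit 152) (C.node (nat_lit 4) (nat_lit 6) (nat_lit 7) (C.cons (nat_lit 208) (C.node (nat_lit 2) (nat_lit 4) (nat_lit 10) (C.cons (nat_lit 1556) (C.miq (nat_lit 1461980073) (nat_lit 178931370566196852155485953)) (C.cons (nat_lit 1076) (C.node (nat_lit 2) (nat_lit 8) (nat_lit 10) (C.cons (nat_lit 1292) (C.node (nat_lit 5) (nat_lit 7) (nat_lit 10) (C.cons (nat_lit 1696) (C.miq (nat_lit 659864208) (nat_lit 212809259041468939169238785)) (C.cons (nat_lit 1440) (C.miq (nat_lit 1379443719) (nat_lit 1561958722556443031088202899)) (C.cons (nat_lit 1184) (C.node (nat_lit 7) (nat_lit 8) (nat_lit 10) (C.cons (nat_lit 1472) (C.miq (nat_lit 660912768) (nat_lit 251494885269136110672482049)) (C.cons (nat_lit 1408) (C.node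 (nat_lit 6) (nat_lit 7) (nat_lit 8) (C.cons (nat_lit 452) (C.miq (nat_lit 1655011376) (nat_lit 1300846111481852772435427721)) C.nil)) C.nil))) C.nil)))) (C.cons (nat_lit 1284) (C.node (nat_lit 5) (nat_lit 7) (nat_lit 10) (C.cons (nat_lit 1696) (C.miq (nat_lit 659864208) (nat_lit 212809259041468939169238785)) (C.cons (nat_lit 1440) (C.node (nat_lit 2) (nat_lit 3) (nat_lit 8) (C.cons (nat_lit 876) (C.miq (nat_lit 2760247186) (nat_lit 407428163831013711211659909)) (C.cons (nat_lit 844) (C.miq (nat_lit 1379443719) (nat_lit 1020359955369089160819836051)) (C.cons (nat_lit 812) (C.miq (nat_lit 2761230211) (nat_lit 678227030915856582474203529)) (C.cons (nat_lit 780) (C.miq (nat_lit 1379443719) (nat_lit 942988702913752893638640787)) (C.cons (nat_lit 364) (C.miq (nat_lit 2015667504) (nat_lit 333685127756273496071406633)) (C.cons (nat_lit 332) (C.miq (nat_lit 1379443719) (nat_lit 401389935726399023370273939)) (C.cons (nat_lit 300) (C.miq (nat_lit 2015667504) (nat_lit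 333685127756273221193499689)) C.nil)))))))) (C.cons (nat_lit 1184) (C.node (nat_lit 7) (nat_lit 8) (nat_lit 10) (C.cons (nat_lit 1472) (C.miq (nat_lit 660912768) (nat_lit 251494885269136110672482049)) (C.cons (nat_lit 1408) (C.node (nat_lit 5) (nat_lit 7) (nat_lit 8) C.nil) C.nil))) C.nil)))) C.nil))) (C.cons (nat_lit 1044) (C.node (nat_lit 4) (nat_lit 5) (nat_lit 10)
  (C.cons (nat_lit 1136) (C.node (nat_lit 2) (nat_lit 4) (nat_lit 5) (C.cons (nat_lit 52) (C.node (nat_lit 1) (nat_lit 4) (nat_lit 5) C.nil) C.nil)) (C.cons (nat_lit 1072) (C.node (nat_lit 2) (nat_lit 4) (nat_lit 5) (C.cons (nat_lit 118) (C.miq (nat_lit 2217391456) (nat_lit 1262189410283689628882241761)) (C.cons (nat_lit 116) (C.miq (nat_lit 2217391456) (nat_lit 1262189410283689620292307169)) (C.cons (nat_lit 54) (C.node (nat_lit 1) (nat_lit 3) (nat_lit 4) C.nil) C.nil)))) C.nil))) C.nil)))) C.nil)) C.nil))) (C.cons (nat_lit 400) (C.node (nat_lit 4) (nat_lit 8) (nat_lit 9) (C.cons (nat_lit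 784) (C.node (nat_lit 2) (nat_lit 4) (nat_lit 10) (C.cons (nat_lit 1556) (C.miq (nat_lit 1461980073) (nat_lit 178931370566196852155485953)) (C.cons (nat_lit 1076) (C.node (nat_lit 2) (nat_lit 8) (nat_lit 10) (C.cons (nat_lit 1292) (C.node (nat_lit 5) (nat_lit 7) (nat_lit 10) (C.cons (nat_lit 1696) (C.miq (nat_lit 659864208) (nat_lit 212809259041468939169238785)) (C.cons (nat_lit 1440) (C.miq (nat_lit 1379443719) (nat_lit 1561958722556443031088202899)) (C.cons (nat_lit 1184) (C.node (nat_lit 7) (nat_lit 8) (nat_lit 10) (C.cons (nat_lit 1472) (C.miq (nat_lit 1680310458) (nat_lit 178948175005107606325038849)) (C.cons (nat_lit 1408) (C.node (nat_lit 2) (nat_lit 7) (nat_lit 8) C.nil) C.nil))) C.nil)))) (C.cons (nat_lit 1284) (C.node (nat_lit 5) (nat_lit 7) (nat_lit 10) (C.cons (nat_lit 1696) (C.miq (nat_lit 659864208) (nat_lit 212809259041468939169238785)) (C.cons (nat_lit 1440) (C.node (nat_lit 2) (nat_lit 7) (nat_lit 8) C.nil) (C.cons (nat_lit 1184) (C.node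 (nat_lit 7) (nat_lit 8) (nat_lit 10) (C.cons (nat_lit 1472) (C.miq (nat_lit 1680310458) (nat_lit 178948175005107606325038849)) (C.cons (nat_lit 1408) (C.node (nat_lit 2) (nat_lit 7) (nat_lit 8) C.nil) C.nil))) C.nil)))) C.nil))) (C.cons (nat_lit 1044) (C.node (nat_lit 4) (nat_lit 5) (nat_lit 10) (C.cons (nat_lit 1136) (C.node (nat_lit 2) (nat_lit 4) (nat_lit 5) (C.cons (nat_lit 54) (C.node (nat_lit 2) (nat_lit 7) (nat_lit 8) C.nil) (C.cons (nat_lit 52) (C.node (nat_lit 2) (nat_lit 7) (nat_lit 8) C.nil) C.nil))) (C.cons (nat_lit 1072) (C.node (nat_lit 2) (nat_lit 7) (nat_lit 8) C.nil) C.nil))) C.nil)))) C.nil)) C.nil))) C.nil))) C.nil)))) C.nil)))) C.nil))) C.nil)))) C.nil)))) List.nil)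

theorem ok12_294 : okL par12 (nat_lit 295) c12_294 (nat_lit 294) = true := by decide +kernel

noncomputable def c12_295 : List C :=
  (List.cons (C.node (nat_lit 4) (nat_lit 8) (nat_lit 11) (C.cons (nat_lit 2352) (C.node (nat_lit 2) (nat_lit 8) (nat_lit 11) (C.cons (nat_lit 2372) (C.miq (nat_lit 2709653430) (nat_lit 317967653179537689321670881)) (C.cons (nat_lit 2308) (C.node (nat_lit 5) (nat_lit 10) (nat_lit 11) (C.cons (nat_lit 3106) (C.miq (nat_lit 901253655) (nat_lit 2843400777603812977287496851)) (C.cons (nat_lit 3104) (C.node (nat_lit 3) (nat_lit 8) (nat_lit 11) (C.cons (nat_lit 2376) (C.node (nat_lit 3) (nat_lit 9) (nat_lit 11) (C.cons (nat_lit 2600) (C.miq (nat_lit 1670417236) (nat_lit 632274420879999610106480944)) (C.cons (nat_lit 2568) (C.node (nat_lit 3) (nat_lit 10) (nat_lit 11) (C.cons (nat_lit 3082) (C.miq (nat_lit 2443641778) (nat_lit 1415664033065882956360583197)) (C.cons (nat_lit 3080) (C.node (nat_lit 1) (nat_lit 10) (nat_lit 11) (C.cons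 (nat_lit 3138) (C.miq (nat_lit 1661646961) (nat_lit 1287563884441269604298459522)) (C.cons (nat_lit 3074) (C.node (nat_lit 6) (nat_lit 10) (nat_lit 11) (C.cons (nat_lit 3136) (C.node (nat_lit 1) (nat_lit 4) (nat_lit 8) (C.cons (nat_lit 786) (C.miq (nat_lit 1460931465) (nat_lit 1415662484031959190704623361)) (C.cons (nat_lit 282) (C.miq (nat_lit 1746383680) (nat_lit 2942567375060072708967696413)) (C.cons (nat_lit 274) (C.node (nat_lit 3) (nat_lit 4) (nat_lit 8) (C.cons (nat_lit 1304) (C.miq (nat_lit 2067400324) (nat_lit 3723513126190170998971040081)) (C.cons (nat_lit 792) (C.miq (nat_lit 1530463876) (nat_lit 3104531854033595898661437777)) (C.cons (nat_lit 280) (C.node (nat_lit 4) (nat_lit 8) (nat_lit 10) (C.cons (nat_lit 1300) (C.miq (nat_lit 1797785508) (nat_lit 2790207008863123358564484243)) (C.cons (nat_lit 1296) (C.node (nat_lit 1) (nat_lit 3) (nat_lit 7) (C.cons (nat_lit 206) (C.miq (nat_lit 2819754870) (nat_lit 317967653931075876997171425)) (C.cons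 (nat_lit 202) (C.miq (nat_lit 448163971) (nat_lit 3791195096883403676061270409)) (C.cons (nat_lit 174) (C.miq (nat_lit 2591099683) (nat_lit 1415661783497040460308678685)) (C.cons (nat_lit 170) (C.miq (nat_lit 1521561735) (nat_lit 3716241105741649960996307337)) (C.cons (nat_lit 142) (C.miq (nat_lit 2591099683) (nat_lit 1415661783497040460306581533)) (C.cons (nat_lit 138) (C.node (nat_lit 1) (nat_lit 3) (nat_lit 11) (C.cons (nat_lit 2090) (C.node (nat_lit 2) (nat_lit 5) (nat_lit 11) (C.cons (nat_lit 2084) (C.node (nat_lit 5) (nat_lit 9) (nat_lit 11) C.nil) C.nil)) (C.cons (nat_lit 2058) (C.node (nat_lit 3) (nat_lit 5) (nat_lit 11) C.nil) C.nil))) C.nil))))))) C.nil))) C.nil)))) C.nil)))) C.nil)) C.nil))) C.nil))) C.nil))) (C.cons (nat_lit 2312) (C.node (nat_lit 6) (nat_lit 8) (nat_lit 11) (C.cons (nat_lit 2368) (C.ref (nat_lit 294) (nat_lit 205163983024656)) C.nil)) C.nil))) C.nil))) C.nil))) (C.cons (nat_lit 2320) (C.node (nat_lit 4) (nat_lit 5) (nat_lit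 11) (C.cons (nat_lit 2098) (C.node (nat_lit 5) (nat_lit 10) (nat_lit 11) (C.cons (nat_lit 3104) (C.node (nat_lit 1) (nat_lit 4) (nat_lit 8) (C.cons (nat_lit 786) (C.miq (nat_lit 1900394640) (nat_lit 2536368299685885019539181313)) (C.cons (nat_lit 282) (C.miq (nat_lit 1367847984) (nat_lit 2942567374981822665391147037)) (C.cons (nat_lit 274) (C.node (nat_lit 1) (nat_lit 3) (nat_lit 4) (C.cons (nat_lit 90) (C.node (nat_lit 1) (nat_lit 2) (nat_lit 4) (C.cons (nat_lit 534) (C.miq (nat_lit 565679184) (nat_lit 2942537343242251602449465905)) (C.cons (nat_lit 22) (C.node (nat_lit 1) (nat_lit 4) (nat_lit 9) (C.cons (nat_lit 530) (C.node (nat_lit 1) (nat_lit 3) (nat_lit 11) (C.cons (nat_lit 3082) (C.miq (nat_lit 2443641778) (nat_lit 1415664033065882956360583197)) (C.cons (nat_lit 2058) (C.node (nat_lit 3) (nat_lit 8) (nat_lit 11) (C.cons (nat_lit 2376) (C.miq (nat_lit 2872117348) (nat_lit 2487990938985372745824076113)) (C.cons (nat_lit 2344) (C.miq (nat_lit 1483846404)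 (nat_lit 2942564146870853087282792477)) (C.cons (nat_lit 2312) (C.node (nat_lit 6) (nat_lit 8) (nat_lit 11) (C.cons (nat_lit 2372) (C.miq (nat_lit 2709653430) (nat_lit 317967653179537689321670881)) (C.cons (nat_lit 2368)
  (C.node (nat_lit 1) (nat_lit 3) (nat_lit 7) (C.cons (nat_lit 174) (C.miq (nat_lit 2591099683) (nat_lit 1415661783497040460308678685)) (C.cons (nat_lit 170) (C.miq (nat_lit 2870282355) (nat_lit 2536346016415086348713197961)) (C.cons (nat_lit 142) (C.miq (nat_lit 2591099683) (nat_lit 1415661783497040460306581533)) (C.cons (nat_lit 138) (C.node (nat_lit 1) (nat_lit 10) (nat_lit 11) (C.cons (nat_lit 3138) (C.node (nat_lit 3) (nat_lit 10) (nat_lit 11) (C.cons (nat_lit 3080) (C.node (nat_lit 2) (nat_lit 6) (nat_lit 11) (C.cons (nat_lit 2628) (C.miq (nat_lit 462923296) (nat_lit 3249614205144713299629507653)) (C.cons (nat_lit 2116) (C.node (nat_lit 3) (nat_lit 6) (nat_lit 11) (C.cons (nat_lit 2632) (C.miq (nat_lit 2518332224) (nat_lit 3793680076635535993941985309))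 C.nil)) C.nil))) C.nil)) (C.cons (nat_lit 3074) (C.node (nat_lit 1) (nat_lit 6) (nat_lit 10) (C.cons (nat_lit 1634) (C.miq (nat_lit 605686614) (nat_lit 1415672297644635865697356001)) (C.cons (nat_lit 1602) (C.miq (nat_lit 1689916169) (nat_lit 3733192482679322642997117451)) (C.cons (nat_lit 1378) (C.miq (nat_lit 605686614) (nat_lit 1415672297644635865680578785)) (C.cons (nat_lit 1346) (C.miq (nat_lit 998654113) (nat_lit 2862738001639048543249499283)) (C.cons (nat_lit 1122) (C.miq (nat_lit 605686614) (nat_lit 1415672297644635865663801569)) (C.cons (nat_lit 1090) (C.node (nat_lit 1) (nat_lit 2) (nat_lit 3) C.nil) C.nil))))))) C.nil))) C.nil))))) C.nil))) C.nil)))) C.nil))) C.nil)) C.nil))) (C.cons (nat_lit 26) (C.node (nat_lit 4) (nat_lit 6) (nat_lit 11) (C.cons (nat_lit 2640) (C.node (nat_lit 1) (nat_lit 4) (nat_lit 9) (C.cons (nat_lit 534) (C.miq (nat_lit 565679184) (nat_lit 2942537343242251602449465905)) (C.cons (nat_lit 530) (C.node (nat_lit 1) (nat_lit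 2) (nat_lit 4) (C.cons (nat_lit 86) (C.node (nat_lit 2) (nat_lit 6) (nat_lit 11) (C.cons (nat_lit 2372) (C.miq (nat_lit 1919200128) (nat_lit 103989222526024435975130881)) (C.cons (nat_lit 2116) (C.node (nat_lit 4) (nat_lit 6) (nat_lit 7) (C.cons (nat_lit 216) (C.miq (nat_lit 1636254211) (nat_lit 2942529429462935310097254429)) (C.cons (nat_lit 208) (C.node (nat_lit 1) (nat_lit 7) (nat_lit 9) (C.cons (nat_lit 706) (C.miq (nat_lit 2304838466) (nat_lit 853506481222776307219564573)) (C.cons (nat_lit 674) (C.miq (nat_lit 605621079) (nat_lit 640742583130313542768658657)) (C.cons (nat_lit 642) (C.node (nat_lit 2) (nat_lit 4) (nat_lit 9) (C.cons (nat_lit 1556) (C.miq (nat_lit 1253413488) (nat_lit 3752516093145223134332387973)) (C.cons (nat_lit 788) (C.miq (nat_lit 280373396) (nat_lit 2747889974478086869145879316)) (C.cons (nat_lit 532) (C.node (nat_lit 1) (nat_lit 2) (nat_lit 11) (C.cons (nat_lit 2566) (C.node (nat_lit 1) (nat_lit 6) (nat_lit 7) (C.cons (nat_lit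 202) (C.node (nat_lit 1) (nat_lit 3) (nat_lit 11) (C.cons (nat_lit 3082) (C.miq (nat_lit 2443641778) (nat_lit 1415664033065882956360583197)) (C.cons (nat_lit 2058) (C.node (nat_lit 1) (nat_lit 6) (nat_lit 11) (C.cons (nat_lit 3138) (C.miq (nat_lit 2687940721) (nat_lit 88309471795918303807539586)) (C.cons (nat_lit 2114) (C.node (nat_lit 1) (nat_lit 10) (nat_lit 11) C.nil) C.nil))) C.nil))) (C.cons (nat_lit 194) (C.node (nat_lit 1) (nat_lit 3) (nat_lit 7) (C.cons (nat_lit 174) (C.miq (nat_lit 1635271216) (nat_lit 2942531661518967846700910621)) (C.cons (nat_lit 170) (C.miq (nat_lit 2870282355) (nat_lit 2536346016415086348713197961)) (C.cons (nat_lit 142) (C.miq (nat_lit 1635271216) (nat_lit 2942531661518967709261957149)) (C.cons (nat_lit 138) (C.node (nat_lit 1) (nat_lit 2) (nat_lit 7) (C.cons (nat_lit 166) (C.node (nat_lit 2) (nat_lit 5) (nat_lit 11) (C.cons (nat_lit 2340) (C.miq (nat_lit 2820737879) (nat_lit 317969092777113222612650209)) (C.cons (nat_lit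 2084) (C.node (nat_lit 2) (nat_lit 8) (nat_lit 11) (C.cons (nat_lit 2308) (C.node (nat_lit 1) (nat_lit 3) (nat_lit 11) (C.cons (nat_lit 3146) (C.miq (nat_lit 2443641778) (nat_lit 1415664033065883231238490141)) C.nil)) C.nil)) C.nil))) (C.cons (nat_lit 134) (C.node (nat_lit 1) (nat_lit 5) (nat_lit 7) (C.cons (nat_lit 162)
  (C.node (nat_lit 1) (nat_lit 2) (nat_lit 3) C.nil) C.nil)) C.nil))) C.nil))))) C.nil))) (C.cons (nat_lit 2054) (C.node (nat_lit 1) (nat_lit 8) (nat_lit 9) (C.cons (nat_lit 866) (C.miq (nat_lit 2602656776) (nat_lit 2483149609111919016498626897)) (C.cons (nat_lit 834) (C.miq (nat_lit 2602656776) (nat_lit 2483149018816108657792975185)) (C.cons (nat_lit 802) (C.miq (nat_lit 1636385291) (nat_lit 969607206759495169155860509)) (C.cons (nat_lit 770) (C.miq (nat_lit 1636385291) (nat_lit 930921580531827035565262877)) C.nil))))) C.nil))) C.nil)))) C.nil)))) C.nil))) C.nil))) (C.cons (nat_lit 22) (C.node (nat_lit 1) (nat_lit 4) (nat_lit 6) (C.cons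 (nat_lit 82) (C.node (nat_lit 1) (nat_lit 9) (nat_lit 11) (C.cons (nat_lit 2566) (C.node (nat_lit 1) (nat_lit 8) (nat_lit 9) (C.cons (nat_lit 866) (C.miq (nat_lit 610339736) (nat_lit 99136769286725843336433409)) (C.cons (nat_lit 834) (C.miq (nat_lit 610339736) (nat_lit 99136769286725843334336257)) (C.cons (nat_lit 802) (C.miq (nat_lit 1763199776) (nat_lit 969564724626790397652699165)) (C.cons (nat_lit 770) (C.miq (nat_lit 1763199776) (nat_lit 930879098399122264062101533)) C.nil))))) (C.cons (nat_lit 2562) (C.node (nat_lit 2) (nat_lit 9) (nat_lit 11) (C.cons (nat_lit 2596) (C.miq (nat_lit 1537512048) (nat_lit 3733173280324123043243950725)) (C.cons (nat_lit 2564) (C.node (nat_lit 1) (nat_lit 2) (nat_lit 11) (C.cons (nat_lit 2118) (C.node (nat_lit 1) (nat_lit 3) (nat_lit 11) (C.cons (nat_lit 3082) (C.miq (nat_lit 2443641778) (nat_lit 1415664033065882956360583197)) (C.cons (nat_lit 2058) (C.node (nat_lit 1) (nat_lit 10) (nat_lit 11) C.nil) C.nil))) (C.cons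 (nat_lit 2054) (C.node (nat_lit 2) (nat_lit 6) (nat_lit 11) (C.cons (nat_lit 2372) (C.miq (nat_lit 2709653430) (nat_lit 317967653179537689321670881)) (C.cons (nat_lit 2116) (C.node (nat_lit 2) (nat_lit 5) (nat_lit 11) (C.cons (nat_lit 2340) (C.node (nat_lit 3) (nat_lit 5) (nat_lit 11) (C.cons (nat_lit 2088) (C.node (nat_lit 3) (nat_lit 9) (nat_lit 11) C.nil) C.nil)) (C.cons (nat_lit 2084) (C.node (nat_lit 2) (nat_lit 8) (nat_lit 11) C.nil) C.nil))) C.nil))) C.nil))) C.nil))) C.nil))) C.nil)) C.nil))) C.nil))) (C.cons (nat_lit 2128) (C.node (nat_lit 4) (nat_lit 9) (nat_lit 11) (C.cons (nat_lit 2576) (C.node (nat_lit 1) (nat_lit 7) (nat_lit 9) (C.cons (nat_lit 706) (C.node (nat_lit 1) (nat_lit 4) (nat_lit 9) (C.cons (nat_lit 534) (C.miq (nat_lit 1368896544) (nat_lit 853543558687744533847148573)) (C.cons (nat_lit 530) (C.node (nat_lit 6) (nat_lit 9) (nat_lit 11) (C.cons (nat_lit 2632) (C.miq (nat_lit 957658736) (nat_lit 640768999024039728359082209)) (C.cons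 (nat_lit 2628) (C.miq (nat_lit 689223280) (nat_lit 640768999022913828452239585)) (C.cons (nat_lit 2624) (C.node (nat_lit 1) (nat_lit 3) (nat_lit 7) (C.cons (nat_lit 174) (C.miq (nat_lit 2803479088) (nat_lit 853572483493761888469846045)) (C.cons (nat_lit 170) (C.miq (nat_lit 2870282355) (nat_lit 2536346016415086348713197961)) (C.cons (nat_lit 142) (C.miq (nat_lit 2803479088) (nat_lit 853572483493761751030892573)) (C.cons (nat_lit 138) (C.node (nat_lit 1) (nat_lit 3) (nat_lit 11) (C.cons (nat_lit 3146) (C.miq (nat_lit 588843879) (nat_lit 632280102393015639673538785)) (C.cons (nat_lit 3082) (C.miq (nat_lit 2443641778) (nat_lit 1415664033065882956360583197)) (C.cons (nat_lit 2122) (C.miq (nat_lit 588843879) (nat_lit 632280102393011241627027681)) (C.cons (nat_lit 2058) (C.node (nat_lit 1) (nat_lit 2) (nat_lit 4) (C.cons (nat_lit 86) (C.node (nat_lit 1) (nat_lit 2) (nat_lit 11) (C.cons (nat_lit 2566) (C.miq (nat_lit 2299923236) (nat_lit 853507846281837443898804253))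 (C.cons (nat_lit 2054) (C.node (nat_lit 1) (nat_lit 9) (nat_lit 11) C.nil) C.nil))) (C.cons (nat_lit 22) (C.node (nat_lit 1) (nat_lit 4) (nat_lit 6) (C.cons (nat_lit 82) (C.node (nat_lit 1) (nat_lit 2) (nat_lit 7) C.nil) C.nil)) C.nil))) C.nil))))) C.nil))))) C.nil)))) C.nil))) (C.cons (nat_lit 674) (C.miq (nat_lit 656083284) (nat_lit 2942563759011002760897364529)) (C.cons (nat_lit 642) (C.node (nat_lit 2) (nat_lit 5) (nat_lit 11)
  (C.cons (nat_lit 2596) (C.miq (nat_lit 1500623364) (nat_lit 776169078192370382672168989)) (C.cons (nat_lit 2340) (C.node (nat_lit 1) (nat_lit 5) (nat_lit 7) (C.cons (nat_lit 174) (C.miq (nat_lit 2820737879) (nat_lit 317969092777113222613174497)) (C.cons (nat_lit 170) (C.miq (nat_lit 2870282355) (nat_lit 2536346016415086348713197961)) (C.cons (nat_lit 166) (C.miq (nat_lit 2820737879) (nat_lit 317969092777113222612650209)) (C.cons (nat_lit 162) (C.node (nat_lit 1) (nat_lit 2) (nat_lit 7) (C.cons (nat_lit 206) (C.miq (nat_lit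 2819754870) (nat_lit 317967653931075876997171425)) (C.cons (nat_lit 198) (C.miq (nat_lit 2819754870) (nat_lit 317967653931075876996647137)) (C.cons (nat_lit 142) (C.miq (nat_lit 2803479088) (nat_lit 776201231038425483849697309)) (C.cons (nat_lit 134) (C.node (nat_lit 2) (nat_lit 4) (nat_lit 10) (C.cons (nat_lit 1556) (C.miq (nat_lit 2511487098) (nat_lit 2828915121189928185480086675)) (C.cons (nat_lit 1300) (C.miq (nat_lit 1797785508) (nat_lit 2828892635090791492155081875)) (C.cons (nat_lit 1076) (C.miq (nat_lit 2168829858) (nat_lit 2536369535617739611675298948)) (C.cons (nat_lit 1044) (C.node (nat_lit 5) (nat_lit 7) (nat_lit 10) (C.cons (nat_lit 1696) (C.miq (nat_lit 2485801143) (nat_lit 1262149841513538252584519905)) (C.cons (nat_lit 1440) (C.miq (nat_lit 2319603467) (nat_lit 1262161721464134334750197985)) (C.cons (nat_lit 1184) (C.node (nat_lit 7) (nat_lit 8) (nat_lit 10) (C.cons (nat_lit 1472) (C.miq (nat_lit 2217369783) (nat_lit 1262145709379815346861770977))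 (C.cons (nat_lit 1408) (C.node (nat_lit 1) (nat_lit 3) (nat_lit 7) (C.cons (nat_lit 202) (C.node (nat_lit 1) (nat_lit 3) (nat_lit 11) (C.cons (nat_lit 3082) (C.miq (nat_lit 2443641778) (nat_lit 1415664033065882956360583197)) (C.cons (nat_lit 2058) (C.node (nat_lit 1) (nat_lit 10) (nat_lit 11) (C.cons (nat_lit 3138) (C.miq (nat_lit 2687940721) (nat_lit 88309471795918303807539586)) (C.cons (nat_lit 3074) (C.node (nat_lit 1) (nat_lit 2) (nat_lit 3) C.nil) C.nil))) C.nil))) (C.cons (nat_lit 138) (C.node (nat_lit 1) (nat_lit 6) (nat_lit 7) (C.cons (nat_lit 194) (C.node (nat_lit 2) (nat_lit 8) (nat_lit 10) (C.cons (nat_lit 1292) (C.node (nat_lit 2) (nat_lit 3) (nat_lit 7) (C.cons (nat_lit 204) (C.miq (nat_lit 3123054647) (nat_lit 1321397851369220164421419401)) (C.cons (nat_lit 172) (C.miq (nat_lit 2723906416) (nat_lit 2828957272205885795993715081)) (C.cons (nat_lit 140) (C.node (nat_lit 2) (nat_lit 5) (nat_lit 7) (C.cons (nat_lit 180) (C.miq (nat_lit 2586053493)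 (nat_lit 1262128905382257356084349153)) (C.cons (nat_lit 164) (C.node (nat_lit 2) (nat_lit 6) (nat_lit 7) (C.cons (nat_lit 452) (C.miq (nat_lit 1445595011) (nat_lit 1321375567261022752099533193)) (C.cons (nat_lit 212) (C.miq (nat_lit 2317618038) (nat_lit 1262124773311584845146884321)) C.nil))) C.nil))) C.nil)))) (C.cons (nat_lit 1284) (C.node (nat_lit 3) (nat_lit 5) (nat_lit 11) (C.cons (nat_lit 2600) (C.node (nat_lit 5) (nat_lit 7) (nat_lit 9) (C.cons (nat_lit 928) (C.miq (nat_lit 425198514) (nat_lit 1121888012243289839627405341)) (C.cons (nat_lit 672) (C.node (nat_lit 2) (nat_lit 5) (nat_lit 7) (C.cons (nat_lit 180) (C.miq (nat_lit 2586053493) (nat_lit 1262128905382257356084349153)) (C.cons (nat_lit 172) (C.miq (nat_lit 324143544) (nat_lit 207940092614630183549538049)) (C.cons (nat_lit 164) (C.node (nat_lit 3) (nat_lit 5) (nat_lit 7) (C.cons (nat_lit 184) (C.miq (nat_lit 2507846464) (nat_lit 1431439025099543791038302237)) C.nil)) C.nil)))) C.nil)))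 (C.cons (nat_lit 2088) (C.node (nat_lit 5) (nat_lit 9) (nat_lit 11) (C.cons (nat_lit 2592) (C.node (nat_lit 3) (nat_lit 8) (nat_lit 11) (C.cons (nat_lit 2376) (C.node (nat_lit 3) (nat_lit 9) (nat_lit 11) (C.cons (nat_lit 2568) (C.node (nat_lit 1) (nat_lit 3) (nat_lit 11) C.nil) C.nil)) (C.cons (nat_lit 2312) (C.node (nat_lit 6) (nat_lit 8) (nat_lit 11) C.nil) C.nil))) C.nil)) C.nil))) C.nil))) C.nil)) C.nil))) C.nil))) C.nil)))) C.nil))))) C.nil))))) C.nil))))) (C.cons (nat_lit 2084) (C.node (nat_lit 2) (nat_lit 8) (nat_lit 11)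
  (C.cons (nat_lit 2372) (C.miq (nat_lit 2709653430) (nat_lit 317967653179537689321670881)) (C.cons (nat_lit 2308) (C.node (nat_lit 5) (nat_lit 8) (nat_lit 11) (C.cons (nat_lit 2344) (C.miq (nat_lit 1483846404) (nat_lit 2942564146870853087282792477)) (C.cons (nat_lit 2336) (C.node (nat_lit 3) (nat_lit 5) (nat_lit 11) (C.cons (nat_lit 2600) (C.node (nat_lit 3) (nat_lit 8) (nat_lit 11) (C.cons (nat_lit 2376) (C.node (nat_lit 1) (nat_lit 3) (nat_lit 11) C.nil) C.nil)) C.nil)) C.nil))) C.nil))) C.nil)))) C.nil)))) C.nil)) C.nil))) C.nil))) C.nil)))) C.nil)) (C.cons (nat_lit 2096) (C.node (nat_lit 5) (nat_lit 10) (nat_lit 11) (C.cons (nat_lit 3106) (C.node (nat_lit 3) (nat_lit 5) (nat_lit 11) (C.cons (nat_lit 2600) (C.miq (nat_lit 2203807905) (nat_lit 3143252030483735503475704979)) (C.cons (nat_lit 2344) (C.node (nat_lit 2) (nat_lit 5) (nat_lit 11) (C.cons (nat_lit 2596) (C.miq (nat_lit 1537512048) (nat_lit 3733173280324123043243950725)) (C.cons (nat_lit 2084)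 (C.node (nat_lit 5) (nat_lit 9) (nat_lit 11) (C.cons (nat_lit 2592) (C.node (nat_lit 2) (nat_lit 8) (nat_lit 11) (C.cons (nat_lit 2372) (C.miq (nat_lit 2709653430) (nat_lit 317967653179537689321670881)) (C.cons (nat_lit 2308) (C.node (nat_lit 6) (nat_lit 8) (nat_lit 11) (C.cons (nat_lit 2368) (C.node (nat_lit 1) (nat_lit 2) (nat_lit 10) (C.cons (nat_lit 1542) (C.miq (nat_lit 352955250) (nat_lit 678235830557439667304991876)) (C.cons (nat_lit 1038) (C.miq (nat_lit 2174974800) (nat_lit 1254872251015529484750751969)) (C.cons (nat_lit 1030) (C.node (nat_lit 5) (nat_lit 7) (nat_lit 10) (C.cons (nat_lit 1696) (C.miq (nat_lit 1521784608) (nat_lit 3733173280070795564263735941)) (C.cons (nat_lit 1440) (C.miq (nat_lit 2780067888) (nat_lit 2533930119454907098071892361)) (C.cons (nat_lit 1184) (C.node (nat_lit 7) (nat_lit 8) (nat_lit 10) (C.cons (nat_lit 1472) (C.miq (nat_lit 2276747808) (nat_lit 2649971613562364918004253765)) (C.cons (nat_lit 1408) (C.node (nat_lit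 5) (nat_lit 7) (nat_lit 9) (C.cons (nat_lit 928) (C.miq (nat_lit 2511501360) (nat_lit 2519413306488033588675412361)) (C.cons (nat_lit 680) (C.miq (nat_lit 389396490) (nat_lit 822126853610152561973202689)) (C.cons (nat_lit 674) (C.miq (nat_lit 890702520) (nat_lit 814823252290465222130536193)) (C.cons (nat_lit 672) (C.node (nat_lit 1) (nat_lit 5) (nat_lit 7) (C.cons (nat_lit 174) (C.miq (nat_lit 2584873815) (nat_lit 1245205493434154318333610209)) (C.cons (nat_lit 170) (C.node (nat_lit 1) (nat_lit 2) (nat_lit 7) (C.cons (nat_lit 198) (C.miq (nat_lit 975261799) (nat_lit 1245196730449336125180217569)) (C.cons (nat_lit 134) (C.node (nat_lit 1) (nat_lit 2) (nat_lit 3) (C.cons (nat_lit 78) (C.node (nat_lit 1) (nat_lit 3) (nat_lit 11) (C.cons (nat_lit 2058) (C.node (nat_lit 3) (nat_lit 9) (nat_lit 11) (C.cons (nat_lit 2632) (C.miq (nat_lit 683020435) (nat_lit 2862737779767524051066028555)) C.nil)) C.nil)) (C.cons (nat_lit 14) (C.node (nat_lit 1) (nat_lit 3) (nat_lit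 11) (C.cons (nat_lit 2122) (C.node (nat_lit 3) (nat_lit 9) (nat_lit 11) (C.cons (nat_lit 2568) (C.node (nat_lit 3) (nat_lit 10) (nat_lit 11) C.nil) C.nil)) (C.cons (nat_lit 2058) (C.node (nat_lit 3) (nat_lit 9) (nat_lit 11) (C.cons (nat_lit 2632) (C.node (nat_lit 3) (nat_lit 10) (nat_lit 11) C.nil) C.nil)) C.nil))) C.nil))) C.nil))) (C.cons (nat_lit 166) (C.miq (nat_lit 890702520) (nat_lit 200688935926233601379798785)) (C.cons (nat_lit 162) (C.miq (nat_lit 890702520) (nat_lit 195853232647775084680974081)) C.nil))))) C.nil))))) C.nil))) C.nil)))) C.nil)))) C.nil)) C.nil))) C.nil)) C.nil))) (C.cons (nat_lit 2088) (C.miq (nat_lit 2203807905) (nat_lit 2524282010841045366026142867)) C.nil)))) (C.cons (nat_lit 3104) (C.node (nat_lit 2) (nat_lit 8) (nat_lit 11) (C.cons (nat_lit 2372) (C.miq (nat_lit 2709653430) (nat_lit 317967653179537689321670881)) (C.cons (nat_lit 2340) (C.node (nat_lit 1) (nat_lit 2) (nat_lit 7) (C.cons (nat_lit 206) (C.miq (nat_lit 2819754870)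 (nat_lit 317967653931075876997171425)) (C.cons (nat_lit 198)
  (C.miq (nat_lit 2819754870) (nat_lit 317967653931075876996647137)) (C.cons (nat_lit 174) (C.miq (nat_lit 2820737879) (nat_lit 317969092777113222613174497)) (C.cons (nat_lit 166) (C.miq (nat_lit 2820737879) (nat_lit 317969092777113222612650209)) (C.cons (nat_lit 142) (C.miq (nat_lit 2591099683) (nat_lit 1415661783497040460306581533)) (C.cons (nat_lit 134) (C.node (nat_lit 3) (nat_lit 8) (nat_lit 11) (C.cons (nat_lit 2376) (C.node (nat_lit 3) (nat_lit 10) (nat_lit 11) (C.cons (nat_lit 3082) (C.miq (nat_lit 2443641778) (nat_lit 1415664033065882956360583197)) (C.cons (nat_lit 3080) (C.node (nat_lit 1) (nat_lit 10) (nat_lit 11) (C.cons (nat_lit 3138) (C.miq (nat_lit 1661646961) (nat_lit 1287563884441269604298459522)) (C.cons (nat_lit 3074) (C.node (nat_lit 6) (nat_lit 10) (nat_lit 11) (C.cons (nat_lit 3136) (C.node (nat_lit 1) (nat_lit 3) (nat_lit 7) (C.cons (nat_lit 202) (C.miq (nat_lit 448163971)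 (nat_lit 3791195096883403676061270409)) (C.cons (nat_lit 170) (C.miq (nat_lit 1521561735) (nat_lit 3716241105741649960996307337)) (C.cons (nat_lit 138) (C.node (nat_lit 1) (nat_lit 3) (nat_lit 11) (C.cons (nat_lit 2090) (C.node (nat_lit 3) (nat_lit 9) (nat_lit 11) (C.cons (nat_lit 2568) (C.node (nat_lit 5) (nat_lit 9) (nat_lit 11) C.nil) C.nil)) (C.cons (nat_lit 2058) (C.node (nat_lit 1) (nat_lit 5) (nat_lit 11) (C.cons (nat_lit 2594) (C.node (nat_lit 3) (nat_lit 5) (nat_lit 11) C.nil) C.nil)) C.nil))) C.nil)))) C.nil)) C.nil))) C.nil))) (C.cons (nat_lit 2312) (C.node (nat_lit 6) (nat_lit 8) (nat_lit 11) (C.cons (nat_lit 2368) (C.node (nat_lit 1) (nat_lit 3) (nat_lit 7) (C.cons (nat_lit 202) (C.node (nat_lit 1) (nat_lit 10) (nat_lit 11) (C.cons (nat_lit 3138) (C.miq (nat_lit 951480481) (nat_lit 2862740067200380938055976083)) (C.cons (nat_lit 3082) (C.miq (nat_lit 2443641778) (nat_lit 1415664033065882956360583197)) (C.cons (nat_lit 3074) (C.node (nat_lit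 1) (nat_lit 3) (nat_lit 11) (C.cons (nat_lit 2090) (C.node (nat_lit 5) (nat_lit 9) (nat_lit 11) (C.cons (nat_lit 2592) (C.node (nat_lit 3) (nat_lit 9) (nat_lit 11) (C.cons (nat_lit 2632) (C.miq (nat_lit 2838563687) (nat_lit 632289805876918062169065697)) C.nil)) C.nil)) (C.cons (nat_lit 2058) (C.node (nat_lit 1) (nat_lit 5) (nat_lit 11) (C.cons (nat_lit 2594) (C.node (nat_lit 3) (nat_lit 5) (nat_lit 11) C.nil) C.nil)) C.nil))) C.nil)))) (C.cons (nat_lit 170) (C.miq (nat_lit 363557640) (nat_lit 3752550643506739687769309577)) (C.cons (nat_lit 138) (C.node (nat_lit 1) (nat_lit 5) (nat_lit 7) (C.cons (nat_lit 674) (C.node (nat_lit 1) (nat_lit 6) (nat_lit 7) (C.cons (nat_lit 194) (C.node (nat_lit 1) (nat_lit 5) (nat_lit 11) (C.cons (nat_lit 2090) (C.miq (nat_lit 588843863) (nat_lit 632280102393011104185977057)) (C.cons (nat_lit 2082) (C.node (nat_lit 3) (nat_lit 5) (nat_lit 11) (C.cons (nat_lit 2600) (C.miq (nat_lit 1133579095) (nat_lit 632289805380396065843448033))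 (C.cons (nat_lit 2088) (C.node (nat_lit 5) (nat_lit 9) (nat_lit 11) C.nil) C.nil))) C.nil))) C.nil)) (C.cons (nat_lit 162) (C.node (nat_lit 1) (nat_lit 6) (nat_lit 7) (C.cons (nat_lit 706) (C.node (nat_lit 1) (nat_lit 8) (nat_lit 9) (C.cons (nat_lit 802) (C.node (nat_lit 1) (nat_lit 5) (nat_lit 11) (C.cons (nat_lit 2090) (C.miq (nat_lit 622049424) (nat_lit 2526693277540670959975599873)) (C.cons (nat_lit 2082) (C.node (nat_lit 3) (nat_lit 5) (nat_lit 11) (C.cons (nat_lit 2600) (C.node (nat_lit 5) (nat_lit 7) (nat_lit 9) (C.cons (nat_lit 1696) (C.miq (nat_lit 1521784608) (nat_lit 3733173280070795564263735941)) (C.cons (nat_lit 672) (C.node (nat_lit 1) (nat_lit 9) (nat_lit 11) (C.cons (nat_lit 2578) (C.miq (nat_lit 2710897843) (nat_lit 969578153442989369111087133)) (C.cons (nat_lit 2566) (C.miq (nat_lit 897620769) (nat_lit 349389210247623371273996806)) (C.cons (nat_lit 2562) (C.node (nat_lit 1) (nat_lit 3) (nat_lit 11) (C.cons (nat_lit 3082) (C.miq (nat_lit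 2443641778) (nat_lit 1415664033065882956360583197)) (C.cons (nat_lit 2122) (C.miq (nat_lit 588843879) (nat_lit 632280102393011241627027681)) C.nil))) C.nil)))) C.nil)))
  (C.cons (nat_lit 2088) (C.miq (nat_lit 2478116904) (nat_lit 2524251905791313165466992903)) C.nil))) C.nil))) (C.cons (nat_lit 786) (C.miq (nat_lit 1460931465) (nat_lit 1415662484031959190704623361)) (C.cons (nat_lit 770) (C.node (nat_lit 3) (nat_lit 9) (nat_lit 11) (C.cons (nat_lit 2632) (C.miq (nat_lit 1133579111) (nat_lit 632289805380396203284498657)) (C.cons (nat_lit 2600) (C.miq (nat_lit 1478078979) (nat_lit 930920843296508684471568413)) (C.cons (nat_lit 2568) (C.node (nat_lit 3) (nat_lit 5) (nat_lit 11) (C.cons (nat_lit 2090) (C.node (nat_lit 5) (nat_lit 9) (nat_lit 11) (C.cons (nat_lit 2592) (C.node (nat_lit 1) (nat_lit 10) (nat_lit 11) (C.cons (nat_lit 3138) (C.node (nat_lit 3) (nat_lit 6) (nat_lit 11) C.nil) C.nil)) C.nil)) (C.cons (nat_lit 2088) (C.node (nat_lit 1) (nat_lit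 3) (nat_lit 11) (C.cons (nat_lit 3146) (C.miq (nat_lit 588843879) (nat_lit 632280102393015639673538785)) (C.cons (nat_lit 3082) (C.miq (nat_lit 2443641778) (nat_lit 1415664033065882956360583197)) (C.cons (nat_lit 2122) (C.miq (nat_lit 588843879) (nat_lit 632280102393011241627027681)) C.nil)))) C.nil))) C.nil)))) C.nil)))) (C.cons (nat_lit 194) (C.node (nat_lit 1) (nat_lit 7) (nat_lit 9) (C.cons (nat_lit 642) (C.node (nat_lit 2) (nat_lit 5) (nat_lit 7) (C.cons (nat_lit 180) (C.miq (nat_lit 2602895988) (nat_lit 2828896767602816766503552147)) (C.cons (nat_lit 172) (C.node (nat_lit 2) (nat_lit 8) (nat_lit 10) (C.cons (nat_lit 1300) (C.miq (nat_lit 1196597432) (nat_lit 207959222070629000808763137)) (C.cons (nat_lit 1292) (C.miq (nat_lit 2723906416) (nat_lit 2828957272205885795993715081)) (C.cons (nat_lit 1284) (C.node (nat_lit 5) (nat_lit 7) (nat_lit 9) (C.cons (nat_lit 1696) (C.miq (nat_lit 1114966953) (nat_lit 207945590181778856922320641)) (C.cons (nat_lit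 928) (C.miq (nat_lit 998580375) (nat_lit 2828889591322852970513564293)) (C.cons (nat_lit 672) (C.node (nat_lit 5) (nat_lit 7) (nat_lit 10) (C.cons (nat_lit 1440) (C.miq (nat_lit 1113000842) (nat_lit 207956842695660108880285441)) (C.cons (nat_lit 1184) (C.node (nat_lit 7) (nat_lit 8) (nat_lit 10) (C.cons (nat_lit 1472) (C.miq (nat_lit 1118309238) (nat_lit 1552266969522573988241344737)) (C.cons (nat_lit 1408) (C.node (nat_lit 4) (nat_lit 5) (nat_lit 7) (C.cons (nat_lit 176) (C.node (nat_lit 5) (nat_lit 7) (nat_lit 8) C.nil) C.nil)) C.nil))) C.nil))) C.nil)))) C.nil)))) (C.cons (nat_lit 164) (C.node (nat_lit 5) (nat_lit 7) (nat_lit 10) (C.cons (nat_lit 1696) (C.miq (nat_lit 1114966953) (nat_lit 198274183624861823524671233)) (C.cons (nat_lit 1440) (C.miq (nat_lit 1113000842) (nat_lit 198285436138743075482636033)) (C.cons (nat_lit 1184) (C.node (nat_lit 7) (nat_lit 8) (nat_lit 10) (C.cons (nat_lit 1472) (C.miq (nat_lit 2276747808) (nat_lit 2649971613562364918004253765))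 (C.cons (nat_lit 1408) (C.node (nat_lit 2) (nat_lit 3) (nat_lit 7) (C.cons (nat_lit 204) (C.node (nat_lit 3) (nat_lit 10) (nat_lit 11) (C.cons (nat_lit 3146) (C.miq (nat_lit 2443641778) (nat_lit 1415664033065883231238490141)) (C.cons (nat_lit 3144) (C.miq (nat_lit 2604075618) (nat_lit 2640305889269436549155259461)) (C.cons (nat_lit 3082) (C.miq (nat_lit 2443641778) (nat_lit 1415664033065882956360583197)) C.nil)))) (C.cons (nat_lit 140) (C.node (nat_lit 2) (nat_lit 4) (nat_lit 7) (C.cons (nat_lit 404) (C.node (nat_lit 2) (nat_lit 6) (nat_lit 7) C.nil) (C.cons (nat_lit 212) (C.miq (nat_lit 1755791538) (nat_lit 1702171464822015068742092829)) C.nil))) C.nil))) C.nil))) C.nil)))) C.nil)))) C.nil)) C.nil))) C.nil))) C.nil)))) C.nil)) C.nil))) C.nil))))))) (C.cons (nat_lit 2308) (C.node (nat_lit 5) (nat_lit 8) (nat_lit 11) (C.cons (nat_lit 2344) (C.miq (nat_lit 458913840) (nat_lit 3752527345906239432959787401)) (C.cons (nat_lit 2336) (C.node (nat_lit 3) (nat_lit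 8) (nat_lit 11) (C.cons (nat_lit 2376) (C.node (nat_lit 3) (nat_lit 10) (nat_lit 11) (C.cons (nat_lit 3082) (C.miq (nat_lit 2443641778) (nat_lit 1415664033065882956360583197)) (C.cons (nat_lit 3080) (C.node (nat_lit 1) (nat_lit 10) (nat_lit 11) (C.cons (nat_lit 3138)
  (C.miq (nat_lit 1661646961) (nat_lit 1287563884441269604298459522)) (C.cons (nat_lit 3074) (C.node (nat_lit 6) (nat_lit 10) (nat_lit 11) C.nil) C.nil))) C.nil))) (C.cons (nat_lit 2312) (C.node (nat_lit 6) (nat_lit 8) (nat_lit 11) (C.cons (nat_lit 2368) (C.node (nat_lit 5) (nat_lit 7) (nat_lit 10) (C.cons (nat_lit 1696) (C.miq (nat_lit 1521784608) (nat_lit 3733173280070795564263735941)) (C.cons (nat_lit 1440) (C.node (nat_lit 2) (nat_lit 8) (nat_lit 10) (C.cons (nat_lit 1300) (C.miq (nat_lit 1739066148) (nat_lit 1740859397437625234919524381)) (C.cons (nat_lit 1292) (C.miq (nat_lit 1512798256) (nat_lit 3873440255899880933266620809)) (C.cons (nat_lit 1284) (C.node (nat_lit 4) (nat_lit 8) (nat_lit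 10) (C.cons (nat_lit 1304) (C.miq (nat_lit 1480292928) (nat_lit 2795078424803631760968320147)) (C.cons (nat_lit 1296) (C.node (nat_lit 4) (nat_lit 5) (nat_lit 7) (C.cons (nat_lit 184) (C.miq (nat_lit 998588583) (nat_lit 2824054109405323338362913939)) (C.cons (nat_lit 180) (C.miq (nat_lit 2591361828) (nat_lit 1740863529949650509267994653)) (C.cons (nat_lit 176) (C.node (nat_lit 2) (nat_lit 4) (nat_lit 7) (C.cons (nat_lit 404) (C.node (nat_lit 6) (nat_lit 7) (nat_lit 8) (C.cons (nat_lit 960) (C.node (nat_lit 4) (nat_lit 6) (nat_lit 7) (C.cons (nat_lit 216) (C.miq (nat_lit 2537260608) (nat_lit 2640364844252554141437329745)) (C.cons (nat_lit 208) (C.node (nat_lit 3) (nat_lit 4) (nat_lit 7) (C.cons (nat_lit 664) (C.miq (nat_lit 2541827104) (nat_lit 2942535092776059081050228765)) (C.cons (nat_lit 152) (C.node (nat_lit 4) (nat_lit 7) (nat_lit 9) (C.cons (nat_lit 656) (C.node (nat_lit 4) (nat_lit 8) (nat_lit 9) (C.cons (nat_lit 792) (C.miq (nat_lit 997802088)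 (nat_lit 3249607213530062888726692177)) (C.cons (nat_lit 786) (C.miq (nat_lit 1460931465) (nat_lit 1415662484031959190704623361)) (C.cons (nat_lit 784) (C.node (nat_lit 2) (nat_lit 6) (nat_lit 7) (C.cons (nat_lit 206) (C.miq (nat_lit 2819754870) (nat_lit 317967653931075876997171425)) (C.cons (nat_lit 204) (C.miq (nat_lit 998645911) (nat_lit 2862740104567872946113086085)) (C.cons (nat_lit 198) (C.miq (nat_lit 2819754870) (nat_lit 317967653931075876996647137)) C.nil)))) C.nil)))) C.nil)) C.nil))) C.nil))) (C.cons (nat_lit 448) (C.node (nat_lit 7) (nat_lit 8) (nat_lit 9) C.nil) C.nil))) (C.cons (nat_lit 212) (C.miq (nat_lit 1218601143) (nat_lit 1552264663189801051078527201)) (C.cons (nat_lit 148) (C.node (nat_lit 2) (nat_lit 7) (nat_lit 8) (C.cons (nat_lit 452) (C.node (nat_lit 2) (nat_lit 3) (nat_lit 7) (C.cons (nat_lit 174) (C.miq (nat_lit 2591099683) (nat_lit 1415661783497040460308678685)) (C.cons (nat_lit 172) (C.miq (nat_lit 732246151) (nat_lit 3752508917508429660022636937))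 (C.cons (nat_lit 142) (C.miq (nat_lit 2591099683) (nat_lit 1415661783497040460306581533)) (C.cons (nat_lit 140) (C.node (nat_lit 1) (nat_lit 2) (nat_lit 7) (C.cons (nat_lit 166) (C.node (nat_lit 2) (nat_lit 5) (nat_lit 11) (C.cons (nat_lit 2596) (C.miq (nat_lit 1193609913) (nat_lit 200692035009074753033211649)) (C.cons (nat_lit 2084) (C.node (nat_lit 1) (nat_lit 5) (nat_lit 11) C.nil) C.nil))) (C.cons (nat_lit 134) (C.node (nat_lit 2) (nat_lit 5) (nat_lit 7) (C.cons (nat_lit 164) (C.node (nat_lit 4) (nat_lit 7) (nat_lit 8) (C.cons (nat_lit 912) (C.node (nat_lit 2) (nat_lit 4) (nat_lit 8) C.nil) (C.cons (nat_lit 400) (C.node (nat_lit 7) (nat_lit 8) (nat_lit 9) C.nil) C.nil))) C.nil)) C.nil))) C.nil))))) (C.cons (nat_lit 388) (C.node (nat_lit 4) (nat_lit 7) (nat_lit 8) (C.cons (nat_lit 912) (C.node (nat_lit 6) (nat_lit 7) (nat_lit 8) C.nil) (C.cons (nat_lit 400) (C.node (nat_lit 6) (nat_lit 7) (nat_lit 8) C.nil) C.nil))) C.nil))) C.nil)))) C.nil)))) C.nil)))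 C.nil)))) (C.cons (nat_lit 1184) (C.node (nat_lit 7) (nat_lit 8) (nat_lit 10) (C.cons (nat_lit 1472) (C.miq (nat_lit 2276747808) (nat_lit 2649971613562364918004253765)) (C.cons (nat_lit 1408) (C.node (nat_lit 1) (nat_lit 10) (nat_lit 11) (C.cons (nat_lit 3146) (C.miq (nat_lit 2443641778) (nat_lit 1415664033065883231238490141)) (C.cons (nat_lit 3138)
  (C.node (nat_lit 3) (nat_lit 10) (nat_lit 11) C.nil) (C.cons (nat_lit 3082) (C.miq (nat_lit 2443641778) (nat_lit 1415664033065882956360583197)) (C.cons (nat_lit 3074) (C.node (nat_lit 3) (nat_lit 10) (nat_lit 11) C.nil) C.nil))))) C.nil))) C.nil)))) C.nil)) C.nil))) C.nil))) C.nil)))) C.nil))) C.nil))) C.nil))) List.nil)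

theorem ok12_295 : okL par12 (nat_lit 296) c12_295 (nat_lit 295) = true := by decide +kernel

noncomputable def c12_296 : List C :=
  (List.cons (C.node (nat_lit 1) (nat_lit 4) (nat_lit 8) (C.cons (nat_lit 786) (C.miq (nat_lit 1460931465) (nat_lit 1415662484031959190704623361)) (C.cons (nat_lit 282) (C.node (nat_lit 4) (nat_lit 8) (nat_lit 10) (C.cons (nat_lit 1300) (C.node (nat_lit 3) (nat_lit 8) (nat_lit 10) (C.cons (nat_lit 1352) (C.miq (nat_lit 1487320096) (nat_lit 1634509638230292914766153757)) (C.cons (nat_lit 1288) (C.node (nat_lit 4) (nat_lit 5) (nat_lit 10) (C.cons (nat_lit 1136) (C.miq (nat_lit 643080376) (nat_lit 1373363712157176477042872065)) (C.cons (nat_lit 1072) (C.node (nat_lit 2) (nat_lit 4) (nat_lit 7) (C.cons (nat_lit 212) (C.miq (nat_lit 1411823776) (nat_lit 256334203869615655601114881)) (C.cons (nat_lit 180) (C.miq (nat_lit 1698827146) (nat_lit 217626810461708539898629889)) (C.cons (nat_lit 148) (C.node (nat_lit 7) (nat_lit 8) (nat_lit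 10) (C.cons (nat_lit 1472) (C.miq (nat_lit 1487320096) (nat_lit 1779580736584048415730894877)) (C.cons (nat_lit 1440) (C.miq (nat_lit 1703545666) (nat_lit 1740873343176141300028409885)) (C.cons (nat_lit 1408) (C.node (nat_lit 5) (nat_lit 8) (nat_lit 10) (C.cons (nat_lit 1378) (C.miq (nat_lit 811682648) (nat_lit 81003232480642229977876784)) (C.cons (nat_lit 1376) (C.node (nat_lit 1) (nat_lit 8) (nat_lit 10) (C.cons (nat_lit 1282) (C.node (nat_lit 1) (nat_lit 5) (nat_lit 8) (C.cons (nat_lit 802) (C.miq (nat_lit 1362397451) (nat_lit 340960468099131969858506497)) (C.cons (nat_lit 290) (C.node (nat_lit 2) (nat_lit 10) (nat_lit 11) (C.cons (nat_lit 3110) (C.miq (nat_lit 941230005) (nat_lit 1549862546639023222647294177)) (C.cons (nat_lit 3108) (C.node (nat_lit 2) (nat_lit 4) (nat_lit 9) (C.cons (nat_lit 598) (C.miq (nat_lit 1447208971) (nat_lit 722994972997440351254679297)) (C.cons (nat_lit 596) (C.miq (nat_lit 1447208971) (nat_lit 720577121358211092905266945))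 (C.cons (nat_lit 534) (C.miq (nat_lit 2541822004) (nat_lit 2942535295684895820054399005)) (C.cons (nat_lit 532) (C.node (nat_lit 3) (nat_lit 4) (nat_lit 10) (C.cons (nat_lit 1624) (C.miq (nat_lit 323094952) (nat_lit 2510943778980494569408564993)) (C.cons (nat_lit 1560) (C.miq (nat_lit 323094952) (nat_lit 2510943778980494294530658049)) (C.cons (nat_lit 1112) (C.miq (nat_lit 1662035074) (nat_lit 632288366262725008211510548)) (C.cons (nat_lit 1048) (C.node (nat_lit 1) (nat_lit 5) (nat_lit 10) (C.cons (nat_lit 1570) (C.node (nat_lit 5) (nat_lit 7) (nat_lit 10) (C.cons (nat_lit 1184) (C.node (nat_lit 1) (nat_lit 2) (nat_lit 10) (C.cons (nat_lit 1038) (C.miq (nat_lit 1362274571) (nat_lit 1254922333682484132471181057)) (C.cons (nat_lit 1030) (C.node (nat_lit 2) (nat_lit 9) (nat_lit 10) (C.cons (nat_lit 1548) (C.miq (nat_lit 1359718706) (nat_lit 2479564188952103486448535052)) C.nil)) C.nil))) C.nil)) (C.cons (nat_lit 1058) (C.node (nat_lit 1) (nat_lit 6) (nat_lit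 8) (C.cons (nat_lit 834) (C.node (nat_lit 1) (nat_lit 2) (nat_lit 11) C.nil) (C.cons (nat_lit 322) (C.node (nat_lit 1) (nat_lit 8) (nat_lit 9) (C.cons (nat_lit 770) (C.node (nat_lit 1) (nat_lit 5) (nat_lit 11) C.nil) C.nil)) C.nil))) C.nil))) C.nil))))) C.nil))))) (C.cons (nat_lit 3078) (C.miq (nat_lit 1529512966) (nat_lit 3721099056155712090030801233)) (C.cons (nat_lit 3076) (C.miq (nat_lit 1529512966) (nat_lit 3718681204516482831681388881)) C.nil))))) C.nil))) C.nil)) (C.cons (nat_lit 1314) (C.miq (nat_lit 1703545666) (nat_lit 1588548689904698024015431709)) (C.cons (nat_lit 1312) (C.miq (nat_lit 1703545666) (nat_lit 1586130838265468765666019357)) C.nil))))) C.nil)))) C.nil)))) C.nil))) C.nil))) (C.cons (nat_lit 1296) (C.node (nat_lit 2) (nat_lit 4) (nat_lit 8) (C.cons (nat_lit 788) (C.miq (nat_lit 683119696) (nat_lit 2942537343313747337455665713)) (C.cons (nat_lit 404) (C.miq (nat_lit 2441544514) (nat_lit 2942537343239147577922553885)) (C.cons (nat_lit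 276) (C.node (nat_lit 4) (nat_lit 7) (nat_lit 8) (C.cons (nat_lit 912) (C.node (nat_lit 2) (nat_lit 4) (nat_lit 7) (C.cons (nat_lit 212) (C.miq (nat_lit 2823162226) (nat_lit 407428164582551898985595525)) (C.cons (nat_lit 180)
  (C.miq (nat_lit 2554465111) (nat_lit 333675425444720682200205537)) (C.cons (nat_lit 148) (C.node (nat_lit 4) (nat_lit 5) (nat_lit 7) (C.cons (nat_lit 184) (C.miq (nat_lit 2839873651) (nat_lit 678227031667394770250498441)) (C.cons (nat_lit 176) (C.node (nat_lit 3) (nat_lit 4) (nat_lit 5) (C.cons (nat_lit 120) (C.node (nat_lit 3) (nat_lit 4) (nat_lit 7) (C.cons (nat_lit 152) (C.node (nat_lit 4) (nat_lit 6) (nat_lit 7) (C.cons (nat_lit 208) (C.node (nat_lit 3) (nat_lit 5) (nat_lit 11) (C.cons (nat_lit 2600) (C.miq (nat_lit 2471015776) (nat_lit 340987935807148000520767713)) (C.cons (nat_lit 2090) (C.miq (nat_lit 2961266243) (nat_lit 317986044893555595396382840)) (C.cons (nat_lit 2088) (C.node (nat_lit 1) (nat_lit 3) (nat_lit 5) (C.cons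 (nat_lit 174) (C.miq (nat_lit 2819820405) (nat_lit 340936727994919767447046369)) (C.cons (nat_lit 170) (C.miq (nat_lit 2819820405) (nat_lit 340936727994919767446784225)) (C.cons (nat_lit 46) (C.miq (nat_lit 543496259) (nat_lit 2747889236608308871033258266)) (C.cons (nat_lit 42) (C.node (nat_lit 1) (nat_lit 3) (nat_lit 7) (C.cons (nat_lit 206) (C.miq (nat_lit 2452883301) (nat_lit 2510949276144562391672686817)) (C.cons (nat_lit 202) (C.node (nat_lit 1) (nat_lit 2) (nat_lit 3) (C.cons (nat_lit 1038) (C.miq (nat_lit 2789417089) (nat_lit 145090246381757608446525703)) (C.cons (nat_lit 14) (C.node (nat_lit 3) (nat_lit 9) (nat_lit 11) (C.cons (nat_lit 2632) (C.miq (nat_lit 2838563687) (nat_lit 632289805876918062169065697)) (C.cons (nat_lit 2568) (C.node (nat_lit 5) (nat_lit 10) (nat_lit 11) (C.cons (nat_lit 3110) (C.miq (nat_lit 1366535040) (nat_lit 244222662219991225509416705)) (C.cons (nat_lit 3108) (C.miq (nat_lit 625388416) (nat_lit 145091261519862394906545921))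 (C.cons (nat_lit 3106) (C.miq (nat_lit 1366535040) (nat_lit 244222662218865325602574081)) (C.cons (nat_lit 3104) (C.node (nat_lit 1) (nat_lit 3) (nat_lit 11) C.nil) C.nil))))) C.nil))) C.nil))) (C.cons (nat_lit 142) (C.miq (nat_lit 1662473355) (nat_lit 171709395868335093164673328)) (C.cons (nat_lit 138) (C.miq (nat_lit 1662473355) (nat_lit 166873692589876576465848624)) C.nil))))) C.nil))))) C.nil)))) C.nil)) C.nil)) (C.cons (nat_lit 56) (C.node (nat_lit 3) (nat_lit 4) (nat_lit 7) (C.cons (nat_lit 216) (C.node (nat_lit 1) (nat_lit 3) (nat_lit 7) (C.cons (nat_lit 174) (C.miq (nat_lit 2819820405) (nat_lit 340936727994919767447046369)) (C.cons (nat_lit 170) (C.miq (nat_lit 2819820405) (nat_lit 340936727994919767446784225)) (C.cons (nat_lit 142) (C.miq (nat_lit 1729643296) (nat_lit 2942531661555559456225822749)) (C.cons (nat_lit 138) (C.node (nat_lit 4) (nat_lit 6) (nat_lit 11) (C.cons (nat_lit 2642) (C.miq (nat_lit 2486744688) (nat_lit 340987935818970361863145697))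 (C.cons (nat_lit 2640) (C.miq (nat_lit 2486744688) (nat_lit 340987935818407411909724385)) (C.cons (nat_lit 2130) (C.miq (nat_lit 1636283440) (nat_lit 2942567374990829864645888029)) (C.cons (nat_lit 2128) (C.node (nat_lit 1) (nat_lit 4) (nat_lit 11) (C.cons (nat_lit 2578) (C.node (nat_lit 1) (nat_lit 4) (nat_lit 6) (C.cons (nat_lit 114) (C.miq (nat_lit 1462853764) (nat_lit 166833866675437539002286417)) (C.cons (nat_lit 86) (C.miq (nat_lit 1636254211) (nat_lit 2942529429462935310097254429)) (C.cons (nat_lit 82) (C.node (nat_lit 1) (nat_lit 2) (nat_lit 4) (C.cons (nat_lit 54) (C.node (nat_lit 2) (nat_lit 4) (nat_lit 6) C.nil) C.nil)) C.nil)))) (C.cons (nat_lit 2066) (C.node (nat_lit 4) (nat_lit 9) (nat_lit 11) C.nil) C.nil))) C.nil))))) C.nil))))) (C.cons (nat_lit 152) (C.node (nat_lit 4) (nat_lit 6) (nat_lit 7) (C.cons (nat_lit 208) (C.node (nat_lit 1) (nat_lit 4) (nat_lit 11) (C.cons (nat_lit 2642) (C.miq (nat_lit 1636283440) (nat_lit 2942567375134945052721743901))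 (C.cons (nat_lit 2578) (C.node (nat_lit 4) (nat_lit 6) (nat_lit 11) C.nil) (C.cons (nat_lit 2130) (C.miq (nat_lit 1636283440) (nat_lit 2942567374990829864645888029)) (C.cons (nat_lit 2066) (C.node (nat_lit 4) (nat_lit 6) (nat_lit 11) C.nil) C.nil))))) C.nil)) C.nil))) C.nil))) C.nil))) C.nil)))) (C.cons (nat_lit 400)
  (C.node (nat_lit 4) (nat_lit 8) (nat_lit 9) (C.cons (nat_lit 784) (C.node (nat_lit 2) (nat_lit 4) (nat_lit 7) (C.cons (nat_lit 212) (C.node (nat_lit 4) (nat_lit 5) (nat_lit 7) (C.cons (nat_lit 184) (C.miq (nat_lit 2722301557) (nat_lit 2510958573429676356627073249)) (C.cons (nat_lit 176) (C.node (nat_lit 3) (nat_lit 4) (nat_lit 7) (C.cons (nat_lit 664) (C.miq (nat_lit 1954714384) (nat_lit 333675424550465790613586443)) (C.cons (nat_lit 152) (C.node (nat_lit 4) (nat_lit 7) (nat_lit 9) (C.cons (nat_lit 656) (C.node (nat_lit 2) (nat_lit 4) (nat_lit 9) (C.cons (nat_lit 1556) (C.miq (nat_lit 1805938834) (nat_lit 3733166842319527637052293765))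 (C.cons (nat_lit 534) (C.miq (nat_lit 2541822004) (nat_lit 2942535295684895820054399005)) (C.cons (nat_lit 532) (C.node (nat_lit 6) (nat_lit 7) (nat_lit 8) (C.cons (nat_lit 1472) (C.miq (nat_lit 730218663) (nat_lit 2862740252141825535823053971)) (C.cons (nat_lit 960) (C.miq (nat_lit 3093563762) (nat_lit 407446316178720635342815877)) (C.cons (nat_lit 448) (C.node (nat_lit 7) (nat_lit 8) (nat_lit 9) (C.cons (nat_lit 928) (C.miq (nat_lit 609684361) (nat_lit 212782842986735905861013249)) (C.cons (nat_lit 896) (C.node (nat_lit 1) (nat_lit 2) (nat_lit 4) C.nil) C.nil))) C.nil)))) C.nil)))) C.nil)) C.nil))) C.nil))) (C.cons (nat_lit 180) (C.miq (nat_lit 2554465111) (nat_lit 333675425444720682200205537)) (C.cons (nat_lit 148) (C.node (nat_lit 4) (nat_lit 5) (nat_lit 7) (C.cons (nat_lit 184) (C.node (nat_lit 1) (nat_lit 4) (nat_lit 5) (C.cons (nat_lit 118) (C.miq (nat_lit 2822900566) (nat_lit 333683689586065704075266273)) (C.cons (nat_lit 114) (C.miq (nat_lit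 359876104) (nat_lit 222447552823018464070926673)) (C.cons (nat_lit 54) (C.miq (nat_lit 1367818755) (nat_lit 2942528839158117752136861725)) (C.cons (nat_lit 50) (C.node (nat_lit 3) (nat_lit 5) (nat_lit 8) (C.cons (nat_lit 876) (C.miq (nat_lit 2754742102) (nat_lit 2510959089960465348464216289)) (C.cons (nat_lit 872) (C.miq (nat_lit 2840856631) (nat_lit 678228987022266411664277897)) (C.cons (nat_lit 812) (C.miq (nat_lit 1477915140) (nat_lit 2942528839371475784534525981)) (C.cons (nat_lit 808) (C.miq (nat_lit 2840856631) (nat_lit 678228987022266136786370953)) (C.cons (nat_lit 364) (C.miq (nat_lit 2754742102) (nat_lit 2510959089960465348430661857)) (C.cons (nat_lit 360) (C.miq (nat_lit 391331944) (nat_lit 222447553120537514451927377)) (C.cons (nat_lit 300) (C.miq (nat_lit 1477915140) (nat_lit 2942528839227360596458670109)) (C.cons (nat_lit 296) (C.node (nat_lit 4) (nat_lit 6) (nat_lit 7) (C.cons (nat_lit 720) (C.node (nat_lit 3) (nat_lit 4) (nat_lit 9) (C.cons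 (nat_lit 1560) (C.miq (nat_lit 2491130704) (nat_lit 2650036250978356023435265065)) (C.cons (nat_lit 536) (C.node (nat_lit 4) (nat_lit 6) (nat_lit 11) (C.cons (nat_lit 2130) (C.miq (nat_lit 1636283440) (nat_lit 2942567374990829864645888029)) (C.cons (nat_lit 2128) (C.node (nat_lit 1) (nat_lit 4) (nat_lit 11) C.nil) C.nil))) C.nil))) (C.cons (nat_lit 208) (C.node (nat_lit 4) (nat_lit 7) (nat_lit 9) (C.cons (nat_lit 656) (C.node (nat_lit 2) (nat_lit 4) (nat_lit 5) (C.cons (nat_lit 1076) (C.node (nat_lit 4) (nat_lit 5) (nat_lit 6) C.nil) (C.cons (nat_lit 116) (C.miq (nat_lit 2822900566) (nat_lit 333683689586065704075135201)) (C.cons (nat_lit 52) (C.node (nat_lit 2) (nat_lit 4) (nat_lit 10) (C.cons (nat_lit 1044) (C.node (nat_lit 4) (nat_lit 5) (nat_lit 6) C.nil) C.nil)) C.nil)))) C.nil)) C.nil))) C.nil))))))))) C.nil))))) (C.cons (nat_lit 176) (C.node (nat_lit 3) (nat_lit 4) (nat_lit 5) (C.cons (nat_lit 120) (C.node (nat_lit 3) (nat_lit 4) (nat_lit 7) (C.cons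 (nat_lit 664) (C.miq (nat_lit 1954714384) (nat_lit 333675424550465790613586443)) (C.cons (nat_lit 152) (C.node (nat_lit 3) (nat_lit 5) (nat_lit 11) (C.cons (nat_lit 2600) (C.miq (nat_lit 2471015776) (nat_lit 340987935807148000520767713)) (C.cons (nat_lit 2090) (C.miq (nat_lit 2961266243) (nat_lit 317986044893555595396382840)) (C.cons (nat_lit 2088) (C.node (nat_lit 1) (nat_lit 3) (nat_lit 5) (C.cons (nat_lit 174)
  (C.miq (nat_lit 2819820405) (nat_lit 340936727994919767447046369)) (C.cons (nat_lit 170) (C.miq (nat_lit 2819820405) (nat_lit 340936727994919767446784225)) (C.cons (nat_lit 46) (C.miq (nat_lit 543496259) (nat_lit 2747889236608308871033258266)) (C.cons (nat_lit 42) (C.node (nat_lit 1) (nat_lit 3) (nat_lit 7) (C.cons (nat_lit 206) (C.miq (nat_lit 2452883301) (nat_lit 2510949276144562391672686817)) (C.cons (nat_lit 202) (C.node (nat_lit 1) (nat_lit 2) (nat_lit 3) (C.cons (nat_lit 1038) (C.miq (nat_lit 2789417089) (nat_lit 145090246381757608446525703))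 (C.cons (nat_lit 14) (C.node (nat_lit 3) (nat_lit 9) (nat_lit 11) (C.cons (nat_lit 2632) (C.miq (nat_lit 2838563687) (nat_lit 632289805876918062169065697)) (C.cons (nat_lit 2568) (C.node (nat_lit 5) (nat_lit 10) (nat_lit 11) (C.cons (nat_lit 3110) (C.miq (nat_lit 1366535040) (nat_lit 244222662219991225509416705)) (C.cons (nat_lit 3108) (C.miq (nat_lit 625388416) (nat_lit 145091261519862394906545921)) (C.cons (nat_lit 3106) (C.miq (nat_lit 1366535040) (nat_lit 244222662218865325602574081)) (C.cons (nat_lit 3104) (C.node (nat_lit 1) (nat_lit 3) (nat_lit 11) C.nil) C.nil))))) C.nil))) C.nil))) (C.cons (nat_lit 142) (C.miq (nat_lit 1662473355) (nat_lit 171709395868335093164673328)) (C.cons (nat_lit 138) (C.miq (nat_lit 1662473355) (nat_lit 166873692589876576465848624)) C.nil))))) C.nil))))) C.nil)))) C.nil))) (C.cons (nat_lit 56) (C.node (nat_lit 7) (nat_lit 8) (nat_lit 9) (C.cons (nat_lit 960) (C.node (nat_lit 1) (nat_lit 8) (nat_lit 9) (C.cons (nat_lit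 802) (C.miq (nat_lit 323326136) (nat_lit 67714640334386682464833281)) (C.cons (nat_lit 770) (C.node (nat_lit 4) (nat_lit 6) (nat_lit 7) (C.cons (nat_lit 216) (C.miq (nat_lit 2537260608) (nat_lit 2640364844252554141437329745)) (C.cons (nat_lit 208) (C.node (nat_lit 3) (nat_lit 4) (nat_lit 7) (C.cons (nat_lit 664) (C.miq (nat_lit 1954714384) (nat_lit 333675424550465790613586443)) (C.cons (nat_lit 152) (C.node (nat_lit 4) (nat_lit 7) (nat_lit 9) (C.cons (nat_lit 656) (C.node (nat_lit 1) (nat_lit 7) (nat_lit 9) C.nil) C.nil)) C.nil))) C.nil))) C.nil))) (C.cons (nat_lit 928) (C.miq (nat_lit 609684361) (nat_lit 212782842986735905861013249)) (C.cons (nat_lit 896) (C.node (nat_lit 1) (nat_lit 4) (nat_lit 11) (C.cons (nat_lit 2642) (C.miq (nat_lit 1636283440) (nat_lit 2942567375134945052721743901)) (C.cons (nat_lit 2578) (C.node (nat_lit 4) (nat_lit 6) (nat_lit 11) (C.cons (nat_lit 2128) (C.node (nat_lit 2) (nat_lit 4) (nat_lit 9) C.nil) C.nil)) (C.cons (nat_lit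 2130) (C.miq (nat_lit 1636283440) (nat_lit 2942567374990829864645888029)) (C.cons (nat_lit 2066) (C.node (nat_lit 4) (nat_lit 6) (nat_lit 11) (C.cons (nat_lit 2640) (C.node (nat_lit 1) (nat_lit 4) (nat_lit 9) C.nil) (C.cons (nat_lit 2128) (C.node (nat_lit 4) (nat_lit 9) (nat_lit 11) C.nil) C.nil))) C.nil))))) C.nil)))) C.nil))) C.nil))) C.nil)))) C.nil)) C.nil))) C.nil)))) C.nil))) (C.cons (nat_lit 274) (C.node (nat_lit 1) (nat_lit 8) (nat_lit 9) (C.cons (nat_lit 866) (C.miq (nat_lit 414422336) (nat_lit 2795046142839940633746801201)) (C.cons (nat_lit 834) (C.node (nat_lit 1) (nat_lit 3) (nat_lit 4) (C.cons (nat_lit 122) (C.miq (nat_lit 1368933131) (nat_lit 1008287520335004290248673309)) (C.cons (nat_lit 90) (C.miq (nat_lit 3105032292) (nat_lit 632306518627041120664289617)) (C.cons (nat_lit 58) (C.miq (nat_lit 1368933131) (nat_lit 1008287520316989891739191325)) (C.cons (nat_lit 26) (C.node (nat_lit 1) (nat_lit 7) (nat_lit 9) (C.cons (nat_lit 674) (C.node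 (nat_lit 3) (nat_lit 5) (nat_lit 11) (C.cons (nat_lit 2600) (C.miq (nat_lit 1133579095) (nat_lit 632289805380396065843448033)) (C.cons (nat_lit 2090) (C.miq (nat_lit 588843863) (nat_lit 632280102393011104185977057)) (C.cons (nat_lit 2088) (C.node (nat_lit 3) (nat_lit 9) (nat_lit 11) (C.cons (nat_lit 2632) (C.miq (nat_lit 728236945) (nat_lit 2862741192925768102352912907)) (C.cons (nat_lit 2568) (C.node (nat_lit 5) (nat_lit 9) (nat_lit 11) (C.cons (nat_lit 2596) (C.miq (nat_lit 364149024) (nat_lit 2843415129060643416968069765))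
  (C.cons (nat_lit 2592) (C.node (nat_lit 1) (nat_lit 4) (nat_lit 11) C.nil) C.nil))) C.nil))) C.nil)))) (C.cons (nat_lit 642) (C.node (nat_lit 1) (nat_lit 3) (nat_lit 8) (C.cons (nat_lit 1290) (C.miq (nat_lit 951427440) (nat_lit 2843413173879159493637506195)) (C.cons (nat_lit 298) (C.node (nat_lit 1) (nat_lit 8) (nat_lit 10) (C.cons (nat_lit 1282) (C.node (nat_lit 1) (nat_lit 5) (nat_lit 7) (C.cons (nat_lit 166) (C.node (nat_lit 5) (nat_lit 6) (nat_lit 8) (C.cons (nat_lit 1376) (C.miq (nat_lit 1630898442) (nat_lit 360285277199757295319846657)) (C.cons (nat_lit 356) (C.miq (nat_lit 1093142358) (nat_lit 317953707441008223782701281)) (C.cons (nat_lit 352) (C.node (nat_lit 5) (nat_lit 8) (nat_lit 9) (C.cons (nat_lit 928) (C.miq (nat_lit 1165146256) (nat_lit 200720000605502668735319809)) (C.cons (nat_lit 804) (C.miq (nat_lit 2823883047) (nat_lit 360281496463618646657598085)) (C.cons (nat_lit 800) (C.node (nat_lit 5) (nat_lit 7) (nat_lit 9) (C.cons (nat_lit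 1696) (C.miq (nat_lit 680857767) (nat_lit 967143717925263991505945747)) (C.cons (nat_lit 680) (C.miq (nat_lit 2450878595) (nat_lit 200694230023551055070626185)) (C.cons (nat_lit 672) (C.node (nat_lit 5) (nat_lit 10) (nat_lit 11) (C.cons (nat_lit 3108) (C.miq (nat_lit 2793742411) (nat_lit 425599221292584155885864989)) (C.cons (nat_lit 3106) (C.miq (nat_lit 890702520) (nat_lit 200688935926233601379798785)) (C.cons (nat_lit 3104) (C.node (nat_lit 2) (nat_lit 5) (nat_lit 11) (C.cons (nat_lit 2596) (C.miq (nat_lit 448098450) (nat_lit 3752508806572948888941232773)) (C.cons (nat_lit 2084) (C.node (nat_lit 1) (nat_lit 3) (nat_lit 7) (C.cons (nat_lit 202) (C.node (nat_lit 1) (nat_lit 2) (nat_lit 3) (C.cons (nat_lit 1038) (C.node (nat_lit 1) (nat_lit 3) (nat_lit 11) (C.cons (nat_lit 2058) (C.node (nat_lit 2) (nat_lit 10) (nat_lit 11) C.nil) C.nil)) (C.cons (nat_lit 14) (C.node (nat_lit 1) (nat_lit 3) (nat_lit 10) (C.cons (nat_lit 3082) (C.node (nat_lit 2) (nat_lit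 10) (nat_lit 11) C.nil) (C.cons (nat_lit 1034) (C.node (nat_lit 1) (nat_lit 3) (nat_lit 11) C.nil) C.nil))) C.nil))) (C.cons (nat_lit 138) (C.node (nat_lit 1) (nat_lit 6) (nat_lit 7) (C.cons (nat_lit 194) (C.node (nat_lit 1) (nat_lit 4) (nat_lit 5) (C.cons (nat_lit 114) (C.node (nat_lit 2) (nat_lit 5) (nat_lit 8) C.nil) C.nil)) C.nil)) C.nil))) C.nil))) C.nil)))) C.nil)))) C.nil)))) C.nil)))) (C.cons (nat_lit 162) (C.node (nat_lit 3) (nat_lit 5) (nat_lit 11) (C.cons (nat_lit 2600) (C.node (nat_lit 3) (nat_lit 4) (nat_lit 5) (C.cons (nat_lit 184) (C.miq (nat_lit 2872510804) (nat_lit 2640315592256816983915889201)) (C.cons (nat_lit 120) (C.miq (nat_lit 1451832331) (nat_lit 1008292095126970821400135709)) (C.cons (nat_lit 56) (C.node (nat_lit 5) (nat_lit 7) (nat_lit 9) (C.cons (nat_lit 1696) (C.miq (nat_lit 1949671609) (nat_lit 67731131905984363728736001)) (C.cons (nat_lit 928) (C.miq (nat_lit 2024969536) (nat_lit 2790212690081710558169334321)) (C.cons (nat_lit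 672) (C.node (nat_lit 4) (nat_lit 5) (nat_lit 7) (C.cons (nat_lit 180) (C.miq (nat_lit 2239345696) (nat_lit 812469005387047842150156317)) (C.cons (nat_lit 176) (C.node (nat_lit 1) (nat_lit 5) (nat_lit 9) (C.cons (nat_lit 1574) (C.miq (nat_lit 1129384858) (nat_lit 360281495967104501593542401)) (C.cons (nat_lit 1570) (C.miq (nat_lit 1129384858) (nat_lit 360281495967104501593280257)) (C.cons (nat_lit 550) (C.miq (nat_lit 899121440) (nat_lit 812405400435333678590394631)) (C.cons (nat_lit 546) (C.node (nat_lit 1) (nat_lit 9) (nat_lit 10) (C.cons (nat_lit 1542) (C.node (nat_lit 1) (nat_lit 9) (nat_lit 11) (C.cons (nat_lit 2578) (C.miq (nat_lit 2710897843) (nat_lit 660093143621644300386306077)) C.nil)) (C.cons (nat_lit 1538) (C.node (nat_lit 1) (nat_lit 4) (nat_lit 11) (C.cons (nat_lit 2578) (C.miq (nat_lit 2710897843) (nat_lit 660093143621644300386306077)) (C.cons (nat_lit 2130) (C.node (nat_lit 4) (nat_lit 9) (nat_lit 11) C.nil) C.nil))) C.nil))) C.nil)))))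 C.nil))) C.nil)))) C.nil)))) (C.cons (nat_lit 2088) (C.node (nat_lit 3) (nat_lit 9) (nat_lit 11) (C.cons (nat_lit 2632)
  (C.miq (nat_lit 728236945) (nat_lit 2862741192925768102352912907)) (C.cons (nat_lit 2568) (C.node (nat_lit 5) (nat_lit 6) (nat_lit 8) (C.cons (nat_lit 1376) (C.miq (nat_lit 1630898442) (nat_lit 360285277199757295319846657)) (C.cons (nat_lit 356) (C.node (nat_lit 5) (nat_lit 8) (nat_lit 9) (C.cons (nat_lit 928) (C.miq (nat_lit 2024969536) (nat_lit 2790212690081710558169334321)) (C.cons (nat_lit 800) (C.node (nat_lit 5) (nat_lit 10) (nat_lit 11) (C.cons (nat_lit 3110) (C.miq (nat_lit 890702520) (nat_lit 195853232647775101860843265)) (C.cons (nat_lit 3108) (C.miq (nat_lit 1176862891) (nat_lit 430420978619731112815234817)) (C.cons (nat_lit 3106) (C.miq (nat_lit 890702520) (nat_lit 195853232647775084680974081)) (C.cons (nat_lit 3104) (C.node (nat_lit 2) (nat_lit 10) (nat_lit 11) C.nil) C.nil))))) C.nil))) (C.cons (nat_lit 352) (C.node (nat_lit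 5) (nat_lit 10) (nat_lit 11) (C.cons (nat_lit 3110) (C.miq (nat_lit 890702520) (nat_lit 195853232647775101860843265)) (C.cons (nat_lit 3108) (C.miq (nat_lit 2793742411) (nat_lit 425599221292584155885864989)) (C.cons (nat_lit 3106) (C.miq (nat_lit 890702520) (nat_lit 195853232647775084680974081)) (C.cons (nat_lit 3104) (C.node (nat_lit 2) (nat_lit 10) (nat_lit 11) C.nil) C.nil))))) C.nil)))) C.nil))) C.nil))) C.nil))) C.nil)) (C.cons (nat_lit 266) (C.node (nat_lit 1) (nat_lit 5) (nat_lit 8) (C.cons (nat_lit 1314) (C.node (nat_lit 5) (nat_lit 10) (nat_lit 11) (C.cons (nat_lit 3108) (C.miq (nat_lit 1750729906) (nat_lit 1588548689359762469222090781)) (C.cons (nat_lit 3104) (C.node (nat_lit 1) (nat_lit 9) (nat_lit 10) (C.cons (nat_lit 1542) (C.node (nat_lit 2) (nat_lit 10) (nat_lit 11) (C.cons (nat_lit 3076) (C.node (nat_lit 1) (nat_lit 2) (nat_lit 4) (C.cons (nat_lit 118) (C.miq (nat_lit 1787109556) (nat_lit 1588530703997092079959279645)) (C.cons (nat_lit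 86) (C.miq (nat_lit 646517770) (nat_lit 1008272578462170687486362771)) (C.cons (nat_lit 54) (C.miq (nat_lit 730153121) (nat_lit 2843394524442427822908245139)) (C.cons (nat_lit 22) (C.node (nat_lit 1) (nat_lit 5) (nat_lit 7) (C.cons (nat_lit 174) (C.miq (nat_lit 2819820405) (nat_lit 321593914881085700651747553)) (C.cons (nat_lit 170) (C.miq (nat_lit 2819820405) (nat_lit 321593914881085700651485409)) (C.cons (nat_lit 166) (C.miq (nat_lit 3121940775) (nat_lit 1588570457504054285770818181)) (C.cons (nat_lit 162) (C.node (nat_lit 1) (nat_lit 2) (nat_lit 7) (C.cons (nat_lit 206) (C.miq (nat_lit 2167060320) (nat_lit 1864234468474856283933313249)) (C.cons (nat_lit 198) (C.miq (nat_lit 2167060320) (nat_lit 1864234468474856249573574881)) (C.cons (nat_lit 142) (C.miq (nat_lit 2704839280) (nat_lit 321645122395513502858543749)) C.nil)))) C.nil))))) C.nil))))) C.nil)) (C.cons (nat_lit 1538) (C.node (nat_lit 2) (nat_lit 10) (nat_lit 11) (C.cons (nat_lit 3078) (C.node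 (nat_lit 1) (nat_lit 2) (nat_lit 3) (C.cons (nat_lit 206) (C.miq (nat_lit 2167060320) (nat_lit 3721144527402926696281999585)) (C.cons (nat_lit 174) (C.miq (nat_lit 2819820405) (nat_lit 321593914881085700651747553)) (C.cons (nat_lit 142) (C.miq (nat_lit 2709041712) (nat_lit 2942596299752375117849102365)) (C.cons (nat_lit 110) (C.miq (nat_lit 2167121200) (nat_lit 3721144527087674310113690665)) (C.cons (nat_lit 78) (C.miq (nat_lit 730214545) (nat_lit 2862737780278119658701324811)) (C.cons (nat_lit 46) (C.miq (nat_lit 2167121200) (nat_lit 3721144527087674035235783721)) (C.cons (nat_lit 14) (C.node (nat_lit 1) (nat_lit 3) (nat_lit 10) (C.cons (nat_lit 1098) (C.node (nat_lit 1) (nat_lit 3) (nat_lit 7) (C.cons (nat_lit 170) (C.miq (nat_lit 2168108880) (nat_lit 1327471404565960775743113441)) C.nil)) C.nil)) C.nil)))))))) (C.cons (nat_lit 3076) (C.node (nat_lit 1) (nat_lit 2) (nat_lit 10) (C.cons (nat_lit 1038) (C.node (nat_lit 1) (nat_lit 3) (nat_lit 5) (C.cons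 (nat_lit 2090) (C.miq (nat_lit 1696205618) (nat_lit 1588548689904696898716829725)) (C.cons (nat_lit 170) (C.miq (nat_lit 2168108880) (nat_lit 1254935855389083025260742881)) (C.cons (nat_lit 106)
  (C.miq (nat_lit 1705513737) (nat_lit 1588543911588021131253187083)) (C.cons (nat_lit 42) (C.node (nat_lit 1) (nat_lit 3) (nat_lit 7) (C.cons (nat_lit 202) (C.node (nat_lit 1) (nat_lit 3) (nat_lit 11) C.nil) C.nil)) C.nil))))) (C.cons (nat_lit 1030) (C.node (nat_lit 3) (nat_lit 9) (nat_lit 11) (C.cons (nat_lit 2632) (C.miq (nat_lit 728236945) (nat_lit 2862741192925768102352912907)) (C.cons (nat_lit 2600) (C.node (nat_lit 1) (nat_lit 5) (nat_lit 11) (C.cons (nat_lit 2086) (C.node (nat_lit 1) (nat_lit 5) (nat_lit 9) C.nil) C.nil)) (C.cons (nat_lit 2568) (C.node (nat_lit 3) (nat_lit 5) (nat_lit 11) C.nil) C.nil)))) C.nil))) C.nil))) C.nil))) C.nil))) (C.cons (nat_lit 290) (C.node (nat_lit 1) (nat_lit 8) (nat_lit 10) (C.cons (nat_lit 1282) (C.node (nat_lit 3) (nat_lit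 9) (nat_lit 11) (C.cons (nat_lit 2632) (C.miq (nat_lit 728236945) (nat_lit 2862741192925768102352912907)) (C.cons (nat_lit 2600) (C.node (nat_lit 3) (nat_lit 4) (nat_lit 5) (C.cons (nat_lit 184) (C.miq (nat_lit 2872510804) (nat_lit 2640315592256816983915889201)) (C.cons (nat_lit 120) (C.miq (nat_lit 1451832331) (nat_lit 1008292095126970821400135709)) (C.cons (nat_lit 56) (C.node (nat_lit 5) (nat_lit 7) (nat_lit 9) (C.cons (nat_lit 1696) (C.miq (nat_lit 1949671609) (nat_lit 67731131905984363728736001)) (C.cons (nat_lit 928) (C.miq (nat_lit 2024969536) (nat_lit 2790212690081710558169334321)) (C.cons (nat_lit 672) (C.node (nat_lit 4) (nat_lit 5) (nat_lit 7) (C.cons (nat_lit 180) (C.miq (nat_lit 2239345696) (nat_lit 812469005387047842150156317)) (C.cons (nat_lit 176) (C.node (nat_lit 5) (nat_lit 8) (nat_lit 9) (C.cons (nat_lit 804) (C.node (nat_lit 1) (nat_lit 5) (nat_lit 9) (C.cons (nat_lit 1570) (C.miq (nat_lit 339058873) (nat_lit 67728807616231076325232385))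 (C.cons (nat_lit 546) (C.node (nat_lit 3) (nat_lit 8) (nat_lit 9) (C.cons (nat_lit 792) (C.miq (nat_lit 1697909656) (nat_lit 67706063090975862932639489)) (C.cons (nat_lit 776) (C.node (nat_lit 1) (nat_lit 5) (nat_lit 7) (C.cons (nat_lit 174) (C.miq (nat_lit 2819820405) (nat_lit 321593914881085700651747553)) (C.cons (nat_lit 170) (C.miq (nat_lit 2819820405) (nat_lit 321593914881085700651485409)) (C.cons (nat_lit 166) (C.miq (nat_lit 2823883047) (nat_lit 350610089906701613259948677)) (C.cons (nat_lit 162) (C.node (nat_lit 1) (nat_lit 4) (nat_lit 11) C.nil) C.nil))))) C.nil))) C.nil))) (C.cons (nat_lit 800) (C.node (nat_lit 7) (nat_lit 8) (nat_lit 9) (C.cons (nat_lit 912) (C.node (nat_lit 2) (nat_lit 4) (nat_lit 7) (C.cons (nat_lit 212) (C.miq (nat_lit 2823162226) (nat_lit 407428164582551898985595525)) (C.cons (nat_lit 148) (C.node (nat_lit 3) (nat_lit 4) (nat_lit 9) (C.cons (nat_lit 1624) (C.miq (nat_lit 1966345114) (nat_lit 67721447675533336753213185))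 (C.cons (nat_lit 1560) (C.miq (nat_lit 1966345114) (nat_lit 67721447675533336749018881)) (C.cons (nat_lit 600) (C.miq (nat_lit 563284068) (nat_lit 632306517619923654026985809)) (C.cons (nat_lit 536) (C.node (nat_lit 2) (nat_lit 4) (nat_lit 8) (C.cons (nat_lit 1300) (C.node (nat_lit 3) (nat_lit 4) (nat_lit 8) (C.cons (nat_lit 280) (C.node (nat_lit 1) (nat_lit 4) (nat_lit 11) C.nil) C.nil)) (C.cons (nat_lit 276) (C.node (nat_lit 1) (nat_lit 4) (nat_lit 11) C.nil) C.nil))) C.nil))))) C.nil))) (C.cons (nat_lit 896) (C.node (nat_lit 1) (nat_lit 4) (nat_lit 11) (C.cons (nat_lit 2578) (C.miq (nat_lit 1531590928) (nat_lit 3733182577484259404115280395)) (C.cons (nat_lit 2130) (C.node (nat_lit 4) (nat_lit 9) (nat_lit 11) C.nil) C.nil))) C.nil))) C.nil))) C.nil))) C.nil)))) C.nil)))) (C.cons (nat_lit 2568) (C.node (nat_lit 3) (nat_lit 5) (nat_lit 11) (C.cons (nat_lit 2090) (C.node (nat_lit 1) (nat_lit 5) (nat_lit 7) (C.cons (nat_lit 166) (C.node (nat_lit 1) (nat_lit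 3) (nat_lit 7) (C.cons (nat_lit 202) (C.node (nat_lit 1) (nat_lit 2) (nat_lit 3) (C.cons (nat_lit 1038) (C.node (nat_lit 1) (nat_lit 4) (nat_lit 5) C.nil) C.nil)) C.nil)) (C.cons (nat_lit 162) (C.node (nat_lit 1) (nat_lit 3) (nat_lit 10) C.nil) C.nil))) (C.cons (nat_lit 2088)
  (C.node (nat_lit 7) (nat_lit 8) (nat_lit 9) (C.cons (nat_lit 928) (C.miq (nat_lit 2024969536) (nat_lit 2790212690081710558169334321)) (C.cons (nat_lit 912) (C.node (nat_lit 2) (nat_lit 4) (nat_lit 7) (C.cons (nat_lit 212) (C.miq (nat_lit 2823162226) (nat_lit 407428164582551898985595525)) (C.cons (nat_lit 180) (C.miq (nat_lit 696545461) (nat_lit 1102543668084042932153223393)) (C.cons (nat_lit 148) (C.node (nat_lit 4) (nat_lit 5) (nat_lit 7) (C.cons (nat_lit 184) (C.miq (nat_lit 2839873651) (nat_lit 678227031667394770250498441)) (C.cons (nat_lit 176) (C.node (nat_lit 2) (nat_lit 4) (nat_lit 8) (C.cons (nat_lit 1300) (C.node (nat_lit 5) (nat_lit 8) (nat_lit 10) (C.cons (nat_lit 1312)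 (C.miq (nat_lit 1703545666) (nat_lit 1586130838265468765666019357)) C.nil)) (C.cons (nat_lit 276) (C.node (nat_lit 3) (nat_lit 4) (nat_lit 8) (C.cons (nat_lit 1304) (C.node (nat_lit 6) (nat_lit 7) (nat_lit 8) C.nil) C.nil)) C.nil))) C.nil))) C.nil)))) (C.cons (nat_lit 896) (C.node (nat_lit 4) (nat_lit 7) (nat_lit 8) (C.cons (nat_lit 404) (C.node (nat_lit 4) (nat_lit 8) (nat_lit 9) (C.cons (nat_lit 792) (C.node (nat_lit 4) (nat_lit 8) (nat_lit 10) C.nil) C.nil)) C.nil)) C.nil)))) C.nil))) C.nil)))) C.nil)) C.nil))) C.nil)))) C.nil))) C.nil))))) (C.cons (nat_lit 802) (C.miq (nat_lit 414422336) (nat_lit 2795046142821926235237319217)) (C.cons (nat_lit 770) (C.node (nat_lit 1) (nat_lit 3) (nat_lit 4) (C.cons (nat_lit 122) (C.miq (nat_lit 1368933131) (nat_lit 930916267879668023067478045)) (C.cons (nat_lit 90) (C.node (nat_lit 1) (nat_lit 4) (nat_lit 5) (C.cons (nat_lit 54) (C.node (nat_lit 3) (nat_lit 4) (nat_lit 5) (C.cons (nat_lit 184) (C.miq (nat_lit 1367818755)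 (nat_lit 2942528839158117752136861725)) (C.cons (nat_lit 56) (C.node (nat_lit 4) (nat_lit 5) (nat_lit 7) (C.cons (nat_lit 176) (C.node (nat_lit 5) (nat_lit 10) (nat_lit 11) (C.cons (nat_lit 3108) (C.miq (nat_lit 1649674936) (nat_lit 65288211119608314010275585)) (C.cons (nat_lit 3106) (C.miq (nat_lit 1535353200) (nat_lit 2795056141605732884232602771)) (C.cons (nat_lit 3104) (C.node (nat_lit 1) (nat_lit 8) (nat_lit 10) (C.cons (nat_lit 1378) (C.miq (nat_lit 1648730296) (nat_lit 65307414180184617542225665)) (C.cons (nat_lit 1346) (C.miq (nat_lit 998654113) (nat_lit 2862738001639048543249499283)) (C.cons (nat_lit 1314) (C.miq (nat_lit 730153121) (nat_lit 2843394524442427822908245139)) (C.cons (nat_lit 1290) (C.miq (nat_lit 951427440) (nat_lit 2843413173879159493637506195)) (C.cons (nat_lit 1282) (C.node (nat_lit 1) (nat_lit 3) (nat_lit 8) (C.cons (nat_lit 298) (C.node (nat_lit 1) (nat_lit 6) (nat_lit 8) (C.cons (nat_lit 322) (C.node (nat_lit 1) (nat_lit 3)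 (nat_lit 11) (C.cons (nat_lit 3082) (C.miq (nat_lit 2707993408) (nat_lit 389344968727403977434531869)) (C.cons (nat_lit 2058) (C.node (nat_lit 1) (nat_lit 3) (nat_lit 7) (C.cons (nat_lit 142) (C.node (nat_lit 1) (nat_lit 3) (nat_lit 10) (C.cons (nat_lit 1034) (C.node (nat_lit 1) (nat_lit 5) (nat_lit 7) (C.cons (nat_lit 674) (C.miq (nat_lit 1362401056) (nat_lit 108813672578456721106469509)) C.nil)) C.nil)) (C.cons (nat_lit 138) (C.node (nat_lit 1) (nat_lit 2) (nat_lit 7) (C.cons (nat_lit 198) (C.miq (nat_lit 2819754870) (nat_lit 317967653931075876996647137)) C.nil)) C.nil))) C.nil))) C.nil)) (C.cons (nat_lit 266) (C.node (nat_lit 1) (nat_lit 4) (nat_lit 9) (C.cons (nat_lit 2578) (C.node (nat_lit 4) (nat_lit 6) (nat_lit 11) (C.cons (nat_lit 2128) (C.node (nat_lit 2) (nat_lit 10) (nat_lit 11) (C.cons (nat_lit 3078) (C.miq (nat_lit 2689775937) (nat_lit 44787035485147952489826834)) C.nil)) C.nil)) (C.cons (nat_lit 530) (C.node (nat_lit 1) (nat_lit 4) (nat_lit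 11) (C.cons (nat_lit 2066) (C.node (nat_lit 1) (nat_lit 5) (nat_lit 8) (C.cons (nat_lit 354) (C.node (nat_lit 1) (nat_lit 3) (nat_lit 5) (C.cons (nat_lit 2090) (C.miq (nat_lit 830780768) (nat_lit 331283989050133710373980385)) (C.cons (nat_lit 170) (C.miq (nat_lit 2819820405) (nat_lit 321593914881085700651485409)) C.nil))) (C.cons (nat_lit 290)
  (C.node (nat_lit 1) (nat_lit 6) (nat_lit 8) C.nil) C.nil))) C.nil)) C.nil))) C.nil))) C.nil)))))) C.nil)))) C.nil)) C.nil))) (C.cons (nat_lit 50) (C.node (nat_lit 1) (nat_lit 2) (nat_lit 4) (C.cons (nat_lit 534) (C.node (nat_lit 1) (nat_lit 4) (nat_lit 11) (C.cons (nat_lit 2066) (C.node (nat_lit 1) (nat_lit 6) (nat_lit 7) (C.cons (nat_lit 706) (C.miq (nat_lit 1632336160) (nat_lit 2497682672971827043960160901)) (C.cons (nat_lit 198) (C.miq (nat_lit 2819754870) (nat_lit 317967653931075876996647137)) (C.cons (nat_lit 194) (C.node (nat_lit 1) (nat_lit 7) (nat_lit 9) (C.cons (nat_lit 674) (C.miq (nat_lit 1363900704)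 (nat_lit 2497682672962819844705419909)) (C.cons (nat_lit 642) (C.node (nat_lit 2) (nat_lit 9) (nat_lit 11) (C.cons (nat_lit 2628) (C.miq (nat_lit 1763160640) (nat_lit 776172306381590004357072925)) (C.cons (nat_lit 2596) (C.miq (nat_lit 1494725184) (nat_lit 776172306372582805102331933)) (C.cons (nat_lit 2564) (C.node (nat_lit 2) (nat_lit 4) (nat_lit 7) (C.cons (nat_lit 404) (C.miq (nat_lit 826804519) (nat_lit 331252924292043068081963653)) (C.cons (nat_lit 212) (C.miq (nat_lit 2439447362) (nat_lit 234543507302377401934415901)) (C.cons (nat_lit 180) (C.miq (nat_lit 2217325936) (nat_lit 645637242280229016040704225)) (C.cons (nat_lit 148) (C.node (nat_lit 2) (nat_lit 4) (nat_lit 6) (C.cons (nat_lit 116) (C.node (nat_lit 4) (nat_lit 5) (nat_lit 10) (C.cons (nat_lit 1072) (C.node (nat_lit 1) (nat_lit 2) (nat_lit 6) (C.cons (nat_lit 2118) (C.miq (nat_lit 2962318658) (nat_lit 632307274502194206776623220)) (C.cons (nat_lit 70) (C.node (nat_lit 1) (nat_lit 3) (nat_lit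 8) C.nil) C.nil))) C.nil)) (C.cons (nat_lit 84) (C.node (nat_lit 2) (nat_lit 4) (nat_lit 8) (C.cons (nat_lit 1300) (C.miq (nat_lit 1411823776) (nat_lit 101591698958943121238724353)) (C.cons (nat_lit 276) (C.node (nat_lit 5) (nat_lit 10) (nat_lit 11) (C.cons (nat_lit 3110) (C.miq (nat_lit 1415755786) (nat_lit 101607138883728680079920897)) (C.cons (nat_lit 3108) (C.miq (nat_lit 1415755786) (nat_lit 101607101990240532660817665)) (C.cons (nat_lit 3106) (C.miq (nat_lit 1535353200) (nat_lit 2795056141605732884232602771)) (C.cons (nat_lit 3104) (C.node (nat_lit 2) (nat_lit 5) (nat_lit 11) C.nil) C.nil))))) C.nil))) C.nil))) C.nil))))) C.nil)))) C.nil))) C.nil)))) C.nil)) (C.cons (nat_lit 22) (C.node (nat_lit 1) (nat_lit 4) (nat_lit 9) (C.cons (nat_lit 2578) (C.node (nat_lit 4) (nat_lit 6) (nat_lit 11) (C.cons (nat_lit 2128) (C.node (nat_lit 3) (nat_lit 9) (nat_lit 11) (C.cons (nat_lit 2632) (C.miq (nat_lit 2875459889) (nat_lit 2572615746358397887565136395))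 (C.cons (nat_lit 2600) (C.miq (nat_lit 1531590928) (nat_lit 3733182577484259404115280395)) (C.cons (nat_lit 2568) (C.node (nat_lit 3) (nat_lit 5) (nat_lit 11) (C.cons (nat_lit 2090) (C.node (nat_lit 3) (nat_lit 6) (nat_lit 11) (C.cons (nat_lit 3144) (C.node (nat_lit 1) (nat_lit 6) (nat_lit 11) C.nil) C.nil)) C.nil)) C.nil)))) C.nil)) (C.cons (nat_lit 530) (C.node (nat_lit 1) (nat_lit 4) (nat_lit 11) (C.cons (nat_lit 2066) (C.node (nat_lit 3) (nat_lit 4) (nat_lit 5) (C.cons (nat_lit 184) (C.node (nat_lit 3) (nat_lit 4) (nat_lit 8) (C.cons (nat_lit 1304) (C.miq (nat_lit 1535340708) (nat_lit 2795039889789741333596341395)) (C.cons (nat_lit 792) (C.miq (nat_lit 2489025392) (nat_lit 2843464381900523909274468745)) (C.cons (nat_lit 280) (C.node (nat_lit 3) (nat_lit 4) (nat_lit 9) (C.cons (nat_lit 1560) (C.miq (nat_lit 2491130704) (nat_lit 2650036250978356023435265065)) (C.cons (nat_lit 536) (C.node (nat_lit 3) (nat_lit 4) (nat_lit 10) (C.cons (nat_lit 1048) (C.node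 (nat_lit 4) (nat_lit 6) (nat_lit 11) C.nil) C.nil)) C.nil))) C.nil)))) (C.cons (nat_lit 56) (C.node (nat_lit 3) (nat_lit 4) (nat_lit 7) (C.cons (nat_lit 664) (C.node (nat_lit 4) (nat_lit 6) (nat_lit 7) (C.cons (nat_lit 212) (C.miq (nat_lit 270940532) (nat_lit 1321357581192970504900969112)) (C.cons (nat_lit 208) (C.node (nat_lit 4) (nat_lit 7) (nat_lit 8) (C.cons (nat_lit 404) (C.miq (nat_lit 2541827104) (nat_lit 2942535092776059081050228765)) (C.cons (nat_lit 400)
  (C.node (nat_lit 4) (nat_lit 6) (nat_lit 11) C.nil) C.nil))) C.nil))) (C.cons (nat_lit 152) (C.node (nat_lit 4) (nat_lit 5) (nat_lit 7) (C.cons (nat_lit 180) (C.node (nat_lit 2) (nat_lit 4) (nat_lit 8) (C.cons (nat_lit 1300) (C.miq (nat_lit 1698827146) (nat_lit 217626810461708539898629889)) (C.cons (nat_lit 788) (C.miq (nat_lit 683119696) (nat_lit 2942537343313747337455665713)) (C.cons (nat_lit 276) (C.miq (nat_lit 2554465111) (nat_lit 333675425444720682200205537)) C.nil)))) (C.cons (nat_lit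 176) (C.node (nat_lit 4) (nat_lit 6) (nat_lit 11) (C.cons (nat_lit 2640) (C.node (nat_lit 4) (nat_lit 6) (nat_lit 7) C.nil) (C.cons (nat_lit 2128) (C.node (nat_lit 4) (nat_lit 9) (nat_lit 11) C.nil) C.nil))) C.nil))) C.nil))) C.nil))) C.nil)) C.nil))) C.nil))) C.nil))) (C.cons (nat_lit 58) (C.miq (nat_lit 1368933131) (nat_lit 930916267861653624557996061)) (C.cons (nat_lit 26) (C.node (nat_lit 5) (nat_lit 10) (nat_lit 11) (C.cons (nat_lit 3110) (C.miq (nat_lit 1535353200) (nat_lit 2795056141606858784139445395)) (C.cons (nat_lit 3108) (C.node (nat_lit 4) (nat_lit 5) (nat_lit 10) (C.cons (nat_lit 1136) (C.miq (nat_lit 625388416) (nat_lit 1373359894248325636408020737)) (C.cons (nat_lit 1072) (C.node (nat_lit 3) (nat_lit 4) (nat_lit 5) (C.cons (nat_lit 184) (C.node (nat_lit 3) (nat_lit 4) (nat_lit 8) (C.cons (nat_lit 1304) (C.miq (nat_lit 1535340708) (nat_lit 2795039889789741333596341395)) (C.cons (nat_lit 792) (C.miq (nat_lit 2489025392) (nat_lit 2843464381900523909274468745))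 (C.cons (nat_lit 280) (C.node (nat_lit 4) (nat_lit 8) (nat_lit 9) (C.cons (nat_lit 912) (C.miq (nat_lit 2488960816) (nat_lit 1296039332827575562776674697)) (C.cons (nat_lit 788) (C.miq (nat_lit 659853496) (nat_lit 222456887024982973865791233)) (C.cons (nat_lit 784) (C.node (nat_lit 5) (nat_lit 7) (nat_lit 10) (C.cons (nat_lit 1696) (C.miq (nat_lit 2538317104) (nat_lit 2650036251016636620255069225)) (C.cons (nat_lit 1440) (C.miq (nat_lit 628341376) (nat_lit 222480665571363275280027393)) (C.cons (nat_lit 1184) (C.node (nat_lit 2) (nat_lit 4) (nat_lit 5) (C.cons (nat_lit 118) (C.miq (nat_lit 1367818755) (nat_lit 2942528839176132150646343709)) (C.cons (nat_lit 116) (C.node (nat_lit 1) (nat_lit 4) (nat_lit 5) (C.cons (nat_lit 50) (C.node (nat_lit 2) (nat_lit 4) (nat_lit 7) (C.cons (nat_lit 404) (C.miq (nat_lit 2722674016) (nat_lit 488476885943122030824065249)) (C.cons (nat_lit 148) (C.node (nat_lit 4) (nat_lit 7) (nat_lit 8) (C.cons (nat_lit 400) (C.node (nat_lit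 2) (nat_lit 4) (nat_lit 8) (C.cons (nat_lit 1300) (C.node (nat_lit 7) (nat_lit 8) (nat_lit 10) C.nil) (C.cons (nat_lit 276) (C.miq (nat_lit 2722674016) (nat_lit 333734381032449496461674721)) C.nil))) C.nil)) C.nil))) C.nil)) (C.cons (nat_lit 54) (C.miq (nat_lit 1649674936) (nat_lit 65288211119608314010275585)) (C.cons (nat_lit 52) (C.miq (nat_lit 1649674936) (nat_lit 62870359480379055660863233)) C.nil))))) C.nil)))) C.nil)))) C.nil)))) (C.cons (nat_lit 120) (C.miq (nat_lit 625388416) (nat_lit 145091261519862394906545921)) (C.cons (nat_lit 56) (C.node (nat_lit 4) (nat_lit 5) (nat_lit 7) (C.cons (nat_lit 180) (C.miq (nat_lit 1649674936) (nat_lit 217612864391051590023253761)) (C.cons (nat_lit 176) (C.node (nat_lit 2) (nat_lit 4) (nat_lit 7) (C.cons (nat_lit 404) (C.node (nat_lit 2) (nat_lit 4) (nat_lit 5) (C.cons (nat_lit 118) (C.miq (nat_lit 2722674016) (nat_lit 488476885943122039413999841)) (C.cons (nat_lit 116) (C.miq (nat_lit 2722674016) (nat_lit 488476885943122030824065249))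 (C.cons (nat_lit 54) (C.miq (nat_lit 1649674936) (nat_lit 65288211119608314010275585)) (C.cons (nat_lit 52) (C.miq (nat_lit 1649674936) (nat_lit 62870359480379055660863233)) C.nil))))) (C.cons (nat_lit 212) (C.miq (nat_lit 1415755786) (nat_lit 256349606900913067023208193)) (C.cons (nat_lit 148) (C.node (nat_lit 4) (nat_lit 7) (nat_lit 8) (C.cons (nat_lit 912) (C.node (nat_lit 2) (nat_lit 4) (nat_lit 8) (C.cons (nat_lit 1300) (C.node (nat_lit 3) (nat_lit 4) (nat_lit 8) (C.cons (nat_lit 280) (C.node (nat_lit 7) (nat_lit 8) (nat_lit 10)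
  (C.cons (nat_lit 1472) (C.miq (nat_lit 1487320096) (nat_lit 1779580736584048415730894877)) (C.cons (nat_lit 1440) (C.miq (nat_lit 849873751) (nat_lit 1571610815654075770452576481)) (C.cons (nat_lit 1408) (C.node (nat_lit 3) (nat_lit 8) (nat_lit 10) (C.cons (nat_lit 1354) (C.miq (nat_lit 1487320096) (nat_lit 1636927489869522173115566109)) (C.cons (nat_lit 1352) (C.miq (nat_lit 1487320096) (nat_lit 1634509638230292914766153757)) (C.cons (nat_lit 1290) (C.miq (nat_lit 951427440) (nat_lit 2843413173879159493637506195)) (C.cons (nat_lit 1288) (C.node (nat_lit 2) (nat_lit 7) (nat_lit 10) (C.cons (nat_lit 1164) (C.node (nat_lit 5) (nat_lit 7) (nat_lit 10) (C.cons (nat_lit 1696) (C.miq (nat_lit 1168312690) (nat_lit 1287544311934935912076280453)) (C.cons (nat_lit 1184) (C.node (nat_lit 5) (nat_lit 7) (nat_lit 8) (C.cons (nat_lit 420) (C.node (nat_lit 6) (nat_lit 7) (nat_lit 8) C.nil) C.nil)) C.nil))) (C.cons (nat_lit 1156) (C.node (nat_lit 3) (nat_lit 4) (nat_lit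 7) (C.cons (nat_lit 216) (C.node (nat_lit 3) (nat_lit 4) (nat_lit 9) (C.cons (nat_lit 1560) (C.miq (nat_lit 323094952) (nat_lit 2510943778980494294530658049)) C.nil)) (C.cons (nat_lit 152) (C.node (nat_lit 4) (nat_lit 6) (nat_lit 7) (C.cons (nat_lit 208) (C.node (nat_lit 5) (nat_lit 7) (nat_lit 8) C.nil) C.nil)) C.nil))) C.nil))) C.nil))))) C.nil)))) C.nil)) (C.cons (nat_lit 276) (C.node (nat_lit 2) (nat_lit 4) (nat_lit 5) (C.cons (nat_lit 118) (C.miq (nat_lit 2722674016) (nat_lit 333734381032449505051609313)) (C.cons (nat_lit 116) (C.miq (nat_lit 2722674016) (nat_lit 333734381032449496461674721)) (C.cons (nat_lit 54) (C.miq (nat_lit 1649674936) (nat_lit 65288211119608314010275585)) (C.cons (nat_lit 52) (C.miq (nat_lit 1649674936) (nat_lit 62870359480379055660863233)) C.nil))))) C.nil))) (C.cons (nat_lit 400) (C.node (nat_lit 2) (nat_lit 4) (nat_lit 8) (C.cons (nat_lit 1300) (C.node (nat_lit 7) (nat_lit 8) (nat_lit 10) (C.cons (nat_lit 1472) (C.miq (nat_lit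 1487320096) (nat_lit 1779580736584048415730894877)) (C.cons (nat_lit 1440) (C.miq (nat_lit 849873751) (nat_lit 1571610815654075770452576481)) (C.cons (nat_lit 1408) (C.node (nat_lit 3) (nat_lit 8) (nat_lit 10) (C.cons (nat_lit 1354) (C.miq (nat_lit 1487320096) (nat_lit 1636927489869522173115566109)) (C.cons (nat_lit 1352) (C.miq (nat_lit 1487320096) (nat_lit 1634509638230292914766153757)) (C.cons (nat_lit 1290) (C.miq (nat_lit 951427440) (nat_lit 2843413173879159493637506195)) (C.cons (nat_lit 1288) (C.node (nat_lit 2) (nat_lit 7) (nat_lit 10) (C.cons (nat_lit 1164) (C.node (nat_lit 5) (nat_lit 7) (nat_lit 10) (C.cons (nat_lit 1696) (C.miq (nat_lit 1168312690) (nat_lit 1287544311934935912076280453)) (C.cons (nat_lit 1184) (C.node (nat_lit 1) (nat_lit 2) (nat_lit 10) (C.cons (nat_lit 1542) (C.node (nat_lit 2) (nat_lit 4) (nat_lit 9) (C.cons (nat_lit 596) (C.miq (nat_lit 1380366976) (nat_lit 720561718814428341031997185)) (C.cons (nat_lit 532) (C.node (nat_lit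 2) (nat_lit 9) (nat_lit 11) (C.cons (nat_lit 2628) (C.miq (nat_lit 431465056) (nat_lit 3249614204695479236905993285)) (C.cons (nat_lit 2564) (C.node (nat_lit 3) (nat_lit 4) (nat_lit 8) C.nil) C.nil))) C.nil))) (C.cons (nat_lit 1030) (C.node (nat_lit 2) (nat_lit 9) (nat_lit 10) (C.cons (nat_lit 1540) (C.node (nat_lit 3) (nat_lit 4) (nat_lit 8) (C.cons (nat_lit 792) (C.node (nat_lit 3) (nat_lit 4) (nat_lit 7) (C.cons (nat_lit 216) (C.miq (nat_lit 2474345568) (nat_lit 2640364844205266345362784593)) (C.cons (nat_lit 152) (C.node (nat_lit 4) (nat_lit 6) (nat_lit 7) C.nil) C.nil))) (C.cons (nat_lit 280) (C.node (nat_lit 4) (nat_lit 8) (nat_lit 9) (C.cons (nat_lit 784) (C.node (nat_lit 2) (nat_lit 7) (nat_lit 8) C.nil) C.nil)) C.nil))) C.nil)) C.nil))) C.nil))) (C.cons (nat_lit 1156) (C.node (nat_lit 3) (nat_lit 4) (nat_lit 8) (C.cons (nat_lit 792) (C.node (nat_lit 3) (nat_lit 4) (nat_lit 7) (C.cons (nat_lit 216) (C.miq (nat_lit 2474345568) (nat_lit 2640364844205266345362784593))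 (C.cons (nat_lit 152) (C.node (nat_lit 4) (nat_lit 6) (nat_lit 7) C.nil) C.nil)))
  (C.cons (nat_lit 280) (C.node (nat_lit 4) (nat_lit 8) (nat_lit 9) (C.cons (nat_lit 784) (C.node (nat_lit 2) (nat_lit 7) (nat_lit 8) C.nil) C.nil)) C.nil))) C.nil))) C.nil))))) C.nil)))) (C.cons (nat_lit 788) (C.miq (nat_lit 1411889296) (nat_lit 178962951414277189367303937)) (C.cons (nat_lit 276) (C.node (nat_lit 2) (nat_lit 4) (nat_lit 5) (C.cons (nat_lit 118) (C.miq (nat_lit 2722674016) (nat_lit 333734381032449505051609313)) (C.cons (nat_lit 116) (C.miq (nat_lit 2722674016) (nat_lit 333734381032449496461674721)) (C.cons (nat_lit 54) (C.miq (nat_lit 1649674936) (nat_lit 65288211119608314010275585)) (C.cons (nat_lit 52) (C.miq (nat_lit 1649674936) (nat_lit 62870359480379055660863233)) C.nil))))) C.nil)))) C.nil))) C.nil)))) C.nil))) C.nil)))) C.nil))) (C.cons (nat_lit 3106) (C.miq (nat_lit 1535353200) (nat_lit 2795056141605732884232602771)) (C.cons (nat_lit 3104) (C.node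 (nat_lit 2) (nat_lit 10) (nat_lit 11) (C.cons (nat_lit 3078) (C.node (nat_lit 2) (nat_lit 5) (nat_lit 11) (C.cons (nat_lit 2596) (C.node (nat_lit 2) (nat_lit 6) (nat_lit 11) (C.cons (nat_lit 2116) (C.node (nat_lit 1) (nat_lit 5) (nat_lit 11) (C.cons (nat_lit 2090) (C.node (nat_lit 3) (nat_lit 9) (nat_lit 11) C.nil) C.nil)) C.nil)) (C.cons (nat_lit 2084) (C.node (nat_lit 2) (nat_lit 6) (nat_lit 11) (C.cons (nat_lit 2628) (C.node (nat_lit 4) (nat_lit 9) (nat_lit 11) (C.cons (nat_lit 2578) (C.miq (nat_lit 2516890273) (nat_lit 407455557656072988371651590)) C.nil)) C.nil)) C.nil))) (C.cons (nat_lit 3076) (C.node (nat_lit 1) (nat_lit 7) (nat_lit 9) (C.cons (nat_lit 706) (C.node (nat_lit 3) (nat_lit 9) (nat_lit 11) (C.cons (nat_lit 2632) (C.miq (nat_lit 1133579111) (nat_lit 632289805380396203284498657)) (C.cons (nat_lit 2600) (C.node (nat_lit 1) (nat_lit 3) (nat_lit 11) (C.cons (nat_lit 3146) (C.miq (nat_lit 1410568363) (nat_lit 31480033002484494924123905))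 (C.cons (nat_lit 3082) (C.miq (nat_lit 1410568363) (nat_lit 31480033002484494919929601)) (C.cons (nat_lit 2122) (C.miq (nat_lit 588843879) (nat_lit 632280102393011241627027681)) C.nil)))) (C.cons (nat_lit 2568) (C.node (nat_lit 3) (nat_lit 5) (nat_lit 11) C.nil) C.nil)))) (C.cons (nat_lit 674) (C.node (nat_lit 3) (nat_lit 5) (nat_lit 11) (C.cons (nat_lit 2600) (C.miq (nat_lit 1133579095) (nat_lit 632289805380396065843448033)) (C.cons (nat_lit 2090) (C.miq (nat_lit 588843863) (nat_lit 632280102393011104185977057)) (C.cons (nat_lit 2088) (C.node (nat_lit 1) (nat_lit 5) (nat_lit 11) C.nil) C.nil)))) (C.cons (nat_lit 642) (C.node (nat_lit 1) (nat_lit 6) (nat_lit 7) (C.cons (nat_lit 206) (C.miq (nat_lit 2819754870) (nat_lit 317967653931075876997171425)) (C.cons (nat_lit 202) (C.node (nat_lit 1) (nat_lit 2) (nat_lit 7) (C.cons (nat_lit 166) (C.node (nat_lit 2) (nat_lit 5) (nat_lit 11) (C.cons (nat_lit 2596) (C.miq (nat_lit 448098450) (nat_lit 3752508806572948888941232773))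 (C.cons (nat_lit 2084) (C.node (nat_lit 1) (nat_lit 3) (nat_lit 11) C.nil) C.nil))) (C.cons (nat_lit 134) (C.node (nat_lit 1) (nat_lit 5) (nat_lit 7) (C.cons (nat_lit 162) (C.node (nat_lit 1) (nat_lit 3) (nat_lit 8) (C.cons (nat_lit 1290) (C.miq (nat_lit 1460865930) (nat_lit 244222661984396670061383425)) (C.cons (nat_lit 298) (C.node (nat_lit 1) (nat_lit 2) (nat_lit 3) (C.cons (nat_lit 1038) (C.node (nat_lit 1) (nat_lit 3) (nat_lit 11) C.nil) (C.cons (nat_lit 14) (C.node (nat_lit 1) (nat_lit 3) (nat_lit 10) C.nil) C.nil))) (C.cons (nat_lit 266) (C.node (nat_lit 1) (nat_lit 10) (nat_lit 11) (C.cons (nat_lit 3138) (C.miq (nat_lit 2704848496) (nat_lit 321645122844747823386790113)) (C.cons (nat_lit 3082) (C.node (nat_lit 6) (nat_lit 10) (nat_lit 11) C.nil) (C.cons (nat_lit 3074) (C.node (nat_lit 1) (nat_lit 3) (nat_lit 10) C.nil) C.nil)))) C.nil)))) C.nil)) C.nil))) (C.cons (nat_lit 198) (C.miq (nat_lit 2819754870) (nat_lit 317967653931075876996647137)) (C.cons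 (nat_lit 194) (C.node (nat_lit 1) (nat_lit 3) (nat_lit 7) (C.cons (nat_lit 174) (C.miq (nat_lit 363557640) (nat_lit 3752550643507865587676152201)) (C.cons (nat_lit 170)
  (C.miq (nat_lit 363557640) (nat_lit 3752550643506739687769309577)) (C.cons (nat_lit 142) (C.node (nat_lit 1) (nat_lit 5) (nat_lit 7) (C.cons (nat_lit 162) (C.node (nat_lit 4) (nat_lit 5) (nat_lit 7) (C.cons (nat_lit 184) (C.node (nat_lit 3) (nat_lit 4) (nat_lit 8) (C.cons (nat_lit 1304) (C.miq (nat_lit 1535340708) (nat_lit 2795039889789741333596341395)) (C.cons (nat_lit 792) (C.miq (nat_lit 2489025392) (nat_lit 2843464381900523909274468745)) (C.cons (nat_lit 280) (C.node (nat_lit 4) (nat_lit 8) (nat_lit 9) (C.cons (nat_lit 912) (C.miq (nat_lit 2839873651) (nat_lit 678227031667394770250498441)) (C.cons (nat_lit 788) (C.miq (nat_lit 659853496) (nat_lit 222456887024982973865791233)) (C.cons (nat_lit 784) (C.node (nat_lit 5) (nat_lit 7) (nat_lit 9) (C.cons (nat_lit 1696) (C.miq (nat_lit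 2538317104) (nat_lit 2650036251016636620255069225)) (C.cons (nat_lit 928) (C.miq (nat_lit 609684361) (nat_lit 222454249543652939258662657)) (C.cons (nat_lit 672) (C.node (nat_lit 2) (nat_lit 3) (nat_lit 5) (C.cons (nat_lit 876) (C.miq (nat_lit 2754742102) (nat_lit 2510959089960465348464216289)) (C.cons (nat_lit 812) (C.miq (nat_lit 2171936835) (nat_lit 195860961607790726751979549)) (C.cons (nat_lit 620) (C.miq (nat_lit 2754742102) (nat_lit 2510959089960465348447439073)) (C.cons (nat_lit 556) (C.miq (nat_lit 1393857136) (nat_lit 31442420089906406614041221)) (C.cons (nat_lit 364) (C.miq (nat_lit 2754742102) (nat_lit 2510959089960465348430661857)) (C.cons (nat_lit 300) (C.miq (nat_lit 2171936835) (nat_lit 195851516874824987461552157)) (C.cons (nat_lit 108) (C.miq (nat_lit 2754742102) (nat_lit 2510959089960465348413884641)) (C.cons (nat_lit 44) (C.node (nat_lit 4) (nat_lit 7) (nat_lit 8) (C.cons (nat_lit 404) (C.node (nat_lit 2) (nat_lit 6) (nat_lit 7) C.nil)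 (C.cons (nat_lit 400) (C.node (nat_lit 2) (nat_lit 4) (nat_lit 7) C.nil) C.nil))) C.nil))))))))) C.nil)))) C.nil)))) C.nil)))) (C.cons (nat_lit 180) (C.miq (nat_lit 1461273136) (nat_lit 776140724866683386947373085)) (C.cons (nat_lit 176) (C.node (nat_lit 3) (nat_lit 4) (nat_lit 5) (C.cons (nat_lit 120) (C.node (nat_lit 3) (nat_lit 4) (nat_lit 8) (C.cons (nat_lit 1304) (C.miq (nat_lit 3091597877) (nat_lit 407449931740560559877653545)) (C.cons (nat_lit 792) (C.miq (nat_lit 1803767956) (nat_lit 2795038709198120616151482929)) (C.cons (nat_lit 280) (C.node (nat_lit 4) (nat_lit 8) (nat_lit 10) (C.cons (nat_lit 1300) (C.miq (nat_lit 643080376) (nat_lit 145095079428713235541397249)) (C.cons (nat_lit 1296) (C.node (nat_lit 1) (nat_lit 4) (nat_lit 5) (C.cons (nat_lit 54) (C.node (nat_lit 4) (nat_lit 5) (nat_lit 10) (C.cons (nat_lit 1072) (C.node (nat_lit 2) (nat_lit 5) (nat_lit 11) (C.cons (nat_lit 2596) (C.miq (nat_lit 447889557) (nat_lit 3718656817588403016579678769))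 (C.cons (nat_lit 2084) (C.node (nat_lit 1) (nat_lit 5) (nat_lit 11) C.nil) C.nil))) C.nil)) (C.cons (nat_lit 50) (C.node (nat_lit 2) (nat_lit 4) (nat_lit 5) (C.cons (nat_lit 1076) (C.node (nat_lit 1) (nat_lit 2) (nat_lit 4) (C.cons (nat_lit 598) (C.miq (nat_lit 1635271216) (nat_lit 2942531661663082897337813021)) (C.cons (nat_lit 534) (C.miq (nat_lit 2735886484) (nat_lit 171687315381673750785557041)) (C.cons (nat_lit 86) (C.miq (nat_lit 1635271216) (nat_lit 2942531661518967709261957149)) (C.cons (nat_lit 22) (C.node (nat_lit 1) (nat_lit 2) (nat_lit 10) C.nil) C.nil))))) (C.cons (nat_lit 52) (C.node (nat_lit 4) (nat_lit 5) (nat_lit 10) (C.cons (nat_lit 1072) (C.node (nat_lit 1) (nat_lit 2) (nat_lit 4) (C.cons (nat_lit 598) (C.miq (nat_lit 1635271216) (nat_lit 2942531661663082897337813021)) (C.cons (nat_lit 22) (C.node (nat_lit 2) (nat_lit 4) (nat_lit 10) C.nil) C.nil))) C.nil)) C.nil))) C.nil))) C.nil))) C.nil)))) (C.cons (nat_lit 56) (C.node (nat_lit 3)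 (nat_lit 5) (nat_lit 7) (C.cons (nat_lit 680) (C.node (nat_lit 3) (nat_lit 4) (nat_lit 7) (C.cons (nat_lit 216) (C.miq (nat_lit 1729643296) (nat_lit 2942531661555559456225822749)) (C.cons (nat_lit 152) (C.node (nat_lit 3) (nat_lit 6) (nat_lit 7) C.nil) C.nil))) (C.cons (nat_lit 168)
  (C.node (nat_lit 5) (nat_lit 7) (nat_lit 9) (C.cons (nat_lit 1696) (C.node (nat_lit 2) (nat_lit 5) (nat_lit 7) C.nil) (C.cons (nat_lit 928) (C.miq (nat_lit 609684361) (nat_lit 212782842986735905861013249)) (C.cons (nat_lit 672) (C.node (nat_lit 2) (nat_lit 4) (nat_lit 7) C.nil) C.nil)))) C.nil))) C.nil))) C.nil)))) C.nil)) (C.cons (nat_lit 138) (C.node (nat_lit 1) (nat_lit 2) (nat_lit 7) (C.cons (nat_lit 166) (C.node (nat_lit 2) (nat_lit 5) (nat_lit 11) (C.cons (nat_lit 2596) (C.miq (nat_lit 448098450) (nat_lit 3752508806572948888941232773)) (C.cons (nat_lit 2084) (C.node (nat_lit 1) (nat_lit 5) (nat_lit 11) C.nil) C.nil))) (C.cons (nat_lit 134) (C.node (nat_lit 1) (nat_lit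 5) (nat_lit 7) (C.cons (nat_lit 162) (C.node (nat_lit 1) (nat_lit 4) (nat_lit 5) (C.cons (nat_lit 118) (C.miq (nat_lit 716529796) (nat_lit 3752507921107278302683332945)) (C.cons (nat_lit 114) (C.node (nat_lit 1) (nat_lit 2) (nat_lit 4) C.nil) (C.cons (nat_lit 54) (C.node (nat_lit 1) (nat_lit 2) (nat_lit 3) C.nil) C.nil)))) C.nil)) C.nil))) C.nil))))) C.nil))))) C.nil)))) C.nil))) C.nil))))) C.nil))))) C.nil))))) C.nil)))) List.nil)

theorem ok12_296 : okL par12 (nat_lit 297) c12_296 (nat_lit 296) = true := by decide +kernel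

noncomputable def c12_297 : List C :=
  (List.cons (C.node (nat_lit 1) (nat_lit 7) (nat_lit 9) (C.cons (nat_lit 706) (C.node (nat_lit 1) (nat_lit 4) (nat_lit 9) (C.cons (nat_lit 534) (C.miq (nat_lit 1368896544) (nat_lit 853543558687744533847148573)) (C.cons (nat_lit 530) (C.node (nat_lit 6) (nat_lit 9) (nat_lit 11) (C.cons (nat_lit 2632) (C.miq (nat_lit 957658736) (nat_lit 640768999024039728359082209)) (C.cons (nat_lit 2628) (C.miq (nat_lit 689223280) (nat_lit 640768999022913828452239585)) (C.cons (nat_lit 2624) (C.node (nat_lit 1) (nat_lit 9) (nat_lit 11) C.nil) C.nil)))) C.nil))) (C.cons (nat_lit 674) (C.miq (nat_lit 656083284) (nat_lit 2942563759011002760897364529)) (C.cons (nat_lit 642) (C.node (nat_lit 2) (nat_lit 5) (nat_lit 11) (C.cons (nat_lit 2596) (C.miq (nat_lit 1500623364) (nat_lit 776169078192370382672168989)) (C.cons (nat_lit 2340) (C.node (nat_lit 3) (nat_lit 5) (nat_lit 11) (C.cons (nat_lit 2600) (C.node (nat_lit 3) (nat_lit 8) (nat_lit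 11) (C.cons (nat_lit 2376) (C.node (nat_lit 1) (nat_lit 3) (nat_lit 11) C.nil) C.nil)) C.nil)) (C.cons (nat_lit 2084) (C.node (nat_lit 2) (nat_lit 8) (nat_lit 11) C.nil) C.nil)))) C.nil)))) (List.cons (C.node (nat_lit 2) (nat_lit 8) (nat_lit 11) (C.cons (nat_lit 2372) (C.miq (nat_lit 2709653430) (nat_lit 317967653179537689321670881)) (C.cons (nat_lit 2340) (C.node (nat_lit 5) (nat_lit 10) (nat_lit 11) (C.cons (nat_lit 3106) (C.miq (nat_lit 901253655) (nat_lit 2828893667768437427191022739)) (C.cons (nat_lit 3104) (C.node (nat_lit 2) (nat_lit 10) (nat_lit 11) (C.cons (nat_lit 3078) (C.node (nat_lit 1) (nat_lit 2) (nat_lit 7) (C.cons (nat_lit 206) (C.miq (nat_lit 2167060320) (nat_lit 3721144527402926696281999585)) (C.cons (nat_lit 198) (C.miq (nat_lit 2167060320) (nat_lit 3721144527402926661922261217)) (C.cons (nat_lit 174) (C.miq (nat_lit 2182788464) (nat_lit 3721144527376467911037356257)) (C.cons (nat_lit 166) (C.miq (nat_lit 2182788464) (nat_lit 3721144527376467876677617889))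 (C.cons (nat_lit 142) (C.miq (nat_lit 2709041712) (nat_lit 2942596299752375117849102365)) (C.cons (nat_lit 134) (C.node (nat_lit 1) (nat_lit 8) (nat_lit 10) (C.cons (nat_lit 1378) (C.miq (nat_lit 1209730722) (nat_lit 2942563758924311491791684677)) (C.cons (nat_lit 1354) (C.miq (nat_lit 951427440) (nat_lit 2828906064061798342050514067)) (C.cons (nat_lit 1346) (C.miq (nat_lit 1209730722) (nat_lit 2942563758924311354352731205)) (C.cons (nat_lit 1314) (C.miq (nat_lit 1264190081) (nat_lit 3752527345805752849110532359)) (C.cons (nat_lit 1290) (C.miq (nat_lit 951427440) (nat_lit 2828906064043783943541032083)) (C.cons (nat_lit 1282) (C.node (nat_lit 1) (nat_lit 3) (nat_lit 10) (C.cons (nat_lit 1098) (C.node (nat_lit 3) (nat_lit 10) (nat_lit 11) (C.cons (nat_lit 3080) (C.node (nat_lit 6) (nat_lit 10) (nat_lit 11) (C.cons (nat_lit 3136) (C.node (nat_lit 1) (nat_lit 3) (nat_lit 11) (C.cons (nat_lit 2090) (C.node (nat_lit 5) (nat_lit 9) (nat_lit 11) C.nil) C.nil))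 C.nil)) C.nil)) (C.cons (nat_lit 1034) (C.node (nat_lit 2) (nat_lit 6) (nat_lit 11) (C.cons (nat_lit 2628) (C.node (nat_lit 4) (nat_lit 9) (nat_lit 11) (C.cons (nat_lit 2578) (C.miq (nat_lit 2516890273) (nat_lit 407455557656072988371651590)) (C.cons (nat_lit 2576) (C.node (nat_lit 1) (nat_lit 4) (nat_lit 11) (C.cons (nat_lit 2130) (C.node (nat_lit 1) (nat_lit 3) (nat_lit 11) (C.cons (nat_lit 2058) (C.node (nat_lit 1) (nat_lit 5) (nat_lit 11) C.nil) C.nil)) (C.cons (nat_lit 2066) (C.node (nat_lit 4) (nat_lit 6) (nat_lit 11) C.nil) C.nil))) C.nil))) (C.cons (nat_lit 2116) (C.node (nat_lit 2) (nat_lit 9) (nat_lit 11) (C.cons (nat_lit 2564) (C.node (nat_lit 3) (nat_lit 8) (nat_lit 11) (C.cons (nat_lit 2376) (C.node (nat_lit 3) (nat_lit 10) (nat_lit 11) C.nil) C.nil)) C.nil)) C.nil))) C.nil))) C.nil))))))) C.nil))))))) (C.cons (nat_lit 3076) (C.node (nat_lit 3) (nat_lit 8) (nat_lit 11) (C.cons (nat_lit 2376) (C.node (nat_lit 6) (nat_lit 10) (nat_lit 11) (C.cons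 (nat_lit 3138) (C.miq (nat_lit 1661646961) (nat_lit 1287563884441269604298459522)) (C.cons (nat_lit 3136)
  (C.node (nat_lit 1) (nat_lit 10) (nat_lit 11) (C.cons (nat_lit 3082) (C.node (nat_lit 3) (nat_lit 5) (nat_lit 11) (C.cons (nat_lit 2600) (C.miq (nat_lit 1537512208) (nat_lit 3733173280325248419164783115)) C.nil)) C.nil)) C.nil))) (C.cons (nat_lit 2312) (C.node (nat_lit 6) (nat_lit 8) (nat_lit 11) (C.cons (nat_lit 2368) (C.node (nat_lit 1) (nat_lit 5) (nat_lit 11) C.nil) C.nil)) C.nil))) C.nil))) C.nil))) (C.cons (nat_lit 2308) (C.node (nat_lit 5) (nat_lit 8) (nat_lit 11) (C.cons (nat_lit 2344) (C.node (nat_lit 6) (nat_lit 8) (nat_lit 11) (C.cons (nat_lit 2368) (C.node (nat_lit 3) (nat_lit 9) (nat_lit 11) (C.cons (nat_lit 2632) (C.node (nat_lit 1) (nat_lit 3) (nat_lit 11) (C.cons (nat_lit 3082) (C.miq (nat_lit 2208412935) (nat_lit 3725954276087144445119760609)) (C.cons (nat_lit 2058) (C.node (nat_lit 3) (nat_lit 10) (nat_lit 11) C.nil) C.nil))) (C.cons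 (nat_lit 2568) (C.node (nat_lit 1) (nat_lit 4) (nat_lit 8) (C.cons (nat_lit 786) (C.miq (nat_lit 1460931465) (nat_lit 1415662484031959190704623361)) (C.cons (nat_lit 306) (C.node (nat_lit 1) (nat_lit 3) (nat_lit 4) (C.cons (nat_lit 90) (C.node (nat_lit 1) (nat_lit 3) (nat_lit 8) (C.cons (nat_lit 1290) (C.node (nat_lit 1) (nat_lit 3) (nat_lit 11) (C.cons (nat_lit 2058) (C.node (nat_lit 1) (nat_lit 4) (nat_lit 11) C.nil) C.nil)) (C.cons (nat_lit 266) (C.miq (nat_lit 2709718965) (nat_lit 321593914129547512976509153)) C.nil))) (C.cons (nat_lit 26) (C.node (nat_lit 1) (nat_lit 8) (nat_lit 9) (C.cons (nat_lit 834) (C.node (nat_lit 1) (nat_lit 3) (nat_lit 8) (C.cons (nat_lit 1290) (C.node (nat_lit 1) (nat_lit 7) (nat_lit 9) (C.cons (nat_lit 674) (C.miq (nat_lit 896639160) (nat_lit 814839799019895761890578177)) (C.cons (nat_lit 642) (C.node (nat_lit 1) (nat_lit 6) (nat_lit 10) (C.cons (nat_lit 3138) (C.miq (nat_lit 1528432515) (nat_lit 3793628868372947926998712713))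 (C.cons (nat_lit 1122) (C.miq (nat_lit 2980411440) (nat_lit 1356456699742009109722497417)) (C.cons (nat_lit 1090) (C.node (nat_lit 1) (nat_lit 6) (nat_lit 7) (C.cons (nat_lit 206) (C.miq (nat_lit 1460865930) (nat_lit 249058365262855186760208129)) (C.cons (nat_lit 202) (C.miq (nat_lit 1460865930) (nat_lit 244222661984396670061383425)) (C.cons (nat_lit 198) (C.miq (nat_lit 2819754870) (nat_lit 317967653931075876996647137)) (C.cons (nat_lit 194) (C.node (nat_lit 1) (nat_lit 3) (nat_lit 11) (C.cons (nat_lit 2122) (C.node (nat_lit 3) (nat_lit 10) (nat_lit 11) C.nil) (C.cons (nat_lit 2058) (C.node (nat_lit 3) (nat_lit 6) (nat_lit 11) C.nil) C.nil))) C.nil))))) C.nil)))) C.nil))) (C.cons (nat_lit 266) (C.miq (nat_lit 2709718965) (nat_lit 321593914129547512976509153)) C.nil))) (C.cons (nat_lit 770) (C.node (nat_lit 3) (nat_lit 4) (nat_lit 5) (C.cons (nat_lit 184) (C.miq (nat_lit 2874411063) (nat_lit 2533930120130728517030117769)) (C.cons (nat_lit 120) (C.node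 (nat_lit 3) (nat_lit 4) (nat_lit 8) (C.cons (nat_lit 1304) (C.miq (nat_lit 1966345098) (nat_lit 145092700130868504401809153)) (C.cons (nat_lit 792) (C.miq (nat_lit 1803767956) (nat_lit 2833724335425788749742080561)) (C.cons (nat_lit 280) (C.node (nat_lit 1) (nat_lit 3) (nat_lit 8) (C.cons (nat_lit 1354) (C.miq (nat_lit 2556693045) (nat_lit 407418350914706583873651753)) (C.cons (nat_lit 1290) (C.node (nat_lit 1) (nat_lit 6) (nat_lit 8) (C.cons (nat_lit 322) (C.node (nat_lit 1) (nat_lit 3) (nat_lit 5) (C.cons (nat_lit 174) (C.miq (nat_lit 1696088864) (nat_lit 369937517388607112125810717)) (C.cons (nat_lit 170) (C.node (nat_lit 1) (nat_lit 2) (nat_lit 7) (C.cons (nat_lit 198) (C.miq (nat_lit 557475664) (nat_lit 1559534469649876975513831649)) (C.cons (nat_lit 134) (C.node (nat_lit 2) (nat_lit 10) (nat_lit 11) (C.cons (nat_lit 3110) (C.miq (nat_lit 2789548161) (nat_lit 145128468035478334639046919)) (C.cons (nat_lit 3108) (C.miq (nat_lit 363557640) (nat_lit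 3757386346785198204468134281)) (C.cons (nat_lit 3078) (C.miq (nat_lit 1521561735) (nat_lit 3721076809020108477695132041)) (C.cons (nat_lit 3076) (C.node (nat_lit 1) (nat_lit 3) (nat_lit 11) C.nil) C.nil))))) C.nil)))
  (C.cons (nat_lit 46) (C.miq (nat_lit 1899346080) (nat_lit 55652517836668117738655489)) (C.cons (nat_lit 42) (C.miq (nat_lit 1899346080) (nat_lit 50816814558209601039830785)) C.nil))))) C.nil)) (C.cons (nat_lit 330) (C.miq (nat_lit 2709718965) (nat_lit 398965166584883780157704417)) (C.cons (nat_lit 266) (C.miq (nat_lit 2709718965) (nat_lit 321593914129547512976509153)) C.nil))))) C.nil)))) (C.cons (nat_lit 56) (C.node (nat_lit 4) (nat_lit 5) (nat_lit 7) (C.cons (nat_lit 180) (C.node (nat_lit 2) (nat_lit 4) (nat_lit 8) (C.cons (nat_lit 1300) (C.miq (nat_lit 1535275172) (nat_lit 2790204112724306522059048083)) (C.cons (nat_lit 788) (C.miq (nat_lit 2220593776) (nat_lit 2533979372078052923462976133)) (C.cons (nat_lit 276) (C.node (nat_lit 2)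 (nat_lit 4) (nat_lit 10) (C.cons (nat_lit 1556) (C.miq (nat_lit 2757464688) (nat_lit 2533979372294225705576759941)) (C.cons (nat_lit 1044) (C.node (nat_lit 4) (nat_lit 8) (nat_lit 10) (C.cons (nat_lit 1304) (C.miq (nat_lit 1966345098) (nat_lit 67721447675532237220613889)) (C.cons (nat_lit 1296) (C.node (nat_lit 5) (nat_lit 7) (nat_lit 8) (C.cons (nat_lit 1440) (C.miq (nat_lit 896841888) (nat_lit 217644962077857876425248513)) (C.cons (nat_lit 928) (C.miq (nat_lit 896710800) (nat_lit 217644962077855677367521025)) (C.cons (nat_lit 416) (C.node (nat_lit 5) (nat_lit 7) (nat_lit 10) (C.cons (nat_lit 1696) (C.miq (nat_lit 2773194528) (nat_lit 2533979372333632202303406725)) (C.cons (nat_lit 1184) (C.node (nat_lit 5) (nat_lit 9) (nat_lit 11) (C.cons (nat_lit 2598) (C.miq (nat_lit 925204635) (nat_lit 217649886809364462907559681)) (C.cons (nat_lit 2596) (C.miq (nat_lit 925204635) (nat_lit 217649886809364462907428609)) (C.cons (nat_lit 2594) (C.miq (nat_lit 2712995715)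 (nat_lit 3135973222192404231692485001)) (C.cons (nat_lit 2592) (C.node (nat_lit 1) (nat_lit 3) (nat_lit 11) (C.cons (nat_lit 3146) (C.miq (nat_lit 2208412935) (nat_lit 3803325528542480712300955873)) C.nil)) C.nil))))) C.nil))) C.nil)))) C.nil))) C.nil))) C.nil)))) (C.cons (nat_lit 176) (C.node (nat_lit 3) (nat_lit 4) (nat_lit 8) (C.cons (nat_lit 1304) (C.miq (nat_lit 1966345098) (nat_lit 67721447675532237220613889)) (C.cons (nat_lit 792) (C.node (nat_lit 3) (nat_lit 4) (nat_lit 7) (C.cons (nat_lit 216) (C.miq (nat_lit 2474345568) (nat_lit 2640364844205266345362784593)) (C.cons (nat_lit 152) (C.node (nat_lit 7) (nat_lit 8) (nat_lit 9) (C.cons (nat_lit 960) (C.miq (nat_lit 2033936448) (nat_lit 3104563434489866641848729937)) (C.cons (nat_lit 928) (C.miq (nat_lit 596183895) (nat_lit 957481147869347443120277729)) (C.cons (nat_lit 896) (C.node (nat_lit 5) (nat_lit 8) (nat_lit 9) (C.cons (nat_lit 868) (C.miq (nat_lit 2504468496) (nat_lit 212782842646423871530664199))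 (C.cons (nat_lit 864) (C.miq (nat_lit 1748719936) (nat_lit 2833764050869168108950323761)) (C.cons (nat_lit 804) (C.miq (nat_lit 2504468496) (nat_lit 212782842628409473021182215)) (C.cons (nat_lit 800) (C.node (nat_lit 5) (nat_lit 9) (nat_lit 11) (C.cons (nat_lit 2598) (C.miq (nat_lit 2019099570) (nat_lit 967152553952260615846627357)) (C.cons (nat_lit 2596) (C.miq (nat_lit 2019099570) (nat_lit 967152553952260615846496285)) (C.cons (nat_lit 2594) (C.miq (nat_lit 2712995715) (nat_lit 3135973222192404231692485001)) (C.cons (nat_lit 2592) (C.node (nat_lit 1) (nat_lit 3) (nat_lit 11) (C.cons (nat_lit 3146) (C.miq (nat_lit 2208412935) (nat_lit 3803325528542480712300955873)) C.nil)) C.nil))))) C.nil))))) C.nil)))) C.nil))) (C.cons (nat_lit 280) (C.node (nat_lit 4) (nat_lit 8) (nat_lit 10) (C.cons (nat_lit 1300) (C.node (nat_lit 2) (nat_lit 4) (nat_lit 5) (C.cons (nat_lit 116) (C.miq (nat_lit 2220597856) (nat_lit 2533979372222167836660925509)) (C.cons (nat_lit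 52) (C.node (nat_lit 2) (nat_lit 4) (nat_lit 7) (C.cons (nat_lit 212) (C.miq (nat_lit 1803710628) (nat_lit 2790204703020116880764699795)) (C.cons (nat_lit 148) (C.node (nat_lit 4) (nat_lit 5) (nat_lit 6) (C.cons (nat_lit 1136) (C.miq (nat_lit 1695589506) (nat_lit 42332566297541473475167508)) (C.cons (nat_lit 112)
  (C.node (nat_lit 4) (nat_lit 5) (nat_lit 10) C.nil) C.nil))) C.nil))) C.nil))) (C.cons (nat_lit 1296) (C.node (nat_lit 1) (nat_lit 3) (nat_lit 8) (C.cons (nat_lit 1354) (C.node (nat_lit 1) (nat_lit 3) (nat_lit 11) (C.cons (nat_lit 2058) (C.node (nat_lit 3) (nat_lit 6) (nat_lit 11) C.nil) C.nil)) (C.cons (nat_lit 1290) (C.node (nat_lit 1) (nat_lit 6) (nat_lit 8) (C.cons (nat_lit 322) (C.node (nat_lit 1) (nat_lit 3) (nat_lit 11) (C.cons (nat_lit 2122) (C.node (nat_lit 3) (nat_lit 10) (nat_lit 11) C.nil) (C.cons (nat_lit 2058) (C.node (nat_lit 3) (nat_lit 6) (nat_lit 11) C.nil) C.nil))) C.nil)) (C.cons (nat_lit 330) (C.miq (nat_lit 2709718965)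 (nat_lit 398965166584883780157704417)) (C.cons (nat_lit 266) (C.miq (nat_lit 2709718965) (nat_lit 321593914129547512976509153)) C.nil))))) C.nil))) C.nil)))) C.nil))) C.nil)))) C.nil))) C.nil))) (C.cons (nat_lit 282) (C.miq (nat_lit 2709718965) (nat_lit 340936727243381579771807969)) (C.cons (nat_lit 274) (C.node (nat_lit 3) (nat_lit 4) (nat_lit 8) (C.cons (nat_lit 1304) (C.miq (nat_lit 406485840) (nat_lit 1576460870599906918488672481)) (C.cons (nat_lit 792) (C.node (nat_lit 3) (nat_lit 4) (nat_lit 7) (C.cons (nat_lit 216) (C.miq (nat_lit 2474345568) (nat_lit 2640364844205266345362784593)) (C.cons (nat_lit 184) (C.miq (nat_lit 2821983063) (nat_lit 957490851353252073213266145)) (C.cons (nat_lit 152) (C.node (nat_lit 7) (nat_lit 8) (nat_lit 9) (C.cons (nat_lit 960) (C.miq (nat_lit 2033936448) (nat_lit 3104563434489866641848729937)) (C.cons (nat_lit 928) (C.miq (nat_lit 596183895) (nat_lit 957481147869347443120277729)) (C.cons (nat_lit 896) (C.node (nat_lit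 5) (nat_lit 9) (nat_lit 11) (C.cons (nat_lit 2598) (C.miq (nat_lit 1501082115) (nat_lit 1083240774274091275499669533)) (C.cons (nat_lit 2596) (C.miq (nat_lit 1501082115) (nat_lit 1083240774273528325546248221)) (C.cons (nat_lit 2594) (C.miq (nat_lit 2712995715) (nat_lit 3135973222192404231692485001)) (C.cons (nat_lit 2592) (C.node (nat_lit 1) (nat_lit 3) (nat_lit 11) (C.cons (nat_lit 3146) (C.miq (nat_lit 2208412935) (nat_lit 3803325528542480712300955873)) C.nil)) C.nil))))) C.nil)))) C.nil)))) (C.cons (nat_lit 280) (C.node (nat_lit 1) (nat_lit 3) (nat_lit 8) (C.cons (nat_lit 1354) (C.node (nat_lit 1) (nat_lit 3) (nat_lit 11) (C.cons (nat_lit 2058) (C.node (nat_lit 3) (nat_lit 6) (nat_lit 11) C.nil) C.nil)) (C.cons (nat_lit 1290) (C.node (nat_lit 1) (nat_lit 3) (nat_lit 11) (C.cons (nat_lit 2122) (C.node (nat_lit 3) (nat_lit 10) (nat_lit 11) C.nil) (C.cons (nat_lit 2058) (C.node (nat_lit 3) (nat_lit 6) (nat_lit 11) C.nil) C.nil))) (C.cons (nat_lit 330)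 (C.miq (nat_lit 2709718965) (nat_lit 398965166584883780157704417)) (C.cons (nat_lit 266) (C.miq (nat_lit 2709718965) (nat_lit 321593914129547512976509153)) C.nil))))) C.nil)))) C.nil))))) C.nil))) C.nil)) (C.cons (nat_lit 2336) (C.node (nat_lit 3) (nat_lit 8) (nat_lit 11) (C.cons (nat_lit 2376) (C.node (nat_lit 6) (nat_lit 10) (nat_lit 11) (C.cons (nat_lit 3138) (C.miq (nat_lit 1661646961) (nat_lit 1287563884441269604298459522)) (C.cons (nat_lit 3136) (C.node (nat_lit 3) (nat_lit 9) (nat_lit 11) (C.cons (nat_lit 2600) (C.node (nat_lit 1) (nat_lit 3) (nat_lit 11) (C.cons (nat_lit 3082) (C.miq (nat_lit 1537512208) (nat_lit 3733173280325248419164783115)) C.nil)) (C.cons (nat_lit 2568) (C.node (nat_lit 3) (nat_lit 5) (nat_lit 11) C.nil) C.nil))) C.nil))) (C.cons (nat_lit 2312) (C.node (nat_lit 6) (nat_lit 8) (nat_lit 11) (C.cons (nat_lit 2368) (C.node (nat_lit 5) (nat_lit 10) (nat_lit 11) (C.cons (nat_lit 3110) (C.miq (nat_lit 1535353200) (nat_lit 2795056141606858784139445395))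 (C.cons (nat_lit 3108) (C.node (nat_lit 1) (nat_lit 5) (nat_lit 11) C.nil) (C.cons (nat_lit 3106) (C.miq (nat_lit 1535353200) (nat_lit 2795056141605732884232602771)) (C.cons (nat_lit 3104) (C.node (nat_lit 2) (nat_lit 10) (nat_lit 11) C.nil) C.nil))))) C.nil)) C.nil))) C.nil))) C.nil)))) List.nil))

theorem ok12_297 : okL par12 (nat_lit 299) c12_297 (nat_lit 297) = true := by decide +kernel

noncomputable def c12_299 : List C :=
  (List.cons (C.node (nat_lit 2) (nat_lit 7) (nat_lit 11) (C.cons (nat_lit 3204) (C.node (nat_lit 3) (nat_lit 7) (nat_lit 11) (C.cons (nat_lit 2696) (C.node (nat_lit 7) (nat_lit 9) (nat_lit 10) (C.cons (nat_lit 1728) (C.miq (nat_lit 962639778) (nat_lit 697588512563946087531220100)) (C.cons (nat_lit 1696) (C.miq (nat_lit 1521784608) (nat_lit 3733173280070795564263735941)) (C.cons (nat_lit 1664) (C.node (nat_lit 3) (nat_lit 10) (nat_lit 11) (C.cons (nat_lit 3146) (C.miq (nat_lit 444152608) (nat_lit 2011662212371427534655784989))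 (C.cons (nat_lit 3144) (C.miq (nat_lit 1670425458) (nat_lit 632288366834692528963652740)) (C.cons (nat_lit 3082) (C.miq (nat_lit 444152608) (nat_lit 2011662212353413136146303005)) (C.cons (nat_lit 3080) (C.ref (nat_lit 284) (nat_lit 205099542782736)) C.nil))))) C.nil)))) (C.cons (nat_lit 2184) (C.node (nat_lit 7) (nat_lit 9) (nat_lit 11) (C.cons (nat_lit 2688) (C.ref (nat_lit 295) (nat_lit 205163983024656)) C.nil)) C.nil))) (C.cons (nat_lit 2180) (C.node (nat_lit 4) (nat_lit 8) (nat_lit 11) (C.cons (nat_lit 2352) (C.node (nat_lit 2) (nat_lit 8) (nat_lit 11) (C.cons (nat_lit 2372) (C.miq (nat_lit 2709653430) (nat_lit 317967653179537689321670881)) (C.cons (nat_lit 2308) (C.node (nat_lit 3) (nat_lit 8) (nat_lit 11) (C.cons (nat_lit 2376) (C.node (nat_lit 6) (nat_lit 10) (nat_lit 11) (C.cons (nat_lit 3138) (C.miq (nat_lit 1661646961) (nat_lit 1287563884441269604298459522)) (C.cons (nat_lit 3136) (C.node (nat_lit 7) (nat_lit 10) (nat_lit 11) (C.cons (nat_lit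 3208) (C.miq (nat_lit 1805943664) (nat_lit 3733169148191526054607913353)) (C.cons (nat_lit 3200) (C.node (nat_lit 1) (nat_lit 4) (nat_lit 8) (C.cons (nat_lit 786) (C.miq (nat_lit 1460931465) (nat_lit 1415662484031959190704623361)) (C.cons (nat_lit 282) (C.miq (nat_lit 1746383680) (nat_lit 2942567375060072708967696413)) (C.cons (nat_lit 274) (C.node (nat_lit 3) (nat_lit 4) (nat_lit 8) (C.cons (nat_lit 1304) (C.miq (nat_lit 981173254) (nat_lit 3868606452597780892140765521)) (C.cons (nat_lit 792) (C.miq (nat_lit 906595156) (nat_lit 697564808407741718932293936)) (C.cons (nat_lit 280) (C.node (nat_lit 3) (nat_lit 7) (nat_lit 11) (C.cons (nat_lit 2696) (C.node (nat_lit 4) (nat_lit 6) (nat_lit 11) (C.cons (nat_lit 2642) (C.miq (nat_lit 2491659783) (nat_lit 338548962657777225768175841)) (C.cons (nat_lit 2640) (C.miq (nat_lit 2491659783) (nat_lit 338548962657214275814754529)) (C.cons (nat_lit 2130) (C.miq (nat_lit 1752281860) (nat_lit 2942564737175670645243185181))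 (C.cons (nat_lit 2128) (C.node (nat_lit 1) (nat_lit 4) (nat_lit 11) (C.cons (nat_lit 2578) (C.node (nat_lit 3) (nat_lit 10) (nat_lit 11) (C.cons (nat_lit 3082) (C.miq (nat_lit 1404635668) (nat_lit 3259274358604249693521314963)) (C.cons (nat_lit 3080) (C.node (nat_lit 6) (nat_lit 9) (nat_lit 11) (C.cons (nat_lit 2628) (C.miq (nat_lit 1644738931) (nat_lit 317991320762285615917632136)) (C.cons (nat_lit 2624) (C.node (nat_lit 1) (nat_lit 3) (nat_lit 4) (C.cons (nat_lit 122) (C.miq (nat_lit 2553547621) (nat_lit 338509579196677110372108513)) (C.cons (nat_lit 90) (C.miq (nat_lit 447955078) (nat_lit 3723493184949648186807943505)) (C.cons (nat_lit 58) (C.miq (nat_lit 329991433) (nat_lit 3723539080135610004360200753)) (C.cons (nat_lit 26) (C.node (nat_lit 1) (nat_lit 3) (nat_lit 11) (C.cons (nat_lit 2090) (C.node (nat_lit 1) (nat_lit 6) (nat_lit 11) (C.cons (nat_lit 2118) (C.node (nat_lit 1) (nat_lit 10) (nat_lit 11) C.nil) C.nil)) (C.cons (nat_lit 2058) (C.node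 (nat_lit 3) (nat_lit 5) (nat_lit 11) (C.cons (nat_lit 2088) (C.node (nat_lit 1) (nat_lit 6) (nat_lit 11) C.nil) C.nil)) C.nil))) C.nil))))) C.nil))) C.nil))) (C.cons (nat_lit 2066) (C.node (nat_lit 4) (nat_lit 9) (nat_lit 11) (C.cons (nat_lit 2576) (C.node (nat_lit 3) (nat_lit 5) (nat_lit 11) (C.cons (nat_lit 2090) (C.node (nat_lit 3) (nat_lit 10) (nat_lit 11) (C.cons (nat_lit 3080) (C.node (nat_lit 1) (nat_lit 10) (nat_lit 11) (C.cons (nat_lit 3074) (C.node (nat_lit 2) (nat_lit 10) (nat_lit 11) C.nil) C.nil)) C.nil)) (C.cons (nat_lit 2088)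
  (C.node (nat_lit 1) (nat_lit 3) (nat_lit 11) (C.cons (nat_lit 3082) (C.node (nat_lit 2) (nat_lit 10) (nat_lit 11) (C.cons (nat_lit 3076) (C.node (nat_lit 5) (nat_lit 10) (nat_lit 11) C.nil) C.nil)) (C.cons (nat_lit 2058) (C.node (nat_lit 3) (nat_lit 10) (nat_lit 11) C.nil) C.nil))) C.nil))) C.nil)) C.nil))) C.nil))))) (C.cons (nat_lit 2184) (C.node (nat_lit 7) (nat_lit 9) (nat_lit 11) (C.cons (nat_lit 2688) (C.node (nat_lit 3) (nat_lit 9) (nat_lit 11) (C.cons (nat_lit 2600) (C.miq (nat_lit 2491633771) (nat_lit 338547191184596723246303457)) (C.cons (nat_lit 2568) (C.node (nat_lit 3) (nat_lit 5) (nat_lit 11) (C.cons (nat_lit 2090) (C.node (nat_lit 3) (nat_lit 10) (nat_lit 11) (C.cons (nat_lit 3080) (C.node (nat_lit 1) (nat_lit 3) (nat_lit 4) (C.cons (nat_lit 90) (C.miq (nat_lit 2872117348) (nat_lit 2526676565213040879414673745)) (C.cons (nat_lit 26) (C.node (nat_lit 1) (nat_lit 3) (nat_lit 8) (C.cons (nat_lit 1290) (C.miq (nat_lit 1899346080) (nat_lit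 2526696893128970150838079233)) (C.cons (nat_lit 266) (C.node (nat_lit 1) (nat_lit 10) (nat_lit 11) (C.cons (nat_lit 3078) (C.node (nat_lit 5) (nat_lit 10) (nat_lit 11) (C.cons (nat_lit 3104) (C.node (nat_lit 2) (nat_lit 5) (nat_lit 11) C.nil) C.nil)) (C.cons (nat_lit 3074) (C.node (nat_lit 2) (nat_lit 10) (nat_lit 11) (C.cons (nat_lit 3108) (C.node (nat_lit 5) (nat_lit 9) (nat_lit 11) C.nil) C.nil)) C.nil))) C.nil))) C.nil))) C.nil)) (C.cons (nat_lit 2088) (C.node (nat_lit 1) (nat_lit 3) (nat_lit 11) (C.cons (nat_lit 3082) (C.node (nat_lit 1) (nat_lit 4) (nat_lit 11) (C.cons (nat_lit 2578) (C.miq (nat_lit 1404635668) (nat_lit 3104531853693577159158924435)) (C.cons (nat_lit 2130) (C.miq (nat_lit 910276618) (nat_lit 2575068849313181307107479297)) (C.cons (nat_lit 2066) (C.node (nat_lit 2) (nat_lit 10) (nat_lit 11) (C.cons (nat_lit 3108) (C.node (nat_lit 1) (nat_lit 5) (nat_lit 11) C.nil) C.nil)) C.nil)))) (C.cons (nat_lit 2058) (C.node (nat_lit 3) (nat_lit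 10) (nat_lit 11) C.nil) C.nil))) C.nil))) C.nil))) C.nil)) C.nil))) C.nil)))) C.nil)))) C.nil))) C.nil))) (C.cons (nat_lit 2312) (C.node (nat_lit 6) (nat_lit 8) (nat_lit 11) (C.cons (nat_lit 2368) (C.node (nat_lit 7) (nat_lit 9) (nat_lit 11) (C.cons (nat_lit 2696) (C.node (nat_lit 7) (nat_lit 10) (nat_lit 11) (C.cons (nat_lit 3200) (C.node (nat_lit 3) (nat_lit 5) (nat_lit 11) (C.cons (nat_lit 2090) (C.ref (nat_lit 286) (nat_lit 205099542782736)) (C.cons (nat_lit 2088) (C.ref (nat_lit 287) (nat_lit 205099542782736)) C.nil))) C.nil)) (C.cons (nat_lit 2688) (C.node (nat_lit 3) (nat_lit 7) (nat_lit 11) (C.cons (nat_lit 3208) (C.node (nat_lit 6) (nat_lit 10) (nat_lit 11) (C.cons (nat_lit 3138) (C.node (nat_lit 2) (nat_lit 6) (nat_lit 11) (C.cons (nat_lit 2628) (C.miq (nat_lit 462923296) (nat_lit 3249614205144713299629507653)) (C.cons (nat_lit 2116) (C.node (nat_lit 1) (nat_lit 3) (nat_lit 7) (C.cons (nat_lit 206) (C.miq (nat_lit 2819754870) (nat_lit 317967653931075876997171425))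 (C.cons (nat_lit 202) (C.miq (nat_lit 951480481) (nat_lit 2862740067200380938055976083)) (C.cons (nat_lit 174) (C.miq (nat_lit 2803413792) (nat_lit 2942596299788967002251921437)) (C.cons (nat_lit 170) (C.miq (nat_lit 1521561735) (nat_lit 3793612358196986228177502601)) (C.cons (nat_lit 142) (C.miq (nat_lit 2803413792) (nat_lit 2942596299788966864812967965)) (C.cons (nat_lit 138) (C.node (nat_lit 1) (nat_lit 3) (nat_lit 11) (C.cons (nat_lit 2090) (C.node (nat_lit 1) (nat_lit 3) (nat_lit 10) (C.cons (nat_lit 1290) (C.miq (nat_lit 1631042176) (nat_lit 166873693439372385371885313)) (C.cons (nat_lit 1038) (C.miq (nat_lit 1369879328) (nat_lit 3793651151988273051611760669)) (C.cons (nat_lit 1034) (C.node (nat_lit 1) (nat_lit 2) (nat_lit 3) (C.cons (nat_lit 78) (C.node (nat_lit 3) (nat_lit 6) (nat_lit 11) (C.cons (nat_lit 2632) (C.miq (nat_lit 2338457905) (nat_lit 2558091886879403409195008523)) (C.cons (nat_lit 2120) (C.node (nat_lit 3) (nat_lit 9) (nat_lit 11)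 (C.cons (nat_lit 2568) (C.node (nat_lit 1) (nat_lit 2) (nat_lit 11) (C.cons (nat_lit 2054)
  (C.node (nat_lit 1) (nat_lit 4) (nat_lit 11) C.nil) C.nil)) C.nil)) C.nil))) (C.cons (nat_lit 14) (C.node (nat_lit 1) (nat_lit 2) (nat_lit 11) (C.cons (nat_lit 2566) (C.node (nat_lit 1) (nat_lit 4) (nat_lit 11) (C.cons (nat_lit 2066) (C.node (nat_lit 5) (nat_lit 9) (nat_lit 11) C.nil) C.nil)) (C.cons (nat_lit 2054) (C.node (nat_lit 1) (nat_lit 4) (nat_lit 11) (C.cons (nat_lit 2578) (C.node (nat_lit 4) (nat_lit 6) (nat_lit 11) C.nil) (C.cons (nat_lit 2066) (C.node (nat_lit 1) (nat_lit 9) (nat_lit 11) (C.cons (nat_lit 2562) (C.node (nat_lit 2) (nat_lit 9) (nat_lit 11) C.nil) C.nil)) C.nil))) C.nil))) C.nil))) C.nil)))) (C.cons (nat_lit 2058) (C.node (nat_lit 3) (nat_lit 5) (nat_lit 11) (C.cons (nat_lit 2600) (C.miq (nat_lit 1203309109) (nat_lit 3249602952077169548822316073)) (C.cons (nat_lit 2088) (C.node (nat_lit 1) (nat_lit 4) (nat_lit 11) (C.cons (nat_lit 2578)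 (C.node (nat_lit 4) (nat_lit 6) (nat_lit 11) (C.cons (nat_lit 2128) (C.node (nat_lit 1) (nat_lit 2) (nat_lit 11) C.nil) C.nil)) (C.cons (nat_lit 2066) (C.node (nat_lit 2) (nat_lit 10) (nat_lit 11) (C.cons (nat_lit 3108) (C.node (nat_lit 1) (nat_lit 2) (nat_lit 11) C.nil) C.nil)) C.nil))) C.nil))) C.nil))) C.nil))))))) C.nil))) (C.cons (nat_lit 3136) (C.node (nat_lit 1) (nat_lit 10) (nat_lit 11) (C.cons (nat_lit 3110) (C.miq (nat_lit 2275476402) (nat_lit 1415656986373055593499199517)) (C.cons (nat_lit 3106) (C.miq (nat_lit 1535353200) (nat_lit 2795056141605732884232602771)) (C.cons (nat_lit 3078) (C.miq (nat_lit 2275476402) (nat_lit 1415656986373055593497102365)) (C.cons (nat_lit 3074) (C.node (nat_lit 2) (nat_lit 10) (nat_lit 11) (C.cons (nat_lit 3108) (C.node (nat_lit 4) (nat_lit 5) (nat_lit 10) (C.cons (nat_lit 1136) (C.miq (nat_lit 625388416) (nat_lit 1373359894248325636408020737)) (C.cons (nat_lit 1072) (C.node (nat_lit 4) (nat_lit 5) (nat_lit 7)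 (C.cons (nat_lit 184) (C.miq (nat_lit 2608073269) (nat_lit 2649975746299851665827169321)) (C.cons (nat_lit 180) (C.miq (nat_lit 1649674936) (nat_lit 217612864391051590023253761)) (C.cons (nat_lit 176) (C.node (nat_lit 5) (nat_lit 7) (nat_lit 10) (C.cons (nat_lit 1696) (C.miq (nat_lit 928299664) (nat_lit 212809259042594839076081409)) (C.cons (nat_lit 1440) (C.miq (nat_lit 1750729906) (nat_lit 1740873342631205745235068957)) (C.cons (nat_lit 1184) (C.node (nat_lit 3) (nat_lit 8) (nat_lit 10) (C.cons (nat_lit 1354) (C.miq (nat_lit 1516810756) (nat_lit 1636928947375098189455624221)) (C.cons (nat_lit 1352) (C.miq (nat_lit 1516810756) (nat_lit 1634511095735868931106211869)) (C.cons (nat_lit 1304) (C.miq (nat_lit 1798834084) (nat_lit 2795042712141581892443440275)) (C.cons (nat_lit 1292) (C.miq (nat_lit 2270834866) (nat_lit 1431392003727693604104439837)) (C.cons (nat_lit 1290) (C.miq (nat_lit 951427440) (nat_lit 2843413173879159493637506195)) (C.cons (nat_lit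 1288) (C.node (nat_lit 2) (nat_lit 7) (nat_lit 10) (C.cons (nat_lit 1412) (C.node (nat_lit 2) (nat_lit 4) (nat_lit 5) (C.cons (nat_lit 118) (C.miq (nat_lit 1218601141) (nat_lit 1707005434106530656736774369)) (C.cons (nat_lit 116) (C.miq (nat_lit 1218601141) (nat_lit 1707005397213042509317671137)) (C.cons (nat_lit 54) (C.miq (nat_lit 1649674936) (nat_lit 65288211119608314010275585)) (C.cons (nat_lit 52) (C.miq (nat_lit 1649674936) (nat_lit 62870359480379055660863233)) C.nil))))) (C.cons (nat_lit 1156) (C.node (nat_lit 7) (nat_lit 8) (nat_lit 10) (C.cons (nat_lit 1472) (C.miq (nat_lit 1135086454) (nat_lit 1557102672801032522120038625)) (C.cons (nat_lit 1408) (C.node (nat_lit 2) (nat_lit 8) (nat_lit 10) (C.cons (nat_lit 1300) (C.node (nat_lit 2) (nat_lit 4) (nat_lit 7) (C.cons (nat_lit 212) (C.miq (nat_lit 1380366976) (nat_lit 256334204082410737944825601)) (C.cons (nat_lit 148) (C.node (nat_lit 4) (nat_lit 7) (nat_lit 8) (C.cons (nat_lit 912) (C.node (nat_lit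 3) (nat_lit 4) (nat_lit 7) (C.cons (nat_lit 216) (C.miq (nat_lit 1218666679) (nat_lit 1557100440255235862615820513)) (C.cons (nat_lit 152) (C.node (nat_lit 4) (nat_lit 6) (nat_lit 7) (C.cons (nat_lit 208)
  (C.node (nat_lit 5) (nat_lit 7) (nat_lit 8) (C.cons (nat_lit 416) (C.node (nat_lit 2) (nat_lit 7) (nat_lit 8) (C.cons (nat_lit 388) (C.node (nat_lit 6) (nat_lit 7) (nat_lit 8) C.nil) C.nil)) C.nil)) C.nil)) C.nil))) (C.cons (nat_lit 400) (C.node (nat_lit 6) (nat_lit 7) (nat_lit 10) (C.cons (nat_lit 1728) (C.node (nat_lit 4) (nat_lit 6) (nat_lit 7) (C.cons (nat_lit 216) (C.miq (nat_lit 1218666679) (nat_lit 1557100440255235862615820513)) (C.cons (nat_lit 208) (C.node (nat_lit 1) (nat_lit 7) (nat_lit 9) (C.cons (nat_lit 642) (C.node (nat_lit 3) (nat_lit 9) (nat_lit 11) (C.cons (nat_lit 2632) (C.miq (nat_lit 913619360) (nat_lit 251494885108133523560271617)) (C.cons (nat_lit 2600) (C.miq (nat_lit 893892874) (nat_lit 212830122139000543990976257)) C.nil)))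 C.nil)) C.nil))) (C.cons (nat_lit 1216) (C.node (nat_lit 7) (nat_lit 9) (nat_lit 10) (C.cons (nat_lit 1664) (C.node (nat_lit 1) (nat_lit 7) (nat_lit 9) C.nil) C.nil)) C.nil))) C.nil))) C.nil))) (C.cons (nat_lit 1284) (C.node (nat_lit 2) (nat_lit 4) (nat_lit 5) (C.cons (nat_lit 118) (C.miq (nat_lit 1218601141) (nat_lit 1552262929195858122374383841)) (C.cons (nat_lit 116) (C.miq (nat_lit 1218601141) (nat_lit 1552262892302369974955280609)) (C.cons (nat_lit 54) (C.miq (nat_lit 1649674936) (nat_lit 65288211119608314010275585)) (C.cons (nat_lit 52) (C.miq (nat_lit 1649674936) (nat_lit 62870359480379055660863233)) C.nil))))) C.nil))) C.nil))) C.nil))) C.nil))))))) C.nil)))) C.nil)))) C.nil))) (C.cons (nat_lit 3076) (C.node (nat_lit 5) (nat_lit 10) (nat_lit 11) (C.cons (nat_lit 3104) (C.node (nat_lit 3) (nat_lit 5) (nat_lit 11) (C.cons (nat_lit 2600) (C.miq (nat_lit 1203309109) (nat_lit 3249602952077169548822316073)) (C.cons (nat_lit 2090) (C.node (nat_lit 2)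 (nat_lit 5) (nat_lit 11) (C.cons (nat_lit 2596) (C.node (nat_lit 1) (nat_lit 2) (nat_lit 11) C.nil) C.nil)) C.nil))) C.nil)) C.nil))) C.nil))))) C.nil))) (C.cons (nat_lit 2184) (C.node (nat_lit 7) (nat_lit 10) (nat_lit 11) (C.cons (nat_lit 3200) (C.ref (nat_lit 296) (nat_lit 205163983024656)) C.nil)) C.nil))) C.nil))) C.nil)) C.nil))) C.nil))) (C.cons (nat_lit 2320) (C.node (nat_lit 4) (nat_lit 5) (nat_lit 11) (C.cons (nat_lit 2098) (C.node (nat_lit 1) (nat_lit 4) (nat_lit 8) (C.cons (nat_lit 786) (C.miq (nat_lit 1900394640) (nat_lit 2536368299685885019539181313)) (C.cons (nat_lit 282) (C.miq (nat_lit 1367847984) (nat_lit 2942567374981822665391147037)) (C.cons (nat_lit 274) (C.node (nat_lit 1) (nat_lit 3) (nat_lit 4) (C.cons (nat_lit 90) (C.node (nat_lit 1) (nat_lit 2) (nat_lit 4) (C.cons (nat_lit 534) (C.miq (nat_lit 565679184) (nat_lit 2942537343242251602449465905)) (C.cons (nat_lit 22) (C.node (nat_lit 1) (nat_lit 4) (nat_lit 9) (C.cons (nat_lit 530)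 (C.node (nat_lit 1) (nat_lit 3) (nat_lit 11) (C.cons (nat_lit 3082) (C.node (nat_lit 6) (nat_lit 10) (nat_lit 11) (C.cons (nat_lit 3136) (C.node (nat_lit 7) (nat_lit 10) (nat_lit 11) (C.cons (nat_lit 3200) (C.node (nat_lit 3) (nat_lit 6) (nat_lit 11) (C.cons (nat_lit 2632) (C.miq (nat_lit 2335574548) (nat_lit 3181898974859615450586285203)) (C.cons (nat_lit 2376) (C.node (nat_lit 3) (nat_lit 5) (nat_lit 11) (C.cons (nat_lit 2600) (C.miq (nat_lit 1399102336) (nat_lit 108813673120587121094102785)) (C.cons (nat_lit 2088) (C.node (nat_lit 5) (nat_lit 9) (nat_lit 11) (C.cons (nat_lit 2596) (C.miq (nat_lit 722965824) (nat_lit 2942537343822653004354617905)) (C.cons (nat_lit 2592) (C.node (nat_lit 1) (nat_lit 8) (nat_lit 10) (C.cons (nat_lit 1378) (C.miq (nat_lit 605686614) (nat_lit 1415672297644635865680578785)) (C.cons (nat_lit 1346) (C.node (nat_lit 1) (nat_lit 3) (nat_lit 7) (C.cons (nat_lit 174) (C.miq (nat_lit 2168108880) (nat_lit 3725980230681385075540035809))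 (C.cons (nat_lit 170) (C.miq (nat_lit 2168108880) (nat_lit 3725980230681385058360166625)) (C.cons (nat_lit 142) (C.miq (nat_lit 2585201458) (nat_lit 1415664033999816928885868573)) (C.cons (nat_lit 138) (C.node (nat_lit 1) (nat_lit 2) (nat_lit 3) (C.cons (nat_lit 46) (C.node (nat_lit 1) (nat_lit 3) (nat_lit 8)
  (C.cons (nat_lit 266) (C.node (nat_lit 1) (nat_lit 2) (nat_lit 7) (C.cons (nat_lit 198) (C.miq (nat_lit 2819754870) (nat_lit 317967653931075876996647137)) (C.cons (nat_lit 134) (C.node (nat_lit 1) (nat_lit 5) (nat_lit 7) (C.cons (nat_lit 674) (C.miq (nat_lit 605621079) (nat_lit 640742583130313542768658657)) (C.cons (nat_lit 162) (C.node (nat_lit 1) (nat_lit 5) (nat_lit 8) (C.cons (nat_lit 802) (C.miq (nat_lit 2503704864) (nat_lit 2524307965525075964200812807)) C.nil)) C.nil))) C.nil))) C.nil)) (C.cons (nat_lit 14) (C.node (nat_lit 1) (nat_lit 3) (nat_lit 5) (C.cons (nat_lit 298) (C.node (nat_lit 1) (nat_lit 8) (nat_lit 9) (C.cons (nat_lit 770)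 (C.node (nat_lit 3) (nat_lit 4) (nat_lit 8) (C.cons (nat_lit 1304) (C.miq (nat_lit 1983122314) (nat_lit 108824925542429766599577345)) (C.cons (nat_lit 792) (C.miq (nat_lit 1446251401) (nat_lit 108813673028544803739537153)) (C.cons (nat_lit 280) (C.node (nat_lit 2) (nat_lit 8) (nat_lit 11) (C.cons (nat_lit 2340) (C.node (nat_lit 2) (nat_lit 10) (nat_lit 11) (C.cons (nat_lit 3076) (C.node (nat_lit 1) (nat_lit 2) (nat_lit 7) C.nil) C.nil)) (C.cons (nat_lit 2308) (C.node (nat_lit 1) (nat_lit 2) (nat_lit 7) C.nil) C.nil))) C.nil)))) C.nil)) (C.cons (nat_lit 42) (C.node (nat_lit 1) (nat_lit 3) (nat_lit 8) (C.cons (nat_lit 266) (C.node (nat_lit 1) (nat_lit 5) (nat_lit 8) (C.cons (nat_lit 802) (C.node (nat_lit 1) (nat_lit 5) (nat_lit 6) (C.cons (nat_lit 102) (C.miq (nat_lit 2418379361) (nat_lit 44745050695638474476094786)) C.nil)) C.nil)) C.nil)) C.nil))) C.nil))) C.nil))))) (C.cons (nat_lit 1314) (C.miq (nat_lit 1755398323) (nat_lit 1588530187275462933746419741))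 (C.cons (nat_lit 1282) (C.miq (nat_lit 1755398323) (nat_lit 1549844561047794800155822109)) C.nil))))) C.nil))) C.nil))) (C.cons (nat_lit 2120) (C.miq (nat_lit 2335574548) (nat_lit 2562928955216925313136723091)) C.nil)))) C.nil)) C.nil)) (C.cons (nat_lit 2058) (C.node (nat_lit 3) (nat_lit 8) (nat_lit 11) (C.cons (nat_lit 2376) (C.miq (nat_lit 2872117348) (nat_lit 2487990938985372745824076113)) (C.cons (nat_lit 2344) (C.miq (nat_lit 1483846404) (nat_lit 2942564146870853087282792477)) (C.cons (nat_lit 2312) (C.node (nat_lit 6) (nat_lit 8) (nat_lit 11) (C.cons (nat_lit 2372) (C.miq (nat_lit 2709653430) (nat_lit 317967653179537689321670881)) (C.cons (nat_lit 2368) (C.node (nat_lit 2) (nat_lit 8) (nat_lit 11) (C.cons (nat_lit 2340) (C.node (nat_lit 5) (nat_lit 10) (nat_lit 11) (C.cons (nat_lit 3104) (C.node (nat_lit 1) (nat_lit 5) (nat_lit 7) (C.cons (nat_lit 674) (C.miq (nat_lit 605621079) (nat_lit 640742583130313542768658657)) (C.cons (nat_lit 174) (C.miq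 (nat_lit 2820737879) (nat_lit 317969092777113222613174497)) (C.cons (nat_lit 170) (C.miq (nat_lit 2870282355) (nat_lit 2536346016415086348713197961)) (C.cons (nat_lit 166) (C.miq (nat_lit 2820737879) (nat_lit 317969092777113222612650209)) (C.cons (nat_lit 162) (C.node (nat_lit 1) (nat_lit 8) (nat_lit 10) (C.cons (nat_lit 1378) (C.miq (nat_lit 622114976) (nat_lit 2536364684097590467316879105)) (C.cons (nat_lit 1346) (C.miq (nat_lit 998654113) (nat_lit 2862738001639048543249499283)) (C.cons (nat_lit 1314) (C.miq (nat_lit 622114976) (nat_lit 2536364684097590192438972161)) (C.cons (nat_lit 1290) (C.miq (nat_lit 896639160) (nat_lit 195869779377205624441016065)) (C.cons (nat_lit 1282) (C.node (nat_lit 1) (nat_lit 3) (nat_lit 7) (C.cons (nat_lit 142) (C.node (nat_lit 1) (nat_lit 3) (nat_lit 10) (C.cons (nat_lit 1034) (C.node (nat_lit 1) (nat_lit 6) (nat_lit 7) (C.cons (nat_lit 706) (C.miq (nat_lit 2420535857) (nat_lit 407421024793006351450767502)) (C.cons (nat_lit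 194) (C.node (nat_lit 1) (nat_lit 7) (nat_lit 9) C.nil) C.nil))) C.nil)) (C.cons (nat_lit 138) (C.node (nat_lit 1) (nat_lit 2) (nat_lit 7) (C.cons (nat_lit 198) (C.miq (nat_lit 2819754870) (nat_lit 317967653931075876996647137)) (C.cons (nat_lit 134) (C.node (nat_lit 1) (nat_lit 3) (nat_lit 8) (C.cons (nat_lit 298) (C.node (nat_lit 1) (nat_lit 2) (nat_lit 3) C.nil) (C.cons (nat_lit 266)
  (C.node (nat_lit 1) (nat_lit 3) (nat_lit 5) C.nil) C.nil))) C.nil))) C.nil))) C.nil)))))) C.nil)))))) C.nil)) (C.cons (nat_lit 2308) (C.node (nat_lit 5) (nat_lit 8) (nat_lit 11) (C.cons (nat_lit 2336) (C.node (nat_lit 3) (nat_lit 5) (nat_lit 11) (C.cons (nat_lit 2600) (C.node (nat_lit 7) (nat_lit 9) (nat_lit 11) (C.cons (nat_lit 2688) (C.node (nat_lit 3) (nat_lit 7) (nat_lit 11) (C.cons (nat_lit 3208) (C.miq (nat_lit 1203309109) (nat_lit 3249602952077169548822316073)) (C.cons (nat_lit 2184) (C.node (nat_lit 7) (nat_lit 10) (nat_lit 11) C.nil) C.nil))) C.nil)) (C.cons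 (nat_lit 2088) (C.node (nat_lit 5) (nat_lit 9) (nat_lit 11) (C.cons (nat_lit 2596) (C.miq (nat_lit 722965824) (nat_lit 2942537343822653004354617905)) (C.cons (nat_lit 2592) (C.node (nat_lit 2) (nat_lit 5) (nat_lit 11) (C.cons (nat_lit 3108) (C.node (nat_lit 1) (nat_lit 10) (nat_lit 11) (C.cons (nat_lit 3138) (C.node (nat_lit 2) (nat_lit 6) (nat_lit 11) (C.cons (nat_lit 2628) (C.miq (nat_lit 2535137446) (nat_lit 2942573923166989509527209029)) C.nil)) C.nil)) (C.cons (nat_lit 2084) (C.node (nat_lit 5) (nat_lit 10) (nat_lit 11) C.nil) C.nil))) C.nil))) C.nil))) C.nil)) C.nil))) C.nil))) C.nil)))) C.nil))) C.nil)) C.nil))) (C.cons (nat_lit 26) (C.node (nat_lit 4) (nat_lit 6) (nat_lit 11) (C.cons (nat_lit 2640) (C.node (nat_lit 1) (nat_lit 4) (nat_lit 9) (C.cons (nat_lit 534) (C.miq (nat_lit 565679184) (nat_lit 2942537343242251602449465905)) (C.cons (nat_lit 530) (C.node (nat_lit 1) (nat_lit 2) (nat_lit 4) (C.cons (nat_lit 86) (C.node (nat_lit 2) (nat_lit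 6) (nat_lit 11) (C.cons (nat_lit 2372) (C.miq (nat_lit 2709653430) (nat_lit 317967653179537689321670881)) (C.cons (nat_lit 2116) (C.node (nat_lit 4) (nat_lit 6) (nat_lit 7) (C.cons (nat_lit 216) (C.miq (nat_lit 1636254211) (nat_lit 2942529429462935310097254429)) (C.cons (nat_lit 208) (C.node (nat_lit 1) (nat_lit 7) (nat_lit 9) (C.cons (nat_lit 706) (C.miq (nat_lit 2304838466) (nat_lit 853506481222776307219564573)) (C.cons (nat_lit 674) (C.miq (nat_lit 605621079) (nat_lit 640742583130313542768658657)) (C.cons (nat_lit 642) (C.node (nat_lit 1) (nat_lit 6) (nat_lit 7) (C.cons (nat_lit 202) (C.node (nat_lit 1) (nat_lit 6) (nat_lit 11) (C.cons (nat_lit 3138) (C.miq (nat_lit 2687940721) (nat_lit 88309471795918303807539586)) (C.cons (nat_lit 2114) (C.node (nat_lit 6) (nat_lit 8) (nat_lit 11) (C.cons (nat_lit 2376) (C.miq (nat_lit 2875263031) (nat_lit 2555690784883791979614962057)) (C.cons (nat_lit 2368) (C.node (nat_lit 3) (nat_lit 8) (nat_lit 11) (C.cons (nat_lit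 2344) (C.miq (nat_lit 1483846404) (nat_lit 2942564146870853087282792477)) (C.cons (nat_lit 2312) (C.node (nat_lit 1) (nat_lit 6) (nat_lit 10) (C.cons (nat_lit 1634) (C.miq (nat_lit 605686614) (nat_lit 1415672297644635865697356001)) (C.cons (nat_lit 1602) (C.miq (nat_lit 2304838466) (nat_lit 1936704015597484047756298269)) (C.cons (nat_lit 1378) (C.miq (nat_lit 605686614) (nat_lit 1415672297644635865680578785)) (C.cons (nat_lit 1346) (C.miq (nat_lit 2518201376) (nat_lit 1627285007888372295442827293)) (C.cons (nat_lit 1122) (C.miq (nat_lit 605686614) (nat_lit 1415672297644635865663801569)) (C.cons (nat_lit 1090) (C.node (nat_lit 1) (nat_lit 2) (nat_lit 7) (C.cons (nat_lit 166) (C.node (nat_lit 2) (nat_lit 8) (nat_lit 11) (C.cons (nat_lit 2340) (C.miq (nat_lit 2820737879) (nat_lit 317969092777113222612650209)) (C.cons (nat_lit 2308) (C.node (nat_lit 5) (nat_lit 8) (nat_lit 11) (C.cons (nat_lit 2336) (C.node (nat_lit 1) (nat_lit 2) (nat_lit 3) (C.cons (nat_lit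 1038) (C.node (nat_lit 1) (nat_lit 3) (nat_lit 11) C.nil) C.nil)) C.nil)) C.nil))) (C.cons (nat_lit 134) (C.node (nat_lit 1) (nat_lit 5) (nat_lit 7) (C.cons (nat_lit 162) (C.node (nat_lit 1) (nat_lit 3) (nat_lit 11) C.nil) C.nil)) C.nil))) C.nil))))))) C.nil))) C.nil))) C.nil))) (C.cons (nat_lit 194) (C.node (nat_lit 1) (nat_lit 3) (nat_lit 7) (C.cons (nat_lit 174) (C.miq (nat_lit 1635271216) (nat_lit 2942531661518967846700910621)) (C.cons (nat_lit 170)
  (C.miq (nat_lit 2870282355) (nat_lit 2536346016415086348713197961)) (C.cons (nat_lit 142) (C.miq (nat_lit 1635271216) (nat_lit 2942531661518967709261957149)) (C.cons (nat_lit 138) (C.node (nat_lit 1) (nat_lit 2) (nat_lit 7) (C.cons (nat_lit 166) (C.node (nat_lit 2) (nat_lit 8) (nat_lit 11) (C.cons (nat_lit 2340) (C.miq (nat_lit 2820737879) (nat_lit 317969092777113222612650209)) (C.cons (nat_lit 2308) (C.node (nat_lit 5) (nat_lit 8) (nat_lit 11) (C.cons (nat_lit 2344) (C.miq (nat_lit 2266312779) (nat_lit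 200724925334761913581701149)) (C.cons (nat_lit 2336) (C.node (nat_lit 1) (nat_lit 2) (nat_lit 3) (C.cons (nat_lit 1038) (C.node (nat_lit 1) (nat_lit 9) (nat_lit 10) (C.cons (nat_lit 1634) (C.miq (nat_lit 1101182304) (nat_lit 1254903315237967697270868193)) (C.cons (nat_lit 1602) (C.miq (nat_lit 2304838466) (nat_lit 1936704015597484047756298269)) (C.cons (nat_lit 1570) (C.miq (nat_lit 2435078704) (nat_lit 103977969552203631831090217)) (C.cons (nat_lit 1538) (C.node (nat_lit 1) (nat_lit 2) (nat_lit 9) (C.cons (nat_lit 2566) (C.node (nat_lit 1) (nat_lit 3) (nat_lit 11) (C.cons (nat_lit 2122) (C.node (nat_lit 1) (nat_lit 10) (nat_lit 11) C.nil) C.nil)) C.nil)) C.nil))))) (C.cons (nat_lit 14) (C.node (nat_lit 1) (nat_lit 2) (nat_lit 10) (C.cons (nat_lit 3078) (C.miq (nat_lit 2334525972) (nat_lit 2558093251938466779257767059)) (C.cons (nat_lit 1542) (C.miq (nat_lit 2707133040) (nat_lit 2536397223929514254122680965)) (C.cons (nat_lit 1030) (C.node (nat_lit 1)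 (nat_lit 2) (nat_lit 9) C.nil) C.nil)))) C.nil))) C.nil))) C.nil))) (C.cons (nat_lit 134) (C.node (nat_lit 1) (nat_lit 5) (nat_lit 7) (C.cons (nat_lit 162) (C.node (nat_lit 1) (nat_lit 9) (nat_lit 11) (C.cons (nat_lit 2566) (C.node (nat_lit 1) (nat_lit 2) (nat_lit 3) C.nil) (C.cons (nat_lit 2562) (C.node (nat_lit 1) (nat_lit 2) (nat_lit 11) C.nil) C.nil))) C.nil)) C.nil))) C.nil))))) C.nil))) C.nil)))) C.nil))) C.nil))) (C.cons (nat_lit 22) (C.node (nat_lit 1) (nat_lit 4) (nat_lit 6) (C.cons (nat_lit 82) (C.node (nat_lit 1) (nat_lit 9) (nat_lit 11) (C.cons (nat_lit 2566) (C.node (nat_lit 1) (nat_lit 8) (nat_lit 9) (C.cons (nat_lit 866) (C.miq (nat_lit 610339736) (nat_lit 99136769286725843336433409)) (C.cons (nat_lit 834) (C.miq (nat_lit 610339736) (nat_lit 99136769286725843334336257)) (C.cons (nat_lit 802) (C.miq (nat_lit 1763199776) (nat_lit 969564724626790397652699165)) (C.cons (nat_lit 770) (C.miq (nat_lit 1763199776) (nat_lit 930879098399122264062101533))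 C.nil))))) (C.cons (nat_lit 2562) (C.node (nat_lit 2) (nat_lit 9) (nat_lit 11) (C.cons (nat_lit 2596) (C.miq (nat_lit 722965824) (nat_lit 2942537343822653004354617905)) (C.cons (nat_lit 2564) (C.node (nat_lit 5) (nat_lit 9) (nat_lit 11) (C.cons (nat_lit 2600) (C.node (nat_lit 7) (nat_lit 9) (nat_lit 11) (C.cons (nat_lit 2688) (C.node (nat_lit 3) (nat_lit 7) (nat_lit 11) (C.cons (nat_lit 3208) (C.miq (nat_lit 2073338704) (nat_lit 3191585765822914227348767785)) (C.cons (nat_lit 2184) (C.node (nat_lit 7) (nat_lit 10) (nat_lit 11) (C.cons (nat_lit 3200) (C.node (nat_lit 3) (nat_lit 8) (nat_lit 11) (C.cons (nat_lit 2376) (C.miq (nat_lit 1400937316) (nat_lit 475118196463819761030072912)) (C.cons (nat_lit 2312) (C.node (nat_lit 6) (nat_lit 8) (nat_lit 11) (C.cons (nat_lit 2372) (C.miq (nat_lit 2709653430) (nat_lit 317967653179537689321670881)) (C.cons (nat_lit 2368) (C.node (nat_lit 3) (nat_lit 10) (nat_lit 11) (C.cons (nat_lit 3144) (C.miq (nat_lit 1678424403)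 (nat_lit 1415710132075194854473796136)) (C.cons (nat_lit 3082) (C.miq (nat_lit 1410568363) (nat_lit 31480033002484494919929601)) C.nil))) C.nil))) C.nil))) C.nil)) C.nil))) C.nil)) (C.cons (nat_lit 2592) (C.node (nat_lit 3) (nat_lit 5) (nat_lit 11) (C.cons (nat_lit 2344) (C.miq (nat_lit 1483846404) (nat_lit 2942564146870853087282792477)) (C.cons (nat_lit 2088) (C.node (nat_lit 3) (nat_lit 8) (nat_lit 11) (C.cons (nat_lit 2376) (C.node (nat_lit 1) (nat_lit 3) (nat_lit 11) (C.cons (nat_lit 3082) (C.miq (nat_lit 1678999723) (nat_lit 31475900868761589197180673))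
  (C.cons (nat_lit 2058) (C.node (nat_lit 3) (nat_lit 9) (nat_lit 11) (C.cons (nat_lit 2696) (C.miq (nat_lit 2483533443) (nat_lit 1415701867933848870477957448)) (C.cons (nat_lit 2568) (C.node (nat_lit 7) (nat_lit 9) (nat_lit 11) (C.cons (nat_lit 2688) (C.node (nat_lit 3) (nat_lit 7) (nat_lit 11) (C.cons (nat_lit 3208) (C.miq (nat_lit 1805943664) (nat_lit 3733169148191526054607913353)) C.nil)) C.nil)) C.nil))) C.nil))) (C.cons (nat_lit 2312) (C.node (nat_lit 6) (nat_lit 8) (nat_lit 11) (C.cons (nat_lit 2372) (C.miq (nat_lit 2709653430) (nat_lit 317967653179537689321670881)) (C.cons (nat_lit 2368) (C.node (nat_lit 2) (nat_lit 6) (nat_lit 11) (C.cons (nat_lit 2118) (C.node (nat_lit 1) (nat_lit 3) (nat_lit 11) (C.cons (nat_lit 3082) (C.node (nat_lit 3) (nat_lit 6) (nat_lit 11) (C.cons (nat_lit 2120) (C.node (nat_lit 6) (nat_lit 10) (nat_lit 11) C.nil) C.nil)) (C.cons (nat_lit 2058) (C.node (nat_lit 1) (nat_lit 10) (nat_lit 11) C.nil) C.nil))) (C.cons (nat_lit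 2116) (C.node (nat_lit 1) (nat_lit 2) (nat_lit 11) (C.cons (nat_lit 3078) (C.node (nat_lit 5) (nat_lit 10) (nat_lit 11) C.nil) C.nil)) C.nil))) C.nil))) C.nil))) C.nil))) C.nil))) C.nil))) C.nil))) C.nil)) C.nil))) C.nil))) (C.cons (nat_lit 2128) (C.node (nat_lit 4) (nat_lit 9) (nat_lit 11) (C.cons (nat_lit 2576) (C.node (nat_lit 5) (nat_lit 10) (nat_lit 11) (C.cons (nat_lit 3108) (C.node (nat_lit 2) (nat_lit 8) (nat_lit 11) (C.cons (nat_lit 2372) (C.miq (nat_lit 2709653430) (nat_lit 317967653179537689321670881)) (C.cons (nat_lit 2308) (C.node (nat_lit 5) (nat_lit 8) (nat_lit 11) (C.cons (nat_lit 2344) (C.miq (nat_lit 1483846404) (nat_lit 2942564146870853087282792477)) (C.cons (nat_lit 2336) (C.node (nat_lit 3) (nat_lit 5) (nat_lit 11) (C.cons (nat_lit 2600) (C.node (nat_lit 7) (nat_lit 9) (nat_lit 11) (C.cons (nat_lit 2688) (C.node (nat_lit 3) (nat_lit 7) (nat_lit 11) (C.cons (nat_lit 3208) (C.miq (nat_lit 2073338704) (nat_lit 3114214513367577960167572521))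 (C.cons (nat_lit 2184) (C.node (nat_lit 7) (nat_lit 10) (nat_lit 11) (C.cons (nat_lit 3200) (C.node (nat_lit 2) (nat_lit 9) (nat_lit 11) (C.cons (nat_lit 2628) (C.miq (nat_lit 2466690466) (nat_lit 88300063607133152114707492)) (C.cons (nat_lit 2566) (C.miq (nat_lit 312515411) (nat_lit 1321365569208218377117043240)) C.nil))) C.nil)) C.nil))) C.nil)) (C.cons (nat_lit 2088) (C.node (nat_lit 5) (nat_lit 9) (nat_lit 11) (C.cons (nat_lit 2592) (C.node (nat_lit 3) (nat_lit 8) (nat_lit 11) (C.cons (nat_lit 2376) (C.node (nat_lit 1) (nat_lit 3) (nat_lit 11) (C.cons (nat_lit 3082) (C.miq (nat_lit 1678999723) (nat_lit 31475900868761589197180673)) (C.cons (nat_lit 2058) (C.node (nat_lit 1) (nat_lit 10) (nat_lit 11) (C.cons (nat_lit 3138) (C.miq (nat_lit 1661646961) (nat_lit 1287563884441269604298459522)) C.nil)) C.nil))) (C.cons (nat_lit 2312) (C.node (nat_lit 6) (nat_lit 8) (nat_lit 11) C.nil) C.nil))) C.nil)) C.nil))) C.nil))) C.nil))) (C.cons (nat_lit 3104) (C.node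 (nat_lit 2) (nat_lit 10) (nat_lit 11) (C.cons (nat_lit 3078) (C.node (nat_lit 7) (nat_lit 10) (nat_lit 11) (C.cons (nat_lit 3208) (C.miq (nat_lit 2275476402) (nat_lit 1415656986373055593497102365)) (C.cons (nat_lit 3200) (C.node (nat_lit 1) (nat_lit 2) (nat_lit 4) (C.cons (nat_lit 598) (C.miq (nat_lit 2974327392) (nat_lit 331316529384778058985178181)) (C.cons (nat_lit 534) (C.miq (nat_lit 565679184) (nat_lit 2942537343242251602449465905)) (C.cons (nat_lit 86) (C.miq (nat_lit 2974327392) (nat_lit 331316529384775859961922629)) (C.cons (nat_lit 22) (C.node (nat_lit 1) (nat_lit 3) (nat_lit 11) (C.cons (nat_lit 2122) (C.node (nat_lit 1) (nat_lit 9) (nat_lit 11) (C.cons (nat_lit 2562) (C.node (nat_lit 3) (nat_lit 10) (nat_lit 11) (C.cons (nat_lit 3080) (C.node (nat_lit 6) (nat_lit 10) (nat_lit 11) (C.cons (nat_lit 3136) (C.node (nat_lit 3) (nat_lit 8) (nat_lit 11) (C.cons (nat_lit 2344) (C.miq (nat_lit 1483846404) (nat_lit 2942564146870853087282792477)) C.nil))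 C.nil)) C.nil)) C.nil)) (C.cons (nat_lit 2058) (C.node (nat_lit 1) (nat_lit 4) (nat_lit 6) (C.cons (nat_lit 594)
  (C.node (nat_lit 1) (nat_lit 6) (nat_lit 11) (C.cons (nat_lit 2114) (C.node (nat_lit 1) (nat_lit 9) (nat_lit 11) (C.cons (nat_lit 2562) (C.node (nat_lit 1) (nat_lit 7) (nat_lit 9) (C.cons (nat_lit 674) (C.miq (nat_lit 605621079) (nat_lit 718113835585649809949853921)) C.nil)) C.nil)) C.nil)) (C.cons (nat_lit 82) (C.node (nat_lit 1) (nat_lit 4) (nat_lit 9) (C.cons (nat_lit 530) (C.node (nat_lit 1) (nat_lit 6) (nat_lit 11) (C.cons (nat_lit 2626) (C.node (nat_lit 1) (nat_lit 7) (nat_lit 9) (C.cons (nat_lit 674) (C.miq (nat_lit 605621079) (nat_lit 640742583130313542768658657)) (C.cons (nat_lit 642) (C.node (nat_lit 2) (nat_lit 6) (nat_lit 11) (C.cons (nat_lit 2372) (C.miq (nat_lit 1678934187) (nat_lit 26640123803326777659887361)) C.nil)) C.nil))) (C.cons (nat_lit 2114) (C.node (nat_lit 1) (nat_lit 9) (nat_lit 11) C.nil) C.nil))) C.nil)) C.nil)))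 C.nil))) C.nil))))) C.nil))) (C.cons (nat_lit 3076) (C.node (nat_lit 7) (nat_lit 9) (nat_lit 11) (C.cons (nat_lit 2696) (C.node (nat_lit 7) (nat_lit 10) (nat_lit 11) (C.cons (nat_lit 3200) (C.node (nat_lit 3) (nat_lit 5) (nat_lit 11) (C.cons (nat_lit 2344) (C.miq (nat_lit 1483846404) (nat_lit 2942564146870853087282792477)) (C.cons (nat_lit 2088) (C.node (nat_lit 5) (nat_lit 9) (nat_lit 11) (C.cons (nat_lit 2596) (C.miq (nat_lit 722965824) (nat_lit 2942537343822653004354617905)) (C.cons (nat_lit 2592) (C.node (nat_lit 2) (nat_lit 5) (nat_lit 11) (C.cons (nat_lit 2340) (C.node (nat_lit 3) (nat_lit 8) (nat_lit 11) (C.cons (nat_lit 2376) (C.node (nat_lit 1) (nat_lit 3) (nat_lit 11) C.nil) C.nil)) C.nil)) C.nil))) C.nil))) C.nil)) (C.cons (nat_lit 2688) (C.node (nat_lit 3) (nat_lit 7) (nat_lit 11) (C.cons (nat_lit 3208) (C.node (nat_lit 3) (nat_lit 5) (nat_lit 11) (C.cons (nat_lit 2600) (C.miq (nat_lit 2073338704) (nat_lit 3114214513367577960167572521)) (C.cons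 (nat_lit 2344) (C.miq (nat_lit 1483846404) (nat_lit 2942564146870853087282792477)) (C.cons (nat_lit 2088) (C.node (nat_lit 3) (nat_lit 8) (nat_lit 11) (C.cons (nat_lit 2376) (C.miq (nat_lit 1805943664) (nat_lit 3733169148191526054607913353)) (C.cons (nat_lit 2312) (C.node (nat_lit 5) (nat_lit 9) (nat_lit 11) (C.cons (nat_lit 2596) (C.miq (nat_lit 722965824) (nat_lit 2942537343822653004354617905)) C.nil)) C.nil))) C.nil)))) (C.cons (nat_lit 2184) (C.node (nat_lit 7) (nat_lit 10) (nat_lit 11) (C.cons (nat_lit 3200) (C.ref (nat_lit 297) (nat_lit 205163983024656)) C.nil)) C.nil))) C.nil))) C.nil))) C.nil))) C.nil)) C.nil))) C.nil))) C.nil)))) (C.cons (nat_lit 2096) (C.node (nat_lit 7) (nat_lit 9) (nat_lit 11) (C.cons (nat_lit 2696) (C.node (nat_lit 7) (nat_lit 10) (nat_lit 11) (C.cons (nat_lit 3200) (C.ref (nat_lit 288) (nat_lit 205099542782736)) C.nil)) (C.cons (nat_lit 2688) (C.node (nat_lit 3) (nat_lit 7) (nat_lit 11) (C.cons (nat_lit 3208) (C.node (nat_lit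 3) (nat_lit 8) (nat_lit 11) (C.cons (nat_lit 2376) (C.miq (nat_lit 1805943664) (nat_lit 3733169148191526054607913353)) (C.cons (nat_lit 2344) (C.miq (nat_lit 2164635555) (nat_lit 42355643539735919093943432)) (C.cons (nat_lit 2312) (C.node (nat_lit 6) (nat_lit 8) (nat_lit 11) (C.cons (nat_lit 2372) (C.miq (nat_lit 2709653430) (nat_lit 317967653179537689321670881)) (C.cons (nat_lit 2368) (C.node (nat_lit 2) (nat_lit 8) (nat_lit 11) (C.cons (nat_lit 2340) (C.node (nat_lit 2) (nat_lit 10) (nat_lit 11) (C.cons (nat_lit 3078) (C.miq (nat_lit 2275476402) (nat_lit 1415656986373055593497102365)) (C.cons (nat_lit 3076) (C.node (nat_lit 5) (nat_lit 10) (nat_lit 11) (C.cons (nat_lit 3106) (C.miq (nat_lit 1535353200) (nat_lit 2795056141605732884232602771)) (C.cons (nat_lit 3104) (C.node (nat_lit 1) (nat_lit 2) (nat_lit 7) (C.cons (nat_lit 206) (C.miq (nat_lit 2819754870) (nat_lit 317967653931075876997171425)) (C.cons (nat_lit 198) (C.miq (nat_lit 2819754870) (nat_lit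 317967653931075876996647137)) (C.cons (nat_lit 174) (C.miq (nat_lit 2820737879) (nat_lit 317969092777113222613174497)) (C.cons (nat_lit 166) (C.miq (nat_lit 2820737879) (nat_lit 317969092777113222612650209)) (C.cons (nat_lit 142)
  (C.miq (nat_lit 2803413792) (nat_lit 2942596299788966864812967965)) (C.cons (nat_lit 134) (C.node (nat_lit 1) (nat_lit 10) (nat_lit 11) (C.cons (nat_lit 3138) (C.node (nat_lit 2) (nat_lit 6) (nat_lit 11) (C.cons (nat_lit 2628) (C.miq (nat_lit 1651620106) (nat_lit 162053946450982619109854977)) (C.cons (nat_lit 2116) (C.node (nat_lit 1) (nat_lit 2) (nat_lit 11) (C.cons (nat_lit 2566) (C.node (nat_lit 1) (nat_lit 4) (nat_lit 11) C.nil) C.nil)) C.nil))) (C.cons (nat_lit 3074) (C.node (nat_lit 6) (nat_lit 10) (nat_lit 11) C.nil) C.nil))) C.nil))))))) C.nil))) C.nil))) (C.cons (nat_lit 2308) (C.node (nat_lit 5) (nat_lit 8) (nat_lit 11) (C.cons (nat_lit 2336) (C.node (nat_lit 6) (nat_lit 10) (nat_lit 11) (C.cons (nat_lit 3138) (C.node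 (nat_lit 2) (nat_lit 6) (nat_lit 11) (C.cons (nat_lit 2628) (C.miq (nat_lit 462923296) (nat_lit 3249614205144713299629507653)) (C.cons (nat_lit 2116) (C.node (nat_lit 1) (nat_lit 3) (nat_lit 11) (C.cons (nat_lit 2090) (C.node (nat_lit 1) (nat_lit 2) (nat_lit 11) (C.cons (nat_lit 2566) (C.node (nat_lit 1) (nat_lit 4) (nat_lit 11) C.nil) C.nil)) C.nil)) C.nil))) (C.cons (nat_lit 3136) (C.node (nat_lit 1) (nat_lit 10) (nat_lit 11) (C.cons (nat_lit 3110) (C.miq (nat_lit 2275476402) (nat_lit 1415656986373055593499199517)) (C.cons (nat_lit 3106) (C.miq (nat_lit 1535353200) (nat_lit 2795056141605732884232602771)) (C.cons (nat_lit 3078) (C.miq (nat_lit 2275476402) (nat_lit 1415656986373055593497102365)) (C.cons (nat_lit 3074) (C.node (nat_lit 2) (nat_lit 10) (nat_lit 11) C.nil) C.nil))))) C.nil))) C.nil)) C.nil))) C.nil))) C.nil)))) (C.cons (nat_lit 2184) (C.node (nat_lit 7) (nat_lit 10) (nat_lit 11) (C.cons (nat_lit 3200) (C.ref (nat_lit 298) (nat_lit 205163983024656))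 C.nil)) C.nil))) C.nil))) C.nil))) C.nil))) C.nil))) List.nil)

theorem ok12_299 : okL par12 (nat_lit 300) c12_299 (nat_lit 299) = true := by decide +kernel

noncomputable def c12_300 : List C :=
  (List.cons (C.node (nat_lit 4) (nat_lit 8) (nat_lit 11) (C.cons (nat_lit 2322) (C.node (nat_lit 1) (nat_lit 8) (nat_lit 10) (C.cons (nat_lit 1354) (C.miq (nat_lit 2065171875) (nat_lit 2807133003355395873842005033)) (C.cons (nat_lit 1346) (C.miq (nat_lit 706414212) (nat_lit 3754961909918137242098991441)) (C.cons (nat_lit 1290) (C.miq (nat_lit 2065171875) (nat_lit 2807133003355395873837810729)) (C.cons (nat_lit 1282) (C.node (nat_lit 4) (nat_lit 6) (nat_lit 11) (C.cons (nat_lit 2640) (C.node (nat_lit 2) (nat_lit 9) (nat_lit 11) (C.cons (nat_lit 2596) (C.miq (nat_lit 1537512048) (nat_lit 3733173280324123043243950725)) (C.cons (nat_lit 2566) (C.miq (nat_lit 2516759681) (nat_lit 1321403255927178212600645906)) (C.cons (nat_lit 2564) (C.node (nat_lit 1) (nat_lit 2)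 (nat_lit 11) (C.cons (nat_lit 2118) (C.node (nat_lit 1) (nat_lit 2) (nat_lit 10) (C.cons (nat_lit 1542) (C.miq (nat_lit 352955250) (nat_lit 678235830557439667304991876)) (C.cons (nat_lit 1038) (C.miq (nat_lit 1638249008) (nat_lit 3754965525768486217367226397)) (C.cons (nat_lit 1030) (C.node (nat_lit 1) (nat_lit 2) (nat_lit 7) (C.cons (nat_lit 174) (C.miq (nat_lit 950104245) (nat_lit 1549846110590059590455527649)) (C.cons (nat_lit 166) (C.miq (nat_lit 2584873815) (nat_lit 1245205493434154318333085921)) (C.cons (nat_lit 142) (C.miq (nat_lit 2591099683) (nat_lit 1415661783497040460306581533)) (C.cons (nat_lit 134) (C.node (nat_lit 1) (nat_lit 2) (nat_lit 3) (C.cons (nat_lit 46) (C.node (nat_lit 1) (nat_lit 4) (nat_lit 5) (C.cons (nat_lit 114) (C.miq (nat_lit 2705896800) (nat_lit 2807196607963417829367154913)) (C.cons (nat_lit 50) (C.node (nat_lit 1) (nat_lit 2) (nat_lit 4) (C.cons (nat_lit 534) (C.node (nat_lit 1) (nat_lit 5) (nat_lit 6) (C.cons (nat_lit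 866) (C.miq (nat_lit 1175632256) (nat_lit 2560543200574323344741437185)) (C.cons (nat_lit 610) (C.miq (nat_lit 558937748) (nat_lit 42350718170119736493410896)) (C.cons (nat_lit 354) (C.miq (nat_lit 2506178738) (nat_lit 427969590862831313280698397)) (C.cons (nat_lit 98) (C.miq (nat_lit 2506178738) (nat_lit 118484581041486244555917341)) C.nil))))) (C.cons (nat_lit 22) (C.node (nat_lit 1) (nat_lit 2) (nat_lit 9) (C.cons (nat_lit 518) (C.node (nat_lit 1) (nat_lit 4) (nat_lit 9) (C.cons (nat_lit 530) (C.node (nat_lit 1) (nat_lit 3) (nat_lit 4) (C.cons (nat_lit 90) (C.node (nat_lit 1) (nat_lit 3) (nat_lit 8) C.nil) (C.cons (nat_lit 26) (C.node (nat_lit 1) (nat_lit 4) (nat_lit 6) C.nil) C.nil))) C.nil)) C.nil)) C.nil))) C.nil))) (C.cons (nat_lit 14) (C.node (nat_lit 1) (nat_lit 3) (nat_lit 10) (C.cons (nat_lit 1098) (C.node (nat_lit 1) (nat_lit 9) (nat_lit 10) (C.cons (nat_lit 1538) (C.node (nat_lit 1) (nat_lit 3) (nat_lit 4) (C.cons (nat_lit 58) (C.miq (nat_lit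 2170205232) (nat_lit 3754994450320610480125184029)) (C.cons (nat_lit 26) (C.node (nat_lit 1) (nat_lit 4) (nat_lit 6) (C.cons (nat_lit 114) (C.miq (nat_lit 2705896800) (nat_lit 2807196607963417829367154913)) (C.cons (nat_lit 82) (C.node (nat_lit 4) (nat_lit 6) (nat_lit 10) (C.cons (nat_lit 1136) (C.miq (nat_lit 2489386403) (nat_lit 99141565013462483510887465)) (C.cons (nat_lit 1104) (C.node (nat_lit 1) (nat_lit 3) (nat_lit 8) (C.cons (nat_lit 298) (C.node (nat_lit 1) (nat_lit 5) (nat_lit 6) (C.cons (nat_lit 610) (C.miq (nat_lit 558937748) (nat_lit 42350718170119736493410896)) C.nil)) (C.cons (nat_lit 266) (C.node (nat_lit 1) (nat_lit 3) (nat_lit 5) C.nil) C.nil))) C.nil))) C.nil))) C.nil))) C.nil)) (C.cons (nat_lit 1034) (C.node (nat_lit 1) (nat_lit 3) (nat_lit 11) (C.cons (nat_lit 2186) (C.node (nat_lit 1) (nat_lit 9) (nat_lit 11) (C.cons (nat_lit 2562) (C.node (nat_lit 7) (nat_lit 9) (nat_lit 11) (C.cons (nat_lit 2688) (C.node (nat_lit 1) (nat_lit 4)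 (nat_lit 9) C.nil) C.nil)) C.nil)) (C.cons (nat_lit 2058) (C.node (nat_lit 1) (nat_lit 4) (nat_lit 9) (C.cons (nat_lit 534) (C.node (nat_lit 1) (nat_lit 5) (nat_lit 9) (C.cons (nat_lit 930) (C.miq (nat_lit 1098037392) (nat_lit 162034374369390294433337089)) (C.cons (nat_lit 866)
  (C.miq (nat_lit 1175632256) (nat_lit 2560543200574323344741437185)) (C.cons (nat_lit 802) (C.miq (nat_lit 1637200448) (nat_lit 969600437376378434147649565)) (C.cons (nat_lit 674) (C.miq (nat_lit 1637200448) (nat_lit 814857932465705899785259037)) (C.cons (nat_lit 610) (C.miq (nat_lit 558937748) (nat_lit 42350718170119736493410896)) (C.cons (nat_lit 546) (C.miq (nat_lit 1637200448) (nat_lit 660115427555033365422868509)) C.nil))))))) (C.cons (nat_lit 530) (C.node (nat_lit 1) (nat_lit 2) (nat_lit 4) (C.cons (nat_lit 54) (C.node (nat_lit 1) (nat_lit 2) (nat_lit 9) (C.cons (nat_lit 518) (C.node (nat_lit 1) (nat_lit 3) (nat_lit 4) C.nil) C.nil)) (C.cons (nat_lit 22) (C.node (nat_lit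 1) (nat_lit 4) (nat_lit 5) (C.cons (nat_lit 122) (C.miq (nat_lit 2705896800) (nat_lit 2807196607963417863726893281)) (C.cons (nat_lit 114) (C.miq (nat_lit 2705896800) (nat_lit 2807196607963417829367154913)) (C.cons (nat_lit 58) (C.miq (nat_lit 2170205232) (nat_lit 3754994450320610480125184029)) (C.cons (nat_lit 50) (C.node (nat_lit 1) (nat_lit 2) (nat_lit 5) C.nil) C.nil))))) C.nil))) C.nil))) C.nil))) C.nil))) C.nil))) C.nil))))) C.nil)))) (C.cons (nat_lit 2054) (C.node (nat_lit 2) (nat_lit 6) (nat_lit 11) (C.cons (nat_lit 2372) (C.miq (nat_lit 1779966027) (nat_lit 1549886656730554620133378077)) (C.cons (nat_lit 2116) (C.node (nat_lit 1) (nat_lit 4) (nat_lit 9) (C.cons (nat_lit 534) (C.node (nat_lit 1) (nat_lit 2) (nat_lit 10) (C.cons (nat_lit 1038) (C.miq (nat_lit 2443526704) (nat_lit 3754933944496775663505180701)) (C.cons (nat_lit 1030) (C.node (nat_lit 1) (nat_lit 4) (nat_lit 5) (C.cons (nat_lit 122) (C.miq (nat_lit 2705896800) (nat_lit 2807196607963417863726893281))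 (C.cons (nat_lit 114) (C.miq (nat_lit 2705896800) (nat_lit 2807196607963417829367154913)) (C.cons (nat_lit 58) (C.miq (nat_lit 2170205232) (nat_lit 3754994450320610480125184029)) (C.cons (nat_lit 50) (C.node (nat_lit 2) (nat_lit 4) (nat_lit 10) (C.cons (nat_lit 1332) (C.miq (nat_lit 2259828858) (nat_lit 2558111605462528344623154323)) (C.cons (nat_lit 1300) (C.miq (nat_lit 2259828858) (nat_lit 2558111015166717985917502611)) (C.cons (nat_lit 1076) (C.miq (nat_lit 824838469) (nat_lit 1245213240132720257022558769)) (C.cons (nat_lit 1044) (C.node (nat_lit 2) (nat_lit 4) (nat_lit 7) (C.cons (nat_lit 436) (C.miq (nat_lit 2722740048) (nat_lit 645637242520046795704305889)) (C.cons (nat_lit 404) (C.miq (nat_lit 826804519) (nat_lit 2807133002862803617880212101)) (C.cons (nat_lit 212) (C.miq (nat_lit 2317618038) (nat_lit 1262124773311584845146884321)) (C.cons (nat_lit 180) (C.miq (nat_lit 2722740048) (nat_lit 645637242520045696192678113)) (C.cons (nat_lit 148) (C.node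 (nat_lit 1) (nat_lit 2) (nat_lit 7) (C.cons (nat_lit 206) (C.miq (nat_lit 2591099683) (nat_lit 1415661783497040460310775837)) (C.cons (nat_lit 198) (C.miq (nat_lit 1698787474) (nat_lit 60449944075853084801499781)) (C.cons (nat_lit 174) (C.miq (nat_lit 950104245) (nat_lit 1549846110590059590455527649)) (C.cons (nat_lit 166) (C.miq (nat_lit 2703865200) (nat_lit 645637242492461088350996705)) (C.cons (nat_lit 142) (C.miq (nat_lit 2591099683) (nat_lit 1415661783497040460306581533)) (C.cons (nat_lit 134) (C.node (nat_lit 1) (nat_lit 3) (nat_lit 4) (C.cons (nat_lit 90) (C.node (nat_lit 1) (nat_lit 3) (nat_lit 10) (C.cons (nat_lit 1034) (C.node (nat_lit 1) (nat_lit 6) (nat_lit 11) C.nil) C.nil)) (C.cons (nat_lit 26) (C.node (nat_lit 1) (nat_lit 4) (nat_lit 6) (C.cons (nat_lit 82) (C.node (nat_lit 1) (nat_lit 6) (nat_lit 11) (C.cons (nat_lit 2122) (C.node (nat_lit 6) (nat_lit 8) (nat_lit 11) C.nil) C.nil)) C.nil)) C.nil))) C.nil))))))) C.nil)))))) C.nil))))) C.nil)))))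 C.nil))) (C.cons (nat_lit 530) (C.node (nat_lit 1) (nat_lit 6) (nat_lit 11) (C.cons (nat_lit 2122) (C.node (nat_lit 6) (nat_lit 8) (nat_lit 11) (C.cons (nat_lit 2368) (C.node (nat_lit 1) (nat_lit 7) (nat_lit 11) (C.cons (nat_lit 2178) (C.node (nat_lit 1) (nat_lit 9) (nat_lit 11) C.nil) C.nil)) C.nil)) (C.cons (nat_lit 2114) (C.node (nat_lit 1) (nat_lit 3) (nat_lit 11)
  (C.cons (nat_lit 2186) (C.node (nat_lit 1) (nat_lit 9) (nat_lit 11) (C.cons (nat_lit 2562) (C.node (nat_lit 7) (nat_lit 9) (nat_lit 11) C.nil) C.nil)) (C.cons (nat_lit 2058) (C.node (nat_lit 1) (nat_lit 7) (nat_lit 11) (C.cons (nat_lit 2690) (C.node (nat_lit 3) (nat_lit 7) (nat_lit 11) C.nil) C.nil)) C.nil))) C.nil))) C.nil))) C.nil))) C.nil))) C.nil)))) (C.cons (nat_lit 2128) (C.node (nat_lit 4) (nat_lit 9) (nat_lit 11) (C.cons (nat_lit 2576) (C.node (nat_lit 1) (nat_lit 2) (nat_lit 10) (C.cons (nat_lit 1542) (C.miq (nat_lit 352955250) (nat_lit 678235830557439667304991876)) (C.cons (nat_lit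 1038) (C.node (nat_lit 1) (nat_lit 6) (nat_lit 10) (C.cons (nat_lit 1602) (C.node (nat_lit 1) (nat_lit 4) (nat_lit 9) (C.cons (nat_lit 534) (C.miq (nat_lit 2443526704) (nat_lit 3754933944496775663505180701)) (C.cons (nat_lit 530) (C.node (nat_lit 6) (nat_lit 9) (nat_lit 11) (C.cons (nat_lit 2632) (C.miq (nat_lit 1265238929) (nat_lit 3791212972033422236850455051)) (C.cons (nat_lit 2628) (C.miq (nat_lit 431269408) (nat_lit 3114214512915529267928695877)) (C.cons (nat_lit 2624) (C.node (nat_lit 2) (nat_lit 6) (nat_lit 11) (C.cons (nat_lit 2372) (C.miq (nat_lit 1779966027) (nat_lit 1549886656730554620133378077)) (C.cons (nat_lit 2118) (C.miq (nat_lit 1638249008) (nat_lit 3754965525768486217367226397)) (C.cons (nat_lit 2116) (C.node (nat_lit 1) (nat_lit 3) (nat_lit 4) (C.cons (nat_lit 122) (C.miq (nat_lit 2705896800) (nat_lit 2807196607963417863726893281)) (C.cons (nat_lit 90) (C.miq (nat_lit 999702689) (nat_lit 3172223011460393611991057555)) (C.cons (nat_lit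 58) (C.miq (nat_lit 2170205232) (nat_lit 3754994450320610480125184029)) (C.cons (nat_lit 26) (C.node (nat_lit 1) (nat_lit 4) (nat_lit 6) (C.cons (nat_lit 118) (C.miq (nat_lit 2705896800) (nat_lit 2807196607963417846547024097)) (C.cons (nat_lit 114) (C.miq (nat_lit 2705896800) (nat_lit 2807196607963417829367154913)) (C.cons (nat_lit 86) (C.miq (nat_lit 2171253792) (nat_lit 1936770017620208321628014621)) (C.cons (nat_lit 82) (C.node (nat_lit 2) (nat_lit 4) (nat_lit 10) (C.cons (nat_lit 1556) (C.miq (nat_lit 1253413488) (nat_lit 3754933944784452392681800325)) (C.cons (nat_lit 1332) (C.miq (nat_lit 1511604784) (nat_lit 1936709512020990416126674973)) (C.cons (nat_lit 1300) (C.miq (nat_lit 2259828858) (nat_lit 2558111015166717985917502611)) (C.cons (nat_lit 1076) (C.miq (nat_lit 1511604784) (nat_lit 1936709511948932822088747037)) (C.cons (nat_lit 1044) (C.node (nat_lit 1) (nat_lit 2) (nat_lit 4) (C.cons (nat_lit 54) (C.node (nat_lit 2) (nat_lit 8) (nat_lit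 11) (C.cons (nat_lit 2340) (C.miq (nat_lit 2233119296) (nat_lit 3754994450325677012533053469)) (C.cons (nat_lit 2308) (C.node (nat_lit 2) (nat_lit 5) (nat_lit 11) (C.cons (nat_lit 2596) (C.miq (nat_lit 1918151568) (nat_lit 65303596298357264471887617)) C.nil)) C.nil))) (C.cons (nat_lit 22) (C.node (nat_lit 1) (nat_lit 4) (nat_lit 5) (C.cons (nat_lit 50) (C.node (nat_lit 1) (nat_lit 2) (nat_lit 11) (C.cons (nat_lit 2566) (C.node (nat_lit 1) (nat_lit 7) (nat_lit 11) (C.cons (nat_lit 2186) (C.miq (nat_lit 1906750240) (nat_lit 1936741093087224237027297309)) C.nil)) C.nil)) C.nil)) C.nil))) C.nil)))))) C.nil))))) C.nil))))) C.nil)))) C.nil)))) C.nil))) (C.cons (nat_lit 1090) (C.node (nat_lit 1) (nat_lit 9) (nat_lit 10) (C.cons (nat_lit 1538) (C.node (nat_lit 1) (nat_lit 2) (nat_lit 7) (C.cons (nat_lit 198) (C.node (nat_lit 1) (nat_lit 3) (nat_lit 7) (C.cons (nat_lit 2186) (C.miq (nat_lit 1906750240) (nat_lit 1317771073444534099577735197)) (C.cons (nat_lit 170)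 (C.miq (nat_lit 2316503895) (nat_lit 1254872251411564776923990241)) (C.cons (nat_lit 138) (C.miq (nat_lit 1394018854) (nat_lit 166873692855873676306154565)) C.nil)))) (C.cons (nat_lit 166) (C.miq (nat_lit 2584873815) (nat_lit 1254876899991071351730735329)) (C.cons (nat_lit 134) (C.node (nat_lit 1) (nat_lit 3) (nat_lit 11) (C.cons (nat_lit 2186) (C.miq (nat_lit 1906750240) (nat_lit 1317771073444534099577735197)) (C.cons (nat_lit 2122) (C.node (nat_lit 1) (nat_lit 3) (nat_lit 4)
  (C.cons (nat_lit 58) (C.miq (nat_lit 2170205232) (nat_lit 3754994450320610480125184029)) (C.cons (nat_lit 26) (C.node (nat_lit 1) (nat_lit 3) (nat_lit 7) (C.cons (nat_lit 170) (C.miq (nat_lit 2316503895) (nat_lit 1254872251411564776923990241)) (C.cons (nat_lit 138) (C.node (nat_lit 3) (nat_lit 8) (nat_lit 11) (C.cons (nat_lit 2344) (C.miq (nat_lit 1399961610) (nat_lit 166889059353690801385443073)) (C.cons (nat_lit 2312) (C.node (nat_lit 1) (nat_lit 2) (nat_lit 11) (C.cons (nat_lit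 2566) (C.node (nat_lit 1) (nat_lit 7) (nat_lit 11) C.nil) C.nil)) C.nil))) C.nil))) C.nil))) (C.cons (nat_lit 2058) (C.node (nat_lit 1) (nat_lit 7) (nat_lit 11) (C.cons (nat_lit 2690) (C.node (nat_lit 3) (nat_lit 7) (nat_lit 11) (C.cons (nat_lit 2184) (C.node (nat_lit 1) (nat_lit 2) (nat_lit 11) (C.cons (nat_lit 2118) (C.miq (nat_lit 1638249008) (nat_lit 3754965525768486217367226397)) (C.cons (nat_lit 2054) (C.node (nat_lit 1) (nat_lit 6) (nat_lit 11) C.nil) C.nil))) C.nil)) (C.cons (nat_lit 2178) (C.node (nat_lit 3) (nat_lit 7) (nat_lit 11) (C.cons (nat_lit 2696) (C.node (nat_lit 3) (nat_lit 5) (nat_lit 11) (C.cons (nat_lit 2344) (C.miq (nat_lit 1511534667) (nat_lit 1549886140213839256918034461)) (C.cons (nat_lit 2088) (C.node (nat_lit 5) (nat_lit 9) (nat_lit 11) (C.cons (nat_lit 2596) (C.miq (nat_lit 1383184650) (nat_lit 162053356146165061149462273)) C.nil)) C.nil))) (C.cons (nat_lit 2184) (C.node (nat_lit 7) (nat_lit 9) (nat_lit 11) C.nil) C.nil)))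 C.nil))) C.nil)))) C.nil)))) C.nil)) C.nil))) (C.cons (nat_lit 1030) (C.node (nat_lit 1) (nat_lit 3) (nat_lit 10) (C.cons (nat_lit 1098) (C.node (nat_lit 1) (nat_lit 9) (nat_lit 10) (C.cons (nat_lit 1538) (C.node (nat_lit 1) (nat_lit 3) (nat_lit 4) (C.cons (nat_lit 58) (C.miq (nat_lit 2170205232) (nat_lit 3754994450320610480125184029)) (C.cons (nat_lit 26) (C.node (nat_lit 1) (nat_lit 3) (nat_lit 8) (C.cons (nat_lit 298) (C.node (nat_lit 1) (nat_lit 2) (nat_lit 3) (C.cons (nat_lit 142) (C.miq (nat_lit 2591099683) (nat_lit 1415661783497040460306581533)) (C.cons (nat_lit 14) (C.node (nat_lit 1) (nat_lit 3) (nat_lit 7) (C.cons (nat_lit 2186) (C.node (nat_lit 7) (nat_lit 9) (nat_lit 11) (C.cons (nat_lit 2688) (C.node (nat_lit 3) (nat_lit 5) (nat_lit 11) (C.cons (nat_lit 2600) (C.miq (nat_lit 1094256565) (nat_lit 632278552611492996126869729)) (C.cons (nat_lit 2088) (C.node (nat_lit 3) (nat_lit 8) (nat_lit 11) (C.cons (nat_lit 2376) (C.miq (nat_lit 1094191030)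 (nat_lit 360266111127528920863738081)) (C.cons (nat_lit 2312) (C.node (nat_lit 5) (nat_lit 9) (nat_lit 11) (C.cons (nat_lit 2596) (C.miq (nat_lit 1537512048) (nat_lit 3733173280324123043243950725)) C.nil)) C.nil))) C.nil))) C.nil)) (C.cons (nat_lit 138) (C.node (nat_lit 1) (nat_lit 3) (nat_lit 11) (C.cons (nat_lit 2058) (C.node (nat_lit 1) (nat_lit 7) (nat_lit 11) C.nil) C.nil)) C.nil))) C.nil))) (C.cons (nat_lit 266) (C.node (nat_lit 1) (nat_lit 3) (nat_lit 11) (C.cons (nat_lit 2186) (C.node (nat_lit 7) (nat_lit 9) (nat_lit 11) (C.cons (nat_lit 2688) (C.node (nat_lit 3) (nat_lit 5) (nat_lit 11) (C.cons (nat_lit 2600) (C.miq (nat_lit 1094256565) (nat_lit 632278552611492996126869729)) (C.cons (nat_lit 2344) (C.miq (nat_lit 1399961610) (nat_lit 2642769137924451351183691521)) (C.cons (nat_lit 2088) (C.node (nat_lit 3) (nat_lit 8) (nat_lit 11) (C.cons (nat_lit 2376) (C.miq (nat_lit 1094191030) (nat_lit 321580484899860787273140449)) (C.cons (nat_lit 2312)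 (C.node (nat_lit 5) (nat_lit 9) (nat_lit 11) (C.cons (nat_lit 2596) (C.miq (nat_lit 1537512048) (nat_lit 3733173280324123043243950725)) C.nil)) C.nil))) C.nil)))) C.nil)) (C.cons (nat_lit 2058) (C.node (nat_lit 1) (nat_lit 3) (nat_lit 7) (C.cons (nat_lit 174) (C.miq (nat_lit 2704848240) (nat_lit 321645122835740503872964833)) (C.cons (nat_lit 170) (C.miq (nat_lit 2704848240) (nat_lit 321645122835740486693095649)) (C.cons (nat_lit 142) (C.miq (nat_lit 2591099683) (nat_lit 1415661783497040460306581533)) (C.cons (nat_lit 138) (C.node (nat_lit 1) (nat_lit 7) (nat_lit 11) (C.cons (nat_lit 2690)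
  (C.node (nat_lit 3) (nat_lit 7) (nat_lit 11) C.nil) C.nil)) C.nil))))) C.nil))) C.nil))) C.nil))) C.nil)) (C.cons (nat_lit 1034) (C.node (nat_lit 1) (nat_lit 6) (nat_lit 10) (C.cons (nat_lit 1602) (C.node (nat_lit 6) (nat_lit 9) (nat_lit 11) (C.cons (nat_lit 2632) (C.miq (nat_lit 1265238929) (nat_lit 3791212972033422236850455051)) (C.cons (nat_lit 2628) (C.miq (nat_lit 431269408) (nat_lit 3114214512915529267928695877)) (C.cons (nat_lit 2624) (C.node (nat_lit 1) (nat_lit 3) (nat_lit 4) (C.cons (nat_lit 122) (C.miq (nat_lit 2705896800) (nat_lit 2807196607963417863726893281)) (C.cons (nat_lit 90) (C.miq (nat_lit 999702689) (nat_lit 3172223011460393611991057555)) (C.cons (nat_lit 58) (C.miq (nat_lit 2170205232) (nat_lit 3754994450320610480125184029)) (C.cons (nat_lit 26) (C.node (nat_lit 1) (nat_lit 4) (nat_lit 6) (C.cons (nat_lit 118) (C.miq (nat_lit 2705896800) (nat_lit 2807196607963417846547024097)) (C.cons (nat_lit 114) (C.miq (nat_lit 2705896800) (nat_lit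 2807196607963417829367154913)) (C.cons (nat_lit 86) (C.miq (nat_lit 2171253792) (nat_lit 1936770017620208321628014621)) (C.cons (nat_lit 82) (C.node (nat_lit 1) (nat_lit 4) (nat_lit 5) (C.cons (nat_lit 54) (C.node (nat_lit 1) (nat_lit 4) (nat_lit 9) (C.cons (nat_lit 530) (C.node (nat_lit 2) (nat_lit 5) (nat_lit 11) (C.cons (nat_lit 2596) (C.miq (nat_lit 1918151568) (nat_lit 65303596298357264471887617)) (C.cons (nat_lit 2340) (C.miq (nat_lit 2233119296) (nat_lit 3754994450325677012533053469)) (C.cons (nat_lit 2084) (C.node (nat_lit 1) (nat_lit 2) (nat_lit 3) (C.cons (nat_lit 206) (C.miq (nat_lit 2591099683) (nat_lit 1415661783497040460310775837)) (C.cons (nat_lit 142) (C.miq (nat_lit 2591099683) (nat_lit 1415661783497040460306581533)) (C.cons (nat_lit 78) (C.miq (nat_lit 3105032802) (nat_lit 632306518627044419198387269)) C.nil)))) C.nil)))) C.nil)) (C.cons (nat_lit 50) (C.node (nat_lit 1) (nat_lit 2) (nat_lit 4) (C.cons (nat_lit 534) (C.node (nat_lit 1)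 (nat_lit 2) (nat_lit 11) (C.cons (nat_lit 2118) (C.miq (nat_lit 1444481828) (nat_lit 1936709512285863007776802845)) C.nil)) (C.cons (nat_lit 22) (C.node (nat_lit 1) (nat_lit 4) (nat_lit 9) (C.cons (nat_lit 530) (C.node (nat_lit 2) (nat_lit 5) (nat_lit 11) (C.cons (nat_lit 2596) (C.miq (nat_lit 1537512048) (nat_lit 3733173280324123043243950725)) (C.cons (nat_lit 2340) (C.node (nat_lit 2) (nat_lit 6) (nat_lit 11) (C.cons (nat_lit 2118) (C.node (nat_lit 2) (nat_lit 9) (nat_lit 11) C.nil) C.nil)) C.nil))) C.nil)) C.nil))) C.nil))) C.nil))))) C.nil))))) C.nil)))) (C.cons (nat_lit 1090) (C.node (nat_lit 1) (nat_lit 9) (nat_lit 10) (C.cons (nat_lit 1538) (C.node (nat_lit 2) (nat_lit 5) (nat_lit 11) (C.cons (nat_lit 2596) (C.miq (nat_lit 1537512048) (nat_lit 3733173280324123043243950725)) (C.cons (nat_lit 2340) (C.node (nat_lit 2) (nat_lit 4) (nat_lit 7) (C.cons (nat_lit 404) (C.miq (nat_lit 1363720818) (nat_lit 2807168919400567731115003012)) (C.cons (nat_lit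 212) (C.miq (nat_lit 1756512423) (nat_lit 2828890328702849459568247955)) (C.cons (nat_lit 180) (C.miq (nat_lit 2602895988) (nat_lit 2828896767602816766503552147)) (C.cons (nat_lit 148) (C.node (nat_lit 5) (nat_lit 7) (nat_lit 10) (C.cons (nat_lit 1696) (C.miq (nat_lit 1411879098) (nat_lit 178952307138830512047787777)) (C.cons (nat_lit 1440) (C.miq (nat_lit 1463978507) (nat_lit 178964187089426594213465857)) (C.cons (nat_lit 1184) (C.node (nat_lit 7) (nat_lit 8) (nat_lit 10) (C.cons (nat_lit 1472) (C.miq (nat_lit 1680310458) (nat_lit 178948175005107606325038849)) (C.cons (nat_lit 1408) (C.node (nat_lit 1) (nat_lit 4) (nat_lit 5) (C.cons (nat_lit 122) (C.miq (nat_lit 2705896800) (nat_lit 2807196607963417863726893281)) (C.cons (nat_lit 118) (C.miq (nat_lit 2705896800) (nat_lit 2807196607963417846547024097)) (C.cons (nat_lit 114) (C.miq (nat_lit 2705896800) (nat_lit 2807196607963417829367154913)) (C.cons (nat_lit 58) (C.miq (nat_lit 2170205232) (nat_lit 3754994450320610480125184029))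 (C.cons (nat_lit 54) (C.miq (nat_lit 2233119296) (nat_lit 3754994450325677012533053469))
  (C.cons (nat_lit 50) (C.node (nat_lit 1) (nat_lit 3) (nat_lit 4) (C.cons (nat_lit 90) (C.node (nat_lit 3) (nat_lit 8) (nat_lit 11) (C.cons (nat_lit 2376) (C.miq (nat_lit 2249896768) (nat_lit 1317799997992717850105808925)) (C.cons (nat_lit 2312) (C.node (nat_lit 6) (nat_lit 8) (nat_lit 11) (C.cons (nat_lit 2368) (C.node (nat_lit 3) (nat_lit 6) (nat_lit 11) (C.cons (nat_lit 2632) (C.miq (nat_lit 2518332224) (nat_lit 1317799998064775444143736861)) (C.cons (nat_lit 2120) (C.node (nat_lit 1) (nat_lit 3) (nat_lit 11) (C.cons (nat_lit 2186) (C.node (nat_lit 7) (nat_lit 9) (nat_lit 11) C.nil) C.nil)) C.nil))) C.nil)) C.nil))) (C.cons (nat_lit 26) (C.node (nat_lit 2) (nat_lit 7) (nat_lit 8) (C.cons (nat_lit 452) (C.node (nat_lit 2) (nat_lit 4) (nat_lit 8) (C.cons (nat_lit 1300) (C.miq (nat_lit 1730415528) (nat_lit 178927238495524341199146753)) (C.cons (nat_lit 788) (C.miq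 (nat_lit 1418070311) (nat_lit 407449930817320420085334661)) (C.cons (nat_lit 276) (C.node (nat_lit 2) (nat_lit 8) (nat_lit 10) (C.cons (nat_lit 1292) (C.miq (nat_lit 1445595011) (nat_lit 1321375567261022752099533193)) (C.cons (nat_lit 1284) (C.node (nat_lit 1) (nat_lit 2) (nat_lit 7) (C.cons (nat_lit 174) (C.miq (nat_lit 2316503895) (nat_lit 1250036548133106260225427681)) (C.cons (nat_lit 166) (C.miq (nat_lit 2584873815) (nat_lit 1245205493434154318333085921)) (C.cons (nat_lit 142) (C.miq (nat_lit 2591099683) (nat_lit 1415661783497040460306581533)) (C.cons (nat_lit 134) (C.node (nat_lit 1) (nat_lit 7) (nat_lit 8) (C.cons (nat_lit 930) (C.miq (nat_lit 1098037392) (nat_lit 162034374369390294433337089)) (C.cons (nat_lit 898) (C.miq (nat_lit 1098037392) (nat_lit 162034374369390156994383617)) (C.cons (nat_lit 418) (C.miq (nat_lit 672445808) (nat_lit 2807164067691263279282456801)) (C.cons (nat_lit 386) (C.node (nat_lit 2) (nat_lit 3) (nat_lit 10) C.nil) C.nil)))))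 C.nil))))) C.nil))) C.nil)))) (C.cons (nat_lit 388) (C.node (nat_lit 3) (nat_lit 5) (nat_lit 11) (C.cons (nat_lit 2600) (C.node (nat_lit 3) (nat_lit 7) (nat_lit 11) (C.cons (nat_lit 2186) (C.miq (nat_lit 1094256565) (nat_lit 632278552611492996126869729)) (C.cons (nat_lit 2184) (C.node (nat_lit 1) (nat_lit 3) (nat_lit 11) (C.cons (nat_lit 2058) (C.node (nat_lit 1) (nat_lit 7) (nat_lit 11) C.nil) C.nil)) C.nil))) (C.cons (nat_lit 2088) (C.node (nat_lit 5) (nat_lit 9) (nat_lit 11) (C.cons (nat_lit 2592) (C.node (nat_lit 3) (nat_lit 8) (nat_lit 11) (C.cons (nat_lit 2376) (C.node (nat_lit 1) (nat_lit 3) (nat_lit 11) (C.cons (nat_lit 2058) (C.node (nat_lit 1) (nat_lit 3) (nat_lit 8) C.nil) C.nil)) (C.cons (nat_lit 2312) (C.node (nat_lit 6) (nat_lit 8) (nat_lit 11) C.nil) C.nil))) C.nil)) C.nil))) C.nil))) C.nil))) C.nil))))))) C.nil))) C.nil)))) C.nil))))) (C.cons (nat_lit 2084) (C.node (nat_lit 2) (nat_lit 8) (nat_lit 11) (C.cons (nat_lit 2372) (C.miq (nat_lit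 1779966027) (nat_lit 1549886656730554620133378077)) (C.cons (nat_lit 2308) (C.node (nat_lit 5) (nat_lit 8) (nat_lit 11) (C.cons (nat_lit 2344) (C.miq (nat_lit 1511534667) (nat_lit 1549886140213839256918034461)) (C.cons (nat_lit 2336) (C.node (nat_lit 3) (nat_lit 5) (nat_lit 11) (C.cons (nat_lit 2600) (C.node (nat_lit 3) (nat_lit 7) (nat_lit 11) (C.cons (nat_lit 2186) (C.miq (nat_lit 1094256565) (nat_lit 632278552611492996126869729)) C.nil)) C.nil)) C.nil))) C.nil))) C.nil)))) C.nil)) C.nil))) C.nil))) C.nil)))) C.nil)) C.nil))) C.nil))))) (C.cons (nat_lit 2320) (C.node (nat_lit 1) (nat_lit 2) (nat_lit 10) (C.cons (nat_lit 1542) (C.miq (nat_lit 352955250) (nat_lit 678235830557439667304991876)) (C.cons (nat_lit 1038) (C.node (nat_lit 1) (nat_lit 8) (nat_lit 10) (C.cons (nat_lit 1346) (C.node (nat_lit 1) (nat_lit 9) (nat_lit 10) (C.cons (nat_lit 1538) (C.node (nat_lit 1) (nat_lit 8) (nat_lit 11) (C.cons (nat_lit 2314) (C.miq (nat_lit 1647419576) (nat_lit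 1254889830385169366744960769)) (C.cons (nat_lit 2306) (C.node (nat_lit 3) (nat_lit 8) (nat_lit 10) (C.cons (nat_lit 1304) (C.miq (nat_lit 323527174) (nat_lit 1576464098387179603368150085)) (C.cons (nat_lit 1288)
  (C.node (nat_lit 2) (nat_lit 4) (nat_lit 10) (C.cons (nat_lit 1556) (C.miq (nat_lit 1253413488) (nat_lit 3754933944784452392681800325)) (C.cons (nat_lit 1332) (C.miq (nat_lit 1511604784) (nat_lit 1859338259565654148945479709)) (C.cons (nat_lit 1300) (C.miq (nat_lit 2055647808) (nat_lit 1627256083552421819825850397)) (C.cons (nat_lit 1076) (C.miq (nat_lit 1511604784) (nat_lit 1859338259493596554907551773)) (C.cons (nat_lit 1044) (C.node (nat_lit 2) (nat_lit 8) (nat_lit 10) (C.cons (nat_lit 1316) (C.node (nat_lit 2) (nat_lit 9) (nat_lit 10) (C.cons (nat_lit 1540) (C.node (nat_lit 4) (nat_lit 8) (nat_lit 10) (C.cons (nat_lit 1296) (C.node (nat_lit 7) (nat_lit 8) (nat_lit 10) (C.cons (nat_lit 1408) (C.node (nat_lit 2) (nat_lit 5) (nat_lit 11) (C.cons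 (nat_lit 2596) (C.miq (nat_lit 1244202933) (nat_lit 1861756111159575239079495905)) (C.cons (nat_lit 2084) (C.node (nat_lit 2) (nat_lit 8) (nat_lit 11) (C.cons (nat_lit 2372) (C.miq (nat_lit 1244137398) (nat_lit 1590952595495225792991070433)) (C.cons (nat_lit 2308) (C.node (nat_lit 4) (nat_lit 5) (nat_lit 10) (C.cons (nat_lit 1136) (C.miq (nat_lit 879370369) (nat_lit 1373358879387192227101016327)) (C.cons (nat_lit 1072) (C.node (nat_lit 5) (nat_lit 8) (nat_lit 11) C.nil) C.nil))) C.nil))) C.nil))) C.nil)) C.nil)) C.nil)) (C.cons (nat_lit 1284) (C.node (nat_lit 2) (nat_lit 5) (nat_lit 10) (C.cons (nat_lit 1572) (C.node (nat_lit 5) (nat_lit 6) (nat_lit 10) (C.cons (nat_lit 1136) (C.miq (nat_lit 879370369) (nat_lit 1373358879387192227101016327)) (C.cons (nat_lit 1120) (C.node (nat_lit 4) (nat_lit 5) (nat_lit 6) (C.cons (nat_lit 122) (C.miq (nat_lit 2316569430) (nat_lit 1415658352402642329421875425)) (C.cons (nat_lit 120) (C.miq (nat_lit 2739278344) (nat_lit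 145095927963458660516036871)) (C.cons (nat_lit 118) (C.miq (nat_lit 2316569430) (nat_lit 1415658352402642329421613281)) (C.cons (nat_lit 116) (C.miq (nat_lit 2303986214) (nat_lit 678213602437711944370881605)) (C.cons (nat_lit 114) (C.miq (nat_lit 2316569430) (nat_lit 1415658352402642329421351137)) (C.cons (nat_lit 112) (C.node (nat_lit 2) (nat_lit 5) (nat_lit 11) (C.cons (nat_lit 2340) (C.node (nat_lit 3) (nat_lit 5) (nat_lit 11) (C.cons (nat_lit 2600) (C.miq (nat_lit 1377024009) (nat_lit 1254912962953229303292825345)) (C.cons (nat_lit 2088) (C.node (nat_lit 5) (nat_lit 9) (nat_lit 11) (C.cons (nat_lit 2592) (C.node (nat_lit 5) (nat_lit 7) (nat_lit 10) (C.cons (nat_lit 1440) (C.miq (nat_lit 1116343127) (nat_lit 1552282354107127751153551585)) (C.cons (nat_lit 1184) (C.node (nat_lit 7) (nat_lit 8) (nat_lit 10) C.nil) C.nil))) C.nil)) C.nil))) (C.cons (nat_lit 2084) (C.node (nat_lit 2) (nat_lit 8) (nat_lit 11) (C.cons (nat_lit 2372) (C.miq (nat_lit 1244137398)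 (nat_lit 1552266969267557659400472801)) (C.cons (nat_lit 2308) (C.node (nat_lit 5) (nat_lit 8) (nat_lit 11) (C.cons (nat_lit 2344) (C.miq (nat_lit 461874480) (nat_lit 2940129195314359811862758441)) (C.cons (nat_lit 2336) (C.node (nat_lit 3) (nat_lit 4) (nat_lit 10) (C.cons (nat_lit 1560) (C.miq (nat_lit 1781825824) (nat_lit 1885930495530444129625243911)) (C.cons (nat_lit 1112) (C.node (nat_lit 4) (nat_lit 9) (nat_lit 10) (C.cons (nat_lit 1552) (C.node (nat_lit 3) (nat_lit 7) (nat_lit 10) C.nil) C.nil)) (C.cons (nat_lit 1048) (C.miq (nat_lit 1781825824) (nat_lit 1266960475887753992175681799)) C.nil)))) C.nil))) C.nil))) C.nil))) C.nil))))))) C.nil))) (C.cons (nat_lit 1060) (C.node (nat_lit 2) (nat_lit 9) (nat_lit 10) (C.cons (nat_lit 1540) (C.node (nat_lit 4) (nat_lit 8) (nat_lit 10) (C.cons (nat_lit 1328) (C.node (nat_lit 7) (nat_lit 8) (nat_lit 10) (C.cons (nat_lit 1408) (C.node (nat_lit 5) (nat_lit 7) (nat_lit 10) (C.cons (nat_lit 1696) (C.miq (nat_lit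 1118374773) (nat_lit 1861756111414591567920367841)) C.nil)) C.nil)) (C.cons (nat_lit 1296) (C.node (nat_lit 4) (nat_lit 5) (nat_lit 10) (C.cons (nat_lit 1136) (C.miq (nat_lit 879370369) (nat_lit 1373358879387192227101016327)) C.nil)) C.nil))) C.nil)) C.nil))) C.nil))) C.nil)))))) C.nil))) C.nil))) C.nil)) (C.cons (nat_lit 1282)
  (C.node (nat_lit 1) (nat_lit 6) (nat_lit 10) (C.cons (nat_lit 1602) (C.node (nat_lit 1) (nat_lit 2) (nat_lit 7) (C.cons (nat_lit 198) (C.node (nat_lit 1) (nat_lit 3) (nat_lit 7) (C.cons (nat_lit 2186) (C.miq (nat_lit 1906750240) (nat_lit 1936741093087224237027297309)) (C.cons (nat_lit 170) (C.miq (nat_lit 2316503895) (nat_lit 1254872251411564776923990241)) (C.cons (nat_lit 138) (C.miq (nat_lit 1394018854) (nat_lit 166873692855873676306154565)) C.nil)))) (C.cons (nat_lit 166) (C.miq (nat_lit 2584873815) (nat_lit 1254876899991071351730735329)) (C.cons (nat_lit 134) (C.node (nat_lit 1) (nat_lit 2) (nat_lit 11) (C.cons (nat_lit 2566)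 (C.node (nat_lit 1) (nat_lit 7) (nat_lit 11) (C.cons (nat_lit 2186) (C.miq (nat_lit 1906750240) (nat_lit 1936741093087224237027297309)) (C.cons (nat_lit 2178) (C.node (nat_lit 2) (nat_lit 6) (nat_lit 11) (C.cons (nat_lit 2372) (C.miq (nat_lit 2072289888) (nat_lit 2804729503545106012268725317)) (C.cons (nat_lit 2116) (C.node (nat_lit 3) (nat_lit 7) (nat_lit 11) (C.cons (nat_lit 2696) (C.miq (nat_lit 2276590481) (nat_lit 3873403177649594506617946635)) (C.cons (nat_lit 2184) (C.node (nat_lit 7) (nat_lit 9) (nat_lit 11) (C.cons (nat_lit 2688) (C.node (nat_lit 4) (nat_lit 9) (nat_lit 11) (C.cons (nat_lit 2640) (C.miq (nat_lit 2257650866) (nat_lit 1936704014611195729524688925)) C.nil)) C.nil)) C.nil))) C.nil))) C.nil))) (C.cons (nat_lit 2118) (C.miq (nat_lit 1638249008) (nat_lit 3754965525768486217367226397)) (C.cons (nat_lit 2054) (C.node (nat_lit 1) (nat_lit 2) (nat_lit 9) (C.cons (nat_lit 550) (C.node (nat_lit 2) (nat_lit 9) (nat_lit 10) (C.cons (nat_lit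 1556) (C.miq (nat_lit 2996140608) (nat_lit 664951131139178096286041235)) (C.cons (nat_lit 1540) (C.node (nat_lit 5) (nat_lit 9) (nat_lit 10) (C.cons (nat_lit 1696) (C.miq (nat_lit 1118374773) (nat_lit 1861756111414591567920367841)) (C.cons (nat_lit 1568) (C.node (nat_lit 1) (nat_lit 2) (nat_lit 4) (C.cons (nat_lit 86) (C.node (nat_lit 1) (nat_lit 4) (nat_lit 11) (C.cons (nat_lit 2578) (C.node (nat_lit 4) (nat_lit 6) (nat_lit 11) (C.cons (nat_lit 2128) (C.node (nat_lit 1) (nat_lit 7) (nat_lit 9) (C.cons (nat_lit 898) (C.miq (nat_lit 873925528) (nat_lit 1415659384923786330547293953)) (C.cons (nat_lit 642) (C.node (nat_lit 1) (nat_lit 8) (nat_lit 9) (C.cons (nat_lit 770) (C.node (nat_lit 1) (nat_lit 7) (nat_lit 11) (C.cons (nat_lit 2178) (C.node (nat_lit 1) (nat_lit 3) (nat_lit 7) C.nil) C.nil)) C.nil)) C.nil))) C.nil)) (C.cons (nat_lit 2066) (C.miq (nat_lit 2437654048) (nat_lit 2497711597718734275524494405)) C.nil))) (C.cons (nat_lit 22) (C.node (nat_lit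 1) (nat_lit 2) (nat_lit 6) (C.cons (nat_lit 70) (C.node (nat_lit 2) (nat_lit 9) (nat_lit 11) (C.cons (nat_lit 2628) (C.miq (nat_lit 1113656218) (nat_lit 84646409094969170021453569)) (C.cons (nat_lit 2564) (C.node (nat_lit 2) (nat_lit 6) (nat_lit 11) (C.cons (nat_lit 2372) (C.miq (nat_lit 2072289888) (nat_lit 2804729503545106012268725317)) (C.cons (nat_lit 2116) (C.node (nat_lit 2) (nat_lit 4) (nat_lit 10) (C.cons (nat_lit 1332) (C.miq (nat_lit 1511604784) (nat_lit 1936709512020990416126674973)) (C.cons (nat_lit 1300) (C.miq (nat_lit 2259828858) (nat_lit 2558111015166717985917502611)) (C.cons (nat_lit 1076) (C.miq (nat_lit 1511604784) (nat_lit 1936709511948932822088747037)) (C.cons (nat_lit 1044) (C.node (nat_lit 2) (nat_lit 5) (nat_lit 11) (C.cons (nat_lit 2340) (C.node (nat_lit 2) (nat_lit 5) (nat_lit 10) C.nil) C.nil)) C.nil))))) C.nil))) C.nil))) C.nil)) C.nil))) C.nil))) C.nil))) (C.cons (nat_lit 534) (C.miq (nat_lit 2443526704) (nat_lit 3754933944496775663505180701))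 (C.cons (nat_lit 518) (C.node (nat_lit 1) (nat_lit 7) (nat_lit 11) (C.cons (nat_lit 2690) (C.node (nat_lit 3) (nat_lit 7) (nat_lit 11) (C.cons (nat_lit 2184) (C.node (nat_lit 1) (nat_lit 4) (nat_lit 9) (C.cons (nat_lit 786) (C.miq (nat_lit 1729366936) (nat_lit 1415658351961287779276689153)) (C.cons (nat_lit 530) (C.node (nat_lit 2) (nat_lit 6) (nat_lit 11) (C.cons (nat_lit 2628)
  (C.miq (nat_lit 2710702006) (nat_lit 626243737181269228400150753)) (C.cons (nat_lit 2372) (C.miq (nat_lit 2072289888) (nat_lit 2804729503545106012268725317)) (C.cons (nat_lit 2116) (C.node (nat_lit 2) (nat_lit 9) (nat_lit 11) (C.cons (nat_lit 2596) (C.miq (nat_lit 1383184650) (nat_lit 162053356146165061149462273)) (C.cons (nat_lit 2564) (C.node (nat_lit 5) (nat_lit 9) (nat_lit 11) (C.cons (nat_lit 2600) (C.miq (nat_lit 2710767541) (nat_lit 632287849770508310404401377)) C.nil)) C.nil))) C.nil)))) C.nil))) C.nil)) (C.cons (nat_lit 2186) (C.miq (nat_lit 1906750240) (nat_lit 1936741093087224237027297309))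 (C.cons (nat_lit 2178) (C.node (nat_lit 1) (nat_lit 9) (nat_lit 11) (C.cons (nat_lit 2578) (C.node (nat_lit 4) (nat_lit 6) (nat_lit 11) (C.cons (nat_lit 2128) (C.node (nat_lit 2) (nat_lit 6) (nat_lit 11) (C.cons (nat_lit 2628) (C.node (nat_lit 5) (nat_lit 9) (nat_lit 11) (C.cons (nat_lit 2600) (C.miq (nat_lit 2476913926) (nat_lit 1254913479535250305706166497)) (C.cons (nat_lit 2592) (C.node (nat_lit 3) (nat_lit 5) (nat_lit 11) (C.cons (nat_lit 2344) (C.miq (nat_lit 461874480) (nat_lit 2940129195314359811862758441)) C.nil)) C.nil))) (C.cons (nat_lit 2372) (C.miq (nat_lit 2602963978) (nat_lit 2867601596535557895783515283)) (C.cons (nat_lit 2116) (C.miq (nat_lit 2602963978) (nat_lit 2558116586714212827058734227)) C.nil)))) C.nil)) (C.cons (nat_lit 2562) (C.node (nat_lit 2) (nat_lit 6) (nat_lit 11) (C.cons (nat_lit 2628) (C.miq (nat_lit 1100679778) (nat_lit 3097306264069735118773945413)) (C.cons (nat_lit 2372) (C.miq (nat_lit 2072289888) (nat_lit 2804729503545106012268725317))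 (C.cons (nat_lit 2116) (C.node (nat_lit 2) (nat_lit 9) (nat_lit 11) (C.cons (nat_lit 2596) (C.miq (nat_lit 1383184650) (nat_lit 162053356146165061149462273)) (C.cons (nat_lit 2564) (C.node (nat_lit 1) (nat_lit 4) (nat_lit 11) C.nil) C.nil))) C.nil)))) C.nil))) C.nil)))) C.nil)))) C.nil)))) C.nil)))) (C.cons (nat_lit 1090) (C.node (nat_lit 1) (nat_lit 9) (nat_lit 10) (C.cons (nat_lit 1538) (C.node (nat_lit 1) (nat_lit 2) (nat_lit 7) (C.cons (nat_lit 198) (C.node (nat_lit 1) (nat_lit 3) (nat_lit 7) (C.cons (nat_lit 2186) (C.miq (nat_lit 1906750240) (nat_lit 1317771073444534099577735197)) (C.cons (nat_lit 170) (C.miq (nat_lit 2316503895) (nat_lit 1254872251411564776923990241)) (C.cons (nat_lit 138) (C.miq (nat_lit 1394018854) (nat_lit 166873692855873676306154565)) C.nil)))) (C.cons (nat_lit 166) (C.miq (nat_lit 2584873815) (nat_lit 1254876899991071351730735329)) (C.cons (nat_lit 134) (C.node (nat_lit 1) (nat_lit 7) (nat_lit 11) (C.cons (nat_lit 2690) (C.node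 (nat_lit 3) (nat_lit 7) (nat_lit 11) (C.cons (nat_lit 2184) (C.node (nat_lit 1) (nat_lit 2) (nat_lit 11) (C.cons (nat_lit 2118) (C.miq (nat_lit 1638249008) (nat_lit 3754965525768486217367226397)) (C.cons (nat_lit 2054) (C.node (nat_lit 2) (nat_lit 6) (nat_lit 11) (C.cons (nat_lit 2628) (C.miq (nat_lit 706306171) (nat_lit 1859376388918382558527490273)) (C.cons (nat_lit 2372) (C.miq (nat_lit 2072289888) (nat_lit 2804729503545106012268725317)) (C.cons (nat_lit 2116) (C.node (nat_lit 2) (nat_lit 9) (nat_lit 11) (C.cons (nat_lit 2596) (C.miq (nat_lit 1383184650) (nat_lit 162053356146165061149462273)) (C.cons (nat_lit 2564) (C.node (nat_lit 5) (nat_lit 9) (nat_lit 11) (C.cons (nat_lit 2600) (C.miq (nat_lit 2710767541) (nat_lit 632287849770508310404401377)) C.nil)) C.nil))) C.nil)))) C.nil))) C.nil)) (C.cons (nat_lit 2186) (C.miq (nat_lit 1906750240) (nat_lit 1317771073444534099577735197)) (C.cons (nat_lit 2178) (C.node (nat_lit 3) (nat_lit 7) (nat_lit 11) (C.cons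 (nat_lit 2696) (C.node (nat_lit 3) (nat_lit 5) (nat_lit 11) (C.cons (nat_lit 2344) (C.miq (nat_lit 461874480) (nat_lit 2940129195314359811862758441)) (C.cons (nat_lit 2088) (C.node (nat_lit 5) (nat_lit 9) (nat_lit 11) (C.cons (nat_lit 2596) (C.miq (nat_lit 1383184650) (nat_lit 162053356146165061149462273)) (C.cons (nat_lit 2592) (C.node (nat_lit 7) (nat_lit 9) (nat_lit 10) (C.cons (nat_lit 1728)
  (C.miq (nat_lit 2586015243) (nat_lit 1254914733668401258587556065)) (C.cons (nat_lit 1696) (C.miq (nat_lit 1521784608) (nat_lit 3733173280070795564263735941)) (C.cons (nat_lit 1664) (C.node (nat_lit 1) (nat_lit 2) (nat_lit 11) (C.cons (nat_lit 2630) (C.miq (nat_lit 1638249008) (nat_lit 3754965525912601405443082269)) (C.cons (nat_lit 2566) (C.miq (nat_lit 2276590481) (nat_lit 3873403177649594506617946635)) (C.cons (nat_lit 2118) (C.miq (nat_lit 1638249008) (nat_lit 3754965525768486217367226397)) (C.cons (nat_lit 2054) (C.node (nat_lit 2) (nat_lit 5) (nat_lit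 11) (C.cons (nat_lit 2340) (C.node (nat_lit 2) (nat_lit 6) (nat_lit 11) (C.cons (nat_lit 2628) (C.node (nat_lit 1) (nat_lit 9) (nat_lit 11) C.nil) C.nil)) C.nil)) C.nil))))) C.nil)))) C.nil))) C.nil))) (C.cons (nat_lit 2184) (C.node (nat_lit 7) (nat_lit 9) (nat_lit 11) (C.cons (nat_lit 2688) (C.node (nat_lit 1) (nat_lit 3) (nat_lit 7) (C.cons (nat_lit 202) (C.node (nat_lit 3) (nat_lit 6) (nat_lit 11) (C.cons (nat_lit 2632) (C.miq (nat_lit 2468001392) (nat_lit 1254935855444815208095353057)) (C.cons (nat_lit 2376) (C.miq (nat_lit 2199565936) (nat_lit 1254935855372757614057425121)) (C.cons (nat_lit 2120) (C.node (nat_lit 1) (nat_lit 3) (nat_lit 11) (C.cons (nat_lit 2314) (C.node (nat_lit 6) (nat_lit 8) (nat_lit 11) (C.cons (nat_lit 2372) (C.miq (nat_lit 2072289888) (nat_lit 2804729503545106012268725317)) C.nil)) (C.cons (nat_lit 2058) (C.node (nat_lit 1) (nat_lit 8) (nat_lit 11) C.nil) C.nil))) C.nil)))) (C.cons (nat_lit 170) (C.miq (nat_lit 2316503895)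 (nat_lit 1254872251411564776923990241)) (C.cons (nat_lit 138) (C.node (nat_lit 2) (nat_lit 5) (nat_lit 11) (C.cons (nat_lit 2596) (C.miq (nat_lit 1383184650) (nat_lit 162053356146165061149462273)) (C.cons (nat_lit 2340) (C.node (nat_lit 2) (nat_lit 8) (nat_lit 10) (C.cons (nat_lit 1300) (C.miq (nat_lit 1797785508) (nat_lit 2828892635090791492155081875)) (C.cons (nat_lit 1284) (C.node (nat_lit 3) (nat_lit 5) (nat_lit 11) (C.cons (nat_lit 2600) (C.miq (nat_lit 1377024009) (nat_lit 1254912962953229303292825345)) (C.cons (nat_lit 2088) (C.node (nat_lit 5) (nat_lit 9) (nat_lit 11) C.nil) C.nil))) C.nil))) (C.cons (nat_lit 2084) (C.node (nat_lit 2) (nat_lit 8) (nat_lit 11) (C.cons (nat_lit 2372) (C.miq (nat_lit 2072289888) (nat_lit 2804729503545106012268725317)) (C.cons (nat_lit 2308) (C.node (nat_lit 5) (nat_lit 8) (nat_lit 11) C.nil) C.nil))) C.nil)))) C.nil)))) C.nil)) C.nil))) C.nil)))) C.nil)))) C.nil)) C.nil))) C.nil))) (C.cons (nat_lit 1030) (C.node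 (nat_lit 1) (nat_lit 9) (nat_lit 10) (C.cons (nat_lit 1602) (C.node (nat_lit 1) (nat_lit 3) (nat_lit 10) (C.cons (nat_lit 1290) (C.miq (nat_lit 410755845) (nat_lit 2940164889252975502780597289)) (C.cons (nat_lit 1034) (C.node (nat_lit 1) (nat_lit 8) (nat_lit 10) (C.cons (nat_lit 1282) (C.node (nat_lit 2) (nat_lit 5) (nat_lit 11) (C.cons (nat_lit 2596) (C.miq (nat_lit 1537512048) (nat_lit 3733173280324123043243950725)) (C.cons (nat_lit 2340) (C.node (nat_lit 3) (nat_lit 5) (nat_lit 11) (C.cons (nat_lit 2600) (C.node (nat_lit 3) (nat_lit 7) (nat_lit 11) (C.cons (nat_lit 2186) (C.miq (nat_lit 1094256565) (nat_lit 632278552611492996126869729)) (C.cons (nat_lit 2184) (C.node (nat_lit 1) (nat_lit 7) (nat_lit 11) (C.cons (nat_lit 2690) (C.miq (nat_lit 2710767541) (nat_lit 632287849770508310404401377)) (C.cons (nat_lit 2178) (C.node (nat_lit 7) (nat_lit 9) (nat_lit 11) (C.cons (nat_lit 2688) (C.node (nat_lit 1) (nat_lit 9) (nat_lit 11) (C.cons (nat_lit 2578)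 (C.miq (nat_lit 1511600203) (nat_lit 1936747124857003462486001693)) (C.cons (nat_lit 2566) (C.miq (nat_lit 897620769) (nat_lit 349389210247623371273996806)) (C.cons (nat_lit 2562) (C.node (nat_lit 2) (nat_lit 9) (nat_lit 11) (C.cons (nat_lit 2628) (C.miq (nat_lit 1500134176) (nat_lit 1936718809536920665245157405)) C.nil)) C.nil)))) C.nil)) C.nil))) C.nil))) (C.cons (nat_lit 2088) (C.node (nat_lit 5) (nat_lit 9) (nat_lit 11) (C.cons (nat_lit 2592) (C.node (nat_lit 1) (nat_lit 2) (nat_lit 3) (C.cons (nat_lit 206)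
  (C.miq (nat_lit 2591099683) (nat_lit 1415661783497040460310775837)) (C.cons (nat_lit 174) (C.miq (nat_lit 2316503895) (nat_lit 1250036548133106260225427681)) (C.cons (nat_lit 142) (C.miq (nat_lit 2591099683) (nat_lit 1415661783497040460306581533)) (C.cons (nat_lit 110) (C.miq (nat_lit 3105032802) (nat_lit 632306518627044419200484421)) (C.cons (nat_lit 78) (C.miq (nat_lit 3105032802) (nat_lit 632306518627044419198387269)) (C.cons (nat_lit 46) (C.miq (nat_lit 2605910049) (nat_lit 2524246760083651702654107911)) (C.cons (nat_lit 14) (C.node (nat_lit 1) (nat_lit 2) (nat_lit 7) (C.cons (nat_lit 198) (C.node (nat_lit 2) (nat_lit 6) (nat_lit 11) (C.cons (nat_lit 2628) (C.miq (nat_lit 1113656218) (nat_lit 239388914005641704383844097)) (C.cons (nat_lit 2116) (C.node (nat_lit 1) (nat_lit 7) (nat_lit 8) (C.cons (nat_lit 930) (C.miq (nat_lit 1362266379) (nat_lit 16968127117511263541595905)) (C.cons (nat_lit 898) (C.miq (nat_lit 2171246368) (nat_lit 1936770017219388435828376197))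 (C.cons (nat_lit 418) (C.miq (nat_lit 1115753303) (nat_lit 317969092280591363711568097)) (C.cons (nat_lit 386) (C.node (nat_lit 1) (nat_lit 2) (nat_lit 11) (C.cons (nat_lit 2566) (C.node (nat_lit 1) (nat_lit 2) (nat_lit 4) (C.cons (nat_lit 54) (C.miq (nat_lit 2233119296) (nat_lit 3754994450325677012533053469)) (C.cons (nat_lit 22) (C.node (nat_lit 1) (nat_lit 2) (nat_lit 5) C.nil) C.nil))) (C.cons (nat_lit 2054) (C.node (nat_lit 2) (nat_lit 9) (nat_lit 11) C.nil) C.nil))) C.nil))))) C.nil))) (C.cons (nat_lit 166) (C.miq (nat_lit 2584873815) (nat_lit 1245205493434154318333085921)) (C.cons (nat_lit 134) (C.node (nat_lit 2) (nat_lit 5) (nat_lit 7) (C.cons (nat_lit 180) (C.miq (nat_lit 2602895988) (nat_lit 2828896767602816766503552147)) (C.cons (nat_lit 172) (C.node (nat_lit 2) (nat_lit 3) (nat_lit 10) (C.cons (nat_lit 1548) (C.miq (nat_lit 2740687472) (nat_lit 2524307965735056838005686917)) (C.cons (nat_lit 1292) (C.miq (nat_lit 2723906416) (nat_lit 2828957272205885795993715081))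 (C.cons (nat_lit 1036) (C.node (nat_lit 2) (nat_lit 8) (nat_lit 10) (C.cons (nat_lit 1300) (C.miq (nat_lit 1196597432) (nat_lit 207959222070629000808763137)) (C.cons (nat_lit 1284) (C.node (nat_lit 2) (nat_lit 9) (nat_lit 10) (C.cons (nat_lit 1572) (C.miq (nat_lit 2320697639) (nat_lit 1287513248541153176161354373)) (C.cons (nat_lit 1556) (C.miq (nat_lit 1165136058) (nat_lit 207963944265412134717099777)) (C.cons (nat_lit 1540) (C.node (nat_lit 5) (nat_lit 9) (nat_lit 10) (C.cons (nat_lit 1696) (C.miq (nat_lit 1114966953) (nat_lit 207945590181778856922320641)) (C.cons (nat_lit 1568) (C.node (nat_lit 5) (nat_lit 7) (nat_lit 10) (C.cons (nat_lit 1440) (C.miq (nat_lit 1113000842) (nat_lit 207956842695660108880285441)) (C.cons (nat_lit 1184) (C.node (nat_lit 2) (nat_lit 4) (nat_lit 10) (C.cons (nat_lit 1044) (C.node (nat_lit 2) (nat_lit 5) (nat_lit 10) C.nil) C.nil)) C.nil))) C.nil))) C.nil)))) C.nil))) C.nil)))) (C.cons (nat_lit 164) (C.node (nat_lit 5) (nat_lit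 7) (nat_lit 10) (C.cons (nat_lit 1696) (C.miq (nat_lit 1114966953) (nat_lit 198274183624861823524671233)) (C.cons (nat_lit 1440) (C.miq (nat_lit 1113000842) (nat_lit 198285436138743075482636033)) (C.cons (nat_lit 1184) (C.node (nat_lit 7) (nat_lit 8) (nat_lit 10) (C.cons (nat_lit 1472) (C.miq (nat_lit 2276747808) (nat_lit 2649971613562364918004253765)) (C.cons (nat_lit 1408) (C.node (nat_lit 2) (nat_lit 3) (nat_lit 7) (C.cons (nat_lit 204) (C.node (nat_lit 6) (nat_lit 7) (nat_lit 10) (C.cons (nat_lit 1216) (C.node (nat_lit 2) (nat_lit 3) (nat_lit 10) (C.cons (nat_lit 1548) (C.miq (nat_lit 1805873298) (nat_lit 3723495288188658013977707141)) (C.cons (nat_lit 1292) (C.miq (nat_lit 3123054647) (nat_lit 1321397851369220164421419401)) (C.cons (nat_lit 1036) (C.node (nat_lit 2) (nat_lit 8) (nat_lit 10) (C.cons (nat_lit 1300) (C.miq (nat_lit 1181909178) (nat_lit 246644848063547003879296769)) (C.cons (nat_lit 1284) (C.node (nat_lit 3) (nat_lit 9) (nat_lit 11)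 (C.cons (nat_lit 2696)
  (C.miq (nat_lit 2469050208) (nat_lit 1252518003823600356840245473)) (C.cons (nat_lit 2632) (C.miq (nat_lit 1265238929) (nat_lit 3791212972033422236850455051)) C.nil))) C.nil))) C.nil)))) C.nil)) (C.cons (nat_lit 140) (C.node (nat_lit 5) (nat_lit 9) (nat_lit 10) (C.cons (nat_lit 1572) (C.node (nat_lit 2) (nat_lit 4) (nat_lit 10) (C.cons (nat_lit 1300) (C.miq (nat_lit 1196597432) (nat_lit 198287815513711967411113729)) (C.cons (nat_lit 1044) (C.node (nat_lit 2) (nat_lit 4) (nat_lit 5) (C.cons (nat_lit 118) (C.miq (nat_lit 2316569430) (nat_lit 1415658352402642329421613281)) (C.cons (nat_lit 116) (C.miq (nat_lit 2303986214) (nat_lit 678213602437711944370881605)) (C.cons (nat_lit 54) (C.miq (nat_lit 2233119296) (nat_lit 3754994450325677012533053469)) (C.cons (nat_lit 52) (C.node (nat_lit 1) (nat_lit 2) (nat_lit 5) (C.cons (nat_lit 102) (C.node (nat_lit 2) (nat_lit 3) (nat_lit 5) (C.cons (nat_lit 44) (C.node (nat_lit 1) (nat_lit 2) (nat_lit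 11) C.nil) C.nil)) (C.cons (nat_lit 38) (C.node (nat_lit 2) (nat_lit 3) (nat_lit 5) (C.cons (nat_lit 108) (C.node (nat_lit 2) (nat_lit 3) (nat_lit 10) C.nil) C.nil)) C.nil))) C.nil))))) C.nil))) (C.cons (nat_lit 1568) (C.node (nat_lit 2) (nat_lit 5) (nat_lit 10) (C.cons (nat_lit 1076) (C.node (nat_lit 5) (nat_lit 6) (nat_lit 10) (C.cons (nat_lit 1376) (C.node (nat_lit 2) (nat_lit 8) (nat_lit 10) (C.cons (nat_lit 1292) (C.miq (nat_lit 995631210) (nat_lit 2828910251676208790732014661)) (C.cons (nat_lit 1284) (C.node (nat_lit 1) (nat_lit 2) (nat_lit 5) C.nil) C.nil))) C.nil)) (C.cons (nat_lit 1060) (C.node (nat_lit 4) (nat_lit 5) (nat_lit 10) (C.cons (nat_lit 1072) (C.node (nat_lit 5) (nat_lit 6) (nat_lit 10) C.nil) C.nil)) C.nil))) C.nil))) C.nil))) C.nil))) C.nil)))) C.nil)))) C.nil)))) C.nil)))))))) C.nil)) C.nil))) (C.cons (nat_lit 2084) (C.node (nat_lit 2) (nat_lit 8) (nat_lit 11) (C.cons (nat_lit 2372) (C.miq (nat_lit 2072289888) (nat_lit 2804729503545106012268725317))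 (C.cons (nat_lit 2308) (C.node (nat_lit 5) (nat_lit 8) (nat_lit 11) (C.cons (nat_lit 2344) (C.miq (nat_lit 461874480) (nat_lit 2940129195314359811862758441)) (C.cons (nat_lit 2336) (C.node (nat_lit 3) (nat_lit 5) (nat_lit 11) (C.cons (nat_lit 2600) (C.node (nat_lit 3) (nat_lit 7) (nat_lit 11) (C.cons (nat_lit 2186) (C.miq (nat_lit 1094256565) (nat_lit 632278552611492996126869729)) (C.cons (nat_lit 2184) (C.node (nat_lit 1) (nat_lit 7) (nat_lit 11) (C.cons (nat_lit 2690) (C.miq (nat_lit 2710767541) (nat_lit 632287849770508310404401377)) C.nil)) C.nil))) (C.cons (nat_lit 2088) (C.node (nat_lit 5) (nat_lit 9) (nat_lit 11) (C.cons (nat_lit 2592) (C.node (nat_lit 1) (nat_lit 2) (nat_lit 11) C.nil) C.nil)) C.nil))) C.nil))) C.nil))) C.nil)))) C.nil)) C.nil))) (C.cons (nat_lit 1538) (C.node (nat_lit 2) (nat_lit 5) (nat_lit 11) (C.cons (nat_lit 2596) (C.miq (nat_lit 1537512048) (nat_lit 3733173280324123043243950725)) (C.cons (nat_lit 2340) (C.node (nat_lit 3)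 (nat_lit 5) (nat_lit 11) (C.cons (nat_lit 2600) (C.node (nat_lit 3) (nat_lit 7) (nat_lit 11) (C.cons (nat_lit 2186) (C.miq (nat_lit 1094256565) (nat_lit 632278552611492996126869729)) (C.cons (nat_lit 2184) (C.node (nat_lit 1) (nat_lit 7) (nat_lit 11) (C.cons (nat_lit 2690) (C.miq (nat_lit 2710767541) (nat_lit 632287849770508310404401377)) (C.cons (nat_lit 2178) (C.node (nat_lit 7) (nat_lit 9) (nat_lit 11) (C.cons (nat_lit 2688) (C.node (nat_lit 2) (nat_lit 5) (nat_lit 7) (C.cons (nat_lit 180) (C.miq (nat_lit 2602895988) (nat_lit 2828896767602816766503552147)) (C.cons (nat_lit 174) (C.miq (nat_lit 2584873815) (nat_lit 1245205493434154318333610209)) (C.cons (nat_lit 172) (C.miq (nat_lit 324143544) (nat_lit 207940092614630183549538049)) (C.cons (nat_lit 166) (C.miq (nat_lit 891394944) (nat_lit 200691334435023982785138433)) (C.cons (nat_lit 164) (C.node (nat_lit 3) (nat_lit 5) (nat_lit 7) (C.cons (nat_lit 184) (C.miq (nat_lit 2872510804) (nat_lit 2640315592256816983915889201))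 (C.cons (nat_lit 170) (C.miq (nat_lit 557154459) (nat_lit 205560554789649605364027137))
  (C.cons (nat_lit 168) (C.node (nat_lit 5) (nat_lit 7) (nat_lit 10) (C.cons (nat_lit 1696) (C.miq (nat_lit 1114966953) (nat_lit 198274183624861823524671233)) (C.cons (nat_lit 1440) (C.miq (nat_lit 1113000842) (nat_lit 198285436138743075482636033)) (C.cons (nat_lit 1184) (C.node (nat_lit 7) (nat_lit 8) (nat_lit 10) (C.cons (nat_lit 1472) (C.miq (nat_lit 2276747808) (nat_lit 2649971613562364918004253765)) (C.cons (nat_lit 1408) (C.node (nat_lit 1) (nat_lit 5) (nat_lit 7) (C.cons (nat_lit 930) (C.miq (nat_lit 1115753303) (nat_lit 317969092280591363745122529)) (C.cons (nat_lit 674) (C.miq (nat_lit 1133579095) (nat_lit 632289805380396065843448033)) (C.cons (nat_lit 418) (C.miq (nat_lit 1115753303) (nat_lit 317969092280591363711568097)) (C.cons (nat_lit 162) (C.node (nat_lit 5) (nat_lit 7) (nat_lit 9) (C.cons (nat_lit 928) (C.miq (nat_lit 425198514) (nat_lit 1121888012243289839627405341))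 (C.cons (nat_lit 672) (C.node (nat_lit 4) (nat_lit 5) (nat_lit 7) (C.cons (nat_lit 432) (C.node (nat_lit 2) (nat_lit 4) (nat_lit 7) C.nil) C.nil)) C.nil))) C.nil))))) C.nil))) C.nil)))) C.nil)))) C.nil)))))) C.nil)) C.nil))) C.nil))) (C.cons (nat_lit 2088) (C.node (nat_lit 5) (nat_lit 9) (nat_lit 11) (C.cons (nat_lit 2592) (C.ref (nat_lit 243) (nat_lit 198064386771216)) C.nil)) C.nil))) (C.cons (nat_lit 2084) (C.node (nat_lit 2) (nat_lit 8) (nat_lit 11) (C.cons (nat_lit 2372) (C.miq (nat_lit 2072289888) (nat_lit 2804729503545106012268725317)) (C.cons (nat_lit 2308) (C.node (nat_lit 5) (nat_lit 8) (nat_lit 11) (C.cons (nat_lit 2344) (C.miq (nat_lit 461874480) (nat_lit 2940129195314359811862758441)) (C.cons (nat_lit 2336) (C.node (nat_lit 3) (nat_lit 5) (nat_lit 11) (C.cons (nat_lit 2600) (C.node (nat_lit 3) (nat_lit 7) (nat_lit 11) (C.cons (nat_lit 2186) (C.miq (nat_lit 1094256565) (nat_lit 632278552611492996126869729)) (C.cons (nat_lit 2184) (C.node (nat_lit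 1) (nat_lit 7) (nat_lit 11) (C.cons (nat_lit 2690) (C.miq (nat_lit 2710767541) (nat_lit 632287849770508310404401377)) C.nil)) C.nil))) (C.cons (nat_lit 2088) (C.node (nat_lit 5) (nat_lit 9) (nat_lit 11) (C.cons (nat_lit 2592) (C.node (nat_lit 1) (nat_lit 7) (nat_lit 11) C.nil) C.nil)) C.nil))) C.nil))) C.nil))) C.nil)))) C.nil))) C.nil)))) C.nil))) List.nil)

theorem ok12_300 : okL par12 (nat_lit 301) c12_300 (nat_lit 300) = true := by decide +kernel

noncomputable def c12_301 : List C :=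
  (List.cons (C.node (nat_lit 2) (nat_lit 5) (nat_lit 7) (C.cons (nat_lit 180) (C.miq (nat_lit 2602895988) (nat_lit 2828896767602816766503552147)) (C.cons (nat_lit 174) (C.miq (nat_lit 2820737879) (nat_lit 317969092777113222613174497)) (C.cons (nat_lit 172) (C.miq (nat_lit 324143544) (nat_lit 207940092614630183549538049)) (C.cons (nat_lit 166) (C.miq (nat_lit 891394944) (nat_lit 200691334435023982785138433)) (C.cons (nat_lit 164) (C.node (nat_lit 3) (nat_lit 5) (nat_lit 7) (C.cons (nat_lit 184) (C.miq (nat_lit 2872510804) (nat_lit 2640315592256816983915889201)) (C.cons (nat_lit 170) (C.miq (nat_lit 557154459) (nat_lit 205560554789649605364027137)) (C.cons (nat_lit 168) (C.node (nat_lit 5) (nat_lit 7) (nat_lit 10) (C.cons (nat_lit 1696) (C.miq (nat_lit 1114966953) (nat_lit 198274183624861823524671233)) (C.cons (nat_lit 1440) (C.miq (nat_lit 1113000842) (nat_lit 198285436138743075482636033)) (C.cons (nat_lit 1184) (C.node (nat_lit 7) (nat_lit 8) (nat_lit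 10) (C.cons (nat_lit 1472) (C.miq (nat_lit 2276747808) (nat_lit 2649971613562364918004253765)) (C.cons (nat_lit 1408) (C.node (nat_lit 1) (nat_lit 5) (nat_lit 7) (C.cons (nat_lit 930) (C.miq (nat_lit 1115753303) (nat_lit 317969092280591363745122529)) (C.cons (nat_lit 674) (C.miq (nat_lit 1133579095) (nat_lit 632289805380396065843448033)) (C.cons (nat_lit 418) (C.miq (nat_lit 1115753303) (nat_lit 317969092280591363711568097)) (C.cons (nat_lit 162) (C.node (nat_lit 5) (nat_lit 7) (nat_lit 9) (C.cons (nat_lit 928) (C.miq (nat_lit 425198514) (nat_lit 1121888012243289839627405341)) (C.cons (nat_lit 672) (C.node (nat_lit 1) (nat_lit 4) (nat_lit 8) (C.cons (nat_lit 786) (C.miq (nat_lit 1478078979) (nat_lit 950263656410342751266867229)) (C.cons (nat_lit 282) (C.miq (nat_lit 2270245044) (nat_lit 195851184870028140841404445)) (C.cons (nat_lit 274) (C.node (nat_lit 1) (nat_lit 5) (nat_lit 10) (C.cons (nat_lit 1634) (C.miq (nat_lit 890550688) (nat_lit 2536364684170775060773277441))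 (C.cons (nat_lit 1574) (C.miq (nat_lit 891394944) (nat_lit 1902858888452421860771434241)) (C.cons (nat_lit 1570) (C.miq (nat_lit 890550688) (nat_lit 2536364684170774785895370497)) (C.cons (nat_lit 1378) (C.miq (nat_lit 622114976) (nat_lit 2536364684097590467316879105)) (C.cons (nat_lit 1314) (C.miq (nat_lit 622114976) (nat_lit 2536364684097590192438972161)) (C.cons (nat_lit 1122) (C.miq (nat_lit 605686614) (nat_lit 1415672297644635865663801569)) (C.cons (nat_lit 1062) (C.miq (nat_lit 891394944) (nat_lit 1283888868809731723321872129)) (C.cons (nat_lit 1058) (C.node (nat_lit 4) (nat_lit 5) (nat_lit 7) (C.cons (nat_lit 432) (C.node (nat_lit 2) (nat_lit 4) (nat_lit 7) C.nil) C.nil)) C.nil))))))))) C.nil)))) C.nil))) C.nil))))) C.nil))) C.nil)))) C.nil)))) C.nil)))))) List.nil)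

theorem ok12_301 : okL par12 (nat_lit 302) c12_301 (nat_lit 301) = true := by decide +kernel

noncomputable def c12_302 : List C :=
  (List.cons (C.node (nat_lit 2) (nat_lit 8) (nat_lit 10) (C.cons (nat_lit 1300) (C.miq (nat_lit 1797785508) (nat_lit 2828892635090791492155081875)) (C.cons (nat_lit 1292) (C.node (nat_lit 5) (nat_lit 7) (nat_lit 10) (C.cons (nat_lit 1696) (C.miq (nat_lit 1521784608) (nat_lit 3733173280070795564263735941)) (C.cons (nat_lit 1440) (C.miq (nat_lit 1116343127) (nat_lit 1561953760664044784551200993)) (C.cons (nat_lit 1184) (C.node (nat_lit 7) (nat_lit 8) (nat_lit 10) (C.cons (nat_lit 1472) (C.miq (nat_lit 1118309238) (nat_lit 1561938376079491021638994145)) (C.cons (nat_lit 1408) (C.node (nat_lit 2) (nat_lit 5) (nat_lit 7) (C.cons (nat_lit 180) (C.miq (nat_lit 1250062517) (nat_lit 1561935479685657856290588897)) (C.cons (nat_lit 174) (C.miq (nat_lit 2820737879) (nat_lit 317969092777113222613174497)) (C.cons (nat_lit 172) (C.miq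 (nat_lit 2723906416) (nat_lit 2828957272205885795993715081)) (C.cons (nat_lit 166) (C.miq (nat_lit 2820737879) (nat_lit 317969092777113222612650209)) (C.cons (nat_lit 164) (C.node (nat_lit 2) (nat_lit 3) (nat_lit 7) (C.cons (nat_lit 206) (C.miq (nat_lit 2591099683) (nat_lit 1415661783497040460310775837)) (C.cons (nat_lit 204) (C.miq (nat_lit 3123054647) (nat_lit 1321397851369220164421419401)) (C.cons (nat_lit 142) (C.miq (nat_lit 2591099683) (nat_lit 1415661783497040460306581533)) (C.cons (nat_lit 140) (C.node (nat_lit 1) (nat_lit 2) (nat_lit 7) (C.cons (nat_lit 198) (C.node (nat_lit 2) (nat_lit 6) (nat_lit 11) (C.cons (nat_lit 2628) (C.miq (nat_lit 2417408626) (nat_lit 81046509038756278372273284)) (C.cons (nat_lit 2116) (C.node (nat_lit 1) (nat_lit 10) (nat_lit 11) (C.cons (nat_lit 3146) (C.miq (nat_lit 2443641778) (nat_lit 1415664033065883231238490141)) (C.cons (nat_lit 3138) (C.miq (nat_lit 2606893591) (nat_lit 2558098933535641739505042579)) (C.cons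 (nat_lit 3082) (C.miq (nat_lit 2443641778) (nat_lit 1415664033065882956360583197)) (C.cons (nat_lit 3074) (C.node (nat_lit 1) (nat_lit 2) (nat_lit 3) (C.cons (nat_lit 46) (C.node (nat_lit 1) (nat_lit 2) (nat_lit 10) (C.cons (nat_lit 1542) (C.miq (nat_lit 2456527216) (nat_lit 2558157888682577716706346131)) (C.cons (nat_lit 1030) (C.node (nat_lit 1) (nat_lit 2) (nat_lit 11) (C.cons (nat_lit 2566) (C.miq (nat_lit 2871331091) (nat_lit 2828906064761827175919649291)) (C.cons (nat_lit 2054) (C.node (nat_lit 2) (nat_lit 9) (nat_lit 11) (C.cons (nat_lit 2564) (C.node (nat_lit 1) (nat_lit 5) (nat_lit 11) (C.cons (nat_lit 2594) (C.miq (nat_lit 2233053744) (nat_lit 3136024430682986840681285661)) (C.cons (nat_lit 2082) (C.node (nat_lit 3) (nat_lit 5) (nat_lit 11) (C.cons (nat_lit 2600) (C.node (nat_lit 3) (nat_lit 7) (nat_lit 11) (C.cons (nat_lit 2186) (C.miq (nat_lit 1094256565) (nat_lit 632278552611492996126869729)) C.nil)) (C.cons (nat_lit 2088) (C.miq (nat_lit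 2605910049) (nat_lit 2524246760083651702654107911)) C.nil))) C.nil))) C.nil)) C.nil))) C.nil))) (C.cons (nat_lit 14) (C.node (nat_lit 1) (nat_lit 2) (nat_lit 11) (C.cons (nat_lit 2566) (C.node (nat_lit 1) (nat_lit 2) (nat_lit 4) (C.cons (nat_lit 54) (C.miq (nat_lit 2874411041) (nat_lit 2533930120130728499841728775)) (C.cons (nat_lit 22) (C.node (nat_lit 5) (nat_lit 9) (nat_lit 11) (C.cons (nat_lit 2600) (C.miq (nat_lit 1377024009) (nat_lit 16972923667849028393701121)) (C.cons (nat_lit 2592) (C.node (nat_lit 7) (nat_lit 9) (nat_lit 11) (C.cons (nat_lit 2696) (C.miq (nat_lit 2066233616) (nat_lit 2828893668227520794781483531)) (C.cons (nat_lit 2688) (C.node (nat_lit 1) (nat_lit 7) (nat_lit 8) (C.cons (nat_lit 930) (C.miq (nat_lit 840371096) (nat_lit 239374562438752092020674305)) (C.cons (nat_lit 898) (C.miq (nat_lit 840371096) (nat_lit 239374562438752092018577153)) (C.cons (nat_lit 418) (C.miq (nat_lit 1115753303) (nat_lit 317969092280591363711568097)) (C.cons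 (nat_lit 386) (C.node (nat_lit 1) (nat_lit 8) (nat_lit 10) (C.cons (nat_lit 1378) (C.miq (nat_lit 1363315211) (nat_lit 26639533800531869644427009)) (C.cons (nat_lit 1346) (C.miq (nat_lit 2551646818) (nat_lit 466657265602325570681963589)) (C.cons (nat_lit 1314)
  (C.miq (nat_lit 1363315211) (nat_lit 26639533782517471134945025)) (C.cons (nat_lit 1282) (C.node (nat_lit 2) (nat_lit 6) (nat_lit 8) (C.cons (nat_lit 836) (C.miq (nat_lit 1638409993) (nat_lit 1549858322279737298205606533)) (C.cons (nat_lit 324) (C.node (nat_lit 2) (nat_lit 8) (nat_lit 9) (C.cons (nat_lit 788) (C.miq (nat_lit 1394870921) (nat_lit 2510949276262786546269425409)) (C.cons (nat_lit 772) (C.node (nat_lit 1) (nat_lit 2) (nat_lit 5) (C.cons (nat_lit 38) (C.node (nat_lit 1) (nat_lit 2) (nat_lit 10) C.nil) C.nil)) C.nil))) C.nil))) C.nil))))) C.nil))))) C.nil))) C.nil))) C.nil))) (C.cons (nat_lit 2054) (C.node (nat_lit 2) (nat_lit 9) (nat_lit 11) (C.cons (nat_lit 2564) (C.node (nat_lit 1)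 (nat_lit 3) (nat_lit 10) (C.cons (nat_lit 1098) (C.node (nat_lit 3) (nat_lit 10) (nat_lit 11) (C.cons (nat_lit 3080) (C.node (nat_lit 6) (nat_lit 10) (nat_lit 11) (C.cons (nat_lit 3136) (C.node (nat_lit 1) (nat_lit 5) (nat_lit 11) C.nil) C.nil)) C.nil)) (C.cons (nat_lit 1034) (C.node (nat_lit 2) (nat_lit 4) (nat_lit 7) (C.cons (nat_lit 404) (C.node (nat_lit 1) (nat_lit 2) (nat_lit 4) (C.cons (nat_lit 534) (C.miq (nat_lit 2474774644) (nat_lit 1561942009650649355389240467)) (C.cons (nat_lit 54) (C.miq (nat_lit 2874411041) (nat_lit 2533930120130728499841728775)) (C.cons (nat_lit 22) (C.node (nat_lit 2) (nat_lit 4) (nat_lit 10) (C.cons (nat_lit 1556) (C.miq (nat_lit 1461980073) (nat_lit 488416380387541920880267009)) (C.cons (nat_lit 1076) (C.miq (nat_lit 1384359024) (nat_lit 1561951805027408204526060691)) (C.cons (nat_lit 1044) (C.node (nat_lit 1) (nat_lit 7) (nat_lit 8) (C.cons (nat_lit 930) (C.miq (nat_lit 1362266379) (nat_lit 16968127117511263541595905))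 (C.cons (nat_lit 898) (C.miq (nat_lit 2468876359) (nat_lit 1561948724265499418390955155)) (C.cons (nat_lit 418) (C.miq (nat_lit 1115753303) (nat_lit 317969092280591363711568097)) (C.cons (nat_lit 386) (C.node (nat_lit 1) (nat_lit 8) (nat_lit 10) (C.cons (nat_lit 1378) (C.miq (nat_lit 1363315211) (nat_lit 26639533800531869644427009)) (C.cons (nat_lit 1346) (C.miq (nat_lit 2551646818) (nat_lit 466657265602325570681963589)) (C.cons (nat_lit 1314) (C.miq (nat_lit 1363315211) (nat_lit 26639533782517471134945025)) (C.cons (nat_lit 1282) (C.node (nat_lit 2) (nat_lit 6) (nat_lit 8) (C.cons (nat_lit 836) (C.miq (nat_lit 1638409993) (nat_lit 1549858322279737298205606533)) (C.cons (nat_lit 324) (C.node (nat_lit 2) (nat_lit 8) (nat_lit 9) C.nil) C.nil))) C.nil))))) C.nil))))) C.nil)))) C.nil)))) (C.cons (nat_lit 148) (C.node (nat_lit 2) (nat_lit 7) (nat_lit 8) (C.cons (nat_lit 388) (C.node (nat_lit 2) (nat_lit 4) (nat_lit 8) (C.cons (nat_lit 788) (C.miq (nat_lit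 1394870921) (nat_lit 2510949276262786546269425409)) (C.cons (nat_lit 276) (C.node (nat_lit 3) (nat_lit 10) (nat_lit 11) C.nil) C.nil))) C.nil)) C.nil))) C.nil))) C.nil)) C.nil))) C.nil))) C.nil))))) C.nil))) (C.cons (nat_lit 134) (C.node (nat_lit 2) (nat_lit 6) (nat_lit 7) (C.cons (nat_lit 452) (C.miq (nat_lit 1445595011) (nat_lit 1321375567261022752099533193)) (C.cons (nat_lit 212) (C.miq (nat_lit 1218601143) (nat_lit 1561936069746718084476176609)) (C.cons (nat_lit 196) (C.node (nat_lit 2) (nat_lit 4) (nat_lit 7) (C.cons (nat_lit 404) (C.node (nat_lit 2) (nat_lit 4) (nat_lit 10) (C.cons (nat_lit 1556) (C.miq (nat_lit 1461980073) (nat_lit 488416380387541920880267009)) (C.cons (nat_lit 1076) (C.miq (nat_lit 1384359024) (nat_lit 1561951805027408204526060691)) (C.cons (nat_lit 1044) (C.node (nat_lit 2) (nat_lit 6) (nat_lit 8) (C.cons (nat_lit 836) (C.node (nat_lit 2) (nat_lit 4) (nat_lit 9) (C.cons (nat_lit 534) (C.miq (nat_lit 942212929) (nat_lit 1010671632955601941198931091))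 (C.cons (nat_lit 532) (C.node (nat_lit 1) (nat_lit 8) (nat_lit 10) (C.cons (nat_lit 1378) (C.miq (nat_lit 371697808) (nat_lit 236971062169653740669570817)) (C.cons (nat_lit 1346) (C.miq (nat_lit 371697808) (nat_lit 236971062160646541414829825)) (C.cons (nat_lit 1314) (C.miq (nat_lit 1264190081) (nat_lit 3752527345805752849110532359)) (C.cons (nat_lit 1282)
  (C.node (nat_lit 6) (nat_lit 8) (nat_lit 10) (C.cons (nat_lit 1376) (C.miq (nat_lit 995631210) (nat_lit 2828910251676208790732014661)) (C.cons (nat_lit 1344) (C.node (nat_lit 4) (nat_lit 7) (nat_lit 9) (C.cons (nat_lit 728) (C.miq (nat_lit 342362002) (nat_lit 407412853033431742007214725)) (C.cons (nat_lit 720) (C.miq (nat_lit 342362002) (nat_lit 407412853033431707647476357)) (C.cons (nat_lit 664) (C.miq (nat_lit 306776179) (nat_lit 643158183756162925124387209)) (C.cons (nat_lit 656) (C.node (nat_lit 2) (nat_lit 3) (nat_lit 9) (C.cons (nat_lit 556) (C.node (nat_lit 1) (nat_lit 2) (nat_lit 3) (C.cons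 (nat_lit 78) (C.node (nat_lit 2) (nat_lit 6) (nat_lit 11) (C.cons (nat_lit 2116) (C.node (nat_lit 1) (nat_lit 2) (nat_lit 4) (C.cons (nat_lit 22) (C.node (nat_lit 1) (nat_lit 2) (nat_lit 5) C.nil) C.nil)) C.nil)) (C.cons (nat_lit 14) (C.node (nat_lit 2) (nat_lit 3) (nat_lit 6) (C.cons (nat_lit 76) (C.node (nat_lit 2) (nat_lit 5) (nat_lit 10) (C.cons (nat_lit 1062) (C.node (nat_lit 2) (nat_lit 9) (nat_lit 10) C.nil) (C.cons (nat_lit 1060) (C.node (nat_lit 1) (nat_lit 2) (nat_lit 10) C.nil) C.nil))) C.nil)) C.nil))) (C.cons (nat_lit 524) (C.node (nat_lit 2) (nat_lit 6) (nat_lit 11) (C.cons (nat_lit 2118) (C.node (nat_lit 2) (nat_lit 9) (nat_lit 11) (C.cons (nat_lit 2564) (C.node (nat_lit 1) (nat_lit 2) (nat_lit 4) (C.cons (nat_lit 54) (C.miq (nat_lit 1369973771) (nat_lit 1549886066142291760724903965)) (C.cons (nat_lit 22) (C.node (nat_lit 1) (nat_lit 2) (nat_lit 3) C.nil) C.nil))) C.nil)) (C.cons (nat_lit 2116) (C.node (nat_lit 1) (nat_lit 2) (nat_lit 11)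 (C.cons (nat_lit 2566) (C.node (nat_lit 4) (nat_lit 9) (nat_lit 11) (C.cons (nat_lit 2640) (C.miq (nat_lit 409542731) (nat_lit 1010709319617152495215708189)) (C.cons (nat_lit 2576) (C.node (nat_lit 5) (nat_lit 9) (nat_lit 11) (C.cons (nat_lit 2600) (C.miq (nat_lit 897620769) (nat_lit 349389210247623371273996806)) (C.cons (nat_lit 2592) (C.node (nat_lit 1) (nat_lit 4) (nat_lit 11) C.nil) C.nil))) C.nil))) (C.cons (nat_lit 2054) (C.node (nat_lit 2) (nat_lit 9) (nat_lit 11) C.nil) C.nil))) C.nil))) C.nil))) C.nil))))) C.nil))) C.nil))))) C.nil))) (C.cons (nat_lit 324) (C.node (nat_lit 2) (nat_lit 8) (nat_lit 9) (C.cons (nat_lit 772) (C.node (nat_lit 4) (nat_lit 5) (nat_lit 7) (C.cons (nat_lit 184) (C.node (nat_lit 3) (nat_lit 4) (nat_lit 8) (C.cons (nat_lit 792) (C.miq (nat_lit 2489025392) (nat_lit 2533979372079178840549687689)) (C.cons (nat_lit 282) (C.miq (nat_lit 2458060609) (nat_lit 1561941806770804538979517587)) (C.cons (nat_lit 280) (C.node (nat_lit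 5) (nat_lit 7) (nat_lit 8) (C.cons (nat_lit 930) (C.miq (nat_lit 1115753303) (nat_lit 317969092280591363745122529)) (C.cons (nat_lit 928) (C.miq (nat_lit 2504754992) (nat_lit 2533979372117459437369491849)) (C.cons (nat_lit 418) (C.miq (nat_lit 1115753303) (nat_lit 317969092280591363711568097)) (C.cons (nat_lit 416) (C.node (nat_lit 1) (nat_lit 3) (nat_lit 4) (C.cons (nat_lit 90) (C.node (nat_lit 1) (nat_lit 3) (nat_lit 10) (C.cons (nat_lit 3082) (C.miq (nat_lit 2443641778) (nat_lit 1415664033065882956360583197)) (C.cons (nat_lit 1034) (C.node (nat_lit 3) (nat_lit 4) (nat_lit 9) (C.cons (nat_lit 1560) (C.miq (nat_lit 2491130704) (nat_lit 2650036250978356023435265065)) (C.cons (nat_lit 536) (C.node (nat_lit 3) (nat_lit 4) (nat_lit 10) (C.cons (nat_lit 1048) (C.node (nat_lit 1) (nat_lit 2) (nat_lit 4) (C.cons (nat_lit 534) (C.miq (nat_lit 942212929) (nat_lit 933300380500265674017735827)) (C.cons (nat_lit 54) (C.miq (nat_lit 410329140) (nat_lit 502914137157895323802667037))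 (C.cons (nat_lit 22) (C.node (nat_lit 2) (nat_lit 4) (nat_lit 5) (C.cons (nat_lit 116) (C.node (nat_lit 2) (nat_lit 4) (nat_lit 9) C.nil) C.nil)) C.nil)))) C.nil)) C.nil))) C.nil))) (C.cons (nat_lit 26) (C.node (nat_lit 1) (nat_lit 5) (nat_lit 7) (C.cons (nat_lit 674) (C.node (nat_lit 1) (nat_lit 5) (nat_lit 11) (C.cons (nat_lit 2090) (C.miq (nat_lit 588843863) (nat_lit 632280102393011104185977057)) (C.cons (nat_lit 2082) (C.node (nat_lit 1) (nat_lit 7) (nat_lit 11)
  (C.cons (nat_lit 2186) (C.miq (nat_lit 1125714805) (nat_lit 632278552866509324900501729)) (C.cons (nat_lit 2178) (C.node (nat_lit 1) (nat_lit 2) (nat_lit 10) C.nil) C.nil))) C.nil))) (C.cons (nat_lit 162) (C.node (nat_lit 5) (nat_lit 7) (nat_lit 9) (C.cons (nat_lit 672) (C.node (nat_lit 4) (nat_lit 6) (nat_lit 7) (C.cons (nat_lit 208) (C.node (nat_lit 4) (nat_lit 7) (nat_lit 9) C.nil) C.nil)) C.nil)) C.nil))) C.nil))) C.nil))))) C.nil)))) (C.cons (nat_lit 176) (C.node (nat_lit 4) (nat_lit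 8) (nat_lit 10) (C.cons (nat_lit 1328) (C.node (nat_lit 1) (nat_lit 4) (nat_lit 8) (C.cons (nat_lit 786) (C.miq (nat_lit 413373520) (nat_lit 1561941806810496479296815665)) (C.cons (nat_lit 282) (C.miq (nat_lit 2458060609) (nat_lit 1561941806770804538979517587)) (C.cons (nat_lit 274) (C.node (nat_lit 1) (nat_lit 8) (nat_lit 10) (C.cons (nat_lit 1346) (C.node (nat_lit 1) (nat_lit 3) (nat_lit 10) (C.cons (nat_lit 3082) (C.miq (nat_lit 2443641778) (nat_lit 1415664033065882956360583197)) (C.cons (nat_lit 1034) (C.node (nat_lit 1) (nat_lit 10) (nat_lit 11) (C.cons (nat_lit 3074) (C.node (nat_lit 1) (nat_lit 8) (nat_lit 11) (C.cons (nat_lit 2314) (C.miq (nat_lit 1638967346) (nat_lit 2479527018699752259205268748)) (C.cons (nat_lit 2306) (C.node (nat_lit 3) (nat_lit 10) (nat_lit 11) (C.cons (nat_lit 3144) (C.miq (nat_lit 380668466) (nat_lit 2747893239856622321885054220)) (C.cons (nat_lit 3080) (C.node (nat_lit 6) (nat_lit 10) (nat_lit 11) (C.cons (nat_lit 3136)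 (C.node (nat_lit 1) (nat_lit 2) (nat_lit 11) C.nil) C.nil)) C.nil))) C.nil))) C.nil)) C.nil))) (C.cons (nat_lit 1282) (C.node (nat_lit 6) (nat_lit 8) (nat_lit 10) (C.cons (nat_lit 1344) (C.node (nat_lit 3) (nat_lit 4) (nat_lit 8) (C.cons (nat_lit 792) (C.node (nat_lit 5) (nat_lit 7) (nat_lit 8) (C.cons (nat_lit 930) (C.miq (nat_lit 672445808) (nat_lit 331283989120504928507463905)) (C.cons (nat_lit 928) (C.miq (nat_lit 3046377347) (nat_lit 678245699331044669593747849)) (C.cons (nat_lit 418) (C.miq (nat_lit 672445808) (nat_lit 331283989120502729484208353)) (C.cons (nat_lit 416) (C.node (nat_lit 1) (nat_lit 2) (nat_lit 3) C.nil) C.nil))))) (C.cons (nat_lit 280) (C.node (nat_lit 4) (nat_lit 8) (nat_lit 9) C.nil) C.nil))) C.nil)) C.nil))) C.nil)))) (C.cons (nat_lit 1296) (C.node (nat_lit 5) (nat_lit 8) (nat_lit 10) (C.cons (nat_lit 1378) (C.miq (nat_lit 995631210) (nat_lit 2828910251676208790732145733)) (C.cons (nat_lit 1376) (C.miq (nat_lit 995631210) (nat_lit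 2828910251676208790732014661)) (C.cons (nat_lit 1314) (C.miq (nat_lit 1264190081) (nat_lit 3752527345805752849110532359)) (C.cons (nat_lit 1312) (C.node (nat_lit 1) (nat_lit 8) (nat_lit 10) (C.cons (nat_lit 1346) (C.node (nat_lit 1) (nat_lit 3) (nat_lit 10) (C.cons (nat_lit 3082) (C.miq (nat_lit 2443641778) (nat_lit 1415664033065882956360583197)) (C.cons (nat_lit 1034) (C.node (nat_lit 1) (nat_lit 10) (nat_lit 11) (C.cons (nat_lit 3074) (C.node (nat_lit 1) (nat_lit 8) (nat_lit 11) (C.cons (nat_lit 2314) (C.miq (nat_lit 1638967346) (nat_lit 2479527018699752259205268748)) (C.cons (nat_lit 2306) (C.node (nat_lit 3) (nat_lit 10) (nat_lit 11) (C.cons (nat_lit 3144) (C.miq (nat_lit 380668466) (nat_lit 2747893239856622321885054220)) (C.cons (nat_lit 3080) (C.node (nat_lit 1) (nat_lit 7) (nat_lit 8) (C.cons (nat_lit 930) (C.miq (nat_lit 1634904208) (nat_lit 162016222498502186964946689)) (C.cons (nat_lit 898) (C.miq (nat_lit 1634904208) (nat_lit 162016222498502049525993217))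 (C.cons (nat_lit 418) (C.miq (nat_lit 1115753303) (nat_lit 317969092280591363711568097)) C.nil)))) C.nil))) C.nil))) C.nil)) C.nil))) (C.cons (nat_lit 1282) (C.node (nat_lit 6) (nat_lit 8) (nat_lit 10) (C.cons (nat_lit 1344) (C.node (nat_lit 4) (nat_lit 5) (nat_lit 10) (C.cons (nat_lit 1136) (C.node (nat_lit 2) (nat_lit 4) (nat_lit 5) (C.cons (nat_lit 54) (C.miq (nat_lit 444940466) (nat_lit 1586111671788197152381208605)) (C.cons (nat_lit 52) (C.node (nat_lit 1) (nat_lit 5) (nat_lit 10) (C.cons (nat_lit 1574)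
  (C.miq (nat_lit 1697139216) (nat_lit 2828892634770747442770412691)) C.nil)) C.nil))) (C.cons (nat_lit 1072) (C.node (nat_lit 1) (nat_lit 2) (nat_lit 10) (C.cons (nat_lit 1030) (C.node (nat_lit 2) (nat_lit 5) (nat_lit 10) C.nil) C.nil)) C.nil))) C.nil)) C.nil))) C.nil))))) C.nil))) C.nil))) C.nil)) C.nil))) C.nil)))) (C.cons (nat_lit 148) (C.node (nat_lit 2) (nat_lit 7) (nat_lit 8) (C.cons (nat_lit 388) (C.node (nat_lit 2) (nat_lit 4) (nat_lit 8) (C.cons (nat_lit 788) (C.miq (nat_lit 1394870921) (nat_lit 2510949276262786546269425409)) (C.cons (nat_lit 276) (C.node (nat_lit 2) (nat_lit 6) (nat_lit 8) (C.cons (nat_lit 836) (C.node (nat_lit 1) (nat_lit 8) (nat_lit 10) (C.cons (nat_lit 1378) (C.miq (nat_lit 371697808) (nat_lit 236971062169653740669570817)) (C.cons (nat_lit 1346) (C.miq (nat_lit 371697808) (nat_lit 236971062160646541414829825)) (C.cons (nat_lit 1314) (C.miq (nat_lit 1264190081) (nat_lit 3752527345805752849110532359)) (C.cons (nat_lit 1282)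 (C.node (nat_lit 6) (nat_lit 8) (nat_lit 10) (C.cons (nat_lit 1376) (C.miq (nat_lit 995631210) (nat_lit 2828910251676208790732014661)) (C.cons (nat_lit 1344) (C.node (nat_lit 2) (nat_lit 3) (nat_lit 9) (C.cons (nat_lit 556) (C.node (nat_lit 2) (nat_lit 4) (nat_lit 9) (C.cons (nat_lit 1556) (C.miq (nat_lit 1461980073) (nat_lit 178931370566196852155485953)) (C.cons (nat_lit 534) (C.miq (nat_lit 439500889) (nat_lit 1561942009833048026525729329)) (C.cons (nat_lit 532) (C.node (nat_lit 2) (nat_lit 4) (nat_lit 10) (C.cons (nat_lit 1076) (C.miq (nat_lit 338233939) (nat_lit 643158184011745090188608553)) (C.cons (nat_lit 1044) (C.node (nat_lit 1) (nat_lit 2) (nat_lit 3) (C.cons (nat_lit 78) (C.node (nat_lit 2) (nat_lit 6) (nat_lit 11) C.nil) C.nil)) C.nil))) C.nil)))) (C.cons (nat_lit 524) (C.node (nat_lit 2) (nat_lit 6) (nat_lit 11) (C.cons (nat_lit 2118) (C.node (nat_lit 2) (nat_lit 9) (nat_lit 11) (C.cons (nat_lit 2564) (C.node (nat_lit 2) (nat_lit 3) (nat_lit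 6) (C.cons (nat_lit 108) (C.miq (nat_lit 901260810) (nat_lit 2828910251121984561750279237)) C.nil)) C.nil)) (C.cons (nat_lit 2116) (C.node (nat_lit 1) (nat_lit 2) (nat_lit 11) (C.cons (nat_lit 2566) (C.node (nat_lit 2) (nat_lit 4) (nat_lit 9) (C.cons (nat_lit 1556) (C.miq (nat_lit 1461980073) (nat_lit 178931370566196852155485953)) C.nil)) C.nil)) C.nil))) C.nil))) C.nil))) C.nil))))) (C.cons (nat_lit 324) (C.node (nat_lit 2) (nat_lit 8) (nat_lit 9) (C.cons (nat_lit 772) (C.node (nat_lit 4) (nat_lit 8) (nat_lit 10) (C.cons (nat_lit 1328) (C.node (nat_lit 2) (nat_lit 4) (nat_lit 10) (C.cons (nat_lit 1556) (C.miq (nat_lit 1461980073) (nat_lit 178931370566196852155485953)) (C.cons (nat_lit 1044) (C.node (nat_lit 1) (nat_lit 2) (nat_lit 3) C.nil) C.nil))) (C.cons (nat_lit 1296) (C.node (nat_lit 5) (nat_lit 8) (nat_lit 10) (C.cons (nat_lit 1378) (C.miq (nat_lit 995631210) (nat_lit 2828910251676208790732145733)) (C.cons (nat_lit 1376) (C.miq (nat_lit 995631210)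 (nat_lit 2828910251676208790732014661)) (C.cons (nat_lit 1314) (C.miq (nat_lit 1264190081) (nat_lit 3752527345805752849110532359)) (C.cons (nat_lit 1312) (C.node (nat_lit 1) (nat_lit 8) (nat_lit 10) C.nil) C.nil))))) C.nil))) C.nil)) C.nil))) C.nil))) C.nil)) C.nil))) C.nil)))) C.nil))) C.nil))))) C.nil)))))) C.nil))) C.nil)))) (C.cons (nat_lit 1284) (C.node (nat_lit 5) (nat_lit 7) (nat_lit 10) (C.cons (nat_lit 1696) (C.miq (nat_lit 1521784608) (nat_lit 3733173280070795564263735941)) (C.cons (nat_lit 1440) (C.miq (nat_lit 1116343127) (nat_lit 1552282354107127751153551585)) (C.cons (nat_lit 1184) (C.node (nat_lit 7) (nat_lit 8) (nat_lit 10) (C.cons (nat_lit 1472) (C.miq (nat_lit 1118309238) (nat_lit 1552266969522573988241344737)) (C.cons (nat_lit 1408) (C.node (nat_lit 2) (nat_lit 4) (nat_lit 10) (C.cons (nat_lit 1556) (C.miq (nat_lit 2507817138) (nat_lit 1431396873715416859519748125)) (C.cons (nat_lit 1076) (C.node (nat_lit 2) (nat_lit 4) (nat_lit 7)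 (C.cons (nat_lit 404) (C.miq (nat_lit 891816519) (nat_lit 2828893667768428708274373779)) (C.cons (nat_lit 212)
  (C.miq (nat_lit 2317618038) (nat_lit 1300810399539252978737481953)) (C.cons (nat_lit 148) (C.node (nat_lit 2) (nat_lit 4) (nat_lit 8) (C.cons (nat_lit 788) (C.node (nat_lit 2) (nat_lit 7) (nat_lit 8) (C.cons (nat_lit 452) (C.miq (nat_lit 1418070311) (nat_lit 407449930817320420085334661)) (C.cons (nat_lit 388) (C.node (nat_lit 1) (nat_lit 2) (nat_lit 4) (C.cons (nat_lit 86) (C.node (nat_lit 1) (nat_lit 2) (nat_lit 11) (C.cons (nat_lit 2566) (C.miq (nat_lit 2959185986) (nat_lit 81045365340620126370005780)) (C.cons (nat_lit 2054) (C.node (nat_lit 4) (nat_lit 6) (nat_lit 11) (C.cons (nat_lit 2640) (C.miq (nat_lit 280373396) (nat_lit 2747889974478086869145879316)) (C.cons (nat_lit 2128) (C.node (nat_lit 1) (nat_lit 2) (nat_lit 10) (C.cons (nat_lit 1542) (C.miq (nat_lit 1754415265) (nat_lit 952635132371191692911838355)) (C.cons (nat_lit 1038) (C.miq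 (nat_lit 2485192099) (nat_lit 103977268291920742507742249)) (C.cons (nat_lit 1030) (C.node (nat_lit 1) (nat_lit 2) (nat_lit 7) (C.cons (nat_lit 174) (C.miq (nat_lit 2182788464) (nat_lit 1245264448805707361239107809)) (C.cons (nat_lit 166) (C.miq (nat_lit 2182788464) (nat_lit 1245264448805707326879369441)) (C.cons (nat_lit 142) (C.miq (nat_lit 2591099683) (nat_lit 1415661783497040460306581533)) (C.cons (nat_lit 134) (C.node (nat_lit 2) (nat_lit 3) (nat_lit 8) (C.cons (nat_lit 332) (C.miq (nat_lit 840402496) (nat_lit 162003309492231338976280913)) (C.cons (nat_lit 268) (C.node (nat_lit 2) (nat_lit 6) (nat_lit 8) (C.cons (nat_lit 324) (C.node (nat_lit 1) (nat_lit 4) (nat_lit 5) (C.cons (nat_lit 314) (C.miq (nat_lit 1613834836) (nat_lit 632269790386098121098265652)) (C.cons (nat_lit 306) (C.miq (nat_lit 414663978) (nat_lit 2940129194526229860077274164)) (C.cons (nat_lit 58) (C.miq (nat_lit 1613834836) (nat_lit 632269790386098121081488436)) (C.cons (nat_lit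 50) (C.node (nat_lit 6) (nat_lit 7) (nat_lit 8) (C.cons (nat_lit 962) (C.miq (nat_lit 945948436) (nat_lit 391730279553204744954971283)) (C.cons (nat_lit 960) (C.miq (nat_lit 1749776672) (nat_lit 2804749831225438589341729413)) (C.cons (nat_lit 450) (C.miq (nat_lit 945948436) (nat_lit 391730279553202545931715731)) (C.cons (nat_lit 448) (C.node (nat_lit 1) (nat_lit 5) (nat_lit 10) (C.cons (nat_lit 1634) (C.miq (nat_lit 890505826) (nat_lit 60484605167950421653062725)) (C.cons (nat_lit 1570) (C.miq (nat_lit 832702804) (nat_lit 1245231908237727300674912817)) (C.cons (nat_lit 1378) (C.miq (nat_lit 622114976) (nat_lit 60484605526829917518630657)) (C.cons (nat_lit 1314) (C.miq (nat_lit 622114976) (nat_lit 60484605526829642640723713)) (C.cons (nat_lit 1122) (C.miq (nat_lit 890505826) (nat_lit 60484605167948222629807173)) (C.cons (nat_lit 1058) (C.node (nat_lit 1) (nat_lit 2) (nat_lit 3) (C.cons (nat_lit 46) (C.node (nat_lit 1) (nat_lit 7) (nat_lit 8) (C.cons (nat_lit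 930) (C.miq (nat_lit 1115753303) (nat_lit 317969092280591363745122529)) (C.cons (nat_lit 898) (C.miq (nat_lit 1368924939) (nat_lit 1085658551408019574685239325)) (C.cons (nat_lit 418) (C.miq (nat_lit 1115753303) (nat_lit 317969092280591363711568097)) C.nil)))) (C.cons (nat_lit 14) (C.node (nat_lit 1) (nat_lit 2) (nat_lit 5) (C.cons (nat_lit 550) (C.node (nat_lit 2) (nat_lit 3) (nat_lit 10) C.nil) C.nil)) C.nil))) C.nil))))))) C.nil))))) C.nil))))) C.nil)) C.nil))) C.nil))))) C.nil)))) C.nil))) C.nil))) (C.cons (nat_lit 22) (C.node (nat_lit 2) (nat_lit 4) (nat_lit 6) (C.cons (nat_lit 84) (C.node (nat_lit 2) (nat_lit 3) (nat_lit 8) (C.cons (nat_lit 332) (C.node (nat_lit 6) (nat_lit 7) (nat_lit 8) (C.cons (nat_lit 962) (C.miq (nat_lit 1749776672) (nat_lit 2804749831226001539295150725)) (C.cons (nat_lit 960) (C.miq (nat_lit 1749776672) (nat_lit 2804749831225438589341729413)) (C.cons (nat_lit 450) (C.miq (nat_lit 371488816) (nat_lit 101571370111604330145317257))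 (C.cons (nat_lit 448) (C.node (nat_lit 2) (nat_lit 6) (nat_lit 7) (C.cons (nat_lit 198) (C.node (nat_lit 2) (nat_lit 5) (nat_lit 6) (C.cons (nat_lit 612) (C.miq (nat_lit 311719504) (nat_lit 952655147049372777498872033))
  (C.cons (nat_lit 100) (C.node (nat_lit 2) (nat_lit 6) (nat_lit 9) (C.cons (nat_lit 2628) (C.miq (nat_lit 2417408626) (nat_lit 81046509038756278372273284)) (C.cons (nat_lit 580) (C.node (nat_lit 2) (nat_lit 6) (nat_lit 11) (C.cons (nat_lit 2116) (C.node (nat_lit 6) (nat_lit 8) (nat_lit 11) (C.cons (nat_lit 2370) (C.miq (nat_lit 2551319399) (nat_lit 317959389789730580239616225)) (C.cons (nat_lit 2368) (C.node (nat_lit 1) (nat_lit 2) (nat_lit 10) (C.cons (nat_lit 1542) (C.miq (nat_lit 2456527216) (nat_lit 2558157888682577716706346131)) (C.cons (nat_lit 1038) (C.miq (nat_lit 845521264) (nat_lit 120912228036073294521238675)) (C.cons (nat_lit 1030) (C.node (nat_lit 1) (nat_lit 2) (nat_lit 3) C.nil) C.nil)))) C.nil))) C.nil)) C.nil))) C.nil)))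 (C.cons (nat_lit 196) (C.node (nat_lit 1) (nat_lit 2) (nat_lit 7) (C.cons (nat_lit 174) (C.miq (nat_lit 2820737879) (nat_lit 317969092777113222613174497)) (C.cons (nat_lit 166) (C.miq (nat_lit 2820737879) (nat_lit 317969092777113222612650209)) (C.cons (nat_lit 142) (C.miq (nat_lit 2591099683) (nat_lit 1415661783497040460306581533)) (C.cons (nat_lit 134) (C.node (nat_lit 2) (nat_lit 3) (nat_lit 7) (C.cons (nat_lit 172) (C.node (nat_lit 1) (nat_lit 2) (nat_lit 3) (C.cons (nat_lit 1038) (C.miq (nat_lit 2502100129) (nat_lit 207944888778778851532473491)) (C.cons (nat_lit 14) (C.node (nat_lit 2) (nat_lit 3) (nat_lit 9) (C.cons (nat_lit 1548) (C.miq (nat_lit 3124037927) (nat_lit 1287547928420011647039177349)) (C.cons (nat_lit 524) (C.node (nat_lit 2) (nat_lit 3) (nat_lit 10) C.nil) C.nil))) C.nil))) (C.cons (nat_lit 140) (C.node (nat_lit 2) (nat_lit 5) (nat_lit 7) (C.cons (nat_lit 164) (C.node (nat_lit 4) (nat_lit 7) (nat_lit 8) (C.cons (nat_lit 432) (C.node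 (nat_lit 1) (nat_lit 7) (nat_lit 8) C.nil) C.nil)) C.nil)) C.nil))) C.nil))))) C.nil))) C.nil))))) (C.cons (nat_lit 268) (C.node (nat_lit 2) (nat_lit 6) (nat_lit 8) (C.cons (nat_lit 324) (C.node (nat_lit 4) (nat_lit 7) (nat_lit 8) (C.cons (nat_lit 432) (C.node (nat_lit 1) (nat_lit 4) (nat_lit 8) (C.cons (nat_lit 282) (C.node (nat_lit 4) (nat_lit 8) (nat_lit 10) (C.cons (nat_lit 1296) (C.node (nat_lit 1) (nat_lit 4) (nat_lit 5) (C.cons (nat_lit 114) (C.miq (nat_lit 811698004) (nat_lit 81003232006638369114292656)) (C.cons (nat_lit 50) (C.node (nat_lit 3) (nat_lit 4) (nat_lit 5) (C.cons (nat_lit 120) (C.node (nat_lit 3) (nat_lit 4) (nat_lit 7) (C.cons (nat_lit 664) (C.miq (nat_lit 2474800144) (nat_lit 324004017993548757215937683)) C.nil)) C.nil)) C.nil))) C.nil)) (C.cons (nat_lit 274) (C.node (nat_lit 3) (nat_lit 4) (nat_lit 8) (C.cons (nat_lit 1304) (C.node (nat_lit 5) (nat_lit 8) (nat_lit 10) (C.cons (nat_lit 1378) (C.miq (nat_lit 338010296) (nat_lit 1300829601848290682274582273))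 (C.cons (nat_lit 1376) (C.miq (nat_lit 1749768752) (nat_lit 2804749831342534395856487465)) (C.cons (nat_lit 1314) (C.miq (nat_lit 338010296) (nat_lit 1300828421256669964863278849)) (C.cons (nat_lit 1312) (C.node (nat_lit 1) (nat_lit 2) (nat_lit 10) C.nil) C.nil))))) (C.cons (nat_lit 280) (C.node (nat_lit 4) (nat_lit 8) (nat_lit 10) (C.cons (nat_lit 1296) (C.node (nat_lit 1) (nat_lit 2) (nat_lit 10) C.nil) C.nil)) C.nil))) C.nil))) (C.cons (nat_lit 400) (C.node (nat_lit 5) (nat_lit 7) (nat_lit 8) (C.cons (nat_lit 930) (C.miq (nat_lit 1115753303) (nat_lit 317969092280591363745122529)) (C.cons (nat_lit 928) (C.miq (nat_lit 1481341216) (nat_lit 2804749831216431390086988421)) (C.cons (nat_lit 418) (C.miq (nat_lit 1115753303) (nat_lit 317969092280591363711568097)) (C.cons (nat_lit 416) (C.node (nat_lit 4) (nat_lit 5) (nat_lit 7) (C.cons (nat_lit 184) (C.node (nat_lit 2) (nat_lit 5) (nat_lit 7) (C.cons (nat_lit 166) (C.miq (nat_lit 2820737879) (nat_lit 317969092777113222612650209))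 (C.cons (nat_lit 164) (C.node (nat_lit 4) (nat_lit 5) (nat_lit 8) (C.cons (nat_lit 306) (C.miq (nat_lit 414663978) (nat_lit 2940129194526229860077274164)) (C.cons (nat_lit 304) (C.node (nat_lit 4) (nat_lit 8) (nat_lit 10) (C.cons (nat_lit 1304)
  (C.miq (nat_lit 901269258) (nat_lit 2828910472504305544494908563)) C.nil)) C.nil))) C.nil))) (C.cons (nat_lit 176) (C.node (nat_lit 4) (nat_lit 8) (nat_lit 10) (C.cons (nat_lit 1304) (C.node (nat_lit 1) (nat_lit 4) (nat_lit 8) (C.cons (nat_lit 306) (C.miq (nat_lit 414663978) (nat_lit 2940129194526229860077274164)) (C.cons (nat_lit 274) (C.node (nat_lit 4) (nat_lit 5) (nat_lit 8) C.nil) C.nil))) (C.cons (nat_lit 1296) (C.node (nat_lit 1) (nat_lit 2) (nat_lit 10) (C.cons (nat_lit 1542) (C.node (nat_lit 2) (nat_lit 3) (nat_lit 10) (C.cons (nat_lit 1036) (C.node (nat_lit 1) (nat_lit 2) (nat_lit 11) C.nil) C.nil)) (C.cons (nat_lit 1038) (C.miq (nat_lit 2485192099) (nat_lit 26606015836584475326546985)) (C.cons (nat_lit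 1030) (C.node (nat_lit 2) (nat_lit 3) (nat_lit 10) (C.cons (nat_lit 1548) (C.node (nat_lit 2) (nat_lit 5) (nat_lit 7) (C.cons (nat_lit 174) (C.miq (nat_lit 2182788464) (nat_lit 1245264448805707361239107809)) C.nil)) C.nil)) C.nil)))) C.nil))) C.nil))) C.nil))))) C.nil))) C.nil)) C.nil))) C.nil)) C.nil))) C.nil))) (C.cons (nat_lit 276) (C.node (nat_lit 2) (nat_lit 7) (nat_lit 8) (C.cons (nat_lit 452) (C.node (nat_lit 1) (nat_lit 2) (nat_lit 7) (C.cons (nat_lit 174) (C.miq (nat_lit 2820737879) (nat_lit 317969092777113222613174497)) (C.cons (nat_lit 166) (C.miq (nat_lit 2820737879) (nat_lit 317969092777113222612650209)) (C.cons (nat_lit 142) (C.miq (nat_lit 2591099683) (nat_lit 1415661783497040460306581533)) (C.cons (nat_lit 134) (C.node (nat_lit 2) (nat_lit 3) (nat_lit 7) (C.cons (nat_lit 172) (C.node (nat_lit 2) (nat_lit 3) (nat_lit 8) (C.cons (nat_lit 780) (C.miq (nat_lit 901261065) (nat_lit 2828900806407033220969333381)) (C.cons (nat_lit 268) (C.node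 (nat_lit 2) (nat_lit 8) (nat_lit 9) (C.cons (nat_lit 772) (C.node (nat_lit 2) (nat_lit 3) (nat_lit 10) (C.cons (nat_lit 1548) (C.miq (nat_lit 3124037927) (nat_lit 1287547928420011647039177349)) (C.cons (nat_lit 1038) (C.miq (nat_lit 2502100129) (nat_lit 207944888778778851532473491)) (C.cons (nat_lit 1036) (C.node (nat_lit 1) (nat_lit 2) (nat_lit 3) (C.cons (nat_lit 78) (C.node (nat_lit 2) (nat_lit 3) (nat_lit 9) (C.cons (nat_lit 524) (C.node (nat_lit 1) (nat_lit 2) (nat_lit 4) (C.cons (nat_lit 534) (C.miq (nat_lit 1385407504) (nat_lit 633496775563373556705985683)) (C.cons (nat_lit 22) (C.node (nat_lit 1) (nat_lit 2) (nat_lit 5) C.nil) C.nil))) C.nil)) (C.cons (nat_lit 14) (C.node (nat_lit 1) (nat_lit 2) (nat_lit 10) (C.cons (nat_lit 1542) (C.node (nat_lit 1) (nat_lit 2) (nat_lit 4) (C.cons (nat_lit 86) (C.miq (nat_lit 2456330560) (nat_lit 546505324843834288832054419)) (C.cons (nat_lit 22) (C.node (nat_lit 1) (nat_lit 2) (nat_lit 5) C.nil) C.nil))) (C.cons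 (nat_lit 1030) (C.node (nat_lit 2) (nat_lit 9) (nat_lit 10) C.nil) C.nil))) C.nil))) C.nil)))) C.nil)) C.nil))) (C.cons (nat_lit 140) (C.node (nat_lit 2) (nat_lit 5) (nat_lit 7) (C.cons (nat_lit 164) (C.node (nat_lit 2) (nat_lit 3) (nat_lit 8) (C.cons (nat_lit 780) (C.node (nat_lit 2) (nat_lit 3) (nat_lit 10) (C.cons (nat_lit 1038) (C.miq (nat_lit 1379486224) (nat_lit 942972488225707640480269459)) (C.cons (nat_lit 1036) (C.node (nat_lit 1) (nat_lit 2) (nat_lit 10) (C.cons (nat_lit 1542) (C.miq (nat_lit 305637760) (nat_lit 169271216317396162531888897)) (C.cons (nat_lit 1030) (C.node (nat_lit 2) (nat_lit 9) (nat_lit 10) (C.cons (nat_lit 1540) (C.node (nat_lit 2) (nat_lit 3) (nat_lit 5) (C.cons (nat_lit 110) (C.miq (nat_lit 2422442834) (nat_lit 88265974373400571217316132)) (C.cons (nat_lit 108) (C.miq (nat_lit 2422442834) (nat_lit 88265974373400571217185060)) (C.cons (nat_lit 46) (C.miq (nat_lit 2954201394) (nat_lit 42355570148792133282038540)) C.nil))))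 C.nil)) C.nil))) C.nil))) (C.cons (nat_lit 268) (C.node (nat_lit 2) (nat_lit 8) (nat_lit 9) (C.cons (nat_lit 772) (C.node (nat_lit 4) (nat_lit 8) (nat_lit 10) (C.cons (nat_lit 1304) (C.node (nat_lit 5) (nat_lit 8) (nat_lit 10) (C.cons (nat_lit 1378) (C.miq (nat_lit 338010296) (nat_lit 1300829601848290682274582273)) (C.cons (nat_lit 1376)
  (C.miq (nat_lit 1749768752) (nat_lit 2804749831342534395856487465)) (C.cons (nat_lit 1314) (C.miq (nat_lit 338010296) (nat_lit 1300828421256669964863278849)) (C.cons (nat_lit 1312) (C.node (nat_lit 1) (nat_lit 8) (nat_lit 10) (C.cons (nat_lit 1346) (C.node (nat_lit 6) (nat_lit 8) (nat_lit 11) (C.cons (nat_lit 2376) (C.miq (nat_lit 1755820864) (nat_lit 1702209484135467565175736349)) C.nil)) (C.cons (nat_lit 1282) (C.node (nat_lit 6) (nat_lit 8) (nat_lit 10) (C.cons (nat_lit 1344) (C.node (nat_lit 1) (nat_lit 4) (nat_lit 8) C.nil) C.nil)) C.nil))) C.nil))))) (C.cons (nat_lit 1296) (C.node (nat_lit 1) (nat_lit 7) (nat_lit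 8) (C.cons (nat_lit 930) (C.miq (nat_lit 1115753303) (nat_lit 317969092280591363745122529)) (C.cons (nat_lit 898) (C.node (nat_lit 1) (nat_lit 5) (nat_lit 7) (C.cons (nat_lit 170) (C.miq (nat_lit 2270859568) (nat_lit 1431439024620473320540275211)) (C.cons (nat_lit 162) (C.node (nat_lit 4) (nat_lit 7) (nat_lit 8) (C.cons (nat_lit 432) (C.node (nat_lit 1) (nat_lit 4) (nat_lit 8) (C.cons (nat_lit 282) (C.miq (nat_lit 2553442624) (nat_lit 324004018059413901885113491)) C.nil)) C.nil)) C.nil))) (C.cons (nat_lit 418) (C.miq (nat_lit 1115753303) (nat_lit 317969092280591363711568097)) (C.cons (nat_lit 386) (C.node (nat_lit 1) (nat_lit 2) (nat_lit 10) (C.cons (nat_lit 1542) (C.node (nat_lit 2) (nat_lit 3) (nat_lit 10) C.nil) (C.cons (nat_lit 1038) (C.node (nat_lit 2) (nat_lit 9) (nat_lit 10) C.nil) C.nil))) C.nil))))) C.nil))) C.nil)) C.nil))) C.nil)) C.nil))) C.nil))))) (C.cons (nat_lit 388) (C.node (nat_lit 4) (nat_lit 8) (nat_lit 10) (C.cons (nat_lit 1304) (C.node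 (nat_lit 5) (nat_lit 8) (nat_lit 10) (C.cons (nat_lit 1378) (C.miq (nat_lit 338010296) (nat_lit 1300829601848290682274582273)) (C.cons (nat_lit 1376) (C.miq (nat_lit 1749768752) (nat_lit 2804749831342534395856487465)) (C.cons (nat_lit 1314) (C.miq (nat_lit 338010296) (nat_lit 1300828421256669964863278849)) (C.cons (nat_lit 1312) (C.node (nat_lit 1) (nat_lit 8) (nat_lit 10) (C.cons (nat_lit 1346) (C.node (nat_lit 1) (nat_lit 10) (nat_lit 11) (C.cons (nat_lit 3082) (C.miq (nat_lit 2443641778) (nat_lit 1415664033065882956360583197)) (C.cons (nat_lit 3074) (C.node (nat_lit 1) (nat_lit 3) (nat_lit 10) (C.cons (nat_lit 1038) (C.miq (nat_lit 323527174) (nat_lit 1576464098387179603368150085)) (C.cons (nat_lit 1034) (C.node (nat_lit 1) (nat_lit 5) (nat_lit 10) (C.cons (nat_lit 1570) (C.miq (nat_lit 588923029) (nat_lit 1250049146762775651122545201)) (C.cons (nat_lit 1058) (C.node (nat_lit 6) (nat_lit 8) (nat_lit 11) (C.cons (nat_lit 2376) (C.miq (nat_lit 1755820864)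 (nat_lit 1702209484135467565175736349)) (C.cons (nat_lit 2368) (C.node (nat_lit 1) (nat_lit 2) (nat_lit 4) (C.cons (nat_lit 598) (C.miq (nat_lit 730218657) (nat_lit 2862747372585037987701720211)) (C.cons (nat_lit 534) (C.miq (nat_lit 707872009) (nat_lit 1250039148345733576661860913)) (C.cons (nat_lit 86) (C.miq (nat_lit 730218657) (nat_lit 2862737927852072248411292819)) (C.cons (nat_lit 22) (C.node (nat_lit 2) (nat_lit 3) (nat_lit 8) (C.cons (nat_lit 844) (C.miq (nat_lit 1949436553) (nat_lit 2510950825819125136946368257)) (C.cons (nat_lit 780) (C.miq (nat_lit 1949436553) (nat_lit 2510950825819125136942173953)) (C.cons (nat_lit 332) (C.miq (nat_lit 406103584) (nat_lit 1576460870293653502419600453)) (C.cons (nat_lit 268) (C.node (nat_lit 1) (nat_lit 2) (nat_lit 10) (C.cons (nat_lit 1542) (C.node (nat_lit 2) (nat_lit 3) (nat_lit 10) C.nil) C.nil)) C.nil))))) C.nil))))) C.nil))) C.nil))) C.nil))) C.nil))) (C.cons (nat_lit 1282) (C.node (nat_lit 6) (nat_lit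 8) (nat_lit 10) (C.cons (nat_lit 1344) (C.node (nat_lit 4) (nat_lit 6) (nat_lit 10) (C.cons (nat_lit 1616) (C.node (nat_lit 4) (nat_lit 6) (nat_lit 7) (C.cons (nat_lit 216) (C.miq (nat_lit 3125151799) (nat_lit 1953666055027671274333143433)) (C.cons (nat_lit 208) (C.node (nat_lit 7) (nat_lit 9) (nat_lit 10) (C.cons (nat_lit 1672) (C.miq (nat_lit 2517083267) (nat_lit 2747919231395008366271595800)) (C.cons (nat_lit 1664)
  (C.node (nat_lit 3) (nat_lit 7) (nat_lit 10) (C.cons (nat_lit 1224) (C.node (nat_lit 3) (nat_lit 10) (nat_lit 11) (C.cons (nat_lit 3082) (C.miq (nat_lit 444152608) (nat_lit 2011662212353413136146303005)) C.nil)) C.nil)) C.nil))) C.nil))) (C.cons (nat_lit 1104) (C.node (nat_lit 4) (nat_lit 9) (nat_lit 10) (C.cons (nat_lit 1552) (C.node (nat_lit 1) (nat_lit 2) (nat_lit 10) (C.cons (nat_lit 1030) (C.node (nat_lit 1) (nat_lit 4) (nat_lit 8) C.nil) C.nil)) C.nil)) C.nil))) C.nil)) C.nil))) C.nil))))) (C.cons (nat_lit 1296) (C.node (nat_lit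 1) (nat_lit 10) (nat_lit 11) (C.cons (nat_lit 3146) (C.miq (nat_lit 2443641778) (nat_lit 1415664033065883231238490141)) (C.cons (nat_lit 3138) (C.node (nat_lit 3) (nat_lit 10) (nat_lit 11) (C.cons (nat_lit 3080) (C.node (nat_lit 2) (nat_lit 6) (nat_lit 11) (C.cons (nat_lit 2628) (C.miq (nat_lit 1628027506) (nat_lit 632316682585150273439992964)) (C.cons (nat_lit 2116) (C.node (nat_lit 1) (nat_lit 2) (nat_lit 7) (C.cons (nat_lit 206) (C.miq (nat_lit 2591099683) (nat_lit 1415661783497040460310775837)) (C.cons (nat_lit 198) (C.miq (nat_lit 2606893591) (nat_lit 2558098933535641739505042579)) (C.cons (nat_lit 174) (C.miq (nat_lit 2820737879) (nat_lit 317969092777113222613174497)) (C.cons (nat_lit 166) (C.miq (nat_lit 2820737879) (nat_lit 317969092777113222612650209)) (C.cons (nat_lit 142) (C.miq (nat_lit 2591099683) (nat_lit 1415661783497040460306581533)) (C.cons (nat_lit 134) (C.node (nat_lit 1) (nat_lit 2) (nat_lit 11) (C.cons (nat_lit 2566) (C.node (nat_lit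 1) (nat_lit 4) (nat_lit 11) (C.cons (nat_lit 2066) (C.node (nat_lit 1) (nat_lit 2) (nat_lit 10) (C.cons (nat_lit 1038) (C.miq (nat_lit 1108957744) (nat_lit 3102114002057435346505499689)) (C.cons (nat_lit 1030) (C.node (nat_lit 1) (nat_lit 8) (nat_lit 11) (C.cons (nat_lit 2314) (C.miq (nat_lit 924942491) (nat_lit 162038745704769309582429953)) (C.cons (nat_lit 2306) (C.node (nat_lit 1) (nat_lit 9) (nat_lit 10) (C.cons (nat_lit 1570) (C.miq (nat_lit 832702804) (nat_lit 1245231908237727300674912817)) (C.cons (nat_lit 1538) (C.node (nat_lit 2) (nat_lit 3) (nat_lit 10) (C.cons (nat_lit 1548) (C.node (nat_lit 1) (nat_lit 3) (nat_lit 10) C.nil) C.nil)) C.nil))) C.nil))) C.nil))) C.nil)) (C.cons (nat_lit 2054) (C.node (nat_lit 2) (nat_lit 9) (nat_lit 11) (C.cons (nat_lit 2564) (C.node (nat_lit 2) (nat_lit 5) (nat_lit 7) (C.cons (nat_lit 172) (C.node (nat_lit 2) (nat_lit 6) (nat_lit 7) C.nil) C.nil)) C.nil)) C.nil))) C.nil))))))) C.nil))) C.nil)) (C.cons (nat_lit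 3082) (C.miq (nat_lit 2443641778) (nat_lit 1415664033065882956360583197)) (C.cons (nat_lit 3074) (C.node (nat_lit 3) (nat_lit 10) (nat_lit 11) (C.cons (nat_lit 3144) (C.node (nat_lit 6) (nat_lit 7) (nat_lit 10) (C.cons (nat_lit 1728) (C.miq (nat_lit 915454578) (nat_lit 697588512690046877068233860)) (C.cons (nat_lit 1216) (C.node (nat_lit 3) (nat_lit 4) (nat_lit 10) (C.cons (nat_lit 1560) (C.node (nat_lit 3) (nat_lit 7) (nat_lit 10) (C.cons (nat_lit 1160) (C.node (nat_lit 4) (nat_lit 6) (nat_lit 10) (C.cons (nat_lit 1104) (C.node (nat_lit 7) (nat_lit 9) (nat_lit 10) C.nil) C.nil)) C.nil)) (C.cons (nat_lit 1048) (C.node (nat_lit 3) (nat_lit 7) (nat_lit 10) (C.cons (nat_lit 1672) (C.node (nat_lit 2) (nat_lit 9) (nat_lit 10) (C.cons (nat_lit 1542) (C.miq (nat_lit 2049456400) (nat_lit 1552268002426237612093538827)) (C.cons (nat_lit 1540) (C.node (nat_lit 3) (nat_lit 8) (nat_lit 10) (C.cons (nat_lit 1290) (C.miq (nat_lit 445809520) (nat_lit 1861750614063330215843922313))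 C.nil)) C.nil))) (C.cons (nat_lit 1160) (C.node (nat_lit 7) (nat_lit 9) (nat_lit 10) (C.cons (nat_lit 1664) (C.node (nat_lit 3) (nat_lit 8) (nat_lit 10) (C.cons (nat_lit 1288) (C.node (nat_lit 1) (nat_lit 3) (nat_lit 10) C.nil) C.nil)) C.nil)) C.nil))) C.nil))) C.nil))) (C.cons (nat_lit 3080) (C.node (nat_lit 6) (nat_lit 10) (nat_lit 11) (C.cons (nat_lit 3136) (C.ref (nat_lit 257) (nat_lit 198064386771216)) C.nil)) C.nil))) C.nil))))) C.nil))) C.nil))) C.nil))) C.nil)))) (C.cons (nat_lit 1044)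
  (C.node (nat_lit 1) (nat_lit 10) (nat_lit 11) (C.cons (nat_lit 3146) (C.miq (nat_lit 2443641778) (nat_lit 1415664033065883231238490141)) (C.cons (nat_lit 3138) (C.node (nat_lit 3) (nat_lit 10) (nat_lit 11) (C.cons (nat_lit 3080) (C.node (nat_lit 2) (nat_lit 6) (nat_lit 11) (C.cons (nat_lit 2628) (C.miq (nat_lit 1628027506) (nat_lit 632316682585150273439992964)) (C.cons (nat_lit 2116) (C.node (nat_lit 1) (nat_lit 2) (nat_lit 7) (C.cons (nat_lit 206) (C.miq (nat_lit 2591099683) (nat_lit 1415661783497040460310775837)) (C.cons (nat_lit 198) (C.miq (nat_lit 2606893591) (nat_lit 2558098933535641739505042579)) (C.cons (nat_lit 174) (C.miq (nat_lit 2820737879) (nat_lit 317969092777113222613174497)) (C.cons (nat_lit 166) (C.miq (nat_lit 2820737879) (nat_lit 317969092777113222612650209)) (C.cons (nat_lit 142) (C.miq (nat_lit 2591099683) (nat_lit 1415661783497040460306581533)) (C.cons (nat_lit 134) (C.node (nat_lit 1) (nat_lit 2) (nat_lit 11) (C.cons (nat_lit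 2566) (C.node (nat_lit 1) (nat_lit 4) (nat_lit 11) (C.cons (nat_lit 2066) (C.node (nat_lit 1) (nat_lit 8) (nat_lit 11) (C.cons (nat_lit 2314) (C.miq (nat_lit 924942491) (nat_lit 162038745704769309582429953)) (C.cons (nat_lit 2306) (C.node (nat_lit 5) (nat_lit 9) (nat_lit 11) (C.cons (nat_lit 2600) (C.miq (nat_lit 897620769) (nat_lit 349389210247623371273996806)) (C.cons (nat_lit 2592) (C.node (nat_lit 7) (nat_lit 9) (nat_lit 11) (C.cons (nat_lit 2696) (C.miq (nat_lit 991459616) (nat_lit 2787790190360623402841473669)) C.nil)) C.nil))) C.nil))) C.nil)) (C.cons (nat_lit 2054) (C.node (nat_lit 2) (nat_lit 9) (nat_lit 11) (C.cons (nat_lit 2564) (C.node (nat_lit 1) (nat_lit 4) (nat_lit 11) (C.cons (nat_lit 2578) (C.node (nat_lit 4) (nat_lit 6) (nat_lit 11) (C.cons (nat_lit 2128) (C.node (nat_lit 5) (nat_lit 9) (nat_lit 11) (C.cons (nat_lit 2600) (C.miq (nat_lit 991582528) (nat_lit 3793628868464990862850589233)) C.nil)) C.nil)) (C.cons (nat_lit 2066) (C.node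 (nat_lit 1) (nat_lit 8) (nat_lit 11) (C.cons (nat_lit 2314) (C.node (nat_lit 6) (nat_lit 8) (nat_lit 11) C.nil) C.nil)) C.nil))) C.nil)) C.nil))) C.nil))))))) C.nil))) C.nil)) (C.cons (nat_lit 3082) (C.miq (nat_lit 2443641778) (nat_lit 1415664033065882956360583197)) (C.cons (nat_lit 3074) (C.node (nat_lit 3) (nat_lit 10) (nat_lit 11) (C.cons (nat_lit 3144) (C.node (nat_lit 6) (nat_lit 7) (nat_lit 10) (C.cons (nat_lit 1728) (C.miq (nat_lit 915454578) (nat_lit 697588512690046877068233860)) (C.cons (nat_lit 1216) (C.node (nat_lit 3) (nat_lit 7) (nat_lit 10) (C.cons (nat_lit 1672) (C.node (nat_lit 2) (nat_lit 3) (nat_lit 10) (C.cons (nat_lit 1038) (C.node (nat_lit 3) (nat_lit 7) (nat_lit 11) (C.cons (nat_lit 2186) (C.miq (nat_lit 1729760050) (nat_lit 1415672297699805339050706973)) (C.cons (nat_lit 2184) (C.node (nat_lit 3) (nat_lit 8) (nat_lit 11) (C.cons (nat_lit 2314) (C.miq (nat_lit 1662167936) (nat_lit 1254885163936224913234792193)) (C.cons (nat_lit 2312)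 (C.node (nat_lit 1) (nat_lit 3) (nat_lit 11) (C.cons (nat_lit 2090) (C.miq (nat_lit 1344386723) (nat_lit 317986044893558842441206856)) (C.cons (nat_lit 2058) (C.node (nat_lit 3) (nat_lit 5) (nat_lit 11) (C.cons (nat_lit 2600) (C.miq (nat_lit 1377024009) (nat_lit 1254912962953229303292825345)) (C.cons (nat_lit 2088) (C.node (nat_lit 3) (nat_lit 9) (nat_lit 11) C.nil) C.nil))) C.nil))) C.nil))) C.nil))) (C.cons (nat_lit 1036) (C.node (nat_lit 1) (nat_lit 3) (nat_lit 10) (C.cons (nat_lit 1290) (C.miq (nat_lit 2055377680) (nat_lit 1552272651005743104568787467)) (C.cons (nat_lit 1034) (C.node (nat_lit 3) (nat_lit 4) (nat_lit 10) (C.cons (nat_lit 1304) (C.node (nat_lit 4) (nat_lit 5) (nat_lit 10) (C.cons (nat_lit 1136) (C.miq (nat_lit 1984431523) (nat_lit 407415251420348500961395753)) C.nil)) (C.cons (nat_lit 1048) (C.node (nat_lit 3) (nat_lit 8) (nat_lit 10) (C.cons (nat_lit 1288) (C.node (nat_lit 4) (nat_lit 8) (nat_lit 10) C.nil) C.nil)) C.nil))) C.nil)))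 C.nil))) (C.cons (nat_lit 1160) (C.node (nat_lit 7) (nat_lit 9) (nat_lit 10) (C.cons (nat_lit 1664)
  (C.node (nat_lit 3) (nat_lit 8) (nat_lit 11) (C.cons (nat_lit 2314) (C.node (nat_lit 6) (nat_lit 8) (nat_lit 11) (C.cons (nat_lit 2368) (C.node (nat_lit 1) (nat_lit 3) (nat_lit 10) (C.cons (nat_lit 1038) (C.miq (nat_lit 1662167936) (nat_lit 1254885163936224913234792193)) (C.cons (nat_lit 1034) (C.node (nat_lit 2) (nat_lit 3) (nat_lit 10) (C.cons (nat_lit 1548) (C.miq (nat_lit 1788326688) (nat_lit 2011694494172986463951849501)) (C.cons (nat_lit 1036) (C.node (nat_lit 3) (nat_lit 8) (nat_lit 10) (C.cons (nat_lit 1304) (C.node (nat_lit 3) (nat_lit 9) (nat_lit 10) C.nil) C.nil)) C.nil))) C.nil))) C.nil)) (C.cons (nat_lit 2312) (C.node (nat_lit 1) (nat_lit 8) (nat_lit 11) (C.cons (nat_lit 2370) (C.node (nat_lit 1) (nat_lit 2) (nat_lit 7) (C.cons (nat_lit 206) (C.miq (nat_lit 2551319399) (nat_lit 317959389789730580240140513)) (C.cons (nat_lit 198) (C.miq (nat_lit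 2551319399) (nat_lit 317959389789730580239616225)) (C.cons (nat_lit 174) (C.miq (nat_lit 2820737879) (nat_lit 317969092777113222613174497)) (C.cons (nat_lit 166) (C.miq (nat_lit 2820737879) (nat_lit 317969092777113222612650209)) (C.cons (nat_lit 142) (C.miq (nat_lit 2591099683) (nat_lit 1415661783497040460306581533)) (C.cons (nat_lit 134) (C.node (nat_lit 1) (nat_lit 2) (nat_lit 11) (C.cons (nat_lit 2566) (C.node (nat_lit 1) (nat_lit 4) (nat_lit 11) (C.cons (nat_lit 2066) (C.node (nat_lit 2) (nat_lit 6) (nat_lit 11) (C.cons (nat_lit 2116) (C.node (nat_lit 1) (nat_lit 5) (nat_lit 11) (C.cons (nat_lit 2082) (C.node (nat_lit 1) (nat_lit 3) (nat_lit 11) C.nil) C.nil)) C.nil)) C.nil)) (C.cons (nat_lit 2054) (C.node (nat_lit 1) (nat_lit 4) (nat_lit 11) (C.cons (nat_lit 2578) (C.node (nat_lit 4) (nat_lit 6) (nat_lit 11) (C.cons (nat_lit 2128) (C.node (nat_lit 1) (nat_lit 5) (nat_lit 11) (C.cons (nat_lit 2082) (C.node (nat_lit 1) (nat_lit 3) (nat_lit 11) C.nil)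 C.nil)) C.nil)) (C.cons (nat_lit 2066) (C.node (nat_lit 2) (nat_lit 6) (nat_lit 11) (C.cons (nat_lit 2628) (C.node (nat_lit 4) (nat_lit 6) (nat_lit 11) (C.cons (nat_lit 2128) (C.node (nat_lit 4) (nat_lit 9) (nat_lit 11) C.nil) C.nil)) (C.cons (nat_lit 2116) (C.node (nat_lit 2) (nat_lit 9) (nat_lit 11) C.nil) C.nil))) C.nil))) C.nil))) C.nil))))))) (C.cons (nat_lit 2306) (C.node (nat_lit 6) (nat_lit 8) (nat_lit 11) (C.cons (nat_lit 2368) (C.node (nat_lit 2) (nat_lit 3) (nat_lit 10) (C.cons (nat_lit 1548) (C.miq (nat_lit 1788326688) (nat_lit 2011694494172986463951849501)) (C.cons (nat_lit 1038) (C.node (nat_lit 2) (nat_lit 5) (nat_lit 10) C.nil) (C.cons (nat_lit 1036) (C.node (nat_lit 1) (nat_lit 3) (nat_lit 10) C.nil) C.nil)))) C.nil)) C.nil))) C.nil))) C.nil)) C.nil))) C.nil))) (C.cons (nat_lit 3080) (C.node (nat_lit 6) (nat_lit 10) (nat_lit 11) (C.cons (nat_lit 3136) (C.ref (nat_lit 258) (nat_lit 198064386771216)) C.nil)) C.nil))) C.nil))))) C.nil))))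 C.nil))) C.nil)))) C.nil)))) List.nil)

theorem ok12_302 : okL par12 (nat_lit 303) c12_302 (nat_lit 302) = true := by decide +kernel

noncomputable def c12_303 : List C :=
  (List.cons (C.node (nat_lit 4) (nat_lit 5) (nat_lit 11) (C.cons (nat_lit 2098) (C.node (nat_lit 4) (nat_lit 8) (nat_lit 11) (C.cons (nat_lit 2320) (C.node (nat_lit 3) (nat_lit 5) (nat_lit 11) (C.cons (nat_lit 2600) (C.node (nat_lit 3) (nat_lit 7) (nat_lit 11) (C.cons (nat_lit 2186) (C.miq (nat_lit 1094256565) (nat_lit 632278552611492996126869729)) (C.cons (nat_lit 2184) (C.node (nat_lit 1) (nat_lit 7) (nat_lit 11) (C.cons (nat_lit 2690) (C.miq (nat_lit 2710767541) (nat_lit 632287849770508310404401377)) (C.cons (nat_lit 2178) (C.node (nat_lit 7) (nat_lit 9) (nat_lit 11) (C.cons (nat_lit 2688) (C.ref (nat_lit 301) (nat_lit 205163983024656)) C.nil)) C.nil))) C.nil))) (C.cons (nat_lit 2088) (C.node (nat_lit 5) (nat_lit 9) (nat_lit 11) (C.cons (nat_lit 2592) (C.node (nat_lit 4) (nat_lit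 6) (nat_lit 11) (C.cons (nat_lit 2640) (C.node (nat_lit 2) (nat_lit 6) (nat_lit 11) (C.cons (nat_lit 2118) (C.node (nat_lit 2) (nat_lit 9) (nat_lit 11) (C.cons (nat_lit 2564) (C.node (nat_lit 1) (nat_lit 2) (nat_lit 4) (C.cons (nat_lit 534) (C.miq (nat_lit 1914374469) (nat_lit 2560546815574617787466908209)) (C.cons (nat_lit 22) (C.node (nat_lit 1) (nat_lit 10) (nat_lit 11) (C.cons (nat_lit 3082) (C.miq (nat_lit 2443641778) (nat_lit 1415664033065882956360583197)) (C.cons (nat_lit 3074) (C.node (nat_lit 1) (nat_lit 2) (nat_lit 7) (C.cons (nat_lit 174) (C.miq (nat_lit 2820737879) (nat_lit 317969092777113222613174497)) (C.cons (nat_lit 166) (C.miq (nat_lit 2820737879) (nat_lit 317969092777113222612650209)) (C.cons (nat_lit 142) (C.miq (nat_lit 2591099683) (nat_lit 1415661783497040460306581533)) (C.cons (nat_lit 134) (C.node (nat_lit 1) (nat_lit 2) (nat_lit 3) (C.cons (nat_lit 1038) (C.miq (nat_lit 833987168) (nat_lit 2536346015626110631921386565)) (C.cons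 (nat_lit 46) (C.miq (nat_lit 2605910049) (nat_lit 2524246760083651702654107911)) (C.cons (nat_lit 14) (C.node (nat_lit 1) (nat_lit 4) (nat_lit 6) (C.cons (nat_lit 90) (C.node (nat_lit 3) (nat_lit 10) (nat_lit 11) (C.cons (nat_lit 3144) (C.miq (nat_lit 1399065273) (nat_lit 108813672688526330529058561)) (C.cons (nat_lit 3080) (C.node (nat_lit 6) (nat_lit 10) (nat_lit 11) (C.cons (nat_lit 3136) (C.node (nat_lit 1) (nat_lit 8) (nat_lit 11) C.nil) C.nil)) C.nil))) (C.cons (nat_lit 82) (C.node (nat_lit 1) (nat_lit 3) (nat_lit 4) (C.cons (nat_lit 282) (C.node (nat_lit 1) (nat_lit 5) (nat_lit 7) (C.cons (nat_lit 930) (C.miq (nat_lit 1362266379) (nat_lit 16968127117511263541595905)) (C.cons (nat_lit 674) (C.miq (nat_lit 2453762229) (nat_lit 26608801318587802844268769)) (C.cons (nat_lit 418) (C.miq (nat_lit 672445808) (nat_lit 340955395677419762881857761)) (C.cons (nat_lit 170) (C.miq (nat_lit 2270245044) (nat_lit 205522591426945174239053853)) (C.cons (nat_lit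 162) (C.miq (nat_lit 2270245044) (nat_lit 195851184870028140841404445)) C.nil)))))) (C.cons (nat_lit 26) (C.node (nat_lit 1) (nat_lit 4) (nat_lit 8) (C.cons (nat_lit 786) (C.node (nat_lit 1) (nat_lit 9) (nat_lit 11) (C.cons (nat_lit 2690) (C.miq (nat_lit 1900460416) (nat_lit 99173847414850197354778369)) (C.cons (nat_lit 2562) (C.node (nat_lit 1) (nat_lit 7) (nat_lit 11) C.nil) C.nil))) (C.cons (nat_lit 274) (C.node (nat_lit 1) (nat_lit 4) (nat_lit 9) (C.cons (nat_lit 530) (C.node (nat_lit 1) (nat_lit 8) (nat_lit 11) C.nil) C.nil)) C.nil))) C.nil))) C.nil))) C.nil)))) C.nil))))) C.nil))) C.nil))) C.nil)) (C.cons (nat_lit 2116) (C.node (nat_lit 1) (nat_lit 2) (nat_lit 11) (C.cons (nat_lit 2566) (C.node (nat_lit 1) (nat_lit 4) (nat_lit 9) (C.cons (nat_lit 786) (C.miq (nat_lit 1763199776) (nat_lit 950221911512956330857400349)) (C.cons (nat_lit 530) (C.node (nat_lit 3) (nat_lit 9) (nat_lit 11) (C.cons (nat_lit 2696) (C.miq (nat_lit 2066233616) (nat_lit 2828893668227520794781483531))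 (C.cons (nat_lit 2568) (C.node (nat_lit 7) (nat_lit 9) (nat_lit 11) (C.cons (nat_lit 2688) (C.node (nat_lit 1) (nat_lit 7) (nat_lit 11) (C.cons (nat_lit 2178) (C.node (nat_lit 3) (nat_lit 7) (nat_lit 11) C.nil) C.nil)) C.nil)) C.nil))) C.nil))) (C.cons (nat_lit 2054)
  (C.node (nat_lit 2) (nat_lit 9) (nat_lit 11) (C.cons (nat_lit 2564) (C.node (nat_lit 1) (nat_lit 9) (nat_lit 11) (C.cons (nat_lit 2690) (C.node (nat_lit 3) (nat_lit 7) (nat_lit 11) (C.cons (nat_lit 2184) (C.node (nat_lit 3) (nat_lit 9) (nat_lit 11) C.nil) C.nil)) (C.cons (nat_lit 2562) (C.node (nat_lit 1) (nat_lit 7) (nat_lit 11) (C.cons (nat_lit 2186) (C.node (nat_lit 3) (nat_lit 9) (nat_lit 11) C.nil) C.nil)) C.nil))) C.nil)) C.nil))) C.nil))) (C.cons (nat_lit 2128) (C.node (nat_lit 4) (nat_lit 9) (nat_lit 11) (C.cons (nat_lit 2576) (C.node (nat_lit 2) (nat_lit 8) (nat_lit 10) (C.cons (nat_lit 1300) (C.miq (nat_lit 1797785508) (nat_lit 2828892635090791492155081875)) (C.cons (nat_lit 1292)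 (C.node (nat_lit 5) (nat_lit 7) (nat_lit 10) (C.cons (nat_lit 1696) (C.miq (nat_lit 1521784608) (nat_lit 3733173280070795564263735941)) (C.cons (nat_lit 1440) (C.miq (nat_lit 1116343127) (nat_lit 1561953760664044784551200993)) (C.cons (nat_lit 1184) (C.node (nat_lit 7) (nat_lit 8) (nat_lit 10) (C.cons (nat_lit 1472) (C.miq (nat_lit 1118309238) (nat_lit 1561938376079491021638994145)) (C.cons (nat_lit 1408) (C.node (nat_lit 2) (nat_lit 5) (nat_lit 7) (C.cons (nat_lit 180) (C.miq (nat_lit 1250062517) (nat_lit 1561935479685657856290588897)) (C.cons (nat_lit 174) (C.miq (nat_lit 2820737879) (nat_lit 317969092777113222613174497)) (C.cons (nat_lit 172) (C.miq (nat_lit 2723906416) (nat_lit 2828957272205885795993715081)) (C.cons (nat_lit 166) (C.miq (nat_lit 2820737879) (nat_lit 317969092777113222612650209)) (C.cons (nat_lit 164) (C.node (nat_lit 2) (nat_lit 3) (nat_lit 7) (C.cons (nat_lit 206) (C.miq (nat_lit 2591099683) (nat_lit 1415661783497040460310775837))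 (C.cons (nat_lit 204) (C.miq (nat_lit 3123054647) (nat_lit 1321397851369220164421419401)) (C.cons (nat_lit 142) (C.miq (nat_lit 2591099683) (nat_lit 1415661783497040460306581533)) (C.cons (nat_lit 140) (C.node (nat_lit 1) (nat_lit 2) (nat_lit 7) (C.cons (nat_lit 198) (C.node (nat_lit 1) (nat_lit 2) (nat_lit 3) (C.cons (nat_lit 46) (C.miq (nat_lit 2605910049) (nat_lit 2524246760083651702654107911)) (C.cons (nat_lit 14) (C.node (nat_lit 1) (nat_lit 2) (nat_lit 4) (C.cons (nat_lit 534) (C.miq (nat_lit 1698787474) (nat_lit 2536330022646613634599748229)) (C.cons (nat_lit 22) (C.node (nat_lit 2) (nat_lit 6) (nat_lit 11) (C.cons (nat_lit 2628) (C.miq (nat_lit 2417408626) (nat_lit 81046509038756278372273284)) (C.cons (nat_lit 2116) (C.node (nat_lit 1) (nat_lit 10) (nat_lit 11) (C.cons (nat_lit 3146) (C.miq (nat_lit 2443641778) (nat_lit 1415664033065883231238490141)) (C.cons (nat_lit 3138) (C.miq (nat_lit 2606893591) (nat_lit 2558098933535641739505042579)) (C.cons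 (nat_lit 3082) (C.miq (nat_lit 2443641778) (nat_lit 1415664033065882956360583197)) (C.cons (nat_lit 3074) (C.node (nat_lit 1) (nat_lit 2) (nat_lit 11) (C.cons (nat_lit 2566) (C.node (nat_lit 7) (nat_lit 9) (nat_lit 11) (C.cons (nat_lit 2696) (C.miq (nat_lit 2066233616) (nat_lit 2828893668227520794781483531)) C.nil)) C.nil)) C.nil))))) C.nil))) C.nil))) C.nil))) (C.cons (nat_lit 134) (C.node (nat_lit 2) (nat_lit 6) (nat_lit 7) (C.cons (nat_lit 452) (C.miq (nat_lit 1445595011) (nat_lit 1321375567261022752099533193)) (C.cons (nat_lit 212) (C.miq (nat_lit 1218601143) (nat_lit 1561936069746718084476176609)) (C.cons (nat_lit 196) (C.node (nat_lit 2) (nat_lit 4) (nat_lit 7) (C.cons (nat_lit 404) (C.node (nat_lit 2) (nat_lit 4) (nat_lit 10) (C.cons (nat_lit 1556) (C.miq (nat_lit 1461980073) (nat_lit 488416380387541920880267009)) (C.cons (nat_lit 1076) (C.miq (nat_lit 1384359024) (nat_lit 1561951805027408204526060691)) (C.cons (nat_lit 1044) (C.node (nat_lit 2)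 (nat_lit 4) (nat_lit 5) (C.cons (nat_lit 116) (C.node (nat_lit 1) (nat_lit 2) (nat_lit 4) (C.cons (nat_lit 534) (C.miq (nat_lit 2474774644) (nat_lit 1561942009650649355389240467)) (C.cons (nat_lit 22) (C.node (nat_lit 2) (nat_lit 4) (nat_lit 9) (C.cons (nat_lit 532) (C.node (nat_lit 5) (nat_lit 6) (nat_lit 10) (C.cons (nat_lit 1634)
  (C.miq (nat_lit 605686614) (nat_lit 1415672297644635865697356001)) (C.cons (nat_lit 1632) (C.miq (nat_lit 2504762912) (nat_lit 2536397223954846787265430597)) (C.cons (nat_lit 1378) (C.miq (nat_lit 622114976) (nat_lit 2536364684097590467316879105)) (C.cons (nat_lit 1376) (C.miq (nat_lit 2236327456) (nat_lit 2536397223882789193227502661)) (C.cons (nat_lit 1122) (C.miq (nat_lit 605686614) (nat_lit 1415672297644635865663801569)) (C.cons (nat_lit 1120) (C.node (nat_lit 2) (nat_lit 6) (nat_lit 8) (C.cons (nat_lit 836) (C.node (nat_lit 2) (nat_lit 6) (nat_lit 11) C.nil) (C.cons (nat_lit 324) (C.node (nat_lit 2) (nat_lit 8) (nat_lit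 9) (C.cons (nat_lit 772) (C.node (nat_lit 1) (nat_lit 7) (nat_lit 11) C.nil) C.nil)) C.nil))) C.nil))))))) C.nil)) C.nil))) (C.cons (nat_lit 52) (C.node (nat_lit 2) (nat_lit 6) (nat_lit 8) (C.cons (nat_lit 836) (C.node (nat_lit 2) (nat_lit 4) (nat_lit 9) (C.cons (nat_lit 534) (C.miq (nat_lit 942212929) (nat_lit 1010671632955601941198931091)) (C.cons (nat_lit 532) (C.node (nat_lit 2) (nat_lit 6) (nat_lit 11) (C.cons (nat_lit 2116) (C.node (nat_lit 1) (nat_lit 2) (nat_lit 4) C.nil) C.nil)) C.nil))) (C.cons (nat_lit 324) (C.node (nat_lit 2) (nat_lit 8) (nat_lit 9) (C.cons (nat_lit 772) (C.node (nat_lit 4) (nat_lit 5) (nat_lit 7) (C.cons (nat_lit 184) (C.node (nat_lit 3) (nat_lit 4) (nat_lit 8) (C.cons (nat_lit 792) (C.miq (nat_lit 2489025392) (nat_lit 2536397223718408098899100041)) (C.cons (nat_lit 282) (C.miq (nat_lit 2458060609) (nat_lit 1561941806770804538979517587)) (C.cons (nat_lit 280) (C.node (nat_lit 1) (nat_lit 5) (nat_lit 7) (C.cons (nat_lit 930)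 (C.miq (nat_lit 406083339) (nat_lit 338537931022936227956197601)) (C.cons (nat_lit 674) (C.miq (nat_lit 2511499584) (nat_lit 2828898316237882956753732755)) (C.cons (nat_lit 418) (C.miq (nat_lit 406083339) (nat_lit 338537930878821039880341729)) (C.cons (nat_lit 162) (C.node (nat_lit 5) (nat_lit 7) (nat_lit 8) (C.cons (nat_lit 928) (C.miq (nat_lit 2504754992) (nat_lit 2536397223756688695718904201)) C.nil)) C.nil))))) C.nil)))) (C.cons (nat_lit 176) (C.node (nat_lit 4) (nat_lit 8) (nat_lit 10) (C.cons (nat_lit 1328) (C.node (nat_lit 1) (nat_lit 4) (nat_lit 8) (C.cons (nat_lit 786) (C.miq (nat_lit 893454985) (nat_lit 2536336017498419112593985281)) (C.cons (nat_lit 282) (C.miq (nat_lit 2458060609) (nat_lit 1561941806770804538979517587)) (C.cons (nat_lit 274) (C.node (nat_lit 3) (nat_lit 4) (nat_lit 5) (C.cons (nat_lit 120) (C.node (nat_lit 1) (nat_lit 3) (nat_lit 4) C.nil) C.nil)) C.nil)))) (C.cons (nat_lit 1296) (C.node (nat_lit 5) (nat_lit 8) (nat_lit 10)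 (C.cons (nat_lit 1378) (C.miq (nat_lit 622114976) (nat_lit 2536364684097590467316879105)) (C.cons (nat_lit 1376) (C.miq (nat_lit 995631210) (nat_lit 2828910251676208790732014661)) (C.cons (nat_lit 1314) (C.miq (nat_lit 622114976) (nat_lit 2536364684097590192438972161)) (C.cons (nat_lit 1312) (C.node (nat_lit 2) (nat_lit 3) (nat_lit 5) (C.cons (nat_lit 620) (C.miq (nat_lit 2203820640) (nat_lit 2524307965663001168113108037)) (C.cons (nat_lit 556) (C.node (nat_lit 1) (nat_lit 2) (nat_lit 3) C.nil) (C.cons (nat_lit 110) (C.miq (nat_lit 2203820640) (nat_lit 2524307965662998977679787077)) (C.cons (nat_lit 108) (C.miq (nat_lit 2203820640) (nat_lit 2524307965662998969089852485)) (C.cons (nat_lit 46) (C.miq (nat_lit 2605910049) (nat_lit 2524246760083651702654107911)) C.nil)))))) C.nil))))) C.nil))) C.nil))) C.nil)) C.nil))) C.nil))) C.nil)))) (C.cons (nat_lit 148) (C.node (nat_lit 2) (nat_lit 7) (nat_lit 8) (C.cons (nat_lit 388) (C.node (nat_lit 2) (nat_lit 4)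 (nat_lit 8) (C.cons (nat_lit 788) (C.miq (nat_lit 1394870921) (nat_lit 2510949276262786546269425409)) (C.cons (nat_lit 276) (C.node (nat_lit 2) (nat_lit 6) (nat_lit 8) (C.cons (nat_lit 836) (C.node (nat_lit 2) (nat_lit 4) (nat_lit 9) (C.cons (nat_lit 1556) (C.miq (nat_lit 1461980073) (nat_lit 178931370566196852155485953)) (C.cons (nat_lit 534) (C.miq (nat_lit 3072413844) (nat_lit 162034761737222344402141745)) (C.cons (nat_lit 532)
  (C.node (nat_lit 2) (nat_lit 6) (nat_lit 11) (C.cons (nat_lit 2118) (C.node (nat_lit 1) (nat_lit 2) (nat_lit 4) C.nil) C.nil)) C.nil)))) (C.cons (nat_lit 324) (C.node (nat_lit 2) (nat_lit 8) (nat_lit 9) (C.cons (nat_lit 772) (C.node (nat_lit 1) (nat_lit 2) (nat_lit 11) (C.cons (nat_lit 2630) (C.node (nat_lit 1) (nat_lit 2) (nat_lit 4) C.nil) C.nil)) C.nil)) C.nil))) C.nil))) C.nil)) C.nil))) C.nil)))) C.nil))) C.nil))))) C.nil)))))) C.nil))) C.nil)))) (C.cons (nat_lit 1284) (C.node (nat_lit 5) (nat_lit 7) (nat_lit 10) (C.cons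 (nat_lit 1696) (C.miq (nat_lit 1521784608) (nat_lit 3733173280070795564263735941)) (C.cons (nat_lit 1440) (C.miq (nat_lit 1116343127) (nat_lit 1552282354107127751153551585)) (C.cons (nat_lit 1184) (C.node (nat_lit 7) (nat_lit 8) (nat_lit 10) (C.cons (nat_lit 1472) (C.miq (nat_lit 1118309238) (nat_lit 1552266969522573988241344737)) (C.cons (nat_lit 1408) (C.node (nat_lit 2) (nat_lit 4) (nat_lit 10) (C.cons (nat_lit 1556) (C.miq (nat_lit 2507817138) (nat_lit 1431396873715416859519748125)) (C.cons (nat_lit 1076) (C.node (nat_lit 2) (nat_lit 4) (nat_lit 7) (C.cons (nat_lit 404) (C.miq (nat_lit 891816519) (nat_lit 2828893667768428708274373779)) (C.cons (nat_lit 212) (C.miq (nat_lit 2317618038) (nat_lit 1300810399539252978737481953)) (C.cons (nat_lit 148) (C.node (nat_lit 2) (nat_lit 4) (nat_lit 8) (C.cons (nat_lit 788) (C.node (nat_lit 2) (nat_lit 7) (nat_lit 8) (C.cons (nat_lit 452) (C.miq (nat_lit 1418070311) (nat_lit 407449930817320420085334661)) (C.cons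 (nat_lit 388) (C.node (nat_lit 1) (nat_lit 2) (nat_lit 4) (C.cons (nat_lit 86) (C.node (nat_lit 1) (nat_lit 4) (nat_lit 9) (C.cons (nat_lit 530) (C.node (nat_lit 1) (nat_lit 2) (nat_lit 11) (C.cons (nat_lit 2566) (C.miq (nat_lit 2959185986) (nat_lit 81045365340620126370005780)) (C.cons (nat_lit 2054) (C.node (nat_lit 1) (nat_lit 2) (nat_lit 10) (C.cons (nat_lit 1542) (C.miq (nat_lit 1754415265) (nat_lit 952635132371191692911838355)) (C.cons (nat_lit 1038) (C.miq (nat_lit 2485192099) (nat_lit 103977268291920742507742249)) (C.cons (nat_lit 1030) (C.node (nat_lit 1) (nat_lit 2) (nat_lit 3) (C.cons (nat_lit 174) (C.miq (nat_lit 2182788464) (nat_lit 1245264448805707361239107809)) (C.cons (nat_lit 142) (C.miq (nat_lit 2591099683) (nat_lit 1415661783497040460306581533)) (C.cons (nat_lit 46) (C.miq (nat_lit 2605910049) (nat_lit 2524246760083651702654107911)) (C.cons (nat_lit 14) (C.node (nat_lit 1) (nat_lit 2) (nat_lit 7) (C.cons (nat_lit 166) (C.miq (nat_lit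 2182788464) (nat_lit 1245264448805707326879369441)) (C.cons (nat_lit 134) (C.node (nat_lit 1) (nat_lit 2) (nat_lit 5) (C.cons (nat_lit 38) (C.node (nat_lit 1) (nat_lit 2) (nat_lit 9) C.nil) C.nil)) C.nil))) C.nil))))) C.nil)))) C.nil))) C.nil)) (C.cons (nat_lit 22) (C.node (nat_lit 2) (nat_lit 4) (nat_lit 6) (C.cons (nat_lit 84) (C.node (nat_lit 1) (nat_lit 4) (nat_lit 8) (C.cons (nat_lit 282) (C.node (nat_lit 5) (nat_lit 7) (nat_lit 8) (C.cons (nat_lit 930) (C.miq (nat_lit 2453762229) (nat_lit 26613523685070672489482465)) (C.cons (nat_lit 928) (C.miq (nat_lit 410338059) (nat_lit 1121921861950820148270139421)) (C.cons (nat_lit 432) (C.miq (nat_lit 410338059) (nat_lit 522294655421964077615876125)) (C.cons (nat_lit 418) (C.miq (nat_lit 672445808) (nat_lit 340955395677419762881857761)) (C.cons (nat_lit 416) (C.miq (nat_lit 410338059) (nat_lit 502951842308130010820577309)) C.nil)))))) (C.cons (nat_lit 274) (C.node (nat_lit 1) (nat_lit 3) (nat_lit 4) (C.cons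 (nat_lit 90) (C.node (nat_lit 1) (nat_lit 4) (nat_lit 9) (C.cons (nat_lit 530) (C.node (nat_lit 4) (nat_lit 5) (nat_lit 6) C.nil) C.nil)) (C.cons (nat_lit 26) (C.node (nat_lit 1) (nat_lit 4) (nat_lit 6) (C.cons (nat_lit 594) (C.node (nat_lit 1) (nat_lit 2) (nat_lit 11) C.nil) (C.cons (nat_lit 82) (C.node (nat_lit 1) (nat_lit 4) (nat_lit 9) (C.cons (nat_lit 530) (C.node (nat_lit 4) (nat_lit 5) (nat_lit 6) C.nil) C.nil)) C.nil))) C.nil))) C.nil))) C.nil)) C.nil))) C.nil))) (C.cons (nat_lit 276) (C.node (nat_lit 2) (nat_lit 7) (nat_lit 8) (C.cons (nat_lit 452)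
  (C.node (nat_lit 1) (nat_lit 2) (nat_lit 7) (C.cons (nat_lit 174) (C.miq (nat_lit 2820737879) (nat_lit 317969092777113222613174497)) (C.cons (nat_lit 166) (C.miq (nat_lit 2820737879) (nat_lit 317969092777113222612650209)) (C.cons (nat_lit 142) (C.miq (nat_lit 2591099683) (nat_lit 1415661783497040460306581533)) (C.cons (nat_lit 134) (C.node (nat_lit 2) (nat_lit 3) (nat_lit 7) (C.cons (nat_lit 172) (C.node (nat_lit 2) (nat_lit 3) (nat_lit 8) (C.cons (nat_lit 780) (C.miq (nat_lit 2203816560) (nat_lit 2524307965518884055891903109)) (C.cons (nat_lit 268) (C.node (nat_lit 2) (nat_lit 8) (nat_lit 9) (C.cons (nat_lit 772) (C.node (nat_lit 2) (nat_lit 3) (nat_lit 10) (C.cons (nat_lit 1548) (C.miq (nat_lit 2740687472) (nat_lit 2524307965735056838005686917)) (C.cons (nat_lit 1038) (C.miq (nat_lit 2502100129) (nat_lit 207944888778778851532473491)) (C.cons (nat_lit 1036) (C.node (nat_lit 1) (nat_lit 5) (nat_lit 7) (C.cons (nat_lit 930) (C.miq (nat_lit 321228984)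 (nat_lit 207952396592925101552570113)) (C.cons (nat_lit 674) (C.miq (nat_lit 2511499584) (nat_lit 2828898316237882956753732755)) (C.cons (nat_lit 418) (C.miq (nat_lit 1115753303) (nat_lit 317969092280591363711568097)) (C.cons (nat_lit 162) (C.node (nat_lit 5) (nat_lit 7) (nat_lit 9) (C.cons (nat_lit 928) (C.miq (nat_lit 2235275040) (nat_lit 2524307965560542352432235141)) (C.cons (nat_lit 672) (C.node (nat_lit 1) (nat_lit 5) (nat_lit 10) (C.cons (nat_lit 1634) (C.miq (nat_lit 605686614) (nat_lit 1415672297644635865697356001)) (C.cons (nat_lit 1570) (C.miq (nat_lit 2468679754) (nat_lit 207964202509132275582764179)) (C.cons (nat_lit 1378) (C.miq (nat_lit 622114976) (nat_lit 2536364684097590467316879105)) (C.cons (nat_lit 1314) (C.miq (nat_lit 622114976) (nat_lit 2536364684097590192438972161)) (C.cons (nat_lit 1122) (C.miq (nat_lit 605686614) (nat_lit 1415672297644635865663801569)) (C.cons (nat_lit 1058) (C.node (nat_lit 1) (nat_lit 7) (nat_lit 11) C.nil)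 C.nil))))))) C.nil))) C.nil))))) C.nil)))) C.nil)) C.nil))) (C.cons (nat_lit 140) (C.node (nat_lit 2) (nat_lit 5) (nat_lit 7) (C.cons (nat_lit 164) (C.node (nat_lit 2) (nat_lit 3) (nat_lit 8) (C.cons (nat_lit 780) (C.node (nat_lit 2) (nat_lit 3) (nat_lit 10) (C.cons (nat_lit 1038) (C.miq (nat_lit 1379486224) (nat_lit 942972488225707640480269459)) (C.cons (nat_lit 1036) (C.node (nat_lit 1) (nat_lit 2) (nat_lit 10) (C.cons (nat_lit 1542) (C.miq (nat_lit 305637760) (nat_lit 169271216317396162531888897)) (C.cons (nat_lit 1030) (C.node (nat_lit 1) (nat_lit 2) (nat_lit 11) (C.cons (nat_lit 2630) (C.miq (nat_lit 1647819136) (nat_lit 169291544935610165118963457)) C.nil)) C.nil))) C.nil))) (C.cons (nat_lit 268) (C.node (nat_lit 2) (nat_lit 8) (nat_lit 9) (C.cons (nat_lit 772) (C.node (nat_lit 4) (nat_lit 5) (nat_lit 6) (C.cons (nat_lit 120) (C.node (nat_lit 4) (nat_lit 8) (nat_lit 10) (C.cons (nat_lit 1304) (C.miq (nat_lit 2221646672) (nat_lit 2572664998450961887338234921))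 (C.cons (nat_lit 1296) (C.node (nat_lit 3) (nat_lit 4) (nat_lit 10) (C.cons (nat_lit 1560) (C.miq (nat_lit 2490082128) (nat_lit 2572664998523019481376162857)) (C.cons (nat_lit 1048) (C.node (nat_lit 2) (nat_lit 4) (nat_lit 9) (C.cons (nat_lit 598) (C.miq (nat_lit 3072413844) (nat_lit 162034761737222344406336049)) (C.cons (nat_lit 596) (C.node (nat_lit 1) (nat_lit 2) (nat_lit 4) C.nil) (C.cons (nat_lit 534) (C.miq (nat_lit 3072413844) (nat_lit 162034761737222344402141745)) C.nil)))) C.nil))) C.nil))) (C.cons (nat_lit 112) (C.node (nat_lit 4) (nat_lit 8) (nat_lit 10) (C.cons (nat_lit 1304) (C.node (nat_lit 3) (nat_lit 4) (nat_lit 5) (C.cons (nat_lit 184) (C.miq (nat_lit 2203821168) (nat_lit 2524307965666376995227894931)) (C.cons (nat_lit 56) (C.node (nat_lit 4) (nat_lit 5) (nat_lit 7) (C.cons (nat_lit 432) (C.node (nat_lit 1) (nat_lit 3) (nat_lit 4) C.nil) C.nil)) C.nil))) (C.cons (nat_lit 1296) (C.node (nat_lit 1) (nat_lit 7) (nat_lit 8) (C.cons (nat_lit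 930) (C.miq (nat_lit 1115753303) (nat_lit 317969092280591363745122529)) (C.cons (nat_lit 898)
  (C.node (nat_lit 5) (nat_lit 7) (nat_lit 8) (C.cons (nat_lit 432) (C.node (nat_lit 3) (nat_lit 4) (nat_lit 5) C.nil) C.nil)) (C.cons (nat_lit 418) (C.miq (nat_lit 1115753303) (nat_lit 317969092280591363711568097)) (C.cons (nat_lit 386) (C.node (nat_lit 1) (nat_lit 8) (nat_lit 11) (C.cons (nat_lit 2378) (C.node (nat_lit 1) (nat_lit 10) (nat_lit 11) C.nil) C.nil)) C.nil))))) C.nil))) C.nil))) C.nil)) C.nil))) C.nil)) C.nil))) C.nil))))) (C.cons (nat_lit 388) (C.node (nat_lit 4) (nat_lit 5) (nat_lit 6) (C.cons (nat_lit 120) (C.node (nat_lit 4) (nat_lit 8) (nat_lit 10) (C.cons (nat_lit 1304) (C.miq (nat_lit 2221646672) (nat_lit 2572664998450961887338234921)) (C.cons (nat_lit 1296) (C.node (nat_lit 3) (nat_lit 4) (nat_lit 10) (C.cons (nat_lit 1560) (C.miq (nat_lit 2490082128) (nat_lit 2572664998523019481376162857)) (C.cons (nat_lit 1048) (C.node (nat_lit 3) (nat_lit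 10) (nat_lit 11) (C.cons (nat_lit 3146) (C.miq (nat_lit 2587102053) (nat_lit 1266964608660715623671138529)) (C.cons (nat_lit 3144) (C.miq (nat_lit 2587102053) (nat_lit 1266964608660715615081203937)) (C.cons (nat_lit 3082) (C.miq (nat_lit 2443641778) (nat_lit 1415664033065882956360583197)) (C.cons (nat_lit 3080) (C.node (nat_lit 5) (nat_lit 8) (nat_lit 10) (C.cons (nat_lit 1378) (C.miq (nat_lit 622114976) (nat_lit 2536364684097590467316879105)) (C.cons (nat_lit 1376) (C.miq (nat_lit 2253104432) (nat_lit 2572664998471228085648557097)) (C.cons (nat_lit 1314) (C.miq (nat_lit 622114976) (nat_lit 2536364684097590192438972161)) (C.cons (nat_lit 1312) (C.node (nat_lit 5) (nat_lit 6) (nat_lit 10) (C.cons (nat_lit 1634) (C.miq (nat_lit 605686614) (nat_lit 1415672297644635865697356001)) (C.cons (nat_lit 1632) (C.miq (nat_lit 2521539888) (nat_lit 2572664998543285679686485033)) (C.cons (nat_lit 1122) (C.miq (nat_lit 605686614) (nat_lit 1415672297644635865663801569))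 (C.cons (nat_lit 1120) (C.node (nat_lit 1) (nat_lit 5) (nat_lit 10) C.nil) C.nil))))) C.nil))))) C.nil))))) C.nil))) C.nil))) (C.cons (nat_lit 112) (C.node (nat_lit 4) (nat_lit 8) (nat_lit 10) (C.cons (nat_lit 1304) (C.node (nat_lit 3) (nat_lit 4) (nat_lit 5) (C.cons (nat_lit 184) (C.miq (nat_lit 2203821168) (nat_lit 2524307965666376995227894931)) (C.cons (nat_lit 56) (C.node (nat_lit 5) (nat_lit 8) (nat_lit 10) (C.cons (nat_lit 1378) (C.miq (nat_lit 622114976) (nat_lit 2536364684097590467316879105)) (C.cons (nat_lit 1376) (C.miq (nat_lit 1749768752) (nat_lit 2804749831342534395856487465)) (C.cons (nat_lit 1314) (C.miq (nat_lit 622114976) (nat_lit 2536364684097590192438972161)) (C.cons (nat_lit 1312) (C.node (nat_lit 1) (nat_lit 3) (nat_lit 4) (C.cons (nat_lit 90) (C.node (nat_lit 1) (nat_lit 2) (nat_lit 4) (C.cons (nat_lit 534) (C.miq (nat_lit 460473609) (nat_lit 3873408177197151500301042225)) C.nil)) (C.cons (nat_lit 26) (C.node (nat_lit 4) (nat_lit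 5) (nat_lit 7) C.nil) C.nil))) C.nil))))) C.nil))) (C.cons (nat_lit 1296) (C.node (nat_lit 1) (nat_lit 10) (nat_lit 11) (C.cons (nat_lit 3146) (C.miq (nat_lit 2443641778) (nat_lit 1415664033065883231238490141)) (C.cons (nat_lit 3138) (C.node (nat_lit 3) (nat_lit 10) (nat_lit 11) (C.cons (nat_lit 3080) (C.node (nat_lit 2) (nat_lit 6) (nat_lit 11) (C.cons (nat_lit 2628) (C.miq (nat_lit 1628027506) (nat_lit 632316682585150273439992964)) (C.cons (nat_lit 2116) (C.node (nat_lit 1) (nat_lit 2) (nat_lit 11) (C.cons (nat_lit 2566) (C.node (nat_lit 1) (nat_lit 7) (nat_lit 11) C.nil) C.nil)) C.nil))) C.nil)) (C.cons (nat_lit 3082) (C.miq (nat_lit 2443641778) (nat_lit 1415664033065882956360583197)) (C.cons (nat_lit 3074) (C.node (nat_lit 3) (nat_lit 10) (nat_lit 11) (C.cons (nat_lit 3144) (C.node (nat_lit 3) (nat_lit 4) (nat_lit 10) (C.cons (nat_lit 1560) (C.miq (nat_lit 878094603) (nat_lit 135457688799309583691616001)) (C.cons (nat_lit 1048) (C.node (nat_lit 3)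 (nat_lit 9) (nat_lit 11) (C.cons (nat_lit 2696) (C.miq (nat_lit 1670425458) (nat_lit 632288366834692528963652740)) (C.cons (nat_lit 2568) (C.node (nat_lit 3) (nat_lit 7) (nat_lit 11) (C.cons (nat_lit 2186)
  (C.node (nat_lit 3) (nat_lit 8) (nat_lit 11) C.nil) C.nil)) C.nil))) C.nil))) (C.cons (nat_lit 3080) (C.node (nat_lit 6) (nat_lit 10) (nat_lit 11) C.nil) C.nil))) C.nil))))) C.nil))) C.nil))) C.nil))) C.nil))) C.nil)))) (C.cons (nat_lit 1044) (C.node (nat_lit 2) (nat_lit 4) (nat_lit 5) (C.cons (nat_lit 180) (C.miq (nat_lit 2586053493) (nat_lit 1262128905382257356084349153)) (C.cons (nat_lit 116) (C.node (nat_lit 1) (nat_lit 2) (nat_lit 4) (C.cons (nat_lit 534) (C.miq (nat_lit 460473609) (nat_lit 3873408177197151500301042225)) (C.cons (nat_lit 22) (C.node (nat_lit 2) (nat_lit 4) (nat_lit 9) (C.cons (nat_lit 788) (C.miq (nat_lit 1803702420) (nat_lit 2828888558360353938204787249)) (C.cons (nat_lit 532) (C.node (nat_lit 2) (nat_lit 5) (nat_lit 7) (C.cons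 (nat_lit 174) (C.miq (nat_lit 2200176470) (nat_lit 2510945144002958049162823905)) (C.cons (nat_lit 172) (C.miq (nat_lit 2200176470) (nat_lit 2510945144002958040572889313)) (C.cons (nat_lit 166) (C.miq (nat_lit 2820737879) (nat_lit 317969092777113222612650209)) (C.cons (nat_lit 164) (C.node (nat_lit 5) (nat_lit 6) (nat_lit 10) (C.cons (nat_lit 1634) (C.miq (nat_lit 605686614) (nat_lit 1415672297644635865697356001)) (C.cons (nat_lit 1632) (C.miq (nat_lit 2504762912) (nat_lit 2536397223954846787265430597)) (C.cons (nat_lit 1378) (C.miq (nat_lit 622114976) (nat_lit 2536364684097590467316879105)) (C.cons (nat_lit 1376) (C.miq (nat_lit 2236327456) (nat_lit 2536397223882789193227502661)) (C.cons (nat_lit 1122) (C.miq (nat_lit 605686614) (nat_lit 1415672297644635865663801569)) (C.cons (nat_lit 1120) (C.node (nat_lit 2) (nat_lit 4) (nat_lit 7) (C.cons (nat_lit 404) (C.node (nat_lit 4) (nat_lit 5) (nat_lit 7) (C.cons (nat_lit 184) (C.node (nat_lit 1) (nat_lit 5)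 (nat_lit 7) (C.cons (nat_lit 930) (C.miq (nat_lit 2453762229) (nat_lit 26613523685070672489482465)) (C.cons (nat_lit 674) (C.miq (nat_lit 2453762229) (nat_lit 26608801318587802844268769)) (C.cons (nat_lit 418) (C.miq (nat_lit 1115753303) (nat_lit 317969092280591363711568097)) (C.cons (nat_lit 162) (C.node (nat_lit 4) (nat_lit 5) (nat_lit 8) (C.cons (nat_lit 304) (C.node (nat_lit 4) (nat_lit 5) (nat_lit 10) C.nil) C.nil)) C.nil))))) (C.cons (nat_lit 176) (C.node (nat_lit 3) (nat_lit 4) (nat_lit 5) (C.cons (nat_lit 312) (C.node (nat_lit 4) (nat_lit 5) (nat_lit 10) C.nil) (C.cons (nat_lit 56) (C.node (nat_lit 4) (nat_lit 5) (nat_lit 8) C.nil) C.nil))) C.nil))) (C.cons (nat_lit 148) (C.node (nat_lit 2) (nat_lit 4) (nat_lit 8) (C.cons (nat_lit 276) (C.node (nat_lit 2) (nat_lit 7) (nat_lit 8) (C.cons (nat_lit 452) (C.node (nat_lit 1) (nat_lit 2) (nat_lit 7) (C.cons (nat_lit 142) (C.miq (nat_lit 2591099683) (nat_lit 1415661783497040460306581533)) (C.cons (nat_lit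 134) (C.node (nat_lit 2) (nat_lit 3) (nat_lit 7) (C.cons (nat_lit 140) (C.node (nat_lit 4) (nat_lit 5) (nat_lit 10) C.nil) C.nil)) C.nil))) (C.cons (nat_lit 388) (C.node (nat_lit 4) (nat_lit 5) (nat_lit 10) (C.cons (nat_lit 1328) (C.node (nat_lit 3) (nat_lit 4) (nat_lit 5) C.nil) (C.cons (nat_lit 1072) (C.node (nat_lit 3) (nat_lit 4) (nat_lit 5) C.nil) C.nil))) C.nil))) C.nil)) C.nil))) C.nil))))))) C.nil))))) C.nil))) C.nil))) (C.cons (nat_lit 52) (C.node (nat_lit 2) (nat_lit 4) (nat_lit 7) (C.cons (nat_lit 404) (C.node (nat_lit 4) (nat_lit 5) (nat_lit 7) (C.cons (nat_lit 184) (C.node (nat_lit 2) (nat_lit 5) (nat_lit 7) (C.cons (nat_lit 166) (C.miq (nat_lit 2820737879) (nat_lit 317969092777113222612650209)) (C.cons (nat_lit 164) (C.node (nat_lit 1) (nat_lit 5) (nat_lit 7) (C.cons (nat_lit 930) (C.miq (nat_lit 1115753303) (nat_lit 317969092280591363745122529)) (C.cons (nat_lit 674) (C.miq (nat_lit 2511499584) (nat_lit 2828898316237882956753732755)) (C.cons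 (nat_lit 418) (C.miq (nat_lit 1115753303) (nat_lit 317969092280591363711568097)) (C.cons (nat_lit 162) (C.node (nat_lit 5) (nat_lit 7) (nat_lit 8) (C.cons (nat_lit 928) (C.miq (nat_lit 2504754992) (nat_lit 2536397223756688695718904201)) (C.cons (nat_lit 416) (C.node (nat_lit 5) (nat_lit 7) (nat_lit 9) (C.cons (nat_lit 672)
  (C.node (nat_lit 4) (nat_lit 5) (nat_lit 6) C.nil) C.nil)) C.nil))) C.nil))))) C.nil))) (C.cons (nat_lit 176) (C.node (nat_lit 1) (nat_lit 10) (nat_lit 11) (C.cons (nat_lit 3146) (C.miq (nat_lit 2443641778) (nat_lit 1415664033065883231238490141)) (C.cons (nat_lit 3138) (C.node (nat_lit 3) (nat_lit 10) (nat_lit 11) (C.cons (nat_lit 3080) (C.node (nat_lit 2) (nat_lit 6) (nat_lit 11) (C.cons (nat_lit 2628) (C.miq (nat_lit 1628027506) (nat_lit 632316682585150273439992964)) (C.cons (nat_lit 2116) (C.node (nat_lit 1) (nat_lit 2) (nat_lit 11) (C.cons (nat_lit 2566) (C.node (nat_lit 1) (nat_lit 7) (nat_lit 11) C.nil) C.nil)) C.nil))) C.nil))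 (C.cons (nat_lit 3082) (C.miq (nat_lit 2443641778) (nat_lit 1415664033065882956360583197)) (C.cons (nat_lit 3074) (C.node (nat_lit 3) (nat_lit 10) (nat_lit 11) (C.cons (nat_lit 3144) (C.node (nat_lit 3) (nat_lit 9) (nat_lit 11) (C.cons (nat_lit 2696) (C.miq (nat_lit 1670425458) (nat_lit 632288366834692528963652740)) (C.cons (nat_lit 2568) (C.node (nat_lit 3) (nat_lit 7) (nat_lit 11) (C.cons (nat_lit 2186) (C.node (nat_lit 3) (nat_lit 8) (nat_lit 11) C.nil) C.nil)) C.nil))) (C.cons (nat_lit 3080) (C.node (nat_lit 6) (nat_lit 10) (nat_lit 11) C.nil) C.nil))) C.nil))))) C.nil))) (C.cons (nat_lit 212) (C.miq (nat_lit 2317618038) (nat_lit 1262124773311584845146884321)) (C.cons (nat_lit 148) (C.node (nat_lit 2) (nat_lit 4) (nat_lit 8) (C.cons (nat_lit 788) (C.node (nat_lit 2) (nat_lit 7) (nat_lit 8) (C.cons (nat_lit 452) (C.miq (nat_lit 1418070311) (nat_lit 407449930817320420085334661)) (C.cons (nat_lit 388) (C.node (nat_lit 1) (nat_lit 2) (nat_lit 4) (C.cons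 (nat_lit 86) (C.node (nat_lit 1) (nat_lit 4) (nat_lit 9) (C.cons (nat_lit 530) (C.node (nat_lit 1) (nat_lit 2) (nat_lit 11) (C.cons (nat_lit 2566) (C.miq (nat_lit 2959185986) (nat_lit 81045365340620126370005780)) (C.cons (nat_lit 2054) (C.node (nat_lit 1) (nat_lit 2) (nat_lit 7) (C.cons (nat_lit 174) (C.miq (nat_lit 2820737879) (nat_lit 317969092777113222613174497)) (C.cons (nat_lit 166) (C.miq (nat_lit 2820737879) (nat_lit 317969092777113222612650209)) (C.cons (nat_lit 142) (C.miq (nat_lit 2591099683) (nat_lit 1415661783497040460306581533)) (C.cons (nat_lit 134) (C.node (nat_lit 2) (nat_lit 3) (nat_lit 8) (C.cons (nat_lit 332) (C.miq (nat_lit 840402496) (nat_lit 162003309492231338976280913)) (C.cons (nat_lit 268) (C.node (nat_lit 2) (nat_lit 6) (nat_lit 8) C.nil) C.nil))) C.nil))))) C.nil))) C.nil)) (C.cons (nat_lit 22) (C.node (nat_lit 2) (nat_lit 4) (nat_lit 6) (C.cons (nat_lit 84) (C.node (nat_lit 1) (nat_lit 4) (nat_lit 8) (C.cons (nat_lit 282) (C.node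 (nat_lit 5) (nat_lit 7) (nat_lit 8) (C.cons (nat_lit 930) (C.miq (nat_lit 2453762229) (nat_lit 26613523685070672489482465)) (C.cons (nat_lit 928) (C.miq (nat_lit 410338059) (nat_lit 1121921861950820148270139421)) (C.cons (nat_lit 432) (C.miq (nat_lit 410338059) (nat_lit 522294655421964077615876125)) (C.cons (nat_lit 418) (C.miq (nat_lit 672445808) (nat_lit 340955395677419762881857761)) (C.cons (nat_lit 416) (C.miq (nat_lit 410338059) (nat_lit 502951842308130010820577309)) C.nil)))))) (C.cons (nat_lit 274) (C.node (nat_lit 1) (nat_lit 3) (nat_lit 4) (C.cons (nat_lit 90) (C.node (nat_lit 1) (nat_lit 4) (nat_lit 9) (C.cons (nat_lit 530) (C.node (nat_lit 4) (nat_lit 5) (nat_lit 6) C.nil) C.nil)) (C.cons (nat_lit 26) (C.node (nat_lit 1) (nat_lit 4) (nat_lit 6) (C.cons (nat_lit 594) (C.node (nat_lit 4) (nat_lit 6) (nat_lit 7) C.nil) C.nil)) C.nil))) C.nil))) C.nil)) C.nil))) C.nil))) (C.cons (nat_lit 276) (C.node (nat_lit 2) (nat_lit 7) (nat_lit 8) (C.cons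 (nat_lit 452) (C.node (nat_lit 1) (nat_lit 2) (nat_lit 7) (C.cons (nat_lit 174) (C.miq (nat_lit 2820737879) (nat_lit 317969092777113222613174497)) (C.cons (nat_lit 166) (C.miq (nat_lit 2820737879) (nat_lit 317969092777113222612650209)) (C.cons (nat_lit 142) (C.miq (nat_lit 2591099683) (nat_lit 1415661783497040460306581533)) (C.cons (nat_lit 134) (C.node (nat_lit 2) (nat_lit 3) (nat_lit 7) (C.cons (nat_lit 172)
  (C.node (nat_lit 2) (nat_lit 3) (nat_lit 8) (C.cons (nat_lit 780) (C.miq (nat_lit 2203816560) (nat_lit 2524307965518884055891903109)) (C.cons (nat_lit 268) (C.node (nat_lit 2) (nat_lit 8) (nat_lit 9) (C.cons (nat_lit 772) (C.node (nat_lit 1) (nat_lit 5) (nat_lit 7) (C.cons (nat_lit 930) (C.miq (nat_lit 321228984) (nat_lit 207952396592925101552570113)) (C.cons (nat_lit 674) (C.miq (nat_lit 2511499584) (nat_lit 2828898316237882956753732755)) (C.cons (nat_lit 418) (C.miq (nat_lit 1115753303) (nat_lit 317969092280591363711568097)) (C.cons (nat_lit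 162) (C.node (nat_lit 5) (nat_lit 7) (nat_lit 9) (C.cons (nat_lit 928) (C.miq (nat_lit 2235275040) (nat_lit 2524307965560542352432235141)) (C.cons (nat_lit 672) (C.node (nat_lit 2) (nat_lit 3) (nat_lit 9) (C.cons (nat_lit 1548) (C.miq (nat_lit 2740687472) (nat_lit 2524307965735056838005686917)) (C.cons (nat_lit 588) (C.node (nat_lit 1) (nat_lit 2) (nat_lit 3) C.nil) C.nil))) C.nil))) C.nil))))) C.nil)) C.nil))) (C.cons (nat_lit 140) (C.node (nat_lit 2) (nat_lit 5) (nat_lit 7) (C.cons (nat_lit 164) (C.node (nat_lit 2) (nat_lit 3) (nat_lit 8) (C.cons (nat_lit 780) (C.node (nat_lit 2) (nat_lit 6) (nat_lit 11) (C.cons (nat_lit 2630) (C.miq (nat_lit 1647819136) (nat_lit 169291544935610165118963457)) (C.cons (nat_lit 2628) (C.miq (nat_lit 1647819136) (nat_lit 169291544935047215165542145)) (C.cons (nat_lit 2118) (C.node (nat_lit 2) (nat_lit 9) (nat_lit 11) C.nil) C.nil)))) (C.cons (nat_lit 268) (C.node (nat_lit 2) (nat_lit 8) (nat_lit 9) (C.cons (nat_lit 772)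 (C.node (nat_lit 2) (nat_lit 3) (nat_lit 10) C.nil) C.nil)) C.nil))) C.nil)) C.nil))) C.nil))))) (C.cons (nat_lit 388) (C.node (nat_lit 1) (nat_lit 10) (nat_lit 11) (C.cons (nat_lit 3146) (C.miq (nat_lit 2443641778) (nat_lit 1415664033065883231238490141)) (C.cons (nat_lit 3138) (C.node (nat_lit 3) (nat_lit 10) (nat_lit 11) (C.cons (nat_lit 3080) (C.node (nat_lit 2) (nat_lit 6) (nat_lit 11) (C.cons (nat_lit 2628) (C.miq (nat_lit 1628027506) (nat_lit 632316682585150273439992964)) (C.cons (nat_lit 2116) (C.node (nat_lit 1) (nat_lit 2) (nat_lit 11) (C.cons (nat_lit 2566) (C.node (nat_lit 1) (nat_lit 7) (nat_lit 11) C.nil) C.nil)) C.nil))) C.nil)) (C.cons (nat_lit 3082) (C.miq (nat_lit 2443641778) (nat_lit 1415664033065882956360583197)) (C.cons (nat_lit 3074) (C.node (nat_lit 3) (nat_lit 10) (nat_lit 11) (C.cons (nat_lit 3144) (C.node (nat_lit 3) (nat_lit 9) (nat_lit 11) (C.cons (nat_lit 2696) (C.miq (nat_lit 1670425458) (nat_lit 632288366834692528963652740))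 (C.cons (nat_lit 2568) (C.node (nat_lit 3) (nat_lit 7) (nat_lit 11) (C.cons (nat_lit 2186) (C.node (nat_lit 3) (nat_lit 8) (nat_lit 11) C.nil) C.nil)) C.nil))) (C.cons (nat_lit 3080) (C.node (nat_lit 6) (nat_lit 10) (nat_lit 11) C.nil) C.nil))) C.nil))))) C.nil))) C.nil))) C.nil)))) C.nil)))) C.nil)))) C.nil))) C.nil)))) C.nil)))) C.nil)) C.nil))) C.nil)) C.nil))) C.nil)) (C.cons (nat_lit 2096) (C.node (nat_lit 4) (nat_lit 8) (nat_lit 11) (C.cons (nat_lit 2322) (C.node (nat_lit 3) (nat_lit 8) (nat_lit 11) (C.cons (nat_lit 2376) (C.node (nat_lit 3) (nat_lit 10) (nat_lit 11) (C.cons (nat_lit 3082) (C.miq (nat_lit 2443641778) (nat_lit 1415664033065882956360583197)) (C.cons (nat_lit 3080) (C.node (nat_lit 1) (nat_lit 7) (nat_lit 8) (C.cons (nat_lit 962) (C.miq (nat_lit 605490057) (nat_lit 1415664033503291805846867713)) (C.cons (nat_lit 930) (C.miq (nat_lit 605490057) (nat_lit 1415664033503291805844770561)) (C.cons (nat_lit 898) (C.miq (nat_lit 605490057)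 (nat_lit 1415664033503291805842673409)) (C.cons (nat_lit 450) (C.miq (nat_lit 940881520) (nat_lit 2807164067701396515882993889)) (C.cons (nat_lit 418) (C.miq (nat_lit 672445808) (nat_lit 2807164067691263279282456801)) (C.cons (nat_lit 386) (C.node (nat_lit 1) (nat_lit 10) (nat_lit 11) (C.cons (nat_lit 3138) (C.node (nat_lit 2) (nat_lit 6) (nat_lit 11) (C.cons (nat_lit 2628) (C.miq (nat_lit 1628027506) (nat_lit 632316682585150273439992964)) (C.cons (nat_lit 2116) (C.node (nat_lit 1) (nat_lit 7) (nat_lit 11) (C.cons (nat_lit 2690)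
  (C.miq (nat_lit 2456514721) (nat_lit 2558136656227669666955396243)) (C.cons (nat_lit 2186) (C.miq (nat_lit 1668397066) (nat_lit 2642769728229268909144084225)) (C.cons (nat_lit 2178) (C.node (nat_lit 1) (nat_lit 6) (nat_lit 7) (C.cons (nat_lit 706) (C.miq (nat_lit 924221611) (nat_lit 853545458222472026696847105)) (C.cons (nat_lit 206) (C.miq (nat_lit 2591099683) (nat_lit 1415661783497040460310775837)) (C.cons (nat_lit 202) (C.node (nat_lit 1) (nat_lit 2) (nat_lit 7) (C.cons (nat_lit 166) (C.miq (nat_lit 2820737879) (nat_lit 317969092777113222612650209)) (C.cons (nat_lit 134) (C.node (nat_lit 1) (nat_lit 3) (nat_lit 8) (C.cons (nat_lit 1290) (C.node (nat_lit 1) (nat_lit 3) (nat_lit 4) (C.cons (nat_lit 58) (C.miq (nat_lit 1518416052) (nat_lit 1559515377513815257843370013)) (C.cons (nat_lit 26) (C.node (nat_lit 2) (nat_lit 3) (nat_lit 8) (C.cons (nat_lit 780) (C.miq (nat_lit 655593640) (nat_lit 244217404204088976210530049)) (C.cons (nat_lit 268) (C.node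 (nat_lit 2) (nat_lit 8) (nat_lit 10) (C.cons (nat_lit 1300) (C.miq (nat_lit 1797785508) (nat_lit 2828892635090791492155081875)) (C.cons (nat_lit 1284) (C.node (nat_lit 3) (nat_lit 7) (nat_lit 10) (C.cons (nat_lit 1672) (C.miq (nat_lit 657525160) (nat_lit 244207867237405020150959873)) (C.cons (nat_lit 1160) (C.node (nat_lit 4) (nat_lit 8) (nat_lit 10) (C.cons (nat_lit 1328) (C.miq (nat_lit 2491483555) (nat_lit 2807135400950232659499025449)) (C.cons (nat_lit 1296) (C.node (nat_lit 5) (nat_lit 7) (nat_lit 10) (C.cons (nat_lit 1696) (C.miq (nat_lit 1521784608) (nat_lit 3733173280070795564263735941)) (C.cons (nat_lit 1440) (C.miq (nat_lit 681882992) (nat_lit 1566806176766658135490496737)) (C.cons (nat_lit 1184) (C.node (nat_lit 7) (nat_lit 8) (nat_lit 10) (C.cons (nat_lit 1472) (C.miq (nat_lit 1130826634) (nat_lit 244224617284099138742390529)) (C.cons (nat_lit 1408) (C.node (nat_lit 1) (nat_lit 4) (nat_lit 5) (C.cons (nat_lit 118) (C.miq (nat_lit 2585004901)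 (nat_lit 1415662484473314977800128737)) (C.cons (nat_lit 114) (C.miq (nat_lit 2585004901) (nat_lit 1415662484473314977799866593)) (C.cons (nat_lit 54) (C.miq (nat_lit 1369973771) (nat_lit 1559557472699208794122553373)) (C.cons (nat_lit 50) (C.node (nat_lit 1) (nat_lit 2) (nat_lit 3) (C.cons (nat_lit 46) (C.node (nat_lit 1) (nat_lit 3) (nat_lit 11) (C.cons (nat_lit 2058) (C.node (nat_lit 1) (nat_lit 2) (nat_lit 11) C.nil) C.nil)) (C.cons (nat_lit 14) (C.node (nat_lit 1) (nat_lit 2) (nat_lit 11) (C.cons (nat_lit 2566) (C.node (nat_lit 1) (nat_lit 3) (nat_lit 11) C.nil) (C.cons (nat_lit 2054) (C.node (nat_lit 2) (nat_lit 9) (nat_lit 11) C.nil) C.nil))) C.nil))) C.nil))))) C.nil))) C.nil)))) C.nil))) C.nil))) C.nil))) C.nil))) C.nil))) (C.cons (nat_lit 298) (C.miq (nat_lit 2704848496) (nat_lit 360330749072415956977387745)) (C.cons (nat_lit 266) (C.miq (nat_lit 2704848496) (nat_lit 321645122844747823386790113)) C.nil)))) C.nil))) (C.cons (nat_lit 198) (C.miq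 (nat_lit 924221611) (nat_lit 239411141858240405946109697)) (C.cons (nat_lit 194) (C.miq (nat_lit 924221611) (nat_lit 234575438579781889247284993)) C.nil)))))) C.nil)))) C.nil))) (C.cons (nat_lit 3074) (C.node (nat_lit 6) (nat_lit 10) (nat_lit 11) (C.cons (nat_lit 3136) (C.node (nat_lit 4) (nat_lit 6) (nat_lit 11) (C.cons (nat_lit 2640) (C.node (nat_lit 2) (nat_lit 9) (nat_lit 11) (C.cons (nat_lit 2566) (C.miq (nat_lit 2516759681) (nat_lit 1321403255927178212600645906)) (C.cons (nat_lit 2564) (C.node (nat_lit 3) (nat_lit 7) (nat_lit 11) (C.cons (nat_lit 2696) (C.miq (nat_lit 2483533443) (nat_lit 1415701867933848870477957448)) (C.cons (nat_lit 2186) (C.miq (nat_lit 943830535) (nat_lit 2807166078396500064892815585)) (C.cons (nat_lit 2184) (C.node (nat_lit 1) (nat_lit 2) (nat_lit 11) (C.cons (nat_lit 2054) (C.node (nat_lit 1) (nat_lit 6) (nat_lit 11) C.nil) C.nil)) C.nil)))) C.nil))) (C.cons (nat_lit 2128) (C.node (nat_lit 4) (nat_lit 9) (nat_lit 11) (C.cons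 (nat_lit 2576) (C.node (nat_lit 1) (nat_lit 3) (nat_lit 11) (C.cons (nat_lit 2186)
  (C.miq (nat_lit 943830535) (nat_lit 2807166078396500064892815585)) (C.cons (nat_lit 2090) (C.node (nat_lit 5) (nat_lit 9) (nat_lit 11) (C.cons (nat_lit 2592) (C.node (nat_lit 1) (nat_lit 7) (nat_lit 11) C.nil) C.nil)) (C.cons (nat_lit 2058) (C.node (nat_lit 1) (nat_lit 5) (nat_lit 11) (C.cons (nat_lit 2594) (C.node (nat_lit 1) (nat_lit 7) (nat_lit 11) C.nil) C.nil)) C.nil)))) C.nil)) C.nil))) C.nil)) C.nil))) C.nil))))))) C.nil))) (C.cons (nat_lit 2312) (C.node (nat_lit 6) (nat_lit 8) (nat_lit 11) (C.cons (nat_lit 2368) (C.node (nat_lit 4) (nat_lit 6) (nat_lit 11) (C.cons (nat_lit 2640) (C.node (nat_lit 2) (nat_lit 9) (nat_lit 11) (C.cons (nat_lit 2566) (C.miq (nat_lit 2516759681) (nat_lit 1321403255927178212600645906)) (C.cons (nat_lit 2564) (C.node (nat_lit 1) (nat_lit 2) (nat_lit 11) (C.cons (nat_lit 2118) (C.node (nat_lit 1) (nat_lit 10) (nat_lit 11) (C.cons (nat_lit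 3082) (C.miq (nat_lit 2443641778) (nat_lit 1415664033065882956360583197)) (C.cons (nat_lit 3074) (C.node (nat_lit 1) (nat_lit 2) (nat_lit 7) (C.cons (nat_lit 174) (C.miq (nat_lit 2820737879) (nat_lit 317969092777113222613174497)) (C.cons (nat_lit 166) (C.miq (nat_lit 2820737879) (nat_lit 317969092777113222612650209)) (C.cons (nat_lit 142) (C.miq (nat_lit 2591099683) (nat_lit 1415661783497040460306581533)) (C.cons (nat_lit 134) (C.node (nat_lit 1) (nat_lit 7) (nat_lit 8) (C.cons (nat_lit 962) (C.miq (nat_lit 1175632256) (nat_lit 2560543200574323757058297601)) (C.cons (nat_lit 930) (C.miq (nat_lit 1098037392) (nat_lit 162034374369390294433337089)) (C.cons (nat_lit 898) (C.miq (nat_lit 1098037392) (nat_lit 162034374369390156994383617)) (C.cons (nat_lit 450) (C.miq (nat_lit 840436583) (nat_lit 317954740713701064199768289)) (C.cons (nat_lit 418) (C.miq (nat_lit 672445808) (nat_lit 2807164067691263279282456801)) (C.cons (nat_lit 386) (C.node (nat_lit 1) (nat_lit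 4) (nat_lit 9) (C.cons (nat_lit 534) (C.node (nat_lit 1) (nat_lit 6) (nat_lit 9) (C.cons (nat_lit 1634) (C.miq (nat_lit 558937748) (nat_lit 42350718170124134539922000)) (C.cons (nat_lit 1602) (C.miq (nat_lit 1444481828) (nat_lit 1936709512285863007776802845)) (C.cons (nat_lit 866) (C.miq (nat_lit 1175632256) (nat_lit 2560543200574323344741437185)) (C.cons (nat_lit 834) (C.miq (nat_lit 1175632256) (nat_lit 2560543200574323207302483713)) (C.cons (nat_lit 706) (C.miq (nat_lit 1444481828) (nat_lit 853511977911155267240069149)) (C.cons (nat_lit 610) (C.miq (nat_lit 558937748) (nat_lit 42350718170119736493410896)) (C.cons (nat_lit 578) (C.miq (nat_lit 1444481828) (nat_lit 698769473000482732877678621)) C.nil)))))))) (C.cons (nat_lit 530) (C.node (nat_lit 1) (nat_lit 2) (nat_lit 4) (C.cons (nat_lit 54) (C.miq (nat_lit 2874411041) (nat_lit 2533930120130728499841728775)) (C.cons (nat_lit 22) (C.node (nat_lit 3) (nat_lit 6) (nat_lit 11) (C.cons (nat_lit 3144) (C.node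 (nat_lit 3) (nat_lit 5) (nat_lit 11) (C.cons (nat_lit 2600) (C.miq (nat_lit 1678424403) (nat_lit 1415710132075194854473796136)) (C.cons (nat_lit 2090) (C.miq (nat_lit 302364323) (nat_lit 44768809617024027569228872)) C.nil))) (C.cons (nat_lit 2120) (C.node (nat_lit 3) (nat_lit 10) (nat_lit 11) (C.cons (nat_lit 3080) (C.node (nat_lit 6) (nat_lit 10) (nat_lit 11) C.nil) C.nil)) C.nil))) C.nil))) C.nil))) C.nil))))))) C.nil))))) C.nil))) (C.cons (nat_lit 2054) (C.node (nat_lit 2) (nat_lit 6) (nat_lit 11) (C.cons (nat_lit 2116) (C.node (nat_lit 1) (nat_lit 4) (nat_lit 9) (C.cons (nat_lit 534) (C.node (nat_lit 2) (nat_lit 4) (nat_lit 8) (C.cons (nat_lit 1300) (C.miq (nat_lit 1797785508) (nat_lit 2828892635090791492155081875)) (C.cons (nat_lit 404) (C.miq (nat_lit 826804519) (nat_lit 2807133002862803617880212101)) (C.cons (nat_lit 276) (C.node (nat_lit 2) (nat_lit 4) (nat_lit 7) (C.cons (nat_lit 212) (C.miq (nat_lit 2722674528) (nat_lit 333734381059471506542758113))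 (C.cons (nat_lit 180) (C.miq (nat_lit 2722740048) (nat_lit 645637242520045696192678113)) (C.cons (nat_lit 148) (C.node (nat_lit 5) (nat_lit 7) (nat_lit 10) (C.cons (nat_lit 1696)
  (C.miq (nat_lit 1411879098) (nat_lit 178952307138830512047787777)) (C.cons (nat_lit 1440) (C.miq (nat_lit 1463978507) (nat_lit 178964187089426594213465857)) (C.cons (nat_lit 1184) (C.node (nat_lit 7) (nat_lit 8) (nat_lit 10) (C.cons (nat_lit 1472) (C.miq (nat_lit 1680310458) (nat_lit 178948175005107606325038849)) (C.cons (nat_lit 1408) (C.node (nat_lit 2) (nat_lit 4) (nat_lit 6) (C.cons (nat_lit 116) (C.node (nat_lit 2) (nat_lit 4) (nat_lit 10) (C.cons (nat_lit 1044) (C.node (nat_lit 4) (nat_lit 9) (nat_lit 10) (C.cons (nat_lit 1560) (C.miq (nat_lit 895787193) (nat_lit 140264172295832583996968705)) (C.cons (nat_lit 1552) (C.node (nat_lit 2) (nat_lit 5) (nat_lit 9) (C.cons (nat_lit 1572) (C.miq (nat_lit 2303986214) (nat_lit 678213602437711944370881605)) (C.cons (nat_lit 556)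 (C.miq (nat_lit 1380595984) (nat_lit 1262138201616613739706122763)) (C.cons (nat_lit 548) (C.node (nat_lit 3) (nat_lit 10) (nat_lit 11) (C.cons (nat_lit 3144) (C.miq (nat_lit 910535568) (nat_lit 140255041742704150467120897)) (C.cons (nat_lit 3082) (C.miq (nat_lit 2443641778) (nat_lit 1415664033065882956360583197)) (C.cons (nat_lit 3080) (C.node (nat_lit 1) (nat_lit 10) (nat_lit 11) (C.cons (nat_lit 3138) (C.node (nat_lit 3) (nat_lit 6) (nat_lit 11) C.nil) C.nil)) C.nil)))) C.nil)))) C.nil))) C.nil)) (C.cons (nat_lit 84) (C.node (nat_lit 2) (nat_lit 4) (nat_lit 5) (C.cons (nat_lit 1076) (C.node (nat_lit 1) (nat_lit 2) (nat_lit 10) (C.cons (nat_lit 1038) (C.node (nat_lit 2) (nat_lit 8) (nat_lit 10) (C.cons (nat_lit 1284) (C.node (nat_lit 2) (nat_lit 9) (nat_lit 10) (C.cons (nat_lit 1540) (C.node (nat_lit 2) (nat_lit 7) (nat_lit 8) C.nil) C.nil)) C.nil)) (C.cons (nat_lit 1030) (C.miq (nat_lit 824838469) (nat_lit 1245213240132720257022558769)) C.nil))) (C.cons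 (nat_lit 52) (C.node (nat_lit 2) (nat_lit 4) (nat_lit 10) (C.cons (nat_lit 1044) (C.node (nat_lit 2) (nat_lit 7) (nat_lit 8) (C.cons (nat_lit 452) (C.node (nat_lit 2) (nat_lit 8) (nat_lit 9) (C.cons (nat_lit 780) (C.miq (nat_lit 2185705744) (nat_lit 178928271092938861133890059)) C.nil)) C.nil)) C.nil)) C.nil))) C.nil))) C.nil))) C.nil)))) C.nil)))) C.nil)))) (C.cons (nat_lit 530) (C.node (nat_lit 1) (nat_lit 2) (nat_lit 4) (C.cons (nat_lit 118) (C.miq (nat_lit 2874411041) (nat_lit 2533930120130728499845923079)) (C.cons (nat_lit 86) (C.miq (nat_lit 2873493522) (nat_lit 3191584327155048944229548295)) (C.cons (nat_lit 54) (C.miq (nat_lit 2874411041) (nat_lit 2533930120130728499841728775)) (C.cons (nat_lit 22) (C.node (nat_lit 2) (nat_lit 4) (nat_lit 6) (C.cons (nat_lit 212) (C.miq (nat_lit 2334526068) (nat_lit 2558093251938467320431903891)) (C.cons (nat_lit 116) (C.node (nat_lit 2) (nat_lit 4) (nat_lit 9) (C.cons (nat_lit 1556) (C.miq (nat_lit 1917172368)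 (nat_lit 140277325426429034463563521)) (C.cons (nat_lit 788) (C.miq (nat_lit 2188088400) (nat_lit 2558157888470345232079192625)) (C.cons (nat_lit 532) (C.node (nat_lit 2) (nat_lit 4) (nat_lit 10) (C.cons (nat_lit 1300) (C.miq (nat_lit 1917237888) (nat_lit 140277325426427934937255681)) (C.cons (nat_lit 1044) (C.node (nat_lit 4) (nat_lit 9) (nat_lit 10) (C.cons (nat_lit 1560) (C.miq (nat_lit 895787193) (nat_lit 140264172295832583996968705)) (C.cons (nat_lit 1552) (C.node (nat_lit 5) (nat_lit 7) (nat_lit 10) (C.cons (nat_lit 1696) (C.miq (nat_lit 1967302923) (nat_lit 140294498920693119783341825)) (C.cons (nat_lit 1440) (C.miq (nat_lit 1948623032) (nat_lit 140261958716379244548853505)) (C.cons (nat_lit 1184) (C.node (nat_lit 7) (nat_lit 8) (nat_lit 10) (C.cons (nat_lit 1472) (C.miq (nat_lit 1984079883) (nat_lit 140294498857641762927480577)) (C.cons (nat_lit 1408) (C.node (nat_lit 3) (nat_lit 10) (nat_lit 11) (C.cons (nat_lit 3144) (C.miq (nat_lit 910535568)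 (nat_lit 140255041742704150467120897)) (C.cons (nat_lit 3082) (C.miq (nat_lit 2443641778) (nat_lit 1415664033065882956360583197)) (C.cons (nat_lit 3080) (C.node (nat_lit 1) (nat_lit 10) (nat_lit 11) (C.cons (nat_lit 3138)
  (C.node (nat_lit 3) (nat_lit 6) (nat_lit 11) C.nil) C.nil)) C.nil)))) C.nil))) C.nil)))) C.nil))) C.nil))) C.nil)))) (C.cons (nat_lit 84) (C.node (nat_lit 4) (nat_lit 6) (nat_lit 7) (C.cons (nat_lit 216) (C.node (nat_lit 4) (nat_lit 7) (nat_lit 9) (C.cons (nat_lit 912) (C.miq (nat_lit 949252278) (nat_lit 1102544332095897891584870625)) (C.cons (nat_lit 656) (C.node (nat_lit 3) (nat_lit 4) (nat_lit 9) (C.cons (nat_lit 1560) (C.miq (nat_lit 1447234458) (nat_lit 261147623459002363288227585)) (C.cons (nat_lit 792) (C.node (nat_lit 3) (nat_lit 4) (nat_lit 10) (C.cons (nat_lit 1048) (C.node (nat_lit 2) (nat_lit 4) (nat_lit 9) (C.cons (nat_lit 1556) (C.miq (nat_lit 1529415588) (nat_lit 3099696150755140938245604499)) (C.cons (nat_lit 532) (C.node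 (nat_lit 4) (nat_lit 9) (nat_lit 10) C.nil) C.nil))) C.nil)) (C.cons (nat_lit 536) (C.miq (nat_lit 2302872423) (nat_lit 647991489965018929769744609)) C.nil)))) C.nil))) (C.cons (nat_lit 208) (C.node (nat_lit 2) (nat_lit 4) (nat_lit 5) (C.cons (nat_lit 1076) (C.node (nat_lit 2) (nat_lit 4) (nat_lit 7) (C.cons (nat_lit 404) (C.miq (nat_lit 891816519) (nat_lit 2828893667768428708274373779)) (C.cons (nat_lit 148) (C.node (nat_lit 5) (nat_lit 7) (nat_lit 10) (C.cons (nat_lit 1696) (C.miq (nat_lit 1411879098) (nat_lit 178952307138830512047787777)) (C.cons (nat_lit 1440) (C.miq (nat_lit 1948623032) (nat_lit 1300830745546423252266782465)) (C.cons (nat_lit 1184) (C.node (nat_lit 7) (nat_lit 8) (nat_lit 10) (C.cons (nat_lit 1472) (C.miq (nat_lit 660912768) (nat_lit 251494885269136110672482049)) (C.cons (nat_lit 1408) (C.node (nat_lit 2) (nat_lit 4) (nat_lit 8) (C.cons (nat_lit 788) (C.node (nat_lit 2) (nat_lit 7) (nat_lit 8) (C.cons (nat_lit 452) (C.miq (nat_lit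 1418070311) (nat_lit 407449930817320420085334661)) (C.cons (nat_lit 388) (C.node (nat_lit 2) (nat_lit 8) (nat_lit 10) (C.cons (nat_lit 1292) (C.miq (nat_lit 843425936) (nat_lit 1300823828051448547037482753)) (C.cons (nat_lit 1284) (C.node (nat_lit 2) (nat_lit 3) (nat_lit 8) (C.cons (nat_lit 332) (C.node (nat_lit 2) (nat_lit 6) (nat_lit 7) C.nil) C.nil)) C.nil))) C.nil))) (C.cons (nat_lit 276) (C.node (nat_lit 2) (nat_lit 4) (nat_lit 9) (C.cons (nat_lit 532) (C.node (nat_lit 2) (nat_lit 7) (nat_lit 8) C.nil) C.nil)) C.nil))) C.nil))) C.nil)))) C.nil))) (C.cons (nat_lit 180) (C.miq (nat_lit 2602895988) (nat_lit 2828896767602816766503552147)) (C.cons (nat_lit 52) (C.node (nat_lit 2) (nat_lit 4) (nat_lit 10) (C.cons (nat_lit 1556) (C.miq (nat_lit 1917172368) (nat_lit 62906072971092767282368257)) (C.cons (nat_lit 1300) (C.miq (nat_lit 1917237888) (nat_lit 101591699198759801346658049)) (C.cons (nat_lit 1044) (C.node (nat_lit 5) (nat_lit 7) (nat_lit 10) (C.cons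 (nat_lit 1696) (C.miq (nat_lit 1967302923) (nat_lit 62923246465356852602146561)) (C.cons (nat_lit 1440) (C.miq (nat_lit 1948623032) (nat_lit 62890706261042977367658241)) (C.cons (nat_lit 1184) (C.node (nat_lit 7) (nat_lit 8) (nat_lit 10) (C.cons (nat_lit 1472) (C.miq (nat_lit 660912768) (nat_lit 251494885269136110672482049)) (C.cons (nat_lit 1408) (C.node (nat_lit 2) (nat_lit 4) (nat_lit 7) (C.cons (nat_lit 404) (C.node (nat_lit 2) (nat_lit 4) (nat_lit 9) (C.cons (nat_lit 532) (C.node (nat_lit 2) (nat_lit 8) (nat_lit 10) C.nil) C.nil)) (C.cons (nat_lit 148) (C.node (nat_lit 2) (nat_lit 4) (nat_lit 8) (C.cons (nat_lit 788) (C.node (nat_lit 2) (nat_lit 7) (nat_lit 8) C.nil) (C.cons (nat_lit 276) (C.node (nat_lit 2) (nat_lit 4) (nat_lit 9) C.nil) C.nil))) C.nil))) C.nil))) C.nil)))) C.nil)))) C.nil)))) C.nil))) C.nil)))) C.nil))))) C.nil))) C.nil)) C.nil))) C.nil))) (C.cons (nat_lit 2128) (C.node (nat_lit 4) (nat_lit 9) (nat_lit 11) (C.cons (nat_lit 2576)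 (C.node (nat_lit 2) (nat_lit 8) (nat_lit 10) (C.cons (nat_lit 1300) (C.miq (nat_lit 1797785508) (nat_lit 2828892635090791492155081875)) (C.cons (nat_lit 1292) (C.node (nat_lit 5) (nat_lit 7) (nat_lit 10) (C.cons (nat_lit 1696) (C.miq (nat_lit 1521784608) (nat_lit 3733173280070795564263735941)) (C.cons (nat_lit 1440)
  (C.miq (nat_lit 1116343127) (nat_lit 1561953760664044784551200993)) (C.cons (nat_lit 1184) (C.node (nat_lit 7) (nat_lit 8) (nat_lit 10) (C.cons (nat_lit 1472) (C.miq (nat_lit 1118309238) (nat_lit 1561938376079491021638994145)) (C.cons (nat_lit 1408) (C.node (nat_lit 1) (nat_lit 8) (nat_lit 10) (C.cons (nat_lit 1378) (C.miq (nat_lit 1756537152) (nat_lit 2828906580577387324309832851)) (C.cons (nat_lit 1346) (C.miq (nat_lit 1756537152) (nat_lit 2828906580568380125055091859)) (C.cons (nat_lit 1314) (C.miq (nat_lit 1488167232) (nat_lit 2795056141101329245041132691)) (C.cons (nat_lit 1282) (C.node (nat_lit 6) (nat_lit 8) (nat_lit 10) (C.cons (nat_lit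 1376) (C.miq (nat_lit 1480288800) (nat_lit 2795078424785617310919230533)) (C.cons (nat_lit 1344) (C.node (nat_lit 2) (nat_lit 5) (nat_lit 7) (C.cons (nat_lit 180) (C.miq (nat_lit 1250062517) (nat_lit 1561935479685657856290588897)) (C.cons (nat_lit 174) (C.miq (nat_lit 2820737879) (nat_lit 317969092777113222613174497)) (C.cons (nat_lit 172) (C.miq (nat_lit 2723906416) (nat_lit 2828957272205885795993715081)) (C.cons (nat_lit 166) (C.miq (nat_lit 2820737879) (nat_lit 317969092777113222612650209)) (C.cons (nat_lit 164) (C.node (nat_lit 2) (nat_lit 3) (nat_lit 7) (C.cons (nat_lit 206) (C.miq (nat_lit 2591099683) (nat_lit 1415661783497040460310775837)) (C.cons (nat_lit 204) (C.miq (nat_lit 3123054647) (nat_lit 1321397851369220164421419401)) (C.cons (nat_lit 142) (C.miq (nat_lit 2591099683) (nat_lit 1415661783497040460306581533)) (C.cons (nat_lit 140) (C.node (nat_lit 1) (nat_lit 2) (nat_lit 7) (C.cons (nat_lit 198) (C.node (nat_lit 2) (nat_lit 6) (nat_lit 8)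 (C.cons (nat_lit 836) (C.miq (nat_lit 445018258) (nat_lit 1624799954347011900048671365)) (C.cons (nat_lit 324) (C.node (nat_lit 2) (nat_lit 6) (nat_lit 11) (C.cons (nat_lit 2628) (C.miq (nat_lit 2417408626) (nat_lit 81046509038756278372273284)) (C.cons (nat_lit 2116) (C.node (nat_lit 2) (nat_lit 8) (nat_lit 9) (C.cons (nat_lit 788) (C.miq (nat_lit 1394870921) (nat_lit 2510949276262786546269425409)) (C.cons (nat_lit 772) (C.node (nat_lit 1) (nat_lit 7) (nat_lit 8) (C.cons (nat_lit 930) (C.miq (nat_lit 1098037392) (nat_lit 239405626824726561614532353)) (C.cons (nat_lit 898) (C.miq (nat_lit 1098037392) (nat_lit 239405626824726424175578881)) (C.cons (nat_lit 418) (C.miq (nat_lit 672445808) (nat_lit 2807164067691263279282456801)) C.nil)))) C.nil))) C.nil))) C.nil))) (C.cons (nat_lit 134) (C.node (nat_lit 2) (nat_lit 6) (nat_lit 7) (C.cons (nat_lit 452) (C.miq (nat_lit 1445595011) (nat_lit 1321375567261022752099533193)) (C.cons (nat_lit 212) (C.miq (nat_lit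 1218601143) (nat_lit 1561936069746718084476176609)) (C.cons (nat_lit 196) (C.node (nat_lit 2) (nat_lit 4) (nat_lit 7) (C.cons (nat_lit 404) (C.node (nat_lit 2) (nat_lit 4) (nat_lit 10) (C.cons (nat_lit 1556) (C.miq (nat_lit 1461980073) (nat_lit 488416380387541920880267009)) (C.cons (nat_lit 1076) (C.miq (nat_lit 1384359024) (nat_lit 1561951805027408204526060691)) (C.cons (nat_lit 1044) (C.node (nat_lit 1) (nat_lit 2) (nat_lit 4) (C.cons (nat_lit 598) (C.miq (nat_lit 1786847412) (nat_lit 1549853932206579326951491613)) (C.cons (nat_lit 534) (C.miq (nat_lit 2474774644) (nat_lit 1561942009650649355389240467)) (C.cons (nat_lit 118) (C.miq (nat_lit 1786847412) (nat_lit 1549845077769423946366715933)) (C.cons (nat_lit 86) (C.miq (nat_lit 1786847412) (nat_lit 1549844487473613587661064221)) (C.cons (nat_lit 54) (C.miq (nat_lit 1369973771) (nat_lit 1549886066142291760724903965)) (C.cons (nat_lit 22) (C.node (nat_lit 1) (nat_lit 4) (nat_lit 9) (C.cons (nat_lit 594)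 (C.node (nat_lit 2) (nat_lit 4) (nat_lit 9) (C.cons (nat_lit 532) (C.node (nat_lit 1) (nat_lit 3) (nat_lit 4) (C.cons (nat_lit 58) (C.miq (nat_lit 1518416052) (nat_lit 1549843970956898224445720605)) (C.cons (nat_lit 26) (C.node (nat_lit 1) (nat_lit 4) (nat_lit 5) (C.cons (nat_lit 50) (C.node (nat_lit 2) (nat_lit 4) (nat_lit 5) (C.cons (nat_lit 52) (C.node (nat_lit 2) (nat_lit 4) (nat_lit 6) C.nil) C.nil)) C.nil)) C.nil))) C.nil))
  (C.cons (nat_lit 530) (C.node (nat_lit 2) (nat_lit 4) (nat_lit 5) (C.cons (nat_lit 116) (C.node (nat_lit 2) (nat_lit 4) (nat_lit 9) (C.cons (nat_lit 532) (C.node (nat_lit 1) (nat_lit 4) (nat_lit 5) (C.cons (nat_lit 58) (C.miq (nat_lit 1518416052) (nat_lit 1549843970956898224445720605)) (C.cons (nat_lit 50) (C.node (nat_lit 1) (nat_lit 3) (nat_lit 4) (C.cons (nat_lit 26) (C.node (nat_lit 1) (nat_lit 5) (nat_lit 11) C.nil) C.nil)) C.nil))) C.nil)) (C.cons (nat_lit 52) (C.node (nat_lit 2) (nat_lit 4) (nat_lit 6) (C.cons (nat_lit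 596) (C.node (nat_lit 2) (nat_lit 6) (nat_lit 8) (C.cons (nat_lit 324) (C.node (nat_lit 2) (nat_lit 8) (nat_lit 9) C.nil) C.nil)) (C.cons (nat_lit 84) (C.node (nat_lit 2) (nat_lit 4) (nat_lit 9) (C.cons (nat_lit 532) (C.node (nat_lit 4) (nat_lit 5) (nat_lit 7) C.nil) C.nil)) C.nil))) C.nil))) C.nil))) C.nil))))))) C.nil)))) (C.cons (nat_lit 148) (C.node (nat_lit 2) (nat_lit 7) (nat_lit 8) (C.cons (nat_lit 388) (C.node (nat_lit 2) (nat_lit 4) (nat_lit 8) (C.cons (nat_lit 788) (C.miq (nat_lit 1394870921) (nat_lit 2510949276262786546269425409)) (C.cons (nat_lit 276) (C.node (nat_lit 2) (nat_lit 6) (nat_lit 8) (C.cons (nat_lit 836) (C.node (nat_lit 2) (nat_lit 6) (nat_lit 11) (C.cons (nat_lit 2118) (C.node (nat_lit 2) (nat_lit 9) (nat_lit 11) C.nil) C.nil)) (C.cons (nat_lit 324) (C.node (nat_lit 2) (nat_lit 8) (nat_lit 9) C.nil) C.nil))) C.nil))) C.nil)) C.nil))) C.nil)))) C.nil))) C.nil))))) C.nil)))))) C.nil))) C.nil))))) C.nil))) C.nil)))) (C.cons (nat_lit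 1284) (C.node (nat_lit 5) (nat_lit 7) (nat_lit 10) (C.cons (nat_lit 1696) (C.miq (nat_lit 1521784608) (nat_lit 3733173280070795564263735941)) (C.cons (nat_lit 1440) (C.miq (nat_lit 1116343127) (nat_lit 1552282354107127751153551585)) (C.cons (nat_lit 1184) (C.node (nat_lit 7) (nat_lit 8) (nat_lit 10) (C.cons (nat_lit 1472) (C.miq (nat_lit 1118309238) (nat_lit 1552266969522573988241344737)) (C.cons (nat_lit 1408) (C.node (nat_lit 2) (nat_lit 4) (nat_lit 10) (C.cons (nat_lit 1556) (C.miq (nat_lit 2507817138) (nat_lit 1431396873715416859519748125)) (C.cons (nat_lit 1076) (C.node (nat_lit 2) (nat_lit 4) (nat_lit 7) (C.cons (nat_lit 404) (C.miq (nat_lit 891816519) (nat_lit 2828893667768428708274373779)) (C.cons (nat_lit 212) (C.miq (nat_lit 2317618038) (nat_lit 1300810399539252978737481953)) (C.cons (nat_lit 148) (C.node (nat_lit 2) (nat_lit 4) (nat_lit 8) (C.cons (nat_lit 788) (C.node (nat_lit 1) (nat_lit 2) (nat_lit 4) (C.cons (nat_lit 86) (C.miq (nat_lit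 2873493522) (nat_lit 2572614307512358806779986183)) (C.cons (nat_lit 22) (C.node (nat_lit 2) (nat_lit 4) (nat_lit 6) (C.cons (nat_lit 84) (C.node (nat_lit 2) (nat_lit 7) (nat_lit 8) (C.cons (nat_lit 452) (C.miq (nat_lit 1418070311) (nat_lit 407449930817320420085334661)) (C.cons (nat_lit 388) (C.node (nat_lit 7) (nat_lit 8) (nat_lit 9) (C.cons (nat_lit 962) (C.miq (nat_lit 605490057) (nat_lit 1415664033503291805846867713)) (C.cons (nat_lit 960) (C.miq (nat_lit 1749776672) (nat_lit 2807167682864667847691141765)) (C.cons (nat_lit 930) (C.miq (nat_lit 605490057) (nat_lit 1415664033503291805844770561)) (C.cons (nat_lit 928) (C.miq (nat_lit 1481341216) (nat_lit 2807167682855660648436400773)) (C.cons (nat_lit 898) (C.miq (nat_lit 605490057) (nat_lit 1415664033503291805842673409)) (C.cons (nat_lit 896) (C.node (nat_lit 1) (nat_lit 4) (nat_lit 9) (C.cons (nat_lit 594) (C.node (nat_lit 6) (nat_lit 8) (nat_lit 9) (C.cons (nat_lit 872) (C.miq (nat_lit 1747671360)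 (nat_lit 2828928347592961374885315121)) (C.cons (nat_lit 864) (C.miq (nat_lit 1747671360) (nat_lit 2828928347590709575071629873)) (C.cons (nat_lit 840) (C.miq (nat_lit 1938884708) (nat_lit 632289804906384645915017553)) (C.cons (nat_lit 832) (C.node (nat_lit 1) (nat_lit 3) (nat_lit 4) (C.cons (nat_lit 58) (C.node (nat_lit 5) (nat_lit 8) (nat_lit 10) (C.cons (nat_lit 1378) (C.miq (nat_lit 605424522) (nat_lit 718122099726995793947791105)) (C.cons (nat_lit 1376) (C.miq (nat_lit 363348747) (nat_lit 1663524761145799021015664669)) (C.cons (nat_lit 1314)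
  (C.miq (nat_lit 622114976) (nat_lit 70156012083746676038373121)) (C.cons (nat_lit 1312) (C.miq (nat_lit 363348747) (nat_lit 1586153508690462753834469405)) C.nil))))) (C.cons (nat_lit 26) (C.node (nat_lit 1) (nat_lit 4) (nat_lit 5) (C.cons (nat_lit 50) (C.node (nat_lit 1) (nat_lit 8) (nat_lit 9) C.nil) C.nil)) C.nil))) C.nil))))) (C.cons (nat_lit 530) (C.node (nat_lit 2) (nat_lit 3) (nat_lit 8) (C.cons (nat_lit 332) (C.node (nat_lit 6) (nat_lit 7) (nat_lit 8) (C.cons (nat_lit 450) (C.miq (nat_lit 371488816) (nat_lit 101571370111604330145317257)) (C.cons (nat_lit 448) (C.node (nat_lit 4) (nat_lit 7) (nat_lit 8) (C.cons (nat_lit 432) (C.node (nat_lit 3) (nat_lit 4) (nat_lit 8) C.nil) C.nil)) C.nil))) (C.cons (nat_lit 268) (C.node (nat_lit 2) (nat_lit 6) (nat_lit 8) (C.cons (nat_lit 324) (C.node (nat_lit 1) (nat_lit 2) (nat_lit 11) (C.cons (nat_lit 2630) (C.node (nat_lit 1) (nat_lit 5) (nat_lit 11) C.nil) C.nil)) C.nil)) C.nil))) C.nil))) C.nil))))))) C.nil)))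 C.nil)) C.nil))) (C.cons (nat_lit 276) (C.node (nat_lit 2) (nat_lit 7) (nat_lit 8) (C.cons (nat_lit 452) (C.node (nat_lit 1) (nat_lit 2) (nat_lit 7) (C.cons (nat_lit 174) (C.miq (nat_lit 2820737879) (nat_lit 317969092777113222613174497)) (C.cons (nat_lit 166) (C.miq (nat_lit 2820737879) (nat_lit 317969092777113222612650209)) (C.cons (nat_lit 142) (C.miq (nat_lit 2591099683) (nat_lit 1415661783497040460306581533)) (C.cons (nat_lit 134) (C.node (nat_lit 1) (nat_lit 7) (nat_lit 8) (C.cons (nat_lit 930) (C.miq (nat_lit 1098037392) (nat_lit 162034374369390294433337089)) (C.cons (nat_lit 898) (C.miq (nat_lit 1098037392) (nat_lit 162034374369390156994383617)) (C.cons (nat_lit 418) (C.miq (nat_lit 672445808) (nat_lit 2807164067691263279282456801)) (C.cons (nat_lit 386) (C.node (nat_lit 2) (nat_lit 3) (nat_lit 7) (C.cons (nat_lit 172) (C.node (nat_lit 2) (nat_lit 3) (nat_lit 8) (C.cons (nat_lit 780) (C.miq (nat_lit 1535340690) (nat_lit 2795039668428812449047380613))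 (C.cons (nat_lit 268) (C.node (nat_lit 2) (nat_lit 8) (nat_lit 9) (C.cons (nat_lit 772) (C.node (nat_lit 3) (nat_lit 5) (nat_lit 11) (C.cons (nat_lit 2600) (C.miq (nat_lit 324143544) (nat_lit 207940092614630183549538049)) (C.cons (nat_lit 2090) (C.node (nat_lit 5) (nat_lit 9) (nat_lit 11) C.nil) C.nil))) C.nil)) C.nil))) (C.cons (nat_lit 140) (C.node (nat_lit 2) (nat_lit 5) (nat_lit 7) (C.cons (nat_lit 164) (C.node (nat_lit 2) (nat_lit 3) (nat_lit 8) (C.cons (nat_lit 780) (C.node (nat_lit 2) (nat_lit 3) (nat_lit 10) (C.cons (nat_lit 1038) (C.miq (nat_lit 1379486224) (nat_lit 942972488225707640480269459)) (C.cons (nat_lit 1036) (C.node (nat_lit 1) (nat_lit 2) (nat_lit 10) (C.cons (nat_lit 1542) (C.miq (nat_lit 305637760) (nat_lit 169271216317396162531888897)) (C.cons (nat_lit 1030) (C.node (nat_lit 1) (nat_lit 2) (nat_lit 11) (C.cons (nat_lit 2630) (C.miq (nat_lit 1647819136) (nat_lit 169291544935610165118963457)) C.nil)) C.nil))) C.nil))) (C.cons (nat_lit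 268) (C.node (nat_lit 2) (nat_lit 8) (nat_lit 9) (C.cons (nat_lit 772) (C.node (nat_lit 1) (nat_lit 5) (nat_lit 11) C.nil) C.nil)) C.nil))) C.nil)) C.nil))) C.nil))))) C.nil))))) (C.cons (nat_lit 388) (C.node (nat_lit 4) (nat_lit 8) (nat_lit 10) (C.cons (nat_lit 1304) (C.node (nat_lit 1) (nat_lit 8) (nat_lit 10) (C.cons (nat_lit 1378) (C.miq (nat_lit 338010296) (nat_lit 1300829601848290682274582273)) (C.cons (nat_lit 1346) (C.miq (nat_lit 1756537152) (nat_lit 2828906580568380125055091859)) (C.cons (nat_lit 1314) (C.miq (nat_lit 338010296) (nat_lit 1300828421256669964863278849)) (C.cons (nat_lit 1282) (C.node (nat_lit 5) (nat_lit 8) (nat_lit 10) (C.cons (nat_lit 1376) (C.miq (nat_lit 1749768752) (nat_lit 2807167682981763654205899817)) (C.cons (nat_lit 1312) (C.node (nat_lit 6) (nat_lit 8) (nat_lit 10) (C.cons (nat_lit 1344) (C.node (nat_lit 4) (nat_lit 5) (nat_lit 8) C.nil) C.nil)) C.nil))) C.nil))))) (C.cons (nat_lit 1296) (C.node (nat_lit 1) (nat_lit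 2) (nat_lit 4) (C.cons (nat_lit 598) (C.miq (nat_lit 2873493522) (nat_lit 2572614307512358806813540615))
  (C.cons (nat_lit 534) (C.node (nat_lit 2) (nat_lit 4) (nat_lit 6) (C.cons (nat_lit 84) (C.node (nat_lit 1) (nat_lit 2) (nat_lit 10) (C.cons (nat_lit 1038) (C.node (nat_lit 2) (nat_lit 9) (nat_lit 10) (C.cons (nat_lit 1540) (C.node (nat_lit 2) (nat_lit 5) (nat_lit 7) (C.cons (nat_lit 172) (C.miq (nat_lit 2471628964) (nat_lit 207945091682267565980386451)) (C.cons (nat_lit 166) (C.miq (nat_lit 2182788464) (nat_lit 1254935855362624360277018849)) (C.cons (nat_lit 164) (C.node (nat_lit 1) (nat_lit 2) (nat_lit 11) (C.cons (nat_lit 2054) (C.node (nat_lit 1) (nat_lit 2) (nat_lit 5) C.nil) C.nil)) C.nil)))) C.nil)) (C.cons (nat_lit 1030) (C.miq (nat_lit 824838469) (nat_lit 1245213240132720257022558769)) C.nil))) C.nil)) (C.cons (nat_lit 86) (C.miq (nat_lit 2873493522) (nat_lit 2572614307512358806779986183)) (C.cons (nat_lit 22) (C.node (nat_lit 1) (nat_lit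 4) (nat_lit 9) (C.cons (nat_lit 594) (C.node (nat_lit 2) (nat_lit 4) (nat_lit 6) (C.cons (nat_lit 84) (C.node (nat_lit 2) (nat_lit 4) (nat_lit 9) (C.cons (nat_lit 532) (C.node (nat_lit 1) (nat_lit 3) (nat_lit 4) (C.cons (nat_lit 26) (C.node (nat_lit 1) (nat_lit 4) (nat_lit 5) C.nil) C.nil)) C.nil)) C.nil)) (C.cons (nat_lit 530) (C.node (nat_lit 2) (nat_lit 4) (nat_lit 6) (C.cons (nat_lit 596) (C.node (nat_lit 2) (nat_lit 6) (nat_lit 8) (C.cons (nat_lit 332) (C.node (nat_lit 3) (nat_lit 4) (nat_lit 8) C.nil) (C.cons (nat_lit 324) (C.node (nat_lit 3) (nat_lit 4) (nat_lit 8) C.nil) C.nil))) (C.cons (nat_lit 84) (C.node (nat_lit 2) (nat_lit 4) (nat_lit 9) (C.cons (nat_lit 532) (C.node (nat_lit 1) (nat_lit 10) (nat_lit 11) (C.cons (nat_lit 3146) (C.miq (nat_lit 2443641778) (nat_lit 1415664033065883231238490141)) (C.cons (nat_lit 3138) (C.node (nat_lit 3) (nat_lit 10) (nat_lit 11) C.nil) (C.cons (nat_lit 3082) (C.miq (nat_lit 2443641778) (nat_lit 1415664033065882956360583197))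 C.nil)))) C.nil)) C.nil))) C.nil))) C.nil))))) C.nil))) C.nil))) C.nil))) C.nil)))) (C.cons (nat_lit 1044) (C.node (nat_lit 1) (nat_lit 10) (nat_lit 11) (C.cons (nat_lit 3146) (C.miq (nat_lit 2443641778) (nat_lit 1415664033065883231238490141)) (C.cons (nat_lit 3138) (C.node (nat_lit 3) (nat_lit 10) (nat_lit 11) (C.cons (nat_lit 3080) (C.node (nat_lit 2) (nat_lit 6) (nat_lit 11) (C.cons (nat_lit 2628) (C.miq (nat_lit 1628027506) (nat_lit 632316682585150273439992964)) (C.cons (nat_lit 2116) (C.node (nat_lit 1) (nat_lit 2) (nat_lit 11) (C.cons (nat_lit 2566) (C.node (nat_lit 1) (nat_lit 5) (nat_lit 11) C.nil) C.nil)) C.nil))) C.nil)) (C.cons (nat_lit 3082) (C.miq (nat_lit 2443641778) (nat_lit 1415664033065882956360583197)) (C.cons (nat_lit 3074) (C.node (nat_lit 3) (nat_lit 10) (nat_lit 11) (C.cons (nat_lit 3144) (C.node (nat_lit 6) (nat_lit 7) (nat_lit 10) (C.cons (nat_lit 1728) (C.miq (nat_lit 915454578) (nat_lit 697588512690046877068233860)) (C.cons (nat_lit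 1216) (C.node (nat_lit 3) (nat_lit 7) (nat_lit 10) (C.cons (nat_lit 1672) (C.node (nat_lit 1) (nat_lit 8) (nat_lit 10) (C.cons (nat_lit 1378) (C.miq (nat_lit 1756537152) (nat_lit 2828906580577387324309832851)) (C.cons (nat_lit 1346) (C.miq (nat_lit 1756537152) (nat_lit 2828906580568380125055091859)) (C.cons (nat_lit 1314) (C.miq (nat_lit 1488167232) (nat_lit 2795056141101329245041132691)) (C.cons (nat_lit 1290) (C.miq (nat_lit 2055377680) (nat_lit 1552272651005743104568787467)) (C.cons (nat_lit 1282) (C.node (nat_lit 1) (nat_lit 3) (nat_lit 10) (C.cons (nat_lit 1038) (C.node (nat_lit 1) (nat_lit 5) (nat_lit 10) (C.cons (nat_lit 1634) (C.miq (nat_lit 1135151973) (nat_lit 2021334319603722361279482081)) (C.cons (nat_lit 1570) (C.miq (nat_lit 1512345904) (nat_lit 1262128904743018381199606283)) (C.cons (nat_lit 1122) (C.miq (nat_lit 542194538) (nat_lit 42331551991493820791524424)) C.nil)))) (C.cons (nat_lit 1034) (C.node (nat_lit 2) (nat_lit 3) (nat_lit 10)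 C.nil) C.nil))) C.nil)))))) (C.cons (nat_lit 1160) (C.node (nat_lit 7) (nat_lit 9) (nat_lit 10) (C.cons (nat_lit 1664) (C.node (nat_lit 2) (nat_lit 3) (nat_lit 10) (C.cons (nat_lit 1548)
  (C.miq (nat_lit 1788326688) (nat_lit 2011694494172986463951849501)) (C.cons (nat_lit 1038) (C.node (nat_lit 2) (nat_lit 5) (nat_lit 10) C.nil) (C.cons (nat_lit 1036) (C.node (nat_lit 1) (nat_lit 3) (nat_lit 10) C.nil) C.nil)))) C.nil)) C.nil))) C.nil))) (C.cons (nat_lit 3080) (C.node (nat_lit 6) (nat_lit 10) (nat_lit 11) C.nil) C.nil))) C.nil))))) C.nil)))) C.nil))) C.nil)))) C.nil)))) C.nil)) C.nil))) C.nil)) C.nil))) (C.cons (nat_lit 2320) (C.ref (nat_lit 302) (nat_lit 205163983024656)) C.nil))) C.nil))) List.nil)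

theorem ok12_303 : okL par12 (nat_lit 304) c12_303 (nat_lit 303) = true := by decide +kernel


end Pool.Agent.MP_1f1ca1_co

end
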