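import Mathlib

section

/-! Melchior's inequality for rank three vector configurations, by counting sign vectors. -/

set_option autoImplicit false

namespace Pool.Agent.MP_1f1ca1_co
open Finset

abbrev V3 := Fin 3 → ℝ

def dot (u w : V3) : ℝ := u 0 * w 0 + u 1 * w 1 + u 2 * w 2
def det3 (a b c : V3) : ℝ :=
  a 0 * (b 1 * c 2 - b 2 * c 1) - a 1 * (b 0 * c 2 - b 2 * c 0) + a 2 * (b 0 * c 1 - b 1 * c 0)
def crs (a b : V3) : V3 := ![a 1 * b 2 - a 2 * b 1, a 2 * b 0 - a 0 * b 2, a 0 * b 1 - a 1 * b 0]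

lemma dot_add_smul (u φ ψ : V3) (t : ℝ) : dot u (φ + t • ψ) = dot u φ + t * dot u ψ := by
  simp [dot]; ring

lemma dot_comb (u φ ψ : V3) (s t : ℝ) : dot u (s • φ + t • ψ) = s * dot u φ + t * dot u ψ := by
  simp [dot]; ring

lemma dot_comb' (u w φ : V3) (s t : ℝ) : dot (s • u + t • w) φ = s * dot u φ + t * dot w φ := by
  simp [dot]; ring

lemma dot_neg (u φ : V3) : dot u (-φ) = - dot u φ := by
  simp [dot]; ring

lemma dot_zero (u : V3) : dot u 0 = 0 := by simp [dot]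

lemma dot_crs (a b c : V3) : dot c (crs a b) = det3 a b c := by
  simp [dot, crs, det3]; ring

lemma det3_aab (a b : V3) : det3 a a b = 0 := by simp [det3]; ring
lemma det3_aba (a b : V3) : det3 a b a = 0 := by simp [det3]; ring
lemma det3_abb (a b : V3) : det3 a b b = 0 := by simp [det3]; ring
lemma det3_swap12 (a b c : V3) : det3 b a c = - det3 a b c := by simp [det3]; ring
lemma det3_swap23 (a b c : V3) : det3 a c b = - det3 a b c := by simp [det3]; ring
lemma det3_rot (a b c : V3) : det3 b c a = det3 a b c := by simp [det3]; ring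

lemma dot_self_pos {u : V3} (h : u ≠ 0) : 0 < dot u u := by
  by_contra hc
  apply h
  have h0 : u 0 = 0 := by unfold dot at hc; nlinarith [sq_nonneg (u 0), sq_nonneg (u 1), sq_nonneg (u 2)]
  have h1 : u 1 = 0 := by unfold dot at hc; nlinarith [sq_nonneg (u 0), sq_nonneg (u 1), sq_nonneg (u 2)]
  have h2 : u 2 = 0 := by unfold dot at hc; nlinarith [sq_nonneg (u 0), sq_nonneg (u 1), sq_nonneg (u 2)]
  ext i; fin_cases i <;> simp [h0, h1, h2]

/-- a vector orthogonal to `a` and `b` is parallel to their cross product -/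
lemma key_id (a b c φ : V3) (ha : dot a φ = 0) (hb : dot b φ = 0) :
    dot (crs a b) (crs a b) * dot c φ = dot φ (crs a b) * det3 a b c := by
  simp only [dot, crs, det3] at *
  simp only [Matrix.cons_val_zero, Matrix.cons_val_one, Matrix.cons_val]
  linear_combination
    (((a 2 * b 0 - a 0 * b 2) * c 2 - (a 0 * b 1 - a 1 * b 0) * c 1) * b 0 +
      ((a 0 * b 1 - a 1 * b 0) * c 0 - (a 1 * b 2 - a 2 * b 1) * c 2) * b 1 +
      ((a 1 * b 2 - a 2 * b 1) * c 1 - (a 2 * b 0 - a 0 * b 2) * c 0) * b 2) * ha -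
    (((a 2 * b 0 - a 0 * b 2) * c 2 - (a 0 * b 1 - a 1 * b 0) * c 1) * a 0 +
      ((a 0 * b 1 - a 1 * b 0) * c 0 - (a 1 * b 2 - a 2 * b 1) * c 2) * a 1 +
      ((a 1 * b 2 - a 2 * b 1) * c 1 - (a 2 * b 0 - a 0 * b 2) * c 0) * a 2) * hb

lemma crs_ne_of_det {a b c : V3} (h : det3 a b c ≠ 0) : crs a b ≠ 0 := by
  intro h0; apply h; rw [← dot_crs, h0, dot_zero]

lemma perturb (F : Finset V3) (φ ψ : V3) (h : ∀ u ∈ F, dot u φ ≠ 0) :
    ∃ ε : ℝ, 0 < ε ∧ ∀ t : ℝ, |t| ≤ ε → ∀ u ∈ F, 0 < dot u φ * dot u (φ + t • ψ) := by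
  have h1 : ∀ u ∈ F, ∀ᶠ t in nhds (0 : ℝ), 0 < dot u φ * dot u (φ + t • ψ) := by
    intro u hu
    have hc : Continuous fun t : ℝ => dot u φ * dot u (φ + t • ψ) := by
      simp only [dot_add_smul]; fun_prop
    have h0 : 0 < dot u φ * dot u (φ + (0 : ℝ) • ψ) := by
      rw [dot_add_smul]; have := mul_self_pos.2 (h u hu); simpa using this
    exact hc.continuousAt.eventually (lt_mem_nhds h0)
  have h2 := (Filter.eventually_all_finset F).2 h1
  obtain ⟨ε, hε, h3⟩ := Metric.eventually_nhds_iff.1 h2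
  refine ⟨ε / 2, by linarith, fun t ht u hu => h3 (y := t) ?_ u hu⟩
  rw [Real.dist_eq, sub_zero]; linarith

lemma generic (F G : Finset V3) (φ : V3) (h : ∀ u ∈ F, dot u φ ≠ 0) (hG : ∀ g ∈ G, g ≠ 0) :
    ∃ φ', (∀ u ∈ F, 0 < dot u φ * dot u φ') ∧ ∀ g ∈ G, dot g φ' ≠ 0 := by
  classical
  induction G using Finset.induction_on with
  | empty => exact ⟨φ, fun u hu => mul_self_pos.2 (h u hu), by simp⟩
  | insert g G hg ih =>
    obtain ⟨φ', h1, h2⟩ := ih (fun x hx => hG x (mem_insert_of_mem hx))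
    by_cases h0 : dot g φ' = 0
    · obtain ⟨ε, hε, h3⟩ := perturb (F ∪ G) φ' g (by
        intro u hu
        rcases mem_union.1 hu with hu | hu
        · intro h0; have := h1 u hu; rw [h0] at this; simp at this
        · exact h2 u hu)
      have h4 := h3 ε (by rw [abs_of_pos hε])
      refine ⟨φ' + ε • g, fun u hu => ?_, fun x hx => ?_⟩
      · have a1 := h1 u hu
        have a2 := h4 u (mem_union_left _ hu)
        rcases lt_trichotomy (dot u φ') 0 with c | c | c
        · have b1 : dot u φ < 0 := by nlinarith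
          have b2 : dot u (φ' + ε • g) < 0 := by nlinarith
          nlinarith
        · rw [c] at a1; simp at a1
        · have b1 : 0 < dot u φ := by nlinarith
          have b2 : 0 < dot u (φ' + ε • g) := by nlinarith
          nlinarith
      · rcases mem_insert.1 hx with rfl | hx
        · rw [dot_add_smul, h0, zero_add]
          exact (mul_pos hε (dot_self_pos (hG x (mem_insert_self _ _)))).ne'
        · intro h0; have := h4 x (mem_union_right _ hx); rw [h0] at this; simp at this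
    · refine ⟨φ', h1, fun x hx => ?_⟩
      rcases mem_insert.1 hx with rfl | hx
      · exact h0
      · exact h2 x hx

section topes
variable {ι : Type} [DecidableEq ι] (v : ι → V3)

def Cone (Z S U : Finset ι) (φ : V3) : Prop :=
  (∀ z ∈ Z, dot (v z) φ = 0) ∧ (∀ a ∈ S, dot (v a) φ ≠ 0) ∧ ∀ a ∈ S, (a ∈ U ↔ 0 < dot (v a) φ)

open Classical in
noncomputable def Tope (Z S : Finset ι) : Finset (Finset ι) :=
  S.powerset.filter (fun U => ∃ φ, Cone v Z S U φ)

omit [DecidableEq ι] in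
lemma mem_Tope {Z S U : Finset ι} : U ∈ Tope v Z S ↔ U ⊆ S ∧ ∃ φ, Cone v Z S U φ := by
  simp [Tope]

omit [DecidableEq ι] in
lemma Cone.of_pos {Z S U : Finset ι} {φ φ' : V3} (h : Cone v Z S U φ)
    (hz : ∀ z ∈ Z, dot (v z) φ' = 0) (hp : ∀ a ∈ S, 0 < dot (v a) φ * dot (v a) φ') :
    Cone v Z S U φ' := by
  refine ⟨hz, fun a ha h0 => ?_, fun a ha => ?_⟩
  · have := hp a ha; rw [h0] at this; simp at this
  · rw [h.2.2 a ha]
    have := hp a ha
    constructor
    · intro h1; nlinarith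
    · intro h1; nlinarith

omit [DecidableEq ι] in
lemma Cone.perturb {Z S U : Finset ι} {φ ψ : V3} (h : Cone v Z S U φ)
    (hz : ∀ z ∈ Z, dot (v z) ψ = 0) :
    ∃ ε : ℝ, 0 < ε ∧ ∀ t : ℝ, |t| ≤ ε → Cone v Z S U (φ + t • ψ) := by
  classical
  obtain ⟨ε, hε, h1⟩ := Pool.Agent.MP_1f1ca1_co.perturb (S.image v) φ ψ (by
    intro u hu; obtain ⟨a, ha, rfl⟩ := mem_image.1 hu; exact h.2.1 a ha)
  refine ⟨ε, hε, fun t ht => h.of_pos v (fun z hz' => ?_) (fun a ha => h1 t ht _ (mem_image_of_mem v ha))⟩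
  rw [dot_add_smul, h.1 z hz', hz z hz']; simp

lemma del_res {Z S : Finset ι} {a : ι} (ha : a ∉ S) {ψ : V3} (hz : ∀ z ∈ Z, dot (v z) ψ = 0)
    (hψ : dot (v a) ψ ≠ 0) :
    (Tope v Z (insert a S)).card = (Tope v Z S).card + (Tope v (insert a Z) S).card := by
  classical
  set Up := S.powerset.filter (fun U => ∃ φ, Cone v Z S U φ ∧ 0 < dot (v a) φ) with hUp
  set Um := S.powerset.filter (fun U => ∃ φ, Cone v Z S U φ ∧ dot (v a) φ < 0) with hUm
  have e1 : (Tope v Z (insert a S)).filter (fun T => a ∉ T) = Um := by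
    ext T
    simp only [hUm, mem_filter, mem_Tope, mem_powerset]
    constructor
    · rintro ⟨⟨h1, φ, h2⟩, h3⟩
      refine ⟨fun x hx => ?_, φ, ⟨h2.1, fun b hb => h2.2.1 b (mem_insert_of_mem hb),
        fun b hb => h2.2.2 b (mem_insert_of_mem hb)⟩, ?_⟩
      · rcases mem_insert.1 (h1 hx) with rfl | h
        · exact absurd hx h3
        · exact h
      · have b1 := h2.2.1 a (mem_insert_self _ _)
        have b2 := h2.2.2 a (mem_insert_self _ _)
        rcases lt_trichotomy (dot (v a) φ) 0 with c | c | c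
        · exact c
        · exact absurd c b1
        · exact absurd (b2.2 c) h3
    · rintro ⟨h1, φ, h2, h3⟩
      refine ⟨⟨h1.trans (subset_insert _ _), φ, h2.1, fun b hb => ?_, fun b hb => ?_⟩, fun h => ha (h1 h)⟩
      · rcases mem_insert.1 hb with rfl | hb
        · exact h3.ne
        · exact h2.2.1 b hb
      · rcases mem_insert.1 hb with rfl | hb
        · exact ⟨fun h => absurd (h1 h) ha, fun h => absurd h (by linarith)⟩
        · exact h2.2.2 b hb
  have e2 : (Tope v Z (insert a S)).filter (fun T => a ∈ T) = Up.image (insert a) := by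
    ext T
    simp only [hUp, mem_filter, mem_Tope, mem_powerset, mem_image]
    constructor
    · rintro ⟨⟨h1, φ, h2⟩, h3⟩
      refine ⟨T.erase a, ⟨fun x hx => ?_, φ, ⟨h2.1, fun b hb => h2.2.1 b (mem_insert_of_mem hb),
        fun b hb => ?_⟩, (h2.2.2 a (mem_insert_self _ _)).1 h3⟩, insert_erase h3⟩
      · rcases mem_insert.1 (h1 (mem_of_mem_erase hx)) with rfl | h
        · simp at hx
        · exact h
      · rw [← h2.2.2 b (mem_insert_of_mem hb), mem_erase]
        exact ⟨fun h => h.2, fun h => ⟨fun e => ha (e ▸ hb), h⟩⟩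
    · rintro ⟨U, ⟨h1, φ, h2, h3⟩, rfl⟩
      refine ⟨⟨insert_subset_insert _ h1, φ, h2.1, fun b hb => ?_, fun b hb => ?_⟩, mem_insert_self _ _⟩
      · rcases mem_insert.1 hb with rfl | hb
        · exact h3.ne'
        · exact h2.2.1 b hb
      · rcases mem_insert.1 hb with rfl | hb
        · exact ⟨fun _ => h3, fun _ => mem_insert_self _ _⟩
        · rw [← h2.2.2 b hb, mem_insert]
          exact ⟨fun h => h.resolve_left (fun e => ha (e ▸ hb)), Or.inr⟩
  have e3 : (Up.image (insert a)).card = Up.card := by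
    apply card_image_of_injOn
    intro U hU U' hU' h
    have b1 : a ∉ U := fun h => ha ((mem_powerset.1 (mem_filter.1 hU).1) h)
    have b2 : a ∉ U' := fun h => ha ((mem_powerset.1 (mem_filter.1 hU').1) h)
    rw [← erase_insert b1, ← erase_insert b2, h]
  have e4 : Up ∪ Um = Tope v Z S := by
    ext U
    simp only [hUp, hUm, mem_union, mem_filter, mem_Tope, mem_powerset]
    constructor
    · rintro (⟨h1, φ, h2, -⟩ | ⟨h1, φ, h2, -⟩) <;> exact ⟨h1, φ, h2⟩
    · rintro ⟨h1, φ, h2⟩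
      rcases lt_trichotomy (dot (v a) φ) 0 with c | c | c
      · exact Or.inr ⟨h1, φ, h2, c⟩
      · obtain ⟨ε, hε, h3⟩ := h2.perturb v hz
        have h4 := h3 ε (by rw [abs_of_pos hε])
        rcases lt_or_gt_of_ne hψ with d | d
        · refine Or.inr ⟨h1, _, h4, ?_⟩
          rw [dot_add_smul, c]; nlinarith
        · refine Or.inl ⟨h1, _, h4, ?_⟩
          rw [dot_add_smul, c]; nlinarith
      · exact Or.inl ⟨h1, φ, h2, c⟩
  have e5 : Up ∩ Um = Tope v (insert a Z) S := by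
    ext U
    simp only [hUp, hUm, mem_inter, mem_filter, mem_Tope, mem_powerset]
    constructor
    · rintro ⟨⟨h1, φ, h2, h3⟩, ⟨-, φ', h2', h3'⟩⟩
      refine ⟨h1, (- dot (v a) φ') • φ + (dot (v a) φ) • φ', fun z hz' => ?_, fun b hb => ?_, fun b hb => ?_⟩
      · rw [dot_comb]
        rcases mem_insert.1 hz' with rfl | hz'
        · ring
        · rw [h2.1 z hz', h2'.1 z hz']; ring
      · rw [dot_comb]
        have c1 := h2.2.1 b hb
        have c2 := h2'.2.1 b hb
        have c3 := (h2.2.2 b hb).symm.trans (h2'.2.2 b hb)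
        rcases lt_or_gt_of_ne c1 with d | d
        · have : dot (v b) φ' < 0 := lt_of_le_of_ne (not_lt.1 fun h => absurd (c3.2 h) (by linarith)) c2
          nlinarith
        · have := c3.1 d
          nlinarith
      · rw [dot_comb]
        have c1 := h2.2.1 b hb
        have c2 := h2'.2.1 b hb
        have c3 := (h2.2.2 b hb).symm.trans (h2'.2.2 b hb)
        rw [h2.2.2 b hb]
        rcases lt_or_gt_of_ne c1 with d | d
        · have : dot (v b) φ' < 0 := lt_of_le_of_ne (not_lt.1 fun h => absurd (c3.2 h) (by linarith)) c2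
          constructor
          · intro h; linarith
          · intro h; nlinarith
        · have := c3.1 d
          constructor
          · intro h; nlinarith
          · intro h; exact d
    · rintro ⟨h1, φ, h2⟩
      have h3 : Cone v Z S U φ := ⟨fun z hz' => h2.1 z (mem_insert_of_mem hz'), h2.2⟩
      have c := h2.1 a (mem_insert_self _ _)
      obtain ⟨ε, hε, h4⟩ := h3.perturb v hz
      have h5 := h4 ε (by rw [abs_of_pos hε])
      have h6 := h4 (-ε) (by rw [abs_neg, abs_of_pos hε])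
      rcases lt_or_gt_of_ne hψ with d | d
      · refine ⟨⟨h1, _, h6, ?_⟩, ⟨h1, _, h5, ?_⟩⟩ <;> (rw [dot_add_smul, c]; nlinarith)
      · refine ⟨⟨h1, _, h5, ?_⟩, ⟨h1, _, h6, ?_⟩⟩ <;> (rw [dot_add_smul, c]; nlinarith)
  have := card_filter_add_card_filter_not (s := Tope v Z (insert a S)) (fun T => a ∈ T)
  rw [e1, e2, e3] at this
  rw [← this, ← e4, ← e5, card_union_add_card_inter]

lemma tope_empty (Z : Finset ι) : (Tope v Z ∅).card = 1 := by
  have : Tope v Z ∅ = {∅} := by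
    ext U
    simp only [mem_Tope, subset_empty, mem_singleton]
    constructor
    · exact fun h => h.1
    · rintro rfl; exact ⟨rfl, 0, fun z _ => dot_zero _, by simp, by simp⟩
  rw [this]; simp

lemma tope_1d_zero {a b c : ι} {S : Finset ι} (hn : crs (v a) (v b) ≠ 0) (hc : c ∈ S)
    (h0 : det3 (v a) (v b) (v c) = 0) : (Tope v (insert b {a}) S).card = 0 := by
  rw [card_eq_zero, eq_empty_iff_forall_notMem]
  intro U hU
  obtain ⟨-, φ, h1, h2, -⟩ := (mem_Tope v).1 hU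
  have := key_id (v a) (v b) (v c) φ (h1 a (by simp)) (h1 b (by simp))
  rw [h0, mul_zero] at this
  rcases mul_eq_zero.1 this with h | h
  · exact (dot_self_pos hn).ne' h
  · exact h2 c hc h

lemma tope_1d_two {a b : ι} {S : Finset ι} (hS : S.Nonempty)
    (h0 : ∀ c ∈ S, det3 (v a) (v b) (v c) ≠ 0) : (Tope v (insert b {a}) S).card = 2 := by
  classical
  obtain ⟨c0, hc0⟩ := hS
  have hn := dot_self_pos (crs_ne_of_det (h0 c0 hc0))
  have : Tope v (insert b {a}) S =
      {S.filter (fun c => 0 < det3 (v a) (v b) (v c)), S.filter (fun c => det3 (v a) (v b) (v c) < 0)} := by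
    ext U
    simp only [mem_Tope, mem_insert, mem_singleton]
    constructor
    · rintro ⟨h1, φ, h2, h3, h4⟩
      have k : ∀ c, dot (crs (v a) (v b)) (crs (v a) (v b)) * dot (v c) φ
          = dot φ (crs (v a) (v b)) * det3 (v a) (v b) (v c) :=
        fun c => key_id (v a) (v b) (v c) φ (h2 a (by simp)) (h2 b (by simp))
      rcases lt_trichotomy (dot φ (crs (v a) (v b))) 0 with d | d | d
      · right
        ext c
        rw [mem_filter]
        constructor
        · intro hc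
          have := (h4 c (h1 hc)).1 hc
          have := k c
          exact ⟨h1 hc, by nlinarith⟩
        · rintro ⟨hc, hc'⟩
          have := k c
          exact (h4 c hc).2 (by nlinarith)
      · exfalso
        have := k c0
        rw [d, zero_mul] at this
        rcases mul_eq_zero.1 this with h | h
        · exact hn.ne' h
        · exact h3 c0 hc0 h
      · left
        ext c
        rw [mem_filter]
        constructor
        · intro hc
          have := (h4 c (h1 hc)).1 hc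
          have := k c
          exact ⟨h1 hc, by nlinarith⟩
        · rintro ⟨hc, hc'⟩
          have := k c
          exact (h4 c hc).2 (by nlinarith)
    · rintro (rfl | rfl)
      · refine ⟨filter_subset _ _, crs (v a) (v b), fun z hz => ?_, fun c hc => ?_, fun c hc => ?_⟩
        · rw [dot_crs]
          rcases mem_insert.1 hz with rfl | hz
          · exact det3_abb _ _
          · rw [mem_singleton.1 hz]; exact det3_aba _ _
        · rw [dot_crs]; exact h0 c hc
        · rw [dot_crs, mem_filter]; tauto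
      · refine ⟨filter_subset _ _, -crs (v a) (v b), fun z hz => ?_, fun c hc => ?_, fun c hc => ?_⟩
        · rw [dot_neg, dot_crs]
          rcases mem_insert.1 hz with rfl | hz
          · simp [det3_abb]
          · rw [mem_singleton.1 hz]; simp [det3_aba]
        · rw [dot_neg, dot_crs]; exact neg_ne_zero.2 (h0 c hc)
        · rw [dot_neg, dot_crs, mem_filter, neg_pos]; tauto
  rw [this, card_pair]
  intro h
  have h1 := congrArg (fun U => c0 ∈ U) h
  simp only [mem_filter, hc0, true_and, eq_iff_iff] at h1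
  rcases lt_or_gt_of_ne (h0 c0 hc0) with d | d
  · have := h1.2 d; linarith
  · have := h1.1 d; linarith

structure LS (S : Finset ι) (𝓛 : Finset (Finset ι)) : Prop where
  sub : ∀ l ∈ 𝓛, l ⊆ S
  two : ∀ l ∈ 𝓛, 2 ≤ l.card
  ex : ∀ a ∈ S, ∀ b ∈ S, a ≠ b → ∃ l ∈ 𝓛, a ∈ l ∧ b ∈ l
  zero : ∀ l ∈ 𝓛, ∀ a ∈ l, ∀ b ∈ l, a ≠ b → ∀ c ∈ S, (det3 (v a) (v b) (v c) = 0 ↔ c ∈ l)
  proper : ∀ l ∈ 𝓛, ∃ c ∈ S, c ∉ l
  big : 2 ≤ S.card

variable {v} {S : Finset ι} {𝓛 : Finset (Finset ι)}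

omit [DecidableEq ι] in
lemma LS.uniq (H : LS v S 𝓛) {l l' : Finset ι} (hl : l ∈ 𝓛) (hl' : l' ∈ 𝓛) {a b : ι} (hab : a ≠ b)
    (ha : a ∈ l) (hb : b ∈ l) (ha' : a ∈ l') (hb' : b ∈ l') : l = l' := by
  ext c
  constructor
  · intro hc; exact (H.zero l' hl' a ha' b hb' hab c (H.sub l hl hc)).1 ((H.zero l hl a ha b hb hab c (H.sub l hl hc)).2 hc)
  · intro hc; exact (H.zero l hl a ha b hb hab c (H.sub l' hl' hc)).1 ((H.zero l' hl' a ha' b hb' hab c (H.sub l' hl' hc)).2 hc)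

omit [DecidableEq ι] in
lemma LS.third (H : LS v S 𝓛) {a b : ι} (ha : a ∈ S) (hb : b ∈ S) (hab : a ≠ b) :
    ∃ c ∈ S, det3 (v a) (v b) (v c) ≠ 0 := by
  obtain ⟨l, hl, h1, h2⟩ := H.ex a ha b hb hab
  obtain ⟨c, hc, h3⟩ := H.proper l hl
  exact ⟨c, hc, fun h => h3 ((H.zero l hl a h1 b h2 hab c hc).1 h)⟩

omit [DecidableEq ι] in
lemma LS.other (H : LS v S 𝓛) (a : ι) : ∃ b ∈ S, a ≠ b := by
  obtain ⟨x, hx, y, hy, hxy⟩ := one_lt_card.1 (show 1 < S.card from H.big)
  by_cases h : a = x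
  · exact ⟨y, hy, h ▸ hxy⟩
  · exact ⟨x, hx, h⟩

lemma LS.count2 (H : LS v S 𝓛) {a : ι} (ha : a ∈ S) (S' : Finset ι) (hS : S' ⊆ S.erase a) :
    (Tope v {a} S').card =
      if S' = ∅ then 1 else 2 * (𝓛.filter (fun l => a ∈ l ∧ (l ∩ S').Nonempty)).card := by
  induction S' using Finset.induction_on with
  | empty => simp [tope_empty]
  | insert b S' hb ih =>
    have hS' : S' ⊆ S.erase a := (subset_insert _ _).trans hS
    have hbS := hS (mem_insert_self _ _)
    have hab : a ≠ b := (mem_erase.1 hbS).1.symm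
    have hbS' : b ∈ S := mem_of_mem_erase hbS
    obtain ⟨c, hc, hdet⟩ := H.third ha hbS' hab
    obtain ⟨l0, hl0, h1, h2⟩ := H.ex a ha b hbS' hab
    rw [del_res v hb (ψ := crs (v a) (v c)) (by simp [dot_crs, det3_aba])
      (by rw [dot_crs, det3_swap23]; exact neg_ne_zero.2 hdet), ih hS', if_neg (insert_ne_empty _ _)]
    have hset : 𝓛.filter (fun l => a ∈ l ∧ (l ∩ insert b S').Nonempty) =
        insert l0 (𝓛.filter (fun l => a ∈ l ∧ (l ∩ S').Nonempty)) := by
      ext l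
      simp only [mem_filter, mem_insert]
      constructor
      · rintro ⟨hl, hal, x, hx⟩
        rw [mem_inter, mem_insert] at hx
        rcases hx with ⟨hx, rfl | hx'⟩
        · exact Or.inl (H.uniq hl hl0 hab hal hx h1 h2)
        · exact Or.inr ⟨hl, hal, x, mem_inter.2 ⟨hx, hx'⟩⟩
      · rintro (rfl | ⟨hl, hal, x, hx⟩)
        · exact ⟨hl0, h1, b, mem_inter.2 ⟨h2, mem_insert_self _ _⟩⟩
        · exact ⟨hl, hal, x, mem_inter.2 ⟨(mem_inter.1 hx).1, mem_insert_of_mem (mem_inter.1 hx).2⟩⟩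
    rw [hset]
    by_cases he : S' = ∅
    · subst he; simp [tope_empty]
    · rw [if_neg he]
      by_cases hx : (l0 ∩ S').Nonempty
      · obtain ⟨x, hx'⟩ := id hx
        rw [mem_inter] at hx'
        rw [tope_1d_zero v (crs_ne_of_det hdet) hx'.2
          ((H.zero l0 hl0 a h1 b h2 hab x (mem_of_mem_erase (hS' hx'.2))).2 hx'.1),
          insert_eq_of_mem (mem_filter.2 ⟨hl0, h1, hx⟩), add_zero]
      · rw [tope_1d_two v (nonempty_iff_ne_empty.2 he) (fun x hx' h0 => hx ⟨x, mem_inter.2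
          ⟨(H.zero l0 hl0 a h1 b h2 hab x (mem_of_mem_erase (hS' hx'))).1 h0, hx'⟩⟩),
          card_insert_of_notMem (fun h => hx (mem_filter.1 h).2.2)]
        ring

lemma LS.count3 (H : LS v S 𝓛) (S' : Finset ι) (hS : S' ⊆ S) :
    (Tope v ∅ S').card = if S' = ∅ then 1 else 2 + 2 * ∑ l ∈ 𝓛, ((l ∩ S').card - 1) := by
  induction S' using Finset.induction_on with
  | empty => simp [tope_empty]
  | insert a S' ha ih =>
    have hS' : S' ⊆ S := (subset_insert _ _).trans hS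
    have haS := hS (mem_insert_self _ _)
    obtain ⟨b, hb, hab⟩ := H.other a
    obtain ⟨c, hc, hdet⟩ := H.third haS hb hab
    rw [del_res v ha (ψ := crs (v b) (v c)) (by simp) (by rw [dot_crs, det3_rot]; exact hdet), ih hS',
      if_neg (insert_ne_empty _ _)]
    have e : (insert a ∅ : Finset ι) = {a} := rfl
    rw [e, H.count2 haS S' (fun x hx => mem_erase.2 ⟨fun e => ha (e ▸ hx), hS' hx⟩)]
    have hsum : ∑ l ∈ 𝓛, ((l ∩ insert a S').card - 1) = ∑ l ∈ 𝓛, ((l ∩ S').card - 1) +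
        (𝓛.filter (fun l => a ∈ l ∧ (l ∩ S').Nonempty)).card := by
      rw [card_filter, ← sum_add_distrib]
      apply sum_congr rfl
      intro l _
      by_cases hal : a ∈ l
      · rw [inter_insert_of_mem hal, card_insert_of_notMem (fun h => ha (mem_inter.1 h).2)]
        by_cases hn : (l ∩ S').Nonempty
        · have := card_pos.2 hn
          simp only [hal, hn, and_self, if_true]; omega
        · have := not_nonempty_iff_eq_empty.1 hn
          simp [this]
      · rw [inter_insert_of_notMem hal]; simp [hal]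
    rw [hsum]
    by_cases he : S' = ∅
    · subst he; simp
    · rw [if_neg he, if_neg he]; ring

lemma LS.walls (H : LS v S 𝓛) {T : Finset ι} (hT : T ∈ Tope v ∅ S) :
    3 ≤ (S.filter (fun a => T.erase a ∈ Tope v {a} (S.erase a))).card := by
  classical
  by_contra hlt
  set Wl := S.filter (fun a => T.erase a ∈ Tope v {a} (S.erase a)) with hWl
  -- two distinct elements of `S` covering the walls
  obtain ⟨a, ha, b, hb, hab, hcov⟩ : ∃ a ∈ S, ∃ b ∈ S, a ≠ b ∧ ∀ c ∈ Wl, c = a ∨ c = b := by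
    obtain ⟨U, h1, h2, h3⟩ := exists_subsuperset_card_eq (n := 2) (show Wl ⊆ S from filter_subset _ S)
      (show Wl.card ≤ 2 by omega) H.big
    obtain ⟨a, b, hab, rfl⟩ := card_eq_two.1 h3
    refine ⟨a, h2 (by simp), b, h2 (by simp), hab, fun c hc => ?_⟩
    simpa using h1 hc
  obtain ⟨hTS, φ0, hφ0⟩ := (mem_Tope v).1 hT
  obtain ⟨c0, hc0, hdet⟩ := H.third ha hb hab
  -- direction
  obtain ⟨d, hda, hdb, hd⟩ : ∃ d : V3, dot (v a) d = 0 ∧ dot (v b) d = 0 ∧
      dot (v c0) φ0 * dot (v c0) d < 0 := by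
    have h0 := hφ0.2.1 c0 hc0
    rcases lt_or_gt_of_ne (mul_ne_zero h0 hdet) with h | h
    · exact ⟨crs (v a) (v b), by rw [dot_crs, det3_aba], by rw [dot_crs, det3_abb], by rwa [dot_crs]⟩
    · exact ⟨-crs (v a) (v b), by rw [dot_neg, dot_crs, det3_aba, neg_zero],
        by rw [dot_neg, dot_crs, det3_abb, neg_zero], by rw [dot_neg, dot_crs]; linarith⟩
  -- generic point
  set G := ((S ×ˢ S).filter (fun p => p.1 ≠ p.2 ∧ dot (v p.1) d ≠ 0)).image
    (fun p => (dot (v p.2) d) • v p.1 + (- dot (v p.1) d) • v p.2) with hG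
  obtain ⟨φ, hφ1, hφ2⟩ := generic (S.image v) G φ0 (by
      intro u hu; obtain ⟨x, hx, rfl⟩ := mem_image.1 hu; exact hφ0.2.1 x hx) (by
      intro g hg
      obtain ⟨p, hp, rfl⟩ := mem_image.1 hg
      rw [mem_filter, mem_product] at hp
      obtain ⟨e, he, hdet'⟩ := H.third hp.1.1 hp.1.2 hp.2.1
      intro h0
      have := dot_comb' (v p.1) (v p.2) (crs (v p.1) (v e)) (dot (v p.2) d) (- dot (v p.1) d)
      rw [h0, dot_crs, dot_crs, dot_crs, det3_aba, det3_swap23 (v p.1) (v p.2) (v e)] at this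
      simp only [det3, Pi.zero_apply, mul_zero, sub_self, add_zero] at this
      apply mul_ne_zero hp.2.2 hdet'
      simp only [det3]; linarith)
  have hφ : Cone v ∅ S T φ := hφ0.of_pos v (by simp) (fun x hx => hφ1 _ (mem_image_of_mem v hx))
  set Ng := S.filter (fun c => dot (v c) φ * dot (v c) d < 0) with hNg
  have hc0N : c0 ∈ Ng := by
    refine mem_filter.2 ⟨hc0, ?_⟩
    have := hφ1 _ (mem_image_of_mem v hc0)
    have h0 := hφ0.2.1 c0 hc0
    rcases lt_or_gt_of_ne h0 with h | h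
    · have b1 : dot (v c0) φ < 0 := by nlinarith
      have b2 : 0 < dot (v c0) d := by nlinarith
      nlinarith
    · have b1 : 0 < dot (v c0) φ := by nlinarith
      have b2 : dot (v c0) d < 0 := by nlinarith
      nlinarith
  obtain ⟨c, hcN, hmin⟩ := exists_min_image Ng (fun c => - dot (v c) φ / dot (v c) d) ⟨c0, hc0N⟩
  obtain ⟨hcS, hcneg⟩ := mem_filter.1 hcN
  have hcd : dot (v c) d ≠ 0 := by intro h; rw [h] at hcneg; simp at hcneg
  set t := - dot (v c) φ / dot (v c) d with ht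
  have htc : t * dot (v c) d = - dot (v c) φ := by rw [ht]; field_simp
  have htpos : 0 < t := by
    by_contra h
    have h' : t ≤ 0 := not_lt.1 h
    have : t * (dot (v c) d * dot (v c) d) = - (dot (v c) φ * dot (v c) d) := by
      rw [← mul_assoc, htc]; ring
    nlinarith [mul_self_nonneg (dot (v c) d)]
  have hwall : c ∈ Wl := by
    refine mem_filter.2 ⟨hcS, (mem_Tope v).2 ⟨erase_subset_erase _ hTS, φ + t • d, ?_⟩⟩
    have hC : Cone v ∅ (S.erase c) (T.erase c) φ := by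
      refine ⟨by simp, fun x hx => hφ.2.1 x (mem_of_mem_erase hx), fun x hx => ?_⟩
      rw [← hφ.2.2 x (mem_of_mem_erase hx), mem_erase]
      exact ⟨fun h => h.2, fun h => ⟨(mem_erase.1 hx).1, h⟩⟩
    have hP : ∀ x ∈ S.erase c, 0 < dot (v x) φ * dot (v x) (φ + t • d) := by
      intro x hx
      have hxS := mem_of_mem_erase hx
      have hx0 := mul_self_pos.2 (hφ.2.1 x hxS)
      rw [dot_add_smul]
      by_cases hxn : dot (v x) φ * dot (v x) d < 0
      · have hxd : dot (v x) d ≠ 0 := by intro h; rw [h] at hxn; simp at hxn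
        have h1 := hmin x (mem_filter.2 ⟨hxS, hxn⟩)
        have h2 := hφ2 _ (mem_image_of_mem _ (show (c, x) ∈ (S ×ˢ S).filter
          (fun p => p.1 ≠ p.2 ∧ dot (v p.1) d ≠ 0) from
            mem_filter.2 ⟨mem_product.2 ⟨hcS, hxS⟩, (mem_erase.1 hx).1.symm, hcd⟩))
        rw [dot_comb'] at h2
        simp only at h2
        set s := - dot (v x) φ / dot (v x) d with hs
        have hsx : s * dot (v x) d = - dot (v x) φ := by rw [hs]; field_simp
        have hne : t ≠ s := by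
          intro e
          apply h2
          have e1 : dot (v c) φ = - (t * dot (v c) d) := by linarith
          have e2 : dot (v x) φ = - (t * dot (v x) d) := by rw [e]; linarith
          rw [e1, e2]; ring
        have hlt' : t < s := lt_of_le_of_ne h1 hne
        have e3 : dot (v x) φ * (dot (v x) φ + t * dot (v x) d) =
            (s - t) * (-(dot (v x) φ * dot (v x) d)) := by
          have e2 : dot (v x) φ = - (s * dot (v x) d) := by linarith
          rw [e2]; ring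
        rw [e3]
        exact mul_pos (by linarith) (by linarith)
      · have := mul_nonneg htpos.le (not_lt.1 hxn)
        nlinarith
    refine ⟨fun z hz => ?_, (hC.of_pos v (by simp) hP).2⟩
    rw [mem_singleton.1 hz, dot_add_smul]; linarith
  rcases hcov c hwall with rfl | rfl
  · exact hcd hda
  · exact hcd hdb

theorem LS.melchior (H : LS v S 𝓛) : 3 + ∑ l ∈ 𝓛, l.card ≤ 3 * 𝓛.card := by
  classical
  have hne : S ≠ ∅ := by intro h; have := H.big; rw [h] at this; simp at this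
  have h3 := H.count3 S subset_rfl
  rw [if_neg hne] at h3
  have h4 : ∑ l ∈ 𝓛, ((l ∩ S).card - 1) + 𝓛.card = ∑ l ∈ 𝓛, l.card := by
    rw [card_eq_sum_ones 𝓛, ← sum_add_distrib]
    apply sum_congr rfl
    intro l hl
    rw [inter_eq_left.2 (H.sub l hl)]
    have := H.two l hl; omega
  have h5 : 3 * (Tope v ∅ S).card ≤ ∑ T ∈ Tope v ∅ S,
      (S.filter (fun a => T.erase a ∈ Tope v {a} (S.erase a))).card := by
    rw [mul_comm, ← smul_eq_mul, ← sum_const]
    exact sum_le_sum fun T hT => H.walls hT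
  have h6 : ∑ T ∈ Tope v ∅ S, (S.filter (fun a => T.erase a ∈ Tope v {a} (S.erase a))).card =
      ∑ a ∈ S, ((Tope v ∅ S).filter (fun T => T.erase a ∈ Tope v {a} (S.erase a))).card := by
    simp only [card_filter]; rw [sum_comm]
  have h7 : ∀ a ∈ S, ((Tope v ∅ S).filter (fun T => T.erase a ∈ Tope v {a} (S.erase a))).card ≤
      4 * (𝓛.filter (fun l => a ∈ l)).card := by
    intro a ha
    have b1 : ((Tope v ∅ S).filter (fun T => T.erase a ∈ Tope v {a} (S.erase a))) ⊆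
        Tope v {a} (S.erase a) ∪ (Tope v {a} (S.erase a)).image (insert a) := by
      intro T hT
      have hT' := (mem_filter.1 hT).2
      by_cases haT : a ∈ T
      · exact mem_union_right _ (mem_image.2 ⟨_, hT', insert_erase haT⟩)
      · rw [erase_eq_of_notMem haT] at hT'; exact mem_union_left _ hT'
    have b2 := (card_le_card b1).trans (card_union_le _ _)
    have b3 : ((Tope v {a} (S.erase a)).image (insert a)).card ≤ _ := card_image_le
    have b4 := H.count2 ha (S.erase a) subset_rfl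
    obtain ⟨b, hb, hab⟩ := H.other a
    rw [if_neg (ne_empty_of_mem (mem_erase.2 ⟨hab.symm, hb⟩))] at b4
    have b5 : (𝓛.filter (fun l => a ∈ l ∧ (l ∩ S.erase a).Nonempty)).card ≤
        (𝓛.filter (fun l => a ∈ l)).card :=
      card_le_card (fun l hl => mem_filter.2 ⟨(mem_filter.1 hl).1, (mem_filter.1 hl).2.1⟩)
    omega
  have h8 : ∑ a ∈ S, (𝓛.filter (fun l => a ∈ l)).card = ∑ l ∈ 𝓛, l.card := by
    simp only [card_filter]; rw [sum_comm]
    apply sum_congr rfl
    intro l hl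
    rw [← card_filter, filter_mem_eq_inter, inter_eq_right.2 (H.sub l hl)]
  have h9 := sum_le_sum h7
  rw [← mul_sum, h8] at h9
  omega

end topes

end Pool.Agent.MP_1f1ca1_co

end

section

/-! The combinatorial data of a planar point set: blocks (maximal concyclic or collinear subsets
with at least three points), and those blocks that are collinear. -/

set_option autoImplicit false
set_option linter.unusedSectionVars false

namespace Pool.Agent.MP_1f1ca1_co
open Finset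

variable {α : Type} [DecidableEq α]

/-- points of the configuration derived at `x`, with a point at infinity -/
def Qx (P : Finset α) (x : α) : Finset (Option α) := insertNone (P.erase x)
/-- the line of the derived configuration coming from a block -/
def Ex (L : Finset (Finset α)) (x : α) (β : Finset α) : Finset (Option α) :=
  if β ∈ L then insertNone (β.erase x) else (β.erase x).map Function.Embedding.some

@[simp] lemma none_mem_Qx (P : Finset α) (x : α) : none ∈ Qx P x := by simp [Qx]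
@[simp] lemma some_mem_Qx (P : Finset α) (x y : α) : some y ∈ Qx P x ↔ y ≠ x ∧ y ∈ P := by simp [Qx]
@[simp] lemma none_mem_Ex (L : Finset (Finset α)) (x : α) (β : Finset α) : none ∈ Ex L x β ↔ β ∈ L := by
  unfold Ex; split_ifs with h <;> simp [h]
@[simp] lemma some_mem_Ex (L : Finset (Finset α)) (x y : α) (β : Finset α) :
    some y ∈ Ex L x β ↔ y ≠ x ∧ y ∈ β := by
  unfold Ex; split_ifs with h <;> simp
lemma card_Ex (L : Finset (Finset α)) {x : α} {β : Finset α} (h : x ∈ β) :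
    (Ex L x β).card + 1 = β.card + if β ∈ L then 1 else 0 := by
  have := card_erase_add_one h
  unfold Ex; split_ifs with h' <;> simp only [card_insertNone, card_map] <;> omega

structure Geo (P : Finset α) (B L : Finset (Finset α)) : Prop where
  big : 3 ≤ P.card
  sub : ∀ β ∈ B, β ⊆ P
  three : ∀ β ∈ B, 3 ≤ β.card
  ex : ∀ a ∈ P, ∀ b ∈ P, ∀ c ∈ P, a ≠ b → a ≠ c → b ≠ c → ∃ β ∈ B, a ∈ β ∧ b ∈ β ∧ c ∈ β
  lsub : L ⊆ B
  proper : ∀ β ∈ B, ∃ x ∈ P, x ∉ β
  vec : ∀ x ∈ P, ∃ v : Option α → V3, ∀ β ∈ B, x ∈ β → ∀ a ∈ Ex L x β, ∀ b ∈ Ex L x β, a ≠ b →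
    ∀ c ∈ Qx P x, (det3 (v a) (v b) (v c) = 0 ↔ c ∈ Ex L x β)
  dir : ∃ D : α → α → ℂ, (∀ a b, D a b = D b a) ∧ (∀ a b, a ≠ b → D a b ≠ 0) ∧
    (∀ β ∈ B, ∀ a ∈ β, ∀ b ∈ β, ∀ c ∈ β, ∀ d ∈ β, a ≠ b → b ≠ c → c ≠ d → d ≠ a →
      D a b * D c d = D b c * D d a) ∧
    (∀ β ∈ B, ∀ a ∈ β, ∀ b ∈ β, ∀ c ∈ β, ∀ d ∈ P, a ≠ b → b ≠ c → a ≠ c → c ≠ d → d ≠ a →
      D a b * D c d = D b c * D d a → d ∈ β) ∧
    (∀ β ∈ L, ∀ a ∈ β, ∀ b ∈ β, ∀ c ∈ β, a ≠ b → a ≠ c → D a b = D a c) ∧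
    (∀ β ∈ L, ∀ a ∈ β, ∀ b ∈ β, ∀ c ∈ P, a ≠ b → a ≠ c → D a b = D a c → c ∈ β)

variable {P : Finset α} {B L : Finset (Finset α)}

lemma Geo.eq_of_two (H : Geo P B L) {β γ : Finset α} (hβ : β ∈ B) (hγ : γ ∈ B) {x : α} (h1 : x ∈ β)
    (h2 : x ∈ γ) {a b : Option α} (hab : a ≠ b) (ha : a ∈ Ex L x β) (hb : b ∈ Ex L x β)
    (ha' : a ∈ Ex L x γ) (hb' : b ∈ Ex L x γ) : β = γ := by
  obtain ⟨v, hv⟩ := H.vec x (H.sub β hβ h1)
  ext y
  by_cases hy : y = x
  · subst hy; simp [h1, h2]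
  by_cases hP : y ∈ P
  · have e1 := hv β hβ h1 a ha b hb hab (some y) (by simp [hy, hP])
    have e2 := hv γ hγ h2 a ha' b hb' hab (some y) (by simp [hy, hP])
    have := e1.symm.trans e2
    simpa [hy] using this
  · exact ⟨fun h => absurd (H.sub β hβ h) hP, fun h => absurd (H.sub γ hγ h) hP⟩

lemma Geo.uniq (H : Geo P B L) {β γ : Finset α} (hβ : β ∈ B) (hγ : γ ∈ B) {a b c : α} (hab : a ≠ b)
    (hac : a ≠ c) (hbc : b ≠ c) (h1 : a ∈ β) (h2 : b ∈ β) (h3 : c ∈ β) (h4 : a ∈ γ) (h5 : b ∈ γ)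
    (h6 : c ∈ γ) : β = γ :=
  H.eq_of_two hβ hγ h1 h4 (a := some b) (b := some c) (by simpa using hbc) (by simp [hab.symm, h2])
    (by simp [hac.symm, h3]) (by simp [hab.symm, h5]) (by simp [hac.symm, h6])

lemma Geo.luniq (H : Geo P B L) {β γ : Finset α} (hβ : β ∈ L) (hγ : γ ∈ L) {a b : α} (hab : a ≠ b)
    (h1 : a ∈ β) (h2 : b ∈ β) (h4 : a ∈ γ) (h5 : b ∈ γ) : β = γ :=
  H.eq_of_two (H.lsub hβ) (H.lsub hγ) h1 h4 (a := some b) (b := none) (by simp) (by simp [hab.symm, h2])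
    (by simp [hβ]) (by simp [hab.symm, h5]) (by simp [hγ])

lemma Geo.inter_le_two (H : Geo P B L) {β γ : Finset α} (hβ : β ∈ B) (hγ : γ ∈ B) (h : β ≠ γ) :
    (β ∩ γ).card ≤ 2 := by
  by_contra hc
  obtain ⟨a, b, c, ha, hb, hc, hab, hac, hbc⟩ := two_lt_card_iff.1 (not_le.1 hc)
  rw [mem_inter] at ha hb hc
  exact h (H.uniq hβ hγ hab hac hbc ha.1 hb.1 hc.1 ha.2 hb.2 hc.2)

lemma Geo.inter_le_one (H : Geo P B L) {β γ : Finset α} (hβ : β ∈ L) (hγ : γ ∈ L) (h : β ≠ γ) :
    (β ∩ γ).card ≤ 1 := by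
  by_contra hc
  obtain ⟨a, ha, b, hb, hab⟩ := one_lt_card.1 (not_le.1 hc)
  rw [mem_inter] at ha hb
  exact h (H.luniq hβ hγ hab ha.1 hb.1 ha.2 hb.2)

lemma Geo.l11 (H : Geo P B L) {X Y : Finset α} (hd : Disjoint X Y) :
    ∑ l ∈ L, (l ∩ X).card * (l ∩ Y).card ≤ X.card * Y.card := by
  have e : ∀ l : Finset α, (l ∩ X).card * (l ∩ Y).card =
      ∑ p ∈ X ×ˢ Y, if p.1 ∈ l ∧ p.2 ∈ l then 1 else 0 := by
    intro l
    rw [← card_filter, ← card_product]
    congr 1
    ext p; simp only [mem_product, mem_inter, mem_filter]; tauto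
  simp only [e]
  rw [sum_comm, ← card_product, card_eq_sum_ones (X ×ˢ Y)]
  apply sum_le_sum
  intro p hp
  rw [← card_filter]
  apply card_le_one.2
  intro l hl l' hl'
  rw [mem_filter] at hl hl'
  rw [mem_product] at hp
  exact H.luniq hl.1 hl'.1 (fun e : p.1 = p.2 => disjoint_left.1 hd hp.1 (e.symm ▸ hp.2)) hl.2.1 hl.2.2 hl'.2.1 hl'.2.2

lemma Geo.p2 (H : Geo P B L) {x : α} (hx : x ∈ P) :
    3 + ∑ β ∈ B.filter (fun β => x ∈ β), β.card ≤ 4 * (B.filter (fun β => x ∈ β)).card := by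
  obtain ⟨v, hv⟩ := H.vec x hx
  have hinj : Set.InjOn (fun β : Finset α => β.erase x) (B.filter (fun β => x ∈ β)) := by
    intro β hβ γ hγ h
    have h1 := (mem_filter.1 (mem_coe.1 hβ)).2
    have h2 := (mem_filter.1 (mem_coe.1 hγ)).2
    rw [← insert_erase h1, ← insert_erase h2]
    exact congrArg (insert x) h
  have M : LS (fun y => v (some y)) (P.erase x) ((B.filter (fun β => x ∈ β)).image (fun β => β.erase x)) := by
    refine ⟨?_, ?_, ?_, ?_, ?_, ?_⟩
    · intro l hl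
      obtain ⟨β, hβ, rfl⟩ := mem_image.1 hl
      exact erase_subset_erase _ (H.sub β (mem_filter.1 hβ).1)
    · intro l hl
      obtain ⟨β, hβ, rfl⟩ := mem_image.1 hl
      have := H.three β (mem_filter.1 hβ).1
      have := card_erase_add_one (mem_filter.1 hβ).2
      omega
    · intro a ha b hb hab
      rw [mem_erase] at ha hb
      obtain ⟨β, hβ, h1, h2, h3⟩ := H.ex x hx a ha.2 b hb.2 ha.1.symm hb.1.symm hab
      exact ⟨_, mem_image_of_mem _ (mem_filter.2 ⟨hβ, h1⟩), mem_erase.2 ⟨ha.1, h2⟩, mem_erase.2 ⟨hb.1, h3⟩⟩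
    · intro l hl a ha b hb hab c hc
      obtain ⟨β, hβ, rfl⟩ := mem_image.1 hl
      rw [mem_filter] at hβ
      have := hv β hβ.1 hβ.2 (some a) (by simpa using ha) (some b) (by simpa using hb) (by simpa using hab)
        (some c) (by simpa using hc)
      simpa using this
    · intro l hl
      obtain ⟨β, hβ, rfl⟩ := mem_image.1 hl
      rw [mem_filter] at hβ
      obtain ⟨y, hy, hy'⟩ := H.proper β hβ.1
      exact ⟨y, mem_erase.2 ⟨fun e => hy' (e ▸ hβ.2), hy⟩, fun h => hy' (mem_of_mem_erase h)⟩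
    · have := H.big
      have := card_erase_add_one hx
      omega
  have h := M.melchior
  rw [sum_image hinj, card_image_of_injOn hinj] at h
  have e : ∑ β ∈ B.filter (fun β => x ∈ β), β.card = ∑ β ∈ B.filter (fun β => x ∈ β), (β.erase x).card
      + (B.filter (fun β => x ∈ β)).card := by
    rw [card_eq_sum_ones (B.filter _), ← sum_add_distrib]
    exact sum_congr rfl fun β hβ => (card_erase_add_one (mem_filter.1 hβ).2).symm
  omega

lemma Geo.p3 (H : Geo P B L) {x : α} (hx : x ∈ P) :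
    4 + ∑ β ∈ B.filter (fun β => x ∈ β), β.card + ∑ β ∈ L.filter (fun β => x ∈ β), β.card
      ≤ 4 * (B.filter (fun β => x ∈ β)).card + P.card := by
  obtain ⟨v, hv⟩ := H.vec x hx
  set Bx := B.filter (fun β => x ∈ β) with hBx
  set Lx := L.filter (fun β => x ∈ β) with hLx
  set R := (P.erase x).filter (fun y => ∀ l ∈ L, x ∈ l → y ∉ l) with hR
  have hinj : Set.InjOn (Ex L x) Bx := by
    intro β hβ γ hγ h
    have h1 := (mem_filter.1 (mem_coe.1 hβ)).2
    have h2 := (mem_filter.1 (mem_coe.1 hγ)).2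
    ext y
    by_cases hy : y = x
    · subst hy; simp [h1, h2]
    · have := congrArg (fun s => some y ∈ s) h
      simpa [hy] using this
  have hinj2 : Set.InjOn (fun y : α => ({none, some y} : Finset (Option α))) R := by
    intro y _ z _ h
    have := congrArg (fun s => some y ∈ s) h
    simpa using this
  have hdis : Disjoint (Bx.image (Ex L x)) (R.image (fun y : α => ({none, some y} : Finset (Option α)))) := by
    rw [disjoint_left]
    intro l h1 h2
    obtain ⟨β, hβ, rfl⟩ := mem_image.1 h1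
    obtain ⟨y, hy, e⟩ := mem_image.1 h2
    have a1 : none ∈ Ex L x β := by rw [← e]; simp
    have a2 : some y ∈ Ex L x β := by rw [← e]; simp
    exact (mem_filter.1 hy).2 β (by simpa using a1) (mem_filter.1 hβ).2 ((some_mem_Ex _ _ _ _).1 a2).2
  have hR0 : ∀ y ∈ R, ∀ c ∈ Qx P x, (det3 (v none) (v (some y)) (v c) = 0 ↔
      c ∈ ({none, some y} : Finset (Option α))) := by
    intro y hy c hc
    rw [mem_filter, mem_erase] at hy
    cases c with
    | none => simp [det3_aba]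
    | some z =>
      by_cases hz : z = y
      · subst hz; simp [det3_abb]
      · rw [some_mem_Qx] at hc
        obtain ⟨β, hβ, h1, h2, h3⟩ := H.ex x hx y hy.1.2 z hc.2 hy.1.1.symm hc.1.symm (Ne.symm hz)
        have := hv β hβ h1 (some y) (by simp [hy.1.1, h2]) (some z) (by simp [hc.1, h3])
          (by simpa using Ne.symm hz) none (by simp)
        rw [det3_rot] at this
        rw [this]
        simp only [none_mem_Ex, mem_insert, reduceCtorEq, mem_singleton, Option.some.injEq, hz, or_self,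
          iff_false]
        exact fun h => hy.2 β h h1 h2
  have M : LS v (Qx P x) (Bx.image (Ex L x) ∪ R.image (fun y : α => ({none, some y} : Finset (Option α)))) := by
    refine ⟨?_, ?_, ?_, ?_, ?_, ?_⟩
    · intro l hl
      rcases mem_union.1 hl with hl | hl
      · obtain ⟨β, hβ, rfl⟩ := mem_image.1 hl
        intro c hc
        cases c with
        | none => simp
        | some z =>
          rw [some_mem_Ex] at hc
          exact (some_mem_Qx _ _ _).2 ⟨hc.1, H.sub β (mem_filter.1 hβ).1 hc.2⟩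
      · obtain ⟨y, hy, rfl⟩ := mem_image.1 hl
        intro c hc
        rw [mem_insert, mem_singleton] at hc
        rcases hc with rfl | rfl
        · simp
        · simpa using (mem_filter.1 hy).1
    · intro l hl
      rcases mem_union.1 hl with hl | hl
      · obtain ⟨β, hβ, rfl⟩ := mem_image.1 hl
        have := H.three β (mem_filter.1 hβ).1
        have := card_Ex L (mem_filter.1 hβ).2
        omega
      · obtain ⟨y, hy, rfl⟩ := mem_image.1 hl
        simp
    · have key : ∀ y ∈ P.erase x, ∃ l ∈ (Bx.image (Ex L x) ∪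
          R.image (fun y : α => ({none, some y} : Finset (Option α)))), none ∈ l ∧ some y ∈ l := by
        intro y hy
        by_cases hyR : y ∈ R
        · exact ⟨_, mem_union_right _ (mem_image_of_mem _ hyR), by simp, by simp⟩
        · rw [hR, mem_filter] at hyR
          push Not at hyR
          obtain ⟨l, hl, h1, h2⟩ := hyR hy
          exact ⟨_, mem_union_left _ (mem_image_of_mem _ (mem_filter.2 ⟨H.lsub hl, h1⟩)), by simpa using hl,
            by simp [h2, (mem_erase.1 hy).1]⟩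
      intro a ha b hb hab
      cases a with
      | none =>
        cases b with
        | none => exact absurd rfl hab
        | some z => exact key z (by simpa using hb)
      | some y =>
        cases b with
        | none =>
          obtain ⟨l, hl, h1, h2⟩ := key y (by simpa using ha)
          exact ⟨l, hl, h2, h1⟩
        | some z =>
          rw [some_mem_Qx] at ha hb
          obtain ⟨β, hβ, h1, h2, h3⟩ := H.ex x hx y ha.2 z hb.2 ha.1.symm hb.1.symm (by simpa using hab)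
          exact ⟨_, mem_union_left _ (mem_image_of_mem _ (mem_filter.2 ⟨hβ, h1⟩)), by simp [ha.1, h2],
            by simp [hb.1, h3]⟩
    · intro l hl a ha b hb hab c hc
      rcases mem_union.1 hl with hl | hl
      · obtain ⟨β, hβ, rfl⟩ := mem_image.1 hl
        exact hv β (mem_filter.1 hβ).1 (mem_filter.1 hβ).2 a ha b hb hab c hc
      · obtain ⟨y, hy, rfl⟩ := mem_image.1 hl
        rw [mem_insert, mem_singleton] at ha hb
        rcases ha with rfl | rfl <;> rcases hb with rfl | rfl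
        · exact absurd rfl hab
        · exact hR0 y hy c hc
        · rw [det3_swap12, neg_eq_zero]; exact hR0 y hy c hc
        · exact absurd rfl hab
    · intro l hl
      rcases mem_union.1 hl with hl | hl
      · obtain ⟨β, hβ, rfl⟩ := mem_image.1 hl
        rw [mem_filter] at hβ
        obtain ⟨y, hy, hy'⟩ := H.proper β hβ.1
        exact ⟨some y, by simpa using ⟨fun e => hy' (e ▸ hβ.2), hy⟩, by simp [hy']⟩
      · obtain ⟨y, hy, rfl⟩ := mem_image.1 hl
        have h1 := H.big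
        have h2 := card_erase_add_one hx
        have h3 := card_erase_add_one (mem_filter.1 hy).1
        obtain ⟨z, hz⟩ := card_pos.1 (show 0 < ((P.erase x).erase y).card by omega)
        rw [mem_erase] at hz
        exact ⟨some z, by simpa using hz.2, by simp [hz.1]⟩
    · have := H.big
      have := card_erase_add_one hx
      simp only [Qx, card_insertNone]
      omega
  have h := M.melchior
  rw [sum_union hdis, card_union_of_disjoint hdis, sum_image hinj, sum_image hinj2, card_image_of_injOn hinj,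
    card_image_of_injOn hinj2] at h
  have e1 : ∑ y ∈ R, ({none, some y} : Finset (Option α)).card = 2 * R.card := by
    rw [mul_comm, ← smul_eq_mul, ← sum_const]
    exact sum_congr rfl fun y _ => by simp
  have e2 : ∑ β ∈ Bx, (Ex L x β).card + Bx.card = ∑ β ∈ Bx, β.card + Lx.card := by
    have : Lx = Bx.filter (fun β => β ∈ L) := by
      ext β; simp only [hLx, hBx, mem_filter]
      exact ⟨fun h => ⟨⟨H.lsub h.1, h.2⟩, h.1⟩, fun h => ⟨h.2, h.1.2⟩⟩
    rw [this, card_eq_sum_ones Bx, card_filter, ← sum_add_distrib, ← sum_add_distrib]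
    exact sum_congr rfl fun β hβ => card_Ex L (mem_filter.1 hβ).2
  have e3 : ∑ β ∈ Lx, β.card + R.card + 1 ≤ P.card + Lx.card := by
    have hd : Disjoint ({x} : Finset α) (P.erase x \ R) := by simp
    have a1 := H.l11 hd
    have a2 : ∑ β ∈ Lx, β.card = ∑ l ∈ L, (l ∩ {x}).card * (l ∩ (P.erase x \ R)).card + Lx.card := by
      rw [hLx, sum_filter, card_filter, ← sum_add_distrib]
      apply sum_congr rfl
      intro l hl
      by_cases hxl : x ∈ l
      · have : l ∩ (P.erase x \ R) = l.erase x := by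
          ext y
          simp only [hR, mem_inter, mem_sdiff, mem_erase, mem_filter]
          constructor
          · tauto
          · rintro ⟨h1, h2⟩
            exact ⟨h2, ⟨h1, H.sub l (H.lsub hl) h2⟩, fun h => h.2 l hl hxl h2⟩
        rw [this, inter_singleton_of_mem hxl]
        simp only [hxl, if_true, card_singleton, one_mul, card_erase_add_one hxl]
      · simp [hxl]
    have a3 := card_sdiff_add_card_eq_card (show R ⊆ P.erase x from filter_subset _ _)
    have a4 := card_erase_add_one hx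
    rw [card_singleton] at a1
    omega
  omega

/-- number of triples of distinct points -/
def N3 (X Y Z : Finset α) : ℤ := ∑ a ∈ X, ∑ b ∈ Y.erase a, (((Z.erase a).erase b).card : ℤ)

lemma Geo.pair_sum (H : Geo P B L) {a b : α} (ha : a ∈ P) (hb : b ∈ P) (hab : a ≠ b) {W : Finset α}
    (hW : W ⊆ P) (haW : a ∉ W) (hbW : b ∉ W) :
    ∑ β ∈ B, (if a ∈ β ∧ b ∈ β then ((β ∩ W).card : ℤ) else 0) = W.card := by
  have e : ∀ β : Finset α, (if a ∈ β ∧ b ∈ β then ((β ∩ W).card : ℤ) else 0) =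
      ∑ c ∈ W, if a ∈ β ∧ b ∈ β ∧ c ∈ β then (1 : ℤ) else 0 := by
    intro β
    by_cases h : a ∈ β ∧ b ∈ β
    · simp only [h, and_self, if_true, true_and]
      rw [sum_boole, filter_mem_eq_inter, inter_comm]
    · rw [if_neg h]; symm; apply sum_eq_zero; intro c _; rw [if_neg]; tauto
  simp only [e]
  rw [sum_comm, card_eq_sum_ones W]
  push_cast
  apply sum_congr rfl
  intro c hc
  rw [sum_boole]
  have hac : a ≠ c := fun e => haW (e ▸ hc)
  have hbc : b ≠ c := fun e => hbW (e ▸ hc)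
  obtain ⟨β, hβ, h1⟩ := H.ex a ha b hb c (hW hc) hab hac hbc
  have : B.filter (fun β => a ∈ β ∧ b ∈ β ∧ c ∈ β) = {β} := by
    ext γ
    rw [mem_filter, mem_singleton]
    constructor
    · rintro ⟨hγ, h2⟩; exact H.uniq hγ hβ hab hac hbc h2.1 h2.2.1 h2.2.2 h1.1 h1.2.1 h1.2.2
    · rintro rfl; exact ⟨hβ, h1⟩
  rw [this]; simp

lemma Geo.N3_sum (H : Geo P B L) {X Y Z : Finset α} (hX : X ⊆ P) (hY : Y ⊆ P) (hZ : Z ⊆ P) :
    ∑ β ∈ B, N3 (β ∩ X) (β ∩ Y) (β ∩ Z) = N3 X Y Z := by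
  have e : ∀ β : Finset α, N3 (β ∩ X) (β ∩ Y) (β ∩ Z) = ∑ a ∈ X, ∑ b ∈ Y.erase a,
      (if a ∈ β ∧ b ∈ β then ((β ∩ (Z.erase a).erase b).card : ℤ) else 0) := by
    intro β
    unfold N3
    rw [inter_comm β X, ← filter_mem_eq_inter, sum_filter]
    apply sum_congr rfl
    intro a _
    by_cases ha : a ∈ β
    · simp only [ha, if_true, true_and]
      rw [← sum_filter]
      apply sum_congr
      · ext b; simp only [mem_erase, mem_inter, mem_filter]; tauto
      · intro b _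
        congr 2
        ext c; simp only [mem_erase, mem_inter]; tauto
    · simp [ha]
  simp only [e]
  rw [sum_comm]
  apply sum_congr rfl
  intro a ha
  rw [sum_comm]
  apply sum_congr rfl
  intro b hb
  rw [mem_erase] at hb
  exact H.pair_sum (hX ha) (hY hb.2) hb.1.symm
    (fun c hc => hZ (mem_of_mem_erase (mem_of_mem_erase hc))) (by simp) (by simp)

lemma card_erase_int {A : Finset α} {a : α} (h : a ∈ A) : ((A.erase a).card : ℤ) = A.card - 1 := by
  rw [← card_erase_add_one h]; push_cast; ring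

lemma N3_AAB {A A' : Finset α} (h : Disjoint A A') : N3 A A A' = A.card * (A.card - 1) * A'.card := by
  unfold N3
  rw [sum_congr rfl (g := fun _ => ((A.card : ℤ) - 1) * A'.card)]
  · simp; ring
  · intro a ha
    rw [sum_congr rfl (g := fun _ => (A'.card : ℤ))]
    · rw [sum_const, nsmul_eq_mul, card_erase_int ha]
    · intro b hb
      rw [erase_eq_of_notMem (disjoint_left.1 h ha), erase_eq_of_notMem (disjoint_left.1 h (mem_of_mem_erase hb))]

lemma N3_ABB {A A' : Finset α} (h : Disjoint A A') : N3 A A' A' = A.card * A'.card * (A'.card - 1) := by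
  unfold N3
  rw [sum_congr rfl (g := fun _ => (A'.card : ℤ) * (A'.card - 1))]
  · simp; ring
  · intro a ha
    rw [erase_eq_of_notMem (disjoint_left.1 h ha), sum_congr rfl (g := fun _ => (A'.card : ℤ) - 1)]
    · rw [sum_const, nsmul_eq_mul]
    · intro b hb; exact card_erase_int hb

lemma N3_AAA (A : Finset α) : N3 A A A = A.card * (A.card - 1) * (A.card - 2) := by
  unfold N3
  rw [sum_congr rfl (g := fun _ => ((A.card : ℤ) - 1) * (A.card - 2))]
  · simp; ring
  · intro a ha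
    rw [sum_congr rfl (g := fun _ => (A.card : ℤ) - 2)]
    · rw [sum_const, nsmul_eq_mul, card_erase_int ha]
    · intro b hb; rw [card_erase_int hb, card_erase_int ha]; ring

lemma Geo.p1 (H : Geo P B L) {x : α} (hx : x ∈ P) :
    ∑ β ∈ B.filter (fun β => x ∈ β), ((β.card : ℤ) - 1) * (β.card - 2) = (P.card - 1) * (P.card - 2) := by
  have h := H.N3_sum (X := {x}) (Y := P.erase x) (Z := P.erase x) (by simpa using hx) (erase_subset _ _)
    (erase_subset _ _)
  rw [N3_ABB (by simp), card_erase_int hx] at h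
  rw [sum_filter]
  have e : ((P.card : ℤ) - 1) * (P.card - 2) = (({x} : Finset α).card : ℤ) * (P.card - 1) * (P.card - 1 - 1) := by
    simp; left; ring
  rw [e, ← h]
  apply sum_congr rfl
  intro β hβ
  rw [N3_ABB (by rw [disjoint_left]; intro a h1 h2; simp at h1 h2; tauto)]
  by_cases hxβ : x ∈ β
  · have : β ∩ P.erase x = β.erase x := by
      ext y; simp only [mem_inter, mem_erase]
      exact ⟨fun h => ⟨h.2.1, h.1⟩, fun h => ⟨h.2, h.1, H.sub β hβ h.2⟩⟩
    rw [this, inter_singleton_of_mem hxβ, card_erase_int hxβ, if_pos hxβ]; simp; left; ring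
  · simp [hxβ]

lemma sum_point (B : Finset (Finset α)) (X : Finset α) (f : Finset α → ℤ) :
    ∑ x ∈ X, ∑ β ∈ B.filter (fun β => x ∈ β), f β = ∑ β ∈ B, ((β ∩ X).card : ℤ) * f β := by
  simp only [sum_filter]
  rw [sum_comm]
  apply sum_congr rfl
  intro β _
  rw [← sum_filter, sum_const, nsmul_eq_mul, filter_mem_eq_inter, inter_comm]

lemma Geo.sum_L (H : Geo P B L) (f : Finset α → ℤ) :
    ∑ β ∈ L, f β = ∑ β ∈ B, (if β ∈ L then 1 else 0) * f β := by
  simp only [ite_mul, one_mul, zero_mul]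
  rw [← sum_filter, filter_mem_eq_inter, inter_eq_right.2 H.lsub]

lemma Geo.mp (H : Geo P B L) {X : Finset α} (hX : X ⊆ P) :
    3 * (X.card : ℤ) ≤ ∑ β ∈ B, ((β ∩ X).card : ℤ) * (4 - β.card) := by
  rw [← sum_point, mul_comm, ← nsmul_eq_mul, ← sum_const]
  apply sum_le_sum
  intro x hx
  have := H.p2 (hX hx)
  rw [sum_sub_distrib, sum_const, nsmul_eq_mul]
  zify at this
  linarith

lemma Geo.mq (H : Geo P B L) {X : Finset α} (hX : X ⊆ P) :
    (X.card : ℤ) * (4 - P.card) ≤ ∑ β ∈ B, (((β ∩ X).card : ℤ) * (4 - β.card) -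
      (if β ∈ L then 1 else 0) * ((β ∩ X).card * β.card)) := by
  rw [sum_sub_distrib, ← H.sum_L, ← sum_point, ← sum_point, ← sum_sub_distrib, ← nsmul_eq_mul, ← sum_const]
  apply sum_le_sum
  intro x hx
  have := H.p3 (hX hx)
  rw [sum_sub_distrib, sum_const, nsmul_eq_mul]
  zify at this
  linarith

/-- the slack of one block in the linear programming bound -/
def FF (D y1 y2 y3 p q r s t i j e : ℤ) : ℤ :=
  D * (1 - e) - (y1 * (i * (i - 1) * j) + y2 * (i * j * (j - 1)) + y3 * (j * (j - 1) * (j - 2))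
    + p * (i * (4 - (i + j))) + q * (j * (4 - (i + j)))
    + r * (i * (4 - (i + j)) - e * (i * (i + j))) + s * (j * (4 - (i + j)) - e * (j * (i + j)))
    - t * (e * (i * j)))

def RR (y1 y2 y3 p q r s t m k : ℤ) : ℤ :=
  y1 * (m * (m - 1) * k) + y2 * (m * k * (k - 1)) + y3 * (k * (k - 1) * (k - 2))
    + p * (3 * m) + q * (3 * k) + r * (m * (4 - (m + k))) + s * (k * (4 - (m + k))) - t * (m * k)

lemma Geo.master (H : Geo P B L) {C : Finset α} (hC : C ⊆ P) (D y1 y2 y3 p q r s t : ℤ)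
    (hp : 0 ≤ p) (hq : 0 ≤ q) (hr : 0 ≤ r) (hs : 0 ≤ s) (ht : 0 ≤ t) :
    ∑ β ∈ B, FF D y1 y2 y3 p q r s t (β ∩ C).card (β ∩ (P \ C)).card (if β ∈ L then 1 else 0)
      + RR y1 y2 y3 p q r s t C.card (P \ C).card ≤ D * (B \ L).card := by
  have hd : Disjoint C (P \ C) := disjoint_sdiff
  have hd' : ∀ β : Finset α, Disjoint (β ∩ C) (β ∩ (P \ C)) := fun β =>
    hd.mono inter_subset_right inter_subset_right
  have hs' : P \ C ⊆ P := sdiff_subset
  have t1 := H.N3_sum hC hC hs'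
  have t2 := H.N3_sum hC hs' hs'
  have t3 := H.N3_sum hs' hs' hs'
  simp only [N3_AAB (hd' _), N3_AAB hd] at t1
  simp only [N3_ABB (hd' _), N3_ABB hd] at t2
  simp only [N3_AAA] at t3
  have m1 := H.mp hC
  have m2 := H.mp hs'
  have m3 := H.mq hC
  have m4 := H.mq hs'
  have m5 := H.l11 hd
  zify at m5
  rw [H.sum_L] at m5
  have hn : (P.card : ℤ) = C.card + (P \ C).card := by
    rw [← card_sdiff_add_card_eq_card hC]; push_cast; ring
  have hβ : ∀ β ∈ B, (β.card : ℤ) = (β ∩ C).card + (β ∩ (P \ C)).card := by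
    intro β hβ
    rw [← Nat.cast_add, ← card_union_of_disjoint (hd' β), ← inter_union_distrib_left,
      union_sdiff_of_subset hC, inter_eq_left.2 (H.sub β hβ)]
  have hc : ((B \ L).card : ℤ) = ∑ β ∈ B, (1 - (if β ∈ L then 1 else 0)) := by
    rw [sum_sub_distrib, sum_boole, filter_mem_eq_inter, inter_eq_right.2 H.lsub, sum_const,
      ← card_sdiff_add_card_eq_card H.lsub]
    simp
  have e : ∑ β ∈ B, FF D y1 y2 y3 p q r s t (β ∩ C).card (β ∩ (P \ C)).card (if β ∈ L then 1 else 0) =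
      D * ∑ β ∈ B, ((1 : ℤ) - (if β ∈ L then 1 else 0))
      - (y1 * ∑ β ∈ B, ((β ∩ C).card : ℤ) * ((β ∩ C).card - 1) * (β ∩ (P \ C)).card
        + y2 * ∑ β ∈ B, ((β ∩ C).card : ℤ) * (β ∩ (P \ C)).card * ((β ∩ (P \ C)).card - 1)
        + y3 * ∑ β ∈ B, ((β ∩ (P \ C)).card : ℤ) * ((β ∩ (P \ C)).card - 1) * ((β ∩ (P \ C)).card - 2)
        + p * ∑ β ∈ B, ((β ∩ C).card : ℤ) * (4 - β.card)
        + q * ∑ β ∈ B, ((β ∩ (P \ C)).card : ℤ) * (4 - β.card)
        + r * ∑ β ∈ B, (((β ∩ C).card : ℤ) * (4 - β.card) -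
          (if β ∈ L then 1 else 0) * ((β ∩ C).card * β.card))
        + s * ∑ β ∈ B, (((β ∩ (P \ C)).card : ℤ) * (4 - β.card) -
          (if β ∈ L then 1 else 0) * ((β ∩ (P \ C)).card * β.card))
        - t * ∑ β ∈ B, (if β ∈ L then 1 else 0) * (((β ∩ C).card : ℤ) * (β ∩ (P \ C)).card)) := by
    simp only [mul_sum, ← sum_add_distrib, ← sum_sub_distrib]
    apply sum_congr rfl
    intro β h
    rw [hβ β h]; unfold FF; ring
  rw [e, t1, t2, t3, ← hc]
  unfold RR
  rw [hn] at m3 m4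
  nlinarith [mul_le_mul_of_nonneg_left m1 hp, mul_le_mul_of_nonneg_left m2 hq,
    mul_le_mul_of_nonneg_left m3 hr, mul_le_mul_of_nonneg_left m4 hs, mul_le_mul_of_nonneg_left m5 ht]

lemma Geo.miquel (H : Geo P B L) {a1 a2 a3 a4 b1 b2 b3 b4 : α} {F0 F1 F2 F3 F4 F5 : Finset α}
    (h0 : F0 ∈ B) (h1 : F1 ∈ B) (h2 : F2 ∈ B) (h3 : F3 ∈ B) (h4 : F4 ∈ B) (h5 : F5 ∈ B)
    (m0 : a1 ∈ F0 ∧ a2 ∈ F0 ∧ a3 ∈ F0 ∧ a4 ∈ F0) (m1 : a1 ∈ F1 ∧ a2 ∈ F1 ∧ b2 ∈ F1 ∧ b1 ∈ F1)
    (m2 : a2 ∈ F2 ∧ a3 ∈ F2 ∧ b3 ∈ F2 ∧ b2 ∈ F2) (m3 : a3 ∈ F3 ∧ a4 ∈ F3 ∧ b4 ∈ F3 ∧ b3 ∈ F3)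
    (m4 : a4 ∈ F4 ∧ a1 ∈ F4 ∧ b1 ∈ F4 ∧ b4 ∈ F4) (m5 : b1 ∈ F5 ∧ b2 ∈ F5 ∧ b3 ∈ F5)
    (n1 : a1 ≠ a2) (n2 : a2 ≠ a3) (n3 : a3 ≠ a4) (n4 : a4 ≠ a1) (n5 : b1 ≠ b2) (n6 : b2 ≠ b3)
    (n7 : b1 ≠ b3) (n8 : a1 ≠ b1) (n9 : a2 ≠ b2) (n10 : a3 ≠ b3) (n11 : a4 ≠ b4) : b4 ∈ F5 := by
  by_contra hb
  obtain ⟨D, hs, hn, hf, hr, -, -⟩ := H.dir
  have n12 : b3 ≠ b4 := fun e => hb (e ▸ m5.2.2)
  have n13 : b4 ≠ b1 := fun e => hb (e ▸ m5.1)
  have e0 := hf F0 h0 a1 m0.1 a2 m0.2.1 a3 m0.2.2.1 a4 m0.2.2.2 n1 n2 n3 n4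
  have e1 := hf F1 h1 a1 m1.1 a2 m1.2.1 b2 m1.2.2.1 b1 m1.2.2.2 n1 n9 n5.symm n8.symm
  have e2 := hf F2 h2 a2 m2.1 a3 m2.2.1 b3 m2.2.2.1 b2 m2.2.2.2 n2 n10 n6.symm n9.symm
  have e3 := hf F3 h3 a3 m3.1 a4 m3.2.1 b4 m3.2.2.1 b3 m3.2.2.2 n3 n11 n12.symm n10.symm
  have e4 := hf F4 h4 a4 m4.1 a1 m4.2.1 b1 m4.2.2.1 b4 m4.2.2.2 n4 n8 n13.symm n11.symm
  apply hb
  apply hr F5 h5 b1 m5.1 b2 m5.2.1 b3 m5.2.2 b4 (H.sub F3 h3 m3.2.2.1) n5 n6 n7 n12 n13
  rw [hs b2 b1, hs b1 a1] at e1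
  rw [hs b3 b2, hs b2 a2] at e2
  rw [hs b4 b3, hs b3 a3] at e3
  rw [hs b1 b4, hs b4 a4] at e4
  apply mul_left_cancel₀ (mul_ne_zero (hn _ _ n1) (hn _ _ n3))
  linear_combination (D a3 a4 * D b3 b4) * e1 + (D a2 b2 * D a1 b1) * e3 - (D a4 a1 * D b4 b1) * e2
    - (D a3 b3 * D a2 b2) * e4 - (D b2 b3 * D b4 b1) * e0

lemma q7_core {f1 f2 f3 f4 : ℂ} (h2 : f2 ≠ 0) (h3 : f3 ≠ 0) (h4 : f4 ≠ 0)
    (e1 : f1 * f2 = f3 * f4) (e2 : f1 * f3 = f2 * f4) (e3 : f1 * f4 = f2 * f3) :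
    f1 = f2 ∨ f1 = f3 ∨ f1 = f4 ∨ f2 = f3 := by
  have a2 : (f1 - f2) * (f1 + f2) = 0 := by
    apply mul_left_cancel₀ (mul_ne_zero h3 h4)
    linear_combination (f1 * f4) * e2 + (f2 * f4) * e3
  have a3 : (f1 - f3) * (f1 + f3) = 0 := by
    apply mul_left_cancel₀ (mul_ne_zero h2 h4)
    linear_combination (f1 * f4) * e1 + (f3 * f4) * e3
  rcases mul_eq_zero.1 a2 with h | h
  · left; linear_combination h
  rcases mul_eq_zero.1 a3 with h' | h'
  · right; left; linear_combination h'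
  · right; right; right; linear_combination h - h'

/-- a block through `x`, or a line if `x` is the point at infinity -/
def Thru (L : Finset (Finset α)) (x : Option α) (β : Finset α) : Prop :=
  match x with
  | none => β ∈ L
  | some y => y ∈ β

lemma Geo.q7 (H : Geo P B L) {x : Option α} {a a' b b' c c' : α} {l1 l2 l3 l4 g1 g2 g3 : Finset α}
    (h1 : l1 ∈ B) (h2 : l2 ∈ B) (h3 : l3 ∈ B) (h4 : l4 ∈ B) (k1 : g1 ∈ B) (k2 : g2 ∈ B) (k3 : g3 ∈ B)
    (t1 : Thru L x l1) (t2 : Thru L x l2) (t3 : Thru L x l3) (t4 : Thru L x l4)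
    (m1 : a ∈ l1 ∧ b ∈ l1 ∧ c' ∈ l1) (m2 : a ∈ l2 ∧ b' ∈ l2 ∧ c ∈ l2)
    (m3 : a' ∈ l3 ∧ b ∈ l3 ∧ c ∈ l3) (m4 : a' ∈ l4 ∧ b' ∈ l4 ∧ c' ∈ l4)
    (n1 : b' ∉ l1) (n2 : c ∉ l1) (n3 : a' ∉ l1) (n4 : b ∉ l2)
    (r1 : b ∈ g1 ∧ b' ∈ g1 ∧ c ∈ g1 ∧ c' ∈ g1) (r2 : a ∈ g2 ∧ a' ∈ g2 ∧ c ∈ g2 ∧ c' ∈ g2)
    (r3 : a ∈ g3 ∧ a' ∈ g3 ∧ b ∈ g3 ∧ b' ∈ g3)
    (hd : List.Pairwise (· ≠ ·) [x, some a, some a', some b, some b', some c, some c']) : False := by
  obtain ⟨D, hs, hn, hf, hr, lf, lr⟩ := H.dir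
  obtain ⟨E, Es, En, Ef, Elf, Elr⟩ : ∃ E : α → α → ℂ, (∀ u w, E u w = E w u) ∧
      (∀ u w, u ≠ w → x ≠ some u → x ≠ some w → E u w ≠ 0) ∧
      (∀ β ∈ B, ∀ u ∈ β, ∀ w ∈ β, ∀ y ∈ β, ∀ z ∈ β, u ≠ w → w ≠ y → y ≠ z → z ≠ u →
        E u w * E y z = E w y * E z u) ∧
      (∀ β ∈ B, Thru L x β → ∀ u ∈ β, ∀ w ∈ β, ∀ y ∈ β, u ≠ w → u ≠ y → x ≠ some u → x ≠ some w →
        x ≠ some y → E u w = E u y) ∧
      (∀ β ∈ B, Thru L x β → ∀ u ∈ β, ∀ w ∈ β, ∀ y ∈ P, u ≠ w → u ≠ y → x ≠ some u → x ≠ some w →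
        x ≠ some y → E u w = E u y → y ∈ β) := by
    cases x with
    | none =>
      exact ⟨D, hs, fun u w h _ _ => hn u w h, hf, fun β _ t u hu w hw y hy h h' _ _ _ => lf β t u hu w hw y hy h h',
        fun β _ t u hu w hw y hy h h' _ _ _ => lr β t u hu w hw y hy h h'⟩
    | some o =>
      refine ⟨fun u w => D u w / (D u o * D w o), fun u w => by simp only [hs u w, mul_comm], ?_, ?_, ?_, ?_⟩
      · intro u w h hu hw
        simp only [ne_eq, Option.some.injEq] at hu hw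
        exact div_ne_zero (hn _ _ h) (mul_ne_zero (hn _ _ (Ne.symm hu)) (hn _ _ (Ne.symm hw)))
      · intro β hβ u hu w hw y hy z hz p1 p2 p3 p4
        have := hf β hβ u hu w hw y hy z hz p1 p2 p3 p4
        simp only
        rw [div_mul_div_comm, div_mul_div_comm, this]
        congr 1; ring
      · intro β hβ t u hu w hw y hy p1 p2 q1 q2 q3
        simp only [ne_eq, Option.some.injEq] at q1 q2 q3
        have := hf β hβ w hw u hu y hy o t p1.symm p2 (Ne.symm q3) q2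
        simp only
        rw [div_eq_div_iff (mul_ne_zero (hn _ _ (Ne.symm q1)) (hn _ _ (Ne.symm q2)))
          (mul_ne_zero (hn _ _ (Ne.symm q1)) (hn _ _ (Ne.symm q3)))]
        rw [hs w u, hs o w] at this
        linear_combination (D u o) * this
      · intro β hβ t u hu w hw y hy p1 p2 q1 q2 q3 e
        simp only [ne_eq, Option.some.injEq] at q1 q2 q3
        simp only at e
        rw [div_eq_div_iff (mul_ne_zero (hn _ _ (Ne.symm q1)) (hn _ _ (Ne.symm q2)))
          (mul_ne_zero (hn _ _ (Ne.symm q1)) (hn _ _ (Ne.symm q3)))] at e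
        apply hr β hβ o t w hw u hu y hy q2 p1.symm q1 p2 (Ne.symm q3)
        apply mul_left_cancel₀ (hn _ _ (Ne.symm q1))
        rw [hs o w, hs w u]
        linear_combination - e
  simp only [List.pairwise_cons, List.mem_cons, List.not_mem_nil, or_false, forall_eq_or_imp, forall_eq,
    ne_eq, Option.some.injEq] at hd
  obtain ⟨⟨xa, xa', xb, xb', xc, xc'⟩, ⟨aa', ab, ab', ac, ac'⟩, ⟨a'b, a'b', a'c, a'c'⟩, ⟨bb', bc, bc'⟩,
    ⟨b'c, b'c'⟩, cc', -⟩ := hd
  have S := fun {u w : α} (h : ¬ u = w) => (Ne.symm h : w ≠ u)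
  -- directions of the four lines
  have u1 : E b c' = E a b := by rw [Es a b]; exact Elf l1 h1 t1 b m1.2.1 c' m1.2.2 a m1.1 bc' (S ab) xb xc' xa
  have u2 : E a c' = E a b := Elf l1 h1 t1 a m1.1 c' m1.2.2 b m1.2.1 ac' ab xa xc' xb
  have v1 : E c b' = E a c := by rw [Es a c]; exact Elf l2 h2 t2 c m2.2.2 b' m2.2.1 a m2.1 (S b'c) (S ac) xc xb' xa
  have v2 : E a b' = E a c := Elf l2 h2 t2 a m2.1 b' m2.2.1 c m2.2.2 ab' ac xa xb' xc
  have w1 : E c a' = E b c := by rw [Es b c]; exact Elf l3 h3 t3 c m3.2.2 a' m3.1 b m3.2.1 (S a'c) (S bc) xc xa' xb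
  have w2 : E b a' = E b c := Elf l3 h3 t3 b m3.2.1 a' m3.1 c m3.2.2 (S a'b) bc xb xa' xc
  have z1 : E b' c' = E a' c' := by
    rw [Es b' c', Es a' c']; exact Elf l4 h4 t4 c' m4.2.2 b' m4.2.1 a' m4.1 (S b'c') (S a'c') xc' xb' xa'
  have z2 : E a' b' = E a' c' := Elf l4 h4 t4 a' m4.1 b' m4.2.1 c' m4.2.2 a'b' a'c' xa' xb' xc'
  have e1 := Ef g1 k1 b r1.1 c r1.2.2.1 b' r1.2.1 c' r1.2.2.2 bc (S b'c) b'c' (S bc')
  have e2 := Ef g2 k2 a r2.1 c r2.2.2.1 a' r2.2.1 c' r2.2.2.2 ac (S a'c) a'c' (S ac')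
  have e3 := Ef g3 k3 a r3.1 b r3.2.2.1 a' r3.2.1 b' r3.2.2.2 ab (S a'b) a'b' (S ab')
  rw [z1, v1, Es c' b, u1] at e1
  rw [w1, Es c' a, u2] at e2
  rw [z2, w2, Es b' a, v2] at e3
  rcases q7_core (f1 := E a b) (f2 := E a c) (f3 := E b c) (f4 := E a' c') (En _ _ ac xa xc) (En _ _ bc xb xc)
    (En _ _ a'c' xa' xc') (by linear_combination - e1) (by linear_combination - e2) (by linear_combination e3)
    with h | h | h | h
  · exact n1 (Elr l1 h1 t1 a m1.1 b m1.2.1 b' (H.sub l2 h2 m2.2.1) ab ab' xa xb xb' (by rw [v2, h]))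
  · exact n2 (Elr l1 h1 t1 b m1.2.1 a m1.1 c (H.sub l2 h2 m2.2.2) (S ab) bc xb xa xc (by rw [Es b a, h]))
  · exact n3 (Elr l1 h1 t1 c' m1.2.2 a m1.1 a' (H.sub l3 h3 m3.1) (S ac') (S a'c') xc' xa xa'
      (by rw [Es c' a, u2, h, Es]))
  · exact n4 (Elr l2 h2 t2 c m2.2.2 a m2.1 b (H.sub l1 h1 m1.2.1) (S ac) (S bc) xc xa xb
      (by rw [Es c a, h, Es]))

end Pool.Agent.MP_1f1ca1_co

end

section

/-! Linear programming bounds for the number of non-collinear blocks. -/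

set_option autoImplicit false
set_option linter.unusedSectionVars false

namespace Pool.Agent.MP_1f1ca1_co
open Finset

variable {α : Type} [DecidableEq α] {P : Finset α} {B L : Finset (Finset α)}

lemma Geo.split (H : Geo P B L) {C β : Finset α} (hC : C ⊆ P) (hβ : β ∈ B) :
    β.card = (β ∩ C).card + (β ∩ (P \ C)).card := by
  rw [← card_union_of_disjoint (disjoint_sdiff.mono inter_subset_right inter_subset_right),
    ← inter_union_distrib_left, union_sdiff_of_subset hC, inter_eq_left.2 (H.sub β hβ)]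

lemma Geo.masterC (H : Geo P B L) {C : Finset α} (hC : C ∈ B) {M : ℕ} (hM : ∀ β ∈ B, β.card ≤ M)
    (D y1 y2 y3 p q r s t : ℤ) (hp : 0 ≤ p) (hq : 0 ≤ q) (hr : 0 ≤ r) (hs : 0 ≤ s) (ht : 0 ≤ t)
    (h : ∀ i j e : ℕ, i ≤ 2 → e ≤ 1 → 3 ≤ i + j → i + j ≤ M → (C ∈ L → e = 1 → i ≤ 1) →
      0 ≤ FF D y1 y2 y3 p q r s t i j e) :
    FF D y1 y2 y3 p q r s t C.card 0 (if C ∈ L then 1 else 0)
      + RR y1 y2 y3 p q r s t C.card (P \ C).card ≤ D * (B \ L).card := by
  refine le_trans ?_ (H.master (H.sub C hC) D y1 y2 y3 p q r s t hp hq hr hs ht)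
  rw [← add_sum_erase B _ hC, inter_self, inter_sdiff_self, card_empty, Nat.cast_zero]
  have : 0 ≤ ∑ β ∈ B.erase C, FF D y1 y2 y3 p q r s t (β ∩ C).card (β ∩ (P \ C)).card
      (if β ∈ L then 1 else 0) := by
    apply sum_nonneg
    intro β hβ
    rw [mem_erase] at hβ
    have e := H.split (H.sub C hC) hβ.2
    have := h (β ∩ C).card (β ∩ (P \ C)).card (if β ∈ L then 1 else 0) (H.inter_le_two hβ.2 hC hβ.1)
      (by split_ifs <;> omega) (by rw [← e]; exact H.three β hβ.2) (by rw [← e]; exact hM β hβ.2)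
      (fun hCL he => H.inter_le_one (by by_contra hn; simp [hn] at he) hCL hβ.1)
    push_cast at this
    exact this
  linarith

lemma Geo.boundA (H : Geo P B L) {C : Finset α} (hC : C ∈ B) :
    4 * (1 - (if C ∈ L then 1 else 0)) + (C.card : ℤ) * (P \ C).card *
      (2 * C.card - (P \ C).card - 3 + 2 * (if C ∈ L then 1 else 0)) ≤ 4 * (B \ L).card := by
  have := H.masterC hC (M := P.card) (fun β hβ => card_le_card (H.sub β hβ)) 4 2 (-1) 0 0 0 0 0
    (2 - 2 * (if C ∈ L then 1 else 0)) le_rfl le_rfl le_rfl le_rfl (by split_ifs <;> norm_num) (by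
      intro i j e hi he h3 _ hL
      unfold FF
      have hj : (0 : ℤ) ≤ j := Nat.cast_nonneg j
      have h1 : (0 : ℤ) ≤ j * (j - 1) := by
        rcases Nat.eq_zero_or_pos j with h | h
        · simp [h]
        · have : (1 : ℤ) ≤ j := by exact_mod_cast h
          nlinarith
      have h2 : (0 : ℤ) ≤ (j - 1) * (j - 2) := by
        rcases le_or_gt (j : ℤ) 1 with h | h
        · nlinarith
        · nlinarith
      by_cases hCL : C ∈ L
      · simp only [hCL, if_true]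
        interval_cases i <;> interval_cases e <;> push_cast <;> first | nlinarith | (have := hL hCL rfl; omega)
      · simp only [hCL, if_false]
        interval_cases i <;> interval_cases e <;> push_cast <;> nlinarith)
  unfold FF RR at this
  linarith

lemma Geo.boundB (H : Geo P B L) {M : ℕ} (h4 : 4 ≤ M) (hM : ∀ β ∈ B, β.card ≤ M) :
    3 * ((M : ℤ) - 1) * (P.card * (P.card - 1) * (P.card - 2)) + 9 * (M ^ 2 + 2) * P.card
      - M * (M + 2) * (P.card * (P.card - 1)) ≤ 9 * M * (M + 2) * (B \ L).card := by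
  have h4' : (4 : ℤ) ≤ M := by exact_mod_cast h4
  have := H.master (C := ∅) (empty_subset _) (9 * M * (M + 2)) 0 0 (3 * ((M : ℤ) - 1)) 0
    (2 * M ^ 2 - 2 * M + 6) 0 (M * (M + 2)) 0 le_rfl (by nlinarith) le_rfl (by nlinarith) le_rfl
  have h0 : 0 ≤ ∑ β ∈ B, FF (9 * M * (M + 2)) 0 0 (3 * ((M : ℤ) - 1)) 0
      (2 * M ^ 2 - 2 * M + 6) 0 (M * (M + 2)) 0 (β ∩ ∅).card (β ∩ (P \ ∅)).card (if β ∈ L then 1 else 0) := by
    apply sum_nonneg
    intro β hβ
    rw [inter_empty, sdiff_empty, inter_eq_left.2 (H.sub β hβ), card_empty]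
    have a1 : (3 : ℤ) ≤ β.card := by exact_mod_cast H.three β hβ
    have a2 : (β.card : ℤ) ≤ M := by exact_mod_cast hM β hβ
    generalize (β.card : ℤ) = s at a1 a2
    have a3 : 0 ≤ 3 * (s - 3) * (M - s) * ((M - 1) * s - (M + 2)) :=
      mul_nonneg (mul_nonneg (by linarith) (by linarith)) (by nlinarith)
    have a4 : 0 ≤ (M : ℤ) * (M + 2) * (s ^ 2 - 9) := mul_nonneg (by nlinarith) (by nlinarith)
    unfold FF
    split_ifs
    · push_cast; nlinarith
    · push_cast; nlinarith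
  unfold RR at this
  rw [sdiff_empty, card_empty] at this
  rw [sdiff_empty] at h0
  push_cast at this h0
  nlinarith

/-- the claimed minimum -/
def tgt (n : ℕ) : ℕ :=
  if n = 6 then 8 else if n = 7 then 11 else if n = 8 then 17 else (n - 1).choose 2 + 1 - (n - 1) / 2

lemma tgt_le {n : ℕ} (h : 9 ≤ n) : 4 * (tgt n : ℤ) ≤ 2 * ((n : ℤ) - 2) ^ 2 + 4 := by
  obtain ⟨k, rfl⟩ : ∃ k, n = k + 2 := ⟨n - 2, by omega⟩
  unfold tgt
  rw [if_neg (by omega), if_neg (by omega), if_neg (by omega)]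
  have e : k + 2 - 1 = k + 1 := rfl
  rw [e, Nat.choose_two_right, Nat.add_sub_cancel]
  have h1 : 2 * ((k + 1) * k / 2) ≤ (k + 1) * k := Nat.mul_div_le _ _
  have h2 : k ≤ 2 * ((k + 1) / 2) := by omega
  have h3 : 4 * ((k + 1) * k / 2 + 1 - (k + 1) / 2) ≤ 2 * k ^ 2 + 4 := by
    have : 2 * ((k + 1) * k) = 2 * k ^ 2 + 2 * k := by ring
    omega
  have h4 : ((k + 2 : ℕ) : ℤ) - 2 = k := by push_cast; ring
  rw [h4]
  exact_mod_cast h3

lemma polyA (m k : ℤ) (hk : 1 ≤ k) (hm : k ≤ m + 1) (hn : 23 ≤ m + k) :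
    2 * (m + k - 2) ^ 2 < 4 + m * k * (2 * m - k - 3) := by
  by_cases h : 12 ≤ k
  · obtain ⟨u, rfl⟩ : ∃ u, k = 12 + u := ⟨k - 12, by ring⟩
    obtain ⟨t, rfl⟩ : ∃ t, m = 11 + u + t := ⟨m - 11 - u, by ring⟩
    have hu : 0 ≤ u := by linarith
    have ht : 0 ≤ t := by linarith
    have : 0 ≤ 264 * t + 125 * u + 22 * t * t + 57 * t * u + 22 * u * u + 2 * t * t * u + 3 * t * u * u
      + u * u * u := by positivity
    nlinarith
  · obtain ⟨u, rfl⟩ : ∃ u, m = 23 - k + u := ⟨m - 23 + k, by ring⟩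
    have hu : 0 ≤ u := by linarith
    have : k < 12 := not_le.1 h
    have := mul_nonneg hu hu
    interval_cases k <;> nlinarith

lemma polyB (M n : ℤ) (h : n = 2 * M + 2 ∨ n = 2 * M + 3) (hn : 23 ≤ n) :
    9 * M * (M + 2) * (n - 2) ^ 2 <
      2 * (3 * (M - 1) * (n * (n - 1) * (n - 2)) + 9 * (M ^ 2 + 2) * n - M * (M + 2) * (n * (n - 1))) := by
  rcases h with rfl | rfl
  · obtain ⟨u, rfl⟩ : ∃ u, M = 11 + u := ⟨M - 11, by ring⟩
    have hu : 0 ≤ u := by omega
    have : 0 ≤ 5936 * u + 1544 * u * u + 136 * u * u * u + 4 * u * u * u * u := by positivity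
    nlinarith
  · obtain ⟨u, rfl⟩ : ∃ u, M = 10 + u := ⟨M - 10, by ring⟩
    have hu : 0 ≤ u := by omega
    have : 0 ≤ 10514 * u + 1949 * u * u + 148 * u * u * u + 4 * u * u * u * u := by positivity
    nlinarith

lemma Geo.exists_max (H : Geo P B L) : ∃ C ∈ B, ∀ β ∈ B, β.card ≤ C.card := by
  obtain ⟨a, b, c, ha, hb, hc, hab, hac, hbc⟩ := two_lt_card_iff.1 (show 2 < P.card from H.big)
  obtain ⟨β, hβ, -⟩ := H.ex a ha b hb c hc hab hac hbc
  exact exists_max_image B card ⟨β, hβ⟩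

lemma Geo.card_lt (H : Geo P B L) {C : Finset α} (hC : C ∈ B) : C.card < P.card := by
  obtain ⟨x, hx, hx'⟩ := H.proper C hC
  exact card_lt_card ⟨H.sub C hC, fun h => hx' (h hx)⟩

lemma Geo.large (H : Geo P B L) (hn : 23 ≤ P.card) : tgt P.card ≤ (B \ L).card := by
  obtain ⟨C, hC, hmax⟩ := H.exists_max
  have h1 := tgt_le (n := P.card) (by omega)
  have h2 := H.card_lt hC
  have h3 := card_sdiff_add_card_eq_card (H.sub C hC)
  have h5 := H.three C hC
  by_cases hm : 2 * C.card + 2 ≤ P.card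
  · have hB := H.boundB (M := (P.card - 2) / 2) (by omega) (fun β hβ => (hmax β hβ).trans (by omega))
    have hp := polyB (((P.card - 2) / 2 : ℕ) : ℤ) P.card (by omega) (by omega)
    have hM : (10 : ℤ) ≤ ((P.card - 2) / 2 : ℕ) := by omega
    generalize (((P.card - 2) / 2 : ℕ) : ℤ) = M at hB hp hM
    have hD : 0 < 9 * M * (M + 2) := by positivity
    have : ((P.card : ℤ) - 2) ^ 2 < 2 * (B \ L).card := by
      apply lt_of_mul_lt_mul_left _ hD.le
      linarith
    omega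
  · have hA := H.boundA hC
    have hp := polyA C.card (P \ C).card (by omega) (by omega) (by omega)
    have e : (C.card : ℤ) + (P \ C).card = P.card := by omega
    rw [e] at hp
    have : (3 : ℤ) * 1 ≤ C.card * (P \ C).card := mul_le_mul (by omega) (by omega) (by norm_num) (by omega)
    have : 2 * ((P.card : ℤ) - 2) ^ 2 < 4 * (B \ L).card := by
      split_ifs at hA <;> nlinarith
    omega

def lpOK (n m l : ℕ) (y : List ℤ) : Bool :=
  match y with
  | [D, y1, y2, y3, p, q, r, s] =>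
    decide (0 < D ∧ 0 ≤ p ∧ 0 ≤ q) && decide (0 ≤ r ∧ 0 ≤ s) &&
      decide (D * ((tgt n : ℤ) - 1) < FF D y1 y2 y3 p q r s 0 m 0 l + RR y1 y2 y3 p q r s 0 m (n - m)) &&
      (List.range 3).all fun i => (List.range (m + 1)).all fun j => (List.range 2).all fun e =>
        decide (i + j < 3) || decide (m < i + j) || decide (l = 1 ∧ e = 1 ∧ 1 < i) ||
        decide (0 ≤ FF D y1 y2 y3 p q r s 0 (i : ℕ) (j : ℕ) (e : ℕ))
  | _ => false

def lpTab : List (ℕ × ℕ × ℕ × List ℤ) :=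
  [(13, 7, 0, [1764, 568, -127, 16, 0, 40, 276, 36]),
   (14, 7, 0, [252, 49, 14, 8, 15, 40, 28, 28]),
   (15, 6, 0, [144, 21, 15, 3, 14, 26, 16, 16]),
   (15, 6, 1, [144, 27, 9, 5, 18, 22, 8, 16]),
   (15, 7, 0, [108, 16, 11, 2, 10, 20, 12, 12]),
   (15, 7, 1, [252, 49, 14, 8, 30, 40, 13, 28]),
   (16, 7, 0, [108, 16, 11, 2, 10, 20, 12, 12]),
   (16, 7, 1, [252, 49, 14, 8, 30, 40, 13, 28]),
   (16, 8, 0, [720, 144, 36, 21, 37, 118, 80, 80]),
   (17, 8, 0, [180, 27, 18, 3, 16, 34, 20, 20]),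
   (17, 8, 1, [720, 144, 36, 21, 82, 118, 35, 80]),
   (18, 8, 0, [180, 27, 18, 3, 16, 34, 20, 20]),
   (18, 8, 1, [720, 144, 36, 21, 82, 118, 35, 80]),
   (18, 9, 0, [1188, 243, 54, 32, 53, 200, 132, 132]),
   (19, 9, 0, [1188, 243, 54, 32, 53, 200, 132, 132]),
   (20, 9, 0, [396, 60, 39, 6, 34, 76, 44, 44]),
   (20, 9, 1, [1188, 243, 54, 32, 130, 200, 55, 132]),
   (21, 10, 0, [360, 75, 15, 9, 14, 62, 40, 40]),
   (22, 10, 0, [72, 11, 7, 1, 6, 14, 8, 8])]

def caseA (n m l : ℕ) : Bool :=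
  decide (4 * ((tgt n : ℤ) - 1) < 4 * (1 - l) + (m : ℤ) * (n - m) * (2 * m - (n - m) - 3 + 2 * l))

def caseB (n M : ℕ) : Bool :=
  decide (9 * M * (M + 2) * ((tgt n : ℤ) - 1) < 3 * ((M : ℤ) - 1) * (n * (n - 1) * (n - 2))
    + 9 * (M ^ 2 + 2) * n - M * (M + 2) * (n * (n - 1)))

def caseOK (n m l : ℕ) : Bool :=
  decide (6 ≤ n ∧ n ≤ 14 ∧ m ≤ 6) || caseA n m l || caseB n (max m 4) ||
    lpTab.any (fun x => decide (x.1 = n ∧ x.2.1 = m ∧ x.2.2.1 = l) && lpOK n m l x.2.2.2)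

lemma cases_ok : ∀ n < 23, ∀ m < n, ∀ l < 2, 4 ≤ n → 3 ≤ m → caseOK n m l = true := by
  decide +kernel

lemma Geo.lp (H : Geo P B L) {C : Finset α} (hC : C ∈ B) (hmax : ∀ β ∈ B, β.card ≤ C.card) {y : List ℤ}
    (h : lpOK P.card C.card (if C ∈ L then 1 else 0) y = true) : tgt P.card ≤ (B \ L).card := by
  unfold lpOK at h
  split at h
  · rename_i D y1 y2 y3 p q r s
    simp only [Bool.and_eq_true, decide_eq_true_eq, List.all_eq_true, List.mem_range, Bool.or_eq_true] at h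
    obtain ⟨⟨⟨⟨hD, hp, hq⟩, hr, hs⟩, h1⟩, h2⟩ := h
    have := H.masterC hC hmax D y1 y2 y3 p q r s 0 hp hq hr hs le_rfl (fun i j e hi he h3 h4 h5 => by
      rcases h2 i (by omega) j (by omega) e (by omega) with ((h | h) | h) | h
      · omega
      · omega
      · have := h5 (by by_contra hn; simp [hn] at h) h.2.1
        omega
      · exact h)
    have e : ((P \ C).card : ℤ) = P.card - C.card := by
      have := card_sdiff_add_card_eq_card (H.sub C hC); omega
    rw [e] at this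
    push_cast at h1
    have : (tgt P.card : ℤ) - 1 < (B \ L).card := lt_of_mul_lt_mul_left (h1.trans_le this) hD.le
    omega
  · exact absurd h (by simp)

theorem Geo.lower (H : Geo P B L) (h4 : 4 ≤ P.card)
    (eng : 6 ≤ P.card → P.card ≤ 14 → (∀ β ∈ B, β.card ≤ 6) → tgt P.card ≤ (B \ L).card) :
    tgt P.card ≤ (B \ L).card := by
  by_cases hn : 23 ≤ P.card
  · exact H.large hn
  obtain ⟨C, hC, hmax⟩ := H.exists_max
  have h := cases_ok P.card (by omega) C.card (H.card_lt hC) (if C ∈ L then 1 else 0)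
    (by split_ifs <;> omega) h4 (H.three C hC)
  have e : ((P \ C).card : ℤ) = P.card - C.card := by
    have := card_sdiff_add_card_eq_card (H.sub C hC); omega
  unfold caseOK at h
  simp only [Bool.or_eq_true, List.any_eq_true, Bool.and_eq_true] at h
  rcases h with ((h | h) | h) | ⟨x, -, -, h⟩
  · have := of_decide_eq_true h
    exact eng this.1 this.2.1 (fun β hβ => (hmax β hβ).trans this.2.2)
  · have h1 := of_decide_eq_true h
    have h2 := H.boundA hC
    rw [e] at h2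
    push_cast at h1
    have : 4 * ((tgt P.card : ℤ) - 1) < 4 * (B \ L).card := h1.trans_le h2
    omega
  · have h1 := of_decide_eq_true h
    have h2 := H.boundB (M := max C.card 4) (le_max_right _ _) (fun β hβ => (hmax β hβ).trans (le_max_left _ _))
    have hM : (4 : ℤ) ≤ (max C.card 4 : ℕ) := by exact_mod_cast le_max_right _ _
    have : (tgt P.card : ℤ) - 1 < (B \ L).card := lt_of_mul_lt_mul_left (h1.trans_le h2) (by positivity)
    omega
  · exact H.lp hC hmax h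

end Pool.Agent.MP_1f1ca1_co

end

section

/-! Blocks of a planar point set. -/

set_option autoImplicit false

namespace Pool.Agent.MP_1f1ca1_co
open Finset

abbrev Pt := EuclideanSpace ℝ (Fin 2)

noncomputable instance instDecEqPt : DecidableEq Pt := Classical.decEq _

def ev (φ : Fin 4 → ℝ) (p : Pt) : ℝ := φ 0 * (p 0 ^ 2 + p 1 ^ 2) + φ 1 * p 0 + φ 2 * p 1 + φ 3

open Classical in
noncomputable def Bl (P : Finset Pt) : Finset (Finset Pt) :=
  P.powerset.filter (fun β => 3 ≤ β.card ∧ ∃ φ ≠ 0, ∀ p, p ∈ β ↔ p ∈ P ∧ ev φ p = 0)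

open Classical in
noncomputable def Ln (P : Finset Pt) : Finset (Finset Pt) :=
  (Bl P).filter (fun β => ∃ φ ≠ 0, φ 0 = 0 ∧ ∀ p ∈ β, ev φ p = 0)

lemma mem_Bl {P β : Finset Pt} : β ∈ Bl P ↔ 3 ≤ β.card ∧ ∃ φ ≠ 0, ∀ p, p ∈ β ↔ p ∈ P ∧ ev φ p = 0 := by
  classical
  unfold Bl
  rw [mem_filter, mem_powerset]
  exact ⟨fun h => h.2, fun h => ⟨fun p hp => by obtain ⟨φ, -, h'⟩ := h.2; exact ((h' p).1 hp).1, h⟩⟩

lemma mem_Ln {P β : Finset Pt} : β ∈ Ln P ↔ β ∈ Bl P ∧ ∃ φ ≠ 0, φ 0 = 0 ∧ ∀ p ∈ β, ev φ p = 0 := by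
  classical
  unfold Ln; rw [mem_filter]

def vv (x : Pt) : Option Pt → V3
  | none => ![0, 0, 1]
  | some y => ![y 0 - x 0, y 1 - x 1, (y 0 - x 0) ^ 2 + (y 1 - x 1) ^ 2]

def fx (φ : Fin 4 → ℝ) (x : Pt) : V3 := ![φ 1 + 2 * φ 0 * x 0, φ 2 + 2 * φ 0 * x 1, φ 0]

lemma dot_some (φ : Fin 4 → ℝ) (x y : Pt) : dot (vv x (some y)) (fx φ x) = ev φ y - ev φ x := by
  simp [dot, vv, fx, ev]; ring

lemma dot_none (φ : Fin 4 → ℝ) (x : Pt) : dot (vv x none) (fx φ x) = φ 0 := by
  simp [dot, vv, fx]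

lemma fx_ne {φ : Fin 4 → ℝ} (h : φ ≠ 0) {x : Pt} (hx : ev φ x = 0) : fx φ x ≠ 0 := by
  intro h0
  have a0 : φ 0 = 0 := by simpa [fx] using congrFun h0 2
  have a1 : φ 1 = 0 := by simpa [fx, a0] using congrFun h0 0
  have a2 : φ 2 = 0 := by simpa [fx, a0] using congrFun h0 1
  have a3 : φ 3 = 0 := by simpa [ev, a0, a1, a2] using hx
  apply h; ext i; fin_cases i <;> simp [a0, a1, a2, a3]

lemma pt_ext {a b : Pt} (h0 : a 0 = b 0) (h1 : a 1 = b 1) : a = b := by
  ext i; fin_cases i <;> simp [h0, h1]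

lemma sq_pos_of_ne {a b : Pt} (h : a ≠ b) : 0 < (a 0 - b 0) ^ 2 + (a 1 - b 1) ^ 2 := by
  by_contra hc
  apply h
  apply pt_ext <;> nlinarith [sq_nonneg (a 0 - b 0), sq_nonneg (a 1 - b 1)]

lemma crs_vv_ne {x : Pt} {a b : Option Pt} (hab : a ≠ b) (ha : a ≠ some x) (hb : b ≠ some x) :
    crs (vv x a) (vv x b) ≠ 0 := by
  intro h0
  have e0 := congrFun h0 0
  have e1 := congrFun h0 1
  have e2 := congrFun h0 2
  cases a with
  | none =>
    cases b with
    | none => exact hab rfl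
    | some z =>
      simp [crs, vv] at e0 e1
      exact hb (congrArg some (pt_ext (by linarith) (by linarith)))
  | some y =>
    cases b with
    | none =>
      simp [crs, vv] at e0 e1
      exact ha (congrArg some (pt_ext (by linarith) (by linarith)))
    | some z =>
      simp only [crs, vv, Matrix.cons_val_zero, Matrix.cons_val_one, Matrix.cons_val, Pi.zero_apply] at e0 e1 e2
      have p1 := sq_pos_of_ne (show y ≠ x from fun e => ha (congrArg some e))
      have p2 := sq_pos_of_ne (show z ≠ x from fun e => hb (congrArg some e))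
      set U := (y 0 - x 0) ^ 2 + (y 1 - x 1) ^ 2 with hU
      set W := (z 0 - x 0) ^ 2 + (z 1 - x 1) ^ 2 with hW
      have q : U * W * (W - U) = 0 := by
        have c1 : U * W ^ 2 = ((y 0 - x 0) * W) ^ 2 + ((y 1 - x 1) * W) ^ 2 := by rw [hU]; ring
        have c2 : W * U ^ 2 = (U * (z 0 - x 0)) ^ 2 + (U * (z 1 - x 1)) ^ 2 := by rw [hW]; ring
        have c3 : (y 0 - x 0) * W = U * (z 0 - x 0) := by linarith
        have c4 : (y 1 - x 1) * W = U * (z 1 - x 1) := by linarith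
        rw [c3, c4, ← c2] at c1
        linear_combination c1
      have q2 : W = U := by
        rcases mul_eq_zero.1 q with h | h
        · exact absurd h (mul_pos p1 p2).ne'
        · linarith
      rw [q2] at e0 e1
      apply hab
      congr 1
      apply pt_ext
      · apply mul_left_cancel₀ p1.ne'; linarith
      · apply mul_left_cancel₀ p1.ne'; linarith

lemma det_zero_of_orth {a b c φ : V3} (h : φ ≠ 0) (ha : dot a φ = 0) (hb : dot b φ = 0) (hc : dot c φ = 0) :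
    det3 a b c = 0 := by
  by_contra hd
  have k1 := key_id a b c φ ha hb
  have k2 := key_id a b φ φ ha hb
  rw [hc, mul_zero] at k1
  rw [(mul_eq_zero.1 k1.symm).resolve_right hd, zero_mul] at k2
  exact (mul_pos (dot_self_pos (crs_ne_of_det hd)) (dot_self_pos h)).ne' k2

lemma orth_of_det {a b c φ : V3} (h : crs a b ≠ 0) (ha : dot a φ = 0) (hb : dot b φ = 0)
    (hd : det3 a b c = 0) : dot c φ = 0 := by
  have k1 := key_id a b c φ ha hb
  rw [hd, mul_zero] at k1
  exact (mul_eq_zero.1 k1).resolve_left (dot_self_pos h).ne'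

lemma coef_zero {φ ψ : Fin 4 → ℝ} (hψ : ψ ≠ 0) (h0 : ψ 0 = 0) {β : Finset Pt} (h3 : 3 ≤ β.card)
    (h1 : ∀ p ∈ β, ev φ p = 0) (h2 : ∀ p ∈ β, ev ψ p = 0) : φ 0 = 0 := by
  obtain ⟨x, a, b, hx, ha, hb, hxa, hxb, hab⟩ := two_lt_card_iff.1 (show 2 < β.card from h3)
  rw [← dot_none φ x]
  apply orth_of_det (crs_vv_ne (x := x) (a := some a) (b := some b) (by simpa using hab)
    (by simpa using hxa.symm) (by simpa using hxb.symm))
  · rw [dot_some, h1 a ha, h1 x hx, sub_zero]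
  · rw [dot_some, h1 b hb, h1 x hx, sub_zero]
  · apply det_zero_of_orth (fx_ne hψ (h2 x hx))
    · rw [dot_some, h2 a ha, h2 x hx, sub_zero]
    · rw [dot_some, h2 b hb, h2 x hx, sub_zero]
    · rw [dot_none, h0]

lemma Ln_iff {P β : Finset Pt} (hβ : β ∈ Bl P) {φ : Fin 4 → ℝ} (hφ : φ ≠ 0) (h : ∀ p ∈ β, ev φ p = 0) :
    β ∈ Ln P ↔ φ 0 = 0 := by
  rw [mem_Ln]
  constructor
  · rintro ⟨-, ψ, h1, h2, h3⟩
    exact coef_zero h1 h2 (mem_Bl.1 hβ).1 h h3
  · intro h0; exact ⟨hβ, φ, hφ, h0, h⟩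

lemma vec_spec {P β : Finset Pt} (hβ : β ∈ Bl P) {x : Pt} (hx : x ∈ β) :
    ∃ w : V3, w ≠ 0 ∧ ∀ c ∈ Qx P x, (c ∈ Ex (Ln P) x β ↔ dot (vv x c) w = 0) := by
  obtain ⟨-, φ, hφ, h⟩ := mem_Bl.1 hβ
  have hx0 := ((h x).1 hx).2
  refine ⟨fx φ x, fx_ne hφ hx0, fun c hc => ?_⟩
  cases c with
  | none => rw [none_mem_Ex, dot_none, Ln_iff hβ hφ (fun p hp => ((h p).1 hp).2)]
  | some y =>
    rw [some_mem_Qx] at hc
    rw [some_mem_Ex, dot_some, hx0, sub_zero, h y]; tauto

lemma Ex_sub {P β : Finset Pt} (hβ : β ∈ Bl P) (x : Pt) : Ex (Ln P) x β ⊆ Qx P x := by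
  intro c hc
  cases c with
  | none => simp
  | some y =>
    rw [some_mem_Ex] at hc
    obtain ⟨-, φ, -, h⟩ := mem_Bl.1 hβ
    exact (some_mem_Qx _ _ _).2 ⟨hc.1, ((h y).1 hc.2).1⟩

lemma vec_iff {P β : Finset Pt} (hβ : β ∈ Bl P) {x : Pt} (hx : x ∈ β) {a b : Option Pt}
    (ha : a ∈ Ex (Ln P) x β) (hb : b ∈ Ex (Ln P) x β) (hab : a ≠ b) {c : Option Pt} (hc : c ∈ Qx P x) :
    det3 (vv x a) (vv x b) (vv x c) = 0 ↔ c ∈ Ex (Ln P) x β := by
  obtain ⟨w, hw, h⟩ := vec_spec hβ hx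
  have a1 := (h a (Ex_sub hβ x ha)).1 ha
  have a2 := (h b (Ex_sub hβ x hb)).1 hb
  rw [h c hc]
  exact ⟨orth_of_det (crs_vv_ne hab (by rintro rfl; simp at ha) (by rintro rfl; simp at hb)) a1 a2,
    det_zero_of_orth hw a1 a2⟩

lemma det_of_mem {P β : Finset Pt} (hβ : β ∈ Bl P) {x a b c : Pt} (hx : x ∈ β) (ha : a ∈ β) (hb : b ∈ β)
    (hc : c ∈ β) : det3 (vv x (some a)) (vv x (some b)) (vv x (some c)) = 0 := by
  obtain ⟨-, φ, hφ, h⟩ := mem_Bl.1 hβ
  have e := fun p hp => ((h p).1 hp).2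
  apply det_zero_of_orth (fx_ne hφ (e x hx)) <;> rw [dot_some, e x hx, sub_zero] <;> apply e <;> assumption

lemma det_of_mem_Ln {P β : Finset Pt} (hβ : β ∈ Ln P) {x a b : Pt} (hx : x ∈ β) (ha : a ∈ β) (hb : b ∈ β) :
    det3 (vv x (some a)) (vv x none) (vv x (some b)) = 0 := by
  obtain ⟨-, φ, hφ, h0, e⟩ := mem_Ln.1 hβ
  apply det_zero_of_orth (fx_ne hφ (e x hx))
  · rw [dot_some, e x hx, e a ha, sub_zero]
  · rw [dot_none, h0]
  · rw [dot_some, e x hx, e b hb, sub_zero]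

lemma exists_block {P : Finset Pt} {a b c : Pt} (ha : a ∈ P) (hb : b ∈ P) (hc : c ∈ P) (hab : a ≠ b)
    (hac : a ≠ c) (hbc : b ≠ c) : ∃ β ∈ Bl P, a ∈ β ∧ b ∈ β ∧ c ∈ β := by
  classical
  have hn := crs_vv_ne (x := a) (a := some b) (b := some c) (by simpa using hbc)
    (by simpa using hab.symm) (by simpa using hac.symm)
  set n := crs (vv a (some b)) (vv a (some c)) with hn'
  set φ : Fin 4 → ℝ := ![n 2, n 0 - 2 * n 2 * a 0, n 1 - 2 * n 2 * a 1,
    -(n 2 * (a 0 ^ 2 + a 1 ^ 2) + (n 0 - 2 * n 2 * a 0) * a 0 + (n 1 - 2 * n 2 * a 1) * a 1)] with hφ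
  have e1 : fx φ a = n := by
    ext i; fin_cases i <;> simp [fx, hφ]
  have e2 : ev φ a = 0 := by simp [ev, hφ]
  have e3 : ev φ b = 0 := by
    have := dot_some φ a b
    rw [e1, e2, hn', dot_crs, det3_aba] at this; linarith
  have e4 : ev φ c = 0 := by
    have := dot_some φ a c
    rw [e1, e2, hn', dot_crs, det3_abb] at this; linarith
  refine ⟨P.filter (fun p => ev φ p = 0), mem_Bl.2 ⟨?_, φ, ?_, fun p => mem_filter⟩, mem_filter.2 ⟨ha, e2⟩,
    mem_filter.2 ⟨hb, e3⟩, mem_filter.2 ⟨hc, e4⟩⟩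
  · exact two_lt_card_iff.2 ⟨a, b, c, mem_filter.2 ⟨ha, e2⟩, mem_filter.2 ⟨hb, e3⟩, mem_filter.2 ⟨hc, e4⟩,
      hab, hac, hbc⟩
  · intro h0; apply hn; rw [← e1, h0]; ext i; fin_cases i <;> simp [fx]

lemma dist_sq_pt (a b : Pt) : dist a b ^ 2 = (a 0 - b 0) ^ 2 + (a 1 - b 1) ^ 2 := by
  rw [EuclideanSpace.dist_eq, Real.sq_sqrt (by positivity), Fin.sum_univ_two, Real.dist_eq, Real.dist_eq,
    sq_abs, sq_abs]

noncomputable def ctr (φ : Fin 4 → ℝ) : Pt := !₂[- φ 1 / (2 * φ 0), - φ 2 / (2 * φ 0)]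

lemma ev_ctr {φ : Fin 4 → ℝ} (h : φ 0 ≠ 0) (p q : Pt) :
    ev φ p - ev φ q = φ 0 * (dist p (ctr φ) ^ 2 - dist q (ctr φ) ^ 2) := by
  rw [dist_sq_pt, dist_sq_pt]
  simp [ev, ctr]
  field_simp
  ring

lemma ev_zero_iff {φ : Fin 4 → ℝ} (h : φ 0 ≠ 0) {q : Pt} (hq : ev φ q = 0) (p : Pt) :
    ev φ p = 0 ↔ dist p (ctr φ) = dist q (ctr φ) := by
  have := ev_ctr h p q
  rw [hq, sub_zero] at this
  rw [this, mul_eq_zero, sub_eq_zero, sq_eq_sq₀ dist_nonneg dist_nonneg]
  simp [h]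

lemma cospherical_of {φ : Fin 4 → ℝ} (h : φ 0 ≠ 0) {S : Set Pt} (hS : ∀ p ∈ S, ev φ p = 0) :
    EuclideanGeometry.Cospherical S := by
  rcases S.eq_empty_or_nonempty with rfl | ⟨q, hq⟩
  · exact EuclideanGeometry.cospherical_empty
  · exact ⟨ctr φ, dist q (ctr φ), fun p hp => (ev_zero_iff h (hS q hq) p).1 (hS p hp)⟩

lemma collinear_of {φ : Fin 4 → ℝ} (hφ : φ ≠ 0) (h : φ 0 = 0) {S : Set Pt} (hS : ∀ p ∈ S, ev φ p = 0) :
    Collinear ℝ S := by
  rcases S.eq_empty_or_nonempty with rfl | ⟨q, hq⟩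
  · exact collinear_empty ℝ _
  rw [collinear_iff_of_mem hq]
  have hne : 0 < φ 1 ^ 2 + φ 2 ^ 2 := by
    have := dot_self_pos (fx_ne hφ (hS q hq))
    simp [dot, fx, h] at this
    nlinarith
  refine ⟨!₂[- φ 2, φ 1], fun p hp => ⟨((p 1 - q 1) * φ 1 - (p 0 - q 0) * φ 2) / (φ 1 ^ 2 + φ 2 ^ 2), ?_⟩⟩
  have e : φ 1 * (p 0 - q 0) + φ 2 * (p 1 - q 1) = 0 := by
    have a1 := hS p hp
    have a2 := hS q hq
    simp only [ev, h] at a1 a2
    linarith
  apply pt_ext
  · simp; field_simp; linear_combination (φ 1) * e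
  · simp; field_simp; linear_combination (φ 2) * e

noncomputable def cx (p : Pt) : ℂ := ⟨p 0, p 1⟩
noncomputable def ph (u : ℂ) : ℂ := u / (starRingEnd ℂ) u

lemma cx_sub_ne {a b : Pt} (h : a ≠ b) : cx a - cx b ≠ 0 := by
  intro h0
  apply h
  have := sub_eq_zero.1 h0
  exact pt_ext (congrArg Complex.re this) (congrArg Complex.im this)

lemma ph_mul (u w : ℂ) : ph (u * w) = ph u * ph w := by
  simp [ph, div_mul_div_comm]

lemma ph_neg (u : ℂ) : ph (-u) = ph u := by simp [ph]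

lemma ph_ne {u : ℂ} (h : u ≠ 0) : ph u ≠ 0 := by simp [ph, h]

lemma ph_eq_iff {u w : ℂ} (hu : u ≠ 0) (hw : w ≠ 0) : ph u = ph w ↔ u.im * w.re - u.re * w.im = 0 := by
  unfold ph
  rw [div_eq_div_iff (by simpa using hu) (by simpa using hw), Complex.ext_iff]
  simp only [Complex.mul_re, Complex.mul_im, Complex.conj_re, Complex.conj_im]
  constructor
  · intro h; linarith [h.2]
  · intro h; constructor <;> linarith

lemma cyc_iff {a b c d : Pt} (h1 : a ≠ b) (h2 : b ≠ c) (h3 : c ≠ d) (h4 : d ≠ a) :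
    ph (cx a - cx b) * ph (cx c - cx d) = ph (cx b - cx c) * ph (cx d - cx a) ↔
      det3 (vv a (some b)) (vv a (some c)) (vv a (some d)) = 0 := by
  rw [← ph_mul, ← ph_mul, ph_eq_iff (mul_ne_zero (cx_sub_ne h1) (cx_sub_ne h3))
    (mul_ne_zero (cx_sub_ne h2) (cx_sub_ne h4))]
  simp only [cx, det3, vv, Complex.mul_re, Complex.mul_im, Complex.sub_re, Complex.sub_im,
    Matrix.cons_val_zero, Matrix.cons_val_one, Matrix.cons_val]
  constructor
  · intro h; linear_combination h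
  · intro h; linear_combination h

lemma col_iff {a b c : Pt} (h1 : a ≠ b) (h2 : a ≠ c) :
    ph (cx a - cx b) = ph (cx a - cx c) ↔ det3 (vv a (some b)) (vv a none) (vv a (some c)) = 0 := by
  rw [ph_eq_iff (cx_sub_ne h1) (cx_sub_ne h2)]
  simp only [cx, det3, vv, Complex.sub_re, Complex.sub_im,
    Matrix.cons_val_zero, Matrix.cons_val_one, Matrix.cons_val]
  constructor
  · intro h; linear_combination h
  · intro h; linear_combination h

theorem geo_of {P : Finset Pt} (h3 : 3 ≤ P.card) (hc : ¬ Collinear ℝ (P : Set Pt))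
    (hs : ¬ EuclideanGeometry.Cospherical (P : Set Pt)) : Geo P (Bl P) (Ln P) := by
  have hsub : ∀ β ∈ Bl P, β ⊆ P := fun β hβ p hp => by
    obtain ⟨-, φ, -, h⟩ := mem_Bl.1 hβ; exact ((h p).1 hp).1
  refine ⟨h3, hsub, fun β hβ => (mem_Bl.1 hβ).1, fun a ha b hb c hc hab hac hbc =>
    exists_block ha hb hc hab hac hbc, fun β hβ => (mem_Ln.1 hβ).1, ?_, ?_, ?_⟩
  · intro β hβ
    by_contra hn
    push Not at hn
    obtain ⟨-, φ, hφ, h⟩ := mem_Bl.1 hβ
    have e : ∀ p ∈ (P : Set Pt), ev φ p = 0 := fun p hp => ((h p).1 (hn p hp)).2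
    by_cases h0 : φ 0 = 0
    · exact hc (collinear_of hφ h0 e)
    · exact hs (cospherical_of h0 e)
  · intro x _
    exact ⟨vv x, fun β hβ hx a ha b hb hab c hc => vec_iff hβ hx ha hb hab hc⟩
  · refine ⟨fun a b => ph (cx a - cx b), fun a b => by beta_reduce; rw [← ph_neg, neg_sub],
      fun a b h => ph_ne (cx_sub_ne h), ?_, ?_, ?_, ?_⟩
    · intro β hβ a ha b hb c hc d hd h1 h2 h3 h4
      exact (cyc_iff h1 h2 h3 h4).2 (det_of_mem hβ ha hb hc hd)
    · intro β hβ a ha b hb c hc d hd h1 h2 h5 h3 h4 h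
      have := (vec_iff hβ ha (a := some b) (b := some c) (c := some d) (by simp [h1.symm, hb])
        (by simp [h5.symm, hc]) (by simpa using h2) (by simp [h4, hd])).1 ((cyc_iff h1 h2 h3 h4).1 h)
      exact ((some_mem_Ex _ _ _ _).1 this).2
    · intro β hβ a ha b hb c hc h1 h2
      exact (col_iff h1 h2).2 (det_of_mem_Ln hβ ha hb hc)
    · intro β hβ a ha b hb c hc h1 h2 h
      have := (vec_iff (mem_Ln.1 hβ).1 ha (a := some b) (b := none) (c := some c) (by simp [h1.symm, hb])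
        (by simp [hβ]) (by simp) (by simp [h2.symm, hc])).1 ((col_iff h1 h2).1 h)
      exact ((some_mem_Ex _ _ _ _).1 this).2

def sphφ (s : EuclideanGeometry.Sphere Pt) : Fin 4 → ℝ :=
  ![1, -2 * s.center 0, -2 * s.center 1, s.center 0 ^ 2 + s.center 1 ^ 2 - s.radius ^ 2]

lemma ev_sph (s : EuclideanGeometry.Sphere Pt) (p : Pt) :
    ev (sphφ s) p = dist p s.center ^ 2 - s.radius ^ 2 := by
  rw [dist_sq_pt]; simp [ev, sphφ]; ring

lemma sphφ_ne (s : EuclideanGeometry.Sphere Pt) : sphφ s ≠ 0 := by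
  intro h; have := congrFun h 0; simp [sphφ] at this

lemma mem_sph_iff {s : EuclideanGeometry.Sphere Pt} (hr : 0 ≤ s.radius) (p : Pt) :
    p ∈ s ↔ ev (sphφ s) p = 0 := by
  rw [ev_sph, EuclideanGeometry.mem_sphere, sub_eq_zero, sq_eq_sq₀ dist_nonneg hr]

theorem count_eq (P : Finset Pt) :
    Set.ncard {s : EuclideanGeometry.Sphere Pt | 3 ≤ ((P : Set Pt) ∩ (s : Set Pt)).ncard} =
      (Bl P \ Ln P).card := by
  classical
  have key : ∀ s : EuclideanGeometry.Sphere Pt, ((P : Set Pt) ∩ (s : Set Pt)).ncard =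
      (P.filter (fun p => p ∈ s)).card := by
    intro s; rw [← Set.ncard_coe_finset]; congr 1; ext p
    simp only [Set.mem_inter_iff, mem_coe, mem_filter, EuclideanGeometry.Sphere.mem_coe]
  have rad : ∀ s : EuclideanGeometry.Sphere Pt, 3 ≤ (P.filter (fun p => p ∈ s)).card → 0 ≤ s.radius := by
    intro s hs
    obtain ⟨p, hp⟩ := card_pos.1 (show 0 < (P.filter (fun p => p ∈ s)).card by omega)
    rw [← EuclideanGeometry.mem_sphere.1 (mem_filter.1 hp).2]; exact dist_nonneg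
  rw [← Set.ncard_coe_finset]
  apply Set.ncard_congr (fun s _ => P.filter (fun p => p ∈ s))
  · intro s hs
    rw [Set.mem_ofPred_eq, key] at hs
    have hB : P.filter (fun p => p ∈ s) ∈ Bl P :=
      mem_Bl.2 ⟨hs, sphφ s, sphφ_ne s, fun p => by rw [mem_filter, mem_sph_iff (rad s hs)]⟩
    rw [mem_coe, mem_sdiff, Ln_iff hB (sphφ_ne s) (fun p hp => (mem_sph_iff (rad s hs) p).1 (mem_filter.1 hp).2)]
    exact ⟨hB, by simp [sphφ]⟩
  · intro s t hs ht e
    rw [Set.mem_ofPred_eq, key] at hs ht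
    have h1 : ∀ p ∈ P.filter (fun p => p ∈ s), ev (sphφ s) p = 0 :=
      fun p hp => (mem_sph_iff (rad s hs) p).1 (mem_filter.1 hp).2
    have h2 : ∀ p ∈ P.filter (fun p => p ∈ s), ev (sphφ t) p = 0 :=
      fun p hp => (mem_sph_iff (rad t ht) p).1 (mem_filter.1 (e ▸ hp)).2
    have h3 : sphφ s - sphφ t = 0 := by
      by_contra hne
      have := coef_zero (φ := sphφ s) hne (by simp [sphφ]) hs h1 (fun p hp => by
        have a1 := h1 p hp
        have a2 := h2 p hp
        simp only [ev, Pi.sub_apply] at *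
        linarith)
      simp [sphφ] at this
    have c0 := congrFun h3 1
    have c1 := congrFun h3 2
    have c2 := congrFun h3 3
    simp [sphφ] at c0 c1 c2
    have hc : s.center = t.center := pt_ext (by linarith) (by linarith)
    rw [hc] at c2
    exact EuclideanGeometry.Sphere.ext hc ((sq_eq_sq₀ (rad s hs) (rad t ht)).1 (by linarith))
  · intro β hβ
    rw [mem_coe, mem_sdiff] at hβ
    obtain ⟨h3, φ, hφ, h⟩ := mem_Bl.1 hβ.1
    have h0 : φ 0 ≠ 0 := fun h0 => hβ.2 ((Ln_iff hβ.1 hφ (fun p hp => ((h p).1 hp).2)).2 h0)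
    obtain ⟨q, hq⟩ := card_pos.1 (show 0 < β.card by omega)
    have e : P.filter (fun p => p ∈ (⟨ctr φ, dist q (ctr φ)⟩ : EuclideanGeometry.Sphere Pt)) = β := by
      ext p
      rw [mem_filter, h p, EuclideanGeometry.mem_sphere, ev_zero_iff h0 ((h q).1 hq).2]
    exact ⟨⟨ctr φ, dist q (ctr φ)⟩, by rw [Set.mem_ofPred_eq, key, e]; exact h3, e⟩

lemma exists_of_collinear {S : Set Pt} (h : Collinear ℝ S) : ∃ φ ≠ 0, ∀ p ∈ S, ev φ p = 0 := by
  obtain ⟨q, w, h⟩ := (collinear_iff_exists_forall_eq_smul_vadd S).1 h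
  by_cases hw : w = 0
  · refine ⟨![0, 1, 0, - q 0], fun h0 => by simpa using congrFun h0 1, fun p hp => ?_⟩
    obtain ⟨r, rfl⟩ := h p hp
    simp [ev, hw]
  · refine ⟨![0, w 1, - w 0, w 0 * q 1 - w 1 * q 0], fun h0 => hw (pt_ext ?_ ?_), fun p hp => ?_⟩
    · simpa using congrFun h0 2
    · simpa using congrFun h0 1
    · obtain ⟨r, rfl⟩ := h p hp
      simp [ev]; ring

lemma exists_of_cospherical {S : Set Pt} (h : EuclideanGeometry.Cospherical S) :
    ∃ φ ≠ 0, ∀ p ∈ S, ev φ p = 0 := by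
  obtain ⟨c, r, h⟩ := h
  refine ⟨sphφ ⟨c, r⟩, sphφ_ne _, fun p hp => ?_⟩
  rw [ev_sph, h p hp]; simp

lemma admissible_of {S : Set Pt} {x a b c : Pt} (hx : x ∈ S) (ha : a ∈ S) (hb : b ∈ S) (hc : c ∈ S)
    (h : det3 (vv x (some a)) (vv x (some b)) (vv x (some c)) ≠ 0) :
    ¬ Collinear ℝ S ∧ ¬ EuclideanGeometry.Cospherical S := by
  have key : ¬ ∃ φ ≠ 0, ∀ p ∈ S, ev φ p = 0 := by
    rintro ⟨φ, hφ, e⟩
    apply h
    apply det_zero_of_orth (fx_ne hφ (e x hx)) <;> rw [dot_some, e x hx, sub_zero] <;> apply e <;> assumption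
  exact ⟨fun h => key (exists_of_collinear h), fun h => key (exists_of_cospherical h)⟩

end Pool.Agent.MP_1f1ca1_co

end

section

/-! Configurations with few circles. -/

set_option autoImplicit false

namespace Pool.Agent.MP_1f1ca1_co
open Finset

def Adm (P : Finset Pt) : Prop :=
  ¬ Collinear ℝ (P : Set Pt) ∧ ¬ EuclideanGeometry.Cospherical (P : Set Pt)

noncomputable def wpt (k : ℕ) : Pt :=
  !₂[(-1) ^ k * ((((k / 2 : ℕ) : ℝ) + 2) ^ 2 - 1) / ((((k / 2 : ℕ) : ℝ) + 2) ^ 2 + 1),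
     (-1) ^ k * (2 * (((k / 2 : ℕ) : ℝ) + 2)) / ((((k / 2 : ℕ) : ℝ) + 2) ^ 2 + 1)]

lemma wpt_norm (k : ℕ) : wpt k 0 ^ 2 + wpt k 1 ^ 2 = 1 := by
  simp only [wpt, Matrix.cons_val_zero, Matrix.cons_val_one]
  have : ((-1 : ℝ) ^ k) ^ 2 = 1 := by rw [← pow_mul, mul_comm, pow_mul]; simp
  field_simp
  linear_combination ((((k / 2 : ℕ) : ℝ) + 2) ^ 2 + 1) ^ 2 * this

lemma wpt_inj : Function.Injective wpt := by
  intro k l h
  have h0 := congrArg (fun p : Pt => p 0) h
  simp only [wpt, Matrix.cons_val_zero] at h0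
  have hk : (0 : ℝ) ≤ ((k / 2 : ℕ) : ℝ) := Nat.cast_nonneg _
  have hl : (0 : ℝ) ≤ ((l / 2 : ℕ) : ℝ) := Nat.cast_nonneg _
  rw [div_eq_div_iff (by positivity) (by positivity)] at h0
  have pk : (0 : ℝ) < (((k / 2 : ℕ) : ℝ) + 2) ^ 2 - 1 := by nlinarith
  have pl : (0 : ℝ) < (((l / 2 : ℕ) : ℝ) + 2) ^ 2 - 1 := by nlinarith
  have q1 := mul_pos pk (show (0 : ℝ) < (((l / 2 : ℕ) : ℝ) + 2) ^ 2 + 1 by positivity)
  have q2 := mul_pos pl (show (0 : ℝ) < (((k / 2 : ℕ) : ℝ) + 2) ^ 2 + 1 by positivity)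
  have key : (((k / 2 : ℕ) : ℝ) + 2) ^ 2 = (((l / 2 : ℕ) : ℝ) + 2) ^ 2 → k / 2 = l / 2 := by
    intro e
    have := (sq_eq_sq₀ (by positivity) (by positivity)).1 e
    exact_mod_cast (add_right_cancel this)
  rcases Nat.even_or_odd k with ek | ek <;> rcases Nat.even_or_odd l with el | el <;>
    rw [ek.neg_one_pow, el.neg_one_pow] at h0
  · have := key (by linarith)
    obtain ⟨a, rfl⟩ := ek; obtain ⟨b, rfl⟩ := el; omega
  · exfalso; linarith
  · exfalso; linarith
  · have := key (by linarith)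
    obtain ⟨a, rfl⟩ := ek; obtain ⟨b, rfl⟩ := el; omega

lemma wpt_anti (i : ℕ) : wpt (2 * i + 1) 0 = - wpt (2 * i) 0 ∧ wpt (2 * i + 1) 1 = - wpt (2 * i) 1 := by
  have e1 : (2 * i + 1) / 2 = i := by omega
  have e2 : 2 * i / 2 = i := by omega
  simp only [wpt, Matrix.cons_val_zero, Matrix.cons_val_one, e1, e2, pow_succ, pow_mul]
  constructor <;> ring

theorem upper_gen (N : ℕ) (hN : 3 ≤ N) :
    ∃ P : Finset Pt, P.card = N + 1 ∧ Adm P ∧ (Bl P \ Ln P).card ≤ N.choose 2 + 1 - N / 2 := by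
  set Q := (range N).image wpt with hQ
  have hQc : Q.card = N := by rw [hQ, card_image_of_injective _ wpt_inj, card_range]
  have hQn : ∀ p ∈ Q, p 0 ^ 2 + p 1 ^ 2 = 1 := by
    intro p hp; obtain ⟨k, -, rfl⟩ := mem_image.1 hp; exact wpt_norm k
  have h0 : (0 : Pt) ∉ Q := fun h => by simpa using hQn 0 h
  have hw : ∀ k < N, wpt k ∈ Q := fun k hk => mem_image_of_mem _ (mem_range.2 hk)
  have hA : Adm (insert 0 Q) := by
    apply admissible_of (x := 0) (a := wpt 0) (b := wpt 1) (c := wpt 2) (by simp)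
      (by simp [hw 0 (by omega)]) (by simp [hw 1 (by omega)]) (by simp [hw 2 (by omega)])
    simp [det3, vv, wpt]
    norm_num
  have hc : (insert 0 Q).card = N + 1 := by rw [card_insert_of_notMem h0, hQc]
  refine ⟨insert 0 Q, hc, hA, ?_⟩
  have H := geo_of (P := insert 0 Q) (by omega) hA.1 hA.2
  have hQB : Q ∈ Bl (insert 0 Q) := by
    refine mem_Bl.2 ⟨by omega, ![1, 0, 0, -1], fun h => by simpa using congrFun h 0, fun p => ⟨fun hp =>
      ⟨mem_insert_of_mem hp, by simp [ev, hQn p hp]⟩, fun hp => ?_⟩⟩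
    rcases mem_insert.1 hp.1 with rfl | h
    · simp [ev] at hp
    · exact h
  set A := (range (N / 2)).image (fun i => ({wpt (2 * i), wpt (2 * i + 1)} : Finset Pt)) with hA'
  have hAc : A.card = N / 2 := by
    rw [hA', card_image_of_injOn, card_range]
    intro i _ j _ h
    have : wpt (2 * i) ∈ ({wpt (2 * j), wpt (2 * j + 1)} : Finset Pt) := by
      simp only at h; rw [← h]; simp
    rw [mem_insert, mem_singleton] at this
    rcases this with e | e <;> (have := wpt_inj e; omega)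
  have hAs : A ⊆ powersetCard 2 Q := by
    intro s hs
    obtain ⟨i, hi, rfl⟩ := mem_image.1 hs
    rw [mem_range] at hi
    rw [mem_powersetCard]
    refine ⟨fun p hp => ?_, card_pair (fun e => by have := wpt_inj e; omega)⟩
    rw [mem_insert, mem_singleton] at hp
    rcases hp with rfl | rfl <;> exact hw _ (by omega)
  have hsub : Bl (insert 0 Q) \ Ln (insert 0 Q) ⊆ insert Q ((powersetCard 2 Q \ A).image (insert 0)) := by
    intro β hβ
    rw [mem_sdiff] at hβ
    by_cases e : β = Q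
    · rw [e]; exact mem_insert_self _ _
    have h2 := H.inter_le_two hβ.1 hQB e
    have h3 := H.three β hβ.1
    have h4 := H.sub β hβ.1
    have h5 : β ∩ Q = β.erase 0 := by
      ext p; rw [mem_inter, mem_erase]
      exact ⟨fun h => ⟨fun e => h0 (e ▸ h.2), h.1⟩, fun h => ⟨h.2, (mem_insert.1 (h4 h.2)).resolve_left h.1⟩⟩
    have h6 : (0 : Pt) ∈ β := by
      by_contra hn
      rw [h5, erase_eq_of_notMem hn] at h2; omega
    have h7 := card_erase_add_one h6
    refine mem_insert_of_mem (mem_image.2 ⟨β.erase 0, mem_sdiff.2 ⟨mem_powersetCard.2 ⟨?_, ?_⟩, ?_⟩,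
      insert_erase h6⟩)
    · rw [← h5]; exact inter_subset_right
    · rw [h5] at h2; omega
    · intro hs
      obtain ⟨i, -, hi⟩ := mem_image.1 hs
      apply hβ.2
      refine mem_Ln.2 ⟨hβ.1, ![0, wpt (2 * i) 1, - wpt (2 * i) 0, 0], fun h => ?_, by simp, fun p hp => ?_⟩
      · have a1 : wpt (2 * i) 1 = 0 := by simpa using congrFun h 1
        have a2 : wpt (2 * i) 0 = 0 := by simpa using congrFun h 2
        have := wpt_norm (2 * i)
        rw [a1, a2] at this; simp at this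
      · rw [← insert_erase h6, ← hi, mem_insert, mem_insert, mem_singleton] at hp
        rcases hp with rfl | rfl | rfl
        · simp [ev]
        · simp [ev]; ring
        · simp [ev, (wpt_anti i).1, (wpt_anti i).2]; ring
  have b1 := (card_le_card hsub).trans (card_insert_le _ _)
  have b2 : ((powersetCard 2 Q \ A).image (insert 0)).card ≤ _ := card_image_le
  have b3 := card_sdiff_add_card_eq_card hAs
  rw [card_powersetCard, hQc, hAc] at b3
  omega

def dz (k : ℤ) (X Y : ℕ → ℤ) (x a b c : ℕ) : ℤ :=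
  (X a - X x) * ((Y b - Y x) * ((X c - X x) ^ 2 + k * (Y c - Y x) ^ 2)
      - ((X b - X x) ^ 2 + k * (Y b - Y x) ^ 2) * (Y c - Y x))
  - (Y a - Y x) * ((X b - X x) * ((X c - X x) ^ 2 + k * (Y c - Y x) ^ 2)
      - ((X b - X x) ^ 2 + k * (Y b - Y x) ^ 2) * (X c - X x))
  + ((X a - X x) ^ 2 + k * (Y a - Y x) ^ 2) * ((X b - X x) * (Y c - Y x) - (Y b - Y x) * (X c - X x))

def di (X Y : ℕ → ℤ) (x a b : ℕ) : ℤ := (X a - X x) * (Y b - Y x) - (Y a - Y x) * (X b - X x)

def smallOK (n : ℕ) (k : ℤ) (X Y : ℕ → ℤ) (T : List (List ℕ)) : Bool :=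
  ((List.range n).all fun i => (List.range n).all fun j => decide (i = j) || decide (X i ≠ X j) || decide (Y i ≠ Y j)) &&
  ((List.range n).all fun x => (List.range n).all fun a => (List.range n).all fun b =>
    decide (di X Y x a b = 0) || decide ((List.range n).filter (fun c => decide (dz k X Y x a b c = 0)) ∈ T)) &&
  decide (dz k X Y 0 1 2 (n - 1) ≠ 0)

theorem upper_small (n : ℕ) (hn : 4 ≤ n) (k : ℤ) (hk : 0 < k) (X Y : ℕ → ℤ) (T : List (List ℕ))
    (h : smallOK n k X Y T = true) :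
    ∃ P : Finset Pt, P.card = n ∧ Adm P ∧ (Bl P \ Ln P).card ≤ T.length := by
  simp only [smallOK, Bool.and_eq_true, List.all_eq_true, List.mem_range, Bool.or_eq_true,
    decide_eq_true_eq] at h
  obtain ⟨⟨h1, h2⟩, h3⟩ := h
  set r := Real.sqrt k with hr
  have hr0 : r ≠ 0 := (Real.sqrt_pos.2 (by exact_mod_cast hk)).ne'
  have hr2 : r ^ 2 = k := Real.sq_sqrt (by exact_mod_cast hk.le)
  set z : ℕ → Pt := fun i => !₂[(X i : ℝ), r * Y i] with hz
  have e1 : ∀ x a b c, det3 (vv (z x) (some (z a))) (vv (z x) (some (z b))) (vv (z x) (some (z c))) =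
      r * dz k X Y x a b c := by
    intro x a b c
    simp only [det3, vv, hz, dz, Matrix.cons_val_zero, Matrix.cons_val_one, Matrix.cons_val]
    push_cast
    rw [← hr2]; ring
  have e2 : ∀ x a b, det3 (vv (z x) (some (z a))) (vv (z x) (some (z b))) (vv (z x) none) =
      r * di X Y x a b := by
    intro x a b
    simp only [det3, vv, hz, di, Matrix.cons_val_zero, Matrix.cons_val_one, Matrix.cons_val]
    push_cast
    ring
  have hinj : Set.InjOn z (range n) := by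
    intro i hi j hj e
    have a0 := congrArg (fun p : Pt => p 0) e
    have a1 := congrArg (fun p : Pt => p 1) e
    simp only [hz, Matrix.cons_val_zero, Matrix.cons_val_one, Int.cast_inj, mul_eq_mul_left_iff, hr0,
      or_false] at a0 a1
    rcases h1 i (by simpa using hi) j (by simpa using hj) with (h | h) | h
    · exact h
    · exact absurd a0 h
    · exact absurd a1 h
  have hm : ∀ i < n, z i ∈ (range n).image z := fun i hi => mem_image_of_mem _ (mem_range.2 hi)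
  have hA : Adm ((range n).image z) := by
    apply admissible_of (x := z 0) (a := z 1) (b := z 2) (c := z (n - 1)) (hm _ (by omega)) (hm _ (by omega))
      (hm _ (by omega)) (hm _ (by omega))
    rw [e1]; exact mul_ne_zero hr0 (by exact_mod_cast h3)
  refine ⟨(range n).image z, by rw [card_image_of_injOn hinj, card_range], hA, ?_⟩
  have hsub : Bl ((range n).image z) \ Ln ((range n).image z) ⊆
      (T.map (fun l => (l.map z).toFinset)).toFinset := by
    intro β hβ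
    rw [mem_sdiff] at hβ
    obtain ⟨b3, φ, -, hφ⟩ := mem_Bl.1 hβ.1
    obtain ⟨x, a, b, hx, ha, hb, hxa, hxb, hab⟩ := two_lt_card_iff.1 (show 2 < β.card from b3)
    obtain ⟨i, hi, rfl⟩ := mem_image.1 ((hφ x).1 hx).1
    obtain ⟨j, hj, rfl⟩ := mem_image.1 ((hφ a).1 ha).1
    obtain ⟨l, hl, rfl⟩ := mem_image.1 ((hφ b).1 hb).1
    have V := fun c hc => vec_iff hβ.1 hx (a := some (z j)) (b := some (z l)) (c := c) (by simp [hxa.symm, ha])
      (by simp [hxb.symm, hb]) (by simpa using hab) hc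
    rcases h2 i (by simpa using hi) j (by simpa using hj) l (by simpa using hl) with h | h
    · exfalso
      apply hβ.2
      have := (V none (by simp)).1 (by rw [e2, h]; simp)
      simpa using this
    · rw [List.mem_toFinset, List.mem_map]
      refine ⟨_, h, ?_⟩
      ext p
      simp only [List.mem_toFinset, List.mem_map, List.mem_filter, List.mem_range, decide_eq_true_eq]
      constructor
      · rintro ⟨c, ⟨hc, hd⟩, rfl⟩
        by_cases e : z c = z i
        · rw [e]; exact hx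
        · have := (V (some (z c)) (by simp only [some_mem_Qx]; exact ⟨e, hm c hc⟩)).1 (by rw [e1, hd]; simp)
          exact ((some_mem_Ex _ _ _ _).1 this).2
      · intro hp
        obtain ⟨c, hc, rfl⟩ := mem_image.1 ((hφ p).1 hp).1
        refine ⟨c, ⟨by simpa using hc, ?_⟩, rfl⟩
        have := det_of_mem hβ.1 hx ha hb hp
        rw [e1] at this
        exact_mod_cast (mul_eq_zero.1 this).resolve_left hr0
  exact (card_le_card hsub).trans ((List.toFinset_card_le _).trans (by simp))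

theorem upper (n : ℕ) (hn : 4 ≤ n) :
    ∃ P : Finset Pt, P.card = n ∧ Adm P ∧ (Bl P \ Ln P).card ≤ tgt n := by
  unfold tgt
  split_ifs with h6 h7 h8
  · subst h6
    exact upper_small 6 (by norm_num) 1 (by norm_num) (fun i => [0, -4, 6, 0, -3, 4].getD i 0)
      (fun i => [2, 0, 0, 0, 3, 4].getD i 0)
      [[0, 1, 2], [0, 1, 3, 4], [0, 2, 3, 5], [0, 4, 5], [1, 2, 4, 5], [1, 3, 5], [2, 3, 4], [3, 4, 5]]
      (by decide +kernel)
  · subst h7
    exact upper_small 7 (by norm_num) 1 (by norm_num) (fun i => [0, -4, 6, 0, 0, -3, 4].getD i 0)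
      (fun i => [2, 0, 0, 12, 0, 3, 4].getD i 0)
      [[0, 1, 2], [0, 1, 3], [0, 1, 4, 5], [0, 2, 3], [0, 2, 4, 6], [0, 3, 5, 6], [1, 2, 3], [1, 2, 5, 6],
        [1, 3, 4, 6], [2, 3, 4, 5], [4, 5, 6]]
      (by decide +kernel)
  · subst h8
    exact upper_small 8 (by norm_num) 3 (by norm_num)
      (fun i => [819, -156, 819, -756, 819, -156, 819, -756].getD i 0)
      (fun i => [455, 260, 1365, 420, -455, -260, -1365, -420].getD i 0)
      [[0, 1, 2, 3], [0, 1, 4, 5], [0, 1, 6, 7], [0, 2, 5, 7], [0, 3, 4, 7], [0, 3, 5], [0, 3, 6], [0, 5, 6],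
        [1, 2, 4], [1, 2, 5, 6], [1, 3, 4, 6], [1, 3, 5, 7], [1, 4, 7], [2, 3, 4, 5], [2, 3, 6, 7], [2, 4, 7],
        [4, 5, 6, 7]]
      (by decide +kernel)
  · obtain ⟨N, rfl⟩ : ∃ N, n = N + 1 := ⟨n - 1, by omega⟩
    exact upper_gen N (by omega)

end Pool.Agent.MP_1f1ca1_co

end
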