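import Pool.Agent.Mg.F1f1ca1.Gbd59fb
import Pool.Agent.Mg.F1f1ca1.G140a50
import Pool.Agent.Mg.F1f1ca1.G5b5a76
import Pool.Agent.Mg.F1f1ca1.G309488
import Pool.Agent.Mg.F1f1ca1.G089cc4
import Pool.Agent.Mg.F1f1ca1.G7b8a69
import Pool.Agent.Mg.F1f1ca1.Gccfd0a
import Pool.Agent.Mg.F1f1ca1.G6b0d2e
import Pool.Agent.Mg.F1f1ca1.G2a8f74
import Pool.Agent.Mg.F1f1ca1.Gf71bbe

section

set_option autoImplicit false
set_option maxRecDepth 1000000
set_option maxHeartbeats 0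

namespace Pool.Agent.MP_1f1ca1_co

theorem parOK8 : ParOK par8 (nat_lit 22) :=
  ⟨by decide, by decide, by decide, by decide, tb8_3_ok, tb8_4_ok, tb8_5_ok, patLib_bad⟩

theorem allRef8 (α : Type) [DecidableEq α] : AllRef α par8 (nat_lit 18) := by
  have h := AllRef.zero (α := α) par8
  replace h := AllRef.step ok8_0 h
  exact h

theorem eng8 {α : Type} [DecidableEq α] {P : Finset α} {B L : Finset (Finset α)} (G : Geo P B L)
    (hn : P.card = 8) (h6 : ∀ β ∈ B, β.card ≤ 6) : 960 < 60 * (B \ L).card :=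
  engine (j := 17) parOK8 (allRef8 α) rfl G hn h6

end Pool.Agent.MP_1f1ca1_co

end

section

set_option autoImplicit false
set_option maxRecDepth 1000000
set_option maxHeartbeats 0

namespace Pool.Agent.MP_1f1ca1_co

noncomputable def c12_169 : List C :=
  (List.cons (C.node (nat_lit 0) (nat_lit 2) (nat_lit 8) (C.cons (nat_lit 325) (C.node (nat_lit 0) (nat_lit 4) (nat_lit 8) (C.cons (nat_lit 273) (C.node (nat_lit 0) (nat_lit 1) (nat_lit 9) (C.cons (nat_lit 531) (C.ref (nat_lit 156) (nat_lit 205163983024656)) (C.cons (nat_lit 523) (C.ref (nat_lit 156) (nat_lit 205163982963216)) (C.cons (nat_lit 519) (C.node (nat_lit 0) (nat_lit 1) (nat_lit 3) (C.cons (nat_lit 2059) (C.ref (nat_lit 158) (nat_lit 205163983024656)) (C.cons (nat_lit 1035) (C.ref (nat_lit 158) (nat_lit 188671308608016)) (C.cons (nat_lit 11) (C.node (nat_lit 0) (nat_lit 1) (nat_lit 10) (C.cons (nat_lit 1043) (C.node (nat_lit 0) (nat_lit 1) (nat_lit 11) (C.cons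 (nat_lit 2051) (C.ref (nat_lit 157) (nat_lit 188671308546576)) C.nil)) (C.cons (nat_lit 1027) (C.node (nat_lit 0) (nat_lit 1) (nat_lit 4) (C.cons (nat_lit 2067) (C.ref (nat_lit 157) (nat_lit 205163982963216)) (C.cons (nat_lit 19) (C.node (nat_lit 0) (nat_lit 1) (nat_lit 11) (C.cons (nat_lit 2051) (C.ref (nat_lit 159) (nat_lit 205163983024656)) C.nil)) C.nil))) C.nil))) C.nil)))) (C.cons (nat_lit 515) (C.node (nat_lit 0) (nat_lit 2) (nat_lit 9) (C.cons (nat_lit 533) (C.ref (nat_lit 155) (nat_lit 205163967295776)) (C.cons (nat_lit 525) (C.ref (nat_lit 155) (nat_lit 205163967234336)) (C.cons (nat_lit 517) (C.node (nat_lit 0) (nat_lit 3) (nat_lit 9) (C.cons (nat_lit 585) (C.node (nat_lit 0) (nat_lit 4) (nat_lit 9) (C.cons (nat_lit 561) (C.ref (nat_lit 150) (nat_lit 205163911722576)) (C.cons (nat_lit 529) (C.ref (nat_lit 160) (nat_lit 205163983024656)) C.nil))) (C.cons (nat_lit 553) (C.node (nat_lit 0) (nat_lit 4) (nat_lit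 9) (C.cons (nat_lit 593) (C.ref (nat_lit 150) (nat_lit 205163895993696)) (C.cons (nat_lit 529) (C.ref (nat_lit 160) (nat_lit 205163967295776)) C.nil))) (C.cons (nat_lit 521) (C.node (nat_lit 0) (nat_lit 4) (nat_lit 9) (C.cons (nat_lit 593) (C.ref (nat_lit 160) (nat_lit 205163982963216)) (C.cons (nat_lit 561) (C.ref (nat_lit 160) (nat_lit 205163967234336)) (C.cons (nat_lit 529) (C.node (nat_lit 0) (nat_lit 5) (nat_lit 9) (C.cons (nat_lit 609) (C.node (nat_lit 0) (nat_lit 3) (nat_lit 5) (C.cons (nat_lit 2089) (C.node (nat_lit 0) (nat_lit 3) (nat_lit 6) (C.cons (nat_lit 1097) (C.node (nat_lit 0) (nat_lit 1) (nat_lit 3) (C.cons (nat_lit 15) (C.node (nat_lit 0) (nat_lit 1) (nat_lit 10) (C.cons (nat_lit 1043) (C.node (nat_lit 0) (nat_lit 1) (nat_lit 11) C.nil) C.nil)) C.nil)) C.nil)) (C.cons (nat_lit 1065) (C.node (nat_lit 0) (nat_lit 3) (nat_lit 6) (C.cons (nat_lit 2121) (C.node (nat_lit 0) (nat_lit 1) (nat_lit 3) (C.cons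 (nat_lit 15) (C.node (nat_lit 0) (nat_lit 1) (nat_lit 11) (C.cons (nat_lit 2067) (C.node (nat_lit 0) (nat_lit 1) (nat_lit 10) C.nil) C.nil)) C.nil)) C.nil)) C.nil))) C.nil)) C.nil)))) C.nil)))) C.nil)))) C.nil))))) C.nil)) (C.cons (nat_lit 277) (C.node (nat_lit 0) (nat_lit 6) (nat_lit 8) (C.cons (nat_lit 321) (C.ref (nat_lit 140) (nat_lit 205163965322016)) C.nil)) (C.cons (nat_lit 261) (C.ref (nat_lit 168) (nat_lit 205163983024656)) C.nil)))) (List.cons (C.node (nat_lit 0) (nat_lit 3) (nat_lit 8) (C.cons (nat_lit 329) (C.ref (nat_lit 141) (nat_lit 205163983024656)) (C.cons (nat_lit 269) (C.ref (nat_lit 141) (nat_lit 205163964273696)) (C.cons (nat_lit 265) (C.ref (nat_lit 169) (nat_lit 205163983024656)) C.nil)))) (List.cons (C.node (nat_lit 0) (nat_lit 2) (nat_lit 9) (C.cons (nat_lit 533) (C.node (nat_lit 0) (nat_lit 1) (nat_lit 4) (C.cons (nat_lit 2067) (C.node (nat_lit 0) (nat_lit 1) (nat_lit 2) (C.cons (nat_lit 1031)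 (C.node (nat_lit 0) (nat_lit 1) (nat_lit 3) C.nil) (C.cons (nat_lit 15) (C.node (nat_lit 0) (nat_lit 1) (nat_lit 10) C.nil) C.nil))) (C.cons (nat_lit 1043) (C.node (nat_lit 0) (nat_lit 1) (nat_lit 2) (C.cons (nat_lit 2055) (C.node (nat_lit 0) (nat_lit 1) (nat_lit 3) C.nil) (C.cons (nat_lit 15) (C.node (nat_lit 0) (nat_lit 1) (nat_lit 11) C.nil) C.nil))) C.nil))) C.nil)) (List.cons (C.node (nat_lit 0) (nat_lit 3) (nat_lit 9) (C.cons (nat_lit 585) (C.ref (nat_lit 171) (nat_lit 205163983024656)) (C.cons (nat_lit 525)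
  (C.ref (nat_lit 171) (nat_lit 205163964273696)) C.nil))) (List.cons (C.node (nat_lit 0) (nat_lit 1) (nat_lit 9) (C.cons (nat_lit 547) (C.ref (nat_lit 172) (nat_lit 205163983024656)) (C.cons (nat_lit 531) (C.ref (nat_lit 172) (nat_lit 205163982037776)) (C.cons (nat_lit 523) (C.ref (nat_lit 172) (nat_lit 205163980989456)) (C.cons (nat_lit 519) (C.ref (nat_lit 172) (nat_lit 205163979879696)) C.nil))))) (List.cons (C.node (nat_lit 0) (nat_lit 5) (nat_lit 10) (C.cons (nat_lit 1121) (C.node (nat_lit 0) (nat_lit 5) (nat_lit 3) (C.cons (nat_lit 2089) (C.node (nat_lit 0) (nat_lit 5) (nat_lit 4) C.nil) (C.cons (nat_lit 57) (C.node (nat_lit 0) (nat_lit 5) (nat_lit 11) C.nil) C.nil))) C.nil)) (List.cons (C.node (nat_lit 0) (nat_lit 2) (nat_lit 3) (C.cons (nat_lit 269) (C.node (nat_lit 0) (nat_lit 2) (nat_lit 4) (C.cons (nat_lit 21) (C.node (nat_lit 0) (nat_lit 4) (nat_lit 8) (C.cons (nat_lit 337) (C.node (nat_lit 0) (nat_lit 4)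 (nat_lit 10) (C.cons (nat_lit 1073) (C.node (nat_lit 0) (nat_lit 6) (nat_lit 10) C.nil) C.nil)) C.nil)) C.nil)) (C.cons (nat_lit 29) (C.node (nat_lit 0) (nat_lit 2) (nat_lit 8) (C.cons (nat_lit 261) (C.node (nat_lit 0) (nat_lit 3) (nat_lit 8) (C.cons (nat_lit 329) (C.node (nat_lit 0) (nat_lit 4) (nat_lit 8) C.nil) C.nil)) C.nil)) (C.cons (nat_lit 13) (C.node (nat_lit 0) (nat_lit 2) (nat_lit 4) (C.cons (nat_lit 277) (C.node (nat_lit 0) (nat_lit 3) (nat_lit 8) (C.cons (nat_lit 329) (C.ref (nat_lit 109) (nat_lit 188667266343696)) C.nil)) C.nil)) C.nil)))) (List.cons (C.node (nat_lit 0) (nat_lit 2) (nat_lit 4) (C.cons (nat_lit 1045) (C.node (nat_lit 0) (nat_lit 2) (nat_lit 6) (C.cons (nat_lit 69) (C.node (nat_lit 0) (nat_lit 5) (nat_lit 10) (C.cons (nat_lit 1121) (C.ref (nat_lit 148) (nat_lit 202832569848336)) C.nil)) C.nil)) (C.cons (nat_lit 85) (C.node (nat_lit 0) (nat_lit 2) (nat_lit 10) (C.cons (nat_lit 1029) (C.node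 (nat_lit 0) (nat_lit 4) (nat_lit 8) (C.cons (nat_lit 281) (C.node (nat_lit 0) (nat_lit 6) (nat_lit 8) C.nil) C.nil)) C.nil)) (C.cons (nat_lit 21) (C.node (nat_lit 0) (nat_lit 2) (nat_lit 6) (C.cons (nat_lit 1093) (C.node (nat_lit 0) (nat_lit 5) (nat_lit 10) (C.cons (nat_lit 1073) (C.ref (nat_lit 106) (nat_lit 153354546586896)) C.nil)) C.nil)) C.nil)))) (List.cons (C.node (nat_lit 0) (nat_lit 2) (nat_lit 8) (C.cons (nat_lit 325) (C.node (nat_lit 0) (nat_lit 2) (nat_lit 4) (C.cons (nat_lit 1045) (C.node (nat_lit 0) (nat_lit 3) (nat_lit 8) (C.cons (nat_lit 281) (C.ref (nat_lit 147) (nat_lit 205159940764176)) (C.cons (nat_lit 265) (C.node (nat_lit 0) (nat_lit 4) (nat_lit 8) (C.cons (nat_lit 273) (C.node (nat_lit 0) (nat_lit 5) (nat_lit 10) (C.cons (nat_lit 1121) (C.node (nat_lit 0) (nat_lit 5) (nat_lit 4) (C.cons (nat_lit 2097) (C.node (nat_lit 0) (nat_lit 5) (nat_lit 3) C.nil) (C.cons (nat_lit 57) (C.node (nat_lit 0) (nat_lit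 5) (nat_lit 11) C.nil) C.nil))) C.nil)) C.nil)) C.nil))) (C.cons (nat_lit 21) (C.node (nat_lit 0) (nat_lit 2) (nat_lit 10) (C.cons (nat_lit 1029) (C.node (nat_lit 0) (nat_lit 3) (nat_lit 8) (C.cons (nat_lit 281) (C.ref (nat_lit 148) (nat_lit 205159940764176)) C.nil)) C.nil)) C.nil))) (C.cons (nat_lit 277) (C.node (nat_lit 0) (nat_lit 2) (nat_lit 6) (C.cons (nat_lit 1093) (C.node (nat_lit 0) (nat_lit 3) (nat_lit 8) (C.cons (nat_lit 329) (C.ref (nat_lit 135) (nat_lit 188538361886016)) (C.cons (nat_lit 265) (C.node (nat_lit 0) (nat_lit 6) (nat_lit 8) (C.cons (nat_lit 321) (C.node (nat_lit 0) (nat_lit 5) (nat_lit 10) (C.cons (nat_lit 1073) (C.ref (nat_lit 104) (nat_lit 153354546586896)) C.nil)) C.nil)) C.nil))) (C.cons (nat_lit 69) (C.node (nat_lit 0) (nat_lit 2) (nat_lit 10) (C.cons (nat_lit 1029) (C.node (nat_lit 0) (nat_lit 3) (nat_lit 8) (C.cons (nat_lit 329) (C.ref (nat_lit 106) (nat_lit 188667266343696)) C.nil)) C.nil))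 C.nil))) (C.cons (nat_lit 261) (C.ref (nat_lit 176) (nat_lit 205163983024656)) C.nil)))) (List.cons (C.node (nat_lit 0) (nat_lit 2) (nat_lit 9) (C.cons (nat_lit 581) (C.node (nat_lit 0) (nat_lit 2) (nat_lit 10) (C.cons (nat_lit 1045)
  (C.node (nat_lit 0) (nat_lit 2) (nat_lit 3) (C.cons (nat_lit 269) (C.node (nat_lit 0) (nat_lit 3) (nat_lit 9) (C.cons (nat_lit 553) (C.node (nat_lit 0) (nat_lit 4) (nat_lit 8) (C.cons (nat_lit 337) (C.ref (nat_lit 103) (nat_lit 153551897891616)) (C.cons (nat_lit 273) (C.node (nat_lit 0) (nat_lit 6) (nat_lit 8) (C.cons (nat_lit 321) (C.ref (nat_lit 105) (nat_lit 153551897891616)) C.nil)) C.nil))) (C.cons (nat_lit 521) (C.node (nat_lit 0) (nat_lit 5) (nat_lit 9) (C.cons (nat_lit 545) (C.node (nat_lit 0) (nat_lit 4) (nat_lit 8) (C.cons (nat_lit 337) (C.ref (nat_lit 105) (nat_lit 171143799710736)) (C.cons (nat_lit 273) (C.node (nat_lit 0) (nat_lit 6) (nat_lit 8) (C.cons (nat_lit 321) (C.node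 (nat_lit 0) (nat_lit 5) (nat_lit 10) (C.cons (nat_lit 1121) (C.ref (nat_lit 104) (nat_lit 135831098692896)) C.nil)) C.nil)) C.nil))) C.nil)) C.nil))) (C.cons (nat_lit 13) (C.node (nat_lit 0) (nat_lit 2) (nat_lit 8) (C.cons (nat_lit 261) (C.node (nat_lit 0) (nat_lit 3) (nat_lit 9) (C.cons (nat_lit 553) (C.ref (nat_lit 111) (nat_lit 153551897891616)) (C.cons (nat_lit 521) (C.node (nat_lit 0) (nat_lit 5) (nat_lit 9) (C.cons (nat_lit 545) (C.ref (nat_lit 174) (nat_lit 205163983024656)) C.nil)) C.nil))) C.nil)) C.nil))) (C.cons (nat_lit 1029) (C.node (nat_lit 0) (nat_lit 3) (nat_lit 9) (C.cons (nat_lit 553) (C.ref (nat_lit 132) (nat_lit 203029921141536)) (C.cons (nat_lit 521) (C.node (nat_lit 0) (nat_lit 5) (nat_lit 9) (C.cons (nat_lit 545) (C.ref (nat_lit 175) (nat_lit 205163983024656)) C.nil)) C.nil))) C.nil))) (C.cons (nat_lit 525) (C.node (nat_lit 0) (nat_lit 5) (nat_lit 9) (C.cons (nat_lit 609) (C.node (nat_lit 0) (nat_lit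 5) (nat_lit 10) (C.cons (nat_lit 1073) (C.node (nat_lit 0) (nat_lit 2) (nat_lit 10) (C.cons (nat_lit 1093) (C.node (nat_lit 0) (nat_lit 2) (nat_lit 4) (C.cons (nat_lit 277) (C.node (nat_lit 0) (nat_lit 3) (nat_lit 5) (C.cons (nat_lit 2089) (C.node (nat_lit 0) (nat_lit 3) (nat_lit 4) (C.cons (nat_lit 89) (C.pat (nat_lit 2) (nat_lit 48655409811) (nat_lit 45828212076079688818926123699252125589603943473)) (C.cons (nat_lit 25) (C.node (nat_lit 0) (nat_lit 3) (nat_lit 6) (C.cons (nat_lit 329) (C.pat (nat_lit 3) (nat_lit 10255407273) (nat_lit 6177418378566965077508634321423261907062820737)) (C.cons (nat_lit 73) (C.node (nat_lit 0) (nat_lit 3) (nat_lit 8) (C.cons (nat_lit 265) (C.node (nat_lit 0) (nat_lit 6) (nat_lit 8) (C.cons (nat_lit 321) (C.node (nat_lit 0) (nat_lit 4) (nat_lit 6) (C.cons (nat_lit 2129) (C.pat (nat_lit 3) (nat_lit 22652464041) (nat_lit 46586981186461062953497264026875037359796981633)) C.nil)) C.nil)) C.nil))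 C.nil))) C.nil))) (C.cons (nat_lit 41) (C.node (nat_lit 0) (nat_lit 5) (nat_lit 11) (C.cons (nat_lit 2081) (C.ref (nat_lit 87) (nat_lit 153354595750176)) C.nil)) C.nil))) (C.cons (nat_lit 21) (C.node (nat_lit 0) (nat_lit 2) (nat_lit 8) (C.cons (nat_lit 261) (C.node (nat_lit 0) (nat_lit 3) (nat_lit 5) (C.cons (nat_lit 2089) (C.ref (nat_lit 87) (nat_lit 202836646502736)) (C.cons (nat_lit 41) (C.node (nat_lit 0) (nat_lit 5) (nat_lit 11) (C.cons (nat_lit 2081) (C.node (nat_lit 0) (nat_lit 6) (nat_lit 11) (C.cons (nat_lit 2121) (C.node (nat_lit 0) (nat_lit 4) (nat_lit 11) C.nil) (C.cons (nat_lit 2129) (C.node (nat_lit 0) (nat_lit 3) (nat_lit 11) C.nil) C.nil))) C.nil)) C.nil))) C.nil)) C.nil))) (C.cons (nat_lit 1029) (C.node (nat_lit 0) (nat_lit 6) (nat_lit 10) (C.cons (nat_lit 1089) (C.node (nat_lit 0) (nat_lit 3) (nat_lit 5) (C.cons (nat_lit 2089) (C.ref (nat_lit 135) (nat_lit 203029900108896)) (C.cons (nat_lit 41) (C.node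 (nat_lit 0) (nat_lit 5) (nat_lit 11) (C.cons (nat_lit 2081) (C.ref (nat_lit 106) (nat_lit 202836612108816)) C.nil)) C.nil))) C.nil)) C.nil))) (C.cons (nat_lit 1057) (C.ref (nat_lit 132) (nat_lit 153551894745936)) C.nil))) (C.cons (nat_lit 545) (C.node (nat_lit 0) (nat_lit 6) (nat_lit 9) (C.cons (nat_lit 577) (C.ref (nat_lit 177) (nat_lit 205163983024656)) C.nil)) C.nil))) (C.cons (nat_lit 517) (C.node (nat_lit 0) (nat_lit 2) (nat_lit 10) (C.cons (nat_lit 1093)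
  (C.node (nat_lit 0) (nat_lit 4) (nat_lit 10) (C.cons (nat_lit 1073) (C.ref (nat_lit 132) (nat_lit 202961470034976)) (C.cons (nat_lit 1041) (C.node (nat_lit 0) (nat_lit 5) (nat_lit 10) (C.cons (nat_lit 1057) (C.ref (nat_lit 175) (nat_lit 204133190812176)) C.nil)) C.nil))) (C.cons (nat_lit 1045) (C.node (nat_lit 0) (nat_lit 5) (nat_lit 10) (C.cons (nat_lit 1121) (C.node (nat_lit 0) (nat_lit 5) (nat_lit 9) (C.cons (nat_lit 553) (C.node (nat_lit 0) (nat_lit 6) (nat_lit 9) (C.cons (nat_lit 577) (C.node (nat_lit 0) (nat_lit 4) (nat_lit 5) (C.cons (nat_lit 2097) (C.ref (nat_lit 135) (nat_lit 202961449132896)) (C.cons (nat_lit 49) (C.node (nat_lit 0) (nat_lit 5) (nat_lit 11) (C.cons (nat_lit 2081) (C.ref (nat_lit 106) (nat_lit 202832569848336)) C.nil)) C.nil))) C.nil)) (C.cons (nat_lit 545) (C.node (nat_lit 0) (nat_lit 3) (nat_lit 9) (C.cons (nat_lit 585) (C.node (nat_lit 0) (nat_lit 2) (nat_lit 3) (C.cons (nat_lit 269) (C.node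 (nat_lit 0) (nat_lit 2) (nat_lit 6) (C.cons (nat_lit 69) (C.node (nat_lit 0) (nat_lit 4) (nat_lit 8) (C.cons (nat_lit 337) (C.node (nat_lit 0) (nat_lit 6) (nat_lit 11) (C.cons (nat_lit 2113) (C.ref (nat_lit 89) (nat_lit 170950523118096)) C.nil)) (C.cons (nat_lit 273) (C.node (nat_lit 0) (nat_lit 6) (nat_lit 8) C.nil) C.nil))) C.nil)) (C.cons (nat_lit 13) (C.node (nat_lit 0) (nat_lit 2) (nat_lit 6) (C.cons (nat_lit 325) (C.node (nat_lit 0) (nat_lit 3) (nat_lit 8) (C.cons (nat_lit 281) (C.node (nat_lit 0) (nat_lit 3) (nat_lit 5) (C.cons (nat_lit 2089) (C.node (nat_lit 0) (nat_lit 4) (nat_lit 5) (C.cons (nat_lit 49) (C.node (nat_lit 0) (nat_lit 6) (nat_lit 4) (C.cons (nat_lit 2129) (C.pat (nat_lit 3) (nat_lit 9765608360) (nat_lit 45828755849565637454687178426301930660039954305)) C.nil)) C.nil)) (C.cons (nat_lit 41) (C.node (nat_lit 0) (nat_lit 3) (nat_lit 11) C.nil) C.nil))) (C.cons (nat_lit 265) (C.node (nat_lit 0) (nat_lit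 4) (nat_lit 8) C.nil) C.nil))) (C.cons (nat_lit 69) (C.node (nat_lit 0) (nat_lit 2) (nat_lit 8) C.nil) C.nil))) C.nil))) (C.cons (nat_lit 521) (C.node (nat_lit 0) (nat_lit 6) (nat_lit 9) (C.cons (nat_lit 577) (C.node (nat_lit 0) (nat_lit 2) (nat_lit 6) (C.cons (nat_lit 325) (C.node (nat_lit 0) (nat_lit 2) (nat_lit 3) C.nil) (C.cons (nat_lit 77) (C.node (nat_lit 0) (nat_lit 2) (nat_lit 8) C.nil) C.nil))) C.nil)) C.nil))) C.nil))) (C.cons (nat_lit 1057) (C.node (nat_lit 0) (nat_lit 6) (nat_lit 10) (C.cons (nat_lit 1089) (C.ref (nat_lit 176) (nat_lit 202832569848336)) C.nil)) C.nil))) (C.cons (nat_lit 1029) (C.node (nat_lit 0) (nat_lit 3) (nat_lit 9) (C.cons (nat_lit 585) (C.node (nat_lit 0) (nat_lit 5) (nat_lit 9) (C.cons (nat_lit 545) (C.node (nat_lit 0) (nat_lit 2) (nat_lit 3) (C.cons (nat_lit 269) (C.node (nat_lit 0) (nat_lit 2) (nat_lit 4) (C.cons (nat_lit 85) (C.node (nat_lit 0) (nat_lit 4) (nat_lit 8) (C.cons (nat_lit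 273) (C.node (nat_lit 0) (nat_lit 6) (nat_lit 8) C.nil) C.nil)) (C.cons (nat_lit 21) (C.node (nat_lit 0) (nat_lit 2) (nat_lit 6) C.nil) C.nil))) (C.cons (nat_lit 29) (C.node (nat_lit 0) (nat_lit 3) (nat_lit 8) (C.cons (nat_lit 265) (C.node (nat_lit 0) (nat_lit 2) (nat_lit 6) (C.cons (nat_lit 325) (C.node (nat_lit 0) (nat_lit 4) (nat_lit 8) C.nil) C.nil)) C.nil)) (C.cons (nat_lit 13) (C.node (nat_lit 0) (nat_lit 3) (nat_lit 8) (C.cons (nat_lit 281) (C.node (nat_lit 0) (nat_lit 2) (nat_lit 4) (C.cons (nat_lit 85) (C.node (nat_lit 0) (nat_lit 2) (nat_lit 8) C.nil) C.nil)) C.nil)) C.nil)))) C.nil)) (C.cons (nat_lit 553) (C.node (nat_lit 0) (nat_lit 6) (nat_lit 9) (C.cons (nat_lit 577) (C.node (nat_lit 0) (nat_lit 3) (nat_lit 11) (C.cons (nat_lit 2121) (C.node (nat_lit 0) (nat_lit 4) (nat_lit 11) (C.cons (nat_lit 2097) (C.node (nat_lit 0) (nat_lit 4) (nat_lit 10) (C.cons (nat_lit 1105) (C.node (nat_lit 0) (nat_lit 5) (nat_lit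 6) (C.cons (nat_lit 97) (C.node (nat_lit 0) (nat_lit 5) (nat_lit 10) C.nil) C.nil)) (C.cons (nat_lit 1041) (C.node (nat_lit 0) (nat_lit 5) (nat_lit 6) (C.cons (nat_lit 1121) (C.ref (nat_lit 104) (nat_lit 185369486447376)) C.nil)) C.nil)))
  (C.cons (nat_lit 2065) (C.node (nat_lit 0) (nat_lit 5) (nat_lit 11) C.nil) C.nil))) (C.cons (nat_lit 2073) (C.node (nat_lit 0) (nat_lit 5) (nat_lit 11) (C.cons (nat_lit 2145) (C.node (nat_lit 0) (nat_lit 4) (nat_lit 5) (C.cons (nat_lit 1073) (C.node (nat_lit 0) (nat_lit 6) (nat_lit 10) (C.cons (nat_lit 1089) (C.node (nat_lit 0) (nat_lit 4) (nat_lit 2) (C.cons (nat_lit 277) (C.node (nat_lit 0) (nat_lit 4) (nat_lit 6) C.nil) (C.cons (nat_lit 85) (C.node (nat_lit 0) (nat_lit 4) (nat_lit 8) C.nil) C.nil))) C.nil)) (C.cons (nat_lit 49) (C.node (nat_lit 0) (nat_lit 5) (nat_lit 10) C.nil) C.nil))) (C.cons (nat_lit 2081) (C.node (nat_lit 0) (nat_lit 6) (nat_lit 11) C.nil) C.nil))) (C.cons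 (nat_lit 2057) (C.node (nat_lit 0) (nat_lit 4) (nat_lit 10) (C.cons (nat_lit 1105) (C.node (nat_lit 0) (nat_lit 5) (nat_lit 10) C.nil) (C.cons (nat_lit 1073) (C.node (nat_lit 0) (nat_lit 6) (nat_lit 10) C.nil) C.nil))) C.nil)))) C.nil)) (C.cons (nat_lit 521) (C.node (nat_lit 0) (nat_lit 5) (nat_lit 9) (C.cons (nat_lit 609) (C.node (nat_lit 0) (nat_lit 5) (nat_lit 10) (C.cons (nat_lit 1073) (C.node (nat_lit 0) (nat_lit 6) (nat_lit 10) (C.cons (nat_lit 1089) (C.node (nat_lit 0) (nat_lit 3) (nat_lit 5) (C.cons (nat_lit 2089) (C.node (nat_lit 0) (nat_lit 6) (nat_lit 11) (C.cons (nat_lit 2129) (C.ref (nat_lit 104) (nat_lit 167652760884816)) C.nil)) C.nil)) C.nil)) (C.cons (nat_lit 1057) (C.node (nat_lit 0) (nat_lit 4) (nat_lit 10) (C.cons (nat_lit 1105) (C.node (nat_lit 0) (nat_lit 6) (nat_lit 11) (C.cons (nat_lit 2121) (C.node (nat_lit 0) (nat_lit 2) (nat_lit 6) (C.cons (nat_lit 325) (C.node (nat_lit 0) (nat_lit 2) (nat_lit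 3) (C.cons (nat_lit 29) (C.node (nat_lit 0) (nat_lit 3) (nat_lit 5) C.nil) C.nil)) C.nil)) C.nil)) C.nil)) C.nil))) (C.cons (nat_lit 545) (C.node (nat_lit 0) (nat_lit 6) (nat_lit 9) C.nil) C.nil))) C.nil)))) C.nil)))) C.nil)))) (List.cons (C.node (nat_lit 0) (nat_lit 2) (nat_lit 8) (C.cons (nat_lit 325) (C.node (nat_lit 0) (nat_lit 2) (nat_lit 10) (C.cons (nat_lit 1045) (C.node (nat_lit 0) (nat_lit 2) (nat_lit 11) C.nil) C.nil)) (C.cons (nat_lit 277) (C.node (nat_lit 0) (nat_lit 2) (nat_lit 10) (C.cons (nat_lit 1093) (C.node (nat_lit 0) (nat_lit 2) (nat_lit 11) C.nil) C.nil)) C.nil))) (List.cons (C.node (nat_lit 0) (nat_lit 2) (nat_lit 3) (C.cons (nat_lit 2061) (C.node (nat_lit 0) (nat_lit 2) (nat_lit 6) (C.cons (nat_lit 325) (C.node (nat_lit 0) (nat_lit 3) (nat_lit 5) (C.cons (nat_lit 57) (C.node (nat_lit 0) (nat_lit 3) (nat_lit 8) C.nil) C.nil)) C.nil)) (C.cons (nat_lit 269) (C.node (nat_lit 0) (nat_lit 2) (nat_lit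 6) (C.cons (nat_lit 2117) (C.node (nat_lit 0) (nat_lit 4) (nat_lit 6) (C.cons (nat_lit 337) (C.ref (nat_lit 89) (nat_lit 170942471017056)) C.nil)) C.nil)) C.nil))) List.nil))))))))))))

theorem ok12_169 : okL par12 (nat_lit 181) c12_169 (nat_lit 169) = true := by decide +kernel

noncomputable def c12_181 : List C :=
  (List.cons (C.node (nat_lit 0) (nat_lit 2) (nat_lit 9) (C.cons (nat_lit 581) (C.node (nat_lit 0) (nat_lit 2) (nat_lit 10) (C.cons (nat_lit 1045) (C.node (nat_lit 0) (nat_lit 2) (nat_lit 8) (C.cons (nat_lit 269) (C.node (nat_lit 0) (nat_lit 2) (nat_lit 11) (C.cons (nat_lit 2053) (C.node (nat_lit 0) (nat_lit 3) (nat_lit 9) (C.cons (nat_lit 553) (C.ref (nat_lit 113) (nat_lit 203029921141536)) (C.cons (nat_lit 521) (C.node (nat_lit 0) (nat_lit 5) (nat_lit 9) C.nil) C.nil))) C.nil)) (C.cons (nat_lit 261) (C.node (nat_lit 0) (nat_lit 2) (nat_lit 3) (C.cons (nat_lit 2061) (C.node (nat_lit 0) (nat_lit 3) (nat_lit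 9) (C.cons (nat_lit 553) (C.node (nat_lit 0) (nat_lit 5) (nat_lit 10) (C.cons (nat_lit 1121) (C.node (nat_lit 0) (nat_lit 4) (nat_lit 5) (C.cons (nat_lit 2097) (C.node (nat_lit 0) (nat_lit 6) (nat_lit 11) (C.cons (nat_lit 2113) (C.ref (nat_lit 89) (nat_lit 202832618987856)) C.nil)) (C.cons (nat_lit 49) (C.node (nat_lit 0) (nat_lit 5) (nat_lit 11) C.nil) C.nil))) (C.cons (nat_lit 1057) (C.node (nat_lit 0) (nat_lit 6) (nat_lit 10) C.nil) C.nil))) (C.cons (nat_lit 521) (C.node (nat_lit 0) (nat_lit 5) (nat_lit 9) C.nil) C.nil))) (C.cons (nat_lit 13) (C.node (nat_lit 0) (nat_lit 2) (nat_lit 11) C.nil) C.nil))) C.nil))) (C.cons (nat_lit 1029) (C.node (nat_lit 0) (nat_lit 3) (nat_lit 9) (C.cons (nat_lit 553) (C.ref (nat_lit 134) (nat_lit 203029921141536)) (C.cons (nat_lit 521) (C.node (nat_lit 0) (nat_lit 5) (nat_lit 9) C.nil) C.nil))) C.nil))) (C.cons (nat_lit 525) (C.node (nat_lit 0) (nat_lit 5) (nat_lit 9) (C.cons (nat_lit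 609) (C.node (nat_lit 0) (nat_lit 5) (nat_lit 10) (C.cons (nat_lit 1073) (C.node (nat_lit 0) (nat_lit 2) (nat_lit 10) (C.cons (nat_lit 1093) (C.node (nat_lit 0) (nat_lit 2) (nat_lit 8) (C.cons (nat_lit 277) (C.node (nat_lit 0) (nat_lit 2) (nat_lit 11) (C.cons (nat_lit 2053) (C.node (nat_lit 0) (nat_lit 3) (nat_lit 5) (C.cons (nat_lit 2089) (C.node (nat_lit 0) (nat_lit 3) (nat_lit 4) (C.cons (nat_lit 89) (C.pat (nat_lit 2) (nat_lit 35002753428) (nat_lit 6489724087460136494270190165685323988689159237)) (C.cons (nat_lit 25) (C.node (nat_lit 0) (nat_lit 3) (nat_lit 6) (C.cons (nat_lit 329) (C.pat (nat_lit 3) (nat_lit 10255407273) (nat_lit 6177418378566965077508634321423261907062820737)) C.nil)) C.nil))) (C.cons (nat_lit 41) (C.node (nat_lit 0) (nat_lit 5) (nat_lit 11) C.nil) C.nil))) C.nil)) (C.cons (nat_lit 261) (C.node (nat_lit 0) (nat_lit 2) (nat_lit 4) (C.cons (nat_lit 2069) (C.node (nat_lit 0) (nat_lit 3) (nat_lit 5)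 (C.cons (nat_lit 2089) (C.node (nat_lit 0) (nat_lit 6) (nat_lit 11) (C.cons (nat_lit 2113) (C.ref (nat_lit 89) (nat_lit 202836646502736)) C.nil)) (C.cons (nat_lit 41) (C.node (nat_lit 0) (nat_lit 5) (nat_lit 11) C.nil) C.nil))) (C.cons (nat_lit 21) (C.node (nat_lit 0) (nat_lit 2) (nat_lit 11) C.nil) C.nil))) C.nil))) (C.cons (nat_lit 1029) (C.node (nat_lit 0) (nat_lit 6) (nat_lit 10) (C.cons (nat_lit 1089) (C.node (nat_lit 0) (nat_lit 3) (nat_lit 5) (C.cons (nat_lit 2089) (C.ref (nat_lit 106) (nat_lit 203029917995856)) C.nil)) C.nil)) C.nil))) (C.cons (nat_lit 1057) (C.ref (nat_lit 133) (nat_lit 153551894745936)) C.nil))) (C.cons (nat_lit 545) (C.node (nat_lit 0) (nat_lit 6) (nat_lit 9) (C.cons (nat_lit 577) (C.ref (nat_lit 179) (nat_lit 205163983024656)) C.nil)) C.nil))) (C.cons (nat_lit 517) (C.node (nat_lit 0) (nat_lit 2) (nat_lit 10) (C.cons (nat_lit 1093) (C.node (nat_lit 0) (nat_lit 4) (nat_lit 10) (C.cons (nat_lit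 1073) (C.ref (nat_lit 134) (nat_lit 202961470034976)) (C.cons (nat_lit 1041) (C.node (nat_lit 0) (nat_lit 5) (nat_lit 10) C.nil) C.nil))) (C.cons (nat_lit 1045) (C.node (nat_lit 0) (nat_lit 5) (nat_lit 10) (C.cons (nat_lit 1121) (C.node (nat_lit 0) (nat_lit 5) (nat_lit 9) (C.cons (nat_lit 553) (C.node (nat_lit 0) (nat_lit 6) (nat_lit 9) (C.cons (nat_lit 577) (C.node (nat_lit 0) (nat_lit 4) (nat_lit 5) (C.cons (nat_lit 2097) (C.ref (nat_lit 106) (nat_lit 202961466889296)) C.nil)) C.nil)) (C.cons (nat_lit 545) (C.node (nat_lit 0) (nat_lit 3) (nat_lit 9) (C.cons (nat_lit 585)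
  (C.ref (nat_lit 180) (nat_lit 205163983024656)) C.nil)) C.nil))) (C.cons (nat_lit 1057) (C.node (nat_lit 0) (nat_lit 6) (nat_lit 10) C.nil) C.nil))) (C.cons (nat_lit 1029) (C.node (nat_lit 0) (nat_lit 3) (nat_lit 9) (C.cons (nat_lit 585) (C.node (nat_lit 0) (nat_lit 5) (nat_lit 9) C.nil) (C.cons (nat_lit 553) (C.node (nat_lit 0) (nat_lit 6) (nat_lit 9) C.nil) C.nil))) C.nil)))) C.nil)))) (List.cons (C.node (nat_lit 0) (nat_lit 2) (nat_lit 8) (C.cons (nat_lit 277) (C.node (nat_lit 0) (nat_lit 2) (nat_lit 3) (C.cons (nat_lit 2061) (C.node (nat_lit 0) (nat_lit 3) (nat_lit 8) (C.cons (nat_lit 329) (C.node (nat_lit 0) (nat_lit 3) (nat_lit 4) (C.cons (nat_lit 1049) (C.ref (nat_lit 90) (nat_lit 135968000906016)) (C.cons (nat_lit 25) (C.node (nat_lit 0) (nat_lit 3) (nat_lit 10) (C.cons (nat_lit 1033) (C.ref (nat_lit 94) (nat_lit 134933213688096)) C.nil)) C.nil))) (C.cons (nat_lit 265) (C.node (nat_lit 0) (nat_lit 6) (nat_lit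 8) (C.cons (nat_lit 321) (C.ref (nat_lit 109) (nat_lit 205091505443616)) C.nil)) C.nil))) (C.cons (nat_lit 13) (C.node (nat_lit 0) (nat_lit 2) (nat_lit 11) (C.cons (nat_lit 2053) (C.node (nat_lit 0) (nat_lit 3) (nat_lit 8) (C.cons (nat_lit 329) (C.node (nat_lit 0) (nat_lit 3) (nat_lit 10) (C.cons (nat_lit 1049) (C.node (nat_lit 0) (nat_lit 3) (nat_lit 11) C.nil) C.nil)) C.nil)) C.nil)) C.nil))) (C.cons (nat_lit 269) (C.node (nat_lit 0) (nat_lit 2) (nat_lit 4) (C.cons (nat_lit 2069) (C.node (nat_lit 0) (nat_lit 3) (nat_lit 11) (C.cons (nat_lit 2121) (C.node (nat_lit 0) (nat_lit 5) (nat_lit 11) (C.cons (nat_lit 2081) (C.ref (nat_lit 108) (nat_lit 185248755560736)) C.nil)) (C.cons (nat_lit 2057) (C.node (nat_lit 0) (nat_lit 4) (nat_lit 8) (C.cons (nat_lit 337) (C.node (nat_lit 0) (nat_lit 3) (nat_lit 4) (C.cons (nat_lit 1049) (C.node (nat_lit 0) (nat_lit 3) (nat_lit 6) (C.cons (nat_lit 73) (C.node (nat_lit 0) (nat_lit 4)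 (nat_lit 5) C.nil) C.nil)) (C.cons (nat_lit 25) (C.node (nat_lit 0) (nat_lit 3) (nat_lit 6) (C.cons (nat_lit 1097) (C.node (nat_lit 0) (nat_lit 4) (nat_lit 5) (C.cons (nat_lit 1073) (C.pat (nat_lit 3) (nat_lit 18545322153) (nat_lit 7515450159645015434617773157503763981363646337)) C.nil)) C.nil)) C.nil))) (C.cons (nat_lit 273) (C.node (nat_lit 0) (nat_lit 6) (nat_lit 8) C.nil) C.nil))) C.nil))) (C.cons (nat_lit 21) (C.node (nat_lit 0) (nat_lit 2) (nat_lit 11) (C.cons (nat_lit 2053) (C.ref (nat_lit 117) (nat_lit 203029921141536)) C.nil)) C.nil))) (C.cons (nat_lit 261) (C.node (nat_lit 0) (nat_lit 2) (nat_lit 3) (C.cons (nat_lit 2061) (C.node (nat_lit 0) (nat_lit 2) (nat_lit 4) (C.cons (nat_lit 21) (C.ref (nat_lit 118) (nat_lit 153551897891616)) C.nil)) (C.cons (nat_lit 29) (C.node (nat_lit 0) (nat_lit 2) (nat_lit 11) (C.cons (nat_lit 2053) (C.node (nat_lit 0) (nat_lit 3) (nat_lit 8) (C.cons (nat_lit 329) (C.node (nat_lit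 0) (nat_lit 3) (nat_lit 10) C.nil) C.nil)) C.nil)) (C.cons (nat_lit 13) (C.node (nat_lit 0) (nat_lit 2) (nat_lit 4) (C.cons (nat_lit 2069) (C.node (nat_lit 0) (nat_lit 3) (nat_lit 11) (C.cons (nat_lit 2121) (C.node (nat_lit 0) (nat_lit 5) (nat_lit 11) C.nil) C.nil)) C.nil)) C.nil)))) C.nil)))) (List.cons (C.node (nat_lit 0) (nat_lit 2) (nat_lit 8) (C.cons (nat_lit 277) (C.node (nat_lit 0) (nat_lit 2) (nat_lit 3) (C.cons (nat_lit 2061) (C.node (nat_lit 0) (nat_lit 3) (nat_lit 8) (C.cons (nat_lit 329) (C.ref (nat_lit 109) (nat_lit 205031075025696)) C.nil)) C.nil)) (C.cons (nat_lit 269) (C.node (nat_lit 0) (nat_lit 2) (nat_lit 4) (C.cons (nat_lit 2069) (C.ref (nat_lit 174) (nat_lit 185248755560736)) C.nil)) C.nil))) (List.cons (C.node (nat_lit 0) (nat_lit 2) (nat_lit 8) (C.cons (nat_lit 325) (C.node (nat_lit 0) (nat_lit 2) (nat_lit 4) (C.cons (nat_lit 2069) (C.node (nat_lit 0) (nat_lit 4) (nat_lit 8) (C.cons (nat_lit 281)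 (C.ref (nat_lit 148) (nat_lit 188667282014496)) C.nil)) C.nil)) (C.cons (nat_lit 277) (C.node (nat_lit 0) (nat_lit 2) (nat_lit 6) (C.cons (nat_lit 2117) (C.node (nat_lit 0) (nat_lit 6) (nat_lit 8) (C.cons (nat_lit 329)
  (C.ref (nat_lit 106) (nat_lit 205031071880736)) C.nil)) C.nil)) C.nil))) (List.cons (C.node (nat_lit 0) (nat_lit 3) (nat_lit 8) (C.cons (nat_lit 281) (C.node (nat_lit 0) (nat_lit 2) (nat_lit 3) (C.cons (nat_lit 2061) (C.node (nat_lit 0) (nat_lit 2) (nat_lit 4) (C.cons (nat_lit 85) (C.node (nat_lit 0) (nat_lit 2) (nat_lit 8) C.nil) C.nil)) C.nil)) (C.cons (nat_lit 269) (C.node (nat_lit 0) (nat_lit 4) (nat_lit 8) (C.cons (nat_lit 337) (C.node (nat_lit 0) (nat_lit 2) (nat_lit 4) (C.cons (nat_lit 2069) (C.node (nat_lit 0) (nat_lit 2) (nat_lit 6) C.nil) C.nil)) C.nil)) C.nil))) (List.cons (C.node (nat_lit 0) (nat_lit 2) (nat_lit 9) (C.cons (nat_lit 581) (C.node (nat_lit 0) (nat_lit 3) (nat_lit 9) (C.cons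 (nat_lit 553) (C.ref (nat_lit 182) (nat_lit 205163983024656)) (C.cons (nat_lit 521) (C.node (nat_lit 0) (nat_lit 5) (nat_lit 9) (C.cons (nat_lit 545) (C.ref (nat_lit 183) (nat_lit 205163983024656)) C.nil)) C.nil))) (C.cons (nat_lit 525) (C.node (nat_lit 0) (nat_lit 5) (nat_lit 9) (C.cons (nat_lit 609) (C.ref (nat_lit 182) (nat_lit 202973546558736)) (C.cons (nat_lit 545) (C.node (nat_lit 0) (nat_lit 6) (nat_lit 9) (C.cons (nat_lit 577) (C.ref (nat_lit 184) (nat_lit 205163983024656)) C.nil)) C.nil))) (C.cons (nat_lit 517) (C.node (nat_lit 0) (nat_lit 3) (nat_lit 9) (C.cons (nat_lit 585) (C.node (nat_lit 0) (nat_lit 5) (nat_lit 9) (C.cons (nat_lit 545) (C.ref (nat_lit 185) (nat_lit 205163983024656)) C.nil)) (C.cons (nat_lit 553) (C.node (nat_lit 0) (nat_lit 6) (nat_lit 9) (C.cons (nat_lit 577) (C.ref (nat_lit 184) (nat_lit 202973546558736)) C.nil)) (C.cons (nat_lit 521) (C.node (nat_lit 0) (nat_lit 5) (nat_lit 9) (C.cons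 (nat_lit 609) (C.ref (nat_lit 183) (nat_lit 202973546558736)) C.nil)) C.nil)))) C.nil)))) (List.cons (C.node (nat_lit 0) (nat_lit 1) (nat_lit 3) (C.cons (nat_lit 2059) (C.ref (nat_lit 178) (nat_lit 188671308608016)) (C.cons (nat_lit 11) (C.node (nat_lit 0) (nat_lit 1) (nat_lit 11) (C.cons (nat_lit 2051) (C.ref (nat_lit 186) (nat_lit 205163983024656)) C.nil)) C.nil))) (List.cons (C.node (nat_lit 0) (nat_lit 2) (nat_lit 9) (C.cons (nat_lit 581) (C.node (nat_lit 0) (nat_lit 2) (nat_lit 8) (C.cons (nat_lit 277) (C.node (nat_lit 0) (nat_lit 2) (nat_lit 10) (C.cons (nat_lit 1029) (C.node (nat_lit 0) (nat_lit 2) (nat_lit 11) (C.cons (nat_lit 2053) (C.node (nat_lit 0) (nat_lit 3) (nat_lit 8) (C.cons (nat_lit 329) (C.node (nat_lit 0) (nat_lit 3) (nat_lit 9) (C.cons (nat_lit 553) (C.pat (nat_lit 1) (nat_lit 2556908321) (nat_lit 1511272842646404691096145684095893833)) C.nil)) C.nil)) C.nil)) C.nil)) (C.cons (nat_lit 261) (C.node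 (nat_lit 0) (nat_lit 2) (nat_lit 10) (C.cons (nat_lit 1045) (C.node (nat_lit 0) (nat_lit 2) (nat_lit 11) (C.cons (nat_lit 2053) (C.node (nat_lit 0) (nat_lit 3) (nat_lit 9) (C.cons (nat_lit 553) (C.node (nat_lit 0) (nat_lit 3) (nat_lit 10) (C.cons (nat_lit 1097) (C.node (nat_lit 0) (nat_lit 5) (nat_lit 10) C.nil) C.nil)) C.nil)) C.nil)) (C.cons (nat_lit 1029) (C.node (nat_lit 0) (nat_lit 2) (nat_lit 4) (C.cons (nat_lit 2069) (C.node (nat_lit 0) (nat_lit 3) (nat_lit 9) (C.cons (nat_lit 553) (C.node (nat_lit 0) (nat_lit 3) (nat_lit 11) (C.cons (nat_lit 2121) (C.node (nat_lit 0) (nat_lit 5) (nat_lit 11) C.nil) C.nil)) C.nil)) C.nil)) C.nil))) C.nil))) (C.cons (nat_lit 517) (C.node (nat_lit 0) (nat_lit 2) (nat_lit 8) (C.cons (nat_lit 325) (C.node (nat_lit 0) (nat_lit 2) (nat_lit 10) (C.cons (nat_lit 1045) (C.node (nat_lit 0) (nat_lit 2) (nat_lit 11) (C.cons (nat_lit 2053) (C.node (nat_lit 0) (nat_lit 3) (nat_lit 8) (C.cons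 (nat_lit 281) (C.node (nat_lit 0) (nat_lit 3) (nat_lit 10) (C.cons (nat_lit 1097) (C.node (nat_lit 0) (nat_lit 5) (nat_lit 10) C.nil) (C.cons (nat_lit 1065) (C.node (nat_lit 0) (nat_lit 6) (nat_lit 10) C.nil) C.nil))) C.nil)) C.nil)) (C.cons (nat_lit 1029) (C.node (nat_lit 0) (nat_lit 2) (nat_lit 4) (C.cons (nat_lit 2069) (C.node (nat_lit 0) (nat_lit 3) (nat_lit 8) (C.cons (nat_lit 281) (C.node (nat_lit 0) (nat_lit 3) (nat_lit 11) (C.cons (nat_lit 2121)
  (C.node (nat_lit 0) (nat_lit 5) (nat_lit 11) C.nil) (C.cons (nat_lit 2089) (C.node (nat_lit 0) (nat_lit 6) (nat_lit 11) C.nil) C.nil))) C.nil)) C.nil)) C.nil))) (C.cons (nat_lit 277) (C.node (nat_lit 0) (nat_lit 2) (nat_lit 10) (C.cons (nat_lit 1093) (C.node (nat_lit 0) (nat_lit 2) (nat_lit 11) (C.cons (nat_lit 2053) (C.node (nat_lit 0) (nat_lit 3) (nat_lit 8) (C.cons (nat_lit 329) (C.node (nat_lit 0) (nat_lit 3) (nat_lit 9) (C.cons (nat_lit 553) (C.node (nat_lit 0)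 (nat_lit 6) (nat_lit 9) C.nil) C.nil)) C.nil)) C.nil)) (C.cons (nat_lit 1029) (C.node (nat_lit 0) (nat_lit 2) (nat_lit 6) (C.cons (nat_lit 2117) (C.node (nat_lit 0) (nat_lit 3) (nat_lit 8) (C.cons (nat_lit 329) (C.node (nat_lit 0) (nat_lit 3) (nat_lit 9) (C.cons (nat_lit 553) (C.node (nat_lit 0) (nat_lit 6) (nat_lit 9) C.nil) C.nil)) C.nil)) C.nil)) C.nil))) (C.cons (nat_lit 261) (C.node (nat_lit 0) (nat_lit 2) (nat_lit 10) (C.cons (nat_lit 1093) (C.node (nat_lit 0) (nat_lit 2) (nat_lit 4) (C.cons (nat_lit 2069) (C.node (nat_lit 0) (nat_lit 3) (nat_lit 8) (C.cons (nat_lit 329) (C.node (nat_lit 0) (nat_lit 4) (nat_lit 8) C.nil) (C.cons (nat_lit 281) (C.node (nat_lit 0) (nat_lit 6) (nat_lit 8) C.nil) C.nil))) C.nil)) (C.cons (nat_lit 1045) (C.node (nat_lit 0) (nat_lit 2) (nat_lit 6) (C.cons (nat_lit 2117) (C.node (nat_lit 0) (nat_lit 3) (nat_lit 8) (C.cons (nat_lit 329) (C.node (nat_lit 0) (nat_lit 4) (nat_lit 8) C.nil)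 (C.cons (nat_lit 281) (C.node (nat_lit 0) (nat_lit 6) (nat_lit 8) C.nil) C.nil))) C.nil)) C.nil))) C.nil)))) C.nil))) (List.cons (C.node (nat_lit 0) (nat_lit 2) (nat_lit 9) (C.cons (nat_lit 581) (C.node (nat_lit 0) (nat_lit 3) (nat_lit 9) (C.cons (nat_lit 553) (C.node (nat_lit 0) (nat_lit 2) (nat_lit 8) (C.cons (nat_lit 277) (C.node (nat_lit 0) (nat_lit 2) (nat_lit 10) (C.cons (nat_lit 1037) (C.node (nat_lit 0) (nat_lit 2) (nat_lit 11) C.nil) C.nil)) (C.cons (nat_lit 269) (C.node (nat_lit 0) (nat_lit 2) (nat_lit 10) (C.cons (nat_lit 1045) (C.node (nat_lit 0) (nat_lit 2) (nat_lit 11) C.nil) C.nil)) C.nil))) C.nil)) (C.cons (nat_lit 525) (C.node (nat_lit 0) (nat_lit 5) (nat_lit 9) (C.cons (nat_lit 609) (C.node (nat_lit 0) (nat_lit 2) (nat_lit 8) (C.cons (nat_lit 325) (C.node (nat_lit 0) (nat_lit 2) (nat_lit 10) (C.cons (nat_lit 1045) (C.node (nat_lit 0) (nat_lit 2) (nat_lit 11) C.nil) C.nil)) (C.cons (nat_lit 277) (C.node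 (nat_lit 0) (nat_lit 2) (nat_lit 10) (C.cons (nat_lit 1093) (C.node (nat_lit 0) (nat_lit 2) (nat_lit 11) C.nil) C.nil)) C.nil))) C.nil)) C.nil))) (List.cons (C.node (nat_lit 0) (nat_lit 1) (nat_lit 2) (C.cons (nat_lit 2055) (C.node (nat_lit 0) (nat_lit 1) (nat_lit 3) (C.cons (nat_lit 11) (C.ref (nat_lit 186) (nat_lit 188671308608016)) C.nil)) (C.cons (nat_lit 15) (C.node (nat_lit 0) (nat_lit 1) (nat_lit 11) (C.cons (nat_lit 2051) (C.ref (nat_lit 188) (nat_lit 205163983024656)) C.nil)) (C.cons (nat_lit 7) (C.node (nat_lit 0) (nat_lit 1) (nat_lit 3) (C.cons (nat_lit 2059) (C.ref (nat_lit 181) (nat_lit 188671308608016)) (C.cons (nat_lit 11) (C.node (nat_lit 0) (nat_lit 1) (nat_lit 11) (C.cons (nat_lit 2051) (C.ref (nat_lit 189) (nat_lit 205163983024656)) C.nil)) C.nil))) C.nil)))) (List.cons (C.node (nat_lit 0) (nat_lit 1) (nat_lit 10) (C.cons (nat_lit 1035) (C.node (nat_lit 0) (nat_lit 1) (nat_lit 2) (C.cons (nat_lit 2055)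 (C.ref (nat_lit 178) (nat_lit 205163983024656)) (C.cons (nat_lit 7) (C.node (nat_lit 0) (nat_lit 1) (nat_lit 11) (C.cons (nat_lit 2051) (C.ref (nat_lit 181) (nat_lit 205163983024656)) C.nil)) C.nil))) (C.cons (nat_lit 1031) (C.ref (nat_lit 187) (nat_lit 205163983024656)) (C.cons (nat_lit 1027) (C.ref (nat_lit 190) (nat_lit 205163983024656)) C.nil)))) (List.cons (C.node (nat_lit 0) (nat_lit 2) (nat_lit 10) (C.cons (nat_lit 1093) (C.node (nat_lit 0) (nat_lit 2) (nat_lit 4) (C.cons (nat_lit 2069) (C.node (nat_lit 0) (nat_lit 4) (nat_lit 10) (C.cons (nat_lit 1073) (C.node (nat_lit 0) (nat_lit 3) (nat_lit 10) C.nil) C.nil)) C.nil)) (C.cons (nat_lit 1045) (C.node (nat_lit 0) (nat_lit 2) (nat_lit 6) (C.cons (nat_lit 2117)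
  (C.node (nat_lit 0) (nat_lit 4) (nat_lit 11) (C.cons (nat_lit 2097) (C.node (nat_lit 0) (nat_lit 3) (nat_lit 11) C.nil) C.nil)) C.nil)) C.nil))) (List.cons (C.node (nat_lit 0) (nat_lit 3) (nat_lit 8) (C.cons (nat_lit 329) (C.node (nat_lit 0) (nat_lit 2) (nat_lit 8) (C.cons (nat_lit 277) (C.ref (nat_lit 121) (nat_lit 205159940760336)) (C.cons (nat_lit 261) (C.node (nat_lit 0) (nat_lit 4) (nat_lit 8) (C.cons (nat_lit 273) (C.node (nat_lit 0) (nat_lit 3) (nat_lit 9) (C.cons (nat_lit 553) (C.node (nat_lit 0) (nat_lit 3) (nat_lit 10) (C.cons (nat_lit 1037) (C.node (nat_lit 0) (nat_lit 3) (nat_lit 11) C.nil) C.nil)) C.nil)) C.nil)) C.nil))) (C.cons (nat_lit 269) (C.node (nat_lit 0) (nat_lit 4) (nat_lit 8) (C.cons (nat_lit 337) (C.ref (nat_lit 121) (nat_lit 205159940695056)) (C.cons (nat_lit 273) (C.node (nat_lit 0) (nat_lit 6) (nat_lit 8) (C.cons (nat_lit 321) (C.ref (nat_lit 192) (nat_lit 205163983024656)) C.nil)) C.nil)))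 (C.cons (nat_lit 265) (C.node (nat_lit 0) (nat_lit 2) (nat_lit 8) (C.cons (nat_lit 325) (C.node (nat_lit 0) (nat_lit 4) (nat_lit 8) (C.cons (nat_lit 273) (C.node (nat_lit 0) (nat_lit 2) (nat_lit 3) (C.cons (nat_lit 2061) (C.node (nat_lit 0) (nat_lit 2) (nat_lit 4) (C.cons (nat_lit 1045) (C.node (nat_lit 0) (nat_lit 3) (nat_lit 9) (C.cons (nat_lit 585) (C.node (nat_lit 0) (nat_lit 3) (nat_lit 5) (C.cons (nat_lit 1065) (C.node (nat_lit 0) (nat_lit 6) (nat_lit 10) C.nil) C.nil)) (C.cons (nat_lit 553) (C.node (nat_lit 0) (nat_lit 3) (nat_lit 6) (C.cons (nat_lit 1097) (C.node (nat_lit 0) (nat_lit 5) (nat_lit 10) C.nil) C.nil)) C.nil))) C.nil)) (C.cons (nat_lit 1037) (C.node (nat_lit 0) (nat_lit 2) (nat_lit 4) (C.cons (nat_lit 2069) (C.node (nat_lit 0) (nat_lit 3) (nat_lit 9) (C.cons (nat_lit 585) (C.node (nat_lit 0) (nat_lit 3) (nat_lit 5) (C.cons (nat_lit 2089) (C.node (nat_lit 0) (nat_lit 6) (nat_lit 11) C.nil) C.nil))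 (C.cons (nat_lit 553) (C.node (nat_lit 0) (nat_lit 3) (nat_lit 6) (C.cons (nat_lit 2121) (C.node (nat_lit 0) (nat_lit 5) (nat_lit 11) C.nil) C.nil)) C.nil))) C.nil)) C.nil))) C.nil)) (C.cons (nat_lit 277) (C.node (nat_lit 0) (nat_lit 6) (nat_lit 8) (C.cons (nat_lit 321) (C.ref (nat_lit 192) (nat_lit 205163982963216)) C.nil)) (C.cons (nat_lit 261) (C.node (nat_lit 0) (nat_lit 4) (nat_lit 8) (C.cons (nat_lit 337) (C.node (nat_lit 0) (nat_lit 4) (nat_lit 9) (C.cons (nat_lit 561) (C.node (nat_lit 0) (nat_lit 4) (nat_lit 10) (C.cons (nat_lit 1045) (C.node (nat_lit 0) (nat_lit 4) (nat_lit 11) C.nil) C.nil)) C.nil)) C.nil)) C.nil)))) C.nil)))) (List.cons (C.node (nat_lit 0) (nat_lit 2) (nat_lit 8) (C.cons (nat_lit 325) (C.node (nat_lit 0) (nat_lit 3) (nat_lit 8) (C.cons (nat_lit 281) (C.ref (nat_lit 159) (nat_lit 205159940764176)) C.nil)) (C.cons (nat_lit 277) (C.node (nat_lit 0) (nat_lit 3) (nat_lit 8) (C.cons (nat_lit 329)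 (C.ref (nat_lit 123) (nat_lit 205159940760336)) C.nil)) (C.cons (nat_lit 269) (C.node (nat_lit 0) (nat_lit 4) (nat_lit 8) (C.cons (nat_lit 337) (C.ref (nat_lit 123) (nat_lit 205159940695056)) C.nil)) C.nil)))) (List.cons (C.node (nat_lit 0) (nat_lit 1) (nat_lit 3) (C.cons (nat_lit 2059) (C.node (nat_lit 0) (nat_lit 1) (nat_lit 4) (C.cons (nat_lit 19) (C.ref (nat_lit 186) (nat_lit 186609724244496)) C.nil)) (C.cons (nat_lit 27) (C.node (nat_lit 0) (nat_lit 1) (nat_lit 11) (C.cons (nat_lit 2051) (C.ref (nat_lit 193) (nat_lit 205163983024656)) C.nil)) (C.cons (nat_lit 11) (C.node (nat_lit 0) (nat_lit 1) (nat_lit 4) (C.cons (nat_lit 2067) (C.ref (nat_lit 186) (nat_lit 186609724305936)) (C.cons (nat_lit 19) (C.node (nat_lit 0) (nat_lit 1) (nat_lit 11) (C.cons (nat_lit 2051) (C.ref (nat_lit 194) (nat_lit 205163983024656)) C.nil)) C.nil))) C.nil)))) (List.cons (C.node (nat_lit 0) (nat_lit 1) (nat_lit 3) (C.cons (nat_lit 2059)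 (C.ref (nat_lit 188) (nat_lit 186609724244496)) (C.cons (nat_lit 11) (C.node (nat_lit 0) (nat_lit 1) (nat_lit 11) (C.cons (nat_lit 2051) (C.node (nat_lit 0) (nat_lit 2) (nat_lit 8) (C.cons (nat_lit 325) (C.node (nat_lit 0) (nat_lit 2) (nat_lit 9) (C.cons (nat_lit 525)
  (C.node (nat_lit 0) (nat_lit 2) (nat_lit 10) C.nil) C.nil)) (C.cons (nat_lit 269) (C.node (nat_lit 0) (nat_lit 2) (nat_lit 9) (C.cons (nat_lit 581) (C.node (nat_lit 0) (nat_lit 2) (nat_lit 10) C.nil) C.nil)) C.nil))) C.nil)) C.nil))) List.nil))))))))))))))))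

theorem ok12_181 : okL par12 (nat_lit 197) c12_181 (nat_lit 181) = true := by decide +kernel

noncomputable def c12_197 : List C :=
  (List.cons (C.node (nat_lit 0) (nat_lit 1) (nat_lit 9) (C.cons (nat_lit 531) (C.ref (nat_lit 191) (nat_lit 205163983024656)) (C.cons (nat_lit 523) (C.ref (nat_lit 191) (nat_lit 205163982963216)) (C.cons (nat_lit 519) (C.node (nat_lit 0) (nat_lit 1) (nat_lit 10) (C.cons (nat_lit 1043) (C.ref (nat_lit 187) (nat_lit 204133190873616)) (C.cons (nat_lit 1035) (C.ref (nat_lit 187) (nat_lit 204133190812176)) (C.cons (nat_lit 1027) (C.ref (nat_lit 195) (nat_lit 205163983024656)) C.nil)))) (C.cons (nat_lit 515) (C.node (nat_lit 0) (nat_lit 1) (nat_lit 10) (C.cons (nat_lit 1043) (C.ref (nat_lit 190) (nat_lit 204133190873616)) (C.cons (nat_lit 1035) (C.ref (nat_lit 190) (nat_lit 204133190812176)) (C.cons (nat_lit 1031) (C.ref (nat_lit 195) (nat_lit 204133190873616)) (C.cons (nat_lit 1027) (C.node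 (nat_lit 0) (nat_lit 1) (nat_lit 2) (C.cons (nat_lit 2055) (C.node (nat_lit 0) (nat_lit 1) (nat_lit 3) (C.cons (nat_lit 27) (C.ref (nat_lit 193) (nat_lit 186609724305936)) (C.cons (nat_lit 11) (C.node (nat_lit 0) (nat_lit 1) (nat_lit 4) (C.cons (nat_lit 19) (C.ref (nat_lit 194) (nat_lit 186609724305936)) C.nil)) C.nil))) (C.cons (nat_lit 23) (C.ref (nat_lit 196) (nat_lit 205163983024656)) (C.cons (nat_lit 15) (C.ref (nat_lit 196) (nat_lit 205163982963216)) (C.cons (nat_lit 7) (C.node (nat_lit 0) (nat_lit 1) (nat_lit 3) (C.cons (nat_lit 2059) (C.node (nat_lit 0) (nat_lit 1) (nat_lit 4) (C.cons (nat_lit 19) (C.ref (nat_lit 189) (nat_lit 186609724244496)) C.nil)) (C.cons (nat_lit 27) (C.node (nat_lit 0) (nat_lit 1) (nat_lit 11) (C.cons (nat_lit 2051) (C.node (nat_lit 0) (nat_lit 3) (nat_lit 8) (C.cons (nat_lit 329) (C.node (nat_lit 0) (nat_lit 2) (nat_lit 8) (C.cons (nat_lit 277) (C.node (nat_lit 0) (nat_lit 2) (nat_lit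 9) (C.cons (nat_lit 581) (C.node (nat_lit 0) (nat_lit 2) (nat_lit 10) (C.cons (nat_lit 1037) (C.node (nat_lit 0) (nat_lit 2) (nat_lit 11) C.nil) C.nil)) (C.cons (nat_lit 525) (C.node (nat_lit 0) (nat_lit 2) (nat_lit 10) (C.cons (nat_lit 1093) (C.node (nat_lit 0) (nat_lit 2) (nat_lit 11) C.nil) C.nil)) C.nil))) C.nil)) (C.cons (nat_lit 269) (C.node (nat_lit 0) (nat_lit 4) (nat_lit 8) (C.cons (nat_lit 337) (C.node (nat_lit 0) (nat_lit 2) (nat_lit 9) (C.cons (nat_lit 581) (C.node (nat_lit 0) (nat_lit 2) (nat_lit 10) (C.cons (nat_lit 1045) (C.node (nat_lit 0) (nat_lit 2) (nat_lit 11) C.nil) C.nil)) (C.cons (nat_lit 533) (C.node (nat_lit 0) (nat_lit 2) (nat_lit 10) (C.cons (nat_lit 1093) (C.node (nat_lit 0) (nat_lit 2) (nat_lit 11) C.nil) C.nil)) C.nil))) C.nil)) C.nil))) C.nil)) (C.cons (nat_lit 11) (C.node (nat_lit 0) (nat_lit 1) (nat_lit 4) (C.cons (nat_lit 2067) (C.ref (nat_lit 189) (nat_lit 186609724305936)) C.nil))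 C.nil)))) C.nil))))) C.nil))))) C.nil))))) (List.cons (C.node (nat_lit 0) (nat_lit 2) (nat_lit 10) (C.cons (nat_lit 1045) (C.node (nat_lit 0) (nat_lit 2) (nat_lit 3) (C.cons (nat_lit 525) (C.node (nat_lit 0) (nat_lit 4) (nat_lit 9) (C.cons (nat_lit 593) (C.ref (nat_lit 105) (nat_lit 153551882101776)) (C.cons (nat_lit 529) (C.node (nat_lit 0) (nat_lit 6) (nat_lit 9) (C.cons (nat_lit 577) (C.node (nat_lit 0) (nat_lit 5) (nat_lit 10) (C.cons (nat_lit 1121) (C.ref (nat_lit 104) (nat_lit 135895523202336)) C.nil)) C.nil)) C.nil))) (C.cons (nat_lit 13) (C.node (nat_lit 0) (nat_lit 2) (nat_lit 9) (C.cons (nat_lit 517) (C.ref (nat_lit 174) (nat_lit 205099558515216)) C.nil)) C.nil))) (C.cons (nat_lit 1029) (C.ref (nat_lit 175) (nat_lit 205099558515216)) C.nil))) (List.cons (C.node (nat_lit 0) (nat_lit 1) (nat_lit 2) (C.cons (nat_lit 2055) (C.node (nat_lit 0) (nat_lit 1) (nat_lit 5) (C.cons (nat_lit 1059) (C.ref (nat_lit 175) (nat_lit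 204004341854736)) (C.cons (nat_lit 35) (C.node (nat_lit 0) (nat_lit 1) (nat_lit 10) C.nil) C.nil))) (C.cons (nat_lit 1031) (C.node (nat_lit 0) (nat_lit 1) (nat_lit 5) (C.cons (nat_lit 2083) (C.ref (nat_lit 175) (nat_lit 186416450777616)) (C.cons (nat_lit 35) (C.node (nat_lit 0) (nat_lit 1) (nat_lit 11) C.nil) C.nil))) (C.cons (nat_lit 7) (C.node (nat_lit 0) (nat_lit 1) (nat_lit 10)
  (C.cons (nat_lit 1059) (C.node (nat_lit 0) (nat_lit 1) (nat_lit 11) C.nil) C.nil)) C.nil)))) (List.cons (C.node (nat_lit 0) (nat_lit 1) (nat_lit 9) (C.cons (nat_lit 547) (C.node (nat_lit 0) (nat_lit 1) (nat_lit 10) (C.cons (nat_lit 1035) (C.node (nat_lit 0) (nat_lit 1) (nat_lit 2) (C.cons (nat_lit 2055) (C.ref (nat_lit 198) (nat_lit 205163983024656)) (C.cons (nat_lit 7) (C.node (nat_lit 0) (nat_lit 1) (nat_lit 11) (C.cons (nat_lit 2051) (C.node (nat_lit 0) (nat_lit 2) (nat_lit 10) (C.cons (nat_lit 1045) (C.node (nat_lit 0) (nat_lit 2) (nat_lit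 9) (C.cons (nat_lit 525) (C.node (nat_lit 0) (nat_lit 2) (nat_lit 11) C.nil) C.nil)) C.nil)) C.nil)) C.nil))) (C.cons (nat_lit 1031) (C.node (nat_lit 0) (nat_lit 1) (nat_lit 3) (C.cons (nat_lit 2059) (C.ref (nat_lit 198) (nat_lit 188671308608016)) (C.cons (nat_lit 11) (C.node (nat_lit 0) (nat_lit 1) (nat_lit 11) (C.cons (nat_lit 2051) (C.ref (nat_lit 183) (nat_lit 205099558515216)) C.nil)) C.nil))) (C.cons (nat_lit 1027) (C.node (nat_lit 0) (nat_lit 1) (nat_lit 2) (C.cons (nat_lit 2055) (C.node (nat_lit 0) (nat_lit 1) (nat_lit 3) (C.cons (nat_lit 11) (C.ref (nat_lit 183) (nat_lit 188606884098576)) C.nil)) (C.cons (nat_lit 15) (C.node (nat_lit 0) (nat_lit 1) (nat_lit 11) (C.cons (nat_lit 2051) (C.node (nat_lit 0) (nat_lit 2) (nat_lit 9) (C.cons (nat_lit 533) (C.node (nat_lit 0) (nat_lit 2) (nat_lit 10) C.nil) C.nil)) C.nil)) (C.cons (nat_lit 7) (C.node (nat_lit 0) (nat_lit 1) (nat_lit 3) (C.cons (nat_lit 2059) (C.node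 (nat_lit 0) (nat_lit 2) (nat_lit 11) (C.cons (nat_lit 2069) (C.node (nat_lit 0) (nat_lit 2) (nat_lit 9) (C.cons (nat_lit 525) (C.node (nat_lit 0) (nat_lit 2) (nat_lit 10) C.nil) C.nil)) C.nil)) C.nil)) C.nil)))) C.nil)))) (C.cons (nat_lit 523) (C.node (nat_lit 0) (nat_lit 2) (nat_lit 9) (C.cons (nat_lit 533) (C.node (nat_lit 0) (nat_lit 5) (nat_lit 9) (C.cons (nat_lit 609) (C.ref (nat_lit 127) (nat_lit 205027048363296)) (C.cons (nat_lit 545) (C.node (nat_lit 0) (nat_lit 6) (nat_lit 9) (C.cons (nat_lit 577) (C.node (nat_lit 0) (nat_lit 1) (nat_lit 2) (C.cons (nat_lit 2055) (C.node (nat_lit 0) (nat_lit 1) (nat_lit 5) (C.cons (nat_lit 1059) (C.node (nat_lit 0) (nat_lit 3) (nat_lit 2) (C.cons (nat_lit 1037) (C.node (nat_lit 0) (nat_lit 6) (nat_lit 10) (C.cons (nat_lit 1105) (C.ref (nat_lit 104) (nat_lit 153354546517536)) C.nil)) C.nil)) C.nil)) (C.cons (nat_lit 1031) (C.node (nat_lit 0) (nat_lit 1) (nat_lit 5) (C.cons (nat_lit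 2083) (C.node (nat_lit 0) (nat_lit 3) (nat_lit 2) (C.cons (nat_lit 2061) (C.node (nat_lit 0) (nat_lit 6) (nat_lit 11) (C.cons (nat_lit 2129) (C.ref (nat_lit 104) (nat_lit 152255303325216)) C.nil)) C.nil)) C.nil)) C.nil))) C.nil)) C.nil))) (C.cons (nat_lit 517) (C.ref (nat_lit 199) (nat_lit 205163983024656)) C.nil))) (C.cons (nat_lit 519) (C.node (nat_lit 0) (nat_lit 1) (nat_lit 10) (C.cons (nat_lit 1059) (C.node (nat_lit 0) (nat_lit 1) (nat_lit 3) (C.cons (nat_lit 2059) (C.ref (nat_lit 198) (nat_lit 171147842040336)) (C.cons (nat_lit 11) (C.node (nat_lit 0) (nat_lit 1) (nat_lit 11) (C.cons (nat_lit 2051) (C.ref (nat_lit 183) (nat_lit 204004341854736)) C.nil)) C.nil))) (C.cons (nat_lit 1035) (C.node (nat_lit 0) (nat_lit 1) (nat_lit 5) (C.cons (nat_lit 2083) (C.ref (nat_lit 198) (nat_lit 170117049889296)) (C.cons (nat_lit 35) (C.node (nat_lit 0) (nat_lit 1) (nat_lit 11) (C.cons (nat_lit 2051) (C.node (nat_lit 0) (nat_lit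 2) (nat_lit 10) (C.cons (nat_lit 1045) (C.node (nat_lit 0) (nat_lit 2) (nat_lit 3) (C.cons (nat_lit 2061) (C.node (nat_lit 0) (nat_lit 5) (nat_lit 10) (C.cons (nat_lit 1121) (C.node (nat_lit 0) (nat_lit 5) (nat_lit 11) (C.cons (nat_lit 2097) (C.node (nat_lit 0) (nat_lit 6) (nat_lit 11) C.nil) C.nil)) C.nil)) C.nil)) C.nil)) C.nil)) C.nil))) (C.cons (nat_lit 1027) (C.node (nat_lit 0) (nat_lit 1) (nat_lit 3) (C.cons (nat_lit 2059) (C.node (nat_lit 0) (nat_lit 1) (nat_lit 5) (C.cons (nat_lit 35) (C.node (nat_lit 0) (nat_lit 2) (nat_lit 11) (C.cons (nat_lit 2069) (C.node (nat_lit 0) (nat_lit 2) (nat_lit 3) (C.cons (nat_lit 1037)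
  (C.node (nat_lit 0) (nat_lit 5) (nat_lit 11) (C.cons (nat_lit 2145) (C.node (nat_lit 0) (nat_lit 5) (nat_lit 10) (C.cons (nat_lit 1073) (C.node (nat_lit 0) (nat_lit 6) (nat_lit 10) C.nil) C.nil)) C.nil)) C.nil)) C.nil)) C.nil)) (C.cons (nat_lit 43) (C.node (nat_lit 0) (nat_lit 1) (nat_lit 11) (C.cons (nat_lit 2051) (C.ref (nat_lit 192) (nat_lit 205159923929616)) C.nil)) (C.cons (nat_lit 11) (C.node (nat_lit 0) (nat_lit 1) (nat_lit 5) (C.cons (nat_lit 2083) (C.ref (nat_lit 183) (nat_lit 186416450777616)) C.nil)) C.nil)))) C.nil)))) (C.cons (nat_lit 515) (C.node (nat_lit 0) (nat_lit 2) (nat_lit 9) (C.cons (nat_lit 533) (C.node (nat_lit 0) (nat_lit 2) (nat_lit 10) (C.cons (nat_lit 1037) (C.node (nat_lit 0) (nat_lit 1) (nat_lit 2) (C.cons (nat_lit 2055) (C.node (nat_lit 0) (nat_lit 1) (nat_lit 3) (C.cons (nat_lit 43) (C.node (nat_lit 0) (nat_lit 1) (nat_lit 10) (C.cons (nat_lit 1027) (C.node (nat_lit 0) (nat_lit 3) (nat_lit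 9) (C.cons (nat_lit 585) (C.node (nat_lit 0) (nat_lit 5) (nat_lit 9) C.nil) C.nil)) C.nil)) (C.cons (nat_lit 11) (C.node (nat_lit 0) (nat_lit 1) (nat_lit 5) (C.cons (nat_lit 1059) (C.ref (nat_lit 174) (nat_lit 205031106490656)) C.nil)) C.nil))) (C.cons (nat_lit 7) (C.node (nat_lit 0) (nat_lit 2) (nat_lit 11) C.nil) C.nil))) (C.cons (nat_lit 1031) (C.node (nat_lit 0) (nat_lit 2) (nat_lit 3) (C.cons (nat_lit 2061) (C.node (nat_lit 0) (nat_lit 1) (nat_lit 3) (C.cons (nat_lit 43) (C.node (nat_lit 0) (nat_lit 1) (nat_lit 11) (C.cons (nat_lit 2051) (C.node (nat_lit 0) (nat_lit 3) (nat_lit 9) (C.cons (nat_lit 585) (C.node (nat_lit 0) (nat_lit 5) (nat_lit 9) C.nil) C.nil)) C.nil)) (C.cons (nat_lit 11) (C.node (nat_lit 0) (nat_lit 1) (nat_lit 5) (C.cons (nat_lit 2083) (C.ref (nat_lit 174) (nat_lit 188538432074016)) C.nil)) C.nil))) (C.cons (nat_lit 13) (C.node (nat_lit 0) (nat_lit 2) (nat_lit 11) C.nil) C.nil))) (C.cons (nat_lit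 1029) (C.node (nat_lit 0) (nat_lit 1) (nat_lit 2) (C.cons (nat_lit 2055) (C.node (nat_lit 0) (nat_lit 2) (nat_lit 3) C.nil) (C.cons (nat_lit 15) (C.node (nat_lit 0) (nat_lit 2) (nat_lit 11) C.nil) C.nil))) C.nil)))) (C.cons (nat_lit 525) (C.ref (nat_lit 199) (nat_lit 205159955509536)) (C.cons (nat_lit 517) (C.node (nat_lit 0) (nat_lit 1) (nat_lit 2) (C.cons (nat_lit 2055) (C.node (nat_lit 0) (nat_lit 1) (nat_lit 3) (C.cons (nat_lit 1035) (C.node (nat_lit 0) (nat_lit 1) (nat_lit 5) C.nil) (C.cons (nat_lit 43) (C.node (nat_lit 0) (nat_lit 1) (nat_lit 10) C.nil) C.nil))) (C.cons (nat_lit 1031) (C.node (nat_lit 0) (nat_lit 1) (nat_lit 3) (C.cons (nat_lit 2059) (C.node (nat_lit 0) (nat_lit 1) (nat_lit 5) C.nil) (C.cons (nat_lit 43) (C.node (nat_lit 0) (nat_lit 1) (nat_lit 11) C.nil) C.nil))) (C.cons (nat_lit 15) (C.node (nat_lit 0) (nat_lit 1) (nat_lit 10) (C.cons (nat_lit 1059) (C.node (nat_lit 0) (nat_lit 1) (nat_lit 11)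 C.nil) C.nil)) C.nil)))) C.nil)))) C.nil))))) (List.cons (C.node (nat_lit 0) (nat_lit 1) (nat_lit 9) (C.cons (nat_lit 547) (C.node (nat_lit 0) (nat_lit 1) (nat_lit 3) (C.cons (nat_lit 1035) (C.ref (nat_lit 177) (nat_lit 205099558515216)) (C.cons (nat_lit 11) (C.node (nat_lit 0) (nat_lit 1) (nat_lit 10) (C.cons (nat_lit 1027) (C.ref (nat_lit 184) (nat_lit 188606884098576)) C.nil)) C.nil))) (C.cons (nat_lit 523) (C.node (nat_lit 0) (nat_lit 1) (nat_lit 5) (C.cons (nat_lit 1059) (C.ref (nat_lit 177) (nat_lit 205031071961616)) (C.cons (nat_lit 35) (C.node (nat_lit 0) (nat_lit 1) (nat_lit 10) (C.cons (nat_lit 1027) (C.ref (nat_lit 184) (nat_lit 188538397544976)) C.nil)) C.nil))) (C.cons (nat_lit 515) (C.node (nat_lit 0) (nat_lit 1) (nat_lit 3) (C.cons (nat_lit 1035) (C.node (nat_lit 0) (nat_lit 1) (nat_lit 5) (C.cons (nat_lit 35) (C.ref (nat_lit 184) (nat_lit 170950506467856)) C.nil)) (C.cons (nat_lit 43) (C.node (nat_lit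 0) (nat_lit 1) (nat_lit 10) (C.cons (nat_lit 1027) (C.node (nat_lit 0) (nat_lit 2) (nat_lit 9) (C.cons (nat_lit 581) (C.node (nat_lit 0) (nat_lit 2) (nat_lit 4) (C.cons (nat_lit 1045) (C.node (nat_lit 0) (nat_lit 3) (nat_lit 9) (C.cons (nat_lit 537)
  (C.node (nat_lit 0) (nat_lit 5) (nat_lit 9) C.nil) C.nil)) C.nil)) (C.cons (nat_lit 533) (C.node (nat_lit 0) (nat_lit 2) (nat_lit 6) (C.cons (nat_lit 1093) (C.node (nat_lit 0) (nat_lit 5) (nat_lit 9) (C.cons (nat_lit 609) (C.node (nat_lit 0) (nat_lit 3) (nat_lit 9) C.nil) C.nil)) C.nil)) C.nil))) C.nil)) (C.cons (nat_lit 11) (C.node (nat_lit 0) (nat_lit 1) (nat_lit 5) (C.cons (nat_lit 1059) (C.ref (nat_lit 184) (nat_lit 171018993021456)) C.nil)) C.nil)))) C.nil)))) (List.cons (C.node (nat_lit 0) (nat_lit 1) (nat_lit 2) (C.cons (nat_lit 2055) (C.ref (nat_lit 201) (nat_lit 205163983024656)) (C.cons (nat_lit 1031) (C.ref (nat_lit 201) (nat_lit 188671308608016)) (C.cons (nat_lit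 519) (C.ref (nat_lit 201) (nat_lit 171147842040336)) (C.cons (nat_lit 7) (C.node (nat_lit 0) (nat_lit 1) (nat_lit 9) (C.cons (nat_lit 547) (C.node (nat_lit 0) (nat_lit 1) (nat_lit 10) (C.cons (nat_lit 1035) (C.node (nat_lit 0) (nat_lit 1) (nat_lit 11) (C.cons (nat_lit 2051) (C.ref (nat_lit 179) (nat_lit 205099558515216)) C.nil)) (C.cons (nat_lit 1027) (C.node (nat_lit 0) (nat_lit 1) (nat_lit 3) (C.cons (nat_lit 2059) (C.ref (nat_lit 179) (nat_lit 188606884098576)) C.nil)) C.nil))) (C.cons (nat_lit 523) (C.node (nat_lit 0) (nat_lit 1) (nat_lit 10) (C.cons (nat_lit 1059) (C.node (nat_lit 0) (nat_lit 1) (nat_lit 11) (C.cons (nat_lit 2051) (C.ref (nat_lit 179) (nat_lit 205031071961616)) C.nil)) (C.cons (nat_lit 1027) (C.node (nat_lit 0) (nat_lit 1) (nat_lit 5) (C.cons (nat_lit 2083) (C.ref (nat_lit 179) (nat_lit 188538397544976)) C.nil)) C.nil))) (C.cons (nat_lit 515) (C.node (nat_lit 0) (nat_lit 1) (nat_lit 10) (C.cons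 (nat_lit 1059) (C.node (nat_lit 0) (nat_lit 1) (nat_lit 3) (C.cons (nat_lit 2059) (C.ref (nat_lit 179) (nat_lit 171018993021456)) C.nil)) (C.cons (nat_lit 1035) (C.node (nat_lit 0) (nat_lit 1) (nat_lit 5) (C.cons (nat_lit 2083) (C.ref (nat_lit 179) (nat_lit 170950506467856)) C.nil)) C.nil))) C.nil)))) C.nil))))) (List.cons (C.node (nat_lit 0) (nat_lit 2) (nat_lit 3) (C.cons (nat_lit 525) (C.node (nat_lit 0) (nat_lit 4) (nat_lit 9) (C.cons (nat_lit 593) (C.node (nat_lit 0) (nat_lit 2) (nat_lit 4) (C.cons (nat_lit 1045) (C.node (nat_lit 0) (nat_lit 2) (nat_lit 6) (C.cons (nat_lit 69) (C.node (nat_lit 0) (nat_lit 5) (nat_lit 10) (C.cons (nat_lit 1121) (C.node (nat_lit 0) (nat_lit 6) (nat_lit 11) (C.cons (nat_lit 2113) (C.ref (nat_lit 89) (nat_lit 153358605509136)) C.nil)) (C.cons (nat_lit 1057) (C.node (nat_lit 0) (nat_lit 6) (nat_lit 10) C.nil) C.nil))) C.nil)) (C.cons (nat_lit 21) (C.node (nat_lit 0) (nat_lit 2) (nat_lit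 6) (C.cons (nat_lit 1093) (C.node (nat_lit 0) (nat_lit 4) (nat_lit 10) (C.cons (nat_lit 1073) (C.node (nat_lit 0) (nat_lit 3) (nat_lit 4) (C.cons (nat_lit 2073) (C.node (nat_lit 0) (nat_lit 3) (nat_lit 5) (C.cons (nat_lit 41) (C.node (nat_lit 0) (nat_lit 5) (nat_lit 6) (C.cons (nat_lit 2145) (C.pat (nat_lit 3) (nat_lit 18625932201) (nat_lit 46230174707802443718248107948501878953084784513)) C.nil)) C.nil)) (C.cons (nat_lit 25) (C.node (nat_lit 0) (nat_lit 4) (nat_lit 11) C.nil) C.nil))) (C.cons (nat_lit 1041) (C.node (nat_lit 0) (nat_lit 5) (nat_lit 10) C.nil) C.nil))) (C.cons (nat_lit 69) (C.node (nat_lit 0) (nat_lit 2) (nat_lit 10) C.nil) C.nil))) C.nil))) (C.cons (nat_lit 529) (C.node (nat_lit 0) (nat_lit 6) (nat_lit 9) (C.cons (nat_lit 577) (C.node (nat_lit 0) (nat_lit 2) (nat_lit 4) (C.cons (nat_lit 1045) (C.node (nat_lit 0) (nat_lit 2) (nat_lit 6) C.nil) (C.cons (nat_lit 85) (C.node (nat_lit 0) (nat_lit 2) (nat_lit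 10) C.nil) C.nil))) C.nil)) C.nil))) (C.cons (nat_lit 29) (C.node (nat_lit 0) (nat_lit 3) (nat_lit 9) (C.cons (nat_lit 521) (C.node (nat_lit 0) (nat_lit 2) (nat_lit 9) (C.cons (nat_lit 581) (C.node (nat_lit 0) (nat_lit 2) (nat_lit 10) (C.cons (nat_lit 1029) (C.node (nat_lit 0) (nat_lit 4) (nat_lit 9) C.nil) C.nil)) (C.cons (nat_lit 517) (C.node (nat_lit 0) (nat_lit 2) (nat_lit 6) (C.cons (nat_lit 1093) (C.node (nat_lit 0) (nat_lit 3) (nat_lit 5) (C.cons (nat_lit 2089)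
  (C.node (nat_lit 0) (nat_lit 4) (nat_lit 9) (C.cons (nat_lit 593) (C.node (nat_lit 0) (nat_lit 4) (nat_lit 11) C.nil) C.nil)) C.nil)) C.nil)) C.nil))) C.nil)) (C.cons (nat_lit 13) (C.node (nat_lit 0) (nat_lit 3) (nat_lit 9) (C.cons (nat_lit 537) (C.node (nat_lit 0) (nat_lit 2) (nat_lit 9) (C.cons (nat_lit 581) (C.node (nat_lit 0) (nat_lit 2) (nat_lit 4) (C.cons (nat_lit 1045) (C.node (nat_lit 0) (nat_lit 3) (nat_lit 5) (C.cons (nat_lit 2089) (C.node (nat_lit 0) (nat_lit 5) (nat_lit 4) (C.cons (nat_lit 113) (C.node (nat_lit 0) (nat_lit 5) (nat_lit 10) (C.cons (nat_lit 1057) (C.node (nat_lit 0) (nat_lit 6) (nat_lit 10) C.nil) C.nil)) (C.cons (nat_lit 49) (C.node (nat_lit 0) (nat_lit 5) (nat_lit 6) (C.cons (nat_lit 1121) (C.node (nat_lit 0) (nat_lit 6) (nat_lit 4) (C.cons (nat_lit 2129) (C.pat (nat_lit 3) (nat_lit 9765608361) (nat_lit 45828755849565637454687178426373989353606287233)) C.nil)) C.nil)) C.nil))) (C.cons (nat_lit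 41) (C.node (nat_lit 0) (nat_lit 3) (nat_lit 11) C.nil) C.nil))) (C.cons (nat_lit 21) (C.node (nat_lit 0) (nat_lit 2) (nat_lit 10) C.nil) C.nil))) (C.cons (nat_lit 517) (C.node (nat_lit 0) (nat_lit 6) (nat_lit 9) C.nil) C.nil))) (C.cons (nat_lit 521) (C.node (nat_lit 0) (nat_lit 2) (nat_lit 9) (C.cons (nat_lit 581) (C.node (nat_lit 0) (nat_lit 4) (nat_lit 9) C.nil) (C.cons (nat_lit 533) (C.node (nat_lit 0) (nat_lit 6) (nat_lit 9) C.nil) C.nil))) C.nil))) C.nil)))) (List.cons (C.node (nat_lit 0) (nat_lit 2) (nat_lit 10) (C.cons (nat_lit 1093) (C.node (nat_lit 0) (nat_lit 4) (nat_lit 10) (C.cons (nat_lit 1073) (C.node (nat_lit 0) (nat_lit 3) (nat_lit 5) (C.cons (nat_lit 2089) (C.node (nat_lit 0) (nat_lit 5) (nat_lit 6) C.nil) C.nil)) C.nil)) (C.cons (nat_lit 1045) (C.node (nat_lit 0) (nat_lit 5) (nat_lit 10) (C.cons (nat_lit 1121) (C.ref (nat_lit 180) (nat_lit 205099558515216)) C.nil)) C.nil))) (List.cons (C.node (nat_lit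 0) (nat_lit 1) (nat_lit 2) (C.cons (nat_lit 2055) (C.ref (nat_lit 203) (nat_lit 205163983024656)) (C.cons (nat_lit 7) (C.node (nat_lit 0) (nat_lit 1) (nat_lit 11) (C.cons (nat_lit 2051) (C.ref (nat_lit 204) (nat_lit 205163983024656)) C.nil)) C.nil))) (List.cons (C.node (nat_lit 0) (nat_lit 1) (nat_lit 2) (C.cons (nat_lit 2055) (C.node (nat_lit 0) (nat_lit 1) (nat_lit 3) (C.cons (nat_lit 11) (C.ref (nat_lit 185) (nat_lit 188606884098576)) C.nil)) (C.cons (nat_lit 15) (C.node (nat_lit 0) (nat_lit 1) (nat_lit 11) (C.cons (nat_lit 2051) (C.node (nat_lit 0) (nat_lit 3) (nat_lit 9) (C.cons (nat_lit 537) (C.node (nat_lit 0) (nat_lit 2) (nat_lit 9) (C.cons (nat_lit 581) (C.node (nat_lit 0) (nat_lit 2) (nat_lit 10) (C.cons (nat_lit 1045) (C.node (nat_lit 0) (nat_lit 2) (nat_lit 11) C.nil) C.nil)) C.nil)) C.nil)) C.nil)) (C.cons (nat_lit 7) (C.node (nat_lit 0) (nat_lit 1) (nat_lit 3) (C.cons (nat_lit 2059) (C.ref (nat_lit 204)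 (nat_lit 188671308608016)) C.nil)) C.nil)))) (List.cons (C.node (nat_lit 0) (nat_lit 1) (nat_lit 10) (C.cons (nat_lit 1035) (C.ref (nat_lit 205) (nat_lit 205163983024656)) (C.cons (nat_lit 1031) (C.node (nat_lit 0) (nat_lit 1) (nat_lit 3) (C.cons (nat_lit 2059) (C.ref (nat_lit 203) (nat_lit 188671308608016)) (C.cons (nat_lit 11) (C.node (nat_lit 0) (nat_lit 1) (nat_lit 11) (C.cons (nat_lit 2051) (C.ref (nat_lit 185) (nat_lit 205099558515216)) C.nil)) C.nil))) (C.cons (nat_lit 1027) (C.ref (nat_lit 206) (nat_lit 205163983024656)) C.nil)))) (List.cons (C.node (nat_lit 0) (nat_lit 1) (nat_lit 9) (C.cons (nat_lit 547) (C.ref (nat_lit 207) (nat_lit 205163983024656)) (C.cons (nat_lit 523) (C.node (nat_lit 0) (nat_lit 1) (nat_lit 2) (C.cons (nat_lit 2055) (C.ref (nat_lit 205) (nat_lit 186609721160976)) (C.cons (nat_lit 1031) (C.ref (nat_lit 205) (nat_lit 204133187728656)) (C.cons (nat_lit 7) (C.node (nat_lit 0) (nat_lit 1)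 (nat_lit 10) (C.cons (nat_lit 1059) (C.node (nat_lit 0) (nat_lit 1) (nat_lit 11) (C.cons (nat_lit 2051) (C.ref (nat_lit 204) (nat_lit 204133190873616)) C.nil)) (C.cons (nat_lit 1027) (C.node (nat_lit 0) (nat_lit 1) (nat_lit 5) (C.cons (nat_lit 2083)
  (C.ref (nat_lit 204) (nat_lit 186609724305936)) C.nil)) C.nil))) C.nil)))) (C.cons (nat_lit 519) (C.ref (nat_lit 207) (nat_lit 205163979879696)) (C.cons (nat_lit 515) (C.node (nat_lit 0) (nat_lit 1) (nat_lit 2) (C.cons (nat_lit 2055) (C.ref (nat_lit 206) (nat_lit 186609721160976)) (C.cons (nat_lit 1031) (C.ref (nat_lit 206) (nat_lit 204133187728656)) (C.cons (nat_lit 15) (C.node (nat_lit 0) (nat_lit 1) (nat_lit 10) (C.cons (nat_lit 1059) (C.node (nat_lit 0) (nat_lit 1) (nat_lit 11) (C.cons (nat_lit 2051) (C.node (nat_lit 0) (nat_lit 3) (nat_lit 10) (C.cons (nat_lit 1049) (C.node (nat_lit 0) (nat_lit 2) (nat_lit 10) (C.cons (nat_lit 1093) (C.node (nat_lit 0) (nat_lit 2)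 (nat_lit 9) (C.cons (nat_lit 533) (C.node (nat_lit 0) (nat_lit 2) (nat_lit 11) C.nil) C.nil)) C.nil)) C.nil)) C.nil)) (C.cons (nat_lit 1027) (C.node (nat_lit 0) (nat_lit 1) (nat_lit 5) (C.cons (nat_lit 2083) (C.node (nat_lit 0) (nat_lit 3) (nat_lit 11) (C.cons (nat_lit 2073) (C.node (nat_lit 0) (nat_lit 2) (nat_lit 11) (C.cons (nat_lit 2117) (C.node (nat_lit 0) (nat_lit 2) (nat_lit 9) (C.cons (nat_lit 533) (C.node (nat_lit 0) (nat_lit 2) (nat_lit 10) C.nil) C.nil)) C.nil)) C.nil)) C.nil)) C.nil))) (C.cons (nat_lit 7) (C.node (nat_lit 0) (nat_lit 1) (nat_lit 10) (C.cons (nat_lit 1059) (C.node (nat_lit 0) (nat_lit 1) (nat_lit 3) (C.cons (nat_lit 2059) (C.ref (nat_lit 204) (nat_lit 171147842040336)) C.nil)) (C.cons (nat_lit 1035) (C.node (nat_lit 0) (nat_lit 1) (nat_lit 5) (C.cons (nat_lit 2083) (C.ref (nat_lit 204) (nat_lit 170117049889296)) C.nil)) C.nil))) C.nil))))) C.nil))))) (List.cons (C.node (nat_lit 0) (nat_lit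 2) (nat_lit 10) (C.cons (nat_lit 1093) (C.node (nat_lit 0) (nat_lit 4) (nat_lit 10) (C.cons (nat_lit 1073) (C.node (nat_lit 0) (nat_lit 5) (nat_lit 6) (C.cons (nat_lit 2145) (C.node (nat_lit 0) (nat_lit 5) (nat_lit 3) C.nil) (C.cons (nat_lit 105) (C.node (nat_lit 0) (nat_lit 5) (nat_lit 11) C.nil) C.nil))) C.nil)) (C.cons (nat_lit 1045) (C.node (nat_lit 0) (nat_lit 5) (nat_lit 10) (C.cons (nat_lit 1121) (C.node (nat_lit 0) (nat_lit 2) (nat_lit 6) (C.cons (nat_lit 581) (C.node (nat_lit 0) (nat_lit 2) (nat_lit 3) C.nil) (C.cons (nat_lit 77) (C.node (nat_lit 0) (nat_lit 2) (nat_lit 9) C.nil) C.nil))) C.nil)) C.nil))) List.nil)))))))))))))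

theorem ok12_197 : okL par12 (nat_lit 210) c12_197 (nat_lit 197) = true := by decide +kernel

noncomputable def c12_210 : List C :=
  (List.cons (C.node (nat_lit 0) (nat_lit 1) (nat_lit 9) (C.cons (nat_lit 547) (C.node (nat_lit 0) (nat_lit 1) (nat_lit 10) (C.cons (nat_lit 1035) (C.node (nat_lit 0) (nat_lit 1) (nat_lit 2) (C.cons (nat_lit 2055) (C.ref (nat_lit 209) (nat_lit 205163983024656)) C.nil)) (C.cons (nat_lit 1031) (C.node (nat_lit 0) (nat_lit 1) (nat_lit 3) (C.cons (nat_lit 2059) (C.ref (nat_lit 209) (nat_lit 188671308608016)) C.nil)) C.nil))) (C.cons (nat_lit 523) (C.node (nat_lit 0) (nat_lit 1) (nat_lit 2) (C.cons (nat_lit 2055) (C.node (nat_lit 0) (nat_lit 1) (nat_lit 5) (C.cons (nat_lit 1059) (C.ref (nat_lit 209) (nat_lit 186609721160976)) C.nil)) (C.cons (nat_lit 1031) (C.node (nat_lit 0) (nat_lit 1) (nat_lit 5) (C.cons (nat_lit 2083) (C.ref (nat_lit 209) (nat_lit 204133187728656)) C.nil)) C.nil))) (C.cons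 (nat_lit 519) (C.node (nat_lit 0) (nat_lit 1) (nat_lit 10) (C.cons (nat_lit 1035) (C.node (nat_lit 0) (nat_lit 1) (nat_lit 5) (C.cons (nat_lit 2083) (C.ref (nat_lit 209) (nat_lit 205163979879696)) C.nil)) (C.cons (nat_lit 1059) (C.node (nat_lit 0) (nat_lit 1) (nat_lit 3) (C.cons (nat_lit 2059) (C.ref (nat_lit 209) (nat_lit 188671305463056)) C.nil)) C.nil))) C.nil)))) (List.cons (C.node (nat_lit 0) (nat_lit 3) (nat_lit 8) (C.cons (nat_lit 329) (C.node (nat_lit 0) (nat_lit 5) (nat_lit 8) (C.cons (nat_lit 289) (C.ref (nat_lit 208) (nat_lit 205163983024656)) C.nil)) (C.cons (nat_lit 297) (C.node (nat_lit 0) (nat_lit 6) (nat_lit 8) (C.cons (nat_lit 321) (C.ref (nat_lit 202) (nat_lit 205163979879696)) C.nil)) (C.cons (nat_lit 265) (C.node (nat_lit 0) (nat_lit 5) (nat_lit 8) (C.cons (nat_lit 353) (C.ref (nat_lit 200) (nat_lit 205163979879696)) (C.cons (nat_lit 289) (C.node (nat_lit 0) (nat_lit 6) (nat_lit 8) (C.cons (nat_lit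 321) (C.ref (nat_lit 210) (nat_lit 205163983024656)) C.nil)) C.nil))) C.nil)))) (List.cons (C.node (nat_lit 0) (nat_lit 2) (nat_lit 8) (C.cons (nat_lit 325) (C.node (nat_lit 0) (nat_lit 3) (nat_lit 8) (C.cons (nat_lit 297) (C.ref (nat_lit 140) (nat_lit 205159956484896)) (C.cons (nat_lit 265) (C.node (nat_lit 0) (nat_lit 5) (nat_lit 8) (C.cons (nat_lit 289) (C.ref (nat_lit 200) (nat_lit 205163983024656)) C.nil)) C.nil))) (C.cons (nat_lit 269) (C.node (nat_lit 0) (nat_lit 5) (nat_lit 8) (C.cons (nat_lit 353) (C.ref (nat_lit 140) (nat_lit 205159953339216)) (C.cons (nat_lit 289) (C.node (nat_lit 0) (nat_lit 6) (nat_lit 8) (C.cons (nat_lit 321) (C.ref (nat_lit 202) (nat_lit 205163983024656)) C.nil)) C.nil))) (C.cons (nat_lit 261) (C.ref (nat_lit 211) (nat_lit 205163983024656)) C.nil)))) (List.cons (C.node (nat_lit 0) (nat_lit 1) (nat_lit 9) (C.cons (nat_lit 547) (C.node (nat_lit 0) (nat_lit 3) (nat_lit 9) (C.cons (nat_lit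 585) (C.ref (nat_lit 131) (nat_lit 205091489719056)) C.nil)) (C.cons (nat_lit 523) (C.node (nat_lit 0) (nat_lit 5) (nat_lit 9) (C.cons (nat_lit 609) (C.node (nat_lit 0) (nat_lit 1) (nat_lit 2) (C.cons (nat_lit 2055) (C.node (nat_lit 0) (nat_lit 2) (nat_lit 3) (C.cons (nat_lit 1037) (C.node (nat_lit 0) (nat_lit 6) (nat_lit 10) (C.cons (nat_lit 1105) (C.node (nat_lit 0) (nat_lit 1) (nat_lit 4) (C.cons (nat_lit 51) (C.node (nat_lit 0) (nat_lit 1) (nat_lit 10) C.nil) C.nil)) C.nil)) C.nil)) (C.cons (nat_lit 1031) (C.node (nat_lit 0) (nat_lit 2) (nat_lit 3) (C.cons (nat_lit 2061) (C.node (nat_lit 0) (nat_lit 6) (nat_lit 11) (C.cons (nat_lit 2129) (C.node (nat_lit 0) (nat_lit 1) (nat_lit 4) (C.cons (nat_lit 51) (C.node (nat_lit 0) (nat_lit 1) (nat_lit 11) C.nil) C.nil)) C.nil)) C.nil)) C.nil))) C.nil)) C.nil))) (List.cons (C.node (nat_lit 0) (nat_lit 1) (nat_lit 10) (C.cons (nat_lit 1059) (C.node (nat_lit 0) (nat_lit 1) (nat_lit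 3) (C.cons (nat_lit 27) (C.node (nat_lit 0) (nat_lit 1) (nat_lit 11) C.nil) C.nil)) (C.cons (nat_lit 1035) (C.node (nat_lit 0) (nat_lit 5) (nat_lit 10) (C.cons (nat_lit 1121) (C.node (nat_lit 0) (nat_lit 6) (nat_lit 11) (C.cons (nat_lit 2129) (C.node (nat_lit 0) (nat_lit 1) (nat_lit 4) (C.cons (nat_lit 51)
  (C.node (nat_lit 0) (nat_lit 1) (nat_lit 11) C.nil) C.nil)) C.nil)) C.nil)) C.nil))) (List.cons (C.node (nat_lit 0) (nat_lit 2) (nat_lit 9) (C.cons (nat_lit 533) (C.ref (nat_lit 213) (nat_lit 205163983024656)) (C.cons (nat_lit 525) (C.ref (nat_lit 213) (nat_lit 205163982963216)) (C.cons (nat_lit 519) (C.node (nat_lit 0) (nat_lit 2) (nat_lit 10) (C.cons (nat_lit 1045) (C.node (nat_lit 0) (nat_lit 2) (nat_lit 3) (C.cons (nat_lit 2061) (C.ref (nat_lit 214) (nat_lit 205163983024656)) C.nil)) (C.cons (nat_lit 1037) (C.node (nat_lit 0) (nat_lit 2) (nat_lit 4) (C.cons (nat_lit 2069) (C.ref (nat_lit 214) (nat_lit 205163982963216))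 C.nil)) C.nil))) C.nil)))) (List.cons (C.node (nat_lit 0) (nat_lit 1) (nat_lit 8) (C.cons (nat_lit 291) (C.ref (nat_lit 197) (nat_lit 205163983024656)) (C.cons (nat_lit 275) (C.ref (nat_lit 212) (nat_lit 205163983024656)) (C.cons (nat_lit 267) (C.ref (nat_lit 212) (nat_lit 205163982963216)) (C.cons (nat_lit 263) (C.ref (nat_lit 197) (nat_lit 205163979879696)) (C.cons (nat_lit 259) (C.node (nat_lit 0) (nat_lit 2) (nat_lit 8) (C.cons (nat_lit 325) (C.node (nat_lit 0) (nat_lit 3) (nat_lit 8) (C.cons (nat_lit 297) (C.node (nat_lit 0) (nat_lit 4) (nat_lit 8) (C.cons (nat_lit 273) (C.ref (nat_lit 200) (nat_lit 205163911661136)) C.nil)) (C.cons (nat_lit 281) (C.node (nat_lit 0) (nat_lit 5) (nat_lit 8) (C.cons (nat_lit 289) (C.ref (nat_lit 208) (nat_lit 205159955501856)) C.nil)) (C.cons (nat_lit 265) (C.node (nat_lit 0) (nat_lit 4) (nat_lit 8) (C.cons (nat_lit 305) (C.ref (nat_lit 200) (nat_lit 205163911722576)) (C.cons (nat_lit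 273) (C.node (nat_lit 0) (nat_lit 5) (nat_lit 8) (C.cons (nat_lit 289) (C.ref (nat_lit 215) (nat_lit 205163983024656)) C.nil)) C.nil))) C.nil)))) (C.cons (nat_lit 277) (C.ref (nat_lit 211) (nat_lit 205163967295776)) (C.cons (nat_lit 269) (C.ref (nat_lit 211) (nat_lit 205163967234336)) (C.cons (nat_lit 261) (C.node (nat_lit 0) (nat_lit 3) (nat_lit 8) (C.cons (nat_lit 329) (C.node (nat_lit 0) (nat_lit 4) (nat_lit 8) (C.cons (nat_lit 305) (C.ref (nat_lit 202) (nat_lit 205163911722576)) (C.cons (nat_lit 273) (C.node (nat_lit 0) (nat_lit 5) (nat_lit 8) (C.cons (nat_lit 289) (C.ref (nat_lit 210) (nat_lit 205163899077216)) C.nil)) C.nil))) (C.cons (nat_lit 297) (C.node (nat_lit 0) (nat_lit 4) (nat_lit 8) (C.cons (nat_lit 337) (C.ref (nat_lit 202) (nat_lit 205163895993696)) (C.cons (nat_lit 273) (C.node (nat_lit 0) (nat_lit 6) (nat_lit 8) (C.cons (nat_lit 321) (C.ref (nat_lit 210) (nat_lit 205163916902736)) C.nil)) C.nil)))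 (C.cons (nat_lit 281) (C.node (nat_lit 0) (nat_lit 5) (nat_lit 8) (C.cons (nat_lit 353) (C.ref (nat_lit 208) (nat_lit 205159955305296)) (C.cons (nat_lit 289) (C.node (nat_lit 0) (nat_lit 6) (nat_lit 8) (C.cons (nat_lit 321) (C.node (nat_lit 0) (nat_lit 1) (nat_lit 9) (C.cons (nat_lit 547) (C.node (nat_lit 0) (nat_lit 3) (nat_lit 9) (C.cons (nat_lit 585) (C.node (nat_lit 0) (nat_lit 2) (nat_lit 9) (C.cons (nat_lit 533) (C.ref (nat_lit 138) (nat_lit 205091489719056)) C.nil)) (C.cons (nat_lit 525) (C.node (nat_lit 0) (nat_lit 6) (nat_lit 9) (C.cons (nat_lit 593) (C.ref (nat_lit 138) (nat_lit 205091418432336)) C.nil)) C.nil))) (C.cons (nat_lit 531) (C.node (nat_lit 0) (nat_lit 2) (nat_lit 9) (C.cons (nat_lit 581) (C.node (nat_lit 0) (nat_lit 5) (nat_lit 9) (C.cons (nat_lit 553) (C.ref (nat_lit 138) (nat_lit 205091434091616)) C.nil)) (C.cons (nat_lit 525) (C.node (nat_lit 0) (nat_lit 5) (nat_lit 9) (C.cons (nat_lit 609) (C.ref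 (nat_lit 138) (nat_lit 205091502297936)) C.nil)) C.nil))) (C.cons (nat_lit 523) (C.node (nat_lit 0) (nat_lit 2) (nat_lit 9) (C.cons (nat_lit 581) (C.node (nat_lit 0) (nat_lit 5) (nat_lit 9) (C.cons (nat_lit 561) (C.ref (nat_lit 138) (nat_lit 205091434156896)) C.nil)) (C.cons (nat_lit 533) (C.node (nat_lit 0) (nat_lit 5) (nat_lit 9) (C.cons (nat_lit 609) (C.ref (nat_lit 138) (nat_lit 205091502232656)) C.nil)) C.nil))) (C.cons (nat_lit 519) (C.node (nat_lit 0) (nat_lit 3) (nat_lit 9) (C.cons (nat_lit 585) (C.node (nat_lit 0) (nat_lit 5) (nat_lit 9)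
  (C.cons (nat_lit 561) (C.ref (nat_lit 138) (nat_lit 205091439399696)) C.nil)) (C.cons (nat_lit 553) (C.node (nat_lit 0) (nat_lit 6) (nat_lit 9) (C.cons (nat_lit 593) (C.ref (nat_lit 138) (nat_lit 205091421578016)) C.nil)) C.nil))) C.nil))))) C.nil)) C.nil))) (C.cons (nat_lit 265) (C.node (nat_lit 0) (nat_lit 4) (nat_lit 8) (C.cons (nat_lit 337) (C.node (nat_lit 0) (nat_lit 5) (nat_lit 8) (C.cons (nat_lit 289) (C.ref (nat_lit 210) (nat_lit 205163899138656)) C.nil)) (C.cons (nat_lit 305) (C.node (nat_lit 0) (nat_lit 6) (nat_lit 8) (C.cons (nat_lit 321) (C.ref (nat_lit 210) (nat_lit 205163916964176)) C.nil)) (C.cons (nat_lit 273) (C.node (nat_lit 0) (nat_lit 5) (nat_lit 8) (C.cons (nat_lit 353) (C.ref (nat_lit 215) (nat_lit 205163979879696)) C.nil)) C.nil)))) C.nil))))) C.nil))))) C.nil)))))) (List.cons (C.node (nat_lit 0) (nat_lit 3) (nat_lit 7) (C.cons (nat_lit 153) (C.node (nat_lit 0) (nat_lit 1) (nat_lit 8) (C.cons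 (nat_lit 291) (C.ref (nat_lit 170) (nat_lit 205163983024656)) (C.cons (nat_lit 275) (C.ref (nat_lit 170) (nat_lit 205163982037776)) (C.cons (nat_lit 267) (C.ref (nat_lit 170) (nat_lit 205163980989456)) (C.cons (nat_lit 263) (C.ref (nat_lit 170) (nat_lit 205163979879696)) (C.cons (nat_lit 259) (C.node (nat_lit 0) (nat_lit 2) (nat_lit 8) (C.cons (nat_lit 325) (C.node (nat_lit 0) (nat_lit 3) (nat_lit 8) (C.cons (nat_lit 297) (C.node (nat_lit 0) (nat_lit 4) (nat_lit 8) (C.cons (nat_lit 273) (C.ref (nat_lit 140) (nat_lit 205163967295776)) C.nil)) (C.cons (nat_lit 265) (C.ref (nat_lit 168) (nat_lit 205163967295776)) C.nil))) (C.cons (nat_lit 277) (C.ref (nat_lit 169) (nat_lit 205163965322016)) (C.cons (nat_lit 269) (C.ref (nat_lit 169) (nat_lit 205163964273696)) (C.cons (nat_lit 261) (C.node (nat_lit 0) (nat_lit 3) (nat_lit 8) (C.cons (nat_lit 329) (C.ref (nat_lit 168) (nat_lit 205163950580016)) (C.cons (nat_lit 297) (C.ref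 (nat_lit 168) (nat_lit 205163949593136)) (C.cons (nat_lit 265) (C.node (nat_lit 0) (nat_lit 4) (nat_lit 8) (C.cons (nat_lit 337) (C.node (nat_lit 0) (nat_lit 5) (nat_lit 8) (C.cons (nat_lit 289) (C.ref (nat_lit 167) (nat_lit 205163933802816)) C.nil)) (C.cons (nat_lit 305) (C.node (nat_lit 0) (nat_lit 6) (nat_lit 8) (C.cons (nat_lit 321) (C.ref (nat_lit 167) (nat_lit 205163932815936)) C.nil)) (C.cons (nat_lit 273) (C.node (nat_lit 0) (nat_lit 5) (nat_lit 8) (C.cons (nat_lit 353) (C.ref (nat_lit 167) (nat_lit 205163916964176)) (C.cons (nat_lit 289) (C.node (nat_lit 0) (nat_lit 6) (nat_lit 8) (C.cons (nat_lit 321) (C.ref (nat_lit 173) (nat_lit 205163983024656)) C.nil)) C.nil))) C.nil)))) C.nil)))) C.nil))))) C.nil)))))) (C.cons (nat_lit 137) (C.node (nat_lit 0) (nat_lit 4) (nat_lit 7) (C.cons (nat_lit 145) (C.ref (nat_lit 216) (nat_lit 205163983024656)) C.nil)) C.nil))) (List.cons (C.node (nat_lit 0) (nat_lit 2) (nat_lit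 8) (C.cons (nat_lit 325) (C.node (nat_lit 0) (nat_lit 3) (nat_lit 8) (C.cons (nat_lit 281) (C.ref (nat_lit 162) (nat_lit 205159940764176)) C.nil)) (C.cons (nat_lit 277) (C.node (nat_lit 0) (nat_lit 3) (nat_lit 8) (C.cons (nat_lit 329) (C.ref (nat_lit 163) (nat_lit 205159940760336)) C.nil)) (C.cons (nat_lit 269) (C.node (nat_lit 0) (nat_lit 4) (nat_lit 8) (C.cons (nat_lit 337) (C.ref (nat_lit 163) (nat_lit 204129148544016)) C.nil)) C.nil)))) (List.cons (C.node (nat_lit 0) (nat_lit 1) (nat_lit 2) (C.cons (nat_lit 2055) (C.node (nat_lit 0) (nat_lit 2) (nat_lit 8) (C.cons (nat_lit 325) (C.node (nat_lit 0) (nat_lit 3) (nat_lit 8) (C.cons (nat_lit 281) (C.ref (nat_lit 161) (nat_lit 205159940764176)) (C.cons (nat_lit 265) (C.node (nat_lit 0) (nat_lit 4) (nat_lit 8) (C.cons (nat_lit 273) (C.ref (nat_lit 214) (nat_lit 186605697773856)) C.nil)) C.nil))) (C.cons (nat_lit 277) (C.node (nat_lit 0) (nat_lit 3) (nat_lit 8) (C.cons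 (nat_lit 329) (C.ref (nat_lit 161) (nat_lit 188667266343696)) (C.cons (nat_lit 265) (C.node (nat_lit 0) (nat_lit 6) (nat_lit 8) (C.cons (nat_lit 321) (C.ref (nat_lit 209) (nat_lit 205159938798096)) C.nil)) C.nil))) (C.cons (nat_lit 269)
  (C.node (nat_lit 0) (nat_lit 4) (nat_lit 8) (C.cons (nat_lit 337) (C.ref (nat_lit 161) (nat_lit 171143799710736)) (C.cons (nat_lit 273) (C.node (nat_lit 0) (nat_lit 6) (nat_lit 8) (C.cons (nat_lit 321) (C.ref (nat_lit 209) (nat_lit 204129145602576)) C.nil)) C.nil))) (C.cons (nat_lit 261) (C.node (nat_lit 0) (nat_lit 3) (nat_lit 8) (C.cons (nat_lit 329) (C.node (nat_lit 0) (nat_lit 4) (nat_lit 8) (C.cons (nat_lit 273) (C.ref (nat_lit 214) (nat_lit 204129164337456)) C.nil)) (C.cons (nat_lit 281) (C.node (nat_lit 0) (nat_lit 6) (nat_lit 8) (C.cons (nat_lit 321) (C.ref (nat_lit 209) (nat_lit 188667264377616)) C.nil)) (C.cons (nat_lit 265) (C.node (nat_lit 0) (nat_lit 4) (nat_lit 8) (C.cons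 (nat_lit 337) (C.ref (nat_lit 214) (nat_lit 205159956422976)) C.nil)) C.nil)))) C.nil))))) (C.cons (nat_lit 7) (C.node (nat_lit 0) (nat_lit 1) (nat_lit 11) (C.cons (nat_lit 2051) (C.ref (nat_lit 218) (nat_lit 205163983024656)) C.nil)) C.nil))) (List.cons (C.node (nat_lit 0) (nat_lit 2) (nat_lit 8) (C.cons (nat_lit 325) (C.node (nat_lit 0) (nat_lit 2) (nat_lit 9) (C.cons (nat_lit 549) (C.node (nat_lit 0) (nat_lit 2) (nat_lit 10) (C.cons (nat_lit 1045) (C.node (nat_lit 0) (nat_lit 2) (nat_lit 11) C.nil) C.nil)) C.nil)) (C.cons (nat_lit 277) (C.node (nat_lit 0) (nat_lit 3) (nat_lit 8) (C.cons (nat_lit 329) (C.node (nat_lit 0) (nat_lit 3) (nat_lit 9) (C.cons (nat_lit 553) (C.node (nat_lit 0) (nat_lit 3) (nat_lit 10) (C.cons (nat_lit 1049) (C.node (nat_lit 0) (nat_lit 3) (nat_lit 11) C.nil) C.nil)) C.nil)) C.nil)) C.nil))) (List.cons (C.node (nat_lit 0) (nat_lit 1) (nat_lit 2) (C.cons (nat_lit 2055) (C.node (nat_lit 0) (nat_lit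 1) (nat_lit 3) (C.cons (nat_lit 11) (C.ref (nat_lit 218) (nat_lit 188671308604176)) C.nil)) (C.cons (nat_lit 15) (C.node (nat_lit 0) (nat_lit 1) (nat_lit 11) (C.cons (nat_lit 2051) (C.ref (nat_lit 220) (nat_lit 205163983024656)) C.nil)) (C.cons (nat_lit 7) (C.node (nat_lit 0) (nat_lit 1) (nat_lit 3) (C.cons (nat_lit 2059) (C.ref (nat_lit 218) (nat_lit 188671308608016)) C.nil)) C.nil)))) (List.cons (C.node (nat_lit 0) (nat_lit 1) (nat_lit 10) (C.cons (nat_lit 1035) (C.ref (nat_lit 219) (nat_lit 205163983024656)) (C.cons (nat_lit 1031) (C.ref (nat_lit 219) (nat_lit 205163983020816)) (C.cons (nat_lit 1027) (C.ref (nat_lit 221) (nat_lit 205163983024656)) C.nil)))) (List.cons (C.node (nat_lit 0) (nat_lit 1) (nat_lit 2) (C.cons (nat_lit 2055) (C.node (nat_lit 0) (nat_lit 1) (nat_lit 3) (C.cons (nat_lit 27) (C.ref (nat_lit 220) (nat_lit 186609724179216)) C.nil)) (C.cons (nat_lit 23) (C.node (nat_lit 0) (nat_lit 1) (nat_lit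 3) (C.cons (nat_lit 2059) (C.ref (nat_lit 220) (nat_lit 186609724244496)) C.nil)) (C.cons (nat_lit 15) (C.node (nat_lit 0) (nat_lit 1) (nat_lit 4) (C.cons (nat_lit 2067) (C.ref (nat_lit 220) (nat_lit 186609724305936)) C.nil)) C.nil)))) (List.cons (C.node (nat_lit 0) (nat_lit 1) (nat_lit 10) (C.cons (nat_lit 1043) (C.ref (nat_lit 221) (nat_lit 204133190873616)) (C.cons (nat_lit 1035) (C.ref (nat_lit 221) (nat_lit 204133190812176)) (C.cons (nat_lit 1031) (C.ref (nat_lit 221) (nat_lit 204133190746896)) (C.cons (nat_lit 1027) (C.ref (nat_lit 223) (nat_lit 205163983024656)) C.nil))))) (List.cons (C.node (nat_lit 0) (nat_lit 1) (nat_lit 9) (C.cons (nat_lit 531) (C.ref (nat_lit 222) (nat_lit 205163983024656)) (C.cons (nat_lit 523) (C.ref (nat_lit 222) (nat_lit 205163982963216)) (C.cons (nat_lit 519) (C.ref (nat_lit 222) (nat_lit 205163982897936)) (C.cons (nat_lit 515) (C.ref (nat_lit 224) (nat_lit 205163983024656)) C.nil)))))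 (List.cons (C.node (nat_lit 0) (nat_lit 1) (nat_lit 8) (C.cons (nat_lit 291) (C.ref (nat_lit 225) (nat_lit 205163983024656)) (C.cons (nat_lit 275) (C.ref (nat_lit 225) (nat_lit 205163982041616)) (C.cons (nat_lit 267) (C.ref (nat_lit 225) (nat_lit 205163980997136)) (C.cons (nat_lit 263) (C.ref (nat_lit 225) (nat_lit 205163979948816)) (C.cons (nat_lit 259) (C.node (nat_lit 0) (nat_lit 1) (nat_lit 9) (C.cons (nat_lit 547) (C.ref (nat_lit 224) (nat_lit 205099558515216)) (C.cons (nat_lit 531)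
  (C.ref (nat_lit 224) (nat_lit 205099557532176)) (C.cons (nat_lit 523) (C.ref (nat_lit 224) (nat_lit 205099556487696)) (C.cons (nat_lit 519) (C.ref (nat_lit 224) (nat_lit 205099555439376)) (C.cons (nat_lit 515) (C.node (nat_lit 0) (nat_lit 1) (nat_lit 10) (C.cons (nat_lit 1059) (C.ref (nat_lit 223) (nat_lit 204004341854736)) (C.cons (nat_lit 1043) (C.ref (nat_lit 223) (nat_lit 204004340871696)) (C.cons (nat_lit 1035) (C.ref (nat_lit 223) (nat_lit 204004339827216)) (C.cons (nat_lit 1031) (C.ref (nat_lit 223) (nat_lit 204004338778896)) C.nil))))) C.nil)))))) C.nil)))))) (List.cons (C.node (nat_lit 0) (nat_lit 4) (nat_lit 7) (C.cons (nat_lit 177) (C.ref (nat_lit 216) (nat_lit 205163982955536)) (C.cons (nat_lit 145) (C.node (nat_lit 0) (nat_lit 5) (nat_lit 7) (C.cons (nat_lit 161) (C.ref (nat_lit 226) (nat_lit 205163983024656)) C.nil)) C.nil))) (List.cons (C.node (nat_lit 0) (nat_lit 3) (nat_lit 7) (C.cons (nat_lit 169)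 (C.node (nat_lit 0) (nat_lit 4) (nat_lit 7) (C.cons (nat_lit 145) (C.ref (nat_lit 216) (nat_lit 205163983020816)) C.nil)) (C.cons (nat_lit 153) (C.node (nat_lit 0) (nat_lit 5) (nat_lit 7) (C.cons (nat_lit 161) (C.ref (nat_lit 216) (nat_lit 205163982037776)) C.nil)) (C.cons (nat_lit 137) (C.ref (nat_lit 227) (nat_lit 205163983024656)) C.nil)))) (List.cons (C.node (nat_lit 0) (nat_lit 2) (nat_lit 7) (C.cons (nat_lit 165) (C.ref (nat_lit 217) (nat_lit 205163983024656)) (C.cons (nat_lit 149) (C.ref (nat_lit 217) (nat_lit 205163982041616)) (C.cons (nat_lit 141) (C.ref (nat_lit 217) (nat_lit 205163980997136)) (C.cons (nat_lit 133) (C.ref (nat_lit 228) (nat_lit 205163983024656)) C.nil))))) (List.cons (C.node (nat_lit 0) (nat_lit 2) (nat_lit 8) (C.cons (nat_lit 293) (C.node (nat_lit 0) (nat_lit 3) (nat_lit 8) (C.cons (nat_lit 281) (C.ref (nat_lit 173) (nat_lit 205159956492816)) C.nil)) (C.cons (nat_lit 277) (C.node (nat_lit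 0) (nat_lit 3) (nat_lit 8) (C.cons (nat_lit 297) (C.ref (nat_lit 173) (nat_lit 205159955509776)) C.nil)) (C.cons (nat_lit 269) (C.node (nat_lit 0) (nat_lit 4) (nat_lit 8) (C.cons (nat_lit 305) (C.ref (nat_lit 173) (nat_lit 205159954465296)) C.nil)) C.nil)))) List.nil)))))))))))))))))))))

theorem ok12_210 : okL par12 (nat_lit 231) c12_210 (nat_lit 210) = true := by decide +kernel

noncomputable def c12_231 : List C :=
  (List.cons (C.big (C.cons (nat_lit 2169) (C.ref (nat_lit 22) (nat_lit 205163983024656)) (C.cons (nat_lit 2165) (C.ref (nat_lit 22) (nat_lit 205163983020816)) (C.cons (nat_lit 2163) (C.ref (nat_lit 22) (nat_lit 205163983016736)) (C.cons (nat_lit 2157) (C.ref (nat_lit 22) (nat_lit 205163982955536)) (C.cons (nat_lit 2155) (C.ref (nat_lit 22) (nat_lit 205163982951456)) (C.cons (nat_lit 2151) (C.ref (nat_lit 22) (nat_lit 205163982885936)) (C.cons (nat_lit 2141) (C.ref (nat_lit 22) (nat_lit 205163981907216))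 (C.cons (nat_lit 2139) (C.ref (nat_lit 22) (nat_lit 205163981903136)) (C.cons (nat_lit 2135) (C.ref (nat_lit 22) (nat_lit 205163981837616)) (C.cons (nat_lit 2127) (C.ref (nat_lit 22) (nat_lit 205163980789056)) (C.cons (nat_lit 2109) (C.ref (nat_lit 22) (nat_lit 205163965130256)) (C.cons (nat_lit 2107) (C.ref (nat_lit 22) (nat_lit 205163965126176)) (C.cons (nat_lit 2103) (C.ref (nat_lit 22) (nat_lit 205163965060656)) (C.cons (nat_lit 2095) (C.ref (nat_lit 22) (nat_lit 205163964012096)) (C.cons (nat_lit 2079) (C.ref (nat_lit 22) (nat_lit 205163947234896)) (C.cons (nat_lit 1145) (C.ref (nat_lit 22) (nat_lit 188671308608016)) (C.cons (nat_lit 1141) (C.ref (nat_lit 22) (nat_lit 188671308604176)) (C.cons (nat_lit 1139) (C.ref (nat_lit 22) (nat_lit 188671308600096)) (C.cons (nat_lit 1133) (C.ref (nat_lit 22) (nat_lit 188671308538896)) (C.cons (nat_lit 1131) (C.ref (nat_lit 22) (nat_lit 188671308534816)) (C.cons (nat_lit 1127)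 (C.ref (nat_lit 22) (nat_lit 188671308469296)) (C.cons (nat_lit 1117) (C.ref (nat_lit 22) (nat_lit 188671307490576)) (C.cons (nat_lit 1115) (C.ref (nat_lit 22) (nat_lit 188671307486496)) (C.cons (nat_lit 1111) (C.ref (nat_lit 22) (nat_lit 188671307420976)) (C.cons (nat_lit 1103) (C.ref (nat_lit 22) (nat_lit 188671306372416)) (C.cons (nat_lit 1085) (C.ref (nat_lit 22) (nat_lit 188671290713616)) (C.cons (nat_lit 1083) (C.ref (nat_lit 22) (nat_lit 188671290709536)) (C.cons (nat_lit 1079) (C.ref (nat_lit 22) (nat_lit 188671290644016)) (C.cons (nat_lit 1071) (C.ref (nat_lit 22) (nat_lit 188671289595456)) (C.cons (nat_lit 1055) (C.ref (nat_lit 22) (nat_lit 188671272818256)) (C.cons (nat_lit 633) (C.ref (nat_lit 22) (nat_lit 171147842040336)) (C.cons (nat_lit 629) (C.ref (nat_lit 22) (nat_lit 171147842036496)) (C.cons (nat_lit 627) (C.ref (nat_lit 22) (nat_lit 171147842032416)) (C.cons (nat_lit 621) (C.ref (nat_lit 22) (nat_lit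 171147841971216)) (C.cons (nat_lit 619) (C.ref (nat_lit 22) (nat_lit 171147841967136)) (C.cons (nat_lit 615) (C.ref (nat_lit 22) (nat_lit 171147841901616)) (C.cons (nat_lit 605) (C.ref (nat_lit 22) (nat_lit 171147840922896)) (C.cons (nat_lit 603) (C.ref (nat_lit 22) (nat_lit 171147840918816)) (C.cons (nat_lit 599) (C.ref (nat_lit 22) (nat_lit 171147840853296)) (C.cons (nat_lit 591) (C.ref (nat_lit 22) (nat_lit 171147839804736)) (C.cons (nat_lit 573) (C.ref (nat_lit 22) (nat_lit 171147824145936)) (C.cons (nat_lit 571) (C.ref (nat_lit 22) (nat_lit 171147824141856)) (C.cons (nat_lit 567) (C.ref (nat_lit 22) (nat_lit 171147824076336)) (C.cons (nat_lit 559) (C.ref (nat_lit 22) (nat_lit 171147823027776)) (C.cons (nat_lit 543) (C.ref (nat_lit 22) (nat_lit 171147806250576)) (C.cons (nat_lit 377) (C.ref (nat_lit 22) (nat_lit 153559950963216)) (C.cons (nat_lit 373) (C.ref (nat_lit 22) (nat_lit 153559950959376)) (C.cons (nat_lit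 371) (C.ref (nat_lit 22) (nat_lit 153559950955296)) (C.cons (nat_lit 365) (C.ref (nat_lit 22) (nat_lit 153559950894096)) (C.cons (nat_lit 363) (C.ref (nat_lit 22) (nat_lit 153559950890016)) (C.cons (nat_lit 359) (C.ref (nat_lit 22) (nat_lit 153559950824496)) (C.cons (nat_lit 349) (C.ref (nat_lit 22) (nat_lit 153559949845776)) (C.cons (nat_lit 347) (C.ref (nat_lit 22) (nat_lit 153559949841696)) (C.cons (nat_lit 343) (C.ref (nat_lit 22) (nat_lit 153559949776176)) (C.cons (nat_lit 335) (C.ref (nat_lit 22) (nat_lit 153559948727616)) (C.cons (nat_lit 317) (C.ref (nat_lit 22) (nat_lit 153559933068816)) (C.cons (nat_lit 315) (C.ref (nat_lit 22) (nat_lit 153559933064736))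
  (C.cons (nat_lit 311) (C.ref (nat_lit 22) (nat_lit 153559932999216)) (C.cons (nat_lit 303) (C.ref (nat_lit 22) (nat_lit 153559931950656)) (C.cons (nat_lit 287) (C.ref (nat_lit 22) (nat_lit 153559915173456)) (C.cons (nat_lit 249) (C.ref (nat_lit 22) (nat_lit 135968033354256)) (C.cons (nat_lit 245) (C.ref (nat_lit 22) (nat_lit 135968033350416)) (C.cons (nat_lit 243) (C.ref (nat_lit 22) (nat_lit 135968033346336)) (C.cons (nat_lit 237) (C.ref (nat_lit 22) (nat_lit 135968033285136)) (C.cons (nat_lit 235) (C.ref (nat_lit 22) (nat_lit 135968033281056)) (C.cons (nat_lit 231) (C.ref (nat_lit 22) (nat_lit 135968033215536)) (C.cons (nat_lit 221) (C.ref (nat_lit 22) (nat_lit 135968032236816)) (C.cons (nat_lit 219) (C.ref (nat_lit 22) (nat_lit 135968032232736)) (C.cons (nat_lit 215) (C.ref (nat_lit 22) (nat_lit 135968032167216)) (C.cons (nat_lit 207) (C.ref (nat_lit 22) (nat_lit 135968031118656)) (C.cons (nat_lit 189) (C.ref (nat_lit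 22) (nat_lit 135968015459856)) (C.cons (nat_lit 187) (C.ref (nat_lit 22) (nat_lit 135968015455776)) (C.cons (nat_lit 183) (C.ref (nat_lit 22) (nat_lit 135968015390256)) (C.cons (nat_lit 175) (C.ref (nat_lit 22) (nat_lit 135968014341696)) (C.cons (nat_lit 159) (C.ref (nat_lit 22) (nat_lit 135967997564496)) (C.cons (nat_lit 125) (C.ref (nat_lit 25) (nat_lit 205163983024656)) (C.cons (nat_lit 123) (C.ref (nat_lit 25) (nat_lit 205163983024416)) (C.cons (nat_lit 119) (C.ref (nat_lit 25) (nat_lit 205163983020336)) (C.cons (nat_lit 111) (C.ref (nat_lit 25) (nat_lit 205163982954816)) (C.cons (nat_lit 95) (C.ref (nat_lit 25) (nat_lit 205163981906256)) (C.cons (nat_lit 63) (C.ref (nat_lit 25) (nat_lit 205163965129056)) C.nil))))))))))))))))))))))))))))))))))))))))))))))))))))))))))))))))))))))))))))))))) (C.big (C.cons (nat_lit 2161) (C.ref (nat_lit 79) (nat_lit 205163983024656)) (C.cons (nat_lit 2153) (C.ref (nat_lit 79) (nat_lit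 205163982963216)) (C.cons (nat_lit 2149) (C.ref (nat_lit 79) (nat_lit 205163982897936)) (C.cons (nat_lit 2147) (C.ref (nat_lit 79) (nat_lit 205163982832416)) (C.cons (nat_lit 2137) (C.ref (nat_lit 79) (nat_lit 205163981918736)) (C.cons (nat_lit 2133) (C.ref (nat_lit 79) (nat_lit 205163981853456)) (C.cons (nat_lit 2131) (C.ref (nat_lit 79) (nat_lit 205163981787936)) (C.cons (nat_lit 2125) (C.ref (nat_lit 79) (nat_lit 205163980805136)) (C.cons (nat_lit 2123) (C.ref (nat_lit 79) (nat_lit 205163980739616)) (C.cons (nat_lit 2119) (C.ref (nat_lit 79) (nat_lit 205163979691056)) (C.cons (nat_lit 2105) (C.ref (nat_lit 79) (nat_lit 205163965145616)) (C.cons (nat_lit 2101) (C.ref (nat_lit 79) (nat_lit 205163965080336)) (C.cons (nat_lit 2099) (C.ref (nat_lit 79) (nat_lit 205163965014816)) (C.cons (nat_lit 2093) (C.ref (nat_lit 79) (nat_lit 205163964032016)) (C.cons (nat_lit 2091) (C.ref (nat_lit 79) (nat_lit 205163963966496)) (C.cons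 (nat_lit 2087) (C.ref (nat_lit 79) (nat_lit 205163962917936)) (C.cons (nat_lit 2077) (C.ref (nat_lit 79) (nat_lit 205163947255056)) (C.cons (nat_lit 2075) (C.ref (nat_lit 79) (nat_lit 205163947189536)) (C.cons (nat_lit 2071) (C.ref (nat_lit 79) (nat_lit 205163946140976)) (C.cons (nat_lit 2063) (C.ref (nat_lit 79) (nat_lit 205163929363776)) (C.cons (nat_lit 1137) (C.ref (nat_lit 79) (nat_lit 188671308608016)) (C.cons (nat_lit 1129) (C.ref (nat_lit 79) (nat_lit 188671308546576)) (C.cons (nat_lit 1125) (C.ref (nat_lit 79) (nat_lit 188671308481296)) (C.cons (nat_lit 1123) (C.ref (nat_lit 79) (nat_lit 188671308415776)) (C.cons (nat_lit 1113) (C.ref (nat_lit 79) (nat_lit 188671307502096)) (C.cons (nat_lit 1109) (C.ref (nat_lit 79) (nat_lit 188671307436816)) (C.cons (nat_lit 1107) (C.ref (nat_lit 79) (nat_lit 188671307371296)) (C.cons (nat_lit 1101) (C.ref (nat_lit 79) (nat_lit 188671306388496)) (C.cons (nat_lit 1099) (C.ref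 (nat_lit 79) (nat_lit 188671306322976)) (C.cons (nat_lit 1095) (C.ref (nat_lit 79) (nat_lit 188671305274416)) (C.cons (nat_lit 1081) (C.ref (nat_lit 79) (nat_lit 188671290728976)) (C.cons (nat_lit 1077) (C.ref (nat_lit 79) (nat_lit 188671290663696))
  (C.cons (nat_lit 1075) (C.ref (nat_lit 79) (nat_lit 188671290598176)) (C.cons (nat_lit 1069) (C.ref (nat_lit 79) (nat_lit 188671289615376)) (C.cons (nat_lit 1067) (C.ref (nat_lit 79) (nat_lit 188671289549856)) (C.cons (nat_lit 1063) (C.ref (nat_lit 79) (nat_lit 188671288501296)) (C.cons (nat_lit 1053) (C.ref (nat_lit 79) (nat_lit 188671272838416)) (C.cons (nat_lit 1051) (C.ref (nat_lit 79) (nat_lit 188671272772896)) (C.cons (nat_lit 1047) (C.ref (nat_lit 79) (nat_lit 188671271724336)) (C.cons (nat_lit 1039) (C.ref (nat_lit 79) (nat_lit 188671254947136)) (C.cons (nat_lit 625) (C.ref (nat_lit 79) (nat_lit 171147842040336)) (C.cons (nat_lit 617) (C.ref (nat_lit 79) (nat_lit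 171147841978896)) (C.cons (nat_lit 613) (C.ref (nat_lit 79) (nat_lit 171147841913616)) (C.cons (nat_lit 611) (C.ref (nat_lit 79) (nat_lit 171147841848096)) (C.cons (nat_lit 601) (C.ref (nat_lit 79) (nat_lit 171147840934416)) (C.cons (nat_lit 597) (C.ref (nat_lit 79) (nat_lit 171147840869136)) (C.cons (nat_lit 595) (C.ref (nat_lit 79) (nat_lit 171147840803616)) (C.cons (nat_lit 589) (C.ref (nat_lit 79) (nat_lit 171147839820816)) (C.cons (nat_lit 587) (C.ref (nat_lit 79) (nat_lit 171147839755296)) (C.cons (nat_lit 583) (C.ref (nat_lit 79) (nat_lit 171147838706736)) (C.cons (nat_lit 569) (C.ref (nat_lit 79) (nat_lit 171147824161296)) (C.cons (nat_lit 565) (C.ref (nat_lit 79) (nat_lit 171147824096016)) (C.cons (nat_lit 563) (C.ref (nat_lit 79) (nat_lit 171147824030496)) (C.cons (nat_lit 557) (C.ref (nat_lit 79) (nat_lit 171147823047696)) (C.cons (nat_lit 555) (C.ref (nat_lit 79) (nat_lit 171147822982176)) (C.cons (nat_lit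 551) (C.ref (nat_lit 79) (nat_lit 171147821933616)) (C.cons (nat_lit 541) (C.ref (nat_lit 79) (nat_lit 171147806270736)) (C.cons (nat_lit 539) (C.ref (nat_lit 79) (nat_lit 171147806205216)) (C.cons (nat_lit 535) (C.ref (nat_lit 79) (nat_lit 171147805156656)) (C.cons (nat_lit 527) (C.ref (nat_lit 79) (nat_lit 171147788379456)) (C.cons (nat_lit 369) (C.ref (nat_lit 79) (nat_lit 153559950963216)) (C.cons (nat_lit 361) (C.ref (nat_lit 79) (nat_lit 153559950901776)) (C.cons (nat_lit 357) (C.ref (nat_lit 79) (nat_lit 153559950836496)) (C.cons (nat_lit 355) (C.ref (nat_lit 79) (nat_lit 153559950770976)) (C.cons (nat_lit 345) (C.ref (nat_lit 79) (nat_lit 153559949857296)) (C.cons (nat_lit 341) (C.ref (nat_lit 79) (nat_lit 153559949792016)) (C.cons (nat_lit 339) (C.ref (nat_lit 79) (nat_lit 153559949726496)) (C.cons (nat_lit 333) (C.ref (nat_lit 79) (nat_lit 153559948743696)) (C.cons (nat_lit 331) (C.ref (nat_lit 79) (nat_lit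 153559948678176)) (C.cons (nat_lit 327) (C.ref (nat_lit 79) (nat_lit 153559947629616)) (C.cons (nat_lit 313) (C.ref (nat_lit 79) (nat_lit 153559933084176)) (C.cons (nat_lit 309) (C.ref (nat_lit 79) (nat_lit 153559933018896)) (C.cons (nat_lit 307) (C.ref (nat_lit 79) (nat_lit 153559932953376)) (C.cons (nat_lit 301) (C.ref (nat_lit 79) (nat_lit 153559931970576)) (C.cons (nat_lit 299) (C.ref (nat_lit 79) (nat_lit 153559931905056)) (C.cons (nat_lit 295) (C.ref (nat_lit 79) (nat_lit 153559930856496)) (C.cons (nat_lit 285) (C.ref (nat_lit 79) (nat_lit 153559915193616)) (C.cons (nat_lit 283) (C.ref (nat_lit 79) (nat_lit 153559915128096)) (C.cons (nat_lit 279) (C.ref (nat_lit 79) (nat_lit 153559914079536)) (C.cons (nat_lit 271) (C.ref (nat_lit 79) (nat_lit 153559897302336)) (C.cons (nat_lit 241) (C.ref (nat_lit 79) (nat_lit 135968033354256)) (C.cons (nat_lit 233) (C.ref (nat_lit 79) (nat_lit 135968033292816)) (C.cons (nat_lit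 229) (C.ref (nat_lit 79) (nat_lit 135968033227536)) (C.cons (nat_lit 227) (C.ref (nat_lit 79) (nat_lit 135968033162016)) (C.cons (nat_lit 217) (C.ref (nat_lit 79) (nat_lit 135968032248336)) (C.cons (nat_lit 213) (C.ref (nat_lit 79) (nat_lit 135968032183056)) (C.cons (nat_lit 211) (C.ref (nat_lit 79) (nat_lit 135968032117536)) (C.cons (nat_lit 205) (C.ref (nat_lit 79) (nat_lit 135968031134736)) (C.cons (nat_lit 203) (C.ref (nat_lit 79) (nat_lit 135968031069216)) (C.cons (nat_lit 199)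
  (C.ref (nat_lit 79) (nat_lit 135968030020656)) (C.cons (nat_lit 185) (C.ref (nat_lit 79) (nat_lit 135968015475216)) (C.cons (nat_lit 181) (C.ref (nat_lit 79) (nat_lit 135968015409936)) (C.cons (nat_lit 179) (C.ref (nat_lit 79) (nat_lit 135968015344416)) (C.cons (nat_lit 173) (C.ref (nat_lit 79) (nat_lit 135968014361616)) (C.cons (nat_lit 171) (C.ref (nat_lit 79) (nat_lit 135968014296096)) (C.cons (nat_lit 167) (C.ref (nat_lit 79) (nat_lit 135968013247536)) (C.cons (nat_lit 157) (C.ref (nat_lit 79) (nat_lit 135967997584656)) (C.cons (nat_lit 155) (C.ref (nat_lit 79) (nat_lit 135967997519136)) (C.cons (nat_lit 151) (C.ref (nat_lit 79) (nat_lit 135967996470576)) (C.cons (nat_lit 143) (C.ref (nat_lit 79) (nat_lit 135967979693376)) (C.cons (nat_lit 121) (C.ref (nat_lit 86) (nat_lit 205163983024656)) (C.cons (nat_lit 117) (C.ref (nat_lit 86) (nat_lit 205163983020816)) (C.cons (nat_lit 115) (C.ref (nat_lit 86) (nat_lit 205163983016736))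 (C.cons (nat_lit 109) (C.ref (nat_lit 86) (nat_lit 205163982955536)) (C.cons (nat_lit 107) (C.ref (nat_lit 86) (nat_lit 205163982951456)) (C.cons (nat_lit 103) (C.ref (nat_lit 86) (nat_lit 205163982885936)) (C.cons (nat_lit 93) (C.ref (nat_lit 86) (nat_lit 205163981907216)) (C.cons (nat_lit 91) (C.ref (nat_lit 86) (nat_lit 205163981903136)) (C.cons (nat_lit 87) (C.ref (nat_lit 86) (nat_lit 205163981837616)) (C.cons (nat_lit 79) (C.ref (nat_lit 86) (nat_lit 205163980789056)) (C.cons (nat_lit 61) (C.ref (nat_lit 86) (nat_lit 205163965130256)) (C.cons (nat_lit 59) (C.ref (nat_lit 86) (nat_lit 205163965126176)) (C.cons (nat_lit 55) (C.ref (nat_lit 86) (nat_lit 205163965060656)) (C.cons (nat_lit 47) (C.ref (nat_lit 86) (nat_lit 205163964012096)) (C.cons (nat_lit 31) (C.ref (nat_lit 86) (nat_lit 205163947234896)) C.nil)))))))))))))))))))))))))))))))))))))))))))))))))))))))))))))))))))))))))))))))))))))))))))))))))))))))))))))))))))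 (C.node (nat_lit 0) (nat_lit 1) (nat_lit 7) (C.cons (nat_lit 195) (C.ref (nat_lit 229) (nat_lit 205163983024656)) (C.cons (nat_lit 163) (C.ref (nat_lit 229) (nat_lit 205163967296016)) (C.cons (nat_lit 147) (C.ref (nat_lit 229) (nat_lit 205163950584336)) (C.cons (nat_lit 139) (C.ref (nat_lit 229) (nat_lit 205163933811216)) (C.cons (nat_lit 135) (C.ref (nat_lit 229) (nat_lit 205163917034256)) (C.cons (nat_lit 131) (C.node (nat_lit 0) (nat_lit 2) (nat_lit 7) (C.cons (nat_lit 197) (C.ref (nat_lit 228) (nat_lit 205163983024416)) (C.cons (nat_lit 165) (C.ref (nat_lit 228) (nat_lit 205163967295776)) (C.cons (nat_lit 149) (C.ref (nat_lit 228) (nat_lit 205163950584096)) (C.cons (nat_lit 141) (C.ref (nat_lit 228) (nat_lit 205163933810976)) (C.cons (nat_lit 133) (C.node (nat_lit 0) (nat_lit 3) (nat_lit 7) (C.cons (nat_lit 201) (C.ref (nat_lit 227) (nat_lit 205163983020336)) (C.cons (nat_lit 169) (C.ref (nat_lit 227) (nat_lit 205163967291696))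 (C.cons (nat_lit 153) (C.ref (nat_lit 227) (nat_lit 205163950580016)) (C.cons (nat_lit 137) (C.node (nat_lit 0) (nat_lit 4) (nat_lit 7) (C.cons (nat_lit 209) (C.node (nat_lit 0) (nat_lit 5) (nat_lit 7) (C.cons (nat_lit 161) (C.ref (nat_lit 226) (nat_lit 205163982954816)) C.nil)) (C.cons (nat_lit 177) (C.node (nat_lit 0) (nat_lit 6) (nat_lit 7) (C.cons (nat_lit 193) (C.ref (nat_lit 226) (nat_lit 205163967226176)) C.nil)) (C.cons (nat_lit 145) (C.node (nat_lit 0) (nat_lit 5) (nat_lit 7) (C.cons (nat_lit 225) (C.ref (nat_lit 226) (nat_lit 205163981906256)) (C.cons (nat_lit 161) (C.node (nat_lit 0) (nat_lit 6) (nat_lit 7) (C.cons (nat_lit 193) (C.node (nat_lit 0) (nat_lit 1) (nat_lit 8) (C.cons (nat_lit 323) (C.ref (nat_lit 230) (nat_lit 205163983024656)) (C.cons (nat_lit 291) (C.ref (nat_lit 230) (nat_lit 205163967296016)) (C.cons (nat_lit 275) (C.ref (nat_lit 230) (nat_lit 205163950584336)) (C.cons (nat_lit 267) (C.ref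 (nat_lit 230) (nat_lit 205163933811216)) (C.cons (nat_lit 263) (C.ref (nat_lit 230) (nat_lit 205163917034256)) C.nil)))))) C.nil)) C.nil))) C.nil)))) C.nil))))) C.nil)))))) C.nil))))))))) (List.cons
  (C.node (nat_lit 0) (nat_lit 3) (nat_lit 7) (C.cons (nat_lit 393) (C.pat (nat_lit 1) (nat_lit 3073812513) (nat_lit 6080359707667388386490960564571144585)) (C.cons (nat_lit 137) (C.node (nat_lit 0) (nat_lit 3) (nat_lit 8) (C.cons (nat_lit 265) (C.node (nat_lit 0) (nat_lit 7) (nat_lit 8) (C.cons (nat_lit 385) (C.node (nat_lit 0) (nat_lit 4) (nat_lit 5) (C.cons (nat_lit 561) (C.pat (nat_lit 1) (nat_lit 3108660513) (nat_lit 3048182572747855172070733246672208433)) (C.cons (nat_lit 49) (C.node (nat_lit 0) (nat_lit 4) (nat_lit 9) (C.cons (nat_lit 529) (C.node (nat_lit 0) (nat_lit 5) (nat_lit 9) (C.cons (nat_lit 545) (C.node (nat_lit 0) (nat_lit 4) (nat_lit 6) (C.cons (nat_lit 337) (C.pat (nat_lit 1) (nat_lit 3058145313) (nat_lit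 3048058342989061730084094146305655121)) C.nil)) C.nil)) C.nil)) C.nil))) C.nil)) C.nil)) C.nil))) (List.cons (C.node (nat_lit 0) (nat_lit 3) (nat_lit 5) (C.cons (nat_lit 1065) (C.ref (nat_lit 232) (nat_lit 20170082122416)) (C.cons (nat_lit 41) (C.node (nat_lit 0) (nat_lit 3) (nat_lit 10) (C.cons (nat_lit 1033) (C.node (nat_lit 0) (nat_lit 5) (nat_lit 10) (C.cons (nat_lit 1057) (C.node (nat_lit 0) (nat_lit 3) (nat_lit 7) (C.cons (nat_lit 393) (C.pat (nat_lit 1) (nat_lit 3073812513) (nat_lit 6080359707667388386490960564571144585)) (C.cons (nat_lit 137) (C.node (nat_lit 0) (nat_lit 3) (nat_lit 8) (C.cons (nat_lit 265) (C.node (nat_lit 0) (nat_lit 7) (nat_lit 8) (C.cons (nat_lit 385) (C.node (nat_lit 0) (nat_lit 4) (nat_lit 5) (C.cons (nat_lit 561) (C.pat (nat_lit 1) (nat_lit 3108660513) (nat_lit 3048182572747855172070733246672208433)) C.nil)) C.nil)) C.nil)) C.nil))) C.nil)) C.nil)) C.nil))) (List.cons (C.big (C.cons (nat_lit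 295) (C.big C.nil (C.node (nat_lit 0) (nat_lit 1) (nat_lit 11) (C.cons (nat_lit 2051) (C.node (nat_lit 0) (nat_lit 2) (nat_lit 6) (C.cons (nat_lit 1093) (C.node (nat_lit 0) (nat_lit 2) (nat_lit 7) (C.cons (nat_lit 645) (C.node (nat_lit 0) (nat_lit 3) (nat_lit 5) (C.cons (nat_lit 1065) (C.pat (nat_lit 1) (nat_lit 3124327713) (nat_lit 6080483937426181828477599664878978089)) (C.cons (nat_lit 41) (C.node (nat_lit 0) (nat_lit 3) (nat_lit 10) (C.cons (nat_lit 1033) (C.node (nat_lit 0) (nat_lit 5) (nat_lit 10) (C.cons (nat_lit 1057) (C.ref (nat_lit 232) (nat_lit 205163983024656)) C.nil)) C.nil)) C.nil))) (C.cons (nat_lit 133) (C.node (nat_lit 0) (nat_lit 2) (nat_lit 9) (C.cons (nat_lit 517) (C.node (nat_lit 0) (nat_lit 7) (nat_lit 9) (C.cons (nat_lit 641) (C.ref (nat_lit 233) (nat_lit 205163983024656)) C.nil)) C.nil)) C.nil))) (C.cons (nat_lit 69) (C.node (nat_lit 0) (nat_lit 2) (nat_lit 10) (C.cons (nat_lit 1029) (C.node (nat_lit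 0) (nat_lit 6) (nat_lit 10) (C.cons (nat_lit 1089) (C.node (nat_lit 0) (nat_lit 2) (nat_lit 7) (C.cons (nat_lit 645) (C.ref (nat_lit 233) (nat_lit 204132939153936)) (C.cons (nat_lit 133) (C.node (nat_lit 0) (nat_lit 2) (nat_lit 9) (C.cons (nat_lit 517) (C.node (nat_lit 0) (nat_lit 7) (nat_lit 9) (C.cons (nat_lit 641) (C.node (nat_lit 0) (nat_lit 3) (nat_lit 5) (C.cons (nat_lit 1065) (C.node (nat_lit 0) (nat_lit 3) (nat_lit 7) (C.cons (nat_lit 393) (C.node (nat_lit 0) (nat_lit 4) (nat_lit 6) (C.cons (nat_lit 337) (C.pat (nat_lit 1) (nat_lit 3091879473) (nat_lit 1532031890055685504539829572668555601)) (C.cons (nat_lit 81) (C.node (nat_lit 0) (nat_lit 4) (nat_lit 8) (C.cons (nat_lit 273) (C.node (nat_lit 0) (nat_lit 6) (nat_lit 8) (C.cons (nat_lit 321) (C.node (nat_lit 0) (nat_lit 4) (nat_lit 5) (C.cons (nat_lit 561) (C.pat (nat_lit 1) (nat_lit 3041364273) (nat_lit 1531907660296892062553190472287322673)) C.nil)) C.nil))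 C.nil)) C.nil))) (C.cons (nat_lit 137) (C.node (nat_lit 0) (nat_lit 3) (nat_lit 8) (C.cons (nat_lit 265) (C.node (nat_lit 0) (nat_lit 7) (nat_lit 8) (C.cons (nat_lit 385) (C.node (nat_lit 0) (nat_lit 4) (nat_lit 6) (C.cons (nat_lit 337) (C.pat (nat_lit 1) (nat_lit 3091879473) (nat_lit 1532031890055685504539829572668555601)) C.nil)) C.nil)) C.nil)) C.nil))) (C.cons (nat_lit 41) (C.node (nat_lit 0) (nat_lit 3) (nat_lit 10) (C.cons (nat_lit 1033)
  (C.node (nat_lit 0) (nat_lit 5) (nat_lit 10) (C.cons (nat_lit 1057) (C.node (nat_lit 0) (nat_lit 3) (nat_lit 7) (C.cons (nat_lit 393) (C.node (nat_lit 0) (nat_lit 4) (nat_lit 9) (C.cons (nat_lit 561) (C.pat (nat_lit 1) (nat_lit 3041364273) (nat_lit 1531907660296892062553190472287322673)) C.nil)) C.nil)) C.nil)) C.nil)) C.nil))) C.nil)) C.nil)) C.nil))) C.nil)) C.nil)) C.nil))) C.nil))) C.nil) C.nil) (List.cons (C.node (nat_lit 3) (nat_lit 4) (nat_lit 7) (C.cons (nat_lit 216)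 (C.node (nat_lit 2) (nat_lit 6) (nat_lit 7) (C.cons (nat_lit 198) (C.miq (nat_lit 2820737895) (nat_lit 317969092777113360053700833)) (C.cons (nat_lit 196) (C.node (nat_lit 4) (nat_lit 8) (nat_lit 10) (C.cons (nat_lit 1304) (C.miq (nat_lit 1803776164) (nat_lit 2795040480085551692301993107)) (C.cons (nat_lit 1296) (C.node (nat_lit 3) (nat_lit 4) (nat_lit 10) (C.cons (nat_lit 1560) (C.miq (nat_lit 1464011674) (nat_lit 261147623459002638166134529)) (C.cons (nat_lit 1048) (C.node (nat_lit 3) (nat_lit 4) (nat_lit 9) (C.cons (nat_lit 792) (C.miq (nat_lit 2490073968) (nat_lit 2575082849946076369928651145)) (C.cons (nat_lit 536) (C.node (nat_lit 3) (nat_lit 4) (nat_lit 8) (C.cons (nat_lit 282) (C.miq (nat_lit 1949902864) (nat_lit 647996137577085882109460743)) (C.cons (nat_lit 280) (C.node (nat_lit 6) (nat_lit 9) (nat_lit 11) (C.cons (nat_lit 2632) (C.miq (nat_lit 2471147120) (nat_lit 1267025113640961559971956961)) (C.cons (nat_lit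 2624) (C.node (nat_lit 3) (nat_lit 9) (nat_lit 11) (C.cons (nat_lit 2600) (C.miq (nat_lit 2761099189) (nat_lit 648003885425498549805123809)) (C.cons (nat_lit 2568) (C.node (nat_lit 3) (nat_lit 5) (nat_lit 11) (C.cons (nat_lit 2090) (C.node (nat_lit 1) (nat_lit 10) (nat_lit 11) C.nil) C.nil)) C.nil))) C.nil))) C.nil))) C.nil))) C.nil))) C.nil))) C.nil))) (C.cons (nat_lit 152) (C.node (nat_lit 4) (nat_lit 6) (nat_lit 7) (C.cons (nat_lit 208) (C.node (nat_lit 4) (nat_lit 8) (nat_lit 10) (C.cons (nat_lit 1304) (C.node (nat_lit 2) (nat_lit 4) (nat_lit 10) (C.cons (nat_lit 1556) (C.miq (nat_lit 607623808) (nat_lit 183768623169331841641025281)) (C.cons (nat_lit 1076) (C.miq (nat_lit 1383113859) (nat_lit 779776799736743128491164952)) (C.cons (nat_lit 1044) (C.node (nat_lit 4) (nat_lit 5) (nat_lit 10) (C.cons (nat_lit 1136) (C.miq (nat_lit 1686592048) (nat_lit 488447960893350902598534185)) (C.cons (nat_lit 1072) (C.node (nat_lit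 4) (nat_lit 5) (nat_lit 6) (C.cons (nat_lit 120) (C.miq (nat_lit 2221646672) (nat_lit 2575082850090191145687647273)) (C.cons (nat_lit 116) (C.miq (nat_lit 2552499045) (nat_lit 488416380828891110855411937)) (C.cons (nat_lit 112) (C.node (nat_lit 7) (nat_lit 8) (nat_lit 10) (C.cons (nat_lit 1472) (C.miq (nat_lit 645183648) (nat_lit 251494885034948930103873281)) (C.cons (nat_lit 1440) (C.miq (nat_lit 1480292928) (nat_lit 2795078424803631760968320147)) (C.cons (nat_lit 1408) (C.node (nat_lit 2) (nat_lit 3) (nat_lit 8) (C.cons (nat_lit 812) (C.miq (nat_lit 1949436553) (nat_lit 2510950825819125136944271105)) (C.cons (nat_lit 780) (C.miq (nat_lit 1949436553) (nat_lit 2510950825819125136942173953)) (C.cons (nat_lit 300) (C.miq (nat_lit 1517826114) (nat_lit 1702173088340395870481811485)) (C.cons (nat_lit 268) (C.node (nat_lit 6) (nat_lit 8) (nat_lit 10) (C.cons (nat_lit 1378) (C.miq (nat_lit 609618826) (nat_lit 135419854672744660588433153))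 (C.cons (nat_lit 1376) (C.miq (nat_lit 609618826) (nat_lit 135419854672744660588302081)) (C.cons (nat_lit 1346) (C.miq (nat_lit 638892192) (nat_lit 2575050310334265662723264257)) (C.cons (nat_lit 1344) (C.node (nat_lit 1) (nat_lit 3) (nat_lit 4) (C.cons (nat_lit 58) (C.node (nat_lit 1) (nat_lit 5) (nat_lit 8) (C.cons (nat_lit 1314) (C.miq (nat_lit 2555448131) (nat_lit 1588538175701928772971923485)) (C.cons (nat_lit 930) (C.miq (nat_lit 611388312) (nat_lit 1415656986847057289473560321)) (C.cons (nat_lit 866) (C.miq (nat_lit 643086480) (nat_lit 135438006351941926541922049)) (C.cons (nat_lit 802) (C.miq (nat_lit 414422336) (nat_lit 2795046142821926235237319217)) (C.cons (nat_lit 418)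
  (C.miq (nat_lit 2555448131) (nat_lit 505340641327221032435189789)) (C.cons (nat_lit 354) (C.miq (nat_lit 2555448131) (nat_lit 427969388871884765253994525)) (C.cons (nat_lit 290) (C.miq (nat_lit 2555448131) (nat_lit 350598136416548498072799261)) C.nil)))))))) (C.cons (nat_lit 26) (C.node (nat_lit 3) (nat_lit 4) (nat_lit 5) (C.cons (nat_lit 56) (C.node (nat_lit 1) (nat_lit 4) (nat_lit 5) (C.cons (nat_lit 54) (C.node (nat_lit 1) (nat_lit 4) (nat_lit 8) C.nil) C.nil)) C.nil)) C.nil))) C.nil))))) C.nil))))) C.nil)))) C.nil)))) C.nil))) C.nil)))) (C.cons (nat_lit 1296) (C.node (nat_lit 5) (nat_lit 10) (nat_lit 11) (C.cons (nat_lit 3106) (C.node (nat_lit 1) (nat_lit 3) (nat_lit 11) (C.cons (nat_lit 2058) (C.node (nat_lit 1) (nat_lit 2) (nat_lit 11) (C.cons (nat_lit 2054) (C.node (nat_lit 1) (nat_lit 9) (nat_lit 11) C.nil) C.nil)) C.nil)) (C.cons (nat_lit 3104) (C.node (nat_lit 1) (nat_lit 10) (nat_lit 11) (C.cons (nat_lit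 3082) (C.node (nat_lit 6) (nat_lit 10) (nat_lit 11) (C.cons (nat_lit 3136) (C.node (nat_lit 3) (nat_lit 5) (nat_lit 11) C.nil) C.nil)) (C.cons (nat_lit 3074) (C.node (nat_lit 1) (nat_lit 3) (nat_lit 11) (C.cons (nat_lit 2090) (C.node (nat_lit 1) (nat_lit 2) (nat_lit 11) C.nil) C.nil)) C.nil))) C.nil))) C.nil))) C.nil)) C.nil))) List.nil)))))

theorem ok12_231 : okL par12 (nat_lit 236) c12_231 (nat_lit 231) = true := by decide +kernel

noncomputable def c12_236 : List C :=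
  (List.cons (C.node (nat_lit 4) (nat_lit 7) (nat_lit 8) (C.cons (nat_lit 404) (C.node (nat_lit 2) (nat_lit 8) (nat_lit 11) (C.cons (nat_lit 2372) (C.node (nat_lit 7) (nat_lit 8) (nat_lit 11) (C.cons (nat_lit 2434) (C.miq (nat_lit 2709653430) (nat_lit 317967653179537689321670881)) (C.cons (nat_lit 2432) (C.node (nat_lit 1) (nat_lit 7) (nat_lit 11) (C.cons (nat_lit 2186) (C.miq (nat_lit 996700480) (nat_lit 2867579294311634817648755859)) (C.cons (nat_lit 2182) (C.miq (nat_lit 310672224) (nat_lit 488427632875809087333402849)) (C.cons (nat_lit 2178) (C.node (nat_lit 2) (nat_lit 7) (nat_lit 11) (C.cons (nat_lit 3204) (C.miq (nat_lit 1685225643) (nat_lit 488449786896115122405904129)) (C.cons (nat_lit 2180) (C.node (nat_lit 2) (nat_lit 10) (nat_lit 11) (C.cons (nat_lit 3110) (C.miq (nat_lit 641841162) (nat_lit 2575069365820889471068081921)) (C.cons (nat_lit 3108) (C.miq (nat_lit 1409988706) (nat_lit 1415709467911342445566429508))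 (C.cons (nat_lit 3078) (C.miq (nat_lit 641841162) (nat_lit 2575068775525079112362430209)) (C.cons (nat_lit 3076) (C.node (nat_lit 1) (nat_lit 8) (nat_lit 11) (C.cons (nat_lit 2314) (C.node (nat_lit 1) (nat_lit 4) (nat_lit 8) (C.cons (nat_lit 786) (C.miq (nat_lit 1478052656) (nat_lit 950226043502562966189574173)) (C.cons (nat_lit 274) (C.node (nat_lit 1) (nat_lit 4) (nat_lit 9) (C.cons (nat_lit 534) (C.miq (nat_lit 826804519) (nat_lit 331252924292043068081963653)) (C.cons (nat_lit 530) (C.node (nat_lit 3) (nat_lit 5) (nat_lit 11) (C.cons (nat_lit 2600) (C.miq (nat_lit 2214704531) (nat_lit 1415694821196548882217765416)) (C.cons (nat_lit 2088) (C.node (nat_lit 3) (nat_lit 7) (nat_lit 11) (C.cons (nat_lit 3208) (C.miq (nat_lit 2503688359) (nat_lit 2524286991509233063699154067)) (C.cons (nat_lit 2184) (C.node (nat_lit 7) (nat_lit 10) (nat_lit 11) (C.cons (nat_lit 3200) (C.node (nat_lit 3) (nat_lit 9) (nat_lit 11) (C.cons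 (nat_lit 2632) (C.miq (nat_lit 647007025) (nat_lit 697555050079002368563415306)) (C.cons (nat_lit 2568) (C.node (nat_lit 6) (nat_lit 9) (nat_lit 11) (C.cons (nat_lit 2624) (C.node (nat_lit 1) (nat_lit 10) (nat_lit 11) (C.cons (nat_lit 3074) (C.node (nat_lit 5) (nat_lit 10) (nat_lit 11) C.nil) C.nil)) C.nil)) C.nil))) C.nil)) C.nil))) C.nil))) C.nil))) C.nil))) (C.cons (nat_lit 2306) (C.node (nat_lit 3) (nat_lit 8) (nat_lit 11) (C.cons (nat_lit 2312) (C.node (nat_lit 3) (nat_lit 7) (nat_lit 11) (C.cons (nat_lit 3208) (C.node (nat_lit 6) (nat_lit 10) (nat_lit 11) (C.cons (nat_lit 3136) (C.node (nat_lit 1) (nat_lit 3) (nat_lit 11) (C.cons (nat_lit 2090) (C.miq (nat_lit 2503688359) (nat_lit 2526704843148462322048566419)) (C.cons (nat_lit 2058) (C.node (nat_lit 2) (nat_lit 7) (nat_lit 10) (C.cons (nat_lit 1188) (C.miq (nat_lit 2544192304) (nat_lit 1436214223086726925959890973)) (C.cons (nat_lit 1156) (C.node (nat_lit 3) (nat_lit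 5) (nat_lit 11) (C.cons (nat_lit 2600) (C.node (nat_lit 3) (nat_lit 6) (nat_lit 11) C.nil) (C.cons (nat_lit 2088) (C.miq (nat_lit 2503688359) (nat_lit 2524286991509233063699154067)) C.nil))) C.nil))) C.nil))) C.nil)) (C.cons (nat_lit 2184) (C.node (nat_lit 7) (nat_lit 10) (nat_lit 11) (C.cons (nat_lit 3200) (C.node (nat_lit 4) (nat_lit 5) (nat_lit 7) (C.cons (nat_lit 184) (C.miq (nat_lit 2876442949) (nat_lit 2640313636901945617380016689)) (C.cons (nat_lit 176) (C.ref (nat_lit 235) (nat_lit 205163983024656)) C.nil))) C.nil)) C.nil))) C.nil)) C.nil))) C.nil))))) C.nil))) C.nil)))) C.nil))) (C.cons (nat_lit 2308) (C.node (nat_lit 2) (nat_lit 6) (nat_lit 11) (C.cons (nat_lit 2628) (C.miq (nat_lit 2763392914) (nat_lit 2575032158400051518156046981)) (C.cons (nat_lit 2116) (C.node (nat_lit 4) (nat_lit 5) (nat_lit 7) (C.cons (nat_lit 184) (C.node (nat_lit 4) (nat_lit 6) (nat_lit 7) (C.cons (nat_lit 208) (C.node (nat_lit 1) (nat_lit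 3) (nat_lit 4) (C.cons (nat_lit 282) (C.miq (nat_lit 2537751169) (nat_lit 222451998637795413405073671)) (C.cons (nat_lit 26) (C.node (nat_lit 1) (nat_lit 4) (nat_lit 5) (C.cons (nat_lit 54)
  (C.miq (nat_lit 271919220) (nat_lit 1287506994087789658186973588)) (C.cons (nat_lit 50) (C.node (nat_lit 1) (nat_lit 2) (nat_lit 4) (C.cons (nat_lit 534) (C.miq (nat_lit 2199154834) (nat_lit 31439523905208049351393925)) (C.cons (nat_lit 22) (C.node (nat_lit 4) (nat_lit 8) (nat_lit 10) (C.cons (nat_lit 1304) (C.miq (nat_lit 2486875984) (nat_lit 1576510123482572689574004961)) (C.cons (nat_lit 1296) (C.node (nat_lit 3) (nat_lit 4) (nat_lit 8) (C.cons (nat_lit 792) (C.miq (nat_lit 2839743349) (nat_lit 957488895998381806189021409)) (C.cons (nat_lit 280) (C.node (nat_lit 6) (nat_lit 10) (nat_lit 11) (C.cons (nat_lit 3144) (C.miq (nat_lit 1940604169) (nat_lit 3800912656916165406010442289)) (C.cons (nat_lit 3136) (C.node (nat_lit 3) (nat_lit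 7) (nat_lit 11) (C.cons (nat_lit 3208) (C.node (nat_lit 2) (nat_lit 7) (nat_lit 10) (C.cons (nat_lit 1188) (C.miq (nat_lit 2539303984) (nat_lit 1436274728407275705308088349)) (C.cons (nat_lit 1156) (C.node (nat_lit 6) (nat_lit 8) (nat_lit 11) (C.cons (nat_lit 2376) (C.miq (nat_lit 1685291179) (nat_lit 222486180367872998809014017)) (C.cons (nat_lit 2368) (C.node (nat_lit 3) (nat_lit 6) (nat_lit 11) (C.cons (nat_lit 2632) (C.miq (nat_lit 1404635764) (nat_lit 3181903106148913967514256531)) (C.cons (nat_lit 2120) (C.node (nat_lit 6) (nat_lit 9) (nat_lit 11) (C.cons (nat_lit 2624) (C.node (nat_lit 3) (nat_lit 9) (nat_lit 11) (C.cons (nat_lit 2600) (C.node (nat_lit 1) (nat_lit 3) (nat_lit 11) (C.cons (nat_lit 2314) (C.miq (nat_lit 2214704531) (nat_lit 1415694821196548882217765416)) (C.cons (nat_lit 2058) (C.node (nat_lit 3) (nat_lit 8) (nat_lit 11) (C.cons (nat_lit 2312) (C.node (nat_lit 5) (nat_lit 7) (nat_lit 10) (C.cons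 (nat_lit 1696) (C.node (nat_lit 5) (nat_lit 7) (nat_lit 8) (C.cons (nat_lit 418) (C.miq (nat_lit 559155315) (nat_lit 60484604942202267657306505)) (C.cons (nat_lit 416) (C.node (nat_lit 6) (nat_lit 7) (nat_lit 10) (C.cons (nat_lit 1472) (C.miq (nat_lit 1466210944) (nat_lit 251466919580656102112562945)) (C.cons (nat_lit 1216) (C.node (nat_lit 7) (nat_lit 8) (nat_lit 10) (C.cons (nat_lit 1408) (C.node (nat_lit 2) (nat_lit 4) (nat_lit 5) (C.cons (nat_lit 1076) (C.miq (nat_lit 2191553619) (nat_lit 1321363170522931167853347000)) (C.cons (nat_lit 116) (C.miq (nat_lit 2822900566) (nat_lit 488426194496738238437525729)) (C.cons (nat_lit 52) (C.node (nat_lit 1) (nat_lit 8) (nat_lit 11) (C.cons (nat_lit 2306) (C.node (nat_lit 7) (nat_lit 8) (nat_lit 11) C.nil) C.nil)) C.nil)))) C.nil)) C.nil))) C.nil))) (C.cons (nat_lit 1440) (C.miq (nat_lit 2539303984) (nat_lit 1740924034950162257334044701)) (C.cons (nat_lit 1184) (C.miq (nat_lit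 2539303984) (nat_lit 1431439025128817188609263645)) C.nil)))) C.nil)) C.nil))) (C.cons (nat_lit 2568) (C.miq (nat_lit 1404635764) (nat_lit 3104531853693577700333061267)) C.nil))) C.nil)) C.nil))) C.nil))) C.nil))) (C.cons (nat_lit 2186) (C.miq (nat_lit 2199127990) (nat_lit 31438287973362253446645985)) (C.cons (nat_lit 2184) (C.miq (nat_lit 2876442949) (nat_lit 2640313636901945617380016689)) C.nil)))) C.nil))) C.nil))) C.nil))) C.nil))) C.nil))) C.nil))) C.nil)) (C.cons (nat_lit 176) (C.node (nat_lit 3) (nat_lit 4) (nat_lit 7) (C.cons (nat_lit 216) (C.node (nat_lit 4) (nat_lit 8) (nat_lit 10) (C.cons (nat_lit 1304) (C.miq (nat_lit 2758509424) (nat_lit 2575082850090191558004507017)) (C.cons (nat_lit 1296) (C.node (nat_lit 3) (nat_lit 4) (nat_lit 10) (C.cons (nat_lit 1560) (C.miq (nat_lit 1464011674) (nat_lit 261147623459002638166134529)) (C.cons (nat_lit 1048) (C.node (nat_lit 3) (nat_lit 4) (nat_lit 9) (C.cons (nat_lit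 792) (C.miq (nat_lit 2490073968) (nat_lit 2575082849946076369928651145)) (C.cons (nat_lit 536) (C.node (nat_lit 3) (nat_lit 4) (nat_lit 8) (C.cons (nat_lit 282) (C.miq (nat_lit 1949902864) (nat_lit 647996137577085882109460743)) (C.cons (nat_lit 280) (C.node (nat_lit 6) (nat_lit 8) (nat_lit 11) (C.cons (nat_lit 2376) (C.miq (nat_lit 2202711664) (nat_lit 1267025113568903965934029025)) (C.cons (nat_lit 2368) (C.node (nat_lit 6) (nat_lit 9) (nat_lit 11)
  (C.cons (nat_lit 2632) (C.miq (nat_lit 2471147120) (nat_lit 1267025113640961559971956961)) (C.cons (nat_lit 2624) (C.node (nat_lit 3) (nat_lit 9) (nat_lit 11) (C.cons (nat_lit 2600) (C.miq (nat_lit 2761099189) (nat_lit 648003885425498549805123809)) (C.cons (nat_lit 2568) (C.node (nat_lit 3) (nat_lit 7) (nat_lit 11) (C.cons (nat_lit 3208) (C.miq (nat_lit 927312784) (nat_lit 212790590937596574336880385)) (C.cons (nat_lit 2186) (C.miq (nat_lit 344176135) (nat_lit 338539554674184445820995809))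 (C.cons (nat_lit 2184) (C.node (nat_lit 6) (nat_lit 7) (nat_lit 10) (C.cons (nat_lit 1728) (C.miq (nat_lit 611715994) (nat_lit 261148139912667606609301249)) (C.cons (nat_lit 1472) (C.miq (nat_lit 998654119) (nat_lit 2862740325928801830661260435)) (C.cons (nat_lit 1216) (C.node (nat_lit 6) (nat_lit 7) (nat_lit 8) (C.cons (nat_lit 962) (C.miq (nat_lit 611388312) (nat_lit 1415656986847057289475657473)) (C.cons (nat_lit 960) (C.miq (nat_lit 2521532208) (nat_lit 2575082849993364166003196297)) (C.cons (nat_lit 450) (C.miq (nat_lit 406087435) (nat_lit 338538521183638597840734433)) (C.cons (nat_lit 448) (C.node (nat_lit 6) (nat_lit 7) (nat_lit 9) (C.cons (nat_lit 706) (C.miq (nat_lit 2528276800) (nat_lit 2558098932653213358313243795)) (C.cons (nat_lit 704) (C.node (nat_lit 7) (nat_lit 8) (nat_lit 9) (C.cons (nat_lit 930) (C.miq (nat_lit 611388312) (nat_lit 1415656986847057289473560321)) (C.cons (nat_lit 928) (C.miq (nat_lit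 609684361) (nat_lit 212782842986735905861013249)) (C.cons (nat_lit 898) (C.miq (nat_lit 611388312) (nat_lit 1415656986847057289471463169)) (C.cons (nat_lit 896) (C.node (nat_lit 1) (nat_lit 3) (nat_lit 4) (C.cons (nat_lit 58) (C.node (nat_lit 3) (nat_lit 5) (nat_lit 11) (C.cons (nat_lit 2088) (C.node (nat_lit 1) (nat_lit 2) (nat_lit 4) (C.cons (nat_lit 534) (C.miq (nat_lit 427180555) (nat_lit 851123068723886348304451613)) (C.cons (nat_lit 22) (C.node (nat_lit 1) (nat_lit 3) (nat_lit 7) (C.cons (nat_lit 142) (C.miq (nat_lit 409411651) (nat_lit 541601386699041703317735453)) (C.cons (nat_lit 138) (C.node (nat_lit 1) (nat_lit 4) (nat_lit 8) (C.cons (nat_lit 786) (C.miq (nat_lit 1368933131) (nat_lit 950259080975487691353294877)) (C.cons (nat_lit 274) (C.node (nat_lit 1) (nat_lit 4) (nat_lit 9) (C.cons (nat_lit 530) (C.node (nat_lit 4) (nat_lit 8) (nat_lit 9) (C.cons (nat_lit 784) (C.node (nat_lit 3) (nat_lit 8) (nat_lit 11)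 (C.cons (nat_lit 2314) (C.node (nat_lit 7) (nat_lit 8) (nat_lit 11) C.nil) C.nil)) C.nil)) C.nil)) C.nil))) C.nil))) C.nil))) C.nil)) (C.cons (nat_lit 26) (C.node (nat_lit 3) (nat_lit 4) (nat_lit 5) (C.cons (nat_lit 56) (C.node (nat_lit 1) (nat_lit 4) (nat_lit 5) (C.cons (nat_lit 54) (C.node (nat_lit 2) (nat_lit 4) (nat_lit 10) (C.cons (nat_lit 1556) (C.miq (nat_lit 1732381594) (nat_lit 488426194055386986878078721)) (C.cons (nat_lit 1044) (C.node (nat_lit 1) (nat_lit 4) (nat_lit 8) (C.cons (nat_lit 786) (C.node (nat_lit 2) (nat_lit 4) (nat_lit 6) (C.cons (nat_lit 84) (C.node (nat_lit 2) (nat_lit 4) (nat_lit 9) C.nil) C.nil)) (C.cons (nat_lit 274) (C.node (nat_lit 1) (nat_lit 4) (nat_lit 9) C.nil) C.nil))) C.nil))) (C.cons (nat_lit 50) (C.node (nat_lit 1) (nat_lit 2) (nat_lit 4) (C.cons (nat_lit 534) (C.miq (nat_lit 427180555) (nat_lit 851123068723886348304451613)) (C.cons (nat_lit 22) (C.node (nat_lit 1) (nat_lit 4)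 (nat_lit 8) (C.cons (nat_lit 786) (C.node (nat_lit 4) (nat_lit 9) (nat_lit 10) (C.cons (nat_lit 1616) (C.miq (nat_lit 1678944640) (nat_lit 26616530777661344609406721)) (C.cons (nat_lit 1556) (C.miq (nat_lit 1732381594) (nat_lit 488426194055386986878078721)) C.nil))) C.nil)) C.nil))) C.nil))) C.nil)) C.nil))) C.nil))))) C.nil))) C.nil))))) C.nil)))) C.nil)))) C.nil))) C.nil))) C.nil))) C.nil))) C.nil))) C.nil))) C.nil))) (C.cons (nat_lit 152) (C.node (nat_lit 4) (nat_lit 6) (nat_lit 7) (C.cons (nat_lit 208) (C.node (nat_lit 4) (nat_lit 8) (nat_lit 10) (C.cons (nat_lit 1304) (C.node (nat_lit 6) (nat_lit 8) (nat_lit 11) (C.cons (nat_lit 2376)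
  (C.miq (nat_lit 1665644704) (nat_lit 183798654699493321744781057)) (C.cons (nat_lit 2368) (C.node (nat_lit 2) (nat_lit 4) (nat_lit 10) (C.cons (nat_lit 1556) (C.miq (nat_lit 607623808) (nat_lit 183768623169331841641025281)) (C.cons (nat_lit 1076) (C.miq (nat_lit 1383113859) (nat_lit 779776799736743128491164952)) (C.cons (nat_lit 1044) (C.node (nat_lit 4) (nat_lit 5) (nat_lit 10) (C.cons (nat_lit 1136) (C.miq (nat_lit 1686592048) (nat_lit 488447960893350902598534185)) (C.cons (nat_lit 1072) (C.node (nat_lit 3) (nat_lit 7) (nat_lit 11) (C.cons (nat_lit 3208) (C.miq (nat_lit 1731464104) (nat_lit 183762941773982875078102785)) (C.cons (nat_lit 2186) (C.miq (nat_lit 344176135) (nat_lit 1576479593959564720720120033)) (C.cons (nat_lit 2184) (C.node (nat_lit 4) (nat_lit 5) (nat_lit 6) (C.cons (nat_lit 120) (C.miq (nat_lit 2221646672) (nat_lit 2575082850090191145687647273)) (C.cons (nat_lit 116) (C.miq (nat_lit 2217391456) (nat_lit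 1262189410283689620292307169)) (C.cons (nat_lit 112) (C.node (nat_lit 7) (nat_lit 8) (nat_lit 10) (C.cons (nat_lit 1472) (C.miq (nat_lit 996687994) (nat_lit 2862760395986347292144698515)) (C.cons (nat_lit 1440) (C.miq (nat_lit 995639418) (nat_lit 2843417582872513225347302547)) (C.cons (nat_lit 1408) (C.node (nat_lit 1) (nat_lit 3) (nat_lit 4) (C.cons (nat_lit 58) (C.node (nat_lit 2) (nat_lit 4) (nat_lit 5) (C.cons (nat_lit 52) (C.node (nat_lit 1) (nat_lit 2) (nat_lit 4) (C.cons (nat_lit 534) (C.miq (nat_lit 344167024) (nat_lit 1576448916574936366668382853)) (C.cons (nat_lit 22) (C.node (nat_lit 1) (nat_lit 4) (nat_lit 8) (C.cons (nat_lit 786) (C.miq (nat_lit 1368933131) (nat_lit 950259080975487691353294877)) (C.cons (nat_lit 274) (C.node (nat_lit 1) (nat_lit 4) (nat_lit 9) C.nil) C.nil))) C.nil))) C.nil)) (C.cons (nat_lit 26) (C.node (nat_lit 3) (nat_lit 4) (nat_lit 5) (C.cons (nat_lit 56) (C.node (nat_lit 1) (nat_lit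 4) (nat_lit 5) (C.cons (nat_lit 54) (C.node (nat_lit 5) (nat_lit 7) (nat_lit 8) (C.cons (nat_lit 930) (C.miq (nat_lit 611388312) (nat_lit 1415656986847057289473560321)) (C.cons (nat_lit 928) (C.miq (nat_lit 609684361) (nat_lit 212782842986735905861013249)) (C.cons (nat_lit 418) (C.miq (nat_lit 1967358240) (nat_lit 67707095586496973966737671)) (C.cons (nat_lit 416) (C.node (nat_lit 1) (nat_lit 4) (nat_lit 8) (C.cons (nat_lit 786) (C.node (nat_lit 2) (nat_lit 4) (nat_lit 6) (C.cons (nat_lit 84) (C.node (nat_lit 2) (nat_lit 4) (nat_lit 9) C.nil) C.nil)) (C.cons (nat_lit 274) (C.node (nat_lit 1) (nat_lit 4) (nat_lit 9) C.nil) C.nil))) C.nil))))) (C.cons (nat_lit 50) (C.node (nat_lit 2) (nat_lit 4) (nat_lit 5) C.nil) C.nil))) C.nil)) C.nil))) C.nil)))) C.nil)))) C.nil)))) C.nil))) C.nil)))) C.nil))) (C.cons (nat_lit 1296) (C.node (nat_lit 6) (nat_lit 8) (nat_lit 11) (C.cons (nat_lit 2376) (C.node (nat_lit 6) (nat_lit 9) (nat_lit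 11) (C.cons (nat_lit 2624) (C.node (nat_lit 6) (nat_lit 10) (nat_lit 11) (C.cons (nat_lit 3136) (C.node (nat_lit 1) (nat_lit 8) (nat_lit 11) (C.cons (nat_lit 2434) (C.miq (nat_lit 1752281860) (nat_lit 2942564737175670645243185181)) (C.cons (nat_lit 2306) (C.node (nat_lit 7) (nat_lit 8) (nat_lit 11) (C.cons (nat_lit 2432) (C.node (nat_lit 3) (nat_lit 9) (nat_lit 11) (C.cons (nat_lit 2600) (C.miq (nat_lit 1670417236) (nat_lit 632274420879999610106480944)) (C.cons (nat_lit 2568) (C.node (nat_lit 3) (nat_lit 5) (nat_lit 11) (C.cons (nat_lit 2090) (C.miq (nat_lit 1940981860) (nat_lit 2526676564242515159850025297)) (C.cons (nat_lit 2088) (C.node (nat_lit 1) (nat_lit 3) (nat_lit 11) (C.cons (nat_lit 3082) (C.miq (nat_lit 910276618) (nat_lit 2575068849313181307107479297)) (C.cons (nat_lit 2186) (C.node (nat_lit 1) (nat_lit 3) (nat_lit 4) (C.cons (nat_lit 282) (C.miq (nat_lit 2537751169) (nat_lit 183766372410127279814476039))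 (C.cons (nat_lit 58) (C.miq (nat_lit 2215862395) (nat_lit 70161527096429722729056481)) (C.cons (nat_lit 26) (C.miq (nat_lit 2215862395) (nat_lit 31475900868761589138458849)) C.nil)))) (C.cons (nat_lit 2058)
  (C.miq (nat_lit 1940981860) (nat_lit 2487990938014847026259427665)) C.nil)))) C.nil))) C.nil))) C.nil)) C.nil))) C.nil)) C.nil)) (C.cons (nat_lit 2368) (C.node (nat_lit 3) (nat_lit 7) (nat_lit 11) (C.cons (nat_lit 3208) (C.miq (nat_lit 927312784) (nat_lit 212790590937596574336880385)) (C.cons (nat_lit 2186) (C.miq (nat_lit 996700480) (nat_lit 2862743591033176300949931155)) (C.cons (nat_lit 2184) (C.node (nat_lit 3) (nat_lit 8) (nat_lit 11) (C.cons (nat_lit 2314) (C.node (nat_lit 7) (nat_lit 8) (nat_lit 11) (C.cons (nat_lit 2432) (C.node (nat_lit 1) (nat_lit 4) (nat_lit 8) (C.cons (nat_lit 786) (C.miq (nat_lit 1478052656) (nat_lit 950226043502562966189574173)) (C.cons (nat_lit 274) (C.node (nat_lit 1) (nat_lit 4)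 (nat_lit 9) (C.cons (nat_lit 534) (C.miq (nat_lit 826804519) (nat_lit 331252924292043068081963653)) (C.cons (nat_lit 530) (C.node (nat_lit 3) (nat_lit 4) (nat_lit 8) (C.cons (nat_lit 792) (C.miq (nat_lit 274413896) (nat_lit 2747931073897052500460045080)) (C.cons (nat_lit 280) (C.node (nat_lit 4) (nat_lit 8) (nat_lit 9) (C.cons (nat_lit 784) (C.node (nat_lit 3) (nat_lit 5) (nat_lit 11) (C.cons (nat_lit 2600) (C.miq (nat_lit 2746680724) (nat_lit 2640315591475442448732258865)) (C.cons (nat_lit 2088) (C.node (nat_lit 1) (nat_lit 9) (nat_lit 11) (C.cons (nat_lit 2598) (C.miq (nat_lit 2174071556) (nat_lit 3140832666752203303165167645)) (C.cons (nat_lit 2594) (C.miq (nat_lit 2174071556) (nat_lit 3135996963473744786466342941)) (C.cons (nat_lit 2566) (C.miq (nat_lit 999784736) (nat_lit 3268942666459722373296095495)) (C.cons (nat_lit 2562) (C.node (nat_lit 1) (nat_lit 7) (nat_lit 8) (C.cons (nat_lit 962) (C.miq (nat_lit 611388312)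 (nat_lit 1415656986847057289475657473)) (C.cons (nat_lit 930) (C.miq (nat_lit 611388312) (nat_lit 1415656986847057289473560321)) (C.cons (nat_lit 898) (C.miq (nat_lit 611388312) (nat_lit 1415656986847057289471463169)) (C.cons (nat_lit 450) (C.miq (nat_lit 1099150960) (nat_lit 2797492661075236638163536097)) (C.cons (nat_lit 418) (C.miq (nat_lit 2508260531) (nat_lit 505340640403983108972087325)) (C.cons (nat_lit 386) (C.node (nat_lit 1) (nat_lit 7) (nat_lit 9) (C.cons (nat_lit 706) (C.miq (nat_lit 605621095) (nat_lit 640742583130313680209709281)) (C.cons (nat_lit 674) (C.miq (nat_lit 2174071556) (nat_lit 814859389813656771030485021)) (C.cons (nat_lit 642) (C.node (nat_lit 1) (nat_lit 2) (nat_lit 4) (C.cons (nat_lit 54) (C.node (nat_lit 1) (nat_lit 8) (nat_lit 9) (C.cons (nat_lit 866) (C.miq (nat_lit 877726601) (nat_lit 65291642490974153977499393)) (C.cons (nat_lit 834) (C.miq (nat_lit 1478052656) (nat_lit 1008254482844065166575470621))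 (C.cons (nat_lit 802) (C.miq (nat_lit 877726601) (nat_lit 65291642490974153973305089)) (C.cons (nat_lit 770) (C.miq (nat_lit 1478052656) (nat_lit 930883230388728899394275357)) C.nil))))) (C.cons (nat_lit 22) (C.node (nat_lit 2) (nat_lit 8) (nat_lit 10) C.nil) C.nil))) C.nil)))) C.nil))))))) C.nil))))) C.nil))) C.nil)) C.nil))) C.nil))) C.nil))) C.nil)) (C.cons (nat_lit 2312) (C.node (nat_lit 1) (nat_lit 8) (nat_lit 11) (C.cons (nat_lit 2434) (C.node (nat_lit 1) (nat_lit 4) (nat_lit 8) (C.cons (nat_lit 786) (C.miq (nat_lit 1460931465) (nat_lit 1415662484031959190704623361)) (C.cons (nat_lit 282) (C.miq (nat_lit 2441544514) (nat_lit 2942537343239147577922553885)) (C.cons (nat_lit 274) (C.node (nat_lit 1) (nat_lit 4) (nat_lit 9) (C.cons (nat_lit 534) (C.miq (nat_lit 826804519) (nat_lit 331252924292043068081963653)) (C.cons (nat_lit 530) (C.node (nat_lit 1) (nat_lit 2) (nat_lit 4) (C.cons (nat_lit 54) (C.node (nat_lit 1)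 (nat_lit 3) (nat_lit 4) (C.cons (nat_lit 26) (C.node (nat_lit 2) (nat_lit 4) (nat_lit 10) (C.cons (nat_lit 1556) (C.miq (nat_lit 1732381594) (nat_lit 488426194055386986878078721)) (C.cons (nat_lit 1044) (C.node (nat_lit 5) (nat_lit 10) (nat_lit 11) (C.cons (nat_lit 3108) (C.miq (nat_lit 1649674936) (nat_lit 65288211119608314010275585)) (C.cons (nat_lit 3106) (C.miq (nat_lit 1535353200) (nat_lit 2795056141605732884232602771)) (C.cons (nat_lit 3104)
  (C.node (nat_lit 2) (nat_lit 4) (nat_lit 6) (C.cons (nat_lit 596) (C.node (nat_lit 4) (nat_lit 9) (nat_lit 10) (C.cons (nat_lit 1560) (C.miq (nat_lit 1464011674) (nat_lit 183776371003666370984939265)) (C.cons (nat_lit 1552) (C.node (nat_lit 3) (nat_lit 4) (nat_lit 5) (C.cons (nat_lit 120) (C.node (nat_lit 3) (nat_lit 4) (nat_lit 10) C.nil) C.nil)) C.nil))) (C.cons (nat_lit 84) (C.node (nat_lit 2) (nat_lit 4) (nat_lit 9) C.nil) C.nil))) C.nil)))) C.nil))) C.nil)) (C.cons (nat_lit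 22) (C.node (nat_lit 1) (nat_lit 3) (nat_lit 4) (C.cons (nat_lit 58) (C.node (nat_lit 1) (nat_lit 8) (nat_lit 9) (C.cons (nat_lit 866) (C.miq (nat_lit 414422336) (nat_lit 2795046142839940633746801201)) (C.cons (nat_lit 834) (C.miq (nat_lit 1368933131) (nat_lit 1008287520316989891739191325)) (C.cons (nat_lit 802) (C.miq (nat_lit 414422336) (nat_lit 2795046142821926235237319217)) (C.cons (nat_lit 770) (C.miq (nat_lit 1368933131) (nat_lit 930916267861653624557996061)) C.nil))))) (C.cons (nat_lit 26) (C.node (nat_lit 1) (nat_lit 4) (nat_lit 5) (C.cons (nat_lit 50) (C.node (nat_lit 3) (nat_lit 4) (nat_lit 5) (C.cons (nat_lit 120) (C.node (nat_lit 3) (nat_lit 4) (nat_lit 8) (C.cons (nat_lit 792) (C.miq (nat_lit 1803767956) (nat_lit 2795038709198120616151482929)) C.nil)) C.nil)) C.nil)) C.nil))) C.nil))) C.nil))) C.nil)))) (C.cons (nat_lit 2306) (C.node (nat_lit 7) (nat_lit 8) (nat_lit 11) (C.cons (nat_lit 2432) (C.node (nat_lit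 1) (nat_lit 7) (nat_lit 11) (C.cons (nat_lit 2182) (C.node (nat_lit 7) (nat_lit 10) (nat_lit 11) (C.cons (nat_lit 3200) (C.node (nat_lit 2) (nat_lit 9) (nat_lit 11) (C.cons (nat_lit 2596) (C.miq (nat_lit 1528074864) (nat_lit 2575022345133303904418857605)) (C.cons (nat_lit 2564) (C.node (nat_lit 1) (nat_lit 7) (nat_lit 9) (C.cons (nat_lit 962) (C.miq (nat_lit 1192409472) (nat_lit 2637914453047674422748974849)) (C.cons (nat_lit 930) (C.miq (nat_lit 1192409472) (nat_lit 2637914453047674285310021377)) (C.cons (nat_lit 898) (C.miq (nat_lit 1192409472) (nat_lit 2637914453047674147871067905)) (C.cons (nat_lit 706) (C.miq (nat_lit 2528276800) (nat_lit 2558098932653213358313243795)) (C.cons (nat_lit 674) (C.miq (nat_lit 1370789664) (nat_lit 2575022344592308999240352389)) (C.cons (nat_lit 642) (C.node (nat_lit 1) (nat_lit 9) (nat_lit 11) (C.cons (nat_lit 2594) (C.node (nat_lit 3) (nat_lit 5) (nat_lit 11) (C.cons (nat_lit 2088)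 (C.node (nat_lit 1) (nat_lit 3) (nat_lit 11) C.nil) C.nil)) (C.cons (nat_lit 2562) (C.node (nat_lit 5) (nat_lit 9) (nat_lit 11) (C.cons (nat_lit 2600) (C.miq (nat_lit 997873984) (nat_lit 3868582269281098412848251441)) C.nil)) C.nil))) C.nil))))))) C.nil))) C.nil)) (C.cons (nat_lit 2178) (C.node (nat_lit 2) (nat_lit 7) (nat_lit 11) (C.cons (nat_lit 3204) (C.node (nat_lit 5) (nat_lit 10) (nat_lit 11) (C.cons (nat_lit 3106) (C.node (nat_lit 1) (nat_lit 3) (nat_lit 11) (C.cons (nat_lit 2058) (C.node (nat_lit 1) (nat_lit 2) (nat_lit 11) (C.cons (nat_lit 2054) (C.node (nat_lit 1) (nat_lit 9) (nat_lit 11) C.nil) C.nil)) C.nil)) (C.cons (nat_lit 3104) (C.node (nat_lit 1) (nat_lit 10) (nat_lit 11) (C.cons (nat_lit 3082) (C.miq (nat_lit 2443641778) (nat_lit 1415664033065882956360583197)) (C.cons (nat_lit 3074) (C.node (nat_lit 1) (nat_lit 3) (nat_lit 11) (C.cons (nat_lit 2090) (C.node (nat_lit 1) (nat_lit 2) (nat_lit 11) C.nil)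 C.nil)) C.nil))) C.nil))) (C.cons (nat_lit 2180) (C.node (nat_lit 7) (nat_lit 10) (nat_lit 11) (C.cons (nat_lit 3200) (C.node (nat_lit 6) (nat_lit 9) (nat_lit 11) (C.cons (nat_lit 2632) (C.node (nat_lit 6) (nat_lit 10) (nat_lit 11) C.nil) C.nil)) C.nil)) C.nil))) C.nil))) C.nil)) C.nil))) C.nil))) C.nil)))) C.nil))) C.nil))) C.nil)) C.nil))) C.nil))) C.nil))) C.nil))) (C.cons (nat_lit 400) (C.node (nat_lit 2) (nat_lit 4) (nat_lit 7) (C.cons (nat_lit 212) (C.miq (nat_lit 2873493874) (nat_lit 2575032159151589705815163525)) (C.cons (nat_lit 180) (C.miq (nat_lit 2149955956) (nat_lit 44773643148950800140864144)) (C.cons (nat_lit 148) (C.node (nat_lit 4) (nat_lit 5) (nat_lit 7) (C.cons (nat_lit 184)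
  (C.node (nat_lit 4) (nat_lit 6) (nat_lit 7) (C.cons (nat_lit 208) (C.node (nat_lit 6) (nat_lit 10) (nat_lit 11) (C.cons (nat_lit 3144) (C.miq (nat_lit 1940604169) (nat_lit 3800912656916165406010442289)) (C.cons (nat_lit 3136) (C.node (nat_lit 3) (nat_lit 7) (nat_lit 11) (C.cons (nat_lit 3208) (C.node (nat_lit 1) (nat_lit 3) (nat_lit 4) (C.cons (nat_lit 282) (C.miq (nat_lit 460539400) (nat_lit 3878239231905110641431085393)) (C.cons (nat_lit 26) (C.node (nat_lit 3) (nat_lit 5) (nat_lit 11) (C.cons (nat_lit 2600) (C.node (nat_lit 1) (nat_lit 3) (nat_lit 11) (C.cons (nat_lit 2314) (C.miq (nat_lit 2214704531) (nat_lit 1415694821196548882217765416)) (C.cons (nat_lit 2058) (C.node (nat_lit 3) (nat_lit 6) (nat_lit 11) (C.cons (nat_lit 2376) (C.miq (nat_lit 1683194011) (nat_lit 222486180367870378839117569)) (C.cons (nat_lit 2120) (C.node (nat_lit 3) (nat_lit 8) (nat_lit 11) (C.cons (nat_lit 2312) (C.node (nat_lit 6) (nat_lit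 9) (nat_lit 11) (C.cons (nat_lit 2628) (C.miq (nat_lit 1265269024) (nat_lit 3791212972209907030034809477)) (C.cons (nat_lit 2624) (C.node (nat_lit 7) (nat_lit 9) (nat_lit 10) (C.cons (nat_lit 1728) (C.miq (nat_lit 611715994) (nat_lit 251476733355750573211651841)) (C.cons (nat_lit 1696) (C.node (nat_lit 6) (nat_lit 7) (nat_lit 10) (C.cons (nat_lit 1472) (C.miq (nat_lit 1466210944) (nat_lit 251466919580656102112562945)) (C.cons (nat_lit 1216) (C.node (nat_lit 3) (nat_lit 4) (nat_lit 8) (C.cons (nat_lit 1304) (C.miq (nat_lit 1731464104) (nat_lit 222448568001651008668700417)) (C.cons (nat_lit 792) (C.miq (nat_lit 1697909656) (nat_lit 222448568001648397295030017)) (C.cons (nat_lit 280) (C.node (nat_lit 1) (nat_lit 7) (nat_lit 9) (C.cons (nat_lit 962) (C.miq (nat_lit 611388312) (nat_lit 1415656986847057289475657473)) (C.cons (nat_lit 898) (C.miq (nat_lit 611388312) (nat_lit 1415656986847057289471463169)) (C.cons (nat_lit 706)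 (C.miq (nat_lit 694880020) (nat_lit 3172259664737782441532589203)) (C.cons (nat_lit 642) (C.node (nat_lit 1) (nat_lit 4) (nat_lit 5) (C.cons (nat_lit 54) (C.node (nat_lit 1) (nat_lit 5) (nat_lit 7) (C.cons (nat_lit 418) (C.node (nat_lit 1) (nat_lit 8) (nat_lit 11) (C.cons (nat_lit 2306) (C.node (nat_lit 2) (nat_lit 5) (nat_lit 7) (C.cons (nat_lit 164) (C.node (nat_lit 2) (nat_lit 5) (nat_lit 11) (C.cons (nat_lit 3108) (C.miq (nat_lit 1649674936) (nat_lit 65288211119608314010275585)) (C.cons (nat_lit 2084) (C.node (nat_lit 2) (nat_lit 5) (nat_lit 10) (C.cons (nat_lit 1316) (C.miq (nat_lit 891843600) (nat_lit 1590953628235064589427344531)) (C.cons (nat_lit 1060) (C.node (nat_lit 2) (nat_lit 10) (nat_lit 11) (C.cons (nat_lit 3078) (C.miq (nat_lit 2275476402) (nat_lit 1415656986373055593497102365)) (C.cons (nat_lit 3076) (C.node (nat_lit 4) (nat_lit 8) (nat_lit 10) (C.cons (nat_lit 1300) (C.miq (nat_lit 1698827146) (nat_lit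 65302157190265263885651713)) (C.cons (nat_lit 1296) (C.node (nat_lit 2) (nat_lit 4) (nat_lit 8) (C.cons (nat_lit 788) (C.miq (nat_lit 1411889296) (nat_lit 178962951414277189367303937)) (C.cons (nat_lit 276) (C.node (nat_lit 1) (nat_lit 5) (nat_lit 11) (C.cons (nat_lit 2082) (C.node (nat_lit 5) (nat_lit 10) (nat_lit 11) C.nil) C.nil)) C.nil))) C.nil))) C.nil))) C.nil))) C.nil))) C.nil)) C.nil)) (C.cons (nat_lit 162) (C.miq (nat_lit 2270233410) (nat_lit 195850834381881768039286813)) C.nil))) (C.cons (nat_lit 50) (C.node (nat_lit 1) (nat_lit 2) (nat_lit 4) (C.cons (nat_lit 534) (C.miq (nat_lit 1637332000) (nat_lit 776172306241415465920694301)) (C.cons (nat_lit 22) (C.node (nat_lit 2) (nat_lit 3) (nat_lit 5) (C.cons (nat_lit 364) (C.miq (nat_lit 2754742102) (nat_lit 2510959089960465348430661857)) (C.cons (nat_lit 300) (C.miq (nat_lit 625050480) (nat_lit 60451142558866127711306121)) (C.cons (nat_lit 110) (C.miq (nat_lit 2754742102)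 (nat_lit 2510959089960465348414015713)) (C.cons (nat_lit 108) (C.miq (nat_lit 2754742102) (nat_lit 2510959089960465348413884641)) (C.cons (nat_lit 46) (C.miq (nat_lit 682954899) (nat_lit 2843394376357879625562980875)) (C.cons (nat_lit 44)
  (C.node (nat_lit 1) (nat_lit 4) (nat_lit 8) (C.cons (nat_lit 786) (C.node (nat_lit 1) (nat_lit 8) (nat_lit 11) (C.cons (nat_lit 2434) (C.miq (nat_lit 1900394640) (nat_lit 60488221115124469740932865)) (C.cons (nat_lit 2306) (C.node (nat_lit 7) (nat_lit 8) (nat_lit 11) (C.cons (nat_lit 2436) (C.miq (nat_lit 675904336) (nat_lit 950227593052709219046852833)) (C.cons (nat_lit 2432) (C.node (nat_lit 1) (nat_lit 7) (nat_lit 8) (C.cons (nat_lit 450) (C.miq (nat_lit 873991015) (nat_lit 950222944372152174110705889)) (C.cons (nat_lit 418) (C.miq (nat_lit 2184515655) (nat_lit 53200446876103333813683347)) (C.cons (nat_lit 386) (C.node (nat_lit 3) (nat_lit 4) (nat_lit 9) (C.cons (nat_lit 1624)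 (C.miq (nat_lit 1678944640) (nat_lit 26616530779913144423091969)) (C.cons (nat_lit 1560) (C.node (nat_lit 3) (nat_lit 4) (nat_lit 6) (C.cons (nat_lit 88) (C.node (nat_lit 2) (nat_lit 4) (nat_lit 8) (C.cons (nat_lit 1300) (C.miq (nat_lit 874617472) (nat_lit 26606016117778939082379009)) (C.cons (nat_lit 276) (C.node (nat_lit 4) (nat_lit 8) (nat_lit 10) C.nil) C.nil))) C.nil)) (C.cons (nat_lit 600) (C.miq (nat_lit 2739490999) (nat_lit 725386777746506287244380385)) (C.cons (nat_lit 536) (C.miq (nat_lit 2739490999) (nat_lit 648015525291170020063185121)) C.nil))))) C.nil)))) C.nil))) C.nil))) (C.cons (nat_lit 274) (C.node (nat_lit 1) (nat_lit 4) (nat_lit 9) (C.cons (nat_lit 530) (C.node (nat_lit 4) (nat_lit 8) (nat_lit 9) (C.cons (nat_lit 788) (C.miq (nat_lit 1411889296) (nat_lit 178962951414277189367303937)) C.nil)) C.nil)) C.nil))) C.nil))))))) C.nil))) C.nil))) C.nil))))) C.nil)))) C.nil))) (C.cons (nat_lit 1664) (C.miq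 (nat_lit 1519857844) (nat_lit 2011655958339439856612018205)) C.nil)))) C.nil))) C.nil)) C.nil))) C.nil))) (C.cons (nat_lit 2090) (C.miq (nat_lit 2503688359) (nat_lit 2526704843148462322048566419)) (C.cons (nat_lit 2088) (C.miq (nat_lit 2503688359) (nat_lit 2524286991509233063699154067)) C.nil)))) C.nil))) (C.cons (nat_lit 2186) (C.miq (nat_lit 2876442949) (nat_lit 2642731488541174875729429041)) (C.cons (nat_lit 2184) (C.miq (nat_lit 2876442949) (nat_lit 2640313636901945617380016689)) C.nil)))) C.nil))) C.nil)) (C.cons (nat_lit 176) (C.node (nat_lit 3) (nat_lit 4) (nat_lit 7) (C.cons (nat_lit 216) (C.node (nat_lit 3) (nat_lit 4) (nat_lit 9) (C.cons (nat_lit 1560) (C.miq (nat_lit 1464011674) (nat_lit 261147623459002638166134529)) (C.cons (nat_lit 792) (C.miq (nat_lit 2490073968) (nat_lit 2575082849946076369928651145)) (C.cons (nat_lit 536) (C.node (nat_lit 3) (nat_lit 4) (nat_lit 10) (C.cons (nat_lit 1304) (C.miq (nat_lit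 2758509424) (nat_lit 2575082850090191558004507017)) (C.cons (nat_lit 1048) (C.node (nat_lit 3) (nat_lit 4) (nat_lit 8) (C.cons (nat_lit 282) (C.miq (nat_lit 2159097700) (nat_lit 2479512058122062651863466200)) (C.cons (nat_lit 280) (C.node (nat_lit 3) (nat_lit 7) (nat_lit 11) (C.cons (nat_lit 3208) (C.miq (nat_lit 927312784) (nat_lit 212790590937596574336880385)) (C.cons (nat_lit 2186) (C.miq (nat_lit 344176135) (nat_lit 338539554674184445820995809)) (C.cons (nat_lit 2184) (C.node (nat_lit 3) (nat_lit 9) (nat_lit 11) (C.cons (nat_lit 2632) (C.miq (nat_lit 2471147120) (nat_lit 1267025113640961559971956961)) (C.cons (nat_lit 2600) (C.miq (nat_lit 2761099189) (nat_lit 648003885425498549805123809)) (C.cons (nat_lit 2568) (C.node (nat_lit 6) (nat_lit 9) (nat_lit 11) (C.cons (nat_lit 2628) (C.miq (nat_lit 2763392914) (nat_lit 2575032158400051518156046981)) (C.cons (nat_lit 2624) (C.node (nat_lit 6) (nat_lit 7) (nat_lit 10)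 (C.cons (nat_lit 1728) (C.miq (nat_lit 611715994) (nat_lit 261148139912667606609301249)) (C.cons (nat_lit 1472) (C.miq (nat_lit 2789967664) (nat_lit 2575082850137479354079052169)) (C.cons (nat_lit 1216) (C.node (nat_lit 6) (nat_lit 7) (nat_lit 9) (C.cons (nat_lit 962) (C.miq (nat_lit 611388312) (nat_lit 1415656986847057289475657473)) (C.cons (nat_lit 960) (C.miq (nat_lit 2521532208) (nat_lit 2575082849993364166003196297)) (C.cons (nat_lit 706)
  (C.miq (nat_lit 694880020) (nat_lit 3172259664737782441532589203)) (C.cons (nat_lit 704) (C.node (nat_lit 7) (nat_lit 8) (nat_lit 9) (C.cons (nat_lit 930) (C.miq (nat_lit 611388312) (nat_lit 1415656986847057289473560321)) (C.cons (nat_lit 928) (C.miq (nat_lit 609684361) (nat_lit 212782842986735905861013249)) (C.cons (nat_lit 898) (C.miq (nat_lit 611388312) (nat_lit 1415656986847057289471463169)) (C.cons (nat_lit 896) (C.node (nat_lit 1) (nat_lit 3) (nat_lit 4) (C.cons (nat_lit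 58) (C.node (nat_lit 3) (nat_lit 5) (nat_lit 11) (C.cons (nat_lit 2088) (C.node (nat_lit 1) (nat_lit 2) (nat_lit 4) (C.cons (nat_lit 534) (C.miq (nat_lit 427180555) (nat_lit 851123068723886348304451613)) (C.cons (nat_lit 22) (C.node (nat_lit 1) (nat_lit 4) (nat_lit 8) (C.cons (nat_lit 786) (C.miq (nat_lit 1368933131) (nat_lit 950259080975487691353294877)) (C.cons (nat_lit 274) (C.node (nat_lit 1) (nat_lit 4) (nat_lit 9) (C.cons (nat_lit 530) (C.node (nat_lit 4) (nat_lit 8) (nat_lit 9) (C.cons (nat_lit 788) (C.miq (nat_lit 1411889296) (nat_lit 178962951414277189367303937)) C.nil)) C.nil)) C.nil))) C.nil))) C.nil)) (C.cons (nat_lit 26) (C.node (nat_lit 3) (nat_lit 4) (nat_lit 5) (C.cons (nat_lit 56) (C.node (nat_lit 1) (nat_lit 4) (nat_lit 5) (C.cons (nat_lit 54) (C.node (nat_lit 4) (nat_lit 8) (nat_lit 10) (C.cons (nat_lit 1300) (C.miq (nat_lit 1698827146) (nat_lit 65302157190265263885651713)) (C.cons (nat_lit 1296) (C.node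 (nat_lit 2) (nat_lit 4) (nat_lit 8) (C.cons (nat_lit 788) (C.miq (nat_lit 1411889296) (nat_lit 178962951414277189367303937)) C.nil)) C.nil))) (C.cons (nat_lit 50) (C.node (nat_lit 1) (nat_lit 2) (nat_lit 4) (C.cons (nat_lit 534) (C.miq (nat_lit 427180555) (nat_lit 851123068723886348304451613)) C.nil)) C.nil))) C.nil)) C.nil))) C.nil))))) C.nil))))) C.nil)))) C.nil))) C.nil)))) C.nil)))) C.nil))) C.nil))) C.nil)))) (C.cons (nat_lit 152) (C.node (nat_lit 4) (nat_lit 6) (nat_lit 7) (C.cons (nat_lit 208) (C.node (nat_lit 6) (nat_lit 10) (nat_lit 11) (C.cons (nat_lit 3144) (C.node (nat_lit 3) (nat_lit 7) (nat_lit 11) (C.cons (nat_lit 2186) (C.miq (nat_lit 2209744660) (nat_lit 3800868993531776020180501651)) (C.cons (nat_lit 2184) (C.node (nat_lit 3) (nat_lit 9) (nat_lit 11) (C.cons (nat_lit 2600) (C.miq (nat_lit 2746680724) (nat_lit 2640315591475442448732258865)) (C.cons (nat_lit 2568) (C.node (nat_lit 6) (nat_lit 9) (nat_lit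 11) (C.cons (nat_lit 2628) (C.miq (nat_lit 1265269024) (nat_lit 3800884378766824063432458885)) (C.cons (nat_lit 2624) (C.node (nat_lit 2) (nat_lit 6) (nat_lit 11) (C.cons (nat_lit 2372) (C.node (nat_lit 3) (nat_lit 8) (nat_lit 11) (C.cons (nat_lit 2314) (C.miq (nat_lit 329288546) (nat_lit 1287510850034618056231422276)) (C.cons (nat_lit 2312) (C.node (nat_lit 1) (nat_lit 8) (nat_lit 11) (C.cons (nat_lit 2434) (C.miq (nat_lit 2709653430) (nat_lit 317967653179537689321670881)) (C.cons (nat_lit 2306) (C.node (nat_lit 7) (nat_lit 8) (nat_lit 11) (C.cons (nat_lit 2432) (C.node (nat_lit 1) (nat_lit 7) (nat_lit 11) (C.cons (nat_lit 2182) (C.miq (nat_lit 1093142454) (nat_lit 317953707441016882568890593)) (C.cons (nat_lit 2178) (C.node (nat_lit 2) (nat_lit 7) (nat_lit 11) (C.cons (nat_lit 3204) (C.miq (nat_lit 1685225643) (nat_lit 178964777074770053681123073)) (C.cons (nat_lit 2180) (C.node (nat_lit 7) (nat_lit 10) (nat_lit 11)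 (C.cons (nat_lit 3200) (C.node (nat_lit 1) (nat_lit 3) (nat_lit 11) (C.cons (nat_lit 2058) (C.node (nat_lit 3) (nat_lit 5) (nat_lit 11) C.nil) C.nil)) C.nil)) C.nil))) C.nil))) C.nil)) C.nil))) C.nil))) (C.cons (nat_lit 2116) (C.node (nat_lit 6) (nat_lit 8) (nat_lit 11) (C.cons (nat_lit 2368) (C.node (nat_lit 2) (nat_lit 8) (nat_lit 11) (C.cons (nat_lit 2436) (C.miq (nat_lit 2181412756) (nat_lit 44773642753478457887361680)) (C.cons (nat_lit 2308) (C.node (nat_lit 3) (nat_lit 5) (nat_lit 11) (C.cons (nat_lit 2090) (C.node (nat_lit 3) (nat_lit 8) (nat_lit 11) (C.cons (nat_lit 2312) (C.node (nat_lit 1) (nat_lit 3) (nat_lit 4) (C.cons (nat_lit 282)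
  (C.miq (nat_lit 1931151430) (nat_lit 2526696892554475394114388305)) (C.cons (nat_lit 26) (C.node (nat_lit 3) (nat_lit 4) (nat_lit 5) (C.cons (nat_lit 120) (C.miq (nat_lit 2607024693) (nat_lit 2575022345483744382113285161)) (C.cons (nat_lit 56) (C.node (nat_lit 1) (nat_lit 7) (nat_lit 9) (C.cons (nat_lit 962) (C.miq (nat_lit 611388312) (nat_lit 1415656986847057289475657473)) (C.cons (nat_lit 930) (C.miq (nat_lit 611388312) (nat_lit 1415656986847057289473560321)) (C.cons (nat_lit 898) (C.miq (nat_lit 611388312) (nat_lit 1415656986847057289471463169)) (C.cons (nat_lit 706) (C.miq (nat_lit 2528276800) (nat_lit 2558098932653213358313243795)) (C.cons (nat_lit 674) (C.miq (nat_lit 588843863) (nat_lit 632280102393011104185977057)) (C.cons (nat_lit 642) (C.node (nat_lit 1) (nat_lit 4) (nat_lit 5) (C.cons (nat_lit 54) (C.node (nat_lit 1) (nat_lit 5) (nat_lit 7) (C.cons (nat_lit 418) (C.miq (nat_lit 1967358240) (nat_lit 67707095586496973966737671))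 (C.cons (nat_lit 162) (C.node (nat_lit 5) (nat_lit 10) (nat_lit 11) (C.cons (nat_lit 3108) (C.miq (nat_lit 1649674936) (nat_lit 65288211119608314010275585)) (C.cons (nat_lit 3104) (C.node (nat_lit 2) (nat_lit 4) (nat_lit 8) (C.cons (nat_lit 1300) (C.miq (nat_lit 1698827146) (nat_lit 65302157190265263885651713)) (C.cons (nat_lit 788) (C.miq (nat_lit 1411889296) (nat_lit 178962951414277189367303937)) (C.cons (nat_lit 276) (C.node (nat_lit 2) (nat_lit 4) (nat_lit 10) (C.cons (nat_lit 1556) (C.miq (nat_lit 1732381594) (nat_lit 178941184234041918153297665)) C.nil)) C.nil)))) C.nil))) C.nil))) (C.cons (nat_lit 50) (C.node (nat_lit 1) (nat_lit 2) (nat_lit 4) (C.cons (nat_lit 534) (C.miq (nat_lit 1637332000) (nat_lit 776172306241415465920694301)) (C.cons (nat_lit 22) (C.node (nat_lit 1) (nat_lit 4) (nat_lit 8) (C.cons (nat_lit 786) (C.node (nat_lit 1) (nat_lit 8) (nat_lit 11) (C.cons (nat_lit 2434) (C.miq (nat_lit 1900394640)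 (nat_lit 60488221115124469740932865)) C.nil)) (C.cons (nat_lit 274) (C.node (nat_lit 1) (nat_lit 4) (nat_lit 9) (C.cons (nat_lit 530) (C.node (nat_lit 3) (nat_lit 4) (nat_lit 6) C.nil) C.nil)) C.nil))) C.nil))) C.nil))) C.nil))))))) C.nil))) C.nil))) C.nil)) (C.cons (nat_lit 2088) (C.node (nat_lit 1) (nat_lit 3) (nat_lit 11) (C.cons (nat_lit 2314) (C.node (nat_lit 7) (nat_lit 8) (nat_lit 11) (C.cons (nat_lit 2432) (C.node (nat_lit 1) (nat_lit 3) (nat_lit 10) (C.cons (nat_lit 1038) (C.miq (nat_lit 1662167936) (nat_lit 1254885163936224913234792193)) (C.cons (nat_lit 1034) (C.node (nat_lit 1) (nat_lit 4) (nat_lit 8) (C.cons (nat_lit 786) (C.miq (nat_lit 1478052656) (nat_lit 950226043502562966189574173)) (C.cons (nat_lit 274) (C.node (nat_lit 1) (nat_lit 4) (nat_lit 9) (C.cons (nat_lit 534) (C.miq (nat_lit 1612822420) (nat_lit 317986782763319866644892304)) (C.cons (nat_lit 530) (C.node (nat_lit 4) (nat_lit 8) (nat_lit 9)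 (C.cons (nat_lit 792) (C.miq (nat_lit 274413896) (nat_lit 2747931073897052500460045080)) (C.cons (nat_lit 788) (C.miq (nat_lit 1411889296) (nat_lit 178962951414277189367303937)) (C.cons (nat_lit 784) (C.node (nat_lit 1) (nat_lit 9) (nat_lit 11) (C.cons (nat_lit 2598) (C.miq (nat_lit 2174071556) (nat_lit 3140832666752203303165167645)) (C.cons (nat_lit 2594) (C.miq (nat_lit 2174071556) (nat_lit 3135996963473744786466342941)) (C.cons (nat_lit 2566) (C.miq (nat_lit 999784736) (nat_lit 3268942666459722373296095495)) (C.cons (nat_lit 2562) (C.node (nat_lit 1) (nat_lit 7) (nat_lit 11) (C.cons (nat_lit 2178) (C.node (nat_lit 2) (nat_lit 7) (nat_lit 11) C.nil) C.nil)) C.nil))))) C.nil)))) C.nil))) C.nil))) C.nil))) C.nil)) (C.cons (nat_lit 2058) (C.node (nat_lit 3) (nat_lit 8) (nat_lit 11) (C.cons (nat_lit 2312) (C.node (nat_lit 1) (nat_lit 8) (nat_lit 11) (C.cons (nat_lit 2434) (C.node (nat_lit 2) (nat_lit 7) (nat_lit 11) (C.cons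 (nat_lit 2180) (C.node (nat_lit 7) (nat_lit 10) (nat_lit 11) C.nil) C.nil)) (C.cons (nat_lit 2306) (C.node (nat_lit 7) (nat_lit 8) (nat_lit 11) C.nil) C.nil))) C.nil)) C.nil))) C.nil))) C.nil))) C.nil)) C.nil))) C.nil))) C.nil))) C.nil)))
  (C.cons (nat_lit 3136) (C.node (nat_lit 1) (nat_lit 2) (nat_lit 4) (C.cons (nat_lit 534) (C.miq (nat_lit 1612822420) (nat_lit 317986782763319866644892304)) (C.cons (nat_lit 54) (C.node (nat_lit 2) (nat_lit 4) (nat_lit 8) (C.cons (nat_lit 1300) (C.miq (nat_lit 1698827146) (nat_lit 65302157190265263885651713)) (C.cons (nat_lit 788) (C.miq (nat_lit 1411889296) (nat_lit 178962951414277189367303937)) (C.cons (nat_lit 276) (C.node (nat_lit 2) (nat_lit 4) (nat_lit 10) (C.cons (nat_lit 1556) (C.miq (nat_lit 1732381594) (nat_lit 178941184234041918153297665)) (C.cons (nat_lit 1044) (C.node (nat_lit 1) (nat_lit 3) (nat_lit 4) (C.cons (nat_lit 282) (C.node (nat_lit 1) (nat_lit 4) (nat_lit 9)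 (C.cons (nat_lit 530) (C.node (nat_lit 4) (nat_lit 8) (nat_lit 9) (C.cons (nat_lit 784) (C.node (nat_lit 4) (nat_lit 8) (nat_lit 10) C.nil) C.nil)) C.nil)) (C.cons (nat_lit 26) (C.node (nat_lit 3) (nat_lit 7) (nat_lit 11) (C.cons (nat_lit 3208) (C.miq (nat_lit 927312784) (nat_lit 212790590937596574336880385)) (C.cons (nat_lit 2186) (C.miq (nat_lit 2199127990) (nat_lit 31438287973362253446645985)) (C.cons (nat_lit 2184) (C.node (nat_lit 1) (nat_lit 4) (nat_lit 8) (C.cons (nat_lit 786) (C.node (nat_lit 1) (nat_lit 8) (nat_lit 11) (C.cons (nat_lit 2434) (C.miq (nat_lit 1900394640) (nat_lit 65323924393582986439757569)) (C.cons (nat_lit 2314) (C.miq (nat_lit 1478052656) (nat_lit 950226043502562966189574173)) (C.cons (nat_lit 2306) (C.node (nat_lit 3) (nat_lit 8) (nat_lit 11) (C.cons (nat_lit 2376) (C.miq (nat_lit 389759110) (nat_lit 2640333281932836004709269841)) (C.cons (nat_lit 2312) (C.node (nat_lit 7) (nat_lit 8) (nat_lit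 11) (C.cons (nat_lit 2436) (C.miq (nat_lit 675904336) (nat_lit 950227593052709219046852833)) (C.cons (nat_lit 2432) (C.node (nat_lit 1) (nat_lit 7) (nat_lit 8) (C.cons (nat_lit 450) (C.miq (nat_lit 873991015) (nat_lit 950222944372152174110705889)) (C.cons (nat_lit 418) (C.miq (nat_lit 928253970) (nat_lit 212809258250237290634150151)) (C.cons (nat_lit 386) (C.node (nat_lit 1) (nat_lit 7) (nat_lit 9) (C.cons (nat_lit 706) (C.miq (nat_lit 605621095) (nat_lit 950227592951658748934490337)) (C.cons (nat_lit 674) (C.miq (nat_lit 1729627540) (nat_lit 466651583563795218478268977)) (C.cons (nat_lit 642) (C.node (nat_lit 4) (nat_lit 9) (nat_lit 10) (C.cons (nat_lit 1624) (C.miq (nat_lit 1678944640) (nat_lit 65302157007581278013689601)) (C.cons (nat_lit 1616) (C.miq (nat_lit 1678944640) (nat_lit 65302157005329478200004353)) (C.cons (nat_lit 1560) (C.miq (nat_lit 1464011674) (nat_lit 183776371003666370984939265)) (C.cons (nat_lit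 1552) (C.node (nat_lit 2) (nat_lit 4) (nat_lit 6) (C.cons (nat_lit 596) (C.node (nat_lit 3) (nat_lit 4) (nat_lit 9) C.nil) C.nil)) C.nil))))) C.nil)))) C.nil)))) C.nil))) C.nil))) C.nil)))) (C.cons (nat_lit 274) (C.node (nat_lit 1) (nat_lit 4) (nat_lit 9) C.nil) C.nil))) C.nil)))) C.nil))) C.nil))) C.nil)))) (C.cons (nat_lit 22) (C.node (nat_lit 1) (nat_lit 4) (nat_lit 5) (C.cons (nat_lit 58) (C.node (nat_lit 1) (nat_lit 4) (nat_lit 8) (C.cons (nat_lit 786) (C.miq (nat_lit 1368933131) (nat_lit 950259080975487691353294877)) (C.cons (nat_lit 274) (C.node (nat_lit 1) (nat_lit 4) (nat_lit 9) (C.cons (nat_lit 530) (C.node (nat_lit 3) (nat_lit 5) (nat_lit 11) (C.cons (nat_lit 2600) (C.miq (nat_lit 2874411313) (nat_lit 2843415129952074685258269195)) (C.cons (nat_lit 2088) (C.node (nat_lit 3) (nat_lit 7) (nat_lit 11) (C.cons (nat_lit 3208) (C.miq (nat_lit 927312784) (nat_lit 212790590937596574336880385)) (C.cons (nat_lit 2186)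 (C.miq (nat_lit 826833760) (nat_lit 331252924760142809115199713)) (C.cons (nat_lit 2184) (C.node (nat_lit 3) (nat_lit 10) (nat_lit 11) (C.cons (nat_lit 3082) (C.miq (nat_lit 2603944468) (nat_lit 2524247461059929690483590291)) (C.cons (nat_lit 3080) (C.node (nat_lit 4) (nat_lit 8) (nat_lit 9) (C.cons (nat_lit 792) (C.miq (nat_lit 280312196) (nat_lit 2747889458042436299204330264)) (C.cons (nat_lit 788) (C.miq (nat_lit 1411889296) (nat_lit 178962951414277189367303937)) (C.cons (nat_lit 784)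
  (C.node (nat_lit 2) (nat_lit 4) (nat_lit 8) (C.cons (nat_lit 1300) (C.node (nat_lit 3) (nat_lit 4) (nat_lit 8) C.nil) C.nil)) C.nil)))) C.nil))) C.nil)))) C.nil))) C.nil)) C.nil))) (C.cons (nat_lit 50) (C.node (nat_lit 1) (nat_lit 3) (nat_lit 4) (C.cons (nat_lit 282) (C.node (nat_lit 1) (nat_lit 4) (nat_lit 9) (C.cons (nat_lit 530) (C.node (nat_lit 1) (nat_lit 8) (nat_lit 11) (C.cons (nat_lit 2434) (C.miq (nat_lit 1636283440) (nat_lit 2942567374990829864645888029)) (C.cons (nat_lit 2306) (C.node (nat_lit 4) (nat_lit 8) (nat_lit 9) (C.cons (nat_lit 788) (C.miq (nat_lit 1411889296) (nat_lit 178962951414277189367303937)) (C.cons (nat_lit 784) (C.node (nat_lit 2) (nat_lit 4) (nat_lit 8) (C.cons (nat_lit 1300) (C.node (nat_lit 2) (nat_lit 4) (nat_lit 9) (C.cons (nat_lit 596) (C.miq (nat_lit 1411823776) (nat_lit 720561718601633258688286465)) C.nil)) C.nil)) C.nil))) C.nil))) C.nil)) (C.cons (nat_lit 26) (C.node (nat_lit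 3) (nat_lit 7) (nat_lit 11) (C.cons (nat_lit 3208) (C.miq (nat_lit 927312784) (nat_lit 212790590937596574336880385)) (C.cons (nat_lit 2186) (C.miq (nat_lit 2199127990) (nat_lit 31438287973362253446645985)) (C.cons (nat_lit 2184) (C.node (nat_lit 1) (nat_lit 4) (nat_lit 8) (C.cons (nat_lit 786) (C.node (nat_lit 1) (nat_lit 8) (nat_lit 11) (C.cons (nat_lit 2434) (C.miq (nat_lit 1900394640) (nat_lit 60488221115124469740932865)) (C.cons (nat_lit 2314) (C.miq (nat_lit 1478052656) (nat_lit 950226043502562966189574173)) (C.cons (nat_lit 2306) (C.node (nat_lit 3) (nat_lit 8) (nat_lit 11) (C.cons (nat_lit 2376) (C.miq (nat_lit 389759110) (nat_lit 2640333281932836004709269841)) (C.cons (nat_lit 2312) (C.node (nat_lit 7) (nat_lit 8) (nat_lit 11) (C.cons (nat_lit 2436) (C.miq (nat_lit 675904336) (nat_lit 950227593052709219046852833)) (C.cons (nat_lit 2432) (C.node (nat_lit 4) (nat_lit 9) (nat_lit 10) (C.cons (nat_lit 1624) (C.miq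 (nat_lit 1678944640) (nat_lit 26616530779913144423091969)) (C.cons (nat_lit 1616) (C.miq (nat_lit 1678944640) (nat_lit 26616530777661344609406721)) (C.cons (nat_lit 1560) (C.miq (nat_lit 1464011674) (nat_lit 183776371003666370984939265)) (C.cons (nat_lit 1556) (C.miq (nat_lit 1732381594) (nat_lit 178941184234041918153297665)) (C.cons (nat_lit 1552) (C.node (nat_lit 2) (nat_lit 4) (nat_lit 8) (C.cons (nat_lit 1300) (C.node (nat_lit 3) (nat_lit 4) (nat_lit 8) C.nil) C.nil)) C.nil)))))) C.nil))) C.nil))) C.nil)))) (C.cons (nat_lit 274) (C.node (nat_lit 1) (nat_lit 4) (nat_lit 9) (C.cons (nat_lit 530) (C.node (nat_lit 3) (nat_lit 4) (nat_lit 5) (C.cons (nat_lit 56) (C.node (nat_lit 2) (nat_lit 4) (nat_lit 5) C.nil) C.nil)) C.nil)) C.nil))) C.nil)))) C.nil))) C.nil))) C.nil)))) C.nil))) C.nil)) C.nil))) C.nil))) C.nil)))) C.nil))) List.nil)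

theorem ok12_236 : okL par12 (nat_lit 237) c12_236 (nat_lit 236) = true := by decide +kernel

noncomputable def c12_237 : List C :=
  (List.cons (C.node (nat_lit 4) (nat_lit 5) (nat_lit 7) (C.cons (nat_lit 184) (C.node (nat_lit 4) (nat_lit 6) (nat_lit 7) (C.cons (nat_lit 208) (C.node (nat_lit 3) (nat_lit 7) (nat_lit 11) (C.cons (nat_lit 3208) (C.node (nat_lit 3) (nat_lit 5) (nat_lit 11) (C.cons (nat_lit 2600) (C.node (nat_lit 7) (nat_lit 9) (nat_lit 10) (C.cons (nat_lit 1728) (C.miq (nat_lit 611715994) (nat_lit 251476733355750573211651841)) (C.cons (nat_lit 1696) (C.node (nat_lit 6) (nat_lit 7) (nat_lit 10) (C.cons (nat_lit 1472) (C.miq (nat_lit 1466210944) (nat_lit 251466919580656102112562945)) (C.cons (nat_lit 1216) (C.node (nat_lit 3) (nat_lit 8) (nat_lit 11) (C.cons (nat_lit 2378) (C.miq (nat_lit 1683194011) (nat_lit 222486217261358526258220801)) (C.cons (nat_lit 2376) (C.miq (nat_lit 1683194011) (nat_lit 222486180367870378839117569))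 (C.cons (nat_lit 2314) (C.miq (nat_lit 2214704531) (nat_lit 1415694821196548882217765416)) (C.cons (nat_lit 2312) (C.node (nat_lit 1) (nat_lit 3) (nat_lit 11) (C.cons (nat_lit 2122) (C.node (nat_lit 6) (nat_lit 10) (nat_lit 11) (C.cons (nat_lit 3136) (C.node (nat_lit 1) (nat_lit 3) (nat_lit 7) (C.cons (nat_lit 142) (C.miq (nat_lit 2322664242) (nat_lit 1415656987343581313003030557)) (C.cons (nat_lit 138) (C.node (nat_lit 6) (nat_lit 9) (nat_lit 11) (C.cons (nat_lit 2628) (C.miq (nat_lit 1784225851) (nat_lit 2050386668417493512858634269)) (C.cons (nat_lit 2624) (C.node (nat_lit 1) (nat_lit 7) (nat_lit 9) (C.cons (nat_lit 962) (C.miq (nat_lit 611388312) (nat_lit 1415656986847057289475657473)) (C.cons (nat_lit 898) (C.miq (nat_lit 611388312) (nat_lit 1415656986847057289471463169)) (C.cons (nat_lit 706) (C.miq (nat_lit 588843879) (nat_lit 632280102393011241627027681)) (C.cons (nat_lit 642) (C.node (nat_lit 1) (nat_lit 3)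 (nat_lit 4) (C.cons (nat_lit 282) (C.node (nat_lit 1) (nat_lit 3) (nat_lit 5) (C.cons (nat_lit 46) (C.miq (nat_lit 682954899) (nat_lit 2843394376357879625562980875)) (C.cons (nat_lit 42) (C.node (nat_lit 4) (nat_lit 8) (nat_lit 9) (C.cons (nat_lit 788) (C.miq (nat_lit 1411889296) (nat_lit 178962951414277189367303937)) (C.cons (nat_lit 784) (C.node (nat_lit 1) (nat_lit 4) (nat_lit 5) (C.cons (nat_lit 118) (C.miq (nat_lit 1930758214) (nat_lit 50816813983714844184281425)) (C.cons (nat_lit 114) (C.miq (nat_lit 1930758214) (nat_lit 50816813983714844184019281)) (C.cons (nat_lit 54) (C.miq (nat_lit 544544820) (nat_lit 2747889384182261701232034074)) (C.cons (nat_lit 50) (C.node (nat_lit 2) (nat_lit 3) (nat_lit 5) (C.cons (nat_lit 364) (C.miq (nat_lit 2754742102) (nat_lit 2510959089960465348430661857)) (C.cons (nat_lit 300) (C.miq (nat_lit 625050480) (nat_lit 60451142558866127711306121)) (C.cons (nat_lit 108) (C.miq (nat_lit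 2754742102) (nat_lit 2510959089960465348413884641)) (C.cons (nat_lit 44) (C.node (nat_lit 3) (nat_lit 5) (nat_lit 6) (C.cons (nat_lit 360) (C.miq (nat_lit 1394042944) (nat_lit 166873692657430570793632081)) (C.cons (nat_lit 104) (C.node (nat_lit 3) (nat_lit 5) (nat_lit 8) (C.cons (nat_lit 296) (C.node (nat_lit 1) (nat_lit 2) (nat_lit 3) (C.cons (nat_lit 1038) (C.node (nat_lit 1) (nat_lit 9) (nat_lit 10) (C.cons (nat_lit 1602) (C.miq (nat_lit 2175157024) (nat_lit 1936705379654769179678279709)) (C.cons (nat_lit 1538) (C.node (nat_lit 2) (nat_lit 3) (nat_lit 7) (C.cons (nat_lit 204) (C.miq (nat_lit 2250457249) (nat_lit 246626069278074899352388755)) (C.cons (nat_lit 140) (C.node (nat_lit 1) (nat_lit 2) (nat_lit 4) (C.cons (nat_lit 598) (C.miq (nat_lit 2174170144) (nat_lit 776137625842391409880270877)) C.nil)) C.nil))) C.nil))) (C.cons (nat_lit 14) (C.node (nat_lit 3) (nat_lit 4) (nat_lit 9) (C.cons (nat_lit 1624) (C.miq (nat_lit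 2719178884) (nat_lit 16954919294633791897338193)) (C.cons (nat_lit 536) (C.miq (nat_lit 2739490999) (nat_lit 648015525291170020063185121)) C.nil))) C.nil))) C.nil)) C.nil))) C.nil))))) C.nil))))) C.nil))) C.nil))) (C.cons (nat_lit 26) (C.node (nat_lit 3) (nat_lit 4) (nat_lit 8) (C.cons (nat_lit 1304) (C.miq (nat_lit 1731464104) (nat_lit 222448568001651008668700417))
  (C.cons (nat_lit 792) (C.miq (nat_lit 1697909656) (nat_lit 222448568001648397295030017)) (C.cons (nat_lit 280) (C.node (nat_lit 1) (nat_lit 4) (nat_lit 8) (C.cons (nat_lit 786) (C.node (nat_lit 1) (nat_lit 8) (nat_lit 11) (C.cons (nat_lit 2434) (C.miq (nat_lit 1460931465) (nat_lit 1415662484031959190704623361)) (C.cons (nat_lit 2306) (C.node (nat_lit 7) (nat_lit 8) (nat_lit 11) (C.cons (nat_lit 2436) (C.miq (nat_lit 675904336) (nat_lit 950227593052709219046852833)) (C.cons (nat_lit 2432) (C.node (nat_lit 1) (nat_lit 7) (nat_lit 11) (C.cons (nat_lit 2182)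 (C.node (nat_lit 1) (nat_lit 9) (nat_lit 11) (C.cons (nat_lit 2562) (C.node (nat_lit 2) (nat_lit 9) (nat_lit 11) C.nil) C.nil)) (C.cons (nat_lit 2178) (C.node (nat_lit 2) (nat_lit 7) (nat_lit 11) (C.cons (nat_lit 2180) (C.node (nat_lit 1) (nat_lit 9) (nat_lit 11) (C.cons (nat_lit 2562) (C.node (nat_lit 2) (nat_lit 9) (nat_lit 11) C.nil) C.nil)) C.nil)) C.nil))) C.nil))) C.nil))) (C.cons (nat_lit 274) (C.node (nat_lit 4) (nat_lit 8) (nat_lit 9) (C.cons (nat_lit 788) (C.miq (nat_lit 1411889296) (nat_lit 178962951414277189367303937)) (C.cons (nat_lit 784) (C.node (nat_lit 1) (nat_lit 8) (nat_lit 11) (C.cons (nat_lit 2434) (C.node (nat_lit 2) (nat_lit 7) (nat_lit 11) (C.cons (nat_lit 2180) (C.node (nat_lit 1) (nat_lit 9) (nat_lit 11) (C.cons (nat_lit 2562) (C.node (nat_lit 2) (nat_lit 9) (nat_lit 11) C.nil) C.nil)) C.nil)) (C.cons (nat_lit 2306) (C.node (nat_lit 7) (nat_lit 8) (nat_lit 11) (C.cons (nat_lit 2436) (C.miq (nat_lit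 675904336) (nat_lit 947809741413479960697440481)) (C.cons (nat_lit 2432) (C.node (nat_lit 1) (nat_lit 7) (nat_lit 11) (C.cons (nat_lit 2182) (C.node (nat_lit 1) (nat_lit 9) (nat_lit 11) C.nil) (C.cons (nat_lit 2178) (C.node (nat_lit 2) (nat_lit 7) (nat_lit 11) (C.cons (nat_lit 2180) (C.node (nat_lit 2) (nat_lit 3) (nat_lit 7) C.nil) C.nil)) C.nil))) C.nil))) C.nil))) C.nil))) C.nil))) C.nil)))) C.nil))) C.nil))))) C.nil))) C.nil))) C.nil)) (C.cons (nat_lit 2058) (C.node (nat_lit 3) (nat_lit 6) (nat_lit 11) (C.cons (nat_lit 2120) (C.node (nat_lit 2) (nat_lit 7) (nat_lit 10) (C.cons (nat_lit 1412) (C.node (nat_lit 2) (nat_lit 4) (nat_lit 8) (C.cons (nat_lit 788) (C.miq (nat_lit 1411889296) (nat_lit 178962951414277189367303937)) (C.cons (nat_lit 276) (C.node (nat_lit 2) (nat_lit 5) (nat_lit 7) (C.cons (nat_lit 166) (C.miq (nat_lit 278210727) (nat_lit 678210447037367618751169924)) (C.cons (nat_lit 164) (C.node (nat_lit 4)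 (nat_lit 8) (nat_lit 10) (C.cons (nat_lit 1304) (C.miq (nat_lit 1731464104) (nat_lit 222448568001651008668700417)) (C.cons (nat_lit 1296) (C.node (nat_lit 2) (nat_lit 9) (nat_lit 10) (C.cons (nat_lit 1556) (C.miq (nat_lit 1732381594) (nat_lit 178941184234041918153297665)) (C.cons (nat_lit 1548) (C.miq (nat_lit 1235466064) (nat_lit 1871455483412002678543812833)) (C.cons (nat_lit 1542) (C.miq (nat_lit 933824545) (nat_lit 2050347837824187360839336199)) (C.cons (nat_lit 1540) (C.node (nat_lit 5) (nat_lit 8) (nat_lit 10) (C.cons (nat_lit 1378) (C.miq (nat_lit 309690522) (nat_lit 198289254104163445653901057)) (C.cons (nat_lit 1376) (C.miq (nat_lit 1218622816) (nat_lit 1707041571845332544593922273)) (C.cons (nat_lit 1314) (C.miq (nat_lit 309690522) (nat_lit 198288073512542728242597633)) (C.cons (nat_lit 1312) (C.node (nat_lit 2) (nat_lit 10) (nat_lit 11) (C.cons (nat_lit 3110) (C.miq (nat_lit 2275476402) (nat_lit 1415656986373055593499199517))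 (C.cons (nat_lit 3108) (C.miq (nat_lit 1750729906) (nat_lit 1586130837720533210872678429)) (C.cons (nat_lit 3078) (C.miq (nat_lit 2275476402) (nat_lit 1415656986373055593497102365)) (C.cons (nat_lit 3076) (C.node (nat_lit 5) (nat_lit 8) (nat_lit 9) (C.cons (nat_lit 868) (C.miq (nat_lit 391252632) (nat_lit 198268686240105052313489153)) (C.cons (nat_lit 866) (C.miq (nat_lit 1196821144) (nat_lit 2747894604866419436275502849)) (C.cons (nat_lit 864) (C.miq (nat_lit 1196821144) (nat_lit 2747894604866419436275371777)) (C.cons (nat_lit 804) (C.miq (nat_lit 391252632) (nat_lit 198268686240105052309294849))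
  (C.cons (nat_lit 802) (C.miq (nat_lit 323326136) (nat_lit 222457145245059216827223809)) (C.cons (nat_lit 800) (C.node (nat_lit 1) (nat_lit 5) (nat_lit 7) (C.cons (nat_lit 418) (C.node (nat_lit 7) (nat_lit 8) (nat_lit 11) (C.cons (nat_lit 2432) (C.node (nat_lit 2) (nat_lit 4) (nat_lit 10) (C.cons (nat_lit 1076) (C.miq (nat_lit 356681520) (nat_lit 1300809033516689708271075721)) (C.cons (nat_lit 1044) (C.node (nat_lit 2) (nat_lit 5) (nat_lit 10) (C.cons (nat_lit 1062) (C.miq (nat_lit 1108684935) (nat_lit 1283882615216270402327282057)) (C.cons (nat_lit 1060) (C.node (nat_lit 2) (nat_lit 5) (nat_lit 11) (C.cons (nat_lit 2086) (C.miq (nat_lit 840436567) (nat_lit 317954740713700926758717665)) (C.cons (nat_lit 2084) (C.node (nat_lit 3) (nat_lit 4) (nat_lit 8) (C.cons (nat_lit 792) (C.miq (nat_lit 1697909656) (nat_lit 222448568001648397295030017)) (C.cons (nat_lit 282) (C.miq (nat_lit 1480290624) (nat_lit 2795078424515959945313453203))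 (C.cons (nat_lit 280) (C.node (nat_lit 1) (nat_lit 4) (nat_lit 8) C.nil) C.nil)))) C.nil))) C.nil))) C.nil))) C.nil)) (C.cons (nat_lit 162) (C.node (nat_lit 5) (nat_lit 7) (nat_lit 8) (C.cons (nat_lit 416) (C.node (nat_lit 2) (nat_lit 3) (nat_lit 5) (C.cons (nat_lit 364) (C.miq (nat_lit 2754742102) (nat_lit 2510959089960465348430661857)) (C.cons (nat_lit 300) (C.miq (nat_lit 391644210) (nat_lit 502917992782985110311667741)) (C.cons (nat_lit 110) (C.miq (nat_lit 2754742102) (nat_lit 2510959089960465348414015713)) (C.cons (nat_lit 108) (C.miq (nat_lit 2754742102) (nat_lit 2510959089960465348413884641)) (C.cons (nat_lit 46) (C.miq (nat_lit 412426419) (nat_lit 967141504315975146418997277)) (C.cons (nat_lit 44) (C.node (nat_lit 1) (nat_lit 9) (nat_lit 10) (C.cons (nat_lit 1602) (C.node (nat_lit 6) (nat_lit 10) (nat_lit 11) (C.cons (nat_lit 3136) (C.node (nat_lit 1) (nat_lit 7) (nat_lit 9) (C.cons (nat_lit 898) (C.miq (nat_lit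 611388312) (nat_lit 1415656986847057289471463169)) (C.cons (nat_lit 642) (C.node (nat_lit 2) (nat_lit 5) (nat_lit 11) (C.cons (nat_lit 2086) (C.node (nat_lit 1) (nat_lit 5) (nat_lit 9) C.nil) C.nil)) C.nil))) C.nil)) (C.cons (nat_lit 1538) (C.node (nat_lit 2) (nat_lit 3) (nat_lit 10) (C.cons (nat_lit 1038) (C.node (nat_lit 2) (nat_lit 4) (nat_lit 10) (C.cons (nat_lit 1076) (C.miq (nat_lit 1511604784) (nat_lit 1859338259493596554907551773)) (C.cons (nat_lit 1044) (C.node (nat_lit 2) (nat_lit 5) (nat_lit 10) (C.cons (nat_lit 1060) (C.node (nat_lit 4) (nat_lit 5) (nat_lit 10) C.nil) C.nil)) C.nil))) (C.cons (nat_lit 1036) (C.node (nat_lit 1) (nat_lit 2) (nat_lit 10) (C.cons (nat_lit 1062) (C.node (nat_lit 1) (nat_lit 5) (nat_lit 11) (C.cons (nat_lit 2082) (C.node (nat_lit 2) (nat_lit 5) (nat_lit 11) C.nil) C.nil)) (C.cons (nat_lit 1030) (C.node (nat_lit 2) (nat_lit 4) (nat_lit 10) (C.cons (nat_lit 1076) (C.node (nat_lit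 2) (nat_lit 5) (nat_lit 8) (C.cons (nat_lit 356) (C.node (nat_lit 2) (nat_lit 5) (nat_lit 9) C.nil) C.nil)) (C.cons (nat_lit 1044) (C.node (nat_lit 2) (nat_lit 5) (nat_lit 10) C.nil) C.nil))) C.nil))) C.nil))) C.nil))) C.nil))))))) C.nil)) C.nil))) C.nil))))))) C.nil))))) C.nil))))) C.nil))))) C.nil))) C.nil))) C.nil))) (C.cons (nat_lit 1156) (C.node (nat_lit 7) (nat_lit 8) (nat_lit 10) (C.cons (nat_lit 1408) (C.node (nat_lit 3) (nat_lit 7) (nat_lit 9) (C.cons (nat_lit 712) (C.node (nat_lit 1) (nat_lit 3) (nat_lit 7) (C.cons (nat_lit 142) (C.miq (nat_lit 2322664242) (nat_lit 1415656987343581313003030557)) (C.cons (nat_lit 138) (C.node (nat_lit 2) (nat_lit 3) (nat_lit 7) (C.cons (nat_lit 140) (C.node (nat_lit 1) (nat_lit 7) (nat_lit 9) (C.cons (nat_lit 898) (C.miq (nat_lit 611388312) (nat_lit 1415656986847057289471463169)) (C.cons (nat_lit 642) (C.node (nat_lit 7) (nat_lit 8) (nat_lit 9) (C.cons (nat_lit 896) (C.node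 (nat_lit 2) (nat_lit 7) (nat_lit 11) (C.cons (nat_lit 2436) (C.miq (nat_lit 1484344096) (nat_lit 1083207883660172699401259037)) (C.cons (nat_lit 2182) (C.node (nat_lit 7) (nat_lit 8) (nat_lit 11) C.nil) C.nil))) C.nil)) C.nil))) C.nil)) C.nil)))
  (C.cons (nat_lit 648) (C.node (nat_lit 6) (nat_lit 10) (nat_lit 11) (C.cons (nat_lit 3138) (C.node (nat_lit 1) (nat_lit 9) (nat_lit 10) (C.cons (nat_lit 1542) (C.miq (nat_lit 427532806) (nat_lit 3268993302554897773469172805)) (C.cons (nat_lit 1538) (C.node (nat_lit 6) (nat_lit 9) (nat_lit 11) (C.cons (nat_lit 2628) (C.miq (nat_lit 1784225851) (nat_lit 2050386668417493512858634269)) (C.cons (nat_lit 2624) (C.node (nat_lit 2) (nat_lit 9) (nat_lit 10) (C.cons (nat_lit 1556) (C.miq (nat_lit 1732381594) (nat_lit 178941184234041918153297665)) (C.cons (nat_lit 1548) (C.miq (nat_lit 1235466064) (nat_lit 1871455483412002678543812833)) (C.cons (nat_lit 1540) (C.node (nat_lit 1) (nat_lit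 3) (nat_lit 7) (C.cons (nat_lit 206) (C.miq (nat_lit 698446006) (nat_lit 1859331710778146712019142881)) (C.cons (nat_lit 202) (C.miq (nat_lit 2338523671) (nat_lit 2562929988234593681397122195)) (C.cons (nat_lit 142) (C.miq (nat_lit 2322664242) (nat_lit 1415656987343581313003030557)) (C.cons (nat_lit 138) (C.node (nat_lit 1) (nat_lit 5) (nat_lit 11) (C.cons (nat_lit 2086) (C.node (nat_lit 1) (nat_lit 9) (nat_lit 11) (C.cons (nat_lit 2562) (C.node (nat_lit 2) (nat_lit 9) (nat_lit 11) (C.cons (nat_lit 2564) (C.node (nat_lit 2) (nat_lit 10) (nat_lit 11) C.nil) C.nil)) C.nil)) (C.cons (nat_lit 2082) (C.node (nat_lit 1) (nat_lit 8) (nat_lit 11) (C.cons (nat_lit 2434) (C.node (nat_lit 2) (nat_lit 7) (nat_lit 11) C.nil) (C.cons (nat_lit 2306) (C.node (nat_lit 1) (nat_lit 7) (nat_lit 11) (C.cons (nat_lit 2178) (C.node (nat_lit 2) (nat_lit 7) (nat_lit 11) C.nil) C.nil)) C.nil))) C.nil))) C.nil))))) C.nil)))) C.nil))) C.nil)))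 (C.cons (nat_lit 3136) (C.node (nat_lit 2) (nat_lit 4) (nat_lit 8) (C.cons (nat_lit 1300) (C.node (nat_lit 3) (nat_lit 4) (nat_lit 10) (C.cons (nat_lit 1624) (C.miq (nat_lit 323094952) (nat_lit 2510943778980494569408564993)) (C.cons (nat_lit 1560) (C.miq (nat_lit 323094952) (nat_lit 2510943778980494294530658049)) (C.cons (nat_lit 1112) (C.miq (nat_lit 2587129099) (nat_lit 1344375391884829087678400737)) (C.cons (nat_lit 1048) (C.miq (nat_lit 2587129099) (nat_lit 1267004139429492820497205473)) C.nil))))) (C.cons (nat_lit 788) (C.miq (nat_lit 1411889296) (nat_lit 178962951414277189367303937)) (C.cons (nat_lit 276) (C.node (nat_lit 4) (nat_lit 8) (nat_lit 10) (C.cons (nat_lit 1304) (C.miq (nat_lit 1731464104) (nat_lit 222448568001651008668700417)) (C.cons (nat_lit 1296) (C.node (nat_lit 2) (nat_lit 4) (nat_lit 10) (C.cons (nat_lit 1556) (C.miq (nat_lit 1732381594) (nat_lit 178941184234041918153297665)) (C.cons (nat_lit 1076)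 (C.node (nat_lit 2) (nat_lit 10) (nat_lit 11) (C.cons (nat_lit 3078) (C.miq (nat_lit 2275476402) (nat_lit 1415656986373055593497102365)) (C.cons (nat_lit 3076) (C.node (nat_lit 2) (nat_lit 3) (nat_lit 5) (C.cons (nat_lit 364) (C.miq (nat_lit 2754742102) (nat_lit 2510959089960465348430661857)) (C.cons (nat_lit 300) (C.miq (nat_lit 2275749954) (nat_lit 2050343724200257888491669533)) (C.cons (nat_lit 110) (C.miq (nat_lit 2754742102) (nat_lit 2510959089960465348414015713)) (C.cons (nat_lit 108) (C.miq (nat_lit 2754742102) (nat_lit 2510959089960465348413884641)) (C.cons (nat_lit 46) (C.miq (nat_lit 682954899) (nat_lit 2843394376357879625562980875)) (C.cons (nat_lit 44) (C.node (nat_lit 1) (nat_lit 4) (nat_lit 5) (C.cons (nat_lit 114) (C.node (nat_lit 1) (nat_lit 2) (nat_lit 4) (C.cons (nat_lit 534) (C.miq (nat_lit 2471628964) (nat_lit 53202586771595031617995923)) (C.cons (nat_lit 22) (C.node (nat_lit 1) (nat_lit 3) (nat_lit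 4) (C.cons (nat_lit 282) (C.miq (nat_lit 359876104) (nat_lit 222447552823018464070926673)) (C.cons (nat_lit 26) (C.node (nat_lit 1) (nat_lit 4) (nat_lit 8) (C.cons (nat_lit 786) (C.miq (nat_lit 364463624) (nat_lit 3143221630170975700001030481)) C.nil)) C.nil))) C.nil))) (C.cons (nat_lit 50) (C.node (nat_lit 4) (nat_lit 5) (nat_lit 6) (C.cons (nat_lit 112) (C.node (nat_lit 1) (nat_lit 10) (nat_lit 11) (C.cons (nat_lit 3106)
  (C.node (nat_lit 2) (nat_lit 5) (nat_lit 11) C.nil) C.nil)) C.nil)) C.nil))) C.nil))))))) C.nil))) (C.cons (nat_lit 1044) (C.node (nat_lit 4) (nat_lit 5) (nat_lit 10) (C.cons (nat_lit 1136) (C.node (nat_lit 3) (nat_lit 4) (nat_lit 10) (C.cons (nat_lit 1560) (C.node (nat_lit 2) (nat_lit 10) (nat_lit 11) (C.cons (nat_lit 3110) (C.miq (nat_lit 625388416) (nat_lit 1373359894248888586361442049)) (C.cons (nat_lit 3108) (C.miq (nat_lit 625388416) (nat_lit 1373359894248325636408020737)) (C.cons (nat_lit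 3078) (C.miq (nat_lit 2275476402) (nat_lit 1415656986373055593497102365)) (C.cons (nat_lit 3076) (C.node (nat_lit 1) (nat_lit 4) (nat_lit 5) (C.cons (nat_lit 54) (C.node (nat_lit 2) (nat_lit 5) (nat_lit 11) (C.cons (nat_lit 2084) (C.node (nat_lit 2) (nat_lit 4) (nat_lit 6) C.nil) C.nil)) (C.cons (nat_lit 50) (C.node (nat_lit 2) (nat_lit 4) (nat_lit 5) C.nil) C.nil))) C.nil))))) (C.cons (nat_lit 1048) (C.miq (nat_lit 2587129099) (nat_lit 1267004139429492820497205473)) C.nil))) (C.cons (nat_lit 1072) (C.node (nat_lit 2) (nat_lit 7) (nat_lit 11) (C.cons (nat_lit 2436) (C.miq (nat_lit 2458126261) (nat_lit 333673875018624825950210273)) (C.cons (nat_lit 2182) (C.node (nat_lit 7) (nat_lit 8) (nat_lit 11) (C.cons (nat_lit 2432) (C.node (nat_lit 1) (nat_lit 3) (nat_lit 4) (C.cons (nat_lit 26) (C.node (nat_lit 2) (nat_lit 8) (nat_lit 11) (C.cons (nat_lit 2372) (C.miq (nat_lit 310672224) (nat_lit 333685127965136552971012321)) C.nil))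 C.nil)) C.nil)) (C.cons (nat_lit 2180) (C.node (nat_lit 1) (nat_lit 7) (nat_lit 11) (C.cons (nat_lit 2434) (C.node (nat_lit 1) (nat_lit 3) (nat_lit 4) (C.cons (nat_lit 26) (C.node (nat_lit 2) (nat_lit 8) (nat_lit 11) (C.cons (nat_lit 2372) (C.miq (nat_lit 2709653430) (nat_lit 317967653179537689321670881)) C.nil)) C.nil)) (C.cons (nat_lit 2178) (C.node (nat_lit 7) (nat_lit 8) (nat_lit 11) C.nil) C.nil))) C.nil)))) C.nil))) C.nil)))) C.nil))) C.nil)))) C.nil))) C.nil))) C.nil)) C.nil))) C.nil)) C.nil))) C.nil))))) C.nil))) (C.cons (nat_lit 1664) (C.miq (nat_lit 1519857844) (nat_lit 2011655958339439856612018205)) C.nil)))) (C.cons (nat_lit 2090) (C.miq (nat_lit 2503688359) (nat_lit 2526704843148462322048566419)) (C.cons (nat_lit 2088) (C.miq (nat_lit 2503688359) (nat_lit 2524286991509233063699154067)) C.nil)))) (C.cons (nat_lit 2186) (C.miq (nat_lit 2876442949) (nat_lit 2642731488541174875729429041)) (C.cons (nat_lit 2184)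 (C.miq (nat_lit 2876442949) (nat_lit 2640313636901945617380016689)) C.nil)))) C.nil)) (C.cons (nat_lit 176) (C.node (nat_lit 3) (nat_lit 4) (nat_lit 7) (C.cons (nat_lit 216) (C.node (nat_lit 3) (nat_lit 4) (nat_lit 9) (C.cons (nat_lit 1560) (C.miq (nat_lit 1464011674) (nat_lit 261147623459002638166134529)) (C.cons (nat_lit 792) (C.miq (nat_lit 2490073968) (nat_lit 2572664998306847111579238793)) (C.cons (nat_lit 536) (C.node (nat_lit 3) (nat_lit 4) (nat_lit 10) (C.cons (nat_lit 1304) (C.miq (nat_lit 2758509424) (nat_lit 2572664998450962299655094665)) (C.cons (nat_lit 1048) (C.node (nat_lit 3) (nat_lit 9) (nat_lit 11) (C.cons (nat_lit 2632) (C.miq (nat_lit 2471147120) (nat_lit 1267025113640961559971956961)) (C.cons (nat_lit 2600) (C.miq (nat_lit 2761099189) (nat_lit 648003885425498549805123809)) (C.cons (nat_lit 2568) (C.node (nat_lit 6) (nat_lit 7) (nat_lit 10) (C.cons (nat_lit 1728) (C.miq (nat_lit 611715994) (nat_lit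 261148139912667606609301249)) (C.cons (nat_lit 1472) (C.miq (nat_lit 2789967664) (nat_lit 2572664998498250095729639817)) (C.cons (nat_lit 1216) (C.node (nat_lit 7) (nat_lit 8) (nat_lit 9) (C.cons (nat_lit 962) (C.miq (nat_lit 611388312) (nat_lit 1415656986847057289475657473)) (C.cons (nat_lit 960) (C.miq (nat_lit 2521532208) (nat_lit 2572664998354134907653783945)) (C.cons (nat_lit 930) (C.miq (nat_lit 611388312) (nat_lit 1415656986847057289473560321)) (C.cons (nat_lit 928) (C.miq (nat_lit 609684361) (nat_lit 212782842986735905861013249)) (C.cons (nat_lit 898) (C.miq (nat_lit 611388312) (nat_lit 1415656986847057289471463169)) (C.cons (nat_lit 896)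
  (C.node (nat_lit 3) (nat_lit 4) (nat_lit 5) (C.cons (nat_lit 58) (C.node (nat_lit 3) (nat_lit 4) (nat_lit 8) (C.cons (nat_lit 280) (C.node (nat_lit 3) (nat_lit 5) (nat_lit 11) (C.cons (nat_lit 2088) (C.node (nat_lit 1) (nat_lit 4) (nat_lit 8) (C.cons (nat_lit 786) (C.miq (nat_lit 1368933131) (nat_lit 950259080975487691353294877)) (C.cons (nat_lit 274) (C.node (nat_lit 4) (nat_lit 8) (nat_lit 9) (C.cons (nat_lit 788) (C.miq (nat_lit 1411889296) (nat_lit 178962951414277189367303937)) C.nil)) C.nil))) C.nil)) C.nil)) (C.cons (nat_lit 56) (C.node (nat_lit 1) (nat_lit 3) (nat_lit 4) (C.cons (nat_lit 282) (C.node (nat_lit 3) (nat_lit 8) (nat_lit 11) (C.cons (nat_lit 2376) (C.miq (nat_lit 2202711664) (nat_lit 1267025113568903965934029025)) (C.cons (nat_lit 2312) (C.node (nat_lit 4) (nat_lit 8) (nat_lit 9) (C.cons (nat_lit 788) (C.miq (nat_lit 1411889296) (nat_lit 178962951414277189367303937)) (C.cons (nat_lit 784) (C.node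 (nat_lit 2) (nat_lit 4) (nat_lit 8) (C.cons (nat_lit 1300) (C.node (nat_lit 4) (nat_lit 5) (nat_lit 10) (C.cons (nat_lit 1136) (C.miq (nat_lit 643080376) (nat_lit 1373363712157176477042872065)) C.nil)) C.nil)) C.nil))) C.nil))) (C.cons (nat_lit 26) (C.node (nat_lit 3) (nat_lit 4) (nat_lit 8) (C.cons (nat_lit 280) (C.node (nat_lit 1) (nat_lit 4) (nat_lit 8) (C.cons (nat_lit 274) (C.node (nat_lit 4) (nat_lit 8) (nat_lit 9) C.nil) C.nil)) C.nil)) C.nil))) C.nil))) C.nil))))))) C.nil)))) C.nil)))) C.nil))) C.nil)))) (C.cons (nat_lit 152) (C.node (nat_lit 4) (nat_lit 6) (nat_lit 7) (C.cons (nat_lit 208) (C.node (nat_lit 2) (nat_lit 4) (nat_lit 8) (C.cons (nat_lit 1300) (C.node (nat_lit 4) (nat_lit 5) (nat_lit 10) (C.cons (nat_lit 1136) (C.miq (nat_lit 643080376) (nat_lit 1373363712157176477042872065)) (C.cons (nat_lit 1072) (C.node (nat_lit 2) (nat_lit 8) (nat_lit 11) (C.cons (nat_lit 2436) (C.miq (nat_lit 2458126261) (nat_lit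 1571613914304005100849334497)) (C.cons (nat_lit 2372) (C.miq (nat_lit 1648867488) (nat_lit 178962951419908887959244545)) (C.cons (nat_lit 2308) (C.node (nat_lit 7) (nat_lit 8) (nat_lit 10) (C.cons (nat_lit 1472) (C.miq (nat_lit 1487320096) (nat_lit 1779580736584048415730894877)) (C.cons (nat_lit 1440) (C.miq (nat_lit 1703545666) (nat_lit 1740873343176141300028409885)) (C.cons (nat_lit 1408) (C.node (nat_lit 7) (nat_lit 10) (nat_lit 11) (C.cons (nat_lit 3208) (C.miq (nat_lit 927312784) (nat_lit 212790590937596574336880385)) (C.cons (nat_lit 3204) (C.miq (nat_lit 1730415528) (nat_lit 178927238495524341199146753)) (C.cons (nat_lit 3200) (C.node (nat_lit 2) (nat_lit 7) (nat_lit 11) (C.cons (nat_lit 2182) (C.node (nat_lit 3) (nat_lit 7) (nat_lit 11) (C.cons (nat_lit 2184) (C.node (nat_lit 7) (nat_lit 8) (nat_lit 11) (C.cons (nat_lit 2432) (C.node (nat_lit 2) (nat_lit 6) (nat_lit 11) (C.cons (nat_lit 2628) (C.miq (nat_lit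 2460268039) (nat_lit 1571653446234714171017201889)) (C.cons (nat_lit 2116) (C.node (nat_lit 2) (nat_lit 9) (nat_lit 11) (C.cons (nat_lit 2596) (C.miq (nat_lit 1528074864) (nat_lit 2497651092677967637237662341)) (C.cons (nat_lit 2564) (C.node (nat_lit 2) (nat_lit 4) (nat_lit 9) (C.cons (nat_lit 598) (C.miq (nat_lit 1411823776) (nat_lit 722979570240862517037698817)) (C.cons (nat_lit 596) (C.miq (nat_lit 1411823776) (nat_lit 720561718601633258688286465)) (C.cons (nat_lit 534) (C.miq (nat_lit 1529415444) (nat_lit 3099696150755136548722050195)) (C.cons (nat_lit 532) (C.node (nat_lit 2) (nat_lit 5) (nat_lit 11) (C.cons (nat_lit 3108) (C.node (nat_lit 1) (nat_lit 4) (nat_lit 8) (C.cons (nat_lit 274) (C.node (nat_lit 1) (nat_lit 4) (nat_lit 9) (C.cons (nat_lit 530) (C.node (nat_lit 3) (nat_lit 4) (nat_lit 8) C.nil) C.nil)) C.nil)) (C.cons (nat_lit 2084) (C.node (nat_lit 1) (nat_lit 4) (nat_lit 8) C.nil) C.nil))) C.nil))))) C.nil)))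 C.nil))) C.nil)) C.nil)) (C.cons (nat_lit 2180) (C.node (nat_lit 3) (nat_lit 7) (nat_lit 11) (C.cons (nat_lit 2186) (C.node (nat_lit 7) (nat_lit 8) (nat_lit 11) (C.cons (nat_lit 2432) (C.node (nat_lit 3) (nat_lit 5) (nat_lit 11) (C.cons (nat_lit 2600)
  (C.miq (nat_lit 1094256565) (nat_lit 632278552611492996126869729)) (C.cons (nat_lit 2088) (C.node (nat_lit 3) (nat_lit 8) (nat_lit 11) (C.cons (nat_lit 2376) (C.miq (nat_lit 1796506480) (nat_lit 2497646960545370648601624969)) (C.cons (nat_lit 2312) (C.node (nat_lit 1) (nat_lit 8) (nat_lit 11) (C.cons (nat_lit 2370) (C.node (nat_lit 2) (nat_lit 6) (nat_lit 11) (C.cons (nat_lit 2628) (C.miq (nat_lit 2460268039) (nat_lit 1571653446234714171017201889)) (C.cons (nat_lit 2116) (C.node (nat_lit 5) (nat_lit 8) (nat_lit 10) (C.cons (nat_lit 1376) (C.node (nat_lit 1) (nat_lit 8) (nat_lit 10) (C.cons (nat_lit 1290) (C.miq (nat_lit 1973663361) (nat_lit 1287546323111923732164774210))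 (C.cons (nat_lit 1282) (C.node (nat_lit 3) (nat_lit 8) (nat_lit 10) (C.cons (nat_lit 1288) (C.node (nat_lit 1) (nat_lit 4) (nat_lit 8) (C.cons (nat_lit 786) (C.miq (nat_lit 369724244) (nat_lit 697564697725588426814720304)) (C.cons (nat_lit 282) (C.miq (nat_lit 1904653120) (nat_lit 2865196122551256196156819485)) C.nil))) C.nil)) C.nil))) (C.cons (nat_lit 1314) (C.miq (nat_lit 1703545666) (nat_lit 1588548689904698024015431709)) (C.cons (nat_lit 1312) (C.miq (nat_lit 1703545666) (nat_lit 1586130838265468765666019357)) C.nil)))) C.nil))) (C.cons (nat_lit 2306) (C.node (nat_lit 6) (nat_lit 8) (nat_lit 11) (C.cons (nat_lit 2368) (C.node (nat_lit 3) (nat_lit 9) (nat_lit 11) (C.cons (nat_lit 2632) (C.node (nat_lit 3) (nat_lit 10) (nat_lit 11) C.nil) C.nil)) C.nil)) C.nil))) C.nil))) C.nil))) C.nil)) (C.cons (nat_lit 2184) (C.node (nat_lit 1) (nat_lit 7) (nat_lit 11) (C.cons (nat_lit 2434) (C.node (nat_lit 3) (nat_lit 8) (nat_lit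 10) (C.cons (nat_lit 1354) (C.miq (nat_lit 1487320096) (nat_lit 1636927489869522173115566109)) (C.cons (nat_lit 1352) (C.miq (nat_lit 1487320096) (nat_lit 1634509638230292914766153757)) (C.cons (nat_lit 1290) (C.miq (nat_lit 951427440) (nat_lit 2843413173879159493637506195)) (C.cons (nat_lit 1288) (C.node (nat_lit 3) (nat_lit 8) (nat_lit 11) (C.cons (nat_lit 2376) (C.node (nat_lit 3) (nat_lit 9) (nat_lit 11) (C.cons (nat_lit 2600) (C.miq (nat_lit 997873984) (nat_lit 3868582269281098412848251441)) (C.cons (nat_lit 2568) (C.node (nat_lit 6) (nat_lit 10) (nat_lit 11) (C.cons (nat_lit 3138) (C.miq (nat_lit 1661646961) (nat_lit 1287563884441269604298459522)) (C.cons (nat_lit 3136) (C.node (nat_lit 1) (nat_lit 4) (nat_lit 8) (C.cons (nat_lit 786) (C.miq (nat_lit 1460931465) (nat_lit 1415662484031959190704623361)) (C.cons (nat_lit 282) (C.miq (nat_lit 1746383680) (nat_lit 2942567375060072708967696413)) (C.cons (nat_lit 274)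 (C.node (nat_lit 3) (nat_lit 4) (nat_lit 8) (C.cons (nat_lit 280) (C.node (nat_lit 4) (nat_lit 8) (nat_lit 9) (C.cons (nat_lit 784) (C.node (nat_lit 1) (nat_lit 3) (nat_lit 8) C.nil) C.nil)) C.nil)) C.nil)))) C.nil))) C.nil))) (C.cons (nat_lit 2312) (C.node (nat_lit 6) (nat_lit 8) (nat_lit 11) (C.cons (nat_lit 2368) (C.node (nat_lit 1) (nat_lit 4) (nat_lit 8) (C.cons (nat_lit 786) (C.miq (nat_lit 1460931465) (nat_lit 1415662484031959190704623361)) (C.cons (nat_lit 282) (C.node (nat_lit 4) (nat_lit 8) (nat_lit 9) (C.cons (nat_lit 784) (C.node (nat_lit 2) (nat_lit 7) (nat_lit 8) C.nil) C.nil)) (C.cons (nat_lit 274) (C.node (nat_lit 3) (nat_lit 4) (nat_lit 8) (C.cons (nat_lit 792) (C.node (nat_lit 2) (nat_lit 7) (nat_lit 8) C.nil) (C.cons (nat_lit 280) (C.node (nat_lit 4) (nat_lit 8) (nat_lit 9) C.nil) C.nil))) C.nil)))) C.nil)) C.nil))) C.nil))))) (C.cons (nat_lit 2178) (C.node (nat_lit 7) (nat_lit 8) (nat_lit 11) (C.cons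 (nat_lit 2432) (C.node (nat_lit 3) (nat_lit 5) (nat_lit 11) (C.cons (nat_lit 2600) (C.miq (nat_lit 997873984) (nat_lit 3868582269281098412848251441)) (C.cons (nat_lit 2090) (C.node (nat_lit 3) (nat_lit 4) (nat_lit 5) (C.cons (nat_lit 120) (C.miq (nat_lit 643080376) (nat_lit 145095079428713235541397249)) (C.cons (nat_lit 56) (C.node (nat_lit 5) (nat_lit 8) (nat_lit 10) (C.cons (nat_lit 1378) (C.miq (nat_lit 828421508) (nat_lit 81036344389909869256313136)) (C.cons (nat_lit 1376)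
  (C.node (nat_lit 5) (nat_lit 9) (nat_lit 11) (C.cons (nat_lit 2596) (C.miq (nat_lit 2779932736) (nat_lit 3138391590398169571930210641)) (C.cons (nat_lit 2592) (C.node (nat_lit 1) (nat_lit 3) (nat_lit 4) C.nil) C.nil))) (C.cons (nat_lit 1314) (C.miq (nat_lit 1703545666) (nat_lit 1588548689904698024015431709)) (C.cons (nat_lit 1312) (C.miq (nat_lit 1703545666) (nat_lit 1586130838265468765666019357)) C.nil))))) C.nil))) (C.cons (nat_lit 2088) (C.node (nat_lit 3) (nat_lit 9) (nat_lit 11) (C.cons (nat_lit 2632) (C.node (nat_lit 5) (nat_lit 7) (nat_lit 10) (C.cons (nat_lit 1696) (C.miq (nat_lit 880085914) (nat_lit 212790590619248375751511809)) (C.cons (nat_lit 1188) (C.node (nat_lit 2) (nat_lit 7) (nat_lit 8) C.nil) C.nil))) (C.cons (nat_lit 2568) (C.node (nat_lit 5) (nat_lit 7) (nat_lit 10) (C.cons (nat_lit 1696) (C.miq (nat_lit 880085914) (nat_lit 212790590619248375751511809)) (C.cons (nat_lit 1188) (C.node (nat_lit 2)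 (nat_lit 7) (nat_lit 8) C.nil) C.nil))) C.nil))) C.nil)))) C.nil)) C.nil))) C.nil))) C.nil))) C.nil)))) C.nil)))) C.nil)))) C.nil))) (C.cons (nat_lit 788) (C.miq (nat_lit 1411889296) (nat_lit 178962951414277189367303937)) (C.cons (nat_lit 276) (C.node (nat_lit 4) (nat_lit 8) (nat_lit 10) (C.cons (nat_lit 1304) (C.node (nat_lit 1) (nat_lit 4) (nat_lit 8) (C.cons (nat_lit 786) (C.node (nat_lit 7) (nat_lit 8) (nat_lit 11) (C.cons (nat_lit 2436) (C.miq (nat_lit 675904336) (nat_lit 950227593052709219046852833)) (C.cons (nat_lit 2434) (C.miq (nat_lit 1460931465) (nat_lit 1415662484031959190704623361)) (C.cons (nat_lit 2432) (C.node (nat_lit 1) (nat_lit 8) (nat_lit 11) (C.cons (nat_lit 2378) (C.miq (nat_lit 1665644704) (nat_lit 183798654700056271698202369)) (C.cons (nat_lit 2370) (C.miq (nat_lit 369724244) (nat_lit 697564697725588426814720304)) (C.cons (nat_lit 2314) (C.miq (nat_lit 1478052656) (nat_lit 950226043502562966189574173))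 (C.cons (nat_lit 2306) (C.node (nat_lit 3) (nat_lit 8) (nat_lit 11) (C.cons (nat_lit 2376) (C.miq (nat_lit 1665644704) (nat_lit 183798654699493321744781057)) (C.cons (nat_lit 2312) (C.node (nat_lit 3) (nat_lit 4) (nat_lit 5) (C.cons (nat_lit 122) (C.miq (nat_lit 1368933131) (nat_lit 950259080993502089862776861)) (C.cons (nat_lit 120) (C.miq (nat_lit 2221646672) (nat_lit 2572664998450961887338234921)) (C.cons (nat_lit 58) (C.miq (nat_lit 1368933131) (nat_lit 950259080975487691353294877)) (C.cons (nat_lit 56) (C.node (nat_lit 4) (nat_lit 5) (nat_lit 6) (C.cons (nat_lit 1136) (C.miq (nat_lit 1686592048) (nat_lit 483612257614892385899709481)) (C.cons (nat_lit 118) (C.miq (nat_lit 2822900566) (nat_lit 333683689586065704075266273)) (C.cons (nat_lit 116) (C.miq (nat_lit 2822900566) (nat_lit 333683689586065704075135201)) (C.cons (nat_lit 114) (C.miq (nat_lit 1803636884) (nat_lit 2787785043599968398845542961)) C.nil))))) C.nil)))))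 C.nil))) C.nil))))) C.nil)))) (C.cons (nat_lit 274) (C.node (nat_lit 4) (nat_lit 8) (nat_lit 9) (C.cons (nat_lit 784) (C.node (nat_lit 3) (nat_lit 4) (nat_lit 9) (C.cons (nat_lit 536) (C.node (nat_lit 2) (nat_lit 4) (nat_lit 10) C.nil) C.nil)) C.nil)) C.nil))) (C.cons (nat_lit 1296) (C.node (nat_lit 2) (nat_lit 4) (nat_lit 10) (C.cons (nat_lit 1556) (C.miq (nat_lit 1732381594) (nat_lit 178941184234041918153297665)) (C.cons (nat_lit 1076) (C.node (nat_lit 5) (nat_lit 10) (nat_lit 11) (C.cons (nat_lit 3106) (C.node (nat_lit 7) (nat_lit 8) (nat_lit 11) (C.cons (nat_lit 2436) (C.miq (nat_lit 2458126261) (nat_lit 333673875018624825950210273)) (C.cons (nat_lit 2434) (C.miq (nat_lit 901253655) (nat_lit 2843400777603812977287496851)) (C.cons (nat_lit 2432) (C.node (nat_lit 2) (nat_lit 5) (nat_lit 11) (C.cons (nat_lit 2596) (C.node (nat_lit 3) (nat_lit 5) (nat_lit 11) (C.cons (nat_lit 2088) (C.node (nat_lit 2) (nat_lit 8) (nat_lit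 11) (C.cons (nat_lit 2372) (C.miq (nat_lit 1683128475) (nat_lit 1300847937677143307838557953)) (C.cons (nat_lit 2308) (C.node (nat_lit 2) (nat_lit 10) (nat_lit 11) (C.cons (nat_lit 3204) (C.miq (nat_lit 1918151568) (nat_lit 1300825783944508281021599489))
  (C.cons (nat_lit 3076) (C.node (nat_lit 2) (nat_lit 7) (nat_lit 11) (C.cons (nat_lit 2182) (C.miq (nat_lit 1383184650) (nat_lit 2637933434716925610947710721)) (C.cons (nat_lit 2180) (C.node (nat_lit 7) (nat_lit 10) (nat_lit 11) (C.cons (nat_lit 3208) (C.miq (nat_lit 927312784) (nat_lit 212790590937596574336880385)) (C.cons (nat_lit 3200) (C.node (nat_lit 1) (nat_lit 4) (nat_lit 8) (C.cons (nat_lit 274) (C.node (nat_lit 1) (nat_lit 2) (nat_lit 11) (C.cons (nat_lit 2118) (C.node (nat_lit 1) (nat_lit 9) (nat_lit 11) C.nil) C.nil)) C.nil)) C.nil))) C.nil))) C.nil))) C.nil))) C.nil)) (C.cons (nat_lit 2084) (C.node (nat_lit 2) (nat_lit 8) (nat_lit 11) (C.cons (nat_lit 2372)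 (C.node (nat_lit 2) (nat_lit 10) (nat_lit 11) (C.cons (nat_lit 3204) (C.miq (nat_lit 1685225643) (nat_lit 178964777074770053681123073)) (C.cons (nat_lit 3076) (C.node (nat_lit 2) (nat_lit 7) (nat_lit 11) (C.cons (nat_lit 2182) (C.miq (nat_lit 310672224) (nat_lit 333685127965136552971012321)) (C.cons (nat_lit 2180) (C.node (nat_lit 7) (nat_lit 10) (nat_lit 11) (C.cons (nat_lit 3208) (C.miq (nat_lit 927312784) (nat_lit 212790590937596574336880385)) (C.cons (nat_lit 3200) (C.node (nat_lit 3) (nat_lit 5) (nat_lit 11) (C.cons (nat_lit 2600) (C.miq (nat_lit 997873984) (nat_lit 3868582269281098412848251441)) (C.cons (nat_lit 2088) (C.node (nat_lit 5) (nat_lit 9) (nat_lit 11) (C.cons (nat_lit 2592) (C.node (nat_lit 1) (nat_lit 4) (nat_lit 8) C.nil) C.nil)) C.nil))) C.nil))) C.nil))) C.nil))) (C.cons (nat_lit 2308) (C.node (nat_lit 2) (nat_lit 10) (nat_lit 11) (C.cons (nat_lit 3204) (C.node (nat_lit 3) (nat_lit 5) (nat_lit 11)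 (C.cons (nat_lit 2600) (C.miq (nat_lit 997873984) (nat_lit 3873417972559556929547076145)) (C.cons (nat_lit 2088) (C.node (nat_lit 5) (nat_lit 9) (nat_lit 11) (C.cons (nat_lit 2592) (C.node (nat_lit 1) (nat_lit 2) (nat_lit 10) (C.cons (nat_lit 1542) (C.miq (nat_lit 352955250) (nat_lit 678235830557439667304991876)) (C.cons (nat_lit 1038) (C.miq (nat_lit 2510357539) (nat_lit 3754933243528100850120394781)) (C.cons (nat_lit 1030) (C.node (nat_lit 1) (nat_lit 7) (nat_lit 11) (C.cons (nat_lit 2186) (C.node (nat_lit 3) (nat_lit 8) (nat_lit 11) (C.cons (nat_lit 2376) (C.miq (nat_lit 1796506480) (nat_lit 2497646960545370648601624969)) (C.cons (nat_lit 2312) (C.node (nat_lit 1) (nat_lit 8) (nat_lit 11) (C.cons (nat_lit 2306) (C.node (nat_lit 1) (nat_lit 4) (nat_lit 8) C.nil) C.nil)) C.nil))) (C.cons (nat_lit 2178) (C.node (nat_lit 3) (nat_lit 7) (nat_lit 11) (C.cons (nat_lit 2184) (C.node (nat_lit 1) (nat_lit 4) (nat_lit 8) C.nil)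 C.nil)) C.nil))) C.nil)))) C.nil)) C.nil))) (C.cons (nat_lit 3076) (C.node (nat_lit 7) (nat_lit 10) (nat_lit 11) (C.cons (nat_lit 3208) (C.miq (nat_lit 927312784) (nat_lit 212790590937596574336880385)) (C.cons (nat_lit 3200) (C.node (nat_lit 3) (nat_lit 5) (nat_lit 11) (C.cons (nat_lit 2600) (C.miq (nat_lit 997873984) (nat_lit 3868582269281098412848251441)) (C.cons (nat_lit 2088) (C.node (nat_lit 5) (nat_lit 9) (nat_lit 11) (C.cons (nat_lit 2592) (C.node (nat_lit 1) (nat_lit 4) (nat_lit 8) C.nil) C.nil)) C.nil))) C.nil))) C.nil))) C.nil))) C.nil))) C.nil)))) (C.cons (nat_lit 3104) (C.node (nat_lit 2) (nat_lit 8) (nat_lit 11) (C.cons (nat_lit 2436) (C.miq (nat_lit 2458126261) (nat_lit 333673875018624825950210273)) (C.cons (nat_lit 2372) (C.node (nat_lit 7) (nat_lit 8) (nat_lit 11) (C.cons (nat_lit 2434) (C.miq (nat_lit 2709653430) (nat_lit 317967653179537689321670881)) (C.cons (nat_lit 2432) (C.node (nat_lit 2) (nat_lit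 7) (nat_lit 11) (C.cons (nat_lit 3204) (C.miq (nat_lit 1685225643) (nat_lit 178964777074770053681123073)) (C.cons (nat_lit 2182) (C.miq (nat_lit 310672224) (nat_lit 333685127965136552971012321)) (C.cons (nat_lit 2180) (C.node (nat_lit 2) (nat_lit 10) (nat_lit 11) (C.cons (nat_lit 3078) (C.miq (nat_lit 461677152) (nat_lit 2843415129737308298793780293)) (C.cons (nat_lit 3076) (C.node (nat_lit 7) (nat_lit 10) (nat_lit 11) (C.cons (nat_lit 3208) (C.miq (nat_lit 927312784) (nat_lit 212790590937596574336880385))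
  (C.cons (nat_lit 3200) (C.node (nat_lit 1) (nat_lit 7) (nat_lit 11) (C.cons (nat_lit 2186) (C.node (nat_lit 1) (nat_lit 8) (nat_lit 11) (C.cons (nat_lit 2306) (C.node (nat_lit 3) (nat_lit 8) (nat_lit 11) (C.cons (nat_lit 2312) (C.node (nat_lit 1) (nat_lit 4) (nat_lit 8) C.nil) C.nil)) C.nil)) (C.cons (nat_lit 2178) (C.node (nat_lit 3) (nat_lit 7) (nat_lit 11) (C.cons (nat_lit 2184) (C.node (nat_lit 1) (nat_lit 4) (nat_lit 8) C.nil) C.nil)) C.nil))) C.nil))) C.nil))) C.nil)))) C.nil))) (C.cons (nat_lit 2308) (C.node (nat_lit 7) (nat_lit 8) (nat_lit 11) (C.cons (nat_lit 2434) (C.node (nat_lit 3) (nat_lit 7) (nat_lit 11) (C.cons (nat_lit 3208) (C.miq (nat_lit 927312784) (nat_lit 212790590937596574336880385)) (C.cons (nat_lit 2184) (C.node (nat_lit 2) (nat_lit 7) (nat_lit 11) (C.cons (nat_lit 3204) (C.node (nat_lit 2) (nat_lit 8) (nat_lit 10) (C.cons (nat_lit 1292) (C.node (nat_lit 4) (nat_lit 8) (nat_lit 9) (C.cons (nat_lit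 792) (C.miq (nat_lit 658746264) (nat_lit 183780558676624306320445185)) (C.cons (nat_lit 786) (C.miq (nat_lit 1460931465) (nat_lit 1415662484031959190704623361)) (C.cons (nat_lit 784) (C.node (nat_lit 1) (nat_lit 4) (nat_lit 8) (C.cons (nat_lit 274) (C.node (nat_lit 3) (nat_lit 4) (nat_lit 8) C.nil) C.nil)) C.nil)))) (C.cons (nat_lit 1284) (C.node (nat_lit 3) (nat_lit 8) (nat_lit 11) (C.cons (nat_lit 2376) (C.node (nat_lit 3) (nat_lit 8) (nat_lit 10) (C.cons (nat_lit 1290) (C.miq (nat_lit 951427440) (nat_lit 2843413173879159493637506195)) (C.cons (nat_lit 1288) (C.node (nat_lit 3) (nat_lit 9) (nat_lit 11) (C.cons (nat_lit 2600) (C.miq (nat_lit 997873984) (nat_lit 3873417972559556929547076145)) (C.cons (nat_lit 2568) (C.node (nat_lit 3) (nat_lit 10) (nat_lit 11) (C.cons (nat_lit 3082) (C.miq (nat_lit 2443641778) (nat_lit 1415664033065882956360583197)) (C.cons (nat_lit 3080) (C.node (nat_lit 1) (nat_lit 10) (nat_lit 11)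 (C.cons (nat_lit 3138) (C.miq (nat_lit 1661646961) (nat_lit 1287563884441269604298459522)) (C.cons (nat_lit 3074) (C.node (nat_lit 6) (nat_lit 10) (nat_lit 11) (C.cons (nat_lit 3136) (C.node (nat_lit 1) (nat_lit 4) (nat_lit 8) C.nil) C.nil)) C.nil))) C.nil))) C.nil))) C.nil))) (C.cons (nat_lit 2312) (C.node (nat_lit 6) (nat_lit 8) (nat_lit 11) (C.cons (nat_lit 2368) (C.node (nat_lit 1) (nat_lit 4) (nat_lit 8) (C.cons (nat_lit 786) (C.miq (nat_lit 1460931465) (nat_lit 1415662484031959190704623361)) (C.cons (nat_lit 282) (C.node (nat_lit 4) (nat_lit 8) (nat_lit 9) C.nil) (C.cons (nat_lit 274) (C.node (nat_lit 3) (nat_lit 4) (nat_lit 8) (C.cons (nat_lit 280) (C.node (nat_lit 4) (nat_lit 8) (nat_lit 9) C.nil) C.nil)) C.nil)))) C.nil)) C.nil))) C.nil))) (C.cons (nat_lit 2180) (C.node (nat_lit 7) (nat_lit 10) (nat_lit 11) (C.cons (nat_lit 3200) (C.node (nat_lit 2) (nat_lit 10) (nat_lit 11) (C.cons (nat_lit 3078) (C.node (nat_lit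 2) (nat_lit 5) (nat_lit 11) (C.cons (nat_lit 2596) (C.miq (nat_lit 307538832) (nat_lit 1300825783909042433956056833)) (C.cons (nat_lit 2084) (C.node (nat_lit 1) (nat_lit 4) (nat_lit 8) (C.cons (nat_lit 274) (C.node (nat_lit 2) (nat_lit 6) (nat_lit 11) (C.cons (nat_lit 2628) (C.miq (nat_lit 2460268039) (nat_lit 1300854062641037235883018465)) C.nil)) C.nil)) C.nil))) (C.cons (nat_lit 3076) (C.node (nat_lit 3) (nat_lit 8) (nat_lit 11) (C.cons (nat_lit 2376) (C.node (nat_lit 1) (nat_lit 4) (nat_lit 8) (C.cons (nat_lit 274) (C.node (nat_lit 3) (nat_lit 9) (nat_lit 11) (C.cons (nat_lit 2600) (C.miq (nat_lit 997873984) (nat_lit 3868582269281098412848251441)) C.nil)) C.nil)) (C.cons (nat_lit 2312) (C.node (nat_lit 1) (nat_lit 4) (nat_lit 8) C.nil) C.nil))) C.nil))) C.nil)) C.nil))) C.nil))) (C.cons (nat_lit 2432) (C.node (nat_lit 3) (nat_lit 7) (nat_lit 11) (C.cons (nat_lit 3208) (C.miq (nat_lit 927312784) (nat_lit 212790590937596574336880385))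 (C.cons (nat_lit 2186) (C.node (nat_lit 3) (nat_lit 5) (nat_lit 11) (C.cons (nat_lit 2600) (C.miq (nat_lit 1094256565) (nat_lit 632278552611492996126869729)) (C.cons (nat_lit 2088) (C.node (nat_lit 3) (nat_lit 8) (nat_lit 11)
  (C.cons (nat_lit 2376) (C.miq (nat_lit 1796506480) (nat_lit 2497646960545370648601624969)) (C.cons (nat_lit 2312) (C.node (nat_lit 1) (nat_lit 8) (nat_lit 11) (C.cons (nat_lit 2370) (C.node (nat_lit 2) (nat_lit 6) (nat_lit 11) (C.cons (nat_lit 2628) (C.miq (nat_lit 2460268039) (nat_lit 1300854062641037235883018465)) (C.cons (nat_lit 2116) (C.node (nat_lit 1) (nat_lit 4) (nat_lit 8) (C.cons (nat_lit 274) (C.node (nat_lit 1) (nat_lit 10) (nat_lit 11) (C.cons (nat_lit 3078) (C.node (nat_lit 2) (nat_lit 7) (nat_lit 11) C.nil) C.nil)) C.nil)) C.nil))) (C.cons (nat_lit 2306) (C.node (nat_lit 6) (nat_lit 8) (nat_lit 11) (C.cons (nat_lit 2368) (C.node (nat_lit 1) (nat_lit 4) (nat_lit 8) C.nil) C.nil))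 C.nil))) C.nil))) C.nil))) (C.cons (nat_lit 2184) (C.node (nat_lit 1) (nat_lit 7) (nat_lit 11) (C.cons (nat_lit 2182) (C.node (nat_lit 2) (nat_lit 10) (nat_lit 11) (C.cons (nat_lit 3076) (C.node (nat_lit 7) (nat_lit 10) (nat_lit 11) (C.cons (nat_lit 3200) (C.node (nat_lit 2) (nat_lit 5) (nat_lit 11) (C.cons (nat_lit 2596) (C.miq (nat_lit 1528074864) (nat_lit 2497651092677967637237662341)) (C.cons (nat_lit 2084) (C.node (nat_lit 1) (nat_lit 4) (nat_lit 8) C.nil) C.nil))) C.nil)) C.nil)) (C.cons (nat_lit 2178) (C.node (nat_lit 2) (nat_lit 7) (nat_lit 11) (C.cons (nat_lit 3204) (C.node (nat_lit 2) (nat_lit 8) (nat_lit 10) (C.cons (nat_lit 1292) (C.node (nat_lit 5) (nat_lit 7) (nat_lit 10) (C.cons (nat_lit 1696) (C.miq (nat_lit 659864208) (nat_lit 212809259041468939169238785)) (C.cons (nat_lit 1440) (C.miq (nat_lit 1379443719) (nat_lit 1561958722556443031088202899)) (C.cons (nat_lit 1184) (C.node (nat_lit 7) (nat_lit 8)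 (nat_lit 10) (C.cons (nat_lit 1472) (C.miq (nat_lit 660912768) (nat_lit 251494885269136110672482049)) (C.cons (nat_lit 1408) (C.node (nat_lit 2) (nat_lit 3) (nat_lit 7) (C.cons (nat_lit 206) (C.miq (nat_lit 2591099683) (nat_lit 1415661783497040460310775837)) (C.cons (nat_lit 204) (C.miq (nat_lit 3123054647) (nat_lit 1321397851369220164421419401)) (C.cons (nat_lit 174) (C.miq (nat_lit 2591099683) (nat_lit 1415661783497040460308678685)) (C.cons (nat_lit 172) (C.miq (nat_lit 3122989111) (nat_lit 1300846112435771468449317257)) (C.cons (nat_lit 142) (C.miq (nat_lit 2591099683) (nat_lit 1415661783497040460306581533)) (C.cons (nat_lit 140) (C.node (nat_lit 1) (nat_lit 2) (nat_lit 10) (C.cons (nat_lit 1542) (C.node (nat_lit 1) (nat_lit 2) (nat_lit 7) (C.cons (nat_lit 198) (C.miq (nat_lit 2440798816) (nat_lit 2633111289498684725538128965)) (C.cons (nat_lit 166) (C.miq (nat_lit 364521225) (nat_lit 3752534189009905227262919301))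 (C.cons (nat_lit 134) (C.node (nat_lit 1) (nat_lit 2) (nat_lit 4) C.nil) C.nil)))) (C.cons (nat_lit 1030) (C.node (nat_lit 2) (nat_lit 9) (nat_lit 10) (C.cons (nat_lit 1540) (C.node (nat_lit 2) (nat_lit 6) (nat_lit 7) (C.cons (nat_lit 452) (C.miq (nat_lit 1655011376) (nat_lit 1300846111481852772435427721)) (C.cons (nat_lit 198) (C.node (nat_lit 1) (nat_lit 2) (nat_lit 4) C.nil) (C.cons (nat_lit 196) (C.node (nat_lit 1) (nat_lit 4) (nat_lit 8) C.nil) C.nil)))) C.nil)) C.nil))) C.nil))))))) C.nil))) C.nil)))) (C.cons (nat_lit 1284) (C.node (nat_lit 3) (nat_lit 5) (nat_lit 11) (C.cons (nat_lit 2600) (C.miq (nat_lit 997873984) (nat_lit 3873417972559556929547076145)) (C.cons (nat_lit 2090) (C.node (nat_lit 2) (nat_lit 5) (nat_lit 11) (C.cons (nat_lit 2596) (C.miq (nat_lit 1918151568) (nat_lit 1300825783944508281021599489)) (C.cons (nat_lit 2084) (C.node (nat_lit 5) (nat_lit 9) (nat_lit 11) (C.cons (nat_lit 2592) (C.node (nat_lit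 1) (nat_lit 4) (nat_lit 5) C.nil) C.nil)) C.nil))) (C.cons (nat_lit 2088) (C.node (nat_lit 3) (nat_lit 9) (nat_lit 11) (C.cons (nat_lit 2632) (C.node (nat_lit 1) (nat_lit 4) (nat_lit 8) (C.cons (nat_lit 274) (C.node (nat_lit 3) (nat_lit 10) (nat_lit 11) (C.cons (nat_lit 3082) (C.miq (nat_lit 2443641778) (nat_lit 1415664033065882956360583197)) C.nil)) C.nil)) (C.cons (nat_lit 2568) (C.node (nat_lit 1) (nat_lit 4) (nat_lit 8) C.nil) C.nil))) C.nil)))) C.nil))) (C.cons (nat_lit 2180)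
  (C.node (nat_lit 7) (nat_lit 10) (nat_lit 11) (C.cons (nat_lit 3200) (C.node (nat_lit 2) (nat_lit 10) (nat_lit 11) (C.cons (nat_lit 3078) (C.node (nat_lit 1) (nat_lit 4) (nat_lit 8) C.nil) (C.cons (nat_lit 3076) (C.node (nat_lit 1) (nat_lit 4) (nat_lit 8) C.nil) C.nil))) C.nil)) C.nil))) C.nil))) C.nil)))) C.nil))) C.nil)))) C.nil))) (C.cons (nat_lit 1044) (C.node (nat_lit 4) (nat_lit 5) (nat_lit 10) (C.cons (nat_lit 1136) (C.node (nat_lit 2) (nat_lit 4) (nat_lit 5) (C.cons (nat_lit 52) (C.node (nat_lit 1) (nat_lit 4) (nat_lit 5) C.nil) C.nil)) (C.cons (nat_lit 1072) (C.node (nat_lit 4) (nat_lit 9) (nat_lit 10) (C.cons (nat_lit 1624) (C.miq (nat_lit 1464011674) (nat_lit 183776371003666370989133569)) (C.cons (nat_lit 1616) (C.node (nat_lit 3) (nat_lit 4) (nat_lit 10) C.nil) (C.cons (nat_lit 1560) (C.miq (nat_lit 1464011674) (nat_lit 183776371003666370984939265)) C.nil)))) C.nil))) C.nil)))) C.nil))) C.nil)))) C.nil))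 C.nil))) C.nil))) List.nil)

theorem ok12_237 : okL par12 (nat_lit 238) c12_237 (nat_lit 237) = true := by decide +kernel

noncomputable def c12_238 : List C :=
  (List.cons (C.node (nat_lit 4) (nat_lit 6) (nat_lit 11) (C.cons (nat_lit 3152) (C.node (nat_lit 4) (nat_lit 5) (nat_lit 10) (C.cons (nat_lit 1076) (C.miq (nat_lit 2493676384) (nat_lit 1300816080816390409478801633)) (C.cons (nat_lit 1072) (C.node (nat_lit 4) (nat_lit 7) (nat_lit 8) (C.cons (nat_lit 404) (C.miq (nat_lit 1685236624) (nat_lit 488426194302803491347042049)) (C.cons (nat_lit 400) (C.node (nat_lit 2) (nat_lit 4) (nat_lit 7) (C.cons (nat_lit 212) (C.node (nat_lit 3) (nat_lit 4) (nat_lit 7) (C.cons (nat_lit 184) (C.miq (nat_lit 2722301557) (nat_lit 2510958573429676356627073249)) (C.cons (nat_lit 152) (C.node (nat_lit 4) (nat_lit 5) (nat_lit 7) (C.cons (nat_lit 176) (C.node (nat_lit 2) (nat_lit 4) (nat_lit 10) (C.cons (nat_lit 1556) (C.node (nat_lit 2)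 (nat_lit 4) (nat_lit 8) (C.cons (nat_lit 276) (C.node (nat_lit 3) (nat_lit 4) (nat_lit 10) (C.cons (nat_lit 1304) (C.miq (nat_lit 607623808) (nat_lit 183768623169331841641025281)) (C.cons (nat_lit 1048) (C.node (nat_lit 4) (nat_lit 8) (nat_lit 10) (C.cons (nat_lit 1296) (C.node (nat_lit 2) (nat_lit 8) (nat_lit 11) (C.cons (nat_lit 2436) (C.miq (nat_lit 2458126261) (nat_lit 333673875018624825950210273)) (C.cons (nat_lit 2372) (C.miq (nat_lit 341969592) (nat_lit 256297125581613506270334721)) (C.cons (nat_lit 2308) (C.node (nat_lit 3) (nat_lit 9) (nat_lit 11) (C.cons (nat_lit 2632) (C.miq (nat_lit 649660999) (nat_lit 3181904655683297217946322067)) (C.cons (nat_lit 2600) (C.miq (nat_lit 977883259) (nat_lit 1881136537154730520457775329)) (C.cons (nat_lit 2568) (C.node (nat_lit 7) (nat_lit 10) (nat_lit 11) (C.cons (nat_lit 3208) (C.miq (nat_lit 927312784) (nat_lit 212790590937596574336880385)) (C.cons (nat_lit 3204) (C.miq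 (nat_lit 1461980073) (nat_lit 256302623021533119336681217)) (C.cons (nat_lit 3200) (C.node (nat_lit 2) (nat_lit 10) (nat_lit 11) (C.cons (nat_lit 3110) (C.miq (nat_lit 1415755786) (nat_lit 256349643794401214442311425)) (C.cons (nat_lit 3108) (C.miq (nat_lit 1415755786) (nat_lit 256349606900913067023208193)) (C.cons (nat_lit 3078) (C.miq (nat_lit 1797802512) (nat_lit 2790207009110539321859310739)) (C.cons (nat_lit 3076) (C.node (nat_lit 7) (nat_lit 8) (nat_lit 9) (C.cons (nat_lit 962) (C.miq (nat_lit 611388312) (nat_lit 1415656986847057289475657473)) (C.cons (nat_lit 960) (C.miq (nat_lit 2792956084) (nat_lit 1160597490271484611962865693)) (C.cons (nat_lit 930) (C.miq (nat_lit 611388312) (nat_lit 1415656986847057289473560321)) (C.cons (nat_lit 928) (C.miq (nat_lit 609684361) (nat_lit 212782842986735905861013249)) (C.cons (nat_lit 898) (C.miq (nat_lit 611388312) (nat_lit 1415656986847057289471463169)) (C.cons (nat_lit 896)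 (C.node (nat_lit 1) (nat_lit 2) (nat_lit 4) (C.cons (nat_lit 54) (C.node (nat_lit 2) (nat_lit 5) (nat_lit 11) (C.cons (nat_lit 2596) (C.miq (nat_lit 1380432288) (nat_lit 256334203938296649435254529)) (C.cons (nat_lit 2084) (C.node (nat_lit 1) (nat_lit 9) (nat_lit 10) (C.cons (nat_lit 1634) (C.miq (nat_lit 2040968224) (nat_lit 1975426719460698633347074077)) (C.cons (nat_lit 1602) (C.miq (nat_lit 2040968224) (nat_lit 1936741093233030499756476445)) (C.cons (nat_lit 1570) (C.miq (nat_lit 2502664512) (nat_lit 2519472262462790263975511187)) (C.cons (nat_lit 1538) (C.node (nat_lit 5) (nat_lit 9) (nat_lit 10) (C.cons (nat_lit 1696) (C.miq (nat_lit 880085914) (nat_lit 212790590619248375751511809)) (C.cons (nat_lit 1632) (C.miq (nat_lit 2040968224) (nat_lit 1973008867821469374997661725)) (C.cons (nat_lit 1568) (C.node (nat_lit 2) (nat_lit 8) (nat_lit 9) (C.cons (nat_lit 876) (C.miq (nat_lit 1948453528) (nat_lit 2510946177239619644473216769))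 (C.cons (nat_lit 868) (C.miq (nat_lit 3106293514) (nat_lit 1049405756323929563502806163)) (C.cons (nat_lit 844) (C.miq (nat_lit 1948453528) (nat_lit 2510946177239619644471119617)) (C.cons (nat_lit 836) (C.miq (nat_lit 3106293514) (nat_lit 1010720130096261429912208531)) (C.cons (nat_lit 812) (C.miq (nat_lit 1948453528) (nat_lit 2510946177239619644469022465)) (C.cons (nat_lit 804)
  (C.miq (nat_lit 2504688144) (nat_lit 1296039332797175706953122055)) (C.cons (nat_lit 780) (C.miq (nat_lit 1948453528) (nat_lit 2510946177239619644466925313)) (C.cons (nat_lit 772) (C.node (nat_lit 1) (nat_lit 2) (nat_lit 10) (C.cons (nat_lit 1038) (C.node (nat_lit 3) (nat_lit 10) (nat_lit 11) (C.cons (nat_lit 3080) (C.node (nat_lit 1) (nat_lit 2) (nat_lit 7) (C.cons (nat_lit 2182) (C.miq (nat_lit 1461324579) (nat_lit 1415671781190971258003392541)) (C.cons (nat_lit 134) (C.node (nat_lit 2) (nat_lit 7) (nat_lit 11) (C.cons (nat_lit 2180) (C.node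 (nat_lit 3) (nat_lit 7) (nat_lit 11) (C.cons (nat_lit 2186) (C.miq (nat_lit 1729760050) (nat_lit 1415672297699805339050706973)) (C.cons (nat_lit 2184) (C.node (nat_lit 1) (nat_lit 3) (nat_lit 4) (C.cons (nat_lit 282) (C.miq (nat_lit 1681524754) (nat_lit 1266974421342262218032283911)) (C.cons (nat_lit 90) (C.miq (nat_lit 1637499659) (nat_lit 1859386054729954997628373021)) (C.cons (nat_lit 26) (C.node (nat_lit 1) (nat_lit 2) (nat_lit 11) (C.cons (nat_lit 2630) (C.node (nat_lit 1) (nat_lit 4) (nat_lit 6) C.nil) (C.cons (nat_lit 2566) (C.miq (nat_lit 1804772464) (nat_lit 3102123816309631767061791891)) (C.cons (nat_lit 2118) (C.miq (nat_lit 2456514724) (nat_lit 2560554766121315957239448723)) C.nil)))) C.nil)))) C.nil))) C.nil)) C.nil))) C.nil)) (C.cons (nat_lit 1030) (C.node (nat_lit 2) (nat_lit 7) (nat_lit 11) (C.cons (nat_lit 2182) (C.node (nat_lit 3) (nat_lit 7) (nat_lit 11) (C.cons (nat_lit 2184) (C.node (nat_lit 7) (nat_lit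 8) (nat_lit 11) (C.cons (nat_lit 2432) (C.node (nat_lit 1) (nat_lit 2) (nat_lit 9) (C.cons (nat_lit 582) (C.miq (nat_lit 3106293514) (nat_lit 703652971914145619536839827)) (C.cons (nat_lit 518) (C.node (nat_lit 2) (nat_lit 6) (nat_lit 11) (C.cons (nat_lit 2628) (C.node (nat_lit 1) (nat_lit 2) (nat_lit 3) (C.cons (nat_lit 14) (C.node (nat_lit 1) (nat_lit 2) (nat_lit 6) C.nil) C.nil)) (C.cons (nat_lit 2116) (C.miq (nat_lit 2456514724) (nat_lit 2558136914482086698890036371)) C.nil))) C.nil))) C.nil)) C.nil)) (C.cons (nat_lit 2180) (C.node (nat_lit 1) (nat_lit 2) (nat_lit 7) (C.cons (nat_lit 142) (C.node (nat_lit 3) (nat_lit 7) (nat_lit 11) (C.cons (nat_lit 2184) (C.node (nat_lit 3) (nat_lit 10) (nat_lit 11) (C.cons (nat_lit 3082) (C.miq (nat_lit 2585201458) (nat_lit 1415664033999816928885868573)) (C.cons (nat_lit 3080) (C.node (nat_lit 1) (nat_lit 2) (nat_lit 11) (C.cons (nat_lit 2630) (C.miq (nat_lit 394863371) (nat_lit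 1083246049351592731524270109)) (C.cons (nat_lit 2566) (C.miq (nat_lit 394863371) (nat_lit 1083244868759972014112966685)) (C.cons (nat_lit 2118) (C.miq (nat_lit 2456514724) (nat_lit 2560554766121315957239448723)) C.nil)))) C.nil))) C.nil)) (C.cons (nat_lit 134) (C.node (nat_lit 1) (nat_lit 2) (nat_lit 3) (C.cons (nat_lit 78) (C.node (nat_lit 1) (nat_lit 2) (nat_lit 9) (C.cons (nat_lit 2566) (C.miq (nat_lit 1804772464) (nat_lit 3102123816309631767061791891)) C.nil)) (C.cons (nat_lit 14) (C.node (nat_lit 2) (nat_lit 6) (nat_lit 11) (C.cons (nat_lit 2116) (C.miq (nat_lit 2456514724) (nat_lit 2558136914482086698890036371)) C.nil)) C.nil))) C.nil))) C.nil))) C.nil))) C.nil))))))))) C.nil)))) C.nil))))) C.nil))) (C.cons (nat_lit 22) (C.node (nat_lit 2) (nat_lit 4) (nat_lit 5) (C.cons (nat_lit 52) (C.node (nat_lit 2) (nat_lit 7) (nat_lit 11) (C.cons (nat_lit 2182) (C.node (nat_lit 3) (nat_lit 7) (nat_lit 11) (C.cons (nat_lit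 2184) (C.node (nat_lit 7) (nat_lit 8) (nat_lit 11) (C.cons (nat_lit 2432) (C.node (nat_lit 2) (nat_lit 5) (nat_lit 11) (C.cons (nat_lit 2596) (C.miq (nat_lit 1380432288) (nat_lit 256334203938296649435254529)) (C.cons (nat_lit 2084) (C.node (nat_lit 2) (nat_lit 6) (nat_lit 11) (C.cons (nat_lit 2628) (C.node (nat_lit 1) (nat_lit 9) (nat_lit 11) (C.cons (nat_lit 2594) (C.node (nat_lit 3) (nat_lit 5) (nat_lit 11) C.nil) C.nil)) C.nil)) C.nil))) C.nil)) C.nil)) (C.cons (nat_lit 2180) (C.node (nat_lit 3) (nat_lit 5) (nat_lit 11) (C.cons (nat_lit 2090) (C.node (nat_lit 1) (nat_lit 10) (nat_lit 11) (C.cons (nat_lit 3074)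
  (C.node (nat_lit 3) (nat_lit 7) (nat_lit 11) (C.cons (nat_lit 2184) (C.node (nat_lit 3) (nat_lit 10) (nat_lit 11) C.nil) C.nil)) C.nil)) (C.cons (nat_lit 2088) (C.node (nat_lit 3) (nat_lit 7) (nat_lit 11) (C.cons (nat_lit 2186) (C.node (nat_lit 3) (nat_lit 10) (nat_lit 11) (C.cons (nat_lit 3080) (C.node (nat_lit 7) (nat_lit 8) (nat_lit 11) C.nil) C.nil)) (C.cons (nat_lit 2184) (C.node (nat_lit 1) (nat_lit 7) (nat_lit 11) (C.cons (nat_lit 2434) (C.node (nat_lit 3) (nat_lit 8) (nat_lit 11) (C.cons (nat_lit 2376) (C.miq (nat_lit 927367339) (nat_lit 256336103332845214392913665)) C.nil)) (C.cons (nat_lit 2178) (C.node (nat_lit 7) (nat_lit 8) (nat_lit 11) C.nil) C.nil))) C.nil))) C.nil))) C.nil))) C.nil)) C.nil))) C.nil))))))) C.nil))))) C.nil)))) C.nil)))) C.nil)))) C.nil)) C.nil))) C.nil)) (C.cons (nat_lit 1300) (C.miq (nat_lit 1411823776) (nat_lit 256334203869615655601114881)) (C.cons (nat_lit 1044) (C.miq (nat_lit 2485827424)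 (nat_lit 1262189410382769224411318497)) C.nil)))) C.nil)) C.nil))) (C.cons (nat_lit 180) (C.miq (nat_lit 1685236624) (nat_lit 217626810709126556212858625)) (C.cons (nat_lit 148) (C.miq (nat_lit 1685236624) (nat_lit 178941184481458422622260993)) C.nil)))) C.nil))) C.nil))) (C.cons (nat_lit 2128) (C.node (nat_lit 4) (nat_lit 10) (nat_lit 11) (C.cons (nat_lit 3088) (C.node (nat_lit 4) (nat_lit 7) (nat_lit 8) (C.cons (nat_lit 404) (C.node (nat_lit 2) (nat_lit 8) (nat_lit 11) (C.cons (nat_lit 2372) (C.node (nat_lit 7) (nat_lit 8) (nat_lit 11) (C.cons (nat_lit 2434) (C.miq (nat_lit 2709653430) (nat_lit 317967653179537689321670881)) (C.cons (nat_lit 2432) (C.node (nat_lit 2) (nat_lit 7) (nat_lit 11) (C.cons (nat_lit 3204) (C.miq (nat_lit 1685225643) (nat_lit 488449786896115122405904129)) (C.cons (nat_lit 2182) (C.miq (nat_lit 310672224) (nat_lit 488427632875809087333402849)) (C.cons (nat_lit 2180) (C.node (nat_lit 2) (nat_lit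 10) (nat_lit 11) (C.cons (nat_lit 3110) (C.miq (nat_lit 461677152) (nat_lit 2843415129746315498048521285)) (C.cons (nat_lit 3108) (C.miq (nat_lit 1409988706) (nat_lit 1415709467911342445566429508)) (C.cons (nat_lit 3078) (C.miq (nat_lit 461677152) (nat_lit 2843415129737308298793780293)) (C.cons (nat_lit 3076) (C.node (nat_lit 1) (nat_lit 7) (nat_lit 11) (C.cons (nat_lit 2186) (C.node (nat_lit 1) (nat_lit 8) (nat_lit 11) (C.cons (nat_lit 2306) (C.node (nat_lit 3) (nat_lit 8) (nat_lit 11) (C.cons (nat_lit 2312) (C.node (nat_lit 7) (nat_lit 10) (nat_lit 11) (C.cons (nat_lit 3200) (C.node (nat_lit 3) (nat_lit 5) (nat_lit 11) (C.cons (nat_lit 2600) (C.miq (nat_lit 1094256565) (nat_lit 632278552611492996126869729)) (C.cons (nat_lit 2088) (C.node (nat_lit 4) (nat_lit 5) (nat_lit 7) (C.cons (nat_lit 184) (C.miq (nat_lit 2876442949) (nat_lit 2642731488541174875729429041)) (C.cons (nat_lit 176) (C.node (nat_lit 3) (nat_lit 4)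 (nat_lit 7) (C.cons (nat_lit 216) (C.node (nat_lit 2) (nat_lit 6) (nat_lit 7) (C.cons (nat_lit 198) (C.miq (nat_lit 2820737895) (nat_lit 317969092777113360053700833)) (C.cons (nat_lit 196) (C.node (nat_lit 4) (nat_lit 8) (nat_lit 10) (C.cons (nat_lit 1304) (C.miq (nat_lit 1803776164) (nat_lit 2795040480085551692301993107)) (C.cons (nat_lit 1296) (C.node (nat_lit 3) (nat_lit 4) (nat_lit 10) (C.cons (nat_lit 1560) (C.miq (nat_lit 1464011674) (nat_lit 261147623459002638166134529)) (C.cons (nat_lit 1048) (C.node (nat_lit 3) (nat_lit 4) (nat_lit 9) (C.cons (nat_lit 792) (C.miq (nat_lit 2490073968) (nat_lit 2572664998306847111579238793)) (C.cons (nat_lit 536) (C.node (nat_lit 3) (nat_lit 4) (nat_lit 8) (C.cons (nat_lit 282) (C.miq (nat_lit 1798833940) (nat_lit 2795042712141577502919885971)) (C.cons (nat_lit 280) (C.node (nat_lit 3) (nat_lit 9) (nat_lit 11) (C.cons (nat_lit 2632) (C.miq (nat_lit 2471147120) (nat_lit 1267025113640961559971956961))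 (C.cons (nat_lit 2568) (C.node (nat_lit 3) (nat_lit 6) (nat_lit 11) (C.cons (nat_lit 3144) (C.node (nat_lit 1) (nat_lit 6) (nat_lit 11) C.nil) C.nil)) C.nil))) C.nil))) C.nil))) C.nil))) C.nil))) C.nil))) (C.cons (nat_lit 152)
  (C.node (nat_lit 4) (nat_lit 6) (nat_lit 7) (C.cons (nat_lit 208) (C.node (nat_lit 3) (nat_lit 9) (nat_lit 11) (C.cons (nat_lit 2632) (C.node (nat_lit 3) (nat_lit 10) (nat_lit 11) (C.cons (nat_lit 3080) (C.node (nat_lit 1) (nat_lit 6) (nat_lit 11) C.nil) C.nil)) (C.cons (nat_lit 2568) (C.node (nat_lit 3) (nat_lit 6) (nat_lit 11) (C.cons (nat_lit 3144) (C.node (nat_lit 1) (nat_lit 6) (nat_lit 11) C.nil) C.nil)) C.nil))) C.nil)) C.nil))) C.nil))) C.nil))) C.nil)) C.nil)) C.nil)) (C.cons (nat_lit 2178) (C.node (nat_lit 1) (nat_lit 8) (nat_lit 11) (C.cons (nat_lit 2314) (C.node (nat_lit 1) (nat_lit 4) (nat_lit 8) (C.cons (nat_lit 786) (C.miq (nat_lit 1478052656) (nat_lit 950226043502562966189574173))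 (C.cons (nat_lit 274) (C.node (nat_lit 3) (nat_lit 5) (nat_lit 11) (C.cons (nat_lit 2600) (C.miq (nat_lit 2214704531) (nat_lit 1415694821196548882217765416)) (C.cons (nat_lit 2088) (C.node (nat_lit 3) (nat_lit 7) (nat_lit 11) (C.cons (nat_lit 3208) (C.miq (nat_lit 2503688359) (nat_lit 2524286991509233063699154067)) (C.cons (nat_lit 2184) (C.node (nat_lit 7) (nat_lit 10) (nat_lit 11) (C.cons (nat_lit 3200) (C.node (nat_lit 3) (nat_lit 9) (nat_lit 11) (C.cons (nat_lit 2632) (C.miq (nat_lit 647007025) (nat_lit 697555050079002368563415306)) (C.cons (nat_lit 2568) (C.node (nat_lit 3) (nat_lit 6) (nat_lit 11) (C.cons (nat_lit 3144) (C.miq (nat_lit 329288546) (nat_lit 1287510850034618056231422276)) C.nil)) C.nil))) C.nil)) C.nil))) C.nil))) C.nil))) (C.cons (nat_lit 2306) (C.node (nat_lit 3) (nat_lit 8) (nat_lit 11) (C.cons (nat_lit 2312) (C.node (nat_lit 3) (nat_lit 7) (nat_lit 11) (C.cons (nat_lit 3208) (C.node (nat_lit 2)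 (nat_lit 7) (nat_lit 10) (C.cons (nat_lit 1188) (C.miq (nat_lit 2544192304) (nat_lit 1436214223086726925959890973)) (C.cons (nat_lit 1156) (C.node (nat_lit 4) (nat_lit 5) (nat_lit 7) (C.cons (nat_lit 184) (C.node (nat_lit 4) (nat_lit 6) (nat_lit 7) (C.cons (nat_lit 208) (C.node (nat_lit 4) (nat_lit 8) (nat_lit 10) (C.cons (nat_lit 1304) (C.miq (nat_lit 1731464104) (nat_lit 222448568001651008668700417)) (C.cons (nat_lit 1296) (C.node (nat_lit 3) (nat_lit 5) (nat_lit 11) (C.cons (nat_lit 2600) (C.node (nat_lit 5) (nat_lit 7) (nat_lit 10) (C.cons (nat_lit 1696) (C.node (nat_lit 5) (nat_lit 7) (nat_lit 8) (C.cons (nat_lit 418) (C.miq (nat_lit 355501890) (nat_lit 1287510849500928787349307796)) (C.cons (nat_lit 416) (C.node (nat_lit 6) (nat_lit 7) (nat_lit 10) (C.cons (nat_lit 1472) (C.miq (nat_lit 1466210944) (nat_lit 251466919580656102112562945)) (C.cons (nat_lit 1216) (C.node (nat_lit 7) (nat_lit 8) (nat_lit 10) (C.cons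 (nat_lit 1408) (C.node (nat_lit 1) (nat_lit 3) (nat_lit 11) (C.cons (nat_lit 2058) (C.node (nat_lit 3) (nat_lit 6) (nat_lit 11) (C.cons (nat_lit 2120) (C.node (nat_lit 2) (nat_lit 5) (nat_lit 11) C.nil) C.nil)) C.nil)) C.nil)) C.nil))) C.nil))) (C.cons (nat_lit 1440) (C.miq (nat_lit 2539303984) (nat_lit 1740924034950162257334044701)) (C.cons (nat_lit 1184) (C.miq (nat_lit 2539303984) (nat_lit 1431439025128817188609263645)) C.nil)))) (C.cons (nat_lit 2090) (C.miq (nat_lit 2503688359) (nat_lit 2526704843148462322048566419)) (C.cons (nat_lit 2088) (C.miq (nat_lit 2503688359) (nat_lit 2524286991509233063699154067)) C.nil)))) C.nil))) C.nil)) (C.cons (nat_lit 176) (C.miq (nat_lit 927312784) (nat_lit 212790590937596574336880385)) C.nil))) C.nil))) (C.cons (nat_lit 2184) (C.node (nat_lit 7) (nat_lit 10) (nat_lit 11) (C.cons (nat_lit 3200) (C.node (nat_lit 5) (nat_lit 10) (nat_lit 11) (C.cons (nat_lit 3106) (C.node (nat_lit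 2) (nat_lit 5) (nat_lit 11) (C.cons (nat_lit 2596) (C.miq (nat_lit 2491568235) (nat_lit 488453919029834446071400673)) C.nil)) C.nil)) C.nil)) C.nil))) C.nil)) C.nil))) C.nil))) C.nil))))) C.nil)))) C.nil))) (C.cons (nat_lit 2308) (C.node (nat_lit 4) (nat_lit 5) (nat_lit 7) (C.cons (nat_lit 184) (C.node (nat_lit 4) (nat_lit 6) (nat_lit 7) (C.cons (nat_lit 208) (C.node (nat_lit 4) (nat_lit 8) (nat_lit 10) (C.cons (nat_lit 1304) (C.miq (nat_lit 2486875984) (nat_lit 1576510123482572689574004961))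
  (C.cons (nat_lit 1296) (C.node (nat_lit 3) (nat_lit 7) (nat_lit 11) (C.cons (nat_lit 3208) (C.node (nat_lit 2) (nat_lit 7) (nat_lit 10) (C.cons (nat_lit 1188) (C.miq (nat_lit 2539303984) (nat_lit 1436274728407275705308088349)) (C.cons (nat_lit 1156) (C.node (nat_lit 3) (nat_lit 5) (nat_lit 11) (C.cons (nat_lit 2600) (C.node (nat_lit 5) (nat_lit 7) (nat_lit 10) (C.cons (nat_lit 1696) (C.node (nat_lit 5) (nat_lit 7) (nat_lit 8) (C.cons (nat_lit 418) (C.miq (nat_lit 355501890) (nat_lit 1287510849500928787349307796)) (C.cons (nat_lit 416) (C.node (nat_lit 6) (nat_lit 7) (nat_lit 10) (C.cons (nat_lit 1472) (C.miq (nat_lit 1466210944) (nat_lit 251466919580656102112562945)) (C.cons (nat_lit 1216) (C.node (nat_lit 7) (nat_lit 8) (nat_lit 10) (C.cons (nat_lit 1408) (C.node (nat_lit 2) (nat_lit 4) (nat_lit 10) (C.cons (nat_lit 1556) (C.miq (nat_lit 1732381594) (nat_lit 488426194055386986878078721)) (C.cons (nat_lit 1076) (C.miq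 (nat_lit 2191553619) (nat_lit 1321363170522931167853347000)) (C.cons (nat_lit 1044) (C.node (nat_lit 3) (nat_lit 4) (nat_lit 8) (C.cons (nat_lit 792) (C.miq (nat_lit 1697909656) (nat_lit 222448568001648397295030017)) (C.cons (nat_lit 282) (C.miq (nat_lit 2537751169) (nat_lit 222451998637795413405073671)) (C.cons (nat_lit 280) (C.node (nat_lit 2) (nat_lit 4) (nat_lit 5) (C.cons (nat_lit 118) (C.miq (nat_lit 2217391456) (nat_lit 1262189410283689628882241761)) (C.cons (nat_lit 116) (C.miq (nat_lit 2217391456) (nat_lit 1262189410283689620292307169)) (C.cons (nat_lit 54) (C.miq (nat_lit 410329140) (nat_lit 502914137157895323802667037)) (C.cons (nat_lit 52) (C.node (nat_lit 2) (nat_lit 10) (nat_lit 11) (C.cons (nat_lit 3110) (C.miq (nat_lit 1649674936) (nat_lit 62870359480379064250797825)) (C.cons (nat_lit 3108) (C.miq (nat_lit 1649674936) (nat_lit 62870359480379055660863233)) (C.cons (nat_lit 3078) (C.miq (nat_lit 2275476402)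 (nat_lit 1415656986373055593497102365)) (C.cons (nat_lit 3076) (C.node (nat_lit 3) (nat_lit 8) (nat_lit 11) (C.cons (nat_lit 2378) (C.miq (nat_lit 1683194011) (nat_lit 222486217261358526258220801)) (C.cons (nat_lit 2376) (C.miq (nat_lit 1683194011) (nat_lit 222486180367870378839117569)) (C.cons (nat_lit 2314) (C.miq (nat_lit 2214704531) (nat_lit 1415694821196548882217765416)) (C.cons (nat_lit 2312) (C.node (nat_lit 2) (nat_lit 3) (nat_lit 5) (C.cons (nat_lit 364) (C.miq (nat_lit 2754742102) (nat_lit 2510959089960465348430661857)) (C.cons (nat_lit 300) (C.miq (nat_lit 391644210) (nat_lit 502917992782985110311667741)) (C.cons (nat_lit 110) (C.miq (nat_lit 2754742102) (nat_lit 2510959089960465348414015713)) (C.cons (nat_lit 108) (C.miq (nat_lit 2754742102) (nat_lit 2510959089960465348413884641)) (C.cons (nat_lit 46) (C.miq (nat_lit 682954899) (nat_lit 2843394376357879625562980875)) (C.cons (nat_lit 44) (C.node (nat_lit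 1) (nat_lit 3) (nat_lit 4) (C.cons (nat_lit 90) (C.node (nat_lit 1) (nat_lit 3) (nat_lit 11) (C.cons (nat_lit 2058) (C.node (nat_lit 1) (nat_lit 4) (nat_lit 5) (C.cons (nat_lit 50) (C.node (nat_lit 3) (nat_lit 6) (nat_lit 11) (C.cons (nat_lit 2120) (C.node (nat_lit 1) (nat_lit 2) (nat_lit 4) (C.cons (nat_lit 534) (C.miq (nat_lit 344167024) (nat_lit 338508877289556091769258629)) (C.cons (nat_lit 22) (C.node (nat_lit 1) (nat_lit 4) (nat_lit 8) (C.cons (nat_lit 786) (C.node (nat_lit 6) (nat_lit 8) (nat_lit 11) (C.cons (nat_lit 2370) (C.miq (nat_lit 1631959184) (nat_lit 60488221097110071231450881)) C.nil)) C.nil)) C.nil))) C.nil)) C.nil)) C.nil)) (C.cons (nat_lit 26) (C.node (nat_lit 1) (nat_lit 3) (nat_lit 11) (C.cons (nat_lit 2122) (C.node (nat_lit 6) (nat_lit 8) (nat_lit 11) (C.cons (nat_lit 2368) (C.node (nat_lit 6) (nat_lit 10) (nat_lit 11) (C.cons (nat_lit 3136) (C.node (nat_lit 1) (nat_lit 3) (nat_lit 7) (C.cons (nat_lit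 142) (C.miq (nat_lit 2322664242) (nat_lit 1415656987343581313003030557)) (C.cons (nat_lit 138) (C.node (nat_lit 2) (nat_lit 6) (nat_lit 11) (C.cons (nat_lit 2628) (C.miq (nat_lit 2460268039) (nat_lit 1262168436413369102292420833)) (C.cons (nat_lit 2116)
  (C.node (nat_lit 6) (nat_lit 9) (nat_lit 11) (C.cons (nat_lit 2624) (C.node (nat_lit 1) (nat_lit 4) (nat_lit 5) (C.cons (nat_lit 114) (C.node (nat_lit 4) (nat_lit 5) (nat_lit 10) C.nil) C.nil)) C.nil)) C.nil))) C.nil))) C.nil)) C.nil)) (C.cons (nat_lit 2058) (C.node (nat_lit 3) (nat_lit 6) (nat_lit 11) (C.cons (nat_lit 2120) (C.node (nat_lit 1) (nat_lit 4) (nat_lit 5) (C.cons (nat_lit 114) (C.node (nat_lit 4) (nat_lit 5) (nat_lit 10) (C.cons (nat_lit 1072) (C.node (nat_lit 1) (nat_lit 2) (nat_lit 4) (C.cons (nat_lit 534) (C.miq (nat_lit 344167024) (nat_lit 338508877289556091769258629)) C.nil)) C.nil)) (C.cons (nat_lit 50) (C.node (nat_lit 1) (nat_lit 4) (nat_lit 8)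 (C.cons (nat_lit 786) (C.node (nat_lit 6) (nat_lit 8) (nat_lit 11) (C.cons (nat_lit 2370) (C.miq (nat_lit 1631959184) (nat_lit 60488221097110071231450881)) C.nil)) C.nil)) C.nil))) C.nil)) C.nil))) C.nil))) C.nil))))))) C.nil))))) C.nil))))) C.nil))))) C.nil)))) C.nil)))) C.nil)) C.nil))) C.nil))) (C.cons (nat_lit 1440) (C.miq (nat_lit 2539303984) (nat_lit 1740924034950162257334044701)) (C.cons (nat_lit 1184) (C.miq (nat_lit 2539303984) (nat_lit 1431439025128817188609263645)) C.nil)))) (C.cons (nat_lit 2090) (C.miq (nat_lit 2503688359) (nat_lit 2526704843148462322048566419)) (C.cons (nat_lit 2088) (C.miq (nat_lit 2503688359) (nat_lit 2524286991509233063699154067)) C.nil)))) C.nil))) (C.cons (nat_lit 2186) (C.miq (nat_lit 2876442949) (nat_lit 2642731488541174875729429041)) (C.cons (nat_lit 2184) (C.miq (nat_lit 2876442949) (nat_lit 2640313636901945617380016689)) C.nil)))) C.nil))) C.nil)) (C.cons (nat_lit 176) (C.node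 (nat_lit 3) (nat_lit 4) (nat_lit 7) (C.cons (nat_lit 216) (C.node (nat_lit 4) (nat_lit 8) (nat_lit 10) (C.cons (nat_lit 1304) (C.miq (nat_lit 2758509424) (nat_lit 2572664998450962299655094665)) (C.cons (nat_lit 1296) (C.node (nat_lit 3) (nat_lit 4) (nat_lit 10) (C.cons (nat_lit 1560) (C.miq (nat_lit 1464011674) (nat_lit 261147623459002638166134529)) (C.cons (nat_lit 1048) (C.node (nat_lit 3) (nat_lit 4) (nat_lit 9) (C.cons (nat_lit 792) (C.miq (nat_lit 2490073968) (nat_lit 2572664998306847111579238793)) (C.cons (nat_lit 536) (C.node (nat_lit 3) (nat_lit 4) (nat_lit 8) (C.cons (nat_lit 282) (C.miq (nat_lit 1949902864) (nat_lit 647996137577085882109460743)) (C.cons (nat_lit 280) (C.node (nat_lit 3) (nat_lit 9) (nat_lit 11) (C.cons (nat_lit 2632) (C.miq (nat_lit 2471147120) (nat_lit 1267025113640961559971956961)) (C.cons (nat_lit 2600) (C.miq (nat_lit 2761099189) (nat_lit 648003885425498549805123809)) (C.cons (nat_lit 2568)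 (C.node (nat_lit 6) (nat_lit 7) (nat_lit 10) (C.cons (nat_lit 1728) (C.miq (nat_lit 611715994) (nat_lit 261148139912667606609301249)) (C.cons (nat_lit 1472) (C.miq (nat_lit 2789967664) (nat_lit 2572664998498250095729639817)) (C.cons (nat_lit 1216) (C.node (nat_lit 6) (nat_lit 7) (nat_lit 8) (C.cons (nat_lit 962) (C.miq (nat_lit 611388312) (nat_lit 1415656986847057289475657473)) (C.cons (nat_lit 960) (C.miq (nat_lit 2521532208) (nat_lit 2572664998354134907653783945)) (C.cons (nat_lit 450) (C.miq (nat_lit 372279106) (nat_lit 88256436452223982734475668)) (C.cons (nat_lit 448) (C.node (nat_lit 7) (nat_lit 8) (nat_lit 9) (C.cons (nat_lit 930) (C.miq (nat_lit 611388312) (nat_lit 1415656986847057289473560321)) (C.cons (nat_lit 928) (C.miq (nat_lit 609684361) (nat_lit 212782842986735905861013249)) (C.cons (nat_lit 898) (C.miq (nat_lit 611388312) (nat_lit 1415656986847057289471463169)) (C.cons (nat_lit 896) (C.node (nat_lit 1)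 (nat_lit 3) (nat_lit 4) (C.cons (nat_lit 58) (C.node (nat_lit 3) (nat_lit 5) (nat_lit 11) (C.cons (nat_lit 2088) (C.node (nat_lit 1) (nat_lit 4) (nat_lit 8) (C.cons (nat_lit 786) (C.miq (nat_lit 1368933131) (nat_lit 950259080975487691353294877)) (C.cons (nat_lit 274) (C.node (nat_lit 4) (nat_lit 8) (nat_lit 9) (C.cons (nat_lit 784) (C.node (nat_lit 1) (nat_lit 2) (nat_lit 4) (C.cons (nat_lit 598) (C.miq (nat_lit 410394676) (nat_lit 541609798414339555391440925)) (C.cons (nat_lit 534)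
  (C.miq (nat_lit 344167024) (nat_lit 338508877289556091769258629)) (C.cons (nat_lit 86) (C.miq (nat_lit 410394676) (nat_lit 541600353681373816101013533)) C.nil)))) C.nil)) C.nil))) C.nil)) (C.cons (nat_lit 26) (C.node (nat_lit 3) (nat_lit 4) (nat_lit 5) (C.cons (nat_lit 56) (C.node (nat_lit 1) (nat_lit 4) (nat_lit 8) (C.cons (nat_lit 786) (C.node (nat_lit 1) (nat_lit 4) (nat_lit 6) (C.cons (nat_lit 118) (C.miq (nat_lit 2822900566) (nat_lit 488426194496738238437656801)) (C.cons (nat_lit 114) (C.miq (nat_lit 2422311764) (nat_lit 81012530136177238426650928)) (C.cons (nat_lit 86) (C.miq (nat_lit 410394676) (nat_lit 541600353681373816101013533)) C.nil)))) C.nil)) C.nil)) C.nil))) C.nil))))) C.nil))))) C.nil)))) C.nil)))) C.nil))) C.nil))) C.nil))) C.nil))) (C.cons (nat_lit 152) (C.node (nat_lit 4) (nat_lit 6) (nat_lit 7) (C.cons (nat_lit 208) (C.node (nat_lit 4) (nat_lit 8) (nat_lit 10) (C.cons (nat_lit 1304) (C.node (nat_lit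 2) (nat_lit 4) (nat_lit 10) (C.cons (nat_lit 1556) (C.miq (nat_lit 607623808) (nat_lit 183768623169331841641025281)) (C.cons (nat_lit 1076) (C.miq (nat_lit 1383113859) (nat_lit 779776799736743128491164952)) (C.cons (nat_lit 1044) (C.node (nat_lit 4) (nat_lit 5) (nat_lit 10) (C.cons (nat_lit 1136) (C.miq (nat_lit 1686592048) (nat_lit 488447960893350902598534185)) (C.cons (nat_lit 1072) (C.node (nat_lit 7) (nat_lit 8) (nat_lit 10) (C.cons (nat_lit 1472) (C.miq (nat_lit 1783330864) (nat_lit 3733204860833591199795052937)) (C.cons (nat_lit 1440) (C.miq (nat_lit 995639418) (nat_lit 2843417582872513225347302547)) (C.cons (nat_lit 1408) (C.node (nat_lit 1) (nat_lit 4) (nat_lit 8) (C.cons (nat_lit 786) (C.node (nat_lit 7) (nat_lit 8) (nat_lit 11) (C.cons (nat_lit 2434) (C.miq (nat_lit 1460931465) (nat_lit 1415662484031959190704623361)) (C.cons (nat_lit 2432) (C.node (nat_lit 1) (nat_lit 8) (nat_lit 11) (C.cons (nat_lit 2378)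 (C.miq (nat_lit 1665644704) (nat_lit 183798654700056271698202369)) (C.cons (nat_lit 2370) (C.miq (nat_lit 369724244) (nat_lit 697564697725588426814720304)) (C.cons (nat_lit 2314) (C.miq (nat_lit 1478052656) (nat_lit 950226043502562966189574173)) (C.cons (nat_lit 2306) (C.node (nat_lit 3) (nat_lit 8) (nat_lit 11) (C.cons (nat_lit 2376) (C.miq (nat_lit 1665644704) (nat_lit 183798654699493321744781057)) (C.cons (nat_lit 2312) (C.node (nat_lit 6) (nat_lit 8) (nat_lit 11) (C.cons (nat_lit 2368) (C.node (nat_lit 3) (nat_lit 4) (nat_lit 5) (C.cons (nat_lit 122) (C.miq (nat_lit 1368933131) (nat_lit 950259080993502089862776861)) (C.cons (nat_lit 120) (C.miq (nat_lit 2221646672) (nat_lit 2572664998450961887338234921)) (C.cons (nat_lit 58) (C.miq (nat_lit 1368933131) (nat_lit 950259080975487691353294877)) (C.cons (nat_lit 56) (C.node (nat_lit 4) (nat_lit 5) (nat_lit 6) (C.cons (nat_lit 118) (C.miq (nat_lit 2217391456) (nat_lit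 1262189410283689628882241761)) (C.cons (nat_lit 116) (C.miq (nat_lit 2217391456) (nat_lit 1262189410283689620292307169)) (C.cons (nat_lit 114) (C.miq (nat_lit 1803636884) (nat_lit 2787785043599968398845542961)) (C.cons (nat_lit 112) (C.node (nat_lit 1) (nat_lit 3) (nat_lit 4) (C.cons (nat_lit 90) (C.node (nat_lit 3) (nat_lit 4) (nat_lit 9) C.nil) C.nil)) C.nil))))) C.nil))))) C.nil)) C.nil))) C.nil))))) C.nil))) (C.cons (nat_lit 274) (C.node (nat_lit 4) (nat_lit 8) (nat_lit 9) (C.cons (nat_lit 784) (C.node (nat_lit 3) (nat_lit 4) (nat_lit 9) (C.cons (nat_lit 600) (C.node (nat_lit 4) (nat_lit 6) (nat_lit 10) C.nil) C.nil)) C.nil)) C.nil))) C.nil)))) C.nil))) C.nil)))) (C.cons (nat_lit 1296) (C.node (nat_lit 7) (nat_lit 8) (nat_lit 11) (C.cons (nat_lit 2434) (C.node (nat_lit 3) (nat_lit 7) (nat_lit 11) (C.cons (nat_lit 3208) (C.miq (nat_lit 927312784) (nat_lit 212790590937596574336880385)) (C.cons (nat_lit 2184) (C.node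 (nat_lit 1) (nat_lit 4) (nat_lit 8) (C.cons (nat_lit 786) (C.miq (nat_lit 1460931465) (nat_lit 1415662484031959190704623361)) (C.cons (nat_lit 282) (C.miq (nat_lit 2441544514) (nat_lit 2942537343239147577922553885)) (C.cons (nat_lit 274)
  (C.node (nat_lit 2) (nat_lit 7) (nat_lit 11) (C.cons (nat_lit 3204) (C.node (nat_lit 5) (nat_lit 10) (nat_lit 11) (C.cons (nat_lit 3106) (C.miq (nat_lit 901253655) (nat_lit 2843400777603812977287496851)) (C.cons (nat_lit 3104) (C.node (nat_lit 3) (nat_lit 4) (nat_lit 8) (C.cons (nat_lit 792) (C.node (nat_lit 3) (nat_lit 8) (nat_lit 11) (C.cons (nat_lit 2376) (C.miq (nat_lit 906595156) (nat_lit 697564808407741718932293936)) (C.cons (nat_lit 2312) (C.node (nat_lit 6) (nat_lit 8) (nat_lit 11) (C.cons (nat_lit 2368) (C.node (nat_lit 6) (nat_lit 7) (nat_lit 8) (C.cons (nat_lit 1472) (C.miq (nat_lit 660912768) (nat_lit 251494885269136110672482049)) (C.cons (nat_lit 960) (C.miq (nat_lit 1766553648)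 (nat_lit 3268977345957456209608769929)) (C.cons (nat_lit 448) (C.node (nat_lit 7) (nat_lit 8) (nat_lit 9) (C.cons (nat_lit 928) (C.miq (nat_lit 609684361) (nat_lit 212782842986735905861013249)) (C.cons (nat_lit 896) (C.node (nat_lit 3) (nat_lit 4) (nat_lit 5) (C.cons (nat_lit 122) (C.miq (nat_lit 1803767956) (nat_lit 2795038746091608763570586161)) (C.cons (nat_lit 120) (C.miq (nat_lit 1803767956) (nat_lit 2795038709198120616151482929)) (C.cons (nat_lit 58) (C.miq (nat_lit 280312196) (nat_lit 2747889458042436299204330264)) (C.cons (nat_lit 56) (C.node (nat_lit 1) (nat_lit 3) (nat_lit 4) (C.cons (nat_lit 90) (C.node (nat_lit 3) (nat_lit 4) (nat_lit 10) (C.cons (nat_lit 1048) (C.node (nat_lit 5) (nat_lit 7) (nat_lit 8) C.nil) C.nil)) (C.cons (nat_lit 26) (C.node (nat_lit 5) (nat_lit 7) (nat_lit 8) C.nil) C.nil))) C.nil))))) C.nil))) C.nil)))) C.nil)) C.nil))) (C.cons (nat_lit 280) (C.node (nat_lit 4) (nat_lit 8) (nat_lit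 9) (C.cons (nat_lit 784) (C.node (nat_lit 3) (nat_lit 8) (nat_lit 11) (C.cons (nat_lit 2376) (C.node (nat_lit 3) (nat_lit 9) (nat_lit 11) (C.cons (nat_lit 2600) (C.miq (nat_lit 2491633771) (nat_lit 338547191184596723246303457)) (C.cons (nat_lit 2568) (C.node (nat_lit 3) (nat_lit 10) (nat_lit 11) (C.cons (nat_lit 3082) (C.miq (nat_lit 2443641778) (nat_lit 1415664033065882956360583197)) (C.cons (nat_lit 3080) (C.node (nat_lit 1) (nat_lit 10) (nat_lit 11) (C.cons (nat_lit 3138) (C.miq (nat_lit 1661646961) (nat_lit 1287563884441269604298459522)) (C.cons (nat_lit 3074) (C.node (nat_lit 6) (nat_lit 10) (nat_lit 11) (C.cons (nat_lit 3136) (C.node (nat_lit 2) (nat_lit 4) (nat_lit 10) C.nil) C.nil)) C.nil))) C.nil))) C.nil))) (C.cons (nat_lit 2312) (C.node (nat_lit 6) (nat_lit 8) (nat_lit 11) (C.cons (nat_lit 2368) (C.node (nat_lit 2) (nat_lit 4) (nat_lit 10) (C.cons (nat_lit 1556) (C.miq (nat_lit 1461980073) (nat_lit 488416380387541920880267009))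 (C.cons (nat_lit 1076) (C.node (nat_lit 2) (nat_lit 8) (nat_lit 10) (C.cons (nat_lit 1292) (C.miq (nat_lit 1384359024) (nat_lit 1561951805027408204526060691)) (C.cons (nat_lit 1284) (C.node (nat_lit 5) (nat_lit 7) (nat_lit 8) C.nil) C.nil))) (C.cons (nat_lit 1044) (C.node (nat_lit 4) (nat_lit 5) (nat_lit 10) (C.cons (nat_lit 1072) (C.node (nat_lit 1) (nat_lit 4) (nat_lit 9) (C.cons (nat_lit 598) (C.miq (nat_lit 344167024) (nat_lit 338508877307570490278740613)) C.nil)) C.nil)) C.nil)))) C.nil)) C.nil))) C.nil)) C.nil))) C.nil))) (C.cons (nat_lit 2180) (C.node (nat_lit 7) (nat_lit 10) (nat_lit 11) (C.cons (nat_lit 3200) (C.node (nat_lit 3) (nat_lit 4) (nat_lit 8) (C.cons (nat_lit 792) (C.node (nat_lit 3) (nat_lit 8) (nat_lit 11) (C.cons (nat_lit 2376) (C.miq (nat_lit 906595156) (nat_lit 697564808407741718932293936)) (C.cons (nat_lit 2312) (C.node (nat_lit 6) (nat_lit 8) (nat_lit 11) (C.cons (nat_lit 2368) (C.node (nat_lit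 7) (nat_lit 8) (nat_lit 9) (C.cons (nat_lit 960) (C.miq (nat_lit 1766553648) (nat_lit 3268977345957456209608769929)) (C.cons (nat_lit 928) (C.miq (nat_lit 609684361) (nat_lit 212782842986735905861013249)) (C.cons (nat_lit 896) (C.node (nat_lit 3) (nat_lit 4) (nat_lit 5) (C.cons (nat_lit 122) (C.miq (nat_lit 1803767956) (nat_lit 2795038746091608763570586161)) (C.cons (nat_lit 120) (C.miq (nat_lit 1803767956) (nat_lit 2795038709198120616151482929)) (C.cons (nat_lit 58)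
  (C.miq (nat_lit 280312196) (nat_lit 2747889458042436299204330264)) (C.cons (nat_lit 56) (C.node (nat_lit 1) (nat_lit 3) (nat_lit 4) (C.cons (nat_lit 90) (C.node (nat_lit 3) (nat_lit 4) (nat_lit 10) (C.cons (nat_lit 1048) (C.node (nat_lit 1) (nat_lit 3) (nat_lit 11) C.nil) C.nil)) (C.cons (nat_lit 26) (C.node (nat_lit 3) (nat_lit 5) (nat_lit 11) C.nil) C.nil))) C.nil))))) C.nil)))) C.nil)) C.nil))) (C.cons (nat_lit 280) (C.node (nat_lit 4) (nat_lit 8) (nat_lit 9) (C.cons (nat_lit 784) (C.node (nat_lit 3) (nat_lit 8) (nat_lit 11) (C.cons (nat_lit 2376) (C.node (nat_lit 3) (nat_lit 9) (nat_lit 11) (C.cons (nat_lit 2600) (C.miq (nat_lit 2491633771) (nat_lit 338547191184596723246303457)) (C.cons (nat_lit 2568) (C.node (nat_lit 6) (nat_lit 10) (nat_lit 11) (C.cons (nat_lit 3138) (C.miq (nat_lit 1661646961) (nat_lit 1287563884441269604298459522)) (C.cons (nat_lit 3136) (C.node (nat_lit 2) (nat_lit 4) (nat_lit 10) (C.cons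 (nat_lit 1044) (C.node (nat_lit 3) (nat_lit 5) (nat_lit 11) (C.cons (nat_lit 2090) (C.node (nat_lit 3) (nat_lit 10) (nat_lit 11) C.nil) C.nil)) C.nil)) C.nil))) C.nil))) (C.cons (nat_lit 2312) (C.node (nat_lit 6) (nat_lit 8) (nat_lit 11) (C.cons (nat_lit 2368) (C.node (nat_lit 2) (nat_lit 4) (nat_lit 10) (C.cons (nat_lit 1556) (C.miq (nat_lit 1732381594) (nat_lit 488426194055386986878078721)) (C.cons (nat_lit 1076) (C.node (nat_lit 2) (nat_lit 10) (nat_lit 11) C.nil) (C.cons (nat_lit 1044) (C.node (nat_lit 4) (nat_lit 5) (nat_lit 10) (C.cons (nat_lit 1072) (C.node (nat_lit 1) (nat_lit 4) (nat_lit 9) (C.cons (nat_lit 598) (C.miq (nat_lit 344167024) (nat_lit 338508877307570490278740613)) C.nil)) C.nil)) C.nil)))) C.nil)) C.nil))) C.nil)) C.nil))) C.nil)) C.nil))) C.nil)))) C.nil))) (C.cons (nat_lit 2432) (C.node (nat_lit 1) (nat_lit 4) (nat_lit 8) (C.cons (nat_lit 786) (C.node (nat_lit 3) (nat_lit 4) (nat_lit 8) (C.cons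 (nat_lit 280) (C.node (nat_lit 1) (nat_lit 8) (nat_lit 11) (C.cons (nat_lit 2378) (C.miq (nat_lit 1478052656) (nat_lit 950226043502563241067481117)) (C.cons (nat_lit 2370) (C.miq (nat_lit 369724244) (nat_lit 697564697725588426814720304)) (C.cons (nat_lit 2314) (C.miq (nat_lit 1478052656) (nat_lit 950226043502562966189574173)) (C.cons (nat_lit 2306) (C.node (nat_lit 3) (nat_lit 8) (nat_lit 11) (C.cons (nat_lit 2376) (C.node (nat_lit 3) (nat_lit 9) (nat_lit 11) (C.cons (nat_lit 2600) (C.miq (nat_lit 2491633771) (nat_lit 338547191184596723246303457)) (C.cons (nat_lit 2568) (C.node (nat_lit 3) (nat_lit 7) (nat_lit 11) (C.cons (nat_lit 3208) (C.miq (nat_lit 1685291179) (nat_lit 183800554140204865218416385)) (C.cons (nat_lit 2186) (C.miq (nat_lit 327449440) (nat_lit 338520831244720986756548833)) (C.cons (nat_lit 2184) (C.node (nat_lit 3) (nat_lit 4) (nat_lit 5) (C.cons (nat_lit 122) (C.miq (nat_lit 2553547621) (nat_lit 338509579196677110372108513))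 (C.cons (nat_lit 120) (C.miq (nat_lit 2553547621) (nat_lit 338509579196677110371977441)) (C.cons (nat_lit 58) (C.miq (nat_lit 1368933131) (nat_lit 950259080975487691353294877)) (C.cons (nat_lit 56) (C.node (nat_lit 3) (nat_lit 8) (nat_lit 9) (C.cons (nat_lit 812) (C.miq (nat_lit 2022785584) (nat_lit 950237295468128223342823453)) (C.cons (nat_lit 808) (C.miq (nat_lit 1481259280) (nat_lit 1566787508230433068194923019)) (C.cons (nat_lit 780) (C.miq (nat_lit 2022785584) (nat_lit 950237295468128085903869981)) (C.cons (nat_lit 776) (C.node (nat_lit 7) (nat_lit 8) (nat_lit 9) (C.cons (nat_lit 960) (C.miq (nat_lit 596183911) (nat_lit 938138334755513513766029537)) (C.cons (nat_lit 928) (C.miq (nat_lit 609684361) (nat_lit 212782842986735905861013249)) (C.cons (nat_lit 896) (C.node (nat_lit 6) (nat_lit 7) (nat_lit 8) (C.cons (nat_lit 1472) (C.miq (nat_lit 913619104) (nat_lit 251494885036074830010715905)) (C.cons (nat_lit 450) (C.miq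 (nat_lit 940881520) (nat_lit 950254008773326103534307553)) (C.cons (nat_lit 448) (C.node (nat_lit 1) (nat_lit 3) (nat_lit 4) (C.cons (nat_lit 90) (C.node (nat_lit 3) (nat_lit 4) (nat_lit 9) (C.cons (nat_lit 1560)
  (C.miq (nat_lit 1949677984) (nat_lit 67741776108813812838764289)) C.nil)) C.nil)) C.nil)))) C.nil)))) C.nil))))) C.nil))))) C.nil)))) C.nil))) (C.cons (nat_lit 2312) (C.node (nat_lit 6) (nat_lit 8) (nat_lit 11) (C.cons (nat_lit 2368) (C.node (nat_lit 2) (nat_lit 4) (nat_lit 9) (C.cons (nat_lit 1556) (C.miq (nat_lit 1732381594) (nat_lit 488426194055386986878078721)) (C.cons (nat_lit 596) (C.node (nat_lit 3) (nat_lit 4) (nat_lit 9) (C.cons (nat_lit 1560) (C.miq (nat_lit 1464011674) (nat_lit 183776371003666370984939265)) (C.cons (nat_lit 536) (C.node (nat_lit 4) (nat_lit 9) (nat_lit 10) (C.cons (nat_lit 1552) (C.node (nat_lit 1) (nat_lit 2) (nat_lit 4) (C.cons (nat_lit 54) (C.node (nat_lit 2) (nat_lit 4) (nat_lit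 10) C.nil) C.nil)) C.nil)) C.nil))) (C.cons (nat_lit 532) (C.node (nat_lit 2) (nat_lit 4) (nat_lit 10) (C.cons (nat_lit 1076) (C.node (nat_lit 2) (nat_lit 8) (nat_lit 10) (C.cons (nat_lit 1292) (C.miq (nat_lit 1384359024) (nat_lit 1561951805027408204526060691)) (C.cons (nat_lit 1284) (C.node (nat_lit 1) (nat_lit 4) (nat_lit 5) (C.cons (nat_lit 122) (C.miq (nat_lit 1368933131) (nat_lit 950259080993502089862776861)) (C.cons (nat_lit 114) (C.miq (nat_lit 1803636884) (nat_lit 2787785043599968398845542961)) (C.cons (nat_lit 58) (C.miq (nat_lit 1368933131) (nat_lit 950259080975487691353294877)) (C.cons (nat_lit 50) (C.node (nat_lit 1) (nat_lit 7) (nat_lit 8) C.nil) C.nil))))) C.nil))) (C.cons (nat_lit 1044) (C.node (nat_lit 4) (nat_lit 5) (nat_lit 10) (C.cons (nat_lit 1136) (C.node (nat_lit 2) (nat_lit 4) (nat_lit 6) (C.cons (nat_lit 86) (C.miq (nat_lit 2490007840) (nat_lit 1373410585247445561987367175)) C.nil)) C.nil)) C.nil)))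 C.nil)))) C.nil)) C.nil))) C.nil))))) C.nil)) (C.cons (nat_lit 282) (C.miq (nat_lit 2537751169) (nat_lit 183766372410127279814476039)) (C.cons (nat_lit 274) (C.node (nat_lit 3) (nat_lit 4) (nat_lit 8) (C.cons (nat_lit 792) (C.node (nat_lit 3) (nat_lit 4) (nat_lit 5) (C.cons (nat_lit 122) (C.miq (nat_lit 2422442836) (nat_lit 88266195734329455732721968)) (C.cons (nat_lit 120) (C.miq (nat_lit 2422442836) (nat_lit 88266195734329455732590896)) (C.cons (nat_lit 58) (C.miq (nat_lit 280312196) (nat_lit 2747889458042436299204330264)) (C.cons (nat_lit 56) (C.node (nat_lit 3) (nat_lit 8) (nat_lit 11) (C.cons (nat_lit 2378) (C.miq (nat_lit 1665513616) (nat_lit 67741776017049671863176961)) (C.cons (nat_lit 2376) (C.miq (nat_lit 1665513616) (nat_lit 67741776016486721909755649)) (C.cons (nat_lit 2314) (C.miq (nat_lit 274413896) (nat_lit 2747931073897052500460045080)) (C.cons (nat_lit 2312) (C.node (nat_lit 7) (nat_lit 8) (nat_lit 9)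 (C.cons (nat_lit 962) (C.miq (nat_lit 611388312) (nat_lit 1415656986847057289475657473)) (C.cons (nat_lit 960) (C.miq (nat_lit 1766553648) (nat_lit 3268977345957456209608769929)) (C.cons (nat_lit 930) (C.miq (nat_lit 611388312) (nat_lit 1415656986847057289473560321)) (C.cons (nat_lit 928) (C.miq (nat_lit 609684361) (nat_lit 212782842986735905861013249)) (C.cons (nat_lit 898) (C.miq (nat_lit 611388312) (nat_lit 1415656986847057289471463169)) (C.cons (nat_lit 896) (C.node (nat_lit 1) (nat_lit 3) (nat_lit 4) (C.cons (nat_lit 90) (C.node (nat_lit 3) (nat_lit 4) (nat_lit 10) (C.cons (nat_lit 1048) (C.node (nat_lit 1) (nat_lit 4) (nat_lit 9) (C.cons (nat_lit 534) (C.miq (nat_lit 691552519) (nat_lit 957476701769701968883287187)) C.nil)) C.nil)) (C.cons (nat_lit 26) (C.node (nat_lit 3) (nat_lit 4) (nat_lit 6) (C.cons (nat_lit 1112) (C.node (nat_lit 4) (nat_lit 9) (nat_lit 10) (C.cons (nat_lit 1556) (C.miq (nat_lit 1732381594)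 (nat_lit 488426194055386986878078721)) C.nil)) C.nil)) C.nil))) C.nil))))))) C.nil))))) C.nil))))) (C.cons (nat_lit 280) (C.node (nat_lit 4) (nat_lit 8) (nat_lit 9) (C.cons (nat_lit 784) (C.node (nat_lit 2) (nat_lit 4) (nat_lit 10) (C.cons (nat_lit 1556) (C.miq (nat_lit 1732381594) (nat_lit 488426194055386986878078721)) (C.cons (nat_lit 1076) (C.node (nat_lit 2) (nat_lit 8) (nat_lit 10) (C.cons (nat_lit 1292)
  (C.miq (nat_lit 1384359024) (nat_lit 1561951805027408204526060691)) (C.cons (nat_lit 1284) (C.node (nat_lit 1) (nat_lit 4) (nat_lit 9) (C.cons (nat_lit 598) (C.miq (nat_lit 344167024) (nat_lit 338508877307570490278740613)) (C.cons (nat_lit 594) (C.node (nat_lit 1) (nat_lit 2) (nat_lit 4) C.nil) (C.cons (nat_lit 534) (C.miq (nat_lit 344167024) (nat_lit 338508877289556091769258629)) C.nil)))) C.nil))) (C.cons (nat_lit 1044) (C.node (nat_lit 4) (nat_lit 5) (nat_lit 10) (C.cons (nat_lit 1072) (C.node (nat_lit 1) (nat_lit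 4) (nat_lit 9) (C.cons (nat_lit 598) (C.miq (nat_lit 344167024) (nat_lit 338508877307570490278740613)) C.nil)) C.nil)) C.nil)))) C.nil)) C.nil))) C.nil)))) C.nil))) C.nil))) C.nil)) C.nil))) C.nil))) C.nil))) (C.cons (nat_lit 400) (C.node (nat_lit 2) (nat_lit 4) (nat_lit 7) (C.cons (nat_lit 212) (C.miq (nat_lit 2873493874) (nat_lit 2572614307512360447465751173)) (C.cons (nat_lit 180) (C.miq (nat_lit 2149955956) (nat_lit 44773643148950800140864144)) (C.cons (nat_lit 148) (C.ref (nat_lit 237) (nat_lit 205163983024656)) C.nil)))) C.nil))) C.nil)) C.nil))) List.nil)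

theorem ok12_238 : okL par12 (nat_lit 239) c12_238 (nat_lit 238) = true := by decide +kernel

noncomputable def c12_239 : List C :=
  (List.cons (C.node (nat_lit 1) (nat_lit 2) (nat_lit 4) (C.cons (nat_lit 534) (C.miq (nat_lit 1612822420) (nat_lit 317986782763319866644892304)) (C.cons (nat_lit 54) (C.node (nat_lit 4) (nat_lit 5) (nat_lit 6) (C.cons (nat_lit 120) (C.miq (nat_lit 2587102053) (nat_lit 1266964608660715615081203937)) (C.cons (nat_lit 112) (C.node (nat_lit 2) (nat_lit 5) (nat_lit 11) (C.cons (nat_lit 2596) (C.miq (nat_lit 1951533753) (nat_lit 65293892738738116291202817)) (C.cons (nat_lit 2340) (C.node (nat_lit 1) (nat_lit 8) (nat_lit 10) (C.cons (nat_lit 1378) (C.miq (nat_lit 874122085) (nat_lit 1415671781135801939252087009)) (C.cons (nat_lit 1346) (C.miq (nat_lit 1368015371) (nat_lit 1627271707058001621526054941)) (C.cons (nat_lit 1314) (C.node (nat_lit 5) (nat_lit 6) (nat_lit 10) (C.cons (nat_lit 1632)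 (C.miq (nat_lit 911522448) (nat_lit 135438006569243898507497217)) (C.cons (nat_lit 1120) (C.node (nat_lit 1) (nat_lit 3) (nat_lit 10) (C.cons (nat_lit 1038) (C.node (nat_lit 3) (nat_lit 8) (nat_lit 10) C.nil) (C.cons (nat_lit 1034) (C.node (nat_lit 1) (nat_lit 2) (nat_lit 10) (C.cons (nat_lit 1030) (C.node (nat_lit 2) (nat_lit 7) (nat_lit 11) C.nil) C.nil)) C.nil))) C.nil))) (C.cons (nat_lit 1290) (C.miq (nat_lit 1368015371) (nat_lit 1559571861159582387742509085)) (C.cons (nat_lit 1282) (C.miq (nat_lit 1368015371) (nat_lit 1549900454602665354344859677)) C.nil)))))) (C.cons (nat_lit 2084) (C.miq (nat_lit 2337409601) (nat_lit 2519406260651737371546879123)) C.nil)))) C.nil))) (C.cons (nat_lit 22) (C.node (nat_lit 1) (nat_lit 4) (nat_lit 5) (C.cons (nat_lit 306) (C.node (nat_lit 1) (nat_lit 4) (nat_lit 9) (C.cons (nat_lit 530) (C.node (nat_lit 3) (nat_lit 4) (nat_lit 5) (C.cons (nat_lit 184) (C.miq (nat_lit 2486875984) (nat_lit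 1267025113661227620849223905)) (C.cons (nat_lit 120) (C.miq (nat_lit 2587102053) (nat_lit 1266964608660715615081203937)) C.nil))) C.nil)) (C.cons (nat_lit 50) (C.node (nat_lit 1) (nat_lit 4) (nat_lit 8) (C.cons (nat_lit 786) (C.node (nat_lit 2) (nat_lit 4) (nat_lit 9) (C.cons (nat_lit 596) (C.node (nat_lit 3) (nat_lit 4) (nat_lit 9) C.nil) C.nil)) (C.cons (nat_lit 274) (C.node (nat_lit 1) (nat_lit 4) (nat_lit 9) (C.cons (nat_lit 530) (C.node (nat_lit 2) (nat_lit 4) (nat_lit 9) (C.cons (nat_lit 532) (C.node (nat_lit 4) (nat_lit 6) (nat_lit 9) C.nil) C.nil)) C.nil)) C.nil))) C.nil))) C.nil)))) (List.cons (C.node (nat_lit 2) (nat_lit 6) (nat_lit 11) (C.cons (nat_lit 2628) (C.miq (nat_lit 2460268039) (nat_lit 1262168436413369102292420833)) (C.cons (nat_lit 2372) (C.node (nat_lit 2) (nat_lit 7) (nat_lit 11) (C.cons (nat_lit 2182) (C.miq (nat_lit 1093142454) (nat_lit 317953707441016882568890593)) (C.cons (nat_lit 2180) (C.node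 (nat_lit 1) (nat_lit 7) (nat_lit 11) (C.cons (nat_lit 2434) (C.miq (nat_lit 2709653430) (nat_lit 317967653179537689321670881)) (C.cons (nat_lit 2178) (C.node (nat_lit 7) (nat_lit 8) (nat_lit 11) (C.cons (nat_lit 2432) (C.node (nat_lit 3) (nat_lit 6) (nat_lit 11) (C.cons (nat_lit 2632) (C.node (nat_lit 1) (nat_lit 2) (nat_lit 11) (C.cons (nat_lit 2054) (C.node (nat_lit 1) (nat_lit 9) (nat_lit 11) C.nil) C.nil)) (C.cons (nat_lit 2120) (C.node (nat_lit 6) (nat_lit 9) (nat_lit 11) C.nil) C.nil))) C.nil)) C.nil))) C.nil))) (C.cons (nat_lit 2116) (C.node (nat_lit 6) (nat_lit 8) (nat_lit 11) (C.cons (nat_lit 2376) (C.miq (nat_lit 389759110) (nat_lit 2640333281932836004709269841)) (C.cons (nat_lit 2368) (C.node (nat_lit 3) (nat_lit 6) (nat_lit 11) (C.cons (nat_lit 2632) (C.node (nat_lit 2) (nat_lit 8) (nat_lit 11) (C.cons (nat_lit 2436) (C.node (nat_lit 1) (nat_lit 7) (nat_lit 11) (C.cons (nat_lit 2178) (C.node (nat_lit 1) (nat_lit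 2) (nat_lit 11) (C.cons (nat_lit 2054) (C.node (nat_lit 1) (nat_lit 9) (nat_lit 11) C.nil) C.nil)) C.nil)) (C.cons (nat_lit 2340) (C.miq (nat_lit 558203051) (nat_lit 60489456435896887572172545)) (C.cons (nat_lit 2308) (C.node (nat_lit 2) (nat_lit 7) (nat_lit 11) (C.cons (nat_lit 2182) (C.node (nat_lit 7) (nat_lit 8) (nat_lit 11) (C.cons (nat_lit 2432)
  (C.node (nat_lit 1) (nat_lit 9) (nat_lit 11) C.nil) C.nil)) (C.cons (nat_lit 2180) (C.node (nat_lit 1) (nat_lit 7) (nat_lit 11) (C.cons (nat_lit 2434) (C.node (nat_lit 1) (nat_lit 3) (nat_lit 11) C.nil) C.nil)) C.nil))) C.nil)))) (C.cons (nat_lit 2120) (C.node (nat_lit 6) (nat_lit 9) (nat_lit 11) (C.cons (nat_lit 2624) (C.node (nat_lit 3) (nat_lit 9) (nat_lit 11) (C.cons (nat_lit 2600) (C.miq (nat_lit 826642603) (nat_lit 60494252662539546000363265)) C.nil)) C.nil)) C.nil))) C.nil))) C.nil)))) (List.cons (C.node (nat_lit 1) (nat_lit 2) (nat_lit 4) (C.cons (nat_lit 534)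 (C.miq (nat_lit 1612822420) (nat_lit 317986782763319866644892304)) (C.cons (nat_lit 54) (C.node (nat_lit 1) (nat_lit 3) (nat_lit 4) (C.cons (nat_lit 282) (C.miq (nat_lit 460539400) (nat_lit 2640299192619730366531961169)) (C.cons (nat_lit 26) (C.node (nat_lit 1) (nat_lit 4) (nat_lit 8) (C.cons (nat_lit 786) (C.node (nat_lit 4) (nat_lit 9) (nat_lit 10) (C.cons (nat_lit 1616) (C.miq (nat_lit 1678944640) (nat_lit 65302157005329478200004353)) (C.cons (nat_lit 1560) (C.miq (nat_lit 1402669639) (nat_lit 3104563434519424812979324051)) (C.cons (nat_lit 1556) (C.miq (nat_lit 699835504) (nat_lit 3172241513398046196471235731)) (C.cons (nat_lit 1552) (C.node (nat_lit 2) (nat_lit 4) (nat_lit 9) (C.cons (nat_lit 596) (C.node (nat_lit 3) (nat_lit 4) (nat_lit 9) (C.cons (nat_lit 536) (C.node (nat_lit 2) (nat_lit 4) (nat_lit 7) (C.cons (nat_lit 404) (C.node (nat_lit 2) (nat_lit 4) (nat_lit 10) (C.cons (nat_lit 1044) (C.node (nat_lit 2)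 (nat_lit 8) (nat_lit 11) (C.cons (nat_lit 2340) (C.miq (nat_lit 2874411041) (nat_lit 2533930120130728499841728775)) (C.cons (nat_lit 2308) (C.node (nat_lit 4) (nat_lit 5) (nat_lit 7) (C.cons (nat_lit 184) (C.miq (nat_lit 2839743349) (nat_lit 648003886177036737464240353)) (C.cons (nat_lit 176) (C.node (nat_lit 3) (nat_lit 4) (nat_lit 7) (C.cons (nat_lit 152) (C.node (nat_lit 4) (nat_lit 6) (nat_lit 7) C.nil) C.nil)) C.nil))) C.nil))) C.nil)) (C.cons (nat_lit 148) (C.node (nat_lit 2) (nat_lit 4) (nat_lit 8) (C.cons (nat_lit 1300) (C.node (nat_lit 3) (nat_lit 4) (nat_lit 10) (C.cons (nat_lit 1048) (C.node (nat_lit 3) (nat_lit 8) (nat_lit 10) (C.cons (nat_lit 1290) (C.miq (nat_lit 826648720) (nat_lit 65301640404734571944414977)) (C.cons (nat_lit 1288) (C.node (nat_lit 6) (nat_lit 7) (nat_lit 10) (C.cons (nat_lit 1728) (C.miq (nat_lit 1648861369) (nat_lit 178952897584385558330740481)) (C.cons (nat_lit 1472) (C.miq (nat_lit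 728252538) (nat_lit 2862760322199370997306492051)) (C.cons (nat_lit 1216) (C.node (nat_lit 2) (nat_lit 8) (nat_lit 9) (C.cons (nat_lit 812) (C.miq (nat_lit 337840777) (nat_lit 2510948575316348127199104769)) (C.cons (nat_lit 804) (C.miq (nat_lit 2840856609) (nat_lit 678228987022266119597981959)) (C.cons (nat_lit 780) (C.miq (nat_lit 337840777) (nat_lit 2510948575316348127197007617)) (C.cons (nat_lit 772) (C.node (nat_lit 1) (nat_lit 3) (nat_lit 10) (C.cons (nat_lit 1038) (C.node (nat_lit 2) (nat_lit 3) (nat_lit 9) (C.cons (nat_lit 556) (C.miq (nat_lit 311731024) (nat_lit 720541389919802715874067497)) (C.cons (nat_lit 524) (C.node (nat_lit 2) (nat_lit 10) (nat_lit 11) (C.cons (nat_lit 3108) (C.miq (nat_lit 1380366976) (nat_lit 720561718814428341031997185)) (C.cons (nat_lit 3076) (C.node (nat_lit 3) (nat_lit 4) (nat_lit 8) (C.cons (nat_lit 280) (C.node (nat_lit 4) (nat_lit 5) (nat_lit 8) C.nil) C.nil)) C.nil))) C.nil)))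 (C.cons (nat_lit 1034) (C.node (nat_lit 3) (nat_lit 4) (nat_lit 8) (C.cons (nat_lit 312) (C.node (nat_lit 3) (nat_lit 5) (nat_lit 11) C.nil) (C.cons (nat_lit 280) (C.node (nat_lit 3) (nat_lit 4) (nat_lit 5) (C.cons (nat_lit 184) (C.miq (nat_lit 2486875984) (nat_lit 1267025113661227620849223905)) (C.cons (nat_lit 120) (C.miq (nat_lit 2739517008) (nat_lit 648055094142386198241413345)) (C.cons (nat_lit 56) (C.node (nat_lit 3) (nat_lit 4) (nat_lit 6) C.nil) C.nil)))) C.nil))) C.nil))) C.nil))))) C.nil)))) C.nil))) C.nil)) (C.cons (nat_lit 276) (C.node (nat_lit 2) (nat_lit 4) (nat_lit 10) (C.cons (nat_lit 1044)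
  (C.node (nat_lit 3) (nat_lit 4) (nat_lit 10) (C.cons (nat_lit 1304) (C.node (nat_lit 4) (nat_lit 5) (nat_lit 10) (C.cons (nat_lit 1136) (C.miq (nat_lit 1984431523) (nat_lit 407415251420348500961395753)) (C.cons (nat_lit 1072) (C.node (nat_lit 4) (nat_lit 6) (nat_lit 10) C.nil) C.nil))) (C.cons (nat_lit 1048) (C.node (nat_lit 1) (nat_lit 7) (nat_lit 11) C.nil) C.nil))) C.nil)) C.nil))) C.nil))) C.nil)) (C.cons (nat_lit 532) (C.node (nat_lit 2) (nat_lit 4) (nat_lit 6) (C.cons (nat_lit 212) (C.miq (nat_lit 2839677814) (nat_lit 643168699407412284634695905)) (C.cons (nat_lit 84) (C.node (nat_lit 2) (nat_lit 4) (nat_lit 7) (C.cons (nat_lit 404) (C.node (nat_lit 2) (nat_lit 4) (nat_lit 10) (C.cons (nat_lit 1044) (C.node (nat_lit 2) (nat_lit 8) (nat_lit 11) (C.cons (nat_lit 2340) (C.miq (nat_lit 2874411041) (nat_lit 2533930120130728499841728775)) (C.cons (nat_lit 2308) (C.node (nat_lit 4) (nat_lit 5) (nat_lit 7) (C.cons (nat_lit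 184) (C.miq (nat_lit 982798519) (nat_lit 1876256266542601389044926689)) (C.cons (nat_lit 176) (C.node (nat_lit 3) (nat_lit 4) (nat_lit 7) (C.cons (nat_lit 216) (C.node (nat_lit 3) (nat_lit 4) (nat_lit 9) C.nil) C.nil)) C.nil))) C.nil))) C.nil)) (C.cons (nat_lit 148) (C.node (nat_lit 2) (nat_lit 4) (nat_lit 8) (C.cons (nat_lit 1300) (C.node (nat_lit 3) (nat_lit 4) (nat_lit 10) (C.cons (nat_lit 1048) (C.node (nat_lit 3) (nat_lit 8) (nat_lit 10) (C.cons (nat_lit 1290) (C.miq (nat_lit 826648720) (nat_lit 65301640404734571944414977)) (C.cons (nat_lit 1288) (C.node (nat_lit 6) (nat_lit 7) (nat_lit 10) (C.cons (nat_lit 1728) (C.miq (nat_lit 1648861369) (nat_lit 178952897584385558330740481)) (C.cons (nat_lit 1472) (C.miq (nat_lit 728252538) (nat_lit 2862760322199370997306492051)) (C.cons (nat_lit 1216) (C.node (nat_lit 2) (nat_lit 8) (nat_lit 9) (C.cons (nat_lit 876) (C.miq (nat_lit 337840777) (nat_lit 2510948575316348127203299073))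 (C.cons (nat_lit 868) (C.miq (nat_lit 2840856609) (nat_lit 678228987022266394475888903)) (C.cons (nat_lit 844) (C.miq (nat_lit 337840777) (nat_lit 2510948575316348127201201921)) (C.cons (nat_lit 836) (C.miq (nat_lit 1766467600) (nat_lit 1876273034568493500135047431)) (C.cons (nat_lit 812) (C.miq (nat_lit 337840777) (nat_lit 2510948575316348127199104769)) (C.cons (nat_lit 804) (C.miq (nat_lit 2840856609) (nat_lit 678228987022266119597981959)) (C.cons (nat_lit 780) (C.miq (nat_lit 337840777) (nat_lit 2510948575316348127197007617)) (C.cons (nat_lit 772) (C.node (nat_lit 1) (nat_lit 3) (nat_lit 10) (C.cons (nat_lit 1038) (C.node (nat_lit 2) (nat_lit 10) (nat_lit 11) (C.cons (nat_lit 3108) (C.miq (nat_lit 1380366976) (nat_lit 101591699171738203582435073)) (C.cons (nat_lit 3076) (C.node (nat_lit 3) (nat_lit 4) (nat_lit 8) (C.cons (nat_lit 312) (C.node (nat_lit 4) (nat_lit 5) (nat_lit 7) C.nil) C.nil)) C.nil))) (C.cons (nat_lit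 1034) (C.node (nat_lit 3) (nat_lit 4) (nat_lit 8) (C.cons (nat_lit 312) (C.node (nat_lit 4) (nat_lit 5) (nat_lit 7) (C.cons (nat_lit 176) (C.node (nat_lit 4) (nat_lit 7) (nat_lit 8) C.nil) C.nil)) (C.cons (nat_lit 280) (C.node (nat_lit 1) (nat_lit 7) (nat_lit 11) C.nil) C.nil))) C.nil))) C.nil))))))))) C.nil)))) C.nil))) C.nil)) (C.cons (nat_lit 276) (C.node (nat_lit 2) (nat_lit 4) (nat_lit 10) (C.cons (nat_lit 1044) (C.node (nat_lit 1) (nat_lit 7) (nat_lit 11) C.nil) C.nil)) C.nil))) C.nil))) C.nil))) C.nil))) C.nil))))) (C.cons (nat_lit 274) (C.node (nat_lit 1) (nat_lit 4) (nat_lit 9) (C.cons (nat_lit 530) (C.node (nat_lit 2) (nat_lit 4) (nat_lit 6) (C.cons (nat_lit 596) (C.node (nat_lit 4) (nat_lit 9) (nat_lit 10) (C.cons (nat_lit 1560) (C.miq (nat_lit 1402669639) (nat_lit 3104563434519424812979324051)) (C.cons (nat_lit 1552) (C.node (nat_lit 2) (nat_lit 4) (nat_lit 7) (C.cons (nat_lit 404) (C.node (nat_lit 2) (nat_lit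 4) (nat_lit 10) (C.cons (nat_lit 1044) (C.node (nat_lit 2) (nat_lit 8) (nat_lit 11) (C.cons (nat_lit 2340) (C.miq (nat_lit 2874411041) (nat_lit 2533930120130728499841728775)) (C.cons (nat_lit 2308) (C.node (nat_lit 4) (nat_lit 5) (nat_lit 7)
  (C.cons (nat_lit 184) (C.miq (nat_lit 982798519) (nat_lit 1876256266542601389044926689)) (C.cons (nat_lit 176) (C.node (nat_lit 3) (nat_lit 4) (nat_lit 7) (C.cons (nat_lit 216) (C.node (nat_lit 3) (nat_lit 4) (nat_lit 5) C.nil) C.nil)) C.nil))) C.nil))) C.nil)) (C.cons (nat_lit 148) (C.node (nat_lit 2) (nat_lit 4) (nat_lit 8) (C.cons (nat_lit 1300) (C.node (nat_lit 3) (nat_lit 4) (nat_lit 10) (C.cons (nat_lit 1048) (C.node (nat_lit 6) (nat_lit 7) (nat_lit 10) (C.cons (nat_lit 1728) (C.miq (nat_lit 1648861369) (nat_lit 178952897584385558330740481)) (C.cons (nat_lit 1472) (C.miq (nat_lit 728252538) (nat_lit 2862760322199370997306492051)) (C.cons (nat_lit 1216) (C.node (nat_lit 2)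 (nat_lit 8) (nat_lit 9) (C.cons (nat_lit 812) (C.miq (nat_lit 337840777) (nat_lit 2510948575316348127199104769)) (C.cons (nat_lit 804) (C.miq (nat_lit 2840856609) (nat_lit 678228987022266119597981959)) (C.cons (nat_lit 780) (C.miq (nat_lit 337840777) (nat_lit 2510948575316348127197007617)) (C.cons (nat_lit 772) (C.node (nat_lit 3) (nat_lit 4) (nat_lit 9) (C.cons (nat_lit 792) (C.node (nat_lit 4) (nat_lit 6) (nat_lit 7) (C.cons (nat_lit 216) (C.miq (nat_lit 2490073968) (nat_lit 2575082849946076369928651145)) (C.cons (nat_lit 208) (C.node (nat_lit 1) (nat_lit 7) (nat_lit 11) C.nil) C.nil))) (C.cons (nat_lit 536) (C.node (nat_lit 4) (nat_lit 8) (nat_lit 9) C.nil) C.nil))) C.nil))))) C.nil)))) C.nil)) (C.cons (nat_lit 276) (C.node (nat_lit 2) (nat_lit 4) (nat_lit 10) (C.cons (nat_lit 1044) (C.node (nat_lit 1) (nat_lit 7) (nat_lit 11) C.nil) C.nil)) C.nil))) C.nil))) C.nil))) (C.cons (nat_lit 212) (C.miq (nat_lit 2873493874)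 (nat_lit 2575032159151589705815163525)) (C.cons (nat_lit 84) (C.node (nat_lit 2) (nat_lit 4) (nat_lit 7) (C.cons (nat_lit 404) (C.node (nat_lit 2) (nat_lit 4) (nat_lit 9) (C.cons (nat_lit 1556) (C.miq (nat_lit 1948694944) (nat_lit 101591699058023412552503041)) (C.cons (nat_lit 532) (C.node (nat_lit 2) (nat_lit 4) (nat_lit 10) (C.cons (nat_lit 1044) (C.node (nat_lit 2) (nat_lit 8) (nat_lit 11) (C.cons (nat_lit 2340) (C.miq (nat_lit 2874411041) (nat_lit 2533930120130728499841728775)) (C.cons (nat_lit 2308) (C.node (nat_lit 4) (nat_lit 5) (nat_lit 7) (C.cons (nat_lit 184) (C.miq (nat_lit 2876442949) (nat_lit 2640313636901945617380016689)) C.nil)) C.nil))) C.nil)) C.nil))) (C.cons (nat_lit 148) (C.node (nat_lit 4) (nat_lit 6) (nat_lit 7) (C.cons (nat_lit 216) (C.node (nat_lit 3) (nat_lit 4) (nat_lit 9) (C.cons (nat_lit 1560) (C.miq (nat_lit 1446251433) (nat_lit 261138326299991378337730305)) (C.cons (nat_lit 792) (C.miq (nat_lit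 2490073968) (nat_lit 2575082849946076369928651145)) (C.cons (nat_lit 536) (C.node (nat_lit 3) (nat_lit 4) (nat_lit 10) (C.cons (nat_lit 1304) (C.miq (nat_lit 2204869744) (nat_lit 3800933631179425541156570259)) (C.cons (nat_lit 1048) (C.node (nat_lit 1) (nat_lit 7) (nat_lit 11) C.nil) C.nil))) C.nil)))) (C.cons (nat_lit 208) (C.node (nat_lit 3) (nat_lit 4) (nat_lit 7) (C.cons (nat_lit 184) (C.miq (nat_lit 2876442949) (nat_lit 2640313636901945617380016689)) (C.cons (nat_lit 152) (C.node (nat_lit 4) (nat_lit 5) (nat_lit 7) (C.cons (nat_lit 432) (C.node (nat_lit 1) (nat_lit 7) (nat_lit 11) C.nil) (C.cons (nat_lit 176) (C.node (nat_lit 4) (nat_lit 7) (nat_lit 8) (C.cons (nat_lit 400) (C.node (nat_lit 2) (nat_lit 4) (nat_lit 8) C.nil) C.nil)) C.nil))) C.nil))) C.nil))) C.nil))) C.nil)))) C.nil)) C.nil))) C.nil))) (C.cons (nat_lit 22) (C.node (nat_lit 1) (nat_lit 4) (nat_lit 9) (C.cons (nat_lit 786) (C.node (nat_lit 4) (nat_lit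 9) (nat_lit 10) (C.cons (nat_lit 1616) (C.miq (nat_lit 1678944640) (nat_lit 26616530777661344609406721)) (C.cons (nat_lit 1560) (C.miq (nat_lit 1402669639) (nat_lit 3104563434519424812979324051)) (C.cons (nat_lit 1556) (C.miq (nat_lit 699835504) (nat_lit 3172241513398046196471235731)) (C.cons (nat_lit 1552) (C.node (nat_lit 1) (nat_lit 3) (nat_lit 4) (C.cons (nat_lit 58) (C.node (nat_lit 1) (nat_lit 3) (nat_lit 11) (C.cons (nat_lit 2314)
  (C.miq (nat_lit 1501642931) (nat_lit 950216764286178765528762397)) (C.cons (nat_lit 2058) (C.node (nat_lit 3) (nat_lit 4) (nat_lit 8) (C.cons (nat_lit 1304) (C.miq (nat_lit 329794825) (nat_lit 1576453767934648502565536305)) (C.cons (nat_lit 280) (C.node (nat_lit 3) (nat_lit 4) (nat_lit 10) (C.cons (nat_lit 1048) (C.node (nat_lit 4) (nat_lit 6) (nat_lit 10) (C.cons (nat_lit 1136) (C.miq (nat_lit 2220527920) (nat_lit 1373410585247445441726448139)) (C.cons (nat_lit 1104) (C.node (nat_lit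 1) (nat_lit 3) (nat_lit 8) (C.cons (nat_lit 1290) (C.node (nat_lit 3) (nat_lit 5) (nat_lit 11) (C.cons (nat_lit 2344) (C.miq (nat_lit 1966148490) (nat_lit 70139299314761495569108737)) (C.cons (nat_lit 2088) (C.node (nat_lit 3) (nat_lit 8) (nat_lit 11) C.nil) C.nil))) (C.cons (nat_lit 330) (C.miq (nat_lit 2819819845) (nat_lit 398965167336414889719235121)) (C.cons (nat_lit 266) (C.miq (nat_lit 2819819845) (nat_lit 321593914881078622538039857)) C.nil)))) C.nil))) C.nil)) C.nil))) C.nil))) (C.cons (nat_lit 26) (C.node (nat_lit 1) (nat_lit 4) (nat_lit 5) (C.cons (nat_lit 50) (C.node (nat_lit 2) (nat_lit 4) (nat_lit 9) (C.cons (nat_lit 596) (C.node (nat_lit 3) (nat_lit 4) (nat_lit 9) (C.cons (nat_lit 536) (C.node (nat_lit 3) (nat_lit 4) (nat_lit 10) (C.cons (nat_lit 1304) (C.node (nat_lit 4) (nat_lit 6) (nat_lit 7) (C.cons (nat_lit 216) (C.miq (nat_lit 2204869744) (nat_lit 3800933631179425541156570259)) (C.cons (nat_lit 208)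 (C.node (nat_lit 3) (nat_lit 4) (nat_lit 6) (C.cons (nat_lit 120) (C.miq (nat_lit 2739517008) (nat_lit 648055094142386198241413345)) (C.cons (nat_lit 88) (C.node (nat_lit 1) (nat_lit 7) (nat_lit 11) C.nil) C.nil))) C.nil))) (C.cons (nat_lit 1048) (C.node (nat_lit 3) (nat_lit 4) (nat_lit 8) (C.cons (nat_lit 312) (C.node (nat_lit 7) (nat_lit 8) (nat_lit 9) (C.cons (nat_lit 960) (C.miq (nat_lit 946079634) (nat_lit 407446315208194915669639813)) (C.cons (nat_lit 928) (C.miq (nat_lit 693372803) (nat_lit 678245698872803407477342601)) (C.cons (nat_lit 896) (C.node (nat_lit 3) (nat_lit 4) (nat_lit 6) (C.cons (nat_lit 216) (C.node (nat_lit 6) (nat_lit 7) (nat_lit 9) (C.cons (nat_lit 1728) (C.miq (nat_lit 593955753) (nat_lit 261139875771324474515787521)) (C.cons (nat_lit 706) (C.miq (nat_lit 605621095) (nat_lit 950227592951658748934490337)) (C.cons (nat_lit 704) (C.node (nat_lit 6) (nat_lit 7) (nat_lit 10) (C.cons (nat_lit 1472)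 (C.miq (nat_lit 2252056384) (nat_lit 3800933631226713337231115411)) (C.cons (nat_lit 1216) (C.node (nat_lit 1) (nat_lit 7) (nat_lit 9) (C.cons (nat_lit 674) (C.node (nat_lit 1) (nat_lit 6) (nat_lit 7) (C.cons (nat_lit 450) (C.miq (nat_lit 873991015) (nat_lit 950222944372152174110705889)) (C.cons (nat_lit 198) (C.miq (nat_lit 2255568985) (nat_lit 239381811519405341955719729)) (C.cons (nat_lit 194) (C.miq (nat_lit 2255568985) (nat_lit 234546108240946825256895025)) C.nil)))) (C.cons (nat_lit 642) (C.node (nat_lit 6) (nat_lit 8) (nat_lit 9) (C.cons (nat_lit 864) (C.miq (nat_lit 1494706240) (nat_lit 776172305885069227771232593)) (C.cons (nat_lit 840) (C.miq (nat_lit 2841905207) (nat_lit 720541390708778295342137737)) (C.cons (nat_lit 832) (C.node (nat_lit 4) (nat_lit 5) (nat_lit 6) C.nil) C.nil)))) C.nil))) C.nil))) C.nil)))) (C.cons (nat_lit 88) (C.node (nat_lit 3) (nat_lit 4) (nat_lit 7) C.nil) C.nil))) C.nil)))) (C.cons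 (nat_lit 280) (C.node (nat_lit 1) (nat_lit 7) (nat_lit 11) C.nil) C.nil))) C.nil))) C.nil)) (C.cons (nat_lit 532) (C.node (nat_lit 3) (nat_lit 4) (nat_lit 9) (C.cons (nat_lit 600) (C.node (nat_lit 3) (nat_lit 4) (nat_lit 7) (C.cons (nat_lit 184) (C.miq (nat_lit 2839743349) (nat_lit 725375138632373004645435617)) (C.cons (nat_lit 152) (C.node (nat_lit 4) (nat_lit 6) (nat_lit 7) (C.cons (nat_lit 212) (C.miq (nat_lit 2839677814) (nat_lit 643168699407412284634695905)) (C.cons (nat_lit 208) (C.node (nat_lit 1) (nat_lit 7) (nat_lit 11) C.nil) C.nil))) C.nil))) (C.cons (nat_lit 536) (C.node (nat_lit 4) (nat_lit 6) (nat_lit 9) (C.cons (nat_lit 592) (C.node (nat_lit 3) (nat_lit 4) (nat_lit 10)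
  (C.cons (nat_lit 1304) (C.node (nat_lit 1) (nat_lit 7) (nat_lit 11) C.nil) (C.cons (nat_lit 1048) (C.node (nat_lit 3) (nat_lit 4) (nat_lit 8) (C.cons (nat_lit 280) (C.node (nat_lit 4) (nat_lit 6) (nat_lit 10) C.nil) C.nil)) C.nil))) C.nil)) C.nil))) C.nil))) C.nil)) C.nil))) C.nil))))) (C.cons (nat_lit 530) (C.node (nat_lit 3) (nat_lit 4) (nat_lit 7) (C.cons (nat_lit 216) (C.node (nat_lit 3) (nat_lit 4) (nat_lit 9) (C.cons (nat_lit 1560) (C.miq (nat_lit 1446251433) (nat_lit 261138326299991378337730305)) (C.cons (nat_lit 792) (C.miq (nat_lit 2490073968) (nat_lit 2575082849946076369928651145)) (C.cons (nat_lit 536) (C.node (nat_lit 3) (nat_lit 4) (nat_lit 10) (C.cons (nat_lit 1304) (C.miq (nat_lit 2204869744) (nat_lit 3800933631179425541156570259)) (C.cons (nat_lit 1048) (C.node (nat_lit 6) (nat_lit 7) (nat_lit 10) (C.cons (nat_lit 1728) (C.miq (nat_lit 593955753) (nat_lit 261139875771324474515787521)) (C.cons (nat_lit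 1472) (C.miq (nat_lit 2252056384) (nat_lit 3800933631226713337231115411)) (C.cons (nat_lit 1216) (C.node (nat_lit 6) (nat_lit 7) (nat_lit 9) (C.cons (nat_lit 962) (C.miq (nat_lit 611388312) (nat_lit 1415656986847057289475657473)) (C.cons (nat_lit 960) (C.miq (nat_lit 2521532208) (nat_lit 2575082849993364166003196297)) (C.cons (nat_lit 706) (C.miq (nat_lit 605621095) (nat_lit 640742583130313680209709281)) (C.cons (nat_lit 704) (C.node (nat_lit 4) (nat_lit 8) (nat_lit 9) (C.cons (nat_lit 788) (C.node (nat_lit 2) (nat_lit 4) (nat_lit 6) (C.cons (nat_lit 116) (C.miq (nat_lit 2188088400) (nat_lit 2558157888470345232079192625)) (C.cons (nat_lit 84) (C.node (nat_lit 2) (nat_lit 4) (nat_lit 7) (C.cons (nat_lit 180) (C.miq (nat_lit 2220593776) (nat_lit 2533979372078052923462976133)) (C.cons (nat_lit 148) (C.node (nat_lit 4) (nat_lit 5) (nat_lit 6) (C.cons (nat_lit 1136) (C.node (nat_lit 4) (nat_lit 6) (nat_lit 9) C.nil) C.nil))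 C.nil))) C.nil))) (C.cons (nat_lit 784) (C.node (nat_lit 1) (nat_lit 6) (nat_lit 7) (C.cons (nat_lit 450) (C.miq (nat_lit 2259906880) (nat_lit 3800870026565487981066257555)) (C.cons (nat_lit 198) (C.node (nat_lit 6) (nat_lit 7) (nat_lit 8) (C.cons (nat_lit 448) (C.node (nat_lit 1) (nat_lit 7) (nat_lit 11) (C.cons (nat_lit 2434) (C.miq (nat_lit 2819754870) (nat_lit 317967653931075876996647137)) (C.cons (nat_lit 2178) (C.node (nat_lit 6) (nat_lit 8) (nat_lit 10) (C.cons (nat_lit 1378) (C.miq (nat_lit 907197056) (nat_lit 239405627056100916591005441)) (C.cons (nat_lit 1376) (C.node (nat_lit 4) (nat_lit 5) (nat_lit 6) (C.cons (nat_lit 116) (C.miq (nat_lit 2236327456) (nat_lit 2533979372243559934878090309)) C.nil)) (C.cons (nat_lit 1346) (C.miq (nat_lit 907197056) (nat_lit 239405627056100779152051969)) C.nil)))) C.nil))) C.nil)) (C.cons (nat_lit 194) (C.node (nat_lit 2) (nat_lit 6) (nat_lit 7) (C.cons (nat_lit 452) (C.node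 (nat_lit 2) (nat_lit 4) (nat_lit 7) (C.cons (nat_lit 180) (C.node (nat_lit 4) (nat_lit 7) (nat_lit 8) (C.cons (nat_lit 400) (C.node (nat_lit 2) (nat_lit 4) (nat_lit 6) (C.cons (nat_lit 596) (C.node (nat_lit 4) (nat_lit 9) (nat_lit 10) C.nil) C.nil)) C.nil)) (C.cons (nat_lit 148) (C.node (nat_lit 2) (nat_lit 7) (nat_lit 11) (C.cons (nat_lit 2182) (C.node (nat_lit 7) (nat_lit 8) (nat_lit 11) (C.cons (nat_lit 2432) (C.node (nat_lit 2) (nat_lit 9) (nat_lit 11) (C.cons (nat_lit 2596) (C.miq (nat_lit 2484228219) (nat_lit 26644255937049683323914465)) (C.cons (nat_lit 2564) (C.node (nat_lit 1) (nat_lit 9) (nat_lit 11) (C.cons (nat_lit 2594) (C.node (nat_lit 1) (nat_lit 10) (nat_lit 11) C.nil) C.nil)) C.nil))) C.nil)) (C.cons (nat_lit 2180) (C.node (nat_lit 1) (nat_lit 7) (nat_lit 11) (C.cons (nat_lit 2434) (C.node (nat_lit 1) (nat_lit 2) (nat_lit 6) (C.cons (nat_lit 614) (C.miq (nat_lit 929630241) (nat_lit 851093424766471096301388039))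 (C.cons (nat_lit 582) (C.miq (nat_lit 929630241) (nat_lit 851093424766471096299290887)) (C.cons (nat_lit 110) (C.miq (nat_lit 831218186) (nat_lit 2942583441536338531331408965)) (C.cons (nat_lit 102) (C.node (nat_lit 1) (nat_lit 3) (nat_lit 6)
  (C.cons (nat_lit 330) (C.miq (nat_lit 2455832451) (nat_lit 123320081429396027240743305)) C.nil)) (C.cons (nat_lit 78) (C.miq (nat_lit 831218186) (nat_lit 2942583441527331332076667973)) C.nil)))))) (C.cons (nat_lit 2178) (C.node (nat_lit 7) (nat_lit 8) (nat_lit 11) C.nil) C.nil))) C.nil))) C.nil))) (C.cons (nat_lit 196) (C.node (nat_lit 6) (nat_lit 7) (nat_lit 8) (C.cons (nat_lit 448) (C.node (nat_lit 1) (nat_lit 7) (nat_lit 11) (C.cons (nat_lit 2434) (C.node (nat_lit 2) (nat_lit 7) (nat_lit 11) C.nil) (C.cons (nat_lit 2182) (C.node (nat_lit 7) (nat_lit 8) (nat_lit 11) C.nil) C.nil))) C.nil)) C.nil))) C.nil)))) C.nil))) C.nil))))) C.nil)))) C.nil))) C.nil)))) (C.cons (nat_lit 184)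 (C.miq (nat_lit 2876442949) (nat_lit 2640313636901945617380016689)) (C.cons (nat_lit 152) (C.node (nat_lit 4) (nat_lit 6) (nat_lit 7) (C.cons (nat_lit 212) (C.miq (nat_lit 2873493874) (nat_lit 2575032159151589705815163525)) (C.cons (nat_lit 208) (C.node (nat_lit 3) (nat_lit 4) (nat_lit 6) (C.cons (nat_lit 600) (C.node (nat_lit 4) (nat_lit 9) (nat_lit 10) (C.cons (nat_lit 1556) (C.miq (nat_lit 645177529) (nat_lit 251485273921283472583823105)) (C.cons (nat_lit 1552) (C.node (nat_lit 2) (nat_lit 4) (nat_lit 6) (C.cons (nat_lit 116) (C.node (nat_lit 4) (nat_lit 6) (nat_lit 10) (C.cons (nat_lit 1104) (C.node (nat_lit 2) (nat_lit 4) (nat_lit 9) (C.cons (nat_lit 788) (C.miq (nat_lit 2188088400) (nat_lit 2558157888470345232079192625)) (C.cons (nat_lit 532) (C.node (nat_lit 4) (nat_lit 8) (nat_lit 9) C.nil) C.nil))) C.nil)) (C.cons (nat_lit 84) (C.node (nat_lit 2) (nat_lit 4) (nat_lit 9) (C.cons (nat_lit 788) (C.node (nat_lit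 2) (nat_lit 4) (nat_lit 7) (C.cons (nat_lit 180) (C.miq (nat_lit 2220593776) (nat_lit 2533979372078052923462976133)) (C.cons (nat_lit 148) (C.node (nat_lit 1) (nat_lit 7) (nat_lit 11) C.nil) C.nil))) (C.cons (nat_lit 532) (C.node (nat_lit 4) (nat_lit 8) (nat_lit 9) (C.cons (nat_lit 784) (C.node (nat_lit 3) (nat_lit 4) (nat_lit 10) (C.cons (nat_lit 1048) (C.node (nat_lit 4) (nat_lit 5) (nat_lit 6) C.nil) C.nil)) C.nil)) C.nil))) C.nil))) C.nil))) (C.cons (nat_lit 120) (C.miq (nat_lit 2607024693) (nat_lit 2575022345483744382113285161)) (C.cons (nat_lit 88) (C.node (nat_lit 3) (nat_lit 4) (nat_lit 9) (C.cons (nat_lit 1560) (C.miq (nat_lit 1446251433) (nat_lit 106395821389318843975339777)) (C.cons (nat_lit 792) (C.node (nat_lit 3) (nat_lit 4) (nat_lit 10) (C.cons (nat_lit 1048) (C.node (nat_lit 7) (nat_lit 8) (nat_lit 9) (C.cons (nat_lit 962) (C.miq (nat_lit 611388312) (nat_lit 1415656986847057289475657473)) (C.cons (nat_lit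 960) (C.miq (nat_lit 1766553648) (nat_lit 3268977345957456209608769929)) (C.cons (nat_lit 930) (C.miq (nat_lit 611388312) (nat_lit 1415656986847057289473560321)) (C.cons (nat_lit 928) (C.miq (nat_lit 1498118192) (nat_lit 3268977345948449010354028937)) (C.cons (nat_lit 898) (C.miq (nat_lit 611388312) (nat_lit 1415656986847057289471463169)) (C.cons (nat_lit 896) (C.node (nat_lit 1) (nat_lit 3) (nat_lit 4) (C.cons (nat_lit 58) (C.node (nat_lit 1) (nat_lit 4) (nat_lit 8) (C.cons (nat_lit 274) (C.node (nat_lit 1) (nat_lit 3) (nat_lit 11) C.nil) C.nil)) (C.cons (nat_lit 26) (C.node (nat_lit 3) (nat_lit 4) (nat_lit 5) (C.cons (nat_lit 56) (C.node (nat_lit 1) (nat_lit 4) (nat_lit 5) (C.cons (nat_lit 50) (C.node (nat_lit 1) (nat_lit 4) (nat_lit 8) C.nil) C.nil)) C.nil)) C.nil))) C.nil))))))) C.nil)) (C.cons (nat_lit 536) (C.node (nat_lit 3) (nat_lit 4) (nat_lit 10) (C.cons (nat_lit 1304) (C.node (nat_lit 6) (nat_lit 7) (nat_lit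 10) (C.cons (nat_lit 1728) (C.miq (nat_lit 611715994) (nat_lit 251476733355750573211651841)) (C.cons (nat_lit 1472) (C.miq (nat_lit 996687994) (nat_lit 2862760395986347292144698515)) (C.cons (nat_lit 1216) (C.node (nat_lit 5) (nat_lit 6) (nat_lit 10) (C.cons (nat_lit 1634) (C.miq (nat_lit 1412862138) (nat_lit 106415614263820191569284865)) (C.cons (nat_lit 1632) (C.miq (nat_lit 1412862138) (nat_lit 106415577370332044150181633)) (C.cons (nat_lit 1378)
  (C.miq (nat_lit 874122085) (nat_lit 1415671781135801939252087009)) (C.cons (nat_lit 1376) (C.miq (nat_lit 1749768752) (nat_lit 2804749831342534395856487465)) (C.cons (nat_lit 1136) (C.miq (nat_lit 1984431523) (nat_lit 407415251420348500961395753)) (C.cons (nat_lit 1122) (C.miq (nat_lit 874122085) (nat_lit 1415671781135801939235309793)) (C.cons (nat_lit 1120) (C.node (nat_lit 1) (nat_lit 3) (nat_lit 4) (C.cons (nat_lit 58) (C.node (nat_lit 1) (nat_lit 4) (nat_lit 8) (C.cons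 (nat_lit 274) (C.node (nat_lit 1) (nat_lit 3) (nat_lit 11) C.nil) C.nil)) (C.cons (nat_lit 26) (C.node (nat_lit 3) (nat_lit 4) (nat_lit 5) (C.cons (nat_lit 56) (C.node (nat_lit 1) (nat_lit 4) (nat_lit 5) (C.cons (nat_lit 50) (C.node (nat_lit 1) (nat_lit 4) (nat_lit 8) C.nil) C.nil)) C.nil)) C.nil))) C.nil)))))))) C.nil)))) (C.cons (nat_lit 1048) (C.node (nat_lit 4) (nat_lit 8) (nat_lit 9) (C.cons (nat_lit 788) (C.node (nat_lit 2) (nat_lit 4) (nat_lit 6) (C.cons (nat_lit 116) (C.miq (nat_lit 2188088400) (nat_lit 2558157888470345232079192625)) (C.cons (nat_lit 84) (C.node (nat_lit 2) (nat_lit 4) (nat_lit 7) (C.cons (nat_lit 148) (C.node (nat_lit 2) (nat_lit 4) (nat_lit 5) C.nil) C.nil)) C.nil))) (C.cons (nat_lit 784) (C.node (nat_lit 2) (nat_lit 4) (nat_lit 9) (C.cons (nat_lit 1556) (C.miq (nat_lit 645177529) (nat_lit 251485273921283472583823105)) (C.cons (nat_lit 596) (C.node (nat_lit 4) (nat_lit 9) (nat_lit 10) (C.cons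 (nat_lit 1552) (C.node (nat_lit 4) (nat_lit 5) (nat_lit 6) C.nil) C.nil)) (C.cons (nat_lit 532) (C.node (nat_lit 2) (nat_lit 4) (nat_lit 6) (C.cons (nat_lit 116) (C.node (nat_lit 2) (nat_lit 4) (nat_lit 7) C.nil) C.nil)) C.nil)))) C.nil))) C.nil))) C.nil)))) C.nil)))) C.nil))) C.nil)))) C.nil))) C.nil)))) List.nil)))

theorem ok12_239 : okL par12 (nat_lit 242) c12_239 (nat_lit 239) = true := by decide +kernel

noncomputable def c12_242 : List C :=
  (List.cons (C.node (nat_lit 1) (nat_lit 4) (nat_lit 8) (C.cons (nat_lit 786) (C.node (nat_lit 1) (nat_lit 7) (nat_lit 9) (C.cons (nat_lit 706) (C.miq (nat_lit 605621095) (nat_lit 950227592951658748934490337)) (C.cons (nat_lit 674) (C.node (nat_lit 1) (nat_lit 7) (nat_lit 8) (C.cons (nat_lit 2434) (C.miq (nat_lit 1900394640) (nat_lit 65323924393582986439757569)) (C.cons (nat_lit 450) (C.miq (nat_lit 873991015) (nat_lit 950222944372152174110705889)) (C.cons (nat_lit 386) (C.miq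 (nat_lit 1729627540) (nat_lit 466651583563795218478268977)) C.nil)))) (C.cons (nat_lit 642) (C.node (nat_lit 1) (nat_lit 9) (nat_lit 11) (C.cons (nat_lit 2594) (C.miq (nat_lit 1363589504) (nat_lit 2575053925958589149388803841)) (C.cons (nat_lit 2566) (C.node (nat_lit 1) (nat_lit 7) (nat_lit 11) (C.cons (nat_lit 2434) (C.miq (nat_lit 1900394640) (nat_lit 65323924393582986439757569)) (C.cons (nat_lit 2186) (C.miq (nat_lit 826833760) (nat_lit 950222944402832946564761825)) (C.cons (nat_lit 2178) (C.node (nat_lit 7) (nat_lit 8) (nat_lit 11) (C.cons (nat_lit 2436) (C.miq (nat_lit 934873121) (nat_lit 3268945063995737967056781575)) (C.cons (nat_lit 2432) (C.node (nat_lit 2) (nat_lit 5) (nat_lit 11) (C.cons (nat_lit 3108) (C.miq (nat_lit 891357881) (nat_lit 65291642206124724653002497)) (C.cons (nat_lit 2340) (C.miq (nat_lit 2874411041) (nat_lit 2533930120130728499841728775)) (C.cons (nat_lit 2084) (C.node (nat_lit 1) (nat_lit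 2) (nat_lit 10) (C.cons (nat_lit 1038) (C.node (nat_lit 1) (nat_lit 3) (nat_lit 11) (C.cons (nat_lit 2346) (C.miq (nat_lit 1913850296) (nat_lit 1254872250511968432217001729)) (C.cons (nat_lit 2314) (C.miq (nat_lit 1913850296) (nat_lit 1254872250511968432214904577)) (C.cons (nat_lit 2090) (C.miq (nat_lit 565617488) (nat_lit 2575032158362612709120345129)) (C.cons (nat_lit 2058) (C.node (nat_lit 1) (nat_lit 8) (nat_lit 10) (C.cons (nat_lit 1378) (C.miq (nat_lit 1101248080) (nat_lit 1254903315246973797012146401)) (C.cons (nat_lit 1346) (C.miq (nat_lit 2167695904) (nat_lit 31438288241602975625970757)) (C.cons (nat_lit 1314) (C.miq (nat_lit 2234229056) (nat_lit 2519472262390732669937583251)) (C.cons (nat_lit 1282) (C.node (nat_lit 1) (nat_lit 2) (nat_lit 6) (C.cons (nat_lit 198) (C.node (nat_lit 1) (nat_lit 3) (nat_lit 7) (C.cons (nat_lit 170) (C.node (nat_lit 1) (nat_lit 7) (nat_lit 8) (C.cons (nat_lit 386) (C.node (nat_lit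 2) (nat_lit 3) (nat_lit 7) (C.cons (nat_lit 140) (C.node (nat_lit 1) (nat_lit 10) (nat_lit 11) (C.cons (nat_lit 3106) (C.miq (nat_lit 2316503895) (nat_lit 1254872251411564776923990241)) (C.cons (nat_lit 3074) (C.node (nat_lit 5) (nat_lit 10) (nat_lit 11) C.nil) C.nil))) C.nil)) C.nil)) (C.cons (nat_lit 138) (C.miq (nat_lit 1394018854) (nat_lit 166873692855873676306154565)) C.nil))) (C.cons (nat_lit 70) (C.node (nat_lit 1) (nat_lit 2) (nat_lit 7) (C.cons (nat_lit 134) (C.node (nat_lit 1) (nat_lit 8) (nat_lit 11) (C.cons (nat_lit 2338) (C.node (nat_lit 1) (nat_lit 10) (nat_lit 11) C.nil) C.nil)) C.nil)) C.nil))) C.nil))))) C.nil))))) (C.cons (nat_lit 1030) (C.node (nat_lit 2) (nat_lit 6) (nat_lit 11) (C.cons (nat_lit 2372) (C.node (nat_lit 2) (nat_lit 7) (nat_lit 11) (C.cons (nat_lit 3204) (C.miq (nat_lit 2072289888) (nat_lit 2804729503545106012268725317)) (C.cons (nat_lit 2180) (C.node (nat_lit 2) (nat_lit 10) (nat_lit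 11) (C.cons (nat_lit 3076) (C.node (nat_lit 3) (nat_lit 6) (nat_lit 11) (C.cons (nat_lit 2632) (C.miq (nat_lit 1746514435) (nat_lit 950264246715160309227259933)) (C.cons (nat_lit 2120) (C.node (nat_lit 6) (nat_lit 9) (nat_lit 11) (C.cons (nat_lit 2624) (C.node (nat_lit 3) (nat_lit 7) (nat_lit 11) (C.cons (nat_lit 3208) (C.node (nat_lit 1) (nat_lit 10) (nat_lit 11) C.nil) C.nil)) C.nil)) C.nil))) C.nil)) C.nil))) (C.cons (nat_lit 2116) (C.node (nat_lit 2) (nat_lit 8) (nat_lit 11) (C.cons (nat_lit 2308) (C.node (nat_lit 6) (nat_lit 8) (nat_lit 11) (C.cons (nat_lit 2376) (C.miq (nat_lit 991397440) (nat_lit 2633047685359877003385438545)) (C.cons (nat_lit 2368) (C.node (nat_lit 2) (nat_lit 7) (nat_lit 11)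
  (C.cons (nat_lit 3204) (C.node (nat_lit 3) (nat_lit 7) (nat_lit 11) (C.cons (nat_lit 2184) (C.node (nat_lit 3) (nat_lit 10) (nat_lit 11) (C.cons (nat_lit 3082) (C.miq (nat_lit 2443641778) (nat_lit 1415664033065882956360583197)) C.nil)) C.nil)) (C.cons (nat_lit 2180) (C.node (nat_lit 2) (nat_lit 10) (nat_lit 11) C.nil) C.nil))) C.nil))) C.nil)) C.nil))) C.nil))) C.nil)))) C.nil))) C.nil)))) (C.cons (nat_lit 2562) (C.node (nat_lit 1) (nat_lit 2) (nat_lit 9) (C.cons (nat_lit 1542) (C.miq (nat_lit 558279040) (nat_lit 2575032158504470496618286849)) (C.cons (nat_lit 582) (C.node (nat_lit 2) (nat_lit 4) (nat_lit 6) (C.cons (nat_lit 212) (C.miq (nat_lit 2873493874) (nat_lit 2575032159151589705815163525)) (C.cons (nat_lit 84) (C.node (nat_lit 2) (nat_lit 4) (nat_lit 9) (C.cons (nat_lit 1556) (C.miq (nat_lit 1948694944) (nat_lit 101591699058023412552503041)) (C.cons (nat_lit 532) (C.node (nat_lit 1) (nat_lit 5) (nat_lit 9) (C.cons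 (nat_lit 1570) (C.node (nat_lit 2) (nat_lit 9) (nat_lit 11) (C.cons (nat_lit 2596) (C.node (nat_lit 5) (nat_lit 10) (nat_lit 11) (C.cons (nat_lit 3104) (C.node (nat_lit 2) (nat_lit 6) (nat_lit 11) (C.cons (nat_lit 2372) (C.miq (nat_lit 1382325120) (nat_lit 101560118201773428959153921)) (C.cons (nat_lit 2116) (C.node (nat_lit 1) (nat_lit 2) (nat_lit 10) (C.cons (nat_lit 3078) (C.node (nat_lit 1) (nat_lit 2) (nat_lit 3) (C.cons (nat_lit 142) (C.miq (nat_lit 2316765987) (nat_lit 1415659385420310336898992157)) (C.cons (nat_lit 14) (C.node (nat_lit 1) (nat_lit 2) (nat_lit 7) (C.cons (nat_lit 134) (C.node (nat_lit 3) (nat_lit 10) (nat_lit 11) (C.cons (nat_lit 3208) (C.miq (nat_lit 2275476402) (nat_lit 1415656986373055593497102365)) (C.cons (nat_lit 3080) (C.node (nat_lit 7) (nat_lit 10) (nat_lit 11) (C.cons (nat_lit 3200) (C.node (nat_lit 3) (nat_lit 7) (nat_lit 11) (C.cons (nat_lit 2184) (C.node (nat_lit 1) (nat_lit 7) (nat_lit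 11) (C.cons (nat_lit 2178) (C.node (nat_lit 1) (nat_lit 3) (nat_lit 7) C.nil) C.nil)) C.nil)) C.nil)) C.nil))) C.nil)) C.nil))) (C.cons (nat_lit 1038) (C.miq (nat_lit 2435078704) (nat_lit 65292343324535498240492585)) (C.cons (nat_lit 1030) (C.miq (nat_lit 2988086592) (nat_lit 1245264448877764439880958513)) C.nil)))) C.nil))) C.nil)) (C.cons (nat_lit 2564) (C.miq (nat_lit 1387861002) (nat_lit 3099714762895313497583846547)) C.nil))) (C.cons (nat_lit 546) (C.node (nat_lit 1) (nat_lit 9) (nat_lit 10) (C.cons (nat_lit 1538) (C.node (nat_lit 2) (nat_lit 9) (nat_lit 11) (C.cons (nat_lit 2596) (C.miq (nat_lit 2840660772) (nat_lit 660095099728054378558785565)) (C.cons (nat_lit 2564) (C.node (nat_lit 2) (nat_lit 4) (nat_lit 7) (C.cons (nat_lit 404) (C.node (nat_lit 2) (nat_lit 4) (nat_lit 10) (C.cons (nat_lit 1044) (C.node (nat_lit 4) (nat_lit 5) (nat_lit 7) (C.cons (nat_lit 184) (C.miq (nat_lit 271919220) (nat_lit 1287506994087789658186973588))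 (C.cons (nat_lit 176) (C.node (nat_lit 7) (nat_lit 8) (nat_lit 11) (C.cons (nat_lit 2434) (C.miq (nat_lit 1900394640) (nat_lit 65323924393582986439757569)) (C.cons (nat_lit 2432) (C.node (nat_lit 1) (nat_lit 7) (nat_lit 8) (C.cons (nat_lit 450) (C.miq (nat_lit 873991015) (nat_lit 950222944372152174110705889)) (C.cons (nat_lit 418) (C.miq (nat_lit 928253970) (nat_lit 212809258250237290634150151)) (C.cons (nat_lit 386) (C.node (nat_lit 3) (nat_lit 7) (nat_lit 11) (C.cons (nat_lit 3208) (C.miq (nat_lit 927312784) (nat_lit 212790590937596574336880385)) (C.cons (nat_lit 2186) (C.miq (nat_lit 826833760) (nat_lit 950222944402832946564761825)) (C.cons (nat_lit 2184) (C.node (nat_lit 5) (nat_lit 9) (nat_lit 11) (C.cons (nat_lit 2600) (C.miq (nat_lit 2746680724) (nat_lit 2640315591475442448732258865)) (C.cons (nat_lit 2592) (C.node (nat_lit 2) (nat_lit 8) (nat_lit 9) (C.cons (nat_lit 812) (C.miq (nat_lit 2022785584) (nat_lit 950237295468128223342823453))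 (C.cons (nat_lit 804) (C.miq (nat_lit 2840856609) (nat_lit 678228987022266119597981959)) (C.cons (nat_lit 780) (C.miq (nat_lit 2022785584) (nat_lit 950237295468128085903869981)) (C.cons (nat_lit 772)
  (C.node (nat_lit 4) (nat_lit 9) (nat_lit 10) (C.cons (nat_lit 1624) (C.miq (nat_lit 1678944640) (nat_lit 65302157007581278013689601)) (C.cons (nat_lit 1616) (C.miq (nat_lit 1678944640) (nat_lit 65302157005329478200004353)) (C.cons (nat_lit 1560) (C.miq (nat_lit 896835769) (nat_lit 212799721472710334483533569)) (C.cons (nat_lit 1552) (C.node (nat_lit 1) (nat_lit 5) (nat_lit 7) C.nil) C.nil))))) C.nil))))) C.nil))) C.nil)))) C.nil)))) C.nil))) C.nil))) C.nil)) (C.cons (nat_lit 148) (C.node (nat_lit 2) (nat_lit 4) (nat_lit 8) (C.cons (nat_lit 1300) (C.node (nat_lit 2) (nat_lit 6) (nat_lit 11) (C.cons (nat_lit 2372) (C.miq (nat_lit 1648867488) (nat_lit 178962951419908887959244545)) (C.cons (nat_lit 2116) (C.node (nat_lit 2)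 (nat_lit 5) (nat_lit 11) (C.cons (nat_lit 3108) (C.miq (nat_lit 1380366976) (nat_lit 101591699171738203582435073)) (C.cons (nat_lit 2340) (C.miq (nat_lit 1380432032) (nat_lit 178962951410901688704503553)) (C.cons (nat_lit 2084) (C.node (nat_lit 2) (nat_lit 10) (nat_lit 11) (C.cons (nat_lit 3204) (C.miq (nat_lit 1917237888) (nat_lit 101591699198759801346658049)) (C.cons (nat_lit 3078) (C.miq (nat_lit 2707010112) (nat_lit 660144352319954858057730077)) (C.cons (nat_lit 3076) (C.node (nat_lit 7) (nat_lit 8) (nat_lit 10) (C.cons (nat_lit 1472) (C.miq (nat_lit 2193007623) (nat_lit 2558114188277758224658138259)) (C.cons (nat_lit 1440) (C.miq (nat_lit 2192942087) (nat_lit 2519427971754279732361888915)) (C.cons (nat_lit 1408) (C.node (nat_lit 2) (nat_lit 8) (nat_lit 9) (C.cons (nat_lit 812) (C.miq (nat_lit 337840777) (nat_lit 2510948575316348127199104769)) (C.cons (nat_lit 804) (C.miq (nat_lit 2840856609) (nat_lit 678228987022266119597981959))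 (C.cons (nat_lit 780) (C.miq (nat_lit 337840777) (nat_lit 2510948575316348127197007617)) (C.cons (nat_lit 772) (C.node (nat_lit 4) (nat_lit 9) (nat_lit 10) (C.cons (nat_lit 1624) (C.miq (nat_lit 1678944640) (nat_lit 65302157007581278013689601)) (C.cons (nat_lit 1616) (C.miq (nat_lit 1678944640) (nat_lit 65302157005329478200004353)) (C.cons (nat_lit 1560) (C.miq (nat_lit 874617472) (nat_lit 65291642345447072672976641)) (C.cons (nat_lit 1552) (C.node (nat_lit 5) (nat_lit 9) (nat_lit 11) (C.cons (nat_lit 2600) (C.miq (nat_lit 977883259) (nat_lit 1876300833876272003758950625)) (C.cons (nat_lit 2592) (C.node (nat_lit 1) (nat_lit 2) (nat_lit 10) C.nil) C.nil))) C.nil))))) C.nil))))) C.nil)))) C.nil)))) C.nil)))) C.nil))) (C.cons (nat_lit 276) (C.node (nat_lit 2) (nat_lit 4) (nat_lit 10) (C.cons (nat_lit 1044) (C.node (nat_lit 2) (nat_lit 6) (nat_lit 11) (C.cons (nat_lit 2372) (C.node (nat_lit 3) (nat_lit 6) (nat_lit 11) (C.cons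 (nat_lit 2632) (C.miq (nat_lit 908172160) (nat_lit 703604475403717056156602113)) (C.cons (nat_lit 2120) (C.node (nat_lit 6) (nat_lit 9) (nat_lit 11) (C.cons (nat_lit 2624) (C.node (nat_lit 7) (nat_lit 8) (nat_lit 11) (C.cons (nat_lit 2434) (C.miq (nat_lit 1900394640) (nat_lit 65323924393582986439757569)) (C.cons (nat_lit 2432) (C.node (nat_lit 1) (nat_lit 2) (nat_lit 11) (C.cons (nat_lit 3078) (C.miq (nat_lit 308587392) (nat_lit 101571370851329330560175873)) (C.cons (nat_lit 2182) (C.miq (nat_lit 310672224) (nat_lit 333685127965136552971012321)) (C.cons (nat_lit 2054) (C.node (nat_lit 1) (nat_lit 7) (nat_lit 11) (C.cons (nat_lit 2186) (C.miq (nat_lit 826833760) (nat_lit 950222944402832946564761825)) C.nil)) C.nil)))) C.nil))) C.nil)) C.nil))) (C.cons (nat_lit 2116) (C.node (nat_lit 4) (nat_lit 6) (nat_lit 7) (C.cons (nat_lit 216) (C.node (nat_lit 1) (nat_lit 6) (nat_lit 7) (C.cons (nat_lit 450) (C.miq (nat_lit 873991015)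 (nat_lit 950222944372152174110705889)) (C.cons (nat_lit 194) (C.node (nat_lit 2) (nat_lit 6) (nat_lit 7) (C.cons (nat_lit 452) (C.miq (nat_lit 2473988226) (nat_lit 261138713189023901467017479)) (C.cons (nat_lit 196) (C.node (nat_lit 3) (nat_lit 4) (nat_lit 9) (C.cons (nat_lit 1560) (C.miq (nat_lit 1464011674) (nat_lit 261147623459002638166134529)) (C.cons (nat_lit 536)
  (C.node (nat_lit 1) (nat_lit 2) (nat_lit 3) C.nil) C.nil))) C.nil))) C.nil))) (C.cons (nat_lit 208) (C.node (nat_lit 3) (nat_lit 4) (nat_lit 7) (C.cons (nat_lit 184) (C.node (nat_lit 4) (nat_lit 7) (nat_lit 8) C.nil) C.nil)) C.nil))) C.nil))) C.nil)) C.nil))) C.nil))) C.nil))) C.nil)) C.nil))) C.nil))) C.nil))) (C.cons (nat_lit 518) (C.node (nat_lit 2) (nat_lit 4) (nat_lit 6) (C.cons (nat_lit 596) (C.node (nat_lit 2) (nat_lit 4) (nat_lit 7) (C.cons (nat_lit 404) (C.node (nat_lit 2) (nat_lit 4) (nat_lit 10) (C.cons (nat_lit 1044) (C.node (nat_lit 4) (nat_lit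 5) (nat_lit 7) (C.cons (nat_lit 184) (C.miq (nat_lit 271919220) (nat_lit 1287506994087789658186973588)) (C.cons (nat_lit 176) (C.node (nat_lit 3) (nat_lit 4) (nat_lit 9) (C.cons (nat_lit 1560) (C.miq (nat_lit 896835769) (nat_lit 212799721472710334483533569)) (C.cons (nat_lit 536) (C.node (nat_lit 4) (nat_lit 9) (nat_lit 10) (C.cons (nat_lit 1552) (C.node (nat_lit 7) (nat_lit 8) (nat_lit 11) (C.cons (nat_lit 2434) (C.miq (nat_lit 1900394640) (nat_lit 65323924393582986439757569)) (C.cons (nat_lit 2432) (C.node (nat_lit 1) (nat_lit 7) (nat_lit 8) (C.cons (nat_lit 450) (C.miq (nat_lit 873991015) (nat_lit 950222944372152174110705889)) (C.cons (nat_lit 418) (C.miq (nat_lit 928253970) (nat_lit 212809258250237290634150151)) (C.cons (nat_lit 386) (C.node (nat_lit 3) (nat_lit 7) (nat_lit 11) (C.cons (nat_lit 3208) (C.miq (nat_lit 927312784) (nat_lit 212790590937596574336880385)) (C.cons (nat_lit 2186) (C.miq (nat_lit 826833760)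 (nat_lit 950222944402832946564761825)) (C.cons (nat_lit 2184) (C.node (nat_lit 2) (nat_lit 8) (nat_lit 9) (C.cons (nat_lit 812) (C.miq (nat_lit 2022785584) (nat_lit 950237295468128223342823453)) (C.cons (nat_lit 804) (C.miq (nat_lit 2840856609) (nat_lit 678228987022266119597981959)) (C.cons (nat_lit 780) (C.miq (nat_lit 2022785584) (nat_lit 950237295468128085903869981)) (C.cons (nat_lit 772) (C.node (nat_lit 1) (nat_lit 5) (nat_lit 7) (C.cons (nat_lit 170) (C.node (nat_lit 1) (nat_lit 5) (nat_lit 10) (C.cons (nat_lit 3106) (C.miq (nat_lit 2977473840) (nat_lit 466716221189495987657835561)) (C.cons (nat_lit 1634) (C.miq (nat_lit 874122085) (nat_lit 1415671781135801939268864225)) (C.cons (nat_lit 1570) (C.miq (nat_lit 2440602928) (nat_lit 466716220757150423430267945)) (C.cons (nat_lit 1378) (C.miq (nat_lit 874122085) (nat_lit 1415671781135801939252087009)) (C.cons (nat_lit 1314) (C.miq (nat_lit 2773188896) (nat_lit 2533979372226108220034056455))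 (C.cons (nat_lit 1122) (C.miq (nat_lit 874122085) (nat_lit 1415671781135801939235309793)) (C.cons (nat_lit 1058) (C.node (nat_lit 2) (nat_lit 9) (nat_lit 11) (C.cons (nat_lit 2596) (C.miq (nat_lit 2501554752) (nat_lit 1279114371826974056772732957)) (C.cons (nat_lit 2564) (C.node (nat_lit 5) (nat_lit 9) (nat_lit 11) (C.cons (nat_lit 2600) (C.miq (nat_lit 2761099189) (nat_lit 648003885425498549805123809)) (C.cons (nat_lit 2592) (C.node (nat_lit 1) (nat_lit 5) (nat_lit 9) (C.cons (nat_lit 610) (C.node (nat_lit 1) (nat_lit 9) (nat_lit 10) C.nil) C.nil)) C.nil))) C.nil))) C.nil)))))))) (C.cons (nat_lit 162) (C.node (nat_lit 1) (nat_lit 7) (nat_lit 11) (C.cons (nat_lit 2182) (C.node (nat_lit 7) (nat_lit 10) (nat_lit 11) (C.cons (nat_lit 3200) (C.node (nat_lit 1) (nat_lit 2) (nat_lit 10) (C.cons (nat_lit 1038) (C.miq (nat_lit 1461324579) (nat_lit 1415671781190971258003392541)) (C.cons (nat_lit 1030) (C.node (nat_lit 1) (nat_lit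 2) (nat_lit 3) (C.cons (nat_lit 14) (C.node (nat_lit 1) (nat_lit 2) (nat_lit 6) C.nil) C.nil)) C.nil))) C.nil)) (C.cons (nat_lit 2178) (C.node (nat_lit 3) (nat_lit 4) (nat_lit 7) (C.cons (nat_lit 152) (C.node (nat_lit 4) (nat_lit 6) (nat_lit 7) C.nil) C.nil)) C.nil))) C.nil))) C.nil))))) C.nil)))) C.nil)))) C.nil))) C.nil)) C.nil))) C.nil))) C.nil)) (C.cons (nat_lit 148) (C.node (nat_lit 2) (nat_lit 4) (nat_lit 8) (C.cons (nat_lit 1300) (C.node (nat_lit 2) (nat_lit 6) (nat_lit 11) (C.cons (nat_lit 2372) (C.miq (nat_lit 1648867488) (nat_lit 178962951419908887959244545)) (C.cons (nat_lit 2116)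
  (C.node (nat_lit 3) (nat_lit 4) (nat_lit 9) (C.cons (nat_lit 1560) (C.miq (nat_lit 874617472) (nat_lit 65291642345447072672976641)) (C.cons (nat_lit 536) (C.node (nat_lit 4) (nat_lit 9) (nat_lit 10) (C.cons (nat_lit 1552) (C.node (nat_lit 2) (nat_lit 8) (nat_lit 9) (C.cons (nat_lit 812) (C.miq (nat_lit 337840777) (nat_lit 2510948575316348127199104769)) (C.cons (nat_lit 804) (C.miq (nat_lit 2840856609) (nat_lit 678228987022266119597981959)) (C.cons (nat_lit 780) (C.miq (nat_lit 337840777) (nat_lit 2510948575316348127197007617)) (C.cons (nat_lit 772) (C.node (nat_lit 2) (nat_lit 9) (nat_lit 11) (C.cons (nat_lit 2596) (C.node (nat_lit 5) (nat_lit 10) (nat_lit 11) (C.cons (nat_lit 3106) (C.miq (nat_lit 1901202105) (nat_lit 65293892738738056161660673)) (C.cons (nat_lit 3104) (C.node (nat_lit 1) (nat_lit 2) (nat_lit 10) (C.cons (nat_lit 3078) (C.node (nat_lit 3) (nat_lit 10) (nat_lit 11) (C.cons (nat_lit 3208) (C.miq (nat_lit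 2275476402) (nat_lit 1415656986373055593497102365)) (C.cons (nat_lit 3080) (C.node (nat_lit 7) (nat_lit 10) (nat_lit 11) (C.cons (nat_lit 3200) (C.node (nat_lit 3) (nat_lit 7) (nat_lit 11) (C.cons (nat_lit 2186) (C.miq (nat_lit 826833760) (nat_lit 950222944402832946564761825)) (C.cons (nat_lit 2184) (C.node (nat_lit 1) (nat_lit 7) (nat_lit 11) (C.cons (nat_lit 2434) (C.miq (nat_lit 1900394640) (nat_lit 65323924393582986439757569)) (C.cons (nat_lit 2178) (C.node (nat_lit 6) (nat_lit 8) (nat_lit 11) (C.cons (nat_lit 2376) (C.miq (nat_lit 991397440) (nat_lit 2633047685359877003385438545)) C.nil)) C.nil))) C.nil))) C.nil)) C.nil))) (C.cons (nat_lit 1038) (C.miq (nat_lit 2988086592) (nat_lit 1254935855434681473278607921)) (C.cons (nat_lit 1030) (C.miq (nat_lit 2988086592) (nat_lit 1245264448877764439880958513)) C.nil)))) C.nil))) (C.cons (nat_lit 2564) (C.node (nat_lit 5) (nat_lit 9) (nat_lit 11) (C.cons (nat_lit 2600) (C.miq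 (nat_lit 2761099189) (nat_lit 648003885425498549805123809)) (C.cons (nat_lit 2592) (C.node (nat_lit 2) (nat_lit 5) (nat_lit 11) (C.cons (nat_lit 3108) (C.miq (nat_lit 1380366976) (nat_lit 720561718814428341031997185)) (C.cons (nat_lit 2340) (C.miq (nat_lit 1380432032) (nat_lit 178962951410901688704503553)) (C.cons (nat_lit 2084) (C.node (nat_lit 2) (nat_lit 10) (nat_lit 11) (C.cons (nat_lit 3204) (C.miq (nat_lit 1917237888) (nat_lit 720561718841449938796220161)) (C.cons (nat_lit 3078) (C.miq (nat_lit 2602895892) (nat_lit 2519411757781471156604634259)) (C.cons (nat_lit 3076) (C.node (nat_lit 3) (nat_lit 9) (nat_lit 11) (C.cons (nat_lit 2632) (C.node (nat_lit 3) (nat_lit 8) (nat_lit 9) (C.cons (nat_lit 808) (C.miq (nat_lit 1481259280) (nat_lit 1571623211508891584893747723)) C.nil)) C.nil)) C.nil)))) C.nil)))) C.nil))) C.nil))) C.nil))))) C.nil)) C.nil))) C.nil))) (C.cons (nat_lit 276) (C.node (nat_lit 2) (nat_lit 4) (nat_lit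 10) (C.cons (nat_lit 1044) (C.node (nat_lit 2) (nat_lit 6) (nat_lit 11) (C.cons (nat_lit 2372) (C.node (nat_lit 2) (nat_lit 9) (nat_lit 11) (C.cons (nat_lit 2596) (C.miq (nat_lit 1382325120) (nat_lit 720530137844463566408716033)) (C.cons (nat_lit 2564) (C.node (nat_lit 3) (nat_lit 6) (nat_lit 11) (C.cons (nat_lit 2632) (C.miq (nat_lit 1746514435) (nat_lit 950264246715160309227259933)) (C.cons (nat_lit 2120) (C.node (nat_lit 6) (nat_lit 9) (nat_lit 11) (C.cons (nat_lit 2624) (C.node (nat_lit 7) (nat_lit 8) (nat_lit 11) (C.cons (nat_lit 2434) (C.miq (nat_lit 1900394640) (nat_lit 65323924393582986439757569)) (C.cons (nat_lit 2432) (C.node (nat_lit 1) (nat_lit 2) (nat_lit 11) (C.cons (nat_lit 3078) (C.miq (nat_lit 308587392) (nat_lit 720541390494019468009737985)) (C.cons (nat_lit 2182) (C.miq (nat_lit 310672224) (nat_lit 333685127965136552971012321)) (C.cons (nat_lit 2054) (C.node (nat_lit 1) (nat_lit 7) (nat_lit 11) (C.cons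 (nat_lit 2186) (C.miq (nat_lit 826833760) (nat_lit 950222944402832946564761825)) (C.cons (nat_lit 2178) (C.node (nat_lit 2) (nat_lit 7) (nat_lit 11) (C.cons (nat_lit 3204)
  (C.miq (nat_lit 1919200128) (nat_lit 720541390529485315075280641)) C.nil)) C.nil))) C.nil)))) C.nil))) C.nil)) C.nil))) C.nil))) (C.cons (nat_lit 2116) (C.node (nat_lit 2) (nat_lit 9) (nat_lit 11) (C.cons (nat_lit 2596) (C.node (nat_lit 3) (nat_lit 4) (nat_lit 9) (C.cons (nat_lit 1560) (C.miq (nat_lit 968205424) (nat_lit 3138391073941128415618860179)) (C.cons (nat_lit 536) (C.node (nat_lit 4) (nat_lit 9) (nat_lit 10) (C.cons (nat_lit 1552) (C.node (nat_lit 5) (nat_lit 10) (nat_lit 11) (C.cons (nat_lit 3106) (C.miq (nat_lit 1901202105) (nat_lit 65293892738738056161660673)) (C.cons (nat_lit 3104) (C.node (nat_lit 1) (nat_lit 2) (nat_lit 10) (C.cons (nat_lit 3078) (C.node (nat_lit 3) (nat_lit 10) (nat_lit 11) (C.cons (nat_lit 3208) (C.miq (nat_lit 2275476402)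 (nat_lit 1415656986373055593497102365)) (C.cons (nat_lit 3080) (C.node (nat_lit 7) (nat_lit 10) (nat_lit 11) (C.cons (nat_lit 3200) (C.node (nat_lit 4) (nat_lit 6) (nat_lit 7) (C.cons (nat_lit 216) (C.node (nat_lit 3) (nat_lit 4) (nat_lit 5) C.nil) C.nil)) C.nil)) C.nil))) (C.cons (nat_lit 1038) (C.miq (nat_lit 2988086592) (nat_lit 1254935855434681473278607921)) (C.cons (nat_lit 1030) (C.miq (nat_lit 2988086592) (nat_lit 1245264448877764439880958513)) C.nil)))) C.nil))) C.nil)) C.nil))) (C.cons (nat_lit 2564) (C.node (nat_lit 3) (nat_lit 4) (nat_lit 9) (C.cons (nat_lit 1560) (C.node (nat_lit 2) (nat_lit 9) (nat_lit 10) (C.cons (nat_lit 1572) (C.miq (nat_lit 2040902704) (nat_lit 1900473318644591641693325341)) (C.cons (nat_lit 1540) (C.node (nat_lit 3) (nat_lit 4) (nat_lit 8) (C.cons (nat_lit 312) (C.miq (nat_lit 1949677984) (nat_lit 377226785930158881563545345)) (C.cons (nat_lit 280) (C.node (nat_lit 4) (nat_lit 6) (nat_lit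 7) (C.cons (nat_lit 216) (C.miq (nat_lit 1464011674) (nat_lit 261147623459002638166134529)) (C.cons (nat_lit 208) (C.node (nat_lit 3) (nat_lit 4) (nat_lit 6) (C.cons (nat_lit 120) (C.miq (nat_lit 1949677984) (nat_lit 145113028564150080019959553)) (C.cons (nat_lit 88) (C.node (nat_lit 4) (nat_lit 7) (nat_lit 8) (C.cons (nat_lit 432) (C.miq (nat_lit 896835769) (nat_lit 522284731294055403208314625)) C.nil)) C.nil))) C.nil))) C.nil))) C.nil))) (C.cons (nat_lit 536) (C.node (nat_lit 4) (nat_lit 9) (nat_lit 10) (C.cons (nat_lit 1552) (C.node (nat_lit 5) (nat_lit 9) (nat_lit 11) (C.cons (nat_lit 2600) (C.miq (nat_lit 2761099189) (nat_lit 648003885425498549805123809)) (C.cons (nat_lit 2592) (C.node (nat_lit 3) (nat_lit 7) (nat_lit 11) (C.cons (nat_lit 3208) (C.miq (nat_lit 999663424) (nat_lit 3133555371126540660426998931)) (C.cons (nat_lit 2186) (C.miq (nat_lit 826833760) (nat_lit 950222944402832946564761825)) (C.cons (nat_lit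 2184) (C.node (nat_lit 6) (nat_lit 8) (nat_lit 11) (C.cons (nat_lit 2376) (C.miq (nat_lit 389759110) (nat_lit 2640333281932836004709269841)) (C.cons (nat_lit 2368) (C.node (nat_lit 3) (nat_lit 6) (nat_lit 11) (C.cons (nat_lit 2632) (C.node (nat_lit 2) (nat_lit 9) (nat_lit 10) C.nil) (C.cons (nat_lit 2120) (C.node (nat_lit 3) (nat_lit 9) (nat_lit 11) (C.cons (nat_lit 2568) (C.node (nat_lit 6) (nat_lit 9) (nat_lit 11) C.nil) C.nil)) C.nil))) C.nil))) C.nil)))) C.nil))) C.nil)) C.nil))) C.nil))) C.nil))) C.nil)) C.nil))) C.nil))) (C.cons (nat_lit 212) (C.miq (nat_lit 2873493874) (nat_lit 2575032159151589705815163525)) (C.cons (nat_lit 84) (C.node (nat_lit 2) (nat_lit 4) (nat_lit 9) (C.cons (nat_lit 1556) (C.miq (nat_lit 1948694944) (nat_lit 101591699058023412552503041)) (C.cons (nat_lit 532) (C.node (nat_lit 2) (nat_lit 4) (nat_lit 7) (C.cons (nat_lit 404) (C.node (nat_lit 2) (nat_lit 4) (nat_lit 10) (C.cons (nat_lit 1044)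 (C.node (nat_lit 4) (nat_lit 5) (nat_lit 7) (C.cons (nat_lit 184) (C.miq (nat_lit 271919220) (nat_lit 1287506994087789658186973588)) (C.cons (nat_lit 176) (C.node (nat_lit 7) (nat_lit 8) (nat_lit 11) (C.cons (nat_lit 2434) (C.miq (nat_lit 1900394640) (nat_lit 65323924393582986439757569)) (C.cons (nat_lit 2432) (C.node (nat_lit 1) (nat_lit 7) (nat_lit 8) (C.cons (nat_lit 450)
  (C.miq (nat_lit 873991015) (nat_lit 950222944372152174110705889)) (C.cons (nat_lit 418) (C.miq (nat_lit 928253970) (nat_lit 212809258250237290634150151)) (C.cons (nat_lit 386) (C.node (nat_lit 3) (nat_lit 7) (nat_lit 11) (C.cons (nat_lit 3208) (C.miq (nat_lit 927312784) (nat_lit 212790590937596574336880385)) (C.cons (nat_lit 2186) (C.miq (nat_lit 826833760) (nat_lit 950222944402832946564761825)) (C.cons (nat_lit 2184) (C.node (nat_lit 4) (nat_lit 9) (nat_lit 10) (C.cons (nat_lit 1624) (C.miq (nat_lit 1678944640) (nat_lit 65302157007581278013689601))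 (C.cons (nat_lit 1616) (C.miq (nat_lit 1678944640) (nat_lit 65302157005329478200004353)) (C.cons (nat_lit 1560) (C.miq (nat_lit 896835769) (nat_lit 212799721472710334483533569)) (C.cons (nat_lit 1552) (C.node (nat_lit 2) (nat_lit 8) (nat_lit 9) (C.cons (nat_lit 876) (C.miq (nat_lit 2022785584) (nat_lit 950237295468128498220730397)) (C.cons (nat_lit 868) (C.miq (nat_lit 2840856609) (nat_lit 678228987022266394475888903)) (C.cons (nat_lit 844) (C.miq (nat_lit 2022785584) (nat_lit 950237295468128360781776925)) (C.cons (nat_lit 836) (C.miq (nat_lit 1766467600) (nat_lit 1876273034568493500135047431)) (C.cons (nat_lit 812) (C.miq (nat_lit 2022785584) (nat_lit 950237295468128223342823453)) (C.cons (nat_lit 804) (C.miq (nat_lit 2840856609) (nat_lit 678228987022266119597981959)) (C.cons (nat_lit 780) (C.miq (nat_lit 2022785584) (nat_lit 950237295468128085903869981)) (C.cons (nat_lit 772) (C.node (nat_lit 1) (nat_lit 5) (nat_lit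 7) (C.cons (nat_lit 170) (C.node (nat_lit 1) (nat_lit 5) (nat_lit 10) (C.cons (nat_lit 3106) (C.miq (nat_lit 2977473840) (nat_lit 466716221189495987657835561)) (C.cons (nat_lit 1634) (C.miq (nat_lit 874122085) (nat_lit 1415671781135801939268864225)) (C.cons (nat_lit 1570) (C.miq (nat_lit 2440602928) (nat_lit 466716220757150423430267945)) (C.cons (nat_lit 1378) (C.miq (nat_lit 874122085) (nat_lit 1415671781135801939252087009)) (C.cons (nat_lit 1314) (C.miq (nat_lit 2773188896) (nat_lit 2533979372226108220034056455)) (C.cons (nat_lit 1122) (C.miq (nat_lit 874122085) (nat_lit 1415671781135801939235309793)) (C.cons (nat_lit 1058) (C.node (nat_lit 2) (nat_lit 9) (nat_lit 11) (C.cons (nat_lit 2628) (C.miq (nat_lit 2761033654) (nat_lit 643168698655874096975579361)) (C.cons (nat_lit 2596) (C.miq (nat_lit 2501554752) (nat_lit 1279114371826974056772732957)) (C.cons (nat_lit 2564) (C.node (nat_lit 5) (nat_lit 9) (nat_lit 11) (C.cons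 (nat_lit 2600) (C.miq (nat_lit 977883259) (nat_lit 1876300833876272003758950625)) (C.cons (nat_lit 2592) (C.node (nat_lit 1) (nat_lit 5) (nat_lit 9) (C.cons (nat_lit 610) (C.node (nat_lit 1) (nat_lit 9) (nat_lit 10) C.nil) C.nil)) C.nil))) C.nil)))) C.nil)))))))) (C.cons (nat_lit 162) (C.node (nat_lit 1) (nat_lit 7) (nat_lit 11) (C.cons (nat_lit 2182) (C.node (nat_lit 7) (nat_lit 10) (nat_lit 11) (C.cons (nat_lit 3200) (C.node (nat_lit 1) (nat_lit 2) (nat_lit 10) (C.cons (nat_lit 1038) (C.miq (nat_lit 1461324579) (nat_lit 1415671781190971258003392541)) (C.cons (nat_lit 1030) (C.node (nat_lit 1) (nat_lit 2) (nat_lit 3) (C.cons (nat_lit 14) (C.node (nat_lit 1) (nat_lit 2) (nat_lit 6) C.nil) C.nil)) C.nil))) C.nil)) (C.cons (nat_lit 2178) (C.node (nat_lit 3) (nat_lit 4) (nat_lit 7) (C.cons (nat_lit 216) (C.node (nat_lit 3) (nat_lit 4) (nat_lit 9) C.nil) C.nil)) C.nil))) C.nil))) C.nil))))))))) C.nil))))) C.nil)))) C.nil))))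 C.nil))) C.nil))) C.nil)) (C.cons (nat_lit 148) (C.node (nat_lit 2) (nat_lit 4) (nat_lit 8) (C.cons (nat_lit 1300) (C.node (nat_lit 2) (nat_lit 6) (nat_lit 11) (C.cons (nat_lit 2628) (C.miq (nat_lit 2761033654) (nat_lit 643168698655874096975579361)) (C.cons (nat_lit 2372) (C.miq (nat_lit 1648867488) (nat_lit 178962951419908887959244545)) (C.cons (nat_lit 2116) (C.node (nat_lit 4) (nat_lit 9) (nat_lit 10) (C.cons (nat_lit 1624) (C.miq (nat_lit 1678944640) (nat_lit 65302157007581278013689601)) (C.cons (nat_lit 1616) (C.miq (nat_lit 1678944640) (nat_lit 65302157005329478200004353)) (C.cons (nat_lit 1560)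
  (C.miq (nat_lit 874617472) (nat_lit 65291642345447072672976641)) (C.cons (nat_lit 1552) (C.node (nat_lit 2) (nat_lit 8) (nat_lit 9) (C.cons (nat_lit 876) (C.miq (nat_lit 337840777) (nat_lit 2510948575316348127203299073)) (C.cons (nat_lit 868) (C.miq (nat_lit 2840856609) (nat_lit 678228987022266394475888903)) (C.cons (nat_lit 844) (C.miq (nat_lit 337840777) (nat_lit 2510948575316348127201201921)) (C.cons (nat_lit 836) (C.miq (nat_lit 1766467600) (nat_lit 1876273034568493500135047431)) (C.cons (nat_lit 812) (C.miq (nat_lit 337840777) (nat_lit 2510948575316348127199104769)) (C.cons (nat_lit 804) (C.miq (nat_lit 2840856609) (nat_lit 678228987022266119597981959)) (C.cons (nat_lit 780) (C.miq (nat_lit 337840777) (nat_lit 2510948575316348127197007617)) (C.cons (nat_lit 772) (C.node (nat_lit 2) (nat_lit 9) (nat_lit 11) (C.cons (nat_lit 2596) (C.node (nat_lit 5) (nat_lit 10) (nat_lit 11) (C.cons (nat_lit 3106) (C.miq (nat_lit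 1901202105) (nat_lit 65293892738738056161660673)) (C.cons (nat_lit 3104) (C.node (nat_lit 1) (nat_lit 2) (nat_lit 10) (C.cons (nat_lit 3078) (C.node (nat_lit 3) (nat_lit 10) (nat_lit 11) (C.cons (nat_lit 3208) (C.miq (nat_lit 2275476402) (nat_lit 1415656986373055593497102365)) (C.cons (nat_lit 3080) (C.node (nat_lit 7) (nat_lit 10) (nat_lit 11) (C.cons (nat_lit 3200) (C.node (nat_lit 3) (nat_lit 7) (nat_lit 11) (C.cons (nat_lit 2186) (C.miq (nat_lit 826833760) (nat_lit 950222944402832946564761825)) (C.cons (nat_lit 2184) (C.node (nat_lit 1) (nat_lit 7) (nat_lit 11) (C.cons (nat_lit 2434) (C.miq (nat_lit 1900394640) (nat_lit 65323924393582986439757569)) (C.cons (nat_lit 2178) (C.node (nat_lit 6) (nat_lit 8) (nat_lit 11) (C.cons (nat_lit 2376) (C.miq (nat_lit 991397440) (nat_lit 2633047685359877003385438545)) C.nil)) C.nil))) C.nil))) C.nil)) C.nil))) (C.cons (nat_lit 1038) (C.miq (nat_lit 2988086592) (nat_lit 1254935855434681473278607921))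 (C.cons (nat_lit 1030) (C.miq (nat_lit 2988086592) (nat_lit 1245264448877764439880958513)) C.nil)))) C.nil))) (C.cons (nat_lit 2564) (C.node (nat_lit 5) (nat_lit 9) (nat_lit 11) (C.cons (nat_lit 2600) (C.miq (nat_lit 977883259) (nat_lit 1876300833876272003758950625)) (C.cons (nat_lit 2592) (C.node (nat_lit 2) (nat_lit 5) (nat_lit 11) (C.cons (nat_lit 3108) (C.miq (nat_lit 1380366976) (nat_lit 101591699171738203582435073)) (C.cons (nat_lit 2340) (C.miq (nat_lit 1380432032) (nat_lit 178962951410901688704503553)) (C.cons (nat_lit 2084) (C.node (nat_lit 2) (nat_lit 10) (nat_lit 11) (C.cons (nat_lit 3204) (C.miq (nat_lit 1917237888) (nat_lit 101591699198759801346658049)) (C.cons (nat_lit 3078) (C.miq (nat_lit 2602895892) (nat_lit 2519411757781471156604634259)) (C.cons (nat_lit 3076) (C.node (nat_lit 1) (nat_lit 2) (nat_lit 11) C.nil) C.nil)))) C.nil)))) C.nil))) C.nil))) C.nil))))))))) C.nil))))) C.nil)))) (C.cons (nat_lit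 276) (C.node (nat_lit 2) (nat_lit 4) (nat_lit 10) (C.cons (nat_lit 1044) (C.node (nat_lit 4) (nat_lit 6) (nat_lit 7) (C.cons (nat_lit 216) (C.node (nat_lit 3) (nat_lit 4) (nat_lit 9) (C.cons (nat_lit 1560) (C.miq (nat_lit 1464011674) (nat_lit 261147623459002638166134529)) (C.cons (nat_lit 536) (C.node (nat_lit 3) (nat_lit 4) (nat_lit 10) (C.cons (nat_lit 1304) (C.miq (nat_lit 2758509424) (nat_lit 2575082850090191558004507017)) C.nil)) C.nil))) (C.cons (nat_lit 208) (C.node (nat_lit 3) (nat_lit 4) (nat_lit 7) (C.cons (nat_lit 184) (C.node (nat_lit 4) (nat_lit 7) (nat_lit 8) C.nil) C.nil)) C.nil))) C.nil)) C.nil))) C.nil))) C.nil))) C.nil)))) C.nil)))) C.nil)))) C.nil)))) (C.cons (nat_lit 274) (C.node (nat_lit 1) (nat_lit 4) (nat_lit 9) (C.cons (nat_lit 530) (C.node (nat_lit 2) (nat_lit 4) (nat_lit 6) (C.cons (nat_lit 596) (C.node (nat_lit 2) (nat_lit 4) (nat_lit 7) (C.cons (nat_lit 404) (C.node (nat_lit 2) (nat_lit 4)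 (nat_lit 10) (C.cons (nat_lit 1044) (C.node (nat_lit 4) (nat_lit 5) (nat_lit 7) (C.cons (nat_lit 184) (C.miq (nat_lit 271919220) (nat_lit 1287506994087789658186973588)) (C.cons (nat_lit 176) (C.node (nat_lit 4) (nat_lit 9) (nat_lit 10)
  (C.cons (nat_lit 1560) (C.miq (nat_lit 896835769) (nat_lit 212799721472710334483533569)) (C.cons (nat_lit 1552) (C.node (nat_lit 3) (nat_lit 7) (nat_lit 11) (C.cons (nat_lit 3208) (C.miq (nat_lit 927312784) (nat_lit 212790590937596574336880385)) (C.cons (nat_lit 2186) (C.miq (nat_lit 826833760) (nat_lit 331252924760142809115199713)) (C.cons (nat_lit 2184) (C.node (nat_lit 2) (nat_lit 8) (nat_lit 9) (C.cons (nat_lit 812) (C.miq (nat_lit 943821424) (nat_lit 331255322450118360297570949)) (C.cons (nat_lit 804) (C.miq (nat_lit 2840856609) (nat_lit 678228987022266119597981959)) (C.cons (nat_lit 780) (C.miq (nat_lit 943821424) (nat_lit 331255322441111161042829957)) (C.cons (nat_lit 772) (C.node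 (nat_lit 2) (nat_lit 6) (nat_lit 11) (C.cons (nat_lit 2372) (C.node (nat_lit 7) (nat_lit 8) (nat_lit 11) (C.cons (nat_lit 2434) (C.miq (nat_lit 2709653430) (nat_lit 317967653179537689321670881)) (C.cons (nat_lit 2432) (C.node (nat_lit 1) (nat_lit 7) (nat_lit 11) (C.cons (nat_lit 2182) (C.miq (nat_lit 310672224) (nat_lit 488427632875809087333402849)) (C.cons (nat_lit 2178) (C.node (nat_lit 2) (nat_lit 7) (nat_lit 11) (C.cons (nat_lit 3204) (C.miq (nat_lit 1919200128) (nat_lit 720541390529485315075280641)) (C.cons (nat_lit 2180) (C.node (nat_lit 7) (nat_lit 10) (nat_lit 11) (C.cons (nat_lit 3200) (C.node (nat_lit 6) (nat_lit 7) (nat_lit 8) (C.cons (nat_lit 1472) (C.miq (nat_lit 1948688568) (nat_lit 720546942427211607115566849)) (C.cons (nat_lit 962) (C.miq (nat_lit 611388312) (nat_lit 1415656986847057289475657473)) (C.cons (nat_lit 960) (C.miq (nat_lit 946079634) (nat_lit 407446315208194915669639813)) (C.cons (nat_lit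 450) (C.miq (nat_lit 873991015) (nat_lit 331252924729462036661143777)) (C.cons (nat_lit 448) (C.node (nat_lit 1) (nat_lit 7) (nat_lit 8) (C.cons (nat_lit 930) (C.miq (nat_lit 611388312) (nat_lit 1415656986847057289473560321)) (C.cons (nat_lit 898) (C.miq (nat_lit 611388312) (nat_lit 1415656986847057289471463169)) (C.cons (nat_lit 418) (C.miq (nat_lit 928253970) (nat_lit 212809258250237290634150151)) (C.cons (nat_lit 386) (C.node (nat_lit 2) (nat_lit 5) (nat_lit 6) (C.cons (nat_lit 108) (C.node (nat_lit 1) (nat_lit 2) (nat_lit 6) (C.cons (nat_lit 198) (C.miq (nat_lit 2820737895) (nat_lit 317969092777113360053700833)) (C.cons (nat_lit 70) (C.node (nat_lit 2) (nat_lit 6) (nat_lit 7) (C.cons (nat_lit 196) (C.node (nat_lit 2) (nat_lit 3) (nat_lit 8) (C.cons (nat_lit 1292) (C.node (nat_lit 2) (nat_lit 3) (nat_lit 9) (C.cons (nat_lit 524) (C.node (nat_lit 2) (nat_lit 5) (nat_lit 8) C.nil) C.nil)) (C.cons (nat_lit 268) (C.miq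 (nat_lit 2820868965) (nat_lit 324011766520314692708862177)) C.nil))) C.nil)) C.nil))) (C.cons (nat_lit 100) (C.node (nat_lit 2) (nat_lit 3) (nat_lit 8) (C.cons (nat_lit 1292) (C.miq (nat_lit 895656120) (nat_lit 120916415454586763024273153)) (C.cons (nat_lit 300) (C.miq (nat_lit 1483809540) (nat_lit 466646362579871022764460061)) (C.cons (nat_lit 268) (C.node (nat_lit 7) (nat_lit 8) (nat_lit 10) (C.cons (nat_lit 1440) (C.miq (nat_lit 1478731584) (nat_lit 324011765844484821259977875)) (C.cons (nat_lit 1408) (C.node (nat_lit 4) (nat_lit 8) (nat_lit 9) (C.cons (nat_lit 792) (C.node (nat_lit 4) (nat_lit 5) (nat_lit 8) C.nil) C.nil)) C.nil))) C.nil)))) C.nil))) C.nil))))) C.nil)))))) C.nil)) C.nil))) C.nil))) C.nil))) (C.cons (nat_lit 2116) (C.node (nat_lit 2) (nat_lit 8) (nat_lit 11) (C.cons (nat_lit 2340) (C.miq (nat_lit 2874411041) (nat_lit 2533930120130728499841728775)) (C.cons (nat_lit 2308) (C.node (nat_lit 6) (nat_lit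 8) (nat_lit 11) (C.cons (nat_lit 2376) (C.miq (nat_lit 389759110) (nat_lit 2640333281932836004709269841)) (C.cons (nat_lit 2368) (C.node (nat_lit 3) (nat_lit 4) (nat_lit 7) (C.cons (nat_lit 216) (C.node (nat_lit 3) (nat_lit 4) (nat_lit 9) (C.cons (nat_lit 792) (C.miq (nat_lit 2490073968) (nat_lit 2575082849946076369928651145)) (C.cons (nat_lit 536) (C.node (nat_lit 4) (nat_lit 8) (nat_lit 9) C.nil) C.nil))) (C.cons (nat_lit 152)
  (C.node (nat_lit 4) (nat_lit 6) (nat_lit 7) C.nil) C.nil))) C.nil))) C.nil))) C.nil))) C.nil))))) C.nil)))) C.nil))) C.nil))) C.nil)) (C.cons (nat_lit 148) (C.node (nat_lit 2) (nat_lit 4) (nat_lit 8) (C.cons (nat_lit 1300) (C.node (nat_lit 2) (nat_lit 6) (nat_lit 11) (C.cons (nat_lit 2372) (C.miq (nat_lit 1648867488) (nat_lit 178962951419908887959244545)) (C.cons (nat_lit 2116) (C.node (nat_lit 4) (nat_lit 9) (nat_lit 10) (C.cons (nat_lit 1560) (C.miq (nat_lit 874617472) (nat_lit 65291642345447072672976641))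 (C.cons (nat_lit 1552) (C.node (nat_lit 2) (nat_lit 8) (nat_lit 9) (C.cons (nat_lit 812) (C.miq (nat_lit 337840777) (nat_lit 2510948575316348127199104769)) (C.cons (nat_lit 804) (C.miq (nat_lit 2840856609) (nat_lit 678228987022266119597981959)) (C.cons (nat_lit 780) (C.miq (nat_lit 337840777) (nat_lit 2510948575316348127197007617)) (C.cons (nat_lit 772) (C.node (nat_lit 3) (nat_lit 4) (nat_lit 9) (C.cons (nat_lit 792) (C.node (nat_lit 4) (nat_lit 6) (nat_lit 7) (C.cons (nat_lit 216) (C.miq (nat_lit 2490073968) (nat_lit 2575082849946076369928651145)) (C.cons (nat_lit 208) (C.node (nat_lit 3) (nat_lit 4) (nat_lit 7) (C.cons (nat_lit 184) (C.miq (nat_lit 2839743349) (nat_lit 957488895998381806189021409)) (C.cons (nat_lit 152) (C.node (nat_lit 3) (nat_lit 4) (nat_lit 5) (C.cons (nat_lit 120) (C.node (nat_lit 3) (nat_lit 4) (nat_lit 10) C.nil) C.nil)) C.nil))) C.nil))) (C.cons (nat_lit 536) (C.node (nat_lit 4) (nat_lit 8)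 (nat_lit 9) (C.cons (nat_lit 784) (C.node (nat_lit 3) (nat_lit 4) (nat_lit 8) (C.cons (nat_lit 312) (C.node (nat_lit 4) (nat_lit 5) (nat_lit 7) C.nil) C.nil)) C.nil)) C.nil))) C.nil))))) C.nil))) C.nil))) (C.cons (nat_lit 276) (C.node (nat_lit 2) (nat_lit 4) (nat_lit 10) (C.cons (nat_lit 1044) (C.node (nat_lit 2) (nat_lit 6) (nat_lit 11) (C.cons (nat_lit 2372) (C.node (nat_lit 7) (nat_lit 8) (nat_lit 11) (C.cons (nat_lit 2434) (C.miq (nat_lit 2709653430) (nat_lit 317967653179537689321670881)) (C.cons (nat_lit 2432) (C.node (nat_lit 1) (nat_lit 7) (nat_lit 11) (C.cons (nat_lit 2186) (C.miq (nat_lit 826833760) (nat_lit 331252924760142809115199713)) (C.cons (nat_lit 2182) (C.miq (nat_lit 310672224) (nat_lit 333685127965136552971012321)) (C.cons (nat_lit 2178) (C.node (nat_lit 2) (nat_lit 7) (nat_lit 11) (C.cons (nat_lit 3204) (C.miq (nat_lit 1919200128) (nat_lit 720541390529485315075280641)) (C.cons (nat_lit 2180) (C.node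 (nat_lit 6) (nat_lit 7) (nat_lit 8) (C.cons (nat_lit 1472) (C.miq (nat_lit 1948688568) (nat_lit 720546942427211607115566849)) (C.cons (nat_lit 962) (C.miq (nat_lit 611388312) (nat_lit 1415656986847057289475657473)) (C.cons (nat_lit 960) (C.miq (nat_lit 946079634) (nat_lit 407446315208194915669639813)) (C.cons (nat_lit 450) (C.miq (nat_lit 873991015) (nat_lit 331252924729462036661143777)) (C.cons (nat_lit 448) (C.node (nat_lit 2) (nat_lit 5) (nat_lit 6) (C.cons (nat_lit 108) (C.node (nat_lit 1) (nat_lit 2) (nat_lit 6) (C.cons (nat_lit 198) (C.miq (nat_lit 2820737895) (nat_lit 317969092777113360053700833)) (C.cons (nat_lit 70) (C.node (nat_lit 2) (nat_lit 6) (nat_lit 7) (C.cons (nat_lit 196) (C.node (nat_lit 3) (nat_lit 6) (nat_lit 11) (C.cons (nat_lit 2632) (C.miq (nat_lit 908172160) (nat_lit 84634455761026918707040001)) (C.cons (nat_lit 2120) (C.node (nat_lit 6) (nat_lit 9) (nat_lit 11) (C.cons (nat_lit 2624) (C.node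 (nat_lit 4) (nat_lit 5) (nat_lit 6) (C.cons (nat_lit 1136) (C.miq (nat_lit 2254090800) (nat_lit 1373410585693864969537914909)) C.nil)) C.nil)) C.nil))) C.nil)) C.nil))) (C.cons (nat_lit 100) (C.node (nat_lit 3) (nat_lit 6) (nat_lit 11) (C.cons (nat_lit 2632) (C.node (nat_lit 3) (nat_lit 7) (nat_lit 11) (C.cons (nat_lit 3208) (C.miq (nat_lit 1404635764) (nat_lit 3181903106148913967514256531)) (C.cons (nat_lit 2184) (C.node (nat_lit 7) (nat_lit 10) (nat_lit 11) (C.cons (nat_lit 3200) (C.node (nat_lit 4) (nat_lit 9) (nat_lit 10) (C.cons (nat_lit 1560) (C.miq (nat_lit 1402669639) (nat_lit 3181934686974761080160519315)) C.nil)) C.nil)) C.nil))) (C.cons (nat_lit 2120)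
  (C.node (nat_lit 6) (nat_lit 9) (nat_lit 11) (C.cons (nat_lit 2624) (C.node (nat_lit 1) (nat_lit 2) (nat_lit 6) (C.cons (nat_lit 206) (C.miq (nat_lit 2820737895) (nat_lit 317969092777113360054225121)) (C.cons (nat_lit 198) (C.miq (nat_lit 2820737895) (nat_lit 317969092777113360053700833)) (C.cons (nat_lit 78) (C.miq (nat_lit 2606958625) (nat_lit 2562932386311319973685756167)) (C.cons (nat_lit 70) (C.node (nat_lit 4) (nat_lit 6) (nat_lit 7) (C.cons (nat_lit 216) (C.node (nat_lit 2) (nat_lit 3) (nat_lit 6) (C.cons (nat_lit 76) (C.node (nat_lit 3) (nat_lit 7) (nat_lit 11) C.nil) C.nil)) C.nil)) C.nil))))) C.nil)) C.nil))) C.nil))) C.nil)))))) C.nil))) C.nil)))) C.nil))) (C.cons (nat_lit 2116) (C.node (nat_lit 4) (nat_lit 6) (nat_lit 7) (C.cons (nat_lit 216) (C.node (nat_lit 4) (nat_lit 8) (nat_lit 9) (C.cons (nat_lit 792) (C.miq (nat_lit 2490073968) (nat_lit 2575082849946076369928651145)) (C.cons (nat_lit 784) (C.node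 (nat_lit 3) (nat_lit 4) (nat_lit 9) (C.cons (nat_lit 1560) (C.miq (nat_lit 1464011674) (nat_lit 261147623459002638166134529)) C.nil)) C.nil))) (C.cons (nat_lit 208) (C.node (nat_lit 3) (nat_lit 4) (nat_lit 7) (C.cons (nat_lit 184) (C.node (nat_lit 4) (nat_lit 7) (nat_lit 8) C.nil) C.nil)) C.nil))) C.nil))) C.nil)) C.nil))) C.nil))) (C.cons (nat_lit 212) (C.miq (nat_lit 2873493874) (nat_lit 2575032159151589705815163525)) (C.cons (nat_lit 84) (C.node (nat_lit 2) (nat_lit 4) (nat_lit 7) (C.cons (nat_lit 404) (C.node (nat_lit 2) (nat_lit 4) (nat_lit 9) (C.cons (nat_lit 1556) (C.miq (nat_lit 1948694944) (nat_lit 101591699058023412552503041)) (C.cons (nat_lit 532) (C.node (nat_lit 2) (nat_lit 4) (nat_lit 10) (C.cons (nat_lit 1044) (C.node (nat_lit 4) (nat_lit 5) (nat_lit 7) (C.cons (nat_lit 184) (C.miq (nat_lit 271919220) (nat_lit 1287506994087789658186973588)) (C.cons (nat_lit 176) (C.node (nat_lit 3) (nat_lit 4) (nat_lit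 7) (C.cons (nat_lit 216) (C.node (nat_lit 4) (nat_lit 8) (nat_lit 9) (C.cons (nat_lit 792) (C.miq (nat_lit 2490073968) (nat_lit 2575082849946076369928651145)) C.nil)) C.nil)) C.nil))) C.nil)) C.nil))) (C.cons (nat_lit 148) (C.node (nat_lit 4) (nat_lit 6) (nat_lit 7) (C.cons (nat_lit 216) (C.node (nat_lit 3) (nat_lit 4) (nat_lit 9) (C.cons (nat_lit 1560) (C.miq (nat_lit 1464011674) (nat_lit 261147623459002638166134529)) (C.cons (nat_lit 792) (C.miq (nat_lit 2490073968) (nat_lit 2575082849946076369928651145)) (C.cons (nat_lit 536) (C.node (nat_lit 3) (nat_lit 4) (nat_lit 10) (C.cons (nat_lit 1304) (C.miq (nat_lit 2758509424) (nat_lit 2575082850090191558004507017)) (C.cons (nat_lit 1048) (C.node (nat_lit 3) (nat_lit 4) (nat_lit 5) (C.cons (nat_lit 312) (C.node (nat_lit 4) (nat_lit 5) (nat_lit 7) C.nil) C.nil)) C.nil))) C.nil)))) (C.cons (nat_lit 208) (C.node (nat_lit 3) (nat_lit 4) (nat_lit 7) (C.cons (nat_lit 184) (C.node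 (nat_lit 4) (nat_lit 7) (nat_lit 8) (C.cons (nat_lit 400) (C.node (nat_lit 3) (nat_lit 4) (nat_lit 8) (C.cons (nat_lit 1304) (C.miq (nat_lit 2486875984) (nat_lit 1576510123482572689574004961)) (C.cons (nat_lit 792) (C.miq (nat_lit 2839743349) (nat_lit 957488895998381806189021409)) C.nil))) C.nil)) (C.cons (nat_lit 152) (C.node (nat_lit 3) (nat_lit 7) (nat_lit 11) (C.cons (nat_lit 3208) (C.miq (nat_lit 1400113849) (nat_lit 183767073504633614242942721)) (C.cons (nat_lit 2186) (C.miq (nat_lit 826833760) (nat_lit 331252924760142809115199713)) (C.cons (nat_lit 2184) (C.node (nat_lit 3) (nat_lit 10) (nat_lit 11) (C.cons (nat_lit 3082) (C.node (nat_lit 7) (nat_lit 10) (nat_lit 11) (C.cons (nat_lit 3204) (C.miq (nat_lit 2443641778) (nat_lit 1415664033065882956360583197)) (C.cons (nat_lit 3200) (C.node (nat_lit 1) (nat_lit 8) (nat_lit 10) (C.cons (nat_lit 1378) (C.miq (nat_lit 828684928) (nat_lit 2575050310534113033572126465))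 (C.cons (nat_lit 1346) (C.miq (nat_lit 828684928) (nat_lit 2575050310534112896133172993)) (C.cons (nat_lit 1314) (C.miq (nat_lit 2773188896) (nat_lit 2533979372226108220034056455)) (C.cons (nat_lit 1282) (C.node (nat_lit 1) (nat_lit 5) (nat_lit 10)
  (C.cons (nat_lit 1634) (C.miq (nat_lit 827636368) (nat_lit 65320309014143966408412929)) (C.cons (nat_lit 1570) (C.miq (nat_lit 827636368) (nat_lit 65320309014143691530505985)) (C.cons (nat_lit 1122) (C.miq (nat_lit 1101248080) (nat_lit 3725947690539274730599942369)) (C.cons (nat_lit 1058) (C.node (nat_lit 1) (nat_lit 2) (nat_lit 10) (C.cons (nat_lit 1542) (C.node (nat_lit 1) (nat_lit 6) (nat_lit 10) (C.cons (nat_lit 1090) (C.node (nat_lit 1) (nat_lit 9) (nat_lit 11) (C.cons (nat_lit 2594) (C.miq (nat_lit 1695681434) (nat_lit 65302157190266303283597057)) (C.cons (nat_lit 2562) (C.node (nat_lit 2) (nat_lit 4) (nat_lit 9) C.nil) C.nil))) C.nil)) (C.cons (nat_lit 1030) (C.node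 (nat_lit 1) (nat_lit 6) (nat_lit 10) (C.cons (nat_lit 1602) (C.node (nat_lit 3) (nat_lit 6) (nat_lit 11) (C.cons (nat_lit 2632) (C.miq (nat_lit 907327904) (nat_lit 2575050310407450256179662593)) (C.cons (nat_lit 2376) (C.miq (nat_lit 1678999723) (nat_lit 31475900868761589197180673)) (C.cons (nat_lit 2120) (C.node (nat_lit 3) (nat_lit 9) (nat_lit 11) (C.cons (nat_lit 2600) (C.miq (nat_lit 1410568363) (nat_lit 31480033002484494919929601)) (C.cons (nat_lit 2568) (C.node (nat_lit 6) (nat_lit 9) (nat_lit 11) (C.cons (nat_lit 2628) (C.miq (nat_lit 638892448) (nat_lit 2575050310406324356272819969)) (C.cons (nat_lit 2624) (C.node (nat_lit 4) (nat_lit 9) (nat_lit 10) (C.cons (nat_lit 1560) (C.miq (nat_lit 1464011674) (nat_lit 183776371003666370984939265)) (C.cons (nat_lit 1556) (C.miq (nat_lit 1948694944) (nat_lit 101591699058023412552503041)) (C.cons (nat_lit 1552) (C.node (nat_lit 1) (nat_lit 2) (nat_lit 9) C.nil) C.nil))))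 C.nil))) C.nil))) C.nil)))) (C.cons (nat_lit 1090) (C.node (nat_lit 1) (nat_lit 9) (nat_lit 10) (C.cons (nat_lit 1538) (C.node (nat_lit 4) (nat_lit 5) (nat_lit 7) C.nil) C.nil)) C.nil))) C.nil))) C.nil))))) C.nil))))) C.nil))) (C.cons (nat_lit 3080) (C.node (nat_lit 4) (nat_lit 5) (nat_lit 7) (C.cons (nat_lit 432) (C.node (nat_lit 3) (nat_lit 4) (nat_lit 5) (C.cons (nat_lit 120) (C.node (nat_lit 4) (nat_lit 5) (nat_lit 10) C.nil) C.nil)) (C.cons (nat_lit 176) (C.node (nat_lit 4) (nat_lit 7) (nat_lit 8) (C.cons (nat_lit 400) (C.node (nat_lit 2) (nat_lit 4) (nat_lit 8) C.nil) C.nil)) C.nil))) C.nil))) C.nil)))) C.nil))) C.nil))) C.nil))) C.nil)))) C.nil)) C.nil))) List.nil)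

theorem ok12_242 : okL par12 (nat_lit 243) c12_242 (nat_lit 242) = true := by decide +kernel


end Pool.Agent.MP_1f1ca1_co

end

section

set_option autoImplicit false
set_option maxRecDepth 1000000
set_option maxHeartbeats 0

namespace Pool.Agent.MP_1f1ca1_co

noncomputable def c12_315 : List C :=
  (List.cons (C.node (nat_lit 0) (nat_lit 2) (nat_lit 5) (C.cons (nat_lit 37) (C.node (nat_lit 0) (nat_lit 1) (nat_lit 5) (C.cons (nat_lit 547) (C.node (nat_lit 0) (nat_lit 1) (nat_lit 3) (C.cons (nat_lit 75) (C.pat (nat_lit 1) (nat_lit 3073812513) (nat_lit 6080359707048418366848270289682629001)) (C.cons (nat_lit 11) (C.node (nat_lit 0) (nat_lit 1) (nat_lit 6) (C.cons (nat_lit 67) (C.node (nat_lit 0) (nat_lit 3) (nat_lit 6) (C.cons (nat_lit 585) (C.pat (nat_lit 2) (nat_lit 35250414231) (nat_lit 5865282124706057618499862994676829715511444521)) (C.cons (nat_lit 73) (C.node (nat_lit 0) (nat_lit 3) (nat_lit 9) (C.cons (nat_lit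 521) (C.node (nat_lit 0) (nat_lit 4) (nat_lit 5) (C.cons (nat_lit 305) (C.pat (nat_lit 0) (nat_lit 126507843) (nat_lit 304318120127278527910786194016285)) (C.cons (nat_lit 49) (C.node (nat_lit 0) (nat_lit 5) (nat_lit 8) C.nil) C.nil))) C.nil)) C.nil))) C.nil)) C.nil))) (C.cons (nat_lit 35) (C.node (nat_lit 0) (nat_lit 5) (nat_lit 8) (C.cons (nat_lit 305) (C.pat (nat_lit 0) (nat_lit 126507843) (nat_lit 304318120127278527910786194016285)) (C.cons (nat_lit 289) (C.node (nat_lit 0) (nat_lit 4) (nat_lit 5) (C.cons (nat_lit 561) (C.node (nat_lit 0) (nat_lit 4) (nat_lit 6) (C.cons (nat_lit 337) (C.node (nat_lit 0) (nat_lit 1) (nat_lit 3) (C.cons (nat_lit 523) (C.node (nat_lit 0) (nat_lit 1) (nat_lit 6) (C.cons (nat_lit 67) (C.node (nat_lit 0) (nat_lit 3) (nat_lit 6) (C.cons (nat_lit 73) (C.node (nat_lit 0) (nat_lit 6) (nat_lit 9) (C.cons (nat_lit 577) (C.ref (nat_lit 314) (nat_lit 205163983024656)) C.nil)) C.nil)) C.nil)) (C.cons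 (nat_lit 75) (C.pat (nat_lit 1) (nat_lit 3073812513) (nat_lit 6080359707048418366848270289682629001)) (C.cons (nat_lit 11) (C.node (nat_lit 0) (nat_lit 1) (nat_lit 6) (C.cons (nat_lit 579) (C.pat (nat_lit 1) (nat_lit 3058145313) (nat_lit 3006519968120783109055850038232940881)) (C.cons (nat_lit 67) (C.node (nat_lit 0) (nat_lit 1) (nat_lit 9) (C.cons (nat_lit 515) (C.node (nat_lit 0) (nat_lit 3) (nat_lit 6) (C.cons (nat_lit 585) (C.pat (nat_lit 1) (nat_lit 2323211314) (nat_lit 5675484782530547257619346534487884947)) C.nil)) C.nil)) C.nil))) C.nil)))) (C.cons (nat_lit 81) (C.node (nat_lit 0) (nat_lit 4) (nat_lit 8) (C.cons (nat_lit 273) (C.node (nat_lit 0) (nat_lit 6) (nat_lit 8) (C.cons (nat_lit 321) (C.node (nat_lit 0) (nat_lit 1) (nat_lit 3) (C.cons (nat_lit 523) (C.node (nat_lit 0) (nat_lit 1) (nat_lit 6) C.nil) (C.cons (nat_lit 75) (C.pat (nat_lit 1) (nat_lit 3073812513) (nat_lit 6080359707048418366848270289682629001))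 C.nil))) C.nil)) C.nil)) C.nil))) (C.cons (nat_lit 49) (C.node (nat_lit 0) (nat_lit 5) (nat_lit 9) (C.cons (nat_lit 545) (C.node (nat_lit 0) (nat_lit 4) (nat_lit 8) (C.cons (nat_lit 337) (C.node (nat_lit 0) (nat_lit 4) (nat_lit 9) (C.cons (nat_lit 529) (C.node (nat_lit 0) (nat_lit 1) (nat_lit 3) (C.cons (nat_lit 523) (C.node (nat_lit 0) (nat_lit 1) (nat_lit 6) C.nil) (C.cons (nat_lit 75) (C.pat (nat_lit 1) (nat_lit 3073812513) (nat_lit 6080359707048418366848270289682629001)) C.nil))) C.nil)) (C.cons (nat_lit 273) (C.node (nat_lit 0) (nat_lit 6) (nat_lit 8) C.nil) C.nil))) C.nil)) C.nil))) C.nil))) C.nil))) C.nil)) (List.cons (C.node (nat_lit 0) (nat_lit 3) (nat_lit 6) (C.cons (nat_lit 73) (C.node (nat_lit 0) (nat_lit 1) (nat_lit 5) (C.cons (nat_lit 291) (C.node (nat_lit 0) (nat_lit 1) (nat_lit 6) (C.cons (nat_lit 67) (C.node (nat_lit 0) (nat_lit 4) (nat_lit 5) (C.cons (nat_lit 561) (C.pat (nat_lit 1) (nat_lit 3041364273)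 (nat_lit 1511138472862752752039068212092535345)) (C.cons (nat_lit 49) (C.node (nat_lit 0) (nat_lit 5) (nat_lit 9) C.nil) C.nil))) C.nil)) (C.cons (nat_lit 35) (C.node (nat_lit 0) (nat_lit 1) (nat_lit 6) (C.cons (nat_lit 323) (C.node (nat_lit 0) (nat_lit 4) (nat_lit 6) (C.cons (nat_lit 593) (C.pat (nat_lit 0) (nat_lit 127560514) (nat_lit 304318120127278608976661820278813)) (C.cons (nat_lit 81) (C.node (nat_lit 0) (nat_lit 6) (nat_lit 9) C.nil) C.nil))) (C.cons (nat_lit 67)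
  (C.node (nat_lit 0) (nat_lit 1) (nat_lit 8) C.nil) C.nil))) C.nil))) C.nil)) (List.cons (C.node (nat_lit 0) (nat_lit 1) (nat_lit 2) (C.cons (nat_lit 263) (C.node (nat_lit 0) (nat_lit 2) (nat_lit 5) (C.cons (nat_lit 37) (C.node (nat_lit 0) (nat_lit 5) (nat_lit 8) (C.cons (nat_lit 305) (C.node (nat_lit 0) (nat_lit 6) (nat_lit 8) (C.cons (nat_lit 321) (C.node (nat_lit 0) (nat_lit 4) (nat_lit 6) (C.cons (nat_lit 593) (C.pat (nat_lit 0) (nat_lit 127560514) (nat_lit 304318120127278608976661820278813)) (C.cons (nat_lit 81) (C.node (nat_lit 0) (nat_lit 4) (nat_lit 9) (C.cons (nat_lit 529) (C.node (nat_lit 0) (nat_lit 1) (nat_lit 5) (C.cons (nat_lit 547) (C.pat (nat_lit 1) (nat_lit 3041368097) (nat_lit 2840366468647668624942874155697897777)) (C.cons (nat_lit 43) (C.node (nat_lit 0) (nat_lit 5) (nat_lit 9) C.nil) C.nil))) C.nil)) C.nil))) C.nil)) (C.cons (nat_lit 289) (C.node (nat_lit 0) (nat_lit 4) (nat_lit 5) (C.cons (nat_lit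 561) (C.node (nat_lit 0) (nat_lit 1) (nat_lit 5) (C.cons (nat_lit 43) (C.node (nat_lit 0) (nat_lit 1) (nat_lit 6) (C.cons (nat_lit 579) (C.node (nat_lit 0) (nat_lit 3) (nat_lit 6) (C.cons (nat_lit 73) (C.node (nat_lit 0) (nat_lit 3) (nat_lit 9) (C.cons (nat_lit 521) (C.node (nat_lit 0) (nat_lit 4) (nat_lit 6) (C.cons (nat_lit 337) (C.pat (nat_lit 1) (nat_lit 3058145313) (nat_lit 3006519968120783109055850038232940881)) C.nil)) C.nil)) C.nil)) (C.cons (nat_lit 67) (C.node (nat_lit 0) (nat_lit 1) (nat_lit 9) (C.cons (nat_lit 515) (C.node (nat_lit 0) (nat_lit 3) (nat_lit 6) (C.cons (nat_lit 585) (C.node (nat_lit 0) (nat_lit 4) (nat_lit 6) (C.cons (nat_lit 337) (C.pat (nat_lit 1) (nat_lit 2323211314) (nat_lit 5675484782530547257619346534487884947)) C.nil)) C.nil)) C.nil)) C.nil))) (C.cons (nat_lit 35) (C.node (nat_lit 0) (nat_lit 3) (nat_lit 5) (C.cons (nat_lit 41) (C.node (nat_lit 0) (nat_lit 4) (nat_lit 6) (C.cons (nat_lit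 337) (C.node (nat_lit 0) (nat_lit 1) (nat_lit 9) (C.cons (nat_lit 523) (C.node (nat_lit 0) (nat_lit 1) (nat_lit 6) C.nil) (C.cons (nat_lit 579) (C.pat (nat_lit 1) (nat_lit 3080077953) (nat_lit 6080359707657684440374019228953543301)) C.nil))) C.nil)) C.nil)) C.nil))) (C.cons (nat_lit 49) (C.node (nat_lit 0) (nat_lit 4) (nat_lit 8) (C.cons (nat_lit 337) (C.node (nat_lit 0) (nat_lit 4) (nat_lit 9) (C.cons (nat_lit 529) (C.node (nat_lit 0) (nat_lit 1) (nat_lit 5) (C.cons (nat_lit 547) (C.node (nat_lit 0) (nat_lit 3) (nat_lit 5) C.nil) (C.cons (nat_lit 43) (C.node (nat_lit 0) (nat_lit 9) (nat_lit 5) C.nil) C.nil))) C.nil)) (C.cons (nat_lit 273) (C.node (nat_lit 0) (nat_lit 6) (nat_lit 8) C.nil) C.nil))) C.nil))) C.nil))) C.nil)) (C.cons (nat_lit 39) (C.node (nat_lit 0) (nat_lit 2) (nat_lit 8) (C.cons (nat_lit 261) (C.node (nat_lit 0) (nat_lit 1) (nat_lit 8) (C.cons (nat_lit 323) (C.node (nat_lit 0) (nat_lit 1) (nat_lit 3)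 (C.cons (nat_lit 523) (C.node (nat_lit 0) (nat_lit 3) (nat_lit 5) (C.cons (nat_lit 41) (C.node (nat_lit 0) (nat_lit 3) (nat_lit 6) (C.cons (nat_lit 73) (C.node (nat_lit 0) (nat_lit 4) (nat_lit 6) (C.cons (nat_lit 593) (C.pat (nat_lit 0) (nat_lit 127560514) (nat_lit 304318120127278608976661820278813)) (C.cons (nat_lit 81) (C.node (nat_lit 0) (nat_lit 6) (nat_lit 9) C.nil) C.nil))) C.nil)) C.nil)) (C.cons (nat_lit 11) (C.node (nat_lit 0) (nat_lit 1) (nat_lit 9) (C.cons (nat_lit 515) (C.node (nat_lit 0) (nat_lit 3) (nat_lit 5) (C.cons (nat_lit 553) (C.node (nat_lit 0) (nat_lit 3) (nat_lit 6) (C.cons (nat_lit 73) (C.node (nat_lit 0) (nat_lit 4) (nat_lit 5) (C.cons (nat_lit 305) (C.pat (nat_lit 1) (nat_lit 3091883297) (nat_lit 1677416202094660678138681116246475057)) C.nil)) C.nil)) (C.cons (nat_lit 41) (C.node (nat_lit 0) (nat_lit 3) (nat_lit 6) (C.cons (nat_lit 585) (C.node (nat_lit 0) (nat_lit 4) (nat_lit 6) C.nil) C.nil))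 C.nil))) C.nil)) C.nil))) (C.cons (nat_lit 259) (C.node (nat_lit 0) (nat_lit 3) (nat_lit 5) (C.cons (nat_lit 553) (C.node (nat_lit 0) (nat_lit 1) (nat_lit 3) (C.cons (nat_lit 75) (C.node (nat_lit 0) (nat_lit 1) (nat_lit 9) (C.cons (nat_lit 515)
  (C.node (nat_lit 0) (nat_lit 4) (nat_lit 5) (C.cons (nat_lit 305) (C.node (nat_lit 0) (nat_lit 6) (nat_lit 8) (C.cons (nat_lit 321) (C.node (nat_lit 0) (nat_lit 4) (nat_lit 6) (C.cons (nat_lit 593) (C.pat (nat_lit 0) (nat_lit 127560514) (nat_lit 304318120127278608976661820278813)) C.nil)) C.nil)) (C.cons (nat_lit 49) (C.node (nat_lit 0) (nat_lit 5) (nat_lit 8) C.nil) C.nil))) C.nil)) (C.cons (nat_lit 11) (C.node (nat_lit 0) (nat_lit 3) (nat_lit 6) (C.cons (nat_lit 73) (C.node (nat_lit 0) (nat_lit 1) (nat_lit 6) (C.cons (nat_lit 579) (C.node (nat_lit 0) (nat_lit 4) (nat_lit 9) C.nil) C.nil)) C.nil)) C.nil))) (C.cons (nat_lit 41) (C.node (nat_lit 0) (nat_lit 5) (nat_lit 8) (C.cons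 (nat_lit 305) (C.node (nat_lit 0) (nat_lit 5) (nat_lit 9) (C.cons (nat_lit 545) (C.node (nat_lit 0) (nat_lit 6) (nat_lit 8) C.nil) C.nil)) (C.cons (nat_lit 289) (C.node (nat_lit 0) (nat_lit 4) (nat_lit 5) (C.cons (nat_lit 561) (C.node (nat_lit 0) (nat_lit 4) (nat_lit 6) (C.cons (nat_lit 337) (C.node (nat_lit 0) (nat_lit 1) (nat_lit 3) (C.cons (nat_lit 523) (C.node (nat_lit 0) (nat_lit 1) (nat_lit 6) C.nil) (C.cons (nat_lit 75) (C.node (nat_lit 0) (nat_lit 1) (nat_lit 9) C.nil) C.nil))) C.nil)) C.nil)) C.nil))) C.nil))) C.nil))) C.nil)) (C.cons (nat_lit 7) (C.node (nat_lit 0) (nat_lit 2) (nat_lit 5) (C.cons (nat_lit 293) (C.node (nat_lit 0) (nat_lit 1) (nat_lit 8) (C.cons (nat_lit 323) (C.node (nat_lit 0) (nat_lit 4) (nat_lit 8) (C.cons (nat_lit 273) (C.node (nat_lit 0) (nat_lit 3) (nat_lit 6) (C.cons (nat_lit 585) (C.node (nat_lit 0) (nat_lit 4) (nat_lit 6) (C.cons (nat_lit 81) (C.node (nat_lit 0) (nat_lit 1) (nat_lit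 3) (C.cons (nat_lit 43) (C.pat (nat_lit 2) (nat_lit 15469806966) (nat_lit 959330517537543824803809480476049545696972545)) (C.cons (nat_lit 11) (C.node (nat_lit 0) (nat_lit 3) (nat_lit 5) C.nil) C.nil))) C.nil)) (C.cons (nat_lit 73) (C.node (nat_lit 0) (nat_lit 4) (nat_lit 5) (C.cons (nat_lit 561) (C.node (nat_lit 0) (nat_lit 4) (nat_lit 6) (C.cons (nat_lit 81) (C.node (nat_lit 0) (nat_lit 6) (nat_lit 9) C.nil) C.nil)) (C.cons (nat_lit 49) (C.node (nat_lit 0) (nat_lit 4) (nat_lit 6) (C.cons (nat_lit 593) (C.pat (nat_lit 0) (nat_lit 127560514) (nat_lit 304318120127278608976661820278813)) C.nil)) C.nil))) C.nil))) C.nil)) (C.cons (nat_lit 259) (C.node (nat_lit 0) (nat_lit 4) (nat_lit 5) (C.cons (nat_lit 561) (C.node (nat_lit 0) (nat_lit 1) (nat_lit 5) (C.cons (nat_lit 43) (C.node (nat_lit 0) (nat_lit 1) (nat_lit 6) (C.cons (nat_lit 579) (C.node (nat_lit 0) (nat_lit 3) (nat_lit 6) (C.cons (nat_lit 73) (C.node (nat_lit 0)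 (nat_lit 3) (nat_lit 9) (C.cons (nat_lit 521) (C.node (nat_lit 0) (nat_lit 4) (nat_lit 6) (C.cons (nat_lit 337) (C.pat (nat_lit 1) (nat_lit 1251436626) (nat_lit 5675273243336634171885251906116849409)) C.nil)) C.nil)) C.nil)) (C.cons (nat_lit 67) (C.node (nat_lit 0) (nat_lit 1) (nat_lit 9) (C.cons (nat_lit 515) (C.node (nat_lit 0) (nat_lit 3) (nat_lit 6) (C.cons (nat_lit 585) (C.node (nat_lit 0) (nat_lit 4) (nat_lit 6) (C.cons (nat_lit 337) (C.pat (nat_lit 1) (nat_lit 2323211314) (nat_lit 5675484782530547257619346534487884947)) C.nil)) C.nil)) C.nil)) C.nil))) (C.cons (nat_lit 35) (C.node (nat_lit 0) (nat_lit 3) (nat_lit 5) (C.cons (nat_lit 41) (C.node (nat_lit 0) (nat_lit 4) (nat_lit 6) (C.cons (nat_lit 337) (C.pat (nat_lit 1) (nat_lit 1251436626) (nat_lit 5675273243336634171885251906116849409)) C.nil)) C.nil)) C.nil))) (C.cons (nat_lit 49) (C.node (nat_lit 0) (nat_lit 4) (nat_lit 8) (C.cons (nat_lit 337) (C.node (nat_lit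 0) (nat_lit 4) (nat_lit 9) (C.cons (nat_lit 529) (C.node (nat_lit 0) (nat_lit 1) (nat_lit 5) (C.cons (nat_lit 547) (C.node (nat_lit 0) (nat_lit 3) (nat_lit 5) C.nil) (C.cons (nat_lit 43) (C.node (nat_lit 0) (nat_lit 9) (nat_lit 5) C.nil) C.nil))) C.nil)) (C.cons (nat_lit 273) (C.node (nat_lit 0) (nat_lit 6) (nat_lit 8) C.nil) C.nil))) C.nil))) C.nil))) (C.cons (nat_lit 37) (C.node (nat_lit 0) (nat_lit 2) (nat_lit 8) (C.cons (nat_lit 261) (C.node (nat_lit 0) (nat_lit 1) (nat_lit 8) (C.cons (nat_lit 323)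
  (C.node (nat_lit 0) (nat_lit 3) (nat_lit 6) (C.cons (nat_lit 585) (C.node (nat_lit 0) (nat_lit 4) (nat_lit 6) (C.cons (nat_lit 81) (C.node (nat_lit 0) (nat_lit 1) (nat_lit 3) (C.cons (nat_lit 43) (C.node (nat_lit 0) (nat_lit 1) (nat_lit 9) C.nil) C.nil)) C.nil)) (C.cons (nat_lit 73) (C.node (nat_lit 0) (nat_lit 4) (nat_lit 6) (C.cons (nat_lit 593) (C.pat (nat_lit 0) (nat_lit 127560514) (nat_lit 304318120127278608976661820278813)) C.nil)) C.nil))) (C.cons (nat_lit 291) (C.node (nat_lit 0) (nat_lit 3) (nat_lit 5) (C.cons (nat_lit 553) (C.node (nat_lit 0) (nat_lit 4) (nat_lit 5) (C.cons (nat_lit 49) (C.node (nat_lit 0) (nat_lit 1) (nat_lit 3) (C.cons (nat_lit 75) (C.node (nat_lit 0) (nat_lit 1) (nat_lit 9) C.nil) C.nil)) C.nil)) (C.cons (nat_lit 41) (C.node (nat_lit 0) (nat_lit 4) (nat_lit 5) (C.cons (nat_lit 561) (C.node (nat_lit 0) (nat_lit 4) (nat_lit 6) (C.cons (nat_lit 337) (C.node (nat_lit 0) (nat_lit 1) (nat_lit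 9) (C.cons (nat_lit 579) (C.node (nat_lit 0) (nat_lit 1) (nat_lit 3) C.nil) (C.cons (nat_lit 523) (C.pat (nat_lit 1) (nat_lit 3029562753) (nat_lit 6080344178870135414227270227890602545)) C.nil))) C.nil)) C.nil)) C.nil))) (C.cons (nat_lit 259) (C.node (nat_lit 0) (nat_lit 5) (nat_lit 8) (C.cons (nat_lit 305) (C.node (nat_lit 0) (nat_lit 6) (nat_lit 8) C.nil) C.nil)) C.nil)))) C.nil)) C.nil))) C.nil)))) (List.cons (C.node (nat_lit 0) (nat_lit 3) (nat_lit 10) (C.cons (nat_lit 1065) (C.node (nat_lit 0) (nat_lit 1) (nat_lit 2) (C.cons (nat_lit 263) (C.ref (nat_lit 315) (nat_lit 205163983024656)) (C.cons (nat_lit 39) (C.ref (nat_lit 315) (nat_lit 201647263592976)) (C.cons (nat_lit 7) (C.node (nat_lit 0) (nat_lit 2) (nat_lit 5) (C.cons (nat_lit 293) (C.node (nat_lit 0) (nat_lit 1) (nat_lit 5) (C.cons (nat_lit 547) (C.node (nat_lit 0) (nat_lit 4) (nat_lit 5) (C.cons (nat_lit 49) (C.node (nat_lit 0) (nat_lit 1) (nat_lit 3) (C.cons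 (nat_lit 75) (C.pat (nat_lit 2) (nat_lit 6848423541) (nat_lit 1672689624209120915685954011901114719712382721)) (C.cons (nat_lit 11) (C.node (nat_lit 0) (nat_lit 1) (nat_lit 6) (C.cons (nat_lit 323) (C.pat (nat_lit 1) (nat_lit 713455953) (nat_lit 6080266218116406181898128228817637121)) (C.cons (nat_lit 67) (C.node (nat_lit 0) (nat_lit 1) (nat_lit 8) (C.cons (nat_lit 259) (C.node (nat_lit 0) (nat_lit 3) (nat_lit 6) (C.cons (nat_lit 585) (C.pat (nat_lit 1) (nat_lit 967211090) (nat_lit 3349077823551397835748645120136777473)) (C.cons (nat_lit 73) (C.node (nat_lit 0) (nat_lit 3) (nat_lit 9) C.nil) C.nil))) C.nil)) C.nil))) C.nil))) C.nil)) (C.cons (nat_lit 35) (C.node (nat_lit 0) (nat_lit 1) (nat_lit 8) (C.cons (nat_lit 323) (C.node (nat_lit 0) (nat_lit 4) (nat_lit 8) (C.cons (nat_lit 273) (C.node (nat_lit 0) (nat_lit 1) (nat_lit 3) (C.cons (nat_lit 523) (C.pat (nat_lit 2) (nat_lit 39293657991) (nat_lit 11663399651557678662357319007752731020753437765))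 (C.cons (nat_lit 11) (C.node (nat_lit 0) (nat_lit 1) (nat_lit 9) (C.cons (nat_lit 515) (C.node (nat_lit 0) (nat_lit 3) (nat_lit 9) (C.cons (nat_lit 585) (C.pat (nat_lit 1) (nat_lit 913941890) (nat_lit 5675226815633414242165819953930897633)) (C.cons (nat_lit 521) (C.node (nat_lit 0) (nat_lit 3) (nat_lit 6) C.nil) C.nil))) C.nil)) C.nil))) C.nil)) (C.cons (nat_lit 259) (C.node (nat_lit 0) (nat_lit 4) (nat_lit 5) (C.cons (nat_lit 561) (C.pat (nat_lit 1) (nat_lit 2841146418) (nat_lit 3349335789481417976307043367603733041)) (C.cons (nat_lit 49) (C.node (nat_lit 0) (nat_lit 5) (nat_lit 9) (C.cons (nat_lit 545) (C.node (nat_lit 0) (nat_lit 4) (nat_lit 8) (C.cons (nat_lit 337) (C.pat (nat_lit 1) (nat_lit 1988469810) (nat_lit 5675360552346198387218207861874688337)) (C.cons (nat_lit 273) (C.node (nat_lit 0) (nat_lit 6) (nat_lit 8) C.nil) C.nil))) C.nil)) C.nil))) C.nil))) C.nil))) (C.cons (nat_lit 37) (C.node (nat_lit 0) (nat_lit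 2) (nat_lit 8) (C.cons (nat_lit 261) (C.node (nat_lit 0) (nat_lit 1) (nat_lit 3) (C.cons (nat_lit 523) (C.ref (nat_lit 316) (nat_lit 205163983024656)) (C.cons (nat_lit 75) (C.ref (nat_lit 316) (nat_lit 201647263592976))
  (C.cons (nat_lit 11) (C.node (nat_lit 0) (nat_lit 3) (nat_lit 6) (C.cons (nat_lit 585) (C.node (nat_lit 0) (nat_lit 1) (nat_lit 6) (C.cons (nat_lit 323) (C.node (nat_lit 0) (nat_lit 4) (nat_lit 6) (C.cons (nat_lit 81) (C.node (nat_lit 0) (nat_lit 1) (nat_lit 5) (C.cons (nat_lit 547) (C.pat (nat_lit 1) (nat_lit 950495569) (nat_lit 1677143023390280356313811660472127233)) (C.cons (nat_lit 35) (C.node (nat_lit 0) (nat_lit 1) (nat_lit 9) C.nil) C.nil))) C.nil)) (C.cons (nat_lit 67) (C.node (nat_lit 0) (nat_lit 1) (nat_lit 8) (C.cons (nat_lit 291) (C.node (nat_lit 0) (nat_lit 1) (nat_lit 9) (C.cons (nat_lit 515) (C.node (nat_lit 0) (nat_lit 4) (nat_lit 5) (C.cons (nat_lit 561) (C.pat (nat_lit 1) (nat_lit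 1470534706) (nat_lit 3349211560689725013003515067640644755)) C.nil)) C.nil)) (C.cons (nat_lit 259) (C.node (nat_lit 0) (nat_lit 1) (nat_lit 5) (C.cons (nat_lit 547) (C.node (nat_lit 0) (nat_lit 4) (nat_lit 9) C.nil) C.nil)) C.nil))) C.nil))) (C.cons (nat_lit 73) (C.node (nat_lit 0) (nat_lit 3) (nat_lit 9) (C.cons (nat_lit 521) (C.node (nat_lit 0) (nat_lit 1) (nat_lit 5) (C.cons (nat_lit 547) (C.node (nat_lit 0) (nat_lit 1) (nat_lit 6) (C.cons (nat_lit 323) (C.node (nat_lit 0) (nat_lit 4) (nat_lit 5) (C.cons (nat_lit 305) (C.pat (nat_lit 0) (nat_lit 126507843) (nat_lit 304318120127278527910786194016285)) C.nil)) C.nil)) (C.cons (nat_lit 291) (C.node (nat_lit 0) (nat_lit 1) (nat_lit 6) (C.cons (nat_lit 579) (C.node (nat_lit 0) (nat_lit 4) (nat_lit 5) (C.cons (nat_lit 561) (C.node (nat_lit 0) (nat_lit 4) (nat_lit 6) (C.cons (nat_lit 337) (C.ref (nat_lit 314) (nat_lit 205163124450576)) C.nil)) C.nil)) C.nil)) C.nil))) C.nil))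 C.nil))) C.nil)))) C.nil)) C.nil))) C.nil)))) (C.cons (nat_lit 1033) (C.node (nat_lit 0) (nat_lit 5) (nat_lit 10) (C.cons (nat_lit 1057) (C.ref (nat_lit 317) (nat_lit 205163983024656)) C.nil)) C.nil))) (List.cons (C.node (nat_lit 0) (nat_lit 3) (nat_lit 6) (C.cons (nat_lit 585) (C.node (nat_lit 0) (nat_lit 1) (nat_lit 3) (C.cons (nat_lit 43) (C.node (nat_lit 0) (nat_lit 1) (nat_lit 9) (C.cons (nat_lit 515) (C.node (nat_lit 0) (nat_lit 4) (nat_lit 5) (C.cons (nat_lit 561) (C.pat (nat_lit 1) (nat_lit 2507421217) (nat_lit 223313213331831016615766869038401761)) C.nil)) C.nil)) (C.cons (nat_lit 11) (C.node (nat_lit 0) (nat_lit 3) (nat_lit 5) C.nil) C.nil))) (C.cons (nat_lit 73) (C.node (nat_lit 0) (nat_lit 4) (nat_lit 5) (C.cons (nat_lit 561) (C.node (nat_lit 0) (nat_lit 6) (nat_lit 9) C.nil) C.nil)) C.nil))) (List.cons (C.node (nat_lit 0) (nat_lit 2) (nat_lit 5) (C.cons (nat_lit 293) (C.node (nat_lit 0) (nat_lit 1) (nat_lit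 2) (C.cons (nat_lit 71) (C.node (nat_lit 0) (nat_lit 1) (nat_lit 8) (C.cons (nat_lit 259) (C.ref (nat_lit 319) (nat_lit 205163983024656)) C.nil)) (C.cons (nat_lit 7) (C.node (nat_lit 0) (nat_lit 2) (nat_lit 6) (C.cons (nat_lit 69) (C.node (nat_lit 0) (nat_lit 1) (nat_lit 8) (C.cons (nat_lit 323) (C.node (nat_lit 0) (nat_lit 4) (nat_lit 8) C.nil) C.nil)) C.nil)) C.nil))) (C.cons (nat_lit 39) (C.node (nat_lit 0) (nat_lit 1) (nat_lit 8) (C.cons (nat_lit 323) (C.node (nat_lit 0) (nat_lit 2) (nat_lit 6) (C.cons (nat_lit 69) (C.node (nat_lit 0) (nat_lit 2) (nat_lit 8) (C.cons (nat_lit 261) (C.node (nat_lit 0) (nat_lit 1) (nat_lit 3) (C.cons (nat_lit 523) (C.node (nat_lit 0) (nat_lit 3) (nat_lit 5) C.nil) C.nil)) C.nil)) C.nil)) (C.cons (nat_lit 259) (C.node (nat_lit 0) (nat_lit 2) (nat_lit 6) (C.cons (nat_lit 325) (C.ref (nat_lit 319) (nat_lit 205163967296016)) (C.cons (nat_lit 69) (C.node (nat_lit 0) (nat_lit 2) (nat_lit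 8) C.nil) C.nil))) C.nil))) (C.cons (nat_lit 37) (C.node (nat_lit 0) (nat_lit 1) (nat_lit 2) (C.cons (nat_lit 263) (C.node (nat_lit 0) (nat_lit 2) (nat_lit 6) (C.cons (nat_lit 69) (C.node (nat_lit 0) (nat_lit 5) (nat_lit 8) (C.cons (nat_lit 305) (C.node (nat_lit 0) (nat_lit 6) (nat_lit 8) C.nil) C.nil)) C.nil)) (C.cons (nat_lit 71) (C.node (nat_lit 0) (nat_lit 2) (nat_lit 8) (C.cons (nat_lit 261) (C.node (nat_lit 0) (nat_lit 1) (nat_lit 8) (C.cons (nat_lit 291)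
  (C.node (nat_lit 0) (nat_lit 1) (nat_lit 3) (C.cons (nat_lit 523) (C.node (nat_lit 0) (nat_lit 3) (nat_lit 6) C.nil) C.nil)) C.nil)) C.nil)) (C.cons (nat_lit 7) (C.node (nat_lit 0) (nat_lit 2) (nat_lit 6) (C.cons (nat_lit 325) (C.node (nat_lit 0) (nat_lit 1) (nat_lit 8) (C.cons (nat_lit 291) (C.node (nat_lit 0) (nat_lit 4) (nat_lit 8) C.nil) C.nil)) C.nil)) C.nil)))) C.nil)))) (List.cons (C.node (nat_lit 0) (nat_lit 2) (nat_lit 5) (C.cons (nat_lit 37) (C.node (nat_lit 0) (nat_lit 1) (nat_lit 5) (C.cons (nat_lit 547) (C.node (nat_lit 0) (nat_lit 1) (nat_lit 3) (C.cons (nat_lit 75) (C.node (nat_lit 0) (nat_lit 3) (nat_lit 9) (C.cons (nat_lit 521) (C.node (nat_lit 0) (nat_lit 3) (nat_lit 5) (C.cons (nat_lit 297) (C.node (nat_lit 0) (nat_lit 4) (nat_lit 5) C.nil) C.nil)) C.nil)) (C.cons (nat_lit 11) (C.node (nat_lit 0) (nat_lit 1) (nat_lit 6) C.nil) C.nil))) (C.cons (nat_lit 43) (C.node (nat_lit 0) (nat_lit 1) (nat_lit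 6) (C.cons (nat_lit 579) (C.node (nat_lit 0) (nat_lit 3) (nat_lit 9) (C.cons (nat_lit 521) (C.node (nat_lit 0) (nat_lit 3) (nat_lit 6) (C.cons (nat_lit 329) (C.node (nat_lit 0) (nat_lit 4) (nat_lit 6) C.nil) C.nil)) C.nil)) (C.cons (nat_lit 67) (C.node (nat_lit 0) (nat_lit 1) (nat_lit 9) C.nil) C.nil))) (C.cons (nat_lit 35) (C.node (nat_lit 0) (nat_lit 1) (nat_lit 3) (C.cons (nat_lit 523) (C.node (nat_lit 0) (nat_lit 1) (nat_lit 6) C.nil) (C.cons (nat_lit 75) (C.node (nat_lit 0) (nat_lit 1) (nat_lit 9) C.nil) C.nil))) C.nil)))) C.nil)) (List.cons (C.node (nat_lit 0) (nat_lit 3) (nat_lit 10) (C.cons (nat_lit 1065) (C.ref (nat_lit 317) (nat_lit 201647263592976)) (C.cons (nat_lit 1033) (C.node (nat_lit 0) (nat_lit 5) (nat_lit 10) (C.cons (nat_lit 1057) (C.node (nat_lit 0) (nat_lit 1) (nat_lit 2) (C.cons (nat_lit 263) (C.ref (nat_lit 321) (nat_lit 205163983024656)) (C.cons (nat_lit 39) (C.ref (nat_lit 321) (nat_lit 201647263592976))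 (C.cons (nat_lit 7) (C.node (nat_lit 0) (nat_lit 2) (nat_lit 5) (C.cons (nat_lit 293) (C.node (nat_lit 0) (nat_lit 4) (nat_lit 5) (C.cons (nat_lit 561) (C.node (nat_lit 0) (nat_lit 1) (nat_lit 5) (C.cons (nat_lit 43) (C.node (nat_lit 0) (nat_lit 1) (nat_lit 8) (C.cons (nat_lit 323) (C.node (nat_lit 0) (nat_lit 1) (nat_lit 9) (C.cons (nat_lit 515) (C.node (nat_lit 0) (nat_lit 3) (nat_lit 8) C.nil) C.nil)) (C.cons (nat_lit 259) (C.node (nat_lit 0) (nat_lit 1) (nat_lit 6) (C.cons (nat_lit 579) (C.node (nat_lit 0) (nat_lit 3) (nat_lit 9) C.nil) C.nil)) C.nil))) (C.cons (nat_lit 35) (C.node (nat_lit 0) (nat_lit 3) (nat_lit 5) C.nil) C.nil))) (C.cons (nat_lit 49) (C.node (nat_lit 0) (nat_lit 4) (nat_lit 8) (C.cons (nat_lit 337) (C.node (nat_lit 0) (nat_lit 4) (nat_lit 9) C.nil) C.nil)) C.nil))) (C.cons (nat_lit 37) (C.node (nat_lit 0) (nat_lit 2) (nat_lit 8) C.nil) C.nil))) C.nil)))) C.nil)) C.nil))) (List.cons (C.node (nat_lit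 0) (nat_lit 2) (nat_lit 5) (C.cons (nat_lit 293) (C.node (nat_lit 0) (nat_lit 1) (nat_lit 2) (C.cons (nat_lit 71) (C.node (nat_lit 0) (nat_lit 1) (nat_lit 5) (C.cons (nat_lit 547) (C.node (nat_lit 0) (nat_lit 4) (nat_lit 5) (C.cons (nat_lit 49) (C.node (nat_lit 0) (nat_lit 1) (nat_lit 3) (C.cons (nat_lit 267) (C.node (nat_lit 0) (nat_lit 3) (nat_lit 6) (C.cons (nat_lit 585) (C.pat (nat_lit 1) (nat_lit 3107477025) (nat_lit 2840490697313593125997887657443918409)) (C.cons (nat_lit 73) (C.node (nat_lit 0) (nat_lit 3) (nat_lit 9) C.nil) C.nil))) (C.cons (nat_lit 11) (C.node (nat_lit 0) (nat_lit 1) (nat_lit 8) C.nil) C.nil))) C.nil)) (C.cons (nat_lit 35) (C.node (nat_lit 0) (nat_lit 1) (nat_lit 8) (C.cons (nat_lit 267) (C.node (nat_lit 0) (nat_lit 1) (nat_lit 9) (C.cons (nat_lit 515) (C.node (nat_lit 0) (nat_lit 3) (nat_lit 6) (C.cons (nat_lit 585) (C.node (nat_lit 0) (nat_lit 4) (nat_lit 5) (C.cons (nat_lit 561) (C.node (nat_lit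 0) (nat_lit 4) (nat_lit 6) (C.cons (nat_lit 337) (C.pat (nat_lit 2) (nat_lit 35821019970) (nat_lit 5954697441572246035966785006701915916835031265)) C.nil)) C.nil)) C.nil)) C.nil)) (C.cons (nat_lit 259) (C.node (nat_lit 0) (nat_lit 1) (nat_lit 3)
  (C.cons (nat_lit 523) (C.node (nat_lit 0) (nat_lit 3) (nat_lit 6) (C.cons (nat_lit 329) (C.pat (nat_lit 5) (nat_lit 624823917347) (nat_lit 85657935772725207691265776697019563961705889863)) C.nil)) C.nil)) C.nil))) C.nil))) (C.cons (nat_lit 7) (C.node (nat_lit 0) (nat_lit 2) (nat_lit 6) (C.cons (nat_lit 69) (C.node (nat_lit 0) (nat_lit 1) (nat_lit 5) (C.cons (nat_lit 547) (C.node (nat_lit 0) (nat_lit 4) (nat_lit 5) C.nil) C.nil)) C.nil)) C.nil))) (C.cons (nat_lit 39) (C.node (nat_lit 0) (nat_lit 2) (nat_lit 6) (C.cons (nat_lit 325) (C.node (nat_lit 0) (nat_lit 1) (nat_lit 8) (C.cons (nat_lit 267) (C.node (nat_lit 0) (nat_lit 1) (nat_lit 6) (C.cons (nat_lit 579) (C.node (nat_lit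 0) (nat_lit 3) (nat_lit 6) (C.cons (nat_lit 73) (C.node (nat_lit 0) (nat_lit 3) (nat_lit 9) (C.cons (nat_lit 521) (C.node (nat_lit 0) (nat_lit 4) (nat_lit 6) C.nil) C.nil)) C.nil)) (C.cons (nat_lit 67) (C.node (nat_lit 0) (nat_lit 1) (nat_lit 9) (C.cons (nat_lit 515) (C.node (nat_lit 0) (nat_lit 3) (nat_lit 6) (C.cons (nat_lit 585) (C.pat (nat_lit 5) (nat_lit 350702967602) (nat_lit 50690900866361248971002443969301162457985253643)) C.nil)) C.nil)) C.nil))) (C.cons (nat_lit 259) (C.node (nat_lit 0) (nat_lit 3) (nat_lit 8) (C.cons (nat_lit 265) (C.node (nat_lit 0) (nat_lit 4) (nat_lit 6) (C.cons (nat_lit 593) (C.node (nat_lit 0) (nat_lit 5) (nat_lit 9) C.nil) C.nil)) C.nil)) C.nil))) (C.cons (nat_lit 69) (C.node (nat_lit 0) (nat_lit 2) (nat_lit 8) (C.cons (nat_lit 261) (C.node (nat_lit 0) (nat_lit 5) (nat_lit 8) (C.cons (nat_lit 305) (C.node (nat_lit 0) (nat_lit 5) (nat_lit 9) C.nil) C.nil)) C.nil)) C.nil))) (C.cons (nat_lit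 37) (C.node (nat_lit 0) (nat_lit 1) (nat_lit 2) (C.cons (nat_lit 263) (C.node (nat_lit 0) (nat_lit 2) (nat_lit 6) (C.cons (nat_lit 69) (C.node (nat_lit 0) (nat_lit 1) (nat_lit 5) (C.cons (nat_lit 547) (C.node (nat_lit 0) (nat_lit 1) (nat_lit 3) (C.cons (nat_lit 75) (C.node (nat_lit 0) (nat_lit 3) (nat_lit 8) C.nil) C.nil)) C.nil)) C.nil)) (C.cons (nat_lit 71) (C.node (nat_lit 0) (nat_lit 2) (nat_lit 8) (C.cons (nat_lit 261) (C.node (nat_lit 0) (nat_lit 1) (nat_lit 3) (C.cons (nat_lit 523) (C.node (nat_lit 0) (nat_lit 1) (nat_lit 5) (C.cons (nat_lit 291) (C.node (nat_lit 0) (nat_lit 3) (nat_lit 6) (C.cons (nat_lit 329) (C.node (nat_lit 0) (nat_lit 4) (nat_lit 8) C.nil) C.nil)) C.nil)) (C.cons (nat_lit 267) (C.node (nat_lit 0) (nat_lit 1) (nat_lit 5) (C.cons (nat_lit 547) (C.node (nat_lit 0) (nat_lit 3) (nat_lit 6) (C.cons (nat_lit 585) (C.node (nat_lit 0) (nat_lit 4) (nat_lit 9) C.nil) C.nil)) C.nil)) C.nil))) C.nil))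 (C.cons (nat_lit 7) (C.node (nat_lit 0) (nat_lit 2) (nat_lit 6) (C.cons (nat_lit 325) (C.node (nat_lit 0) (nat_lit 3) (nat_lit 8) (C.cons (nat_lit 267) (C.node (nat_lit 0) (nat_lit 1) (nat_lit 5) (C.cons (nat_lit 547) (C.node (nat_lit 0) (nat_lit 1) (nat_lit 6) C.nil) C.nil)) C.nil)) C.nil)) C.nil)))) C.nil)))) List.nil)))))))))

theorem ok12_315 : okL par12 (nat_lit 324) c12_315 (nat_lit 315) = true := by decide +kernel

noncomputable def c12_324 : List C :=
  (List.cons (C.node (nat_lit 0) (nat_lit 2) (nat_lit 5) (C.cons (nat_lit 293) (C.node (nat_lit 0) (nat_lit 1) (nat_lit 2) (C.cons (nat_lit 71) (C.node (nat_lit 0) (nat_lit 1) (nat_lit 8) (C.cons (nat_lit 267) (C.node (nat_lit 0) (nat_lit 1) (nat_lit 5) (C.cons (nat_lit 547) (C.node (nat_lit 0) (nat_lit 3) (nat_lit 5) C.nil) C.nil)) C.nil)) C.nil)) (C.cons (nat_lit 39) (C.node (nat_lit 0) (nat_lit 2) (nat_lit 6) (C.cons (nat_lit 325) (C.node (nat_lit 0) (nat_lit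 1) (nat_lit 8) (C.cons (nat_lit 267) (C.node (nat_lit 0) (nat_lit 1) (nat_lit 6) (C.cons (nat_lit 579) (C.node (nat_lit 0) (nat_lit 3) (nat_lit 6) C.nil) C.nil)) C.nil)) C.nil)) C.nil))) (List.cons (C.node (nat_lit 0) (nat_lit 2) (nat_lit 10) (C.cons (nat_lit 1093) (C.ref (nat_lit 322) (nat_lit 205163983024656)) (C.cons (nat_lit 1061) (C.ref (nat_lit 322) (nat_lit 205163967296016)) (C.cons (nat_lit 1029) (C.node (nat_lit 0) (nat_lit 5) (nat_lit 10) (C.cons (nat_lit 1065) (C.node (nat_lit 0) (nat_lit 6) (nat_lit 10) (C.cons (nat_lit 1089) (C.ref (nat_lit 323) (nat_lit 205163983024656)) C.nil)) (C.cons (nat_lit 1057) (C.node (nat_lit 0) (nat_lit 3) (nat_lit 10) (C.cons (nat_lit 1097) (C.ref (nat_lit 323) (nat_lit 205163967296016)) (C.cons (nat_lit 1033) (C.node (nat_lit 0) (nat_lit 6) (nat_lit 10) (C.cons (nat_lit 1089) (C.ref (nat_lit 324) (nat_lit 205163983024656)) C.nil)) C.nil))) C.nil))) C.nil)))) (List.cons (C.node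 (nat_lit 0) (nat_lit 3) (nat_lit 7) (C.cons (nat_lit 393) (C.node (nat_lit 0) (nat_lit 2) (nat_lit 10) (C.cons (nat_lit 1093) (C.ref (nat_lit 318) (nat_lit 205163983024656)) (C.cons (nat_lit 1061) (C.ref (nat_lit 318) (nat_lit 205163967296016)) (C.cons (nat_lit 1029) (C.node (nat_lit 0) (nat_lit 5) (nat_lit 10) (C.cons (nat_lit 1065) (C.node (nat_lit 0) (nat_lit 6) (nat_lit 10) (C.cons (nat_lit 1089) (C.ref (nat_lit 317) (nat_lit 205099542782736)) C.nil)) (C.cons (nat_lit 1057) (C.node (nat_lit 0) (nat_lit 3) (nat_lit 10) (C.cons (nat_lit 1097) (C.ref (nat_lit 317) (nat_lit 205099558511376)) (C.cons (nat_lit 1033) (C.node (nat_lit 0) (nat_lit 6) (nat_lit 10) (C.cons (nat_lit 1089) (C.ref (nat_lit 320) (nat_lit 205163983024656)) C.nil)) C.nil))) C.nil))) C.nil)))) (C.cons (nat_lit 137) (C.node (nat_lit 0) (nat_lit 7) (nat_lit 8) (C.cons (nat_lit 385) (C.ref (nat_lit 325) (nat_lit 205163983024656)) C.nil)) C.nil))) (List.cons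 (C.big (C.cons (nat_lit 587) (C.ref (nat_lit 234) (nat_lit 205163983024656)) (C.cons (nat_lit 583) (C.ref (nat_lit 234) (nat_lit 205163983020816)) (C.cons (nat_lit 555) (C.ref (nat_lit 234) (nat_lit 205163967296016)) (C.cons (nat_lit 551) (C.ref (nat_lit 234) (nat_lit 205163967292176)) (C.cons (nat_lit 331) (C.ref (nat_lit 234) (nat_lit 205099558515216)) (C.cons (nat_lit 327) (C.ref (nat_lit 234) (nat_lit 205099558511376)) (C.cons (nat_lit 299) (C.ref (nat_lit 234) (nat_lit 205099542786576)) (C.cons (nat_lit 295) (C.ref (nat_lit 234) (nat_lit 205099542782736)) C.nil)))))))) (C.node (nat_lit 0) (nat_lit 1) (nat_lit 11) (C.cons (nat_lit 2051) (C.node (nat_lit 0) (nat_lit 2) (nat_lit 7) (C.cons (nat_lit 645) (C.ref (nat_lit 326) (nat_lit 205163983024656)) (C.cons (nat_lit 389) (C.ref (nat_lit 326) (nat_lit 205099558515216)) (C.cons (nat_lit 133) (C.node (nat_lit 0) (nat_lit 7) (nat_lit 8) (C.cons (nat_lit 393) (C.node (nat_lit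 0) (nat_lit 7) (nat_lit 9) (C.cons (nat_lit 641) (C.ref (nat_lit 325) (nat_lit 205099558511376)) C.nil)) (C.cons (nat_lit 385) (C.node (nat_lit 0) (nat_lit 3) (nat_lit 7) (C.cons (nat_lit 649) (C.ref (nat_lit 325) (nat_lit 205163983020816)) (C.cons (nat_lit 137) (C.node (nat_lit 0) (nat_lit 7) (nat_lit 9) (C.cons (nat_lit 641) (C.node (nat_lit 0) (nat_lit 2) (nat_lit 10) (C.cons (nat_lit 1093) (C.node (nat_lit 0) (nat_lit 3) (nat_lit 10) (C.cons (nat_lit 1065) (C.ref (nat_lit 320) (nat_lit 201647263592976)) (C.cons (nat_lit 1033) (C.node (nat_lit 0) (nat_lit 5) (nat_lit 10) (C.cons (nat_lit 1057) (C.ref (nat_lit 324) (nat_lit 201647263592976)) C.nil)) C.nil))) (C.cons (nat_lit 1061)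
  (C.node (nat_lit 0) (nat_lit 3) (nat_lit 10) (C.cons (nat_lit 1097) (C.ref (nat_lit 320) (nat_lit 201582839083536)) (C.cons (nat_lit 1033) (C.node (nat_lit 0) (nat_lit 6) (nat_lit 10) (C.cons (nat_lit 1089) (C.ref (nat_lit 324) (nat_lit 201582839083536)) C.nil)) C.nil))) (C.cons (nat_lit 1029) (C.node (nat_lit 0) (nat_lit 5) (nat_lit 10) (C.cons (nat_lit 1065) (C.node (nat_lit 0) (nat_lit 6) (nat_lit 10) (C.cons (nat_lit 1089) (C.ref (nat_lit 324) (nat_lit 201582839079696)) C.nil)) (C.cons (nat_lit 1057) (C.node (nat_lit 0) (nat_lit 3) (nat_lit 10) (C.cons (nat_lit 1097) (C.ref (nat_lit 324) (nat_lit 201647263589136)) C.nil)) C.nil))) C.nil)))) C.nil)) C.nil))) C.nil))) C.nil)))) C.nil))) (List.cons (C.node (nat_lit 0) (nat_lit 1) (nat_lit 3) (C.cons (nat_lit 1035) (C.node (nat_lit 0) (nat_lit 1) (nat_lit 6) (C.cons (nat_lit 83) (C.pat (nat_lit 1) (nat_lit 3041302561) (nat_lit 2840366467332357333202157613613383985))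 (C.cons (nat_lit 67) (C.node (nat_lit 0) (nat_lit 1) (nat_lit 4) (C.cons (nat_lit 147) (C.pat (nat_lit 5) (nat_lit 349086038921) (nat_lit 50690300604319895069735042859667634319262286087)) (C.cons (nat_lit 19) (C.node (nat_lit 0) (nat_lit 1) (nat_lit 7) C.nil) C.nil))) C.nil))) (C.cons (nat_lit 11) (C.node (nat_lit 0) (nat_lit 3) (nat_lit 10) (C.cons (nat_lit 1033) (C.node (nat_lit 0) (nat_lit 1) (nat_lit 6) (C.cons (nat_lit 1091) (C.node (nat_lit 0) (nat_lit 4) (nat_lit 6) C.nil) (C.cons (nat_lit 83) (C.pat (nat_lit 1) (nat_lit 3041302561) (nat_lit 2840366467332357333202157613613383985)) C.nil))) C.nil)) C.nil))) (List.cons (C.node (nat_lit 0) (nat_lit 3) (nat_lit 5) (C.cons (nat_lit 41) (C.node (nat_lit 0) (nat_lit 3) (nat_lit 9) (C.cons (nat_lit 649) (C.node (nat_lit 0) (nat_lit 4) (nat_lit 9) (C.cons (nat_lit 529) (C.ref (nat_lit 328) (nat_lit 205163983024656)) C.nil)) (C.cons (nat_lit 521) (C.node (nat_lit 0) (nat_lit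 4) (nat_lit 9) (C.cons (nat_lit 657) (C.node (nat_lit 0) (nat_lit 1) (nat_lit 3) (C.cons (nat_lit 1035) (C.node (nat_lit 0) (nat_lit 1) (nat_lit 7) (C.cons (nat_lit 131) (C.node (nat_lit 0) (nat_lit 3) (nat_lit 7) (C.cons (nat_lit 137) (C.node (nat_lit 0) (nat_lit 7) (nat_lit 10) C.nil) C.nil)) C.nil)) (C.cons (nat_lit 139) (C.node (nat_lit 0) (nat_lit 3) (nat_lit 10) (C.cons (nat_lit 1033) (C.node (nat_lit 0) (nat_lit 7) (nat_lit 10) (C.cons (nat_lit 1153) (C.node (nat_lit 0) (nat_lit 1) (nat_lit 4) (C.cons (nat_lit 1043) (C.node (nat_lit 0) (nat_lit 1) (nat_lit 6) C.nil) (C.cons (nat_lit 83) (C.pat (nat_lit 1) (nat_lit 3041302561) (nat_lit 2840366467332357333202157613613383985)) C.nil))) C.nil)) C.nil)) (C.cons (nat_lit 11) (C.node (nat_lit 0) (nat_lit 1) (nat_lit 7) (C.cons (nat_lit 1155) (C.node (nat_lit 0) (nat_lit 7) (nat_lit 3) (C.cons (nat_lit 137) (C.node (nat_lit 0) (nat_lit 3) (nat_lit 10) C.nil) C.nil)) (C.cons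 (nat_lit 131) (C.node (nat_lit 0) (nat_lit 3) (nat_lit 7) (C.cons (nat_lit 1161) (C.node (nat_lit 0) (nat_lit 1) (nat_lit 4) (C.cons (nat_lit 1043) (C.node (nat_lit 0) (nat_lit 1) (nat_lit 6) C.nil) (C.cons (nat_lit 83) (C.pat (nat_lit 1) (nat_lit 3041302561) (nat_lit 2840366467332357333202157613613383985)) C.nil))) C.nil)) C.nil))) C.nil)))) (C.cons (nat_lit 529) (C.node (nat_lit 0) (nat_lit 7) (nat_lit 9) (C.cons (nat_lit 641) (C.node (nat_lit 0) (nat_lit 1) (nat_lit 3) (C.cons (nat_lit 1035) (C.node (nat_lit 0) (nat_lit 3) (nat_lit 7) C.nil) (C.cons (nat_lit 139) (C.node (nat_lit 0) (nat_lit 3) (nat_lit 10) C.nil) C.nil))) C.nil)) C.nil))) C.nil))) C.nil)) (List.cons (C.node (nat_lit 0) (nat_lit 1) (nat_lit 9) (C.cons (nat_lit 531) (C.node (nat_lit 0) (nat_lit 7) (nat_lit 9) (C.cons (nat_lit 641) (C.node (nat_lit 0) (nat_lit 1) (nat_lit 6) (C.cons (nat_lit 1091) (C.pat (nat_lit 2) (nat_lit 44348772738) (nat_lit 24330224966079581694037246984523161957116084777))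 (C.cons (nat_lit 67) (C.node (nat_lit 0) (nat_lit 1) (nat_lit 10) C.nil) C.nil))) C.nil)) (C.cons (nat_lit 515) (C.node (nat_lit 0) (nat_lit 4) (nat_lit 9) (C.cons (nat_lit 657)
  (C.node (nat_lit 0) (nat_lit 7) (nat_lit 10) (C.cons (nat_lit 1153) (C.node (nat_lit 0) (nat_lit 1) (nat_lit 4) (C.cons (nat_lit 1043) (C.node (nat_lit 0) (nat_lit 1) (nat_lit 6) C.nil) (C.cons (nat_lit 83) (C.pat (nat_lit 2) (nat_lit 6266905155) (nat_lit 5865199776746810385152509136295524989256141025)) C.nil))) C.nil)) (C.cons (nat_lit 529) (C.node (nat_lit 0) (nat_lit 7) (nat_lit 9) C.nil) C.nil))) C.nil))) (List.cons (C.node (nat_lit 0) (nat_lit 1) (nat_lit 6) (C.cons (nat_lit 1091) (C.node (nat_lit 0) (nat_lit 4) (nat_lit 6) (C.cons (nat_lit 81) (C.node (nat_lit 0) (nat_lit 4) (nat_lit 10) (C.cons (nat_lit 1041) (C.node (nat_lit 0) (nat_lit 1) (nat_lit 4) (C.cons (nat_lit 531) (C.pat (nat_lit 2) (nat_lit 44348772738) (nat_lit 24330224966079581694037246984523161957116084777))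 (C.cons (nat_lit 147) (C.node (nat_lit 0) (nat_lit 1) (nat_lit 9) C.nil) C.nil))) C.nil)) C.nil)) (C.cons (nat_lit 83) (C.node (nat_lit 0) (nat_lit 1) (nat_lit 10) (C.cons (nat_lit 1027) (C.node (nat_lit 0) (nat_lit 4) (nat_lit 10) (C.cons (nat_lit 1041) (C.node (nat_lit 0) (nat_lit 6) (nat_lit 10) C.nil) C.nil)) C.nil)) (C.cons (nat_lit 67) (C.node (nat_lit 0) (nat_lit 1) (nat_lit 10) (C.cons (nat_lit 1043) (C.node (nat_lit 0) (nat_lit 4) (nat_lit 6) (C.cons (nat_lit 81) (C.node (nat_lit 0) (nat_lit 6) (nat_lit 10) C.nil) C.nil)) (C.cons (nat_lit 1027) (C.node (nat_lit 0) (nat_lit 4) (nat_lit 6) (C.cons (nat_lit 1105) (C.pat (nat_lit 1) (nat_lit 2322158642) (nat_lit 5509331282980060930737209627554415697)) C.nil)) C.nil))) C.nil)))) (List.cons (C.node (nat_lit 0) (nat_lit 1) (nat_lit 3) (C.cons (nat_lit 1035) (C.node (nat_lit 0) (nat_lit 3) (nat_lit 7) (C.cons (nat_lit 137) (C.node (nat_lit 0) (nat_lit 1) (nat_lit 6)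 (C.cons (nat_lit 83) (C.pat (nat_lit 2) (nat_lit 28354905138) (nat_lit 1851314046599171121261109173732353434651004673)) (C.cons (nat_lit 67) (C.node (nat_lit 0) (nat_lit 4) (nat_lit 6) (C.cons (nat_lit 1105) (C.pat (nat_lit 1) (nat_lit 2322158642) (nat_lit 5509331282980060930737209627554415697)) (C.cons (nat_lit 81) (C.node (nat_lit 0) (nat_lit 6) (nat_lit 10) C.nil) C.nil))) C.nil))) C.nil)) (C.cons (nat_lit 139) (C.node (nat_lit 0) (nat_lit 3) (nat_lit 10) (C.cons (nat_lit 1033) (C.ref (nat_lit 330) (nat_lit 205163983024656)) C.nil)) (C.cons (nat_lit 11) (C.node (nat_lit 0) (nat_lit 3) (nat_lit 7) (C.cons (nat_lit 1161) (C.ref (nat_lit 331) (nat_lit 205163983024656)) (C.cons (nat_lit 137) (C.node (nat_lit 0) (nat_lit 3) (nat_lit 10) (C.cons (nat_lit 1033) (C.node (nat_lit 0) (nat_lit 1) (nat_lit 6) (C.cons (nat_lit 1091) (C.node (nat_lit 0) (nat_lit 4) (nat_lit 6) C.nil) (C.cons (nat_lit 83) (C.node (nat_lit 0) (nat_lit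 6) (nat_lit 10) C.nil) C.nil))) C.nil)) C.nil))) C.nil)))) (List.cons (C.node (nat_lit 0) (nat_lit 1) (nat_lit 6) (C.cons (nat_lit 1091) (C.node (nat_lit 0) (nat_lit 4) (nat_lit 6) (C.cons (nat_lit 81) (C.node (nat_lit 0) (nat_lit 3) (nat_lit 10) (C.cons (nat_lit 1161) (C.node (nat_lit 0) (nat_lit 4) (nat_lit 10) C.nil) C.nil)) C.nil)) (C.cons (nat_lit 83) (C.node (nat_lit 0) (nat_lit 10) (nat_lit 6) (C.cons (nat_lit 1089) (C.node (nat_lit 0) (nat_lit 9) (nat_lit 4) (C.cons (nat_lit 657) (C.node (nat_lit 0) (nat_lit 10) (nat_lit 4) C.nil) C.nil)) C.nil)) (C.cons (nat_lit 67) (C.node (nat_lit 0) (nat_lit 4) (nat_lit 6) (C.cons (nat_lit 1105) (C.node (nat_lit 0) (nat_lit 1) (nat_lit 4) (C.cons (nat_lit 531) (C.node (nat_lit 0) (nat_lit 4) (nat_lit 7) C.nil) (C.cons (nat_lit 147) (C.node (nat_lit 0) (nat_lit 4) (nat_lit 9) C.nil) C.nil))) C.nil)) C.nil)))) (List.cons (C.node (nat_lit 0) (nat_lit 3) (nat_lit 5) (C.cons (nat_lit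 41) (C.node (nat_lit 0) (nat_lit 3) (nat_lit 9) (C.cons (nat_lit 521) (C.node (nat_lit 0) (nat_lit 4) (nat_lit 9) (C.cons (nat_lit 657) (C.ref (nat_lit 328) (nat_lit 205098448221456)) (C.cons (nat_lit 529) (C.node (nat_lit 0) (nat_lit 7) (nat_lit 9) (C.cons (nat_lit 641) (C.node (nat_lit 0) (nat_lit 1) (nat_lit 3) (C.cons (nat_lit 1035) (C.node (nat_lit 0) (nat_lit 3) (nat_lit 6) C.nil)
  (C.cons (nat_lit 75) (C.node (nat_lit 0) (nat_lit 3) (nat_lit 10) C.nil) C.nil))) C.nil)) C.nil))) C.nil)) C.nil)) (List.cons (C.node (nat_lit 0) (nat_lit 4) (nat_lit 6) (C.cons (nat_lit 1105) (C.node (nat_lit 0) (nat_lit 1) (nat_lit 10) (C.cons (nat_lit 1155) (C.pat (nat_lit 5) (nat_lit 556104506162) (nat_lit 85657935771416728283573403539072225897829957707)) (C.cons (nat_lit 1027) (C.node (nat_lit 0) (nat_lit 7) (nat_lit 10) (C.cons (nat_lit 1153) (C.node (nat_lit 0) (nat_lit 1) (nat_lit 4) (C.cons (nat_lit 531) (C.pat (nat_lit 2)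 (nat_lit 6616879938) (nat_lit 1672931903488936985293264230494131534098665217)) (C.cons (nat_lit 147) (C.node (nat_lit 0) (nat_lit 1) (nat_lit 9) C.nil) C.nil))) C.nil)) C.nil))) (C.cons (nat_lit 81) (C.node (nat_lit 0) (nat_lit 6) (nat_lit 10) (C.cons (nat_lit 1089) (C.node (nat_lit 0) (nat_lit 1) (nat_lit 9) (C.cons (nat_lit 643) (C.pat (nat_lit 1) (nat_lit 3073808417) (nat_lit 3338826965742029378984168227820863881)) (C.cons (nat_lit 531) (C.node (nat_lit 0) (nat_lit 7) (nat_lit 9) C.nil) C.nil))) C.nil)) C.nil))) (List.cons (C.node (nat_lit 0) (nat_lit 1) (nat_lit 3) (C.cons (nat_lit 1035) (C.node (nat_lit 0) (nat_lit 3) (nat_lit 6) (C.cons (nat_lit 73) (C.node (nat_lit 0) (nat_lit 1) (nat_lit 6) (C.cons (nat_lit 83) (C.node (nat_lit 0) (nat_lit 6) (nat_lit 10) (C.cons (nat_lit 1089) (C.node (nat_lit 0) (nat_lit 1) (nat_lit 7) (C.cons (nat_lit 643) (C.pat (nat_lit 5) (nat_lit 143419202456) (nat_lit 46319421242184860870012961675865937592168546947))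 (C.cons (nat_lit 131) (C.node (nat_lit 0) (nat_lit 1) (nat_lit 9) C.nil) C.nil))) C.nil)) (C.cons (nat_lit 67) (C.node (nat_lit 0) (nat_lit 4) (nat_lit 6) (C.cons (nat_lit 1105) (C.node (nat_lit 0) (nat_lit 7) (nat_lit 10) (C.cons (nat_lit 1153) (C.node (nat_lit 0) (nat_lit 1) (nat_lit 4) (C.cons (nat_lit 531) (C.pat (nat_lit 1) (nat_lit 1503873057) (nat_lit 2757153446307107708785112537857068801)) (C.cons (nat_lit 147) (C.node (nat_lit 0) (nat_lit 1) (nat_lit 9) C.nil) C.nil))) C.nil)) (C.cons (nat_lit 81) (C.node (nat_lit 0) (nat_lit 6) (nat_lit 10) C.nil) C.nil))) C.nil))) C.nil)) (C.cons (nat_lit 75) (C.node (nat_lit 0) (nat_lit 3) (nat_lit 10) (C.cons (nat_lit 1033) (C.ref (nat_lit 335) (nat_lit 205163983024656)) C.nil)) (C.cons (nat_lit 11) (C.node (nat_lit 0) (nat_lit 3) (nat_lit 6) (C.cons (nat_lit 1097) (C.pat (nat_lit 0) (nat_lit 110779186) (nat_lit 304318120125913538655933365028893)) (C.cons (nat_lit 73) (C.node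 (nat_lit 0) (nat_lit 3) (nat_lit 10) (C.cons (nat_lit 1033) (C.node (nat_lit 0) (nat_lit 1) (nat_lit 6) (C.cons (nat_lit 1091) (C.node (nat_lit 0) (nat_lit 4) (nat_lit 6) C.nil) (C.cons (nat_lit 83) (C.node (nat_lit 0) (nat_lit 6) (nat_lit 10) C.nil) C.nil))) C.nil)) C.nil))) C.nil)))) (List.cons (C.node (nat_lit 0) (nat_lit 3) (nat_lit 9) (C.cons (nat_lit 523) (C.node (nat_lit 0) (nat_lit 3) (nat_lit 6) (C.cons (nat_lit 1097) (C.node (nat_lit 0) (nat_lit 1) (nat_lit 6) (C.cons (nat_lit 83) (C.node (nat_lit 0) (nat_lit 1) (nat_lit 7) (C.cons (nat_lit 1155) (C.node (nat_lit 0) (nat_lit 4) (nat_lit 10) (C.cons (nat_lit 1041) (C.node (nat_lit 0) (nat_lit 4) (nat_lit 7) (C.cons (nat_lit 657) (C.pat (nat_lit 1) (nat_lit 3074861361) (nat_lit 5997282957321532531348700498504516241)) C.nil)) C.nil)) (C.cons (nat_lit 131) (C.node (nat_lit 0) (nat_lit 1) (nat_lit 10) C.nil) C.nil))) (C.cons (nat_lit 67) (C.node (nat_lit 0) (nat_lit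 4) (nat_lit 6) C.nil) C.nil))) (C.cons (nat_lit 73) (C.node (nat_lit 0) (nat_lit 3) (nat_lit 10) C.nil) C.nil))) (C.cons (nat_lit 521) (C.node (nat_lit 0) (nat_lit 1) (nat_lit 3) (C.cons (nat_lit 1035) (C.node (nat_lit 0) (nat_lit 3) (nat_lit 6) C.nil) (C.cons (nat_lit 75) (C.node (nat_lit 0) (nat_lit 3) (nat_lit 10) C.nil) C.nil))) C.nil))) (List.cons (C.node (nat_lit 0) (nat_lit 3) (nat_lit 6) (C.cons (nat_lit 1097) (C.node (nat_lit 0) (nat_lit 1) (nat_lit 6) (C.cons (nat_lit 83) (C.node (nat_lit 0) (nat_lit 1) (nat_lit 9) (C.cons (nat_lit 643) (C.node (nat_lit 0) (nat_lit 1) (nat_lit 10) (C.cons (nat_lit 1027)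
  (C.node (nat_lit 0) (nat_lit 3) (nat_lit 7) C.nil) C.nil)) (C.cons (nat_lit 515) (C.node (nat_lit 0) (nat_lit 1) (nat_lit 7) (C.cons (nat_lit 1155) (C.node (nat_lit 0) (nat_lit 4) (nat_lit 10) C.nil) C.nil)) C.nil))) (C.cons (nat_lit 67) (C.node (nat_lit 0) (nat_lit 4) (nat_lit 6) C.nil) C.nil))) (C.cons (nat_lit 73) (C.node (nat_lit 0) (nat_lit 3) (nat_lit 9) (C.cons (nat_lit 649) (C.node (nat_lit 0) (nat_lit 3) (nat_lit 10) C.nil) C.nil)) C.nil))) (List.cons (C.node (nat_lit 0) (nat_lit 1) (nat_lit 4) (C.cons (nat_lit 1043) (C.node (nat_lit 0) (nat_lit 4) (nat_lit 6) C.nil) (C.cons (nat_lit 83) (C.node (nat_lit 0) (nat_lit 4) (nat_lit 10) C.nil) C.nil))) (List.cons (C.node (nat_lit 0) (nat_lit 1) (nat_lit 9) (C.cons (nat_lit 643) (C.node (nat_lit 0) (nat_lit 4) (nat_lit 9) (C.cons (nat_lit 529) (C.node (nat_lit 0) (nat_lit 3) (nat_lit 7) (C.cons (nat_lit 1161) (C.node (nat_lit 0) (nat_lit 4) (nat_lit 7) C.nil) C.nil))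 C.nil)) (C.cons (nat_lit 531) (C.node (nat_lit 0) (nat_lit 7) (nat_lit 9) (C.cons (nat_lit 641) (C.node (nat_lit 0) (nat_lit 4) (nat_lit 6) (C.cons (nat_lit 1105) (C.node (nat_lit 0) (nat_lit 4) (nat_lit 7) C.nil) C.nil)) C.nil)) (C.cons (nat_lit 515) (C.node (nat_lit 0) (nat_lit 4) (nat_lit 9) (C.cons (nat_lit 657) (C.ref (nat_lit 339) (nat_lit 205163983024656)) C.nil)) C.nil)))) (List.cons (C.node (nat_lit 0) (nat_lit 1) (nat_lit 5) (C.cons (nat_lit 547) (C.node (nat_lit 0) (nat_lit 3) (nat_lit 5) (C.cons (nat_lit 41) (C.node (nat_lit 0) (nat_lit 3) (nat_lit 9) (C.cons (nat_lit 649) (C.node (nat_lit 0) (nat_lit 4) (nat_lit 9) (C.cons (nat_lit 529) (C.node (nat_lit 0) (nat_lit 1) (nat_lit 7) (C.cons (nat_lit 1155) (C.node (nat_lit 0) (nat_lit 7) (nat_lit 4) C.nil) (C.cons (nat_lit 147) (C.node (nat_lit 0) (nat_lit 7) (nat_lit 10) C.nil) C.nil))) C.nil)) (C.cons (nat_lit 521) (C.node (nat_lit 0) (nat_lit 4) (nat_lit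 9) (C.cons (nat_lit 657) (C.node (nat_lit 0) (nat_lit 1) (nat_lit 7) (C.cons (nat_lit 1155) (C.node (nat_lit 0) (nat_lit 7) (nat_lit 3) C.nil) (C.cons (nat_lit 139) (C.node (nat_lit 0) (nat_lit 7) (nat_lit 10) C.nil) C.nil))) C.nil)) C.nil))) C.nil)) (C.cons (nat_lit 43) (C.node (nat_lit 0) (nat_lit 5) (nat_lit 9) (C.cons (nat_lit 545) (C.ref (nat_lit 338) (nat_lit 205163983024656)) C.nil)) (C.cons (nat_lit 35) (C.node (nat_lit 0) (nat_lit 3) (nat_lit 5) (C.cons (nat_lit 553) (C.ref (nat_lit 340) (nat_lit 205163983024656)) (C.cons (nat_lit 41) (C.node (nat_lit 0) (nat_lit 5) (nat_lit 9) C.nil) C.nil))) C.nil)))) (List.cons (C.node (nat_lit 0) (nat_lit 6) (nat_lit 8) (C.cons (nat_lit 329) (C.node (nat_lit 0) (nat_lit 7) (nat_lit 8) (C.cons (nat_lit 385) (C.node (nat_lit 0) (nat_lit 1) (nat_lit 5) (C.cons (nat_lit 547) (C.ref (nat_lit 329) (nat_lit 205163983024656)) (C.cons (nat_lit 43) (C.ref (nat_lit 329) (nat_lit 198128827013136))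 (C.cons (nat_lit 35) (C.node (nat_lit 0) (nat_lit 3) (nat_lit 5) (C.cons (nat_lit 553) (C.ref (nat_lit 332) (nat_lit 205163983024656)) (C.cons (nat_lit 41) (C.node (nat_lit 0) (nat_lit 5) (nat_lit 9) (C.cons (nat_lit 545) (C.ref (nat_lit 333) (nat_lit 205163983024656)) C.nil)) C.nil))) C.nil)))) C.nil)) (C.cons (nat_lit 321) (C.node (nat_lit 0) (nat_lit 3) (nat_lit 8) (C.cons (nat_lit 393) (C.node (nat_lit 0) (nat_lit 1) (nat_lit 5) (C.cons (nat_lit 547) (C.ref (nat_lit 334) (nat_lit 205163983024656)) (C.cons (nat_lit 43) (C.ref (nat_lit 334) (nat_lit 198128575354896)) (C.cons (nat_lit 35) (C.node (nat_lit 0) (nat_lit 3) (nat_lit 5) (C.cons (nat_lit 553) (C.ref (nat_lit 336) (nat_lit 205163983024656)) (C.cons (nat_lit 41) (C.node (nat_lit 0) (nat_lit 5) (nat_lit 9) (C.cons (nat_lit 545) (C.ref (nat_lit 337) (nat_lit 205163983024656)) C.nil)) C.nil))) C.nil)))) (C.cons (nat_lit 265) (C.node (nat_lit 0) (nat_lit 7) (nat_lit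 8) (C.cons (nat_lit 385) (C.ref (nat_lit 341) (nat_lit 205163983024656)) C.nil)) C.nil))) C.nil))) (List.cons (C.node (nat_lit 0) (nat_lit 3) (nat_lit 6) (C.cons (nat_lit 329) (C.node (nat_lit 0) (nat_lit 3) (nat_lit 7) (C.cons (nat_lit 137)
  (C.node (nat_lit 0) (nat_lit 4) (nat_lit 6) (C.cons (nat_lit 1105) (C.pat (nat_lit 2) (nat_lit 6599124018) (nat_lit 1137526182982316728130645313770316957155659521)) (C.cons (nat_lit 81) (C.node (nat_lit 0) (nat_lit 6) (nat_lit 10) C.nil) C.nil))) C.nil)) (C.cons (nat_lit 73) (C.node (nat_lit 0) (nat_lit 3) (nat_lit 7) (C.cons (nat_lit 393) (C.node (nat_lit 0) (nat_lit 4) (nat_lit 7) (C.cons (nat_lit 1169) (C.pat (nat_lit 1) (nat_lit 3074791985) (nat_lit 3338826965713015159313420443340833937)) (C.cons (nat_lit 145) (C.node (nat_lit 0) (nat_lit 7) (nat_lit 10) C.nil) C.nil))) (C.cons (nat_lit 137) (C.node (nat_lit 0) (nat_lit 3) (nat_lit 8) C.nil) C.nil))) C.nil))) (List.cons (C.node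 (nat_lit 0) (nat_lit 1) (nat_lit 3) (C.cons (nat_lit 1035) (C.node (nat_lit 0) (nat_lit 1) (nat_lit 6) (C.cons (nat_lit 67) (C.ref (nat_lit 343) (nat_lit 205163983024656)) C.nil)) (C.cons (nat_lit 75) (C.node (nat_lit 0) (nat_lit 1) (nat_lit 10) (C.cons (nat_lit 1027) (C.ref (nat_lit 343) (nat_lit 196969525372176)) C.nil)) (C.cons (nat_lit 11) (C.node (nat_lit 0) (nat_lit 1) (nat_lit 6) (C.cons (nat_lit 1091) (C.ref (nat_lit 343) (nat_lit 200485905148176)) (C.cons (nat_lit 67) (C.node (nat_lit 0) (nat_lit 1) (nat_lit 10) (C.cons (nat_lit 1027) (C.node (nat_lit 0) (nat_lit 3) (nat_lit 6) (C.cons (nat_lit 1097) (C.pat (nat_lit 0) (nat_lit 110779186) (nat_lit 304318120125913538655933365028893)) (C.cons (nat_lit 329) (C.node (nat_lit 0) (nat_lit 3) (nat_lit 7) (C.cons (nat_lit 1161) (C.node (nat_lit 0) (nat_lit 4) (nat_lit 6) (C.cons (nat_lit 1105) (C.node (nat_lit 0) (nat_lit 4) (nat_lit 7) (C.cons (nat_lit 401) (C.pat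 (nat_lit 0) (nat_lit 128478019) (nat_lit 304318120113074760157309694445597)) C.nil)) C.nil)) C.nil)) C.nil))) C.nil)) C.nil))) C.nil)))) List.nil)))))))))))))))))))))

theorem ok12_324 : okL par12 (nat_lit 345) c12_324 (nat_lit 324) = true := by decide +kernel

noncomputable def c12_345 : List C :=
  (List.cons (C.node (nat_lit 0) (nat_lit 4) (nat_lit 8) (C.cons (nat_lit 337) (C.node (nat_lit 0) (nat_lit 4) (nat_lit 10) (C.cons (nat_lit 1041) (C.ref (nat_lit 335) (nat_lit 201647247795216)) C.nil)) (C.cons (nat_lit 273) (C.node (nat_lit 0) (nat_lit 4) (nat_lit 6) (C.cons (nat_lit 1105) (C.ref (nat_lit 330) (nat_lit 201646744478736)) (C.cons (nat_lit 81) (C.node (nat_lit 0) (nat_lit 4) (nat_lit 10) (C.cons (nat_lit 1041) (C.node (nat_lit 0) (nat_lit 6) (nat_lit 8) (C.cons (nat_lit 329) (C.node (nat_lit 0) (nat_lit 7) (nat_lit 8) C.nil) C.nil)) C.nil)) C.nil))) C.nil))) (List.cons (C.node (nat_lit 0) (nat_lit 1) (nat_lit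 6) (C.cons (nat_lit 1091) (C.node (nat_lit 0) (nat_lit 1) (nat_lit 3) (C.cons (nat_lit 139) (C.node (nat_lit 0) (nat_lit 3) (nat_lit 10) (C.cons (nat_lit 1033) (C.node (nat_lit 0) (nat_lit 3) (nat_lit 6) (C.cons (nat_lit 329) (C.node (nat_lit 0) (nat_lit 4) (nat_lit 6) C.nil) C.nil)) C.nil)) (C.cons (nat_lit 11) (C.node (nat_lit 0) (nat_lit 1) (nat_lit 7) C.nil) C.nil))) (C.cons (nat_lit 75) (C.node (nat_lit 0) (nat_lit 1) (nat_lit 7) (C.cons (nat_lit 1155) (C.node (nat_lit 0) (nat_lit 3) (nat_lit 10) (C.cons (nat_lit 1033) (C.node (nat_lit 0) (nat_lit 3) (nat_lit 7) (C.cons (nat_lit 393) (C.pat (nat_lit 5) (nat_lit 556104506162) (nat_lit 85657935771416728283573403539072225897829957707)) C.nil)) C.nil)) (C.cons (nat_lit 131) (C.node (nat_lit 0) (nat_lit 1) (nat_lit 10) C.nil) C.nil))) (C.cons (nat_lit 67) (C.node (nat_lit 0) (nat_lit 1) (nat_lit 3) (C.cons (nat_lit 1035) (C.node (nat_lit 0) (nat_lit 1) (nat_lit 7) C.nil)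 (C.cons (nat_lit 139) (C.node (nat_lit 0) (nat_lit 1) (nat_lit 10) C.nil) C.nil))) C.nil)))) (List.cons (C.node (nat_lit 0) (nat_lit 1) (nat_lit 6) (C.cons (nat_lit 1091) (C.node (nat_lit 0) (nat_lit 1) (nat_lit 3) (C.cons (nat_lit 139) (C.node (nat_lit 0) (nat_lit 3) (nat_lit 10) (C.cons (nat_lit 1033) (C.node (nat_lit 0) (nat_lit 3) (nat_lit 6) (C.cons (nat_lit 329) (C.node (nat_lit 0) (nat_lit 4) (nat_lit 6) C.nil) C.nil)) C.nil)) (C.cons (nat_lit 11) (C.node (nat_lit 0) (nat_lit 1) (nat_lit 7) C.nil) C.nil))) (C.cons (nat_lit 75) (C.node (nat_lit 0) (nat_lit 1) (nat_lit 10) (C.cons (nat_lit 1155) (C.node (nat_lit 0) (nat_lit 10) (nat_lit 3) (C.cons (nat_lit 1033) (C.node (nat_lit 0) (nat_lit 10) (nat_lit 6) (C.cons (nat_lit 1105) (C.node (nat_lit 0) (nat_lit 8) (nat_lit 6) C.nil) C.nil)) C.nil)) (C.cons (nat_lit 1027) (C.node (nat_lit 0) (nat_lit 1) (nat_lit 7) C.nil) C.nil))) (C.cons (nat_lit 67) (C.node (nat_lit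 0) (nat_lit 1) (nat_lit 3) (C.cons (nat_lit 1035) (C.node (nat_lit 0) (nat_lit 1) (nat_lit 7) C.nil) (C.cons (nat_lit 139) (C.node (nat_lit 0) (nat_lit 1) (nat_lit 10) C.nil) C.nil))) C.nil)))) (List.cons (C.node (nat_lit 0) (nat_lit 4) (nat_lit 8) (C.cons (nat_lit 337) (C.node (nat_lit 0) (nat_lit 1) (nat_lit 4) (C.cons (nat_lit 1043) (C.node (nat_lit 0) (nat_lit 1) (nat_lit 6) (C.cons (nat_lit 75) (C.node (nat_lit 0) (nat_lit 1) (nat_lit 7) (C.cons (nat_lit 131) (C.node (nat_lit 0) (nat_lit 6) (nat_lit 10) C.nil) C.nil)) (C.cons (nat_lit 67) (C.node (nat_lit 0) (nat_lit 1) (nat_lit 3) (C.cons (nat_lit 139) (C.node (nat_lit 0) (nat_lit 3) (nat_lit 8) C.nil) C.nil)) C.nil))) (C.cons (nat_lit 19) (C.node (nat_lit 0) (nat_lit 4) (nat_lit 10) C.nil) C.nil))) (C.cons (nat_lit 273) (C.node (nat_lit 0) (nat_lit 6) (nat_lit 8) (C.cons (nat_lit 329) (C.node (nat_lit 0) (nat_lit 7) (nat_lit 8) C.nil) C.nil)) C.nil))) (List.cons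 (C.node (nat_lit 0) (nat_lit 1) (nat_lit 9) (C.cons (nat_lit 643) (C.node (nat_lit 0) (nat_lit 4) (nat_lit 9) (C.cons (nat_lit 529) (C.ref (nat_lit 346) (nat_lit 200485905148176)) C.nil)) (C.cons (nat_lit 531) (C.node (nat_lit 0) (nat_lit 7) (nat_lit 9) (C.cons (nat_lit 641) (C.ref (nat_lit 347) (nat_lit 205163983024656)) C.nil)) (C.cons (nat_lit 515) (C.node (nat_lit 0) (nat_lit 4) (nat_lit 9) (C.cons (nat_lit 657) (C.ref (nat_lit 348) (nat_lit 205163983024656)) (C.cons (nat_lit 529)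
  (C.node (nat_lit 0) (nat_lit 7) (nat_lit 9) C.nil) C.nil))) C.nil)))) (List.cons (C.node (nat_lit 0) (nat_lit 1) (nat_lit 6) (C.cons (nat_lit 1091) (C.node (nat_lit 0) (nat_lit 1) (nat_lit 7) (C.cons (nat_lit 131) (C.node (nat_lit 0) (nat_lit 3) (nat_lit 10) (C.cons (nat_lit 1033) (C.node (nat_lit 0) (nat_lit 3) (nat_lit 6) (C.cons (nat_lit 329) (C.pat (nat_lit 1) (nat_lit 3056969761) (nat_lit 5664975958326946530338162449752326473)) C.nil)) C.nil)) C.nil)) (C.cons (nat_lit 67) (C.node (nat_lit 0) (nat_lit 1) (nat_lit 7) (C.cons (nat_lit 1155) (C.node (nat_lit 0) (nat_lit 3) (nat_lit 8) (C.cons (nat_lit 329) (C.pat (nat_lit 5) (nat_lit 350702967587) (nat_lit 50690900866340480100461611976518658974793662727)) (C.cons (nat_lit 265) (C.node (nat_lit 0) (nat_lit 3) (nat_lit 6) (C.cons (nat_lit 1097) (C.node (nat_lit 0) (nat_lit 4) (nat_lit 10) C.nil) C.nil)) C.nil))) (C.cons (nat_lit 131) (C.node (nat_lit 0) (nat_lit 1)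 (nat_lit 10) C.nil) C.nil))) C.nil))) (List.cons (C.node (nat_lit 0) (nat_lit 1) (nat_lit 6) (C.cons (nat_lit 1091) (C.node (nat_lit 0) (nat_lit 3) (nat_lit 6) (C.cons (nat_lit 329) (C.pat (nat_lit 1) (nat_lit 3056969761) (nat_lit 5664975958326946530338162449752326473)) (C.cons (nat_lit 73) (C.node (nat_lit 0) (nat_lit 3) (nat_lit 8) (C.cons (nat_lit 393) (C.node (nat_lit 0) (nat_lit 3) (nat_lit 10) C.nil) C.nil)) C.nil))) (C.cons (nat_lit 83) (C.node (nat_lit 0) (nat_lit 1) (nat_lit 9) (C.cons (nat_lit 643) (C.node (nat_lit 0) (nat_lit 1) (nat_lit 10) (C.cons (nat_lit 1027) (C.node (nat_lit 0) (nat_lit 4) (nat_lit 9) C.nil) C.nil)) (C.cons (nat_lit 515) (C.node (nat_lit 0) (nat_lit 1) (nat_lit 7) (C.cons (nat_lit 1155) (C.node (nat_lit 0) (nat_lit 4) (nat_lit 10) C.nil) C.nil)) C.nil))) (C.cons (nat_lit 67) (C.node (nat_lit 0) (nat_lit 1) (nat_lit 9) (C.cons (nat_lit 643) (C.node (nat_lit 0) (nat_lit 4) (nat_lit 9)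 C.nil) (C.cons (nat_lit 531) (C.node (nat_lit 0) (nat_lit 7) (nat_lit 9) C.nil) C.nil))) C.nil)))) (List.cons (C.node (nat_lit 0) (nat_lit 3) (nat_lit 8) (C.cons (nat_lit 393) (C.node (nat_lit 0) (nat_lit 3) (nat_lit 9) (C.cons (nat_lit 523) (C.node (nat_lit 0) (nat_lit 3) (nat_lit 6) (C.cons (nat_lit 1097) (C.node (nat_lit 0) (nat_lit 1) (nat_lit 6) (C.cons (nat_lit 83) (C.node (nat_lit 0) (nat_lit 4) (nat_lit 8) C.nil) C.nil)) C.nil)) C.nil)) (C.cons (nat_lit 329) (C.node (nat_lit 0) (nat_lit 4) (nat_lit 8) (C.cons (nat_lit 401) (C.node (nat_lit 0) (nat_lit 4) (nat_lit 9) (C.cons (nat_lit 531) (C.node (nat_lit 0) (nat_lit 1) (nat_lit 6) (C.cons (nat_lit 1091) (C.node (nat_lit 0) (nat_lit 4) (nat_lit 6) C.nil) C.nil)) C.nil)) C.nil)) C.nil))) (List.cons (C.node (nat_lit 0) (nat_lit 5) (nat_lit 8) (C.cons (nat_lit 305) (C.ref (nat_lit 342) (nat_lit 205163983024656)) (C.cons (nat_lit 297) (C.ref (nat_lit 342) (nat_lit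 205163982963216)) (C.cons (nat_lit 289) (C.node (nat_lit 0) (nat_lit 3) (nat_lit 5) (C.cons (nat_lit 553) (C.node (nat_lit 0) (nat_lit 1) (nat_lit 5) (C.cons (nat_lit 51) (C.node (nat_lit 0) (nat_lit 1) (nat_lit 9) (C.cons (nat_lit 643) (C.node (nat_lit 0) (nat_lit 4) (nat_lit 9) (C.cons (nat_lit 529) (C.ref (nat_lit 344) (nat_lit 205163983024656)) C.nil)) (C.cons (nat_lit 515) (C.node (nat_lit 0) (nat_lit 4) (nat_lit 9) (C.cons (nat_lit 657) (C.ref (nat_lit 345) (nat_lit 205163983024656)) (C.cons (nat_lit 529) (C.node (nat_lit 0) (nat_lit 7) (nat_lit 9) (C.cons (nat_lit 641) (C.ref (nat_lit 346) (nat_lit 205163983024656)) C.nil)) C.nil))) C.nil))) (C.cons (nat_lit 35) (C.node (nat_lit 0) (nat_lit 4) (nat_lit 5) (C.cons (nat_lit 49) (C.ref (nat_lit 349) (nat_lit 205163983024656)) C.nil)) C.nil))) (C.cons (nat_lit 43) (C.node (nat_lit 0) (nat_lit 3) (nat_lit 9) (C.cons (nat_lit 649) (C.node (nat_lit 0) (nat_lit 1) (nat_lit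 9) (C.cons (nat_lit 531) (C.node (nat_lit 0) (nat_lit 4) (nat_lit 5) (C.cons (nat_lit 49) (C.node (nat_lit 0) (nat_lit 5) (nat_lit 9) (C.cons (nat_lit 545) (C.ref (nat_lit 350) (nat_lit 205163983024656)) C.nil)) C.nil)) (C.cons (nat_lit 515)
  (C.node (nat_lit 0) (nat_lit 3) (nat_lit 8) (C.cons (nat_lit 329) (C.node (nat_lit 0) (nat_lit 3) (nat_lit 10) (C.cons (nat_lit 1033) (C.node (nat_lit 0) (nat_lit 4) (nat_lit 5) (C.cons (nat_lit 561) (C.ref (nat_lit 335) (nat_lit 201647247860496)) (C.cons (nat_lit 49) (C.node (nat_lit 0) (nat_lit 4) (nat_lit 9) (C.cons (nat_lit 529) (C.node (nat_lit 0) (nat_lit 5) (nat_lit 9) C.nil) C.nil)) C.nil))) C.nil)) (C.cons (nat_lit 265) (C.node (nat_lit 0) (nat_lit 3) (nat_lit 6) (C.cons (nat_lit 1097) (C.node (nat_lit 0) (nat_lit 1) (nat_lit 6) (C.cons (nat_lit 83) (C.node (nat_lit 0) (nat_lit 6) (nat_lit 8) (C.cons (nat_lit 321) (C.node (nat_lit 0) (nat_lit 1) (nat_lit 7) (C.cons (nat_lit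 1155) (C.node (nat_lit 0) (nat_lit 4) (nat_lit 10) (C.cons (nat_lit 1041) (C.node (nat_lit 0) (nat_lit 4) (nat_lit 5) (C.cons (nat_lit 561) (C.pat (nat_lit 2) (nat_lit 32525017427) (nat_lit 25757721746807231467535275283361847508780909125)) C.nil)) C.nil)) (C.cons (nat_lit 131) (C.node (nat_lit 0) (nat_lit 1) (nat_lit 10) C.nil) C.nil))) C.nil)) (C.cons (nat_lit 67) (C.node (nat_lit 0) (nat_lit 4) (nat_lit 5) (C.cons (nat_lit 561) (C.node (nat_lit 0) (nat_lit 4) (nat_lit 6) (C.cons (nat_lit 337) (C.node (nat_lit 0) (nat_lit 8) (nat_lit 7) (C.cons (nat_lit 385) (C.node (nat_lit 0) (nat_lit 1) (nat_lit 4) (C.cons (nat_lit 147) (C.node (nat_lit 0) (nat_lit 1) (nat_lit 10) C.nil) (C.cons (nat_lit 1043) (C.pat (nat_lit 2) (nat_lit 6599123778) (nat_lit 959122943694546119189974603172017204841221889)) C.nil))) C.nil)) (C.cons (nat_lit 81) (C.node (nat_lit 0) (nat_lit 8) (nat_lit 6) C.nil) C.nil))) (C.cons (nat_lit 49) (C.node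 (nat_lit 0) (nat_lit 4) (nat_lit 9) C.nil) C.nil))) C.nil))) (C.cons (nat_lit 73) (C.node (nat_lit 0) (nat_lit 3) (nat_lit 10) (C.cons (nat_lit 1033) (C.node (nat_lit 0) (nat_lit 4) (nat_lit 5) (C.cons (nat_lit 561) (C.node (nat_lit 0) (nat_lit 6) (nat_lit 8) (C.cons (nat_lit 337) (C.node (nat_lit 0) (nat_lit 7) (nat_lit 8) C.nil) C.nil)) C.nil)) C.nil)) C.nil))) C.nil))) C.nil))) (C.cons (nat_lit 521) (C.node (nat_lit 0) (nat_lit 4) (nat_lit 5) (C.cons (nat_lit 561) (C.node (nat_lit 0) (nat_lit 1) (nat_lit 9) (C.cons (nat_lit 643) (C.ref (nat_lit 344) (nat_lit 205163982963216)) (C.cons (nat_lit 515) (C.node (nat_lit 0) (nat_lit 7) (nat_lit 9) (C.cons (nat_lit 641) (C.ref (nat_lit 346) (nat_lit 205163982963216)) C.nil)) C.nil))) (C.cons (nat_lit 49) (C.node (nat_lit 0) (nat_lit 5) (nat_lit 9) (C.cons (nat_lit 545) (C.ref (nat_lit 351) (nat_lit 205163983024656)) C.nil)) C.nil))) C.nil))) (C.cons (nat_lit 41) (C.node (nat_lit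 0) (nat_lit 1) (nat_lit 5) (C.cons (nat_lit 547) (C.node (nat_lit 0) (nat_lit 4) (nat_lit 5) (C.cons (nat_lit 49) (C.node (nat_lit 0) (nat_lit 3) (nat_lit 9) (C.cons (nat_lit 649) (C.node (nat_lit 0) (nat_lit 4) (nat_lit 9) (C.cons (nat_lit 529) (C.ref (nat_lit 338) (nat_lit 200614754289936)) C.nil)) (C.cons (nat_lit 521) (C.node (nat_lit 0) (nat_lit 4) (nat_lit 9) (C.cons (nat_lit 657) (C.ref (nat_lit 338) (nat_lit 200614502631696)) (C.cons (nat_lit 529) (C.node (nat_lit 0) (nat_lit 7) (nat_lit 9) C.nil) C.nil))) C.nil))) C.nil)) (C.cons (nat_lit 51) (C.node (nat_lit 0) (nat_lit 5) (nat_lit 9) (C.cons (nat_lit 545) (C.node (nat_lit 0) (nat_lit 4) (nat_lit 9) (C.cons (nat_lit 657) (C.node (nat_lit 0) (nat_lit 1) (nat_lit 9) (C.cons (nat_lit 523) (C.ref (nat_lit 350) (nat_lit 205163982963216)) (C.cons (nat_lit 515) (C.node (nat_lit 0) (nat_lit 3) (nat_lit 9) (C.cons (nat_lit 521) (C.node (nat_lit 0) (nat_lit 4) (nat_lit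 8) (C.cons (nat_lit 337) (C.node (nat_lit 0) (nat_lit 4) (nat_lit 10) C.nil) C.nil)) C.nil)) C.nil))) (C.cons (nat_lit 529) (C.ref (nat_lit 351) (nat_lit 205163982963216)) C.nil))) C.nil)) (C.cons (nat_lit 35) (C.node (nat_lit 0) (nat_lit 4) (nat_lit 5) (C.cons (nat_lit 561) (C.ref (nat_lit 349) (nat_lit 205163982963216)) (C.cons (nat_lit 49) (C.node (nat_lit 0) (nat_lit 5) (nat_lit 9) (C.cons (nat_lit 545)
  (C.ref (nat_lit 352) (nat_lit 205163983024656)) C.nil)) C.nil))) C.nil)))) C.nil)))) C.nil)))) (List.cons (C.node (nat_lit 0) (nat_lit 3) (nat_lit 8) (C.cons (nat_lit 265) (C.node (nat_lit 0) (nat_lit 3) (nat_lit 6) (C.cons (nat_lit 1097) (C.pat (nat_lit 0) (nat_lit 110779186) (nat_lit 304318120125913538655933365028893)) (C.cons (nat_lit 73) (C.node (nat_lit 0) (nat_lit 4) (nat_lit 6) (C.cons (nat_lit 1105) (C.ref (nat_lit 331) (nat_lit 204132080637456)) (C.cons (nat_lit 81) (C.node (nat_lit 0) (nat_lit 6) (nat_lit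 10) (C.cons (nat_lit 1089) (C.ref (nat_lit 339) (nat_lit 201580870215696)) C.nil)) C.nil))) C.nil))) C.nil)) (List.cons (C.node (nat_lit 0) (nat_lit 1) (nat_lit 6) (C.cons (nat_lit 83) (C.node (nat_lit 0) (nat_lit 6) (nat_lit 10) (C.cons (nat_lit 1089) (C.node (nat_lit 0) (nat_lit 1) (nat_lit 7) (C.cons (nat_lit 643) (C.node (nat_lit 0) (nat_lit 4) (nat_lit 9) (C.cons (nat_lit 529) (C.node (nat_lit 0) (nat_lit 4) (nat_lit 7) (C.cons (nat_lit 1169) (C.pat (nat_lit 0) (nat_lit 126507842) (nat_lit 304318120127241634422621594781725)) C.nil)) C.nil)) (C.cons (nat_lit 131) (C.node (nat_lit 0) (nat_lit 1) (nat_lit 9) C.nil) C.nil))) C.nil)) (C.cons (nat_lit 67) (C.node (nat_lit 0) (nat_lit 4) (nat_lit 6) (C.cons (nat_lit 1105) (C.pat (nat_lit 1) (nat_lit 2322158642) (nat_lit 5509331282980060930737209627554415697)) (C.cons (nat_lit 81) (C.node (nat_lit 0) (nat_lit 6) (nat_lit 10) C.nil) C.nil))) C.nil))) (List.cons (C.node (nat_lit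 0) (nat_lit 1) (nat_lit 9) (C.cons (nat_lit 643) (C.node (nat_lit 0) (nat_lit 4) (nat_lit 9) (C.cons (nat_lit 529) (C.node (nat_lit 0) (nat_lit 3) (nat_lit 7) (C.cons (nat_lit 1161) (C.node (nat_lit 0) (nat_lit 4) (nat_lit 7) C.nil) C.nil)) C.nil)) (C.cons (nat_lit 531) (C.node (nat_lit 0) (nat_lit 7) (nat_lit 9) (C.cons (nat_lit 641) (C.node (nat_lit 0) (nat_lit 6) (nat_lit 4) (C.cons (nat_lit 1105) (C.node (nat_lit 0) (nat_lit 7) (nat_lit 4) C.nil) C.nil)) C.nil)) (C.cons (nat_lit 515) (C.node (nat_lit 0) (nat_lit 4) (nat_lit 9) (C.cons (nat_lit 657) (C.node (nat_lit 0) (nat_lit 1) (nat_lit 4) (C.cons (nat_lit 83) (C.node (nat_lit 0) (nat_lit 10) (nat_lit 4) C.nil) (C.cons (nat_lit 1043) (C.node (nat_lit 0) (nat_lit 4) (nat_lit 6) C.nil) C.nil))) C.nil)) C.nil)))) (List.cons (C.node (nat_lit 0) (nat_lit 3) (nat_lit 7) (C.cons (nat_lit 1161) (C.node (nat_lit 0) (nat_lit 4) (nat_lit 7) (C.cons (nat_lit 145) (C.node (nat_lit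 0) (nat_lit 1) (nat_lit 3) (C.cons (nat_lit 267) (C.node (nat_lit 0) (nat_lit 6) (nat_lit 3) C.nil) (C.cons (nat_lit 75) (C.node (nat_lit 0) (nat_lit 3) (nat_lit 8) C.nil) C.nil))) C.nil)) (C.cons (nat_lit 137) (C.node (nat_lit 0) (nat_lit 4) (nat_lit 7) (C.cons (nat_lit 1169) (C.node (nat_lit 0) (nat_lit 1) (nat_lit 4) (C.cons (nat_lit 275) (C.node (nat_lit 0) (nat_lit 6) (nat_lit 4) C.nil) (C.cons (nat_lit 83) (C.node (nat_lit 0) (nat_lit 4) (nat_lit 8) C.nil) C.nil))) C.nil)) C.nil))) (List.cons (C.node (nat_lit 0) (nat_lit 1) (nat_lit 9) (C.cons (nat_lit 643) (C.node (nat_lit 0) (nat_lit 4) (nat_lit 9) (C.cons (nat_lit 529) (C.ref (nat_lit 357) (nat_lit 205163983024656)) C.nil)) (C.cons (nat_lit 531) (C.node (nat_lit 0) (nat_lit 7) (nat_lit 9) (C.cons (nat_lit 641) (C.ref (nat_lit 348) (nat_lit 196969185716496)) C.nil)) (C.cons (nat_lit 515) (C.node (nat_lit 0) (nat_lit 4) (nat_lit 9) (C.cons (nat_lit 657) (C.ref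 (nat_lit 356) (nat_lit 200616455651856)) (C.cons (nat_lit 529) (C.node (nat_lit 0) (nat_lit 7) (nat_lit 9) C.nil) C.nil))) C.nil)))) (List.cons (C.node (nat_lit 0) (nat_lit 1) (nat_lit 5) (C.cons (nat_lit 291) (C.node (nat_lit 0) (nat_lit 4) (nat_lit 5) (C.cons (nat_lit 49) (C.node (nat_lit 0) (nat_lit 3) (nat_lit 8) (C.cons (nat_lit 329) (C.node (nat_lit 0) (nat_lit 4) (nat_lit 8) (C.cons (nat_lit 273) (C.ref (nat_lit 332) (nat_lit 205163124450576)) C.nil)) (C.cons (nat_lit 265) (C.node (nat_lit 0) (nat_lit 4) (nat_lit 8) (C.cons (nat_lit 337) (C.ref (nat_lit 336) (nat_lit 205163124450576)) (C.cons (nat_lit 273) (C.node (nat_lit 0) (nat_lit 6) (nat_lit 8)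
  (C.cons (nat_lit 321) (C.ref (nat_lit 340) (nat_lit 205163124450576)) C.nil)) C.nil))) C.nil))) C.nil)) (C.cons (nat_lit 51) (C.node (nat_lit 0) (nat_lit 5) (nat_lit 8) (C.cons (nat_lit 289) (C.node (nat_lit 0) (nat_lit 1) (nat_lit 9) (C.cons (nat_lit 643) (C.node (nat_lit 0) (nat_lit 4) (nat_lit 9) (C.cons (nat_lit 529) (C.ref (nat_lit 345) (nat_lit 196969525372176)) C.nil)) (C.cons (nat_lit 515) (C.node (nat_lit 0) (nat_lit 4) (nat_lit 8) (C.cons (nat_lit 337) (C.node (nat_lit 0) (nat_lit 1) (nat_lit 8) (C.cons (nat_lit 267) (C.node (nat_lit 0) (nat_lit 1) (nat_lit 6) (C.cons (nat_lit 1091) (C.pat (nat_lit 5) (nat_lit 281381346149) (nat_lit 46319954803669255671893168207639020267127505987)) (C.cons (nat_lit 67) (C.node (nat_lit 0) (nat_lit 1) (nat_lit 7) (C.cons (nat_lit 1155) (C.node (nat_lit 0) (nat_lit 3) (nat_lit 7) (C.cons (nat_lit 137) (C.node (nat_lit 0) (nat_lit 4) (nat_lit 10) (C.cons (nat_lit 1041) (C.node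 (nat_lit 0) (nat_lit 3) (nat_lit 6) (C.cons (nat_lit 1097) (C.pat (nat_lit 0) (nat_lit 110779186) (nat_lit 304318120125913538655933365028893)) C.nil)) C.nil)) C.nil)) (C.cons (nat_lit 131) (C.node (nat_lit 0) (nat_lit 1) (nat_lit 10) (C.cons (nat_lit 1027) (C.node (nat_lit 0) (nat_lit 3) (nat_lit 6) (C.cons (nat_lit 1097) (C.pat (nat_lit 0) (nat_lit 110779186) (nat_lit 304318120125913538655933365028893)) C.nil)) C.nil)) C.nil))) C.nil))) (C.cons (nat_lit 259) (C.node (nat_lit 0) (nat_lit 3) (nat_lit 8) (C.cons (nat_lit 265) (C.node (nat_lit 0) (nat_lit 4) (nat_lit 9) (C.cons (nat_lit 657) (C.pat (nat_lit 0) (nat_lit 126446402) (nat_lit 304318120117796910464081527638045)) (C.cons (nat_lit 529) (C.node (nat_lit 0) (nat_lit 7) (nat_lit 9) C.nil) C.nil))) C.nil)) C.nil))) (C.cons (nat_lit 273) (C.node (nat_lit 0) (nat_lit 4) (nat_lit 6) (C.cons (nat_lit 1105) (C.node (nat_lit 0) (nat_lit 4) (nat_lit 7) (C.cons (nat_lit 657)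 (C.ref (nat_lit 331) (nat_lit 201646744478736)) (C.cons (nat_lit 145) (C.node (nat_lit 0) (nat_lit 4) (nat_lit 9) (C.cons (nat_lit 529) (C.node (nat_lit 0) (nat_lit 7) (nat_lit 9) C.nil) C.nil)) C.nil))) (C.cons (nat_lit 81) (C.node (nat_lit 0) (nat_lit 4) (nat_lit 9) (C.cons (nat_lit 657) (C.node (nat_lit 0) (nat_lit 4) (nat_lit 10) (C.cons (nat_lit 1041) (C.ref (nat_lit 339) (nat_lit 196969525372176)) C.nil)) (C.cons (nat_lit 529) (C.node (nat_lit 0) (nat_lit 7) (nat_lit 9) C.nil) C.nil))) C.nil))) C.nil))) C.nil))) C.nil)) (C.cons (nat_lit 35) (C.node (nat_lit 0) (nat_lit 4) (nat_lit 5) (C.cons (nat_lit 305) (C.node (nat_lit 0) (nat_lit 1) (nat_lit 8) (C.cons (nat_lit 323) (C.ref (nat_lit 354) (nat_lit 205163983024656)) (C.cons (nat_lit 267) (C.ref (nat_lit 354) (nat_lit 205163124450576)) (C.cons (nat_lit 259) (C.node (nat_lit 0) (nat_lit 3) (nat_lit 8) (C.cons (nat_lit 329) (C.node (nat_lit 0) (nat_lit 1) (nat_lit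 3) (C.cons (nat_lit 1035) (C.node (nat_lit 0) (nat_lit 3) (nat_lit 7) (C.cons (nat_lit 137) (C.ref (nat_lit 355) (nat_lit 205163983024656)) C.nil)) (C.cons (nat_lit 139) (C.node (nat_lit 0) (nat_lit 3) (nat_lit 10) (C.cons (nat_lit 1033) (C.ref (nat_lit 355) (nat_lit 201647263592976)) C.nil)) (C.cons (nat_lit 11) (C.node (nat_lit 0) (nat_lit 3) (nat_lit 7) (C.cons (nat_lit 1161) (C.pat (nat_lit 1) (nat_lit 949385810) (nat_lit 2019829544737922458487060694550253313)) (C.cons (nat_lit 137) (C.node (nat_lit 0) (nat_lit 3) (nat_lit 10) (C.cons (nat_lit 1033) (C.node (nat_lit 0) (nat_lit 1) (nat_lit 6) (C.cons (nat_lit 1091) (C.node (nat_lit 0) (nat_lit 4) (nat_lit 6) C.nil) (C.cons (nat_lit 83) (C.node (nat_lit 0) (nat_lit 6) (nat_lit 10) C.nil) C.nil))) C.nil)) C.nil))) C.nil)))) (C.cons (nat_lit 265) (C.node (nat_lit 0) (nat_lit 6) (nat_lit 8) (C.cons (nat_lit 321) (C.ref (nat_lit 356) (nat_lit 205163983024656)) C.nil))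 C.nil))) C.nil)))) (C.cons (nat_lit 49) (C.node (nat_lit 0) (nat_lit 5) (nat_lit 8) (C.cons (nat_lit 289) (C.ref (nat_lit 358) (nat_lit 205163983024656)) C.nil)) C.nil))) C.nil)))) (List.cons (C.node (nat_lit 0) (nat_lit 4) (nat_lit 8) (C.cons (nat_lit 305)
  (C.node (nat_lit 0) (nat_lit 5) (nat_lit 9) (C.cons (nat_lit 545) (C.ref (nat_lit 331) (nat_lit 200616219779856)) C.nil)) (C.cons (nat_lit 273) (C.node (nat_lit 0) (nat_lit 5) (nat_lit 8) (C.cons (nat_lit 289) (C.node (nat_lit 0) (nat_lit 4) (nat_lit 5) (C.cons (nat_lit 561) (C.node (nat_lit 0) (nat_lit 1) (nat_lit 9) (C.cons (nat_lit 643) (C.node (nat_lit 0) (nat_lit 4) (nat_lit 7) (C.cons (nat_lit 145) (C.node (nat_lit 0) (nat_lit 1) (nat_lit 6) (C.cons (nat_lit 1091) (C.pat (nat_lit 2) (nat_lit 6848423271) (nat_lit 959043999452344697857235406515317222376804097)) (C.cons (nat_lit 83) (C.node (nat_lit 0) (nat_lit 1) (nat_lit 10) C.nil) C.nil))) C.nil)) (C.cons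 (nat_lit 515) (C.node (nat_lit 0) (nat_lit 7) (nat_lit 9) C.nil) C.nil))) (C.cons (nat_lit 49) (C.node (nat_lit 0) (nat_lit 5) (nat_lit 9) C.nil) C.nil))) C.nil)) C.nil))) (List.cons (C.node (nat_lit 0) (nat_lit 5) (nat_lit 8) (C.cons (nat_lit 305) (C.node (nat_lit 0) (nat_lit 5) (nat_lit 9) (C.cons (nat_lit 545) (C.node (nat_lit 0) (nat_lit 1) (nat_lit 8) (C.cons (nat_lit 323) (C.node (nat_lit 0) (nat_lit 4) (nat_lit 6) (C.cons (nat_lit 81) (C.node (nat_lit 0) (nat_lit 1) (nat_lit 10) (C.cons (nat_lit 1043) (C.pat (nat_lit 1) (nat_lit 3025381473) (nat_lit 5415730180397422008413699644471181617)) (C.cons (nat_lit 1155) (C.node (nat_lit 0) (nat_lit 4) (nat_lit 10) C.nil) C.nil))) C.nil)) (C.cons (nat_lit 259) (C.node (nat_lit 0) (nat_lit 6) (nat_lit 8) C.nil) C.nil))) C.nil)) (C.cons (nat_lit 289) (C.node (nat_lit 0) (nat_lit 4) (nat_lit 5) (C.cons (nat_lit 561) (C.node (nat_lit 0) (nat_lit 1) (nat_lit 9) (C.cons (nat_lit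 643) (C.node (nat_lit 0) (nat_lit 1) (nat_lit 10) (C.cons (nat_lit 1043) (C.node (nat_lit 0) (nat_lit 4) (nat_lit 7) (C.cons (nat_lit 145) (C.node (nat_lit 0) (nat_lit 7) (nat_lit 10) C.nil) C.nil)) (C.cons (nat_lit 1027) (C.node (nat_lit 0) (nat_lit 4) (nat_lit 7) (C.cons (nat_lit 1169) (C.node (nat_lit 0) (nat_lit 1) (nat_lit 6) (C.cons (nat_lit 323) (C.node (nat_lit 0) (nat_lit 1) (nat_lit 4) C.nil) (C.cons (nat_lit 83) (C.pat (nat_lit 2) (nat_lit 5143938917) (nat_lit 14339576872406327976418168739035933077636450333)) C.nil))) C.nil)) C.nil))) (C.cons (nat_lit 515) (C.node (nat_lit 0) (nat_lit 7) (nat_lit 9) C.nil) C.nil))) (C.cons (nat_lit 49) (C.node (nat_lit 0) (nat_lit 5) (nat_lit 9) C.nil) C.nil))) C.nil))) List.nil)))))))))))))))))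

theorem ok12_345 : okL par12 (nat_lit 362) c12_345 (nat_lit 345) = true := by decide +kernel

noncomputable def c12_362 : List C :=
  (List.cons (C.node (nat_lit 0) (nat_lit 1) (nat_lit 9) (C.cons (nat_lit 531) (C.node (nat_lit 0) (nat_lit 5) (nat_lit 9) (C.cons (nat_lit 545) (C.node (nat_lit 0) (nat_lit 1) (nat_lit 7) (C.cons (nat_lit 1155) (C.node (nat_lit 0) (nat_lit 4) (nat_lit 7) (C.cons (nat_lit 145) (C.node (nat_lit 0) (nat_lit 1) (nat_lit 6) (C.cons (nat_lit 323) (C.node (nat_lit 0) (nat_lit 4) (nat_lit 5) (C.cons (nat_lit 305) (C.pat (nat_lit 5) (nat_lit 212947078005) (nat_lit 46319954805289251658249886155211566195633620099)) C.nil)) C.nil)) C.nil)) (C.cons (nat_lit 131) (C.node (nat_lit 0) (nat_lit 1) (nat_lit 8) (C.cons (nat_lit 323) (C.node (nat_lit 0) (nat_lit 1) (nat_lit 10) C.nil) C.nil)) C.nil))) C.nil)) (C.cons (nat_lit 515) (C.node (nat_lit 0) (nat_lit 4) (nat_lit 9) (C.cons (nat_lit 561) (C.node (nat_lit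 0) (nat_lit 5) (nat_lit 8) (C.cons (nat_lit 289) (C.ref (nat_lit 339) (nat_lit 198064742032656)) C.nil)) (C.cons (nat_lit 529) (C.node (nat_lit 0) (nat_lit 5) (nat_lit 9) C.nil) C.nil))) C.nil))) (List.cons (C.node (nat_lit 0) (nat_lit 3) (nat_lit 9) (C.cons (nat_lit 649) (C.node (nat_lit 0) (nat_lit 3) (nat_lit 10) (C.cons (nat_lit 1033) (C.ref (nat_lit 362) (nat_lit 205163983024656)) C.nil)) (C.cons (nat_lit 521) (C.node (nat_lit 0) (nat_lit 3) (nat_lit 7) (C.cons (nat_lit 1161) (C.ref (nat_lit 361) (nat_lit 205099306856976)) (C.cons (nat_lit 137) (C.node (nat_lit 0) (nat_lit 3) (nat_lit 10) (C.cons (nat_lit 1033) (C.node (nat_lit 0) (nat_lit 5) (nat_lit 8) (C.cons (nat_lit 305) (C.node (nat_lit 0) (nat_lit 5) (nat_lit 9) C.nil) C.nil)) C.nil)) C.nil))) C.nil))) (List.cons (C.node (nat_lit 0) (nat_lit 3) (nat_lit 6) (C.cons (nat_lit 1097) (C.node (nat_lit 0) (nat_lit 3) (nat_lit 7) (C.cons (nat_lit 649) (C.node (nat_lit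 0) (nat_lit 1) (nat_lit 9) (C.cons (nat_lit 531) (C.node (nat_lit 0) (nat_lit 5) (nat_lit 9) (C.cons (nat_lit 545) (C.node (nat_lit 0) (nat_lit 1) (nat_lit 6) (C.cons (nat_lit 323) (C.node (nat_lit 0) (nat_lit 4) (nat_lit 6) (C.cons (nat_lit 81) (C.node (nat_lit 0) (nat_lit 1) (nat_lit 7) (C.cons (nat_lit 1155) (C.pat (nat_lit 2) (nat_lit 6596765046) (nat_lit 959152888812843471929251791725385413401054977)) (C.cons (nat_lit 131) (C.node (nat_lit 0) (nat_lit 1) (nat_lit 10) (C.cons (nat_lit 1027) (C.node (nat_lit 0) (nat_lit 4) (nat_lit 10) (C.cons (nat_lit 1169) (C.node (nat_lit 0) (nat_lit 4) (nat_lit 8) (C.cons (nat_lit 305) (C.pat (nat_lit 0) (nat_lit 141929282) (nat_lit 180090256884622565129185445349405)) C.nil)) C.nil)) C.nil)) C.nil))) C.nil)) (C.cons (nat_lit 67) (C.node (nat_lit 0) (nat_lit 1) (nat_lit 8) (C.cons (nat_lit 259) (C.node (nat_lit 0) (nat_lit 1) (nat_lit 7) (C.cons (nat_lit 1155) (C.node (nat_lit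 0) (nat_lit 4) (nat_lit 7) (C.cons (nat_lit 145) (C.node (nat_lit 0) (nat_lit 4) (nat_lit 10) C.nil) C.nil)) (C.cons (nat_lit 131) (C.node (nat_lit 0) (nat_lit 1) (nat_lit 10) C.nil) C.nil))) C.nil)) C.nil))) C.nil)) (C.cons (nat_lit 515) (C.ref (nat_lit 360) (nat_lit 205099306856976)) C.nil))) (C.cons (nat_lit 137) (C.node (nat_lit 0) (nat_lit 3) (nat_lit 9) (C.cons (nat_lit 521) (C.ref (nat_lit 361) (nat_lit 205163983024656)) C.nil)) C.nil))) (C.cons (nat_lit 73) (C.ref (nat_lit 363) (nat_lit 205163983024656)) C.nil))) (List.cons (C.node (nat_lit 0) (nat_lit 1) (nat_lit 8) (C.cons (nat_lit 387) (C.node (nat_lit 0) (nat_lit 1) (nat_lit 9) (C.cons (nat_lit 523) (C.node (nat_lit 0) (nat_lit 7) (nat_lit 9) (C.cons (nat_lit 641) (C.node (nat_lit 0) (nat_lit 1) (nat_lit 6) (C.cons (nat_lit 1091) (C.node (nat_lit 0) (nat_lit 3) (nat_lit 6) C.nil) C.nil)) C.nil)) (C.cons (nat_lit 515) (C.node (nat_lit 0) (nat_lit 3) (nat_lit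 9) (C.cons (nat_lit 649) (C.node (nat_lit 0) (nat_lit 4) (nat_lit 7) (C.cons (nat_lit 1169) (C.node (nat_lit 0) (nat_lit 4) (nat_lit 6) (C.cons (nat_lit 337) (C.node (nat_lit 0) (nat_lit 1) (nat_lit 3) (C.cons (nat_lit 75) (C.node (nat_lit 0) (nat_lit 1) (nat_lit 10) C.nil) (C.cons (nat_lit 1035)
  (C.pat (nat_lit 1) (nat_lit 3090838849) (nat_lit 2009723200876475734897043365101109545)) C.nil))) C.nil)) C.nil)) C.nil)) C.nil))) (C.cons (nat_lit 323) (C.node (nat_lit 0) (nat_lit 3) (nat_lit 6) (C.cons (nat_lit 1097) (C.node (nat_lit 0) (nat_lit 4) (nat_lit 6) (C.cons (nat_lit 81) (C.node (nat_lit 0) (nat_lit 1) (nat_lit 10) (C.cons (nat_lit 1155) (C.node (nat_lit 0) (nat_lit 4) (nat_lit 10) C.nil) C.nil)) C.nil)) (C.cons (nat_lit 73) (C.node (nat_lit 0) (nat_lit 4) (nat_lit 6) (C.cons (nat_lit 1105) (C.node (nat_lit 0) (nat_lit 4) (nat_lit 7) (C.cons (nat_lit 401) (C.node (nat_lit 0) (nat_lit 1) (nat_lit 10) (C.cons (nat_lit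 1155) (C.node (nat_lit 0) (nat_lit 3) (nat_lit 10) C.nil) (C.cons (nat_lit 1035) (C.pat (nat_lit 1) (nat_lit 3090834753) (nat_lit 1677416201930246766671091600026829097)) C.nil))) C.nil)) C.nil)) C.nil))) (C.cons (nat_lit 259) (C.node (nat_lit 0) (nat_lit 6) (nat_lit 8) (C.cons (nat_lit 337) (C.node (nat_lit 0) (nat_lit 7) (nat_lit 8) C.nil) C.nil)) C.nil)))) (List.cons (C.node (nat_lit 0) (nat_lit 5) (nat_lit 8) (C.cons (nat_lit 305) (C.node (nat_lit 0) (nat_lit 5) (nat_lit 9) (C.cons (nat_lit 545) (C.ref (nat_lit 365) (nat_lit 205163982963216)) C.nil)) (C.cons (nat_lit 289) (C.node (nat_lit 0) (nat_lit 4) (nat_lit 5) (C.cons (nat_lit 561) (C.node (nat_lit 0) (nat_lit 1) (nat_lit 9) (C.cons (nat_lit 643) (C.ref (nat_lit 346) (nat_lit 198064742032656)) (C.cons (nat_lit 515) (C.node (nat_lit 0) (nat_lit 7) (nat_lit 9) C.nil) C.nil))) (C.cons (nat_lit 49) (C.node (nat_lit 0) (nat_lit 5) (nat_lit 9) C.nil) C.nil))) C.nil)))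 (List.cons (C.node (nat_lit 0) (nat_lit 3) (nat_lit 5) (C.cons (nat_lit 553) (C.node (nat_lit 0) (nat_lit 1) (nat_lit 5) (C.cons (nat_lit 291) (C.node (nat_lit 0) (nat_lit 4) (nat_lit 5) (C.cons (nat_lit 49) (C.ref (nat_lit 349) (nat_lit 205163124450576)) C.nil)) (C.cons (nat_lit 51) (C.node (nat_lit 0) (nat_lit 5) (nat_lit 8) (C.cons (nat_lit 289) (C.node (nat_lit 0) (nat_lit 1) (nat_lit 9) (C.cons (nat_lit 643) (C.node (nat_lit 0) (nat_lit 4) (nat_lit 9) (C.cons (nat_lit 529) (C.ref (nat_lit 346) (nat_lit 196969525372176)) C.nil)) (C.cons (nat_lit 515) (C.node (nat_lit 0) (nat_lit 4) (nat_lit 9) (C.cons (nat_lit 657) (C.ref (nat_lit 357) (nat_lit 200485905148176)) (C.cons (nat_lit 529) (C.node (nat_lit 0) (nat_lit 7) (nat_lit 9) C.nil) C.nil))) C.nil))) C.nil)) (C.cons (nat_lit 35) (C.node (nat_lit 0) (nat_lit 4) (nat_lit 5) (C.cons (nat_lit 305) (C.ref (nat_lit 358) (nat_lit 205163124450576)) (C.cons (nat_lit 49)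 (C.node (nat_lit 0) (nat_lit 5) (nat_lit 8) (C.cons (nat_lit 289) (C.node (nat_lit 0) (nat_lit 1) (nat_lit 9) (C.cons (nat_lit 643) (C.node (nat_lit 0) (nat_lit 4) (nat_lit 9) C.nil) (C.cons (nat_lit 531) (C.node (nat_lit 0) (nat_lit 7) (nat_lit 9) C.nil) C.nil))) C.nil)) C.nil))) C.nil)))) (C.cons (nat_lit 297) (C.node (nat_lit 0) (nat_lit 1) (nat_lit 5) (C.cons (nat_lit 547) (C.node (nat_lit 0) (nat_lit 4) (nat_lit 5) (C.cons (nat_lit 49) (C.node (nat_lit 0) (nat_lit 3) (nat_lit 9) (C.cons (nat_lit 649) (C.node (nat_lit 0) (nat_lit 4) (nat_lit 9) (C.cons (nat_lit 529) (C.ref (nat_lit 333) (nat_lit 205098699879696)) C.nil)) (C.cons (nat_lit 521) (C.node (nat_lit 0) (nat_lit 4) (nat_lit 9) (C.cons (nat_lit 657) (C.ref (nat_lit 337) (nat_lit 205098699879696)) (C.cons (nat_lit 529) (C.node (nat_lit 0) (nat_lit 7) (nat_lit 9) C.nil) C.nil))) C.nil))) C.nil)) (C.cons (nat_lit 51) (C.node (nat_lit 0) (nat_lit 5) (nat_lit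 9) (C.cons (nat_lit 545) (C.node (nat_lit 0) (nat_lit 4) (nat_lit 9) (C.cons (nat_lit 657) (C.node (nat_lit 0) (nat_lit 1) (nat_lit 9) (C.cons (nat_lit 523) (C.node (nat_lit 0) (nat_lit 3) (nat_lit 6) (C.cons (nat_lit 1097) (C.node (nat_lit 0) (nat_lit 3) (nat_lit 7) (C.cons (nat_lit 137) (C.node (nat_lit 0) (nat_lit 4) (nat_lit 10) (C.cons (nat_lit 1041) (C.node (nat_lit 0) (nat_lit 1) (nat_lit 6) (C.cons (nat_lit 323) (C.node (nat_lit 0) (nat_lit 4) (nat_lit 6) C.nil) C.nil)) C.nil)) C.nil)) (C.cons (nat_lit 73) (C.node (nat_lit 0) (nat_lit 3) (nat_lit 7)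
  (C.cons (nat_lit 1161) (C.node (nat_lit 0) (nat_lit 1) (nat_lit 7) (C.cons (nat_lit 387) (C.pat (nat_lit 1) (nat_lit 3074787633) (nat_lit 2009598969928099286409611184020456081)) (C.cons (nat_lit 131) (C.node (nat_lit 0) (nat_lit 7) (nat_lit 8) C.nil) C.nil))) (C.cons (nat_lit 137) (C.node (nat_lit 0) (nat_lit 3) (nat_lit 10) C.nil) C.nil))) C.nil))) (C.cons (nat_lit 515) (C.node (nat_lit 0) (nat_lit 3) (nat_lit 9) (C.cons (nat_lit 521) (C.node (nat_lit 0) (nat_lit 4) (nat_lit 8) (C.cons (nat_lit 337) (C.node (nat_lit 0) (nat_lit 4) (nat_lit 10) C.nil) C.nil)) C.nil)) C.nil))) (C.cons (nat_lit 529) (C.ref (nat_lit 365) (nat_lit 205163983024656)) C.nil))) C.nil)) (C.cons (nat_lit 35) (C.node (nat_lit 0) (nat_lit 4) (nat_lit 5) (C.cons (nat_lit 561) (C.ref (nat_lit 358) (nat_lit 205162872792336)) (C.cons (nat_lit 49) (C.node (nat_lit 0) (nat_lit 5) (nat_lit 9) (C.cons (nat_lit 545) (C.node (nat_lit 0) (nat_lit 3) (nat_lit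 6) (C.cons (nat_lit 1097) (C.node (nat_lit 0) (nat_lit 1) (nat_lit 3) (C.cons (nat_lit 523) (C.node (nat_lit 0) (nat_lit 3) (nat_lit 7) C.nil) (C.cons (nat_lit 139) (C.node (nat_lit 0) (nat_lit 3) (nat_lit 9) C.nil) C.nil))) (C.cons (nat_lit 75) (C.node (nat_lit 0) (nat_lit 3) (nat_lit 9) (C.cons (nat_lit 649) (C.node (nat_lit 0) (nat_lit 3) (nat_lit 10) C.nil) C.nil)) C.nil))) C.nil)) C.nil))) C.nil)))) (C.cons (nat_lit 43) (C.node (nat_lit 0) (nat_lit 3) (nat_lit 9) (C.cons (nat_lit 649) (C.node (nat_lit 0) (nat_lit 1) (nat_lit 9) (C.cons (nat_lit 531) (C.node (nat_lit 0) (nat_lit 5) (nat_lit 9) (C.cons (nat_lit 545) (C.node (nat_lit 0) (nat_lit 3) (nat_lit 8) (C.cons (nat_lit 329) (C.node (nat_lit 0) (nat_lit 3) (nat_lit 10) (C.cons (nat_lit 1033) (C.node (nat_lit 0) (nat_lit 1) (nat_lit 6) (C.cons (nat_lit 1091) (C.node (nat_lit 0) (nat_lit 4) (nat_lit 6) (C.cons (nat_lit 81) (C.node (nat_lit 0) (nat_lit 1) (nat_lit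 7) (C.cons (nat_lit 387) (C.node (nat_lit 0) (nat_lit 4) (nat_lit 5) (C.cons (nat_lit 305) (C.pat (nat_lit 1) (nat_lit 3091821873) (nat_lit 2009723200267177121811270226655379761)) C.nil)) C.nil)) C.nil)) (C.cons (nat_lit 67) (C.node (nat_lit 0) (nat_lit 1) (nat_lit 8) (C.cons (nat_lit 387) (C.node (nat_lit 0) (nat_lit 1) (nat_lit 10) C.nil) C.nil)) C.nil))) C.nil)) (C.cons (nat_lit 265) (C.node (nat_lit 0) (nat_lit 3) (nat_lit 6) (C.cons (nat_lit 1097) (C.node (nat_lit 0) (nat_lit 1) (nat_lit 6) (C.cons (nat_lit 323) (C.node (nat_lit 0) (nat_lit 4) (nat_lit 6) (C.cons (nat_lit 81) (C.node (nat_lit 0) (nat_lit 1) (nat_lit 7) (C.cons (nat_lit 1155) (C.node (nat_lit 0) (nat_lit 4) (nat_lit 10) C.nil) C.nil)) C.nil)) (C.cons (nat_lit 67) (C.node (nat_lit 0) (nat_lit 1) (nat_lit 8) (C.cons (nat_lit 387) (C.node (nat_lit 0) (nat_lit 1) (nat_lit 10) C.nil) C.nil)) C.nil))) (C.cons (nat_lit 73) (C.node (nat_lit 0) (nat_lit 3)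 (nat_lit 10) C.nil) C.nil))) C.nil))) C.nil)) (C.cons (nat_lit 515) (C.node (nat_lit 0) (nat_lit 3) (nat_lit 8) (C.cons (nat_lit 329) (C.node (nat_lit 0) (nat_lit 3) (nat_lit 10) (C.cons (nat_lit 1033) (C.node (nat_lit 0) (nat_lit 4) (nat_lit 9) (C.cons (nat_lit 561) (C.node (nat_lit 0) (nat_lit 5) (nat_lit 8) (C.cons (nat_lit 289) (C.node (nat_lit 0) (nat_lit 1) (nat_lit 8) (C.cons (nat_lit 387) (C.node (nat_lit 0) (nat_lit 4) (nat_lit 8) C.nil) (C.cons (nat_lit 275) (C.node (nat_lit 0) (nat_lit 8) (nat_lit 7) C.nil) C.nil))) C.nil)) (C.cons (nat_lit 529) (C.node (nat_lit 0) (nat_lit 5) (nat_lit 9) C.nil) C.nil))) C.nil)) (C.cons (nat_lit 265) (C.node (nat_lit 0) (nat_lit 3) (nat_lit 6) (C.cons (nat_lit 1097) (C.node (nat_lit 0) (nat_lit 4) (nat_lit 9) (C.cons (nat_lit 561) (C.node (nat_lit 0) (nat_lit 5) (nat_lit 8) (C.cons (nat_lit 289) (C.node (nat_lit 0) (nat_lit 1) (nat_lit 10) (C.cons (nat_lit 1155) (C.node (nat_lit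 0) (nat_lit 4) (nat_lit 10) C.nil) (C.cons (nat_lit 1043) (C.node (nat_lit 0) (nat_lit 10) (nat_lit 7) C.nil) C.nil))) C.nil)) (C.cons (nat_lit 529) (C.node (nat_lit 0) (nat_lit 5) (nat_lit 9) C.nil) C.nil))) (C.cons (nat_lit 73)
  (C.node (nat_lit 0) (nat_lit 3) (nat_lit 10) C.nil) C.nil))) C.nil))) C.nil))) (C.cons (nat_lit 521) (C.ref (nat_lit 366) (nat_lit 205163983024656)) C.nil))) (C.cons (nat_lit 41) (C.node (nat_lit 0) (nat_lit 3) (nat_lit 9) (C.cons (nat_lit 649) (C.node (nat_lit 0) (nat_lit 1) (nat_lit 9) (C.cons (nat_lit 547) (C.node (nat_lit 0) (nat_lit 4) (nat_lit 9) (C.cons (nat_lit 529) (C.node (nat_lit 0) (nat_lit 4) (nat_lit 5) (C.cons (nat_lit 305) (C.ref (nat_lit 337) (nat_lit 200614754289936)) (C.cons (nat_lit 49) (C.node (nat_lit 0) (nat_lit 8) (nat_lit 5) C.nil) C.nil))) C.nil)) (C.cons (nat_lit 531) (C.node (nat_lit 0) (nat_lit 5) (nat_lit 9) (C.cons (nat_lit 545) (C.node (nat_lit 0) (nat_lit 1)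 (nat_lit 5) (C.cons (nat_lit 291) (C.node (nat_lit 0) (nat_lit 4) (nat_lit 5) (C.cons (nat_lit 49) (C.node (nat_lit 0) (nat_lit 1) (nat_lit 7) (C.cons (nat_lit 1155) (C.node (nat_lit 0) (nat_lit 1) (nat_lit 3) (C.cons (nat_lit 75) (C.node (nat_lit 0) (nat_lit 3) (nat_lit 8) C.nil) C.nil)) C.nil)) C.nil)) (C.cons (nat_lit 35) (C.node (nat_lit 0) (nat_lit 4) (nat_lit 5) (C.cons (nat_lit 305) (C.node (nat_lit 0) (nat_lit 4) (nat_lit 7) (C.cons (nat_lit 1169) (C.node (nat_lit 0) (nat_lit 4) (nat_lit 6) C.nil) C.nil)) C.nil)) C.nil))) C.nil)) (C.cons (nat_lit 515) (C.node (nat_lit 0) (nat_lit 4) (nat_lit 9) (C.cons (nat_lit 561) (C.node (nat_lit 0) (nat_lit 1) (nat_lit 5) (C.cons (nat_lit 291) (C.ref (nat_lit 348) (nat_lit 205162872792336)) (C.cons (nat_lit 35) (C.node (nat_lit 0) (nat_lit 5) (nat_lit 8) C.nil) C.nil))) (C.cons (nat_lit 529) (C.node (nat_lit 0) (nat_lit 5) (nat_lit 9) C.nil) C.nil))) C.nil)))) (C.cons (nat_lit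 523) (C.ref (nat_lit 366) (nat_lit 200487103377936)) (C.cons (nat_lit 521) (C.node (nat_lit 0) (nat_lit 5) (nat_lit 8) (C.cons (nat_lit 305) (C.node (nat_lit 0) (nat_lit 1) (nat_lit 5) (C.cons (nat_lit 547) (C.node (nat_lit 0) (nat_lit 4) (nat_lit 9) (C.cons (nat_lit 657) (C.ref (nat_lit 333) (nat_lit 205098448221456)) (C.cons (nat_lit 529) (C.node (nat_lit 0) (nat_lit 7) (nat_lit 9) C.nil) C.nil))) (C.cons (nat_lit 35) (C.node (nat_lit 0) (nat_lit 5) (nat_lit 9) C.nil) C.nil))) (C.cons (nat_lit 291) (C.node (nat_lit 0) (nat_lit 4) (nat_lit 5) (C.cons (nat_lit 561) (C.node (nat_lit 0) (nat_lit 1) (nat_lit 9) (C.cons (nat_lit 643) (C.ref (nat_lit 347) (nat_lit 205162872792336)) (C.cons (nat_lit 515) (C.node (nat_lit 0) (nat_lit 7) (nat_lit 9) C.nil) C.nil))) (C.cons (nat_lit 49) (C.node (nat_lit 0) (nat_lit 5) (nat_lit 9) C.nil) C.nil))) (C.cons (nat_lit 289) (C.node (nat_lit 0) (nat_lit 1) (nat_lit 5) (C.cons (nat_lit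 547) (C.node (nat_lit 0) (nat_lit 4) (nat_lit 5) C.nil) (C.cons (nat_lit 51) (C.node (nat_lit 0) (nat_lit 5) (nat_lit 9) C.nil) C.nil))) C.nil)))) C.nil)))) C.nil))))) List.nil))))))

theorem ok12_362 : okL par12 (nat_lit 368) c12_362 (nat_lit 362) = true := by decide +kernel

noncomputable def c12_368 : List C :=
  (List.cons (C.node (nat_lit 0) (nat_lit 1) (nat_lit 2) (C.cons (nat_lit 263) (C.node (nat_lit 0) (nat_lit 2) (nat_lit 7) (C.cons (nat_lit 133) (C.ref (nat_lit 353) (nat_lit 205163983024656)) C.nil)) (C.cons (nat_lit 135) (C.node (nat_lit 0) (nat_lit 2) (nat_lit 8) (C.cons (nat_lit 261) (C.ref (nat_lit 353) (nat_lit 200487103377936)) C.nil)) (C.cons (nat_lit 7) (C.node (nat_lit 0) (nat_lit 2) (nat_lit 7) (C.cons (nat_lit 389) (C.node (nat_lit 0) (nat_lit 3) (nat_lit 5) (C.cons (nat_lit 553) (C.ref (nat_lit 359) (nat_lit 205163983024656)) (C.cons (nat_lit 297) (C.ref (nat_lit 359) (nat_lit 205099306856976))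 (C.cons (nat_lit 43) (C.node (nat_lit 0) (nat_lit 3) (nat_lit 8) (C.cons (nat_lit 329) (C.node (nat_lit 0) (nat_lit 1) (nat_lit 8) (C.cons (nat_lit 275) (C.node (nat_lit 0) (nat_lit 5) (nat_lit 8) (C.cons (nat_lit 289) (C.node (nat_lit 0) (nat_lit 1) (nat_lit 6) (C.cons (nat_lit 1091) (C.node (nat_lit 0) (nat_lit 4) (nat_lit 6) (C.cons (nat_lit 81) (C.node (nat_lit 0) (nat_lit 1) (nat_lit 7) (C.cons (nat_lit 643) (C.node (nat_lit 0) (nat_lit 3) (nat_lit 9) (C.cons (nat_lit 521) (C.node (nat_lit 0) (nat_lit 3) (nat_lit 7) (C.cons (nat_lit 1161) (C.pat (nat_lit 2) (nat_lit 15184602486) (nat_lit 959150847118642421667446207744230800542994177)) (C.cons (nat_lit 137) (C.node (nat_lit 0) (nat_lit 3) (nat_lit 10) (C.cons (nat_lit 1033) (C.node (nat_lit 0) (nat_lit 4) (nat_lit 5) (C.cons (nat_lit 561) (C.pat (nat_lit 5) (nat_lit 212678646629) (nat_lit 46319954803627716663209261026626945171216204867)) C.nil)) C.nil)) C.nil)))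 C.nil)) (C.cons (nat_lit 131) (C.node (nat_lit 0) (nat_lit 1) (nat_lit 9) (C.cons (nat_lit 515) (C.node (nat_lit 0) (nat_lit 3) (nat_lit 9) (C.cons (nat_lit 649) (C.pat (nat_lit 0) (nat_lit 126446386) (nat_lit 304318120117649334259692037539869)) (C.cons (nat_lit 521) (C.node (nat_lit 0) (nat_lit 3) (nat_lit 7) (C.cons (nat_lit 1161) (C.node (nat_lit 0) (nat_lit 4) (nat_lit 10) C.nil) C.nil)) C.nil))) C.nil)) C.nil))) C.nil)) (C.cons (nat_lit 67) (C.node (nat_lit 0) (nat_lit 1) (nat_lit 9) (C.cons (nat_lit 643) (C.node (nat_lit 0) (nat_lit 1) (nat_lit 10) (C.cons (nat_lit 1027) (C.node (nat_lit 0) (nat_lit 3) (nat_lit 9) (C.cons (nat_lit 521) (C.node (nat_lit 0) (nat_lit 3) (nat_lit 7) (C.cons (nat_lit 1161) (C.node (nat_lit 0) (nat_lit 4) (nat_lit 7) (C.cons (nat_lit 145) (C.node (nat_lit 0) (nat_lit 4) (nat_lit 10) (C.cons (nat_lit 1105) (C.node (nat_lit 0) (nat_lit 4) (nat_lit 9) (C.cons (nat_lit 561) (C.pat (nat_lit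 0) (nat_lit 157657922) (nat_lit 180090256889344913598481214801949)) C.nil)) C.nil)) C.nil)) (C.cons (nat_lit 137) (C.node (nat_lit 0) (nat_lit 3) (nat_lit 10) C.nil) C.nil))) C.nil)) C.nil)) (C.cons (nat_lit 515) (C.node (nat_lit 0) (nat_lit 1) (nat_lit 7) (C.cons (nat_lit 1155) (C.node (nat_lit 0) (nat_lit 3) (nat_lit 10) (C.cons (nat_lit 1033) (C.node (nat_lit 0) (nat_lit 3) (nat_lit 7) (C.cons (nat_lit 649) (C.pat (nat_lit 0) (nat_lit 126446386) (nat_lit 304318120117649334259692037539869)) (C.cons (nat_lit 137) (C.node (nat_lit 0) (nat_lit 3) (nat_lit 9) C.nil) C.nil))) C.nil)) (C.cons (nat_lit 131) (C.node (nat_lit 0) (nat_lit 1) (nat_lit 10) (C.cons (nat_lit 1027) (C.node (nat_lit 0) (nat_lit 3) (nat_lit 9) (C.cons (nat_lit 649) (C.pat (nat_lit 0) (nat_lit 126446386) (nat_lit 304318120117649334259692037539869)) C.nil)) C.nil)) C.nil))) C.nil))) C.nil))) C.nil)) (C.cons (nat_lit 259) (C.node (nat_lit 0) (nat_lit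 3) (nat_lit 9) (C.cons (nat_lit 649) (C.pat (nat_lit 0) (nat_lit 126446386) (nat_lit 304318120117649334259692037539869)) (C.cons (nat_lit 521) (C.node (nat_lit 0) (nat_lit 3) (nat_lit 7) (C.cons (nat_lit 1161) (C.ref (nat_lit 360) (nat_lit 205163983024656)) (C.cons (nat_lit 137) (C.node (nat_lit 0) (nat_lit 3) (nat_lit 10) (C.cons (nat_lit 1033) (C.node (nat_lit 0) (nat_lit 4) (nat_lit 8) (C.cons (nat_lit 305) (C.node (nat_lit 0) (nat_lit 5) (nat_lit 9) (C.cons (nat_lit 545) (C.ref (nat_lit 339) (nat_lit 198065009358096)) C.nil)) (C.cons (nat_lit 273)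
  (C.node (nat_lit 0) (nat_lit 5) (nat_lit 8) C.nil) C.nil))) C.nil)) C.nil))) C.nil))) C.nil))) (C.cons (nat_lit 265) (C.ref (nat_lit 364) (nat_lit 205163983024656)) C.nil))) (C.cons (nat_lit 41) (C.node (nat_lit 0) (nat_lit 3) (nat_lit 8) (C.cons (nat_lit 329) (C.node (nat_lit 0) (nat_lit 1) (nat_lit 6) (C.cons (nat_lit 1091) (C.node (nat_lit 0) (nat_lit 4) (nat_lit 6) (C.cons (nat_lit 81) (C.node (nat_lit 0) (nat_lit 3) (nat_lit 10) (C.cons (nat_lit 1161) (C.node (nat_lit 0) (nat_lit 4) (nat_lit 10) (C.cons (nat_lit 1041) (C.node (nat_lit 0) (nat_lit 1) (nat_lit 3) (C.cons (nat_lit 523) (C.node (nat_lit 0) (nat_lit 1) (nat_lit 7) (C.cons (nat_lit 147) (C.node (nat_lit 0) (nat_lit 7) (nat_lit 9) (C.cons (nat_lit 641) (C.node (nat_lit 0) (nat_lit 1) (nat_lit 5) (C.cons (nat_lit 291) (C.pat (nat_lit 2) (nat_lit 39277011846) (nat_lit 11663388763020397690861887330195604191534711845)) (C.cons (nat_lit 35) (C.node (nat_lit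 0) (nat_lit 1) (nat_lit 8) C.nil) C.nil))) C.nil)) (C.cons (nat_lit 131) (C.node (nat_lit 0) (nat_lit 4) (nat_lit 7) (C.cons (nat_lit 657) (C.node (nat_lit 0) (nat_lit 5) (nat_lit 9) (C.cons (nat_lit 545) (C.node (nat_lit 0) (nat_lit 1) (nat_lit 5) (C.cons (nat_lit 291) (C.pat (nat_lit 2) (nat_lit 39312523686) (nat_lit 11663684812168842395208739169411832708405068165)) (C.cons (nat_lit 51) (C.node (nat_lit 0) (nat_lit 1) (nat_lit 8) C.nil) C.nil))) C.nil)) (C.cons (nat_lit 145) (C.node (nat_lit 0) (nat_lit 7) (nat_lit 9) C.nil) C.nil))) C.nil))) (C.cons (nat_lit 11) (C.node (nat_lit 0) (nat_lit 3) (nat_lit 9) (C.cons (nat_lit 521) (C.node (nat_lit 0) (nat_lit 1) (nat_lit 7) (C.cons (nat_lit 643) (C.node (nat_lit 0) (nat_lit 7) (nat_lit 4) C.nil) (C.cons (nat_lit 147) (C.node (nat_lit 0) (nat_lit 7) (nat_lit 9) C.nil) C.nil))) C.nil)) C.nil))) C.nil)) (C.cons (nat_lit 1033) (C.node (nat_lit 0) (nat_lit 4) (nat_lit 10)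 (C.cons (nat_lit 1169) (C.node (nat_lit 0) (nat_lit 1) (nat_lit 3) (C.cons (nat_lit 523) (C.node (nat_lit 0) (nat_lit 1) (nat_lit 7) (C.cons (nat_lit 131) (C.node (nat_lit 0) (nat_lit 3) (nat_lit 7) (C.cons (nat_lit 137) (C.node (nat_lit 0) (nat_lit 7) (nat_lit 9) C.nil) C.nil)) C.nil)) (C.cons (nat_lit 139) (C.node (nat_lit 0) (nat_lit 3) (nat_lit 9) (C.cons (nat_lit 521) (C.node (nat_lit 0) (nat_lit 7) (nat_lit 9) (C.cons (nat_lit 641) (C.node (nat_lit 0) (nat_lit 1) (nat_lit 8) (C.cons (nat_lit 275) (C.pat (nat_lit 1) (nat_lit 3027470945) (nat_lit 1428046193158731268385286162886493329)) (C.cons (nat_lit 291) (C.node (nat_lit 0) (nat_lit 4) (nat_lit 8) C.nil) C.nil))) C.nil)) C.nil)) (C.cons (nat_lit 11) (C.node (nat_lit 0) (nat_lit 1) (nat_lit 7) (C.cons (nat_lit 643) (C.node (nat_lit 0) (nat_lit 3) (nat_lit 7) (C.cons (nat_lit 137) (C.node (nat_lit 0) (nat_lit 3) (nat_lit 9) C.nil) C.nil)) (C.cons (nat_lit 131) (C.node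 (nat_lit 0) (nat_lit 3) (nat_lit 7) (C.cons (nat_lit 649) (C.pat (nat_lit 0) (nat_lit 126446386) (nat_lit 304318120117649334259692037539869)) C.nil)) C.nil))) C.nil)))) (C.cons (nat_lit 1041) (C.node (nat_lit 0) (nat_lit 7) (nat_lit 10) (C.cons (nat_lit 1153) (C.node (nat_lit 0) (nat_lit 1) (nat_lit 3) (C.cons (nat_lit 523) (C.node (nat_lit 0) (nat_lit 3) (nat_lit 7) C.nil) (C.cons (nat_lit 139) (C.node (nat_lit 0) (nat_lit 3) (nat_lit 9) C.nil) C.nil))) C.nil)) C.nil))) C.nil))) C.nil)) (C.cons (nat_lit 83) (C.node (nat_lit 0) (nat_lit 6) (nat_lit 10) (C.cons (nat_lit 1089) (C.node (nat_lit 0) (nat_lit 1) (nat_lit 8) (C.cons (nat_lit 291) (C.node (nat_lit 0) (nat_lit 4) (nat_lit 8) (C.cons (nat_lit 273) (C.node (nat_lit 0) (nat_lit 4) (nat_lit 5) (C.cons (nat_lit 561) (C.ref (nat_lit 335) (nat_lit 205162872792336)) (C.cons (nat_lit 49) (C.node (nat_lit 0) (nat_lit 5) (nat_lit 9) (C.cons (nat_lit 545) (C.node (nat_lit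 0) (nat_lit 9) (nat_lit 4) (C.cons (nat_lit 657) (C.node (nat_lit 0) (nat_lit 10) (nat_lit 4) C.nil) C.nil)) C.nil)) C.nil))) C.nil)) (C.cons (nat_lit 259) (C.node (nat_lit 0) (nat_lit 1) (nat_lit 5) (C.cons (nat_lit 547) (C.node (nat_lit 0) (nat_lit 3) (nat_lit 9)
  (C.cons (nat_lit 649) (C.pat (nat_lit 0) (nat_lit 126446386) (nat_lit 304318120117649334259692037539869)) (C.cons (nat_lit 521) (C.node (nat_lit 0) (nat_lit 4) (nat_lit 5) (C.cons (nat_lit 305) (C.node (nat_lit 0) (nat_lit 4) (nat_lit 9) (C.cons (nat_lit 657) (C.node (nat_lit 0) (nat_lit 4) (nat_lit 10) (C.cons (nat_lit 1041) (C.node (nat_lit 0) (nat_lit 1) (nat_lit 10) (C.cons (nat_lit 1155) (C.pat (nat_lit 2) (nat_lit 26445771097) (nat_lit 1851065643109159660893988022889639154412618117)) (C.cons (nat_lit 1035) (C.node (nat_lit 0) (nat_lit 1) (nat_lit 7) C.nil) C.nil))) C.nil)) (C.cons (nat_lit 529) (C.node (nat_lit 0) (nat_lit 7) (nat_lit 9) C.nil) C.nil)))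 (C.cons (nat_lit 49) (C.node (nat_lit 0) (nat_lit 4) (nat_lit 8) C.nil) C.nil))) C.nil))) (C.cons (nat_lit 35) (C.node (nat_lit 0) (nat_lit 4) (nat_lit 8) (C.cons (nat_lit 305) (C.node (nat_lit 0) (nat_lit 5) (nat_lit 9) (C.cons (nat_lit 545) (C.node (nat_lit 0) (nat_lit 9) (nat_lit 4) (C.cons (nat_lit 657) (C.node (nat_lit 0) (nat_lit 10) (nat_lit 4) C.nil) C.nil)) C.nil)) (C.cons (nat_lit 273) (C.node (nat_lit 0) (nat_lit 5) (nat_lit 8) C.nil) C.nil))) C.nil))) C.nil))) C.nil)) (C.cons (nat_lit 67) (C.node (nat_lit 0) (nat_lit 4) (nat_lit 6) (C.cons (nat_lit 1105) (C.node (nat_lit 0) (nat_lit 1) (nat_lit 8) (C.cons (nat_lit 291) (C.node (nat_lit 0) (nat_lit 4) (nat_lit 8) (C.cons (nat_lit 273) (C.node (nat_lit 0) (nat_lit 4) (nat_lit 5) (C.cons (nat_lit 561) (C.pat (nat_lit 0) (nat_lit 110779202) (nat_lit 304318120126061114860322855127069)) (C.cons (nat_lit 49) (C.node (nat_lit 0) (nat_lit 5) (nat_lit 9) (C.cons (nat_lit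 545) (C.ref (nat_lit 339) (nat_lit 201645546444816)) C.nil)) C.nil))) C.nil)) (C.cons (nat_lit 275) (C.node (nat_lit 0) (nat_lit 5) (nat_lit 8) (C.cons (nat_lit 289) (C.node (nat_lit 0) (nat_lit 1) (nat_lit 5) (C.cons (nat_lit 547) (C.node (nat_lit 0) (nat_lit 4) (nat_lit 5) (C.cons (nat_lit 49) (C.node (nat_lit 0) (nat_lit 3) (nat_lit 9) (C.cons (nat_lit 649) (C.pat (nat_lit 0) (nat_lit 126446386) (nat_lit 304318120117649334259692037539869)) (C.cons (nat_lit 521) (C.node (nat_lit 0) (nat_lit 4) (nat_lit 7) (C.cons (nat_lit 657) (C.node (nat_lit 0) (nat_lit 1) (nat_lit 10) (C.cons (nat_lit 1035) (C.node (nat_lit 0) (nat_lit 1) (nat_lit 7) C.nil) (C.cons (nat_lit 1155) (C.pat (nat_lit 2) (nat_lit 5742164137) (nat_lit 6133080947120487476827887877462927518183000289)) C.nil))) C.nil)) C.nil))) C.nil)) (C.cons (nat_lit 35) (C.node (nat_lit 0) (nat_lit 4) (nat_lit 5) (C.cons (nat_lit 561) (C.pat (nat_lit 0) (nat_lit 110779202)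 (nat_lit 304318120126061114860322855127069)) (C.cons (nat_lit 49) (C.node (nat_lit 0) (nat_lit 5) (nat_lit 9) C.nil) C.nil))) C.nil))) C.nil)) (C.cons (nat_lit 259) (C.node (nat_lit 0) (nat_lit 4) (nat_lit 8) (C.cons (nat_lit 305) (C.node (nat_lit 0) (nat_lit 1) (nat_lit 5) (C.cons (nat_lit 547) (C.ref (nat_lit 355) (nat_lit 204132080637456)) (C.cons (nat_lit 35) (C.node (nat_lit 0) (nat_lit 5) (nat_lit 9) (C.cons (nat_lit 545) (C.node (nat_lit 0) (nat_lit 1) (nat_lit 4) (C.cons (nat_lit 531) (C.node (nat_lit 0) (nat_lit 7) (nat_lit 4) C.nil) (C.cons (nat_lit 147) (C.node (nat_lit 0) (nat_lit 4) (nat_lit 9) C.nil) C.nil))) C.nil)) C.nil))) (C.cons (nat_lit 273) (C.node (nat_lit 0) (nat_lit 5) (nat_lit 8) (C.cons (nat_lit 289) (C.node (nat_lit 0) (nat_lit 1) (nat_lit 5) (C.cons (nat_lit 547) (C.node (nat_lit 0) (nat_lit 4) (nat_lit 5) C.nil) (C.cons (nat_lit 51) (C.node (nat_lit 0) (nat_lit 5) (nat_lit 9) C.nil) C.nil)))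 C.nil)) C.nil))) C.nil)))) (C.cons (nat_lit 81) (C.node (nat_lit 0) (nat_lit 6) (nat_lit 10) (C.cons (nat_lit 1089) (C.node (nat_lit 0) (nat_lit 1) (nat_lit 8) (C.cons (nat_lit 291) (C.node (nat_lit 0) (nat_lit 4) (nat_lit 8) (C.cons (nat_lit 273) (C.node (nat_lit 0) (nat_lit 4) (nat_lit 5) (C.cons (nat_lit 561) (C.node (nat_lit 0) (nat_lit 1) (nat_lit 4) (C.cons (nat_lit 1043) (C.node (nat_lit 0) (nat_lit 7) (nat_lit 4) C.nil) (C.cons (nat_lit 147)
  (C.node (nat_lit 0) (nat_lit 4) (nat_lit 10) C.nil) C.nil))) C.nil)) C.nil)) (C.cons (nat_lit 275) (C.node (nat_lit 0) (nat_lit 5) (nat_lit 8) (C.cons (nat_lit 289) (C.node (nat_lit 0) (nat_lit 1) (nat_lit 5) (C.cons (nat_lit 547) (C.node (nat_lit 0) (nat_lit 4) (nat_lit 5) C.nil) C.nil)) C.nil)) (C.cons (nat_lit 259) (C.node (nat_lit 0) (nat_lit 4) (nat_lit 8) (C.cons (nat_lit 305) (C.node (nat_lit 0) (nat_lit 1) (nat_lit 5) (C.cons (nat_lit 547) (C.node (nat_lit 0) (nat_lit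 4) (nat_lit 9) (C.cons (nat_lit 657) (C.node (nat_lit 0) (nat_lit 3) (nat_lit 9) C.nil) C.nil)) C.nil)) C.nil)) C.nil)))) C.nil)) C.nil))) C.nil)))) (C.cons (nat_lit 267) (C.ref (nat_lit 364) (nat_lit 201647263592976)) (C.cons (nat_lit 265) (C.node (nat_lit 0) (nat_lit 3) (nat_lit 6) (C.cons (nat_lit 1097) (C.node (nat_lit 0) (nat_lit 1) (nat_lit 3) (C.cons (nat_lit 523) (C.node (nat_lit 0) (nat_lit 3) (nat_lit 7) (C.cons (nat_lit 137) (C.ref (nat_lit 361) (nat_lit 200487103377936)) C.nil)) (C.cons (nat_lit 139) (C.node (nat_lit 0) (nat_lit 3) (nat_lit 9) (C.cons (nat_lit 521) (C.ref (nat_lit 362) (nat_lit 203037691097616)) C.nil)) (C.cons (nat_lit 11) (C.node (nat_lit 0) (nat_lit 3) (nat_lit 7) (C.cons (nat_lit 649) (C.node (nat_lit 0) (nat_lit 1) (nat_lit 6) (C.cons (nat_lit 323) (C.node (nat_lit 0) (nat_lit 4) (nat_lit 6) (C.cons (nat_lit 81) (C.node (nat_lit 0) (nat_lit 4) (nat_lit 8) (C.cons (nat_lit 305) (C.node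 (nat_lit 0) (nat_lit 1) (nat_lit 5) (C.cons (nat_lit 547) (C.node (nat_lit 0) (nat_lit 4) (nat_lit 9) (C.cons (nat_lit 529) (C.node (nat_lit 0) (nat_lit 1) (nat_lit 7) (C.cons (nat_lit 1155) (C.pat (nat_lit 1) (nat_lit 714438753) (nat_lit 5997186933349443144691095190852669185)) (C.cons (nat_lit 147) (C.node (nat_lit 0) (nat_lit 1) (nat_lit 10) C.nil) C.nil))) C.nil)) (C.cons (nat_lit 35) (C.node (nat_lit 0) (nat_lit 5) (nat_lit 9) C.nil) C.nil))) (C.cons (nat_lit 273) (C.node (nat_lit 0) (nat_lit 5) (nat_lit 8) C.nil) C.nil))) C.nil)) (C.cons (nat_lit 83) (C.node (nat_lit 0) (nat_lit 6) (nat_lit 8) (C.cons (nat_lit 321) (C.node (nat_lit 0) (nat_lit 1) (nat_lit 7) (C.cons (nat_lit 1155) (C.node (nat_lit 0) (nat_lit 4) (nat_lit 7) (C.cons (nat_lit 145) (C.node (nat_lit 0) (nat_lit 4) (nat_lit 10) C.nil) C.nil)) (C.cons (nat_lit 131) (C.node (nat_lit 0) (nat_lit 1) (nat_lit 10) C.nil) C.nil))) C.nil)) (C.cons (nat_lit 67)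 (C.node (nat_lit 0) (nat_lit 4) (nat_lit 6) (C.cons (nat_lit 337) (C.node (nat_lit 0) (nat_lit 1) (nat_lit 8) (C.cons (nat_lit 291) (C.node (nat_lit 0) (nat_lit 1) (nat_lit 9) (C.cons (nat_lit 531) (C.node (nat_lit 0) (nat_lit 4) (nat_lit 5) (C.cons (nat_lit 49) (C.node (nat_lit 0) (nat_lit 5) (nat_lit 9) C.nil) C.nil)) (C.cons (nat_lit 515) (C.node (nat_lit 0) (nat_lit 4) (nat_lit 5) (C.cons (nat_lit 561) (C.node (nat_lit 0) (nat_lit 1) (nat_lit 4) (C.cons (nat_lit 1043) (C.node (nat_lit 0) (nat_lit 1) (nat_lit 7) C.nil) (C.cons (nat_lit 147) (C.node (nat_lit 0) (nat_lit 1) (nat_lit 10) C.nil) C.nil))) C.nil)) C.nil))) (C.cons (nat_lit 259) (C.node (nat_lit 0) (nat_lit 5) (nat_lit 8) C.nil) C.nil))) (C.cons (nat_lit 81) (C.node (nat_lit 0) (nat_lit 6) (nat_lit 8) C.nil) C.nil))) C.nil)))) (C.cons (nat_lit 137) (C.node (nat_lit 0) (nat_lit 3) (nat_lit 9) (C.cons (nat_lit 521) (C.node (nat_lit 0) (nat_lit 1) (nat_lit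 6) (C.cons (nat_lit 323) (C.node (nat_lit 0) (nat_lit 4) (nat_lit 6) C.nil) (C.cons (nat_lit 83) (C.node (nat_lit 0) (nat_lit 6) (nat_lit 8) C.nil) C.nil))) C.nil)) C.nil))) C.nil)))) (C.cons (nat_lit 75) (C.ref (nat_lit 363) (nat_lit 204133175144976)) (C.cons (nat_lit 73) (C.node (nat_lit 0) (nat_lit 3) (nat_lit 9) (C.cons (nat_lit 649) (C.node (nat_lit 0) (nat_lit 1) (nat_lit 3) (C.cons (nat_lit 1035) (C.ref (nat_lit 362) (nat_lit 199520971665936)) (C.cons (nat_lit 11) (C.node (nat_lit 0) (nat_lit 3) (nat_lit 10) (C.cons (nat_lit 1033) (C.node (nat_lit 0) (nat_lit 1) (nat_lit 7) (C.cons (nat_lit 1155) (C.node (nat_lit 0) (nat_lit 4) (nat_lit 7) C.nil) (C.cons (nat_lit 147)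
  (C.node (nat_lit 0) (nat_lit 7) (nat_lit 10) C.nil) C.nil))) C.nil)) C.nil))) (C.cons (nat_lit 523) (C.node (nat_lit 0) (nat_lit 3) (nat_lit 7) (C.cons (nat_lit 1161) (C.ref (nat_lit 362) (nat_lit 200616455713296)) (C.cons (nat_lit 137) (C.node (nat_lit 0) (nat_lit 3) (nat_lit 10) (C.cons (nat_lit 1033) (C.node (nat_lit 0) (nat_lit 9) (nat_lit 5) (C.cons (nat_lit 561) (C.node (nat_lit 0) (nat_lit 9) (nat_lit 7) C.nil) C.nil)) C.nil)) C.nil))) (C.cons (nat_lit 521) (C.node (nat_lit 0) (nat_lit 1) (nat_lit 3) (C.cons (nat_lit 1035) (C.node (nat_lit 0) (nat_lit 3) (nat_lit 7) (C.cons (nat_lit 137) (C.node (nat_lit 0) (nat_lit 10) (nat_lit 6) (C.cons (nat_lit 1105) (C.node (nat_lit 0) (nat_lit 10) (nat_lit 7) C.nil) C.nil)) C.nil)) (C.cons (nat_lit 139) (C.node (nat_lit 0) (nat_lit 3) (nat_lit 10) (C.cons (nat_lit 1033) (C.node (nat_lit 0) (nat_lit 7) (nat_lit 9) (C.cons (nat_lit 657) (C.node (nat_lit 0) (nat_lit 7) (nat_lit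 10) C.nil) C.nil)) C.nil)) (C.cons (nat_lit 11) (C.node (nat_lit 0) (nat_lit 3) (nat_lit 7) (C.cons (nat_lit 1161) (C.node (nat_lit 0) (nat_lit 1) (nat_lit 7) (C.cons (nat_lit 643) (C.node (nat_lit 0) (nat_lit 4) (nat_lit 7) C.nil) (C.cons (nat_lit 147) (C.node (nat_lit 0) (nat_lit 7) (nat_lit 9) C.nil) C.nil))) C.nil)) C.nil)))) C.nil)))) C.nil)))) C.nil)))) C.nil))))) (C.cons (nat_lit 133) (C.node (nat_lit 0) (nat_lit 2) (nat_lit 8) (C.cons (nat_lit 261) (C.ref (nat_lit 367) (nat_lit 205163983024656)) C.nil)) C.nil))) C.nil)))) (List.cons (C.node (nat_lit 0) (nat_lit 6) (nat_lit 10) (C.cons (nat_lit 1089) (C.node (nat_lit 0) (nat_lit 3) (nat_lit 10) (C.cons (nat_lit 1161) (C.node (nat_lit 0) (nat_lit 1) (nat_lit 10) (C.cons (nat_lit 1043) (C.node (nat_lit 0) (nat_lit 4) (nat_lit 5) (C.cons (nat_lit 561) (C.node (nat_lit 0) (nat_lit 4) (nat_lit 7) C.nil) C.nil)) C.nil)) (C.cons (nat_lit 1035) (C.node (nat_lit 0) (nat_lit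 4) (nat_lit 10) (C.cons (nat_lit 1169) (C.node (nat_lit 0) (nat_lit 1) (nat_lit 4) (C.cons (nat_lit 531) (C.node (nat_lit 0) (nat_lit 4) (nat_lit 5) C.nil) (C.cons (nat_lit 51) (C.node (nat_lit 0) (nat_lit 4) (nat_lit 9) C.nil) C.nil))) C.nil)) C.nil))) C.nil)) (List.cons (C.node (nat_lit 0) (nat_lit 6) (nat_lit 9) (C.cons (nat_lit 585) (C.node (nat_lit 0) (nat_lit 6) (nat_lit 10) (C.cons (nat_lit 1089) (C.node (nat_lit 0) (nat_lit 3) (nat_lit 5) (C.cons (nat_lit 297) (C.node (nat_lit 0) (nat_lit 1) (nat_lit 8) (C.cons (nat_lit 387) (C.node (nat_lit 0) (nat_lit 1) (nat_lit 3) (C.cons (nat_lit 1035) (C.node (nat_lit 0) (nat_lit 3) (nat_lit 7) (C.cons (nat_lit 137) (C.node (nat_lit 0) (nat_lit 4) (nat_lit 10) (C.cons (nat_lit 1169) (C.node (nat_lit 0) (nat_lit 7) (nat_lit 9) (C.cons (nat_lit 641) (C.node (nat_lit 0) (nat_lit 1) (nat_lit 4) (C.cons (nat_lit 531) (C.node (nat_lit 0) (nat_lit 1) (nat_lit 5) C.nil) (C.cons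 (nat_lit 51) (C.pat (nat_lit 1) (nat_lit 3074787889) (nat_lit 2009598969928099286409613383043712145)) C.nil))) C.nil)) (C.cons (nat_lit 1041) (C.node (nat_lit 0) (nat_lit 7) (nat_lit 10) C.nil) C.nil))) C.nil)) (C.cons (nat_lit 11) (C.node (nat_lit 0) (nat_lit 1) (nat_lit 10) (C.cons (nat_lit 1043) (C.node (nat_lit 0) (nat_lit 1) (nat_lit 5) (C.cons (nat_lit 547) (C.pat (nat_lit 5) (nat_lit 144495053654) (nat_lit 46319954807428480182973756147372101709737820707)) (C.cons (nat_lit 35) (C.node (nat_lit 0) (nat_lit 1) (nat_lit 9) C.nil) C.nil))) (C.cons (nat_lit 1027) (C.node (nat_lit 0) (nat_lit 3) (nat_lit 7) (C.cons (nat_lit 1161) (C.node (nat_lit 0) (nat_lit 4) (nat_lit 10) C.nil) C.nil)) C.nil))) C.nil))) (C.cons (nat_lit 259) (C.node (nat_lit 0) (nat_lit 7) (nat_lit 8) (C.cons (nat_lit 385) (C.node (nat_lit 0) (nat_lit 1) (nat_lit 3) (C.cons (nat_lit 1035) (C.node (nat_lit 0) (nat_lit 3) (nat_lit 7) C.nil) (C.cons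 (nat_lit 139) (C.node (nat_lit 0) (nat_lit 3) (nat_lit 10) C.nil) C.nil))) C.nil)) C.nil))) (C.cons (nat_lit 43) (C.node (nat_lit 0) (nat_lit 5) (nat_lit 8) (C.cons (nat_lit 289) (C.node (nat_lit 0) (nat_lit 1) (nat_lit 8) (C.cons (nat_lit 387)
  (C.node (nat_lit 0) (nat_lit 3) (nat_lit 8) (C.cons (nat_lit 265) (C.node (nat_lit 0) (nat_lit 1) (nat_lit 9) (C.cons (nat_lit 531) (C.node (nat_lit 0) (nat_lit 1) (nat_lit 10) C.nil) C.nil)) C.nil)) (C.cons (nat_lit 259) (C.node (nat_lit 0) (nat_lit 3) (nat_lit 8) (C.cons (nat_lit 393) (C.node (nat_lit 0) (nat_lit 3) (nat_lit 10) C.nil) C.nil)) C.nil))) C.nil)) (C.cons (nat_lit 41) (C.node (nat_lit 0) (nat_lit 5) (nat_lit 8) (C.cons (nat_lit 291) (C.node (nat_lit 0) (nat_lit 3) (nat_lit 8) (C.cons (nat_lit 393) (C.node (nat_lit 0) (nat_lit 1) (nat_lit 3) (C.cons (nat_lit 1035) (C.node (nat_lit 0) (nat_lit 4) (nat_lit 5) (C.cons (nat_lit 561) (C.pat (nat_lit 5) (nat_lit 144477297494)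 (nat_lit 46319954807428480182964089315537909162102030627)) (C.cons (nat_lit 49) (C.node (nat_lit 0) (nat_lit 5) (nat_lit 9) C.nil) C.nil))) (C.cons (nat_lit 11) (C.node (nat_lit 0) (nat_lit 3) (nat_lit 10) C.nil) C.nil))) (C.cons (nat_lit 265) (C.node (nat_lit 0) (nat_lit 7) (nat_lit 8) C.nil) C.nil))) (C.cons (nat_lit 289) (C.node (nat_lit 0) (nat_lit 1) (nat_lit 5) (C.cons (nat_lit 547) (C.node (nat_lit 0) (nat_lit 4) (nat_lit 5) C.nil) (C.cons (nat_lit 51) (C.node (nat_lit 0) (nat_lit 5) (nat_lit 9) C.nil) C.nil))) C.nil))) C.nil)))) C.nil)) (C.cons (nat_lit 577) (C.node (nat_lit 0) (nat_lit 3) (nat_lit 6) (C.cons (nat_lit 1097) (C.ref (nat_lit 341) (nat_lit 197098610193936)) (C.cons (nat_lit 73) (C.ref (nat_lit 369) (nat_lit 205163983024656)) C.nil))) C.nil))) (List.cons (C.node (nat_lit 0) (nat_lit 6) (nat_lit 8) (C.cons (nat_lit 337) (C.ref (nat_lit 370) (nat_lit 205163983024656)) (C.cons (nat_lit 329) (C.ref (nat_lit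 370) (nat_lit 205163982963216)) (C.cons (nat_lit 321) (C.node (nat_lit 0) (nat_lit 3) (nat_lit 6) (C.cons (nat_lit 1097) (C.node (nat_lit 0) (nat_lit 4) (nat_lit 6) (C.cons (nat_lit 593) (C.ref (nat_lit 341) (nat_lit 197098358535696)) (C.cons (nat_lit 81) (C.node (nat_lit 0) (nat_lit 6) (nat_lit 9) (C.cons (nat_lit 577) (C.node (nat_lit 0) (nat_lit 1) (nat_lit 10) (C.cons (nat_lit 1155) (C.node (nat_lit 0) (nat_lit 4) (nat_lit 10) C.nil) (C.cons (nat_lit 1043) (C.node (nat_lit 0) (nat_lit 7) (nat_lit 10) C.nil) C.nil))) C.nil)) C.nil))) (C.cons (nat_lit 585) (C.node (nat_lit 0) (nat_lit 4) (nat_lit 6) (C.cons (nat_lit 1105) (C.ref (nat_lit 341) (nat_lit 198129150686736)) (C.cons (nat_lit 81) (C.ref (nat_lit 369) (nat_lit 205099558453776)) C.nil))) (C.cons (nat_lit 73) (C.node (nat_lit 0) (nat_lit 6) (nat_lit 9) (C.cons (nat_lit 593) (C.ref (nat_lit 369) (nat_lit 205099558515216)) (C.cons (nat_lit 577) (C.node (nat_lit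 0) (nat_lit 4) (nat_lit 6) (C.cons (nat_lit 1105) (C.node (nat_lit 0) (nat_lit 1) (nat_lit 10) (C.cons (nat_lit 1155) (C.node (nat_lit 0) (nat_lit 3) (nat_lit 10) C.nil) (C.cons (nat_lit 1035) (C.node (nat_lit 0) (nat_lit 7) (nat_lit 10) C.nil) C.nil))) C.nil)) C.nil))) C.nil)))) C.nil)))) (List.cons (C.node (nat_lit 0) (nat_lit 2) (nat_lit 7) (C.cons (nat_lit 645) (C.ref (nat_lit 353) (nat_lit 201582320038416)) (C.cons (nat_lit 133) (C.node (nat_lit 0) (nat_lit 2) (nat_lit 9) (C.cons (nat_lit 517) (C.ref (nat_lit 371) (nat_lit 205163983024656)) C.nil)) C.nil))) (List.cons (C.node (nat_lit 0) (nat_lit 2) (nat_lit 8) (C.cons (nat_lit 389) (C.node (nat_lit 0) (nat_lit 2) (nat_lit 9) (C.cons (nat_lit 517) (C.ref (nat_lit 353) (nat_lit 201582587425296)) C.nil)) (C.cons (nat_lit 261) (C.ref (nat_lit 372) (nat_lit 205163983024656)) C.nil))) (List.cons (C.node (nat_lit 0) (nat_lit 1) (nat_lit 9) (C.cons (nat_lit 643) (C.node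 (nat_lit 0) (nat_lit 4) (nat_lit 9) (C.cons (nat_lit 593) (C.node (nat_lit 0) (nat_lit 4) (nat_lit 8) (C.cons (nat_lit 401) (C.node (nat_lit 0) (nat_lit 4) (nat_lit 10) C.nil) C.nil)) C.nil)) (C.cons (nat_lit 579) (C.node (nat_lit 0) (nat_lit 4) (nat_lit 9) (C.cons (nat_lit 657) (C.node (nat_lit 0) (nat_lit 4) (nat_lit 8) (C.cons (nat_lit 337) (C.node (nat_lit 0) (nat_lit 4) (nat_lit 10) C.nil) C.nil)) C.nil)) C.nil))) (List.cons (C.node (nat_lit 0) (nat_lit 1) (nat_lit 5) (C.cons (nat_lit 291)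
  (C.node (nat_lit 0) (nat_lit 4) (nat_lit 5) (C.cons (nat_lit 49) (C.ref (nat_lit 352) (nat_lit 205163124450576)) C.nil)) (C.cons (nat_lit 51) (C.node (nat_lit 0) (nat_lit 5) (nat_lit 8) (C.cons (nat_lit 289) (C.ref (nat_lit 374) (nat_lit 205163983024656)) C.nil)) (C.cons (nat_lit 35) (C.node (nat_lit 0) (nat_lit 4) (nat_lit 5) (C.cons (nat_lit 305) (C.node (nat_lit 0) (nat_lit 6) (nat_lit 8) (C.cons (nat_lit 329) (C.node (nat_lit 0) (nat_lit 1) (nat_lit 8) (C.cons (nat_lit 387) (C.node (nat_lit 0) (nat_lit 1) (nat_lit 3) (C.cons (nat_lit 1035) (C.node (nat_lit 0) (nat_lit 3) (nat_lit 7) C.nil) C.nil)) C.nil)) (C.cons (nat_lit 323) (C.node (nat_lit 0) (nat_lit 3) (nat_lit 6) (C.cons (nat_lit 1097) (C.node (nat_lit 0) (nat_lit 1) (nat_lit 3) (C.cons (nat_lit 139) (C.node (nat_lit 0) (nat_lit 3) (nat_lit 8) C.nil) C.nil)) C.nil)) C.nil))) C.nil)) C.nil)))) (List.cons (C.node (nat_lit 0) (nat_lit 3) (nat_lit 5) (C.cons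 (nat_lit 553) (C.ref (nat_lit 375) (nat_lit 205163983024656)) (C.cons (nat_lit 297) (C.ref (nat_lit 375) (nat_lit 205099558515216)) (C.cons (nat_lit 43) (C.node (nat_lit 0) (nat_lit 5) (nat_lit 8) (C.cons (nat_lit 305) (C.node (nat_lit 0) (nat_lit 5) (nat_lit 9) (C.cons (nat_lit 545) (C.ref (nat_lit 374) (nat_lit 205099558453776)) C.nil)) (C.cons (nat_lit 289) (C.node (nat_lit 0) (nat_lit 4) (nat_lit 5) (C.cons (nat_lit 561) (C.ref (nat_lit 374) (nat_lit 205163982963216)) C.nil)) C.nil))) (C.cons (nat_lit 41) (C.node (nat_lit 0) (nat_lit 5) (nat_lit 8) (C.cons (nat_lit 305) (C.node (nat_lit 0) (nat_lit 1) (nat_lit 5) (C.cons (nat_lit 547) (C.ref (nat_lit 352) (nat_lit 205098448282896)) C.nil)) (C.cons (nat_lit 291) (C.node (nat_lit 0) (nat_lit 4) (nat_lit 5) (C.cons (nat_lit 561) (C.ref (nat_lit 352) (nat_lit 205162872792336)) C.nil)) C.nil))) C.nil))))) List.nil)))))))))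

theorem ok12_368 : okL par12 (nat_lit 377) c12_368 (nat_lit 368) = true := by decide +kernel

noncomputable def c12_377 : List C :=
  (List.cons (C.node (nat_lit 0) (nat_lit 1) (nat_lit 2) (C.cons (nat_lit 519) (C.node (nat_lit 0) (nat_lit 2) (nat_lit 7) (C.cons (nat_lit 133) (C.ref (nat_lit 371) (nat_lit 199520720007696)) C.nil)) (C.cons (nat_lit 135) (C.node (nat_lit 0) (nat_lit 2) (nat_lit 9) (C.cons (nat_lit 517) (C.ref (nat_lit 371) (nat_lit 205163731366416)) C.nil)) (C.cons (nat_lit 7) (C.node (nat_lit 0) (nat_lit 2) (nat_lit 7) (C.cons (nat_lit 645) (C.ref (nat_lit 367) (nat_lit 205163731366416)) (C.cons (nat_lit 133) (C.node (nat_lit 0) (nat_lit 2) (nat_lit 9) (C.cons (nat_lit 517) (C.ref (nat_lit 376) (nat_lit 205163983024656)) C.nil)) C.nil))) C.nil)))) (List.cons (C.node (nat_lit 0) (nat_lit 2) (nat_lit 8) (C.cons (nat_lit 389) (C.node (nat_lit 0) (nat_lit 1) (nat_lit 2) (C.cons (nat_lit 519) (C.ref (nat_lit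 353) (nat_lit 205099306856976)) (C.cons (nat_lit 7) (C.node (nat_lit 0) (nat_lit 2) (nat_lit 9) (C.cons (nat_lit 517) (C.ref (nat_lit 367) (nat_lit 205099306856976)) C.nil)) C.nil))) (C.cons (nat_lit 263) (C.ref (nat_lit 372) (nat_lit 199520971665936)) (C.cons (nat_lit 261) (C.ref (nat_lit 377) (nat_lit 205163983024656)) C.nil)))) (List.cons (C.node (nat_lit 0) (nat_lit 2) (nat_lit 6) (C.cons (nat_lit 581) (C.ref (nat_lit 368) (nat_lit 205163983024656)) (C.cons (nat_lit 325) (C.ref (nat_lit 368) (nat_lit 205099558515216)) (C.cons (nat_lit 71) (C.ref (nat_lit 373) (nat_lit 205163983024656)) (C.cons (nat_lit 69) (C.ref (nat_lit 378) (nat_lit 205163983024656)) C.nil))))) (List.cons (C.node (nat_lit 0) (nat_lit 6) (nat_lit 8) (C.cons (nat_lit 329) (C.node (nat_lit 0) (nat_lit 1) (nat_lit 8) (C.cons (nat_lit 387) (C.node (nat_lit 0) (nat_lit 1) (nat_lit 3) (C.cons (nat_lit 1035) (C.node (nat_lit 0) (nat_lit 3) (nat_lit 7)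 C.nil) C.nil)) C.nil)) (C.cons (nat_lit 323) (C.node (nat_lit 0) (nat_lit 3) (nat_lit 6) (C.cons (nat_lit 1097) (C.node (nat_lit 0) (nat_lit 1) (nat_lit 3) (C.cons (nat_lit 139) (C.node (nat_lit 0) (nat_lit 3) (nat_lit 8) C.nil) C.nil)) C.nil)) C.nil))) (List.cons (C.node (nat_lit 0) (nat_lit 2) (nat_lit 10) (C.cons (nat_lit 1029) (C.node (nat_lit 0) (nat_lit 5) (nat_lit 8) (C.cons (nat_lit 305) (C.node (nat_lit 0) (nat_lit 5) (nat_lit 9) (C.cons (nat_lit 553) (C.node (nat_lit 0) (nat_lit 5) (nat_lit 10) (C.cons (nat_lit 1057) (C.ref (nat_lit 380) (nat_lit 205163983024656)) C.nil)) (C.cons (nat_lit 545) (C.node (nat_lit 0) (nat_lit 3) (nat_lit 5) (C.cons (nat_lit 1065) (C.ref (nat_lit 380) (nat_lit 204133190873616)) C.nil)) C.nil))) (C.cons (nat_lit 297) (C.node (nat_lit 0) (nat_lit 5) (nat_lit 9) (C.cons (nat_lit 561) (C.node (nat_lit 0) (nat_lit 5) (nat_lit 10) (C.cons (nat_lit 1057) (C.ref (nat_lit 380) (nat_lit 205163982963216))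 C.nil)) (C.cons (nat_lit 545) (C.node (nat_lit 0) (nat_lit 4) (nat_lit 5) (C.cons (nat_lit 1073) (C.ref (nat_lit 380) (nat_lit 204133190812176)) C.nil)) C.nil))) (C.cons (nat_lit 289) (C.node (nat_lit 0) (nat_lit 3) (nat_lit 5) (C.cons (nat_lit 1065) (C.node (nat_lit 0) (nat_lit 4) (nat_lit 5) (C.cons (nat_lit 561) (C.ref (nat_lit 380) (nat_lit 202973549642256)) C.nil)) (C.cons (nat_lit 553) (C.node (nat_lit 0) (nat_lit 4) (nat_lit 5) (C.cons (nat_lit 1073) (C.ref (nat_lit 380) (nat_lit 203037974151696)) C.nil)) C.nil))) C.nil)))) C.nil)) (List.cons (C.node (nat_lit 0) (nat_lit 2) (nat_lit 9) (C.cons (nat_lit 645) (C.node (nat_lit 0) (nat_lit 2) (nat_lit 10) (C.cons (nat_lit 1029) (C.ref (nat_lit 371) (nat_lit 204132907758096)) C.nil)) (C.cons (nat_lit 517) (C.node (nat_lit 0) (nat_lit 2) (nat_lit 7) (C.cons (nat_lit 1157) (C.ref (nat_lit 371) (nat_lit 205163699909136)) (C.cons (nat_lit 133) (C.ref (nat_lit 381) (nat_lit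 205163983024656)) C.nil))) C.nil))) (List.cons (C.big (C.cons (nat_lit 1171) (C.ref (nat_lit 327) (nat_lit 205163983024656)) (C.cons (nat_lit 1163) (C.ref (nat_lit 327) (nat_lit 205163982963216)) (C.cons (nat_lit 1159) (C.ref (nat_lit 327) (nat_lit 205163982897936)) (C.cons (nat_lit 1107) (C.ref (nat_lit 327) (nat_lit 205163731366416)) (C.cons (nat_lit 1099)
  (C.ref (nat_lit 327) (nat_lit 205163731304976)) (C.cons (nat_lit 1095) (C.ref (nat_lit 327) (nat_lit 205163731239696)) (C.cons (nat_lit 1075) (C.ref (nat_lit 327) (nat_lit 205163463979536)) (C.cons (nat_lit 1067) (C.ref (nat_lit 327) (nat_lit 205163463918096)) (C.cons (nat_lit 1063) (C.ref (nat_lit 327) (nat_lit 205163463852816)) (C.cons (nat_lit 659) (C.ref (nat_lit 327) (nat_lit 204133190873616)) (C.cons (nat_lit 651) (C.ref (nat_lit 327) (nat_lit 204133190812176)) (C.cons (nat_lit 647) (C.ref (nat_lit 327) (nat_lit 204133190746896)) (C.cons (nat_lit 595) (C.ref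 (nat_lit 327) (nat_lit 204132939215376)) (C.cons (nat_lit 587) (C.ref (nat_lit 327) (nat_lit 204132939153936)) (C.cons (nat_lit 583) (C.ref (nat_lit 327) (nat_lit 204132939088656)) (C.cons (nat_lit 563) (C.ref (nat_lit 327) (nat_lit 204132671828496)) (C.cons (nat_lit 555) (C.ref (nat_lit 327) (nat_lit 204132671767056)) (C.cons (nat_lit 551) (C.ref (nat_lit 327) (nat_lit 204132671701776)) (C.cons (nat_lit 403) (C.ref (nat_lit 327) (nat_lit 203037974213136)) (C.cons (nat_lit 395) (C.ref (nat_lit 327) (nat_lit 203037974151696)) (C.cons (nat_lit 391) (C.ref (nat_lit 327) (nat_lit 203037974086416)) (C.cons (nat_lit 339) (C.ref (nat_lit 327) (nat_lit 203037722554896)) (C.cons (nat_lit 331) (C.ref (nat_lit 327) (nat_lit 203037722493456)) (C.cons (nat_lit 327) (C.ref (nat_lit 327) (nat_lit 203037722428176)) (C.cons (nat_lit 307) (C.ref (nat_lit 327) (nat_lit 203037455168016)) (C.cons (nat_lit 299) (C.ref (nat_lit 327) (nat_lit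 203037455106576)) (C.cons (nat_lit 295) (C.ref (nat_lit 327) (nat_lit 203037455041296)) C.nil))))))))))))))))))))))))))) (C.node (nat_lit 0) (nat_lit 1) (nat_lit 11) (C.cons (nat_lit 2051) (C.node (nat_lit 0) (nat_lit 2) (nat_lit 5) (C.cons (nat_lit 1061) (C.ref (nat_lit 379) (nat_lit 205163983024656)) (C.cons (nat_lit 549) (C.ref (nat_lit 379) (nat_lit 204133190873616)) (C.cons (nat_lit 293) (C.ref (nat_lit 379) (nat_lit 203037974213136)) (C.cons (nat_lit 39) (C.node (nat_lit 0) (nat_lit 2) (nat_lit 8) (C.cons (nat_lit 389) (C.ref (nat_lit 373) (nat_lit 203037691097616)) (C.cons (nat_lit 325) (C.ref (nat_lit 373) (nat_lit 203037958484496)) (C.cons (nat_lit 261) (C.node (nat_lit 0) (nat_lit 2) (nat_lit 6) (C.cons (nat_lit 1093) (C.ref (nat_lit 372) (nat_lit 205163967296016)) (C.cons (nat_lit 581) (C.ref (nat_lit 372) (nat_lit 204133175144976)) (C.cons (nat_lit 69) (C.ref (nat_lit 382) (nat_lit 205163983024656)) C.nil))))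 C.nil)))) (C.cons (nat_lit 37) (C.node (nat_lit 0) (nat_lit 2) (nat_lit 8) (C.cons (nat_lit 389) (C.ref (nat_lit 378) (nat_lit 203037691097616)) (C.cons (nat_lit 325) (C.ref (nat_lit 378) (nat_lit 203037958484496)) (C.cons (nat_lit 263) (C.node (nat_lit 0) (nat_lit 2) (nat_lit 9) (C.cons (nat_lit 645) (C.ref (nat_lit 372) (nat_lit 201647247864336)) (C.cons (nat_lit 581) (C.ref (nat_lit 372) (nat_lit 200616455713296)) (C.cons (nat_lit 517) (C.ref (nat_lit 382) (nat_lit 201647263592976)) C.nil)))) (C.cons (nat_lit 261) (C.node (nat_lit 0) (nat_lit 2) (nat_lit 6) (C.cons (nat_lit 1093) (C.ref (nat_lit 377) (nat_lit 205163967296016)) (C.cons (nat_lit 581) (C.ref (nat_lit 377) (nat_lit 204133175144976)) (C.cons (nat_lit 71) (C.ref (nat_lit 382) (nat_lit 205163967296016)) (C.cons (nat_lit 69) (C.node (nat_lit 0) (nat_lit 2) (nat_lit 9) (C.cons (nat_lit 645) (C.node (nat_lit 0) (nat_lit 1) (nat_lit 2) (C.cons (nat_lit 1031)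 (C.ref (nat_lit 371) (nat_lit 201646744547856)) (C.cons (nat_lit 7) (C.node (nat_lit 0) (nat_lit 2) (nat_lit 10) (C.cons (nat_lit 1029) (C.ref (nat_lit 376) (nat_lit 204132907758096)) C.nil)) C.nil))) (C.cons (nat_lit 519) (C.node (nat_lit 0) (nat_lit 2) (nat_lit 10) (C.cons (nat_lit 1157) (C.ref (nat_lit 371) (nat_lit 201646728819216)) (C.cons (nat_lit 1029) (C.ref (nat_lit 381) (nat_lit 201647247864336)) C.nil))) (C.cons (nat_lit 517) (C.node (nat_lit 0) (nat_lit 1) (nat_lit 2) (C.cons (nat_lit 1031) (C.ref (nat_lit 381) (nat_lit 201646980477456)) (C.cons (nat_lit 135) (C.ref (nat_lit 381) (nat_lit 205163699909136))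
  (C.cons (nat_lit 7) (C.node (nat_lit 0) (nat_lit 2) (nat_lit 7) (C.cons (nat_lit 1157) (C.ref (nat_lit 376) (nat_lit 205163699909136)) (C.cons (nat_lit 133) (C.node (nat_lit 0) (nat_lit 2) (nat_lit 10) C.nil) C.nil))) C.nil)))) C.nil)))) C.nil))))) C.nil))))) C.nil)))))) C.nil))) (List.cons (C.big C.nil C.nil) (List.cons (C.node (nat_lit 0) (nat_lit 1) (nat_lit 2) (C.cons (nat_lit 263) (C.pat (nat_lit 1) (nat_lit 1537624097) (nat_lit 10732657693523827326767035028820266753)) (C.cons (nat_lit 135) (C.node (nat_lit 0) (nat_lit 1) (nat_lit 8) (C.cons (nat_lit 259) (C.node (nat_lit 0) (nat_lit 2) (nat_lit 8) (C.cons (nat_lit 261) (C.node (nat_lit 0) (nat_lit 7) (nat_lit 8) (C.cons (nat_lit 385) (C.node (nat_lit 0) (nat_lit 1) (nat_lit 3) (C.cons (nat_lit 523) (C.pat (nat_lit 1) (nat_lit 3124324129) (nat_lit 5665100188666024365735319404534891673)) (C.cons (nat_lit 43) (C.pat (nat_lit 1) (nat_lit 649372977) (nat_lit 5664843174373387200255335662630799585))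 C.nil))) C.nil)) C.nil)) C.nil)) (C.cons (nat_lit 7) (C.node (nat_lit 0) (nat_lit 1) (nat_lit 7) (C.cons (nat_lit 387) (C.node (nat_lit 0) (nat_lit 2) (nat_lit 7) (C.cons (nat_lit 133) (C.node (nat_lit 0) (nat_lit 2) (nat_lit 8) (C.cons (nat_lit 261) (C.node (nat_lit 0) (nat_lit 1) (nat_lit 3) (C.cons (nat_lit 523) (C.node (nat_lit 0) (nat_lit 1) (nat_lit 5) C.nil) (C.cons (nat_lit 43) (C.pat (nat_lit 1) (nat_lit 649372977) (nat_lit 5664843174373387200255335662630799585)) C.nil))) C.nil)) C.nil)) (C.cons (nat_lit 131) (C.node (nat_lit 0) (nat_lit 1) (nat_lit 8) (C.cons (nat_lit 259) (C.node (nat_lit 0) (nat_lit 2) (nat_lit 7) (C.cons (nat_lit 389) (C.node (nat_lit 0) (nat_lit 1) (nat_lit 3) (C.cons (nat_lit 523) (C.node (nat_lit 0) (nat_lit 1) (nat_lit 5) C.nil) (C.cons (nat_lit 43) (C.pat (nat_lit 1) (nat_lit 649372977) (nat_lit 5664843174373387200255335662630799585)) C.nil))) C.nil)) C.nil)) C.nil))) C.nil)))) (List.cons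 (C.node (nat_lit 0) (nat_lit 3) (nat_lit 8) (C.cons (nat_lit 267) (C.node (nat_lit 0) (nat_lit 1) (nat_lit 2) (C.cons (nat_lit 135) (C.node (nat_lit 0) (nat_lit 2) (nat_lit 8) (C.cons (nat_lit 261) (C.node (nat_lit 0) (nat_lit 7) (nat_lit 8) (C.cons (nat_lit 385) (C.node (nat_lit 0) (nat_lit 7) (nat_lit 9) C.nil) C.nil)) C.nil)) (C.cons (nat_lit 7) (C.node (nat_lit 0) (nat_lit 1) (nat_lit 5) (C.cons (nat_lit 547) (C.node (nat_lit 0) (nat_lit 1) (nat_lit 7) (C.cons (nat_lit 131) (C.node (nat_lit 0) (nat_lit 3) (nat_lit 5) C.nil) C.nil)) (C.cons (nat_lit 35) (C.node (nat_lit 0) (nat_lit 1) (nat_lit 7) (C.cons (nat_lit 643) (C.pat (nat_lit 0) (nat_lit 127560513) (nat_lit 304318120127389290566995394365459)) C.nil)) C.nil))) C.nil))) (C.cons (nat_lit 265) (C.node (nat_lit 0) (nat_lit 7) (nat_lit 9) (C.cons (nat_lit 643) (C.pat (nat_lit 0) (nat_lit 127560513) (nat_lit 304318120127389290566995394365459)) (C.cons (nat_lit 641)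 (C.node (nat_lit 0) (nat_lit 1) (nat_lit 2) (C.cons (nat_lit 263) (C.node (nat_lit 0) (nat_lit 1) (nat_lit 7) C.nil) (C.cons (nat_lit 135) (C.node (nat_lit 0) (nat_lit 1) (nat_lit 8) C.nil) C.nil))) C.nil))) C.nil))) (List.cons (C.node (nat_lit 0) (nat_lit 3) (nat_lit 5) (C.cons (nat_lit 43) (C.node (nat_lit 0) (nat_lit 1) (nat_lit 2) (C.cons (nat_lit 1031) (C.node (nat_lit 0) (nat_lit 2) (nat_lit 5) (C.cons (nat_lit 37) (C.node (nat_lit 0) (nat_lit 5) (nat_lit 10) C.nil) C.nil)) (C.cons (nat_lit 7) (C.node (nat_lit 0) (nat_lit 1) (nat_lit 10) C.nil) C.nil))) (C.cons (nat_lit 41) (C.node (nat_lit 0) (nat_lit 1) (nat_lit 3) (C.cons (nat_lit 267) (C.node (nat_lit 0) (nat_lit 1) (nat_lit 6) C.nil) (C.cons (nat_lit 75) (C.node (nat_lit 0) (nat_lit 1) (nat_lit 8) C.nil) C.nil))) C.nil))) (List.cons (C.node (nat_lit 0) (nat_lit 1) (nat_lit 2) (C.cons (nat_lit 1031) (C.pat (nat_lit 1) (nat_lit 2072398369) (nat_lit 10732657692595388382674684211560255233))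 (C.cons (nat_lit 39) (C.node (nat_lit 0) (nat_lit 1) (nat_lit 10) (C.cons (nat_lit 1027) (C.node (nat_lit 0) (nat_lit 2) (nat_lit 10) (C.cons (nat_lit 1029)
  (C.node (nat_lit 0) (nat_lit 5) (nat_lit 10) C.nil) C.nil)) C.nil)) (C.cons (nat_lit 7) (C.node (nat_lit 0) (nat_lit 1) (nat_lit 10) (C.cons (nat_lit 1059) (C.node (nat_lit 0) (nat_lit 2) (nat_lit 5) (C.cons (nat_lit 37) (C.node (nat_lit 0) (nat_lit 2) (nat_lit 10) C.nil) C.nil)) (C.cons (nat_lit 1027) (C.node (nat_lit 0) (nat_lit 2) (nat_lit 5) (C.cons (nat_lit 1061) (C.node (nat_lit 0) (nat_lit 1) (nat_lit 3) (C.cons (nat_lit 523) (C.node (nat_lit 0) (nat_lit 1) (nat_lit 5) C.nil) (C.cons (nat_lit 43) (C.pat (nat_lit 2) (nat_lit 26358757460) (nat_lit 7203155336776375932232308050061054653120972813)) C.nil))) C.nil)) C.nil))) C.nil)))) (List.cons (C.node (nat_lit 0) (nat_lit 3) (nat_lit 6) (C.cons (nat_lit 73) (C.node (nat_lit 0) (nat_lit 3) (nat_lit 8) (C.cons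 (nat_lit 265) (C.node (nat_lit 0) (nat_lit 1) (nat_lit 7) (C.cons (nat_lit 135) (C.node (nat_lit 0) (nat_lit 2) (nat_lit 8) (C.cons (nat_lit 261) (C.node (nat_lit 0) (nat_lit 7) (nat_lit 8) (C.cons (nat_lit 385) (C.node (nat_lit 0) (nat_lit 1) (nat_lit 10) (C.cons (nat_lit 1059) (C.node (nat_lit 0) (nat_lit 2) (nat_lit 5) (C.cons (nat_lit 37) (C.node (nat_lit 0) (nat_lit 2) (nat_lit 10) C.nil) C.nil)) (C.cons (nat_lit 1027) (C.node (nat_lit 0) (nat_lit 2) (nat_lit 5) (C.cons (nat_lit 1061) (C.node (nat_lit 0) (nat_lit 1) (nat_lit 3) (C.cons (nat_lit 523) (C.node (nat_lit 0) (nat_lit 1) (nat_lit 5) C.nil) (C.cons (nat_lit 43) (C.pat (nat_lit 2) (nat_lit 26358757460) (nat_lit 7203155336776375932232308050061054653120972813)) C.nil))) C.nil)) C.nil))) C.nil)) C.nil)) (C.cons (nat_lit 131) (C.node (nat_lit 0) (nat_lit 2) (nat_lit 7) (C.cons (nat_lit 389) (C.ref (nat_lit 388) (nat_lit 205163983024656)) (C.cons (nat_lit 133)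 (C.node (nat_lit 0) (nat_lit 2) (nat_lit 8) (C.cons (nat_lit 261) (C.node (nat_lit 0) (nat_lit 7) (nat_lit 8) C.nil) C.nil)) C.nil))) C.nil))) C.nil)) C.nil)) (List.cons (C.node (nat_lit 0) (nat_lit 1) (nat_lit 6) (C.cons (nat_lit 323) (C.ref (nat_lit 389) (nat_lit 205163983024656)) (C.cons (nat_lit 75) (C.ref (nat_lit 389) (nat_lit 81860301128976)) (C.cons (nat_lit 67) (C.node (nat_lit 0) (nat_lit 3) (nat_lit 6) (C.cons (nat_lit 329) (C.node (nat_lit 0) (nat_lit 1) (nat_lit 3) (C.cons (nat_lit 523) (C.node (nat_lit 0) (nat_lit 3) (nat_lit 5) (C.cons (nat_lit 41) (C.node (nat_lit 0) (nat_lit 5) (nat_lit 9) (C.cons (nat_lit 545) (C.ref (nat_lit 388) (nat_lit 78767169689616)) C.nil)) C.nil)) (C.cons (nat_lit 43) (C.node (nat_lit 0) (nat_lit 1) (nat_lit 9) (C.cons (nat_lit 515) (C.node (nat_lit 0) (nat_lit 3) (nat_lit 9) (C.cons (nat_lit 521) (C.node (nat_lit 0) (nat_lit 5) (nat_lit 9) (C.cons (nat_lit 545) (C.node (nat_lit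 0) (nat_lit 1) (nat_lit 10) (C.cons (nat_lit 1031) (C.pat (nat_lit 2) (nat_lit 5740476995) (nat_lit 22992271449841938570294537451271104662945204449)) (C.cons (nat_lit 1027) (C.node (nat_lit 0) (nat_lit 2) (nat_lit 5) (C.cons (nat_lit 1061) (C.pat (nat_lit 1) (nat_lit 2237967154) (nat_lit 5509051132216818532840357491237259489)) C.nil)) C.nil))) C.nil)) C.nil)) C.nil)) (C.cons (nat_lit 11) (C.node (nat_lit 0) (nat_lit 1) (nat_lit 9) (C.cons (nat_lit 547) (C.node (nat_lit 0) (nat_lit 3) (nat_lit 5) (C.cons (nat_lit 41) (C.node (nat_lit 0) (nat_lit 3) (nat_lit 9) (C.cons (nat_lit 521) (C.node (nat_lit 0) (nat_lit 1) (nat_lit 10) (C.cons (nat_lit 1031) (C.node (nat_lit 0) (nat_lit 2) (nat_lit 5) (C.cons (nat_lit 37) (C.node (nat_lit 0) (nat_lit 5) (nat_lit 10) C.nil) C.nil)) (C.cons (nat_lit 1027) (C.node (nat_lit 0) (nat_lit 2) (nat_lit 5) (C.cons (nat_lit 1061) (C.pat (nat_lit 1) (nat_lit 2237967154) (nat_lit 5509051132216818532840357491237259489))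 C.nil)) C.nil))) C.nil)) C.nil)) (C.cons (nat_lit 515) (C.node (nat_lit 0) (nat_lit 3) (nat_lit 5) (C.cons (nat_lit 553) (C.node (nat_lit 0) (nat_lit 1) (nat_lit 5) (C.cons (nat_lit 1059) (C.node (nat_lit 0) (nat_lit 2) (nat_lit 5) (C.cons (nat_lit 37) (C.node (nat_lit 0) (nat_lit 2) (nat_lit 10) (C.cons (nat_lit 1029) (C.node (nat_lit 0) (nat_lit 1) (nat_lit 2) (C.cons (nat_lit 135)
  (C.node (nat_lit 0) (nat_lit 1) (nat_lit 8) C.nil) (C.cons (nat_lit 263) (C.pat (nat_lit 2) (nat_lit 43790022020) (nat_lit 23616578661215000098280302197333475793562568717)) C.nil))) C.nil)) C.nil)) (C.cons (nat_lit 39) (C.node (nat_lit 0) (nat_lit 1) (nat_lit 10) (C.cons (nat_lit 1027) (C.node (nat_lit 0) (nat_lit 2) (nat_lit 10) (C.cons (nat_lit 1029) (C.node (nat_lit 0) (nat_lit 5) (nat_lit 10) C.nil) C.nil)) C.nil)) (C.cons (nat_lit 35) (C.node (nat_lit 0) (nat_lit 1) (nat_lit 10) (C.cons (nat_lit 1031) (C.node (nat_lit 0) (nat_lit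 2) (nat_lit 5) (C.cons (nat_lit 37) (C.node (nat_lit 0) (nat_lit 5) (nat_lit 10) C.nil) C.nil)) (C.cons (nat_lit 1027) (C.node (nat_lit 0) (nat_lit 2) (nat_lit 5) (C.cons (nat_lit 1061) (C.pat (nat_lit 1) (nat_lit 2237967154) (nat_lit 5509051132216818532840357491237259489)) C.nil)) C.nil))) C.nil)))) (C.cons (nat_lit 41) (C.node (nat_lit 0) (nat_lit 3) (nat_lit 9) (C.cons (nat_lit 521) (C.node (nat_lit 0) (nat_lit 5) (nat_lit 9) C.nil) C.nil)) C.nil))) C.nil))) C.nil)))) (C.cons (nat_lit 73) (C.node (nat_lit 0) (nat_lit 6) (nat_lit 8) (C.cons (nat_lit 321) (C.node (nat_lit 0) (nat_lit 3) (nat_lit 8) (C.cons (nat_lit 267) (C.node (nat_lit 0) (nat_lit 1) (nat_lit 7) (C.cons (nat_lit 135) (C.node (nat_lit 0) (nat_lit 2) (nat_lit 8) (C.cons (nat_lit 261) (C.node (nat_lit 0) (nat_lit 7) (nat_lit 8) (C.cons (nat_lit 385) (C.node (nat_lit 0) (nat_lit 1) (nat_lit 9) (C.cons (nat_lit 547) (C.pat (nat_lit 3) (nat_lit 23780862785)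 (nat_lit 50690900862415193521240859298509950799132952595)) C.nil)) C.nil)) C.nil)) (C.cons (nat_lit 131) (C.node (nat_lit 0) (nat_lit 1) (nat_lit 9) (C.cons (nat_lit 547) (C.node (nat_lit 0) (nat_lit 3) (nat_lit 5) (C.cons (nat_lit 41) (C.node (nat_lit 0) (nat_lit 3) (nat_lit 9) C.nil) C.nil)) (C.cons (nat_lit 515) (C.node (nat_lit 0) (nat_lit 2) (nat_lit 7) (C.cons (nat_lit 389) (C.node (nat_lit 0) (nat_lit 5) (nat_lit 3) (C.cons (nat_lit 553) (C.pat (nat_lit 1) (nat_lit 595301509) (nat_lit 2871503454760600978176903959007003801)) C.nil)) C.nil)) C.nil))) C.nil))) (C.cons (nat_lit 265) (C.node (nat_lit 0) (nat_lit 1) (nat_lit 3) (C.cons (nat_lit 523) (C.node (nat_lit 0) (nat_lit 3) (nat_lit 5) (C.cons (nat_lit 41) (C.node (nat_lit 0) (nat_lit 5) (nat_lit 9) C.nil) C.nil)) (C.cons (nat_lit 43) (C.node (nat_lit 0) (nat_lit 1) (nat_lit 9) (C.cons (nat_lit 515) (C.node (nat_lit 0) (nat_lit 3) (nat_lit 9) C.nil) C.nil)) (C.cons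 (nat_lit 11) (C.node (nat_lit 0) (nat_lit 1) (nat_lit 9) (C.cons (nat_lit 547) (C.node (nat_lit 0) (nat_lit 3) (nat_lit 5) C.nil) C.nil)) C.nil)))) C.nil))) C.nil)) C.nil))) C.nil)))) (List.cons (C.node (nat_lit 0) (nat_lit 7) (nat_lit 9) (C.cons (nat_lit 643) (C.node (nat_lit 0) (nat_lit 2) (nat_lit 7) (C.cons (nat_lit 389) (C.node (nat_lit 0) (nat_lit 3) (nat_lit 9) (C.cons (nat_lit 553) (C.pat (nat_lit 1) (nat_lit 1486125874) (nat_lit 2019827643281385442036206776207609601)) (C.cons (nat_lit 521) (C.node (nat_lit 0) (nat_lit 5) (nat_lit 9) (C.cons (nat_lit 545) (C.node (nat_lit 0) (nat_lit 3) (nat_lit 5) (C.cons (nat_lit 43) (C.pat (nat_lit 2) (nat_lit 23774540660) (nat_lit 959150847118730524593087446584914018536328961)) (C.cons (nat_lit 41) (C.ref (nat_lit 385) (nat_lit 201647263592976)) C.nil))) C.nil)) C.nil))) (C.cons (nat_lit 133) (C.node (nat_lit 0) (nat_lit 7) (nat_lit 8) (C.cons (nat_lit 385) (C.node (nat_lit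 0) (nat_lit 2) (nat_lit 8) (C.cons (nat_lit 263) (C.node (nat_lit 0) (nat_lit 1) (nat_lit 6) (C.cons (nat_lit 75) (C.node (nat_lit 0) (nat_lit 3) (nat_lit 8) (C.cons (nat_lit 265) (C.node (nat_lit 0) (nat_lit 6) (nat_lit 8) (C.cons (nat_lit 321) (C.node (nat_lit 0) (nat_lit 1) (nat_lit 5) (C.cons (nat_lit 1059) (C.pat (nat_lit 3) (nat_lit 23796529985) (nat_lit 50690900862415147568906611724449824466073749523)) (C.cons (nat_lit 35) (C.node (nat_lit 0) (nat_lit 1) (nat_lit 10) (C.cons (nat_lit 1027) (C.node (nat_lit 0) (nat_lit 2) (nat_lit 5) (C.cons (nat_lit 1061)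
  (C.pat (nat_lit 2) (nat_lit 6613743170) (nat_lit 1672956403819476989399607913225578841866833665)) C.nil)) C.nil)) C.nil))) C.nil)) C.nil)) (C.cons (nat_lit 67) (C.node (nat_lit 0) (nat_lit 1) (nat_lit 3) (C.cons (nat_lit 43) (C.pat (nat_lit 3) (nat_lit 11143699265) (nat_lit 45963142881842852098183743579468497671361857555)) (C.cons (nat_lit 11) (C.node (nat_lit 0) (nat_lit 1) (nat_lit 5) (C.cons (nat_lit 1059) (C.node (nat_lit 0) (nat_lit 2) (nat_lit 5) (C.cons (nat_lit 37) (C.node (nat_lit 0) (nat_lit 2) (nat_lit 10) (C.cons (nat_lit 1029) (C.node (nat_lit 0) (nat_lit 8) (nat_lit 3) (C.cons (nat_lit 329) (C.pat (nat_lit 2) (nat_lit 4937960120) (nat_lit 23617262637765428791488885169277182535641662037)) C.nil)) C.nil)) C.nil)) (C.cons (nat_lit 35) (C.node (nat_lit 0) (nat_lit 1) (nat_lit 10) (C.cons (nat_lit 1027) (C.node (nat_lit 0) (nat_lit 2) (nat_lit 5) (C.cons (nat_lit 1061) (C.node (nat_lit 0) (nat_lit 3) (nat_lit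 8) (C.cons (nat_lit 329) (C.pat (nat_lit 1) (nat_lit 2237967154) (nat_lit 5509051132216818532840357491237259489)) C.nil)) C.nil)) C.nil)) C.nil))) C.nil))) C.nil))) (C.cons (nat_lit 261) (C.node (nat_lit 0) (nat_lit 3) (nat_lit 9) (C.cons (nat_lit 553) (C.ref (nat_lit 385) (nat_lit 204132939211536)) (C.cons (nat_lit 521) (C.node (nat_lit 0) (nat_lit 5) (nat_lit 9) (C.cons (nat_lit 545) (C.ref (nat_lit 387) (nat_lit 205163983024656)) C.nil)) C.nil))) C.nil))) C.nil)) C.nil))) (C.cons (nat_lit 641) (C.ref (nat_lit 390) (nat_lit 205163983024656)) C.nil))) (List.cons (C.node (nat_lit 0) (nat_lit 1) (nat_lit 2) (C.cons (nat_lit 263) (C.node (nat_lit 0) (nat_lit 1) (nat_lit 7) (C.cons (nat_lit 131) (C.node (nat_lit 0) (nat_lit 2) (nat_lit 7) (C.cons (nat_lit 133) (C.node (nat_lit 0) (nat_lit 7) (nat_lit 8) C.nil) C.nil)) C.nil)) (C.cons (nat_lit 135) (C.node (nat_lit 0) (nat_lit 2) (nat_lit 8) (C.cons (nat_lit 261) (C.node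 (nat_lit 0) (nat_lit 7) (nat_lit 8) (C.cons (nat_lit 385) (C.node (nat_lit 0) (nat_lit 1) (nat_lit 8) (C.cons (nat_lit 291) (C.node (nat_lit 0) (nat_lit 3) (nat_lit 8) C.nil) (C.cons (nat_lit 267) (C.node (nat_lit 0) (nat_lit 5) (nat_lit 8) C.nil) C.nil))) C.nil)) C.nil)) (C.cons (nat_lit 7) (C.node (nat_lit 0) (nat_lit 1) (nat_lit 7) (C.cons (nat_lit 387) (C.node (nat_lit 0) (nat_lit 2) (nat_lit 7) (C.cons (nat_lit 133) (C.node (nat_lit 0) (nat_lit 2) (nat_lit 8) C.nil) C.nil)) (C.cons (nat_lit 131) (C.node (nat_lit 0) (nat_lit 2) (nat_lit 7) (C.cons (nat_lit 389) (C.node (nat_lit 0) (nat_lit 1) (nat_lit 8) (C.cons (nat_lit 291) (C.node (nat_lit 0) (nat_lit 3) (nat_lit 8) C.nil) (C.cons (nat_lit 267) (C.node (nat_lit 0) (nat_lit 5) (nat_lit 8) C.nil) C.nil))) C.nil)) C.nil))) C.nil)))) (List.cons (C.node (nat_lit 0) (nat_lit 7) (nat_lit 9) (C.cons (nat_lit 643) (C.pat (nat_lit 0) (nat_lit 127560513) (nat_lit 304318120127389290566995394365459))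 (C.cons (nat_lit 641) (C.node (nat_lit 0) (nat_lit 1) (nat_lit 7) (C.cons (nat_lit 387) (C.node (nat_lit 0) (nat_lit 2) (nat_lit 7) C.nil) (C.cons (nat_lit 135) (C.node (nat_lit 0) (nat_lit 7) (nat_lit 8) C.nil) C.nil))) C.nil))) List.nil)))))))))))))))))

theorem ok12_377 : okL par12 (nat_lit 394) c12_377 (nat_lit 377) = true := by decide +kernel

noncomputable def c12_394 : List C :=
  (List.cons (C.node (nat_lit 0) (nat_lit 1) (nat_lit 6) (C.cons (nat_lit 323) (C.node (nat_lit 0) (nat_lit 3) (nat_lit 6) (C.cons (nat_lit 73) (C.node (nat_lit 0) (nat_lit 1) (nat_lit 7) (C.cons (nat_lit 135) (C.node (nat_lit 0) (nat_lit 7) (nat_lit 8) (C.cons (nat_lit 385) (C.node (nat_lit 0) (nat_lit 1) (nat_lit 10) (C.cons (nat_lit 1059) (C.node (nat_lit 0) (nat_lit 2) (nat_lit 10) (C.cons (nat_lit 1029) (C.node (nat_lit 0) (nat_lit 1) (nat_lit 3) (C.cons (nat_lit 523) (C.node (nat_lit 0) (nat_lit 5) (nat_lit 9) C.nil) C.nil)) C.nil))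 (C.cons (nat_lit 1027) (C.node (nat_lit 0) (nat_lit 2) (nat_lit 8) (C.cons (nat_lit 293) (C.node (nat_lit 0) (nat_lit 2) (nat_lit 10) C.nil) C.nil)) C.nil))) C.nil)) (C.cons (nat_lit 131) (C.node (nat_lit 0) (nat_lit 2) (nat_lit 7) (C.cons (nat_lit 389) (C.node (nat_lit 0) (nat_lit 3) (nat_lit 8) (C.cons (nat_lit 297) (C.node (nat_lit 0) (nat_lit 1) (nat_lit 3) (C.cons (nat_lit 523) (C.node (nat_lit 0) (nat_lit 5) (nat_lit 9) (C.cons (nat_lit 545) (C.node (nat_lit 0) (nat_lit 1) (nat_lit 2) (C.cons (nat_lit 1031) (C.pat (nat_lit 0) (nat_lit 79247905) (nat_lit 304316795133992293456150277063687)) (C.cons (nat_lit 39) (C.pat (nat_lit 1) (nat_lit 3090769185) (nat_lit 1677416201311276747023897811376996649)) C.nil))) C.nil)) (C.cons (nat_lit 11) (C.node (nat_lit 0) (nat_lit 3) (nat_lit 9) C.nil) C.nil))) (C.cons (nat_lit 265) (C.node (nat_lit 0) (nat_lit 5) (nat_lit 8) C.nil) C.nil))) (C.cons (nat_lit 133) (C.node (nat_lit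 0) (nat_lit 7) (nat_lit 8) C.nil) C.nil))) C.nil))) C.nil)) (C.cons (nat_lit 75) (C.node (nat_lit 0) (nat_lit 6) (nat_lit 8) (C.cons (nat_lit 321) (C.node (nat_lit 0) (nat_lit 1) (nat_lit 9) (C.cons (nat_lit 547) (C.node (nat_lit 0) (nat_lit 3) (nat_lit 9) (C.cons (nat_lit 521) (C.node (nat_lit 0) (nat_lit 1) (nat_lit 10) (C.cons (nat_lit 1031) (C.node (nat_lit 0) (nat_lit 5) (nat_lit 10) (C.cons (nat_lit 1057) (C.node (nat_lit 0) (nat_lit 1) (nat_lit 7) (C.cons (nat_lit 387) (C.node (nat_lit 0) (nat_lit 2) (nat_lit 7) C.nil) C.nil)) C.nil)) (C.cons (nat_lit 1027) (C.node (nat_lit 0) (nat_lit 2) (nat_lit 10) (C.cons (nat_lit 1061) (C.node (nat_lit 0) (nat_lit 3) (nat_lit 5) (C.cons (nat_lit 297) (C.node (nat_lit 0) (nat_lit 1) (nat_lit 2) (C.cons (nat_lit 135) (C.pat (nat_lit 0) (nat_lit 79050529) (nat_lit 180087036311625812109473333575815)) (C.cons (nat_lit 263) (C.pat (nat_lit 1) (nat_lit 3040253985) (nat_lit 2840366467322685926640736980589412649))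 C.nil))) C.nil)) C.nil)) C.nil))) C.nil)) (C.cons (nat_lit 515) (C.node (nat_lit 0) (nat_lit 3) (nat_lit 8) (C.cons (nat_lit 297) (C.node (nat_lit 0) (nat_lit 3) (nat_lit 9) (C.cons (nat_lit 521) (C.node (nat_lit 0) (nat_lit 5) (nat_lit 9) C.nil) C.nil)) (C.cons (nat_lit 265) (C.node (nat_lit 0) (nat_lit 3) (nat_lit 5) (C.cons (nat_lit 553) (C.node (nat_lit 0) (nat_lit 1) (nat_lit 7) (C.cons (nat_lit 387) (C.node (nat_lit 0) (nat_lit 2) (nat_lit 7) C.nil) (C.cons (nat_lit 135) (C.pat (nat_lit 0) (nat_lit 79050529) (nat_lit 180087036311625812109473333575815)) C.nil))) C.nil)) C.nil))) C.nil))) C.nil)) (C.cons (nat_lit 67) (C.node (nat_lit 0) (nat_lit 3) (nat_lit 6) (C.cons (nat_lit 329) (C.node (nat_lit 0) (nat_lit 1) (nat_lit 3) (C.cons (nat_lit 523) (C.node (nat_lit 0) (nat_lit 3) (nat_lit 5) (C.cons (nat_lit 41) (C.node (nat_lit 0) (nat_lit 5) (nat_lit 9) (C.cons (nat_lit 545) (C.node (nat_lit 0) (nat_lit 1) (nat_lit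 10) (C.cons (nat_lit 1059) (C.node (nat_lit 0) (nat_lit 2) (nat_lit 10) C.nil) (C.cons (nat_lit 1031) (C.pat (nat_lit 0) (nat_lit 79247905) (nat_lit 304316795133992293456150277063687)) C.nil))) C.nil)) C.nil)) (C.cons (nat_lit 43) (C.node (nat_lit 0) (nat_lit 1) (nat_lit 9) (C.cons (nat_lit 515) (C.node (nat_lit 0) (nat_lit 3) (nat_lit 9) (C.cons (nat_lit 521) (C.node (nat_lit 0) (nat_lit 5) (nat_lit 9) C.nil) C.nil)) C.nil)) (C.cons (nat_lit 11) (C.node (nat_lit 0) (nat_lit 1) (nat_lit 9) (C.cons (nat_lit 547) (C.node (nat_lit 0) (nat_lit 3) (nat_lit 5) (C.cons (nat_lit 41)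
  (C.node (nat_lit 0) (nat_lit 3) (nat_lit 9) C.nil) C.nil)) (C.cons (nat_lit 515) (C.node (nat_lit 0) (nat_lit 3) (nat_lit 5) (C.cons (nat_lit 553) (C.node (nat_lit 0) (nat_lit 1) (nat_lit 7) (C.cons (nat_lit 387) (C.node (nat_lit 0) (nat_lit 2) (nat_lit 7) C.nil) (C.cons (nat_lit 135) (C.node (nat_lit 0) (nat_lit 7) (nat_lit 8) C.nil) C.nil))) C.nil)) C.nil))) C.nil)))) (C.cons (nat_lit 73) (C.node (nat_lit 0) (nat_lit 6) (nat_lit 8) (C.cons (nat_lit 321) (C.node (nat_lit 0) (nat_lit 1) (nat_lit 7) (C.cons (nat_lit 387) (C.node (nat_lit 0) (nat_lit 2) (nat_lit 7) C.nil) (C.cons (nat_lit 135) (C.node (nat_lit 0) (nat_lit 7) (nat_lit 8) C.nil) C.nil))) C.nil)) C.nil))) C.nil)))) (List.cons (C.node (nat_lit 0) (nat_lit 7) (nat_lit 9) (C.cons (nat_lit 643) (C.node (nat_lit 0) (nat_lit 2) (nat_lit 7) (C.cons (nat_lit 389) (C.node (nat_lit 0) (nat_lit 3) (nat_lit 9) (C.cons (nat_lit 553) (C.node (nat_lit 0) (nat_lit 5) (nat_lit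 8) (C.cons (nat_lit 291) (C.pat (nat_lit 2) (nat_lit 34965001655) (nat_lit 6490220227126465055471912998737917815998710357)) (C.cons (nat_lit 289) (C.ref (nat_lit 385) (nat_lit 171147537109776)) C.nil))) (C.cons (nat_lit 521) (C.node (nat_lit 0) (nat_lit 5) (nat_lit 9) (C.cons (nat_lit 545) (C.ref (nat_lit 392) (nat_lit 201647263592976)) C.nil)) C.nil))) (C.cons (nat_lit 133) (C.node (nat_lit 0) (nat_lit 7) (nat_lit 8) (C.cons (nat_lit 385) (C.node (nat_lit 0) (nat_lit 3) (nat_lit 9) (C.cons (nat_lit 553) (C.ref (nat_lit 392) (nat_lit 204132939211536)) (C.cons (nat_lit 521) (C.node (nat_lit 0) (nat_lit 5) (nat_lit 9) (C.cons (nat_lit 545) (C.node (nat_lit 0) (nat_lit 1) (nat_lit 6) (C.cons (nat_lit 323) (C.node (nat_lit 0) (nat_lit 3) (nat_lit 6) C.nil) (C.cons (nat_lit 75) (C.node (nat_lit 0) (nat_lit 6) (nat_lit 8) C.nil) C.nil))) C.nil)) C.nil))) C.nil)) C.nil))) (C.cons (nat_lit 641) (C.ref (nat_lit 394) (nat_lit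 205163983024656)) C.nil))) (List.cons (C.node (nat_lit 0) (nat_lit 6) (nat_lit 10) (C.cons (nat_lit 1091) (C.node (nat_lit 0) (nat_lit 2) (nat_lit 10) (C.cons (nat_lit 1061) (C.node (nat_lit 0) (nat_lit 3) (nat_lit 6) (C.cons (nat_lit 329) (C.node (nat_lit 0) (nat_lit 5) (nat_lit 8) (C.cons (nat_lit 291) (C.pat (nat_lit 2) (nat_lit 35233375670) (nat_lit 6490220227126465056086046208134251451829519513)) (C.cons (nat_lit 289) (C.node (nat_lit 0) (nat_lit 7) (nat_lit 9) (C.cons (nat_lit 643) (C.pat (nat_lit 0) (nat_lit 127617633) (nat_lit 304316795164908624438205648929859)) (C.cons (nat_lit 641) (C.ref (nat_lit 385) (nat_lit 188671273095696)) C.nil))) C.nil))) (C.cons (nat_lit 73) (C.node (nat_lit 0) (nat_lit 6) (nat_lit 8) (C.cons (nat_lit 321) (C.node (nat_lit 0) (nat_lit 7) (nat_lit 9) (C.cons (nat_lit 643) (C.pat (nat_lit 0) (nat_lit 127560513) (nat_lit 304318120127389290566995394365459)) (C.cons (nat_lit 641) (C.ref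 (nat_lit 392) (nat_lit 205163983024656)) C.nil))) C.nil)) C.nil))) (C.cons (nat_lit 1029) (C.node (nat_lit 0) (nat_lit 5) (nat_lit 10) (C.cons (nat_lit 1057) (C.node (nat_lit 0) (nat_lit 3) (nat_lit 6) (C.cons (nat_lit 329) (C.node (nat_lit 0) (nat_lit 9) (nat_lit 7) (C.cons (nat_lit 643) (C.pat (nat_lit 0) (nat_lit 158772033) (nat_lit 180090256890009016651599371765779)) (C.cons (nat_lit 641) (C.ref (nat_lit 392) (nat_lit 200616219779856)) C.nil))) (C.cons (nat_lit 73) (C.node (nat_lit 0) (nat_lit 6) (nat_lit 8) (C.cons (nat_lit 321) (C.ref (nat_lit 393) (nat_lit 205163983024656)) C.nil)) C.nil))) C.nil)) C.nil))) (C.cons (nat_lit 1089) (C.ref (nat_lit 395) (nat_lit 205163983024656)) C.nil))) (List.cons (C.node (nat_lit 0) (nat_lit 1) (nat_lit 6) (C.cons (nat_lit 323) (C.node (nat_lit 0) (nat_lit 3) (nat_lit 6) (C.cons (nat_lit 73) (C.node (nat_lit 0) (nat_lit 1) (nat_lit 7) (C.cons (nat_lit 135) (C.node (nat_lit 0)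 (nat_lit 7) (nat_lit 8) C.nil) C.nil)) C.nil)) (C.cons (nat_lit 75) (C.node (nat_lit 0) (nat_lit 8) (nat_lit 6) (C.cons (nat_lit 321) (C.node (nat_lit 0) (nat_lit 1) (nat_lit 9) (C.cons (nat_lit 547) (C.node (nat_lit 0) (nat_lit 9) (nat_lit 3) C.nil) C.nil)) C.nil))
  (C.cons (nat_lit 67) (C.node (nat_lit 0) (nat_lit 3) (nat_lit 6) (C.cons (nat_lit 329) (C.node (nat_lit 0) (nat_lit 1) (nat_lit 7) (C.cons (nat_lit 387) (C.node (nat_lit 0) (nat_lit 2) (nat_lit 7) C.nil) (C.cons (nat_lit 135) (C.node (nat_lit 0) (nat_lit 7) (nat_lit 8) C.nil) C.nil))) C.nil)) C.nil)))) (List.cons (C.node (nat_lit 0) (nat_lit 7) (nat_lit 9) (C.cons (nat_lit 643) (C.node (nat_lit 0) (nat_lit 2) (nat_lit 7) (C.cons (nat_lit 389) (C.node (nat_lit 0) (nat_lit 3) (nat_lit 9) (C.cons (nat_lit 553) (C.node (nat_lit 0) (nat_lit 2) (nat_lit 3) (C.cons (nat_lit 15) (C.node (nat_lit 0) (nat_lit 1) (nat_lit 6) (C.cons (nat_lit 323) (C.node (nat_lit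 0) (nat_lit 3) (nat_lit 6) (C.cons (nat_lit 73) (C.node (nat_lit 0) (nat_lit 3) (nat_lit 8) (C.cons (nat_lit 265) (C.node (nat_lit 0) (nat_lit 5) (nat_lit 8) C.nil) C.nil)) C.nil)) (C.cons (nat_lit 67) (C.node (nat_lit 0) (nat_lit 1) (nat_lit 8) (C.cons (nat_lit 291) (C.pat (nat_lit 3) (nat_lit 24565262705) (nat_lit 12333619131160961933626093405592151478290547331)) (C.cons (nat_lit 259) (C.node (nat_lit 0) (nat_lit 5) (nat_lit 8) C.nil) C.nil))) C.nil))) (C.cons (nat_lit 13) (C.ref (nat_lit 387) (nat_lit 165213341438736)) C.nil))) (C.cons (nat_lit 521) (C.node (nat_lit 0) (nat_lit 5) (nat_lit 9) (C.cons (nat_lit 545) (C.node (nat_lit 0) (nat_lit 1) (nat_lit 10) (C.cons (nat_lit 1059) (C.node (nat_lit 0) (nat_lit 2) (nat_lit 10) C.nil) (C.cons (nat_lit 1031) (C.node (nat_lit 0) (nat_lit 10) (nat_lit 5) C.nil) C.nil))) C.nil)) C.nil))) (C.cons (nat_lit 133) (C.node (nat_lit 0) (nat_lit 7) (nat_lit 8) (C.cons (nat_lit 385)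 (C.node (nat_lit 0) (nat_lit 3) (nat_lit 9) (C.cons (nat_lit 553) (C.node (nat_lit 0) (nat_lit 1) (nat_lit 6) (C.cons (nat_lit 323) (C.node (nat_lit 0) (nat_lit 3) (nat_lit 6) C.nil) (C.cons (nat_lit 75) (C.node (nat_lit 0) (nat_lit 6) (nat_lit 8) C.nil) C.nil))) C.nil)) C.nil)) C.nil))) (C.cons (nat_lit 641) (C.ref (nat_lit 397) (nat_lit 205163983024656)) C.nil))) (List.cons (C.node (nat_lit 0) (nat_lit 4) (nat_lit 5) (C.cons (nat_lit 49) (C.node (nat_lit 0) (nat_lit 1) (nat_lit 6) (C.cons (nat_lit 75) (C.node (nat_lit 0) (nat_lit 6) (nat_lit 8) (C.cons (nat_lit 321) (C.node (nat_lit 0) (nat_lit 1) (nat_lit 7) (C.cons (nat_lit 135) (C.node (nat_lit 0) (nat_lit 1) (nat_lit 11) (C.cons (nat_lit 2051) (C.node (nat_lit 0) (nat_lit 7) (nat_lit 8) (C.cons (nat_lit 385) (C.node (nat_lit 0) (nat_lit 1) (nat_lit 9) (C.cons (nat_lit 547) (C.node (nat_lit 0) (nat_lit 1) (nat_lit 10) C.nil) C.nil)) C.nil)) C.nil)) (C.cons (nat_lit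 131) (C.node (nat_lit 0) (nat_lit 1) (nat_lit 9) (C.cons (nat_lit 547) (C.node (nat_lit 0) (nat_lit 3) (nat_lit 9) (C.cons (nat_lit 521) (C.node (nat_lit 0) (nat_lit 1) (nat_lit 10) (C.cons (nat_lit 1031) (C.node (nat_lit 0) (nat_lit 1) (nat_lit 11) C.nil) C.nil)) C.nil)) (C.cons (nat_lit 515) (C.node (nat_lit 0) (nat_lit 1) (nat_lit 11) (C.cons (nat_lit 2055) (C.node (nat_lit 0) (nat_lit 3) (nat_lit 11) C.nil) C.nil)) C.nil))) C.nil))) C.nil)) (C.cons (nat_lit 67) (C.node (nat_lit 0) (nat_lit 1) (nat_lit 7) (C.cons (nat_lit 135) (C.node (nat_lit 0) (nat_lit 7) (nat_lit 8) (C.cons (nat_lit 385) (C.node (nat_lit 0) (nat_lit 1) (nat_lit 10) (C.cons (nat_lit 1059) (C.node (nat_lit 0) (nat_lit 2) (nat_lit 10) (C.cons (nat_lit 1029) (C.node (nat_lit 0) (nat_lit 1) (nat_lit 9) (C.cons (nat_lit 523) (C.node (nat_lit 0) (nat_lit 1) (nat_lit 11) C.nil) C.nil)) C.nil)) (C.cons (nat_lit 1027) (C.node (nat_lit 0) (nat_lit 1) (nat_lit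 11) (C.cons (nat_lit 2059) (C.node (nat_lit 0) (nat_lit 2) (nat_lit 11) C.nil) C.nil)) C.nil))) C.nil)) (C.cons (nat_lit 131) (C.node (nat_lit 0) (nat_lit 2) (nat_lit 7) (C.cons (nat_lit 389) (C.node (nat_lit 0) (nat_lit 3) (nat_lit 6) (C.cons (nat_lit 329) (C.node (nat_lit 0) (nat_lit 5) (nat_lit 8) (C.cons (nat_lit 289) (C.node (nat_lit 0) (nat_lit 1) (nat_lit 9) (C.cons (nat_lit 547) (C.node (nat_lit 0) (nat_lit 3) (nat_lit 9) C.nil) (C.cons (nat_lit 523) (C.node (nat_lit 0) (nat_lit 5) (nat_lit 9) C.nil) C.nil))) C.nil))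
  (C.cons (nat_lit 73) (C.node (nat_lit 0) (nat_lit 6) (nat_lit 8) C.nil) C.nil))) (C.cons (nat_lit 133) (C.node (nat_lit 0) (nat_lit 7) (nat_lit 8) C.nil) C.nil))) C.nil))) C.nil))) C.nil)) (List.cons (C.big (C.cons (nat_lit 2063) (C.ref (nat_lit 234) (nat_lit 205163982954816)) (C.cons (nat_lit 1063) (C.ref (nat_lit 234) (nat_lit 188671273017696)) (C.cons (nat_lit 555) (C.ref (nat_lit 234) (nat_lit 171147536970096)) (C.cons (nat_lit 391) (C.ref (nat_lit 234) (nat_lit 135676477055376)) (C.cons (nat_lit 331) (C.ref (nat_lit 234) (nat_lit 118152741007776)) (C.cons (nat_lit 307) (C.ref (nat_lit 234) (nat_lit 81860300919216)) (C.cons (nat_lit 301) (C.big C.nil C.nil) (C.cons (nat_lit 299) (C.ref (nat_lit 384) (nat_lit 205163983024656)) (C.cons (nat_lit 295) (C.ref (nat_lit 384) (nat_lit 204132939211536)) (C.cons (nat_lit 271) (C.ref (nat_lit 384) (nat_lit 186608933807376)) (C.cons (nat_lit 47) (C.ref (nat_lit 384) (nat_lit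 130521006417936)) C.nil))))))))))) (C.node (nat_lit 0) (nat_lit 4) (nat_lit 11) (C.cons (nat_lit 2067) (C.node (nat_lit 0) (nat_lit 2) (nat_lit 11) (C.cons (nat_lit 2061) (C.node (nat_lit 0) (nat_lit 4) (nat_lit 5) (C.cons (nat_lit 305) (C.node (nat_lit 0) (nat_lit 6) (nat_lit 10) (C.cons (nat_lit 1091) (C.node (nat_lit 0) (nat_lit 2) (nat_lit 10) (C.cons (nat_lit 1061) (C.node (nat_lit 0) (nat_lit 3) (nat_lit 6) (C.cons (nat_lit 329) (C.pat (nat_lit 1) (nat_lit 2237967154) (nat_lit 5509051132216818532840357491237259489)) (C.cons (nat_lit 73) (C.node (nat_lit 0) (nat_lit 6) (nat_lit 8) (C.cons (nat_lit 321) (C.node (nat_lit 0) (nat_lit 3) (nat_lit 8) (C.cons (nat_lit 267) (C.pat (nat_lit 2) (nat_lit 35803804580) (nat_lit 5954670221579318407422946464336116638184704225)) (C.cons (nat_lit 265) (C.node (nat_lit 0) (nat_lit 7) (nat_lit 9) (C.cons (nat_lit 643) (C.pat (nat_lit 0) (nat_lit 127560513) (nat_lit 304318120127389290566995394365459))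 (C.cons (nat_lit 641) (C.ref (nat_lit 385) (nat_lit 205163983024656)) C.nil))) C.nil))) C.nil)) C.nil))) (C.cons (nat_lit 1029) (C.node (nat_lit 0) (nat_lit 5) (nat_lit 10) (C.cons (nat_lit 1057) (C.node (nat_lit 0) (nat_lit 2) (nat_lit 5) (C.cons (nat_lit 39) (C.node (nat_lit 0) (nat_lit 2) (nat_lit 7) (C.cons (nat_lit 389) (C.node (nat_lit 0) (nat_lit 1) (nat_lit 7) (C.cons (nat_lit 643) (C.pat (nat_lit 0) (nat_lit 127560513) (nat_lit 304318120127389290566995394365459)) (C.cons (nat_lit 131) (C.node (nat_lit 0) (nat_lit 7) (nat_lit 9) (C.cons (nat_lit 641) (C.node (nat_lit 0) (nat_lit 1) (nat_lit 8) (C.cons (nat_lit 267) (C.pat (nat_lit 1) (nat_lit 1954788641) (nat_lit 10732570858461593120693762978764095793)) (C.cons (nat_lit 259) (C.node (nat_lit 0) (nat_lit 1) (nat_lit 3) (C.cons (nat_lit 523) (C.pat (nat_lit 2) (nat_lit 5758302530) (nat_lit 11663690252761196158703201252267959647196219617)) (C.cons (nat_lit 11) (C.node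 (nat_lit 0) (nat_lit 1) (nat_lit 9) (C.cons (nat_lit 515) (C.node (nat_lit 0) (nat_lit 3) (nat_lit 5) (C.cons (nat_lit 553) (C.pat (nat_lit 1) (nat_lit 1486125874) (nat_lit 2019827643281385442036206776207609601)) C.nil)) C.nil)) C.nil))) C.nil))) C.nil)) C.nil))) (C.cons (nat_lit 133) (C.node (nat_lit 0) (nat_lit 2) (nat_lit 8) (C.cons (nat_lit 261) (C.node (nat_lit 0) (nat_lit 3) (nat_lit 5) (C.cons (nat_lit 553) (C.node (nat_lit 0) (nat_lit 1) (nat_lit 3) (C.cons (nat_lit 267) (C.pat (nat_lit 1) (nat_lit 2555065633) (nat_lit 1386647579099876136499291316449771825)) (C.cons (nat_lit 11) (C.node (nat_lit 0) (nat_lit 1) (nat_lit 8) (C.cons (nat_lit 387) (C.pat (nat_lit 2) (nat_lit 30905317460) (nat_lit 8630401665715181325401058429666935192234821645)) (C.cons (nat_lit 259) (C.node (nat_lit 0) (nat_lit 7) (nat_lit 8) (C.cons (nat_lit 385) (C.node (nat_lit 0) (nat_lit 1) (nat_lit 7) (C.cons (nat_lit 643) (C.pat (nat_lit 0)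 (nat_lit 127560513) (nat_lit 304318120127389290566995394365459)) C.nil)) C.nil)) C.nil))) C.nil))) (C.cons (nat_lit 41) (C.node (nat_lit 0) (nat_lit 5) (nat_lit 9) (C.cons (nat_lit 545) (C.node (nat_lit 0) (nat_lit 3) (nat_lit 6)
  (C.cons (nat_lit 329) (C.pat (nat_lit 2) (nat_lit 23791383140) (nat_lit 870100312513450800946486507769875711372103425)) (C.cons (nat_lit 73) (C.node (nat_lit 0) (nat_lit 6) (nat_lit 8) C.nil) C.nil))) C.nil)) C.nil))) C.nil)) C.nil))) (C.cons (nat_lit 37) (C.node (nat_lit 0) (nat_lit 3) (nat_lit 6) (C.cons (nat_lit 329) (C.node (nat_lit 0) (nat_lit 9) (nat_lit 7) (C.cons (nat_lit 643) (C.pat (nat_lit 0) (nat_lit 158772033) (nat_lit 180090256890009016651599371765779)) (C.cons (nat_lit 641) (C.ref (nat_lit 385) (nat_lit 200616219779856)) C.nil))) (C.cons (nat_lit 73) (C.node (nat_lit 0) (nat_lit 6) (nat_lit 8) (C.cons (nat_lit 321) (C.ref (nat_lit 386) (nat_lit 205163983024656)) C.nil)) C.nil)))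 C.nil))) C.nil)) C.nil))) (C.cons (nat_lit 1089) (C.ref (nat_lit 391) (nat_lit 205163983024656)) C.nil))) (C.cons (nat_lit 49) (C.node (nat_lit 0) (nat_lit 4) (nat_lit 8) (C.cons (nat_lit 273) (C.ref (nat_lit 396) (nat_lit 205163983024656)) C.nil)) C.nil))) (C.cons (nat_lit 2053) (C.node (nat_lit 0) (nat_lit 3) (nat_lit 11) (C.cons (nat_lit 2057) (C.node (nat_lit 0) (nat_lit 4) (nat_lit 5) (C.cons (nat_lit 305) (C.ref (nat_lit 396) (nat_lit 81860301128976)) (C.cons (nat_lit 49) (C.node (nat_lit 0) (nat_lit 4) (nat_lit 8) (C.cons (nat_lit 273) (C.node (nat_lit 0) (nat_lit 6) (nat_lit 10) (C.cons (nat_lit 1091) (C.node (nat_lit 0) (nat_lit 2) (nat_lit 10) (C.cons (nat_lit 1061) (C.node (nat_lit 0) (nat_lit 3) (nat_lit 6) (C.cons (nat_lit 329) (C.node (nat_lit 0) (nat_lit 2) (nat_lit 3) (C.cons (nat_lit 15) (C.node (nat_lit 0) (nat_lit 2) (nat_lit 7) (C.cons (nat_lit 389) (C.node (nat_lit 0) (nat_lit 1) (nat_lit 7) (C.cons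 (nat_lit 643) (C.pat (nat_lit 0) (nat_lit 127560513) (nat_lit 304318120127389290566995394365459)) (C.cons (nat_lit 131) (C.node (nat_lit 0) (nat_lit 7) (nat_lit 9) (C.cons (nat_lit 641) (C.node (nat_lit 0) (nat_lit 1) (nat_lit 8) (C.cons (nat_lit 291) (C.pat (nat_lit 1) (nat_lit 1988469537) (nat_lit 5664975958626710991001247296994476361)) (C.cons (nat_lit 259) (C.node (nat_lit 0) (nat_lit 5) (nat_lit 8) C.nil) C.nil))) C.nil)) C.nil))) (C.cons (nat_lit 133) (C.node (nat_lit 0) (nat_lit 2) (nat_lit 8) (C.cons (nat_lit 261) (C.node (nat_lit 0) (nat_lit 3) (nat_lit 5) (C.cons (nat_lit 553) (C.node (nat_lit 0) (nat_lit 1) (nat_lit 5) (C.cons (nat_lit 291) (C.pat (nat_lit 1) (nat_lit 2557104929) (nat_lit 1511262702524800399640145050693075273)) (C.cons (nat_lit 35) (C.node (nat_lit 0) (nat_lit 5) (nat_lit 8) C.nil) C.nil))) (C.cons (nat_lit 41) (C.node (nat_lit 0) (nat_lit 3) (nat_lit 9) C.nil) C.nil))) C.nil)) C.nil))) (C.cons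 (nat_lit 13) (C.ref (nat_lit 386) (nat_lit 188671273095696)) C.nil))) (C.cons (nat_lit 73) (C.node (nat_lit 0) (nat_lit 6) (nat_lit 8) (C.cons (nat_lit 321) (C.ref (nat_lit 393) (nat_lit 188671273095696)) C.nil)) C.nil))) (C.cons (nat_lit 1029) (C.node (nat_lit 0) (nat_lit 5) (nat_lit 10) (C.cons (nat_lit 1057) (C.node (nat_lit 0) (nat_lit 3) (nat_lit 6) (C.cons (nat_lit 329) (C.ref (nat_lit 393) (nat_lit 118152741159696)) (C.cons (nat_lit 73) (C.node (nat_lit 0) (nat_lit 6) (nat_lit 8) C.nil) C.nil))) C.nil)) C.nil))) (C.cons (nat_lit 1089) (C.ref (nat_lit 398) (nat_lit 205163983024656)) C.nil))) C.nil)) C.nil))) C.nil)) C.nil))) (C.cons (nat_lit 2065) (C.node (nat_lit 0) (nat_lit 6) (nat_lit 10) (C.cons (nat_lit 1091) (C.node (nat_lit 0) (nat_lit 2) (nat_lit 10) (C.cons (nat_lit 1061) (C.node (nat_lit 0) (nat_lit 3) (nat_lit 6) (C.cons (nat_lit 329) (C.ref (nat_lit 391) (nat_lit 188671273095696)) (C.cons (nat_lit 73)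 (C.node (nat_lit 0) (nat_lit 6) (nat_lit 8) (C.cons (nat_lit 321) (C.ref (nat_lit 395) (nat_lit 188671273095696)) C.nil)) C.nil))) (C.cons (nat_lit 1029) (C.node (nat_lit 0) (nat_lit 5) (nat_lit 10) (C.cons (nat_lit 1057) (C.node (nat_lit 0) (nat_lit 3) (nat_lit 6) (C.cons (nat_lit 329) (C.ref (nat_lit 395) (nat_lit 118152741159696)) (C.cons (nat_lit 73) (C.node (nat_lit 0) (nat_lit 6) (nat_lit 8) (C.cons (nat_lit 321)
  (C.ref (nat_lit 398) (nat_lit 188671273095696)) C.nil)) C.nil))) C.nil)) C.nil))) (C.cons (nat_lit 1089) (C.node (nat_lit 0) (nat_lit 7) (nat_lit 9) (C.cons (nat_lit 643) (C.node (nat_lit 0) (nat_lit 2) (nat_lit 7) (C.cons (nat_lit 389) (C.node (nat_lit 0) (nat_lit 3) (nat_lit 9) (C.cons (nat_lit 553) (C.ref (nat_lit 390) (nat_lit 135676477145616)) (C.cons (nat_lit 521) (C.node (nat_lit 0) (nat_lit 5) (nat_lit 9) (C.cons (nat_lit 545) (C.ref (nat_lit 394) (nat_lit 135676477145616)) C.nil)) C.nil))) (C.cons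 (nat_lit 133) (C.node (nat_lit 0) (nat_lit 7) (nat_lit 8) (C.cons (nat_lit 385) (C.node (nat_lit 0) (nat_lit 3) (nat_lit 9) (C.cons (nat_lit 553) (C.ref (nat_lit 394) (nat_lit 171147537109776)) (C.cons (nat_lit 521) (C.node (nat_lit 0) (nat_lit 5) (nat_lit 9) (C.cons (nat_lit 545) (C.ref (nat_lit 397) (nat_lit 171147537109776)) C.nil)) C.nil))) C.nil)) C.nil))) (C.cons (nat_lit 641) (C.node (nat_lit 0) (nat_lit 1) (nat_lit 4) (C.cons (nat_lit 275) (C.ref (nat_lit 399) (nat_lit 205163983024656)) (C.cons (nat_lit 51) (C.ref (nat_lit 399) (nat_lit 201647263592976)) (C.cons (nat_lit 19) (C.node (nat_lit 0) (nat_lit 4) (nat_lit 5) (C.cons (nat_lit 305) (C.node (nat_lit 0) (nat_lit 1) (nat_lit 6) (C.cons (nat_lit 323) (C.node (nat_lit 0) (nat_lit 3) (nat_lit 6) (C.cons (nat_lit 73) (C.node (nat_lit 0) (nat_lit 1) (nat_lit 7) (C.cons (nat_lit 135) (C.node (nat_lit 0) (nat_lit 7) (nat_lit 8) (C.cons (nat_lit 385) (C.node (nat_lit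 0) (nat_lit 1) (nat_lit 10) (C.cons (nat_lit 1059) (C.node (nat_lit 0) (nat_lit 2) (nat_lit 10) (C.cons (nat_lit 1029) (C.node (nat_lit 0) (nat_lit 1) (nat_lit 9) (C.cons (nat_lit 523) (C.node (nat_lit 0) (nat_lit 1) (nat_lit 11) C.nil) C.nil)) C.nil)) (C.cons (nat_lit 1027) (C.node (nat_lit 0) (nat_lit 1) (nat_lit 11) (C.cons (nat_lit 2059) (C.node (nat_lit 0) (nat_lit 2) (nat_lit 11) C.nil) C.nil)) C.nil))) C.nil)) (C.cons (nat_lit 131) (C.node (nat_lit 0) (nat_lit 2) (nat_lit 7) (C.cons (nat_lit 389) (C.node (nat_lit 0) (nat_lit 3) (nat_lit 8) (C.cons (nat_lit 265) (C.node (nat_lit 0) (nat_lit 1) (nat_lit 11) (C.cons (nat_lit 2059) (C.node (nat_lit 0) (nat_lit 2) (nat_lit 11) C.nil) (C.cons (nat_lit 2055) (C.node (nat_lit 0) (nat_lit 3) (nat_lit 11) C.nil) C.nil))) C.nil)) (C.cons (nat_lit 133) (C.node (nat_lit 0) (nat_lit 7) (nat_lit 8) C.nil) C.nil))) C.nil))) C.nil)) (C.cons (nat_lit 75) (C.node (nat_lit 0) (nat_lit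 6) (nat_lit 8) (C.cons (nat_lit 321) (C.node (nat_lit 0) (nat_lit 1) (nat_lit 9) (C.cons (nat_lit 547) (C.node (nat_lit 0) (nat_lit 3) (nat_lit 9) (C.cons (nat_lit 521) (C.node (nat_lit 0) (nat_lit 1) (nat_lit 10) (C.cons (nat_lit 1031) (C.node (nat_lit 0) (nat_lit 1) (nat_lit 11) (C.cons (nat_lit 2051) (C.node (nat_lit 0) (nat_lit 5) (nat_lit 10) C.nil) C.nil)) (C.cons (nat_lit 1027) (C.node (nat_lit 0) (nat_lit 1) (nat_lit 11) (C.cons (nat_lit 2055) (C.node (nat_lit 0) (nat_lit 3) (nat_lit 11) C.nil) C.nil)) C.nil))) C.nil)) (C.cons (nat_lit 515) (C.node (nat_lit 0) (nat_lit 1) (nat_lit 11) (C.cons (nat_lit 2055) (C.node (nat_lit 0) (nat_lit 3) (nat_lit 11) (C.cons (nat_lit 2057) (C.node (nat_lit 0) (nat_lit 1) (nat_lit 5) (C.cons (nat_lit 1059) (C.node (nat_lit 0) (nat_lit 2) (nat_lit 10) C.nil) C.nil)) C.nil)) (C.cons (nat_lit 2051) (C.node (nat_lit 0) (nat_lit 2) (nat_lit 11) (C.cons (nat_lit 2061) (C.node (nat_lit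 0) (nat_lit 3) (nat_lit 8) C.nil) C.nil)) C.nil))) C.nil))) C.nil)) (C.cons (nat_lit 67) (C.node (nat_lit 0) (nat_lit 3) (nat_lit 6) (C.cons (nat_lit 329) (C.node (nat_lit 0) (nat_lit 1) (nat_lit 7) (C.cons (nat_lit 387) (C.node (nat_lit 0) (nat_lit 2) (nat_lit 7) (C.cons (nat_lit 133) (C.node (nat_lit 0) (nat_lit 2) (nat_lit 8) (C.cons (nat_lit 261) (C.node (nat_lit 0) (nat_lit 1) (nat_lit 10) (C.cons (nat_lit 1031) (C.node (nat_lit 0) (nat_lit 5) (nat_lit 10) C.nil) (C.cons (nat_lit 1059) (C.node (nat_lit 0) (nat_lit 2) (nat_lit 10) C.nil) C.nil))) C.nil)) C.nil)) (C.cons (nat_lit 135) (C.node (nat_lit 0) (nat_lit 1) (nat_lit 8) (C.cons (nat_lit 259)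
  (C.node (nat_lit 0) (nat_lit 2) (nat_lit 8) (C.cons (nat_lit 261) (C.node (nat_lit 0) (nat_lit 7) (nat_lit 8) C.nil) C.nil)) C.nil)) (C.cons (nat_lit 131) (C.node (nat_lit 0) (nat_lit 1) (nat_lit 8) (C.cons (nat_lit 263) (C.node (nat_lit 0) (nat_lit 2) (nat_lit 7) (C.cons (nat_lit 133) (C.node (nat_lit 0) (nat_lit 7) (nat_lit 8) C.nil) C.nil)) (C.cons (nat_lit 259) (C.node (nat_lit 0) (nat_lit 2) (nat_lit 7) (C.cons (nat_lit 389) (C.node (nat_lit 0) (nat_lit 1) (nat_lit 9) (C.cons (nat_lit 547) (C.node (nat_lit 0) (nat_lit 3) (nat_lit 9) C.nil) (C.cons (nat_lit 523) (C.node (nat_lit 0) (nat_lit 5) (nat_lit 9) C.nil) C.nil))) C.nil)) C.nil))) C.nil)))) (C.cons (nat_lit 73) (C.node (nat_lit 0) (nat_lit 6) (nat_lit 8) (C.cons (nat_lit 321) (C.node (nat_lit 0) (nat_lit 1) (nat_lit 7) (C.cons (nat_lit 387) (C.node (nat_lit 0) (nat_lit 2) (nat_lit 7) C.nil) (C.cons (nat_lit 135) (C.node (nat_lit 0) (nat_lit 7) (nat_lit 8)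 C.nil) C.nil))) C.nil)) C.nil))) C.nil)))) (C.cons (nat_lit 49) (C.node (nat_lit 0) (nat_lit 4) (nat_lit 8) (C.cons (nat_lit 273) (C.node (nat_lit 0) (nat_lit 1) (nat_lit 6) (C.cons (nat_lit 323) (C.node (nat_lit 0) (nat_lit 3) (nat_lit 6) (C.cons (nat_lit 73) (C.node (nat_lit 0) (nat_lit 1) (nat_lit 7) (C.cons (nat_lit 135) (C.node (nat_lit 0) (nat_lit 7) (nat_lit 8) C.nil) C.nil)) C.nil)) (C.cons (nat_lit 75) (C.node (nat_lit 0) (nat_lit 6) (nat_lit 8) (C.cons (nat_lit 321) (C.node (nat_lit 0) (nat_lit 1) (nat_lit 9) (C.cons (nat_lit 547) (C.node (nat_lit 0) (nat_lit 3) (nat_lit 9) C.nil) C.nil)) C.nil)) (C.cons (nat_lit 67) (C.node (nat_lit 0) (nat_lit 3) (nat_lit 6) (C.cons (nat_lit 329) (C.node (nat_lit 0) (nat_lit 1) (nat_lit 7) (C.cons (nat_lit 387) (C.node (nat_lit 0) (nat_lit 2) (nat_lit 7) C.nil) (C.cons (nat_lit 135) (C.node (nat_lit 0) (nat_lit 7) (nat_lit 8) C.nil) C.nil))) C.nil)) C.nil)))) C.nil)) C.nil)))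 C.nil)))) C.nil))) C.nil))) C.nil)))) List.nil)))))))

theorem ok12_394 : okL par12 (nat_lit 401) c12_394 (nat_lit 394) = true := by decide +kernel

noncomputable def c12_401 : List C :=
  (List.cons (C.node (nat_lit 0) (nat_lit 2) (nat_lit 11) (C.cons (nat_lit 2069) (C.node (nat_lit 0) (nat_lit 3) (nat_lit 6) (C.cons (nat_lit 329) (C.node (nat_lit 0) (nat_lit 4) (nat_lit 6) (C.cons (nat_lit 81) (C.node (nat_lit 0) (nat_lit 2) (nat_lit 3) (C.cons (nat_lit 45) (C.node (nat_lit 0) (nat_lit 2) (nat_lit 8) (C.cons (nat_lit 261) (C.node (nat_lit 0) (nat_lit 3) (nat_lit 9) C.nil) C.nil)) (C.cons (nat_lit 13) (C.node (nat_lit 0) (nat_lit 2) (nat_lit 5) (C.cons (nat_lit 293) (C.node (nat_lit 0) (nat_lit 4) (nat_lit 8) C.nil) C.nil)) C.nil))) C.nil)) (C.cons (nat_lit 73) (C.node (nat_lit 0) (nat_lit 3) (nat_lit 9) (C.cons (nat_lit 553) (C.node (nat_lit 0) (nat_lit 4) (nat_lit 9) (C.cons (nat_lit 529) (C.node (nat_lit 0) (nat_lit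 2) (nat_lit 3) (C.cons (nat_lit 269) (C.node (nat_lit 0) (nat_lit 2) (nat_lit 5) C.nil) C.nil)) C.nil)) (C.cons (nat_lit 521) (C.node (nat_lit 0) (nat_lit 4) (nat_lit 6) (C.cons (nat_lit 337) (C.node (nat_lit 0) (nat_lit 4) (nat_lit 5) (C.cons (nat_lit 561) (C.pat (nat_lit 1) (nat_lit 1217821265) (nat_lit 2009445584848571064134086679169404673)) C.nil)) C.nil)) C.nil))) C.nil))) (C.cons (nat_lit 2053) (C.node (nat_lit 0) (nat_lit 4) (nat_lit 11) (C.cons (nat_lit 2065) (C.node (nat_lit 0) (nat_lit 3) (nat_lit 6) (C.cons (nat_lit 329) (C.node (nat_lit 0) (nat_lit 4) (nat_lit 6) C.nil) C.nil)) C.nil)) C.nil))) (List.cons (C.node (nat_lit 0) (nat_lit 1) (nat_lit 3) (C.cons (nat_lit 2059) (C.node (nat_lit 0) (nat_lit 1) (nat_lit 4) (C.cons (nat_lit 19) (C.ref (nat_lit 401) (nat_lit 205163983024656)) C.nil)) (C.cons (nat_lit 11) (C.node (nat_lit 0) (nat_lit 1) (nat_lit 4) (C.cons (nat_lit 2067) (C.ref (nat_lit 401) (nat_lit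 205163982963216)) (C.cons (nat_lit 19) (C.node (nat_lit 0) (nat_lit 1) (nat_lit 11) (C.cons (nat_lit 2051) (C.node (nat_lit 0) (nat_lit 3) (nat_lit 6) (C.cons (nat_lit 329) (C.node (nat_lit 0) (nat_lit 4) (nat_lit 6) C.nil) C.nil)) C.nil)) C.nil))) C.nil))) (List.cons (C.node (nat_lit 0) (nat_lit 5) (nat_lit 10) (C.cons (nat_lit 1057) (C.node (nat_lit 0) (nat_lit 3) (nat_lit 6) (C.cons (nat_lit 329) (C.node (nat_lit 0) (nat_lit 4) (nat_lit 6) (C.cons (nat_lit 81) (C.node (nat_lit 0) (nat_lit 3) (nat_lit 9) (C.cons (nat_lit 553) (C.node (nat_lit 0) (nat_lit 4) (nat_lit 9) C.nil) C.nil)) C.nil)) (C.cons (nat_lit 73) (C.node (nat_lit 0) (nat_lit 3) (nat_lit 9) (C.cons (nat_lit 553) (C.node (nat_lit 0) (nat_lit 4) (nat_lit 9) C.nil) C.nil)) C.nil))) C.nil)) (List.cons (C.node (nat_lit 0) (nat_lit 2) (nat_lit 10) (C.cons (nat_lit 1061) (C.node (nat_lit 0) (nat_lit 3) (nat_lit 6) (C.cons (nat_lit 329) (C.node (nat_lit 0) (nat_lit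 4) (nat_lit 6) (C.cons (nat_lit 81) (C.node (nat_lit 0) (nat_lit 2) (nat_lit 3) (C.cons (nat_lit 2061) (C.node (nat_lit 0) (nat_lit 1) (nat_lit 3) (C.cons (nat_lit 43) (C.node (nat_lit 0) (nat_lit 3) (nat_lit 9) (C.cons (nat_lit 521) (C.node (nat_lit 0) (nat_lit 1) (nat_lit 4) (C.cons (nat_lit 2067) (C.node (nat_lit 0) (nat_lit 2) (nat_lit 4) (C.cons (nat_lit 277) (C.pat (nat_lit 1) (nat_lit 934577697) (nat_lit 2009512138299113320069010866182621409)) (C.cons (nat_lit 21) (C.node (nat_lit 0) (nat_lit 2) (nat_lit 8) C.nil) C.nil))) (C.cons (nat_lit 19) (C.node (nat_lit 0) (nat_lit 1) (nat_lit 11) C.nil) C.nil))) C.nil)) (C.cons (nat_lit 11) (C.node (nat_lit 0) (nat_lit 1) (nat_lit 5) (C.cons (nat_lit 51) (C.node (nat_lit 0) (nat_lit 1) (nat_lit 11) (C.cons (nat_lit 2051) (C.node (nat_lit 0) (nat_lit 4) (nat_lit 9) C.nil) C.nil)) (C.cons (nat_lit 35) (C.node (nat_lit 0) (nat_lit 1) (nat_lit 4) (C.cons (nat_lit 2067) (C.node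 (nat_lit 0) (nat_lit 2) (nat_lit 4) (C.cons (nat_lit 277) (C.pat (nat_lit 1) (nat_lit 934577697) (nat_lit 2009512138299113320069010866182621409)) C.nil)) C.nil)) C.nil))) C.nil))) (C.cons (nat_lit 13) (C.node (nat_lit 0) (nat_lit 2) (nat_lit 8) (C.cons (nat_lit 277) (C.node (nat_lit 0) (nat_lit 2) (nat_lit 11) (C.cons (nat_lit 2053) (C.node (nat_lit 0) (nat_lit 5) (nat_lit 8) C.nil) C.nil)) (C.cons (nat_lit 261)
  (C.node (nat_lit 0) (nat_lit 2) (nat_lit 4) (C.cons (nat_lit 2069) (C.node (nat_lit 0) (nat_lit 1) (nat_lit 4) (C.cons (nat_lit 51) (C.node (nat_lit 0) (nat_lit 4) (nat_lit 8) C.nil) C.nil)) C.nil)) C.nil))) C.nil))) C.nil)) (C.cons (nat_lit 73) (C.node (nat_lit 0) (nat_lit 3) (nat_lit 9) (C.cons (nat_lit 553) (C.node (nat_lit 0) (nat_lit 4) (nat_lit 9) (C.cons (nat_lit 529) (C.node (nat_lit 0) (nat_lit 1) (nat_lit 3) (C.cons (nat_lit 2059) (C.node (nat_lit 0) (nat_lit 1) (nat_lit 4) (C.cons (nat_lit 51) (C.node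 (nat_lit 0) (nat_lit 5) (nat_lit 8) (C.cons (nat_lit 289) (C.node (nat_lit 0) (nat_lit 2) (nat_lit 3) (C.cons (nat_lit 269) (C.node (nat_lit 0) (nat_lit 2) (nat_lit 4) (C.cons (nat_lit 2069) (C.pat (nat_lit 1) (nat_lit 2740238625) (nat_lit 10691032483332215447312620203783029289)) C.nil)) C.nil)) C.nil)) (C.cons (nat_lit 19) (C.node (nat_lit 0) (nat_lit 1) (nat_lit 5) C.nil) C.nil))) (C.cons (nat_lit 11) (C.node (nat_lit 0) (nat_lit 1) (nat_lit 5) (C.cons (nat_lit 51) (C.node (nat_lit 0) (nat_lit 1) (nat_lit 11) C.nil) C.nil)) C.nil))) C.nil)) (C.cons (nat_lit 521) (C.node (nat_lit 0) (nat_lit 4) (nat_lit 6) (C.cons (nat_lit 337) (C.node (nat_lit 0) (nat_lit 2) (nat_lit 4) (C.cons (nat_lit 2069) (C.node (nat_lit 0) (nat_lit 1) (nat_lit 4) (C.cons (nat_lit 51) (C.node (nat_lit 0) (nat_lit 4) (nat_lit 9) (C.cons (nat_lit 529) (C.node (nat_lit 0) (nat_lit 5) (nat_lit 9) C.nil) C.nil)) (C.cons (nat_lit 19) (C.node (nat_lit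 0) (nat_lit 1) (nat_lit 5) (C.cons (nat_lit 43) (C.node (nat_lit 0) (nat_lit 1) (nat_lit 11) C.nil) C.nil)) C.nil))) (C.cons (nat_lit 21) (C.node (nat_lit 0) (nat_lit 2) (nat_lit 8) (C.cons (nat_lit 269) (C.node (nat_lit 0) (nat_lit 2) (nat_lit 11) C.nil) C.nil)) C.nil))) (C.cons (nat_lit 81) (C.node (nat_lit 0) (nat_lit 6) (nat_lit 8) C.nil) C.nil))) C.nil))) C.nil))) (C.cons (nat_lit 1029) (C.ref (nat_lit 403) (nat_lit 205163983024656)) C.nil))) (List.cons (C.big (C.cons (nat_lit 309) (C.ref (nat_lit 384) (nat_lit 203037455164176)) (C.cons (nat_lit 307) (C.ref (nat_lit 384) (nat_lit 203037455160096)) (C.cons (nat_lit 301) (C.ref (nat_lit 384) (nat_lit 203037455098896)) (C.cons (nat_lit 299) (C.ref (nat_lit 384) (nat_lit 203037455094816)) C.nil)))) (C.node (nat_lit 0) (nat_lit 6) (nat_lit 10) (C.cons (nat_lit 1089) (C.node (nat_lit 0) (nat_lit 7) (nat_lit 9) (C.cons (nat_lit 641) (C.node (nat_lit 0) (nat_lit 1) (nat_lit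 7) (C.cons (nat_lit 387) (C.node (nat_lit 0) (nat_lit 2) (nat_lit 7) (C.cons (nat_lit 133) (C.node (nat_lit 0) (nat_lit 1) (nat_lit 10) (C.cons (nat_lit 1059) (C.node (nat_lit 0) (nat_lit 2) (nat_lit 10) (C.cons (nat_lit 1029) (C.ref (nat_lit 402) (nat_lit 205163983024656)) C.nil)) (C.cons (nat_lit 1027) (C.ref (nat_lit 404) (nat_lit 205163983024656)) C.nil))) C.nil)) (C.cons (nat_lit 131) (C.node (nat_lit 0) (nat_lit 1) (nat_lit 10) (C.cons (nat_lit 1059) (C.node (nat_lit 0) (nat_lit 2) (nat_lit 10) (C.cons (nat_lit 1029) (C.ref (nat_lit 404) (nat_lit 201647263592976)) C.nil)) (C.cons (nat_lit 1027) (C.node (nat_lit 0) (nat_lit 2) (nat_lit 7) (C.cons (nat_lit 389) (C.node (nat_lit 0) (nat_lit 2) (nat_lit 10) (C.cons (nat_lit 1061) (C.ref (nat_lit 402) (nat_lit 205163983024416)) (C.cons (nat_lit 1029) (C.ref (nat_lit 403) (nat_lit 205163983024416)) C.nil))) (C.cons (nat_lit 133) (C.node (nat_lit 0) (nat_lit 7) (nat_lit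 8) (C.cons (nat_lit 385) (C.node (nat_lit 0) (nat_lit 2) (nat_lit 10) (C.cons (nat_lit 1061) (C.node (nat_lit 0) (nat_lit 3) (nat_lit 9) (C.cons (nat_lit 553) (C.node (nat_lit 0) (nat_lit 4) (nat_lit 9) (C.cons (nat_lit 529) (C.node (nat_lit 0) (nat_lit 3) (nat_lit 6) (C.cons (nat_lit 329) (C.node (nat_lit 0) (nat_lit 4) (nat_lit 6) C.nil) C.nil)) C.nil)) (C.cons (nat_lit 521) (C.node (nat_lit 0) (nat_lit 3) (nat_lit 6) (C.cons (nat_lit 329) (C.node (nat_lit 0) (nat_lit 4) (nat_lit 6) C.nil) C.nil)) C.nil))) (C.cons (nat_lit 1029) (C.node (nat_lit 0) (nat_lit 5) (nat_lit 10) C.nil) C.nil))) C.nil)) C.nil))) C.nil))) C.nil))) C.nil)) C.nil))) (List.cons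
  (C.node (nat_lit 0) (nat_lit 2) (nat_lit 9) (C.cons (nat_lit 533) (C.pat (nat_lit 1) (nat_lit 2874754849) (nat_lit 10732781922625010132938855159663233249)) (C.cons (nat_lit 517) (C.node (nat_lit 0) (nat_lit 4) (nat_lit 9) (C.cons (nat_lit 529) (C.node (nat_lit 0) (nat_lit 4) (nat_lit 5) (C.cons (nat_lit 305) (C.node (nat_lit 0) (nat_lit 2) (nat_lit 4) (C.cons (nat_lit 85) (C.pat (nat_lit 2) (nat_lit 35803804580) (nat_lit 5954670221579318407422946464192001450108848353)) (C.cons (nat_lit 21) (C.node (nat_lit 0) (nat_lit 4) (nat_lit 6) (C.cons (nat_lit 81) (C.node (nat_lit 0) (nat_lit 2) (nat_lit 6) (C.cons (nat_lit 325) (C.pat (nat_lit 1) (nat_lit 3124258593) (nat_lit 5665100188356539355913974335792284825)) C.nil)) C.nil)) C.nil))) (C.cons (nat_lit 49) (C.node (nat_lit 0) (nat_lit 5) (nat_lit 8) (C.cons (nat_lit 289) (C.node (nat_lit 0) (nat_lit 2) (nat_lit 4) (C.cons (nat_lit 277) (C.node (nat_lit 0) (nat_lit 2) (nat_lit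 6) C.nil) (C.cons (nat_lit 85) (C.pat (nat_lit 2) (nat_lit 39499116966) (nat_lit 12198868669299191694496342404210886591406868493)) C.nil))) C.nil)) C.nil))) C.nil)) C.nil))) (List.cons (C.node (nat_lit 0) (nat_lit 4) (nat_lit 6) (C.cons (nat_lit 85) (C.pat (nat_lit 2) (nat_lit 35803804580) (nat_lit 5954670221579318407422946464192001450108848353)) (C.cons (nat_lit 81) (C.node (nat_lit 0) (nat_lit 2) (nat_lit 4) (C.cons (nat_lit 533) (C.node (nat_lit 0) (nat_lit 1) (nat_lit 2) (C.cons (nat_lit 135) (C.node (nat_lit 0) (nat_lit 1) (nat_lit 9) (C.cons (nat_lit 515) (C.node (nat_lit 0) (nat_lit 7) (nat_lit 8) (C.cons (nat_lit 385) (C.node (nat_lit 0) (nat_lit 7) (nat_lit 9) (C.cons (nat_lit 641) (C.node (nat_lit 0) (nat_lit 2) (nat_lit 6) (C.cons (nat_lit 325) (C.pat (nat_lit 1) (nat_lit 3124258593) (nat_lit 5665100188356539355913974335792284825)) C.nil)) C.nil)) C.nil)) C.nil)) (C.cons (nat_lit 7) (C.node (nat_lit 0) (nat_lit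 1) (nat_lit 7) (C.cons (nat_lit 643) (C.node (nat_lit 0) (nat_lit 2) (nat_lit 6) (C.cons (nat_lit 325) (C.pat (nat_lit 2) (nat_lit 34697885331) (nat_lit 7247923563362972579358139185338309258013902867)) (C.cons (nat_lit 69) (C.node (nat_lit 0) (nat_lit 6) (nat_lit 8) (C.cons (nat_lit 321) (C.node (nat_lit 0) (nat_lit 2) (nat_lit 7) (C.cons (nat_lit 389) (C.pat (nat_lit 1) (nat_lit 699693105) (nat_lit 3338689111147371113544050749581364993)) C.nil)) C.nil)) C.nil))) (C.cons (nat_lit 131) (C.node (nat_lit 0) (nat_lit 1) (nat_lit 9) (C.cons (nat_lit 515) (C.node (nat_lit 0) (nat_lit 7) (nat_lit 9) C.nil) C.nil)) C.nil))) C.nil))) (C.cons (nat_lit 21) (C.node (nat_lit 0) (nat_lit 4) (nat_lit 9) (C.cons (nat_lit 529) (C.node (nat_lit 0) (nat_lit 2) (nat_lit 6) (C.cons (nat_lit 325) (C.pat (nat_lit 3) (nat_lit 10036190120) (nat_lit 45962609321500745808784168808039873278154313473)) (C.cons (nat_lit 69) (C.node (nat_lit 0) (nat_lit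 6) (nat_lit 8) C.nil) C.nil))) C.nil)) C.nil))) C.nil))) (List.cons (C.node (nat_lit 0) (nat_lit 7) (nat_lit 8) (C.cons (nat_lit 389) (C.node (nat_lit 0) (nat_lit 1) (nat_lit 2) (C.cons (nat_lit 519) (C.node (nat_lit 0) (nat_lit 1) (nat_lit 7) (C.cons (nat_lit 131) (C.node (nat_lit 0) (nat_lit 7) (nat_lit 9) (C.cons (nat_lit 641) (C.node (nat_lit 0) (nat_lit 2) (nat_lit 4) (C.cons (nat_lit 85) (C.pat (nat_lit 1) (nat_lit 1537624353) (nat_lit 10732657693523832049133518997943553793)) (C.cons (nat_lit 21) (C.node (nat_lit 0) (nat_lit 2) (nat_lit 6) (C.cons (nat_lit 69) (C.node (nat_lit 0) (nat_lit 4) (nat_lit 6) (C.cons (nat_lit 337) (C.pat (nat_lit 2) (nat_lit 40385163651) (nat_lit 11574219129628234014716639697182291168437405921)) C.nil)) C.nil)) C.nil))) C.nil)) C.nil)) (C.cons (nat_lit 7) (C.node (nat_lit 0) (nat_lit 2) (nat_lit 9) (C.cons (nat_lit 517) (C.node (nat_lit 0) (nat_lit 1) (nat_lit 7) (C.cons (nat_lit 643)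 (C.node (nat_lit 0) (nat_lit 2) (nat_lit 4) (C.cons (nat_lit 85) (C.pat (nat_lit 1) (nat_lit 2506402610) (nat_lit 5509071414007452164940148895076911329)) (C.cons (nat_lit 21) (C.node (nat_lit 0) (nat_lit 2) (nat_lit 6) (C.cons (nat_lit 69)
  (C.node (nat_lit 0) (nat_lit 4) (nat_lit 6) (C.cons (nat_lit 337) (C.pat (nat_lit 1) (nat_lit 1805076529) (nat_lit 10732657692982229149741509445561159425)) C.nil)) C.nil)) C.nil))) (C.cons (nat_lit 131) (C.node (nat_lit 0) (nat_lit 1) (nat_lit 9) (C.cons (nat_lit 515) (C.node (nat_lit 0) (nat_lit 7) (nat_lit 9) C.nil) C.nil)) C.nil))) C.nil)) C.nil))) (C.cons (nat_lit 385) (C.node (nat_lit 0) (nat_lit 1) (nat_lit 2) (C.cons (nat_lit 519) (C.node (nat_lit 0) (nat_lit 1) (nat_lit 7) (C.cons (nat_lit 131) (C.node (nat_lit 0) (nat_lit 2) (nat_lit 7) (C.cons (nat_lit 133) (C.node (nat_lit 0) (nat_lit 7) (nat_lit 9) (C.cons (nat_lit 641) (C.node (nat_lit 0) (nat_lit 2) (nat_lit 4) (C.cons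 (nat_lit 277) (C.node (nat_lit 0) (nat_lit 2) (nat_lit 6) C.nil) (C.cons (nat_lit 85) (C.pat (nat_lit 1) (nat_lit 1537624353) (nat_lit 10732657693523832049133518997943553793)) C.nil))) C.nil)) C.nil)) C.nil)) (C.cons (nat_lit 135) (C.node (nat_lit 0) (nat_lit 1) (nat_lit 9) (C.cons (nat_lit 515) (C.node (nat_lit 0) (nat_lit 2) (nat_lit 9) (C.cons (nat_lit 517) (C.node (nat_lit 0) (nat_lit 7) (nat_lit 9) (C.cons (nat_lit 641) (C.node (nat_lit 0) (nat_lit 2) (nat_lit 4) (C.cons (nat_lit 277) (C.node (nat_lit 0) (nat_lit 2) (nat_lit 6) C.nil) (C.cons (nat_lit 85) (C.pat (nat_lit 1) (nat_lit 2506402610) (nat_lit 5509071414007452164940148895076911329)) C.nil))) C.nil)) C.nil)) C.nil)) (C.cons (nat_lit 7) (C.node (nat_lit 0) (nat_lit 1) (nat_lit 7) (C.cons (nat_lit 643) (C.node (nat_lit 0) (nat_lit 2) (nat_lit 7) (C.cons (nat_lit 133) (C.node (nat_lit 0) (nat_lit 2) (nat_lit 9) (C.cons (nat_lit 517) (C.node (nat_lit 0) (nat_lit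 2) (nat_lit 4) (C.cons (nat_lit 277) (C.node (nat_lit 0) (nat_lit 2) (nat_lit 6) C.nil) (C.cons (nat_lit 85) (C.pat (nat_lit 1) (nat_lit 2506402610) (nat_lit 5509071414007452164940148895076911329)) C.nil))) C.nil)) C.nil)) (C.cons (nat_lit 131) (C.node (nat_lit 0) (nat_lit 1) (nat_lit 9) (C.cons (nat_lit 515) (C.node (nat_lit 0) (nat_lit 2) (nat_lit 7) (C.cons (nat_lit 645) (C.node (nat_lit 0) (nat_lit 2) (nat_lit 4) (C.cons (nat_lit 277) (C.node (nat_lit 0) (nat_lit 2) (nat_lit 6) C.nil) (C.cons (nat_lit 85) (C.pat (nat_lit 1) (nat_lit 2506402610) (nat_lit 5509071414007452164940148895076911329)) C.nil))) C.nil)) C.nil)) C.nil))) C.nil)))) C.nil))) (List.cons (C.node (nat_lit 0) (nat_lit 4) (nat_lit 9) (C.cons (nat_lit 533) (C.node (nat_lit 0) (nat_lit 1) (nat_lit 2) (C.cons (nat_lit 135) (C.node (nat_lit 0) (nat_lit 1) (nat_lit 9) (C.cons (nat_lit 515) (C.node (nat_lit 0) (nat_lit 7) (nat_lit 8) (C.cons (nat_lit 385)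 (C.node (nat_lit 0) (nat_lit 7) (nat_lit 9) C.nil) C.nil)) C.nil)) (C.cons (nat_lit 7) (C.node (nat_lit 0) (nat_lit 1) (nat_lit 7) (C.cons (nat_lit 643) (C.node (nat_lit 0) (nat_lit 2) (nat_lit 6) (C.cons (nat_lit 325) (C.pat (nat_lit 2) (nat_lit 34697885331) (nat_lit 7247923563362972579358139185338309258013902867)) (C.cons (nat_lit 69) (C.node (nat_lit 0) (nat_lit 2) (nat_lit 7) (C.cons (nat_lit 389) (C.pat (nat_lit 1) (nat_lit 699693105) (nat_lit 3338689111147371113544050749581364993)) C.nil)) C.nil))) (C.cons (nat_lit 131) (C.node (nat_lit 0) (nat_lit 1) (nat_lit 9) C.nil) C.nil))) C.nil))) (C.cons (nat_lit 529) (C.node (nat_lit 0) (nat_lit 7) (nat_lit 8) (C.cons (nat_lit 389) (C.node (nat_lit 0) (nat_lit 1) (nat_lit 2) (C.cons (nat_lit 519) (C.node (nat_lit 0) (nat_lit 1) (nat_lit 7) (C.cons (nat_lit 131) (C.node (nat_lit 0) (nat_lit 7) (nat_lit 9) C.nil) C.nil)) (C.cons (nat_lit 7) (C.node (nat_lit 0) (nat_lit 2)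 (nat_lit 9) C.nil) C.nil))) (C.cons (nat_lit 385) (C.node (nat_lit 0) (nat_lit 1) (nat_lit 2) (C.cons (nat_lit 519) (C.node (nat_lit 0) (nat_lit 1) (nat_lit 7) C.nil) (C.cons (nat_lit 135) (C.node (nat_lit 0) (nat_lit 1) (nat_lit 9) C.nil) C.nil))) C.nil))) C.nil))) (List.cons (C.node (nat_lit 0) (nat_lit 4) (nat_lit 9) (C.cons (nat_lit 533) (C.pat (nat_lit 2) (nat_lit 40351413411) (nat_lit 11886658236073225440680847172328363986460936417)) (C.cons (nat_lit 529)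
  (C.node (nat_lit 0) (nat_lit 1) (nat_lit 8) (C.cons (nat_lit 387) (C.node (nat_lit 0) (nat_lit 1) (nat_lit 2) (C.cons (nat_lit 519) (C.pat (nat_lit 1) (nat_lit 3056970017) (nat_lit 5664975958326946530333659949636584009)) (C.cons (nat_lit 7) (C.node (nat_lit 0) (nat_lit 1) (nat_lit 9) (C.cons (nat_lit 515) (C.node (nat_lit 0) (nat_lit 2) (nat_lit 7) (C.cons (nat_lit 645) (C.node (nat_lit 0) (nat_lit 2) (nat_lit 4) (C.cons (nat_lit 277) (C.node (nat_lit 0) (nat_lit 2) (nat_lit 6) C.nil) (C.cons (nat_lit 85) (C.pat (nat_lit 1) (nat_lit 649372977) (nat_lit 5664802609554179896914487768128227553)) C.nil))) C.nil)) C.nil)) C.nil))) (C.cons (nat_lit 263) (C.node (nat_lit 0) (nat_lit 7) (nat_lit 8) (C.cons (nat_lit 385) (C.node (nat_lit 0) (nat_lit 1) (nat_lit 7) (C.cons (nat_lit 643) (C.node (nat_lit 0) (nat_lit 2) (nat_lit 7) (C.cons (nat_lit 133) (C.node (nat_lit 0) (nat_lit 2) (nat_lit 9) C.nil) C.nil)) (C.cons (nat_lit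 131) (C.node (nat_lit 0) (nat_lit 1) (nat_lit 9) C.nil) C.nil))) C.nil)) (C.cons (nat_lit 259) (C.node (nat_lit 0) (nat_lit 7) (nat_lit 8) (C.cons (nat_lit 389) (C.node (nat_lit 0) (nat_lit 1) (nat_lit 2) (C.cons (nat_lit 519) (C.pat (nat_lit 1) (nat_lit 3056970017) (nat_lit 5664975958326946530333659949636584009)) (C.cons (nat_lit 7) (C.node (nat_lit 0) (nat_lit 2) (nat_lit 9) C.nil) C.nil))) (C.cons (nat_lit 385) (C.node (nat_lit 0) (nat_lit 1) (nat_lit 2) (C.cons (nat_lit 519) (C.pat (nat_lit 1) (nat_lit 3056970017) (nat_lit 5664975958326946530333659949636584009)) (C.cons (nat_lit 135) (C.node (nat_lit 0) (nat_lit 1) (nat_lit 9) C.nil) C.nil))) C.nil))) C.nil)))) C.nil))) (List.cons (C.node (nat_lit 0) (nat_lit 4) (nat_lit 9) (C.cons (nat_lit 533) (C.pat (nat_lit 3) (nat_lit 5993868201) (nat_lit 46096413792847698453382173838274156998170054401)) (C.cons (nat_lit 529) (C.node (nat_lit 0) (nat_lit 2) (nat_lit 9) (C.cons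 (nat_lit 645) (C.node (nat_lit 0) (nat_lit 1) (nat_lit 2) (C.cons (nat_lit 263) (C.pat (nat_lit 2) (nat_lit 35285016981) (nat_lit 5865315472378015870466862782861697221876974745)) (C.cons (nat_lit 7) (C.node (nat_lit 0) (nat_lit 1) (nat_lit 7) (C.cons (nat_lit 387) (C.pat (nat_lit 1) (nat_lit 981952849) (nat_lit 5664889124676641315471864124686798593)) (C.cons (nat_lit 131) (C.node (nat_lit 0) (nat_lit 1) (nat_lit 8) (C.cons (nat_lit 259) (C.node (nat_lit 0) (nat_lit 7) (nat_lit 8) (C.cons (nat_lit 385) (C.node (nat_lit 0) (nat_lit 2) (nat_lit 4) (C.cons (nat_lit 277) (C.node (nat_lit 0) (nat_lit 2) (nat_lit 6) C.nil) (C.cons (nat_lit 85) (C.pat (nat_lit 2) (nat_lit 39499116966) (nat_lit 12198868669299191694496342404210886591406868493)) C.nil))) C.nil)) C.nil)) C.nil))) C.nil))) (C.cons (nat_lit 517) (C.node (nat_lit 0) (nat_lit 7) (nat_lit 9) (C.cons (nat_lit 641) (C.node (nat_lit 0) (nat_lit 1) (nat_lit 2) (C.cons (nat_lit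 263) (C.node (nat_lit 0) (nat_lit 1) (nat_lit 7) (C.cons (nat_lit 131) (C.node (nat_lit 0) (nat_lit 2) (nat_lit 7) (C.cons (nat_lit 133) (C.node (nat_lit 0) (nat_lit 7) (nat_lit 8) C.nil) C.nil)) C.nil)) (C.cons (nat_lit 135) (C.node (nat_lit 0) (nat_lit 1) (nat_lit 8) (C.cons (nat_lit 259) (C.node (nat_lit 0) (nat_lit 7) (nat_lit 8) (C.cons (nat_lit 385) (C.node (nat_lit 0) (nat_lit 2) (nat_lit 4) (C.cons (nat_lit 277) (C.node (nat_lit 0) (nat_lit 2) (nat_lit 6) C.nil) (C.cons (nat_lit 85) (C.pat (nat_lit 2) (nat_lit 39499116966) (nat_lit 12198868669299191694496342404210886591406868493)) C.nil))) C.nil)) C.nil)) (C.cons (nat_lit 7) (C.node (nat_lit 0) (nat_lit 1) (nat_lit 7) (C.cons (nat_lit 387) (C.pat (nat_lit 1) (nat_lit 981952849) (nat_lit 5664889124676641315471864124686798593)) (C.cons (nat_lit 131) (C.node (nat_lit 0) (nat_lit 1) (nat_lit 8) C.nil) C.nil))) C.nil)))) C.nil)) C.nil))) C.nil))) (List.cons (C.node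 (nat_lit 0) (nat_lit 4) (nat_lit 9) (C.cons (nat_lit 533) (C.node (nat_lit 0) (nat_lit 1) (nat_lit 9) (C.cons (nat_lit 643) (C.node (nat_lit 0) (nat_lit 1) (nat_lit 2) (C.cons (nat_lit 263) (C.node (nat_lit 0) (nat_lit 2) (nat_lit 6) (C.cons (nat_lit 69)
  (C.node (nat_lit 0) (nat_lit 2) (nat_lit 7) (C.cons (nat_lit 133) (C.node (nat_lit 0) (nat_lit 7) (nat_lit 8) (C.cons (nat_lit 385) (C.node (nat_lit 0) (nat_lit 4) (nat_lit 6) (C.cons (nat_lit 337) (C.pat (nat_lit 2) (nat_lit 36089082516) (nat_lit 5865314791813282029762594638699943352448911585)) C.nil)) C.nil)) C.nil)) C.nil)) (C.cons (nat_lit 7) (C.node (nat_lit 0) (nat_lit 1) (nat_lit 8) (C.cons (nat_lit 259) (C.node (nat_lit 0) (nat_lit 2) (nat_lit 6) (C.cons (nat_lit 325) (C.node (nat_lit 0) (nat_lit 2) (nat_lit 7) (C.cons (nat_lit 133) (C.node (nat_lit 0) (nat_lit 4) (nat_lit 6) C.nil) C.nil)) (C.cons (nat_lit 69) (C.node (nat_lit 0) (nat_lit 2) (nat_lit 7) (C.cons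 (nat_lit 389) (C.pat (nat_lit 0) (nat_lit 126507826) (nat_lit 304318120127389206123411457509389)) C.nil)) C.nil))) C.nil)) C.nil))) (C.cons (nat_lit 515) (C.node (nat_lit 0) (nat_lit 7) (nat_lit 9) (C.cons (nat_lit 641) (C.node (nat_lit 0) (nat_lit 2) (nat_lit 6) (C.cons (nat_lit 325) (C.node (nat_lit 0) (nat_lit 4) (nat_lit 6) (C.cons (nat_lit 81) (C.node (nat_lit 0) (nat_lit 4) (nat_lit 8) C.nil) C.nil)) (C.cons (nat_lit 69) (C.node (nat_lit 0) (nat_lit 4) (nat_lit 6) (C.cons (nat_lit 337) (C.node (nat_lit 0) (nat_lit 1) (nat_lit 2) (C.cons (nat_lit 263) (C.pat (nat_lit 3) (nat_lit 26110737320) (nat_lit 50690297205577411916748208832370629095256035073)) (C.cons (nat_lit 135) (C.node (nat_lit 0) (nat_lit 1) (nat_lit 8) C.nil) C.nil))) C.nil)) C.nil))) C.nil)) C.nil))) (C.cons (nat_lit 529) (C.node (nat_lit 0) (nat_lit 1) (nat_lit 8) (C.cons (nat_lit 387) (C.node (nat_lit 0) (nat_lit 1) (nat_lit 2) (C.cons (nat_lit 519)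 (C.node (nat_lit 0) (nat_lit 2) (nat_lit 7) (C.cons (nat_lit 133) (C.node (nat_lit 0) (nat_lit 7) (nat_lit 9) (C.cons (nat_lit 641) (C.node (nat_lit 0) (nat_lit 2) (nat_lit 4) (C.cons (nat_lit 277) (C.node (nat_lit 0) (nat_lit 2) (nat_lit 6) C.nil) (C.cons (nat_lit 85) (C.pat (nat_lit 1) (nat_lit 984901921) (nat_lit 5664889126707636692920962876708294401)) C.nil))) C.nil)) C.nil)) (C.cons (nat_lit 7) (C.node (nat_lit 0) (nat_lit 1) (nat_lit 9) (C.cons (nat_lit 515) (C.node (nat_lit 0) (nat_lit 2) (nat_lit 7) (C.cons (nat_lit 645) (C.node (nat_lit 0) (nat_lit 2) (nat_lit 4) (C.cons (nat_lit 277) (C.node (nat_lit 0) (nat_lit 2) (nat_lit 6) C.nil) (C.cons (nat_lit 85) (C.node (nat_lit 0) (nat_lit 2) (nat_lit 8) C.nil) C.nil))) C.nil)) C.nil)) C.nil))) (C.cons (nat_lit 263) (C.node (nat_lit 0) (nat_lit 7) (nat_lit 8) (C.cons (nat_lit 385) (C.node (nat_lit 0) (nat_lit 1) (nat_lit 7) (C.cons (nat_lit 643) (C.node (nat_lit 0)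 (nat_lit 2) (nat_lit 7) (C.cons (nat_lit 133) (C.node (nat_lit 0) (nat_lit 2) (nat_lit 9) C.nil) C.nil)) (C.cons (nat_lit 131) (C.node (nat_lit 0) (nat_lit 1) (nat_lit 9) C.nil) C.nil))) C.nil)) (C.cons (nat_lit 259) (C.node (nat_lit 0) (nat_lit 7) (nat_lit 8) (C.cons (nat_lit 389) (C.pat (nat_lit 0) (nat_lit 126507826) (nat_lit 304318120127389206123411457509389)) (C.cons (nat_lit 385) (C.node (nat_lit 0) (nat_lit 1) (nat_lit 2) (C.cons (nat_lit 519) (C.node (nat_lit 0) (nat_lit 1) (nat_lit 7) C.nil) (C.cons (nat_lit 135) (C.node (nat_lit 0) (nat_lit 1) (nat_lit 9) C.nil) C.nil))) C.nil))) C.nil)))) C.nil))) (List.cons (C.node (nat_lit 0) (nat_lit 4) (nat_lit 9) (C.cons (nat_lit 533) (C.pat (nat_lit 3) (nat_lit 5993868201) (nat_lit 46096413792847698453382173838274156998170054401)) (C.cons (nat_lit 529) (C.node (nat_lit 0) (nat_lit 2) (nat_lit 9) (C.cons (nat_lit 645) (C.node (nat_lit 0) (nat_lit 1) (nat_lit 2) (C.cons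 (nat_lit 263) (C.node (nat_lit 0) (nat_lit 1) (nat_lit 7) (C.cons (nat_lit 131) (C.node (nat_lit 0) (nat_lit 7) (nat_lit 8) C.nil) C.nil)) (C.cons (nat_lit 7) (C.node (nat_lit 0) (nat_lit 1) (nat_lit 7) (C.cons (nat_lit 387) (C.node (nat_lit 0) (nat_lit 2) (nat_lit 8) (C.cons (nat_lit 277) (C.node (nat_lit 0) (nat_lit 2) (nat_lit 6) C.nil) (C.cons (nat_lit 325) (C.pat (nat_lit 1) (nat_lit 645440913) (nat_lit 5664821622282187943004366802985748705)) C.nil))) C.nil)) C.nil))) (C.cons (nat_lit 517)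
  (C.node (nat_lit 0) (nat_lit 7) (nat_lit 9) C.nil) C.nil))) C.nil))) (List.cons (C.node (nat_lit 0) (nat_lit 4) (nat_lit 9) (C.cons (nat_lit 533) (C.node (nat_lit 0) (nat_lit 1) (nat_lit 2) (C.cons (nat_lit 135) (C.node (nat_lit 0) (nat_lit 1) (nat_lit 9) (C.cons (nat_lit 515) (C.node (nat_lit 0) (nat_lit 7) (nat_lit 8) (C.cons (nat_lit 385) (C.node (nat_lit 0) (nat_lit 7) (nat_lit 9) C.nil) C.nil)) C.nil)) (C.cons (nat_lit 7) (C.node (nat_lit 0) (nat_lit 1) (nat_lit 7) (C.cons (nat_lit 643) (C.node (nat_lit 0) (nat_lit 2) (nat_lit 6) (C.cons (nat_lit 325) (C.node (nat_lit 0) (nat_lit 2) (nat_lit 7) (C.cons (nat_lit 133) (C.node (nat_lit 0) (nat_lit 4) (nat_lit 6) C.nil) C.nil)) (C.cons (nat_lit 69) (C.node (nat_lit 0) (nat_lit 2) (nat_lit 7) (C.cons (nat_lit 389) (C.node (nat_lit 0) (nat_lit 4) (nat_lit 6) (C.cons (nat_lit 337) (C.pat (nat_lit 1) (nat_lit 1754561330) (nat_lit 2019830178505214646048680701687566081))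 C.nil)) C.nil)) C.nil))) (C.cons (nat_lit 131) (C.node (nat_lit 0) (nat_lit 1) (nat_lit 9) C.nil) C.nil))) C.nil))) (C.cons (nat_lit 529) (C.node (nat_lit 0) (nat_lit 7) (nat_lit 8) (C.cons (nat_lit 389) (C.node (nat_lit 0) (nat_lit 1) (nat_lit 2) (C.cons (nat_lit 519) (C.node (nat_lit 0) (nat_lit 1) (nat_lit 7) (C.cons (nat_lit 131) (C.node (nat_lit 0) (nat_lit 7) (nat_lit 9) C.nil) C.nil)) (C.cons (nat_lit 7) (C.node (nat_lit 0) (nat_lit 2) (nat_lit 9) C.nil) C.nil))) (C.cons (nat_lit 385) (C.node (nat_lit 0) (nat_lit 1) (nat_lit 2) (C.cons (nat_lit 519) (C.node (nat_lit 0) (nat_lit 1) (nat_lit 7) C.nil) (C.cons (nat_lit 135) (C.node (nat_lit 0) (nat_lit 1) (nat_lit 9) C.nil) C.nil))) C.nil))) C.nil))) List.nil))))))))))))))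

theorem ok12_401 : okL par12 (nat_lit 415) c12_401 (nat_lit 401) = true := by decide +kernel

noncomputable def c12_415 : List C :=
  (List.cons (C.node (nat_lit 0) (nat_lit 1) (nat_lit 3) (C.cons (nat_lit 267) (C.node (nat_lit 0) (nat_lit 3) (nat_lit 5) (C.cons (nat_lit 41) (C.node (nat_lit 0) (nat_lit 1) (nat_lit 5) (C.cons (nat_lit 547) (C.node (nat_lit 0) (nat_lit 1) (nat_lit 2) (C.cons (nat_lit 135) (C.node (nat_lit 0) (nat_lit 7) (nat_lit 8) (C.cons (nat_lit 385) (C.node (nat_lit 0) (nat_lit 7) (nat_lit 9) (C.cons (nat_lit 641) (C.ref (nat_lit 406) (nat_lit 205163983024656)) C.nil)) C.nil)) (C.cons (nat_lit 7) (C.node (nat_lit 0) (nat_lit 1) (nat_lit 7) (C.cons (nat_lit 131) (C.node (nat_lit 0) (nat_lit 4) (nat_lit 5) (C.cons (nat_lit 305) (C.node (nat_lit 0) (nat_lit 4) (nat_lit 6) (C.cons (nat_lit 85) (C.pat (nat_lit 2) (nat_lit 35803804580) (nat_lit 5954670221579318407422946464192001450108848353)) (C.cons (nat_lit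 81) (C.node (nat_lit 0) (nat_lit 2) (nat_lit 4) (C.cons (nat_lit 533) (C.pat (nat_lit 3) (nat_lit 5993868201) (nat_lit 46096413792847698453382173838274156998170054401)) (C.cons (nat_lit 21) (C.node (nat_lit 0) (nat_lit 4) (nat_lit 9) (C.cons (nat_lit 529) (C.node (nat_lit 0) (nat_lit 2) (nat_lit 6) (C.cons (nat_lit 325) (C.pat (nat_lit 3) (nat_lit 10036190120) (nat_lit 45962609321500745808784168808039873278154313473)) (C.cons (nat_lit 69) (C.node (nat_lit 0) (nat_lit 6) (nat_lit 8) C.nil) C.nil))) C.nil)) C.nil))) C.nil))) (C.cons (nat_lit 49) (C.node (nat_lit 0) (nat_lit 5) (nat_lit 8) (C.cons (nat_lit 289) (C.node (nat_lit 0) (nat_lit 4) (nat_lit 9) (C.cons (nat_lit 533) (C.pat (nat_lit 3) (nat_lit 5993868201) (nat_lit 46096413792847698453382173838274156998170054401)) (C.cons (nat_lit 529) (C.node (nat_lit 0) (nat_lit 2) (nat_lit 9) (C.cons (nat_lit 645) (C.node (nat_lit 0) (nat_lit 7) (nat_lit 8) (C.cons (nat_lit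 385) (C.node (nat_lit 0) (nat_lit 2) (nat_lit 4) (C.cons (nat_lit 277) (C.node (nat_lit 0) (nat_lit 2) (nat_lit 6) C.nil) (C.cons (nat_lit 85) (C.pat (nat_lit 2) (nat_lit 39499116966) (nat_lit 12198868669299191694496342404210886591406868493)) C.nil))) C.nil)) (C.cons (nat_lit 517) (C.node (nat_lit 0) (nat_lit 7) (nat_lit 9) C.nil) C.nil))) C.nil))) C.nil)) C.nil))) C.nil)) C.nil))) (C.cons (nat_lit 35) (C.node (nat_lit 0) (nat_lit 5) (nat_lit 8) (C.cons (nat_lit 305) (C.node (nat_lit 0) (nat_lit 5) (nat_lit 9) (C.cons (nat_lit 545) (C.ref (nat_lit 407) (nat_lit 205163983024656)) C.nil)) (C.cons (nat_lit 289) (C.node (nat_lit 0) (nat_lit 4) (nat_lit 5) (C.cons (nat_lit 561) (C.ref (nat_lit 408) (nat_lit 205163983024656)) (C.cons (nat_lit 49) (C.node (nat_lit 0) (nat_lit 5) (nat_lit 9) (C.cons (nat_lit 545) (C.ref (nat_lit 409) (nat_lit 205163983024656)) C.nil)) C.nil))) C.nil))) C.nil))) C.nil)) (C.cons (nat_lit 43) (C.node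 (nat_lit 0) (nat_lit 3) (nat_lit 8) (C.cons (nat_lit 265) (C.node (nat_lit 0) (nat_lit 5) (nat_lit 8) (C.cons (nat_lit 305) (C.node (nat_lit 0) (nat_lit 5) (nat_lit 9) (C.cons (nat_lit 545) (C.node (nat_lit 0) (nat_lit 4) (nat_lit 6) (C.cons (nat_lit 85) (C.pat (nat_lit 1) (nat_lit 649372977) (nat_lit 5664802609554179896914487768128227553)) (C.cons (nat_lit 81) (C.node (nat_lit 0) (nat_lit 2) (nat_lit 4) (C.cons (nat_lit 533) (C.pat (nat_lit 2) (nat_lit 40351413411) (nat_lit 11886658236073225440680847172328363986460936417)) (C.cons (nat_lit 21) (C.node (nat_lit 0) (nat_lit 4) (nat_lit 9) (C.cons (nat_lit 529) (C.node (nat_lit 0) (nat_lit 2) (nat_lit 6) (C.cons (nat_lit 325) (C.pat (nat_lit 2) (nat_lit 35456791205) (nat_lit 7248113443696400985222058128903322927379056659)) (C.cons (nat_lit 69) (C.node (nat_lit 0) (nat_lit 6) (nat_lit 8) (C.cons (nat_lit 321) (C.node (nat_lit 0) (nat_lit 1) (nat_lit 8) (C.cons (nat_lit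 387) (C.node (nat_lit 0) (nat_lit 2) (nat_lit 8) C.nil) (C.cons (nat_lit 263) (C.pat (nat_lit 1) (nat_lit 2756950049) (nat_lit 10732570858190822661783945766629081393)) C.nil))) C.nil)) C.nil))) C.nil)) C.nil))) C.nil))) C.nil)) (C.cons (nat_lit 289) (C.node (nat_lit 0) (nat_lit 4) (nat_lit 5) (C.cons (nat_lit 561)
  (C.pat (nat_lit 1) (nat_lit 2607433009) (nat_lit 10732781923282654415480881541610539233)) (C.cons (nat_lit 49) (C.node (nat_lit 0) (nat_lit 5) (nat_lit 9) (C.cons (nat_lit 545) (C.ref (nat_lit 410) (nat_lit 205163983024656)) C.nil)) C.nil))) C.nil))) C.nil)) (C.cons (nat_lit 11) (C.node (nat_lit 0) (nat_lit 3) (nat_lit 5) (C.cons (nat_lit 297) (C.node (nat_lit 0) (nat_lit 1) (nat_lit 5) (C.cons (nat_lit 547) (C.node (nat_lit 0) (nat_lit 4) (nat_lit 5) (C.cons (nat_lit 49) (C.ref (nat_lit 411) (nat_lit 205163983024656)) C.nil)) (C.cons (nat_lit 35) (C.node (nat_lit 0) (nat_lit 4) (nat_lit 5) (C.cons (nat_lit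 561) (C.node (nat_lit 0) (nat_lit 1) (nat_lit 8) (C.cons (nat_lit 387) (C.node (nat_lit 0) (nat_lit 1) (nat_lit 2) (C.cons (nat_lit 519) (C.node (nat_lit 0) (nat_lit 2) (nat_lit 7) (C.cons (nat_lit 133) (C.node (nat_lit 0) (nat_lit 7) (nat_lit 9) (C.cons (nat_lit 641) (C.node (nat_lit 0) (nat_lit 2) (nat_lit 4) (C.cons (nat_lit 277) (C.pat (nat_lit 2) (nat_lit 40115614340) (nat_lit 11574218448855808298491065667652310933425162465)) (C.cons (nat_lit 85) (C.pat (nat_lit 1) (nat_lit 1537624353) (nat_lit 10732657693523832049133518997943553793)) (C.cons (nat_lit 21) (C.node (nat_lit 0) (nat_lit 2) (nat_lit 6) (C.cons (nat_lit 325) (C.pat (nat_lit 2) (nat_lit 39578870406) (nat_lit 11574218448855808297282140291068031910338167961)) (C.cons (nat_lit 69) (C.node (nat_lit 0) (nat_lit 2) (nat_lit 8) (C.cons (nat_lit 261) (C.node (nat_lit 0) (nat_lit 4) (nat_lit 6) (C.cons (nat_lit 337) (C.pat (nat_lit 0) (nat_lit 126511937) (nat_lit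 304318120127389217382401937967123)) C.nil)) C.nil)) C.nil))) C.nil)))) C.nil)) C.nil)) (C.cons (nat_lit 7) (C.node (nat_lit 0) (nat_lit 1) (nat_lit 9) (C.cons (nat_lit 515) (C.node (nat_lit 0) (nat_lit 2) (nat_lit 7) (C.cons (nat_lit 645) (C.node (nat_lit 0) (nat_lit 2) (nat_lit 4) (C.cons (nat_lit 277) (C.pat (nat_lit 1) (nat_lit 1501854514) (nat_lit 3349075921089048704261698853795335937)) (C.cons (nat_lit 85) (C.pat (nat_lit 1) (nat_lit 2506402610) (nat_lit 5509071414007452164940148895076911329)) (C.cons (nat_lit 21) (C.node (nat_lit 0) (nat_lit 2) (nat_lit 6) (C.cons (nat_lit 325) (C.pat (nat_lit 1) (nat_lit 965114450) (nat_lit 3349077822622957268315794218672000769)) (C.cons (nat_lit 69) (C.node (nat_lit 0) (nat_lit 2) (nat_lit 8) (C.cons (nat_lit 261) (C.node (nat_lit 0) (nat_lit 4) (nat_lit 6) (C.cons (nat_lit 337) (C.pat (nat_lit 0) (nat_lit 126511937) (nat_lit 304318120127389217382401937967123)) C.nil)) C.nil))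 C.nil))) C.nil)))) (C.cons (nat_lit 133) (C.node (nat_lit 0) (nat_lit 2) (nat_lit 9) (C.cons (nat_lit 517) (C.node (nat_lit 0) (nat_lit 7) (nat_lit 9) (C.cons (nat_lit 641) (C.node (nat_lit 0) (nat_lit 2) (nat_lit 4) (C.cons (nat_lit 277) (C.node (nat_lit 0) (nat_lit 2) (nat_lit 6) C.nil) (C.cons (nat_lit 85) (C.pat (nat_lit 1) (nat_lit 2506402610) (nat_lit 5509071414007452164940148895076911329)) C.nil))) C.nil)) C.nil)) C.nil))) C.nil)) C.nil))) (C.cons (nat_lit 263) (C.node (nat_lit 0) (nat_lit 7) (nat_lit 8) (C.cons (nat_lit 385) (C.node (nat_lit 0) (nat_lit 1) (nat_lit 7) (C.cons (nat_lit 643) (C.node (nat_lit 0) (nat_lit 2) (nat_lit 7) (C.cons (nat_lit 133) (C.node (nat_lit 0) (nat_lit 2) (nat_lit 9) (C.cons (nat_lit 517) (C.node (nat_lit 0) (nat_lit 2) (nat_lit 4) (C.cons (nat_lit 85) (C.pat (nat_lit 1) (nat_lit 2506402610) (nat_lit 5509071414007452164940148895076911329)) (C.cons (nat_lit 21) (C.node (nat_lit 0)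 (nat_lit 2) (nat_lit 6) (C.cons (nat_lit 69) (C.node (nat_lit 0) (nat_lit 4) (nat_lit 6) (C.cons (nat_lit 337) (C.pat (nat_lit 3) (nat_lit 26110737320) (nat_lit 50690297205577411916748208832370629095256035073)) C.nil)) C.nil)) C.nil))) C.nil)) C.nil)) (C.cons (nat_lit 131) (C.node (nat_lit 0) (nat_lit 1) (nat_lit 9) (C.cons (nat_lit 515) (C.node (nat_lit 0) (nat_lit 2) (nat_lit 4) (C.cons (nat_lit 85) (C.pat (nat_lit 1) (nat_lit 2506402610) (nat_lit 5509071414007452164940148895076911329)) (C.cons (nat_lit 21) (C.node (nat_lit 0) (nat_lit 2) (nat_lit 6) (C.cons (nat_lit 69)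
  (C.node (nat_lit 0) (nat_lit 2) (nat_lit 7) (C.cons (nat_lit 645) (C.node (nat_lit 0) (nat_lit 4) (nat_lit 6) (C.cons (nat_lit 337) (C.pat (nat_lit 3) (nat_lit 26110737320) (nat_lit 50690297205577411916748208832370629095256035073)) C.nil)) C.nil)) C.nil)) C.nil))) C.nil)) C.nil))) C.nil)) (C.cons (nat_lit 259) (C.node (nat_lit 0) (nat_lit 7) (nat_lit 8) (C.cons (nat_lit 389) (C.pat (nat_lit 0) (nat_lit 126507826) (nat_lit 304318120127389206123411457509389)) (C.cons (nat_lit 385) (C.node (nat_lit 0) (nat_lit 1) (nat_lit 2) (C.cons (nat_lit 519) (C.node (nat_lit 0) (nat_lit 1) (nat_lit 7) (C.cons (nat_lit 131) (C.node (nat_lit 0) (nat_lit 2) (nat_lit 7) (C.cons (nat_lit 133) (C.node (nat_lit 0) (nat_lit 7) (nat_lit 9) (C.cons (nat_lit 641) (C.node (nat_lit 0) (nat_lit 2) (nat_lit 4) (C.cons (nat_lit 277) (C.node (nat_lit 0) (nat_lit 2) (nat_lit 6) C.nil) (C.cons (nat_lit 85) (C.pat (nat_lit 1) (nat_lit 1537624353) (nat_lit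 10732657693523832049133518997943553793)) C.nil))) C.nil)) C.nil)) C.nil)) (C.cons (nat_lit 135) (C.node (nat_lit 0) (nat_lit 1) (nat_lit 9) (C.cons (nat_lit 515) (C.node (nat_lit 0) (nat_lit 2) (nat_lit 9) (C.cons (nat_lit 517) (C.node (nat_lit 0) (nat_lit 7) (nat_lit 9) (C.cons (nat_lit 641) (C.node (nat_lit 0) (nat_lit 2) (nat_lit 4) (C.cons (nat_lit 277) (C.node (nat_lit 0) (nat_lit 2) (nat_lit 6) C.nil) (C.cons (nat_lit 85) (C.pat (nat_lit 1) (nat_lit 2506402610) (nat_lit 5509071414007452164940148895076911329)) C.nil))) C.nil)) C.nil)) C.nil)) (C.cons (nat_lit 7) (C.node (nat_lit 0) (nat_lit 1) (nat_lit 7) (C.cons (nat_lit 643) (C.node (nat_lit 0) (nat_lit 2) (nat_lit 7) (C.cons (nat_lit 133) (C.node (nat_lit 0) (nat_lit 2) (nat_lit 9) (C.cons (nat_lit 517) (C.node (nat_lit 0) (nat_lit 2) (nat_lit 4) (C.cons (nat_lit 277) (C.node (nat_lit 0) (nat_lit 2) (nat_lit 6) C.nil) (C.cons (nat_lit 85) (C.pat (nat_lit 1) (nat_lit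 2506402610) (nat_lit 5509071414007452164940148895076911329)) C.nil))) C.nil)) C.nil)) (C.cons (nat_lit 131) (C.node (nat_lit 0) (nat_lit 1) (nat_lit 9) (C.cons (nat_lit 515) (C.node (nat_lit 0) (nat_lit 2) (nat_lit 7) (C.cons (nat_lit 645) (C.node (nat_lit 0) (nat_lit 2) (nat_lit 4) (C.cons (nat_lit 277) (C.pat (nat_lit 1) (nat_lit 1501854514) (nat_lit 3349075921089048704261698853795335937)) (C.cons (nat_lit 85) (C.pat (nat_lit 1) (nat_lit 2506402610) (nat_lit 5509071414007452164940148895076911329)) C.nil))) C.nil)) C.nil)) C.nil))) C.nil)))) C.nil))) C.nil)))) (C.cons (nat_lit 49) (C.node (nat_lit 0) (nat_lit 5) (nat_lit 9) (C.cons (nat_lit 545) (C.ref (nat_lit 412) (nat_lit 205163983024656)) C.nil)) C.nil))) C.nil))) (C.cons (nat_lit 41) (C.node (nat_lit 0) (nat_lit 3) (nat_lit 8) (C.cons (nat_lit 265) (C.node (nat_lit 0) (nat_lit 1) (nat_lit 5) (C.cons (nat_lit 547) (C.node (nat_lit 0) (nat_lit 4) (nat_lit 5) (C.cons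 (nat_lit 305) (C.ref (nat_lit 407) (nat_lit 188606848586256)) (C.cons (nat_lit 49) (C.node (nat_lit 0) (nat_lit 5) (nat_lit 8) (C.cons (nat_lit 289) (C.ref (nat_lit 413) (nat_lit 205163983024656)) C.nil)) C.nil))) (C.cons (nat_lit 291) (C.node (nat_lit 0) (nat_lit 4) (nat_lit 5) (C.cons (nat_lit 561) (C.ref (nat_lit 408) (nat_lit 188671273095696)) (C.cons (nat_lit 49) (C.node (nat_lit 0) (nat_lit 5) (nat_lit 9) (C.cons (nat_lit 545) (C.ref (nat_lit 414) (nat_lit 205163983024656)) C.nil)) C.nil))) (C.cons (nat_lit 35) (C.node (nat_lit 0) (nat_lit 5) (nat_lit 8) (C.cons (nat_lit 305) (C.node (nat_lit 0) (nat_lit 5) (nat_lit 9) (C.cons (nat_lit 545) (C.node (nat_lit 0) (nat_lit 4) (nat_lit 6) (C.cons (nat_lit 85) (C.node (nat_lit 0) (nat_lit 4) (nat_lit 9) (C.cons (nat_lit 529) (C.node (nat_lit 0) (nat_lit 6) (nat_lit 8) (C.cons (nat_lit 321) (C.node (nat_lit 0) (nat_lit 2) (nat_lit 9) (C.cons (nat_lit 645) (C.node (nat_lit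 0) (nat_lit 1) (nat_lit 9) C.nil) (C.cons (nat_lit 519) (C.pat (nat_lit 1) (nat_lit 2741287186) (nat_lit 10701417077090388580445022562804761161)) C.nil))) C.nil)) C.nil)) (C.cons (nat_lit 81) (C.node (nat_lit 0) (nat_lit 2) (nat_lit 4)
  (C.cons (nat_lit 533) (C.node (nat_lit 0) (nat_lit 1) (nat_lit 9) (C.cons (nat_lit 643) (C.node (nat_lit 0) (nat_lit 1) (nat_lit 2) (C.cons (nat_lit 263) (C.node (nat_lit 0) (nat_lit 2) (nat_lit 6) (C.cons (nat_lit 69) (C.node (nat_lit 0) (nat_lit 2) (nat_lit 7) C.nil) C.nil)) (C.cons (nat_lit 7) (C.node (nat_lit 0) (nat_lit 1) (nat_lit 8) C.nil) C.nil))) (C.cons (nat_lit 515) (C.node (nat_lit 0) (nat_lit 7) (nat_lit 9) C.nil) C.nil))) (C.cons (nat_lit 21) (C.node (nat_lit 0) (nat_lit 4) (nat_lit 9) C.nil) C.nil))) C.nil))) C.nil)) (C.cons (nat_lit 289) (C.node (nat_lit 0) (nat_lit 4) (nat_lit 5) (C.cons (nat_lit 561) (C.node (nat_lit 0) (nat_lit 1) (nat_lit 8) (C.cons (nat_lit 387)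 (C.node (nat_lit 0) (nat_lit 1) (nat_lit 2) (C.cons (nat_lit 519) (C.node (nat_lit 0) (nat_lit 2) (nat_lit 7) (C.cons (nat_lit 133) (C.node (nat_lit 0) (nat_lit 7) (nat_lit 9) (C.cons (nat_lit 641) (C.node (nat_lit 0) (nat_lit 2) (nat_lit 4) (C.cons (nat_lit 277) (C.node (nat_lit 0) (nat_lit 2) (nat_lit 6) C.nil) (C.cons (nat_lit 85) (C.pat (nat_lit 1) (nat_lit 1537624353) (nat_lit 10732657693523832049133518997943553793)) C.nil))) C.nil)) C.nil)) (C.cons (nat_lit 7) (C.node (nat_lit 0) (nat_lit 1) (nat_lit 9) (C.cons (nat_lit 515) (C.node (nat_lit 0) (nat_lit 2) (nat_lit 7) (C.cons (nat_lit 645) (C.node (nat_lit 0) (nat_lit 2) (nat_lit 8) (C.cons (nat_lit 325) (C.node (nat_lit 0) (nat_lit 2) (nat_lit 4) C.nil) (C.cons (nat_lit 277) (C.node (nat_lit 0) (nat_lit 2) (nat_lit 6) C.nil) C.nil))) C.nil)) C.nil)) C.nil))) (C.cons (nat_lit 263) (C.node (nat_lit 0) (nat_lit 7) (nat_lit 8) (C.cons (nat_lit 385) (C.node (nat_lit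 0) (nat_lit 1) (nat_lit 7) (C.cons (nat_lit 643) (C.node (nat_lit 0) (nat_lit 2) (nat_lit 7) (C.cons (nat_lit 133) (C.node (nat_lit 0) (nat_lit 2) (nat_lit 9) C.nil) C.nil)) (C.cons (nat_lit 131) (C.node (nat_lit 0) (nat_lit 1) (nat_lit 9) C.nil) C.nil))) C.nil)) (C.cons (nat_lit 259) (C.node (nat_lit 0) (nat_lit 7) (nat_lit 8) (C.cons (nat_lit 389) (C.node (nat_lit 0) (nat_lit 1) (nat_lit 2) (C.cons (nat_lit 519) (C.node (nat_lit 0) (nat_lit 1) (nat_lit 7) (C.cons (nat_lit 131) (C.node (nat_lit 0) (nat_lit 7) (nat_lit 9) C.nil) C.nil)) (C.cons (nat_lit 7) (C.node (nat_lit 0) (nat_lit 2) (nat_lit 9) C.nil) C.nil))) (C.cons (nat_lit 385) (C.node (nat_lit 0) (nat_lit 1) (nat_lit 2) (C.cons (nat_lit 519) (C.node (nat_lit 0) (nat_lit 1) (nat_lit 7) C.nil) (C.cons (nat_lit 135) (C.node (nat_lit 0) (nat_lit 1) (nat_lit 9) C.nil) C.nil))) C.nil))) C.nil)))) (C.cons (nat_lit 49) (C.node (nat_lit 0) (nat_lit 5) (nat_lit 9) (C.cons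 (nat_lit 545) (C.node (nat_lit 0) (nat_lit 4) (nat_lit 9) (C.cons (nat_lit 533) (C.node (nat_lit 0) (nat_lit 1) (nat_lit 9) (C.cons (nat_lit 643) (C.node (nat_lit 0) (nat_lit 1) (nat_lit 2) (C.cons (nat_lit 263) (C.node (nat_lit 0) (nat_lit 2) (nat_lit 6) C.nil) C.nil)) C.nil)) C.nil)) C.nil)) C.nil))) C.nil))) C.nil)))) C.nil)) C.nil))) C.nil)))) (List.cons (C.node (nat_lit 0) (nat_lit 7) (nat_lit 9) (C.cons (nat_lit 645) (C.node (nat_lit 0) (nat_lit 1) (nat_lit 2) (C.cons (nat_lit 263) (C.node (nat_lit 0) (nat_lit 1) (nat_lit 7) (C.cons (nat_lit 131) (C.node (nat_lit 0) (nat_lit 7) (nat_lit 8) (C.cons (nat_lit 385) (C.node (nat_lit 0) (nat_lit 2) (nat_lit 4) (C.cons (nat_lit 85) (C.pat (nat_lit 2) (nat_lit 34698868130) (nat_lit 6623721841974561208389212190438656580690184211)) (C.cons (nat_lit 21) (C.node (nat_lit 0) (nat_lit 2) (nat_lit 6) C.nil) C.nil))) C.nil)) C.nil)) (C.cons (nat_lit 7) (C.node (nat_lit 0) (nat_lit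 1) (nat_lit 7) (C.cons (nat_lit 387) (C.node (nat_lit 0) (nat_lit 4) (nat_lit 9) (C.cons (nat_lit 593) (C.node (nat_lit 0) (nat_lit 2) (nat_lit 4) (C.cons (nat_lit 277) (C.pat (nat_lit 1) (nat_lit 682916145) (nat_lit 2009440832952856311336303711206575873)) (C.cons (nat_lit 21) (C.node (nat_lit 0) (nat_lit 4) (nat_lit 8) (C.cons (nat_lit 273) (C.node (nat_lit 0) (nat_lit 2) (nat_lit 6) (C.cons (nat_lit 325)
  (C.pat (nat_lit 2) (nat_lit 39279042951) (nat_lit 11663390804382292217461815515435894061626754085)) C.nil)) C.nil)) C.nil))) (C.cons (nat_lit 529) (C.node (nat_lit 0) (nat_lit 6) (nat_lit 9) (C.cons (nat_lit 577) (C.node (nat_lit 0) (nat_lit 2) (nat_lit 4) (C.cons (nat_lit 85) (C.node (nat_lit 0) (nat_lit 2) (nat_lit 8) C.nil) (C.cons (nat_lit 277) (C.pat (nat_lit 1) (nat_lit 682916145) (nat_lit 2009440832952856311336303711206575873)) C.nil))) C.nil)) C.nil))) (C.cons (nat_lit 131) (C.node (nat_lit 0) (nat_lit 1)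 (nat_lit 8) (C.cons (nat_lit 259) (C.node (nat_lit 0) (nat_lit 7) (nat_lit 8) C.nil) C.nil)) C.nil))) C.nil))) (C.cons (nat_lit 641) (C.node (nat_lit 0) (nat_lit 1) (nat_lit 2) (C.cons (nat_lit 263) (C.node (nat_lit 0) (nat_lit 1) (nat_lit 7) (C.cons (nat_lit 131) (C.node (nat_lit 0) (nat_lit 2) (nat_lit 7) (C.cons (nat_lit 133) (C.node (nat_lit 0) (nat_lit 7) (nat_lit 8) C.nil) C.nil)) C.nil)) (C.cons (nat_lit 135) (C.node (nat_lit 0) (nat_lit 1) (nat_lit 8) (C.cons (nat_lit 259) (C.node (nat_lit 0) (nat_lit 7) (nat_lit 8) (C.cons (nat_lit 385) (C.node (nat_lit 0) (nat_lit 2) (nat_lit 8) (C.cons (nat_lit 325) (C.node (nat_lit 0) (nat_lit 4) (nat_lit 8) C.nil) (C.cons (nat_lit 277) (C.node (nat_lit 0) (nat_lit 6) (nat_lit 8) C.nil) C.nil))) C.nil)) C.nil)) (C.cons (nat_lit 7) (C.node (nat_lit 0) (nat_lit 1) (nat_lit 7) (C.cons (nat_lit 387) (C.node (nat_lit 0) (nat_lit 2) (nat_lit 7) (C.cons (nat_lit 133) (C.node (nat_lit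 0) (nat_lit 2) (nat_lit 8) (C.cons (nat_lit 325) (C.node (nat_lit 0) (nat_lit 4) (nat_lit 8) C.nil) (C.cons (nat_lit 277) (C.node (nat_lit 0) (nat_lit 6) (nat_lit 8) C.nil) C.nil))) C.nil)) (C.cons (nat_lit 131) (C.node (nat_lit 0) (nat_lit 1) (nat_lit 8) C.nil) C.nil))) C.nil)))) C.nil))) (List.cons (C.node (nat_lit 0) (nat_lit 1) (nat_lit 5) (C.cons (nat_lit 547) (C.node (nat_lit 0) (nat_lit 4) (nat_lit 5) (C.cons (nat_lit 49) (C.ref (nat_lit 416) (nat_lit 188671273095696)) C.nil)) (C.cons (nat_lit 35) (C.node (nat_lit 0) (nat_lit 4) (nat_lit 5) (C.cons (nat_lit 561) (C.ref (nat_lit 412) (nat_lit 188671273095696)) (C.cons (nat_lit 49) (C.node (nat_lit 0) (nat_lit 5) (nat_lit 9) (C.cons (nat_lit 545) (C.node (nat_lit 0) (nat_lit 1) (nat_lit 8) (C.cons (nat_lit 387) (C.node (nat_lit 0) (nat_lit 1) (nat_lit 2) (C.cons (nat_lit 519) (C.node (nat_lit 0) (nat_lit 2) (nat_lit 7) (C.cons (nat_lit 133) (C.node (nat_lit 0) (nat_lit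 7) (nat_lit 9) C.nil) C.nil)) (C.cons (nat_lit 7) (C.node (nat_lit 0) (nat_lit 1) (nat_lit 9) C.nil) C.nil))) (C.cons (nat_lit 263) (C.node (nat_lit 0) (nat_lit 7) (nat_lit 8) (C.cons (nat_lit 385) (C.node (nat_lit 0) (nat_lit 1) (nat_lit 7) (C.cons (nat_lit 643) (C.node (nat_lit 0) (nat_lit 2) (nat_lit 7) C.nil) C.nil)) C.nil)) (C.cons (nat_lit 259) (C.node (nat_lit 0) (nat_lit 7) (nat_lit 8) (C.cons (nat_lit 389) (C.pat (nat_lit 0) (nat_lit 126507826) (nat_lit 304318120127389206123411457509389)) C.nil)) C.nil)))) C.nil)) C.nil))) C.nil))) (List.cons (C.node (nat_lit 0) (nat_lit 4) (nat_lit 5) (C.cons (nat_lit 305) (C.node (nat_lit 0) (nat_lit 2) (nat_lit 8) (C.cons (nat_lit 325) (C.pat (nat_lit 1) (nat_lit 3124258593) (nat_lit 5665100188356539355913974335792284825)) (C.cons (nat_lit 261) (C.node (nat_lit 0) (nat_lit 6) (nat_lit 8) (C.cons (nat_lit 321) (C.node (nat_lit 0) (nat_lit 2) (nat_lit 6) (C.cons (nat_lit 581)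 (C.node (nat_lit 0) (nat_lit 2) (nat_lit 4) C.nil) (C.cons (nat_lit 85) (C.pat (nat_lit 2) (nat_lit 35739050420) (nat_lit 5955000301768295509104058978313977694361158693)) C.nil))) C.nil)) C.nil))) (C.cons (nat_lit 49) (C.node (nat_lit 0) (nat_lit 5) (nat_lit 8) (C.cons (nat_lit 289) (C.node (nat_lit 0) (nat_lit 2) (nat_lit 8) (C.cons (nat_lit 325) (C.pat (nat_lit 1) (nat_lit 3124258593) (nat_lit 5665100188356539355913974335792284825)) (C.cons (nat_lit 277) (C.node (nat_lit 0) (nat_lit 6) (nat_lit 8) C.nil) C.nil))) C.nil)) C.nil))) (List.cons (C.node (nat_lit 0) (nat_lit 1) (nat_lit 2) (C.cons (nat_lit 135) (C.node (nat_lit 0) (nat_lit 7) (nat_lit 8)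
  (C.cons (nat_lit 385) (C.node (nat_lit 0) (nat_lit 7) (nat_lit 9) (C.cons (nat_lit 641) (C.ref (nat_lit 418) (nat_lit 205163983024656)) C.nil)) C.nil)) (C.cons (nat_lit 7) (C.node (nat_lit 0) (nat_lit 1) (nat_lit 7) (C.cons (nat_lit 131) (C.node (nat_lit 0) (nat_lit 4) (nat_lit 5) (C.cons (nat_lit 305) (C.node (nat_lit 0) (nat_lit 6) (nat_lit 8) (C.cons (nat_lit 325) (C.pat (nat_lit 3) (nat_lit 5425670840) (nat_lit 24330513534675433485474556971810008230623776513)) (C.cons (nat_lit 321) (C.node (nat_lit 0) (nat_lit 2) (nat_lit 8) (C.cons (nat_lit 389) (C.node (nat_lit 0) (nat_lit 7) (nat_lit 9) (C.cons (nat_lit 641) (C.node (nat_lit 0) (nat_lit 2) (nat_lit 6) (C.cons (nat_lit 581) (C.node (nat_lit 0) (nat_lit 2) (nat_lit 4) C.nil) (C.cons (nat_lit 85) (C.pat (nat_lit 2) (nat_lit 35739050420) (nat_lit 5955000301768295509104058978313977694361158693)) C.nil))) C.nil)) (C.cons (nat_lit 261) (C.node (nat_lit 0) (nat_lit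 7) (nat_lit 8) C.nil) C.nil))) C.nil))) (C.cons (nat_lit 49) (C.node (nat_lit 0) (nat_lit 5) (nat_lit 8) (C.cons (nat_lit 289) (C.node (nat_lit 0) (nat_lit 7) (nat_lit 8) (C.cons (nat_lit 389) (C.node (nat_lit 0) (nat_lit 7) (nat_lit 9) C.nil) C.nil)) C.nil)) C.nil))) C.nil)) C.nil))) (List.cons (C.node (nat_lit 0) (nat_lit 5) (nat_lit 8) (C.cons (nat_lit 305) (C.node (nat_lit 0) (nat_lit 5) (nat_lit 9) (C.cons (nat_lit 545) (C.ref (nat_lit 413) (nat_lit 188606848586256)) C.nil)) (C.cons (nat_lit 289) (C.node (nat_lit 0) (nat_lit 4) (nat_lit 5) (C.cons (nat_lit 561) (C.ref (nat_lit 414) (nat_lit 188671273095696)) (C.cons (nat_lit 49) (C.node (nat_lit 0) (nat_lit 5) (nat_lit 9) (C.cons (nat_lit 545) (C.node (nat_lit 0) (nat_lit 7) (nat_lit 8) (C.cons (nat_lit 389) (C.node (nat_lit 0) (nat_lit 1) (nat_lit 2) (C.cons (nat_lit 519) (C.node (nat_lit 0) (nat_lit 1) (nat_lit 7) C.nil) C.nil)) C.nil)) C.nil)) C.nil))) C.nil)))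 List.nil))))))

theorem ok12_415 : okL par12 (nat_lit 421) c12_415 (nat_lit 415) = true := by decide +kernel

noncomputable def c12_421 : List C :=
  (List.cons (C.node (nat_lit 0) (nat_lit 1) (nat_lit 5) (C.cons (nat_lit 291) (C.node (nat_lit 0) (nat_lit 3) (nat_lit 5) (C.cons (nat_lit 41) (C.node (nat_lit 0) (nat_lit 3) (nat_lit 8) (C.cons (nat_lit 329) (C.node (nat_lit 0) (nat_lit 1) (nat_lit 3) (C.cons (nat_lit 523) (C.node (nat_lit 0) (nat_lit 1) (nat_lit 6) (C.cons (nat_lit 71) (C.node (nat_lit 0) (nat_lit 1) (nat_lit 7) (C.cons (nat_lit 131) (C.node (nat_lit 0) (nat_lit 4) (nat_lit 6) (C.cons (nat_lit 81) (C.node (nat_lit 0) (nat_lit 6) (nat_lit 9) (C.cons (nat_lit 577) (C.node (nat_lit 0) (nat_lit 2) (nat_lit 4) (C.cons (nat_lit 277) (C.pat (nat_lit 2) (nat_lit 39498200449) (nat_lit 12510812316299886666933990920480415764541802509)) (C.cons (nat_lit 21) (C.node (nat_lit 0) (nat_lit 4) (nat_lit 8) C.nil) C.nil)))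 C.nil)) C.nil)) C.nil)) (C.cons (nat_lit 67) (C.node (nat_lit 0) (nat_lit 1) (nat_lit 2) (C.cons (nat_lit 135) (C.node (nat_lit 0) (nat_lit 7) (nat_lit 8) (C.cons (nat_lit 385) (C.node (nat_lit 0) (nat_lit 7) (nat_lit 9) (C.cons (nat_lit 641) (C.node (nat_lit 0) (nat_lit 2) (nat_lit 8) (C.cons (nat_lit 277) (C.pat (nat_lit 1) (nat_lit 2874689313) (nat_lit 10732781922315525123117510090921674977)) (C.cons (nat_lit 261) (C.node (nat_lit 0) (nat_lit 4) (nat_lit 8) C.nil) C.nil))) C.nil)) C.nil)) (C.cons (nat_lit 7) (C.node (nat_lit 0) (nat_lit 1) (nat_lit 7) (C.cons (nat_lit 131) (C.node (nat_lit 0) (nat_lit 4) (nat_lit 6) (C.cons (nat_lit 85) (C.node (nat_lit 0) (nat_lit 4) (nat_lit 8) (C.cons (nat_lit 273) (C.node (nat_lit 0) (nat_lit 6) (nat_lit 9) C.nil) C.nil)) (C.cons (nat_lit 81) (C.node (nat_lit 0) (nat_lit 2) (nat_lit 4) (C.cons (nat_lit 277) (C.node (nat_lit 0) (nat_lit 7) (nat_lit 8) C.nil) C.nil)) C.nil))) C.nil))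 C.nil))) C.nil))) (C.cons (nat_lit 11) (C.node (nat_lit 0) (nat_lit 3) (nat_lit 9) (C.cons (nat_lit 521) (C.node (nat_lit 0) (nat_lit 4) (nat_lit 6) (C.cons (nat_lit 85) (C.node (nat_lit 0) (nat_lit 4) (nat_lit 8) (C.cons (nat_lit 273) (C.node (nat_lit 0) (nat_lit 1) (nat_lit 6) (C.cons (nat_lit 579) (C.node (nat_lit 0) (nat_lit 1) (nat_lit 2) (C.cons (nat_lit 135) (C.pat (nat_lit 6) (nat_lit 168453039131) (nat_lit 3322006135091647555068176362877899269609976543511089)) (C.cons (nat_lit 7) (C.node (nat_lit 0) (nat_lit 1) (nat_lit 7) C.nil) C.nil))) (C.cons (nat_lit 67) (C.node (nat_lit 0) (nat_lit 6) (nat_lit 9) C.nil) C.nil))) C.nil)) (C.cons (nat_lit 81) (C.node (nat_lit 0) (nat_lit 2) (nat_lit 4) (C.cons (nat_lit 277) (C.node (nat_lit 0) (nat_lit 7) (nat_lit 8) (C.cons (nat_lit 385) (C.node (nat_lit 0) (nat_lit 1) (nat_lit 6) (C.cons (nat_lit 579) (C.node (nat_lit 0) (nat_lit 2) (nat_lit 6) C.nil) (C.cons (nat_lit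 71) (C.pat (nat_lit 2) (nat_lit 44395771010) (nat_lit 26248089053080523130046741227534932063640946913)) C.nil))) C.nil)) (C.cons (nat_lit 21) (C.node (nat_lit 0) (nat_lit 4) (nat_lit 8) C.nil) C.nil))) C.nil))) C.nil)) C.nil))) (C.cons (nat_lit 265) (C.node (nat_lit 0) (nat_lit 7) (nat_lit 8) (C.cons (nat_lit 389) (C.node (nat_lit 0) (nat_lit 1) (nat_lit 7) (C.cons (nat_lit 643) (C.node (nat_lit 0) (nat_lit 1) (nat_lit 2) (C.cons (nat_lit 71) (C.node (nat_lit 0) (nat_lit 1) (nat_lit 3) (C.cons (nat_lit 11) (C.node (nat_lit 0) (nat_lit 2) (nat_lit 4) (C.cons (nat_lit 21) (C.node (nat_lit 0) (nat_lit 2) (nat_lit 9) (C.cons (nat_lit 517) (C.node (nat_lit 0) (nat_lit 3) (nat_lit 6) (C.cons (nat_lit 585) (C.node (nat_lit 0) (nat_lit 4) (nat_lit 6) (C.cons (nat_lit 337) (C.pat (nat_lit 2) (nat_lit 11426629237) (nat_lit 1583571716768968629139180688201831311602683649)) C.nil)) C.nil)) C.nil)) C.nil)) C.nil)) (C.cons (nat_lit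 7) (C.node (nat_lit 0) (nat_lit 1) (nat_lit 3) (C.cons (nat_lit 75) (C.node (nat_lit 0) (nat_lit 3) (nat_lit 9) (C.cons (nat_lit 521) (C.node (nat_lit 0) (nat_lit 2) (nat_lit 4) (C.cons (nat_lit 85) (C.pat (nat_lit 6) (nat_lit 232609117211) (nat_lit 3322007562339340260941540195163849690224325127504433)) (C.cons (nat_lit 21) (C.node (nat_lit 0) (nat_lit 2) (nat_lit 6) (C.cons (nat_lit 581)
  (C.node (nat_lit 0) (nat_lit 4) (nat_lit 6) (C.cons (nat_lit 337) (C.pat (nat_lit 1) (nat_lit 1217821266) (nat_lit 2019830178563222867751918422068367105)) C.nil)) C.nil)) C.nil))) C.nil)) (C.cons (nat_lit 11) (C.node (nat_lit 0) (nat_lit 1) (nat_lit 6) (C.cons (nat_lit 67) (C.node (nat_lit 0) (nat_lit 2) (nat_lit 4) (C.cons (nat_lit 85) (C.node (nat_lit 0) (nat_lit 2) (nat_lit 9) C.nil) C.nil)) C.nil)) C.nil))) C.nil))) (C.cons (nat_lit 131) (C.node (nat_lit 0) (nat_lit 7) (nat_lit 9) (C.cons (nat_lit 641) (C.node (nat_lit 0) (nat_lit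 2) (nat_lit 4) (C.cons (nat_lit 85) (C.node (nat_lit 0) (nat_lit 4) (nat_lit 8) (C.cons (nat_lit 273) (C.node (nat_lit 0) (nat_lit 6) (nat_lit 8) C.nil) C.nil)) (C.cons (nat_lit 21) (C.node (nat_lit 0) (nat_lit 4) (nat_lit 6) (C.cons (nat_lit 337) (C.node (nat_lit 0) (nat_lit 1) (nat_lit 2) (C.cons (nat_lit 519) (C.node (nat_lit 0) (nat_lit 2) (nat_lit 6) C.nil) (C.cons (nat_lit 71) (C.node (nat_lit 0) (nat_lit 2) (nat_lit 9) C.nil) C.nil))) C.nil)) C.nil))) C.nil)) C.nil))) (C.cons (nat_lit 385) (C.node (nat_lit 0) (nat_lit 1) (nat_lit 3) (C.cons (nat_lit 523) (C.node (nat_lit 0) (nat_lit 3) (nat_lit 6) (C.cons (nat_lit 73) (C.node (nat_lit 0) (nat_lit 1) (nat_lit 6) (C.cons (nat_lit 71) (C.node (nat_lit 0) (nat_lit 1) (nat_lit 7) (C.cons (nat_lit 131) (C.node (nat_lit 0) (nat_lit 6) (nat_lit 9) C.nil) C.nil)) (C.cons (nat_lit 67) (C.node (nat_lit 0) (nat_lit 1) (nat_lit 2) (C.cons (nat_lit 135) (C.node (nat_lit 0)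 (nat_lit 7) (nat_lit 9) C.nil) C.nil)) C.nil))) C.nil)) (C.cons (nat_lit 75) (C.node (nat_lit 0) (nat_lit 3) (nat_lit 9) (C.cons (nat_lit 521) (C.node (nat_lit 0) (nat_lit 6) (nat_lit 9) (C.cons (nat_lit 581) (C.node (nat_lit 0) (nat_lit 1) (nat_lit 2) (C.cons (nat_lit 135) (C.node (nat_lit 0) (nat_lit 1) (nat_lit 9) (C.cons (nat_lit 515) (C.node (nat_lit 0) (nat_lit 7) (nat_lit 9) C.nil) C.nil)) (C.cons (nat_lit 7) (C.node (nat_lit 0) (nat_lit 2) (nat_lit 7) C.nil) C.nil))) (C.cons (nat_lit 577) (C.node (nat_lit 0) (nat_lit 1) (nat_lit 2) (C.cons (nat_lit 519) (C.node (nat_lit 0) (nat_lit 1) (nat_lit 7) C.nil) (C.cons (nat_lit 135) (C.node (nat_lit 0) (nat_lit 1) (nat_lit 9) C.nil) C.nil))) C.nil))) C.nil)) (C.cons (nat_lit 11) (C.node (nat_lit 0) (nat_lit 3) (nat_lit 6) (C.cons (nat_lit 585) (C.node (nat_lit 0) (nat_lit 1) (nat_lit 6) (C.cons (nat_lit 71) (C.node (nat_lit 0) (nat_lit 1) (nat_lit 7) (C.cons (nat_lit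 643) (C.node (nat_lit 0) (nat_lit 2) (nat_lit 7) (C.cons (nat_lit 133) (C.node (nat_lit 0) (nat_lit 2) (nat_lit 9) C.nil) C.nil)) (C.cons (nat_lit 131) (C.node (nat_lit 0) (nat_lit 1) (nat_lit 9) C.nil) C.nil))) (C.cons (nat_lit 67) (C.node (nat_lit 0) (nat_lit 1) (nat_lit 2) (C.cons (nat_lit 519) (C.node (nat_lit 0) (nat_lit 1) (nat_lit 7) C.nil) (C.cons (nat_lit 135) (C.node (nat_lit 0) (nat_lit 1) (nat_lit 9) C.nil) C.nil))) C.nil))) (C.cons (nat_lit 73) (C.node (nat_lit 0) (nat_lit 3) (nat_lit 9) C.nil) C.nil))) C.nil)))) C.nil))) C.nil))) C.nil)) (C.cons (nat_lit 43) (C.node (nat_lit 0) (nat_lit 5) (nat_lit 8) (C.cons (nat_lit 289) (C.node (nat_lit 0) (nat_lit 3) (nat_lit 8) (C.cons (nat_lit 329) (C.node (nat_lit 0) (nat_lit 3) (nat_lit 9) (C.cons (nat_lit 521) (C.node (nat_lit 0) (nat_lit 4) (nat_lit 6) (C.cons (nat_lit 85) (C.node (nat_lit 0) (nat_lit 4) (nat_lit 8) (C.cons (nat_lit 273) (C.node (nat_lit 0) (nat_lit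 1) (nat_lit 6) (C.cons (nat_lit 579) (C.pat (nat_lit 2) (nat_lit 26358757716) (nat_lit 12912146107600215456465442483126069459378309133)) (C.cons (nat_lit 67) (C.node (nat_lit 0) (nat_lit 6) (nat_lit 9) (C.cons (nat_lit 577) (C.node (nat_lit 0) (nat_lit 1) (nat_lit 8) (C.cons (nat_lit 387) (C.node (nat_lit 0) (nat_lit 2) (nat_lit 8) C.nil) (C.cons (nat_lit 263) (C.node (nat_lit 0) (nat_lit 7) (nat_lit 8) C.nil) C.nil))) C.nil)) C.nil))) C.nil)) (C.cons (nat_lit 81) (C.node (nat_lit 0) (nat_lit 2) (nat_lit 4) (C.cons (nat_lit 277) (C.node (nat_lit 0) (nat_lit 1) (nat_lit 8) (C.cons (nat_lit 387) (C.node (nat_lit 0) (nat_lit 2) (nat_lit 7)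
  (C.cons (nat_lit 645) (C.pat (nat_lit 2) (nat_lit 24026198900) (nat_lit 959063736162026760131361417865629423252344577)) (C.cons (nat_lit 133) (C.node (nat_lit 0) (nat_lit 7) (nat_lit 9) (C.cons (nat_lit 641) (C.node (nat_lit 0) (nat_lit 1) (nat_lit 2) (C.cons (nat_lit 519) (C.pat (nat_lit 1) (nat_lit 2756950305) (nat_lit 10732570858190822661783946866140709425)) (C.cons (nat_lit 71) (C.pat (nat_lit 1) (nat_lit 934577697) (nat_lit 2009512138299113320069008667159365857)) C.nil))) C.nil)) C.nil))) (C.cons (nat_lit 259) (C.node (nat_lit 0) (nat_lit 7) (nat_lit 8) (C.cons (nat_lit 385) (C.node (nat_lit 0) (nat_lit 1) (nat_lit 6) (C.cons (nat_lit 579) (C.node (nat_lit 0) (nat_lit 2) (nat_lit 6) C.nil) (C.cons (nat_lit 71) (C.pat (nat_lit 3) (nat_lit 19999845170) (nat_lit 46096947356045478170246867180619044846507067405)) C.nil))) C.nil)) C.nil))) (C.cons (nat_lit 21) (C.node (nat_lit 0) (nat_lit 4) (nat_lit 8) (C.cons (nat_lit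 273) (C.node (nat_lit 0) (nat_lit 1) (nat_lit 6) (C.cons (nat_lit 579) (C.node (nat_lit 0) (nat_lit 2) (nat_lit 6) C.nil) (C.cons (nat_lit 71) (C.node (nat_lit 0) (nat_lit 6) (nat_lit 9) C.nil) C.nil))) C.nil)) C.nil))) C.nil))) C.nil)) (C.cons (nat_lit 265) (C.node (nat_lit 0) (nat_lit 3) (nat_lit 6) (C.cons (nat_lit 585) (C.node (nat_lit 0) (nat_lit 1) (nat_lit 6) (C.cons (nat_lit 323) (C.node (nat_lit 0) (nat_lit 2) (nat_lit 6) (C.cons (nat_lit 85) (C.pat (nat_lit 1) (nat_lit 2506402610) (nat_lit 5509071414007452164940148895076911329)) (C.cons (nat_lit 69) (C.node (nat_lit 0) (nat_lit 4) (nat_lit 6) (C.cons (nat_lit 81) (C.node (nat_lit 0) (nat_lit 2) (nat_lit 4) (C.cons (nat_lit 277) (C.node (nat_lit 0) (nat_lit 7) (nat_lit 8) (C.cons (nat_lit 385) (C.node (nat_lit 0) (nat_lit 1) (nat_lit 2) (C.cons (nat_lit 519) (C.pat (nat_lit 1) (nat_lit 2756950305) (nat_lit 10732570858190822661783946866140709425)) (C.cons (nat_lit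 135) (C.node (nat_lit 0) (nat_lit 1) (nat_lit 9) C.nil) C.nil))) C.nil)) (C.cons (nat_lit 21) (C.node (nat_lit 0) (nat_lit 4) (nat_lit 8) C.nil) C.nil))) C.nil)) C.nil))) (C.cons (nat_lit 71) (C.pat (nat_lit 2) (nat_lit 28355899731) (nat_lit 1583713951600035984509064321081503862812774145)) (C.cons (nat_lit 67) (C.node (nat_lit 0) (nat_lit 1) (nat_lit 8) (C.cons (nat_lit 387) (C.node (nat_lit 0) (nat_lit 1) (nat_lit 2) (C.cons (nat_lit 519) (C.pat (nat_lit 1) (nat_lit 2756950305) (nat_lit 10732570858190822661783946866140709425)) (C.cons (nat_lit 7) (C.node (nat_lit 0) (nat_lit 1) (nat_lit 9) (C.cons (nat_lit 515) (C.node (nat_lit 0) (nat_lit 2) (nat_lit 7) (C.cons (nat_lit 645) (C.node (nat_lit 0) (nat_lit 2) (nat_lit 8) (C.cons (nat_lit 325) (C.node (nat_lit 0) (nat_lit 2) (nat_lit 4) C.nil) (C.cons (nat_lit 277) (C.pat (nat_lit 2) (nat_lit 23928009140) (nat_lit 959633385438833168972766385707043410505040517)) C.nil)))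 C.nil)) C.nil)) C.nil))) (C.cons (nat_lit 263) (C.node (nat_lit 0) (nat_lit 7) (nat_lit 8) (C.cons (nat_lit 385) (C.node (nat_lit 0) (nat_lit 1) (nat_lit 7) (C.cons (nat_lit 643) (C.node (nat_lit 0) (nat_lit 2) (nat_lit 7) (C.cons (nat_lit 133) (C.node (nat_lit 0) (nat_lit 2) (nat_lit 9) C.nil) C.nil)) (C.cons (nat_lit 131) (C.node (nat_lit 0) (nat_lit 1) (nat_lit 9) C.nil) C.nil))) C.nil)) (C.cons (nat_lit 259) (C.node (nat_lit 0) (nat_lit 7) (nat_lit 8) (C.cons (nat_lit 389) (C.node (nat_lit 0) (nat_lit 1) (nat_lit 2) (C.cons (nat_lit 519) (C.pat (nat_lit 1) (nat_lit 2756950305) (nat_lit 10732570858190822661783946866140709425)) (C.cons (nat_lit 7) (C.node (nat_lit 0) (nat_lit 2) (nat_lit 9) C.nil) C.nil))) (C.cons (nat_lit 385) (C.node (nat_lit 0) (nat_lit 1) (nat_lit 2) (C.cons (nat_lit 519) (C.pat (nat_lit 1) (nat_lit 2756950305) (nat_lit 10732570858190822661783946866140709425)) (C.cons (nat_lit 135) (C.node (nat_lit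 0) (nat_lit 1) (nat_lit 9) C.nil) C.nil))) C.nil))) C.nil)))) C.nil)))) (C.cons (nat_lit 73) (C.node (nat_lit 0) (nat_lit 3) (nat_lit 9) (C.cons (nat_lit 521) (C.node (nat_lit 0) (nat_lit 2) (nat_lit 4) (C.cons (nat_lit 277)
  (C.node (nat_lit 0) (nat_lit 4) (nat_lit 6) (C.cons (nat_lit 81) (C.node (nat_lit 0) (nat_lit 6) (nat_lit 8) (C.cons (nat_lit 323) (C.node (nat_lit 0) (nat_lit 7) (nat_lit 8) C.nil) C.nil)) C.nil)) (C.cons (nat_lit 85) (C.node (nat_lit 0) (nat_lit 4) (nat_lit 8) (C.cons (nat_lit 273) (C.node (nat_lit 0) (nat_lit 6) (nat_lit 8) (C.cons (nat_lit 323) (C.node (nat_lit 0) (nat_lit 6) (nat_lit 9) C.nil) C.nil)) C.nil)) (C.cons (nat_lit 21) (C.node (nat_lit 0) (nat_lit 4) (nat_lit 6) (C.cons (nat_lit 337) (C.node (nat_lit 0) (nat_lit 1) (nat_lit 6) (C.cons (nat_lit 579) (C.node (nat_lit 0) (nat_lit 2) (nat_lit 6) C.nil) (C.cons (nat_lit 71) (C.node (nat_lit 0) (nat_lit 6) (nat_lit 9) C.nil) C.nil)))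 C.nil)) C.nil)))) C.nil)) C.nil))) C.nil))) C.nil)) (C.cons (nat_lit 35) (C.node (nat_lit 0) (nat_lit 3) (nat_lit 5) (C.cons (nat_lit 297) (C.node (nat_lit 0) (nat_lit 1) (nat_lit 3) (C.cons (nat_lit 523) (C.node (nat_lit 0) (nat_lit 3) (nat_lit 6) (C.cons (nat_lit 73) (C.node (nat_lit 0) (nat_lit 6) (nat_lit 9) (C.cons (nat_lit 581) (C.node (nat_lit 0) (nat_lit 7) (nat_lit 9) (C.cons (nat_lit 641) (C.node (nat_lit 0) (nat_lit 1) (nat_lit 6) (C.cons (nat_lit 323) (C.node (nat_lit 0) (nat_lit 4) (nat_lit 6) (C.cons (nat_lit 81) (C.node (nat_lit 0) (nat_lit 1) (nat_lit 2) (C.cons (nat_lit 135) (C.pat (nat_lit 4) (nat_lit 298341022001) (nat_lit 3322004884988825395486201031351697616563539991136269)) (C.cons (nat_lit 7) (C.node (nat_lit 0) (nat_lit 1) (nat_lit 7) C.nil) C.nil))) C.nil)) (C.cons (nat_lit 67) (C.node (nat_lit 0) (nat_lit 2) (nat_lit 4) (C.cons (nat_lit 277) (C.node (nat_lit 0) (nat_lit 4) (nat_lit 6) (C.cons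 (nat_lit 81) (C.node (nat_lit 0) (nat_lit 6) (nat_lit 8) C.nil) C.nil)) (C.cons (nat_lit 21) (C.node (nat_lit 0) (nat_lit 4) (nat_lit 6) (C.cons (nat_lit 337) (C.node (nat_lit 0) (nat_lit 1) (nat_lit 2) (C.cons (nat_lit 263) (C.pat (nat_lit 3) (nat_lit 18623966104) (nat_lit 46096413790095729303140422011779941403277594369)) (C.cons (nat_lit 135) (C.node (nat_lit 0) (nat_lit 1) (nat_lit 8) C.nil) C.nil))) C.nil)) C.nil))) C.nil))) C.nil)) (C.cons (nat_lit 577) (C.node (nat_lit 0) (nat_lit 2) (nat_lit 9) (C.cons (nat_lit 645) (C.node (nat_lit 0) (nat_lit 1) (nat_lit 7) (C.cons (nat_lit 387) (C.pat (nat_lit 1) (nat_lit 1535592753) (nat_lit 10732657692672748271909773193994899201)) (C.cons (nat_lit 131) (C.node (nat_lit 0) (nat_lit 7) (nat_lit 8) (C.cons (nat_lit 385) (C.node (nat_lit 0) (nat_lit 1) (nat_lit 2) (C.cons (nat_lit 263) (C.pat (nat_lit 2) (nat_lit 35821760915) (nat_lit 5865315472253400747041938519412351104979765473))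 (C.cons (nat_lit 71) (C.node (nat_lit 0) (nat_lit 1) (nat_lit 8) C.nil) C.nil))) C.nil)) C.nil))) (C.cons (nat_lit 517) (C.node (nat_lit 0) (nat_lit 7) (nat_lit 9) (C.cons (nat_lit 641) (C.node (nat_lit 0) (nat_lit 1) (nat_lit 6) (C.cons (nat_lit 323) (C.node (nat_lit 0) (nat_lit 1) (nat_lit 2) (C.cons (nat_lit 135) (C.node (nat_lit 0) (nat_lit 7) (nat_lit 8) C.nil) C.nil)) (C.cons (nat_lit 71) (C.node (nat_lit 0) (nat_lit 1) (nat_lit 7) (C.cons (nat_lit 387) (C.pat (nat_lit 1) (nat_lit 1535592753) (nat_lit 10732657692672748271909773193994899201)) C.nil)) C.nil))) C.nil)) C.nil))) C.nil))) C.nil)) (C.cons (nat_lit 75) (C.node (nat_lit 0) (nat_lit 3) (nat_lit 9) (C.cons (nat_lit 521) (C.node (nat_lit 0) (nat_lit 6) (nat_lit 9) (C.cons (nat_lit 581) (C.node (nat_lit 0) (nat_lit 1) (nat_lit 9) (C.cons (nat_lit 643) (C.node (nat_lit 0) (nat_lit 1) (nat_lit 2) (C.cons (nat_lit 263) (C.pat (nat_lit 5) (nat_lit 419153947427)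 (nat_lit 50690900863848180143047134891511997243425358087)) (C.cons (nat_lit 7) (C.node (nat_lit 0) (nat_lit 1) (nat_lit 8) (C.cons (nat_lit 259) (C.node (nat_lit 0) (nat_lit 2) (nat_lit 4) (C.cons (nat_lit 277) (C.node (nat_lit 0) (nat_lit 2) (nat_lit 7) (C.cons (nat_lit 133) (C.node (nat_lit 0) (nat_lit 4) (nat_lit 6) C.nil) C.nil)) (C.cons (nat_lit 21) (C.node (nat_lit 0) (nat_lit 2) (nat_lit 7) (C.cons (nat_lit 389)
  (C.pat (nat_lit 0) (nat_lit 126507826) (nat_lit 304318120127389206123411457509389)) C.nil)) C.nil))) C.nil)) C.nil))) (C.cons (nat_lit 515) (C.node (nat_lit 0) (nat_lit 7) (nat_lit 9) (C.cons (nat_lit 641) (C.node (nat_lit 0) (nat_lit 2) (nat_lit 4) (C.cons (nat_lit 277) (C.node (nat_lit 0) (nat_lit 4) (nat_lit 6) (C.cons (nat_lit 81) (C.node (nat_lit 0) (nat_lit 6) (nat_lit 8) C.nil) C.nil)) (C.cons (nat_lit 21) (C.node (nat_lit 0) (nat_lit 4) (nat_lit 6) (C.cons (nat_lit 337) (C.node (nat_lit 0) (nat_lit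 1) (nat_lit 2) (C.cons (nat_lit 263) (C.pat (nat_lit 2) (nat_lit 44042728835) (nat_lit 23661180151653599719431652254760086523594999827)) (C.cons (nat_lit 135) (C.node (nat_lit 0) (nat_lit 1) (nat_lit 8) C.nil) C.nil))) C.nil)) C.nil))) C.nil)) C.nil))) (C.cons (nat_lit 577) (C.node (nat_lit 0) (nat_lit 1) (nat_lit 8) (C.cons (nat_lit 387) (C.node (nat_lit 0) (nat_lit 1) (nat_lit 2) (C.cons (nat_lit 519) (C.node (nat_lit 0) (nat_lit 2) (nat_lit 7) (C.cons (nat_lit 133) (C.node (nat_lit 0) (nat_lit 7) (nat_lit 9) (C.cons (nat_lit 641) (C.node (nat_lit 0) (nat_lit 2) (nat_lit 4) (C.cons (nat_lit 277) (C.pat (nat_lit 2) (nat_lit 40115614340) (nat_lit 11574218448855808298491065667652310933425162465)) (C.cons (nat_lit 85) (C.pat (nat_lit 2) (nat_lit 6882178626) (nat_lit 1672956405148704985184528508495868771758837505)) C.nil))) C.nil)) C.nil)) (C.cons (nat_lit 7) (C.node (nat_lit 0) (nat_lit 1) (nat_lit 9) (C.cons (nat_lit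 515) (C.node (nat_lit 0) (nat_lit 2) (nat_lit 7) (C.cons (nat_lit 645) (C.node (nat_lit 0) (nat_lit 2) (nat_lit 4) (C.cons (nat_lit 85) (C.node (nat_lit 0) (nat_lit 2) (nat_lit 8) C.nil) (C.cons (nat_lit 277) (C.pat (nat_lit 1) (nat_lit 1501854514) (nat_lit 3349075921089048704261698853795335937)) C.nil))) C.nil)) C.nil)) C.nil))) (C.cons (nat_lit 263) (C.node (nat_lit 0) (nat_lit 7) (nat_lit 8) (C.cons (nat_lit 385) (C.node (nat_lit 0) (nat_lit 1) (nat_lit 7) (C.cons (nat_lit 643) (C.node (nat_lit 0) (nat_lit 2) (nat_lit 7) (C.cons (nat_lit 133) (C.node (nat_lit 0) (nat_lit 2) (nat_lit 9) C.nil) C.nil)) (C.cons (nat_lit 131) (C.node (nat_lit 0) (nat_lit 1) (nat_lit 9) C.nil) C.nil))) C.nil)) (C.cons (nat_lit 259) (C.node (nat_lit 0) (nat_lit 7) (nat_lit 8) (C.cons (nat_lit 389) (C.pat (nat_lit 0) (nat_lit 126507826) (nat_lit 304318120127389206123411457509389)) (C.cons (nat_lit 385) (C.node (nat_lit 0) (nat_lit 1) (nat_lit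 2) (C.cons (nat_lit 519) (C.node (nat_lit 0) (nat_lit 1) (nat_lit 7) C.nil) (C.cons (nat_lit 135) (C.node (nat_lit 0) (nat_lit 1) (nat_lit 9) C.nil) C.nil))) C.nil))) C.nil)))) C.nil))) C.nil)) (C.cons (nat_lit 11) (C.node (nat_lit 0) (nat_lit 3) (nat_lit 6) (C.cons (nat_lit 585) (C.node (nat_lit 0) (nat_lit 1) (nat_lit 6) (C.cons (nat_lit 323) (C.node (nat_lit 0) (nat_lit 2) (nat_lit 6) (C.cons (nat_lit 85) (C.pat (nat_lit 1) (nat_lit 2506402610) (nat_lit 5509071414007452164940148895076911329)) (C.cons (nat_lit 69) (C.node (nat_lit 0) (nat_lit 4) (nat_lit 6) (C.cons (nat_lit 81) (C.node (nat_lit 0) (nat_lit 2) (nat_lit 4) (C.cons (nat_lit 277) (C.node (nat_lit 0) (nat_lit 7) (nat_lit 8) (C.cons (nat_lit 385) (C.node (nat_lit 0) (nat_lit 1) (nat_lit 2) (C.cons (nat_lit 519) (C.pat (nat_lit 3) (nat_lit 14581582744) (nat_lit 45962609319029160371990646694142980185426038529)) (C.cons (nat_lit 135) (C.node (nat_lit 0) (nat_lit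 1) (nat_lit 9) C.nil) C.nil))) C.nil)) (C.cons (nat_lit 21) (C.node (nat_lit 0) (nat_lit 4) (nat_lit 8) C.nil) C.nil))) C.nil)) C.nil))) (C.cons (nat_lit 71) (C.node (nat_lit 0) (nat_lit 1) (nat_lit 8) (C.cons (nat_lit 387) (C.node (nat_lit 0) (nat_lit 1) (nat_lit 9) (C.cons (nat_lit 515) (C.node (nat_lit 0) (nat_lit 2) (nat_lit 4) (C.cons (nat_lit 277) (C.node (nat_lit 0) (nat_lit 4) (nat_lit 6) (C.cons (nat_lit 81) (C.node (nat_lit 0) (nat_lit 6) (nat_lit 8) (C.cons (nat_lit 321) (C.node (nat_lit 0) (nat_lit 2) (nat_lit 7) (C.cons (nat_lit 645) (C.pat (nat_lit 1) (nat_lit 1501854514) (nat_lit 3349075921089048704261698853795335937)) C.nil)) C.nil)) C.nil))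
  (C.cons (nat_lit 21) (C.node (nat_lit 0) (nat_lit 2) (nat_lit 8) (C.cons (nat_lit 261) (C.node (nat_lit 0) (nat_lit 2) (nat_lit 7) (C.cons (nat_lit 645) (C.node (nat_lit 0) (nat_lit 4) (nat_lit 8) (C.cons (nat_lit 337) (C.pat (nat_lit 3) (nat_lit 34704866166) (nat_lit 85657865673218019055352090499433350781964191969)) C.nil)) C.nil)) C.nil)) C.nil))) C.nil)) (C.cons (nat_lit 259) (C.node (nat_lit 0) (nat_lit 1) (nat_lit 7) (C.cons (nat_lit 643) (C.node (nat_lit 0) (nat_lit 2) (nat_lit 9) (C.cons (nat_lit 517) (C.node (nat_lit 0) (nat_lit 2) (nat_lit 4) (C.cons (nat_lit 277) (C.node (nat_lit 0) (nat_lit 2) (nat_lit 7) (C.cons (nat_lit 133) (C.node (nat_lit 0) (nat_lit 4) (nat_lit 6) C.nil) C.nil)) (C.cons (nat_lit 21) (C.node (nat_lit 0) (nat_lit 2) (nat_lit 7) (C.cons (nat_lit 389) (C.pat (nat_lit 0) (nat_lit 126507826) (nat_lit 304318120127389206123411457509389)) C.nil)) C.nil))) C.nil)) (C.cons (nat_lit 131) (C.node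 (nat_lit 0) (nat_lit 1) (nat_lit 9) (C.cons (nat_lit 515) (C.node (nat_lit 0) (nat_lit 2) (nat_lit 4) (C.cons (nat_lit 277) (C.node (nat_lit 0) (nat_lit 4) (nat_lit 6) C.nil) C.nil)) C.nil)) C.nil))) C.nil))) (C.cons (nat_lit 67) (C.node (nat_lit 0) (nat_lit 1) (nat_lit 8) (C.cons (nat_lit 387) (C.node (nat_lit 0) (nat_lit 1) (nat_lit 2) (C.cons (nat_lit 519) (C.node (nat_lit 0) (nat_lit 2) (nat_lit 7) (C.cons (nat_lit 133) (C.node (nat_lit 0) (nat_lit 7) (nat_lit 9) (C.cons (nat_lit 641) (C.node (nat_lit 0) (nat_lit 2) (nat_lit 4) (C.cons (nat_lit 277) (C.pat (nat_lit 2) (nat_lit 40115614340) (nat_lit 11574218448855808298491065667652310933425162465)) (C.cons (nat_lit 85) (C.pat (nat_lit 1) (nat_lit 2506402610) (nat_lit 5509071414007452164940148895076911329)) C.nil))) C.nil)) C.nil)) (C.cons (nat_lit 7) (C.node (nat_lit 0) (nat_lit 1) (nat_lit 9) (C.cons (nat_lit 515) (C.node (nat_lit 0) (nat_lit 2) (nat_lit 7) (C.cons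 (nat_lit 645) (C.node (nat_lit 0) (nat_lit 2) (nat_lit 4) (C.cons (nat_lit 85) (C.pat (nat_lit 1) (nat_lit 2506402610) (nat_lit 5509071414007452164940148895076911329)) (C.cons (nat_lit 277) (C.pat (nat_lit 1) (nat_lit 1501854514) (nat_lit 3349075921089048704261698853795335937)) C.nil))) C.nil)) C.nil)) C.nil))) (C.cons (nat_lit 263) (C.node (nat_lit 0) (nat_lit 7) (nat_lit 8) (C.cons (nat_lit 385) (C.node (nat_lit 0) (nat_lit 1) (nat_lit 7) (C.cons (nat_lit 643) (C.node (nat_lit 0) (nat_lit 2) (nat_lit 7) (C.cons (nat_lit 133) (C.node (nat_lit 0) (nat_lit 2) (nat_lit 9) C.nil) C.nil)) (C.cons (nat_lit 131) (C.node (nat_lit 0) (nat_lit 1) (nat_lit 9) C.nil) C.nil))) C.nil)) (C.cons (nat_lit 259) (C.node (nat_lit 0) (nat_lit 7) (nat_lit 8) (C.cons (nat_lit 389) (C.pat (nat_lit 0) (nat_lit 126507826) (nat_lit 304318120127389206123411457509389)) (C.cons (nat_lit 385) (C.node (nat_lit 0) (nat_lit 1) (nat_lit 2) (C.cons (nat_lit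 519) (C.node (nat_lit 0) (nat_lit 1) (nat_lit 7) C.nil) (C.cons (nat_lit 135) (C.node (nat_lit 0) (nat_lit 1) (nat_lit 9) C.nil) C.nil))) C.nil))) C.nil)))) C.nil)))) (C.cons (nat_lit 73) (C.node (nat_lit 0) (nat_lit 3) (nat_lit 9) (C.cons (nat_lit 521) (C.node (nat_lit 0) (nat_lit 2) (nat_lit 4) (C.cons (nat_lit 277) (C.node (nat_lit 0) (nat_lit 4) (nat_lit 6) (C.cons (nat_lit 81) (C.node (nat_lit 0) (nat_lit 6) (nat_lit 8) (C.cons (nat_lit 323) (C.node (nat_lit 0) (nat_lit 7) (nat_lit 8) C.nil) C.nil)) C.nil)) (C.cons (nat_lit 85) (C.node (nat_lit 0) (nat_lit 4) (nat_lit 8) (C.cons (nat_lit 273) (C.node (nat_lit 0) (nat_lit 6) (nat_lit 8) (C.cons (nat_lit 323) (C.node (nat_lit 0) (nat_lit 6) (nat_lit 9) C.nil) C.nil)) C.nil)) (C.cons (nat_lit 21) (C.node (nat_lit 0) (nat_lit 4) (nat_lit 6) (C.cons (nat_lit 337) (C.node (nat_lit 0) (nat_lit 1) (nat_lit 6) (C.cons (nat_lit 579) (C.node (nat_lit 0) (nat_lit 2) (nat_lit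 6) C.nil) (C.cons (nat_lit 71) (C.node (nat_lit 0) (nat_lit 6) (nat_lit 9) C.nil) C.nil))) C.nil)) C.nil)))) C.nil)) C.nil))) C.nil)))) (C.cons (nat_lit 41) (C.node (nat_lit 0) (nat_lit 5) (nat_lit 8) (C.cons (nat_lit 289)
  (C.node (nat_lit 0) (nat_lit 2) (nat_lit 4) (C.cons (nat_lit 277) (C.node (nat_lit 0) (nat_lit 4) (nat_lit 6) (C.cons (nat_lit 81) (C.node (nat_lit 0) (nat_lit 7) (nat_lit 8) (C.cons (nat_lit 387) (C.node (nat_lit 0) (nat_lit 2) (nat_lit 7) (C.cons (nat_lit 645) (C.node (nat_lit 0) (nat_lit 1) (nat_lit 2) (C.cons (nat_lit 71) (C.node (nat_lit 0) (nat_lit 1) (nat_lit 3) (C.cons (nat_lit 523) (C.pat (nat_lit 1) (nat_lit 682916145) (nat_lit 2009440832952856311336303711206575873)) (C.cons (nat_lit 11) (C.node (nat_lit 0) (nat_lit 1) (nat_lit 9) C.nil) C.nil))) (C.cons (nat_lit 7) (C.node (nat_lit 0) (nat_lit 2) (nat_lit 6) C.nil) C.nil))) (C.cons (nat_lit 133) (C.node (nat_lit 0) (nat_lit 7) (nat_lit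 9) C.nil) C.nil))) (C.cons (nat_lit 385) (C.node (nat_lit 0) (nat_lit 1) (nat_lit 7) (C.cons (nat_lit 643) (C.node (nat_lit 0) (nat_lit 2) (nat_lit 7) C.nil) (C.cons (nat_lit 135) (C.node (nat_lit 0) (nat_lit 7) (nat_lit 9) C.nil) C.nil))) C.nil))) C.nil)) (C.cons (nat_lit 85) (C.node (nat_lit 0) (nat_lit 4) (nat_lit 8) (C.cons (nat_lit 273) (C.node (nat_lit 0) (nat_lit 2) (nat_lit 8) (C.cons (nat_lit 389) (C.node (nat_lit 0) (nat_lit 1) (nat_lit 2) (C.cons (nat_lit 519) (C.node (nat_lit 0) (nat_lit 1) (nat_lit 7) (C.cons (nat_lit 131) (C.node (nat_lit 0) (nat_lit 7) (nat_lit 9) C.nil) C.nil)) (C.cons (nat_lit 7) (C.node (nat_lit 0) (nat_lit 2) (nat_lit 9) C.nil) C.nil))) (C.cons (nat_lit 263) (C.node (nat_lit 0) (nat_lit 7) (nat_lit 8) (C.cons (nat_lit 385) (C.node (nat_lit 0) (nat_lit 1) (nat_lit 7) (C.cons (nat_lit 643) (C.node (nat_lit 0) (nat_lit 2) (nat_lit 7) C.nil) C.nil)) C.nil)) (C.cons (nat_lit 261) (C.node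 (nat_lit 0) (nat_lit 7) (nat_lit 8) (C.cons (nat_lit 387) (C.node (nat_lit 0) (nat_lit 1) (nat_lit 2) (C.cons (nat_lit 519) (C.node (nat_lit 0) (nat_lit 2) (nat_lit 7) C.nil) C.nil)) C.nil)) C.nil)))) C.nil)) (C.cons (nat_lit 21) (C.node (nat_lit 0) (nat_lit 4) (nat_lit 6) (C.cons (nat_lit 337) (C.node (nat_lit 0) (nat_lit 3) (nat_lit 8) (C.cons (nat_lit 267) (C.node (nat_lit 0) (nat_lit 2) (nat_lit 8) (C.cons (nat_lit 389) (C.node (nat_lit 0) (nat_lit 1) (nat_lit 7) (C.cons (nat_lit 643) (C.node (nat_lit 0) (nat_lit 1) (nat_lit 2) (C.cons (nat_lit 71) (C.pat (nat_lit 1) (nat_lit 1954788897) (nat_lit 10732570858461593120693763116203049297)) (C.cons (nat_lit 7) (C.node (nat_lit 0) (nat_lit 1) (nat_lit 6) C.nil) C.nil))) (C.cons (nat_lit 131) (C.node (nat_lit 0) (nat_lit 7) (nat_lit 9) C.nil) C.nil))) (C.cons (nat_lit 261) (C.node (nat_lit 0) (nat_lit 7) (nat_lit 8) C.nil) C.nil))) (C.cons (nat_lit 265) (C.node (nat_lit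 0) (nat_lit 1) (nat_lit 3) (C.cons (nat_lit 523) (C.node (nat_lit 0) (nat_lit 3) (nat_lit 6) C.nil) (C.cons (nat_lit 75) (C.node (nat_lit 0) (nat_lit 3) (nat_lit 9) C.nil) C.nil))) C.nil))) (C.cons (nat_lit 81) (C.node (nat_lit 0) (nat_lit 4) (nat_lit 8) C.nil) C.nil))) C.nil)))) C.nil)) C.nil))) C.nil)))) List.nil)

theorem ok12_421 : okL par12 (nat_lit 422) c12_421 (nat_lit 421) = true := by decide +kernel


end Pool.Agent.MP_1f1ca1_co

end

section

set_option autoImplicit false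
set_option maxRecDepth 1000000
set_option maxHeartbeats 0

namespace Pool.Agent.MP_1f1ca1_co

theorem parOK12 : ParOK par12 (nat_lit 56) :=
  ⟨by decide, by decide, by decide, by decide, tb12_3_ok, tb12_4_ok, tb12_5_ok, patLib_bad⟩

theorem allRef12 (α : Type) [DecidableEq α] : AllRef α par12 (nat_lit 488) := by
  have h := AllRef.zero (α := α) par12
  replace h := AllRef.step ok12_0 h
  replace h := AllRef.step ok12_22 h
  replace h := AllRef.step ok12_37 h
  replace h := AllRef.step ok12_55 h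
  replace h := AllRef.step ok12_69 h
  replace h := AllRef.step ok12_90 h
  replace h := AllRef.step ok12_101 h
  replace h := AllRef.step ok12_121 h
  replace h := AllRef.step ok12_140 h
  replace h := AllRef.step ok12_150 h
  replace h := AllRef.step ok12_169 h
  replace h := AllRef.step ok12_181 h
  replace h := AllRef.step ok12_197 h
  replace h := AllRef.step ok12_210 h
  replace h := AllRef.step ok12_231 h
  replace h := AllRef.step ok12_236 h
  replace h := AllRef.step ok12_237 h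
  replace h := AllRef.step ok12_238 h
  replace h := AllRef.step ok12_239 h
  replace h := AllRef.step ok12_242 h
  replace h := AllRef.step ok12_243 h
  replace h := AllRef.step ok12_244 h
  replace h := AllRef.step ok12_245 h
  replace h := AllRef.step ok12_246 h
  replace h := AllRef.step ok12_247 h
  replace h := AllRef.step ok12_249 h
  replace h := AllRef.step ok12_250 h
  replace h := AllRef.step ok12_253 h
  replace h := AllRef.step ok12_254 h
  replace h := AllRef.step ok12_255 h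
  replace h := AllRef.step ok12_258 h
  replace h := AllRef.step ok12_259 h
  replace h := AllRef.step ok12_260 h
  replace h := AllRef.step ok12_261 h
  replace h := AllRef.step ok12_262 h
  replace h := AllRef.step ok12_263 h
  replace h := AllRef.step ok12_264 h
  replace h := AllRef.step ok12_265 h
  replace h := AllRef.step ok12_266 h
  replace h := AllRef.step ok12_267 h
  replace h := AllRef.step ok12_272 h
  replace h := AllRef.step ok12_273 h
  replace h := AllRef.step ok12_274 h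
  replace h := AllRef.step ok12_276 h
  replace h := AllRef.step ok12_277 h
  replace h := AllRef.step ok12_278 h
  replace h := AllRef.step ok12_281 h
  replace h := AllRef.step ok12_282 h
  replace h := AllRef.step ok12_283 h
  replace h := AllRef.step ok12_284 h
  replace h := AllRef.step ok12_285 h
  replace h := AllRef.step ok12_286 h
  replace h := AllRef.step ok12_288 h
  replace h := AllRef.step ok12_289 h
  replace h := AllRef.step ok12_290 h
  replace h := AllRef.step ok12_291 h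
  replace h := AllRef.step ok12_292 h
  replace h := AllRef.step ok12_293 h
  replace h := AllRef.step ok12_294 h
  replace h := AllRef.step ok12_295 h
  replace h := AllRef.step ok12_296 h
  replace h := AllRef.step ok12_297 h
  replace h := AllRef.step ok12_299 h
  replace h := AllRef.step ok12_300 h
  replace h := AllRef.step ok12_301 h
  replace h := AllRef.step ok12_302 h
  replace h := AllRef.step ok12_303 h
  replace h := AllRef.step ok12_304 h
  replace h := AllRef.step ok12_305 h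
  replace h := AllRef.step ok12_306 h
  replace h := AllRef.step ok12_307 h
  replace h := AllRef.step ok12_308 h
  replace h := AllRef.step ok12_309 h
  replace h := AllRef.step ok12_310 h
  replace h := AllRef.step ok12_312 h
  replace h := AllRef.step ok12_313 h
  replace h := AllRef.step ok12_315 h
  replace h := AllRef.step ok12_324 h
  replace h := AllRef.step ok12_345 h
  replace h := AllRef.step ok12_362 h
  replace h := AllRef.step ok12_368 h
  replace h := AllRef.step ok12_377 h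
  replace h := AllRef.step ok12_394 h
  replace h := AllRef.step ok12_401 h
  replace h := AllRef.step ok12_415 h
  replace h := AllRef.step ok12_421 h
  replace h := AllRef.step ok12_422 h
  replace h := AllRef.step ok12_431 h
  replace h := AllRef.step ok12_449 h
  replace h := AllRef.step ok12_463 h
  replace h := AllRef.step ok12_480 h
  replace h := AllRef.step ok12_487 h
  exact h

theorem eng12 {α : Type} [DecidableEq α] {P : Finset α} {B L : Finset (Finset α)} (G : Geo P B L)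
    (hn : P.card = 12) (h6 : ∀ β ∈ B, β.card ≤ 6) : 3000 < 60 * (B \ L).card :=
  engine (j := 487) parOK12 (allRef12 α) rfl G hn h6

end Pool.Agent.MP_1f1ca1_co

end

section

set_option autoImplicit false
set_option maxRecDepth 1000000
set_option maxHeartbeats 0

namespace Pool.Agent.MP_1f1ca1_co

noncomputable def c13_0 : List C :=
  (List.cons (C.node (nat_lit 0) (nat_lit 1) (nat_lit 6) (C.cons (nat_lit 323) (C.node (nat_lit 0) (nat_lit 2) (nat_lit 4) (C.cons (nat_lit 533) (C.node (nat_lit 0) (nat_lit 2) (nat_lit 6) (C.cons (nat_lit 1093) (C.node (nat_lit 0) (nat_lit 2) (nat_lit 5) (C.cons (nat_lit 293) (C.pat (nat_lit 1) (nat_lit 680880705) (nat_lit 1677135099819668589236770588341640961)) C.nil)) C.nil)) (C.cons (nat_lit 277) (C.node (nat_lit 0) (nat_lit 2) (nat_lit 5) (C.cons (nat_lit 1061) (C.node (nat_lit 0) (nat_lit 2) (nat_lit 6) (C.cons (nat_lit 581) (C.pat (nat_lit 1) (nat_lit 696670785) (nat_lit 2840232413571474112195283818866876161))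 C.nil)) C.nil)) C.nil))) C.nil)) (List.cons (C.big C.nil (C.big C.nil (C.node (nat_lit 0) (nat_lit 1) (nat_lit 12) (C.cons (nat_lit 4099) (C.node (nat_lit 0) (nat_lit 2) (nat_lit 12) (C.cons (nat_lit 4101) (C.node (nat_lit 0) (nat_lit 3) (nat_lit 12) (C.cons (nat_lit 4105) (C.node (nat_lit 0) (nat_lit 4) (nat_lit 11) (C.cons (nat_lit 2065) (C.node (nat_lit 0) (nat_lit 5) (nat_lit 11) (C.cons (nat_lit 2081) (C.node (nat_lit 0) (nat_lit 6) (nat_lit 11) (C.cons (nat_lit 2113) (C.node (nat_lit 0) (nat_lit 7) (nat_lit 8) (C.cons (nat_lit 385) (C.node (nat_lit 0) (nat_lit 7) (nat_lit 9) (C.cons (nat_lit 641) (C.node (nat_lit 0) (nat_lit 7) (nat_lit 10) (C.cons (nat_lit 1153) (C.node (nat_lit 0) (nat_lit 1) (nat_lit 4) (C.cons (nat_lit 1043) (C.node (nat_lit 0) (nat_lit 1) (nat_lit 5) (C.cons (nat_lit 547) (C.ref (nat_lit 0) (nat_lit 3582863703552528)) (C.cons (nat_lit 291) (C.ref (nat_lit 0) (nat_lit 3582799279043088)) C.nil)))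 (C.cons (nat_lit 531) (C.node (nat_lit 0) (nat_lit 1) (nat_lit 5) (C.cons (nat_lit 1059) (C.ref (nat_lit 0) (nat_lit 3581832911401488)) (C.cons (nat_lit 291) (C.ref (nat_lit 0) (nat_lit 3581704062382608)) C.nil))) (C.cons (nat_lit 275) (C.node (nat_lit 0) (nat_lit 1) (nat_lit 5) (C.cons (nat_lit 1059) (C.ref (nat_lit 0) (nat_lit 3580737694741008)) (C.cons (nat_lit 547) (C.ref (nat_lit 0) (nat_lit 3580673270231568)) C.nil))) C.nil)))) C.nil)) C.nil)) C.nil)) C.nil)) C.nil)) C.nil)) C.nil)) C.nil)) C.nil)))) (List.cons (C.big C.nil (C.node (nat_lit 0) (nat_lit 1) (nat_lit 12) (C.cons (nat_lit 4099) (C.node (nat_lit 0) (nat_lit 2) (nat_lit 12) (C.cons (nat_lit 4101) (C.node (nat_lit 0) (nat_lit 3) (nat_lit 12) (C.cons (nat_lit 4105) (C.node (nat_lit 0) (nat_lit 5) (nat_lit 10) (C.cons (nat_lit 1057) (C.node (nat_lit 0) (nat_lit 5) (nat_lit 11) (C.cons (nat_lit 2081) (C.node (nat_lit 0) (nat_lit 6) (nat_lit 9) (C.cons (nat_lit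 577) (C.node (nat_lit 0) (nat_lit 6) (nat_lit 11) (C.cons (nat_lit 2113) (C.node (nat_lit 0) (nat_lit 7) (nat_lit 9) (C.cons (nat_lit 641) (C.node (nat_lit 0) (nat_lit 7) (nat_lit 10) (C.cons (nat_lit 1153) (C.node (nat_lit 0) (nat_lit 1) (nat_lit 7) (C.cons (nat_lit 387) (C.node (nat_lit 0) (nat_lit 1) (nat_lit 4) (C.cons (nat_lit 2067) (C.node (nat_lit 0) (nat_lit 2) (nat_lit 6) (C.cons (nat_lit 325) (C.node (nat_lit 0) (nat_lit 2) (nat_lit 4) (C.cons (nat_lit 1045) (C.pat (nat_lit 1) (nat_lit 681999169) (nat_lit 2009444634734445284124425023046885121)) (C.cons (nat_lit 21) (C.node (nat_lit 0) (nat_lit 2) (nat_lit 10) C.nil) C.nil))) (C.cons (nat_lit 69) (C.node (nat_lit 0) (nat_lit 6) (nat_lit 8) C.nil) C.nil))) (C.cons (nat_lit 19) (C.node (nat_lit 0) (nat_lit 1) (nat_lit 11) C.nil) C.nil))) (C.cons (nat_lit 131) (C.node (nat_lit 0) (nat_lit 7) (nat_lit 8) C.nil) C.nil))) C.nil)) C.nil)) C.nil)) C.nil)) C.nil)) C.nil))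 C.nil)) C.nil)) C.nil))) (List.cons (C.big (C.cons (nat_lit 551) (C.ref (nat_lit 2) (nat_lit 3582863703552528)) (C.cons (nat_lit 535) (C.ref (nat_lit 2) (nat_lit 3582863702569488)) (C.cons (nat_lit 295) (C.ref (nat_lit 2) (nat_lit 3582799279043088)) (C.cons (nat_lit 279) (C.ref (nat_lit 2) (nat_lit 3582799278060048)) C.nil)))) C.nil) (List.cons (C.big (C.cons (nat_lit 1099) (C.ref (nat_lit 3) (nat_lit 3582863703552528)) (C.cons (nat_lit 1095) (C.ref (nat_lit 3) (nat_lit 3582863703548688)) (C.cons (nat_lit 1067) (C.ref (nat_lit 3) (nat_lit 3582863687823888))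
  (C.cons (nat_lit 1063) (C.ref (nat_lit 3) (nat_lit 3582863687820048)) (C.cons (nat_lit 1051) (C.ref (nat_lit 3) (nat_lit 3582863671112208)) (C.cons (nat_lit 1047) (C.ref (nat_lit 3) (nat_lit 3582863671108368)) (C.cons (nat_lit 587) (C.ref (nat_lit 3) (nat_lit 3581832911401488)) (C.cons (nat_lit 583) (C.ref (nat_lit 3) (nat_lit 3581832911397648)) (C.cons (nat_lit 555) (C.ref (nat_lit 3) (nat_lit 3581832895672848)) (C.cons (nat_lit 551) (C.ref (nat_lit 3) (nat_lit 3581832895669008)) (C.cons (nat_lit 539) (C.ref (nat_lit 3) (nat_lit 3581832878961168)) (C.cons (nat_lit 535) (C.ref (nat_lit 3) (nat_lit 3581832878957328)) (C.cons (nat_lit 331) (C.ref (nat_lit 3) (nat_lit 3580737694741008)) (C.cons (nat_lit 327) (C.ref (nat_lit 3) (nat_lit 3580737694737168)) (C.cons (nat_lit 299) (C.ref (nat_lit 3) (nat_lit 3580737679012368)) (C.cons (nat_lit 295) (C.ref (nat_lit 3) (nat_lit 3580737679008528)) (C.cons (nat_lit 283) (C.ref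 (nat_lit 3) (nat_lit 3580737662300688)) (C.cons (nat_lit 279) (C.ref (nat_lit 3) (nat_lit 3580737662296848)) C.nil)))))))))))))))))) C.nil) (List.cons (C.big C.nil C.nil) (List.cons (C.node (nat_lit 0) (nat_lit 6) (nat_lit 9) (C.cons (nat_lit 585) (C.pat (nat_lit 1) (nat_lit 965106241) (nat_lit 2840232730484124243040736387787726593)) (C.cons (nat_lit 577) (C.node (nat_lit 0) (nat_lit 3) (nat_lit 9) (C.cons (nat_lit 649) (C.node (nat_lit 0) (nat_lit 6) (nat_lit 10) (C.cons (nat_lit 1093) (C.pat (nat_lit 1) (nat_lit 680880705) (nat_lit 1677135099819668589236770588341640961)) (C.cons (nat_lit 1089) (C.node (nat_lit 0) (nat_lit 2) (nat_lit 10) (C.cons (nat_lit 1157) (C.pat (nat_lit 1) (nat_lit 981825858) (nat_lit 6007571843672100494892408320860167937)) (C.cons (nat_lit 1029) (C.node (nat_lit 0) (nat_lit 7) (nat_lit 10) C.nil) C.nil))) C.nil))) (C.cons (nat_lit 521) (C.node (nat_lit 0) (nat_lit 7) (nat_lit 9) (C.cons (nat_lit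 641) (C.node (nat_lit 0) (nat_lit 6) (nat_lit 10) (C.cons (nat_lit 1093) (C.pat (nat_lit 1) (nat_lit 680880705) (nat_lit 1677135099819668589236770588341640961)) C.nil)) C.nil)) C.nil))) C.nil))) (List.cons (C.node (nat_lit 0) (nat_lit 6) (nat_lit 9) (C.cons (nat_lit 585) (C.node (nat_lit 0) (nat_lit 7) (nat_lit 9) (C.cons (nat_lit 641) (C.node (nat_lit 0) (nat_lit 6) (nat_lit 10) (C.cons (nat_lit 1093) (C.pat (nat_lit 1) (nat_lit 696543827) (nat_lit 3037535891193222583267737816752267009)) C.nil)) C.nil)) (C.cons (nat_lit 577) (C.node (nat_lit 0) (nat_lit 3) (nat_lit 9) (C.cons (nat_lit 649) (C.node (nat_lit 0) (nat_lit 7) (nat_lit 10) (C.cons (nat_lit 1157) (C.pat (nat_lit 1) (nat_lit 696547923) (nat_lit 3369842890139452732085310299233656577)) C.nil)) C.nil)) C.nil))) (List.cons (C.node (nat_lit 0) (nat_lit 5) (nat_lit 11) (C.cons (nat_lit 2081) (C.node (nat_lit 0) (nat_lit 6) (nat_lit 8) (C.cons (nat_lit 323) (C.node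 (nat_lit 0) (nat_lit 7) (nat_lit 8) (C.cons (nat_lit 385) (C.ref (nat_lit 6) (nat_lit 3582863703552528)) C.nil)) (C.cons (nat_lit 321) (C.node (nat_lit 0) (nat_lit 1) (nat_lit 8) (C.cons (nat_lit 387) (C.ref (nat_lit 6) (nat_lit 3582863451894288)) (C.cons (nat_lit 259) (C.node (nat_lit 0) (nat_lit 7) (nat_lit 8) (C.cons (nat_lit 385) (C.ref (nat_lit 7) (nat_lit 3582863703552528)) C.nil)) C.nil))) C.nil))) C.nil)) (List.cons (C.node (nat_lit 0) (nat_lit 1) (nat_lit 2) (C.cons (nat_lit 135) (C.node (nat_lit 0) (nat_lit 1) (nat_lit 9) (C.cons (nat_lit 515) (C.node (nat_lit 0) (nat_lit 7) (nat_lit 10) (C.cons (nat_lit 1153) (C.node (nat_lit 0) (nat_lit 2) (nat_lit 10) (C.cons (nat_lit 1093) (C.node (nat_lit 0) (nat_lit 2) (nat_lit 3) (C.cons (nat_lit 2061) (C.pat (nat_lit 2) (nat_lit 47583765125) (nat_lit 45961931475194459798967367954883248436468319251)) (C.cons (nat_lit 13) (C.node (nat_lit 0) (nat_lit 2) (nat_lit 11) C.nil)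 C.nil))) (C.cons (nat_lit 1029) (C.node (nat_lit 0) (nat_lit 6) (nat_lit 10) C.nil) C.nil))) C.nil)) C.nil)) (C.cons (nat_lit 7) (C.node (nat_lit 0) (nat_lit 1) (nat_lit 7) (C.cons (nat_lit 643) (C.node (nat_lit 0) (nat_lit 3) (nat_lit 9) (C.cons (nat_lit 585)
  (C.node (nat_lit 0) (nat_lit 6) (nat_lit 10) (C.cons (nat_lit 1093) (C.pat (nat_lit 1) (nat_lit 981821762) (nat_lit 5675264844725870346074835838378778369)) (C.cons (nat_lit 1089) (C.node (nat_lit 0) (nat_lit 2) (nat_lit 6) (C.cons (nat_lit 2117) (C.pat (nat_lit 4) (nat_lit 179217466469) (nat_lit 11600035214536121651568354042607333871228052298727747)) (C.cons (nat_lit 69) (C.node (nat_lit 0) (nat_lit 6) (nat_lit 11) C.nil) C.nil))) C.nil))) (C.cons (nat_lit 521) (C.node (nat_lit 0) (nat_lit 6) (nat_lit 9) (C.cons (nat_lit 577) (C.node (nat_lit 0) (nat_lit 6) (nat_lit 10) (C.cons (nat_lit 1093) (C.node (nat_lit 0) (nat_lit 7) (nat_lit 10) C.nil) C.nil)) C.nil))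 C.nil))) (C.cons (nat_lit 131) (C.node (nat_lit 0) (nat_lit 1) (nat_lit 9) (C.cons (nat_lit 515) (C.node (nat_lit 0) (nat_lit 6) (nat_lit 9) (C.cons (nat_lit 585) (C.node (nat_lit 0) (nat_lit 7) (nat_lit 9) C.nil) C.nil)) C.nil)) C.nil))) C.nil))) (List.cons (C.node (nat_lit 0) (nat_lit 6) (nat_lit 10) (C.cons (nat_lit 1093) (C.node (nat_lit 0) (nat_lit 7) (nat_lit 10) (C.cons (nat_lit 1153) (C.node (nat_lit 0) (nat_lit 1) (nat_lit 2) (C.cons (nat_lit 135) (C.node (nat_lit 0) (nat_lit 1) (nat_lit 6) (C.cons (nat_lit 579) (C.node (nat_lit 0) (nat_lit 2) (nat_lit 3) (C.cons (nat_lit 2061) (C.node (nat_lit 0) (nat_lit 3) (nat_lit 6) C.nil) C.nil)) C.nil)) C.nil)) C.nil)) (C.cons (nat_lit 1089) (C.node (nat_lit 0) (nat_lit 2) (nat_lit 10) (C.cons (nat_lit 1157) (C.node (nat_lit 0) (nat_lit 1) (nat_lit 2) (C.cons (nat_lit 71) (C.node (nat_lit 0) (nat_lit 1) (nat_lit 7) (C.cons (nat_lit 643) (C.node (nat_lit 0) (nat_lit 2)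 (nat_lit 3) (C.cons (nat_lit 2061) (C.node (nat_lit 0) (nat_lit 3) (nat_lit 7) C.nil) C.nil)) C.nil)) C.nil)) C.nil)) C.nil))) (List.cons (C.node (nat_lit 0) (nat_lit 6) (nat_lit 8) (C.cons (nat_lit 323) (C.node (nat_lit 0) (nat_lit 7) (nat_lit 8) (C.cons (nat_lit 385) (C.ref (nat_lit 9) (nat_lit 3582863703552528)) C.nil)) (C.cons (nat_lit 321) (C.node (nat_lit 0) (nat_lit 1) (nat_lit 8) (C.cons (nat_lit 387) (C.ref (nat_lit 9) (nat_lit 3582863451894288)) (C.cons (nat_lit 259) (C.node (nat_lit 0) (nat_lit 7) (nat_lit 8) (C.cons (nat_lit 385) (C.ref (nat_lit 10) (nat_lit 3582863703552528)) C.nil)) C.nil))) C.nil))) (List.cons (C.node (nat_lit 0) (nat_lit 1) (nat_lit 9) (C.cons (nat_lit 643) (C.node (nat_lit 0) (nat_lit 1) (nat_lit 2) (C.cons (nat_lit 2055) (C.node (nat_lit 0) (nat_lit 3) (nat_lit 9) (C.cons (nat_lit 585) (C.node (nat_lit 0) (nat_lit 6) (nat_lit 11) (C.cons (nat_lit 2113) (C.node (nat_lit 0) (nat_lit 2)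 (nat_lit 3) (C.cons (nat_lit 141) (C.node (nat_lit 0) (nat_lit 3) (nat_lit 11) C.nil) C.nil)) C.nil)) (C.cons (nat_lit 521) (C.node (nat_lit 0) (nat_lit 6) (nat_lit 9) C.nil) C.nil))) (C.cons (nat_lit 7) (C.node (nat_lit 0) (nat_lit 1) (nat_lit 11) C.nil) C.nil))) (C.cons (nat_lit 515) (C.node (nat_lit 0) (nat_lit 6) (nat_lit 9) (C.cons (nat_lit 585) (C.node (nat_lit 0) (nat_lit 7) (nat_lit 9) C.nil) C.nil)) C.nil))) (List.cons (C.node (nat_lit 0) (nat_lit 6) (nat_lit 8) (C.cons (nat_lit 323) (C.node (nat_lit 0) (nat_lit 7) (nat_lit 8) (C.cons (nat_lit 385) (C.ref (nat_lit 12) (nat_lit 3582863703552528)) C.nil)) (C.cons (nat_lit 321) (C.node (nat_lit 0) (nat_lit 1) (nat_lit 8) (C.cons (nat_lit 387) (C.ref (nat_lit 12) (nat_lit 3582863451894288)) (C.cons (nat_lit 259) (C.node (nat_lit 0) (nat_lit 7) (nat_lit 8) C.nil) C.nil))) C.nil))) (List.cons (C.node (nat_lit 0) (nat_lit 1) (nat_lit 5) (C.cons (nat_lit 547) (C.node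 (nat_lit 0) (nat_lit 1) (nat_lit 7) (C.cons (nat_lit 131) (C.node (nat_lit 0) (nat_lit 3) (nat_lit 5) (C.cons (nat_lit 2089) (C.node (nat_lit 0) (nat_lit 6) (nat_lit 11) (C.cons (nat_lit 2113) (C.node (nat_lit 0) (nat_lit 7) (nat_lit 11) C.nil) C.nil)) (C.cons (nat_lit 41) (C.node (nat_lit 0) (nat_lit 5) (nat_lit 11) C.nil) C.nil))) C.nil)) (C.cons (nat_lit 35) (C.node (nat_lit 0) (nat_lit 1) (nat_lit 7) (C.cons (nat_lit 643) (C.node (nat_lit 0) (nat_lit 3) (nat_lit 9) (C.cons (nat_lit 553)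
  (C.node (nat_lit 0) (nat_lit 5) (nat_lit 11) (C.cons (nat_lit 2081) (C.node (nat_lit 0) (nat_lit 6) (nat_lit 11) (C.cons (nat_lit 2121) (C.node (nat_lit 0) (nat_lit 7) (nat_lit 11) C.nil) C.nil)) C.nil)) (C.cons (nat_lit 521) (C.node (nat_lit 0) (nat_lit 5) (nat_lit 9) C.nil) C.nil))) (C.cons (nat_lit 131) (C.node (nat_lit 0) (nat_lit 1) (nat_lit 9) C.nil) C.nil))) C.nil))) (List.cons (C.node (nat_lit 0) (nat_lit 6) (nat_lit 9) (C.cons (nat_lit 585) (C.node (nat_lit 0) (nat_lit 3) (nat_lit 5) (C.cons (nat_lit 2089) (C.node (nat_lit 0) (nat_lit 1) (nat_lit 5) (C.cons (nat_lit 547) (C.node (nat_lit 0) (nat_lit 7) (nat_lit 9) (C.cons (nat_lit 641) (C.node (nat_lit 0) (nat_lit 10) (nat_lit 6) (C.cons (nat_lit 1093) (C.pat (nat_lit 1) (nat_lit 609855105) (nat_lit 5415607852723747905152193309377106161)) (C.cons (nat_lit 1089) (C.node (nat_lit 0) (nat_lit 2) (nat_lit 6) (C.cons (nat_lit 2117) (C.pat (nat_lit 1) (nat_lit 910800258)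 (nat_lit 10992138798637696931418616008942883057)) (C.cons (nat_lit 69) (C.node (nat_lit 0) (nat_lit 11) (nat_lit 6) C.nil) C.nil))) C.nil))) C.nil)) (C.cons (nat_lit 35) (C.node (nat_lit 0) (nat_lit 5) (nat_lit 9) (C.cons (nat_lit 545) (C.node (nat_lit 0) (nat_lit 1) (nat_lit 9) (C.cons (nat_lit 643) (C.node (nat_lit 0) (nat_lit 1) (nat_lit 2) (C.cons (nat_lit 2055) (C.node (nat_lit 0) (nat_lit 6) (nat_lit 11) (C.cons (nat_lit 2113) (C.node (nat_lit 0) (nat_lit 7) (nat_lit 11) C.nil) C.nil)) (C.cons (nat_lit 7) (C.node (nat_lit 0) (nat_lit 1) (nat_lit 11) C.nil) C.nil))) (C.cons (nat_lit 515) (C.node (nat_lit 0) (nat_lit 7) (nat_lit 9) C.nil) C.nil))) C.nil)) C.nil))) (C.cons (nat_lit 41) (C.node (nat_lit 0) (nat_lit 5) (nat_lit 9) (C.cons (nat_lit 547) (C.node (nat_lit 0) (nat_lit 5) (nat_lit 11) (C.cons (nat_lit 2081) (C.node (nat_lit 0) (nat_lit 7) (nat_lit 9) (C.cons (nat_lit 641) (C.node (nat_lit 0) (nat_lit 10)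 (nat_lit 6) (C.cons (nat_lit 1093) (C.pat (nat_lit 1) (nat_lit 609855105) (nat_lit 5415607852723747905152193309377106161)) C.nil)) C.nil)) C.nil)) (C.cons (nat_lit 545) (C.node (nat_lit 0) (nat_lit 1) (nat_lit 5) (C.cons (nat_lit 2083) (C.node (nat_lit 0) (nat_lit 1) (nat_lit 2) (C.cons (nat_lit 135) (C.node (nat_lit 0) (nat_lit 1) (nat_lit 9) (C.cons (nat_lit 515) (C.node (nat_lit 0) (nat_lit 7) (nat_lit 9) C.nil) C.nil)) (C.cons (nat_lit 7) (C.node (nat_lit 0) (nat_lit 1) (nat_lit 7) (C.cons (nat_lit 643) (C.node (nat_lit 0) (nat_lit 10) (nat_lit 6) (C.cons (nat_lit 1093) (C.node (nat_lit 0) (nat_lit 11) (nat_lit 6) C.nil) C.nil)) C.nil)) C.nil))) (C.cons (nat_lit 35) (C.node (nat_lit 0) (nat_lit 5) (nat_lit 11) C.nil) C.nil))) C.nil))) C.nil))) (C.cons (nat_lit 577) (C.node (nat_lit 0) (nat_lit 1) (nat_lit 2) (C.cons (nat_lit 2055) (C.ref (nat_lit 14) (nat_lit 3582863703552528)) (C.cons (nat_lit 135) (C.ref (nat_lit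 14) (nat_lit 3507806000394768)) (C.cons (nat_lit 7) (C.node (nat_lit 0) (nat_lit 1) (nat_lit 5) (C.cons (nat_lit 2083) (C.node (nat_lit 0) (nat_lit 1) (nat_lit 7) (C.cons (nat_lit 643) (C.node (nat_lit 0) (nat_lit 3) (nat_lit 5) (C.cons (nat_lit 553) (C.node (nat_lit 0) (nat_lit 6) (nat_lit 10) (C.cons (nat_lit 1097) (C.pat (nat_lit 0) (nat_lit 109726769) (nat_lit 628839169007231873471404211113995)) (C.cons (nat_lit 1093) (C.node (nat_lit 0) (nat_lit 3) (nat_lit 6) (C.cons (nat_lit 2121) (C.pat (nat_lit 4) (nat_lit 255987975764) (nat_lit 11600035214008675862086869641713902226814804924104997)) (C.cons (nat_lit 73) (C.node (nat_lit 0) (nat_lit 6) (nat_lit 11) C.nil) C.nil))) (C.cons (nat_lit 1089) (C.node (nat_lit 0) (nat_lit 2) (nat_lit 6) (C.cons (nat_lit 2117) (C.node (nat_lit 0) (nat_lit 3) (nat_lit 6) C.nil) (C.cons (nat_lit 77) (C.node (nat_lit 0) (nat_lit 6) (nat_lit 11) C.nil) C.nil))) C.nil)))) (C.cons (nat_lit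 41) (C.node (nat_lit 0) (nat_lit 3) (nat_lit 9) C.nil) C.nil))) (C.cons (nat_lit 131) (C.node (nat_lit 0) (nat_lit 1) (nat_lit 9) C.nil) C.nil))) (C.cons (nat_lit 547) (C.node (nat_lit 0) (nat_lit 1) (nat_lit 7) (C.cons (nat_lit 2179)
  (C.node (nat_lit 0) (nat_lit 3) (nat_lit 5) (C.cons (nat_lit 2089) (C.node (nat_lit 0) (nat_lit 2) (nat_lit 11) (C.cons (nat_lit 2117) (C.node (nat_lit 0) (nat_lit 3) (nat_lit 6) (C.cons (nat_lit 1097) (C.pat (nat_lit 0) (nat_lit 109726769) (nat_lit 628839169007231873471404211113995)) (C.cons (nat_lit 73) (C.node (nat_lit 0) (nat_lit 6) (nat_lit 10) C.nil) C.nil))) (C.cons (nat_lit 2053) (C.node (nat_lit 0) (nat_lit 6) (nat_lit 11) C.nil) C.nil))) (C.cons (nat_lit 41) (C.node (nat_lit 0) (nat_lit 5) (nat_lit 11) C.nil) C.nil))) (C.cons (nat_lit 131) (C.node (nat_lit 0) (nat_lit 1) (nat_lit 11) C.nil) C.nil))) (C.cons (nat_lit 35) (C.node (nat_lit 0) (nat_lit 1) (nat_lit 9) (C.cons (nat_lit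 643) (C.node (nat_lit 0) (nat_lit 1) (nat_lit 11) C.nil) C.nil)) C.nil)))) C.nil)))) C.nil))) (List.cons (C.node (nat_lit 0) (nat_lit 6) (nat_lit 9) (C.cons (nat_lit 579) (C.node (nat_lit 0) (nat_lit 7) (nat_lit 9) (C.cons (nat_lit 641) (C.node (nat_lit 0) (nat_lit 1) (nat_lit 2) (C.cons (nat_lit 135) (C.node (nat_lit 0) (nat_lit 11) (nat_lit 7) (C.cons (nat_lit 2185) (C.node (nat_lit 0) (nat_lit 10) (nat_lit 7) C.nil) C.nil)) C.nil)) C.nil)) (C.cons (nat_lit 577) (C.node (nat_lit 0) (nat_lit 1) (nat_lit 6) (C.cons (nat_lit 71) (C.node (nat_lit 0) (nat_lit 1) (nat_lit 7) (C.cons (nat_lit 643) (C.node (nat_lit 0) (nat_lit 11) (nat_lit 6) (C.cons (nat_lit 2121) (C.node (nat_lit 0) (nat_lit 10) (nat_lit 6) C.nil) C.nil)) C.nil)) C.nil)) C.nil))) (List.cons (C.node (nat_lit 0) (nat_lit 6) (nat_lit 9) (C.cons (nat_lit 585) (C.node (nat_lit 0) (nat_lit 7) (nat_lit 9) (C.cons (nat_lit 641) (C.node (nat_lit 0) (nat_lit 6) (nat_lit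 10) (C.cons (nat_lit 1093) (C.node (nat_lit 0) (nat_lit 1) (nat_lit 6) (C.cons (nat_lit 2115) (C.pat (nat_lit 0) (nat_lit 112811057) (nat_lit 628839168997787649420119362441227)) C.nil)) C.nil)) C.nil)) (C.cons (nat_lit 577) (C.node (nat_lit 0) (nat_lit 3) (nat_lit 9) (C.cons (nat_lit 649) (C.node (nat_lit 0) (nat_lit 7) (nat_lit 10) (C.cons (nat_lit 1157) (C.node (nat_lit 0) (nat_lit 1) (nat_lit 7) (C.cons (nat_lit 2179) (C.pat (nat_lit 0) (nat_lit 129588273) (nat_lit 628839168998968241041111651651595)) C.nil)) C.nil)) C.nil)) C.nil))) (List.cons (C.node (nat_lit 0) (nat_lit 1) (nat_lit 5) (C.cons (nat_lit 2083) (C.node (nat_lit 0) (nat_lit 3) (nat_lit 5) (C.cons (nat_lit 553) (C.ref (nat_lit 16) (nat_lit 3582863703552528)) (C.cons (nat_lit 41) (C.node (nat_lit 0) (nat_lit 5) (nat_lit 9) C.nil) C.nil))) (C.cons (nat_lit 547) (C.node (nat_lit 0) (nat_lit 3) (nat_lit 5) (C.cons (nat_lit 2089) (C.ref (nat_lit 17) (nat_lit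 3582863703552528)) (C.cons (nat_lit 41) (C.node (nat_lit 0) (nat_lit 5) (nat_lit 11) C.nil) C.nil))) (C.cons (nat_lit 35) (C.node (nat_lit 0) (nat_lit 5) (nat_lit 9) (C.cons (nat_lit 553) (C.node (nat_lit 0) (nat_lit 5) (nat_lit 11) C.nil) C.nil)) C.nil)))) (List.cons (C.node (nat_lit 0) (nat_lit 6) (nat_lit 8) (C.cons (nat_lit 325) (C.node (nat_lit 0) (nat_lit 7) (nat_lit 8) (C.cons (nat_lit 385) (C.node (nat_lit 0) (nat_lit 6) (nat_lit 9) (C.cons (nat_lit 579) (C.node (nat_lit 0) (nat_lit 7) (nat_lit 9) (C.cons (nat_lit 641) (C.node (nat_lit 0) (nat_lit 6) (nat_lit 10) (C.cons (nat_lit 1097) (C.pat (nat_lit 1) (nat_lit 965044801) (nat_lit 3006383694617353234763051502031412993)) C.nil)) C.nil)) (C.cons (nat_lit 577) (C.node (nat_lit 0) (nat_lit 1) (nat_lit 6) (C.cons (nat_lit 2115) (C.node (nat_lit 0) (nat_lit 1) (nat_lit 2) (C.cons (nat_lit 135) (C.node (nat_lit 0) (nat_lit 1) (nat_lit 9) C.nil) C.nil)) C.nil)) C.nil)))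 C.nil)) (C.cons (nat_lit 321) (C.node (nat_lit 0) (nat_lit 2) (nat_lit 8) (C.cons (nat_lit 389) (C.node (nat_lit 0) (nat_lit 7) (nat_lit 9) (C.cons (nat_lit 643) (C.node (nat_lit 0) (nat_lit 6) (nat_lit 9) (C.cons (nat_lit 577) (C.node (nat_lit 0) (nat_lit 7) (nat_lit 10) (C.cons (nat_lit 1161) (C.pat (nat_lit 1) (nat_lit 965048897) (nat_lit 3338690693563583383580623984512802561)) C.nil)) C.nil)) (C.cons (nat_lit 641) (C.node (nat_lit 0) (nat_lit 1) (nat_lit 7) (C.cons (nat_lit 2179)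
  (C.node (nat_lit 0) (nat_lit 1) (nat_lit 2) (C.cons (nat_lit 71) (C.node (nat_lit 0) (nat_lit 1) (nat_lit 9) C.nil) C.nil)) C.nil)) C.nil))) (C.cons (nat_lit 261) (C.node (nat_lit 0) (nat_lit 7) (nat_lit 8) C.nil) C.nil))) C.nil))) List.nil))))))))))))))))))))

theorem ok13_0 : okL par13 (nat_lit 20) c13_0 (nat_lit 0) = true := by decide +kernel

noncomputable def c13_20 : List C :=
  (List.cons (C.node (nat_lit 0) (nat_lit 3) (nat_lit 9) (C.cons (nat_lit 585) (C.node (nat_lit 0) (nat_lit 6) (nat_lit 10) (C.cons (nat_lit 1093) (C.node (nat_lit 0) (nat_lit 1) (nat_lit 2) (C.cons (nat_lit 2055) (C.node (nat_lit 0) (nat_lit 1) (nat_lit 6) (C.cons (nat_lit 67) (C.node (nat_lit 0) (nat_lit 6) (nat_lit 11) C.nil) C.nil)) (C.cons (nat_lit 7) (C.node (nat_lit 0) (nat_lit 1) (nat_lit 6) (C.cons (nat_lit 2115) (C.node (nat_lit 0) (nat_lit 5) (nat_lit 10) (C.cons (nat_lit 1065) (C.pat (nat_lit 0) (nat_lit 92949553) (nat_lit 628839169006641577660908066508811))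 C.nil)) C.nil)) C.nil))) (C.cons (nat_lit 1089) (C.node (nat_lit 0) (nat_lit 1) (nat_lit 2) (C.cons (nat_lit 2055) (C.node (nat_lit 0) (nat_lit 1) (nat_lit 6) C.nil) (C.cons (nat_lit 71) (C.node (nat_lit 0) (nat_lit 1) (nat_lit 11) C.nil) C.nil))) C.nil))) (C.cons (nat_lit 521) (C.node (nat_lit 0) (nat_lit 6) (nat_lit 9) C.nil) C.nil))) (List.cons (C.node (nat_lit 0) (nat_lit 1) (nat_lit 9) (C.cons (nat_lit 643) (C.ref (nat_lit 20) (nat_lit 3582863703552528)) (C.cons (nat_lit 579) (C.ref (nat_lit 20) (nat_lit 3582863451894288)) (C.cons (nat_lit 515) (C.node (nat_lit 0) (nat_lit 6) (nat_lit 9) (C.cons (nat_lit 585) (C.node (nat_lit 0) (nat_lit 7) (nat_lit 9) C.nil) C.nil)) C.nil)))) (List.cons (C.node (nat_lit 0) (nat_lit 6) (nat_lit 10) (C.cons (nat_lit 1097) (C.node (nat_lit 0) (nat_lit 7) (nat_lit 10) (C.cons (nat_lit 1153) (C.node (nat_lit 0) (nat_lit 2) (nat_lit 6) (C.cons (nat_lit 2117) (C.pat (nat_lit 1) (nat_lit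 373929378) (nat_lit 10992138323268721735366613236210274545)) (C.cons (nat_lit 69) (C.node (nat_lit 0) (nat_lit 11) (nat_lit 6) C.nil) C.nil))) C.nil)) (C.cons (nat_lit 1089) (C.node (nat_lit 0) (nat_lit 3) (nat_lit 10) (C.cons (nat_lit 1161) (C.node (nat_lit 0) (nat_lit 7) (nat_lit 11) (C.cons (nat_lit 2181) (C.node (nat_lit 0) (nat_lit 1) (nat_lit 2) (C.cons (nat_lit 263) (C.node (nat_lit 0) (nat_lit 1) (nat_lit 7) (C.cons (nat_lit 131) (C.node (nat_lit 0) (nat_lit 7) (nat_lit 8) C.nil) C.nil)) (C.cons (nat_lit 7) (C.node (nat_lit 0) (nat_lit 2) (nat_lit 8) C.nil) C.nil))) (C.cons (nat_lit 2177) (C.node (nat_lit 0) (nat_lit 1) (nat_lit 2) (C.cons (nat_lit 263) (C.node (nat_lit 0) (nat_lit 1) (nat_lit 7) C.nil) (C.cons (nat_lit 135) (C.node (nat_lit 0) (nat_lit 1) (nat_lit 8) C.nil) C.nil))) C.nil))) (C.cons (nat_lit 1033) (C.node (nat_lit 0) (nat_lit 7) (nat_lit 10) C.nil) C.nil))) C.nil))) (List.cons (C.node (nat_lit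 0) (nat_lit 6) (nat_lit 8) (C.cons (nat_lit 325) (C.node (nat_lit 0) (nat_lit 1) (nat_lit 2) (C.cons (nat_lit 135) (C.node (nat_lit 0) (nat_lit 1) (nat_lit 8) (C.cons (nat_lit 259) (C.node (nat_lit 0) (nat_lit 7) (nat_lit 8) (C.cons (nat_lit 385) (C.node (nat_lit 0) (nat_lit 2) (nat_lit 3) (C.cons (nat_lit 2061) (C.node (nat_lit 0) (nat_lit 6) (nat_lit 11) (C.cons (nat_lit 2113) (C.node (nat_lit 0) (nat_lit 7) (nat_lit 11) C.nil) C.nil)) (C.cons (nat_lit 13) (C.node (nat_lit 0) (nat_lit 2) (nat_lit 11) C.nil) C.nil))) C.nil)) C.nil)) (C.cons (nat_lit 7) (C.node (nat_lit 0) (nat_lit 1) (nat_lit 7) (C.cons (nat_lit 387) (C.node (nat_lit 0) (nat_lit 6) (nat_lit 10) (C.cons (nat_lit 1097) (C.pat (nat_lit 1) (nat_lit 981883202) (nat_lit 5509113880592641354352520724135091969)) (C.cons (nat_lit 1089) (C.node (nat_lit 0) (nat_lit 3) (nat_lit 6) (C.cons (nat_lit 2121) (C.pat (nat_lit 0) (nat_lit 110844977) (nat_lit 628839169026121415965176037052427))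 (C.cons (nat_lit 73) (C.node (nat_lit 0) (nat_lit 6) (nat_lit 11) C.nil) C.nil))) C.nil))) (C.cons (nat_lit 131) (C.node (nat_lit 0) (nat_lit 1) (nat_lit 8) (C.cons (nat_lit 259) (C.node (nat_lit 0) (nat_lit 7) (nat_lit 8) C.nil) C.nil)) C.nil))) C.nil))) (C.cons (nat_lit 321) (C.ref (nat_lit 22) (nat_lit 3582863703552528)) C.nil))) (List.cons (C.node (nat_lit 0) (nat_lit 6) (nat_lit 8) (C.cons (nat_lit 325) (C.node (nat_lit 0) (nat_lit 1) (nat_lit 8) (C.cons (nat_lit 387) (C.node (nat_lit 0) (nat_lit 1) (nat_lit 2) (C.cons (nat_lit 2055) (C.node (nat_lit 0) (nat_lit 2) (nat_lit 3)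
  (C.cons (nat_lit 141) (C.node (nat_lit 0) (nat_lit 10) (nat_lit 7) (C.cons (nat_lit 1153) (C.node (nat_lit 0) (nat_lit 11) (nat_lit 7) C.nil) C.nil)) (C.cons (nat_lit 13) (C.node (nat_lit 0) (nat_lit 2) (nat_lit 7) C.nil) C.nil))) (C.cons (nat_lit 7) (C.node (nat_lit 0) (nat_lit 1) (nat_lit 11) C.nil) C.nil))) (C.cons (nat_lit 259) (C.node (nat_lit 0) (nat_lit 7) (nat_lit 8) C.nil) C.nil))) (C.cons (nat_lit 321) (C.node (nat_lit 0) (nat_lit 6) (nat_lit 10) (C.cons (nat_lit 1097) (C.node (nat_lit 0) (nat_lit 7) (nat_lit 10) C.nil) C.nil)) C.nil))) (List.cons (C.node (nat_lit 0) (nat_lit 1) (nat_lit 5) (C.cons (nat_lit 2083) (C.node (nat_lit 0) (nat_lit 2) (nat_lit 5) (C.cons (nat_lit 37) (C.node (nat_lit 0) (nat_lit 1) (nat_lit 2) (C.cons (nat_lit 135) (C.node (nat_lit 0) (nat_lit 1) (nat_lit 8) C.nil) (C.cons (nat_lit 263) (C.node (nat_lit 0) (nat_lit 1) (nat_lit 7) C.nil) C.nil))) C.nil)) (C.cons (nat_lit 39) (C.node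 (nat_lit 0) (nat_lit 5) (nat_lit 11) (C.cons (nat_lit 2081) (C.node (nat_lit 0) (nat_lit 1) (nat_lit 8) (C.cons (nat_lit 387) (C.node (nat_lit 0) (nat_lit 1) (nat_lit 11) C.nil) C.nil)) C.nil)) (C.cons (nat_lit 35) (C.node (nat_lit 0) (nat_lit 2) (nat_lit 5) (C.cons (nat_lit 2085) (C.node (nat_lit 0) (nat_lit 1) (nat_lit 11) (C.cons (nat_lit 2179) (C.node (nat_lit 0) (nat_lit 1) (nat_lit 2) (C.cons (nat_lit 263) (C.node (nat_lit 0) (nat_lit 7) (nat_lit 8) C.nil) C.nil)) C.nil)) C.nil)) C.nil)))) (List.cons (C.node (nat_lit 0) (nat_lit 6) (nat_lit 8) (C.cons (nat_lit 325) (C.node (nat_lit 0) (nat_lit 1) (nat_lit 8) (C.cons (nat_lit 387) (C.ref (nat_lit 22) (nat_lit 3507741574902288)) (C.cons (nat_lit 259) (C.node (nat_lit 0) (nat_lit 7) (nat_lit 8) (C.cons (nat_lit 385) (C.node (nat_lit 0) (nat_lit 10) (nat_lit 6) (C.cons (nat_lit 1097) (C.node (nat_lit 0) (nat_lit 11) (nat_lit 6) C.nil) C.nil)) C.nil)) C.nil))) (C.cons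 (nat_lit 321) (C.ref (nat_lit 25) (nat_lit 3582863703552528)) C.nil))) (List.cons (C.node (nat_lit 0) (nat_lit 6) (nat_lit 10) (C.cons (nat_lit 1093) (C.node (nat_lit 0) (nat_lit 5) (nat_lit 10) (C.cons (nat_lit 1065) (C.node (nat_lit 0) (nat_lit 7) (nat_lit 10) (C.cons (nat_lit 1153) (C.node (nat_lit 0) (nat_lit 2) (nat_lit 5) (C.cons (nat_lit 2085) (C.node (nat_lit 0) (nat_lit 2) (nat_lit 3) (C.cons (nat_lit 141) (C.node (nat_lit 0) (nat_lit 3) (nat_lit 11) (C.cons (nat_lit 2057) (C.node (nat_lit 0) (nat_lit 2) (nat_lit 1) (C.cons (nat_lit 263) (C.pat (nat_lit 2) (nat_lit 35250414228) (nat_lit 5865282124706382137053519355949240418229879849)) (C.cons (nat_lit 7) (C.node (nat_lit 0) (nat_lit 2) (nat_lit 8) C.nil) C.nil))) C.nil)) (C.cons (nat_lit 13) (C.node (nat_lit 0) (nat_lit 3) (nat_lit 7) (C.cons (nat_lit 2185) (C.node (nat_lit 0) (nat_lit 1) (nat_lit 11) (C.cons (nat_lit 2115) (C.pat (nat_lit 1) (nat_lit 731212353)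 (nat_lit 10981873047181305261256387641063055105)) (C.cons (nat_lit 2051) (C.node (nat_lit 0) (nat_lit 6) (nat_lit 11) C.nil) C.nil))) (C.cons (nat_lit 137) (C.node (nat_lit 0) (nat_lit 3) (nat_lit 11) C.nil) C.nil))) C.nil))) (C.cons (nat_lit 37) (C.node (nat_lit 0) (nat_lit 5) (nat_lit 11) (C.cons (nat_lit 2081) (C.node (nat_lit 0) (nat_lit 6) (nat_lit 8) (C.cons (nat_lit 323) (C.pat (nat_lit 1) (nat_lit 430270531) (nat_lit 3037537001335281421764499508261101313)) C.nil)) C.nil)) C.nil))) C.nil)) (C.cons (nat_lit 1057) (C.node (nat_lit 0) (nat_lit 3) (nat_lit 10) (C.cons (nat_lit 1161) (C.ref (nat_lit 22) (nat_lit 3507741543436848)) (C.cons (nat_lit 1033) (C.node (nat_lit 0) (nat_lit 7) (nat_lit 10) (C.cons (nat_lit 1153) (C.node (nat_lit 0) (nat_lit 8) (nat_lit 6) (C.cons (nat_lit 323) (C.node (nat_lit 0) (nat_lit 11) (nat_lit 6) C.nil) C.nil)) C.nil)) C.nil))) C.nil))) (C.cons (nat_lit 1089) (C.node (nat_lit 0) (nat_lit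 5) (nat_lit 10) (C.cons (nat_lit 1065) (C.node (nat_lit 0) (nat_lit 2) (nat_lit 5) (C.cons (nat_lit 2085) (C.node (nat_lit 0) (nat_lit 2) (nat_lit 3) (C.cons (nat_lit 141) (C.node (nat_lit 0) (nat_lit 2) (nat_lit 10) (C.cons (nat_lit 1029)
  (C.node (nat_lit 0) (nat_lit 3) (nat_lit 11) (C.cons (nat_lit 2057) (C.node (nat_lit 0) (nat_lit 7) (nat_lit 10) C.nil) C.nil)) C.nil)) (C.cons (nat_lit 13) (C.node (nat_lit 0) (nat_lit 2) (nat_lit 10) (C.cons (nat_lit 1157) (C.node (nat_lit 0) (nat_lit 3) (nat_lit 7) (C.cons (nat_lit 2185) (C.node (nat_lit 0) (nat_lit 1) (nat_lit 7) (C.cons (nat_lit 387) (C.pat (nat_lit 4) (nat_lit 243623175285) (nat_lit 11600035214536802569337343045007230649881917438362757)) (C.cons (nat_lit 131) (C.node (nat_lit 0) (nat_lit 7) (nat_lit 8) C.nil) C.nil))) (C.cons (nat_lit 137) (C.node (nat_lit 0) (nat_lit 3) (nat_lit 11) C.nil) C.nil))) (C.cons (nat_lit 1029) (C.node (nat_lit 0) (nat_lit 7) (nat_lit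 10) C.nil) C.nil))) C.nil))) (C.cons (nat_lit 37) (C.node (nat_lit 0) (nat_lit 5) (nat_lit 11) (C.cons (nat_lit 2081) (C.node (nat_lit 0) (nat_lit 2) (nat_lit 10) (C.cons (nat_lit 1157) (C.node (nat_lit 0) (nat_lit 2) (nat_lit 3) (C.cons (nat_lit 2061) (C.node (nat_lit 0) (nat_lit 3) (nat_lit 7) C.nil) C.nil)) C.nil)) C.nil)) C.nil))) (C.cons (nat_lit 1061) (C.node (nat_lit 0) (nat_lit 3) (nat_lit 5) (C.cons (nat_lit 2089) (C.node (nat_lit 0) (nat_lit 2) (nat_lit 3) (C.cons (nat_lit 141) (C.node (nat_lit 0) (nat_lit 3) (nat_lit 10) (C.cons (nat_lit 1033) (C.node (nat_lit 0) (nat_lit 10) (nat_lit 7) (C.cons (nat_lit 1153) (C.node (nat_lit 0) (nat_lit 11) (nat_lit 7) (C.cons (nat_lit 2179) (C.node (nat_lit 0) (nat_lit 8) (nat_lit 7) C.nil) C.nil)) C.nil)) C.nil)) (C.cons (nat_lit 13) (C.node (nat_lit 0) (nat_lit 3) (nat_lit 7) (C.cons (nat_lit 1161) (C.node (nat_lit 0) (nat_lit 6) (nat_lit 11) (C.cons (nat_lit 2115) (C.pat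 (nat_lit 0) (nat_lit 110844947) (nat_lit 628839169026010733811909689675787)) (C.cons (nat_lit 2117) (C.node (nat_lit 0) (nat_lit 1) (nat_lit 6) (C.cons (nat_lit 323) (C.pat (nat_lit 4) (nat_lit 105951434309) (nat_lit 11600035214188347496129458812019048975184479912264213)) (C.cons (nat_lit 67) (C.node (nat_lit 0) (nat_lit 6) (nat_lit 8) C.nil) C.nil))) (C.cons (nat_lit 2113) (C.node (nat_lit 0) (nat_lit 2) (nat_lit 6) (C.cons (nat_lit 325) (C.node (nat_lit 0) (nat_lit 1) (nat_lit 6) C.nil) (C.cons (nat_lit 71) (C.node (nat_lit 0) (nat_lit 6) (nat_lit 8) C.nil) C.nil))) C.nil)))) (C.cons (nat_lit 137) (C.node (nat_lit 0) (nat_lit 3) (nat_lit 10) C.nil) C.nil))) C.nil))) (C.cons (nat_lit 41) (C.node (nat_lit 0) (nat_lit 5) (nat_lit 11) (C.cons (nat_lit 2081) (C.node (nat_lit 0) (nat_lit 3) (nat_lit 10) (C.cons (nat_lit 1161) (C.node (nat_lit 0) (nat_lit 3) (nat_lit 2) (C.cons (nat_lit 2061) (C.node (nat_lit 0) (nat_lit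 7) (nat_lit 11) (C.cons (nat_lit 2179) (C.node (nat_lit 0) (nat_lit 6) (nat_lit 11) C.nil) C.nil)) C.nil)) C.nil)) C.nil)) C.nil))) (C.cons (nat_lit 1057) (C.ref (nat_lit 25) (nat_lit 3580673270223408)) C.nil)))) C.nil))) (List.cons (C.node (nat_lit 0) (nat_lit 5) (nat_lit 10) (C.cons (nat_lit 1065) (C.node (nat_lit 0) (nat_lit 2) (nat_lit 5) (C.cons (nat_lit 2085) (C.ref (nat_lit 10) (nat_lit 3530228878348848)) (C.cons (nat_lit 37) (C.node (nat_lit 0) (nat_lit 5) (nat_lit 11) C.nil) C.nil))) (C.cons (nat_lit 1061) (C.node (nat_lit 0) (nat_lit 3) (nat_lit 5) (C.cons (nat_lit 2089) (C.ref (nat_lit 16) (nat_lit 3531259670499888)) (C.cons (nat_lit 41) (C.node (nat_lit 0) (nat_lit 5) (nat_lit 11) C.nil) C.nil))) (C.cons (nat_lit 1057) (C.node (nat_lit 0) (nat_lit 3) (nat_lit 5) (C.cons (nat_lit 2089) (C.node (nat_lit 0) (nat_lit 2) (nat_lit 5) C.nil) (C.cons (nat_lit 45) (C.node (nat_lit 0) (nat_lit 5) (nat_lit 11) C.nil)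 C.nil))) C.nil)))) (List.cons (C.node (nat_lit 0) (nat_lit 3) (nat_lit 9) (C.cons (nat_lit 585) (C.node (nat_lit 0) (nat_lit 6) (nat_lit 10) (C.cons (nat_lit 1093) (C.node (nat_lit 0) (nat_lit 6) (nat_lit 11) (C.cons (nat_lit 2113) (C.node (nat_lit 0) (nat_lit 1) (nat_lit 2) (C.cons (nat_lit 263) (C.node (nat_lit 0) (nat_lit 1) (nat_lit 6) (C.cons (nat_lit 67) (C.node (nat_lit 0) (nat_lit 6) (nat_lit 8) (C.cons (nat_lit 321) (C.node (nat_lit 0) (nat_lit 7) (nat_lit 8) C.nil) C.nil)) C.nil))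
  (C.cons (nat_lit 7) (C.node (nat_lit 0) (nat_lit 1) (nat_lit 6) (C.cons (nat_lit 323) (C.node (nat_lit 0) (nat_lit 2) (nat_lit 5) (C.cons (nat_lit 45) (C.node (nat_lit 0) (nat_lit 5) (nat_lit 10) (C.cons (nat_lit 1057) (C.node (nat_lit 0) (nat_lit 2) (nat_lit 8) (C.cons (nat_lit 389) (C.pat (nat_lit 1) (nat_lit 681011777) (nat_lit 1677142705839326837296183969332666113)) C.nil)) C.nil)) (C.cons (nat_lit 37) (C.node (nat_lit 0) (nat_lit 2) (nat_lit 8) (C.cons (nat_lit 389) (C.pat (nat_lit 1) (nat_lit 681011777) (nat_lit 1677142705839326837296183969332666113)) C.nil)) C.nil))) (C.cons (nat_lit 67) (C.node (nat_lit 0) (nat_lit 1) (nat_lit 8) C.nil) C.nil))) C.nil))) C.nil)) (C.cons (nat_lit 1089) (C.node (nat_lit 0) (nat_lit 6) (nat_lit 11) (C.cons (nat_lit 2117) (C.node (nat_lit 0) (nat_lit 1) (nat_lit 2) (C.cons (nat_lit 263) (C.node (nat_lit 0) (nat_lit 1) (nat_lit 6) (C.cons (nat_lit 67) (C.node (nat_lit 0) (nat_lit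 6) (nat_lit 8) (C.cons (nat_lit 321) (C.node (nat_lit 0) (nat_lit 7) (nat_lit 8) C.nil) C.nil)) C.nil)) (C.cons (nat_lit 7) (C.node (nat_lit 0) (nat_lit 1) (nat_lit 6) (C.cons (nat_lit 323) (C.node (nat_lit 0) (nat_lit 2) (nat_lit 8) (C.cons (nat_lit 389) (C.node (nat_lit 0) (nat_lit 3) (nat_lit 11) (C.cons (nat_lit 2185) (C.pat (nat_lit 1) (nat_lit 731281475) (nat_lit 11345336362625869846349850121864290049)) (C.cons (nat_lit 2057) (C.node (nat_lit 0) (nat_lit 7) (nat_lit 11) C.nil) C.nil))) (C.cons (nat_lit 261) (C.node (nat_lit 0) (nat_lit 7) (nat_lit 8) C.nil) C.nil))) (C.cons (nat_lit 67) (C.node (nat_lit 0) (nat_lit 1) (nat_lit 8) C.nil) C.nil))) C.nil))) (C.cons (nat_lit 2113) (C.node (nat_lit 0) (nat_lit 7) (nat_lit 8) (C.cons (nat_lit 389) (C.node (nat_lit 0) (nat_lit 1) (nat_lit 2) (C.cons (nat_lit 71) (C.node (nat_lit 0) (nat_lit 1) (nat_lit 8) (C.cons (nat_lit 259) (C.node (nat_lit 0) (nat_lit 6) (nat_lit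 8) C.nil) C.nil)) (C.cons (nat_lit 7) (C.node (nat_lit 0) (nat_lit 2) (nat_lit 6) C.nil) C.nil))) (C.cons (nat_lit 385) (C.node (nat_lit 0) (nat_lit 1) (nat_lit 2) (C.cons (nat_lit 263) (C.node (nat_lit 0) (nat_lit 1) (nat_lit 6) C.nil) (C.cons (nat_lit 71) (C.node (nat_lit 0) (nat_lit 1) (nat_lit 8) C.nil) C.nil))) C.nil))) C.nil))) C.nil))) (C.cons (nat_lit 521) (C.node (nat_lit 0) (nat_lit 6) (nat_lit 9) (C.cons (nat_lit 577) (C.node (nat_lit 0) (nat_lit 7) (nat_lit 8) (C.cons (nat_lit 389) (C.node (nat_lit 0) (nat_lit 1) (nat_lit 2) (C.cons (nat_lit 71) (C.node (nat_lit 0) (nat_lit 1) (nat_lit 8) (C.cons (nat_lit 259) (C.node (nat_lit 0) (nat_lit 6) (nat_lit 8) C.nil) C.nil)) (C.cons (nat_lit 7) (C.node (nat_lit 0) (nat_lit 1) (nat_lit 6) (C.cons (nat_lit 323) (C.node (nat_lit 0) (nat_lit 7) (nat_lit 10) (C.cons (nat_lit 1161) (C.node (nat_lit 0) (nat_lit 7) (nat_lit 11) C.nil) C.nil)) C.nil)) C.nil))) (C.cons (nat_lit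 385) (C.node (nat_lit 0) (nat_lit 1) (nat_lit 2) (C.cons (nat_lit 263) (C.node (nat_lit 0) (nat_lit 1) (nat_lit 6) C.nil) (C.cons (nat_lit 71) (C.node (nat_lit 0) (nat_lit 1) (nat_lit 8) C.nil) C.nil))) C.nil))) C.nil)) C.nil))) (List.cons (C.node (nat_lit 0) (nat_lit 6) (nat_lit 10) (C.cons (nat_lit 1093) (C.node (nat_lit 0) (nat_lit 6) (nat_lit 11) (C.cons (nat_lit 2113) (C.node (nat_lit 0) (nat_lit 1) (nat_lit 6) (C.cons (nat_lit 323) (C.node (nat_lit 0) (nat_lit 1) (nat_lit 2) (C.cons (nat_lit 135) (C.node (nat_lit 0) (nat_lit 2) (nat_lit 8) C.nil) C.nil)) C.nil)) C.nil)) (C.cons (nat_lit 1089) (C.node (nat_lit 0) (nat_lit 6) (nat_lit 11) (C.cons (nat_lit 2117) (C.node (nat_lit 0) (nat_lit 1) (nat_lit 6) (C.cons (nat_lit 323) (C.node (nat_lit 0) (nat_lit 1) (nat_lit 2) (C.cons (nat_lit 135) (C.node (nat_lit 0) (nat_lit 2) (nat_lit 8) C.nil) C.nil)) C.nil)) C.nil)) C.nil))) (List.cons (C.node (nat_lit 0) (nat_lit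 2) (nat_lit 8) (C.cons (nat_lit 389) (C.node (nat_lit 0) (nat_lit 1) (nat_lit 8) (C.cons (nat_lit 323) (C.node (nat_lit 0) (nat_lit 1) (nat_lit 9) (C.cons (nat_lit 643) (C.pat (nat_lit 1) (nat_lit 681011777) (nat_lit 1677142705839326837296183969332666113))
  (C.cons (nat_lit 515) (C.node (nat_lit 0) (nat_lit 1) (nat_lit 7) (C.cons (nat_lit 2179) (C.node (nat_lit 0) (nat_lit 2) (nat_lit 3) (C.cons (nat_lit 2061) (C.pat (nat_lit 5) (nat_lit 766523362323) (nat_lit 177002490456677070128945645214715172598192472103)) C.nil)) C.nil)) C.nil))) (C.cons (nat_lit 259) (C.node (nat_lit 0) (nat_lit 6) (nat_lit 8) C.nil) C.nil))) (C.cons (nat_lit 261) (C.node (nat_lit 0) (nat_lit 6) (nat_lit 8) (C.cons (nat_lit 323) (C.node (nat_lit 0) (nat_lit 7) (nat_lit 8) C.nil) C.nil)) C.nil))) (List.cons (C.node (nat_lit 0) (nat_lit 1) (nat_lit 9) (C.cons (nat_lit 579) (C.node (nat_lit 0) (nat_lit 1) (nat_lit 11) (C.cons (nat_lit 2051) (C.node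 (nat_lit 0) (nat_lit 2) (nat_lit 8) (C.cons (nat_lit 325) (C.node (nat_lit 0) (nat_lit 6) (nat_lit 11) (C.cons (nat_lit 2113) (C.node (nat_lit 0) (nat_lit 2) (nat_lit 11) (C.cons (nat_lit 2181) (C.node (nat_lit 0) (nat_lit 2) (nat_lit 3) (C.cons (nat_lit 1037) (C.pat (nat_lit 5) (nat_lit 355268332593) (nat_lit 96721032758020275283439186276807561571475194893)) C.nil)) C.nil)) C.nil)) (C.cons (nat_lit 261) (C.node (nat_lit 0) (nat_lit 6) (nat_lit 8) C.nil) C.nil))) C.nil)) (C.cons (nat_lit 515) (C.node (nat_lit 0) (nat_lit 1) (nat_lit 6) (C.cons (nat_lit 2115) (C.node (nat_lit 0) (nat_lit 2) (nat_lit 8) (C.cons (nat_lit 325) (C.node (nat_lit 0) (nat_lit 2) (nat_lit 11) (C.cons (nat_lit 2181) (C.node (nat_lit 0) (nat_lit 2) (nat_lit 3) (C.cons (nat_lit 1037) (C.pat (nat_lit 5) (nat_lit 355268332593) (nat_lit 96721032758020275283439186276807561571475194893)) (C.cons (nat_lit 13) (C.node (nat_lit 0) (nat_lit 2) (nat_lit 10)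 C.nil) C.nil))) (C.cons (nat_lit 2053) (C.node (nat_lit 0) (nat_lit 7) (nat_lit 11) C.nil) C.nil))) (C.cons (nat_lit 261) (C.node (nat_lit 0) (nat_lit 6) (nat_lit 8) C.nil) C.nil))) (C.cons (nat_lit 67) (C.node (nat_lit 0) (nat_lit 1) (nat_lit 11) C.nil) C.nil))) C.nil))) (List.cons (C.node (nat_lit 0) (nat_lit 3) (nat_lit 9) (C.cons (nat_lit 585) (C.node (nat_lit 0) (nat_lit 6) (nat_lit 10) (C.cons (nat_lit 1093) (C.node (nat_lit 0) (nat_lit 5) (nat_lit 10) (C.cons (nat_lit 1065) (C.node (nat_lit 0) (nat_lit 7) (nat_lit 10) (C.cons (nat_lit 1153) (C.node (nat_lit 0) (nat_lit 2) (nat_lit 5) (C.cons (nat_lit 2085) (C.node (nat_lit 0) (nat_lit 1) (nat_lit 2) (C.cons (nat_lit 263) (C.node (nat_lit 0) (nat_lit 6) (nat_lit 8) (C.cons (nat_lit 321) (C.node (nat_lit 0) (nat_lit 7) (nat_lit 8) C.nil) C.nil)) (C.cons (nat_lit 7) (C.node (nat_lit 0) (nat_lit 1) (nat_lit 8) (C.cons (nat_lit 323) (C.node (nat_lit 0) (nat_lit 1)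 (nat_lit 11) C.nil) C.nil)) C.nil))) (C.cons (nat_lit 37) (C.node (nat_lit 0) (nat_lit 5) (nat_lit 11) C.nil) C.nil))) C.nil)) (C.cons (nat_lit 1057) (C.node (nat_lit 0) (nat_lit 3) (nat_lit 10) (C.cons (nat_lit 1161) (C.node (nat_lit 0) (nat_lit 6) (nat_lit 8) (C.cons (nat_lit 323) (C.pat (nat_lit 1) (nat_lit 965114433) (nat_lit 3338693228903469466267095111509810945)) (C.cons (nat_lit 321) (C.node (nat_lit 0) (nat_lit 1) (nat_lit 6) (C.cons (nat_lit 2115) (C.node (nat_lit 0) (nat_lit 1) (nat_lit 2) (C.cons (nat_lit 263) (C.pat (nat_lit 2) (nat_lit 35283968660) (nat_lit 5865314791813606547146011839911553867978179721)) C.nil)) C.nil)) C.nil))) (C.cons (nat_lit 1033) (C.node (nat_lit 0) (nat_lit 7) (nat_lit 10) C.nil) C.nil))) C.nil))) (C.cons (nat_lit 1089) (C.node (nat_lit 0) (nat_lit 7) (nat_lit 8) (C.cons (nat_lit 389) (C.node (nat_lit 0) (nat_lit 1) (nat_lit 8) (C.cons (nat_lit 323) (C.node (nat_lit 0) (nat_lit 1)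 (nat_lit 2) (C.cons (nat_lit 2055) (C.node (nat_lit 0) (nat_lit 2) (nat_lit 6) (C.cons (nat_lit 69) (C.node (nat_lit 0) (nat_lit 6) (nat_lit 11) C.nil) C.nil)) (C.cons (nat_lit 7) (C.node (nat_lit 0) (nat_lit 1) (nat_lit 11) C.nil) C.nil))) (C.cons (nat_lit 259) (C.node (nat_lit 0) (nat_lit 6) (nat_lit 8) C.nil) C.nil))) (C.cons (nat_lit 385) (C.node (nat_lit 0) (nat_lit 1) (nat_lit 8) (C.cons (nat_lit 323) (C.node (nat_lit 0) (nat_lit 2) (nat_lit 8) C.nil) (C.cons (nat_lit 263)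
  (C.node (nat_lit 0) (nat_lit 6) (nat_lit 8) C.nil) C.nil))) C.nil))) C.nil))) (C.cons (nat_lit 521) (C.node (nat_lit 0) (nat_lit 6) (nat_lit 9) (C.cons (nat_lit 577) (C.node (nat_lit 0) (nat_lit 7) (nat_lit 8) (C.cons (nat_lit 389) (C.node (nat_lit 0) (nat_lit 1) (nat_lit 8) (C.cons (nat_lit 323) (C.node (nat_lit 0) (nat_lit 1) (nat_lit 2) (C.cons (nat_lit 2055) (C.node (nat_lit 0) (nat_lit 5) (nat_lit 11) (C.cons (nat_lit 2089) (C.node (nat_lit 0) (nat_lit 6) (nat_lit 11) C.nil) C.nil)) C.nil)) C.nil)) C.nil)) C.nil)) C.nil))) List.nil))))))))))))))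

theorem ok13_20 : okL par13 (nat_lit 34) c13_20 (nat_lit 20) = true := by decide +kernel

noncomputable def c13_34 : List C :=
  (List.cons (C.node (nat_lit 0) (nat_lit 5) (nat_lit 8) (C.cons (nat_lit 293) (C.node (nat_lit 0) (nat_lit 5) (nat_lit 10) (C.cons (nat_lit 1065) (C.node (nat_lit 0) (nat_lit 5) (nat_lit 9) (C.cons (nat_lit 547) (C.ref (nat_lit 8) (nat_lit 3582863703552528)) (C.cons (nat_lit 545) (C.node (nat_lit 0) (nat_lit 1) (nat_lit 5) (C.cons (nat_lit 2083) (C.ref (nat_lit 11) (nat_lit 3582863703552528)) (C.cons (nat_lit 35) (C.node (nat_lit 0) (nat_lit 5) (nat_lit 11) (C.cons (nat_lit 2081) (C.ref (nat_lit 13) (nat_lit 3582863703552528)) C.nil)) C.nil))) C.nil))) (C.cons (nat_lit 1057) (C.node (nat_lit 0) (nat_lit 6) (nat_lit 8) (C.cons (nat_lit 323) (C.node (nat_lit 0) (nat_lit 7) (nat_lit 8) (C.cons (nat_lit 385) (C.ref (nat_lit 15) (nat_lit 3582863703552528)) C.nil)) (C.cons (nat_lit 321) (C.node (nat_lit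 0) (nat_lit 1) (nat_lit 8) (C.cons (nat_lit 387) (C.ref (nat_lit 15) (nat_lit 3582863451894288)) (C.cons (nat_lit 259) (C.node (nat_lit 0) (nat_lit 7) (nat_lit 8) (C.cons (nat_lit 385) (C.ref (nat_lit 18) (nat_lit 3582863703552528)) C.nil)) C.nil))) C.nil))) C.nil))) (C.cons (nat_lit 291) (C.node (nat_lit 0) (nat_lit 5) (nat_lit 9) (C.cons (nat_lit 553) (C.node (nat_lit 0) (nat_lit 5) (nat_lit 10) (C.cons (nat_lit 1061) (C.ref (nat_lit 8) (nat_lit 3580673270223408)) (C.cons (nat_lit 1057) (C.node (nat_lit 0) (nat_lit 2) (nat_lit 5) (C.cons (nat_lit 2085) (C.ref (nat_lit 11) (nat_lit 3563214227190288)) (C.cons (nat_lit 37) (C.node (nat_lit 0) (nat_lit 5) (nat_lit 11) (C.cons (nat_lit 2081) (C.ref (nat_lit 19) (nat_lit 3582863703552528)) C.nil)) C.nil))) C.nil))) (C.cons (nat_lit 545) (C.node (nat_lit 0) (nat_lit 6) (nat_lit 8) (C.cons (nat_lit 325) (C.node (nat_lit 0) (nat_lit 7) (nat_lit 8) (C.cons (nat_lit 385) (C.ref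 (nat_lit 15) (nat_lit 3506775208243728)) C.nil)) (C.cons (nat_lit 321) (C.node (nat_lit 0) (nat_lit 2) (nat_lit 8) (C.cons (nat_lit 389) (C.ref (nat_lit 15) (nat_lit 3489251741676048)) (C.cons (nat_lit 261) (C.node (nat_lit 0) (nat_lit 7) (nat_lit 8) (C.cons (nat_lit 385) (C.ref (nat_lit 21) (nat_lit 3582863703552528)) C.nil)) C.nil))) C.nil))) C.nil))) (C.cons (nat_lit 289) (C.node (nat_lit 0) (nat_lit 5) (nat_lit 9) (C.cons (nat_lit 553) (C.node (nat_lit 0) (nat_lit 5) (nat_lit 10) (C.cons (nat_lit 1061) (C.node (nat_lit 0) (nat_lit 1) (nat_lit 5) (C.cons (nat_lit 2083) (C.node (nat_lit 0) (nat_lit 6) (nat_lit 9) (C.cons (nat_lit 579) (C.node (nat_lit 0) (nat_lit 7) (nat_lit 9) (C.cons (nat_lit 641) (C.ref (nat_lit 23) (nat_lit 3582863703552528)) C.nil)) (C.cons (nat_lit 577) (C.node (nat_lit 0) (nat_lit 1) (nat_lit 9) (C.cons (nat_lit 643) (C.ref (nat_lit 23) (nat_lit 3582863451894288)) (C.cons (nat_lit 515) (C.node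 (nat_lit 0) (nat_lit 7) (nat_lit 9) (C.cons (nat_lit 641) (C.ref (nat_lit 17) (nat_lit 3531259670508048)) C.nil)) C.nil))) C.nil))) (C.cons (nat_lit 35) (C.node (nat_lit 0) (nat_lit 5) (nat_lit 11) (C.cons (nat_lit 2081) (C.node (nat_lit 0) (nat_lit 6) (nat_lit 9) (C.cons (nat_lit 579) (C.node (nat_lit 0) (nat_lit 7) (nat_lit 9) (C.cons (nat_lit 641) (C.ref (nat_lit 24) (nat_lit 3582863703552528)) C.nil)) (C.cons (nat_lit 577) (C.node (nat_lit 0) (nat_lit 1) (nat_lit 9) (C.cons (nat_lit 643) (C.ref (nat_lit 24) (nat_lit 3582863451894288)) (C.cons (nat_lit 515) (C.node (nat_lit 0) (nat_lit 7) (nat_lit 9) C.nil) C.nil))) C.nil))) C.nil)) C.nil))) (C.cons (nat_lit 1057) (C.node (nat_lit 0) (nat_lit 6) (nat_lit 9) (C.cons (nat_lit 579) (C.node (nat_lit 0) (nat_lit 7) (nat_lit 9) (C.cons (nat_lit 641) (C.ref (nat_lit 26) (nat_lit 3582863703552528)) C.nil)) (C.cons (nat_lit 577) (C.node (nat_lit 0) (nat_lit 1) (nat_lit 9)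 (C.cons (nat_lit 643) (C.ref (nat_lit 26) (nat_lit 3582863451894288)) (C.cons (nat_lit 515) (C.node (nat_lit 0) (nat_lit 7) (nat_lit 9) (C.cons (nat_lit 641) (C.node (nat_lit 0) (nat_lit 1) (nat_lit 5) (C.cons (nat_lit 2083) (C.node (nat_lit 0) (nat_lit 2) (nat_lit 5) C.nil) (C.cons (nat_lit 39) (C.node (nat_lit 0) (nat_lit 5) (nat_lit 11) C.nil) C.nil))) C.nil)) C.nil))) C.nil))) C.nil)))
  (C.cons (nat_lit 547) (C.node (nat_lit 0) (nat_lit 6) (nat_lit 9) (C.cons (nat_lit 585) (C.node (nat_lit 0) (nat_lit 7) (nat_lit 9) (C.cons (nat_lit 641) (C.ref (nat_lit 27) (nat_lit 3582863703552528)) C.nil)) (C.cons (nat_lit 577) (C.node (nat_lit 0) (nat_lit 3) (nat_lit 9) (C.cons (nat_lit 649) (C.ref (nat_lit 27) (nat_lit 3582863451894288)) (C.cons (nat_lit 521) (C.node (nat_lit 0) (nat_lit 7) (nat_lit 9) (C.cons (nat_lit 641) (C.ref (nat_lit 28) (nat_lit 3582863703552528)) C.nil)) C.nil))) C.nil))) (C.cons (nat_lit 545) (C.node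 (nat_lit 0) (nat_lit 1) (nat_lit 5) (C.cons (nat_lit 2083) (C.node (nat_lit 0) (nat_lit 1) (nat_lit 9) (C.cons (nat_lit 643) (C.ref (nat_lit 29) (nat_lit 3582863703552528)) (C.cons (nat_lit 579) (C.ref (nat_lit 29) (nat_lit 3582863451894288)) (C.cons (nat_lit 515) (C.node (nat_lit 0) (nat_lit 6) (nat_lit 9) (C.cons (nat_lit 585) (C.node (nat_lit 0) (nat_lit 7) (nat_lit 9) (C.cons (nat_lit 641) (C.ref (nat_lit 30) (nat_lit 3582863703552528)) C.nil)) (C.cons (nat_lit 577) (C.node (nat_lit 0) (nat_lit 3) (nat_lit 9) (C.cons (nat_lit 649) (C.ref (nat_lit 30) (nat_lit 3582863451894288)) (C.cons (nat_lit 521) (C.node (nat_lit 0) (nat_lit 7) (nat_lit 9) C.nil) C.nil))) C.nil))) C.nil)))) (C.cons (nat_lit 39) (C.node (nat_lit 0) (nat_lit 5) (nat_lit 10) (C.cons (nat_lit 1065) (C.node (nat_lit 0) (nat_lit 5) (nat_lit 11) (C.cons (nat_lit 2081) (C.node (nat_lit 0) (nat_lit 6) (nat_lit 10) (C.cons (nat_lit 1093) (C.node (nat_lit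 0) (nat_lit 7) (nat_lit 10) (C.cons (nat_lit 1153) (C.ref (nat_lit 31) (nat_lit 3582863703552528)) C.nil)) (C.cons (nat_lit 1089) (C.node (nat_lit 0) (nat_lit 2) (nat_lit 10) (C.cons (nat_lit 1157) (C.ref (nat_lit 31) (nat_lit 3582863451894288)) (C.cons (nat_lit 1029) (C.node (nat_lit 0) (nat_lit 7) (nat_lit 10) C.nil) C.nil))) C.nil))) C.nil)) (C.cons (nat_lit 1057) (C.node (nat_lit 0) (nat_lit 3) (nat_lit 5) (C.cons (nat_lit 2089) (C.node (nat_lit 0) (nat_lit 1) (nat_lit 8) (C.cons (nat_lit 387) (C.ref (nat_lit 32) (nat_lit 3582863703552528)) (C.cons (nat_lit 323) (C.ref (nat_lit 32) (nat_lit 3582863451894288)) (C.cons (nat_lit 259) (C.node (nat_lit 0) (nat_lit 6) (nat_lit 8) (C.cons (nat_lit 325) (C.node (nat_lit 0) (nat_lit 7) (nat_lit 8) (C.cons (nat_lit 385) (C.node (nat_lit 0) (nat_lit 2) (nat_lit 11) (C.cons (nat_lit 2181) (C.node (nat_lit 0) (nat_lit 1) (nat_lit 7) (C.cons (nat_lit 643) (C.node (nat_lit 0) (nat_lit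 1) (nat_lit 6) (C.cons (nat_lit 2115) (C.node (nat_lit 0) (nat_lit 2) (nat_lit 3) (C.cons (nat_lit 1037) (C.node (nat_lit 0) (nat_lit 3) (nat_lit 7) C.nil) C.nil)) C.nil)) C.nil)) C.nil)) C.nil)) (C.cons (nat_lit 321) (C.node (nat_lit 0) (nat_lit 2) (nat_lit 8) (C.cons (nat_lit 389) (C.node (nat_lit 0) (nat_lit 2) (nat_lit 11) (C.cons (nat_lit 2117) (C.node (nat_lit 0) (nat_lit 1) (nat_lit 6) (C.cons (nat_lit 579) (C.node (nat_lit 0) (nat_lit 1) (nat_lit 7) (C.cons (nat_lit 2179) (C.node (nat_lit 0) (nat_lit 2) (nat_lit 3) (C.cons (nat_lit 1037) (C.node (nat_lit 0) (nat_lit 3) (nat_lit 6) C.nil) C.nil)) C.nil)) C.nil)) C.nil)) C.nil)) C.nil))) C.nil)))) (C.cons (nat_lit 41) (C.node (nat_lit 0) (nat_lit 5) (nat_lit 11) (C.cons (nat_lit 2081) (C.node (nat_lit 0) (nat_lit 1) (nat_lit 8) (C.cons (nat_lit 387) (C.node (nat_lit 0) (nat_lit 1) (nat_lit 9) (C.cons (nat_lit 579) (C.node (nat_lit 0) (nat_lit 1) (nat_lit 11) C.nil)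 C.nil)) (C.cons (nat_lit 323) (C.node (nat_lit 0) (nat_lit 1) (nat_lit 9) (C.cons (nat_lit 643) (C.node (nat_lit 0) (nat_lit 1) (nat_lit 11) C.nil) C.nil)) C.nil))) C.nil)) C.nil))) C.nil))) (C.cons (nat_lit 35) (C.node (nat_lit 0) (nat_lit 1) (nat_lit 9) (C.cons (nat_lit 643) (C.ref (nat_lit 33) (nat_lit 3582863703552528)) (C.cons (nat_lit 579) (C.ref (nat_lit 33) (nat_lit 3582863451894288)) (C.cons (nat_lit 515) (C.node (nat_lit 0) (nat_lit 6) (nat_lit 9) (C.cons (nat_lit 585) (C.node (nat_lit 0) (nat_lit 7) (nat_lit 9) (C.cons (nat_lit 641) (C.node (nat_lit 0) (nat_lit 6) (nat_lit 10) (C.cons (nat_lit 1093)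
  (C.node (nat_lit 0) (nat_lit 5) (nat_lit 10) (C.cons (nat_lit 1065) (C.node (nat_lit 0) (nat_lit 7) (nat_lit 10) C.nil) C.nil)) C.nil)) C.nil)) (C.cons (nat_lit 577) (C.node (nat_lit 0) (nat_lit 3) (nat_lit 9) (C.cons (nat_lit 649) (C.node (nat_lit 0) (nat_lit 7) (nat_lit 10) (C.cons (nat_lit 1157) (C.node (nat_lit 0) (nat_lit 5) (nat_lit 10) (C.cons (nat_lit 1065) (C.node (nat_lit 0) (nat_lit 6) (nat_lit 10) C.nil) C.nil)) C.nil)) C.nil)) C.nil))) C.nil)))) C.nil)))) C.nil)))) C.nil)))) (List.cons (C.node (nat_lit 0) (nat_lit 6) (nat_lit 9) (C.cons (nat_lit 585) (C.node (nat_lit 0) (nat_lit 5) (nat_lit 9) (C.cons (nat_lit 547) (C.node (nat_lit 0) (nat_lit 7) (nat_lit 9) (C.cons (nat_lit 641) (C.ref (nat_lit 7) (nat_lit 3507806000394768)) C.nil)) (C.cons (nat_lit 545) (C.node (nat_lit 0) (nat_lit 1) (nat_lit 9) (C.cons (nat_lit 643) (C.ref (nat_lit 10) (nat_lit 3507806000394768)) (C.cons (nat_lit 515) (C.node (nat_lit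 0) (nat_lit 7) (nat_lit 9) C.nil) C.nil))) C.nil))) (C.cons (nat_lit 577) (C.ref (nat_lit 18) (nat_lit 3507806000394768)) C.nil))) (List.cons (C.node (nat_lit 0) (nat_lit 6) (nat_lit 8) (C.cons (nat_lit 325) (C.node (nat_lit 0) (nat_lit 1) (nat_lit 8) (C.cons (nat_lit 387) (C.ref (nat_lit 17) (nat_lit 3473789859410448)) (C.cons (nat_lit 259) (C.node (nat_lit 0) (nat_lit 7) (nat_lit 8) C.nil) C.nil))) (C.cons (nat_lit 321) (C.node (nat_lit 0) (nat_lit 1) (nat_lit 8) (C.cons (nat_lit 387) (C.node (nat_lit 0) (nat_lit 2) (nat_lit 8) C.nil) (C.cons (nat_lit 263) (C.node (nat_lit 0) (nat_lit 8) (nat_lit 7) C.nil) C.nil))) C.nil))) (List.cons (C.node (nat_lit 0) (nat_lit 3) (nat_lit 9) (C.cons (nat_lit 585) (C.node (nat_lit 0) (nat_lit 7) (nat_lit 8) (C.cons (nat_lit 389) (C.node (nat_lit 0) (nat_lit 1) (nat_lit 8) (C.cons (nat_lit 323) (C.ref (nat_lit 7) (nat_lit 3472759067259408)) (C.cons (nat_lit 259) (C.node (nat_lit 0)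 (nat_lit 6) (nat_lit 8) C.nil) C.nil))) (C.cons (nat_lit 385) (C.node (nat_lit 0) (nat_lit 1) (nat_lit 8) (C.cons (nat_lit 323) (C.node (nat_lit 0) (nat_lit 2) (nat_lit 8) C.nil) (C.cons (nat_lit 263) (C.node (nat_lit 0) (nat_lit 6) (nat_lit 8) C.nil) C.nil))) C.nil))) (C.cons (nat_lit 521) (C.node (nat_lit 0) (nat_lit 6) (nat_lit 9) C.nil) C.nil))) (List.cons (C.node (nat_lit 0) (nat_lit 5) (nat_lit 8) (C.cons (nat_lit 293) (C.node (nat_lit 0) (nat_lit 6) (nat_lit 8) (C.cons (nat_lit 323) (C.node (nat_lit 0) (nat_lit 7) (nat_lit 8) (C.cons (nat_lit 385) (C.ref (nat_lit 35) (nat_lit 3582863703552528)) C.nil)) (C.cons (nat_lit 321) (C.node (nat_lit 0) (nat_lit 1) (nat_lit 8) (C.cons (nat_lit 387) (C.ref (nat_lit 35) (nat_lit 3582863451894288)) (C.cons (nat_lit 259) (C.node (nat_lit 0) (nat_lit 7) (nat_lit 8) (C.cons (nat_lit 385) (C.node (nat_lit 0) (nat_lit 5) (nat_lit 9) (C.cons (nat_lit 553) (C.node (nat_lit 0) (nat_lit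 5) (nat_lit 10) (C.cons (nat_lit 1059) (C.node (nat_lit 0) (nat_lit 5) (nat_lit 11) C.nil) C.nil)) (C.cons (nat_lit 547) (C.node (nat_lit 0) (nat_lit 5) (nat_lit 10) (C.cons (nat_lit 1065) (C.node (nat_lit 0) (nat_lit 5) (nat_lit 11) C.nil) C.nil)) C.nil))) C.nil)) C.nil))) C.nil))) (C.cons (nat_lit 291) (C.node (nat_lit 0) (nat_lit 5) (nat_lit 9) (C.cons (nat_lit 553) (C.node (nat_lit 0) (nat_lit 5) (nat_lit 10) (C.cons (nat_lit 1061) (C.node (nat_lit 0) (nat_lit 5) (nat_lit 11) (C.cons (nat_lit 2081) (C.ref (nat_lit 13) (nat_lit 3580737693757968)) C.nil)) (C.cons (nat_lit 1057) (C.node (nat_lit 0) (nat_lit 2) (nat_lit 5) (C.cons (nat_lit 2085) (C.ref (nat_lit 13) (nat_lit 3563214227190288)) (C.cons (nat_lit 37) (C.node (nat_lit 0) (nat_lit 5) (nat_lit 11) (C.cons (nat_lit 2081) (C.node (nat_lit 0) (nat_lit 6) (nat_lit 8) (C.cons (nat_lit 325) (C.node (nat_lit 0) (nat_lit 7) (nat_lit 8) C.nil) C.nil)) C.nil)) C.nil)))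 C.nil))) (C.cons (nat_lit 545) (C.node (nat_lit 0) (nat_lit 6) (nat_lit 8) (C.cons (nat_lit 325) (C.node (nat_lit 0) (nat_lit 7) (nat_lit 8) (C.cons (nat_lit 385) (C.ref (nat_lit 18) (nat_lit 3506775208243728)) C.nil)) (C.cons (nat_lit 321)
  (C.node (nat_lit 0) (nat_lit 2) (nat_lit 8) (C.cons (nat_lit 389) (C.ref (nat_lit 18) (nat_lit 3489251741676048)) (C.cons (nat_lit 261) (C.node (nat_lit 0) (nat_lit 7) (nat_lit 8) C.nil) C.nil))) C.nil))) C.nil))) (C.cons (nat_lit 289) (C.node (nat_lit 0) (nat_lit 5) (nat_lit 9) (C.cons (nat_lit 553) (C.node (nat_lit 0) (nat_lit 6) (nat_lit 9) (C.cons (nat_lit 579) (C.node (nat_lit 0) (nat_lit 7) (nat_lit 9) (C.cons (nat_lit 641) (C.ref (nat_lit 36) (nat_lit 3582863703552528)) C.nil)) (C.cons (nat_lit 577) (C.node (nat_lit 0) (nat_lit 1) (nat_lit 9) (C.cons (nat_lit 643) (C.ref (nat_lit 36) (nat_lit 3582863451894288)) (C.cons (nat_lit 515) (C.node (nat_lit 0) (nat_lit 7) (nat_lit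 9) C.nil) C.nil))) C.nil))) (C.cons (nat_lit 547) (C.node (nat_lit 0) (nat_lit 6) (nat_lit 9) (C.cons (nat_lit 585) (C.node (nat_lit 0) (nat_lit 7) (nat_lit 9) (C.cons (nat_lit 641) (C.ref (nat_lit 28) (nat_lit 3507741574894128)) C.nil)) (C.cons (nat_lit 577) (C.node (nat_lit 0) (nat_lit 3) (nat_lit 9) (C.cons (nat_lit 649) (C.ref (nat_lit 28) (nat_lit 3491248900477488)) (C.cons (nat_lit 521) (C.node (nat_lit 0) (nat_lit 7) (nat_lit 9) C.nil) C.nil))) C.nil))) (C.cons (nat_lit 545) (C.node (nat_lit 0) (nat_lit 1) (nat_lit 9) (C.cons (nat_lit 643) (C.ref (nat_lit 37) (nat_lit 3582863703552528)) (C.cons (nat_lit 579) (C.ref (nat_lit 37) (nat_lit 3582863451894288)) (C.cons (nat_lit 515) (C.node (nat_lit 0) (nat_lit 6) (nat_lit 9) (C.cons (nat_lit 585) (C.node (nat_lit 0) (nat_lit 7) (nat_lit 9) C.nil) C.nil)) C.nil)))) C.nil)))) C.nil)))) (List.cons (C.node (nat_lit 0) (nat_lit 1) (nat_lit 4) (C.cons (nat_lit 2067) (C.ref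 (nat_lit 34) (nat_lit 3566371029135888)) (C.cons (nat_lit 19) (C.node (nat_lit 0) (nat_lit 4) (nat_lit 11) (C.cons (nat_lit 2065) (C.ref (nat_lit 38) (nat_lit 3582863703552528)) C.nil)) C.nil))) (List.cons (C.node (nat_lit 0) (nat_lit 4) (nat_lit 10) (C.cons (nat_lit 1043) (C.node (nat_lit 0) (nat_lit 4) (nat_lit 11) (C.cons (nat_lit 2065) (C.ref (nat_lit 34) (nat_lit 3582863703552528)) C.nil)) (C.cons (nat_lit 1041) (C.ref (nat_lit 39) (nat_lit 3582863703552528)) C.nil))) (List.cons (C.node (nat_lit 0) (nat_lit 6) (nat_lit 8) (C.cons (nat_lit 323) (C.node (nat_lit 0) (nat_lit 7) (nat_lit 8) (C.cons (nat_lit 385) (C.ref (nat_lit 21) (nat_lit 3507806000394768)) C.nil)) (C.cons (nat_lit 321) (C.node (nat_lit 0) (nat_lit 1) (nat_lit 8) (C.cons (nat_lit 387) (C.ref (nat_lit 21) (nat_lit 3491313325978128)) (C.cons (nat_lit 259) (C.node (nat_lit 0) (nat_lit 7) (nat_lit 8) C.nil) C.nil))) C.nil))) (List.cons (C.node (nat_lit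 0) (nat_lit 2) (nat_lit 9) (C.cons (nat_lit 645) (C.node (nat_lit 0) (nat_lit 6) (nat_lit 10) (C.cons (nat_lit 1091) (C.node (nat_lit 0) (nat_lit 6) (nat_lit 11) (C.cons (nat_lit 2113) (C.node (nat_lit 0) (nat_lit 2) (nat_lit 1) (C.cons (nat_lit 2055) (C.node (nat_lit 0) (nat_lit 1) (nat_lit 7) C.nil) C.nil)) C.nil)) (C.cons (nat_lit 1089) (C.node (nat_lit 0) (nat_lit 1) (nat_lit 6) (C.cons (nat_lit 2115) (C.node (nat_lit 0) (nat_lit 2) (nat_lit 1) (C.cons (nat_lit 1031) (C.node (nat_lit 0) (nat_lit 1) (nat_lit 7) C.nil) C.nil)) C.nil)) C.nil))) (C.cons (nat_lit 517) (C.node (nat_lit 0) (nat_lit 7) (nat_lit 9) C.nil) C.nil))) (List.cons (C.node (nat_lit 0) (nat_lit 6) (nat_lit 9) (C.cons (nat_lit 585) (C.node (nat_lit 0) (nat_lit 5) (nat_lit 9) (C.cons (nat_lit 549) (C.node (nat_lit 0) (nat_lit 7) (nat_lit 9) (C.cons (nat_lit 641) (C.node (nat_lit 0) (nat_lit 5) (nat_lit 10) (C.cons (nat_lit 1065) (C.node (nat_lit 0)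 (nat_lit 5) (nat_lit 11) (C.cons (nat_lit 2081) (C.node (nat_lit 0) (nat_lit 6) (nat_lit 10) (C.cons (nat_lit 1091) (C.pat (nat_lit 1) (nat_lit 428108371) (nat_lit 3037535732736897517845011532291841793)) C.nil)) C.nil)) (C.cons (nat_lit 1057) (C.node (nat_lit 0) (nat_lit 3) (nat_lit 5) (C.cons (nat_lit 2089) (C.node (nat_lit 0) (nat_lit 6) (nat_lit 11) (C.cons (nat_lit 2115) (C.pat (nat_lit 1) (nat_lit 428108627) (nat_lit 3037535732736916407310947408919207681)) C.nil)) C.nil)) C.nil))) C.nil))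
  (C.cons (nat_lit 545) (C.ref (nat_lit 42) (nat_lit 3582863703552528)) C.nil))) (C.cons (nat_lit 577) (C.ref (nat_lit 21) (nat_lit 3506775208243728)) C.nil))) (List.cons (C.node (nat_lit 0) (nat_lit 6) (nat_lit 8) (C.cons (nat_lit 323) (C.ref (nat_lit 42) (nat_lit 3582799279034928)) (C.cons (nat_lit 321) (C.node (nat_lit 0) (nat_lit 1) (nat_lit 6) (C.cons (nat_lit 2115) (C.node (nat_lit 0) (nat_lit 3) (nat_lit 6) (C.cons (nat_lit 1097) (C.node (nat_lit 0) (nat_lit 5) (nat_lit 11) (C.cons (nat_lit 2085) (C.node (nat_lit 0) (nat_lit 1) (nat_lit 5) (C.cons (nat_lit 1059) (C.node (nat_lit 0) (nat_lit 2) (nat_lit 3) (C.cons (nat_lit 141) (C.node (nat_lit 0) (nat_lit 2) (nat_lit 10) C.nil) C.nil)) C.nil)) C.nil)) C.nil)) (C.cons (nat_lit 1091) (C.node (nat_lit 0) (nat_lit 3) (nat_lit 6) (C.cons (nat_lit 2121) (C.node (nat_lit 0) (nat_lit 5) (nat_lit 10) (C.cons (nat_lit 1061) (C.node (nat_lit 0) (nat_lit 1) (nat_lit 5) (C.cons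 (nat_lit 2083) (C.node (nat_lit 0) (nat_lit 2) (nat_lit 3) (C.cons (nat_lit 141) (C.node (nat_lit 0) (nat_lit 2) (nat_lit 11) C.nil) C.nil)) C.nil)) C.nil)) C.nil)) C.nil))) C.nil))) (List.cons (C.node (nat_lit 0) (nat_lit 6) (nat_lit 9) (C.cons (nat_lit 585) (C.node (nat_lit 0) (nat_lit 2) (nat_lit 9) (C.cons (nat_lit 645) (C.node (nat_lit 0) (nat_lit 7) (nat_lit 10) (C.cons (nat_lit 1161) (C.node (nat_lit 0) (nat_lit 7) (nat_lit 11) (C.cons (nat_lit 2177) (C.node (nat_lit 0) (nat_lit 6) (nat_lit 10) (C.cons (nat_lit 1091) (C.pat (nat_lit 1) (nat_lit 428108403) (nat_lit 3037535732736897517872033542372925185)) C.nil)) C.nil)) (C.cons (nat_lit 1153) (C.node (nat_lit 0) (nat_lit 3) (nat_lit 7) (C.cons (nat_lit 2185) (C.node (nat_lit 0) (nat_lit 6) (nat_lit 11) (C.cons (nat_lit 2115) (C.pat (nat_lit 1) (nat_lit 428108659) (nat_lit 3037535732736916407337969419000291073)) C.nil)) C.nil)) C.nil))) (C.cons (nat_lit 517) (C.node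 (nat_lit 0) (nat_lit 7) (nat_lit 9) C.nil) C.nil))) (C.cons (nat_lit 577) (C.node (nat_lit 0) (nat_lit 1) (nat_lit 6) (C.cons (nat_lit 2115) (C.node (nat_lit 0) (nat_lit 3) (nat_lit 6) (C.cons (nat_lit 1097) (C.node (nat_lit 0) (nat_lit 7) (nat_lit 10) (C.cons (nat_lit 1157) (C.node (nat_lit 0) (nat_lit 1) (nat_lit 2) (C.cons (nat_lit 39) (C.node (nat_lit 0) (nat_lit 1) (nat_lit 10) C.nil) C.nil)) C.nil)) C.nil)) (C.cons (nat_lit 1091) (C.node (nat_lit 0) (nat_lit 3) (nat_lit 6) (C.cons (nat_lit 2121) (C.node (nat_lit 0) (nat_lit 7) (nat_lit 11) (C.cons (nat_lit 2181) (C.node (nat_lit 0) (nat_lit 1) (nat_lit 2) (C.cons (nat_lit 39) (C.node (nat_lit 0) (nat_lit 1) (nat_lit 11) C.nil) C.nil)) C.nil)) C.nil)) C.nil))) C.nil))) (List.cons (C.node (nat_lit 0) (nat_lit 5) (nat_lit 8) (C.cons (nat_lit 293) (C.node (nat_lit 0) (nat_lit 5) (nat_lit 9) (C.cons (nat_lit 553) (C.node (nat_lit 0) (nat_lit 5) (nat_lit 10) (C.cons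 (nat_lit 1059) (C.node (nat_lit 0) (nat_lit 5) (nat_lit 11) (C.cons (nat_lit 2081) (C.ref (nat_lit 19) (nat_lit 3582799278060048)) C.nil)) (C.cons (nat_lit 1057) (C.node (nat_lit 0) (nat_lit 1) (nat_lit 5) (C.cons (nat_lit 2083) (C.ref (nat_lit 19) (nat_lit 3566306603643408)) (C.cons (nat_lit 35) (C.node (nat_lit 0) (nat_lit 5) (nat_lit 11) (C.cons (nat_lit 2081) (C.node (nat_lit 0) (nat_lit 6) (nat_lit 9) (C.cons (nat_lit 581) (C.node (nat_lit 0) (nat_lit 7) (nat_lit 9) C.nil) C.nil)) C.nil)) C.nil))) C.nil))) (C.cons (nat_lit 545) (C.ref (nat_lit 41) (nat_lit 3582863703552528)) C.nil))) (C.cons (nat_lit 291) (C.node (nat_lit 0) (nat_lit 6) (nat_lit 8) (C.cons (nat_lit 325) (C.node (nat_lit 0) (nat_lit 7) (nat_lit 8) (C.cons (nat_lit 385) (C.ref (nat_lit 43) (nat_lit 3582863703552528)) C.nil)) (C.cons (nat_lit 321) (C.node (nat_lit 0) (nat_lit 2) (nat_lit 8) (C.cons (nat_lit 389) (C.ref (nat_lit 43) (nat_lit 3582863451894288))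 (C.cons (nat_lit 261) (C.node (nat_lit 0) (nat_lit 7) (nat_lit 8) (C.cons (nat_lit 385) (C.node (nat_lit 0) (nat_lit 5) (nat_lit 9) (C.cons (nat_lit 553) (C.pat (nat_lit 0) (nat_lit 92884017) (nat_lit 628839168997196844695168742526987))
  (C.cons (nat_lit 549) (C.node (nat_lit 0) (nat_lit 5) (nat_lit 10) (C.cons (nat_lit 1065) (C.node (nat_lit 0) (nat_lit 5) (nat_lit 11) C.nil) C.nil)) C.nil))) C.nil)) C.nil))) C.nil))) (C.cons (nat_lit 289) (C.node (nat_lit 0) (nat_lit 5) (nat_lit 9) (C.cons (nat_lit 553) (C.node (nat_lit 0) (nat_lit 6) (nat_lit 9) (C.cons (nat_lit 581) (C.node (nat_lit 0) (nat_lit 7) (nat_lit 9) (C.cons (nat_lit 641) (C.ref (nat_lit 44) (nat_lit 3582863703552528)) C.nil)) (C.cons (nat_lit 577) (C.node (nat_lit 0) (nat_lit 2) (nat_lit 9) (C.cons (nat_lit 645) (C.ref (nat_lit 44) (nat_lit 3582863451894288)) (C.cons (nat_lit 517) (C.node (nat_lit 0) (nat_lit 7) (nat_lit 9) C.nil) C.nil))) C.nil))) (C.cons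 (nat_lit 549) (C.ref (nat_lit 41) (nat_lit 3582799279034928)) (C.cons (nat_lit 545) (C.node (nat_lit 0) (nat_lit 6) (nat_lit 8) (C.cons (nat_lit 325) (C.node (nat_lit 0) (nat_lit 1) (nat_lit 8) (C.cons (nat_lit 387) (C.ref (nat_lit 45) (nat_lit 3582863703552528)) (C.cons (nat_lit 259) (C.node (nat_lit 0) (nat_lit 7) (nat_lit 8) C.nil) C.nil))) (C.cons (nat_lit 323) (C.node (nat_lit 0) (nat_lit 2) (nat_lit 8) (C.cons (nat_lit 389) (C.ref (nat_lit 45) (nat_lit 3582863451894288)) (C.cons (nat_lit 261) (C.node (nat_lit 0) (nat_lit 7) (nat_lit 8) C.nil) C.nil))) (C.cons (nat_lit 321) (C.node (nat_lit 0) (nat_lit 1) (nat_lit 8) (C.cons (nat_lit 387) (C.node (nat_lit 0) (nat_lit 2) (nat_lit 8) C.nil) (C.cons (nat_lit 263) (C.node (nat_lit 0) (nat_lit 7) (nat_lit 8) C.nil) C.nil))) C.nil)))) C.nil)))) C.nil)))) List.nil)))))))))))))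

theorem ok13_34 : okL par13 (nat_lit 47) c13_34 (nat_lit 34) = true := by decide +kernel

noncomputable def c13_47 : List C :=
  (List.cons (C.node (nat_lit 0) (nat_lit 5) (nat_lit 9) (C.cons (nat_lit 553) (C.node (nat_lit 0) (nat_lit 5) (nat_lit 11) (C.cons (nat_lit 2081) (C.node (nat_lit 0) (nat_lit 2) (nat_lit 9) (C.cons (nat_lit 581) (C.node (nat_lit 0) (nat_lit 6) (nat_lit 10) (C.cons (nat_lit 1097) (C.pat (nat_lit 2) (nat_lit 7132644453) (nat_lit 513114849317360642351519447366169137157054209)) C.nil)) C.nil)) C.nil)) (C.cons (nat_lit 545) (C.node (nat_lit 0) (nat_lit 3) (nat_lit 5) (C.cons (nat_lit 2089) (C.node (nat_lit 0) (nat_lit 6) (nat_lit 11) (C.cons (nat_lit 2117) (C.node (nat_lit 0) (nat_lit 7) (nat_lit 11) C.nil) C.nil)) C.nil)) C.nil))) (List.cons (C.node (nat_lit 0) (nat_lit 1) (nat_lit 9) (C.cons (nat_lit 643) (C.node (nat_lit 0) (nat_lit 1) (nat_lit 10) (C.cons (nat_lit 1059) (C.node (nat_lit 0) (nat_lit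 1) (nat_lit 11) (C.cons (nat_lit 2051) (C.ref (nat_lit 47) (nat_lit 3582863703552528)) C.nil)) (C.cons (nat_lit 1027) (C.node (nat_lit 0) (nat_lit 1) (nat_lit 5) (C.cons (nat_lit 2083) (C.ref (nat_lit 47) (nat_lit 3566371029135888)) (C.cons (nat_lit 35) (C.node (nat_lit 0) (nat_lit 1) (nat_lit 11) C.nil) C.nil))) C.nil))) (C.cons (nat_lit 547) (C.node (nat_lit 0) (nat_lit 1) (nat_lit 10) (C.cons (nat_lit 1155) (C.node (nat_lit 0) (nat_lit 1) (nat_lit 11) (C.cons (nat_lit 2051) (C.ref (nat_lit 47) (nat_lit 3581832911401488)) C.nil)) (C.cons (nat_lit 1027) (C.node (nat_lit 0) (nat_lit 1) (nat_lit 7) (C.cons (nat_lit 2179) (C.ref (nat_lit 47) (nat_lit 3564309444833808)) (C.cons (nat_lit 131) (C.node (nat_lit 0) (nat_lit 1) (nat_lit 11) C.nil) C.nil))) C.nil))) (C.cons (nat_lit 515) (C.node (nat_lit 0) (nat_lit 5) (nat_lit 9) (C.cons (nat_lit 553) (C.node (nat_lit 0) (nat_lit 5) (nat_lit 10) (C.cons (nat_lit 1059) (C.node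 (nat_lit 0) (nat_lit 5) (nat_lit 11) (C.cons (nat_lit 2081) (C.node (nat_lit 0) (nat_lit 1) (nat_lit 7) (C.cons (nat_lit 2179) (C.node (nat_lit 0) (nat_lit 6) (nat_lit 9) (C.cons (nat_lit 581) (C.node (nat_lit 0) (nat_lit 7) (nat_lit 9) C.nil) C.nil)) C.nil)) C.nil)) (C.cons (nat_lit 1057) (C.node (nat_lit 0) (nat_lit 1) (nat_lit 5) (C.cons (nat_lit 2083) (C.node (nat_lit 0) (nat_lit 1) (nat_lit 7) (C.cons (nat_lit 1155) (C.node (nat_lit 0) (nat_lit 6) (nat_lit 9) (C.cons (nat_lit 581) (C.node (nat_lit 0) (nat_lit 7) (nat_lit 9) C.nil) C.nil)) C.nil)) C.nil)) C.nil))) (C.cons (nat_lit 545) (C.node (nat_lit 0) (nat_lit 1) (nat_lit 5) (C.cons (nat_lit 2083) (C.node (nat_lit 0) (nat_lit 1) (nat_lit 7) (C.cons (nat_lit 1155) (C.node (nat_lit 0) (nat_lit 3) (nat_lit 5) (C.cons (nat_lit 1065) (C.node (nat_lit 0) (nat_lit 2) (nat_lit 10) (C.cons (nat_lit 1093) (C.node (nat_lit 0) (nat_lit 6) (nat_lit 11) (C.cons (nat_lit 2121)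 (C.pat (nat_lit 2) (nat_lit 7417857125) (nat_lit 513289079206136145984495076390449110259408641)) C.nil)) C.nil)) C.nil)) C.nil)) (C.cons (nat_lit 1059) (C.node (nat_lit 0) (nat_lit 1) (nat_lit 7) (C.cons (nat_lit 2179) (C.node (nat_lit 0) (nat_lit 3) (nat_lit 5) (C.cons (nat_lit 2089) (C.node (nat_lit 0) (nat_lit 2) (nat_lit 11) (C.cons (nat_lit 2117) (C.node (nat_lit 0) (nat_lit 6) (nat_lit 10) (C.cons (nat_lit 1097) (C.pat (nat_lit 2) (nat_lit 7166198885) (nat_lit 513637523032951203831399191195529897357418241)) C.nil)) C.nil)) C.nil)) C.nil)) C.nil))) C.nil))) C.nil)))) (List.cons (C.node (nat_lit 0) (nat_lit 5) (nat_lit 9) (C.cons (nat_lit 553) (C.node (nat_lit 0) (nat_lit 5) (nat_lit 10) (C.cons (nat_lit 1059) (C.node (nat_lit 0) (nat_lit 5) (nat_lit 11) C.nil) C.nil)) (C.cons (nat_lit 547) (C.node (nat_lit 0) (nat_lit 5) (nat_lit 10) (C.cons (nat_lit 1065) (C.node (nat_lit 0) (nat_lit 5) (nat_lit 11) C.nil) C.nil))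 C.nil))) (List.cons (C.node (nat_lit 0) (nat_lit 2) (nat_lit 8) (C.cons (nat_lit 389) (C.ref (nat_lit 48) (nat_lit 3582863420437008)) (C.cons (nat_lit 261) (C.node (nat_lit 0) (nat_lit 7) (nat_lit 8) (C.cons (nat_lit 385) (C.node (nat_lit 0) (nat_lit 1) (nat_lit 9) (C.cons (nat_lit 643) (C.node (nat_lit 0) (nat_lit 1) (nat_lit 10) (C.cons (nat_lit 1091)
  (C.node (nat_lit 0) (nat_lit 1) (nat_lit 11) C.nil) C.nil)) (C.cons (nat_lit 579) (C.node (nat_lit 0) (nat_lit 1) (nat_lit 10) (C.cons (nat_lit 1155) (C.node (nat_lit 0) (nat_lit 1) (nat_lit 11) C.nil) C.nil)) C.nil))) C.nil)) C.nil))) (List.cons (C.node (nat_lit 0) (nat_lit 5) (nat_lit 8) (C.cons (nat_lit 293) (C.node (nat_lit 0) (nat_lit 6) (nat_lit 8) (C.cons (nat_lit 323) (C.node (nat_lit 0) (nat_lit 7) (nat_lit 8) (C.cons (nat_lit 385) (C.ref (nat_lit 48) (nat_lit 3582863703552528)) C.nil)) (C.cons (nat_lit 321) (C.node (nat_lit 0) (nat_lit 1) (nat_lit 8) (C.cons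 (nat_lit 387) (C.ref (nat_lit 48) (nat_lit 3582863451894288)) (C.cons (nat_lit 259) (C.node (nat_lit 0) (nat_lit 7) (nat_lit 8) (C.cons (nat_lit 385) (C.ref (nat_lit 49) (nat_lit 3582863703552528)) C.nil)) C.nil))) C.nil))) (C.cons (nat_lit 291) (C.node (nat_lit 0) (nat_lit 6) (nat_lit 8) (C.cons (nat_lit 325) (C.node (nat_lit 0) (nat_lit 7) (nat_lit 8) (C.cons (nat_lit 385) (C.ref (nat_lit 48) (nat_lit 3582863687823888)) C.nil)) (C.cons (nat_lit 321) (C.ref (nat_lit 50) (nat_lit 3582863703552528)) C.nil))) (C.cons (nat_lit 289) (C.node (nat_lit 0) (nat_lit 1) (nat_lit 8) (C.cons (nat_lit 387) (C.ref (nat_lit 50) (nat_lit 3582863420437008)) (C.cons (nat_lit 323) (C.ref (nat_lit 50) (nat_lit 3582863687823888)) (C.cons (nat_lit 259) (C.node (nat_lit 0) (nat_lit 6) (nat_lit 8) (C.cons (nat_lit 325) (C.node (nat_lit 0) (nat_lit 7) (nat_lit 8) (C.cons (nat_lit 385) (C.ref (nat_lit 49) (nat_lit 3582863687823888)) C.nil)) (C.cons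 (nat_lit 321) (C.node (nat_lit 0) (nat_lit 2) (nat_lit 8) (C.cons (nat_lit 389) (C.ref (nat_lit 49) (nat_lit 3582863420437008)) C.nil)) C.nil))) C.nil)))) C.nil)))) (List.cons (C.node (nat_lit 0) (nat_lit 5) (nat_lit 9) (C.cons (nat_lit 553) (C.node (nat_lit 0) (nat_lit 5) (nat_lit 10) (C.cons (nat_lit 1059) (C.node (nat_lit 0) (nat_lit 5) (nat_lit 11) C.nil) C.nil)) (C.cons (nat_lit 547) (C.node (nat_lit 0) (nat_lit 5) (nat_lit 10) (C.cons (nat_lit 1065) (C.node (nat_lit 0) (nat_lit 5) (nat_lit 11) C.nil) C.nil)) C.nil))) (List.cons (C.node (nat_lit 0) (nat_lit 5) (nat_lit 8) (C.cons (nat_lit 293) (C.node (nat_lit 0) (nat_lit 6) (nat_lit 8) (C.cons (nat_lit 323) (C.node (nat_lit 0) (nat_lit 7) (nat_lit 8) (C.cons (nat_lit 385) (C.ref (nat_lit 52) (nat_lit 3582863703552528)) C.nil)) (C.cons (nat_lit 321) (C.node (nat_lit 0) (nat_lit 1) (nat_lit 8) (C.cons (nat_lit 387) (C.ref (nat_lit 52) (nat_lit 3582863451894288))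 C.nil)) C.nil))) (C.cons (nat_lit 291) (C.node (nat_lit 0) (nat_lit 6) (nat_lit 8) (C.cons (nat_lit 325) (C.node (nat_lit 0) (nat_lit 7) (nat_lit 8) (C.cons (nat_lit 385) (C.ref (nat_lit 52) (nat_lit 3582863687823888)) C.nil)) (C.cons (nat_lit 321) (C.node (nat_lit 0) (nat_lit 2) (nat_lit 8) (C.cons (nat_lit 389) (C.ref (nat_lit 52) (nat_lit 3582863420437008)) C.nil)) C.nil))) (C.cons (nat_lit 289) (C.node (nat_lit 0) (nat_lit 6) (nat_lit 8) (C.cons (nat_lit 325) (C.node (nat_lit 0) (nat_lit 1) (nat_lit 8) (C.cons (nat_lit 387) (C.ref (nat_lit 52) (nat_lit 3582863184507408)) C.nil)) (C.cons (nat_lit 323) (C.node (nat_lit 0) (nat_lit 2) (nat_lit 8) (C.cons (nat_lit 389) (C.ref (nat_lit 52) (nat_lit 3582863168778768)) C.nil)) C.nil))) C.nil)))) (List.cons (C.node (nat_lit 0) (nat_lit 1) (nat_lit 4) (C.cons (nat_lit 2067) (C.node (nat_lit 0) (nat_lit 2) (nat_lit 4) (C.cons (nat_lit 21) (C.ref (nat_lit 46) (nat_lit 3564309444833808))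 C.nil)) (C.cons (nat_lit 23) (C.node (nat_lit 0) (nat_lit 4) (nat_lit 11) (C.cons (nat_lit 2065) (C.ref (nat_lit 51) (nat_lit 3582863703552528)) C.nil)) (C.cons (nat_lit 19) (C.node (nat_lit 0) (nat_lit 2) (nat_lit 4) (C.cons (nat_lit 2069) (C.ref (nat_lit 38) (nat_lit 3564309444833808)) (C.cons (nat_lit 21) (C.node (nat_lit 0) (nat_lit 4) (nat_lit 11) (C.cons (nat_lit 2065) (C.ref (nat_lit 53) (nat_lit 3582863703552528)) C.nil)) C.nil))) C.nil)))) (List.cons (C.node (nat_lit 0) (nat_lit 4) (nat_lit 10) (C.cons (nat_lit 1045) (C.ref (nat_lit 39) (nat_lit 3581832911401488)) (C.cons (nat_lit 1043)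
  (C.node (nat_lit 0) (nat_lit 2) (nat_lit 4) (C.cons (nat_lit 2069) (C.ref (nat_lit 34) (nat_lit 3547816770417168)) (C.cons (nat_lit 21) (C.node (nat_lit 0) (nat_lit 4) (nat_lit 11) (C.cons (nat_lit 2065) (C.ref (nat_lit 46) (nat_lit 3581832911401488)) C.nil)) C.nil))) (C.cons (nat_lit 1041) (C.ref (nat_lit 54) (nat_lit 3582863703552528)) C.nil)))) (List.cons (C.node (nat_lit 0) (nat_lit 4) (nat_lit 9) (C.cons (nat_lit 533) (C.ref (nat_lit 40) (nat_lit 3582863703552528)) (C.cons (nat_lit 531) (C.node (nat_lit 0) (nat_lit 4) (nat_lit 10) (C.cons (nat_lit 1045) (C.node (nat_lit 0) (nat_lit 4) (nat_lit 11) (C.cons (nat_lit 2065) (C.ref (nat_lit 34) (nat_lit 3581832911401488)) C.nil)) (C.cons (nat_lit 1041) (C.node (nat_lit 0) (nat_lit 2) (nat_lit 4) (C.cons (nat_lit 2069) (C.ref (nat_lit 34) (nat_lit 3564309444833808)) (C.cons (nat_lit 21) (C.node (nat_lit 0) (nat_lit 4) (nat_lit 11) (C.cons (nat_lit 2065) (C.ref (nat_lit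 46) (nat_lit 3582863703552528)) C.nil)) C.nil))) C.nil))) (C.cons (nat_lit 529) (C.ref (nat_lit 55) (nat_lit 3582863703552528)) C.nil)))) (List.cons (C.node (nat_lit 0) (nat_lit 5) (nat_lit 9) (C.cons (nat_lit 549) (C.node (nat_lit 0) (nat_lit 1) (nat_lit 9) (C.cons (nat_lit 643) (C.node (nat_lit 0) (nat_lit 3) (nat_lit 9) (C.cons (nat_lit 585) (C.node (nat_lit 0) (nat_lit 5) (nat_lit 10) (C.cons (nat_lit 1059) (C.node (nat_lit 0) (nat_lit 5) (nat_lit 11) C.nil) C.nil)) C.nil)) C.nil)) (C.cons (nat_lit 547) (C.node (nat_lit 0) (nat_lit 5) (nat_lit 10) (C.cons (nat_lit 1061) (C.node (nat_lit 0) (nat_lit 5) (nat_lit 11) C.nil) C.nil)) C.nil))) (List.cons (C.node (nat_lit 0) (nat_lit 5) (nat_lit 8) (C.cons (nat_lit 297) (C.node (nat_lit 0) (nat_lit 6) (nat_lit 8) (C.cons (nat_lit 323) (C.node (nat_lit 0) (nat_lit 7) (nat_lit 8) (C.cons (nat_lit 385) (C.ref (nat_lit 57) (nat_lit 3582863703552528)) C.nil)) (C.cons (nat_lit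 321) (C.node (nat_lit 0) (nat_lit 1) (nat_lit 8) (C.cons (nat_lit 387) (C.ref (nat_lit 57) (nat_lit 3582863451894288)) C.nil)) C.nil))) (C.cons (nat_lit 291) (C.node (nat_lit 0) (nat_lit 6) (nat_lit 8) (C.cons (nat_lit 329) (C.node (nat_lit 0) (nat_lit 7) (nat_lit 8) (C.cons (nat_lit 385) (C.ref (nat_lit 57) (nat_lit 3582863703544368)) C.nil)) (C.cons (nat_lit 321) (C.node (nat_lit 0) (nat_lit 3) (nat_lit 8) (C.cons (nat_lit 393) (C.ref (nat_lit 57) (nat_lit 3582863451886128)) C.nil)) C.nil))) (C.cons (nat_lit 289) (C.node (nat_lit 0) (nat_lit 1) (nat_lit 8) (C.cons (nat_lit 387) (C.node (nat_lit 0) (nat_lit 3) (nat_lit 8) (C.cons (nat_lit 329) (C.ref (nat_lit 57) (nat_lit 3582863168770608)) C.nil)) (C.cons (nat_lit 323) (C.node (nat_lit 0) (nat_lit 3) (nat_lit 8) (C.cons (nat_lit 393) (C.ref (nat_lit 57) (nat_lit 3582863184499248)) C.nil)) C.nil))) C.nil)))) (List.cons (C.node (nat_lit 0) (nat_lit 1) (nat_lit 4) (C.cons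 (nat_lit 2067) (C.ref (nat_lit 39) (nat_lit 3564116171297328)) (C.cons (nat_lit 1043) (C.ref (nat_lit 39) (nat_lit 3581704062374448)) (C.cons (nat_lit 19) (C.node (nat_lit 0) (nat_lit 4) (nat_lit 10) (C.cons (nat_lit 1049) (C.node (nat_lit 0) (nat_lit 4) (nat_lit 11) (C.cons (nat_lit 2065) (C.ref (nat_lit 38) (nat_lit 3581704062382608)) C.nil)) (C.cons (nat_lit 1041) (C.node (nat_lit 0) (nat_lit 3) (nat_lit 4) (C.cons (nat_lit 2073) (C.ref (nat_lit 38) (nat_lit 3564116171305488)) (C.cons (nat_lit 25) (C.node (nat_lit 0) (nat_lit 4) (nat_lit 11) (C.cons (nat_lit 2065) (C.ref (nat_lit 58) (nat_lit 3582863703552528)) C.nil)) C.nil))) C.nil))) C.nil)))) (List.cons (C.node (nat_lit 0) (nat_lit 5) (nat_lit 8) (C.cons (nat_lit 297) (C.node (nat_lit 0) (nat_lit 2) (nat_lit 8) (C.cons (nat_lit 325) (C.node (nat_lit 0) (nat_lit 5) (nat_lit 9) (C.cons (nat_lit 549) (C.node (nat_lit 0) (nat_lit 5) (nat_lit 11) C.nil) C.nil)) C.nil))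 (C.cons (nat_lit 293) (C.node (nat_lit 0) (nat_lit 3) (nat_lit 8) (C.cons (nat_lit 329) (C.node (nat_lit 0) (nat_lit 6) (nat_lit 10) (C.cons (nat_lit 1093) (C.node (nat_lit 0) (nat_lit 6) (nat_lit 11) C.nil) C.nil)) C.nil)) C.nil))) (List.cons
  (C.node (nat_lit 0) (nat_lit 1) (nat_lit 9) (C.cons (nat_lit 579) (C.node (nat_lit 0) (nat_lit 1) (nat_lit 10) (C.cons (nat_lit 1059) (C.node (nat_lit 0) (nat_lit 1) (nat_lit 11) (C.cons (nat_lit 2051) (C.ref (nat_lit 60) (nat_lit 3582863703552528)) C.nil)) (C.cons (nat_lit 1027) (C.node (nat_lit 0) (nat_lit 1) (nat_lit 5) (C.cons (nat_lit 2083) (C.ref (nat_lit 60) (nat_lit 3566371029135888)) C.nil)) C.nil))) (C.cons (nat_lit 547) (C.node (nat_lit 0) (nat_lit 1) (nat_lit 10) (C.cons (nat_lit 1091) (C.node (nat_lit 0) (nat_lit 1) (nat_lit 11) (C.cons (nat_lit 2051) (C.ref (nat_lit 60) (nat_lit 3582863687823888)) C.nil)) (C.cons (nat_lit 1027) (C.node (nat_lit 0) (nat_lit 1) (nat_lit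 6) (C.cons (nat_lit 2115) (C.ref (nat_lit 60) (nat_lit 3566371013407248)) C.nil)) C.nil))) (C.cons (nat_lit 515) (C.node (nat_lit 0) (nat_lit 1) (nat_lit 5) (C.cons (nat_lit 2083) (C.node (nat_lit 0) (nat_lit 1) (nat_lit 6) (C.cons (nat_lit 1091) (C.ref (nat_lit 60) (nat_lit 3547816754688528)) C.nil)) (C.cons (nat_lit 1059) (C.node (nat_lit 0) (nat_lit 1) (nat_lit 6) (C.cons (nat_lit 2115) (C.ref (nat_lit 60) (nat_lit 3548847546839568)) C.nil)) C.nil))) C.nil)))) (List.cons (C.node (nat_lit 0) (nat_lit 4) (nat_lit 11) (C.cons (nat_lit 2065) (C.node (nat_lit 0) (nat_lit 1) (nat_lit 8) (C.cons (nat_lit 387) (C.ref (nat_lit 61) (nat_lit 3582863703552528)) (C.cons (nat_lit 323) (C.ref (nat_lit 61) (nat_lit 3582863451894288)) (C.cons (nat_lit 291) (C.ref (nat_lit 61) (nat_lit 3582863184507408)) (C.cons (nat_lit 259) (C.node (nat_lit 0) (nat_lit 5) (nat_lit 8) (C.cons (nat_lit 297) (C.node (nat_lit 0) (nat_lit 6) (nat_lit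 8) (C.cons (nat_lit 325) (C.node (nat_lit 0) (nat_lit 7) (nat_lit 8) C.nil) C.nil)) (C.cons (nat_lit 293) (C.node (nat_lit 0) (nat_lit 6) (nat_lit 8) (C.cons (nat_lit 329) (C.node (nat_lit 0) (nat_lit 7) (nat_lit 8) C.nil) C.nil)) C.nil))) C.nil))))) C.nil)) (List.cons (C.node (nat_lit 0) (nat_lit 4) (nat_lit 8) (C.cons (nat_lit 281) (C.ref (nat_lit 56) (nat_lit 3582863703552528)) (C.cons (nat_lit 277) (C.node (nat_lit 0) (nat_lit 4) (nat_lit 9) (C.cons (nat_lit 537) (C.ref (nat_lit 40) (nat_lit 3582799279043088)) (C.cons (nat_lit 531) (C.ref (nat_lit 40) (nat_lit 3582799279034928)) (C.cons (nat_lit 529) (C.ref (nat_lit 59) (nat_lit 3582863703552528)) C.nil)))) (C.cons (nat_lit 275) (C.ref (nat_lit 56) (nat_lit 3582863703544368)) (C.cons (nat_lit 273) (C.node (nat_lit 0) (nat_lit 4) (nat_lit 9) (C.cons (nat_lit 537) (C.ref (nat_lit 55) (nat_lit 3582799279043088)) (C.cons (nat_lit 533) (C.ref (nat_lit 59) (nat_lit 3582799279043088))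 (C.cons (nat_lit 531) (C.ref (nat_lit 55) (nat_lit 3582799279034928)) (C.cons (nat_lit 529) (C.node (nat_lit 0) (nat_lit 1) (nat_lit 4) (C.cons (nat_lit 2067) (C.ref (nat_lit 54) (nat_lit 3564116171297328)) (C.cons (nat_lit 1043) (C.ref (nat_lit 54) (nat_lit 3581704062374448)) (C.cons (nat_lit 23) (C.node (nat_lit 0) (nat_lit 4) (nat_lit 10) (C.cons (nat_lit 1049) (C.node (nat_lit 0) (nat_lit 4) (nat_lit 11) (C.cons (nat_lit 2065) (C.ref (nat_lit 51) (nat_lit 3581704062382608)) C.nil)) (C.cons (nat_lit 1041) (C.node (nat_lit 0) (nat_lit 3) (nat_lit 4) (C.cons (nat_lit 2073) (C.ref (nat_lit 51) (nat_lit 3564116171305488)) (C.cons (nat_lit 25) (C.ref (nat_lit 62) (nat_lit 3582863703552528)) C.nil))) C.nil))) (C.cons (nat_lit 19) (C.node (nat_lit 0) (nat_lit 4) (nat_lit 10) (C.cons (nat_lit 1049) (C.node (nat_lit 0) (nat_lit 2) (nat_lit 4) (C.cons (nat_lit 2069) (C.ref (nat_lit 38) (nat_lit 3545626337096208)) (C.cons (nat_lit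 21) (C.node (nat_lit 0) (nat_lit 4) (nat_lit 11) (C.cons (nat_lit 2065) (C.ref (nat_lit 53) (nat_lit 3581704062382608)) C.nil)) C.nil))) (C.cons (nat_lit 1045) (C.node (nat_lit 0) (nat_lit 3) (nat_lit 4) (C.cons (nat_lit 2073) (C.ref (nat_lit 38) (nat_lit 3545561912586768)) (C.cons (nat_lit 25) (C.node (nat_lit 0) (nat_lit 4) (nat_lit 11) (C.cons (nat_lit 2065) (C.ref (nat_lit 58) (nat_lit 3581704062382608)) C.nil)) C.nil))) (C.cons (nat_lit 1041)
  (C.node (nat_lit 0) (nat_lit 2) (nat_lit 4) (C.cons (nat_lit 2069) (C.node (nat_lit 0) (nat_lit 3) (nat_lit 4) (C.cons (nat_lit 25) (C.ref (nat_lit 58) (nat_lit 3564116171305488)) C.nil)) (C.cons (nat_lit 29) (C.ref (nat_lit 62) (nat_lit 3582863703544368)) (C.cons (nat_lit 21) (C.node (nat_lit 0) (nat_lit 3) (nat_lit 4) (C.cons (nat_lit 2073) (C.ref (nat_lit 53) (nat_lit 3564116171305488)) (C.cons (nat_lit 25) (C.node (nat_lit 0) (nat_lit 4) (nat_lit 11) C.nil) C.nil))) C.nil))))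 C.nil)))) C.nil))))) C.nil))))) C.nil))))) (List.cons (C.node (nat_lit 0) (nat_lit 6) (nat_lit 9) (C.cons (nat_lit 585) (C.node (nat_lit 0) (nat_lit 1) (nat_lit 9) (C.cons (nat_lit 643) (C.node (nat_lit 0) (nat_lit 1) (nat_lit 2) (C.cons (nat_lit 15) (C.node (nat_lit 0) (nat_lit 3) (nat_lit 7) (C.cons (nat_lit 2185) (C.node (nat_lit 0) (nat_lit 2) (nat_lit 7) (C.cons (nat_lit 1157) (C.pat (nat_lit 2) (nat_lit 9503808065) (nat_lit 25803438000784344740327017870708984713084863049)) (C.cons (nat_lit 133) (C.node (nat_lit 0) (nat_lit 7) (nat_lit 10) C.nil) C.nil))) (C.cons (nat_lit 137) (C.node (nat_lit 0) (nat_lit 3) (nat_lit 11) C.nil) C.nil))) (C.cons (nat_lit 7) (C.node (nat_lit 0) (nat_lit 1) (nat_lit 3) C.nil) C.nil))) (C.cons (nat_lit 515) (C.node (nat_lit 0) (nat_lit 7) (nat_lit 9) C.nil) C.nil))) (C.cons (nat_lit 577) (C.node (nat_lit 0) (nat_lit 6) (nat_lit 10) (C.cons (nat_lit 1093) (C.node (nat_lit 0) (nat_lit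 7) (nat_lit 10) C.nil) C.nil)) C.nil))) (List.cons (C.node (nat_lit 0) (nat_lit 1) (nat_lit 5) (C.cons (nat_lit 2083) (C.node (nat_lit 0) (nat_lit 6) (nat_lit 8) (C.cons (nat_lit 323) (C.node (nat_lit 0) (nat_lit 7) (nat_lit 8) (C.cons (nat_lit 385) (C.ref (nat_lit 64) (nat_lit 3582863703552528)) C.nil)) (C.cons (nat_lit 321) (C.node (nat_lit 0) (nat_lit 1) (nat_lit 8) (C.cons (nat_lit 387) (C.ref (nat_lit 64) (nat_lit 3582863451894288)) (C.cons (nat_lit 259) (C.node (nat_lit 0) (nat_lit 7) (nat_lit 8) C.nil) C.nil))) C.nil))) (C.cons (nat_lit 35) (C.node (nat_lit 0) (nat_lit 5) (nat_lit 11) (C.cons (nat_lit 2081) (C.node (nat_lit 0) (nat_lit 6) (nat_lit 8) (C.cons (nat_lit 323) (C.node (nat_lit 0) (nat_lit 7) (nat_lit 8) C.nil) C.nil)) C.nil)) C.nil))) (List.cons (C.node (nat_lit 0) (nat_lit 6) (nat_lit 9) (C.cons (nat_lit 585) (C.node (nat_lit 0) (nat_lit 5) (nat_lit 9) (C.cons (nat_lit 547) (C.node (nat_lit 0) (nat_lit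 7) (nat_lit 9) (C.cons (nat_lit 641) (C.node (nat_lit 0) (nat_lit 3) (nat_lit 5) (C.cons (nat_lit 2089) (C.node (nat_lit 0) (nat_lit 10) (nat_lit 6) (C.cons (nat_lit 1093) (C.pat (nat_lit 1) (nat_lit 609855105) (nat_lit 5415607852723747905152193309377106161)) C.nil)) C.nil)) C.nil)) (C.cons (nat_lit 545) (C.node (nat_lit 0) (nat_lit 1) (nat_lit 9) (C.cons (nat_lit 643) (C.node (nat_lit 0) (nat_lit 10) (nat_lit 6) (C.cons (nat_lit 1093) (C.node (nat_lit 0) (nat_lit 11) (nat_lit 6) C.nil) C.nil)) C.nil)) C.nil))) (C.cons (nat_lit 577) (C.node (nat_lit 0) (nat_lit 5) (nat_lit 9) (C.cons (nat_lit 553) (C.node (nat_lit 0) (nat_lit 1) (nat_lit 5) (C.cons (nat_lit 2083) (C.node (nat_lit 0) (nat_lit 1) (nat_lit 9) (C.cons (nat_lit 643) (C.node (nat_lit 0) (nat_lit 1) (nat_lit 2) (C.cons (nat_lit 15) (C.node (nat_lit 0) (nat_lit 2) (nat_lit 6) (C.cons (nat_lit 2117) (C.pat (nat_lit 3) (nat_lit 47623391314) (nat_lit 177001124562757669507334399097852599884242551077))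 (C.cons (nat_lit 1093) (C.pat (nat_lit 2) (nat_lit 13259934018) (nat_lit 12333787904828358603546029092573273222058148163)) C.nil))) C.nil)) C.nil)) C.nil)) (C.cons (nat_lit 547) (C.node (nat_lit 0) (nat_lit 3) (nat_lit 5) (C.cons (nat_lit 2089) (C.node (nat_lit 0) (nat_lit 3) (nat_lit 9) (C.cons (nat_lit 649) (C.node (nat_lit 0) (nat_lit 1) (nat_lit 3) (C.cons (nat_lit 15) (C.node (nat_lit 0) (nat_lit 1) (nat_lit 7) (C.cons (nat_lit 2179) (C.pat (nat_lit 2) (nat_lit 4906851155) (nat_lit 48594799593744950262473215076586880514579300885)) C.nil)) C.nil)) C.nil)) C.nil)) C.nil))) C.nil))) (List.cons (C.node (nat_lit 0) (nat_lit 6) (nat_lit 8) (C.cons (nat_lit 323)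
  (C.node (nat_lit 0) (nat_lit 7) (nat_lit 8) (C.cons (nat_lit 385) (C.ref (nat_lit 66) (nat_lit 3582863703552528)) C.nil)) (C.cons (nat_lit 321) (C.node (nat_lit 0) (nat_lit 1) (nat_lit 8) (C.cons (nat_lit 387) (C.ref (nat_lit 66) (nat_lit 3582863451894288)) (C.cons (nat_lit 259) (C.node (nat_lit 0) (nat_lit 7) (nat_lit 8) C.nil) C.nil))) C.nil))) List.nil)))))))))))))))))))))

theorem ok13_47 : okL par13 (nat_lit 68) c13_47 (nat_lit 47) = true := by decide +kernel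

noncomputable def c13_68 : List C :=
  (List.cons (C.node (nat_lit 0) (nat_lit 5) (nat_lit 10) (C.cons (nat_lit 1065) (C.node (nat_lit 0) (nat_lit 5) (nat_lit 9) (C.cons (nat_lit 547) (C.node (nat_lit 0) (nat_lit 5) (nat_lit 11) (C.cons (nat_lit 2081) (C.node (nat_lit 0) (nat_lit 6) (nat_lit 8) (C.cons (nat_lit 323) (C.node (nat_lit 0) (nat_lit 7) (nat_lit 8) (C.cons (nat_lit 385) (C.node (nat_lit 0) (nat_lit 6) (nat_lit 9) (C.cons (nat_lit 585) (C.pat (nat_lit 1) (nat_lit 965106241) (nat_lit 2840232730484124243040736387787726593)) (C.cons (nat_lit 577) (C.node (nat_lit 0) (nat_lit 3) (nat_lit 9) (C.cons (nat_lit 649) (C.node (nat_lit 0) (nat_lit 6) (nat_lit 10) (C.cons (nat_lit 1093) (C.pat (nat_lit 1) (nat_lit 680880705) (nat_lit 1677135099819668589236770588341640961)) C.nil)) C.nil)) C.nil))) C.nil)) (C.cons (nat_lit 321) (C.node (nat_lit 0) (nat_lit 1) (nat_lit 8) (C.cons (nat_lit 387) (C.node (nat_lit 0) (nat_lit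 7) (nat_lit 9) (C.cons (nat_lit 649) (C.pat (nat_lit 1) (nat_lit 965171777) (nat_lit 2840237801163896408413678641781743361)) (C.cons (nat_lit 641) (C.node (nat_lit 0) (nat_lit 3) (nat_lit 9) (C.cons (nat_lit 585) (C.node (nat_lit 0) (nat_lit 7) (nat_lit 10) (C.cons (nat_lit 1157) (C.pat (nat_lit 1) (nat_lit 680884801) (nat_lit 2009442098765898738054343070823030529)) C.nil)) C.nil)) C.nil))) (C.cons (nat_lit 259) (C.node (nat_lit 0) (nat_lit 7) (nat_lit 8) C.nil) C.nil))) C.nil))) C.nil)) (C.cons (nat_lit 545) (C.ref (nat_lit 65) (nat_lit 3582863703552528)) C.nil))) (C.cons (nat_lit 1057) (C.ref (nat_lit 67) (nat_lit 3582863703552528)) C.nil))) (List.cons (C.node (nat_lit 0) (nat_lit 6) (nat_lit 9) (C.cons (nat_lit 579) (C.node (nat_lit 0) (nat_lit 7) (nat_lit 9) (C.cons (nat_lit 641) (C.node (nat_lit 0) (nat_lit 6) (nat_lit 8) (C.cons (nat_lit 325) (C.node (nat_lit 0) (nat_lit 1) (nat_lit 8) (C.cons (nat_lit 387) (C.node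 (nat_lit 0) (nat_lit 10) (nat_lit 6) (C.cons (nat_lit 1097) (C.node (nat_lit 0) (nat_lit 11) (nat_lit 6) C.nil) C.nil)) C.nil)) C.nil)) C.nil)) (C.cons (nat_lit 577) (C.node (nat_lit 0) (nat_lit 1) (nat_lit 9) (C.cons (nat_lit 643) (C.node (nat_lit 0) (nat_lit 7) (nat_lit 8) (C.cons (nat_lit 389) (C.node (nat_lit 0) (nat_lit 1) (nat_lit 8) (C.cons (nat_lit 323) (C.node (nat_lit 0) (nat_lit 10) (nat_lit 7) (C.cons (nat_lit 1161) (C.node (nat_lit 0) (nat_lit 11) (nat_lit 7) C.nil) C.nil)) C.nil)) C.nil)) C.nil)) C.nil))) (List.cons (C.node (nat_lit 0) (nat_lit 5) (nat_lit 8) (C.cons (nat_lit 293) (C.ref (nat_lit 68) (nat_lit 3582863703552528)) (C.cons (nat_lit 291) (C.ref (nat_lit 68) (nat_lit 3581832911401248)) (C.cons (nat_lit 289) (C.node (nat_lit 0) (nat_lit 5) (nat_lit 9) (C.cons (nat_lit 553) (C.node (nat_lit 0) (nat_lit 5) (nat_lit 10) (C.cons (nat_lit 1061) (C.ref (nat_lit 65) (nat_lit 3582799279039248)) (C.cons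 (nat_lit 1057) (C.ref (nat_lit 69) (nat_lit 3582863703552528)) C.nil))) (C.cons (nat_lit 547) (C.ref (nat_lit 67) (nat_lit 3580737694736688)) (C.cons (nat_lit 545) (C.node (nat_lit 0) (nat_lit 5) (nat_lit 10) (C.cons (nat_lit 1065) (C.ref (nat_lit 69) (nat_lit 3581832911401248)) (C.cons (nat_lit 1061) (C.ref (nat_lit 69) (nat_lit 3580737694736688)) (C.cons (nat_lit 1057) (C.node (nat_lit 0) (nat_lit 6) (nat_lit 8) (C.cons (nat_lit 325) (C.node (nat_lit 0) (nat_lit 1) (nat_lit 8) (C.cons (nat_lit 387) (C.node (nat_lit 0) (nat_lit 6) (nat_lit 10) (C.cons (nat_lit 1097) (C.node (nat_lit 0) (nat_lit 2) (nat_lit 10) (C.cons (nat_lit 1157) (C.node (nat_lit 0) (nat_lit 6) (nat_lit 9) (C.cons (nat_lit 579) (C.pat (nat_lit 1) (nat_lit 680950337) (nat_lit 2009444634105784820740814197820038913)) C.nil)) C.nil)) C.nil)) C.nil)) (C.cons (nat_lit 323) (C.node (nat_lit 0) (nat_lit 2) (nat_lit 8) (C.cons (nat_lit 389) (C.node (nat_lit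 0) (nat_lit 6) (nat_lit 9) (C.cons (nat_lit 585) (C.node (nat_lit 0) (nat_lit 1) (nat_lit 9) (C.cons (nat_lit 643) (C.node (nat_lit 0) (nat_lit 6) (nat_lit 10) (C.cons (nat_lit 1093)
  (C.pat (nat_lit 1) (nat_lit 413563202) (nat_lit 2019829069987907837268215560169135873)) C.nil)) C.nil)) C.nil)) C.nil)) C.nil))) C.nil)))) C.nil)))) C.nil)))) (List.cons (C.node (nat_lit 0) (nat_lit 5) (nat_lit 8) (C.cons (nat_lit 293) (C.node (nat_lit 0) (nat_lit 6) (nat_lit 8) (C.cons (nat_lit 323) (C.node (nat_lit 0) (nat_lit 7) (nat_lit 8) (C.cons (nat_lit 385) (C.node (nat_lit 0) (nat_lit 6) (nat_lit 9) (C.cons (nat_lit 585) (C.node (nat_lit 0) (nat_lit 5) (nat_lit 9) (C.cons (nat_lit 547) (C.node (nat_lit 0) (nat_lit 7) (nat_lit 9) C.nil) C.nil)) C.nil)) C.nil)) (C.cons (nat_lit 321) (C.node (nat_lit 0) (nat_lit 1) (nat_lit 8) (C.cons (nat_lit 387) (C.node (nat_lit 0) (nat_lit 7) (nat_lit 9) (C.cons (nat_lit 649) (C.node (nat_lit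 0) (nat_lit 5) (nat_lit 9) (C.cons (nat_lit 547) (C.node (nat_lit 0) (nat_lit 6) (nat_lit 9) C.nil) C.nil)) C.nil)) C.nil)) C.nil))) (C.cons (nat_lit 291) (C.node (nat_lit 0) (nat_lit 5) (nat_lit 9) (C.cons (nat_lit 553) (C.node (nat_lit 0) (nat_lit 5) (nat_lit 10) (C.cons (nat_lit 1061) (C.node (nat_lit 0) (nat_lit 5) (nat_lit 11) (C.cons (nat_lit 2081) (C.node (nat_lit 0) (nat_lit 6) (nat_lit 9) (C.cons (nat_lit 579) (C.node (nat_lit 0) (nat_lit 7) (nat_lit 9) C.nil) C.nil)) C.nil)) (C.cons (nat_lit 1057) (C.node (nat_lit 0) (nat_lit 2) (nat_lit 5) (C.cons (nat_lit 2085) (C.node (nat_lit 0) (nat_lit 6) (nat_lit 9) (C.cons (nat_lit 579) (C.node (nat_lit 0) (nat_lit 7) (nat_lit 9) C.nil) C.nil)) C.nil)) C.nil))) (C.cons (nat_lit 545) (C.node (nat_lit 0) (nat_lit 6) (nat_lit 8) (C.cons (nat_lit 325) (C.node (nat_lit 0) (nat_lit 7) (nat_lit 8) C.nil) C.nil)) C.nil))) (C.cons (nat_lit 289) (C.node (nat_lit 0) (nat_lit 5)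 (nat_lit 9) (C.cons (nat_lit 553) (C.node (nat_lit 0) (nat_lit 6) (nat_lit 9) (C.cons (nat_lit 579) (C.node (nat_lit 0) (nat_lit 7) (nat_lit 9) C.nil) C.nil)) (C.cons (nat_lit 547) (C.node (nat_lit 0) (nat_lit 6) (nat_lit 9) (C.cons (nat_lit 585) (C.node (nat_lit 0) (nat_lit 7) (nat_lit 9) C.nil) C.nil)) C.nil))) C.nil)))) (List.cons (C.node (nat_lit 0) (nat_lit 1) (nat_lit 4) (C.cons (nat_lit 2067) (C.ref (nat_lit 70) (nat_lit 3566371029135888)) (C.cons (nat_lit 19) (C.node (nat_lit 0) (nat_lit 4) (nat_lit 11) (C.cons (nat_lit 2065) (C.ref (nat_lit 71) (nat_lit 3582863703552528)) C.nil)) C.nil))) (List.cons (C.node (nat_lit 0) (nat_lit 5) (nat_lit 9) (C.cons (nat_lit 553) (C.node (nat_lit 0) (nat_lit 1) (nat_lit 9) (C.cons (nat_lit 643) (C.node (nat_lit 0) (nat_lit 2) (nat_lit 9) (C.cons (nat_lit 581) (C.node (nat_lit 0) (nat_lit 5) (nat_lit 10) (C.cons (nat_lit 1059) (C.node (nat_lit 0) (nat_lit 5) (nat_lit 11) C.nil)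 C.nil)) C.nil)) C.nil)) (C.cons (nat_lit 547) (C.node (nat_lit 0) (nat_lit 5) (nat_lit 10) (C.cons (nat_lit 1065) (C.node (nat_lit 0) (nat_lit 5) (nat_lit 11) C.nil) C.nil)) C.nil))) (List.cons (C.node (nat_lit 0) (nat_lit 5) (nat_lit 8) (C.cons (nat_lit 293) (C.node (nat_lit 0) (nat_lit 6) (nat_lit 8) (C.cons (nat_lit 323) (C.node (nat_lit 0) (nat_lit 7) (nat_lit 8) (C.cons (nat_lit 385) (C.ref (nat_lit 73) (nat_lit 3582863703552528)) C.nil)) (C.cons (nat_lit 321) (C.node (nat_lit 0) (nat_lit 1) (nat_lit 8) (C.cons (nat_lit 387) (C.ref (nat_lit 73) (nat_lit 3582863451894288)) C.nil)) C.nil))) (C.cons (nat_lit 291) (C.node (nat_lit 0) (nat_lit 6) (nat_lit 8) (C.cons (nat_lit 325) (C.node (nat_lit 0) (nat_lit 7) (nat_lit 8) (C.cons (nat_lit 385) (C.ref (nat_lit 73) (nat_lit 3582863703552288)) C.nil)) (C.cons (nat_lit 321) (C.node (nat_lit 0) (nat_lit 2) (nat_lit 8) (C.cons (nat_lit 389) (C.ref (nat_lit 73) (nat_lit 3582863451894048))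 C.nil)) C.nil))) (C.cons (nat_lit 289) (C.node (nat_lit 0) (nat_lit 1) (nat_lit 8) (C.cons (nat_lit 387) (C.node (nat_lit 0) (nat_lit 2) (nat_lit 8) (C.cons (nat_lit 325) (C.ref (nat_lit 73) (nat_lit 3582863168778528)) C.nil)) (C.cons (nat_lit 323) (C.node (nat_lit 0) (nat_lit 2) (nat_lit 8) (C.cons (nat_lit 389) (C.ref (nat_lit 73) (nat_lit 3582863184507168)) C.nil)) C.nil))) C.nil)))) (List.cons
  (C.node (nat_lit 0) (nat_lit 1) (nat_lit 4) (C.cons (nat_lit 2067) (C.node (nat_lit 0) (nat_lit 2) (nat_lit 4) (C.cons (nat_lit 21) (C.ref (nat_lit 71) (nat_lit 3564309444833568)) C.nil)) (C.cons (nat_lit 23) (C.node (nat_lit 0) (nat_lit 4) (nat_lit 11) (C.cons (nat_lit 2065) (C.ref (nat_lit 74) (nat_lit 3582863703552528)) C.nil)) (C.cons (nat_lit 19) (C.node (nat_lit 0) (nat_lit 2) (nat_lit 4) (C.cons (nat_lit 2069) (C.ref (nat_lit 71) (nat_lit 3564309444833808)) (C.cons (nat_lit 21) (C.node (nat_lit 0) (nat_lit 4) (nat_lit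 11) C.nil) C.nil))) C.nil)))) (List.cons (C.node (nat_lit 0) (nat_lit 4) (nat_lit 10) (C.cons (nat_lit 1045) (C.ref (nat_lit 72) (nat_lit 3581832911401488)) (C.cons (nat_lit 1043) (C.ref (nat_lit 72) (nat_lit 3581832911401248)) (C.cons (nat_lit 1041) (C.ref (nat_lit 75) (nat_lit 3582863703552528)) C.nil)))) (List.cons (C.node (nat_lit 0) (nat_lit 4) (nat_lit 9) (C.cons (nat_lit 533) (C.node (nat_lit 0) (nat_lit 4) (nat_lit 10) (C.cons (nat_lit 1043) (C.node (nat_lit 0) (nat_lit 4) (nat_lit 11) (C.cons (nat_lit 2065) (C.ref (nat_lit 70) (nat_lit 3582863703552528)) C.nil)) (C.cons (nat_lit 1041) (C.ref (nat_lit 72) (nat_lit 3582863703552528)) C.nil))) (C.cons (nat_lit 531) (C.node (nat_lit 0) (nat_lit 4) (nat_lit 10) (C.cons (nat_lit 1045) (C.node (nat_lit 0) (nat_lit 4) (nat_lit 11) (C.cons (nat_lit 2065) (C.ref (nat_lit 70) (nat_lit 3582863703552288)) C.nil)) (C.cons (nat_lit 1041) (C.ref (nat_lit 72) (nat_lit 3582863703552288))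 C.nil))) (C.cons (nat_lit 529) (C.ref (nat_lit 76) (nat_lit 3582863703552528)) C.nil)))) (List.cons (C.big (C.cons (nat_lit 2191) (C.ref (nat_lit 1) (nat_lit 3582863703552528)) (C.cons (nat_lit 2127) (C.ref (nat_lit 1) (nat_lit 3582863451894288)) (C.cons (nat_lit 2095) (C.ref (nat_lit 1) (nat_lit 3582863184507408)) (C.cons (nat_lit 2079) (C.ref (nat_lit 1) (nat_lit 3582862916137488)) (C.cons (nat_lit 1167) (C.ref (nat_lit 1) (nat_lit 3566371029135888)) (C.cons (nat_lit 1103) (C.ref (nat_lit 1) (nat_lit 3566370777477648)) (C.cons (nat_lit 1071) (C.ref (nat_lit 1) (nat_lit 3566370510090768)) (C.cons (nat_lit 1055) (C.ref (nat_lit 1) (nat_lit 3566370241720848)) (C.cons (nat_lit 655) (C.ref (nat_lit 1) (nat_lit 3548847562568208)) (C.cons (nat_lit 591) (C.ref (nat_lit 1) (nat_lit 3548847310909968)) (C.cons (nat_lit 559) (C.ref (nat_lit 1) (nat_lit 3548847043523088)) (C.cons (nat_lit 543) (C.ref (nat_lit 1) (nat_lit 3548846775153168))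 (C.cons (nat_lit 399) (C.ref (nat_lit 1) (nat_lit 3531259671491088)) (C.cons (nat_lit 335) (C.ref (nat_lit 1) (nat_lit 3531259419832848)) (C.cons (nat_lit 303) (C.ref (nat_lit 1) (nat_lit 3531259152445968)) (C.cons (nat_lit 287) (C.ref (nat_lit 1) (nat_lit 3531258884076048)) C.nil)))))))))))))))) (C.big (C.cons (nat_lit 4111) (C.big C.nil C.nil) (C.cons (nat_lit 2189) (C.ref (nat_lit 4) (nat_lit 3582863703552528)) (C.cons (nat_lit 2187) (C.ref (nat_lit 4) (nat_lit 3582863703552288)) (C.cons (nat_lit 2183) (C.ref (nat_lit 4) (nat_lit 3582863703548208)) (C.cons (nat_lit 2125) (C.ref (nat_lit 4) (nat_lit 3582863451894288)) (C.cons (nat_lit 2123) (C.ref (nat_lit 4) (nat_lit 3582863451894048)) (C.cons (nat_lit 2119) (C.ref (nat_lit 4) (nat_lit 3582863451889968)) (C.cons (nat_lit 2093) (C.ref (nat_lit 4) (nat_lit 3582863184507408)) (C.cons (nat_lit 2091) (C.ref (nat_lit 4) (nat_lit 3582863184507168)) (C.cons (nat_lit 2087)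 (C.ref (nat_lit 4) (nat_lit 3582863184503088)) (C.cons (nat_lit 2077) (C.ref (nat_lit 4) (nat_lit 3582862916137488)) (C.cons (nat_lit 2075) (C.ref (nat_lit 4) (nat_lit 3582862916137248)) (C.cons (nat_lit 2071) (C.ref (nat_lit 4) (nat_lit 3582862916133168)) (C.cons (nat_lit 2063) (C.ref (nat_lit 5) (nat_lit 3582863703552528)) (C.cons (nat_lit 1165) (C.ref (nat_lit 4) (nat_lit 3566371029135888)) (C.cons (nat_lit 1163) (C.ref (nat_lit 4) (nat_lit 3566371029135648)) (C.cons (nat_lit 1159) (C.ref (nat_lit 4) (nat_lit 3566371029131568)) (C.cons (nat_lit 1101) (C.ref (nat_lit 4) (nat_lit 3566370777477648)) (C.cons (nat_lit 1099)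
  (C.ref (nat_lit 4) (nat_lit 3566370777477408)) (C.cons (nat_lit 1095) (C.ref (nat_lit 4) (nat_lit 3566370777473328)) (C.cons (nat_lit 1069) (C.ref (nat_lit 4) (nat_lit 3566370510090768)) (C.cons (nat_lit 1067) (C.ref (nat_lit 4) (nat_lit 3566370510090528)) (C.cons (nat_lit 1063) (C.ref (nat_lit 4) (nat_lit 3566370510086448)) (C.cons (nat_lit 1053) (C.ref (nat_lit 4) (nat_lit 3566370241720848)) (C.cons (nat_lit 1051) (C.ref (nat_lit 4) (nat_lit 3566370241720608)) (C.cons (nat_lit 1047) (C.ref (nat_lit 4) (nat_lit 3566370241716528)) (C.cons (nat_lit 1039) (C.ref (nat_lit 5) (nat_lit 3566371029135888)) (C.cons (nat_lit 653) (C.ref (nat_lit 4) (nat_lit 3548847562568208)) (C.cons (nat_lit 651) (C.ref (nat_lit 4) (nat_lit 3548847562567968)) (C.cons (nat_lit 647) (C.ref (nat_lit 4) (nat_lit 3548847562563888)) (C.cons (nat_lit 589) (C.ref (nat_lit 4) (nat_lit 3548847310909968)) (C.cons (nat_lit 587) (C.ref (nat_lit 4) (nat_lit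 3548847310909728)) (C.cons (nat_lit 583) (C.ref (nat_lit 4) (nat_lit 3548847310905648)) (C.cons (nat_lit 557) (C.ref (nat_lit 4) (nat_lit 3548847043523088)) (C.cons (nat_lit 555) (C.ref (nat_lit 4) (nat_lit 3548847043522848)) (C.cons (nat_lit 551) (C.ref (nat_lit 4) (nat_lit 3548847043518768)) (C.cons (nat_lit 541) (C.ref (nat_lit 4) (nat_lit 3548846775153168)) (C.cons (nat_lit 539) (C.ref (nat_lit 4) (nat_lit 3548846775152928)) (C.cons (nat_lit 535) (C.ref (nat_lit 4) (nat_lit 3548846775148848)) (C.cons (nat_lit 527) (C.ref (nat_lit 5) (nat_lit 3548847562568208)) (C.cons (nat_lit 397) (C.ref (nat_lit 4) (nat_lit 3531259671491088)) (C.cons (nat_lit 395) (C.ref (nat_lit 4) (nat_lit 3531259671490848)) (C.cons (nat_lit 391) (C.ref (nat_lit 4) (nat_lit 3531259671486768)) (C.cons (nat_lit 333) (C.ref (nat_lit 4) (nat_lit 3531259419832848)) (C.cons (nat_lit 331) (C.ref (nat_lit 4) (nat_lit 3531259419832608)) (C.cons (nat_lit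 327) (C.ref (nat_lit 4) (nat_lit 3531259419828528)) (C.cons (nat_lit 301) (C.ref (nat_lit 4) (nat_lit 3531259152445968)) (C.cons (nat_lit 299) (C.ref (nat_lit 4) (nat_lit 3531259152445728)) (C.cons (nat_lit 295) (C.ref (nat_lit 4) (nat_lit 3531259152441648)) (C.cons (nat_lit 285) (C.ref (nat_lit 4) (nat_lit 3531258884076048)) (C.cons (nat_lit 283) (C.ref (nat_lit 4) (nat_lit 3531258884075808)) (C.cons (nat_lit 279) (C.ref (nat_lit 4) (nat_lit 3531258884071728)) (C.cons (nat_lit 271) (C.ref (nat_lit 5) (nat_lit 3531259671491088)) (C.cons (nat_lit 143) (C.ref (nat_lit 5) (nat_lit 3507806000394768)) (C.cons (nat_lit 79) (C.ref (nat_lit 5) (nat_lit 3491313325978128)) (C.cons (nat_lit 47) (C.ref (nat_lit 5) (nat_lit 3473789859410448)) (C.cons (nat_lit 31) (C.ref (nat_lit 5) (nat_lit 3456201968333328)) C.nil))))))))))))))))))))))))))))))))))))))))))))))))))))))))) (C.node (nat_lit 0) (nat_lit 1) (nat_lit 12) (C.cons (nat_lit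 4107) (C.node (nat_lit 0) (nat_lit 2) (nat_lit 12) (C.cons (nat_lit 4101) (C.ref (nat_lit 63) (nat_lit 3582863703552528)) C.nil)) (C.cons (nat_lit 4103) (C.node (nat_lit 0) (nat_lit 3) (nat_lit 12) (C.cons (nat_lit 4105) (C.ref (nat_lit 63) (nat_lit 3582863703548688)) C.nil)) (C.cons (nat_lit 4099) (C.node (nat_lit 0) (nat_lit 2) (nat_lit 12) (C.cons (nat_lit 4109) (C.ref (nat_lit 63) (nat_lit 3582863703552288)) (C.cons (nat_lit 4101) (C.node (nat_lit 0) (nat_lit 3) (nat_lit 12) (C.cons (nat_lit 4105) (C.node (nat_lit 0) (nat_lit 4) (nat_lit 8) (C.cons (nat_lit 281) (C.ref (nat_lit 77) (nat_lit 3582863703552528)) (C.cons (nat_lit 277) (C.ref (nat_lit 77) (nat_lit 3582863703548688)) (C.cons (nat_lit 275) (C.ref (nat_lit 77) (nat_lit 3582863703544608)) (C.cons (nat_lit 273) (C.node (nat_lit 0) (nat_lit 4) (nat_lit 9) (C.cons (nat_lit 537) (C.ref (nat_lit 76) (nat_lit 3582799279043088)) (C.cons (nat_lit 533) (C.ref (nat_lit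 76) (nat_lit 3582799279039248)) (C.cons (nat_lit 531) (C.ref (nat_lit 76) (nat_lit 3582799279035168)) (C.cons (nat_lit 529) (C.node (nat_lit 0) (nat_lit 4) (nat_lit 10) (C.cons (nat_lit 1049) (C.ref (nat_lit 75) (nat_lit 3581704062382608)) (C.cons (nat_lit 1045)
  (C.ref (nat_lit 75) (nat_lit 3581704062378768)) (C.cons (nat_lit 1043) (C.ref (nat_lit 75) (nat_lit 3581704062374688)) (C.cons (nat_lit 1041) (C.node (nat_lit 0) (nat_lit 1) (nat_lit 4) (C.cons (nat_lit 2067) (C.node (nat_lit 0) (nat_lit 2) (nat_lit 4) (C.cons (nat_lit 29) (C.ref (nat_lit 74) (nat_lit 3564116171297568)) (C.cons (nat_lit 21) (C.node (nat_lit 0) (nat_lit 3) (nat_lit 4) C.nil) C.nil))) (C.cons (nat_lit 27) (C.node (nat_lit 0) (nat_lit 2) (nat_lit 4) (C.cons (nat_lit 2069) (C.ref (nat_lit 74) (nat_lit 3564116171301648)) (C.cons (nat_lit 21) (C.node (nat_lit 0) (nat_lit 4) (nat_lit 11) C.nil) C.nil))) (C.cons (nat_lit 23) (C.node (nat_lit 0) (nat_lit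 3) (nat_lit 4) (C.cons (nat_lit 2073) (C.ref (nat_lit 74) (nat_lit 3564116171305488)) (C.cons (nat_lit 25) (C.node (nat_lit 0) (nat_lit 4) (nat_lit 11) C.nil) C.nil))) (C.cons (nat_lit 19) (C.node (nat_lit 0) (nat_lit 2) (nat_lit 4) (C.cons (nat_lit 2069) (C.node (nat_lit 0) (nat_lit 3) (nat_lit 4) C.nil) (C.cons (nat_lit 29) (C.node (nat_lit 0) (nat_lit 4) (nat_lit 11) C.nil) C.nil))) C.nil))))) C.nil))))) C.nil))))) C.nil))))) C.nil)) C.nil))) C.nil)))))) (List.cons (C.big C.nil C.nil) (List.cons (C.node (nat_lit 0) (nat_lit 4) (nat_lit 8) (C.cons (nat_lit 275) (C.node (nat_lit 0) (nat_lit 5) (nat_lit 8) (C.cons (nat_lit 289) (C.node (nat_lit 0) (nat_lit 6) (nat_lit 8) (C.cons (nat_lit 321) (C.node (nat_lit 0) (nat_lit 7) (nat_lit 8) (C.cons (nat_lit 385) (C.node (nat_lit 0) (nat_lit 4) (nat_lit 9) (C.cons (nat_lit 533) (C.node (nat_lit 0) (nat_lit 4) (nat_lit 10) (C.cons (nat_lit 1041) (C.node (nat_lit 0) (nat_lit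 4) (nat_lit 11) C.nil) C.nil)) (C.cons (nat_lit 529) (C.node (nat_lit 0) (nat_lit 4) (nat_lit 10) (C.cons (nat_lit 1045) (C.node (nat_lit 0) (nat_lit 4) (nat_lit 11) C.nil) C.nil)) C.nil))) C.nil)) C.nil)) C.nil)) (C.cons (nat_lit 273) (C.node (nat_lit 0) (nat_lit 4) (nat_lit 9) (C.cons (nat_lit 533) (C.node (nat_lit 0) (nat_lit 5) (nat_lit 9) (C.cons (nat_lit 545) (C.node (nat_lit 0) (nat_lit 6) (nat_lit 9) (C.cons (nat_lit 577) (C.node (nat_lit 0) (nat_lit 7) (nat_lit 9) (C.cons (nat_lit 641) (C.node (nat_lit 0) (nat_lit 4) (nat_lit 10) (C.cons (nat_lit 1043) (C.node (nat_lit 0) (nat_lit 4) (nat_lit 11) C.nil) C.nil)) C.nil)) C.nil)) C.nil)) (C.cons (nat_lit 529) (C.node (nat_lit 0) (nat_lit 5) (nat_lit 8) (C.cons (nat_lit 291) (C.node (nat_lit 0) (nat_lit 6) (nat_lit 8) (C.cons (nat_lit 321) (C.node (nat_lit 0) (nat_lit 7) (nat_lit 8) (C.cons (nat_lit 385) (C.node (nat_lit 0) (nat_lit 5) (nat_lit 9) (C.cons (nat_lit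 549) (C.node (nat_lit 0) (nat_lit 9) (nat_lit 6) C.nil) C.nil)) C.nil)) C.nil)) (C.cons (nat_lit 289) (C.node (nat_lit 0) (nat_lit 5) (nat_lit 9) (C.cons (nat_lit 549) (C.node (nat_lit 0) (nat_lit 6) (nat_lit 9) (C.cons (nat_lit 577) (C.node (nat_lit 0) (nat_lit 7) (nat_lit 9) C.nil) C.nil)) (C.cons (nat_lit 545) (C.node (nat_lit 0) (nat_lit 6) (nat_lit 8) (C.cons (nat_lit 323) (C.node (nat_lit 0) (nat_lit 7) (nat_lit 8) C.nil) C.nil)) C.nil))) C.nil))) C.nil))) C.nil))) (List.cons (C.node (nat_lit 0) (nat_lit 4) (nat_lit 8) (C.cons (nat_lit 275) (C.node (nat_lit 0) (nat_lit 5) (nat_lit 8) (C.cons (nat_lit 289) (C.node (nat_lit 0) (nat_lit 6) (nat_lit 8) (C.cons (nat_lit 321) (C.node (nat_lit 0) (nat_lit 7) (nat_lit 8) C.nil) C.nil)) C.nil)) (C.cons (nat_lit 273) (C.node (nat_lit 0) (nat_lit 5) (nat_lit 8) (C.cons (nat_lit 291) (C.node (nat_lit 0) (nat_lit 6) (nat_lit 8) (C.cons (nat_lit 321) (C.node (nat_lit 0) (nat_lit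 7) (nat_lit 8) C.nil) C.nil)) (C.cons (nat_lit 289) (C.node (nat_lit 0) (nat_lit 6) (nat_lit 8) (C.cons (nat_lit 323) (C.node (nat_lit 0) (nat_lit 7) (nat_lit 8) C.nil) C.nil)) C.nil))) C.nil))) (List.cons (C.node (nat_lit 0) (nat_lit 1) (nat_lit 3) (C.cons (nat_lit 4107) (C.ref (nat_lit 80) (nat_lit 3282903187599888)) (C.cons (nat_lit 11) (C.node (nat_lit 0) (nat_lit 3) (nat_lit 12) (C.cons (nat_lit 4105) (C.ref (nat_lit 81) (nat_lit 3582863703552528)) C.nil)) C.nil))) (List.cons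
  (C.node (nat_lit 0) (nat_lit 3) (nat_lit 11) (C.cons (nat_lit 2059) (C.node (nat_lit 0) (nat_lit 3) (nat_lit 12) (C.cons (nat_lit 4105) (C.ref (nat_lit 80) (nat_lit 3564309444833808)) C.nil)) (C.cons (nat_lit 2057) (C.ref (nat_lit 82) (nat_lit 3582863703552528)) C.nil))) (List.cons (C.node (nat_lit 0) (nat_lit 3) (nat_lit 10) (C.cons (nat_lit 1035) (C.node (nat_lit 0) (nat_lit 3) (nat_lit 11) (C.cons (nat_lit 2057) (C.node (nat_lit 0) (nat_lit 3) (nat_lit 12) (C.cons (nat_lit 4105) (C.ref (nat_lit 80) (nat_lit 3581832911401488)) C.nil)) C.nil)) (C.cons (nat_lit 1033) (C.ref (nat_lit 83) (nat_lit 3582863703552528)) C.nil))) (List.cons (C.node (nat_lit 0) (nat_lit 3) (nat_lit 9) (C.cons (nat_lit 523) (C.node (nat_lit 0) (nat_lit 3) (nat_lit 10) (C.cons (nat_lit 1033) (C.node (nat_lit 0) (nat_lit 3) (nat_lit 11) (C.cons (nat_lit 2057) (C.node (nat_lit 0) (nat_lit 3) (nat_lit 12) (C.cons (nat_lit 4105) (C.ref (nat_lit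 80) (nat_lit 3582863703552528)) C.nil)) C.nil)) C.nil)) (C.cons (nat_lit 521) (C.ref (nat_lit 84) (nat_lit 3582863703552528)) C.nil))) (List.cons (C.node (nat_lit 0) (nat_lit 4) (nat_lit 10) (C.cons (nat_lit 1043) (C.node (nat_lit 0) (nat_lit 4) (nat_lit 11) (C.cons (nat_lit 2065) (C.node (nat_lit 0) (nat_lit 4) (nat_lit 12) C.nil) C.nil)) (C.cons (nat_lit 1041) (C.node (nat_lit 0) (nat_lit 4) (nat_lit 11) (C.cons (nat_lit 2067) (C.node (nat_lit 0) (nat_lit 4) (nat_lit 12) C.nil) C.nil)) C.nil))) List.nil)))))))))))))))))))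

theorem ok13_68 : okL par13 (nat_lit 87) c13_68 (nat_lit 68) = true := by decide +kernel

noncomputable def c13_87 : List C :=
  (List.cons (C.big C.nil (C.big (C.cons (nat_lit 4231) (C.ref (nat_lit 79) (nat_lit 3582863703552528)) (C.cons (nat_lit 4167) (C.ref (nat_lit 79) (nat_lit 3582863451894288)) (C.cons (nat_lit 4135) (C.ref (nat_lit 79) (nat_lit 3582863184507408)) (C.cons (nat_lit 4119) (C.ref (nat_lit 79) (nat_lit 3582862916137488)) (C.cons (nat_lit 4111) (C.ref (nat_lit 79) (nat_lit 3582862647706128)) (C.cons (nat_lit 2183) (C.ref (nat_lit 79) (nat_lit 3318980912886288)) (C.cons (nat_lit 2119) (C.ref (nat_lit 79) (nat_lit 3318980661228048)) (C.cons (nat_lit 2087) (C.ref (nat_lit 79) (nat_lit 3318980393841168)) (C.cons (nat_lit 2071) (C.ref (nat_lit 79) (nat_lit 3318980125471248)) (C.cons (nat_lit 2063) (C.ref (nat_lit 79) (nat_lit 3318979857039888)) (C.cons (nat_lit 1159) (C.ref (nat_lit 79) (nat_lit 3038605447803408))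 (C.cons (nat_lit 1095) (C.ref (nat_lit 79) (nat_lit 3038605196145168)) (C.cons (nat_lit 1063) (C.ref (nat_lit 79) (nat_lit 3038604928758288)) (C.cons (nat_lit 1047) (C.ref (nat_lit 79) (nat_lit 3038604660388368)) (C.cons (nat_lit 1039) (C.ref (nat_lit 79) (nat_lit 3038604391957008)) (C.cons (nat_lit 647) (C.ref (nat_lit 79) (nat_lit 2757199190569488)) (C.cons (nat_lit 583) (C.ref (nat_lit 79) (nat_lit 2757198938911248)) (C.cons (nat_lit 551) (C.ref (nat_lit 79) (nat_lit 2757198671524368)) (C.cons (nat_lit 535) (C.ref (nat_lit 79) (nat_lit 2757198403154448)) (C.cons (nat_lit 527) (C.ref (nat_lit 79) (nat_lit 2757198134723088)) (C.cons (nat_lit 391) (C.ref (nat_lit 79) (nat_lit 2475728508826128)) (C.cons (nat_lit 327) (C.ref (nat_lit 79) (nat_lit 2475728257167888)) (C.cons (nat_lit 295) (C.ref (nat_lit 79) (nat_lit 2475727989781008)) (C.cons (nat_lit 279) (C.ref (nat_lit 79) (nat_lit 2475727721411088)) (C.cons (nat_lit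 271) (C.ref (nat_lit 79) (nat_lit 2475727452979728)) C.nil))))))))))))))))))))))))) (C.node (nat_lit 0) (nat_lit 3) (nat_lit 8) (C.cons (nat_lit 269) (C.ref (nat_lit 85) (nat_lit 3582863703552528)) (C.cons (nat_lit 267) (C.ref (nat_lit 85) (nat_lit 3582863703552288)) (C.cons (nat_lit 265) (C.node (nat_lit 0) (nat_lit 3) (nat_lit 9) (C.cons (nat_lit 525) (C.ref (nat_lit 84) (nat_lit 3582799279043088)) (C.cons (nat_lit 523) (C.ref (nat_lit 84) (nat_lit 3582799279042848)) (C.cons (nat_lit 521) (C.node (nat_lit 0) (nat_lit 3) (nat_lit 10) (C.cons (nat_lit 1037) (C.ref (nat_lit 83) (nat_lit 3581704062382608)) (C.cons (nat_lit 1035) (C.ref (nat_lit 83) (nat_lit 3581704062382368)) (C.cons (nat_lit 1033) (C.node (nat_lit 0) (nat_lit 3) (nat_lit 11) (C.cons (nat_lit 2061) (C.ref (nat_lit 82) (nat_lit 3564116171305488)) (C.cons (nat_lit 2059) (C.ref (nat_lit 82) (nat_lit 3564116171305248)) (C.cons (nat_lit 2057) (C.node (nat_lit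 0) (nat_lit 1) (nat_lit 3) (C.cons (nat_lit 4107) (C.node (nat_lit 0) (nat_lit 2) (nat_lit 3) (C.cons (nat_lit 13) (C.ref (nat_lit 81) (nat_lit 3282645489561888)) C.nil)) (C.cons (nat_lit 15) (C.node (nat_lit 0) (nat_lit 3) (nat_lit 12) (C.cons (nat_lit 4105) (C.node (nat_lit 0) (nat_lit 4) (nat_lit 8) (C.cons (nat_lit 277) (C.node (nat_lit 0) (nat_lit 4) (nat_lit 9) (C.cons (nat_lit 531) (C.node (nat_lit 0) (nat_lit 4) (nat_lit 10) (C.cons (nat_lit 1041) (C.node (nat_lit 0) (nat_lit 4) (nat_lit 11) (C.cons (nat_lit 2065) (C.node (nat_lit 0) (nat_lit 4) (nat_lit 12) C.nil) C.nil)) C.nil)) (C.cons (nat_lit 529) (C.ref (nat_lit 86) (nat_lit 3582863703552528)) C.nil))) (C.cons (nat_lit 275) (C.node (nat_lit 0) (nat_lit 4) (nat_lit 9) (C.cons (nat_lit 533) (C.node (nat_lit 0) (nat_lit 4) (nat_lit 10) (C.cons (nat_lit 1041) (C.node (nat_lit 0) (nat_lit 4) (nat_lit 11) (C.cons (nat_lit 2065) (C.node (nat_lit 0) (nat_lit 4)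 (nat_lit 12) C.nil) C.nil)) C.nil)) (C.cons (nat_lit 529) (C.ref (nat_lit 86) (nat_lit 3582863703552288)) C.nil))) (C.cons (nat_lit 273) (C.node (nat_lit 0) (nat_lit 4) (nat_lit 9) (C.cons (nat_lit 533) (C.ref (nat_lit 86) (nat_lit 3582799279043088)) (C.cons (nat_lit 531) (C.ref (nat_lit 86) (nat_lit 3582799279042848)) (C.cons (nat_lit 529) (C.node (nat_lit 0) (nat_lit 4) (nat_lit 10)
  (C.cons (nat_lit 1045) (C.node (nat_lit 0) (nat_lit 4) (nat_lit 11) (C.cons (nat_lit 2067) (C.node (nat_lit 0) (nat_lit 4) (nat_lit 12) C.nil) C.nil)) (C.cons (nat_lit 1043) (C.node (nat_lit 0) (nat_lit 4) (nat_lit 11) (C.cons (nat_lit 2069) (C.node (nat_lit 0) (nat_lit 4) (nat_lit 12) C.nil) C.nil)) C.nil))) C.nil)))) C.nil)))) C.nil)) (C.cons (nat_lit 11) (C.node (nat_lit 0) (nat_lit 2) (nat_lit 3) (C.cons (nat_lit 4109) (C.ref (nat_lit 81) (nat_lit 3282645489562128)) (C.cons (nat_lit 13) (C.node (nat_lit 0) (nat_lit 3) (nat_lit 12)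 (C.cons (nat_lit 4105) (C.node (nat_lit 0) (nat_lit 4) (nat_lit 8) (C.cons (nat_lit 277) (C.node (nat_lit 0) (nat_lit 4) (nat_lit 9) (C.cons (nat_lit 531) (C.node (nat_lit 0) (nat_lit 4) (nat_lit 10) C.nil) C.nil)) (C.cons (nat_lit 275) (C.node (nat_lit 0) (nat_lit 4) (nat_lit 9) (C.cons (nat_lit 533) (C.node (nat_lit 0) (nat_lit 4) (nat_lit 10) C.nil) C.nil)) C.nil))) C.nil)) C.nil))) C.nil)))) C.nil)))) C.nil)))) C.nil)))) C.nil)))))) (List.cons (C.big C.nil C.nil) (List.cons (C.big (C.cons (nat_lit 551) (C.ref (nat_lit 88) (nat_lit 3582863703552528)) (C.cons (nat_lit 295) (C.ref (nat_lit 88) (nat_lit 3582799279043088)) C.nil)) C.nil) (List.cons (C.node (nat_lit 0) (nat_lit 2) (nat_lit 8) (C.cons (nat_lit 261) (C.node (nat_lit 0) (nat_lit 1) (nat_lit 2) (C.cons (nat_lit 1031) (C.node (nat_lit 0) (nat_lit 2) (nat_lit 5) (C.cons (nat_lit 37) (C.node (nat_lit 0) (nat_lit 5) (nat_lit 10) (C.cons (nat_lit 1057) (C.node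 (nat_lit 0) (nat_lit 3) (nat_lit 10) (C.cons (nat_lit 1097) (C.node (nat_lit 0) (nat_lit 1) (nat_lit 3) (C.cons (nat_lit 523) (C.pat (nat_lit 1) (nat_lit 3309799729) (nat_lit 1511300733377597563128026731628790321)) (C.cons (nat_lit 11) (C.node (nat_lit 0) (nat_lit 3) (nat_lit 9) (C.cons (nat_lit 521) (C.node (nat_lit 0) (nat_lit 1) (nat_lit 6) (C.cons (nat_lit 579) (C.pat (nat_lit 5) (nat_lit 290038324066) (nat_lit 48952836533671100142227138409478376683456365641)) C.nil)) C.nil)) C.nil))) (C.cons (nat_lit 1033) (C.node (nat_lit 0) (nat_lit 6) (nat_lit 10) (C.cons (nat_lit 1089) (C.node (nat_lit 0) (nat_lit 1) (nat_lit 3) (C.cons (nat_lit 523) (C.pat (nat_lit 1) (nat_lit 3309799729) (nat_lit 1511300733377597563128026731628790321)) (C.cons (nat_lit 75) (C.pat (nat_lit 1) (nat_lit 3360380465) (nat_lit 1511587222413182439546192528780362065)) C.nil))) C.nil)) C.nil))) C.nil)) C.nil)) (C.cons (nat_lit 7) (C.node (nat_lit 0)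 (nat_lit 2) (nat_lit 5) (C.cons (nat_lit 1061) (C.node (nat_lit 0) (nat_lit 1) (nat_lit 9) (C.cons (nat_lit 579) (C.node (nat_lit 0) (nat_lit 3) (nat_lit 9) (C.cons (nat_lit 521) (C.node (nat_lit 0) (nat_lit 1) (nat_lit 3) (C.cons (nat_lit 1035) (C.pat (nat_lit 5) (nat_lit 286011788115) (nat_lit 48952836534834174638843584456233713618049500197)) (C.cons (nat_lit 11) (C.node (nat_lit 0) (nat_lit 1) (nat_lit 10) (C.cons (nat_lit 1027) (C.node (nat_lit 0) (nat_lit 3) (nat_lit 6) (C.cons (nat_lit 1097) (C.pat (nat_lit 0) (nat_lit 112876594) (nat_lit 628839149664419268551800481189917)) C.nil)) C.nil)) C.nil))) C.nil)) (C.cons (nat_lit 523) (C.pat (nat_lit 1) (nat_lit 3309799729) (nat_lit 1511300733377597563128026731628790321)) (C.cons (nat_lit 515) (C.node (nat_lit 0) (nat_lit 3) (nat_lit 9) (C.cons (nat_lit 585) (C.pat (nat_lit 1) (nat_lit 2339988530) (nat_lit 10992721284223869175961366727722862739)) (C.cons (nat_lit 521)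 (C.node (nat_lit 0) (nat_lit 6) (nat_lit 9) (C.cons (nat_lit 577) (C.node (nat_lit 0) (nat_lit 1) (nat_lit 3) (C.cons (nat_lit 1035) (C.pat (nat_lit 5) (nat_lit 286011788115) (nat_lit 48952836534834174638843584456233713618049500197)) (C.cons (nat_lit 75) (C.pat (nat_lit 1) (nat_lit 3360380465) (nat_lit 1511587222413182439546192528780362065)) C.nil))) C.nil)) C.nil))) C.nil)))) (C.cons (nat_lit 37) (C.node (nat_lit 0) (nat_lit 2) (nat_lit 10) (C.cons (nat_lit 1029) (C.node (nat_lit 0) (nat_lit 5) (nat_lit 10) (C.cons (nat_lit 1057) (C.node (nat_lit 0) (nat_lit 1) (nat_lit 9) (C.cons (nat_lit 579) (C.node (nat_lit 0) (nat_lit 3) (nat_lit 9) C.nil)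
  (C.cons (nat_lit 523) (C.pat (nat_lit 1) (nat_lit 3309799729) (nat_lit 1511300733377597563128026731628790321)) C.nil))) C.nil)) C.nil)) C.nil))) C.nil))) C.nil)) (List.cons (C.node (nat_lit 0) (nat_lit 3) (nat_lit 8) (C.cons (nat_lit 267) (C.node (nat_lit 0) (nat_lit 1) (nat_lit 9) (C.cons (nat_lit 579) (C.node (nat_lit 0) (nat_lit 3) (nat_lit 9) (C.cons (nat_lit 521) (C.node (nat_lit 0) (nat_lit 2) (nat_lit 8) (C.cons (nat_lit 293) (C.pat (nat_lit 1) (nat_lit 1268213842) (nat_lit 10992266356114712270182175936377593601)) (C.cons (nat_lit 261) (C.node (nat_lit 0) (nat_lit 5) (nat_lit 8) (C.cons (nat_lit 289) (C.node (nat_lit 0) (nat_lit 3) (nat_lit 6) (C.cons (nat_lit 1097) (C.node (nat_lit 0) (nat_lit 1) (nat_lit 2) (C.cons (nat_lit 1031) (C.pat (nat_lit 1) (nat_lit 1756641825) (nat_lit 1386369963773178694627658396149292801)) (C.cons (nat_lit 39) (C.pat (nat_lit 1) (nat_lit 3377161505) (nat_lit 3006968717671212796562975316978762289))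 C.nil))) C.nil)) C.nil)) C.nil))) C.nil)) (C.cons (nat_lit 515) (C.node (nat_lit 0) (nat_lit 1) (nat_lit 6) (C.cons (nat_lit 1091) (C.node (nat_lit 0) (nat_lit 3) (nat_lit 10) (C.cons (nat_lit 1033) (C.node (nat_lit 0) (nat_lit 1) (nat_lit 2) (C.cons (nat_lit 39) (C.node (nat_lit 0) (nat_lit 2) (nat_lit 8) (C.cons (nat_lit 261) (C.node (nat_lit 0) (nat_lit 2) (nat_lit 10) C.nil) C.nil)) (C.cons (nat_lit 7) (C.node (nat_lit 0) (nat_lit 1) (nat_lit 5) C.nil) C.nil))) C.nil)) (C.cons (nat_lit 67) (C.node (nat_lit 0) (nat_lit 2) (nat_lit 8) (C.cons (nat_lit 293) (C.pat (nat_lit 1) (nat_lit 1268213842) (nat_lit 10992266356114712270182175936377593601)) (C.cons (nat_lit 261) (C.node (nat_lit 0) (nat_lit 5) (nat_lit 8) C.nil) C.nil))) C.nil))) C.nil))) (C.cons (nat_lit 265) (C.node (nat_lit 0) (nat_lit 1) (nat_lit 8) (C.cons (nat_lit 291) (C.node (nat_lit 0) (nat_lit 2) (nat_lit 8) (C.cons (nat_lit 261) (C.node (nat_lit 0) (nat_lit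 1) (nat_lit 2) (C.cons (nat_lit 1031) (C.node (nat_lit 0) (nat_lit 2) (nat_lit 5) (C.cons (nat_lit 37) (C.node (nat_lit 0) (nat_lit 5) (nat_lit 10) C.nil) C.nil)) (C.cons (nat_lit 7) (C.node (nat_lit 0) (nat_lit 2) (nat_lit 5) (C.cons (nat_lit 1061) (C.node (nat_lit 0) (nat_lit 1) (nat_lit 9) (C.cons (nat_lit 579) (C.node (nat_lit 0) (nat_lit 3) (nat_lit 9) C.nil) (C.cons (nat_lit 523) (C.node (nat_lit 0) (nat_lit 6) (nat_lit 9) C.nil) C.nil))) C.nil)) C.nil))) C.nil)) (C.cons (nat_lit 263) (C.node (nat_lit 0) (nat_lit 5) (nat_lit 8) (C.cons (nat_lit 289) (C.node (nat_lit 0) (nat_lit 1) (nat_lit 5) (C.cons (nat_lit 1059) (C.node (nat_lit 0) (nat_lit 2) (nat_lit 5) (C.cons (nat_lit 37) (C.node (nat_lit 0) (nat_lit 2) (nat_lit 10) C.nil) C.nil)) (C.cons (nat_lit 35) (C.node (nat_lit 0) (nat_lit 2) (nat_lit 5) (C.cons (nat_lit 1061) (C.node (nat_lit 0) (nat_lit 1) (nat_lit 9) (C.cons (nat_lit 579) (C.pat (nat_lit 1) (nat_lit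 3326580769) (nat_lit 3006682228635627920144808557769195857)) (C.cons (nat_lit 523) (C.node (nat_lit 0) (nat_lit 6) (nat_lit 9) C.nil) C.nil))) C.nil)) C.nil))) C.nil)) (C.cons (nat_lit 259) (C.node (nat_lit 0) (nat_lit 2) (nat_lit 8) (C.cons (nat_lit 293) (C.pat (nat_lit 1) (nat_lit 1268213842) (nat_lit 10992266356114712270182175936377593601)) (C.cons (nat_lit 261) (C.node (nat_lit 0) (nat_lit 5) (nat_lit 8) C.nil) C.nil))) C.nil)))) C.nil))) List.nil)))))

theorem ok13_87 : okL par13 (nat_lit 92) c13_87 (nat_lit 87) = true := by decide +kernel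

noncomputable def c13_92 : List C :=
  (List.cons (C.node (nat_lit 0) (nat_lit 2) (nat_lit 9) (C.cons (nat_lit 645) (C.node (nat_lit 0) (nat_lit 7) (nat_lit 8) (C.cons (nat_lit 393) (C.node (nat_lit 0) (nat_lit 7) (nat_lit 10) (C.cons (nat_lit 1153) (C.node (nat_lit 0) (nat_lit 1) (nat_lit 8) (C.cons (nat_lit 291) (C.ref (nat_lit 90) (nat_lit 3582863703552528)) (C.cons (nat_lit 263) (C.ref (nat_lit 90) (nat_lit 3582862844978448)) (C.cons (nat_lit 259) (C.node (nat_lit 0) (nat_lit 2) (nat_lit 8) (C.cons (nat_lit 293) (C.pat (nat_lit 1) (nat_lit 3109581874) (nat_lit 3349660308035095292787997174449898033)) (C.cons (nat_lit 261) (C.node (nat_lit 0) (nat_lit 5) (nat_lit 8) (C.cons (nat_lit 289) (C.node (nat_lit 0) (nat_lit 1) (nat_lit 2) (C.cons (nat_lit 1031) (C.node (nat_lit 0) (nat_lit 1) (nat_lit 5) (C.cons (nat_lit 35) (C.node (nat_lit 0) (nat_lit 2) (nat_lit 5) (C.cons (nat_lit 37) (C.node (nat_lit 0) (nat_lit 5) (nat_lit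 10) C.nil) C.nil)) C.nil)) (C.cons (nat_lit 39) (C.node (nat_lit 0) (nat_lit 2) (nat_lit 10) (C.cons (nat_lit 1029) (C.node (nat_lit 0) (nat_lit 5) (nat_lit 10) (C.cons (nat_lit 1057) (C.node (nat_lit 0) (nat_lit 1) (nat_lit 9) (C.cons (nat_lit 579) (C.pat (nat_lit 1) (nat_lit 3377161505) (nat_lit 3006968717671212796562975316978762289)) (C.cons (nat_lit 523) (C.pat (nat_lit 1) (nat_lit 3409540385) (nat_lit 11397720439042170273872597404793243689)) C.nil))) C.nil)) C.nil)) (C.cons (nat_lit 7) (C.node (nat_lit 0) (nat_lit 1) (nat_lit 5) (C.cons (nat_lit 1059) (C.node (nat_lit 0) (nat_lit 5) (nat_lit 2) (C.cons (nat_lit 37) (C.node (nat_lit 0) (nat_lit 2) (nat_lit 10) C.nil) C.nil)) (C.cons (nat_lit 35) (C.node (nat_lit 0) (nat_lit 2) (nat_lit 5) (C.cons (nat_lit 1061) (C.node (nat_lit 0) (nat_lit 1) (nat_lit 9) (C.cons (nat_lit 579) (C.node (nat_lit 0) (nat_lit 3) (nat_lit 9) C.nil) (C.cons (nat_lit 523) (C.node (nat_lit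 0) (nat_lit 6) (nat_lit 9) C.nil) C.nil))) C.nil)) C.nil))) C.nil)))) C.nil)) C.nil))) C.nil)))) C.nil)) (C.cons (nat_lit 385) (C.node (nat_lit 0) (nat_lit 3) (nat_lit 7) (C.cons (nat_lit 1161) (C.node (nat_lit 0) (nat_lit 3) (nat_lit 8) (C.cons (nat_lit 267) (C.node (nat_lit 0) (nat_lit 1) (nat_lit 9) (C.cons (nat_lit 579) (C.node (nat_lit 0) (nat_lit 3) (nat_lit 6) (C.cons (nat_lit 73) (C.node (nat_lit 0) (nat_lit 3) (nat_lit 9) (C.cons (nat_lit 521) (C.node (nat_lit 0) (nat_lit 6) (nat_lit 10) (C.cons (nat_lit 1089) (C.node (nat_lit 0) (nat_lit 2) (nat_lit 8) (C.cons (nat_lit 293) (C.pat (nat_lit 1) (nat_lit 1268213842) (nat_lit 10992266356114712270182175936377593601)) (C.cons (nat_lit 261) (C.node (nat_lit 0) (nat_lit 5) (nat_lit 8) (C.cons (nat_lit 289) (C.node (nat_lit 0) (nat_lit 1) (nat_lit 2) (C.cons (nat_lit 1031) (C.node (nat_lit 0) (nat_lit 1) (nat_lit 5) C.nil) (C.cons (nat_lit 39) (C.pat (nat_lit 1) (nat_lit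 3377161505) (nat_lit 3006968717671212796562975316978762289)) C.nil))) C.nil)) C.nil))) C.nil)) C.nil)) C.nil)) (C.cons (nat_lit 515) (C.node (nat_lit 0) (nat_lit 1) (nat_lit 6) (C.cons (nat_lit 1091) (C.pat (nat_lit 1) (nat_lit 3326584881) (nat_lit 5665138220205459665952422695543570769)) (C.cons (nat_lit 67) (C.node (nat_lit 0) (nat_lit 6) (nat_lit 10) (C.cons (nat_lit 1089) (C.node (nat_lit 0) (nat_lit 2) (nat_lit 8) (C.cons (nat_lit 293) (C.pat (nat_lit 1) (nat_lit 1268213842) (nat_lit 10992266356114712270182175936377593601)) (C.cons (nat_lit 261) (C.node (nat_lit 0) (nat_lit 5) (nat_lit 8) (C.cons (nat_lit 289) (C.node (nat_lit 0) (nat_lit 3) (nat_lit 6) (C.cons (nat_lit 585) (C.pat (nat_lit 1) (nat_lit 1471583282) (nat_lit 3349373821204494265940526092794792083)) C.nil)) C.nil)) C.nil))) C.nil)) C.nil))) C.nil))) (C.cons (nat_lit 265) (C.node (nat_lit 0) (nat_lit 6) (nat_lit 10) (C.cons (nat_lit 1091) (C.node (nat_lit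 0) (nat_lit 1) (nat_lit 3) (C.cons (nat_lit 523) (C.node (nat_lit 0) (nat_lit 3) (nat_lit 6) (C.cons (nat_lit 73) (C.node (nat_lit 0) (nat_lit 6) (nat_lit 9) (C.cons (nat_lit 577) (C.node (nat_lit 0) (nat_lit 5) (nat_lit 10) (C.cons (nat_lit 1061)
  (C.pat (nat_lit 1) (nat_lit 2073311781) (nat_lit 10846882043974202527876457121720377089)) (C.cons (nat_lit 1057) (C.node (nat_lit 0) (nat_lit 2) (nat_lit 10) (C.cons (nat_lit 1029) (C.node (nat_lit 0) (nat_lit 1) (nat_lit 5) (C.cons (nat_lit 291) (C.node (nat_lit 0) (nat_lit 1) (nat_lit 2) C.nil) (C.cons (nat_lit 39) (C.pat (nat_lit 1) (nat_lit 3380294225) (nat_lit 2716200093593258833858598170903773829)) C.nil))) C.nil)) C.nil))) C.nil)) C.nil)) (C.cons (nat_lit 11) (C.node (nat_lit 0) (nat_lit 1) (nat_lit 9) (C.cons (nat_lit 515) (C.node (nat_lit 0) (nat_lit 5) (nat_lit 10) (C.cons (nat_lit 1061) (C.pat (nat_lit 1) (nat_lit 2073311781) (nat_lit 10846882043974202527876457121720377089))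 (C.cons (nat_lit 1057) (C.node (nat_lit 0) (nat_lit 2) (nat_lit 10) (C.cons (nat_lit 1029) (C.node (nat_lit 0) (nat_lit 6) (nat_lit 3) (C.cons (nat_lit 585) (C.pat (nat_lit 1) (nat_lit 615749477) (nat_lit 2913205356333867575918970782398089363)) C.nil)) C.nil)) C.nil))) C.nil)) C.nil))) (C.cons (nat_lit 1089) (C.node (nat_lit 0) (nat_lit 1) (nat_lit 3) (C.cons (nat_lit 523) (C.node (nat_lit 0) (nat_lit 1) (nat_lit 6) (C.cons (nat_lit 67) (C.node (nat_lit 0) (nat_lit 3) (nat_lit 6) (C.cons (nat_lit 73) (C.node (nat_lit 0) (nat_lit 6) (nat_lit 9) (C.cons (nat_lit 577) (C.node (nat_lit 0) (nat_lit 1) (nat_lit 8) (C.cons (nat_lit 291) (C.node (nat_lit 0) (nat_lit 2) (nat_lit 8) C.nil) (C.cons (nat_lit 263) (C.node (nat_lit 0) (nat_lit 5) (nat_lit 8) C.nil) C.nil))) C.nil)) C.nil)) C.nil)) (C.cons (nat_lit 75) (C.node (nat_lit 0) (nat_lit 1) (nat_lit 9) (C.cons (nat_lit 515) (C.node (nat_lit 0) (nat_lit 3) (nat_lit 9) (C.cons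 (nat_lit 521) (C.node (nat_lit 0) (nat_lit 6) (nat_lit 9) (C.cons (nat_lit 577) (C.node (nat_lit 0) (nat_lit 1) (nat_lit 8) (C.cons (nat_lit 291) (C.pat (nat_lit 1) (nat_lit 3360380465) (nat_lit 1511587222413182439546192528780362065)) (C.cons (nat_lit 263) (C.node (nat_lit 0) (nat_lit 5) (nat_lit 8) C.nil) C.nil))) C.nil)) C.nil)) C.nil)) (C.cons (nat_lit 11) (C.node (nat_lit 0) (nat_lit 1) (nat_lit 6) (C.cons (nat_lit 579) (C.node (nat_lit 0) (nat_lit 6) (nat_lit 3) (C.cons (nat_lit 73) (C.node (nat_lit 0) (nat_lit 3) (nat_lit 9) (C.cons (nat_lit 521) (C.node (nat_lit 0) (nat_lit 1) (nat_lit 10) (C.cons (nat_lit 1031) (C.node (nat_lit 0) (nat_lit 5) (nat_lit 10) C.nil) (C.cons (nat_lit 1059) (C.node (nat_lit 0) (nat_lit 2) (nat_lit 10) C.nil) C.nil))) C.nil)) C.nil)) (C.cons (nat_lit 67) (C.node (nat_lit 0) (nat_lit 1) (nat_lit 9) (C.cons (nat_lit 515) (C.node (nat_lit 0) (nat_lit 3) (nat_lit 6) (C.cons (nat_lit 585)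 (C.pat (nat_lit 1) (nat_lit 1471583282) (nat_lit 3349373821204494265940526092794792083)) C.nil)) C.nil)) C.nil))) C.nil)))) C.nil))) C.nil))) (C.cons (nat_lit 137) (C.node (nat_lit 0) (nat_lit 7) (nat_lit 10) (C.cons (nat_lit 1153) (C.ref (nat_lit 91) (nat_lit 3582863703552528)) C.nil)) C.nil))) C.nil))) (C.cons (nat_lit 519) (C.node (nat_lit 0) (nat_lit 6) (nat_lit 9) (C.cons (nat_lit 585) (C.node (nat_lit 0) (nat_lit 7) (nat_lit 9) (C.cons (nat_lit 641) (C.node (nat_lit 0) (nat_lit 1) (nat_lit 6) (C.cons (nat_lit 1091) (C.node (nat_lit 0) (nat_lit 1) (nat_lit 3) (C.cons (nat_lit 267) (C.pat (nat_lit 1) (nat_lit 1756641569) (nat_lit 1386369963773169249894690457835609857)) (C.cons (nat_lit 11) (C.node (nat_lit 0) (nat_lit 1) (nat_lit 5) (C.cons (nat_lit 291) (C.pat (nat_lit 2) (nat_lit 36005197204) (nat_lit 6489693462358965799943633642388557489371154501)) (C.cons (nat_lit 35) (C.node (nat_lit 0) (nat_lit 1) (nat_lit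 8) (C.cons (nat_lit 259) (C.node (nat_lit 0) (nat_lit 3) (nat_lit 8) (C.cons (nat_lit 393) (C.pat (nat_lit 1) (nat_lit 1217821523) (nat_lit 2040599366002216660329970375768219393)) (C.cons (nat_lit 265) (C.node (nat_lit 0) (nat_lit 3) (nat_lit 7) (C.cons (nat_lit 1161) (C.pat (nat_lit 4) (nat_lit 155010642838) (nat_lit 3208009140248523803326786898951957742902175429369601)) (C.cons (nat_lit 137) (C.node (nat_lit 0) (nat_lit 3) (nat_lit 10) C.nil) C.nil))) C.nil))) C.nil)) C.nil))) C.nil)))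
  (C.cons (nat_lit 67) (C.node (nat_lit 0) (nat_lit 6) (nat_lit 10) (C.cons (nat_lit 1089) (C.node (nat_lit 0) (nat_lit 1) (nat_lit 3) (C.cons (nat_lit 1035) (C.node (nat_lit 0) (nat_lit 1) (nat_lit 5) (C.cons (nat_lit 291) (C.pat (nat_lit 2) (nat_lit 36005197204) (nat_lit 6489693462358965799943633642388557489371154501)) (C.cons (nat_lit 35) (C.node (nat_lit 0) (nat_lit 1) (nat_lit 8) (C.cons (nat_lit 259) (C.node (nat_lit 0) (nat_lit 3) (nat_lit 7) (C.cons (nat_lit 393) (C.pat (nat_lit 1) (nat_lit 1217821523) (nat_lit 2040599366002216660329970375768219393)) (C.cons (nat_lit 137) (C.node (nat_lit 0) (nat_lit 3) (nat_lit 8) C.nil) C.nil))) C.nil)) C.nil))) (C.cons (nat_lit 267) (C.pat (nat_lit 1) (nat_lit 1756641569) (nat_lit 1386369963773169249894690457835609857)) (C.cons (nat_lit 11) (C.node (nat_lit 0) (nat_lit 1) (nat_lit 8) (C.cons (nat_lit 291) (C.pat (nat_lit 2) (nat_lit 36005197204) (nat_lit 6489693462358965799943633642388557489371154501))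 (C.cons (nat_lit 259) (C.node (nat_lit 0) (nat_lit 1) (nat_lit 5) (C.cons (nat_lit 1059) (C.node (nat_lit 0) (nat_lit 2) (nat_lit 5) (C.cons (nat_lit 293) (C.pat (nat_lit 1) (nat_lit 2557170738) (nat_lit 1521971816035886520119191274959470929)) (C.cons (nat_lit 37) (C.node (nat_lit 0) (nat_lit 5) (nat_lit 8) C.nil) C.nil))) (C.cons (nat_lit 35) (C.node (nat_lit 0) (nat_lit 1) (nat_lit 10) C.nil) C.nil))) C.nil))) C.nil)))) C.nil)) C.nil))) C.nil)) (C.cons (nat_lit 577) (C.node (nat_lit 0) (nat_lit 3) (nat_lit 9) (C.cons (nat_lit 649) (C.pat (nat_lit 0) (nat_lit 127622211) (nat_lit 628839149684673363444664210362397)) (C.cons (nat_lit 521) (C.node (nat_lit 0) (nat_lit 7) (nat_lit 9) (C.cons (nat_lit 641) (C.node (nat_lit 0) (nat_lit 1) (nat_lit 5) (C.cons (nat_lit 1059) (C.node (nat_lit 0) (nat_lit 1) (nat_lit 6) (C.cons (nat_lit 75) (C.node (nat_lit 0) (nat_lit 1) (nat_lit 8) (C.cons (nat_lit 259) (C.node (nat_lit 0) (nat_lit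 6) (nat_lit 10) (C.cons (nat_lit 1089) (C.node (nat_lit 0) (nat_lit 2) (nat_lit 5) (C.cons (nat_lit 293) (C.pat (nat_lit 2) (nat_lit 6851769154) (nat_lit 1672670567960501537857578748635573750610075393)) (C.cons (nat_lit 37) (C.node (nat_lit 0) (nat_lit 5) (nat_lit 8) C.nil) C.nil))) C.nil)) C.nil)) (C.cons (nat_lit 67) (C.node (nat_lit 0) (nat_lit 1) (nat_lit 3) (C.cons (nat_lit 267) (C.node (nat_lit 0) (nat_lit 2) (nat_lit 5) (C.cons (nat_lit 293) (C.pat (nat_lit 1) (nat_lit 1535330593) (nat_lit 11397257112438232485368678094189960961)) (C.cons (nat_lit 37) (C.node (nat_lit 0) (nat_lit 5) (nat_lit 8) (C.cons (nat_lit 289) (C.node (nat_lit 0) (nat_lit 2) (nat_lit 8) (C.cons (nat_lit 389) (C.pat (nat_lit 0) (nat_lit 126577730) (nat_lit 628839149684673300393152737513501)) C.nil)) C.nil)) C.nil))) (C.cons (nat_lit 11) (C.node (nat_lit 0) (nat_lit 1) (nat_lit 8) (C.cons (nat_lit 259) (C.node (nat_lit 0) (nat_lit 2) (nat_lit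 5) (C.cons (nat_lit 293) (C.node (nat_lit 0) (nat_lit 2) (nat_lit 7) (C.cons (nat_lit 1157) (C.pat (nat_lit 1) (nat_lit 3309807905) (nat_lit 5498984720732345181839447895340024369)) C.nil)) C.nil)) C.nil)) C.nil))) C.nil))) (C.cons (nat_lit 291) (C.node (nat_lit 0) (nat_lit 2) (nat_lit 5) (C.cons (nat_lit 1061) (C.node (nat_lit 0) (nat_lit 2) (nat_lit 7) (C.cons (nat_lit 389) (C.pat (nat_lit 0) (nat_lit 126577730) (nat_lit 628839149684673300393152737513501)) (C.cons (nat_lit 133) (C.node (nat_lit 0) (nat_lit 2) (nat_lit 8) (C.cons (nat_lit 261) (C.node (nat_lit 0) (nat_lit 3) (nat_lit 8) (C.cons (nat_lit 393) (C.node (nat_lit 0) (nat_lit 7) (nat_lit 10) (C.cons (nat_lit 1153) (C.node (nat_lit 0) (nat_lit 1) (nat_lit 3) (C.cons (nat_lit 1035) (C.pat (nat_lit 1) (nat_lit 1504979505) (nat_lit 2694846519232357788138296489245744897)) (C.cons (nat_lit 75) (C.pat (nat_lit 1) (nat_lit 3360380465) (nat_lit 1511587222413182439546192528780362065))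 C.nil))) C.nil)) (C.cons (nat_lit 265) (C.node (nat_lit 0) (nat_lit 7) (nat_lit 8) C.nil) C.nil))) C.nil)) C.nil))) (C.cons (nat_lit 37) (C.node (nat_lit 0) (nat_lit 5) (nat_lit 10) (C.cons (nat_lit 1057)
  (C.node (nat_lit 0) (nat_lit 2) (nat_lit 8) (C.cons (nat_lit 389) (C.pat (nat_lit 0) (nat_lit 126577730) (nat_lit 628839149684673300393152737513501)) (C.cons (nat_lit 261) (C.node (nat_lit 0) (nat_lit 2) (nat_lit 7) (C.cons (nat_lit 1157) (C.node (nat_lit 0) (nat_lit 3) (nat_lit 7) (C.cons (nat_lit 393) (C.node (nat_lit 0) (nat_lit 1) (nat_lit 3) (C.cons (nat_lit 1035) (C.node (nat_lit 0) (nat_lit 1) (nat_lit 6) C.nil) (C.cons (nat_lit 75) (C.pat (nat_lit 1) (nat_lit 3360380465) (nat_lit 1511587222413182439546192528780362065)) C.nil))) C.nil)) C.nil)) C.nil))) C.nil)) C.nil))) (C.cons (nat_lit 35) (C.node (nat_lit 0) (nat_lit 1) (nat_lit 8) (C.cons (nat_lit 267) (C.node (nat_lit 0) (nat_lit 1) (nat_lit 6) (C.cons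 (nat_lit 1091) (C.node (nat_lit 0) (nat_lit 3) (nat_lit 6) (C.cons (nat_lit 73) (C.node (nat_lit 0) (nat_lit 3) (nat_lit 7) (C.cons (nat_lit 1161) (C.pat (nat_lit 1) (nat_lit 3326584881) (nat_lit 5665138220205459665952422695543570769)) (C.cons (nat_lit 137) (C.node (nat_lit 0) (nat_lit 3) (nat_lit 10) C.nil) C.nil))) C.nil)) (C.cons (nat_lit 67) (C.node (nat_lit 0) (nat_lit 1) (nat_lit 10) (C.cons (nat_lit 1027) (C.node (nat_lit 0) (nat_lit 3) (nat_lit 6) (C.cons (nat_lit 1097) (C.node (nat_lit 0) (nat_lit 3) (nat_lit 7) C.nil) C.nil)) C.nil)) C.nil))) (C.cons (nat_lit 259) (C.node (nat_lit 0) (nat_lit 3) (nat_lit 8) (C.cons (nat_lit 393) (C.node (nat_lit 0) (nat_lit 2) (nat_lit 7) (C.cons (nat_lit 1157) (C.node (nat_lit 0) (nat_lit 5) (nat_lit 10) (C.cons (nat_lit 1057) (C.node (nat_lit 0) (nat_lit 2) (nat_lit 5) (C.cons (nat_lit 293) (C.pat (nat_lit 1) (nat_lit 1739949091) (nat_lit 2040915012819863648538840189328754835))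 C.nil)) C.nil)) (C.cons (nat_lit 133) (C.node (nat_lit 0) (nat_lit 7) (nat_lit 10) C.nil) C.nil))) (C.cons (nat_lit 265) (C.node (nat_lit 0) (nat_lit 3) (nat_lit 7) (C.cons (nat_lit 1161) (C.node (nat_lit 0) (nat_lit 1) (nat_lit 3) (C.cons (nat_lit 75) (C.node (nat_lit 0) (nat_lit 1) (nat_lit 10) C.nil) C.nil)) C.nil)) C.nil))) C.nil))) C.nil)))) C.nil)) C.nil))) C.nil))) (C.cons (nat_lit 517) (C.node (nat_lit 0) (nat_lit 7) (nat_lit 9) (C.cons (nat_lit 649) (C.pat (nat_lit 0) (nat_lit 127622211) (nat_lit 628839149684673363444664210362397)) (C.cons (nat_lit 641) (C.node (nat_lit 0) (nat_lit 1) (nat_lit 9) (C.cons (nat_lit 579) (C.node (nat_lit 0) (nat_lit 3) (nat_lit 9) (C.cons (nat_lit 521) (C.node (nat_lit 0) (nat_lit 3) (nat_lit 6) (C.cons (nat_lit 1097) (C.node (nat_lit 0) (nat_lit 1) (nat_lit 3) (C.cons (nat_lit 267) (C.node (nat_lit 0) (nat_lit 3) (nat_lit 7) (C.cons (nat_lit 137) (C.node (nat_lit 0) (nat_lit 5)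 (nat_lit 8) (C.cons (nat_lit 293) (C.pat (nat_lit 2) (nat_lit 40048440964) (nat_lit 12912222326863170505554812121999189997188614185)) (C.cons (nat_lit 289) (C.node (nat_lit 0) (nat_lit 2) (nat_lit 8) (C.cons (nat_lit 389) (C.pat (nat_lit 0) (nat_lit 126577730) (nat_lit 628839149684673300393152737513501)) (C.cons (nat_lit 261) (C.node (nat_lit 0) (nat_lit 7) (nat_lit 8) C.nil) C.nil))) C.nil))) C.nil)) (C.cons (nat_lit 11) (C.node (nat_lit 0) (nat_lit 3) (nat_lit 7) (C.cons (nat_lit 393) (C.node (nat_lit 0) (nat_lit 2) (nat_lit 7) (C.cons (nat_lit 1157) (C.pat (nat_lit 1) (nat_lit 2340054066) (nat_lit 10992721284842839195604056865205979283)) (C.cons (nat_lit 133) (C.node (nat_lit 0) (nat_lit 7) (nat_lit 10) (C.cons (nat_lit 1153) (C.node (nat_lit 0) (nat_lit 1) (nat_lit 8) (C.cons (nat_lit 291) (C.node (nat_lit 0) (nat_lit 2) (nat_lit 8) C.nil) (C.cons (nat_lit 263) (C.node (nat_lit 0) (nat_lit 5) (nat_lit 8) C.nil) C.nil)))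 C.nil)) C.nil))) (C.cons (nat_lit 137) (C.node (nat_lit 0) (nat_lit 3) (nat_lit 8) (C.cons (nat_lit 265) (C.node (nat_lit 0) (nat_lit 7) (nat_lit 8) (C.cons (nat_lit 389) (C.pat (nat_lit 0) (nat_lit 126577730) (nat_lit 628839149684673300393152737513501)) C.nil)) C.nil)) C.nil))) C.nil))) (C.cons (nat_lit 73) (C.node (nat_lit 0) (nat_lit 6) (nat_lit 10) (C.cons (nat_lit 1089) (C.node (nat_lit 0) (nat_lit 1) (nat_lit 3) (C.cons (nat_lit 1035)
  (C.node (nat_lit 0) (nat_lit 3) (nat_lit 7) (C.cons (nat_lit 393) (C.node (nat_lit 0) (nat_lit 2) (nat_lit 7) (C.cons (nat_lit 1157) (C.node (nat_lit 0) (nat_lit 5) (nat_lit 10) (C.cons (nat_lit 1057) (C.node (nat_lit 0) (nat_lit 1) (nat_lit 2) (C.cons (nat_lit 263) (C.node (nat_lit 0) (nat_lit 1) (nat_lit 5) C.nil) (C.cons (nat_lit 39) (C.pat (nat_lit 1) (nat_lit 3377161505) (nat_lit 3006968717671212796562975316978762289)) C.nil))) C.nil)) (C.cons (nat_lit 133) (C.node (nat_lit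 0) (nat_lit 7) (nat_lit 10) C.nil) C.nil))) (C.cons (nat_lit 137) (C.node (nat_lit 0) (nat_lit 3) (nat_lit 8) C.nil) C.nil))) (C.cons (nat_lit 267) (C.node (nat_lit 0) (nat_lit 3) (nat_lit 7) (C.cons (nat_lit 1161) (C.node (nat_lit 0) (nat_lit 2) (nat_lit 7) (C.cons (nat_lit 389) (C.pat (nat_lit 0) (nat_lit 126577730) (nat_lit 628839149684673300393152737513501)) (C.cons (nat_lit 133) (C.node (nat_lit 0) (nat_lit 7) (nat_lit 8) C.nil) C.nil))) (C.cons (nat_lit 137) (C.node (nat_lit 0) (nat_lit 3) (nat_lit 10) C.nil) C.nil))) (C.cons (nat_lit 11) (C.node (nat_lit 0) (nat_lit 3) (nat_lit 8) (C.cons (nat_lit 393) (C.node (nat_lit 0) (nat_lit 3) (nat_lit 10) C.nil) C.nil)) C.nil)))) C.nil)) C.nil))) C.nil)) (C.cons (nat_lit 523) (C.node (nat_lit 0) (nat_lit 6) (nat_lit 9) (C.cons (nat_lit 577) (C.node (nat_lit 0) (nat_lit 1) (nat_lit 6) (C.cons (nat_lit 1091) (C.node (nat_lit 0) (nat_lit 3) (nat_lit 6) (C.cons (nat_lit 73)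 (C.node (nat_lit 0) (nat_lit 3) (nat_lit 8) (C.cons (nat_lit 393) (C.node (nat_lit 0) (nat_lit 3) (nat_lit 10) (C.cons (nat_lit 1033) (C.node (nat_lit 0) (nat_lit 2) (nat_lit 7) (C.cons (nat_lit 1157) (C.node (nat_lit 0) (nat_lit 5) (nat_lit 10) (C.cons (nat_lit 1057) (C.node (nat_lit 0) (nat_lit 1) (nat_lit 2) (C.cons (nat_lit 263) (C.pat (nat_lit 1) (nat_lit 3326584865) (nat_lit 5665138220205459665952422678363439441)) (C.cons (nat_lit 39) (C.pat (nat_lit 6) (nat_lit 225928787233) (nat_lit 3208043304990167972712731702417136180007596166942945)) C.nil))) C.nil)) (C.cons (nat_lit 133) (C.node (nat_lit 0) (nat_lit 7) (nat_lit 10) C.nil) C.nil))) C.nil)) (C.cons (nat_lit 265) (C.node (nat_lit 0) (nat_lit 3) (nat_lit 7) (C.cons (nat_lit 1161) (C.node (nat_lit 0) (nat_lit 2) (nat_lit 7) (C.cons (nat_lit 389) (C.pat (nat_lit 0) (nat_lit 126577730) (nat_lit 628839149684673300393152737513501)) (C.cons (nat_lit 133) (C.node (nat_lit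 0) (nat_lit 7) (nat_lit 8) C.nil) C.nil))) (C.cons (nat_lit 137) (C.node (nat_lit 0) (nat_lit 3) (nat_lit 10) C.nil) C.nil))) C.nil))) C.nil)) (C.cons (nat_lit 67) (C.node (nat_lit 0) (nat_lit 3) (nat_lit 6) (C.cons (nat_lit 1097) (C.node (nat_lit 0) (nat_lit 3) (nat_lit 7) (C.cons (nat_lit 393) (C.node (nat_lit 0) (nat_lit 2) (nat_lit 7) (C.cons (nat_lit 1157) (C.pat (nat_lit 1) (nat_lit 2340054066) (nat_lit 10992721284842839195604056865205979283)) (C.cons (nat_lit 133) (C.node (nat_lit 0) (nat_lit 7) (nat_lit 10) (C.cons (nat_lit 1153) (C.node (nat_lit 0) (nat_lit 1) (nat_lit 8) (C.cons (nat_lit 291) (C.pat (nat_lit 1) (nat_lit 3309799729) (nat_lit 1511300733377597563128026731628790321)) (C.cons (nat_lit 263) (C.node (nat_lit 0) (nat_lit 5) (nat_lit 8) C.nil) C.nil))) C.nil)) C.nil))) (C.cons (nat_lit 137) (C.node (nat_lit 0) (nat_lit 3) (nat_lit 8) (C.cons (nat_lit 265) (C.node (nat_lit 0) (nat_lit 7) (nat_lit 8)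 (C.cons (nat_lit 389) (C.pat (nat_lit 0) (nat_lit 126577730) (nat_lit 628839149684673300393152737513501)) C.nil)) C.nil)) C.nil))) (C.cons (nat_lit 73) (C.node (nat_lit 0) (nat_lit 6) (nat_lit 10) (C.cons (nat_lit 1089) (C.node (nat_lit 0) (nat_lit 3) (nat_lit 8) (C.cons (nat_lit 393) (C.node (nat_lit 0) (nat_lit 3) (nat_lit 10) C.nil) C.nil)) C.nil)) C.nil))) C.nil))) C.nil)) (C.cons (nat_lit 515) (C.node (nat_lit 0) (nat_lit 3) (nat_lit 9) (C.cons (nat_lit 585) (C.node (nat_lit 0) (nat_lit 1) (nat_lit 6) (C.cons (nat_lit 1091) (C.node (nat_lit 0) (nat_lit 1) (nat_lit 3) (C.cons (nat_lit 267) (C.node (nat_lit 0) (nat_lit 1) (nat_lit 2) (C.cons (nat_lit 39)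
  (C.pat (nat_lit 2) (nat_lit 6599127619) (nat_lit 869919962900514898700152572393359889754038017)) (C.cons (nat_lit 7) (C.node (nat_lit 0) (nat_lit 1) (nat_lit 5) (C.cons (nat_lit 35) (C.node (nat_lit 0) (nat_lit 3) (nat_lit 7) (C.cons (nat_lit 1161) (C.pat (nat_lit 1) (nat_lit 3326584881) (nat_lit 5665138220205459665952422695543570769)) (C.cons (nat_lit 137) (C.node (nat_lit 0) (nat_lit 3) (nat_lit 10) C.nil) C.nil))) C.nil)) C.nil))) (C.cons (nat_lit 11) (C.node (nat_lit 0) (nat_lit 3) (nat_lit 8) (C.cons (nat_lit 393) (C.pat (nat_lit 1) (nat_lit 1217821523) (nat_lit 2040599366002216660329970375768219393)) (C.cons (nat_lit 265) (C.node (nat_lit 0) (nat_lit 3) (nat_lit 7) (C.cons (nat_lit 1161) (C.node (nat_lit 0) (nat_lit 2) (nat_lit 7) (C.cons (nat_lit 389) (C.pat (nat_lit 0) (nat_lit 126577730) (nat_lit 628839149684673300393152737513501)) (C.cons (nat_lit 133) (C.node (nat_lit 0) (nat_lit 7) (nat_lit 8) C.nil) C.nil)))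 (C.cons (nat_lit 137) (C.node (nat_lit 0) (nat_lit 3) (nat_lit 10) C.nil) C.nil))) C.nil))) C.nil))) (C.cons (nat_lit 67) (C.node (nat_lit 0) (nat_lit 6) (nat_lit 10) (C.cons (nat_lit 1089) (C.node (nat_lit 0) (nat_lit 1) (nat_lit 3) (C.cons (nat_lit 1035) (C.node (nat_lit 0) (nat_lit 3) (nat_lit 7) (C.cons (nat_lit 393) (C.pat (nat_lit 1) (nat_lit 1217821523) (nat_lit 2040599366002216660329970375768219393)) (C.cons (nat_lit 137) (C.node (nat_lit 0) (nat_lit 3) (nat_lit 8) C.nil) C.nil))) (C.cons (nat_lit 267) (C.node (nat_lit 0) (nat_lit 3) (nat_lit 7) (C.cons (nat_lit 1161) (C.node (nat_lit 0) (nat_lit 2) (nat_lit 7) (C.cons (nat_lit 389) (C.pat (nat_lit 0) (nat_lit 126577730) (nat_lit 628839149684673300393152737513501)) (C.cons (nat_lit 133) (C.node (nat_lit 0) (nat_lit 7) (nat_lit 8) C.nil) C.nil))) (C.cons (nat_lit 137) (C.node (nat_lit 0) (nat_lit 3) (nat_lit 10) C.nil) C.nil))) (C.cons (nat_lit 11) (C.node (nat_lit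 0) (nat_lit 3) (nat_lit 8) (C.cons (nat_lit 393) (C.pat (nat_lit 1) (nat_lit 1217821523) (nat_lit 2040599366002216660329970375768219393)) C.nil)) C.nil)))) C.nil)) C.nil))) (C.cons (nat_lit 521) (C.node (nat_lit 0) (nat_lit 6) (nat_lit 9) (C.cons (nat_lit 577) (C.node (nat_lit 0) (nat_lit 1) (nat_lit 6) (C.cons (nat_lit 1091) (C.node (nat_lit 0) (nat_lit 3) (nat_lit 6) (C.cons (nat_lit 73) (C.node (nat_lit 0) (nat_lit 1) (nat_lit 3) (C.cons (nat_lit 267) (C.node (nat_lit 0) (nat_lit 1) (nat_lit 2) (C.cons (nat_lit 39) (C.node (nat_lit 0) (nat_lit 5) (nat_lit 8) C.nil) C.nil)) C.nil)) C.nil)) (C.cons (nat_lit 75) (C.node (nat_lit 0) (nat_lit 6) (nat_lit 10) (C.cons (nat_lit 1089) (C.node (nat_lit 0) (nat_lit 3) (nat_lit 8) (C.cons (nat_lit 393) (C.node (nat_lit 0) (nat_lit 3) (nat_lit 10) C.nil) C.nil)) C.nil)) (C.cons (nat_lit 67) (C.node (nat_lit 0) (nat_lit 3) (nat_lit 6) (C.cons (nat_lit 1097) (C.node (nat_lit 0)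 (nat_lit 1) (nat_lit 3) (C.cons (nat_lit 267) (C.node (nat_lit 0) (nat_lit 3) (nat_lit 7) C.nil) C.nil)) C.nil)) C.nil)))) C.nil)) C.nil))) C.nil)))) C.nil))) C.nil)))) (List.cons (C.node (nat_lit 0) (nat_lit 1) (nat_lit 2) (C.cons (nat_lit 1031) (C.node (nat_lit 0) (nat_lit 1) (nat_lit 6) (C.cons (nat_lit 67) (C.node (nat_lit 0) (nat_lit 2) (nat_lit 7) (C.cons (nat_lit 645) (C.pat (nat_lit 4) (nat_lit 223731102341) (nat_lit 3208002628245810916321030661767528933570651206524673)) (C.cons (nat_lit 133) (C.node (nat_lit 0) (nat_lit 2) (nat_lit 9) C.nil) C.nil))) C.nil)) (C.cons (nat_lit 7) (C.node (nat_lit 0) (nat_lit 1) (nat_lit 6) (C.cons (nat_lit 1091) (C.node (nat_lit 0) (nat_lit 2) (nat_lit 9) (C.cons (nat_lit 645) (C.pat (nat_lit 4) (nat_lit 223731102341) (nat_lit 3208002628245810916321030661767528933570651206524673)) (C.cons (nat_lit 517) (C.node (nat_lit 0) (nat_lit 2) (nat_lit 7) (C.cons (nat_lit 1157) (C.node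 (nat_lit 0) (nat_lit 3) (nat_lit 10) C.nil) C.nil)) C.nil))) (C.cons (nat_lit 67) (C.node (nat_lit 0) (nat_lit 1) (nat_lit 10) C.nil) C.nil))) C.nil))) (List.cons (C.node (nat_lit 0) (nat_lit 2) (nat_lit 5) (C.cons (nat_lit 549)
  (C.node (nat_lit 0) (nat_lit 2) (nat_lit 7) (C.cons (nat_lit 1157) (C.node (nat_lit 0) (nat_lit 3) (nat_lit 7) (C.cons (nat_lit 649) (C.node (nat_lit 0) (nat_lit 1) (nat_lit 3) (C.cons (nat_lit 75) (C.pat (nat_lit 2) (nat_lit 7133640309) (nat_lit 1672776739153589798378796472380335168348561153)) (C.cons (nat_lit 11) (C.node (nat_lit 0) (nat_lit 1) (nat_lit 6) (C.cons (nat_lit 579) (C.pat (nat_lit 1) (nat_lit 731282001) (nat_lit 11397259331203978734821422860154773249)) C.nil)) C.nil))) (C.cons (nat_lit 137) (C.node (nat_lit 0) (nat_lit 7) (nat_lit 9) C.nil) C.nil))) (C.cons (nat_lit 133) (C.node (nat_lit 0) (nat_lit 2) (nat_lit 10) C.nil) C.nil))) (C.cons (nat_lit 37) (C.node (nat_lit 0) (nat_lit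 5) (nat_lit 9) C.nil) C.nil))) List.nil)))

theorem ok13_92 : okL par13 (nat_lit 95) c13_92 (nat_lit 92) = true := by decide +kernel

noncomputable def c13_95 : List C :=
  (List.cons (C.node (nat_lit 0) (nat_lit 3) (nat_lit 8) (C.cons (nat_lit 393) (C.node (nat_lit 0) (nat_lit 7) (nat_lit 9) (C.cons (nat_lit 645) (C.node (nat_lit 0) (nat_lit 7) (nat_lit 10) (C.cons (nat_lit 1153) (C.ref (nat_lit 91) (nat_lit 3582798404736528)) C.nil)) (C.cons (nat_lit 641) (C.node (nat_lit 0) (nat_lit 2) (nat_lit 7) (C.cons (nat_lit 1157) (C.ref (nat_lit 91) (nat_lit 3581703188076048)) (C.cons (nat_lit 133) (C.node (nat_lit 0) (nat_lit 7) (nat_lit 10) (C.cons (nat_lit 1153) (C.node (nat_lit 0) (nat_lit 1) (nat_lit 8) (C.cons (nat_lit 291) (C.node (nat_lit 0) (nat_lit 2) (nat_lit 8) (C.cons (nat_lit 261) (C.node (nat_lit 0) (nat_lit 5) (nat_lit 9) (C.cons (nat_lit 549) (C.node (nat_lit 0) (nat_lit 5) (nat_lit 10) C.nil) C.nil)) C.nil))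 (C.cons (nat_lit 263) (C.node (nat_lit 0) (nat_lit 5) (nat_lit 8) (C.cons (nat_lit 289) (C.node (nat_lit 0) (nat_lit 2) (nat_lit 9) (C.cons (nat_lit 549) (C.node (nat_lit 0) (nat_lit 2) (nat_lit 10) C.nil) C.nil)) C.nil)) (C.cons (nat_lit 259) (C.node (nat_lit 0) (nat_lit 2) (nat_lit 8) (C.cons (nat_lit 293) (C.pat (nat_lit 1) (nat_lit 1988473906) (nat_lit 10992434794762709981662767955747340625)) C.nil)) C.nil)))) C.nil)) C.nil))) C.nil))) (C.cons (nat_lit 267) (C.node (nat_lit 0) (nat_lit 5) (nat_lit 8) (C.cons (nat_lit 293) (C.node (nat_lit 0) (nat_lit 7) (nat_lit 8) (C.cons (nat_lit 385) (C.node (nat_lit 0) (nat_lit 5) (nat_lit 9) (C.cons (nat_lit 547) (C.node (nat_lit 0) (nat_lit 5) (nat_lit 10) (C.cons (nat_lit 1057) (C.ref (nat_lit 93) (nat_lit 3582863703552528)) C.nil)) (C.cons (nat_lit 545) (C.node (nat_lit 0) (nat_lit 1) (nat_lit 5) (C.cons (nat_lit 1059) (C.ref (nat_lit 93) (nat_lit 3581832911401488)) (C.cons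 (nat_lit 35) (C.node (nat_lit 0) (nat_lit 5) (nat_lit 10) (C.cons (nat_lit 1057) (C.node (nat_lit 0) (nat_lit 1) (nat_lit 2) (C.cons (nat_lit 1031) (C.node (nat_lit 0) (nat_lit 1) (nat_lit 6) (C.cons (nat_lit 579) (C.node (nat_lit 0) (nat_lit 2) (nat_lit 7) (C.cons (nat_lit 645) (C.node (nat_lit 0) (nat_lit 3) (nat_lit 9) C.nil) C.nil)) C.nil)) (C.cons (nat_lit 519) (C.node (nat_lit 0) (nat_lit 1) (nat_lit 6) (C.cons (nat_lit 1091) (C.node (nat_lit 0) (nat_lit 2) (nat_lit 7) (C.cons (nat_lit 1157) (C.node (nat_lit 0) (nat_lit 3) (nat_lit 10) C.nil) C.nil)) C.nil)) C.nil))) C.nil)) C.nil))) C.nil))) C.nil)) (C.cons (nat_lit 289) (C.node (nat_lit 0) (nat_lit 2) (nat_lit 8) (C.cons (nat_lit 389) (C.pat (nat_lit 0) (nat_lit 126577730) (nat_lit 628839149684673300393152737513501)) (C.cons (nat_lit 261) (C.node (nat_lit 0) (nat_lit 7) (nat_lit 8) (C.cons (nat_lit 385) (C.node (nat_lit 0) (nat_lit 1) (nat_lit 6) (C.cons (nat_lit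 1091) (C.node (nat_lit 0) (nat_lit 3) (nat_lit 6) (C.cons (nat_lit 585) (C.node (nat_lit 0) (nat_lit 3) (nat_lit 7) (C.cons (nat_lit 1161) (C.pat (nat_lit 1) (nat_lit 3326584881) (nat_lit 5665138220205459665952422695543570769)) (C.cons (nat_lit 137) (C.node (nat_lit 0) (nat_lit 3) (nat_lit 10) C.nil) C.nil))) (C.cons (nat_lit 73) (C.node (nat_lit 0) (nat_lit 6) (nat_lit 9) C.nil) C.nil))) (C.cons (nat_lit 579) (C.node (nat_lit 0) (nat_lit 3) (nat_lit 6) (C.cons (nat_lit 1097) (C.node (nat_lit 0) (nat_lit 3) (nat_lit 7) (C.cons (nat_lit 649) (C.pat (nat_lit 1) (nat_lit 3326580785) (nat_lit 3006682228635627920144808574949327185)) (C.cons (nat_lit 137) (C.node (nat_lit 0) (nat_lit 3) (nat_lit 9) C.nil) C.nil))) (C.cons (nat_lit 73) (C.node (nat_lit 0) (nat_lit 6) (nat_lit 10) C.nil) C.nil))) (C.cons (nat_lit 67) (C.node (nat_lit 0) (nat_lit 6) (nat_lit 9) (C.cons (nat_lit 585) (C.node (nat_lit 0) (nat_lit 6) (nat_lit 10)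 C.nil) C.nil)) C.nil)))) C.nil)) C.nil))) C.nil))) (C.cons (nat_lit 265) (C.node (nat_lit 0) (nat_lit 7) (nat_lit 8) (C.cons (nat_lit 389) (C.pat (nat_lit 0) (nat_lit 126577730) (nat_lit 628839149684673300393152737513501)) (C.cons (nat_lit 385) (C.node (nat_lit 0) (nat_lit 1) (nat_lit 8) (C.cons (nat_lit 291) (C.node (nat_lit 0) (nat_lit 2) (nat_lit 8) (C.cons (nat_lit 261) (C.node (nat_lit 0) (nat_lit 5) (nat_lit 9)
  (C.cons (nat_lit 549) (C.node (nat_lit 0) (nat_lit 5) (nat_lit 10) (C.cons (nat_lit 1057) (C.node (nat_lit 0) (nat_lit 1) (nat_lit 2) (C.cons (nat_lit 1031) (C.node (nat_lit 0) (nat_lit 2) (nat_lit 7) C.nil) C.nil)) C.nil)) (C.cons (nat_lit 545) (C.node (nat_lit 0) (nat_lit 2) (nat_lit 5) (C.cons (nat_lit 1061) (C.node (nat_lit 0) (nat_lit 1) (nat_lit 2) (C.cons (nat_lit 519) (C.node (nat_lit 0) (nat_lit 2) (nat_lit 7) C.nil) C.nil)) C.nil)) C.nil))) C.nil)) (C.cons (nat_lit 263) (C.node (nat_lit 0) (nat_lit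 5) (nat_lit 8) (C.cons (nat_lit 289) (C.node (nat_lit 0) (nat_lit 1) (nat_lit 5) (C.cons (nat_lit 1059) (C.ref (nat_lit 94) (nat_lit 3582863703552528)) (C.cons (nat_lit 547) (C.ref (nat_lit 94) (nat_lit 3581832911401488)) (C.cons (nat_lit 35) (C.node (nat_lit 0) (nat_lit 5) (nat_lit 9) (C.cons (nat_lit 549) (C.node (nat_lit 0) (nat_lit 5) (nat_lit 10) C.nil) C.nil)) C.nil)))) C.nil)) (C.cons (nat_lit 259) (C.node (nat_lit 0) (nat_lit 2) (nat_lit 8) (C.cons (nat_lit 293) (C.node (nat_lit 0) (nat_lit 5) (nat_lit 9) (C.cons (nat_lit 547) (C.node (nat_lit 0) (nat_lit 5) (nat_lit 10) (C.cons (nat_lit 1057) (C.node (nat_lit 0) (nat_lit 1) (nat_lit 2) (C.cons (nat_lit 1031) (C.node (nat_lit 0) (nat_lit 1) (nat_lit 3) (C.cons (nat_lit 75) (C.node (nat_lit 0) (nat_lit 6) (nat_lit 9) C.nil) C.nil)) C.nil)) C.nil)) (C.cons (nat_lit 545) (C.node (nat_lit 0) (nat_lit 1) (nat_lit 5) (C.cons (nat_lit 1059) (C.node (nat_lit 0) (nat_lit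 1) (nat_lit 2) (C.cons (nat_lit 519) (C.node (nat_lit 0) (nat_lit 1) (nat_lit 3) (C.cons (nat_lit 75) (C.node (nat_lit 0) (nat_lit 6) (nat_lit 10) C.nil) C.nil)) C.nil)) C.nil)) C.nil))) (C.cons (nat_lit 261) (C.node (nat_lit 0) (nat_lit 5) (nat_lit 8) C.nil) C.nil))) C.nil)))) C.nil))) C.nil)))) (List.cons (C.node (nat_lit 0) (nat_lit 4) (nat_lit 5) (C.cons (nat_lit 1073) (C.ref (nat_lit 92) (nat_lit 3581832911401488)) (C.cons (nat_lit 49) (C.node (nat_lit 0) (nat_lit 4) (nat_lit 10) (C.cons (nat_lit 1041) (C.ref (nat_lit 95) (nat_lit 3582863703552528)) C.nil)) C.nil))) (List.cons (C.node (nat_lit 0) (nat_lit 1) (nat_lit 2) (C.cons (nat_lit 1031) (C.node (nat_lit 0) (nat_lit 2) (nat_lit 7) (C.cons (nat_lit 645) (C.node (nat_lit 0) (nat_lit 3) (nat_lit 9) (C.cons (nat_lit 585) (C.node (nat_lit 0) (nat_lit 6) (nat_lit 10) (C.cons (nat_lit 1089) (C.node (nat_lit 0) (nat_lit 1) (nat_lit 3) (C.cons (nat_lit 267) (C.pat (nat_lit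 2) (nat_lit 35000922517) (nat_lit 5954498036541985438125599969558497179149207621)) C.nil)) C.nil)) (C.cons (nat_lit 521) (C.node (nat_lit 0) (nat_lit 6) (nat_lit 9) C.nil) C.nil))) (C.cons (nat_lit 133) (C.node (nat_lit 0) (nat_lit 2) (nat_lit 9) C.nil) C.nil))) (C.cons (nat_lit 7) (C.node (nat_lit 0) (nat_lit 2) (nat_lit 9) (C.cons (nat_lit 645) (C.node (nat_lit 0) (nat_lit 2) (nat_lit 10) C.nil) C.nil)) C.nil))) (List.cons (C.node (nat_lit 0) (nat_lit 1) (nat_lit 8) (C.cons (nat_lit 267) (C.node (nat_lit 0) (nat_lit 1) (nat_lit 5) (C.cons (nat_lit 1059) (C.pat (nat_lit 1) (nat_lit 3309807905) (nat_lit 5498984720732345181839447895340024369)) (C.cons (nat_lit 35) (C.node (nat_lit 0) (nat_lit 1) (nat_lit 6) (C.cons (nat_lit 1091) (C.pat (nat_lit 5) (nat_lit 572463389538) (nat_lit 177001761562282774590152368586528707038354280673)) (C.cons (nat_lit 67) (C.node (nat_lit 0) (nat_lit 1) (nat_lit 10) C.nil) C.nil))) C.nil)))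 (C.cons (nat_lit 259) (C.node (nat_lit 0) (nat_lit 3) (nat_lit 8) (C.cons (nat_lit 265) (C.node (nat_lit 0) (nat_lit 1) (nat_lit 5) (C.cons (nat_lit 1059) (C.pat (nat_lit 1) (nat_lit 3309807905) (nat_lit 5498984720732345181839447895340024369)) (C.cons (nat_lit 43) (C.node (nat_lit 0) (nat_lit 5) (nat_lit 10) C.nil) C.nil))) C.nil)) C.nil))) (List.cons (C.node (nat_lit 0) (nat_lit 2) (nat_lit 9) (C.cons (nat_lit 645) (C.node (nat_lit 0) (nat_lit 7) (nat_lit 8) (C.cons (nat_lit 393) (C.node (nat_lit 0) (nat_lit 7) (nat_lit 10) (C.cons (nat_lit 1153) (C.node (nat_lit 0) (nat_lit 1) (nat_lit 8) (C.cons (nat_lit 291) (C.node (nat_lit 0) (nat_lit 2) (nat_lit 8)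
  (C.cons (nat_lit 261) (C.node (nat_lit 0) (nat_lit 1) (nat_lit 2) (C.cons (nat_lit 1031) (C.node (nat_lit 0) (nat_lit 2) (nat_lit 5) (C.cons (nat_lit 37) (C.node (nat_lit 0) (nat_lit 3) (nat_lit 5) (C.cons (nat_lit 1065) (C.node (nat_lit 0) (nat_lit 6) (nat_lit 10) (C.cons (nat_lit 1089) (C.node (nat_lit 0) (nat_lit 1) (nat_lit 3) (C.cons (nat_lit 523) (C.pat (nat_lit 1) (nat_lit 3309799729) (nat_lit 1511300733377597563128026731628790321)) (C.cons (nat_lit 75) (C.node (nat_lit 0) (nat_lit 1) (nat_lit 9) C.nil) C.nil))) C.nil)) (C.cons (nat_lit 41) (C.node (nat_lit 0) (nat_lit 5) (nat_lit 10) C.nil) C.nil))) C.nil)) (C.cons (nat_lit 7) (C.node (nat_lit 0) (nat_lit 2) (nat_lit 5) (C.cons (nat_lit 1061) (C.node (nat_lit 0) (nat_lit 3) (nat_lit 5) (C.cons (nat_lit 41) (C.node (nat_lit 0) (nat_lit 1) (nat_lit 9) (C.cons (nat_lit 579) (C.node (nat_lit 0) (nat_lit 3) (nat_lit 9) C.nil) (C.cons (nat_lit 523) (C.pat (nat_lit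 1) (nat_lit 3309799729) (nat_lit 1511300733377597563128026731628790321)) C.nil))) C.nil)) (C.cons (nat_lit 37) (C.node (nat_lit 0) (nat_lit 2) (nat_lit 10) C.nil) C.nil))) C.nil))) C.nil)) (C.cons (nat_lit 263) (C.node (nat_lit 0) (nat_lit 5) (nat_lit 8) (C.cons (nat_lit 289) (C.node (nat_lit 0) (nat_lit 2) (nat_lit 5) (C.cons (nat_lit 1061) (C.node (nat_lit 0) (nat_lit 1) (nat_lit 5) (C.cons (nat_lit 43) (C.node (nat_lit 0) (nat_lit 1) (nat_lit 9) (C.cons (nat_lit 579) (C.pat (nat_lit 1) (nat_lit 3326580769) (nat_lit 3006682228635627920144808557769195857)) (C.cons (nat_lit 515) (C.node (nat_lit 0) (nat_lit 1) (nat_lit 6) (C.cons (nat_lit 1091) (C.pat (nat_lit 5) (nat_lit 555837119554) (nat_lit 177002485002594846129121556975400914020608313491)) (C.cons (nat_lit 67) (C.node (nat_lit 0) (nat_lit 1) (nat_lit 10) C.nil) C.nil))) C.nil))) (C.cons (nat_lit 35) (C.node (nat_lit 0) (nat_lit 3) (nat_lit 5) (C.cons (nat_lit 41)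 (C.node (nat_lit 0) (nat_lit 1) (nat_lit 9) (C.cons (nat_lit 579) (C.pat (nat_lit 1) (nat_lit 3326580769) (nat_lit 3006682228635627920144808557769195857)) (C.cons (nat_lit 523) (C.node (nat_lit 0) (nat_lit 6) (nat_lit 9) C.nil) C.nil))) C.nil)) C.nil))) (C.cons (nat_lit 37) (C.node (nat_lit 0) (nat_lit 2) (nat_lit 10) (C.cons (nat_lit 1029) (C.node (nat_lit 0) (nat_lit 1) (nat_lit 5) (C.cons (nat_lit 1059) (C.node (nat_lit 0) (nat_lit 3) (nat_lit 5) C.nil) (C.cons (nat_lit 43) (C.node (nat_lit 0) (nat_lit 5) (nat_lit 10) C.nil) C.nil))) C.nil)) C.nil))) C.nil)) (C.cons (nat_lit 259) (C.node (nat_lit 0) (nat_lit 2) (nat_lit 8) (C.cons (nat_lit 293) (C.pat (nat_lit 1) (nat_lit 1268213842) (nat_lit 10992266356114712270182175936377593601)) (C.cons (nat_lit 261) (C.node (nat_lit 0) (nat_lit 5) (nat_lit 8) (C.cons (nat_lit 289) (C.node (nat_lit 0) (nat_lit 1) (nat_lit 2) (C.cons (nat_lit 1031) (C.node (nat_lit 0) (nat_lit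 2) (nat_lit 5) C.nil) (C.cons (nat_lit 39) (C.node (nat_lit 0) (nat_lit 2) (nat_lit 10) C.nil) C.nil))) C.nil)) C.nil))) C.nil)))) C.nil)) (C.cons (nat_lit 385) (C.node (nat_lit 0) (nat_lit 3) (nat_lit 7) (C.cons (nat_lit 1161) (C.node (nat_lit 0) (nat_lit 6) (nat_lit 10) (C.cons (nat_lit 1091) (C.node (nat_lit 0) (nat_lit 1) (nat_lit 9) (C.cons (nat_lit 523) (C.node (nat_lit 0) (nat_lit 3) (nat_lit 6) (C.cons (nat_lit 73) (C.node (nat_lit 0) (nat_lit 6) (nat_lit 9) (C.cons (nat_lit 577) (C.node (nat_lit 0) (nat_lit 2) (nat_lit 10) (C.cons (nat_lit 1061) (C.node (nat_lit 0) (nat_lit 1) (nat_lit 2) (C.cons (nat_lit 263) (C.pat (nat_lit 5) (nat_lit 555837119554) (nat_lit 177002485002594846129121556975400914020608313491)) (C.cons (nat_lit 7) (C.node (nat_lit 0) (nat_lit 2) (nat_lit 8) C.nil) C.nil))) (C.cons (nat_lit 1029) (C.node (nat_lit 0) (nat_lit 5) (nat_lit 10) C.nil) C.nil))) C.nil)) C.nil)) (C.cons (nat_lit 515)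 (C.node (nat_lit 0) (nat_lit 2) (nat_lit 10) (C.cons (nat_lit 1061) (C.node (nat_lit 0) (nat_lit 1) (nat_lit 2) (C.cons (nat_lit 263) (C.pat (nat_lit 5) (nat_lit 555837119554) (nat_lit 177002485002594846129121556975400914020608313491)) (C.cons (nat_lit 7)
  (C.node (nat_lit 0) (nat_lit 2) (nat_lit 8) (C.cons (nat_lit 261) (C.node (nat_lit 0) (nat_lit 3) (nat_lit 6) (C.cons (nat_lit 585) (C.node (nat_lit 0) (nat_lit 1) (nat_lit 3) (C.cons (nat_lit 267) (C.pat (nat_lit 1) (nat_lit 3326584881) (nat_lit 5665138220205459665952422695543570769)) (C.cons (nat_lit 43) (C.pat (nat_lit 2) (nat_lit 28230054227) (nat_lit 24330474054101433848307068678286681077157921413)) C.nil))) C.nil)) C.nil)) C.nil))) (C.cons (nat_lit 1029) (C.node (nat_lit 0) (nat_lit 5) (nat_lit 10) (C.cons (nat_lit 1057) (C.node (nat_lit 0) (nat_lit 3) (nat_lit 6) (C.cons (nat_lit 585) (C.node (nat_lit 0) (nat_lit 1) (nat_lit 2) (C.cons (nat_lit 263) (C.pat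 (nat_lit 5) (nat_lit 633411738406) (nat_lit 177001761563882025157929915704378255408317796381)) (C.cons (nat_lit 39) (C.node (nat_lit 0) (nat_lit 2) (nat_lit 8) C.nil) C.nil))) C.nil)) C.nil)) C.nil))) C.nil))) (C.cons (nat_lit 1089) (C.node (nat_lit 0) (nat_lit 1) (nat_lit 6) (C.cons (nat_lit 579) (C.node (nat_lit 0) (nat_lit 3) (nat_lit 6) (C.cons (nat_lit 73) (C.node (nat_lit 0) (nat_lit 3) (nat_lit 9) (C.cons (nat_lit 521) (C.node (nat_lit 0) (nat_lit 1) (nat_lit 3) (C.cons (nat_lit 267) (C.node (nat_lit 0) (nat_lit 3) (nat_lit 5) C.nil) (C.cons (nat_lit 43) (C.node (nat_lit 0) (nat_lit 3) (nat_lit 8) C.nil) C.nil))) C.nil)) C.nil)) (C.cons (nat_lit 75) (C.node (nat_lit 0) (nat_lit 1) (nat_lit 9) (C.cons (nat_lit 515) (C.node (nat_lit 0) (nat_lit 3) (nat_lit 9) (C.cons (nat_lit 521) (C.node (nat_lit 0) (nat_lit 6) (nat_lit 9) C.nil) C.nil)) C.nil)) (C.cons (nat_lit 67) (C.node (nat_lit 0) (nat_lit 1) (nat_lit 9) (C.cons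 (nat_lit 523) (C.node (nat_lit 0) (nat_lit 3) (nat_lit 6) (C.cons (nat_lit 73) (C.node (nat_lit 0) (nat_lit 6) (nat_lit 9) C.nil) C.nil)) (C.cons (nat_lit 515) (C.node (nat_lit 0) (nat_lit 3) (nat_lit 6) (C.cons (nat_lit 585) (C.node (nat_lit 0) (nat_lit 1) (nat_lit 3) (C.cons (nat_lit 267) (C.node (nat_lit 0) (nat_lit 3) (nat_lit 5) C.nil) (C.cons (nat_lit 43) (C.node (nat_lit 0) (nat_lit 3) (nat_lit 8) C.nil) C.nil))) C.nil)) C.nil))) C.nil)))) C.nil))) (C.cons (nat_lit 137) (C.node (nat_lit 0) (nat_lit 7) (nat_lit 10) (C.cons (nat_lit 1153) (C.node (nat_lit 0) (nat_lit 1) (nat_lit 9) (C.cons (nat_lit 579) (C.node (nat_lit 0) (nat_lit 3) (nat_lit 9) (C.cons (nat_lit 521) (C.node (nat_lit 0) (nat_lit 3) (nat_lit 6) (C.cons (nat_lit 1097) (C.node (nat_lit 0) (nat_lit 1) (nat_lit 3) (C.cons (nat_lit 267) (C.node (nat_lit 0) (nat_lit 3) (nat_lit 5) C.nil) (C.cons (nat_lit 43) (C.node (nat_lit 0) (nat_lit 3) (nat_lit 8)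 C.nil) C.nil))) C.nil)) C.nil)) (C.cons (nat_lit 523) (C.node (nat_lit 0) (nat_lit 6) (nat_lit 9) (C.cons (nat_lit 577) (C.node (nat_lit 0) (nat_lit 1) (nat_lit 6) (C.cons (nat_lit 1091) (C.node (nat_lit 0) (nat_lit 3) (nat_lit 6) C.nil) C.nil)) C.nil)) (C.cons (nat_lit 515) (C.node (nat_lit 0) (nat_lit 3) (nat_lit 9) (C.cons (nat_lit 585) (C.node (nat_lit 0) (nat_lit 1) (nat_lit 6) (C.cons (nat_lit 1091) (C.node (nat_lit 0) (nat_lit 2) (nat_lit 10) (C.cons (nat_lit 1061) (C.node (nat_lit 0) (nat_lit 3) (nat_lit 10) C.nil) C.nil)) C.nil)) C.nil)) C.nil)))) C.nil)) C.nil))) C.nil))) (C.cons (nat_lit 519) (C.node (nat_lit 0) (nat_lit 6) (nat_lit 9) (C.cons (nat_lit 585) (C.node (nat_lit 0) (nat_lit 7) (nat_lit 9) (C.cons (nat_lit 641) (C.node (nat_lit 0) (nat_lit 1) (nat_lit 6) (C.cons (nat_lit 1091) (C.node (nat_lit 0) (nat_lit 1) (nat_lit 3) (C.cons (nat_lit 267) (C.pat (nat_lit 1) (nat_lit 1756641569) (nat_lit 1386369963773169249894690457835609857))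 (C.cons (nat_lit 43) (C.node (nat_lit 0) (nat_lit 1) (nat_lit 8) (C.cons (nat_lit 259) (C.node (nat_lit 0) (nat_lit 3) (nat_lit 8) (C.cons (nat_lit 393) (C.pat (nat_lit 4) (nat_lit 185078204051) (nat_lit 3208009139891907882482437594545419241500028358951473)) (C.cons (nat_lit 265) (C.node (nat_lit 0) (nat_lit 3) (nat_lit 7) (C.cons (nat_lit 1161) (C.node (nat_lit 0) (nat_lit 2) (nat_lit 7) (C.cons (nat_lit 389)
  (C.pat (nat_lit 0) (nat_lit 126577730) (nat_lit 628839149684673300393152737513501)) (C.cons (nat_lit 133) (C.node (nat_lit 0) (nat_lit 7) (nat_lit 8) C.nil) C.nil))) (C.cons (nat_lit 137) (C.node (nat_lit 0) (nat_lit 3) (nat_lit 10) C.nil) C.nil))) C.nil))) C.nil)) (C.cons (nat_lit 11) (C.node (nat_lit 0) (nat_lit 1) (nat_lit 5) (C.cons (nat_lit 291) (C.node (nat_lit 0) (nat_lit 2) (nat_lit 5) (C.cons (nat_lit 1061) (C.node (nat_lit 0) (nat_lit 3) (nat_lit 5) (C.cons (nat_lit 41) (C.node (nat_lit 0) (nat_lit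 2) (nat_lit 7) (C.cons (nat_lit 389) (C.pat (nat_lit 0) (nat_lit 126577730) (nat_lit 628839149684673300393152737513501)) (C.cons (nat_lit 133) (C.node (nat_lit 0) (nat_lit 2) (nat_lit 8) C.nil) C.nil))) C.nil)) (C.cons (nat_lit 37) (C.node (nat_lit 0) (nat_lit 2) (nat_lit 8) (C.cons (nat_lit 389) (C.pat (nat_lit 0) (nat_lit 126577730) (nat_lit 628839149684673300393152737513501)) (C.cons (nat_lit 261) (C.node (nat_lit 0) (nat_lit 2) (nat_lit 7) (C.cons (nat_lit 1157) (C.node (nat_lit 0) (nat_lit 3) (nat_lit 5) (C.cons (nat_lit 1065) (C.pat (nat_lit 5) (nat_lit 143686589609) (nat_lit 91992044310053814421330206108596432524968264771)) C.nil)) C.nil)) C.nil))) C.nil))) (C.cons (nat_lit 35) (C.node (nat_lit 0) (nat_lit 1) (nat_lit 8) (C.cons (nat_lit 259) (C.node (nat_lit 0) (nat_lit 2) (nat_lit 5) (C.cons (nat_lit 1061) (C.node (nat_lit 0) (nat_lit 2) (nat_lit 7) (C.cons (nat_lit 389) (C.pat (nat_lit 0) (nat_lit 126577730)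 (nat_lit 628839149684673300393152737513501)) C.nil)) (C.cons (nat_lit 293) (C.node (nat_lit 0) (nat_lit 2) (nat_lit 7) (C.cons (nat_lit 1157) (C.pat (nat_lit 5) (nat_lit 572463389538) (nat_lit 177001761562282774590152368586528707038354280673)) C.nil)) C.nil))) C.nil)) C.nil))) C.nil)))) (C.cons (nat_lit 67) (C.node (nat_lit 0) (nat_lit 6) (nat_lit 10) (C.cons (nat_lit 1089) (C.node (nat_lit 0) (nat_lit 1) (nat_lit 8) (C.cons (nat_lit 291) (C.node (nat_lit 0) (nat_lit 1) (nat_lit 3) (C.cons (nat_lit 1035) (C.node (nat_lit 0) (nat_lit 3) (nat_lit 5) (C.cons (nat_lit 41) (C.node (nat_lit 0) (nat_lit 2) (nat_lit 5) (C.cons (nat_lit 1061) (C.node (nat_lit 0) (nat_lit 7) (nat_lit 10) C.nil) C.nil)) C.nil)) (C.cons (nat_lit 11) (C.node (nat_lit 0) (nat_lit 1) (nat_lit 10) C.nil) C.nil))) (C.cons (nat_lit 267) (C.pat (nat_lit 1) (nat_lit 1756641569) (nat_lit 1386369963773169249894690457835609857)) (C.cons (nat_lit 259) (C.node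 (nat_lit 0) (nat_lit 1) (nat_lit 3) (C.cons (nat_lit 1035) (C.node (nat_lit 0) (nat_lit 1) (nat_lit 5) C.nil) (C.cons (nat_lit 43) (C.node (nat_lit 0) (nat_lit 1) (nat_lit 10) C.nil) C.nil))) C.nil)))) C.nil)) C.nil))) C.nil)) (C.cons (nat_lit 577) (C.node (nat_lit 0) (nat_lit 3) (nat_lit 9) (C.cons (nat_lit 649) (C.node (nat_lit 0) (nat_lit 7) (nat_lit 8) (C.cons (nat_lit 389) (C.pat (nat_lit 0) (nat_lit 126577730) (nat_lit 628839149684673300393152737513501)) (C.cons (nat_lit 385) (C.node (nat_lit 0) (nat_lit 2) (nat_lit 7) (C.cons (nat_lit 1157) (C.node (nat_lit 0) (nat_lit 2) (nat_lit 5) (C.cons (nat_lit 293) (C.ref (nat_lit 98) (nat_lit 3582863703552528)) (C.cons (nat_lit 37) (C.node (nat_lit 0) (nat_lit 2) (nat_lit 8) (C.cons (nat_lit 261) (C.node (nat_lit 0) (nat_lit 1) (nat_lit 6) (C.cons (nat_lit 1091) (C.node (nat_lit 0) (nat_lit 3) (nat_lit 6) C.nil) (C.cons (nat_lit 75) (C.pat (nat_lit 1) (nat_lit 3342252321)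 (nat_lit 11397433949464986630267077875019874953)) C.nil))) C.nil)) C.nil))) (C.cons (nat_lit 133) (C.node (nat_lit 0) (nat_lit 7) (nat_lit 10) (C.cons (nat_lit 1153) (C.node (nat_lit 0) (nat_lit 2) (nat_lit 8) (C.cons (nat_lit 293) (C.node (nat_lit 0) (nat_lit 2) (nat_lit 10) C.nil) C.nil)) C.nil)) C.nil))) C.nil))) (C.cons (nat_lit 521) (C.node (nat_lit 0) (nat_lit 7) (nat_lit 9) (C.cons (nat_lit 641) (C.node (nat_lit 0) (nat_lit 1) (nat_lit 6) (C.cons (nat_lit 1091) (C.node (nat_lit 0) (nat_lit 3) (nat_lit 6) (C.cons (nat_lit 73) (C.node (nat_lit 0) (nat_lit 1) (nat_lit 3) (C.cons (nat_lit 267) (C.node (nat_lit 0) (nat_lit 1) (nat_lit 5) C.nil) (C.cons (nat_lit 43)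
  (C.node (nat_lit 0) (nat_lit 1) (nat_lit 8) C.nil) C.nil))) C.nil)) (C.cons (nat_lit 75) (C.node (nat_lit 0) (nat_lit 6) (nat_lit 10) (C.cons (nat_lit 1089) (C.node (nat_lit 0) (nat_lit 1) (nat_lit 8) (C.cons (nat_lit 291) (C.node (nat_lit 0) (nat_lit 1) (nat_lit 10) C.nil) C.nil)) C.nil)) (C.cons (nat_lit 67) (C.node (nat_lit 0) (nat_lit 3) (nat_lit 6) (C.cons (nat_lit 1097) (C.node (nat_lit 0) (nat_lit 1) (nat_lit 10) (C.cons (nat_lit 1059) (C.node (nat_lit 0) (nat_lit 1) (nat_lit 3) (C.cons (nat_lit 267) (C.node (nat_lit 0) (nat_lit 3) (nat_lit 5) C.nil) C.nil)) C.nil)) C.nil)) C.nil)))) C.nil)) C.nil))) C.nil))) (C.cons (nat_lit 517) (C.node (nat_lit 0) (nat_lit 7) (nat_lit 9) (C.cons (nat_lit 649) (C.node (nat_lit 0) (nat_lit 1) (nat_lit 9) (C.cons (nat_lit 579) (C.node (nat_lit 0) (nat_lit 3) (nat_lit 6) (C.cons (nat_lit 1097) (C.node (nat_lit 0) (nat_lit 7) (nat_lit 8) (C.cons (nat_lit 389) (C.pat (nat_lit 0)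 (nat_lit 126577730) (nat_lit 628839149684673300393152737513501)) (C.cons (nat_lit 385) (C.node (nat_lit 0) (nat_lit 2) (nat_lit 7) (C.cons (nat_lit 1157) (C.ref (nat_lit 98) (nat_lit 3580672395925008)) (C.cons (nat_lit 133) (C.node (nat_lit 0) (nat_lit 7) (nat_lit 10) (C.cons (nat_lit 1153) (C.node (nat_lit 0) (nat_lit 1) (nat_lit 3) (C.cons (nat_lit 267) (C.pat (nat_lit 1) (nat_lit 3326580785) (nat_lit 3006682228635627920144808574949327185)) (C.cons (nat_lit 43) (C.node (nat_lit 0) (nat_lit 3) (nat_lit 8) C.nil) C.nil))) C.nil)) C.nil))) C.nil))) (C.cons (nat_lit 73) (C.node (nat_lit 0) (nat_lit 6) (nat_lit 10) (C.cons (nat_lit 1089) (C.node (nat_lit 0) (nat_lit 7) (nat_lit 8) (C.cons (nat_lit 389) (C.pat (nat_lit 0) (nat_lit 126577730) (nat_lit 628839149684673300393152737513501)) (C.cons (nat_lit 385) (C.node (nat_lit 0) (nat_lit 2) (nat_lit 7) (C.cons (nat_lit 1157) (C.node (nat_lit 0) (nat_lit 1) (nat_lit 2) (C.cons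 (nat_lit 263) (C.node (nat_lit 0) (nat_lit 5) (nat_lit 2) C.nil) (C.cons (nat_lit 39) (C.pat (nat_lit 1) (nat_lit 3293755745) (nat_lit 11397418420701612505005952243249513009)) C.nil))) C.nil)) C.nil))) C.nil)) C.nil))) (C.cons (nat_lit 515) (C.node (nat_lit 0) (nat_lit 6) (nat_lit 9) (C.cons (nat_lit 577) (C.node (nat_lit 0) (nat_lit 7) (nat_lit 8) (C.cons (nat_lit 389) (C.pat (nat_lit 0) (nat_lit 126577730) (nat_lit 628839149684673300393152737513501)) (C.cons (nat_lit 385) (C.node (nat_lit 0) (nat_lit 2) (nat_lit 7) (C.cons (nat_lit 1157) (C.node (nat_lit 0) (nat_lit 1) (nat_lit 2) (C.cons (nat_lit 263) (C.node (nat_lit 0) (nat_lit 2) (nat_lit 5) C.nil) (C.cons (nat_lit 39) (C.node (nat_lit 0) (nat_lit 2) (nat_lit 8) C.nil) C.nil))) C.nil)) C.nil))) C.nil)) C.nil))) (C.cons (nat_lit 641) (C.node (nat_lit 0) (nat_lit 1) (nat_lit 9) (C.cons (nat_lit 579) (C.node (nat_lit 0) (nat_lit 3) (nat_lit 9) (C.cons (nat_lit 521)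 (C.node (nat_lit 0) (nat_lit 3) (nat_lit 6) (C.cons (nat_lit 1097) (C.node (nat_lit 0) (nat_lit 3) (nat_lit 7) (C.cons (nat_lit 393) (C.node (nat_lit 0) (nat_lit 1) (nat_lit 3) (C.cons (nat_lit 43) (C.node (nat_lit 0) (nat_lit 1) (nat_lit 8) (C.cons (nat_lit 263) (C.node (nat_lit 0) (nat_lit 1) (nat_lit 10) (C.cons (nat_lit 1027) (C.node (nat_lit 0) (nat_lit 5) (nat_lit 8) C.nil) C.nil)) (C.cons (nat_lit 259) (C.node (nat_lit 0) (nat_lit 1) (nat_lit 2) (C.cons (nat_lit 1031) (C.node (nat_lit 0) (nat_lit 2) (nat_lit 7) C.nil) C.nil)) C.nil))) (C.cons (nat_lit 11) (C.node (nat_lit 0) (nat_lit 3) (nat_lit 5) C.nil) C.nil))) (C.cons (nat_lit 137) (C.node (nat_lit 0) (nat_lit 7) (nat_lit 8) (C.cons (nat_lit 389) (C.pat (nat_lit 0) (nat_lit 126577730) (nat_lit 628839149684673300393152737513501)) C.nil)) C.nil))) (C.cons (nat_lit 73) (C.node (nat_lit 0) (nat_lit 6) (nat_lit 10) C.nil) C.nil))) C.nil)) (C.cons (nat_lit 523)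 (C.node (nat_lit 0) (nat_lit 6) (nat_lit 9) (C.cons (nat_lit 577) (C.node (nat_lit 0) (nat_lit 1) (nat_lit 6) (C.cons (nat_lit 1091) (C.node (nat_lit 0) (nat_lit 3) (nat_lit 6) (C.cons (nat_lit 73) (C.node (nat_lit 0) (nat_lit 1) (nat_lit 2) (C.cons (nat_lit 263)
  (C.node (nat_lit 0) (nat_lit 1) (nat_lit 5) C.nil) (C.cons (nat_lit 39) (C.node (nat_lit 0) (nat_lit 1) (nat_lit 8) C.nil) C.nil))) C.nil)) (C.cons (nat_lit 67) (C.node (nat_lit 0) (nat_lit 3) (nat_lit 6) (C.cons (nat_lit 1097) (C.node (nat_lit 0) (nat_lit 3) (nat_lit 5) (C.cons (nat_lit 297) (C.node (nat_lit 0) (nat_lit 3) (nat_lit 7) C.nil) C.nil)) C.nil)) C.nil))) C.nil)) (C.cons (nat_lit 515) (C.node (nat_lit 0) (nat_lit 3) (nat_lit 9) (C.cons (nat_lit 585) (C.node (nat_lit 0) (nat_lit 1) (nat_lit 6) (C.cons (nat_lit 1091) (C.node (nat_lit 0) (nat_lit 1) (nat_lit 2) (C.cons (nat_lit 263) (C.node (nat_lit 0) (nat_lit 1) (nat_lit 3) (C.cons (nat_lit 43)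 (C.node (nat_lit 0) (nat_lit 5) (nat_lit 8) (C.cons (nat_lit 289) (C.node (nat_lit 0) (nat_lit 2) (nat_lit 5) (C.cons (nat_lit 1061) (C.pat (nat_lit 5) (nat_lit 692164578390) (nat_lit 177002418311010218150679491233804954211623960619)) C.nil)) C.nil)) (C.cons (nat_lit 11) (C.node (nat_lit 0) (nat_lit 1) (nat_lit 5) C.nil) C.nil))) (C.cons (nat_lit 39) (C.node (nat_lit 0) (nat_lit 1) (nat_lit 3) (C.cons (nat_lit 267) (C.node (nat_lit 0) (nat_lit 5) (nat_lit 8) (C.cons (nat_lit 289) (C.node (nat_lit 0) (nat_lit 2) (nat_lit 8) (C.cons (nat_lit 389) (C.pat (nat_lit 0) (nat_lit 126577730) (nat_lit 628839149684673300393152737513501)) C.nil)) C.nil)) (C.cons (nat_lit 11) (C.node (nat_lit 0) (nat_lit 1) (nat_lit 8) C.nil) C.nil))) (C.cons (nat_lit 7) (C.node (nat_lit 0) (nat_lit 1) (nat_lit 3) (C.cons (nat_lit 267) (C.node (nat_lit 0) (nat_lit 1) (nat_lit 5) C.nil) (C.cons (nat_lit 43) (C.node (nat_lit 0) (nat_lit 1) (nat_lit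 8) C.nil) C.nil))) C.nil)))) (C.cons (nat_lit 67) (C.node (nat_lit 0) (nat_lit 6) (nat_lit 10) C.nil) C.nil))) (C.cons (nat_lit 521) (C.node (nat_lit 0) (nat_lit 6) (nat_lit 9) C.nil) C.nil))) C.nil)))) C.nil))) C.nil)))) List.nil)))))

theorem ok13_95 : okL par13 (nat_lit 100) c13_95 (nat_lit 95) = true := by decide +kernel

noncomputable def c13_100 : List C :=
  (List.cons (C.node (nat_lit 0) (nat_lit 7) (nat_lit 9) (C.cons (nat_lit 645) (C.node (nat_lit 0) (nat_lit 1) (nat_lit 9) (C.cons (nat_lit 547) (C.node (nat_lit 0) (nat_lit 1) (nat_lit 2) (C.cons (nat_lit 263) (C.node (nat_lit 0) (nat_lit 1) (nat_lit 3) (C.cons (nat_lit 11) (C.node (nat_lit 0) (nat_lit 2) (nat_lit 5) (C.cons (nat_lit 1061) (C.pat (nat_lit 1) (nat_lit 732330321) (nat_lit 11397259331822939309875260247366508289)) (C.cons (nat_lit 37) (C.node (nat_lit 0) (nat_lit 2) (nat_lit 10) C.nil) C.nil))) C.nil)) (C.cons (nat_lit 7) (C.node (nat_lit 0) (nat_lit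 1) (nat_lit 3) (C.cons (nat_lit 267) (C.node (nat_lit 0) (nat_lit 7) (nat_lit 8) (C.cons (nat_lit 385) (C.node (nat_lit 0) (nat_lit 2) (nat_lit 8) (C.cons (nat_lit 293) (C.node (nat_lit 0) (nat_lit 2) (nat_lit 10) C.nil) C.nil)) C.nil)) (C.cons (nat_lit 11) (C.node (nat_lit 0) (nat_lit 1) (nat_lit 8) C.nil) C.nil))) C.nil))) (C.cons (nat_lit 515) (C.node (nat_lit 0) (nat_lit 5) (nat_lit 9) (C.cons (nat_lit 545) (C.node (nat_lit 0) (nat_lit 2) (nat_lit 10) (C.cons (nat_lit 1061) (C.node (nat_lit 0) (nat_lit 1) (nat_lit 2) (C.cons (nat_lit 263) (C.node (nat_lit 0) (nat_lit 1) (nat_lit 3) (C.cons (nat_lit 43) (C.node (nat_lit 0) (nat_lit 5) (nat_lit 8) C.nil) C.nil)) C.nil)) C.nil)) C.nil)) C.nil))) (C.cons (nat_lit 641) (C.node (nat_lit 0) (nat_lit 1) (nat_lit 3) (C.cons (nat_lit 267) (C.node (nat_lit 0) (nat_lit 3) (nat_lit 5) (C.cons (nat_lit 1065) (C.node (nat_lit 0) (nat_lit 3) (nat_lit 7) (C.cons (nat_lit 137) (C.node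 (nat_lit 0) (nat_lit 2) (nat_lit 10) (C.cons (nat_lit 1157) (C.node (nat_lit 0) (nat_lit 7) (nat_lit 8) C.nil) C.nil)) C.nil)) (C.cons (nat_lit 41) (C.node (nat_lit 0) (nat_lit 3) (nat_lit 7) (C.cons (nat_lit 1161) (C.pat (nat_lit 1) (nat_lit 3326584881) (nat_lit 5665138220205459665952422695543570769)) C.nil)) C.nil))) (C.cons (nat_lit 43) (C.node (nat_lit 0) (nat_lit 1) (nat_lit 8) (C.cons (nat_lit 263) (C.node (nat_lit 0) (nat_lit 1) (nat_lit 9) (C.cons (nat_lit 515) (C.node (nat_lit 0) (nat_lit 5) (nat_lit 8) C.nil) C.nil)) (C.cons (nat_lit 259) (C.node (nat_lit 0) (nat_lit 1) (nat_lit 2) (C.cons (nat_lit 519) (C.node (nat_lit 0) (nat_lit 5) (nat_lit 9) C.nil) C.nil)) C.nil))) (C.cons (nat_lit 11) (C.node (nat_lit 0) (nat_lit 1) (nat_lit 8) (C.cons (nat_lit 291) (C.node (nat_lit 0) (nat_lit 1) (nat_lit 2) (C.cons (nat_lit 519) (C.node (nat_lit 0) (nat_lit 5) (nat_lit 9) C.nil) C.nil)) (C.cons (nat_lit 263) (C.node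 (nat_lit 0) (nat_lit 1) (nat_lit 5) (C.cons (nat_lit 547) (C.node (nat_lit 0) (nat_lit 2) (nat_lit 9) C.nil) C.nil)) C.nil))) C.nil)))) C.nil))) (List.cons (C.node (nat_lit 0) (nat_lit 6) (nat_lit 9) (C.cons (nat_lit 585) (C.node (nat_lit 0) (nat_lit 1) (nat_lit 6) (C.cons (nat_lit 1091) (C.ref (nat_lit 100) (nat_lit 3582863703552528)) (C.cons (nat_lit 67) (C.node (nat_lit 0) (nat_lit 6) (nat_lit 10) (C.cons (nat_lit 1089) (C.node (nat_lit 0) (nat_lit 7) (nat_lit 9) (C.cons (nat_lit 645) (C.node (nat_lit 0) (nat_lit 1) (nat_lit 9) (C.cons (nat_lit 547) (C.node (nat_lit 0) (nat_lit 7) (nat_lit 8) (C.cons (nat_lit 393) (C.pat (nat_lit 1) (nat_lit 2339988530) (nat_lit 10992721284223869175961366727722862739)) C.nil)) C.nil)) C.nil)) C.nil)) C.nil))) (C.cons (nat_lit 579) (C.node (nat_lit 0) (nat_lit 3) (nat_lit 6) (C.cons (nat_lit 1097) (C.ref (nat_lit 100) (nat_lit 3581832911401488)) (C.cons (nat_lit 73) (C.node (nat_lit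 0) (nat_lit 6) (nat_lit 10) (C.cons (nat_lit 1089) (C.node (nat_lit 0) (nat_lit 2) (nat_lit 9) (C.cons (nat_lit 645) (C.node (nat_lit 0) (nat_lit 3) (nat_lit 9) (C.cons (nat_lit 553) (C.node (nat_lit 0) (nat_lit 7) (nat_lit 8) (C.cons (nat_lit 393) (C.node (nat_lit 0) (nat_lit 7) (nat_lit 10) C.nil) C.nil)) C.nil)) (C.cons (nat_lit 549) (C.node (nat_lit 0) (nat_lit 3) (nat_lit 9) (C.cons (nat_lit 649) (C.node (nat_lit 0) (nat_lit 7) (nat_lit 8) (C.cons (nat_lit 389) (C.pat (nat_lit 0) (nat_lit 126577730) (nat_lit 628839149684673300393152737513501)) C.nil)) C.nil)) C.nil))) C.nil)) C.nil))) (C.cons (nat_lit 577)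
  (C.node (nat_lit 0) (nat_lit 1) (nat_lit 6) (C.cons (nat_lit 1091) (C.node (nat_lit 0) (nat_lit 3) (nat_lit 6) (C.cons (nat_lit 73) (C.node (nat_lit 0) (nat_lit 2) (nat_lit 10) (C.cons (nat_lit 1157) (C.node (nat_lit 0) (nat_lit 3) (nat_lit 10) (C.cons (nat_lit 1065) (C.node (nat_lit 0) (nat_lit 7) (nat_lit 8) (C.cons (nat_lit 393) (C.node (nat_lit 0) (nat_lit 7) (nat_lit 9) C.nil) C.nil)) C.nil)) (C.cons (nat_lit 1061) (C.node (nat_lit 0) (nat_lit 3) (nat_lit 10) (C.cons (nat_lit 1161) (C.node (nat_lit 0) (nat_lit 7) (nat_lit 8) (C.cons (nat_lit 389) (C.pat (nat_lit 0) (nat_lit 126577730) (nat_lit 628839149684673300393152737513501)) C.nil)) C.nil)) C.nil))) C.nil)) (C.cons (nat_lit 75) (C.node (nat_lit 0) (nat_lit 6) (nat_lit 10) (C.cons (nat_lit 1089) (C.node (nat_lit 0) (nat_lit 1) (nat_lit 8) (C.cons (nat_lit 291) (C.node (nat_lit 0) (nat_lit 1) (nat_lit 9) (C.cons (nat_lit 519) (C.node (nat_lit 0) (nat_lit 1)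 (nat_lit 10) C.nil) C.nil)) (C.cons (nat_lit 263) (C.node (nat_lit 0) (nat_lit 1) (nat_lit 9) (C.cons (nat_lit 547) (C.node (nat_lit 0) (nat_lit 1) (nat_lit 10) C.nil) C.nil)) C.nil))) C.nil)) (C.cons (nat_lit 67) (C.node (nat_lit 0) (nat_lit 3) (nat_lit 6) (C.cons (nat_lit 1097) (C.node (nat_lit 0) (nat_lit 7) (nat_lit 10) (C.cons (nat_lit 1157) (C.node (nat_lit 0) (nat_lit 1) (nat_lit 10) (C.cons (nat_lit 1059) (C.node (nat_lit 0) (nat_lit 7) (nat_lit 8) (C.cons (nat_lit 393) (C.pat (nat_lit 1) (nat_lit 2340054066) (nat_lit 10992721284842839195604056865205979283)) C.nil)) C.nil)) C.nil)) C.nil)) C.nil)))) C.nil)))) (List.cons (C.node (nat_lit 0) (nat_lit 6) (nat_lit 9) (C.cons (nat_lit 579) (C.node (nat_lit 0) (nat_lit 1) (nat_lit 8) (C.cons (nat_lit 267) (C.node (nat_lit 0) (nat_lit 6) (nat_lit 8) (C.cons (nat_lit 321) (C.node (nat_lit 0) (nat_lit 2) (nat_lit 9) (C.cons (nat_lit 549) (C.node (nat_lit 0) (nat_lit 1)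 (nat_lit 2) (C.cons (nat_lit 1031) (C.node (nat_lit 0) (nat_lit 1) (nat_lit 5) C.nil) C.nil)) C.nil)) C.nil)) (C.cons (nat_lit 259) (C.node (nat_lit 0) (nat_lit 2) (nat_lit 9) (C.cons (nat_lit 549) (C.node (nat_lit 0) (nat_lit 1) (nat_lit 2) (C.cons (nat_lit 1031) (C.node (nat_lit 0) (nat_lit 1) (nat_lit 3) (C.cons (nat_lit 43) (C.pat (nat_lit 4) (nat_lit 459905659541) (nat_lit 3208008337065081046910844169997424520748103597097609)) C.nil)) C.nil)) C.nil)) C.nil))) (C.cons (nat_lit 577) (C.node (nat_lit 0) (nat_lit 1) (nat_lit 8) (C.cons (nat_lit 323) (C.node (nat_lit 0) (nat_lit 3) (nat_lit 8) C.nil) (C.cons (nat_lit 267) (C.node (nat_lit 0) (nat_lit 6) (nat_lit 8) C.nil) C.nil))) C.nil))) (List.cons (C.node (nat_lit 0) (nat_lit 4) (nat_lit 6) (C.cons (nat_lit 1105) (C.ref (nat_lit 99) (nat_lit 3581704062382608)) (C.cons (nat_lit 81) (C.node (nat_lit 0) (nat_lit 4) (nat_lit 10) (C.cons (nat_lit 1041) (C.node (nat_lit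 0) (nat_lit 2) (nat_lit 8) (C.cons (nat_lit 389) (C.node (nat_lit 0) (nat_lit 7) (nat_lit 9) (C.cons (nat_lit 649) (C.node (nat_lit 0) (nat_lit 7) (nat_lit 10) (C.cons (nat_lit 1153) (C.ref (nat_lit 102) (nat_lit 3582863703552528)) C.nil)) (C.cons (nat_lit 641) (C.node (nat_lit 0) (nat_lit 3) (nat_lit 7) (C.cons (nat_lit 1161) (C.ref (nat_lit 102) (nat_lit 3581832911401488)) (C.cons (nat_lit 137) (C.node (nat_lit 0) (nat_lit 7) (nat_lit 10) C.nil) C.nil))) C.nil))) (C.cons (nat_lit 263) (C.node (nat_lit 0) (nat_lit 6) (nat_lit 8) (C.cons (nat_lit 329) (C.node (nat_lit 0) (nat_lit 7) (nat_lit 8) (C.cons (nat_lit 385) (C.node (nat_lit 0) (nat_lit 6) (nat_lit 9) (C.cons (nat_lit 579) (C.node (nat_lit 0) (nat_lit 6) (nat_lit 10) (C.cons (nat_lit 1089) (C.node (nat_lit 0) (nat_lit 1) (nat_lit 3) (C.cons (nat_lit 1035) (C.node (nat_lit 0) (nat_lit 1) (nat_lit 5) C.nil) (C.cons (nat_lit 43) (C.node (nat_lit 0) (nat_lit 1) (nat_lit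 10) C.nil) C.nil))) C.nil)) (C.cons (nat_lit 577) (C.node (nat_lit 0) (nat_lit 1) (nat_lit 6) (C.cons (nat_lit 1091) (C.node (nat_lit 0) (nat_lit 1) (nat_lit 3) (C.cons (nat_lit 523) (C.node (nat_lit 0) (nat_lit 1) (nat_lit 5) C.nil) (C.cons (nat_lit 43)
  (C.node (nat_lit 0) (nat_lit 1) (nat_lit 9) C.nil) C.nil))) C.nil)) C.nil))) C.nil)) (C.cons (nat_lit 321) (C.node (nat_lit 0) (nat_lit 3) (nat_lit 8) (C.cons (nat_lit 393) (C.node (nat_lit 0) (nat_lit 7) (nat_lit 9) (C.cons (nat_lit 645) (C.node (nat_lit 0) (nat_lit 7) (nat_lit 10) (C.cons (nat_lit 1153) (C.node (nat_lit 0) (nat_lit 2) (nat_lit 5) (C.cons (nat_lit 1061) (C.node (nat_lit 0) (nat_lit 1) (nat_lit 5) (C.cons (nat_lit 547) (C.pat (nat_lit 1) (nat_lit 3262417233) (nat_lit 1365900892618769593774173698305098373)) (C.cons (nat_lit 43) (C.node (nat_lit 0) (nat_lit 5) (nat_lit 9) C.nil) C.nil))) C.nil)) C.nil)) (C.cons (nat_lit 641) (C.node (nat_lit 0) (nat_lit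 2) (nat_lit 7) (C.cons (nat_lit 1157) (C.node (nat_lit 0) (nat_lit 2) (nat_lit 5) (C.cons (nat_lit 549) (C.node (nat_lit 0) (nat_lit 1) (nat_lit 5) (C.cons (nat_lit 1059) (C.pat (nat_lit 1) (nat_lit 3262417489) (nat_lit 1365900892618769593774175897328354437)) (C.cons (nat_lit 43) (C.node (nat_lit 0) (nat_lit 5) (nat_lit 10) C.nil) C.nil))) C.nil)) C.nil)) C.nil))) (C.cons (nat_lit 265) (C.node (nat_lit 0) (nat_lit 7) (nat_lit 8) C.nil) C.nil))) C.nil))) (C.cons (nat_lit 261) (C.node (nat_lit 0) (nat_lit 7) (nat_lit 8) (C.cons (nat_lit 393) (C.node (nat_lit 0) (nat_lit 1) (nat_lit 8) (C.cons (nat_lit 323) (C.node (nat_lit 0) (nat_lit 6) (nat_lit 9) (C.cons (nat_lit 585) (C.node (nat_lit 0) (nat_lit 6) (nat_lit 10) (C.cons (nat_lit 1089) (C.node (nat_lit 0) (nat_lit 7) (nat_lit 9) (C.cons (nat_lit 645) (C.node (nat_lit 0) (nat_lit 7) (nat_lit 10) C.nil) C.nil)) C.nil)) (C.cons (nat_lit 577) (C.node (nat_lit 0) (nat_lit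 3) (nat_lit 6) (C.cons (nat_lit 1097) (C.node (nat_lit 0) (nat_lit 7) (nat_lit 10) (C.cons (nat_lit 1157) (C.node (nat_lit 0) (nat_lit 7) (nat_lit 9) C.nil) C.nil)) C.nil)) C.nil))) (C.cons (nat_lit 259) (C.node (nat_lit 0) (nat_lit 6) (nat_lit 8) C.nil) C.nil))) (C.cons (nat_lit 385) (C.node (nat_lit 0) (nat_lit 1) (nat_lit 8) (C.cons (nat_lit 323) (C.node (nat_lit 0) (nat_lit 3) (nat_lit 8) C.nil) (C.cons (nat_lit 267) (C.node (nat_lit 0) (nat_lit 6) (nat_lit 8) C.nil) C.nil))) C.nil))) C.nil)))) C.nil)) C.nil))) (List.cons (C.node (nat_lit 0) (nat_lit 4) (nat_lit 8) (C.cons (nat_lit 337) (C.node (nat_lit 0) (nat_lit 4) (nat_lit 9) (C.cons (nat_lit 561) (C.node (nat_lit 0) (nat_lit 4) (nat_lit 10) (C.cons (nat_lit 1041) (C.ref (nat_lit 99) (nat_lit 3582863703552528)) C.nil)) (C.cons (nat_lit 529) (C.node (nat_lit 0) (nat_lit 4) (nat_lit 5) (C.cons (nat_lit 1073) (C.ref (nat_lit 99) (nat_lit 3581832911401488)) (C.cons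 (nat_lit 49) (C.node (nat_lit 0) (nat_lit 4) (nat_lit 10) (C.cons (nat_lit 1041) (C.ref (nat_lit 101) (nat_lit 3582863703552528)) C.nil)) C.nil))) C.nil))) (C.cons (nat_lit 305) (C.node (nat_lit 0) (nat_lit 4) (nat_lit 9) (C.cons (nat_lit 593) (C.node (nat_lit 0) (nat_lit 4) (nat_lit 10) (C.cons (nat_lit 1041) (C.ref (nat_lit 99) (nat_lit 3582799279043088)) C.nil)) (C.cons (nat_lit 529) (C.ref (nat_lit 103) (nat_lit 3582863703552528)) C.nil))) (C.cons (nat_lit 273) (C.node (nat_lit 0) (nat_lit 4) (nat_lit 5) (C.cons (nat_lit 1073) (C.ref (nat_lit 103) (nat_lit 3581704062382608)) (C.cons (nat_lit 561) (C.ref (nat_lit 103) (nat_lit 3582799279043088)) (C.cons (nat_lit 49) (C.node (nat_lit 0) (nat_lit 4) (nat_lit 9) (C.cons (nat_lit 593) (C.node (nat_lit 0) (nat_lit 4) (nat_lit 10) (C.cons (nat_lit 1041) (C.ref (nat_lit 101) (nat_lit 3582799279043088)) C.nil)) (C.cons (nat_lit 529) (C.node (nat_lit 0) (nat_lit 4) (nat_lit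 6) (C.cons (nat_lit 1105) (C.ref (nat_lit 101) (nat_lit 3581704062382608)) (C.cons (nat_lit 81) (C.node (nat_lit 0) (nat_lit 4) (nat_lit 10) (C.cons (nat_lit 1041) (C.node (nat_lit 0) (nat_lit 6) (nat_lit 8) (C.cons (nat_lit 329) (C.node (nat_lit 0) (nat_lit 6) (nat_lit 9) (C.cons (nat_lit 579) (C.node (nat_lit 0) (nat_lit 6) (nat_lit 10) C.nil) C.nil)) (C.cons (nat_lit 323) (C.node (nat_lit 0) (nat_lit 6) (nat_lit 9) (C.cons (nat_lit 585)
  (C.node (nat_lit 0) (nat_lit 6) (nat_lit 10) C.nil) C.nil)) C.nil))) C.nil)) C.nil))) C.nil))) C.nil)))) C.nil)))) (List.cons (C.node (nat_lit 0) (nat_lit 3) (nat_lit 11) (C.cons (nat_lit 2089) (C.node (nat_lit 0) (nat_lit 4) (nat_lit 8) (C.cons (nat_lit 337) (C.node (nat_lit 0) (nat_lit 4) (nat_lit 9) (C.cons (nat_lit 561) (C.node (nat_lit 0) (nat_lit 4) (nat_lit 10) (C.cons (nat_lit 1041) (C.ref (nat_lit 92) (nat_lit 3582863703552528)) C.nil)) (C.cons (nat_lit 529) (C.ref (nat_lit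 96) (nat_lit 3582863703552528)) C.nil))) (C.cons (nat_lit 305) (C.node (nat_lit 0) (nat_lit 4) (nat_lit 9) (C.cons (nat_lit 593) (C.node (nat_lit 0) (nat_lit 4) (nat_lit 10) (C.cons (nat_lit 1041) (C.ref (nat_lit 92) (nat_lit 3582863687820048)) C.nil)) (C.cons (nat_lit 529) (C.ref (nat_lit 96) (nat_lit 3582863687820048)) C.nil))) (C.cons (nat_lit 273) (C.node (nat_lit 0) (nat_lit 4) (nat_lit 5) (C.cons (nat_lit 1073) (C.ref (nat_lit 96) (nat_lit 3581704046650128)) (C.cons (nat_lit 561) (C.ref (nat_lit 96) (nat_lit 3582799263310608)) (C.cons (nat_lit 49) (C.node (nat_lit 0) (nat_lit 4) (nat_lit 9) (C.cons (nat_lit 593) (C.node (nat_lit 0) (nat_lit 4) (nat_lit 10) (C.cons (nat_lit 1041) (C.ref (nat_lit 95) (nat_lit 3582799279043088)) C.nil)) (C.cons (nat_lit 529) (C.node (nat_lit 0) (nat_lit 4) (nat_lit 6) (C.cons (nat_lit 1105) (C.ref (nat_lit 95) (nat_lit 3581704062382608)) (C.cons (nat_lit 81) (C.node (nat_lit 0) (nat_lit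 4) (nat_lit 10) (C.cons (nat_lit 1041) (C.node (nat_lit 0) (nat_lit 5) (nat_lit 8) (C.cons (nat_lit 293) (C.node (nat_lit 0) (nat_lit 5) (nat_lit 9) (C.cons (nat_lit 547) (C.node (nat_lit 0) (nat_lit 5) (nat_lit 10) (C.cons (nat_lit 1057) (C.ref (nat_lit 97) (nat_lit 3582863703552528)) C.nil)) (C.cons (nat_lit 545) (C.node (nat_lit 0) (nat_lit 1) (nat_lit 5) (C.cons (nat_lit 1059) (C.ref (nat_lit 97) (nat_lit 3581832911401488)) (C.cons (nat_lit 35) (C.node (nat_lit 0) (nat_lit 5) (nat_lit 10) C.nil) C.nil))) C.nil))) (C.cons (nat_lit 291) (C.node (nat_lit 0) (nat_lit 2) (nat_lit 8) (C.cons (nat_lit 389) (C.node (nat_lit 0) (nat_lit 3) (nat_lit 8) (C.cons (nat_lit 329) (C.node (nat_lit 0) (nat_lit 5) (nat_lit 9) (C.cons (nat_lit 549) (C.node (nat_lit 0) (nat_lit 5) (nat_lit 10) (C.cons (nat_lit 1057) (C.node (nat_lit 0) (nat_lit 1) (nat_lit 2) (C.cons (nat_lit 1031) (C.node (nat_lit 0) (nat_lit 6) (nat_lit 10) (C.cons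 (nat_lit 1089) (C.node (nat_lit 0) (nat_lit 1) (nat_lit 3) (C.cons (nat_lit 523) (C.pat (nat_lit 2) (nat_lit 39295889797) (nat_lit 11663401693750665206327186072919651001366153285)) C.nil)) C.nil)) (C.cons (nat_lit 7) (C.node (nat_lit 0) (nat_lit 2) (nat_lit 10) C.nil) C.nil))) C.nil)) (C.cons (nat_lit 545) (C.node (nat_lit 0) (nat_lit 2) (nat_lit 5) (C.cons (nat_lit 1061) (C.node (nat_lit 0) (nat_lit 1) (nat_lit 2) (C.cons (nat_lit 519) (C.node (nat_lit 0) (nat_lit 6) (nat_lit 9) (C.cons (nat_lit 577) (C.node (nat_lit 0) (nat_lit 1) (nat_lit 3) (C.cons (nat_lit 1035) (C.pat (nat_lit 2) (nat_lit 43590857093) (nat_lit 23081383235398344254793483273248577831718553669)) C.nil)) C.nil)) (C.cons (nat_lit 7) (C.node (nat_lit 0) (nat_lit 2) (nat_lit 9) C.nil) C.nil))) (C.cons (nat_lit 37) (C.node (nat_lit 0) (nat_lit 5) (nat_lit 10) C.nil) C.nil))) C.nil))) (C.cons (nat_lit 265) (C.node (nat_lit 0) (nat_lit 6) (nat_lit 8) (C.cons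 (nat_lit 321) (C.node (nat_lit 0) (nat_lit 5) (nat_lit 9) (C.cons (nat_lit 549) (C.node (nat_lit 0) (nat_lit 5) (nat_lit 10) C.nil) C.nil)) C.nil)) C.nil))) (C.cons (nat_lit 261) (C.node (nat_lit 0) (nat_lit 5) (nat_lit 9) (C.cons (nat_lit 549) (C.node (nat_lit 0) (nat_lit 5) (nat_lit 10) (C.cons (nat_lit 1057) (C.node (nat_lit 0) (nat_lit 1) (nat_lit 2) (C.cons (nat_lit 1031) (C.node (nat_lit 0) (nat_lit 2) (nat_lit 7) C.nil) C.nil)) C.nil)) (C.cons (nat_lit 545) (C.node (nat_lit 0) (nat_lit 2) (nat_lit 5) (C.cons (nat_lit 1061) (C.node (nat_lit 0) (nat_lit 1) (nat_lit 2) (C.cons (nat_lit 519) (C.node (nat_lit 0) (nat_lit 2) (nat_lit 7) C.nil) C.nil)) C.nil)) C.nil))) C.nil)))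
  (C.cons (nat_lit 289) (C.node (nat_lit 0) (nat_lit 2) (nat_lit 8) (C.cons (nat_lit 389) (C.node (nat_lit 0) (nat_lit 7) (nat_lit 9) (C.cons (nat_lit 649) (C.node (nat_lit 0) (nat_lit 7) (nat_lit 10) (C.cons (nat_lit 1153) (C.node (nat_lit 0) (nat_lit 6) (nat_lit 9) (C.cons (nat_lit 579) (C.node (nat_lit 0) (nat_lit 1) (nat_lit 8) (C.cons (nat_lit 267) (C.node (nat_lit 0) (nat_lit 6) (nat_lit 8) C.nil) C.nil)) C.nil)) C.nil)) (C.cons (nat_lit 641) (C.node (nat_lit 0) (nat_lit 3) (nat_lit 7) (C.cons (nat_lit 1161) (C.node (nat_lit 0) (nat_lit 6) (nat_lit 10) (C.cons (nat_lit 1091) (C.node (nat_lit 0) (nat_lit 1) (nat_lit 8) (C.cons (nat_lit 267) (C.node (nat_lit 0) (nat_lit 6) (nat_lit 8) C.nil) C.nil)) C.nil)) C.nil)) C.nil))) (C.cons (nat_lit 263) (C.node (nat_lit 0) (nat_lit 6) (nat_lit 8) (C.cons (nat_lit 329) (C.node (nat_lit 0) (nat_lit 7) (nat_lit 8) (C.cons (nat_lit 385) (C.node (nat_lit 0) (nat_lit 6) (nat_lit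 9) (C.cons (nat_lit 579) (C.node (nat_lit 0) (nat_lit 6) (nat_lit 10) C.nil) C.nil)) C.nil)) (C.cons (nat_lit 321) (C.node (nat_lit 0) (nat_lit 3) (nat_lit 8) (C.cons (nat_lit 393) (C.node (nat_lit 0) (nat_lit 7) (nat_lit 9) (C.cons (nat_lit 645) (C.node (nat_lit 0) (nat_lit 7) (nat_lit 10) C.nil) C.nil)) C.nil)) C.nil))) (C.cons (nat_lit 261) (C.node (nat_lit 0) (nat_lit 7) (nat_lit 8) (C.cons (nat_lit 393) (C.node (nat_lit 0) (nat_lit 1) (nat_lit 8) (C.cons (nat_lit 323) (C.node (nat_lit 0) (nat_lit 6) (nat_lit 9) (C.cons (nat_lit 585) (C.node (nat_lit 0) (nat_lit 6) (nat_lit 10) C.nil) C.nil)) C.nil)) C.nil)) C.nil)))) C.nil)))) C.nil)) C.nil))) C.nil))) C.nil)))) C.nil)))) (C.cons (nat_lit 2057) (C.node (nat_lit 0) (nat_lit 5) (nat_lit 11) (C.cons (nat_lit 2081) (C.ref (nat_lit 104) (nat_lit 3582863703552528)) C.nil)) C.nil))) (List.cons (C.node (nat_lit 0) (nat_lit 1) (nat_lit 8) (C.cons (nat_lit 291) (C.node (nat_lit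 0) (nat_lit 2) (nat_lit 5) (C.cons (nat_lit 37) (C.node (nat_lit 0) (nat_lit 2) (nat_lit 8) C.nil) C.nil)) (C.cons (nat_lit 263) (C.node (nat_lit 0) (nat_lit 5) (nat_lit 2) (C.cons (nat_lit 37) (C.node (nat_lit 0) (nat_lit 5) (nat_lit 8) C.nil) C.nil)) (C.cons (nat_lit 259) (C.node (nat_lit 0) (nat_lit 2) (nat_lit 8) (C.cons (nat_lit 293) (C.node (nat_lit 0) (nat_lit 1) (nat_lit 2) (C.cons (nat_lit 519) (C.node (nat_lit 0) (nat_lit 2) (nat_lit 6) C.nil) (C.cons (nat_lit 71) (C.node (nat_lit 0) (nat_lit 2) (nat_lit 9) C.nil) C.nil))) C.nil)) C.nil)))) (List.cons (C.node (nat_lit 0) (nat_lit 7) (nat_lit 9) (C.cons (nat_lit 645) (C.node (nat_lit 0) (nat_lit 7) (nat_lit 10) (C.cons (nat_lit 1153) (C.node (nat_lit 0) (nat_lit 1) (nat_lit 8) (C.cons (nat_lit 291) (C.node (nat_lit 0) (nat_lit 2) (nat_lit 8) (C.cons (nat_lit 261) (C.node (nat_lit 0) (nat_lit 2) (nat_lit 5) (C.cons (nat_lit 1061) (C.node (nat_lit 0) (nat_lit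 3) (nat_lit 5) C.nil) C.nil)) C.nil)) (C.cons (nat_lit 263) (C.node (nat_lit 0) (nat_lit 5) (nat_lit 8) (C.cons (nat_lit 289) (C.node (nat_lit 0) (nat_lit 5) (nat_lit 2) (C.cons (nat_lit 1061) (C.node (nat_lit 0) (nat_lit 6) (nat_lit 2) C.nil) C.nil)) C.nil)) (C.cons (nat_lit 259) (C.node (nat_lit 0) (nat_lit 2) (nat_lit 8) (C.cons (nat_lit 293) (C.node (nat_lit 0) (nat_lit 1) (nat_lit 2) (C.cons (nat_lit 1031) (C.node (nat_lit 0) (nat_lit 2) (nat_lit 6) C.nil) (C.cons (nat_lit 71) (C.node (nat_lit 0) (nat_lit 2) (nat_lit 10) C.nil) C.nil))) C.nil)) C.nil)))) C.nil)) (C.cons (nat_lit 641) (C.node (nat_lit 0) (nat_lit 2) (nat_lit 7) (C.cons (nat_lit 1157) (C.ref (nat_lit 106) (nat_lit 3582863703552528)) (C.cons (nat_lit 133) (C.node (nat_lit 0) (nat_lit 7) (nat_lit 10) C.nil) C.nil))) C.nil))) (List.cons (C.node (nat_lit 0) (nat_lit 7) (nat_lit 8) (C.cons (nat_lit 393) (C.ref (nat_lit 107) (nat_lit 3582863703552528))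 (C.cons (nat_lit 389) (C.ref (nat_lit 107) (nat_lit 3582863703548688)) (C.cons (nat_lit 385) (C.node (nat_lit 0) (nat_lit 2) (nat_lit 7) (C.cons (nat_lit 1157) (C.node (nat_lit 0) (nat_lit 3) (nat_lit 7) (C.cons (nat_lit 649)
  (C.ref (nat_lit 106) (nat_lit 3582799263314448)) (C.cons (nat_lit 137) (C.node (nat_lit 0) (nat_lit 7) (nat_lit 9) C.nil) C.nil))) (C.cons (nat_lit 645) (C.node (nat_lit 0) (nat_lit 3) (nat_lit 7) (C.cons (nat_lit 1161) (C.ref (nat_lit 106) (nat_lit 3582799263310608)) (C.cons (nat_lit 137) (C.node (nat_lit 0) (nat_lit 7) (nat_lit 10) C.nil) C.nil))) (C.cons (nat_lit 133) (C.node (nat_lit 0) (nat_lit 7) (nat_lit 9) (C.cons (nat_lit 649) (C.node (nat_lit 0) (nat_lit 7) (nat_lit 10) C.nil) C.nil)) C.nil)))) C.nil)))) (List.cons (C.node (nat_lit 0) (nat_lit 7) (nat_lit 8) (C.cons (nat_lit 393) (C.node (nat_lit 0) (nat_lit 7) (nat_lit 9) (C.cons (nat_lit 645) (C.node (nat_lit 0) (nat_lit 7) (nat_lit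 10) C.nil) C.nil)) (C.cons (nat_lit 389) (C.node (nat_lit 0) (nat_lit 7) (nat_lit 9) (C.cons (nat_lit 649) (C.node (nat_lit 0) (nat_lit 7) (nat_lit 10) C.nil) C.nil)) C.nil))) (List.cons (C.node (nat_lit 0) (nat_lit 4) (nat_lit 5) (C.cons (nat_lit 1073) (C.ref (nat_lit 108) (nat_lit 3581832911401488)) (C.cons (nat_lit 49) (C.node (nat_lit 0) (nat_lit 4) (nat_lit 10) (C.cons (nat_lit 1041) (C.ref (nat_lit 109) (nat_lit 3582863703552528)) C.nil)) C.nil))) List.nil)))))))))))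

theorem ok13_100 : okL par13 (nat_lit 111) c13_100 (nat_lit 100) = true := by decide +kernel

noncomputable def c13_111 : List C :=
  (List.cons (C.big (C.cons (nat_lit 1099) (C.ref (nat_lit 89) (nat_lit 3582863703552528)) (C.cons (nat_lit 1095) (C.ref (nat_lit 89) (nat_lit 3582863703548688)) (C.cons (nat_lit 1067) (C.ref (nat_lit 89) (nat_lit 3582863687823888)) (C.cons (nat_lit 1063) (C.ref (nat_lit 89) (nat_lit 3582863687820048)) (C.cons (nat_lit 587) (C.ref (nat_lit 89) (nat_lit 3581832911401488)) (C.cons (nat_lit 583) (C.ref (nat_lit 89) (nat_lit 3581832911397648)) (C.cons (nat_lit 555) (C.ref (nat_lit 89) (nat_lit 3581832895672848)) (C.cons (nat_lit 551) (C.ref (nat_lit 89) (nat_lit 3581832895669008)) (C.cons (nat_lit 331) (C.ref (nat_lit 89) (nat_lit 3580737694741008)) (C.cons (nat_lit 327) (C.ref (nat_lit 89) (nat_lit 3580737694737168)) (C.cons (nat_lit 299) (C.ref (nat_lit 89) (nat_lit 3580737679012368)) (C.cons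 (nat_lit 295) (C.ref (nat_lit 89) (nat_lit 3580737679008528)) C.nil)))))))))))) (C.node (nat_lit 0) (nat_lit 1) (nat_lit 12) (C.cons (nat_lit 4099) (C.node (nat_lit 0) (nat_lit 2) (nat_lit 11) (C.cons (nat_lit 2117) (C.ref (nat_lit 105) (nat_lit 3582863703552528)) (C.cons (nat_lit 2085) (C.ref (nat_lit 105) (nat_lit 3582863687823888)) (C.cons (nat_lit 2053) (C.node (nat_lit 0) (nat_lit 5) (nat_lit 11) (C.cons (nat_lit 2089) (C.node (nat_lit 0) (nat_lit 6) (nat_lit 11) (C.cons (nat_lit 2113) (C.ref (nat_lit 104) (nat_lit 3582863687820048)) C.nil)) (C.cons (nat_lit 2081) (C.node (nat_lit 0) (nat_lit 3) (nat_lit 11) (C.cons (nat_lit 2121) (C.ref (nat_lit 104) (nat_lit 3582863703548688)) (C.cons (nat_lit 2057) (C.node (nat_lit 0) (nat_lit 6) (nat_lit 11) (C.cons (nat_lit 2113) (C.node (nat_lit 0) (nat_lit 4) (nat_lit 8) (C.cons (nat_lit 337) (C.node (nat_lit 0) (nat_lit 4) (nat_lit 9) (C.cons (nat_lit 561) (C.node (nat_lit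 0) (nat_lit 4) (nat_lit 10) (C.cons (nat_lit 1041) (C.ref (nat_lit 108) (nat_lit 3582863703552528)) C.nil)) (C.cons (nat_lit 529) (C.ref (nat_lit 110) (nat_lit 3582863703552528)) C.nil))) (C.cons (nat_lit 305) (C.node (nat_lit 0) (nat_lit 4) (nat_lit 9) (C.cons (nat_lit 593) (C.node (nat_lit 0) (nat_lit 4) (nat_lit 10) (C.cons (nat_lit 1041) (C.ref (nat_lit 108) (nat_lit 3582863687823888)) C.nil)) (C.cons (nat_lit 529) (C.ref (nat_lit 110) (nat_lit 3582863687823888)) C.nil))) (C.cons (nat_lit 273) (C.node (nat_lit 0) (nat_lit 4) (nat_lit 5) (C.cons (nat_lit 1073) (C.ref (nat_lit 110) (nat_lit 3581704046653968)) (C.cons (nat_lit 561) (C.ref (nat_lit 110) (nat_lit 3582799263314448)) (C.cons (nat_lit 49) (C.node (nat_lit 0) (nat_lit 4) (nat_lit 9) (C.cons (nat_lit 593) (C.node (nat_lit 0) (nat_lit 4) (nat_lit 10) (C.cons (nat_lit 1041) (C.ref (nat_lit 109) (nat_lit 3582799279043088)) C.nil)) (C.cons (nat_lit 529) (C.node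 (nat_lit 0) (nat_lit 4) (nat_lit 6) (C.cons (nat_lit 1105) (C.ref (nat_lit 109) (nat_lit 3581704062382608)) C.nil)) C.nil))) C.nil)))) C.nil)))) C.nil)) C.nil))) C.nil))) C.nil)))) C.nil))) (List.cons (C.big (C.cons (nat_lit 2195) (C.ref (nat_lit 111) (nat_lit 3582863703552528)) (C.cons (nat_lit 2187) (C.ref (nat_lit 111) (nat_lit 3582863703491088)) (C.cons (nat_lit 2183) (C.ref (nat_lit 111) (nat_lit 3582863703425808)) (C.cons (nat_lit 2131) (C.ref (nat_lit 111) (nat_lit 3582863451894288)) (C.cons (nat_lit 2123) (C.ref (nat_lit 111) (nat_lit 3582863451832848)) (C.cons (nat_lit 2119) (C.ref (nat_lit 111) (nat_lit 3582863451767568)) (C.cons (nat_lit 2099) (C.ref (nat_lit 111) (nat_lit 3582863184507408)) (C.cons (nat_lit 2091) (C.ref (nat_lit 111) (nat_lit 3582863184445968)) (C.cons (nat_lit 2087) (C.ref (nat_lit 111) (nat_lit 3582863184380688)) (C.cons (nat_lit 1171) (C.ref (nat_lit 111) (nat_lit 3566371029135888)) (C.cons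 (nat_lit 1163) (C.ref (nat_lit 111) (nat_lit 3566371029074448)) (C.cons (nat_lit 1159) (C.ref (nat_lit 111) (nat_lit 3566371029009168)) (C.cons (nat_lit 1107) (C.ref (nat_lit 111) (nat_lit 3566370777477648)) (C.cons (nat_lit 1099) (C.ref (nat_lit 111) (nat_lit 3566370777416208)) (C.cons (nat_lit 1095) (C.ref (nat_lit 111) (nat_lit 3566370777350928)) (C.cons (nat_lit 1075)
  (C.ref (nat_lit 111) (nat_lit 3566370510090768)) (C.cons (nat_lit 1067) (C.ref (nat_lit 111) (nat_lit 3566370510029328)) (C.cons (nat_lit 1063) (C.ref (nat_lit 111) (nat_lit 3566370509964048)) (C.cons (nat_lit 659) (C.ref (nat_lit 111) (nat_lit 3548847562568208)) (C.cons (nat_lit 651) (C.ref (nat_lit 111) (nat_lit 3548847562506768)) (C.cons (nat_lit 647) (C.ref (nat_lit 111) (nat_lit 3548847562441488)) (C.cons (nat_lit 595) (C.ref (nat_lit 111) (nat_lit 3548847310909968)) (C.cons (nat_lit 587) (C.ref (nat_lit 111) (nat_lit 3548847310848528)) (C.cons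 (nat_lit 583) (C.ref (nat_lit 111) (nat_lit 3548847310783248)) (C.cons (nat_lit 563) (C.ref (nat_lit 111) (nat_lit 3548847043523088)) (C.cons (nat_lit 555) (C.ref (nat_lit 111) (nat_lit 3548847043461648)) (C.cons (nat_lit 551) (C.ref (nat_lit 111) (nat_lit 3548847043396368)) (C.cons (nat_lit 403) (C.ref (nat_lit 111) (nat_lit 3531259671491088)) (C.cons (nat_lit 395) (C.ref (nat_lit 111) (nat_lit 3531259671429648)) (C.cons (nat_lit 391) (C.ref (nat_lit 111) (nat_lit 3531259671364368)) (C.cons (nat_lit 339) (C.ref (nat_lit 111) (nat_lit 3531259419832848)) (C.cons (nat_lit 331) (C.ref (nat_lit 111) (nat_lit 3531259419771408)) (C.cons (nat_lit 327) (C.ref (nat_lit 111) (nat_lit 3531259419706128)) (C.cons (nat_lit 307) (C.ref (nat_lit 111) (nat_lit 3531259152445968)) (C.cons (nat_lit 299) (C.ref (nat_lit 111) (nat_lit 3531259152384528)) (C.cons (nat_lit 295) (C.ref (nat_lit 111) (nat_lit 3531259152319248)) C.nil))))))))))))))))))))))))))))))))))))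 C.nil) (List.cons (C.big C.nil C.nil) (List.cons (C.big (C.cons (nat_lit 555) (C.ref (nat_lit 88) (nat_lit 2757198885499248)) (C.cons (nat_lit 331) (C.ref (nat_lit 113) (nat_lit 3582863703552528)) (C.cons (nat_lit 307) (C.ref (nat_lit 113) (nat_lit 3318980877373968)) (C.cons (nat_lit 301) (C.ref (nat_lit 113) (nat_lit 3038605376640048)) (C.cons (nat_lit 299) (C.big C.nil C.nil) C.nil))))) C.nil) (List.cons (C.qs C.nil) (List.cons (C.node (nat_lit 0) (nat_lit 3) (nat_lit 8) (C.cons (nat_lit 329) (C.node (nat_lit 0) (nat_lit 2) (nat_lit 8) (C.cons (nat_lit 277) (C.pat (nat_lit 1) (nat_lit 3159901985) (nat_lit 21366930407148529422828915981964087521)) (C.cons (nat_lit 261) (C.node (nat_lit 0) (nat_lit 4) (nat_lit 8) (C.cons (nat_lit 273) (C.node (nat_lit 0) (nat_lit 3) (nat_lit 9) (C.cons (nat_lit 553) (C.node (nat_lit 0) (nat_lit 3) (nat_lit 10) (C.cons (nat_lit 1033) (C.node (nat_lit 0) (nat_lit 4) (nat_lit 5) (C.cons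 (nat_lit 1073) (C.node (nat_lit 0) (nat_lit 6) (nat_lit 10) (C.cons (nat_lit 1089) (C.node (nat_lit 0) (nat_lit 2) (nat_lit 4) (C.cons (nat_lit 533) (C.pat (nat_lit 1) (nat_lit 1519680562) (nat_lit 6017957071504680197492496277601591041)) (C.cons (nat_lit 85) (C.pat (nat_lit 1) (nat_lit 1555450401) (nat_lit 21366643920317937730033946197316935425)) C.nil))) C.nil)) (C.cons (nat_lit 49) (C.node (nat_lit 0) (nat_lit 5) (nat_lit 10) C.nil) C.nil))) C.nil)) (C.cons (nat_lit 521) (C.node (nat_lit 0) (nat_lit 3) (nat_lit 5) (C.cons (nat_lit 1065) (C.pat (nat_lit 0) (nat_lit 128670770) (nat_lit 628839149684784185774685162901517)) (C.cons (nat_lit 41) (C.node (nat_lit 0) (nat_lit 3) (nat_lit 10) C.nil) C.nil))) C.nil))) C.nil)) C.nil))) (C.cons (nat_lit 265) (C.node (nat_lit 0) (nat_lit 2) (nat_lit 8) (C.cons (nat_lit 325) (C.node (nat_lit 0) (nat_lit 4) (nat_lit 8) (C.cons (nat_lit 273) (C.node (nat_lit 0) (nat_lit 2) (nat_lit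 4) (C.cons (nat_lit 533) (C.node (nat_lit 0) (nat_lit 4) (nat_lit 5) (C.cons (nat_lit 1073) (C.node (nat_lit 0) (nat_lit 4) (nat_lit 6) (C.cons (nat_lit 81) (C.node (nat_lit 0) (nat_lit 3) (nat_lit 5) (C.cons (nat_lit 553) (C.pat (nat_lit 1) (nat_lit 1519680562) (nat_lit 6017957071504680197492496277601591041)) (C.cons (nat_lit 41) (C.node (nat_lit 0) (nat_lit 5) (nat_lit 9) C.nil) C.nil))) C.nil)) (C.cons (nat_lit 49) (C.node (nat_lit 0) (nat_lit 4) (nat_lit 6) (C.cons (nat_lit 1105) (C.pat (nat_lit 0) (nat_lit 128674881) (nat_lit 628839149684784197033684233293843)) (C.cons (nat_lit 81)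
  (C.node (nat_lit 0) (nat_lit 4) (nat_lit 10) C.nil) C.nil))) C.nil))) (C.cons (nat_lit 21) (C.node (nat_lit 0) (nat_lit 2) (nat_lit 9) (C.cons (nat_lit 517) (C.node (nat_lit 0) (nat_lit 3) (nat_lit 5) (C.cons (nat_lit 1065) (C.pat (nat_lit 0) (nat_lit 128670770) (nat_lit 628839149684784185774685162901517)) (C.cons (nat_lit 553) (C.node (nat_lit 0) (nat_lit 3) (nat_lit 6) (C.cons (nat_lit 1097) (C.node (nat_lit 0) (nat_lit 4) (nat_lit 5) (C.cons (nat_lit 1073) (C.node (nat_lit 0) (nat_lit 4) (nat_lit 6) (C.cons (nat_lit 593) (C.ref (nat_lit 115) (nat_lit 3022112702084688)) C.nil)) C.nil)) C.nil)) C.nil))) C.nil)) C.nil))) C.nil)) (C.cons (nat_lit 277) (C.pat (nat_lit 1) (nat_lit 3159901985) (nat_lit 21366930407148529422828915981964087521)) (C.cons (nat_lit 261) (C.node (nat_lit 0) (nat_lit 4) (nat_lit 8) (C.cons (nat_lit 337) (C.node (nat_lit 0) (nat_lit 2) (nat_lit 4) (C.cons (nat_lit 533) (C.node (nat_lit 0) (nat_lit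 2) (nat_lit 6) (C.cons (nat_lit 69) (C.node (nat_lit 0) (nat_lit 4) (nat_lit 5) (C.cons (nat_lit 1073) (C.pat (nat_lit 1) (nat_lit 1269262417) (nat_lit 10981882238388005571937175080267751169)) (C.cons (nat_lit 49) (C.node (nat_lit 0) (nat_lit 4) (nat_lit 10) C.nil) C.nil))) C.nil)) (C.cons (nat_lit 21) (C.node (nat_lit 0) (nat_lit 2) (nat_lit 6) (C.cons (nat_lit 581) (C.node (nat_lit 0) (nat_lit 3) (nat_lit 6) (C.cons (nat_lit 1097) (C.node (nat_lit 0) (nat_lit 3) (nat_lit 5) (C.cons (nat_lit 553) (C.pat (nat_lit 1) (nat_lit 982940498) (nat_lit 6017958973038569872080655765917998849)) (C.cons (nat_lit 41) (C.node (nat_lit 0) (nat_lit 3) (nat_lit 9) C.nil) C.nil))) (C.cons (nat_lit 73) (C.node (nat_lit 0) (nat_lit 6) (nat_lit 10) C.nil) C.nil))) (C.cons (nat_lit 69) (C.node (nat_lit 0) (nat_lit 2) (nat_lit 9) C.nil) C.nil))) C.nil))) (C.cons (nat_lit 273) (C.node (nat_lit 0) (nat_lit 6) (nat_lit 8) (C.cons (nat_lit 321)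 (C.node (nat_lit 0) (nat_lit 2) (nat_lit 4) (C.cons (nat_lit 533) (C.node (nat_lit 0) (nat_lit 2) (nat_lit 6) C.nil) (C.cons (nat_lit 85) (C.node (nat_lit 0) (nat_lit 2) (nat_lit 9) C.nil) C.nil))) C.nil)) C.nil))) C.nil)))) C.nil))) (List.cons (C.node (nat_lit 0) (nat_lit 1) (nat_lit 3) (C.cons (nat_lit 523) (C.node (nat_lit 0) (nat_lit 3) (nat_lit 5) (C.cons (nat_lit 1065) (C.pat (nat_lit 0) (nat_lit 128670770) (nat_lit 628839149684784185774685162901517)) (C.cons (nat_lit 41) (C.node (nat_lit 0) (nat_lit 3) (nat_lit 8) (C.cons (nat_lit 329) (C.node (nat_lit 0) (nat_lit 3) (nat_lit 10) (C.cons (nat_lit 1033) (C.node (nat_lit 0) (nat_lit 2) (nat_lit 8) (C.cons (nat_lit 277) (C.pat (nat_lit 1) (nat_lit 3159901985) (nat_lit 21366930407148529422828915981964087521)) (C.cons (nat_lit 261) (C.node (nat_lit 0) (nat_lit 4) (nat_lit 8) (C.cons (nat_lit 273) (C.node (nat_lit 0) (nat_lit 5) (nat_lit 9) (C.cons (nat_lit 561) (C.node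 (nat_lit 0) (nat_lit 5) (nat_lit 10) (C.cons (nat_lit 1057) (C.node (nat_lit 0) (nat_lit 2) (nat_lit 4) (C.cons (nat_lit 85) (C.pat (nat_lit 2) (nat_lit 40098775988) (nat_lit 11664009446864121476811883556867255739033915617)) (C.cons (nat_lit 21) (C.node (nat_lit 0) (nat_lit 2) (nat_lit 6) (C.cons (nat_lit 581) (C.pat (nat_lit 1) (nat_lit 3409536801) (nat_lit 10982336690359384063585658909187442841)) C.nil)) C.nil))) C.nil)) (C.cons (nat_lit 545) (C.node (nat_lit 0) (nat_lit 4) (nat_lit 5) (C.cons (nat_lit 1073) (C.node (nat_lit 0) (nat_lit 6) (nat_lit 10) (C.cons (nat_lit 1089) (C.node (nat_lit 0) (nat_lit 2) (nat_lit 4) (C.cons (nat_lit 533) (C.node (nat_lit 0) (nat_lit 2) (nat_lit 6) C.nil) (C.cons (nat_lit 85) (C.pat (nat_lit 1) (nat_lit 1555450401) (nat_lit 21366643920317937730033946197316935425)) C.nil))) C.nil)) (C.cons (nat_lit 49) (C.node (nat_lit 0) (nat_lit 5) (nat_lit 10) C.nil) C.nil))) C.nil))) C.nil)) C.nil)))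 C.nil)) (C.cons (nat_lit 265) (C.node (nat_lit 0) (nat_lit 3) (nat_lit 6) (C.cons (nat_lit 1097) (C.node (nat_lit 0) (nat_lit 4) (nat_lit 10) (C.cons (nat_lit 1073) (C.node (nat_lit 0) (nat_lit 5) (nat_lit 9) (C.cons (nat_lit 545)
  (C.node (nat_lit 0) (nat_lit 2) (nat_lit 8) (C.cons (nat_lit 325) (C.node (nat_lit 0) (nat_lit 4) (nat_lit 8) (C.cons (nat_lit 273) (C.node (nat_lit 0) (nat_lit 2) (nat_lit 4) (C.cons (nat_lit 533) (C.node (nat_lit 0) (nat_lit 4) (nat_lit 6) (C.cons (nat_lit 81) (C.node (nat_lit 0) (nat_lit 6) (nat_lit 9) (C.cons (nat_lit 577) (C.ref (nat_lit 115) (nat_lit 3582863703552528)) C.nil)) C.nil)) (C.cons (nat_lit 21) (C.node (nat_lit 0) (nat_lit 2) (nat_lit 9) (C.cons (nat_lit 517) (C.node (nat_lit 0) (nat_lit 4) (nat_lit 6) (C.cons (nat_lit 593) (C.pat (nat_lit 1) (nat_lit 1822902577) (nat_lit 21366643919162195791767105317262401281)) C.nil)) C.nil)) C.nil))) C.nil)) (C.cons (nat_lit 277) (C.pat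 (nat_lit 1) (nat_lit 3159901985) (nat_lit 21366930407148529422828915981964087521)) (C.cons (nat_lit 261) (C.node (nat_lit 0) (nat_lit 4) (nat_lit 8) (C.cons (nat_lit 337) (C.pat (nat_lit 1) (nat_lit 1269262417) (nat_lit 10981882238388005571937175080267751169)) (C.cons (nat_lit 273) (C.node (nat_lit 0) (nat_lit 6) (nat_lit 8) (C.cons (nat_lit 321) (C.node (nat_lit 0) (nat_lit 2) (nat_lit 4) (C.cons (nat_lit 533) (C.node (nat_lit 0) (nat_lit 2) (nat_lit 6) C.nil) (C.cons (nat_lit 85) (C.pat (nat_lit 1) (nat_lit 1555450401) (nat_lit 21366643920317937730033946197316935425)) C.nil))) C.nil)) C.nil))) C.nil)))) C.nil)) (C.cons (nat_lit 1041) (C.node (nat_lit 0) (nat_lit 5) (nat_lit 10) (C.cons (nat_lit 1057) (C.node (nat_lit 0) (nat_lit 4) (nat_lit 5) (C.cons (nat_lit 561) (C.node (nat_lit 0) (nat_lit 2) (nat_lit 9) (C.cons (nat_lit 581) (C.pat (nat_lit 1) (nat_lit 3409536801) (nat_lit 10982336690359384063585658909187442841))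 (C.cons (nat_lit 517) (C.node (nat_lit 0) (nat_lit 6) (nat_lit 9) (C.cons (nat_lit 577) (C.node (nat_lit 0) (nat_lit 2) (nat_lit 6) (C.cons (nat_lit 325) (C.node (nat_lit 0) (nat_lit 2) (nat_lit 4) C.nil) (C.cons (nat_lit 85) (C.pat (nat_lit 1) (nat_lit 1002727969) (nat_lit 10981882241961604315098076697005989633)) C.nil))) C.nil)) C.nil))) (C.cons (nat_lit 49) (C.node (nat_lit 0) (nat_lit 5) (nat_lit 9) (C.cons (nat_lit 545) (C.node (nat_lit 0) (nat_lit 2) (nat_lit 8) (C.cons (nat_lit 325) (C.node (nat_lit 0) (nat_lit 4) (nat_lit 8) C.nil) (C.cons (nat_lit 277) (C.pat (nat_lit 1) (nat_lit 3159901985) (nat_lit 21366930407148529422828915981964087521)) C.nil))) C.nil)) C.nil))) C.nil)) C.nil))) (C.cons (nat_lit 73) (C.node (nat_lit 0) (nat_lit 3) (nat_lit 10) (C.cons (nat_lit 1033) (C.node (nat_lit 0) (nat_lit 5) (nat_lit 9) (C.cons (nat_lit 561) (C.node (nat_lit 0) (nat_lit 5) (nat_lit 10) (C.cons (nat_lit 1057) (C.node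 (nat_lit 0) (nat_lit 2) (nat_lit 9) (C.cons (nat_lit 581) (C.pat (nat_lit 1) (nat_lit 3409536801) (nat_lit 10982336690359384063585658909187442841)) (C.cons (nat_lit 517) (C.node (nat_lit 0) (nat_lit 6) (nat_lit 9) C.nil) C.nil))) C.nil)) (C.cons (nat_lit 545) (C.node (nat_lit 0) (nat_lit 4) (nat_lit 5) (C.cons (nat_lit 1073) (C.node (nat_lit 0) (nat_lit 6) (nat_lit 10) (C.cons (nat_lit 1089) (C.node (nat_lit 0) (nat_lit 2) (nat_lit 9) (C.cons (nat_lit 533) (C.node (nat_lit 0) (nat_lit 6) (nat_lit 9) C.nil) (C.cons (nat_lit 581) (C.pat (nat_lit 1) (nat_lit 3409536801) (nat_lit 10982336690359384063585658909187442841)) C.nil))) C.nil)) (C.cons (nat_lit 49) (C.node (nat_lit 0) (nat_lit 5) (nat_lit 10) C.nil) C.nil))) C.nil))) C.nil)) C.nil))) C.nil))) C.nil))) (C.cons (nat_lit 11) (C.node (nat_lit 0) (nat_lit 1) (nat_lit 9) (C.cons (nat_lit 515) (C.ref (nat_lit 116) (nat_lit 3582863703552528)) C.nil)) C.nil))) (List.cons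 (C.node (nat_lit 0) (nat_lit 2) (nat_lit 4) (C.cons (nat_lit 533) (C.node (nat_lit 0) (nat_lit 3) (nat_lit 8) (C.cons (nat_lit 297) (C.node (nat_lit 0) (nat_lit 4) (nat_lit 8) (C.cons (nat_lit 273) (C.node (nat_lit 0) (nat_lit 5) (nat_lit 9) (C.cons (nat_lit 545) (C.node (nat_lit 0) (nat_lit 3) (nat_lit 9) (C.cons (nat_lit 585) (C.node (nat_lit 0) (nat_lit 3) (nat_lit 10) C.nil) C.nil)) C.nil)) C.nil)) (C.cons (nat_lit 265) (C.node (nat_lit 0) (nat_lit 4) (nat_lit 6) (C.cons (nat_lit 1105)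
  (C.pat (nat_lit 0) (nat_lit 128674881) (nat_lit 628839149684784197033684233293843)) (C.cons (nat_lit 81) (C.node (nat_lit 0) (nat_lit 4) (nat_lit 8) (C.cons (nat_lit 305) (C.node (nat_lit 0) (nat_lit 4) (nat_lit 10) C.nil) C.nil)) C.nil))) C.nil))) (C.cons (nat_lit 21) (C.node (nat_lit 0) (nat_lit 2) (nat_lit 9) (C.cons (nat_lit 517) (C.node (nat_lit 0) (nat_lit 3) (nat_lit 8) (C.cons (nat_lit 297) (C.node (nat_lit 0) (nat_lit 4) (nat_lit 8) C.nil) C.nil)) C.nil)) C.nil))) (List.cons (C.node (nat_lit 0) (nat_lit 3) (nat_lit 5) (C.cons (nat_lit 1065) (C.node (nat_lit 0) (nat_lit 4) (nat_lit 5) (C.cons (nat_lit 561) (C.pat (nat_lit 1) (nat_lit 1554467121) (nat_lit 21366643919162195201462287759302008577)) (C.cons (nat_lit 49) (C.node (nat_lit 0) (nat_lit 5) (nat_lit 9) (C.cons (nat_lit 545) (C.node (nat_lit 0) (nat_lit 4) (nat_lit 10) (C.cons (nat_lit 1105) (C.pat (nat_lit 0) (nat_lit 128674881) (nat_lit 628839149684784197033684233293843))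 (C.cons (nat_lit 1041) (C.node (nat_lit 0) (nat_lit 6) (nat_lit 10) (C.cons (nat_lit 1089) (C.node (nat_lit 0) (nat_lit 2) (nat_lit 3) (C.cons (nat_lit 269) (C.node (nat_lit 0) (nat_lit 3) (nat_lit 6) C.nil) (C.cons (nat_lit 77) (C.node (nat_lit 0) (nat_lit 3) (nat_lit 8) C.nil) C.nil))) C.nil)) C.nil))) C.nil)) C.nil))) (C.cons (nat_lit 41) (C.node (nat_lit 0) (nat_lit 3) (nat_lit 10) (C.cons (nat_lit 1097) (C.node (nat_lit 0) (nat_lit 2) (nat_lit 3) (C.cons (nat_lit 269) (C.node (nat_lit 0) (nat_lit 4) (nat_lit 8) (C.cons (nat_lit 337) (C.node (nat_lit 0) (nat_lit 2) (nat_lit 4) (C.cons (nat_lit 533) (C.node (nat_lit 0) (nat_lit 2) (nat_lit 6) (C.cons (nat_lit 69) (C.node (nat_lit 0) (nat_lit 5) (nat_lit 9) (C.cons (nat_lit 545) (C.node (nat_lit 0) (nat_lit 6) (nat_lit 9) (C.cons (nat_lit 577) (C.node (nat_lit 0) (nat_lit 4) (nat_lit 5) (C.cons (nat_lit 1073) (C.pat (nat_lit 1) (nat_lit 1269262417) (nat_lit 10981882238388005571937175080267751169))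 C.nil)) C.nil)) C.nil)) C.nil)) (C.cons (nat_lit 21) (C.node (nat_lit 0) (nat_lit 2) (nat_lit 6) (C.cons (nat_lit 581) (C.pat (nat_lit 2) (nat_lit 23779850017) (nat_lit 96361717708302896708148672847100618736128171777)) (C.cons (nat_lit 69) (C.node (nat_lit 0) (nat_lit 2) (nat_lit 9) (C.cons (nat_lit 517) (C.node (nat_lit 0) (nat_lit 6) (nat_lit 9) C.nil) C.nil)) C.nil))) C.nil))) (C.cons (nat_lit 273) (C.node (nat_lit 0) (nat_lit 6) (nat_lit 8) (C.cons (nat_lit 321) (C.node (nat_lit 0) (nat_lit 4) (nat_lit 10) (C.cons (nat_lit 1073) (C.node (nat_lit 0) (nat_lit 5) (nat_lit 9) (C.cons (nat_lit 545) (C.node (nat_lit 0) (nat_lit 6) (nat_lit 4) (C.cons (nat_lit 593) (C.pat (nat_lit 1) (nat_lit 479492662) (nat_lit 22436240750334650771584544726429802241)) (C.cons (nat_lit 85) (C.pat (nat_lit 1) (nat_lit 447892581) (nat_lit 5571426357168910320624196757061181185)) C.nil))) C.nil)) (C.cons (nat_lit 1041) (C.node (nat_lit 0) (nat_lit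 5) (nat_lit 10) C.nil) C.nil))) C.nil)) C.nil))) (C.cons (nat_lit 13) (C.node (nat_lit 0) (nat_lit 3) (nat_lit 8) (C.cons (nat_lit 265) (C.node (nat_lit 0) (nat_lit 4) (nat_lit 10) (C.cons (nat_lit 1073) (C.node (nat_lit 0) (nat_lit 5) (nat_lit 9) (C.cons (nat_lit 545) (C.node (nat_lit 0) (nat_lit 2) (nat_lit 8) (C.cons (nat_lit 325) (C.node (nat_lit 0) (nat_lit 4) (nat_lit 8) C.nil) (C.cons (nat_lit 277) (C.pat (nat_lit 1) (nat_lit 3159901985) (nat_lit 21366930407148529422828915981964087521)) C.nil))) C.nil)) (C.cons (nat_lit 1041) (C.node (nat_lit 0) (nat_lit 5) (nat_lit 10) C.nil) C.nil))) C.nil)) C.nil))) (C.cons (nat_lit 1033) (C.node (nat_lit 0) (nat_lit 5) (nat_lit 9) (C.cons (nat_lit 561) (C.node (nat_lit 0) (nat_lit 5) (nat_lit 10) (C.cons (nat_lit 1057) (C.node (nat_lit 0) (nat_lit 2) (nat_lit 9) (C.cons (nat_lit 581) (C.node (nat_lit 0) (nat_lit 2) (nat_lit 3) (C.cons (nat_lit 269) (C.pat (nat_lit 2) (nat_lit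 23779850017) (nat_lit 96361717708302896708148672847100618736128171777)) (C.cons (nat_lit 13) (C.node (nat_lit 0) (nat_lit 2) (nat_lit 4) (C.cons (nat_lit 277)
  (C.pat (nat_lit 1) (nat_lit 3159901985) (nat_lit 21366930407148529422828915981964087521)) C.nil)) C.nil))) (C.cons (nat_lit 517) (C.node (nat_lit 0) (nat_lit 6) (nat_lit 9) C.nil) C.nil))) C.nil)) (C.cons (nat_lit 545) (C.node (nat_lit 0) (nat_lit 4) (nat_lit 5) (C.cons (nat_lit 1073) (C.node (nat_lit 0) (nat_lit 6) (nat_lit 10) (C.cons (nat_lit 1089) (C.node (nat_lit 0) (nat_lit 2) (nat_lit 3) (C.cons (nat_lit 269) (C.node (nat_lit 0) (nat_lit 3) (nat_lit 6) C.nil) (C.cons (nat_lit 77) (C.node (nat_lit 0) (nat_lit 3) (nat_lit 8) C.nil) C.nil))) C.nil)) (C.cons (nat_lit 49) (C.node (nat_lit 0) (nat_lit 5) (nat_lit 10) C.nil) C.nil))) C.nil))) C.nil))) C.nil))) (List.cons (C.node (nat_lit 0) (nat_lit 3) (nat_lit 5) (C.cons (nat_lit 1065) (C.node (nat_lit 0) (nat_lit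 4) (nat_lit 5) (C.cons (nat_lit 561) (C.node (nat_lit 0) (nat_lit 4) (nat_lit 10) (C.cons (nat_lit 1105) (C.pat (nat_lit 0) (nat_lit 128674881) (nat_lit 628839149684784197033684233293843)) (C.cons (nat_lit 1041) (C.node (nat_lit 0) (nat_lit 6) (nat_lit 10) (C.cons (nat_lit 1089) (C.node (nat_lit 0) (nat_lit 6) (nat_lit 4) (C.cons (nat_lit 337) (C.node (nat_lit 0) (nat_lit 4) (nat_lit 2) C.nil) (C.cons (nat_lit 85) (C.node (nat_lit 0) (nat_lit 4) (nat_lit 8) C.nil) C.nil))) C.nil)) C.nil))) (C.cons (nat_lit 49) (C.node (nat_lit 0) (nat_lit 5) (nat_lit 9) (C.cons (nat_lit 545) (C.node (nat_lit 0) (nat_lit 4) (nat_lit 10) (C.cons (nat_lit 1105) (C.pat (nat_lit 0) (nat_lit 128674881) (nat_lit 628839149684784197033684233293843)) C.nil)) C.nil)) C.nil))) (C.cons (nat_lit 553) (C.node (nat_lit 0) (nat_lit 3) (nat_lit 10) (C.cons (nat_lit 1097) (C.node (nat_lit 0) (nat_lit 2) (nat_lit 3) (C.cons (nat_lit 269) (C.node (nat_lit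 0) (nat_lit 4) (nat_lit 5) (C.cons (nat_lit 1073) (C.node (nat_lit 0) (nat_lit 6) (nat_lit 8) (C.cons (nat_lit 337) (C.pat (nat_lit 1) (nat_lit 3122153317) (nat_lit 5571963363485583776847603978468394119)) (C.cons (nat_lit 321) (C.node (nat_lit 0) (nat_lit 4) (nat_lit 8) (C.cons (nat_lit 273) (C.node (nat_lit 0) (nat_lit 6) (nat_lit 4) (C.cons (nat_lit 593) (C.node (nat_lit 0) (nat_lit 6) (nat_lit 2) C.nil) (C.cons (nat_lit 85) (C.pat (nat_lit 1) (nat_lit 447892581) (nat_lit 5571426357168910320624196757061181185)) C.nil))) C.nil)) C.nil))) (C.cons (nat_lit 49) (C.node (nat_lit 0) (nat_lit 4) (nat_lit 10) (C.cons (nat_lit 1041) (C.node (nat_lit 0) (nat_lit 5) (nat_lit 10) C.nil) C.nil)) C.nil))) (C.cons (nat_lit 13) (C.node (nat_lit 0) (nat_lit 3) (nat_lit 8) (C.cons (nat_lit 265) (C.node (nat_lit 0) (nat_lit 4) (nat_lit 5) (C.cons (nat_lit 1073) (C.node (nat_lit 0) (nat_lit 6) (nat_lit 9) (C.cons (nat_lit 593) (C.node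 (nat_lit 0) (nat_lit 2) (nat_lit 9) C.nil) (C.cons (nat_lit 581) (C.pat (nat_lit 1) (nat_lit 2872649573) (nat_lit 10826567784639548679865632775783909529)) C.nil))) C.nil)) C.nil)) C.nil))) (C.cons (nat_lit 1033) (C.node (nat_lit 0) (nat_lit 4) (nat_lit 5) (C.cons (nat_lit 1073) (C.node (nat_lit 0) (nat_lit 6) (nat_lit 10) (C.cons (nat_lit 1089) (C.node (nat_lit 0) (nat_lit 6) (nat_lit 3) (C.cons (nat_lit 329) (C.node (nat_lit 0) (nat_lit 3) (nat_lit 2) C.nil) (C.cons (nat_lit 77) (C.node (nat_lit 0) (nat_lit 3) (nat_lit 8) C.nil) C.nil))) C.nil)) (C.cons (nat_lit 49) (C.node (nat_lit 0) (nat_lit 5) (nat_lit 10) C.nil) C.nil))) C.nil))) (C.cons (nat_lit 41) (C.node (nat_lit 0) (nat_lit 3) (nat_lit 10) (C.cons (nat_lit 1097) (C.node (nat_lit 0) (nat_lit 3) (nat_lit 8) (C.cons (nat_lit 269) (C.node (nat_lit 0) (nat_lit 3) (nat_lit 9) (C.cons (nat_lit 521) (C.node (nat_lit 0) (nat_lit 4) (nat_lit 8) (C.cons (nat_lit 337)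 (C.node (nat_lit 0) (nat_lit 2) (nat_lit 4) (C.cons (nat_lit 533) (C.node (nat_lit 0) (nat_lit 2) (nat_lit 6) C.nil) C.nil)) C.nil)) C.nil)) (C.cons (nat_lit 265) (C.node (nat_lit 0) (nat_lit 2) (nat_lit 3) (C.cons (nat_lit 525) (C.node (nat_lit 0) (nat_lit 4) (nat_lit 10) (C.cons (nat_lit 1073) (C.node (nat_lit 0) (nat_lit 5) (nat_lit 9) C.nil) C.nil)) C.nil)) C.nil))) (C.cons (nat_lit 1033)
  (C.node (nat_lit 0) (nat_lit 5) (nat_lit 9) (C.cons (nat_lit 561) (C.node (nat_lit 0) (nat_lit 5) (nat_lit 10) C.nil) C.nil)) C.nil))) C.nil)))) List.nil))))))))))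

theorem ok13_111 : okL par13 (nat_lit 121) c13_111 (nat_lit 111) = true := by decide +kernel

noncomputable def c13_121 : List C :=
  (List.cons (C.node (nat_lit 0) (nat_lit 5) (nat_lit 8) (C.cons (nat_lit 305) (C.node (nat_lit 0) (nat_lit 2) (nat_lit 8) (C.cons (nat_lit 325) (C.node (nat_lit 0) (nat_lit 2) (nat_lit 3) (C.cons (nat_lit 525) (C.node (nat_lit 0) (nat_lit 2) (nat_lit 4) (C.cons (nat_lit 21) (C.node (nat_lit 0) (nat_lit 5) (nat_lit 9) (C.cons (nat_lit 545) (C.node (nat_lit 0) (nat_lit 3) (nat_lit 5) (C.cons (nat_lit 1065) (C.pat (nat_lit 1) (nat_lit 1554466865) (nat_lit 21366643919162190479095803790145167105)) C.nil)) C.nil)) C.nil)) (C.cons (nat_lit 13) (C.node (nat_lit 0) (nat_lit 2) (nat_lit 4) (C.cons (nat_lit 533) (C.node (nat_lit 0) (nat_lit 4) (nat_lit 6) (C.cons (nat_lit 1105) (C.pat (nat_lit 0) (nat_lit 128674881) (nat_lit 628839149684784197033684233293843)) (C.cons (nat_lit 81) (C.node (nat_lit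 0) (nat_lit 4) (nat_lit 10) C.nil) C.nil))) (C.cons (nat_lit 21) (C.node (nat_lit 0) (nat_lit 2) (nat_lit 9) C.nil) C.nil))) C.nil))) (C.cons (nat_lit 261) (C.node (nat_lit 0) (nat_lit 6) (nat_lit 8) (C.cons (nat_lit 321) (C.node (nat_lit 0) (nat_lit 4) (nat_lit 10) (C.cons (nat_lit 1105) (C.pat (nat_lit 0) (nat_lit 128674881) (nat_lit 628839149684784197033684233293843)) C.nil)) C.nil)) C.nil))) (C.cons (nat_lit 289) (C.node (nat_lit 0) (nat_lit 2) (nat_lit 3) (C.cons (nat_lit 525) (C.node (nat_lit 0) (nat_lit 3) (nat_lit 5) (C.cons (nat_lit 1065) (C.node (nat_lit 0) (nat_lit 3) (nat_lit 6) (C.cons (nat_lit 73) (C.node (nat_lit 0) (nat_lit 4) (nat_lit 5) (C.cons (nat_lit 561) (C.node (nat_lit 0) (nat_lit 6) (nat_lit 9) C.nil) C.nil)) C.nil)) (C.cons (nat_lit 41) (C.node (nat_lit 0) (nat_lit 3) (nat_lit 6) (C.cons (nat_lit 1097) (C.node (nat_lit 0) (nat_lit 4) (nat_lit 10) (C.cons (nat_lit 1073) (C.node (nat_lit 0) (nat_lit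 5) (nat_lit 9) C.nil) C.nil)) C.nil)) C.nil))) (C.cons (nat_lit 77) (C.node (nat_lit 0) (nat_lit 2) (nat_lit 8) (C.cons (nat_lit 277) (C.node (nat_lit 0) (nat_lit 2) (nat_lit 9) (C.cons (nat_lit 517) (C.node (nat_lit 0) (nat_lit 6) (nat_lit 8) C.nil) C.nil)) (C.cons (nat_lit 261) (C.node (nat_lit 0) (nat_lit 2) (nat_lit 4) (C.cons (nat_lit 533) (C.node (nat_lit 0) (nat_lit 6) (nat_lit 9) C.nil) C.nil)) C.nil))) (C.cons (nat_lit 13) (C.node (nat_lit 0) (nat_lit 2) (nat_lit 8) (C.cons (nat_lit 325) (C.node (nat_lit 0) (nat_lit 4) (nat_lit 8) C.nil) (C.cons (nat_lit 277) (C.node (nat_lit 0) (nat_lit 6) (nat_lit 8) C.nil) C.nil))) C.nil)))) C.nil))) (List.cons (C.node (nat_lit 0) (nat_lit 1) (nat_lit 8) (C.cons (nat_lit 291) (C.node (nat_lit 0) (nat_lit 1) (nat_lit 3) (C.cons (nat_lit 523) (C.ref (nat_lit 119) (nat_lit 3582863703552528)) (C.cons (nat_lit 11) (C.node (nat_lit 0) (nat_lit 1) (nat_lit 9) (C.cons (nat_lit 515)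 (C.ref (nat_lit 120) (nat_lit 3582863703552528)) C.nil)) C.nil))) (C.cons (nat_lit 267) (C.node (nat_lit 0) (nat_lit 1) (nat_lit 5) (C.cons (nat_lit 547) (C.ref (nat_lit 119) (nat_lit 3582799279043088)) (C.cons (nat_lit 35) (C.node (nat_lit 0) (nat_lit 1) (nat_lit 9) (C.cons (nat_lit 515) (C.ref (nat_lit 121) (nat_lit 3582863703552528)) C.nil)) C.nil))) (C.cons (nat_lit 259) (C.node (nat_lit 0) (nat_lit 1) (nat_lit 3) (C.cons (nat_lit 523) (C.node (nat_lit 0) (nat_lit 1) (nat_lit 5) (C.cons (nat_lit 35) (C.ref (nat_lit 121) (nat_lit 3582799279043088)) C.nil)) (C.cons (nat_lit 43) (C.node (nat_lit 0) (nat_lit 1) (nat_lit 9) (C.cons (nat_lit 515) (C.node (nat_lit 0) (nat_lit 3) (nat_lit 10) (C.cons (nat_lit 1097) (C.node (nat_lit 0) (nat_lit 3) (nat_lit 8) (C.cons (nat_lit 269) (C.node (nat_lit 0) (nat_lit 3) (nat_lit 9) (C.cons (nat_lit 521) (C.node (nat_lit 0) (nat_lit 4) (nat_lit 10) (C.cons (nat_lit 1073) (C.pat (nat_lit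 1) (nat_lit 2892711217) (nat_lit 21366930409353589309600582382206390497)) (C.cons (nat_lit 1041) (C.node (nat_lit 0) (nat_lit 5) (nat_lit 10) C.nil) C.nil))) C.nil)) (C.cons (nat_lit 265) (C.node (nat_lit 0) (nat_lit 2) (nat_lit 3) (C.cons (nat_lit 525) (C.node (nat_lit 0) (nat_lit 4) (nat_lit 10) (C.cons (nat_lit 1073)
  (C.pat (nat_lit 1) (nat_lit 2892711217) (nat_lit 21366930409353589309600582382206390497)) (C.cons (nat_lit 1041) (C.node (nat_lit 0) (nat_lit 5) (nat_lit 10) C.nil) C.nil))) (C.cons (nat_lit 13) (C.node (nat_lit 0) (nat_lit 3) (nat_lit 9) C.nil) C.nil))) C.nil))) (C.cons (nat_lit 1033) (C.node (nat_lit 0) (nat_lit 5) (nat_lit 8) (C.cons (nat_lit 305) (C.node (nat_lit 0) (nat_lit 5) (nat_lit 9) (C.cons (nat_lit 545) (C.node (nat_lit 0) (nat_lit 5) (nat_lit 10) C.nil) C.nil)) (C.cons (nat_lit 289) (C.node (nat_lit 0) (nat_lit 5) (nat_lit 9) (C.cons (nat_lit 561) (C.node (nat_lit 0) (nat_lit 5) (nat_lit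 10) C.nil) C.nil)) C.nil))) C.nil))) C.nil)) (C.cons (nat_lit 11) (C.node (nat_lit 0) (nat_lit 1) (nat_lit 5) (C.cons (nat_lit 547) (C.ref (nat_lit 120) (nat_lit 3582799279043088)) (C.cons (nat_lit 35) (C.node (nat_lit 0) (nat_lit 1) (nat_lit 9) (C.cons (nat_lit 515) (C.node (nat_lit 0) (nat_lit 3) (nat_lit 10) (C.cons (nat_lit 1097) (C.node (nat_lit 0) (nat_lit 4) (nat_lit 10) (C.cons (nat_lit 1073) (C.node (nat_lit 0) (nat_lit 5) (nat_lit 8) (C.cons (nat_lit 297) (C.node (nat_lit 0) (nat_lit 5) (nat_lit 9) C.nil) C.nil)) C.nil)) (C.cons (nat_lit 1065) (C.node (nat_lit 0) (nat_lit 4) (nat_lit 10) (C.cons (nat_lit 1105) (C.pat (nat_lit 0) (nat_lit 128674881) (nat_lit 628839149684784197033684233293843)) C.nil)) C.nil))) C.nil)) C.nil))) C.nil)))) C.nil)))) (List.cons (C.node (nat_lit 0) (nat_lit 2) (nat_lit 12) (C.cons (nat_lit 4109) (C.node (nat_lit 0) (nat_lit 1) (nat_lit 8) (C.cons (nat_lit 291) (C.ref (nat_lit 117)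 (nat_lit 3582863703552528)) (C.cons (nat_lit 267) (C.ref (nat_lit 117) (nat_lit 3318980877373968)) (C.cons (nat_lit 259) (C.node (nat_lit 0) (nat_lit 1) (nat_lit 3) (C.cons (nat_lit 523) (C.node (nat_lit 0) (nat_lit 1) (nat_lit 5) (C.cons (nat_lit 35) (C.ref (nat_lit 116) (nat_lit 3318916452864528)) C.nil)) (C.cons (nat_lit 43) (C.node (nat_lit 0) (nat_lit 1) (nat_lit 9) (C.cons (nat_lit 515) (C.node (nat_lit 0) (nat_lit 3) (nat_lit 8) (C.cons (nat_lit 329) (C.node (nat_lit 0) (nat_lit 3) (nat_lit 9) (C.cons (nat_lit 521) (C.node (nat_lit 0) (nat_lit 3) (nat_lit 10) (C.cons (nat_lit 1033) (C.node (nat_lit 0) (nat_lit 2) (nat_lit 8) (C.cons (nat_lit 277) (C.pat (nat_lit 2) (nat_lit 36056450227) (nat_lit 6178015919710349461603487064674691445033603297)) (C.cons (nat_lit 261) (C.node (nat_lit 0) (nat_lit 4) (nat_lit 8) (C.cons (nat_lit 305) (C.pat (nat_lit 1) (nat_lit 2355840305) (nat_lit 21366930409353575142284960991156965601))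 (C.cons (nat_lit 273) (C.node (nat_lit 0) (nat_lit 5) (nat_lit 8) C.nil) C.nil))) C.nil))) C.nil)) C.nil)) (C.cons (nat_lit 265) (C.node (nat_lit 0) (nat_lit 3) (nat_lit 9) (C.cons (nat_lit 585) (C.node (nat_lit 0) (nat_lit 3) (nat_lit 10) (C.cons (nat_lit 1033) (C.node (nat_lit 0) (nat_lit 2) (nat_lit 9) (C.cons (nat_lit 533) (C.pat (nat_lit 2) (nat_lit 40351417523) (nat_lit 11887006690534188985836635664839154860209803489)) (C.cons (nat_lit 517) (C.node (nat_lit 0) (nat_lit 4) (nat_lit 9) (C.cons (nat_lit 561) (C.pat (nat_lit 1) (nat_lit 2624275761) (nat_lit 21366930409353579864723501454840107233)) (C.cons (nat_lit 529) (C.node (nat_lit 0) (nat_lit 5) (nat_lit 9) C.nil) C.nil))) C.nil))) C.nil)) (C.cons (nat_lit 521) (C.node (nat_lit 0) (nat_lit 3) (nat_lit 6) (C.cons (nat_lit 1097) (C.pat (nat_lit 1) (nat_lit 3325409825) (nat_lit 10982050200743514793752469184241271881)) (C.cons (nat_lit 73) (C.node (nat_lit 0) (nat_lit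 3) (nat_lit 10) (C.cons (nat_lit 1033) (C.node (nat_lit 0) (nat_lit 5) (nat_lit 8) (C.cons (nat_lit 305) (C.node (nat_lit 0) (nat_lit 5) (nat_lit 9) C.nil) C.nil)) C.nil)) C.nil))) C.nil))) C.nil))) C.nil)) (C.cons (nat_lit 11) (C.node (nat_lit 0) (nat_lit 1) (nat_lit 5) (C.cons (nat_lit 547) (C.ref (nat_lit 116) (nat_lit 3582799279043088)) (C.cons (nat_lit 35) (C.node (nat_lit 0) (nat_lit 1) (nat_lit 9) (C.cons (nat_lit 515) (C.node (nat_lit 0) (nat_lit 2) (nat_lit 8) (C.cons (nat_lit 325) (C.ref (nat_lit 118) (nat_lit 3582863703552528)) (C.cons (nat_lit 277)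
  (C.ref (nat_lit 118) (nat_lit 3318980877373968)) (C.cons (nat_lit 261) (C.node (nat_lit 0) (nat_lit 2) (nat_lit 4) (C.cons (nat_lit 533) (C.node (nat_lit 0) (nat_lit 2) (nat_lit 6) (C.cons (nat_lit 69) (C.node (nat_lit 0) (nat_lit 5) (nat_lit 9) (C.cons (nat_lit 553) (C.node (nat_lit 0) (nat_lit 6) (nat_lit 9) C.nil) C.nil)) C.nil)) (C.cons (nat_lit 85) (C.node (nat_lit 0) (nat_lit 2) (nat_lit 9) (C.cons (nat_lit 517) (C.node (nat_lit 0) (nat_lit 4) (nat_lit 8) (C.cons (nat_lit 305) (C.node (nat_lit 0) (nat_lit 4) (nat_lit 9) C.nil) C.nil)) C.nil)) (C.cons (nat_lit 21) (C.node (nat_lit 0) (nat_lit 2) (nat_lit 6) (C.cons (nat_lit 581) (C.node (nat_lit 0) (nat_lit 3) (nat_lit 9) (C.cons (nat_lit 553) (C.node (nat_lit 0) (nat_lit 4) (nat_lit 9) C.nil) C.nil)) C.nil)) C.nil)))) C.nil)))) C.nil)) C.nil))) C.nil)))) C.nil)))) (C.cons (nat_lit 4101) (C.node (nat_lit 0) (nat_lit 3) (nat_lit 12) (C.cons (nat_lit 4105) (C.ref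 (nat_lit 122) (nat_lit 3582863703552528)) C.nil)) C.nil))) (List.cons (C.node (nat_lit 0) (nat_lit 5) (nat_lit 9) (C.cons (nat_lit 553) (C.node (nat_lit 0) (nat_lit 1) (nat_lit 3) (C.cons (nat_lit 267) (C.node (nat_lit 0) (nat_lit 1) (nat_lit 5) (C.cons (nat_lit 35) (C.node (nat_lit 0) (nat_lit 2) (nat_lit 3) (C.cons (nat_lit 13) (C.node (nat_lit 0) (nat_lit 5) (nat_lit 8) C.nil) C.nil)) C.nil)) (C.cons (nat_lit 11) (C.node (nat_lit 0) (nat_lit 1) (nat_lit 5) (C.cons (nat_lit 291) (C.node (nat_lit 0) (nat_lit 2) (nat_lit 3) (C.cons (nat_lit 269) (C.node (nat_lit 0) (nat_lit 2) (nat_lit 4) (C.cons (nat_lit 85) (C.pat (nat_lit 2) (nat_lit 35237835170) (nat_lit 6489881981448695991453654913522912777495578777)) (C.cons (nat_lit 21) (C.node (nat_lit 0) (nat_lit 2) (nat_lit 6) (C.cons (nat_lit 581) (C.pat (nat_lit 1) (nat_lit 982940498) (nat_lit 6017958973038569872080655765917998849)) C.nil)) C.nil))) (C.cons (nat_lit 13) (C.node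 (nat_lit 0) (nat_lit 3) (nat_lit 8) C.nil) C.nil))) (C.cons (nat_lit 35) (C.node (nat_lit 0) (nat_lit 1) (nat_lit 8) C.nil) C.nil))) C.nil))) (C.cons (nat_lit 545) (C.node (nat_lit 0) (nat_lit 3) (nat_lit 9) (C.cons (nat_lit 525) (C.node (nat_lit 0) (nat_lit 6) (nat_lit 9) (C.cons (nat_lit 577) (C.node (nat_lit 0) (nat_lit 1) (nat_lit 3) (C.cons (nat_lit 267) (C.node (nat_lit 0) (nat_lit 1) (nat_lit 5) C.nil) (C.cons (nat_lit 43) (C.pat (nat_lit 1) (nat_lit 3025377825) (nat_lit 2757284013119817589194759332617323569)) C.nil))) C.nil)) (C.cons (nat_lit 521) (C.node (nat_lit 0) (nat_lit 2) (nat_lit 3) (C.cons (nat_lit 269) (C.node (nat_lit 0) (nat_lit 1) (nat_lit 3) (C.cons (nat_lit 43) (C.node (nat_lit 0) (nat_lit 1) (nat_lit 8) C.nil) C.nil)) C.nil)) C.nil))) C.nil))) (List.cons (C.node (nat_lit 0) (nat_lit 2) (nat_lit 3) (C.cons (nat_lit 525) (C.node (nat_lit 0) (nat_lit 6) (nat_lit 9) (C.cons (nat_lit 593) (C.node (nat_lit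 0) (nat_lit 1) (nat_lit 9) (C.cons (nat_lit 547) (C.node (nat_lit 0) (nat_lit 1) (nat_lit 3) (C.cons (nat_lit 267) (C.node (nat_lit 0) (nat_lit 1) (nat_lit 4) C.nil) C.nil)) C.nil)) C.nil)) (C.cons (nat_lit 269) (C.node (nat_lit 0) (nat_lit 6) (nat_lit 8) (C.cons (nat_lit 337) (C.node (nat_lit 0) (nat_lit 1) (nat_lit 8) (C.cons (nat_lit 291) (C.node (nat_lit 0) (nat_lit 1) (nat_lit 3) (C.cons (nat_lit 523) (C.node (nat_lit 0) (nat_lit 1) (nat_lit 4) C.nil) C.nil)) C.nil)) C.nil)) C.nil))) (List.cons (C.node (nat_lit 0) (nat_lit 4) (nat_lit 10) (C.cons (nat_lit 1073) (C.node (nat_lit 0) (nat_lit 1) (nat_lit 4) (C.cons (nat_lit 531) (C.ref (nat_lit 124) (nat_lit 3582863703552528)) (C.cons (nat_lit 275) (C.ref (nat_lit 124) (nat_lit 3582799279043088)) (C.cons (nat_lit 19) (C.node (nat_lit 0) (nat_lit 1) (nat_lit 8) (C.cons (nat_lit 291) (C.node (nat_lit 0) (nat_lit 1) (nat_lit 3) (C.cons (nat_lit 523) (C.node (nat_lit 0)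 (nat_lit 3) (nat_lit 5) (C.cons (nat_lit 41) (C.node (nat_lit 0) (nat_lit 5) (nat_lit 9) C.nil) C.nil)) (C.cons (nat_lit 11) (C.node (nat_lit 0) (nat_lit 1) (nat_lit 9) C.nil) C.nil))) (C.cons (nat_lit 267) (C.node (nat_lit 0) (nat_lit 5) (nat_lit 8)
  (C.cons (nat_lit 289) (C.node (nat_lit 0) (nat_lit 1) (nat_lit 5) (C.cons (nat_lit 547) (C.node (nat_lit 0) (nat_lit 3) (nat_lit 5) C.nil) C.nil)) C.nil)) (C.cons (nat_lit 259) (C.node (nat_lit 0) (nat_lit 5) (nat_lit 8) (C.cons (nat_lit 297) (C.node (nat_lit 0) (nat_lit 1) (nat_lit 3) (C.cons (nat_lit 523) (C.node (nat_lit 0) (nat_lit 1) (nat_lit 5) C.nil) C.nil)) C.nil)) C.nil)))) C.nil)))) (C.cons (nat_lit 1041) (C.node (nat_lit 0) (nat_lit 5) (nat_lit 10) (C.cons (nat_lit 1057) (C.ref (nat_lit 125) (nat_lit 3582863703552528)) C.nil)) C.nil))) (List.cons (C.node (nat_lit 0) (nat_lit 3) (nat_lit 10) (C.cons (nat_lit 1097) (C.ref (nat_lit 126) (nat_lit 3582863703552528))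 (C.cons (nat_lit 1065) (C.ref (nat_lit 126) (nat_lit 3582863687823648)) (C.cons (nat_lit 1033) (C.node (nat_lit 0) (nat_lit 5) (nat_lit 10) (C.cons (nat_lit 1073) (C.node (nat_lit 0) (nat_lit 6) (nat_lit 10) (C.cons (nat_lit 1089) (C.ref (nat_lit 125) (nat_lit 3582863687762208)) C.nil)) (C.cons (nat_lit 1057) (C.node (nat_lit 0) (nat_lit 4) (nat_lit 10) (C.cons (nat_lit 1105) (C.ref (nat_lit 125) (nat_lit 3582863703491088)) C.nil)) C.nil))) C.nil)))) (List.cons (C.node (nat_lit 0) (nat_lit 3) (nat_lit 8) (C.cons (nat_lit 329) (C.node (nat_lit 0) (nat_lit 2) (nat_lit 8) (C.cons (nat_lit 277) (C.node (nat_lit 0) (nat_lit 2) (nat_lit 6) (C.cons (nat_lit 581) (C.node (nat_lit 0) (nat_lit 2) (nat_lit 3) (C.cons (nat_lit 45) (C.node (nat_lit 0) (nat_lit 3) (nat_lit 9) C.nil) C.nil)) C.nil)) C.nil)) (C.cons (nat_lit 269) (C.node (nat_lit 0) (nat_lit 4) (nat_lit 8) (C.cons (nat_lit 337) (C.node (nat_lit 0) (nat_lit 2) (nat_lit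 6) (C.cons (nat_lit 581) (C.node (nat_lit 0) (nat_lit 2) (nat_lit 4) (C.cons (nat_lit 53) (C.node (nat_lit 0) (nat_lit 4) (nat_lit 9) C.nil) C.nil)) C.nil)) C.nil)) C.nil))) (List.cons (C.node (nat_lit 0) (nat_lit 1) (nat_lit 3) (C.cons (nat_lit 523) (C.node (nat_lit 0) (nat_lit 3) (nat_lit 5) (C.cons (nat_lit 1065) (C.node (nat_lit 0) (nat_lit 4) (nat_lit 10) (C.cons (nat_lit 1105) (C.pat (nat_lit 0) (nat_lit 128674881) (nat_lit 628839149684784197033684233293843)) (C.cons (nat_lit 1041) (C.node (nat_lit 0) (nat_lit 6) (nat_lit 10) (C.cons (nat_lit 1089) (C.node (nat_lit 0) (nat_lit 2) (nat_lit 3) (C.cons (nat_lit 269) (C.node (nat_lit 0) (nat_lit 3) (nat_lit 6) C.nil) (C.cons (nat_lit 77) (C.node (nat_lit 0) (nat_lit 3) (nat_lit 8) C.nil) C.nil))) C.nil)) C.nil))) (C.cons (nat_lit 45) (C.node (nat_lit 0) (nat_lit 3) (nat_lit 8) (C.cons (nat_lit 329) (C.node (nat_lit 0) (nat_lit 3) (nat_lit 10) (C.cons (nat_lit 1033)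 (C.node (nat_lit 0) (nat_lit 2) (nat_lit 8) (C.cons (nat_lit 277) (C.node (nat_lit 0) (nat_lit 2) (nat_lit 6) (C.cons (nat_lit 581) (C.pat (nat_lit 2) (nat_lit 35831048497) (nat_lit 177001763602460828285329004523296806787456110817)) (C.cons (nat_lit 69) (C.node (nat_lit 0) (nat_lit 2) (nat_lit 9) C.nil) C.nil))) (C.cons (nat_lit 261) (C.node (nat_lit 0) (nat_lit 4) (nat_lit 8) C.nil) C.nil))) C.nil)) (C.cons (nat_lit 265) (C.node (nat_lit 0) (nat_lit 3) (nat_lit 6) (C.cons (nat_lit 1097) (C.node (nat_lit 0) (nat_lit 4) (nat_lit 10) (C.cons (nat_lit 1073) (C.node (nat_lit 0) (nat_lit 5) (nat_lit 9) (C.cons (nat_lit 545) (C.node (nat_lit 0) (nat_lit 2) (nat_lit 8) (C.cons (nat_lit 325) (C.node (nat_lit 0) (nat_lit 4) (nat_lit 8) C.nil) (C.cons (nat_lit 277) (C.node (nat_lit 0) (nat_lit 6) (nat_lit 8) C.nil) C.nil))) C.nil)) (C.cons (nat_lit 1041) (C.node (nat_lit 0) (nat_lit 5) (nat_lit 10) C.nil) C.nil))) (C.cons (nat_lit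 73) (C.node (nat_lit 0) (nat_lit 3) (nat_lit 10) C.nil) C.nil))) C.nil))) (C.cons (nat_lit 41) (C.node (nat_lit 0) (nat_lit 3) (nat_lit 10) (C.cons (nat_lit 1097) (C.node (nat_lit 0) (nat_lit 2) (nat_lit 3) (C.cons (nat_lit 269) (C.node (nat_lit 0) (nat_lit 4) (nat_lit 8) (C.cons (nat_lit 337) (C.node (nat_lit 0) (nat_lit 2) (nat_lit 6) (C.cons (nat_lit 581) (C.pat (nat_lit 5) (nat_lit 501462768227) (nat_lit 25849264528679332821513829756383026042884129105)) (C.cons (nat_lit 69)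
  (C.node (nat_lit 0) (nat_lit 6) (nat_lit 9) C.nil) C.nil))) (C.cons (nat_lit 273) (C.node (nat_lit 0) (nat_lit 6) (nat_lit 8) C.nil) C.nil))) (C.cons (nat_lit 13) (C.node (nat_lit 0) (nat_lit 3) (nat_lit 8) C.nil) C.nil))) (C.cons (nat_lit 1033) (C.node (nat_lit 0) (nat_lit 5) (nat_lit 10) (C.cons (nat_lit 1073) (C.node (nat_lit 0) (nat_lit 6) (nat_lit 10) C.nil) C.nil)) C.nil))) C.nil)))) (C.cons (nat_lit 11) (C.node (nat_lit 0) (nat_lit 1) (nat_lit 9) (C.cons (nat_lit 515) (C.ref (nat_lit 128) (nat_lit 3582863703552528)) C.nil)) C.nil))) (List.cons (C.node (nat_lit 0) (nat_lit 2) (nat_lit 12) (C.cons (nat_lit 4109) (C.ref (nat_lit 122) (nat_lit 3318980877373968)) (C.cons (nat_lit 4101) (C.node (nat_lit 0) (nat_lit 3) (nat_lit 12) (C.cons (nat_lit 4105) (C.node (nat_lit 0) (nat_lit 1) (nat_lit 8) (C.cons (nat_lit 291) (C.ref (nat_lit 129) (nat_lit 3582863703552528)) (C.cons (nat_lit 267) (C.ref (nat_lit 129) (nat_lit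 3318980877373968)) (C.cons (nat_lit 259) (C.node (nat_lit 0) (nat_lit 1) (nat_lit 3) (C.cons (nat_lit 523) (C.node (nat_lit 0) (nat_lit 1) (nat_lit 5) (C.cons (nat_lit 35) (C.ref (nat_lit 128) (nat_lit 3318916452864528)) C.nil)) (C.cons (nat_lit 43) (C.node (nat_lit 0) (nat_lit 1) (nat_lit 9) (C.cons (nat_lit 515) (C.node (nat_lit 0) (nat_lit 3) (nat_lit 10) (C.cons (nat_lit 1097) (C.node (nat_lit 0) (nat_lit 3) (nat_lit 8) (C.cons (nat_lit 269) (C.node (nat_lit 0) (nat_lit 3) (nat_lit 9) C.nil) C.nil)) C.nil)) C.nil)) (C.cons (nat_lit 11) (C.node (nat_lit 0) (nat_lit 1) (nat_lit 5) (C.cons (nat_lit 547) (C.ref (nat_lit 128) (nat_lit 3582799279043088)) C.nil)) C.nil)))) C.nil)))) C.nil)) C.nil))) (List.cons (C.node (nat_lit 0) (nat_lit 3) (nat_lit 9) (C.cons (nat_lit 553) (C.node (nat_lit 0) (nat_lit 1) (nat_lit 3) (C.cons (nat_lit 267) (C.node (nat_lit 0) (nat_lit 1) (nat_lit 5) (C.cons (nat_lit 35) (C.node (nat_lit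 0) (nat_lit 2) (nat_lit 5) (C.cons (nat_lit 293) (C.node (nat_lit 0) (nat_lit 2) (nat_lit 4) (C.cons (nat_lit 85) (C.node (nat_lit 0) (nat_lit 2) (nat_lit 9) (C.cons (nat_lit 517) (C.node (nat_lit 0) (nat_lit 4) (nat_lit 8) C.nil) C.nil)) (C.cons (nat_lit 21) (C.node (nat_lit 0) (nat_lit 2) (nat_lit 6) (C.cons (nat_lit 581) (C.pat (nat_lit 4) (nat_lit 422811314515) (nat_lit 1693892730727595195161534523031784940527427463087153)) C.nil)) C.nil))) (C.cons (nat_lit 37) (C.node (nat_lit 0) (nat_lit 5) (nat_lit 8) C.nil) C.nil))) C.nil)) (C.cons (nat_lit 11) (C.node (nat_lit 0) (nat_lit 3) (nat_lit 8) (C.cons (nat_lit 265) (C.node (nat_lit 0) (nat_lit 1) (nat_lit 5) (C.cons (nat_lit 291) (C.node (nat_lit 0) (nat_lit 2) (nat_lit 5) C.nil) C.nil)) C.nil)) C.nil))) (C.cons (nat_lit 521) (C.node (nat_lit 0) (nat_lit 5) (nat_lit 9) (C.cons (nat_lit 549) (C.node (nat_lit 0) (nat_lit 6) (nat_lit 9) (C.cons (nat_lit 577) (C.node (nat_lit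 0) (nat_lit 1) (nat_lit 3) (C.cons (nat_lit 267) (C.node (nat_lit 0) (nat_lit 1) (nat_lit 5) C.nil) (C.cons (nat_lit 43) (C.pat (nat_lit 4) (nat_lit 191585624913) (nat_lit 11599939454608112786173004227966847575770883952280625)) C.nil))) C.nil)) (C.cons (nat_lit 545) (C.node (nat_lit 0) (nat_lit 2) (nat_lit 5) (C.cons (nat_lit 293) (C.node (nat_lit 0) (nat_lit 1) (nat_lit 5) (C.cons (nat_lit 43) (C.node (nat_lit 0) (nat_lit 1) (nat_lit 8) C.nil) C.nil)) C.nil)) C.nil))) C.nil))) (List.cons (C.node (nat_lit 0) (nat_lit 3) (nat_lit 6) (C.cons (nat_lit 329) (C.node (nat_lit 0) (nat_lit 2) (nat_lit 6) (C.cons (nat_lit 581) (C.pat (nat_lit 1) (nat_lit 3409536801) (nat_lit 10982336690359384063585658909187442841)) (C.cons (nat_lit 69) (C.node (nat_lit 0) (nat_lit 6) (nat_lit 9) (C.cons (nat_lit 577) (C.node (nat_lit 0) (nat_lit 4) (nat_lit 1) (C.cons (nat_lit 275) (C.node (nat_lit 0) (nat_lit 1) (nat_lit 5) C.nil) (C.cons (nat_lit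 51) (C.node (nat_lit 0) (nat_lit 1) (nat_lit 8) C.nil) C.nil))) C.nil)) C.nil))) (C.cons (nat_lit 73) (C.node (nat_lit 0) (nat_lit 3) (nat_lit 8) (C.cons (nat_lit 265) (C.node (nat_lit 0) (nat_lit 6) (nat_lit 8) (C.cons (nat_lit 325)
  (C.node (nat_lit 0) (nat_lit 6) (nat_lit 9) C.nil) C.nil)) C.nil)) C.nil))) (List.cons (C.node (nat_lit 0) (nat_lit 1) (nat_lit 3) (C.cons (nat_lit 523) (C.node (nat_lit 0) (nat_lit 3) (nat_lit 6) (C.cons (nat_lit 329) (C.node (nat_lit 0) (nat_lit 4) (nat_lit 1) (C.cons (nat_lit 275) (C.node (nat_lit 0) (nat_lit 1) (nat_lit 5) C.nil) (C.cons (nat_lit 51) (C.node (nat_lit 0) (nat_lit 1) (nat_lit 8) C.nil) C.nil))) C.nil)) (C.cons (nat_lit 267) (C.node (nat_lit 0) (nat_lit 3) (nat_lit 6) (C.cons (nat_lit 585) (C.node (nat_lit 0) (nat_lit 4) (nat_lit 1) (C.cons (nat_lit 531) (C.node (nat_lit 0) (nat_lit 1) (nat_lit 5) C.nil) (C.cons (nat_lit 51) (C.node (nat_lit 0) (nat_lit 1) (nat_lit 9)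 C.nil) C.nil))) C.nil)) C.nil))) List.nil)))))))))))))

theorem ok13_121 : okL par13 (nat_lit 134) c13_121 (nat_lit 121) = true := by decide +kernel


end Pool.Agent.MP_1f1ca1_co

end

section

set_option autoImplicit false
set_option maxRecDepth 1000000
set_option maxHeartbeats 0

namespace Pool.Agent.MP_1f1ca1_co

theorem parOK13 : ParOK par13 (nat_lit 67) :=
  ⟨by decide, by decide, by decide, by decide, tb13_3_ok, tb13_4_ok, tb13_5_ok, patLib_bad⟩

theorem allRef13 (α : Type) [DecidableEq α] : AllRef α par13 (nat_lit 240) := by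
  have h := AllRef.zero (α := α) par13
  replace h := AllRef.step ok13_0 h
  replace h := AllRef.step ok13_20 h
  replace h := AllRef.step ok13_34 h
  replace h := AllRef.step ok13_47 h
  replace h := AllRef.step ok13_68 h
  replace h := AllRef.step ok13_87 h
  replace h := AllRef.step ok13_92 h
  replace h := AllRef.step ok13_95 h
  replace h := AllRef.step ok13_100 h
  replace h := AllRef.step ok13_111 h
  replace h := AllRef.step ok13_121 h
  replace h := AllRef.step ok13_134 h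
  replace h := AllRef.step ok13_151 h
  replace h := AllRef.step ok13_158 h
  replace h := AllRef.step ok13_169 h
  replace h := AllRef.step ok13_187 h
  replace h := AllRef.step ok13_188 h
  replace h := AllRef.step ok13_196 h
  replace h := AllRef.step ok13_209 h
  replace h := AllRef.step ok13_218 h
  replace h := AllRef.step ok13_232 h
  replace h := AllRef.step ok13_238 h
  replace h := AllRef.step ok13_239 h
  exact h

theorem eng13 {α : Type} [DecidableEq α] {P : Finset α} {B L : Finset (Finset α)} (G : Geo P B L)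
    (hn : P.card = 13) (h6 : ∀ β ∈ B, β.card ≤ 6) : 3600 < 60 * (B \ L).card :=
  engine (j := 239) parOK13 (allRef13 α) rfl G hn h6

end Pool.Agent.MP_1f1ca1_co

end

section

set_option autoImplicit false
set_option maxRecDepth 1000000
set_option maxHeartbeats 0

namespace Pool.Agent.MP_1f1ca1_co

theorem parOK14 : ParOK par14 (nat_lit 79) :=
  ⟨by decide, by decide, by decide, by decide, tb14_3_ok, tb14_4_ok, tb14_5_ok, patLib_bad⟩

theorem allRef14 (α : Type) [DecidableEq α] : AllRef α par14 (nat_lit 6) := by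
  have h := AllRef.zero (α := α) par14
  replace h := AllRef.step ok14_0 h
  replace h := AllRef.step ok14_4 h
  replace h := AllRef.step ok14_5 h
  exact h

theorem eng14 {α : Type} [DecidableEq α] {P : Finset α} {B L : Finset (Finset α)} (G : Geo P B L)
    (hn : P.card = 14) (h6 : ∀ β ∈ B, β.card ≤ 6) : 4320 < 60 * (B \ L).card :=
  engine (j := 5) parOK14 (allRef14 α) rfl G hn h6

end Pool.Agent.MP_1f1ca1_co

end

section

/-! The lower bound for every configuration. -/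

set_option autoImplicit false

namespace Pool.Agent.MP_1f1ca1_co

theorem Geo.lower_all {α : Type} [DecidableEq α] {P : Finset α} {B L : Finset (Finset α)} (G : Geo P B L)
    (h4 : 4 ≤ P.card) : tgt P.card ≤ (B \ L).card := by
  refine G.lower h4 fun h6 h14 hs => ?_
  obtain ⟨n, hn⟩ : ∃ n, P.card = n := ⟨_, rfl⟩
  rw [hn] at h6 h14 ⊢
  interval_cases n
  · have := eng6 G hn hs
    have e : tgt 6 = 8 := by decide
    omega
  · have := eng7 G hn hs
    have e : tgt 7 = 11 := by decide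
    omega
  · have := eng8 G hn hs
    have e : tgt 8 = 17 := by decide
    omega
  · have := eng9 G hn hs
    have e : tgt 9 = 25 := by decide
    omega
  · have := eng10 G hn hs
    have e : tgt 10 = 33 := by decide
    omega
  · have := eng11 G hn hs
    have e : tgt 11 = 41 := by decide
    omega
  · have := eng12 G hn hs
    have e : tgt 12 = 51 := by decide
    omega
  · have := eng13 G hn hs
    have e : tgt 13 = 61 := by decide
    omega
  · have := eng14 G hn hs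
    have e : tgt 14 = 73 := by decide
    omega

end Pool.Agent.MP_1f1ca1_co

end
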