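import Pool.Agent.Mg.F1f1ca1.G140a50

section

set_option autoImplicit false
set_option maxRecDepth 1000000
set_option maxHeartbeats 0

namespace Pool.Agent.MP_1f1ca1_co

noncomputable def c10_55 : List C :=
  (List.cons (C.node (nat_lit 1) (nat_lit 6) (nat_lit 9) (C.cons (nat_lit 610) (C.node (nat_lit 5) (nat_lit 7) (nat_lit 9) (C.cons (nat_lit 672) (C.node (nat_lit 1) (nat_lit 3) (nat_lit 5) (C.cons (nat_lit 46) (C.node (nat_lit 1) (nat_lit 3) (nat_lit 6) (C.cons (nat_lit 330) (C.miq (nat_lit 2014643762) (nat_lit 351800457491128121876676685)) (C.cons (nat_lit 74) (C.node (nat_lit 1) (nat_lit 6) (nat_lit 7) (C.cons (nat_lit 198) (C.miq (nat_lit 1901683248) (nat_lit 737462477341710874444365901)) (C.cons (nat_lit 194) (C.node (nat_lit 1) (nat_lit 2) (nat_lit 6) (C.cons (nat_lit 326) (C.miq (nat_lit 2170118704) (nat_lit 737462477377739671463329869)) (C.cons (nat_lit 70) (C.node (nat_lit 1) (nat_lit 6) (nat_lit 8) (C.cons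 (nat_lit 322) (C.node (nat_lit 3) (nat_lit 7) (nat_lit 9) (C.cons (nat_lit 652) (C.miq (nat_lit 2301691685) (nat_lit 631064646111862131616776357)) (C.cons (nat_lit 648) (C.node (nat_lit 2) (nat_lit 5) (nat_lit 9) (C.cons (nat_lit 804) (C.miq (nat_lit 595153160) (nat_lit 783398762305463413681226019)) (C.cons (nat_lit 548) (C.node (nat_lit 5) (nat_lit 8) (nat_lit 9) (C.cons (nat_lit 800) (C.node (nat_lit 3) (nat_lit 5) (nat_lit 6) (C.cons (nat_lit 360) (C.miq (nat_lit 2233033504) (nat_lit 737462477387309820668215373)) (C.cons (nat_lit 232) (C.miq (nat_lit 1964598048) (nat_lit 737462477351281023649251405)) (C.cons (nat_lit 104) (C.node (nat_lit 3) (nat_lit 5) (nat_lit 7) (C.cons (nat_lit 424) (C.miq (nat_lit 2234086160) (nat_lit 662509076589217210345914507)) (C.cons (nat_lit 168) (C.node (nat_lit 3) (nat_lit 5) (nat_lit 8) (C.cons (nat_lit 296) (C.node (nat_lit 1) (nat_lit 3) (nat_lit 4) (C.cons (nat_lit 282) (C.node (nat_lit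 1) (nat_lit 8) (nat_lit 9) (C.cons (nat_lit 770) (C.node (nat_lit 3) (nat_lit 6) (nat_lit 8) (C.cons (nat_lit 328) (C.node (nat_lit 1) (nat_lit 2) (nat_lit 8) (C.cons (nat_lit 390) (C.miq (nat_lit 2186899760) (nat_lit 662509076579647061141029003)) (C.cons (nat_lit 262) (C.node (nat_lit 1) (nat_lit 7) (nat_lit 8) (C.cons (nat_lit 386) (C.node (nat_lit 2) (nat_lit 3) (nat_lit 4) (C.cons (nat_lit 156) (C.miq (nat_lit 2155091235) (nat_lit 175299445907859943328579630)) C.nil)) C.nil)) C.nil))) C.nil)) C.nil)) (C.cons (nat_lit 26) (C.node (nat_lit 1) (nat_lit 3) (nat_lit 8) (C.cons (nat_lit 266) (C.node (nat_lit 1) (nat_lit 4) (nat_lit 5) (C.cons (nat_lit 178) (C.node (nat_lit 1) (nat_lit 7) (nat_lit 9) (C.cons (nat_lit 642) (C.node (nat_lit 5) (nat_lit 6) (nat_lit 7) (C.cons (nat_lit 224) (C.node (nat_lit 5) (nat_lit 7) (nat_lit 8) (C.cons (nat_lit 416) (C.node (nat_lit 2) (nat_lit 5) (nat_lit 6) (C.cons (nat_lit 372) (C.miq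 (nat_lit 2232902192) (nat_lit 215206523317167716890771533)) (C.cons (nat_lit 356) (C.miq (nat_lit 2232902192) (nat_lit 215206523312664117263401037)) (C.cons (nat_lit 116) (C.miq (nat_lit 628319248) (nat_lit 203100958127203238797836371)) C.nil)))) C.nil)) C.nil)) C.nil)) (C.cons (nat_lit 50) (C.node (nat_lit 1) (nat_lit 5) (nat_lit 7) (C.cons (nat_lit 162) (C.node (nat_lit 1) (nat_lit 7) (nat_lit 9) (C.cons (nat_lit 658) (C.node (nat_lit 1) (nat_lit 8) (nat_lit 9) C.nil) C.nil)) C.nil)) C.nil))) C.nil)) C.nil))) C.nil)) C.nil))) C.nil)))) C.nil)) C.nil))) C.nil))) C.nil)) C.nil))) C.nil))) C.nil))) (C.cons (nat_lit 42) (C.node (nat_lit 1) (nat_lit 2) (nat_lit 5) (C.cons (nat_lit 54) (C.node (nat_lit 1) (nat_lit 5) (nat_lit 7) (C.cons (nat_lit 162) (C.node (nat_lit 1) (nat_lit 6) (nat_lit 7) (C.cons (nat_lit 198) (C.miq (nat_lit 2535786004) (nat_lit 199483256704290057587392595)) (C.cons (nat_lit 194) (C.node (nat_lit 1)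 (nat_lit 2) (nat_lit 6) (C.cons (nat_lit 326) (C.miq (nat_lit 2151835985) (nat_lit 25393456120975138441527906)) (C.cons (nat_lit 70) (C.node (nat_lit 2) (nat_lit 5) (nat_lit 9) (C.cons (nat_lit 804) (C.miq (nat_lit 2182518080) (nat_lit 84642534920384990317576761)) (C.cons (nat_lit 548) (C.node (nat_lit 5) (nat_lit 8) (nat_lit 9) (C.cons (nat_lit 800) (C.node (nat_lit 2) (nat_lit 6) (nat_lit 7) (C.cons (nat_lit 212)
  (C.miq (nat_lit 2267350593) (nat_lit 199478128509437626461585491)) (C.cons (nat_lit 196) (C.node (nat_lit 2) (nat_lit 6) (nat_lit 9) (C.cons (nat_lit 596) (C.miq (nat_lit 2250312005) (nat_lit 84630175646049504131940921)) (C.cons (nat_lit 580) (C.node (nat_lit 4) (nat_lit 6) (nat_lit 9) (C.cons (nat_lit 592) (C.node (nat_lit 4) (nat_lit 5) (nat_lit 6) (C.cons (nat_lit 368) (C.miq (nat_lit 2234082320) (nat_lit 662509076573454646009856083)) (C.cons (nat_lit 240) (C.miq (nat_lit 1965646864) (nat_lit 662509076537425848990892115))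 (C.cons (nat_lit 112) (C.node (nat_lit 1) (nat_lit 2) (nat_lit 3) (C.cons (nat_lit 270) (C.node (nat_lit 1) (nat_lit 2) (nat_lit 7) (C.cons (nat_lit 134) (C.node (nat_lit 1) (nat_lit 3) (nat_lit 4) (C.cons (nat_lit 26) (C.node (nat_lit 1) (nat_lit 3) (nat_lit 6) (C.cons (nat_lit 74) (C.node (nat_lit 1) (nat_lit 6) (nat_lit 8) (C.cons (nat_lit 322) (C.node (nat_lit 1) (nat_lit 8) (nat_lit 9) (C.cons (nat_lit 786) (C.miq (nat_lit 2166854736) (nat_lit 162013787370654707923354169)) C.nil)) C.nil)) C.nil)) C.nil)) C.nil)) (C.cons (nat_lit 14) (C.node (nat_lit 1) (nat_lit 2) (nat_lit 7) (C.cons (nat_lit 390) (C.node (nat_lit 1) (nat_lit 3) (nat_lit 4) (C.cons (nat_lit 282) (C.miq (nat_lit 2219971335) (nat_lit 65289188568757109438873739)) (C.cons (nat_lit 26) (C.node (nat_lit 1) (nat_lit 4) (nat_lit 7) (C.cons (nat_lit 658) (C.miq (nat_lit 613881096) (nat_lit 795480383551816836323541283)) (C.cons (nat_lit 146) (C.node (nat_lit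 1) (nat_lit 7) (nat_lit 9) (C.cons (nat_lit 642) (C.node (nat_lit 1) (nat_lit 4) (nat_lit 8) (C.cons (nat_lit 786) (C.node (nat_lit 2) (nat_lit 4) (nat_lit 9) (C.cons (nat_lit 660) (C.node (nat_lit 4) (nat_lit 5) (nat_lit 7) (C.cons (nat_lit 176) (C.miq (nat_lit 2236027026) (nat_lit 212778138564275143575863815)) C.nil)) (C.cons (nat_lit 532) (C.miq (nat_lit 2034370581) (nat_lit 643151580018255711486476579)) C.nil))) (C.cons (nat_lit 274) (C.miq (nat_lit 2551449381) (nat_lit 331256171042285462264086693)) C.nil))) C.nil)) C.nil))) C.nil))) (C.cons (nat_lit 134) (C.node (nat_lit 1) (nat_lit 2) (nat_lit 8) (C.cons (nat_lit 262) (C.node (nat_lit 1) (nat_lit 8) (nat_lit 9) (C.cons (nat_lit 786) (C.miq (nat_lit 2166854736) (nat_lit 162013787370654707923354169)) (C.cons (nat_lit 770) (C.node (nat_lit 4) (nat_lit 5) (nat_lit 7) (C.cons (nat_lit 432) (C.miq (nat_lit 1100501511) (nat_lit 930880850111906184943435941)) (C.cons (nat_lit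 176) (C.node (nat_lit 4) (nat_lit 5) (nat_lit 8) (C.cons (nat_lit 304) (C.node (nat_lit 2) (nat_lit 3) (nat_lit 5) (C.cons (nat_lit 300) (C.node (nat_lit 2) (nat_lit 5) (nat_lit 6) C.nil) C.nil)) C.nil)) C.nil))) C.nil))) C.nil)) C.nil))) C.nil))) C.nil)))) C.nil)) C.nil))) C.nil))) C.nil)) C.nil))) C.nil))) C.nil))) C.nil)) (C.cons (nat_lit 38) (C.node (nat_lit 1) (nat_lit 3) (nat_lit 6) (C.cons (nat_lit 330) (C.node (nat_lit 1) (nat_lit 2) (nat_lit 3) (C.cons (nat_lit 30) (C.node (nat_lit 1) (nat_lit 8) (nat_lit 9) (C.cons (nat_lit 786) (C.miq (nat_lit 646000788) (nat_lit 398946073896827539661390393)) (C.cons (nat_lit 770) (C.node (nat_lit 1) (nat_lit 4) (nat_lit 8) (C.cons (nat_lit 402) (C.miq (nat_lit 1881441841) (nat_lit 25394858073522627241967946)) (C.cons (nat_lit 274) (C.node (nat_lit 3) (nat_lit 8) (nat_lit 9) (C.cons (nat_lit 780) (C.miq (nat_lit 560477193) (nat_lit 398959908941649726949884473)) (C.cons (nat_lit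 776) (C.node (nat_lit 2) (nat_lit 6) (nat_lit 8) (C.cons (nat_lit 372) (C.miq (nat_lit 1904542562) (nat_lit 351800457259755691041882189)) (C.cons (nat_lit 356) (C.miq (nat_lit 1904542562) (nat_lit 351800457259755691040833613)) (C.cons (nat_lit 340) (C.miq (nat_lit 2017527331) (nat_lit 331248238942333552406954061)) (C.cons (nat_lit 324) (C.node (nat_lit 1) (nat_lit 2) (nat_lit 6) (C.cons (nat_lit 198) (C.node (nat_lit 1) (nat_lit 2) (nat_lit 8) (C.cons (nat_lit 262) (C.node (nat_lit 1) (nat_lit 7) (nat_lit 8) (C.cons (nat_lit 386) (C.node (nat_lit 1) (nat_lit 4) (nat_lit 5) (C.cons (nat_lit 178)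
  (C.miq (nat_lit 2534671907) (nat_lit 215199292359280236857000013)) (C.cons (nat_lit 50) (C.node (nat_lit 1) (nat_lit 5) (nat_lit 7) (C.cons (nat_lit 162) (C.node (nat_lit 1) (nat_lit 4) (nat_lit 7) (C.cons (nat_lit 658) (C.node (nat_lit 2) (nat_lit 3) (nat_lit 9) (C.cons (nat_lit 652) (C.node (nat_lit 2) (nat_lit 5) (nat_lit 6) (C.cons (nat_lit 116) (C.miq (nat_lit 2454090512) (nat_lit 140253122579873632814825611)) (C.cons (nat_lit 100) (C.node (nat_lit 2) (nat_lit 4) (nat_lit 6) (C.cons (nat_lit 596) (C.node (nat_lit 4) (nat_lit 8) (nat_lit 9) (C.cons (nat_lit 784) (C.node (nat_lit 2) (nat_lit 5) (nat_lit 9) (C.cons (nat_lit 804) (C.miq (nat_lit 1380026720) (nat_lit 36273142817272765802021825)) C.nil)) C.nil)) (C.cons (nat_lit 84) (C.miq (nat_lit 2454090512) (nat_lit 101567496352205499224227979)) C.nil))) C.nil))) (C.cons (nat_lit 524) (C.miq (nat_lit 2033325062) (nat_lit 633480782118605260554305619)) C.nil))) (C.cons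 (nat_lit 146) (C.miq (nat_lit 2534671907) (nat_lit 176513666131612103266402381)) C.nil))) C.nil)) C.nil))) C.nil)) C.nil)) (C.cons (nat_lit 70) (C.node (nat_lit 1) (nat_lit 6) (nat_lit 7) (C.cons (nat_lit 194) (C.node (nat_lit 1) (nat_lit 4) (nat_lit 9) (C.cons (nat_lit 658) (C.miq (nat_lit 1898353712) (nat_lit 84642534879289540638212665)) (C.cons (nat_lit 530) (C.node (nat_lit 1) (nat_lit 7) (nat_lit 9) (C.cons (nat_lit 642) (C.node (nat_lit 2) (nat_lit 3) (nat_lit 9) (C.cons (nat_lit 652) (C.miq (nat_lit 1914082112) (nat_lit 84642534877600690778341945)) (C.cons (nat_lit 524) (C.node (nat_lit 3) (nat_lit 7) (nat_lit 9) (C.cons (nat_lit 648) (C.node (nat_lit 2) (nat_lit 3) (nat_lit 7) (C.cons (nat_lit 396) (C.miq (nat_lit 1182929011) (nat_lit 391692518980828614447857803)) (C.cons (nat_lit 140) (C.node (nat_lit 2) (nat_lit 6) (nat_lit 9) (C.cons (nat_lit 596) (C.miq (nat_lit 1981876547) (nat_lit 84627371740950300278522425))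 (C.cons (nat_lit 580) (C.node (nat_lit 4) (nat_lit 6) (nat_lit 9) (C.cons (nat_lit 592) (C.node (nat_lit 1) (nat_lit 2) (nat_lit 7) (C.cons (nat_lit 390) (C.node (nat_lit 2) (nat_lit 5) (nat_lit 9) C.nil) C.nil)) C.nil)) C.nil))) C.nil))) C.nil)) C.nil))) C.nil)) C.nil))) C.nil)) C.nil))) C.nil))))) C.nil))) C.nil))) C.nil))) (C.cons (nat_lit 14) (C.node (nat_lit 1) (nat_lit 3) (nat_lit 4) (C.cons (nat_lit 26) (C.node (nat_lit 1) (nat_lit 2) (nat_lit 6) (C.cons (nat_lit 198) (C.node (nat_lit 1) (nat_lit 4) (nat_lit 5) (C.cons (nat_lit 178) (C.miq (nat_lit 846530068) (nat_lit 199483256455466178183299155)) (C.cons (nat_lit 50) (C.node (nat_lit 1) (nat_lit 5) (nat_lit 7) (C.cons (nat_lit 162) (C.node (nat_lit 1) (nat_lit 7) (nat_lit 9) (C.cons (nat_lit 658) (C.miq (nat_lit 1092851552) (nat_lit 16935457857194134264939457)) (C.cons (nat_lit 642) (C.node (nat_lit 2) (nat_lit 6) (nat_lit 9) (C.cons (nat_lit 596) (C.miq (nat_lit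 1108579952) (nat_lit 16935457839742685712942017)) (C.cons (nat_lit 580) (C.node (nat_lit 4) (nat_lit 6) (nat_lit 9) (C.cons (nat_lit 592) (C.node (nat_lit 3) (nat_lit 4) (nat_lit 6) (C.cons (nat_lit 216) (C.miq (nat_lit 1192834592) (nat_lit 776140872450769316303274061)) (C.cons (nat_lit 88) (C.node (nat_lit 3) (nat_lit 5) (nat_lit 6) (C.cons (nat_lit 232) (C.miq (nat_lit 1461270048) (nat_lit 776140872455272915930644557)) (C.cons (nat_lit 104) (C.node (nat_lit 3) (nat_lit 6) (nat_lit 7) (C.cons (nat_lit 200) (C.node (nat_lit 3) (nat_lit 7) (nat_lit 9) (C.cons (nat_lit 652) (C.miq (nat_lit 1126238582) (nat_lit 16926492714524988418687937)) (C.cons (nat_lit 648) (C.node (nat_lit 4) (nat_lit 6) (nat_lit 7) (C.cons (nat_lit 240) (C.miq (nat_lit 2507277409) (nat_lit 199482334256748361637298259)) (C.cons (nat_lit 208) (C.node (nat_lit 5) (nat_lit 6) (nat_lit 7) (C.cons (nat_lit 224) (C.node (nat_lit 2) (nat_lit 5) (nat_lit 6)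 (C.cons (nat_lit 372) (C.miq (nat_lit 1904542562) (nat_lit 351800457259755691041882189)) (C.cons (nat_lit 356) (C.miq (nat_lit 1904542562) (nat_lit 351800457259755691040833613)) (C.cons (nat_lit 116)
  (C.miq (nat_lit 891749473) (nat_lit 199475324493999819431739475)) C.nil)))) C.nil)) C.nil))) C.nil))) C.nil)) C.nil))) C.nil))) C.nil)) C.nil))) C.nil))) C.nil)) C.nil))) (C.cons (nat_lit 70) (C.node (nat_lit 1) (nat_lit 6) (nat_lit 7) (C.cons (nat_lit 194) (C.node (nat_lit 1) (nat_lit 4) (nat_lit 5) (C.cons (nat_lit 178) (C.node (nat_lit 1) (nat_lit 7) (nat_lit 9) (C.cons (nat_lit 642) (C.node (nat_lit 2) (nat_lit 5) (nat_lit 6) (C.cons (nat_lit 372) (C.miq (nat_lit 1904542562) (nat_lit 351800457259755691041882189)) (C.cons (nat_lit 356) (C.miq (nat_lit 1904542562) (nat_lit 351800457259755691040833613)) (C.cons (nat_lit 116) (C.miq (nat_lit 844564033) (nat_lit 199475324355514130888786003)) (C.cons (nat_lit 100) (C.node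 (nat_lit 1) (nat_lit 2) (nat_lit 4) (C.cons (nat_lit 278) (C.node (nat_lit 1) (nat_lit 2) (nat_lit 7) (C.cons (nat_lit 134) (C.node (nat_lit 1) (nat_lit 4) (nat_lit 9) (C.cons (nat_lit 530) (C.node (nat_lit 1) (nat_lit 7) (nat_lit 8) (C.cons (nat_lit 386) (C.node (nat_lit 1) (nat_lit 8) (nat_lit 9) (C.cons (nat_lit 770) (C.node (nat_lit 2) (nat_lit 4) (nat_lit 5) (C.cons (nat_lit 52) (C.node (nat_lit 2) (nat_lit 6) (nat_lit 8) (C.cons (nat_lit 324) (C.node (nat_lit 4) (nat_lit 8) (nat_lit 9) (C.cons (nat_lit 784) (C.node (nat_lit 2) (nat_lit 3) (nat_lit 4) (C.cons (nat_lit 156) (C.node (nat_lit 2) (nat_lit 6) (nat_lit 7) C.nil) C.nil)) C.nil)) C.nil)) C.nil)) C.nil)) C.nil)) C.nil)) C.nil)) (C.cons (nat_lit 22) (C.node (nat_lit 1) (nat_lit 2) (nat_lit 7) (C.cons (nat_lit 390) (C.node (nat_lit 1) (nat_lit 4) (nat_lit 8) (C.cons (nat_lit 786) (C.miq (nat_lit 1092982896) (nat_lit 45949677563974856116339649)) (C.cons (nat_lit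 274) (C.node (nat_lit 1) (nat_lit 4) (nat_lit 9) (C.cons (nat_lit 530) (C.node (nat_lit 1) (nat_lit 8) (nat_lit 9) (C.cons (nat_lit 770) (C.node (nat_lit 2) (nat_lit 4) (nat_lit 5) (C.cons (nat_lit 308) (C.miq (nat_lit 830736165) (nat_lit 331256170810913031424573605)) (C.cons (nat_lit 52) (C.node (nat_lit 2) (nat_lit 5) (nat_lit 9) (C.cons (nat_lit 804) (C.miq (nat_lit 1377015920) (nat_lit 16935457898290305502479297)) (C.cons (nat_lit 548) (C.node (nat_lit 2) (nat_lit 3) (nat_lit 5) C.nil) C.nil))) C.nil))) C.nil)) C.nil)) C.nil))) (C.cons (nat_lit 134) (C.node (nat_lit 1) (nat_lit 2) (nat_lit 8) (C.cons (nat_lit 262) (C.node (nat_lit 1) (nat_lit 7) (nat_lit 8) (C.cons (nat_lit 386) (C.node (nat_lit 1) (nat_lit 4) (nat_lit 8) (C.cons (nat_lit 786) (C.node (nat_lit 2) (nat_lit 3) (nat_lit 5) (C.cons (nat_lit 300) (C.node (nat_lit 2) (nat_lit 4) (nat_lit 5) C.nil) C.nil)) C.nil)) C.nil)) C.nil)) C.nil))) C.nil))) C.nil)))))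 C.nil)) (C.cons (nat_lit 50) (C.node (nat_lit 1) (nat_lit 5) (nat_lit 7) (C.cons (nat_lit 162) (C.node (nat_lit 1) (nat_lit 7) (nat_lit 9) (C.cons (nat_lit 658) (C.node (nat_lit 1) (nat_lit 8) (nat_lit 9) (C.cons (nat_lit 770) (C.node (nat_lit 2) (nat_lit 6) (nat_lit 9) (C.cons (nat_lit 596) (C.miq (nat_lit 588537977) (nat_lit 31443065591122459685422017)) (C.cons (nat_lit 580) (C.node (nat_lit 4) (nat_lit 6) (nat_lit 9) (C.cons (nat_lit 592) (C.node (nat_lit 2) (nat_lit 7) (nat_lit 9) (C.cons (nat_lit 652) (C.miq (nat_lit 639053897) (nat_lit 234543636304048048252781113)) (C.cons (nat_lit 644) (C.node (nat_lit 3) (nat_lit 7) (nat_lit 9) (C.cons (nat_lit 648) (C.node (nat_lit 3) (nat_lit 4) (nat_lit 6) (C.cons (nat_lit 216) (C.miq (nat_lit 558041462) (nat_lit 31433491855362373193302977)) (C.cons (nat_lit 88) (C.node (nat_lit 1) (nat_lit 2) (nat_lit 4) (C.cons (nat_lit 278) (C.node (nat_lit 1) (nat_lit 2) (nat_lit 7) (C.cons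 (nat_lit 134) (C.node (nat_lit 2) (nat_lit 4) (nat_lit 9) C.nil) C.nil)) (C.cons (nat_lit 22) (C.node (nat_lit 1) (nat_lit 4) (nat_lit 8) (C.cons (nat_lit 274) (C.node (nat_lit 1) (nat_lit 2) (nat_lit 7) (C.cons (nat_lit 390) (C.node (nat_lit 2) (nat_lit 4) (nat_lit 9) (C.cons (nat_lit 788) (C.miq (nat_lit 1108580464) (nat_lit 16935457893786705875108801)) C.nil)) C.nil)) C.nil)) C.nil))) C.nil))) C.nil)) C.nil))) C.nil)) C.nil))) C.nil))
  (C.cons (nat_lit 642) (C.ref (nat_lit 54) (nat_lit 654820258320)) C.nil))) C.nil)) C.nil))) C.nil)) C.nil))) C.nil)) C.nil))) (C.cons (nat_lit 74) (C.node (nat_lit 1) (nat_lit 4) (nat_lit 5) (C.cons (nat_lit 178) (C.node (nat_lit 1) (nat_lit 7) (nat_lit 9) (C.cons (nat_lit 642) (C.node (nat_lit 1) (nat_lit 6) (nat_lit 7) (C.cons (nat_lit 198) (C.miq (nat_lit 846530068) (nat_lit 199483256455466178183299155)) (C.cons (nat_lit 194) (C.node (nat_lit 1) (nat_lit 2) (nat_lit 6) (C.cons (nat_lit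 326) (C.node (nat_lit 1) (nat_lit 2) (nat_lit 7) (C.cons (nat_lit 134) (C.node (nat_lit 1) (nat_lit 7) (nat_lit 8) (C.cons (nat_lit 386) (C.node (nat_lit 2) (nat_lit 3) (nat_lit 5) (C.cons (nat_lit 300) (C.miq (nat_lit 1099236899) (nat_lit 351807909728598853820350541)) (C.cons (nat_lit 44) (C.node (nat_lit 2) (nat_lit 5) (nat_lit 6) (C.cons (nat_lit 116) (C.miq (nat_lit 844564033) (nat_lit 199475324355514130888786003)) (C.cons (nat_lit 100) (C.node (nat_lit 2) (nat_lit 5) (nat_lit 9) (C.cons (nat_lit 804) (C.miq (nat_lit 1159793030) (nat_lit 45940712385276741455053761)) (C.cons (nat_lit 548) (C.node (nat_lit 5) (nat_lit 8) (nat_lit 9) (C.cons (nat_lit 800) (C.node (nat_lit 2) (nat_lit 6) (nat_lit 9) (C.cons (nat_lit 596) (C.miq (nat_lit 1108711040) (nat_lit 45949677510494335671665601)) (C.cons (nat_lit 580) (C.node (nat_lit 4) (nat_lit 6) (nat_lit 9) (C.cons (nat_lit 592) (C.node (nat_lit 4) (nat_lit 5) (nat_lit 6) (C.cons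 (nat_lit 368) (C.miq (nat_lit 693637190) (nat_lit 967146669476359325852106835)) (C.cons (nat_lit 112) (C.node (nat_lit 5) (nat_lit 6) (nat_lit 8) (C.cons (nat_lit 360) (C.miq (nat_lit 2508260194) (nat_lit 351806987528192153054740557)) (C.cons (nat_lit 352) (C.node (nat_lit 1) (nat_lit 2) (nat_lit 3) C.nil) C.nil))) C.nil))) C.nil)) C.nil))) C.nil)) C.nil))) C.nil))) C.nil))) C.nil)) C.nil)) (C.cons (nat_lit 70) (C.node (nat_lit 1) (nat_lit 6) (nat_lit 8) (C.cons (nat_lit 322) (C.node (nat_lit 1) (nat_lit 2) (nat_lit 7) (C.cons (nat_lit 390) (C.node (nat_lit 1) (nat_lit 3) (nat_lit 8) (C.cons (nat_lit 282) (C.miq (nat_lit 540570945) (nat_lit 320372536474511293034397874)) (C.cons (nat_lit 266) (C.node (nat_lit 1) (nat_lit 4) (nat_lit 8) (C.cons (nat_lit 786) (C.miq (nat_lit 1092982896) (nat_lit 45949677563974856116339649)) (C.cons (nat_lit 274) (C.node (nat_lit 1) (nat_lit 4) (nat_lit 9) (C.cons (nat_lit 530) (C.node (nat_lit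 1) (nat_lit 8) (nat_lit 9) (C.cons (nat_lit 770) (C.node (nat_lit 1) (nat_lit 2) (nat_lit 3) (C.cons (nat_lit 30) (C.node (nat_lit 2) (nat_lit 3) (nat_lit 7) (C.cons (nat_lit 652) (C.miq (nat_lit 840275840) (nat_lit 45949677526257209245369281)) (C.cons (nat_lit 140) (C.node (nat_lit 3) (nat_lit 7) (nat_lit 9) (C.cons (nat_lit 648) (C.node (nat_lit 2) (nat_lit 3) (nat_lit 9) (C.cons (nat_lit 780) (C.miq (nat_lit 2182517568) (nat_lit 84642534913629487797305913)) (C.cons (nat_lit 524) (C.node (nat_lit 3) (nat_lit 8) (nat_lit 9) C.nil) C.nil))) C.nil)) C.nil))) C.nil)) C.nil)) C.nil)) C.nil))) C.nil))) (C.cons (nat_lit 134) (C.node (nat_lit 1) (nat_lit 7) (nat_lit 8) (C.cons (nat_lit 386) (C.ref (nat_lit 54) (nat_lit 636551197200)) C.nil)) C.nil))) C.nil)) C.nil))) C.nil))) C.nil)) (C.cons (nat_lit 50) (C.node (nat_lit 1) (nat_lit 5) (nat_lit 7) (C.cons (nat_lit 162) (C.node (nat_lit 1) (nat_lit 6) (nat_lit 7) (C.cons (nat_lit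 198) (C.node (nat_lit 1) (nat_lit 6) (nat_lit 8) (C.cons (nat_lit 322) (C.node (nat_lit 5) (nat_lit 6) (nat_lit 7) (C.cons (nat_lit 240) (C.miq (nat_lit 2507277409) (nat_lit 199482334256748361637298259)) (C.cons (nat_lit 232) (C.miq (nat_lit 2507211618) (nat_lit 195855556797904439753441357)) (C.cons (nat_lit 224) (C.node (nat_lit 1) (nat_lit 7) (nat_lit 8) (C.cons (nat_lit 402) (C.node (nat_lit 1) (nat_lit 4) (nat_lit 9) (C.cons (nat_lit 530) (C.node (nat_lit 1) (nat_lit 7) (nat_lit 9) (C.cons (nat_lit 642) (C.node (nat_lit 1) (nat_lit 8) (nat_lit 9) (C.cons (nat_lit 770) (C.node (nat_lit 4) (nat_lit 5) (nat_lit 7) (C.cons (nat_lit 176) (C.node (nat_lit 1) (nat_lit 2) (nat_lit 4)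
  (C.cons (nat_lit 30) (C.miq (nat_lit 1900634672) (nat_lit 640748411772540471748395085)) (C.cons (nat_lit 22) (C.node (nat_lit 1) (nat_lit 3) (nat_lit 4) (C.cons (nat_lit 26) (C.node (nat_lit 1) (nat_lit 2) (nat_lit 3) (C.cons (nat_lit 270) (C.node (nat_lit 2) (nat_lit 3) (nat_lit 5) (C.cons (nat_lit 44) (C.node (nat_lit 2) (nat_lit 7) (nat_lit 8) (C.cons (nat_lit 388) (C.node (nat_lit 3) (nat_lit 5) (nat_lit 7) C.nil) C.nil)) C.nil)) C.nil)) C.nil)) C.nil))) C.nil)) C.nil)) C.nil)) C.nil)) (C.cons (nat_lit 386) (C.node (nat_lit 1) (nat_lit 4) (nat_lit 7) (C.cons (nat_lit 658) (C.node (nat_lit 1) (nat_lit 8) (nat_lit 9) (C.cons (nat_lit 770) (C.node (nat_lit 2) (nat_lit 7) (nat_lit 9) (C.cons (nat_lit 652) (C.node (nat_lit 3) (nat_lit 8) (nat_lit 9) (C.cons (nat_lit 776) (C.node (nat_lit 2) (nat_lit 5) (nat_lit 9) (C.cons (nat_lit 804) (C.miq (nat_lit 827486345) (nat_lit 45951208461618238917444545)) (C.cons (nat_lit 548)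 (C.node (nat_lit 5) (nat_lit 8) (nat_lit 9) (C.cons (nat_lit 800) (C.node (nat_lit 2) (nat_lit 6) (nat_lit 9) (C.cons (nat_lit 596) (C.node (nat_lit 2) (nat_lit 8) (nat_lit 9) (C.cons (nat_lit 772) (C.node (nat_lit 4) (nat_lit 8) (nat_lit 9) (C.cons (nat_lit 784) (C.node (nat_lit 3) (nat_lit 5) (nat_lit 7) (C.cons (nat_lit 424) (C.miq (nat_lit 592549760) (nat_lit 50784458467512186495501249)) (C.cons (nat_lit 168) (C.node (nat_lit 2) (nat_lit 3) (nat_lit 5) (C.cons (nat_lit 44) (C.node (nat_lit 2) (nat_lit 4) (nat_lit 5) C.nil) C.nil)) C.nil))) C.nil)) C.nil)) (C.cons (nat_lit 580) (C.miq (nat_lit 1227228017) (nat_lit 701178506616405101302382731)) C.nil))) C.nil)) C.nil))) C.nil)) (C.cons (nat_lit 644) (C.miq (nat_lit 846792212) (nat_lit 778558724050873552899014739)) C.nil))) C.nil)) (C.cons (nat_lit 146) (C.node (nat_lit 1) (nat_lit 7) (nat_lit 9) (C.cons (nat_lit 642) (C.node (nat_lit 3) (nat_lit 6) (nat_lit 7) (C.cons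 (nat_lit 216) (C.miq (nat_lit 1192834592) (nat_lit 776140872450769316303274061)) (C.cons (nat_lit 200) (C.node (nat_lit 4) (nat_lit 6) (nat_lit 7) (C.cons (nat_lit 208) (C.node (nat_lit 2) (nat_lit 6) (nat_lit 9) (C.cons (nat_lit 596) (C.miq (nat_lit 1181979152) (nat_lit 241795660288063712208290311)) (C.cons (nat_lit 580) (C.node (nat_lit 4) (nat_lit 6) (nat_lit 9) (C.cons (nat_lit 592) (C.node (nat_lit 3) (nat_lit 7) (nat_lit 9) (C.cons (nat_lit 652) (C.miq (nat_lit 929337872) (nat_lit 251467066860743344298066439)) C.nil)) C.nil)) C.nil))) C.nil)) C.nil))) C.nil)) C.nil))) C.nil))) C.nil)))) C.nil)) (C.cons (nat_lit 194) (C.node (nat_lit 1) (nat_lit 2) (nat_lit 6) (C.cons (nat_lit 326) (C.node (nat_lit 2) (nat_lit 3) (nat_lit 5) (C.cons (nat_lit 300) (C.miq (nat_lit 1099236899) (nat_lit 351807909728598853820350541)) (C.cons (nat_lit 44) (C.node (nat_lit 2) (nat_lit 5) (nat_lit 9) (C.cons (nat_lit 804) (C.miq (nat_lit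 1159793030) (nat_lit 45940712385276741455053761)) (C.cons (nat_lit 548) (C.node (nat_lit 5) (nat_lit 8) (nat_lit 9) (C.cons (nat_lit 800) (C.node (nat_lit 2) (nat_lit 6) (nat_lit 9) (C.cons (nat_lit 596) (C.miq (nat_lit 1108711040) (nat_lit 45949677510494335671665601)) (C.cons (nat_lit 580) (C.node (nat_lit 4) (nat_lit 6) (nat_lit 9) (C.cons (nat_lit 592) (C.node (nat_lit 5) (nat_lit 6) (nat_lit 8) (C.cons (nat_lit 368) (C.miq (nat_lit 693637190) (nat_lit 967146669476359325852106835)) (C.cons (nat_lit 360) (C.miq (nat_lit 2508260194) (nat_lit 351806987528192153054740557)) (C.cons (nat_lit 352) (C.node (nat_lit 1) (nat_lit 2) (nat_lit 3) (C.cons (nat_lit 30) (C.node (nat_lit 1) (nat_lit 2) (nat_lit 7) (C.cons (nat_lit 134) (C.node (nat_lit 1) (nat_lit 3) (nat_lit 8) (C.cons (nat_lit 266) (C.node (nat_lit 1) (nat_lit 7) (nat_lit 8) (C.cons (nat_lit 402) (C.miq (nat_lit 2551449123) (nat_lit 485998675952957721746997325)) C.nil))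 C.nil)) C.nil)) (C.cons (nat_lit 14) (C.node (nat_lit 1) (nat_lit 8) (nat_lit 9) (C.cons (nat_lit 786) (C.miq (nat_lit 1092851808) (nat_lit 16935457893223481039717313)) (C.cons (nat_lit 770) (C.node (nat_lit 3) (nat_lit 6) (nat_lit 8) (C.cons (nat_lit 344)
  (C.miq (nat_lit 1209611808) (nat_lit 930883377397471197440442445)) (C.cons (nat_lit 328) (C.node (nat_lit 4) (nat_lit 6) (nat_lit 8) (C.cons (nat_lit 336) (C.node (nat_lit 1) (nat_lit 2) (nat_lit 4) (C.cons (nat_lit 150) (C.node (nat_lit 1) (nat_lit 4) (nat_lit 9) C.nil) C.nil)) C.nil)) C.nil))) C.nil))) C.nil))) C.nil)))) C.nil)) C.nil))) C.nil)) C.nil))) C.nil))) (C.cons (nat_lit 70) (C.node (nat_lit 1) (nat_lit 6) (nat_lit 8) (C.cons (nat_lit 322) (C.node (nat_lit 1) (nat_lit 7) (nat_lit 9) (C.cons (nat_lit 658) (C.node (nat_lit 1) (nat_lit 8) (nat_lit 9) (C.cons (nat_lit 770) (C.node (nat_lit 2) (nat_lit 7) (nat_lit 9) (C.cons (nat_lit 652) (C.miq (nat_lit 639053897)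 (nat_lit 234543636304048048252781113)) (C.cons (nat_lit 644) (C.node (nat_lit 3) (nat_lit 7) (nat_lit 9) (C.cons (nat_lit 648) (C.node (nat_lit 2) (nat_lit 6) (nat_lit 9) (C.cons (nat_lit 596) (C.miq (nat_lit 695428112) (nat_lit 783385351677335293062217811)) (C.cons (nat_lit 580) (C.node (nat_lit 4) (nat_lit 6) (nat_lit 9) (C.cons (nat_lit 592) (C.node (nat_lit 1) (nat_lit 2) (nat_lit 7) (C.cons (nat_lit 390) (C.node (nat_lit 1) (nat_lit 2) (nat_lit 3) (C.cons (nat_lit 30) (C.miq (nat_lit 1898353712) (nat_lit 84642534879289540638212665)) (C.cons (nat_lit 14) (C.node (nat_lit 1) (nat_lit 2) (nat_lit 4) (C.cons (nat_lit 22) (C.node (nat_lit 1) (nat_lit 3) (nat_lit 4) (C.cons (nat_lit 282) (C.node (nat_lit 2) (nat_lit 3) (nat_lit 5) (C.cons (nat_lit 300) (C.miq (nat_lit 1160261745) (nat_lit 362682948026377508948934795)) (C.cons (nat_lit 44) (C.node (nat_lit 2) (nat_lit 3) (nat_lit 8) C.nil) C.nil))) C.nil)) C.nil)) C.nil)))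 (C.cons (nat_lit 134) (C.node (nat_lit 1) (nat_lit 7) (nat_lit 8) (C.cons (nat_lit 386) (C.node (nat_lit 1) (nat_lit 3) (nat_lit 4) (C.cons (nat_lit 286) (C.miq (nat_lit 1898353712) (nat_lit 84642534879290640149840441)) (C.cons (nat_lit 282) (C.node (nat_lit 1) (nat_lit 2) (nat_lit 8) C.nil) (C.cons (nat_lit 30) (C.miq (nat_lit 1898353712) (nat_lit 84642534879289540638212665)) C.nil)))) C.nil)) C.nil))) C.nil)) C.nil))) C.nil)) C.nil))) C.nil)) (C.cons (nat_lit 642) (C.node (nat_lit 1) (nat_lit 4) (nat_lit 9) (C.cons (nat_lit 786) (C.node (nat_lit 1) (nat_lit 3) (nat_lit 4) (C.cons (nat_lit 30) (C.miq (nat_lit 2166789168) (nat_lit 84642534915318337657176633)) (C.cons (nat_lit 26) (C.node (nat_lit 1) (nat_lit 7) (nat_lit 8) (C.cons (nat_lit 390) (C.miq (nat_lit 1092982896) (nat_lit 45949677563974856116339649)) (C.cons (nat_lit 386) (C.node (nat_lit 1) (nat_lit 2) (nat_lit 3) (C.cons (nat_lit 270) (C.node (nat_lit 2) (nat_lit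 3) (nat_lit 5) (C.cons (nat_lit 44) (C.node (nat_lit 3) (nat_lit 8) (nat_lit 9) (C.cons (nat_lit 776) (C.node (nat_lit 1) (nat_lit 2) (nat_lit 4) (C.cons (nat_lit 150) (C.node (nat_lit 2) (nat_lit 3) (nat_lit 4) (C.cons (nat_lit 28) (C.node (nat_lit 2) (nat_lit 6) (nat_lit 7) (C.cons (nat_lit 196) (C.node (nat_lit 2) (nat_lit 7) (nat_lit 8) (C.cons (nat_lit 388) (C.node (nat_lit 2) (nat_lit 3) (nat_lit 7) C.nil) C.nil)) C.nil)) C.nil)) C.nil)) C.nil)) C.nil)) C.nil)) C.nil))) C.nil))) (C.cons (nat_lit 530) (C.node (nat_lit 1) (nat_lit 8) (nat_lit 9) (C.cons (nat_lit 770) (C.node (nat_lit 2) (nat_lit 3) (nat_lit 5) (C.cons (nat_lit 300) (C.node (nat_lit 2) (nat_lit 5) (nat_lit 9) (C.cons (nat_lit 548) (C.node (nat_lit 3) (nat_lit 8) (nat_lit 9) (C.cons (nat_lit 776) (C.node (nat_lit 5) (nat_lit 8) (nat_lit 9) (C.cons (nat_lit 800) (C.node (nat_lit 1) (nat_lit 2) (nat_lit 3) (C.cons (nat_lit 30) (C.node (nat_lit 1) (nat_lit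 3) (nat_lit 8) C.nil) C.nil)) C.nil)) C.nil)) C.nil)) (C.cons (nat_lit 44) (C.node (nat_lit 2) (nat_lit 5) (nat_lit 9) (C.cons (nat_lit 804) (C.node (nat_lit 3) (nat_lit 8) (nat_lit 9) (C.cons (nat_lit 776) (C.node (nat_lit 4) (nat_lit 8) (nat_lit 9) (C.cons (nat_lit 784) (C.node (nat_lit 2) (nat_lit 3) (nat_lit 9) (C.cons (nat_lit 652) (C.miq (nat_lit 354617495) (nat_lit 53195300242382600733983681)) (C.cons (nat_lit 524) (C.node (nat_lit 3) (nat_lit 7) (nat_lit 9) C.nil) C.nil))) C.nil)) C.nil))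
  (C.cons (nat_lit 548) (C.node (nat_lit 5) (nat_lit 8) (nat_lit 9) (C.cons (nat_lit 800) (C.node (nat_lit 2) (nat_lit 6) (nat_lit 7) (C.cons (nat_lit 212) (C.node (nat_lit 2) (nat_lit 6) (nat_lit 9) (C.cons (nat_lit 580) (C.node (nat_lit 4) (nat_lit 6) (nat_lit 9) C.nil) C.nil)) (C.cons (nat_lit 196) (C.node (nat_lit 2) (nat_lit 6) (nat_lit 9) (C.cons (nat_lit 596) (C.node (nat_lit 4) (nat_lit 7) (nat_lit 9) (C.cons (nat_lit 656) (C.node (nat_lit 4) (nat_lit 8) (nat_lit 9) C.nil) C.nil)) (C.cons (nat_lit 580) (C.node (nat_lit 4) (nat_lit 6) (nat_lit 9) C.nil) C.nil))) C.nil))) C.nil)) C.nil))) C.nil))) C.nil)) C.nil))) C.nil))) C.nil)) C.nil))) C.nil))) C.nil)) C.nil))) C.nil))) C.nil))) C.nil))) C.nil)) (C.cons (nat_lit 578) (C.node (nat_lit 1) (nat_lit 5) (nat_lit 9) (C.cons (nat_lit 674) (C.node (nat_lit 1) (nat_lit 6) (nat_lit 7) (C.cons (nat_lit 198) (C.miq (nat_lit 957744498) (nat_lit 698760544296711495184941221))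 (C.cons (nat_lit 194) (C.node (nat_lit 5) (nat_lit 6) (nat_lit 9) (C.cons (nat_lit 612) (C.miq (nat_lit 425948448) (nat_lit 706015242942086446484095141)) (C.cons (nat_lit 608) (C.node (nat_lit 1) (nat_lit 4) (nat_lit 5) (C.cons (nat_lit 54) (C.node (nat_lit 1) (nat_lit 2) (nat_lit 7) (C.cons (nat_lit 390) (C.miq (nat_lit 2151840081) (nat_lit 25394636712595855852831394)) (C.cons (nat_lit 134) (C.node (nat_lit 1) (nat_lit 4) (nat_lit 9) (C.cons (nat_lit 786) (C.miq (nat_lit 2166854736) (nat_lit 162013787370654707923354169)) (C.cons (nat_lit 530) (C.node (nat_lit 1) (nat_lit 8) (nat_lit 9) (C.cons (nat_lit 770) (C.node (nat_lit 2) (nat_lit 6) (nat_lit 7) (C.cons (nat_lit 212) (C.miq (nat_lit 2267350593) (nat_lit 199478128509437626461585491)) (C.cons (nat_lit 196) (C.node (nat_lit 4) (nat_lit 7) (nat_lit 9) (C.cons (nat_lit 660) (C.miq (nat_lit 2267089221) (nat_lit 162001428101386046191043129)) (C.cons (nat_lit 656) (C.node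 (nat_lit 4) (nat_lit 5) (nat_lit 7) (C.cons (nat_lit 432) (C.miq (nat_lit 695472261) (nat_lit 793056333937466359327752483)) (C.cons (nat_lit 240) (C.miq (nat_lit 2538735169) (nat_lit 199482334367086552498438227)) (C.cons (nat_lit 176) (C.node (nat_lit 5) (nat_lit 6) (nat_lit 7) (C.cons (nat_lit 232) (C.miq (nat_lit 840261783) (nat_lit 65286273925490878389027777)) (C.cons (nat_lit 224) (C.node (nat_lit 1) (nat_lit 2) (nat_lit 3) (C.cons (nat_lit 270) (C.node (nat_lit 1) (nat_lit 2) (nat_lit 6) (C.cons (nat_lit 70) (C.node (nat_lit 1) (nat_lit 3) (nat_lit 4) (C.cons (nat_lit 26) (C.node (nat_lit 1) (nat_lit 6) (nat_lit 8) (C.cons (nat_lit 322) (C.node (nat_lit 2) (nat_lit 3) (nat_lit 5) (C.cons (nat_lit 44) (C.node (nat_lit 3) (nat_lit 8) (nat_lit 9) (C.cons (nat_lit 776) (C.node (nat_lit 1) (nat_lit 3) (nat_lit 6) (C.cons (nat_lit 106) (C.node (nat_lit 2) (nat_lit 5) (nat_lit 9) (C.cons (nat_lit 804) (C.miq (nat_lit 2182518080)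 (nat_lit 84642534920384990317576761)) (C.cons (nat_lit 548) (C.node (nat_lit 2) (nat_lit 6) (nat_lit 9) (C.cons (nat_lit 596) (C.miq (nat_lit 1645778000) (nat_lit 326427698784764030116627001)) C.nil)) C.nil))) C.nil)) C.nil)) C.nil)) C.nil)) C.nil)) C.nil)) (C.cons (nat_lit 14) (C.node (nat_lit 1) (nat_lit 2) (nat_lit 6) (C.cons (nat_lit 326) (C.node (nat_lit 2) (nat_lit 5) (nat_lit 6) (C.cons (nat_lit 100) (C.node (nat_lit 2) (nat_lit 3) (nat_lit 5) (C.cons (nat_lit 300) (C.miq (nat_lit 1099236899) (nat_lit 351807909728598853820350541)) (C.cons (nat_lit 44) (C.node (nat_lit 2) (nat_lit 4) (nat_lit 6) (C.cons (nat_lit 596) (C.node (nat_lit 4) (nat_lit 8) (nat_lit 9) (C.cons (nat_lit 784) (C.node (nat_lit 2) (nat_lit 5) (nat_lit 8) (C.cons (nat_lit 804) (C.node (nat_lit 1) (nat_lit 5) (nat_lit 6) C.nil) (C.cons (nat_lit 292) (C.miq (nat_lit 2455266320) (nat_lit 353024066816285871960162387)) C.nil))) C.nil)) (C.cons (nat_lit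 84) (C.miq (nat_lit 2518943765) (nat_lit 101560265315505644192006435)) C.nil))) C.nil))) C.nil)) (C.cons (nat_lit 70) (C.node (nat_lit 1) (nat_lit 2) (nat_lit 8) (C.cons (nat_lit 262) (C.node (nat_lit 2) (nat_lit 5) (nat_lit 9) (C.cons (nat_lit 804)
  (C.miq (nat_lit 2182518080) (nat_lit 84642534920384990317576761)) (C.cons (nat_lit 548) (C.node (nat_lit 5) (nat_lit 8) (nat_lit 9) (C.cons (nat_lit 800) (C.node (nat_lit 2) (nat_lit 6) (nat_lit 9) (C.cons (nat_lit 596) (C.miq (nat_lit 1645778000) (nat_lit 316756292227846996718977593)) (C.cons (nat_lit 580) (C.node (nat_lit 4) (nat_lit 6) (nat_lit 9) C.nil) C.nil))) C.nil)) C.nil))) C.nil)) C.nil))) C.nil))) C.nil))) C.nil)))) C.nil))) C.nil))) C.nil)) C.nil))) C.nil))) (C.cons (nat_lit 50) (C.ref (nat_lit 52) (nat_lit 636551197200)) C.nil))) C.nil))) C.nil))) (C.cons (nat_lit 546) (C.node (nat_lit 5) (nat_lit 7) (nat_lit 9) (C.cons (nat_lit 672) (C.node (nat_lit 1) (nat_lit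 7) (nat_lit 9) (C.cons (nat_lit 658) (C.node (nat_lit 1) (nat_lit 8) (nat_lit 9) (C.cons (nat_lit 770) (C.node (nat_lit 1) (nat_lit 4) (nat_lit 5) (C.cons (nat_lit 54) (C.node (nat_lit 1) (nat_lit 7) (nat_lit 8) (C.cons (nat_lit 390) (C.miq (nat_lit 613881096) (nat_lit 795480383551816836323541283)) (C.cons (nat_lit 386) (C.node (nat_lit 1) (nat_lit 2) (nat_lit 7) (C.cons (nat_lit 198) (C.miq (nat_lit 873597302) (nat_lit 65283414818645738919429057)) (C.cons (nat_lit 134) (C.node (nat_lit 2) (nat_lit 6) (nat_lit 7) (C.cons (nat_lit 212) (C.miq (nat_lit 2267350593) (nat_lit 199478128509437626461585491)) (C.cons (nat_lit 196) (C.node (nat_lit 2) (nat_lit 7) (nat_lit 9) (C.cons (nat_lit 652) (C.miq (nat_lit 388385072) (nat_lit 236950991909438771134530105)) (C.cons (nat_lit 644) (C.node (nat_lit 3) (nat_lit 7) (nat_lit 9) (C.cons (nat_lit 648) (C.node (nat_lit 4) (nat_lit 6) (nat_lit 9) (C.cons (nat_lit 596) (C.miq (nat_lit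 826410902) (nat_lit 65283414697611498959930305)) (C.cons (nat_lit 592) (C.node (nat_lit 1) (nat_lit 2) (nat_lit 6) (C.cons (nat_lit 326) (C.miq (nat_lit 613815560) (nat_lit 715690098865630593381630243)) (C.cons (nat_lit 70) (C.node (nat_lit 5) (nat_lit 8) (nat_lit 9) (C.cons (nat_lit 804) (C.miq (nat_lit 2182518080) (nat_lit 84642534920384990317576761)) (C.cons (nat_lit 800) (C.node (nat_lit 4) (nat_lit 5) (nat_lit 6) (C.cons (nat_lit 368) (C.miq (nat_lit 696586340) (nat_lit 967141651961972960481247315)) (C.cons (nat_lit 240) (C.miq (nat_lit 2538735169) (nat_lit 199482334367086552498438227)) (C.cons (nat_lit 112) (C.node (nat_lit 4) (nat_lit 5) (nat_lit 7) (C.cons (nat_lit 432) (C.miq (nat_lit 695472261) (nat_lit 795474185576695617677164835)) (C.cons (nat_lit 176) (C.node (nat_lit 4) (nat_lit 5) (nat_lit 8) (C.cons (nat_lit 304) (C.node (nat_lit 4) (nat_lit 6) (nat_lit 7) (C.cons (nat_lit 216) (C.miq (nat_lit 840196247)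 (nat_lit 65285978777585699035153345)) (C.cons (nat_lit 208) (C.node (nat_lit 1) (nat_lit 2) (nat_lit 3) (C.cons (nat_lit 270) (C.node (nat_lit 1) (nat_lit 3) (nat_lit 4) (C.cons (nat_lit 26) (C.node (nat_lit 1) (nat_lit 4) (nat_lit 8) (C.cons (nat_lit 274) (C.node (nat_lit 1) (nat_lit 6) (nat_lit 8) C.nil) C.nil)) C.nil)) (C.cons (nat_lit 14) (C.node (nat_lit 1) (nat_lit 2) (nat_lit 8) (C.cons (nat_lit 262) (C.node (nat_lit 1) (nat_lit 3) (nat_lit 4) (C.cons (nat_lit 282) (C.node (nat_lit 1) (nat_lit 6) (nat_lit 8) C.nil) C.nil)) C.nil)) C.nil))) C.nil))) C.nil)) C.nil))) C.nil)))) C.nil))) C.nil))) C.nil))) C.nil)) C.nil))) C.nil))) C.nil))) C.nil))) (C.cons (nat_lit 50) (C.node (nat_lit 1) (nat_lit 5) (nat_lit 7) (C.cons (nat_lit 226) (C.node (nat_lit 2) (nat_lit 7) (nat_lit 9) (C.cons (nat_lit 652) (C.miq (nat_lit 639053897) (nat_lit 273229262531716181843378745)) (C.cons (nat_lit 644) (C.node (nat_lit 3) (nat_lit 7)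 (nat_lit 9) (C.cons (nat_lit 648) (C.node (nat_lit 3) (nat_lit 6) (nat_lit 7) (C.cons (nat_lit 216) (C.miq (nat_lit 561383747) (nat_lit 273218655778288208134537785)) (C.cons (nat_lit 200) (C.node (nat_lit 4) (nat_lit 6) (nat_lit 9) (C.cons (nat_lit 596) (C.miq (nat_lit 1194758402) (nat_lit 241796158367604897515110919)) (C.cons (nat_lit 592) (C.node (nat_lit 1) (nat_lit 2) (nat_lit 5) (C.cons (nat_lit 46) (C.node (nat_lit 1) (nat_lit 2) (nat_lit 6) (C.cons (nat_lit 326)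
  (C.miq (nat_lit 2170118704) (nat_lit 660091224922403404282134605)) (C.cons (nat_lit 70) (C.node (nat_lit 1) (nat_lit 2) (nat_lit 7) (C.cons (nat_lit 390) (C.miq (nat_lit 963793025) (nat_lit 778549076542211968387645731)) (C.cons (nat_lit 134) (C.node (nat_lit 1) (nat_lit 7) (nat_lit 8) (C.cons (nat_lit 386) (C.node (nat_lit 1) (nat_lit 3) (nat_lit 6) (C.cons (nat_lit 330) (C.miq (nat_lit 2169987872) (nat_lit 273234962646847968256524365)) (C.cons (nat_lit 74) (C.node (nat_lit 1) (nat_lit 6) (nat_lit 8) (C.cons (nat_lit 322) (C.node (nat_lit 2) (nat_lit 6) (nat_lit 9) (C.cons (nat_lit 612) (C.miq (nat_lit 1645712688) (nat_lit 162013787321678027614257721)) C.nil)) C.nil)) C.nil))) C.nil)) C.nil))) C.nil))) (C.cons (nat_lit 38) (C.node (nat_lit 1) (nat_lit 3) (nat_lit 5) (C.cons (nat_lit 42) (C.node (nat_lit 1) (nat_lit 2) (nat_lit 6) (C.cons (nat_lit 326) (C.node (nat_lit 1) (nat_lit 2) (nat_lit 7) (C.cons (nat_lit 134)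 (C.node (nat_lit 1) (nat_lit 3) (nat_lit 6) (C.cons (nat_lit 74) (C.node (nat_lit 1) (nat_lit 7) (nat_lit 8) (C.cons (nat_lit 386) (C.node (nat_lit 2) (nat_lit 3) (nat_lit 9) (C.cons (nat_lit 780) (C.miq (nat_lit 1099499043) (nat_lit 930883377324006228536066125)) C.nil)) C.nil)) C.nil)) C.nil)) (C.cons (nat_lit 70) (C.node (nat_lit 1) (nat_lit 2) (nat_lit 7) (C.cons (nat_lit 390) (C.node (nat_lit 1) (nat_lit 2) (nat_lit 3) (C.cons (nat_lit 30) (C.miq (nat_lit 1898353712) (nat_lit 84642534879289540638212665)) (C.cons (nat_lit 14) (C.node (nat_lit 1) (nat_lit 2) (nat_lit 4) (C.cons (nat_lit 22) (C.node (nat_lit 2) (nat_lit 4) (nat_lit 9) (C.cons (nat_lit 788) (C.miq (nat_lit 1108580464) (nat_lit 16935457893786705875108801)) C.nil)) C.nil)) C.nil))) (C.cons (nat_lit 134) (C.node (nat_lit 1) (nat_lit 7) (nat_lit 8) (C.cons (nat_lit 386) (C.node (nat_lit 2) (nat_lit 3) (nat_lit 9) (C.cons (nat_lit 780) (C.node (nat_lit 2) (nat_lit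 4) (nat_lit 9) C.nil) C.nil)) C.nil)) C.nil))) C.nil))) C.nil)) C.nil))) C.nil))) C.nil))) C.nil)) C.nil))) (C.cons (nat_lit 162) (C.node (nat_lit 1) (nat_lit 6) (nat_lit 7) (C.cons (nat_lit 198) (C.node (nat_lit 1) (nat_lit 7) (nat_lit 8) (C.cons (nat_lit 386) (C.node (nat_lit 1) (nat_lit 2) (nat_lit 5) (C.cons (nat_lit 46) (C.miq (nat_lit 1092851552) (nat_lit 55621084084862267855537089)) (C.cons (nat_lit 38) (C.node (nat_lit 2) (nat_lit 7) (nat_lit 9) (C.cons (nat_lit 652) (C.node (nat_lit 3) (nat_lit 8) (nat_lit 9) (C.cons (nat_lit 776) (C.node (nat_lit 4) (nat_lit 6) (nat_lit 9) (C.cons (nat_lit 596) (C.node (nat_lit 4) (nat_lit 8) (nat_lit 9) (C.cons (nat_lit 784) (C.node (nat_lit 5) (nat_lit 6) (nat_lit 9) (C.cons (nat_lit 608) (C.node (nat_lit 2) (nat_lit 5) (nat_lit 9) (C.cons (nat_lit 804) (C.miq (nat_lit 1095917705) (nat_lit 45950175428187512486757313)) (C.cons (nat_lit 548) (C.node (nat_lit 2) (nat_lit 8) (nat_lit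 9) (C.cons (nat_lit 772) (C.node (nat_lit 5) (nat_lit 8) (nat_lit 9) (C.cons (nat_lit 800) (C.node (nat_lit 1) (nat_lit 3) (nat_lit 5) (C.cons (nat_lit 106) (C.node (nat_lit 3) (nat_lit 5) (nat_lit 7) (C.cons (nat_lit 424) (C.miq (nat_lit 592549760) (nat_lit 128155710922848453676696513)) C.nil)) C.nil)) C.nil)) C.nil)) C.nil))) C.nil)) C.nil)) (C.cons (nat_lit 592) (C.miq (nat_lit 642347267) (nat_lit 715696112544728931961995403)) C.nil))) C.nil)) (C.cons (nat_lit 644) (C.miq (nat_lit 846792212) (nat_lit 778558724050873552899014739)) C.nil))) C.nil))) C.nil)) (C.cons (nat_lit 194) (C.node (nat_lit 2) (nat_lit 7) (nat_lit 9) (C.cons (nat_lit 652) (C.miq (nat_lit 639053897) (nat_lit 234543636304048048252781113)) (C.cons (nat_lit 644) (C.node (nat_lit 3) (nat_lit 7) (nat_lit 9) (C.cons (nat_lit 648) (C.node (nat_lit 4) (nat_lit 6) (nat_lit 9) (C.cons (nat_lit 596) (C.miq (nat_lit 695428112) (nat_lit 783385351677335293062217811))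 (C.cons (nat_lit 592) (C.node (nat_lit 1) (nat_lit 2) (nat_lit 7) (C.cons (nat_lit 390) (C.node (nat_lit 1) (nat_lit 2) (nat_lit 4) (C.cons (nat_lit 30) (C.miq (nat_lit 1729235267) (nat_lit 471482490319499332480270905)) (C.cons (nat_lit 22)
  (C.node (nat_lit 1) (nat_lit 2) (nat_lit 3) (C.cons (nat_lit 46) (C.miq (nat_lit 963793025) (nat_lit 778549076542211968387645731)) (C.cons (nat_lit 14) (C.node (nat_lit 2) (nat_lit 4) (nat_lit 9) (C.cons (nat_lit 788) (C.miq (nat_lit 1108580464) (nat_lit 16935457893786705875108801)) (C.cons (nat_lit 532) (C.node (nat_lit 4) (nat_lit 8) (nat_lit 9) (C.cons (nat_lit 784) (C.node (nat_lit 1) (nat_lit 2) (nat_lit 5) (C.cons (nat_lit 102) (C.node (nat_lit 1) (nat_lit 3) (nat_lit 5) C.nil) C.nil)) C.nil)) C.nil))) C.nil))) C.nil))) (C.cons (nat_lit 134) (C.node (nat_lit 1) (nat_lit 7) (nat_lit 8) (C.cons (nat_lit 386) (C.ref (nat_lit 53) (nat_lit 636551197200)) C.nil)) C.nil))) C.nil)))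 C.nil)) C.nil))) C.nil))) C.nil))) C.nil))) C.nil)) (C.cons (nat_lit 642) (C.node (nat_lit 1) (nat_lit 4) (nat_lit 9) (C.cons (nat_lit 786) (C.node (nat_lit 1) (nat_lit 3) (nat_lit 4) (C.cons (nat_lit 30) (C.node (nat_lit 1) (nat_lit 2) (nat_lit 5) (C.cons (nat_lit 102) (C.miq (nat_lit 2166789168) (nat_lit 123328161142986471247774265)) (C.cons (nat_lit 38) (C.node (nat_lit 1) (nat_lit 3) (nat_lit 8) (C.cons (nat_lit 330) (C.miq (nat_lit 646000788) (nat_lit 398946073896827539661390393)) (C.cons (nat_lit 266) (C.node (nat_lit 1) (nat_lit 6) (nat_lit 8) (C.cons (nat_lit 326) (C.node (nat_lit 1) (nat_lit 2) (nat_lit 7) (C.cons (nat_lit 134) (C.node (nat_lit 1) (nat_lit 7) (nat_lit 8) (C.cons (nat_lit 386) (C.node (nat_lit 2) (nat_lit 3) (nat_lit 5) (C.cons (nat_lit 300) (C.miq (nat_lit 1099236899) (nat_lit 351807909728598853820350541)) (C.cons (nat_lit 44) (C.node (nat_lit 3) (nat_lit 7) (nat_lit 9) (C.cons (nat_lit 652) (C.miq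 (nat_lit 1914082112) (nat_lit 394127544698945759503123001)) (C.cons (nat_lit 648) (C.node (nat_lit 2) (nat_lit 3) (nat_lit 7) (C.cons (nat_lit 396) (C.miq (nat_lit 1182929011) (nat_lit 394110370620057872797270155)) (C.cons (nat_lit 140) (C.node (nat_lit 2) (nat_lit 3) (nat_lit 8) (C.cons (nat_lit 780) (C.node (nat_lit 5) (nat_lit 8) (nat_lit 9) (C.cons (nat_lit 800) (C.node (nat_lit 2) (nat_lit 7) (nat_lit 9) (C.cons (nat_lit 660) (C.miq (nat_lit 1363282071) (nat_lit 36270818383123631427552193)) (C.cons (nat_lit 644) (C.node (nat_lit 4) (nat_lit 7) (nat_lit 9) (C.cons (nat_lit 656) (C.node (nat_lit 2) (nat_lit 6) (nat_lit 7) C.nil) C.nil)) C.nil))) C.nil)) (C.cons (nat_lit 268) (C.miq (nat_lit 2468888673) (nat_lit 324006618957722147011035219)) C.nil))) C.nil))) C.nil))) C.nil))) C.nil)) C.nil)) (C.cons (nat_lit 322) (C.miq (nat_lit 646000788) (nat_lit 389274667339910506263740985)) C.nil))) C.nil))) C.nil))) (C.cons (nat_lit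 26) (C.node (nat_lit 1) (nat_lit 7) (nat_lit 8) (C.cons (nat_lit 390) (C.node (nat_lit 1) (nat_lit 2) (nat_lit 3) (C.cons (nat_lit 46) (C.miq (nat_lit 1092982896) (nat_lit 55621084120891889513989057)) (C.cons (nat_lit 14) (C.node (nat_lit 1) (nat_lit 2) (nat_lit 4) (C.cons (nat_lit 54) (C.node (nat_lit 1) (nat_lit 2) (nat_lit 6) (C.cons (nat_lit 70) (C.node (nat_lit 1) (nat_lit 4) (nat_lit 7) (C.cons (nat_lit 146) (C.node (nat_lit 2) (nat_lit 7) (nat_lit 6) (C.cons (nat_lit 212) (C.miq (nat_lit 2168849703) (nat_lit 100358570430978506544644261)) (C.cons (nat_lit 196) (C.node (nat_lit 7) (nat_lit 3) (nat_lit 9) (C.cons (nat_lit 652) (C.miq (nat_lit 840275840) (nat_lit 65292490640091276040668097)) (C.cons (nat_lit 648) (C.node (nat_lit 2) (nat_lit 7) (nat_lit 3) (C.cons (nat_lit 156) (C.miq (nat_lit 2235699255) (nat_lit 65289188571290384228679819)) (C.cons (nat_lit 140) (C.node (nat_lit 2) (nat_lit 7) (nat_lit 4) (C.cons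 (nat_lit 660) (C.node (nat_lit 6) (nat_lit 4) (nat_lit 9) (C.cons (nat_lit 592) (C.node (nat_lit 2) (nat_lit 3) (nat_lit 9) (C.cons (nat_lit 780) (C.miq (nat_lit 1635910803) (nat_lit 471482490072364852733280825)) (C.cons (nat_lit 524) (C.node (nat_lit 8) (nat_lit 3) (nat_lit 9) (C.cons (nat_lit 776) (C.node (nat_lit 2) (nat_lit 5) (nat_lit 3) C.nil) C.nil)) C.nil))) C.nil)) (C.cons (nat_lit 148)
  (C.miq (nat_lit 2535751761) (nat_lit 178935520714305214856167715)) C.nil))) C.nil))) C.nil))) C.nil))) C.nil)) C.nil)) (C.cons (nat_lit 22) (C.miq (nat_lit 1410468231) (nat_lit 26599411904456641537770433)) C.nil))) C.nil))) (C.cons (nat_lit 386) (C.node (nat_lit 3) (nat_lit 7) (nat_lit 9) (C.cons (nat_lit 652) (C.node (nat_lit 3) (nat_lit 8) (nat_lit 9) (C.cons (nat_lit 776) (C.node (nat_lit 4) (nat_lit 7) (nat_lit 9) (C.cons (nat_lit 656) (C.node (nat_lit 2) (nat_lit 4) (nat_lit 9) (C.cons (nat_lit 596) (C.miq (nat_lit 605263367)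 (nat_lit 31444098754875859780961217)) (C.cons (nat_lit 532) (C.node (nat_lit 4) (nat_lit 6) (nat_lit 9) (C.cons (nat_lit 592) (C.node (nat_lit 2) (nat_lit 8) (nat_lit 9) (C.cons (nat_lit 804) (C.miq (nat_lit 655921925) (nat_lit 466660197737004405750956601)) (C.cons (nat_lit 772) (C.node (nat_lit 5) (nat_lit 8) (nat_lit 9) (C.cons (nat_lit 800) (C.node (nat_lit 3) (nat_lit 4) (nat_lit 6) (C.cons (nat_lit 344) (C.miq (nat_lit 558041478) (nat_lit 31433491855362922957505473)) (C.cons (nat_lit 216) (C.miq (nat_lit 591501152) (nat_lit 31441645353677226333373377)) (C.cons (nat_lit 88) (C.node (nat_lit 5) (nat_lit 7) (nat_lit 8) (C.cons (nat_lit 432) (C.miq (nat_lit 562497861) (nat_lit 466648410230107912298037817)) (C.cons (nat_lit 424) (C.miq (nat_lit 662803280) (nat_lit 466654940414944622594425401)) (C.cons (nat_lit 416) (C.node (nat_lit 2) (nat_lit 3) (nat_lit 4) (C.cons (nat_lit 284) (C.node (nat_lit 2) (nat_lit 7) (nat_lit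 8) (C.cons (nat_lit 388) (C.node (nat_lit 3) (nat_lit 4) (nat_lit 7) (C.cons (nat_lit 152) (C.node (nat_lit 3) (nat_lit 7) (nat_lit 8) (C.cons (nat_lit 392) (C.node (nat_lit 4) (nat_lit 7) (nat_lit 8) C.nil) C.nil)) C.nil)) C.nil)) (C.cons (nat_lit 28) (C.node (nat_lit 2) (nat_lit 5) (nat_lit 9) (C.cons (nat_lit 612) (C.node (nat_lit 3) (nat_lit 5) (nat_lit 7) (C.cons (nat_lit 232) (C.miq (nat_lit 1972450848) (nat_lit 660076061672318598168117325)) (C.cons (nat_lit 168) (C.node (nat_lit 3) (nat_lit 6) (nat_lit 7) (C.cons (nat_lit 200) (C.node (nat_lit 1) (nat_lit 2) (nat_lit 5) (C.cons (nat_lit 54) (C.miq (nat_lit 662786196) (nat_lit 466646362541874340424712761)) (C.cons (nat_lit 46) (C.miq (nat_lit 562509065) (nat_lit 466657393661332018891391545)) (C.cons (nat_lit 38) (C.node (nat_lit 1) (nat_lit 2) (nat_lit 6) (C.cons (nat_lit 326) (C.miq (nat_lit 591487128) (nat_lit 31438084970224404950811585)) (C.cons (nat_lit 198)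 (C.miq (nat_lit 338845847) (nat_lit 33853575427901078329099201)) (C.cons (nat_lit 70) (C.node (nat_lit 3) (nat_lit 4) (nat_lit 8) (C.cons (nat_lit 408) (C.node (nat_lit 1) (nat_lit 2) (nat_lit 4) C.nil) C.nil)) C.nil)))) C.nil)))) C.nil)) C.nil))) (C.cons (nat_lit 548) (C.node (nat_lit 2) (nat_lit 6) (nat_lit 9) (C.cons (nat_lit 580) (C.node (nat_lit 5) (nat_lit 6) (nat_lit 9) (C.cons (nat_lit 608) (C.node (nat_lit 3) (nat_lit 4) (nat_lit 7) (C.cons (nat_lit 408) (C.node (nat_lit 1) (nat_lit 2) (nat_lit 4) C.nil) C.nil)) C.nil)) C.nil)) C.nil))) C.nil))) C.nil)))) C.nil)))) C.nil)) C.nil))) C.nil)) C.nil))) C.nil)) C.nil)) (C.cons (nat_lit 648) (C.node (nat_lit 2) (nat_lit 3) (nat_lit 9) (C.cons (nat_lit 780) (C.node (nat_lit 1) (nat_lit 2) (nat_lit 8) (C.cons (nat_lit 326) (C.miq (nat_lit 591487128) (nat_lit 31438084970224404950811585)) (C.cons (nat_lit 262) (C.miq (nat_lit 1635910803) (nat_lit 316739985161692318370890297))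 C.nil))) (C.cons (nat_lit 524) (C.node (nat_lit 3) (nat_lit 8) (nat_lit 9) (C.cons (nat_lit 776) (C.node (nat_lit 2) (nat_lit 7) (nat_lit 9) (C.cons (nat_lit 660) (C.node (nat_lit 1) (nat_lit 2) (nat_lit 4) (C.cons (nat_lit 54) (C.miq (nat_lit 662786196) (nat_lit 466646362541874340424712761)) (C.cons (nat_lit 22) (C.miq (nat_lit 1363282071) (nat_lit 26599411826206598029902785)) C.nil))) (C.cons (nat_lit 644) (C.node (nat_lit 4) (nat_lit 7) (nat_lit 9) (C.cons (nat_lit 656) (C.node (nat_lit 2) (nat_lit 4) (nat_lit 9) (C.cons (nat_lit 596) (C.node (nat_lit 5) (nat_lit 6) (nat_lit 9) (C.cons (nat_lit 608) (C.node (nat_lit 2) (nat_lit 5) (nat_lit 9)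
  (C.cons (nat_lit 804) (C.miq (nat_lit 1382058305) (nat_lit 93092656339160337013211922)) (C.cons (nat_lit 548) (C.node (nat_lit 2) (nat_lit 8) (nat_lit 9) (C.cons (nat_lit 772) (C.node (nat_lit 5) (nat_lit 8) (nat_lit 9) (C.cons (nat_lit 800) (C.node (nat_lit 2) (nat_lit 6) (nat_lit 7) (C.cons (nat_lit 198) (C.miq (nat_lit 557082377) (nat_lit 31443065625180931861578689)) (C.cons (nat_lit 196) (C.node (nat_lit 3) (nat_lit 4) (nat_lit 6) (C.cons (nat_lit 344) (C.miq (nat_lit 558041478) (nat_lit 31433491855362922957505473)) (C.cons (nat_lit 216) (C.miq (nat_lit 607229552) (nat_lit 31441645337914627641246657)) (C.cons (nat_lit 88) (C.node (nat_lit 4) (nat_lit 6) (nat_lit 8) (C.cons (nat_lit 368) (C.miq (nat_lit 642815105) (nat_lit 117275378530553951890375442)) (C.cons (nat_lit 336) (C.node (nat_lit 1) (nat_lit 2) (nat_lit 7) (C.cons (nat_lit 150) (C.node (nat_lit 1) (nat_lit 4) (nat_lit 5) (C.cons (nat_lit 50) (C.node (nat_lit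 2) (nat_lit 3) (nat_lit 4) C.nil) C.nil)) (C.cons (nat_lit 134) (C.node (nat_lit 1) (nat_lit 2) (nat_lit 4) (C.cons (nat_lit 54) (C.miq (nat_lit 2166854736) (nat_lit 162013787370654707923354169)) C.nil)) C.nil))) C.nil))) C.nil)))) C.nil))) C.nil)) C.nil)) C.nil))) C.nil)) (C.cons (nat_lit 532) (C.node (nat_lit 4) (nat_lit 6) (nat_lit 9) (C.cons (nat_lit 592) (C.node (nat_lit 2) (nat_lit 6) (nat_lit 9) (C.cons (nat_lit 612) (C.node (nat_lit 2) (nat_lit 8) (nat_lit 9) (C.cons (nat_lit 772) (C.node (nat_lit 5) (nat_lit 8) (nat_lit 9) (C.cons (nat_lit 800) (C.node (nat_lit 1) (nat_lit 2) (nat_lit 5) (C.cons (nat_lit 54) (C.miq (nat_lit 662786196) (nat_lit 466646362541874340424712761)) (C.cons (nat_lit 46) (C.miq (nat_lit 2035353123) (nat_lit 660076061877513856159187021)) (C.cons (nat_lit 38) (C.node (nat_lit 1) (nat_lit 2) (nat_lit 6) (C.cons (nat_lit 326) (C.miq (nat_lit 591487128) (nat_lit 31438084970224404950811585)) (C.cons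 (nat_lit 198) (C.miq (nat_lit 891357543) (nat_lit 45941745402944044547834817)) (C.cons (nat_lit 70) (C.node (nat_lit 1) (nat_lit 2) (nat_lit 3) (C.cons (nat_lit 270) (C.node (nat_lit 1) (nat_lit 6) (nat_lit 8) C.nil) C.nil)) C.nil)))) C.nil)))) C.nil)) C.nil)) (C.cons (nat_lit 580) (C.node (nat_lit 5) (nat_lit 6) (nat_lit 9) (C.cons (nat_lit 608) (C.node (nat_lit 2) (nat_lit 5) (nat_lit 9) (C.cons (nat_lit 804) (C.node (nat_lit 2) (nat_lit 5) (nat_lit 3) (C.cons (nat_lit 46) (C.miq (nat_lit 561533705) (nat_lit 466660197566430569908208185)) (C.cons (nat_lit 44) (C.node (nat_lit 7) (nat_lit 8) (nat_lit 5) (C.cons (nat_lit 432) (C.miq (nat_lit 562497861) (nat_lit 466648410230107912298037817)) (C.cons (nat_lit 424) (C.miq (nat_lit 678532400) (nat_lit 466654940457728819044483641)) (C.cons (nat_lit 416) (C.node (nat_lit 8) (nat_lit 5) (nat_lit 4) (C.cons (nat_lit 368) (C.miq (nat_lit 627087425) (nat_lit 117275378589100747032560402))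 (C.cons (nat_lit 304) (C.node (nat_lit 1) (nat_lit 2) (nat_lit 3) (C.cons (nat_lit 270) (C.node (nat_lit 1) (nat_lit 8) (nat_lit 6) (C.cons (nat_lit 322) (C.node (nat_lit 2) (nat_lit 7) (nat_lit 8) C.nil) C.nil)) (C.cons (nat_lit 14) (C.node (nat_lit 1) (nat_lit 2) (nat_lit 8) (C.cons (nat_lit 326) (C.miq (nat_lit 1092851808) (nat_lit 16935457893223481039717313)) C.nil)) C.nil))) C.nil))) C.nil)))) C.nil))) C.nil)) C.nil)) C.nil))) C.nil)) C.nil))) C.nil)) C.nil))) C.nil)) C.nil))) C.nil))) C.nil))) C.nil))) (C.cons (nat_lit 530) (C.node (nat_lit 1) (nat_lit 8) (nat_lit 9) (C.cons (nat_lit 770) (C.node (nat_lit 3) (nat_lit 7) (nat_lit 9) (C.cons (nat_lit 652) (C.node (nat_lit 3) (nat_lit 8) (nat_lit 9) (C.cons (nat_lit 776) (C.node (nat_lit 4) (nat_lit 7) (nat_lit 9) (C.cons (nat_lit 656) (C.node (nat_lit 4) (nat_lit 6) (nat_lit 9) (C.cons (nat_lit 596) (C.miq (nat_lit 1232167472) (nat_lit 776131907440111934501486669))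 (C.cons (nat_lit 592) (C.node (nat_lit 5) (nat_lit 8) (nat_lit 9) (C.cons (nat_lit 804) (C.miq (nat_lit 964784720) (nat_lit 930875445384215848139554981)) (C.cons (nat_lit 800) (C.node (nat_lit 2) (nat_lit 4) (nat_lit 9) (C.cons (nat_lit 788)
  (C.node (nat_lit 2) (nat_lit 3) (nat_lit 4) (C.cons (nat_lit 30) (C.miq (nat_lit 1763968817) (nat_lit 952635077206586160500834443)) (C.cons (nat_lit 28) (C.node (nat_lit 2) (nat_lit 7) (nat_lit 8) (C.cons (nat_lit 390) (C.miq (nat_lit 323121304) (nat_lit 33857117218525829267719105)) (C.cons (nat_lit 388) (C.node (nat_lit 3) (nat_lit 4) (nat_lit 7) (C.cons (nat_lit 408) (C.miq (nat_lit 306383239) (nat_lit 33852487192724759893246913)) (C.cons (nat_lit 216) (C.miq (nat_lit 305400182) (nat_lit 33851454175056048030221249)) (C.cons (nat_lit 152) (C.node (nat_lit 3) (nat_lit 7) (nat_lit 8) (C.cons (nat_lit 424) (C.miq (nat_lit 309856565) (nat_lit 469068586159089882524811833)) (C.cons (nat_lit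 392) (C.node (nat_lit 1) (nat_lit 3) (nat_lit 4) (C.cons (nat_lit 282) (C.node (nat_lit 1) (nat_lit 7) (nat_lit 8) (C.cons (nat_lit 386) (C.node (nat_lit 3) (nat_lit 4) (nat_lit 6) (C.cons (nat_lit 88) (C.node (nat_lit 1) (nat_lit 2) (nat_lit 3) (C.cons (nat_lit 46) (C.miq (nat_lit 410144915) (nat_lit 469064066642616856154473017)) (C.cons (nat_lit 14) (C.node (nat_lit 1) (nat_lit 2) (nat_lit 8) (C.cons (nat_lit 326) (C.node (nat_lit 1) (nat_lit 2) (nat_lit 5) C.nil) C.nil)) C.nil))) C.nil)) C.nil)) (C.cons (nat_lit 26) (C.node (nat_lit 1) (nat_lit 4) (nat_lit 8) (C.cons (nat_lit 402) (C.node (nat_lit 7) (nat_lit 8) (nat_lit 5) (C.cons (nat_lit 416) (C.node (nat_lit 1) (nat_lit 2) (nat_lit 7) (C.cons (nat_lit 198) (C.miq (nat_lit 338845847) (nat_lit 33853575427901078329099201)) (C.cons (nat_lit 134) (C.node (nat_lit 1) (nat_lit 2) (nat_lit 4) (C.cons (nat_lit 54) (C.node (nat_lit 1) (nat_lit 2) (nat_lit 6) C.nil) C.nil))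 C.nil))) C.nil)) (C.cons (nat_lit 274) (C.node (nat_lit 1) (nat_lit 7) (nat_lit 8) C.nil) C.nil))) C.nil))) C.nil))) C.nil)))) C.nil))) C.nil))) (C.cons (nat_lit 532) (C.node (nat_lit 2) (nat_lit 8) (nat_lit 9) (C.cons (nat_lit 772) (C.node (nat_lit 4) (nat_lit 8) (nat_lit 9) (C.cons (nat_lit 784) (C.node (nat_lit 2) (nat_lit 5) (nat_lit 9) (C.cons (nat_lit 612) (C.node (nat_lit 3) (nat_lit 5) (nat_lit 7) (C.cons (nat_lit 424) (C.miq (nat_lit 2207340320) (nat_lit 631064645960710069154152613)) (C.cons (nat_lit 232) (C.miq (nat_lit 1972450848) (nat_lit 660076061672318598168117325)) (C.cons (nat_lit 168) (C.node (nat_lit 3) (nat_lit 6) (nat_lit 7) (C.cons (nat_lit 216) (C.miq (nat_lit 1200710432) (nat_lit 776131907333151443376341069)) (C.cons (nat_lit 200) (C.node (nat_lit 3) (nat_lit 4) (nat_lit 6) (C.cons (nat_lit 344) (C.node (nat_lit 3) (nat_lit 4) (nat_lit 7) (C.cons (nat_lit 152) (C.node (nat_lit 1) (nat_lit 3) (nat_lit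 4) C.nil) C.nil)) (C.cons (nat_lit 88) (C.node (nat_lit 3) (nat_lit 4) (nat_lit 7) (C.cons (nat_lit 408) (C.node (nat_lit 1) (nat_lit 3) (nat_lit 4) C.nil) (C.cons (nat_lit 152) (C.node (nat_lit 3) (nat_lit 7) (nat_lit 8) (C.cons (nat_lit 392) (C.node (nat_lit 5) (nat_lit 7) (nat_lit 8) C.nil) C.nil)) C.nil))) C.nil))) C.nil))) C.nil)))) C.nil)) C.nil)) C.nil)) C.nil))) C.nil))) C.nil))) C.nil)) C.nil)) (C.cons (nat_lit 648) (C.node (nat_lit 2) (nat_lit 3) (nat_lit 9) (C.cons (nat_lit 780) (C.node (nat_lit 4) (nat_lit 8) (nat_lit 9) (C.cons (nat_lit 784) (C.node (nat_lit 5) (nat_lit 8) (nat_lit 9) (C.cons (nat_lit 800) (C.node (nat_lit 2) (nat_lit 3) (nat_lit 5) (C.cons (nat_lit 46) (C.node (nat_lit 1) (nat_lit 3) (nat_lit 6) (C.cons (nat_lit 330) (C.miq (nat_lit 2014643762) (nat_lit 351800457491128121876676685)) (C.cons (nat_lit 74) (C.node (nat_lit 1) (nat_lit 6) (nat_lit 8) (C.cons (nat_lit 326) (C.miq (nat_lit 1126238598)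 (nat_lit 55612118942193671773488065)) (C.cons (nat_lit 322) (C.node (nat_lit 1) (nat_lit 2) (nat_lit 6) (C.cons (nat_lit 198) (C.miq (nat_lit 1901683248) (nat_lit 660091224886374607263170637)) (C.cons (nat_lit 70) (C.node (nat_lit 2) (nat_lit 5) (nat_lit 9) (C.cons (nat_lit 612) (C.miq (nat_lit 1981876563) (nat_lit 84627371740950368999047737)) (C.cons (nat_lit 548) (C.node (nat_lit 5) (nat_lit 6) (nat_lit 9) (C.cons (nat_lit 608)
  (C.node (nat_lit 1) (nat_lit 3) (nat_lit 4) C.nil) C.nil)) C.nil))) C.nil))) C.nil))) C.nil))) (C.cons (nat_lit 44) (C.node (nat_lit 1) (nat_lit 2) (nat_lit 3) (C.cons (nat_lit 30) (C.node (nat_lit 1) (nat_lit 2) (nat_lit 8) (C.cons (nat_lit 390) (C.miq (nat_lit 1746995508) (nat_lit 471482600999964298723590713)) (C.cons (nat_lit 326) (C.miq (nat_lit 412377648) (nat_lit 947799373749391583381880909)) (C.cons (nat_lit 262) (C.miq (nat_lit 1746995508) (nat_lit 316740096089291764361200185)) C.nil))))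 (C.cons (nat_lit 14) (C.node (nat_lit 1) (nat_lit 3) (nat_lit 4) (C.cons (nat_lit 282) (C.node (nat_lit 1) (nat_lit 6) (nat_lit 8) (C.cons (nat_lit 326) (C.miq (nat_lit 1126238598) (nat_lit 16926492714525538182890433)) (C.cons (nat_lit 322) (C.node (nat_lit 1) (nat_lit 2) (nat_lit 8) (C.cons (nat_lit 390) (C.node (nat_lit 1) (nat_lit 2) (nat_lit 4) (C.cons (nat_lit 54) (C.miq (nat_lit 2219971335) (nat_lit 65289188568757109438873739)) (C.cons (nat_lit 22) (C.node (nat_lit 1) (nat_lit 4) (nat_lit 5) (C.cons (nat_lit 178) (C.miq (nat_lit 693601089) (nat_lit 812405345230772477810049306)) C.nil)) C.nil))) (C.cons (nat_lit 262) (C.node (nat_lit 1) (nat_lit 7) (nat_lit 8) (C.cons (nat_lit 386) (C.node (nat_lit 1) (nat_lit 3) (nat_lit 5) (C.cons (nat_lit 42) (C.node (nat_lit 1) (nat_lit 3) (nat_lit 6) C.nil) C.nil)) C.nil)) C.nil))) C.nil))) (C.cons (nat_lit 26) (C.node (nat_lit 1) (nat_lit 3) (nat_lit 5) (C.cons (nat_lit 106)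 (C.node (nat_lit 1) (nat_lit 3) (nat_lit 8) (C.cons (nat_lit 266) (C.node (nat_lit 1) (nat_lit 6) (nat_lit 8) (C.cons (nat_lit 326) (C.miq (nat_lit 1126238598) (nat_lit 16926492714525538182890433)) (C.cons (nat_lit 322) (C.node (nat_lit 1) (nat_lit 2) (nat_lit 5) (C.cons (nat_lit 38) (C.node (nat_lit 1) (nat_lit 2) (nat_lit 6) C.nil) C.nil)) C.nil))) C.nil)) (C.cons (nat_lit 42) (C.node (nat_lit 1) (nat_lit 3) (nat_lit 6) (C.cons (nat_lit 330) (C.node (nat_lit 2) (nat_lit 3) (nat_lit 4) (C.cons (nat_lit 156) (C.node (nat_lit 2) (nat_lit 7) (nat_lit 9) (C.cons (nat_lit 644) (C.node (nat_lit 4) (nat_lit 7) (nat_lit 9) C.nil) C.nil)) (C.cons (nat_lit 28) (C.node (nat_lit 2) (nat_lit 3) (nat_lit 7) C.nil) C.nil))) (C.cons (nat_lit 74) (C.node (nat_lit 1) (nat_lit 3) (nat_lit 8) (C.cons (nat_lit 266) (C.node (nat_lit 1) (nat_lit 6) (nat_lit 8) (C.cons (nat_lit 326) (C.miq (nat_lit 1126238598) (nat_lit 16926492714525538182890433))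 C.nil)) C.nil)) C.nil))) C.nil))) C.nil))) C.nil))) C.nil))) C.nil)) C.nil)) (C.cons (nat_lit 524) (C.node (nat_lit 3) (nat_lit 8) (nat_lit 9) (C.cons (nat_lit 776) (C.node (nat_lit 2) (nat_lit 7) (nat_lit 9) (C.cons (nat_lit 660) (C.node (nat_lit 4) (nat_lit 6) (nat_lit 9) (C.cons (nat_lit 592) (C.node (nat_lit 4) (nat_lit 8) (nat_lit 9) (C.cons (nat_lit 784) (C.node (nat_lit 2) (nat_lit 3) (nat_lit 7) (C.cons (nat_lit 396) (C.node (nat_lit 5) (nat_lit 7) (nat_lit 8) (C.cons (nat_lit 432) (C.miq (nat_lit 309856581) (nat_lit 478739992716006950282723897)) (C.cons (nat_lit 416) (C.node (nat_lit 1) (nat_lit 2) (nat_lit 7) (C.cons (nat_lit 198) (C.node (nat_lit 1) (nat_lit 5) (nat_lit 7) (C.cons (nat_lit 178) (C.miq (nat_lit 846530068) (nat_lit 199483256455466178183299155)) (C.cons (nat_lit 162) (C.node (nat_lit 1) (nat_lit 4) (nat_lit 7) (C.cons (nat_lit 402) (C.miq (nat_lit 2198106721) (nat_lit 687886207063306053142905030))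 C.nil)) C.nil))) (C.cons (nat_lit 134) (C.node (nat_lit 2) (nat_lit 6) (nat_lit 7) (C.cons (nat_lit 196) (C.node (nat_lit 1) (nat_lit 6) (nat_lit 7) (C.cons (nat_lit 194) (C.node (nat_lit 1) (nat_lit 5) (nat_lit 7) C.nil) C.nil)) C.nil)) C.nil))) C.nil))) (C.cons (nat_lit 140) (C.node (nat_lit 2) (nat_lit 6) (nat_lit 7) (C.cons (nat_lit 198) (C.node (nat_lit 2) (nat_lit 7) (nat_lit 8) (C.cons (nat_lit 388) (C.node (nat_lit 1) (nat_lit 5) (nat_lit 7) (C.cons (nat_lit 178) (C.miq (nat_lit 846530068) (nat_lit 199483256455466178183299155)) (C.cons (nat_lit 162) (C.node (nat_lit 1) (nat_lit 4) (nat_lit 7) (C.cons (nat_lit 146)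
  (C.node (nat_lit 1) (nat_lit 7) (nat_lit 8) C.nil) C.nil)) C.nil))) C.nil)) (C.cons (nat_lit 196) (C.node (nat_lit 1) (nat_lit 2) (nat_lit 7) (C.cons (nat_lit 390) (C.node (nat_lit 1) (nat_lit 2) (nat_lit 4) (C.cons (nat_lit 54) (C.miq (nat_lit 2302740261) (nat_lit 640736052668779199374688421)) (C.cons (nat_lit 30) (C.miq (nat_lit 1411451256) (nat_lit 36273142751126421173044161)) (C.cons (nat_lit 22) (C.miq (nat_lit 1411451256) (nat_lit 26601736194209387775394753)) C.nil)))) (C.cons (nat_lit 134) (C.node (nat_lit 2) (nat_lit 7) (nat_lit 8) (C.cons (nat_lit 388) (C.node (nat_lit 1) (nat_lit 6) (nat_lit 7) (C.cons (nat_lit 226) (C.node (nat_lit 1) (nat_lit 4) (nat_lit 7) C.nil) (C.cons (nat_lit 194) (C.node (nat_lit 1) (nat_lit 5) (nat_lit 7) C.nil) C.nil))) C.nil)) C.nil))) C.nil))) C.nil))) C.nil)) C.nil)) (C.cons (nat_lit 644) (C.node (nat_lit 4) (nat_lit 7) (nat_lit 9) (C.cons (nat_lit 656) (C.node (nat_lit 4) (nat_lit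 6) (nat_lit 9) (C.cons (nat_lit 596) (C.node (nat_lit 4) (nat_lit 8) (nat_lit 9) (C.cons (nat_lit 784) (C.node (nat_lit 5) (nat_lit 6) (nat_lit 9) (C.cons (nat_lit 608) (C.node (nat_lit 2) (nat_lit 5) (nat_lit 9) (C.cons (nat_lit 804) (C.node (nat_lit 2) (nat_lit 3) (nat_lit 5) (C.cons (nat_lit 46) (C.miq (nat_lit 1095917705) (nat_lit 55621581985104545884406721)) (C.cons (nat_lit 44) (C.node (nat_lit 2) (nat_lit 4) (nat_lit 5) (C.cons (nat_lit 54) (C.node (nat_lit 2) (nat_lit 5) (nat_lit 6) (C.cons (nat_lit 100) (C.node (nat_lit 1) (nat_lit 2) (nat_lit 3) (C.cons (nat_lit 270) (C.miq (nat_lit 1746995540) (nat_lit 326411502646208900839637561)) (C.cons (nat_lit 14) (C.node (nat_lit 2) (nat_lit 6) (nat_lit 8) (C.cons (nat_lit 324) (C.miq (nat_lit 377634965) (nat_lit 391692961702686383503835705)) C.nil)) C.nil))) C.nil)) (C.cons (nat_lit 52) (C.miq (nat_lit 354683030) (nat_lit 62865673781631506393072577)) C.nil))) C.nil)))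 C.nil)) C.nil)) C.nil)) (C.cons (nat_lit 592) (C.node (nat_lit 2) (nat_lit 4) (nat_lit 9) (C.cons (nat_lit 788) (C.node (nat_lit 5) (nat_lit 8) (nat_lit 9) (C.cons (nat_lit 800) (C.node (nat_lit 2) (nat_lit 5) (nat_lit 9) (C.cons (nat_lit 612) (C.node (nat_lit 2) (nat_lit 4) (nat_lit 5) (C.cons (nat_lit 54) (C.node (nat_lit 2) (nat_lit 4) (nat_lit 6) (C.cons (nat_lit 212) (C.miq (nat_lit 2267350593) (nat_lit 199478128509437626461585491)) (C.cons (nat_lit 84) (C.node (nat_lit 2) (nat_lit 6) (nat_lit 7) (C.cons (nat_lit 198) (C.miq (nat_lit 891357543) (nat_lit 65284558516778111343133633)) (C.cons (nat_lit 196) (C.node (nat_lit 1) (nat_lit 2) (nat_lit 6) (C.cons (nat_lit 326) (C.miq (nat_lit 2186895680) (nat_lit 739880329016968964172480595)) (C.cons (nat_lit 70) (C.node (nat_lit 2) (nat_lit 6) (nat_lit 8) (C.cons (nat_lit 324) (C.node (nat_lit 1) (nat_lit 2) (nat_lit 3) C.nil) C.nil)) C.nil))) C.nil))) C.nil))) (C.cons (nat_lit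 52) (C.node (nat_lit 1) (nat_lit 2) (nat_lit 5) (C.cons (nat_lit 46) (C.miq (nat_lit 2035353123) (nat_lit 660076061877513856159187021)) (C.cons (nat_lit 38) (C.node (nat_lit 1) (nat_lit 3) (nat_lit 5) (C.cons (nat_lit 106) (C.node (nat_lit 1) (nat_lit 6) (nat_lit 7) (C.cons (nat_lit 198) (C.miq (nat_lit 891357543) (nat_lit 45941745402944044547834817)) (C.cons (nat_lit 194) (C.node (nat_lit 1) (nat_lit 2) (nat_lit 6) (C.cons (nat_lit 326) (C.node (nat_lit 1) (nat_lit 2) (nat_lit 3) C.nil) C.nil)) C.nil))) (C.cons (nat_lit 42) (C.node (nat_lit 1) (nat_lit 3) (nat_lit 6) (C.cons (nat_lit 330) (C.node (nat_lit 1) (nat_lit 2) (nat_lit 6) (C.cons (nat_lit 198) (C.miq (nat_lit 891357543) (nat_lit 45941745402944044547834817)) C.nil)) C.nil)) C.nil))) C.nil))) C.nil))) C.nil)) C.nil)) (C.cons (nat_lit 532) (C.node (nat_lit 4) (nat_lit 8) (nat_lit 9) C.nil) C.nil))) C.nil))) C.nil)) C.nil))) C.nil)) C.nil))) C.nil))) C.nil)) C.nil)))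 C.nil))) C.nil)) C.nil))) C.nil))) List.nil)

theorem ok10_55 : okL par10 (nat_lit 56) c10_55 (nat_lit 55) = true := by decide +kernel

noncomputable def c10_56 : List C :=
  (List.cons (C.node (nat_lit 3) (nat_lit 6) (nat_lit 9) (C.cons (nat_lit 586) (C.node (nat_lit 1) (nat_lit 3) (nat_lit 5) (C.cons (nat_lit 46) (C.node (nat_lit 1) (nat_lit 4) (nat_lit 5) (C.cons (nat_lit 178) (C.miq (nat_lit 2438423328) (nat_lit 215206523377403361908555853)) (C.cons (nat_lit 50) (C.node (nat_lit 1) (nat_lit 5) (nat_lit 6) (C.cons (nat_lit 226) (C.miq (nat_lit 660689043) (nat_lit 273218083829581082782204473)) (C.cons (nat_lit 98) (C.node (nat_lit 1) (nat_lit 5) (nat_lit 7) (C.cons (nat_lit 674) (C.node (nat_lit 1) (nat_lit 6) (nat_lit 7) (C.cons (nat_lit 198) (C.node (nat_lit 1) (nat_lit 6) (nat_lit 8) (C.cons (nat_lit 322) (C.node (nat_lit 3) (nat_lit 7) (nat_lit 9) (C.cons (nat_lit 652) (C.miq (nat_lit 1126238582) (nat_lit 55612118942193122009285569))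 (C.cons (nat_lit 648) (C.node (nat_lit 4) (nat_lit 6) (nat_lit 9) (C.cons (nat_lit 596) (C.miq (nat_lit 1108579952) (nat_lit 55621084067410819303539649)) (C.cons (nat_lit 592) (C.node (nat_lit 2) (nat_lit 6) (nat_lit 9) (C.cons (nat_lit 612) (C.node (nat_lit 5) (nat_lit 8) (nat_lit 9) (C.cons (nat_lit 800) (C.node (nat_lit 3) (nat_lit 5) (nat_lit 6) (C.cons (nat_lit 360) (C.miq (nat_lit 1935020178) (nat_lit 435216947555720563024724487)) (C.cons (nat_lit 232) (C.node (nat_lit 3) (nat_lit 5) (nat_lit 8) (C.cons (nat_lit 296) (C.node (nat_lit 4) (nat_lit 6) (nat_lit 7) (C.cons (nat_lit 208) (C.node (nat_lit 1) (nat_lit 2) (nat_lit 4) (C.cons (nat_lit 278) (C.node (nat_lit 1) (nat_lit 3) (nat_lit 4) (C.cons (nat_lit 26) (C.node (nat_lit 1) (nat_lit 3) (nat_lit 8) (C.cons (nat_lit 266) (C.node (nat_lit 1) (nat_lit 4) (nat_lit 7) (C.cons (nat_lit 146) (C.node (nat_lit 1) (nat_lit 4) (nat_lit 9) (C.cons (nat_lit 530) (C.node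 (nat_lit 1) (nat_lit 7) (nat_lit 8) (C.cons (nat_lit 386) (C.node (nat_lit 1) (nat_lit 8) (nat_lit 9) (C.cons (nat_lit 770) (C.node (nat_lit 2) (nat_lit 4) (nat_lit 5) (C.cons (nat_lit 52) (C.node (nat_lit 2) (nat_lit 5) (nat_lit 8) C.nil) C.nil)) C.nil)) C.nil)) C.nil)) C.nil)) C.nil)) C.nil)) (C.cons (nat_lit 22) (C.node (nat_lit 1) (nat_lit 2) (nat_lit 8) (C.cons (nat_lit 262) (C.node (nat_lit 1) (nat_lit 3) (nat_lit 4) (C.cons (nat_lit 282) (C.node (nat_lit 1) (nat_lit 4) (nat_lit 7) (C.cons (nat_lit 146) (C.node (nat_lit 1) (nat_lit 4) (nat_lit 9) (C.cons (nat_lit 530) (C.node (nat_lit 1) (nat_lit 7) (nat_lit 8) (C.cons (nat_lit 386) (C.node (nat_lit 1) (nat_lit 8) (nat_lit 9) (C.cons (nat_lit 770) (C.node (nat_lit 3) (nat_lit 4) (nat_lit 6) (C.cons (nat_lit 88) (C.node (nat_lit 3) (nat_lit 6) (nat_lit 8) C.nil) C.nil)) C.nil)) C.nil)) C.nil)) C.nil)) (C.cons (nat_lit 26) (C.node (nat_lit 1) (nat_lit 3) (nat_lit 8)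 (C.cons (nat_lit 266) (C.node (nat_lit 1) (nat_lit 4) (nat_lit 7) (C.cons (nat_lit 402) (C.node (nat_lit 1) (nat_lit 4) (nat_lit 9) (C.cons (nat_lit 530) (C.node (nat_lit 1) (nat_lit 8) (nat_lit 9) (C.cons (nat_lit 770) (C.node (nat_lit 7) (nat_lit 8) (nat_lit 5) (C.cons (nat_lit 416) (C.node (nat_lit 7) (nat_lit 5) (nat_lit 4) C.nil) C.nil)) C.nil)) C.nil)) (C.cons (nat_lit 146) (C.node (nat_lit 1) (nat_lit 7) (nat_lit 8) (C.cons (nat_lit 386) (C.node (nat_lit 1) (nat_lit 4) (nat_lit 8) (C.cons (nat_lit 786) (C.node (nat_lit 2) (nat_lit 3) (nat_lit 9) (C.cons (nat_lit 780) (C.miq (nat_lit 1635910803) (nat_lit 316739985161692318370890297)) (C.cons (nat_lit 524) (C.node (nat_lit 2) (nat_lit 8) (nat_lit 9) (C.cons (nat_lit 772) (C.node (nat_lit 3) (nat_lit 4) (nat_lit 6) (C.cons (nat_lit 344) (C.miq (nat_lit 558041478) (nat_lit 31433491855362922957505473)) C.nil)) C.nil)) C.nil))) (C.cons (nat_lit 274) (C.node (nat_lit 1)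 (nat_lit 4) (nat_lit 9) (C.cons (nat_lit 530) (C.node (nat_lit 2) (nat_lit 4) (nat_lit 5) C.nil) C.nil)) C.nil))) C.nil)) C.nil))) C.nil)) C.nil))) C.nil)) C.nil))) C.nil)) C.nil)) (C.cons (nat_lit 104) (C.miq (nat_lit 1935020178) (nat_lit 125731937734375494299943431)) C.nil)))) C.nil)) (C.cons (nat_lit 580) (C.miq (nat_lit 1499623728) (nat_lit 701180019278973734564462731)) C.nil))) C.nil))) C.nil))) C.nil))
  (C.cons (nat_lit 194) (C.miq (nat_lit 644952213) (nat_lit 234532457577143151246836281)) C.nil))) (C.cons (nat_lit 162) (C.miq (nat_lit 2438423328) (nat_lit 195863710263569295113257037)) C.nil))) C.nil))) C.nil))) (C.cons (nat_lit 42) (C.node (nat_lit 1) (nat_lit 5) (nat_lit 9) (C.cons (nat_lit 674) (C.miq (nat_lit 622004118) (nat_lit 50776304869554366976754625)) (C.cons (nat_lit 546) (C.node (nat_lit 5) (nat_lit 7) (nat_lit 9) (C.cons (nat_lit 672) (C.node (nat_lit 5) (nat_lit 6) (nat_lit 9) (C.cons (nat_lit 612)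 (C.miq (nat_lit 425145888) (nat_lit 812400715043404015913467981)) (C.cons (nat_lit 608) (C.node (nat_lit 1) (nat_lit 6) (nat_lit 8) (C.cons (nat_lit 326) (C.node (nat_lit 1) (nat_lit 2) (nat_lit 3) (C.cons (nat_lit 30) (C.miq (nat_lit 2151835953) (nat_lit 25393456120975138439955018)) (C.cons (nat_lit 14) (C.node (nat_lit 1) (nat_lit 8) (nat_lit 9) (C.cons (nat_lit 786) (C.miq (nat_lit 1092851808) (nat_lit 16935457893223481039717313)) (C.cons (nat_lit 770) (C.node (nat_lit 2) (nat_lit 3) (nat_lit 5) (C.cons (nat_lit 300) (C.miq (nat_lit 1099236899) (nat_lit 351807909728598853820350541)) (C.cons (nat_lit 44) (C.node (nat_lit 3) (nat_lit 8) (nat_lit 9) (C.cons (nat_lit 780) (C.miq (nat_lit 1126238598) (nat_lit 16926492714525538182890433)) (C.cons (nat_lit 776) (C.node (nat_lit 3) (nat_lit 5) (nat_lit 6) (C.cons (nat_lit 360) (C.miq (nat_lit 1478047264) (nat_lit 930883377401974797067812941)) (C.cons (nat_lit 232) (C.miq (nat_lit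 324179568) (nat_lit 53202310088163271740031937)) (C.cons (nat_lit 104) (C.node (nat_lit 3) (nat_lit 6) (nat_lit 8) (C.cons (nat_lit 344) (C.miq (nat_lit 1209611808) (nat_lit 930883377397471197440442445)) (C.cons (nat_lit 328) (C.node (nat_lit 1) (nat_lit 2) (nat_lit 5) (C.cons (nat_lit 54) (C.node (nat_lit 1) (nat_lit 2) (nat_lit 7) (C.cons (nat_lit 134) (C.node (nat_lit 2) (nat_lit 5) (nat_lit 6) (C.cons (nat_lit 100) (C.node (nat_lit 2) (nat_lit 5) (nat_lit 8) (C.cons (nat_lit 804) (C.node (nat_lit 4) (nat_lit 8) (nat_lit 9) (C.cons (nat_lit 784) (C.node (nat_lit 2) (nat_lit 3) (nat_lit 9) (C.cons (nat_lit 652) (C.miq (nat_lit 1378978160) (nat_lit 16930329703438939528561601)) (C.cons (nat_lit 524) (C.node (nat_lit 3) (nat_lit 7) (nat_lit 9) (C.cons (nat_lit 648) (C.node (nat_lit 2) (nat_lit 6) (nat_lit 7) (C.cons (nat_lit 212) (C.miq (nat_lit 1918395408) (nat_lit 971994086350889618352832595)) (C.cons (nat_lit 196) (C.node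 (nat_lit 2) (nat_lit 4) (nat_lit 6) (C.cons (nat_lit 596) (C.node (nat_lit 2) (nat_lit 7) (nat_lit 9) (C.cons (nat_lit 644) (C.node (nat_lit 1) (nat_lit 4) (nat_lit 9) (C.cons (nat_lit 658) (C.miq (nat_lit 826410902) (nat_lit 65283414697611498959930305)) (C.cons (nat_lit 530) (C.node (nat_lit 1) (nat_lit 7) (nat_lit 9) C.nil) C.nil))) C.nil)) (C.cons (nat_lit 84) (C.miq (nat_lit 2454095120) (nat_lit 101567496394989798763462947)) C.nil))) C.nil))) C.nil)) C.nil))) C.nil)) (C.cons (nat_lit 292) (C.miq (nat_lit 2552563220) (nat_lit 353016835795348512530890835)) C.nil))) C.nil)) C.nil)) (C.cons (nat_lit 38) (C.node (nat_lit 2) (nat_lit 5) (nat_lit 9) (C.cons (nat_lit 804) (C.miq (nat_lit 1159793030) (nat_lit 45940712385276741455053761)) (C.cons (nat_lit 548) (C.node (nat_lit 5) (nat_lit 8) (nat_lit 9) (C.cons (nat_lit 800) (C.node (nat_lit 2) (nat_lit 6) (nat_lit 9) (C.cons (nat_lit 596) (C.miq (nat_lit 1108711040) (nat_lit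 45949677510494335671665601)) (C.cons (nat_lit 580) (C.node (nat_lit 4) (nat_lit 6) (nat_lit 9) (C.cons (nat_lit 592) (C.node (nat_lit 4) (nat_lit 6) (nat_lit 8) (C.cons (nat_lit 368) (C.miq (nat_lit 693637190) (nat_lit 967146669476359325852106835)) (C.cons (nat_lit 336) (C.node (nat_lit 5) (nat_lit 6) (nat_lit 8) (C.cons (nat_lit 352) (C.node (nat_lit 1) (nat_lit 2) (nat_lit 4) (C.cons (nat_lit 150) (C.node (nat_lit 1) (nat_lit 4) (nat_lit 5) (C.cons (nat_lit 50) (C.node (nat_lit 1) (nat_lit 4) (nat_lit 9) C.nil) C.nil)) (C.cons (nat_lit 22) (C.node (nat_lit 1) (nat_lit 2) (nat_lit 7) (C.cons (nat_lit 134) (C.node (nat_lit 2) (nat_lit 8) (nat_lit 9)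
  (C.cons (nat_lit 788) (C.node (nat_lit 2) (nat_lit 5) (nat_lit 8) (C.cons (nat_lit 292) (C.node (nat_lit 1) (nat_lit 4) (nat_lit 5) C.nil) C.nil)) C.nil)) C.nil)) C.nil))) C.nil)) C.nil))) C.nil)) C.nil))) C.nil)) C.nil))) C.nil))) C.nil))) C.nil)))) C.nil))) C.nil))) C.nil))) C.nil))) (C.cons (nat_lit 322) (C.node (nat_lit 1) (nat_lit 7) (nat_lit 9) (C.cons (nat_lit 658) (C.node (nat_lit 1) (nat_lit 8) (nat_lit 9) (C.cons (nat_lit 770) (C.node (nat_lit 2) (nat_lit 6) (nat_lit 9) (C.cons (nat_lit 596) (C.miq (nat_lit 1107793457) (nat_lit 199484898361773731552625226)) (C.cons (nat_lit 580) (C.node (nat_lit 4) (nat_lit 6) (nat_lit 9) (C.cons (nat_lit 592) (C.node (nat_lit 2) (nat_lit 7) (nat_lit 9) (C.cons (nat_lit 652) (C.miq (nat_lit 692467472) (nat_lit 715685505794678657970798731)) (C.cons (nat_lit 644) (C.node (nat_lit 3) (nat_lit 7) (nat_lit 9) (C.cons (nat_lit 648) (C.node (nat_lit 3) (nat_lit 6) (nat_lit 7) (C.cons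 (nat_lit 232) (C.miq (nat_lit 557123943) (nat_lit 50777928282674617192547265)) (C.cons (nat_lit 216) (C.miq (nat_lit 642319217) (nat_lit 715693659093709227646124171)) (C.cons (nat_lit 200) (C.node (nat_lit 1) (nat_lit 4) (nat_lit 5) (C.cons (nat_lit 54) (C.node (nat_lit 1) (nat_lit 2) (nat_lit 6) (C.cons (nat_lit 198) (C.miq (nat_lit 873597302) (nat_lit 65283414818645738919429057)) (C.cons (nat_lit 70) (C.node (nat_lit 1) (nat_lit 2) (nat_lit 7) (C.cons (nat_lit 390) (C.miq (nat_lit 1232228481) (nat_lit 778549224116164558064058659)) (C.cons (nat_lit 134) (C.node (nat_lit 1) (nat_lit 7) (nat_lit 8) (C.cons (nat_lit 386) (C.node (nat_lit 2) (nat_lit 5) (nat_lit 9) (C.cons (nat_lit 804) (C.miq (nat_lit 2182518080) (nat_lit 84642534920384990317576761)) (C.cons (nat_lit 548) (C.node (nat_lit 5) (nat_lit 8) (nat_lit 9) (C.cons (nat_lit 800) (C.node (nat_lit 1) (nat_lit 5) (nat_lit 6) (C.cons (nat_lit 98) (C.node (nat_lit 1)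 (nat_lit 5) (nat_lit 7) (C.cons (nat_lit 162) (C.node (nat_lit 1) (nat_lit 6) (nat_lit 7) C.nil) C.nil)) C.nil)) C.nil)) C.nil))) C.nil)) C.nil))) C.nil))) (C.cons (nat_lit 50) (C.node (nat_lit 1) (nat_lit 2) (nat_lit 5) (C.cons (nat_lit 102) (C.node (nat_lit 1) (nat_lit 5) (nat_lit 7) (C.cons (nat_lit 162) (C.node (nat_lit 1) (nat_lit 6) (nat_lit 7) (C.cons (nat_lit 194) (C.node (nat_lit 1) (nat_lit 2) (nat_lit 7) (C.cons (nat_lit 390) (C.node (nat_lit 1) (nat_lit 2) (nat_lit 3) (C.cons (nat_lit 30) (C.miq (nat_lit 1898353712) (nat_lit 123328161106957674228810297)) (C.cons (nat_lit 14) (C.node (nat_lit 1) (nat_lit 2) (nat_lit 4) (C.cons (nat_lit 22) (C.node (nat_lit 2) (nat_lit 4) (nat_lit 9) (C.cons (nat_lit 788) (C.miq (nat_lit 1108580464) (nat_lit 16935457893786705875108801)) (C.cons (nat_lit 532) (C.node (nat_lit 4) (nat_lit 8) (nat_lit 9) (C.cons (nat_lit 784) (C.node (nat_lit 1) (nat_lit 3) (nat_lit 4) C.nil) C.nil))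 C.nil))) C.nil)) C.nil))) (C.cons (nat_lit 134) (C.node (nat_lit 1) (nat_lit 7) (nat_lit 8) (C.cons (nat_lit 386) (C.node (nat_lit 2) (nat_lit 3) (nat_lit 5) (C.cons (nat_lit 300) (C.node (nat_lit 2) (nat_lit 3) (nat_lit 9) (C.cons (nat_lit 524) (C.node (nat_lit 2) (nat_lit 4) (nat_lit 5) (C.cons (nat_lit 52) (C.node (nat_lit 2) (nat_lit 5) (nat_lit 9) (C.cons (nat_lit 548) (C.node (nat_lit 3) (nat_lit 5) (nat_lit 6) C.nil) C.nil)) C.nil)) C.nil)) (C.cons (nat_lit 44) (C.node (nat_lit 2) (nat_lit 3) (nat_lit 9) (C.cons (nat_lit 780) (C.node (nat_lit 2) (nat_lit 4) (nat_lit 9) (C.cons (nat_lit 532) (C.node (nat_lit 2) (nat_lit 5) (nat_lit 9) (C.cons (nat_lit 548) (C.node (nat_lit 5) (nat_lit 8) (nat_lit 9) C.nil) C.nil)) C.nil)) (C.cons (nat_lit 524) (C.node (nat_lit 3) (nat_lit 8) (nat_lit 9) (C.cons (nat_lit 776) (C.node (nat_lit 2) (nat_lit 6) (nat_lit 7) C.nil) C.nil)) C.nil))) C.nil))) C.nil)) C.nil))) C.nil)) C.nil))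 (C.cons (nat_lit 38) (C.node (nat_lit 1) (nat_lit 2) (nat_lit 6) (C.cons (nat_lit 198) (C.miq (nat_lit 824546928) (nat_lit 45949677507679036140487617)) (C.cons (nat_lit 70) (C.node (nat_lit 1) (nat_lit 2) (nat_lit 7) (C.cons (nat_lit 390)
  (C.node (nat_lit 1) (nat_lit 2) (nat_lit 3) (C.cons (nat_lit 30) (C.miq (nat_lit 1898353712) (nat_lit 84642534879289540638212665)) (C.cons (nat_lit 14) (C.node (nat_lit 1) (nat_lit 2) (nat_lit 4) (C.cons (nat_lit 22) (C.node (nat_lit 2) (nat_lit 4) (nat_lit 9) (C.cons (nat_lit 788) (C.miq (nat_lit 1108580464) (nat_lit 16935457893786705875108801)) (C.cons (nat_lit 532) (C.node (nat_lit 2) (nat_lit 5) (nat_lit 9) (C.cons (nat_lit 804) (C.miq (nat_lit 1377015920) (nat_lit 16935457898290305502479297)) C.nil)) C.nil))) C.nil)) C.nil))) (C.cons (nat_lit 134) (C.node (nat_lit 1) (nat_lit 7) (nat_lit 8) (C.cons (nat_lit 386) (C.node (nat_lit 1) (nat_lit 5) (nat_lit 6) (C.cons (nat_lit 226)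 (C.node (nat_lit 2) (nat_lit 3) (nat_lit 5) (C.cons (nat_lit 300) (C.node (nat_lit 2) (nat_lit 3) (nat_lit 9) (C.cons (nat_lit 524) (C.node (nat_lit 2) (nat_lit 5) (nat_lit 9) C.nil) C.nil)) (C.cons (nat_lit 44) (C.node (nat_lit 2) (nat_lit 3) (nat_lit 9) (C.cons (nat_lit 780) (C.node (nat_lit 1) (nat_lit 2) (nat_lit 3) (C.cons (nat_lit 30) (C.miq (nat_lit 1898353712) (nat_lit 84642534879289540638212665)) C.nil)) (C.cons (nat_lit 524) (C.node (nat_lit 3) (nat_lit 8) (nat_lit 9) (C.cons (nat_lit 776) (C.node (nat_lit 2) (nat_lit 4) (nat_lit 9) C.nil) C.nil)) C.nil))) C.nil))) (C.cons (nat_lit 98) (C.node (nat_lit 1) (nat_lit 5) (nat_lit 7) (C.cons (nat_lit 162) (C.node (nat_lit 1) (nat_lit 6) (nat_lit 7) (C.cons (nat_lit 194) (C.node (nat_lit 2) (nat_lit 6) (nat_lit 7) (C.cons (nat_lit 212) (C.node (nat_lit 5) (nat_lit 6) (nat_lit 7) C.nil) C.nil)) C.nil)) C.nil)) C.nil))) C.nil)) C.nil))) C.nil))) C.nil))) C.nil))) C.nil))))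 C.nil)) C.nil))) C.nil)) C.nil))) C.nil)) (C.cons (nat_lit 642) (C.ref (nat_lit 52) (nat_lit 654820258320)) C.nil))) C.nil))) C.nil))) C.nil)) C.nil))) C.nil))) (C.cons (nat_lit 584) (C.node (nat_lit 1) (nat_lit 3) (nat_lit 9) (C.cons (nat_lit 778) (C.node (nat_lit 1) (nat_lit 3) (nat_lit 4) (C.cons (nat_lit 30) (C.node (nat_lit 1) (nat_lit 6) (nat_lit 8) (C.cons (nat_lit 326) (C.miq (nat_lit 1233203298) (nat_lit 940544841222667098441252941)) (C.cons (nat_lit 322) (C.node (nat_lit 1) (nat_lit 2) (nat_lit 8) (C.cons (nat_lit 390) (C.miq (nat_lit 1393691015) (nat_lit 36270818461373640575681473)) (C.cons (nat_lit 262) (C.node (nat_lit 2) (nat_lit 3) (nat_lit 9) (C.cons (nat_lit 652) (C.miq (nat_lit 1362233495) (nat_lit 36270818383123597067289537)) (C.cons (nat_lit 524) (C.node (nat_lit 3) (nat_lit 7) (nat_lit 9) (C.cons (nat_lit 648) (C.node (nat_lit 1) (nat_lit 2) (nat_lit 7) (C.cons (nat_lit 198) (C.miq (nat_lit 1916363072)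 (nat_lit 633494856854852696700158035)) (C.cons (nat_lit 134) (C.node (nat_lit 1) (nat_lit 4) (nat_lit 9) (C.cons (nat_lit 658) (C.miq (nat_lit 1729235267) (nat_lit 161997480498154263755489849)) (C.cons (nat_lit 530) (C.node (nat_lit 4) (nat_lit 6) (nat_lit 9) (C.cons (nat_lit 596) (C.miq (nat_lit 1645712432) (nat_lit 162013787317174359267410489)) (C.cons (nat_lit 592) (C.node (nat_lit 4) (nat_lit 8) (nat_lit 9) (C.cons (nat_lit 788) (C.miq (nat_lit 2182583344) (nat_lit 162013787371217554795856441)) (C.cons (nat_lit 784) (C.node (nat_lit 2) (nat_lit 8) (nat_lit 9) (C.cons (nat_lit 804) (C.miq (nat_lit 1921058195) (nat_lit 316741128882905913762644537)) (C.cons (nat_lit 772) (C.node (nat_lit 5) (nat_lit 8) (nat_lit 9) (C.cons (nat_lit 800) (C.node (nat_lit 3) (nat_lit 4) (nat_lit 6) (C.cons (nat_lit 344) (C.miq (nat_lit 2216256288) (nat_lit 640748411813635818344874061)) (C.cons (nat_lit 216) (C.miq (nat_lit 1947820832) (nat_lit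 640748411777607021325910093)) (C.cons (nat_lit 88) (C.node (nat_lit 3) (nat_lit 4) (nat_lit 7) (C.cons (nat_lit 408) (C.miq (nat_lit 696520819) (nat_lit 947798396126281124659331211)) (C.cons (nat_lit 152) (C.node (nat_lit 3) (nat_lit 4) (nat_lit 8) (C.cons (nat_lit 280) (C.node (nat_lit 1) (nat_lit 2) (nat_lit 5) (C.cons (nat_lit 102) (C.node (nat_lit 1) (nat_lit 3) (nat_lit 5) (C.cons (nat_lit 42) (C.node (nat_lit 1) (nat_lit 3) (nat_lit 6) (C.cons (nat_lit 74)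
  (C.node (nat_lit 1) (nat_lit 6) (nat_lit 7) (C.cons (nat_lit 194) (C.node (nat_lit 1) (nat_lit 6) (nat_lit 9) (C.cons (nat_lit 578) (C.node (nat_lit 2) (nat_lit 5) (nat_lit 9) (C.cons (nat_lit 548) (C.node (nat_lit 2) (nat_lit 6) (nat_lit 9) (C.cons (nat_lit 580) (C.node (nat_lit 5) (nat_lit 6) (nat_lit 9) C.nil) C.nil)) C.nil)) C.nil)) C.nil)) C.nil)) C.nil)) (C.cons (nat_lit 38) (C.node (nat_lit 1) (nat_lit 2) (nat_lit 6) (C.cons (nat_lit 70) (C.node (nat_lit 1) (nat_lit 3) (nat_lit 5) (C.cons (nat_lit 106) (C.node (nat_lit 1) (nat_lit 6) (nat_lit 7) (C.cons (nat_lit 194) (C.node (nat_lit 1) (nat_lit 6) (nat_lit 9) (C.cons (nat_lit 578) (C.node (nat_lit 3) (nat_lit 6) (nat_lit 7) (C.cons (nat_lit 200) (C.node (nat_lit 3) (nat_lit 6) (nat_lit 8) (C.cons (nat_lit 328) (C.node (nat_lit 1) (nat_lit 4) (nat_lit 5) C.nil) C.nil)) C.nil)) C.nil)) C.nil)) (C.cons (nat_lit 42) (C.node (nat_lit 1) (nat_lit 3) (nat_lit 6) (C.cons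 (nat_lit 74) (C.node (nat_lit 1) (nat_lit 4) (nat_lit 5) (C.cons (nat_lit 178) (C.node (nat_lit 1) (nat_lit 4) (nat_lit 8) (C.cons (nat_lit 274) (C.node (nat_lit 1) (nat_lit 6) (nat_lit 7) C.nil) C.nil)) (C.cons (nat_lit 50) (C.node (nat_lit 1) (nat_lit 4) (nat_lit 7) (C.cons (nat_lit 402) (C.node (nat_lit 1) (nat_lit 6) (nat_lit 7) (C.cons (nat_lit 226) (C.node (nat_lit 1) (nat_lit 5) (nat_lit 9) C.nil) C.nil)) C.nil)) C.nil))) C.nil)) C.nil))) C.nil)) C.nil))) C.nil)) C.nil))) C.nil)))) C.nil)) C.nil))) C.nil))) C.nil))) C.nil))) C.nil))) C.nil)) C.nil))) C.nil))) C.nil))) (C.cons (nat_lit 26) (C.node (nat_lit 1) (nat_lit 2) (nat_lit 3) (C.cons (nat_lit 46) (C.node (nat_lit 1) (nat_lit 3) (nat_lit 6) (C.cons (nat_lit 74) (C.node (nat_lit 1) (nat_lit 6) (nat_lit 8) (C.cons (nat_lit 326) (C.miq (nat_lit 2014447925) (nat_lit 394112861177642067136741945)) (C.cons (nat_lit 322) (C.node (nat_lit 1) (nat_lit 2) (nat_lit 6)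 (C.cons (nat_lit 198) (C.miq (nat_lit 2166854480) (nat_lit 239385039823739140931125817)) (C.cons (nat_lit 70) (C.node (nat_lit 2) (nat_lit 3) (nat_lit 9) (C.cons (nat_lit 652) (C.node (nat_lit 1) (nat_lit 4) (nat_lit 9) (C.cons (nat_lit 658) (C.miq (nat_lit 1918997252) (nat_lit 84636945514146558647665209)) (C.cons (nat_lit 530) (C.node (nat_lit 4) (nat_lit 7) (nat_lit 9) (C.cons (nat_lit 656) (C.node (nat_lit 1) (nat_lit 7) (nat_lit 9) (C.cons (nat_lit 674) (C.miq (nat_lit 1898353968) (nat_lit 84642534883793208985059897)) (C.cons (nat_lit 642) (C.node (nat_lit 5) (nat_lit 7) (nat_lit 9) (C.cons (nat_lit 672) (C.node (nat_lit 4) (nat_lit 6) (nat_lit 9) (C.cons (nat_lit 596) (C.miq (nat_lit 1093820537) (nat_lit 55621581985103893039416257)) (C.cons (nat_lit 592) (C.node (nat_lit 2) (nat_lit 4) (nat_lit 9) (C.cons (nat_lit 788) (C.miq (nat_lit 1385695025) (nat_lit 952638913905299410674909323)) (C.cons (nat_lit 532) (C.node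 (nat_lit 4) (nat_lit 8) (nat_lit 9) (C.cons (nat_lit 784) (C.node (nat_lit 2) (nat_lit 6) (nat_lit 9) (C.cons (nat_lit 612) (C.miq (nat_lit 1981876563) (nat_lit 84627371740950368999047737)) (C.cons (nat_lit 580) (C.node (nat_lit 2) (nat_lit 5) (nat_lit 9) (C.cons (nat_lit 804) (C.node (nat_lit 3) (nat_lit 5) (nat_lit 7) (C.cons (nat_lit 424) (C.node (nat_lit 3) (nat_lit 5) (nat_lit 6) (C.cons (nat_lit 104) (C.node (nat_lit 3) (nat_lit 4) (nat_lit 7) (C.cons (nat_lit 216) (C.miq (nat_lit 1396803424) (nat_lit 31437439431852125865575361)) (C.cons (nat_lit 152) (C.node (nat_lit 3) (nat_lit 6) (nat_lit 7) (C.cons (nat_lit 200) (C.node (nat_lit 1) (nat_lit 6) (nat_lit 9) (C.cons (nat_lit 610) (C.node (nat_lit 1) (nat_lit 6) (nat_lit 7) C.nil) C.nil)) C.nil)) C.nil))) C.nil)) (C.cons (nat_lit 232) (C.miq (nat_lit 2235011600) (nat_lit 280488517697954882263908871)) (C.cons (nat_lit 168) (C.miq (nat_lit 2235011600) (nat_lit 203117265242618615082713607))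 C.nil)))) (C.cons (nat_lit 548) (C.miq (nat_lit 2234060915) (nat_lit 662505700797616060705276043)) C.nil))) C.nil))) C.nil)) C.nil))) C.nil))) C.nil)) C.nil))) C.nil)) C.nil))) (C.cons (nat_lit 524)
  (C.miq (nat_lit 2033322005) (nat_lit 633480173461338643728564515)) C.nil))) C.nil))) C.nil))) C.nil)) (C.cons (nat_lit 14) (C.node (nat_lit 2) (nat_lit 3) (nat_lit 9) (C.cons (nat_lit 652) (C.miq (nat_lit 1362233495) (nat_lit 16928005269289530271990721)) (C.cons (nat_lit 524) (C.node (nat_lit 3) (nat_lit 7) (nat_lit 9) (C.cons (nat_lit 648) (C.node (nat_lit 5) (nat_lit 8) (nat_lit 9) (C.cons (nat_lit 804) (C.miq (nat_lit 691492880) (nat_lit 783386975049361090054652195)) (C.cons (nat_lit 800) (C.node (nat_lit 1) (nat_lit 3) (nat_lit 5) (C.cons (nat_lit 106) (C.node (nat_lit 1) (nat_lit 6) (nat_lit 9) (C.cons (nat_lit 578) (C.node (nat_lit 3) (nat_lit 5) (nat_lit 7) (C.cons (nat_lit 424) (C.miq (nat_lit 557123975) (nat_lit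 128149180738011709020046273)) (C.cons (nat_lit 168) (C.node (nat_lit 1) (nat_lit 2) (nat_lit 5) (C.cons (nat_lit 54) (C.node (nat_lit 1) (nat_lit 6) (nat_lit 7) (C.cons (nat_lit 198) (C.miq (nat_lit 2535786004) (nat_lit 199483256704290057587392595)) (C.cons (nat_lit 194) (C.node (nat_lit 1) (nat_lit 2) (nat_lit 6) (C.cons (nat_lit 326) (C.miq (nat_lit 630723590) (nat_lit 967146669345473461720514643)) (C.cons (nat_lit 70) (C.node (nat_lit 1) (nat_lit 6) (nat_lit 8) (C.cons (nat_lit 322) (C.node (nat_lit 1) (nat_lit 2) (nat_lit 7) (C.cons (nat_lit 390) (C.miq (nat_lit 824547440) (nat_lit 65292490675557123097953217)) (C.cons (nat_lit 134) (C.node (nat_lit 1) (nat_lit 2) (nat_lit 8) (C.cons (nat_lit 262) (C.node (nat_lit 2) (nat_lit 6) (nat_lit 7) (C.cons (nat_lit 212) (C.miq (nat_lit 2267350593) (nat_lit 199478128509437626461585491)) (C.cons (nat_lit 196) (C.node (nat_lit 2) (nat_lit 7) (nat_lit 9) (C.cons (nat_lit 660) (C.miq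 (nat_lit 1914213456) (nat_lit 316756292245861395228459577)) (C.cons (nat_lit 644) (C.node (nat_lit 4) (nat_lit 6) (nat_lit 9) (C.cons (nat_lit 596) (C.miq (nat_lit 1645778000) (nat_lit 316756292227846996718977593)) (C.cons (nat_lit 592) (C.node (nat_lit 5) (nat_lit 6) (nat_lit 7) (C.cons (nat_lit 240) (C.miq (nat_lit 2538735169) (nat_lit 199482334367086552498438227)) (C.cons (nat_lit 224) (C.node (nat_lit 4) (nat_lit 5) (nat_lit 6) (C.cons (nat_lit 368) (C.miq (nat_lit 696586340) (nat_lit 967141651961972960481247315)) (C.cons (nat_lit 112) (C.node (nat_lit 3) (nat_lit 6) (nat_lit 7) (C.cons (nat_lit 200) (C.node (nat_lit 4) (nat_lit 6) (nat_lit 7) C.nil) C.nil)) C.nil))) C.nil))) C.nil))) C.nil))) C.nil))) C.nil)) C.nil))) C.nil)) C.nil))) C.nil))) (C.cons (nat_lit 38) (C.node (nat_lit 1) (nat_lit 4) (nat_lit 5) (C.cons (nat_lit 178) (C.node (nat_lit 1) (nat_lit 4) (nat_lit 9) (C.cons (nat_lit 530) (C.node (nat_lit 1)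 (nat_lit 5) (nat_lit 9) (C.cons (nat_lit 546) (C.node (nat_lit 1) (nat_lit 7) (nat_lit 9) (C.cons (nat_lit 642) (C.node (nat_lit 5) (nat_lit 6) (nat_lit 7) (C.cons (nat_lit 224) (C.node (nat_lit 5) (nat_lit 7) (nat_lit 8) (C.cons (nat_lit 416) (C.node (nat_lit 5) (nat_lit 7) (nat_lit 9) (C.cons (nat_lit 672) (C.node (nat_lit 1) (nat_lit 6) (nat_lit 7) (C.cons (nat_lit 198) (C.miq (nat_lit 659775808) (nat_lit 203100958150284186916290643)) (C.cons (nat_lit 194) (C.node (nat_lit 1) (nat_lit 2) (nat_lit 7) (C.cons (nat_lit 390) (C.miq (nat_lit 824547440) (nat_lit 45949677561723056302654401)) (C.cons (nat_lit 134) (C.node (nat_lit 1) (nat_lit 7) (nat_lit 8) C.nil) C.nil))) C.nil))) C.nil)) C.nil)) C.nil)) C.nil)) C.nil)) C.nil)) (C.cons (nat_lit 50) (C.node (nat_lit 1) (nat_lit 4) (nat_lit 9) (C.cons (nat_lit 658) (C.node (nat_lit 1) (nat_lit 5) (nat_lit 7) (C.cons (nat_lit 162) (C.node (nat_lit 1) (nat_lit 5) (nat_lit 9) (C.cons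 (nat_lit 546) (C.node (nat_lit 2) (nat_lit 7) (nat_lit 9) (C.cons (nat_lit 644) (C.node (nat_lit 5) (nat_lit 7) (nat_lit 9) (C.cons (nat_lit 672) (C.node (nat_lit 1) (nat_lit 6) (nat_lit 7) (C.cons (nat_lit 198) (C.miq (nat_lit 1092851552) (nat_lit 16935457857194134264939457)) (C.cons (nat_lit 194) (C.node (nat_lit 1) (nat_lit 2) (nat_lit 7) (C.cons (nat_lit 390) (C.miq (nat_lit 824547440) (nat_lit 45949677561723056302654401)) (C.cons (nat_lit 134)
  (C.node (nat_lit 1) (nat_lit 7) (nat_lit 8) (C.cons (nat_lit 386) (C.node (nat_lit 3) (nat_lit 6) (nat_lit 7) C.nil) C.nil)) C.nil))) C.nil))) C.nil)) C.nil)) C.nil)) C.nil)) (C.cons (nat_lit 530) (C.node (nat_lit 1) (nat_lit 5) (nat_lit 7) (C.cons (nat_lit 674) (C.node (nat_lit 1) (nat_lit 6) (nat_lit 7) (C.cons (nat_lit 198) (C.miq (nat_lit 1361287008) (nat_lit 16935457861697733892309953)) (C.cons (nat_lit 194) (C.node (nat_lit 2) (nat_lit 5) (nat_lit 9) (C.cons (nat_lit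 612) (C.miq (nat_lit 827459478) (nat_lit 45940601583777500885156801)) (C.cons (nat_lit 548) (C.node (nat_lit 5) (nat_lit 6) (nat_lit 9) (C.cons (nat_lit 608) (C.node (nat_lit 1) (nat_lit 2) (nat_lit 6) (C.cons (nat_lit 326) (C.node (nat_lit 2) (nat_lit 3) (nat_lit 5) (C.cons (nat_lit 300) (C.miq (nat_lit 1099236899) (nat_lit 351807909728598853820350541)) (C.cons (nat_lit 44) (C.node (nat_lit 3) (nat_lit 5) (nat_lit 8) (C.cons (nat_lit 296) (C.node (nat_lit 3) (nat_lit 6) (nat_lit 8) (C.cons (nat_lit 344) (C.miq (nat_lit 1209611808) (nat_lit 940554783954388230838091853)) C.nil)) C.nil)) C.nil))) (C.cons (nat_lit 70) (C.node (nat_lit 1) (nat_lit 6) (nat_lit 8) (C.cons (nat_lit 322) (C.node (nat_lit 2) (nat_lit 7) (nat_lit 6) (C.cons (nat_lit 212) (C.node (nat_lit 2) (nat_lit 7) (nat_lit 9) (C.cons (nat_lit 644) (C.node (nat_lit 2) (nat_lit 6) (nat_lit 9) C.nil) C.nil)) (C.cons (nat_lit 196) (C.node (nat_lit 2) (nat_lit 7)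 (nat_lit 9) (C.cons (nat_lit 660) (C.node (nat_lit 1) (nat_lit 2) (nat_lit 7) (C.cons (nat_lit 390) (C.miq (nat_lit 824547440) (nat_lit 45949677561723056302654401)) C.nil)) (C.cons (nat_lit 644) (C.node (nat_lit 7) (nat_lit 4) (nat_lit 9) (C.cons (nat_lit 656) (C.node (nat_lit 2) (nat_lit 8) (nat_lit 9) C.nil) C.nil)) C.nil))) C.nil))) C.nil)) C.nil))) C.nil)) C.nil))) C.nil))) (C.cons (nat_lit 162) (C.node (nat_lit 1) (nat_lit 5) (nat_lit 9) (C.cons (nat_lit 546) (C.node (nat_lit 1) (nat_lit 7) (nat_lit 9) (C.cons (nat_lit 642) (C.node (nat_lit 5) (nat_lit 7) (nat_lit 9) (C.cons (nat_lit 672) (C.node (nat_lit 1) (nat_lit 6) (nat_lit 7) (C.cons (nat_lit 198) (C.node (nat_lit 1) (nat_lit 6) (nat_lit 8) (C.cons (nat_lit 322) (C.node (nat_lit 2) (nat_lit 5) (nat_lit 9) (C.cons (nat_lit 612) (C.miq (nat_lit 1377015408) (nat_lit 16935457844246285340312513)) C.nil)) C.nil)) (C.cons (nat_lit 194) (C.node (nat_lit 2) (nat_lit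 5) (nat_lit 9) (C.cons (nat_lit 612) (C.node (nat_lit 4) (nat_lit 6) (nat_lit 9) C.nil) C.nil)) C.nil))) C.nil)) C.nil)) C.nil)) C.nil))) C.nil))) C.nil))) C.nil))) C.nil))) C.nil)) (C.cons (nat_lit 42) (C.node (nat_lit 1) (nat_lit 3) (nat_lit 6) (C.cons (nat_lit 74) (C.node (nat_lit 1) (nat_lit 4) (nat_lit 9) (C.cons (nat_lit 658) (C.node (nat_lit 2) (nat_lit 7) (nat_lit 9) (C.cons (nat_lit 644) (C.node (nat_lit 5) (nat_lit 7) (nat_lit 9) (C.cons (nat_lit 672) (C.node (nat_lit 1) (nat_lit 7) (nat_lit 8) (C.cons (nat_lit 390) (C.miq (nat_lit 1393691015) (nat_lit 16928005347539573780382657)) (C.cons (nat_lit 386) (C.node (nat_lit 1) (nat_lit 2) (nat_lit 7) (C.cons (nat_lit 198) (C.miq (nat_lit 1092851552) (nat_lit 16935457857194134264939457)) (C.cons (nat_lit 134) (C.node (nat_lit 4) (nat_lit 6) (nat_lit 9) (C.cons (nat_lit 596) (C.miq (nat_lit 588537977) (nat_lit 31443065591122459685422017)) (C.cons (nat_lit 592) (C.node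 (nat_lit 1) (nat_lit 4) (nat_lit 5) (C.cons (nat_lit 54) (C.node (nat_lit 1) (nat_lit 4) (nat_lit 8) (C.cons (nat_lit 274) (C.node (nat_lit 1) (nat_lit 2) (nat_lit 6) (C.cons (nat_lit 326) (C.miq (nat_lit 630723590) (nat_lit 967146669345473461720514643)) (C.cons (nat_lit 70) (C.node (nat_lit 1) (nat_lit 2) (nat_lit 8) (C.cons (nat_lit 262) (C.node (nat_lit 1) (nat_lit 6) (nat_lit 8) (C.cons (nat_lit 322) (C.node (nat_lit 2) (nat_lit 6) (nat_lit 7) (C.cons (nat_lit 212) (C.miq (nat_lit 2267350593) (nat_lit 199478128509437626461585491)) (C.cons (nat_lit 196) (C.node (nat_lit 2) (nat_lit 4) (nat_lit 6) C.nil) C.nil))) C.nil)) C.nil)) C.nil))) C.nil)) (C.cons (nat_lit 50)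
  (C.node (nat_lit 1) (nat_lit 2) (nat_lit 4) (C.cons (nat_lit 278) (C.node (nat_lit 1) (nat_lit 6) (nat_lit 8) (C.cons (nat_lit 322) (C.node (nat_lit 2) (nat_lit 4) (nat_lit 9) (C.cons (nat_lit 532) (C.node (nat_lit 2) (nat_lit 8) (nat_lit 9) (C.cons (nat_lit 772) (C.node (nat_lit 4) (nat_lit 8) (nat_lit 9) (C.cons (nat_lit 784) (C.node (nat_lit 2) (nat_lit 6) (nat_lit 7) (C.cons (nat_lit 212) (C.node (nat_lit 2) (nat_lit 3) (nat_lit 4) C.nil) C.nil)) C.nil)) C.nil)) C.nil)) C.nil)) (C.cons (nat_lit 22) (C.node (nat_lit 1) (nat_lit 4) (nat_lit 8) (C.cons (nat_lit 274) (C.node (nat_lit 1) (nat_lit 2) (nat_lit 5) (C.cons (nat_lit 102) (C.node (nat_lit 1) (nat_lit 2) (nat_lit 8) (C.cons (nat_lit 262) (C.node (nat_lit 1) (nat_lit 5) (nat_lit 7) (C.cons (nat_lit 162) (C.node (nat_lit 1) (nat_lit 5) (nat_lit 9) (C.cons (nat_lit 546) (C.node (nat_lit 1) (nat_lit 6) (nat_lit 7) C.nil) C.nil)) C.nil)) C.nil)) (C.cons (nat_lit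 38) (C.node (nat_lit 1) (nat_lit 2) (nat_lit 6) (C.cons (nat_lit 326) (C.node (nat_lit 2) (nat_lit 3) (nat_lit 5) (C.cons (nat_lit 300) (C.miq (nat_lit 1099236899) (nat_lit 351807909728598853820350541)) (C.cons (nat_lit 44) (C.node (nat_lit 2) (nat_lit 4) (nat_lit 9) C.nil) C.nil))) (C.cons (nat_lit 70) (C.node (nat_lit 1) (nat_lit 2) (nat_lit 8) (C.cons (nat_lit 262) (C.node (nat_lit 1) (nat_lit 6) (nat_lit 8) C.nil) C.nil)) C.nil))) C.nil))) C.nil)) C.nil))) C.nil))) C.nil))) C.nil))) C.nil))) C.nil)) C.nil)) (C.cons (nat_lit 530) (C.node (nat_lit 1) (nat_lit 6) (nat_lit 8) (C.cons (nat_lit 326) (C.node (nat_lit 1) (nat_lit 2) (nat_lit 5) (C.cons (nat_lit 54) (C.miq (nat_lit 630723590) (nat_lit 967146669345473461720514643)) (C.cons (nat_lit 38) (C.node (nat_lit 2) (nat_lit 3) (nat_lit 5) (C.cons (nat_lit 300) (C.miq (nat_lit 1099236899) (nat_lit 351807909728598853820350541)) (C.cons (nat_lit 44) (C.node (nat_lit 4) (nat_lit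 6) (nat_lit 9) (C.cons (nat_lit 596) (C.miq (nat_lit 1108711040) (nat_lit 45949677510494335671665601)) (C.cons (nat_lit 592) (C.node (nat_lit 3) (nat_lit 5) (nat_lit 8) (C.cons (nat_lit 424) (C.miq (nat_lit 324180080) (nat_lit 53202310142207291902198721)) (C.cons (nat_lit 360) (C.miq (nat_lit 1478047264) (nat_lit 940554783958891830465462349)) (C.cons (nat_lit 296) (C.node (nat_lit 3) (nat_lit 6) (nat_lit 8) (C.cons (nat_lit 344) (C.miq (nat_lit 1209611808) (nat_lit 940554783954388230838091853)) (C.cons (nat_lit 328) (C.node (nat_lit 4) (nat_lit 6) (nat_lit 8) (C.cons (nat_lit 368) (C.miq (nat_lit 693637190) (nat_lit 967146669476359325852106835)) (C.cons (nat_lit 336) (C.node (nat_lit 5) (nat_lit 6) (nat_lit 8) (C.cons (nat_lit 352) (C.node (nat_lit 1) (nat_lit 2) (nat_lit 4) (C.cons (nat_lit 150) (C.node (nat_lit 1) (nat_lit 4) (nat_lit 5) (C.cons (nat_lit 50) (C.node (nat_lit 1) (nat_lit 4) (nat_lit 8) (C.cons (nat_lit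 274) (C.node (nat_lit 1) (nat_lit 7) (nat_lit 8) (C.cons (nat_lit 386) (C.node (nat_lit 2) (nat_lit 3) (nat_lit 4) C.nil) C.nil)) C.nil)) C.nil)) (C.cons (nat_lit 22) (C.node (nat_lit 1) (nat_lit 2) (nat_lit 7) (C.cons (nat_lit 134) (C.node (nat_lit 1) (nat_lit 4) (nat_lit 5) (C.cons (nat_lit 178) (C.node (nat_lit 1) (nat_lit 4) (nat_lit 8) (C.cons (nat_lit 274) (C.node (nat_lit 1) (nat_lit 6) (nat_lit 7) C.nil) C.nil)) (C.cons (nat_lit 50) (C.node (nat_lit 1) (nat_lit 4) (nat_lit 7) (C.cons (nat_lit 402) (C.node (nat_lit 5) (nat_lit 7) (nat_lit 8) (C.cons (nat_lit 416) (C.node (nat_lit 3) (nat_lit 4) (nat_lit 6) C.nil) C.nil)) (C.cons (nat_lit 146) (C.node (nat_lit 2) (nat_lit 5) (nat_lit 8) C.nil) C.nil))) C.nil))) C.nil)) C.nil))) C.nil)) C.nil))) C.nil))) C.nil)))) C.nil))) C.nil))) C.nil))) (C.cons (nat_lit 322) (C.node (nat_lit 1) (nat_lit 6) (nat_lit 9) (C.cons (nat_lit 610) (C.node (nat_lit 1) (nat_lit 7) (nat_lit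 9) (C.cons (nat_lit 642) (C.node (nat_lit 2) (nat_lit 5) (nat_lit 9) (C.cons (nat_lit 548) (C.node (nat_lit 5) (nat_lit 7) (nat_lit 9) (C.cons (nat_lit 672) (C.node (nat_lit 1) (nat_lit 2) (nat_lit 5) (C.cons (nat_lit 54)
  (C.node (nat_lit 1) (nat_lit 5) (nat_lit 7) (C.cons (nat_lit 162) (C.node (nat_lit 1) (nat_lit 2) (nat_lit 6) (C.cons (nat_lit 198) (C.miq (nat_lit 1918460224) (nat_lit 662509076525603899972321363)) (C.cons (nat_lit 70) (C.node (nat_lit 1) (nat_lit 6) (nat_lit 7) (C.cons (nat_lit 194) (C.node (nat_lit 1) (nat_lit 2) (nat_lit 7) (C.cons (nat_lit 390) (C.miq (nat_lit 824547440) (nat_lit 65292490675557123097953217)) (C.cons (nat_lit 134) (C.node (nat_lit 1) (nat_lit 2) (nat_lit 8) (C.cons (nat_lit 262) (C.node (nat_lit 1) (nat_lit 4) (nat_lit 7) (C.cons (nat_lit 402) (C.node (nat_lit 2) (nat_lit 5) (nat_lit 6) (C.cons (nat_lit 356) (C.node (nat_lit 2) (nat_lit 3) (nat_lit 5) C.nil) C.nil)) C.nil)) C.nil))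 C.nil))) C.nil)) C.nil))) C.nil)) (C.cons (nat_lit 38) (C.node (nat_lit 1) (nat_lit 2) (nat_lit 6) (C.cons (nat_lit 198) (C.node (nat_lit 1) (nat_lit 4) (nat_lit 5) (C.cons (nat_lit 178) (C.miq (nat_lit 846530068) (nat_lit 199483256455466178183299155)) (C.cons (nat_lit 50) (C.node (nat_lit 1) (nat_lit 5) (nat_lit 7) (C.cons (nat_lit 162) (C.node (nat_lit 2) (nat_lit 6) (nat_lit 9) (C.cons (nat_lit 596) (C.miq (nat_lit 1108579952) (nat_lit 16935457839742685712942017)) (C.cons (nat_lit 580) (C.node (nat_lit 4) (nat_lit 6) (nat_lit 9) C.nil) C.nil))) C.nil)) C.nil))) (C.cons (nat_lit 70) (C.node (nat_lit 1) (nat_lit 6) (nat_lit 7) (C.cons (nat_lit 194) (C.node (nat_lit 1) (nat_lit 4) (nat_lit 5) (C.cons (nat_lit 178) (C.node (nat_lit 1) (nat_lit 2) (nat_lit 7) (C.cons (nat_lit 390) (C.miq (nat_lit 824547440) (nat_lit 45949677561723056302654401)) (C.cons (nat_lit 134) (C.node (nat_lit 1) (nat_lit 7) (nat_lit 8) (C.cons (nat_lit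 386) (C.node (nat_lit 1) (nat_lit 2) (nat_lit 4) (C.cons (nat_lit 278) (C.node (nat_lit 2) (nat_lit 8) (nat_lit 9) (C.cons (nat_lit 772) (C.node (nat_lit 4) (nat_lit 8) (nat_lit 9) C.nil) C.nil)) C.nil)) C.nil)) C.nil))) (C.cons (nat_lit 50) (C.node (nat_lit 1) (nat_lit 5) (nat_lit 7) (C.cons (nat_lit 162) (C.node (nat_lit 1) (nat_lit 7) (nat_lit 8) (C.cons (nat_lit 406) (C.miq (nat_lit 824547440) (nat_lit 45949677561723125022131137)) (C.cons (nat_lit 402) (C.node (nat_lit 1) (nat_lit 2) (nat_lit 4) C.nil) (C.cons (nat_lit 390) (C.miq (nat_lit 824547440) (nat_lit 45949677561723056302654401)) C.nil)))) C.nil)) C.nil))) C.nil)) C.nil))) C.nil))) C.nil)) C.nil)) C.nil)) (C.cons (nat_lit 578) (C.node (nat_lit 1) (nat_lit 5) (nat_lit 9) (C.cons (nat_lit 674) (C.node (nat_lit 1) (nat_lit 6) (nat_lit 7) (C.cons (nat_lit 198) (C.miq (nat_lit 1361287008) (nat_lit 16935457861697733892309953)) (C.cons (nat_lit 194) (C.node (nat_lit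 2) (nat_lit 5) (nat_lit 9) (C.cons (nat_lit 612) (C.miq (nat_lit 588603513) (nat_lit 50786173852861705834595265)) (C.cons (nat_lit 548) (C.node (nat_lit 5) (nat_lit 6) (nat_lit 9) (C.cons (nat_lit 608) (C.node (nat_lit 3) (nat_lit 5) (nat_lit 7) (C.cons (nat_lit 424) (C.miq (nat_lit 557123975) (nat_lit 50777928282675441838851009)) (C.cons (nat_lit 232) (C.miq (nat_lit 559090038) (nat_lit 50776304969196508709127105)) (C.cons (nat_lit 168) (C.node (nat_lit 1) (nat_lit 2) (nat_lit 6) (C.cons (nat_lit 102) (C.node (nat_lit 1) (nat_lit 4) (nat_lit 5) (C.cons (nat_lit 50) (C.node (nat_lit 2) (nat_lit 7) (nat_lit 6) (C.cons (nat_lit 212) (C.node (nat_lit 2) (nat_lit 7) (nat_lit 9) (C.cons (nat_lit 644) (C.node (nat_lit 2) (nat_lit 8) (nat_lit 6) (C.cons (nat_lit 324) (C.node (nat_lit 2) (nat_lit 6) (nat_lit 9) (C.cons (nat_lit 580) (C.node (nat_lit 7) (nat_lit 6) (nat_lit 5) C.nil) C.nil)) C.nil)) C.nil)) (C.cons (nat_lit 196)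 (C.node (nat_lit 2) (nat_lit 7) (nat_lit 9) (C.cons (nat_lit 660) (C.node (nat_lit 2) (nat_lit 8) (nat_lit 9) (C.cons (nat_lit 772) (C.node (nat_lit 2) (nat_lit 6) (nat_lit 9) (C.cons (nat_lit 580) (C.node (nat_lit 6) (nat_lit 4) (nat_lit 9) C.nil) C.nil)) C.nil)) (C.cons (nat_lit 644) (C.node (nat_lit 7) (nat_lit 4) (nat_lit 9) (C.cons (nat_lit 656) (C.node (nat_lit 2) (nat_lit 5) (nat_lit 3) C.nil) C.nil)) C.nil))) C.nil))) C.nil)) (C.cons (nat_lit 70)
  (C.node (nat_lit 1) (nat_lit 5) (nat_lit 6) (C.cons (nat_lit 98) (C.node (nat_lit 3) (nat_lit 5) (nat_lit 6) (C.cons (nat_lit 360) (C.node (nat_lit 2) (nat_lit 3) (nat_lit 5) C.nil) C.nil)) C.nil)) C.nil))) C.nil)))) C.nil)) C.nil))) C.nil))) (C.cons (nat_lit 546) (C.node (nat_lit 1) (nat_lit 7) (nat_lit 9) (C.cons (nat_lit 642) (C.node (nat_lit 5) (nat_lit 7) (nat_lit 9) (C.cons (nat_lit 672) (C.ref (nat_lit 53) (nat_lit 654820258320)) C.nil)) C.nil)) C.nil))) C.nil)))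 C.nil))) C.nil))) C.nil)) C.nil))) C.nil))) C.nil)) C.nil))) C.nil))) C.nil))) (C.cons (nat_lit 522) (C.ref (nat_lit 55) (nat_lit 654820258320)) C.nil))) C.nil))) List.nil)

theorem ok10_56 : okL par10 (nat_lit 57) c10_56 (nat_lit 56) = true := by decide +kernel

noncomputable def c10_57 : List C :=
  (List.cons (C.qs (C.cons (nat_lit 2368) (C.pat (nat_lit 1) (nat_lit 1748458017) (nat_lit 1511034524265853526213086234955546889)) (C.cons (nat_lit 400) (C.pat (nat_lit 1) (nat_lit 946493729) (nat_lit 1510979381397052459198904685490930625)) (C.cons (nat_lit 2312) (C.ref (nat_lit 56) (nat_lit 654820258320)) (C.cons (nat_lit 2120) (C.pat (nat_lit 1) (nat_lit 1416849953) (nat_lit 431005720250903787883176127194005649)) (C.cons (nat_lit 328) (C.pat (nat_lit 1) (nat_lit 2793752369) (nat_lit 430968324741954665169117012679001025)) (C.cons (nat_lit 2376) (C.pat (nat_lit 1) (nat_lit 1748458017) (nat_lit 1511034524265853526213086234955546889))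 (C.cons (nat_lit 1064) (C.pat (nat_lit 1) (nat_lit 1952082209) (nat_lit 430972127693770402372339784166998585)) (C.cons (nat_lit 580) (C.pat (nat_lit 1) (nat_lit 1450854689) (nat_lit 430968324558205761979034765354140609)) (C.cons (nat_lit 324) (C.pat (nat_lit 2) (nat_lit 45216785491) (nat_lit 468371797270651111884465995533281945991054273)) (C.cons (nat_lit 578) (C.pat (nat_lit 1) (nat_lit 1698335009) (nat_lit 1510966071133457139812285098041344569)) (C.cons (nat_lit 74) (C.pat (nat_lit 2) (nat_lit 34680896101) (nat_lit 5820520698989782329900375662209259840510951563)) (C.cons (nat_lit 2113) (C.pat (nat_lit 0) (nat_lit 177755713) (nat_lit 76138381447048652340039245824083)) (C.cons (nat_lit 577) (C.ref (nat_lit 56) (nat_lit 654820258320)) C.nil)))))))))))))) (List.cons (C.node (nat_lit 0) (nat_lit 2) (nat_lit 5) (C.cons (nat_lit 165) (C.node (nat_lit 0) (nat_lit 4) (nat_lit 7) (C.cons (nat_lit 145) (C.node (nat_lit 0) (nat_lit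 2) (nat_lit 4) (C.cons (nat_lit 21) (C.node (nat_lit 0) (nat_lit 2) (nat_lit 8) (C.cons (nat_lit 261) (C.node (nat_lit 0) (nat_lit 4) (nat_lit 8) (C.cons (nat_lit 273) (C.ref (nat_lit 57) (nat_lit 654820258320)) C.nil)) C.nil)) C.nil)) C.nil)) (C.cons (nat_lit 37) (C.node (nat_lit 0) (nat_lit 5) (nat_lit 7) (C.cons (nat_lit 161) (C.node (nat_lit 0) (nat_lit 2) (nat_lit 7) (C.cons (nat_lit 149) (C.pat (nat_lit 0) (nat_lit 73873697) (nat_lit 76138952057747975692308565393927)) (C.cons (nat_lit 133) (C.node (nat_lit 0) (nat_lit 4) (nat_lit 7) (C.cons (nat_lit 145) (C.node (nat_lit 0) (nat_lit 2) (nat_lit 4) (C.cons (nat_lit 277) (C.ref (nat_lit 57) (nat_lit 650288382480)) C.nil)) C.nil)) C.nil))) C.nil)) C.nil))) (List.cons (C.node (nat_lit 0) (nat_lit 1) (nat_lit 8) (C.cons (nat_lit 259) (C.node (nat_lit 0) (nat_lit 4) (nat_lit 7) (C.cons (nat_lit 149) (C.pat (nat_lit 0) (nat_lit 73873697) (nat_lit 76138952057747975692308565393927))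 (C.cons (nat_lit 145) (C.node (nat_lit 0) (nat_lit 2) (nat_lit 4) (C.cons (nat_lit 277) (C.node (nat_lit 0) (nat_lit 5) (nat_lit 8) (C.cons (nat_lit 289) (C.node (nat_lit 0) (nat_lit 2) (nat_lit 5) (C.cons (nat_lit 165) (C.ref (nat_lit 57) (nat_lit 654567616800)) C.nil)) C.nil)) (C.cons (nat_lit 21) (C.node (nat_lit 0) (nat_lit 4) (nat_lit 8) C.nil) C.nil))) C.nil))) C.nil)) (List.cons (C.node (nat_lit 0) (nat_lit 2) (nat_lit 4) (C.cons (nat_lit 149) (C.node (nat_lit 0) (nat_lit 5) (nat_lit 7) (C.cons (nat_lit 161) (C.node (nat_lit 0) (nat_lit 2) (nat_lit 5) (C.cons (nat_lit 293) (C.ref (nat_lit 57) (nat_lit 646261850400)) C.nil)) C.nil)) (C.cons (nat_lit 21) (C.node (nat_lit 0) (nat_lit 4) (nat_lit 7) C.nil) C.nil))) (List.cons (C.node (nat_lit 0) (nat_lit 4) (nat_lit 6) (C.cons (nat_lit 83) (C.node (nat_lit 0) (nat_lit 5) (nat_lit 6) (C.cons (nat_lit 97) (C.node (nat_lit 0) (nat_lit 1) (nat_lit 5) (C.cons (nat_lit 291)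 (C.ref (nat_lit 58) (nat_lit 654820258320)) (C.cons (nat_lit 35) (C.ref (nat_lit 59) (nat_lit 654820258320)) C.nil))) C.nil)) (C.cons (nat_lit 81) (C.node (nat_lit 0) (nat_lit 1) (nat_lit 4) (C.cons (nat_lit 275) (C.node (nat_lit 0) (nat_lit 1) (nat_lit 5) (C.cons (nat_lit 99) (C.ref (nat_lit 58) (nat_lit 654819275280)) (C.cons (nat_lit 35) (C.node (nat_lit 0) (nat_lit 1) (nat_lit 6) (C.cons (nat_lit 67) (C.node (nat_lit 0) (nat_lit 5) (nat_lit 6) (C.cons (nat_lit 97) (C.ref (nat_lit 60) (nat_lit 654820258320)) C.nil)) C.nil)) C.nil)))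
  (C.cons (nat_lit 19) (C.node (nat_lit 0) (nat_lit 1) (nat_lit 6) (C.cons (nat_lit 99) (C.ref (nat_lit 59) (nat_lit 654819275280)) (C.cons (nat_lit 67) (C.node (nat_lit 0) (nat_lit 5) (nat_lit 6) (C.cons (nat_lit 97) (C.node (nat_lit 0) (nat_lit 1) (nat_lit 5) (C.cons (nat_lit 291) (C.ref (nat_lit 60) (nat_lit 654819275280)) (C.cons (nat_lit 35) (C.node (nat_lit 0) (nat_lit 1) (nat_lit 8) C.nil) C.nil))) C.nil)) C.nil))) C.nil))) C.nil))) (List.cons (C.node (nat_lit 0) (nat_lit 1) (nat_lit 7) (C.cons (nat_lit 163) (C.node (nat_lit 0) (nat_lit 1) (nat_lit 8) (C.cons (nat_lit 259) (C.ref (nat_lit 60) (nat_lit 641083073040)) C.nil)) (C.cons (nat_lit 131) (C.node (nat_lit 0) (nat_lit 1) (nat_lit 8) (C.cons (nat_lit 291) (C.ref (nat_lit 60) (nat_lit 641082090000)) (C.cons (nat_lit 259) (C.node (nat_lit 0) (nat_lit 1) (nat_lit 5) C.nil) C.nil))) C.nil))) (List.cons (C.node (nat_lit 0) (nat_lit 4) (nat_lit 6) (C.cons (nat_lit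 83) (C.node (nat_lit 0) (nat_lit 5) (nat_lit 6) (C.cons (nat_lit 97) (C.ref (nat_lit 62) (nat_lit 654820258320)) C.nil)) (C.cons (nat_lit 81) (C.node (nat_lit 0) (nat_lit 1) (nat_lit 6) (C.cons (nat_lit 99) (C.ref (nat_lit 62) (nat_lit 654819275280)) (C.cons (nat_lit 67) (C.node (nat_lit 0) (nat_lit 5) (nat_lit 6) (C.cons (nat_lit 97) (C.node (nat_lit 0) (nat_lit 1) (nat_lit 4) (C.cons (nat_lit 275) (C.node (nat_lit 0) (nat_lit 1) (nat_lit 5) (C.cons (nat_lit 163) (C.node (nat_lit 0) (nat_lit 2) (nat_lit 4) (C.cons (nat_lit 149) (C.node (nat_lit 0) (nat_lit 2) (nat_lit 5) (C.cons (nat_lit 293) (C.pat (nat_lit 0) (nat_lit 91769121) (nat_lit 76138952060404327105464670290439)) C.nil)) C.nil)) C.nil)) (C.cons (nat_lit 147) (C.node (nat_lit 0) (nat_lit 1) (nat_lit 5) (C.cons (nat_lit 291) (C.node (nat_lit 0) (nat_lit 2) (nat_lit 4) (C.cons (nat_lit 277) (C.node (nat_lit 0) (nat_lit 2) (nat_lit 5) (C.cons (nat_lit 165) (C.pat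 (nat_lit 0) (nat_lit 92752161) (nat_lit 76138952058043179893376614072839)) C.nil)) C.nil)) C.nil)) C.nil))) C.nil)) C.nil))) C.nil))) (List.cons (C.node (nat_lit 0) (nat_lit 1) (nat_lit 3) (C.cons (nat_lit 267) (C.ref (nat_lit 61) (nat_lit 650793726480)) (C.cons (nat_lit 11) (C.node (nat_lit 0) (nat_lit 3) (nat_lit 8) (C.cons (nat_lit 265) (C.ref (nat_lit 63) (nat_lit 654820258320)) C.nil)) C.nil))) (List.cons (C.node (nat_lit 0) (nat_lit 3) (nat_lit 7) (C.cons (nat_lit 139) (C.node (nat_lit 0) (nat_lit 3) (nat_lit 8) (C.cons (nat_lit 265) (C.ref (nat_lit 61) (nat_lit 654820258320)) C.nil)) (C.cons (nat_lit 137) (C.ref (nat_lit 64) (nat_lit 654820258320)) C.nil))) (List.cons (C.node (nat_lit 0) (nat_lit 1) (nat_lit 7) (C.cons (nat_lit 147) (C.node (nat_lit 0) (nat_lit 1) (nat_lit 8) (C.cons (nat_lit 259) (C.node (nat_lit 0) (nat_lit 2) (nat_lit 6) (C.cons (nat_lit 85) (C.node (nat_lit 0) (nat_lit 4) (nat_lit 8) C.nil)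 C.nil)) C.nil)) (C.cons (nat_lit 131) (C.node (nat_lit 0) (nat_lit 1) (nat_lit 4) (C.cons (nat_lit 275) (C.node (nat_lit 0) (nat_lit 2) (nat_lit 6) (C.cons (nat_lit 85) (C.node (nat_lit 0) (nat_lit 4) (nat_lit 7) C.nil) C.nil)) C.nil)) C.nil))) (List.cons (C.node (nat_lit 0) (nat_lit 4) (nat_lit 7) (C.cons (nat_lit 149) (C.node (nat_lit 0) (nat_lit 4) (nat_lit 8) (C.cons (nat_lit 273) (C.node (nat_lit 0) (nat_lit 5) (nat_lit 7) (C.cons (nat_lit 161) (C.node (nat_lit 0) (nat_lit 1) (nat_lit 2) (C.cons (nat_lit 263) (C.node (nat_lit 0) (nat_lit 1) (nat_lit 5) C.nil) (C.cons (nat_lit 39) (C.node (nat_lit 0) (nat_lit 1) (nat_lit 8) C.nil) C.nil))) C.nil)) C.nil)) (C.cons (nat_lit 145) (C.node (nat_lit 0) (nat_lit 2) (nat_lit 4) (C.cons (nat_lit 277) (C.node (nat_lit 0) (nat_lit 1) (nat_lit 2) (C.cons (nat_lit 39) (C.node (nat_lit 0) (nat_lit 1) (nat_lit 8) (C.cons (nat_lit 259) (C.node (nat_lit 0) (nat_lit 2) (nat_lit 7) C.nil)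 C.nil)) (C.cons (nat_lit 7) (C.node (nat_lit 0) (nat_lit 1) (nat_lit 5) (C.cons (nat_lit 291) (C.node (nat_lit 0) (nat_lit 2) (nat_lit 5) (C.cons (nat_lit 165)
  (C.pat (nat_lit 1) (nat_lit 677664561) (nat_lit 1510980332134995177886348397298385857)) C.nil)) C.nil)) C.nil))) (C.cons (nat_lit 21) (C.node (nat_lit 0) (nat_lit 4) (nat_lit 8) C.nil) C.nil))) C.nil))) (List.cons (C.node (nat_lit 0) (nat_lit 4) (nat_lit 6) (C.cons (nat_lit 83) (C.node (nat_lit 0) (nat_lit 5) (nat_lit 6) (C.cons (nat_lit 97) (C.ref (nat_lit 67) (nat_lit 654820258320)) C.nil)) (C.cons (nat_lit 81) (C.node (nat_lit 0) (nat_lit 1) (nat_lit 6) (C.cons (nat_lit 99) (C.ref (nat_lit 67) (nat_lit 654819275280)) (C.cons (nat_lit 67) (C.node (nat_lit 0) (nat_lit 5) (nat_lit 6) (C.cons (nat_lit 97) (C.node (nat_lit 0) (nat_lit 4) (nat_lit 7) (C.cons (nat_lit 149) (C.node (nat_lit 0) (nat_lit 5) (nat_lit 7) C.nil) C.nil)) C.nil)) C.nil))) C.nil))) (List.cons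 (C.node (nat_lit 0) (nat_lit 4) (nat_lit 6) (C.cons (nat_lit 83) (C.node (nat_lit 0) (nat_lit 5) (nat_lit 6) (C.cons (nat_lit 97) (C.node (nat_lit 0) (nat_lit 7) (nat_lit 4) (C.cons (nat_lit 149) (C.node (nat_lit 0) (nat_lit 8) (nat_lit 4) C.nil) C.nil)) C.nil)) (C.cons (nat_lit 81) (C.node (nat_lit 0) (nat_lit 1) (nat_lit 6) (C.cons (nat_lit 99) (C.node (nat_lit 0) (nat_lit 7) (nat_lit 5) (C.cons (nat_lit 165) (C.node (nat_lit 0) (nat_lit 8) (nat_lit 5) C.nil) C.nil)) C.nil)) C.nil))) (List.cons (C.node (nat_lit 0) (nat_lit 1) (nat_lit 3) (C.cons (nat_lit 267) (C.ref (nat_lit 68) (nat_lit 650793726480)) (C.cons (nat_lit 11) (C.node (nat_lit 0) (nat_lit 3) (nat_lit 8) (C.cons (nat_lit 265) (C.ref (nat_lit 69) (nat_lit 654820258320)) C.nil)) C.nil))) (List.cons (C.node (nat_lit 0) (nat_lit 1) (nat_lit 7) (C.cons (nat_lit 147) (C.node (nat_lit 0) (nat_lit 1) (nat_lit 8) (C.cons (nat_lit 259) (C.node (nat_lit 0) (nat_lit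 2) (nat_lit 6) (C.cons (nat_lit 85) (C.node (nat_lit 0) (nat_lit 4) (nat_lit 8) C.nil) C.nil)) C.nil)) (C.cons (nat_lit 131) (C.node (nat_lit 0) (nat_lit 1) (nat_lit 4) (C.cons (nat_lit 275) (C.node (nat_lit 0) (nat_lit 2) (nat_lit 6) (C.cons (nat_lit 85) (C.node (nat_lit 0) (nat_lit 4) (nat_lit 7) C.nil) C.nil)) C.nil)) C.nil))) (List.cons (C.big (C.cons (nat_lit 295) (C.ref (nat_lit 51) (nat_lit 654820258320)) (C.cons (nat_lit 279) (C.ref (nat_lit 51) (nat_lit 654819275280)) (C.cons (nat_lit 271) (C.ref (nat_lit 51) (nat_lit 654818230800)) (C.cons (nat_lit 167) (C.ref (nat_lit 51) (nat_lit 650793726480)) (C.cons (nat_lit 151) (C.ref (nat_lit 51) (nat_lit 650792743440)) (C.cons (nat_lit 143) (C.ref (nat_lit 51) (nat_lit 650791698960)) (C.cons (nat_lit 103) (C.ref (nat_lit 51) (nat_lit 646515536400)) (C.cons (nat_lit 87) (C.ref (nat_lit 51) (nat_lit 646514553360)) (C.cons (nat_lit 79) (C.ref (nat_lit 51) (nat_lit 646513508880))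 C.nil))))))))) (C.node (nat_lit 0) (nat_lit 1) (nat_lit 9) (C.cons (nat_lit 519) (C.node (nat_lit 0) (nat_lit 3) (nat_lit 6) (C.cons (nat_lit 77) (C.ref (nat_lit 65) (nat_lit 654820258320)) (C.cons (nat_lit 75) (C.ref (nat_lit 65) (nat_lit 654820258080)) (C.cons (nat_lit 73) (C.node (nat_lit 0) (nat_lit 1) (nat_lit 3) (C.cons (nat_lit 267) (C.ref (nat_lit 64) (nat_lit 650290409760)) (C.cons (nat_lit 139) (C.ref (nat_lit 64) (nat_lit 654568599840)) (C.cons (nat_lit 11) (C.node (nat_lit 0) (nat_lit 3) (nat_lit 7) (C.cons (nat_lit 141) (C.node (nat_lit 0) (nat_lit 3) (nat_lit 8) (C.cons (nat_lit 265) (C.ref (nat_lit 63) (nat_lit 654568600080)) C.nil)) (C.cons (nat_lit 137) (C.node (nat_lit 0) (nat_lit 2) (nat_lit 3) (C.cons (nat_lit 269) (C.ref (nat_lit 63) (nat_lit 650290410000)) (C.cons (nat_lit 13) (C.node (nat_lit 0) (nat_lit 3) (nat_lit 8) (C.cons (nat_lit 265) (C.node (nat_lit 0) (nat_lit 1) (nat_lit 6) (C.cons (nat_lit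 99) (C.ref (nat_lit 66) (nat_lit 654820258320)) (C.cons (nat_lit 83) (C.ref (nat_lit 66) (nat_lit 654819275280)) (C.cons (nat_lit 67) (C.node (nat_lit 0) (nat_lit 4) (nat_lit 6) (C.cons (nat_lit 85) (C.node (nat_lit 0) (nat_lit 5) (nat_lit 6) C.nil) C.nil)) C.nil)))) C.nil)) C.nil))) C.nil))) C.nil)))) C.nil)))) (C.cons (nat_lit 515) (C.node (nat_lit 0) (nat_lit 2) (nat_lit 9) (C.cons (nat_lit 517)
  (C.node (nat_lit 0) (nat_lit 3) (nat_lit 6) (C.cons (nat_lit 77) (C.node (nat_lit 0) (nat_lit 3) (nat_lit 7) (C.cons (nat_lit 139) (C.node (nat_lit 0) (nat_lit 3) (nat_lit 8) (C.cons (nat_lit 265) (C.ref (nat_lit 68) (nat_lit 654820258320)) C.nil)) (C.cons (nat_lit 137) (C.ref (nat_lit 70) (nat_lit 654820258320)) C.nil))) (C.cons (nat_lit 75) (C.node (nat_lit 0) (nat_lit 3) (nat_lit 7) (C.cons (nat_lit 141) (C.node (nat_lit 0) (nat_lit 3) (nat_lit 8) (C.cons (nat_lit 265) (C.ref (nat_lit 68) (nat_lit 654820258080)) C.nil))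 (C.cons (nat_lit 137) (C.ref (nat_lit 70) (nat_lit 654820258080)) C.nil))) (C.cons (nat_lit 73) (C.node (nat_lit 0) (nat_lit 3) (nat_lit 7) (C.cons (nat_lit 141) (C.ref (nat_lit 70) (nat_lit 654568600080)) (C.cons (nat_lit 139) (C.ref (nat_lit 70) (nat_lit 654568599840)) (C.cons (nat_lit 137) (C.node (nat_lit 0) (nat_lit 1) (nat_lit 3) (C.cons (nat_lit 267) (C.node (nat_lit 0) (nat_lit 2) (nat_lit 3) (C.cons (nat_lit 13) (C.ref (nat_lit 69) (nat_lit 650290409760)) C.nil)) (C.cons (nat_lit 15) (C.node (nat_lit 0) (nat_lit 3) (nat_lit 8) (C.cons (nat_lit 265) (C.node (nat_lit 0) (nat_lit 1) (nat_lit 6) (C.cons (nat_lit 99) (C.ref (nat_lit 71) (nat_lit 654820258320)) (C.cons (nat_lit 83) (C.ref (nat_lit 71) (nat_lit 654819275280)) (C.cons (nat_lit 67) (C.node (nat_lit 0) (nat_lit 4) (nat_lit 6) (C.cons (nat_lit 85) (C.node (nat_lit 0) (nat_lit 5) (nat_lit 6) C.nil) C.nil)) C.nil)))) C.nil)) (C.cons (nat_lit 11) (C.node (nat_lit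 0) (nat_lit 2) (nat_lit 3) (C.cons (nat_lit 269) (C.ref (nat_lit 69) (nat_lit 650290410000)) (C.cons (nat_lit 13) (C.node (nat_lit 0) (nat_lit 3) (nat_lit 8) C.nil) C.nil))) C.nil)))) C.nil)))) C.nil)))) C.nil)) C.nil)))) (List.cons (C.node (nat_lit 0) (nat_lit 3) (nat_lit 6) (C.cons (nat_lit 73) (C.node (nat_lit 0) (nat_lit 4) (nat_lit 6) (C.cons (nat_lit 81) (C.node (nat_lit 0) (nat_lit 5) (nat_lit 6) (C.cons (nat_lit 97) (C.node (nat_lit 0) (nat_lit 3) (nat_lit 7) (C.cons (nat_lit 139) (C.node (nat_lit 0) (nat_lit 3) (nat_lit 8) C.nil) C.nil)) C.nil)) C.nil)) C.nil)) (List.cons (C.big C.nil (C.node (nat_lit 0) (nat_lit 2) (nat_lit 6) (C.cons (nat_lit 71) (C.node (nat_lit 0) (nat_lit 2) (nat_lit 7) (C.cons (nat_lit 133) (C.node (nat_lit 0) (nat_lit 2) (nat_lit 8) (C.cons (nat_lit 261) (C.node (nat_lit 0) (nat_lit 2) (nat_lit 9) (C.cons (nat_lit 517) (C.ref (nat_lit 73) (nat_lit 654820258320)) C.nil)) C.nil)) C.nil))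 (C.cons (nat_lit 69) (C.node (nat_lit 0) (nat_lit 2) (nat_lit 7) (C.cons (nat_lit 135) (C.node (nat_lit 0) (nat_lit 2) (nat_lit 8) (C.cons (nat_lit 261) (C.node (nat_lit 0) (nat_lit 2) (nat_lit 9) (C.cons (nat_lit 517) (C.ref (nat_lit 73) (nat_lit 654568600080)) C.nil)) C.nil)) (C.cons (nat_lit 133) (C.node (nat_lit 0) (nat_lit 2) (nat_lit 8) (C.cons (nat_lit 263) (C.node (nat_lit 0) (nat_lit 2) (nat_lit 9) (C.cons (nat_lit 517) (C.ref (nat_lit 73) (nat_lit 650290410000)) C.nil)) (C.cons (nat_lit 261) (C.node (nat_lit 0) (nat_lit 1) (nat_lit 2) (C.cons (nat_lit 519) (C.ref (nat_lit 73) (nat_lit 581587710480)) (C.cons (nat_lit 7) (C.node (nat_lit 0) (nat_lit 2) (nat_lit 9) (C.cons (nat_lit 517) (C.node (nat_lit 0) (nat_lit 3) (nat_lit 6) (C.cons (nat_lit 75) (C.node (nat_lit 0) (nat_lit 3) (nat_lit 7) (C.cons (nat_lit 137) (C.node (nat_lit 0) (nat_lit 3) (nat_lit 8) C.nil) C.nil)) (C.cons (nat_lit 73) (C.node (nat_lit 0)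 (nat_lit 3) (nat_lit 7) (C.cons (nat_lit 139) (C.node (nat_lit 0) (nat_lit 3) (nat_lit 8) C.nil) C.nil)) C.nil))) C.nil)) C.nil))) C.nil))) C.nil))) C.nil)))) (List.cons (C.node (nat_lit 1) (nat_lit 3) (nat_lit 6) (C.cons (nat_lit 586) (C.node (nat_lit 1) (nat_lit 4) (nat_lit 6) (C.cons (nat_lit 82) (C.node (nat_lit 1) (nat_lit 3) (nat_lit 7) (C.cons (nat_lit 170) (C.node (nat_lit 1) (nat_lit 7) (nat_lit 9) (C.cons (nat_lit 642) (C.node (nat_lit 3) (nat_lit 7) (nat_lit 9) (C.cons (nat_lit 648) (C.node (nat_lit 1) (nat_lit 2) (nat_lit 3) (C.cons (nat_lit 30) (C.miq (nat_lit 1899586112) (nat_lit 708448257670959705529843797)) (C.cons (nat_lit 14)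
  (C.node (nat_lit 1) (nat_lit 3) (nat_lit 4) C.nil) C.nil))) C.nil)) C.nil)) (C.cons (nat_lit 138) (C.node (nat_lit 1) (nat_lit 5) (nat_lit 7) (C.cons (nat_lit 674) (C.node (nat_lit 3) (nat_lit 7) (nat_lit 9) (C.cons (nat_lit 648) (C.node (nat_lit 2) (nat_lit 7) (nat_lit 9) (C.cons (nat_lit 660) (C.miq (nat_lit 2483384929) (nat_lit 59249798452396359506133190)) (C.cons (nat_lit 644) (C.node (nat_lit 4) (nat_lit 7) (nat_lit 9) (C.cons (nat_lit 656) (C.node (nat_lit 2) (nat_lit 4) (nat_lit 7) (C.cons (nat_lit 148) (C.node (nat_lit 2) (nat_lit 5) (nat_lit 7) C.nil) C.nil)) C.nil)) C.nil))) C.nil)) (C.cons (nat_lit 162) (C.node (nat_lit 1) (nat_lit 7) (nat_lit 9) (C.cons (nat_lit 642) (C.node (nat_lit 1) (nat_lit 2) (nat_lit 3) (C.cons (nat_lit 14) (C.node (nat_lit 1) (nat_lit 2) (nat_lit 4) C.nil) C.nil)) C.nil)) C.nil))) C.nil))) C.nil)) (C.cons (nat_lit 90) (C.node (nat_lit 1) (nat_lit 6) (nat_lit 9) (C.cons (nat_lit 578)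 (C.node (nat_lit 1) (nat_lit 2) (nat_lit 3) (C.cons (nat_lit 46) (C.node (nat_lit 1) (nat_lit 2) (nat_lit 4) (C.cons (nat_lit 22) (C.node (nat_lit 1) (nat_lit 3) (nat_lit 7) (C.cons (nat_lit 650) (C.miq (nat_lit 824481632) (nat_lit 26606274116049009143776193)) (C.cons (nat_lit 138) (C.node (nat_lit 1) (nat_lit 3) (nat_lit 9) C.nil) C.nil))) C.nil)) (C.cons (nat_lit 14) (C.node (nat_lit 1) (nat_lit 2) (nat_lit 4) (C.cons (nat_lit 54) (C.node (nat_lit 1) (nat_lit 5) (nat_lit 8) (C.cons (nat_lit 802) (C.miq (nat_lit 2437317920) (nat_lit 108821051312114623858409765)) (C.cons (nat_lit 290) (C.node (nat_lit 1) (nat_lit 7) (nat_lit 9) (C.cons (nat_lit 682) (C.miq (nat_lit 824481632) (nat_lit 65291900352724341989114817)) (C.cons (nat_lit 674) (C.miq (nat_lit 2420471329) (nat_lit 59249798537120327493091526)) (C.cons (nat_lit 650) (C.miq (nat_lit 824481632) (nat_lit 65291900343717142734373825)) C.nil)))) C.nil))) (C.cons (nat_lit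 22) (C.node (nat_lit 1) (nat_lit 2) (nat_lit 5) (C.cons (nat_lit 38) (C.node (nat_lit 1) (nat_lit 3) (nat_lit 5) (C.cons (nat_lit 42) (C.node (nat_lit 1) (nat_lit 3) (nat_lit 7) C.nil) C.nil)) C.nil)) C.nil))) C.nil))) C.nil)) (C.cons (nat_lit 74) (C.node (nat_lit 1) (nat_lit 4) (nat_lit 6) (C.cons (nat_lit 594) (C.node (nat_lit 2) (nat_lit 3) (nat_lit 8) (C.cons (nat_lit 780) (C.miq (nat_lit 1764889607) (nat_lit 942965791921935793334845587)) (C.cons (nat_lit 284) (C.miq (nat_lit 305424137) (nat_lit 343345890192267120104506305)) (C.cons (nat_lit 268) (C.node (nat_lit 1) (nat_lit 4) (nat_lit 8) (C.cons (nat_lit 306) (C.node (nat_lit 1) (nat_lit 8) (nat_lit 9) (C.cons (nat_lit 770) (C.node (nat_lit 1) (nat_lit 2) (nat_lit 4) (C.cons (nat_lit 30) (C.node (nat_lit 1) (nat_lit 2) (nat_lit 5) (C.cons (nat_lit 38) (C.node (nat_lit 2) (nat_lit 4) (nat_lit 8) (C.cons (nat_lit 788) (C.miq (nat_lit 605391200) (nat_lit 369936705919894957223773121))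 (C.cons (nat_lit 276) (C.node (nat_lit 2) (nat_lit 8) (nat_lit 9) C.nil) C.nil))) C.nil)) (C.cons (nat_lit 22) (C.miq (nat_lit 873597287) (nat_lit 26598969173590848607486913)) C.nil))) C.nil)) (C.cons (nat_lit 274) (C.node (nat_lit 1) (nat_lit 5) (nat_lit 8) (C.cons (nat_lit 802) (C.node (nat_lit 3) (nat_lit 8) (nat_lit 9) (C.cons (nat_lit 776) (C.node (nat_lit 2) (nat_lit 4) (nat_lit 8) C.nil) C.nil)) (C.cons (nat_lit 290) (C.node (nat_lit 1) (nat_lit 8) (nat_lit 9) C.nil) C.nil))) C.nil))) C.nil)))) (C.cons (nat_lit 82) (C.node (nat_lit 1) (nat_lit 6) (nat_lit 9) (C.cons (nat_lit 578) (C.node (nat_lit 4) (nat_lit 6) (nat_lit 9) (C.cons (nat_lit 624) (C.node (nat_lit 2) (nat_lit 6) (nat_lit 9) (C.cons (nat_lit 588) (C.miq (nat_lit 378827312) (nat_lit 754372423166642011185414285)) (C.cons (nat_lit 580) (C.node (nat_lit 3) (nat_lit 6) (nat_lit 9) (C.cons (nat_lit 584) (C.node (nat_lit 2) (nat_lit 3) (nat_lit 6) C.nil) C.nil))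 C.nil))) (C.cons (nat_lit 592) (C.node (nat_lit 1) (nat_lit 2) (nat_lit 3) (C.cons (nat_lit 62) (C.miq (nat_lit 2517894947) (nat_lit 99141823380465477381652621)) (C.cons (nat_lit 46) (C.node (nat_lit 1) (nat_lit 2) (nat_lit 4)
  (C.cons (nat_lit 22) (C.node (nat_lit 1) (nat_lit 3) (nat_lit 4) (C.cons (nat_lit 26) (C.node (nat_lit 1) (nat_lit 3) (nat_lit 7) C.nil) C.nil)) C.nil)) (C.cons (nat_lit 30) (C.miq (nat_lit 2517894947) (nat_lit 99141823380465477379555469)) (C.cons (nat_lit 14) (C.node (nat_lit 1) (nat_lit 2) (nat_lit 4) (C.cons (nat_lit 54) (C.node (nat_lit 1) (nat_lit 3) (nat_lit 4) (C.cons (nat_lit 26) (C.node (nat_lit 1) (nat_lit 4) (nat_lit 8) C.nil) C.nil)) (C.cons (nat_lit 22) (C.node (nat_lit 1) (nat_lit 2) (nat_lit 5) C.nil) C.nil))) C.nil))))) C.nil))) C.nil)) C.nil))) C.nil)))) (List.cons (C.node (nat_lit 2) (nat_lit 5) (nat_lit 6) (C.cons (nat_lit 612) (C.miq (nat_lit 815077474) (nat_lit 658865420315358237139665222))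 (C.cons (nat_lit 100) (C.node (nat_lit 3) (nat_lit 6) (nat_lit 8) (C.cons (nat_lit 376) (C.miq (nat_lit 2474706018) (nat_lit 322792767848433922326528085)) (C.cons (nat_lit 360) (C.miq (nat_lit 2521958449) (nat_lit 120902156092136171538088203)) (C.cons (nat_lit 344) (C.miq (nat_lit 2474706018) (nat_lit 322792767848433784887574613)) (C.cons (nat_lit 328) (C.node (nat_lit 1) (nat_lit 3) (nat_lit 4) (C.cons (nat_lit 90) (C.node (nat_lit 1) (nat_lit 6) (nat_lit 9) (C.cons (nat_lit 578) (C.node (nat_lit 2) (nat_lit 3) (nat_lit 4) (C.cons (nat_lit 284) (C.miq (nat_lit 1362626114) (nat_lit 322788598760985995805196373)) (C.cons (nat_lit 28) (C.node (nat_lit 2) (nat_lit 3) (nat_lit 8) (C.cons (nat_lit 780) (C.miq (nat_lit 2455143184) (nat_lit 120910309502068431759016203)) (C.cons (nat_lit 268) (C.node (nat_lit 2) (nat_lit 3) (nat_lit 6) (C.cons (nat_lit 76) (C.node (nat_lit 2) (nat_lit 3) (nat_lit 9) C.nil) C.nil)) C.nil))) C.nil)))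 C.nil)) (C.cons (nat_lit 26) (C.node (nat_lit 1) (nat_lit 3) (nat_lit 6) (C.cons (nat_lit 586) (C.miq (nat_lit 1482891409) (nat_lit 396528517466302055621198343)) (C.cons (nat_lit 74) (C.node (nat_lit 1) (nat_lit 3) (nat_lit 7) (C.cons (nat_lit 650) (C.node (nat_lit 1) (nat_lit 5) (nat_lit 7) C.nil) (C.cons (nat_lit 138) (C.node (nat_lit 1) (nat_lit 3) (nat_lit 9) (C.cons (nat_lit 522) (C.node (nat_lit 1) (nat_lit 4) (nat_lit 6) C.nil) C.nil)) C.nil))) C.nil))) C.nil))) C.nil))))) C.nil))) List.nil))))))))))))))))))))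

theorem ok10_57 : okL par10 (nat_lit 77) c10_57 (nat_lit 57) = true := by decide +kernel

noncomputable def c10_77 : List C :=
  (List.cons (C.node (nat_lit 1) (nat_lit 2) (nat_lit 6) (C.cons (nat_lit 326) (C.node (nat_lit 1) (nat_lit 2) (nat_lit 7) (C.cons (nat_lit 166) (C.node (nat_lit 1) (nat_lit 7) (nat_lit 8) (C.cons (nat_lit 386) (C.node (nat_lit 1) (nat_lit 2) (nat_lit 3) (C.cons (nat_lit 30) (C.miq (nat_lit 2551383588) (nat_lit 322793100009172424456011861)) (C.cons (nat_lit 14) (C.node (nat_lit 1) (nat_lit 2) (nat_lit 4) (C.cons (nat_lit 22) (C.node (nat_lit 1) (nat_lit 3) (nat_lit 7) (C.cons (nat_lit 650) (C.node (nat_lit 1) (nat_lit 6) (nat_lit 9) (C.cons (nat_lit 594) (C.miq (nat_lit 826440032) (nat_lit 26598969205397520968385473)) (C.cons (nat_lit 578) (C.node (nat_lit 1) (nat_lit 5) (nat_lit 9) (C.cons (nat_lit 818) (C.miq (nat_lit 1362266480) (nat_lit 16930366600867728031810497)) (C.cons (nat_lit 802) (C.miq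 (nat_lit 1362266480) (nat_lit 16930366596364128404440001)) (C.cons (nat_lit 562) (C.miq (nat_lit 1076204401) (nat_lit 354225632368408441051808394)) (C.cons (nat_lit 546) (C.node (nat_lit 1) (nat_lit 3) (nat_lit 5) (C.cons (nat_lit 58) (C.node (nat_lit 1) (nat_lit 3) (nat_lit 6) C.nil) C.nil)) C.nil))))) C.nil))) (C.cons (nat_lit 138) (C.node (nat_lit 1) (nat_lit 7) (nat_lit 9) (C.cons (nat_lit 642) (C.node (nat_lit 2) (nat_lit 7) (nat_lit 8) (C.cons (nat_lit 404) (C.node (nat_lit 2) (nat_lit 7) (nat_lit 9) (C.cons (nat_lit 644) (C.node (nat_lit 3) (nat_lit 7) (nat_lit 8) (C.cons (nat_lit 392) (C.node (nat_lit 5) (nat_lit 7) (nat_lit 8) C.nil) C.nil)) C.nil)) (C.cons (nat_lit 388) (C.node (nat_lit 2) (nat_lit 4) (nat_lit 7) (C.cons (nat_lit 660) (C.node (nat_lit 3) (nat_lit 7) (nat_lit 9) (C.cons (nat_lit 648) (C.node (nat_lit 5) (nat_lit 7) (nat_lit 9) C.nil) C.nil)) (C.cons (nat_lit 148) (C.node (nat_lit 2) (nat_lit 7)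 (nat_lit 9) (C.cons (nat_lit 644) (C.node (nat_lit 3) (nat_lit 7) (nat_lit 9) C.nil) C.nil)) C.nil))) C.nil))) C.nil)) C.nil))) C.nil)) C.nil))) C.nil)) (C.cons (nat_lit 134) (C.node (nat_lit 1) (nat_lit 7) (nat_lit 8) (C.cons (nat_lit 418) (C.node (nat_lit 2) (nat_lit 7) (nat_lit 8) (C.cons (nat_lit 404) (C.miq (nat_lit 1652884593) (nat_lit 354217091398676753649107091)) (C.cons (nat_lit 388) (C.node (nat_lit 1) (nat_lit 2) (nat_lit 4) (C.cons (nat_lit 62) (C.miq (nat_lit 2551383588) (nat_lit 322793100009172424458109013)) (C.cons (nat_lit 54) (C.miq (nat_lit 1750206228) (nat_lit 354216833390831861419606163)) (C.cons (nat_lit 30) (C.miq (nat_lit 2551383588) (nat_lit 322793100009172424456011861)) (C.cons (nat_lit 22) (C.node (nat_lit 1) (nat_lit 2) (nat_lit 3) (C.cons (nat_lit 46) (C.node (nat_lit 1) (nat_lit 3) (nat_lit 7) (C.cons (nat_lit 650) (C.miq (nat_lit 898044425) (nat_lit 505342982995512013652820487)) (C.cons (nat_lit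 138) (C.node (nat_lit 1) (nat_lit 7) (nat_lit 9) (C.cons (nat_lit 642) (C.node (nat_lit 1) (nat_lit 3) (nat_lit 9) (C.cons (nat_lit 586) (C.miq (nat_lit 2421385249) (nat_lit 49576768666725701007573318)) (C.cons (nat_lit 522) (C.node (nat_lit 1) (nat_lit 3) (nat_lit 4) (C.cons (nat_lit 90) (C.node (nat_lit 1) (nat_lit 6) (nat_lit 9) C.nil) C.nil)) C.nil))) C.nil)) C.nil))) (C.cons (nat_lit 14) (C.node (nat_lit 1) (nat_lit 2) (nat_lit 5) (C.cons (nat_lit 38) (C.node (nat_lit 1) (nat_lit 3) (nat_lit 7) (C.cons (nat_lit 650) (C.node (nat_lit 1) (nat_lit 3) (nat_lit 5) (C.cons (nat_lit 58) (C.miq (nat_lit 2152036657) (nat_lit 59245076170639399173358218)) (C.cons (nat_lit 42) (C.node (nat_lit 1) (nat_lit 6) (nat_lit 9) (C.cons (nat_lit 594) (C.miq (nat_lit 826440032) (nat_lit 26598969205397520968385473)) C.nil)) C.nil))) (C.cons (nat_lit 138) (C.node (nat_lit 1) (nat_lit 7) (nat_lit 9) (C.cons (nat_lit 642) (C.node (nat_lit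 1) (nat_lit 4) (nat_lit 8) (C.cons (nat_lit 274) (C.node (nat_lit 1) (nat_lit 8) (nat_lit 9) C.nil) C.nil)) C.nil)) C.nil))) C.nil)) C.nil))) C.nil))))) C.nil))) (C.cons (nat_lit 386) (C.node (nat_lit 2) (nat_lit 7) (nat_lit 8) (C.cons (nat_lit 404) (C.node (nat_lit 1) (nat_lit 2) (nat_lit 4) (C.cons (nat_lit 62) (C.miq (nat_lit 2551383588) (nat_lit 322793100009172424458109013))
  (C.cons (nat_lit 54) (C.miq (nat_lit 1747257153) (nat_lit 354217091645248833223786643)) (C.cons (nat_lit 30) (C.miq (nat_lit 2551383588) (nat_lit 322793100009172424456011861)) (C.cons (nat_lit 22) (C.node (nat_lit 1) (nat_lit 2) (nat_lit 3) (C.cons (nat_lit 46) (C.node (nat_lit 2) (nat_lit 3) (nat_lit 4) (C.cons (nat_lit 28) (C.node (nat_lit 2) (nat_lit 3) (nat_lit 8) (C.cons (nat_lit 780) (C.miq (nat_lit 1351816834) (nat_lit 649194013711153407665635654)) (C.cons (nat_lit 268) (C.node (nat_lit 2) (nat_lit 8) (nat_lit 9) (C.cons (nat_lit 772)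 (C.node (nat_lit 2) (nat_lit 5) (nat_lit 6) (C.cons (nat_lit 612) (C.miq (nat_lit 2453169424) (nat_lit 324009847150038337033273443)) C.nil)) C.nil)) C.nil))) C.nil)) (C.cons (nat_lit 14) (C.node (nat_lit 1) (nat_lit 2) (nat_lit 5) (C.cons (nat_lit 38) (C.node (nat_lit 2) (nat_lit 3) (nat_lit 4) (C.cons (nat_lit 60) (C.node (nat_lit 2) (nat_lit 4) (nat_lit 9) (C.cons (nat_lit 532) (C.node (nat_lit 2) (nat_lit 3) (nat_lit 6) (C.cons (nat_lit 588) (C.node (nat_lit 2) (nat_lit 3) (nat_lit 8) C.nil) C.nil)) C.nil)) (C.cons (nat_lit 28) (C.node (nat_lit 2) (nat_lit 3) (nat_lit 8) (C.cons (nat_lit 780) (C.node (nat_lit 2) (nat_lit 6) (nat_lit 9) (C.cons (nat_lit 612) (C.miq (nat_lit 844204384) (nat_lit 45944106645576699449902017)) C.nil)) (C.cons (nat_lit 268) (C.node (nat_lit 2) (nat_lit 8) (nat_lit 9) (C.cons (nat_lit 772) (C.node (nat_lit 2) (nat_lit 4) (nat_lit 5) C.nil) C.nil)) C.nil))) C.nil))) C.nil)) C.nil))) C.nil)))))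 (C.cons (nat_lit 388) (C.node (nat_lit 1) (nat_lit 2) (nat_lit 3) (C.cons (nat_lit 62) (C.miq (nat_lit 2551383588) (nat_lit 322793100009172424458109013)) (C.cons (nat_lit 46) (C.node (nat_lit 1) (nat_lit 2) (nat_lit 4) (C.cons (nat_lit 22) (C.ref (nat_lit 76) (nat_lit 654820258320)) C.nil)) (C.cons (nat_lit 30) (C.miq (nat_lit 2551383588) (nat_lit 322793100009172424456011861)) (C.cons (nat_lit 14) (C.node (nat_lit 1) (nat_lit 2) (nat_lit 4) (C.cons (nat_lit 54) (C.ref (nat_lit 76) (nat_lit 646263816480)) (C.cons (nat_lit 22) (C.node (nat_lit 1) (nat_lit 2) (nat_lit 5) (C.cons (nat_lit 38) (C.node (nat_lit 3) (nat_lit 6) (nat_lit 8) (C.cons (nat_lit 376) (C.miq (nat_lit 2474706018) (nat_lit 322792767848433922326528085)) (C.cons (nat_lit 360) (C.node (nat_lit 4) (nat_lit 6) (nat_lit 8) (C.cons (nat_lit 336) (C.node (nat_lit 2) (nat_lit 5) (nat_lit 6) (C.cons (nat_lit 612) (C.miq (nat_lit 824541334) (nat_lit 45945822048378491987297217))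 (C.cons (nat_lit 100) (C.node (nat_lit 3) (nat_lit 8) (nat_lit 9) (C.cons (nat_lit 780) (C.miq (nat_lit 1361272984) (nat_lit 16931602330339595717968833)) (C.cons (nat_lit 776) (C.node (nat_lit 2) (nat_lit 3) (nat_lit 6) (C.cons (nat_lit 588) (C.node (nat_lit 2) (nat_lit 3) (nat_lit 5) (C.cons (nat_lit 44) (C.node (nat_lit 2) (nat_lit 3) (nat_lit 4) C.nil) C.nil)) (C.cons (nat_lit 76) (C.node (nat_lit 2) (nat_lit 6) (nat_lit 9) C.nil) C.nil))) C.nil))) C.nil))) C.nil)) (C.cons (nat_lit 344) (C.miq (nat_lit 2474706018) (nat_lit 322792767848433784887574613)) (C.cons (nat_lit 328) (C.node (nat_lit 4) (nat_lit 6) (nat_lit 8) (C.cons (nat_lit 368) (C.node (nat_lit 1) (nat_lit 5) (nat_lit 8) (C.cons (nat_lit 802) (C.miq (nat_lit 1108697240) (nat_lit 45945969571102635914822593)) (C.cons (nat_lit 290) (C.node (nat_lit 4) (nat_lit 6) (nat_lit 9) (C.cons (nat_lit 594) (C.miq (nat_lit 1377075350) (nat_lit 26603156515815364261708737))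 (C.cons (nat_lit 592) (C.node (nat_lit 1) (nat_lit 4) (nat_lit 8) (C.cons (nat_lit 786) (C.node (nat_lit 1) (nat_lit 4) (nat_lit 5) (C.cons (nat_lit 50) (C.node (nat_lit 1) (nat_lit 4) (nat_lit 3) C.nil) C.nil)) (C.cons (nat_lit 274) (C.node (nat_lit 1) (nat_lit 8) (nat_lit 9) C.nil) C.nil))) C.nil))) C.nil))) (C.cons (nat_lit 336) (C.node (nat_lit 5) (nat_lit 6) (nat_lit 8) (C.cons (nat_lit 352) (C.node (nat_lit 1) (nat_lit 3) (nat_lit 4) (C.cons (nat_lit 90) (C.node (nat_lit 1) (nat_lit 6) (nat_lit 9) (C.cons (nat_lit 578) (C.node (nat_lit 3) (nat_lit 6) (nat_lit 7) (C.cons (nat_lit 200)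
  (C.node (nat_lit 4) (nat_lit 6) (nat_lit 7) C.nil) C.nil)) C.nil)) (C.cons (nat_lit 58) (C.node (nat_lit 4) (nat_lit 5) (nat_lit 6) (C.cons (nat_lit 624) (C.miq (nat_lit 2302871121) (nat_lit 649198090684223679949832291)) (C.cons (nat_lit 240) (C.miq (nat_lit 946147444) (nat_lit 425542958490663690911613075)) (C.cons (nat_lit 112) (C.node (nat_lit 1) (nat_lit 3) (nat_lit 6) (C.cons (nat_lit 586) (C.node (nat_lit 1) (nat_lit 3) (nat_lit 7) C.nil) (C.cons (nat_lit 74) (C.node (nat_lit 1) (nat_lit 3) (nat_lit 7) (C.cons (nat_lit 138) (C.node (nat_lit 1) (nat_lit 3) (nat_lit 9) C.nil) C.nil)) C.nil))) C.nil)))) (C.cons (nat_lit 26) (C.node (nat_lit 1) (nat_lit 3) (nat_lit 6) (C.cons (nat_lit 586) (C.node (nat_lit 1) (nat_lit 4) (nat_lit 6) (C.cons (nat_lit 82) (C.node (nat_lit 1) (nat_lit 3) (nat_lit 5) C.nil) C.nil)) (C.cons (nat_lit 74) (C.node (nat_lit 1) (nat_lit 4) (nat_lit 6) (C.cons (nat_lit 594) (C.node (nat_lit 1)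 (nat_lit 4) (nat_lit 5) C.nil) C.nil)) C.nil))) C.nil)))) C.nil)) C.nil))) C.nil))))) C.nil)) C.nil))) C.nil))))) C.nil))) C.nil))) C.nil))) (C.cons (nat_lit 78) (C.node (nat_lit 2) (nat_lit 6) (nat_lit 8) (C.cons (nat_lit 324) (C.node (nat_lit 1) (nat_lit 3) (nat_lit 4) (C.cons (nat_lit 58) (C.node (nat_lit 3) (nat_lit 6) (nat_lit 9) (C.cons (nat_lit 616) (C.miq (nat_lit 2033452625) (nat_lit 649195877074934800443900003)) (C.cons (nat_lit 584) (C.node (nat_lit 1) (nat_lit 2) (nat_lit 4) (C.cons (nat_lit 278) (C.node (nat_lit 1) (nat_lit 6) (nat_lit 8) (C.cons (nat_lit 322) (C.node (nat_lit 2) (nat_lit 3) (nat_lit 4) (C.cons (nat_lit 28) (C.node (nat_lit 2) (nat_lit 7) (nat_lit 8) (C.cons (nat_lit 388) (C.node (nat_lit 1) (nat_lit 2) (nat_lit 5) (C.cons (nat_lit 166) (C.node (nat_lit 1) (nat_lit 7) (nat_lit 8) (C.cons (nat_lit 386) (C.node (nat_lit 2) (nat_lit 3) (nat_lit 5) (C.cons (nat_lit 556) (C.miq (nat_lit 1949634706)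 (nat_lit 70120759738543855928869383)) (C.cons (nat_lit 44) (C.node (nat_lit 1) (nat_lit 3) (nat_lit 7) (C.cons (nat_lit 650) (C.node (nat_lit 1) (nat_lit 4) (nat_lit 6) (C.cons (nat_lit 594) (C.miq (nat_lit 826440032) (nat_lit 336083979026742589693166529)) (C.cons (nat_lit 82) (C.node (nat_lit 1) (nat_lit 4) (nat_lit 9) (C.cons (nat_lit 530) (C.node (nat_lit 1) (nat_lit 6) (nat_lit 9) (C.cons (nat_lit 578) (C.node (nat_lit 1) (nat_lit 5) (nat_lit 8) (C.cons (nat_lit 802) (C.miq (nat_lit 1362266480) (nat_lit 94301619051700395585635265)) C.nil)) C.nil)) C.nil)) C.nil))) (C.cons (nat_lit 138) (C.node (nat_lit 1) (nat_lit 3) (nat_lit 9) (C.cons (nat_lit 522) (C.node (nat_lit 1) (nat_lit 7) (nat_lit 9) (C.cons (nat_lit 642) (C.node (nat_lit 1) (nat_lit 4) (nat_lit 6) (C.cons (nat_lit 594) (C.node (nat_lit 1) (nat_lit 5) (nat_lit 8) (C.cons (nat_lit 802) (C.miq (nat_lit 1363315040) (nat_lit 336086782974625990005031873)) C.nil))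 C.nil)) C.nil)) C.nil)) C.nil))) C.nil))) C.nil)) (C.cons (nat_lit 38) (C.node (nat_lit 1) (nat_lit 2) (nat_lit 7) (C.cons (nat_lit 134) (C.node (nat_lit 1) (nat_lit 3) (nat_lit 7) (C.cons (nat_lit 650) (C.node (nat_lit 1) (nat_lit 4) (nat_lit 6) (C.cons (nat_lit 594) (C.miq (nat_lit 826440032) (nat_lit 336083979026742589693166529)) (C.cons (nat_lit 82) (C.node (nat_lit 1) (nat_lit 4) (nat_lit 9) (C.cons (nat_lit 530) (C.node (nat_lit 1) (nat_lit 6) (nat_lit 9) C.nil) C.nil)) C.nil))) (C.cons (nat_lit 138) (C.node (nat_lit 1) (nat_lit 3) (nat_lit 9) (C.cons (nat_lit 522) (C.node (nat_lit 1) (nat_lit 4) (nat_lit 6) (C.cons (nat_lit 594) (C.node (nat_lit 1) (nat_lit 8) (nat_lit 9) (C.cons (nat_lit 802) (C.miq (nat_lit 1363315040) (nat_lit 336086782974625990005031873)) C.nil)) C.nil)) C.nil)) C.nil))) C.nil)) C.nil))) C.nil)) C.nil)) C.nil)) (C.cons (nat_lit 22) (C.node (nat_lit 1) (nat_lit 2) (nat_lit 5) (C.cons (nat_lit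 166) (C.node (nat_lit 1) (nat_lit 2) (nat_lit 8) (C.cons (nat_lit 262) (C.node (nat_lit 1) (nat_lit 7) (nat_lit 8) (C.cons (nat_lit 386) (C.node (nat_lit 2) (nat_lit 3) (nat_lit 5) (C.cons (nat_lit 556)
  (C.miq (nat_lit 1949634706) (nat_lit 70120759738543855928869383)) (C.cons (nat_lit 44) (C.node (nat_lit 1) (nat_lit 3) (nat_lit 7) (C.cons (nat_lit 650) (C.node (nat_lit 1) (nat_lit 5) (nat_lit 8) (C.cons (nat_lit 802) (C.miq (nat_lit 1362266480) (nat_lit 94301619051700395585635265)) (C.cons (nat_lit 290) (C.node (nat_lit 1) (nat_lit 5) (nat_lit 9) (C.cons (nat_lit 546) (C.node (nat_lit 1) (nat_lit 6) (nat_lit 9) (C.cons (nat_lit 594) (C.miq (nat_lit 826440032) (nat_lit 26598969205397520968385473)) C.nil)) C.nil)) C.nil))) (C.cons (nat_lit 138) (C.node (nat_lit 1) (nat_lit 3) (nat_lit 9) (C.cons (nat_lit 522) (C.node (nat_lit 1) (nat_lit 7) (nat_lit 9) C.nil) C.nil)) C.nil))) C.nil))) C.nil)) C.nil)) (C.cons (nat_lit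 38) (C.node (nat_lit 1) (nat_lit 2) (nat_lit 7) (C.cons (nat_lit 390) (C.node (nat_lit 3) (nat_lit 8) (nat_lit 9) (C.cons (nat_lit 808) (C.miq (nat_lit 1366832137) (nat_lit 471495974635243115525505561)) (C.cons (nat_lit 780) (C.miq (nat_lit 840210544) (nat_lit 26606274152641580753945537)) (C.cons (nat_lit 776) (C.node (nat_lit 4) (nat_lit 7) (nat_lit 9) (C.cons (nat_lit 692) (C.miq (nat_lit 1108580224) (nat_lit 94306120026291016594817985)) (C.cons (nat_lit 688) (C.miq (nat_lit 1401504007) (nat_lit 938139127397201647211970707)) (C.cons (nat_lit 660) (C.miq (nat_lit 1108580224) (nat_lit 94306120017283817340076993)) (C.cons (nat_lit 656) (C.node (nat_lit 1) (nat_lit 3) (nat_lit 7) (C.cons (nat_lit 650) (C.node (nat_lit 1) (nat_lit 5) (nat_lit 7) (C.cons (nat_lit 162) (C.node (nat_lit 1) (nat_lit 5) (nat_lit 8) (C.cons (nat_lit 802) (C.miq (nat_lit 1362266480) (nat_lit 94301619051700395585635265)) (C.cons (nat_lit 290) (C.node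 (nat_lit 1) (nat_lit 5) (nat_lit 9) (C.cons (nat_lit 546) (C.node (nat_lit 1) (nat_lit 6) (nat_lit 9) (C.cons (nat_lit 594) (C.miq (nat_lit 826440032) (nat_lit 26598969205397520968385473)) C.nil)) C.nil)) C.nil))) C.nil)) (C.cons (nat_lit 138) (C.node (nat_lit 1) (nat_lit 3) (nat_lit 9) (C.cons (nat_lit 522) (C.node (nat_lit 1) (nat_lit 5) (nat_lit 7) (C.cons (nat_lit 674) (C.node (nat_lit 1) (nat_lit 5) (nat_lit 8) (C.cons (nat_lit 290) (C.node (nat_lit 1) (nat_lit 8) (nat_lit 9) (C.cons (nat_lit 786) (C.miq (nat_lit 1092851824) (nat_lit 94306120052749664397362113)) C.nil)) C.nil)) (C.cons (nat_lit 162) (C.node (nat_lit 1) (nat_lit 7) (nat_lit 9) C.nil) C.nil))) C.nil)) C.nil))) C.nil))))) C.nil)))) (C.cons (nat_lit 134) (C.node (nat_lit 1) (nat_lit 2) (nat_lit 8) (C.cons (nat_lit 262) (C.node (nat_lit 1) (nat_lit 3) (nat_lit 7) (C.cons (nat_lit 650) (C.node (nat_lit 1) (nat_lit 5) (nat_lit 7) (C.cons (nat_lit 418) (C.miq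 (nat_lit 2152036657) (nat_lit 59245076170639399173358218)) (C.cons (nat_lit 162) (C.node (nat_lit 1) (nat_lit 7) (nat_lit 8) C.nil) C.nil))) (C.cons (nat_lit 138) (C.node (nat_lit 1) (nat_lit 3) (nat_lit 9) (C.cons (nat_lit 522) (C.node (nat_lit 1) (nat_lit 6) (nat_lit 8) (C.cons (nat_lit 322) (C.node (nat_lit 1) (nat_lit 4) (nat_lit 6) C.nil) C.nil)) C.nil)) C.nil))) C.nil)) C.nil))) C.nil))) C.nil))) C.nil))) (C.cons (nat_lit 26) (C.node (nat_lit 1) (nat_lit 6) (nat_lit 8) (C.cons (nat_lit 338) (C.node (nat_lit 1) (nat_lit 6) (nat_lit 9) (C.cons (nat_lit 578) (C.node (nat_lit 1) (nat_lit 2) (nat_lit 4) (C.cons (nat_lit 54) (C.node (nat_lit 1) (nat_lit 4) (nat_lit 9) (C.cons (nat_lit 530) (C.node (nat_lit 1) (nat_lit 8) (nat_lit 9) (C.cons (nat_lit 802) (C.miq (nat_lit 1416106505) (nat_lit 408631721333691789988659719)) (C.cons (nat_lit 770) (C.node (nat_lit 1) (nat_lit 5) (nat_lit 8) (C.cons (nat_lit 418) (C.miq (nat_lit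 1750206228) (nat_lit 354216833390831861419606163)) (C.cons (nat_lit 290) (C.node (nat_lit 1) (nat_lit 2) (nat_lit 7) (C.cons (nat_lit 390) (C.node (nat_lit 2) (nat_lit 4) (nat_lit 7) (C.cons (nat_lit 660) (C.miq (nat_lit 1108580224) (nat_lit 94306120017283817340076993)) (C.cons (nat_lit 148) (C.node (nat_lit 2) (nat_lit 4) (nat_lit 9) (C.cons (nat_lit 788) (C.miq (nat_lit 1451495570) (nat_lit 408617923181794791576044039)) (C.cons (nat_lit 532)
  (C.node (nat_lit 2) (nat_lit 5) (nat_lit 6) (C.cons (nat_lit 612) (C.miq (nat_lit 2454152464) (nat_lit 178938748796282870420406371)) (C.cons (nat_lit 100) (C.node (nat_lit 2) (nat_lit 6) (nat_lit 9) (C.cons (nat_lit 580) (C.node (nat_lit 2) (nat_lit 8) (nat_lit 9) (C.cons (nat_lit 780) (C.miq (nat_lit 840210544) (nat_lit 65291900380309714344543169)) C.nil)) C.nil)) C.nil))) C.nil))) C.nil))) C.nil)) C.nil))) C.nil))) C.nil)) (C.cons (nat_lit 22) (C.node (nat_lit 1) (nat_lit 2)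 (nat_lit 5) (C.cons (nat_lit 166) (C.node (nat_lit 1) (nat_lit 2) (nat_lit 8) (C.cons (nat_lit 262) (C.node (nat_lit 1) (nat_lit 7) (nat_lit 8) (C.cons (nat_lit 386) (C.node (nat_lit 1) (nat_lit 3) (nat_lit 5) (C.cons (nat_lit 554) (C.node (nat_lit 1) (nat_lit 3) (nat_lit 7) C.nil) C.nil)) C.nil)) C.nil)) (C.cons (nat_lit 38) (C.node (nat_lit 1) (nat_lit 2) (nat_lit 7) (C.cons (nat_lit 390) (C.node (nat_lit 1) (nat_lit 4) (nat_lit 5) (C.cons (nat_lit 562) (C.node (nat_lit 1) (nat_lit 5) (nat_lit 8) (C.cons (nat_lit 290) (C.node (nat_lit 1) (nat_lit 8) (nat_lit 9) C.nil) C.nil)) (C.cons (nat_lit 50) (C.node (nat_lit 1) (nat_lit 4) (nat_lit 9) C.nil) C.nil))) (C.cons (nat_lit 134) (C.node (nat_lit 1) (nat_lit 2) (nat_lit 8) (C.cons (nat_lit 262) (C.node (nat_lit 1) (nat_lit 4) (nat_lit 5) (C.cons (nat_lit 50) (C.node (nat_lit 1) (nat_lit 4) (nat_lit 9) C.nil) C.nil)) C.nil)) C.nil))) C.nil))) C.nil))) C.nil)) (C.cons (nat_lit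 322) (C.node (nat_lit 1) (nat_lit 4) (nat_lit 6) (C.cons (nat_lit 594) (C.node (nat_lit 1) (nat_lit 8) (nat_lit 9) (C.cons (nat_lit 802) (C.node (nat_lit 1) (nat_lit 3) (nat_lit 9) (C.cons (nat_lit 650) (C.miq (nat_lit 588515222) (nat_lit 31433639322917387338122177)) (C.cons (nat_lit 522) (C.node (nat_lit 1) (nat_lit 7) (nat_lit 9) (C.cons (nat_lit 642) (C.node (nat_lit 1) (nat_lit 4) (nat_lit 5) (C.cons (nat_lit 54) (C.node (nat_lit 1) (nat_lit 4) (nat_lit 8) (C.cons (nat_lit 274) (C.node (nat_lit 1) (nat_lit 2) (nat_lit 7) (C.cons (nat_lit 390) (C.node (nat_lit 1) (nat_lit 3) (nat_lit 5) (C.cons (nat_lit 170) (C.node (nat_lit 3) (nat_lit 7) (nat_lit 9) (C.cons (nat_lit 648) (C.node (nat_lit 2) (nat_lit 3) (nat_lit 4) (C.cons (nat_lit 284) (C.miq (nat_lit 2552501510) (nat_lit 343345890362278658843148387)) (C.cons (nat_lit 28) (C.node (nat_lit 2) (nat_lit 3) (nat_lit 8) (C.cons (nat_lit 780) (C.miq (nat_lit 840210544)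 (nat_lit 65291900380309714344543169)) (C.cons (nat_lit 268) (C.node (nat_lit 3) (nat_lit 8) (nat_lit 9) (C.cons (nat_lit 776) (C.node (nat_lit 3) (nat_lit 6) (nat_lit 7) (C.cons (nat_lit 216) (C.miq (nat_lit 338859632) (nat_lit 33859496976580936037368769)) C.nil)) C.nil)) C.nil))) C.nil))) C.nil)) C.nil)) C.nil)) C.nil)) (C.cons (nat_lit 50) (C.miq (nat_lit 622069910) (nat_lit 60447859036453336826119105)) C.nil))) C.nil)) C.nil))) (C.cons (nat_lit 770) (C.node (nat_lit 2) (nat_lit 5) (nat_lit 6) (C.cons (nat_lit 612) (C.node (nat_lit 3) (nat_lit 6) (nat_lit 9) (C.cons (nat_lit 584) (C.node (nat_lit 4) (nat_lit 6) (nat_lit 7) (C.cons (nat_lit 248) (C.miq (nat_lit 558041447) (nat_lit 31434672446982815728796609)) (C.cons (nat_lit 240) (C.miq (nat_lit 628135489) (nat_lit 194646630990393268933689938)) (C.cons (nat_lit 216) (C.miq (nat_lit 558041447) (nat_lit 31434672446982815726699457)) C.nil)))) C.nil)) (C.cons (nat_lit 100)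 (C.node (nat_lit 2) (nat_lit 6) (nat_lit 9) (C.cons (nat_lit 580) (C.node (nat_lit 3) (nat_lit 6) (nat_lit 9) (C.cons (nat_lit 584) (C.node (nat_lit 5) (nat_lit 6) (nat_lit 9) C.nil) C.nil)) C.nil)) C.nil))) C.nil))) (C.cons (nat_lit 82) (C.node (nat_lit 1) (nat_lit 6) (nat_lit 9) (C.cons (nat_lit 578) (C.node (nat_lit 2) (nat_lit 5) (nat_lit 6) (C.cons (nat_lit 612) (C.node (nat_lit 3) (nat_lit 6) (nat_lit 9) (C.cons (nat_lit 584) (C.node (nat_lit 4) (nat_lit 6) (nat_lit 9) C.nil) C.nil)) (C.cons (nat_lit 100) (C.node (nat_lit 2) (nat_lit 6) (nat_lit 9) (C.cons (nat_lit 580) (C.node (nat_lit 3) (nat_lit 6) (nat_lit 9) C.nil) C.nil)) C.nil))) C.nil)) C.nil))) C.nil))) C.nil))) C.nil))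
  (C.cons (nat_lit 70) (C.node (nat_lit 1) (nat_lit 6) (nat_lit 8) (C.cons (nat_lit 338) (C.node (nat_lit 2) (nat_lit 6) (nat_lit 8) (C.cons (nat_lit 332) (C.miq (nat_lit 1904411746) (nat_lit 322785794869398655990497365)) (C.cons (nat_lit 324) (C.node (nat_lit 1) (nat_lit 2) (nat_lit 8) (C.cons (nat_lit 390) (C.node (nat_lit 1) (nat_lit 3) (nat_lit 6) (C.cons (nat_lit 586) (C.node (nat_lit 1) (nat_lit 3) (nat_lit 7) (C.cons (nat_lit 170) (C.node (nat_lit 1) (nat_lit 7) (nat_lit 9) (C.cons (nat_lit 642) (C.node (nat_lit 3) (nat_lit 7) (nat_lit 9) (C.cons (nat_lit 648) (C.node (nat_lit 1) (nat_lit 2) (nat_lit 3) (C.cons (nat_lit 30) (C.miq (nat_lit 2167890976) (nat_lit 205535116750680465565614165)) (C.cons (nat_lit 14) (C.node (nat_lit 1) (nat_lit 3) (nat_lit 4) (C.cons (nat_lit 26) (C.node (nat_lit 2) (nat_lit 3) (nat_lit 6) (C.cons (nat_lit 108) (C.miq (nat_lit 1110902353) (nat_lit 170461252260967385825673315)) (C.cons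 (nat_lit 76) (C.node (nat_lit 3) (nat_lit 6) (nat_lit 8) (C.cons (nat_lit 360) (C.miq (nat_lit 557123944) (nat_lit 205522794376588586385933249)) (C.cons (nat_lit 328) (C.node (nat_lit 5) (nat_lit 6) (nat_lit 8) (C.cons (nat_lit 352) (C.node (nat_lit 2) (nat_lit 5) (nat_lit 6) C.nil) C.nil)) C.nil))) C.nil))) C.nil)) C.nil))) C.nil)) C.nil)) (C.cons (nat_lit 138) (C.node (nat_lit 1) (nat_lit 4) (nat_lit 9) (C.cons (nat_lit 562) (C.node (nat_lit 1) (nat_lit 5) (nat_lit 7) (C.cons (nat_lit 162) (C.node (nat_lit 1) (nat_lit 5) (nat_lit 8) (C.cons (nat_lit 290) (C.node (nat_lit 1) (nat_lit 7) (nat_lit 9) (C.cons (nat_lit 642) (C.node (nat_lit 1) (nat_lit 8) (nat_lit 9) C.nil) C.nil)) C.nil)) C.nil)) (C.cons (nat_lit 530) (C.node (nat_lit 1) (nat_lit 5) (nat_lit 7) (C.cons (nat_lit 674) (C.node (nat_lit 1) (nat_lit 5) (nat_lit 8) (C.cons (nat_lit 290) (C.node (nat_lit 1) (nat_lit 8) (nat_lit 9) (C.cons (nat_lit 770) (C.node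 (nat_lit 3) (nat_lit 7) (nat_lit 9) (C.cons (nat_lit 648) (C.node (nat_lit 1) (nat_lit 2) (nat_lit 3) (C.cons (nat_lit 62) (C.miq (nat_lit 2167890976) (nat_lit 166849490523012469413970005)) (C.cons (nat_lit 46) (C.node (nat_lit 1) (nat_lit 2) (nat_lit 4) C.nil) (C.cons (nat_lit 30) (C.miq (nat_lit 2167890976) (nat_lit 166849490523012331975016533)) C.nil)))) C.nil)) C.nil)) C.nil)) (C.cons (nat_lit 162) (C.node (nat_lit 1) (nat_lit 7) (nat_lit 9) (C.cons (nat_lit 642) (C.node (nat_lit 1) (nat_lit 5) (nat_lit 8) (C.cons (nat_lit 802) (C.node (nat_lit 1) (nat_lit 2) (nat_lit 3) (C.cons (nat_lit 62) (C.miq (nat_lit 2167890976) (nat_lit 166849490523012469413970005)) (C.cons (nat_lit 46) (C.miq (nat_lit 2436334880) (nat_lit 166849490653616789888237861)) (C.cons (nat_lit 30) (C.miq (nat_lit 2167890976) (nat_lit 166849490523012331975016533)) C.nil)))) C.nil)) C.nil)) C.nil))) C.nil))) C.nil))) (C.cons (nat_lit 74) (C.node (nat_lit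 1) (nat_lit 6) (nat_lit 9) (C.cons (nat_lit 578) (C.node (nat_lit 1) (nat_lit 4) (nat_lit 9) (C.cons (nat_lit 562) (C.node (nat_lit 1) (nat_lit 5) (nat_lit 8) (C.cons (nat_lit 290) (C.node (nat_lit 1) (nat_lit 8) (nat_lit 9) (C.cons (nat_lit 770) (C.node (nat_lit 1) (nat_lit 2) (nat_lit 4) (C.cons (nat_lit 30) (C.miq (nat_lit 2014512706) (nat_lit 322785795098519287013179477)) C.nil)) C.nil)) C.nil)) (C.cons (nat_lit 530) (C.node (nat_lit 1) (nat_lit 5) (nat_lit 8) (C.cons (nat_lit 802) (C.node (nat_lit 1) (nat_lit 3) (nat_lit 9) (C.cons (nat_lit 650) (C.miq (nat_lit 1345946225) (nat_lit 649207959504275755686822278)) (C.cons (nat_lit 522) (C.node (nat_lit 1) (nat_lit 7) (nat_lit 9) C.nil) C.nil))) (C.cons (nat_lit 290) (C.node (nat_lit 1) (nat_lit 8) (nat_lit 9) (C.cons (nat_lit 770) (C.node (nat_lit 2) (nat_lit 1) (nat_lit 4) (C.cons (nat_lit 22) (C.node (nat_lit 2) (nat_lit 1) (nat_lit 3) C.nil) C.nil)) C.nil)) C.nil)))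 C.nil))) C.nil)) C.nil))) (C.cons (nat_lit 262) (C.node (nat_lit 1) (nat_lit 2) (nat_lit 7) (C.cons (nat_lit 166) (C.node (nat_lit 1) (nat_lit 7) (nat_lit 8) (C.cons (nat_lit 386) (C.node (nat_lit 1) (nat_lit 2) (nat_lit 3) (C.cons (nat_lit 30)
  (C.miq (nat_lit 2014512706) (nat_lit 322785795098519287013179477)) (C.cons (nat_lit 14) (C.node (nat_lit 1) (nat_lit 2) (nat_lit 4) (C.cons (nat_lit 22) (C.node (nat_lit 1) (nat_lit 3) (nat_lit 4) (C.cons (nat_lit 58) (C.node (nat_lit 1) (nat_lit 4) (nat_lit 9) C.nil) (C.cons (nat_lit 26) (C.node (nat_lit 1) (nat_lit 3) (nat_lit 5) (C.cons (nat_lit 42) (C.node (nat_lit 1) (nat_lit 3) (nat_lit 6) C.nil) C.nil)) C.nil))) C.nil)) C.nil))) C.nil)) (C.cons (nat_lit 134) (C.node (nat_lit 1) (nat_lit 3) (nat_lit 6) (C.cons (nat_lit 586) (C.node (nat_lit 1) (nat_lit 3) (nat_lit 7) (C.cons (nat_lit 170) (C.node (nat_lit 1) (nat_lit 7) (nat_lit 8) (C.cons (nat_lit 386) (C.node (nat_lit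 1) (nat_lit 7) (nat_lit 9) (C.cons (nat_lit 642) (C.node (nat_lit 1) (nat_lit 2) (nat_lit 3) (C.cons (nat_lit 30) (C.miq (nat_lit 2167890976) (nat_lit 205535116750680465565614165)) C.nil)) C.nil)) C.nil)) (C.cons (nat_lit 138) (C.node (nat_lit 1) (nat_lit 4) (nat_lit 9) (C.cons (nat_lit 562) (C.node (nat_lit 1) (nat_lit 7) (nat_lit 9) (C.cons (nat_lit 642) (C.node (nat_lit 1) (nat_lit 8) (nat_lit 9) C.nil) C.nil)) (C.cons (nat_lit 530) (C.node (nat_lit 1) (nat_lit 7) (nat_lit 8) (C.cons (nat_lit 418) (C.node (nat_lit 1) (nat_lit 5) (nat_lit 9) C.nil) (C.cons (nat_lit 386) (C.node (nat_lit 1) (nat_lit 5) (nat_lit 7) (C.cons (nat_lit 162) (C.node (nat_lit 1) (nat_lit 7) (nat_lit 9) C.nil) C.nil)) C.nil))) C.nil))) C.nil))) (C.cons (nat_lit 74) (C.node (nat_lit 1) (nat_lit 6) (nat_lit 9) (C.cons (nat_lit 578) (C.node (nat_lit 1) (nat_lit 4) (nat_lit 9) (C.cons (nat_lit 562) (C.node (nat_lit 1) (nat_lit 8) (nat_lit 9) (C.cons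 (nat_lit 770) (C.node (nat_lit 4) (nat_lit 6) (nat_lit 9) (C.cons (nat_lit 592) (C.node (nat_lit 1) (nat_lit 2) (nat_lit 4) (C.cons (nat_lit 22) (C.node (nat_lit 1) (nat_lit 3) (nat_lit 4) C.nil) C.nil)) C.nil)) C.nil)) (C.cons (nat_lit 530) (C.node (nat_lit 1) (nat_lit 7) (nat_lit 8) (C.cons (nat_lit 418) (C.node (nat_lit 1) (nat_lit 8) (nat_lit 9) (C.cons (nat_lit 770) (C.node (nat_lit 1) (nat_lit 3) (nat_lit 7) C.nil) C.nil)) (C.cons (nat_lit 386) (C.node (nat_lit 1) (nat_lit 5) (nat_lit 8) (C.cons (nat_lit 802) (C.node (nat_lit 1) (nat_lit 3) (nat_lit 9) C.nil) C.nil)) C.nil))) C.nil))) C.nil)) C.nil))) C.nil))) C.nil))) C.nil))) (C.cons (nat_lit 322) (C.node (nat_lit 2) (nat_lit 6) (nat_lit 8) (C.cons (nat_lit 332) (C.node (nat_lit 2) (nat_lit 3) (nat_lit 9) (C.cons (nat_lit 556) (C.node (nat_lit 2) (nat_lit 5) (nat_lit 6) (C.cons (nat_lit 100) (C.node (nat_lit 2) (nat_lit 6) (nat_lit 9) (C.cons (nat_lit 580) (C.node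 (nat_lit 3) (nat_lit 8) (nat_lit 9) (C.cons (nat_lit 776) (C.node (nat_lit 1) (nat_lit 2) (nat_lit 3) (C.cons (nat_lit 30) (C.miq (nat_lit 2016478756) (nat_lit 322785905778983703500685397)) (C.cons (nat_lit 14) (C.node (nat_lit 2) (nat_lit 3) (nat_lit 4) (C.cons (nat_lit 28) (C.node (nat_lit 2) (nat_lit 7) (nat_lit 9) (C.cons (nat_lit 660) (C.node (nat_lit 2) (nat_lit 8) (nat_lit 9) C.nil) (C.cons (nat_lit 644) (C.node (nat_lit 2) (nat_lit 4) (nat_lit 9) (C.cons (nat_lit 532) (C.node (nat_lit 2) (nat_lit 8) (nat_lit 9) C.nil) C.nil)) C.nil))) C.nil)) C.nil))) C.nil)) C.nil)) C.nil)) (C.cons (nat_lit 524) (C.node (nat_lit 2) (nat_lit 5) (nat_lit 6) (C.cons (nat_lit 612) (C.node (nat_lit 3) (nat_lit 6) (nat_lit 9) (C.cons (nat_lit 586) (C.miq (nat_lit 2190673249) (nat_lit 633482054841208164730929251)) (C.cons (nat_lit 584) (C.node (nat_lit 1) (nat_lit 2) (nat_lit 3) (C.cons (nat_lit 62) (C.miq (nat_lit 2453169424) (nat_lit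 401381099605374672933945443)) (C.cons (nat_lit 46) (C.miq (nat_lit 2453169424) (nat_lit 401381099605374604214468707)) (C.cons (nat_lit 30) (C.miq (nat_lit 2016478756) (nat_lit 322785905778983703500685397)) (C.cons (nat_lit 14) (C.node (nat_lit 1) (nat_lit 3) (nat_lit 6) (C.cons (nat_lit 90) (C.node (nat_lit 1) (nat_lit 6) (nat_lit 9) C.nil) (C.cons (nat_lit 74) (C.node (nat_lit 1) (nat_lit 4) (nat_lit 6) (C.cons (nat_lit 82)
  (C.node (nat_lit 1) (nat_lit 6) (nat_lit 9) C.nil) C.nil)) C.nil))) C.nil))))) C.nil))) (C.cons (nat_lit 100) (C.node (nat_lit 2) (nat_lit 6) (nat_lit 9) (C.cons (nat_lit 580) (C.node (nat_lit 2) (nat_lit 8) (nat_lit 9) (C.cons (nat_lit 788) (C.node (nat_lit 1) (nat_lit 2) (nat_lit 8) (C.cons (nat_lit 390) (C.node (nat_lit 1) (nat_lit 4) (nat_lit 8) (C.cons (nat_lit 306) (C.node (nat_lit 1) (nat_lit 8) (nat_lit 9) (C.cons (nat_lit 770) (C.node (nat_lit 4) (nat_lit 6) (nat_lit 8) (C.cons (nat_lit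 336) (C.node (nat_lit 5) (nat_lit 6) (nat_lit 8) (C.cons (nat_lit 352) (C.node (nat_lit 1) (nat_lit 3) (nat_lit 6) C.nil) C.nil)) C.nil)) C.nil)) (C.cons (nat_lit 274) (C.node (nat_lit 1) (nat_lit 5) (nat_lit 8) (C.cons (nat_lit 802) (C.node (nat_lit 3) (nat_lit 8) (nat_lit 9) (C.cons (nat_lit 776) (C.node (nat_lit 1) (nat_lit 4) (nat_lit 9) (C.cons (nat_lit 594) (C.node (nat_lit 4) (nat_lit 6) (nat_lit 8) (C.cons (nat_lit 336) (C.miq (nat_lit 1480983185) (nat_lit 406200901700654252596265479)) C.nil)) (C.cons (nat_lit 530) (C.miq (nat_lit 1637090690) (nat_lit 640732252396869195215929637)) C.nil))) C.nil)) (C.cons (nat_lit 290) (C.node (nat_lit 1) (nat_lit 8) (nat_lit 9) (C.cons (nat_lit 770) (C.node (nat_lit 4) (nat_lit 6) (nat_lit 8) (C.cons (nat_lit 368) (C.miq (nat_lit 1485923360) (nat_lit 930874707434513937667129429)) (C.cons (nat_lit 336) (C.node (nat_lit 5) (nat_lit 6) (nat_lit 8) C.nil) C.nil))) C.nil)) C.nil)))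 C.nil))) (C.cons (nat_lit 262) (C.node (nat_lit 2) (nat_lit 7) (nat_lit 8) (C.cons (nat_lit 388) (C.node (nat_lit 1) (nat_lit 2) (nat_lit 7) (C.cons (nat_lit 134) (C.node (nat_lit 2) (nat_lit 4) (nat_lit 7) C.nil) C.nil)) C.nil)) C.nil))) (C.cons (nat_lit 772) (C.node (nat_lit 3) (nat_lit 8) (nat_lit 9) (C.cons (nat_lit 808) (C.node (nat_lit 2) (nat_lit 3) (nat_lit 4) (C.cons (nat_lit 62) (C.miq (nat_lit 2016478756) (nat_lit 322785905778983703502782549)) (C.cons (nat_lit 60) (C.miq (nat_lit 1765017682) (nat_lit 649194733376803055085551909)) (C.cons (nat_lit 30) (C.miq (nat_lit 2016478756) (nat_lit 322785905778983703500685397)) (C.cons (nat_lit 28) (C.node (nat_lit 1) (nat_lit 2) (nat_lit 3) (C.cons (nat_lit 46) (C.node (nat_lit 1) (nat_lit 2) (nat_lit 4) (C.cons (nat_lit 22) (C.node (nat_lit 1) (nat_lit 2) (nat_lit 7) C.nil) C.nil)) (C.cons (nat_lit 14) (C.node (nat_lit 2) (nat_lit 3) (nat_lit 5) C.nil) C.nil))) C.nil)))))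 (C.cons (nat_lit 776) (C.node (nat_lit 4) (nat_lit 6) (nat_lit 8) (C.cons (nat_lit 368) (C.node (nat_lit 4) (nat_lit 6) (nat_lit 7) (C.cons (nat_lit 208) (C.node (nat_lit 3) (nat_lit 4) (nat_lit 6) C.nil) C.nil)) (C.cons (nat_lit 336) (C.node (nat_lit 5) (nat_lit 6) (nat_lit 8) (C.cons (nat_lit 352) (C.node (nat_lit 1) (nat_lit 3) (nat_lit 6) C.nil) C.nil)) C.nil))) C.nil))) C.nil))) C.nil)) C.nil))) C.nil))) (C.cons (nat_lit 324) (C.node (nat_lit 1) (nat_lit 2) (nat_lit 7) (C.cons (nat_lit 390) (C.ref (nat_lit 75) (nat_lit 646263816480)) (C.cons (nat_lit 166) (C.node (nat_lit 1) (nat_lit 7) (nat_lit 8) (C.cons (nat_lit 386) (C.node (nat_lit 1) (nat_lit 2) (nat_lit 3) (C.cons (nat_lit 30) (C.node (nat_lit 1) (nat_lit 2) (nat_lit 8) (C.cons (nat_lit 262) (C.node (nat_lit 1) (nat_lit 3) (nat_lit 7) (C.cons (nat_lit 650) (C.miq (nat_lit 1898353472) (nat_lit 84642534877037740825051673)) (C.cons (nat_lit 138) (C.node (nat_lit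 1) (nat_lit 7) (nat_lit 9) (C.cons (nat_lit 642) (C.node (nat_lit 1) (nat_lit 3) (nat_lit 5) (C.cons (nat_lit 42) (C.node (nat_lit 1) (nat_lit 3) (nat_lit 6) C.nil) C.nil)) C.nil)) C.nil))) C.nil)) (C.cons (nat_lit 14) (C.node (nat_lit 1) (nat_lit 2) (nat_lit 4) (C.cons (nat_lit 278) (C.node (nat_lit 2) (nat_lit 7) (nat_lit 8) (C.cons (nat_lit 388) (C.node (nat_lit 1) (nat_lit 3) (nat_lit 7) (C.cons (nat_lit 650) (C.node (nat_lit 1) (nat_lit 5) (nat_lit 8) (C.cons (nat_lit 802) (C.miq (nat_lit 1362266480) (nat_lit 16930366596364128404440001)) (C.cons (nat_lit 290) (C.node (nat_lit 1) (nat_lit 8) (nat_lit 9) C.nil) C.nil))) (C.cons (nat_lit 138)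
  (C.node (nat_lit 1) (nat_lit 7) (nat_lit 9) (C.cons (nat_lit 642) (C.node (nat_lit 1) (nat_lit 5) (nat_lit 8) (C.cons (nat_lit 290) (C.node (nat_lit 1) (nat_lit 8) (nat_lit 9) C.nil) C.nil)) C.nil)) C.nil))) C.nil)) (C.cons (nat_lit 22) (C.node (nat_lit 1) (nat_lit 2) (nat_lit 8) (C.cons (nat_lit 262) (C.node (nat_lit 1) (nat_lit 3) (nat_lit 7) (C.cons (nat_lit 650) (C.node (nat_lit 1) (nat_lit 3) (nat_lit 5) (C.cons (nat_lit 42) (C.node (nat_lit 1) (nat_lit 3) (nat_lit 4) C.nil) C.nil)) (C.cons (nat_lit 138) (C.node (nat_lit 1) (nat_lit 7) (nat_lit 9) C.nil) C.nil))) C.nil)) C.nil))) C.nil))) C.nil)) (C.cons (nat_lit 134) (C.node (nat_lit 1) (nat_lit 2) (nat_lit 8) (C.cons (nat_lit 278) (C.node (nat_lit 2) (nat_lit 7) (nat_lit 8) (C.cons (nat_lit 388) (C.node (nat_lit 1) (nat_lit 2) (nat_lit 3) (C.cons (nat_lit 46) (C.node (nat_lit 2) (nat_lit 3) (nat_lit 4) (C.cons (nat_lit 28) (C.node (nat_lit 1) (nat_lit 3) (nat_lit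 4) (C.cons (nat_lit 90) (C.node (nat_lit 1) (nat_lit 6) (nat_lit 9) (C.cons (nat_lit 578) (C.node (nat_lit 2) (nat_lit 3) (nat_lit 8) (C.cons (nat_lit 780) (C.miq (nat_lit 2467725904) (nat_lit 108821051305922140011954469)) (C.cons (nat_lit 268) (C.node (nat_lit 2) (nat_lit 8) (nat_lit 9) (C.cons (nat_lit 772) (C.node (nat_lit 2) (nat_lit 3) (nat_lit 6) C.nil) C.nil)) C.nil))) C.nil)) (C.cons (nat_lit 26) (C.node (nat_lit 1) (nat_lit 3) (nat_lit 6) (C.cons (nat_lit 586) (C.node (nat_lit 1) (nat_lit 3) (nat_lit 7) (C.cons (nat_lit 138) (C.node (nat_lit 1) (nat_lit 4) (nat_lit 6) C.nil) C.nil)) (C.cons (nat_lit 74) (C.node (nat_lit 2) (nat_lit 3) (nat_lit 8) (C.cons (nat_lit 780) (C.miq (nat_lit 2467725904) (nat_lit 89478238192088073216655653)) (C.cons (nat_lit 268) (C.node (nat_lit 2) (nat_lit 8) (nat_lit 9) (C.cons (nat_lit 772) (C.node (nat_lit 2) (nat_lit 3) (nat_lit 6) C.nil) C.nil)) C.nil))) C.nil))) C.nil))) C.nil))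 (C.cons (nat_lit 14) (C.node (nat_lit 1) (nat_lit 2) (nat_lit 5) (C.cons (nat_lit 38) (C.node (nat_lit 1) (nat_lit 7) (nat_lit 8) (C.cons (nat_lit 418) (C.node (nat_lit 1) (nat_lit 8) (nat_lit 9) (C.cons (nat_lit 770) (C.node (nat_lit 1) (nat_lit 3) (nat_lit 7) (C.cons (nat_lit 138) (C.node (nat_lit 1) (nat_lit 7) (nat_lit 9) C.nil) C.nil)) C.nil)) (C.cons (nat_lit 386) (C.node (nat_lit 1) (nat_lit 5) (nat_lit 8) (C.cons (nat_lit 802) (C.node (nat_lit 4) (nat_lit 8) (nat_lit 9) (C.cons (nat_lit 784) (C.node (nat_lit 1) (nat_lit 4) (nat_lit 5) (C.cons (nat_lit 50) (C.node (nat_lit 1) (nat_lit 3) (nat_lit 4) C.nil) C.nil)) C.nil)) (C.cons (nat_lit 290) (C.node (nat_lit 1) (nat_lit 8) (nat_lit 9) C.nil) C.nil))) C.nil))) C.nil)) C.nil))) C.nil)) (C.cons (nat_lit 262) (C.node (nat_lit 1) (nat_lit 7) (nat_lit 8) (C.cons (nat_lit 418) (C.node (nat_lit 2) (nat_lit 7) (nat_lit 8) (C.cons (nat_lit 404) (C.miq (nat_lit 1652884593)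 (nat_lit 354217091398676753649107091)) (C.cons (nat_lit 388) (C.node (nat_lit 1) (nat_lit 3) (nat_lit 7) (C.cons (nat_lit 650) (C.node (nat_lit 1) (nat_lit 6) (nat_lit 9) (C.cons (nat_lit 594) (C.miq (nat_lit 1634879792) (nat_lit 161997627968805502626628121)) (C.cons (nat_lit 578) (C.node (nat_lit 1) (nat_lit 2) (nat_lit 3) (C.cons (nat_lit 62) (C.miq (nat_lit 1750206228) (nat_lit 354216833390831861420130451)) (C.cons (nat_lit 46) (C.miq (nat_lit 898044425) (nat_lit 505342982995512013652820487)) (C.cons (nat_lit 30) (C.miq (nat_lit 1183916147) (nat_lit 698759677163507374793293965)) (C.cons (nat_lit 14) (C.node (nat_lit 1) (nat_lit 2) (nat_lit 4) (C.cons (nat_lit 22) (C.node (nat_lit 1) (nat_lit 2) (nat_lit 5) C.nil) C.nil)) C.nil))))) C.nil))) (C.cons (nat_lit 138) (C.node (nat_lit 1) (nat_lit 7) (nat_lit 9) (C.cons (nat_lit 642) (C.node (nat_lit 1) (nat_lit 4) (nat_lit 8) (C.cons (nat_lit 786) (C.node (nat_lit 1) (nat_lit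 4) (nat_lit 6) (C.cons (nat_lit 82) (C.node (nat_lit 1) (nat_lit 3) (nat_lit 6) C.nil) C.nil)) (C.cons (nat_lit 274) (C.node (nat_lit 1) (nat_lit 8) (nat_lit 9) C.nil) C.nil))) C.nil)) C.nil))) C.nil))) (C.cons (nat_lit 386)
  (C.node (nat_lit 2) (nat_lit 7) (nat_lit 8) (C.cons (nat_lit 404) (C.node (nat_lit 2) (nat_lit 3) (nat_lit 8) (C.cons (nat_lit 780) (C.node (nat_lit 1) (nat_lit 2) (nat_lit 4) (C.cons (nat_lit 62) (C.miq (nat_lit 1747257153) (nat_lit 354217091645248833224310931)) (C.cons (nat_lit 54) (C.miq (nat_lit 1747257153) (nat_lit 354217091645248833223786643)) (C.cons (nat_lit 30) (C.miq (nat_lit 2454160144) (nat_lit 488423758664915632153362699)) (C.cons (nat_lit 22) (C.node (nat_lit 1) (nat_lit 2) (nat_lit 3) (C.cons (nat_lit 46) (C.node (nat_lit 2) (nat_lit 3) (nat_lit 4) C.nil) (C.cons (nat_lit 14) (C.node (nat_lit 1) (nat_lit 2) (nat_lit 5) C.nil) C.nil))) C.nil))))) (C.cons (nat_lit 268) (C.node (nat_lit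 2) (nat_lit 8) (nat_lit 9) (C.cons (nat_lit 772) (C.node (nat_lit 2) (nat_lit 4) (nat_lit 9) (C.cons (nat_lit 564) (C.node (nat_lit 2) (nat_lit 5) (nat_lit 7) (C.cons (nat_lit 164) (C.node (nat_lit 2) (nat_lit 7) (nat_lit 9) C.nil) C.nil)) (C.cons (nat_lit 532) (C.node (nat_lit 2) (nat_lit 5) (nat_lit 7) (C.cons (nat_lit 676) (C.node (nat_lit 2) (nat_lit 3) (nat_lit 9) C.nil) C.nil)) C.nil))) C.nil)) C.nil))) (C.cons (nat_lit 388) (C.node (nat_lit 1) (nat_lit 3) (nat_lit 6) (C.cons (nat_lit 586) (C.node (nat_lit 1) (nat_lit 4) (nat_lit 6) (C.cons (nat_lit 82) (C.node (nat_lit 1) (nat_lit 3) (nat_lit 7) (C.cons (nat_lit 170) (C.node (nat_lit 1) (nat_lit 7) (nat_lit 9) (C.cons (nat_lit 642) (C.node (nat_lit 1) (nat_lit 2) (nat_lit 3) C.nil) C.nil)) (C.cons (nat_lit 138) (C.node (nat_lit 1) (nat_lit 5) (nat_lit 7) (C.cons (nat_lit 674) (C.node (nat_lit 1) (nat_lit 4) (nat_lit 9) C.nil) C.nil)) C.nil))) C.nil)) (C.cons (nat_lit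 90) (C.node (nat_lit 1) (nat_lit 6) (nat_lit 9) (C.cons (nat_lit 578) (C.node (nat_lit 1) (nat_lit 2) (nat_lit 3) (C.cons (nat_lit 46) (C.node (nat_lit 1) (nat_lit 2) (nat_lit 4) (C.cons (nat_lit 22) (C.node (nat_lit 1) (nat_lit 3) (nat_lit 7) C.nil) C.nil)) (C.cons (nat_lit 14) (C.node (nat_lit 1) (nat_lit 2) (nat_lit 4) (C.cons (nat_lit 54) (C.node (nat_lit 1) (nat_lit 4) (nat_lit 8) C.nil) C.nil)) C.nil))) C.nil)) (C.cons (nat_lit 74) (C.node (nat_lit 1) (nat_lit 4) (nat_lit 6) (C.cons (nat_lit 594) (C.node (nat_lit 1) (nat_lit 4) (nat_lit 8) (C.cons (nat_lit 306) (C.node (nat_lit 1) (nat_lit 8) (nat_lit 9) (C.cons (nat_lit 770) (C.node (nat_lit 1) (nat_lit 2) (nat_lit 4) C.nil) C.nil)) (C.cons (nat_lit 274) (C.node (nat_lit 1) (nat_lit 5) (nat_lit 8) (C.cons (nat_lit 802) (C.node (nat_lit 1) (nat_lit 3) (nat_lit 9) C.nil) C.nil)) C.nil))) (C.cons (nat_lit 82) (C.node (nat_lit 1) (nat_lit 6) (nat_lit 9) C.nil) C.nil)))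 C.nil)))) C.nil))) C.nil))) C.nil))) C.nil)))) C.nil))) C.nil))) C.nil)))) List.nil)

theorem ok10_77 : okL par10 (nat_lit 78) c10_77 (nat_lit 77) = true := by decide +kernel

noncomputable def c10_78 : List C :=
  (List.cons (C.node (nat_lit 1) (nat_lit 6) (nat_lit 7) (C.cons (nat_lit 202) (C.node (nat_lit 2) (nat_lit 6) (nat_lit 7) (C.cons (nat_lit 228) (C.miq (nat_lit 2188576097) (nat_lit 170463465928803541525856355)) (C.cons (nat_lit 196) (C.node (nat_lit 1) (nat_lit 2) (nat_lit 6) (C.cons (nat_lit 326) (C.node (nat_lit 1) (nat_lit 2) (nat_lit 3) (C.cons (nat_lit 62) (C.miq (nat_lit 2268202517) (nat_lit 170463945732174630738591843)) (C.cons (nat_lit 46) (C.miq (nat_lit 2268202517) (nat_lit 170463945732174630737543267)) (C.cons (nat_lit 30) (C.miq (nat_lit 2551383588) (nat_lit 322793100009172424456011861)) (C.cons (nat_lit 14) (C.node (nat_lit 1) (nat_lit 2) (nat_lit 4) (C.cons (nat_lit 54) (C.node (nat_lit 1) (nat_lit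 2) (nat_lit 7) (C.cons (nat_lit 134) (C.node (nat_lit 1) (nat_lit 3) (nat_lit 4) (C.cons (nat_lit 26) (C.node (nat_lit 1) (nat_lit 4) (nat_lit 6) (C.cons (nat_lit 594) (C.miq (nat_lit 2421450785) (nat_lit 59248322797595324082159942)) (C.cons (nat_lit 82) (C.node (nat_lit 1) (nat_lit 6) (nat_lit 9) (C.cons (nat_lit 578) (C.node (nat_lit 1) (nat_lit 7) (nat_lit 8) (C.cons (nat_lit 418) (C.miq (nat_lit 1750206228) (nat_lit 354216833390831861419606163)) (C.cons (nat_lit 386) (C.node (nat_lit 1) (nat_lit 5) (nat_lit 8) (C.cons (nat_lit 802) (C.miq (nat_lit 2437317920) (nat_lit 99149644755197590460760357)) C.nil)) C.nil))) C.nil)) C.nil))) C.nil)) C.nil)) (C.cons (nat_lit 22) (C.node (nat_lit 1) (nat_lit 2) (nat_lit 5) (C.cons (nat_lit 166) (C.node (nat_lit 1) (nat_lit 7) (nat_lit 8) (C.cons (nat_lit 386) (C.node (nat_lit 1) (nat_lit 7) (nat_lit 9) (C.cons (nat_lit 642) (C.node (nat_lit 1) (nat_lit 3) (nat_lit 4) (C.cons (nat_lit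 58) (C.node (nat_lit 1) (nat_lit 3) (nat_lit 9) (C.cons (nat_lit 522) (C.node (nat_lit 3) (nat_lit 4) (nat_lit 6) (C.cons (nat_lit 344) (C.miq (nat_lit 2474706018) (nat_lit 322792767848433784887574613)) (C.cons (nat_lit 88) (C.node (nat_lit 3) (nat_lit 4) (nat_lit 7) (C.cons (nat_lit 408) (C.miq (nat_lit 1350833779) (nat_lit 330037818693820190033445066)) (C.cons (nat_lit 152) (C.node (nat_lit 3) (nat_lit 6) (nat_lit 8) (C.cons (nat_lit 360) (C.miq (nat_lit 2202494224) (nat_lit 183774452003809710168014947)) (C.cons (nat_lit 328) (C.node (nat_lit 4) (nat_lit 6) (nat_lit 7) (C.cons (nat_lit 240) (C.miq (nat_lit 2269316689) (nat_lit 183761650132589798420512867)) (C.cons (nat_lit 208) (C.node (nat_lit 5) (nat_lit 6) (nat_lit 7) (C.cons (nat_lit 224) (C.node (nat_lit 2) (nat_lit 7) (nat_lit 8) (C.cons (nat_lit 388) (C.node (nat_lit 2) (nat_lit 4) (nat_lit 7) C.nil) C.nil)) C.nil)) C.nil))) C.nil))) C.nil))) C.nil))) C.nil))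 (C.cons (nat_lit 26) (C.node (nat_lit 1) (nat_lit 3) (nat_lit 5) (C.cons (nat_lit 554) (C.node (nat_lit 3) (nat_lit 7) (nat_lit 9) (C.cons (nat_lit 648) (C.node (nat_lit 3) (nat_lit 4) (nat_lit 6) (C.cons (nat_lit 376) (C.miq (nat_lit 607716945) (nat_lit 649202739017157110038921315)) (C.cons (nat_lit 344) (C.miq (nat_lit 2474706018) (nat_lit 322792767848433784887574613)) (C.cons (nat_lit 120) (C.miq (nat_lit 607716945) (nat_lit 649202739017156010527293539)) (C.cons (nat_lit 88) (C.node (nat_lit 1) (nat_lit 4) (nat_lit 5) (C.cons (nat_lit 306) (C.node (nat_lit 1) (nat_lit 8) (nat_lit 9) (C.cons (nat_lit 770) (C.node (nat_lit 4) (nat_lit 6) (nat_lit 8) (C.cons (nat_lit 336) (C.node (nat_lit 5) (nat_lit 8) (nat_lit 9) (C.cons (nat_lit 800) (C.node (nat_lit 1) (nat_lit 4) (nat_lit 6) (C.cons (nat_lit 594) (C.node (nat_lit 3) (nat_lit 6) (nat_lit 9) (C.cons (nat_lit 588) (C.miq (nat_lit 423052832) (nat_lit 783386642948857202129829973))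 (C.cons (nat_lit 584) (C.node (nat_lit 4) (nat_lit 8) (nat_lit 9) (C.cons (nat_lit 788) (C.miq (nat_lit 605391200) (nat_lit 369936705919894957223773121)) (C.cons (nat_lit 784) (C.node (nat_lit 2) (nat_lit 3) (nat_lit 9) (C.cons (nat_lit 524) (C.node (nat_lit 2) (nat_lit 8) (nat_lit 9) C.nil) C.nil)) C.nil))) C.nil))) C.nil)) C.nil)) C.nil)) C.nil)) (C.cons (nat_lit 50) (C.node (nat_lit 1) (nat_lit 5) (nat_lit 8) C.nil) C.nil))) C.nil))))) C.nil))
  (C.cons (nat_lit 42) (C.node (nat_lit 1) (nat_lit 3) (nat_lit 9) C.nil) C.nil))) C.nil))) C.nil)) C.nil)) (C.cons (nat_lit 38) (C.node (nat_lit 1) (nat_lit 2) (nat_lit 7) (C.cons (nat_lit 134) (C.node (nat_lit 1) (nat_lit 3) (nat_lit 4) (C.cons (nat_lit 58) (C.node (nat_lit 1) (nat_lit 3) (nat_lit 9) (C.cons (nat_lit 522) (C.node (nat_lit 3) (nat_lit 4) (nat_lit 6) (C.cons (nat_lit 344) (C.miq (nat_lit 2474706018) (nat_lit 322792767848433784887574613)) (C.cons (nat_lit 88) (C.node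 (nat_lit 3) (nat_lit 4) (nat_lit 7) (C.cons (nat_lit 408) (C.miq (nat_lit 1350833779) (nat_lit 330037818693820190033445066)) (C.cons (nat_lit 152) (C.node (nat_lit 3) (nat_lit 6) (nat_lit 8) (C.cons (nat_lit 360) (C.miq (nat_lit 2202494224) (nat_lit 183774452003809710168014947)) (C.cons (nat_lit 328) (C.node (nat_lit 4) (nat_lit 6) (nat_lit 7) (C.cons (nat_lit 240) (C.miq (nat_lit 2269316689) (nat_lit 183761650132589798420512867)) (C.cons (nat_lit 208) (C.node (nat_lit 5) (nat_lit 6) (nat_lit 7) (C.cons (nat_lit 224) (C.node (nat_lit 1) (nat_lit 4) (nat_lit 6) (C.cons (nat_lit 594) (C.node (nat_lit 4) (nat_lit 5) (nat_lit 6) (C.cons (nat_lit 368) (C.miq (nat_lit 558172520) (nat_lit 70123102579750153179104193)) C.nil)) (C.cons (nat_lit 82) (C.node (nat_lit 1) (nat_lit 6) (nat_lit 9) C.nil) C.nil))) C.nil)) C.nil))) C.nil))) C.nil))) C.nil))) C.nil)) (C.cons (nat_lit 26) (C.node (nat_lit 1) (nat_lit 3) (nat_lit 5) (C.cons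 (nat_lit 554) (C.node (nat_lit 1) (nat_lit 7) (nat_lit 9) (C.cons (nat_lit 642) (C.node (nat_lit 3) (nat_lit 7) (nat_lit 9) (C.cons (nat_lit 648) (C.node (nat_lit 1) (nat_lit 4) (nat_lit 5) (C.cons (nat_lit 306) (C.node (nat_lit 1) (nat_lit 5) (nat_lit 7) C.nil) C.nil)) C.nil)) C.nil)) (C.cons (nat_lit 42) (C.node (nat_lit 1) (nat_lit 3) (nat_lit 9) (C.cons (nat_lit 522) (C.node (nat_lit 1) (nat_lit 4) (nat_lit 6) (C.cons (nat_lit 82) (C.node (nat_lit 1) (nat_lit 6) (nat_lit 9) C.nil) C.nil)) C.nil)) C.nil))) C.nil))) C.nil)) C.nil))) C.nil))) C.nil))))) (C.cons (nat_lit 70) (C.node (nat_lit 1) (nat_lit 3) (nat_lit 9) (C.cons (nat_lit 554) (C.node (nat_lit 1) (nat_lit 7) (nat_lit 9) (C.cons (nat_lit 642) (C.node (nat_lit 3) (nat_lit 7) (nat_lit 9) (C.cons (nat_lit 648) (C.node (nat_lit 1) (nat_lit 2) (nat_lit 3) (C.cons (nat_lit 30) (C.node (nat_lit 1) (nat_lit 6) (nat_lit 8) (C.cons (nat_lit 338) (C.miq (nat_lit 2167890976)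 (nat_lit 244220742978348599156211797)) (C.cons (nat_lit 322) (C.node (nat_lit 1) (nat_lit 4) (nat_lit 6) (C.cons (nat_lit 594) (C.miq (nat_lit 2436326432) (nat_lit 244220743050406193194139733)) (C.cons (nat_lit 82) (C.node (nat_lit 1) (nat_lit 6) (nat_lit 9) (C.cons (nat_lit 578) (C.node (nat_lit 2) (nat_lit 6) (nat_lit 8) (C.cons (nat_lit 332) (C.miq (nat_lit 2199347776) (nat_lit 244220742976659749296341077)) (C.cons (nat_lit 324) (C.node (nat_lit 3) (nat_lit 6) (nat_lit 9) (C.cons (nat_lit 588) (C.miq (nat_lit 2467783232) (nat_lit 244220743048717343334269013)) (C.cons (nat_lit 584) (C.node (nat_lit 3) (nat_lit 4) (nat_lit 6) (C.cons (nat_lit 376) (C.miq (nat_lit 607716945) (nat_lit 649202739017157110038921315)) (C.cons (nat_lit 344) (C.miq (nat_lit 2199479328) (nat_lit 669762631484386918537822293)) (C.cons (nat_lit 120) (C.miq (nat_lit 607716945) (nat_lit 649202739017156010527293539)) (C.cons (nat_lit 88) (C.node (nat_lit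 2) (nat_lit 3) (nat_lit 6) C.nil) C.nil))))) C.nil))) C.nil))) C.nil)) C.nil))) C.nil))) (C.cons (nat_lit 14) (C.node (nat_lit 1) (nat_lit 3) (nat_lit 4) (C.cons (nat_lit 26) (C.node (nat_lit 1) (nat_lit 6) (nat_lit 8) (C.cons (nat_lit 338) (C.node (nat_lit 1) (nat_lit 4) (nat_lit 9) (C.cons (nat_lit 530) (C.node (nat_lit 1) (nat_lit 6) (nat_lit 9) (C.cons (nat_lit 578) (C.node (nat_lit 1) (nat_lit 8) (nat_lit 9) C.nil) C.nil)) C.nil)) (C.cons (nat_lit 322) (C.node (nat_lit 1) (nat_lit 4) (nat_lit 6) (C.cons (nat_lit 594) (C.node (nat_lit 1) (nat_lit 8) (nat_lit 9) (C.cons (nat_lit 770) (C.node (nat_lit 3) (nat_lit 6) (nat_lit 9) (C.cons (nat_lit 588)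
  (C.miq (nat_lit 423052832) (nat_lit 783386642948857202129829973)) (C.cons (nat_lit 584) (C.node (nat_lit 1) (nat_lit 2) (nat_lit 4) (C.cons (nat_lit 278) (C.node (nat_lit 1) (nat_lit 4) (nat_lit 5) C.nil) (C.cons (nat_lit 54) (C.miq (nat_lit 2299856450) (nat_lit 669750309233018163518898261)) C.nil))) C.nil))) C.nil)) (C.cons (nat_lit 82) (C.node (nat_lit 1) (nat_lit 6) (nat_lit 9) (C.cons (nat_lit 578) (C.node (nat_lit 1) (nat_lit 4) (nat_lit 9) (C.cons (nat_lit 530) (C.node (nat_lit 1) (nat_lit 8) (nat_lit 9) C.nil) C.nil)) C.nil)) C.nil))) C.nil))) C.nil)) C.nil))) C.nil)) C.nil)) (C.cons (nat_lit 522) (C.node (nat_lit 1) (nat_lit 6) (nat_lit 8) (C.cons (nat_lit 338) (C.node (nat_lit 1) (nat_lit 6) (nat_lit 9) (C.cons (nat_lit 578) (C.node (nat_lit 2) (nat_lit 6) (nat_lit 8) (C.cons (nat_lit 332) (C.miq (nat_lit 1904411746) (nat_lit 322785794869398655990497365)) (C.cons (nat_lit 324) (C.node (nat_lit 1) (nat_lit 2)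 (nat_lit 3) (C.cons (nat_lit 62) (C.miq (nat_lit 2268202517) (nat_lit 170463945732174630738591843)) (C.cons (nat_lit 46) (C.miq (nat_lit 2268202517) (nat_lit 170463945732174630737543267)) (C.cons (nat_lit 30) (C.miq (nat_lit 2167890976) (nat_lit 244220742978348599156211797)) (C.cons (nat_lit 14) (C.node (nat_lit 1) (nat_lit 2) (nat_lit 4) (C.cons (nat_lit 54) (C.node (nat_lit 1) (nat_lit 3) (nat_lit 4) (C.cons (nat_lit 26) (C.node (nat_lit 1) (nat_lit 3) (nat_lit 5) (C.cons (nat_lit 42) (C.node (nat_lit 1) (nat_lit 4) (nat_lit 9) C.nil) C.nil)) C.nil)) (C.cons (nat_lit 22) (C.node (nat_lit 1) (nat_lit 2) (nat_lit 5) (C.cons (nat_lit 166) (C.node (nat_lit 1) (nat_lit 2) (nat_lit 8) (C.cons (nat_lit 262) (C.node (nat_lit 1) (nat_lit 7) (nat_lit 8) C.nil) C.nil)) (C.cons (nat_lit 38) (C.node (nat_lit 1) (nat_lit 2) (nat_lit 7) (C.cons (nat_lit 390) (C.node (nat_lit 1) (nat_lit 3) (nat_lit 4) (C.cons (nat_lit 58) (C.node (nat_lit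 1) (nat_lit 4) (nat_lit 9) C.nil) C.nil)) (C.cons (nat_lit 134) (C.node (nat_lit 1) (nat_lit 2) (nat_lit 8) (C.cons (nat_lit 262) (C.node (nat_lit 1) (nat_lit 3) (nat_lit 4) C.nil) C.nil)) C.nil))) C.nil))) C.nil))) C.nil))))) C.nil))) C.nil)) (C.cons (nat_lit 322) (C.node (nat_lit 1) (nat_lit 4) (nat_lit 6) (C.cons (nat_lit 594) (C.node (nat_lit 1) (nat_lit 2) (nat_lit 3) (C.cons (nat_lit 62) (C.miq (nat_lit 2268202517) (nat_lit 170463945732174630738591843)) (C.cons (nat_lit 46) (C.miq (nat_lit 2268202517) (nat_lit 170463945732174630737543267)) (C.cons (nat_lit 30) (C.miq (nat_lit 2436326432) (nat_lit 244220743050406193194139733)) (C.cons (nat_lit 14) (C.node (nat_lit 1) (nat_lit 3) (nat_lit 4) (C.cons (nat_lit 58) (C.node (nat_lit 1) (nat_lit 8) (nat_lit 9) (C.cons (nat_lit 802) (C.miq (nat_lit 622069910) (nat_lit 70119265593370370223768513)) (C.cons (nat_lit 770) (C.node (nat_lit 3) (nat_lit 4) (nat_lit 7) (C.cons (nat_lit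 408) (C.miq (nat_lit 1350833779) (nat_lit 330037818693820190033445066)) (C.cons (nat_lit 152) (C.node (nat_lit 4) (nat_lit 6) (nat_lit 7) (C.cons (nat_lit 240) (C.miq (nat_lit 2269316689) (nat_lit 183761650132589798420512867)) (C.cons (nat_lit 208) (C.node (nat_lit 5) (nat_lit 6) (nat_lit 7) (C.cons (nat_lit 224) (C.node (nat_lit 4) (nat_lit 5) (nat_lit 6) (C.cons (nat_lit 368) (C.miq (nat_lit 558172520) (nat_lit 70123102579750153179104193)) (C.cons (nat_lit 112) (C.node (nat_lit 2) (nat_lit 6) (nat_lit 8) (C.cons (nat_lit 324) (C.node (nat_lit 3) (nat_lit 4) (nat_lit 6) C.nil) C.nil)) C.nil))) C.nil)) C.nil))) C.nil))) C.nil))) (C.cons (nat_lit 26) (C.node (nat_lit 1) (nat_lit 3) (nat_lit 5) (C.cons (nat_lit 42) (C.node (nat_lit 1) (nat_lit 7) (nat_lit 9) (C.cons (nat_lit 674) (C.node (nat_lit 1) (nat_lit 8) (nat_lit 9) C.nil) (C.cons (nat_lit 642) (C.node (nat_lit 1) (nat_lit 5) (nat_lit 9) (C.cons (nat_lit 546) (C.node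 (nat_lit 1) (nat_lit 8) (nat_lit 9) C.nil) C.nil)) C.nil))) C.nil)) C.nil))) C.nil))))) (C.cons (nat_lit 82) (C.node (nat_lit 1) (nat_lit 6) (nat_lit 9) (C.cons (nat_lit 578) (C.node (nat_lit 1) (nat_lit 7) (nat_lit 9) (C.cons (nat_lit 674)
  (C.node (nat_lit 3) (nat_lit 7) (nat_lit 9) (C.cons (nat_lit 648) (C.node (nat_lit 1) (nat_lit 2) (nat_lit 7) (C.cons (nat_lit 390) (C.node (nat_lit 1) (nat_lit 4) (nat_lit 9) (C.cons (nat_lit 786) (C.node (nat_lit 1) (nat_lit 5) (nat_lit 8) (C.cons (nat_lit 290) (C.node (nat_lit 1) (nat_lit 2) (nat_lit 5) (C.cons (nat_lit 62) (C.miq (nat_lit 2268202517) (nat_lit 170463945732174630738591843)) (C.cons (nat_lit 54) (C.miq (nat_lit 873597319) (nat_lit 65284595401259806844388289)) (C.cons (nat_lit 46) (C.miq (nat_lit 1092851824) (nat_lit 55620493825081530806764481)) C.nil)))) C.nil)) (C.cons (nat_lit 530) (C.node (nat_lit 1) (nat_lit 8) (nat_lit 9) C.nil) C.nil))) (C.cons (nat_lit 134)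 (C.node (nat_lit 1) (nat_lit 7) (nat_lit 8) (C.cons (nat_lit 386) (C.node (nat_lit 1) (nat_lit 2) (nat_lit 8) (C.cons (nat_lit 262) (C.node (nat_lit 1) (nat_lit 4) (nat_lit 9) C.nil) C.nil)) C.nil)) C.nil))) C.nil)) (C.cons (nat_lit 642) (C.node (nat_lit 2) (nat_lit 6) (nat_lit 8) (C.cons (nat_lit 332) (C.node (nat_lit 1) (nat_lit 2) (nat_lit 3) (C.cons (nat_lit 62) (C.miq (nat_lit 1932026192) (nat_lit 401381099489969932484280419)) (C.cons (nat_lit 46) (C.miq (nat_lit 1932026192) (nat_lit 401381099489969863764803683)) (C.cons (nat_lit 30) (C.miq (nat_lit 2199347776) (nat_lit 244220742976659749296341077)) (C.cons (nat_lit 14) (C.node (nat_lit 1) (nat_lit 3) (nat_lit 4) (C.cons (nat_lit 58) (C.node (nat_lit 2) (nat_lit 3) (nat_lit 4) (C.cons (nat_lit 28) (C.node (nat_lit 3) (nat_lit 4) (nat_lit 6) (C.cons (nat_lit 88) (C.node (nat_lit 1) (nat_lit 2) (nat_lit 4) (C.cons (nat_lit 22) (C.node (nat_lit 1) (nat_lit 2) (nat_lit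 5) C.nil) C.nil)) C.nil)) C.nil)) (C.cons (nat_lit 26) (C.node (nat_lit 1) (nat_lit 3) (nat_lit 5) C.nil) C.nil))) C.nil))))) (C.cons (nat_lit 324) (C.node (nat_lit 3) (nat_lit 7) (nat_lit 9) (C.cons (nat_lit 680) (C.node (nat_lit 4) (nat_lit 6) (nat_lit 9) (C.cons (nat_lit 624) (C.miq (nat_lit 1462145796) (nat_lit 236960971604172902761824793)) (C.cons (nat_lit 592) (C.node (nat_lit 2) (nat_lit 7) (nat_lit 9) (C.cons (nat_lit 660) (C.node (nat_lit 2) (nat_lit 5) (nat_lit 9) (C.cons (nat_lit 612) (C.miq (nat_lit 1500602944) (nat_lit 776132202592520747841945685)) (C.cons (nat_lit 548) (C.node (nat_lit 5) (nat_lit 6) (nat_lit 9) (C.cons (nat_lit 608) (C.node (nat_lit 2) (nat_lit 5) (nat_lit 6) C.nil) C.nil)) C.nil))) (C.cons (nat_lit 644) (C.node (nat_lit 4) (nat_lit 7) (nat_lit 9) (C.cons (nat_lit 656) (C.node (nat_lit 3) (nat_lit 4) (nat_lit 7) (C.cons (nat_lit 408) (C.node (nat_lit 2) (nat_lit 7) (nat_lit 8) (C.cons (nat_lit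 390) (C.miq (nat_lit 1193883664) (nat_lit 778558133848232236109201675)) (C.cons (nat_lit 388) (C.node (nat_lit 4) (nat_lit 6) (nat_lit 7) (C.cons (nat_lit 240) (C.miq (nat_lit 1417701169) (nat_lit 330038575050012808715108554)) C.nil)) C.nil))) (C.cons (nat_lit 152) (C.node (nat_lit 3) (nat_lit 7) (nat_lit 8) (C.cons (nat_lit 392) (C.node (nat_lit 4) (nat_lit 6) (nat_lit 7) (C.cons (nat_lit 208) (C.node (nat_lit 5) (nat_lit 6) (nat_lit 7) C.nil) C.nil)) C.nil)) C.nil))) C.nil)) C.nil))) C.nil))) (C.cons (nat_lit 648) (C.node (nat_lit 4) (nat_lit 6) (nat_lit 7) (C.cons (nat_lit 240) (C.node (nat_lit 4) (nat_lit 6) (nat_lit 9) (C.cons (nat_lit 592) (C.node (nat_lit 3) (nat_lit 4) (nat_lit 6) C.nil) C.nil)) (C.cons (nat_lit 208) (C.node (nat_lit 5) (nat_lit 6) (nat_lit 7) (C.cons (nat_lit 224) (C.node (nat_lit 4) (nat_lit 6) (nat_lit 9) C.nil) C.nil)) C.nil))) C.nil))) C.nil))) C.nil))) C.nil)) C.nil))) C.nil))) C.nil))) C.nil)))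 C.nil))) (C.cons (nat_lit 198) (C.node (nat_lit 1) (nat_lit 2) (nat_lit 8) (C.cons (nat_lit 278) (C.node (nat_lit 1) (nat_lit 6) (nat_lit 8) (C.cons (nat_lit 322) (C.node (nat_lit 2) (nat_lit 7) (nat_lit 8) (C.cons (nat_lit 388) (C.node (nat_lit 1) (nat_lit 2) (nat_lit 3) (C.cons (nat_lit 46) (C.node (nat_lit 2) (nat_lit 3) (nat_lit 4) (C.cons (nat_lit 28) (C.node (nat_lit 1) (nat_lit 3) (nat_lit 7) (C.cons (nat_lit 650) (C.miq (nat_lit 824481632) (nat_lit 336091283937394077868557249))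
  (C.cons (nat_lit 138) (C.node (nat_lit 1) (nat_lit 8) (nat_lit 9) (C.cons (nat_lit 802) (C.miq (nat_lit 2436334880) (nat_lit 166849490653616789888237861)) (C.cons (nat_lit 770) (C.node (nat_lit 3) (nat_lit 6) (nat_lit 7) (C.cons (nat_lit 248) (C.miq (nat_lit 2536638033) (nat_lit 170468114696335486664704099)) (C.cons (nat_lit 232) (C.miq (nat_lit 2536638033) (nat_lit 170468114696335417945227363)) (C.cons (nat_lit 216) (C.miq (nat_lit 2473657442) (nat_lit 166841337118146071586275413)) (C.cons (nat_lit 200) (C.node (nat_lit 1) (nat_lit 3) (nat_lit 4) (C.cons (nat_lit 90) (C.node (nat_lit 1) (nat_lit 3) (nat_lit 9) (C.cons (nat_lit 522) (C.node (nat_lit 1) (nat_lit 6) (nat_lit 9) (C.cons (nat_lit 578) (C.node (nat_lit 2) (nat_lit 8) (nat_lit 9) (C.cons (nat_lit 780) (C.miq (nat_lit 2467725904) (nat_lit 108821051305922140011954469)) (C.cons (nat_lit 772) (C.node (nat_lit 2) (nat_lit 3) (nat_lit 9) (C.cons (nat_lit 588) (C.miq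 (nat_lit 840210032) (nat_lit 336091283919942629316559809)) (C.cons (nat_lit 524) (C.node (nat_lit 2) (nat_lit 5) (nat_lit 6) (C.cons (nat_lit 612) (C.miq (nat_lit 2300773969) (nat_lit 633482055029233449138258019)) (C.cons (nat_lit 100) (C.node (nat_lit 2) (nat_lit 6) (nat_lit 9) (C.cons (nat_lit 580) (C.node (nat_lit 2) (nat_lit 3) (nat_lit 6) (C.cons (nat_lit 332) (C.node (nat_lit 3) (nat_lit 5) (nat_lit 6) C.nil) C.nil)) C.nil)) C.nil))) C.nil))) C.nil))) C.nil)) C.nil)) (C.cons (nat_lit 26) (C.node (nat_lit 1) (nat_lit 4) (nat_lit 6) (C.cons (nat_lit 594) (C.miq (nat_lit 1092851312) (nat_lit 55620493771037510644597697)) (C.cons (nat_lit 82) (C.node (nat_lit 1) (nat_lit 3) (nat_lit 6) (C.cons (nat_lit 586) (C.node (nat_lit 2) (nat_lit 3) (nat_lit 6) (C.cons (nat_lit 332) (C.miq (nat_lit 2468897104) (nat_lit 401381099598056254821695587)) (C.cons (nat_lit 76) (C.node (nat_lit 2) (nat_lit 6) (nat_lit 8) (C.cons (nat_lit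 324) (C.node (nat_lit 2) (nat_lit 3) (nat_lit 8) (C.cons (nat_lit 780) (C.node (nat_lit 3) (nat_lit 5) (nat_lit 6) (C.cons (nat_lit 104) (C.miq (nat_lit 2203488784) (nat_lit 125746012780526948457841159)) C.nil)) (C.cons (nat_lit 268) (C.miq (nat_lit 2468897104) (nat_lit 324009847142719987640500323)) C.nil))) C.nil)) C.nil))) (C.cons (nat_lit 74) (C.node (nat_lit 1) (nat_lit 3) (nat_lit 9) C.nil) C.nil))) C.nil))) C.nil))) C.nil))))) C.nil))) C.nil))) C.nil)) (C.cons (nat_lit 14) (C.node (nat_lit 1) (nat_lit 2) (nat_lit 5) (C.cons (nat_lit 38) (C.node (nat_lit 1) (nat_lit 7) (nat_lit 8) (C.cons (nat_lit 418) (C.node (nat_lit 1) (nat_lit 8) (nat_lit 9) (C.cons (nat_lit 770) (C.node (nat_lit 1) (nat_lit 3) (nat_lit 7) (C.cons (nat_lit 650) (C.miq (nat_lit 824481632) (nat_lit 336091283937394077868557249)) (C.cons (nat_lit 138) (C.node (nat_lit 1) (nat_lit 7) (nat_lit 9) (C.cons (nat_lit 642) (C.node (nat_lit 1) (nat_lit 4)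 (nat_lit 6) (C.cons (nat_lit 594) (C.miq (nat_lit 1092851312) (nat_lit 16934867543369377054000065)) (C.cons (nat_lit 90) (C.node (nat_lit 1) (nat_lit 6) (nat_lit 9) C.nil) C.nil))) C.nil)) C.nil))) C.nil)) (C.cons (nat_lit 386) (C.node (nat_lit 1) (nat_lit 5) (nat_lit 8) (C.cons (nat_lit 802) (C.node (nat_lit 4) (nat_lit 8) (nat_lit 9) (C.cons (nat_lit 784) (C.node (nat_lit 1) (nat_lit 4) (nat_lit 9) (C.cons (nat_lit 594) (C.miq (nat_lit 1363315040) (nat_lit 336086782974625990005031873)) (C.cons (nat_lit 530) (C.node (nat_lit 1) (nat_lit 7) (nat_lit 9) (C.cons (nat_lit 650) (C.miq (nat_lit 824481632) (nat_lit 336091283937394077868557249)) (C.cons (nat_lit 642) (C.node (nat_lit 1) (nat_lit 3) (nat_lit 7) (C.cons (nat_lit 170) (C.node (nat_lit 1) (nat_lit 4) (nat_lit 5) C.nil) C.nil)) C.nil))) C.nil))) C.nil)) (C.cons (nat_lit 290) (C.node (nat_lit 1) (nat_lit 8) (nat_lit 9) (C.cons (nat_lit 770) (C.node (nat_lit 2) (nat_lit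 3) (nat_lit 4) (C.cons (nat_lit 60) (C.node (nat_lit 4) (nat_lit 8) (nat_lit 9) (C.cons (nat_lit 816) (C.miq (nat_lit 2034436178) (nat_lit 649195766394471217180180773)) (C.cons (nat_lit 784) (C.node (nat_lit 5) (nat_lit 8) (nat_lit 9) (C.cons (nat_lit 808)
  (C.miq (nat_lit 1765017682) (nat_lit 649194733376803055085551909)) (C.cons (nat_lit 800) (C.node (nat_lit 4) (nat_lit 6) (nat_lit 9) (C.cons (nat_lit 624) (C.miq (nat_lit 1383482121) (nat_lit 239378823068887675608039961)) (C.cons (nat_lit 594) (C.miq (nat_lit 1092851312) (nat_lit 16934867543369377054000065)) (C.cons (nat_lit 592) (C.node (nat_lit 3) (nat_lit 7) (nat_lit 9) (C.cons (nat_lit 682) (C.miq (nat_lit 824481632) (nat_lit 336091283946401277123298241)) (C.cons (nat_lit 680) (C.miq (nat_lit 1416180231) (nat_lit 715696629014719457658994829)) (C.cons (nat_lit 650) (C.miq (nat_lit 824481632) (nat_lit 336091283937394077868557249)) (C.cons (nat_lit 648) (C.node (nat_lit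 1) (nat_lit 3) (nat_lit 4) (C.cons (nat_lit 90) (C.node (nat_lit 1) (nat_lit 6) (nat_lit 9) C.nil) (C.cons (nat_lit 26) (C.node (nat_lit 1) (nat_lit 4) (nat_lit 6) (C.cons (nat_lit 82) (C.node (nat_lit 1) (nat_lit 3) (nat_lit 6) C.nil) C.nil)) C.nil))) C.nil))))) C.nil)))) C.nil))) C.nil))) (C.cons (nat_lit 28) (C.node (nat_lit 2) (nat_lit 6) (nat_lit 8) (C.cons (nat_lit 332) (C.node (nat_lit 2) (nat_lit 8) (nat_lit 9) (C.cons (nat_lit 772) (C.node (nat_lit 3) (nat_lit 8) (nat_lit 9) (C.cons (nat_lit 776) (C.node (nat_lit 4) (nat_lit 6) (nat_lit 8) C.nil) C.nil)) C.nil)) (C.cons (nat_lit 324) (C.node (nat_lit 2) (nat_lit 3) (nat_lit 8) (C.cons (nat_lit 780) (C.node (nat_lit 4) (nat_lit 8) (nat_lit 9) (C.cons (nat_lit 784) (C.node (nat_lit 5) (nat_lit 8) (nat_lit 9) C.nil) C.nil)) (C.cons (nat_lit 268) (C.node (nat_lit 2) (nat_lit 8) (nat_lit 9) (C.cons (nat_lit 772) (C.node (nat_lit 3) (nat_lit 8) (nat_lit 9) C.nil) C.nil))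 C.nil))) C.nil))) C.nil))) C.nil)) C.nil))) C.nil))) C.nil)) C.nil))) C.nil)) C.nil)) (C.cons (nat_lit 262) (C.node (nat_lit 1) (nat_lit 6) (nat_lit 8) (C.cons (nat_lit 338) (C.node (nat_lit 2) (nat_lit 6) (nat_lit 8) (C.cons (nat_lit 332) (C.miq (nat_lit 1904411746) (nat_lit 322785794869398655990497365)) (C.cons (nat_lit 324) (C.node (nat_lit 1) (nat_lit 3) (nat_lit 6) (C.cons (nat_lit 586) (C.node (nat_lit 1) (nat_lit 3) (nat_lit 7) (C.cons (nat_lit 170) (C.node (nat_lit 1) (nat_lit 7) (nat_lit 8) (C.cons (nat_lit 386) (C.node (nat_lit 1) (nat_lit 7) (nat_lit 9) (C.cons (nat_lit 642) (C.node (nat_lit 3) (nat_lit 7) (nat_lit 9) (C.cons (nat_lit 648) (C.node (nat_lit 1) (nat_lit 2) (nat_lit 3) (C.cons (nat_lit 30) (C.miq (nat_lit 2167890976) (nat_lit 205535116750680465565614165)) (C.cons (nat_lit 14) (C.node (nat_lit 1) (nat_lit 3) (nat_lit 4) (C.cons (nat_lit 26) (C.node (nat_lit 2) (nat_lit 3) (nat_lit 6) (C.cons (nat_lit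 108) (C.miq (nat_lit 1110902353) (nat_lit 170461252260967385825673315)) (C.cons (nat_lit 76) (C.node (nat_lit 3) (nat_lit 6) (nat_lit 7) (C.cons (nat_lit 216) (C.miq (nat_lit 924403232) (nat_lit 776140282154958957597622357)) (C.cons (nat_lit 200) (C.node (nat_lit 3) (nat_lit 6) (nat_lit 8) (C.cons (nat_lit 360) (C.miq (nat_lit 557123944) (nat_lit 205522794376588586385933249)) (C.cons (nat_lit 328) (C.node (nat_lit 5) (nat_lit 6) (nat_lit 8) (C.cons (nat_lit 352) (C.node (nat_lit 2) (nat_lit 5) (nat_lit 6) (C.cons (nat_lit 612) (C.miq (nat_lit 1446521104) (nat_lit 396533073901877168817504775)) C.nil)) C.nil)) C.nil))) C.nil))) C.nil))) C.nil)) C.nil))) C.nil)) C.nil)) C.nil)) (C.cons (nat_lit 138) (C.node (nat_lit 1) (nat_lit 4) (nat_lit 9) (C.cons (nat_lit 562) (C.node (nat_lit 1) (nat_lit 7) (nat_lit 9) (C.cons (nat_lit 642) (C.node (nat_lit 1) (nat_lit 8) (nat_lit 9) (C.cons (nat_lit 770) (C.node (nat_lit 4) (nat_lit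 6) (nat_lit 9) (C.cons (nat_lit 592) (C.node (nat_lit 1) (nat_lit 2) (nat_lit 4) (C.cons (nat_lit 30) (C.miq (nat_lit 2167890976) (nat_lit 166849490523012331975016533)) (C.cons (nat_lit 22) (C.node (nat_lit 1) (nat_lit 3) (nat_lit 4) (C.cons (nat_lit 26) (C.node (nat_lit 1) (nat_lit 2) (nat_lit 3) (C.cons (nat_lit 46) (C.node (nat_lit 2) (nat_lit 3) (nat_lit 6) (C.cons (nat_lit 76) (C.node (nat_lit 1) (nat_lit 5) (nat_lit 7) (C.cons (nat_lit 418) (C.node (nat_lit 2) (nat_lit 3) (nat_lit 4)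
  (C.cons (nat_lit 284) (C.miq (nat_lit 2468897104) (nat_lit 343352660256554054435799139)) (C.cons (nat_lit 28) (C.node (nat_lit 2) (nat_lit 3) (nat_lit 8) (C.cons (nat_lit 780) (C.node (nat_lit 4) (nat_lit 8) (nat_lit 9) (C.cons (nat_lit 784) (C.node (nat_lit 5) (nat_lit 8) (nat_lit 9) (C.cons (nat_lit 800) (C.node (nat_lit 2) (nat_lit 4) (nat_lit 8) (C.cons (nat_lit 404) (C.miq (nat_lit 1652884593) (nat_lit 354217091398676753649107091)) C.nil)) C.nil)) C.nil)) (C.cons (nat_lit 268) (C.miq (nat_lit 2468897104) (nat_lit 324009847142719987640500323)) C.nil))) C.nil))) C.nil)) C.nil)) C.nil)) C.nil)) C.nil))) C.nil)) C.nil)) C.nil)) (C.cons (nat_lit 530) (C.node (nat_lit 1) (nat_lit 7) (nat_lit 8) (C.cons (nat_lit 418) (C.node (nat_lit 1) (nat_lit 5) (nat_lit 9) (C.cons (nat_lit 546) (C.node (nat_lit 1) (nat_lit 7) (nat_lit 9) (C.cons (nat_lit 642) (C.node (nat_lit 1) (nat_lit 8) (nat_lit 9) (C.cons (nat_lit 770) (C.node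 (nat_lit 1) (nat_lit 2) (nat_lit 4) (C.cons (nat_lit 62) (C.miq (nat_lit 2167890976) (nat_lit 166849490523012469413970005)) (C.cons (nat_lit 54) (C.miq (nat_lit 1750206228) (nat_lit 354216833390831861419606163)) (C.cons (nat_lit 30) (C.miq (nat_lit 2167890976) (nat_lit 166849490523012331975016533)) C.nil)))) C.nil)) C.nil)) C.nil)) (C.cons (nat_lit 386) (C.node (nat_lit 1) (nat_lit 5) (nat_lit 7) (C.cons (nat_lit 674) (C.node (nat_lit 1) (nat_lit 5) (nat_lit 8) (C.cons (nat_lit 290) (C.node (nat_lit 1) (nat_lit 8) (nat_lit 9) (C.cons (nat_lit 770) (C.node (nat_lit 1) (nat_lit 2) (nat_lit 4) (C.cons (nat_lit 62) (C.miq (nat_lit 2167890976) (nat_lit 166849490523012469413970005)) (C.cons (nat_lit 54) (C.miq (nat_lit 2420471329) (nat_lit 59249798537120327493091526)) (C.cons (nat_lit 30) (C.miq (nat_lit 2167890976) (nat_lit 166849490523012331975016533)) C.nil)))) C.nil)) C.nil)) (C.cons (nat_lit 162) (C.node (nat_lit 1) (nat_lit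 7) (nat_lit 9) (C.cons (nat_lit 642) (C.node (nat_lit 1) (nat_lit 5) (nat_lit 8) (C.cons (nat_lit 802) (C.node (nat_lit 1) (nat_lit 2) (nat_lit 3) (C.cons (nat_lit 62) (C.miq (nat_lit 2167890976) (nat_lit 166849490523012469413970005)) (C.cons (nat_lit 46) (C.miq (nat_lit 2436334880) (nat_lit 166849490653616789888237861)) (C.cons (nat_lit 30) (C.miq (nat_lit 2167890976) (nat_lit 166849490523012331975016533)) C.nil)))) C.nil)) C.nil)) C.nil))) C.nil))) C.nil))) C.nil))) (C.cons (nat_lit 74) (C.node (nat_lit 1) (nat_lit 6) (nat_lit 9) (C.cons (nat_lit 578) (C.node (nat_lit 1) (nat_lit 4) (nat_lit 9) (C.cons (nat_lit 562) (C.node (nat_lit 1) (nat_lit 8) (nat_lit 9) (C.cons (nat_lit 770) (C.node (nat_lit 4) (nat_lit 6) (nat_lit 9) (C.cons (nat_lit 592) (C.node (nat_lit 1) (nat_lit 2) (nat_lit 4) (C.cons (nat_lit 30) (C.miq (nat_lit 2014512706) (nat_lit 322785795098519287013179477)) (C.cons (nat_lit 22) (C.node (nat_lit 1) (nat_lit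 3) (nat_lit 4) (C.cons (nat_lit 26) (C.node (nat_lit 1) (nat_lit 3) (nat_lit 9) (C.cons (nat_lit 650) (C.miq (nat_lit 824481632) (nat_lit 26606274116049009143776193)) C.nil)) C.nil)) C.nil))) C.nil)) C.nil)) (C.cons (nat_lit 530) (C.node (nat_lit 1) (nat_lit 7) (nat_lit 8) (C.cons (nat_lit 418) (C.node (nat_lit 1) (nat_lit 8) (nat_lit 9) (C.cons (nat_lit 770) (C.node (nat_lit 1) (nat_lit 3) (nat_lit 7) (C.cons (nat_lit 650) (C.miq (nat_lit 2439264032) (nat_lit 408626833114271828350926989)) (C.cons (nat_lit 138) (C.node (nat_lit 1) (nat_lit 7) (nat_lit 9) C.nil) C.nil))) C.nil)) (C.cons (nat_lit 386) (C.node (nat_lit 1) (nat_lit 5) (nat_lit 8) (C.cons (nat_lit 802) (C.node (nat_lit 1) (nat_lit 3) (nat_lit 9) (C.cons (nat_lit 650) (C.miq (nat_lit 2439264032) (nat_lit 408626833114271828350926989)) (C.cons (nat_lit 522) (C.node (nat_lit 1) (nat_lit 7) (nat_lit 9) C.nil) C.nil))) (C.cons (nat_lit 290) (C.node (nat_lit 1) (nat_lit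 8) (nat_lit 9) (C.cons (nat_lit 770) (C.node (nat_lit 1) (nat_lit 2) (nat_lit 3) (C.cons (nat_lit 14) (C.node (nat_lit 1) (nat_lit 2) (nat_lit 4) C.nil) C.nil)) C.nil)) C.nil))) C.nil))) C.nil))) C.nil)) C.nil))) C.nil))) (C.cons (nat_lit 322)
  (C.node (nat_lit 1) (nat_lit 7) (nat_lit 8) (C.cons (nat_lit 418) (C.node (nat_lit 2) (nat_lit 7) (nat_lit 8) (C.cons (nat_lit 404) (C.miq (nat_lit 1652884593) (nat_lit 354217091398676753649107091)) (C.cons (nat_lit 388) (C.node (nat_lit 1) (nat_lit 3) (nat_lit 7) (C.cons (nat_lit 650) (C.node (nat_lit 1) (nat_lit 3) (nat_lit 6) (C.cons (nat_lit 90) (C.miq (nat_lit 607215767) (nat_lit 108806976244570899675218881)) (C.cons (nat_lit 74) (C.node (nat_lit 1) (nat_lit 4) (nat_lit 6) (C.cons (nat_lit 594) (C.node (nat_lit 1) (nat_lit 4) (nat_lit 8) (C.cons (nat_lit 274) (C.node (nat_lit 1) (nat_lit 5) (nat_lit 9) (C.cons (nat_lit 546) (C.node (nat_lit 1) (nat_lit 8) (nat_lit 9) (C.cons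 (nat_lit 770) (C.node (nat_lit 1) (nat_lit 2) (nat_lit 5) (C.cons (nat_lit 62) (C.miq (nat_lit 2438489120) (nat_lit 505348720087166232379588693)) (C.cons (nat_lit 54) (C.miq (nat_lit 824481632) (nat_lit 65291900343717142734373825)) (C.cons (nat_lit 46) (C.miq (nat_lit 1125255542) (nat_lit 55612155826674061583713217)) C.nil)))) C.nil)) C.nil)) C.nil)) (C.cons (nat_lit 82) (C.miq (nat_lit 2439264032) (nat_lit 99141823292926759626145933)) C.nil))) C.nil))) (C.cons (nat_lit 138) (C.node (nat_lit 1) (nat_lit 7) (nat_lit 9) (C.cons (nat_lit 642) (C.node (nat_lit 1) (nat_lit 2) (nat_lit 4) (C.cons (nat_lit 62) (C.miq (nat_lit 2534606372) (nat_lit 166841669278884711165198421)) (C.cons (nat_lit 54) (C.miq (nat_lit 1750206228) (nat_lit 354216833390831861419606163)) (C.cons (nat_lit 30) (C.miq (nat_lit 2534606372) (nat_lit 166841669278884711163101269)) (C.cons (nat_lit 22) (C.node (nat_lit 1) (nat_lit 2) (nat_lit 3) (C.cons (nat_lit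 46) (C.node (nat_lit 3) (nat_lit 6) (nat_lit 7) (C.cons (nat_lit 248) (C.miq (nat_lit 2536638033) (nat_lit 170468114696335486664704099)) (C.cons (nat_lit 232) (C.miq (nat_lit 2536638033) (nat_lit 170468114696335417945227363)) (C.cons (nat_lit 216) (C.miq (nat_lit 924403232) (nat_lit 776140282154958957597622357)) (C.cons (nat_lit 200) (C.node (nat_lit 1) (nat_lit 3) (nat_lit 4) (C.cons (nat_lit 90) (C.node (nat_lit 1) (nat_lit 3) (nat_lit 9) (C.cons (nat_lit 522) (C.node (nat_lit 1) (nat_lit 6) (nat_lit 9) C.nil) C.nil)) (C.cons (nat_lit 26) (C.node (nat_lit 1) (nat_lit 4) (nat_lit 6) (C.cons (nat_lit 594) (C.miq (nat_lit 1092851312) (nat_lit 55620493771037510644597697)) C.nil)) C.nil))) C.nil))))) (C.cons (nat_lit 14) (C.node (nat_lit 1) (nat_lit 2) (nat_lit 5) (C.cons (nat_lit 38) (C.node (nat_lit 1) (nat_lit 4) (nat_lit 8) (C.cons (nat_lit 274) (C.node (nat_lit 1) (nat_lit 8) (nat_lit 9) C.nil) C.nil)) C.nil)) C.nil)))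 C.nil))))) C.nil)) C.nil))) C.nil))) (C.cons (nat_lit 386) (C.node (nat_lit 2) (nat_lit 6) (nat_lit 8) (C.cons (nat_lit 332) (C.node (nat_lit 2) (nat_lit 3) (nat_lit 9) (C.cons (nat_lit 556) (C.node (nat_lit 2) (nat_lit 5) (nat_lit 6) (C.cons (nat_lit 100) (C.node (nat_lit 2) (nat_lit 6) (nat_lit 9) (C.cons (nat_lit 580) (C.node (nat_lit 3) (nat_lit 8) (nat_lit 9) (C.cons (nat_lit 776) (C.node (nat_lit 1) (nat_lit 2) (nat_lit 3) (C.cons (nat_lit 30) (C.miq (nat_lit 2016478756) (nat_lit 322785905778983703500685397)) (C.cons (nat_lit 14) (C.node (nat_lit 2) (nat_lit 3) (nat_lit 4) (C.cons (nat_lit 28) (C.node (nat_lit 3) (nat_lit 7) (nat_lit 9) (C.cons (nat_lit 650) (C.miq (nat_lit 1125255542) (nat_lit 16926529599005927993115585)) (C.cons (nat_lit 648) (C.node (nat_lit 1) (nat_lit 2) (nat_lit 4) (C.cons (nat_lit 54) (C.node (nat_lit 2) (nat_lit 5) (nat_lit 7) (C.cons (nat_lit 164) (C.node (nat_lit 2) (nat_lit 7) (nat_lit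 8) (C.cons (nat_lit 404) (C.miq (nat_lit 2186703888) (nat_lit 120910309396233874875547795)) C.nil)) C.nil)) (C.cons (nat_lit 22) (C.node (nat_lit 1) (nat_lit 2) (nat_lit 5) C.nil) C.nil))) C.nil))) C.nil)) C.nil))) C.nil)) C.nil)) C.nil)) (C.cons (nat_lit 524) (C.node (nat_lit 2) (nat_lit 5) (nat_lit 6) (C.cons (nat_lit 612) (C.node (nat_lit 2) (nat_lit 7) (nat_lit 9) (C.cons (nat_lit 660) (C.miq (nat_lit 1230008929) (nat_lit 658867283547127848674459846)) (C.cons (nat_lit 644)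
  (C.node (nat_lit 3) (nat_lit 6) (nat_lit 9) (C.cons (nat_lit 586) (C.miq (nat_lit 2190673249) (nat_lit 633482054841208164730929251)) (C.cons (nat_lit 584) (C.node (nat_lit 1) (nat_lit 6) (nat_lit 9) (C.cons (nat_lit 594) (C.miq (nat_lit 647196992) (nat_lit 706015279701592427709661331)) (C.cons (nat_lit 578) (C.node (nat_lit 4) (nat_lit 6) (nat_lit 9) (C.cons (nat_lit 592) (C.node (nat_lit 1) (nat_lit 2) (nat_lit 3) (C.cons (nat_lit 62) (C.miq (nat_lit 1200754789) (nat_lit 778549371571334707583123555)) (C.cons (nat_lit 46) (C.miq (nat_lit 2453169424) (nat_lit 401381099605374604214468707)) (C.cons (nat_lit 30) (C.miq (nat_lit 2016478756) (nat_lit 322785905778983703500685397)) (C.cons (nat_lit 14) (C.node (nat_lit 1) (nat_lit 2) (nat_lit 4) (C.cons (nat_lit 54) (C.miq (nat_lit 1200754789) (nat_lit 778549223997382117906710627)) (C.cons (nat_lit 22) (C.node (nat_lit 1) (nat_lit 2) (nat_lit 5) (C.cons (nat_lit 38) (C.node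 (nat_lit 2) (nat_lit 3) (nat_lit 4) (C.cons (nat_lit 60) (C.node (nat_lit 2) (nat_lit 5) (nat_lit 7) C.nil) C.nil)) C.nil)) C.nil))) C.nil))))) C.nil)) C.nil))) C.nil))) C.nil))) (C.cons (nat_lit 100) (C.node (nat_lit 2) (nat_lit 6) (nat_lit 9) (C.cons (nat_lit 580) (C.node (nat_lit 2) (nat_lit 7) (nat_lit 8) (C.cons (nat_lit 404) (C.node (nat_lit 2) (nat_lit 8) (nat_lit 9) (C.cons (nat_lit 772) (C.node (nat_lit 1) (nat_lit 2) (nat_lit 4) (C.cons (nat_lit 62) (C.miq (nat_lit 2016478756) (nat_lit 322785905778983703502782549)) (C.cons (nat_lit 54) (C.miq (nat_lit 2186703888) (nat_lit 120910309396233874875547795)) (C.cons (nat_lit 30) (C.miq (nat_lit 2016478756) (nat_lit 322785905778983703500685397)) (C.cons (nat_lit 22) (C.node (nat_lit 1) (nat_lit 2) (nat_lit 3) (C.cons (nat_lit 46) (C.node (nat_lit 2) (nat_lit 3) (nat_lit 4) C.nil) C.nil)) C.nil))))) C.nil)) (C.cons (nat_lit 388) (C.node (nat_lit 2) (nat_lit 4) (nat_lit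 8) (C.cons (nat_lit 788) (C.node (nat_lit 1) (nat_lit 4) (nat_lit 8) (C.cons (nat_lit 306) (C.node (nat_lit 1) (nat_lit 8) (nat_lit 9) (C.cons (nat_lit 770) (C.node (nat_lit 4) (nat_lit 6) (nat_lit 8) C.nil) C.nil)) (C.cons (nat_lit 274) (C.node (nat_lit 1) (nat_lit 5) (nat_lit 8) (C.cons (nat_lit 802) (C.node (nat_lit 3) (nat_lit 8) (nat_lit 9) C.nil) (C.cons (nat_lit 290) (C.node (nat_lit 1) (nat_lit 8) (nat_lit 9) (C.cons (nat_lit 770) (C.node (nat_lit 3) (nat_lit 8) (nat_lit 9) C.nil) C.nil)) C.nil))) C.nil))) (C.cons (nat_lit 276) (C.node (nat_lit 2) (nat_lit 8) (nat_lit 9) (C.cons (nat_lit 772) (C.node (nat_lit 1) (nat_lit 2) (nat_lit 3) (C.cons (nat_lit 14) (C.node (nat_lit 1) (nat_lit 2) (nat_lit 4) C.nil) C.nil)) C.nil)) C.nil))) C.nil))) C.nil)) C.nil))) C.nil))) (C.cons (nat_lit 324) (C.node (nat_lit 2) (nat_lit 7) (nat_lit 8) (C.cons (nat_lit 404) (C.node (nat_lit 2) (nat_lit 3) (nat_lit 8) (C.cons (nat_lit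 780) (C.node (nat_lit 1) (nat_lit 2) (nat_lit 4) (C.cons (nat_lit 62) (C.miq (nat_lit 1747257153) (nat_lit 354217091645248833224310931)) (C.cons (nat_lit 54) (C.miq (nat_lit 1747257153) (nat_lit 354217091645248833223786643)) (C.cons (nat_lit 30) (C.miq (nat_lit 1647931712) (nat_lit 942979866676197765422842003)) (C.cons (nat_lit 22) (C.node (nat_lit 1) (nat_lit 2) (nat_lit 3) (C.cons (nat_lit 46) (C.node (nat_lit 2) (nat_lit 3) (nat_lit 4) (C.cons (nat_lit 28) (C.node (nat_lit 2) (nat_lit 3) (nat_lit 6) (C.cons (nat_lit 76) (C.node (nat_lit 1) (nat_lit 3) (nat_lit 4) (C.cons (nat_lit 90) (C.miq (nat_lit 2467725904) (nat_lit 108821051305922140011954469)) (C.cons (nat_lit 26) (C.node (nat_lit 1) (nat_lit 3) (nat_lit 6) (C.cons (nat_lit 586) (C.node (nat_lit 1) (nat_lit 3) (nat_lit 7) (C.cons (nat_lit 138) (C.node (nat_lit 1) (nat_lit 4) (nat_lit 6) C.nil) C.nil)) (C.cons (nat_lit 74) (C.miq (nat_lit 2467725904) (nat_lit 89478238192088073216655653))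 C.nil))) C.nil))) C.nil)) C.nil)) (C.cons (nat_lit 14) (C.node (nat_lit 1) (nat_lit 2) (nat_lit 5) (C.cons (nat_lit 38) (C.node (nat_lit 2) (nat_lit 6) (nat_lit 9) (C.cons (nat_lit 612)
  (C.miq (nat_lit 844204384) (nat_lit 45944106645576699449902017)) (C.cons (nat_lit 580) (C.node (nat_lit 2) (nat_lit 3) (nat_lit 4) (C.cons (nat_lit 60) (C.node (nat_lit 2) (nat_lit 3) (nat_lit 6) C.nil) C.nil)) C.nil))) C.nil)) C.nil))) C.nil))))) (C.cons (nat_lit 268) (C.node (nat_lit 2) (nat_lit 8) (nat_lit 9) (C.cons (nat_lit 772) (C.node (nat_lit 2) (nat_lit 4) (nat_lit 9) (C.cons (nat_lit 564) (C.node (nat_lit 2) (nat_lit 5) (nat_lit 7) (C.cons (nat_lit 164) (C.node (nat_lit 2) (nat_lit 7) (nat_lit 9) (C.cons (nat_lit 644) (C.node (nat_lit 4) (nat_lit 7) (nat_lit 9) (C.cons (nat_lit 656) (C.node (nat_lit 1) (nat_lit 2) (nat_lit 4) (C.cons (nat_lit 30) (C.node (nat_lit 1) (nat_lit 2) (nat_lit 5) C.nil) C.nil)) C.nil)) C.nil)) C.nil))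 (C.cons (nat_lit 532) (C.node (nat_lit 2) (nat_lit 5) (nat_lit 7) (C.cons (nat_lit 676) (C.node (nat_lit 4) (nat_lit 7) (nat_lit 9) (C.cons (nat_lit 656) (C.node (nat_lit 1) (nat_lit 5) (nat_lit 7) (C.cons (nat_lit 170) (C.node (nat_lit 1) (nat_lit 7) (nat_lit 9) (C.cons (nat_lit 642) (C.node (nat_lit 3) (nat_lit 7) (nat_lit 8) (C.cons (nat_lit 392) (C.node (nat_lit 3) (nat_lit 7) (nat_lit 9) (C.cons (nat_lit 648) (C.node (nat_lit 5) (nat_lit 7) (nat_lit 8) C.nil) C.nil)) C.nil)) C.nil)) (C.cons (nat_lit 162) (C.node (nat_lit 1) (nat_lit 3) (nat_lit 7) (C.cons (nat_lit 650) (C.node (nat_lit 1) (nat_lit 3) (nat_lit 6) (C.cons (nat_lit 90) (C.miq (nat_lit 607215767) (nat_lit 108806976244570899675218881)) (C.cons (nat_lit 74) (C.node (nat_lit 1) (nat_lit 4) (nat_lit 6) (C.cons (nat_lit 594) (C.node (nat_lit 1) (nat_lit 5) (nat_lit 9) (C.cons (nat_lit 802) (C.miq (nat_lit 1233281360) (nat_lit 933292300882939568934158435))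 (C.cons (nat_lit 546) (C.miq (nat_lit 2174026610) (nat_lit 660078902480757736842985613)) C.nil))) (C.cons (nat_lit 82) (C.miq (nat_lit 2439264032) (nat_lit 99141823292926759626145933)) C.nil))) C.nil))) (C.cons (nat_lit 138) (C.node (nat_lit 1) (nat_lit 7) (nat_lit 9) (C.cons (nat_lit 642) (C.node (nat_lit 3) (nat_lit 7) (nat_lit 9) C.nil) C.nil)) C.nil))) C.nil))) C.nil)) (C.cons (nat_lit 164) (C.node (nat_lit 2) (nat_lit 7) (nat_lit 9) (C.cons (nat_lit 644) (C.node (nat_lit 1) (nat_lit 2) (nat_lit 3) (C.cons (nat_lit 14) (C.node (nat_lit 1) (nat_lit 2) (nat_lit 4) C.nil) C.nil)) C.nil)) C.nil))) C.nil))) C.nil)) C.nil))) (C.cons (nat_lit 388) (C.ref (nat_lit 75) (nat_lit 654820258320)) C.nil))) C.nil))) C.nil))) C.nil))) C.nil))) (C.cons (nat_lit 194) (C.node (nat_lit 2) (nat_lit 6) (nat_lit 7) (C.cons (nat_lit 228) (C.node (nat_lit 1) (nat_lit 2) (nat_lit 7) (C.cons (nat_lit 390) (C.node (nat_lit 1) (nat_lit 2) (nat_lit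 6) (C.cons (nat_lit 78) (C.node (nat_lit 2) (nat_lit 6) (nat_lit 8) (C.cons (nat_lit 324) (C.node (nat_lit 2) (nat_lit 6) (nat_lit 9) (C.cons (nat_lit 580) (C.node (nat_lit 2) (nat_lit 4) (nat_lit 7) (C.cons (nat_lit 660) (C.miq (nat_lit 1108580224) (nat_lit 94306120017283817340076993)) (C.cons (nat_lit 148) (C.node (nat_lit 2) (nat_lit 7) (nat_lit 9) (C.cons (nat_lit 644) (C.node (nat_lit 1) (nat_lit 2) (nat_lit 4) (C.cons (nat_lit 54) (C.node (nat_lit 1) (nat_lit 3) (nat_lit 4) (C.cons (nat_lit 26) (C.node (nat_lit 4) (nat_lit 7) (nat_lit 8) (C.cons (nat_lit 440) (C.miq (nat_lit 2555512641) (nat_lit 354224839277759945854288019)) (C.cons (nat_lit 432) (C.miq (nat_lit 2555512641) (nat_lit 354224839277759911494549651)) (C.cons (nat_lit 408) (C.miq (nat_lit 1193883664) (nat_lit 778558133848232236109201675)) (C.cons (nat_lit 400) (C.node (nat_lit 1) (nat_lit 5) (nat_lit 8) (C.cons (nat_lit 802) (C.node (nat_lit 1) (nat_lit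 3) (nat_lit 9) (C.cons (nat_lit 650) (C.miq (nat_lit 1362266480) (nat_lit 94301619051700395585635265)) (C.cons (nat_lit 522) (C.node (nat_lit 1) (nat_lit 7) (nat_lit 9) (C.cons (nat_lit 642) (C.node (nat_lit 1) (nat_lit 4) (nat_lit 8) (C.cons (nat_lit 338) (C.miq (nat_lit 1416106505) (nat_lit 408631721333691789988659719)) (C.cons (nat_lit 274) (C.node (nat_lit 1) (nat_lit 6) (nat_lit 8) (C.cons (nat_lit 322)
  (C.node (nat_lit 1) (nat_lit 3) (nat_lit 5) (C.cons (nat_lit 170) (C.node (nat_lit 3) (nat_lit 7) (nat_lit 8) C.nil) C.nil)) C.nil)) C.nil))) C.nil)) C.nil))) (C.cons (nat_lit 290) (C.node (nat_lit 1) (nat_lit 6) (nat_lit 9) (C.cons (nat_lit 594) (C.miq (nat_lit 2438489120) (nat_lit 350606215176493663657459797)) (C.cons (nat_lit 578) (C.node (nat_lit 1) (nat_lit 4) (nat_lit 9) (C.cons (nat_lit 786) (C.miq (nat_lit 1092851824) (nat_lit 94306120052749664397362113)) (C.cons (nat_lit 530) (C.node (nat_lit 1) (nat_lit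 8) (nat_lit 9) (C.cons (nat_lit 770) (C.node (nat_lit 1) (nat_lit 4) (nat_lit 6) (C.cons (nat_lit 338) (C.node (nat_lit 2) (nat_lit 4) (nat_lit 9) (C.cons (nat_lit 788) (C.miq (nat_lit 1451495570) (nat_lit 408617923181794791576044039)) (C.cons (nat_lit 532) (C.node (nat_lit 2) (nat_lit 8) (nat_lit 9) (C.cons (nat_lit 780) (C.miq (nat_lit 840210544) (nat_lit 65291900380309714344543169)) (C.cons (nat_lit 772) (C.node (nat_lit 2) (nat_lit 3) (nat_lit 4) (C.cons (nat_lit 284) (C.node (nat_lit 4) (nat_lit 5) (nat_lit 8) C.nil) C.nil)) C.nil))) C.nil))) C.nil)) C.nil)) C.nil))) C.nil))) C.nil))) C.nil))))) C.nil)) (C.cons (nat_lit 22) (C.node (nat_lit 1) (nat_lit 2) (nat_lit 5) (C.cons (nat_lit 38) (C.node (nat_lit 2) (nat_lit 3) (nat_lit 8) (C.cons (nat_lit 780) (C.miq (nat_lit 840210544) (nat_lit 26606274152641580753945537)) (C.cons (nat_lit 284) (C.node (nat_lit 2) (nat_lit 8) (nat_lit 9) C.nil) C.nil))) C.nil)) C.nil)))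 C.nil)) C.nil))) C.nil)) C.nil)) (C.cons (nat_lit 70) (C.node (nat_lit 1) (nat_lit 6) (nat_lit 8) (C.cons (nat_lit 338) (C.node (nat_lit 2) (nat_lit 6) (nat_lit 8) (C.cons (nat_lit 332) (C.miq (nat_lit 1904411746) (nat_lit 322785794869398655990497365)) (C.cons (nat_lit 324) (C.node (nat_lit 1) (nat_lit 2) (nat_lit 3) (C.cons (nat_lit 62) (C.miq (nat_lit 2267219537) (nat_lit 170463466116828825959399523)) (C.cons (nat_lit 46) (C.miq (nat_lit 2267219537) (nat_lit 170463466116828825958350947)) (C.cons (nat_lit 30) (C.miq (nat_lit 2014512706) (nat_lit 322785795098519287013179477)) (C.cons (nat_lit 14) (C.node (nat_lit 2) (nat_lit 4) (nat_lit 7) (C.cons (nat_lit 660) (C.miq (nat_lit 1108580224) (nat_lit 16934867561947550158881729)) (C.cons (nat_lit 148) (C.node (nat_lit 2) (nat_lit 7) (nat_lit 9) (C.cons (nat_lit 644) (C.node (nat_lit 1) (nat_lit 2) (nat_lit 4) (C.cons (nat_lit 54) (C.node (nat_lit 1) (nat_lit 3) (nat_lit 4)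 (C.cons (nat_lit 26) (C.node (nat_lit 1) (nat_lit 4) (nat_lit 9) (C.cons (nat_lit 530) (C.node (nat_lit 1) (nat_lit 5) (nat_lit 8) (C.cons (nat_lit 802) (C.miq (nat_lit 1416106505) (nat_lit 408631721333691789988659719)) (C.cons (nat_lit 290) (C.node (nat_lit 1) (nat_lit 8) (nat_lit 9) C.nil) C.nil))) C.nil)) C.nil)) (C.cons (nat_lit 22) (C.node (nat_lit 1) (nat_lit 2) (nat_lit 5) (C.cons (nat_lit 38) (C.node (nat_lit 2) (nat_lit 3) (nat_lit 6) (C.cons (nat_lit 76) (C.node (nat_lit 2) (nat_lit 6) (nat_lit 9) C.nil) C.nil)) C.nil)) C.nil))) C.nil)) C.nil))) C.nil))))) C.nil))) (C.cons (nat_lit 322) (C.node (nat_lit 2) (nat_lit 4) (nat_lit 7) (C.cons (nat_lit 660) (C.node (nat_lit 2) (nat_lit 4) (nat_lit 8) (C.cons (nat_lit 284) (C.miq (nat_lit 323125399) (nat_lit 343342127075899557564122049)) (C.cons (nat_lit 276) (C.node (nat_lit 2) (nat_lit 5) (nat_lit 9) (C.cons (nat_lit 556) (C.miq (nat_lit 2207387719) (nat_lit 672169950011078693084201107))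 (C.cons (nat_lit 548) (C.node (nat_lit 2) (nat_lit 6) (nat_lit 8) (C.cons (nat_lit 332) (C.miq (nat_lit 2458076944) (nat_lit 401373278199399627715444883)) (C.cons (nat_lit 324) (C.node (nat_lit 2) (nat_lit 3) (nat_lit 6) (C.cons (nat_lit 588) (C.miq (nat_lit 2207387719) (nat_lit 710855576238746826674798739)) (C.cons (nat_lit 76) (C.node (nat_lit 2) (nat_lit 6) (nat_lit 9) (C.cons (nat_lit 580) (C.node (nat_lit 1) (nat_lit 2) (nat_lit 5) (C.cons (nat_lit 62) (C.miq (nat_lit 2267219537) (nat_lit 170463466116828825959399523)) (C.cons (nat_lit 54) (C.miq (nat_lit 874580344) (nat_lit 65286919691012553082012609)) (C.cons (nat_lit 46)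
  (C.miq (nat_lit 1108580224) (nat_lit 55620493789615683749479361)) C.nil)))) C.nil)) C.nil))) C.nil))) C.nil))) C.nil))) (C.cons (nat_lit 148) (C.node (nat_lit 2) (nat_lit 7) (nat_lit 9) (C.cons (nat_lit 644) (C.node (nat_lit 1) (nat_lit 2) (nat_lit 3) (C.cons (nat_lit 62) (C.miq (nat_lit 2267219537) (nat_lit 170463466116828825959399523)) (C.cons (nat_lit 46) (C.miq (nat_lit 2267219537) (nat_lit 170463466116828825958350947)) (C.cons (nat_lit 30) (C.miq (nat_lit 2535720979) (nat_lit 178930927475031827543884043)) (C.cons (nat_lit 14) (C.node (nat_lit 1) (nat_lit 2) (nat_lit 4) (C.cons (nat_lit 54) (C.node (nat_lit 1) (nat_lit 4) (nat_lit 8) (C.cons (nat_lit 786) (C.miq (nat_lit 1092851824) (nat_lit 16934867597413397216166849)) (C.cons (nat_lit 274) (C.node (nat_lit 4) (nat_lit 7) (nat_lit 8) (C.cons (nat_lit 440) (C.miq (nat_lit 2555512641) (nat_lit 354224839277759945854288019)) (C.cons (nat_lit 432) (C.miq (nat_lit 2555512641)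 (nat_lit 354224839277759911494549651)) (C.cons (nat_lit 408) (C.miq (nat_lit 1193883664) (nat_lit 778558133848232236109201675)) (C.cons (nat_lit 400) (C.node (nat_lit 1) (nat_lit 3) (nat_lit 4) (C.cons (nat_lit 90) (C.node (nat_lit 1) (nat_lit 4) (nat_lit 9) (C.cons (nat_lit 530) (C.node (nat_lit 1) (nat_lit 6) (nat_lit 9) C.nil) C.nil)) (C.cons (nat_lit 26) (C.node (nat_lit 1) (nat_lit 3) (nat_lit 6) (C.cons (nat_lit 586) (C.node (nat_lit 1) (nat_lit 4) (nat_lit 6) C.nil) (C.cons (nat_lit 74) (C.node (nat_lit 1) (nat_lit 4) (nat_lit 6) (C.cons (nat_lit 82) (C.node (nat_lit 1) (nat_lit 4) (nat_lit 9) C.nil) C.nil)) C.nil))) C.nil))) C.nil))))) C.nil))) (C.cons (nat_lit 22) (C.node (nat_lit 1) (nat_lit 2) (nat_lit 5) (C.cons (nat_lit 38) (C.node (nat_lit 2) (nat_lit 6) (nat_lit 8) (C.cons (nat_lit 332) (C.node (nat_lit 2) (nat_lit 6) (nat_lit 9) C.nil) (C.cons (nat_lit 324) (C.node (nat_lit 2) (nat_lit 3) (nat_lit 6) (C.cons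 (nat_lit 76) (C.node (nat_lit 2) (nat_lit 6) (nat_lit 9) C.nil) C.nil)) C.nil))) C.nil)) C.nil))) C.nil))))) C.nil)) C.nil))) C.nil))) C.nil))) (C.cons (nat_lit 134) (C.node (nat_lit 1) (nat_lit 7) (nat_lit 8) (C.cons (nat_lit 418) (C.node (nat_lit 2) (nat_lit 7) (nat_lit 8) (C.cons (nat_lit 404) (C.miq (nat_lit 1652884593) (nat_lit 354217091398676753649107091)) (C.cons (nat_lit 388) (C.node (nat_lit 1) (nat_lit 2) (nat_lit 5) (C.cons (nat_lit 62) (C.miq (nat_lit 2267219537) (nat_lit 170463466116828825959399523)) (C.cons (nat_lit 54) (C.miq (nat_lit 2233889088) (nat_lit 275652814310847058910970003)) (C.cons (nat_lit 46) (C.miq (nat_lit 2267219537) (nat_lit 170463466116828825958350947)) (C.cons (nat_lit 38) (C.node (nat_lit 1) (nat_lit 3) (nat_lit 7) (C.cons (nat_lit 650) (C.node (nat_lit 1) (nat_lit 3) (nat_lit 5) (C.cons (nat_lit 58) (C.miq (nat_lit 2152036657) (nat_lit 59245076170639399173358218)) (C.cons (nat_lit 42)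 (C.node (nat_lit 1) (nat_lit 6) (nat_lit 9) (C.cons (nat_lit 594) (C.miq (nat_lit 1634879792) (nat_lit 161997627968805502626628121)) (C.cons (nat_lit 578) (C.node (nat_lit 2) (nat_lit 6) (nat_lit 9) (C.cons (nat_lit 588) (C.miq (nat_lit 1100351282) (nat_lit 698760691751881541635801229)) (C.cons (nat_lit 580) (C.node (nat_lit 3) (nat_lit 6) (nat_lit 7) (C.cons (nat_lit 216) (C.miq (nat_lit 958820612) (nat_lit 701180960056165806548254867)) (C.cons (nat_lit 200) (C.node (nat_lit 4) (nat_lit 6) (nat_lit 7) (C.cons (nat_lit 208) (C.node (nat_lit 5) (nat_lit 7) (nat_lit 9) (C.cons (nat_lit 688) (C.miq (nat_lit 1158911872) (nat_lit 50784790519038586657637313)) C.nil)) C.nil)) C.nil))) C.nil))) C.nil))) C.nil))) (C.cons (nat_lit 138) (C.node (nat_lit 1) (nat_lit 7) (nat_lit 9) (C.cons (nat_lit 642) (C.node (nat_lit 1) (nat_lit 8) (nat_lit 9) (C.cons (nat_lit 786) (C.node (nat_lit 1) (nat_lit 2) (nat_lit 4) (C.cons (nat_lit 30)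 (C.miq (nat_lit 2166854704) (nat_lit 162013787370654604842566169)) (C.cons (nat_lit 22) (C.node (nat_lit 1) (nat_lit 4) (nat_lit 5) (C.cons (nat_lit 58) (C.miq (nat_lit 1882556737) (nat_lit 49573669613722365775708946)) (C.cons (nat_lit 50)
  (C.node (nat_lit 1) (nat_lit 2) (nat_lit 3) (C.cons (nat_lit 14) (C.node (nat_lit 1) (nat_lit 2) (nat_lit 6) C.nil) C.nil)) C.nil))) C.nil))) (C.cons (nat_lit 770) (C.node (nat_lit 2) (nat_lit 4) (nat_lit 7) (C.cons (nat_lit 660) (C.node (nat_lit 3) (nat_lit 7) (nat_lit 8) (C.cons (nat_lit 408) (C.miq (nat_lit 1226338819) (nat_lit 930880407560622251755372685)) C.nil)) (C.cons (nat_lit 148) (C.node (nat_lit 2) (nat_lit 7) (nat_lit 9) (C.cons (nat_lit 644) (C.node (nat_lit 3) (nat_lit 6) (nat_lit 7) C.nil) C.nil)) C.nil))) C.nil))) C.nil)) C.nil))) C.nil))))) C.nil))) (C.cons (nat_lit 386) (C.node (nat_lit 2) (nat_lit 6) (nat_lit 9) (C.cons (nat_lit 588) (C.node (nat_lit 1) (nat_lit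 6) (nat_lit 9) (C.cons (nat_lit 594) (C.miq (nat_lit 371673392) (nat_lit 275637798710712948753236505)) (C.cons (nat_lit 578) (C.node (nat_lit 3) (nat_lit 6) (nat_lit 7) (C.cons (nat_lit 216) (C.miq (nat_lit 1183937312) (nat_lit 698761835469435618728542349)) (C.cons (nat_lit 200) (C.node (nat_lit 4) (nat_lit 6) (nat_lit 7) (C.cons (nat_lit 208) (C.node (nat_lit 4) (nat_lit 6) (nat_lit 9) (C.cons (nat_lit 624) (C.miq (nat_lit 1409771826) (nat_lit 177716301516641986333704780)) (C.cons (nat_lit 592) (C.node (nat_lit 5) (nat_lit 6) (nat_lit 9) (C.cons (nat_lit 608) (C.node (nat_lit 1) (nat_lit 2) (nat_lit 6) (C.cons (nat_lit 70) (C.node (nat_lit 2) (nat_lit 6) (nat_lit 8) C.nil) C.nil)) C.nil)) C.nil))) C.nil)) C.nil))) C.nil))) (C.cons (nat_lit 580) (C.node (nat_lit 2) (nat_lit 7) (nat_lit 8) (C.cons (nat_lit 404) (C.node (nat_lit 2) (nat_lit 7) (nat_lit 9) (C.cons (nat_lit 644) (C.node (nat_lit 1) (nat_lit 2) (nat_lit 5)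 (C.cons (nat_lit 62) (C.miq (nat_lit 2267219537) (nat_lit 170463466116828825959399523)) (C.cons (nat_lit 54) (C.miq (nat_lit 2186703888) (nat_lit 275652814306906409237938323)) (C.cons (nat_lit 46) (C.miq (nat_lit 2267219537) (nat_lit 170463466116828825958350947)) (C.cons (nat_lit 38) (C.node (nat_lit 1) (nat_lit 2) (nat_lit 4) (C.cons (nat_lit 30) (C.node (nat_lit 1) (nat_lit 2) (nat_lit 6) (C.cons (nat_lit 326) (C.miq (nat_lit 2551383588) (nat_lit 322793100009172424456011861)) (C.cons (nat_lit 70) (C.node (nat_lit 1) (nat_lit 2) (nat_lit 8) (C.cons (nat_lit 262) (C.node (nat_lit 2) (nat_lit 3) (nat_lit 6) (C.cons (nat_lit 332) (C.miq (nat_lit 2016478756) (nat_lit 322785905778983703500685397)) C.nil)) C.nil)) C.nil))) (C.cons (nat_lit 22) (C.node (nat_lit 1) (nat_lit 2) (nat_lit 3) (C.cons (nat_lit 78) (C.node (nat_lit 1) (nat_lit 2) (nat_lit 8) (C.cons (nat_lit 262) (C.node (nat_lit 2) (nat_lit 6) (nat_lit 8) C.nil) C.nil))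 (C.cons (nat_lit 14) (C.node (nat_lit 1) (nat_lit 2) (nat_lit 6) (C.cons (nat_lit 326) (C.node (nat_lit 2) (nat_lit 3) (nat_lit 6) C.nil) (C.cons (nat_lit 70) (C.node (nat_lit 1) (nat_lit 2) (nat_lit 8) (C.cons (nat_lit 262) (C.node (nat_lit 2) (nat_lit 3) (nat_lit 4) C.nil) C.nil)) C.nil))) C.nil))) C.nil))) C.nil))))) C.nil)) (C.cons (nat_lit 388) (C.node (nat_lit 2) (nat_lit 4) (nat_lit 7) (C.cons (nat_lit 660) (C.node (nat_lit 2) (nat_lit 8) (nat_lit 9) (C.cons (nat_lit 780) (C.miq (nat_lit 388498579) (nat_lit 469068143332523456542278169)) (C.cons (nat_lit 772) (C.node (nat_lit 1) (nat_lit 2) (nat_lit 5) (C.cons (nat_lit 62) (C.miq (nat_lit 2267219537) (nat_lit 170463466116828825959399523)) (C.cons (nat_lit 54) (C.miq (nat_lit 2455139344) (nat_lit 275652814378964003275866259)) (C.cons (nat_lit 46) (C.miq (nat_lit 2267219537) (nat_lit 170463466116828825958350947)) (C.cons (nat_lit 38) (C.node (nat_lit 2) (nat_lit 4)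 (nat_lit 5) (C.cons (nat_lit 60) (C.miq (nat_lit 1614117186) (nat_lit 49570164732348360961032852)) (C.cons (nat_lit 52) (C.node (nat_lit 5) (nat_lit 7) (nat_lit 9) (C.cons (nat_lit 682) (C.miq (nat_lit 891590496) (nat_lit 62874048713495212488721345)) (C.cons (nat_lit 680) (C.miq (nat_lit 891590496) (nat_lit 62874048712932262535300033)) (C.cons (nat_lit 674) (C.miq (nat_lit 1445531719) (nat_lit 701189408509856989377200275)) (C.cons (nat_lit 672) (C.node (nat_lit 1) (nat_lit 5) (nat_lit 7)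
  (C.cons (nat_lit 170) (C.node (nat_lit 1) (nat_lit 7) (nat_lit 9) C.nil) (C.cons (nat_lit 162) (C.node (nat_lit 1) (nat_lit 3) (nat_lit 7) (C.cons (nat_lit 138) (C.node (nat_lit 1) (nat_lit 7) (nat_lit 9) C.nil) C.nil)) C.nil))) C.nil))))) C.nil))) C.nil))))) C.nil))) (C.cons (nat_lit 148) (C.node (nat_lit 2) (nat_lit 7) (nat_lit 9) (C.cons (nat_lit 644) (C.node (nat_lit 3) (nat_lit 6) (nat_lit 7) (C.cons (nat_lit 216) (C.node (nat_lit 3) (nat_lit 7) (nat_lit 8) (C.cons (nat_lit 392) (C.node (nat_lit 4) (nat_lit 7) (nat_lit 8) C.nil) C.nil)) (C.cons (nat_lit 200) (C.node (nat_lit 4) (nat_lit 6) (nat_lit 7) (C.cons (nat_lit 208) (C.node (nat_lit 4) (nat_lit 7) (nat_lit 9) C.nil) C.nil)) C.nil))) C.nil)) C.nil))) C.nil))) C.nil))) C.nil))) C.nil))) (C.cons (nat_lit 196) (C.ref (nat_lit 77) (nat_lit 654820258320)) C.nil))) C.nil)))) List.nil)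

theorem ok10_78 : okL par10 (nat_lit 79) c10_78 (nat_lit 78) = true := by decide +kernel

noncomputable def c10_79 : List C :=
  (List.cons (C.qs (C.cons (nat_lit 2128) (C.ref (nat_lit 78) (nat_lit 654820258320)) (C.cons (nat_lit 2113) (C.pat (nat_lit 3) (nat_lit 44079126918) (nat_lit 12154088866247746412950908338478496547044787137)) C.nil))) (List.cons (C.qs (C.cons (nat_lit 2128) (C.pat (nat_lit 3) (nat_lit 11346843766) (nat_lit 6534211240946230868737873845953818626198012865)) (C.cons (nat_lit 2066) (C.pat (nat_lit 2) (nat_lit 39545631332) (nat_lit 11574120446370832392462936322425895161915834537)) (C.cons (nat_lit 2113) (C.pat (nat_lit 3) (nat_lit 44079126918) (nat_lit 12154088866247746412950908338478496547044787137)) (C.cons (nat_lit 97) (C.pat (nat_lit 2) (nat_lit 26895619458) (nat_lit 2207864631464072762884831120296505534149100057)) (C.cons (nat_lit 2065) (C.pat (nat_lit 3) (nat_lit 14399121782) (nat_lit 11975685626378426354726978671470003016535704513))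 (C.cons (nat_lit 81) (C.pat (nat_lit 3) (nat_lit 10101148039) (nat_lit 11574272213448729456038919327534747723261739969)) (C.cons (nat_lit 2129) (C.pat (nat_lit 3) (nat_lit 11346843766) (nat_lit 6534211240946230868737873845953818626198012865)) C.nil)))))))) (List.cons (C.node (nat_lit 0) (nat_lit 3) (nat_lit 7) (C.cons (nat_lit 169) (C.node (nat_lit 0) (nat_lit 3) (nat_lit 4) (C.cons (nat_lit 537) (C.node (nat_lit 0) (nat_lit 4) (nat_lit 5) (C.cons (nat_lit 49) (C.node (nat_lit 0) (nat_lit 5) (nat_lit 9) (C.cons (nat_lit 545) (C.ref (nat_lit 80) (nat_lit 654820258320)) C.nil)) C.nil)) (C.cons (nat_lit 25) (C.node (nat_lit 0) (nat_lit 3) (nat_lit 9) (C.cons (nat_lit 521) (C.node (nat_lit 0) (nat_lit 4) (nat_lit 5) (C.cons (nat_lit 561) (C.ref (nat_lit 79) (nat_lit 449213374800)) C.nil)) C.nil)) C.nil))) (C.cons (nat_lit 137) (C.node (nat_lit 0) (nat_lit 5) (nat_lit 7) (C.cons (nat_lit 161) (C.node (nat_lit 0) (nat_lit 3)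 (nat_lit 4) (C.cons (nat_lit 537) (C.node (nat_lit 0) (nat_lit 3) (nat_lit 5) C.nil) (C.cons (nat_lit 57) (C.node (nat_lit 0) (nat_lit 3) (nat_lit 9) C.nil) C.nil))) C.nil)) C.nil))) (List.cons (C.node (nat_lit 0) (nat_lit 2) (nat_lit 3) (C.cons (nat_lit 141) (C.node (nat_lit 0) (nat_lit 5) (nat_lit 7) (C.cons (nat_lit 161) (C.node (nat_lit 0) (nat_lit 3) (nat_lit 4) (C.cons (nat_lit 537) (C.node (nat_lit 0) (nat_lit 3) (nat_lit 5) (C.cons (nat_lit 41) (C.node (nat_lit 0) (nat_lit 4) (nat_lit 5) (C.cons (nat_lit 49) (C.node (nat_lit 0) (nat_lit 5) (nat_lit 9) (C.cons (nat_lit 545) (C.ref (nat_lit 79) (nat_lit 654820258320)) C.nil)) C.nil)) C.nil)) (C.cons (nat_lit 57) (C.pat (nat_lit 1) (nat_lit 645158961) (nat_lit 514044123566479148112267791885206465)) (C.cons (nat_lit 25) (C.node (nat_lit 0) (nat_lit 3) (nat_lit 5) (C.cons (nat_lit 553) (C.node (nat_lit 0) (nat_lit 5) (nat_lit 4) (C.cons (nat_lit 49) (C.node (nat_lit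 0) (nat_lit 4) (nat_lit 9) (C.cons (nat_lit 529) (C.ref (nat_lit 79) (nat_lit 650792743200)) C.nil)) C.nil)) (C.cons (nat_lit 41) (C.node (nat_lit 0) (nat_lit 3) (nat_lit 9) (C.cons (nat_lit 521) (C.node (nat_lit 0) (nat_lit 4) (nat_lit 5) (C.cons (nat_lit 561) (C.ref (nat_lit 79) (nat_lit 654566510880)) C.nil)) C.nil)) C.nil))) C.nil)))) C.nil)) (C.cons (nat_lit 13) (C.node (nat_lit 0) (nat_lit 2) (nat_lit 7) (C.cons (nat_lit 133) (C.ref (nat_lit 81) (nat_lit 654820258320)) C.nil)) C.nil))) (List.cons (C.node (nat_lit 0) (nat_lit 2) (nat_lit 3) (C.cons (nat_lit 141) (C.node (nat_lit 0) (nat_lit 2) (nat_lit 5) (C.cons (nat_lit 37) (C.node (nat_lit 0) (nat_lit 5) (nat_lit 7) (C.cons (nat_lit 161) (C.node (nat_lit 0) (nat_lit 5) (nat_lit 3) (C.cons (nat_lit 553) (C.node (nat_lit 0) (nat_lit 5) (nat_lit 4) C.nil) (C.cons (nat_lit 57) (C.node (nat_lit 0) (nat_lit 5) (nat_lit 9) C.nil) C.nil))) C.nil)) C.nil)) (C.cons (nat_lit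 45) (C.node (nat_lit 0) (nat_lit 2) (nat_lit 7) (C.cons (nat_lit 133) (C.node (nat_lit 0) (nat_lit 3) (nat_lit 7) (C.cons (nat_lit 137) (C.node (nat_lit 0) (nat_lit 5) (nat_lit 7) C.nil) C.nil)) C.nil)) (C.cons (nat_lit 13) (C.node (nat_lit 0) (nat_lit 2) (nat_lit 5) (C.cons (nat_lit 165) (C.node (nat_lit 0) (nat_lit 3) (nat_lit 7)
  (C.cons (nat_lit 137) (C.node (nat_lit 0) (nat_lit 3) (nat_lit 4) (C.cons (nat_lit 537) (C.node (nat_lit 0) (nat_lit 3) (nat_lit 5) C.nil) (C.cons (nat_lit 57) (C.node (nat_lit 0) (nat_lit 3) (nat_lit 9) C.nil) C.nil))) C.nil)) (C.cons (nat_lit 37) (C.node (nat_lit 0) (nat_lit 2) (nat_lit 7) C.nil) C.nil))) C.nil)))) (List.cons (C.node (nat_lit 0) (nat_lit 2) (nat_lit 8) (C.cons (nat_lit 293) (C.node (nat_lit 0) (nat_lit 4) (nat_lit 8) (C.cons (nat_lit 273) (C.ref (nat_lit 82) (nat_lit 654820258320)) C.nil)) (C.cons (nat_lit 261) (C.node (nat_lit 0) (nat_lit 4) (nat_lit 8) (C.cons (nat_lit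 305) (C.ref (nat_lit 82) (nat_lit 517918045200)) (C.cons (nat_lit 273) (C.node (nat_lit 0) (nat_lit 5) (nat_lit 8) (C.cons (nat_lit 289) (C.ref (nat_lit 83) (nat_lit 654820258320)) C.nil)) C.nil))) C.nil))) (List.cons (C.node (nat_lit 0) (nat_lit 2) (nat_lit 7) (C.cons (nat_lit 141) (C.node (nat_lit 0) (nat_lit 2) (nat_lit 9) (C.cons (nat_lit 517) (C.node (nat_lit 0) (nat_lit 5) (nat_lit 7) (C.cons (nat_lit 161) (C.node (nat_lit 0) (nat_lit 3) (nat_lit 4) (C.cons (nat_lit 537) (C.node (nat_lit 0) (nat_lit 3) (nat_lit 5) C.nil) (C.cons (nat_lit 57) (C.pat (nat_lit 1) (nat_lit 645158961) (nat_lit 514044123566479148112267791885206465)) C.nil))) C.nil)) C.nil)) (C.cons (nat_lit 133) (C.node (nat_lit 0) (nat_lit 2) (nat_lit 3) (C.cons (nat_lit 525) (C.node (nat_lit 0) (nat_lit 3) (nat_lit 4) (C.cons (nat_lit 57) (C.node (nat_lit 0) (nat_lit 3) (nat_lit 7) (C.cons (nat_lit 137) (C.node (nat_lit 0) (nat_lit 4) (nat_lit 9) C.nil)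 C.nil)) (C.cons (nat_lit 25) (C.node (nat_lit 0) (nat_lit 3) (nat_lit 5) (C.cons (nat_lit 169) (C.node (nat_lit 0) (nat_lit 4) (nat_lit 5) (C.cons (nat_lit 561) (C.ref (nat_lit 80) (nat_lit 650789401680)) C.nil)) C.nil)) C.nil))) (C.cons (nat_lit 13) (C.node (nat_lit 0) (nat_lit 2) (nat_lit 9) C.nil) C.nil))) C.nil))) (List.cons (C.node (nat_lit 0) (nat_lit 3) (nat_lit 4) (C.cons (nat_lit 537) (C.ref (nat_lit 81) (nat_lit 509361725760)) (C.cons (nat_lit 25) (C.node (nat_lit 0) (nat_lit 4) (nat_lit 9) (C.cons (nat_lit 529) (C.node (nat_lit 0) (nat_lit 2) (nat_lit 7) (C.cons (nat_lit 165) (C.node (nat_lit 0) (nat_lit 3) (nat_lit 7) C.nil) (C.cons (nat_lit 141) (C.node (nat_lit 0) (nat_lit 5) (nat_lit 7) C.nil) C.nil))) C.nil)) C.nil))) (List.cons (C.node (nat_lit 0) (nat_lit 2) (nat_lit 7) (C.cons (nat_lit 165) (C.node (nat_lit 0) (nat_lit 3) (nat_lit 7) C.nil) (C.cons (nat_lit 141) (C.node (nat_lit 0) (nat_lit 5) (nat_lit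 7) C.nil) C.nil))) (List.cons (C.node (nat_lit 0) (nat_lit 2) (nat_lit 8) (C.cons (nat_lit 293) (C.node (nat_lit 0) (nat_lit 4) (nat_lit 8) (C.cons (nat_lit 273) (C.ref (nat_lit 85) (nat_lit 654820258320)) C.nil)) (C.cons (nat_lit 261) (C.node (nat_lit 0) (nat_lit 4) (nat_lit 8) (C.cons (nat_lit 305) (C.ref (nat_lit 86) (nat_lit 654820258320)) (C.cons (nat_lit 273) (C.node (nat_lit 0) (nat_lit 5) (nat_lit 8) (C.cons (nat_lit 289) (C.ref (nat_lit 87) (nat_lit 654820258320)) C.nil)) C.nil))) C.nil))) (List.cons (C.node (nat_lit 0) (nat_lit 2) (nat_lit 7) (C.cons (nat_lit 165) (C.node (nat_lit 0) (nat_lit 3) (nat_lit 7) (C.cons (nat_lit 137) (C.node (nat_lit 0) (nat_lit 2) (nat_lit 3) (C.cons (nat_lit 525) (C.node (nat_lit 0) (nat_lit 4) (nat_lit 9) (C.cons (nat_lit 561) (C.node (nat_lit 0) (nat_lit 3) (nat_lit 4) (C.cons (nat_lit 281) (C.node (nat_lit 0) (nat_lit 3) (nat_lit 5) (C.cons (nat_lit 41) (C.node (nat_lit 0) (nat_lit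 5) (nat_lit 8) (C.cons (nat_lit 289) (C.ref (nat_lit 79) (nat_lit 452988064320)) C.nil)) C.nil)) (C.cons (nat_lit 25) (C.node (nat_lit 0) (nat_lit 4) (nat_lit 8) (C.cons (nat_lit 273) (C.node (nat_lit 0) (nat_lit 3) (nat_lit 5) (C.cons (nat_lit 297) (C.ref (nat_lit 79) (nat_lit 521439101520)) C.nil)) C.nil)) C.nil))) (C.cons (nat_lit 529) (C.node (nat_lit 0) (nat_lit 5) (nat_lit 9) (C.cons (nat_lit 545) (C.node (nat_lit 0) (nat_lit 3) (nat_lit 4) (C.cons (nat_lit 281) (C.node (nat_lit 0) (nat_lit 3) (nat_lit 5) C.nil) (C.cons (nat_lit 57)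
  (C.node (nat_lit 0) (nat_lit 3) (nat_lit 8) C.nil) C.nil))) C.nil)) C.nil))) (C.cons (nat_lit 13) (C.node (nat_lit 0) (nat_lit 2) (nat_lit 9) (C.cons (nat_lit 517) (C.node (nat_lit 0) (nat_lit 3) (nat_lit 8) (C.cons (nat_lit 297) (C.node (nat_lit 0) (nat_lit 4) (nat_lit 8) C.nil) (C.cons (nat_lit 281) (C.node (nat_lit 0) (nat_lit 5) (nat_lit 8) C.nil) C.nil))) C.nil)) C.nil))) C.nil)) (C.cons (nat_lit 141) (C.node (nat_lit 0) (nat_lit 5) (nat_lit 7) (C.cons (nat_lit 161) (C.ref (nat_lit 86) (nat_lit 646514365200)) C.nil)) (C.cons (nat_lit 133) (C.node (nat_lit 0) (nat_lit 3) (nat_lit 7) (C.cons (nat_lit 169) (C.node (nat_lit 0) (nat_lit 2) (nat_lit 3) (C.cons (nat_lit 525) (C.node (nat_lit 0) (nat_lit 2) (nat_lit 5) (C.cons (nat_lit 37) (C.node (nat_lit 0) (nat_lit 3) (nat_lit 4) (C.cons (nat_lit 281) (C.node (nat_lit 0) (nat_lit 5) (nat_lit 8) (C.cons (nat_lit 289) (C.node (nat_lit 0) (nat_lit 5) (nat_lit 4) (C.cons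 (nat_lit 561) (C.ref (nat_lit 80) (nat_lit 646511273280)) C.nil)) C.nil)) (C.cons (nat_lit 25) (C.node (nat_lit 0) (nat_lit 3) (nat_lit 8) C.nil) C.nil))) C.nil)) (C.cons (nat_lit 13) (C.node (nat_lit 0) (nat_lit 2) (nat_lit 5) (C.cons (nat_lit 549) (C.node (nat_lit 0) (nat_lit 3) (nat_lit 8) (C.cons (nat_lit 281) (C.node (nat_lit 0) (nat_lit 3) (nat_lit 9) (C.cons (nat_lit 521) (C.node (nat_lit 0) (nat_lit 4) (nat_lit 5) C.nil) C.nil)) (C.cons (nat_lit 265) (C.node (nat_lit 0) (nat_lit 3) (nat_lit 4) (C.cons (nat_lit 537) (C.node (nat_lit 0) (nat_lit 4) (nat_lit 5) (C.cons (nat_lit 305) (C.ref (nat_lit 79) (nat_lit 590141793360)) C.nil)) C.nil)) C.nil))) (C.cons (nat_lit 37) (C.node (nat_lit 0) (nat_lit 2) (nat_lit 9) C.nil) C.nil))) C.nil))) (C.cons (nat_lit 137) (C.node (nat_lit 0) (nat_lit 5) (nat_lit 7) (C.cons (nat_lit 161) (C.node (nat_lit 0) (nat_lit 2) (nat_lit 3) (C.cons (nat_lit 525) (C.node (nat_lit 0) (nat_lit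 2) (nat_lit 5) C.nil) (C.cons (nat_lit 45) (C.node (nat_lit 0) (nat_lit 2) (nat_lit 9) C.nil) C.nil))) C.nil)) C.nil))) C.nil)))) (List.cons (C.node (nat_lit 0) (nat_lit 1) (nat_lit 8) (C.cons (nat_lit 267) (C.node (nat_lit 0) (nat_lit 1) (nat_lit 2) (C.cons (nat_lit 519) (C.ref (nat_lit 84) (nat_lit 654820258320)) (C.cons (nat_lit 7) (C.node (nat_lit 0) (nat_lit 1) (nat_lit 9) (C.cons (nat_lit 515) (C.ref (nat_lit 88) (nat_lit 654820258320)) C.nil)) C.nil))) (C.cons (nat_lit 263) (C.node (nat_lit 0) (nat_lit 1) (nat_lit 3) (C.cons (nat_lit 523) (C.ref (nat_lit 84) (nat_lit 590395748880)) (C.cons (nat_lit 11) (C.node (nat_lit 0) (nat_lit 1) (nat_lit 9) (C.cons (nat_lit 515) (C.ref (nat_lit 89) (nat_lit 654820258320)) C.nil)) C.nil))) (C.cons (nat_lit 259) (C.node (nat_lit 0) (nat_lit 1) (nat_lit 2) (C.cons (nat_lit 519) (C.node (nat_lit 0) (nat_lit 1) (nat_lit 3) (C.cons (nat_lit 11) (C.ref (nat_lit 89) (nat_lit 590395748880))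 C.nil)) (C.cons (nat_lit 15) (C.node (nat_lit 0) (nat_lit 1) (nat_lit 9) (C.cons (nat_lit 515) (C.node (nat_lit 0) (nat_lit 2) (nat_lit 7) (C.cons (nat_lit 165) (C.node (nat_lit 0) (nat_lit 2) (nat_lit 8) (C.cons (nat_lit 261) (C.node (nat_lit 0) (nat_lit 2) (nat_lit 9) (C.cons (nat_lit 517) (C.node (nat_lit 0) (nat_lit 3) (nat_lit 7) (C.cons (nat_lit 137) (C.node (nat_lit 0) (nat_lit 3) (nat_lit 8) (C.cons (nat_lit 297) (C.node (nat_lit 0) (nat_lit 4) (nat_lit 8) C.nil) (C.cons (nat_lit 281) (C.node (nat_lit 0) (nat_lit 5) (nat_lit 8) C.nil) C.nil))) C.nil)) C.nil)) C.nil)) (C.cons (nat_lit 133) (C.node (nat_lit 0) (nat_lit 2) (nat_lit 8) (C.cons (nat_lit 293) (C.node (nat_lit 0) (nat_lit 2) (nat_lit 9) (C.cons (nat_lit 517) (C.node (nat_lit 0) (nat_lit 3) (nat_lit 7) (C.cons (nat_lit 169) (C.node (nat_lit 0) (nat_lit 3) (nat_lit 8) (C.cons (nat_lit 281) (C.pat (nat_lit 1) (nat_lit 2270577441) (nat_lit 763343776588484709181815589417844905))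 (C.cons (nat_lit 265) (C.node (nat_lit 0) (nat_lit 4) (nat_lit 8) C.nil) C.nil))) (C.cons (nat_lit 137) (C.node (nat_lit 0) (nat_lit 5) (nat_lit 7) C.nil) C.nil))) C.nil)) (C.cons (nat_lit 261)
  (C.node (nat_lit 0) (nat_lit 2) (nat_lit 5) (C.cons (nat_lit 549) (C.node (nat_lit 0) (nat_lit 3) (nat_lit 7) (C.cons (nat_lit 169) (C.node (nat_lit 0) (nat_lit 3) (nat_lit 9) (C.cons (nat_lit 537) (C.pat (nat_lit 1) (nat_lit 2539012897) (nat_lit 763343776588489431620356053100986537)) (C.cons (nat_lit 521) (C.node (nat_lit 0) (nat_lit 4) (nat_lit 9) C.nil) C.nil))) (C.cons (nat_lit 137) (C.node (nat_lit 0) (nat_lit 5) (nat_lit 7) C.nil) C.nil))) (C.cons (nat_lit 37) (C.node (nat_lit 0) (nat_lit 2) (nat_lit 9) C.nil) C.nil))) C.nil))) C.nil))) C.nil)) (C.cons (nat_lit 7) (C.node (nat_lit 0) (nat_lit 1) (nat_lit 3) (C.cons (nat_lit 523) (C.ref (nat_lit 88) (nat_lit 590395748880)) (C.cons (nat_lit 11) (C.node (nat_lit 0) (nat_lit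 1) (nat_lit 9) (C.cons (nat_lit 515) (C.node (nat_lit 0) (nat_lit 2) (nat_lit 7) (C.cons (nat_lit 165) (C.node (nat_lit 0) (nat_lit 3) (nat_lit 7) (C.cons (nat_lit 137) (C.node (nat_lit 0) (nat_lit 2) (nat_lit 8) (C.cons (nat_lit 269) (C.node (nat_lit 0) (nat_lit 2) (nat_lit 9) C.nil) C.nil)) C.nil)) (C.cons (nat_lit 141) (C.node (nat_lit 0) (nat_lit 5) (nat_lit 7) (C.cons (nat_lit 161) (C.node (nat_lit 0) (nat_lit 2) (nat_lit 8) (C.cons (nat_lit 293) (C.node (nat_lit 0) (nat_lit 2) (nat_lit 9) C.nil) C.nil)) C.nil)) (C.cons (nat_lit 133) (C.node (nat_lit 0) (nat_lit 3) (nat_lit 7) (C.cons (nat_lit 169) (C.node (nat_lit 0) (nat_lit 2) (nat_lit 3) (C.cons (nat_lit 525) (C.node (nat_lit 0) (nat_lit 2) (nat_lit 5) (C.cons (nat_lit 293) (C.node (nat_lit 0) (nat_lit 3) (nat_lit 4) (C.cons (nat_lit 281) (C.node (nat_lit 0) (nat_lit 4) (nat_lit 5) (C.cons (nat_lit 561) (C.ref (nat_lit 79) (nat_lit 650789401680)) C.nil)) C.nil))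 C.nil)) (C.cons (nat_lit 269) (C.node (nat_lit 0) (nat_lit 2) (nat_lit 5) (C.cons (nat_lit 549) (C.node (nat_lit 0) (nat_lit 3) (nat_lit 4) (C.cons (nat_lit 537) (C.node (nat_lit 0) (nat_lit 4) (nat_lit 5) (C.cons (nat_lit 305) (C.ref (nat_lit 79) (nat_lit 582338360400)) C.nil)) C.nil)) C.nil)) C.nil))) C.nil)) C.nil)))) C.nil)) C.nil))) C.nil)))) C.nil)))) (List.cons (C.node (nat_lit 0) (nat_lit 1) (nat_lit 2) (C.cons (nat_lit 519) (C.node (nat_lit 0) (nat_lit 1) (nat_lit 4) (C.cons (nat_lit 275) (C.ref (nat_lit 82) (nat_lit 650793726480)) (C.cons (nat_lit 19) (C.node (nat_lit 0) (nat_lit 1) (nat_lit 8) (C.cons (nat_lit 259) (C.ref (nat_lit 86) (nat_lit 582342554640)) C.nil)) C.nil))) (C.cons (nat_lit 263) (C.node (nat_lit 0) (nat_lit 1) (nat_lit 4) (C.cons (nat_lit 531) (C.ref (nat_lit 82) (nat_lit 582342685200)) (C.cons (nat_lit 19) (C.node (nat_lit 0) (nat_lit 1) (nat_lit 9) (C.cons (nat_lit 515) (C.ref (nat_lit 86)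 (nat_lit 650793595920)) C.nil)) C.nil))) (C.cons (nat_lit 7) (C.node (nat_lit 0) (nat_lit 1) (nat_lit 8) (C.cons (nat_lit 275) (C.node (nat_lit 0) (nat_lit 1) (nat_lit 9) (C.cons (nat_lit 515) (C.ref (nat_lit 85) (nat_lit 650793726480)) C.nil)) (C.cons (nat_lit 259) (C.node (nat_lit 0) (nat_lit 1) (nat_lit 4) (C.cons (nat_lit 531) (C.ref (nat_lit 85) (nat_lit 582342685200)) (C.cons (nat_lit 19) (C.node (nat_lit 0) (nat_lit 1) (nat_lit 9) (C.cons (nat_lit 515) (C.node (nat_lit 0) (nat_lit 2) (nat_lit 8) (C.cons (nat_lit 269) (C.node (nat_lit 0) (nat_lit 2) (nat_lit 9) C.nil) C.nil)) C.nil)) C.nil))) C.nil))) C.nil)))) (List.cons (C.node (nat_lit 0) (nat_lit 1) (nat_lit 2) (C.cons (nat_lit 519) (C.node (nat_lit 0) (nat_lit 1) (nat_lit 4) (C.cons (nat_lit 275) (C.ref (nat_lit 83) (nat_lit 650793726480)) (C.cons (nat_lit 19) (C.node (nat_lit 0) (nat_lit 1) (nat_lit 8) (C.cons (nat_lit 259) (C.ref (nat_lit 87) (nat_lit 582342554640))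 C.nil)) C.nil))) (C.cons (nat_lit 263) (C.node (nat_lit 0) (nat_lit 1) (nat_lit 4) (C.cons (nat_lit 531) (C.ref (nat_lit 83) (nat_lit 582342685200)) (C.cons (nat_lit 19) (C.node (nat_lit 0) (nat_lit 1) (nat_lit 9) (C.cons (nat_lit 515) (C.ref (nat_lit 87) (nat_lit 650793595920)) C.nil)) C.nil))) (C.cons (nat_lit 7) (C.node (nat_lit 0) (nat_lit 1) (nat_lit 8) (C.cons (nat_lit 275) (C.node (nat_lit 0) (nat_lit 1) (nat_lit 9)
  (C.cons (nat_lit 515) (C.ref (nat_lit 87) (nat_lit 650793726480)) C.nil)) (C.cons (nat_lit 259) (C.node (nat_lit 0) (nat_lit 1) (nat_lit 4) (C.cons (nat_lit 531) (C.ref (nat_lit 87) (nat_lit 582342685200)) C.nil)) C.nil))) C.nil)))) (List.cons (C.node (nat_lit 0) (nat_lit 1) (nat_lit 3) (C.cons (nat_lit 27) (C.node (nat_lit 0) (nat_lit 1) (nat_lit 8) (C.cons (nat_lit 259) (C.node (nat_lit 0) (nat_lit 3) (nat_lit 5) (C.cons (nat_lit 553) (C.node (nat_lit 0) (nat_lit 4) (nat_lit 9) (C.cons (nat_lit 529)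 (C.node (nat_lit 0) (nat_lit 4) (nat_lit 5) (C.cons (nat_lit 305) (C.pat (nat_lit 1) (nat_lit 2234804513) (nat_lit 514061553617173510373853987922575913)) C.nil)) C.nil)) (C.cons (nat_lit 41) (C.node (nat_lit 0) (nat_lit 3) (nat_lit 9) C.nil) C.nil))) C.nil)) (C.cons (nat_lit 11) (C.node (nat_lit 0) (nat_lit 1) (nat_lit 4) (C.cons (nat_lit 275) (C.node (nat_lit 0) (nat_lit 5) (nat_lit 8) (C.cons (nat_lit 289) (C.node (nat_lit 0) (nat_lit 3) (nat_lit 5) (C.cons (nat_lit 553) (C.node (nat_lit 0) (nat_lit 3) (nat_lit 4) C.nil) (C.cons (nat_lit 57) (C.node (nat_lit 0) (nat_lit 3) (nat_lit 9) C.nil) C.nil))) C.nil)) (C.cons (nat_lit 19) (C.node (nat_lit 0) (nat_lit 1) (nat_lit 8) C.nil) C.nil))) C.nil))) (List.cons (C.node (nat_lit 0) (nat_lit 2) (nat_lit 8) (C.cons (nat_lit 269) (C.node (nat_lit 0) (nat_lit 1) (nat_lit 2) (C.cons (nat_lit 519) (C.ref (nat_lit 93) (nat_lit 654820258320)) (C.cons (nat_lit 7) (C.node (nat_lit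 0) (nat_lit 2) (nat_lit 9) (C.cons (nat_lit 517) (C.node (nat_lit 0) (nat_lit 1) (nat_lit 8) (C.cons (nat_lit 275) (C.node (nat_lit 0) (nat_lit 5) (nat_lit 8) C.nil) C.nil)) C.nil)) C.nil))) (C.cons (nat_lit 263) (C.node (nat_lit 0) (nat_lit 2) (nat_lit 3) (C.cons (nat_lit 525) (C.ref (nat_lit 93) (nat_lit 590395748880)) (C.cons (nat_lit 13) (C.node (nat_lit 0) (nat_lit 2) (nat_lit 9) (C.cons (nat_lit 517) (C.node (nat_lit 0) (nat_lit 1) (nat_lit 3) (C.cons (nat_lit 523) (C.node (nat_lit 0) (nat_lit 1) (nat_lit 4) C.nil) (C.cons (nat_lit 27) (C.node (nat_lit 0) (nat_lit 1) (nat_lit 9) C.nil) C.nil))) C.nil)) C.nil))) (C.cons (nat_lit 261) (C.node (nat_lit 0) (nat_lit 1) (nat_lit 2) (C.cons (nat_lit 519) (C.node (nat_lit 0) (nat_lit 2) (nat_lit 3) (C.cons (nat_lit 13) (C.node (nat_lit 0) (nat_lit 1) (nat_lit 3) (C.cons (nat_lit 267) (C.node (nat_lit 0) (nat_lit 1) (nat_lit 4) C.nil) (C.cons (nat_lit 27) (C.node (nat_lit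 0) (nat_lit 1) (nat_lit 8) C.nil) C.nil))) C.nil)) (C.cons (nat_lit 15) (C.node (nat_lit 0) (nat_lit 2) (nat_lit 9) (C.cons (nat_lit 517) (C.node (nat_lit 0) (nat_lit 1) (nat_lit 8) (C.cons (nat_lit 275) (C.node (nat_lit 0) (nat_lit 1) (nat_lit 9) C.nil) C.nil)) C.nil)) (C.cons (nat_lit 7) (C.node (nat_lit 0) (nat_lit 2) (nat_lit 3) (C.cons (nat_lit 525) (C.node (nat_lit 0) (nat_lit 1) (nat_lit 9) (C.cons (nat_lit 531) (C.node (nat_lit 0) (nat_lit 5) (nat_lit 9) C.nil) C.nil)) C.nil)) C.nil)))) C.nil)))) (List.cons (C.node (nat_lit 0) (nat_lit 1) (nat_lit 2) (C.cons (nat_lit 519) (C.node (nat_lit 0) (nat_lit 1) (nat_lit 3) (C.cons (nat_lit 267) (C.node (nat_lit 0) (nat_lit 1) (nat_lit 4) C.nil) (C.cons (nat_lit 27) (C.node (nat_lit 0) (nat_lit 1) (nat_lit 8) C.nil) C.nil))) (C.cons (nat_lit 263) (C.node (nat_lit 0) (nat_lit 1) (nat_lit 3) (C.cons (nat_lit 523) (C.node (nat_lit 0) (nat_lit 1) (nat_lit 4) C.nil) (C.cons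 (nat_lit 27) (C.node (nat_lit 0) (nat_lit 1) (nat_lit 9) C.nil) C.nil))) (C.cons (nat_lit 15) (C.node (nat_lit 0) (nat_lit 1) (nat_lit 8) (C.cons (nat_lit 275) (C.node (nat_lit 0) (nat_lit 1) (nat_lit 9) C.nil) C.nil)) C.nil)))) (List.cons (C.node (nat_lit 0) (nat_lit 1) (nat_lit 7) (C.cons (nat_lit 147) (C.ref (nat_lit 90) (nat_lit 654820258320)) (C.cons (nat_lit 139) (C.node (nat_lit 0) (nat_lit 2) (nat_lit 7) (C.cons (nat_lit 165) (C.node (nat_lit 0) (nat_lit 4) (nat_lit 7) (C.cons (nat_lit 145) (C.ref (nat_lit 91) (nat_lit 654820258320)) C.nil)) (C.cons (nat_lit 133) (C.node (nat_lit 0) (nat_lit 4) (nat_lit 7) (C.cons (nat_lit 177) (C.ref (nat_lit 91) (nat_lit 654820127760))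
  (C.cons (nat_lit 145) (C.node (nat_lit 0) (nat_lit 5) (nat_lit 7) (C.cons (nat_lit 161) (C.ref (nat_lit 92) (nat_lit 654820258320)) C.nil)) C.nil))) C.nil))) (C.cons (nat_lit 135) (C.ref (nat_lit 90) (nat_lit 654820127760)) (C.cons (nat_lit 131) (C.node (nat_lit 0) (nat_lit 2) (nat_lit 7) (C.cons (nat_lit 165) (C.node (nat_lit 0) (nat_lit 3) (nat_lit 7) (C.cons (nat_lit 153) (C.ref (nat_lit 91) (nat_lit 654816916800)) (C.cons (nat_lit 137) (C.node (nat_lit 0) (nat_lit 4) (nat_lit 7) (C.cons (nat_lit 145) (C.ref (nat_lit 94) (nat_lit 654820258320)) C.nil)) C.nil))) (C.cons (nat_lit 141) (C.node (nat_lit 0) (nat_lit 5) (nat_lit 7) (C.cons (nat_lit 177) (C.ref (nat_lit 91) (nat_lit 654819013920)) (C.cons (nat_lit 161) (C.node (nat_lit 0) (nat_lit 4) (nat_lit 7) (C.cons (nat_lit 145) (C.ref (nat_lit 92) (nat_lit 654819275040)) C.nil)) C.nil))) (C.cons (nat_lit 133) (C.node (nat_lit 0) (nat_lit 3) (nat_lit 7) (C.cons (nat_lit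 169) (C.node (nat_lit 0) (nat_lit 4) (nat_lit 7) (C.cons (nat_lit 145) (C.ref (nat_lit 92) (nat_lit 654816064080)) C.nil)) (C.cons (nat_lit 153) (C.node (nat_lit 0) (nat_lit 5) (nat_lit 7) (C.cons (nat_lit 161) (C.ref (nat_lit 92) (nat_lit 654817177920)) C.nil)) (C.cons (nat_lit 137) (C.node (nat_lit 0) (nat_lit 4) (nat_lit 7) (C.cons (nat_lit 177) (C.ref (nat_lit 94) (nat_lit 654820127760)) (C.cons (nat_lit 145) (C.node (nat_lit 0) (nat_lit 5) (nat_lit 7) (C.cons (nat_lit 161) (C.ref (nat_lit 95) (nat_lit 654820258320)) C.nil)) C.nil))) C.nil)))) C.nil)))) C.nil))))) (List.cons (C.node (nat_lit 0) (nat_lit 2) (nat_lit 7) (C.cons (nat_lit 165) (C.node (nat_lit 0) (nat_lit 3) (nat_lit 7) (C.cons (nat_lit 137) (C.node (nat_lit 0) (nat_lit 2) (nat_lit 8) (C.cons (nat_lit 277) (C.node (nat_lit 0) (nat_lit 5) (nat_lit 8) C.nil) C.nil)) C.nil)) (C.cons (nat_lit 141) (C.node (nat_lit 0) (nat_lit 5) (nat_lit 7) (C.cons (nat_lit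 161) (C.ref (nat_lit 87) (nat_lit 646514430480)) C.nil)) (C.cons (nat_lit 133) (C.node (nat_lit 0) (nat_lit 3) (nat_lit 7) (C.cons (nat_lit 169) (C.node (nat_lit 0) (nat_lit 3) (nat_lit 2) (C.cons (nat_lit 525) (C.node (nat_lit 0) (nat_lit 3) (nat_lit 4) C.nil) (C.cons (nat_lit 29) (C.node (nat_lit 0) (nat_lit 3) (nat_lit 9) C.nil) C.nil))) C.nil)) C.nil)))) (List.cons (C.node (nat_lit 0) (nat_lit 1) (nat_lit 2) (C.cons (nat_lit 519) (C.node (nat_lit 0) (nat_lit 2) (nat_lit 7) (C.cons (nat_lit 165) (C.node (nat_lit 0) (nat_lit 3) (nat_lit 7) (C.cons (nat_lit 137) (C.ref (nat_lit 93) (nat_lit 654568599840)) C.nil)) (C.cons (nat_lit 141) (C.node (nat_lit 0) (nat_lit 5) (nat_lit 7) (C.cons (nat_lit 161) (C.ref (nat_lit 83) (nat_lit 646514430480)) C.nil)) (C.cons (nat_lit 133) (C.node (nat_lit 0) (nat_lit 3) (nat_lit 7) (C.cons (nat_lit 169) (C.ref (nat_lit 93) (nat_lit 590144086320)) (C.cons (nat_lit 137) (C.node (nat_lit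 0) (nat_lit 5) (nat_lit 7) (C.cons (nat_lit 161) (C.node (nat_lit 0) (nat_lit 2) (nat_lit 3) (C.cons (nat_lit 45) (C.node (nat_lit 0) (nat_lit 2) (nat_lit 4) (C.cons (nat_lit 277) (C.node (nat_lit 0) (nat_lit 5) (nat_lit 8) C.nil) C.nil)) (C.cons (nat_lit 29) (C.node (nat_lit 0) (nat_lit 2) (nat_lit 5) (C.cons (nat_lit 293) (C.node (nat_lit 0) (nat_lit 4) (nat_lit 8) C.nil) C.nil)) C.nil))) C.nil)) C.nil))) C.nil)))) (C.cons (nat_lit 7) (C.node (nat_lit 0) (nat_lit 1) (nat_lit 9) (C.cons (nat_lit 515) (C.ref (nat_lit 97) (nat_lit 654820258320)) C.nil)) C.nil))) (List.cons (C.node (nat_lit 0) (nat_lit 2) (nat_lit 7) (C.cons (nat_lit 165) (C.node (nat_lit 0) (nat_lit 3) (nat_lit 7) (C.cons (nat_lit 137) (C.node (nat_lit 0) (nat_lit 2) (nat_lit 8) (C.cons (nat_lit 277) (C.node (nat_lit 0) (nat_lit 2) (nat_lit 9) C.nil) C.nil)) C.nil)) (C.cons (nat_lit 133) (C.node (nat_lit 0) (nat_lit 3) (nat_lit 7) (C.cons (nat_lit 169)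 (C.node (nat_lit 0) (nat_lit 3) (nat_lit 8) (C.cons (nat_lit 281) (C.node (nat_lit 0) (nat_lit 3) (nat_lit 9) C.nil) C.nil)) C.nil)) C.nil))) List.nil)))))))))))))))))))))

theorem ok10_79 : okL par10 (nat_lit 100) c10_79 (nat_lit 79) = true := by decide +kernel

noncomputable def c10_100 : List C :=
  (List.cons (C.node (nat_lit 0) (nat_lit 1) (nat_lit 2) (C.cons (nat_lit 519) (C.node (nat_lit 0) (nat_lit 1) (nat_lit 3) (C.cons (nat_lit 11) (C.ref (nat_lit 97) (nat_lit 590395745040)) C.nil)) (C.cons (nat_lit 15) (C.node (nat_lit 0) (nat_lit 1) (nat_lit 9) (C.cons (nat_lit 515) (C.ref (nat_lit 99) (nat_lit 654820258320)) C.nil)) (C.cons (nat_lit 7) (C.node (nat_lit 0) (nat_lit 1) (nat_lit 3) (C.cons (nat_lit 523) (C.ref (nat_lit 97) (nat_lit 590395748880)) (C.cons (nat_lit 11) (C.node (nat_lit 0) (nat_lit 1) (nat_lit 9) C.nil) C.nil))) C.nil)))) (List.cons (C.node (nat_lit 0) (nat_lit 1) (nat_lit 8) (C.cons (nat_lit 267)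 (C.ref (nat_lit 98) (nat_lit 654820258320)) (C.cons (nat_lit 263) (C.ref (nat_lit 98) (nat_lit 654820254480)) (C.cons (nat_lit 259) (C.ref (nat_lit 100) (nat_lit 654820258320)) C.nil)))) (List.cons (C.node (nat_lit 0) (nat_lit 1) (nat_lit 7) (C.cons (nat_lit 147) (C.ref (nat_lit 101) (nat_lit 654820258320)) (C.cons (nat_lit 139) (C.ref (nat_lit 101) (nat_lit 654820196880)) (C.cons (nat_lit 135) (C.ref (nat_lit 101) (nat_lit 654820131600)) (C.cons (nat_lit 131) (C.node (nat_lit 0) (nat_lit 1) (nat_lit 8) (C.cons (nat_lit 275) (C.ref (nat_lit 100) (nat_lit 650793726480)) (C.cons (nat_lit 267) (C.ref (nat_lit 100) (nat_lit 650793665040)) (C.cons (nat_lit 263) (C.ref (nat_lit 100) (nat_lit 650793599760)) (C.cons (nat_lit 259) (C.node (nat_lit 0) (nat_lit 1) (nat_lit 2) (C.cons (nat_lit 519) (C.node (nat_lit 0) (nat_lit 1) (nat_lit 3) (C.cons (nat_lit 27) (C.ref (nat_lit 99) (nat_lit 582342558480)) (C.cons (nat_lit 11) (C.node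 (nat_lit 0) (nat_lit 1) (nat_lit 4) C.nil) C.nil))) (C.cons (nat_lit 23) (C.node (nat_lit 0) (nat_lit 1) (nat_lit 3) (C.cons (nat_lit 523) (C.ref (nat_lit 99) (nat_lit 582342623760)) (C.cons (nat_lit 11) (C.node (nat_lit 0) (nat_lit 1) (nat_lit 9) C.nil) C.nil))) (C.cons (nat_lit 15) (C.node (nat_lit 0) (nat_lit 1) (nat_lit 4) (C.cons (nat_lit 531) (C.ref (nat_lit 99) (nat_lit 582342685200)) (C.cons (nat_lit 19) (C.node (nat_lit 0) (nat_lit 1) (nat_lit 9) C.nil) C.nil))) (C.cons (nat_lit 7) (C.node (nat_lit 0) (nat_lit 1) (nat_lit 3) (C.cons (nat_lit 523) (C.node (nat_lit 0) (nat_lit 1) (nat_lit 4) C.nil) (C.cons (nat_lit 27) (C.node (nat_lit 0) (nat_lit 1) (nat_lit 9) C.nil) C.nil))) C.nil))))) C.nil))))) C.nil))))) (List.cons (C.node (nat_lit 0) (nat_lit 3) (nat_lit 6) (C.cons (nat_lit 89) (C.ref (nat_lit 96) (nat_lit 654820254480)) (C.cons (nat_lit 73) (C.node (nat_lit 0) (nat_lit 4) (nat_lit 6) (C.cons (nat_lit 81)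 (C.ref (nat_lit 102) (nat_lit 654820258320)) C.nil)) C.nil))) (List.cons (C.node (nat_lit 0) (nat_lit 2) (nat_lit 6) (C.cons (nat_lit 85) (C.node (nat_lit 0) (nat_lit 3) (nat_lit 6) (C.cons (nat_lit 73) (C.ref (nat_lit 96) (nat_lit 654820258320)) C.nil)) (C.cons (nat_lit 77) (C.node (nat_lit 0) (nat_lit 4) (nat_lit 6) (C.cons (nat_lit 81) (C.ref (nat_lit 96) (nat_lit 654820196880)) C.nil)) (C.cons (nat_lit 69) (C.ref (nat_lit 103) (nat_lit 654820258320)) C.nil)))) (List.cons (C.node (nat_lit 0) (nat_lit 2) (nat_lit 7) (C.cons (nat_lit 149) (C.node (nat_lit 0) (nat_lit 3) (nat_lit 7) (C.cons (nat_lit 137) (C.ref (nat_lit 95) (nat_lit 654568600080)) C.nil)) (C.cons (nat_lit 141) (C.node (nat_lit 0) (nat_lit 4) (nat_lit 7) (C.cons (nat_lit 145) (C.ref (nat_lit 95) (nat_lit 654568538640)) C.nil)) (C.cons (nat_lit 133) (C.node (nat_lit 0) (nat_lit 3) (nat_lit 7) (C.cons (nat_lit 153) (C.ref (nat_lit 95) (nat_lit 654568596240))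 C.nil)) C.nil)))) (List.cons (C.big (C.cons (nat_lit 569) (C.ref (nat_lit 72) (nat_lit 654820258320)) (C.cons (nat_lit 565) (C.ref (nat_lit 72) (nat_lit 654820254480)) (C.cons (nat_lit 563) (C.ref (nat_lit 72) (nat_lit 654820250400)) (C.cons (nat_lit 557) (C.ref (nat_lit 72) (nat_lit 654820189200)) (C.cons (nat_lit 555) (C.ref (nat_lit 72) (nat_lit 654820185120)) (C.cons (nat_lit 551) (C.ref (nat_lit 72) (nat_lit 654820119600)) (C.cons (nat_lit 541) (C.ref (nat_lit 72) (nat_lit 654819140880)) (C.cons (nat_lit 539)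
  (C.ref (nat_lit 72) (nat_lit 654819136800)) (C.cons (nat_lit 535) (C.ref (nat_lit 72) (nat_lit 654819071280)) (C.cons (nat_lit 527) (C.ref (nat_lit 72) (nat_lit 654818022720)) (C.cons (nat_lit 313) (C.ref (nat_lit 72) (nat_lit 590395748880)) (C.cons (nat_lit 309) (C.ref (nat_lit 72) (nat_lit 590395745040)) (C.cons (nat_lit 307) (C.ref (nat_lit 72) (nat_lit 590395740960)) (C.cons (nat_lit 301) (C.ref (nat_lit 72) (nat_lit 590395679760)) (C.cons (nat_lit 299) (C.ref (nat_lit 72) (nat_lit 590395675680)) (C.cons (nat_lit 295) (C.ref (nat_lit 72) (nat_lit 590395610160)) (C.cons (nat_lit 285) (C.ref (nat_lit 72) (nat_lit 590394631440)) (C.cons (nat_lit 283) (C.ref (nat_lit 72) (nat_lit 590394627360)) (C.cons (nat_lit 279) (C.ref (nat_lit 72) (nat_lit 590394561840)) (C.cons (nat_lit 271) (C.ref (nat_lit 72) (nat_lit 590393513280)) (C.cons (nat_lit 185) (C.ref (nat_lit 72) (nat_lit 521944707600)) (C.cons (nat_lit 181) (C.ref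 (nat_lit 72) (nat_lit 521944703760)) (C.cons (nat_lit 179) (C.ref (nat_lit 72) (nat_lit 521944699680)) (C.cons (nat_lit 173) (C.ref (nat_lit 72) (nat_lit 521944638480)) (C.cons (nat_lit 171) (C.ref (nat_lit 72) (nat_lit 521944634400)) (C.cons (nat_lit 167) (C.ref (nat_lit 72) (nat_lit 521944568880)) (C.cons (nat_lit 157) (C.ref (nat_lit 72) (nat_lit 521943590160)) (C.cons (nat_lit 155) (C.ref (nat_lit 72) (nat_lit 521943586080)) (C.cons (nat_lit 151) (C.ref (nat_lit 72) (nat_lit 521943520560)) (C.cons (nat_lit 143) (C.ref (nat_lit 72) (nat_lit 521942472000)) (C.cons (nat_lit 121) (C.ref (nat_lit 72) (nat_lit 453242008080)) (C.cons (nat_lit 117) (C.ref (nat_lit 72) (nat_lit 453242004240)) (C.cons (nat_lit 115) (C.ref (nat_lit 72) (nat_lit 453242000160)) (C.cons (nat_lit 109) (C.ref (nat_lit 72) (nat_lit 453241938960)) (C.cons (nat_lit 107) (C.ref (nat_lit 72) (nat_lit 453241934880)) (C.cons (nat_lit 103) (C.ref (nat_lit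 72) (nat_lit 453241869360)) (C.cons (nat_lit 93) (C.ref (nat_lit 72) (nat_lit 453240890640)) (C.cons (nat_lit 91) (C.ref (nat_lit 72) (nat_lit 453240886560)) (C.cons (nat_lit 87) (C.ref (nat_lit 72) (nat_lit 453240821040)) (C.cons (nat_lit 79) (C.ref (nat_lit 72) (nat_lit 453239772480)) (C.cons (nat_lit 61) (C.ref (nat_lit 74) (nat_lit 654820258320)) (C.cons (nat_lit 59) (C.ref (nat_lit 74) (nat_lit 654820258080)) (C.cons (nat_lit 55) (C.ref (nat_lit 74) (nat_lit 654820254000)) (C.cons (nat_lit 47) (C.ref (nat_lit 74) (nat_lit 654820188480)) (C.cons (nat_lit 31) (C.ref (nat_lit 74) (nat_lit 654819139920)) C.nil))))))))))))))))))))))))))))))))))))))))))))) (C.node (nat_lit 0) (nat_lit 1) (nat_lit 6) (C.cons (nat_lit 99) (C.ref (nat_lit 104) (nat_lit 654820258320)) (C.cons (nat_lit 83) (C.ref (nat_lit 104) (nat_lit 654819275280)) (C.cons (nat_lit 75) (C.ref (nat_lit 104) (nat_lit 654818230800)) (C.cons (nat_lit 71) (C.ref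 (nat_lit 104) (nat_lit 654817182480)) (C.cons (nat_lit 67) (C.node (nat_lit 0) (nat_lit 2) (nat_lit 6) (C.cons (nat_lit 101) (C.ref (nat_lit 103) (nat_lit 654820258080)) (C.cons (nat_lit 85) (C.ref (nat_lit 103) (nat_lit 654819275040)) (C.cons (nat_lit 77) (C.ref (nat_lit 103) (nat_lit 654818230560)) (C.cons (nat_lit 69) (C.node (nat_lit 0) (nat_lit 3) (nat_lit 6) (C.cons (nat_lit 105) (C.node (nat_lit 0) (nat_lit 4) (nat_lit 6) (C.cons (nat_lit 81) (C.ref (nat_lit 102) (nat_lit 654820254000)) C.nil)) (C.cons (nat_lit 89) (C.node (nat_lit 0) (nat_lit 5) (nat_lit 6) (C.cons (nat_lit 97) (C.ref (nat_lit 102) (nat_lit 654819270960)) C.nil)) (C.cons (nat_lit 73) (C.node (nat_lit 0) (nat_lit 4) (nat_lit 6) (C.cons (nat_lit 113) (C.ref (nat_lit 102) (nat_lit 654820188480)) (C.cons (nat_lit 81) (C.node (nat_lit 0) (nat_lit 5) (nat_lit 6) (C.cons (nat_lit 97) (C.node (nat_lit 0) (nat_lit 1) (nat_lit 7) (C.cons (nat_lit 163) (C.ref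 (nat_lit 105) (nat_lit 654820258320)) (C.cons (nat_lit 147) (C.ref (nat_lit 105) (nat_lit 654819275280)) (C.cons (nat_lit 139) (C.ref (nat_lit 105) (nat_lit 654818230800)) (C.cons (nat_lit 135) (C.ref (nat_lit 105) (nat_lit 654817182480)) (C.cons (nat_lit 131)
  (C.node (nat_lit 0) (nat_lit 2) (nat_lit 7) (C.cons (nat_lit 165) (C.node (nat_lit 0) (nat_lit 3) (nat_lit 7) (C.cons (nat_lit 153) (C.ref (nat_lit 95) (nat_lit 654568592160)) C.nil)) (C.cons (nat_lit 149) (C.node (nat_lit 0) (nat_lit 3) (nat_lit 7) (C.cons (nat_lit 169) (C.ref (nat_lit 95) (nat_lit 654567609120)) C.nil)) (C.cons (nat_lit 141) (C.node (nat_lit 0) (nat_lit 4) (nat_lit 7) (C.cons (nat_lit 177) (C.ref (nat_lit 95) (nat_lit 654566560800)) C.nil)) C.nil)))) C.nil)))))) C.nil)) C.nil))) C.nil)))) C.nil))))) C.nil))))))) (List.cons (C.node (nat_lit 0) (nat_lit 5) (nat_lit 7) (C.cons (nat_lit 673) (C.pat (nat_lit 1) (nat_lit 896821537) (nat_lit 514041905177934135160085778177262241))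 (C.cons (nat_lit 161) (C.node (nat_lit 0) (nat_lit 5) (nat_lit 9) (C.cons (nat_lit 545) (C.node (nat_lit 0) (nat_lit 6) (nat_lit 7) (C.cons (nat_lit 449) (C.pat (nat_lit 1) (nat_lit 645158961) (nat_lit 514044123566479148112267791885205953)) (C.cons (nat_lit 193) (C.node (nat_lit 0) (nat_lit 6) (nat_lit 8) (C.cons (nat_lit 321) (C.node (nat_lit 0) (nat_lit 7) (nat_lit 8) (C.cons (nat_lit 897) (C.pat (nat_lit 2) (nat_lit 31231195425) (nat_lit 20003868146256833197780933235196054728622932025)) C.nil)) C.nil)) C.nil))) C.nil)) C.nil))) (List.cons (C.node (nat_lit 0) (nat_lit 6) (nat_lit 7) (C.cons (nat_lit 449) (C.pat (nat_lit 2) (nat_lit 19198601505) (nat_lit 12510817759841308009525781444028294893121503681)) (C.cons (nat_lit 193) (C.node (nat_lit 0) (nat_lit 6) (nat_lit 8) (C.cons (nat_lit 321) (C.node (nat_lit 0) (nat_lit 7) (nat_lit 8) (C.cons (nat_lit 897) (C.pat (nat_lit 3) (nat_lit 14904744225) (nat_lit 13046241175155663211725559034388628224797245959))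 C.nil)) C.nil)) C.nil))) (List.cons (C.node (nat_lit 0) (nat_lit 5) (nat_lit 7) (C.cons (nat_lit 673) (C.node (nat_lit 0) (nat_lit 8) (nat_lit 9) (C.cons (nat_lit 769) (C.node (nat_lit 0) (nat_lit 6) (nat_lit 8) (C.cons (nat_lit 449) (C.pat (nat_lit 1) (nat_lit 1733835026) (nat_lit 732149430852605656830617203730219681)) C.nil)) C.nil)) (C.cons (nat_lit 161) (C.node (nat_lit 0) (nat_lit 5) (nat_lit 9) C.nil) C.nil))) (List.cons (C.node (nat_lit 0) (nat_lit 6) (nat_lit 7) (C.cons (nat_lit 449) (C.node (nat_lit 0) (nat_lit 8) (nat_lit 4) (C.cons (nat_lit 785) (C.pat (nat_lit 1) (nat_lit 407054709) (nat_lit 1521364133539014149357160731010466577)) (C.cons (nat_lit 273) (C.node (nat_lit 0) (nat_lit 8) (nat_lit 9) (C.cons (nat_lit 769) (C.node (nat_lit 0) (nat_lit 4) (nat_lit 9) (C.cons (nat_lit 593) (C.pat (nat_lit 2) (nat_lit 18028721685) (nat_lit 13224518510663446398304715745330859991193813133)) C.nil)) C.nil)) C.nil))) (C.cons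 (nat_lit 193) (C.node (nat_lit 0) (nat_lit 7) (nat_lit 8) (C.cons (nat_lit 385) (C.node (nat_lit 0) (nat_lit 4) (nat_lit 8) (C.cons (nat_lit 337) (C.node (nat_lit 0) (nat_lit 4) (nat_lit 9) C.nil) (C.cons (nat_lit 785) (C.pat (nat_lit 1) (nat_lit 1417902369) (nat_lit 763272154532678583039567785848800017)) C.nil))) C.nil)) C.nil))) (List.cons (C.node (nat_lit 0) (nat_lit 3) (nat_lit 4) (C.cons (nat_lit 537) (C.node (nat_lit 0) (nat_lit 3) (nat_lit 6) C.nil) (C.cons (nat_lit 89) (C.node (nat_lit 0) (nat_lit 3) (nat_lit 9) C.nil) C.nil))) (List.cons (C.node (nat_lit 0) (nat_lit 4) (nat_lit 8) (C.cons (nat_lit 785) (C.ref (nat_lit 108) (nat_lit 581584634640)) (C.cons (nat_lit 273) (C.node (nat_lit 0) (nat_lit 4) (nat_lit 9) (C.cons (nat_lit 529) (C.node (nat_lit 0) (nat_lit 6) (nat_lit 9) (C.cons (nat_lit 833) (C.node (nat_lit 0) (nat_lit 6) (nat_lit 7) C.nil) (C.cons (nat_lit 705) (C.node (nat_lit 0) (nat_lit 6) (nat_lit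 8) C.nil) C.nil))) C.nil)) C.nil))) (List.cons (C.node (nat_lit 0) (nat_lit 4) (nat_lit 6) (C.cons (nat_lit 593) (C.node (nat_lit 0) (nat_lit 4) (nat_lit 8) C.nil) (C.cons (nat_lit 337) (C.node (nat_lit 0) (nat_lit 4) (nat_lit 9) C.nil) C.nil))) (List.cons (C.node (nat_lit 0) (nat_lit 3) (nat_lit 4) (C.cons (nat_lit 89) (C.ref (nat_lit 112) (nat_lit 654820258320)) (C.cons (nat_lit 25) (C.node (nat_lit 0) (nat_lit 3) (nat_lit 6) (C.cons (nat_lit 73)
  (C.ref (nat_lit 113) (nat_lit 654820258320)) C.nil)) C.nil))) (List.cons (C.node (nat_lit 0) (nat_lit 3) (nat_lit 6) (C.cons (nat_lit 585) (C.node (nat_lit 0) (nat_lit 4) (nat_lit 6) (C.cons (nat_lit 337) (C.node (nat_lit 0) (nat_lit 4) (nat_lit 9) (C.cons (nat_lit 529) (C.node (nat_lit 0) (nat_lit 6) (nat_lit 7) (C.cons (nat_lit 193) (C.node (nat_lit 0) (nat_lit 7) (nat_lit 9) (C.cons (nat_lit 897) (C.pat (nat_lit 3) (nat_lit 10625509425) (nat_lit 6534423577184719035737784902300378328006328587))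 C.nil)) C.nil)) C.nil)) (C.cons (nat_lit 81) (C.node (nat_lit 0) (nat_lit 4) (nat_lit 8) (C.cons (nat_lit 785) (C.node (nat_lit 0) (nat_lit 7) (nat_lit 9) (C.cons (nat_lit 641) (C.node (nat_lit 0) (nat_lit 6) (nat_lit 7) (C.cons (nat_lit 449) (C.qs C.nil) C.nil)) C.nil)) (C.cons (nat_lit 273) (C.node (nat_lit 0) (nat_lit 4) (nat_lit 9) C.nil) C.nil))) C.nil))) (C.cons (nat_lit 73) (C.node (nat_lit 0) (nat_lit 3) (nat_lit 9) (C.cons (nat_lit 521) (C.ref (nat_lit 111) (nat_lit 581316264720)) C.nil)) C.nil))) (List.cons (C.node (nat_lit 0) (nat_lit 3) (nat_lit 4) (C.cons (nat_lit 89) (C.node (nat_lit 0) (nat_lit 3) (nat_lit 9) (C.cons (nat_lit 521) (C.node (nat_lit 0) (nat_lit 4) (nat_lit 8) (C.cons (nat_lit 273) (C.node (nat_lit 0) (nat_lit 6) (nat_lit 7) (C.cons (nat_lit 705) (C.node (nat_lit 0) (nat_lit 6) (nat_lit 8) C.nil) (C.cons (nat_lit 449) (C.node (nat_lit 0) (nat_lit 7) (nat_lit 9) C.nil) C.nil))) C.nil)) C.nil))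 (C.cons (nat_lit 25) (C.node (nat_lit 0) (nat_lit 3) (nat_lit 6) (C.cons (nat_lit 585) (C.node (nat_lit 0) (nat_lit 4) (nat_lit 6) (C.cons (nat_lit 337) (C.node (nat_lit 0) (nat_lit 6) (nat_lit 7) (C.cons (nat_lit 193) (C.node (nat_lit 0) (nat_lit 7) (nat_lit 8) (C.cons (nat_lit 897) (C.pat (nat_lit 2) (nat_lit 31224927105) (nat_lit 3144504777476200807621567567302800306606899761)) C.nil)) C.nil)) (C.cons (nat_lit 81) (C.node (nat_lit 0) (nat_lit 4) (nat_lit 8) C.nil) C.nil))) (C.cons (nat_lit 73) (C.node (nat_lit 0) (nat_lit 3) (nat_lit 9) C.nil) C.nil))) C.nil))) (List.cons (C.node (nat_lit 0) (nat_lit 3) (nat_lit 4) (C.cons (nat_lit 537) (C.node (nat_lit 0) (nat_lit 3) (nat_lit 6) C.nil) (C.cons (nat_lit 89) (C.node (nat_lit 0) (nat_lit 3) (nat_lit 9) C.nil) C.nil))) (List.cons (C.node (nat_lit 0) (nat_lit 5) (nat_lit 7) (C.cons (nat_lit 673) (C.node (nat_lit 0) (nat_lit 3) (nat_lit 5) (C.cons (nat_lit 57) (C.node (nat_lit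 0) (nat_lit 3) (nat_lit 6) (C.cons (nat_lit 585) (C.ref (nat_lit 107) (nat_lit 431802691920)) (C.cons (nat_lit 73) (C.node (nat_lit 0) (nat_lit 3) (nat_lit 9) (C.cons (nat_lit 521) (C.ref (nat_lit 110) (nat_lit 654820258320)) C.nil)) C.nil))) (C.cons (nat_lit 41) (C.node (nat_lit 0) (nat_lit 4) (nat_lit 5) (C.cons (nat_lit 49) (C.node (nat_lit 0) (nat_lit 6) (nat_lit 7) (C.cons (nat_lit 449) (C.ref (nat_lit 110) (nat_lit 453193704720)) (C.cons (nat_lit 193) (C.node (nat_lit 0) (nat_lit 7) (nat_lit 8) (C.cons (nat_lit 385) (C.ref (nat_lit 111) (nat_lit 654820258320)) C.nil)) C.nil))) C.nil)) C.nil))) (C.cons (nat_lit 161) (C.node (nat_lit 0) (nat_lit 3) (nat_lit 5) (C.cons (nat_lit 553) (C.node (nat_lit 0) (nat_lit 4) (nat_lit 5) (C.cons (nat_lit 49) (C.ref (nat_lit 114) (nat_lit 654820258320)) C.nil)) (C.cons (nat_lit 57) (C.node (nat_lit 0) (nat_lit 5) (nat_lit 9) (C.cons (nat_lit 545) (C.ref (nat_lit 115) (nat_lit 654820258320))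 C.nil)) (C.cons (nat_lit 41) (C.node (nat_lit 0) (nat_lit 4) (nat_lit 5) (C.cons (nat_lit 561) (C.ref (nat_lit 116) (nat_lit 654820258320)) (C.cons (nat_lit 49) (C.node (nat_lit 0) (nat_lit 5) (nat_lit 9) (C.cons (nat_lit 545) (C.ref (nat_lit 117) (nat_lit 654820258320)) C.nil)) C.nil))) C.nil)))) C.nil))) (List.cons (C.node (nat_lit 0) (nat_lit 2) (nat_lit 4) (C.cons (nat_lit 85) (C.node (nat_lit 0) (nat_lit 3) (nat_lit 6) (C.cons (nat_lit 585) (C.node (nat_lit 0) (nat_lit 3) (nat_lit 4) (C.cons (nat_lit 57) (C.node (nat_lit 0) (nat_lit 4) (nat_lit 8) (C.cons (nat_lit 785) (C.pat (nat_lit 1) (nat_lit 1130727713) (nat_lit 1386347777353760426744759104328499785))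
  (C.cons (nat_lit 273) (C.node (nat_lit 0) (nat_lit 4) (nat_lit 9) (C.cons (nat_lit 529) (C.ref (nat_lit 107) (nat_lit 654820258320)) C.nil)) C.nil))) (C.cons (nat_lit 25) (C.node (nat_lit 0) (nat_lit 3) (nat_lit 5) (C.cons (nat_lit 41) (C.node (nat_lit 0) (nat_lit 4) (nat_lit 5) (C.cons (nat_lit 561) (C.node (nat_lit 0) (nat_lit 4) (nat_lit 8) (C.cons (nat_lit 273) (C.node (nat_lit 0) (nat_lit 5) (nat_lit 7) (C.cons (nat_lit 161) (C.ref (nat_lit 108) (nat_lit 654820258320)) C.nil)) C.nil)) (C.cons (nat_lit 49) (C.node (nat_lit 0) (nat_lit 4) (nat_lit 8) (C.cons (nat_lit 785) (C.node (nat_lit 0) (nat_lit 5) (nat_lit 7) (C.cons (nat_lit 673) (C.node (nat_lit 0) (nat_lit 6) (nat_lit 7) (C.cons (nat_lit 449) (C.pat (nat_lit 1) (nat_lit 1749498145) (nat_lit 1386378834851490768357783232022643473)) (C.cons (nat_lit 193) (C.node (nat_lit 0) (nat_lit 6) (nat_lit 8) (C.cons (nat_lit 321) (C.node (nat_lit 0) (nat_lit 7) (nat_lit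 8) (C.cons (nat_lit 385) (C.qs C.nil) C.nil)) C.nil)) C.nil))) (C.cons (nat_lit 161) (C.node (nat_lit 0) (nat_lit 5) (nat_lit 9) (C.cons (nat_lit 545) (C.node (nat_lit 0) (nat_lit 7) (nat_lit 9) (C.cons (nat_lit 641) (C.node (nat_lit 0) (nat_lit 6) (nat_lit 7) (C.cons (nat_lit 449) (C.pat (nat_lit 1) (nat_lit 1749498145) (nat_lit 1386378834851490768357783232022643473)) C.nil)) C.nil)) C.nil)) C.nil))) (C.cons (nat_lit 273) (C.node (nat_lit 0) (nat_lit 4) (nat_lit 9) (C.cons (nat_lit 529) (C.ref (nat_lit 109) (nat_lit 654820258320)) C.nil)) C.nil))) C.nil))) C.nil)) C.nil))) (C.cons (nat_lit 73) (C.node (nat_lit 0) (nat_lit 4) (nat_lit 8) (C.cons (nat_lit 785) (C.node (nat_lit 0) (nat_lit 3) (nat_lit 4) (C.cons (nat_lit 57) (C.node (nat_lit 0) (nat_lit 3) (nat_lit 9) (C.cons (nat_lit 521) (C.ref (nat_lit 107) (nat_lit 646263816480)) C.nil)) (C.cons (nat_lit 25) (C.node (nat_lit 0) (nat_lit 4) (nat_lit 5) (C.cons (nat_lit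 49) (C.node (nat_lit 0) (nat_lit 3) (nat_lit 5) (C.cons (nat_lit 553) (C.node (nat_lit 0) (nat_lit 5) (nat_lit 7) (C.cons (nat_lit 161) (C.ref (nat_lit 108) (nat_lit 646263816480)) C.nil)) (C.cons (nat_lit 41) (C.node (nat_lit 0) (nat_lit 3) (nat_lit 9) (C.cons (nat_lit 521) (C.ref (nat_lit 109) (nat_lit 646263816480)) C.nil)) C.nil))) C.nil)) C.nil))) (C.cons (nat_lit 273) (C.node (nat_lit 0) (nat_lit 5) (nat_lit 7) (C.cons (nat_lit 673) (C.node (nat_lit 0) (nat_lit 3) (nat_lit 5) (C.cons (nat_lit 57) (C.node (nat_lit 0) (nat_lit 3) (nat_lit 9) (C.cons (nat_lit 521) (C.node (nat_lit 0) (nat_lit 4) (nat_lit 9) (C.cons (nat_lit 529) (C.node (nat_lit 0) (nat_lit 7) (nat_lit 8) (C.cons (nat_lit 449) (C.pat (nat_lit 1) (nat_lit 662914641) (nat_lit 763278809698318934558408498432508353)) (C.cons (nat_lit 385) (C.node (nat_lit 0) (nat_lit 7) (nat_lit 6) (C.cons (nat_lit 193) (C.node (nat_lit 0) (nat_lit 8) (nat_lit 6) (C.cons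 (nat_lit 833) (C.pat (nat_lit 2) (nat_lit 35238926625) (nat_lit 18576549675109334428387287084954122087416922169)) C.nil)) C.nil)) C.nil))) C.nil)) C.nil)) (C.cons (nat_lit 41) (C.node (nat_lit 0) (nat_lit 4) (nat_lit 5) (C.cons (nat_lit 49) (C.node (nat_lit 0) (nat_lit 3) (nat_lit 4) (C.cons (nat_lit 537) (C.ref (nat_lit 108) (nat_lit 654566510880)) (C.cons (nat_lit 25) (C.node (nat_lit 0) (nat_lit 3) (nat_lit 9) (C.cons (nat_lit 521) (C.node (nat_lit 0) (nat_lit 4) (nat_lit 9) C.nil) C.nil)) C.nil))) C.nil)) C.nil))) (C.cons (nat_lit 161) (C.node (nat_lit 0) (nat_lit 3) (nat_lit 4) (C.cons (nat_lit 537) (C.node (nat_lit 0) (nat_lit 3) (nat_lit 5) (C.cons (nat_lit 41) (C.node (nat_lit 0) (nat_lit 4) (nat_lit 5) (C.cons (nat_lit 49) (C.node (nat_lit 0) (nat_lit 5) (nat_lit 9) (C.cons (nat_lit 545) (C.node (nat_lit 0) (nat_lit 6) (nat_lit 7) (C.cons (nat_lit 705) (C.node (nat_lit 0) (nat_lit 6) (nat_lit 8) C.nil) (C.cons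 (nat_lit 449) (C.node (nat_lit 0) (nat_lit 6) (nat_lit 9) C.nil) C.nil))) C.nil)) C.nil)) C.nil)) (C.cons (nat_lit 57) (C.node (nat_lit 0) (nat_lit 3) (nat_lit 9) (C.cons (nat_lit 521) (C.node (nat_lit 0) (nat_lit 4) (nat_lit 9) (C.cons (nat_lit 529)
  (C.node (nat_lit 0) (nat_lit 5) (nat_lit 9) (C.cons (nat_lit 545) (C.node (nat_lit 0) (nat_lit 6) (nat_lit 7) (C.cons (nat_lit 705) (C.node (nat_lit 0) (nat_lit 6) (nat_lit 8) C.nil) (C.cons (nat_lit 449) (C.pat (nat_lit 1) (nat_lit 645158961) (nat_lit 514044123566479148112267791885205953)) C.nil))) C.nil)) C.nil)) C.nil)) (C.cons (nat_lit 25) (C.node (nat_lit 0) (nat_lit 3) (nat_lit 5) (C.cons (nat_lit 553) (C.node (nat_lit 0) (nat_lit 5) (nat_lit 4) (C.cons (nat_lit 49) (C.node (nat_lit 0) (nat_lit 4) (nat_lit 9) (C.cons (nat_lit 529) (C.node (nat_lit 0) (nat_lit 6) (nat_lit 8) (C.cons (nat_lit 833) (C.node (nat_lit 0) (nat_lit 6) (nat_lit 7) C.nil) (C.cons (nat_lit 449)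 (C.node (nat_lit 0) (nat_lit 6) (nat_lit 9) C.nil) C.nil))) C.nil)) C.nil)) (C.cons (nat_lit 41) (C.node (nat_lit 0) (nat_lit 3) (nat_lit 9) (C.cons (nat_lit 521) (C.node (nat_lit 0) (nat_lit 4) (nat_lit 5) (C.cons (nat_lit 561) (C.node (nat_lit 0) (nat_lit 7) (nat_lit 6) (C.cons (nat_lit 705) (C.node (nat_lit 0) (nat_lit 7) (nat_lit 8) C.nil) (C.cons (nat_lit 449) (C.node (nat_lit 0) (nat_lit 7) (nat_lit 9) C.nil) C.nil))) C.nil)) C.nil)) C.nil))) C.nil)))) C.nil))) C.nil))) C.nil))) (C.cons (nat_lit 21) (C.node (nat_lit 0) (nat_lit 2) (nat_lit 6) (C.cons (nat_lit 69) (C.ref (nat_lit 118) (nat_lit 654820258320)) C.nil)) C.nil))) (List.cons (C.node (nat_lit 0) (nat_lit 3) (nat_lit 4) (C.cons (nat_lit 89) (C.node (nat_lit 0) (nat_lit 4) (nat_lit 9) (C.cons (nat_lit 529) (C.ref (nat_lit 112) (nat_lit 517917184560)) C.nil)) (C.cons (nat_lit 25) (C.node (nat_lit 0) (nat_lit 3) (nat_lit 6) (C.cons (nat_lit 73) (C.node (nat_lit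 0) (nat_lit 4) (nat_lit 6) (C.cons (nat_lit 593) (C.node (nat_lit 0) (nat_lit 5) (nat_lit 7) (C.cons (nat_lit 417) (C.node (nat_lit 0) (nat_lit 6) (nat_lit 7) (C.cons (nat_lit 193) (C.node (nat_lit 0) (nat_lit 6) (nat_lit 8) C.nil) C.nil)) (C.cons (nat_lit 161) (C.node (nat_lit 0) (nat_lit 5) (nat_lit 8) C.nil) C.nil))) (C.cons (nat_lit 81) (C.node (nat_lit 0) (nat_lit 4) (nat_lit 9) C.nil) C.nil))) C.nil)) C.nil))) (List.cons (C.node (nat_lit 0) (nat_lit 3) (nat_lit 5) (C.cons (nat_lit 553) (C.node (nat_lit 0) (nat_lit 4) (nat_lit 5) (C.cons (nat_lit 49) (C.ref (nat_lit 120) (nat_lit 654820258320)) C.nil)) (C.cons (nat_lit 57) (C.node (nat_lit 0) (nat_lit 3) (nat_lit 6) (C.cons (nat_lit 585) (C.node (nat_lit 0) (nat_lit 4) (nat_lit 6) (C.cons (nat_lit 81) (C.node (nat_lit 0) (nat_lit 4) (nat_lit 9) (C.cons (nat_lit 529) (C.ref (nat_lit 112) (nat_lit 517900472880)) C.nil)) C.nil)) (C.cons (nat_lit 73) (C.node (nat_lit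 0) (nat_lit 3) (nat_lit 9) (C.cons (nat_lit 521) (C.ref (nat_lit 114) (nat_lit 581316264720)) C.nil)) C.nil))) (C.cons (nat_lit 41) (C.node (nat_lit 0) (nat_lit 4) (nat_lit 5) (C.cons (nat_lit 561) (C.ref (nat_lit 120) (nat_lit 650793665040)) (C.cons (nat_lit 49) (C.node (nat_lit 0) (nat_lit 3) (nat_lit 4) (C.cons (nat_lit 537) (C.node (nat_lit 0) (nat_lit 3) (nat_lit 6) (C.cons (nat_lit 73) (C.node (nat_lit 0) (nat_lit 4) (nat_lit 6) (C.cons (nat_lit 81) (C.node (nat_lit 0) (nat_lit 5) (nat_lit 7) (C.cons (nat_lit 673) (C.node (nat_lit 0) (nat_lit 5) (nat_lit 8) C.nil) (C.cons (nat_lit 417) (C.node (nat_lit 0) (nat_lit 5) (nat_lit 9) C.nil) C.nil))) C.nil)) C.nil)) (C.cons (nat_lit 89) (C.node (nat_lit 0) (nat_lit 3) (nat_lit 9) (C.cons (nat_lit 521) (C.node (nat_lit 0) (nat_lit 4) (nat_lit 9) (C.cons (nat_lit 529) (C.ref (nat_lit 113) (nat_lit 581584634640)) C.nil)) C.nil)) (C.cons (nat_lit 25) (C.node (nat_lit 0) (nat_lit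 3) (nat_lit 6) (C.cons (nat_lit 585) (C.node (nat_lit 0) (nat_lit 4) (nat_lit 6) (C.cons (nat_lit 81) (C.node (nat_lit 0) (nat_lit 4) (nat_lit 9) C.nil) C.nil)) (C.cons (nat_lit 73) (C.node (nat_lit 0) (nat_lit 3) (nat_lit 9) C.nil) C.nil))) C.nil)))) C.nil))) C.nil)))) (List.cons (C.node (nat_lit 0) (nat_lit 4) (nat_lit 5) (C.cons (nat_lit 305) (C.node (nat_lit 0) (nat_lit 4) (nat_lit 9) (C.cons (nat_lit 529) (C.node (nat_lit 0) (nat_lit 5) (nat_lit 7) (C.cons (nat_lit 161)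
  (C.node (nat_lit 0) (nat_lit 7) (nat_lit 6) (C.cons (nat_lit 449) (C.node (nat_lit 0) (nat_lit 7) (nat_lit 9) C.nil) (C.cons (nat_lit 705) (C.node (nat_lit 0) (nat_lit 7) (nat_lit 8) C.nil) C.nil))) C.nil)) C.nil)) (C.cons (nat_lit 49) (C.node (nat_lit 0) (nat_lit 4) (nat_lit 8) (C.cons (nat_lit 785) (C.ref (nat_lit 109) (nat_lit 577561051440)) (C.cons (nat_lit 273) (C.node (nat_lit 0) (nat_lit 4) (nat_lit 9) C.nil) C.nil))) C.nil))) List.nil)))))))))))))))))))))))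

theorem ok10_100 : okL par10 (nat_lit 123) c10_100 (nat_lit 100) = true := by decide +kernel

noncomputable def c10_123 : List C :=
  (List.cons (C.node (nat_lit 0) (nat_lit 3) (nat_lit 5) (C.cons (nat_lit 553) (C.node (nat_lit 0) (nat_lit 3) (nat_lit 4) (C.cons (nat_lit 89) (C.ref (nat_lit 122) (nat_lit 654820258320)) (C.cons (nat_lit 25) (C.node (nat_lit 0) (nat_lit 3) (nat_lit 6) (C.cons (nat_lit 73) (C.node (nat_lit 0) (nat_lit 4) (nat_lit 5) (C.cons (nat_lit 305) (C.node (nat_lit 0) (nat_lit 5) (nat_lit 7) C.nil) C.nil)) C.nil)) C.nil))) (C.cons (nat_lit 57) (C.node (nat_lit 0) (nat_lit 3) (nat_lit 6) (C.cons (nat_lit 585) (C.ref (nat_lit 122) (nat_lit 654804529680)) (C.cons (nat_lit 73) (C.node (nat_lit 0) (nat_lit 3) (nat_lit 9) (C.cons (nat_lit 521) (C.ref (nat_lit 117) (nat_lit 581316264720)) C.nil)) C.nil))) (C.cons (nat_lit 41) (C.node (nat_lit 0) (nat_lit 3) (nat_lit 4) (C.cons (nat_lit 537) (C.node (nat_lit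 0) (nat_lit 3) (nat_lit 6) (C.cons (nat_lit 73) (C.node (nat_lit 0) (nat_lit 4) (nat_lit 5) (C.cons (nat_lit 305) (C.node (nat_lit 0) (nat_lit 4) (nat_lit 6) C.nil) C.nil)) C.nil)) (C.cons (nat_lit 89) (C.node (nat_lit 0) (nat_lit 3) (nat_lit 9) (C.cons (nat_lit 521) (C.ref (nat_lit 117) (nat_lit 581584634640)) C.nil)) (C.cons (nat_lit 25) (C.node (nat_lit 0) (nat_lit 3) (nat_lit 6) (C.cons (nat_lit 585) (C.node (nat_lit 0) (nat_lit 4) (nat_lit 6) (C.cons (nat_lit 337) (C.node (nat_lit 0) (nat_lit 6) (nat_lit 7) C.nil) C.nil)) C.nil)) C.nil)))) C.nil)))) (List.cons (C.node (nat_lit 0) (nat_lit 2) (nat_lit 6) (C.cons (nat_lit 325) (C.ref (nat_lit 118) (nat_lit 654804529680)) (C.cons (nat_lit 69) (C.node (nat_lit 0) (nat_lit 2) (nat_lit 8) (C.cons (nat_lit 261) (C.ref (nat_lit 123) (nat_lit 654820258320)) C.nil)) C.nil))) (List.cons (C.node (nat_lit 0) (nat_lit 2) (nat_lit 4) (C.cons (nat_lit 277) (C.node (nat_lit 0) (nat_lit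 2) (nat_lit 6) (C.cons (nat_lit 69) (C.ref (nat_lit 121) (nat_lit 654820258320)) C.nil)) (C.cons (nat_lit 85) (C.node (nat_lit 0) (nat_lit 2) (nat_lit 8) (C.cons (nat_lit 261) (C.ref (nat_lit 118) (nat_lit 650288382480)) C.nil)) (C.cons (nat_lit 21) (C.ref (nat_lit 124) (nat_lit 654820258320)) C.nil)))) (List.cons (C.node (nat_lit 0) (nat_lit 2) (nat_lit 5) (C.cons (nat_lit 293) (C.ref (nat_lit 119) (nat_lit 654820258320)) (C.cons (nat_lit 53) (C.ref (nat_lit 119) (nat_lit 650020012560)) (C.cons (nat_lit 37) (C.ref (nat_lit 125) (nat_lit 654820258320)) C.nil)))) (List.cons (C.node (nat_lit 0) (nat_lit 3) (nat_lit 4) (C.cons (nat_lit 537) (C.node (nat_lit 0) (nat_lit 3) (nat_lit 5) (C.cons (nat_lit 169) (C.node (nat_lit 0) (nat_lit 3) (nat_lit 6) C.nil) C.nil)) (C.cons (nat_lit 89) (C.node (nat_lit 0) (nat_lit 3) (nat_lit 5) (C.cons (nat_lit 553) (C.node (nat_lit 0) (nat_lit 3) (nat_lit 7) C.nil) (C.cons (nat_lit 169) (C.node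 (nat_lit 0) (nat_lit 3) (nat_lit 9) C.nil) C.nil))) (C.cons (nat_lit 57) (C.node (nat_lit 0) (nat_lit 3) (nat_lit 6) (C.cons (nat_lit 585) (C.node (nat_lit 0) (nat_lit 3) (nat_lit 7) C.nil) (C.cons (nat_lit 201) (C.node (nat_lit 0) (nat_lit 3) (nat_lit 9) C.nil) C.nil))) C.nil)))) (List.cons (C.node (nat_lit 0) (nat_lit 3) (nat_lit 5) (C.cons (nat_lit 553) (C.node (nat_lit 0) (nat_lit 4) (nat_lit 5) (C.cons (nat_lit 49) (C.node (nat_lit 0) (nat_lit 4) (nat_lit 9) (C.cons (nat_lit 529) (C.ref (nat_lit 113) (nat_lit 582341697840)) C.nil)) C.nil)) (C.cons (nat_lit 41) (C.node (nat_lit 0) (nat_lit 3) (nat_lit 9) (C.cons (nat_lit 521) (C.node (nat_lit 0) (nat_lit 4) (nat_lit 5) (C.cons (nat_lit 561) (C.ref (nat_lit 113) (nat_lit 582340645440)) C.nil)) C.nil)) C.nil))) (List.cons (C.node (nat_lit 0) (nat_lit 4) (nat_lit 5) (C.cons (nat_lit 561) (C.node (nat_lit 0) (nat_lit 4) (nat_lit 8) C.nil) (C.cons (nat_lit 305) (C.node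 (nat_lit 0) (nat_lit 4) (nat_lit 9) C.nil) C.nil))) (List.cons (C.node (nat_lit 0) (nat_lit 3) (nat_lit 4) (C.cons (nat_lit 537) (C.node (nat_lit 0) (nat_lit 3) (nat_lit 5) (C.cons (nat_lit 105) (C.ref (nat_lit 114) (nat_lit 521437266480)) (C.cons (nat_lit 41) (C.node (nat_lit 0) (nat_lit 3) (nat_lit 6) (C.cons (nat_lit 73) (C.node (nat_lit 0) (nat_lit 4) (nat_lit 5)
  (C.cons (nat_lit 305) (C.ref (nat_lit 113) (nat_lit 650790638400)) C.nil)) C.nil)) C.nil))) (C.cons (nat_lit 57) (C.node (nat_lit 0) (nat_lit 3) (nat_lit 6) (C.cons (nat_lit 585) (C.node (nat_lit 0) (nat_lit 8) (nat_lit 4) (C.cons (nat_lit 785) (C.ref (nat_lit 110) (nat_lit 582324986160)) (C.cons (nat_lit 273) (C.node (nat_lit 0) (nat_lit 4) (nat_lit 9) (C.cons (nat_lit 529) (C.ref (nat_lit 111) (nat_lit 520900403760)) C.nil)) C.nil))) (C.cons (nat_lit 73) (C.node (nat_lit 0) (nat_lit 3) (nat_lit 9) (C.cons (nat_lit 521) (C.node (nat_lit 0) (nat_lit 4) (nat_lit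 8) (C.cons (nat_lit 785) (C.ref (nat_lit 111) (nat_lit 520599470400)) C.nil)) C.nil)) C.nil))) (C.cons (nat_lit 25) (C.node (nat_lit 0) (nat_lit 3) (nat_lit 5) (C.cons (nat_lit 553) (C.node (nat_lit 0) (nat_lit 3) (nat_lit 6) (C.cons (nat_lit 73) (C.node (nat_lit 0) (nat_lit 4) (nat_lit 5) (C.cons (nat_lit 305) (C.node (nat_lit 0) (nat_lit 4) (nat_lit 9) C.nil) C.nil)) C.nil)) (C.cons (nat_lit 105) (C.node (nat_lit 0) (nat_lit 3) (nat_lit 9) (C.cons (nat_lit 521) (C.ref (nat_lit 129) (nat_lit 654820258320)) C.nil)) (C.cons (nat_lit 41) (C.node (nat_lit 0) (nat_lit 3) (nat_lit 6) (C.cons (nat_lit 585) (C.node (nat_lit 0) (nat_lit 4) (nat_lit 5) (C.cons (nat_lit 561) (C.node (nat_lit 0) (nat_lit 4) (nat_lit 8) C.nil) (C.cons (nat_lit 305) (C.node (nat_lit 0) (nat_lit 4) (nat_lit 9) C.nil) C.nil))) C.nil)) C.nil)))) C.nil)))) (List.cons (C.node (nat_lit 0) (nat_lit 2) (nat_lit 5) (C.cons (nat_lit 293) (C.ref (nat_lit 118)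 (nat_lit 650792743200)) (C.cons (nat_lit 37) (C.node (nat_lit 0) (nat_lit 2) (nat_lit 8) (C.cons (nat_lit 261) (C.ref (nat_lit 130) (nat_lit 654820258320)) C.nil)) C.nil))) (List.cons (C.node (nat_lit 0) (nat_lit 3) (nat_lit 5) (C.cons (nat_lit 553) (C.node (nat_lit 0) (nat_lit 3) (nat_lit 4) (C.cons (nat_lit 89) (C.ref (nat_lit 116) (nat_lit 521437205040)) (C.cons (nat_lit 25) (C.node (nat_lit 0) (nat_lit 3) (nat_lit 6) (C.cons (nat_lit 73) (C.node (nat_lit 0) (nat_lit 5) (nat_lit 4) (C.cons (nat_lit 305) (C.node (nat_lit 0) (nat_lit 5) (nat_lit 7) C.nil) C.nil)) C.nil)) C.nil))) (C.cons (nat_lit 57) (C.node (nat_lit 0) (nat_lit 3) (nat_lit 6) (C.cons (nat_lit 585) (C.ref (nat_lit 116) (nat_lit 521168773680)) (C.cons (nat_lit 73) (C.node (nat_lit 0) (nat_lit 3) (nat_lit 9) (C.cons (nat_lit 521) (C.ref (nat_lit 129) (nat_lit 590380016400)) C.nil)) C.nil))) (C.cons (nat_lit 41) (C.node (nat_lit 0) (nat_lit 3) (nat_lit 4)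 (C.cons (nat_lit 537) (C.node (nat_lit 0) (nat_lit 3) (nat_lit 6) (C.cons (nat_lit 73) (C.node (nat_lit 0) (nat_lit 4) (nat_lit 5) (C.cons (nat_lit 305) (C.node (nat_lit 0) (nat_lit 4) (nat_lit 6) C.nil) C.nil)) C.nil)) (C.cons (nat_lit 89) (C.node (nat_lit 0) (nat_lit 3) (nat_lit 9) (C.cons (nat_lit 521) (C.ref (nat_lit 129) (nat_lit 590395745040)) C.nil)) (C.cons (nat_lit 25) (C.node (nat_lit 0) (nat_lit 3) (nat_lit 6) (C.cons (nat_lit 585) (C.node (nat_lit 0) (nat_lit 6) (nat_lit 4) (C.cons (nat_lit 337) (C.node (nat_lit 0) (nat_lit 6) (nat_lit 7) C.nil) C.nil)) C.nil)) C.nil)))) C.nil)))) (List.cons (C.node (nat_lit 0) (nat_lit 3) (nat_lit 4) (C.cons (nat_lit 537) (C.node (nat_lit 0) (nat_lit 3) (nat_lit 5) (C.cons (nat_lit 105) (C.node (nat_lit 0) (nat_lit 4) (nat_lit 5) (C.cons (nat_lit 305) (C.node (nat_lit 0) (nat_lit 4) (nat_lit 6) C.nil) C.nil)) C.nil)) (C.cons (nat_lit 89) (C.node (nat_lit 0) (nat_lit 3) (nat_lit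 5) (C.cons (nat_lit 553) (C.node (nat_lit 0) (nat_lit 5) (nat_lit 4) (C.cons (nat_lit 305) (C.node (nat_lit 0) (nat_lit 4) (nat_lit 9) C.nil) C.nil)) C.nil)) (C.cons (nat_lit 57) (C.node (nat_lit 0) (nat_lit 3) (nat_lit 6) (C.cons (nat_lit 585) (C.node (nat_lit 0) (nat_lit 6) (nat_lit 4) (C.cons (nat_lit 337) (C.node (nat_lit 0) (nat_lit 4) (nat_lit 9) C.nil) C.nil)) C.nil)) C.nil)))) (List.cons (C.node (nat_lit 0) (nat_lit 2) (nat_lit 5) (C.cons (nat_lit 293) (C.node (nat_lit 0) (nat_lit 2) (nat_lit 6) (C.cons (nat_lit 69) (C.ref (nat_lit 130) (nat_lit 636551197200)) C.nil)) (C.cons (nat_lit 101)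
  (C.node (nat_lit 0) (nat_lit 2) (nat_lit 8) (C.cons (nat_lit 261) (C.ref (nat_lit 132) (nat_lit 654820258320)) C.nil)) (C.cons (nat_lit 37) (C.node (nat_lit 0) (nat_lit 2) (nat_lit 6) (C.cons (nat_lit 325) (C.ref (nat_lit 130) (nat_lit 636566925840)) (C.cons (nat_lit 69) (C.node (nat_lit 0) (nat_lit 2) (nat_lit 8) (C.cons (nat_lit 261) (C.ref (nat_lit 133) (nat_lit 654820258320)) C.nil)) C.nil))) C.nil)))) (List.cons (C.node (nat_lit 0) (nat_lit 2) (nat_lit 4) (C.cons (nat_lit 277) (C.node (nat_lit 0) (nat_lit 2) (nat_lit 5) (C.cons (nat_lit 101) (C.ref (nat_lit 121) (nat_lit 650793726240)) (C.cons (nat_lit 37) (C.node (nat_lit 0) (nat_lit 2) (nat_lit 6) (C.cons (nat_lit 69) (C.node (nat_lit 0) (nat_lit 3) (nat_lit 4) (C.cons (nat_lit 537) (C.node (nat_lit 0) (nat_lit 3) (nat_lit 5) (C.cons (nat_lit 105) (C.node (nat_lit 0) (nat_lit 4) (nat_lit 5) (C.cons (nat_lit 49) (C.node (nat_lit 0) (nat_lit 4) (nat_lit 6) (C.cons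 (nat_lit 81) (C.node (nat_lit 0) (nat_lit 5) (nat_lit 9) (C.cons (nat_lit 801) (C.node (nat_lit 0) (nat_lit 5) (nat_lit 7) C.nil) (C.cons (nat_lit 673) (C.node (nat_lit 0) (nat_lit 5) (nat_lit 8) C.nil) C.nil))) C.nil)) C.nil)) (C.cons (nat_lit 41) (C.node (nat_lit 0) (nat_lit 3) (nat_lit 6) (C.cons (nat_lit 73) (C.node (nat_lit 0) (nat_lit 4) (nat_lit 5) (C.cons (nat_lit 113) (C.node (nat_lit 0) (nat_lit 5) (nat_lit 7) (C.cons (nat_lit 673) (C.node (nat_lit 0) (nat_lit 5) (nat_lit 8) C.nil) (C.cons (nat_lit 417) (C.node (nat_lit 0) (nat_lit 5) (nat_lit 9) C.nil) C.nil))) C.nil)) C.nil)) C.nil))) (C.cons (nat_lit 89) (C.ref (nat_lit 128) (nat_lit 654820258320)) (C.cons (nat_lit 57) (C.ref (nat_lit 128) (nat_lit 654804529680)) (C.cons (nat_lit 25) (C.node (nat_lit 0) (nat_lit 3) (nat_lit 5) (C.cons (nat_lit 553) (C.node (nat_lit 0) (nat_lit 3) (nat_lit 6) (C.cons (nat_lit 73) (C.node (nat_lit 0) (nat_lit 4) (nat_lit 5)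 (C.cons (nat_lit 113) (C.node (nat_lit 0) (nat_lit 4) (nat_lit 9) C.nil) C.nil)) C.nil)) (C.cons (nat_lit 105) (C.node (nat_lit 0) (nat_lit 3) (nat_lit 9) (C.cons (nat_lit 521) (C.node (nat_lit 0) (nat_lit 4) (nat_lit 5) (C.cons (nat_lit 561) (C.node (nat_lit 0) (nat_lit 4) (nat_lit 6) C.nil) C.nil)) C.nil)) (C.cons (nat_lit 41) (C.node (nat_lit 0) (nat_lit 3) (nat_lit 6) (C.cons (nat_lit 585) (C.node (nat_lit 0) (nat_lit 4) (nat_lit 6) (C.cons (nat_lit 113) (C.node (nat_lit 0) (nat_lit 4) (nat_lit 9) C.nil) C.nil)) C.nil)) C.nil)))) C.nil))))) C.nil)) C.nil))) (C.cons (nat_lit 85) (C.ref (nat_lit 131) (nat_lit 654820258320)) (C.cons (nat_lit 53) (C.ref (nat_lit 131) (nat_lit 654804529680)) (C.cons (nat_lit 21) (C.ref (nat_lit 134) (nat_lit 654820258320)) C.nil))))) (List.cons (C.node (nat_lit 0) (nat_lit 3) (nat_lit 4) (C.cons (nat_lit 537) (C.node (nat_lit 0) (nat_lit 3) (nat_lit 5) (C.cons (nat_lit 169) (C.ref (nat_lit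 115) (nat_lit 590392672560)) (C.cons (nat_lit 41) (C.node (nat_lit 0) (nat_lit 3) (nat_lit 7) (C.cons (nat_lit 137) (C.node (nat_lit 0) (nat_lit 4) (nat_lit 6) (C.cons (nat_lit 337) (C.ref (nat_lit 111) (nat_lit 653490742080)) C.nil)) C.nil)) C.nil))) (C.cons (nat_lit 25) (C.node (nat_lit 0) (nat_lit 3) (nat_lit 5) (C.cons (nat_lit 553) (C.node (nat_lit 0) (nat_lit 3) (nat_lit 7) (C.cons (nat_lit 137) (C.ref (nat_lit 129) (nat_lit 449167299120)) C.nil)) (C.cons (nat_lit 169) (C.node (nat_lit 0) (nat_lit 3) (nat_lit 9) (C.cons (nat_lit 521) (C.node (nat_lit 0) (nat_lit 4) (nat_lit 6) (C.cons (nat_lit 593) (C.node (nat_lit 0) (nat_lit 4) (nat_lit 8) C.nil) (C.cons (nat_lit 337) (C.node (nat_lit 0) (nat_lit 4) (nat_lit 9) C.nil) C.nil))) C.nil)) (C.cons (nat_lit 41) (C.node (nat_lit 0) (nat_lit 3) (nat_lit 7) (C.cons (nat_lit 649) (C.ref (nat_lit 129) (nat_lit 578014355760)) C.nil)) C.nil)))) C.nil))) (List.cons (C.node (nat_lit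 0) (nat_lit 3) (nat_lit 4) (C.cons (nat_lit 537) (C.node (nat_lit 0) (nat_lit 3) (nat_lit 5) (C.cons (nat_lit 169) (C.ref (nat_lit 117) (nat_lit 590392672560)) C.nil)) (C.cons (nat_lit 57) (C.node (nat_lit 0) (nat_lit 3) (nat_lit 7) (C.cons (nat_lit 649)
  (C.ref (nat_lit 117) (nat_lit 589587378480)) C.nil)) C.nil))) (List.cons (C.node (nat_lit 0) (nat_lit 2) (nat_lit 5) (C.cons (nat_lit 293) (C.node (nat_lit 0) (nat_lit 2) (nat_lit 7) (C.cons (nat_lit 133) (C.ref (nat_lit 132) (nat_lit 646514553120)) C.nil)) (C.cons (nat_lit 165) (C.node (nat_lit 0) (nat_lit 2) (nat_lit 8) (C.cons (nat_lit 261) (C.ref (nat_lit 136) (nat_lit 654015148560)) C.nil)) (C.cons (nat_lit 37) (C.node (nat_lit 0) (nat_lit 2) (nat_lit 7) (C.cons (nat_lit 389) (C.ref (nat_lit 130) (nat_lit 646465401120)) (C.cons (nat_lit 133) (C.node (nat_lit 0) (nat_lit 2) (nat_lit 8) (C.cons (nat_lit 261) (C.ref (nat_lit 137) (nat_lit 654820258320)) C.nil)) C.nil)))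 C.nil)))) (List.cons (C.node (nat_lit 0) (nat_lit 2) (nat_lit 4) (C.cons (nat_lit 277) (C.ref (nat_lit 131) (nat_lit 650793665040)) (C.cons (nat_lit 53) (C.node (nat_lit 0) (nat_lit 2) (nat_lit 7) (C.cons (nat_lit 389) (C.ref (nat_lit 118) (nat_lit 654012936480)) (C.cons (nat_lit 133) (C.node (nat_lit 0) (nat_lit 2) (nat_lit 8) (C.cons (nat_lit 261) (C.ref (nat_lit 136) (nat_lit 654820258320)) C.nil)) C.nil))) (C.cons (nat_lit 21) (C.ref (nat_lit 138) (nat_lit 654820258320)) C.nil)))) (List.cons (C.node (nat_lit 0) (nat_lit 3) (nat_lit 4) (C.cons (nat_lit 537) (C.node (nat_lit 0) (nat_lit 3) (nat_lit 5) (C.cons (nat_lit 169) (C.node (nat_lit 0) (nat_lit 3) (nat_lit 6) C.nil) C.nil)) (C.cons (nat_lit 89) (C.node (nat_lit 0) (nat_lit 3) (nat_lit 5) (C.cons (nat_lit 553) (C.node (nat_lit 0) (nat_lit 3) (nat_lit 7) C.nil) (C.cons (nat_lit 169) (C.node (nat_lit 0) (nat_lit 3) (nat_lit 9) C.nil) C.nil))) (C.cons (nat_lit 57)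 (C.node (nat_lit 0) (nat_lit 3) (nat_lit 6) (C.cons (nat_lit 585) (C.node (nat_lit 0) (nat_lit 3) (nat_lit 7) C.nil) (C.cons (nat_lit 201) (C.node (nat_lit 0) (nat_lit 3) (nat_lit 9) C.nil) C.nil))) C.nil)))) (List.cons (C.node (nat_lit 0) (nat_lit 2) (nat_lit 3) (C.cons (nat_lit 141) (C.ref (nat_lit 135) (nat_lit 654820258320)) (C.cons (nat_lit 77) (C.ref (nat_lit 139) (nat_lit 654820258320)) (C.cons (nat_lit 45) (C.ref (nat_lit 139) (nat_lit 654804529680)) (C.cons (nat_lit 29) (C.ref (nat_lit 135) (nat_lit 654015148560)) (C.cons (nat_lit 13) (C.node (nat_lit 0) (nat_lit 2) (nat_lit 4) (C.cons (nat_lit 277) (C.ref (nat_lit 134) (nat_lit 650793665040)) (C.cons (nat_lit 85) (C.ref (nat_lit 138) (nat_lit 650793665040)) (C.cons (nat_lit 53) (C.ref (nat_lit 138) (nat_lit 650777936400)) (C.cons (nat_lit 21) (C.node (nat_lit 0) (nat_lit 2) (nat_lit 5) (C.cons (nat_lit 293) (C.node (nat_lit 0) (nat_lit 2) (nat_lit 6) (C.cons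 (nat_lit 197) (C.ref (nat_lit 136) (nat_lit 645658079520)) (C.cons (nat_lit 69) (C.node (nat_lit 0) (nat_lit 2) (nat_lit 7) (C.cons (nat_lit 133) (C.ref (nat_lit 137) (nat_lit 633329713680)) C.nil)) C.nil))) (C.cons (nat_lit 165) (C.node (nat_lit 0) (nat_lit 2) (nat_lit 6) (C.cons (nat_lit 325) (C.ref (nat_lit 136) (nat_lit 645642289440)) (C.cons (nat_lit 69) (C.node (nat_lit 0) (nat_lit 2) (nat_lit 8) (C.cons (nat_lit 261) (C.ref (nat_lit 137) (nat_lit 637893046800)) C.nil)) C.nil))) (C.cons (nat_lit 101) (C.node (nat_lit 0) (nat_lit 2) (nat_lit 7) (C.cons (nat_lit 389) (C.ref (nat_lit 132) (nat_lit 637908775440)) (C.cons (nat_lit 133) (C.node (nat_lit 0) (nat_lit 2) (nat_lit 8) (C.cons (nat_lit 261) (C.ref (nat_lit 140) (nat_lit 654820258320)) C.nil)) C.nil))) (C.cons (nat_lit 37) (C.node (nat_lit 0) (nat_lit 2) (nat_lit 6) (C.cons (nat_lit 325) (C.node (nat_lit 0) (nat_lit 2) (nat_lit 7) (C.cons (nat_lit 133) (C.ref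 (nat_lit 137) (nat_lit 633345442320)) C.nil)) (C.cons (nat_lit 197) (C.node (nat_lit 0) (nat_lit 2) (nat_lit 8) (C.cons (nat_lit 261) (C.ref (nat_lit 137) (nat_lit 637908775440)) C.nil)) (C.cons (nat_lit 69) (C.node (nat_lit 0) (nat_lit 2) (nat_lit 7) (C.cons (nat_lit 389) (C.ref (nat_lit 133) (nat_lit 637908775440)) C.nil)) C.nil)))) C.nil))))) C.nil))))) C.nil)))))) (List.cons (C.node (nat_lit 0) (nat_lit 1) (nat_lit 5) (C.cons (nat_lit 99) (C.node (nat_lit 0) (nat_lit 2) (nat_lit 3) (C.cons (nat_lit 141)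
  (C.ref (nat_lit 126) (nat_lit 654820258320)) (C.cons (nat_lit 77) (C.ref (nat_lit 126) (nat_lit 654567617040)) (C.cons (nat_lit 45) (C.ref (nat_lit 126) (nat_lit 654299247120)) (C.cons (nat_lit 29) (C.ref (nat_lit 126) (nat_lit 654015148560)) (C.cons (nat_lit 13) (C.node (nat_lit 0) (nat_lit 2) (nat_lit 4) (C.cons (nat_lit 277) (C.node (nat_lit 0) (nat_lit 2) (nat_lit 5) (C.cons (nat_lit 165) (C.node (nat_lit 0) (nat_lit 2) (nat_lit 6) (C.cons (nat_lit 69) (C.ref (nat_lit 118) (nat_lit 650793665040)) C.nil)) (C.cons (nat_lit 37) (C.ref (nat_lit 124) (nat_lit 650793665040)) C.nil))) (C.cons (nat_lit 85) (C.ref (nat_lit 125) (nat_lit 650288382480)) (C.cons (nat_lit 53) (C.ref (nat_lit 125) (nat_lit 650020012560)) (C.cons (nat_lit 21) (C.node (nat_lit 0) (nat_lit 2) (nat_lit 5) (C.cons (nat_lit 293) (C.ref (nat_lit 124) (nat_lit 646514430480)) (C.cons (nat_lit 165) (C.ref (nat_lit 124) (nat_lit 646261789200)) (C.cons (nat_lit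 37) (C.node (nat_lit 0) (nat_lit 2) (nat_lit 6) (C.cons (nat_lit 325) (C.node (nat_lit 0) (nat_lit 2) (nat_lit 7) (C.cons (nat_lit 133) (C.ref (nat_lit 123) (nat_lit 642219467280)) C.nil)) (C.cons (nat_lit 197) (C.node (nat_lit 0) (nat_lit 2) (nat_lit 8) (C.cons (nat_lit 261) (C.ref (nat_lit 123) (nat_lit 641966826000)) C.nil)) (C.cons (nat_lit 69) (C.node (nat_lit 0) (nat_lit 2) (nat_lit 7) (C.cons (nat_lit 389) (C.ref (nat_lit 123) (nat_lit 637908775440)) (C.cons (nat_lit 133) (C.node (nat_lit 0) (nat_lit 2) (nat_lit 8) (C.cons (nat_lit 261) (C.ref (nat_lit 127) (nat_lit 654820258320)) C.nil)) C.nil))) C.nil)))) C.nil)))) C.nil))))) C.nil)))))) (C.cons (nat_lit 35) (C.node (nat_lit 0) (nat_lit 1) (nat_lit 6) (C.cons (nat_lit 67) (C.ref (nat_lit 141) (nat_lit 654820258320)) C.nil)) C.nil))) (List.cons (C.node (nat_lit 0) (nat_lit 2) (nat_lit 4) (C.cons (nat_lit 277) (C.node (nat_lit 0) (nat_lit 2) (nat_lit 5) (C.cons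 (nat_lit 101) (C.ref (nat_lit 123) (nat_lit 650793726240)) (C.cons (nat_lit 37) (C.node (nat_lit 0) (nat_lit 2) (nat_lit 6) (C.cons (nat_lit 69) (C.ref (nat_lit 133) (nat_lit 650793726240)) C.nil)) C.nil))) (C.cons (nat_lit 85) (C.node (nat_lit 0) (nat_lit 2) (nat_lit 5) (C.cons (nat_lit 293) (C.ref (nat_lit 123) (nat_lit 650792743200)) (C.cons (nat_lit 37) (C.node (nat_lit 0) (nat_lit 2) (nat_lit 8) (C.cons (nat_lit 261) (C.ref (nat_lit 137) (nat_lit 650290409760)) C.nil)) C.nil))) (C.cons (nat_lit 53) (C.node (nat_lit 0) (nat_lit 2) (nat_lit 6) (C.cons (nat_lit 325) (C.ref (nat_lit 123) (nat_lit 650776031520)) (C.cons (nat_lit 69) (C.node (nat_lit 0) (nat_lit 2) (nat_lit 8) (C.cons (nat_lit 261) (C.ref (nat_lit 137) (nat_lit 650023022880)) C.nil)) C.nil))) (C.cons (nat_lit 21) (C.node (nat_lit 0) (nat_lit 2) (nat_lit 5) (C.cons (nat_lit 293) (C.node (nat_lit 0) (nat_lit 2) (nat_lit 6) (C.cons (nat_lit 69) (C.ref (nat_lit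 133) (nat_lit 650792743200)) C.nil)) (C.cons (nat_lit 101) (C.node (nat_lit 0) (nat_lit 2) (nat_lit 8) (C.cons (nat_lit 261) (C.ref (nat_lit 137) (nat_lit 650289426720)) C.nil)) (C.cons (nat_lit 37) (C.node (nat_lit 0) (nat_lit 2) (nat_lit 6) (C.cons (nat_lit 325) (C.ref (nat_lit 133) (nat_lit 650776031520)) C.nil)) C.nil)))) C.nil))))) (List.cons (C.node (nat_lit 0) (nat_lit 2) (nat_lit 5) (C.cons (nat_lit 293) (C.node (nat_lit 0) (nat_lit 2) (nat_lit 6) (C.cons (nat_lit 69) (C.ref (nat_lit 137) (nat_lit 641886093600)) C.nil)) (C.cons (nat_lit 101) (C.node (nat_lit 0) (nat_lit 2) (nat_lit 8) (C.cons (nat_lit 261) (C.ref (nat_lit 140) (nat_lit 650288382240)) C.nil)) (C.cons (nat_lit 37) (C.node (nat_lit 0) (nat_lit 2) (nat_lit 6) (C.cons (nat_lit 325) (C.ref (nat_lit 137) (nat_lit 646180012320)) C.nil)) C.nil)))) (List.cons (C.node (nat_lit 0) (nat_lit 2) (nat_lit 3) (C.cons (nat_lit 141) (C.ref (nat_lit 143) (nat_lit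 654820258320)) (C.cons (nat_lit 77) (C.ref (nat_lit 143) (nat_lit 654568600080)) (C.cons (nat_lit 45) (C.ref (nat_lit 143) (nat_lit 654301213200)) (C.cons (nat_lit 29) (C.ref (nat_lit 143) (nat_lit 654032843280)) (C.cons (nat_lit 13)
  (C.node (nat_lit 0) (nat_lit 2) (nat_lit 4) (C.cons (nat_lit 277) (C.node (nat_lit 0) (nat_lit 2) (nat_lit 5) (C.cons (nat_lit 165) (C.node (nat_lit 0) (nat_lit 2) (nat_lit 6) (C.cons (nat_lit 69) (C.ref (nat_lit 137) (nat_lit 637591191840)) C.nil)) (C.cons (nat_lit 101) (C.node (nat_lit 0) (nat_lit 2) (nat_lit 7) (C.cons (nat_lit 133) (C.ref (nat_lit 137) (nat_lit 637323804960)) C.nil)) (C.cons (nat_lit 37) (C.node (nat_lit 0) (nat_lit 2) (nat_lit 6) (C.cons (nat_lit 197) (C.ref (nat_lit 137) (nat_lit 637590208800)) C.nil)) C.nil)))) (C.cons (nat_lit 149) (C.ref (nat_lit 144) (nat_lit 654820258320)) (C.cons (nat_lit 85) (C.ref (nat_lit 144) (nat_lit 654568600080)) (C.cons (nat_lit 53) (C.ref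 (nat_lit 144) (nat_lit 654301213200)) (C.cons (nat_lit 21) (C.node (nat_lit 0) (nat_lit 2) (nat_lit 5) (C.cons (nat_lit 293) (C.node (nat_lit 0) (nat_lit 2) (nat_lit 6) (C.cons (nat_lit 197) (C.ref (nat_lit 137) (nat_lit 641884127520)) C.nil)) (C.cons (nat_lit 165) (C.node (nat_lit 0) (nat_lit 2) (nat_lit 6) (C.cons (nat_lit 325) (C.ref (nat_lit 137) (nat_lit 646179029280)) C.nil)) (C.cons (nat_lit 101) (C.node (nat_lit 0) (nat_lit 2) (nat_lit 7) (C.cons (nat_lit 389) (C.ref (nat_lit 137) (nat_lit 650205561120)) C.nil)) C.nil)))) C.nil)))))) C.nil)))))) (List.cons (C.node (nat_lit 0) (nat_lit 1) (nat_lit 6) (C.cons (nat_lit 195) (C.ref (nat_lit 141) (nat_lit 654802563600)) (C.cons (nat_lit 67) (C.node (nat_lit 0) (nat_lit 1) (nat_lit 7) (C.cons (nat_lit 131) (C.ref (nat_lit 145) (nat_lit 654820258320)) C.nil)) C.nil))) (List.cons (C.node (nat_lit 0) (nat_lit 1) (nat_lit 5) (C.cons (nat_lit 163) (C.node (nat_lit 0) (nat_lit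 1) (nat_lit 6) (C.cons (nat_lit 67) (C.ref (nat_lit 141) (nat_lit 654819275280)) C.nil)) (C.cons (nat_lit 99) (C.node (nat_lit 0) (nat_lit 1) (nat_lit 7) (C.cons (nat_lit 131) (C.ref (nat_lit 141) (nat_lit 654567617040)) C.nil)) (C.cons (nat_lit 35) (C.ref (nat_lit 146) (nat_lit 654820258320)) C.nil)))) (List.cons (C.node (nat_lit 0) (nat_lit 1) (nat_lit 4) (C.cons (nat_lit 147) (C.ref (nat_lit 142) (nat_lit 654820258320)) (C.cons (nat_lit 83) (C.ref (nat_lit 142) (nat_lit 654568600080)) (C.cons (nat_lit 51) (C.ref (nat_lit 142) (nat_lit 654301213200)) (C.cons (nat_lit 19) (C.ref (nat_lit 147) (nat_lit 654820258320)) C.nil))))) (List.cons (C.node (nat_lit 0) (nat_lit 2) (nat_lit 4) (C.cons (nat_lit 149) (C.node (nat_lit 0) (nat_lit 2) (nat_lit 5) (C.cons (nat_lit 101) (C.ref (nat_lit 127) (nat_lit 654820258080)) C.nil)) (C.cons (nat_lit 85) (C.node (nat_lit 0) (nat_lit 2) (nat_lit 5) (C.cons (nat_lit 165) (C.ref (nat_lit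 127) (nat_lit 654568599840)) C.nil)) (C.cons (nat_lit 53) (C.node (nat_lit 0) (nat_lit 2) (nat_lit 6) (C.cons (nat_lit 197) (C.ref (nat_lit 127) (nat_lit 654301212960)) C.nil)) C.nil)))) (List.cons (C.node (nat_lit 0) (nat_lit 2) (nat_lit 3) (C.cons (nat_lit 269) (C.ref (nat_lit 149) (nat_lit 654820258320)) (C.cons (nat_lit 141) (C.ref (nat_lit 149) (nat_lit 650793726480)) (C.cons (nat_lit 77) (C.ref (nat_lit 149) (nat_lit 646515536400)) (C.cons (nat_lit 45) (C.ref (nat_lit 149) (nat_lit 642221617680)) (C.cons (nat_lit 29) (C.ref (nat_lit 149) (nat_lit 637926715920)) C.nil)))))) (List.cons (C.node (nat_lit 0) (nat_lit 1) (nat_lit 7) (C.cons (nat_lit 387) (C.ref (nat_lit 145) (nat_lit 654533947920)) (C.cons (nat_lit 131) (C.node (nat_lit 0) (nat_lit 1) (nat_lit 8) (C.cons (nat_lit 259) (C.ref (nat_lit 150) (nat_lit 654820258320)) C.nil)) C.nil))) List.nil)))))))))))))))))))))))))))))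

theorem ok10_123 : okL par10 (nat_lit 152) c10_123 (nat_lit 123) = true := by decide +kernel

noncomputable def c10_152 : List C :=
  (List.cons (C.node (nat_lit 0) (nat_lit 1) (nat_lit 6) (C.cons (nat_lit 323) (C.node (nat_lit 0) (nat_lit 1) (nat_lit 7) (C.cons (nat_lit 131) (C.ref (nat_lit 145) (nat_lit 654802379280)) C.nil)) (C.cons (nat_lit 195) (C.node (nat_lit 0) (nat_lit 1) (nat_lit 8) (C.cons (nat_lit 259) (C.ref (nat_lit 145) (nat_lit 650775847440)) C.nil)) (C.cons (nat_lit 67) (C.ref (nat_lit 151) (nat_lit 654820258320)) C.nil)))) (List.cons (C.node (nat_lit 0) (nat_lit 1) (nat_lit 5) (C.cons (nat_lit 291) (C.ref (nat_lit 146) (nat_lit 654819152400)) (C.cons (nat_lit 163) (C.ref (nat_lit 146) (nat_lit 650792620560)) (C.cons (nat_lit 99) (C.ref (nat_lit 146) (nat_lit 646514430480)) (C.cons (nat_lit 35) (C.ref (nat_lit 152) (nat_lit 654820258320)) C.nil))))) (List.cons (C.node (nat_lit 0) (nat_lit 1) (nat_lit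 4) (C.cons (nat_lit 275) (C.ref (nat_lit 147) (nat_lit 654820196880)) (C.cons (nat_lit 147) (C.ref (nat_lit 147) (nat_lit 650793665040)) (C.cons (nat_lit 83) (C.ref (nat_lit 147) (nat_lit 646515474960)) (C.cons (nat_lit 51) (C.ref (nat_lit 147) (nat_lit 642221556240)) (C.cons (nat_lit 19) (C.ref (nat_lit 153) (nat_lit 654820258320)) C.nil)))))) (List.cons (C.node (nat_lit 0) (nat_lit 1) (nat_lit 3) (C.cons (nat_lit 267) (C.ref (nat_lit 148) (nat_lit 654820258320)) (C.cons (nat_lit 139) (C.ref (nat_lit 148) (nat_lit 650793726480)) (C.cons (nat_lit 75) (C.ref (nat_lit 148) (nat_lit 646515536400)) (C.cons (nat_lit 43) (C.ref (nat_lit 148) (nat_lit 642221617680)) (C.cons (nat_lit 27) (C.ref (nat_lit 148) (nat_lit 637926715920)) (C.cons (nat_lit 11) (C.ref (nat_lit 154) (nat_lit 654820258320)) C.nil))))))) (List.cons (C.big (C.cons (nat_lit 993) (C.ref (nat_lit 32) (nat_lit 654820258320)) (C.cons (nat_lit 977) (C.ref (nat_lit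 32) (nat_lit 654819275280)) (C.cons (nat_lit 969) (C.ref (nat_lit 32) (nat_lit 654818230800)) (C.cons (nat_lit 965) (C.ref (nat_lit 32) (nat_lit 654817182480)) (C.cons (nat_lit 963) (C.ref (nat_lit 32) (nat_lit 654816133920)) (C.cons (nat_lit 945) (C.ref (nat_lit 32) (nat_lit 654802563600)) (C.cons (nat_lit 937) (C.ref (nat_lit 32) (nat_lit 654801519120)) (C.cons (nat_lit 933) (C.ref (nat_lit 32) (nat_lit 654800470800)) (C.cons (nat_lit 931) (C.ref (nat_lit 32) (nat_lit 654799422240)) (C.cons (nat_lit 921) (C.ref (nat_lit 32) (nat_lit 654784746000)) (C.cons (nat_lit 917) (C.ref (nat_lit 32) (nat_lit 654783697680)) (C.cons (nat_lit 915) (C.ref (nat_lit 32) (nat_lit 654782649120)) (C.cons (nat_lit 909) (C.ref (nat_lit 32) (nat_lit 654766920720)) (C.cons (nat_lit 907) (C.ref (nat_lit 32) (nat_lit 654765872160)) (C.cons (nat_lit 903) (C.ref (nat_lit 32) (nat_lit 654749094960)) (C.cons (nat_lit 881) (C.ref (nat_lit 32) (nat_lit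 654534193680)) (C.cons (nat_lit 873) (C.ref (nat_lit 32) (nat_lit 654533149200)) (C.cons (nat_lit 869) (C.ref (nat_lit 32) (nat_lit 654532100880)) (C.cons (nat_lit 867) (C.ref (nat_lit 32) (nat_lit 654531052320)) (C.cons (nat_lit 857) (C.ref (nat_lit 32) (nat_lit 654516376080)) (C.cons (nat_lit 853) (C.ref (nat_lit 32) (nat_lit 654515327760)) (C.cons (nat_lit 851) (C.ref (nat_lit 32) (nat_lit 654514279200)) (C.cons (nat_lit 845) (C.ref (nat_lit 32) (nat_lit 654498550800)) (C.cons (nat_lit 843) (C.ref (nat_lit 32) (nat_lit 654497502240)) (C.cons (nat_lit 839) (C.ref (nat_lit 32) (nat_lit 654480725040)) (C.cons (nat_lit 825) (C.ref (nat_lit 32) (nat_lit 654247944720)) (C.cons (nat_lit 821) (C.ref (nat_lit 32) (nat_lit 654246896400)) (C.cons (nat_lit 819) (C.ref (nat_lit 32) (nat_lit 654245847840)) (C.cons (nat_lit 813) (C.ref (nat_lit 32) (nat_lit 654230119440)) (C.cons (nat_lit 811) (C.ref (nat_lit 32) (nat_lit 654229070880))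 (C.cons (nat_lit 807) (C.ref (nat_lit 32) (nat_lit 654212293680)) (C.cons (nat_lit 797) (C.ref (nat_lit 32) (nat_lit 653961684240)) (C.cons (nat_lit 795) (C.ref (nat_lit 32) (nat_lit 653960635680)) (C.cons (nat_lit 791) (C.ref (nat_lit 32) (nat_lit 653943858480)) (C.cons (nat_lit 783) (C.ref (nat_lit 32) (nat_lit 653675423040)) (C.cons (nat_lit 753)
  (C.ref (nat_lit 32) (nat_lit 650239291920)) (C.cons (nat_lit 745) (C.ref (nat_lit 32) (nat_lit 650238247440)) (C.cons (nat_lit 741) (C.ref (nat_lit 32) (nat_lit 650237199120)) (C.cons (nat_lit 739) (C.ref (nat_lit 32) (nat_lit 650236150560)) (C.cons (nat_lit 729) (C.ref (nat_lit 32) (nat_lit 650221474320)) (C.cons (nat_lit 725) (C.ref (nat_lit 32) (nat_lit 650220426000)) (C.cons (nat_lit 723) (C.ref (nat_lit 32) (nat_lit 650219377440)) (C.cons (nat_lit 717) (C.ref (nat_lit 32) (nat_lit 650203649040)) (C.cons (nat_lit 715) (C.ref (nat_lit 32) (nat_lit 650202600480)) (C.cons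 (nat_lit 711) (C.ref (nat_lit 32) (nat_lit 650185823280)) (C.cons (nat_lit 697) (C.ref (nat_lit 32) (nat_lit 649953042960)) (C.cons (nat_lit 693) (C.ref (nat_lit 32) (nat_lit 649951994640)) (C.cons (nat_lit 691) (C.ref (nat_lit 32) (nat_lit 649950946080)) (C.cons (nat_lit 685) (C.ref (nat_lit 32) (nat_lit 649935217680)) (C.cons (nat_lit 683) (C.ref (nat_lit 32) (nat_lit 649934169120)) (C.cons (nat_lit 679) (C.ref (nat_lit 32) (nat_lit 649917391920)) (C.cons (nat_lit 669) (C.ref (nat_lit 32) (nat_lit 649666782480)) (C.cons (nat_lit 667) (C.ref (nat_lit 32) (nat_lit 649665733920)) (C.cons (nat_lit 663) (C.ref (nat_lit 32) (nat_lit 649648956720)) (C.cons (nat_lit 655) (C.ref (nat_lit 32) (nat_lit 649380521280)) (C.cons (nat_lit 633) (C.ref (nat_lit 32) (nat_lit 645658079760)) (C.cons (nat_lit 629) (C.ref (nat_lit 32) (nat_lit 645657031440)) (C.cons (nat_lit 627) (C.ref (nat_lit 32) (nat_lit 645655982880)) (C.cons (nat_lit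 621) (C.ref (nat_lit 32) (nat_lit 645640254480)) (C.cons (nat_lit 619) (C.ref (nat_lit 32) (nat_lit 645639205920)) (C.cons (nat_lit 615) (C.ref (nat_lit 32) (nat_lit 645622428720)) (C.cons (nat_lit 605) (C.ref (nat_lit 32) (nat_lit 645371819280)) (C.cons (nat_lit 603) (C.ref (nat_lit 32) (nat_lit 645370770720)) (C.cons (nat_lit 599) (C.ref (nat_lit 32) (nat_lit 645353993520)) (C.cons (nat_lit 591) (C.ref (nat_lit 32) (nat_lit 645085558080)) (C.cons (nat_lit 573) (C.ref (nat_lit 32) (nat_lit 641076852240)) (C.cons (nat_lit 571) (C.ref (nat_lit 32) (nat_lit 641075803680)) (C.cons (nat_lit 567) (C.ref (nat_lit 32) (nat_lit 641059026480)) (C.cons (nat_lit 559) (C.ref (nat_lit 32) (nat_lit 640790591040)) (C.cons (nat_lit 543) (C.ref (nat_lit 32) (nat_lit 636495623760)) (C.cons (nat_lit 497) (C.ref (nat_lit 32) (nat_lit 581519880720)) (C.cons (nat_lit 489) (C.ref (nat_lit 32) (nat_lit 581518836240)) (C.cons (nat_lit 485) (C.ref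 (nat_lit 32) (nat_lit 581517787920)) (C.cons (nat_lit 483) (C.ref (nat_lit 32) (nat_lit 581516739360)) (C.cons (nat_lit 473) (C.ref (nat_lit 32) (nat_lit 581502063120)) (C.cons (nat_lit 469) (C.ref (nat_lit 32) (nat_lit 581501014800)) (C.cons (nat_lit 467) (C.ref (nat_lit 32) (nat_lit 581499966240)) (C.cons (nat_lit 461) (C.ref (nat_lit 32) (nat_lit 581484237840)) (C.cons (nat_lit 459) (C.ref (nat_lit 32) (nat_lit 581483189280)) (C.cons (nat_lit 455) (C.ref (nat_lit 32) (nat_lit 581466412080)) (C.cons (nat_lit 441) (C.ref (nat_lit 32) (nat_lit 581233631760)) (C.cons (nat_lit 437) (C.ref (nat_lit 32) (nat_lit 581232583440)) (C.cons (nat_lit 435) (C.ref (nat_lit 32) (nat_lit 581231534880)) (C.cons (nat_lit 429) (C.ref (nat_lit 32) (nat_lit 581215806480)) (C.cons (nat_lit 427) (C.ref (nat_lit 32) (nat_lit 581214757920)) (C.cons (nat_lit 423) (C.ref (nat_lit 32) (nat_lit 581197980720)) (C.cons (nat_lit 413) (C.ref (nat_lit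 32) (nat_lit 580947371280)) (C.cons (nat_lit 411) (C.ref (nat_lit 32) (nat_lit 580946322720)) (C.cons (nat_lit 407) (C.ref (nat_lit 32) (nat_lit 580929545520)) (C.cons (nat_lit 399) (C.ref (nat_lit 32) (nat_lit 580661110080)) (C.cons (nat_lit 377) (C.ref (nat_lit 32) (nat_lit 576938668560)) (C.cons (nat_lit 373) (C.ref (nat_lit 32) (nat_lit 576937620240)) (C.cons (nat_lit 371) (C.ref (nat_lit 32) (nat_lit 576936571680)) (C.cons (nat_lit 365) (C.ref (nat_lit 32) (nat_lit 576920843280)) (C.cons (nat_lit 363) (C.ref (nat_lit 32) (nat_lit 576919794720)) (C.cons (nat_lit 359)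
  (C.ref (nat_lit 32) (nat_lit 576903017520)) (C.cons (nat_lit 349) (C.ref (nat_lit 32) (nat_lit 576652408080)) (C.cons (nat_lit 347) (C.ref (nat_lit 32) (nat_lit 576651359520)) (C.cons (nat_lit 343) (C.ref (nat_lit 32) (nat_lit 576634582320)) (C.cons (nat_lit 335) (C.ref (nat_lit 32) (nat_lit 576366146880)) (C.cons (nat_lit 317) (C.ref (nat_lit 32) (nat_lit 572357441040)) (C.cons (nat_lit 315) (C.ref (nat_lit 32) (nat_lit 572356392480)) (C.cons (nat_lit 311) (C.ref (nat_lit 32) (nat_lit 572339615280)) (C.cons (nat_lit 303) (C.ref (nat_lit 32) (nat_lit 572071179840)) (C.cons (nat_lit 287) (C.ref (nat_lit 32) (nat_lit 567776212560)) (C.cons (nat_lit 249) (C.ref (nat_lit 32) (nat_lit 508219195920)) (C.cons (nat_lit 245) (C.ref (nat_lit 32) (nat_lit 508218147600)) (C.cons (nat_lit 243) (C.ref (nat_lit 32) (nat_lit 508217099040)) (C.cons (nat_lit 237) (C.ref (nat_lit 32) (nat_lit 508201370640)) (C.cons (nat_lit 235) (C.ref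 (nat_lit 32) (nat_lit 508200322080)) (C.cons (nat_lit 231) (C.ref (nat_lit 32) (nat_lit 508183544880)) (C.cons (nat_lit 221) (C.ref (nat_lit 32) (nat_lit 507932935440)) (C.cons (nat_lit 219) (C.ref (nat_lit 32) (nat_lit 507931886880)) (C.cons (nat_lit 215) (C.ref (nat_lit 32) (nat_lit 507915109680)) (C.cons (nat_lit 207) (C.ref (nat_lit 32) (nat_lit 507646674240)) (C.cons (nat_lit 189) (C.ref (nat_lit 32) (nat_lit 503637968400)) (C.cons (nat_lit 187) (C.ref (nat_lit 32) (nat_lit 503636919840)) (C.cons (nat_lit 183) (C.ref (nat_lit 32) (nat_lit 503620142640)) (C.cons (nat_lit 175) (C.ref (nat_lit 32) (nat_lit 503351707200)) (C.cons (nat_lit 159) (C.ref (nat_lit 32) (nat_lit 499056739920)) (C.cons (nat_lit 125) (C.ref (nat_lit 32) (nat_lit 434918491920)) (C.cons (nat_lit 123) (C.ref (nat_lit 32) (nat_lit 434917443360)) (C.cons (nat_lit 119) (C.ref (nat_lit 32) (nat_lit 434900666160)) (C.cons (nat_lit 111) (C.ref (nat_lit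 32) (nat_lit 434632230720)) (C.cons (nat_lit 95) (C.ref (nat_lit 32) (nat_lit 430337263440)) (C.cons (nat_lit 63) (C.ref (nat_lit 32) (nat_lit 361617786720)) C.nil)))))))))))))))))))))))))))))))))))))))))))))))))))))))))))))))))))))))))))))))))))))))))))))))))))))))))))))))))))))))))))))) (C.big (C.cons (nat_lit 961) (C.ref (nat_lit 106) (nat_lit 654820258320)) (C.cons (nat_lit 929) (C.ref (nat_lit 106) (nat_lit 654804529680)) (C.cons (nat_lit 913) (C.ref (nat_lit 106) (nat_lit 654787818000)) (C.cons (nat_lit 905) (C.ref (nat_lit 106) (nat_lit 654771044880)) (C.cons (nat_lit 901) (C.ref (nat_lit 106) (nat_lit 654754267920)) (C.cons (nat_lit 899) (C.ref (nat_lit 106) (nat_lit 654737490720)) (C.cons (nat_lit 865) (C.ref (nat_lit 106) (nat_lit 654537142800)) (C.cons (nat_lit 849) (C.ref (nat_lit 106) (nat_lit 654520431120)) (C.cons (nat_lit 841) (C.ref (nat_lit 106) (nat_lit 654503658000)) (C.cons (nat_lit 837) (C.ref (nat_lit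 106) (nat_lit 654486881040)) (C.cons (nat_lit 835) (C.ref (nat_lit 106) (nat_lit 654470103840)) (C.cons (nat_lit 817) (C.ref (nat_lit 106) (nat_lit 654252061200)) (C.cons (nat_lit 809) (C.ref (nat_lit 106) (nat_lit 654235288080)) (C.cons (nat_lit 805) (C.ref (nat_lit 106) (nat_lit 654218511120)) (C.cons (nat_lit 803) (C.ref (nat_lit 106) (nat_lit 654201733920)) (C.cons (nat_lit 793) (C.ref (nat_lit 106) (nat_lit 653966856720)) (C.cons (nat_lit 789) (C.ref (nat_lit 106) (nat_lit 653950079760)) (C.cons (nat_lit 787) (C.ref (nat_lit 106) (nat_lit 653933302560)) (C.cons (nat_lit 781) (C.ref (nat_lit 106) (nat_lit 653681644560)) (C.cons (nat_lit 779) (C.ref (nat_lit 106) (nat_lit 653664867360)) (C.cons (nat_lit 775) (C.ref (nat_lit 106) (nat_lit 653396431920)) (C.cons (nat_lit 737) (C.ref (nat_lit 106) (nat_lit 650243224080)) (C.cons (nat_lit 721) (C.ref (nat_lit 106) (nat_lit 650226512400)) (C.cons (nat_lit 713) (C.ref (nat_lit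 106) (nat_lit 650209739280)) (C.cons (nat_lit 709) (C.ref (nat_lit 106) (nat_lit 650192962320)) (C.cons (nat_lit 707) (C.ref (nat_lit 106) (nat_lit 650176185120)) (C.cons (nat_lit 689) (C.ref (nat_lit 106) (nat_lit 649958142480)) (C.cons (nat_lit 681)
  (C.ref (nat_lit 106) (nat_lit 649941369360)) (C.cons (nat_lit 677) (C.ref (nat_lit 106) (nat_lit 649924592400)) (C.cons (nat_lit 675) (C.ref (nat_lit 106) (nat_lit 649907815200)) (C.cons (nat_lit 665) (C.ref (nat_lit 106) (nat_lit 649672938000)) (C.cons (nat_lit 661) (C.ref (nat_lit 106) (nat_lit 649656161040)) (C.cons (nat_lit 659) (C.ref (nat_lit 106) (nat_lit 649639383840)) (C.cons (nat_lit 653) (C.ref (nat_lit 106) (nat_lit 649387725840)) (C.cons (nat_lit 651) (C.ref (nat_lit 106) (nat_lit 649370948640)) (C.cons (nat_lit 647) (C.ref (nat_lit 106) (nat_lit 649102513200)) (C.cons (nat_lit 625) (C.ref (nat_lit 106) (nat_lit 645663240720)) (C.cons (nat_lit 617) (C.ref (nat_lit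 106) (nat_lit 645646467600)) (C.cons (nat_lit 613) (C.ref (nat_lit 106) (nat_lit 645629690640)) (C.cons (nat_lit 611) (C.ref (nat_lit 106) (nat_lit 645612913440)) (C.cons (nat_lit 601) (C.ref (nat_lit 106) (nat_lit 645378036240)) (C.cons (nat_lit 597) (C.ref (nat_lit 106) (nat_lit 645361259280)) (C.cons (nat_lit 595) (C.ref (nat_lit 106) (nat_lit 645344482080)) (C.cons (nat_lit 589) (C.ref (nat_lit 106) (nat_lit 645092824080)) (C.cons (nat_lit 587) (C.ref (nat_lit 106) (nat_lit 645076046880)) (C.cons (nat_lit 583) (C.ref (nat_lit 106) (nat_lit 644807611440)) (C.cons (nat_lit 569) (C.ref (nat_lit 106) (nat_lit 641083073040)) (C.cons (nat_lit 565) (C.ref (nat_lit 106) (nat_lit 641066296080)) (C.cons (nat_lit 563) (C.ref (nat_lit 106) (nat_lit 641049518880)) (C.cons (nat_lit 557) (C.ref (nat_lit 106) (nat_lit 640797860880)) (C.cons (nat_lit 555) (C.ref (nat_lit 106) (nat_lit 640781083680)) (C.cons (nat_lit 551) (C.ref (nat_lit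 106) (nat_lit 640512648240)) (C.cons (nat_lit 541) (C.ref (nat_lit 106) (nat_lit 636502893840)) (C.cons (nat_lit 539) (C.ref (nat_lit 106) (nat_lit 636486116640)) (C.cons (nat_lit 535) (C.ref (nat_lit 106) (nat_lit 636217681200)) (C.cons (nat_lit 527) (C.ref (nat_lit 106) (nat_lit 631922713920)) (C.cons (nat_lit 481) (C.ref (nat_lit 106) (nat_lit 581524795920)) (C.cons (nat_lit 465) (C.ref (nat_lit 106) (nat_lit 581508084240)) (C.cons (nat_lit 457) (C.ref (nat_lit 106) (nat_lit 581491311120)) (C.cons (nat_lit 453) (C.ref (nat_lit 106) (nat_lit 581474534160)) (C.cons (nat_lit 451) (C.ref (nat_lit 106) (nat_lit 581457756960)) (C.cons (nat_lit 433) (C.ref (nat_lit 106) (nat_lit 581239714320)) (C.cons (nat_lit 425) (C.ref (nat_lit 106) (nat_lit 581222941200)) (C.cons (nat_lit 421) (C.ref (nat_lit 106) (nat_lit 581206164240)) (C.cons (nat_lit 419) (C.ref (nat_lit 106) (nat_lit 581189387040)) (C.cons (nat_lit 409) (C.ref (nat_lit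 106) (nat_lit 580954509840)) (C.cons (nat_lit 405) (C.ref (nat_lit 106) (nat_lit 580937732880)) (C.cons (nat_lit 403) (C.ref (nat_lit 106) (nat_lit 580920955680)) (C.cons (nat_lit 397) (C.ref (nat_lit 106) (nat_lit 580669297680)) (C.cons (nat_lit 395) (C.ref (nat_lit 106) (nat_lit 580652520480)) (C.cons (nat_lit 391) (C.ref (nat_lit 106) (nat_lit 580384085040)) (C.cons (nat_lit 369) (C.ref (nat_lit 106) (nat_lit 576944812560)) (C.cons (nat_lit 361) (C.ref (nat_lit 106) (nat_lit 576928039440)) (C.cons (nat_lit 357) (C.ref (nat_lit 106) (nat_lit 576911262480)) (C.cons (nat_lit 355) (C.ref (nat_lit 106) (nat_lit 576894485280)) (C.cons (nat_lit 345) (C.ref (nat_lit 106) (nat_lit 576659608080)) (C.cons (nat_lit 341) (C.ref (nat_lit 106) (nat_lit 576642831120)) (C.cons (nat_lit 339) (C.ref (nat_lit 106) (nat_lit 576626053920)) (C.cons (nat_lit 333) (C.ref (nat_lit 106) (nat_lit 576374395920)) (C.cons (nat_lit 331) (C.ref (nat_lit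 106) (nat_lit 576357618720)) (C.cons (nat_lit 327) (C.ref (nat_lit 106) (nat_lit 576089183280)) (C.cons (nat_lit 313) (C.ref (nat_lit 106) (nat_lit 572364644880)) (C.cons (nat_lit 309) (C.ref (nat_lit 106) (nat_lit 572347867920)) (C.cons (nat_lit 307) (C.ref (nat_lit 106) (nat_lit 572331090720)) (C.cons (nat_lit 301) (C.ref (nat_lit 106) (nat_lit 572079432720)) (C.cons (nat_lit 299) (C.ref (nat_lit 106) (nat_lit 572062655520)) (C.cons (nat_lit 295)
  (C.ref (nat_lit 106) (nat_lit 571794220080)) (C.cons (nat_lit 285) (C.ref (nat_lit 106) (nat_lit 567784465680)) (C.cons (nat_lit 283) (C.ref (nat_lit 106) (nat_lit 567767688480)) (C.cons (nat_lit 279) (C.ref (nat_lit 106) (nat_lit 567499253040)) (C.cons (nat_lit 271) (C.ref (nat_lit 106) (nat_lit 563204285760)) (C.cons (nat_lit 241) (C.ref (nat_lit 106) (nat_lit 508225401360)) (C.cons (nat_lit 233) (C.ref (nat_lit 106) (nat_lit 508208628240)) (C.cons (nat_lit 229) (C.ref (nat_lit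 106) (nat_lit 508191851280)) (C.cons (nat_lit 227) (C.ref (nat_lit 106) (nat_lit 508175074080)) (C.cons (nat_lit 217) (C.ref (nat_lit 106) (nat_lit 507940196880)) (C.cons (nat_lit 213) (C.ref (nat_lit 106) (nat_lit 507923419920)) (C.cons (nat_lit 211) (C.ref (nat_lit 106) (nat_lit 507906642720)) (C.cons (nat_lit 205) (C.ref (nat_lit 106) (nat_lit 507654984720)) (C.cons (nat_lit 203) (C.ref (nat_lit 106) (nat_lit 507638207520)) (C.cons (nat_lit 199) (C.ref (nat_lit 106) (nat_lit 507369772080)) (C.cons (nat_lit 185) (C.ref (nat_lit 106) (nat_lit 503645233680)) (C.cons (nat_lit 181) (C.ref (nat_lit 106) (nat_lit 503628456720)) (C.cons (nat_lit 179) (C.ref (nat_lit 106) (nat_lit 503611679520)) (C.cons (nat_lit 173) (C.ref (nat_lit 106) (nat_lit 503360021520)) (C.cons (nat_lit 171) (C.ref (nat_lit 106) (nat_lit 503343244320)) (C.cons (nat_lit 167) (C.ref (nat_lit 106) (nat_lit 503074808880)) (C.cons (nat_lit 157) (C.ref (nat_lit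 106) (nat_lit 499065054480)) (C.cons (nat_lit 155) (C.ref (nat_lit 106) (nat_lit 499048277280)) (C.cons (nat_lit 151) (C.ref (nat_lit 106) (nat_lit 498779841840)) (C.cons (nat_lit 143) (C.ref (nat_lit 106) (nat_lit 494484874560)) (C.cons (nat_lit 121) (C.ref (nat_lit 106) (nat_lit 434925761040)) (C.cons (nat_lit 117) (C.ref (nat_lit 106) (nat_lit 434908984080)) (C.cons (nat_lit 115) (C.ref (nat_lit 106) (nat_lit 434892206880)) (C.cons (nat_lit 109) (C.ref (nat_lit 106) (nat_lit 434640548880)) (C.cons (nat_lit 107) (C.ref (nat_lit 106) (nat_lit 434623771680)) (C.cons (nat_lit 103) (C.ref (nat_lit 106) (nat_lit 434355336240)) (C.cons (nat_lit 93) (C.ref (nat_lit 106) (nat_lit 430345581840)) (C.cons (nat_lit 91) (C.ref (nat_lit 106) (nat_lit 430328804640)) (C.cons (nat_lit 87) (C.ref (nat_lit 106) (nat_lit 430060369200)) (C.cons (nat_lit 79) (C.ref (nat_lit 106) (nat_lit 425765401920)) (C.cons (nat_lit 61) (C.ref (nat_lit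 106) (nat_lit 361626105360)) (C.cons (nat_lit 59) (C.ref (nat_lit 106) (nat_lit 361609328160)) (C.cons (nat_lit 55) (C.ref (nat_lit 106) (nat_lit 361340892720)) (C.cons (nat_lit 47) (C.ref (nat_lit 106) (nat_lit 357045925440)) (C.cons (nat_lit 31) (C.ref (nat_lit 106) (nat_lit 288326448720)) C.nil)))))))))))))))))))))))))))))))))))))))))))))))))))))))))))))))))))))))))))))))))))))))))))))))))))))))))))))))))))))))))))))) (C.node (nat_lit 0) (nat_lit 1) (nat_lit 2) (C.cons (nat_lit 519) (C.ref (nat_lit 155) (nat_lit 654820258320)) (C.cons (nat_lit 263) (C.ref (nat_lit 155) (nat_lit 590395748880)) (C.cons (nat_lit 135) (C.ref (nat_lit 155) (nat_lit 521944707600)) (C.cons (nat_lit 71) (C.ref (nat_lit 155) (nat_lit 453242008080)) (C.cons (nat_lit 39) (C.ref (nat_lit 155) (nat_lit 384523579920)) (C.cons (nat_lit 23) (C.ref (nat_lit 155) (nat_lit 315804168720)) (C.cons (nat_lit 15) (C.ref (nat_lit 155) (nat_lit 247084696080))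 (C.cons (nat_lit 7) (C.node (nat_lit 0) (nat_lit 1) (nat_lit 3) (C.cons (nat_lit 523) (C.ref (nat_lit 154) (nat_lit 654820254480)) (C.cons (nat_lit 267) (C.ref (nat_lit 154) (nat_lit 590395745040)) (C.cons (nat_lit 139) (C.ref (nat_lit 154) (nat_lit 521944703760)) (C.cons (nat_lit 75) (C.ref (nat_lit 154) (nat_lit 453242004240)) (C.cons (nat_lit 43) (C.ref (nat_lit 154) (nat_lit 384523576080)) (C.cons (nat_lit 27) (C.ref (nat_lit 154) (nat_lit 315804164880)) (C.cons (nat_lit 11) (C.node (nat_lit 0) (nat_lit 1) (nat_lit 4) (C.cons (nat_lit 531) (C.ref (nat_lit 153) (nat_lit 654820189200)) (C.cons (nat_lit 275) (C.ref (nat_lit 153) (nat_lit 590395679760)) (C.cons (nat_lit 147)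
  (C.ref (nat_lit 153) (nat_lit 521944638480)) (C.cons (nat_lit 83) (C.ref (nat_lit 153) (nat_lit 453241938960)) (C.cons (nat_lit 51) (C.ref (nat_lit 153) (nat_lit 384523510800)) (C.cons (nat_lit 19) (C.node (nat_lit 0) (nat_lit 1) (nat_lit 5) (C.cons (nat_lit 547) (C.ref (nat_lit 152) (nat_lit 654819140880)) (C.cons (nat_lit 291) (C.ref (nat_lit 152) (nat_lit 590394631440)) (C.cons (nat_lit 163) (C.ref (nat_lit 152) (nat_lit 521943590160)) (C.cons (nat_lit 99) (C.ref (nat_lit 152) (nat_lit 453240890640)) (C.cons (nat_lit 35) (C.node (nat_lit 0) (nat_lit 1) (nat_lit 6) (C.cons (nat_lit 579) (C.ref (nat_lit 151) (nat_lit 654802363920)) (C.cons (nat_lit 323) (C.ref (nat_lit 151) (nat_lit 590377854480)) (C.cons (nat_lit 195) (C.ref (nat_lit 151) (nat_lit 521926813200)) (C.cons (nat_lit 67) (C.node (nat_lit 0) (nat_lit 1) (nat_lit 7) (C.cons (nat_lit 643) (C.node (nat_lit 0) (nat_lit 1) (nat_lit 8) (C.cons (nat_lit 259) (C.ref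 (nat_lit 150) (nat_lit 654533928720)) C.nil)) (C.cons (nat_lit 387) (C.node (nat_lit 0) (nat_lit 1) (nat_lit 9) (C.cons (nat_lit 515) (C.ref (nat_lit 150) (nat_lit 590109419280)) C.nil)) (C.cons (nat_lit 131) (C.node (nat_lit 0) (nat_lit 1) (nat_lit 8) (C.cons (nat_lit 771) (C.ref (nat_lit 150) (nat_lit 650238961680)) C.nil)) C.nil)))) C.nil))))) C.nil)))))) C.nil))))))) C.nil)))))))) C.nil))))))))))) List.nil)))))

theorem ok10_152 : okL par10 (nat_lit 157) c10_152 (nat_lit 152) = true := by decide +kernel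


end Pool.Agent.MP_1f1ca1_co

end

section

set_option autoImplicit false
set_option maxRecDepth 1000000
set_option maxHeartbeats 0

namespace Pool.Agent.MP_1f1ca1_co

noncomputable def c11_0 : List C :=
  (List.cons (C.node (nat_lit 0) (nat_lit 3) (nat_lit 6) (C.cons (nat_lit 73) (C.node (nat_lit 0) (nat_lit 4) (nat_lit 6) (C.cons (nat_lit 81) (C.node (nat_lit 0) (nat_lit 5) (nat_lit 6) (C.cons (nat_lit 97) (C.node (nat_lit 0) (nat_lit 3) (nat_lit 7) (C.cons (nat_lit 139) (C.node (nat_lit 0) (nat_lit 3) (nat_lit 8) (C.cons (nat_lit 265) (C.node (nat_lit 0) (nat_lit 3) (nat_lit 9) (C.cons (nat_lit 521) (C.node (nat_lit 0) (nat_lit 4) (nat_lit 7) (C.cons (nat_lit 145) (C.node (nat_lit 0) (nat_lit 5) (nat_lit 7) C.nil) C.nil)) C.nil)) C.nil)) (C.cons (nat_lit 137) (C.node (nat_lit 0) (nat_lit 3) (nat_lit 8) (C.cons (nat_lit 267) (C.node (nat_lit 0) (nat_lit 3) (nat_lit 9) (C.cons (nat_lit 521) (C.node (nat_lit 0) (nat_lit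 4) (nat_lit 8) (C.cons (nat_lit 273) (C.node (nat_lit 0) (nat_lit 5) (nat_lit 8) C.nil) C.nil)) C.nil)) (C.cons (nat_lit 265) (C.node (nat_lit 0) (nat_lit 1) (nat_lit 3) (C.cons (nat_lit 523) (C.node (nat_lit 0) (nat_lit 4) (nat_lit 9) (C.cons (nat_lit 529) (C.node (nat_lit 0) (nat_lit 5) (nat_lit 9) C.nil) C.nil)) (C.cons (nat_lit 11) (C.node (nat_lit 0) (nat_lit 3) (nat_lit 9) C.nil) C.nil))) C.nil))) C.nil))) C.nil)) C.nil)) C.nil)) (List.cons (C.big C.nil (C.big C.nil (C.node (nat_lit 0) (nat_lit 1) (nat_lit 10) (C.cons (nat_lit 1027) (C.node (nat_lit 0) (nat_lit 2) (nat_lit 6) (C.cons (nat_lit 71) (C.node (nat_lit 0) (nat_lit 2) (nat_lit 7) (C.cons (nat_lit 133) (C.node (nat_lit 0) (nat_lit 2) (nat_lit 8) (C.cons (nat_lit 261) (C.node (nat_lit 0) (nat_lit 2) (nat_lit 9) (C.cons (nat_lit 517) (C.ref (nat_lit 0) (nat_lit 11649936536080)) C.nil)) C.nil)) C.nil)) (C.cons (nat_lit 69) (C.node (nat_lit 0) (nat_lit 2) (nat_lit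 7) (C.cons (nat_lit 135) (C.node (nat_lit 0) (nat_lit 2) (nat_lit 8) (C.cons (nat_lit 261) (C.node (nat_lit 0) (nat_lit 2) (nat_lit 9) (C.cons (nat_lit 517) (C.ref (nat_lit 0) (nat_lit 11649684877840)) C.nil)) C.nil)) (C.cons (nat_lit 133) (C.node (nat_lit 0) (nat_lit 2) (nat_lit 8) (C.cons (nat_lit 263) (C.node (nat_lit 0) (nat_lit 2) (nat_lit 9) (C.cons (nat_lit 517) (C.ref (nat_lit 0) (nat_lit 11645406687760)) C.nil)) (C.cons (nat_lit 261) (C.node (nat_lit 0) (nat_lit 1) (nat_lit 2) (C.cons (nat_lit 519) (C.ref (nat_lit 0) (nat_lit 11576703988240)) (C.cons (nat_lit 7) (C.node (nat_lit 0) (nat_lit 2) (nat_lit 9) (C.cons (nat_lit 517) (C.node (nat_lit 0) (nat_lit 3) (nat_lit 6) (C.cons (nat_lit 75) (C.node (nat_lit 0) (nat_lit 3) (nat_lit 7) (C.cons (nat_lit 137) (C.node (nat_lit 0) (nat_lit 3) (nat_lit 8) (C.cons (nat_lit 265) (C.node (nat_lit 0) (nat_lit 3) (nat_lit 9) (C.cons (nat_lit 521) (C.node (nat_lit 0) (nat_lit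 4) (nat_lit 6) (C.cons (nat_lit 81) (C.node (nat_lit 0) (nat_lit 5) (nat_lit 6) C.nil) C.nil)) C.nil)) C.nil)) C.nil)) (C.cons (nat_lit 73) (C.node (nat_lit 0) (nat_lit 3) (nat_lit 7) (C.cons (nat_lit 139) (C.node (nat_lit 0) (nat_lit 3) (nat_lit 8) (C.cons (nat_lit 265) (C.node (nat_lit 0) (nat_lit 3) (nat_lit 9) (C.cons (nat_lit 521) (C.node (nat_lit 0) (nat_lit 4) (nat_lit 7) (C.cons (nat_lit 145) (C.node (nat_lit 0) (nat_lit 5) (nat_lit 7) C.nil) C.nil)) C.nil)) C.nil)) (C.cons (nat_lit 137) (C.node (nat_lit 0) (nat_lit 3) (nat_lit 8) (C.cons (nat_lit 267) (C.node (nat_lit 0) (nat_lit 3) (nat_lit 9) (C.cons (nat_lit 521) (C.node (nat_lit 0) (nat_lit 4) (nat_lit 8) (C.cons (nat_lit 273) (C.node (nat_lit 0) (nat_lit 5) (nat_lit 8) C.nil) C.nil)) C.nil)) (C.cons (nat_lit 265) (C.node (nat_lit 0) (nat_lit 1) (nat_lit 3) (C.cons (nat_lit 523) (C.node (nat_lit 0) (nat_lit 4) (nat_lit 9) (C.cons (nat_lit 529) (C.node (nat_lit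 0) (nat_lit 5) (nat_lit 9) C.nil) C.nil)) (C.cons (nat_lit 11) (C.node (nat_lit 0) (nat_lit 3) (nat_lit 9) C.nil) C.nil))) C.nil))) C.nil))) C.nil))) C.nil)) C.nil))) C.nil))) C.nil))) C.nil))) C.nil)))) (List.cons (C.node (nat_lit 0) (nat_lit 1) (nat_lit 7) (C.cons (nat_lit 139) (C.node (nat_lit 0) (nat_lit 1) (nat_lit 8) (C.cons (nat_lit 259) (C.node (nat_lit 0) (nat_lit 2) (nat_lit 6) (C.cons (nat_lit 77)
  (C.node (nat_lit 0) (nat_lit 3) (nat_lit 8) C.nil) C.nil)) C.nil)) (C.cons (nat_lit 131) (C.node (nat_lit 0) (nat_lit 1) (nat_lit 3) (C.cons (nat_lit 267) (C.node (nat_lit 0) (nat_lit 2) (nat_lit 6) (C.cons (nat_lit 77) (C.node (nat_lit 0) (nat_lit 3) (nat_lit 7) C.nil) C.nil)) C.nil)) C.nil))) (List.cons (C.big C.nil (C.node (nat_lit 0) (nat_lit 1) (nat_lit 10) (C.cons (nat_lit 1027) (C.node (nat_lit 0) (nat_lit 2) (nat_lit 10) (C.cons (nat_lit 1029) (C.node (nat_lit 0) (nat_lit 3) (nat_lit 9) (C.cons (nat_lit 521)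 (C.node (nat_lit 0) (nat_lit 4) (nat_lit 9) (C.cons (nat_lit 529) (C.node (nat_lit 0) (nat_lit 5) (nat_lit 6) (C.cons (nat_lit 97) (C.node (nat_lit 0) (nat_lit 5) (nat_lit 7) (C.cons (nat_lit 161) (C.node (nat_lit 0) (nat_lit 5) (nat_lit 8) (C.cons (nat_lit 289) (C.node (nat_lit 0) (nat_lit 1) (nat_lit 6) (C.cons (nat_lit 83) (C.ref (nat_lit 2) (nat_lit 11649936536080)) (C.cons (nat_lit 75) (C.ref (nat_lit 2) (nat_lit 11649936474640)) (C.cons (nat_lit 67) (C.node (nat_lit 0) (nat_lit 3) (nat_lit 6) (C.cons (nat_lit 77) (C.node (nat_lit 0) (nat_lit 4) (nat_lit 6) C.nil) C.nil)) C.nil)))) C.nil)) C.nil)) C.nil)) C.nil)) C.nil)) C.nil)) C.nil))) (List.cons (C.qs (C.cons (nat_lit 18704) (C.pat (nat_lit 1) (nat_lit 2269526817) (nat_lit 721886531339277586569028925699981457)) (C.cons (nat_lit 17680) (C.pat (nat_lit 0) (nat_lit 195647026) (nat_lit 157268019866230270683495335788621)) (C.cons (nat_lit 2384) (C.pat (nat_lit 1) (nat_lit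 3062187825) (nat_lit 430968324741954665169117012712556481)) (C.cons (nat_lit 18696) (C.pat (nat_lit 1) (nat_lit 2522368801) (nat_lit 431117907512788679868160652602572897)) (C.cons (nat_lit 2372) (C.pat (nat_lit 2) (nat_lit 30428922467) (nat_lit 2966032119225282116351063001912261456895476003)) (C.cons (nat_lit 2316) (C.pat (nat_lit 1) (nat_lit 3112457778) (nat_lit 2850612887368464655339848100323329985)) (C.cons (nat_lit 18442) (C.pat (nat_lit 0) (nat_lit 195581745) (nat_lit 157268097232760359536892854861963)) C.nil)))))))) (List.cons (C.node (nat_lit 0) (nat_lit 4) (nat_lit 7) (C.cons (nat_lit 149) (C.pat (nat_lit 0) (nat_lit 73873953) (nat_lit 157269209442374300078235020100615)) (C.cons (nat_lit 145) (C.node (nat_lit 0) (nat_lit 2) (nat_lit 4) (C.cons (nat_lit 533) (C.node (nat_lit 0) (nat_lit 5) (nat_lit 9) (C.cons (nat_lit 545) (C.node (nat_lit 0) (nat_lit 2) (nat_lit 5) (C.cons (nat_lit 165) (C.ref (nat_lit 4) (nat_lit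 11577458901280)) C.nil)) C.nil)) (C.cons (nat_lit 21) (C.node (nat_lit 0) (nat_lit 4) (nat_lit 9) C.nil) C.nil))) C.nil))) (List.cons (C.node (nat_lit 0) (nat_lit 2) (nat_lit 8) (C.cons (nat_lit 277) (C.node (nat_lit 0) (nat_lit 4) (nat_lit 7) (C.cons (nat_lit 145) (C.node (nat_lit 0) (nat_lit 4) (nat_lit 9) (C.cons (nat_lit 529) (C.node (nat_lit 0) (nat_lit 2) (nat_lit 7) (C.cons (nat_lit 165) (C.pat (nat_lit 1) (nat_lit 677664561) (nat_lit 1510980332134995177886348397331941313)) (C.cons (nat_lit 133) (C.node (nat_lit 0) (nat_lit 5) (nat_lit 7) (C.cons (nat_lit 161) (C.node (nat_lit 0) (nat_lit 2) (nat_lit 5) (C.cons (nat_lit 549) (C.ref (nat_lit 4) (nat_lit 11649936536080)) C.nil)) C.nil)) C.nil))) C.nil)) C.nil)) (C.cons (nat_lit 261) (C.node (nat_lit 0) (nat_lit 4) (nat_lit 8) (C.cons (nat_lit 273) (C.ref (nat_lit 5) (nat_lit 11649936536080)) C.nil)) C.nil))) (List.cons (C.node (nat_lit 0) (nat_lit 1) (nat_lit 8) (C.cons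 (nat_lit 291) (C.node (nat_lit 0) (nat_lit 1) (nat_lit 9) (C.cons (nat_lit 515) (C.ref (nat_lit 6) (nat_lit 11649936536080)) C.nil)) (C.cons (nat_lit 259) (C.node (nat_lit 0) (nat_lit 1) (nat_lit 5) (C.cons (nat_lit 547) (C.ref (nat_lit 6) (nat_lit 11585512026640)) (C.cons (nat_lit 35) (C.node (nat_lit 0) (nat_lit 1) (nat_lit 9) (C.cons (nat_lit 515) (C.node (nat_lit 0) (nat_lit 4) (nat_lit 7) (C.cons (nat_lit 149) (C.pat (nat_lit 0) (nat_lit 73873953) (nat_lit 157269209442374300078235020100615)) (C.cons (nat_lit 145) (C.node (nat_lit 0) (nat_lit 2) (nat_lit 7) (C.cons (nat_lit 165) (C.node (nat_lit 0) (nat_lit 5) (nat_lit 8) (C.cons (nat_lit 289)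
  (C.node (nat_lit 0) (nat_lit 5) (nat_lit 9) C.nil) C.nil)) (C.cons (nat_lit 133) (C.node (nat_lit 0) (nat_lit 5) (nat_lit 7) C.nil) C.nil))) C.nil))) C.nil)) C.nil))) C.nil))) (List.cons (C.node (nat_lit 0) (nat_lit 2) (nat_lit 8) (C.cons (nat_lit 293) (C.node (nat_lit 0) (nat_lit 2) (nat_lit 9) (C.cons (nat_lit 517) (C.node (nat_lit 0) (nat_lit 1) (nat_lit 5) (C.cons (nat_lit 547) (C.node (nat_lit 0) (nat_lit 4) (nat_lit 9) (C.cons (nat_lit 529) (C.node (nat_lit 0) (nat_lit 1) (nat_lit 4) (C.cons (nat_lit 275) (C.ref (nat_lit 4) (nat_lit 11649684877600)) C.nil)) C.nil)) (C.cons (nat_lit 35) (C.node (nat_lit 0) (nat_lit 5) (nat_lit 9) C.nil) C.nil))) C.nil)) (C.cons (nat_lit 261) (C.node (nat_lit 0) (nat_lit 2) (nat_lit 5) (C.cons (nat_lit 549) (C.node (nat_lit 0) (nat_lit 1) (nat_lit 5) (C.cons (nat_lit 291) (C.node (nat_lit 0) (nat_lit 4) (nat_lit 8) (C.cons (nat_lit 273) (C.node (nat_lit 0) (nat_lit 1) (nat_lit 4)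 (C.cons (nat_lit 531) (C.ref (nat_lit 4) (nat_lit 11585260368160)) C.nil)) C.nil)) (C.cons (nat_lit 35) (C.node (nat_lit 0) (nat_lit 5) (nat_lit 8) C.nil) C.nil))) (C.cons (nat_lit 37) (C.node (nat_lit 0) (nat_lit 2) (nat_lit 9) C.nil) C.nil))) C.nil))) (List.cons (C.node (nat_lit 0) (nat_lit 4) (nat_lit 7) (C.cons (nat_lit 149) (C.node (nat_lit 0) (nat_lit 5) (nat_lit 7) (C.cons (nat_lit 161) (C.ref (nat_lit 8) (nat_lit 11649936536080)) C.nil)) (C.cons (nat_lit 145) (C.node (nat_lit 0) (nat_lit 2) (nat_lit 7) (C.cons (nat_lit 165) (C.ref (nat_lit 8) (nat_lit 11649935553040)) (C.cons (nat_lit 133) (C.node (nat_lit 0) (nat_lit 5) (nat_lit 7) (C.cons (nat_lit 161) (C.node (nat_lit 0) (nat_lit 1) (nat_lit 4) (C.cons (nat_lit 531) (C.node (nat_lit 0) (nat_lit 1) (nat_lit 5) (C.cons (nat_lit 291) (C.node (nat_lit 0) (nat_lit 2) (nat_lit 4) (C.cons (nat_lit 277) (C.node (nat_lit 0) (nat_lit 2) (nat_lit 5) (C.cons (nat_lit 549)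 (C.pat (nat_lit 0) (nat_lit 92883489) (nat_lit 157269209449753054003607561765895)) C.nil)) C.nil)) C.nil)) (C.cons (nat_lit 275) (C.node (nat_lit 0) (nat_lit 1) (nat_lit 5) (C.cons (nat_lit 547) (C.node (nat_lit 0) (nat_lit 2) (nat_lit 4) (C.cons (nat_lit 533) (C.node (nat_lit 0) (nat_lit 2) (nat_lit 5) (C.cons (nat_lit 293) (C.pat (nat_lit 0) (nat_lit 93866529) (nat_lit 157269209445030759579431449330695)) C.nil)) C.nil)) C.nil)) C.nil))) C.nil)) C.nil))) C.nil))) (List.cons (C.node (nat_lit 0) (nat_lit 4) (nat_lit 6) (C.cons (nat_lit 83) (C.node (nat_lit 0) (nat_lit 5) (nat_lit 6) (C.cons (nat_lit 97) (C.ref (nat_lit 7) (nat_lit 11649936536080)) C.nil)) (C.cons (nat_lit 81) (C.node (nat_lit 0) (nat_lit 1) (nat_lit 6) (C.cons (nat_lit 99) (C.ref (nat_lit 7) (nat_lit 11649935553040)) (C.cons (nat_lit 67) (C.node (nat_lit 0) (nat_lit 5) (nat_lit 6) (C.cons (nat_lit 97) (C.ref (nat_lit 9) (nat_lit 11649936536080)) C.nil))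 C.nil))) C.nil))) (List.cons (C.node (nat_lit 0) (nat_lit 2) (nat_lit 7) (C.cons (nat_lit 149) (C.node (nat_lit 0) (nat_lit 4) (nat_lit 8) (C.cons (nat_lit 273) (C.node (nat_lit 0) (nat_lit 4) (nat_lit 9) C.nil) C.nil)) (C.cons (nat_lit 133) (C.node (nat_lit 0) (nat_lit 4) (nat_lit 7) C.nil) C.nil))) (List.cons (C.node (nat_lit 0) (nat_lit 1) (nat_lit 7) (C.cons (nat_lit 163) (C.node (nat_lit 0) (nat_lit 1) (nat_lit 8) (C.cons (nat_lit 259) (C.node (nat_lit 0) (nat_lit 1) (nat_lit 9) (C.cons (nat_lit 515) (C.ref (nat_lit 11) (nat_lit 11649936536080)) C.nil)) C.nil)) (C.cons (nat_lit 131) (C.node (nat_lit 0) (nat_lit 1) (nat_lit 8) (C.cons (nat_lit 291) (C.node (nat_lit 0) (nat_lit 1) (nat_lit 9) (C.cons (nat_lit 515) (C.ref (nat_lit 11) (nat_lit 11645910004240)) C.nil)) (C.cons (nat_lit 259) (C.node (nat_lit 0) (nat_lit 1) (nat_lit 5) (C.cons (nat_lit 547) (C.ref (nat_lit 11) (nat_lit 11577458962960)) (C.cons (nat_lit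 35) (C.node (nat_lit 0) (nat_lit 1) (nat_lit 9) C.nil) C.nil))) C.nil))) C.nil))) (List.cons (C.node (nat_lit 0) (nat_lit 1) (nat_lit 8) (C.cons (nat_lit 275) (C.node (nat_lit 0) (nat_lit 1) (nat_lit 9) (C.cons (nat_lit 515)
  (C.node (nat_lit 0) (nat_lit 2) (nat_lit 7) (C.cons (nat_lit 149) (C.node (nat_lit 0) (nat_lit 4) (nat_lit 9) C.nil) C.nil)) C.nil)) (C.cons (nat_lit 259) (C.node (nat_lit 0) (nat_lit 1) (nat_lit 4) (C.cons (nat_lit 531) (C.node (nat_lit 0) (nat_lit 2) (nat_lit 7) (C.cons (nat_lit 149) (C.node (nat_lit 0) (nat_lit 4) (nat_lit 8) C.nil) C.nil)) C.nil)) C.nil))) (List.cons (C.node (nat_lit 0) (nat_lit 3) (nat_lit 7) (C.cons (nat_lit 139) (C.node (nat_lit 0) (nat_lit 3) (nat_lit 8) (C.cons (nat_lit 265) (C.node (nat_lit 0) (nat_lit 3) (nat_lit 9) (C.cons (nat_lit 521) (C.ref (nat_lit 10) (nat_lit 11649936536080)) C.nil)) C.nil)) (C.cons (nat_lit 137) (C.node (nat_lit 0) (nat_lit 3) (nat_lit 8) (C.cons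 (nat_lit 267) (C.node (nat_lit 0) (nat_lit 3) (nat_lit 9) (C.cons (nat_lit 521) (C.ref (nat_lit 10) (nat_lit 11645910004240)) C.nil)) (C.cons (nat_lit 265) (C.node (nat_lit 0) (nat_lit 1) (nat_lit 3) (C.cons (nat_lit 523) (C.ref (nat_lit 10) (nat_lit 11577458962960)) (C.cons (nat_lit 11) (C.node (nat_lit 0) (nat_lit 3) (nat_lit 9) (C.cons (nat_lit 521) (C.node (nat_lit 0) (nat_lit 4) (nat_lit 6) (C.cons (nat_lit 83) (C.node (nat_lit 0) (nat_lit 5) (nat_lit 6) (C.cons (nat_lit 97) (C.ref (nat_lit 12) (nat_lit 11649936536080)) C.nil)) (C.cons (nat_lit 81) (C.node (nat_lit 0) (nat_lit 1) (nat_lit 6) (C.cons (nat_lit 99) (C.ref (nat_lit 12) (nat_lit 11649935553040)) (C.cons (nat_lit 67) (C.node (nat_lit 0) (nat_lit 5) (nat_lit 6) (C.cons (nat_lit 97) (C.node (nat_lit 0) (nat_lit 1) (nat_lit 7) (C.cons (nat_lit 163) (C.ref (nat_lit 13) (nat_lit 11649936536080)) (C.cons (nat_lit 147) (C.ref (nat_lit 13) (nat_lit 11649935553040))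 (C.cons (nat_lit 131) (C.node (nat_lit 0) (nat_lit 4) (nat_lit 7) (C.cons (nat_lit 149) (C.node (nat_lit 0) (nat_lit 5) (nat_lit 7) C.nil) C.nil)) C.nil)))) C.nil)) C.nil))) C.nil))) C.nil)) C.nil))) C.nil))) C.nil))) (List.cons (C.node (nat_lit 0) (nat_lit 1) (nat_lit 3) (C.cons (nat_lit 523) (C.node (nat_lit 0) (nat_lit 2) (nat_lit 3) (C.cons (nat_lit 269) (C.node (nat_lit 0) (nat_lit 5) (nat_lit 8) (C.cons (nat_lit 289) (C.node (nat_lit 0) (nat_lit 2) (nat_lit 5) (C.cons (nat_lit 549) (C.pat (nat_lit 1) (nat_lit 646207793) (nat_lit 514044123721226375425453092490512321)) C.nil)) C.nil)) (C.cons (nat_lit 13) (C.node (nat_lit 0) (nat_lit 3) (nat_lit 8) C.nil) C.nil))) (C.cons (nat_lit 11) (C.node (nat_lit 0) (nat_lit 1) (nat_lit 9) C.nil) C.nil))) (List.cons (C.node (nat_lit 0) (nat_lit 5) (nat_lit 7) (C.cons (nat_lit 165) (C.node (nat_lit 0) (nat_lit 5) (nat_lit 8) (C.cons (nat_lit 289) (C.node (nat_lit 0) (nat_lit 5)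 (nat_lit 9) (C.cons (nat_lit 545) (C.ref (nat_lit 9) (nat_lit 11649935429920)) C.nil)) C.nil)) (C.cons (nat_lit 161) (C.node (nat_lit 0) (nat_lit 5) (nat_lit 8) (C.cons (nat_lit 293) (C.node (nat_lit 0) (nat_lit 5) (nat_lit 9) (C.cons (nat_lit 545) (C.ref (nat_lit 9) (nat_lit 11645908898080)) C.nil)) (C.cons (nat_lit 289) (C.node (nat_lit 0) (nat_lit 2) (nat_lit 5) (C.cons (nat_lit 549) (C.ref (nat_lit 9) (nat_lit 11577457856800)) (C.cons (nat_lit 37) (C.node (nat_lit 0) (nat_lit 5) (nat_lit 9) (C.cons (nat_lit 545) (C.node (nat_lit 0) (nat_lit 2) (nat_lit 7) (C.cons (nat_lit 149) (C.ref (nat_lit 13) (nat_lit 11649935429920)) (C.cons (nat_lit 141) (C.ref (nat_lit 13) (nat_lit 11649934446880)) (C.cons (nat_lit 133) (C.node (nat_lit 0) (nat_lit 3) (nat_lit 7) (C.cons (nat_lit 139) (C.node (nat_lit 0) (nat_lit 4) (nat_lit 7) C.nil) C.nil)) C.nil)))) C.nil)) C.nil))) C.nil))) C.nil))) (List.cons (C.node (nat_lit 0) (nat_lit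 2) (nat_lit 6) (C.cons (nat_lit 85) (C.node (nat_lit 0) (nat_lit 4) (nat_lit 7) (C.cons (nat_lit 147) (C.node (nat_lit 0) (nat_lit 4) (nat_lit 8) (C.cons (nat_lit 273) (C.node (nat_lit 0) (nat_lit 4) (nat_lit 9) (C.cons (nat_lit 529) (C.ref (nat_lit 7) (nat_lit 11649934508560)) C.nil)) C.nil)) (C.cons (nat_lit 145) (C.node (nat_lit 0) (nat_lit 1) (nat_lit 7) (C.cons (nat_lit 139) (C.node (nat_lit 0) (nat_lit 1) (nat_lit 8) (C.cons (nat_lit 275)
  (C.node (nat_lit 0) (nat_lit 1) (nat_lit 9) (C.cons (nat_lit 515) (C.node (nat_lit 0) (nat_lit 4) (nat_lit 9) (C.cons (nat_lit 529) (C.ref (nat_lit 6) (nat_lit 11645907976720)) C.nil)) C.nil)) (C.cons (nat_lit 259) (C.node (nat_lit 0) (nat_lit 4) (nat_lit 8) (C.cons (nat_lit 273) (C.node (nat_lit 0) (nat_lit 1) (nat_lit 4) (C.cons (nat_lit 531) (C.ref (nat_lit 6) (nat_lit 11577456935440)) (C.cons (nat_lit 19) (C.node (nat_lit 0) (nat_lit 1) (nat_lit 9) (C.cons (nat_lit 515) (C.node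 (nat_lit 0) (nat_lit 4) (nat_lit 9) (C.cons (nat_lit 529) (C.ref (nat_lit 11) (nat_lit 11649934508560)) C.nil)) C.nil)) C.nil))) C.nil)) C.nil))) (C.cons (nat_lit 131) (C.node (nat_lit 0) (nat_lit 3) (nat_lit 7) (C.cons (nat_lit 141) (C.node (nat_lit 0) (nat_lit 5) (nat_lit 7) (C.cons (nat_lit 161) (C.node (nat_lit 0) (nat_lit 2) (nat_lit 8) (C.cons (nat_lit 293) (C.node (nat_lit 0) (nat_lit 2) (nat_lit 9) (C.cons (nat_lit 517) (C.node (nat_lit 0) (nat_lit 5) (nat_lit 9) (C.cons (nat_lit 545) (C.ref (nat_lit 5) (nat_lit 11645907915040)) C.nil)) C.nil)) (C.cons (nat_lit 261) (C.node (nat_lit 0) (nat_lit 5) (nat_lit 8) (C.cons (nat_lit 289) (C.node (nat_lit 0) (nat_lit 2) (nat_lit 5) (C.cons (nat_lit 549) (C.ref (nat_lit 5) (nat_lit 11577456873760)) (C.cons (nat_lit 37) (C.node (nat_lit 0) (nat_lit 2) (nat_lit 9) (C.cons (nat_lit 517) (C.node (nat_lit 0) (nat_lit 5) (nat_lit 9) C.nil) C.nil)) C.nil))) C.nil)) C.nil))) C.nil))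 (C.cons (nat_lit 137) (C.node (nat_lit 0) (nat_lit 2) (nat_lit 7) (C.cons (nat_lit 165) (C.node (nat_lit 0) (nat_lit 5) (nat_lit 8) (C.cons (nat_lit 289) (C.node (nat_lit 0) (nat_lit 5) (nat_lit 9) (C.cons (nat_lit 545) (C.ref (nat_lit 8) (nat_lit 11649682788880)) C.nil)) C.nil)) (C.cons (nat_lit 133) (C.node (nat_lit 0) (nat_lit 5) (nat_lit 7) (C.cons (nat_lit 161) (C.node (nat_lit 0) (nat_lit 4) (nat_lit 8) (C.cons (nat_lit 275) (C.node (nat_lit 0) (nat_lit 4) (nat_lit 9) (C.cons (nat_lit 529) (C.ref (nat_lit 15) (nat_lit 11649936536080)) C.nil)) (C.cons (nat_lit 273) (C.node (nat_lit 0) (nat_lit 1) (nat_lit 4) (C.cons (nat_lit 531) (C.ref (nat_lit 15) (nat_lit 11585512026640)) (C.cons (nat_lit 19) (C.node (nat_lit 0) (nat_lit 4) (nat_lit 9) C.nil) C.nil))) C.nil))) C.nil)) C.nil))) C.nil))) C.nil))) C.nil))) (C.cons (nat_lit 69) (C.node (nat_lit 0) (nat_lit 4) (nat_lit 6) (C.cons (nat_lit 81) (C.ref (nat_lit 16) (nat_lit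 11649936536080)) C.nil)) C.nil))) (List.cons (C.node (nat_lit 0) (nat_lit 4) (nat_lit 7) (C.cons (nat_lit 147) (C.node (nat_lit 0) (nat_lit 5) (nat_lit 7) (C.cons (nat_lit 161) (C.ref (nat_lit 15) (nat_lit 11649683771920)) C.nil)) (C.cons (nat_lit 145) (C.node (nat_lit 0) (nat_lit 1) (nat_lit 4) (C.cons (nat_lit 531) (C.node (nat_lit 0) (nat_lit 1) (nat_lit 5) (C.cons (nat_lit 163) (C.node (nat_lit 0) (nat_lit 2) (nat_lit 4) (C.cons (nat_lit 277) (C.node (nat_lit 0) (nat_lit 5) (nat_lit 8) (C.cons (nat_lit 289) (C.node (nat_lit 0) (nat_lit 2) (nat_lit 5) (C.cons (nat_lit 549) (C.pat (nat_lit 1) (nat_lit 662919489) (nat_lit 846355559434884735899644896797591489)) C.nil)) C.nil)) (C.cons (nat_lit 21) (C.node (nat_lit 0) (nat_lit 4) (nat_lit 8) C.nil) C.nil))) (C.cons (nat_lit 35) (C.node (nat_lit 0) (nat_lit 1) (nat_lit 7) C.nil) C.nil))) (C.cons (nat_lit 19) (C.node (nat_lit 0) (nat_lit 1) (nat_lit 7) (C.cons (nat_lit 163)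 (C.node (nat_lit 0) (nat_lit 1) (nat_lit 9) C.nil) C.nil)) C.nil))) C.nil))) (List.cons (C.node (nat_lit 0) (nat_lit 1) (nat_lit 3) (C.cons (nat_lit 523) (C.ref (nat_lit 18) (nat_lit 11585512026640)) (C.cons (nat_lit 11) (C.node (nat_lit 0) (nat_lit 3) (nat_lit 9) (C.cons (nat_lit 521) (C.node (nat_lit 0) (nat_lit 4) (nat_lit 7) (C.cons (nat_lit 147) (C.node (nat_lit 0) (nat_lit 5) (nat_lit 7) C.nil) C.nil)) C.nil)) C.nil))) (List.cons (C.node (nat_lit 0) (nat_lit 4) (nat_lit 7) (C.cons (nat_lit 149) (C.node (nat_lit 0) (nat_lit 4) (nat_lit 8) (C.cons (nat_lit 273) (C.node (nat_lit 0) (nat_lit 4) (nat_lit 9) (C.cons (nat_lit 529) (C.node (nat_lit 0) (nat_lit 5) (nat_lit 7)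
  (C.cons (nat_lit 161) (C.node (nat_lit 0) (nat_lit 1) (nat_lit 8) (C.cons (nat_lit 291) (C.node (nat_lit 0) (nat_lit 2) (nat_lit 8) C.nil) (C.cons (nat_lit 263) (C.node (nat_lit 0) (nat_lit 5) (nat_lit 8) C.nil) C.nil))) C.nil)) C.nil)) C.nil)) (C.cons (nat_lit 145) (C.node (nat_lit 0) (nat_lit 2) (nat_lit 7) (C.cons (nat_lit 165) (C.node (nat_lit 0) (nat_lit 4) (nat_lit 8) (C.cons (nat_lit 277) (C.node (nat_lit 0) (nat_lit 4) (nat_lit 9) (C.cons (nat_lit 529) (C.node (nat_lit 0) (nat_lit 1) (nat_lit 2) (C.cons (nat_lit 519) (C.node (nat_lit 0) (nat_lit 5) (nat_lit 9) (C.cons (nat_lit 545) (C.node (nat_lit 0) (nat_lit 1) (nat_lit 5) (C.cons (nat_lit 291) (C.pat (nat_lit 1) (nat_lit 677664561) (nat_lit 1510980332134995177886348397331941313)) C.nil)) C.nil)) (C.cons (nat_lit 7) (C.node (nat_lit 0) (nat_lit 2) (nat_lit 9) C.nil) C.nil))) C.nil)) (C.cons (nat_lit 273) (C.node (nat_lit 0) (nat_lit 2) (nat_lit 4) (C.cons (nat_lit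 533) (C.node (nat_lit 0) (nat_lit 1) (nat_lit 2) (C.cons (nat_lit 263) (C.node (nat_lit 0) (nat_lit 5) (nat_lit 8) (C.cons (nat_lit 289) (C.node (nat_lit 0) (nat_lit 1) (nat_lit 5) (C.cons (nat_lit 547) (C.pat (nat_lit 1) (nat_lit 694441777) (nat_lit 2840228610329514702460579404863571905)) C.nil)) C.nil)) (C.cons (nat_lit 7) (C.node (nat_lit 0) (nat_lit 2) (nat_lit 8) C.nil) C.nil))) (C.cons (nat_lit 21) (C.node (nat_lit 0) (nat_lit 4) (nat_lit 9) C.nil) C.nil))) C.nil))) (C.cons (nat_lit 133) (C.node (nat_lit 0) (nat_lit 5) (nat_lit 7) (C.cons (nat_lit 161) (C.node (nat_lit 0) (nat_lit 4) (nat_lit 8) (C.cons (nat_lit 277) (C.node (nat_lit 0) (nat_lit 4) (nat_lit 9) C.nil) C.nil)) C.nil)) C.nil))) C.nil))) List.nil)))))))))))))))))))))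

theorem ok11_0 : okL par11 (nat_lit 21) c11_0 (nat_lit 0) = true := by decide +kernel

noncomputable def c11_21 : List C :=
  (List.cons (C.node (nat_lit 0) (nat_lit 4) (nat_lit 6) (C.cons (nat_lit 83) (C.node (nat_lit 0) (nat_lit 5) (nat_lit 6) (C.cons (nat_lit 97) (C.ref (nat_lit 20) (nat_lit 11649936536080)) C.nil)) (C.cons (nat_lit 81) (C.node (nat_lit 0) (nat_lit 1) (nat_lit 6) (C.cons (nat_lit 99) (C.ref (nat_lit 20) (nat_lit 11649935553040)) (C.cons (nat_lit 67) (C.node (nat_lit 0) (nat_lit 5) (nat_lit 6) (C.cons (nat_lit 97) (C.node (nat_lit 0) (nat_lit 4) (nat_lit 7) (C.cons (nat_lit 149) (C.node (nat_lit 0) (nat_lit 5) (nat_lit 7) (C.cons (nat_lit 161) (C.node (nat_lit 0) (nat_lit 4) (nat_lit 8) (C.cons (nat_lit 275) (C.node (nat_lit 0) (nat_lit 4) (nat_lit 9) C.nil) C.nil)) C.nil)) (C.cons (nat_lit 145) (C.node (nat_lit 0) (nat_lit 2) (nat_lit 7) (C.cons (nat_lit 165) (C.node (nat_lit 0) (nat_lit 5) (nat_lit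 8) (C.cons (nat_lit 291) (C.node (nat_lit 0) (nat_lit 5) (nat_lit 9) C.nil) C.nil)) C.nil)) C.nil))) C.nil)) C.nil))) C.nil))) (List.cons (C.node (nat_lit 0) (nat_lit 4) (nat_lit 6) (C.cons (nat_lit 83) (C.node (nat_lit 0) (nat_lit 5) (nat_lit 6) (C.cons (nat_lit 97) (C.node (nat_lit 0) (nat_lit 4) (nat_lit 7) (C.cons (nat_lit 149) (C.node (nat_lit 0) (nat_lit 4) (nat_lit 8) (C.cons (nat_lit 273) (C.node (nat_lit 0) (nat_lit 4) (nat_lit 9) C.nil) C.nil)) (C.cons (nat_lit 145) (C.node (nat_lit 0) (nat_lit 4) (nat_lit 8) (C.cons (nat_lit 277) (C.node (nat_lit 0) (nat_lit 4) (nat_lit 9) C.nil) C.nil)) C.nil))) C.nil)) (C.cons (nat_lit 81) (C.node (nat_lit 0) (nat_lit 1) (nat_lit 6) (C.cons (nat_lit 99) (C.node (nat_lit 0) (nat_lit 5) (nat_lit 7) (C.cons (nat_lit 165) (C.node (nat_lit 0) (nat_lit 5) (nat_lit 8) (C.cons (nat_lit 289) (C.node (nat_lit 0) (nat_lit 5) (nat_lit 9) C.nil) C.nil)) (C.cons (nat_lit 161) (C.node (nat_lit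 0) (nat_lit 5) (nat_lit 8) (C.cons (nat_lit 293) (C.node (nat_lit 0) (nat_lit 5) (nat_lit 9) C.nil) C.nil)) C.nil))) (C.cons (nat_lit 67) (C.node (nat_lit 0) (nat_lit 5) (nat_lit 6) C.nil) C.nil))) C.nil))) (List.cons (C.node (nat_lit 0) (nat_lit 1) (nat_lit 3) (C.cons (nat_lit 523) (C.ref (nat_lit 21) (nat_lit 11577458962960)) (C.cons (nat_lit 11) (C.node (nat_lit 0) (nat_lit 3) (nat_lit 9) (C.cons (nat_lit 521) (C.ref (nat_lit 22) (nat_lit 11649936536080)) C.nil)) C.nil))) (List.cons (C.node (nat_lit 0) (nat_lit 3) (nat_lit 8) (C.cons (nat_lit 267) (C.node (nat_lit 0) (nat_lit 3) (nat_lit 9) (C.cons (nat_lit 521) (C.ref (nat_lit 21) (nat_lit 11645910004240)) C.nil)) (C.cons (nat_lit 265) (C.ref (nat_lit 23) (nat_lit 11649936536080)) C.nil))) (List.cons (C.node (nat_lit 0) (nat_lit 3) (nat_lit 7) (C.cons (nat_lit 139) (C.node (nat_lit 0) (nat_lit 3) (nat_lit 8) (C.cons (nat_lit 265) (C.node (nat_lit 0) (nat_lit 3) (nat_lit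 9) (C.cons (nat_lit 521) (C.ref (nat_lit 21) (nat_lit 11649936536080)) C.nil)) C.nil)) (C.cons (nat_lit 137) (C.ref (nat_lit 24) (nat_lit 11649936536080)) C.nil))) (List.cons (C.node (nat_lit 0) (nat_lit 1) (nat_lit 7) (C.cons (nat_lit 147) (C.node (nat_lit 0) (nat_lit 1) (nat_lit 8) (C.cons (nat_lit 259) (C.node (nat_lit 0) (nat_lit 1) (nat_lit 9) (C.cons (nat_lit 515) (C.node (nat_lit 0) (nat_lit 2) (nat_lit 6) (C.cons (nat_lit 85) (C.node (nat_lit 0) (nat_lit 4) (nat_lit 8) C.nil) C.nil)) C.nil)) C.nil)) (C.cons (nat_lit 131) (C.node (nat_lit 0) (nat_lit 1) (nat_lit 8) (C.cons (nat_lit 275) (C.node (nat_lit 0) (nat_lit 1) (nat_lit 9) (C.cons (nat_lit 515) (C.node (nat_lit 0) (nat_lit 2) (nat_lit 6) (C.cons (nat_lit 85) (C.node (nat_lit 0) (nat_lit 4) (nat_lit 7) C.nil) C.nil)) C.nil)) (C.cons (nat_lit 259) (C.node (nat_lit 0) (nat_lit 1) (nat_lit 4) (C.cons (nat_lit 531) (C.node (nat_lit 0) (nat_lit 2) (nat_lit 6) (C.cons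 (nat_lit 85) (C.node (nat_lit 0) (nat_lit 4) (nat_lit 7) C.nil) C.nil)) C.nil)) C.nil))) C.nil))) (List.cons (C.big (C.cons (nat_lit 551) (C.ref (nat_lit 3) (nat_lit 11649936536080)) (C.cons (nat_lit 535) (C.ref (nat_lit 3) (nat_lit 11649935553040)) (C.cons (nat_lit 527) (C.ref (nat_lit 3) (nat_lit 11649934508560)) (C.cons (nat_lit 295)
  (C.ref (nat_lit 3) (nat_lit 11585512026640)) (C.cons (nat_lit 279) (C.ref (nat_lit 3) (nat_lit 11585511043600)) (C.cons (nat_lit 271) (C.ref (nat_lit 3) (nat_lit 11585509999120)) (C.cons (nat_lit 167) (C.ref (nat_lit 3) (nat_lit 11517060985360)) (C.cons (nat_lit 151) (C.ref (nat_lit 3) (nat_lit 11517060002320)) (C.cons (nat_lit 143) (C.ref (nat_lit 3) (nat_lit 11517058957840)) (C.cons (nat_lit 103) (C.ref (nat_lit 3) (nat_lit 11448358285840)) (C.cons (nat_lit 87) (C.ref (nat_lit 3) (nat_lit 11448357302800)) (C.cons (nat_lit 79) (C.ref (nat_lit 3) (nat_lit 11448356258320)) C.nil))))))))))))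 (C.node (nat_lit 0) (nat_lit 1) (nat_lit 10) (C.cons (nat_lit 1031) (C.node (nat_lit 0) (nat_lit 3) (nat_lit 6) (C.cons (nat_lit 77) (C.ref (nat_lit 14) (nat_lit 11649936536080)) (C.cons (nat_lit 75) (C.ref (nat_lit 14) (nat_lit 11649936535840)) (C.cons (nat_lit 73) (C.node (nat_lit 0) (nat_lit 1) (nat_lit 6) (C.cons (nat_lit 99) (C.ref (nat_lit 17) (nat_lit 11649936536080)) (C.cons (nat_lit 83) (C.ref (nat_lit 17) (nat_lit 11649935553040)) (C.cons (nat_lit 67) (C.node (nat_lit 0) (nat_lit 4) (nat_lit 6) (C.cons (nat_lit 85) (C.node (nat_lit 0) (nat_lit 5) (nat_lit 6) (C.cons (nat_lit 97) (C.ref (nat_lit 16) (nat_lit 11649935552800)) C.nil)) (C.cons (nat_lit 81) (C.node (nat_lit 0) (nat_lit 2) (nat_lit 6) (C.cons (nat_lit 101) (C.ref (nat_lit 16) (nat_lit 11649936535840)) (C.cons (nat_lit 69) (C.node (nat_lit 0) (nat_lit 5) (nat_lit 6) (C.cons (nat_lit 97) (C.node (nat_lit 0) (nat_lit 3) (nat_lit 7) (C.cons (nat_lit 141)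 (C.node (nat_lit 0) (nat_lit 3) (nat_lit 8) (C.cons (nat_lit 267) (C.node (nat_lit 0) (nat_lit 3) (nat_lit 9) (C.cons (nat_lit 521) (C.ref (nat_lit 18) (nat_lit 11649936536080)) C.nil)) (C.cons (nat_lit 265) (C.ref (nat_lit 19) (nat_lit 11649936536080)) C.nil))) (C.cons (nat_lit 139) (C.node (nat_lit 0) (nat_lit 3) (nat_lit 8) (C.cons (nat_lit 269) (C.node (nat_lit 0) (nat_lit 3) (nat_lit 9) (C.cons (nat_lit 521) (C.ref (nat_lit 18) (nat_lit 11649936535840)) C.nil)) (C.cons (nat_lit 265) (C.ref (nat_lit 19) (nat_lit 11649936535840)) C.nil))) (C.cons (nat_lit 137) (C.node (nat_lit 0) (nat_lit 1) (nat_lit 3) (C.cons (nat_lit 523) (C.ref (nat_lit 19) (nat_lit 11577458962720)) (C.cons (nat_lit 267) (C.ref (nat_lit 19) (nat_lit 11645910004000)) (C.cons (nat_lit 11) (C.node (nat_lit 0) (nat_lit 3) (nat_lit 8) (C.cons (nat_lit 269) (C.node (nat_lit 0) (nat_lit 3) (nat_lit 9) (C.cons (nat_lit 521) (C.node (nat_lit 0) (nat_lit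 4) (nat_lit 8) (C.cons (nat_lit 275) (C.node (nat_lit 0) (nat_lit 5) (nat_lit 8) C.nil) C.nil)) C.nil)) (C.cons (nat_lit 265) (C.node (nat_lit 0) (nat_lit 2) (nat_lit 3) (C.cons (nat_lit 525) (C.node (nat_lit 0) (nat_lit 4) (nat_lit 9) (C.cons (nat_lit 531) (C.node (nat_lit 0) (nat_lit 5) (nat_lit 9) C.nil) C.nil)) C.nil)) C.nil))) C.nil)))) C.nil)))) C.nil)) C.nil))) C.nil))) C.nil)))) C.nil)))) (C.cons (nat_lit 1027) (C.node (nat_lit 0) (nat_lit 2) (nat_lit 10) (C.cons (nat_lit 1029) (C.node (nat_lit 0) (nat_lit 3) (nat_lit 6) (C.cons (nat_lit 77) (C.ref (nat_lit 25) (nat_lit 11649936536080)) (C.cons (nat_lit 75) (C.ref (nat_lit 25) (nat_lit 11649936535840)) (C.cons (nat_lit 73) (C.node (nat_lit 0) (nat_lit 3) (nat_lit 7) (C.cons (nat_lit 141) (C.ref (nat_lit 24) (nat_lit 11649684877840)) (C.cons (nat_lit 139) (C.ref (nat_lit 24) (nat_lit 11649684877600)) (C.cons (nat_lit 137) (C.node (nat_lit 0) (nat_lit 3) (nat_lit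 8) (C.cons (nat_lit 269) (C.ref (nat_lit 23) (nat_lit 11645406687760)) (C.cons (nat_lit 267) (C.ref (nat_lit 23) (nat_lit 11645406687520)) (C.cons (nat_lit 265) (C.node (nat_lit 0) (nat_lit 1) (nat_lit 3) (C.cons (nat_lit 523) (C.node (nat_lit 0) (nat_lit 2) (nat_lit 3) (C.cons (nat_lit 13) (C.ref (nat_lit 22) (nat_lit 11576703988000)) C.nil)) (C.cons (nat_lit 15) (C.node (nat_lit 0) (nat_lit 3) (nat_lit 9) (C.cons (nat_lit 521) (C.node (nat_lit 0) (nat_lit 1) (nat_lit 6) (C.cons (nat_lit 99) (C.ref (nat_lit 26) (nat_lit 11649936536080)) (C.cons (nat_lit 83)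
  (C.ref (nat_lit 26) (nat_lit 11649935553040)) (C.cons (nat_lit 67) (C.node (nat_lit 0) (nat_lit 4) (nat_lit 6) (C.cons (nat_lit 85) (C.node (nat_lit 0) (nat_lit 5) (nat_lit 6) (C.cons (nat_lit 97) (C.node (nat_lit 0) (nat_lit 2) (nat_lit 7) (C.cons (nat_lit 165) (C.node (nat_lit 0) (nat_lit 2) (nat_lit 8) C.nil) C.nil)) C.nil)) (C.cons (nat_lit 81) (C.node (nat_lit 0) (nat_lit 2) (nat_lit 6) (C.cons (nat_lit 101) (C.node (nat_lit 0) (nat_lit 2) (nat_lit 7) (C.cons (nat_lit 149) (C.node (nat_lit 0) (nat_lit 2) (nat_lit 8) C.nil) C.nil)) C.nil)) C.nil))) C.nil)))) C.nil)) (C.cons (nat_lit 11) (C.node (nat_lit 0) (nat_lit 2) (nat_lit 3) (C.cons (nat_lit 525) (C.ref (nat_lit 22) (nat_lit 11576703988240)) (C.cons (nat_lit 13) (C.node (nat_lit 0) (nat_lit 3) (nat_lit 9) (C.cons (nat_lit 521) (C.node (nat_lit 0) (nat_lit 4) (nat_lit 6) (C.cons (nat_lit 85) (C.node (nat_lit 0) (nat_lit 1) (nat_lit 6) (C.cons (nat_lit 99) (C.node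 (nat_lit 0) (nat_lit 4) (nat_lit 7) (C.cons (nat_lit 147) (C.node (nat_lit 0) (nat_lit 4) (nat_lit 8) C.nil) C.nil)) C.nil)) (C.cons (nat_lit 83) (C.node (nat_lit 0) (nat_lit 2) (nat_lit 6) (C.cons (nat_lit 101) (C.node (nat_lit 0) (nat_lit 4) (nat_lit 7) (C.cons (nat_lit 149) (C.node (nat_lit 0) (nat_lit 4) (nat_lit 8) C.nil) C.nil)) C.nil)) C.nil))) C.nil)) C.nil))) C.nil)))) C.nil)))) C.nil)))) C.nil)))) C.nil)) C.nil)))) (List.cons (C.node (nat_lit 0) (nat_lit 3) (nat_lit 6) (C.cons (nat_lit 73) (C.node (nat_lit 0) (nat_lit 4) (nat_lit 6) (C.cons (nat_lit 81) (C.node (nat_lit 0) (nat_lit 5) (nat_lit 6) (C.cons (nat_lit 97) (C.node (nat_lit 0) (nat_lit 3) (nat_lit 7) (C.cons (nat_lit 139) (C.node (nat_lit 0) (nat_lit 3) (nat_lit 8) (C.cons (nat_lit 265) (C.node (nat_lit 0) (nat_lit 3) (nat_lit 9) C.nil) C.nil)) (C.cons (nat_lit 137) (C.node (nat_lit 0) (nat_lit 3) (nat_lit 8) (C.cons (nat_lit 267) (C.node (nat_lit 0)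 (nat_lit 3) (nat_lit 9) C.nil) C.nil)) C.nil))) C.nil)) C.nil)) C.nil)) (List.cons (C.node (nat_lit 0) (nat_lit 2) (nat_lit 8) (C.cons (nat_lit 261) (C.node (nat_lit 0) (nat_lit 2) (nat_lit 9) (C.cons (nat_lit 517) (C.node (nat_lit 0) (nat_lit 2) (nat_lit 10) (C.cons (nat_lit 1029) (C.ref (nat_lit 28) (nat_lit 11649936536080)) C.nil)) C.nil)) C.nil)) (List.cons (C.big C.nil (C.node (nat_lit 0) (nat_lit 2) (nat_lit 6) (C.cons (nat_lit 71) (C.node (nat_lit 0) (nat_lit 2) (nat_lit 7) (C.cons (nat_lit 133) (C.ref (nat_lit 29) (nat_lit 11649936536080)) C.nil)) (C.cons (nat_lit 69) (C.node (nat_lit 0) (nat_lit 2) (nat_lit 7) (C.cons (nat_lit 135) (C.ref (nat_lit 29) (nat_lit 11649684877840)) (C.cons (nat_lit 133) (C.node (nat_lit 0) (nat_lit 2) (nat_lit 8) (C.cons (nat_lit 263) (C.node (nat_lit 0) (nat_lit 2) (nat_lit 9) (C.cons (nat_lit 517) (C.node (nat_lit 0) (nat_lit 2) (nat_lit 10) (C.cons (nat_lit 1029) (C.ref (nat_lit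 28) (nat_lit 11645406687760)) C.nil)) C.nil)) (C.cons (nat_lit 261) (C.node (nat_lit 0) (nat_lit 2) (nat_lit 9) (C.cons (nat_lit 519) (C.node (nat_lit 0) (nat_lit 2) (nat_lit 10) (C.cons (nat_lit 1029) (C.ref (nat_lit 28) (nat_lit 11576703988240)) C.nil)) (C.cons (nat_lit 517) (C.node (nat_lit 0) (nat_lit 1) (nat_lit 2) (C.cons (nat_lit 1031) (C.ref (nat_lit 28) (nat_lit 10477209137680)) (C.cons (nat_lit 7) (C.node (nat_lit 0) (nat_lit 2) (nat_lit 10) (C.cons (nat_lit 1029) (C.node (nat_lit 0) (nat_lit 3) (nat_lit 6) (C.cons (nat_lit 75) (C.node (nat_lit 0) (nat_lit 3) (nat_lit 7) (C.cons (nat_lit 137) (C.node (nat_lit 0) (nat_lit 3) (nat_lit 8) (C.cons (nat_lit 265) (C.node (nat_lit 0) (nat_lit 3) (nat_lit 9) C.nil) C.nil)) C.nil)) (C.cons (nat_lit 73) (C.node (nat_lit 0) (nat_lit 3) (nat_lit 7) (C.cons (nat_lit 139) (C.node (nat_lit 0) (nat_lit 3) (nat_lit 8) (C.cons (nat_lit 265) (C.node (nat_lit 0) (nat_lit 3) (nat_lit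 9) C.nil) C.nil)) (C.cons (nat_lit 137) (C.node (nat_lit 0) (nat_lit 3) (nat_lit 8) (C.cons (nat_lit 267) (C.node (nat_lit 0) (nat_lit 3) (nat_lit 9) C.nil) C.nil)) C.nil))) C.nil))) C.nil)) C.nil))) C.nil))) C.nil))) C.nil))) C.nil)))) (List.cons
  (C.node (nat_lit 0) (nat_lit 2) (nat_lit 3) (C.cons (nat_lit 1037) (C.node (nat_lit 0) (nat_lit 3) (nat_lit 7) (C.cons (nat_lit 169) (C.node (nat_lit 0) (nat_lit 3) (nat_lit 4) (C.cons (nat_lit 537) (C.node (nat_lit 0) (nat_lit 5) (nat_lit 9) (C.cons (nat_lit 545) (C.node (nat_lit 0) (nat_lit 4) (nat_lit 5) (C.cons (nat_lit 1073) (C.qs (C.cons (nat_lit 6272) (C.pat (nat_lit 0) (nat_lit 192305201) (nat_lit 157268256807426517096816158376203)) (C.cons (nat_lit 4480) (C.pat (nat_lit 2) (nat_lit 39111205986) (nat_lit 11975525012737924513707239267082302950905021443)) (C.cons (nat_lit 4672) (C.pat (nat_lit 2) (nat_lit 31326373217) (nat_lit 3768850779605963040659638354523682829483835665))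 (C.cons (nat_lit 4416) (C.pat (nat_lit 3) (nat_lit 13340330630) (nat_lit 23126222242253450477952114831154918061608601537)) (C.cons (nat_lit 4384) (C.pat (nat_lit 3) (nat_lit 5464275574) (nat_lit 22903230442633934310132372117982509754529417153)) (C.cons (nat_lit 16480) (C.pat (nat_lit 2) (nat_lit 39279363185) (nat_lit 11975557680021687016022775234668340483479240997)) (C.cons (nat_lit 4192) (C.pat (nat_lit 3) (nat_lit 11615279222) (nat_lit 6534211240946230868737873845953818626198013889)) (C.cons (nat_lit 352) (C.pat (nat_lit 3) (nat_lit 22066961031) (nat_lit 23929052472359220254135079857415658786690107329)) (C.cons (nat_lit 4448) (C.pat (nat_lit 3) (nat_lit 11615279222) (nat_lit 6534211240946230868737873845953818626198013889)) (C.cons (nat_lit 16464) (C.pat (nat_lit 0) (nat_lit 195581506) (nat_lit 157268022279507115130699655741525)) (C.cons (nat_lit 8456) (C.pat (nat_lit 0) (nat_lit 195450689) (nat_lit 157268106900846500268841527083155))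 (C.cons (nat_lit 584) (C.pat (nat_lit 0) (nat_lit 194463793) (nat_lit 157268232630681115819697941709067)) (C.cons (nat_lit 328) (C.pat (nat_lit 2) (nat_lit 39815192963) (nat_lit 11574186462188555556951008032256791281723442225)) (C.cons (nat_lit 388) (C.pat (nat_lit 0) (nat_lit 195574049) (nat_lit 157268551789385031086610255118855)) (C.cons (nat_lit 16420) (C.pat (nat_lit 0) (nat_lit 191318305) (nat_lit 157268551786433284066653160800775)) (C.cons (nat_lit 292) (C.pat (nat_lit 2) (nat_lit 34815124851) (nat_lit 6534163601487697972689998888691185792856949763)) (C.cons (nat_lit 6146) (C.pat (nat_lit 2) (nat_lit 35235009889) (nat_lit 6534147267549855799473862569332470669660848665)) (C.cons (nat_lit 9218) (C.pat (nat_lit 0) (nat_lit 193354017) (nat_lit 157268561456954455815665207149063)) (C.cons (nat_lit 8450) (C.pat (nat_lit 2) (nat_lit 35772932498) (nat_lit 5954481702468671979790560704884714652050064433)) (C.cons (nat_lit 4354)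 (C.pat (nat_lit 3) (nat_lit 18024700566) (nat_lit 23929052473626162237677786327232787754036430785)) (C.cons (nat_lit 4162) (C.pat (nat_lit 3) (nat_lit 48374094214) (nat_lit 12154088866247746412950908338478496547044788161)) (C.cons (nat_lit 322) (C.pat (nat_lit 3) (nat_lit 48655121048) (nat_lit 22903230444700499041899970808622755065952405441)) (C.cons (nat_lit 4418) (C.pat (nat_lit 3) (nat_lit 48374094214) (nat_lit 12154088866247746412950908338478496547044788161)) (C.cons (nat_lit 4130) (C.pat (nat_lit 3) (nat_lit 14415898998) (nat_lit 11975685626378426354726978671470003016535705537)) (C.cons (nat_lit 1058) (C.pat (nat_lit 2) (nat_lit 27298862193) (nat_lit 1895608600307558889490348357365551429502304801)) (C.cons (nat_lit 290) (C.pat (nat_lit 3) (nat_lit 9046350487) (nat_lit 23126222243561928617974549891574252715060561857)) (C.cons (nat_lit 4386) (C.pat (nat_lit 3) (nat_lit 14415898998) (nat_lit 11975685626378426354726978671470003016535705537))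 (C.cons (nat_lit 98) (C.pat (nat_lit 3) (nat_lit 10117925255) (nat_lit 11574272213448729456038919327534747723261740993)) (C.cons (nat_lit 4194) (C.pat (nat_lit 3) (nat_lit 11615279222) (nat_lit 6534211240946230868737873845953818626198013889)) (C.cons (nat_lit 354) (C.pat (nat_lit 3) (nat_lit 10117925255) (nat_lit 11574272213448729456038919327534747723261740993)) (C.cons (nat_lit 4450)
  (C.pat (nat_lit 3) (nat_lit 11615279222) (nat_lit 6534211240946230868737873845953818626198013889)) (C.cons (nat_lit 2066) (C.pat (nat_lit 0) (nat_lit 195516739) (nat_lit 157268561458098373502024163066393)) (C.cons (nat_lit 82) (C.pat (nat_lit 2) (nat_lit 26895684994) (nat_lit 2207864631464153892523245727266431699305955865)) (C.cons (nat_lit 4609) (C.pat (nat_lit 0) (nat_lit 194398770) (nat_lit 157269199769565920091961585632269)) (C.cons (nat_lit 4129) (C.pat (nat_lit 2) (nat_lit 39545696868) (nat_lit 11574120446370913522101350929395821327072690345))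 (C.cons (nat_lit 1057) (C.pat (nat_lit 0) (nat_lit 192436786) (nat_lit 157269199773144484857811965379597)) C.nil))))))))))))))))))))))))))))))))))))) C.nil)) C.nil)) (C.cons (nat_lit 25) (C.node (nat_lit 0) (nat_lit 3) (nat_lit 9) C.nil) C.nil))) (C.cons (nat_lit 137) (C.node (nat_lit 0) (nat_lit 5) (nat_lit 7) C.nil) C.nil))) (C.cons (nat_lit 13) (C.node (nat_lit 0) (nat_lit 2) (nat_lit 10) C.nil) C.nil))) (List.cons (C.node (nat_lit 0) (nat_lit 2) (nat_lit 7) (C.cons (nat_lit 141) (C.node (nat_lit 0) (nat_lit 2) (nat_lit 10) (C.cons (nat_lit 1029) (C.node (nat_lit 0) (nat_lit 5) (nat_lit 7) (C.cons (nat_lit 161) (C.node (nat_lit 0) (nat_lit 3) (nat_lit 9) (C.cons (nat_lit 553) (C.node (nat_lit 0) (nat_lit 4) (nat_lit 9) C.nil) (C.cons (nat_lit 537) (C.node (nat_lit 0) (nat_lit 5) (nat_lit 9) C.nil) C.nil))) C.nil)) C.nil)) (C.cons (nat_lit 133) (C.ref (nat_lit 31) (nat_lit 11649936536080)) C.nil))) (List.cons (C.node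 (nat_lit 0) (nat_lit 2) (nat_lit 7) (C.cons (nat_lit 165) (C.node (nat_lit 0) (nat_lit 3) (nat_lit 7) C.nil) (C.cons (nat_lit 141) (C.node (nat_lit 0) (nat_lit 5) (nat_lit 7) C.nil) C.nil))) (List.cons (C.node (nat_lit 0) (nat_lit 2) (nat_lit 8) (C.cons (nat_lit 293) (C.node (nat_lit 0) (nat_lit 4) (nat_lit 8) (C.cons (nat_lit 273) (C.ref (nat_lit 32) (nat_lit 11649936536080)) C.nil)) (C.cons (nat_lit 261) (C.node (nat_lit 0) (nat_lit 4) (nat_lit 8) (C.cons (nat_lit 305) (C.ref (nat_lit 32) (nat_lit 11513034322960)) (C.cons (nat_lit 273) (C.node (nat_lit 0) (nat_lit 5) (nat_lit 8) (C.cons (nat_lit 289) (C.ref (nat_lit 33) (nat_lit 11649936536080)) C.nil)) C.nil))) C.nil))) (List.cons (C.node (nat_lit 0) (nat_lit 2) (nat_lit 8) (C.cons (nat_lit 293) (C.node (nat_lit 0) (nat_lit 4) (nat_lit 8) (C.cons (nat_lit 273) (C.node (nat_lit 0) (nat_lit 2) (nat_lit 7) (C.cons (nat_lit 141) (C.node (nat_lit 0) (nat_lit 2) (nat_lit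 9) C.nil) C.nil)) C.nil)) (C.cons (nat_lit 261) (C.node (nat_lit 0) (nat_lit 4) (nat_lit 8) (C.cons (nat_lit 305) (C.node (nat_lit 0) (nat_lit 4) (nat_lit 9) (C.cons (nat_lit 537) (C.node (nat_lit 0) (nat_lit 4) (nat_lit 10) C.nil) C.nil)) C.nil)) C.nil))) (List.cons (C.node (nat_lit 0) (nat_lit 2) (nat_lit 7) (C.cons (nat_lit 165) (C.node (nat_lit 0) (nat_lit 3) (nat_lit 7) (C.cons (nat_lit 137) (C.node (nat_lit 0) (nat_lit 2) (nat_lit 9) (C.cons (nat_lit 525) (C.node (nat_lit 0) (nat_lit 2) (nat_lit 10) C.nil) C.nil)) C.nil)) (C.cons (nat_lit 141) (C.node (nat_lit 0) (nat_lit 5) (nat_lit 7) (C.cons (nat_lit 161) (C.node (nat_lit 0) (nat_lit 2) (nat_lit 9) (C.cons (nat_lit 549) (C.node (nat_lit 0) (nat_lit 2) (nat_lit 10) C.nil) C.nil)) C.nil)) (C.cons (nat_lit 133) (C.node (nat_lit 0) (nat_lit 3) (nat_lit 7) (C.cons (nat_lit 169) (C.node (nat_lit 0) (nat_lit 3) (nat_lit 8) (C.cons (nat_lit 281) (C.node (nat_lit 0) (nat_lit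 5) (nat_lit 8) C.nil) C.nil)) C.nil)) C.nil)))) (List.cons (C.node (nat_lit 0) (nat_lit 1) (nat_lit 8) (C.cons (nat_lit 267) (C.node (nat_lit 0) (nat_lit 1) (nat_lit 9) (C.cons (nat_lit 519) (C.node (nat_lit 0) (nat_lit 1) (nat_lit 10) (C.cons (nat_lit 1027) (C.ref (nat_lit 34) (nat_lit 11649936536080)) C.nil)) (C.cons (nat_lit 515) (C.node (nat_lit 0) (nat_lit 1) (nat_lit 2) (C.cons (nat_lit 1031) (C.ref (nat_lit 34) (nat_lit 10619144385040)) (C.cons (nat_lit 7) (C.node (nat_lit 0) (nat_lit 1) (nat_lit 10) (C.cons (nat_lit 1027) (C.ref (nat_lit 35) (nat_lit 11649936536080)) C.nil)) C.nil))) C.nil))) (C.cons (nat_lit 263)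
  (C.node (nat_lit 0) (nat_lit 1) (nat_lit 9) (C.cons (nat_lit 523) (C.node (nat_lit 0) (nat_lit 1) (nat_lit 10) (C.cons (nat_lit 1027) (C.ref (nat_lit 34) (nat_lit 11585512026640)) C.nil)) (C.cons (nat_lit 515) (C.node (nat_lit 0) (nat_lit 1) (nat_lit 3) (C.cons (nat_lit 1035) (C.ref (nat_lit 34) (nat_lit 10490295366160)) (C.cons (nat_lit 11) (C.node (nat_lit 0) (nat_lit 1) (nat_lit 10) (C.cons (nat_lit 1027) (C.ref (nat_lit 36) (nat_lit 11649936536080)) C.nil)) C.nil))) C.nil))) (C.cons (nat_lit 259) (C.node (nat_lit 0) (nat_lit 1) (nat_lit 9) (C.cons (nat_lit 523) (C.node (nat_lit 0) (nat_lit 1) (nat_lit 2) (C.cons (nat_lit 1031) (C.ref (nat_lit 34) (nat_lit 9523927724560)) (C.cons (nat_lit 7) (C.node (nat_lit 0) (nat_lit 1) (nat_lit 10) (C.cons (nat_lit 1027) (C.ref (nat_lit 35) (nat_lit 11585512026640)) C.nil)) C.nil))) (C.cons (nat_lit 519) (C.node (nat_lit 0) (nat_lit 1) (nat_lit 3) (C.cons (nat_lit 1035) (C.ref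 (nat_lit 34) (nat_lit 9459503215120)) (C.cons (nat_lit 11) (C.node (nat_lit 0) (nat_lit 1) (nat_lit 10) (C.cons (nat_lit 1027) (C.ref (nat_lit 36) (nat_lit 11585512026640)) C.nil)) C.nil))) (C.cons (nat_lit 515) (C.node (nat_lit 0) (nat_lit 1) (nat_lit 2) (C.cons (nat_lit 1031) (C.node (nat_lit 0) (nat_lit 1) (nat_lit 3) (C.cons (nat_lit 11) (C.ref (nat_lit 36) (nat_lit 10490295366160)) C.nil)) (C.cons (nat_lit 15) (C.node (nat_lit 0) (nat_lit 1) (nat_lit 10) (C.cons (nat_lit 1027) (C.node (nat_lit 0) (nat_lit 2) (nat_lit 7) (C.cons (nat_lit 165) (C.node (nat_lit 0) (nat_lit 2) (nat_lit 8) (C.cons (nat_lit 261) (C.node (nat_lit 0) (nat_lit 2) (nat_lit 9) C.nil) C.nil)) (C.cons (nat_lit 133) (C.node (nat_lit 0) (nat_lit 2) (nat_lit 8) (C.cons (nat_lit 293) (C.node (nat_lit 0) (nat_lit 2) (nat_lit 9) C.nil) C.nil)) C.nil))) C.nil)) (C.cons (nat_lit 7) (C.node (nat_lit 0) (nat_lit 1) (nat_lit 3) (C.cons (nat_lit 1035) (C.ref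 (nat_lit 35) (nat_lit 10490295366160)) (C.cons (nat_lit 11) (C.node (nat_lit 0) (nat_lit 1) (nat_lit 10) C.nil) C.nil))) C.nil)))) C.nil)))) C.nil)))) (List.cons (C.node (nat_lit 0) (nat_lit 1) (nat_lit 4) (C.cons (nat_lit 531) (C.node (nat_lit 0) (nat_lit 2) (nat_lit 3) (C.cons (nat_lit 525) (C.node (nat_lit 0) (nat_lit 5) (nat_lit 9) (C.cons (nat_lit 545) (C.node (nat_lit 0) (nat_lit 3) (nat_lit 10) (C.cons (nat_lit 1065) (C.node (nat_lit 0) (nat_lit 4) (nat_lit 10) C.nil) (C.cons (nat_lit 1049) (C.node (nat_lit 0) (nat_lit 5) (nat_lit 10) C.nil) C.nil))) C.nil)) (C.cons (nat_lit 13) (C.node (nat_lit 0) (nat_lit 2) (nat_lit 9) C.nil) C.nil))) (C.cons (nat_lit 19) (C.node (nat_lit 0) (nat_lit 1) (nat_lit 9) C.nil) C.nil))) (List.cons (C.node (nat_lit 0) (nat_lit 1) (nat_lit 8) (C.cons (nat_lit 275) (C.node (nat_lit 0) (nat_lit 1) (nat_lit 9) (C.cons (nat_lit 519) (C.node (nat_lit 0) (nat_lit 1) (nat_lit 10) (C.cons (nat_lit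 1027) (C.ref (nat_lit 32) (nat_lit 11645910004240)) C.nil)) (C.cons (nat_lit 515) (C.node (nat_lit 0) (nat_lit 1) (nat_lit 2) (C.cons (nat_lit 1031) (C.ref (nat_lit 32) (nat_lit 10615117853200)) (C.cons (nat_lit 7) (C.node (nat_lit 0) (nat_lit 1) (nat_lit 10) (C.cons (nat_lit 1027) (C.node (nat_lit 0) (nat_lit 2) (nat_lit 8) (C.cons (nat_lit 269) (C.node (nat_lit 0) (nat_lit 2) (nat_lit 9) C.nil) C.nil)) C.nil)) C.nil))) C.nil))) (C.cons (nat_lit 263) (C.node (nat_lit 0) (nat_lit 1) (nat_lit 9) (C.cons (nat_lit 531) (C.node (nat_lit 0) (nat_lit 1) (nat_lit 10) (C.cons (nat_lit 1027) (C.ref (nat_lit 32) (nat_lit 11577458962960)) C.nil)) (C.cons (nat_lit 515) (C.node (nat_lit 0) (nat_lit 1) (nat_lit 4) (C.cons (nat_lit 1043) (C.ref (nat_lit 32) (nat_lit 10478215770640)) (C.cons (nat_lit 19) (C.node (nat_lit 0) (nat_lit 1) (nat_lit 10) (C.cons (nat_lit 1027) (C.node (nat_lit 0) (nat_lit 2) (nat_lit 9) (C.cons (nat_lit 525)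 (C.node (nat_lit 0) (nat_lit 2) (nat_lit 10) C.nil) C.nil)) C.nil)) C.nil))) C.nil))) (C.cons (nat_lit 259) (C.node (nat_lit 0) (nat_lit 2) (nat_lit 8) (C.cons (nat_lit 269) (C.node (nat_lit 0) (nat_lit 2) (nat_lit 9) (C.cons (nat_lit 519)
  (C.node (nat_lit 0) (nat_lit 2) (nat_lit 10) (C.cons (nat_lit 1029) (C.ref (nat_lit 31) (nat_lit 11641631752480)) C.nil)) (C.cons (nat_lit 517) (C.node (nat_lit 0) (nat_lit 1) (nat_lit 2) (C.cons (nat_lit 1031) (C.ref (nat_lit 31) (nat_lit 10610839601440)) (C.cons (nat_lit 7) (C.node (nat_lit 0) (nat_lit 2) (nat_lit 10) C.nil) C.nil))) C.nil))) (C.cons (nat_lit 261) (C.node (nat_lit 0) (nat_lit 1) (nat_lit 2) (C.cons (nat_lit 1031) (C.ref (nat_lit 38) (nat_lit 11649936536080)) (C.cons (nat_lit 519) (C.ref (nat_lit 38) (nat_lit 10619144385040)) (C.cons (nat_lit 7) (C.node (nat_lit 0) (nat_lit 1) (nat_lit 9) (C.cons (nat_lit 531) (C.node (nat_lit 0) (nat_lit 1) (nat_lit 10) C.nil) C.nil))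 C.nil)))) C.nil))) C.nil)))) (List.cons (C.node (nat_lit 0) (nat_lit 1) (nat_lit 8) (C.cons (nat_lit 275) (C.node (nat_lit 0) (nat_lit 1) (nat_lit 9) (C.cons (nat_lit 519) (C.node (nat_lit 0) (nat_lit 1) (nat_lit 10) (C.cons (nat_lit 1027) (C.ref (nat_lit 33) (nat_lit 11645910004240)) C.nil)) (C.cons (nat_lit 515) (C.node (nat_lit 0) (nat_lit 1) (nat_lit 2) (C.cons (nat_lit 1031) (C.ref (nat_lit 33) (nat_lit 10615117853200)) C.nil)) C.nil))) (C.cons (nat_lit 263) (C.node (nat_lit 0) (nat_lit 1) (nat_lit 9) (C.cons (nat_lit 531) (C.node (nat_lit 0) (nat_lit 1) (nat_lit 10) (C.cons (nat_lit 1027) (C.ref (nat_lit 33) (nat_lit 11645909873680)) C.nil)) (C.cons (nat_lit 515) (C.node (nat_lit 0) (nat_lit 1) (nat_lit 4) (C.cons (nat_lit 1043) (C.ref (nat_lit 33) (nat_lit 10615117722640)) C.nil)) C.nil))) (C.cons (nat_lit 259) (C.node (nat_lit 0) (nat_lit 1) (nat_lit 2) (C.cons (nat_lit 1031) (C.node (nat_lit 0) (nat_lit 1) (nat_lit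 4) (C.cons (nat_lit 531) (C.ref (nat_lit 33) (nat_lit 9447423489040)) C.nil)) (C.cons (nat_lit 519) (C.node (nat_lit 0) (nat_lit 1) (nat_lit 4) (C.cons (nat_lit 1043) (C.ref (nat_lit 33) (nat_lit 9515874530320)) C.nil)) C.nil))) C.nil)))) List.nil))))))))))))))))))))

theorem ok11_21 : okL par11 (nat_lit 41) c11_21 (nat_lit 21) = true := by decide +kernel

noncomputable def c11_41 : List C :=
  (List.cons (C.node (nat_lit 0) (nat_lit 2) (nat_lit 8) (C.cons (nat_lit 269) (C.node (nat_lit 0) (nat_lit 1) (nat_lit 8) (C.cons (nat_lit 275) (C.node (nat_lit 0) (nat_lit 5) (nat_lit 8) (C.cons (nat_lit 289) (C.node (nat_lit 0) (nat_lit 2) (nat_lit 9) (C.cons (nat_lit 519) (C.node (nat_lit 0) (nat_lit 2) (nat_lit 10) C.nil) C.nil)) C.nil)) (C.cons (nat_lit 259) (C.node (nat_lit 0) (nat_lit 2) (nat_lit 9) (C.cons (nat_lit 519) (C.node (nat_lit 0) (nat_lit 2) (nat_lit 10) C.nil) C.nil)) C.nil))) (C.cons (nat_lit 263) (C.node (nat_lit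 0) (nat_lit 2) (nat_lit 9) (C.cons (nat_lit 525) (C.node (nat_lit 0) (nat_lit 2) (nat_lit 10) (C.cons (nat_lit 1029) (C.node (nat_lit 0) (nat_lit 1) (nat_lit 9) (C.cons (nat_lit 531) (C.node (nat_lit 0) (nat_lit 5) (nat_lit 9) C.nil) C.nil)) C.nil)) (C.cons (nat_lit 517) (C.node (nat_lit 0) (nat_lit 2) (nat_lit 3) (C.cons (nat_lit 1037) (C.node (nat_lit 0) (nat_lit 1) (nat_lit 10) (C.cons (nat_lit 1043) (C.node (nat_lit 0) (nat_lit 5) (nat_lit 10) C.nil) C.nil)) C.nil)) C.nil))) (C.cons (nat_lit 261) (C.node (nat_lit 0) (nat_lit 1) (nat_lit 8) (C.cons (nat_lit 275) (C.node (nat_lit 0) (nat_lit 3) (nat_lit 8) (C.cons (nat_lit 297) (C.node (nat_lit 0) (nat_lit 5) (nat_lit 9) (C.cons (nat_lit 561) (C.node (nat_lit 0) (nat_lit 5) (nat_lit 10) C.nil) C.nil)) C.nil)) (C.cons (nat_lit 267) (C.node (nat_lit 0) (nat_lit 4) (nat_lit 8) (C.cons (nat_lit 305) (C.node (nat_lit 0) (nat_lit 5) (nat_lit 9) (C.cons (nat_lit 553) (C.node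 (nat_lit 0) (nat_lit 5) (nat_lit 10) C.nil) C.nil)) C.nil)) C.nil))) C.nil)))) (List.cons (C.node (nat_lit 0) (nat_lit 1) (nat_lit 7) (C.cons (nat_lit 147) (C.ref (nat_lit 37) (nat_lit 11649936536080)) (C.cons (nat_lit 139) (C.node (nat_lit 0) (nat_lit 2) (nat_lit 7) (C.cons (nat_lit 165) (C.node (nat_lit 0) (nat_lit 4) (nat_lit 7) (C.cons (nat_lit 145) (C.ref (nat_lit 39) (nat_lit 11649936536080)) C.nil)) (C.cons (nat_lit 133) (C.node (nat_lit 0) (nat_lit 4) (nat_lit 7) (C.cons (nat_lit 177) (C.ref (nat_lit 39) (nat_lit 11649936405520)) (C.cons (nat_lit 145) (C.node (nat_lit 0) (nat_lit 5) (nat_lit 7) (C.cons (nat_lit 161) (C.ref (nat_lit 40) (nat_lit 11649936536080)) C.nil)) C.nil))) C.nil))) (C.cons (nat_lit 135) (C.ref (nat_lit 37) (nat_lit 11649936405520)) (C.cons (nat_lit 131) (C.node (nat_lit 0) (nat_lit 2) (nat_lit 7) (C.cons (nat_lit 165) (C.node (nat_lit 0) (nat_lit 3) (nat_lit 7) (C.cons (nat_lit 153) (C.ref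 (nat_lit 39) (nat_lit 11649933194560)) (C.cons (nat_lit 137) (C.node (nat_lit 0) (nat_lit 4) (nat_lit 7) (C.cons (nat_lit 145) (C.ref (nat_lit 41) (nat_lit 11649936536080)) C.nil)) C.nil))) (C.cons (nat_lit 141) (C.node (nat_lit 0) (nat_lit 5) (nat_lit 7) (C.cons (nat_lit 177) (C.ref (nat_lit 39) (nat_lit 11649935291680)) (C.cons (nat_lit 161) (C.node (nat_lit 0) (nat_lit 4) (nat_lit 7) (C.cons (nat_lit 145) (C.ref (nat_lit 40) (nat_lit 11649935552800)) C.nil)) C.nil))) (C.cons (nat_lit 133) (C.node (nat_lit 0) (nat_lit 3) (nat_lit 7) (C.cons (nat_lit 169) (C.node (nat_lit 0) (nat_lit 4) (nat_lit 7) (C.cons (nat_lit 145) (C.ref (nat_lit 40) (nat_lit 11649932341840)) C.nil)) (C.cons (nat_lit 153) (C.node (nat_lit 0) (nat_lit 5) (nat_lit 7) (C.cons (nat_lit 161) (C.ref (nat_lit 40) (nat_lit 11649933455680)) C.nil)) (C.cons (nat_lit 137) (C.node (nat_lit 0) (nat_lit 4) (nat_lit 7) (C.cons (nat_lit 177) (C.ref (nat_lit 41)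 (nat_lit 11649936405520)) (C.cons (nat_lit 145) (C.node (nat_lit 0) (nat_lit 5) (nat_lit 7) C.nil) C.nil))) C.nil)))) C.nil)))) C.nil))))) (List.cons (C.node (nat_lit 0) (nat_lit 2) (nat_lit 7) (C.cons (nat_lit 165) (C.node (nat_lit 0) (nat_lit 3) (nat_lit 7) (C.cons (nat_lit 137) (C.node (nat_lit 0) (nat_lit 2) (nat_lit 8) (C.cons (nat_lit 277) (C.node (nat_lit 0) (nat_lit 5) (nat_lit 8) C.nil) C.nil)) C.nil)) (C.cons (nat_lit 141) (C.node (nat_lit 0) (nat_lit 5) (nat_lit 7) (C.cons (nat_lit 161) (C.ref (nat_lit 33) (nat_lit 11641630708240)) C.nil)) (C.cons (nat_lit 133) (C.node (nat_lit 0) (nat_lit 3) (nat_lit 7) (C.cons (nat_lit 169)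
  (C.node (nat_lit 0) (nat_lit 3) (nat_lit 9) (C.cons (nat_lit 537) (C.node (nat_lit 0) (nat_lit 5) (nat_lit 9) C.nil) C.nil)) C.nil)) C.nil)))) (List.cons (C.node (nat_lit 0) (nat_lit 1) (nat_lit 9) (C.cons (nat_lit 519) (C.node (nat_lit 0) (nat_lit 1) (nat_lit 10) (C.cons (nat_lit 1027) (C.ref (nat_lit 43) (nat_lit 11649936536080)) C.nil)) (C.cons (nat_lit 515) (C.node (nat_lit 0) (nat_lit 1) (nat_lit 2) (C.cons (nat_lit 1031) (C.ref (nat_lit 43) (nat_lit 10619144385040)) (C.cons (nat_lit 7) (C.node (nat_lit 0) (nat_lit 1) (nat_lit 10) C.nil) C.nil))) C.nil))) (List.cons (C.node (nat_lit 0) (nat_lit 1) (nat_lit 2) (C.cons (nat_lit 1031) (C.node (nat_lit 0) (nat_lit 1) (nat_lit 3) C.nil) (C.cons (nat_lit 15) (C.node (nat_lit 0) (nat_lit 1) (nat_lit 10) C.nil) C.nil))) (List.cons (C.node (nat_lit 0) (nat_lit 1) (nat_lit 9) (C.cons (nat_lit 523) (C.node (nat_lit 0) (nat_lit 1) (nat_lit 2) (C.cons (nat_lit 1031) (C.ref (nat_lit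 43) (nat_lit 9523927724560)) (C.cons (nat_lit 7) (C.node (nat_lit 0) (nat_lit 1) (nat_lit 10) C.nil) C.nil))) (C.cons (nat_lit 519) (C.node (nat_lit 0) (nat_lit 1) (nat_lit 3) (C.cons (nat_lit 1035) (C.ref (nat_lit 43) (nat_lit 9523927720720)) (C.cons (nat_lit 11) (C.node (nat_lit 0) (nat_lit 1) (nat_lit 10) C.nil) C.nil))) (C.cons (nat_lit 515) (C.ref (nat_lit 45) (nat_lit 11649936536080)) C.nil)))) (List.cons (C.node (nat_lit 0) (nat_lit 1) (nat_lit 8) (C.cons (nat_lit 267) (C.ref (nat_lit 44) (nat_lit 11649936536080)) (C.cons (nat_lit 263) (C.ref (nat_lit 44) (nat_lit 11649936532240)) (C.cons (nat_lit 259) (C.ref (nat_lit 46) (nat_lit 11649936536080)) C.nil)))) (List.cons (C.node (nat_lit 0) (nat_lit 1) (nat_lit 7) (C.cons (nat_lit 147) (C.ref (nat_lit 47) (nat_lit 11649936536080)) (C.cons (nat_lit 139) (C.ref (nat_lit 47) (nat_lit 11649936474640)) (C.cons (nat_lit 135) (C.ref (nat_lit 47) (nat_lit 11649936409360))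 (C.cons (nat_lit 131) (C.node (nat_lit 0) (nat_lit 1) (nat_lit 8) (C.cons (nat_lit 275) (C.ref (nat_lit 46) (nat_lit 11645910004240)) (C.cons (nat_lit 267) (C.ref (nat_lit 46) (nat_lit 11645909942800)) (C.cons (nat_lit 263) (C.ref (nat_lit 46) (nat_lit 11645909877520)) (C.cons (nat_lit 259) (C.node (nat_lit 0) (nat_lit 1) (nat_lit 9) (C.cons (nat_lit 531) (C.ref (nat_lit 45) (nat_lit 11577458962960)) (C.cons (nat_lit 523) (C.ref (nat_lit 45) (nat_lit 11577458901520)) (C.cons (nat_lit 519) (C.ref (nat_lit 45) (nat_lit 11577458836240)) C.nil)))) C.nil))))) C.nil))))) (List.cons (C.node (nat_lit 0) (nat_lit 3) (nat_lit 6) (C.cons (nat_lit 89) (C.ref (nat_lit 42) (nat_lit 11649936532240)) (C.cons (nat_lit 73) (C.node (nat_lit 0) (nat_lit 4) (nat_lit 6) (C.cons (nat_lit 81) (C.ref (nat_lit 48) (nat_lit 11649936536080)) C.nil)) C.nil))) (List.cons (C.node (nat_lit 0) (nat_lit 2) (nat_lit 6) (C.cons (nat_lit 85) (C.node (nat_lit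 0) (nat_lit 3) (nat_lit 6) (C.cons (nat_lit 73) (C.ref (nat_lit 42) (nat_lit 11649936536080)) C.nil)) (C.cons (nat_lit 77) (C.node (nat_lit 0) (nat_lit 4) (nat_lit 6) (C.cons (nat_lit 81) (C.ref (nat_lit 42) (nat_lit 11649936474640)) C.nil)) (C.cons (nat_lit 69) (C.ref (nat_lit 49) (nat_lit 11649936536080)) C.nil)))) (List.cons (C.node (nat_lit 0) (nat_lit 2) (nat_lit 7) (C.cons (nat_lit 149) (C.node (nat_lit 0) (nat_lit 3) (nat_lit 7) C.nil) (C.cons (nat_lit 141) (C.node (nat_lit 0) (nat_lit 4) (nat_lit 7) C.nil) C.nil))) (List.cons (C.big (C.cons (nat_lit 1085) (C.ref (nat_lit 1) (nat_lit 11649936536080)) (C.cons (nat_lit 1083) (C.ref (nat_lit 1) (nat_lit 11649936535840)) (C.cons (nat_lit 1079) (C.ref (nat_lit 1) (nat_lit 11649936531760)) (C.cons (nat_lit 1071) (C.ref (nat_lit 1) (nat_lit 11649936466240)) (C.cons (nat_lit 1055) (C.ref (nat_lit 1) (nat_lit 11649935417680)) (C.cons (nat_lit 573) (C.ref (nat_lit 1) (nat_lit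 10619144385040)) (C.cons (nat_lit 571) (C.ref (nat_lit 1) (nat_lit 10619144384800)) (C.cons (nat_lit 567) (C.ref (nat_lit 1) (nat_lit 10619144380720)) (C.cons (nat_lit 559) (C.ref (nat_lit 1) (nat_lit 10619144315200)) (C.cons (nat_lit 543)
  (C.ref (nat_lit 1) (nat_lit 10619143266640)) (C.cons (nat_lit 317) (C.ref (nat_lit 1) (nat_lit 9523927724560)) (C.cons (nat_lit 315) (C.ref (nat_lit 1) (nat_lit 9523927724320)) (C.cons (nat_lit 311) (C.ref (nat_lit 1) (nat_lit 9523927720240)) (C.cons (nat_lit 303) (C.ref (nat_lit 1) (nat_lit 9523927654720)) (C.cons (nat_lit 287) (C.ref (nat_lit 1) (nat_lit 9523926606160)) (C.cons (nat_lit 189) (C.ref (nat_lit 1) (nat_lit 8424684532240)) (C.cons (nat_lit 187) (C.ref (nat_lit 1) (nat_lit 8424684532000)) (C.cons (nat_lit 183) (C.ref (nat_lit 1) (nat_lit 8424684527920)) (C.cons (nat_lit 175) (C.ref (nat_lit 1) (nat_lit 8424684462400)) (C.cons (nat_lit 159) (C.ref (nat_lit 1) (nat_lit 8424683413840))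 (C.cons (nat_lit 125) (C.ref (nat_lit 1) (nat_lit 7325189681680)) (C.cons (nat_lit 123) (C.ref (nat_lit 1) (nat_lit 7325189681440)) (C.cons (nat_lit 119) (C.ref (nat_lit 1) (nat_lit 7325189677360)) (C.cons (nat_lit 111) (C.ref (nat_lit 1) (nat_lit 7325189611840)) (C.cons (nat_lit 95) (C.ref (nat_lit 1) (nat_lit 7325188563280)) (C.cons (nat_lit 63) (C.big C.nil (C.big C.nil (C.node (nat_lit 0) (nat_lit 1) (nat_lit 6) (C.cons (nat_lit 67) (C.node (nat_lit 0) (nat_lit 1) (nat_lit 7) (C.cons (nat_lit 131) (C.node (nat_lit 0) (nat_lit 1) (nat_lit 8) (C.cons (nat_lit 259) (C.node (nat_lit 0) (nat_lit 1) (nat_lit 9) (C.cons (nat_lit 515) (C.node (nat_lit 0) (nat_lit 1) (nat_lit 10) (C.cons (nat_lit 1027) (C.node (nat_lit 0) (nat_lit 2) (nat_lit 6) (C.cons (nat_lit 69) (C.node (nat_lit 0) (nat_lit 2) (nat_lit 7) (C.cons (nat_lit 133) (C.node (nat_lit 0) (nat_lit 2) (nat_lit 8) (C.cons (nat_lit 261) (C.node (nat_lit 0) (nat_lit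 2) (nat_lit 9) (C.cons (nat_lit 517) (C.node (nat_lit 0) (nat_lit 2) (nat_lit 10) (C.cons (nat_lit 1029) (C.node (nat_lit 0) (nat_lit 3) (nat_lit 6) C.nil) C.nil)) C.nil)) C.nil)) C.nil)) C.nil)) C.nil)) C.nil)) C.nil)) C.nil)) C.nil)))) C.nil)))))))))))))))))))))))))) (C.big (C.cons (nat_lit 1081) (C.ref (nat_lit 27) (nat_lit 11649936536080)) (C.cons (nat_lit 1077) (C.ref (nat_lit 27) (nat_lit 11649936532240)) (C.cons (nat_lit 1075) (C.ref (nat_lit 27) (nat_lit 11649936528160)) (C.cons (nat_lit 1069) (C.ref (nat_lit 27) (nat_lit 11649936466960)) (C.cons (nat_lit 1067) (C.ref (nat_lit 27) (nat_lit 11649936462880)) (C.cons (nat_lit 1063) (C.ref (nat_lit 27) (nat_lit 11649936397360)) (C.cons (nat_lit 1053) (C.ref (nat_lit 27) (nat_lit 11649935418640)) (C.cons (nat_lit 1051) (C.ref (nat_lit 27) (nat_lit 11649935414560)) (C.cons (nat_lit 1047) (C.ref (nat_lit 27) (nat_lit 11649935349040)) (C.cons (nat_lit 1039) (C.ref (nat_lit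 27) (nat_lit 11649934300480)) (C.cons (nat_lit 569) (C.ref (nat_lit 27) (nat_lit 10619144385040)) (C.cons (nat_lit 565) (C.ref (nat_lit 27) (nat_lit 10619144381200)) (C.cons (nat_lit 563) (C.ref (nat_lit 27) (nat_lit 10619144377120)) (C.cons (nat_lit 557) (C.ref (nat_lit 27) (nat_lit 10619144315920)) (C.cons (nat_lit 555) (C.ref (nat_lit 27) (nat_lit 10619144311840)) (C.cons (nat_lit 551) (C.ref (nat_lit 27) (nat_lit 10619144246320)) (C.cons (nat_lit 541) (C.ref (nat_lit 27) (nat_lit 10619143267600)) (C.cons (nat_lit 539) (C.ref (nat_lit 27) (nat_lit 10619143263520)) (C.cons (nat_lit 535) (C.ref (nat_lit 27) (nat_lit 10619143198000)) (C.cons (nat_lit 527) (C.ref (nat_lit 27) (nat_lit 10619142149440)) (C.cons (nat_lit 313) (C.ref (nat_lit 27) (nat_lit 9523927724560)) (C.cons (nat_lit 309) (C.ref (nat_lit 27) (nat_lit 9523927720720)) (C.cons (nat_lit 307) (C.ref (nat_lit 27) (nat_lit 9523927716640)) (C.cons (nat_lit 301)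 (C.ref (nat_lit 27) (nat_lit 9523927655440)) (C.cons (nat_lit 299) (C.ref (nat_lit 27) (nat_lit 9523927651360)) (C.cons (nat_lit 295) (C.ref (nat_lit 27) (nat_lit 9523927585840)) (C.cons (nat_lit 285) (C.ref (nat_lit 27) (nat_lit 9523926607120)) (C.cons (nat_lit 283) (C.ref (nat_lit 27) (nat_lit 9523926603040)) (C.cons (nat_lit 279) (C.ref (nat_lit 27) (nat_lit 9523926537520)) (C.cons (nat_lit 271) (C.ref (nat_lit 27) (nat_lit 9523925488960)) (C.cons (nat_lit 185)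
  (C.ref (nat_lit 27) (nat_lit 8424684532240)) (C.cons (nat_lit 181) (C.ref (nat_lit 27) (nat_lit 8424684528400)) (C.cons (nat_lit 179) (C.ref (nat_lit 27) (nat_lit 8424684524320)) (C.cons (nat_lit 173) (C.ref (nat_lit 27) (nat_lit 8424684463120)) (C.cons (nat_lit 171) (C.ref (nat_lit 27) (nat_lit 8424684459040)) (C.cons (nat_lit 167) (C.ref (nat_lit 27) (nat_lit 8424684393520)) (C.cons (nat_lit 157) (C.ref (nat_lit 27) (nat_lit 8424683414800)) (C.cons (nat_lit 155) (C.ref (nat_lit 27) (nat_lit 8424683410720)) (C.cons (nat_lit 151) (C.ref (nat_lit 27) (nat_lit 8424683345200)) (C.cons (nat_lit 143) (C.ref (nat_lit 27) (nat_lit 8424682296640)) (C.cons (nat_lit 121) (C.ref (nat_lit 27) (nat_lit 7325189681680)) (C.cons (nat_lit 117) (C.ref (nat_lit 27) (nat_lit 7325189677840)) (C.cons (nat_lit 115) (C.ref (nat_lit 27) (nat_lit 7325189673760)) (C.cons (nat_lit 109) (C.ref (nat_lit 27) (nat_lit 7325189612560)) (C.cons (nat_lit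 107) (C.ref (nat_lit 27) (nat_lit 7325189608480)) (C.cons (nat_lit 103) (C.ref (nat_lit 27) (nat_lit 7325189542960)) (C.cons (nat_lit 93) (C.ref (nat_lit 27) (nat_lit 7325188564240)) (C.cons (nat_lit 91) (C.ref (nat_lit 27) (nat_lit 7325188560160)) (C.cons (nat_lit 87) (C.ref (nat_lit 27) (nat_lit 7325188494640)) (C.cons (nat_lit 79) (C.ref (nat_lit 27) (nat_lit 7325187446080)) (C.cons (nat_lit 61) (C.ref (nat_lit 30) (nat_lit 11649936536080)) (C.cons (nat_lit 59) (C.ref (nat_lit 30) (nat_lit 11649936535840)) (C.cons (nat_lit 55) (C.ref (nat_lit 30) (nat_lit 11649936531760)) (C.cons (nat_lit 47) (C.ref (nat_lit 30) (nat_lit 11649936466240)) (C.cons (nat_lit 31) (C.ref (nat_lit 30) (nat_lit 11649935417680)) C.nil))))))))))))))))))))))))))))))))))))))))))))))))))))))) (C.node (nat_lit 0) (nat_lit 1) (nat_lit 6) (C.cons (nat_lit 99) (C.ref (nat_lit 50) (nat_lit 11649936536080)) (C.cons (nat_lit 83) (C.ref (nat_lit 50) (nat_lit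 11649935553040)) (C.cons (nat_lit 75) (C.ref (nat_lit 50) (nat_lit 11649934508560)) (C.cons (nat_lit 71) (C.ref (nat_lit 50) (nat_lit 11649933460240)) (C.cons (nat_lit 67) (C.node (nat_lit 0) (nat_lit 2) (nat_lit 6) (C.cons (nat_lit 101) (C.ref (nat_lit 49) (nat_lit 11649936535840)) (C.cons (nat_lit 85) (C.ref (nat_lit 49) (nat_lit 11649935552800)) (C.cons (nat_lit 77) (C.ref (nat_lit 49) (nat_lit 11649934508320)) (C.cons (nat_lit 69) (C.node (nat_lit 0) (nat_lit 3) (nat_lit 6) (C.cons (nat_lit 105) (C.node (nat_lit 0) (nat_lit 4) (nat_lit 6) (C.cons (nat_lit 81) (C.ref (nat_lit 48) (nat_lit 11649936531760)) C.nil)) (C.cons (nat_lit 89) (C.node (nat_lit 0) (nat_lit 5) (nat_lit 6) (C.cons (nat_lit 97) (C.ref (nat_lit 48) (nat_lit 11649935548720)) C.nil)) (C.cons (nat_lit 73) (C.node (nat_lit 0) (nat_lit 4) (nat_lit 6) (C.cons (nat_lit 113) (C.ref (nat_lit 48) (nat_lit 11649936466240)) (C.cons (nat_lit 81) (C.node (nat_lit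 0) (nat_lit 5) (nat_lit 6) (C.cons (nat_lit 97) (C.node (nat_lit 0) (nat_lit 1) (nat_lit 7) (C.cons (nat_lit 163) (C.ref (nat_lit 51) (nat_lit 11649936536080)) (C.cons (nat_lit 147) (C.ref (nat_lit 51) (nat_lit 11649935553040)) (C.cons (nat_lit 139) (C.ref (nat_lit 51) (nat_lit 11649934508560)) (C.cons (nat_lit 135) (C.ref (nat_lit 51) (nat_lit 11649933460240)) C.nil))))) C.nil)) C.nil))) C.nil)))) C.nil))))) C.nil)))))))) List.nil))))))))))))

theorem ok11_41 : okL par11 (nat_lit 53) c11_41 (nat_lit 41) = true := by decide +kernel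

noncomputable def c11_53 : List C :=
  (List.cons (C.node (nat_lit 1) (nat_lit 4) (nat_lit 7) (C.cons (nat_lit 150) (C.node (nat_lit 1) (nat_lit 4) (nat_lit 5) (C.cons (nat_lit 58) (C.node (nat_lit 1) (nat_lit 4) (nat_lit 6) (C.cons (nat_lit 82) (C.node (nat_lit 1) (nat_lit 7) (nat_lit 8) (C.cons (nat_lit 394) (C.miq (nat_lit 2551384645) (nat_lit 476326974518355661348799601)) (C.cons (nat_lit 386) (C.node (nat_lit 1) (nat_lit 3) (nat_lit 7) (C.cons (nat_lit 650) (C.miq (nat_lit 2168038480) (nat_lit 785837219310229328522445937)) (C.cons (nat_lit 138) (C.node (nat_lit 1) (nat_lit 7) (nat_lit 9) (C.cons (nat_lit 642) (C.node (nat_lit 2) (nat_lit 4) (nat_lit 5) (C.cons (nat_lit 564) (C.miq (nat_lit 2220466480) (nat_lit 681869598823371219497714703)) (C.cons (nat_lit 52) (C.node (nat_lit 2) (nat_lit 4) (nat_lit 10) (C.cons (nat_lit 1556) (C.miq (nat_lit 967069825) (nat_lit 1881089645387183183835037987)) (C.cons (nat_lit 1044)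 (C.node (nat_lit 2) (nat_lit 4) (nat_lit 9) (C.cons (nat_lit 540) (C.miq (nat_lit 2755232080) (nat_lit 652855379152620119304765731)) (C.cons (nat_lit 532) (C.node (nat_lit 3) (nat_lit 4) (nat_lit 10) (C.cons (nat_lit 1560) (C.node (nat_lit 6) (nat_lit 9) (nat_lit 10) (C.cons (nat_lit 1600) (C.node (nat_lit 3) (nat_lit 5) (nat_lit 10) (C.cons (nat_lit 1320) (C.node (nat_lit 2) (nat_lit 8) (nat_lit 10) (C.cons (nat_lit 1348) (C.miq (nat_lit 443107360) (nat_lit 1934291106969870128726212885)) (C.cons (nat_lit 1284) (C.node (nat_lit 6) (nat_lit 8) (nat_lit 10) (C.cons (nat_lit 1344) (C.node (nat_lit 3) (nat_lit 6) (nat_lit 10) (C.cons (nat_lit 1224) (C.miq (nat_lit 1632858250) (nat_lit 70140276407283583004706689)) (C.cons (nat_lit 1096) (C.node (nat_lit 3) (nat_lit 7) (nat_lit 10) (C.cons (nat_lit 1160) (C.node (nat_lit 4) (nat_lit 5) (nat_lit 8) (C.cons (nat_lit 816) (C.node (nat_lit 4) (nat_lit 5) (nat_lit 7) (C.cons (nat_lit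 176) (C.node (nat_lit 4) (nat_lit 6) (nat_lit 9) (C.cons (nat_lit 720) (C.miq (nat_lit 1415678320) (nat_lit 99137285440611715190556545)) (C.cons (nat_lit 592) (C.node (nat_lit 4) (nat_lit 7) (nat_lit 9) (C.cons (nat_lit 656) (C.node (nat_lit 1) (nat_lit 2) (nat_lit 5) (C.cons (nat_lit 550) (C.miq (nat_lit 2423411521) (nat_lit 160797279873642539750129722)) (C.cons (nat_lit 102) (C.miq (nat_lit 2534541910) (nat_lit 181349591041219725554484337)) (C.cons (nat_lit 38) (C.node (nat_lit 1) (nat_lit 2) (nat_lit 9) (C.cons (nat_lit 774) (C.miq (nat_lit 1678903945) (nat_lit 181349590820543824893708161)) (C.cons (nat_lit 518) (C.node (nat_lit 2) (nat_lit 5) (nat_lit 10) (C.cons (nat_lit 1572) (C.miq (nat_lit 1649478055) (nat_lit 45942778423993995236607873)) (C.cons (nat_lit 1060) (C.node (nat_lit 2) (nat_lit 9) (nat_lit 10) (C.cons (nat_lit 1540) (C.node (nat_lit 1) (nat_lit 2) (nat_lit 6) C.nil) C.nil)) C.nil))) C.nil))) C.nil))))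 C.nil)) C.nil))) C.nil)) (C.cons (nat_lit 432) (C.miq (nat_lit 356689792) (nat_lit 62883309120884479131715457)) (C.cons (nat_lit 304) (C.miq (nat_lit 2488836880) (nat_lit 367548885797314077955130383)) C.nil)))) C.nil)) C.nil))) C.nil)) C.nil))) (C.cons (nat_lit 1064) (C.miq (nat_lit 2235175060) (nat_lit 1286321016025684710327321107)) C.nil))) C.nil)) (C.cons (nat_lit 1048) (C.miq (nat_lit 2588084245) (nat_lit 1266964460546323141606637859)) C.nil))) C.nil))) C.nil))) C.nil))) C.nil)) C.nil))) C.nil))) C.nil)) (C.cons (nat_lit 50) (C.node (nat_lit 3) (nat_lit 4) (nat_lit 10) (C.cons (nat_lit 1560) (C.miq (nat_lit 873831040) (nat_lit 60456492469310758672598913)) (C.cons (nat_lit 1048) (C.node (nat_lit 3) (nat_lit 5) (nat_lit 10) (C.cons (nat_lit 1320) (C.miq (nat_lit 2477000065) (nat_lit 1266964054332895846426870051)) (C.cons (nat_lit 1064) (C.node (nat_lit 1) (nat_lit 3) (nat_lit 4) (C.cons (nat_lit 90) (C.node (nat_lit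 1) (nat_lit 3) (nat_lit 5) (C.cons (nat_lit 42) (C.node (nat_lit 2) (nat_lit 4) (nat_lit 6) (C.cons (nat_lit 84) (C.node (nat_lit 1) (nat_lit 7) (nat_lit 8) (C.cons (nat_lit 394) (C.miq (nat_lit 2202693984) (nat_lit 1266989695262398498586296515)) (C.cons (nat_lit 386)
  (C.node (nat_lit 1) (nat_lit 3) (nat_lit 7) (C.cons (nat_lit 650) (C.miq (nat_lit 2471129440) (nat_lit 1266989695334456092624224451)) (C.cons (nat_lit 138) (C.node (nat_lit 1) (nat_lit 7) (nat_lit 9) (C.cons (nat_lit 642) (C.node (nat_lit 1) (nat_lit 3) (nat_lit 8) (C.cons (nat_lit 778) (C.miq (nat_lit 1094035600) (nat_lit 50795858737184094389077889)) (C.cons (nat_lit 266) (C.node (nat_lit 1) (nat_lit 3) (nat_lit 9) (C.cons (nat_lit 522) (C.node (nat_lit 3) (nat_lit 7) (nat_lit 10) (C.cons (nat_lit 1224) (C.miq (nat_lit 1931060800) (nat_lit 631094714378727783320978545)) (C.cons (nat_lit 1160) (C.node (nat_lit 3) (nat_lit 8) (nat_lit 10) (C.cons (nat_lit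 1352) (C.miq (nat_lit 2199496256) (nat_lit 631094714414756580339942513)) (C.cons (nat_lit 1288) (C.node (nat_lit 6) (nat_lit 8) (nat_lit 10) (C.cons (nat_lit 1348) (C.miq (nat_lit 2443576450) (nat_lit 1317739861087721413268472085)) (C.cons (nat_lit 1344) (C.node (nat_lit 4) (nat_lit 6) (nat_lit 7) (C.cons (nat_lit 720) (C.miq (nat_lit 1671905545) (nat_lit 1402367232434040124037202451)) (C.cons (nat_lit 464) (C.miq (nat_lit 2218423824) (nat_lit 1266989695282101746949619907)) (C.cons (nat_lit 208) (C.node (nat_lit 4) (nat_lit 6) (nat_lit 8) (C.cons (nat_lit 848) (C.miq (nat_lit 342010000) (nat_lit 101568935380079596840224641)) (C.cons (nat_lit 336) (C.node (nat_lit 4) (nat_lit 6) (nat_lit 9) (C.cons (nat_lit 592) (C.node (nat_lit 4) (nat_lit 7) (nat_lit 8) (C.cons (nat_lit 432) (C.miq (nat_lit 559155832) (nat_lit 60451401021297470943004545)) (C.cons (nat_lit 400) (C.node (nat_lit 2) (nat_lit 4) (nat_lit 10) (C.cons (nat_lit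 1556) (C.node (nat_lit 5) (nat_lit 9) (nat_lit 10) (C.cons (nat_lit 1568) (C.node (nat_lit 2) (nat_lit 5) (nat_lit 10) (C.cons (nat_lit 1316) (C.miq (nat_lit 1363312794) (nat_lit 181363148939306876928264065)) (C.cons (nat_lit 1060) (C.node (nat_lit 2) (nat_lit 8) (nat_lit 10) (C.cons (nat_lit 1284) (C.node (nat_lit 5) (nat_lit 8) (nat_lit 10) (C.cons (nat_lit 1312) (C.node (nat_lit 3) (nat_lit 4) (nat_lit 8) C.nil) C.nil)) C.nil)) C.nil))) C.nil)) (C.cons (nat_lit 1044) (C.node (nat_lit 4) (nat_lit 9) (nat_lit 10) (C.cons (nat_lit 1552) (C.node (nat_lit 2) (nat_lit 3) (nat_lit 4) (C.cons (nat_lit 28) (C.node (nat_lit 2) (nat_lit 4) (nat_lit 5) C.nil) C.nil)) C.nil)) C.nil))) C.nil))) C.nil)) C.nil))) C.nil)))) C.nil))) C.nil))) C.nil))) C.nil)) C.nil))) C.nil)) C.nil))) C.nil))) C.nil)) C.nil)) (C.cons (nat_lit 26) (C.node (nat_lit 1) (nat_lit 4) (nat_lit 6) (C.cons (nat_lit 82) (C.node (nat_lit 1) (nat_lit 3) (nat_lit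 5) (C.cons (nat_lit 106) (C.node (nat_lit 1) (nat_lit 7) (nat_lit 8) (C.cons (nat_lit 394) (C.miq (nat_lit 2203742560) (nat_lit 1286332508376232634101072067)) (C.cons (nat_lit 386) (C.node (nat_lit 1) (nat_lit 3) (nat_lit 7) (C.cons (nat_lit 650) (C.miq (nat_lit 2472178016) (nat_lit 1286332508448290228139000003)) (C.cons (nat_lit 138) (C.node (nat_lit 1) (nat_lit 7) (nat_lit 9) (C.cons (nat_lit 642) (C.node (nat_lit 1) (nat_lit 3) (nat_lit 8) (C.cons (nat_lit 778) (C.miq (nat_lit 1094035600) (nat_lit 128167111192520361570273153)) (C.cons (nat_lit 266) (C.node (nat_lit 1) (nat_lit 3) (nat_lit 9) (C.cons (nat_lit 522) (C.node (nat_lit 2) (nat_lit 4) (nat_lit 6) (C.cons (nat_lit 92) (C.miq (nat_lit 2167539044) (nat_lit 1256079036409617803560879217)) (C.cons (nat_lit 84) (C.node (nat_lit 3) (nat_lit 7) (nat_lit 10) (C.cons (nat_lit 1224) (C.miq (nat_lit 1930995280) (nat_lit 321609704557382783299945585)) (C.cons (nat_lit 1160)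 (C.node (nat_lit 3) (nat_lit 9) (nat_lit 10) (C.cons (nat_lit 1608) (C.miq (nat_lit 2467866192) (nat_lit 321609704665469174356837489)) (C.cons (nat_lit 1544) (C.node (nat_lit 6) (nat_lit 9) (nat_lit 10) (C.cons (nat_lit 1600) (C.node (nat_lit 5) (nat_lit 9) (nat_lit 10) (C.cons (nat_lit 1572) (C.miq (nat_lit 622238320) (nat_lit 128156854879941275001489281)) (C.cons (nat_lit 1568) (C.node (nat_lit 5) (nat_lit 6) (nat_lit 9) (C.cons (nat_lit 864) (C.miq (nat_lit 982913157) (nat_lit 1934283267030739244233523491))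
  (C.cons (nat_lit 736) (C.miq (nat_lit 559286905) (nat_lit 128156854729915112450164609)) (C.cons (nat_lit 608) (C.node (nat_lit 1) (nat_lit 2) (nat_lit 5) (C.cons (nat_lit 550) (C.node (nat_lit 2) (nat_lit 4) (nat_lit 5) (C.cons (nat_lit 60) (C.miq (nat_lit 1934770321) (nat_lit 72538316231556853504803347)) (C.cons (nat_lit 52) (C.node (nat_lit 2) (nat_lit 3) (nat_lit 4) (C.cons (nat_lit 540) (C.miq (nat_lit 1349620546) (nat_lit 235750680689749548581913116)) (C.cons (nat_lit 28) (C.node (nat_lit 2) (nat_lit 4) (nat_lit 10) (C.cons (nat_lit 1556) (C.node (nat_lit 2) (nat_lit 5) (nat_lit 10) (C.cons (nat_lit 1316) (C.miq (nat_lit 1112644224) (nat_lit 664918996447129901818120065)) C.nil)) C.nil)) C.nil))) C.nil))) (C.cons (nat_lit 38) (C.node (nat_lit 1) (nat_lit 5) (nat_lit 9) (C.cons (nat_lit 546) (C.node (nat_lit 1) (nat_lit 2) (nat_lit 9) (C.cons (nat_lit 774) (C.miq (nat_lit 1678903945) (nat_lit 181349590820543824893708161))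 (C.cons (nat_lit 518) (C.node (nat_lit 3) (nat_lit 6) (nat_lit 10) C.nil) C.nil))) C.nil)) C.nil))) C.nil)))) C.nil))) C.nil)) C.nil))) C.nil))) C.nil))) C.nil)) C.nil))) C.nil)) C.nil))) C.nil))) (C.cons (nat_lit 42) (C.node (nat_lit 1) (nat_lit 7) (nat_lit 8) (C.cons (nat_lit 394) (C.node (nat_lit 1) (nat_lit 7) (nat_lit 9) (C.cons (nat_lit 642) (C.node (nat_lit 3) (nat_lit 7) (nat_lit 10) (C.cons (nat_lit 1224) (C.miq (nat_lit 1662363520) (nat_lit 50795858716353296827877249)) (C.cons (nat_lit 1160) (C.node (nat_lit 4) (nat_lit 7) (nat_lit 8) (C.cons (nat_lit 464) (C.miq (nat_lit 977801319) (nat_lit 1569192982169411094542549187)) (C.cons (nat_lit 432) (C.miq (nat_lit 559155832) (nat_lit 60451401021297470943004545)) (C.cons (nat_lit 400) (C.node (nat_lit 4) (nat_lit 5) (nat_lit 8) (C.cons (nat_lit 816) (C.miq (nat_lit 826608265) (nat_lit 60456492322662295840753537)) (C.cons (nat_lit 312) (C.miq (nat_lit 1681327489) (nat_lit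 184969247836171025668243747)) (C.cons (nat_lit 304) (C.node (nat_lit 1) (nat_lit 3) (nat_lit 6) (C.cons (nat_lit 586) (C.node (nat_lit 3) (nat_lit 9) (nat_lit 10) (C.cons (nat_lit 1544) (C.node (nat_lit 6) (nat_lit 9) (nat_lit 10) (C.cons (nat_lit 1600) (C.node (nat_lit 1) (nat_lit 5) (nat_lit 6) (C.cons (nat_lit 102) (C.miq (nat_lit 2534541910) (nat_lit 181349591041219725554484337)) (C.cons (nat_lit 98) (C.node (nat_lit 1) (nat_lit 8) (nat_lit 9) (C.cons (nat_lit 774) (C.miq (nat_lit 1678903945) (nat_lit 181349590820543824893708161)) (C.cons (nat_lit 770) (C.node (nat_lit 5) (nat_lit 9) (nat_lit 10) (C.cons (nat_lit 1572) (C.miq (nat_lit 622238320) (nat_lit 118485448323024241603839873)) (C.cons (nat_lit 1568) (C.node (nat_lit 1) (nat_lit 2) (nat_lit 5) (C.cons (nat_lit 550) (C.node (nat_lit 2) (nat_lit 4) (nat_lit 5) (C.cons (nat_lit 60) (C.miq (nat_lit 1934770321) (nat_lit 72538316231556853504803347)) (C.cons (nat_lit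 52) (C.node (nat_lit 3) (nat_lit 4) (nat_lit 5) (C.cons (nat_lit 56) (C.node (nat_lit 2) (nat_lit 7) (nat_lit 9) (C.cons (nat_lit 652) (C.miq (nat_lit 1383305536) (nat_lit 788229835593022864736453139)) (C.cons (nat_lit 644) (C.node (nat_lit 3) (nat_lit 7) (nat_lit 9) (C.cons (nat_lit 648) (C.node (nat_lit 1) (nat_lit 2) (nat_lit 6) (C.cons (nat_lit 326) (C.node (nat_lit 2) (nat_lit 7) (nat_lit 10) (C.cons (nat_lit 1220) (C.node (nat_lit 2) (nat_lit 4) (nat_lit 10) (C.cons (nat_lit 1556) (C.miq (nat_lit 1113692784) (nat_lit 394119612853452554360784769)) C.nil)) C.nil)) C.nil)) C.nil)) C.nil))) C.nil)) C.nil))) (C.cons (nat_lit 38) (C.node (nat_lit 1) (nat_lit 2) (nat_lit 9) (C.cons (nat_lit 518) (C.node (nat_lit 1) (nat_lit 5) (nat_lit 9) (C.cons (nat_lit 546) (C.node (nat_lit 1) (nat_lit 2) (nat_lit 6) (C.cons (nat_lit 326) (C.node (nat_lit 6) (nat_lit 7) (nat_lit 8) (C.cons (nat_lit 480) (C.miq (nat_lit 1731876880) (nat_lit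 1402374924836091331525673251)) (C.cons (nat_lit 448) (C.node (nat_lit 5) (nat_lit 6) (nat_lit 9) (C.cons (nat_lit 864) (C.miq (nat_lit 962725249) (nat_lit 702405067518851507722518819)) (C.cons (nat_lit 736)
  (C.miq (nat_lit 559286905) (nat_lit 118485448172998079052515201)) (C.cons (nat_lit 608) (C.node (nat_lit 6) (nat_lit 8) (nat_lit 9) (C.cons (nat_lit 848) (C.miq (nat_lit 558238345) (nat_lit 99142635059164493300893569)) C.nil)) C.nil)))) C.nil))) (C.cons (nat_lit 70) (C.node (nat_lit 2) (nat_lit 5) (nat_lit 10) C.nil) C.nil))) C.nil)) C.nil)) C.nil))) C.nil))) C.nil))) C.nil))) C.nil)) C.nil)) (C.cons (nat_lit 74) (C.node (nat_lit 1) (nat_lit 3) (nat_lit 9) (C.cons (nat_lit 522) (C.node (nat_lit 2) (nat_lit 4) (nat_lit 6) (C.cons (nat_lit 92) (C.node (nat_lit 3) (nat_lit 4) (nat_lit 5) (C.cons (nat_lit 56) (C.node (nat_lit 3) (nat_lit 9) (nat_lit 10) (C.cons (nat_lit 1608) (C.miq (nat_lit 2318666082) (nat_lit 1266959369244960129212482117))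 (C.cons (nat_lit 1544) (C.node (nat_lit 6) (nat_lit 9) (nat_lit 10) (C.cons (nat_lit 1600) (C.node (nat_lit 4) (nat_lit 6) (nat_lit 7) (C.cons (nat_lit 720) (C.miq (nat_lit 1949996576) (nat_lit 1266989695354159349577482821)) (C.cons (nat_lit 208) (C.node (nat_lit 4) (nat_lit 6) (nat_lit 8) (C.cons (nat_lit 848) (C.miq (nat_lit 342010000) (nat_lit 111240341936996630237874049)) (C.cons (nat_lit 336) (C.node (nat_lit 4) (nat_lit 6) (nat_lit 9) (C.cons (nat_lit 592) (C.node (nat_lit 3) (nat_lit 4) (nat_lit 8) (C.cons (nat_lit 792) (C.node (nat_lit 2) (nat_lit 3) (nat_lit 9) (C.cons (nat_lit 652) (C.miq (nat_lit 1934266976) (nat_lit 1266989695335019051167580741)) C.nil)) C.nil)) C.nil)) C.nil))) C.nil))) C.nil)) C.nil))) C.nil)) (C.cons (nat_lit 84) (C.node (nat_lit 2) (nat_lit 4) (nat_lit 10) (C.cons (nat_lit 1556) (C.node (nat_lit 5) (nat_lit 9) (nat_lit 10) (C.cons (nat_lit 1568) (C.node (nat_lit 2) (nat_lit 5) (nat_lit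 10) (C.cons (nat_lit 1316) (C.miq (nat_lit 1363312794) (nat_lit 181363148939306876928264065)) (C.cons (nat_lit 1060) (C.node (nat_lit 5) (nat_lit 8) (nat_lit 10) (C.cons (nat_lit 1312) (C.node (nat_lit 2) (nat_lit 7) (nat_lit 10) (C.cons (nat_lit 1220) (C.miq (nat_lit 338037159) (nat_lit 101553366112193119720310657)) (C.cons (nat_lit 1156) (C.node (nat_lit 6) (nat_lit 7) (nat_lit 10) (C.cons (nat_lit 1216) (C.node (nat_lit 2) (nat_lit 6) (nat_lit 10) (C.cons (nat_lit 1348) (C.miq (nat_lit 2443576450) (nat_lit 1317739861087721413268472085)) (C.cons (nat_lit 1092) (C.node (nat_lit 2) (nat_lit 8) (nat_lit 10) (C.cons (nat_lit 1284) (C.node (nat_lit 4) (nat_lit 6) (nat_lit 7) (C.cons (nat_lit 720) (C.miq (nat_lit 610380144) (nat_lit 99151083813470332701050753)) C.nil)) C.nil)) C.nil))) C.nil)) C.nil))) C.nil)) C.nil))) C.nil)) (C.cons (nat_lit 1044) (C.node (nat_lit 4) (nat_lit 9) (nat_lit 10) (C.cons (nat_lit 1552) (C.node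 (nat_lit 2) (nat_lit 7) (nat_lit 10) (C.cons (nat_lit 1220) (C.node (nat_lit 2) (nat_lit 8) (nat_lit 10) (C.cons (nat_lit 1316) (C.miq (nat_lit 2171752554) (nat_lit 181363148939305433797231729)) (C.cons (nat_lit 1284) (C.node (nat_lit 5) (nat_lit 8) (nat_lit 10) (C.cons (nat_lit 1312) (C.node (nat_lit 2) (nat_lit 5) (nat_lit 10) (C.cons (nat_lit 1572) (C.miq (nat_lit 1359587170) (nat_lit 641968608830882123119658180)) (C.cons (nat_lit 1060) (C.node (nat_lit 2) (nat_lit 9) (nat_lit 10) (C.cons (nat_lit 1540) (C.node (nat_lit 5) (nat_lit 9) (nat_lit 10) C.nil) C.nil)) C.nil))) C.nil)) C.nil))) (C.cons (nat_lit 1156) (C.node (nat_lit 6) (nat_lit 7) (nat_lit 10) (C.cons (nat_lit 1216) (C.node (nat_lit 2) (nat_lit 6) (nat_lit 10) (C.cons (nat_lit 1348) (C.miq (nat_lit 2443576450) (nat_lit 1317739861087721413268472085)) (C.cons (nat_lit 1092) (C.node (nat_lit 2) (nat_lit 8) (nat_lit 10) (C.cons (nat_lit 1316) (C.node (nat_lit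 2) (nat_lit 9) (nat_lit 10) (C.cons (nat_lit 1540) (C.node (nat_lit 5) (nat_lit 9) (nat_lit 10) C.nil) C.nil)) (C.cons (nat_lit 1284) (C.node (nat_lit 5) (nat_lit 8) (nat_lit 10) C.nil) C.nil))) C.nil))) C.nil)) C.nil))) C.nil)) C.nil))) C.nil))) C.nil)) C.nil))) C.nil)))) C.nil)))) C.nil))) C.nil)) (C.cons (nat_lit 386) (C.node (nat_lit 1) (nat_lit 3) (nat_lit 7) (C.cons (nat_lit 650) (C.node (nat_lit 3) (nat_lit 7) (nat_lit 10)
  (C.cons (nat_lit 1224) (C.miq (nat_lit 1662298000) (nat_lit 31453045602520329559934849)) (C.cons (nat_lit 1160) (C.node (nat_lit 1) (nat_lit 2) (nat_lit 5) (C.cons (nat_lit 550) (C.miq (nat_lit 1346540401) (nat_lit 334882597898149140907819658)) (C.cons (nat_lit 102) (C.miq (nat_lit 2534541910) (nat_lit 181349591041219725554484337)) (C.cons (nat_lit 38) (C.node (nat_lit 1) (nat_lit 2) (nat_lit 9) (C.cons (nat_lit 774) (C.miq (nat_lit 557091184) (nat_lit 31437181275953199800977281)) (C.cons (nat_lit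 518) (C.node (nat_lit 1) (nat_lit 5) (nat_lit 6) (C.cons (nat_lit 610) (C.miq (nat_lit 1133840150) (nat_lit 668556952237970204578152643)) (C.cons (nat_lit 98) (C.node (nat_lit 1) (nat_lit 5) (nat_lit 9) (C.cons (nat_lit 546) (C.node (nat_lit 5) (nat_lit 9) (nat_lit 10) (C.cons (nat_lit 1572) (C.miq (nat_lit 622238320) (nat_lit 118485448323024241603839873)) (C.cons (nat_lit 1568) (C.node (nat_lit 4) (nat_lit 5) (nat_lit 7) (C.cons (nat_lit 688) (C.miq (nat_lit 1463437584) (nat_lit 1402374924894639226193117715)) (C.cons (nat_lit 432) (C.miq (nat_lit 559155832) (nat_lit 60451401021297470943004545)) (C.cons (nat_lit 176) (C.node (nat_lit 4) (nat_lit 7) (nat_lit 9) (C.cons (nat_lit 720) (C.miq (nat_lit 1731873040) (nat_lit 1402374924903646425447858707)) (C.cons (nat_lit 656) (C.node (nat_lit 6) (nat_lit 7) (nat_lit 9) (C.cons (nat_lit 736) (C.miq (nat_lit 559286905) (nat_lit 118485448172998079052515201)) (C.cons (nat_lit 704)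 (C.node (nat_lit 1) (nat_lit 2) (nat_lit 6) (C.cons (nat_lit 326) (C.node (nat_lit 1) (nat_lit 3) (nat_lit 6) (C.cons (nat_lit 74) (C.node (nat_lit 1) (nat_lit 3) (nat_lit 8) (C.cons (nat_lit 266) (C.node (nat_lit 2) (nat_lit 5) (nat_lit 10) C.nil) C.nil)) C.nil)) (C.cons (nat_lit 70) (C.node (nat_lit 1) (nat_lit 2) (nat_lit 8) (C.cons (nat_lit 262) (C.node (nat_lit 2) (nat_lit 5) (nat_lit 10) C.nil) C.nil)) C.nil))) C.nil))) C.nil))) C.nil)))) C.nil))) C.nil)) C.nil))) C.nil))) C.nil)))) C.nil))) (C.cons (nat_lit 138) (C.node (nat_lit 1) (nat_lit 7) (nat_lit 9) (C.cons (nat_lit 642) (C.node (nat_lit 2) (nat_lit 4) (nat_lit 6) (C.cons (nat_lit 92) (C.node (nat_lit 3) (nat_lit 9) (nat_lit 10) (C.cons (nat_lit 1608) (C.miq (nat_lit 2318666082) (nat_lit 1266959369244960129212482117)) (C.cons (nat_lit 1544) (C.node (nat_lit 6) (nat_lit 9) (nat_lit 10) (C.cons (nat_lit 1600) (C.node (nat_lit 2) (nat_lit 3) (nat_lit 9) (C.cons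 (nat_lit 780) (C.miq (nat_lit 1788035202) (nat_lit 1866583162905487526228394261)) (C.cons (nat_lit 652) (C.miq (nat_lit 1934266976) (nat_lit 1266989695335019051167580741)) (C.cons (nat_lit 524) (C.node (nat_lit 3) (nat_lit 7) (nat_lit 9) (C.cons (nat_lit 712) (C.miq (nat_lit 2268334434) (nat_lit 184970760689863169559757381)) (C.cons (nat_lit 648) (C.node (nat_lit 4) (nat_lit 6) (nat_lit 9) (C.cons (nat_lit 848) (C.miq (nat_lit 342010000) (nat_lit 111240341936996630237874049)) (C.cons (nat_lit 720) (C.miq (nat_lit 1949996576) (nat_lit 1266989695354159349577482821)) (C.cons (nat_lit 592) (C.node (nat_lit 6) (nat_lit 7) (nat_lit 9) (C.cons (nat_lit 736) (C.miq (nat_lit 561580630) (nat_lit 776141094043356350092674161)) (C.cons (nat_lit 704) (C.node (nat_lit 5) (nat_lit 9) (nat_lit 10) (C.cons (nat_lit 1572) (C.miq (nat_lit 1466540290) (nat_lit 851112775624212970343826447)) (C.cons (nat_lit 1568) (C.node (nat_lit 2) (nat_lit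 4) (nat_lit 5) (C.cons (nat_lit 564) (C.node (nat_lit 2) (nat_lit 4) (nat_lit 10) (C.cons (nat_lit 1044) (C.node (nat_lit 2) (nat_lit 7) (nat_lit 9) (C.cons (nat_lit 644) (C.node (nat_lit 2) (nat_lit 9) (nat_lit 10) (C.cons (nat_lit 1540) (C.node (nat_lit 4) (nat_lit 7) (nat_lit 9) (C.cons (nat_lit 656) (C.node (nat_lit 4) (nat_lit 9) (nat_lit 10) C.nil) C.nil)) C.nil)) C.nil)) C.nil)) (C.cons (nat_lit 52) (C.node (nat_lit 2) (nat_lit 4) (nat_lit 9) (C.cons (nat_lit 1556) (C.node (nat_lit 2) (nat_lit 5) (nat_lit 10) (C.cons (nat_lit 1316) (C.miq (nat_lit 337971624) (nat_lit 62869510771956062252959617)) (C.cons (nat_lit 1060) (C.node (nat_lit 5) (nat_lit 8) (nat_lit 10)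
  (C.cons (nat_lit 1312) (C.node (nat_lit 2) (nat_lit 7) (nat_lit 10) (C.cons (nat_lit 1220) (C.miq (nat_lit 338037159) (nat_lit 111224772669110153117960065)) (C.cons (nat_lit 1156) (C.node (nat_lit 2) (nat_lit 6) (nat_lit 10) (C.cons (nat_lit 1348) (C.miq (nat_lit 2224464130) (nat_lit 715708951788228632337777679)) (C.cons (nat_lit 1092) (C.node (nat_lit 3) (nat_lit 7) (nat_lit 10) (C.cons (nat_lit 1224) (C.miq (nat_lit 2321680180) (nat_lit 1320152105308002163632111769)) C.nil)) C.nil))) C.nil))) C.nil)) C.nil))) (C.cons (nat_lit 532) (C.node (nat_lit 2) (nat_lit 4) (nat_lit 10) (C.cons (nat_lit 1044) (C.node (nat_lit 2) (nat_lit 9) (nat_lit 10) (C.cons (nat_lit 1540) (C.node (nat_lit 4) (nat_lit 9) (nat_lit 10) (C.cons (nat_lit 1552) (C.node (nat_lit 3) (nat_lit 4) (nat_lit 9) C.nil) C.nil)) C.nil)) C.nil)) C.nil))) C.nil))) C.nil))) C.nil))) C.nil)))) C.nil))) C.nil)))) C.nil)) C.nil))) (C.cons (nat_lit 84) (C.node (nat_lit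 2) (nat_lit 4) (nat_lit 10) (C.cons (nat_lit 1556) (C.node (nat_lit 5) (nat_lit 9) (nat_lit 10) (C.cons (nat_lit 1568) (C.node (nat_lit 2) (nat_lit 5) (nat_lit 10) (C.cons (nat_lit 1316) (C.miq (nat_lit 1363312794) (nat_lit 181363148939306876928264065)) (C.cons (nat_lit 1060) (C.node (nat_lit 5) (nat_lit 8) (nat_lit 10) (C.cons (nat_lit 1312) (C.node (nat_lit 2) (nat_lit 7) (nat_lit 10) (C.cons (nat_lit 1220) (C.miq (nat_lit 338037159) (nat_lit 101553366112193119720310657)) (C.cons (nat_lit 1156) (C.node (nat_lit 2) (nat_lit 6) (nat_lit 10) (C.cons (nat_lit 1348) (C.miq (nat_lit 2443576450) (nat_lit 1317739861087721413268472085)) (C.cons (nat_lit 1092) (C.node (nat_lit 2) (nat_lit 8) (nat_lit 10) (C.cons (nat_lit 1284) (C.node (nat_lit 2) (nat_lit 3) (nat_lit 4) (C.cons (nat_lit 60) (C.node (nat_lit 1) (nat_lit 2) (nat_lit 5) (C.cons (nat_lit 550) (C.miq (nat_lit 1934770321) (nat_lit 72538316231556853504803347)) (C.cons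 (nat_lit 102) (C.miq (nat_lit 1898120788) (nat_lit 1256076748986331048630289521)) (C.cons (nat_lit 38) (C.node (nat_lit 1) (nat_lit 2) (nat_lit 9) (C.cons (nat_lit 774) (C.miq (nat_lit 1108715904) (nat_lit 45960155531346104484562817)) (C.cons (nat_lit 518) (C.node (nat_lit 1) (nat_lit 5) (nat_lit 6) (C.cons (nat_lit 610) (C.node (nat_lit 1) (nat_lit 2) (nat_lit 6) C.nil) C.nil)) C.nil))) C.nil)))) (C.cons (nat_lit 28) (C.node (nat_lit 2) (nat_lit 4) (nat_lit 5) (C.cons (nat_lit 52) (C.node (nat_lit 3) (nat_lit 4) (nat_lit 5) (C.cons (nat_lit 312) (C.node (nat_lit 4) (nat_lit 8) (nat_lit 9) (C.cons (nat_lit 848) (C.miq (nat_lit 342010000) (nat_lit 101568935380079596840224641)) (C.cons (nat_lit 784) (C.node (nat_lit 1) (nat_lit 2) (nat_lit 5) C.nil) C.nil))) (C.cons (nat_lit 56) (C.node (nat_lit 4) (nat_lit 5) (nat_lit 8) (C.cons (nat_lit 816) (C.miq (nat_lit 609331584) (nat_lit 60465457585802611433604993)) (C.cons (nat_lit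 432) (C.miq (nat_lit 356689792) (nat_lit 62883309120884479131715457)) (C.cons (nat_lit 304) (C.node (nat_lit 4) (nat_lit 5) (nat_lit 7) (C.cons (nat_lit 176) (C.node (nat_lit 4) (nat_lit 5) (nat_lit 9) C.nil) C.nil)) C.nil)))) C.nil))) C.nil)) C.nil))) C.nil)) C.nil))) C.nil))) C.nil)) C.nil))) C.nil)) (C.cons (nat_lit 1044) (C.node (nat_lit 4) (nat_lit 9) (nat_lit 10) (C.cons (nat_lit 1552) (C.node (nat_lit 2) (nat_lit 7) (nat_lit 10) (C.cons (nat_lit 1220) (C.node (nat_lit 3) (nat_lit 7) (nat_lit 10) (C.cons (nat_lit 1160) (C.node (nat_lit 2) (nat_lit 8) (nat_lit 10) (C.cons (nat_lit 1316) (C.miq (nat_lit 2171752554) (nat_lit 181363148939305433797231729)) (C.cons (nat_lit 1284) (C.node (nat_lit 5) (nat_lit 8) (nat_lit 10) (C.cons (nat_lit 1312) (C.node (nat_lit 2) (nat_lit 5) (nat_lit 10) (C.cons (nat_lit 1572) (C.miq (nat_lit 1359587170) (nat_lit 641968608830882123119658180)) (C.cons (nat_lit 1060) (C.node (nat_lit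 2) (nat_lit 9) (nat_lit 10) (C.cons (nat_lit 1540) (C.node (nat_lit 5) (nat_lit 9) (nat_lit 10) (C.cons (nat_lit 1568) (C.node (nat_lit 3) (nat_lit 8) (nat_lit 10) (C.cons (nat_lit 1352) (C.node (nat_lit 3) (nat_lit 9) (nat_lit 10) (C.cons (nat_lit 1544)
  (C.node (nat_lit 6) (nat_lit 9) (nat_lit 10) (C.cons (nat_lit 1600) (C.node (nat_lit 1) (nat_lit 3) (nat_lit 8) (C.cons (nat_lit 778) (C.miq (nat_lit 1662298256) (nat_lit 31453045638549676334712705)) (C.cons (nat_lit 266) (C.node (nat_lit 1) (nat_lit 3) (nat_lit 6) C.nil) C.nil))) C.nil)) C.nil)) (C.cons (nat_lit 1288) (C.node (nat_lit 6) (nat_lit 8) (nat_lit 10) (C.cons (nat_lit 1344) (C.node (nat_lit 3) (nat_lit 6) (nat_lit 10) (C.cons (nat_lit 1608) (C.node (nat_lit 1) (nat_lit 3) (nat_lit 9) (C.cons (nat_lit 778) (C.miq (nat_lit 1662364032) (nat_lit 50795858824441337152210817)) (C.cons (nat_lit 522) (C.node (nat_lit 1) (nat_lit 3) (nat_lit 6) C.nil) C.nil))) C.nil))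 C.nil)) C.nil))) C.nil)) C.nil)) C.nil))) C.nil)) C.nil))) C.nil)) (C.cons (nat_lit 1156) (C.node (nat_lit 2) (nat_lit 6) (nat_lit 10) (C.cons (nat_lit 1348) (C.miq (nat_lit 2443576450) (nat_lit 1317739861087721413268472085)) (C.cons (nat_lit 1092) (C.node (nat_lit 2) (nat_lit 8) (nat_lit 10) (C.cons (nat_lit 1316) (C.node (nat_lit 2) (nat_lit 9) (nat_lit 10) (C.cons (nat_lit 1540) (C.node (nat_lit 5) (nat_lit 9) (nat_lit 10) (C.cons (nat_lit 1568) (C.node (nat_lit 3) (nat_lit 7) (nat_lit 10) (C.cons (nat_lit 1224) (C.node (nat_lit 3) (nat_lit 8) (nat_lit 10) (C.cons (nat_lit 1288) (C.node (nat_lit 3) (nat_lit 9) (nat_lit 10) (C.cons (nat_lit 1544) (C.node (nat_lit 6) (nat_lit 8) (nat_lit 10) (C.cons (nat_lit 1344) (C.node (nat_lit 6) (nat_lit 9) (nat_lit 10) (C.cons (nat_lit 1600) (C.node (nat_lit 4) (nat_lit 6) (nat_lit 7) (C.cons (nat_lit 720) (C.miq (nat_lit 910272400) (nat_lit 99151083720020640455133057)) (C.cons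 (nat_lit 464) (C.miq (nat_lit 910337920) (nat_lit 101568935359248799276271489)) (C.cons (nat_lit 208) (C.node (nat_lit 3) (nat_lit 7) (nat_lit 9) C.nil) C.nil)))) C.nil)) C.nil)) C.nil)) C.nil)) (C.cons (nat_lit 1160) (C.node (nat_lit 6) (nat_lit 7) (nat_lit 10) (C.cons (nat_lit 1216) (C.node (nat_lit 4) (nat_lit 5) (nat_lit 7) (C.cons (nat_lit 688) (C.node (nat_lit 1) (nat_lit 2) (nat_lit 5) C.nil) (C.cons (nat_lit 432) (C.miq (nat_lit 559155832) (nat_lit 60451401021297470943004545)) C.nil))) C.nil)) C.nil))) C.nil)) C.nil)) (C.cons (nat_lit 1284) (C.node (nat_lit 5) (nat_lit 8) (nat_lit 10) (C.cons (nat_lit 1312) (C.node (nat_lit 2) (nat_lit 5) (nat_lit 10) (C.cons (nat_lit 1572) (C.node (nat_lit 1) (nat_lit 2) (nat_lit 5) (C.cons (nat_lit 102) (C.miq (nat_lit 2451023200) (nat_lit 181374309580039073743176817)) (C.cons (nat_lit 38) (C.miq (nat_lit 1649478055) (nat_lit 45942778423993995236607873)) C.nil))) (C.cons (nat_lit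 1060) (C.node (nat_lit 2) (nat_lit 9) (nat_lit 10) (C.cons (nat_lit 1540) (C.node (nat_lit 5) (nat_lit 9) (nat_lit 10) (C.cons (nat_lit 1568) (C.node (nat_lit 3) (nat_lit 7) (nat_lit 10) (C.cons (nat_lit 1224) (C.node (nat_lit 3) (nat_lit 8) (nat_lit 10) (C.cons (nat_lit 1288) (C.node (nat_lit 3) (nat_lit 9) (nat_lit 10) C.nil) C.nil)) (C.cons (nat_lit 1160) (C.node (nat_lit 6) (nat_lit 7) (nat_lit 10) C.nil) C.nil))) C.nil)) C.nil)) C.nil))) C.nil)) C.nil))) C.nil))) C.nil))) C.nil)) C.nil))) C.nil))) C.nil)) C.nil))) C.nil))) C.nil))) C.nil)) C.nil))) C.nil))) C.nil))) C.nil))) (C.cons (nat_lit 146) (C.node (nat_lit 1) (nat_lit 2) (nat_lit 4) (C.cons (nat_lit 86) (C.miq (nat_lit 2585135170) (nat_lit 1317739861478971630813577493)) (C.cons (nat_lit 54) (C.miq (nat_lit 1881516097) (nat_lit 44752133704927318962996498)) (C.cons (nat_lit 22) (C.node (nat_lit 1) (nat_lit 4) (nat_lit 5) (C.cons (nat_lit 58) (C.node (nat_lit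 1) (nat_lit 4) (nat_lit 6) (C.cons (nat_lit 82) (C.node (nat_lit 2) (nat_lit 4) (nat_lit 10) (C.cons (nat_lit 1556) (C.miq (nat_lit 967069825) (nat_lit 1881089645387183183835037987)) (C.cons (nat_lit 1044) (C.node (nat_lit 3) (nat_lit 4) (nat_lit 10) (C.cons (nat_lit 1560) (C.node (nat_lit 6) (nat_lit 9) (nat_lit 10) (C.cons (nat_lit 1600) (C.node (nat_lit 3) (nat_lit 5) (nat_lit 10) (C.cons (nat_lit 1320) (C.node (nat_lit 2) (nat_lit 8) (nat_lit 10) (C.cons (nat_lit 1348)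
  (C.miq (nat_lit 443107360) (nat_lit 1934291106969870128726212885)) (C.cons (nat_lit 1284) (C.node (nat_lit 6) (nat_lit 8) (nat_lit 10) (C.cons (nat_lit 1344) (C.node (nat_lit 3) (nat_lit 6) (nat_lit 10) (C.cons (nat_lit 1224) (C.miq (nat_lit 1632858250) (nat_lit 70140276407283583004706689)) (C.cons (nat_lit 1096) (C.node (nat_lit 3) (nat_lit 7) (nat_lit 10) (C.cons (nat_lit 1160) (C.node (nat_lit 4) (nat_lit 5) (nat_lit 8) (C.cons (nat_lit 816) (C.node (nat_lit 4) (nat_lit 6) (nat_lit 9) (C.cons (nat_lit 720) (C.miq (nat_lit 1415678320) (nat_lit 99137285440611715190556545)) (C.cons (nat_lit 592) (C.node (nat_lit 1) (nat_lit 3) (nat_lit 7) (C.cons (nat_lit 650) (C.miq (nat_lit 1680935575) (nat_lit 70121294972786614207121281)) (C.cons (nat_lit 394) (C.miq (nat_lit 1697712775) (nat_lit 70121294972785583398193025)) (C.cons (nat_lit 138) (C.node (nat_lit 1) (nat_lit 7) (nat_lit 8) (C.cons (nat_lit 390) (C.miq (nat_lit 1361356672)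 (nat_lit 26617342313364647037962113)) (C.cons (nat_lit 386) (C.node (nat_lit 2) (nat_lit 8) (nat_lit 9) (C.cons (nat_lit 780) (C.miq (nat_lit 327748180) (nat_lit 942971934812972066255406193)) (C.cons (nat_lit 774) (C.miq (nat_lit 1678903945) (nat_lit 26607085909871290531317633)) (C.cons (nat_lit 772) (C.node (nat_lit 1) (nat_lit 2) (nat_lit 7) (C.cons (nat_lit 646) (C.node (nat_lit 2) (nat_lit 3) (nat_lit 9) (C.cons (nat_lit 524) (C.node (nat_lit 2) (nat_lit 4) (nat_lit 9) (C.cons (nat_lit 532) (C.node (nat_lit 4) (nat_lit 7) (nat_lit 9) (C.cons (nat_lit 656) (C.node (nat_lit 1) (nat_lit 2) (nat_lit 5) (C.cons (nat_lit 102) (C.node (nat_lit 1) (nat_lit 2) (nat_lit 8) (C.cons (nat_lit 262) (C.node (nat_lit 1) (nat_lit 5) (nat_lit 9) (C.cons (nat_lit 546) (C.node (nat_lit 2) (nat_lit 5) (nat_lit 9) (C.cons (nat_lit 1572) (C.node (nat_lit 2) (nat_lit 6) (nat_lit 10) (C.cons (nat_lit 1220) (C.miq (nat_lit 1645520784) (nat_lit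 26617342322935895774398337)) (C.cons (nat_lit 1092) (C.node (nat_lit 2) (nat_lit 3) (nat_lit 4) C.nil) C.nil))) (C.cons (nat_lit 548) (C.miq (nat_lit 2770956640) (nat_lit 662526785678012144291217603)) C.nil))) C.nil)) C.nil)) (C.cons (nat_lit 38) (C.miq (nat_lit 1695681145) (nat_lit 45949899023704876281890689)) C.nil))) C.nil)) C.nil)) C.nil)) (C.cons (nat_lit 134) (C.node (nat_lit 1) (nat_lit 7) (nat_lit 9) (C.cons (nat_lit 642) (C.node (nat_lit 1) (nat_lit 2) (nat_lit 8) (C.cons (nat_lit 326) (C.node (nat_lit 1) (nat_lit 3) (nat_lit 6) (C.cons (nat_lit 586) (C.miq (nat_lit 2299745290) (nat_lit 708454880226035854677574769)) (C.cons (nat_lit 74) (C.node (nat_lit 1) (nat_lit 3) (nat_lit 8) (C.cons (nat_lit 778) (C.node (nat_lit 6) (nat_lit 8) (nat_lit 9) (C.cons (nat_lit 832) (C.node (nat_lit 2) (nat_lit 6) (nat_lit 10) (C.cons (nat_lit 1220) (C.node (nat_lit 4) (nat_lit 5) (nat_lit 7) C.nil) C.nil)) C.nil)) (C.cons (nat_lit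 266) (C.miq (nat_lit 2436382885) (nat_lit 321589320710123182656849009)) C.nil))) C.nil))) (C.cons (nat_lit 262) (C.node (nat_lit 1) (nat_lit 2) (nat_lit 6) (C.cons (nat_lit 102) (C.miq (nat_lit 2534541910) (nat_lit 162006777927385658759185521)) (C.cons (nat_lit 70) (C.node (nat_lit 2) (nat_lit 5) (nat_lit 10) (C.cons (nat_lit 1572) (C.miq (nat_lit 1365419785) (nat_lit 84653805988538073580111745)) (C.cons (nat_lit 1060) (C.node (nat_lit 2) (nat_lit 9) (nat_lit 10) (C.cons (nat_lit 1540) (C.node (nat_lit 5) (nat_lit 9) (nat_lit 10) (C.cons (nat_lit 1568) (C.node (nat_lit 1) (nat_lit 2) (nat_lit 5) (C.cons (nat_lit 38) (C.node (nat_lit 1) (nat_lit 2) (nat_lit 9) C.nil) C.nil)) C.nil)) C.nil)) C.nil))) C.nil))) C.nil))) C.nil)) C.nil))) C.nil)))) C.nil))) C.nil)))) C.nil))) (C.cons (nat_lit 432) (C.miq (nat_lit 559155832) (nat_lit 70122807578214504340653953)) (C.cons (nat_lit 304) (C.miq (nat_lit 2488836880) (nat_lit 367548885797314077955130383))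 C.nil)))) C.nil)) C.nil))) C.nil)) C.nil))) (C.cons (nat_lit 1064) (C.miq (nat_lit 2235175060) (nat_lit 1286321016025684710327321107)) C.nil))) C.nil)) (C.cons (nat_lit 1048)
  (C.miq (nat_lit 2588084245) (nat_lit 1266964460546323141606637859)) C.nil))) C.nil))) C.nil)) (C.cons (nat_lit 50) (C.node (nat_lit 3) (nat_lit 4) (nat_lit 10) (C.cons (nat_lit 1560) (C.miq (nat_lit 873831040) (nat_lit 60456492469310758672598913)) (C.cons (nat_lit 1048) (C.node (nat_lit 3) (nat_lit 5) (nat_lit 10) (C.cons (nat_lit 1320) (C.miq (nat_lit 2477000065) (nat_lit 1266964054332895846426870051)) (C.cons (nat_lit 1064) (C.node (nat_lit 1) (nat_lit 3) (nat_lit 4) (C.cons (nat_lit 90) (C.node (nat_lit 1) (nat_lit 3) (nat_lit 5) (C.cons (nat_lit 42) (C.node (nat_lit 3) (nat_lit 7) (nat_lit 10) (C.cons (nat_lit 1224) (C.miq (nat_lit 2587101025) (nat_lit 1266964054717953202171019459)) (C.cons (nat_lit 1160) (C.node (nat_lit 1) (nat_lit 3) (nat_lit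 7) (C.cons (nat_lit 650) (C.miq (nat_lit 1785938065) (nat_lit 1402355611279981775713600019)) (C.cons (nat_lit 394) (C.miq (nat_lit 2202693984) (nat_lit 1266989695262398498586296515)) (C.cons (nat_lit 138) (C.node (nat_lit 1) (nat_lit 3) (nat_lit 8) (C.cons (nat_lit 778) (C.miq (nat_lit 1094035600) (nat_lit 50795858737184094389077889)) (C.cons (nat_lit 266) (C.node (nat_lit 1) (nat_lit 3) (nat_lit 9) (C.cons (nat_lit 522) (C.node (nat_lit 1) (nat_lit 7) (nat_lit 8) (C.cons (nat_lit 390) (C.miq (nat_lit 1361356672) (nat_lit 26617342313364647037962113)) (C.cons (nat_lit 386) (C.node (nat_lit 3) (nat_lit 8) (nat_lit 10) (C.cons (nat_lit 1352) (C.miq (nat_lit 2199496256) (nat_lit 631094714414756580339942513)) (C.cons (nat_lit 1288) (C.node (nat_lit 6) (nat_lit 8) (nat_lit 10) (C.cons (nat_lit 1348) (C.miq (nat_lit 2443576450) (nat_lit 1317739861087721413268472085)) (C.cons (nat_lit 1344) (C.node (nat_lit 4) (nat_lit 6) (nat_lit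 8) (C.cons (nat_lit 848) (C.miq (nat_lit 558238345) (nat_lit 108814041616081526698542977)) (C.cons (nat_lit 464) (C.miq (nat_lit 2218423824) (nat_lit 1266989695282101746949619907)) (C.cons (nat_lit 336) (C.node (nat_lit 4) (nat_lit 6) (nat_lit 9) (C.cons (nat_lit 720) (C.miq (nat_lit 1671905545) (nat_lit 1402367232434040124037202451)) (C.cons (nat_lit 592) (C.node (nat_lit 4) (nat_lit 7) (nat_lit 8) (C.cons (nat_lit 432) (C.miq (nat_lit 559155832) (nat_lit 60451401021297470943004545)) (C.cons (nat_lit 400) (C.node (nat_lit 1) (nat_lit 2) (nat_lit 7) (C.cons (nat_lit 646) (C.node (nat_lit 1) (nat_lit 2) (nat_lit 5) (C.cons (nat_lit 102) (C.node (nat_lit 1) (nat_lit 2) (nat_lit 8) (C.cons (nat_lit 262) (C.node (nat_lit 1) (nat_lit 5) (nat_lit 9) (C.cons (nat_lit 546) (C.node (nat_lit 2) (nat_lit 4) (nat_lit 10) (C.cons (nat_lit 1556) (C.miq (nat_lit 1108781424) (nat_lit 123331407986681821903652737)) (C.cons (nat_lit 1044)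 (C.node (nat_lit 4) (nat_lit 9) (nat_lit 10) (C.cons (nat_lit 1552) (C.node (nat_lit 3) (nat_lit 6) (nat_lit 10) C.nil) C.nil)) C.nil))) C.nil)) C.nil)) (C.cons (nat_lit 38) (C.miq (nat_lit 1695681145) (nat_lit 45949899023704876281890689)) C.nil))) (C.cons (nat_lit 134) (C.node (nat_lit 1) (nat_lit 7) (nat_lit 9) (C.cons (nat_lit 642) (C.node (nat_lit 2) (nat_lit 4) (nat_lit 6) (C.cons (nat_lit 212) (C.node (nat_lit 2) (nat_lit 6) (nat_lit 10) (C.cons (nat_lit 1092) (C.node (nat_lit 2) (nat_lit 7) (nat_lit 10) (C.cons (nat_lit 1156) (C.node (nat_lit 6) (nat_lit 7) (nat_lit 10) (C.cons (nat_lit 1216) (C.node (nat_lit 2) (nat_lit 4) (nat_lit 10) C.nil) C.nil)) C.nil)) C.nil)) (C.cons (nat_lit 84) (C.node (nat_lit 3) (nat_lit 7) (nat_lit 9) C.nil) C.nil))) C.nil)) C.nil))) C.nil))) C.nil))) C.nil)))) C.nil))) C.nil))) C.nil))) C.nil)) C.nil))) C.nil)))) C.nil))) C.nil)) (C.cons (nat_lit 26) (C.node (nat_lit 1) (nat_lit 4)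 (nat_lit 6) (C.cons (nat_lit 82) (C.node (nat_lit 1) (nat_lit 3) (nat_lit 5) (C.cons (nat_lit 106) (C.node (nat_lit 3) (nat_lit 7) (nat_lit 10) (C.cons (nat_lit 1224) (C.miq (nat_lit 2318731105) (nat_lit 1286302440613209578674979011)) (C.cons (nat_lit 1160) (C.node (nat_lit 3) (nat_lit 9) (nat_lit 10) (C.cons (nat_lit 1608) (C.miq (nat_lit 2321615157) (nat_lit 1317734511923191586484781609)) (C.cons (nat_lit 1544)
  (C.node (nat_lit 6) (nat_lit 9) (nat_lit 10) (C.cons (nat_lit 1600) (C.node (nat_lit 5) (nat_lit 9) (nat_lit 10) (C.cons (nat_lit 1572) (C.miq (nat_lit 622238320) (nat_lit 128156854879941275001489281)) (C.cons (nat_lit 1568) (C.node (nat_lit 1) (nat_lit 2) (nat_lit 7) (C.cons (nat_lit 646) (C.miq (nat_lit 642879655) (nat_lit 128158053639364153813632897)) (C.cons (nat_lit 390) (C.miq (nat_lit 1361356672) (nat_lit 26617342313364647037962113)) (C.cons (nat_lit 134) (C.node (nat_lit 1) (nat_lit 7) (nat_lit 8) (C.cons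 (nat_lit 394) (C.miq (nat_lit 1785942145) (nat_lit 1402355906427886955049648419)) (C.cons (nat_lit 386) (C.node (nat_lit 1) (nat_lit 3) (nat_lit 7) (C.cons (nat_lit 650) (C.miq (nat_lit 2472178016) (nat_lit 1286332508448290228139000003)) (C.cons (nat_lit 138) (C.node (nat_lit 1) (nat_lit 7) (nat_lit 9) (C.cons (nat_lit 642) (C.node (nat_lit 1) (nat_lit 3) (nat_lit 8) (C.cons (nat_lit 778) (C.miq (nat_lit 1094035600) (nat_lit 128167111192520361570273153)) (C.cons (nat_lit 266) (C.node (nat_lit 1) (nat_lit 3) (nat_lit 9) (C.cons (nat_lit 522) (C.node (nat_lit 3) (nat_lit 6) (nat_lit 10) C.nil) C.nil)) C.nil))) C.nil)) C.nil))) C.nil))) C.nil)))) C.nil))) C.nil)) C.nil))) C.nil))) (C.cons (nat_lit 42) (C.node (nat_lit 2) (nat_lit 4) (nat_lit 10) (C.cons (nat_lit 1556) (C.node (nat_lit 5) (nat_lit 9) (nat_lit 10) (C.cons (nat_lit 1568) (C.node (nat_lit 2) (nat_lit 5) (nat_lit 10) (C.cons (nat_lit 1316) (C.miq (nat_lit 1363312794)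 (nat_lit 26620644028634342565873537)) (C.cons (nat_lit 1060) (C.node (nat_lit 5) (nat_lit 8) (nat_lit 10) (C.cons (nat_lit 1312) (C.node (nat_lit 2) (nat_lit 7) (nat_lit 10) (C.cons (nat_lit 1220) (C.miq (nat_lit 1631744154) (nat_lit 26618873114181668684695425)) (C.cons (nat_lit 1156) (C.node (nat_lit 2) (nat_lit 6) (nat_lit 10) (C.cons (nat_lit 1348) (C.miq (nat_lit 2443576450) (nat_lit 1317739861087721413268472085)) (C.cons (nat_lit 1092) (C.node (nat_lit 2) (nat_lit 8) (nat_lit 10) (C.cons (nat_lit 1284) (C.node (nat_lit 1) (nat_lit 2) (nat_lit 7) (C.cons (nat_lit 646) (C.miq (nat_lit 1679886999) (nat_lit 26599965466659946737567617)) (C.cons (nat_lit 390) (C.miq (nat_lit 1361356672) (nat_lit 26617342313364647037962113)) (C.cons (nat_lit 134) (C.node (nat_lit 1) (nat_lit 7) (nat_lit 8) (C.cons (nat_lit 394) (C.node (nat_lit 1) (nat_lit 7) (nat_lit 9) (C.cons (nat_lit 642) (C.node (nat_lit 3) (nat_lit 7) (nat_lit 10)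 (C.cons (nat_lit 1224) (C.miq (nat_lit 1662363520) (nat_lit 50795858716353296827877249)) (C.cons (nat_lit 1160) (C.node (nat_lit 6) (nat_lit 7) (nat_lit 10) (C.cons (nat_lit 1216) (C.node (nat_lit 2) (nat_lit 4) (nat_lit 7) C.nil) C.nil)) C.nil))) C.nil)) (C.cons (nat_lit 386) (C.node (nat_lit 1) (nat_lit 3) (nat_lit 7) (C.cons (nat_lit 650) (C.node (nat_lit 3) (nat_lit 7) (nat_lit 10) (C.cons (nat_lit 1224) (C.miq (nat_lit 1662298000) (nat_lit 31453045602520329559934849)) (C.cons (nat_lit 1160) (C.node (nat_lit 6) (nat_lit 7) (nat_lit 10) (C.cons (nat_lit 1216) (C.node (nat_lit 2) (nat_lit 7) (nat_lit 9) C.nil) C.nil)) C.nil))) (C.cons (nat_lit 138) (C.node (nat_lit 1) (nat_lit 7) (nat_lit 9) (C.cons (nat_lit 642) (C.node (nat_lit 3) (nat_lit 7) (nat_lit 10) (C.cons (nat_lit 1224) (C.node (nat_lit 3) (nat_lit 8) (nat_lit 10) (C.cons (nat_lit 1288) (C.node (nat_lit 3) (nat_lit 9) (nat_lit 10) C.nil) C.nil)) (C.cons (nat_lit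 1160) (C.node (nat_lit 6) (nat_lit 7) (nat_lit 10) C.nil) C.nil))) C.nil)) C.nil))) C.nil))) C.nil)))) C.nil)) C.nil))) C.nil))) C.nil)) C.nil))) C.nil)) (C.cons (nat_lit 1044) (C.node (nat_lit 4) (nat_lit 9) (nat_lit 10) (C.cons (nat_lit 1552) (C.node (nat_lit 2) (nat_lit 7) (nat_lit 10) (C.cons (nat_lit 1220) (C.node (nat_lit 3) (nat_lit 7) (nat_lit 10) (C.cons (nat_lit 1160) (C.node (nat_lit 2) (nat_lit 8) (nat_lit 10) (C.cons (nat_lit 1316) (C.miq (nat_lit 1652587089) (nat_lit 334876049491751778539209890)) (C.cons (nat_lit 1284) (C.node (nat_lit 5) (nat_lit 8) (nat_lit 10) (C.cons (nat_lit 1312) (C.node (nat_lit 2) (nat_lit 5) (nat_lit 10)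
  (C.cons (nat_lit 1572) (C.miq (nat_lit 1359587170) (nat_lit 641968608830882123119658180)) (C.cons (nat_lit 1060) (C.node (nat_lit 2) (nat_lit 9) (nat_lit 10) (C.cons (nat_lit 1540) (C.node (nat_lit 5) (nat_lit 9) (nat_lit 10) (C.cons (nat_lit 1568) (C.node (nat_lit 1) (nat_lit 2) (nat_lit 7) (C.cons (nat_lit 646) (C.miq (nat_lit 1645520784) (nat_lit 26617342322935895774398337)) (C.cons (nat_lit 390) (C.miq (nat_lit 1361356672) (nat_lit 26617342313364647037962113)) (C.cons (nat_lit 134) (C.node (nat_lit 2) (nat_lit 4) (nat_lit 6) (C.cons (nat_lit 92) (C.node (nat_lit 4) (nat_lit 6) (nat_lit 7) (C.cons (nat_lit 720) (C.miq (nat_lit 641836944) (nat_lit 99151083718894740548290433)) (C.cons (nat_lit 464) (C.miq (nat_lit 980820100) (nat_lit 1474891197322763125885239573)) C.nil))) C.nil)) C.nil)))) C.nil)) C.nil)) C.nil))) C.nil)) C.nil))) C.nil)) (C.cons (nat_lit 1156) (C.node (nat_lit 2) (nat_lit 6) (nat_lit 10) (C.cons (nat_lit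 1348) (C.miq (nat_lit 2443576450) (nat_lit 1317739861087721413268472085)) (C.cons (nat_lit 1092) (C.node (nat_lit 2) (nat_lit 8) (nat_lit 10) (C.cons (nat_lit 1316) (C.node (nat_lit 2) (nat_lit 9) (nat_lit 10) (C.cons (nat_lit 1540) (C.node (nat_lit 5) (nat_lit 9) (nat_lit 10) (C.cons (nat_lit 1568) (C.node (nat_lit 3) (nat_lit 7) (nat_lit 10) (C.cons (nat_lit 1224) (C.node (nat_lit 3) (nat_lit 8) (nat_lit 10) (C.cons (nat_lit 1288) (C.node (nat_lit 3) (nat_lit 9) (nat_lit 10) (C.cons (nat_lit 1544) (C.node (nat_lit 6) (nat_lit 8) (nat_lit 10) (C.cons (nat_lit 1344) (C.node (nat_lit 6) (nat_lit 9) (nat_lit 10) (C.cons (nat_lit 1600) (C.node (nat_lit 1) (nat_lit 3) (nat_lit 7) (C.cons (nat_lit 650) (C.miq (nat_lit 1662298000) (nat_lit 31453045602520329559934849)) (C.cons (nat_lit 394) (C.miq (nat_lit 1662363520) (nat_lit 50795858716353296827877249)) (C.cons (nat_lit 138) (C.node (nat_lit 4) (nat_lit 7) (nat_lit 8) (C.cons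 (nat_lit 464) (C.miq (nat_lit 2258782000) (nat_lit 1320152104897893122626748569)) (C.cons (nat_lit 432) (C.miq (nat_lit 559155832) (nat_lit 60451401021297470943004545)) C.nil))) C.nil)))) C.nil)) C.nil)) C.nil)) C.nil)) (C.cons (nat_lit 1160) (C.node (nat_lit 6) (nat_lit 7) (nat_lit 10) (C.cons (nat_lit 1216) (C.node (nat_lit 3) (nat_lit 8) (nat_lit 10) (C.cons (nat_lit 1352) (C.node (nat_lit 3) (nat_lit 9) (nat_lit 10) (C.cons (nat_lit 1544) (C.node (nat_lit 6) (nat_lit 9) (nat_lit 10) (C.cons (nat_lit 1600) (C.node (nat_lit 1) (nat_lit 3) (nat_lit 6) (C.cons (nat_lit 586) (C.node (nat_lit 1) (nat_lit 5) (nat_lit 6) (C.cons (nat_lit 102) (C.miq (nat_lit 2049312849) (nat_lit 1320150592674988514586525987)) (C.cons (nat_lit 98) (C.node (nat_lit 3) (nat_lit 4) (nat_lit 6) (C.cons (nat_lit 92) (C.node (nat_lit 1) (nat_lit 2) (nat_lit 5) C.nil) C.nil)) C.nil))) (C.cons (nat_lit 74) (C.node (nat_lit 3) (nat_lit 4) (nat_lit 5)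 (C.cons (nat_lit 312) (C.node (nat_lit 1) (nat_lit 3) (nat_lit 7) C.nil) (C.cons (nat_lit 60) (C.miq (nat_lit 2052261924) (nat_lit 1286299894962527801890832661)) C.nil))) C.nil))) C.nil)) C.nil)) (C.cons (nat_lit 1288) (C.node (nat_lit 6) (nat_lit 8) (nat_lit 10) (C.cons (nat_lit 1344) (C.node (nat_lit 3) (nat_lit 6) (nat_lit 10) (C.cons (nat_lit 1608) (C.node (nat_lit 2) (nat_lit 8) (nat_lit 9) (C.cons (nat_lit 780) (C.miq (nat_lit 1245185682) (nat_lit 1557101565731794749445898821)) (C.cons (nat_lit 774) (C.miq (nat_lit 1377085584) (nat_lit 26617342349958043294435201)) (C.cons (nat_lit 772) (C.node (nat_lit 5) (nat_lit 8) (nat_lit 9) (C.cons (nat_lit 864) (C.miq (nat_lit 1695782922) (nat_lit 50804547031480580078241665)) (C.cons (nat_lit 816) (C.miq (nat_lit 625059984) (nat_lit 60465457518248617038776193)) (C.cons (nat_lit 800) (C.node (nat_lit 1) (nat_lit 3) (nat_lit 6) (C.cons (nat_lit 330) (C.node (nat_lit 1) (nat_lit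 8) (nat_lit 9) (C.cons (nat_lit 770) (C.node (nat_lit 3) (nat_lit 4) (nat_lit 6) C.nil) C.nil)) (C.cons (nat_lit 74) (C.node (nat_lit 2) (nat_lit 4) (nat_lit 6) (C.cons (nat_lit 212)
  (C.node (nat_lit 3) (nat_lit 4) (nat_lit 6) C.nil) C.nil)) C.nil))) C.nil)))) C.nil)))) C.nil)) C.nil)) C.nil))) C.nil)) C.nil))) C.nil)) C.nil)) (C.cons (nat_lit 1284) (C.node (nat_lit 5) (nat_lit 8) (nat_lit 10) (C.cons (nat_lit 1312) (C.node (nat_lit 2) (nat_lit 5) (nat_lit 10) (C.cons (nat_lit 1572) (C.node (nat_lit 1) (nat_lit 2) (nat_lit 5) (C.cons (nat_lit 102) (C.node (nat_lit 1) (nat_lit 5) (nat_lit 9) (C.cons (nat_lit 546) (C.node (nat_lit 1) (nat_lit 2) (nat_lit 7) (C.cons (nat_lit 646) (C.node (nat_lit 1) (nat_lit 2) (nat_lit 8) (C.cons (nat_lit 262) (C.node (nat_lit 2) (nat_lit 4) (nat_lit 9) (C.cons (nat_lit 540) (C.node (nat_lit 2) (nat_lit 8) (nat_lit 9) (C.cons (nat_lit 772) (C.node (nat_lit 2) (nat_lit 4) (nat_lit 5) C.nil)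 C.nil)) C.nil)) C.nil)) (C.cons (nat_lit 390) (C.miq (nat_lit 1361356672) (nat_lit 26617342313364647037962113)) (C.cons (nat_lit 134) (C.miq (nat_lit 2451023200) (nat_lit 162031496466205006947878001)) C.nil)))) C.nil)) (C.cons (nat_lit 38) (C.miq (nat_lit 1649478055) (nat_lit 45942778423993995236607873)) C.nil))) (C.cons (nat_lit 1060) (C.node (nat_lit 2) (nat_lit 9) (nat_lit 10) (C.cons (nat_lit 1540) (C.node (nat_lit 5) (nat_lit 9) (nat_lit 10) (C.cons (nat_lit 1568) (C.node (nat_lit 3) (nat_lit 7) (nat_lit 10) (C.cons (nat_lit 1224) (C.node (nat_lit 3) (nat_lit 8) (nat_lit 10) (C.cons (nat_lit 1288) (C.node (nat_lit 3) (nat_lit 9) (nat_lit 10) C.nil) C.nil)) (C.cons (nat_lit 1160) (C.node (nat_lit 6) (nat_lit 7) (nat_lit 10) C.nil) C.nil))) C.nil)) C.nil)) C.nil))) C.nil)) C.nil))) C.nil))) C.nil))) C.nil)) C.nil))) C.nil))) C.nil)) C.nil))) C.nil))) C.nil))) C.nil))) C.nil)))) C.nil))) List.nil)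

theorem ok11_53 : okL par11 (nat_lit 54) c11_53 (nat_lit 53) = true := by decide +kernel

noncomputable def c11_54 : List C :=
  (List.cons (C.node (nat_lit 1) (nat_lit 2) (nat_lit 4) (C.cons (nat_lit 150) (C.node (nat_lit 1) (nat_lit 4) (nat_lit 5) (C.cons (nat_lit 50) (C.node (nat_lit 1) (nat_lit 2) (nat_lit 9) (C.cons (nat_lit 774) (C.miq (nat_lit 1361357184) (nat_lit 181359847332125221724686209)) (C.cons (nat_lit 518) (C.node (nat_lit 1) (nat_lit 7) (nat_lit 8) (C.cons (nat_lit 394) (C.miq (nat_lit 1513621105) (nat_lit 1557101823986210132086882499)) (C.cons (nat_lit 386) (C.node (nat_lit 1) (nat_lit 7) (nat_lit 9) (C.cons (nat_lit 650) (C.miq (nat_lit 1362405744) (nat_lit 31453045699910671477049217)) (C.cons (nat_lit 642) (C.node (nat_lit 2) (nat_lit 4) (nat_lit 6) (C.cons (nat_lit 92) (C.miq (nat_lit 2321680180) (nat_lit 1320152105308002163632111769)) (C.cons (nat_lit 84) (C.node (nat_lit 4) (nat_lit 6) (nat_lit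 7) (C.cons (nat_lit 720) (C.miq (nat_lit 910272400) (nat_lit 99151083720020640455133057)) (C.cons (nat_lit 464) (C.miq (nat_lit 910337920) (nat_lit 101568935359248799276271489)) (C.cons (nat_lit 208) (C.node (nat_lit 4) (nat_lit 7) (nat_lit 9) (C.cons (nat_lit 688) (C.miq (nat_lit 827591319) (nat_lit 60449113625033980242823041)) (C.cons (nat_lit 656) (C.node (nat_lit 1) (nat_lit 2) (nat_lit 5) (C.cons (nat_lit 102) (C.node (nat_lit 1) (nat_lit 2) (nat_lit 8) C.nil) C.nil)) C.nil))) C.nil)))) C.nil))) C.nil))) C.nil))) C.nil))) C.nil)) (C.cons (nat_lit 54) (C.miq (nat_lit 2320632084) (nat_lit 1436208983991008050460099091)) (C.cons (nat_lit 22) (C.node (nat_lit 1) (nat_lit 2) (nat_lit 9) (C.cons (nat_lit 774) (C.miq (nat_lit 1361357184) (nat_lit 26617342421452687362295681)) (C.cons (nat_lit 646) (C.miq (nat_lit 1377085328) (nat_lit 26617342313928696519657345)) (C.cons (nat_lit 518) (C.node (nat_lit 1) (nat_lit 7) (nat_lit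 9) (C.cons (nat_lit 650) (C.miq (nat_lit 1362405744) (nat_lit 31453045699910671477049217)) (C.cons (nat_lit 642) (C.node (nat_lit 1) (nat_lit 2) (nat_lit 5) (C.cons (nat_lit 102) (C.node (nat_lit 1) (nat_lit 2) (nat_lit 7) (C.cons (nat_lit 390) (C.miq (nat_lit 1919582544) (nat_lit 1320182431324316333906133283)) (C.cons (nat_lit 134) (C.node (nat_lit 1) (nat_lit 2) (nat_lit 8) C.nil) C.nil))) (C.cons (nat_lit 38) (C.node (nat_lit 1) (nat_lit 5) (nat_lit 6) (C.cons (nat_lit 106) (C.miq (nat_lit 2318731105) (nat_lit 1286302440613209578674979011)) (C.cons (nat_lit 98) (C.node (nat_lit 1) (nat_lit 2) (nat_lit 6) (C.cons (nat_lit 326) (C.node (nat_lit 1) (nat_lit 2) (nat_lit 7) C.nil) (C.cons (nat_lit 70) (C.node (nat_lit 1) (nat_lit 2) (nat_lit 7) C.nil) C.nil))) C.nil))) C.nil))) C.nil))) C.nil)))) C.nil)))) (List.cons (C.node (nat_lit 1) (nat_lit 2) (nat_lit 5) (C.cons (nat_lit 102) (C.node (nat_lit 1) (nat_lit 2) (nat_lit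 8) (C.cons (nat_lit 774) (C.miq (nat_lit 1158810264) (nat_lit 123315543668844385035224961)) (C.cons (nat_lit 390) (C.miq (nat_lit 1919582544) (nat_lit 1320182431324316333906133283)) (C.cons (nat_lit 262) (C.node (nat_lit 1) (nat_lit 2) (nat_lit 9) (C.cons (nat_lit 646) (C.miq (nat_lit 1159793273) (nat_lit 123320229141837466575439745)) (C.cons (nat_lit 518) (C.node (nat_lit 1) (nat_lit 7) (nat_lit 9) (C.cons (nat_lit 650) (C.miq (nat_lit 1243022739) (nat_lit 1395103218507169136833593897)) (C.cons (nat_lit 642) (C.node (nat_lit 5) (nat_lit 6) (nat_lit 8) (C.cons (nat_lit 864) (C.miq (nat_lit 2519368976) (nat_lit 1320182431457735472860561699)) (C.cons (nat_lit 480) (C.miq (nat_lit 1982498064) (nat_lit 1320182431349649081803669795)) (C.cons (nat_lit 352) (C.node (nat_lit 5) (nat_lit 6) (nat_lit 9) (C.cons (nat_lit 736) (C.miq (nat_lit 2502587920) (nat_lit 1436239310104711076613390531)) (C.cons (nat_lit 608) (C.node (nat_lit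 5) (nat_lit 7) (nat_lit 9) (C.cons (nat_lit 688) (C.miq (nat_lit 1092980903) (nat_lit 123323125110082563173779329)) (C.cons (nat_lit 672) (C.node (nat_lit 5) (nat_lit 8) (nat_lit 9) (C.cons (nat_lit 816) (C.miq (nat_lit 1108705449) (nat_lit 123325486221829353936914305)) (C.cons (nat_lit 804) (C.miq (nat_lit 2032535633) (nat_lit 702389498851910807288414499)) (C.cons (nat_lit 800)
  (C.node (nat_lit 2) (nat_lit 5) (nat_lit 9) (C.cons (nat_lit 564) (C.node (nat_lit 2) (nat_lit 3) (nat_lit 5) (C.cons (nat_lit 300) (C.node (nat_lit 2) (nat_lit 8) (nat_lit 9) C.nil) C.nil)) C.nil)) C.nil)))) C.nil))) C.nil))) C.nil)))) C.nil))) C.nil))) C.nil)))) (C.cons (nat_lit 54) (C.miq (nat_lit 2320632084) (nat_lit 1436208983991008050460099091)) (C.cons (nat_lit 38) (C.node (nat_lit 1) (nat_lit 2) (nat_lit 9) (C.cons (nat_lit 774) (C.miq (nat_lit 1158810264) (nat_lit 45944291213508117854029697)) (C.cons (nat_lit 646) (C.miq (nat_lit 1159793273)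 (nat_lit 45948976686501199394244481)) (C.cons (nat_lit 518) (C.node (nat_lit 1) (nat_lit 7) (nat_lit 9) (C.cons (nat_lit 650) (C.miq (nat_lit 1243022739) (nat_lit 1395103218507169136833593897)) (C.cons (nat_lit 642) (C.node (nat_lit 1) (nat_lit 5) (nat_lit 6) (C.cons (nat_lit 106) (C.node (nat_lit 1) (nat_lit 3) (nat_lit 4) (C.cons (nat_lit 26) (C.node (nat_lit 1) (nat_lit 3) (nat_lit 7) (C.cons (nat_lit 394) (C.miq (nat_lit 1936359760) (nat_lit 1634503144425245836416450851)) (C.cons (nat_lit 138) (C.node (nat_lit 1) (nat_lit 3) (nat_lit 8) (C.cons (nat_lit 778) (C.miq (nat_lit 1662298256) (nat_lit 31453045638549676334712705)) (C.cons (nat_lit 266) (C.node (nat_lit 1) (nat_lit 3) (nat_lit 9) C.nil) C.nil))) C.nil))) C.nil)) (C.cons (nat_lit 98) (C.node (nat_lit 1) (nat_lit 2) (nat_lit 4) (C.cons (nat_lit 150) (C.node (nat_lit 1) (nat_lit 4) (nat_lit 5) (C.cons (nat_lit 58) (C.miq (nat_lit 932266149) (nat_lit 776131446146822127487157361))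 (C.cons (nat_lit 50) (C.node (nat_lit 1) (nat_lit 2) (nat_lit 6) (C.cons (nat_lit 326) (C.node (nat_lit 1) (nat_lit 8) (nat_lit 9) (C.cons (nat_lit 778) (C.miq (nat_lit 893489320) (nat_lit 60460642703281350350342017)) (C.cons (nat_lit 770) (C.node (nat_lit 1) (nat_lit 3) (nat_lit 4) (C.cons (nat_lit 90) (C.miq (nat_lit 832070666) (nat_lit 930897821126587148495029361)) (C.cons (nat_lit 26) (C.node (nat_lit 1) (nat_lit 4) (nat_lit 6) C.nil) C.nil))) C.nil))) (C.cons (nat_lit 70) (C.node (nat_lit 1) (nat_lit 2) (nat_lit 8) C.nil) C.nil))) C.nil))) (C.cons (nat_lit 86) (C.miq (nat_lit 2166989920) (nat_lit 626259011121098397722150001)) (C.cons (nat_lit 22) (C.node (nat_lit 1) (nat_lit 2) (nat_lit 6) (C.cons (nat_lit 326) (C.node (nat_lit 1) (nat_lit 2) (nat_lit 7) (C.cons (nat_lit 134) (C.node (nat_lit 1) (nat_lit 8) (nat_lit 9) (C.cons (nat_lit 778) (C.miq (nat_lit 950374720) (nat_lit 1586120876602859345419502099)) C.nil))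 C.nil)) (C.cons (nat_lit 70) (C.node (nat_lit 1) (nat_lit 2) (nat_lit 7) (C.cons (nat_lit 390) (C.node (nat_lit 1) (nat_lit 3) (nat_lit 8) (C.cons (nat_lit 778) (C.miq (nat_lit 950374720) (nat_lit 1586120876602859345419502099)) C.nil)) C.nil)) C.nil))) C.nil)))) C.nil))) C.nil))) C.nil)))) C.nil)))) (List.cons (C.node (nat_lit 1) (nat_lit 3) (nat_lit 9) (C.cons (nat_lit 778) (C.miq (nat_lit 950374720) (nat_lit 1586120876602859345419502099)) (C.cons (nat_lit 650) (C.miq (nat_lit 1243022739) (nat_lit 1395103218507169136833593897)) (C.cons (nat_lit 522) (C.node (nat_lit 1) (nat_lit 6) (nat_lit 9) (C.cons (nat_lit 834) (C.node (nat_lit 1) (nat_lit 2) (nat_lit 8) (C.cons (nat_lit 390) (C.node (nat_lit 1) (nat_lit 2) (nat_lit 9) (C.cons (nat_lit 518) (C.node (nat_lit 1) (nat_lit 3) (nat_lit 8) (C.cons (nat_lit 266) (C.node (nat_lit 1) (nat_lit 7) (nat_lit 9) (C.cons (nat_lit 642) (C.node (nat_lit 3) (nat_lit 7) (nat_lit 9) (C.cons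 (nat_lit 652) (C.miq (nat_lit 1394674040) (nat_lit 1256079294737783624464467841)) (C.cons (nat_lit 648) (C.node (nat_lit 1) (nat_lit 2) (nat_lit 4) (C.cons (nat_lit 86) (C.miq (nat_lit 2166989920) (nat_lit 626259011121098397722150001)) (C.cons (nat_lit 54) (C.miq (nat_lit 2435360064) (nat_lit 471516506286986919566181489)) (C.cons (nat_lit 22) (C.node (nat_lit 1) (nat_lit 2) (nat_lit 5) (C.cons (nat_lit 102) (C.miq (nat_lit 1919582544) (nat_lit 1320182431324316333906133283)) (C.cons (nat_lit 38) (C.node (nat_lit 1) (nat_lit 2) (nat_lit 6) C.nil) C.nil))) C.nil)))) C.nil))) C.nil)) C.nil)) C.nil))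
  (C.cons (nat_lit 262) (C.node (nat_lit 1) (nat_lit 2) (nat_lit 9) (C.cons (nat_lit 646) (C.node (nat_lit 1) (nat_lit 2) (nat_lit 4) (C.cons (nat_lit 86) (C.miq (nat_lit 1377085328) (nat_lit 103988594769264963700852609)) (C.cons (nat_lit 54) (C.miq (nat_lit 2435360064) (nat_lit 316774001376314385203790961)) (C.cons (nat_lit 22) (C.miq (nat_lit 1377085328) (nat_lit 26617342313928696519657345)) C.nil)))) (C.cons (nat_lit 518) (C.node (nat_lit 1) (nat_lit 7) (nat_lit 9) (C.cons (nat_lit 642) (C.node (nat_lit 1) (nat_lit 2) (nat_lit 7) (C.cons (nat_lit 150) (C.node (nat_lit 1) (nat_lit 4) (nat_lit 5) (C.cons (nat_lit 58) (C.miq (nat_lit 2031290964) (nat_lit 631062100731399880121648241)) (C.cons (nat_lit 50) (C.node (nat_lit 2) (nat_lit 4) (nat_lit 6) (C.cons (nat_lit 92) (C.miq (nat_lit 1217798307) (nat_lit 1008245830737032332270109711)) (C.cons (nat_lit 84) (C.node (nat_lit 1) (nat_lit 2) (nat_lit 5) (C.cons (nat_lit 38)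 (C.node (nat_lit 1) (nat_lit 2) (nat_lit 6) C.nil) C.nil)) C.nil))) C.nil))) (C.cons (nat_lit 134) (C.node (nat_lit 1) (nat_lit 2) (nat_lit 4) (C.cons (nat_lit 86) (C.miq (nat_lit 2166989920) (nat_lit 626259011121098397722150001)) (C.cons (nat_lit 54) (C.miq (nat_lit 2435360064) (nat_lit 316774001376314385203790961)) (C.cons (nat_lit 22) (C.node (nat_lit 1) (nat_lit 2) (nat_lit 5) (C.cons (nat_lit 102) (C.node (nat_lit 1) (nat_lit 3) (nat_lit 6) C.nil) C.nil)) C.nil)))) C.nil))) C.nil)) C.nil))) C.nil))) (C.cons (nat_lit 578) (C.node (nat_lit 1) (nat_lit 8) (nat_lit 9) (C.cons (nat_lit 774) (C.miq (nat_lit 682004800) (nat_lit 1624807019338235642970702355)) (C.cons (nat_lit 770) (C.node (nat_lit 6) (nat_lit 8) (nat_lit 9) (C.cons (nat_lit 864) (C.miq (nat_lit 964798032) (nat_lit 930892047722972522169435249)) (C.cons (nat_lit 848) (C.miq (nat_lit 562629190) (nat_lit 930883598954029365498741873)) (C.cons (nat_lit 832) (C.node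 (nat_lit 1) (nat_lit 2) (nat_lit 9) (C.cons (nat_lit 646) (C.node (nat_lit 1) (nat_lit 2) (nat_lit 4) (C.cons (nat_lit 86) (C.miq (nat_lit 1377085328) (nat_lit 103988594769264963700852609)) (C.cons (nat_lit 54) (C.miq (nat_lit 2299660884) (nat_lit 780971189759879037769352305)) (C.cons (nat_lit 22) (C.miq (nat_lit 1377085328) (nat_lit 26617342313928696519657345)) C.nil)))) (C.cons (nat_lit 518) (C.node (nat_lit 1) (nat_lit 7) (nat_lit 9) (C.cons (nat_lit 642) (C.node (nat_lit 3) (nat_lit 7) (nat_lit 9) (C.cons (nat_lit 652) (C.node (nat_lit 9) (nat_lit 6) (nat_lit 5) (C.cons (nat_lit 736) (C.miq (nat_lit 1730828592) (nat_lit 1436224847857359650556936745)) (C.cons (nat_lit 608) (C.node (nat_lit 9) (nat_lit 7) (nat_lit 6) (C.cons (nat_lit 720) (C.miq (nat_lit 1764378416) (nat_lit 1861766736357205520426139801)) (C.cons (nat_lit 704) (C.node (nat_lit 9) (nat_lit 6) (nat_lit 4) C.nil) C.nil))) C.nil))) (C.cons (nat_lit 648)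 (C.node (nat_lit 2) (nat_lit 7) (nat_lit 9) (C.cons (nat_lit 660) (C.node (nat_lit 4) (nat_lit 6) (nat_lit 9) (C.cons (nat_lit 592) (C.node (nat_lit 2) (nat_lit 3) (nat_lit 9) (C.cons (nat_lit 524) (C.node (nat_lit 2) (nat_lit 5) (nat_lit 9) C.nil) C.nil)) C.nil)) (C.cons (nat_lit 644) (C.node (nat_lit 4) (nat_lit 6) (nat_lit 9) (C.cons (nat_lit 720) (C.node (nat_lit 5) (nat_lit 7) (nat_lit 9) C.nil) (C.cons (nat_lit 592) (C.node (nat_lit 4) (nat_lit 7) (nat_lit 9) (C.cons (nat_lit 688) (C.miq (nat_lit 663856448) (nat_lit 776149542694079741690053745)) C.nil)) C.nil))) C.nil))) C.nil))) C.nil)) C.nil))) C.nil)))) C.nil))) C.nil))) C.nil)))) (List.cons (C.node (nat_lit 1) (nat_lit 2) (nat_lit 4) (C.cons (nat_lit 86) (C.miq (nat_lit 311969290) (nat_lit 933314676640510741370176625)) (C.cons (nat_lit 54) (C.miq (nat_lit 427966629) (nat_lit 933291729016145166540735601)) (C.cons (nat_lit 22) (C.node (nat_lit 2) (nat_lit 4) (nat_lit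 6) (C.cons (nat_lit 92) (C.miq (nat_lit 847864842) (nat_lit 933320395132861135521383537)) (C.cons (nat_lit 84) (C.node (nat_lit 1) (nat_lit 4) (nat_lit 6) (C.cons (nat_lit 90) (C.node (nat_lit 1) (nat_lit 3) (nat_lit 8) (C.cons (nat_lit 778)
  (C.miq (nat_lit 1446054552) (nat_lit 108808692087886030081492865)) (C.cons (nat_lit 394) (C.miq (nat_lit 2202693984) (nat_lit 1266989695262398498586296515)) (C.cons (nat_lit 266) (C.node (nat_lit 1) (nat_lit 3) (nat_lit 9) (C.cons (nat_lit 650) (C.miq (nat_lit 1936363840) (nat_lit 1943988154318648430459683347)) (C.cons (nat_lit 522) (C.node (nat_lit 1) (nat_lit 7) (nat_lit 8) (C.cons (nat_lit 390) (C.miq (nat_lit 1411451512) (nat_lit 26601736354089373570303873)) (C.cons (nat_lit 386) (C.node (nat_lit 3) (nat_lit 7) (nat_lit 9) (C.cons (nat_lit 652) (C.miq (nat_lit 1512637555) (nat_lit 1861755963576043772693971097)) (C.cons (nat_lit 648) (C.node (nat_lit 1) (nat_lit 3) (nat_lit 5)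 (C.cons (nat_lit 170) (C.node (nat_lit 1) (nat_lit 4) (nat_lit 5) C.nil) C.nil)) C.nil))) C.nil))) C.nil))) C.nil)))) (C.cons (nat_lit 82) (C.node (nat_lit 1) (nat_lit 3) (nat_lit 4) (C.cons (nat_lit 58) (C.miq (nat_lit 1167594250) (nat_lit 967164599581838938654966799)) (C.cons (nat_lit 26) (C.node (nat_lit 1) (nat_lit 4) (nat_lit 5) (C.cons (nat_lit 178) (C.node (nat_lit 1) (nat_lit 3) (nat_lit 5) (C.cons (nat_lit 106) (C.miq (nat_lit 1703489802) (nat_lit 967170318086011462216647695)) (C.cons (nat_lit 42) (C.node (nat_lit 1) (nat_lit 3) (nat_lit 6) (C.cons (nat_lit 330) (C.node (nat_lit 1) (nat_lit 8) (nat_lit 9) (C.cons (nat_lit 770) (C.node (nat_lit 3) (nat_lit 4) (nat_lit 6) (C.cons (nat_lit 88) (C.node (nat_lit 1) (nat_lit 2) (nat_lit 6) C.nil) C.nil)) C.nil)) (C.cons (nat_lit 74) (C.node (nat_lit 3) (nat_lit 4) (nat_lit 6) (C.cons (nat_lit 344) (C.node (nat_lit 3) (nat_lit 4) (nat_lit 5) C.nil) (C.cons (nat_lit 88)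 (C.node (nat_lit 1) (nat_lit 2) (nat_lit 6) C.nil) C.nil))) C.nil))) C.nil))) (C.cons (nat_lit 50) (C.node (nat_lit 1) (nat_lit 4) (nat_lit 7) (C.cons (nat_lit 146) (C.node (nat_lit 4) (nat_lit 6) (nat_lit 3) (C.cons (nat_lit 344) (C.node (nat_lit 4) (nat_lit 8) (nat_lit 9) (C.cons (nat_lit 784) (C.node (nat_lit 6) (nat_lit 1) (nat_lit 3) C.nil) C.nil)) (C.cons (nat_lit 88) (C.node (nat_lit 5) (nat_lit 1) (nat_lit 3) (C.cons (nat_lit 170) (C.node (nat_lit 6) (nat_lit 1) (nat_lit 3) C.nil) C.nil)) C.nil))) C.nil)) C.nil))) C.nil))) C.nil))) C.nil))) C.nil)))) (List.cons (C.node (nat_lit 3) (nat_lit 6) (nat_lit 10) (C.cons (nat_lit 1352) (C.node (nat_lit 1) (nat_lit 2) (nat_lit 9) (C.cons (nat_lit 774) (C.miq (nat_lit 682004800) (nat_lit 1634478425895152676368351763)) (C.cons (nat_lit 646) (C.miq (nat_lit 1244202609) (nat_lit 1900441183975342490832470211)) (C.cons (nat_lit 518) (C.node (nat_lit 2) (nat_lit 8) (nat_lit 9)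 (C.cons (nat_lit 780) (C.node (nat_lit 1) (nat_lit 3) (nat_lit 8) (C.cons (nat_lit 394) (C.miq (nat_lit 1647380871) (nat_lit 1256077523858234397451487105)) (C.cons (nat_lit 266) (C.node (nat_lit 1) (nat_lit 7) (nat_lit 8) (C.cons (nat_lit 390) (C.miq (nat_lit 1512572529) (nat_lit 1552266120707751598207926467)) (C.cons (nat_lit 386) (C.node (nat_lit 3) (nat_lit 4) (nat_lit 8) (C.cons (nat_lit 312) (C.miq (nat_lit 1698235522) (nat_lit 668546696125235147462934805)) (C.cons (nat_lit 280) (C.node (nat_lit 1) (nat_lit 3) (nat_lit 4) (C.cons (nat_lit 90) (C.miq (nat_lit 2553350756) (nat_lit 321584063779313737306604657)) (C.cons (nat_lit 58) (C.miq (nat_lit 2551384645) (nat_lit 321584469607683126986409073)) (C.cons (nat_lit 26) (C.node (nat_lit 1) (nat_lit 4) (nat_lit 6) (C.cons (nat_lit 86) (C.miq (nat_lit 1914283584) (nat_lit 626259011099143349535442033)) (C.cons (nat_lit 82) (C.node (nat_lit 2) (nat_lit 4) (nat_lit 6) (C.cons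 (nat_lit 92) (C.miq (nat_lit 2473230912) (nat_lit 1634503144533895117297221909)) (C.cons (nat_lit 84) (C.node (nat_lit 2) (nat_lit 3) (nat_lit 4) (C.cons (nat_lit 60) (C.miq (nat_lit 2032339540) (nat_lit 942964962191974215785907313)) (C.cons (nat_lit 28) (C.node (nat_lit 3) (nat_lit 4) (nat_lit 5) C.nil) C.nil))) C.nil))) C.nil))) C.nil)))) C.nil))) C.nil))) C.nil))) (C.cons (nat_lit 772) (C.node (nat_lit 1) (nat_lit 2) (nat_lit 8) (C.cons (nat_lit 390)
  (C.miq (nat_lit 1512572529) (nat_lit 1552266120707751598207926467)) (C.cons (nat_lit 326) (C.node (nat_lit 1) (nat_lit 8) (nat_lit 9) (C.cons (nat_lit 778) (C.miq (nat_lit 950374720) (nat_lit 1586120876602859345419502099)) (C.cons (nat_lit 770) (C.node (nat_lit 1) (nat_lit 4) (nat_lit 6) (C.cons (nat_lit 90) (C.miq (nat_lit 832070666) (nat_lit 930897821126587148495029361)) (C.cons (nat_lit 82) (C.node (nat_lit 1) (nat_lit 3) (nat_lit 4) (C.cons (nat_lit 58) (C.miq (nat_lit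 964776100) (nat_lit 930873951170084652515984497)) (C.cons (nat_lit 26) (C.node (nat_lit 2) (nat_lit 5) (nat_lit 6) (C.cons (nat_lit 108) (C.miq (nat_lit 1882630482) (nat_lit 88274090400353660791686692)) (C.cons (nat_lit 100) (C.node (nat_lit 4) (nat_lit 6) (nat_lit 7) (C.cons (nat_lit 720) (C.miq (nat_lit 641836944) (nat_lit 99151083718894740548290433)) (C.cons (nat_lit 464) (C.miq (nat_lit 880936801) (nat_lit 334891618243412529940660419)) (C.cons (nat_lit 208) (C.node (nat_lit 4) (nat_lit 6) (nat_lit 8) (C.cons (nat_lit 848) (C.miq (nat_lit 910272656) (nat_lit 99151083756049987229910913)) (C.cons (nat_lit 336) (C.node (nat_lit 6) (nat_lit 7) (nat_lit 8) (C.cons (nat_lit 480) (C.miq (nat_lit 308611704) (nat_lit 120897950256446107644069761)) (C.cons (nat_lit 448) (C.node (nat_lit 5) (nat_lit 6) (nat_lit 8) (C.cons (nat_lit 864) (C.miq (nat_lit 962725249) (nat_lit 702405067518851507722518819)) C.nil)) C.nil))) C.nil))) C.nil))))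 C.nil))) C.nil))) C.nil))) C.nil))) (C.cons (nat_lit 262) (C.node (nat_lit 1) (nat_lit 2) (nat_lit 6) (C.cons (nat_lit 102) (C.miq (nat_lit 1914218064) (nat_lit 316774001277798349514409073)) (C.cons (nat_lit 86) (C.miq (nat_lit 1914283584) (nat_lit 626259011099143349535442033)) (C.cons (nat_lit 70) (C.node (nat_lit 1) (nat_lit 4) (nat_lit 6) (C.cons (nat_lit 90) (C.node (nat_lit 1) (nat_lit 3) (nat_lit 8) (C.cons (nat_lit 778) (C.miq (nat_lit 1410534025) (nat_lit 108813525134832010544154497)) (C.cons (nat_lit 394) (C.miq (nat_lit 2553350756) (nat_lit 476326568689986271668995185)) (C.cons (nat_lit 266) (C.miq (nat_lit 2553350756) (nat_lit 321584063779313737306604657)) C.nil)))) (C.cons (nat_lit 82) (C.node (nat_lit 1) (nat_lit 3) (nat_lit 4) (C.cons (nat_lit 58) (C.miq (nat_lit 2588084245) (nat_lit 1266964460546323141606637859)) (C.cons (nat_lit 26) (C.node (nat_lit 1) (nat_lit 6) (nat_lit 8) (C.cons (nat_lit 834) (C.node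 (nat_lit 3) (nat_lit 8) (nat_lit 9) (C.cons (nat_lit 792) (C.miq (nat_lit 1938162833) (nat_lit 1634471305277142090670801427)) (C.cons (nat_lit 776) (C.node (nat_lit 4) (nat_lit 8) (nat_lit 9) (C.cons (nat_lit 816) (C.miq (nat_lit 1393856680) (nat_lit 31447124008804630213560193)) (C.cons (nat_lit 784) (C.node (nat_lit 5) (nat_lit 8) (nat_lit 9) C.nil) C.nil))) C.nil))) (C.cons (nat_lit 322) (C.node (nat_lit 1) (nat_lit 8) (nat_lit 9) (C.cons (nat_lit 778) (C.miq (nat_lit 1662298256) (nat_lit 31453045638549676334712705)) (C.cons (nat_lit 770) (C.node (nat_lit 1) (nat_lit 3) (nat_lit 8) (C.cons (nat_lit 394) (C.node (nat_lit 1) (nat_lit 3) (nat_lit 5) (C.cons (nat_lit 106) (C.miq (nat_lit 1936359760) (nat_lit 1634503144425245836416450851)) C.nil)) C.nil)) C.nil))) C.nil))) C.nil))) C.nil))) C.nil)))) C.nil)))) C.nil))) C.nil)))) C.nil)) (List.cons (C.node (nat_lit 1) (nat_lit 3) (nat_lit 4) (C.cons (nat_lit 90) (C.node (nat_lit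 1) (nat_lit 3) (nat_lit 8) (C.cons (nat_lit 778) (C.miq (nat_lit 1410534025) (nat_lit 108813525134832010544154497)) (C.cons (nat_lit 394) (C.miq (nat_lit 2202693984) (nat_lit 1266989695262398498586296515)) (C.cons (nat_lit 266) (C.node (nat_lit 1) (nat_lit 3) (nat_lit 9) (C.cons (nat_lit 650) (C.miq (nat_lit 2471129440) (nat_lit 1266989695334456092624224451)) (C.cons (nat_lit 522) (C.node (nat_lit 3) (nat_lit 6) (nat_lit 10) (C.cons (nat_lit 1352) (C.miq (nat_lit 2199496256) (nat_lit 631094714414756580339942513)) (C.cons (nat_lit 1224) (C.miq (nat_lit 1931060800) (nat_lit 631094714378727783320978545)) (C.cons (nat_lit 1096) (C.node (nat_lit 3) (nat_lit 8) (nat_lit 10) (C.cons (nat_lit 1320)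
  (C.miq (nat_lit 2474706340) (nat_lit 321584063394255831806641265)) (C.cons (nat_lit 1288) (C.node (nat_lit 6) (nat_lit 8) (nat_lit 10) (C.cons (nat_lit 1348) (C.miq (nat_lit 443107360) (nat_lit 1934291106969870128726212885)) (C.cons (nat_lit 1344) (C.node (nat_lit 4) (nat_lit 6) (nat_lit 8) (C.cons (nat_lit 848) (C.miq (nat_lit 558238345) (nat_lit 108814041616081526698542977)) (C.cons (nat_lit 464) (C.miq (nat_lit 2218423824) (nat_lit 1266989695282101746949619907)) (C.cons (nat_lit 336) (C.node (nat_lit 4) (nat_lit 6) (nat_lit 9) (C.cons (nat_lit 720) (C.miq (nat_lit 1983550480) (nat_lit 1325018134695661541373444627)) (C.cons (nat_lit 592) (C.node (nat_lit 1) (nat_lit 3) (nat_lit 5) (C.cons (nat_lit 170) (C.node (nat_lit 3) (nat_lit 5) (nat_lit 10) (C.cons (nat_lit 1064) (C.node (nat_lit 3) (nat_lit 7) (nat_lit 10) C.nil) C.nil)) (C.cons (nat_lit 42) (C.node (nat_lit 1) (nat_lit 3) (nat_lit 7) (C.cons (nat_lit 138) (C.node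 (nat_lit 3) (nat_lit 5) (nat_lit 10) (C.cons (nat_lit 1192) (C.node (nat_lit 2) (nat_lit 5) (nat_lit 10) (C.cons (nat_lit 1316) (C.node (nat_lit 1) (nat_lit 4) (nat_lit 5) (C.cons (nat_lit 182) (C.miq (nat_lit 874868874) (nat_lit 220046487731865232810968961)) (C.cons (nat_lit 178) (C.miq (nat_lit 2222268474) (nat_lit 215213071884574220624593935)) (C.cons (nat_lit 54) (C.miq (nat_lit 874868874) (nat_lit 65303982821192698448578433)) C.nil)))) C.nil)) C.nil)) C.nil)) C.nil))) C.nil))) C.nil)))) C.nil))) C.nil))) C.nil)))) C.nil))) C.nil)))) (C.cons (nat_lit 58) (C.miq (nat_lit 2588084245) (nat_lit 1266964460546323141606637859)) (C.cons (nat_lit 26) (C.node (nat_lit 1) (nat_lit 4) (nat_lit 6) (C.cons (nat_lit 86) (C.miq (nat_lit 2585135170) (nat_lit 1317739861478971630813577493)) (C.cons (nat_lit 82) (C.node (nat_lit 2) (nat_lit 6) (nat_lit 10) (C.cons (nat_lit 1348) (C.miq (nat_lit 443107360) (nat_lit 1934291106969870128726212885))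 (C.cons (nat_lit 1220) (C.node (nat_lit 2) (nat_lit 4) (nat_lit 6) (C.cons (nat_lit 92) (C.node (nat_lit 2) (nat_lit 3) (nat_lit 9) (C.cons (nat_lit 780) (C.miq (nat_lit 1788035202) (nat_lit 1866583162905487526228394261)) (C.cons (nat_lit 652) (C.miq (nat_lit 1445137017) (nat_lit 111231376774060933877860225)) (C.cons (nat_lit 524) (C.node (nat_lit 3) (nat_lit 7) (nat_lit 10) (C.cons (nat_lit 1192) (C.miq (nat_lit 1938990342) (nat_lit 633499634841356160593101937)) (C.cons (nat_lit 1160) (C.node (nat_lit 5) (nat_lit 7) (nat_lit 10) (C.cons (nat_lit 1184) (C.node (nat_lit 3) (nat_lit 5) (nat_lit 10) (C.cons (nat_lit 1320) (C.miq (nat_lit 977885200) (nat_lit 1876263073462929784686444835)) (C.cons (nat_lit 1064) (C.node (nat_lit 2) (nat_lit 5) (nat_lit 10) (C.cons (nat_lit 1316) (C.node (nat_lit 3) (nat_lit 6) (nat_lit 10) (C.cons (nat_lit 1352) (C.node (nat_lit 2) (nat_lit 3) (nat_lit 8) (C.cons (nat_lit 396) (C.miq (nat_lit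 1379182704) (nat_lit 111242149722980462001457025)) (C.cons (nat_lit 268) (C.node (nat_lit 2) (nat_lit 5) (nat_lit 6) (C.cons (nat_lit 102) (C.node (nat_lit 2) (nat_lit 6) (nat_lit 8) (C.cons (nat_lit 324) (C.node (nat_lit 1) (nat_lit 2) (nat_lit 4) (C.cons (nat_lit 150) (C.miq (nat_lit 2267089509) (nat_lit 181344241485438495813403761)) (C.cons (nat_lit 22) (C.node (nat_lit 2) (nat_lit 3) (nat_lit 5) (C.cons (nat_lit 172) (C.node (nat_lit 2) (nat_lit 4) (nat_lit 5) C.nil) C.nil)) C.nil))) C.nil)) (C.cons (nat_lit 100) (C.miq (nat_lit 354814119) (nat_lit 120896179158472161312900993)) C.nil))) C.nil))) C.nil)) C.nil)) C.nil))) C.nil)) C.nil))) C.nil)))) (C.cons (nat_lit 84) (C.node (nat_lit 2) (nat_lit 5) (nat_lit 10) (C.cons (nat_lit 1316) (C.node (nat_lit 1) (nat_lit 2) (nat_lit 6) (C.cons (nat_lit 326) (C.miq (nat_lit 1382124144) (nat_lit 394115185567320869657839489)) (C.cons (nat_lit 102) (C.node (nat_lit 1) (nat_lit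 2) (nat_lit 4) (C.cons (nat_lit 150) (C.miq (nat_lit 2267089509) (nat_lit 181344241485438495813403761)) (C.cons (nat_lit 22) (C.node (nat_lit 1) (nat_lit 2) (nat_lit 7) (C.cons (nat_lit 646)
  (C.miq (nat_lit 1645520784) (nat_lit 26617342322935895774398337)) (C.cons (nat_lit 390) (C.node (nat_lit 1) (nat_lit 2) (nat_lit 9) (C.cons (nat_lit 518) (C.node (nat_lit 4) (nat_lit 6) (nat_lit 7) (C.cons (nat_lit 720) (C.miq (nat_lit 641836944) (nat_lit 99151083718894740548290433)) (C.cons (nat_lit 464) (C.miq (nat_lit 1450707489) (nat_lit 560946948623755674948862991)) (C.cons (nat_lit 208) (C.node (nat_lit 4) (nat_lit 7) (nat_lit 8) (C.cons (nat_lit 432) (C.miq (nat_lit 847710804) (nat_lit 471483892294006808704451697)) (C.cons (nat_lit 400) (C.node (nat_lit 3) (nat_lit 5) (nat_lit 10) (C.cons (nat_lit 1192) (C.miq (nat_lit 1481089539) (nat_lit 483592316735209790735189007)) (C.cons (nat_lit 1064) (C.node (nat_lit 3) (nat_lit 7)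 (nat_lit 10) (C.cons (nat_lit 1160) (C.node (nat_lit 5) (nat_lit 7) (nat_lit 10) (C.cons (nat_lit 1184) (C.node (nat_lit 1) (nat_lit 3) (nat_lit 5) (C.cons (nat_lit 170) (C.node (nat_lit 1) (nat_lit 4) (nat_lit 5) C.nil) C.nil)) C.nil)) C.nil)) C.nil))) C.nil))) C.nil)))) C.nil)) (C.cons (nat_lit 134) (C.miq (nat_lit 2267089509) (nat_lit 162001428371604429018104945)) C.nil)))) C.nil))) (C.cons (nat_lit 70) (C.miq (nat_lit 1382124144) (nat_lit 84630175745975800933058433)) C.nil)))) (C.cons (nat_lit 1060) (C.node (nat_lit 2) (nat_lit 8) (nat_lit 10) (C.cons (nat_lit 1284) (C.node (nat_lit 5) (nat_lit 8) (nat_lit 10) (C.cons (nat_lit 1320) (C.miq (nat_lit 977885200) (nat_lit 1876263073462929784686444835)) (C.cons (nat_lit 1312) (C.node (nat_lit 3) (nat_lit 5) (nat_lit 10) (C.cons (nat_lit 1192) (C.node (nat_lit 3) (nat_lit 6) (nat_lit 10) (C.cons (nat_lit 1352) (C.node (nat_lit 3) (nat_lit 6) (nat_lit 7) (C.cons (nat_lit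 712) (C.miq (nat_lit 658074192) (nat_lit 860765901467327388864545905)) (C.cons (nat_lit 200) (C.node (nat_lit 2) (nat_lit 3) (nat_lit 7) (C.cons (nat_lit 652) (C.node (nat_lit 1) (nat_lit 3) (nat_lit 5) (C.cons (nat_lit 106) (C.miq (nat_lit 592869642) (nat_lit 128168642090444678178604929)) (C.cons (nat_lit 42) (C.node (nat_lit 1) (nat_lit 7) (nat_lit 9) (C.cons (nat_lit 674) (C.miq (nat_lit 1702431282) (nat_lit 814826720298609057165214735)) (C.cons (nat_lit 642) (C.node (nat_lit 2) (nat_lit 3) (nat_lit 4) (C.cons (nat_lit 60) (C.miq (nat_lit 1647683472) (nat_lit 72556523468291830184478593)) (C.cons (nat_lit 28) (C.node (nat_lit 2) (nat_lit 3) (nat_lit 6) (C.cons (nat_lit 108) (C.node (nat_lit 2) (nat_lit 3) (nat_lit 8) C.nil) (C.cons (nat_lit 76) (C.miq (nat_lit 1445137017) (nat_lit 91888563660226867082561409)) C.nil))) C.nil))) C.nil))) C.nil))) (C.cons (nat_lit 396) (C.miq (nat_lit 2457011877) (nat_lit 478744825780408115972801649))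 (C.cons (nat_lit 140) (C.miq (nat_lit 2457011877) (nat_lit 169259815959063047248020593)) C.nil)))) C.nil))) C.nil)) C.nil)) C.nil))) C.nil)) C.nil))) C.nil))) (C.cons (nat_lit 1092) (C.node (nat_lit 2) (nat_lit 7) (nat_lit 10) (C.cons (nat_lit 1188) (C.node (nat_lit 2) (nat_lit 8) (nat_lit 10) (C.cons (nat_lit 1284) (C.node (nat_lit 3) (nat_lit 5) (nat_lit 10) (C.cons (nat_lit 1320) (C.miq (nat_lit 977885200) (nat_lit 1876263073462929784686444835)) (C.cons (nat_lit 1064) (C.node (nat_lit 5) (nat_lit 8) (nat_lit 10) C.nil) C.nil))) C.nil)) (C.cons (nat_lit 1156) (C.node (nat_lit 2) (nat_lit 5) (nat_lit 10) (C.cons (nat_lit 1316) (C.node (nat_lit 3) (nat_lit 5) (nat_lit 10) (C.cons (nat_lit 1192) (C.node (nat_lit 6) (nat_lit 7) (nat_lit 10) (C.cons (nat_lit 1216) (C.node (nat_lit 3) (nat_lit 6) (nat_lit 10) (C.cons (nat_lit 1352) (C.node (nat_lit 3) (nat_lit 5) (nat_lit 8) (C.cons (nat_lit 312) (C.miq (nat_lit 624200304)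 (nat_lit 377189965838298909016393601)) (C.cons (nat_lit 296) (C.node (nat_lit 3) (nat_lit 4) (nat_lit 5) (C.cons (nat_lit 60) (C.node (nat_lit 1) (nat_lit 4) (nat_lit 5) (C.cons (nat_lit 178) (C.miq (nat_lit 2270431794) (nat_lit 215193906180230960509617167)) (C.cons (nat_lit 50) (C.node (nat_lit 2) (nat_lit 3) (nat_lit 6) (C.cons (nat_lit 204) (C.miq (nat_lit 2184684864) (nat_lit 246656303767171274748003441)) (C.cons (nat_lit 76)
  (C.node (nat_lit 2) (nat_lit 3) (nat_lit 7) (C.cons (nat_lit 652) (C.miq (nat_lit 1395042192) (nat_lit 91899336574244597633714049)) (C.cons (nat_lit 396) (C.node (nat_lit 1) (nat_lit 7) (nat_lit 8) (C.cons (nat_lit 386) (C.node (nat_lit 2) (nat_lit 3) (nat_lit 9) (C.cons (nat_lit 524) (C.node (nat_lit 1) (nat_lit 3) (nat_lit 7) (C.cons (nat_lit 650) (C.miq (nat_lit 321165184) (nat_lit 72545344580941325941409665)) (C.cons (nat_lit 138) (C.node (nat_lit 1) (nat_lit 3) (nat_lit 5) C.nil) C.nil)))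 C.nil)) C.nil)) (C.cons (nat_lit 140) (C.miq (nat_lit 2184684864) (nat_lit 169285051311835007566808177)) C.nil)))) C.nil))) C.nil))) (C.cons (nat_lit 56) (C.miq (nat_lit 624200304) (nat_lit 67704956016953840291612545)) C.nil))) C.nil))) C.nil)) C.nil)) (C.cons (nat_lit 1064) (C.node (nat_lit 5) (nat_lit 7) (nat_lit 10) C.nil) C.nil))) (C.cons (nat_lit 1060) (C.node (nat_lit 2) (nat_lit 8) (nat_lit 10) (C.cons (nat_lit 1284) (C.node (nat_lit 5) (nat_lit 7) (nat_lit 10) (C.cons (nat_lit 1184) (C.node (nat_lit 3) (nat_lit 5) (nat_lit 10) (C.cons (nat_lit 1064) (C.node (nat_lit 5) (nat_lit 8) (nat_lit 10) C.nil) C.nil)) C.nil)) C.nil)) C.nil))) C.nil))) C.nil)))) C.nil))) C.nil)))) List.nil))))))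

theorem ok11_54 : okL par11 (nat_lit 60) c11_54 (nat_lit 54) = true := by decide +kernel

noncomputable def c11_60 : List C :=
  (List.cons (C.node (nat_lit 3) (nat_lit 4) (nat_lit 10) (C.cons (nat_lit 1560) (C.node (nat_lit 6) (nat_lit 9) (nat_lit 10) (C.cons (nat_lit 1600) (C.node (nat_lit 1) (nat_lit 3) (nat_lit 4) (C.cons (nat_lit 90) (C.miq (nat_lit 1396771240) (nat_lit 108808691923504437558118273)) (C.cons (nat_lit 58) (C.node (nat_lit 1) (nat_lit 4) (nat_lit 6) (C.cons (nat_lit 86) (C.miq (nat_lit 2450720325) (nat_lit 1256084127792609804741641329)) (C.cons (nat_lit 82) (C.node (nat_lit 3) (nat_lit 5) (nat_lit 10) (C.cons (nat_lit 1320) (C.node (nat_lit 2) (nat_lit 8) (nat_lit 10) (C.cons (nat_lit 1348) (C.miq (nat_lit 443107360) (nat_lit 1934291106969870128726212885)) (C.cons (nat_lit 1284) (C.node (nat_lit 6) (nat_lit 8) (nat_lit 10) (C.cons (nat_lit 1344) (C.node (nat_lit 3) (nat_lit 6) (nat_lit 10) (C.cons (nat_lit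 1224) (C.miq (nat_lit 1632858250) (nat_lit 70140276407283583004706689)) (C.cons (nat_lit 1096) (C.node (nat_lit 3) (nat_lit 7) (nat_lit 10) (C.cons (nat_lit 1160) (C.node (nat_lit 4) (nat_lit 5) (nat_lit 8) (C.cons (nat_lit 816) (C.node (nat_lit 4) (nat_lit 6) (nat_lit 9) (C.cons (nat_lit 720) (C.miq (nat_lit 1415678320) (nat_lit 99137285440611715190556545)) (C.cons (nat_lit 592) (C.node (nat_lit 1) (nat_lit 3) (nat_lit 7) (C.cons (nat_lit 650) (C.miq (nat_lit 1680935575) (nat_lit 70121294972786614207121281)) (C.cons (nat_lit 394) (C.miq (nat_lit 1697712775) (nat_lit 70121294972785583398193025)) (C.cons (nat_lit 138) (C.node (nat_lit 2) (nat_lit 8) (nat_lit 9) (C.cons (nat_lit 780) (C.miq (nat_lit 327748180) (nat_lit 942971934812972066255406193)) (C.cons (nat_lit 774) (C.miq (nat_lit 641831080) (nat_lit 99146195151854488450631553)) (C.cons (nat_lit 772) (C.node (nat_lit 1) (nat_lit 2) (nat_lit 4) (C.cons (nat_lit 150)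 (C.node (nat_lit 1) (nat_lit 7) (nat_lit 8) (C.cons (nat_lit 386) (C.node (nat_lit 2) (nat_lit 4) (nat_lit 5) (C.cons (nat_lit 52) (C.node (nat_lit 2) (nat_lit 4) (nat_lit 9) (C.cons (nat_lit 532) (C.node (nat_lit 2) (nat_lit 4) (nat_lit 10) (C.cons (nat_lit 1044) (C.node (nat_lit 4) (nat_lit 5) (nat_lit 7) (C.cons (nat_lit 176) (C.node (nat_lit 4) (nat_lit 7) (nat_lit 9) (C.cons (nat_lit 656) (C.node (nat_lit 4) (nat_lit 7) (nat_lit 10) (C.cons (nat_lit 1168) (C.node (nat_lit 1) (nat_lit 2) (nat_lit 9) (C.cons (nat_lit 550) (C.miq (nat_lit 2423411521) (nat_lit 160797279873642539750129722)) (C.cons (nat_lit 518) (C.node (nat_lit 2) (nat_lit 3) (nat_lit 5) (C.cons (nat_lit 236) (C.miq (nat_lit 2452686420) (nat_lit 1256083721964240827376600177)) (C.cons (nat_lit 172) (C.miq (nat_lit 1464414736) (nat_lit 793065538765083840263422991)) (C.cons (nat_lit 108) (C.miq (nat_lit 2452686420) (nat_lit 1256083721964240277620786289))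 (C.cons (nat_lit 44) (C.node (nat_lit 1) (nat_lit 2) (nat_lit 5) (C.cons (nat_lit 102) (C.node (nat_lit 1) (nat_lit 2) (nat_lit 8) (C.cons (nat_lit 262) (C.node (nat_lit 1) (nat_lit 5) (nat_lit 7) (C.cons (nat_lit 674) (C.node (nat_lit 2) (nat_lit 7) (nat_lit 9) C.nil) C.nil)) C.nil)) (C.cons (nat_lit 38) (C.node (nat_lit 1) (nat_lit 2) (nat_lit 6) (C.cons (nat_lit 326) (C.node (nat_lit 1) (nat_lit 3) (nat_lit 6) (C.cons (nat_lit 586) (C.miq (nat_lit 2299745290) (nat_lit 708454880226035854677574769)) C.nil)) (C.cons (nat_lit 70) (C.node (nat_lit 1) (nat_lit 3) (nat_lit 8) (C.cons (nat_lit 266) (C.miq (nat_lit 2436382885) (nat_lit 321589320710123182656849009)) C.nil)) C.nil))) C.nil))) C.nil))))) C.nil))) C.nil)) C.nil)) C.nil)) C.nil)) C.nil)) C.nil)) C.nil)) (C.cons (nat_lit 22) (C.node (nat_lit 1) (nat_lit 4) (nat_lit 7) (C.cons (nat_lit 146) (C.node (nat_lit 1) (nat_lit 7) (nat_lit 8) (C.cons (nat_lit 390) (C.node (nat_lit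 1) (nat_lit 2) (nat_lit 6) (C.cons (nat_lit 102) (C.miq (nat_lit 1518493809) (nat_lit 1552262634273124677874745539)) (C.cons (nat_lit 70) (C.node (nat_lit 2) (nat_lit 3) (nat_lit 9) (C.cons (nat_lit 652) (C.miq (nat_lit 1394674040) (nat_lit 1256079294737783624464467841)) (C.cons (nat_lit 524) (C.node (nat_lit 2) (nat_lit 4) (nat_lit 10) (C.cons (nat_lit 1172)
  (C.miq (nat_lit 1411451512) (nat_lit 26601736354089373570303873)) (C.cons (nat_lit 1044) (C.node (nat_lit 4) (nat_lit 7) (nat_lit 10) (C.cons (nat_lit 1168) (C.node (nat_lit 2) (nat_lit 6) (nat_lit 10) (C.cons (nat_lit 1220) (C.miq (nat_lit 1445005944) (nat_lit 84630175695591780114630529)) (C.cons (nat_lit 1092) (C.node (nat_lit 6) (nat_lit 7) (nat_lit 10) (C.cons (nat_lit 1216) (C.node (nat_lit 1) (nat_lit 2) (nat_lit 5) (C.cons (nat_lit 38) (C.node (nat_lit 1) (nat_lit 2) (nat_lit 9) C.nil) C.nil)) C.nil)) C.nil))) C.nil)) C.nil))) C.nil))) C.nil))) (C.cons (nat_lit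 386) (C.node (nat_lit 1) (nat_lit 2) (nat_lit 8) (C.cons (nat_lit 326) (C.node (nat_lit 1) (nat_lit 3) (nat_lit 6) (C.cons (nat_lit 586) (C.miq (nat_lit 2299745290) (nat_lit 708454880226035854677574769)) (C.cons (nat_lit 74) (C.node (nat_lit 1) (nat_lit 3) (nat_lit 8) (C.cons (nat_lit 778) (C.node (nat_lit 6) (nat_lit 8) (nat_lit 9) (C.cons (nat_lit 832) (C.node (nat_lit 3) (nat_lit 4) (nat_lit 8) (C.cons (nat_lit 280) (C.node (nat_lit 4) (nat_lit 6) (nat_lit 8) (C.cons (nat_lit 336) (C.node (nat_lit 4) (nat_lit 7) (nat_lit 8) C.nil) C.nil)) C.nil)) C.nil)) (C.cons (nat_lit 266) (C.miq (nat_lit 2436382885) (nat_lit 321589320710123182656849009)) C.nil))) C.nil))) (C.cons (nat_lit 262) (C.node (nat_lit 1) (nat_lit 2) (nat_lit 6) (C.cons (nat_lit 102) (C.node (nat_lit 1) (nat_lit 2) (nat_lit 7) (C.cons (nat_lit 646) (C.miq (nat_lit 1901761120) (nat_lit 1279078953529476536004051525)) (C.cons (nat_lit 134) (C.node (nat_lit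 1) (nat_lit 2) (nat_lit 9) (C.cons (nat_lit 518) (C.node (nat_lit 2) (nat_lit 6) (nat_lit 10) (C.cons (nat_lit 1220) (C.miq (nat_lit 1914218064) (nat_lit 316774001277798349514409073)) (C.cons (nat_lit 1092) (C.node (nat_lit 6) (nat_lit 7) (nat_lit 10) (C.cons (nat_lit 1216) (C.node (nat_lit 1) (nat_lit 5) (nat_lit 7) (C.cons (nat_lit 674) (C.node (nat_lit 5) (nat_lit 6) (nat_lit 9) (C.cons (nat_lit 608) (C.node (nat_lit 2) (nat_lit 4) (nat_lit 5) (C.cons (nat_lit 52) (C.node (nat_lit 2) (nat_lit 3) (nat_lit 4) C.nil) C.nil)) C.nil)) C.nil)) C.nil)) C.nil))) C.nil)) C.nil))) (C.cons (nat_lit 70) (C.node (nat_lit 1) (nat_lit 5) (nat_lit 6) (C.cons (nat_lit 610) (C.node (nat_lit 1) (nat_lit 3) (nat_lit 6) (C.cons (nat_lit 330) (C.miq (nat_lit 2436382885) (nat_lit 398960573165459449838044273)) (C.cons (nat_lit 74) (C.node (nat_lit 1) (nat_lit 6) (nat_lit 8) C.nil) C.nil))) (C.cons (nat_lit 98) (C.node (nat_lit 2) (nat_lit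 3) (nat_lit 4) (C.cons (nat_lit 92) (C.node (nat_lit 3) (nat_lit 4) (nat_lit 8) (C.cons (nat_lit 280) (C.node (nat_lit 2) (nat_lit 3) (nat_lit 8) (C.cons (nat_lit 396) (C.miq (nat_lit 1936360000) (nat_lit 1325018134604463657515548949)) (C.cons (nat_lit 268) (C.node (nat_lit 2) (nat_lit 3) (nat_lit 9) (C.cons (nat_lit 652) (C.miq (nat_lit 1934266976) (nat_lit 1885959714977709188617142853)) (C.cons (nat_lit 524) (C.node (nat_lit 3) (nat_lit 7) (nat_lit 9) (C.cons (nat_lit 712) (C.miq (nat_lit 1934136864) (nat_lit 338534665887872343539515973)) (C.cons (nat_lit 648) (C.node (nat_lit 2) (nat_lit 6) (nat_lit 10) (C.cons (nat_lit 1220) (C.node (nat_lit 2) (nat_lit 4) (nat_lit 10) C.nil) C.nil)) C.nil))) C.nil))) C.nil))) C.nil)) (C.cons (nat_lit 28) (C.node (nat_lit 2) (nat_lit 3) (nat_lit 9) (C.cons (nat_lit 652) (C.node (nat_lit 2) (nat_lit 4) (nat_lit 9) (C.cons (nat_lit 532) (C.node (nat_lit 4) (nat_lit 7) (nat_lit 9) (C.cons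 (nat_lit 656) (C.node (nat_lit 2) (nat_lit 3) (nat_lit 5) (C.cons (nat_lit 108) (C.miq (nat_lit 2452686420) (nat_lit 1256083721964240277620786289)) (C.cons (nat_lit 44) (C.node (nat_lit 2) (nat_lit 4) (nat_lit 6) (C.cons (nat_lit 212) (C.miq (nat_lit 1400113446) (nat_lit 184986624504708533943796293)) (C.cons (nat_lit 84) (C.node (nat_lit 2) (nat_lit 4) (nat_lit 10) (C.cons (nat_lit 1172) (C.miq (nat_lit 1110812560) (nat_lit 53213710340946964507068289)) C.nil)) C.nil))) C.nil))) C.nil)) C.nil)) (C.cons (nat_lit 524) (C.node (nat_lit 2) (nat_lit 4) (nat_lit 5) (C.cons (nat_lit 180)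
  (C.node (nat_lit 2) (nat_lit 4) (nat_lit 6) (C.cons (nat_lit 84) (C.node (nat_lit 2) (nat_lit 4) (nat_lit 10) C.nil) C.nil)) (C.cons (nat_lit 52) (C.node (nat_lit 4) (nat_lit 5) (nat_lit 7) (C.cons (nat_lit 176) (C.node (nat_lit 2) (nat_lit 4) (nat_lit 6) (C.cons (nat_lit 212) (C.node (nat_lit 2) (nat_lit 4) (nat_lit 10) C.nil) (C.cons (nat_lit 84) (C.node (nat_lit 2) (nat_lit 4) (nat_lit 10) (C.cons (nat_lit 1172) (C.node (nat_lit 2) (nat_lit 6) (nat_lit 10) C.nil) C.nil)) C.nil))) C.nil)) C.nil))) C.nil))) C.nil))) C.nil))) C.nil))) C.nil))) C.nil))) C.nil)) C.nil))) C.nil)))) C.nil)))) C.nil))) (C.cons (nat_lit 432) (C.miq (nat_lit 2488836880) (nat_lit 522291390707986612317520911)) (C.cons (nat_lit 304) (C.miq (nat_lit 2488836880) (nat_lit 367548885797314077955130383)) C.nil)))) C.nil)) C.nil))) C.nil)) C.nil))) (C.cons (nat_lit 1192) (C.miq (nat_lit 2235175060) (nat_lit 1441063520936357244689711635)) (C.cons (nat_lit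 1064) (C.miq (nat_lit 2235175060) (nat_lit 1286321016025684710327321107)) C.nil)))) C.nil))) (C.cons (nat_lit 26) (C.miq (nat_lit 1396771240) (nat_lit 31437439468168170376923009)) C.nil)))) C.nil)) (C.cons (nat_lit 1048) (C.node (nat_lit 3) (nat_lit 9) (nat_lit 10) (C.cons (nat_lit 1608) (C.node (nat_lit 3) (nat_lit 8) (nat_lit 10) (C.cons (nat_lit 1320) (C.miq (nat_lit 2477000065) (nat_lit 1266964054332895846426870051)) (C.cons (nat_lit 1288) (C.node (nat_lit 6) (nat_lit 8) (nat_lit 10) (C.cons (nat_lit 1348) (C.miq (nat_lit 443107360) (nat_lit 1943962513526787162123862293)) (C.cons (nat_lit 1344) (C.node (nat_lit 2) (nat_lit 6) (nat_lit 10) (C.cons (nat_lit 1220) (C.node (nat_lit 4) (nat_lit 7) (nat_lit 10) (C.cons (nat_lit 1168) (C.node (nat_lit 2) (nat_lit 4) (nat_lit 10) (C.cons (nat_lit 1556) (C.miq (nat_lit 1248957024) (nat_lit 1395110191494365511017497157)) (C.cons (nat_lit 1044) (C.node (nat_lit 4) (nat_lit 9)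 (nat_lit 10) (C.cons (nat_lit 1552) (C.node (nat_lit 3) (nat_lit 5) (nat_lit 10) (C.cons (nat_lit 1192) (C.miq (nat_lit 1912972947) (nat_lit 44752244188079108248897096)) (C.cons (nat_lit 1064) (C.node (nat_lit 3) (nat_lit 7) (nat_lit 10) (C.cons (nat_lit 1160) (C.node (nat_lit 5) (nat_lit 7) (nat_lit 10) (C.cons (nat_lit 1184) (C.node (nat_lit 2) (nat_lit 4) (nat_lit 6) (C.cons (nat_lit 92) (C.miq (nat_lit 2318666082) (nat_lit 1266959369244960129212482117)) (C.cons (nat_lit 86) (C.miq (nat_lit 2586052449) (nat_lit 1262128351439494668292063427)) (C.cons (nat_lit 84) (C.node (nat_lit 4) (nat_lit 6) (nat_lit 9) (C.cons (nat_lit 848) (C.miq (nat_lit 910338432) (nat_lit 101568935467336839600605057)) (C.cons (nat_lit 720) (C.miq (nat_lit 308546169) (nat_lit 101559564361189731156887425)) (C.cons (nat_lit 592) (C.node (nat_lit 6) (nat_lit 7) (nat_lit 9) (C.cons (nat_lit 736) (C.miq (nat_lit 1470338592) (nat_lit 1402364152009613426828444229))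 (C.cons (nat_lit 704) (C.node (nat_lit 1) (nat_lit 4) (nat_lit 6) (C.cons (nat_lit 90) (C.node (nat_lit 4) (nat_lit 6) (nat_lit 7) (C.cons (nat_lit 464) (C.miq (nat_lit 2218423824) (nat_lit 1266989695282101746949619907)) (C.cons (nat_lit 208) (C.node (nat_lit 4) (nat_lit 6) (nat_lit 8) (C.cons (nat_lit 336) (C.node (nat_lit 1) (nat_lit 3) (nat_lit 8) (C.cons (nat_lit 778) (C.miq (nat_lit 1446054552) (nat_lit 108808692087886030081492865)) (C.cons (nat_lit 394) (C.miq (nat_lit 2202693984) (nat_lit 1266989695262398498586296515)) (C.cons (nat_lit 266) (C.node (nat_lit 1) (nat_lit 3) (nat_lit 9) (C.cons (nat_lit 650) (C.miq (nat_lit 1936363840) (nat_lit 1943988154318648430459683347)) (C.cons (nat_lit 522) (C.node (nat_lit 3) (nat_lit 7) (nat_lit 9) (C.cons (nat_lit 652) (C.miq (nat_lit 1450773027) (nat_lit 851093978378213988798039055)) (C.cons (nat_lit 648) (C.node (nat_lit 1) (nat_lit 3) (nat_lit 5) (C.cons (nat_lit 170) (C.node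 (nat_lit 1) (nat_lit 4) (nat_lit 7) C.nil) C.nil)) C.nil))) C.nil))) C.nil)))) C.nil)) C.nil))) (C.cons (nat_lit 82) (C.node (nat_lit 1) (nat_lit 3) (nat_lit 4) (C.cons (nat_lit 58)
  (C.miq (nat_lit 2588084245) (nat_lit 1266964460546323141606637859)) (C.cons (nat_lit 26) (C.node (nat_lit 2) (nat_lit 8) (nat_lit 10) (C.cons (nat_lit 1316) (C.node (nat_lit 2) (nat_lit 9) (nat_lit 10) (C.cons (nat_lit 1540) (C.node (nat_lit 5) (nat_lit 9) (nat_lit 10) (C.cons (nat_lit 1568) (C.node (nat_lit 1) (nat_lit 2) (nat_lit 6) (C.cons (nat_lit 326) (C.miq (nat_lit 1382124144) (nat_lit 394115185567320869657839489)) (C.cons (nat_lit 102) (C.node (nat_lit 1) (nat_lit 2) (nat_lit 4) (C.cons (nat_lit 150) (C.miq (nat_lit 2267089509) (nat_lit 181344241485438495813403761)) (C.cons (nat_lit 22) (C.node (nat_lit 4) (nat_lit 6) (nat_lit 7) (C.cons (nat_lit 464) (C.miq (nat_lit 1450713354) (nat_lit 560965856245100224102597647)) C.nil)) C.nil)))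 (C.cons (nat_lit 70) (C.miq (nat_lit 1382124144) (nat_lit 84630175745975800933058433)) C.nil)))) C.nil)) C.nil)) (C.cons (nat_lit 1284) (C.node (nat_lit 5) (nat_lit 8) (nat_lit 10) (C.cons (nat_lit 1312) (C.node (nat_lit 2) (nat_lit 5) (nat_lit 10) (C.cons (nat_lit 1572) (C.node (nat_lit 1) (nat_lit 2) (nat_lit 9) (C.cons (nat_lit 774) (C.miq (nat_lit 641831080) (nat_lit 99146195151854488450631553)) (C.cons (nat_lit 646) (C.miq (nat_lit 342003879) (nat_lit 101561685593768563136792449)) (C.cons (nat_lit 518) (C.node (nat_lit 2) (nat_lit 8) (nat_lit 9) (C.cons (nat_lit 780) (C.miq (nat_lit 843487242) (nat_lit 101579431431651047249086337)) (C.cons (nat_lit 772) (C.node (nat_lit 5) (nat_lit 8) (nat_lit 9) (C.cons (nat_lit 864) (C.miq (nat_lit 2258721072) (nat_lit 1317734511625672536162763305)) (C.cons (nat_lit 816) (C.miq (nat_lit 1393856680) (nat_lit 31447124008804630213560193)) (C.cons (nat_lit 800) (C.node (nat_lit 3) (nat_lit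 4) (nat_lit 6) (C.cons (nat_lit 344) (C.node (nat_lit 4) (nat_lit 6) (nat_lit 7) C.nil) (C.cons (nat_lit 88) (C.node (nat_lit 4) (nat_lit 6) (nat_lit 7) C.nil) C.nil))) C.nil)))) C.nil))) C.nil)))) C.nil)) C.nil)) C.nil))) C.nil))) C.nil))) C.nil))) C.nil)))) C.nil)))) C.nil)) C.nil)) C.nil))) C.nil)) C.nil))) C.nil)) (C.cons (nat_lit 1092) (C.node (nat_lit 6) (nat_lit 7) (nat_lit 10) (C.cons (nat_lit 1216) (C.node (nat_lit 2) (nat_lit 8) (nat_lit 10) (C.cons (nat_lit 1316) (C.node (nat_lit 5) (nat_lit 9) (nat_lit 10) (C.cons (nat_lit 1568) (C.node (nat_lit 2) (nat_lit 9) (nat_lit 10) (C.cons (nat_lit 1556) (C.miq (nat_lit 1519485504) (nat_lit 1859333278940252872532754709)) (C.cons (nat_lit 1540) (C.node (nat_lit 4) (nat_lit 9) (nat_lit 10) (C.cons (nat_lit 1552) (C.node (nat_lit 2) (nat_lit 8) (nat_lit 9) (C.cons (nat_lit 780) (C.miq (nat_lit 1245185682) (nat_lit 1557101565731794749445898821)) (C.cons (nat_lit 774) (C.miq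 (nat_lit 682004800) (nat_lit 1624807019338235642970702355)) (C.cons (nat_lit 772) (C.node (nat_lit 5) (nat_lit 8) (nat_lit 9) (C.cons (nat_lit 864) (C.miq (nat_lit 2258721072) (nat_lit 1317734511625672536162763305)) (C.cons (nat_lit 816) (C.miq (nat_lit 310970964) (nat_lit 933300528256055015677887601)) (C.cons (nat_lit 800) (C.node (nat_lit 2) (nat_lit 4) (nat_lit 10) (C.cons (nat_lit 1172) (C.node (nat_lit 3) (nat_lit 5) (nat_lit 10) (C.cons (nat_lit 1192) (C.miq (nat_lit 1393076034) (nat_lit 320389618448596562454316180)) (C.cons (nat_lit 1064) (C.node (nat_lit 3) (nat_lit 7) (nat_lit 10) (C.cons (nat_lit 1160) (C.node (nat_lit 5) (nat_lit 7) (nat_lit 10) (C.cons (nat_lit 1184) (C.ref (nat_lit 57) (nat_lit 11649936536080)) C.nil)) C.nil)) C.nil))) (C.cons (nat_lit 1044) (C.node (nat_lit 2) (nat_lit 7) (nat_lit 10) (C.cons (nat_lit 1156) (C.node (nat_lit 4) (nat_lit 7) (nat_lit 10) (C.cons (nat_lit 1168) (C.node (nat_lit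 3) (nat_lit 5) (nat_lit 10) (C.cons (nat_lit 1192) (C.node (nat_lit 2) (nat_lit 3) (nat_lit 5) (C.cons (nat_lit 108) (C.miq (nat_lit 1112737959) (nat_lit 130566810948197449233598337)) (C.cons (nat_lit 60) (C.node (nat_lit 1) (nat_lit 3) (nat_lit 5) (C.cons (nat_lit 106) (C.miq (nat_lit 1703489802) (nat_lit 967170318086011462216647695)) (C.cons (nat_lit 42) (C.node (nat_lit 1) (nat_lit 4) (nat_lit 5) (C.cons (nat_lit 178)
  (C.miq (nat_lit 2270431794) (nat_lit 215193906180230960509617167)) (C.cons (nat_lit 50) (C.node (nat_lit 2) (nat_lit 3) (nat_lit 9) (C.cons (nat_lit 652) (C.miq (nat_lit 1697778297) (nat_lit 72546267055226743895623553)) (C.cons (nat_lit 524) (C.node (nat_lit 3) (nat_lit 7) (nat_lit 9) (C.cons (nat_lit 650) (C.miq (nat_lit 1160841849) (nat_lit 50784679964959733273200513)) (C.cons (nat_lit 648) (C.node (nat_lit 1) (nat_lit 3) (nat_lit 7) (C.cons (nat_lit 394) (C.miq (nat_lit 595088394) (nat_lit 476341048860254052462691441))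 (C.cons (nat_lit 138) (C.node (nat_lit 1) (nat_lit 3) (nat_lit 9) (C.cons (nat_lit 778) (C.miq (nat_lit 1662364032) (nat_lit 50795858824441337152210817)) (C.cons (nat_lit 522) (C.node (nat_lit 4) (nat_lit 5) (nat_lit 9) (C.cons (nat_lit 688) (C.miq (nat_lit 893495184) (nat_lit 60465457483345170170840961)) C.nil)) C.nil))) C.nil))) C.nil))) C.nil))) C.nil))) C.nil))) (C.cons (nat_lit 44) (C.miq (nat_lit 1112737959) (nat_lit 53195558492861182052403073)) C.nil)))) C.nil)) C.nil)) C.nil)) C.nil))) C.nil)))) C.nil)))) C.nil)) C.nil))) C.nil)) (C.cons (nat_lit 1284) (C.node (nat_lit 5) (nat_lit 8) (nat_lit 10) (C.cons (nat_lit 1312) (C.node (nat_lit 3) (nat_lit 5) (nat_lit 10) (C.cons (nat_lit 1192) (C.node (nat_lit 1) (nat_lit 3) (nat_lit 5) (C.cons (nat_lit 106) (C.miq (nat_lit 2321615157) (nat_lit 1317734511923191586484781609)) (C.cons (nat_lit 58) (C.miq (nat_lit 2588084245) (nat_lit 1266964460546323141606637859)) (C.cons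 (nat_lit 42) (C.node (nat_lit 1) (nat_lit 3) (nat_lit 9) (C.cons (nat_lit 778) (C.miq (nat_lit 1662364032) (nat_lit 50795858824441337152210817)) (C.cons (nat_lit 650) (C.miq (nat_lit 1160841849) (nat_lit 50784679964959733273200513)) (C.cons (nat_lit 522) (C.node (nat_lit 3) (nat_lit 7) (nat_lit 9) (C.cons (nat_lit 652) (C.miq (nat_lit 665228112) (nat_lit 1470064514393222706183078441)) (C.cons (nat_lit 648) (C.node (nat_lit 1) (nat_lit 3) (nat_lit 4) (C.cons (nat_lit 90) (C.node (nat_lit 1) (nat_lit 3) (nat_lit 7) (C.cons (nat_lit 394) (C.miq (nat_lit 2202693984) (nat_lit 1266989695262398498586296515)) (C.cons (nat_lit 138) (C.node (nat_lit 1) (nat_lit 3) (nat_lit 8) (C.cons (nat_lit 266) (C.node (nat_lit 4) (nat_lit 6) (nat_lit 8) (C.cons (nat_lit 848) (C.miq (nat_lit 593758872) (nat_lit 108808433805884450434713473)) (C.cons (nat_lit 464) (C.miq (nat_lit 2218423824) (nat_lit 1266989695282101746949619907)) (C.cons (nat_lit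 336) (C.node (nat_lit 4) (nat_lit 6) (nat_lit 9) (C.cons (nat_lit 720) (C.miq (nat_lit 1983550480) (nat_lit 1943988154338351678823006739)) (C.cons (nat_lit 592) (C.node (nat_lit 4) (nat_lit 7) (nat_lit 8) (C.cons (nat_lit 432) (C.miq (nat_lit 676988019) (nat_lit 1586129841579456485491474585)) (C.cons (nat_lit 400) (C.node (nat_lit 6) (nat_lit 7) (nat_lit 9) (C.cons (nat_lit 736) (C.miq (nat_lit 595135062) (nat_lit 783394648961044150910714993)) (C.cons (nat_lit 704) (C.node (nat_lit 1) (nat_lit 7) (nat_lit 8) (C.cons (nat_lit 390) (C.node (nat_lit 1) (nat_lit 2) (nat_lit 4) (C.cons (nat_lit 54) (C.miq (nat_lit 1901756992) (nat_lit 1279078953457418735807693077)) (C.cons (nat_lit 22) (C.node (nat_lit 1) (nat_lit 2) (nat_lit 6) (C.cons (nat_lit 102) (C.miq (nat_lit 1919582544) (nat_lit 1320182431324316333906133283)) (C.cons (nat_lit 70) (C.node (nat_lit 1) (nat_lit 2) (nat_lit 5) (C.cons (nat_lit 38) (C.node (nat_lit 1) (nat_lit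 2) (nat_lit 9) C.nil) C.nil)) C.nil))) C.nil))) (C.cons (nat_lit 386) (C.node (nat_lit 2) (nat_lit 4) (nat_lit 6) (C.cons (nat_lit 212) (C.node (nat_lit 2) (nat_lit 7) (nat_lit 10) (C.cons (nat_lit 1156) (C.node (nat_lit 4) (nat_lit 7) (nat_lit 10) C.nil) C.nil)) (C.cons (nat_lit 84) (C.node (nat_lit 4) (nat_lit 6) (nat_lit 7) (C.cons (nat_lit 208) (C.node (nat_lit 3) (nat_lit 7) (nat_lit 8) C.nil) C.nil)) C.nil))) C.nil))) C.nil))) C.nil))) C.nil))) C.nil)))) C.nil)) C.nil))) (C.cons (nat_lit 26) (C.node (nat_lit 1) (nat_lit 4) (nat_lit 6) (C.cons (nat_lit 86) (C.miq (nat_lit 2585135170) (nat_lit 1317739861478971630813577493)) (C.cons (nat_lit 82)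
  (C.node (nat_lit 1) (nat_lit 3) (nat_lit 6) (C.cons (nat_lit 330) (C.node (nat_lit 1) (nat_lit 3) (nat_lit 7) (C.cons (nat_lit 138) (C.node (nat_lit 1) (nat_lit 8) (nat_lit 9) (C.cons (nat_lit 774) (C.miq (nat_lit 641831080) (nat_lit 99146195151854488450631553)) (C.cons (nat_lit 770) (C.node (nat_lit 3) (nat_lit 4) (nat_lit 6) (C.cons (nat_lit 92) (C.miq (nat_lit 2318666082) (nat_lit 1266959369244960129212482117)) (C.cons (nat_lit 88) (C.node (nat_lit 3) (nat_lit 5) (nat_lit 6) (C.cons (nat_lit 108) (C.miq (nat_lit 695427237) (nat_lit 783385923522184878020363377)) (C.cons (nat_lit 104) (C.node (nat_lit 6) (nat_lit 8) (nat_lit 9) (C.cons (nat_lit 864) (C.miq (nat_lit 325388952) (nat_lit 125733653534906290815371137)) (C.cons (nat_lit 848) (C.miq (nat_lit 593758872) (nat_lit 106390582166655192085301121)) (C.cons (nat_lit 832) (C.node (nat_lit 1) (nat_lit 2) (nat_lit 6) (C.cons (nat_lit 102) (C.node (nat_lit 1) (nat_lit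 6) (nat_lit 9) (C.cons (nat_lit 578) (C.node (nat_lit 1) (nat_lit 2) (nat_lit 4) C.nil) C.nil)) (C.cons (nat_lit 70) (C.node (nat_lit 1) (nat_lit 5) (nat_lit 6) (C.cons (nat_lit 610) (C.node (nat_lit 1) (nat_lit 2) (nat_lit 8) C.nil) C.nil)) C.nil))) C.nil)))) C.nil))) C.nil))) C.nil))) C.nil)) (C.cons (nat_lit 74) (C.node (nat_lit 1) (nat_lit 3) (nat_lit 7) (C.cons (nat_lit 394) (C.node (nat_lit 3) (nat_lit 4) (nat_lit 5) (C.cons (nat_lit 312) (C.miq (nat_lit 1681327489) (nat_lit 184969247836171025668243747)) (C.cons (nat_lit 60) (C.miq (nat_lit 678641829) (nat_lit 476317879810785136666477681)) (C.cons (nat_lit 56) (C.node (nat_lit 4) (nat_lit 5) (nat_lit 8) (C.cons (nat_lit 816) (C.miq (nat_lit 341026960) (nat_lit 67719012430869842507663233)) (C.cons (nat_lit 432) (C.miq (nat_lit 592710264) (nat_lit 67704955938985271761045377)) (C.cons (nat_lit 304) (C.node (nat_lit 4) (nat_lit 7) (nat_lit 8) (C.cons (nat_lit 464) (C.miq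 (nat_lit 1211787024) (nat_lit 1557117429742260266260693187)) (C.cons (nat_lit 400) (C.node (nat_lit 2) (nat_lit 3) (nat_lit 7) (C.cons (nat_lit 204) (C.node (nat_lit 2) (nat_lit 4) (nat_lit 6) (C.cons (nat_lit 84) (C.node (nat_lit 2) (nat_lit 3) (nat_lit 4) (C.cons (nat_lit 540) (C.miq (nat_lit 1131516512) (nat_lit 476326568301264398216004165)) (C.cons (nat_lit 28) (C.node (nat_lit 3) (nat_lit 4) (nat_lit 6) (C.cons (nat_lit 344) (C.node (nat_lit 3) (nat_lit 4) (nat_lit 9) C.nil) C.nil)) C.nil))) C.nil)) (C.cons (nat_lit 140) (C.node (nat_lit 3) (nat_lit 6) (nat_lit 7) (C.cons (nat_lit 200) (C.node (nat_lit 2) (nat_lit 5) (nat_lit 10) (C.cons (nat_lit 1572) (C.node (nat_lit 4) (nat_lit 9) (nat_lit 10) (C.cons (nat_lit 1552) (C.node (nat_lit 2) (nat_lit 4) (nat_lit 10) (C.cons (nat_lit 1172) (C.miq (nat_lit 607495945) (nat_lit 67728844509992435069814657)) C.nil)) C.nil)) (C.cons (nat_lit 1060) (C.node (nat_lit 5) (nat_lit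 9) (nat_lit 10) C.nil) C.nil))) C.nil)) C.nil))) C.nil))) C.nil)))) C.nil)))) (C.cons (nat_lit 138) (C.node (nat_lit 1) (nat_lit 3) (nat_lit 8) (C.cons (nat_lit 266) (C.node (nat_lit 1) (nat_lit 7) (nat_lit 8) (C.cons (nat_lit 390) (C.node (nat_lit 1) (nat_lit 2) (nat_lit 4) (C.cons (nat_lit 54) (C.miq (nat_lit 1901756992) (nat_lit 1279078953457418735807693077)) (C.cons (nat_lit 22) (C.node (nat_lit 1) (nat_lit 2) (nat_lit 6) (C.cons (nat_lit 102) (C.miq (nat_lit 1919582544) (nat_lit 1320182431324316333906133283)) (C.cons (nat_lit 70) (C.node (nat_lit 1) (nat_lit 2) (nat_lit 5) (C.cons (nat_lit 38) (C.node (nat_lit 1) (nat_lit 2) (nat_lit 9) C.nil) C.nil)) C.nil))) C.nil))) (C.cons (nat_lit 386) (C.node (nat_lit 2) (nat_lit 5) (nat_lit 10) (C.cons (nat_lit 1572) (C.node (nat_lit 4) (nat_lit 9) (nat_lit 10) (C.cons (nat_lit 1552) (C.node (nat_lit 2) (nat_lit 4) (nat_lit 10) (C.cons (nat_lit 1172) (C.miq (nat_lit 658088965)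 (nat_lit 783412929721852906495870065)) C.nil)) C.nil)) (C.cons (nat_lit 1060) (C.node (nat_lit 5) (nat_lit 9) (nat_lit 10) C.nil) C.nil))) C.nil))) C.nil)) C.nil))) C.nil))) C.nil))) C.nil))) C.nil))) C.nil)))) C.nil)))) (C.cons (nat_lit 1064)
  (C.node (nat_lit 3) (nat_lit 7) (nat_lit 10) (C.cons (nat_lit 1160) (C.node (nat_lit 4) (nat_lit 7) (nat_lit 10) (C.cons (nat_lit 1172) (C.node (nat_lit 4) (nat_lit 9) (nat_lit 10) (C.cons (nat_lit 1552) (C.node (nat_lit 5) (nat_lit 7) (nat_lit 10) (C.cons (nat_lit 1184) (C.node (nat_lit 2) (nat_lit 5) (nat_lit 10) (C.cons (nat_lit 1572) (C.node (nat_lit 2) (nat_lit 4) (nat_lit 9) (C.cons (nat_lit 540) (C.miq (nat_lit 1380162160) (nat_lit 652830144083856212824229761)) (C.cons (nat_lit 532) (C.node (nat_lit 2) (nat_lit 3) (nat_lit 4) (C.cons (nat_lit 92) (C.miq (nat_lit 1380162160) (nat_lit 111231376896502342555862913)) (C.cons (nat_lit 60) (C.node (nat_lit 1) (nat_lit 2) (nat_lit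 4) (C.cons (nat_lit 86) (C.miq (nat_lit 2585135170) (nat_lit 1317739861478971630813577493)) (C.cons (nat_lit 22) (C.node (nat_lit 2) (nat_lit 4) (nat_lit 6) (C.cons (nat_lit 84) (C.node (nat_lit 1) (nat_lit 4) (nat_lit 5) (C.cons (nat_lit 178) (C.miq (nat_lit 2504499760) (nat_lit 215224232529248510243570703)) (C.cons (nat_lit 50) (C.node (nat_lit 1) (nat_lit 4) (nat_lit 7) (C.cons (nat_lit 146) (C.node (nat_lit 2) (nat_lit 3) (nat_lit 9) (C.cons (nat_lit 780) (C.miq (nat_lit 1663347072) (nat_lit 72556523577504670885939073)) (C.cons (nat_lit 652) (C.node (nat_lit 1) (nat_lit 2) (nat_lit 9) (C.cons (nat_lit 774) (C.miq (nat_lit 1678903945) (nat_lit 26607085909871290531317633)) (C.cons (nat_lit 518) (C.node (nat_lit 2) (nat_lit 8) (nat_lit 9) (C.cons (nat_lit 772) (C.node (nat_lit 1) (nat_lit 3) (nat_lit 9) (C.cons (nat_lit 778) (C.miq (nat_lit 893489320) (nat_lit 60460642703281350350342017)) (C.cons (nat_lit 522) (C.node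 (nat_lit 1) (nat_lit 3) (nat_lit 4) C.nil) C.nil))) C.nil)) C.nil))) (C.cons (nat_lit 524) (C.miq (nat_lit 2032339540) (nat_lit 633479952370629147061126257)) C.nil)))) C.nil)) C.nil))) C.nil)) C.nil))) (C.cons (nat_lit 28) (C.miq (nat_lit 1380162160) (nat_lit 33860124441166075374667649)) C.nil)))) C.nil))) C.nil)) C.nil)) C.nil)) (C.cons (nat_lit 1168) (C.node (nat_lit 2) (nat_lit 4) (nat_lit 10) (C.cons (nat_lit 1556) (C.node (nat_lit 5) (nat_lit 9) (nat_lit 10) (C.cons (nat_lit 1568) (C.node (nat_lit 2) (nat_lit 5) (nat_lit 10) (C.cons (nat_lit 1188) (C.ref (nat_lit 56) (nat_lit 11649882875200)) C.nil)) C.nil)) (C.cons (nat_lit 1044) (C.node (nat_lit 4) (nat_lit 9) (nat_lit 10) C.nil) C.nil))) C.nil))) C.nil)) C.nil))) C.nil)) C.nil))) C.nil)) C.nil))) C.nil))) C.nil))) (C.cons (nat_lit 1544) (C.node (nat_lit 6) (nat_lit 9) (nat_lit 10) (C.cons (nat_lit 1600) (C.node (nat_lit 4) (nat_lit 7) (nat_lit 10) (C.cons (nat_lit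 1172) (C.node (nat_lit 4) (nat_lit 9) (nat_lit 10) (C.cons (nat_lit 1552) (C.node (nat_lit 2) (nat_lit 6) (nat_lit 10) (C.cons (nat_lit 1348) (C.miq (nat_lit 443107360) (nat_lit 1934291106969870128726212885)) (C.cons (nat_lit 1092) (C.node (nat_lit 1) (nat_lit 2) (nat_lit 4) (C.cons (nat_lit 86) (C.miq (nat_lit 2585135170) (nat_lit 1317739861478971630813577493)) (C.cons (nat_lit 54) (C.miq (nat_lit 1349654692) (nat_lit 160788130214843129483494674)) (C.cons (nat_lit 22) (C.node (nat_lit 1) (nat_lit 4) (nat_lit 6) (C.cons (nat_lit 90) (C.node (nat_lit 2) (nat_lit 4) (nat_lit 6) (C.cons (nat_lit 84) (C.node (nat_lit 6) (nat_lit 7) (nat_lit 10) (C.cons (nat_lit 1224) (C.miq (nat_lit 2587101025) (nat_lit 1266964054717953202171019459)) (C.cons (nat_lit 1216) (C.node (nat_lit 1) (nat_lit 3) (nat_lit 8) (C.cons (nat_lit 778) (C.miq (nat_lit 1410534025) (nat_lit 108813525134832010544154497)) (C.cons (nat_lit 394) (C.miq (nat_lit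 2202693984) (nat_lit 1266989695262398498586296515)) (C.cons (nat_lit 266) (C.node (nat_lit 1) (nat_lit 3) (nat_lit 9) (C.cons (nat_lit 650) (C.miq (nat_lit 916919305) (nat_lit 1470065787060374619058930195)) (C.cons (nat_lit 522) (C.node (nat_lit 1) (nat_lit 7) (nat_lit 8) (C.cons (nat_lit 390) (C.miq (nat_lit 1411451512) (nat_lit 26601736354089373570303873)) (C.cons (nat_lit 386) (C.node (nat_lit 3) (nat_lit 6) (nat_lit 10) (C.cons (nat_lit 1352)
  (C.miq (nat_lit 2199496256) (nat_lit 631094714414756580339942513)) (C.cons (nat_lit 1096) (C.node (nat_lit 6) (nat_lit 8) (nat_lit 10) (C.cons (nat_lit 1344) (C.node (nat_lit 3) (nat_lit 8) (nat_lit 10) (C.cons (nat_lit 1320) (C.miq (nat_lit 2474706340) (nat_lit 321584063394255831806641265)) (C.cons (nat_lit 1288) (C.node (nat_lit 4) (nat_lit 6) (nat_lit 7) (C.cons (nat_lit 720) (C.miq (nat_lit 1983550480) (nat_lit 1325018134695661541373444627)) (C.cons (nat_lit 464) (C.miq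 (nat_lit 2218423824) (nat_lit 1266989695282101746949619907)) (C.cons (nat_lit 208) (C.node (nat_lit 4) (nat_lit 6) (nat_lit 8) (C.cons (nat_lit 848) (C.miq (nat_lit 342010000) (nat_lit 101568935380079596840224641)) (C.cons (nat_lit 336) (C.node (nat_lit 4) (nat_lit 6) (nat_lit 9) (C.cons (nat_lit 592) (C.node (nat_lit 4) (nat_lit 7) (nat_lit 8) (C.cons (nat_lit 432) (C.miq (nat_lit 1361346727) (nat_lit 26604337106875365140465537)) (C.cons (nat_lit 400) (C.node (nat_lit 1) (nat_lit 4) (nat_lit 5) (C.cons (nat_lit 178) (C.node (nat_lit 4) (nat_lit 7) (nat_lit 9) C.nil) C.nil)) C.nil))) C.nil)) C.nil))) C.nil)))) C.nil))) C.nil)) C.nil))) C.nil))) C.nil))) C.nil)))) C.nil))) C.nil)) (C.cons (nat_lit 82) (C.node (nat_lit 1) (nat_lit 3) (nat_lit 4) (C.cons (nat_lit 58) (C.miq (nat_lit 2588084245) (nat_lit 1266964460546323141606637859)) (C.cons (nat_lit 26) (C.node (nat_lit 1) (nat_lit 4) (nat_lit 5) (C.cons (nat_lit 178) (C.node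 (nat_lit 1) (nat_lit 3) (nat_lit 5) (C.cons (nat_lit 106) (C.node (nat_lit 2) (nat_lit 4) (nat_lit 6) (C.cons (nat_lit 92) (C.miq (nat_lit 2167539044) (nat_lit 1256079036409617803560879217)) (C.cons (nat_lit 84) (C.node (nat_lit 1) (nat_lit 3) (nat_lit 9) (C.cons (nat_lit 778) (C.miq (nat_lit 1094035600) (nat_lit 128167111192520361570273153)) (C.cons (nat_lit 650) (C.miq (nat_lit 2838824726) (nat_lit 668556952735617963369562307)) (C.cons (nat_lit 522) (C.node (nat_lit 3) (nat_lit 7) (nat_lit 9) (C.cons (nat_lit 712) (C.miq (nat_lit 2301953889) (nat_lit 668541346790131871376867523)) (C.cons (nat_lit 652) (C.miq (nat_lit 2504470690) (nat_lit 215200823324200597300970511)) (C.cons (nat_lit 648) (C.node (nat_lit 2) (nat_lit 9) (nat_lit 10) (C.cons (nat_lit 1572) (C.miq (nat_lit 658088965) (nat_lit 783412929721852906495870065)) (C.cons (nat_lit 1540) (C.node (nat_lit 5) (nat_lit 9) (nat_lit 10) (C.cons (nat_lit 1568) (C.node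 (nat_lit 5) (nat_lit 6) (nat_lit 9) (C.cons (nat_lit 864) (C.miq (nat_lit 982913157) (nat_lit 1934283267030739244233523491)) (C.cons (nat_lit 736) (C.miq (nat_lit 2840790881) (nat_lit 668555144954699109200691395)) (C.cons (nat_lit 608) (C.node (nat_lit 1) (nat_lit 2) (nat_lit 5) (C.cons (nat_lit 550) (C.node (nat_lit 1) (nat_lit 7) (nat_lit 9) (C.cons (nat_lit 642) (C.node (nat_lit 2) (nat_lit 7) (nat_lit 9) (C.cons (nat_lit 644) (C.node (nat_lit 5) (nat_lit 7) (nat_lit 9) (C.cons (nat_lit 672) (C.node (nat_lit 1) (nat_lit 6) (nat_lit 9) (C.cons (nat_lit 834) (C.node (nat_lit 1) (nat_lit 2) (nat_lit 6) C.nil) C.nil)) C.nil)) C.nil)) C.nil)) (C.cons (nat_lit 38) (C.node (nat_lit 1) (nat_lit 5) (nat_lit 9) (C.cons (nat_lit 546) (C.node (nat_lit 1) (nat_lit 2) (nat_lit 6) (C.cons (nat_lit 326) (C.node (nat_lit 1) (nat_lit 6) (nat_lit 9) (C.cons (nat_lit 578) (C.node (nat_lit 6) (nat_lit 7) (nat_lit 10) C.nil) C.nil)) (C.cons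 (nat_lit 70) (C.node (nat_lit 1) (nat_lit 2) (nat_lit 8) (C.cons (nat_lit 774) (C.miq (nat_lit 1093052560) (nat_lit 84645781686393694102816641)) (C.cons (nat_lit 390) (C.miq (nat_lit 1108715392) (nat_lit 45960155423258064160229249)) (C.cons (nat_lit 262) (C.node (nat_lit 1) (nat_lit 2) (nat_lit 9) (C.cons (nat_lit 646) (C.node (nat_lit 2) (nat_lit 5) (nat_lit 10) C.nil) C.nil)) C.nil)))) C.nil))) C.nil)) C.nil))) C.nil)))) C.nil)) C.nil))) C.nil)))) C.nil)))) C.nil))) (C.cons (nat_lit 42) (C.node (nat_lit 2) (nat_lit 4) (nat_lit 6) (C.cons (nat_lit 92) (C.node (nat_lit 2) (nat_lit 9) (nat_lit 10) (C.cons (nat_lit 1572) (C.miq (nat_lit 1380162160) (nat_lit 111231376896502342555862913))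
  (C.cons (nat_lit 1540) (C.node (nat_lit 5) (nat_lit 9) (nat_lit 10) (C.cons (nat_lit 1568) (C.node (nat_lit 4) (nat_lit 7) (nat_lit 8) (C.cons (nat_lit 464) (C.miq (nat_lit 2250929200) (nat_lit 1320182431345145439226626201)) (C.cons (nat_lit 400) (C.node (nat_lit 4) (nat_lit 6) (nat_lit 7) (C.cons (nat_lit 720) (C.miq (nat_lit 1949996576) (nat_lit 1266989695354159349577482821)) (C.cons (nat_lit 208) (C.node (nat_lit 4) (nat_lit 7) (nat_lit 9) (C.cons (nat_lit 656) (C.node (nat_lit 4) (nat_lit 6) (nat_lit 8) (C.cons (nat_lit 848) (C.miq (nat_lit 342010000) (nat_lit 111240341936996630237874049)) (C.cons (nat_lit 336) (C.node (nat_lit 4) (nat_lit 6) (nat_lit 9) (C.cons (nat_lit 592) (C.node (nat_lit 6) (nat_lit 7) (nat_lit 10) (C.cons (nat_lit 1224) (C.miq (nat_lit 1984471840) (nat_lit 406234511930406765398918159)) (C.cons (nat_lit 1216) (C.node (nat_lit 2) (nat_lit 5) (nat_lit 10) (C.cons (nat_lit 1316) (C.node (nat_lit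 3) (nat_lit 6) (nat_lit 10) C.nil) C.nil)) C.nil))) C.nil)) C.nil))) C.nil)) C.nil))) C.nil))) C.nil)) C.nil))) (C.cons (nat_lit 84) (C.node (nat_lit 2) (nat_lit 8) (nat_lit 10) (C.cons (nat_lit 1316) (C.node (nat_lit 2) (nat_lit 9) (nat_lit 10) (C.cons (nat_lit 1540) (C.node (nat_lit 5) (nat_lit 9) (nat_lit 10) (C.cons (nat_lit 1568) (C.node (nat_lit 3) (nat_lit 5) (nat_lit 10) (C.cons (nat_lit 1192) (C.miq (nat_lit 2222268474) (nat_lit 215213071884574220624593935)) (C.cons (nat_lit 1064) (C.node (nat_lit 5) (nat_lit 7) (nat_lit 10) (C.cons (nat_lit 1184) (C.node (nat_lit 3) (nat_lit 7) (nat_lit 10) (C.cons (nat_lit 1224) (C.node (nat_lit 3) (nat_lit 8) (nat_lit 10) (C.cons (nat_lit 1288) (C.node (nat_lit 6) (nat_lit 8) (nat_lit 10) (C.cons (nat_lit 1344) (C.node (nat_lit 4) (nat_lit 7) (nat_lit 8) (C.cons (nat_lit 464) (C.miq (nat_lit 910337920) (nat_lit 101568935359248799276271489)) (C.cons (nat_lit 400) (C.node (nat_lit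 4) (nat_lit 6) (nat_lit 7) (C.cons (nat_lit 720) (C.miq (nat_lit 910272400) (nat_lit 99151083720020640455133057)) (C.cons (nat_lit 208) (C.node (nat_lit 4) (nat_lit 7) (nat_lit 9) (C.cons (nat_lit 656) (C.node (nat_lit 1) (nat_lit 3) (nat_lit 7) (C.cons (nat_lit 650) (C.miq (nat_lit 1662298000) (nat_lit 31453045602520329559934849)) (C.cons (nat_lit 394) (C.miq (nat_lit 1662363520) (nat_lit 50795858716353296827877249)) (C.cons (nat_lit 138) (C.node (nat_lit 6) (nat_lit 7) (nat_lit 9) C.nil) C.nil)))) C.nil)) C.nil))) C.nil))) C.nil)) C.nil)) (C.cons (nat_lit 1160) (C.node (nat_lit 6) (nat_lit 7) (nat_lit 10) (C.cons (nat_lit 1216) (C.node (nat_lit 3) (nat_lit 6) (nat_lit 10) (C.cons (nat_lit 1352) (C.node (nat_lit 1) (nat_lit 3) (nat_lit 6) (C.cons (nat_lit 586) (C.node (nat_lit 3) (nat_lit 4) (nat_lit 6) (C.cons (nat_lit 88) (C.node (nat_lit 1) (nat_lit 5) (nat_lit 6) (C.cons (nat_lit 102) (C.miq (nat_lit 2049312849) (nat_lit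 1320150592674988514586525987)) C.nil)) C.nil)) (C.cons (nat_lit 74) (C.node (nat_lit 3) (nat_lit 4) (nat_lit 6) (C.cons (nat_lit 600) (C.node (nat_lit 2) (nat_lit 3) (nat_lit 4) C.nil) (C.cons (nat_lit 88) (C.node (nat_lit 3) (nat_lit 6) (nat_lit 9) C.nil) C.nil))) C.nil))) C.nil)) C.nil)) C.nil))) C.nil)) C.nil))) C.nil)) C.nil)) (C.cons (nat_lit 1284) (C.node (nat_lit 5) (nat_lit 8) (nat_lit 10) (C.cons (nat_lit 1320) (C.miq (nat_lit 977885200) (nat_lit 1876263073462929784686444835)) (C.cons (nat_lit 1312) (C.node (nat_lit 2) (nat_lit 5) (nat_lit 10) (C.cons (nat_lit 1572) (C.node (nat_lit 2) (nat_lit 4) (nat_lit 5) (C.cons (nat_lit 60) (C.miq (nat_lit 2504499760) (nat_lit 215224232529248510243570703)) (C.cons (nat_lit 52) (C.miq (nat_lit 891554215) (nat_lit 62866965127466408532510593)) C.nil))) (C.cons (nat_lit 1060) (C.node (nat_lit 2) (nat_lit 9) (nat_lit 10) (C.cons (nat_lit 1540) (C.node (nat_lit 5) (nat_lit 9)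 (nat_lit 10) (C.cons (nat_lit 1568) (C.node (nat_lit 3) (nat_lit 5) (nat_lit 10) (C.cons (nat_lit 1192) (C.node (nat_lit 6) (nat_lit 7) (nat_lit 10) (C.cons (nat_lit 1216) (C.node (nat_lit 3) (nat_lit 6) (nat_lit 10) (C.cons (nat_lit 1352)
  (C.node (nat_lit 1) (nat_lit 3) (nat_lit 7) (C.cons (nat_lit 650) (C.miq (nat_lit 1393862544) (nat_lit 31453045593513130305193857)) (C.cons (nat_lit 394) (C.miq (nat_lit 1702077464) (nat_lit 1441064517298663444613563666)) (C.cons (nat_lit 138) (C.node (nat_lit 1) (nat_lit 3) (nat_lit 8) (C.cons (nat_lit 778) (C.miq (nat_lit 1662298256) (nat_lit 31453045638549676334712705)) (C.cons (nat_lit 266) (C.node (nat_lit 1) (nat_lit 7) (nat_lit 8) (C.cons (nat_lit 390) (C.miq (nat_lit 1411451512) (nat_lit 26601736354089373570303873)) (C.cons (nat_lit 386) (C.node (nat_lit 1) (nat_lit 2) (nat_lit 7) (C.cons (nat_lit 646) (C.node (nat_lit 1) (nat_lit 2) (nat_lit 5) C.nil) C.nil)) C.nil))) C.nil)))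 C.nil)))) C.nil)) C.nil)) (C.cons (nat_lit 1064) (C.node (nat_lit 5) (nat_lit 7) (nat_lit 10) C.nil) C.nil))) C.nil)) C.nil)) C.nil))) C.nil))) C.nil))) C.nil))) C.nil))) (C.cons (nat_lit 50) (C.node (nat_lit 1) (nat_lit 4) (nat_lit 7) (C.cons (nat_lit 146) (C.node (nat_lit 2) (nat_lit 4) (nat_lit 6) (C.cons (nat_lit 92) (C.node (nat_lit 2) (nat_lit 9) (nat_lit 10) (C.cons (nat_lit 1572) (C.miq (nat_lit 1380162160) (nat_lit 111231376896502342555862913)) (C.cons (nat_lit 1540) (C.node (nat_lit 5) (nat_lit 9) (nat_lit 10) (C.cons (nat_lit 1568) (C.node (nat_lit 6) (nat_lit 7) (nat_lit 10) (C.cons (nat_lit 1224) (C.miq (nat_lit 2321680180) (nat_lit 1320152105308002163632111769)) (C.cons (nat_lit 1216) (C.node (nat_lit 2) (nat_lit 3) (nat_lit 9) (C.cons (nat_lit 780) (C.miq (nat_lit 1788035202) (nat_lit 1866583162905487526228394261)) (C.cons (nat_lit 652) (C.miq (nat_lit 1411582585) (nat_lit 111231376774060727719430017)) (C.cons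 (nat_lit 524) (C.node (nat_lit 4) (nat_lit 5) (nat_lit 7) (C.cons (nat_lit 688) (C.miq (nat_lit 1394905255) (nat_lit 111233866920128720913303425)) (C.cons (nat_lit 432) (C.miq (nat_lit 609331072) (nat_lit 60465457477714571109271425)) (C.cons (nat_lit 176) (C.node (nat_lit 4) (nat_lit 7) (nat_lit 8) (C.cons (nat_lit 464) (C.miq (nat_lit 980820100) (nat_lit 1470055494044304609186414869)) (C.cons (nat_lit 400) (C.node (nat_lit 4) (nat_lit 6) (nat_lit 7) (C.cons (nat_lit 720) (C.miq (nat_lit 1949996576) (nat_lit 1266989695354159349577482821)) (C.cons (nat_lit 208) (C.node (nat_lit 4) (nat_lit 7) (nat_lit 9) (C.cons (nat_lit 656) (C.node (nat_lit 4) (nat_lit 6) (nat_lit 8) (C.cons (nat_lit 848) (C.miq (nat_lit 342010000) (nat_lit 111240341936996630237874049)) (C.cons (nat_lit 336) (C.node (nat_lit 4) (nat_lit 6) (nat_lit 9) C.nil) C.nil))) C.nil)) C.nil))) C.nil))) C.nil)))) C.nil)))) C.nil))) C.nil)) C.nil))) (C.cons (nat_lit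 84) (C.node (nat_lit 2) (nat_lit 8) (nat_lit 10) (C.cons (nat_lit 1316) (C.node (nat_lit 2) (nat_lit 9) (nat_lit 10) (C.cons (nat_lit 1540) (C.node (nat_lit 5) (nat_lit 9) (nat_lit 10) (C.cons (nat_lit 1568) (C.node (nat_lit 3) (nat_lit 5) (nat_lit 10) (C.cons (nat_lit 1192) (C.miq (nat_lit 1393076034) (nat_lit 320389618448596562454316180)) (C.cons (nat_lit 1064) (C.node (nat_lit 5) (nat_lit 7) (nat_lit 10) (C.cons (nat_lit 1184) (C.node (nat_lit 3) (nat_lit 7) (nat_lit 10) (C.cons (nat_lit 1224) (C.node (nat_lit 3) (nat_lit 8) (nat_lit 10) (C.cons (nat_lit 1288) (C.node (nat_lit 6) (nat_lit 8) (nat_lit 10) (C.cons (nat_lit 1344) (C.node (nat_lit 4) (nat_lit 6) (nat_lit 7) (C.cons (nat_lit 720) (C.miq (nat_lit 910272400) (nat_lit 99151083720020640455133057)) (C.cons (nat_lit 464) (C.miq (nat_lit 910337920) (nat_lit 101568935359248799276271489)) (C.cons (nat_lit 208) (C.node (nat_lit 1) (nat_lit 7) (nat_lit 8) (C.cons (nat_lit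 394) (C.miq (nat_lit 2208634720) (nat_lit 1286302440183397289305374915)) (C.cons (nat_lit 390) (C.miq (nat_lit 1411451512) (nat_lit 26601736354089373570303873)) C.nil))) C.nil)))) C.nil)) C.nil)) (C.cons (nat_lit 1160) (C.node (nat_lit 6) (nat_lit 7) (nat_lit 10) (C.cons (nat_lit 1216) (C.node (nat_lit 3) (nat_lit 6) (nat_lit 10) (C.cons (nat_lit 1352) (C.node (nat_lit 4) (nat_lit 6) (nat_lit 3) (C.cons (nat_lit 600) (C.node (nat_lit 4) (nat_lit 2) (nat_lit 3) (C.cons (nat_lit 60)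
  (C.miq (nat_lit 2052261924) (nat_lit 1286299894962527801890832661)) (C.cons (nat_lit 28) (C.node (nat_lit 6) (nat_lit 1) (nat_lit 3) (C.cons (nat_lit 106) (C.node (nat_lit 4) (nat_lit 5) (nat_lit 2) C.nil) C.nil)) C.nil))) (C.cons (nat_lit 88) (C.node (nat_lit 6) (nat_lit 1) (nat_lit 2) (C.cons (nat_lit 326) (C.node (nat_lit 4) (nat_lit 6) (nat_lit 7) C.nil) (C.cons (nat_lit 102) (C.miq (nat_lit 2049312849) (nat_lit 1320150592674988514586525987)) C.nil))) C.nil))) C.nil)) C.nil)) C.nil))) C.nil)) C.nil))) C.nil)) C.nil)) (C.cons (nat_lit 1284) (C.node (nat_lit 5) (nat_lit 8) (nat_lit 10) (C.cons (nat_lit 1320) (C.miq (nat_lit 977885200) (nat_lit 1876263073462929784686444835)) (C.cons (nat_lit 1312) (C.node (nat_lit 2) (nat_lit 5) (nat_lit 10) (C.cons (nat_lit 1572) (C.node (nat_lit 2) (nat_lit 4) (nat_lit 5) (C.cons (nat_lit 60) (C.node (nat_lit 2) (nat_lit 4) (nat_lit 9) (C.cons (nat_lit 532) (C.node (nat_lit 3) (nat_lit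 5) (nat_lit 10) (C.cons (nat_lit 1192) (C.miq (nat_lit 2320631604) (nat_lit 1900436498723024030050025625)) (C.cons (nat_lit 1064) (C.node (nat_lit 5) (nat_lit 7) (nat_lit 10) (C.cons (nat_lit 1184) (C.node (nat_lit 1) (nat_lit 2) (nat_lit 9) (C.cons (nat_lit 774) (C.miq (nat_lit 1678903945) (nat_lit 26607085909871290531317633)) (C.cons (nat_lit 646) (C.miq (nat_lit 932331685) (nat_lit 780967186318768791605216369)) C.nil))) C.nil)) C.nil))) C.nil)) (C.cons (nat_lit 52) (C.miq (nat_lit 891554215) (nat_lit 62866965127466408532510593)) C.nil))) (C.cons (nat_lit 1060) (C.node (nat_lit 2) (nat_lit 9) (nat_lit 10) (C.cons (nat_lit 1540) (C.node (nat_lit 5) (nat_lit 9) (nat_lit 10) (C.cons (nat_lit 1568) (C.node (nat_lit 3) (nat_lit 5) (nat_lit 10) (C.cons (nat_lit 1192) (C.node (nat_lit 6) (nat_lit 7) (nat_lit 10) (C.cons (nat_lit 1216) (C.node (nat_lit 3) (nat_lit 6) (nat_lit 10) (C.cons (nat_lit 1352) (C.node (nat_lit 4) (nat_lit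 5) (nat_lit 7) (C.cons (nat_lit 688) (C.miq (nat_lit 893495184) (nat_lit 60465457483345170170840961)) (C.cons (nat_lit 432) (C.miq (nat_lit 609331072) (nat_lit 60465457477714571109271425)) (C.cons (nat_lit 176) (C.node (nat_lit 1) (nat_lit 3) (nat_lit 5) (C.cons (nat_lit 106) (C.node (nat_lit 1) (nat_lit 3) (nat_lit 7) (C.cons (nat_lit 650) (C.miq (nat_lit 1393862544) (nat_lit 31453045593513130305193857)) (C.cons (nat_lit 394) (C.miq (nat_lit 1936359760) (nat_lit 1634503144425245836416450851)) C.nil))) C.nil)) C.nil)))) C.nil)) C.nil)) (C.cons (nat_lit 1064) (C.node (nat_lit 5) (nat_lit 7) (nat_lit 10) C.nil) C.nil))) C.nil)) C.nil)) C.nil))) C.nil))) C.nil))) C.nil))) C.nil)) C.nil))) C.nil))) C.nil))) C.nil)))) C.nil))) C.nil)) (C.cons (nat_lit 1168) (C.node (nat_lit 2) (nat_lit 4) (nat_lit 10) (C.cons (nat_lit 1556) (C.node (nat_lit 5) (nat_lit 9) (nat_lit 10) (C.cons (nat_lit 1568) (C.node (nat_lit 2) (nat_lit 6) (nat_lit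 10) (C.cons (nat_lit 1348) (C.miq (nat_lit 443107360) (nat_lit 1934291106969870128726212885)) (C.cons (nat_lit 1220) (C.miq (nat_lit 1248957024) (nat_lit 1395110191494365511017497157)) (C.cons (nat_lit 1092) (C.node (nat_lit 2) (nat_lit 8) (nat_lit 10) (C.cons (nat_lit 1316) (C.miq (nat_lit 1519485504) (nat_lit 1859333278940252872532754709)) (C.cons (nat_lit 1284) (C.node (nat_lit 5) (nat_lit 8) (nat_lit 10) (C.cons (nat_lit 1320) (C.miq (nat_lit 977885200) (nat_lit 1881098776741388301385269539)) (C.cons (nat_lit 1312) (C.node (nat_lit 2) (nat_lit 5) (nat_lit 10) (C.cons (nat_lit 1188) (C.node (nat_lit 3) (nat_lit 5) (nat_lit 10) (C.cons (nat_lit 1064) (C.node (nat_lit 3) (nat_lit 7) (nat_lit 10) (C.cons (nat_lit 1224) (C.node (nat_lit 3) (nat_lit 8) (nat_lit 10) (C.cons (nat_lit 1288) (C.node (nat_lit 6) (nat_lit 8) (nat_lit 10) (C.cons (nat_lit 1344) (C.node (nat_lit 4) (nat_lit 6) (nat_lit 1) (C.cons (nat_lit 90) (C.miq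 (nat_lit 2590050100) (nat_lit 1317738939141767627508678809)) (C.cons (nat_lit 86) (C.miq (nat_lit 2049313089) (nat_lit 1320150592674989545377628691)) (C.cons (nat_lit 82) (C.node (nat_lit 4) (nat_lit 1) (nat_lit 3) (C.cons (nat_lit 58)
  (C.miq (nat_lit 2588084245) (nat_lit 1266964460546323141606637859)) (C.cons (nat_lit 26) (C.ref (nat_lit 54) (nat_lit 11649882875200)) C.nil))) C.nil)))) C.nil)) C.nil)) (C.cons (nat_lit 1160) (C.node (nat_lit 6) (nat_lit 7) (nat_lit 10) (C.cons (nat_lit 1216) (C.node (nat_lit 3) (nat_lit 6) (nat_lit 10) (C.cons (nat_lit 1352) (C.ref (nat_lit 55) (nat_lit 11649882875200)) C.nil)) C.nil)) C.nil))) C.nil)) (C.cons (nat_lit 1060) (C.node (nat_lit 2) (nat_lit 7) (nat_lit 10) (C.cons (nat_lit 1156) (C.node (nat_lit 3) (nat_lit 5) (nat_lit 10) (C.cons (nat_lit 1192) (C.node (nat_lit 6) (nat_lit 7) (nat_lit 10) (C.cons (nat_lit 1216) (C.node (nat_lit 3) (nat_lit 6) (nat_lit 10) (C.cons (nat_lit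 1352) (C.node (nat_lit 4) (nat_lit 5) (nat_lit 9) (C.cons (nat_lit 688) (C.miq (nat_lit 442041204) (nat_lit 1895605480669299306159669401)) (C.cons (nat_lit 816) (C.miq (nat_lit 981795145) (nat_lit 1586120876676324314319946259)) (C.cons (nat_lit 560) (C.node (nat_lit 4) (nat_lit 9) (nat_lit 7) (C.cons (nat_lit 720) (C.miq (nat_lit 440861334) (nat_lit 1412028954717440433238049349)) (C.cons (nat_lit 656) (C.ref (nat_lit 54) (nat_lit 11073357436480)) C.nil))) C.nil)))) C.nil)) C.nil)) (C.cons (nat_lit 1064) (C.node (nat_lit 5) (nat_lit 7) (nat_lit 10) C.nil) C.nil))) C.nil)) C.nil))) C.nil))) C.nil))) C.nil)))) C.nil)) (C.cons (nat_lit 1044) (C.node (nat_lit 4) (nat_lit 9) (nat_lit 10) (C.cons (nat_lit 1552) (C.node (nat_lit 2) (nat_lit 9) (nat_lit 10) (C.cons (nat_lit 1572) (C.node (nat_lit 2) (nat_lit 8) (nat_lit 10) (C.cons (nat_lit 1348) (C.miq (nat_lit 443107360) (nat_lit 1934291106969870128726212885)) (C.cons (nat_lit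 1284) (C.node (nat_lit 5) (nat_lit 8) (nat_lit 10) (C.cons (nat_lit 1320) (C.miq (nat_lit 977885200) (nat_lit 1876263073462929784686444835)) (C.cons (nat_lit 1312) (C.node (nat_lit 2) (nat_lit 6) (nat_lit 10) (C.cons (nat_lit 1220) (C.node (nat_lit 3) (nat_lit 5) (nat_lit 10) (C.cons (nat_lit 1192) (C.miq (nat_lit 1929815442) (nat_lit 88274090195158402800616996)) (C.cons (nat_lit 1064) (C.node (nat_lit 3) (nat_lit 7) (nat_lit 10) (C.cons (nat_lit 1160) (C.node (nat_lit 5) (nat_lit 7) (nat_lit 10) (C.cons (nat_lit 1184) (C.ref (nat_lit 58) (nat_lit 11649936536080)) C.nil)) C.nil)) C.nil))) (C.cons (nat_lit 1092) (C.node (nat_lit 2) (nat_lit 7) (nat_lit 10) (C.cons (nat_lit 1156) (C.node (nat_lit 3) (nat_lit 5) (nat_lit 10) (C.cons (nat_lit 1192) (C.node (nat_lit 6) (nat_lit 7) (nat_lit 10) (C.cons (nat_lit 1216) (C.ref (nat_lit 58) (nat_lit 11649882875200)) C.nil)) (C.cons (nat_lit 1064) (C.node (nat_lit 5) (nat_lit 7)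 (nat_lit 10) C.nil) C.nil))) C.nil)) C.nil))) C.nil))) C.nil))) (C.cons (nat_lit 1540) (C.node (nat_lit 5) (nat_lit 9) (nat_lit 10) (C.cons (nat_lit 1568) (C.ref (nat_lit 59) (nat_lit 11649936536080)) C.nil)) C.nil))) C.nil)) C.nil))) C.nil))) C.nil)) C.nil))) C.nil))) List.nil)

theorem ok11_60 : okL par11 (nat_lit 61) c11_60 (nat_lit 60) = true := by decide +kernel

noncomputable def c11_61 : List C :=
  (List.cons (C.node (nat_lit 1) (nat_lit 6) (nat_lit 10) (C.cons (nat_lit 1602) (C.node (nat_lit 1) (nat_lit 4) (nat_lit 6) (C.cons (nat_lit 90) (C.miq (nat_lit 638847400) (nat_lit 108808433676968885360920449)) (C.cons (nat_lit 86) (C.node (nat_lit 1) (nat_lit 3) (nat_lit 4) (C.cons (nat_lit 58) (C.miq (nat_lit 2450720325) (nat_lit 1256084127792609804741641329)) (C.cons (nat_lit 26) (C.node (nat_lit 3) (nat_lit 4) (nat_lit 10) (C.cons (nat_lit 1560) (C.miq (nat_lit 1396771240) (nat_lit 31437439468168170376923009)) (C.cons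 (nat_lit 1048) (C.node (nat_lit 3) (nat_lit 9) (nat_lit 10) (C.cons (nat_lit 1544) (C.node (nat_lit 4) (nat_lit 9) (nat_lit 10) (C.cons (nat_lit 1556) (C.miq (nat_lit 2051082534) (nat_lit 1569189311515603155367100997)) (C.cons (nat_lit 1552) (C.node (nat_lit 1) (nat_lit 2) (nat_lit 8) (C.cons (nat_lit 774) (C.node (nat_lit 1) (nat_lit 3) (nat_lit 9) (C.cons (nat_lit 650) (C.miq (nat_lit 557091184) (nat_lit 31437181275953199800977281)) (C.cons (nat_lit 522) (C.node (nat_lit 2) (nat_lit 6) (nat_lit 10) (C.cons (nat_lit 1348) (C.node (nat_lit 3) (nat_lit 6) (nat_lit 10) (C.cons (nat_lit 1224) (C.miq (nat_lit 874934410) (nat_lit 103990199344671190746924929)) (C.cons (nat_lit 1096) (C.node (nat_lit 6) (nat_lit 7) (nat_lit 10) (C.cons (nat_lit 1216) (C.node (nat_lit 3) (nat_lit 8) (nat_lit 10) (C.cons (nat_lit 1320) (C.miq (nat_lit 941185600) (nat_lit 935718785802748286765040753)) (C.cons (nat_lit 1288) (C.node (nat_lit 5) (nat_lit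 8) (nat_lit 10) (C.cons (nat_lit 1312) (C.node (nat_lit 4) (nat_lit 6) (nat_lit 7) (C.cons (nat_lit 720) (C.miq (nat_lit 828639895) (nat_lit 103970443131160767973296001)) (C.cons (nat_lit 464) (C.miq (nat_lit 845417095) (nat_lit 103970443131159677034825601)) (C.cons (nat_lit 208) (C.node (nat_lit 5) (nat_lit 8) (nat_lit 9) (C.cons (nat_lit 864) (C.miq (nat_lit 847841893) (nat_lit 935718785723654033079534705)) (C.cons (nat_lit 816) (C.miq (nat_lit 1393856680) (nat_lit 31447124008804630213560193)) (C.cons (nat_lit 800) (C.node (nat_lit 1) (nat_lit 2) (nat_lit 5) (C.cons (nat_lit 166) (C.node (nat_lit 1) (nat_lit 4) (nat_lit 5) (C.cons (nat_lit 50) (C.node (nat_lit 1) (nat_lit 4) (nat_lit 7) (C.cons (nat_lit 146) (C.node (nat_lit 1) (nat_lit 5) (nat_lit 9) (C.cons (nat_lit 546) (C.node (nat_lit 1) (nat_lit 5) (nat_lit 10) (C.cons (nat_lit 1058) (C.node (nat_lit 1) (nat_lit 7) (nat_lit 9) (C.cons (nat_lit 642) (C.node (nat_lit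 1) (nat_lit 7) (nat_lit 10) (C.cons (nat_lit 1154) (C.node (nat_lit 2) (nat_lit 5) (nat_lit 6) (C.cons (nat_lit 108) (C.miq (nat_lit 840521280) (nat_lit 935718785461595409491362929)) (C.cons (nat_lit 100) (C.node (nat_lit 2) (nat_lit 7) (nat_lit 8) (C.cons (nat_lit 396) (C.miq (nat_lit 1092815239) (nat_lit 1256076749080909527045113729)) (C.cons (nat_lit 388) (C.node (nat_lit 1) (nat_lit 3) (nat_lit 5) (C.cons (nat_lit 106) (C.node (nat_lit 1) (nat_lit 6) (nat_lit 8) (C.cons (nat_lit 322) (C.node (nat_lit 1) (nat_lit 3) (nat_lit 7) (C.cons (nat_lit 394) (C.miq (nat_lit 1936359760) (nat_lit 1325018134603900767691669795)) (C.cons (nat_lit 138) (C.node (nat_lit 1) (nat_lit 3) (nat_lit 8) (C.cons (nat_lit 266) (C.node (nat_lit 1) (nat_lit 7) (nat_lit 8) (C.cons (nat_lit 386) (C.node (nat_lit 3) (nat_lit 5) (nat_lit 10) C.nil) C.nil)) C.nil)) C.nil))) C.nil)) (C.cons (nat_lit 42) (C.node (nat_lit 1) (nat_lit 5) (nat_lit 6) (C.cons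 (nat_lit 98) (C.node (nat_lit 2) (nat_lit 5) (nat_lit 10) (C.cons (nat_lit 1572) (C.node (nat_lit 2) (nat_lit 4) (nat_lit 10) C.nil) C.nil)) C.nil)) C.nil))) C.nil))) C.nil))) C.nil)) C.nil)) C.nil)) C.nil)) C.nil)) C.nil)) (C.cons (nat_lit 38) (C.node (nat_lit 1) (nat_lit 2) (nat_lit 7) (C.cons (nat_lit 134) (C.node (nat_lit 1) (nat_lit 4) (nat_lit 5) (C.cons (nat_lit 178) (C.node (nat_lit 1) (nat_lit 5) (nat_lit 9) (C.cons (nat_lit 546) (C.node (nat_lit 1) (nat_lit 5) (nat_lit 10) (C.cons (nat_lit 1058) (C.node (nat_lit 1) (nat_lit 7) (nat_lit 9) (C.cons (nat_lit 642) (C.node (nat_lit 1) (nat_lit 7) (nat_lit 10) (C.cons (nat_lit 1154)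
  (C.node (nat_lit 4) (nat_lit 7) (nat_lit 8) (C.cons (nat_lit 400) (C.node (nat_lit 4) (nat_lit 5) (nat_lit 9) (C.cons (nat_lit 564) (C.miq (nat_lit 1888818724) (nat_lit 668539261822225169784242262)) (C.cons (nat_lit 560) (C.node (nat_lit 2) (nat_lit 5) (nat_lit 6) (C.cons (nat_lit 236) (C.miq (nat_lit 655975744) (nat_lit 776141093817327614453548145)) (C.cons (nat_lit 228) (C.miq (nat_lit 655975744) (nat_lit 776141093815075814639862897)) (C.cons (nat_lit 108) (C.miq (nat_lit 840521280) (nat_lit 935718785461595409491362929)) (C.cons (nat_lit 100) (C.node (nat_lit 1) (nat_lit 3) (nat_lit 5) (C.cons (nat_lit 106) (C.node (nat_lit 1) (nat_lit 6) (nat_lit 8) (C.cons (nat_lit 322) (C.node (nat_lit 1) (nat_lit 3) (nat_lit 7) (C.cons (nat_lit 394) (C.miq (nat_lit 1936359760) (nat_lit 1325018134603900767691669795)) (C.cons (nat_lit 138) (C.node (nat_lit 1) (nat_lit 3) (nat_lit 8) (C.cons (nat_lit 266) (C.node (nat_lit 1) (nat_lit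 7) (nat_lit 8) (C.cons (nat_lit 386) (C.node (nat_lit 3) (nat_lit 5) (nat_lit 10) C.nil) C.nil)) C.nil)) C.nil))) C.nil)) (C.cons (nat_lit 42) (C.node (nat_lit 1) (nat_lit 5) (nat_lit 6) (C.cons (nat_lit 98) (C.node (nat_lit 2) (nat_lit 4) (nat_lit 10) (C.cons (nat_lit 1172) (C.node (nat_lit 4) (nat_lit 7) (nat_lit 9) (C.cons (nat_lit 656) (C.node (nat_lit 3) (nat_lit 5) (nat_lit 10) C.nil) C.nil)) C.nil)) C.nil)) C.nil))) C.nil))))) C.nil))) C.nil)) C.nil)) C.nil)) C.nil)) C.nil)) (C.cons (nat_lit 50) (C.node (nat_lit 1) (nat_lit 4) (nat_lit 7) (C.cons (nat_lit 146) (C.node (nat_lit 1) (nat_lit 5) (nat_lit 6) (C.cons (nat_lit 106) (C.node (nat_lit 1) (nat_lit 6) (nat_lit 8) (C.cons (nat_lit 322) (C.node (nat_lit 1) (nat_lit 3) (nat_lit 7) (C.cons (nat_lit 394) (C.miq (nat_lit 1936359760) (nat_lit 1325018134603900767691669795)) (C.cons (nat_lit 138) (C.node (nat_lit 1) (nat_lit 3) (nat_lit 8) (C.cons (nat_lit 266) (C.node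 (nat_lit 1) (nat_lit 7) (nat_lit 8) (C.cons (nat_lit 386) (C.node (nat_lit 5) (nat_lit 6) (nat_lit 8) (C.cons (nat_lit 480) (C.miq (nat_lit 1983546640) (nat_lit 1325018134628107615682363683)) (C.cons (nat_lit 352) (C.node (nat_lit 5) (nat_lit 6) (nat_lit 9) (C.cons (nat_lit 736) (C.miq (nat_lit 2840790881) (nat_lit 668555144954699109200691395)) (C.cons (nat_lit 608) (C.node (nat_lit 3) (nat_lit 4) (nat_lit 6) (C.cons (nat_lit 600) (C.miq (nat_lit 2303074570) (nat_lit 725380358197652777975481359)) (C.cons (nat_lit 344) (C.miq (nat_lit 2489847970) (nat_lit 415884759876813583391392783)) C.nil))) C.nil))) C.nil))) C.nil)) C.nil)) C.nil))) C.nil)) (C.cons (nat_lit 98) (C.node (nat_lit 1) (nat_lit 3) (nat_lit 5) (C.cons (nat_lit 170) (C.node (nat_lit 1) (nat_lit 5) (nat_lit 9) (C.cons (nat_lit 546) (C.node (nat_lit 1) (nat_lit 5) (nat_lit 10) (C.cons (nat_lit 1058) (C.node (nat_lit 1) (nat_lit 7) (nat_lit 8) (C.cons (nat_lit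 386) (C.node (nat_lit 1) (nat_lit 7) (nat_lit 9) (C.cons (nat_lit 642) (C.node (nat_lit 1) (nat_lit 7) (nat_lit 10) (C.cons (nat_lit 1154) (C.node (nat_lit 3) (nat_lit 5) (nat_lit 10) (C.cons (nat_lit 1064) (C.node (nat_lit 5) (nat_lit 6) (nat_lit 9) C.nil) C.nil)) C.nil)) C.nil)) C.nil)) C.nil)) C.nil)) (C.cons (nat_lit 42) (C.node (nat_lit 1) (nat_lit 3) (nat_lit 6) (C.cons (nat_lit 330) (C.node (nat_lit 1) (nat_lit 3) (nat_lit 7) (C.cons (nat_lit 138) (C.node (nat_lit 1) (nat_lit 7) (nat_lit 8) (C.cons (nat_lit 386) (C.node (nat_lit 3) (nat_lit 4) (nat_lit 6) (C.cons (nat_lit 600) (C.miq (nat_lit 2303074570) (nat_lit 725380358197652777975481359)) (C.cons (nat_lit 88) (C.node (nat_lit 3) (nat_lit 8) (nat_lit 9) (C.cons (nat_lit 792) (C.miq (nat_lit 1754571280) (nat_lit 957490223462229707072930831)) (C.cons (nat_lit 776) (C.node (nat_lit 3) (nat_lit 4) (nat_lit 8) (C.cons (nat_lit 312) (C.node (nat_lit 2) (nat_lit 3)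 (nat_lit 8) C.nil) C.nil)) C.nil))) C.nil))) C.nil)) C.nil)) (C.cons (nat_lit 74) (C.node (nat_lit 1) (nat_lit 6) (nat_lit 8) (C.cons (nat_lit 322) (C.node (nat_lit 1) (nat_lit 3) (nat_lit 7) (C.cons (nat_lit 394) (C.node (nat_lit 4) (nat_lit 7) (nat_lit 8)
  (C.cons (nat_lit 432) (C.miq (nat_lit 2759001473) (nat_lit 184984816888169751925883171)) (C.cons (nat_lit 400) (C.node (nat_lit 4) (nat_lit 5) (nat_lit 8) (C.cons (nat_lit 312) (C.miq (nat_lit 1681327489) (nat_lit 184969247836171025668243747)) (C.cons (nat_lit 304) (C.node (nat_lit 6) (nat_lit 7) (nat_lit 8) (C.cons (nat_lit 480) (C.miq (nat_lit 979832920) (nat_lit 1470061064961011502217691427)) (C.cons (nat_lit 448) (C.node (nat_lit 2) (nat_lit 3) (nat_lit 8) C.nil) C.nil))) C.nil))) C.nil))) (C.cons (nat_lit 138) (C.node (nat_lit 1) (nat_lit 3) (nat_lit 8) (C.cons (nat_lit 266) (C.node (nat_lit 1) (nat_lit 7) (nat_lit 8) C.nil) C.nil)) C.nil))) C.nil)) C.nil)))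 C.nil))) C.nil))) C.nil)) C.nil))) C.nil)) C.nil))) C.nil)))) C.nil)))) C.nil)) C.nil))) C.nil)) C.nil))) (C.cons (nat_lit 1220) (C.miq (nat_lit 1914283584) (nat_lit 935744020920488418260223089)) (C.cons (nat_lit 1092) (C.miq (nat_lit 2188001425) (nat_lit 1320170938970953797806981651)) C.nil)))) C.nil))) (C.cons (nat_lit 390) (C.miq (nat_lit 2435360320) (nat_lit 471516506295994256259875953)) (C.cons (nat_lit 262) (C.miq (nat_lit 2435360320) (nat_lit 316774001385321721897485425)) C.nil)))) C.nil))) C.nil)) C.nil))) C.nil))) (C.cons (nat_lit 82) (C.miq (nat_lit 638847400) (nat_lit 99137027120051851963271041)) C.nil)))) (C.cons (nat_lit 1090) (C.node (nat_lit 1) (nat_lit 7) (nat_lit 10) (C.cons (nat_lit 1186) (C.node (nat_lit 1) (nat_lit 9) (nat_lit 10) (C.cons (nat_lit 1538) (C.node (nat_lit 4) (nat_lit 7) (nat_lit 10) (C.cons (nat_lit 1172) (C.miq (nat_lit 1912972417) (nat_lit 44752133494102561422247186)) (C.cons (nat_lit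 1168) (C.ref (nat_lit 53) (nat_lit 11649936536080)) C.nil))) C.nil)) (C.cons (nat_lit 1154) (C.node (nat_lit 1) (nat_lit 5) (nat_lit 10) (C.cons (nat_lit 1570) (C.node (nat_lit 2) (nat_lit 9) (nat_lit 10) (C.cons (nat_lit 1556) (C.miq (nat_lit 2449843329) (nat_lit 44759217151913256946959634)) (C.cons (nat_lit 1540) (C.node (nat_lit 3) (nat_lit 4) (nat_lit 10) (C.cons (nat_lit 1560) (C.miq (nat_lit 1124641105) (nat_lit 320389286510787745099744802)) (C.cons (nat_lit 1048) (C.node (nat_lit 4) (nat_lit 9) (nat_lit 10) (C.cons (nat_lit 1552) (C.node (nat_lit 2) (nat_lit 8) (nat_lit 10) (C.cons (nat_lit 1348) (C.miq (nat_lit 2443576450) (nat_lit 1317739861087721413268472085)) (C.cons (nat_lit 1316) (C.miq (nat_lit 714376464) (nat_lit 1876257982160440709174460707)) (C.cons (nat_lit 1284) (C.node (nat_lit 5) (nat_lit 8) (nat_lit 10) (C.cons (nat_lit 1320) (C.miq (nat_lit 977885200) (nat_lit 1876263073462929784686444835)) (C.cons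 (nat_lit 1312) (C.node (nat_lit 3) (nat_lit 5) (nat_lit 10) (C.cons (nat_lit 1192) (C.miq (nat_lit 1101465939) (nat_lit 1395103218336595300982456873)) (C.cons (nat_lit 1064) (C.node (nat_lit 2) (nat_lit 4) (nat_lit 10) (C.cons (nat_lit 1172) (C.node (nat_lit 2) (nat_lit 5) (nat_lit 10) (C.cons (nat_lit 1060) (C.node (nat_lit 2) (nat_lit 6) (nat_lit 10) (C.cons (nat_lit 1092) (C.node (nat_lit 5) (nat_lit 7) (nat_lit 10) (C.cons (nat_lit 1184) (C.node (nat_lit 1) (nat_lit 2) (nat_lit 4) (C.cons (nat_lit 86) (C.miq (nat_lit 2585135170) (nat_lit 1317739861478971630813577493)) (C.cons (nat_lit 54) (C.miq (nat_lit 2320632084) (nat_lit 1281466479080335516097708563)) (C.cons (nat_lit 22) (C.node (nat_lit 1) (nat_lit 4) (nat_lit 6) (C.cons (nat_lit 90) (C.node (nat_lit 2) (nat_lit 4) (nat_lit 6) (C.cons (nat_lit 84) (C.node (nat_lit 3) (nat_lit 7) (nat_lit 10) (C.cons (nat_lit 1224) (C.miq (nat_lit 2587101025) (nat_lit 1266964054717953202171019459))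 (C.cons (nat_lit 1160) (C.node (nat_lit 6) (nat_lit 7) (nat_lit 10) (C.cons (nat_lit 1216) (C.node (nat_lit 1) (nat_lit 3) (nat_lit 8) (C.cons (nat_lit 778) (C.miq (nat_lit 1410534025) (nat_lit 108813525134832010544154497)) (C.cons (nat_lit 394) (C.miq (nat_lit 2202693984) (nat_lit 1266989695262398498586296515)) (C.cons (nat_lit 266) (C.node (nat_lit 1) (nat_lit 3) (nat_lit 9) (C.cons (nat_lit 650) (C.miq (nat_lit 1362405744) (nat_lit 108824298155246938658244481)) (C.cons (nat_lit 522)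
  (C.node (nat_lit 1) (nat_lit 7) (nat_lit 8) (C.cons (nat_lit 390) (C.miq (nat_lit 1411451512) (nat_lit 26601736354089373570303873)) (C.cons (nat_lit 386) (C.node (nat_lit 3) (nat_lit 8) (nat_lit 10) (C.cons (nat_lit 1352) (C.miq (nat_lit 2199496256) (nat_lit 631094714414756580339942513)) (C.cons (nat_lit 1288) (C.node (nat_lit 6) (nat_lit 8) (nat_lit 10) (C.cons (nat_lit 1344) (C.node (nat_lit 3) (nat_lit 6) (nat_lit 10) (C.cons (nat_lit 1608) (C.node (nat_lit 3) (nat_lit 7) (nat_lit 9) (C.cons (nat_lit 652) (C.miq (nat_lit 1512637555) (nat_lit 1861755963576043772693971097)) (C.cons (nat_lit 648) (C.node (nat_lit 4) (nat_lit 6) (nat_lit 7) (C.cons (nat_lit 720) (C.miq (nat_lit 1983550480) (nat_lit 1943988154338351678823006739)) (C.cons (nat_lit 464) (C.miq (nat_lit 2218423824) (nat_lit 1266989695282101746949619907)) (C.cons (nat_lit 208) (C.node (nat_lit 4) (nat_lit 6) (nat_lit 8) (C.cons (nat_lit 848) (C.miq (nat_lit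 910338432) (nat_lit 101568935467336839600605057)) (C.cons (nat_lit 336) (C.node (nat_lit 4) (nat_lit 6) (nat_lit 9) (C.cons (nat_lit 592) (C.node (nat_lit 1) (nat_lit 3) (nat_lit 5) C.nil) C.nil)) C.nil))) C.nil)))) C.nil))) C.nil)) C.nil)) C.nil))) C.nil))) C.nil))) C.nil)))) C.nil)) C.nil))) C.nil)) (C.cons (nat_lit 82) (C.node (nat_lit 1) (nat_lit 3) (nat_lit 4) (C.cons (nat_lit 58) (C.miq (nat_lit 2052262164) (nat_lit 1286299894962528892812395027)) (C.cons (nat_lit 26) (C.node (nat_lit 1) (nat_lit 4) (nat_lit 5) (C.cons (nat_lit 178) (C.node (nat_lit 1) (nat_lit 2) (nat_lit 5) (C.cons (nat_lit 102) (C.node (nat_lit 1) (nat_lit 3) (nat_lit 5) (C.cons (nat_lit 42) (C.node (nat_lit 1) (nat_lit 2) (nat_lit 7) (C.cons (nat_lit 646) (C.miq (nat_lit 1969361929) (nat_lit 123322350247471221460763155)) (C.cons (nat_lit 390) (C.miq (nat_lit 1108715392) (nat_lit 123331407878594331341424513)) (C.cons (nat_lit 134) (C.node (nat_lit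 1) (nat_lit 2) (nat_lit 8) (C.cons (nat_lit 774) (C.miq (nat_lit 1361357184) (nat_lit 26617342421452687362295681)) (C.cons (nat_lit 262) (C.node (nat_lit 1) (nat_lit 2) (nat_lit 9) (C.cons (nat_lit 518) (C.node (nat_lit 1) (nat_lit 7) (nat_lit 9) (C.cons (nat_lit 650) (C.miq (nat_lit 1362405744) (nat_lit 31453045699910671477049217)) (C.cons (nat_lit 642) (C.node (nat_lit 1) (nat_lit 3) (nat_lit 7) (C.cons (nat_lit 138) (C.node (nat_lit 1) (nat_lit 7) (nat_lit 8) (C.cons (nat_lit 386) (C.node (nat_lit 1) (nat_lit 3) (nat_lit 6) (C.cons (nat_lit 842) (C.miq (nat_lit 1094035600) (nat_lit 50795858737184369266984833)) C.nil)) C.nil)) C.nil)) C.nil))) C.nil)) C.nil))) C.nil)))) C.nil)) (C.cons (nat_lit 38) (C.node (nat_lit 1) (nat_lit 2) (nat_lit 6) (C.cons (nat_lit 326) (C.node (nat_lit 1) (nat_lit 8) (nat_lit 9) (C.cons (nat_lit 778) (C.miq (nat_lit 1410534025) (nat_lit 31442272679495743362959233)) (C.cons (nat_lit 770) (C.node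 (nat_lit 4) (nat_lit 7) (nat_lit 8) (C.cons (nat_lit 464) (C.miq (nat_lit 880936801) (nat_lit 334891618243412529940660419)) (C.cons (nat_lit 400) (C.node (nat_lit 1) (nat_lit 2) (nat_lit 7) (C.cons (nat_lit 646) (C.node (nat_lit 4) (nat_lit 6) (nat_lit 7) (C.cons (nat_lit 720) (C.miq (nat_lit 1730824464) (nat_lit 1416882034739021958364463635)) (C.cons (nat_lit 208) (C.node (nat_lit 4) (nat_lit 7) (nat_lit 9) (C.cons (nat_lit 656) (C.node (nat_lit 5) (nat_lit 7) (nat_lit 9) (C.cons (nat_lit 736) (C.miq (nat_lit 659984704) (nat_lit 889780120976507497367011859)) (C.cons (nat_lit 672) (C.node (nat_lit 5) (nat_lit 6) (nat_lit 9) (C.cons (nat_lit 864) (C.miq (nat_lit 962725249) (nat_lit 702405067518851507722518819)) (C.cons (nat_lit 608) (C.node (nat_lit 1) (nat_lit 3) (nat_lit 5) (C.cons (nat_lit 106) (C.node (nat_lit 1) (nat_lit 3) (nat_lit 9) (C.cons (nat_lit 522) (C.node (nat_lit 1) (nat_lit 6) (nat_lit 9) (C.cons (nat_lit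 578) (C.node (nat_lit 1) (nat_lit 3) (nat_lit 7) (C.cons (nat_lit 394) (C.miq (nat_lit 2203742560) (nat_lit 1286332508376232634101072067)) C.nil)) C.nil)) C.nil)) (C.cons (nat_lit 42) (C.node (nat_lit 1) (nat_lit 5) (nat_lit 6) (C.cons (nat_lit 98)
  (C.node (nat_lit 1) (nat_lit 3) (nat_lit 6) (C.cons (nat_lit 586) (C.node (nat_lit 3) (nat_lit 7) (nat_lit 9) (C.cons (nat_lit 648) (C.node (nat_lit 3) (nat_lit 9) (nat_lit 10) (C.cons (nat_lit 1544) (C.node (nat_lit 6) (nat_lit 7) (nat_lit 9) C.nil) C.nil)) C.nil)) C.nil)) C.nil)) C.nil))) C.nil))) C.nil))) C.nil)) C.nil))) (C.cons (nat_lit 134) (C.node (nat_lit 1) (nat_lit 2) (nat_lit 9) (C.cons (nat_lit 518) (C.node (nat_lit 1) (nat_lit 7) (nat_lit 9) (C.cons (nat_lit 650) (C.miq (nat_lit 1362405744) (nat_lit 31453045699910671477049217)) (C.cons (nat_lit 642) (C.node (nat_lit 1) (nat_lit 3) (nat_lit 5) (C.cons (nat_lit 42) (C.node (nat_lit 1) (nat_lit 5) (nat_lit 6) (C.cons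 (nat_lit 98) (C.node (nat_lit 1) (nat_lit 3) (nat_lit 6) C.nil) C.nil)) C.nil)) C.nil))) C.nil)) C.nil))) C.nil))) C.nil))) (C.cons (nat_lit 70) (C.node (nat_lit 1) (nat_lit 2) (nat_lit 8) (C.cons (nat_lit 774) (C.miq (nat_lit 1361357184) (nat_lit 26617342421452687362295681)) (C.cons (nat_lit 390) (C.miq (nat_lit 1108715392) (nat_lit 45960155423258064160229249)) (C.cons (nat_lit 262) (C.node (nat_lit 1) (nat_lit 2) (nat_lit 7) (C.cons (nat_lit 646) (C.node (nat_lit 4) (nat_lit 7) (nat_lit 9) (C.cons (nat_lit 720) (C.miq (nat_lit 1730824464) (nat_lit 1416882034739021958364463635)) (C.cons (nat_lit 656) (C.node (nat_lit 5) (nat_lit 7) (nat_lit 9) (C.cons (nat_lit 736) (C.miq (nat_lit 659984704) (nat_lit 889780120976507497367011859)) (C.cons (nat_lit 672) (C.node (nat_lit 1) (nat_lit 3) (nat_lit 5) (C.cons (nat_lit 106) (C.node (nat_lit 1) (nat_lit 3) (nat_lit 7) (C.cons (nat_lit 394) (C.miq (nat_lit 2203742560) (nat_lit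 1286332508376232634101072067)) (C.cons (nat_lit 138) (C.node (nat_lit 1) (nat_lit 7) (nat_lit 8) C.nil) C.nil))) (C.cons (nat_lit 42) (C.node (nat_lit 1) (nat_lit 5) (nat_lit 6) C.nil) C.nil))) C.nil))) C.nil))) (C.cons (nat_lit 134) (C.node (nat_lit 1) (nat_lit 2) (nat_lit 9) (C.cons (nat_lit 518) (C.node (nat_lit 1) (nat_lit 7) (nat_lit 9) (C.cons (nat_lit 650) (C.miq (nat_lit 1362405744) (nat_lit 31453045699910671477049217)) (C.cons (nat_lit 642) (C.node (nat_lit 1) (nat_lit 3) (nat_lit 5) (C.cons (nat_lit 106) (C.node (nat_lit 2) (nat_lit 4) (nat_lit 6) C.nil) (C.cons (nat_lit 42) (C.node (nat_lit 1) (nat_lit 5) (nat_lit 6) C.nil) C.nil))) C.nil))) C.nil)) C.nil))) C.nil)))) C.nil))) C.nil))) (C.cons (nat_lit 50) (C.node (nat_lit 1) (nat_lit 4) (nat_lit 7) (C.cons (nat_lit 146) (C.node (nat_lit 4) (nat_lit 5) (nat_lit 7) (C.cons (nat_lit 688) (C.miq (nat_lit 827591319) (nat_lit 60449113625033980242823041)) (C.cons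 (nat_lit 432) (C.miq (nat_lit 609331072) (nat_lit 60465457477714571109271425)) (C.cons (nat_lit 176) (C.node (nat_lit 2) (nat_lit 4) (nat_lit 6) (C.cons (nat_lit 92) (C.node (nat_lit 3) (nat_lit 7) (nat_lit 10) (C.cons (nat_lit 1224) (C.miq (nat_lit 2321680180) (nat_lit 1320152105308002163632111769)) (C.cons (nat_lit 1160) (C.node (nat_lit 6) (nat_lit 7) (nat_lit 10) (C.cons (nat_lit 1216) (C.node (nat_lit 3) (nat_lit 9) (nat_lit 10) (C.cons (nat_lit 1608) (C.miq (nat_lit 2318666082) (nat_lit 1266959369244960129212482117)) (C.cons (nat_lit 1544) (C.node (nat_lit 6) (nat_lit 9) (nat_lit 10) (C.cons (nat_lit 1600) (C.node (nat_lit 3) (nat_lit 6) (nat_lit 10) (C.cons (nat_lit 1352) (C.node (nat_lit 4) (nat_lit 7) (nat_lit 8) (C.cons (nat_lit 464) (C.miq (nat_lit 1983546400) (nat_lit 1634503144444949024650232085)) (C.cons (nat_lit 400) (C.node (nat_lit 4) (nat_lit 6) (nat_lit 7) (C.cons (nat_lit 720) (C.miq (nat_lit 1949996576)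 (nat_lit 1266989695354159349577482821)) (C.cons (nat_lit 208) (C.node (nat_lit 4) (nat_lit 7) (nat_lit 9) C.nil) C.nil))) C.nil))) C.nil)) C.nil)) C.nil))) C.nil)) C.nil))) (C.cons (nat_lit 84) (C.node (nat_lit 4) (nat_lit 7) (nat_lit 8) (C.cons (nat_lit 464) (C.node (nat_lit 4) (nat_lit 7) (nat_lit 9) (C.cons (nat_lit 656) (C.node (nat_lit 6) (nat_lit 7) (nat_lit 10) (C.cons (nat_lit 1224) (C.miq (nat_lit 910337920) (nat_lit 101568935359248799276271489)) (C.cons (nat_lit 1216)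
  (C.node (nat_lit 3) (nat_lit 7) (nat_lit 10) (C.cons (nat_lit 1160) (C.node (nat_lit 5) (nat_lit 1) (nat_lit 7) C.nil) C.nil)) C.nil))) C.nil)) (C.cons (nat_lit 400) (C.node (nat_lit 4) (nat_lit 6) (nat_lit 7) (C.cons (nat_lit 720) (C.node (nat_lit 6) (nat_lit 7) (nat_lit 10) (C.cons (nat_lit 1224) (C.miq (nat_lit 910272400) (nat_lit 99151083720020640455133057)) (C.cons (nat_lit 1216) (C.node (nat_lit 3) (nat_lit 7) (nat_lit 10) (C.cons (nat_lit 1160) (C.node (nat_lit 5) (nat_lit 7) (nat_lit 9) C.nil) C.nil)) C.nil))) (C.cons (nat_lit 208) (C.node (nat_lit 4) (nat_lit 7) (nat_lit 9) (C.cons (nat_lit 656) (C.node (nat_lit 6) (nat_lit 7) (nat_lit 10) (C.cons (nat_lit 1224) (C.node (nat_lit 6) (nat_lit 8) (nat_lit 10) (C.cons (nat_lit 1344) (C.node (nat_lit 6) (nat_lit 9) (nat_lit 10) C.nil) C.nil)) (C.cons (nat_lit 1216) (C.node (nat_lit 3) (nat_lit 7) (nat_lit 10) C.nil) C.nil))) C.nil)) C.nil))) C.nil))) C.nil))) C.nil))))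 C.nil)) C.nil))) C.nil))) C.nil))) C.nil)))) C.nil)) C.nil)) C.nil)) (C.cons (nat_lit 1044) (C.node (nat_lit 4) (nat_lit 7) (nat_lit 10) (C.cons (nat_lit 1168) (C.node (nat_lit 2) (nat_lit 5) (nat_lit 10) (C.cons (nat_lit 1188) (C.node (nat_lit 2) (nat_lit 6) (nat_lit 10) (C.cons (nat_lit 1092) (C.node (nat_lit 3) (nat_lit 7) (nat_lit 10) (C.cons (nat_lit 1224) (C.node (nat_lit 3) (nat_lit 8) (nat_lit 10) (C.cons (nat_lit 1288) (C.node (nat_lit 3) (nat_lit 9) (nat_lit 10) (C.cons (nat_lit 1544) (C.node (nat_lit 6) (nat_lit 8) (nat_lit 10) (C.cons (nat_lit 1344) (C.node (nat_lit 6) (nat_lit 9) (nat_lit 10) (C.cons (nat_lit 1600) (C.node (nat_lit 1) (nat_lit 3) (nat_lit 4) (C.cons (nat_lit 90) (C.miq (nat_lit 2587101025) (nat_lit 1266964054717953202171019459)) (C.cons (nat_lit 58) (C.miq (nat_lit 2052262164) (nat_lit 1286299894962528892812395027)) (C.cons (nat_lit 26) (C.node (nat_lit 1) (nat_lit 4) (nat_lit 6) (C.cons (nat_lit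 86) (C.miq (nat_lit 2585135170) (nat_lit 1317739861478971630813577493)) (C.cons (nat_lit 82) (C.ref (nat_lit 54) (nat_lit 11649936536080)) C.nil))) C.nil)))) C.nil)) C.nil)) C.nil)) C.nil)) (C.cons (nat_lit 1160) (C.node (nat_lit 6) (nat_lit 7) (nat_lit 10) (C.cons (nat_lit 1216) (C.node (nat_lit 3) (nat_lit 8) (nat_lit 10) (C.cons (nat_lit 1352) (C.node (nat_lit 3) (nat_lit 9) (nat_lit 10) (C.cons (nat_lit 1544) (C.node (nat_lit 6) (nat_lit 9) (nat_lit 10) (C.cons (nat_lit 1600) (C.ref (nat_lit 55) (nat_lit 11649936536080)) C.nil)) C.nil)) (C.cons (nat_lit 1288) (C.node (nat_lit 6) (nat_lit 8) (nat_lit 10) (C.cons (nat_lit 1344) (C.node (nat_lit 3) (nat_lit 6) (nat_lit 10) (C.cons (nat_lit 1608) (C.ref (nat_lit 56) (nat_lit 11649936536080)) C.nil)) C.nil)) C.nil))) C.nil)) C.nil))) C.nil)) (C.cons (nat_lit 1060) (C.node (nat_lit 5) (nat_lit 7) (nat_lit 10) (C.cons (nat_lit 1184) (C.node (nat_lit 2) (nat_lit 6) (nat_lit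 10) (C.cons (nat_lit 1220) (C.node (nat_lit 3) (nat_lit 7) (nat_lit 10) (C.cons (nat_lit 1160) (C.node (nat_lit 1) (nat_lit 2) (nat_lit 9) (C.cons (nat_lit 774) (C.miq (nat_lit 1653213460) (nat_lit 1552281726496735953941561875)) (C.cons (nat_lit 646) (C.miq (nat_lit 1244202609) (nat_lit 1861755557747674357241872579)) (C.cons (nat_lit 518) (C.node (nat_lit 1) (nat_lit 7) (nat_lit 9) (C.cons (nat_lit 650) (C.miq (nat_lit 1243022739) (nat_lit 1395103218507169136833593897)) (C.cons (nat_lit 642) (C.node (nat_lit 3) (nat_lit 8) (nat_lit 10) (C.cons (nat_lit 1352) (C.node (nat_lit 3) (nat_lit 9) (nat_lit 10) (C.cons (nat_lit 1544) (C.node (nat_lit 6) (nat_lit 9) (nat_lit 10) (C.cons (nat_lit 1600) (C.ref (nat_lit 54) (nat_lit 11293206061840)) C.nil)) C.nil)) (C.cons (nat_lit 1288) (C.node (nat_lit 6) (nat_lit 8) (nat_lit 10) (C.cons (nat_lit 1344) (C.node (nat_lit 3) (nat_lit 6) (nat_lit 10) (C.cons (nat_lit 1608) (C.node (nat_lit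 1) (nat_lit 3) (nat_lit 9) (C.cons (nat_lit 778) (C.miq (nat_lit 950374720) (nat_lit 1586120876602859345419502099)) (C.cons (nat_lit 522) (C.node (nat_lit 3) (nat_lit 7) (nat_lit 9) (C.cons (nat_lit 652)
  (C.miq (nat_lit 933597792) (nat_lit 1431378371656720628984119877)) (C.cons (nat_lit 648) (C.node (nat_lit 1) (nat_lit 5) (nat_lit 6) (C.cons (nat_lit 106) (C.miq (nat_lit 2301692517) (nat_lit 631064646382082215251674225)) (C.cons (nat_lit 102) (C.miq (nat_lit 2317682529) (nat_lit 1281466737334751044796022979)) (C.cons (nat_lit 98) (C.node (nat_lit 2) (nat_lit 4) (nat_lit 6) (C.cons (nat_lit 92) (C.miq (nat_lit 2318666082) (nat_lit 1266959369244960129212482117)) (C.cons (nat_lit 86) (C.miq (nat_lit 1914283584) (nat_lit 626259011099143349535442033)) (C.cons (nat_lit 84) (C.node (nat_lit 4) (nat_lit 6) (nat_lit 9) (C.cons (nat_lit 848) (C.miq (nat_lit 910338432) (nat_lit 101568935467336839600605057)) (C.cons (nat_lit 720)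 (C.miq (nat_lit 308546169) (nat_lit 101559564361189731156887425)) (C.cons (nat_lit 592) (C.node (nat_lit 6) (nat_lit 7) (nat_lit 9) (C.cons (nat_lit 736) (C.miq (nat_lit 663987792) (nat_lit 783403097620774922152903793)) (C.cons (nat_lit 704) (C.node (nat_lit 5) (nat_lit 6) (nat_lit 9) (C.cons (nat_lit 864) (C.miq (nat_lit 911321472) (nat_lit 118493896941941716766885761)) (C.cons (nat_lit 608) (C.node (nat_lit 1) (nat_lit 2) (nat_lit 6) (C.cons (nat_lit 326) (C.node (nat_lit 1) (nat_lit 6) (nat_lit 9) C.nil) C.nil)) C.nil))) C.nil))) C.nil)))) C.nil)))) C.nil)))) C.nil))) C.nil))) C.nil)) C.nil)) C.nil))) C.nil))) C.nil)))) C.nil)) (C.cons (nat_lit 1092) (C.node (nat_lit 2) (nat_lit 7) (nat_lit 10) (C.cons (nat_lit 1156) (C.node (nat_lit 3) (nat_lit 7) (nat_lit 10) (C.cons (nat_lit 1224) (C.node (nat_lit 3) (nat_lit 8) (nat_lit 10) (C.cons (nat_lit 1288) (C.node (nat_lit 3) (nat_lit 9) (nat_lit 10) C.nil) C.nil)) (C.cons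 (nat_lit 1160) (C.node (nat_lit 6) (nat_lit 7) (nat_lit 10) C.nil) C.nil))) C.nil)) C.nil))) C.nil)) C.nil))) C.nil)) C.nil))) C.nil))) C.nil))) C.nil)))) C.nil)) C.nil))) C.nil))) (C.cons (nat_lit 1058) (C.node (nat_lit 1) (nat_lit 9) (nat_lit 10) (C.cons (nat_lit 1538) (C.ref (nat_lit 60) (nat_lit 11649936536080)) C.nil)) C.nil))) C.nil))) C.nil))) (List.cons (C.node (nat_lit 1) (nat_lit 2) (nat_lit 6) (C.cons (nat_lit 102) (C.miq (nat_lit 2317682529) (nat_lit 1281466737334751044796022979)) (C.cons (nat_lit 86) (C.miq (nat_lit 2586052449) (nat_lit 1262128351439494668292063427)) (C.cons (nat_lit 70) (C.node (nat_lit 1) (nat_lit 4) (nat_lit 6) (C.cons (nat_lit 90) (C.node (nat_lit 1) (nat_lit 3) (nat_lit 5) (C.cons (nat_lit 42) (C.node (nat_lit 2) (nat_lit 4) (nat_lit 6) (C.cons (nat_lit 84) (C.node (nat_lit 1) (nat_lit 4) (nat_lit 8) (C.cons (nat_lit 402) (C.miq (nat_lit 931217574) (nat_lit 485989839735121484248646769))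 (C.cons (nat_lit 274) (C.node (nat_lit 3) (nat_lit 6) (nat_lit 10) (C.cons (nat_lit 1608) (C.miq (nat_lit 1398868392) (nat_lit 108808691923504643719694209)) (C.cons (nat_lit 1096) (C.node (nat_lit 6) (nat_lit 9) (nat_lit 10) (C.cons (nat_lit 1600) (C.node (nat_lit 3) (nat_lit 9) (nat_lit 10) (C.cons (nat_lit 1560) (C.miq (nat_lit 2050361665) (nat_lit 1324986295953448079256584723)) (C.cons (nat_lit 1544) (C.node (nat_lit 4) (nat_lit 9) (nat_lit 10) (C.cons (nat_lit 1552) (C.node (nat_lit 1) (nat_lit 3) (nat_lit 7) (C.cons (nat_lit 650) (C.miq (nat_lit 2167907904) (nat_lit 785837219323740264817296497)) (C.cons (nat_lit 394) (C.node (nat_lit 1) (nat_lit 3) (nat_lit 9) (C.cons (nat_lit 522) (C.node (nat_lit 1) (nat_lit 4) (nat_lit 5) (C.cons (nat_lit 54) (C.miq (nat_lit 678510757) (nat_lit 476317769130320694408774769)) (C.cons (nat_lit 50) (C.node (nat_lit 1) (nat_lit 7) (nat_lit 9) (C.cons (nat_lit 646) (C.miq (nat_lit 1176570489)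 (nat_lit 84634602914169470423795585)) (C.cons (nat_lit 642) (C.node (nat_lit 3) (nat_lit 4) (nat_lit 10) (C.cons (nat_lit 1304) (C.node (nat_lit 3) (nat_lit 5) (nat_lit 10) (C.cons (nat_lit 1064) (C.node (nat_lit 5) (nat_lit 8) (nat_lit 10) (C.cons (nat_lit 1312) (C.node (nat_lit 4) (nat_lit 6) (nat_lit 7) (C.cons (nat_lit 720) (C.miq (nat_lit 641836944) (nat_lit 108822490275811773945939841)) (C.cons (nat_lit 464)
  (C.node (nat_lit 4) (nat_lit 6) (nat_lit 9) (C.cons (nat_lit 592) (C.node (nat_lit 1) (nat_lit 2) (nat_lit 4) (C.cons (nat_lit 150) (C.node (nat_lit 3) (nat_lit 4) (nat_lit 5) C.nil) C.nil)) C.nil)) (C.cons (nat_lit 208) (C.miq (nat_lit 2271490314) (nat_lit 251480625145016964011328527)) C.nil)))) C.nil)) C.nil)) (C.cons (nat_lit 1048) (C.miq (nat_lit 2319652359) (nat_lit 1266961527352166618695794883)) C.nil))) C.nil))) C.nil))) C.nil)) (C.cons (nat_lit 138) (C.miq (nat_lit 2167907904) (nat_lit 166867199681050127367734385))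 C.nil)))) C.nil)) C.nil))) C.nil)) C.nil))) C.nil))) C.nil)) C.nil)) (C.cons (nat_lit 82) (C.node (nat_lit 4) (nat_lit 6) (nat_lit 7) (C.cons (nat_lit 720) (C.miq (nat_lit 641836944) (nat_lit 99151083718894740548290433)) (C.cons (nat_lit 464) (C.miq (nat_lit 828639879) (nat_lit 99134739852701151746066305)) (C.cons (nat_lit 208) (C.node (nat_lit 4) (nat_lit 8) (nat_lit 10) (C.cons (nat_lit 1304) (C.miq (nat_lit 2255790339) (nat_lit 251480625412981141775385615)) (C.cons (nat_lit 1296) (C.node (nat_lit 2) (nat_lit 4) (nat_lit 6) (C.cons (nat_lit 92) (C.node (nat_lit 3) (nat_lit 6) (nat_lit 10) (C.cons (nat_lit 1608) (C.miq (nat_lit 881484297) (nat_lit 1566797524610926823067419205)) (C.cons (nat_lit 1096) (C.node (nat_lit 6) (nat_lit 9) (nat_lit 10) (C.cons (nat_lit 1600) (C.node (nat_lit 4) (nat_lit 6) (nat_lit 8) (C.cons (nat_lit 848) (C.miq (nat_lit 2520417312) (nat_lit 1325018134731690346982342933)) (C.cons (nat_lit 336)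 (C.node (nat_lit 4) (nat_lit 6) (nat_lit 9) (C.cons (nat_lit 592) (C.node (nat_lit 1) (nat_lit 3) (nat_lit 5) (C.cons (nat_lit 106) (C.miq (nat_lit 2167539044) (nat_lit 1256079036409617803560879217)) (C.cons (nat_lit 58) (C.miq (nat_lit 1899144518) (nat_lit 1256096431941199209665660017)) (C.cons (nat_lit 42) (C.node (nat_lit 2) (nat_lit 3) (nat_lit 9) (C.cons (nat_lit 780) (C.miq (nat_lit 2473230912) (nat_lit 1325018134712550048572440853)) (C.cons (nat_lit 652) (C.miq (nat_lit 1445137017) (nat_lit 111231376774060933877860225)) (C.cons (nat_lit 524) (C.node (nat_lit 6) (nat_lit 7) (nat_lit 9) (C.cons (nat_lit 736) (C.miq (nat_lit 1445034250) (nat_lit 84646685418663540060784513)) (C.cons (nat_lit 712) (C.miq (nat_lit 2268334434) (nat_lit 184970760689863169559757381)) (C.cons (nat_lit 704) (C.node (nat_lit 1) (nat_lit 3) (nat_lit 4) (C.cons (nat_lit 282) (C.node (nat_lit 3) (nat_lit 4) (nat_lit 5) (C.cons (nat_lit 56) (C.node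 (nat_lit 3) (nat_lit 4) (nat_lit 10) (C.cons (nat_lit 1560) (C.node (nat_lit 3) (nat_lit 5) (nat_lit 10) (C.cons (nat_lit 1320) (C.miq (nat_lit 1129421440) (nat_lit 50784680084024198154094465)) C.nil)) C.nil)) C.nil)) (C.cons (nat_lit 26) (C.node (nat_lit 3) (nat_lit 4) (nat_lit 10) (C.cons (nat_lit 1560) (C.node (nat_lit 3) (nat_lit 5) (nat_lit 10) (C.cons (nat_lit 1320) (C.miq (nat_lit 1129421440) (nat_lit 50784680084024198154094465)) C.nil)) C.nil)) C.nil))) C.nil)))) C.nil)))) C.nil)))) C.nil)) C.nil))) C.nil)) C.nil))) (C.cons (nat_lit 84) (C.node (nat_lit 3) (nat_lit 4) (nat_lit 10) (C.cons (nat_lit 1560) (C.node (nat_lit 3) (nat_lit 6) (nat_lit 10) (C.cons (nat_lit 1096) (C.node (nat_lit 6) (nat_lit 9) (nat_lit 10) (C.cons (nat_lit 1600) (C.node (nat_lit 3) (nat_lit 5) (nat_lit 10) (C.cons (nat_lit 1320) (C.miq (nat_lit 1250005840) (nat_lit 1627223948861500641970946601)) (C.cons (nat_lit 1064) (C.node (nat_lit 3)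 (nat_lit 8) (nat_lit 10) (C.cons (nat_lit 1288) (C.node (nat_lit 5) (nat_lit 8) (nat_lit 10) (C.cons (nat_lit 1312) (C.node (nat_lit 1) (nat_lit 3) (nat_lit 5) (C.cons (nat_lit 106) (C.miq (nat_lit 2590181397) (nat_lit 1324992899887825548154110243)) (C.cons (nat_lit 58) (C.miq (nat_lit 2318731585) (nat_lit 1286302440613211021780845075)) (C.cons (nat_lit 42) (C.node (nat_lit 1) (nat_lit 3) (nat_lit 7) (C.cons (nat_lit 650) (C.miq (nat_lit 828675850) (nat_lit 99160694312114151681492865)) (C.cons (nat_lit 394) (C.miq (nat_lit 878801064) (nat_lit 99139185268635188792002433)) (C.cons (nat_lit 138) (C.node (nat_lit 1) (nat_lit 7) (nat_lit 9)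
  (C.cons (nat_lit 646) (C.miq (nat_lit 1176570489) (nat_lit 84634602914169470423795585)) (C.cons (nat_lit 642) (C.node (nat_lit 1) (nat_lit 3) (nat_lit 4) (C.cons (nat_lit 282) (C.node (nat_lit 3) (nat_lit 4) (nat_lit 6) (C.cons (nat_lit 88) (C.node (nat_lit 1) (nat_lit 3) (nat_lit 6) (C.cons (nat_lit 586) (C.node (nat_lit 1) (nat_lit 5) (nat_lit 6) C.nil) C.nil)) C.nil)) (C.cons (nat_lit 26) (C.node (nat_lit 1) (nat_lit 3) (nat_lit 8) (C.cons (nat_lit 778) (C.miq (nat_lit 1125493120) (nat_lit 50795858810930538270099329)) (C.cons (nat_lit 266) (C.node (nat_lit 1) (nat_lit 3) (nat_lit 6) C.nil) C.nil))) C.nil))) C.nil))) C.nil)))) C.nil)))) C.nil)) C.nil)) C.nil))) C.nil)) C.nil)) (C.cons (nat_lit 1048) (C.node (nat_lit 4) (nat_lit 9) (nat_lit 10) (C.cons (nat_lit 1552) (C.node (nat_lit 3) (nat_lit 5) (nat_lit 10) (C.cons (nat_lit 1320) (C.node (nat_lit 3) (nat_lit 6) (nat_lit 10) (C.cons (nat_lit 1608) (C.miq (nat_lit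 1628022867) (nat_lit 641969272958705185252246824)) (C.cons (nat_lit 1096) (C.node (nat_lit 3) (nat_lit 9) (nat_lit 10) (C.cons (nat_lit 1544) (C.node (nat_lit 6) (nat_lit 9) (nat_lit 10) (C.cons (nat_lit 1600) (C.node (nat_lit 1) (nat_lit 3) (nat_lit 5) (C.cons (nat_lit 106) (C.miq (nat_lit 2050361425) (nat_lit 1324986295953447048465482019)) (C.cons (nat_lit 58) (C.miq (nat_lit 2587101265) (nat_lit 1266964054717953614485782819)) (C.cons (nat_lit 42) (C.node (nat_lit 4) (nat_lit 5) (nat_lit 8) (C.cons (nat_lit 816) (C.miq (nat_lit 1094029480) (nat_lit 50789937116446247522666369)) (C.cons (nat_lit 432) (C.miq (nat_lit 1201833232) (nat_lit 1474894609799558294525640995)) (C.cons (nat_lit 304) (C.node (nat_lit 1) (nat_lit 4) (nat_lit 5) (C.cons (nat_lit 54) (C.miq (nat_lit 1967694112) (nat_lit 367548885692042419484558351)) (C.cons (nat_lit 50) (C.node (nat_lit 1) (nat_lit 2) (nat_lit 4) (C.cons (nat_lit 150) (C.node (nat_lit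 4) (nat_lit 7) (nat_lit 8) C.nil) (C.cons (nat_lit 22) (C.node (nat_lit 1) (nat_lit 3) (nat_lit 4) C.nil) C.nil))) C.nil))) C.nil)))) C.nil)))) C.nil)) C.nil)) C.nil))) (C.cons (nat_lit 1064) (C.node (nat_lit 3) (nat_lit 8) (nat_lit 10) (C.cons (nat_lit 1288) (C.node (nat_lit 5) (nat_lit 8) (nat_lit 10) (C.cons (nat_lit 1312) (C.node (nat_lit 3) (nat_lit 6) (nat_lit 10) (C.cons (nat_lit 1608) (C.node (nat_lit 1) (nat_lit 3) (nat_lit 6) (C.cons (nat_lit 106) (C.node (nat_lit 1) (nat_lit 6) (nat_lit 9) (C.cons (nat_lit 578) (C.node (nat_lit 1) (nat_lit 3) (nat_lit 4) (C.cons (nat_lit 282) (C.miq (nat_lit 2467866192) (nat_lit 340952517779303241152136305)) (C.cons (nat_lit 26) (C.node (nat_lit 2) (nat_lit 5) (nat_lit 6) (C.cons (nat_lit 356) (C.miq (nat_lit 2522391312) (nat_lit 430413028430785800080393231)) (C.cons (nat_lit 100) (C.node (nat_lit 4) (nat_lit 6) (nat_lit 9) (C.cons (nat_lit 848) (C.miq (nat_lit 910338432) (nat_lit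 101568935467336839600605057)) C.nil)) C.nil))) C.nil))) C.nil)) (C.cons (nat_lit 74) (C.miq (nat_lit 1398868392) (nat_lit 89465878809670576924395393)) C.nil))) C.nil)) C.nil)) C.nil)) C.nil))) C.nil)) C.nil))) C.nil))) C.nil))) C.nil)))) C.nil))) C.nil)))) List.nil))

theorem ok11_61 : okL par11 (nat_lit 63) c11_61 (nat_lit 61) = true := by decide +kernel

noncomputable def c11_63 : List C :=
  (List.cons (C.node (nat_lit 3) (nat_lit 4) (nat_lit 5) (C.cons (nat_lit 312) (C.miq (nat_lit 2018779402) (nat_lit 377206475413595180929975311)) (C.cons (nat_lit 56) (C.node (nat_lit 4) (nat_lit 5) (nat_lit 7) (C.cons (nat_lit 688) (C.miq (nat_lit 609462160) (nat_lit 67719012395403445686306689)) (C.cons (nat_lit 432) (C.node (nat_lit 4) (nat_lit 5) (nat_lit 9) (C.cons (nat_lit 560) (C.node (nat_lit 1) (nat_lit 3) (nat_lit 4) (C.cons (nat_lit 282) (C.node (nat_lit 1) (nat_lit 8) (nat_lit 9) (C.cons (nat_lit 770) (C.node (nat_lit 1)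 (nat_lit 3) (nat_lit 5) (C.cons (nat_lit 106) (C.miq (nat_lit 2551384677) (nat_lit 340927282721517399943283825)) (C.cons (nat_lit 42) (C.node (nat_lit 6) (nat_lit 9) (nat_lit 10) (C.cons (nat_lit 1608) (C.miq (nat_lit 1632872457) (nat_lit 50804547167151518820927361)) (C.cons (nat_lit 1600) (C.node (nat_lit 1) (nat_lit 3) (nat_lit 6) (C.cons (nat_lit 586) (C.node (nat_lit 1) (nat_lit 3) (nat_lit 7) (C.cons (nat_lit 138) (C.node (nat_lit 1) (nat_lit 5) (nat_lit 6) (C.cons (nat_lit 98) (C.node (nat_lit 1) (nat_lit 5) (nat_lit 9) (C.cons (nat_lit 546) (C.node (nat_lit 1) (nat_lit 7) (nat_lit 9) (C.cons (nat_lit 642) (C.node (nat_lit 2) (nat_lit 4) (nat_lit 9) C.nil) C.nil)) C.nil)) C.nil)) C.nil)) (C.cons (nat_lit 74) (C.node (nat_lit 1) (nat_lit 3) (nat_lit 7) (C.cons (nat_lit 650) (C.node (nat_lit 1) (nat_lit 5) (nat_lit 6) (C.cons (nat_lit 610) (C.miq (nat_lit 961835360) (nat_lit 677001281518996970263347395)) (C.cons (nat_lit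 98) (C.node (nat_lit 1) (nat_lit 5) (nat_lit 9) (C.cons (nat_lit 546) (C.node (nat_lit 1) (nat_lit 6) (nat_lit 9) (C.cons (nat_lit 578) (C.node (nat_lit 2) (nat_lit 4) (nat_lit 9) C.nil) C.nil)) C.nil)) C.nil))) (C.cons (nat_lit 138) (C.node (nat_lit 1) (nat_lit 3) (nat_lit 9) (C.cons (nat_lit 522) (C.node (nat_lit 1) (nat_lit 7) (nat_lit 9) (C.cons (nat_lit 642) (C.node (nat_lit 1) (nat_lit 5) (nat_lit 6) (C.cons (nat_lit 610) (C.node (nat_lit 3) (nat_lit 9) (nat_lit 10) (C.cons (nat_lit 1560) (C.node (nat_lit 2) (nat_lit 4) (nat_lit 9) C.nil) C.nil)) (C.cons (nat_lit 98) (C.node (nat_lit 1) (nat_lit 5) (nat_lit 9) C.nil) C.nil))) C.nil)) C.nil)) C.nil))) C.nil))) C.nil))) C.nil))) C.nil)) (C.cons (nat_lit 26) (C.node (nat_lit 1) (nat_lit 4) (nat_lit 8) (C.cons (nat_lit 274) (C.node (nat_lit 1) (nat_lit 3) (nat_lit 5) (C.cons (nat_lit 106) (C.node (nat_lit 1) (nat_lit 5) (nat_lit 9) (C.cons (nat_lit 546) (C.node (nat_lit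 1) (nat_lit 6) (nat_lit 9) (C.cons (nat_lit 578) (C.node (nat_lit 1) (nat_lit 3) (nat_lit 7) (C.cons (nat_lit 650) (C.miq (nat_lit 2168038992) (nat_lit 785837219323740333562987633)) (C.cons (nat_lit 138) (C.node (nat_lit 1) (nat_lit 7) (nat_lit 9) (C.cons (nat_lit 642) (C.node (nat_lit 1) (nat_lit 3) (nat_lit 8) (C.cons (nat_lit 778) (C.node (nat_lit 2) (nat_lit 4) (nat_lit 6) (C.cons (nat_lit 92) (C.miq (nat_lit 2167539044) (nat_lit 1256079036409617803560879217)) (C.cons (nat_lit 84) (C.node (nat_lit 2) (nat_lit 3) (nat_lit 4) C.nil) C.nil))) (C.cons (nat_lit 266) (C.miq (nat_lit 2551384677) (nat_lit 321584469607683333147985009)) C.nil))) C.nil)) C.nil))) C.nil)) C.nil)) (C.cons (nat_lit 42) (C.node (nat_lit 1) (nat_lit 3) (nat_lit 8) (C.cons (nat_lit 778) (C.miq (nat_lit 1630906512) (nat_lit 50795858750694893271189377)) (C.cons (nat_lit 266) (C.node (nat_lit 1) (nat_lit 8) (nat_lit 9) (C.cons (nat_lit 770) (C.node (nat_lit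 6) (nat_lit 9) (nat_lit 10) (C.cons (nat_lit 1608) (C.miq (nat_lit 1632872457) (nat_lit 50804547167151518820927361)) (C.cons (nat_lit 1600) (C.node (nat_lit 1) (nat_lit 3) (nat_lit 6) (C.cons (nat_lit 586) (C.node (nat_lit 1) (nat_lit 3) (nat_lit 7) (C.cons (nat_lit 138) (C.node (nat_lit 1) (nat_lit 5) (nat_lit 6) (C.cons (nat_lit 98) (C.node (nat_lit 1) (nat_lit 5) (nat_lit 9) C.nil) C.nil)) C.nil)) (C.cons (nat_lit 74) (C.node (nat_lit 1) (nat_lit 3) (nat_lit 7) (C.cons (nat_lit 650) (C.node (nat_lit 1) (nat_lit 5) (nat_lit 6) (C.cons (nat_lit 610) (C.miq (nat_lit 961835360) (nat_lit 677001281518996970263347395)) (C.cons (nat_lit 98)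
  (C.node (nat_lit 1) (nat_lit 5) (nat_lit 9) C.nil) C.nil))) (C.cons (nat_lit 138) (C.node (nat_lit 1) (nat_lit 3) (nat_lit 9) (C.cons (nat_lit 522) (C.node (nat_lit 1) (nat_lit 7) (nat_lit 9) (C.cons (nat_lit 642) (C.node (nat_lit 1) (nat_lit 5) (nat_lit 6) C.nil) C.nil)) C.nil)) C.nil))) C.nil))) C.nil))) C.nil)) C.nil))) C.nil))) C.nil)) C.nil))) C.nil)) (C.cons (nat_lit 176) (C.miq (nat_lit 2236027042) (nat_lit 212778138564277583150842895)) C.nil)))) C.nil))) (List.cons (C.node (nat_lit 1) (nat_lit 3) (nat_lit 5) (C.cons (nat_lit 106) (C.miq (nat_lit 1738739845) (nat_lit 1402355906162737527048896803)) (C.cons (nat_lit 58) (C.miq (nat_lit 2587101265) (nat_lit 1266964054717953614485782819)) (C.cons (nat_lit 42) (C.node (nat_lit 1) (nat_lit 4) (nat_lit 5) (C.cons (nat_lit 54) (C.node (nat_lit 3) (nat_lit 4) (nat_lit 5) (C.cons (nat_lit 56) (C.node (nat_lit 1) (nat_lit 2) (nat_lit 6) (C.cons (nat_lit 326) (C.miq (nat_lit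 1898489152) (nat_lit 394145253723564261328094321)) (C.cons (nat_lit 70) (C.node (nat_lit 1) (nat_lit 4) (nat_lit 7) (C.cons (nat_lit 402) (C.miq (nat_lit 678510757) (nat_lit 485989175687237727806424177)) (C.cons (nat_lit 146) (C.node (nat_lit 2) (nat_lit 5) (nat_lit 10) (C.cons (nat_lit 1572) (C.miq (nat_lit 1649478055) (nat_lit 65285591537828062031906689)) (C.cons (nat_lit 1060) (C.node (nat_lit 5) (nat_lit 9) (nat_lit 10) (C.cons (nat_lit 1568) (C.node (nat_lit 2) (nat_lit 9) (nat_lit 10) (C.cons (nat_lit 1556) (C.miq (nat_lit 2317683009) (nat_lit 1281466737334752487901889043)) (C.cons (nat_lit 1540) (C.node (nat_lit 4) (nat_lit 9) (nat_lit 10) (C.cons (nat_lit 1552) (C.node (nat_lit 1) (nat_lit 2) (nat_lit 7) (C.cons (nat_lit 646) (C.miq (nat_lit 1361487760) (nat_lit 84645781654867946955409281)) (C.cons (nat_lit 390) (C.node (nat_lit 1) (nat_lit 2) (nat_lit 9) (C.cons (nat_lit 518) (C.node (nat_lit 2) (nat_lit 4) (nat_lit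 10) (C.cons (nat_lit 1172) (C.node (nat_lit 6) (nat_lit 7) (nat_lit 10) (C.cons (nat_lit 1216) (C.node (nat_lit 4) (nat_lit 5) (nat_lit 7) (C.cons (nat_lit 688) (C.miq (nat_lit 609462160) (nat_lit 67719012395403445686306689)) (C.cons (nat_lit 432) (C.node (nat_lit 4) (nat_lit 5) (nat_lit 9) (C.cons (nat_lit 560) (C.node (nat_lit 1) (nat_lit 3) (nat_lit 7) (C.cons (nat_lit 650) (C.node (nat_lit 1) (nat_lit 5) (nat_lit 6) (C.cons (nat_lit 610) (C.miq (nat_lit 961835360) (nat_lit 677001281518996970263347395)) (C.cons (nat_lit 98) (C.node (nat_lit 1) (nat_lit 5) (nat_lit 9) (C.cons (nat_lit 546) (C.node (nat_lit 2) (nat_lit 6) (nat_lit 10) (C.cons (nat_lit 1348) (C.node (nat_lit 2) (nat_lit 5) (nat_lit 8) C.nil) C.nil)) C.nil)) C.nil))) (C.cons (nat_lit 138) (C.node (nat_lit 1) (nat_lit 7) (nat_lit 9) (C.cons (nat_lit 642) (C.node (nat_lit 1) (nat_lit 5) (nat_lit 6) (C.cons (nat_lit 610) (C.node (nat_lit 2) (nat_lit 6) (nat_lit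 10) (C.cons (nat_lit 1348) (C.miq (nat_lit 2257953283) (nat_lit 737469100046531857197106191)) C.nil)) (C.cons (nat_lit 98) (C.node (nat_lit 1) (nat_lit 5) (nat_lit 9) (C.cons (nat_lit 546) (C.node (nat_lit 2) (nat_lit 6) (nat_lit 10) (C.cons (nat_lit 1348) (C.node (nat_lit 2) (nat_lit 5) (nat_lit 8) C.nil) C.nil)) C.nil)) C.nil))) C.nil)) C.nil))) C.nil)) (C.cons (nat_lit 176) (C.miq (nat_lit 2236027042) (nat_lit 212778138564277583150842895)) C.nil)))) C.nil)) (C.cons (nat_lit 1044) (C.miq (nat_lit 2051151112) (nat_lit 1262125750241695810893185315)) C.nil))) C.nil)) (C.cons (nat_lit 134) (C.miq (nat_lit 2266106452) (nat_lit 162001170117187251052348529)) C.nil)))) C.nil)) C.nil))) C.nil)) C.nil))) C.nil))) C.nil))) C.nil)) (C.cons (nat_lit 50) (C.node (nat_lit 4) (nat_lit 5) (nat_lit 8) (C.cons (nat_lit 816) (C.miq (nat_lit 893495440) (nat_lit 60465457519374516945618817)) (C.cons (nat_lit 432) (C.miq (nat_lit 559155832)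 (nat_lit 60451401021297470943004545)) (C.cons (nat_lit 304) (C.node (nat_lit 4) (nat_lit 7) (nat_lit 10) (C.cons (nat_lit 1172) (C.miq (nat_lit 1971626242) (nat_lit 367535069080732228937647119)) (C.cons (nat_lit 1168)
  (C.node (nat_lit 2) (nat_lit 4) (nat_lit 10) (C.cons (nat_lit 1556) (C.node (nat_lit 2) (nat_lit 5) (nat_lit 10) (C.cons (nat_lit 1060) (C.node (nat_lit 5) (nat_lit 9) (nat_lit 10) (C.cons (nat_lit 1568) (C.node (nat_lit 2) (nat_lit 7) (nat_lit 10) (C.cons (nat_lit 1220) (C.miq (nat_lit 1248957024) (nat_lit 1433795817722033644608094789)) (C.cons (nat_lit 1156) (C.node (nat_lit 6) (nat_lit 7) (nat_lit 10) (C.cons (nat_lit 1216) (C.node (nat_lit 2) (nat_lit 6) (nat_lit 10) (C.cons (nat_lit 1348) (C.node (nat_lit 3) (nat_lit 6) (nat_lit 10) (C.cons (nat_lit 1608) (C.miq (nat_lit 2181408403) (nat_lit 44754605407349340090467912)) (C.cons (nat_lit 1096) (C.node (nat_lit 3) (nat_lit 9) (nat_lit 10) (C.cons (nat_lit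 1544) (C.node (nat_lit 6) (nat_lit 9) (nat_lit 10) (C.cons (nat_lit 1600) (C.node (nat_lit 2) (nat_lit 3) (nat_lit 8) (C.cons (nat_lit 780) (C.node (nat_lit 1) (nat_lit 2) (nat_lit 8) (C.cons (nat_lit 390) (C.miq (nat_lit 609321127) (nat_lit 60453485288893657464833921)) (C.cons (nat_lit 262) (C.node (nat_lit 1) (nat_lit 8) (nat_lit 9) (C.cons (nat_lit 834) (C.miq (nat_lit 1486267168) (nat_lit 1008265107878162858835772431)) (C.cons (nat_lit 770) (C.node (nat_lit 3) (nat_lit 4) (nat_lit 5) (C.cons (nat_lit 60) (C.miq (nat_lit 1647683728) (nat_lit 72556523504321176959256449)) (C.cons (nat_lit 56) (C.node (nat_lit 2) (nat_lit 3) (nat_lit 4) (C.cons (nat_lit 92) (C.miq (nat_lit 1445137033) (nat_lit 111231376774061483642062721)) (C.cons (nat_lit 28) (C.node (nat_lit 4) (nat_lit 8) (nat_lit 9) (C.cons (nat_lit 848) (C.miq (nat_lit 680633920) (nat_lit 930892047649788959520916593)) (C.cons (nat_lit 784) (C.node (nat_lit 3) (nat_lit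 4) (nat_lit 9) (C.cons (nat_lit 600) (C.node (nat_lit 1) (nat_lit 6) (nat_lit 9) (C.cons (nat_lit 610) (C.miq (nat_lit 2305110538) (nat_lit 737469099886654070463726607)) C.nil)) C.nil)) C.nil))) C.nil))) C.nil))) C.nil))) C.nil))) (C.cons (nat_lit 396) (C.miq (nat_lit 2458060453) (nat_lit 478744825780408665737004145)) (C.cons (nat_lit 268) (C.miq (nat_lit 2458060453) (nat_lit 324002320869736131374613617)) C.nil)))) C.nil)) C.nil)) C.nil))) (C.cons (nat_lit 1092) (C.node (nat_lit 2) (nat_lit 8) (nat_lit 10) (C.cons (nat_lit 1284) (C.node (nat_lit 6) (nat_lit 8) (nat_lit 10) (C.cons (nat_lit 1344) (C.node (nat_lit 3) (nat_lit 6) (nat_lit 10) (C.cons (nat_lit 1608) (C.node (nat_lit 4) (nat_lit 6) (nat_lit 9) (C.cons (nat_lit 848) (C.miq (nat_lit 914401602) (nat_lit 388084354716003954005968404)) (C.cons (nat_lit 720) (C.miq (nat_lit 1956735264) (nat_lit 1259704301356206639675277893)) (C.cons (nat_lit 592) (C.node (nat_lit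 6) (nat_lit 7) (nat_lit 9) (C.cons (nat_lit 736) (C.miq (nat_lit 2510448400) (nat_lit 1281472086556984427196383427)) (C.cons (nat_lit 704) (C.node (nat_lit 3) (nat_lit 4) (nat_lit 5) (C.cons (nat_lit 60) (C.node (nat_lit 4) (nat_lit 5) (nat_lit 7) (C.cons (nat_lit 688) (C.miq (nat_lit 2502587440) (nat_lit 1281496805180527562980262041)) (C.cons (nat_lit 176) (C.node (nat_lit 4) (nat_lit 5) (nat_lit 9) (C.cons (nat_lit 560) (C.node (nat_lit 4) (nat_lit 7) (nat_lit 9) C.nil) C.nil)) C.nil))) (C.cons (nat_lit 56) (C.node (nat_lit 2) (nat_lit 3) (nat_lit 4) (C.cons (nat_lit 92) (C.miq (nat_lit 2305034802) (nat_lit 715689195500689225546466319)) (C.cons (nat_lit 28) (C.node (nat_lit 2) (nat_lit 4) (nat_lit 5) (C.cons (nat_lit 180) (C.node (nat_lit 4) (nat_lit 5) (nat_lit 9) C.nil) (C.cons (nat_lit 52) (C.node (nat_lit 4) (nat_lit 5) (nat_lit 7) C.nil) C.nil))) C.nil))) C.nil))) C.nil))) C.nil)))) C.nil)) C.nil)) C.nil)) C.nil)))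 C.nil)) C.nil))) C.nil)) C.nil)) (C.cons (nat_lit 1044) (C.node (nat_lit 4) (nat_lit 9) (nat_lit 10) (C.cons (nat_lit 1552) (C.node (nat_lit 2) (nat_lit 5) (nat_lit 10) (C.cons (nat_lit 1572) (C.node (nat_lit 1) (nat_lit 2) (nat_lit 5) (C.cons (nat_lit 102) (C.node (nat_lit 1) (nat_lit 5) (nat_lit 9) (C.cons (nat_lit 546) (C.node (nat_lit 1) (nat_lit 2) (nat_lit 4) (C.cons (nat_lit 150) (C.miq (nat_lit 2451023200) (nat_lit 181374309580039073743176817))
  (C.cons (nat_lit 22) (C.node (nat_lit 2) (nat_lit 7) (nat_lit 10) (C.cons (nat_lit 1220) (C.miq (nat_lit 2317682529) (nat_lit 1900436756977441182245585091)) (C.cons (nat_lit 1156) (C.node (nat_lit 6) (nat_lit 7) (nat_lit 10) (C.cons (nat_lit 1216) (C.node (nat_lit 2) (nat_lit 6) (nat_lit 10) (C.cons (nat_lit 1348) (C.miq (nat_lit 2198250898) (nat_lit 88276451414428634642187812)) (C.cons (nat_lit 1092) (C.node (nat_lit 2) (nat_lit 8) (nat_lit 10) (C.cons (nat_lit 1284)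 (C.node (nat_lit 6) (nat_lit 8) (nat_lit 10) (C.cons (nat_lit 1344) (C.node (nat_lit 3) (nat_lit 6) (nat_lit 10) (C.cons (nat_lit 1608) (C.node (nat_lit 3) (nat_lit 4) (nat_lit 5) (C.cons (nat_lit 60) (C.miq (nat_lit 1898120788) (nat_lit 1256076748986331048630289521)) (C.cons (nat_lit 56) (C.node (nat_lit 1) (nat_lit 4) (nat_lit 7) (C.cons (nat_lit 402) (C.node (nat_lit 1) (nat_lit 2) (nat_lit 8) (C.cons (nat_lit 774) (C.miq (nat_lit 2032208470) (nat_lit 935712182037537536541590641)) C.nil)) C.nil)) C.nil))) C.nil)) C.nil)) C.nil)) C.nil))) C.nil)) C.nil))) C.nil))) C.nil)) (C.cons (nat_lit 38) (C.miq (nat_lit 1649478055) (nat_lit 45942778423993995236607873)) C.nil))) (C.cons (nat_lit 1060) (C.node (nat_lit 2) (nat_lit 9) (nat_lit 10) (C.cons (nat_lit 1540) (C.node (nat_lit 5) (nat_lit 9) (nat_lit 10) (C.cons (nat_lit 1568) (C.node (nat_lit 2) (nat_lit 7) (nat_lit 10) (C.cons (nat_lit 1220) (C.node (nat_lit 2) (nat_lit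 8) (nat_lit 10) (C.cons (nat_lit 1284) (C.node (nat_lit 6) (nat_lit 8) (nat_lit 10) (C.cons (nat_lit 1344) (C.node (nat_lit 3) (nat_lit 6) (nat_lit 10) (C.cons (nat_lit 1608) (C.node (nat_lit 2) (nat_lit 4) (nat_lit 6) (C.cons (nat_lit 92) (C.miq (nat_lit 2318666082) (nat_lit 1266959369244960129212482117)) (C.cons (nat_lit 86) (C.miq (nat_lit 2586052449) (nat_lit 1262128351439494668292063427)) (C.cons (nat_lit 84) (C.node (nat_lit 4) (nat_lit 6) (nat_lit 9) (C.cons (nat_lit 848) (C.miq (nat_lit 910338432) (nat_lit 101568935467336839600605057)) (C.cons (nat_lit 720) (C.miq (nat_lit 308546169) (nat_lit 101559564361189731156887425)) (C.cons (nat_lit 592) (C.node (nat_lit 6) (nat_lit 7) (nat_lit 9) (C.cons (nat_lit 736) (C.miq (nat_lit 2510448400) (nat_lit 1281472086556984427196383427)) (C.cons (nat_lit 704) (C.node (nat_lit 1) (nat_lit 2) (nat_lit 4) (C.cons (nat_lit 150) (C.node (nat_lit 1) (nat_lit 7) (nat_lit 8) (C.cons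 (nat_lit 394) (C.miq (nat_lit 1697712775) (nat_lit 50778481858951516602894209)) (C.cons (nat_lit 386) (C.node (nat_lit 1) (nat_lit 3) (nat_lit 7) (C.cons (nat_lit 650) (C.node (nat_lit 4) (nat_lit 5) (nat_lit 7) (C.cons (nat_lit 688) (C.miq (nat_lit 1463437584) (nat_lit 1402374924894639226193117715)) (C.cons (nat_lit 176) (C.node (nat_lit 4) (nat_lit 7) (nat_lit 9) C.nil) C.nil))) (C.cons (nat_lit 138) (C.node (nat_lit 1) (nat_lit 7) (nat_lit 9) C.nil) C.nil))) C.nil))) (C.cons (nat_lit 22) (C.node (nat_lit 1) (nat_lit 2) (nat_lit 7) (C.cons (nat_lit 646) (C.miq (nat_lit 1645520784) (nat_lit 26617342322935895774398337)) (C.cons (nat_lit 390) (C.miq (nat_lit 1361356672) (nat_lit 26617342313364647037962113)) (C.cons (nat_lit 134) (C.node (nat_lit 1) (nat_lit 4) (nat_lit 7) (C.cons (nat_lit 402) (C.node (nat_lit 4) (nat_lit 6) (nat_lit 7) C.nil) (C.cons (nat_lit 146) (C.node (nat_lit 1) (nat_lit 7) (nat_lit 8) C.nil) C.nil)))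 C.nil)))) C.nil))) C.nil))) C.nil)))) C.nil)))) C.nil)) C.nil)) C.nil)) (C.cons (nat_lit 1156) (C.node (nat_lit 6) (nat_lit 7) (nat_lit 10) (C.cons (nat_lit 1216) (C.node (nat_lit 2) (nat_lit 6) (nat_lit 10) (C.cons (nat_lit 1348) (C.node (nat_lit 3) (nat_lit 6) (nat_lit 10) (C.cons (nat_lit 1608) (C.miq (nat_lit 2181408403) (nat_lit 44754605407349340090467912)) C.nil)) C.nil)) C.nil)) C.nil))) C.nil)) C.nil)) C.nil))) C.nil)) C.nil))) C.nil))) C.nil)))) C.nil))) C.nil)))) (List.cons (C.node (nat_lit 4) (nat_lit 8) (nat_lit 10) (C.cons (nat_lit 1304) (C.node (nat_lit 4) (nat_lit 9) (nat_lit 10) (C.cons (nat_lit 1552) (C.node (nat_lit 6) (nat_lit 8) (nat_lit 10) (C.cons (nat_lit 1344)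
  (C.node (nat_lit 3) (nat_lit 6) (nat_lit 10) (C.cons (nat_lit 1608) (C.node (nat_lit 3) (nat_lit 4) (nat_lit 9) (C.cons (nat_lit 540) (C.miq (nat_lit 1665309312) (nat_lit 652830660602823942797068161)) (C.cons (nat_lit 536) (C.node (nat_lit 2) (nat_lit 3) (nat_lit 4) (C.cons (nat_lit 92) (C.node (nat_lit 1) (nat_lit 3) (nat_lit 4) (C.cons (nat_lit 58) (C.miq (nat_lit 1899144518) (nat_lit 1256096431941199209665660017)) (C.cons (nat_lit 26) (C.node (nat_lit 3) (nat_lit 4) (nat_lit 5) (C.cons (nat_lit 56) (C.node (nat_lit 1) (nat_lit 3) (nat_lit 5) (C.cons (nat_lit 106) (C.miq (nat_lit 2167539044) (nat_lit 1256079036409617803560879217)) (C.cons (nat_lit 42) (C.node (nat_lit 1) (nat_lit 4) (nat_lit 6) (C.cons (nat_lit 338) (C.miq (nat_lit 2521342752) (nat_lit 408652363677722414805222415)) (C.cons (nat_lit 82) (C.node (nat_lit 2) (nat_lit 3) (nat_lit 9) (C.cons (nat_lit 780) (C.node (nat_lit 1) (nat_lit 8) (nat_lit 9) (C.cons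 (nat_lit 834) (C.miq (nat_lit 1184369202) (nat_lit 1008249243626753104129295375)) (C.cons (nat_lit 770) (C.node (nat_lit 4) (nat_lit 6) (nat_lit 8) (C.cons (nat_lit 848) (C.node (nat_lit 4) (nat_lit 6) (nat_lit 7) (C.cons (nat_lit 208) (C.node (nat_lit 5) (nat_lit 8) (nat_lit 9) (C.cons (nat_lit 800) (C.node (nat_lit 4) (nat_lit 5) (nat_lit 8) (C.cons (nat_lit 432) (C.miq (nat_lit 1201833232) (nat_lit 1474894609799558294525640995)) C.nil)) C.nil)) C.nil)) (C.cons (nat_lit 464) (C.miq (nat_lit 878815344) (nat_lit 99151083742537539058337665)) (C.cons (nat_lit 336) (C.miq (nat_lit 2554737162) (nat_lit 406228737974537599275041807)) C.nil)))) C.nil))) (C.cons (nat_lit 652) (C.miq (nat_lit 1445137017) (nat_lit 111231376774060933877860225)) (C.cons (nat_lit 524) (C.miq (nat_lit 2301758052) (nat_lit 633482239766894441666446449)) C.nil)))) C.nil))) C.nil))) C.nil)) C.nil))) (C.cons (nat_lit 60) (C.miq (nat_lit 1665309312) (nat_lit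 72546267187801938938103681)) (C.cons (nat_lit 28) (C.miq (nat_lit 1665309312) (nat_lit 33860640960133805347506049)) C.nil)))) C.nil))) C.nil)) C.nil)) C.nil)) (C.cons (nat_lit 1296) (C.node (nat_lit 3) (nat_lit 4) (nat_lit 10) (C.cons (nat_lit 1560) (C.node (nat_lit 6) (nat_lit 9) (nat_lit 10) (C.cons (nat_lit 1600) (C.ref (nat_lit 58) (nat_lit 11077363730320)) C.nil)) (C.cons (nat_lit 1048) (C.node (nat_lit 4) (nat_lit 9) (nat_lit 10) C.nil) C.nil))) C.nil))) List.nil)))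

theorem ok11_63 : okL par11 (nat_lit 66) c11_63 (nat_lit 63) = true := by decide +kernel

noncomputable def c11_66 : List C :=
  (List.cons (C.node (nat_lit 1) (nat_lit 9) (nat_lit 10) (C.cons (nat_lit 1538) (C.node (nat_lit 3) (nat_lit 5) (nat_lit 10) (C.cons (nat_lit 1320) (C.node (nat_lit 4) (nat_lit 8) (nat_lit 10) (C.cons (nat_lit 1296) (C.node (nat_lit 3) (nat_lit 4) (nat_lit 10) (C.cons (nat_lit 1560) (C.miq (nat_lit 1250005840) (nat_lit 1549852696406164374789751337)) (C.cons (nat_lit 1048) (C.node (nat_lit 3) (nat_lit 7) (nat_lit 10) (C.cons (nat_lit 1224) (C.miq (nat_lit 1669364305) (nat_lit 320368939657502145529447586)) (C.cons (nat_lit 1160) (C.ref (nat_lit 64) (nat_lit 11649936536080)) C.nil))) C.nil))) C.nil)) (C.cons (nat_lit 1064) (C.node (nat_lit 3) (nat_lit 7) (nat_lit 10) (C.cons (nat_lit 1224) (C.node (nat_lit 6) (nat_lit 9) (nat_lit 10) (C.cons (nat_lit 1600) (C.node (nat_lit 3) (nat_lit 9) (nat_lit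 10) (C.cons (nat_lit 1560) (C.miq (nat_lit 1787917120) (nat_lit 1859331508026926115738288281)) (C.cons (nat_lit 1544) (C.ref (nat_lit 64) (nat_lit 11297248326160)) C.nil))) C.nil)) (C.cons (nat_lit 1160) (C.node (nat_lit 4) (nat_lit 7) (nat_lit 10) (C.cons (nat_lit 1172) (C.node (nat_lit 6) (nat_lit 7) (nat_lit 10) (C.cons (nat_lit 1216) (C.node (nat_lit 1) (nat_lit 4) (nat_lit 7) (C.cons (nat_lit 402) (C.miq (nat_lit 672612442) (nat_lit 486009799147105134288438385)) (C.cons (nat_lit 146) (C.node (nat_lit 5) (nat_lit 8) (nat_lit 10) (C.cons (nat_lit 1316) (C.miq (nat_lit 1896129922) (nat_lit 641961230133253051595949348)) (C.cons (nat_lit 1312) (C.node (nat_lit 1) (nat_lit 2) (nat_lit 7) (C.cons (nat_lit 646) (C.miq (nat_lit 2171733412) (nat_lit 780971189301073176536810609)) (C.cons (nat_lit 390) (C.node (nat_lit 1) (nat_lit 2) (nat_lit 9) (C.cons (nat_lit 550) (C.miq (nat_lit 1158810232) (nat_lit 664914310856196606010984321))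 (C.cons (nat_lit 518) (C.node (nat_lit 1) (nat_lit 2) (nat_lit 4) (C.cons (nat_lit 86) (C.miq (nat_lit 1361356672) (nat_lit 103988594768700914219157377)) (C.cons (nat_lit 54) (C.node (nat_lit 1) (nat_lit 2) (nat_lit 6) (C.cons (nat_lit 70) (C.node (nat_lit 2) (nat_lit 5) (nat_lit 10) (C.cons (nat_lit 1572) (C.miq (nat_lit 891554215) (nat_lit 65284816766695666881922945)) (C.cons (nat_lit 1060) (C.node (nat_lit 2) (nat_lit 9) (nat_lit 10) (C.cons (nat_lit 1540) (C.node (nat_lit 5) (nat_lit 9) (nat_lit 10) (C.cons (nat_lit 1568) (C.node (nat_lit 3) (nat_lit 4) (nat_lit 5) (C.cons (nat_lit 312) (C.miq (nat_lit 2018779402) (nat_lit 377206475413595180929975311)) (C.cons (nat_lit 56) (C.node (nat_lit 4) (nat_lit 5) (nat_lit 7) (C.cons (nat_lit 688) (C.miq (nat_lit 609462160) (nat_lit 67719012395403445686306689)) (C.cons (nat_lit 432) (C.node (nat_lit 4) (nat_lit 5) (nat_lit 9) (C.cons (nat_lit 560) (C.node (nat_lit 1) (nat_lit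 3) (nat_lit 5) (C.cons (nat_lit 106) (C.node (nat_lit 1) (nat_lit 5) (nat_lit 9) (C.cons (nat_lit 546) (C.node (nat_lit 1) (nat_lit 3) (nat_lit 7) (C.cons (nat_lit 650) (C.miq (nat_lit 2472178016) (nat_lit 1286332508448290228139000003)) (C.cons (nat_lit 138) (C.node (nat_lit 1) (nat_lit 7) (nat_lit 9) (C.cons (nat_lit 642) (C.node (nat_lit 1) (nat_lit 3) (nat_lit 9) (C.cons (nat_lit 778) (C.miq (nat_lit 2171245392) (nat_lit 1317764579794299383700324905)) (C.cons (nat_lit 522) (C.node (nat_lit 2) (nat_lit 4) (nat_lit 6) (C.cons (nat_lit 92) (C.miq (nat_lit 2167539044) (nat_lit 1256079036409617803560879217)) (C.cons (nat_lit 84) (C.node (nat_lit 6) (nat_lit 9) (nat_lit 10) (C.cons (nat_lit 1608) (C.miq (nat_lit 2301692517) (nat_lit 631064646382082215251674225)) (C.cons (nat_lit 1600) (C.node (nat_lit 2) (nat_lit 6) (nat_lit 10) (C.cons (nat_lit 1348) (C.node (nat_lit 3) (nat_lit 6) (nat_lit 10) C.nil) C.nil)) C.nil))) C.nil)))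 C.nil))) C.nil)) C.nil))) C.nil)) (C.cons (nat_lit 42) (C.node (nat_lit 1) (nat_lit 3) (nat_lit 7) (C.cons (nat_lit 650) (C.node (nat_lit 1) (nat_lit 5) (nat_lit 6) (C.cons (nat_lit 610) (C.miq (nat_lit 961835360) (nat_lit 677001281518996970263347395)) (C.cons (nat_lit 98) (C.node (nat_lit 1) (nat_lit 5) (nat_lit 9) (C.cons (nat_lit 546)
  (C.node (nat_lit 4) (nat_lit 6) (nat_lit 7) (C.cons (nat_lit 720) (C.miq (nat_lit 1731873040) (nat_lit 1402374924903646425447858707)) (C.cons (nat_lit 208) (C.node (nat_lit 4) (nat_lit 7) (nat_lit 9) (C.cons (nat_lit 656) (C.node (nat_lit 2) (nat_lit 7) (nat_lit 9) (C.cons (nat_lit 644) (C.node (nat_lit 3) (nat_lit 7) (nat_lit 8) C.nil) C.nil)) C.nil)) C.nil))) C.nil)) C.nil))) (C.cons (nat_lit 138) (C.node (nat_lit 1) (nat_lit 7) (nat_lit 9) (C.cons (nat_lit 642) (C.node (nat_lit 1) (nat_lit 5) (nat_lit 6) (C.cons (nat_lit 610) (C.node (nat_lit 1) (nat_lit 3) (nat_lit 9) (C.cons (nat_lit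 778) (C.node (nat_lit 1) (nat_lit 4) (nat_lit 8) (C.cons (nat_lit 338) (C.miq (nat_lit 810063201) (nat_lit 334886803755802172945728098)) (C.cons (nat_lit 274) (C.node (nat_lit 1) (nat_lit 6) (nat_lit 8) (C.cons (nat_lit 322) (C.node (nat_lit 1) (nat_lit 3) (nat_lit 4) (C.cons (nat_lit 90) (C.node (nat_lit 2) (nat_lit 4) (nat_lit 6) (C.cons (nat_lit 84) (C.node (nat_lit 3) (nat_lit 4) (nat_lit 8) (C.cons (nat_lit 280) (C.node (nat_lit 3) (nat_lit 4) (nat_lit 10) C.nil) C.nil)) C.nil)) C.nil)) C.nil)) C.nil))) (C.cons (nat_lit 522) (C.node (nat_lit 1) (nat_lit 8) (nat_lit 9) (C.cons (nat_lit 770) (C.node (nat_lit 2) (nat_lit 4) (nat_lit 6) (C.cons (nat_lit 92) (C.node (nat_lit 2) (nat_lit 4) (nat_lit 9) (C.cons (nat_lit 532) (C.node (nat_lit 4) (nat_lit 9) (nat_lit 10) C.nil) C.nil)) (C.cons (nat_lit 84) (C.node (nat_lit 2) (nat_lit 3) (nat_lit 4) (C.cons (nat_lit 540) (C.node (nat_lit 4) (nat_lit 9) (nat_lit 10) (C.cons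 (nat_lit 1552) (C.node (nat_lit 2) (nat_lit 7) (nat_lit 9) C.nil) C.nil)) (C.cons (nat_lit 28) (C.node (nat_lit 2) (nat_lit 4) (nat_lit 9) (C.cons (nat_lit 532) (C.node (nat_lit 4) (nat_lit 7) (nat_lit 9) C.nil) C.nil)) C.nil))) C.nil))) C.nil)) C.nil))) (C.cons (nat_lit 98) (C.node (nat_lit 1) (nat_lit 5) (nat_lit 9) (C.cons (nat_lit 546) (C.node (nat_lit 2) (nat_lit 4) (nat_lit 6) (C.cons (nat_lit 92) (C.node (nat_lit 2) (nat_lit 4) (nat_lit 9) (C.cons (nat_lit 532) (C.node (nat_lit 1) (nat_lit 3) (nat_lit 4) (C.cons (nat_lit 282) (C.node (nat_lit 1) (nat_lit 4) (nat_lit 6) C.nil) C.nil)) C.nil)) (C.cons (nat_lit 84) (C.node (nat_lit 2) (nat_lit 3) (nat_lit 4) (C.cons (nat_lit 540) (C.node (nat_lit 4) (nat_lit 9) (nat_lit 10) (C.cons (nat_lit 1552) (C.node (nat_lit 2) (nat_lit 6) (nat_lit 10) (C.cons (nat_lit 1348) (C.node (nat_lit 3) (nat_lit 4) (nat_lit 10) C.nil) C.nil)) C.nil)) (C.cons (nat_lit 28) (C.node (nat_lit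 2) (nat_lit 4) (nat_lit 9) (C.cons (nat_lit 532) (C.node (nat_lit 2) (nat_lit 6) (nat_lit 10) C.nil) C.nil)) C.nil))) C.nil))) C.nil)) C.nil))) C.nil)) C.nil))) C.nil))) C.nil)) (C.cons (nat_lit 176) (C.miq (nat_lit 2236027042) (nat_lit 212778138564277583150842895)) C.nil)))) C.nil))) C.nil)) C.nil)) C.nil))) C.nil)) (C.cons (nat_lit 22) (C.miq (nat_lit 1361356672) (nat_lit 26617342313364647037962113)) C.nil)))) C.nil))) (C.cons (nat_lit 134) (C.miq (nat_lit 2171733412) (nat_lit 162001169658383039087248497)) C.nil)))) C.nil))) C.nil))) C.nil)) (C.cons (nat_lit 1168) (C.node (nat_lit 2) (nat_lit 4) (nat_lit 10) (C.cons (nat_lit 1556) (C.node (nat_lit 5) (nat_lit 9) (nat_lit 10) (C.cons (nat_lit 1568) (C.node (nat_lit 2) (nat_lit 5) (nat_lit 10) (C.cons (nat_lit 1316) (C.miq (nat_lit 1519485504) (nat_lit 1859333278940252872532754709)) (C.cons (nat_lit 1060) (C.node (nat_lit 5) (nat_lit 8) (nat_lit 10) (C.cons (nat_lit 1312)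 (C.node (nat_lit 2) (nat_lit 7) (nat_lit 10) (C.cons (nat_lit 1220) (C.miq (nat_lit 1248957024) (nat_lit 1433795817722033644608094789)) (C.cons (nat_lit 1156) (C.node (nat_lit 6) (nat_lit 7) (nat_lit 10) (C.cons (nat_lit 1216) (C.node (nat_lit 2) (nat_lit 6) (nat_lit 10) (C.cons (nat_lit 1348) (C.node (nat_lit 1) (nat_lit 2) (nat_lit 6) (C.cons (nat_lit 102) (C.miq (nat_lit 2589067030) (nat_lit 1281472086890532274537103555)) (C.cons (nat_lit 86) (C.miq (nat_lit 2049313089) (nat_lit 1629635602496334614102409747)) (C.cons (nat_lit 70) (C.node (nat_lit 1) (nat_lit 2) (nat_lit 8)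
  (C.cons (nat_lit 774) (C.miq (nat_lit 1176570505) (nat_lit 84634602914170020187998081)) (C.cons (nat_lit 390) (C.miq (nat_lit 665092432) (nat_lit 1412030467167775628425494819)) (C.cons (nat_lit 262) (C.node (nat_lit 3) (nat_lit 4) (nat_lit 10) (C.cons (nat_lit 1304) (C.node (nat_lit 3) (nat_lit 6) (nat_lit 10) (C.cons (nat_lit 1608) (C.miq (nat_lit 1669372482) (nat_lit 320376060208800919752869396)) (C.cons (nat_lit 1096) (C.node (nat_lit 3) (nat_lit 9) (nat_lit 10) (C.cons (nat_lit 1544) (C.node (nat_lit 6) (nat_lit 9) (nat_lit 10) (C.cons (nat_lit 1600) (C.ref (nat_lit 57) (nat_lit 11073321466000)) C.nil)) C.nil)) C.nil))) (C.cons (nat_lit 1048) (C.node (nat_lit 3) (nat_lit 8) (nat_lit 10) (C.cons (nat_lit 1288) (C.node (nat_lit 4) (nat_lit 8) (nat_lit 10) (C.cons (nat_lit 1296) (C.node (nat_lit 3) (nat_lit 6) (nat_lit 10) (C.cons (nat_lit 1608) (C.ref (nat_lit 57) (nat_lit 11073357436480)) C.nil)) C.nil)) C.nil)) C.nil)))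 C.nil)))) C.nil)))) (C.cons (nat_lit 1092) (C.node (nat_lit 2) (nat_lit 8) (nat_lit 10) (C.cons (nat_lit 1284) (C.node (nat_lit 3) (nat_lit 4) (nat_lit 10) (C.cons (nat_lit 1304) (C.node (nat_lit 6) (nat_lit 8) (nat_lit 10) (C.cons (nat_lit 1344) (C.node (nat_lit 3) (nat_lit 6) (nat_lit 10) (C.cons (nat_lit 1608) (C.miq (nat_lit 1669372482) (nat_lit 320376060208800919752869396)) C.nil)) C.nil)) (C.cons (nat_lit 1048) (C.node (nat_lit 4) (nat_lit 8) (nat_lit 10) C.nil) C.nil))) C.nil)) C.nil))) C.nil)) C.nil))) C.nil)) C.nil))) C.nil)) (C.cons (nat_lit 1044) (C.node (nat_lit 2) (nat_lit 7) (nat_lit 10) (C.cons (nat_lit 1220) (C.node (nat_lit 2) (nat_lit 8) (nat_lit 10) (C.cons (nat_lit 1316) (C.miq (nat_lit 1652587089) (nat_lit 334876049491751778539209890)) (C.cons (nat_lit 1284) (C.node (nat_lit 5) (nat_lit 8) (nat_lit 10) (C.cons (nat_lit 1312) (C.node (nat_lit 2) (nat_lit 5) (nat_lit 10) (C.cons (nat_lit 1572) (C.miq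 (nat_lit 1359587170) (nat_lit 641968608830882123119658180)) (C.cons (nat_lit 1060) (C.node (nat_lit 2) (nat_lit 9) (nat_lit 10) (C.cons (nat_lit 1540) (C.node (nat_lit 5) (nat_lit 9) (nat_lit 10) (C.cons (nat_lit 1568) (C.ref (nat_lit 65) (nat_lit 11649936536080)) C.nil)) C.nil)) C.nil))) C.nil)) C.nil))) (C.cons (nat_lit 1156) (C.node (nat_lit 6) (nat_lit 7) (nat_lit 10) (C.cons (nat_lit 1216) (C.node (nat_lit 2) (nat_lit 6) (nat_lit 10) (C.cons (nat_lit 1348) (C.node (nat_lit 5) (nat_lit 8) (nat_lit 10) (C.cons (nat_lit 1312) (C.node (nat_lit 1) (nat_lit 2) (nat_lit 8) (C.cons (nat_lit 774) (C.miq (nat_lit 1099565350) (nat_lit 1549863874843432946759893573)) (C.cons (nat_lit 390) (C.miq (nat_lit 665092432) (nat_lit 1412030467167775628425494819)) (C.cons (nat_lit 262) (C.node (nat_lit 2) (nat_lit 5) (nat_lit 10) (C.cons (nat_lit 1572) (C.node (nat_lit 1) (nat_lit 5) (nat_lit 9) (C.cons (nat_lit 610) (C.miq (nat_lit 622238320)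 (nat_lit 737455467965714379053401985)) (C.cons (nat_lit 546) (C.node (nat_lit 2) (nat_lit 8) (nat_lit 9) (C.cons (nat_lit 780) (C.miq (nat_lit 950375008) (nat_lit 1586120876603422510121288261)) (C.cons (nat_lit 772) (C.node (nat_lit 1) (nat_lit 2) (nat_lit 5) (C.cons (nat_lit 102) (C.node (nat_lit 1) (nat_lit 2) (nat_lit 4) (C.cons (nat_lit 150) (C.miq (nat_lit 2451023200) (nat_lit 181374309580039073743176817)) (C.cons (nat_lit 22) (C.node (nat_lit 1) (nat_lit 2) (nat_lit 7) (C.cons (nat_lit 646) (C.node (nat_lit 3) (nat_lit 7) (nat_lit 9) (C.cons (nat_lit 712) (C.miq (nat_lit 1500946960) (nat_lit 860776157956109218101789711)) (C.cons (nat_lit 648) (C.node (nat_lit 5) (nat_lit 6) (nat_lit 9) (C.cons (nat_lit 864) (C.miq (nat_lit 845482633) (nat_lit 123320634942623227676985217)) (C.cons (nat_lit 736) (C.node (nat_lit 4) (nat_lit 7) (nat_lit 9) (C.cons (nat_lit 656) (C.node (nat_lit 1) (nat_lit 3) (nat_lit 5) (C.cons (nat_lit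 58) (C.node (nat_lit 1) (nat_lit 3) (nat_lit 7) (C.cons (nat_lit 394) (C.miq (nat_lit 2805205013) (nat_lit 184986624889765193972318499)) (C.cons (nat_lit 138) (C.node (nat_lit 1) (nat_lit 4) (nat_lit 7) (C.cons (nat_lit 402)
  (C.miq (nat_lit 2537752597) (nat_lit 184975851991226181953913123)) (C.cons (nat_lit 146) (C.node (nat_lit 1) (nat_lit 7) (nat_lit 8) (C.cons (nat_lit 386) (C.node (nat_lit 4) (nat_lit 7) (nat_lit 8) (C.cons (nat_lit 464) (C.miq (nat_lit 929694850) (nat_lit 1470072962861549325056737557)) (C.cons (nat_lit 432) (C.miq (nat_lit 643041656) (nat_lit 1374553766813481911779854209)) C.nil))) C.nil)) C.nil))) C.nil))) (C.cons (nat_lit 42) (C.node (nat_lit 1) (nat_lit 4) (nat_lit 5) (C.cons (nat_lit 50) (C.node (nat_lit 1) (nat_lit 3) (nat_lit 7) (C.cons (nat_lit 394) (C.node (nat_lit 1) (nat_lit 4) (nat_lit 7) (C.cons (nat_lit 146) (C.node (nat_lit 1) (nat_lit 3) (nat_lit 4) (C.cons (nat_lit 90) (C.miq (nat_lit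 2171237184) (nat_lit 1317764579686212923923955865)) (C.cons (nat_lit 26) (C.node (nat_lit 3) (nat_lit 8) (nat_lit 10) (C.cons (nat_lit 1304) (C.miq (nat_lit 1680935559) (nat_lit 31435668745117381088118657)) (C.cons (nat_lit 1288) (C.node (nat_lit 4) (nat_lit 8) (nat_lit 10) C.nil) C.nil))) C.nil))) C.nil)) (C.cons (nat_lit 138) (C.node (nat_lit 1) (nat_lit 4) (nat_lit 7) (C.cons (nat_lit 402) (C.node (nat_lit 1) (nat_lit 3) (nat_lit 4) (C.cons (nat_lit 90) (C.node (nat_lit 4) (nat_lit 5) (nat_lit 7) C.nil) (C.cons (nat_lit 26) (C.node (nat_lit 1) (nat_lit 4) (nat_lit 6) (C.cons (nat_lit 82) (C.node (nat_lit 2) (nat_lit 3) (nat_lit 9) (C.cons (nat_lit 540) (C.node (nat_lit 4) (nat_lit 5) (nat_lit 7) C.nil) (C.cons (nat_lit 524) (C.node (nat_lit 2) (nat_lit 4) (nat_lit 9) (C.cons (nat_lit 532) (C.node (nat_lit 3) (nat_lit 8) (nat_lit 10) C.nil) C.nil)) C.nil))) C.nil)) C.nil))) (C.cons (nat_lit 146) (C.node (nat_lit 1) (nat_lit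 7) (nat_lit 8) (C.cons (nat_lit 386) (C.node (nat_lit 4) (nat_lit 7) (nat_lit 8) (C.cons (nat_lit 464) (C.miq (nat_lit 929694850) (nat_lit 1470072962861549325056737557)) (C.cons (nat_lit 432) (C.miq (nat_lit 643041656) (nat_lit 1374553766813481911779854209)) C.nil))) C.nil)) C.nil))) C.nil))) C.nil)) C.nil))) C.nil)) (C.cons (nat_lit 608) (C.miq (nat_lit 1985548450) (nat_lit 735038814977258658531116047)) C.nil)))) C.nil))) (C.cons (nat_lit 134) (C.miq (nat_lit 2451023200) (nat_lit 162031496466205006947878001)) C.nil))) C.nil))) (C.cons (nat_lit 54) (C.miq (nat_lit 1649478055) (nat_lit 65285591537828062031906689)) (C.cons (nat_lit 38) (C.miq (nat_lit 1649478055) (nat_lit 45942778423993995236607873)) C.nil)))) C.nil))) C.nil))) (C.cons (nat_lit 1060) (C.node (nat_lit 2) (nat_lit 9) (nat_lit 10) (C.cons (nat_lit 1540) (C.node (nat_lit 5) (nat_lit 9) (nat_lit 10) (C.cons (nat_lit 1568) (C.node (nat_lit 1) (nat_lit 2) (nat_lit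 6) (C.cons (nat_lit 102) (C.miq (nat_lit 2589067030) (nat_lit 1281472086890532274537103555)) (C.cons (nat_lit 86) (C.miq (nat_lit 2552302180) (nat_lit 316748360500855203427648625)) (C.cons (nat_lit 70) (C.node (nat_lit 3) (nat_lit 6) (nat_lit 10) (C.cons (nat_lit 1608) (C.node (nat_lit 4) (nat_lit 9) (nat_lit 10) (C.cons (nat_lit 1552) (C.node (nat_lit 3) (nat_lit 4) (nat_lit 10) (C.cons (nat_lit 1304) (C.miq (nat_lit 1133546082) (nat_lit 668541088362048627134498116)) C.nil)) C.nil)) (C.cons (nat_lit 1096) (C.node (nat_lit 6) (nat_lit 9) (nat_lit 10) C.nil) C.nil))) C.nil)))) C.nil)) C.nil)) C.nil))) C.nil)))) C.nil)) (C.cons (nat_lit 1092) (C.node (nat_lit 2) (nat_lit 8) (nat_lit 10) (C.cons (nat_lit 1316) (C.node (nat_lit 2) (nat_lit 9) (nat_lit 10) (C.cons (nat_lit 1540) (C.node (nat_lit 5) (nat_lit 9) (nat_lit 10) (C.cons (nat_lit 1568) (C.ref (nat_lit 65) (nat_lit 11297248326160)) C.nil)) C.nil)) (C.cons (nat_lit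 1284) (C.node (nat_lit 5) (nat_lit 8) (nat_lit 10) (C.cons (nat_lit 1312) (C.node (nat_lit 2) (nat_lit 5) (nat_lit 10) (C.cons (nat_lit 1572) (C.node (nat_lit 1) (nat_lit 5) (nat_lit 9) (C.cons (nat_lit 610) (C.miq (nat_lit 622238320) (nat_lit 737455467965714379053401985)) (C.cons (nat_lit 546) (C.node (nat_lit 1) (nat_lit 2) (nat_lit 5) (C.cons (nat_lit 102) (C.node (nat_lit 1) (nat_lit 2) (nat_lit 4) (C.cons (nat_lit 150)
  (C.miq (nat_lit 2451023200) (nat_lit 181374309580039073743176817)) (C.cons (nat_lit 22) (C.node (nat_lit 1) (nat_lit 2) (nat_lit 7) (C.cons (nat_lit 646) (C.node (nat_lit 1) (nat_lit 2) (nat_lit 8) (C.cons (nat_lit 262) (C.node (nat_lit 3) (nat_lit 7) (nat_lit 9) (C.cons (nat_lit 712) (C.miq (nat_lit 1500946960) (nat_lit 860776157956109218101789711)) (C.cons (nat_lit 648) (C.node (nat_lit 5) (nat_lit 6) (nat_lit 9) (C.cons (nat_lit 864) (C.miq (nat_lit 1985548450) (nat_lit 1044523824798603727255897103))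 (C.cons (nat_lit 736) (C.node (nat_lit 4) (nat_lit 7) (nat_lit 9) (C.cons (nat_lit 656) (C.node (nat_lit 1) (nat_lit 3) (nat_lit 5) (C.cons (nat_lit 58) (C.node (nat_lit 1) (nat_lit 3) (nat_lit 7) (C.cons (nat_lit 394) (C.miq (nat_lit 2805205013) (nat_lit 184986624889765193972318499)) (C.cons (nat_lit 138) (C.node (nat_lit 1) (nat_lit 4) (nat_lit 7) (C.cons (nat_lit 402) (C.miq (nat_lit 2537752597) (nat_lit 184975851991226181953913123)) C.nil)) C.nil))) (C.cons (nat_lit 42) (C.node (nat_lit 1) (nat_lit 4) (nat_lit 5) (C.cons (nat_lit 50) (C.node (nat_lit 1) (nat_lit 3) (nat_lit 7) (C.cons (nat_lit 394) (C.node (nat_lit 1) (nat_lit 4) (nat_lit 7) C.nil) (C.cons (nat_lit 138) (C.node (nat_lit 1) (nat_lit 4) (nat_lit 7) (C.cons (nat_lit 146) (C.node (nat_lit 1) (nat_lit 7) (nat_lit 8) C.nil) C.nil)) C.nil))) C.nil)) C.nil))) C.nil)) (C.cons (nat_lit 608) (C.miq (nat_lit 1985548450) (nat_lit 735038814977258658531116047)) C.nil))))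 C.nil))) C.nil)) (C.cons (nat_lit 390) (C.miq (nat_lit 1361356672) (nat_lit 26617342313364647037962113)) (C.cons (nat_lit 134) (C.miq (nat_lit 2451023200) (nat_lit 162031496466205006947878001)) C.nil)))) C.nil))) (C.cons (nat_lit 54) (C.miq (nat_lit 1649478055) (nat_lit 65285591537828062031906689)) (C.cons (nat_lit 38) (C.miq (nat_lit 1649478055) (nat_lit 45942778423993995236607873)) C.nil)))) C.nil))) (C.cons (nat_lit 1060) (C.node (nat_lit 2) (nat_lit 9) (nat_lit 10) (C.cons (nat_lit 1540) (C.node (nat_lit 5) (nat_lit 9) (nat_lit 10) (C.cons (nat_lit 1568) (C.node (nat_lit 4) (nat_lit 8) (nat_lit 10) (C.cons (nat_lit 1296) (C.node (nat_lit 3) (nat_lit 4) (nat_lit 10) (C.cons (nat_lit 1048) (C.node (nat_lit 4) (nat_lit 9) (nat_lit 10) C.nil) C.nil)) C.nil)) C.nil)) C.nil)) C.nil))) C.nil)) C.nil))) C.nil))) C.nil)) C.nil))) C.nil))) C.nil))) C.nil))) C.nil))) C.nil)) (List.cons (C.node (nat_lit 2) (nat_lit 8) (nat_lit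 9) (C.cons (nat_lit 804) (C.miq (nat_lit 2032535633) (nat_lit 702389498851910807288414499)) (C.cons (nat_lit 780) (C.miq (nat_lit 895652008) (nat_lit 123324822216730214857443201)) (C.cons (nat_lit 772) (C.node (nat_lit 5) (nat_lit 8) (nat_lit 10) (C.cons (nat_lit 1320) (C.miq (nat_lit 958943338) (nat_lit 933315082600329177066636401)) (C.cons (nat_lit 1312) (C.node (nat_lit 5) (nat_lit 6) (nat_lit 9) (C.cons (nat_lit 864) (C.miq (nat_lit 845482633) (nat_lit 123320634942623227676985217)) (C.cons (nat_lit 736) (C.miq (nat_lit 2502587920) (nat_lit 1281496805194038542251000003)) (C.cons (nat_lit 608) (C.node (nat_lit 1) (nat_lit 5) (nat_lit 9) (C.cons (nat_lit 674) (C.node (nat_lit 2) (nat_lit 7) (nat_lit 9) (C.cons (nat_lit 652) (C.miq (nat_lit 1200988720) (nat_lit 814836976698163344571958287)) (C.cons (nat_lit 644) (C.node (nat_lit 4) (nat_lit 5) (nat_lit 7) (C.cons (nat_lit 432) (C.miq (nat_lit 1361346727) (nat_lit 26604337106875365140465537))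 (C.cons (nat_lit 176) (C.node (nat_lit 2) (nat_lit 7) (nat_lit 8) (C.cons (nat_lit 428) (C.miq (nat_lit 878866600) (nat_lit 101557664097162953266300801)) (C.cons (nat_lit 420) (C.miq (nat_lit 1095895416) (nat_lit 123315543498266700834670465)) (C.cons (nat_lit 396) (C.miq (nat_lit 878866600) (nat_lit 101557073801352594560649089)) (C.cons (nat_lit 388) (C.node (nat_lit 1) (nat_lit 3) (nat_lit 5) (C.cons (nat_lit 58) (C.node (nat_lit 1) (nat_lit 3) (nat_lit 7) (C.cons (nat_lit 394) (C.miq (nat_lit 2805205013) (nat_lit 184986624889765193972318499)) (C.cons (nat_lit 138) (C.node (nat_lit 1) (nat_lit 4) (nat_lit 7) C.nil) C.nil))) (C.cons (nat_lit 42)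
  (C.node (nat_lit 1) (nat_lit 4) (nat_lit 5) (C.cons (nat_lit 50) (C.node (nat_lit 1) (nat_lit 3) (nat_lit 7) C.nil) C.nil)) C.nil))) C.nil))))) C.nil))) C.nil))) (C.cons (nat_lit 546) (C.node (nat_lit 1) (nat_lit 7) (nat_lit 9) (C.cons (nat_lit 650) (C.node (nat_lit 1) (nat_lit 3) (nat_lit 5) (C.cons (nat_lit 58) (C.miq (nat_lit 2438624064) (nat_lit 1279078953530602246932332697)) (C.cons (nat_lit 42) (C.node (nat_lit 3) (nat_lit 5) (nat_lit 10) (C.cons (nat_lit 1192) (C.miq (nat_lit 1160841849) (nat_lit 50784679964959733273200513)) (C.cons (nat_lit 1064) (C.node (nat_lit 3) (nat_lit 7) (nat_lit 10) C.nil) C.nil))) C.nil))) (C.cons (nat_lit 642) (C.node (nat_lit 2) (nat_lit 3) (nat_lit 6) (C.cons (nat_lit 204) (C.node (nat_lit 3) (nat_lit 7) (nat_lit 9) (C.cons (nat_lit 648) (C.node (nat_lit 2) (nat_lit 3) (nat_lit 8) (C.cons (nat_lit 300) (C.miq (nat_lit 1937793617) (nat_lit 320368939370393288417935462)) (C.cons (nat_lit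 268) (C.node (nat_lit 2) (nat_lit 3) (nat_lit 5) (C.cons (nat_lit 60) (C.miq (nat_lit 305620288) (nat_lit 246624464345189430335177841)) (C.cons (nat_lit 44) (C.node (nat_lit 3) (nat_lit 5) (nat_lit 10) C.nil) C.nil))) C.nil))) C.nil)) (C.cons (nat_lit 76) (C.node (nat_lit 2) (nat_lit 6) (nat_lit 7) (C.cons (nat_lit 196) (C.node (nat_lit 3) (nat_lit 5) (nat_lit 10) (C.cons (nat_lit 1192) (C.node (nat_lit 2) (nat_lit 3) (nat_lit 4) C.nil) (C.cons (nat_lit 1064) (C.node (nat_lit 3) (nat_lit 7) (nat_lit 10) C.nil) C.nil))) C.nil)) C.nil))) C.nil))) C.nil))) C.nil)))) C.nil))) C.nil)))) (List.cons (C.node (nat_lit 3) (nat_lit 6) (nat_lit 10) (C.cons (nat_lit 1608) (C.node (nat_lit 4) (nat_lit 9) (nat_lit 10) (C.cons (nat_lit 1552) (C.node (nat_lit 3) (nat_lit 4) (nat_lit 10) (C.cons (nat_lit 1304) (C.miq (nat_lit 874948617) (nat_lit 101579431579143935009032065)) (C.cons (nat_lit 1048) (C.node (nat_lit 4) (nat_lit 8) (nat_lit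 10) (C.cons (nat_lit 1296) (C.node (nat_lit 3) (nat_lit 8) (nat_lit 10) (C.cons (nat_lit 1320) (C.miq (nat_lit 2181408403) (nat_lit 44754605407349340090467912)) (C.cons (nat_lit 1288) (C.node (nat_lit 5) (nat_lit 8) (nat_lit 10) (C.cons (nat_lit 1312) (C.node (nat_lit 3) (nat_lit 5) (nat_lit 10) (C.cons (nat_lit 1192) (C.node (nat_lit 1) (nat_lit 3) (nat_lit 5) (C.cons (nat_lit 106) (C.miq (nat_lit 2321615157) (nat_lit 1317734511923191586484781609)) (C.cons (nat_lit 58) (C.miq (nat_lit 2589001524) (nat_lit 1279053312914099356477030553)) (C.cons (nat_lit 42) (C.node (nat_lit 1) (nat_lit 3) (nat_lit 9) (C.cons (nat_lit 778) (C.miq (nat_lit 1662364032) (nat_lit 50795858824441337152210817)) (C.cons (nat_lit 650) (C.miq (nat_lit 1160841849) (nat_lit 50784679964959733273200513)) (C.cons (nat_lit 522) (C.node (nat_lit 3) (nat_lit 7) (nat_lit 9) (C.cons (nat_lit 652) (C.miq (nat_lit 1512637555) (nat_lit 1861755963576043772693971097))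 (C.cons (nat_lit 648) (C.node (nat_lit 1) (nat_lit 3) (nat_lit 7) (C.cons (nat_lit 394) (C.node (nat_lit 1) (nat_lit 3) (nat_lit 4) (C.cons (nat_lit 90) (C.miq (nat_lit 2202693984) (nat_lit 1266989695262398498586296515)) C.nil)) (C.cons (nat_lit 138) (C.node (nat_lit 1) (nat_lit 4) (nat_lit 5) C.nil) C.nil))) C.nil))) C.nil)))) C.nil)))) C.nil)) C.nil)) C.nil))) C.nil)) C.nil))) C.nil)) (C.cons (nat_lit 1096) (C.node (nat_lit 6) (nat_lit 9) (nat_lit 10) (C.cons (nat_lit 1600) (C.node (nat_lit 3) (nat_lit 7) (nat_lit 10) (C.cons (nat_lit 1192) (C.node (nat_lit 5) (nat_lit 8) (nat_lit 10) (C.cons (nat_lit 1312) (C.node (nat_lit 3) (nat_lit 8) (nat_lit 10) (C.cons (nat_lit 1304) (C.node (nat_lit 3) (nat_lit 9) (nat_lit 10) (C.cons (nat_lit 1544) (C.node (nat_lit 4) (nat_lit 9) (nat_lit 10) (C.cons (nat_lit 1552) (C.node (nat_lit 4) (nat_lit 5) (nat_lit 3) (C.cons (nat_lit 60) (C.miq (nat_lit 2320631604) (nat_lit 1281466479080333892600463513))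 (C.cons (nat_lit 58) (C.miq (nat_lit 2589001524) (nat_lit 1279053312914099356477030553)) (C.cons (nat_lit 56) (C.node (nat_lit 1) (nat_lit 3) (nat_lit 7) (C.cons (nat_lit 650)
  (C.miq (nat_lit 341020839) (nat_lit 67711836431535241081390977)) (C.cons (nat_lit 394) (C.miq (nat_lit 413561664) (nat_lit 1629635602066521242402357401)) (C.cons (nat_lit 138) (C.node (nat_lit 4) (nat_lit 1) (nat_lit 3) (C.cons (nat_lit 90) (C.miq (nat_lit 2199364704) (nat_lit 166867199669228178348639345)) (C.cons (nat_lit 26) (C.node (nat_lit 4) (nat_lit 6) (nat_lit 1) (C.cons (nat_lit 338) (C.node (nat_lit 1) (nat_lit 8) (nat_lit 7) C.nil) (C.cons (nat_lit 82) (C.node (nat_lit 4) (nat_lit 5) (nat_lit 1) C.nil) C.nil))) C.nil))) C.nil)))) C.nil)))) C.nil)) C.nil)) (C.cons (nat_lit 1288) (C.node (nat_lit 4) (nat_lit 8) (nat_lit 10) (C.cons (nat_lit 1296) (C.node (nat_lit 3) (nat_lit 4) (nat_lit 10) (C.cons (nat_lit 1560) (C.node (nat_lit 2) (nat_lit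 3) (nat_lit 4) (C.cons (nat_lit 60) (C.miq (nat_lit 2586117955) (nat_lit 1281471570381698150537363609)) (C.cons (nat_lit 28) (C.node (nat_lit 2) (nat_lit 3) (nat_lit 9) (C.cons (nat_lit 780) (C.miq (nat_lit 950375008) (nat_lit 1586120876603422510121288261)) (C.cons (nat_lit 652) (C.miq (nat_lit 1411582585) (nat_lit 33860124318724460538234753)) (C.cons (nat_lit 524) (C.node (nat_lit 4) (nat_lit 6) (nat_lit 7) (C.cons (nat_lit 720) (C.miq (nat_lit 1772188720) (nat_lit 1859331507885062727509409945)) (C.cons (nat_lit 464) (C.miq (nat_lit 845417095) (nat_lit 101552591491930418685413249)) (C.cons (nat_lit 208) (C.node (nat_lit 4) (nat_lit 6) (nat_lit 9) (C.cons (nat_lit 848) (C.miq (nat_lit 308546185) (nat_lit 101559564361190280921089921)) (C.cons (nat_lit 592) (C.node (nat_lit 1) (nat_lit 5) (nat_lit 6) C.nil) C.nil))) C.nil)))) C.nil)))) C.nil))) C.nil)) C.nil)) C.nil))) C.nil)) (C.cons (nat_lit 1160) (C.node (nat_lit 5) (nat_lit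 7) (nat_lit 10) (C.cons (nat_lit 1184) (C.node (nat_lit 3) (nat_lit 5) (nat_lit 10) (C.cons (nat_lit 1320) (C.node (nat_lit 4) (nat_lit 8) (nat_lit 10) (C.cons (nat_lit 1296) (C.node (nat_lit 3) (nat_lit 4) (nat_lit 10) (C.cons (nat_lit 1560) (C.miq (nat_lit 1250005840) (nat_lit 1549852696406164374789751337)) C.nil)) C.nil)) (C.cons (nat_lit 1064) (C.node (nat_lit 5) (nat_lit 8) (nat_lit 10) C.nil) C.nil))) C.nil)) C.nil))) C.nil)) C.nil))) (List.cons (C.node (nat_lit 2) (nat_lit 4) (nat_lit 9) (C.cons (nat_lit 564) (C.node (nat_lit 2) (nat_lit 3) (nat_lit 8) (C.cons (nat_lit 780) (C.miq (nat_lit 1687397672) (nat_lit 1885949218916848638788109604)) (C.cons (nat_lit 396) (C.miq (nat_lit 877818024) (nat_lit 681841467216374598417516417)) (C.cons (nat_lit 268) (C.node (nat_lit 2) (nat_lit 3) (nat_lit 9) (C.cons (nat_lit 652) (C.miq (nat_lit 893554855) (nat_lit 681846189695447458737555329)) (C.cons (nat_lit 524) (C.node (nat_lit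 2) (nat_lit 8) (nat_lit 9) (C.cons (nat_lit 774) (C.miq (nat_lit 340955304) (nat_lit 681848440192032001824655233)) (C.cons (nat_lit 772) (C.node (nat_lit 3) (nat_lit 8) (nat_lit 9) (C.cons (nat_lit 778) (C.miq (nat_lit 2236158115) (nat_lit 681848513911454302268294159)) (C.cons (nat_lit 776) (C.node (nat_lit 4) (nat_lit 6) (nat_lit 9) (C.cons (nat_lit 848) (C.miq (nat_lit 327748196) (nat_lit 938136231534513686997632113)) (C.cons (nat_lit 592) (C.node (nat_lit 4) (nat_lit 8) (nat_lit 9) (C.cons (nat_lit 784) (C.node (nat_lit 1) (nat_lit 2) (nat_lit 4) (C.cons (nat_lit 86) (C.node (nat_lit 2) (nat_lit 3) (nat_lit 4) (C.cons (nat_lit 28) (C.node (nat_lit 1) (nat_lit 2) (nat_lit 8) (C.cons (nat_lit 390) (C.miq (nat_lit 1377216624) (nat_lit 103988594805292661186168705)) C.nil)) C.nil)) (C.cons (nat_lit 22) (C.node (nat_lit 1) (nat_lit 2) (nat_lit 9) (C.cons (nat_lit 646) (C.node (nat_lit 1) (nat_lit 2) (nat_lit 5) (C.cons (nat_lit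 102) (C.miq (nat_lit 2182587744) (nat_lit 781001516036837550359512177)) C.nil)) C.nil)) C.nil))) C.nil)) C.nil))) C.nil))) C.nil))) C.nil))) C.nil)))) (C.cons (nat_lit 532) (C.node (nat_lit 4) (nat_lit 5) (nat_lit 9) (C.cons (nat_lit 816) (C.miq (nat_lit 2510374944) (nat_lit 1279053312603070039851991317)) (C.cons (nat_lit 560) (C.node (nat_lit 2) (nat_lit 4) (nat_lit 5) (C.cons (nat_lit 60)
  (C.miq (nat_lit 1952031280) (nat_lit 677033895509446864323281935)) (C.cons (nat_lit 54) (C.miq (nat_lit 2236195344) (nat_lit 677033895549979235198370831)) (C.cons (nat_lit 52) (C.node (nat_lit 1) (nat_lit 2) (nat_lit 4) (C.cons (nat_lit 86) (C.node (nat_lit 2) (nat_lit 3) (nat_lit 4) (C.cons (nat_lit 28) (C.node (nat_lit 3) (nat_lit 4) (nat_lit 6) (C.cons (nat_lit 88) (C.node (nat_lit 2) (nat_lit 6) (nat_lit 8) (C.cons (nat_lit 452) (C.miq (nat_lit 2185852432) (nat_lit 643183972357575375867543747)) (C.cons (nat_lit 324) (C.node (nat_lit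 4) (nat_lit 6) (nat_lit 7) (C.cons (nat_lit 464) (C.miq (nat_lit 2217375248) (nat_lit 1416896496914315747433316547)) (C.cons (nat_lit 208) (C.node (nat_lit 4) (nat_lit 6) (nat_lit 8) C.nil) C.nil))) C.nil))) C.nil)) C.nil)) (C.cons (nat_lit 22) (C.node (nat_lit 2) (nat_lit 3) (nat_lit 4) (C.cons (nat_lit 92) (C.node (nat_lit 4) (nat_lit 6) (nat_lit 7) (C.cons (nat_lit 464) (C.miq (nat_lit 1983546400) (nat_lit 1634503144444949024650232085)) (C.cons (nat_lit 208) (C.node (nat_lit 4) (nat_lit 6) (nat_lit 9) (C.cons (nat_lit 848) (C.miq (nat_lit 325323401) (nat_lit 111230970918107331498608513)) (C.cons (nat_lit 592) (C.node (nat_lit 4) (nat_lit 8) (nat_lit 9) (C.cons (nat_lit 784) (C.node (nat_lit 5) (nat_lit 8) (nat_lit 9) C.nil) C.nil)) C.nil))) C.nil))) (C.cons (nat_lit 28) (C.node (nat_lit 2) (nat_lit 4) (nat_lit 6) (C.cons (nat_lit 84) (C.node (nat_lit 3) (nat_lit 4) (nat_lit 6) (C.cons (nat_lit 90) (C.miq (nat_lit 1737756835)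 (nat_lit 793056997929059243659887631)) (C.cons (nat_lit 88) (C.node (nat_lit 1) (nat_lit 2) (nat_lit 6) C.nil) C.nil))) C.nil)) C.nil))) C.nil))) C.nil)))) C.nil))) C.nil))) List.nil))))

theorem ok11_66 : okL par11 (nat_lit 70) c11_66 (nat_lit 66) = true := by decide +kernel

noncomputable def c11_70 : List C :=
  (List.cons (C.node (nat_lit 3) (nat_lit 5) (nat_lit 10) (C.cons (nat_lit 1192) (C.miq (nat_lit 1393076034) (nat_lit 320389618448596562454316180)) (C.cons (nat_lit 1064) (C.node (nat_lit 5) (nat_lit 7) (nat_lit 10) (C.cons (nat_lit 1184) (C.node (nat_lit 3) (nat_lit 7) (nat_lit 10) (C.cons (nat_lit 1224) (C.node (nat_lit 6) (nat_lit 8) (nat_lit 10) (C.cons (nat_lit 1344) (C.node (nat_lit 6) (nat_lit 9) (nat_lit 10) (C.cons (nat_lit 1600) (C.node (nat_lit 3) (nat_lit 9) (nat_lit 10) (C.cons (nat_lit 1560) (C.miq (nat_lit 1787917120) (nat_lit 1859331508026926115738288281)) (C.cons (nat_lit 1544) (C.node (nat_lit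 4) (nat_lit 9) (nat_lit 10) (C.cons (nat_lit 1552) (C.node (nat_lit 3) (nat_lit 4) (nat_lit 10) (C.cons (nat_lit 1304) (C.node (nat_lit 2) (nat_lit 8) (nat_lit 9) (C.cons (nat_lit 780) (C.miq (nat_lit 1782121602) (nat_lit 1866592183363336920204312853)) (C.cons (nat_lit 774) (C.miq (nat_lit 1244202369) (nat_lit 1861755557747674769567121699)) (C.cons (nat_lit 772) (C.node (nat_lit 3) (nat_lit 7) (nat_lit 9) (C.cons (nat_lit 652) (C.miq (nat_lit 1512637555) (nat_lit 1861755963576043772693971097)) (C.cons (nat_lit 650) (C.miq (nat_lit 1245251185) (nat_lit 1866591261026132891120828611)) (C.cons (nat_lit 648) (C.node (nat_lit 4) (nat_lit 5) (nat_lit 8) (C.cons (nat_lit 816) (C.miq (nat_lit 310970964) (nat_lit 933300528256055015677887601)) (C.cons (nat_lit 432) (C.miq (nat_lit 1470202912) (nat_lit 1395105763959409740799213845)) (C.cons (nat_lit 304) (C.node (nat_lit 4) (nat_lit 8) (nat_lit 9) (C.cons (nat_lit 848) (C.miq (nat_lit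 949134432) (nat_lit 933309899276633318898336881)) (C.cons (nat_lit 784) (C.node (nat_lit 4) (nat_lit 6) (nat_lit 7) (C.cons (nat_lit 720) (C.miq (nat_lit 326699620) (nat_lit 783393726623840602871039089)) (C.cons (nat_lit 464) (C.miq (nat_lit 1755411504) (nat_lit 1549846497991658965235073177)) (C.cons (nat_lit 208) (C.node (nat_lit 4) (nat_lit 7) (nat_lit 9) (C.cons (nat_lit 688) (C.miq (nat_lit 663987280) (nat_lit 783403097607263917112362097)) (C.cons (nat_lit 656) (C.node (nat_lit 2) (nat_lit 3) (nat_lit 9) (C.cons (nat_lit 540) (C.node (nat_lit 4) (nat_lit 5) (nat_lit 9) (C.cons (nat_lit 560) (C.node (nat_lit 4) (nat_lit 6) (nat_lit 9) C.nil) C.nil)) (C.cons (nat_lit 524) (C.node (nat_lit 2) (nat_lit 3) (nat_lit 4) (C.cons (nat_lit 92) (C.miq (nat_lit 2200544352) (nat_lit 633512566040475048400454769)) (C.cons (nat_lit 60) (C.miq (nat_lit 1916380240) (nat_lit 633512566003320214033859697)) (C.cons (nat_lit 28) (C.node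 (nat_lit 2) (nat_lit 4) (nat_lit 6) (C.cons (nat_lit 86) (C.node (nat_lit 4) (nat_lit 6) (nat_lit 8) (C.cons (nat_lit 336) (C.node (nat_lit 1) (nat_lit 3) (nat_lit 4) (C.cons (nat_lit 58) (C.miq (nat_lit 2450720325) (nat_lit 1256084127792609804741641329)) C.nil)) C.nil)) (C.cons (nat_lit 84) (C.node (nat_lit 1) (nat_lit 2) (nat_lit 4) (C.cons (nat_lit 54) (C.miq (nat_lit 427966629) (nat_lit 933291729016145166540735601)) C.nil)) C.nil))) C.nil)))) C.nil))) C.nil))) C.nil)))) C.nil))) C.nil)))) C.nil)))) C.nil)))) C.nil)) C.nil)) C.nil))) C.nil)) C.nil)) (C.cons (nat_lit 1160) (C.node (nat_lit 6) (nat_lit 7) (nat_lit 10) (C.cons (nat_lit 1216) (C.node (nat_lit 4) (nat_lit 8) (nat_lit 10) (C.cons (nat_lit 1304) (C.node (nat_lit 4) (nat_lit 9) (nat_lit 10) (C.cons (nat_lit 1552) (C.node (nat_lit 6) (nat_lit 8) (nat_lit 10) (C.cons (nat_lit 1344) (C.node (nat_lit 3) (nat_lit 6) (nat_lit 10) (C.cons (nat_lit 1608) (C.node (nat_lit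 3) (nat_lit 4) (nat_lit 9) (C.cons (nat_lit 540) (C.miq (nat_lit 1665309312) (nat_lit 652830660602823942797068161)) (C.cons (nat_lit 536) (C.node (nat_lit 2) (nat_lit 3) (nat_lit 4) (C.cons (nat_lit 92) (C.node (nat_lit 1) (nat_lit 2) (nat_lit 4) (C.cons (nat_lit 54) (C.miq (nat_lit 2586052689) (nat_lit 1416870856350167614969217315)) (C.cons (nat_lit 22) (C.node (nat_lit 1) (nat_lit 4) (nat_lit 6) (C.cons (nat_lit 338) (C.miq (nat_lit 2521342752) (nat_lit 408652363677722414805222415)) (C.cons (nat_lit 82) (C.node (nat_lit 2) (nat_lit 3) (nat_lit 8)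
  (C.cons (nat_lit 780) (C.node (nat_lit 1) (nat_lit 8) (nat_lit 9) (C.cons (nat_lit 834) (C.miq (nat_lit 1184369202) (nat_lit 1008249243626753104129295375)) (C.cons (nat_lit 770) (C.node (nat_lit 4) (nat_lit 6) (nat_lit 8) (C.cons (nat_lit 848) (C.node (nat_lit 4) (nat_lit 6) (nat_lit 7) (C.cons (nat_lit 208) (C.node (nat_lit 5) (nat_lit 8) (nat_lit 9) (C.cons (nat_lit 800) (C.node (nat_lit 4) (nat_lit 5) (nat_lit 8) (C.cons (nat_lit 432) (C.miq (nat_lit 1412597514) (nat_lit 111245451441344732979988353)) (C.cons (nat_lit 304) (C.node (nat_lit 4) (nat_lit 7) (nat_lit 9) (C.cons (nat_lit 688) (C.miq (nat_lit 1394905255) (nat_lit 111233866920128720913303425)) (C.cons (nat_lit 656) (C.node (nat_lit 4) (nat_lit 5) (nat_lit 9) (C.cons (nat_lit 564) (C.node (nat_lit 6) (nat_lit 9) (nat_lit 7) C.nil) C.nil)) C.nil))) C.nil))) C.nil)) C.nil)) (C.cons (nat_lit 464) (C.miq (nat_lit 878815344) (nat_lit 99151083742537539058337665))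 (C.cons (nat_lit 336) (C.miq (nat_lit 2554737162) (nat_lit 406228737974537599275041807)) C.nil)))) C.nil))) (C.cons (nat_lit 396) (C.miq (nat_lit 1379182704) (nat_lit 111242149722980462001457025)) (C.cons (nat_lit 268) (C.miq (nat_lit 2468914752) (nat_lit 324027556304698372575790193)) C.nil)))) C.nil))) C.nil))) (C.cons (nat_lit 60) (C.miq (nat_lit 1665309312) (nat_lit 72546267187801938938103681)) (C.cons (nat_lit 28) (C.miq (nat_lit 1665309312) (nat_lit 33860640960133805347506049)) C.nil)))) C.nil))) C.nil)) C.nil)) C.nil)) (C.cons (nat_lit 1296) (C.node (nat_lit 3) (nat_lit 4) (nat_lit 10) (C.cons (nat_lit 1560) (C.node (nat_lit 6) (nat_lit 9) (nat_lit 10) (C.cons (nat_lit 1600) (C.node (nat_lit 3) (nat_lit 6) (nat_lit 10) (C.cons (nat_lit 1352) (C.node (nat_lit 4) (nat_lit 7) (nat_lit 9) (C.cons (nat_lit 720) (C.miq (nat_lit 1772188720) (nat_lit 1859331507885062727509409945)) (C.cons (nat_lit 688) (C.miq (nat_lit 659596435)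 (nat_lit 194656223454939509030454808)) (C.cons (nat_lit 656) (C.ref (nat_lit 69) (nat_lit 11649936536080)) C.nil)))) C.nil)) C.nil)) (C.cons (nat_lit 1048) (C.node (nat_lit 4) (nat_lit 9) (nat_lit 10) C.nil) C.nil))) C.nil))) C.nil)) C.nil))) C.nil)) C.nil))) (List.cons (C.node (nat_lit 2) (nat_lit 4) (nat_lit 9) (C.cons (nat_lit 564) (C.node (nat_lit 1) (nat_lit 2) (nat_lit 4) (C.cons (nat_lit 86) (C.node (nat_lit 2) (nat_lit 3) (nat_lit 4) (C.cons (nat_lit 28) (C.node (nat_lit 3) (nat_lit 4) (nat_lit 6) (C.cons (nat_lit 88) (C.node (nat_lit 4) (nat_lit 6) (nat_lit 7) (C.cons (nat_lit 464) (C.miq (nat_lit 2217375248) (nat_lit 1416896496914315747433316547)) (C.cons (nat_lit 208) (C.node (nat_lit 4) (nat_lit 6) (nat_lit 8) (C.cons (nat_lit 848) (C.miq (nat_lit 910272656) (nat_lit 103986787034508503928735617)) (C.cons (nat_lit 336) (C.node (nat_lit 4) (nat_lit 6) (nat_lit 9) (C.cons (nat_lit 592) (C.node (nat_lit 4) (nat_lit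 8) (nat_lit 9) C.nil) C.nil)) C.nil))) C.nil))) C.nil)) C.nil)) (C.cons (nat_lit 22) (C.node (nat_lit 2) (nat_lit 3) (nat_lit 4) (C.cons (nat_lit 92) (C.node (nat_lit 3) (nat_lit 5) (nat_lit 6) (C.cons (nat_lit 106) (C.miq (nat_lit 2167539044) (nat_lit 1256079036409617803560879217)) (C.cons (nat_lit 104) (C.node (nat_lit 1) (nat_lit 3) (nat_lit 5) (C.cons (nat_lit 58) (C.miq (nat_lit 2303003185) (nat_lit 681839530805896434427757583)) (C.cons (nat_lit 42) (C.node (nat_lit 3) (nat_lit 6) (nat_lit 7) (C.cons (nat_lit 712) (C.miq (nat_lit 2268334434) (nat_lit 184970760689863169559757381)) (C.cons (nat_lit 200) (C.node (nat_lit 4) (nat_lit 6) (nat_lit 7) (C.cons (nat_lit 464) (C.miq (nat_lit 1983546400) (nat_lit 1634503144444949024650232085)) (C.cons (nat_lit 208) (C.node (nat_lit 4) (nat_lit 6) (nat_lit 9) (C.cons (nat_lit 848) (C.miq (nat_lit 325323401) (nat_lit 111230970918107331498608513)) (C.cons (nat_lit 592) (C.node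 (nat_lit 4) (nat_lit 8) (nat_lit 9) (C.cons (nat_lit 784) (C.node (nat_lit 1) (nat_lit 3) (nat_lit 4) (C.cons (nat_lit 26) (C.node (nat_lit 1) (nat_lit 4) (nat_lit 5) C.nil) C.nil)) C.nil)) C.nil))) C.nil))) C.nil))) C.nil))) C.nil)))
  (C.cons (nat_lit 28) (C.node (nat_lit 2) (nat_lit 4) (nat_lit 6) (C.cons (nat_lit 84) (C.node (nat_lit 3) (nat_lit 4) (nat_lit 6) (C.cons (nat_lit 90) (C.miq (nat_lit 1737756835) (nat_lit 793056997929059243659887631)) (C.cons (nat_lit 88) (C.node (nat_lit 4) (nat_lit 6) (nat_lit 9) (C.cons (nat_lit 848) (C.miq (nat_lit 325323401) (nat_lit 106395267639648814799783809)) (C.cons (nat_lit 592) (C.node (nat_lit 4) (nat_lit 8) (nat_lit 9) (C.cons (nat_lit 784) (C.node (nat_lit 1) (nat_lit 2) (nat_lit 6) (C.cons (nat_lit 102) (C.node (nat_lit 3) (nat_lit 5) (nat_lit 6) C.nil) C.nil)) C.nil)) C.nil))) C.nil))) C.nil)) C.nil))) C.nil))) (C.cons (nat_lit 532) (C.node (nat_lit 4) (nat_lit 5) (nat_lit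 9) (C.cons (nat_lit 816) (C.miq (nat_lit 2225166640) (nat_lit 1259706072270659330736325161)) (C.cons (nat_lit 560) (C.node (nat_lit 4) (nat_lit 6) (nat_lit 7) (C.cons (nat_lit 464) (C.node (nat_lit 4) (nat_lit 6) (nat_lit 9) (C.cons (nat_lit 592) (C.node (nat_lit 4) (nat_lit 8) (nat_lit 9) (C.cons (nat_lit 784) (C.node (nat_lit 1) (nat_lit 2) (nat_lit 4) (C.cons (nat_lit 86) (C.miq (nat_lit 2217375248) (nat_lit 1416896496914315747433316547)) (C.cons (nat_lit 54) (C.miq (nat_lit 1484001442) (nat_lit 560942576507285386311238671)) (C.cons (nat_lit 22) (C.node (nat_lit 1) (nat_lit 4) (nat_lit 6) (C.cons (nat_lit 90) (C.miq (nat_lit 2489819920) (nat_lit 560977016935654883340780559)) (C.cons (nat_lit 82) (C.node (nat_lit 2) (nat_lit 4) (nat_lit 5) (C.cons (nat_lit 60) (C.miq (nat_lit 1418146314) (nat_lit 560963568837013487283667983)) (C.cons (nat_lit 52) (C.node (nat_lit 2) (nat_lit 3) (nat_lit 9) C.nil) C.nil))) C.nil))) C.nil))))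 C.nil)) C.nil)) (C.cons (nat_lit 208) (C.node (nat_lit 4) (nat_lit 6) (nat_lit 9) (C.cons (nat_lit 848) (C.node (nat_lit 1) (nat_lit 4) (nat_lit 6) (C.cons (nat_lit 90) (C.miq (nat_lit 2489819920) (nat_lit 251492007114309814615999503)) (C.cons (nat_lit 86) (C.miq (nat_lit 910272656) (nat_lit 103986787034508503928735617)) (C.cons (nat_lit 82) (C.miq (nat_lit 910272656) (nat_lit 99151083756049987229910913)) C.nil)))) (C.cons (nat_lit 592) (C.node (nat_lit 4) (nat_lit 8) (nat_lit 9) (C.cons (nat_lit 784) (C.node (nat_lit 4) (nat_lit 6) (nat_lit 8) (C.cons (nat_lit 338) (C.node (nat_lit 4) (nat_lit 7) (nat_lit 8) (C.cons (nat_lit 432) (C.miq (nat_lit 710411124) (nat_lit 1586115785374959515192000665)) (C.cons (nat_lit 400) (C.node (nat_lit 6) (nat_lit 9) (nat_lit 8) (C.cons (nat_lit 864) (C.node (nat_lit 4) (nat_lit 5) (nat_lit 7) C.nil) C.nil)) C.nil))) (C.cons (nat_lit 336) (C.node (nat_lit 6) (nat_lit 9) (nat_lit 7) (C.cons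 (nat_lit 712) (C.node (nat_lit 4) (nat_lit 6) (nat_lit 2) C.nil) (C.cons (nat_lit 736) (C.miq (nat_lit 712377177) (nat_lit 1470064514502153522143822377)) C.nil))) C.nil))) C.nil)) C.nil))) C.nil))) C.nil))) C.nil))) (List.cons (C.node (nat_lit 4) (nat_lit 8) (nat_lit 10) (C.cons (nat_lit 1304) (C.node (nat_lit 4) (nat_lit 9) (nat_lit 10) (C.cons (nat_lit 1552) (C.node (nat_lit 5) (nat_lit 8) (nat_lit 10) (C.cons (nat_lit 1312) (C.node (nat_lit 6) (nat_lit 8) (nat_lit 10) (C.cons (nat_lit 1344) (C.node (nat_lit 3) (nat_lit 5) (nat_lit 10) (C.cons (nat_lit 1192) (C.node (nat_lit 6) (nat_lit 7) (nat_lit 10) (C.cons (nat_lit 1216) (C.node (nat_lit 3) (nat_lit 6) (nat_lit 10) (C.cons (nat_lit 1608) (C.node (nat_lit 3) (nat_lit 4) (nat_lit 9) (C.cons (nat_lit 540) (C.miq (nat_lit 1665309312) (nat_lit 652830660602823942797068161)) (C.cons (nat_lit 536) (C.node (nat_lit 2) (nat_lit 3) (nat_lit 4) (C.cons (nat_lit 92) (C.node (nat_lit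 1) (nat_lit 3) (nat_lit 4) (C.cons (nat_lit 58) (C.miq (nat_lit 2589001524) (nat_lit 1279053312914099356477030553)) (C.cons (nat_lit 26) (C.node (nat_lit 3) (nat_lit 4) (nat_lit 5) (C.cons (nat_lit 56) (C.node (nat_lit 1) (nat_lit 3) (nat_lit 5) (C.cons (nat_lit 106) (C.miq (nat_lit 2167539044) (nat_lit 1256079036409617803560879217)) (C.cons (nat_lit 42) (C.node (nat_lit 1) (nat_lit 4) (nat_lit 6) (C.cons (nat_lit 338)
  (C.miq (nat_lit 2521342752) (nat_lit 408652363677722414805222415)) (C.cons (nat_lit 82) (C.node (nat_lit 2) (nat_lit 3) (nat_lit 5) (C.cons (nat_lit 300) (C.miq (nat_lit 2468914752) (nat_lit 362713182532366506166387825)) (C.cons (nat_lit 44) (C.node (nat_lit 2) (nat_lit 3) (nat_lit 8) (C.cons (nat_lit 780) (C.node (nat_lit 2) (nat_lit 3) (nat_lit 7) (C.cons (nat_lit 140) (C.node (nat_lit 1) (nat_lit 3) (nat_lit 9) (C.cons (nat_lit 650) (C.miq (nat_lit 1393862544) (nat_lit 31453045593513130305193857)) (C.cons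 (nat_lit 522) (C.node (nat_lit 3) (nat_lit 7) (nat_lit 9) C.nil) C.nil))) C.nil)) (C.cons (nat_lit 396) (C.miq (nat_lit 1394911104) (nat_lit 111242149688077564897462145)) (C.cons (nat_lit 268) (C.miq (nat_lit 2468914752) (nat_lit 324027556304698372575790193)) C.nil)))) C.nil))) C.nil))) C.nil))) C.nil)) C.nil))) (C.cons (nat_lit 60) (C.miq (nat_lit 1665309312) (nat_lit 72546267187801938938103681)) (C.cons (nat_lit 28) (C.miq (nat_lit 1665309312) (nat_lit 33860640960133805347506049)) C.nil)))) C.nil))) C.nil)) C.nil)) (C.cons (nat_lit 1064) (C.node (nat_lit 5) (nat_lit 7) (nat_lit 10) C.nil) C.nil))) C.nil)) C.nil)) C.nil)) (C.cons (nat_lit 1296) (C.node (nat_lit 3) (nat_lit 4) (nat_lit 10) (C.cons (nat_lit 1560) (C.node (nat_lit 6) (nat_lit 9) (nat_lit 10) (C.cons (nat_lit 1600) (C.node (nat_lit 5) (nat_lit 8) (nat_lit 10) (C.cons (nat_lit 1320) (C.miq (nat_lit 1250005840) (nat_lit 1549852696406164374789751337)) (C.cons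 (nat_lit 1312) (C.node (nat_lit 6) (nat_lit 7) (nat_lit 10) (C.cons (nat_lit 1224) (C.miq (nat_lit 1787917120) (nat_lit 1859331508026926115738288281)) (C.cons (nat_lit 1216) (C.node (nat_lit 3) (nat_lit 5) (nat_lit 10) (C.cons (nat_lit 1192) (C.node (nat_lit 3) (nat_lit 6) (nat_lit 10) (C.cons (nat_lit 1352) (C.node (nat_lit 4) (nat_lit 7) (nat_lit 9) (C.cons (nat_lit 720) (C.miq (nat_lit 1772188720) (nat_lit 1859331507885062727509409945)) (C.cons (nat_lit 688) (C.miq (nat_lit 2510374704) (nat_lit 1279053312567040710257082521)) (C.cons (nat_lit 656) (C.ref (nat_lit 71) (nat_lit 11649936536080)) C.nil)))) C.nil)) C.nil)) C.nil))) C.nil))) C.nil)) (C.cons (nat_lit 1048) (C.node (nat_lit 4) (nat_lit 9) (nat_lit 10) (C.cons (nat_lit 1552) (C.node (nat_lit 3) (nat_lit 9) (nat_lit 10) (C.cons (nat_lit 1608) (C.node (nat_lit 6) (nat_lit 7) (nat_lit 10) (C.cons (nat_lit 1216) (C.node (nat_lit 6) (nat_lit 8) (nat_lit 10) C.nil)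 C.nil)) (C.cons (nat_lit 1544) (C.node (nat_lit 6) (nat_lit 9) (nat_lit 10) (C.cons (nat_lit 1600) (C.node (nat_lit 5) (nat_lit 7) (nat_lit 10) (C.cons (nat_lit 1184) (C.node (nat_lit 3) (nat_lit 5) (nat_lit 10) (C.cons (nat_lit 1064) (C.node (nat_lit 5) (nat_lit 8) (nat_lit 10) C.nil) C.nil)) C.nil)) C.nil)) C.nil))) C.nil)) C.nil))) C.nil))) (List.cons (C.node (nat_lit 5) (nat_lit 8) (nat_lit 10) (C.cons (nat_lit 1316) (C.miq (nat_lit 1519485504) (nat_lit 1859333278940252872532754709)) (C.cons (nat_lit 1312) (C.node (nat_lit 4) (nat_lit 8) (nat_lit 9) (C.cons (nat_lit 848) (C.miq (nat_lit 945857682) (nat_lit 388084354630435561105851924)) (C.cons (nat_lit 816) (C.miq (nat_lit 1503757344) (nat_lit 1859333278799515384210718997)) (C.cons (nat_lit 784) (C.node (nat_lit 2) (nat_lit 5) (nat_lit 10) (C.cons (nat_lit 1188) (C.node (nat_lit 3) (nat_lit 5) (nat_lit 10) (C.cons (nat_lit 1064) (C.node (nat_lit 2) (nat_lit 6) (nat_lit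 10) (C.cons (nat_lit 1348) (C.node (nat_lit 3) (nat_lit 6) (nat_lit 10) (C.cons (nat_lit 1224) (C.miq (nat_lit 1644668995) (nat_lit 160809713202921359049032984)) (C.cons (nat_lit 1096) (C.node (nat_lit 3) (nat_lit 7) (nat_lit 10) (C.cons (nat_lit 1160) (C.node (nat_lit 6) (nat_lit 7) (nat_lit 10) (C.cons (nat_lit 1216) (C.ref (nat_lit 71) (nat_lit 11645894271760)) C.nil)) C.nil)) C.nil))) (C.cons (nat_lit 1092) (C.node (nat_lit 2) (nat_lit 8) (nat_lit 10) (C.cons (nat_lit 1284) (C.node (nat_lit 6) (nat_lit 8) (nat_lit 10) (C.cons (nat_lit 1344) (C.node (nat_lit 3) (nat_lit 6) (nat_lit 10) (C.cons (nat_lit 1224)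
  (C.ref (nat_lit 69) (nat_lit 11645894271760)) C.nil)) C.nil)) C.nil)) C.nil))) C.nil)) (C.cons (nat_lit 1060) (C.node (nat_lit 2) (nat_lit 7) (nat_lit 10) (C.cons (nat_lit 1220) (C.miq (nat_lit 1248957024) (nat_lit 1395110191494365511017497157)) (C.cons (nat_lit 1156) (C.node (nat_lit 2) (nat_lit 6) (nat_lit 10) (C.cons (nat_lit 1348) (C.node (nat_lit 3) (nat_lit 6) (nat_lit 10) (C.cons (nat_lit 1224) (C.miq (nat_lit 1644668995) (nat_lit 160809713202921359049032984)) (C.cons (nat_lit 1096) (C.node (nat_lit 6) (nat_lit 7) (nat_lit 10) (C.cons (nat_lit 1216) (C.node (nat_lit 3) (nat_lit 5) (nat_lit 10) (C.cons (nat_lit 1192) (C.node (nat_lit 4) (nat_lit 5) (nat_lit 8) (C.cons (nat_lit 432) (C.miq (nat_lit 2242004784) (nat_lit 1281466478661217652342456473)) (C.cons (nat_lit 304) (C.node (nat_lit 4) (nat_lit 5) (nat_lit 9) (C.cons (nat_lit 688) (C.miq (nat_lit 2510374704) (nat_lit 1279053312567040710257082521)) (C.cons (nat_lit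 560) (C.node (nat_lit 4) (nat_lit 7) (nat_lit 9) (C.cons (nat_lit 720) (C.miq (nat_lit 1956735264) (nat_lit 1259704301356206639675277893)) (C.cons (nat_lit 656) (C.node (nat_lit 1) (nat_lit 3) (nat_lit 7) (C.cons (nat_lit 650) (C.miq (nat_lit 1469358864) (nat_lit 793076311950729510370083855)) (C.cons (nat_lit 394) (C.miq (nat_lit 413561664) (nat_lit 1629635602066521242402357401)) (C.cons (nat_lit 138) (C.node (nat_lit 1) (nat_lit 3) (nat_lit 4) (C.cons (nat_lit 90) (C.miq (nat_lit 2199364704) (nat_lit 166867199669228178348639345)) (C.cons (nat_lit 58) (C.miq (nat_lit 2536573524) (nat_lit 166841558868640515747349617)) (C.cons (nat_lit 26) (C.node (nat_lit 3) (nat_lit 4) (nat_lit 5) (C.cons (nat_lit 60) (C.miq (nat_lit 1967694624) (nat_lit 367548885693731295114626063)) (C.cons (nat_lit 56) (C.node (nat_lit 2) (nat_lit 3) (nat_lit 4) (C.cons (nat_lit 92) (C.miq (nat_lit 1770266787) (nat_lit 947799539841869266434917391)) (C.cons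 (nat_lit 28) (C.node (nat_lit 2) (nat_lit 3) (nat_lit 9) (C.cons (nat_lit 780) (C.miq (nat_lit 1681001097) (nat_lit 33860640827559091349751681)) (C.cons (nat_lit 652) (C.miq (nat_lit 665228112) (nat_lit 1470064514393222706183078441)) (C.cons (nat_lit 524) (C.node (nat_lit 1) (nat_lit 3) (nat_lit 5) (C.cons (nat_lit 106) (C.node (nat_lit 2) (nat_lit 3) (nat_lit 5) C.nil) C.nil)) C.nil)))) C.nil))) C.nil))) C.nil)))) C.nil)))) C.nil))) C.nil))) C.nil))) C.nil)) C.nil)) C.nil))) (C.cons (nat_lit 1092) (C.node (nat_lit 2) (nat_lit 8) (nat_lit 10) (C.cons (nat_lit 1284) (C.node (nat_lit 6) (nat_lit 8) (nat_lit 10) C.nil) C.nil)) C.nil))) C.nil))) C.nil))) C.nil)))) C.nil))) List.nil))))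

theorem ok11_70 : okL par11 (nat_lit 74) c11_70 (nat_lit 70) = true := by decide +kernel


end Pool.Agent.MP_1f1ca1_co

end
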