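import Pool.Agent.Mg.F1f1ca1.G140a50

set_option autoImplicit false
set_option maxRecDepth 1000000
set_option maxHeartbeats 0

namespace Pool.Agent.MP_1f1ca1_co

noncomputable def c11_153 : List C :=
  (List.cons (C.node (nat_lit 6) (nat_lit 7) (nat_lit 9) (C.cons (nat_lit 736) (C.node (nat_lit 4) (nat_lit 7) (nat_lit 8) (C.cons (nat_lit 434) (C.miq (nat_lit 643041656) (nat_lit 1374553766815733711593670529)) (C.cons (nat_lit 432) (C.miq (nat_lit 643041656) (nat_lit 1374553766815733711593539457)) (C.cons (nat_lit 402) (C.miq (nat_lit 2458125937) (nat_lit 334882247420146123799658691)) (C.cons (nat_lit 400) (C.node (nat_lit 1) (nat_lit 6) (nat_lit 9) (C.cons (nat_lit 834) (C.node (nat_lit 5) (nat_lit 6) (nat_lit 8) (C.cons (nat_lit 352) (C.node (nat_lit 1) (nat_lit 4) (nat_lit 6) (C.cons (nat_lit 90) (C.miq (nat_lit 343433993) (nat_lit 483585712455742548808368717)) (C.cons (nat_lit 82) (C.node (nat_lit 1) (nat_lit 7) (nat_lit 8)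 (C.cons (nat_lit 418) (C.miq (nat_lit 1382117528) (nat_lit 84632518158492753769662337)) (C.cons (nat_lit 386) (C.node (nat_lit 5) (nat_lit 7) (nat_lit 8) (C.cons (nat_lit 416) (C.node (nat_lit 2) (nat_lit 8) (nat_lit 9) (C.cons (nat_lit 804) (C.miq (nat_lit 408381728) (nat_lit 502916738309533693781541453)) (C.cons (nat_lit 772) (C.node (nat_lit 3) (nat_lit 8) (nat_lit 9) (C.cons (nat_lit 792) (C.miq (nat_lit 407333168) (nat_lit 483573925195699575445848653)) (C.cons (nat_lit 776) (C.node (nat_lit 1) (nat_lit 5) (nat_lit 6) (C.cons (nat_lit 106) (C.node (nat_lit 1) (nat_lit 6) (nat_lit 10) (C.cons (nat_lit 1090) (C.node (nat_lit 3) (nat_lit 4) (nat_lit 6) (C.cons (nat_lit 344) (C.node (nat_lit 6) (nat_lit 8) (nat_lit 10) (C.cons (nat_lit 1344) (C.node (nat_lit 3) (nat_lit 5) (nat_lit 7) (C.cons (nat_lit 1192) (C.node (nat_lit 3) (nat_lit 6) (nat_lit 7) (C.cons (nat_lit 200) (C.node (nat_lit 6) (nat_lit 7) (nat_lit 10) C.nil) C.nil))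 (C.cons (nat_lit 168) (C.node (nat_lit 3) (nat_lit 6) (nat_lit 7) (C.cons (nat_lit 1224) (C.node (nat_lit 3) (nat_lit 7) (nat_lit 9) (C.cons (nat_lit 650) (C.miq (nat_lit 1177619065) (nat_lit 128155932420296137893349249)) (C.cons (nat_lit 648) (C.node (nat_lit 1) (nat_lit 7) (nat_lit 9) (C.cons (nat_lit 646) (C.miq (nat_lit 2794521970) (nat_lit 1008263152471780935910949029)) (C.cons (nat_lit 642) (C.node (nat_lit 5) (nat_lit 7) (nat_lit 10) (C.cons (nat_lit 1186) (C.miq (nat_lit 358786960) (nat_lit 120911600888435395531704193)) (C.cons (nat_lit 1184) (C.node (nat_lit 1) (nat_lit 7) (nat_lit 10) (C.cons (nat_lit 1170) (C.miq (nat_lit 924412480) (nat_lit 776141241669381741727646833)) (C.cons (nat_lit 1154) (C.node (nat_lit 1) (nat_lit 2) (nat_lit 9) (C.cons (nat_lit 518) (C.node (nat_lit 1) (nat_lit 3) (nat_lit 7) C.nil) C.nil)) C.nil))) C.nil))) C.nil))) C.nil))) C.nil)) C.nil))) C.nil)) (C.cons (nat_lit 88) (C.node (nat_lit 4)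 (nat_lit 6) (nat_lit 8) (C.cons (nat_lit 336) (C.node (nat_lit 1) (nat_lit 2) (nat_lit 4) C.nil) C.nil)) C.nil))) C.nil)) (C.cons (nat_lit 98) (C.node (nat_lit 3) (nat_lit 5) (nat_lit 6) (C.cons (nat_lit 104) (C.node (nat_lit 1) (nat_lit 3) (nat_lit 6) (C.cons (nat_lit 1098) (C.node (nat_lit 3) (nat_lit 6) (nat_lit 7) (C.cons (nat_lit 200) (C.node (nat_lit 6) (nat_lit 7) (nat_lit 10) (C.cons (nat_lit 1216) (C.node (nat_lit 6) (nat_lit 8) (nat_lit 10) C.nil) C.nil)) C.nil)) (C.cons (nat_lit 74) (C.node (nat_lit 1) (nat_lit 6) (nat_lit 10) (C.cons (nat_lit 1090) (C.node (nat_lit 3) (nat_lit 4) (nat_lit 6) (C.cons (nat_lit 344) (C.node (nat_lit 6) (nat_lit 8) (nat_lit 10) C.nil) (C.cons (nat_lit 88) (C.node (nat_lit 4) (nat_lit 6) (nat_lit 8) C.nil) C.nil))) C.nil)) C.nil))) C.nil)) C.nil))) C.nil))) C.nil))) C.nil)) C.nil))) C.nil))) C.nil)) (C.cons (nat_lit 578) (C.node (nat_lit 6) (nat_lit 8) (nat_lit 9) (C.cons (nat_lit 832)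 (C.node (nat_lit 1) (nat_lit 7) (nat_lit 8) (C.cons (nat_lit 418) (C.node (nat_lit 4) (nat_lit 5) (nat_lit 7) (C.cons (nat_lit 176) (C.node (nat_lit 5) (nat_lit 6) (nat_lit 8) (C.cons (nat_lit 352) (C.node (nat_lit 1) (nat_lit 5) (nat_lit 6) (C.cons (nat_lit 106) (C.miq (nat_lit 2555578134) (nat_lit 359061834098519505378083011)) (C.cons (nat_lit 98) (C.node (nat_lit 3) (nat_lit 5) (nat_lit 6) (C.cons (nat_lit 104)
  (C.node (nat_lit 3) (nat_lit 5) (nat_lit 7) (C.cons (nat_lit 1192) (C.node (nat_lit 3) (nat_lit 6) (nat_lit 7) (C.cons (nat_lit 200) (C.node (nat_lit 6) (nat_lit 7) (nat_lit 10) (C.cons (nat_lit 1216) (C.node (nat_lit 2) (nat_lit 7) (nat_lit 10) (C.cons (nat_lit 1172) (C.miq (nat_lit 925391424) (nat_lit 546439949484325484662948977)) (C.cons (nat_lit 1156) (C.node (nat_lit 5) (nat_lit 8) (nat_lit 10) (C.cons (nat_lit 1316) (C.miq (nat_lit 1118242899) (nat_lit 1397521069904328824325669161)) (C.cons (nat_lit 1312) (C.node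 (nat_lit 2) (nat_lit 5) (nat_lit 8) (C.cons (nat_lit 804) (C.miq (nat_lit 622237808) (nat_lit 118485595680800750631585665)) (C.cons (nat_lit 292) (C.node (nat_lit 1) (nat_lit 7) (nat_lit 10) (C.cons (nat_lit 1154) (C.node (nat_lit 4) (nat_lit 7) (nat_lit 10) C.nil) C.nil)) C.nil))) C.nil))) C.nil))) C.nil)) C.nil)) (C.cons (nat_lit 168) (C.node (nat_lit 5) (nat_lit 7) (nat_lit 10) (C.cons (nat_lit 1184) (C.node (nat_lit 3) (nat_lit 6) (nat_lit 7) (C.cons (nat_lit 1224) (C.node (nat_lit 1) (nat_lit 7) (nat_lit 10) (C.cons (nat_lit 1170) (C.miq (nat_lit 443107120) (nat_lit 1934291106933840799131828377)) (C.cons (nat_lit 1154) (C.node (nat_lit 3) (nat_lit 7) (nat_lit 9) (C.cons (nat_lit 650) (C.miq (nat_lit 1098516790) (nat_lit 1395121369932759879813431885)) (C.cons (nat_lit 648) (C.node (nat_lit 1) (nat_lit 7) (nat_lit 9) (C.cons (nat_lit 646) (C.miq (nat_lit 1461348640) (nat_lit 1395121369990462232846598733)) (C.cons (nat_lit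 642) (C.node (nat_lit 4) (nat_lit 5) (nat_lit 8) C.nil) C.nil))) C.nil))) C.nil))) (C.cons (nat_lit 200) (C.node (nat_lit 6) (nat_lit 7) (nat_lit 10) (C.cons (nat_lit 1216) (C.node (nat_lit 3) (nat_lit 7) (nat_lit 9) (C.cons (nat_lit 650) (C.node (nat_lit 1) (nat_lit 7) (nat_lit 10) (C.cons (nat_lit 1170) (C.miq (nat_lit 933663040) (nat_lit 1470064661966612251416789523)) (C.cons (nat_lit 1154) (C.node (nat_lit 4) (nat_lit 5) (nat_lit 8) C.nil) C.nil))) (C.cons (nat_lit 648) (C.node (nat_lit 4) (nat_lit 5) (nat_lit 8) (C.cons (nat_lit 816) (C.node (nat_lit 1) (nat_lit 7) (nat_lit 9) C.nil) C.nil)) C.nil))) C.nil)) C.nil))) C.nil)) C.nil))) C.nil)) C.nil))) C.nil)) C.nil)) (C.cons (nat_lit 386) (C.node (nat_lit 5) (nat_lit 7) (nat_lit 8) (C.cons (nat_lit 416) (C.node (nat_lit 3) (nat_lit 5) (nat_lit 6) (C.cons (nat_lit 106) (C.node (nat_lit 5) (nat_lit 6) (nat_lit 8) (C.cons (nat_lit 352) (C.node (nat_lit 1) (nat_lit 4) (nat_lit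 6) (C.cons (nat_lit 338) (C.node (nat_lit 1) (nat_lit 6) (nat_lit 10) (C.cons (nat_lit 1090) (C.node (nat_lit 3) (nat_lit 4) (nat_lit 6) (C.cons (nat_lit 88) (C.node (nat_lit 3) (nat_lit 5) (nat_lit 7) (C.cons (nat_lit 1192) (C.node (nat_lit 3) (nat_lit 6) (nat_lit 7) (C.cons (nat_lit 200) (C.node (nat_lit 6) (nat_lit 7) (nat_lit 10) (C.cons (nat_lit 1216) (C.node (nat_lit 3) (nat_lit 6) (nat_lit 8) (C.cons (nat_lit 1352) (C.node (nat_lit 4) (nat_lit 8) (nat_lit 10) (C.cons (nat_lit 1296) (C.node (nat_lit 1) (nat_lit 8) (nat_lit 10) (C.cons (nat_lit 1314) (C.miq (nat_lit 2708047152) (nat_lit 698794560302479833731760425)) C.nil)) C.nil)) C.nil)) C.nil)) C.nil)) (C.cons (nat_lit 168) (C.node (nat_lit 5) (nat_lit 7) (nat_lit 10) (C.cons (nat_lit 1186) (C.miq (nat_lit 358786960) (nat_lit 120911600888435395531704193)) (C.cons (nat_lit 1184) (C.node (nat_lit 3) (nat_lit 7) (nat_lit 9) (C.cons (nat_lit 650) (C.miq (nat_lit 363279881)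 (nat_lit 1431380160837210085095703117)) (C.cons (nat_lit 648) (C.node (nat_lit 1) (nat_lit 7) (nat_lit 9) (C.cons (nat_lit 646) (C.miq (nat_lit 441917545) (nat_lit 1431380087310598143637193293)) (C.cons (nat_lit 642) (C.node (nat_lit 1) (nat_lit 5) (nat_lit 7) (C.cons (nat_lit 178) (C.node (nat_lit 1) (nat_lit 2) (nat_lit 7) C.nil) C.nil)) C.nil))) C.nil))) C.nil))) C.nil))) C.nil)) C.nil)) (C.cons (nat_lit 82) (C.node (nat_lit 1) (nat_lit 6) (nat_lit 8) (C.cons (nat_lit 1346) (C.node (nat_lit 4) (nat_lit 8) (nat_lit 10) (C.cons (nat_lit 1304) (C.miq (nat_lit 406284864) (nat_lit 473902518782899929147311217)) (C.cons (nat_lit 1296)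
  (C.node (nat_lit 5) (nat_lit 8) (nat_lit 10) (C.cons (nat_lit 1316) (C.miq (nat_lit 405236304) (nat_lit 546438067959777731170075761)) (C.cons (nat_lit 1312) (C.node (nat_lit 2) (nat_lit 8) (nat_lit 10) (C.cons (nat_lit 1292) (C.node (nat_lit 2) (nat_lit 5) (nat_lit 10) (C.cons (nat_lit 1572) (C.miq (nat_lit 627157360) (nat_lit 128165155914772511564433281)) (C.cons (nat_lit 1060) (C.node (nat_lit 3) (nat_lit 4) (nat_lit 6) (C.cons (nat_lit 344) (C.node (nat_lit 3) (nat_lit 6) (nat_lit 7) (C.cons (nat_lit 1224) (C.node (nat_lit 3) (nat_lit 5) (nat_lit 7) (C.cons (nat_lit 168) (C.node (nat_lit 1) (nat_lit 3) (nat_lit 8) (C.cons (nat_lit 778) (C.miq (nat_lit 1518428307) (nat_lit 1627216108876207981570163277)) (C.cons (nat_lit 266) (C.node (nat_lit 1) (nat_lit 4) (nat_lit 8) (C.cons (nat_lit 306) (C.miq (nat_lit 588777044) (nat_lit 321579377931388994586805361)) C.nil)) C.nil))) C.nil)) C.nil)) C.nil)) C.nil))) (C.cons (nat_lit 1284)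 (C.node (nat_lit 3) (nat_lit 8) (nat_lit 10) (C.cons (nat_lit 1288) (C.node (nat_lit 3) (nat_lit 4) (nat_lit 6) (C.cons (nat_lit 344) (C.node (nat_lit 1) (nat_lit 4) (nat_lit 8) (C.cons (nat_lit 306) (C.miq (nat_lit 1096975664) (nat_lit 84629917207264257953825065)) C.nil)) C.nil)) C.nil)) C.nil))) C.nil))) C.nil))) (C.cons (nat_lit 322) (C.node (nat_lit 1) (nat_lit 6) (nat_lit 10) (C.cons (nat_lit 1090) (C.node (nat_lit 3) (nat_lit 4) (nat_lit 6) (C.cons (nat_lit 344) (C.node (nat_lit 6) (nat_lit 8) (nat_lit 10) C.nil) (C.cons (nat_lit 88) (C.node (nat_lit 4) (nat_lit 6) (nat_lit 8) C.nil) C.nil))) C.nil)) C.nil))) C.nil))) C.nil)) (C.cons (nat_lit 104) (C.node (nat_lit 1) (nat_lit 5) (nat_lit 6) (C.cons (nat_lit 354) (C.node (nat_lit 1) (nat_lit 4) (nat_lit 6) (C.cons (nat_lit 90) (C.node (nat_lit 1) (nat_lit 6) (nat_lit 10) (C.cons (nat_lit 1090) (C.node (nat_lit 4) (nat_lit 6) (nat_lit 8) (C.cons (nat_lit 336) (C.node (nat_lit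 3) (nat_lit 6) (nat_lit 7) (C.cons (nat_lit 1224) (C.miq (nat_lit 2786685760) (nat_lit 698794560277147017104523417)) (C.cons (nat_lit 200) (C.node (nat_lit 6) (nat_lit 7) (nat_lit 10) (C.cons (nat_lit 1216) (C.node (nat_lit 3) (nat_lit 6) (nat_lit 8) (C.cons (nat_lit 1352) (C.node (nat_lit 2) (nat_lit 3) (nat_lit 8) (C.cons (nat_lit 270) (C.miq (nat_lit 2553350756) (nat_lit 326419767057772254005429361)) (C.cons (nat_lit 268) (C.node (nat_lit 1) (nat_lit 2) (nat_lit 8) (C.cons (nat_lit 774) (C.miq (nat_lit 832070666) (nat_lit 935733524405045665193854065)) C.nil)) C.nil))) C.nil)) C.nil)) C.nil))) C.nil)) C.nil)) (C.cons (nat_lit 82) (C.node (nat_lit 1) (nat_lit 3) (nat_lit 6) (C.cons (nat_lit 1098) (C.node (nat_lit 3) (nat_lit 6) (nat_lit 7) (C.cons (nat_lit 200) (C.node (nat_lit 6) (nat_lit 7) (nat_lit 10) (C.cons (nat_lit 1216) (C.node (nat_lit 6) (nat_lit 8) (nat_lit 10) (C.cons (nat_lit 1344) (C.node (nat_lit 3) (nat_lit 4)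 (nat_lit 6) (C.cons (nat_lit 344) (C.node (nat_lit 3) (nat_lit 8) (nat_lit 9) (C.cons (nat_lit 778) (C.miq (nat_lit 557320804) (nat_lit 940549397698495332352525425)) (C.cons (nat_lit 776) (C.node (nat_lit 1) (nat_lit 8) (nat_lit 9) (C.cons (nat_lit 774) (C.miq (nat_lit 941712394) (nat_lit 935728839003544496072230001)) C.nil)) C.nil))) C.nil)) C.nil)) C.nil)) C.nil)) (C.cons (nat_lit 74) (C.node (nat_lit 1) (nat_lit 6) (nat_lit 10) (C.cons (nat_lit 1090) (C.node (nat_lit 3) (nat_lit 4) (nat_lit 6) (C.cons (nat_lit 344) (C.node (nat_lit 6) (nat_lit 8) (nat_lit 10) (C.cons (nat_lit 1344) (C.node (nat_lit 1) (nat_lit 4) (nat_lit 8) (C.cons (nat_lit 1298) (C.node (nat_lit 3) (nat_lit 8) (nat_lit 9) (C.cons (nat_lit 778) (C.miq (nat_lit 1094101136) (nat_lit 89481484964852227982034817)) C.nil)) C.nil)) C.nil)) (C.cons (nat_lit 88) (C.node (nat_lit 4) (nat_lit 6) (nat_lit 8) C.nil) C.nil))) C.nil)) C.nil))) C.nil))) (C.cons (nat_lit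 98) (C.node (nat_lit 5) (nat_lit 6) (nat_lit 8) (C.cons (nat_lit 352) (C.node (nat_lit 3) (nat_lit 6) (nat_lit 7) (C.cons (nat_lit 1224) (C.node (nat_lit 5) (nat_lit 7) (nat_lit 10) (C.cons (nat_lit 1186)
  (C.miq (nat_lit 358786960) (nat_lit 120911600888435395531704193)) (C.cons (nat_lit 1184) (C.node (nat_lit 1) (nat_lit 7) (nat_lit 10) (C.cons (nat_lit 1170) (C.miq (nat_lit 443107120) (nat_lit 1934291106933840799131828377)) (C.cons (nat_lit 1154) (C.node (nat_lit 3) (nat_lit 7) (nat_lit 9) (C.cons (nat_lit 650) (C.miq (nat_lit 1098516790) (nat_lit 1395121369932759879813431885)) (C.cons (nat_lit 648) (C.node (nat_lit 1) (nat_lit 7) (nat_lit 9) (C.cons (nat_lit 646) (C.miq (nat_lit 1461348640) (nat_lit 1395121369990462232846598733)) (C.cons (nat_lit 642) (C.node (nat_lit 1) (nat_lit 6) (nat_lit 10) (C.cons (nat_lit 1346) (C.node (nat_lit 1) (nat_lit 3) (nat_lit 6) C.nil) (C.cons (nat_lit 1090) (C.node (nat_lit 1) (nat_lit 2)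 (nat_lit 7) C.nil) C.nil))) C.nil))) C.nil))) C.nil))) C.nil))) (C.cons (nat_lit 200) (C.node (nat_lit 6) (nat_lit 7) (nat_lit 10) (C.cons (nat_lit 1216) (C.node (nat_lit 3) (nat_lit 7) (nat_lit 9) (C.cons (nat_lit 650) (C.node (nat_lit 4) (nat_lit 5) (nat_lit 7) (C.cons (nat_lit 178) (C.miq (nat_lit 928420160) (nat_lit 889780268551585986950267411)) (C.cons (nat_lit 176) (C.node (nat_lit 1) (nat_lit 5) (nat_lit 7) (C.cons (nat_lit 1186) (C.miq (nat_lit 358786960) (nat_lit 120911600888435395531704193)) (C.cons (nat_lit 162) (C.node (nat_lit 1) (nat_lit 7) (nat_lit 10) (C.cons (nat_lit 1170) (C.miq (nat_lit 933663040) (nat_lit 1470064661966612251416789523)) (C.cons (nat_lit 1154) (C.node (nat_lit 1) (nat_lit 2) (nat_lit 7) (C.cons (nat_lit 134) (C.node (nat_lit 1) (nat_lit 4) (nat_lit 7) C.nil) C.nil)) C.nil))) C.nil))) C.nil))) (C.cons (nat_lit 648) (C.node (nat_lit 1) (nat_lit 7) (nat_lit 9) (C.cons (nat_lit 646) (C.miq (nat_lit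 2794521970) (nat_lit 698778142650435867186167973)) (C.cons (nat_lit 642) (C.node (nat_lit 2) (nat_lit 7) (nat_lit 9) (C.cons (nat_lit 660) (C.node (nat_lit 2) (nat_lit 9) (nat_lit 10) (C.cons (nat_lit 1572) (C.miq (nat_lit 627157360) (nat_lit 118493749357855478166783873)) (C.cons (nat_lit 1540) (C.node (nat_lit 1) (nat_lit 2) (nat_lit 7) (C.cons (nat_lit 142) (C.node (nat_lit 2) (nat_lit 7) (nat_lit 10) C.nil) (C.cons (nat_lit 134) (C.node (nat_lit 2) (nat_lit 3) (nat_lit 7) (C.cons (nat_lit 140) (C.node (nat_lit 2) (nat_lit 7) (nat_lit 10) C.nil) C.nil)) C.nil))) C.nil))) (C.cons (nat_lit 644) (C.node (nat_lit 4) (nat_lit 7) (nat_lit 9) (C.cons (nat_lit 656) (C.node (nat_lit 4) (nat_lit 5) (nat_lit 7) (C.cons (nat_lit 178) (C.node (nat_lit 1) (nat_lit 2) (nat_lit 7) C.nil) C.nil)) C.nil)) C.nil))) C.nil))) C.nil))) C.nil)) C.nil))) C.nil)) C.nil))) C.nil))) C.nil)) C.nil))) C.nil)) C.nil))) C.nil))))) (C.cons (nat_lit 704) (C.node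 (nat_lit 5) (nat_lit 6) (nat_lit 7) (C.cons (nat_lit 232) (C.node (nat_lit 6) (nat_lit 7) (nat_lit 10) (C.cons (nat_lit 1216) (C.node (nat_lit 4) (nat_lit 7) (nat_lit 8) (C.cons (nat_lit 434) (C.miq (nat_lit 931292480) (nat_lit 546445335663375860523926641)) (C.cons (nat_lit 432) (C.miq (nat_lit 931292480) (nat_lit 546445335663375851933992049)) (C.cons (nat_lit 402) (C.miq (nat_lit 2458125937) (nat_lit 334882247420146123799658691)) (C.cons (nat_lit 400) (C.node (nat_lit 1) (nat_lit 7) (nat_lit 8) (C.cons (nat_lit 418) (C.node (nat_lit 5) (nat_lit 7) (nat_lit 10) (C.cons (nat_lit 1184) (C.node (nat_lit 1) (nat_lit 5) (nat_lit 6) (C.cons (nat_lit 610) (C.miq (nat_lit 1096223075) (nat_lit 505333815100224105167192653)) (C.cons (nat_lit 98) (C.node (nat_lit 1) (nat_lit 6) (nat_lit 9) (C.cons (nat_lit 834) (C.miq (nat_lit 638912903) (nat_lit 118477774200798164509919105)) (C.cons (nat_lit 578) (C.node (nat_lit 3) (nat_lit 7) (nat_lit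 9) (C.cons (nat_lit 650) (C.miq (nat_lit 1098189110) (nat_lit 505351966696392807164674637)) (C.cons (nat_lit 648) (C.node (nat_lit 1) (nat_lit 7) (nat_lit 9) (C.cons (nat_lit 646) (C.node (nat_lit 1) (nat_lit 2) (nat_lit 8) (C.cons (nat_lit 270) (C.miq (nat_lit 1394704535) (nat_lit 326417682118573285624383361)) (C.cons (nat_lit 262) (C.node (nat_lit 1) (nat_lit 4) (nat_lit 7) (C.cons (nat_lit 1170)
  (C.miq (nat_lit 1093052304) (nat_lit 84645781650364347328563073)) (C.cons (nat_lit 146) (C.node (nat_lit 1) (nat_lit 8) (nat_lit 9) (C.cons (nat_lit 778) (C.node (nat_lit 2) (nat_lit 8) (nat_lit 9) (C.cons (nat_lit 804) (C.miq (nat_lit 622237808) (nat_lit 118485595680800750631585665)) (C.cons (nat_lit 772) (C.node (nat_lit 4) (nat_lit 5) (nat_lit 7) (C.cons (nat_lit 688) (C.miq (nat_lit 2775712913) (nat_lit 199491779149593811874087443)) (C.cons (nat_lit 176) (C.node (nat_lit 4) (nat_lit 7) (nat_lit 9) (C.cons (nat_lit 656) (C.node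 (nat_lit 5) (nat_lit 7) (nat_lit 9) (C.cons (nat_lit 672) (C.node (nat_lit 1) (nat_lit 5) (nat_lit 9) (C.cons (nat_lit 1570) (C.node (nat_lit 5) (nat_lit 6) (nat_lit 9) (C.cons (nat_lit 864) (C.node (nat_lit 4) (nat_lit 8) (nat_lit 9) C.nil) C.nil)) C.nil)) C.nil)) C.nil)) C.nil))) C.nil))) (C.cons (nat_lit 770) (C.miq (nat_lit 941163890) (nat_lit 930883746319123742871388325)) C.nil))) C.nil))) C.nil))) (C.cons (nat_lit 642) (C.node (nat_lit 2) (nat_lit 7) (nat_lit 9) (C.cons (nat_lit 660) (C.node (nat_lit 4) (nat_lit 5) (nat_lit 7) (C.cons (nat_lit 176) (C.node (nat_lit 5) (nat_lit 7) (nat_lit 9) (C.cons (nat_lit 672) (C.node (nat_lit 1) (nat_lit 2) (nat_lit 7) (C.cons (nat_lit 142) (C.miq (nat_lit 2775647794) (nat_lit 505350011512093034536632909)) (C.cons (nat_lit 134) (C.node (nat_lit 3) (nat_lit 8) (nat_lit 9) (C.cons (nat_lit 792) (C.miq (nat_lit 2222274848) (nat_lit 212776423158095642729185869)) (C.cons (nat_lit 778) (C.miq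 (nat_lit 655951235) (nat_lit 776141241371296511591842089)) (C.cons (nat_lit 776) (C.node (nat_lit 2) (nat_lit 3) (nat_lit 5) (C.cons (nat_lit 1068) (C.miq (nat_lit 923948554) (nat_lit 162015761016334063394817137)) (C.cons (nat_lit 62) (C.miq (nat_lit 2269448483) (nat_lit 212776423475880891428766285)) (C.cons (nat_lit 60) (C.miq (nat_lit 2269448483) (nat_lit 212776423475880891428635213)) (C.cons (nat_lit 46) (C.miq (nat_lit 328749575) (nat_lit 938134146772925428954890405)) (C.cons (nat_lit 44) (C.node (nat_lit 1) (nat_lit 3) (nat_lit 7) (C.cons (nat_lit 1162) (C.node (nat_lit 1) (nat_lit 4) (nat_lit 7) (C.cons (nat_lit 146) (C.node (nat_lit 2) (nat_lit 3) (nat_lit 7) C.nil) C.nil)) (C.cons (nat_lit 138) (C.node (nat_lit 1) (nat_lit 4) (nat_lit 7) (C.cons (nat_lit 1170) (C.node (nat_lit 5) (nat_lit 6) (nat_lit 8) C.nil) C.nil)) C.nil))) C.nil)))))) C.nil)))) C.nil))) C.nil)) C.nil)) (C.cons (nat_lit 644) (C.node (nat_lit 4) (nat_lit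 5) (nat_lit 7) (C.cons (nat_lit 688) (C.node (nat_lit 4) (nat_lit 5) (nat_lit 8) (C.cons (nat_lit 304) (C.node (nat_lit 2) (nat_lit 4) (nat_lit 9) (C.cons (nat_lit 1556) (C.node (nat_lit 4) (nat_lit 7) (nat_lit 10) (C.cons (nat_lit 1170) (C.miq (nat_lit 371486874) (nat_lit 101571351593085241147000705)) (C.cons (nat_lit 1168) (C.node (nat_lit 2) (nat_lit 4) (nat_lit 5) (C.cons (nat_lit 62) (C.miq (nat_lit 2300774981) (nat_lit 712062786976726588873114737)) (C.cons (nat_lit 60) (C.miq (nat_lit 2300774981) (nat_lit 712062786976726588872983665)) (C.cons (nat_lit 54) (C.miq (nat_lit 2807171393) (nat_lit 199491779370270193576444435)) (C.cons (nat_lit 52) (C.node (nat_lit 2) (nat_lit 3) (nat_lit 5) (C.cons (nat_lit 1068) (C.miq (nat_lit 391775794) (nat_lit 1431387189071749554360812109)) (C.cons (nat_lit 46) (C.miq (nat_lit 695283845) (nat_lit 776131224908616332742885673)) (C.cons (nat_lit 44) (C.node (nat_lit 5) (nat_lit 6) (nat_lit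 8) (C.cons (nat_lit 864) (C.node (nat_lit 2) (nat_lit 8) (nat_lit 9) (C.cons (nat_lit 774) (C.miq (nat_lit 2776696466) (nat_lit 505350011512095748997382733)) (C.cons (nat_lit 772) (C.node (nat_lit 1) (nat_lit 8) (nat_lit 9) (C.cons (nat_lit 778) (C.miq (nat_lit 354649865) (nat_lit 53207087747590278691489665)) C.nil)) C.nil))) C.nil)) C.nil)))) C.nil))))) C.nil))) (C.cons (nat_lit 532) (C.node (nat_lit 2) (nat_lit 9) (nat_lit 10) (C.cons (nat_lit 1572) (C.node (nat_lit 2) (nat_lit 5) (nat_lit 8) (C.cons (nat_lit 292) (C.node (nat_lit 5) (nat_lit 8) (nat_lit 10) (C.cons (nat_lit 1312)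
  (C.node (nat_lit 5) (nat_lit 6) (nat_lit 9) (C.cons (nat_lit 864) (C.node (nat_lit 1) (nat_lit 5) (nat_lit 9) C.nil) C.nil)) C.nil)) C.nil)) (C.cons (nat_lit 1540) (C.node (nat_lit 4) (nat_lit 8) (nat_lit 9) (C.cons (nat_lit 792) (C.node (nat_lit 4) (nat_lit 9) (nat_lit 10) (C.cons (nat_lit 1552) (C.node (nat_lit 3) (nat_lit 4) (nat_lit 6) (C.cons (nat_lit 90) (C.miq (nat_lit 394551443) (nat_lit 483571988107714174884774477)) (C.cons (nat_lit 88) (C.node (nat_lit 1) (nat_lit 4) (nat_lit 6) C.nil) C.nil))) C.nil)) (C.cons (nat_lit 784) (C.node (nat_lit 3) (nat_lit 8) (nat_lit 9) (C.cons (nat_lit 778) (C.miq (nat_lit 655951235) (nat_lit 776141241371296511591842089)) (C.cons (nat_lit 776) (C.node (nat_lit 5) (nat_lit 6) (nat_lit 9) (C.cons (nat_lit 864) (C.node (nat_lit 1) (nat_lit 8) (nat_lit 9) (C.cons (nat_lit 774) (C.miq (nat_lit 2776696466) (nat_lit 505350011512095748997382733)) C.nil)) C.nil)) C.nil))) C.nil))) C.nil))) C.nil)))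 C.nil)) (C.cons (nat_lit 176) (C.node (nat_lit 4) (nat_lit 7) (nat_lit 9) (C.cons (nat_lit 656) (C.node (nat_lit 5) (nat_lit 7) (nat_lit 9) (C.cons (nat_lit 672) (C.node (nat_lit 1) (nat_lit 2) (nat_lit 7) (C.cons (nat_lit 150) (C.node (nat_lit 4) (nat_lit 7) (nat_lit 10) C.nil) (C.cons (nat_lit 142) (C.miq (nat_lit 2775647794) (nat_lit 505350011512093034536632909)) C.nil))) C.nil)) C.nil)) C.nil))) C.nil))) C.nil))) C.nil))) C.nil))) C.nil))) C.nil)) (C.cons (nat_lit 386) (C.node (nat_lit 5) (nat_lit 7) (nat_lit 8) (C.cons (nat_lit 416) (C.node (nat_lit 3) (nat_lit 7) (nat_lit 9) (C.cons (nat_lit 650) (C.node (nat_lit 1) (nat_lit 2) (nat_lit 7) (C.cons (nat_lit 150) (C.miq (nat_lit 1410818195) (nat_lit 181343152906858806012150349)) (C.cons (nat_lit 134) (C.node (nat_lit 3) (nat_lit 8) (nat_lit 9) (C.cons (nat_lit 792) (C.miq (nat_lit 1402234640) (nat_lit 957490223148103100487893187)) (C.cons (nat_lit 776) (C.node (nat_lit 4)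 (nat_lit 8) (nat_lit 9) (C.cons (nat_lit 816) (C.miq (nat_lit 960852230) (nat_lit 986487748633123522740289731)) (C.cons (nat_lit 784) (C.node (nat_lit 4) (nat_lit 5) (nat_lit 8) (C.cons (nat_lit 306) (C.miq (nat_lit 1967207945) (nat_lit 369943291251031516678128205)) (C.cons (nat_lit 304) (C.node (nat_lit 5) (nat_lit 7) (nat_lit 9) (C.cons (nat_lit 688) (C.miq (nat_lit 391418720) (nat_lit 831750759298927743338611277)) (C.cons (nat_lit 672) (C.node (nat_lit 4) (nat_lit 5) (nat_lit 7) (C.cons (nat_lit 178) (C.node (nat_lit 1) (nat_lit 7) (nat_lit 10) (C.cons (nat_lit 1154) (C.node (nat_lit 5) (nat_lit 7) (nat_lit 10) (C.cons (nat_lit 1184) (C.node (nat_lit 1) (nat_lit 2) (nat_lit 4) (C.cons (nat_lit 30) (C.miq (nat_lit 2266237234) (nat_lit 215193906180228632635376205)) (C.cons (nat_lit 22) (C.node (nat_lit 1) (nat_lit 9) (nat_lit 10) (C.cons (nat_lit 1570) (C.miq (nat_lit 877752489) (nat_lit 215200786318122459223689089)) (C.cons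 (nat_lit 1538) (C.node (nat_lit 3) (nat_lit 4) (nat_lit 5) (C.cons (nat_lit 568) (C.node (nat_lit 2) (nat_lit 4) (nat_lit 5) (C.cons (nat_lit 52) (C.node (nat_lit 3) (nat_lit 9) (nat_lit 10) (C.cons (nat_lit 1544) (C.node (nat_lit 4) (nat_lit 7) (nat_lit 9) (C.cons (nat_lit 660) (C.node (nat_lit 4) (nat_lit 7) (nat_lit 10) C.nil) C.nil)) C.nil)) C.nil)) (C.cons (nat_lit 60) (C.miq (nat_lit 2488471655) (nat_lit 72547539709993757717299395)) (C.cons (nat_lit 56) (C.miq (nat_lit 2488471655) (nat_lit 67711836431535241018474691)) C.nil)))) C.nil))) C.nil))) C.nil)) C.nil)) (C.cons (nat_lit 176) (C.miq (nat_lit 391418720) (nat_lit 212780739656237605889049165)) C.nil))) C.nil))) C.nil))) C.nil))) C.nil))) C.nil))) (C.cons (nat_lit 648) (C.node (nat_lit 5) (nat_lit 7) (nat_lit 10) (C.cons (nat_lit 1186) (C.node (nat_lit 1) (nat_lit 3) (nat_lit 7) (C.cons (nat_lit 142) (C.node (nat_lit 1) (nat_lit 4) (nat_lit 7) (C.cons (nat_lit 146) (C.node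 (nat_lit 1) (nat_lit 7) (nat_lit 9) (C.cons (nat_lit 642) (C.node (nat_lit 3) (nat_lit 7) (nat_lit 10) (C.cons (nat_lit 1160) (C.node (nat_lit 1) (nat_lit 2) (nat_lit 4) (C.cons (nat_lit 54)
  (C.miq (nat_lit 2266106452) (nat_lit 171672576674104284449997937)) (C.cons (nat_lit 22) (C.node (nat_lit 1) (nat_lit 9) (nat_lit 10) (C.cons (nat_lit 1546) (C.miq (nat_lit 1378971802) (nat_lit 171689344270194663330809729)) (C.cons (nat_lit 1538) (C.node (nat_lit 2) (nat_lit 3) (nat_lit 8) (C.cons (nat_lit 1292) (C.miq (nat_lit 1512272134) (nat_lit 1561936438920559744865075395)) (C.cons (nat_lit 268) (C.node (nat_lit 2) (nat_lit 8) (nat_lit 10) (C.cons (nat_lit 1316) (C.miq (nat_lit 899835664) (nat_lit 1590957243810418697334882499)) (C.cons (nat_lit 1284) (C.node (nat_lit 5) (nat_lit 8) (nat_lit 10) (C.cons (nat_lit 1312) (C.node (nat_lit 2) (nat_lit 3) (nat_lit 5) (C.cons (nat_lit 1068) (C.node (nat_lit 2) (nat_lit 3) (nat_lit 4) (C.cons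 (nat_lit 28) (C.node (nat_lit 5) (nat_lit 9) (nat_lit 10) (C.cons (nat_lit 1568) (C.node (nat_lit 2) (nat_lit 7) (nat_lit 10) (C.cons (nat_lit 1172) (C.node (nat_lit 2) (nat_lit 7) (nat_lit 9) C.nil) C.nil)) C.nil)) C.nil)) (C.cons (nat_lit 60) (C.miq (nat_lit 2721386599) (nat_lit 72557427305552400750215363)) (C.cons (nat_lit 44) (C.miq (nat_lit 2721386599) (nat_lit 53214614191718333954916547)) C.nil)))) C.nil)) C.nil))) C.nil))) C.nil))) C.nil))) C.nil)) C.nil)) C.nil)) (C.cons (nat_lit 138) (C.miq (nat_lit 561187414) (nat_lit 166842628529284035870458993)) C.nil))) (C.cons (nat_lit 1184) (C.node (nat_lit 1) (nat_lit 3) (nat_lit 7) (C.cons (nat_lit 1162) (C.node (nat_lit 2) (nat_lit 3) (nat_lit 7) (C.cons (nat_lit 140) (C.node (nat_lit 1) (nat_lit 4) (nat_lit 10) (C.cons (nat_lit 1298) (C.node (nat_lit 1) (nat_lit 6) (nat_lit 10) (C.cons (nat_lit 1090) (C.node (nat_lit 4) (nat_lit 6) (nat_lit 8) (C.cons (nat_lit 344) (C.miq (nat_lit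 657982820) (nat_lit 473904031083487421642835057)) (C.cons (nat_lit 336) (C.node (nat_lit 2) (nat_lit 3) (nat_lit 8) (C.cons (nat_lit 1292) (C.miq (nat_lit 2443379842) (nat_lit 1404782667673927303520059669)) (C.cons (nat_lit 270) (C.miq (nat_lit 910696609) (nat_lit 406204056177208949025670151)) (C.cons (nat_lit 268) (C.node (nat_lit 3) (nat_lit 4) (nat_lit 8) (C.cons (nat_lit 792) (C.miq (nat_lit 2721583252) (nat_lit 324016063820731524595581459)) (C.cons (nat_lit 280) (C.node (nat_lit 1) (nat_lit 4) (nat_lit 6) (C.cons (nat_lit 90) (C.node (nat_lit 3) (nat_lit 6) (nat_lit 8) (C.cons (nat_lit 1352) (C.node (nat_lit 1) (nat_lit 6) (nat_lit 9) (C.cons (nat_lit 866) (C.miq (nat_lit 832070666) (nat_lit 1046954699809591549266822257)) (C.cons (nat_lit 834) (C.miq (nat_lit 832070666) (nat_lit 1008269073581923415676224625)) (C.cons (nat_lit 610) (C.miq (nat_lit 1460233025) (nat_lit 2322357752058890459198718042)) C.nil)))) C.nil)) (C.cons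 (nat_lit 82) (C.node (nat_lit 3) (nat_lit 4) (nat_lit 6) (C.cons (nat_lit 88) (C.node (nat_lit 6) (nat_lit 8) (nat_lit 10) C.nil) C.nil)) C.nil))) C.nil))) C.nil)))) C.nil))) C.nil)) (C.cons (nat_lit 1042) (C.node (nat_lit 1) (nat_lit 6) (nat_lit 10) (C.cons (nat_lit 1346) (C.node (nat_lit 3) (nat_lit 6) (nat_lit 10) (C.cons (nat_lit 1096) (C.node (nat_lit 1) (nat_lit 3) (nat_lit 6) (C.cons (nat_lit 90) (C.miq (nat_lit 2167907904) (nat_lit 1404807238966430402266858609)) (C.cons (nat_lit 74) (C.node (nat_lit 1) (nat_lit 4) (nat_lit 6) (C.cons (nat_lit 82) (C.node (nat_lit 1) (nat_lit 5) (nat_lit 6) (C.cons (nat_lit 98) (C.node (nat_lit 1) (nat_lit 6) (nat_lit 9) (C.cons (nat_lit 578) (C.node (nat_lit 1) (nat_lit 5) (nat_lit 10) C.nil) C.nil)) C.nil)) C.nil)) C.nil))) C.nil)) (C.cons (nat_lit 1090) (C.node (nat_lit 1) (nat_lit 8) (nat_lit 10) (C.cons (nat_lit 1314) (C.node (nat_lit 1) (nat_lit 9) (nat_lit 10) (C.cons (nat_lit 1538)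 (C.node (nat_lit 5) (nat_lit 6) (nat_lit 8) (C.cons (nat_lit 864) (C.miq (nat_lit 358787216) (nat_lit 120911600924464742306482049)) (C.cons (nat_lit 352) (C.node (nat_lit 1) (nat_lit 2) (nat_lit 8) (C.cons (nat_lit 774) (C.miq (nat_lit 1361488016) (nat_lit 84645781690897293730711425)) (C.cons (nat_lit 270) (C.miq (nat_lit 1703086610) (nat_lit 359061833877846971938374663)) (C.cons (nat_lit 262)
  (C.node (nat_lit 1) (nat_lit 2) (nat_lit 3) (C.cons (nat_lit 62) (C.miq (nat_lit 2167907648) (nat_lit 1404807238957423082753033329)) (C.cons (nat_lit 46) (C.miq (nat_lit 2555578898) (nat_lit 359061834098523353664848903)) (C.cons (nat_lit 30) (C.miq (nat_lit 2268334610) (nat_lit 184970760689865102290977799)) (C.cons (nat_lit 14) (C.node (nat_lit 1) (nat_lit 5) (nat_lit 6) (C.cons (nat_lit 610) (C.node (nat_lit 6) (nat_lit 8) (nat_lit 9) C.nil) (C.cons (nat_lit 98) (C.node (nat_lit 5) (nat_lit 6) (nat_lit 9) (C.cons (nat_lit 608) (C.node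 (nat_lit 1) (nat_lit 6) (nat_lit 9) C.nil) C.nil)) C.nil))) C.nil))))) C.nil)))) C.nil))) C.nil)) (C.cons (nat_lit 1282) (C.node (nat_lit 1) (nat_lit 5) (nat_lit 10) (C.cons (nat_lit 1570) (C.node (nat_lit 1) (nat_lit 5) (nat_lit 7) (C.cons (nat_lit 178) (C.miq (nat_lit 2473657940) (nat_lit 1404781597779091998507140209)) (C.cons (nat_lit 162) (C.node (nat_lit 3) (nat_lit 5) (nat_lit 9) (C.cons (nat_lit 568) (C.miq (nat_lit 389613140) (nat_lit 783393726386271461909726321)) (C.cons (nat_lit 552) (C.node (nat_lit 3) (nat_lit 5) (nat_lit 10) (C.cons (nat_lit 1068) (C.miq (nat_lit 594650464) (nat_lit 1404790821285955367128466545)) (C.cons (nat_lit 1064) (C.node (nat_lit 1) (nat_lit 3) (nat_lit 9) (C.cons (nat_lit 778) (C.node (nat_lit 1) (nat_lit 6) (nat_lit 9) (C.cons (nat_lit 578) (C.node (nat_lit 3) (nat_lit 6) (nat_lit 10) (C.cons (nat_lit 1352) (C.miq (nat_lit 1099565366) (nat_lit 1549863874843432963940024909)) C.nil)) C.nil))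 (C.cons (nat_lit 522) (C.node (nat_lit 1) (nat_lit 4) (nat_lit 7) (C.cons (nat_lit 150) (C.node (nat_lit 2) (nat_lit 7) (nat_lit 10) C.nil) (C.cons (nat_lit 146) (C.node (nat_lit 1) (nat_lit 2) (nat_lit 7) (C.cons (nat_lit 646) (C.node (nat_lit 1) (nat_lit 5) (nat_lit 6) C.nil) C.nil)) C.nil))) C.nil))) C.nil))) C.nil))) C.nil))) (C.cons (nat_lit 1058) (C.node (nat_lit 1) (nat_lit 9) (nat_lit 10) (C.cons (nat_lit 1538) (C.node (nat_lit 2) (nat_lit 7) (nat_lit 10) (C.cons (nat_lit 1172) (C.node (nat_lit 1) (nat_lit 2) (nat_lit 7) C.nil) (C.cons (nat_lit 1156) (C.node (nat_lit 4) (nat_lit 7) (nat_lit 10) (C.cons (nat_lit 1168) (C.node (nat_lit 3) (nat_lit 6) (nat_lit 10) (C.cons (nat_lit 1352) (C.node (nat_lit 4) (nat_lit 8) (nat_lit 10) C.nil) C.nil)) C.nil)) C.nil))) C.nil)) C.nil))) C.nil))) C.nil))) C.nil))) C.nil)) (C.cons (nat_lit 142) (C.miq (nat_lit 441917539) (nat_lit 1431370790151584993990148685)) (C.cons (nat_lit 138)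 (C.node (nat_lit 1) (nat_lit 7) (nat_lit 10) (C.cons (nat_lit 1170) (C.node (nat_lit 1) (nat_lit 2) (nat_lit 7) (C.cons (nat_lit 646) (C.miq (nat_lit 1093052304) (nat_lit 84645781650364347328563073)) (C.cons (nat_lit 134) (C.node (nat_lit 2) (nat_lit 3) (nat_lit 7) (C.cons (nat_lit 1164) (C.miq (nat_lit 2473853601) (nat_lit 184975445787935164203140103)) (C.cons (nat_lit 140) (C.node (nat_lit 2) (nat_lit 7) (nat_lit 10) C.nil) C.nil))) C.nil))) (C.cons (nat_lit 1154) (C.node (nat_lit 2) (nat_lit 3) (nat_lit 7) (C.cons (nat_lit 1164) (C.node (nat_lit 4) (nat_lit 7) (nat_lit 10) (C.cons (nat_lit 1168) (C.node (nat_lit 1) (nat_lit 4) (nat_lit 7) (C.cons (nat_lit 178) (C.miq (nat_lit 2473657940) (nat_lit 166841558493711723608015985)) (C.cons (nat_lit 150) (C.node (nat_lit 2) (nat_lit 7) (nat_lit 9) C.nil) C.nil))) C.nil)) (C.cons (nat_lit 140) (C.node (nat_lit 3) (nat_lit 7) (nat_lit 10) (C.cons (nat_lit 1160) (C.node (nat_lit 2)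 (nat_lit 7) (nat_lit 10) (C.cons (nat_lit 1156) (C.node (nat_lit 4) (nat_lit 7) (nat_lit 10) C.nil) C.nil)) C.nil)) C.nil))) C.nil))) C.nil)))) C.nil))) C.nil))) C.nil)) C.nil))) C.nil))))) C.nil)) (C.cons (nat_lit 224) (C.node (nat_lit 3) (nat_lit 5) (nat_lit 6) (C.cons (nat_lit 106) (C.node (nat_lit 1) (nat_lit 7) (nat_lit 8) (C.cons (nat_lit 434) (C.miq (nat_lit 2458125937) (nat_lit 334882247420146123801755843)) (C.cons (nat_lit 418) (C.miq (nat_lit 2555578134) (nat_lit 359061834098519505378083011)) (C.cons (nat_lit 402) (C.miq (nat_lit 2458125937) (nat_lit 334882247420146123799658691)) (C.cons (nat_lit 386)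
  (C.node (nat_lit 1) (nat_lit 4) (nat_lit 6) (C.cons (nat_lit 338) (C.node (nat_lit 1) (nat_lit 6) (nat_lit 9) (C.cons (nat_lit 578) (C.node (nat_lit 1) (nat_lit 6) (nat_lit 10) (C.cons (nat_lit 1090) (C.node (nat_lit 3) (nat_lit 4) (nat_lit 6) (C.cons (nat_lit 88) (C.node (nat_lit 3) (nat_lit 6) (nat_lit 7) (C.cons (nat_lit 1224) (C.node (nat_lit 3) (nat_lit 6) (nat_lit 8) (C.cons (nat_lit 328) (C.node (nat_lit 6) (nat_lit 8) (nat_lit 10) (C.cons (nat_lit 1344) (C.node (nat_lit 5) (nat_lit 6) (nat_lit 8) (C.cons (nat_lit 864) (C.node (nat_lit 4) (nat_lit 5) (nat_lit 8) (C.cons (nat_lit 432) (C.miq (nat_lit 911477127) (nat_lit 1374551479419469121364952961)) (C.cons (nat_lit 304) (C.node (nat_lit 4) (nat_lit 7) (nat_lit 8) (C.cons (nat_lit 400) (C.node (nat_lit 5) (nat_lit 7) (nat_lit 8) (C.cons (nat_lit 416) (C.node (nat_lit 2) (nat_lit 8) (nat_lit 9) (C.cons (nat_lit 774) (C.node (nat_lit 1) (nat_lit 3) (nat_lit 8) C.nil) C.nil))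 C.nil)) C.nil)) C.nil))) C.nil)) C.nil)) C.nil)) (C.cons (nat_lit 200) (C.node (nat_lit 6) (nat_lit 7) (nat_lit 10) (C.cons (nat_lit 1216) (C.node (nat_lit 3) (nat_lit 6) (nat_lit 8) (C.cons (nat_lit 1352) (C.node (nat_lit 4) (nat_lit 8) (nat_lit 10) (C.cons (nat_lit 1296) (C.node (nat_lit 5) (nat_lit 6) (nat_lit 8) (C.cons (nat_lit 864) (C.node (nat_lit 1) (nat_lit 8) (nat_lit 10) (C.cons (nat_lit 1314) (C.miq (nat_lit 358787216) (nat_lit 120911600924464742306482049)) (C.cons (nat_lit 1282) (C.node (nat_lit 2) (nat_lit 3) (nat_lit 8) (C.cons (nat_lit 270) (C.miq (nat_lit 1367630624) (nat_lit 408637901007593976001528397)) (C.cons (nat_lit 268) (C.node (nat_lit 1) (nat_lit 3) (nat_lit 8) (C.cons (nat_lit 778) (C.miq (nat_lit 1177619081) (nat_lit 128155932420296687657551745)) (C.cons (nat_lit 266) (C.node (nat_lit 1) (nat_lit 8) (nat_lit 9) (C.cons (nat_lit 774) (C.miq (nat_lit 1478125856) (nat_lit 1549863874937164113983767117))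 C.nil)) C.nil))) C.nil))) C.nil))) C.nil)) C.nil)) C.nil)) C.nil)) C.nil))) C.nil)) C.nil)) C.nil)) (C.cons (nat_lit 82) (C.node (nat_lit 1) (nat_lit 6) (nat_lit 9) (C.cons (nat_lit 834) (C.node (nat_lit 1) (nat_lit 6) (nat_lit 10) (C.cons (nat_lit 1090) (C.node (nat_lit 5) (nat_lit 6) (nat_lit 8) (C.cons (nat_lit 352) (C.node (nat_lit 5) (nat_lit 6) (nat_lit 9) (C.cons (nat_lit 608) (C.node (nat_lit 2) (nat_lit 8) (nat_lit 9) (C.cons (nat_lit 804) (C.miq (nat_lit 1461198953) (nat_lit 466660197599926332646621773)) (C.cons (nat_lit 772) (C.node (nat_lit 3) (nat_lit 8) (nat_lit 9) (C.cons (nat_lit 792) (C.miq (nat_lit 1192767593) (nat_lit 466659976235619748411474509)) (C.cons (nat_lit 776) (C.node (nat_lit 3) (nat_lit 4) (nat_lit 6) (C.cons (nat_lit 344) (C.node (nat_lit 6) (nat_lit 8) (nat_lit 10) (C.cons (nat_lit 1344) (C.node (nat_lit 3) (nat_lit 6) (nat_lit 7) (C.cons (nat_lit 1224) (C.node (nat_lit 4) (nat_lit 7) (nat_lit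 8) (C.cons (nat_lit 432) (C.miq (nat_lit 947020880) (nat_lit 546445335694901049318245489)) (C.cons (nat_lit 400) (C.node (nat_lit 5) (nat_lit 7) (nat_lit 8) C.nil) C.nil))) C.nil)) C.nil)) (C.cons (nat_lit 88) (C.node (nat_lit 4) (nat_lit 6) (nat_lit 8) C.nil) C.nil))) C.nil))) C.nil))) C.nil)) C.nil)) C.nil)) (C.cons (nat_lit 578) (C.node (nat_lit 1) (nat_lit 6) (nat_lit 8) (C.cons (nat_lit 1346) (C.node (nat_lit 4) (nat_lit 8) (nat_lit 10) (C.cons (nat_lit 1304) (C.miq (nat_lit 406284864) (nat_lit 473902518782899929147311217)) (C.cons (nat_lit 1296) (C.node (nat_lit 5) (nat_lit 8) (nat_lit 10) (C.cons (nat_lit 1316) (C.miq (nat_lit 405236304) (nat_lit 546438067959777731170075761)) (C.cons (nat_lit 1312) (C.node (nat_lit 2) (nat_lit 8) (nat_lit 10) (C.cons (nat_lit 1292) (C.node (nat_lit 3) (nat_lit 8) (nat_lit 9) (C.cons (nat_lit 792) (C.miq (nat_lit 1218548512) (nat_lit 1627223948645327739646575181)) (C.cons (nat_lit 778)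 (C.miq (nat_lit 1518428307) (nat_lit 1627216108876207981570163277)) (C.cons (nat_lit 776) (C.node (nat_lit 1) (nat_lit 3) (nat_lit 8) (C.cons (nat_lit 282) (C.node (nat_lit 3) (nat_lit 4) (nat_lit 6) (C.cons (nat_lit 88)
  (C.node (nat_lit 3) (nat_lit 6) (nat_lit 8) (C.cons (nat_lit 328) (C.node (nat_lit 4) (nat_lit 6) (nat_lit 8) (C.cons (nat_lit 336) (C.node (nat_lit 5) (nat_lit 6) (nat_lit 8) C.nil) C.nil)) C.nil)) C.nil)) (C.cons (nat_lit 266) (C.node (nat_lit 1) (nat_lit 4) (nat_lit 8) (C.cons (nat_lit 306) (C.miq (nat_lit 588777044) (nat_lit 321579377931388994586805361)) (C.cons (nat_lit 274) (C.node (nat_lit 2) (nat_lit 3) (nat_lit 5) (C.cons (nat_lit 60) (C.node (nat_lit 1) (nat_lit 2) (nat_lit 3) (C.cons (nat_lit 142) (C.miq (nat_lit 1175670898) (nat_lit 128147244003833001139896485)) (C.cons (nat_lit 14) (C.node (nat_lit 2) (nat_lit 3) (nat_lit 7) (C.cons (nat_lit 140) (C.node (nat_lit 1) (nat_lit 4) (nat_lit 5) (C.cons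 (nat_lit 178) (C.miq (nat_lit 907288693) (nat_lit 99133024178833613711868069)) (C.cons (nat_lit 50) (C.node (nat_lit 3) (nat_lit 4) (nat_lit 6) (C.cons (nat_lit 344) (C.node (nat_lit 3) (nat_lit 6) (nat_lit 7) (C.cons (nat_lit 1224) (C.node (nat_lit 1) (nat_lit 3) (nat_lit 4) (C.cons (nat_lit 26) (C.node (nat_lit 1) (nat_lit 2) (nat_lit 4) C.nil) C.nil)) C.nil)) C.nil)) C.nil))) C.nil)) C.nil))) (C.cons (nat_lit 44) (C.node (nat_lit 2) (nat_lit 3) (nat_lit 4) (C.cons (nat_lit 30) (C.miq (nat_lit 1233326242) (nat_lit 938126989572745914208748551)) (C.cons (nat_lit 28) (C.node (nat_lit 1) (nat_lit 2) (nat_lit 3) (C.cons (nat_lit 142) (C.node (nat_lit 3) (nat_lit 6) (nat_lit 8) (C.cons (nat_lit 344) (C.node (nat_lit 3) (nat_lit 6) (nat_lit 7) (C.cons (nat_lit 1224) (C.node (nat_lit 1) (nat_lit 3) (nat_lit 4) (C.cons (nat_lit 26) (C.node (nat_lit 1) (nat_lit 3) (nat_lit 9) C.nil) C.nil)) C.nil)) C.nil)) (C.cons (nat_lit 14) (C.node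 (nat_lit 2) (nat_lit 3) (nat_lit 7) (C.cons (nat_lit 140) (C.node (nat_lit 3) (nat_lit 4) (nat_lit 6) (C.cons (nat_lit 344) (C.node (nat_lit 3) (nat_lit 6) (nat_lit 7) (C.cons (nat_lit 1224) (C.node (nat_lit 1) (nat_lit 3) (nat_lit 4) C.nil) C.nil)) C.nil)) C.nil)) C.nil))) C.nil))) C.nil))) C.nil))) C.nil))) C.nil)))) (C.cons (nat_lit 1284) (C.node (nat_lit 3) (nat_lit 8) (nat_lit 10) (C.cons (nat_lit 1288) (C.node (nat_lit 2) (nat_lit 3) (nat_lit 8) (C.cons (nat_lit 270) (C.miq (nat_lit 560235344) (nat_lit 99137027032506708924629289)) (C.cons (nat_lit 268) (C.node (nat_lit 3) (nat_lit 4) (nat_lit 6) (C.cons (nat_lit 344) (C.node (nat_lit 1) (nat_lit 3) (nat_lit 8) (C.cons (nat_lit 778) (C.miq (nat_lit 1518428307) (nat_lit 1627216108876207981570163277)) (C.cons (nat_lit 266) (C.node (nat_lit 3) (nat_lit 8) (nat_lit 9) (C.cons (nat_lit 776) (C.node (nat_lit 3) (nat_lit 6) (nat_lit 7) (C.cons (nat_lit 1224) (C.node (nat_lit 5)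 (nat_lit 6) (nat_lit 8) (C.cons (nat_lit 864) (C.node (nat_lit 1) (nat_lit 4) (nat_lit 8) (C.cons (nat_lit 306) (C.miq (nat_lit 588777044) (nat_lit 321579377931388994586805361)) C.nil)) C.nil)) C.nil)) C.nil)) C.nil))) (C.cons (nat_lit 88) (C.node (nat_lit 3) (nat_lit 6) (nat_lit 8) (C.cons (nat_lit 328) (C.node (nat_lit 4) (nat_lit 6) (nat_lit 8) (C.cons (nat_lit 336) (C.node (nat_lit 3) (nat_lit 6) (nat_lit 7) C.nil) C.nil)) C.nil)) C.nil))) C.nil))) C.nil)) C.nil))) C.nil))) C.nil))) (C.cons (nat_lit 322) (C.node (nat_lit 1) (nat_lit 6) (nat_lit 10) (C.cons (nat_lit 1090) (C.node (nat_lit 3) (nat_lit 4) (nat_lit 6) (C.cons (nat_lit 344) (C.node (nat_lit 6) (nat_lit 8) (nat_lit 10) (C.cons (nat_lit 1344) (C.node (nat_lit 3) (nat_lit 6) (nat_lit 7) (C.cons (nat_lit 1224) (C.node (nat_lit 5) (nat_lit 6) (nat_lit 8) (C.cons (nat_lit 864) (C.node (nat_lit 4) (nat_lit 8) (nat_lit 9) (C.cons (nat_lit 784) (C.node (nat_lit 3) (nat_lit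 8) (nat_lit 9) (C.cons (nat_lit 778) (C.miq (nat_lit 2439676752) (nat_lit 1317764579794299383700324649)) (C.cons (nat_lit 776) (C.node (nat_lit 1) (nat_lit 8) (nat_lit 9) (C.cons (nat_lit 774) (C.node (nat_lit 1) (nat_lit 3) (nat_lit 8) (C.cons (nat_lit 1290) (C.miq (nat_lit 1478125856) (nat_lit 1559535281494081147381416525)) C.nil)) C.nil)) C.nil))) C.nil)) C.nil)) C.nil)) C.nil)) (C.cons (nat_lit 88)
  (C.node (nat_lit 4) (nat_lit 6) (nat_lit 8) C.nil) C.nil))) C.nil)) C.nil))) C.nil))) C.nil))) C.nil))))) (C.cons (nat_lit 104) (C.ref (nat_lit 152) (nat_lit 11649936536080)) C.nil))) C.nil))) C.nil))) List.nil)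

theorem ok11_153 : okL par11 (nat_lit 154) c11_153 (nat_lit 153) = true := by decide +kernel

noncomputable def c11_154 : List C :=
  (List.cons (C.node (nat_lit 3) (nat_lit 7) (nat_lit 8) (C.cons (nat_lit 394) (C.node (nat_lit 2) (nat_lit 3) (nat_lit 7) (C.cons (nat_lit 1164) (C.node (nat_lit 2) (nat_lit 3) (nat_lit 8) (C.cons (nat_lit 268) (C.node (nat_lit 6) (nat_lit 7) (nat_lit 10) (C.cons (nat_lit 1216) (C.node (nat_lit 4) (nat_lit 7) (nat_lit 10) (C.cons (nat_lit 1170) (C.miq (nat_lit 2473853601) (nat_lit 184975445787935164203140103)) (C.cons (nat_lit 1168) (C.node (nat_lit 1) (nat_lit 7) (nat_lit 10) (C.cons (nat_lit 1186) (C.node (nat_lit 1) (nat_lit 7) (nat_lit 9) (C.cons (nat_lit 646) (C.miq (nat_lit 1361487760) (nat_lit 84645781654867946955933569)) (C.cons (nat_lit 642) (C.node (nat_lit 1) (nat_lit 9) (nat_lit 10) (C.cons (nat_lit 1546) (C.miq (nat_lit 1368422962) (nat_lit 641942654261976216281875596)) (C.cons (nat_lit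 1538) (C.node (nat_lit 3) (nat_lit 6) (nat_lit 7) (C.cons (nat_lit 232) (C.miq (nat_lit 389195104) (nat_lit 1407208672958398672755557489)) (C.cons (nat_lit 200) (C.node (nat_lit 3) (nat_lit 5) (nat_lit 6) (C.cons (nat_lit 106) (C.miq (nat_lit 2534607446) (nat_lit 476327638601141833859466353)) (C.cons (nat_lit 104) (C.node (nat_lit 3) (nat_lit 5) (nat_lit 7) (C.cons (nat_lit 680) (C.miq (nat_lit 361801522) (nat_lit 658883590616945137757783180)) (C.cons (nat_lit 168) (C.node (nat_lit 3) (nat_lit 7) (nat_lit 9) (C.cons (nat_lit 648) (C.node (nat_lit 3) (nat_lit 5) (nat_lit 10) (C.cons (nat_lit 1576) (C.miq (nat_lit 372600986) (nat_lit 125750163133283003995260801)) (C.cons (nat_lit 1064) (C.node (nat_lit 4) (nat_lit 7) (nat_lit 8) (C.cons (nat_lit 432) (C.miq (nat_lit 394437952) (nat_lit 546453489392783559337772145)) (C.cons (nat_lit 400) (C.node (nat_lit 5) (nat_lit 7) (nat_lit 8) (C.cons (nat_lit 416) (C.node (nat_lit 5) (nat_lit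 6) (nat_lit 7) (C.cons (nat_lit 736) (C.miq (nat_lit 358786960) (nat_lit 120911600888435395531704193)) (C.cons (nat_lit 224) (C.node (nat_lit 5) (nat_lit 9) (nat_lit 10) (C.cons (nat_lit 1572) (C.miq (nat_lit 371552410) (nat_lit 120914459854824487296173953)) (C.cons (nat_lit 1568) (C.node (nat_lit 1) (nat_lit 2) (nat_lit 3) (C.cons (nat_lit 62) (C.miq (nat_lit 678510757) (nat_lit 476317916704273284085187697)) (C.cons (nat_lit 46) (C.miq (nat_lit 2538801682) (nat_lit 203110403368235640371938311)) (C.cons (nat_lit 30) (C.miq (nat_lit 2536770081) (nat_lit 184975446162859833107022855)) (C.cons (nat_lit 14) (C.node (nat_lit 1) (nat_lit 2) (nat_lit 7) (C.cons (nat_lit 150) (C.node (nat_lit 2) (nat_lit 7) (nat_lit 9) (C.cons (nat_lit 644) (C.node (nat_lit 1) (nat_lit 3) (nat_lit 9) (C.cons (nat_lit 554) (C.node (nat_lit 1) (nat_lit 2) (nat_lit 5) C.nil) (C.cons (nat_lit 522) (C.node (nat_lit 1) (nat_lit 3) (nat_lit 6) C.nil) C.nil)))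 C.nil)) (C.cons (nat_lit 134) (C.node (nat_lit 1) (nat_lit 4) (nat_lit 7) (C.cons (nat_lit 146) (C.node (nat_lit 1) (nat_lit 2) (nat_lit 4) (C.cons (nat_lit 54) (C.miq (nat_lit 2266106452) (nat_lit 162001170117187251052348529)) (C.cons (nat_lit 22) (C.node (nat_lit 1) (nat_lit 3) (nat_lit 6) (C.cons (nat_lit 74) (C.node (nat_lit 1) (nat_lit 4) (nat_lit 6) C.nil) C.nil)) C.nil))) C.nil)) C.nil))) C.nil))))) C.nil))) C.nil))) C.nil)) C.nil))) C.nil))) C.nil)) C.nil))) C.nil))) C.nil))) C.nil))) C.nil))) (C.cons (nat_lit 1154) (C.node (nat_lit 5) (nat_lit 7) (nat_lit 10) (C.cons (nat_lit 1184) (C.node (nat_lit 2) (nat_lit 4) (nat_lit 10) (C.cons (nat_lit 1556) (C.node (nat_lit 2) (nat_lit 7) (nat_lit 9) (C.cons (nat_lit 646) (C.miq (nat_lit 1108781424) (nat_lit 84645781759013688313055105)) (C.cons (nat_lit 644) (C.node (nat_lit 4) (nat_lit 6) (nat_lit 7) (C.cons (nat_lit 720) (C.miq (nat_lit 306580119) (nat_lit 101553366252930608042870657))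 (C.cons (nat_lit 208) (C.node (nat_lit 2) (nat_lit 3) (nat_lit 4) (C.cons (nat_lit 62) (C.miq (nat_lit 2453185616) (nat_lit 324027556290061544939127921)) (C.cons (nat_lit 60) (C.miq (nat_lit 2453185616) (nat_lit 324027556290061536349193329)) (C.cons (nat_lit 30) (C.miq (nat_lit 2536770081) (nat_lit 184975446162859833107022855)) (C.cons (nat_lit 28)
  (C.node (nat_lit 1) (nat_lit 2) (nat_lit 3) (C.cons (nat_lit 46) (C.node (nat_lit 2) (nat_lit 4) (nat_lit 5) (C.cons (nat_lit 52) (C.node (nat_lit 1) (nat_lit 3) (nat_lit 9) (C.cons (nat_lit 1546) (C.miq (nat_lit 1470177427) (nat_lit 1395101244431961080141054541)) (C.cons (nat_lit 522) (C.node (nat_lit 3) (nat_lit 5) (nat_lit 10) (C.cons (nat_lit 1576) (C.miq (nat_lit 2207384996) (nat_lit 712062417584729838501233777)) (C.cons (nat_lit 1064) (C.node (nat_lit 3) (nat_lit 9) (nat_lit 10) (C.cons (nat_lit 1544) (C.node (nat_lit 3) (nat_lit 7) (nat_lit 9) (C.cons (nat_lit 680) (C.miq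 (nat_lit 443883667) (nat_lit 1431369019264157285156913741)) (C.cons (nat_lit 648) (C.node (nat_lit 1) (nat_lit 2) (nat_lit 4) (C.cons (nat_lit 150) (C.node (nat_lit 1) (nat_lit 2) (nat_lit 8) (C.cons (nat_lit 774) (C.node (nat_lit 2) (nat_lit 5) (nat_lit 9) (C.cons (nat_lit 548) (C.node (nat_lit 1) (nat_lit 4) (nat_lit 5) (C.cons (nat_lit 306) (C.miq (nat_lit 1445478545) (nat_lit 546440115489538520396464659)) (C.cons (nat_lit 50) (C.node (nat_lit 1) (nat_lit 6) (nat_lit 9) (C.cons (nat_lit 610) (C.miq (nat_lit 2219909225) (nat_lit 60460568838617961894904397)) (C.cons (nat_lit 578) (C.node (nat_lit 1) (nat_lit 5) (nat_lit 6) (C.cons (nat_lit 354) (C.miq (nat_lit 1132791574) (nat_lit 359071942416624036324966595)) (C.cons (nat_lit 98) (C.node (nat_lit 2) (nat_lit 5) (nat_lit 10) (C.cons (nat_lit 1316) (C.miq (nat_lit 1377085584) (nat_lit 181359847260630577656825729)) C.nil)) C.nil))) C.nil))) C.nil))) C.nil)) (C.cons (nat_lit 262)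 (C.node (nat_lit 1) (nat_lit 2) (nat_lit 9) (C.cons (nat_lit 518) (C.node (nat_lit 1) (nat_lit 4) (nat_lit 5) (C.cons (nat_lit 306) (C.node (nat_lit 4) (nat_lit 7) (nat_lit 8) (C.cons (nat_lit 400) (C.node (nat_lit 1) (nat_lit 5) (nat_lit 7) C.nil) C.nil)) (C.cons (nat_lit 50) (C.node (nat_lit 1) (nat_lit 5) (nat_lit 7) (C.cons (nat_lit 162) (C.node (nat_lit 1) (nat_lit 7) (nat_lit 9) C.nil) C.nil)) C.nil))) C.nil)) C.nil))) (C.cons (nat_lit 22) (C.node (nat_lit 1) (nat_lit 2) (nat_lit 7) (C.cons (nat_lit 134) (C.node (nat_lit 2) (nat_lit 4) (nat_lit 7) (C.cons (nat_lit 148) (C.node (nat_lit 1) (nat_lit 2) (nat_lit 8) (C.cons (nat_lit 774) (C.node (nat_lit 1) (nat_lit 9) (nat_lit 10) (C.cons (nat_lit 1570) (C.miq (nat_lit 1361357184) (nat_lit 26617342421452687362295681)) C.nil)) (C.cons (nat_lit 262) (C.node (nat_lit 1) (nat_lit 2) (nat_lit 9) C.nil) C.nil))) C.nil)) C.nil)) C.nil))) C.nil))) C.nil)) C.nil))) C.nil))) C.nil))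 (C.cons (nat_lit 14) (C.node (nat_lit 2) (nat_lit 3) (nat_lit 5) (C.cons (nat_lit 44) (C.node (nat_lit 1) (nat_lit 2) (nat_lit 7) (C.cons (nat_lit 150) (C.node (nat_lit 2) (nat_lit 4) (nat_lit 5) (C.cons (nat_lit 52) (C.node (nat_lit 1) (nat_lit 5) (nat_lit 7) (C.cons (nat_lit 674) (C.node (nat_lit 3) (nat_lit 7) (nat_lit 9) (C.cons (nat_lit 648) (C.node (nat_lit 4) (nat_lit 7) (nat_lit 9) (C.cons (nat_lit 656) (C.node (nat_lit 6) (nat_lit 7) (nat_lit 9) (C.cons (nat_lit 704) (C.node (nat_lit 3) (nat_lit 5) (nat_lit 7) (C.cons (nat_lit 232) (C.node (nat_lit 4) (nat_lit 5) (nat_lit 7) (C.cons (nat_lit 432) (C.miq (nat_lit 931292480) (nat_lit 546445335663375851933992049)) C.nil)) C.nil)) C.nil)) C.nil)) C.nil)) (C.cons (nat_lit 162) (C.node (nat_lit 1) (nat_lit 7) (nat_lit 9) (C.cons (nat_lit 642) (C.node (nat_lit 2) (nat_lit 5) (nat_lit 10) (C.cons (nat_lit 1316) (C.node (nat_lit 1) (nat_lit 2) (nat_lit 8) (C.cons (nat_lit 774)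 (C.miq (nat_lit 1377085584) (nat_lit 181359847260630577656825729)) (C.cons (nat_lit 262) (C.node (nat_lit 2) (nat_lit 8) (nat_lit 9) (C.cons (nat_lit 772) (C.node (nat_lit 1) (nat_lit 2) (nat_lit 5) (C.cons (nat_lit 550) (C.node (nat_lit 3) (nat_lit 6) (nat_lit 7) C.nil) C.nil)) C.nil)) C.nil))) (C.cons (nat_lit 1060) (C.node (nat_lit 2) (nat_lit 8) (nat_lit 10) (C.cons (nat_lit 1284) (C.node (nat_lit 5) (nat_lit 8) (nat_lit 10) (C.cons (nat_lit 1314) (C.miq (nat_lit 2708756528) (nat_lit 181359847260065995591057705)) (C.cons (nat_lit 1312)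
  (C.node (nat_lit 1) (nat_lit 2) (nat_lit 5) (C.cons (nat_lit 806) (C.miq (nat_lit 1366524480) (nat_lit 476322251838023262054973717)) (C.cons (nat_lit 550) (C.node (nat_lit 1) (nat_lit 2) (nat_lit 8) C.nil) (C.cons (nat_lit 294) (C.miq (nat_lit 1366524480) (nat_lit 476322251693908073979117845)) C.nil)))) C.nil))) C.nil)) C.nil))) C.nil)) C.nil))) C.nil)) (C.cons (nat_lit 134) (C.node (nat_lit 2) (nat_lit 4) (nat_lit 7) (C.cons (nat_lit 148) (C.node (nat_lit 1) (nat_lit 2) (nat_lit 4) (C.cons (nat_lit 54) (C.node (nat_lit 1) (nat_lit 4) (nat_lit 7) (C.cons (nat_lit 146) (C.node (nat_lit 1) (nat_lit 2) (nat_lit 8) (C.cons (nat_lit 774) (C.miq (nat_lit 2152831554) (nat_lit 42326682007143385950193172)) (C.cons (nat_lit 262) (C.node (nat_lit 1) (nat_lit 2) (nat_lit 9) C.nil) C.nil))) C.nil)) (C.cons (nat_lit 22) (C.node (nat_lit 2) (nat_lit 4) (nat_lit 5) (C.cons (nat_lit 52) (C.node (nat_lit 1) (nat_lit 4) (nat_lit 7) (C.cons (nat_lit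 178) (C.node (nat_lit 1) (nat_lit 7) (nat_lit 9) C.nil) (C.cons (nat_lit 146) (C.node (nat_lit 1) (nat_lit 5) (nat_lit 7) C.nil) C.nil))) C.nil)) C.nil))) C.nil)) C.nil))) C.nil)) C.nil))) C.nil))))) C.nil))) C.nil))) (C.cons (nat_lit 1044) (C.node (nat_lit 2) (nat_lit 8) (nat_lit 10) (C.cons (nat_lit 1316) (C.node (nat_lit 2) (nat_lit 9) (nat_lit 10) (C.cons (nat_lit 1540) (C.node (nat_lit 2) (nat_lit 3) (nat_lit 4) (C.cons (nat_lit 62) (C.miq (nat_lit 2184684864) (nat_lit 1407225090597215291055866993)) (C.cons (nat_lit 60) (C.miq (nat_lit 2184684864) (nat_lit 1407225090597215282465932401)) (C.cons (nat_lit 30) (C.miq (nat_lit 2536770081) (nat_lit 184975446162859833107022855)) (C.cons (nat_lit 28) (C.node (nat_lit 1) (nat_lit 2) (nat_lit 3) (C.cons (nat_lit 46) (C.node (nat_lit 1) (nat_lit 2) (nat_lit 8) (C.cons (nat_lit 774) (C.miq (nat_lit 1159793289) (nat_lit 55620383243418782556096385)) (C.cons (nat_lit 262) (C.node (nat_lit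 2) (nat_lit 8) (nat_lit 9) (C.cons (nat_lit 772) (C.node (nat_lit 1) (nat_lit 2) (nat_lit 9) (C.cons (nat_lit 646) (C.miq (nat_lit 1483813010) (nat_lit 476317621561997604231184973)) (C.cons (nat_lit 518) (C.node (nat_lit 1) (nat_lit 3) (nat_lit 9) (C.cons (nat_lit 1546) (C.miq (nat_lit 1470177427) (nat_lit 1395101244431961080141054541)) (C.cons (nat_lit 522) (C.node (nat_lit 1) (nat_lit 5) (nat_lit 10) (C.cons (nat_lit 1570) (C.miq (nat_lit 1095895464) (nat_lit 55615697599851315400542081)) (C.cons (nat_lit 1058) (C.node (nat_lit 1) (nat_lit 9) (nat_lit 10) (C.cons (nat_lit 1538) (C.node (nat_lit 3) (nat_lit 7) (nat_lit 9) (C.cons (nat_lit 680) (C.miq (nat_lit 1964675872) (nat_lit 1279078953539046444687098445)) (C.cons (nat_lit 648) (C.node (nat_lit 1) (nat_lit 2) (nat_lit 4) (C.cons (nat_lit 150) (C.node (nat_lit 3) (nat_lit 5) (nat_lit 6) C.nil) (C.cons (nat_lit 22) (C.node (nat_lit 1) (nat_lit 2) (nat_lit 7) C.nil) C.nil)))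 C.nil))) C.nil)) C.nil))) C.nil))) C.nil))) C.nil)) C.nil))) (C.cons (nat_lit 14) (C.node (nat_lit 2) (nat_lit 3) (nat_lit 5) (C.cons (nat_lit 44) (C.node (nat_lit 1) (nat_lit 2) (nat_lit 8) (C.cons (nat_lit 774) (C.node (nat_lit 1) (nat_lit 2) (nat_lit 5) (C.cons (nat_lit 54) (C.node (nat_lit 1) (nat_lit 2) (nat_lit 7) (C.cons (nat_lit 134) (C.node (nat_lit 1) (nat_lit 4) (nat_lit 7) (C.cons (nat_lit 146) (C.node (nat_lit 2) (nat_lit 5) (nat_lit 9) (C.cons (nat_lit 548) (C.node (nat_lit 1) (nat_lit 5) (nat_lit 7) (C.cons (nat_lit 674) (C.miq (nat_lit 1965592896) (nat_lit 1590981814997931956211352083)) (C.cons (nat_lit 162) (C.node (nat_lit 1) (nat_lit 8) (nat_lit 10) (C.cons (nat_lit 1346) (C.miq (nat_lit 405236304) (nat_lit 546438067959777731170075761)) (C.cons (nat_lit 1298) (C.miq (nat_lit 1093052560) (nat_lit 84645781686393694103340929)) C.nil))) C.nil))) C.nil)) C.nil)) C.nil)) (C.cons (nat_lit 38) (C.miq (nat_lit 1159793289)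 (nat_lit 45948976686501749158446977)) C.nil))) (C.cons (nat_lit 262) (C.node (nat_lit 2) (nat_lit 8) (nat_lit 9) (C.cons (nat_lit 772) (C.node (nat_lit 3) (nat_lit 6) (nat_lit 7) (C.cons (nat_lit 232)
  (C.node (nat_lit 3) (nat_lit 7) (nat_lit 9) (C.cons (nat_lit 648) (C.node (nat_lit 4) (nat_lit 7) (nat_lit 8) (C.cons (nat_lit 432) (C.miq (nat_lit 931292480) (nat_lit 546445335663375851933992049)) (C.cons (nat_lit 400) (C.node (nat_lit 5) (nat_lit 7) (nat_lit 8) (C.cons (nat_lit 416) (C.node (nat_lit 1) (nat_lit 6) (nat_lit 10) (C.cons (nat_lit 1346) (C.miq (nat_lit 405236304) (nat_lit 546438067959777731170075761)) (C.cons (nat_lit 1098) (C.miq (nat_lit 326280784) (nat_lit 1407208672933628874777232497)) (C.cons (nat_lit 1090) (C.node (nat_lit 1) (nat_lit 3) (nat_lit 6) (C.cons (nat_lit 90) (C.miq (nat_lit 2171237184) (nat_lit 1317764579686212923923955865)) (C.cons (nat_lit 74) (C.node (nat_lit 1) (nat_lit 2) (nat_lit 7) C.nil)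 C.nil))) C.nil)))) C.nil)) C.nil))) C.nil)) (C.cons (nat_lit 200) (C.node (nat_lit 3) (nat_lit 5) (nat_lit 6) (C.cons (nat_lit 106) (C.miq (nat_lit 2822047510) (nat_lit 359071942914271795133153475)) (C.cons (nat_lit 104) (C.node (nat_lit 3) (nat_lit 5) (nat_lit 7) (C.cons (nat_lit 680) (C.node (nat_lit 5) (nat_lit 6) (nat_lit 7) (C.cons (nat_lit 224) (C.node (nat_lit 1) (nat_lit 3) (nat_lit 9) (C.cons (nat_lit 1546) (C.miq (nat_lit 324184432) (nat_lit 53211755091346912818038657)) (C.cons (nat_lit 522) (C.node (nat_lit 3) (nat_lit 4) (nat_lit 5) (C.cons (nat_lit 58) (C.miq (nat_lit 363344903) (nat_lit 1590953646646347467629592729)) (C.cons (nat_lit 56) (C.node (nat_lit 3) (nat_lit 8) (nat_lit 9) (C.cons (nat_lit 792) (C.miq (nat_lit 1129482608) (nat_lit 53197846034083203376285569)) (C.cons (nat_lit 776) (C.node (nat_lit 3) (nat_lit 5) (nat_lit 10) (C.cons (nat_lit 1066) (C.node (nat_lit 1) (nat_lit 9) (nat_lit 10) C.nil) C.nil))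 C.nil))) C.nil))) C.nil))) C.nil)) (C.cons (nat_lit 168) (C.node (nat_lit 3) (nat_lit 7) (nat_lit 9) (C.cons (nat_lit 648) (C.node (nat_lit 1) (nat_lit 2) (nat_lit 4) (C.cons (nat_lit 150) (C.node (nat_lit 2) (nat_lit 7) (nat_lit 9) C.nil) (C.cons (nat_lit 54) (C.miq (nat_lit 2552302164) (nat_lit 316748360500855065986598001)) C.nil))) C.nil)) C.nil))) C.nil))) C.nil))) C.nil)) C.nil))) C.nil)) C.nil))) C.nil))))) C.nil)) (C.cons (nat_lit 1284) (C.node (nat_lit 5) (nat_lit 8) (nat_lit 10) (C.cons (nat_lit 1314) (C.miq (nat_lit 1243022723) (nat_lit 1395103218507168037305188649)) (C.cons (nat_lit 1312) (C.node (nat_lit 2) (nat_lit 5) (nat_lit 10) (C.cons (nat_lit 1572) (C.node (nat_lit 4) (nat_lit 9) (nat_lit 10) (C.cons (nat_lit 1560) (C.miq (nat_lit 1922237860) (nat_lit 712060130151309984411419761)) (C.cons (nat_lit 1552) (C.node (nat_lit 2) (nat_lit 3) (nat_lit 4) (C.cons (nat_lit 62) (C.miq (nat_lit 2453120320) (nat_lit 1407225090669272885093794929))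 (C.cons (nat_lit 60) (C.miq (nat_lit 2453120320) (nat_lit 1407225090669272876503860337)) (C.cons (nat_lit 30) (C.miq (nat_lit 2536770081) (nat_lit 184975446162859833107022855)) (C.cons (nat_lit 28) (C.node (nat_lit 1) (nat_lit 2) (nat_lit 3) (C.cons (nat_lit 46) (C.node (nat_lit 1) (nat_lit 5) (nat_lit 10) (C.cons (nat_lit 1058) (C.node (nat_lit 2) (nat_lit 4) (nat_lit 5) (C.cons (nat_lit 52) (C.node (nat_lit 2) (nat_lit 5) (nat_lit 8) (C.cons (nat_lit 292) (C.node (nat_lit 3) (nat_lit 5) (nat_lit 10) (C.cons (nat_lit 1064) (C.node (nat_lit 3) (nat_lit 4) (nat_lit 5) C.nil) C.nil)) C.nil)) C.nil)) C.nil)) (C.cons (nat_lit 14) (C.node (nat_lit 2) (nat_lit 3) (nat_lit 5) (C.cons (nat_lit 44) (C.node (nat_lit 1) (nat_lit 5) (nat_lit 10) (C.cons (nat_lit 1066) (C.node (nat_lit 1) (nat_lit 3) (nat_lit 9) (C.cons (nat_lit 522) (C.node (nat_lit 1) (nat_lit 9) (nat_lit 10) (C.cons (nat_lit 1538) (C.node (nat_lit 3) (nat_lit 9) (nat_lit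 10) (C.cons (nat_lit 1544) (C.node (nat_lit 3) (nat_lit 4) (nat_lit 10) C.nil) C.nil)) C.nil)) C.nil)) (C.cons (nat_lit 1058) (C.node (nat_lit 3) (nat_lit 5) (nat_lit 10) (C.cons (nat_lit 1064) (C.node (nat_lit 1) (nat_lit 9) (nat_lit 10) (C.cons (nat_lit 1546) (C.node (nat_lit 1) (nat_lit 4) (nat_lit 10) (C.cons (nat_lit 1042) (C.node (nat_lit 1) (nat_lit 6) (nat_lit 10) (C.cons (nat_lit 1090)
  (C.node (nat_lit 1) (nat_lit 8) (nat_lit 10) C.nil) C.nil)) C.nil)) (C.cons (nat_lit 1538) (C.node (nat_lit 3) (nat_lit 9) (nat_lit 10) (C.cons (nat_lit 1544) (C.node (nat_lit 2) (nat_lit 4) (nat_lit 5) (C.cons (nat_lit 52) (C.node (nat_lit 1) (nat_lit 2) (nat_lit 4) C.nil) C.nil)) C.nil)) C.nil))) C.nil)) C.nil))) C.nil)) C.nil))) C.nil))))) C.nil))) (C.cons (nat_lit 1060) (C.node (nat_lit 2) (nat_lit 9) (nat_lit 10) (C.cons (nat_lit 1540) (C.node (nat_lit 3) (nat_lit 6) (nat_lit 7) (C.cons (nat_lit 232) (C.node (nat_lit 3) (nat_lit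 7) (nat_lit 9) (C.cons (nat_lit 648) (C.node (nat_lit 4) (nat_lit 7) (nat_lit 8) (C.cons (nat_lit 432) (C.miq (nat_lit 931292480) (nat_lit 546445335663375851933992049)) (C.cons (nat_lit 400) (C.node (nat_lit 5) (nat_lit 7) (nat_lit 8) (C.cons (nat_lit 416) (C.node (nat_lit 3) (nat_lit 8) (nat_lit 9) (C.cons (nat_lit 792) (C.node (nat_lit 4) (nat_lit 9) (nat_lit 10) (C.cons (nat_lit 1552) (C.node (nat_lit 3) (nat_lit 4) (nat_lit 6) (C.cons (nat_lit 90) (C.miq (nat_lit 394551443) (nat_lit 483571988107714174884774477)) (C.cons (nat_lit 88) (C.node (nat_lit 1) (nat_lit 3) (nat_lit 6) (C.cons (nat_lit 1098) (C.miq (nat_lit 326280784) (nat_lit 1407208672933628874777232497)) (C.cons (nat_lit 74) (C.node (nat_lit 1) (nat_lit 6) (nat_lit 10) (C.cons (nat_lit 1346) (C.miq (nat_lit 1175652999) (nat_lit 89463333323368666061473665)) (C.cons (nat_lit 1090) (C.node (nat_lit 4) (nat_lit 6) (nat_lit 7) (C.cons (nat_lit 208) (C.node (nat_lit 6)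 (nat_lit 7) (nat_lit 9) C.nil) C.nil)) C.nil))) C.nil))) C.nil))) C.nil)) (C.cons (nat_lit 776) (C.node (nat_lit 4) (nat_lit 6) (nat_lit 7) (C.cons (nat_lit 720) (C.node (nat_lit 2) (nat_lit 7) (nat_lit 9) (C.cons (nat_lit 646) (C.miq (nat_lit 1192913184) (nat_lit 1395121369985958633219228237)) (C.cons (nat_lit 644) (C.node (nat_lit 4) (nat_lit 5) (nat_lit 7) (C.cons (nat_lit 178) (C.miq (nat_lit 2473657940) (nat_lit 476326568315056792332797041)) (C.cons (nat_lit 176) (C.node (nat_lit 1) (nat_lit 2) (nat_lit 7) (C.cons (nat_lit 150) (C.node (nat_lit 1) (nat_lit 5) (nat_lit 7) (C.cons (nat_lit 674) (C.node (nat_lit 1) (nat_lit 5) (nat_lit 6) (C.cons (nat_lit 354) (C.miq (nat_lit 1132791574) (nat_lit 359071942416624036324966595)) (C.cons (nat_lit 98) (C.node (nat_lit 1) (nat_lit 2) (nat_lit 3) (C.cons (nat_lit 14) (C.node (nat_lit 1) (nat_lit 2) (nat_lit 5) C.nil) C.nil)) C.nil))) C.nil)) C.nil)) C.nil))) C.nil))) (C.cons (nat_lit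 208) (C.node (nat_lit 6) (nat_lit 7) (nat_lit 9) (C.cons (nat_lit 704) (C.node (nat_lit 1) (nat_lit 6) (nat_lit 10) (C.cons (nat_lit 1346) (C.node (nat_lit 3) (nat_lit 6) (nat_lit 10) C.nil) (C.cons (nat_lit 1098) (C.miq (nat_lit 326280784) (nat_lit 1407208672933628874777232497)) C.nil))) C.nil)) C.nil))) C.nil))) C.nil)) C.nil))) C.nil)) (C.cons (nat_lit 200) (C.node (nat_lit 3) (nat_lit 5) (nat_lit 6) (C.cons (nat_lit 106) (C.miq (nat_lit 2822047510) (nat_lit 359071942914271795133153475)) (C.cons (nat_lit 104) (C.node (nat_lit 3) (nat_lit 5) (nat_lit 7) (C.cons (nat_lit 680) (C.node (nat_lit 5) (nat_lit 6) (nat_lit 7) (C.cons (nat_lit 224) (C.node (nat_lit 1) (nat_lit 3) (nat_lit 9) (C.cons (nat_lit 1546) (C.miq (nat_lit 424715122) (nat_lit 658883590718276129345832076)) (C.cons (nat_lit 522) (C.node (nat_lit 1) (nat_lit 2) (nat_lit 3) (C.cons (nat_lit 62) (C.miq (nat_lit 443883667) (nat_lit 1431369314412062464509739597)) (C.cons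 (nat_lit 46) (C.miq (nat_lit 443883667) (nat_lit 1431369019264157285156913741)) (C.cons (nat_lit 30) (C.miq (nat_lit 2536770081) (nat_lit 184975446162859833107022855)) (C.cons (nat_lit 14) (C.node (nat_lit 1) (nat_lit 5) (nat_lit 7) (C.cons (nat_lit 178) (C.node (nat_lit 1) (nat_lit 2) (nat_lit 4) (C.cons (nat_lit 22) (C.node (nat_lit 4) (nat_lit 7) (nat_lit 8) (C.cons (nat_lit 400) (C.node (nat_lit 5) (nat_lit 7) (nat_lit 8) (C.cons (nat_lit 416) (C.node (nat_lit 2) (nat_lit 3) (nat_lit 5) (C.cons (nat_lit 60) (C.miq (nat_lit 2270431538) (nat_lit 215193906180228761486361165)) C.nil)) C.nil)) C.nil)) C.nil))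
  (C.cons (nat_lit 162) (C.node (nat_lit 1) (nat_lit 4) (nat_lit 7) (C.cons (nat_lit 150) (C.node (nat_lit 1) (nat_lit 7) (nat_lit 9) (C.cons (nat_lit 642) (C.node (nat_lit 1) (nat_lit 6) (nat_lit 10) C.nil) C.nil)) (C.cons (nat_lit 146) (C.node (nat_lit 1) (nat_lit 2) (nat_lit 4) (C.cons (nat_lit 54) (C.node (nat_lit 4) (nat_lit 5) (nat_lit 7) (C.cons (nat_lit 432) (C.miq (nat_lit 893556608) (nat_lit 65292859582854229967308673)) C.nil)) (C.cons (nat_lit 22) (C.node (nat_lit 1) (nat_lit 2) (nat_lit 7) (C.cons (nat_lit 646) (C.node (nat_lit 2) (nat_lit 4) (nat_lit 7) C.nil) C.nil)) C.nil))) C.nil))) C.nil))) C.nil))))) C.nil))) C.nil)) (C.cons (nat_lit 168) (C.node (nat_lit 3) (nat_lit 7) (nat_lit 9) (C.cons (nat_lit 648) (C.node (nat_lit 3) (nat_lit 8) (nat_lit 9) (C.cons (nat_lit 792) (C.node (nat_lit 4) (nat_lit 9) (nat_lit 10) (C.cons (nat_lit 1552) (C.node (nat_lit 3) (nat_lit 4) (nat_lit 6) (C.cons (nat_lit 90) (C.miq (nat_lit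 1098397193) (nat_lit 476331382774803858347590221)) (C.cons (nat_lit 88) (C.node (nat_lit 4) (nat_lit 8) (nat_lit 10) (C.cons (nat_lit 1298) (C.miq (nat_lit 950178832) (nat_lit 1552271617740377031738589715)) (C.cons (nat_lit 1296) (C.node (nat_lit 1) (nat_lit 8) (nat_lit 10) (C.cons (nat_lit 1346) (C.miq (nat_lit 323389194) (nat_lit 106410301554512378459129729)) (C.cons (nat_lit 1282) (C.node (nat_lit 3) (nat_lit 8) (nat_lit 10) C.nil) C.nil))) C.nil))) C.nil))) C.nil)) (C.cons (nat_lit 776) (C.node (nat_lit 4) (nat_lit 6) (nat_lit 7) (C.cons (nat_lit 720) (C.node (nat_lit 5) (nat_lit 6) (nat_lit 7) (C.cons (nat_lit 224) (C.node (nat_lit 2) (nat_lit 7) (nat_lit 9) (C.cons (nat_lit 646) (C.miq (nat_lit 1192913184) (nat_lit 1395121369985958633219228237)) (C.cons (nat_lit 644) (C.node (nat_lit 4) (nat_lit 7) (nat_lit 8) (C.cons (nat_lit 432) (C.miq (nat_lit 910494072) (nat_lit 1374554135750615117065095041)) C.nil)) C.nil))) C.nil))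 (C.cons (nat_lit 208) (C.node (nat_lit 4) (nat_lit 6) (nat_lit 9) (C.cons (nat_lit 848) (C.node (nat_lit 4) (nat_lit 7) (nat_lit 8) (C.cons (nat_lit 432) (C.miq (nat_lit 642058631) (nat_lit 1374551700780397937160095617)) (C.cons (nat_lit 400) (C.node (nat_lit 5) (nat_lit 7) (nat_lit 8) (C.cons (nat_lit 416) (C.node (nat_lit 5) (nat_lit 6) (nat_lit 7) (C.cons (nat_lit 224) (C.node (nat_lit 6) (nat_lit 7) (nat_lit 9) C.nil) C.nil)) C.nil)) C.nil))) (C.cons (nat_lit 592) (C.node (nat_lit 4) (nat_lit 7) (nat_lit 8) (C.cons (nat_lit 432) (C.node (nat_lit 4) (nat_lit 8) (nat_lit 9) (C.cons (nat_lit 784) (C.node (nat_lit 4) (nat_lit 7) (nat_lit 9) (C.cons (nat_lit 660) (C.miq (nat_lit 1469285408) (nat_lit 783389409914869621602451733)) (C.cons (nat_lit 656) (C.node (nat_lit 5) (nat_lit 6) (nat_lit 7) (C.cons (nat_lit 736) (C.miq (nat_lit 643041656) (nat_lit 1374553766815733711593539457)) C.nil)) C.nil))) C.nil)) (C.cons (nat_lit 400)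 (C.node (nat_lit 5) (nat_lit 7) (nat_lit 8) (C.cons (nat_lit 416) (C.node (nat_lit 5) (nat_lit 6) (nat_lit 7) (C.cons (nat_lit 224) (C.node (nat_lit 6) (nat_lit 7) (nat_lit 9) C.nil) C.nil)) C.nil)) C.nil))) C.nil))) C.nil))) C.nil))) C.nil)) C.nil))) C.nil))) C.nil))) C.nil)) C.nil))) C.nil))) C.nil))) C.nil))) C.nil)) C.nil))) C.nil))) C.nil)) C.nil)) (C.cons (nat_lit 140) (C.ref (nat_lit 151) (nat_lit 11649936536080)) C.nil))) (C.cons (nat_lit 392) (C.node (nat_lit 4) (nat_lit 6) (nat_lit 7) (C.cons (nat_lit 720) (C.node (nat_lit 2) (nat_lit 7) (nat_lit 9) (C.cons (nat_lit 646) (C.miq (nat_lit 2792490129) (nat_lit 546453489378992522453713427)) (C.cons (nat_lit 644) (C.node (nat_lit 4) (nat_lit 7) (nat_lit 8) (C.cons (nat_lit 434) (C.miq (nat_lit 910494072) (nat_lit 1374554135750615117065226113)) (C.cons (nat_lit 432) (C.miq (nat_lit 910494072) (nat_lit 1374554135750615117065095041)) (C.cons (nat_lit 402) (C.miq (nat_lit 2458125937)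 (nat_lit 334882247420146123799658691)) (C.cons (nat_lit 400) (C.ref (nat_lit 136) (nat_lit 7306967418640)) C.nil))))) C.nil))) (C.cons (nat_lit 208) (C.node (nat_lit 4) (nat_lit 6) (nat_lit 9) (C.cons (nat_lit 848)
  (C.node (nat_lit 6) (nat_lit 7) (nat_lit 9) (C.cons (nat_lit 736) (C.miq (nat_lit 1179814256) (nat_lit 120897691948265276373796737)) (C.cons (nat_lit 704) (C.node (nat_lit 4) (nat_lit 7) (nat_lit 8) (C.cons (nat_lit 434) (C.miq (nat_lit 642058631) (nat_lit 1374551700780397937160226689)) (C.cons (nat_lit 432) (C.miq (nat_lit 642058631) (nat_lit 1374551700780397937160095617)) (C.cons (nat_lit 402) (C.miq (nat_lit 675899152) (nat_lit 1025179960292693371161608387)) (C.cons (nat_lit 400) (C.node (nat_lit 1) (nat_lit 4) (nat_lit 6) (C.cons (nat_lit 90) (C.node (nat_lit 1) (nat_lit 6) (nat_lit 10) (C.cons (nat_lit 1346) (C.miq (nat_lit 326657034) (nat_lit 473923750631791254701147249)) (C.cons (nat_lit 1090) (C.node (nat_lit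 3) (nat_lit 4) (nat_lit 8) (C.cons (nat_lit 1304) (C.miq (nat_lit 394485924) (nat_lit 473900581550797141520680049)) (C.cons (nat_lit 280) (C.node (nat_lit 3) (nat_lit 6) (nat_lit 8) (C.cons (nat_lit 1352) (C.miq (nat_lit 279136646) (nat_lit 1248822032018350034685264720)) (C.cons (nat_lit 328) (C.node (nat_lit 6) (nat_lit 8) (nat_lit 10) (C.cons (nat_lit 1344) (C.node (nat_lit 3) (nat_lit 6) (nat_lit 10) (C.cons (nat_lit 1224) (C.miq (nat_lit 2590050100) (nat_lit 1317738939141767627508678809)) (C.cons (nat_lit 1096) (C.node (nat_lit 6) (nat_lit 7) (nat_lit 10) (C.cons (nat_lit 1216) (C.node (nat_lit 3) (nat_lit 8) (nat_lit 9) (C.cons (nat_lit 778) (C.miq (nat_lit 2204799296) (nat_lit 1325018134711987090029085203)) (C.cons (nat_lit 776) (C.node (nat_lit 4) (nat_lit 8) (nat_lit 10) (C.cons (nat_lit 1298) (C.miq (nat_lit 342010000) (nat_lit 101568787806127007164336001)) (C.cons (nat_lit 1296) (C.node (nat_lit 1) (nat_lit 4) (nat_lit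 10) (C.cons (nat_lit 1170) (C.miq (nat_lit 2585134915) (nat_lit 1317740009052923670734438553)) (C.cons (nat_lit 1042) (C.node (nat_lit 1) (nat_lit 4) (nat_lit 8) (C.cons (nat_lit 306) (C.node (nat_lit 1) (nat_lit 6) (nat_lit 8) (C.cons (nat_lit 322) (C.node (nat_lit 1) (nat_lit 7) (nat_lit 8) (C.cons (nat_lit 386) (C.node (nat_lit 5) (nat_lit 6) (nat_lit 8) C.nil) C.nil)) C.nil)) (C.cons (nat_lit 274) (C.node (nat_lit 4) (nat_lit 5) (nat_lit 8) (C.cons (nat_lit 304) (C.node (nat_lit 1) (nat_lit 6) (nat_lit 8) C.nil) C.nil)) C.nil))) C.nil))) C.nil))) C.nil))) C.nil)) C.nil))) C.nil)) C.nil))) C.nil))) C.nil))) (C.cons (nat_lit 82) (C.node (nat_lit 3) (nat_lit 4) (nat_lit 6) (C.cons (nat_lit 88) (C.node (nat_lit 1) (nat_lit 6) (nat_lit 9) (C.cons (nat_lit 610) (C.node (nat_lit 5) (nat_lit 6) (nat_lit 8) (C.cons (nat_lit 352) (C.node (nat_lit 4) (nat_lit 5) (nat_lit 8) (C.cons (nat_lit 306) (C.miq (nat_lit 643303700) (nat_lit 425546998418249268275053075))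 (C.cons (nat_lit 304) (C.node (nat_lit 1) (nat_lit 7) (nat_lit 8) (C.cons (nat_lit 418) (C.node (nat_lit 3) (nat_lit 5) (nat_lit 6) (C.cons (nat_lit 232) (C.miq (nat_lit 1096223075) (nat_lit 505333815100224105167192653)) (C.cons (nat_lit 104) (C.node (nat_lit 5) (nat_lit 6) (nat_lit 7) (C.cons (nat_lit 224) (C.node (nat_lit 5) (nat_lit 8) (nat_lit 9) (C.cons (nat_lit 804) (C.miq (nat_lit 622237808) (nat_lit 737455615323490888081147777)) (C.cons (nat_lit 800) (C.node (nat_lit 2) (nat_lit 8) (nat_lit 9) (C.cons (nat_lit 774) (C.miq (nat_lit 1159202450) (nat_lit 505336102667063081073771085)) (C.cons (nat_lit 772) (C.node (nat_lit 1) (nat_lit 2) (nat_lit 8) (C.cons (nat_lit 270) (C.node (nat_lit 1) (nat_lit 8) (nat_lit 9) (C.cons (nat_lit 770) (C.node (nat_lit 3) (nat_lit 8) (nat_lit 9) (C.cons (nat_lit 776) (C.node (nat_lit 1) (nat_lit 3) (nat_lit 6) (C.cons (nat_lit 74) (C.node (nat_lit 1) (nat_lit 4) (nat_lit 8) (C.cons (nat_lit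 274) (C.node (nat_lit 1) (nat_lit 6) (nat_lit 8) C.nil) C.nil)) C.nil)) C.nil)) C.nil)) (C.cons (nat_lit 262) (C.node (nat_lit 1) (nat_lit 2) (nat_lit 9) (C.cons (nat_lit 646) (C.node (nat_lit 1) (nat_lit 4) (nat_lit 7) (C.cons (nat_lit 1170) (C.miq (nat_lit 1093052304) (nat_lit 84645781650364347328563073)) (C.cons (nat_lit 146) (C.node (nat_lit 1) (nat_lit 5) (nat_lit 10) (C.cons (nat_lit 1066)
  (C.miq (nat_lit 559126400) (nat_lit 1288725789023288745433565057)) (C.cons (nat_lit 1058) (C.node (nat_lit 4) (nat_lit 5) (nat_lit 7) (C.cons (nat_lit 688) (C.miq (nat_lit 2775712913) (nat_lit 199491779149593811874087443)) C.nil)) C.nil))) C.nil))) (C.cons (nat_lit 518) (C.node (nat_lit 1) (nat_lit 7) (nat_lit 9) (C.cons (nat_lit 650) (C.miq (nat_lit 1159136915) (nat_lit 505333815270797941081244237)) (C.cons (nat_lit 642) (C.node (nat_lit 1) (nat_lit 8) (nat_lit 9) (C.cons (nat_lit 778) (C.miq (nat_lit 1905416240) (nat_lit 626226618390809956362027305))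 (C.cons (nat_lit 770) (C.node (nat_lit 3) (nat_lit 8) (nat_lit 9) (C.cons (nat_lit 776) (C.node (nat_lit 1) (nat_lit 3) (nat_lit 9) C.nil) C.nil)) C.nil))) C.nil))) C.nil))) C.nil))) C.nil))) C.nil))) C.nil)) C.nil))) (C.cons (nat_lit 386) (C.node (nat_lit 5) (nat_lit 7) (nat_lit 8) (C.cons (nat_lit 416) (C.node (nat_lit 1) (nat_lit 9) (nat_lit 10) (C.cons (nat_lit 1546) (C.node (nat_lit 3) (nat_lit 8) (nat_lit 9) (C.cons (nat_lit 776) (C.node (nat_lit 1) (nat_lit 8) (nat_lit 9) (C.cons (nat_lit 774) (C.miq (nat_lit 407212550) (nat_lit 367524701894595053691667021)) (C.cons (nat_lit 770) (C.node (nat_lit 3) (nat_lit 4) (nat_lit 9) (C.cons (nat_lit 568) (C.miq (nat_lit 1905460820) (nat_lit 1869002139530950222082999409)) (C.cons (nat_lit 536) (C.node (nat_lit 3) (nat_lit 5) (nat_lit 6) (C.cons (nat_lit 232) (C.miq (nat_lit 1497587975) (nat_lit 647988519129768354689646787)) (C.cons (nat_lit 104) (C.node (nat_lit 5) (nat_lit 6) (nat_lit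 7) (C.cons (nat_lit 224) (C.node (nat_lit 1) (nat_lit 3) (nat_lit 6) (C.cons (nat_lit 74) (C.node (nat_lit 1) (nat_lit 6) (nat_lit 8) (C.cons (nat_lit 322) (C.node (nat_lit 1) (nat_lit 6) (nat_lit 10) C.nil) C.nil)) C.nil)) C.nil)) C.nil))) C.nil))) C.nil))) C.nil)) (C.cons (nat_lit 1538) (C.node (nat_lit 3) (nat_lit 5) (nat_lit 6) (C.cons (nat_lit 232) (C.node (nat_lit 6) (nat_lit 7) (nat_lit 10) (C.cons (nat_lit 1216) (C.node (nat_lit 5) (nat_lit 7) (nat_lit 9) (C.cons (nat_lit 688) (C.miq (nat_lit 359962160) (nat_lit 831750759287668744205697613)) (C.cons (nat_lit 672) (C.node (nat_lit 4) (nat_lit 5) (nat_lit 7) (C.cons (nat_lit 178) (C.node (nat_lit 5) (nat_lit 7) (nat_lit 10) (C.cons (nat_lit 1184) (C.node (nat_lit 1) (nat_lit 7) (nat_lit 10) (C.cons (nat_lit 1162) (C.miq (nat_lit 2440258880) (nat_lit 1404782667696159016242185329)) (C.cons (nat_lit 1154) (C.node (nat_lit 3) (nat_lit 7) (nat_lit 9) (C.cons (nat_lit 650) (C.node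 (nat_lit 1) (nat_lit 2) (nat_lit 7) (C.cons (nat_lit 134) (C.node (nat_lit 1) (nat_lit 2) (nat_lit 4) C.nil) C.nil)) (C.cons (nat_lit 648) (C.miq (nat_lit 389633030) (nat_lit 783395183674267871059182705)) C.nil))) C.nil))) C.nil)) (C.cons (nat_lit 176) (C.miq (nat_lit 359962160) (nat_lit 212780739644978606756135501)) C.nil))) C.nil))) C.nil)) (C.cons (nat_lit 104) (C.node (nat_lit 5) (nat_lit 6) (nat_lit 7) (C.cons (nat_lit 224) (C.node (nat_lit 3) (nat_lit 6) (nat_lit 7) (C.cons (nat_lit 1224) (C.node (nat_lit 3) (nat_lit 4) (nat_lit 9) (C.cons (nat_lit 1560) (C.miq (nat_lit 339085735) (nat_lit 106389069390651653599266689)) (C.cons (nat_lit 568) (C.miq (nat_lit 895961360) (nat_lit 270802206105400619410063891)) (C.cons (nat_lit 536) (C.node (nat_lit 1) (nat_lit 3) (nat_lit 6) (C.cons (nat_lit 330) (C.node (nat_lit 1) (nat_lit 6) (nat_lit 10) (C.cons (nat_lit 1090) (C.node (nat_lit 1) (nat_lit 4) (nat_lit 8) (C.cons (nat_lit 1298)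 (C.miq (nat_lit 342010000) (nat_lit 101568787806127007164336001)) C.nil)) C.nil)) (C.cons (nat_lit 74) (C.node (nat_lit 3) (nat_lit 6) (nat_lit 8) (C.cons (nat_lit 328) (C.node (nat_lit 1) (nat_lit 6) (nat_lit 8) (C.cons (nat_lit 1346) (C.node (nat_lit 4) (nat_lit 8) (nat_lit 10) (C.cons (nat_lit 1304) (C.miq (nat_lit 406284864) (nat_lit 473902518782899929147311217)) C.nil)) C.nil)) C.nil)) C.nil))) C.nil)))) (C.cons (nat_lit 200) (C.node (nat_lit 6) (nat_lit 7) (nat_lit 10) (C.cons (nat_lit 1216) (C.node (nat_lit 3) (nat_lit 8) (nat_lit 9) (C.cons (nat_lit 778)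
  (C.node (nat_lit 3) (nat_lit 6) (nat_lit 8) (C.cons (nat_lit 1352) (C.miq (nat_lit 342069416) (nat_lit 106399823842444809505081217)) C.nil)) (C.cons (nat_lit 776) (C.node (nat_lit 1) (nat_lit 8) (nat_lit 9) (C.cons (nat_lit 774) (C.miq (nat_lit 407212550) (nat_lit 367524701894595053691667021)) (C.cons (nat_lit 770) (C.node (nat_lit 1) (nat_lit 7) (nat_lit 9) C.nil) C.nil))) C.nil))) C.nil)) C.nil))) C.nil)) C.nil))) C.nil))) C.nil)) C.nil))) C.nil))) C.nil)) (C.cons (nat_lit 578) (C.node (nat_lit 5) (nat_lit 6) (nat_lit 9) (C.cons (nat_lit 608) (C.node (nat_lit 1) (nat_lit 7) (nat_lit 8) (C.cons (nat_lit 418) (C.node (nat_lit 4) (nat_lit 5) (nat_lit 8) (C.cons (nat_lit 304) (C.node (nat_lit 5) (nat_lit 6) (nat_lit 8) (C.cons (nat_lit 352) (C.node (nat_lit 1) (nat_lit 5) (nat_lit 6) (C.cons (nat_lit 106) (C.miq (nat_lit 2555578134) (nat_lit 359061834098519505378083011)) (C.cons (nat_lit 98) (C.node (nat_lit 5) (nat_lit 8) (nat_lit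 9) (C.cons (nat_lit 804) (C.miq (nat_lit 622237808) (nat_lit 118485595680800750631585665)) (C.cons (nat_lit 800) (C.node (nat_lit 2) (nat_lit 8) (nat_lit 9) (C.cons (nat_lit 774) (C.miq (nat_lit 2793538705) (nat_lit 546453489378993072217915923)) (C.cons (nat_lit 772) (C.node (nat_lit 1) (nat_lit 2) (nat_lit 8) (C.cons (nat_lit 270) (C.node (nat_lit 1) (nat_lit 8) (nat_lit 9) (C.cons (nat_lit 770) (C.node (nat_lit 3) (nat_lit 8) (nat_lit 9) (C.cons (nat_lit 776) (C.node (nat_lit 1) (nat_lit 6) (nat_lit 8) (C.cons (nat_lit 322) (C.node (nat_lit 1) (nat_lit 3) (nat_lit 6) C.nil) C.nil)) C.nil)) C.nil)) (C.cons (nat_lit 262) (C.node (nat_lit 1) (nat_lit 8) (nat_lit 9) (C.cons (nat_lit 778) (C.node (nat_lit 1) (nat_lit 4) (nat_lit 8) (C.cons (nat_lit 1298) (C.miq (nat_lit 342010000) (nat_lit 101568787806127007164336001)) (C.cons (nat_lit 274) (C.node (nat_lit 1) (nat_lit 3) (nat_lit 6) (C.cons (nat_lit 74) (C.node (nat_lit 1) (nat_lit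 6) (nat_lit 8) C.nil) C.nil)) C.nil))) (C.cons (nat_lit 770) (C.node (nat_lit 3) (nat_lit 8) (nat_lit 9) (C.cons (nat_lit 776) (C.node (nat_lit 1) (nat_lit 6) (nat_lit 8) (C.cons (nat_lit 1346) (C.node (nat_lit 3) (nat_lit 6) (nat_lit 8) C.nil) (C.cons (nat_lit 330) (C.miq (nat_lit 629344022) (nat_lit 359061833604249446288851139)) C.nil))) C.nil)) C.nil))) C.nil))) C.nil))) C.nil))) C.nil))) C.nil)) C.nil)) (C.cons (nat_lit 386) (C.node (nat_lit 5) (nat_lit 7) (nat_lit 8) (C.cons (nat_lit 416) (C.node (nat_lit 3) (nat_lit 8) (nat_lit 9) (C.cons (nat_lit 778) (C.node (nat_lit 3) (nat_lit 6) (nat_lit 8) (C.cons (nat_lit 1352) (C.miq (nat_lit 342069416) (nat_lit 106399823842444809505081217)) (C.cons (nat_lit 328) (C.node (nat_lit 4) (nat_lit 5) (nat_lit 8) (C.cons (nat_lit 306) (C.miq (nat_lit 1669662996) (nat_lit 359071942539348775435108883)) (C.cons (nat_lit 304) (C.node (nat_lit 1) (nat_lit 4) (nat_lit 8) (C.cons (nat_lit 1298)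 (C.miq (nat_lit 342010000) (nat_lit 101568787806127007164336001)) (C.cons (nat_lit 274) (C.node (nat_lit 1) (nat_lit 2) (nat_lit 8) (C.cons (nat_lit 294) (C.node (nat_lit 2) (nat_lit 8) (nat_lit 9) (C.cons (nat_lit 772) (C.node (nat_lit 5) (nat_lit 6) (nat_lit 8) (C.cons (nat_lit 352) (C.node (nat_lit 1) (nat_lit 6) (nat_lit 8) C.nil) C.nil)) C.nil)) (C.cons (nat_lit 262) (C.node (nat_lit 1) (nat_lit 9) (nat_lit 10) (C.cons (nat_lit 1570) (C.node (nat_lit 1) (nat_lit 5) (nat_lit 8) (C.cons (nat_lit 290) (C.node (nat_lit 5) (nat_lit 6) (nat_lit 8) (C.cons (nat_lit 352) (C.node (nat_lit 1) (nat_lit 5) (nat_lit 6) C.nil) C.nil)) C.nil)) (C.cons (nat_lit 1538) (C.node (nat_lit 2) (nat_lit 3) (nat_lit 8) (C.cons (nat_lit 1292) (C.node (nat_lit 3) (nat_lit 4) (nat_lit 8) (C.cons (nat_lit 280) (C.node (nat_lit 1) (nat_lit 6) (nat_lit 8) C.nil) C.nil)) (C.cons (nat_lit 268) (C.node (nat_lit 2) (nat_lit 8) (nat_lit 9) (C.cons (nat_lit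 804) (C.node (nat_lit 1) (nat_lit 6) (nat_lit 8) C.nil) (C.cons (nat_lit 772) (C.node (nat_lit 5) (nat_lit 8) (nat_lit 9) C.nil) C.nil))) C.nil))) C.nil))) C.nil))) C.nil))) C.nil))) C.nil))) (C.cons (nat_lit 776)
  (C.node (nat_lit 4) (nat_lit 5) (nat_lit 8) (C.cons (nat_lit 306) (C.node (nat_lit 5) (nat_lit 6) (nat_lit 8) (C.cons (nat_lit 352) (C.node (nat_lit 1) (nat_lit 5) (nat_lit 6) (C.cons (nat_lit 106) (C.miq (nat_lit 1096975664) (nat_lit 84629917207264257953825065)) (C.cons (nat_lit 98) (C.node (nat_lit 1) (nat_lit 8) (nat_lit 9) (C.cons (nat_lit 774) (C.miq (nat_lit 2759919250) (nat_lit 369950319715257212710814285)) (C.cons (nat_lit 770) (C.node (nat_lit 1) (nat_lit 2) (nat_lit 8) (C.cons (nat_lit 270) (C.miq (nat_lit 911286344) (nat_lit 118479711108927205380587797)) (C.cons (nat_lit 262) (C.node (nat_lit 2) (nat_lit 3) (nat_lit 8) (C.cons (nat_lit 1292) (C.node (nat_lit 1) (nat_lit 6) (nat_lit 8) C.nil) (C.cons (nat_lit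 268) (C.node (nat_lit 2) (nat_lit 8) (nat_lit 9) (C.cons (nat_lit 804) (C.node (nat_lit 1) (nat_lit 6) (nat_lit 8) C.nil) (C.cons (nat_lit 772) (C.node (nat_lit 5) (nat_lit 8) (nat_lit 9) C.nil) C.nil))) C.nil))) C.nil))) C.nil))) C.nil))) C.nil)) (C.cons (nat_lit 304) (C.node (nat_lit 5) (nat_lit 6) (nat_lit 7) (C.cons (nat_lit 232) (C.node (nat_lit 6) (nat_lit 7) (nat_lit 10) (C.cons (nat_lit 1216) (C.node (nat_lit 1) (nat_lit 5) (nat_lit 6) (C.cons (nat_lit 354) (C.node (nat_lit 1) (nat_lit 8) (nat_lit 9) (C.cons (nat_lit 774) (C.miq (nat_lit 2793538705) (nat_lit 546453489378993072217915923)) (C.cons (nat_lit 770) (C.node (nat_lit 1) (nat_lit 2) (nat_lit 8) (C.cons (nat_lit 270) (C.node (nat_lit 1) (nat_lit 4) (nat_lit 8) C.nil) C.nil)) C.nil))) (C.cons (nat_lit 98) (C.node (nat_lit 5) (nat_lit 6) (nat_lit 8) (C.cons (nat_lit 352) (C.node (nat_lit 3) (nat_lit 7) (nat_lit 9) (C.cons (nat_lit 650) (C.node (nat_lit 1) (nat_lit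 5) (nat_lit 7) (C.cons (nat_lit 1186) (C.miq (nat_lit 911315111) (nat_lit 118486720871675215067875201)) (C.cons (nat_lit 178) (C.miq (nat_lit 1368803120) (nat_lit 698780097735372808362197145)) (C.cons (nat_lit 162) (C.miq (nat_lit 1098189110) (nat_lit 195866956875047738439893581)) C.nil)))) (C.cons (nat_lit 648) (C.node (nat_lit 5) (nat_lit 7) (nat_lit 10) (C.cons (nat_lit 1186) (C.node (nat_lit 1) (nat_lit 3) (nat_lit 7) (C.cons (nat_lit 142) (C.node (nat_lit 1) (nat_lit 4) (nat_lit 7) C.nil) (C.cons (nat_lit 138) (C.miq (nat_lit 561187414) (nat_lit 166842628529284035870458993)) C.nil))) (C.cons (nat_lit 1184) (C.node (nat_lit 1) (nat_lit 6) (nat_lit 8) (C.cons (nat_lit 1354) (C.node (nat_lit 1) (nat_lit 4) (nat_lit 8) C.nil) C.nil)) C.nil))) C.nil))) C.nil)) C.nil))) C.nil)) (C.cons (nat_lit 224) (C.node (nat_lit 3) (nat_lit 5) (nat_lit 6) (C.cons (nat_lit 106) (C.node (nat_lit 5) (nat_lit 6) (nat_lit 8) (C.cons (nat_lit 352)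 (C.node (nat_lit 1) (nat_lit 6) (nat_lit 8) (C.cons (nat_lit 1346) (C.node (nat_lit 3) (nat_lit 6) (nat_lit 8) C.nil) (C.cons (nat_lit 322) (C.node (nat_lit 1) (nat_lit 6) (nat_lit 10) C.nil) C.nil))) C.nil)) (C.cons (nat_lit 104) (C.node (nat_lit 1) (nat_lit 5) (nat_lit 6) (C.cons (nat_lit 354) (C.node (nat_lit 1) (nat_lit 8) (nat_lit 9) (C.cons (nat_lit 774) (C.miq (nat_lit 2793538705) (nat_lit 546453489378993072217915923)) (C.cons (nat_lit 770) (C.node (nat_lit 1) (nat_lit 2) (nat_lit 8) (C.cons (nat_lit 270) (C.node (nat_lit 3) (nat_lit 6) (nat_lit 8) (C.cons (nat_lit 328) (C.node (nat_lit 6) (nat_lit 8) (nat_lit 10) C.nil) C.nil)) (C.cons (nat_lit 262) (C.node (nat_lit 1) (nat_lit 3) (nat_lit 6) (C.cons (nat_lit 74) (C.node (nat_lit 1) (nat_lit 6) (nat_lit 10) C.nil) C.nil)) C.nil))) C.nil))) (C.cons (nat_lit 98) (C.node (nat_lit 5) (nat_lit 6) (nat_lit 8) C.nil) C.nil))) C.nil))) C.nil))) C.nil))) C.nil))) C.nil)) C.nil)))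 C.nil)) C.nil))) C.nil)) C.nil))) C.nil))))) C.nil))) (C.cons (nat_lit 592) (C.ref (nat_lit 153) (nat_lit 11649936536080)) C.nil))) C.nil))) C.nil))) List.nil)

theorem ok11_154 : okL par11 (nat_lit 155) c11_154 (nat_lit 154) = true := by decide +kernel

noncomputable def c11_155 : List C :=
  (List.cons (C.node (nat_lit 1) (nat_lit 9) (nat_lit 10) (C.cons (nat_lit 1570) (C.node (nat_lit 5) (nat_lit 8) (nat_lit 10) (C.cons (nat_lit 1312) (C.node (nat_lit 1) (nat_lit 8) (nat_lit 10) (C.cons (nat_lit 1298) (C.miq (nat_lit 404988934) (nat_lit 324012374547069261423903857)) (C.cons (nat_lit 1282) (C.node (nat_lit 2) (nat_lit 5) (nat_lit 10) (C.cons (nat_lit 1068) (C.miq (nat_lit 1906640434) (nat_lit 1898016580562632302767374925)) (C.cons (nat_lit 1060) (C.node (nat_lit 3) (nat_lit 5) (nat_lit 6) (C.cons (nat_lit 232) (C.miq (nat_lit 975528199) (nat_lit 1281465648745195978354917571)) (C.cons (nat_lit 104) (C.node (nat_lit 1) (nat_lit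 4) (nat_lit 10) (C.cons (nat_lit 1170) (C.node (nat_lit 2) (nat_lit 7) (nat_lit 10) (C.cons (nat_lit 1164) (C.miq (nat_lit 2473853601) (nat_lit 184975445787935164203140103)) (C.cons (nat_lit 1156) (C.node (nat_lit 2) (nat_lit 3) (nat_lit 7) (C.cons (nat_lit 142) (C.miq (nat_lit 1511458354) (nat_lit 1414446252981930060885656141)) (C.cons (nat_lit 140) (C.node (nat_lit 2) (nat_lit 3) (nat_lit 10) (C.cons (nat_lit 1052) (C.miq (nat_lit 1665598113) (nat_lit 184969247681925916757459975)) (C.cons (nat_lit 1036) (C.node (nat_lit 2) (nat_lit 4) (nat_lit 10) (C.cons (nat_lit 1556) (C.miq (nat_lit 605461104) (nat_lit 99142782778639096138106753)) (C.cons (nat_lit 1044) (C.node (nat_lit 2) (nat_lit 9) (nat_lit 10) (C.cons (nat_lit 1540) (C.node (nat_lit 3) (nat_lit 5) (nat_lit 10) (C.cons (nat_lit 1192) (C.miq (nat_lit 1393141569) (nat_lit 712086269476731137301873810)) (C.cons (nat_lit 1064) (C.node (nat_lit 3) (nat_lit 7) (nat_lit 10) (C.cons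 (nat_lit 1160) (C.node (nat_lit 5) (nat_lit 7) (nat_lit 10) C.nil) C.nil)) C.nil))) C.nil)) C.nil))) C.nil))) C.nil))) C.nil))) (C.cons (nat_lit 1042) (C.node (nat_lit 1) (nat_lit 7) (nat_lit 10) (C.cons (nat_lit 1154) (C.node (nat_lit 1) (nat_lit 5) (nat_lit 6) (C.cons (nat_lit 354) (C.node (nat_lit 1) (nat_lit 6) (nat_lit 9) (C.cons (nat_lit 578) (C.node (nat_lit 6) (nat_lit 8) (nat_lit 9) (C.cons (nat_lit 848) (C.miq (nat_lit 641837200) (nat_lit 99150936180971497646655361)) (C.cons (nat_lit 832) (C.node (nat_lit 2) (nat_lit 5) (nat_lit 8) (C.cons (nat_lit 804) (C.node (nat_lit 1) (nat_lit 2) (nat_lit 8) (C.cons (nat_lit 390) (C.node (nat_lit 1) (nat_lit 2) (nat_lit 9) (C.cons (nat_lit 518) (C.node (nat_lit 4) (nat_lit 6) (nat_lit 8) (C.cons (nat_lit 464) (C.miq (nat_lit 1210738448) (nat_lit 1629652978919137999562670275)) C.nil)) C.nil)) (C.cons (nat_lit 262) (C.node (nat_lit 2) (nat_lit 7) (nat_lit 8) (C.cons (nat_lit 388)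 (C.node (nat_lit 3) (nat_lit 6) (nat_lit 8) (C.cons (nat_lit 456) (C.node (nat_lit 4) (nat_lit 6) (nat_lit 8) C.nil) C.nil)) C.nil)) C.nil))) (C.cons (nat_lit 292) (C.node (nat_lit 2) (nat_lit 8) (nat_lit 9) (C.cons (nat_lit 774) (C.miq (nat_lit 1176570505) (nat_lit 84634602914170020187998081)) (C.cons (nat_lit 772) (C.node (nat_lit 5) (nat_lit 8) (nat_lit 9) (C.cons (nat_lit 816) (C.miq (nat_lit 427992384) (nat_lit 933309751777552935568082033)) (C.cons (nat_lit 800) (C.node (nat_lit 3) (nat_lit 6) (nat_lit 8) (C.cons (nat_lit 456) (C.node (nat_lit 4) (nat_lit 6) (nat_lit 8) C.nil) C.nil)) C.nil))) C.nil))) C.nil))) C.nil))) C.nil)) (C.cons (nat_lit 98) (C.node (nat_lit 1) (nat_lit 6) (nat_lit 8) (C.cons (nat_lit 834) (C.node (nat_lit 3) (nat_lit 6) (nat_lit 7) (C.cons (nat_lit 456) (C.miq (nat_lit 372545648) (nat_lit 106395267581942596237854593)) (C.cons (nat_lit 200) (C.node (nat_lit 3) (nat_lit 6) (nat_lit 8) (C.cons (nat_lit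 328) (C.node (nat_lit 3) (nat_lit 8) (nat_lit 9) (C.cons (nat_lit 792) (C.miq (nat_lit 1938162833) (nat_lit 396531265991761815771677203)) (C.cons (nat_lit 776) (C.node (nat_lit 4) (nat_lit 8) (nat_lit 9) (C.cons (nat_lit 816) (C.miq (nat_lit 563612244) (nat_lit 1008249243596916593391567985)) (C.cons (nat_lit 784) (C.node (nat_lit 1) (nat_lit 2) (nat_lit 9) (C.cons (nat_lit 646) (C.node (nat_lit 1) (nat_lit 3) (nat_lit 9) C.nil) (C.cons (nat_lit 518) (C.node (nat_lit 1) (nat_lit 3) (nat_lit 9) (C.cons (nat_lit 522)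
  (C.node (nat_lit 1) (nat_lit 7) (nat_lit 9) C.nil) C.nil)) C.nil))) C.nil))) C.nil))) C.nil)) C.nil))) (C.cons (nat_lit 322) (C.node (nat_lit 1) (nat_lit 6) (nat_lit 9) (C.cons (nat_lit 578) (C.node (nat_lit 2) (nat_lit 7) (nat_lit 8) (C.cons (nat_lit 390) (C.node (nat_lit 1) (nat_lit 2) (nat_lit 9) (C.cons (nat_lit 518) (C.node (nat_lit 1) (nat_lit 4) (nat_lit 7) (C.cons (nat_lit 178) (C.node (nat_lit 1) (nat_lit 5) (nat_lit 8) C.nil) C.nil)) C.nil)) (C.cons (nat_lit 388) (C.node (nat_lit 2) (nat_lit 9) (nat_lit 10) (C.cons (nat_lit 1556) (C.node (nat_lit 3) (nat_lit 9) (nat_lit 10) (C.cons (nat_lit 1544) (C.node (nat_lit 4) (nat_lit 7) (nat_lit 10) (C.cons (nat_lit 1168) (C.node (nat_lit 1) (nat_lit 2) (nat_lit 9) (C.cons (nat_lit 774) (C.miq (nat_lit 1176570505) (nat_lit 84634602914170020187998081)) (C.cons (nat_lit 646) (C.miq (nat_lit 1108781424) (nat_lit 84645781759013688313055105)) C.nil))) C.nil)) C.nil)) (C.cons (nat_lit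 1540) (C.node (nat_lit 3) (nat_lit 5) (nat_lit 10) (C.cons (nat_lit 1192) (C.node (nat_lit 3) (nat_lit 6) (nat_lit 7) (C.cons (nat_lit 200) (C.node (nat_lit 3) (nat_lit 6) (nat_lit 8) C.nil) C.nil)) (C.cons (nat_lit 1064) (C.node (nat_lit 5) (nat_lit 7) (nat_lit 10) (C.cons (nat_lit 1184) (C.node (nat_lit 3) (nat_lit 6) (nat_lit 7) (C.cons (nat_lit 200) (C.node (nat_lit 3) (nat_lit 6) (nat_lit 8) C.nil) C.nil)) C.nil)) C.nil))) C.nil))) C.nil))) C.nil)) C.nil))) C.nil))) C.nil)) C.nil))) C.nil))) C.nil))) C.nil))) C.nil)) (C.cons (nat_lit 1538) (C.node (nat_lit 2) (nat_lit 7) (nat_lit 8) (C.cons (nat_lit 390) (C.node (nat_lit 3) (nat_lit 5) (nat_lit 6) (C.cons (nat_lit 232) (C.miq (nat_lit 924935434) (nat_lit 471501324240001214557127793)) (C.cons (nat_lit 104) (C.node (nat_lit 4) (nat_lit 6) (nat_lit 8) (C.cons (nat_lit 848) (C.miq (nat_lit 641837200) (nat_lit 99150936180971497646655361)) (C.cons (nat_lit 464) (C.miq (nat_lit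 1210738448) (nat_lit 1629652978919137999562670275)) (C.cons (nat_lit 336) (C.node (nat_lit 1) (nat_lit 2) (nat_lit 9) (C.cons (nat_lit 550) (C.node (nat_lit 2) (nat_lit 5) (nat_lit 8) (C.cons (nat_lit 292) (C.node (nat_lit 2) (nat_lit 8) (nat_lit 9) (C.cons (nat_lit 772) (C.node (nat_lit 2) (nat_lit 5) (nat_lit 10) (C.cons (nat_lit 1068) (C.miq (nat_lit 846308614) (nat_lit 471501324475314295032448113)) (C.cons (nat_lit 1060) (C.node (nat_lit 1) (nat_lit 2) (nat_lit 3) (C.cons (nat_lit 30) (C.node (nat_lit 2) (nat_lit 3) (nat_lit 5) (C.cons (nat_lit 44) (C.node (nat_lit 2) (nat_lit 4) (nat_lit 5) (C.cons (nat_lit 52) (C.node (nat_lit 1) (nat_lit 7) (nat_lit 9) (C.cons (nat_lit 650) (C.miq (nat_lit 1215373459) (nat_lit 471481623130004408645583437)) (C.cons (nat_lit 642) (C.node (nat_lit 2) (nat_lit 3) (nat_lit 7) (C.cons (nat_lit 1164) (C.miq (nat_lit 2536770081) (nat_lit 184975446162859833107022855)) (C.cons (nat_lit 140) (C.node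 (nat_lit 2) (nat_lit 3) (nat_lit 10) (C.cons (nat_lit 1036) (C.node (nat_lit 2) (nat_lit 7) (nat_lit 9) (C.cons (nat_lit 660) (C.node (nat_lit 2) (nat_lit 4) (nat_lit 10) C.nil) C.nil)) C.nil)) C.nil))) C.nil))) C.nil)) C.nil)) (C.cons (nat_lit 14) (C.node (nat_lit 1) (nat_lit 2) (nat_lit 4) (C.cons (nat_lit 22) (C.node (nat_lit 1) (nat_lit 5) (nat_lit 6) (C.cons (nat_lit 354) (C.node (nat_lit 1) (nat_lit 6) (nat_lit 9) (C.cons (nat_lit 578) (C.node (nat_lit 6) (nat_lit 8) (nat_lit 9) C.nil) C.nil)) (C.cons (nat_lit 98) (C.node (nat_lit 1) (nat_lit 6) (nat_lit 8) (C.cons (nat_lit 834) (C.node (nat_lit 3) (nat_lit 6) (nat_lit 7) (C.cons (nat_lit 456) (C.miq (nat_lit 372545648) (nat_lit 106395267581942596237854593)) C.nil)) (C.cons (nat_lit 322) (C.node (nat_lit 1) (nat_lit 6) (nat_lit 9) (C.cons (nat_lit 578) (C.node (nat_lit 3) (nat_lit 6) (nat_lit 7) C.nil) C.nil)) C.nil))) C.nil))) C.nil)) C.nil))) C.nil))) C.nil)) C.nil))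 (C.cons (nat_lit 518) (C.node (nat_lit 2) (nat_lit 3) (nat_lit 7) (C.cons (nat_lit 1164) (C.node (nat_lit 4) (nat_lit 7) (nat_lit 10) (C.cons (nat_lit 1170) (C.miq (nat_lit 2473853601) (nat_lit 184975445787935164203140103))
  (C.cons (nat_lit 1168) (C.node (nat_lit 1) (nat_lit 4) (nat_lit 10) (C.cons (nat_lit 1298) (C.miq (nat_lit 830630464) (nat_lit 471491935091029892375315569)) (C.cons (nat_lit 1042) (C.node (nat_lit 1) (nat_lit 7) (nat_lit 10) (C.cons (nat_lit 1186) (C.miq (nat_lit 829581904) (nat_lit 471491935091029411331638385)) (C.cons (nat_lit 1154) (C.node (nat_lit 5) (nat_lit 7) (nat_lit 10) (C.cons (nat_lit 1184) (C.node (nat_lit 4) (nat_lit 7) (nat_lit 8) (C.cons (nat_lit 432) (C.miq (nat_lit 1461340192) (nat_lit 1395121369904892740414931221)) (C.cons (nat_lit 400) (C.node (nat_lit 5) (nat_lit 7) (nat_lit 8) (C.cons (nat_lit 480) (C.miq (nat_lit 1479173904) (nat_lit 1629652978923641599190040771)) (C.cons (nat_lit 416)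 (C.node (nat_lit 1) (nat_lit 2) (nat_lit 4) (C.cons (nat_lit 62) (C.miq (nat_lit 2536770081) (nat_lit 184975446162859833109120007)) (C.cons (nat_lit 54) (C.miq (nat_lit 1517371522) (nat_lit 1395101392279507347104465173)) (C.cons (nat_lit 30) (C.miq (nat_lit 2536770081) (nat_lit 184975446162859833107022855)) (C.cons (nat_lit 22) (C.node (nat_lit 1) (nat_lit 2) (nat_lit 3) (C.cons (nat_lit 46) (C.node (nat_lit 2) (nat_lit 3) (nat_lit 4) (C.cons (nat_lit 28) (C.node (nat_lit 1) (nat_lit 5) (nat_lit 10) (C.cons (nat_lit 1314) (C.miq (nat_lit 2555578898) (nat_lit 359061834098523353664848903)) (C.cons (nat_lit 1058) (C.node (nat_lit 1) (nat_lit 8) (nat_lit 10) (C.cons (nat_lit 1282) (C.node (nat_lit 2) (nat_lit 4) (nat_lit 5) C.nil) C.nil)) C.nil))) C.nil)) (C.cons (nat_lit 14) (C.node (nat_lit 1) (nat_lit 2) (nat_lit 5) (C.cons (nat_lit 38) (C.node (nat_lit 1) (nat_lit 4) (nat_lit 7) (C.cons (nat_lit 178) (C.node (nat_lit 1) (nat_lit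 3) (nat_lit 7) (C.cons (nat_lit 650) (C.miq (nat_lit 1969427465) (nat_lit 125740275673676774648906259)) C.nil)) (C.cons (nat_lit 146) (C.node (nat_lit 2) (nat_lit 4) (nat_lit 7) C.nil) C.nil))) C.nil)) C.nil))) C.nil))))) C.nil))) C.nil))) C.nil)) C.nil))) C.nil))) C.nil))) (C.cons (nat_lit 140) (C.node (nat_lit 2) (nat_lit 5) (nat_lit 8) (C.cons (nat_lit 804) (C.node (nat_lit 2) (nat_lit 5) (nat_lit 10) (C.cons (nat_lit 1068) (C.miq (nat_lit 321350224) (nat_lit 169253212170206569285616753)) (C.cons (nat_lit 1060) (C.node (nat_lit 6) (nat_lit 8) (nat_lit 9) (C.cons (nat_lit 834) (C.miq (nat_lit 1461198953) (nat_lit 471495900878384849345446477)) (C.cons (nat_lit 832) (C.node (nat_lit 1) (nat_lit 6) (nat_lit 8) (C.cons (nat_lit 354) (C.node (nat_lit 1) (nat_lit 6) (nat_lit 9) (C.cons (nat_lit 578) (C.node (nat_lit 5) (nat_lit 8) (nat_lit 10) (C.cons (nat_lit 1312) (C.node (nat_lit 1) (nat_lit 5) (nat_lit 10) (C.cons (nat_lit 1186)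 (C.miq (nat_lit 829581904) (nat_lit 471491935091029411331638385)) (C.cons (nat_lit 1058) (C.node (nat_lit 1) (nat_lit 8) (nat_lit 10) (C.cons (nat_lit 1298) (C.miq (nat_lit 830630464) (nat_lit 471491935091029892375315569)) (C.cons (nat_lit 1282) (C.node (nat_lit 1) (nat_lit 2) (nat_lit 3) C.nil) C.nil))) C.nil))) C.nil)) C.nil)) (C.cons (nat_lit 322) (C.node (nat_lit 5) (nat_lit 6) (nat_lit 8) (C.cons (nat_lit 480) (C.miq (nat_lit 1479173904) (nat_lit 1629652978923641599190040771)) (C.cons (nat_lit 352) (C.node (nat_lit 1) (nat_lit 5) (nat_lit 6) (C.cons (nat_lit 610) (C.node (nat_lit 5) (nat_lit 6) (nat_lit 7) (C.cons (nat_lit 224) (C.node (nat_lit 3) (nat_lit 6) (nat_lit 7) (C.cons (nat_lit 456) (C.node (nat_lit 4) (nat_lit 6) (nat_lit 7) (C.cons (nat_lit 720) (C.node (nat_lit 2) (nat_lit 7) (nat_lit 9) (C.cons (nat_lit 644) (C.node (nat_lit 2) (nat_lit 3) (nat_lit 10) C.nil) C.nil)) C.nil)) C.nil)) C.nil)) (C.cons (nat_lit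 98) (C.node (nat_lit 1) (nat_lit 6) (nat_lit 9) C.nil) C.nil))) C.nil))) C.nil))) C.nil))) C.nil))) (C.cons (nat_lit 292) (C.node (nat_lit 2) (nat_lit 8) (nat_lit 9) (C.cons (nat_lit 772) (C.node (nat_lit 2) (nat_lit 7) (nat_lit 9) (C.cons (nat_lit 660) (C.node (nat_lit 2) (nat_lit 7) (nat_lit 10) (C.cons (nat_lit 1156) (C.node (nat_lit 4) (nat_lit 6) (nat_lit 7) (C.cons (nat_lit 208) (C.node (nat_lit 4) (nat_lit 6) (nat_lit 9) (C.cons (nat_lit 592)
  (C.node (nat_lit 2) (nat_lit 4) (nat_lit 10) (C.cons (nat_lit 1052) (C.node (nat_lit 3) (nat_lit 8) (nat_lit 10) (C.cons (nat_lit 1288) (C.node (nat_lit 4) (nat_lit 9) (nat_lit 10) (C.cons (nat_lit 1552) (C.node (nat_lit 1) (nat_lit 2) (nat_lit 3) (C.cons (nat_lit 14) (C.node (nat_lit 2) (nat_lit 3) (nat_lit 5) (C.cons (nat_lit 44) (C.node (nat_lit 1) (nat_lit 2) (nat_lit 4) C.nil) C.nil)) C.nil)) C.nil)) C.nil)) (C.cons (nat_lit 1044) (C.node (nat_lit 2) (nat_lit 3) (nat_lit 10)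 (C.cons (nat_lit 1068) (C.miq (nat_lit 321350224) (nat_lit 169253212170206569285616753)) (C.cons (nat_lit 1036) (C.node (nat_lit 2) (nat_lit 5) (nat_lit 9) (C.cons (nat_lit 1572) (C.node (nat_lit 1) (nat_lit 2) (nat_lit 3) (C.cons (nat_lit 62) (C.miq (nat_lit 2453120320) (nat_lit 169285051383892610194670705)) C.nil)) C.nil)) C.nil))) C.nil))) C.nil)) C.nil)) C.nil)) (C.cons (nat_lit 644) (C.node (nat_lit 2) (nat_lit 4) (nat_lit 7) (C.cons (nat_lit 1172) (C.node (nat_lit 1) (nat_lit 4) (nat_lit 10) (C.cons (nat_lit 1298) (C.miq (nat_lit 830630464) (nat_lit 471491935091029892375315569)) (C.cons (nat_lit 1042) (C.node (nat_lit 1) (nat_lit 7) (nat_lit 10) (C.cons (nat_lit 1186) (C.miq (nat_lit 829581904) (nat_lit 471491935091029411331638385)) (C.cons (nat_lit 1154) (C.node (nat_lit 2) (nat_lit 3) (nat_lit 10) (C.cons (nat_lit 1068) (C.miq (nat_lit 321350224) (nat_lit 169253212170206569285616753)) (C.cons (nat_lit 1036) (C.node (nat_lit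 3) (nat_lit 7) (nat_lit 10) (C.cons (nat_lit 1192) (C.miq (nat_lit 925391424) (nat_lit 471486548668218475831166065)) (C.cons (nat_lit 1160) (C.node (nat_lit 5) (nat_lit 7) (nat_lit 10) (C.cons (nat_lit 1184) (C.node (nat_lit 3) (nat_lit 8) (nat_lit 10) (C.cons (nat_lit 1304) (C.miq (nat_lit 980780064) (nat_lit 1431373649473759237932122389)) (C.cons (nat_lit 1288) (C.node (nat_lit 4) (nat_lit 8) (nat_lit 10) (C.cons (nat_lit 1296) (C.node (nat_lit 2) (nat_lit 5) (nat_lit 10) C.nil) C.nil)) C.nil))) C.nil)) C.nil))) C.nil))) C.nil))) C.nil))) (C.cons (nat_lit 148) (C.node (nat_lit 2) (nat_lit 7) (nat_lit 10) (C.cons (nat_lit 1156) (C.node (nat_lit 3) (nat_lit 6) (nat_lit 7) (C.cons (nat_lit 456) (C.node (nat_lit 3) (nat_lit 7) (nat_lit 10) (C.cons (nat_lit 1192) (C.node (nat_lit 3) (nat_lit 8) (nat_lit 10) (C.cons (nat_lit 1304) (C.miq (nat_lit 1937922624) (nat_lit 323995163705016553791882353)) (C.cons (nat_lit 1288) (C.node (nat_lit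 4) (nat_lit 7) (nat_lit 8) (C.cons (nat_lit 432) (C.miq (nat_lit 441917512) (nat_lit 1441046771501032307369705749)) (C.cons (nat_lit 400) (C.node (nat_lit 5) (nat_lit 7) (nat_lit 8) (C.cons (nat_lit 416) (C.node (nat_lit 4) (nat_lit 8) (nat_lit 10) (C.cons (nat_lit 1298) (C.miq (nat_lit 830630464) (nat_lit 471491935091029892375315569)) (C.cons (nat_lit 1296) (C.node (nat_lit 4) (nat_lit 6) (nat_lit 7) (C.cons (nat_lit 720) (C.node (nat_lit 5) (nat_lit 6) (nat_lit 7) C.nil) C.nil)) C.nil))) C.nil)) C.nil))) C.nil))) (C.cons (nat_lit 1160) (C.node (nat_lit 5) (nat_lit 7) (nat_lit 10) (C.cons (nat_lit 1186) (C.miq (nat_lit 829581904) (nat_lit 471491935091029411331638385)) (C.cons (nat_lit 1184) (C.node (nat_lit 4) (nat_lit 7) (nat_lit 8) (C.cons (nat_lit 432) (C.miq (nat_lit 441917512) (nat_lit 1431375364944115273972056341)) (C.cons (nat_lit 400) (C.node (nat_lit 5) (nat_lit 7) (nat_lit 8) (C.cons (nat_lit 416) (C.node (nat_lit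 6) (nat_lit 8) (nat_lit 9) (C.cons (nat_lit 866) (C.miq (nat_lit 372545648) (nat_lit 106395267590949795492595585)) (C.cons (nat_lit 864) (C.node (nat_lit 1) (nat_lit 6) (nat_lit 8) C.nil) (C.cons (nat_lit 834) (C.miq (nat_lit 372545648) (nat_lit 106395267581942596237854593)) C.nil)))) C.nil)) C.nil))) C.nil))) C.nil))) (C.cons (nat_lit 200) (C.node (nat_lit 3) (nat_lit 6) (nat_lit 8) (C.cons (nat_lit 328) (C.node (nat_lit 3) (nat_lit 7) (nat_lit 8) (C.cons (nat_lit 392) (C.node (nat_lit 4) (nat_lit 6) (nat_lit 7) (C.cons (nat_lit 208)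
  (C.node (nat_lit 4) (nat_lit 6) (nat_lit 9) C.nil) C.nil)) C.nil)) C.nil)) C.nil))) C.nil)) C.nil))) C.nil))) C.nil)) C.nil))) C.nil))) C.nil))) C.nil)))) C.nil))) (C.cons (nat_lit 388) (C.node (nat_lit 3) (nat_lit 5) (nat_lit 6) (C.cons (nat_lit 232) (C.node (nat_lit 3) (nat_lit 6) (nat_lit 8) (C.cons (nat_lit 328) (C.node (nat_lit 3) (nat_lit 7) (nat_lit 8) (C.cons (nat_lit 394) (C.miq (nat_lit 557255269) (nat_lit 476319816931141473788232817)) (C.cons (nat_lit 392) (C.node (nat_lit 3) (nat_lit 7) (nat_lit 9) (C.cons (nat_lit 650) (C.miq (nat_lit 557255269) (nat_lit 785804826752486542513013873)) (C.cons (nat_lit 648) (C.node (nat_lit 1) (nat_lit 3) (nat_lit 7) (C.cons (nat_lit 142) (C.node (nat_lit 3) (nat_lit 7) (nat_lit 10) (C.cons (nat_lit 1160) (C.node (nat_lit 1) (nat_lit 7) (nat_lit 9) (C.cons (nat_lit 674) (C.miq (nat_lit 2708824864) (nat_lit 814836976677332005836620365)) (C.cons (nat_lit 642) (C.node (nat_lit 5) (nat_lit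 7) (nat_lit 10) (C.cons (nat_lit 1186) (C.node (nat_lit 5) (nat_lit 8) (nat_lit 10) (C.cons (nat_lit 1312) (C.node (nat_lit 1) (nat_lit 2) (nat_lit 4) (C.cons (nat_lit 54) (C.miq (nat_lit 2266106452) (nat_lit 171672576674104284449997937)) (C.cons (nat_lit 22) (C.node (nat_lit 1) (nat_lit 4) (nat_lit 10) (C.cons (nat_lit 1298) (C.miq (nat_lit 1380020362) (nat_lit 26618245916437822320019329)) (C.cons (nat_lit 1042) (C.node (nat_lit 1) (nat_lit 8) (nat_lit 10) (C.cons (nat_lit 1282) (C.node (nat_lit 5) (nat_lit 7) (nat_lit 8) (C.cons (nat_lit 432) (C.miq (nat_lit 1411479562) (nat_lit 26618245991591641084266369)) (C.cons (nat_lit 416) (C.node (nat_lit 2) (nat_lit 3) (nat_lit 5) (C.cons (nat_lit 1068) (C.node (nat_lit 2) (nat_lit 3) (nat_lit 4) (C.cons (nat_lit 28) (C.node (nat_lit 5) (nat_lit 9) (nat_lit 10) (C.cons (nat_lit 1568) (C.node (nat_lit 2) (nat_lit 7) (nat_lit 10) (C.cons (nat_lit 1172) (C.node (nat_lit 2) (nat_lit 7)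 (nat_lit 9) C.nil) C.nil)) C.nil)) C.nil)) (C.cons (nat_lit 60) (C.miq (nat_lit 2723352694) (nat_lit 72555803992072093243539651)) (C.cons (nat_lit 44) (C.miq (nat_lit 2723352694) (nat_lit 53212990878238026448240835)) C.nil)))) C.nil))) C.nil)) C.nil))) C.nil))) C.nil)) (C.cons (nat_lit 1184) (C.miq (nat_lit 391787014) (nat_lit 1431388424988684031376818765)) C.nil))) C.nil))) C.nil)) (C.cons (nat_lit 138) (C.miq (nat_lit 557255269) (nat_lit 166834807109796405063451761)) C.nil))) C.nil))) C.nil))) C.nil)) (C.cons (nat_lit 104) (C.node (nat_lit 3) (nat_lit 6) (nat_lit 7) (C.cons (nat_lit 456) (C.node (nat_lit 4) (nat_lit 6) (nat_lit 8) (C.cons (nat_lit 848) (C.miq (nat_lit 641837200) (nat_lit 99150936180971497646655361)) (C.cons (nat_lit 336) (C.node (nat_lit 3) (nat_lit 8) (nat_lit 10) (C.cons (nat_lit 1304) (C.node (nat_lit 1) (nat_lit 3) (nat_lit 8) (C.cons (nat_lit 778) (C.node (nat_lit 1) (nat_lit 8) (nat_lit 10) (C.cons (nat_lit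 1314) (C.miq (nat_lit 1362536592) (nat_lit 1327421524254736102508529537)) (C.cons (nat_lit 1282) (C.node (nat_lit 5) (nat_lit 8) (nat_lit 10) (C.cons (nat_lit 1312) (C.node (nat_lit 1) (nat_lit 4) (nat_lit 8) (C.cons (nat_lit 434) (C.miq (nat_lit 1669662996) (nat_lit 359071942539348775443497491)) (C.cons (nat_lit 402) (C.miq (nat_lit 2474903153) (nat_lit 1576449064164370303402770627)) (C.cons (nat_lit 306) (C.miq (nat_lit 1669662996) (nat_lit 359071942539348775435108883)) (C.cons (nat_lit 274) (C.node (nat_lit 1) (nat_lit 2) (nat_lit 8) (C.cons (nat_lit 294) (C.node (nat_lit 1) (nat_lit 6) (nat_lit 8) (C.cons (nat_lit 322) (C.node (nat_lit 1) (nat_lit 7) (nat_lit 8) (C.cons (nat_lit 386) (C.node (nat_lit 2) (nat_lit 8) (nat_lit 9) C.nil) C.nil)) C.nil)) (C.cons (nat_lit 262) (C.node (nat_lit 1) (nat_lit 4) (nat_lit 10) (C.cons (nat_lit 1170) (C.node (nat_lit 1) (nat_lit 5) (nat_lit 10) (C.cons (nat_lit 1058) (C.node (nat_lit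 2) (nat_lit 4) (nat_lit 10) (C.cons (nat_lit 1556) (C.miq (nat_lit 605461104) (nat_lit 99142782778639096138106753)) (C.cons (nat_lit 1044) (C.node (nat_lit 4) (nat_lit 9) (nat_lit 10) (C.cons (nat_lit 1552)
  (C.node (nat_lit 1) (nat_lit 6) (nat_lit 8) (C.cons (nat_lit 322) (C.node (nat_lit 1) (nat_lit 5) (nat_lit 6) C.nil) C.nil)) C.nil)) C.nil))) C.nil)) (C.cons (nat_lit 1042) (C.node (nat_lit 4) (nat_lit 7) (nat_lit 10) (C.cons (nat_lit 1172) (C.miq (nat_lit 713389104) (nat_lit 1586113719377059912652226713)) (C.cons (nat_lit 1168) (C.node (nat_lit 1) (nat_lit 5) (nat_lit 10) (C.cons (nat_lit 1186) (C.node (nat_lit 1) (nat_lit 3) (nat_lit 7) (C.cons (nat_lit 142) (C.miq (nat_lit 1446447634) (nat_lit 551273217777084830145446919)) (C.cons (nat_lit 138) (C.miq (nat_lit 588711589) (nat_lit 166834806985384465419863153)) C.nil))) (C.cons (nat_lit 1058) (C.node (nat_lit 1) (nat_lit 7) (nat_lit 10) (C.cons (nat_lit 1154) (C.node (nat_lit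 1) (nat_lit 6) (nat_lit 8) C.nil) C.nil)) C.nil))) C.nil))) C.nil))) C.nil))) C.nil))))) C.nil)) C.nil))) (C.cons (nat_lit 266) (C.node (nat_lit 3) (nat_lit 8) (nat_lit 9) (C.cons (nat_lit 776) (C.node (nat_lit 1) (nat_lit 4) (nat_lit 10) (C.cons (nat_lit 1170) (C.node (nat_lit 1) (nat_lit 5) (nat_lit 10) (C.cons (nat_lit 1314) (C.miq (nat_lit 1937850458) (nat_lit 321595850751124547775366257)) (C.cons (nat_lit 1058) (C.node (nat_lit 1) (nat_lit 8) (nat_lit 10) (C.cons (nat_lit 1282) (C.node (nat_lit 5) (nat_lit 8) (nat_lit 10) (C.cons (nat_lit 1312) (C.node (nat_lit 2) (nat_lit 4) (nat_lit 10) (C.cons (nat_lit 1556) (C.miq (nat_lit 605461104) (nat_lit 99142782778639096138106753)) (C.cons (nat_lit 1044) (C.node (nat_lit 4) (nat_lit 9) (nat_lit 10) (C.cons (nat_lit 1552) (C.node (nat_lit 2) (nat_lit 7) (nat_lit 10) (C.cons (nat_lit 1164) (C.miq (nat_lit 2473853601) (nat_lit 184975445787935164203140103)) (C.cons (nat_lit 1156) (C.node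 (nat_lit 2) (nat_lit 3) (nat_lit 7) (C.cons (nat_lit 142) (C.miq (nat_lit 1511458354) (nat_lit 1414446252981930060885656141)) (C.cons (nat_lit 140) (C.node (nat_lit 2) (nat_lit 3) (nat_lit 10) C.nil) C.nil))) C.nil))) C.nil)) C.nil))) C.nil)) C.nil)) C.nil))) (C.cons (nat_lit 1042) (C.node (nat_lit 4) (nat_lit 7) (nat_lit 10) (C.cons (nat_lit 1172) (C.miq (nat_lit 1386743619) (nat_lit 1629637483569958424185143449)) (C.cons (nat_lit 1168) (C.node (nat_lit 1) (nat_lit 7) (nat_lit 10) (C.cons (nat_lit 1186) (C.node (nat_lit 1) (nat_lit 3) (nat_lit 7) (C.cons (nat_lit 650) (C.miq (nat_lit 1362536336) (nat_lit 1327421524218706755733751681)) (C.cons (nat_lit 142) (C.miq (nat_lit 1446447634) (nat_lit 551273217777084830145446919)) (C.cons (nat_lit 138) (C.miq (nat_lit 588711589) (nat_lit 166834806985384465419863153)) C.nil)))) (C.cons (nat_lit 1154) (C.node (nat_lit 5) (nat_lit 7) (nat_lit 10) (C.cons (nat_lit 1192) (C.miq (nat_lit 1937922624)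 (nat_lit 323995163705016553791882353)) (C.cons (nat_lit 1184) (C.node (nat_lit 1) (nat_lit 5) (nat_lit 10) (C.cons (nat_lit 1314) (C.node (nat_lit 1) (nat_lit 2) (nat_lit 8) (C.cons (nat_lit 774) (C.miq (nat_lit 1176570505) (nat_lit 84634602914170020187998081)) (C.cons (nat_lit 262) (C.node (nat_lit 1) (nat_lit 4) (nat_lit 8) (C.cons (nat_lit 402) (C.miq (nat_lit 2474903153) (nat_lit 1576449064164370303402770627)) (C.cons (nat_lit 274) (C.node (nat_lit 1) (nat_lit 7) (nat_lit 8) (C.cons (nat_lit 386) (C.node (nat_lit 1) (nat_lit 5) (nat_lit 6) C.nil) C.nil)) C.nil))) C.nil))) (C.cons (nat_lit 1058) (C.node (nat_lit 1) (nat_lit 8) (nat_lit 10) (C.cons (nat_lit 1282) (C.node (nat_lit 5) (nat_lit 8) (nat_lit 10) (C.cons (nat_lit 1312) (C.node (nat_lit 2) (nat_lit 4) (nat_lit 10) (C.cons (nat_lit 1556) (C.node (nat_lit 4) (nat_lit 6) (nat_lit 7) C.nil) (C.cons (nat_lit 1044) (C.node (nat_lit 4) (nat_lit 9) (nat_lit 10) C.nil) C.nil)))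 C.nil)) C.nil)) C.nil))) C.nil))) C.nil))) C.nil))) C.nil))) C.nil)) C.nil))) (C.cons (nat_lit 1288) (C.node (nat_lit 4) (nat_lit 8) (nat_lit 10) (C.cons (nat_lit 1298) (C.miq (nat_lit 404988934) (nat_lit 324012374547069261423903857)) (C.cons (nat_lit 1296) (C.node (nat_lit 1) (nat_lit 4) (nat_lit 10) (C.cons (nat_lit 1170) (C.node (nat_lit 1) (nat_lit 5) (nat_lit 10) (C.cons (nat_lit 1314)
  (C.miq (nat_lit 389587973) (nat_lit 551294413095310137917768817)) (C.cons (nat_lit 1058) (C.node (nat_lit 1) (nat_lit 8) (nat_lit 10) (C.cons (nat_lit 1282) (C.node (nat_lit 5) (nat_lit 8) (nat_lit 10) (C.cons (nat_lit 1312) (C.node (nat_lit 2) (nat_lit 7) (nat_lit 10) (C.cons (nat_lit 1164) (C.miq (nat_lit 2473853601) (nat_lit 184975445787935164203140103)) (C.cons (nat_lit 1156) (C.node (nat_lit 2) (nat_lit 3) (nat_lit 7) (C.cons (nat_lit 142) (C.miq (nat_lit 1511458354) (nat_lit 1414446252981930060885656141)) (C.cons (nat_lit 140) (C.node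 (nat_lit 1) (nat_lit 2) (nat_lit 7) (C.cons (nat_lit 646) (C.miq (nat_lit 1093052304) (nat_lit 84645781650364347328563073)) (C.cons (nat_lit 134) (C.node (nat_lit 4) (nat_lit 6) (nat_lit 7) (C.cons (nat_lit 720) (C.miq (nat_lit 342009744) (nat_lit 101568787770097660389558145)) (C.cons (nat_lit 208) (C.node (nat_lit 1) (nat_lit 2) (nat_lit 8) (C.cons (nat_lit 806) (C.miq (nat_lit 1176570505) (nat_lit 84634602914170020190095233)) C.nil)) C.nil))) C.nil))) C.nil))) C.nil))) C.nil)) C.nil)) C.nil))) (C.cons (nat_lit 1042) (C.node (nat_lit 1) (nat_lit 7) (nat_lit 10) (C.cons (nat_lit 1186) (C.node (nat_lit 1) (nat_lit 3) (nat_lit 7) (C.cons (nat_lit 650) (C.miq (nat_lit 1362536336) (nat_lit 1327421524218706755733751681)) (C.cons (nat_lit 142) (C.miq (nat_lit 1446447634) (nat_lit 551273217777084830145446919)) (C.cons (nat_lit 138) (C.miq (nat_lit 588711589) (nat_lit 166834806985384465419863153)) C.nil)))) (C.cons (nat_lit 1154) (C.node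 (nat_lit 1) (nat_lit 5) (nat_lit 10) (C.cons (nat_lit 1314) (C.node (nat_lit 1) (nat_lit 2) (nat_lit 8) (C.cons (nat_lit 774) (C.miq (nat_lit 1176570505) (nat_lit 84634602914170020187998081)) (C.cons (nat_lit 262) (C.node (nat_lit 1) (nat_lit 6) (nat_lit 8) (C.cons (nat_lit 834) (C.miq (nat_lit 372545648) (nat_lit 106395267581942596237854593)) (C.cons (nat_lit 322) (C.node (nat_lit 1) (nat_lit 5) (nat_lit 6) (C.cons (nat_lit 610) (C.node (nat_lit 5) (nat_lit 6) (nat_lit 7) C.nil) C.nil)) C.nil))) C.nil))) (C.cons (nat_lit 1058) (C.node (nat_lit 1) (nat_lit 8) (nat_lit 10) (C.cons (nat_lit 1282) (C.node (nat_lit 5) (nat_lit 8) (nat_lit 10) (C.cons (nat_lit 1312) (C.node (nat_lit 4) (nat_lit 6) (nat_lit 7) (C.cons (nat_lit 720) (C.node (nat_lit 5) (nat_lit 6) (nat_lit 7) (C.cons (nat_lit 224) (C.node (nat_lit 6) (nat_lit 8) (nat_lit 9) (C.cons (nat_lit 866) (C.miq (nat_lit 372545648) (nat_lit 106395267590949795492595585)) (C.cons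 (nat_lit 864) (C.miq (nat_lit 1447266672) (nat_lit 106390951052274731375462273)) (C.cons (nat_lit 834) (C.miq (nat_lit 372545648) (nat_lit 106395267581942596237854593)) C.nil)))) C.nil)) (C.cons (nat_lit 208) (C.node (nat_lit 4) (nat_lit 6) (nat_lit 9) (C.cons (nat_lit 592) (C.node (nat_lit 1) (nat_lit 3) (nat_lit 8) C.nil) C.nil)) C.nil))) C.nil)) C.nil)) C.nil))) C.nil))) C.nil))) C.nil))) C.nil))) C.nil))) (C.cons (nat_lit 200) (C.node (nat_lit 3) (nat_lit 6) (nat_lit 8) (C.cons (nat_lit 328) (C.node (nat_lit 3) (nat_lit 7) (nat_lit 8) (C.cons (nat_lit 394) (C.node (nat_lit 3) (nat_lit 8) (nat_lit 10) (C.cons (nat_lit 1304) (C.miq (nat_lit 1125558384) (nat_lit 1327421524251919703448160129)) (C.cons (nat_lit 1288) (C.node (nat_lit 4) (nat_lit 8) (nat_lit 10) (C.cons (nat_lit 1298) (C.miq (nat_lit 588777124) (nat_lit 476321882842065789621765233)) (C.cons (nat_lit 1296) (C.node (nat_lit 1) (nat_lit 3) (nat_lit 9) (C.cons (nat_lit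 554) (C.node (nat_lit 3) (nat_lit 7) (nat_lit 9) (C.cons (nat_lit 648) (C.node (nat_lit 1) (nat_lit 4) (nat_lit 8) (C.cons (nat_lit 306) (C.miq (nat_lit 592972052) (nat_lit 359056078339444423148044819)) (C.cons (nat_lit 274) (C.node (nat_lit 1) (nat_lit 4) (nat_lit 10) (C.cons (nat_lit 1170) (C.miq (nat_lit 1094035328) (nat_lit 669765878343843785535457153)) (C.cons (nat_lit 1042) (C.node (nat_lit 1) (nat_lit 5) (nat_lit 6) (C.cons (nat_lit 354) (C.miq (nat_lit 1132791574) (nat_lit 359071942416624036324966595)) (C.cons (nat_lit 98) (C.node (nat_lit 1) (nat_lit 6) (nat_lit 8) (C.cons (nat_lit 322)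
  (C.node (nat_lit 1) (nat_lit 6) (nat_lit 9) C.nil) C.nil)) C.nil))) C.nil))) C.nil))) C.nil)) (C.cons (nat_lit 522) (C.node (nat_lit 1) (nat_lit 4) (nat_lit 8) (C.cons (nat_lit 306) (C.node (nat_lit 1) (nat_lit 8) (nat_lit 10) (C.cons (nat_lit 1282) (C.node (nat_lit 5) (nat_lit 8) (nat_lit 10) (C.cons (nat_lit 1312) (C.node (nat_lit 1) (nat_lit 2) (nat_lit 8) (C.cons (nat_lit 774) (C.miq (nat_lit 1176570505) (nat_lit 84634602914170020187998081)) (C.cons (nat_lit 262) (C.node (nat_lit 1) (nat_lit 4) (nat_lit 10) (C.cons (nat_lit 1170) (C.miq (nat_lit 893485223) (nat_lit 369938568902844520560985985)) (C.cons (nat_lit 1042) (C.node (nat_lit 1) (nat_lit 5) (nat_lit 6) (C.cons (nat_lit 610) (C.miq (nat_lit 2441241920) (nat_lit 316749430042993308770567281)) (C.cons (nat_lit 98) (C.node (nat_lit 1) (nat_lit 3) (nat_lit 4) C.nil) C.nil))) C.nil))) C.nil))) C.nil)) C.nil)) (C.cons (nat_lit 274) (C.node (nat_lit 1) (nat_lit 4) (nat_lit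 10) (C.cons (nat_lit 1170) (C.node (nat_lit 1) (nat_lit 2) (nat_lit 7) (C.cons (nat_lit 646) (C.miq (nat_lit 1093052304) (nat_lit 84645781650364347328563073)) (C.cons (nat_lit 134) (C.node (nat_lit 1) (nat_lit 5) (nat_lit 10) (C.cons (nat_lit 1314) (C.node (nat_lit 1) (nat_lit 2) (nat_lit 8) (C.cons (nat_lit 774) (C.miq (nat_lit 1176570505) (nat_lit 84634602914170020187998081)) (C.cons (nat_lit 262) (C.node (nat_lit 2) (nat_lit 3) (nat_lit 7) (C.cons (nat_lit 1164) (C.miq (nat_lit 2473853601) (nat_lit 184975445787935164203140103)) (C.cons (nat_lit 140) (C.node (nat_lit 2) (nat_lit 7) (nat_lit 10) C.nil) C.nil))) C.nil))) (C.cons (nat_lit 1058) (C.miq (nat_lit 2241933383) (nat_lit 1279050785253045659940028569)) C.nil))) C.nil))) (C.cons (nat_lit 1042) (C.node (nat_lit 1) (nat_lit 7) (nat_lit 10) (C.cons (nat_lit 1186) (C.miq (nat_lit 588711589) (nat_lit 476319816806729534144644209)) (C.cons (nat_lit 1154) (C.node (nat_lit 1) (nat_lit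 5) (nat_lit 10) (C.cons (nat_lit 1314) (C.miq (nat_lit 1243022723) (nat_lit 1395103218507168037305188649)) (C.cons (nat_lit 1058) (C.node (nat_lit 1) (nat_lit 8) (nat_lit 10) (C.cons (nat_lit 1282) (C.node (nat_lit 3) (nat_lit 4) (nat_lit 8) C.nil) C.nil)) C.nil))) C.nil))) C.nil))) C.nil))) C.nil))) C.nil))) C.nil))) (C.cons (nat_lit 392) (C.node (nat_lit 3) (nat_lit 8) (nat_lit 10) (C.cons (nat_lit 1304) (C.node (nat_lit 1) (nat_lit 3) (nat_lit 8) (C.cons (nat_lit 778) (C.node (nat_lit 1) (nat_lit 8) (nat_lit 10) (C.cons (nat_lit 1314) (C.miq (nat_lit 1362536592) (nat_lit 1327421524254736102508529537)) (C.cons (nat_lit 1282) (C.node (nat_lit 5) (nat_lit 8) (nat_lit 10) (C.cons (nat_lit 1312) (C.node (nat_lit 1) (nat_lit 2) (nat_lit 8) (C.cons (nat_lit 294) (C.node (nat_lit 1) (nat_lit 6) (nat_lit 8) (C.cons (nat_lit 322) (C.node (nat_lit 2) (nat_lit 8) (nat_lit 9) (C.cons (nat_lit 772) (C.node (nat_lit 4) (nat_lit 6) (nat_lit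 8) (C.cons (nat_lit 336) (C.node (nat_lit 6) (nat_lit 7) (nat_lit 8) C.nil) C.nil)) C.nil)) C.nil)) (C.cons (nat_lit 262) (C.node (nat_lit 1) (nat_lit 4) (nat_lit 10) (C.cons (nat_lit 1170) (C.node (nat_lit 1) (nat_lit 5) (nat_lit 10) (C.cons (nat_lit 1058) (C.node (nat_lit 1) (nat_lit 4) (nat_lit 8) (C.cons (nat_lit 306) (C.miq (nat_lit 1669662996) (nat_lit 359071942539348775435108883)) (C.cons (nat_lit 274) (C.node (nat_lit 2) (nat_lit 4) (nat_lit 10) (C.cons (nat_lit 1556) (C.miq (nat_lit 605461104) (nat_lit 99142782778639096138106753)) (C.cons (nat_lit 1044) (C.node (nat_lit 4) (nat_lit 9) (nat_lit 10) (C.cons (nat_lit 1552) (C.node (nat_lit 2) (nat_lit 3) (nat_lit 10) (C.cons (nat_lit 1164) (C.miq (nat_lit 2473853601) (nat_lit 184975445787935164203140103)) (C.cons (nat_lit 1068) (C.miq (nat_lit 1906640434) (nat_lit 1279046560919942165317812813)) C.nil))) C.nil)) C.nil))) C.nil))) C.nil)) (C.cons (nat_lit 1042) (C.node (nat_lit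 4) (nat_lit 7) (nat_lit 10) (C.cons (nat_lit 1172) (C.miq (nat_lit 713389104) (nat_lit 1586113719377059912652226713)) (C.cons (nat_lit 1168) (C.node (nat_lit 1) (nat_lit 5) (nat_lit 10) (C.cons (nat_lit 1186)
  (C.node (nat_lit 1) (nat_lit 3) (nat_lit 7) (C.cons (nat_lit 142) (C.miq (nat_lit 1446447634) (nat_lit 241788207955739761420665863)) (C.cons (nat_lit 138) (C.miq (nat_lit 588711589) (nat_lit 166834806985384465419863153)) C.nil))) (C.cons (nat_lit 1058) (C.node (nat_lit 1) (nat_lit 7) (nat_lit 10) (C.cons (nat_lit 1154) (C.node (nat_lit 1) (nat_lit 6) (nat_lit 8) (C.cons (nat_lit 354) (C.node (nat_lit 1) (nat_lit 6) (nat_lit 9) C.nil) C.nil)) C.nil)) C.nil))) C.nil))) C.nil))) C.nil))) C.nil)) C.nil))) (C.cons (nat_lit 266) (C.node (nat_lit 3) (nat_lit 8) (nat_lit 9) (C.cons (nat_lit 776) (C.node (nat_lit 1) (nat_lit 4) (nat_lit 10) (C.cons (nat_lit 1170) (C.node (nat_lit 1) (nat_lit 5) (nat_lit 10) (C.cons (nat_lit 1314)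 (C.miq (nat_lit 1937850458) (nat_lit 321595850751124547775366257)) (C.cons (nat_lit 1058) (C.node (nat_lit 1) (nat_lit 8) (nat_lit 10) (C.cons (nat_lit 1282) (C.node (nat_lit 5) (nat_lit 8) (nat_lit 10) (C.cons (nat_lit 1312) (C.node (nat_lit 2) (nat_lit 4) (nat_lit 10) (C.cons (nat_lit 1556) (C.miq (nat_lit 605461104) (nat_lit 99142782778639096138106753)) (C.cons (nat_lit 1044) (C.node (nat_lit 4) (nat_lit 9) (nat_lit 10) (C.cons (nat_lit 1552) (C.node (nat_lit 4) (nat_lit 6) (nat_lit 9) (C.cons (nat_lit 848) (C.miq (nat_lit 641837200) (nat_lit 99150936180971497646655361)) (C.cons (nat_lit 720) (C.miq (nat_lit 342009744) (nat_lit 101568787770097660389558145)) C.nil))) C.nil)) C.nil))) C.nil)) C.nil)) C.nil))) (C.cons (nat_lit 1042) (C.node (nat_lit 4) (nat_lit 7) (nat_lit 10) (C.cons (nat_lit 1172) (C.miq (nat_lit 1386743619) (nat_lit 1629637483569958424185143449)) (C.cons (nat_lit 1168) (C.node (nat_lit 1) (nat_lit 7) (nat_lit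 10) (C.cons (nat_lit 1186) (C.node (nat_lit 1) (nat_lit 3) (nat_lit 7) (C.cons (nat_lit 650) (C.miq (nat_lit 1362536336) (nat_lit 1327421524218706755733751681)) (C.cons (nat_lit 142) (C.miq (nat_lit 1446447634) (nat_lit 241788207955739761420665863)) (C.cons (nat_lit 138) (C.miq (nat_lit 588711589) (nat_lit 166834806985384465419863153)) C.nil)))) (C.cons (nat_lit 1154) (C.node (nat_lit 5) (nat_lit 7) (nat_lit 10) (C.cons (nat_lit 1192) (C.miq (nat_lit 1937922624) (nat_lit 323995163705016553791882353)) (C.cons (nat_lit 1184) (C.node (nat_lit 1) (nat_lit 5) (nat_lit 10) (C.cons (nat_lit 1314) (C.node (nat_lit 1) (nat_lit 2) (nat_lit 8) (C.cons (nat_lit 774) (C.miq (nat_lit 1176570505) (nat_lit 84634602914170020187998081)) (C.cons (nat_lit 262) (C.node (nat_lit 1) (nat_lit 6) (nat_lit 8) (C.cons (nat_lit 834) (C.node (nat_lit 1) (nat_lit 5) (nat_lit 6) C.nil) C.nil)) C.nil))) (C.cons (nat_lit 1058) (C.node (nat_lit 1) (nat_lit 8)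 (nat_lit 10) (C.cons (nat_lit 1282) (C.node (nat_lit 4) (nat_lit 6) (nat_lit 8) C.nil) C.nil)) C.nil))) C.nil))) C.nil))) C.nil))) C.nil))) C.nil)) C.nil))) (C.cons (nat_lit 1288) (C.node (nat_lit 4) (nat_lit 8) (nat_lit 10) (C.cons (nat_lit 1298) (C.miq (nat_lit 404988934) (nat_lit 324012374547069261423903857)) (C.cons (nat_lit 1296) (C.node (nat_lit 1) (nat_lit 4) (nat_lit 10) (C.cons (nat_lit 1170) (C.node (nat_lit 1) (nat_lit 5) (nat_lit 10) (C.cons (nat_lit 1314) (C.miq (nat_lit 389587973) (nat_lit 473923160639973870736573553)) (C.cons (nat_lit 1058) (C.node (nat_lit 1) (nat_lit 8) (nat_lit 10) (C.cons (nat_lit 1282) (C.node (nat_lit 5) (nat_lit 8) (nat_lit 10) (C.cons (nat_lit 1312) (C.node (nat_lit 2) (nat_lit 7) (nat_lit 10) (C.cons (nat_lit 1164) (C.miq (nat_lit 2473853601) (nat_lit 184975445787935164203140103)) (C.cons (nat_lit 1156) (C.node (nat_lit 2) (nat_lit 3) (nat_lit 7) (C.cons (nat_lit 142) (C.miq (nat_lit 1511458354)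 (nat_lit 1414446252981930060885656141)) (C.cons (nat_lit 140) (C.node (nat_lit 1) (nat_lit 2) (nat_lit 7) (C.cons (nat_lit 646) (C.miq (nat_lit 1093052304) (nat_lit 84645781650364347328563073)) (C.cons (nat_lit 134) (C.node (nat_lit 2) (nat_lit 3) (nat_lit 10) (C.cons (nat_lit 1068) (C.miq (nat_lit 321350224) (nat_lit 169253212170206569285616753)) (C.cons (nat_lit 1052)
  (C.miq (nat_lit 1665598113) (nat_lit 184969247681925916757459975)) (C.cons (nat_lit 1036) (C.node (nat_lit 1) (nat_lit 7) (nat_lit 8) C.nil) C.nil)))) C.nil))) C.nil))) C.nil))) C.nil)) C.nil)) C.nil))) (C.cons (nat_lit 1042) (C.node (nat_lit 1) (nat_lit 7) (nat_lit 10) (C.cons (nat_lit 1186) (C.node (nat_lit 1) (nat_lit 3) (nat_lit 7) (C.cons (nat_lit 650) (C.miq (nat_lit 1362536336) (nat_lit 1327421524218706755733751681)) (C.cons (nat_lit 142) (C.miq (nat_lit 1446447634) (nat_lit 241788207955739761420665863)) (C.cons (nat_lit 138) (C.miq (nat_lit 588711589)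 (nat_lit 166834806985384465419863153)) C.nil)))) (C.cons (nat_lit 1154) (C.node (nat_lit 1) (nat_lit 5) (nat_lit 10) (C.cons (nat_lit 1314) (C.node (nat_lit 1) (nat_lit 2) (nat_lit 8) (C.cons (nat_lit 774) (C.miq (nat_lit 1176570505) (nat_lit 84634602914170020187998081)) (C.cons (nat_lit 262) (C.node (nat_lit 1) (nat_lit 5) (nat_lit 6) (C.cons (nat_lit 610) (C.node (nat_lit 1) (nat_lit 6) (nat_lit 8) C.nil) (C.cons (nat_lit 98) (C.node (nat_lit 1) (nat_lit 6) (nat_lit 8) (C.cons (nat_lit 322) (C.node (nat_lit 1) (nat_lit 6) (nat_lit 9) C.nil) C.nil)) C.nil))) C.nil))) (C.cons (nat_lit 1058) (C.node (nat_lit 1) (nat_lit 8) (nat_lit 10) (C.cons (nat_lit 1282) (C.node (nat_lit 5) (nat_lit 8) (nat_lit 10) (C.cons (nat_lit 1312) (C.node (nat_lit 4) (nat_lit 7) (nat_lit 10) (C.cons (nat_lit 1172) (C.node (nat_lit 2) (nat_lit 3) (nat_lit 7) (C.cons (nat_lit 142) (C.miq (nat_lit 1511458354) (nat_lit 1395103439868095994090357325)) (C.cons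 (nat_lit 140) (C.node (nat_lit 2) (nat_lit 3) (nat_lit 10) (C.cons (nat_lit 1068) (C.miq (nat_lit 321350224) (nat_lit 169253212170206569285616753)) (C.cons (nat_lit 1036) (C.node (nat_lit 1) (nat_lit 3) (nat_lit 8) C.nil) C.nil))) C.nil))) (C.cons (nat_lit 1168) (C.node (nat_lit 2) (nat_lit 7) (nat_lit 10) (C.cons (nat_lit 1164) (C.node (nat_lit 5) (nat_lit 7) (nat_lit 10) (C.cons (nat_lit 1184) (C.node (nat_lit 3) (nat_lit 4) (nat_lit 10) C.nil) C.nil)) (C.cons (nat_lit 1156) (C.node (nat_lit 6) (nat_lit 7) (nat_lit 8) C.nil) C.nil))) C.nil))) C.nil)) C.nil)) C.nil))) C.nil))) C.nil))) C.nil))) C.nil))) C.nil))) C.nil)) C.nil))) C.nil))) C.nil))) C.nil))) List.nil)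

theorem ok11_155 : okL par11 (nat_lit 156) c11_155 (nat_lit 155) = true := by decide +kernel

noncomputable def c11_156 : List C :=
  (List.cons (C.node (nat_lit 2) (nat_lit 5) (nat_lit 8) (C.cons (nat_lit 294) (C.node (nat_lit 2) (nat_lit 3) (nat_lit 8) (C.cons (nat_lit 396) (C.miq (nat_lit 1176701575) (nat_lit 712060130424902699625219969)) (C.cons (nat_lit 268) (C.node (nat_lit 2) (nat_lit 7) (nat_lit 8) (C.cons (nat_lit 388) (C.node (nat_lit 1) (nat_lit 2) (nat_lit 9) (C.cons (nat_lit 646) (C.node (nat_lit 4) (nat_lit 7) (nat_lit 9) (C.cons (nat_lit 688) (C.miq (nat_lit 2775712913) (nat_lit 199491779149593811874087443)) (C.cons (nat_lit 656) (C.node (nat_lit 2) (nat_lit 4) (nat_lit 9) (C.cons (nat_lit 1556) (C.miq (nat_lit 1108781424) (nat_lit 84645781759013688313055105)) (C.cons (nat_lit 564) (C.miq (nat_lit 1383483664) (nat_lit 236970434751233787429061139)) (C.cons (nat_lit 532) (C.node (nat_lit 2) (nat_lit 5) (nat_lit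 9) (C.cons (nat_lit 1572) (C.miq (nat_lit 1377216880) (nat_lit 84645781763517287940425601)) (C.cons (nat_lit 548) (C.node (nat_lit 2) (nat_lit 9) (nat_lit 10) (C.cons (nat_lit 1540) (C.node (nat_lit 1) (nat_lit 5) (nat_lit 7) (C.cons (nat_lit 1194) (C.miq (nat_lit 1361487760) (nat_lit 84645781657119746769618817)) (C.cons (nat_lit 1186) (C.miq (nat_lit 1361487760) (nat_lit 84645781654867946955933569)) (C.cons (nat_lit 178) (C.miq (nat_lit 1651837204) (nat_lit 199493734350217157429821971)) (C.cons (nat_lit 170) (C.miq (nat_lit 1108805715) (nat_lit 780968901900863555701965097)) (C.cons (nat_lit 162) (C.node (nat_lit 1) (nat_lit 2) (nat_lit 3) (C.cons (nat_lit 30) (C.node (nat_lit 1) (nat_lit 4) (nat_lit 5) (C.cons (nat_lit 50) (C.node (nat_lit 2) (nat_lit 4) (nat_lit 5) (C.cons (nat_lit 52) (C.node (nat_lit 2) (nat_lit 3) (nat_lit 7) (C.cons (nat_lit 1164) (C.miq (nat_lit 2536770081) (nat_lit 184975446162859833107022855)) (C.cons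 (nat_lit 140) (C.node (nat_lit 2) (nat_lit 3) (nat_lit 5) (C.cons (nat_lit 1068) (C.node (nat_lit 5) (nat_lit 7) (nat_lit 10) (C.cons (nat_lit 1184) (C.node (nat_lit 1) (nat_lit 5) (nat_lit 10) C.nil) C.nil)) C.nil)) C.nil))) C.nil)) C.nil)) (C.cons (nat_lit 14) (C.node (nat_lit 1) (nat_lit 2) (nat_lit 4) (C.cons (nat_lit 22) (C.node (nat_lit 2) (nat_lit 3) (nat_lit 7) (C.cons (nat_lit 1164) (C.node (nat_lit 2) (nat_lit 4) (nat_lit 7) C.nil) C.nil)) C.nil)) C.nil))) C.nil)))))) C.nil)) C.nil))) C.nil)))) C.nil))) (C.cons (nat_lit 518) (C.node (nat_lit 2) (nat_lit 7) (nat_lit 9) (C.cons (nat_lit 660) (C.node (nat_lit 2) (nat_lit 4) (nat_lit 5) (C.cons (nat_lit 60) (C.miq (nat_lit 2455270448) (nat_lit 355459627347840315758805145)) (C.cons (nat_lit 52) (C.node (nat_lit 1) (nat_lit 2) (nat_lit 4) (C.cons (nat_lit 30) (C.node (nat_lit 1) (nat_lit 2) (nat_lit 7) (C.cons (nat_lit 134) (C.node (nat_lit 2) (nat_lit 4) (nat_lit 10) (C.cons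 (nat_lit 1044) (C.node (nat_lit 2) (nat_lit 3) (nat_lit 7) (C.cons (nat_lit 1164) (C.miq (nat_lit 2536770081) (nat_lit 184975446162859833107022855)) (C.cons (nat_lit 140) (C.node (nat_lit 2) (nat_lit 7) (nat_lit 10) C.nil) C.nil))) C.nil)) C.nil)) (C.cons (nat_lit 22) (C.node (nat_lit 1) (nat_lit 2) (nat_lit 3) (C.cons (nat_lit 142) (C.node (nat_lit 2) (nat_lit 7) (nat_lit 10) (C.cons (nat_lit 1156) (C.node (nat_lit 2) (nat_lit 3) (nat_lit 4) (C.cons (nat_lit 1052) (C.miq (nat_lit 1681328673) (nat_lit 184969247836174203927528455)) (C.cons (nat_lit 28) (C.node (nat_lit 2) (nat_lit 4) (nat_lit 10) C.nil) C.nil))) C.nil)) (C.cons (nat_lit 14) (C.node (nat_lit 1) (nat_lit 2) (nat_lit 7) (C.cons (nat_lit 134) (C.node (nat_lit 2) (nat_lit 3) (nat_lit 4) (C.cons (nat_lit 1052) (C.node (nat_lit 2) (nat_lit 3) (nat_lit 5) C.nil) C.nil)) C.nil)) C.nil))) C.nil))) C.nil))) (C.cons (nat_lit 644) (C.node (nat_lit 4) (nat_lit 7) (nat_lit 9)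 (C.cons (nat_lit 688) (C.node (nat_lit 4) (nat_lit 5) (nat_lit 8) (C.cons (nat_lit 304) (C.node (nat_lit 1) (nat_lit 4) (nat_lit 5) (C.cons (nat_lit 58) (C.node (nat_lit 2) (nat_lit 4) (nat_lit 5) (C.cons (nat_lit 52) (C.node (nat_lit 1) (nat_lit 2) (nat_lit 4) (C.cons (nat_lit 150) (C.miq (nat_lit 1934704770) (nat_lit 70120464592326495626985749))
  (C.cons (nat_lit 22) (C.node (nat_lit 1) (nat_lit 4) (nat_lit 10) (C.cons (nat_lit 1298) (C.miq (nat_lit 2457929380) (nat_lit 355433986353598668119082097)) (C.cons (nat_lit 1170) (C.miq (nat_lit 2706928688) (nat_lit 355459627491392545291305113)) (C.cons (nat_lit 1042) (C.node (nat_lit 1) (nat_lit 2) (nat_lit 3) (C.cons (nat_lit 142) (C.node (nat_lit 1) (nat_lit 7) (nat_lit 9) (C.cons (nat_lit 642) (C.node (nat_lit 3) (nat_lit 7) (nat_lit 9) (C.cons (nat_lit 648) (C.node (nat_lit 1) (nat_lit 5) (nat_lit 7) (C.cons (nat_lit 1186) (C.miq (nat_lit 916529239) (nat_lit 1317731762983397911924179109))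 (C.cons (nat_lit 162) (C.node (nat_lit 2) (nat_lit 3) (nat_lit 4) C.nil) C.nil))) C.nil)) C.nil)) (C.cons (nat_lit 14) (C.node (nat_lit 1) (nat_lit 2) (nat_lit 7) (C.cons (nat_lit 134) (C.node (nat_lit 1) (nat_lit 3) (nat_lit 6) (C.cons (nat_lit 330) (C.node (nat_lit 1) (nat_lit 4) (nat_lit 6) C.nil) C.nil)) C.nil)) C.nil))) C.nil)))) C.nil))) C.nil)) (C.cons (nat_lit 50) (C.node (nat_lit 1) (nat_lit 7) (nat_lit 9) (C.cons (nat_lit 650) (C.node (nat_lit 1) (nat_lit 2) (nat_lit 3) (C.cons (nat_lit 30) (C.miq (nat_lit 1932038464) (nat_lit 324027556035045078599008787)) (C.cons (nat_lit 14) (C.node (nat_lit 1) (nat_lit 2) (nat_lit 4) (C.cons (nat_lit 150) (C.miq (nat_lit 1366524480) (nat_lit 785807261515253142703898901)) (C.cons (nat_lit 22) (C.node (nat_lit 1) (nat_lit 2) (nat_lit 7) (C.cons (nat_lit 134) (C.node (nat_lit 1) (nat_lit 7) (nat_lit 8) (C.cons (nat_lit 402) (C.miq (nat_lit 826447744) (nat_lit 26607233346741718226372481))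 (C.cons (nat_lit 386) (C.node (nat_lit 1) (nat_lit 4) (nat_lit 7) (C.cons (nat_lit 1170) (C.miq (nat_lit 933663040) (nat_lit 1470064661966612251416789523)) C.nil)) C.nil))) C.nil)) C.nil))) C.nil))) (C.cons (nat_lit 642) (C.node (nat_lit 3) (nat_lit 7) (nat_lit 9) (C.cons (nat_lit 648) (C.node (nat_lit 2) (nat_lit 4) (nat_lit 5) (C.cons (nat_lit 60) (C.node (nat_lit 1) (nat_lit 2) (nat_lit 3) (C.cons (nat_lit 142) (C.miq (nat_lit 307655488) (nat_lit 120896179116526995298648217)) (C.cons (nat_lit 14) (C.node (nat_lit 1) (nat_lit 2) (nat_lit 4) (C.cons (nat_lit 150) (C.miq (nat_lit 2154910530) (nat_lit 235745958251209084898771004)) (C.cons (nat_lit 22) (C.node (nat_lit 1) (nat_lit 2) (nat_lit 7) (C.cons (nat_lit 134) (C.node (nat_lit 2) (nat_lit 3) (nat_lit 7) C.nil) C.nil)) C.nil))) C.nil))) (C.cons (nat_lit 52) (C.node (nat_lit 3) (nat_lit 4) (nat_lit 5) (C.cons (nat_lit 56) (C.node (nat_lit 2) (nat_lit 3) (nat_lit 5) (C.cons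 (nat_lit 1068) (C.node (nat_lit 2) (nat_lit 5) (nat_lit 9) (C.cons (nat_lit 548) (C.node (nat_lit 2) (nat_lit 4) (nat_lit 9) (C.cons (nat_lit 532) (C.node (nat_lit 2) (nat_lit 9) (nat_lit 10) C.nil) C.nil)) C.nil)) (C.cons (nat_lit 44) (C.node (nat_lit 2) (nat_lit 4) (nat_lit 9) (C.cons (nat_lit 1556) (C.node (nat_lit 2) (nat_lit 5) (nat_lit 9) C.nil) (C.cons (nat_lit 532) (C.node (nat_lit 2) (nat_lit 5) (nat_lit 9) C.nil) C.nil))) C.nil))) C.nil)) C.nil))) C.nil)) C.nil))) C.nil))) C.nil)) (C.cons (nat_lit 656) (C.node (nat_lit 4) (nat_lit 8) (nat_lit 10) (C.cons (nat_lit 1306) (C.miq (nat_lit 2457929380) (nat_lit 355433986353598668119606385)) (C.cons (nat_lit 1304) (C.node (nat_lit 1) (nat_lit 8) (nat_lit 10) (C.cons (nat_lit 1282) (C.node (nat_lit 2) (nat_lit 4) (nat_lit 7) (C.cons (nat_lit 1172) (C.miq (nat_lit 713389104) (nat_lit 1586113719377059912652226713)) (C.cons (nat_lit 150) (C.miq (nat_lit 406070535) (nat_lit 1576442035871842419017842853))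 (C.cons (nat_lit 148) (C.node (nat_lit 1) (nat_lit 2) (nat_lit 4) (C.cons (nat_lit 30) (C.node (nat_lit 1) (nat_lit 2) (nat_lit 7) (C.cons (nat_lit 134) (C.node (nat_lit 3) (nat_lit 4) (nat_lit 6) (C.cons (nat_lit 88) (C.node (nat_lit 1) (nat_lit 4) (nat_lit 10) (C.cons (nat_lit 1170) (C.miq (nat_lit 2537753106) (nat_lit 184976516074016134030820359)) (C.cons (nat_lit 1042) (C.node (nat_lit 4) (nat_lit 7) (nat_lit 10) (C.cons (nat_lit 1168) (C.node (nat_lit 2) (nat_lit 3) (nat_lit 7) C.nil) C.nil)) C.nil))) C.nil)) C.nil))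
  (C.cons (nat_lit 22) (C.node (nat_lit 2) (nat_lit 3) (nat_lit 4) (C.cons (nat_lit 60) (C.miq (nat_lit 2016545349) (nat_lit 323995163910211811799729265)) (C.cons (nat_lit 28) (C.node (nat_lit 1) (nat_lit 2) (nat_lit 3) (C.cons (nat_lit 142) (C.node (nat_lit 2) (nat_lit 7) (nat_lit 10) C.nil) (C.cons (nat_lit 14) (C.node (nat_lit 1) (nat_lit 2) (nat_lit 7) (C.cons (nat_lit 134) (C.node (nat_lit 2) (nat_lit 3) (nat_lit 5) C.nil) C.nil)) C.nil))) C.nil))) C.nil))) C.nil)))) C.nil)) (C.cons (nat_lit 1298) (C.miq (nat_lit 2457929380) (nat_lit 355433986353598668119082097)) (C.cons (nat_lit 1296) (C.node (nat_lit 1) (nat_lit 8) (nat_lit 10) (C.cons (nat_lit 1290) (C.node (nat_lit 1) (nat_lit 4) (nat_lit 10) (C.cons (nat_lit 1170) (C.node (nat_lit 1) (nat_lit 7) (nat_lit 8) (C.cons (nat_lit 386) (C.node (nat_lit 2) (nat_lit 4) (nat_lit 7) (C.cons (nat_lit 148) (C.node (nat_lit 1) (nat_lit 2) (nat_lit 4) (C.cons (nat_lit 30) (C.miq (nat_lit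 2537753106) (nat_lit 184976516074016134030820359)) (C.cons (nat_lit 22) (C.node (nat_lit 1) (nat_lit 2) (nat_lit 3) (C.cons (nat_lit 142) (C.miq (nat_lit 1685260818) (nat_lit 184976515853339752297006087)) (C.cons (nat_lit 14) (C.node (nat_lit 1) (nat_lit 2) (nat_lit 7) C.nil) C.nil))) C.nil))) C.nil)) C.nil)) (C.cons (nat_lit 1042) (C.node (nat_lit 1) (nat_lit 7) (nat_lit 8) (C.cons (nat_lit 402) (C.node (nat_lit 4) (nat_lit 5) (nat_lit 7) (C.cons (nat_lit 176) (C.node (nat_lit 1) (nat_lit 2) (nat_lit 4) (C.cons (nat_lit 30) (C.miq (nat_lit 2166977584) (nat_lit 626259010868896578071756953)) (C.cons (nat_lit 22) (C.node (nat_lit 1) (nat_lit 2) (nat_lit 3) (C.cons (nat_lit 142) (C.node (nat_lit 1) (nat_lit 4) (nat_lit 6) (C.cons (nat_lit 90) (C.miq (nat_lit 1410795058) (nat_lit 485991223517890525384278605)) (C.cons (nat_lit 82) (C.node (nat_lit 1) (nat_lit 3) (nat_lit 4) C.nil) C.nil))) (C.cons (nat_lit 14) (C.node (nat_lit 1)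 (nat_lit 2) (nat_lit 7) (C.cons (nat_lit 134) (C.node (nat_lit 2) (nat_lit 3) (nat_lit 7) C.nil) C.nil)) C.nil))) C.nil))) C.nil)) (C.cons (nat_lit 386) (C.node (nat_lit 1) (nat_lit 4) (nat_lit 8) (C.cons (nat_lit 338) (C.node (nat_lit 1) (nat_lit 8) (nat_lit 9) (C.cons (nat_lit 770) (C.node (nat_lit 3) (nat_lit 4) (nat_lit 6) (C.cons (nat_lit 88) (C.node (nat_lit 1) (nat_lit 3) (nat_lit 6) (C.cons (nat_lit 74) (C.node (nat_lit 1) (nat_lit 5) (nat_lit 6) C.nil) C.nil)) C.nil)) C.nil)) (C.cons (nat_lit 274) (C.node (nat_lit 1) (nat_lit 4) (nat_lit 6) (C.cons (nat_lit 90) (C.node (nat_lit 4) (nat_lit 6) (nat_lit 8) (C.cons (nat_lit 336) (C.node (nat_lit 1) (nat_lit 2) (nat_lit 3) (C.cons (nat_lit 14) (C.node (nat_lit 4) (nat_lit 7) (nat_lit 10) C.nil) C.nil)) C.nil)) (C.cons (nat_lit 82) (C.node (nat_lit 1) (nat_lit 3) (nat_lit 6) (C.cons (nat_lit 106) (C.node (nat_lit 1) (nat_lit 3) (nat_lit 4) (C.cons (nat_lit 26) (C.node (nat_lit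 1) (nat_lit 2) (nat_lit 3) C.nil) C.nil)) (C.cons (nat_lit 74) (C.node (nat_lit 1) (nat_lit 5) (nat_lit 6) (C.cons (nat_lit 610) (C.node (nat_lit 1) (nat_lit 6) (nat_lit 8) C.nil) C.nil)) C.nil))) C.nil))) C.nil))) C.nil))) C.nil))) (C.cons (nat_lit 1282) (C.node (nat_lit 3) (nat_lit 8) (nat_lit 10) (C.cons (nat_lit 1288) (C.node (nat_lit 1) (nat_lit 2) (nat_lit 3) (C.cons (nat_lit 142) (C.node (nat_lit 1) (nat_lit 2) (nat_lit 4) (C.cons (nat_lit 22) (C.node (nat_lit 1) (nat_lit 4) (nat_lit 10) (C.cons (nat_lit 1170) (C.miq (nat_lit 1685260818) (nat_lit 184976515853339752297006087)) (C.cons (nat_lit 1050) (C.miq (nat_lit 1412893202) (nat_lit 184968694433851984051045383)) (C.cons (nat_lit 1042) (C.node (nat_lit 1) (nat_lit 7) (nat_lit 10) (C.cons (nat_lit 1186) (C.miq (nat_lit 916529239) (nat_lit 1317731762983397911924179109)) (C.cons (nat_lit 1154) (C.node (nat_lit 2) (nat_lit 3) (nat_lit 4) (C.cons (nat_lit 1052) (C.miq (nat_lit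 1681328673) (nat_lit 184969247836174203927528455)) (C.cons (nat_lit 60) (C.miq (nat_lit 307655488) (nat_lit 120896179116526995298648217)) (C.cons (nat_lit 28) (C.node (nat_lit 2) (nat_lit 3) (nat_lit 5)
  (C.cons (nat_lit 1068) (C.miq (nat_lit 329675344) (nat_lit 1324986295452701982633033893)) (C.cons (nat_lit 44) (C.node (nat_lit 2) (nat_lit 3) (nat_lit 10) C.nil) C.nil))) C.nil)))) C.nil))) C.nil)))) C.nil)) (C.cons (nat_lit 30) (C.node (nat_lit 1) (nat_lit 2) (nat_lit 7) (C.cons (nat_lit 134) (C.node (nat_lit 1) (nat_lit 4) (nat_lit 10) (C.cons (nat_lit 1170) (C.miq (nat_lit 2537753106) (nat_lit 184976516074016134030820359)) (C.cons (nat_lit 1042) (C.node (nat_lit 2) (nat_lit 3) (nat_lit 7) (C.cons (nat_lit 1164) (C.miq (nat_lit 2536770081) (nat_lit 184975446162859833107022855)) (C.cons (nat_lit 140) (C.node (nat_lit 1) (nat_lit 4) (nat_lit 5) (C.cons (nat_lit 178) (C.node (nat_lit 4) (nat_lit 7) (nat_lit 8) C.nil) (C.cons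 (nat_lit 50) (C.node (nat_lit 1) (nat_lit 4) (nat_lit 7) (C.cons (nat_lit 402) (C.miq (nat_lit 2166977584) (nat_lit 626259010868896578071756953)) (C.cons (nat_lit 146) (C.node (nat_lit 1) (nat_lit 7) (nat_lit 8) C.nil) C.nil))) C.nil))) C.nil))) C.nil))) C.nil)) (C.cons (nat_lit 14) (C.node (nat_lit 1) (nat_lit 2) (nat_lit 4) (C.cons (nat_lit 150) (C.node (nat_lit 4) (nat_lit 7) (nat_lit 10) (C.cons (nat_lit 1168) (C.node (nat_lit 1) (nat_lit 4) (nat_lit 5) (C.cons (nat_lit 58) (C.miq (nat_lit 1934704770) (nat_lit 70120464592326495626985749)) (C.cons (nat_lit 50) (C.node (nat_lit 1) (nat_lit 4) (nat_lit 10) (C.cons (nat_lit 1050) (C.miq (nat_lit 2202095730) (nat_lit 1269377534021717029272551589)) (C.cons (nat_lit 1042) (C.node (nat_lit 1) (nat_lit 7) (nat_lit 8) (C.cons (nat_lit 394) (C.miq (nat_lit 1366524480) (nat_lit 476322251693908073979117845)) (C.cons (nat_lit 386) (C.node (nat_lit 2) (nat_lit 3) (nat_lit 7) C.nil) C.nil)))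 C.nil))) C.nil))) C.nil)) (C.cons (nat_lit 22) (C.node (nat_lit 1) (nat_lit 2) (nat_lit 7) (C.cons (nat_lit 134) (C.node (nat_lit 2) (nat_lit 3) (nat_lit 7) (C.cons (nat_lit 1164) (C.node (nat_lit 2) (nat_lit 4) (nat_lit 7) C.nil) (C.cons (nat_lit 140) (C.node (nat_lit 2) (nat_lit 4) (nat_lit 7) (C.cons (nat_lit 148) (C.node (nat_lit 2) (nat_lit 7) (nat_lit 10) C.nil) C.nil)) C.nil))) C.nil)) C.nil))) C.nil)))) C.nil)) C.nil))) C.nil))))) C.nil))) C.nil))) C.nil))) C.nil)) C.nil))) (C.cons (nat_lit 292) (C.node (nat_lit 4) (nat_lit 8) (nat_lit 10) (C.cons (nat_lit 1306) (C.miq (nat_lit 422068330) (nat_lit 933314824339719730005017713)) (C.cons (nat_lit 1304) (C.node (nat_lit 1) (nat_lit 8) (nat_lit 10) (C.cons (nat_lit 1282) (C.node (nat_lit 1) (nat_lit 4) (nat_lit 10) (C.cons (nat_lit 1170) (C.node (nat_lit 2) (nat_lit 4) (nat_lit 10) (C.cons (nat_lit 1556) (C.miq (nat_lit 371486874) (nat_lit 101571351593085241147000705)) (C.cons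 (nat_lit 1044) (C.node (nat_lit 4) (nat_lit 9) (nat_lit 10) (C.cons (nat_lit 1552) (C.node (nat_lit 2) (nat_lit 7) (nat_lit 10) (C.cons (nat_lit 1164) (C.miq (nat_lit 2473853601) (nat_lit 184975445787935164203140103)) (C.cons (nat_lit 1156) (C.node (nat_lit 3) (nat_lit 4) (nat_lit 6) (C.cons (nat_lit 90) (C.miq (nat_lit 2588083990) (nat_lit 1576450134450454314121560259)) (C.cons (nat_lit 88) (C.node (nat_lit 3) (nat_lit 7) (nat_lit 10) (C.cons (nat_lit 1192) (C.miq (nat_lit 1518498624) (nat_lit 1629635048888816062474551449)) (C.cons (nat_lit 1160) (C.node (nat_lit 5) (nat_lit 7) (nat_lit 10) (C.cons (nat_lit 1184) (C.node (nat_lit 2) (nat_lit 3) (nat_lit 10) (C.cons (nat_lit 1068) (C.node (nat_lit 2) (nat_lit 9) (nat_lit 10) C.nil) C.nil)) C.nil)) C.nil))) C.nil))) C.nil))) C.nil)) C.nil))) (C.cons (nat_lit 1042) (C.node (nat_lit 4) (nat_lit 7) (nat_lit 10) (C.cons (nat_lit 1172) (C.miq (nat_lit 713389104) (nat_lit 1586113719377059912652226713))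 (C.cons (nat_lit 1168) (C.node (nat_lit 2) (nat_lit 4) (nat_lit 10) (C.cons (nat_lit 1556) (C.node (nat_lit 2) (nat_lit 7) (nat_lit 9) (C.cons (nat_lit 646) (C.miq (nat_lit 1108781424) (nat_lit 84645781759013688313055105)) (C.cons (nat_lit 644) (C.node (nat_lit 1) (nat_lit 2) (nat_lit 9) (C.cons (nat_lit 550) (C.node (nat_lit 2) (nat_lit 4) (nat_lit 5) (C.cons (nat_lit 60)
  (C.miq (nat_lit 2300774981) (nat_lit 712062786976726588872983665)) (C.cons (nat_lit 52) (C.node (nat_lit 5) (nat_lit 9) (nat_lit 10) (C.cons (nat_lit 1576) (C.miq (nat_lit 958945856) (nat_lit 933296211869094860893258865)) (C.cons (nat_lit 1568) (C.node (nat_lit 1) (nat_lit 6) (nat_lit 9) (C.cons (nat_lit 834) (C.node (nat_lit 3) (nat_lit 8) (nat_lit 9) (C.cons (nat_lit 776) (C.node (nat_lit 4) (nat_lit 6) (nat_lit 8) (C.cons (nat_lit 336) (C.node (nat_lit 5) (nat_lit 6) (nat_lit 9) (C.cons (nat_lit 608) (C.node (nat_lit 3) (nat_lit 6) (nat_lit 8) (C.cons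 (nat_lit 456) (C.miq (nat_lit 1133053793) (nat_lit 938136231285123009340375235)) C.nil)) C.nil)) C.nil)) C.nil)) (C.cons (nat_lit 578) (C.node (nat_lit 1) (nat_lit 7) (nat_lit 9) (C.cons (nat_lit 650) (C.node (nat_lit 1) (nat_lit 8) (nat_lit 9) (C.cons (nat_lit 770) (C.node (nat_lit 1) (nat_lit 9) (nat_lit 10) (C.cons (nat_lit 1538) (C.node (nat_lit 3) (nat_lit 9) (nat_lit 10) C.nil) C.nil)) C.nil)) (C.cons (nat_lit 642) (C.node (nat_lit 1) (nat_lit 8) (nat_lit 9) (C.cons (nat_lit 778) (C.node (nat_lit 1) (nat_lit 9) (nat_lit 10) (C.cons (nat_lit 1538) (C.node (nat_lit 3) (nat_lit 9) (nat_lit 10) C.nil) C.nil)) (C.cons (nat_lit 770) (C.node (nat_lit 1) (nat_lit 3) (nat_lit 9) C.nil) C.nil))) C.nil))) C.nil))) C.nil))) C.nil))) (C.cons (nat_lit 518) (C.node (nat_lit 2) (nat_lit 5) (nat_lit 9) (C.cons (nat_lit 548) (C.node (nat_lit 2) (nat_lit 4) (nat_lit 7) (C.cons (nat_lit 150) (C.node (nat_lit 2) (nat_lit 3) (nat_lit 4) (C.cons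 (nat_lit 60) (C.miq (nat_lit 2300774981) (nat_lit 712062786976726588872983665)) (C.cons (nat_lit 28) (C.node (nat_lit 2) (nat_lit 4) (nat_lit 5) (C.cons (nat_lit 52) (C.node (nat_lit 2) (nat_lit 7) (nat_lit 8) (C.cons (nat_lit 396) (C.miq (nat_lit 1647618160) (nat_lit 33870897276651394075002753)) (C.cons (nat_lit 388) (C.node (nat_lit 1) (nat_lit 2) (nat_lit 5) (C.cons (nat_lit 46) (C.node (nat_lit 1) (nat_lit 2) (nat_lit 8) C.nil) C.nil)) C.nil))) C.nil)) C.nil))) (C.cons (nat_lit 148) (C.node (nat_lit 2) (nat_lit 5) (nat_lit 10) (C.cons (nat_lit 1068) (C.node (nat_lit 2) (nat_lit 7) (nat_lit 10) (C.cons (nat_lit 1156) (C.node (nat_lit 1) (nat_lit 2) (nat_lit 5) C.nil) C.nil)) (C.cons (nat_lit 1060) (C.node (nat_lit 2) (nat_lit 3) (nat_lit 10) (C.cons (nat_lit 1164) (C.node (nat_lit 1) (nat_lit 2) (nat_lit 7) C.nil) (C.cons (nat_lit 1036) (C.node (nat_lit 2) (nat_lit 7) (nat_lit 10) C.nil) C.nil))) C.nil))) C.nil))) C.nil))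 C.nil))) C.nil))) (C.cons (nat_lit 1044) (C.node (nat_lit 4) (nat_lit 9) (nat_lit 10) (C.cons (nat_lit 1552) (C.node (nat_lit 2) (nat_lit 7) (nat_lit 10) (C.cons (nat_lit 1164) (C.node (nat_lit 2) (nat_lit 3) (nat_lit 4) (C.cons (nat_lit 62) (C.miq (nat_lit 2200413264) (nat_lit 1407225090593837591336125553)) (C.cons (nat_lit 60) (C.miq (nat_lit 2200413264) (nat_lit 1407225090593837582746190961)) (C.cons (nat_lit 30) (C.miq (nat_lit 2536770081) (nat_lit 184975446162859833107022855)) (C.cons (nat_lit 28) (C.node (nat_lit 1) (nat_lit 7) (nat_lit 10) (C.cons (nat_lit 1186) (C.node (nat_lit 1) (nat_lit 3) (nat_lit 10) (C.cons (nat_lit 1546) (C.miq (nat_lit 1368422962) (nat_lit 641942654261976216281875596)) (C.cons (nat_lit 1034) (C.node (nat_lit 1) (nat_lit 9) (nat_lit 10) C.nil) C.nil))) (C.cons (nat_lit 1154) (C.node (nat_lit 5) (nat_lit 7) (nat_lit 10) (C.cons (nat_lit 1184) (C.node (nat_lit 2) (nat_lit 5) (nat_lit 10) C.nil) C.nil))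 C.nil))) C.nil))))) (C.cons (nat_lit 1156) (C.node (nat_lit 2) (nat_lit 3) (nat_lit 10) (C.cons (nat_lit 1068) (C.node (nat_lit 2) (nat_lit 9) (nat_lit 10) C.nil) (C.cons (nat_lit 1036) (C.node (nat_lit 2) (nat_lit 5) (nat_lit 10) (C.cons (nat_lit 1060) (C.node (nat_lit 2) (nat_lit 9) (nat_lit 10) C.nil) C.nil)) C.nil))) C.nil))) C.nil)) C.nil))) C.nil))) C.nil))) C.nil)) (C.cons (nat_lit 1298) (C.miq (nat_lit 422068330) (nat_lit 933314676765767140328604785)) (C.cons (nat_lit 1296) (C.node (nat_lit 1) (nat_lit 8) (nat_lit 10) (C.cons (nat_lit 1290) (C.node (nat_lit 2) (nat_lit 3) (nat_lit 8)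
  (C.cons (nat_lit 396) (C.miq (nat_lit 1176701575) (nat_lit 712060130424902699625219969)) (C.cons (nat_lit 268) (C.node (nat_lit 1) (nat_lit 2) (nat_lit 8) (C.cons (nat_lit 390) (C.node (nat_lit 4) (nat_lit 7) (nat_lit 8) (C.cons (nat_lit 432) (C.miq (nat_lit 1209685792) (nat_lit 1559535281372482308174971045)) (C.cons (nat_lit 400) (C.node (nat_lit 5) (nat_lit 7) (nat_lit 8) (C.cons (nat_lit 480) (C.miq (nat_lit 1479173904) (nat_lit 1629652978923641599190040771)) (C.cons (nat_lit 416) (C.node (nat_lit 1) (nat_lit 2) (nat_lit 9) (C.cons (nat_lit 550) (C.node (nat_lit 1) (nat_lit 9) (nat_lit 10) (C.cons (nat_lit 1538) (C.node (nat_lit 1) (nat_lit 5) (nat_lit 10) (C.cons (nat_lit 1186) (C.miq (nat_lit 1158810232) (nat_lit 664914310856196606010984321)) (C.cons (nat_lit 1058) (C.node (nat_lit 1) (nat_lit 2) (nat_lit 3) (C.cons (nat_lit 30) (C.node (nat_lit 2) (nat_lit 4) (nat_lit 5) (C.cons (nat_lit 52) (C.node (nat_lit 1) (nat_lit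 3) (nat_lit 9) (C.cons (nat_lit 650) (C.miq (nat_lit 1215373459) (nat_lit 471481623130004408645583437)) (C.cons (nat_lit 522) (C.node (nat_lit 1) (nat_lit 7) (nat_lit 9) (C.cons (nat_lit 642) (C.node (nat_lit 2) (nat_lit 5) (nat_lit 10) (C.cons (nat_lit 1068) (C.node (nat_lit 3) (nat_lit 7) (nat_lit 10) C.nil) C.nil)) C.nil)) C.nil))) C.nil)) (C.cons (nat_lit 14) (C.node (nat_lit 1) (nat_lit 2) (nat_lit 4) (C.cons (nat_lit 22) (C.node (nat_lit 1) (nat_lit 3) (nat_lit 9) (C.cons (nat_lit 650) (C.node (nat_lit 1) (nat_lit 4) (nat_lit 10) (C.cons (nat_lit 1170) (C.miq (nat_lit 933663040) (nat_lit 1470064661966612251416789523)) C.nil)) (C.cons (nat_lit 522) (C.node (nat_lit 1) (nat_lit 7) (nat_lit 9) (C.cons (nat_lit 642) (C.node (nat_lit 1) (nat_lit 4) (nat_lit 10) (C.cons (nat_lit 1170) (C.node (nat_lit 2) (nat_lit 5) (nat_lit 10) C.nil) C.nil)) C.nil)) C.nil))) C.nil)) C.nil))) C.nil))) C.nil)) (C.cons (nat_lit 518) (C.node (nat_lit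 1) (nat_lit 2) (nat_lit 5) (C.cons (nat_lit 62) (C.miq (nat_lit 2016741906) (nat_lit 359054012679035997736797191)) (C.cons (nat_lit 54) (C.miq (nat_lit 1249988722) (nat_lit 1559515303747096914864504997)) (C.cons (nat_lit 46) (C.miq (nat_lit 2016741906) (nat_lit 359054012679035997735748615)) (C.cons (nat_lit 38) (C.node (nat_lit 1) (nat_lit 2) (nat_lit 3) (C.cons (nat_lit 30) (C.node (nat_lit 1) (nat_lit 4) (nat_lit 6) (C.cons (nat_lit 338) (C.miq (nat_lit 1384384278) (nat_lit 334893426027709135370453187)) (C.cons (nat_lit 82) (C.node (nat_lit 1) (nat_lit 4) (nat_lit 10) (C.cons (nat_lit 1170) (C.miq (nat_lit 2537753106) (nat_lit 184976516074016134030820359)) (C.cons (nat_lit 1042) (C.node (nat_lit 1) (nat_lit 7) (nat_lit 10) (C.cons (nat_lit 1186) (C.miq (nat_lit 1361356672) (nat_lit 36288748870281680435611521)) (C.cons (nat_lit 1154) (C.node (nat_lit 1) (nat_lit 5) (nat_lit 10) C.nil) C.nil))) C.nil))) C.nil))) (C.cons (nat_lit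 14) (C.node (nat_lit 1) (nat_lit 2) (nat_lit 4) (C.cons (nat_lit 22) (C.node (nat_lit 1) (nat_lit 4) (nat_lit 10) (C.cons (nat_lit 1170) (C.node (nat_lit 2) (nat_lit 3) (nat_lit 7) (C.cons (nat_lit 1164) (C.miq (nat_lit 2473853601) (nat_lit 184975445787935164203140103)) (C.cons (nat_lit 140) (C.node (nat_lit 2) (nat_lit 7) (nat_lit 10) C.nil) C.nil))) (C.cons (nat_lit 1042) (C.node (nat_lit 1) (nat_lit 7) (nat_lit 10) (C.cons (nat_lit 1186) (C.miq (nat_lit 1361356672) (nat_lit 26617342313364647037962113)) (C.cons (nat_lit 1154) (C.node (nat_lit 1) (nat_lit 5) (nat_lit 10) (C.cons (nat_lit 1570) (C.node (nat_lit 1) (nat_lit 3) (nat_lit 9) (C.cons (nat_lit 650) (C.node (nat_lit 2) (nat_lit 3) (nat_lit 7) C.nil) C.nil)) C.nil)) C.nil))) C.nil))) C.nil)) C.nil))) C.nil))))) C.nil))) C.nil))) C.nil))) (C.cons (nat_lit 262) (C.node (nat_lit 2) (nat_lit 7) (nat_lit 8) (C.cons (nat_lit 388) (C.node (nat_lit 1) (nat_lit 4) (nat_lit 10)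 (C.cons (nat_lit 1170) (C.node (nat_lit 2) (nat_lit 7) (nat_lit 10) (C.cons (nat_lit 1164) (C.miq (nat_lit 2473853601) (nat_lit 184975445787935164203140103)) (C.cons (nat_lit 1156) (C.node (nat_lit 2) (nat_lit 3) (nat_lit 7)
  (C.cons (nat_lit 142) (C.miq (nat_lit 1685260818) (nat_lit 184976515853339752297006087)) (C.cons (nat_lit 140) (C.node (nat_lit 1) (nat_lit 2) (nat_lit 7) (C.cons (nat_lit 646) (C.miq (nat_lit 1093052304) (nat_lit 84645781650364347328563073)) (C.cons (nat_lit 134) (C.node (nat_lit 2) (nat_lit 4) (nat_lit 10) (C.cons (nat_lit 1556) (C.miq (nat_lit 371486874) (nat_lit 101571351593085241147000705)) (C.cons (nat_lit 1052) (C.miq (nat_lit 880159248) (nat_lit 251467435908218983888913415)) (C.cons (nat_lit 1044) (C.node (nat_lit 3) (nat_lit 4) (nat_lit 10) (C.cons (nat_lit 1560) (C.miq (nat_lit 980849680) (nat_lit 1470064662222754480161751571)) (C.cons (nat_lit 1048) (C.node (nat_lit 1) (nat_lit 7) (nat_lit 8)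 C.nil) C.nil))) C.nil)))) C.nil))) C.nil))) C.nil))) (C.cons (nat_lit 1042) (C.node (nat_lit 1) (nat_lit 7) (nat_lit 10) (C.cons (nat_lit 1186) (C.node (nat_lit 1) (nat_lit 9) (nat_lit 10) (C.cons (nat_lit 1538) (C.node (nat_lit 2) (nat_lit 5) (nat_lit 10) (C.cons (nat_lit 1572) (C.miq (nat_lit 371552410) (nat_lit 120914459854824487296173953)) (C.cons (nat_lit 1068) (C.miq (nat_lit 439776544) (nat_lit 1324986295746561858283045029)) (C.cons (nat_lit 1060) (C.node (nat_lit 1) (nat_lit 7) (nat_lit 8) (C.cons (nat_lit 402) (C.node (nat_lit 1) (nat_lit 4) (nat_lit 6) (C.cons (nat_lit 90) (C.node (nat_lit 1) (nat_lit 2) (nat_lit 4) (C.cons (nat_lit 54) (C.miq (nat_lit 1898489152) (nat_lit 316774001268227994146899057)) C.nil)) C.nil)) (C.cons (nat_lit 386) (C.node (nat_lit 4) (nat_lit 7) (nat_lit 8) (C.cons (nat_lit 432) (C.miq (nat_lit 394437952) (nat_lit 469082236937447292156576881)) (C.cons (nat_lit 400) (C.node (nat_lit 3) (nat_lit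 7) (nat_lit 8) (C.cons (nat_lit 456) (C.node (nat_lit 5) (nat_lit 6) (nat_lit 7) C.nil) C.nil)) C.nil))) C.nil))) C.nil)))) C.nil)) (C.cons (nat_lit 1154) (C.node (nat_lit 1) (nat_lit 5) (nat_lit 10) (C.cons (nat_lit 1570) (C.node (nat_lit 1) (nat_lit 2) (nat_lit 5) (C.cons (nat_lit 62) (C.miq (nat_lit 2435360064) (nat_lit 316774001376314419563529329)) (C.cons (nat_lit 54) (C.miq (nat_lit 2435360064) (nat_lit 316774001376314385203790961)) (C.cons (nat_lit 46) (C.miq (nat_lit 2016741906) (nat_lit 359054012679035997735748615)) (C.cons (nat_lit 38) (C.node (nat_lit 1) (nat_lit 2) (nat_lit 9) (C.cons (nat_lit 646) (C.node (nat_lit 1) (nat_lit 3) (nat_lit 9) (C.cons (nat_lit 522) (C.node (nat_lit 2) (nat_lit 5) (nat_lit 9) (C.cons (nat_lit 564) (C.miq (nat_lit 1383483664) (nat_lit 236970434751233787429061139)) (C.cons (nat_lit 548) (C.node (nat_lit 2) (nat_lit 4) (nat_lit 9) (C.cons (nat_lit 1556) (C.miq (nat_lit 1108781424) (nat_lit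 84645781759013688313055105)) (C.cons (nat_lit 532) (C.node (nat_lit 2) (nat_lit 9) (nat_lit 10) C.nil) C.nil))) C.nil))) C.nil)) (C.cons (nat_lit 518) (C.node (nat_lit 1) (nat_lit 3) (nat_lit 9) (C.cons (nat_lit 650) (C.node (nat_lit 1) (nat_lit 2) (nat_lit 3) (C.cons (nat_lit 30) (C.miq (nat_lit 1362405744) (nat_lit 36288748978369188175873921)) (C.cons (nat_lit 14) (C.node (nat_lit 1) (nat_lit 6) (nat_lit 9) C.nil) C.nil))) (C.cons (nat_lit 522) (C.node (nat_lit 1) (nat_lit 7) (nat_lit 9) (C.cons (nat_lit 642) (C.node (nat_lit 1) (nat_lit 6) (nat_lit 9) C.nil) C.nil)) C.nil))) C.nil))) C.nil))))) (C.cons (nat_lit 1058) (C.node (nat_lit 1) (nat_lit 9) (nat_lit 10) (C.cons (nat_lit 1538) (C.node (nat_lit 3) (nat_lit 7) (nat_lit 8) (C.cons (nat_lit 456) (C.node (nat_lit 5) (nat_lit 6) (nat_lit 7) (C.cons (nat_lit 224) (C.node (nat_lit 1) (nat_lit 6) (nat_lit 8) C.nil) C.nil)) (C.cons (nat_lit 392) (C.node (nat_lit 3) (nat_lit 6)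 (nat_lit 7) (C.cons (nat_lit 232) (C.node (nat_lit 5) (nat_lit 7) (nat_lit 10) (C.cons (nat_lit 1184) (C.node (nat_lit 6) (nat_lit 7) (nat_lit 8) (C.cons (nat_lit 448) (C.node (nat_lit 1) (nat_lit 3) (nat_lit 6) C.nil) C.nil)) C.nil)) (C.cons (nat_lit 200) (C.node (nat_lit 1) (nat_lit 2) (nat_lit 9) C.nil) C.nil))) C.nil))) C.nil)) C.nil))) C.nil))) C.nil))) C.nil)) C.nil))) C.nil))) (C.cons (nat_lit 1282) (C.node (nat_lit 3) (nat_lit 8) (nat_lit 10)
  (C.cons (nat_lit 1288) (C.node (nat_lit 2) (nat_lit 3) (nat_lit 8) (C.cons (nat_lit 398) (C.miq (nat_lit 1176701575) (nat_lit 712060130424902699625351041)) (C.cons (nat_lit 396) (C.miq (nat_lit 1176701575) (nat_lit 712060130424902699625219969)) (C.cons (nat_lit 270) (C.node (nat_lit 2) (nat_lit 7) (nat_lit 8) (C.cons (nat_lit 388) (C.node (nat_lit 2) (nat_lit 3) (nat_lit 7) (C.cons (nat_lit 1164) (C.node (nat_lit 4) (nat_lit 7) (nat_lit 10) (C.cons (nat_lit 1170) (C.miq (nat_lit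 2473853601) (nat_lit 184975445787935164203140103)) (C.cons (nat_lit 1168) (C.node (nat_lit 1) (nat_lit 4) (nat_lit 10) (C.cons (nat_lit 1050) (C.node (nat_lit 1) (nat_lit 3) (nat_lit 6) (C.cons (nat_lit 106) (C.miq (nat_lit 1108740149) (nat_lit 84645781399005578186588457)) (C.cons (nat_lit 74) (C.node (nat_lit 3) (nat_lit 4) (nat_lit 6) (C.cons (nat_lit 344) (C.miq (nat_lit 1209688864) (nat_lit 1549863874790794961430708813)) (C.cons (nat_lit 88) (C.node (nat_lit 1) (nat_lit 4) (nat_lit 6) (C.cons (nat_lit 338) (C.node (nat_lit 1) (nat_lit 5) (nat_lit 6) C.nil) (C.cons (nat_lit 82) (C.node (nat_lit 4) (nat_lit 6) (nat_lit 8) C.nil) C.nil))) C.nil))) C.nil))) (C.cons (nat_lit 1042) (C.node (nat_lit 1) (nat_lit 7) (nat_lit 10) (C.cons (nat_lit 1186) (C.node (nat_lit 1) (nat_lit 3) (nat_lit 10) (C.cons (nat_lit 1546) (C.miq (nat_lit 1378971802) (nat_lit 326431849180867197693200257)) (C.cons (nat_lit 1034) (C.node (nat_lit 1) (nat_lit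 9) (nat_lit 10) (C.cons (nat_lit 1538) (C.node (nat_lit 1) (nat_lit 7) (nat_lit 8) C.nil) C.nil)) C.nil))) (C.cons (nat_lit 1154) (C.node (nat_lit 5) (nat_lit 7) (nat_lit 10) (C.cons (nat_lit 1184) (C.node (nat_lit 3) (nat_lit 6) (nat_lit 8) (C.cons (nat_lit 456) (C.node (nat_lit 5) (nat_lit 6) (nat_lit 7) C.nil) (C.cons (nat_lit 344) (C.miq (nat_lit 1209688864) (nat_lit 1549863874790794961430708813)) C.nil))) C.nil)) C.nil))) C.nil))) C.nil))) (C.cons (nat_lit 140) (C.node (nat_lit 2) (nat_lit 7) (nat_lit 10) (C.cons (nat_lit 1172) (C.node (nat_lit 2) (nat_lit 3) (nat_lit 4) (C.cons (nat_lit 60) (C.miq (nat_lit 1916314704) (nat_lit 326445407821204403641713777)) (C.cons (nat_lit 28) (C.node (nat_lit 1) (nat_lit 2) (nat_lit 4) (C.cons (nat_lit 54) (C.node (nat_lit 2) (nat_lit 4) (nat_lit 9) (C.cons (nat_lit 532) (C.node (nat_lit 1) (nat_lit 2) (nat_lit 7) (C.cons (nat_lit 646) (C.miq (nat_lit 2804222228) (nat_lit 199493734725141826400289299))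 (C.cons (nat_lit 134) (C.node (nat_lit 1) (nat_lit 2) (nat_lit 9) (C.cons (nat_lit 518) (C.node (nat_lit 2) (nat_lit 7) (nat_lit 9) C.nil) C.nil)) C.nil))) C.nil)) (C.cons (nat_lit 22) (C.node (nat_lit 1) (nat_lit 2) (nat_lit 5) (C.cons (nat_lit 550) (C.node (nat_lit 1) (nat_lit 2) (nat_lit 7) (C.cons (nat_lit 134) (C.node (nat_lit 2) (nat_lit 4) (nat_lit 5) (C.cons (nat_lit 52) (C.node (nat_lit 2) (nat_lit 4) (nat_lit 9) C.nil) C.nil)) C.nil)) (C.cons (nat_lit 38) (C.node (nat_lit 1) (nat_lit 2) (nat_lit 7) (C.cons (nat_lit 646) (C.node (nat_lit 2) (nat_lit 4) (nat_lit 5) (C.cons (nat_lit 564) (C.miq (nat_lit 1383483664) (nat_lit 236970434751233787429061139)) (C.cons (nat_lit 52) (C.node (nat_lit 2) (nat_lit 4) (nat_lit 9) C.nil) C.nil))) (C.cons (nat_lit 134) (C.node (nat_lit 1) (nat_lit 2) (nat_lit 9) C.nil) C.nil))) C.nil))) C.nil))) C.nil))) (C.cons (nat_lit 1156) (C.node (nat_lit 3) (nat_lit 7) (nat_lit 8) (C.cons (nat_lit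 456) (C.node (nat_lit 5) (nat_lit 6) (nat_lit 7) (C.cons (nat_lit 224) (C.node (nat_lit 3) (nat_lit 4) (nat_lit 6) (C.cons (nat_lit 88) (C.node (nat_lit 1) (nat_lit 3) (nat_lit 6) C.nil) C.nil)) C.nil)) (C.cons (nat_lit 392) (C.node (nat_lit 3) (nat_lit 6) (nat_lit 8) (C.cons (nat_lit 344) (C.miq (nat_lit 1209688864) (nat_lit 1549863874790794961430708813)) (C.cons (nat_lit 328) (C.node (nat_lit 3) (nat_lit 4) (nat_lit 6) (C.cons (nat_lit 90) (C.node (nat_lit 4) (nat_lit 6) (nat_lit 8) (C.cons (nat_lit 336) (C.node (nat_lit 3) (nat_lit 5) (nat_lit 6) C.nil) C.nil)) (C.cons (nat_lit 88) (C.node (nat_lit 4) (nat_lit 6) (nat_lit 8) (C.cons (nat_lit 338)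
  (C.node (nat_lit 1) (nat_lit 3) (nat_lit 6) C.nil) C.nil)) C.nil))) C.nil))) C.nil))) C.nil))) C.nil))) C.nil)) (C.cons (nat_lit 268) (C.node (nat_lit 1) (nat_lit 2) (nat_lit 8) (C.cons (nat_lit 390) (C.node (nat_lit 4) (nat_lit 7) (nat_lit 8) (C.cons (nat_lit 432) (C.miq (nat_lit 1209685792) (nat_lit 1549863874815565274777321637)) (C.cons (nat_lit 400) (C.node (nat_lit 5) (nat_lit 7) (nat_lit 8) (C.cons (nat_lit 480) (C.miq (nat_lit 1479173904) (nat_lit 1629652978923641599190040771)) (C.cons (nat_lit 416) (C.node (nat_lit 1) (nat_lit 2) (nat_lit 9) (C.cons (nat_lit 550) (C.node (nat_lit 1) (nat_lit 2) (nat_lit 3) (C.cons (nat_lit 30) (C.node (nat_lit 2) (nat_lit 4) (nat_lit 5) (C.cons (nat_lit 52) (C.node (nat_lit 1) (nat_lit 4) (nat_lit 6) (C.cons (nat_lit 338) (C.miq (nat_lit 1384384278) (nat_lit 334893426027709135370453187)) (C.cons (nat_lit 82) (C.node (nat_lit 1) (nat_lit 4) (nat_lit 10) (C.cons (nat_lit 1170) (C.miq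 (nat_lit 2537753106) (nat_lit 184976516074016134030820359)) (C.cons (nat_lit 1042) (C.node (nat_lit 2) (nat_lit 3) (nat_lit 5) (C.cons (nat_lit 44) (C.node (nat_lit 2) (nat_lit 5) (nat_lit 10) C.nil) C.nil)) C.nil))) C.nil))) C.nil)) (C.cons (nat_lit 14) (C.node (nat_lit 1) (nat_lit 2) (nat_lit 4) (C.cons (nat_lit 22) (C.node (nat_lit 1) (nat_lit 6) (nat_lit 9) (C.cons (nat_lit 834) (C.node (nat_lit 5) (nat_lit 6) (nat_lit 8) (C.cons (nat_lit 352) (C.node (nat_lit 1) (nat_lit 3) (nat_lit 8) C.nil) C.nil)) (C.cons (nat_lit 578) (C.node (nat_lit 1) (nat_lit 7) (nat_lit 9) (C.cons (nat_lit 650) (C.node (nat_lit 1) (nat_lit 8) (nat_lit 9) C.nil) (C.cons (nat_lit 642) (C.node (nat_lit 1) (nat_lit 8) (nat_lit 9) (C.cons (nat_lit 778) (C.node (nat_lit 1) (nat_lit 9) (nat_lit 10) C.nil) C.nil)) C.nil))) C.nil))) C.nil)) C.nil))) (C.cons (nat_lit 518) (C.node (nat_lit 2) (nat_lit 3) (nat_lit 7) (C.cons (nat_lit 1164) (C.node (nat_lit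 4) (nat_lit 7) (nat_lit 10) (C.cons (nat_lit 1170) (C.miq (nat_lit 2473853601) (nat_lit 184975445787935164203140103)) (C.cons (nat_lit 1168) (C.node (nat_lit 1) (nat_lit 7) (nat_lit 10) (C.cons (nat_lit 1186) (C.miq (nat_lit 1468309792) (nat_lit 483591302127694475076895751)) (C.cons (nat_lit 1154) (C.node (nat_lit 5) (nat_lit 7) (nat_lit 10) (C.cons (nat_lit 1184) (C.node (nat_lit 2) (nat_lit 4) (nat_lit 10) (C.cons (nat_lit 1556) (C.node (nat_lit 2) (nat_lit 4) (nat_lit 7) C.nil) C.nil)) C.nil)) C.nil))) C.nil))) (C.cons (nat_lit 140) (C.node (nat_lit 2) (nat_lit 7) (nat_lit 9) (C.cons (nat_lit 660) (C.node (nat_lit 2) (nat_lit 7) (nat_lit 10) (C.cons (nat_lit 1156) (C.node (nat_lit 2) (nat_lit 4) (nat_lit 10) (C.cons (nat_lit 1044) (C.node (nat_lit 2) (nat_lit 3) (nat_lit 10) C.nil) C.nil)) C.nil)) (C.cons (nat_lit 644) (C.node (nat_lit 2) (nat_lit 4) (nat_lit 7) (C.cons (nat_lit 1172) (C.node (nat_lit 6) (nat_lit 7) (nat_lit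 8) (C.cons (nat_lit 456) (C.node (nat_lit 5) (nat_lit 6) (nat_lit 7) (C.cons (nat_lit 224) (C.node (nat_lit 2) (nat_lit 3) (nat_lit 10) C.nil) C.nil)) C.nil)) (C.cons (nat_lit 148) (C.node (nat_lit 2) (nat_lit 7) (nat_lit 10) (C.cons (nat_lit 1156) (C.node (nat_lit 1) (nat_lit 4) (nat_lit 10) C.nil) C.nil)) C.nil))) C.nil))) C.nil))) C.nil))) C.nil))) C.nil))) (C.cons (nat_lit 262) (C.node (nat_lit 2) (nat_lit 7) (nat_lit 8) (C.cons (nat_lit 388) (C.node (nat_lit 1) (nat_lit 2) (nat_lit 9) (C.cons (nat_lit 646) (C.node (nat_lit 4) (nat_lit 7) (nat_lit 9) (C.cons (nat_lit 688) (C.miq (nat_lit 2775712913) (nat_lit 199491779149593811874087443)) (C.cons (nat_lit 656) (C.node (nat_lit 2) (nat_lit 4) (nat_lit 9) (C.cons (nat_lit 1556) (C.miq (nat_lit 1108781424) (nat_lit 84645781759013688313055105)) (C.cons (nat_lit 564) (C.miq (nat_lit 1383483664) (nat_lit 236970434751233787429061139)) (C.cons (nat_lit 532) (C.node (nat_lit 2) (nat_lit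 5) (nat_lit 9) (C.cons (nat_lit 1572) (C.miq (nat_lit 1377216880) (nat_lit 84645781763517287940425601)) (C.cons (nat_lit 548) (C.node (nat_lit 2) (nat_lit 9) (nat_lit 10) (C.cons (nat_lit 1540)
  (C.node (nat_lit 2) (nat_lit 3) (nat_lit 7) C.nil) C.nil)) C.nil))) C.nil)))) C.nil))) (C.cons (nat_lit 550) (C.node (nat_lit 1) (nat_lit 6) (nat_lit 9) (C.cons (nat_lit 834) (C.node (nat_lit 5) (nat_lit 6) (nat_lit 9) (C.cons (nat_lit 608) (C.node (nat_lit 1) (nat_lit 4) (nat_lit 6) (C.cons (nat_lit 82) (C.node (nat_lit 1) (nat_lit 3) (nat_lit 6) C.nil) C.nil)) C.nil)) (C.cons (nat_lit 578) (C.node (nat_lit 1) (nat_lit 7) (nat_lit 9) (C.cons (nat_lit 650) (C.node (nat_lit 1) (nat_lit 8) (nat_lit 9) (C.cons (nat_lit 770) (C.node (nat_lit 1) (nat_lit 3) (nat_lit 8) C.nil) C.nil)) (C.cons (nat_lit 642) (C.node (nat_lit 1) (nat_lit 8) (nat_lit 9) (C.cons (nat_lit 778) (C.node (nat_lit 1) (nat_lit 9) (nat_lit 10) (C.cons (nat_lit 1538) (C.node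 (nat_lit 1) (nat_lit 2) (nat_lit 3) C.nil) C.nil)) (C.cons (nat_lit 770) (C.node (nat_lit 1) (nat_lit 9) (nat_lit 10) (C.cons (nat_lit 1546) (C.node (nat_lit 5) (nat_lit 9) (nat_lit 10) C.nil) C.nil)) C.nil))) C.nil))) C.nil))) (C.cons (nat_lit 518) (C.node (nat_lit 2) (nat_lit 7) (nat_lit 9) (C.cons (nat_lit 660) (C.node (nat_lit 1) (nat_lit 2) (nat_lit 7) (C.cons (nat_lit 142) (C.node (nat_lit 2) (nat_lit 7) (nat_lit 10) (C.cons (nat_lit 1156) (C.node (nat_lit 2) (nat_lit 4) (nat_lit 10) (C.cons (nat_lit 1044) (C.node (nat_lit 2) (nat_lit 3) (nat_lit 10) C.nil) C.nil)) C.nil)) (C.cons (nat_lit 134) (C.node (nat_lit 2) (nat_lit 3) (nat_lit 7) (C.cons (nat_lit 1164) (C.node (nat_lit 2) (nat_lit 4) (nat_lit 10) C.nil) (C.cons (nat_lit 140) (C.node (nat_lit 2) (nat_lit 7) (nat_lit 10) C.nil) C.nil))) C.nil))) (C.cons (nat_lit 644) (C.node (nat_lit 4) (nat_lit 7) (nat_lit 9) (C.cons (nat_lit 688) (C.node (nat_lit 1) (nat_lit 7)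 (nat_lit 9) (C.cons (nat_lit 650) (C.node (nat_lit 1) (nat_lit 9) (nat_lit 10) (C.cons (nat_lit 1570) (C.miq (nat_lit 832600404) (nat_lit 1246405342557491434718560944)) (C.cons (nat_lit 1538) (C.node (nat_lit 4) (nat_lit 7) (nat_lit 8) (C.cons (nat_lit 402) (C.miq (nat_lit 931303744) (nat_lit 469074083325695996168831507)) (C.cons (nat_lit 400) (C.node (nat_lit 3) (nat_lit 5) (nat_lit 7) (C.cons (nat_lit 1192) (C.miq (nat_lit 329291604) (nat_lit 1248830167065978931780846256)) (C.cons (nat_lit 232) (C.miq (nat_lit 391418720) (nat_lit 831750759298927743338611277)) (C.cons (nat_lit 168) (C.node (nat_lit 1) (nat_lit 2) (nat_lit 7) (C.cons (nat_lit 150) (C.node (nat_lit 4) (nat_lit 7) (nat_lit 10) (C.cons (nat_lit 1168) (C.node (nat_lit 1) (nat_lit 4) (nat_lit 10) C.nil) C.nil)) C.nil)) C.nil)))) C.nil))) C.nil))) (C.cons (nat_lit 642) (C.node (nat_lit 3) (nat_lit 7) (nat_lit 9) (C.cons (nat_lit 648) (C.node (nat_lit 2) (nat_lit 4)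 (nat_lit 9) (C.cons (nat_lit 1556) (C.node (nat_lit 2) (nat_lit 5) (nat_lit 9) (C.cons (nat_lit 548) (C.node (nat_lit 2) (nat_lit 4) (nat_lit 7) C.nil) C.nil)) (C.cons (nat_lit 532) (C.node (nat_lit 2) (nat_lit 5) (nat_lit 9) (C.cons (nat_lit 1572) (C.node (nat_lit 1) (nat_lit 2) (nat_lit 7) C.nil) C.nil)) C.nil))) C.nil)) C.nil))) (C.cons (nat_lit 656) (C.node (nat_lit 1) (nat_lit 2) (nat_lit 7) (C.cons (nat_lit 150) (C.node (nat_lit 4) (nat_lit 7) (nat_lit 10) (C.cons (nat_lit 1168) (C.node (nat_lit 1) (nat_lit 2) (nat_lit 3) (C.cons (nat_lit 46) (C.node (nat_lit 2) (nat_lit 3) (nat_lit 4) (C.cons (nat_lit 28) (C.node (nat_lit 1) (nat_lit 4) (nat_lit 10) C.nil) C.nil)) (C.cons (nat_lit 14) (C.node (nat_lit 1) (nat_lit 2) (nat_lit 5) C.nil) C.nil))) C.nil)) (C.cons (nat_lit 142) (C.node (nat_lit 1) (nat_lit 4) (nat_lit 10) (C.cons (nat_lit 1170) (C.miq (nat_lit 1685260818) (nat_lit 184976515853339752297006087)) (C.cons (nat_lit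 1050) (C.miq (nat_lit 1412893202) (nat_lit 184968694433851984051045383)) (C.cons (nat_lit 1042) (C.node (nat_lit 1) (nat_lit 7) (nat_lit 10) (C.cons (nat_lit 1186) (C.miq (nat_lit 916529239) (nat_lit 1317731762983397911924179109)) (C.cons (nat_lit 1154) (C.node (nat_lit 2) (nat_lit 3) (nat_lit 10) (C.cons (nat_lit 1068) (C.miq (nat_lit 329675344) (nat_lit 1324986295452701982633033893)) (C.cons (nat_lit 1052)
  (C.miq (nat_lit 1681328673) (nat_lit 184969247836174203927528455)) C.nil))) C.nil))) C.nil)))) (C.cons (nat_lit 134) (C.node (nat_lit 2) (nat_lit 3) (nat_lit 7) (C.cons (nat_lit 1164) (C.node (nat_lit 2) (nat_lit 4) (nat_lit 7) (C.cons (nat_lit 148) (C.node (nat_lit 2) (nat_lit 4) (nat_lit 10) C.nil) C.nil)) (C.cons (nat_lit 140) (C.node (nat_lit 2) (nat_lit 4) (nat_lit 7) (C.cons (nat_lit 1172) (C.node (nat_lit 2) (nat_lit 3) (nat_lit 10) C.nil) (C.cons (nat_lit 148) (C.node (nat_lit 2) (nat_lit 7) (nat_lit 10) C.nil)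 C.nil))) C.nil))) C.nil)))) C.nil))) C.nil))) C.nil)))) C.nil)) C.nil))) C.nil))))) C.nil)) C.nil))) C.nil))))) C.nil))) List.nil)

theorem ok11_156 : okL par11 (nat_lit 157) c11_156 (nat_lit 156) = true := by decide +kernel

noncomputable def c11_157 : List C :=
  (List.cons (C.node (nat_lit 5) (nat_lit 8) (nat_lit 10) (C.cons (nat_lit 1314) (C.node (nat_lit 2) (nat_lit 3) (nat_lit 8) (C.cons (nat_lit 398) (C.miq (nat_lit 1176701575) (nat_lit 712060130424902699625351041)) (C.cons (nat_lit 396) (C.miq (nat_lit 1176701575) (nat_lit 712060130424902699625219969)) (C.cons (nat_lit 270) (C.miq (nat_lit 1703086610) (nat_lit 359061833877846971938374663)) (C.cons (nat_lit 268) (C.node (nat_lit 1) (nat_lit 9) (nat_lit 10) (C.cons (nat_lit 1546) (C.node (nat_lit 3) (nat_lit 8) (nat_lit 9) (C.cons (nat_lit 792) (C.miq (nat_lit 2726498377) (nat_lit 324020638613260464534585875)) (C.cons (nat_lit 776) (C.node (nat_lit 1) (nat_lit 4) (nat_lit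 10) (C.cons (nat_lit 1170) (C.node (nat_lit 2) (nat_lit 7) (nat_lit 8) (C.cons (nat_lit 390) (C.miq (nat_lit 941032868) (nat_lit 471483892085152367443575921)) (C.cons (nat_lit 388) (C.node (nat_lit 1) (nat_lit 2) (nat_lit 8) (C.cons (nat_lit 774) (C.miq (nat_lit 1176570505) (nat_lit 84634602914170020187998081)) (C.cons (nat_lit 262) (C.node (nat_lit 1) (nat_lit 7) (nat_lit 8) (C.cons (nat_lit 394) (C.node (nat_lit 1) (nat_lit 2) (nat_lit 7) (C.cons (nat_lit 646) (C.miq (nat_lit 1093052304) (nat_lit 84645781650364347328563073)) (C.cons (nat_lit 134) (C.node (nat_lit 2) (nat_lit 3) (nat_lit 7) (C.cons (nat_lit 1164) (C.miq (nat_lit 2473853601) (nat_lit 184975445787935164203140103)) (C.cons (nat_lit 140) (C.node (nat_lit 2) (nat_lit 7) (nat_lit 10) (C.cons (nat_lit 1156) (C.node (nat_lit 3) (nat_lit 4) (nat_lit 9) (C.cons (nat_lit 568) (C.miq (nat_lit 323323658) (nat_lit 686694104673724023612442497)) (C.cons (nat_lit 536) (C.node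 (nat_lit 3) (nat_lit 7) (nat_lit 10) (C.cons (nat_lit 1192) (C.miq (nat_lit 1098938963) (nat_lit 313114609961363600168256680)) (C.cons (nat_lit 1160) (C.node (nat_lit 5) (nat_lit 7) (nat_lit 10) (C.cons (nat_lit 1184) (C.node (nat_lit 3) (nat_lit 8) (nat_lit 10) (C.cons (nat_lit 1304) (C.miq (nat_lit 413561664) (nat_lit 1629635602066521242402357401)) (C.cons (nat_lit 1288) (C.node (nat_lit 4) (nat_lit 8) (nat_lit 10) (C.cons (nat_lit 1296) (C.node (nat_lit 3) (nat_lit 4) (nat_lit 10) (C.cons (nat_lit 1052) (C.miq (nat_lit 1665598113) (nat_lit 184969247681925916757459975)) (C.cons (nat_lit 1048) (C.node (nat_lit 2) (nat_lit 4) (nat_lit 10) (C.cons (nat_lit 1556) (C.miq (nat_lit 371486874) (nat_lit 101571351593085241147000705)) (C.cons (nat_lit 1044) (C.node (nat_lit 4) (nat_lit 9) (nat_lit 10) C.nil) C.nil))) C.nil))) C.nil)) C.nil))) C.nil)) C.nil))) C.nil))) C.nil)) C.nil))) C.nil))) (C.cons (nat_lit 386) (C.miq (nat_lit 941032868)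 (nat_lit 466648188806693850744751217)) C.nil))) C.nil))) C.nil))) (C.cons (nat_lit 1042) (C.node (nat_lit 1) (nat_lit 7) (nat_lit 10) (C.cons (nat_lit 1154) (C.node (nat_lit 2) (nat_lit 5) (nat_lit 8) (C.cons (nat_lit 804) (C.node (nat_lit 5) (nat_lit 9) (nat_lit 10) (C.cons (nat_lit 1568) (C.node (nat_lit 1) (nat_lit 8) (nat_lit 9) (C.cons (nat_lit 834) (C.miq (nat_lit 1904543378) (nat_lit 1588531570741286100153926221)) (C.cons (nat_lit 770) (C.node (nat_lit 3) (nat_lit 7) (nat_lit 9) (C.cons (nat_lit 680) (C.miq (nat_lit 1134036818) (nat_lit 938131545812129249184972965)) (C.cons (nat_lit 648) (C.node (nat_lit 4) (nat_lit 5) (nat_lit 8) (C.cons (nat_lit 432) (C.miq (nat_lit 1496809988) (nat_lit 783391900330027958757032213)) (C.cons (nat_lit 304) (C.node (nat_lit 4) (nat_lit 8) (nat_lit 9) (C.cons (nat_lit 848) (C.miq (nat_lit 308546185) (nat_lit 101559564358938481107404673)) (C.cons (nat_lit 784) (C.node (nat_lit 6) (nat_lit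 8) (nat_lit 9) (C.cons (nat_lit 832) (C.node (nat_lit 1) (nat_lit 2) (nat_lit 8) (C.cons (nat_lit 390) (C.node (nat_lit 1) (nat_lit 2) (nat_lit 9) (C.cons (nat_lit 518) (C.node (nat_lit 1) (nat_lit 4) (nat_lit 7) (C.cons (nat_lit 178) (C.miq (nat_lit 1919162533) (nat_lit 101553052477855001583093026)) (C.cons (nat_lit 146) (C.node (nat_lit 2) (nat_lit 7) (nat_lit 9) (C.cons (nat_lit 660) (C.miq (nat_lit 1500742208) (nat_lit 783389410019578312910242069)) (C.cons (nat_lit 644)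
  (C.node (nat_lit 4) (nat_lit 7) (nat_lit 8) (C.cons (nat_lit 464) (C.miq (nat_lit 1210738448) (nat_lit 1629652978919137999562670275)) (C.cons (nat_lit 400) (C.node (nat_lit 5) (nat_lit 6) (nat_lit 8) (C.cons (nat_lit 480) (C.miq (nat_lit 1479173904) (nat_lit 1629652978923641599190040771)) (C.cons (nat_lit 352) (C.node (nat_lit 5) (nat_lit 7) (nat_lit 8) (C.cons (nat_lit 416) (C.node (nat_lit 6) (nat_lit 7) (nat_lit 8) C.nil) C.nil)) C.nil))) C.nil))) C.nil))) C.nil))) C.nil)) (C.cons (nat_lit 262) (C.node (nat_lit 2) (nat_lit 7) (nat_lit 8) (C.cons (nat_lit 388) (C.node (nat_lit 1) (nat_lit 2) (nat_lit 9) (C.cons (nat_lit 646) (C.node (nat_lit 2) (nat_lit 4) (nat_lit 9) (C.cons (nat_lit 1556) (C.miq (nat_lit 1108781424) (nat_lit 84645781759013688313055105)) (C.cons (nat_lit 532) (C.node (nat_lit 2) (nat_lit 9) (nat_lit 10) (C.cons (nat_lit 1540) (C.node (nat_lit 2) (nat_lit 5) (nat_lit 10) C.nil) C.nil)) C.nil))) (C.cons (nat_lit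 518) (C.node (nat_lit 2) (nat_lit 7) (nat_lit 9) (C.cons (nat_lit 660) (C.miq (nat_lit 1500742208) (nat_lit 783389410019578312910242069)) (C.cons (nat_lit 644) (C.node (nat_lit 1) (nat_lit 6) (nat_lit 9) (C.cons (nat_lit 610) (C.node (nat_lit 2) (nat_lit 4) (nat_lit 9) C.nil) (C.cons (nat_lit 578) (C.node (nat_lit 1) (nat_lit 5) (nat_lit 6) (C.cons (nat_lit 106) (C.miq (nat_lit 2168038752) (nat_lit 1869034753689440874847339633)) C.nil)) C.nil))) C.nil))) C.nil))) C.nil)) C.nil))) C.nil)) C.nil))) C.nil))) C.nil))) C.nil))) C.nil)) (C.cons (nat_lit 292) (C.node (nat_lit 2) (nat_lit 8) (nat_lit 9) (C.cons (nat_lit 774) (C.miq (nat_lit 1176570505) (nat_lit 84634602914170020187998081)) (C.cons (nat_lit 772) (C.node (nat_lit 1) (nat_lit 2) (nat_lit 8) (C.cons (nat_lit 390) (C.node (nat_lit 1) (nat_lit 4) (nat_lit 7) (C.cons (nat_lit 178) (C.miq (nat_lit 1919162533) (nat_lit 101553052477855001583093026)) (C.cons (nat_lit 146) (C.node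 (nat_lit 4) (nat_lit 7) (nat_lit 8) (C.cons (nat_lit 464) (C.miq (nat_lit 1210738448) (nat_lit 1629652978919137999562670275)) (C.cons (nat_lit 432) (C.miq (nat_lit 1461340192) (nat_lit 1395121369904892740414931221)) (C.cons (nat_lit 400) (C.node (nat_lit 5) (nat_lit 7) (nat_lit 8) (C.cons (nat_lit 480) (C.miq (nat_lit 1479173904) (nat_lit 1629652978923641599190040771)) (C.cons (nat_lit 416) (C.node (nat_lit 5) (nat_lit 6) (nat_lit 8) (C.cons (nat_lit 864) (C.miq (nat_lit 358787216) (nat_lit 120911600924464742306482049)) (C.cons (nat_lit 352) (C.node (nat_lit 1) (nat_lit 2) (nat_lit 3) (C.cons (nat_lit 62) (C.miq (nat_lit 931217573) (nat_lit 471482213390911870282630257)) (C.cons (nat_lit 46) (C.miq (nat_lit 2048198962) (nat_lit 1588531571227114967923556941)) (C.cons (nat_lit 30) (C.miq (nat_lit 2316568882) (nat_lit 1259705814327272087872209485)) (C.cons (nat_lit 14) (C.node (nat_lit 1) (nat_lit 2) (nat_lit 4) (C.cons (nat_lit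 54) (C.miq (nat_lit 1901756992) (nat_lit 1588563963278763804532474133)) (C.cons (nat_lit 22) (C.node (nat_lit 1) (nat_lit 4) (nat_lit 5) (C.cons (nat_lit 58) (C.miq (nat_lit 931217573) (nat_lit 471482139603935575444423793)) (C.cons (nat_lit 50) (C.node (nat_lit 3) (nat_lit 7) (nat_lit 9) (C.cons (nat_lit 680) (C.miq (nat_lit 1377005737) (nat_lit 16937505307022730310846337)) (C.cons (nat_lit 648) (C.node (nat_lit 1) (nat_lit 2) (nat_lit 5) (C.cons (nat_lit 550) (C.node (nat_lit 1) (nat_lit 7) (nat_lit 9) (C.cons (nat_lit 642) (C.node (nat_lit 1) (nat_lit 3) (nat_lit 7) C.nil) C.nil)) (C.cons (nat_lit 38) (C.node (nat_lit 1) (nat_lit 2) (nat_lit 9) C.nil) C.nil))) C.nil))) C.nil))) C.nil))) C.nil))))) C.nil))) C.nil))) C.nil)))) C.nil))) (C.cons (nat_lit 262) (C.node (nat_lit 2) (nat_lit 7) (nat_lit 8) (C.cons (nat_lit 388) (C.node (nat_lit 1) (nat_lit 8) (nat_lit 9) (C.cons (nat_lit 834) (C.node (nat_lit 1) (nat_lit 5) (nat_lit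 6) (C.cons (nat_lit 106) (C.miq (nat_lit 2168038752) (nat_lit 1869034753689440874847339633)) (C.cons (nat_lit 98) (C.node (nat_lit 1) (nat_lit 7) (nat_lit 8) (C.cons (nat_lit 402)
  (C.miq (nat_lit 1217622368) (nat_lit 938129258485952039812399299)) (C.cons (nat_lit 394) (C.miq (nat_lit 1243022723) (nat_lit 1395103218507168037305188649)) (C.cons (nat_lit 386) (C.node (nat_lit 1) (nat_lit 3) (nat_lit 6) (C.cons (nat_lit 90) (C.miq (nat_lit 1199648918) (nat_lit 466647026621287417419792973)) (C.cons (nat_lit 74) (C.node (nat_lit 1) (nat_lit 4) (nat_lit 6) (C.cons (nat_lit 82) (C.node (nat_lit 1) (nat_lit 3) (nat_lit 8) (C.cons (nat_lit 282) (C.node (nat_lit 3) (nat_lit 4) (nat_lit 6) C.nil) C.nil)) C.nil)) C.nil))) C.nil)))) C.nil))) (C.cons (nat_lit 770) (C.node (nat_lit 6) (nat_lit 8) (nat_lit 9) (C.cons (nat_lit 864) (C.miq (nat_lit 358787216) (nat_lit 120911600924464742306482049)) (C.cons (nat_lit 848) (C.miq (nat_lit 308546185)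 (nat_lit 101559564358938481107404673)) (C.cons (nat_lit 832) (C.node (nat_lit 1) (nat_lit 6) (nat_lit 9) (C.cons (nat_lit 610) (C.node (nat_lit 3) (nat_lit 4) (nat_lit 9) (C.cons (nat_lit 568) (C.miq (nat_lit 1905460820) (nat_lit 1869002139530950222082999409)) (C.cons (nat_lit 536) (C.node (nat_lit 3) (nat_lit 5) (nat_lit 6) (C.cons (nat_lit 232) (C.miq (nat_lit 1497587975) (nat_lit 647988519129768354689646787)) (C.cons (nat_lit 104) (C.node (nat_lit 1) (nat_lit 2) (nat_lit 9) (C.cons (nat_lit 646) (C.node (nat_lit 3) (nat_lit 5) (nat_lit 9) (C.cons (nat_lit 680) (C.miq (nat_lit 889886497) (nat_lit 1374577175759575019508138630)) (C.cons (nat_lit 552) (C.node (nat_lit 3) (nat_lit 7) (nat_lit 9) (C.cons (nat_lit 648) (C.node (nat_lit 4) (nat_lit 6) (nat_lit 9) (C.cons (nat_lit 720) (C.miq (nat_lit 1192913184) (nat_lit 1395121369985958633219228237)) C.nil)) C.nil)) C.nil))) (C.cons (nat_lit 518) (C.node (nat_lit 1) (nat_lit 7) (nat_lit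 9) (C.cons (nat_lit 642) (C.node (nat_lit 1) (nat_lit 5) (nat_lit 7) (C.cons (nat_lit 178) (C.miq (nat_lit 957810260) (nat_lit 776133198710226588947055729)) (C.cons (nat_lit 170) (C.node (nat_lit 3) (nat_lit 5) (nat_lit 9) C.nil) C.nil))) C.nil)) C.nil))) C.nil))) C.nil))) (C.cons (nat_lit 578) (C.node (nat_lit 1) (nat_lit 5) (nat_lit 6) (C.cons (nat_lit 106) (C.miq (nat_lit 2168038752) (nat_lit 1869034753689440874847339633)) (C.cons (nat_lit 98) (C.node (nat_lit 3) (nat_lit 4) (nat_lit 9) (C.cons (nat_lit 568) (C.node (nat_lit 3) (nat_lit 7) (nat_lit 9) (C.cons (nat_lit 648) (C.node (nat_lit 4) (nat_lit 8) (nat_lit 9) (C.cons (nat_lit 784) (C.node (nat_lit 5) (nat_lit 8) (nat_lit 9) (C.cons (nat_lit 800) (C.node (nat_lit 2) (nat_lit 4) (nat_lit 5) C.nil) C.nil)) C.nil)) C.nil)) (C.cons (nat_lit 536) (C.node (nat_lit 3) (nat_lit 5) (nat_lit 6) (C.cons (nat_lit 232) (C.node (nat_lit 3) (nat_lit 5) (nat_lit 9) (C.cons (nat_lit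 552) (C.node (nat_lit 3) (nat_lit 7) (nat_lit 9) (C.cons (nat_lit 648) (C.node (nat_lit 1) (nat_lit 2) (nat_lit 3) (C.cons (nat_lit 142) (C.miq (nat_lit 1461347104) (nat_lit 1395121369848596679920910925)) (C.cons (nat_lit 62) (C.miq (nat_lit 2048198962) (nat_lit 1588531571227114967924605517)) (C.cons (nat_lit 46) (C.miq (nat_lit 2048198962) (nat_lit 1588531571227114967923556941)) (C.cons (nat_lit 30) (C.miq (nat_lit 2316568882) (nat_lit 1259705814327272087872209485)) C.nil))))) C.nil)) C.nil)) (C.cons (nat_lit 104) (C.node (nat_lit 1) (nat_lit 2) (nat_lit 3) (C.cons (nat_lit 142) (C.node (nat_lit 1) (nat_lit 2) (nat_lit 4) C.nil) (C.cons (nat_lit 62) (C.miq (nat_lit 2048198962) (nat_lit 1588531571227114967924605517)) (C.cons (nat_lit 46) (C.miq (nat_lit 2048198962) (nat_lit 1588531571227114967923556941)) (C.cons (nat_lit 30) (C.miq (nat_lit 2316568882) (nat_lit 1259705814327272087872209485)) C.nil))))) C.nil))) C.nil))) C.nil)))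 C.nil))) C.nil)))) C.nil))) C.nil)) C.nil))) C.nil))) C.nil))) C.nil)) C.nil))) C.nil))) (C.cons (nat_lit 1538) (C.node (nat_lit 2) (nat_lit 5) (nat_lit 8) (C.cons (nat_lit 804) (C.node (nat_lit 1) (nat_lit 8) (nat_lit 9) (C.cons (nat_lit 834) (C.miq (nat_lit 1904543378) (nat_lit 1588531570741286100153926221)) (C.cons (nat_lit 778) (C.miq (nat_lit 1780024707) (nat_lit 1859338776019601777782030633))
  (C.cons (nat_lit 770) (C.node (nat_lit 6) (nat_lit 8) (nat_lit 9) (C.cons (nat_lit 848) (C.miq (nat_lit 308546185) (nat_lit 101559564358938481107404673)) (C.cons (nat_lit 832) (C.node (nat_lit 1) (nat_lit 2) (nat_lit 8) (C.cons (nat_lit 390) (C.node (nat_lit 1) (nat_lit 2) (nat_lit 9) (C.cons (nat_lit 518) (C.node (nat_lit 4) (nat_lit 5) (nat_lit 8) (C.cons (nat_lit 432) (C.miq (nat_lit 1906672132) (nat_lit 1588536496076842247193166101)) (C.cons (nat_lit 304) (C.node (nat_lit 3) (nat_lit 8) (nat_lit 9) (C.cons (nat_lit 792) (C.miq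 (nat_lit 1954874258) (nat_lit 367516492918688504290214477)) (C.cons (nat_lit 776) (C.node (nat_lit 4) (nat_lit 8) (nat_lit 9) (C.cons (nat_lit 784) (C.node (nat_lit 2) (nat_lit 7) (nat_lit 9) (C.cons (nat_lit 660) (C.miq (nat_lit 1233351248) (nat_lit 938129258558572454935593125)) (C.cons (nat_lit 644) (C.node (nat_lit 4) (nat_lit 7) (nat_lit 8) (C.cons (nat_lit 464) (C.miq (nat_lit 1210738448) (nat_lit 1629652978919137999562670275)) (C.cons (nat_lit 400) (C.node (nat_lit 5) (nat_lit 6) (nat_lit 8) (C.cons (nat_lit 480) (C.miq (nat_lit 1479173904) (nat_lit 1629652978923641599190040771)) (C.cons (nat_lit 352) (C.node (nat_lit 5) (nat_lit 7) (nat_lit 8) (C.cons (nat_lit 416) (C.node (nat_lit 1) (nat_lit 4) (nat_lit 7) (C.cons (nat_lit 1170) (C.miq (nat_lit 941032868) (nat_lit 471483892085152367443575921)) (C.cons (nat_lit 178) (C.miq (nat_lit 1919162533) (nat_lit 101553052477855001583093026)) (C.cons (nat_lit 146) (C.node (nat_lit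 1) (nat_lit 2) (nat_lit 5) (C.cons (nat_lit 62) (C.miq (nat_lit 931217573) (nat_lit 471482213390911870282630257)) (C.cons (nat_lit 54) (C.miq (nat_lit 1901756992) (nat_lit 1588563963278763804532474133)) (C.cons (nat_lit 46) (C.miq (nat_lit 2555578898) (nat_lit 359061834098523353664848903)) (C.cons (nat_lit 38) (C.node (nat_lit 1) (nat_lit 4) (nat_lit 5) (C.cons (nat_lit 58) (C.miq (nat_lit 931217573) (nat_lit 471482139603935575444423793)) (C.cons (nat_lit 50) (C.node (nat_lit 2) (nat_lit 4) (nat_lit 5) (C.cons (nat_lit 60) (C.miq (nat_lit 2018773283) (nat_lit 367516272055407430090883661)) (C.cons (nat_lit 52) (C.node (nat_lit 6) (nat_lit 7) (nat_lit 8) C.nil) C.nil))) C.nil))) C.nil))))) C.nil)))) C.nil)) C.nil))) C.nil))) C.nil))) C.nil)) C.nil))) C.nil))) C.nil)) (C.cons (nat_lit 262) (C.node (nat_lit 2) (nat_lit 7) (nat_lit 8) (C.cons (nat_lit 388) (C.node (nat_lit 1) (nat_lit 2) (nat_lit 9) (C.cons (nat_lit 646) (C.node (nat_lit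 1) (nat_lit 3) (nat_lit 9) (C.cons (nat_lit 554) (C.miq (nat_lit 833000834) (nat_lit 1317740008668147996128707364)) (C.cons (nat_lit 522) (C.node (nat_lit 2) (nat_lit 4) (nat_lit 9) (C.cons (nat_lit 1556) (C.miq (nat_lit 1108781424) (nat_lit 84645781759013688313055105)) (C.cons (nat_lit 532) (C.node (nat_lit 2) (nat_lit 9) (nat_lit 10) (C.cons (nat_lit 1540) (C.node (nat_lit 3) (nat_lit 7) (nat_lit 9) (C.cons (nat_lit 680) (C.miq (nat_lit 1117194323) (nat_lit 780968901900865746168709417)) (C.cons (nat_lit 648) (C.node (nat_lit 3) (nat_lit 8) (nat_lit 9) (C.cons (nat_lit 792) (C.miq (nat_lit 1463361608) (nat_lit 783398762338958996028260629)) (C.cons (nat_lit 776) (C.node (nat_lit 4) (nat_lit 8) (nat_lit 9) (C.cons (nat_lit 784) (C.node (nat_lit 4) (nat_lit 5) (nat_lit 8) (C.cons (nat_lit 432) (C.miq (nat_lit 1496809988) (nat_lit 783391900330027958757032213)) (C.cons (nat_lit 304) (C.node (nat_lit 4) (nat_lit 6) (nat_lit 9) (C.cons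 (nat_lit 720) (C.miq (nat_lit 2792490129) (nat_lit 236968479557647453728932371)) (C.cons (nat_lit 592) (C.node (nat_lit 1) (nat_lit 6) (nat_lit 9) C.nil) C.nil))) C.nil))) C.nil)) C.nil))) C.nil))) C.nil)) C.nil))) C.nil))) (C.cons (nat_lit 518) (C.node (nat_lit 1) (nat_lit 6) (nat_lit 9) (C.cons (nat_lit 610) (C.node (nat_lit 1) (nat_lit 3) (nat_lit 9) (C.cons (nat_lit 650) (C.node (nat_lit 1) (nat_lit 2) (nat_lit 7) (C.cons (nat_lit 150) (C.miq (nat_lit 1366583600) (nat_lit 181359847061908711498383949)) (C.cons (nat_lit 134) (C.node (nat_lit 1) (nat_lit 5) (nat_lit 7) (C.cons (nat_lit 178)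
  (C.node (nat_lit 1) (nat_lit 7) (nat_lit 8) (C.cons (nat_lit 386) (C.node (nat_lit 1) (nat_lit 7) (nat_lit 10) (C.cons (nat_lit 1154) (C.node (nat_lit 1) (nat_lit 2) (nat_lit 4) (C.cons (nat_lit 30) (C.miq (nat_lit 2266237234) (nat_lit 215193906180228632635376205)) C.nil)) C.nil)) C.nil)) (C.cons (nat_lit 162) (C.miq (nat_lit 1159136915) (nat_lit 195848805449452872356463181)) C.nil))) C.nil))) (C.cons (nat_lit 522) (C.node (nat_lit 1) (nat_lit 7) (nat_lit 9) (C.cons (nat_lit 642) (C.node (nat_lit 2) (nat_lit 5) (nat_lit 10) (C.cons (nat_lit 1068) (C.node (nat_lit 5) (nat_lit 7) (nat_lit 10) (C.cons (nat_lit 1184) (C.node (nat_lit 5) (nat_lit 9) (nat_lit 10) (C.cons (nat_lit 1568) (C.node (nat_lit 2) (nat_lit 3) (nat_lit 7) (C.cons (nat_lit 142) (C.miq (nat_lit 329675344) (nat_lit 1324986295452701982633033893)) (C.cons (nat_lit 140) (C.node (nat_lit 2) (nat_lit 7) (nat_lit 9) (C.cons (nat_lit 660) (C.miq (nat_lit 1129476233)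 (nat_lit 1291144950242579553984972673)) (C.cons (nat_lit 644) (C.node (nat_lit 1) (nat_lit 2) (nat_lit 3) (C.cons (nat_lit 14) (C.node (nat_lit 2) (nat_lit 3) (nat_lit 4) C.nil) C.nil)) C.nil))) C.nil))) C.nil)) C.nil)) (C.cons (nat_lit 1060) (C.node (nat_lit 2) (nat_lit 7) (nat_lit 9) (C.cons (nat_lit 660) (C.node (nat_lit 2) (nat_lit 9) (nat_lit 10) (C.cons (nat_lit 1540) (C.node (nat_lit 4) (nat_lit 6) (nat_lit 9) (C.cons (nat_lit 592) (C.node (nat_lit 2) (nat_lit 3) (nat_lit 5) (C.cons (nat_lit 44) (C.miq (nat_lit 1129476233) (nat_lit 53204910957199279085848449)) C.nil)) C.nil)) C.nil)) (C.cons (nat_lit 644) (C.node (nat_lit 3) (nat_lit 7) (nat_lit 9) (C.cons (nat_lit 680) (C.miq (nat_lit 1117194323) (nat_lit 778551050261636487819297065)) (C.cons (nat_lit 648) (C.node (nat_lit 3) (nat_lit 8) (nat_lit 9) (C.cons (nat_lit 792) (C.miq (nat_lit 1463361608) (nat_lit 783398762338958996028260629)) (C.cons (nat_lit 776) (C.node (nat_lit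 4) (nat_lit 8) (nat_lit 9) (C.cons (nat_lit 784) (C.node (nat_lit 2) (nat_lit 4) (nat_lit 9) C.nil) C.nil)) C.nil))) C.nil))) C.nil))) C.nil))) C.nil)) C.nil))) (C.cons (nat_lit 578) (C.node (nat_lit 1) (nat_lit 5) (nat_lit 6) (C.cons (nat_lit 106) (C.miq (nat_lit 964780197) (nat_lit 930874836623933289737094257)) (C.cons (nat_lit 98) (C.node (nat_lit 2) (nat_lit 5) (nat_lit 10) (C.cons (nat_lit 1068) (C.node (nat_lit 5) (nat_lit 7) (nat_lit 10) (C.cons (nat_lit 1184) (C.node (nat_lit 5) (nat_lit 9) (nat_lit 10) (C.cons (nat_lit 1568) (C.node (nat_lit 2) (nat_lit 3) (nat_lit 7) (C.cons (nat_lit 142) (C.miq (nat_lit 329675344) (nat_lit 1324986295452701982633033893)) (C.cons (nat_lit 140) (C.node (nat_lit 2) (nat_lit 7) (nat_lit 9) (C.cons (nat_lit 660) (C.miq (nat_lit 1129476233) (nat_lit 1291144950242579553984972673)) (C.cons (nat_lit 644) (C.node (nat_lit 3) (nat_lit 5) (nat_lit 6) (C.cons (nat_lit 232) (C.miq (nat_lit 305597014)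 (nat_lit 169253212151347745850393713)) (C.cons (nat_lit 104) (C.node (nat_lit 1) (nat_lit 2) (nat_lit 3) (C.cons (nat_lit 14) (C.node (nat_lit 2) (nat_lit 3) (nat_lit 4) C.nil) C.nil)) C.nil))) C.nil))) C.nil))) C.nil)) C.nil)) (C.cons (nat_lit 1060) (C.node (nat_lit 2) (nat_lit 7) (nat_lit 9) (C.cons (nat_lit 660) (C.node (nat_lit 2) (nat_lit 9) (nat_lit 10) (C.cons (nat_lit 1540) (C.node (nat_lit 4) (nat_lit 6) (nat_lit 9) (C.cons (nat_lit 592) (C.node (nat_lit 4) (nat_lit 9) (nat_lit 10) (C.cons (nat_lit 1560) (C.miq (nat_lit 2202620018) (nat_lit 1885939109864655500277448869)) C.nil)) C.nil)) C.nil)) (C.cons (nat_lit 644) (C.node (nat_lit 3) (nat_lit 8) (nat_lit 9) (C.cons (nat_lit 792) (C.miq (nat_lit 1193881688) (nat_lit 778562837696193946634682665)) (C.cons (nat_lit 776) (C.node (nat_lit 4) (nat_lit 8) (nat_lit 9) (C.cons (nat_lit 784) (C.node (nat_lit 3) (nat_lit 5) (nat_lit 6) (C.cons (nat_lit 232) (C.node (nat_lit 5)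 (nat_lit 6) (nat_lit 8) C.nil) C.nil)) C.nil)) C.nil))) C.nil))) C.nil))) C.nil))) C.nil))) C.nil))) C.nil)) C.nil))) C.nil))) C.nil)))) (C.cons (nat_lit 292) (C.node (nat_lit 2) (nat_lit 8) (nat_lit 9) (C.cons (nat_lit 774)
  (C.miq (nat_lit 1176570505) (nat_lit 84634602914170020187998081)) (C.cons (nat_lit 772) (C.node (nat_lit 1) (nat_lit 2) (nat_lit 8) (C.cons (nat_lit 390) (C.node (nat_lit 1) (nat_lit 4) (nat_lit 7) (C.cons (nat_lit 1170) (C.miq (nat_lit 941032868) (nat_lit 471483892085152367443575921)) (C.cons (nat_lit 178) (C.miq (nat_lit 1919162533) (nat_lit 101553052477855001583093026)) (C.cons (nat_lit 146) (C.node (nat_lit 4) (nat_lit 7) (nat_lit 8) (C.cons (nat_lit 464) (C.miq (nat_lit 1210738448) (nat_lit 1629652978919137999562670275)) (C.cons (nat_lit 432) (C.miq (nat_lit 1906672132) (nat_lit 1588536496076842247193166101)) (C.cons (nat_lit 400) (C.node (nat_lit 5) (nat_lit 7) (nat_lit 8) (C.cons (nat_lit 480) (C.miq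 (nat_lit 1479173904) (nat_lit 1629652978923641599190040771)) (C.cons (nat_lit 416) (C.node (nat_lit 5) (nat_lit 6) (nat_lit 8) (C.cons (nat_lit 864) (C.miq (nat_lit 358787216) (nat_lit 120911600924464742306482049)) (C.cons (nat_lit 352) (C.node (nat_lit 1) (nat_lit 4) (nat_lit 5) (C.cons (nat_lit 62) (C.miq (nat_lit 931217573) (nat_lit 471482213390911870282630257)) (C.cons (nat_lit 58) (C.miq (nat_lit 931217573) (nat_lit 471482139603935575444423793)) (C.cons (nat_lit 54) (C.miq (nat_lit 1901756992) (nat_lit 1588563963278763804532474133)) (C.cons (nat_lit 50) (C.node (nat_lit 1) (nat_lit 2) (nat_lit 4) (C.cons (nat_lit 30) (C.node (nat_lit 1) (nat_lit 4) (nat_lit 10) (C.cons (nat_lit 1042) (C.node (nat_lit 1) (nat_lit 3) (nat_lit 10) (C.cons (nat_lit 1162) (C.miq (nat_lit 2268334610) (nat_lit 184970760689865102290977799)) (C.cons (nat_lit 1034) (C.node (nat_lit 1) (nat_lit 7) (nat_lit 10) (C.cons (nat_lit 1154) (C.node (nat_lit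 1) (nat_lit 4) (nat_lit 6) (C.cons (nat_lit 338) (C.miq (nat_lit 1384384278) (nat_lit 334893426027709135370453187)) (C.cons (nat_lit 82) (C.node (nat_lit 1) (nat_lit 4) (nat_lit 8) (C.cons (nat_lit 274) (C.node (nat_lit 3) (nat_lit 4) (nat_lit 6) C.nil) C.nil)) C.nil))) C.nil)) C.nil))) C.nil)) (C.cons (nat_lit 22) (C.node (nat_lit 1) (nat_lit 2) (nat_lit 3) (C.cons (nat_lit 46) (C.miq (nat_lit 2555578898) (nat_lit 359061834098523353664848903)) (C.cons (nat_lit 14) (C.node (nat_lit 1) (nat_lit 2) (nat_lit 5) (C.cons (nat_lit 550) (C.node (nat_lit 1) (nat_lit 5) (nat_lit 6) (C.cons (nat_lit 106) (C.miq (nat_lit 2585135187) (nat_lit 1317740009052924289210777897)) (C.cons (nat_lit 98) (C.node (nat_lit 1) (nat_lit 3) (nat_lit 5) (C.cons (nat_lit 170) (C.node (nat_lit 1) (nat_lit 7) (nat_lit 9) (C.cons (nat_lit 642) (C.node (nat_lit 1) (nat_lit 4) (nat_lit 8) (C.cons (nat_lit 346) (C.miq (nat_lit 1384384278) (nat_lit 334893426027709135370977475))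 (C.cons (nat_lit 338) (C.miq (nat_lit 1384384278) (nat_lit 334893426027709135370453187)) (C.cons (nat_lit 282) (C.miq (nat_lit 1367503680) (nat_lit 471484113410329497451167897)) C.nil)))) C.nil)) (C.cons (nat_lit 42) (C.node (nat_lit 1) (nat_lit 5) (nat_lit 7) C.nil) C.nil))) C.nil))) (C.cons (nat_lit 38) (C.node (nat_lit 1) (nat_lit 2) (nat_lit 9) (C.cons (nat_lit 518) (C.node (nat_lit 1) (nat_lit 4) (nat_lit 10) (C.cons (nat_lit 1050) (C.node (nat_lit 1) (nat_lit 4) (nat_lit 8) (C.cons (nat_lit 338) (C.miq (nat_lit 1384384278) (nat_lit 334893426027709135370453187)) C.nil)) (C.cons (nat_lit 1042) (C.node (nat_lit 1) (nat_lit 5) (nat_lit 6) (C.cons (nat_lit 98) (C.node (nat_lit 1) (nat_lit 6) (nat_lit 9) C.nil) C.nil)) C.nil))) C.nil)) C.nil))) C.nil))) C.nil))) C.nil))))) C.nil))) C.nil))) C.nil)))) C.nil)))) (C.cons (nat_lit 262) (C.node (nat_lit 2) (nat_lit 7) (nat_lit 8) (C.cons (nat_lit 388) (C.node (nat_lit 3) (nat_lit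 8) (nat_lit 10) (C.cons (nat_lit 1304) (C.node (nat_lit 1) (nat_lit 4) (nat_lit 10) (C.cons (nat_lit 1170) (C.miq (nat_lit 1366329923) (nat_lit 235746013877705725324100888)) (C.cons (nat_lit 1042) (C.node (nat_lit 3) (nat_lit 8) (nat_lit 9) (C.cons (nat_lit 778) (C.miq (nat_lit 1780024707) (nat_lit 1859338776019601777782030633)) (C.cons (nat_lit 776) (C.node (nat_lit 4) (nat_lit 7) (nat_lit 10) (C.cons (nat_lit 1172)
  (C.miq (nat_lit 713389104) (nat_lit 1588531571016289171001639065)) (C.cons (nat_lit 1168) (C.node (nat_lit 5) (nat_lit 7) (nat_lit 10) (C.cons (nat_lit 1192) (C.miq (nat_lit 1937922624) (nat_lit 323995163705016553791882353)) (C.cons (nat_lit 1184) (C.node (nat_lit 1) (nat_lit 3) (nat_lit 10) (C.cons (nat_lit 1162) (C.node (nat_lit 2) (nat_lit 3) (nat_lit 7) (C.cons (nat_lit 140) (C.node (nat_lit 2) (nat_lit 7) (nat_lit 10) (C.cons (nat_lit 1156) (C.node (nat_lit 3) (nat_lit 4) (nat_lit 6) (C.cons (nat_lit 90) (C.miq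 (nat_lit 2199364704) (nat_lit 1404807238954608453247763569)) (C.cons (nat_lit 88) (C.node (nat_lit 1) (nat_lit 2) (nat_lit 3) (C.cons (nat_lit 62) (C.miq (nat_lit 2167907648) (nat_lit 1404807238957423082753033329)) (C.cons (nat_lit 46) (C.miq (nat_lit 2555578898) (nat_lit 359061834098523353664848903)) (C.cons (nat_lit 30) (C.miq (nat_lit 1934139680) (nat_lit 1576474705299916091670463495)) (C.cons (nat_lit 14) (C.node (nat_lit 2) (nat_lit 3) (nat_lit 4) (C.cons (nat_lit 60) (C.miq (nat_lit 2200413264) (nat_lit 169285051308457307847066737)) C.nil)) C.nil))))) C.nil))) C.nil)) C.nil)) (C.cons (nat_lit 1034) (C.node (nat_lit 1) (nat_lit 7) (nat_lit 10) (C.cons (nat_lit 1154) (C.node (nat_lit 1) (nat_lit 8) (nat_lit 9) (C.cons (nat_lit 834) (C.node (nat_lit 1) (nat_lit 3) (nat_lit 8) (C.cons (nat_lit 394) (C.miq (nat_lit 413561664) (nat_lit 1629635602066521242402357401)) (C.cons (nat_lit 266) (C.node (nat_lit 1) (nat_lit 4) (nat_lit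 6) (C.cons (nat_lit 90) (C.miq (nat_lit 2016479814) (nat_lit 321577865673304764738831473)) (C.cons (nat_lit 82) (C.node (nat_lit 1) (nat_lit 3) (nat_lit 6) C.nil) C.nil))) C.nil))) (C.cons (nat_lit 770) (C.node (nat_lit 6) (nat_lit 8) (nat_lit 9) (C.cons (nat_lit 864) (C.miq (nat_lit 358787216) (nat_lit 120911600924464742306482049)) (C.cons (nat_lit 848) (C.miq (nat_lit 308546185) (nat_lit 101559564358938481107404673)) (C.cons (nat_lit 832) (C.node (nat_lit 1) (nat_lit 6) (nat_lit 9) (C.cons (nat_lit 610) (C.node (nat_lit 2) (nat_lit 4) (nat_lit 10) C.nil) (C.cons (nat_lit 578) (C.node (nat_lit 2) (nat_lit 4) (nat_lit 10) C.nil) C.nil))) C.nil)))) C.nil))) C.nil)) C.nil))) C.nil))) C.nil))) C.nil))) C.nil))) (C.cons (nat_lit 1288) (C.node (nat_lit 4) (nat_lit 8) (nat_lit 10) (C.cons (nat_lit 1296) (C.node (nat_lit 5) (nat_lit 7) (nat_lit 10) (C.cons (nat_lit 1192) (C.node (nat_lit 1) (nat_lit 7) (nat_lit 10) (C.cons (nat_lit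 1170) (C.miq (nat_lit 1098938963) (nat_lit 313114609961363600168256680)) (C.cons (nat_lit 1154) (C.node (nat_lit 2) (nat_lit 7) (nat_lit 10) (C.cons (nat_lit 1172) (C.miq (nat_lit 925391424) (nat_lit 469068697028989217481753713)) (C.cons (nat_lit 1156) (C.node (nat_lit 4) (nat_lit 7) (nat_lit 10) (C.cons (nat_lit 1168) (C.node (nat_lit 3) (nat_lit 5) (nat_lit 6) (C.cons (nat_lit 106) (C.miq (nat_lit 2585135187) (nat_lit 1317740009052924289210777897)) (C.cons (nat_lit 104) (C.node (nat_lit 2) (nat_lit 3) (nat_lit 5) (C.cons (nat_lit 62) (C.miq (nat_lit 1932043584) (nat_lit 324027556187604653415138417)) (C.cons (nat_lit 60) (C.miq (nat_lit 1932043584) (nat_lit 324027556187604644825203825)) (C.cons (nat_lit 46) (C.miq (nat_lit 2555578898) (nat_lit 359061834098523353664848903)) (C.cons (nat_lit 44) (C.node (nat_lit 1) (nat_lit 3) (nat_lit 10) (C.cons (nat_lit 1050) (C.node (nat_lit 2) (nat_lit 3) (nat_lit 4) (C.cons (nat_lit 28)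 (C.node (nat_lit 1) (nat_lit 2) (nat_lit 3) (C.cons (nat_lit 142) (C.miq (nat_lit 1131782432) (nat_lit 1441060551224199119452308487)) C.nil)) C.nil)) (C.cons (nat_lit 1034) (C.node (nat_lit 1) (nat_lit 4) (nat_lit 10) C.nil) C.nil))) C.nil))))) C.nil))) C.nil)) C.nil))) C.nil))) (C.cons (nat_lit 1184) (C.node (nat_lit 1) (nat_lit 5) (nat_lit 6) (C.cons (nat_lit 610) (C.node (nat_lit 1) (nat_lit 8) (nat_lit 9) (C.cons (nat_lit 778) (C.miq (nat_lit 911315112) (nat_lit 737459101697606787348432769)) (C.cons (nat_lit 770) (C.node (nat_lit 6) (nat_lit 8) (nat_lit 9) (C.cons (nat_lit 848) (C.miq (nat_lit 308546185) (nat_lit 101559564358938481107404673))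
  (C.cons (nat_lit 832) (C.node (nat_lit 1) (nat_lit 2) (nat_lit 9) (C.cons (nat_lit 646) (C.node (nat_lit 1) (nat_lit 3) (nat_lit 9) (C.cons (nat_lit 522) (C.node (nat_lit 4) (nat_lit 6) (nat_lit 9) (C.cons (nat_lit 720) (C.miq (nat_lit 2792490129) (nat_lit 236968479557647453728932371)) (C.cons (nat_lit 592) (C.node (nat_lit 6) (nat_lit 7) (nat_lit 9) (C.cons (nat_lit 704) (C.node (nat_lit 2) (nat_lit 9) (nat_lit 10) (C.cons (nat_lit 1572) (C.miq (nat_lit 1377216880) (nat_lit 84645781763517287940425601)) (C.cons (nat_lit 1556) (C.miq (nat_lit 1108781424) (nat_lit 84645781759013688313055105)) C.nil))) C.nil)) C.nil))) C.nil)) (C.cons (nat_lit 518) (C.node (nat_lit 1) (nat_lit 3) (nat_lit 9) (C.cons (nat_lit 650) (C.node (nat_lit 1) (nat_lit 2) (nat_lit 7) (C.cons (nat_lit 150) (C.miq (nat_lit 1366583600) (nat_lit 181359847061908711498383949)) (C.cons (nat_lit 134) (C.node (nat_lit 1) (nat_lit 5) (nat_lit 7) (C.cons (nat_lit 178)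 (C.node (nat_lit 1) (nat_lit 7) (nat_lit 8) C.nil) (C.cons (nat_lit 162) (C.miq (nat_lit 1159136915) (nat_lit 195848805449452872356463181)) C.nil))) C.nil))) (C.cons (nat_lit 522) (C.node (nat_lit 1) (nat_lit 7) (nat_lit 9) (C.cons (nat_lit 642) (C.node (nat_lit 3) (nat_lit 8) (nat_lit 9) (C.cons (nat_lit 792) (C.node (nat_lit 5) (nat_lit 8) (nat_lit 9) C.nil) C.nil)) C.nil)) C.nil))) C.nil))) C.nil))) C.nil))) (C.cons (nat_lit 106) (C.miq (nat_lit 2585135187) (nat_lit 1317740009052924289210777897)) (C.cons (nat_lit 98) (C.node (nat_lit 1) (nat_lit 6) (nat_lit 9) (C.cons (nat_lit 834) (C.node (nat_lit 1) (nat_lit 3) (nat_lit 6) (C.cons (nat_lit 90) (C.node (nat_lit 1) (nat_lit 3) (nat_lit 8) (C.cons (nat_lit 394) (C.miq (nat_lit 1362405488) (nat_lit 108824298083188245108688769)) (C.cons (nat_lit 266) (C.node (nat_lit 1) (nat_lit 4) (nat_lit 8) (C.cons (nat_lit 402) (C.node (nat_lit 3) (nat_lit 6) (nat_lit 8) (C.cons (nat_lit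 328) (C.miq (nat_lit 1936212113) (nat_lit 396535084467784201770500627)) C.nil)) (C.cons (nat_lit 274) (C.miq (nat_lit 2014579043) (nat_lit 331248497466968683700683341)) C.nil))) C.nil))) (C.cons (nat_lit 74) (C.node (nat_lit 1) (nat_lit 4) (nat_lit 6) (C.cons (nat_lit 82) (C.node (nat_lit 3) (nat_lit 4) (nat_lit 6) (C.cons (nat_lit 344) (C.node (nat_lit 3) (nat_lit 8) (nat_lit 9) (C.cons (nat_lit 776) (C.node (nat_lit 1) (nat_lit 3) (nat_lit 8) (C.cons (nat_lit 266) (C.node (nat_lit 3) (nat_lit 7) (nat_lit 8) C.nil) C.nil)) C.nil)) (C.cons (nat_lit 88) (C.node (nat_lit 3) (nat_lit 6) (nat_lit 8) (C.cons (nat_lit 456) (C.miq (nat_lit 372545648) (nat_lit 106395267581942596237854593)) (C.cons (nat_lit 328) (C.node (nat_lit 3) (nat_lit 8) (nat_lit 9) (C.cons (nat_lit 792) (C.miq (nat_lit 1938162833) (nat_lit 396531265991761815771677203)) (C.cons (nat_lit 776) (C.node (nat_lit 4) (nat_lit 6) (nat_lit 8) (C.cons (nat_lit 464) (C.node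 (nat_lit 5) (nat_lit 6) (nat_lit 8) C.nil) C.nil)) C.nil))) C.nil))) C.nil))) C.nil)) C.nil))) (C.cons (nat_lit 578) (C.node (nat_lit 1) (nat_lit 8) (nat_lit 9) (C.cons (nat_lit 778) (C.miq (nat_lit 911315112) (nat_lit 118489082054916649898870657)) (C.cons (nat_lit 770) (C.node (nat_lit 6) (nat_lit 8) (nat_lit 9) (C.cons (nat_lit 864) (C.miq (nat_lit 358787216) (nat_lit 120911600924464742306482049)) (C.cons (nat_lit 848) (C.miq (nat_lit 308546185) (nat_lit 101559564358938481107404673)) (C.cons (nat_lit 832) (C.node (nat_lit 3) (nat_lit 5) (nat_lit 6) (C.cons (nat_lit 232) (C.node (nat_lit 5) (nat_lit 6) (nat_lit 8) (C.cons (nat_lit 352) (C.node (nat_lit 6) (nat_lit 7) (nat_lit 8) C.nil) C.nil)) (C.cons (nat_lit 104) (C.node (nat_lit 3) (nat_lit 6) (nat_lit 7) (C.cons (nat_lit 456) (C.node (nat_lit 5) (nat_lit 6) (nat_lit 8) (C.cons (nat_lit 352) (C.node (nat_lit 1) (nat_lit 3) (nat_lit 6) C.nil) C.nil)) (C.cons (nat_lit 200)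 (C.node (nat_lit 3) (nat_lit 7) (nat_lit 8) (C.cons (nat_lit 394) (C.node (nat_lit 1) (nat_lit 6) (nat_lit 8) (C.cons (nat_lit 338) (C.node (nat_lit 1) (nat_lit 3) (nat_lit 6) C.nil) C.nil)) (C.cons (nat_lit 392)
  (C.node (nat_lit 1) (nat_lit 7) (nat_lit 8) (C.cons (nat_lit 402) (C.node (nat_lit 1) (nat_lit 3) (nat_lit 8) C.nil) C.nil)) C.nil))) C.nil))) C.nil))) C.nil)))) C.nil))) C.nil))) C.nil)))) C.nil))) C.nil)) C.nil))) C.nil)) C.nil))) C.nil))) C.nil))) C.nil))) C.nil))))) (C.cons (nat_lit 1312) (C.node (nat_lit 4) (nat_lit 6) (nat_lit 9) (C.cons (nat_lit 848) (C.miq (nat_lit 308546185) (nat_lit 101559564358938481107404673)) (C.cons (nat_lit 720) (C.node (nat_lit 2) (nat_lit 7) (nat_lit 9) (C.cons (nat_lit 646) (C.miq (nat_lit 2792490129) (nat_lit 236968479557647453728932371)) (C.cons (nat_lit 644) (C.ref (nat_lit 142) (nat_lit 7306967418640)) C.nil))) (C.cons (nat_lit 592) (C.node (nat_lit 4) (nat_lit 6) (nat_lit 7)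 (C.cons (nat_lit 464) (C.node (nat_lit 2) (nat_lit 7) (nat_lit 8) (C.cons (nat_lit 398) (C.miq (nat_lit 1176701575) (nat_lit 712060130424902699625351041)) (C.cons (nat_lit 396) (C.miq (nat_lit 1176701575) (nat_lit 712060130424902699625219969)) (C.cons (nat_lit 390) (C.miq (nat_lit 1210738448) (nat_lit 1629652978919137999562670275)) (C.cons (nat_lit 388) (C.node (nat_lit 1) (nat_lit 4) (nat_lit 6) (C.cons (nat_lit 90) (C.node (nat_lit 3) (nat_lit 6) (nat_lit 8) (C.cons (nat_lit 328) (C.node (nat_lit 3) (nat_lit 7) (nat_lit 8) (C.cons (nat_lit 394) (C.miq (nat_lit 2171237184) (nat_lit 1317764579686212923923955865)) (C.cons (nat_lit 392) (C.node (nat_lit 1) (nat_lit 4) (nat_lit 10) (C.cons (nat_lit 1298) (C.miq (nat_lit 2525233825) (nat_lit 560951375688085627819131911)) (C.cons (nat_lit 1170) (C.miq (nat_lit 2585134915) (nat_lit 1317740009052923670734438553)) (C.cons (nat_lit 1042) (C.node (nat_lit 4) (nat_lit 8) (nat_lit 10) (C.cons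 (nat_lit 1304) (C.miq (nat_lit 394485924) (nat_lit 473900581550797141520680049)) (C.cons (nat_lit 1296) (C.node (nat_lit 3) (nat_lit 4) (nat_lit 8) (C.cons (nat_lit 792) (C.miq (nat_lit 394551443) (nat_lit 560943240563050442065969741)) (C.cons (nat_lit 280) (C.node (nat_lit 3) (nat_lit 8) (nat_lit 9) (C.cons (nat_lit 778) (C.miq (nat_lit 2169148256) (nat_lit 1259736140452797114594951757)) (C.cons (nat_lit 776) (C.node (nat_lit 1) (nat_lit 4) (nat_lit 8) (C.cons (nat_lit 306) (C.node (nat_lit 1) (nat_lit 7) (nat_lit 8) (C.cons (nat_lit 386) (C.node (nat_lit 4) (nat_lit 8) (nat_lit 9) (C.cons (nat_lit 784) (C.node (nat_lit 5) (nat_lit 7) (nat_lit 8) (C.cons (nat_lit 416) (C.node (nat_lit 1) (nat_lit 5) (nat_lit 6) (C.cons (nat_lit 610) (C.miq (nat_lit 2187673745) (nat_lit 120898226743120570917978643)) (C.cons (nat_lit 98) (C.node (nat_lit 1) (nat_lit 6) (nat_lit 8) (C.cons (nat_lit 834) (C.miq (nat_lit 2014579043) (nat_lit 369934123694636817291280973))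 C.nil)) C.nil))) C.nil)) C.nil)) C.nil)) (C.cons (nat_lit 274) (C.node (nat_lit 1) (nat_lit 7) (nat_lit 8) (C.cons (nat_lit 418) (C.node (nat_lit 1) (nat_lit 6) (nat_lit 8) (C.cons (nat_lit 834) (C.miq (nat_lit 1382117528) (nat_lit 84632518158492753769662337)) (C.cons (nat_lit 322) (C.node (nat_lit 5) (nat_lit 6) (nat_lit 8) (C.cons (nat_lit 864) (C.node (nat_lit 1) (nat_lit 5) (nat_lit 6) C.nil) C.nil)) C.nil))) (C.cons (nat_lit 386) (C.node (nat_lit 5) (nat_lit 7) (nat_lit 8) (C.cons (nat_lit 416) (C.node (nat_lit 1) (nat_lit 8) (nat_lit 10) (C.cons (nat_lit 1290) (C.node (nat_lit 2) (nat_lit 3) (nat_lit 8) (C.cons (nat_lit 268) (C.node (nat_lit 4) (nat_lit 5) (nat_lit 8) (C.cons (nat_lit 304) (C.node (nat_lit 4) (nat_lit 8) (nat_lit 9) C.nil) C.nil)) C.nil)) (C.cons (nat_lit 1282) (C.node (nat_lit 3) (nat_lit 8) (nat_lit 10) (C.cons (nat_lit 1288) (C.node (nat_lit 1) (nat_lit 5) (nat_lit 6) C.nil) C.nil)) C.nil))) C.nil))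 C.nil))) C.nil))) C.nil))) C.nil))) C.nil))) C.nil)))) C.nil))) C.nil)) (C.cons (nat_lit 82) (C.node (nat_lit 3) (nat_lit 4) (nat_lit 6) (C.cons (nat_lit 88) (C.node (nat_lit 2) (nat_lit 3) (nat_lit 8) (C.cons (nat_lit 270) (C.node (nat_lit 3) (nat_lit 6) (nat_lit 8) (C.cons (nat_lit 328) (C.node (nat_lit 3) (nat_lit 7) (nat_lit 8) (C.cons (nat_lit 392) (C.node (nat_lit 1) (nat_lit 3) (nat_lit 6) (C.cons (nat_lit 106)
  (C.miq (nat_lit 560235344) (nat_lit 99137027032506708924629289)) (C.cons (nat_lit 74) (C.node (nat_lit 1) (nat_lit 8) (nat_lit 10) (C.cons (nat_lit 1298) (C.miq (nat_lit 2457929380) (nat_lit 326419766682847567926133873)) (C.cons (nat_lit 1282) (C.node (nat_lit 1) (nat_lit 4) (nat_lit 8) (C.cons (nat_lit 306) (C.miq (nat_lit 1362511904) (nat_lit 89481484685626869241676053)) (C.cons (nat_lit 274) (C.node (nat_lit 1) (nat_lit 7) (nat_lit 8) (C.cons (nat_lit 418) (C.node (nat_lit 1) (nat_lit 6) (nat_lit 8) (C.cons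 (nat_lit 834) (C.miq (nat_lit 1382117528) (nat_lit 84632518158492753769662337)) (C.cons (nat_lit 322) (C.node (nat_lit 1) (nat_lit 8) (nat_lit 9) C.nil) C.nil))) (C.cons (nat_lit 386) (C.node (nat_lit 5) (nat_lit 7) (nat_lit 8) (C.cons (nat_lit 416) (C.node (nat_lit 4) (nat_lit 5) (nat_lit 8) (C.cons (nat_lit 816) (C.node (nat_lit 1) (nat_lit 6) (nat_lit 8) C.nil) (C.cons (nat_lit 304) (C.node (nat_lit 4) (nat_lit 8) (nat_lit 10) (C.cons (nat_lit 1304) (C.node (nat_lit 1) (nat_lit 6) (nat_lit 8) C.nil) (C.cons (nat_lit 1296) (C.node (nat_lit 3) (nat_lit 8) (nat_lit 10) C.nil) C.nil))) C.nil))) C.nil)) C.nil))) C.nil))) C.nil))) C.nil))) C.nil)) C.nil)) (C.cons (nat_lit 268) (C.node (nat_lit 3) (nat_lit 6) (nat_lit 7) (C.cons (nat_lit 232) (C.node (nat_lit 6) (nat_lit 7) (nat_lit 9) (C.cons (nat_lit 704) (C.node (nat_lit 1) (nat_lit 3) (nat_lit 6) (C.cons (nat_lit 330) (C.node (nat_lit 3) (nat_lit 7) (nat_lit 8) (C.cons (nat_lit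 392) (C.node (nat_lit 1) (nat_lit 7) (nat_lit 8) (C.cons (nat_lit 418) (C.miq (nat_lit 1479700832) (nat_lit 323995163487150738540134595)) (C.cons (nat_lit 386) (C.node (nat_lit 5) (nat_lit 7) (nat_lit 8) (C.cons (nat_lit 416) (C.node (nat_lit 1) (nat_lit 8) (nat_lit 10) (C.cons (nat_lit 1298) (C.miq (nat_lit 2525233825) (nat_lit 560951375688085627819131911)) (C.cons (nat_lit 1282) (C.node (nat_lit 1) (nat_lit 4) (nat_lit 8) (C.cons (nat_lit 306) (C.node (nat_lit 1) (nat_lit 2) (nat_lit 8) C.nil) C.nil)) C.nil))) C.nil)) C.nil))) C.nil)) (C.cons (nat_lit 74) (C.node (nat_lit 3) (nat_lit 6) (nat_lit 8) (C.cons (nat_lit 328) (C.node (nat_lit 3) (nat_lit 7) (nat_lit 8) (C.cons (nat_lit 394) (C.node (nat_lit 3) (nat_lit 7) (nat_lit 9) (C.cons (nat_lit 648) (C.node (nat_lit 5) (nat_lit 7) (nat_lit 8) (C.cons (nat_lit 416) (C.node (nat_lit 1) (nat_lit 8) (nat_lit 10) (C.cons (nat_lit 1298) (C.miq (nat_lit 2525233825) (nat_lit 560951375688085627819131911))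 (C.cons (nat_lit 1282) (C.node (nat_lit 3) (nat_lit 8) (nat_lit 10) (C.cons (nat_lit 1304) (C.miq (nat_lit 1125558384) (nat_lit 89481484966539428549035905)) (C.cons (nat_lit 1288) (C.node (nat_lit 4) (nat_lit 8) (nat_lit 10) (C.cons (nat_lit 1296) (C.node (nat_lit 2) (nat_lit 3) (nat_lit 7) C.nil) C.nil)) C.nil))) C.nil))) C.nil)) C.nil)) (C.cons (nat_lit 392) (C.node (nat_lit 1) (nat_lit 7) (nat_lit 8) (C.cons (nat_lit 418) (C.node (nat_lit 1) (nat_lit 5) (nat_lit 6) (C.cons (nat_lit 610) (C.miq (nat_lit 1096223075) (nat_lit 505333815100224105167192653)) C.nil)) (C.cons (nat_lit 386) (C.node (nat_lit 5) (nat_lit 7) (nat_lit 8) (C.cons (nat_lit 416) (C.node (nat_lit 5) (nat_lit 7) (nat_lit 10) (C.cons (nat_lit 1186) (C.node (nat_lit 1) (nat_lit 3) (nat_lit 7) (C.cons (nat_lit 650) (C.miq (nat_lit 1446092951) (nat_lit 89482388809993556754827137)) (C.cons (nat_lit 142) (C.miq (nat_lit 832972624) (nat_lit 1317740008552179755954274469))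 (C.cons (nat_lit 138) (C.miq (nat_lit 561187414) (nat_lit 166842628529284035870458993)) C.nil)))) (C.cons (nat_lit 1184) (C.node (nat_lit 3) (nat_lit 7) (nat_lit 9) (C.cons (nat_lit 650) (C.node (nat_lit 1) (nat_lit 5) (nat_lit 7) (C.cons (nat_lit 178) (C.node (nat_lit 1) (nat_lit 2) (nat_lit 7) C.nil) (C.cons (nat_lit 162) (C.miq (nat_lit 1098189110) (nat_lit 195866956875047738439893581)) C.nil))) (C.cons (nat_lit 648) (C.node (nat_lit 1) (nat_lit 6) (nat_lit 8) (C.cons (nat_lit 866) (C.node (nat_lit 1) (nat_lit 2) (nat_lit 8) C.nil) C.nil)) C.nil))) C.nil))) C.nil)) C.nil))) C.nil))) C.nil)) C.nil))) C.nil))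
  (C.cons (nat_lit 200) (C.node (nat_lit 3) (nat_lit 5) (nat_lit 6) (C.cons (nat_lit 106) (C.node (nat_lit 3) (nat_lit 6) (nat_lit 8) (C.cons (nat_lit 328) (C.node (nat_lit 3) (nat_lit 7) (nat_lit 8) (C.cons (nat_lit 394) (C.miq (nat_lit 2822047510) (nat_lit 359071942914271795133153475)) (C.cons (nat_lit 392) (C.node (nat_lit 1) (nat_lit 7) (nat_lit 8) (C.cons (nat_lit 418) (C.miq (nat_lit 2555578134) (nat_lit 359061834098519505378083011)) (C.cons (nat_lit 386) (C.node (nat_lit 5) (nat_lit 7) (nat_lit 8) (C.cons (nat_lit 416) (C.node (nat_lit 1) (nat_lit 6) (nat_lit 8) (C.cons (nat_lit 834) (C.node (nat_lit 5) (nat_lit 6) (nat_lit 8) C.nil) (C.cons (nat_lit 322) (C.node (nat_lit 1) (nat_lit 6) (nat_lit 9) C.nil) C.nil))) C.nil)) C.nil))) C.nil))) C.nil)) (C.cons (nat_lit 104) (C.node (nat_lit 1) (nat_lit 3) (nat_lit 6) (C.cons (nat_lit 330) (C.node (nat_lit 3) (nat_lit 7) (nat_lit 8) (C.cons (nat_lit 392) (C.node (nat_lit 1)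 (nat_lit 7) (nat_lit 8) (C.cons (nat_lit 418) (C.miq (nat_lit 1479700832) (nat_lit 323995163487150738540134595)) (C.cons (nat_lit 386) (C.node (nat_lit 5) (nat_lit 7) (nat_lit 8) (C.cons (nat_lit 416) (C.node (nat_lit 1) (nat_lit 8) (nat_lit 10) (C.cons (nat_lit 1298) (C.miq (nat_lit 2525233825) (nat_lit 560951375688085627819131911)) (C.cons (nat_lit 1282) (C.node (nat_lit 1) (nat_lit 4) (nat_lit 8) (C.cons (nat_lit 306) (C.node (nat_lit 5) (nat_lit 6) (nat_lit 8) (C.cons (nat_lit 352) (C.node (nat_lit 6) (nat_lit 8) (nat_lit 9) C.nil) C.nil)) (C.cons (nat_lit 274) (C.node (nat_lit 1) (nat_lit 5) (nat_lit 6) (C.cons (nat_lit 98) (C.node (nat_lit 1) (nat_lit 6) (nat_lit 9) C.nil) C.nil)) C.nil))) C.nil))) C.nil)) C.nil))) C.nil)) (C.cons (nat_lit 74) (C.node (nat_lit 3) (nat_lit 6) (nat_lit 8) C.nil) C.nil))) C.nil))) C.nil))) C.nil))) C.nil)) C.nil))) C.nil))))) (C.cons (nat_lit 208) (C.node (nat_lit 6) (nat_lit 7) (nat_lit 9)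 (C.cons (nat_lit 736) (C.node (nat_lit 1) (nat_lit 6) (nat_lit 9) (C.cons (nat_lit 834) (C.node (nat_lit 5) (nat_lit 6) (nat_lit 8) (C.cons (nat_lit 352) (C.node (nat_lit 2) (nat_lit 8) (nat_lit 9) (C.cons (nat_lit 804) (C.miq (nat_lit 2164430453) (nat_lit 1246417351439668909707690720)) (C.cons (nat_lit 772) (C.node (nat_lit 5) (nat_lit 7) (nat_lit 8) (C.cons (nat_lit 434) (C.miq (nat_lit 1382117528) (nat_lit 84632813306397933122488193)) (C.cons (nat_lit 432) (C.miq (nat_lit 643041656) (nat_lit 1374553766815733711593539457)) (C.cons (nat_lit 418) (C.miq (nat_lit 1382117528) (nat_lit 84632518158492753769662337)) (C.cons (nat_lit 416) (C.node (nat_lit 1) (nat_lit 4) (nat_lit 6) (C.cons (nat_lit 90) (C.node (nat_lit 1) (nat_lit 5) (nat_lit 6) (C.cons (nat_lit 98) (C.node (nat_lit 3) (nat_lit 5) (nat_lit 6) (C.cons (nat_lit 104) (C.node (nat_lit 4) (nat_lit 6) (nat_lit 8) (C.cons (nat_lit 336) (C.node (nat_lit 3) (nat_lit 6) (nat_lit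 7) (C.cons (nat_lit 456) (C.node (nat_lit 2) (nat_lit 7) (nat_lit 8) (C.cons (nat_lit 390) (C.miq (nat_lit 1099368803) (nat_lit 471483892151015450362774093)) (C.cons (nat_lit 388) (C.node (nat_lit 1) (nat_lit 7) (nat_lit 8) (C.cons (nat_lit 402) (C.node (nat_lit 1) (nat_lit 4) (nat_lit 10) (C.cons (nat_lit 1042) (C.node (nat_lit 4) (nat_lit 5) (nat_lit 7) (C.cons (nat_lit 176) (C.node (nat_lit 3) (nat_lit 7) (nat_lit 9) (C.cons (nat_lit 650) (C.miq (nat_lit 588515704) (nat_lit 108808433679216596307019649)) (C.cons (nat_lit 648) (C.node (nat_lit 1) (nat_lit 7) (nat_lit 9) (C.cons (nat_lit 646) (C.miq (nat_lit 2794521970) (nat_lit 1008263152471780935910949029)) (C.cons (nat_lit 642) (C.node (nat_lit 1) (nat_lit 2) (nat_lit 7) (C.cons (nat_lit 142) (C.miq (nat_lit 1410795058) (nat_lit 485991223517890525384278605)) C.nil)) C.nil))) C.nil))) C.nil)) C.nil)) (C.cons (nat_lit 386) (C.miq (nat_lit 1099368803) (nat_lit 466648188872556933663949389))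 C.nil))) C.nil))) C.nil)) C.nil)) C.nil)) C.nil)) (C.cons (nat_lit 82) (C.node (nat_lit 3) (nat_lit 6) (nat_lit 7) (C.cons (nat_lit 456) (C.miq (nat_lit 873885848) (nat_lit 99140328966765156000466817))
  (C.cons (nat_lit 200) (C.node (nat_lit 6) (nat_lit 7) (nat_lit 8) (C.cons (nat_lit 448) (C.node (nat_lit 1) (nat_lit 3) (nat_lit 6) (C.cons (nat_lit 106) (C.node (nat_lit 3) (nat_lit 4) (nat_lit 6) (C.cons (nat_lit 344) (C.node (nat_lit 3) (nat_lit 8) (nat_lit 9) (C.cons (nat_lit 776) (C.node (nat_lit 4) (nat_lit 7) (nat_lit 8) (C.cons (nat_lit 402) (C.miq (nat_lit 907282823) (nat_lit 99134739726035213198952321)) (C.cons (nat_lit 400) (C.node (nat_lit 4) (nat_lit 8) (nat_lit 10) (C.cons (nat_lit 1298) (C.miq (nat_lit 672754240) (nat_lit 1008254999070293990139167857)) C.nil)) C.nil))) C.nil)) C.nil)) C.nil)) C.nil)) C.nil))) C.nil))) C.nil))))) C.nil))) C.nil)) (C.cons (nat_lit 578) (C.node (nat_lit 6) (nat_lit 8) (nat_lit 9)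 (C.cons (nat_lit 832) (C.node (nat_lit 3) (nat_lit 5) (nat_lit 6) (C.cons (nat_lit 106) (C.node (nat_lit 5) (nat_lit 6) (nat_lit 8) (C.cons (nat_lit 352) (C.node (nat_lit 2) (nat_lit 3) (nat_lit 8) (C.cons (nat_lit 398) (C.miq (nat_lit 1176701575) (nat_lit 712060130424902699625351041)) (C.cons (nat_lit 396) (C.miq (nat_lit 1176701575) (nat_lit 712060130424902699625219969)) (C.cons (nat_lit 270) (C.miq (nat_lit 1108740149) (nat_lit 84645781399005578186588457)) (C.cons (nat_lit 268) (C.node (nat_lit 5) (nat_lit 7) (nat_lit 8) (C.cons (nat_lit 434) (C.miq (nat_lit 643041656) (nat_lit 1374553766815733711593670529)) (C.cons (nat_lit 432) (C.miq (nat_lit 643041656) (nat_lit 1374553766815733711593539457)) (C.cons (nat_lit 418) (C.miq (nat_lit 2555578134) (nat_lit 359061834098519505378083011)) (C.cons (nat_lit 416) (C.node (nat_lit 1) (nat_lit 4) (nat_lit 6) (C.cons (nat_lit 338) (C.node (nat_lit 3) (nat_lit 4) (nat_lit 6) (C.cons (nat_lit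 88) (C.node (nat_lit 4) (nat_lit 7) (nat_lit 8) (C.cons (nat_lit 400) (C.node (nat_lit 3) (nat_lit 6) (nat_lit 7) (C.cons (nat_lit 456) (C.node (nat_lit 1) (nat_lit 7) (nat_lit 8) (C.cons (nat_lit 390) (C.miq (nat_lit 1384384278) (nat_lit 334893426027709135370453187)) (C.cons (nat_lit 386) (C.node (nat_lit 2) (nat_lit 7) (nat_lit 8) C.nil) C.nil))) C.nil)) C.nil)) C.nil)) (C.cons (nat_lit 82) (C.node (nat_lit 1) (nat_lit 6) (nat_lit 8) C.nil) C.nil))) C.nil))))) C.nil))))) C.nil)) (C.cons (nat_lit 104) (C.node (nat_lit 1) (nat_lit 5) (nat_lit 6) (C.cons (nat_lit 354) (C.node (nat_lit 5) (nat_lit 7) (nat_lit 8) (C.cons (nat_lit 432) (C.miq (nat_lit 643041656) (nat_lit 1374553766815733711593539457)) (C.cons (nat_lit 416) (C.node (nat_lit 1) (nat_lit 3) (nat_lit 6) (C.cons (nat_lit 90) (C.node (nat_lit 4) (nat_lit 6) (nat_lit 8) (C.cons (nat_lit 336) (C.node (nat_lit 3) (nat_lit 6) (nat_lit 7) (C.cons (nat_lit 456) (C.miq (nat_lit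 2249814848) (nat_lit 698794560060974234990739609)) C.nil)) C.nil)) (C.cons (nat_lit 74) (C.node (nat_lit 1) (nat_lit 4) (nat_lit 6) C.nil) C.nil))) C.nil))) (C.cons (nat_lit 98) (C.node (nat_lit 5) (nat_lit 6) (nat_lit 8) C.nil) C.nil))) C.nil))) C.nil)) C.nil))) (C.cons (nat_lit 704) (C.node (nat_lit 2) (nat_lit 8) (nat_lit 9) (C.cons (nat_lit 806) (C.miq (nat_lit 1176570505) (nat_lit 84634602914170020190095233)) (C.cons (nat_lit 804) (C.node (nat_lit 1) (nat_lit 2) (nat_lit 9) (C.cons (nat_lit 646) (C.node (nat_lit 2) (nat_lit 4) (nat_lit 9) (C.cons (nat_lit 1556) (C.miq (nat_lit 1108781424) (nat_lit 84645781759013688313055105)) (C.cons (nat_lit 532) (C.node (nat_lit 2) (nat_lit 9) (nat_lit 10) (C.cons (nat_lit 1540) (C.node (nat_lit 2) (nat_lit 7) (nat_lit 8) (C.cons (nat_lit 396) (C.miq (nat_lit 1176701575) (nat_lit 712060130424902699625219969)) (C.cons (nat_lit 388) (C.node (nat_lit 3) (nat_lit 7) (nat_lit 9) (C.cons (nat_lit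 680) (C.miq (nat_lit 1117194323) (nat_lit 780968901900865746168709417)) (C.cons (nat_lit 648) (C.node (nat_lit 4) (nat_lit 7) (nat_lit 9) (C.cons (nat_lit 688) (C.miq (nat_lit 2775712913) (nat_lit 199491779149593811874087443)) (C.cons (nat_lit 656) (C.node (nat_lit 5) (nat_lit 7) (nat_lit 9) (C.cons (nat_lit 672) (C.node (nat_lit 4) (nat_lit 8) (nat_lit 9) (C.cons (nat_lit 792)
  (C.miq (nat_lit 962021408) (nat_lit 812400973355805717683306773)) (C.cons (nat_lit 784) (C.node (nat_lit 3) (nat_lit 8) (nat_lit 9) (C.cons (nat_lit 778) (C.miq (nat_lit 319264850) (nat_lit 184977567216698687597380388)) (C.cons (nat_lit 776) (C.node (nat_lit 1) (nat_lit 8) (nat_lit 9) (C.cons (nat_lit 834) (C.miq (nat_lit 2231800433) (nat_lit 1374564041712697435364721286)) (C.cons (nat_lit 770) (C.node (nat_lit 6) (nat_lit 8) (nat_lit 9) (C.cons (nat_lit 832) (C.node (nat_lit 1) (nat_lit 6) (nat_lit 9) (C.cons (nat_lit 578) (C.node (nat_lit 5) (nat_lit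 6) (nat_lit 9) C.nil) C.nil)) C.nil)) C.nil))) C.nil))) C.nil))) C.nil)) C.nil))) C.nil))) C.nil))) C.nil)) C.nil))) (C.cons (nat_lit 518) (C.node (nat_lit 2) (nat_lit 5) (nat_lit 10) (C.cons (nat_lit 1068) (C.node (nat_lit 2) (nat_lit 7) (nat_lit 9) (C.cons (nat_lit 660) (C.miq (nat_lit 1129476233) (nat_lit 1291144950242579553984972673)) (C.cons (nat_lit 644) (C.node (nat_lit 4) (nat_lit 8) (nat_lit 9) (C.cons (nat_lit 792) (C.miq (nat_lit 1193881688) (nat_lit 778562837696193946634682665)) (C.cons (nat_lit 784) (C.node (nat_lit 5) (nat_lit 7) (nat_lit 10) (C.cons (nat_lit 1186) (C.miq (nat_lit 439776544) (nat_lit 1324986295746561858283045029)) (C.cons (nat_lit 1184) (C.node (nat_lit 2) (nat_lit 3) (nat_lit 7) (C.cons (nat_lit 398) (C.miq (nat_lit 1176701575) (nat_lit 712060130424902699625351041)) (C.cons (nat_lit 396) (C.miq (nat_lit 1176701575) (nat_lit 712060130424902699625219969)) (C.cons (nat_lit 142) (C.miq (nat_lit 329675344)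 (nat_lit 1324986295452701982633033893)) (C.cons (nat_lit 140) (C.node (nat_lit 1) (nat_lit 2) (nat_lit 5) (C.cons (nat_lit 54) (C.node (nat_lit 2) (nat_lit 3) (nat_lit 4) (C.cons (nat_lit 28) (C.node (nat_lit 1) (nat_lit 2) (nat_lit 7) (C.cons (nat_lit 390) (C.miq (nat_lit 363275272) (nat_lit 1431375364669114221823328533)) (C.cons (nat_lit 134) (C.node (nat_lit 2) (nat_lit 7) (nat_lit 8) (C.cons (nat_lit 388) (C.node (nat_lit 1) (nat_lit 5) (nat_lit 10) (C.cons (nat_lit 1570) (C.miq (nat_lit 2299660884) (nat_lit 626228684849206503406961777)) (C.cons (nat_lit 1058) (C.node (nat_lit 5) (nat_lit 9) (nat_lit 10) (C.cons (nat_lit 1568) (C.node (nat_lit 3) (nat_lit 4) (nat_lit 5) (C.cons (nat_lit 568) (C.miq (nat_lit 305728084) (nat_lit 712067103264325011724829809)) (C.cons (nat_lit 56) (C.node (nat_lit 5) (nat_lit 6) (nat_lit 9) (C.cons (nat_lit 610) (C.node (nat_lit 3) (nat_lit 5) (nat_lit 6) (C.cons (nat_lit 232) (C.miq (nat_lit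 305597014) (nat_lit 169253212151347745850393713)) C.nil)) C.nil)) C.nil))) C.nil)) C.nil))) C.nil)) C.nil))) C.nil)) (C.cons (nat_lit 38) (C.node (nat_lit 2) (nat_lit 4) (nat_lit 5) (C.cons (nat_lit 52) (C.node (nat_lit 1) (nat_lit 5) (nat_lit 10) (C.cons (nat_lit 1570) (C.node (nat_lit 5) (nat_lit 6) (nat_lit 9) (C.cons (nat_lit 608) (C.node (nat_lit 3) (nat_lit 4) (nat_lit 5) (C.cons (nat_lit 568) (C.miq (nat_lit 305728084) (nat_lit 712067103264325011724829809)) (C.cons (nat_lit 58) (C.miq (nat_lit 2052262164) (nat_lit 1291135598240987409511219731)) (C.cons (nat_lit 56) (C.node (nat_lit 1) (nat_lit 7) (nat_lit 9) (C.cons (nat_lit 650) (C.miq (nat_lit 323327754) (nat_lit 67728807469574349846022017)) (C.cons (nat_lit 642) (C.node (nat_lit 3) (nat_lit 5) (nat_lit 9) (C.cons (nat_lit 680) (C.miq (nat_lit 624200048) (nat_lit 67704955872836453192501121)) (C.cons (nat_lit 552) (C.node (nat_lit 2) (nat_lit 3) (nat_lit 4) C.nil) C.nil)))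 C.nil))) C.nil)))) C.nil)) (C.cons (nat_lit 1058) (C.node (nat_lit 5) (nat_lit 9) (nat_lit 10) (C.cons (nat_lit 1568) (C.node (nat_lit 1) (nat_lit 9) (nat_lit 10) (C.cons (nat_lit 1546) (C.node (nat_lit 3) (nat_lit 7) (nat_lit 10) (C.cons (nat_lit 1160) (C.node (nat_lit 3) (nat_lit 8) (nat_lit 9) (C.cons (nat_lit 776) (C.node (nat_lit 5) (nat_lit 6) (nat_lit 9) (C.cons (nat_lit 610) (C.node (nat_lit 6) (nat_lit 8) (nat_lit 9) C.nil) C.nil)) C.nil)) C.nil)) (C.cons (nat_lit 1538) (C.node (nat_lit 5) (nat_lit 6) (nat_lit 9) (C.cons (nat_lit 610)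
  (C.node (nat_lit 6) (nat_lit 8) (nat_lit 9) C.nil) C.nil)) C.nil))) C.nil)) C.nil))) C.nil)) C.nil))) C.nil))))) C.nil))) C.nil))) C.nil))) (C.cons (nat_lit 1060) (C.node (nat_lit 2) (nat_lit 7) (nat_lit 9) (C.cons (nat_lit 660) (C.node (nat_lit 2) (nat_lit 9) (nat_lit 10) (C.cons (nat_lit 1540) (C.node (nat_lit 2) (nat_lit 4) (nat_lit 10) (C.cons (nat_lit 1052) (C.miq (nat_lit 1380157808) (nat_lit 1271795441143888499491538817)) (C.cons (nat_lit 1044) (C.node (nat_lit 4) (nat_lit 5) (nat_lit 9) (C.cons (nat_lit 568) (C.miq (nat_lit 607491848) (nat_lit 686684696909118775491102593)) (C.cons (nat_lit 560) (C.node (nat_lit 4) (nat_lit 8) (nat_lit 9) (C.cons (nat_lit 792) (C.node (nat_lit 4) (nat_lit 9) (nat_lit 10) (C.cons (nat_lit 1552) (C.node (nat_lit 4) (nat_lit 8) (nat_lit 10) (C.cons (nat_lit 1298) (C.miq (nat_lit 422068330) (nat_lit 972000302993435273919202417)) (C.cons (nat_lit 1296) (C.node (nat_lit 5) (nat_lit 6) (nat_lit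 7) (C.cons (nat_lit 480) (C.miq (nat_lit 1196986883) (nat_lit 580299003422102575141945933)) (C.cons (nat_lit 232) (C.miq (nat_lit 2538816008) (nat_lit 280485400157674539814813973)) (C.cons (nat_lit 224) (C.node (nat_lit 2) (nat_lit 3) (nat_lit 4) (C.cons (nat_lit 62) (C.miq (nat_lit 444866707) (nat_lit 1566769006208900932084171341)) (C.cons (nat_lit 60) (C.node (nat_lit 1) (nat_lit 2) (nat_lit 4) (C.cons (nat_lit 22) (C.node (nat_lit 1) (nat_lit 2) (nat_lit 5) (C.cons (nat_lit 38) (C.node (nat_lit 1) (nat_lit 8) (nat_lit 10) C.nil) C.nil)) C.nil)) (C.cons (nat_lit 30) (C.miq (nat_lit 1380157808) (nat_lit 36273253497737482941826945)) (C.cons (nat_lit 28) (C.miq (nat_lit 1380157808) (nat_lit 33855401858508224592414593)) C.nil))))) C.nil)))) C.nil))) C.nil)) (C.cons (nat_lit 784) (C.miq (nat_lit 882378533) (nat_lit 947803321303927670874308773)) C.nil))) C.nil))) C.nil))) C.nil)) (C.cons (nat_lit 644) (C.node (nat_lit 4) (nat_lit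 8) (nat_lit 9) (C.cons (nat_lit 792) (C.miq (nat_lit 1193881688) (nat_lit 778562837696193946634682665)) (C.cons (nat_lit 784) (C.node (nat_lit 2) (nat_lit 4) (nat_lit 9) (C.cons (nat_lit 1556) (C.node (nat_lit 4) (nat_lit 7) (nat_lit 10) (C.cons (nat_lit 1170) (C.miq (nat_lit 371486874) (nat_lit 101571351593085241147000705)) (C.cons (nat_lit 1168) (C.node (nat_lit 2) (nat_lit 3) (nat_lit 10) (C.cons (nat_lit 1164) (C.node (nat_lit 2) (nat_lit 3) (nat_lit 4) (C.cons (nat_lit 62) (C.miq (nat_lit 2300774981) (nat_lit 712062786976726588873114737)) (C.cons (nat_lit 60) (C.miq (nat_lit 2300774981) (nat_lit 712062786976726588872983665)) (C.cons (nat_lit 30) (C.miq (nat_lit 2536770081) (nat_lit 184975446162859833107022855)) (C.cons (nat_lit 28) (C.node (nat_lit 1) (nat_lit 7) (nat_lit 10) (C.cons (nat_lit 1186) (C.node (nat_lit 1) (nat_lit 9) (nat_lit 10) (C.cons (nat_lit 1546) (C.miq (nat_lit 1368422962) (nat_lit 641942654261976216281875596))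 (C.cons (nat_lit 1538) (C.node (nat_lit 2) (nat_lit 3) (nat_lit 5) (C.cons (nat_lit 46) (C.miq (nat_lit 966860917) (nat_lit 1859328759283324073329950885)) (C.cons (nat_lit 44) (C.node (nat_lit 3) (nat_lit 5) (nat_lit 10) (C.cons (nat_lit 1576) (C.miq (nat_lit 958945856) (nat_lit 971981838096762994483856497)) (C.cons (nat_lit 1064) (C.node (nat_lit 6) (nat_lit 8) (nat_lit 9) (C.cons (nat_lit 834) (C.miq (nat_lit 2238812678) (nat_lit 1433801406873814264925323853)) C.nil)) C.nil))) C.nil))) C.nil))) (C.cons (nat_lit 1154) (C.node (nat_lit 5) (nat_lit 7) (nat_lit 10) (C.cons (nat_lit 1184) (C.node (nat_lit 2) (nat_lit 3) (nat_lit 5) (C.cons (nat_lit 46) (C.node (nat_lit 2) (nat_lit 3) (nat_lit 8) (C.cons (nat_lit 268) (C.node (nat_lit 2) (nat_lit 4) (nat_lit 5) C.nil) C.nil)) (C.cons (nat_lit 44) (C.node (nat_lit 1) (nat_lit 2) (nat_lit 3) (C.cons (nat_lit 270) (C.node (nat_lit 2) (nat_lit 7) (nat_lit 8) C.nil) (C.cons (nat_lit 14)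 (C.node (nat_lit 2) (nat_lit 3) (nat_lit 8) (C.cons (nat_lit 268) (C.node (nat_lit 1) (nat_lit 2) (nat_lit 5) (C.cons (nat_lit 38)
  (C.node (nat_lit 2) (nat_lit 4) (nat_lit 5) C.nil) C.nil)) C.nil)) C.nil))) C.nil))) C.nil)) C.nil))) C.nil))))) (C.cons (nat_lit 1036) (C.node (nat_lit 2) (nat_lit 7) (nat_lit 10) (C.cons (nat_lit 1156) (C.node (nat_lit 2) (nat_lit 4) (nat_lit 7) (C.cons (nat_lit 150) (C.node (nat_lit 2) (nat_lit 3) (nat_lit 4) (C.cons (nat_lit 60) (C.miq (nat_lit 2300774981) (nat_lit 712062786976726588872983665)) (C.cons (nat_lit 28) (C.node (nat_lit 2) (nat_lit 4) (nat_lit 5) (C.cons (nat_lit 52) (C.node (nat_lit 1) (nat_lit 2) (nat_lit 5) (C.cons (nat_lit 38) (C.node (nat_lit 2) (nat_lit 3) (nat_lit 5) C.nil) C.nil)) C.nil)) C.nil))) (C.cons (nat_lit 148) (C.node (nat_lit 3) (nat_lit 4) (nat_lit 9) (C.cons (nat_lit 568) (C.node (nat_lit 4) (nat_lit 7) (nat_lit 9) (C.cons (nat_lit 656) (C.node (nat_lit 2) (nat_lit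 3) (nat_lit 4) (C.cons (nat_lit 30) (C.node (nat_lit 1) (nat_lit 2) (nat_lit 5) (C.cons (nat_lit 38) (C.node (nat_lit 2) (nat_lit 3) (nat_lit 5) (C.cons (nat_lit 44) (C.node (nat_lit 2) (nat_lit 4) (nat_lit 5) C.nil) C.nil)) C.nil)) (C.cons (nat_lit 28) (C.node (nat_lit 1) (nat_lit 2) (nat_lit 4) (C.cons (nat_lit 54) (C.node (nat_lit 4) (nat_lit 5) (nat_lit 7) (C.cons (nat_lit 432) (C.miq (nat_lit 625186928) (nat_lit 686680730899676522870278017)) C.nil)) C.nil)) C.nil))) C.nil)) (C.cons (nat_lit 536) (C.node (nat_lit 3) (nat_lit 8) (nat_lit 9) (C.cons (nat_lit 778) (C.node (nat_lit 6) (nat_lit 8) (nat_lit 9) (C.cons (nat_lit 832) (C.node (nat_lit 3) (nat_lit 7) (nat_lit 9) (C.cons (nat_lit 680) (C.miq (nat_lit 964982048) (nat_lit 947800665121118987866144933)) C.nil)) C.nil)) (C.cons (nat_lit 776) (C.node (nat_lit 1) (nat_lit 8) (nat_lit 9) (C.cons (nat_lit 834) (C.node (nat_lit 5) (nat_lit 6) (nat_lit 9) C.nil) (C.cons (nat_lit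 770) (C.node (nat_lit 6) (nat_lit 8) (nat_lit 9) C.nil) C.nil))) C.nil))) C.nil))) C.nil))) C.nil)) C.nil))) C.nil))) (C.cons (nat_lit 532) (C.node (nat_lit 2) (nat_lit 9) (nat_lit 10) (C.cons (nat_lit 1540) (C.node (nat_lit 3) (nat_lit 8) (nat_lit 9) (C.cons (nat_lit 778) (C.node (nat_lit 6) (nat_lit 8) (nat_lit 9) (C.cons (nat_lit 832) (C.node (nat_lit 1) (nat_lit 8) (nat_lit 10) (C.cons (nat_lit 1298) (C.miq (nat_lit 672754240) (nat_lit 940555153171874756355622001)) (C.cons (nat_lit 1282) (C.node (nat_lit 2) (nat_lit 3) (nat_lit 8) (C.cons (nat_lit 396) (C.miq (nat_lit 1176701575) (nat_lit 712060130424902699625219969)) (C.cons (nat_lit 268) (C.node (nat_lit 3) (nat_lit 7) (nat_lit 9) (C.cons (nat_lit 680) (C.miq (nat_lit 964982048) (nat_lit 947800665121118987866144933)) (C.cons (nat_lit 648) (C.node (nat_lit 1) (nat_lit 3) (nat_lit 6) (C.cons (nat_lit 106) (C.miq (nat_lit 1518428307) (nat_lit 1549844856420871714388968013))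 (C.cons (nat_lit 90) (C.miq (nat_lit 1249992851) (nat_lit 1549844561272966535036142157)) (C.cons (nat_lit 74) (C.node (nat_lit 2) (nat_lit 3) (nat_lit 5) (C.cons (nat_lit 62) (C.miq (nat_lit 2822048020) (nat_lit 359071942914273444397711891)) (C.cons (nat_lit 60) (C.miq (nat_lit 1400448008) (nat_lit 783398762309404123547631893)) (C.cons (nat_lit 46) (C.miq (nat_lit 2031224885) (nat_lit 626226618813866846322557225)) (C.cons (nat_lit 44) (C.node (nat_lit 4) (nat_lit 5) (nat_lit 8) (C.cons (nat_lit 434) (C.miq (nat_lit 354649865) (nat_lit 53207087752093878318860161)) (C.cons (nat_lit 432) (C.miq (nat_lit 1126527128) (nat_lit 53200705099551727438530433)) (C.cons (nat_lit 306) (C.miq (nat_lit 1669662996) (nat_lit 359071942539348775435108883)) (C.cons (nat_lit 304) (C.node (nat_lit 1) (nat_lit 2) (nat_lit 8) (C.cons (nat_lit 390) (C.node (nat_lit 1) (nat_lit 2) (nat_lit 3) C.nil) C.nil)) C.nil))))) C.nil))))) C.nil)))) C.nil))) C.nil)))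 C.nil))) C.nil)) (C.cons (nat_lit 776) (C.node (nat_lit 1) (nat_lit 8) (nat_lit 9) (C.cons (nat_lit 834) (C.node (nat_lit 1) (nat_lit 5) (nat_lit 8) (C.cons (nat_lit 434) (C.miq (nat_lit 1382117528) (nat_lit 84632813306397933122488193)) (C.cons (nat_lit 418) (C.miq (nat_lit 1382117528) (nat_lit 84632518158492753769662337)) (C.cons (nat_lit 306)
  (C.miq (nat_lit 1904543378) (nat_lit 369934344569739892050100813)) (C.cons (nat_lit 290) (C.miq (nat_lit 1904543378) (nat_lit 350591531455905825254801997)) C.nil))))) (C.cons (nat_lit 770) (C.node (nat_lit 6) (nat_lit 8) (nat_lit 9) (C.cons (nat_lit 832) (C.node (nat_lit 1) (nat_lit 6) (nat_lit 9) (C.cons (nat_lit 610) (C.node (nat_lit 3) (nat_lit 5) (nat_lit 6) (C.cons (nat_lit 104) (C.node (nat_lit 3) (nat_lit 6) (nat_lit 7) C.nil) C.nil)) (C.cons (nat_lit 578) (C.node (nat_lit 5) (nat_lit 6) (nat_lit 9) C.nil) C.nil))) C.nil)) C.nil))) C.nil))) C.nil)) C.nil))) C.nil))) C.nil))) C.nil)))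 C.nil))) (C.cons (nat_lit 774) (C.miq (nat_lit 1176570505) (nat_lit 84634602914170020187998081)) (C.cons (nat_lit 772) (C.ref (nat_lit 156) (nat_lit 11649936536080)) C.nil))))) C.nil))) C.nil))) C.nil)))) C.nil))) List.nil)

theorem ok11_157 : okL par11 (nat_lit 158) c11_157 (nat_lit 157) = true := by decide +kernel

noncomputable def c11_158 : List C :=
  (List.cons (C.node (nat_lit 3) (nat_lit 5) (nat_lit 6) (C.cons (nat_lit 106) (C.node (nat_lit 3) (nat_lit 7) (nat_lit 8) (C.cons (nat_lit 398) (C.miq (nat_lit 1177684600) (nat_lit 712062417821167307033806721)) (C.cons (nat_lit 396) (C.miq (nat_lit 1177684600) (nat_lit 712062417821167307033675649)) (C.cons (nat_lit 394) (C.miq (nat_lit 2822047510) (nat_lit 359071942914271795133153475)) (C.cons (nat_lit 392) (C.node (nat_lit 1) (nat_lit 2) (nat_lit 6) (C.cons (nat_lit 326) (C.node (nat_lit 1) (nat_lit 4) (nat_lit 6) (C.cons (nat_lit 82) (C.node (nat_lit 1) (nat_lit 6) (nat_lit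 9) (C.cons (nat_lit 578) (C.node (nat_lit 2) (nat_lit 5) (nat_lit 6) (C.cons (nat_lit 100) (C.node (nat_lit 2) (nat_lit 7) (nat_lit 8) (C.cons (nat_lit 388) (C.node (nat_lit 1) (nat_lit 7) (nat_lit 8) (C.cons (nat_lit 434) (C.miq (nat_lit 830629184) (nat_lit 394120682356466737445405809)) (C.cons (nat_lit 418) (C.miq (nat_lit 2555578134) (nat_lit 359061834098519505378083011)) (C.cons (nat_lit 402) (C.miq (nat_lit 880936726) (nat_lit 334883317208579094354460867)) (C.cons (nat_lit 386) (C.node (nat_lit 2) (nat_lit 3) (nat_lit 7) (C.cons (nat_lit 142) (C.node (nat_lit 1) (nat_lit 2) (nat_lit 4) (C.cons (nat_lit 54) (C.miq (nat_lit 1249007153) (nat_lit 1397519243918733611845419114)) (C.cons (nat_lit 22) (C.node (nat_lit 1) (nat_lit 4) (nat_lit 7) (C.cons (nat_lit 178) (C.miq (nat_lit 1094080288) (nat_lit 128167110877265656057495717)) (C.cons (nat_lit 146) (C.node (nat_lit 1) (nat_lit 4) (nat_lit 5) (C.cons (nat_lit 306) (C.miq (nat_lit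 830629184) (nat_lit 394120682356466187689591921)) (C.cons (nat_lit 50) (C.node (nat_lit 2) (nat_lit 3) (nat_lit 4) (C.cons (nat_lit 1052) (C.miq (nat_lit 1131848208) (nat_lit 1479746177452430202998293511)) (C.cons (nat_lit 60) (C.miq (nat_lit 1175670898) (nat_lit 128147244003833001139896485)) (C.cons (nat_lit 28) (C.node (nat_lit 2) (nat_lit 3) (nat_lit 5) (C.cons (nat_lit 1068) (C.miq (nat_lit 1400283664) (nat_lit 1479746177456933802625664007)) (C.cons (nat_lit 44) (C.node (nat_lit 1) (nat_lit 2) (nat_lit 5) (C.cons (nat_lit 550) (C.node (nat_lit 1) (nat_lit 5) (nat_lit 7) C.nil) C.nil)) C.nil))) C.nil)))) C.nil))) C.nil))) C.nil))) (C.cons (nat_lit 140) (C.node (nat_lit 1) (nat_lit 3) (nat_lit 7) (C.cons (nat_lit 650) (C.miq (nat_lit 1177619065) (nat_lit 128155932420296137893349249)) (C.cons (nat_lit 138) (C.node (nat_lit 1) (nat_lit 2) (nat_lit 3) (C.cons (nat_lit 30) (C.node (nat_lit 1) (nat_lit 2) (nat_lit 5) (C.cons (nat_lit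 550) (C.node (nat_lit 1) (nat_lit 2) (nat_lit 7) (C.cons (nat_lit 134) (C.node (nat_lit 1) (nat_lit 7) (nat_lit 9) (C.cons (nat_lit 642) (C.node (nat_lit 2) (nat_lit 4) (nat_lit 5) C.nil) C.nil)) C.nil)) (C.cons (nat_lit 38) (C.node (nat_lit 1) (nat_lit 2) (nat_lit 7) (C.cons (nat_lit 646) (C.node (nat_lit 2) (nat_lit 4) (nat_lit 7) (C.cons (nat_lit 148) (C.node (nat_lit 4) (nat_lit 6) (nat_lit 7) C.nil) C.nil)) (C.cons (nat_lit 134) (C.node (nat_lit 1) (nat_lit 2) (nat_lit 9) C.nil) C.nil))) C.nil))) (C.cons (nat_lit 14) (C.node (nat_lit 2) (nat_lit 3) (nat_lit 8) (C.cons (nat_lit 1292) (C.node (nat_lit 3) (nat_lit 5) (nat_lit 10) (C.cons (nat_lit 1576) (C.miq (nat_lit 2467800416) (nat_lit 166867199745789440733414513)) (C.cons (nat_lit 1064) (C.node (nat_lit 5) (nat_lit 8) (nat_lit 10) (C.cons (nat_lit 1314) (C.miq (nat_lit 2708047152) (nat_lit 698794560302479833731760425)) (C.cons (nat_lit 1312) (C.node (nat_lit 1) (nat_lit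 3) (nat_lit 9) (C.cons (nat_lit 1546) (C.miq (nat_lit 1093798312) (nat_lit 16930071372183078729156481)) (C.cons (nat_lit 778) (C.miq (nat_lit 363345417) (nat_lit 1586125026931124054280700493)) (C.cons (nat_lit 522) (C.node (nat_lit 1) (nat_lit 3) (nat_lit 8) (C.cons (nat_lit 282) (C.node (nat_lit 1) (nat_lit 3) (nat_lit 10) C.nil) C.nil)) C.nil)))) C.nil))) C.nil))) (C.cons (nat_lit 268) (C.node (nat_lit 2) (nat_lit 8) (nat_lit 9) (C.cons (nat_lit 804) (C.node (nat_lit 2) (nat_lit 8) (nat_lit 10) (C.cons (nat_lit 1284) (C.node (nat_lit 5) (nat_lit 8) (nat_lit 10)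
  (C.cons (nat_lit 1312) (C.node (nat_lit 1) (nat_lit 5) (nat_lit 8) C.nil) C.nil)) C.nil)) (C.cons (nat_lit 772) (C.node (nat_lit 2) (nat_lit 5) (nat_lit 8) (C.cons (nat_lit 1316) (C.node (nat_lit 1) (nat_lit 5) (nat_lit 10) (C.cons (nat_lit 1570) (C.node (nat_lit 3) (nat_lit 5) (nat_lit 10) C.nil) C.nil)) (C.cons (nat_lit 292) (C.node (nat_lit 2) (nat_lit 8) (nat_lit 10) (C.cons (nat_lit 1284) (C.node (nat_lit 3) (nat_lit 6) (nat_lit 8) C.nil) C.nil)) C.nil))) C.nil))) C.nil))) C.nil))) C.nil))) C.nil))) C.nil))))) C.nil)) C.nil)) C.nil)) C.nil)) (C.cons (nat_lit 70) (C.node (nat_lit 1) (nat_lit 4) (nat_lit 6) (C.cons (nat_lit 338) (C.node (nat_lit 1) (nat_lit 6) (nat_lit 9) (C.cons (nat_lit 578) (C.node (nat_lit 3) (nat_lit 4) (nat_lit 6) (C.cons (nat_lit 88) (C.node (nat_lit 3) (nat_lit 6) (nat_lit 8) (C.cons (nat_lit 328) (C.node (nat_lit 2) (nat_lit 7) (nat_lit 8) (C.cons (nat_lit 390) (C.miq (nat_lit 1384384278) (nat_lit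 334893426027709135370453187)) (C.cons (nat_lit 388) (C.node (nat_lit 1) (nat_lit 7) (nat_lit 8) (C.cons (nat_lit 418) (C.miq (nat_lit 2555578134) (nat_lit 359061834098519505378083011)) (C.cons (nat_lit 386) (C.node (nat_lit 1) (nat_lit 4) (nat_lit 10) (C.cons (nat_lit 1050) (C.node (nat_lit 4) (nat_lit 8) (nat_lit 10) (C.cons (nat_lit 1296) (C.node (nat_lit 1) (nat_lit 8) (nat_lit 10) (C.cons (nat_lit 1314) (C.miq (nat_lit 2708047152) (nat_lit 698794560302479833731760425)) (C.cons (nat_lit 1282) (C.node (nat_lit 2) (nat_lit 3) (nat_lit 7) (C.cons (nat_lit 142) (C.miq (nat_lit 1412893202) (nat_lit 184968694433851984051045383)) (C.cons (nat_lit 140) (C.node (nat_lit 1) (nat_lit 2) (nat_lit 3) (C.cons (nat_lit 270) (C.miq (nat_lit 1367630624) (nat_lit 408637901007593976001528397)) (C.cons (nat_lit 14) (C.node (nat_lit 1) (nat_lit 3) (nat_lit 7) (C.cons (nat_lit 650) (C.miq (nat_lit 1662298000) (nat_lit 1269393084887900604459059073))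 (C.cons (nat_lit 138) (C.node (nat_lit 1) (nat_lit 3) (nat_lit 8) (C.cons (nat_lit 778) (C.miq (nat_lit 1518428307) (nat_lit 1549844856420871714388968013)) C.nil)) C.nil))) C.nil))) C.nil))) C.nil))) C.nil)) (C.cons (nat_lit 1042) (C.node (nat_lit 1) (nat_lit 3) (nat_lit 4) (C.cons (nat_lit 30) (C.node (nat_lit 2) (nat_lit 3) (nat_lit 7) (C.cons (nat_lit 140) (C.node (nat_lit 1) (nat_lit 3) (nat_lit 7) (C.cons (nat_lit 650) (C.miq (nat_lit 1662298000) (nat_lit 36288748880978846258759553)) (C.cons (nat_lit 138) (C.node (nat_lit 1) (nat_lit 3) (nat_lit 9) (C.cons (nat_lit 1546) (C.miq (nat_lit 2705888032) (nat_lit 408652363660270699961188941)) (C.cons (nat_lit 778) (C.miq (nat_lit 2439676752) (nat_lit 1317764579794299383700324649)) (C.cons (nat_lit 522) (C.node (nat_lit 1) (nat_lit 3) (nat_lit 8) (C.cons (nat_lit 1290) (C.node (nat_lit 2) (nat_lit 3) (nat_lit 8) C.nil) C.nil)) C.nil)))) C.nil))) C.nil)) (C.cons (nat_lit 26) (C.node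 (nat_lit 2) (nat_lit 3) (nat_lit 7) (C.cons (nat_lit 142) (C.node (nat_lit 1) (nat_lit 2) (nat_lit 4) (C.cons (nat_lit 54) (C.miq (nat_lit 1249007153) (nat_lit 1397519243918733611845419114)) (C.cons (nat_lit 22) (C.node (nat_lit 1) (nat_lit 4) (nat_lit 5) (C.cons (nat_lit 178) (C.miq (nat_lit 1094080288) (nat_lit 128167110877265656057495717)) (C.cons (nat_lit 50) (C.node (nat_lit 1) (nat_lit 4) (nat_lit 7) C.nil) C.nil))) C.nil))) (C.cons (nat_lit 140) (C.node (nat_lit 1) (nat_lit 2) (nat_lit 3) (C.cons (nat_lit 270) (C.miq (nat_lit 1367630624) (nat_lit 408637901007593976001528397)) (C.cons (nat_lit 14) (C.node (nat_lit 1) (nat_lit 3) (nat_lit 7) (C.cons (nat_lit 650) (C.miq (nat_lit 1662298000) (nat_lit 31453045602520329559934849)) (C.cons (nat_lit 138) (C.node (nat_lit 2) (nat_lit 3) (nat_lit 8) C.nil) C.nil))) C.nil))) C.nil))) C.nil))) C.nil))) C.nil))) C.nil))) C.nil)) C.nil)) C.nil)) (C.cons (nat_lit 82) (C.node (nat_lit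 1) (nat_lit 6) (nat_lit 8) (C.cons (nat_lit 834) (C.node (nat_lit 3) (nat_lit 8) (nat_lit 9) (C.cons (nat_lit 792) (C.miq (nat_lit 1731727433) (nat_lit 473914305928380387891347987)) (C.cons (nat_lit 776)
  (C.node (nat_lit 2) (nat_lit 3) (nat_lit 7) (C.cons (nat_lit 142) (C.node (nat_lit 2) (nat_lit 7) (nat_lit 8) (C.cons (nat_lit 388) (C.node (nat_lit 1) (nat_lit 2) (nat_lit 4) (C.cons (nat_lit 54) (C.miq (nat_lit 1249007153) (nat_lit 1397519243918733611845419114)) (C.cons (nat_lit 22) (C.node (nat_lit 2) (nat_lit 3) (nat_lit 4) (C.cons (nat_lit 1052) (C.miq (nat_lit 1131848208) (nat_lit 1479746177452430202998293511)) (C.cons (nat_lit 60) (C.miq (nat_lit 1175670898) (nat_lit 128147244003833001139896485)) (C.cons (nat_lit 28) (C.node (nat_lit 2) (nat_lit 3) (nat_lit 5) (C.cons (nat_lit 1068) (C.miq (nat_lit 1400283664) (nat_lit 1479746177456933802625664007)) (C.cons (nat_lit 44) (C.node (nat_lit 3) (nat_lit 5) (nat_lit 10) (C.cons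 (nat_lit 1576) (C.miq (nat_lit 2467800416) (nat_lit 171702903024247957432239217)) (C.cons (nat_lit 1064) (C.node (nat_lit 1) (nat_lit 4) (nat_lit 5) (C.cons (nat_lit 434) (C.miq (nat_lit 638912903) (nat_lit 128149180757715197908617089)) (C.cons (nat_lit 306) (C.miq (nat_lit 2184265829) (nat_lit 171673111166934996222608497)) (C.cons (nat_lit 178) (C.miq (nat_lit 1094080288) (nat_lit 128167110877265656057495717)) (C.cons (nat_lit 50) (C.node (nat_lit 1) (nat_lit 4) (nat_lit 7) (C.cons (nat_lit 402) (C.miq (nat_lit 907282823) (nat_lit 99134739726035213198952321)) (C.cons (nat_lit 146) (C.node (nat_lit 1) (nat_lit 7) (nat_lit 8) (C.cons (nat_lit 418) (C.miq (nat_lit 638912903) (nat_lit 128149180757715197907568513)) (C.cons (nat_lit 386) (C.node (nat_lit 2) (nat_lit 8) (nat_lit 9) (C.cons (nat_lit 804) (C.miq (nat_lit 1461198953) (nat_lit 466660197599926332646621773)) (C.cons (nat_lit 772) (C.node (nat_lit 1) (nat_lit 2) (nat_lit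 8) (C.cons (nat_lit 294) (C.node (nat_lit 1) (nat_lit 2) (nat_lit 9) (C.cons (nat_lit 518) (C.node (nat_lit 2) (nat_lit 5) (nat_lit 6) C.nil) C.nil)) (C.cons (nat_lit 262) (C.node (nat_lit 1) (nat_lit 3) (nat_lit 9) C.nil) C.nil))) C.nil))) C.nil))) C.nil))) C.nil))))) C.nil))) C.nil))) C.nil)))) C.nil))) C.nil)) (C.cons (nat_lit 140) (C.node (nat_lit 1) (nat_lit 3) (nat_lit 7) (C.cons (nat_lit 650) (C.miq (nat_lit 1177619065) (nat_lit 128155932420296137893349249)) (C.cons (nat_lit 138) (C.node (nat_lit 1) (nat_lit 3) (nat_lit 9) (C.cons (nat_lit 1546) (C.node (nat_lit 1) (nat_lit 5) (nat_lit 10) (C.cons (nat_lit 1314) (C.miq (nat_lit 2168038752) (nat_lit 1869034753689440874847339633)) (C.cons (nat_lit 1058) (C.node (nat_lit 3) (nat_lit 5) (nat_lit 7) (C.cons (nat_lit 680) (C.miq (nat_lit 557124247) (nat_lit 128149180882130195647563649)) (C.cons (nat_lit 168) (C.node (nat_lit 3) (nat_lit 7) (nat_lit 9) (C.cons (nat_lit 648) (C.node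 (nat_lit 1) (nat_lit 2) (nat_lit 3) (C.cons (nat_lit 270) (C.miq (nat_lit 560235344) (nat_lit 99137027032506708924629289)) (C.cons (nat_lit 30) (C.miq (nat_lit 1217601697) (nat_lit 938126989501251270140888071)) (C.cons (nat_lit 14) (C.node (nat_lit 1) (nat_lit 4) (nat_lit 10) (C.cons (nat_lit 1298) (C.miq (nat_lit 1110540442) (nat_lit 16948905426383581829793665)) (C.cons (nat_lit 1042) (C.node (nat_lit 1) (nat_lit 8) (nat_lit 10) C.nil) C.nil))) C.nil)))) C.nil)) C.nil))) C.nil))) (C.cons (nat_lit 522) (C.node (nat_lit 3) (nat_lit 9) (nat_lit 10) (C.cons (nat_lit 1576) (C.miq (nat_lit 2467800416) (nat_lit 166867199745789440733414513)) (C.cons (nat_lit 1560) (C.miq (nat_lit 1130470000) (nat_lit 128155932539360053012137857)) (C.cons (nat_lit 1544) (C.node (nat_lit 1) (nat_lit 9) (nat_lit 10) (C.cons (nat_lit 1570) (C.node (nat_lit 4) (nat_lit 8) (nat_lit 9) (C.cons (nat_lit 816) (C.miq (nat_lit 563612244) (nat_lit 1008249243596916593391567985))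 (C.cons (nat_lit 784) (C.node (nat_lit 5) (nat_lit 8) (nat_lit 10) (C.cons (nat_lit 1316) (C.miq (nat_lit 1497932034) (nat_lit 947822118934988268821087239)) (C.cons (nat_lit 1312) (C.node (nat_lit 1) (nat_lit 2) (nat_lit 9) (C.cons (nat_lit 646) (C.node (nat_lit 2) (nat_lit 4) (nat_lit 7) (C.cons (nat_lit 148) (C.node (nat_lit 2) (nat_lit 7) (nat_lit 8) (C.cons (nat_lit 388)
  (C.node (nat_lit 2) (nat_lit 8) (nat_lit 9) (C.cons (nat_lit 804) (C.miq (nat_lit 2231800433) (nat_lit 1374564041712697435364721286)) (C.cons (nat_lit 772) (C.node (nat_lit 5) (nat_lit 8) (nat_lit 9) (C.cons (nat_lit 800) (C.node (nat_lit 2) (nat_lit 5) (nat_lit 6) C.nil) C.nil)) C.nil))) C.nil)) C.nil)) (C.cons (nat_lit 518) (C.node (nat_lit 1) (nat_lit 7) (nat_lit 9) (C.cons (nat_lit 642) (C.node (nat_lit 2) (nat_lit 5) (nat_lit 6) (C.cons (nat_lit 356) (C.node (nat_lit 2) (nat_lit 8) (nat_lit 9) (C.cons (nat_lit 772) (C.node (nat_lit 5) (nat_lit 8) (nat_lit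 9) (C.cons (nat_lit 800) (C.node (nat_lit 2) (nat_lit 7) (nat_lit 8) C.nil) C.nil)) C.nil)) (C.cons (nat_lit 100) (C.node (nat_lit 2) (nat_lit 6) (nat_lit 8) (C.cons (nat_lit 324) (C.node (nat_lit 1) (nat_lit 5) (nat_lit 7) (C.cons (nat_lit 434) (C.miq (nat_lit 638912903) (nat_lit 128149180757715197908617089)) (C.cons (nat_lit 418) (C.miq (nat_lit 638912903) (nat_lit 128149180757715197907568513)) (C.cons (nat_lit 178) (C.node (nat_lit 3) (nat_lit 4) (nat_lit 6) C.nil) C.nil)))) C.nil)) C.nil))) C.nil)) C.nil))) C.nil))) C.nil))) (C.cons (nat_lit 1538) (C.node (nat_lit 1) (nat_lit 5) (nat_lit 10) (C.cons (nat_lit 1314) (C.miq (nat_lit 2168038752) (nat_lit 631094714404060599948215409)) (C.cons (nat_lit 1058) (C.node (nat_lit 2) (nat_lit 5) (nat_lit 6) (C.cons (nat_lit 356) (C.node (nat_lit 2) (nat_lit 8) (nat_lit 9) (C.cons (nat_lit 772) (C.node (nat_lit 5) (nat_lit 8) (nat_lit 10) (C.cons (nat_lit 1312) (C.node (nat_lit 3) (nat_lit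 4) (nat_lit 6) (C.cons (nat_lit 344) (C.miq (nat_lit 674715200) (nat_lit 473901965101913367748609137)) (C.cons (nat_lit 88) (C.node (nat_lit 3) (nat_lit 6) (nat_lit 8) C.nil) C.nil))) C.nil)) C.nil)) (C.cons (nat_lit 100) (C.node (nat_lit 2) (nat_lit 6) (nat_lit 8) (C.cons (nat_lit 324) (C.node (nat_lit 2) (nat_lit 7) (nat_lit 8) (C.cons (nat_lit 390) (C.node (nat_lit 1) (nat_lit 4) (nat_lit 7) (C.cons (nat_lit 178) (C.node (nat_lit 1) (nat_lit 7) (nat_lit 9) C.nil) C.nil)) (C.cons (nat_lit 388) (C.node (nat_lit 1) (nat_lit 7) (nat_lit 8) (C.cons (nat_lit 434) (C.miq (nat_lit 638912903) (nat_lit 128149180757715197908617089)) (C.cons (nat_lit 418) (C.miq (nat_lit 638912903) (nat_lit 128149180757715197907568513)) (C.cons (nat_lit 402) (C.miq (nat_lit 907282823) (nat_lit 99134739726035213198952321)) (C.cons (nat_lit 386) (C.node (nat_lit 3) (nat_lit 4) (nat_lit 6) C.nil) C.nil))))) C.nil))) C.nil)) C.nil))) C.nil))) C.nil))) C.nil))))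 C.nil))) C.nil))) C.nil))) C.nil))) (C.cons (nat_lit 322) (C.node (nat_lit 1) (nat_lit 6) (nat_lit 9) (C.cons (nat_lit 578) (C.node (nat_lit 2) (nat_lit 3) (nat_lit 7) (C.cons (nat_lit 142) (C.node (nat_lit 2) (nat_lit 7) (nat_lit 8) (C.cons (nat_lit 388) (C.node (nat_lit 1) (nat_lit 2) (nat_lit 4) (C.cons (nat_lit 54) (C.miq (nat_lit 1249007153) (nat_lit 1397519243918733611845419114)) (C.cons (nat_lit 22) (C.node (nat_lit 2) (nat_lit 3) (nat_lit 4) (C.cons (nat_lit 1052) (C.miq (nat_lit 1131848208) (nat_lit 1479746177452430202998293511)) (C.cons (nat_lit 60) (C.miq (nat_lit 1175670898) (nat_lit 128147244003833001139896485)) (C.cons (nat_lit 28) (C.node (nat_lit 2) (nat_lit 3) (nat_lit 5) (C.cons (nat_lit 1068) (C.miq (nat_lit 1400283664) (nat_lit 1479746177456933802625664007)) (C.cons (nat_lit 44) (C.node (nat_lit 3) (nat_lit 5) (nat_lit 10) (C.cons (nat_lit 1576) (C.miq (nat_lit 2467800416) (nat_lit 171702903024247957432239217))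 (C.cons (nat_lit 1064) (C.node (nat_lit 1) (nat_lit 4) (nat_lit 5) (C.cons (nat_lit 434) (C.miq (nat_lit 2184265829) (nat_lit 171675472350176431045215345)) (C.cons (nat_lit 306) (C.miq (nat_lit 2184265829) (nat_lit 171673111166934996222608497)) (C.cons (nat_lit 178) (C.miq (nat_lit 1094080288) (nat_lit 128167110877265656057495717)) (C.cons (nat_lit 50) (C.node (nat_lit 1) (nat_lit 4) (nat_lit 7) (C.cons (nat_lit 402) (C.node (nat_lit 1) (nat_lit 3) (nat_lit 4) (C.cons (nat_lit 1050) (C.miq (nat_lit 1412893202) (nat_lit 184968694433851984051045383)) (C.cons (nat_lit 26)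
  (C.node (nat_lit 1) (nat_lit 4) (nat_lit 10) (C.cons (nat_lit 1042) (C.node (nat_lit 2) (nat_lit 3) (nat_lit 8) C.nil) C.nil)) C.nil))) (C.cons (nat_lit 146) (C.node (nat_lit 1) (nat_lit 7) (nat_lit 8) (C.cons (nat_lit 418) (C.miq (nat_lit 2555578134) (nat_lit 359061834098519505378083011)) (C.cons (nat_lit 386) (C.node (nat_lit 1) (nat_lit 5) (nat_lit 7) C.nil) C.nil))) C.nil))) C.nil))))) C.nil))) C.nil))) C.nil)))) C.nil))) C.nil)) (C.cons (nat_lit 140) (C.node (nat_lit 1) (nat_lit 3) (nat_lit 7) (C.cons (nat_lit 650) (C.miq (nat_lit 1177619065) (nat_lit 128155932420296137893349249)) (C.cons (nat_lit 138) (C.node (nat_lit 2) (nat_lit 5) (nat_lit 6) (C.cons (nat_lit 356) (C.node (nat_lit 3) (nat_lit 4) (nat_lit 6) (C.cons (nat_lit 344) (C.miq (nat_lit 674715200) (nat_lit 473901965101913367748609137)) (C.cons (nat_lit 88) (C.node (nat_lit 3) (nat_lit 6) (nat_lit 8) (C.cons (nat_lit 328) (C.node (nat_lit 5) (nat_lit 8) (nat_lit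 10) (C.cons (nat_lit 1314) (C.miq (nat_lit 2708047152) (nat_lit 698794560302479833731760425)) (C.cons (nat_lit 1312) (C.node (nat_lit 5) (nat_lit 7) (nat_lit 8) (C.cons (nat_lit 434) (C.miq (nat_lit 678651200) (nat_lit 473909786521401007145550961)) (C.cons (nat_lit 432) (C.miq (nat_lit 678651200) (nat_lit 473909786521400998555616369)) (C.cons (nat_lit 418) (C.miq (nat_lit 2555578134) (nat_lit 359061834098519505378083011)) (C.cons (nat_lit 416) (C.node (nat_lit 5) (nat_lit 6) (nat_lit 7) C.nil) C.nil))))) C.nil))) C.nil)) C.nil))) (C.cons (nat_lit 100) (C.node (nat_lit 2) (nat_lit 6) (nat_lit 8) (C.cons (nat_lit 324) (C.node (nat_lit 2) (nat_lit 7) (nat_lit 8) (C.cons (nat_lit 390) (C.node (nat_lit 4) (nat_lit 7) (nat_lit 8) (C.cons (nat_lit 464) (C.miq (nat_lit 2759984753) (nat_lit 334891470946431317351727299)) (C.cons (nat_lit 432) (C.miq (nat_lit 1461340192) (nat_lit 1395121369904892740414931221)) (C.cons (nat_lit 400) (C.node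 (nat_lit 5) (nat_lit 7) (nat_lit 8) (C.cons (nat_lit 480) (C.miq (nat_lit 2793473394) (nat_lit 389293132829089698932981925)) (C.cons (nat_lit 416) (C.node (nat_lit 6) (nat_lit 7) (nat_lit 8) (C.cons (nat_lit 448) (C.node (nat_lit 4) (nat_lit 6) (nat_lit 7) (C.cons (nat_lit 720) (C.node (nat_lit 2) (nat_lit 4) (nat_lit 7) C.nil) C.nil)) C.nil)) C.nil))) C.nil)))) (C.cons (nat_lit 388) (C.node (nat_lit 3) (nat_lit 4) (nat_lit 6) (C.cons (nat_lit 344) (C.node (nat_lit 4) (nat_lit 6) (nat_lit 7) (C.cons (nat_lit 208) (C.node (nat_lit 4) (nat_lit 6) (nat_lit 9) (C.cons (nat_lit 592) (C.node (nat_lit 6) (nat_lit 7) (nat_lit 8) C.nil) C.nil)) C.nil)) (C.cons (nat_lit 88) (C.node (nat_lit 3) (nat_lit 6) (nat_lit 8) (C.cons (nat_lit 328) (C.node (nat_lit 1) (nat_lit 7) (nat_lit 8) (C.cons (nat_lit 434) (C.miq (nat_lit 2555578134) (nat_lit 359061834098519574097559747)) (C.cons (nat_lit 418) (C.miq (nat_lit 2555578134) (nat_lit 359061834098519505378083011))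 (C.cons (nat_lit 402) (C.node (nat_lit 1) (nat_lit 2) (nat_lit 7) C.nil) C.nil)))) C.nil)) C.nil))) C.nil))) C.nil)) C.nil))) C.nil))) C.nil))) C.nil)) C.nil))) C.nil))) C.nil))) C.nil))))) (C.cons (nat_lit 104) (C.node (nat_lit 4) (nat_lit 9) (nat_lit 10) (C.cons (nat_lit 1560) (C.miq (nat_lit 1248957280) (nat_lit 1395110191495491428104208973)) (C.cons (nat_lit 1556) (C.node (nat_lit 2) (nat_lit 7) (nat_lit 9) (C.cons (nat_lit 646) (C.miq (nat_lit 373452969) (nat_lit 101561685499192970984032129)) (C.cons (nat_lit 644) (C.node (nat_lit 2) (nat_lit 4) (nat_lit 7) (C.cons (nat_lit 150) (C.node (nat_lit 2) (nat_lit 3) (nat_lit 4) (C.cons (nat_lit 60) (C.miq (nat_lit 2300774981) (nat_lit 712062786976726588872983665)) (C.cons (nat_lit 28) (C.node (nat_lit 2) (nat_lit 4) (nat_lit 5) (C.cons (nat_lit 52) (C.node (nat_lit 2) (nat_lit 3) (nat_lit 7) (C.cons (nat_lit 396) (C.miq (nat_lit 1663346560) (nat_lit 33870897241748496971007873))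 (C.cons (nat_lit 140) (C.node (nat_lit 2) (nat_lit 7) (nat_lit 8) (C.cons (nat_lit 388) (C.ref (nat_lit 140) (nat_lit 11430141571600)) C.nil)) C.nil))) C.nil)) C.nil))) (C.cons (nat_lit 148)
  (C.ref (nat_lit 141) (nat_lit 11430141571600)) C.nil))) C.nil))) (C.cons (nat_lit 1552) (C.node (nat_lit 2) (nat_lit 4) (nat_lit 10) (C.cons (nat_lit 1052) (C.node (nat_lit 2) (nat_lit 3) (nat_lit 7) (C.cons (nat_lit 398) (C.miq (nat_lit 1663346560) (nat_lit 1271810936527128780460066689)) (C.cons (nat_lit 396) (C.miq (nat_lit 1663346560) (nat_lit 1271810936527128771870132097)) (C.cons (nat_lit 142) (C.miq (nat_lit 1131848208) (nat_lit 1479746177452430202998293511)) (C.cons (nat_lit 140) (C.node (nat_lit 1) (nat_lit 4) (nat_lit 10) (C.cons (nat_lit 1298) (C.node (nat_lit 3) (nat_lit 8) (nat_lit 10) (C.cons (nat_lit 1288) (C.node (nat_lit 1) (nat_lit 4) (nat_lit 6) (C.cons (nat_lit 90) (C.miq (nat_lit 2587101025) (nat_lit 1271799757996411718869844163))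 (C.cons (nat_lit 82) (C.node (nat_lit 2) (nat_lit 3) (nat_lit 8) (C.cons (nat_lit 270) (C.miq (nat_lit 916529224) (nat_lit 1317734124166639346754126101)) (C.cons (nat_lit 268) (C.node (nat_lit 2) (nat_lit 7) (nat_lit 8) (C.cons (nat_lit 390) (C.miq (nat_lit 1511457922) (nat_lit 1395103439868096853100069141)) (C.cons (nat_lit 388) (C.node (nat_lit 3) (nat_lit 4) (nat_lit 6) (C.cons (nat_lit 344) (C.miq (nat_lit 405972064) (nat_lit 324011138615216610646754417)) (C.cons (nat_lit 88) (C.node (nat_lit 3) (nat_lit 4) (nat_lit 8) (C.cons (nat_lit 792) (C.miq (nat_lit 338864272) (nat_lit 1271808981193087807761745793)) (C.cons (nat_lit 280) (C.node (nat_lit 3) (nat_lit 8) (nat_lit 9) (C.cons (nat_lit 778) (C.miq (nat_lit 910266536) (nat_lit 99146268941082583102523265)) (C.cons (nat_lit 776) (C.node (nat_lit 1) (nat_lit 2) (nat_lit 3) (C.cons (nat_lit 46) (C.node (nat_lit 1) (nat_lit 3) (nat_lit 4) (C.cons (nat_lit 26) (C.node (nat_lit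 1) (nat_lit 3) (nat_lit 10) (C.cons (nat_lit 1546) (C.miq (nat_lit 588515752) (nat_lit 31437181223884177475241857)) (C.cons (nat_lit 1034) (C.node (nat_lit 1) (nat_lit 5) (nat_lit 10) (C.cons (nat_lit 1570) (C.node (nat_lit 2) (nat_lit 9) (nat_lit 10) C.nil) C.nil)) C.nil))) C.nil)) (C.cons (nat_lit 14) (C.node (nat_lit 2) (nat_lit 3) (nat_lit 5) (C.cons (nat_lit 44) (C.node (nat_lit 1) (nat_lit 3) (nat_lit 4) (C.cons (nat_lit 58) (C.node (nat_lit 3) (nat_lit 4) (nat_lit 9) (C.cons (nat_lit 536) (C.node (nat_lit 1) (nat_lit 3) (nat_lit 10) (C.cons (nat_lit 1546) (C.miq (nat_lit 588515752) (nat_lit 70122807451552311065839489)) (C.cons (nat_lit 1034) (C.node (nat_lit 1) (nat_lit 2) (nat_lit 4) C.nil) C.nil))) C.nil)) (C.cons (nat_lit 26) (C.node (nat_lit 1) (nat_lit 3) (nat_lit 6) (C.cons (nat_lit 330) (C.node (nat_lit 2) (nat_lit 8) (nat_lit 10) C.nil) (C.cons (nat_lit 74) (C.node (nat_lit 2) (nat_lit 8) (nat_lit 10) C.nil) C.nil)))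 C.nil))) C.nil)) C.nil))) C.nil))) C.nil))) C.nil))) C.nil))) C.nil))) C.nil))) C.nil)) (C.cons (nat_lit 1042) (C.node (nat_lit 4) (nat_lit 8) (nat_lit 10) (C.cons (nat_lit 1296) (C.node (nat_lit 2) (nat_lit 3) (nat_lit 5) (C.cons (nat_lit 46) (C.node (nat_lit 2) (nat_lit 3) (nat_lit 8) (C.cons (nat_lit 268) (C.node (nat_lit 3) (nat_lit 5) (nat_lit 7) (C.cons (nat_lit 680) (C.miq (nat_lit 443883667) (nat_lit 1431369019264157285156913741)) (C.cons (nat_lit 168) (C.node (nat_lit 3) (nat_lit 7) (nat_lit 9) (C.cons (nat_lit 650) (C.miq (nat_lit 396661600) (nat_lit 1412035152713954007805133389)) (C.cons (nat_lit 648) (C.node (nat_lit 3) (nat_lit 8) (nat_lit 10) (C.cons (nat_lit 1290) (C.miq (nat_lit 2203558176) (nat_lit 203134974253726214935348231)) (C.cons (nat_lit 1288) (C.node (nat_lit 1) (nat_lit 3) (nat_lit 10) (C.cons (nat_lit 1546) (C.miq (nat_lit 1470177427) (nat_lit 1395101244431961080141054541)) (C.cons (nat_lit 1034) (C.node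 (nat_lit 1) (nat_lit 8) (nat_lit 10) (C.cons (nat_lit 1314) (C.miq (nat_lit 2555578898) (nat_lit 359061834098523353664848903)) (C.cons (nat_lit 1282) (C.node (nat_lit 1) (nat_lit 5) (nat_lit 10) (C.cons (nat_lit 1570) (C.node (nat_lit 2) (nat_lit 9) (nat_lit 10) C.nil) C.nil)) C.nil))) C.nil))) C.nil))) C.nil))) C.nil))) C.nil)) (C.cons (nat_lit 44) (C.node (nat_lit 1) (nat_lit 2) (nat_lit 3)
  (C.cons (nat_lit 270) (C.node (nat_lit 2) (nat_lit 7) (nat_lit 8) (C.cons (nat_lit 388) (C.node (nat_lit 3) (nat_lit 7) (nat_lit 8) (C.cons (nat_lit 392) (C.node (nat_lit 3) (nat_lit 8) (nat_lit 10) (C.cons (nat_lit 1288) (C.node (nat_lit 1) (nat_lit 3) (nat_lit 6) (C.cons (nat_lit 90) (C.miq (nat_lit 2587101025) (nat_lit 1271799757996411718869844163)) (C.cons (nat_lit 74) (C.node (nat_lit 1) (nat_lit 8) (nat_lit 10) (C.cons (nat_lit 1314) (C.miq (nat_lit 1703086610) (nat_lit 359061833877846971938374663)) (C.cons (nat_lit 1282) (C.node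 (nat_lit 3) (nat_lit 4) (nat_lit 6) (C.cons (nat_lit 344) (C.miq (nat_lit 1209688864) (nat_lit 1549863874790794961430708813)) (C.cons (nat_lit 88) (C.node (nat_lit 3) (nat_lit 6) (nat_lit 8) (C.cons (nat_lit 328) (C.node (nat_lit 1) (nat_lit 2) (nat_lit 6) (C.cons (nat_lit 102) (C.node (nat_lit 2) (nat_lit 8) (nat_lit 10) C.nil) (C.cons (nat_lit 70) (C.node (nat_lit 2) (nat_lit 8) (nat_lit 10) C.nil) C.nil))) C.nil)) C.nil))) C.nil))) C.nil))) C.nil)) C.nil)) C.nil)) (C.cons (nat_lit 14) (C.node (nat_lit 2) (nat_lit 3) (nat_lit 8) (C.cons (nat_lit 268) (C.node (nat_lit 2) (nat_lit 7) (nat_lit 8) (C.cons (nat_lit 390) (C.node (nat_lit 3) (nat_lit 7) (nat_lit 8) (C.cons (nat_lit 392) (C.node (nat_lit 1) (nat_lit 2) (nat_lit 4) (C.cons (nat_lit 54) (C.miq (nat_lit 1517371522) (nat_lit 1395101392279507347104465173)) (C.cons (nat_lit 22) (C.node (nat_lit 1) (nat_lit 2) (nat_lit 6) (C.cons (nat_lit 102) (C.miq (nat_lit 2171236944)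 (nat_lit 1317764579685087075556720805)) (C.cons (nat_lit 70) (C.node (nat_lit 2) (nat_lit 8) (nat_lit 10) (C.cons (nat_lit 1316) (C.miq (nat_lit 1377216624) (nat_lit 84645781691458594390869889)) (C.cons (nat_lit 1284) (C.node (nat_lit 4) (nat_lit 7) (nat_lit 8) (C.cons (nat_lit 464) (C.miq (nat_lit 1210738448) (nat_lit 1552281726463801732381475011)) (C.cons (nat_lit 432) (C.miq (nat_lit 1461340192) (nat_lit 1395121369904892740414931221)) (C.cons (nat_lit 400) (C.node (nat_lit 5) (nat_lit 7) (nat_lit 8) (C.cons (nat_lit 480) (C.miq (nat_lit 1479173904) (nat_lit 1552281726468305332008845507)) (C.cons (nat_lit 416) (C.node (nat_lit 6) (nat_lit 7) (nat_lit 8) (C.cons (nat_lit 448) (C.node (nat_lit 2) (nat_lit 5) (nat_lit 6) C.nil) C.nil)) C.nil))) C.nil)))) C.nil))) C.nil))) C.nil))) C.nil)) (C.cons (nat_lit 388) (C.node (nat_lit 2) (nat_lit 8) (nat_lit 10) (C.cons (nat_lit 1316) (C.node (nat_lit 2) (nat_lit 9) (nat_lit 10) (C.cons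 (nat_lit 1540) (C.node (nat_lit 1) (nat_lit 8) (nat_lit 10) (C.cons (nat_lit 1282) (C.node (nat_lit 3) (nat_lit 8) (nat_lit 10) (C.cons (nat_lit 1288) (C.node (nat_lit 2) (nat_lit 5) (nat_lit 6) (C.cons (nat_lit 102) (C.miq (nat_lit 394420389) (nat_lit 469065099633267509337261169)) (C.cons (nat_lit 100) (C.node (nat_lit 1) (nat_lit 2) (nat_lit 6) (C.cons (nat_lit 326) (C.node (nat_lit 2) (nat_lit 8) (nat_lit 9) C.nil) C.nil)) C.nil))) C.nil)) C.nil)) C.nil)) (C.cons (nat_lit 1284) (C.node (nat_lit 2) (nat_lit 5) (nat_lit 10) (C.cons (nat_lit 1572) (C.node (nat_lit 1) (nat_lit 9) (nat_lit 10) (C.cons (nat_lit 1538) (C.node (nat_lit 3) (nat_lit 9) (nat_lit 10) (C.cons (nat_lit 1544) (C.node (nat_lit 3) (nat_lit 5) (nat_lit 10) C.nil) C.nil)) C.nil)) (C.cons (nat_lit 1060) (C.node (nat_lit 2) (nat_lit 9) (nat_lit 10) C.nil) C.nil))) C.nil))) C.nil))) C.nil)) C.nil))) C.nil))) C.nil)) C.nil))) C.nil))))) (C.cons (nat_lit 1044) (C.node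 (nat_lit 2) (nat_lit 9) (nat_lit 10) (C.cons (nat_lit 1572) (C.node (nat_lit 1) (nat_lit 9) (nat_lit 10) (C.cons (nat_lit 1546) (C.node (nat_lit 3) (nat_lit 5) (nat_lit 10) (C.cons (nat_lit 1064) (C.node (nat_lit 3) (nat_lit 7) (nat_lit 9) (C.cons (nat_lit 680) (C.miq (nat_lit 326150482) (nat_lit 184984669429341492861011492)) (C.cons (nat_lit 648) (C.node (nat_lit 2) (nat_lit 3) (nat_lit 5) (C.cons (nat_lit 62) (C.miq (nat_lit 2032339540) (nat_lit 712060130645580043417158769)) (C.cons (nat_lit 60) (C.miq (nat_lit 2032339540) (nat_lit 712060130645580043417027697)) (C.cons (nat_lit 46)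
  (C.miq (nat_lit 1470177427) (nat_lit 1395101244431961080141054541)) (C.cons (nat_lit 44) (C.node (nat_lit 1) (nat_lit 4) (nat_lit 10) (C.cons (nat_lit 1298) (C.node (nat_lit 1) (nat_lit 5) (nat_lit 10) (C.cons (nat_lit 1058) (C.node (nat_lit 3) (nat_lit 4) (nat_lit 10) (C.cons (nat_lit 1048) (C.node (nat_lit 5) (nat_lit 8) (nat_lit 10) (C.cons (nat_lit 1312) (C.node (nat_lit 2) (nat_lit 3) (nat_lit 10) (C.cons (nat_lit 1292) (C.node (nat_lit 1) (nat_lit 4) (nat_lit 6) (C.cons (nat_lit 90) (C.miq (nat_lit 588515752) (nat_lit 108808433679220444656437121)) (C.cons (nat_lit 82) (C.node (nat_lit 2) (nat_lit 3) (nat_lit 4) (C.cons (nat_lit 30) (C.node (nat_lit 2) (nat_lit 3) (nat_lit 7) (C.cons (nat_lit 140) (C.node (nat_lit 3) (nat_lit 4) (nat_lit 6) (C.cons (nat_lit 344) (C.miq (nat_lit 405972064) (nat_lit 1561951177900596885545878641)) C.nil)) C.nil)) (C.cons (nat_lit 28) (C.miq (nat_lit 337881097) (nat_lit 33878441980903281373546369))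 C.nil))) C.nil))) C.nil)) C.nil)) C.nil)) C.nil)) (C.cons (nat_lit 1042) (C.node (nat_lit 2) (nat_lit 3) (nat_lit 4) (C.cons (nat_lit 30) (C.miq (nat_lit 2316568882) (nat_lit 1259705814327272087872209485)) (C.cons (nat_lit 28) (C.node (nat_lit 2) (nat_lit 3) (nat_lit 10) (C.cons (nat_lit 1292) (C.miq (nat_lit 321165952) (nat_lit 33859718605478619774257025)) (C.cons (nat_lit 1036) (C.node (nat_lit 2) (nat_lit 8) (nat_lit 10) (C.cons (nat_lit 1284) (C.node (nat_lit 1) (nat_lit 5) (nat_lit 10) (C.cons (nat_lit 1314) (C.node (nat_lit 2) (nat_lit 3) (nat_lit 8) (C.cons (nat_lit 398) (C.miq (nat_lit 1663346560) (nat_lit 33870897241748505560942465)) (C.cons (nat_lit 396) (C.miq (nat_lit 1663346560) (nat_lit 33870897241748496971007873)) (C.cons (nat_lit 270) (C.miq (nat_lit 1703086610) (nat_lit 359061833877846971938374663)) C.nil)))) C.nil)) C.nil)) C.nil))) C.nil))) C.nil))) C.nil))))) C.nil))) C.nil)) (C.cons (nat_lit 1538) (C.node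 (nat_lit 3) (nat_lit 9) (nat_lit 10) (C.cons (nat_lit 1544) (C.node (nat_lit 2) (nat_lit 3) (nat_lit 10) (C.cons (nat_lit 1292) (C.node (nat_lit 4) (nat_lit 8) (nat_lit 10) (C.cons (nat_lit 1298) (C.miq (nat_lit 439961632) (nat_lit 1866591261071450654425022741)) (C.cons (nat_lit 1296) (C.node (nat_lit 2) (nat_lit 3) (nat_lit 4) (C.cons (nat_lit 62) (C.miq (nat_lit 2032339540) (nat_lit 712060130645580043417158769)) (C.cons (nat_lit 60) (C.miq (nat_lit 2032339540) (nat_lit 712060130645580043417027697)) (C.cons (nat_lit 30) (C.miq (nat_lit 430129282) (nat_lit 1866582019036781120383090965)) (C.cons (nat_lit 28) (C.node (nat_lit 1) (nat_lit 4) (nat_lit 10) (C.cons (nat_lit 1050) (C.node (nat_lit 3) (nat_lit 5) (nat_lit 10) (C.cons (nat_lit 1064) (C.node (nat_lit 1) (nat_lit 5) (nat_lit 10) (C.cons (nat_lit 1314) (C.node (nat_lit 2) (nat_lit 3) (nat_lit 5) (C.cons (nat_lit 46) (C.miq (nat_lit 2555578898) (nat_lit 359061834098523353664848903))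 (C.cons (nat_lit 44) (C.node (nat_lit 1) (nat_lit 2) (nat_lit 3) (C.cons (nat_lit 142) (C.miq (nat_lit 1412893202) (nat_lit 184968694433851984051045383)) (C.cons (nat_lit 14) (C.node (nat_lit 2) (nat_lit 3) (nat_lit 7) C.nil) C.nil))) C.nil))) C.nil)) C.nil)) (C.cons (nat_lit 1042) (C.node (nat_lit 3) (nat_lit 4) (nat_lit 10) C.nil) C.nil))) C.nil))))) C.nil))) (C.cons (nat_lit 1036) (C.node (nat_lit 2) (nat_lit 8) (nat_lit 10) (C.cons (nat_lit 1284) (C.node (nat_lit 3) (nat_lit 5) (nat_lit 10) (C.cons (nat_lit 1066) (C.node (nat_lit 5) (nat_lit 8) (nat_lit 10) C.nil) C.nil)) C.nil)) C.nil))) C.nil)) C.nil))) (C.cons (nat_lit 1540) (C.node (nat_lit 1) (nat_lit 3) (nat_lit 6) (C.cons (nat_lit 346) (C.miq (nat_lit 882532615) (nat_lit 1876275450954043322330579139)) (C.cons (nat_lit 330) (C.node (nat_lit 1) (nat_lit 4) (nat_lit 6) (C.cons (nat_lit 82) (C.node (nat_lit 3) (nat_lit 4) (nat_lit 6) (C.cons (nat_lit 88) (C.node (nat_lit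 3) (nat_lit 7) (nat_lit 8) (C.cons (nat_lit 396) (C.miq (nat_lit 1177684600) (nat_lit 712062417821167307033675649)) (C.cons (nat_lit 392) (C.node (nat_lit 1) (nat_lit 2) (nat_lit 6) (C.cons (nat_lit 102)
  (C.node (nat_lit 1) (nat_lit 6) (nat_lit 9) (C.cons (nat_lit 578) (C.node (nat_lit 2) (nat_lit 6) (nat_lit 8) (C.cons (nat_lit 324) (C.node (nat_lit 2) (nat_lit 3) (nat_lit 7) (C.cons (nat_lit 142) (C.miq (nat_lit 828666448) (nat_lit 99134739600212754741395621)) (C.cons (nat_lit 140) (C.node (nat_lit 2) (nat_lit 7) (nat_lit 8) (C.cons (nat_lit 390) (C.miq (nat_lit 2171236944) (nat_lit 1317764579685087075556720805)) (C.cons (nat_lit 388) (C.node (nat_lit 5) (nat_lit 6) (nat_lit 7) (C.cons (nat_lit 736) (C.miq (nat_lit 443883670) (nat_lit 1431370052281825412895474253)) (C.cons (nat_lit 480) (C.miq (nat_lit 2249880864) (nat_lit 1317764579710419823453733029)) (C.cons (nat_lit 224) (C.node (nat_lit 1) (nat_lit 2) (nat_lit 3) C.nil)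 C.nil)))) C.nil))) C.nil))) C.nil)) C.nil)) (C.cons (nat_lit 70) (C.node (nat_lit 1) (nat_lit 5) (nat_lit 6) (C.cons (nat_lit 610) (C.node (nat_lit 1) (nat_lit 8) (nat_lit 9) (C.cons (nat_lit 774) (C.node (nat_lit 2) (nat_lit 7) (nat_lit 8) (C.cons (nat_lit 388) (C.node (nat_lit 1) (nat_lit 7) (nat_lit 9) (C.cons (nat_lit 650) (C.miq (nat_lit 1177619065) (nat_lit 398955316013973073027532673)) (C.cons (nat_lit 642) (C.node (nat_lit 2) (nat_lit 5) (nat_lit 9) (C.cons (nat_lit 564) (C.miq (nat_lit 369661250) (nat_lit 388079466047913635463103028)) (C.cons (nat_lit 548) (C.node (nat_lit 5) (nat_lit 8) (nat_lit 9) (C.cons (nat_lit 816) (C.miq (nat_lit 407212550) (nat_lit 986494721537285191141229133)) (C.cons (nat_lit 800) (C.node (nat_lit 6) (nat_lit 8) (nat_lit 9) (C.cons (nat_lit 848) (C.miq (nat_lit 711462985) (nat_lit 1624810579632180246420128275)) (C.cons (nat_lit 832) (C.node (nat_lit 2) (nat_lit 5) (nat_lit 6) (C.cons (nat_lit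 356) (C.node (nat_lit 5) (nat_lit 6) (nat_lit 7) C.nil) C.nil)) C.nil))) C.nil))) C.nil))) C.nil))) C.nil)) (C.cons (nat_lit 770) (C.node (nat_lit 1) (nat_lit 2) (nat_lit 9) (C.cons (nat_lit 646) (C.node (nat_lit 2) (nat_lit 3) (nat_lit 7) (C.cons (nat_lit 140) (C.node (nat_lit 2) (nat_lit 4) (nat_lit 7) (C.cons (nat_lit 148) (C.node (nat_lit 2) (nat_lit 7) (nat_lit 8) (C.cons (nat_lit 388) (C.node (nat_lit 1) (nat_lit 9) (nat_lit 10) (C.cons (nat_lit 1546) (C.node (nat_lit 1) (nat_lit 4) (nat_lit 10) C.nil) C.nil)) C.nil)) C.nil)) C.nil)) (C.cons (nat_lit 518) (C.node (nat_lit 1) (nat_lit 7) (nat_lit 9) (C.cons (nat_lit 650) (C.miq (nat_lit 1177619065) (nat_lit 398955316013973073027532673)) (C.cons (nat_lit 642) (C.node (nat_lit 1) (nat_lit 3) (nat_lit 9) (C.cons (nat_lit 1546) (C.node (nat_lit 5) (nat_lit 9) (nat_lit 10) (C.cons (nat_lit 1568) (C.node (nat_lit 1) (nat_lit 4) (nat_lit 10) (C.cons (nat_lit 1042) (C.node (nat_lit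 1) (nat_lit 5) (nat_lit 10) C.nil) C.nil)) C.nil)) (C.cons (nat_lit 522) (C.node (nat_lit 1) (nat_lit 9) (nat_lit 10) (C.cons (nat_lit 1538) (C.node (nat_lit 2) (nat_lit 5) (nat_lit 6) C.nil) C.nil)) C.nil))) C.nil))) C.nil))) C.nil))) (C.cons (nat_lit 98) (C.node (nat_lit 1) (nat_lit 6) (nat_lit 9) (C.cons (nat_lit 578) (C.node (nat_lit 2) (nat_lit 3) (nat_lit 7) (C.cons (nat_lit 142) (C.node (nat_lit 2) (nat_lit 7) (nat_lit 8) (C.cons (nat_lit 388) (C.node (nat_lit 2) (nat_lit 3) (nat_lit 4) (C.cons (nat_lit 60) (C.miq (nat_lit 323383888) (nat_lit 106389069281151445202174117)) (C.cons (nat_lit 28) (C.node (nat_lit 2) (nat_lit 5) (nat_lit 6) (C.cons (nat_lit 100) (C.node (nat_lit 2) (nat_lit 6) (nat_lit 8) C.nil) C.nil)) C.nil))) C.nil)) (C.cons (nat_lit 140) (C.node (nat_lit 2) (nat_lit 3) (nat_lit 8) (C.cons (nat_lit 1292) (C.node (nat_lit 2) (nat_lit 5) (nat_lit 10) (C.cons (nat_lit 1060) (C.node (nat_lit 2) (nat_lit 5) (nat_lit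 6) C.nil) C.nil)) (C.cons (nat_lit 268) (C.node (nat_lit 2) (nat_lit 3) (nat_lit 10) (C.cons (nat_lit 1068) (C.node (nat_lit 2) (nat_lit 8) (nat_lit 10) C.nil) (C.cons (nat_lit 1036) (C.node (nat_lit 2) (nat_lit 5) (nat_lit 6) C.nil) C.nil))) C.nil))) C.nil))) C.nil)) C.nil))) C.nil))) C.nil))) C.nil)) C.nil)) (C.cons (nat_lit 90) (C.miq (nat_lit 882532615) (nat_lit 1876275450881985728292651203)) (C.cons (nat_lit 74)
  (C.node (nat_lit 1) (nat_lit 4) (nat_lit 6) (C.cons (nat_lit 338) (C.node (nat_lit 3) (nat_lit 4) (nat_lit 6) (C.cons (nat_lit 88) (C.node (nat_lit 3) (nat_lit 6) (nat_lit 8) (C.cons (nat_lit 328) (C.node (nat_lit 2) (nat_lit 7) (nat_lit 8) (C.cons (nat_lit 398) (C.miq (nat_lit 1177684600) (nat_lit 712062417821167307033806721)) (C.cons (nat_lit 396) (C.miq (nat_lit 1177684600) (nat_lit 712062417821167307033675649)) (C.cons (nat_lit 390) (C.miq (nat_lit 1384384278) (nat_lit 334893426027709135370453187)) (C.cons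 (nat_lit 388) (C.node (nat_lit 1) (nat_lit 2) (nat_lit 6) (C.cons (nat_lit 102) (C.node (nat_lit 1) (nat_lit 6) (nat_lit 9) (C.cons (nat_lit 578) (C.node (nat_lit 2) (nat_lit 6) (nat_lit 8) (C.cons (nat_lit 324) (C.node (nat_lit 1) (nat_lit 4) (nat_lit 10) (C.cons (nat_lit 1050) (C.node (nat_lit 4) (nat_lit 8) (nat_lit 10) C.nil) C.nil)) C.nil)) C.nil)) (C.cons (nat_lit 70) (C.node (nat_lit 1) (nat_lit 4) (nat_lit 10) (C.cons (nat_lit 1050) (C.node (nat_lit 4) (nat_lit 8) (nat_lit 10) (C.cons (nat_lit 1296) (C.node (nat_lit 2) (nat_lit 3) (nat_lit 7) (C.cons (nat_lit 142) (C.miq (nat_lit 1412893202) (nat_lit 184968694433851984051045383)) (C.cons (nat_lit 140) (C.node (nat_lit 1) (nat_lit 5) (nat_lit 6) (C.cons (nat_lit 610) (C.node (nat_lit 6) (nat_lit 8) (nat_lit 9) C.nil) (C.cons (nat_lit 98) (C.node (nat_lit 1) (nat_lit 6) (nat_lit 9) (C.cons (nat_lit 578) (C.node (nat_lit 2) (nat_lit 5) (nat_lit 6) C.nil) C.nil)) C.nil)))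 C.nil))) C.nil)) (C.cons (nat_lit 1042) (C.node (nat_lit 1) (nat_lit 5) (nat_lit 6) (C.cons (nat_lit 610) (C.node (nat_lit 6) (nat_lit 8) (nat_lit 9) C.nil) (C.cons (nat_lit 98) (C.node (nat_lit 1) (nat_lit 6) (nat_lit 9) (C.cons (nat_lit 578) (C.node (nat_lit 2) (nat_lit 5) (nat_lit 6) C.nil) C.nil)) C.nil))) C.nil))) C.nil))) C.nil))))) C.nil)) C.nil)) (C.cons (nat_lit 82) (C.node (nat_lit 3) (nat_lit 4) (nat_lit 6) (C.cons (nat_lit 344) (C.node (nat_lit 3) (nat_lit 4) (nat_lit 9) (C.cons (nat_lit 568) (C.node (nat_lit 4) (nat_lit 8) (nat_lit 9) (C.cons (nat_lit 784) (C.node (nat_lit 3) (nat_lit 7) (nat_lit 9) (C.cons (nat_lit 650) (C.miq (nat_lit 1177619065) (nat_lit 89470306192628004302751617)) (C.cons (nat_lit 648) (C.node (nat_lit 4) (nat_lit 5) (nat_lit 7) (C.cons (nat_lit 434) (C.miq (nat_lit 1983189140) (nat_lit 125736291181739574346383891)) (C.cons (nat_lit 432) (C.miq (nat_lit 1952602160) (nat_lit 101552812681999680197689641))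 (C.cons (nat_lit 178) (C.miq (nat_lit 1983189140) (nat_lit 125731568815256704701170195)) (C.cons (nat_lit 176) (C.node (nat_lit 2) (nat_lit 3) (nat_lit 4) (C.cons (nat_lit 30) (C.node (nat_lit 2) (nat_lit 4) (nat_lit 5) (C.cons (nat_lit 52) (C.node (nat_lit 3) (nat_lit 4) (nat_lit 10) (C.cons (nat_lit 1048) (C.node (nat_lit 1) (nat_lit 4) (nat_lit 7) (C.cons (nat_lit 402) (C.miq (nat_lit 328679944) (nat_lit 783391346709844115612303637)) (C.cons (nat_lit 146) (C.node (nat_lit 4) (nat_lit 7) (nat_lit 8) (C.cons (nat_lit 400) (C.node (nat_lit 1) (nat_lit 4) (nat_lit 5) C.nil) C.nil)) C.nil))) C.nil)) C.nil)) (C.cons (nat_lit 28) (C.node (nat_lit 1) (nat_lit 3) (nat_lit 4) (C.cons (nat_lit 1050) (C.node (nat_lit 3) (nat_lit 9) (nat_lit 10) (C.cons (nat_lit 1544) (C.node (nat_lit 4) (nat_lit 8) (nat_lit 10) (C.cons (nat_lit 1296) (C.node (nat_lit 1) (nat_lit 8) (nat_lit 10) C.nil) C.nil)) C.nil)) (C.cons (nat_lit 26) (C.node (nat_lit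 3) (nat_lit 4) (nat_lit 10) (C.cons (nat_lit 1048) (C.node (nat_lit 1) (nat_lit 4) (nat_lit 10) (C.cons (nat_lit 1298) (C.node (nat_lit 2) (nat_lit 3) (nat_lit 8) (C.cons (nat_lit 398) (C.miq (nat_lit 1663346560) (nat_lit 33870897241748505560942465)) (C.cons (nat_lit 396) (C.miq (nat_lit 1663346560) (nat_lit 33870897241748496971007873)) (C.cons (nat_lit 270) (C.miq (nat_lit 2704689184) (nat_lit 89481484964850046138646805)) (C.cons (nat_lit 268) (C.miq (nat_lit 405972064) (nat_lit 324011138615216610646754417)) C.nil))))) (C.cons (nat_lit 1042)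
  (C.node (nat_lit 4) (nat_lit 8) (nat_lit 10) C.nil) C.nil))) C.nil)) C.nil))) C.nil))) C.nil))))) C.nil))) C.nil)) (C.cons (nat_lit 536) (C.node (nat_lit 3) (nat_lit 4) (nat_lit 10) (C.cons (nat_lit 1050) (C.node (nat_lit 4) (nat_lit 8) (nat_lit 10) (C.cons (nat_lit 1296) (C.node (nat_lit 2) (nat_lit 3) (nat_lit 7) (C.cons (nat_lit 398) (C.miq (nat_lit 1177684600) (nat_lit 712062417821167307033806721)) (C.cons (nat_lit 396) (C.miq (nat_lit 1177684600) (nat_lit 712062417821167307033675649)) (C.cons (nat_lit 142) (C.miq (nat_lit 1412893202) (nat_lit 184968694433851984051045383)) (C.cons (nat_lit 140) (C.node (nat_lit 1) (nat_lit 8) (nat_lit 10) (C.cons (nat_lit 1314) (C.node (nat_lit 1) (nat_lit 9) (nat_lit 10) (C.cons (nat_lit 1538) (C.node (nat_lit 2) (nat_lit 5) (nat_lit 10) (C.cons (nat_lit 1060) (C.node (nat_lit 2) (nat_lit 3) (nat_lit 10) C.nil) C.nil)) C.nil)) (C.cons (nat_lit 1282) (C.node (nat_lit 1) (nat_lit 5) (nat_lit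 10) (C.cons (nat_lit 1570) (C.node (nat_lit 3) (nat_lit 9) (nat_lit 10) (C.cons (nat_lit 1544) (C.node (nat_lit 3) (nat_lit 5) (nat_lit 10) C.nil) C.nil)) (C.cons (nat_lit 1058) (C.node (nat_lit 1) (nat_lit 9) (nat_lit 10) C.nil) C.nil))) C.nil))) C.nil))))) C.nil)) (C.cons (nat_lit 1048) (C.node (nat_lit 1) (nat_lit 4) (nat_lit 10) (C.cons (nat_lit 1298) (C.node (nat_lit 1) (nat_lit 3) (nat_lit 8) (C.cons (nat_lit 778) (C.miq (nat_lit 1094101136) (nat_lit 89481484964852227982034817)) (C.cons (nat_lit 398) (C.miq (nat_lit 1177684600) (nat_lit 712062417821167307033806721)) (C.cons (nat_lit 394) (C.miq (nat_lit 562235974) (nat_lit 476327638350629585638917233)) (C.cons (nat_lit 270) (C.miq (nat_lit 2704689184) (nat_lit 89481484964850046138646805)) (C.cons (nat_lit 266) (C.miq (nat_lit 562235974) (nat_lit 321585133439957051276526705)) C.nil)))))) (C.cons (nat_lit 1042) (C.node (nat_lit 4) (nat_lit 8) (nat_lit 10) (C.cons (nat_lit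 1296) (C.node (nat_lit 3) (nat_lit 8) (nat_lit 9) (C.cons (nat_lit 778) (C.node (nat_lit 1) (nat_lit 8) (nat_lit 10) (C.cons (nat_lit 1314) (C.miq (nat_lit 1362536592) (nat_lit 89481484969355827609405313)) (C.cons (nat_lit 1282) (C.node (nat_lit 1) (nat_lit 3) (nat_lit 10) C.nil) C.nil))) (C.cons (nat_lit 776) (C.node (nat_lit 4) (nat_lit 6) (nat_lit 7) (C.cons (nat_lit 720) (C.node (nat_lit 1) (nat_lit 8) (nat_lit 10) C.nil) (C.cons (nat_lit 208) (C.node (nat_lit 1) (nat_lit 8) (nat_lit 10) C.nil) C.nil))) C.nil))) C.nil)) C.nil))) C.nil))) C.nil))) (C.cons (nat_lit 88) (C.node (nat_lit 3) (nat_lit 6) (nat_lit 8) (C.cons (nat_lit 328) (C.node (nat_lit 3) (nat_lit 7) (nat_lit 9) (C.cons (nat_lit 682) (C.miq (nat_lit 1177619065) (nat_lit 89470306192628004304848769)) (C.cons (nat_lit 680) (C.node (nat_lit 1) (nat_lit 7) (nat_lit 9) (C.cons (nat_lit 646) (C.node (nat_lit 2) (nat_lit 4) (nat_lit 7) (C.cons (nat_lit 148) (C.node (nat_lit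 2) (nat_lit 3) (nat_lit 7) (C.cons (nat_lit 396) (C.miq (nat_lit 1177684600) (nat_lit 712062417821167307033675649)) (C.cons (nat_lit 140) (C.node (nat_lit 2) (nat_lit 7) (nat_lit 8) (C.cons (nat_lit 388) (C.node (nat_lit 2) (nat_lit 4) (nat_lit 9) (C.cons (nat_lit 564) (C.miq (nat_lit 1383483664) (nat_lit 236970434751233787429061139)) (C.cons (nat_lit 532) (C.node (nat_lit 2) (nat_lit 5) (nat_lit 9) (C.cons (nat_lit 804) (C.miq (nat_lit 1117194323) (nat_lit 780968901900865746168709417)) (C.cons (nat_lit 548) (C.node (nat_lit 2) (nat_lit 8) (nat_lit 9) (C.cons (nat_lit 772) (C.node (nat_lit 6) (nat_lit 7) (nat_lit 9) (C.cons (nat_lit 720) (C.miq (nat_lit 1192913184) (nat_lit 1395121369985958633219228237)) C.nil)) C.nil)) C.nil))) C.nil))) C.nil)) C.nil))) C.nil)) (C.cons (nat_lit 642) (C.node (nat_lit 2) (nat_lit 7) (nat_lit 9) (C.cons (nat_lit 660) (C.node (nat_lit 6) (nat_lit 7) (nat_lit 9) (C.cons (nat_lit 704) (C.node (nat_lit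 3) (nat_lit 4) (nat_lit 9) (C.cons (nat_lit 792) (C.node (nat_lit 4) (nat_lit 5) (nat_lit 9) (C.cons (nat_lit 560) (C.node (nat_lit 4) (nat_lit 6) (nat_lit 9) (C.cons (nat_lit 592)
  (C.node (nat_lit 4) (nat_lit 6) (nat_lit 7) (C.cons (nat_lit 464) (C.miq (nat_lit 1481048978) (nat_lit 560944624097561568880099917)) (C.cons (nat_lit 208) (C.node (nat_lit 4) (nat_lit 6) (nat_lit 8) C.nil) C.nil))) C.nil)) C.nil)) (C.cons (nat_lit 536) (C.miq (nat_lit 2207516018) (nat_lit 647989349145150643892388005)) C.nil))) C.nil)) (C.cons (nat_lit 644) (C.node (nat_lit 3) (nat_lit 4) (nat_lit 9) (C.cons (nat_lit 792) (C.miq (nat_lit 1232241488) (nat_lit 778553337802860708199989545)) (C.cons (nat_lit 536) (C.node (nat_lit 2) (nat_lit 4) (nat_lit 7) (C.cons (nat_lit 150) (C.node (nat_lit 2) (nat_lit 3) (nat_lit 4) (C.cons (nat_lit 60) (C.miq (nat_lit 2301888338) (nat_lit 647989349602266006031171749)) (C.cons (nat_lit 28) (C.node (nat_lit 2) (nat_lit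 3) (nat_lit 7) (C.cons (nat_lit 396) (C.miq (nat_lit 1663346560) (nat_lit 33870897241748496971007873)) (C.cons (nat_lit 140) (C.node (nat_lit 2) (nat_lit 7) (nat_lit 8) (C.cons (nat_lit 388) (C.node (nat_lit 1) (nat_lit 3) (nat_lit 7) C.nil) C.nil)) C.nil))) C.nil))) (C.cons (nat_lit 148) (C.node (nat_lit 2) (nat_lit 4) (nat_lit 9) (C.cons (nat_lit 564) (C.node (nat_lit 4) (nat_lit 5) (nat_lit 7) (C.cons (nat_lit 434) (C.miq (nat_lit 893556608) (nat_lit 681845027586315117657393025)) (C.cons (nat_lit 432) (C.miq (nat_lit 893556608) (nat_lit 681845027586315109067458433)) (C.cons (nat_lit 178) (C.miq (nat_lit 1649871169) (nat_lit 199476357517299370844881427)) (C.cons (nat_lit 176) (C.node (nat_lit 1) (nat_lit 2) (nat_lit 4) (C.cons (nat_lit 30) (C.node (nat_lit 3) (nat_lit 4) (nat_lit 5) (C.cons (nat_lit 56) (C.node (nat_lit 2) (nat_lit 3) (nat_lit 7) (C.cons (nat_lit 396) (C.miq (nat_lit 1663346560) (nat_lit 36288748880977755320420225))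 C.nil)) C.nil)) (C.cons (nat_lit 22) (C.node (nat_lit 2) (nat_lit 3) (nat_lit 4) (C.cons (nat_lit 28) (C.node (nat_lit 1) (nat_lit 4) (nat_lit 7) (C.cons (nat_lit 402) (C.node (nat_lit 1) (nat_lit 5) (nat_lit 7) C.nil) C.nil)) C.nil)) C.nil))) C.nil))))) (C.cons (nat_lit 532) (C.node (nat_lit 3) (nat_lit 8) (nat_lit 9) (C.cons (nat_lit 778) (C.node (nat_lit 3) (nat_lit 9) (nat_lit 10) (C.cons (nat_lit 1544) (C.node (nat_lit 1) (nat_lit 6) (nat_lit 9) (C.cons (nat_lit 610) (C.node (nat_lit 1) (nat_lit 2) (nat_lit 9) (C.cons (nat_lit 518) (C.node (nat_lit 1) (nat_lit 2) (nat_lit 6) C.nil) C.nil)) C.nil)) C.nil)) (C.cons (nat_lit 776) (C.node (nat_lit 1) (nat_lit 3) (nat_lit 9) (C.cons (nat_lit 1546) (C.node (nat_lit 1) (nat_lit 3) (nat_lit 5) (C.cons (nat_lit 62) (C.miq (nat_lit 1470177427) (nat_lit 1395101539579866259493880397)) (C.cons (nat_lit 58) (C.miq (nat_lit 557124247) (nat_lit 70120741540627995261667201)) (C.cons (nat_lit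 46) (C.miq (nat_lit 1470177427) (nat_lit 1395101244431961080141054541)) (C.cons (nat_lit 42) (C.miq (nat_lit 557124247) (nat_lit 50777928426793928466368385)) C.nil))))) (C.cons (nat_lit 522) (C.node (nat_lit 3) (nat_lit 9) (nat_lit 10) (C.cons (nat_lit 1544) (C.node (nat_lit 4) (nat_lit 7) (nat_lit 9) C.nil) C.nil)) C.nil))) C.nil))) C.nil))) C.nil))) C.nil))) C.nil))) C.nil))) (C.cons (nat_lit 650) (C.miq (nat_lit 1177619065) (nat_lit 89470306192628004302751617)) (C.cons (nat_lit 648) (C.node (nat_lit 3) (nat_lit 5) (nat_lit 7) (C.cons (nat_lit 170) (C.node (nat_lit 2) (nat_lit 3) (nat_lit 7) (C.cons (nat_lit 396) (C.miq (nat_lit 1177684600) (nat_lit 712062417821167307033675649)) (C.cons (nat_lit 140) (C.node (nat_lit 3) (nat_lit 7) (nat_lit 8) (C.cons (nat_lit 392) (C.node (nat_lit 1) (nat_lit 7) (nat_lit 9) (C.cons (nat_lit 646) (C.node (nat_lit 2) (nat_lit 4) (nat_lit 7) (C.cons (nat_lit 148) (C.node (nat_lit 2) (nat_lit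 7) (nat_lit 8) (C.cons (nat_lit 388) (C.node (nat_lit 2) (nat_lit 4) (nat_lit 9) (C.cons (nat_lit 564) (C.miq (nat_lit 1383483664) (nat_lit 236970434751233787429061139)) (C.cons (nat_lit 532) (C.node (nat_lit 1) (nat_lit 4) (nat_lit 7) (C.cons (nat_lit 146) (C.node (nat_lit 1) (nat_lit 7) (nat_lit 8) C.nil) C.nil)) C.nil))) C.nil)) C.nil)) (C.cons (nat_lit 642)
  (C.node (nat_lit 2) (nat_lit 7) (nat_lit 8) (C.cons (nat_lit 390) (C.node (nat_lit 1) (nat_lit 4) (nat_lit 7) (C.cons (nat_lit 146) (C.node (nat_lit 1) (nat_lit 2) (nat_lit 6) (C.cons (nat_lit 102) (C.miq (nat_lit 2171236944) (nat_lit 1317764579685087075556720805)) (C.cons (nat_lit 70) (C.node (nat_lit 1) (nat_lit 2) (nat_lit 3) C.nil) C.nil))) C.nil)) (C.cons (nat_lit 388) (C.node (nat_lit 1) (nat_lit 2) (nat_lit 7) (C.cons (nat_lit 150) (C.node (nat_lit 1) (nat_lit 7) (nat_lit 8) (C.cons (nat_lit 386) (C.node (nat_lit 2) (nat_lit 7) (nat_lit 9) (C.cons (nat_lit 644)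 (C.node (nat_lit 1) (nat_lit 2) (nat_lit 3) C.nil) C.nil)) C.nil)) (C.cons (nat_lit 134) (C.node (nat_lit 1) (nat_lit 4) (nat_lit 7) (C.cons (nat_lit 402) (C.node (nat_lit 4) (nat_lit 6) (nat_lit 7) (C.cons (nat_lit 720) (C.node (nat_lit 4) (nat_lit 6) (nat_lit 8) C.nil) C.nil)) (C.cons (nat_lit 146) (C.node (nat_lit 1) (nat_lit 7) (nat_lit 8) C.nil) C.nil))) C.nil))) C.nil))) C.nil))) C.nil)) C.nil))) (C.cons (nat_lit 168) (C.node (nat_lit 2) (nat_lit 3) (nat_lit 7) (C.cons (nat_lit 398) (C.miq (nat_lit 1177684600) (nat_lit 712062417821167307033806721)) (C.cons (nat_lit 396) (C.miq (nat_lit 1177684600) (nat_lit 712062417821167307033675649)) (C.cons (nat_lit 142) (C.node (nat_lit 2) (nat_lit 7) (nat_lit 8) (C.cons (nat_lit 388) (C.node (nat_lit 3) (nat_lit 7) (nat_lit 8) (C.cons (nat_lit 392) (C.node (nat_lit 2) (nat_lit 3) (nat_lit 4) (C.cons (nat_lit 60) (C.miq (nat_lit 323383888) (nat_lit 106389069281151445202174117)) (C.cons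 (nat_lit 28) (C.node (nat_lit 2) (nat_lit 3) (nat_lit 5) (C.cons (nat_lit 1068) (C.miq (nat_lit 1400283664) (nat_lit 1479746177456933802625664007)) (C.cons (nat_lit 44) (C.node (nat_lit 2) (nat_lit 3) (nat_lit 8) (C.cons (nat_lit 1292) (C.node (nat_lit 2) (nat_lit 5) (nat_lit 10) C.nil) C.nil)) C.nil))) C.nil))) C.nil)) C.nil)) (C.cons (nat_lit 140) (C.node (nat_lit 1) (nat_lit 3) (nat_lit 7) (C.cons (nat_lit 394) (C.node (nat_lit 2) (nat_lit 7) (nat_lit 8) (C.cons (nat_lit 388) (C.node (nat_lit 2) (nat_lit 3) (nat_lit 8) (C.cons (nat_lit 1292) (C.node (nat_lit 2) (nat_lit 5) (nat_lit 10) (C.cons (nat_lit 1060) (C.node (nat_lit 1) (nat_lit 2) (nat_lit 7) C.nil) C.nil)) (C.cons (nat_lit 268) (C.node (nat_lit 3) (nat_lit 8) (nat_lit 10) (C.cons (nat_lit 1304) (C.miq (nat_lit 1125558384) (nat_lit 89481484966539428549035905)) (C.cons (nat_lit 1288) (C.node (nat_lit 2) (nat_lit 3) (nat_lit 10) (C.cons (nat_lit 1068) (C.node (nat_lit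 2) (nat_lit 8) (nat_lit 10) C.nil) C.nil)) C.nil))) C.nil))) C.nil)) (C.cons (nat_lit 138) (C.node (nat_lit 3) (nat_lit 7) (nat_lit 8) (C.cons (nat_lit 392) (C.node (nat_lit 2) (nat_lit 7) (nat_lit 8) (C.cons (nat_lit 390) (C.node (nat_lit 1) (nat_lit 2) (nat_lit 6) (C.cons (nat_lit 102) (C.miq (nat_lit 2171236944) (nat_lit 1317764579685087075556720805)) C.nil)) (C.cons (nat_lit 388) (C.node (nat_lit 4) (nat_lit 6) (nat_lit 7) (C.cons (nat_lit 720) (C.node (nat_lit 4) (nat_lit 6) (nat_lit 8) (C.cons (nat_lit 336) (C.node (nat_lit 2) (nat_lit 4) (nat_lit 7) C.nil) C.nil)) (C.cons (nat_lit 464) (C.node (nat_lit 4) (nat_lit 6) (nat_lit 9) (C.cons (nat_lit 592) (C.node (nat_lit 5) (nat_lit 6) (nat_lit 7) C.nil) C.nil)) C.nil))) C.nil))) C.nil)) C.nil))) C.nil))))) C.nil))) C.nil))))) C.nil)) C.nil))) C.nil))) C.nil))))) C.nil))) C.nil))) C.nil)))) C.nil))) List.nil)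

theorem ok11_158 : okL par11 (nat_lit 159) c11_158 (nat_lit 158) = true := by decide +kernel

noncomputable def c11_159 : List C :=
  (List.cons (C.node (nat_lit 6) (nat_lit 8) (nat_lit 10) (C.cons (nat_lit 1344) (C.node (nat_lit 2) (nat_lit 7) (nat_lit 10) (C.cons (nat_lit 1172) (C.node (nat_lit 4) (nat_lit 9) (nat_lit 10) (C.cons (nat_lit 1560) (C.miq (nat_lit 346491190) (nat_lit 1416864657852909678980760141)) (C.cons (nat_lit 1552) (C.node (nat_lit 1) (nat_lit 7) (nat_lit 10) (C.cons (nat_lit 1186) (C.node (nat_lit 2) (nat_lit 7) (nat_lit 9) (C.cons (nat_lit 646) (C.miq (nat_lit 2527141975) (nat_lit 1317741060142411061538193573)) (C.cons (nat_lit 644) (C.node (nat_lit 1) (nat_lit 7) (nat_lit 9) (C.cons (nat_lit 650) (C.miq (nat_lit 396661600) (nat_lit 1416870855992412524503958093)) (C.cons (nat_lit 642) (C.node (nat_lit 2) (nat_lit 9) (nat_lit 10) (C.cons (nat_lit 1572) (C.miq (nat_lit 446068000) (nat_lit 1934284908832337126998474917))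 (C.cons (nat_lit 1540) (C.node (nat_lit 3) (nat_lit 5) (nat_lit 6) (C.cons (nat_lit 106) (C.miq (nat_lit 963731621) (nat_lit 776132331713260755366315121)) (C.cons (nat_lit 104) (C.node (nat_lit 5) (nat_lit 8) (nat_lit 10) (C.cons (nat_lit 1316) (C.miq (nat_lit 1517519424) (nat_lit 1479730682261722104640110869)) (C.cons (nat_lit 1312) (C.node (nat_lit 2) (nat_lit 5) (nat_lit 10) (C.cons (nat_lit 1068) (C.miq (nat_lit 1983189034) (nat_lit 125750163133283003961967623)) (C.cons (nat_lit 1060) (C.node (nat_lit 3) (nat_lit 5) (nat_lit 10) (C.cons (nat_lit 1576) (C.miq (nat_lit 372600986) (nat_lit 125750163133283003995260801)) (C.cons (nat_lit 1064) (C.node (nat_lit 5) (nat_lit 9) (nat_lit 10) (C.cons (nat_lit 1568) (C.node (nat_lit 1) (nat_lit 2) (nat_lit 7) (C.cons (nat_lit 398) (C.miq (nat_lit 1177684600) (nat_lit 712062417821167307033806721)) (C.cons (nat_lit 390) (C.miq (nat_lit 352877122) (nat_lit 359058162989567817387672724))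 (C.cons (nat_lit 142) (C.miq (nat_lit 1463197984) (nat_lit 1479746177490147849903342599)) (C.cons (nat_lit 134) (C.node (nat_lit 2) (nat_lit 3) (nat_lit 7) (C.cons (nat_lit 396) (C.miq (nat_lit 1177684600) (nat_lit 712062417821167307033675649)) (C.cons (nat_lit 140) (C.node (nat_lit 2) (nat_lit 7) (nat_lit 8) (C.cons (nat_lit 388) (C.node (nat_lit 4) (nat_lit 8) (nat_lit 10) (C.cons (nat_lit 1306) (C.miq (nat_lit 2188460122) (nat_lit 162020151354089851381220465)) (C.cons (nat_lit 1304) (C.miq (nat_lit 980780064) (nat_lit 1433791501112988496281534741)) (C.cons (nat_lit 1298) (C.miq (nat_lit 2188460122) (nat_lit 162020003780137261704807537)) (C.cons (nat_lit 1296) (C.node (nat_lit 1) (nat_lit 3) (nat_lit 7) (C.cons (nat_lit 394) (C.node (nat_lit 1) (nat_lit 4) (nat_lit 7) (C.cons (nat_lit 146) (C.node (nat_lit 1) (nat_lit 8) (nat_lit 10) (C.cons (nat_lit 1282) (C.node (nat_lit 1) (nat_lit 3) (nat_lit 6) (C.cons (nat_lit 90) (C.miq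 (nat_lit 2536573540) (nat_lit 476326568689985721913181297)) (C.cons (nat_lit 74) (C.node (nat_lit 2) (nat_lit 3) (nat_lit 8) (C.cons (nat_lit 268) (C.node (nat_lit 1) (nat_lit 4) (nat_lit 6) C.nil) C.nil)) C.nil))) C.nil)) C.nil)) (C.cons (nat_lit 138) (C.node (nat_lit 3) (nat_lit 7) (nat_lit 8) (C.cons (nat_lit 392) (C.node (nat_lit 1) (nat_lit 4) (nat_lit 7) (C.cons (nat_lit 402) (C.node (nat_lit 1) (nat_lit 4) (nat_lit 6) (C.cons (nat_lit 90) (C.miq (nat_lit 2536573540) (nat_lit 166841558868640653188400241)) (C.cons (nat_lit 82) (C.node (nat_lit 1) (nat_lit 2) (nat_lit 4) (C.cons (nat_lit 62) (C.miq (nat_lit 2266106452) (nat_lit 162001170117187251052872817)) (C.cons (nat_lit 54) (C.miq (nat_lit 2266106452) (nat_lit 162001170117187251052348529)) (C.cons (nat_lit 30) (C.miq (nat_lit 2534606914) (nat_lit 166842628779793397875343637)) (C.cons (nat_lit 22) (C.node (nat_lit 2) (nat_lit 3) (nat_lit 4) (C.cons (nat_lit 60) (C.miq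 (nat_lit 2267220549) (nat_lit 169255093969756440162468977)) (C.cons (nat_lit 28) (C.node (nat_lit 2) (nat_lit 3) (nat_lit 10) (C.cons (nat_lit 1292) (C.node (nat_lit 1) (nat_lit 8) (nat_lit 10) C.nil) C.nil)) C.nil))) C.nil))))) C.nil))) (C.cons (nat_lit 146) (C.node (nat_lit 1) (nat_lit 7) (nat_lit 8) (C.cons (nat_lit 386)
  (C.node (nat_lit 2) (nat_lit 3) (nat_lit 10) (C.cons (nat_lit 1292) (C.node (nat_lit 1) (nat_lit 8) (nat_lit 10) C.nil) C.nil)) C.nil)) C.nil))) C.nil)) C.nil))) C.nil))))) C.nil)) C.nil))) C.nil))))) C.nil)) C.nil))) C.nil))) C.nil))) C.nil))) C.nil))) C.nil))) C.nil))) (C.cons (nat_lit 1154) (C.node (nat_lit 5) (nat_lit 7) (nat_lit 10) (C.cons (nat_lit 1184) (C.node (nat_lit 2) (nat_lit 4) (nat_lit 9) (C.cons (nat_lit 564) (C.node (nat_lit 2) (nat_lit 9) (nat_lit 10) (C.cons (nat_lit 1540) (C.node (nat_lit 2) (nat_lit 7) (nat_lit 9) (C.cons (nat_lit 646) (C.miq (nat_lit 1383483664) (nat_lit 236970434751233787429061139))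 (C.cons (nat_lit 644) (C.node (nat_lit 1) (nat_lit 2) (nat_lit 4) (C.cons (nat_lit 30) (C.node (nat_lit 3) (nat_lit 4) (nat_lit 5) (C.cons (nat_lit 56) (C.node (nat_lit 2) (nat_lit 3) (nat_lit 7) (C.cons (nat_lit 396) (C.miq (nat_lit 1663346560) (nat_lit 36288748880977755320420225)) (C.cons (nat_lit 140) (C.node (nat_lit 1) (nat_lit 2) (nat_lit 9) (C.cons (nat_lit 774) (C.miq (nat_lit 2184679744) (nat_lit 169285051159275441340613139)) (C.cons (nat_lit 518) (C.node (nat_lit 2) (nat_lit 8) (nat_lit 9) (C.cons (nat_lit 772) (C.node (nat_lit 3) (nat_lit 4) (nat_lit 10) (C.cons (nat_lit 1304) (C.miq (nat_lit 874875504) (nat_lit 681839641312689149614294913)) (C.cons (nat_lit 1048) (C.node (nat_lit 1) (nat_lit 4) (nat_lit 7) (C.cons (nat_lit 434) (C.miq (nat_lit 1649871169) (nat_lit 199476357517299370861658643)) (C.cons (nat_lit 402) (C.miq (nat_lit 2166977584) (nat_lit 626259010868896578071756953)) (C.cons (nat_lit 178) (C.miq (nat_lit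 1649871169) (nat_lit 199476357517299370844881427)) (C.cons (nat_lit 146) (C.node (nat_lit 1) (nat_lit 2) (nat_lit 7) (C.cons (nat_lit 390) (C.node (nat_lit 3) (nat_lit 7) (nat_lit 8) (C.cons (nat_lit 392) (C.node (nat_lit 1) (nat_lit 2) (nat_lit 5) (C.cons (nat_lit 102) (C.miq (nat_lit 2171236944) (nat_lit 1317764579685087075556720805)) (C.cons (nat_lit 38) (C.node (nat_lit 1) (nat_lit 2) (nat_lit 6) (C.cons (nat_lit 70) (C.node (nat_lit 1) (nat_lit 4) (nat_lit 6) (C.cons (nat_lit 338) (C.miq (nat_lit 1384384278) (nat_lit 334893426027709135370453187)) (C.cons (nat_lit 82) (C.node (nat_lit 1) (nat_lit 4) (nat_lit 10) (C.cons (nat_lit 1298) (C.miq (nat_lit 1092986992) (nat_lit 45960155458723911217514369)) (C.cons (nat_lit 1042) (C.node (nat_lit 4) (nat_lit 8) (nat_lit 10) (C.cons (nat_lit 1296) (C.node (nat_lit 1) (nat_lit 8) (nat_lit 10) C.nil) C.nil)) C.nil))) C.nil))) C.nil)) C.nil))) C.nil)) (C.cons (nat_lit 134) (C.node (nat_lit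 2) (nat_lit 7) (nat_lit 8) (C.cons (nat_lit 388) (C.node (nat_lit 1) (nat_lit 4) (nat_lit 5) (C.cons (nat_lit 306) (C.node (nat_lit 1) (nat_lit 4) (nat_lit 6) (C.cons (nat_lit 82) (C.node (nat_lit 1) (nat_lit 4) (nat_lit 10) (C.cons (nat_lit 1042) (C.node (nat_lit 4) (nat_lit 5) (nat_lit 7) (C.cons (nat_lit 176) (C.node (nat_lit 4) (nat_lit 8) (nat_lit 10) (C.cons (nat_lit 1296) (C.node (nat_lit 1) (nat_lit 2) (nat_lit 5) C.nil) C.nil)) C.nil)) C.nil)) C.nil)) (C.cons (nat_lit 50) (C.node (nat_lit 1) (nat_lit 4) (nat_lit 6) (C.cons (nat_lit 338) (C.node (nat_lit 1) (nat_lit 4) (nat_lit 10) (C.cons (nat_lit 1042) (C.node (nat_lit 3) (nat_lit 4) (nat_lit 6) (C.cons (nat_lit 88) (C.node (nat_lit 3) (nat_lit 6) (nat_lit 8) (C.cons (nat_lit 328) (C.node (nat_lit 4) (nat_lit 8) (nat_lit 10) (C.cons (nat_lit 1296) (C.node (nat_lit 1) (nat_lit 2) (nat_lit 6) C.nil) C.nil)) C.nil)) C.nil)) C.nil)) (C.cons (nat_lit 82) (C.node (nat_lit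 1) (nat_lit 4) (nat_lit 8) (C.cons (nat_lit 1298) (C.node (nat_lit 3) (nat_lit 4) (nat_lit 6) (C.cons (nat_lit 344) (C.miq (nat_lit 2199995914) (nat_lit 36291718559076472030954609)) (C.cons (nat_lit 88) (C.node (nat_lit 3) (nat_lit 4) (nat_lit 8) (C.cons (nat_lit 792) (C.node (nat_lit 2) (nat_lit 3) (nat_lit 8) (C.cons (nat_lit 268) (C.miq (nat_lit 2721583252) (nat_lit 324016063820731524595581459)) C.nil)) (C.cons (nat_lit 280) (C.miq (nat_lit 2554530322) (nat_lit 338510095165074588974318599)) C.nil))) C.nil)))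
  (C.cons (nat_lit 274) (C.node (nat_lit 1) (nat_lit 4) (nat_lit 10) (C.cons (nat_lit 1042) (C.node (nat_lit 4) (nat_lit 8) (nat_lit 10) (C.cons (nat_lit 1296) (C.node (nat_lit 1) (nat_lit 8) (nat_lit 10) C.nil) C.nil)) C.nil)) C.nil))) C.nil))) C.nil))) C.nil)) C.nil))) C.nil))))) C.nil))) C.nil)) C.nil))) C.nil))) C.nil)) (C.cons (nat_lit 22) (C.node (nat_lit 2) (nat_lit 3) (nat_lit 4) (C.cons (nat_lit 28) (C.node (nat_lit 1) (nat_lit 2) (nat_lit 9) (C.cons (nat_lit 774) (C.node (nat_lit 1) (nat_lit 6) (nat_lit 9) (C.cons (nat_lit 610) (C.miq (nat_lit 369661250) (nat_lit 388079466047913635463103028)) (C.cons (nat_lit 578) (C.node (nat_lit 2) (nat_lit 6) (nat_lit 8) (C.cons (nat_lit 356) (C.miq (nat_lit 275289170) (nat_lit 388079466025677112308138548)) (C.cons (nat_lit 324) (C.node (nat_lit 2) (nat_lit 5) (nat_lit 8) (C.cons (nat_lit 1316) (C.miq (nat_lit 1380158064) (nat_lit 33855402002625611691526017)) (C.cons (nat_lit 292)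 (C.node (nat_lit 2) (nat_lit 7) (nat_lit 8) (C.cons (nat_lit 396) (C.miq (nat_lit 305436784) (nat_lit 33859718388176089454806913)) (C.cons (nat_lit 388) (C.node (nat_lit 1) (nat_lit 7) (nat_lit 4) (C.cons (nat_lit 434) (C.miq (nat_lit 840173959) (nat_lit 26599190549157205020641153)) (C.cons (nat_lit 178) (C.miq (nat_lit 1649871169) (nat_lit 199476357517299370844881427)) (C.cons (nat_lit 402) (C.miq (nat_lit 840173959) (nat_lit 26599190549157205018544001)) (C.cons (nat_lit 146) (C.node (nat_lit 8) (nat_lit 4) (nat_lit 10) (C.cons (nat_lit 1306) (C.miq (nat_lit 874875504) (nat_lit 681839641313252099567716225)) (C.cons (nat_lit 1304) (C.miq (nat_lit 874875504) (nat_lit 681839641312689149614294913)) (C.cons (nat_lit 1298) (C.miq (nat_lit 1645480330) (nat_lit 26617342145325735276054401)) (C.cons (nat_lit 1296) (C.node (nat_lit 1) (nat_lit 7) (nat_lit 2) (C.cons (nat_lit 142) (C.node (nat_lit 7) (nat_lit 8) (nat_lit 3) (C.cons (nat_lit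 392) (C.node (nat_lit 1) (nat_lit 4) (nat_lit 10) (C.cons (nat_lit 1050) (C.miq (nat_lit 1463026202) (nat_lit 184986624395494052601660423)) (C.cons (nat_lit 1042) (C.node (nat_lit 4) (nat_lit 10) (nat_lit 3) (C.cons (nat_lit 1048) (C.node (nat_lit 8) (nat_lit 10) (nat_lit 2) (C.cons (nat_lit 1284) (C.node (nat_lit 1) (nat_lit 2) (nat_lit 6) C.nil) C.nil)) C.nil)) C.nil))) C.nil)) (C.cons (nat_lit 134) (C.node (nat_lit 7) (nat_lit 2) (nat_lit 3) (C.cons (nat_lit 140) (C.node (nat_lit 1) (nat_lit 2) (nat_lit 3) (C.cons (nat_lit 46) (C.node (nat_lit 1) (nat_lit 2) (nat_lit 6) C.nil) C.nil)) C.nil)) C.nil))) C.nil))))) C.nil))))) C.nil))) C.nil))) C.nil))) C.nil))) (C.cons (nat_lit 518) (C.node (nat_lit 2) (nat_lit 8) (nat_lit 9) (C.cons (nat_lit 772) (C.node (nat_lit 3) (nat_lit 4) (nat_lit 5) (C.cons (nat_lit 58) (C.node (nat_lit 3) (nat_lit 5) (nat_lit 6) (C.cons (nat_lit 104) (C.node (nat_lit 3) (nat_lit 4) (nat_lit 10) (C.cons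 (nat_lit 1304) (C.miq (nat_lit 874875504) (nat_lit 681839641312689149614294913)) (C.cons (nat_lit 1048) (C.node (nat_lit 1) (nat_lit 5) (nat_lit 10) (C.cons (nat_lit 1570) (C.miq (nat_lit 933576849) (nat_lit 1431369240377951140177904147)) (C.cons (nat_lit 1314) (C.miq (nat_lit 1201746053) (nat_lit 1395101465789512264919941417)) (C.cons (nat_lit 1058) (C.node (nat_lit 5) (nat_lit 8) (nat_lit 10) (C.cons (nat_lit 1316) (C.miq (nat_lit 1380158064) (nat_lit 33855402002625611691526017)) (C.cons (nat_lit 1312) (C.node (nat_lit 3) (nat_lit 7) (nat_lit 8) (C.cons (nat_lit 398) (C.miq (nat_lit 1663346560) (nat_lit 33870897241748505560942465)) (C.cons (nat_lit 396) (C.miq (nat_lit 1663346560) (nat_lit 33870897241748496971007873)) (C.cons (nat_lit 394) (C.miq (nat_lit 2170188608) (nat_lit 1279078953458544652894404761)) (C.cons (nat_lit 392) (C.node (nat_lit 1) (nat_lit 3) (nat_lit 6) (C.cons (nat_lit 330) (C.node (nat_lit 1) (nat_lit 4)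 (nat_lit 6) (C.cons (nat_lit 82) (C.node (nat_lit 3) (nat_lit 4) (nat_lit 6) (C.cons (nat_lit 88) (C.node (nat_lit 1) (nat_lit 8) (nat_lit 9) (C.cons (nat_lit 802) (C.miq (nat_lit 2018707732) (nat_lit 359053791318105017277874707))
  (C.cons (nat_lit 770) (C.node (nat_lit 1) (nat_lit 2) (nat_lit 3) (C.cons (nat_lit 142) (C.node (nat_lit 2) (nat_lit 5) (nat_lit 10) C.nil) (C.cons (nat_lit 14) (C.node (nat_lit 1) (nat_lit 3) (nat_lit 7) (C.cons (nat_lit 650) (C.miq (nat_lit 1662298000) (nat_lit 70138671830188463150532481)) C.nil)) C.nil))) C.nil))) C.nil)) C.nil)) (C.cons (nat_lit 74) (C.node (nat_lit 1) (nat_lit 4) (nat_lit 6) (C.cons (nat_lit 338) (C.node (nat_lit 1) (nat_lit 4) (nat_lit 7) (C.cons (nat_lit 146) (C.node (nat_lit 1) (nat_lit 4) (nat_lit 10) (C.cons (nat_lit 1042) (C.node (nat_lit 3) (nat_lit 4) (nat_lit 6) (C.cons (nat_lit 88) (C.node (nat_lit 4) (nat_lit 8) (nat_lit 10) C.nil) C.nil)) C.nil)) C.nil)) (C.cons (nat_lit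 82) (C.node (nat_lit 1) (nat_lit 4) (nat_lit 7) (C.cons (nat_lit 402) (C.node (nat_lit 1) (nat_lit 4) (nat_lit 10) (C.cons (nat_lit 1042) (C.node (nat_lit 2) (nat_lit 7) (nat_lit 8) (C.cons (nat_lit 388) (C.node (nat_lit 1) (nat_lit 8) (nat_lit 10) C.nil) C.nil)) C.nil)) (C.cons (nat_lit 146) (C.node (nat_lit 1) (nat_lit 4) (nat_lit 8) (C.cons (nat_lit 1298) (C.node (nat_lit 1) (nat_lit 3) (nat_lit 10) (C.cons (nat_lit 1546) (C.miq (nat_lit 826448512) (nat_lit 26607233598947145649817473)) C.nil)) (C.cons (nat_lit 274) (C.node (nat_lit 1) (nat_lit 4) (nat_lit 10) C.nil) C.nil))) C.nil))) C.nil))) C.nil))) C.nil))))) C.nil))) C.nil)))) C.nil))) C.nil)) (C.cons (nat_lit 56) (C.node (nat_lit 3) (nat_lit 4) (nat_lit 9) (C.cons (nat_lit 792) (C.node (nat_lit 3) (nat_lit 4) (nat_lit 6) (C.cons (nat_lit 90) (C.miq (nat_lit 2204603408) (nat_lit 1479760639626600274003690003)) (C.cons (nat_lit 88) (C.node (nat_lit 4) (nat_lit 8) (nat_lit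 10) (C.cons (nat_lit 1298) (C.miq (nat_lit 338864272) (nat_lit 33868941907707532862621569)) (C.cons (nat_lit 1296) (C.node (nat_lit 2) (nat_lit 8) (nat_lit 10) (C.cons (nat_lit 1316) (C.miq (nat_lit 1380158064) (nat_lit 33855402002625611691526017)) (C.cons (nat_lit 1292) (C.miq (nat_lit 305400457) (nat_lit 33859718460519006802020225)) (C.cons (nat_lit 1284) (C.node (nat_lit 1) (nat_lit 4) (nat_lit 7) (C.cons (nat_lit 434) (C.miq (nat_lit 877828208) (nat_lit 681845027617840315041646465)) (C.cons (nat_lit 402) (C.miq (nat_lit 372535448) (nat_lit 106392887772095148860114817)) (C.cons (nat_lit 178) (C.miq (nat_lit 1649871169) (nat_lit 199476357517299370844881427)) (C.cons (nat_lit 146) (C.node (nat_lit 4) (nat_lit 5) (nat_lit 7) (C.cons (nat_lit 432) (C.miq (nat_lit 877828208) (nat_lit 681845027617840306451711873)) (C.cons (nat_lit 176) (C.node (nat_lit 3) (nat_lit 7) (nat_lit 9) (C.cons (nat_lit 682) (C.miq (nat_lit 607455383) (nat_lit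 67702889689163366067210113)) (C.cons (nat_lit 680) (C.miq (nat_lit 607455383) (nat_lit 67702889689163366067079041)) (C.cons (nat_lit 650) (C.miq (nat_lit 342069415) (nat_lit 106397462659203374674085761)) (C.cons (nat_lit 648) (C.node (nat_lit 1) (nat_lit 3) (nat_lit 4) (C.cons (nat_lit 1050) (C.node (nat_lit 3) (nat_lit 8) (nat_lit 10) (C.cons (nat_lit 1288) (C.node (nat_lit 1) (nat_lit 4) (nat_lit 5) (C.cons (nat_lit 306) (C.node (nat_lit 1) (nat_lit 4) (nat_lit 6) C.nil) C.nil)) C.nil)) (C.cons (nat_lit 26) (C.node (nat_lit 1) (nat_lit 4) (nat_lit 10) (C.cons (nat_lit 1042) (C.node (nat_lit 3) (nat_lit 4) (nat_lit 10) C.nil) C.nil)) C.nil))) C.nil))))) C.nil))) C.nil))))) C.nil)))) C.nil))) C.nil))) (C.cons (nat_lit 536) (C.node (nat_lit 3) (nat_lit 5) (nat_lit 6) (C.cons (nat_lit 106) (C.node (nat_lit 3) (nat_lit 8) (nat_lit 9) (C.cons (nat_lit 778) (C.miq (nat_lit 2439676752) (nat_lit 1317764579794299383700324649)) (C.cons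 (nat_lit 776) (C.node (nat_lit 5) (nat_lit 8) (nat_lit 10) (C.cons (nat_lit 1316) (C.miq (nat_lit 1380158064) (nat_lit 33855402002625611691526017)) (C.cons (nat_lit 1314) (C.miq (nat_lit 328750602) (nat_lit 938150675072503971315778673)) (C.cons (nat_lit 1312) (C.node (nat_lit 1) (nat_lit 2) (nat_lit 3) (C.cons (nat_lit 398) (C.miq (nat_lit 1663346560) (nat_lit 33870897241748505560942465)) (C.cons (nat_lit 270)
  (C.miq (nat_lit 1679904899) (nat_lit 26598323706431893299659049)) (C.cons (nat_lit 142) (C.miq (nat_lit 306526118) (nat_lit 681836117657497148215854280)) (C.cons (nat_lit 14) (C.node (nat_lit 2) (nat_lit 3) (nat_lit 7) (C.cons (nat_lit 396) (C.miq (nat_lit 1663346560) (nat_lit 33870897241748496971007873)) (C.cons (nat_lit 140) (C.node (nat_lit 3) (nat_lit 7) (nat_lit 8) (C.cons (nat_lit 394) (C.miq (nat_lit 2822047510) (nat_lit 359071942914271795133153475)) (C.cons (nat_lit 392) (C.node (nat_lit 1) (nat_lit 3) (nat_lit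 7) (C.cons (nat_lit 650) (C.miq (nat_lit 1177619065) (nat_lit 128155932420296137893349249)) (C.cons (nat_lit 138) (C.node (nat_lit 1) (nat_lit 4) (nat_lit 5) (C.cons (nat_lit 434) (C.miq (nat_lit 2184265829) (nat_lit 16932967439503896682824817)) (C.cons (nat_lit 306) (C.miq (nat_lit 2184265829) (nat_lit 16930606256262461860217969)) (C.cons (nat_lit 178) (C.miq (nat_lit 1649871169) (nat_lit 199476357517299370844881427)) (C.cons (nat_lit 50) (C.node (nat_lit 1) (nat_lit 2) (nat_lit 5) (C.cons (nat_lit 294) (C.node (nat_lit 1) (nat_lit 2) (nat_lit 6) C.nil) (C.cons (nat_lit 38) (C.node (nat_lit 1) (nat_lit 2) (nat_lit 6) C.nil) C.nil))) C.nil))))) C.nil))) C.nil))) C.nil))) C.nil))))) C.nil)))) C.nil))) (C.cons (nat_lit 104) (C.node (nat_lit 3) (nat_lit 8) (nat_lit 9) (C.cons (nat_lit 778) (C.node (nat_lit 1) (nat_lit 3) (nat_lit 6) (C.cons (nat_lit 90) (C.miq (nat_lit 1931060800) (nat_lit 940579724200072852045759601)) (C.cons (nat_lit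 74) (C.node (nat_lit 3) (nat_lit 7) (nat_lit 8) (C.cons (nat_lit 396) (C.miq (nat_lit 1663346560) (nat_lit 33870897241748496971007873)) (C.cons (nat_lit 392) (C.node (nat_lit 1) (nat_lit 8) (nat_lit 10) (C.cons (nat_lit 1314) (C.miq (nat_lit 1362536592) (nat_lit 89481484969355827609405313)) (C.cons (nat_lit 1298) (C.miq (nat_lit 1094101136) (nat_lit 89481484964852227982034817)) (C.cons (nat_lit 1282) (C.node (nat_lit 4) (nat_lit 8) (nat_lit 10) (C.cons (nat_lit 1304) (C.miq (nat_lit 874875504) (nat_lit 681839641312689149614294913)) (C.cons (nat_lit 1296) (C.node (nat_lit 5) (nat_lit 8) (nat_lit 10) (C.cons (nat_lit 1316) (C.miq (nat_lit 1380158064) (nat_lit 33855402002625611691526017)) (C.cons (nat_lit 1312) (C.node (nat_lit 1) (nat_lit 4) (nat_lit 5) (C.cons (nat_lit 434) (C.miq (nat_lit 1649871169) (nat_lit 199476357517299370861658643)) (C.cons (nat_lit 306) (C.miq (nat_lit 1669662996) (nat_lit 359071942539348775435108883))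 (C.cons (nat_lit 178) (C.miq (nat_lit 1649871169) (nat_lit 199476357517299370844881427)) (C.cons (nat_lit 50) (C.node (nat_lit 1) (nat_lit 3) (nat_lit 4) (C.cons (nat_lit 1050) (C.node (nat_lit 1) (nat_lit 5) (nat_lit 10) (C.cons (nat_lit 1570) (C.node (nat_lit 3) (nat_lit 9) (nat_lit 10) C.nil) C.nil)) (C.cons (nat_lit 26) (C.node (nat_lit 1) (nat_lit 4) (nat_lit 10) C.nil) C.nil))) C.nil))))) C.nil))) C.nil))) C.nil)))) C.nil))) C.nil))) (C.cons (nat_lit 776) (C.node (nat_lit 4) (nat_lit 7) (nat_lit 9) (C.cons (nat_lit 720) (C.node (nat_lit 4) (nat_lit 8) (nat_lit 9) (C.cons (nat_lit 784) (C.node (nat_lit 2) (nat_lit 5) (nat_lit 10) (C.cons (nat_lit 1316) (C.miq (nat_lit 1380158064) (nat_lit 33855402002625611691526017)) (C.cons (nat_lit 1068) (C.miq (nat_lit 1932094036) (nat_lit 712070589753279613334979697)) (C.cons (nat_lit 1060) (C.node (nat_lit 4) (nat_lit 5) (nat_lit 7) (C.cons (nat_lit 434) (C.miq (nat_lit 1683199872)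 (nat_lit 67710711233342495976392577)) (C.cons (nat_lit 432) (C.miq (nat_lit 1683199872) (nat_lit 67710711233342487386457985)) (C.cons (nat_lit 178) (C.miq (nat_lit 1649871169) (nat_lit 199476357517299370844881427)) (C.cons (nat_lit 176) (C.node (nat_lit 1) (nat_lit 4) (nat_lit 5) (C.cons (nat_lit 306) (C.node (nat_lit 1) (nat_lit 4) (nat_lit 7) (C.cons (nat_lit 146) (C.node (nat_lit 4) (nat_lit 7) (nat_lit 8) C.nil) C.nil)) (C.cons (nat_lit 50) (C.node (nat_lit 4) (nat_lit 5) (nat_lit 8) (C.cons (nat_lit 304) (C.node (nat_lit 1) (nat_lit 4) (nat_lit 7) (C.cons (nat_lit 146)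
  (C.node (nat_lit 4) (nat_lit 7) (nat_lit 8) C.nil) C.nil)) C.nil)) C.nil))) C.nil))))) C.nil)))) C.nil)) (C.cons (nat_lit 656) (C.node (nat_lit 4) (nat_lit 6) (nat_lit 7) (C.cons (nat_lit 464) (C.node (nat_lit 4) (nat_lit 6) (nat_lit 9) (C.cons (nat_lit 592) (C.node (nat_lit 4) (nat_lit 8) (nat_lit 9) (C.cons (nat_lit 784) (C.node (nat_lit 1) (nat_lit 4) (nat_lit 6) (C.cons (nat_lit 90) (C.miq (nat_lit 2739500560) (nat_lit 648019675853332591766864067)) (C.cons (nat_lit 82) (C.node (nat_lit 3) (nat_lit 4) (nat_lit 6) (C.cons (nat_lit 88) (C.node (nat_lit 1) (nat_lit 4) (nat_lit 7) C.nil) C.nil)) C.nil))) C.nil)) C.nil)) (C.cons (nat_lit 208) (C.node (nat_lit 4) (nat_lit 6) (nat_lit 9) (C.cons (nat_lit 848) (C.node (nat_lit 1) (nat_lit 4) (nat_lit 6) (C.cons (nat_lit 90) (C.miq (nat_lit 2739500560) (nat_lit 648019675853332591766864067)) (C.cons (nat_lit 82) (C.node (nat_lit 3) (nat_lit 4) (nat_lit 6) (C.cons (nat_lit 88) (C.node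 (nat_lit 6) (nat_lit 7) (nat_lit 9) (C.cons (nat_lit 736) (C.miq (nat_lit 610601111) (nat_lit 1374551700692577744446293889)) (C.cons (nat_lit 704) (C.node (nat_lit 1) (nat_lit 3) (nat_lit 4) (C.cons (nat_lit 26) (C.node (nat_lit 1) (nat_lit 4) (nat_lit 10) C.nil) C.nil)) C.nil))) C.nil)) C.nil))) (C.cons (nat_lit 592) (C.node (nat_lit 4) (nat_lit 8) (nat_lit 9) (C.cons (nat_lit 784) (C.node (nat_lit 6) (nat_lit 7) (nat_lit 8) (C.cons (nat_lit 480) (C.node (nat_lit 6) (nat_lit 7) (nat_lit 9) (C.cons (nat_lit 704) (C.node (nat_lit 2) (nat_lit 5) (nat_lit 6) (C.cons (nat_lit 102) (C.miq (nat_lit 2249880864) (nat_lit 1317764579710419823453733029)) C.nil)) C.nil)) (C.cons (nat_lit 448) (C.node (nat_lit 5) (nat_lit 6) (nat_lit 7) (C.cons (nat_lit 736) (C.node (nat_lit 1) (nat_lit 7) (nat_lit 9) (C.cons (nat_lit 650) (C.miq (nat_lit 396661600) (nat_lit 1416870855992412524503958093)) (C.cons (nat_lit 642) (C.node (nat_lit 3) (nat_lit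 7) (nat_lit 9) C.nil) C.nil))) (C.cons (nat_lit 224) (C.node (nat_lit 6) (nat_lit 7) (nat_lit 9) C.nil) C.nil))) C.nil))) C.nil)) C.nil))) C.nil))) C.nil))) C.nil))) C.nil))) C.nil))) C.nil))) C.nil)) C.nil))) C.nil)) C.nil))) C.nil))) C.nil)) (C.cons (nat_lit 532) (C.node (nat_lit 2) (nat_lit 7) (nat_lit 9) (C.cons (nat_lit 646) (C.node (nat_lit 2) (nat_lit 3) (nat_lit 7) (C.cons (nat_lit 396) (C.miq (nat_lit 1177684600) (nat_lit 712062417821167307033675649)) (C.cons (nat_lit 140) (C.node (nat_lit 2) (nat_lit 7) (nat_lit 8) (C.cons (nat_lit 388) (C.node (nat_lit 2) (nat_lit 9) (nat_lit 10) (C.cons (nat_lit 1572) (C.miq (nat_lit 430338640) (nat_lit 1934284908680340639610634405)) (C.cons (nat_lit 1540) (C.node (nat_lit 4) (nat_lit 7) (nat_lit 9) (C.cons (nat_lit 720) (C.miq (nat_lit 1192913184) (nat_lit 1395121369985958633219228237)) (C.cons (nat_lit 688) (C.miq (nat_lit 1462389008) (nat_lit 1416882034730014759109198355)) (C.cons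 (nat_lit 656) (C.node (nat_lit 6) (nat_lit 7) (nat_lit 9) (C.cons (nat_lit 736) (C.miq (nat_lit 1461348640) (nat_lit 1395121369990462232846598733)) (C.cons (nat_lit 704) (C.node (nat_lit 2) (nat_lit 4) (nat_lit 5) (C.cons (nat_lit 62) (C.miq (nat_lit 2267220549) (nat_lit 169255093969756440162600049)) (C.cons (nat_lit 60) (C.miq (nat_lit 2267220549) (nat_lit 169255093969756440162468977)) (C.cons (nat_lit 54) (C.miq (nat_lit 2804222228) (nat_lit 199493734725141826400289299)) (C.cons (nat_lit 52) (C.node (nat_lit 1) (nat_lit 2) (nat_lit 4) (C.cons (nat_lit 30) (C.node (nat_lit 3) (nat_lit 4) (nat_lit 10) (C.cons (nat_lit 1304) (C.miq (nat_lit 874875504) (nat_lit 62869621669999012164732801)) (C.cons (nat_lit 1048) (C.node (nat_lit 1) (nat_lit 4) (nat_lit 7) (C.cons (nat_lit 434) (C.miq (nat_lit 1394704535) (nat_lit 36275780558967463047726977)) (C.cons (nat_lit 402) (C.miq (nat_lit 963715204) (nat_lit 780966633039169670087835925))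 (C.cons (nat_lit 178) (C.miq (nat_lit 1651837204) (nat_lit 199493734350217157429821971)) (C.cons (nat_lit 146) (C.node (nat_lit 1) (nat_lit 4) (nat_lit 5) (C.cons (nat_lit 306) (C.node (nat_lit 1) (nat_lit 4) (nat_lit 6)
  (C.cons (nat_lit 82) (C.node (nat_lit 1) (nat_lit 4) (nat_lit 10) (C.cons (nat_lit 1042) (C.node (nat_lit 4) (nat_lit 5) (nat_lit 7) (C.cons (nat_lit 176) (C.node (nat_lit 4) (nat_lit 8) (nat_lit 10) (C.cons (nat_lit 1296) (C.node (nat_lit 1) (nat_lit 2) (nat_lit 5) (C.cons (nat_lit 102) (C.miq (nat_lit 1517379730) (nat_lit 1395102277723222885179720269)) (C.cons (nat_lit 38) (C.node (nat_lit 1) (nat_lit 2) (nat_lit 6) C.nil) C.nil))) C.nil)) C.nil)) C.nil)) C.nil)) (C.cons (nat_lit 50) (C.node (nat_lit 1) (nat_lit 4) (nat_lit 6) (C.cons (nat_lit 338) (C.node (nat_lit 1) (nat_lit 4) (nat_lit 10) (C.cons (nat_lit 1042) (C.node (nat_lit 3) (nat_lit 4) (nat_lit 6) (C.cons (nat_lit 88) (C.node (nat_lit 3) (nat_lit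 6) (nat_lit 8) (C.cons (nat_lit 328) (C.node (nat_lit 4) (nat_lit 6) (nat_lit 7) (C.cons (nat_lit 208) (C.node (nat_lit 4) (nat_lit 6) (nat_lit 9) C.nil) C.nil)) C.nil)) C.nil)) C.nil)) (C.cons (nat_lit 82) (C.node (nat_lit 1) (nat_lit 4) (nat_lit 8) (C.cons (nat_lit 1298) (C.node (nat_lit 3) (nat_lit 4) (nat_lit 5) (C.cons (nat_lit 568) (C.miq (nat_lit 2218369312) (nat_lit 686705302101829615939814407)) (C.cons (nat_lit 56) (C.node (nat_lit 3) (nat_lit 4) (nat_lit 6) (C.cons (nat_lit 344) (C.miq (nat_lit 2199995914) (nat_lit 36291718559076472030954609)) (C.cons (nat_lit 88) (C.node (nat_lit 3) (nat_lit 4) (nat_lit 8) (C.cons (nat_lit 792) (C.node (nat_lit 4) (nat_lit 5) (nat_lit 9) (C.cons (nat_lit 560) (C.node (nat_lit 4) (nat_lit 6) (nat_lit 9) C.nil) C.nil)) (C.cons (nat_lit 280) (C.miq (nat_lit 2554530322) (nat_lit 338510095165074588974318599)) C.nil))) C.nil))) C.nil))) (C.cons (nat_lit 274) (C.node (nat_lit 1) (nat_lit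 4) (nat_lit 10) (C.cons (nat_lit 1042) (C.node (nat_lit 4) (nat_lit 8) (nat_lit 10) (C.cons (nat_lit 1296) (C.node (nat_lit 4) (nat_lit 6) (nat_lit 7) (C.cons (nat_lit 464) (C.node (nat_lit 3) (nat_lit 4) (nat_lit 6) C.nil) C.nil)) C.nil)) C.nil)) C.nil))) C.nil))) C.nil))) C.nil))))) C.nil))) (C.cons (nat_lit 22) (C.node (nat_lit 2) (nat_lit 3) (nat_lit 4) (C.cons (nat_lit 28) (C.ref (nat_lit 109) (nat_lit 7229140141840)) C.nil)) C.nil))) C.nil))))) C.nil))) C.nil)))) C.nil))) C.nil)) C.nil))) (C.cons (nat_lit 644) (C.ref (nat_lit 112) (nat_lit 7229140141840)) C.nil))) C.nil))) C.nil)) C.nil))) C.nil))) (C.cons (nat_lit 1156) (C.node (nat_lit 4) (nat_lit 7) (nat_lit 10) (C.cons (nat_lit 1170) (C.miq (nat_lit 443107120) (nat_lit 1934291106933840799131828377)) (C.cons (nat_lit 1168) (C.node (nat_lit 1) (nat_lit 7) (nat_lit 10) (C.cons (nat_lit 1186) (C.node (nat_lit 1) (nat_lit 7) (nat_lit 9) (C.cons (nat_lit 650) (C.miq (nat_lit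 396661600) (nat_lit 1412035152713954007805133389)) (C.cons (nat_lit 646) (C.miq (nat_lit 2527141975) (nat_lit 1317741060142411061538193573)) (C.cons (nat_lit 642) (C.node (nat_lit 3) (nat_lit 5) (nat_lit 6) (C.cons (nat_lit 106) (C.miq (nat_lit 963731621) (nat_lit 776132331713260755366315121)) (C.cons (nat_lit 104) (C.node (nat_lit 3) (nat_lit 5) (nat_lit 10) (C.cons (nat_lit 1576) (C.miq (nat_lit 372600986) (nat_lit 125750163133283003995260801)) (C.cons (nat_lit 1068) (C.miq (nat_lit 1983189034) (nat_lit 125750163133283003961967623)) (C.cons (nat_lit 1064) (C.node (nat_lit 5) (nat_lit 9) (nat_lit 10) (C.cons (nat_lit 1572) (C.miq (nat_lit 446068000) (nat_lit 1934284908832337126998474917)) (C.cons (nat_lit 1568) (C.node (nat_lit 2) (nat_lit 3) (nat_lit 7) (C.cons (nat_lit 398) (C.miq (nat_lit 1177684600) (nat_lit 712062417821167307033806721)) (C.cons (nat_lit 396) (C.miq (nat_lit 1177684600) (nat_lit 712062417821167307033675649))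 (C.cons (nat_lit 142) (C.miq (nat_lit 1463197984) (nat_lit 1479746177490147849903342599)) (C.cons (nat_lit 140) (C.node (nat_lit 1) (nat_lit 3) (nat_lit 7) (C.cons (nat_lit 394) (C.node (nat_lit 2) (nat_lit 7) (nat_lit 8) (C.cons (nat_lit 388) (C.node (nat_lit 1) (nat_lit 3) (nat_lit 6) (C.cons (nat_lit 90) (C.miq (nat_lit 2536573540) (nat_lit 476326568689985721913181297)) (C.cons (nat_lit 74) (C.node (nat_lit 1) (nat_lit 8) (nat_lit 10)
  (C.cons (nat_lit 1298) (C.miq (nat_lit 655885732) (nat_lit 476321882722720777453569137)) (C.cons (nat_lit 1282) (C.node (nat_lit 4) (nat_lit 8) (nat_lit 10) (C.cons (nat_lit 1304) (C.miq (nat_lit 1125558384) (nat_lit 89481484966539428549035905)) (C.cons (nat_lit 1296) (C.node (nat_lit 1) (nat_lit 2) (nat_lit 7) (C.cons (nat_lit 150) (C.node (nat_lit 2) (nat_lit 7) (nat_lit 9) (C.cons (nat_lit 644) (C.node (nat_lit 1) (nat_lit 2) (nat_lit 3) (C.cons (nat_lit 46) (C.node (nat_lit 1) (nat_lit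 3) (nat_lit 4) (C.cons (nat_lit 1050) (C.miq (nat_lit 2584938322) (nat_lit 1269382976268338572462784677)) (C.cons (nat_lit 26) (C.node (nat_lit 1) (nat_lit 4) (nat_lit 10) (C.cons (nat_lit 1042) (C.node (nat_lit 1) (nat_lit 3) (nat_lit 9) (C.cons (nat_lit 1546) (C.node (nat_lit 2) (nat_lit 3) (nat_lit 8) (C.cons (nat_lit 1292) (C.miq (nat_lit 1093798312) (nat_lit 55615697599851212319754113)) (C.cons (nat_lit 268) (C.node (nat_lit 3) (nat_lit 8) (nat_lit 10) C.nil) C.nil))) (C.cons (nat_lit 522) (C.miq (nat_lit 2704897312) (nat_lit 631094714368031545231212709)) C.nil))) C.nil)) C.nil))) (C.cons (nat_lit 14) (C.node (nat_lit 1) (nat_lit 9) (nat_lit 10) (C.cons (nat_lit 1546) (C.miq (nat_lit 1378971802) (nat_lit 16946839359522128968419201)) (C.cons (nat_lit 1538) (C.node (nat_lit 3) (nat_lit 5) (nat_lit 7) (C.cons (nat_lit 680) (C.miq (nat_lit 1394702602) (nat_lit 16946839504481741940656001)) (C.cons (nat_lit 168) (C.node (nat_lit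 3) (nat_lit 7) (nat_lit 9) (C.cons (nat_lit 648) (C.node (nat_lit 1) (nat_lit 3) (nat_lit 10) C.nil) C.nil)) C.nil))) C.nil))) C.nil))) C.nil)) (C.cons (nat_lit 134) (C.node (nat_lit 1) (nat_lit 4) (nat_lit 7) (C.cons (nat_lit 146) (C.node (nat_lit 1) (nat_lit 4) (nat_lit 6) (C.cons (nat_lit 338) (C.node (nat_lit 3) (nat_lit 4) (nat_lit 6) (C.cons (nat_lit 88) (C.node (nat_lit 3) (nat_lit 6) (nat_lit 8) (C.cons (nat_lit 328) (C.node (nat_lit 1) (nat_lit 2) (nat_lit 6) (C.cons (nat_lit 102) (C.miq (nat_lit 2534541910) (nat_lit 162006925501338248435598449)) (C.cons (nat_lit 70) (C.node (nat_lit 4) (nat_lit 7) (nat_lit 8) (C.cons (nat_lit 432) (C.miq (nat_lit 394437952) (nat_lit 469082236937447292156576881)) (C.cons (nat_lit 400) (C.node (nat_lit 4) (nat_lit 6) (nat_lit 7) C.nil) C.nil))) C.nil))) C.nil)) C.nil)) (C.cons (nat_lit 82) (C.node (nat_lit 1) (nat_lit 4) (nat_lit 8) (C.cons (nat_lit 306) (C.node (nat_lit 3) (nat_lit 4)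 (nat_lit 6) (C.cons (nat_lit 344) (C.node (nat_lit 3) (nat_lit 8) (nat_lit 9) (C.cons (nat_lit 776) (C.node (nat_lit 4) (nat_lit 7) (nat_lit 8) (C.cons (nat_lit 400) (C.node (nat_lit 4) (nat_lit 8) (nat_lit 9) (C.cons (nat_lit 784) (C.node (nat_lit 1) (nat_lit 2) (nat_lit 4) (C.cons (nat_lit 22) (C.node (nat_lit 1) (nat_lit 2) (nat_lit 3) C.nil) C.nil)) C.nil)) C.nil)) C.nil)) (C.cons (nat_lit 88) (C.miq (nat_lit 2204374949) (nat_lit 106391116940680320435422370)) C.nil))) (C.cons (nat_lit 274) (C.node (nat_lit 3) (nat_lit 4) (nat_lit 6) (C.cons (nat_lit 344) (C.miq (nat_lit 1417782839) (nat_lit 331267552732918339412296904)) (C.cons (nat_lit 88) (C.node (nat_lit 3) (nat_lit 6) (nat_lit 8) (C.cons (nat_lit 328) (C.node (nat_lit 1) (nat_lit 4) (nat_lit 5) (C.cons (nat_lit 62) (C.miq (nat_lit 2266106452) (nat_lit 162001170117187251052872817)) (C.cons (nat_lit 58) (C.miq (nat_lit 2170188608) (nat_lit 1433821458369217187256795289))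 (C.cons (nat_lit 54) (C.miq (nat_lit 2266106452) (nat_lit 162001170117187251052348529)) (C.cons (nat_lit 50) (C.node (nat_lit 5) (nat_lit 6) (nat_lit 7) (C.cons (nat_lit 736) (C.miq (nat_lit 561580630) (nat_lit 776141241615057139955401841)) (C.cons (nat_lit 480) (C.node (nat_lit 4) (nat_lit 7) (nat_lit 8) C.nil) C.nil))) C.nil))))) C.nil)) C.nil))) C.nil))) C.nil))) C.nil)) C.nil))) C.nil))) C.nil))) C.nil))) C.nil)) (C.cons (nat_lit 138) (C.node (nat_lit 3) (nat_lit 7) (nat_lit 8) (C.cons (nat_lit 392) (C.node (nat_lit 1) (nat_lit 9) (nat_lit 10) (C.cons (nat_lit 1546) (C.node (nat_lit 1) (nat_lit 4) (nat_lit 10) (C.cons (nat_lit 1298)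
  (C.node (nat_lit 1) (nat_lit 4) (nat_lit 6) (C.cons (nat_lit 90) (C.miq (nat_lit 588515752) (nat_lit 108808433679220444656437121)) (C.cons (nat_lit 82) (C.node (nat_lit 1) (nat_lit 4) (nat_lit 7) (C.cons (nat_lit 150) (C.miq (nat_lit 1380020362) (nat_lit 181360750827110356682409857)) (C.cons (nat_lit 146) (C.node (nat_lit 1) (nat_lit 2) (nat_lit 7) (C.cons (nat_lit 390) (C.node (nat_lit 1) (nat_lit 2) (nat_lit 6) (C.cons (nat_lit 102) (C.miq (nat_lit 1092986992) (nat_lit 123331407914060178398709633)) (C.cons (nat_lit 70) (C.node (nat_lit 1) (nat_lit 2) (nat_lit 9) (C.cons (nat_lit 550) (C.miq (nat_lit 1092986992) (nat_lit 664930175101414048667076481)) (C.cons (nat_lit 518) (C.node (nat_lit 2) (nat_lit 3) (nat_lit 8) (C.cons (nat_lit 1292) (C.node (nat_lit 2) (nat_lit 5) (nat_lit 10) (C.cons (nat_lit 1060) (C.node (nat_lit 2) (nat_lit 5) (nat_lit 6) C.nil) C.nil)) (C.cons (nat_lit 268) (C.miq (nat_lit 2820871177) (nat_lit 324020638688414283303027219))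 C.nil))) C.nil))) C.nil))) (C.cons (nat_lit 134) (C.miq (nat_lit 2188460122) (nat_lit 162020003780137261704807537)) C.nil))) C.nil))) C.nil))) (C.cons (nat_lit 1042) (C.node (nat_lit 1) (nat_lit 8) (nat_lit 10) (C.cons (nat_lit 1282) (C.node (nat_lit 2) (nat_lit 7) (nat_lit 8) (C.cons (nat_lit 390) (C.miq (nat_lit 1243088242) (nat_lit 1549848010814105161895903397)) (C.cons (nat_lit 388) (C.node (nat_lit 2) (nat_lit 3) (nat_lit 8) (C.cons (nat_lit 1292) (C.miq (nat_lit 1101531442) (nat_lit 1549848010643532872256586317)) (C.cons (nat_lit 270) (C.miq (nat_lit 1378971802) (nat_lit 326431849180867197693200257)) (C.cons (nat_lit 268) (C.node (nat_lit 3) (nat_lit 8) (nat_lit 9) (C.cons (nat_lit 792) (C.miq (nat_lit 2726498377) (nat_lit 324020638613260464534585875)) (C.cons (nat_lit 776) (C.node (nat_lit 1) (nat_lit 2) (nat_lit 3) (C.cons (nat_lit 62) (C.miq (nat_lit 310858762) (nat_lit 469085095866400177702110321)) (C.cons (nat_lit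 46) (C.node (nat_lit 3) (nat_lit 4) (nat_lit 5) (C.cons (nat_lit 568) (C.miq (nat_lit 2033519122) (nat_lit 686672909794601603592750087)) (C.cons (nat_lit 56) (C.node (nat_lit 3) (nat_lit 4) (nat_lit 9) (C.cons (nat_lit 536) (C.node (nat_lit 3) (nat_lit 5) (nat_lit 7) (C.cons (nat_lit 680) (C.node (nat_lit 2) (nat_lit 7) (nat_lit 9) (C.cons (nat_lit 660) (C.miq (nat_lit 2207516018) (nat_lit 647989349145150643892388005)) (C.cons (nat_lit 644) (C.node (nat_lit 4) (nat_lit 5) (nat_lit 7) (C.cons (nat_lit 432) (C.miq (nat_lit 592710008) (nat_lit 67704955812319333217994625)) (C.cons (nat_lit 176) (C.node (nat_lit 2) (nat_lit 3) (nat_lit 10) C.nil) C.nil))) C.nil))) (C.cons (nat_lit 168) (C.miq (nat_lit 2471993632) (nat_lit 203134974325783808973276167)) C.nil))) C.nil)) C.nil))) (C.cons (nat_lit 30) (C.miq (nat_lit 1378971802) (nat_lit 36289652473356195763718017)) (C.cons (nat_lit 14) (C.miq (nat_lit 1378971802) (nat_lit 16946839359522128968419201))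 C.nil))))) C.nil))) C.nil)))) C.nil))) C.nil)) C.nil))) (C.cons (nat_lit 1538) (C.node (nat_lit 3) (nat_lit 9) (nat_lit 10) (C.cons (nat_lit 1560) (C.miq (nat_lit 2440249450) (nat_lit 166860540177037863242171505)) (C.cons (nat_lit 1544) (C.node (nat_lit 2) (nat_lit 5) (nat_lit 10) (C.cons (nat_lit 1316) (C.node (nat_lit 2) (nat_lit 5) (nat_lit 6) (C.cons (nat_lit 102) (C.miq (nat_lit 695296165) (nat_lit 776132257926284460528108657)) (C.cons (nat_lit 100) (C.node (nat_lit 2) (nat_lit 7) (nat_lit 8) (C.cons (nat_lit 390) (C.miq (nat_lit 374501544) (nat_lit 120899776246544168118388609)) (C.cons (nat_lit 388) (C.node (nat_lit 5) (nat_lit 6) (nat_lit 7) (C.cons (nat_lit 736) (C.miq (nat_lit 358786960) (nat_lit 120911600888435395531704193)) (C.cons (nat_lit 480) (C.miq (nat_lit 307628679) (nat_lit 120896179366763644030289793)) (C.cons (nat_lit 224) (C.node (nat_lit 5) (nat_lit 7) (nat_lit 8) (C.cons (nat_lit 432) (C.miq (nat_lit 394437952)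 (nat_lit 469082236937447292156576881)) (C.cons (nat_lit 416) (C.node (nat_lit 2) (nat_lit 3) (nat_lit 5) (C.cons (nat_lit 62)
  (C.miq (nat_lit 2184684864) (nat_lit 169285051311835016156742769)) (C.cons (nat_lit 60) (C.miq (nat_lit 2184684864) (nat_lit 169285051311835007566808177)) (C.cons (nat_lit 46) (C.miq (nat_lit 966860917) (nat_lit 1859328759283324073329950885)) (C.cons (nat_lit 44) (C.node (nat_lit 3) (nat_lit 5) (nat_lit 7) (C.cons (nat_lit 680) (C.miq (nat_lit 355641232) (nat_lit 53211754990015921229989761)) (C.cons (nat_lit 168) (C.node (nat_lit 3) (nat_lit 7) (nat_lit 9) C.nil) C.nil))) C.nil))))) C.nil))) C.nil)))) C.nil))) C.nil))) (C.cons (nat_lit 1060) (C.node (nat_lit 5) (nat_lit 8) (nat_lit 10) (C.cons (nat_lit 1312) (C.node (nat_lit 2) (nat_lit 7) (nat_lit 8) (C.cons (nat_lit 390) (C.node (nat_lit 1) (nat_lit 4) (nat_lit 7) (C.cons (nat_lit 146) (C.node (nat_lit 1) (nat_lit 2) (nat_lit 6) (C.cons (nat_lit 102)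 (C.miq (nat_lit 1158810232) (nat_lit 123315543668842735742617473)) (C.cons (nat_lit 70) (C.node (nat_lit 1) (nat_lit 2) (nat_lit 9) (C.cons (nat_lit 550) (C.miq (nat_lit 1158810232) (nat_lit 664914310856196606010984321)) (C.cons (nat_lit 518) (C.node (nat_lit 4) (nat_lit 5) (nat_lit 7) (C.cons (nat_lit 688) (C.miq (nat_lit 2220302497) (nat_lit 831748158203027070927373319)) (C.cons (nat_lit 432) (C.node (nat_lit 6) (nat_lit 7) (nat_lit 8) (C.cons (nat_lit 448) (C.node (nat_lit 4) (nat_lit 6) (nat_lit 7) (C.cons (nat_lit 720) (C.miq (nat_lit 910494072) (nat_lit 1374554135750615117065095041)) C.nil)) C.nil)) (C.cons (nat_lit 176) (C.miq (nat_lit 2220302497) (nat_lit 212778138560336933477811207)) C.nil)))) C.nil))) C.nil))) C.nil)) (C.cons (nat_lit 388) (C.node (nat_lit 1) (nat_lit 2) (nat_lit 7) (C.cons (nat_lit 150) (C.node (nat_lit 1) (nat_lit 7) (nat_lit 8) (C.cons (nat_lit 386) (C.node (nat_lit 2) (nat_lit 7) (nat_lit 9) (C.cons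 (nat_lit 644) (C.node (nat_lit 2) (nat_lit 8) (nat_lit 10) (C.cons (nat_lit 1292) (C.node (nat_lit 2) (nat_lit 4) (nat_lit 10) C.nil) (C.cons (nat_lit 1284) (C.node (nat_lit 2) (nat_lit 3) (nat_lit 10) C.nil) C.nil))) C.nil)) C.nil)) (C.cons (nat_lit 134) (C.node (nat_lit 1) (nat_lit 4) (nat_lit 7) (C.cons (nat_lit 402) (C.node (nat_lit 1) (nat_lit 4) (nat_lit 6) (C.cons (nat_lit 90) (C.miq (nat_lit 2536573540) (nat_lit 166841558868640653188400241)) (C.cons (nat_lit 82) (C.node (nat_lit 1) (nat_lit 2) (nat_lit 4) (C.cons (nat_lit 62) (C.miq (nat_lit 2266106452) (nat_lit 162001170117187251052872817)) (C.cons (nat_lit 54) (C.miq (nat_lit 2266106452) (nat_lit 162001170117187251052348529)) (C.cons (nat_lit 30) (C.miq (nat_lit 2534606914) (nat_lit 166842628779793397875343637)) (C.cons (nat_lit 22) (C.node (nat_lit 1) (nat_lit 4) (nat_lit 10) (C.cons (nat_lit 1042) (C.node (nat_lit 1) (nat_lit 3) (nat_lit 10) C.nil) C.nil)) C.nil)))))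 C.nil))) (C.cons (nat_lit 146) (C.node (nat_lit 1) (nat_lit 7) (nat_lit 8) (C.cons (nat_lit 386) (C.node (nat_lit 2) (nat_lit 4) (nat_lit 7) (C.cons (nat_lit 660) (C.node (nat_lit 2) (nat_lit 9) (nat_lit 10) (C.cons (nat_lit 1540) (C.node (nat_lit 2) (nat_lit 4) (nat_lit 10) C.nil) C.nil)) (C.cons (nat_lit 148) (C.node (nat_lit 2) (nat_lit 7) (nat_lit 9) (C.cons (nat_lit 644) (C.node (nat_lit 2) (nat_lit 8) (nat_lit 10) C.nil) C.nil)) C.nil))) C.nil)) C.nil))) C.nil))) C.nil))) C.nil)) C.nil))) C.nil))) C.nil))) C.nil)) C.nil))) C.nil))))) C.nil))) C.nil)))) C.nil))) C.nil)))) (C.cons (nat_lit 1154) (C.node (nat_lit 5) (nat_lit 7) (nat_lit 10) (C.cons (nat_lit 1184) (C.ref (nat_lit 158) (nat_lit 11649936536080)) C.nil)) C.nil))) C.nil))) C.nil))) C.nil)) List.nil)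

theorem ok11_159 : okL par11 (nat_lit 160) c11_159 (nat_lit 159) = true := by decide +kernel

noncomputable def c11_160 : List C :=
  (List.cons (C.node (nat_lit 3) (nat_lit 4) (nat_lit 9) (C.cons (nat_lit 792) (C.miq (nat_lit 1385695043) (nat_lit 933296211471929820497576089)) (C.cons (nat_lit 568) (C.node (nat_lit 4) (nat_lit 8) (nat_lit 9) (C.cons (nat_lit 784) (C.node (nat_lit 2) (nat_lit 3) (nat_lit 4) (C.cons (nat_lit 30) (C.node (nat_lit 2) (nat_lit 3) (nat_lit 5) (C.cons (nat_lit 44) (C.node (nat_lit 2) (nat_lit 4) (nat_lit 5) (C.cons (nat_lit 52) (C.node (nat_lit 1) (nat_lit 2) (nat_lit 7) C.nil) C.nil)) C.nil)) (C.cons (nat_lit 28) (C.node (nat_lit 1) (nat_lit 2) (nat_lit 4) (C.cons (nat_lit 54) (C.node (nat_lit 2) (nat_lit 3) (nat_lit 5) (C.cons (nat_lit 44) (C.node (nat_lit 1) (nat_lit 2) (nat_lit 6) C.nil) C.nil)) (C.cons (nat_lit 22) (C.node (nat_lit 2) (nat_lit 4) (nat_lit 5) C.nil) C.nil))) C.nil))) C.nil)) (C.cons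 (nat_lit 536) (C.node (nat_lit 3) (nat_lit 8) (nat_lit 9) (C.cons (nat_lit 778) (C.node (nat_lit 3) (nat_lit 5) (nat_lit 9) (C.cons (nat_lit 680) (C.miq (nat_lit 2207516018) (nat_lit 647989349145150643892388005)) (C.cons (nat_lit 552) (C.node (nat_lit 3) (nat_lit 7) (nat_lit 9) (C.cons (nat_lit 648) (C.node (nat_lit 1) (nat_lit 6) (nat_lit 9) (C.cons (nat_lit 610) (C.node (nat_lit 1) (nat_lit 7) (nat_lit 9) C.nil) C.nil)) C.nil)) C.nil))) (C.cons (nat_lit 776) (C.node (nat_lit 4) (nat_lit 5) (nat_lit 9) (C.cons (nat_lit 816) (C.node (nat_lit 2) (nat_lit 4) (nat_lit 5) (C.cons (nat_lit 62) (C.miq (nat_lit 2032339540) (nat_lit 712060130645580043417158769)) (C.cons (nat_lit 60) (C.miq (nat_lit 2032339540) (nat_lit 712060130645580043417027697)) (C.cons (nat_lit 54) (C.miq (nat_lit 2234160144) (nat_lit 1900466824859246471678460435)) (C.cons (nat_lit 52) (C.node (nat_lit 1) (nat_lit 2) (nat_lit 4) (C.cons (nat_lit 30) (C.node (nat_lit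 2) (nat_lit 3) (nat_lit 5) (C.cons (nat_lit 44) (C.node (nat_lit 1) (nat_lit 2) (nat_lit 7) C.nil) C.nil)) (C.cons (nat_lit 22) (C.node (nat_lit 2) (nat_lit 3) (nat_lit 4) C.nil) C.nil))) C.nil))))) (C.cons (nat_lit 560) (C.node (nat_lit 4) (nat_lit 8) (nat_lit 9) (C.cons (nat_lit 784) (C.node (nat_lit 1) (nat_lit 4) (nat_lit 10) C.nil) C.nil)) C.nil))) C.nil))) C.nil)))) List.nil)

theorem ok11_160 : okL par11 (nat_lit 161) c11_160 (nat_lit 160) = true := by decide +kernel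

noncomputable def c11_161 : List C :=
  (List.cons (C.node (nat_lit 4) (nat_lit 6) (nat_lit 9) (C.cons (nat_lit 848) (C.node (nat_lit 6) (nat_lit 7) (nat_lit 9) (C.cons (nat_lit 736) (C.miq (nat_lit 610601111) (nat_lit 1374551700692577744446293889)) (C.cons (nat_lit 704) (C.node (nat_lit 2) (nat_lit 8) (nat_lit 9) (C.cons (nat_lit 806) (C.miq (nat_lit 2191954180) (nat_lit 1320162638085022823893500435)) (C.cons (nat_lit 804) (C.miq (nat_lit 882378533) (nat_lit 1025174573759263938055504037)) (C.cons (nat_lit 774) (C.miq (nat_lit 2191954180) (nat_lit 1320162638076015624638759443)) (C.cons (nat_lit 772) (C.node (nat_lit 1) (nat_lit 2) (nat_lit 9) (C.cons (nat_lit 550) (C.node (nat_lit 1) (nat_lit 6) (nat_lit 9) (C.cons (nat_lit 578) (C.node (nat_lit 5) (nat_lit 6) (nat_lit 9) (C.cons (nat_lit 608) (C.node (nat_lit 5) (nat_lit 8) (nat_lit 9) (C.cons (nat_lit 800) (C.node (nat_lit 2) (nat_lit 4) (nat_lit 5) (C.cons (nat_lit 60) (C.miq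 (nat_lit 949244018) (nat_lit 1025170201921456281482428581)) (C.cons (nat_lit 52) (C.node (nat_lit 5) (nat_lit 7) (nat_lit 9) (C.cons (nat_lit 680) (C.miq (nat_lit 961042208) (nat_lit 1025174573907601250747482277)) (C.cons (nat_lit 672) (C.node (nat_lit 4) (nat_lit 5) (nat_lit 7) (C.cons (nat_lit 434) (C.miq (nat_lit 1683134576) (nat_lit 62875007990912776287881089)) (C.cons (nat_lit 432) (C.miq (nat_lit 1683134576) (nat_lit 62875007990912767697946497)) (C.cons (nat_lit 178) (C.miq (nat_lit 844564756) (nat_lit 199475582754048214914171411)) (C.cons (nat_lit 176) (C.node (nat_lit 1) (nat_lit 2) (nat_lit 4) (C.cons (nat_lit 30) (C.node (nat_lit 1) (nat_lit 4) (nat_lit 6) (C.cons (nat_lit 82) (C.node (nat_lit 3) (nat_lit 4) (nat_lit 6) (C.cons (nat_lit 88) (C.node (nat_lit 1) (nat_lit 7) (nat_lit 9) (C.cons (nat_lit 650) (C.miq (nat_lit 2299660084) (nat_lit 664914311076870685626073241)) (C.cons (nat_lit 642) (C.node (nat_lit 3) (nat_lit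 7) (nat_lit 9) (C.cons (nat_lit 648) (C.node (nat_lit 1) (nat_lit 9) (nat_lit 10) (C.cons (nat_lit 1546) (C.miq (nat_lit 881398282) (nat_lit 1025197613707988934250791943)) (C.cons (nat_lit 1538) (C.node (nat_lit 2) (nat_lit 3) (nat_lit 7) (C.cons (nat_lit 396) (C.miq (nat_lit 426983554) (nat_lit 783384484662073379787637013)) (C.cons (nat_lit 140) (C.node (nat_lit 1) (nat_lit 2) (nat_lit 6) C.nil) C.nil))) C.nil))) C.nil)) C.nil))) C.nil)) C.nil)) (C.cons (nat_lit 22) (C.node (nat_lit 2) (nat_lit 3) (nat_lit 4) (C.cons (nat_lit 28) (C.node (nat_lit 1) (nat_lit 2) (nat_lit 6) (C.cons (nat_lit 326) (C.node (nat_lit 2) (nat_lit 5) (nat_lit 6) (C.cons (nat_lit 100) (C.node (nat_lit 4) (nat_lit 7) (nat_lit 8) (C.cons (nat_lit 402) (C.miq (nat_lit 880936726) (nat_lit 334883317208579094354460867)) (C.cons (nat_lit 400) (C.node (nat_lit 1) (nat_lit 2) (nat_lit 3) (C.cons (nat_lit 142) (C.node (nat_lit 1) (nat_lit 7) (nat_lit 9) C.nil)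 (C.cons (nat_lit 14) (C.node (nat_lit 1) (nat_lit 2) (nat_lit 7) C.nil) C.nil))) C.nil))) C.nil)) (C.cons (nat_lit 70) (C.node (nat_lit 1) (nat_lit 4) (nat_lit 6) (C.cons (nat_lit 90) (C.node (nat_lit 1) (nat_lit 7) (nat_lit 9) (C.cons (nat_lit 650) (C.miq (nat_lit 916919305) (nat_lit 1470065787060374619058930195)) (C.cons (nat_lit 642) (C.node (nat_lit 3) (nat_lit 7) (nat_lit 9) (C.cons (nat_lit 648) (C.node (nat_lit 3) (nat_lit 6) (nat_lit 10) (C.cons (nat_lit 1352) (C.miq (nat_lit 279136646) (nat_lit 1248822032018350034685264720)) (C.cons (nat_lit 1096) (C.node (nat_lit 1) (nat_lit 8) (nat_lit 9) (C.cons (nat_lit 778) (C.miq (nat_lit 2204799296) (nat_lit 1325018134711987090029085203)) (C.cons (nat_lit 770) (C.node (nat_lit 3) (nat_lit 8) (nat_lit 9) C.nil) C.nil))) C.nil))) C.nil)) C.nil))) (C.cons (nat_lit 82) (C.node (nat_lit 3) (nat_lit 4) (nat_lit 6) (C.cons (nat_lit 88) (C.node (nat_lit 1) (nat_lit 7) (nat_lit 9) (C.cons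 (nat_lit 650) (C.node (nat_lit 1) (nat_lit 8) (nat_lit 9) C.nil) (C.cons (nat_lit 642) (C.node (nat_lit 4) (nat_lit 5) (nat_lit 9) C.nil) C.nil))) C.nil)) C.nil))) C.nil))) C.nil)) C.nil))) C.nil))))) C.nil))) C.nil))) C.nil)) C.nil)) C.nil)) (C.cons (nat_lit 518)
  (C.node (nat_lit 2) (nat_lit 5) (nat_lit 9) (C.cons (nat_lit 548) (C.node (nat_lit 1) (nat_lit 4) (nat_lit 6) (C.cons (nat_lit 90) (C.node (nat_lit 2) (nat_lit 3) (nat_lit 4) (C.cons (nat_lit 60) (C.miq (nat_lit 949244018) (nat_lit 1025170201921456281482428581)) (C.cons (nat_lit 28) (C.node (nat_lit 3) (nat_lit 6) (nat_lit 10) (C.cons (nat_lit 1352) (C.miq (nat_lit 279136646) (nat_lit 1248822032018350034685264720)) (C.cons (nat_lit 1096) (C.node (nat_lit 3) (nat_lit 6) (nat_lit 8) (C.cons (nat_lit 456) (C.miq (nat_lit 882401543) (nat_lit 1025177506773838180363862211)) (C.cons (nat_lit 328) (C.node (nat_lit 3) (nat_lit 8) (nat_lit 9) (C.cons (nat_lit 778) (C.miq (nat_lit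 2204799296) (nat_lit 1325018134711987090029085203)) (C.cons (nat_lit 776) (C.node (nat_lit 4) (nat_lit 7) (nat_lit 10) (C.cons (nat_lit 1170) (C.miq (nat_lit 379208455) (nat_lit 1934302894099308197470863513)) (C.cons (nat_lit 1168) (C.node (nat_lit 1) (nat_lit 4) (nat_lit 10) (C.cons (nat_lit 1298) (C.miq (nat_lit 342010000) (nat_lit 101568787806127007164336001)) (C.cons (nat_lit 1042) (C.node (nat_lit 4) (nat_lit 9) (nat_lit 10) (C.cons (nat_lit 1560) (C.miq (nat_lit 2051082550) (nat_lit 1259704301694258103822451277)) (C.cons (nat_lit 1552) (C.node (nat_lit 1) (nat_lit 4) (nat_lit 7) (C.cons (nat_lit 434) (C.miq (nat_lit 642058631) (nat_lit 1374551700780397937160226689)) (C.cons (nat_lit 402) (C.miq (nat_lit 964976753) (nat_lit 1025170755405969185951580355)) (C.cons (nat_lit 178) (C.miq (nat_lit 1412591968) (nat_lit 33852966712084711407943875)) (C.cons (nat_lit 146) (C.node (nat_lit 4) (nat_lit 5) (nat_lit 7) (C.cons (nat_lit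 432) (C.miq (nat_lit 642058631) (nat_lit 1374551700780397937160095617)) (C.cons (nat_lit 176) (C.node (nat_lit 4) (nat_lit 7) (nat_lit 8) (C.cons (nat_lit 400) (C.node (nat_lit 3) (nat_lit 7) (nat_lit 9) (C.cons (nat_lit 682) (C.miq (nat_lit 1464351008) (nat_lit 483575806720810330432537165)) (C.cons (nat_lit 680) (C.miq (nat_lit 1464351008) (nat_lit 483575806720247380479115853)) (C.cons (nat_lit 650) (C.miq (nat_lit 1900712800) (nat_lit 1259736140416768317575987789)) C.nil)))) C.nil)) C.nil))) C.nil))))) C.nil))) C.nil))) C.nil))) C.nil))) C.nil))) C.nil))) C.nil))) (C.cons (nat_lit 82) (C.node (nat_lit 3) (nat_lit 4) (nat_lit 6) (C.cons (nat_lit 88) (C.node (nat_lit 1) (nat_lit 6) (nat_lit 9) (C.cons (nat_lit 610) (C.node (nat_lit 5) (nat_lit 8) (nat_lit 9) (C.cons (nat_lit 800) (C.node (nat_lit 2) (nat_lit 5) (nat_lit 6) (C.cons (nat_lit 356) (C.miq (nat_lit 354457220) (nat_lit 199482555629218218418438992)) (C.cons (nat_lit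 100) (C.node (nat_lit 5) (nat_lit 7) (nat_lit 9) (C.cons (nat_lit 680) (C.miq (nat_lit 961042208) (nat_lit 1025174573907601250747482277)) (C.cons (nat_lit 672) (C.node (nat_lit 4) (nat_lit 5) (nat_lit 8) (C.cons (nat_lit 434) (C.miq (nat_lit 642058631) (nat_lit 1374551700780397937160226689)) (C.cons (nat_lit 432) (C.miq (nat_lit 642058631) (nat_lit 1374551700780397937160095617)) (C.cons (nat_lit 306) (C.miq (nat_lit 2190557285) (nat_lit 626229219342035565945160817)) (C.cons (nat_lit 304) (C.node (nat_lit 1) (nat_lit 2) (nat_lit 6) (C.cons (nat_lit 326) (C.node (nat_lit 4) (nat_lit 7) (nat_lit 8) (C.cons (nat_lit 402) (C.miq (nat_lit 880936726) (nat_lit 334883317208579094354460867)) (C.cons (nat_lit 400) (C.node (nat_lit 1) (nat_lit 2) (nat_lit 7) (C.cons (nat_lit 142) (C.node (nat_lit 1) (nat_lit 7) (nat_lit 9) (C.cons (nat_lit 642) (C.node (nat_lit 2) (nat_lit 7) (nat_lit 8) (C.cons (nat_lit 388) (C.node (nat_lit 1) (nat_lit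 2) (nat_lit 4) C.nil) C.nil)) C.nil)) (C.cons (nat_lit 134) (C.node (nat_lit 1) (nat_lit 3) (nat_lit 6) (C.cons (nat_lit 1098) (C.node (nat_lit 1) (nat_lit 9) (nat_lit 10) (C.cons (nat_lit 1538) (C.node (nat_lit 6) (nat_lit 8) (nat_lit 10) (C.cons (nat_lit 1344) (C.node (nat_lit 3) (nat_lit 5) (nat_lit 6) (C.cons (nat_lit 232) (C.miq (nat_lit 924935434) (nat_lit 162016314418656145832346737)) C.nil)) C.nil)) C.nil)) (C.cons (nat_lit 74) (C.node (nat_lit 1) (nat_lit 6) (nat_lit 10)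
  (C.cons (nat_lit 1090) (C.node (nat_lit 1) (nat_lit 7) (nat_lit 9) C.nil) C.nil)) C.nil))) C.nil))) C.nil))) (C.cons (nat_lit 70) (C.node (nat_lit 2) (nat_lit 6) (nat_lit 8) (C.cons (nat_lit 324) (C.node (nat_lit 3) (nat_lit 5) (nat_lit 6) (C.cons (nat_lit 104) (C.node (nat_lit 3) (nat_lit 6) (nat_lit 7) C.nil) C.nil)) C.nil)) C.nil))) C.nil))))) C.nil))) C.nil))) C.nil)) (C.cons (nat_lit 578) (C.node (nat_lit 5) (nat_lit 6) (nat_lit 9) (C.cons (nat_lit 608) (C.node (nat_lit 3) (nat_lit 8) (nat_lit 9) (C.cons (nat_lit 778) (C.node (nat_lit 5) (nat_lit 8) (nat_lit 9) (C.cons (nat_lit 800) (C.node (nat_lit 3) (nat_lit 7) (nat_lit 9) (C.cons (nat_lit 680) (C.miq (nat_lit 961042208) (nat_lit 1025174573907601250747482277)) (C.cons (nat_lit 648) (C.node (nat_lit 4) (nat_lit 5) (nat_lit 8) (C.cons (nat_lit 434) (C.miq (nat_lit 642058631) (nat_lit 1374551700780397937160226689)) (C.cons (nat_lit 432) (C.miq (nat_lit 642058631) (nat_lit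 1374551700780397937160095617)) (C.cons (nat_lit 306) (C.miq (nat_lit 1669662996) (nat_lit 359071942539348775435108883)) (C.cons (nat_lit 304) (C.node (nat_lit 1) (nat_lit 7) (nat_lit 9) (C.cons (nat_lit 674) (C.node (nat_lit 1) (nat_lit 9) (nat_lit 10) (C.cons (nat_lit 1538) (C.node (nat_lit 4) (nat_lit 5) (nat_lit 7) (C.cons (nat_lit 176) (C.node (nat_lit 4) (nat_lit 5) (nat_lit 9) (C.cons (nat_lit 568) (C.node (nat_lit 3) (nat_lit 9) (nat_lit 10) C.nil) C.nil)) C.nil)) C.nil)) (C.cons (nat_lit 642) (C.node (nat_lit 5) (nat_lit 7) (nat_lit 9) (C.cons (nat_lit 672) (C.node (nat_lit 1) (nat_lit 2) (nat_lit 7) C.nil) C.nil)) C.nil))) C.nil))))) C.nil))) C.nil)) (C.cons (nat_lit 776) (C.node (nat_lit 1) (nat_lit 8) (nat_lit 9) (C.cons (nat_lit 802) (C.node (nat_lit 4) (nat_lit 5) (nat_lit 8) (C.cons (nat_lit 432) (C.miq (nat_lit 642058631) (nat_lit 1374551700780397937160095617)) (C.cons (nat_lit 304) (C.node (nat_lit 5) (nat_lit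 7) (nat_lit 9) (C.cons (nat_lit 680) (C.miq (nat_lit 1954910723) (nat_lit 367525993134592065960215117)) (C.cons (nat_lit 672) (C.node (nat_lit 1) (nat_lit 7) (nat_lit 9) (C.cons (nat_lit 650) (C.node (nat_lit 1) (nat_lit 9) (nat_lit 10) (C.cons (nat_lit 1538) (C.node (nat_lit 4) (nat_lit 5) (nat_lit 9) (C.cons (nat_lit 568) (C.miq (nat_lit 425096000) (nat_lit 735030495623750086061785241)) C.nil)) C.nil)) (C.cons (nat_lit 642) (C.node (nat_lit 3) (nat_lit 7) (nat_lit 9) (C.cons (nat_lit 648) (C.node (nat_lit 1) (nat_lit 2) (nat_lit 6) C.nil) C.nil)) C.nil))) C.nil))) C.nil))) (C.cons (nat_lit 770) (C.node (nat_lit 5) (nat_lit 8) (nat_lit 9) (C.cons (nat_lit 800) (C.node (nat_lit 4) (nat_lit 5) (nat_lit 9) (C.cons (nat_lit 568) (C.node (nat_lit 4) (nat_lit 9) (nat_lit 10) (C.cons (nat_lit 1552) (C.node (nat_lit 2) (nat_lit 3) (nat_lit 4) C.nil) C.nil)) (C.cons (nat_lit 560) (C.node (nat_lit 3) (nat_lit 4) (nat_lit 9) (C.cons (nat_lit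 1560) (C.node (nat_lit 2) (nat_lit 3) (nat_lit 10) C.nil) (C.cons (nat_lit 536) (C.node (nat_lit 4) (nat_lit 9) (nat_lit 10) (C.cons (nat_lit 1552) (C.node (nat_lit 2) (nat_lit 3) (nat_lit 10) C.nil) C.nil)) C.nil))) C.nil))) C.nil)) C.nil))) C.nil))) C.nil)) C.nil))) C.nil)) C.nil))) C.nil)) C.nil))) C.nil))))) C.nil))) (C.cons (nat_lit 592) (C.node (nat_lit 4) (nat_lit 7) (nat_lit 10) (C.cons (nat_lit 1170) (C.node (nat_lit 4) (nat_lit 9) (nat_lit 10) (C.cons (nat_lit 1560) (C.miq (nat_lit 980849680) (nat_lit 1470064662222754480161751571)) (C.cons (nat_lit 1552) (C.node (nat_lit 3) (nat_lit 4) (nat_lit 10) (C.cons (nat_lit 1304) (C.node (nat_lit 2) (nat_lit 8) (nat_lit 10) (C.cons (nat_lit 1316) (C.miq (nat_lit 709318704) (nat_lit 1414446253032314966480847145)) (C.cons (nat_lit 1284) (C.node (nat_lit 3) (nat_lit 4) (nat_lit 6) (C.cons (nat_lit 90) (C.miq (nat_lit 2588083990) (nat_lit 1576450134450454314121560259)) (C.cons (nat_lit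 88) (C.node (nat_lit 3) (nat_lit 7) (nat_lit 10) (C.cons (nat_lit 1192) (C.miq (nat_lit 1518498624) (nat_lit 1552263796433479795293356185)) (C.cons (nat_lit 1160) (C.node (nat_lit 5) (nat_lit 7) (nat_lit 10)
  (C.cons (nat_lit 1184) (C.node (nat_lit 4) (nat_lit 5) (nat_lit 7) (C.cons (nat_lit 432) (C.miq (nat_lit 2474909783) (nat_lit 1576451443794355129037095077)) (C.cons (nat_lit 176) (C.node (nat_lit 4) (nat_lit 7) (nat_lit 8) (C.cons (nat_lit 400) (C.node (nat_lit 5) (nat_lit 8) (nat_lit 10) (C.cons (nat_lit 1314) (C.miq (nat_lit 1366329923) (nat_lit 235746013877705725324100888)) (C.cons (nat_lit 1312) (C.node (nat_lit 1) (nat_lit 8) (nat_lit 10) (C.cons (nat_lit 1346) (C.miq (nat_lit 2198250609) (nat_lit 712082137437583823731885202)) (C.cons (nat_lit 1282) (C.node (nat_lit 6) (nat_lit 8) (nat_lit 10) (C.cons (nat_lit 1344) (C.node (nat_lit 1) (nat_lit 3) (nat_lit 4) (C.cons (nat_lit 62) (C.miq (nat_lit 2269448483) (nat_lit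 212776423475880891428766285)) (C.cons (nat_lit 58) (C.miq (nat_lit 1486958708) (nat_lit 1549843970740717195919229081)) (C.cons (nat_lit 30) (C.miq (nat_lit 2537753106) (nat_lit 184976516074016134030820359)) (C.cons (nat_lit 26) (C.node (nat_lit 2) (nat_lit 3) (nat_lit 4) (C.cons (nat_lit 60) (C.miq (nat_lit 2269448483) (nat_lit 212776423475880891428635213)) (C.cons (nat_lit 28) (C.node (nat_lit 2) (nat_lit 3) (nat_lit 7) (C.cons (nat_lit 398) (C.miq (nat_lit 1412565639) (nat_lit 33852966982024428151244673)) (C.cons (nat_lit 396) (C.miq (nat_lit 1412565639) (nat_lit 33852966982024428151113601)) (C.cons (nat_lit 142) (C.miq (nat_lit 1685260818) (nat_lit 184976515853339752297006087)) (C.cons (nat_lit 140) (C.node (nat_lit 1) (nat_lit 6) (nat_lit 10) C.nil) C.nil))))) C.nil))) C.nil))))) C.nil)) C.nil))) C.nil))) C.nil)) C.nil))) C.nil)) C.nil))) C.nil))) C.nil))) (C.cons (nat_lit 1048) (C.node (nat_lit 4) (nat_lit 8) (nat_lit 10)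 (C.cons (nat_lit 1296) (C.node (nat_lit 3) (nat_lit 7) (nat_lit 10) (C.cons (nat_lit 1192) (C.node (nat_lit 2) (nat_lit 5) (nat_lit 10) (C.cons (nat_lit 1316) (C.miq (nat_lit 981759264) (nat_lit 1566770684907926512414818469)) (C.cons (nat_lit 1060) (C.node (nat_lit 3) (nat_lit 7) (nat_lit 9) (C.cons (nat_lit 650) (C.miq (nat_lit 933663040) (nat_lit 1470064661966612251416789523)) (C.cons (nat_lit 648) (C.node (nat_lit 4) (nat_lit 5) (nat_lit 7) (C.cons (nat_lit 432) (C.miq (nat_lit 1469285408) (nat_lit 783389409914869621602451733)) (C.cons (nat_lit 176) (C.node (nat_lit 4) (nat_lit 7) (nat_lit 8) (C.cons (nat_lit 400) (C.node (nat_lit 5) (nat_lit 8) (nat_lit 10) (C.cons (nat_lit 1314) (C.miq (nat_lit 1098938963) (nat_lit 313114609961363600168256680)) (C.cons (nat_lit 1312) (C.node (nat_lit 1) (nat_lit 5) (nat_lit 10) (C.cons (nat_lit 1570) (C.miq (nat_lit 1393141569) (nat_lit 712086269476731137301873810)) (C.cons (nat_lit 1058)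 (C.node (nat_lit 5) (nat_lit 9) (nat_lit 10) (C.cons (nat_lit 1568) (C.node (nat_lit 1) (nat_lit 3) (nat_lit 7) (C.cons (nat_lit 398) (C.miq (nat_lit 1685260818) (nat_lit 184976515853339752313783303)) (C.cons (nat_lit 394) (C.miq (nat_lit 2241933383) (nat_lit 1279050785253045659940028569)) (C.cons (nat_lit 142) (C.miq (nat_lit 1685260818) (nat_lit 184976515853339752297006087)) (C.cons (nat_lit 138) (C.node (nat_lit 2) (nat_lit 3) (nat_lit 7) (C.cons (nat_lit 396) (C.miq (nat_lit 2225283159) (nat_lit 1266961563944758016079298725)) (C.cons (nat_lit 140) (C.node (nat_lit 2) (nat_lit 3) (nat_lit 4) (C.cons (nat_lit 62) (C.miq (nat_lit 2268203604) (nat_lit 169254725034875051870913649)) (C.cons (nat_lit 60) (C.miq (nat_lit 2268203604) (nat_lit 169254725034875051870782577)) (C.cons (nat_lit 30) (C.miq (nat_lit 2537753106) (nat_lit 184976516074016134030820359)) (C.cons (nat_lit 28) (C.node (nat_lit 1) (nat_lit 9) (nat_lit 10) C.nil)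 C.nil))))) C.nil))) C.nil))))) C.nil)) C.nil))) C.nil))) C.nil)) C.nil))) C.nil))) C.nil))) (C.cons (nat_lit 1160) (C.node (nat_lit 5) (nat_lit 7) (nat_lit 10) (C.cons (nat_lit 1184) (C.node (nat_lit 4) (nat_lit 5) (nat_lit 7) (C.cons (nat_lit 432) (C.node (nat_lit 4) (nat_lit 5) (nat_lit 9) (C.cons (nat_lit 568) (C.miq (nat_lit 609458048) (nat_lit 686680730859144126233380737)) (C.cons (nat_lit 560)
  (C.node (nat_lit 3) (nat_lit 4) (nat_lit 9) (C.cons (nat_lit 792) (C.node (nat_lit 3) (nat_lit 4) (nat_lit 6) (C.cons (nat_lit 90) (C.miq (nat_lit 2216137568) (nat_lit 1414478645367410298569556557)) (C.cons (nat_lit 88) (C.node (nat_lit 6) (nat_lit 7) (nat_lit 8) (C.cons (nat_lit 456) (C.miq (nat_lit 339085703) (nat_lit 106389069390648355014051713)) (C.cons (nat_lit 448) (C.node (nat_lit 3) (nat_lit 6) (nat_lit 7) (C.cons (nat_lit 232) (C.miq (nat_lit 2471960708) (nat_lit 280482965167472653752074517)) (C.cons (nat_lit 200) (C.node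 (nat_lit 5) (nat_lit 6) (nat_lit 7) (C.cons (nat_lit 736) (C.miq (nat_lit 643041656) (nat_lit 1374553766815733711593539457)) (C.cons (nat_lit 224) (C.node (nat_lit 2) (nat_lit 3) (nat_lit 10) (C.cons (nat_lit 1292) (C.miq (nat_lit 344590642) (nat_lit 1566786880963166019299050061)) (C.cons (nat_lit 1068) (C.miq (nat_lit 1159956233) (nat_lit 1291147385291328235198285697)) C.nil))) C.nil))) C.nil))) C.nil))) C.nil))) (C.cons (nat_lit 536) (C.miq (nat_lit 2224248608) (nat_lit 647989718118031154035359909)) C.nil))) C.nil))) (C.cons (nat_lit 176) (C.node (nat_lit 4) (nat_lit 7) (nat_lit 8) (C.cons (nat_lit 400) (C.node (nat_lit 2) (nat_lit 3) (nat_lit 4) (C.cons (nat_lit 62) (C.miq (nat_lit 2269448483) (nat_lit 212776423475880891428766285)) (C.cons (nat_lit 60) (C.miq (nat_lit 2269448483) (nat_lit 212776423475880891428635213)) (C.cons (nat_lit 30) (C.miq (nat_lit 2537753106) (nat_lit 184976516074016134030820359)) (C.cons (nat_lit 28)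 (C.node (nat_lit 3) (nat_lit 7) (nat_lit 9) (C.cons (nat_lit 682) (C.miq (nat_lit 1464351008) (nat_lit 483575806720810330432537165)) (C.cons (nat_lit 680) (C.miq (nat_lit 1464351008) (nat_lit 483575806720247380479115853)) (C.cons (nat_lit 650) (C.miq (nat_lit 933663040) (nat_lit 1470064661966612251416789523)) (C.cons (nat_lit 648) (C.node (nat_lit 1) (nat_lit 2) (nat_lit 4) (C.cons (nat_lit 54) (C.node (nat_lit 1) (nat_lit 7) (nat_lit 9) (C.cons (nat_lit 674) (C.miq (nat_lit 2270300436) (nat_lit 199477870525238556444983827)) (C.cons (nat_lit 642) (C.node (nat_lit 2) (nat_lit 5) (nat_lit 9) (C.cons (nat_lit 804) (C.miq (nat_lit 1380157808) (nat_lit 33855401858508224592414593)) (C.cons (nat_lit 548) (C.node (nat_lit 1) (nat_lit 2) (nat_lit 7) (C.cons (nat_lit 398) (C.miq (nat_lit 893485223) (nat_lit 65289336146934263373236097)) (C.cons (nat_lit 390) (C.miq (nat_lit 1517371522) (nat_lit 1414444205393341413899763989)) (C.cons (nat_lit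 142) (C.miq (nat_lit 1685260818) (nat_lit 184976515853339752297006087)) (C.cons (nat_lit 134) (C.node (nat_lit 3) (nat_lit 4) (nat_lit 5) (C.cons (nat_lit 56) (C.node (nat_lit 3) (nat_lit 4) (nat_lit 9) C.nil) C.nil)) C.nil))))) C.nil))) C.nil))) (C.cons (nat_lit 22) (C.node (nat_lit 2) (nat_lit 4) (nat_lit 5) (C.cons (nat_lit 52) (C.node (nat_lit 1) (nat_lit 7) (nat_lit 9) (C.cons (nat_lit 674) (C.node (nat_lit 6) (nat_lit 7) (nat_lit 9) (C.cons (nat_lit 704) (C.node (nat_lit 3) (nat_lit 5) (nat_lit 7) (C.cons (nat_lit 168) (C.node (nat_lit 3) (nat_lit 6) (nat_lit 7) C.nil) C.nil)) C.nil)) (C.cons (nat_lit 642) (C.node (nat_lit 5) (nat_lit 7) (nat_lit 9) (C.cons (nat_lit 736) (C.node (nat_lit 3) (nat_lit 5) (nat_lit 7) (C.cons (nat_lit 168) (C.node (nat_lit 1) (nat_lit 5) (nat_lit 7) C.nil) C.nil)) (C.cons (nat_lit 672) (C.node (nat_lit 6) (nat_lit 7) (nat_lit 9) (C.cons (nat_lit 704) (C.node (nat_lit 1) (nat_lit 4) (nat_lit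 5) C.nil) C.nil)) C.nil))) C.nil))) C.nil)) C.nil))) C.nil))))) C.nil))))) C.nil)) C.nil))) C.nil)) C.nil))) C.nil)) C.nil))) C.nil))) (C.cons (nat_lit 1168) (C.node (nat_lit 4) (nat_lit 9) (nat_lit 10) (C.cons (nat_lit 1560) (C.node (nat_lit 3) (nat_lit 7) (nat_lit 9) (C.cons (nat_lit 682) (C.miq (nat_lit 929730820) (nat_lit 1470082573764110835053036051)) (C.cons (nat_lit 680) (C.miq (nat_lit 2207516018) (nat_lit 1885929388430530918791512229)) (C.cons (nat_lit 650) (C.miq (nat_lit 929730820) (nat_lit 1470082573755103635798295059)) (C.cons (nat_lit 648) (C.node (nat_lit 1) (nat_lit 4) (nat_lit 10) (C.cons (nat_lit 1298)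
  (C.node (nat_lit 1) (nat_lit 4) (nat_lit 6) (C.cons (nat_lit 90) (C.miq (nat_lit 395534500) (nat_lit 783385591372142210262238321)) (C.cons (nat_lit 82) (C.node (nat_lit 3) (nat_lit 8) (nat_lit 9) (C.cons (nat_lit 778) (C.miq (nat_lit 910266536) (nat_lit 99146268941082583102523265)) (C.cons (nat_lit 776) (C.node (nat_lit 4) (nat_lit 7) (nat_lit 8) (C.cons (nat_lit 432) (C.miq (nat_lit 1469285408) (nat_lit 783389409914869621602451733)) (C.cons (nat_lit 400) (C.node (nat_lit 6) (nat_lit 8) (nat_lit 10) (C.cons (nat_lit 1352) (C.miq (nat_lit 423116906) (nat_lit 938150380044225657027691633)) (C.cons (nat_lit 1344) (C.node (nat_lit 3) (nat_lit 8) (nat_lit 10) (C.cons (nat_lit 1292) (C.miq (nat_lit 1228410922) (nat_lit 938150380044225657023759367)) (C.cons (nat_lit 1288) (C.node (nat_lit 1) (nat_lit 2) (nat_lit 4) (C.cons (nat_lit 62) (C.miq (nat_lit 2033322565) (nat_lit 712060352006508876392170609)) (C.cons (nat_lit 54) (C.miq (nat_lit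 1468276897) (nat_lit 483571324016483272072758279)) (C.cons (nat_lit 30) (C.miq (nat_lit 2218369312) (nat_lit 1885959715159541757248340999)) (C.cons (nat_lit 22) (C.node (nat_lit 2) (nat_lit 3) (nat_lit 4) (C.cons (nat_lit 60) (C.miq (nat_lit 2033322565) (nat_lit 712060352006508876392039537)) (C.cons (nat_lit 28) (C.node (nat_lit 2) (nat_lit 4) (nat_lit 5) (C.cons (nat_lit 52) (C.node (nat_lit 2) (nat_lit 8) (nat_lit 9) (C.cons (nat_lit 806) (C.miq (nat_lit 1380157808) (nat_lit 33855401859071174545835905)) (C.cons (nat_lit 804) (C.miq (nat_lit 1380157808) (nat_lit 33855401858508224592414593)) (C.cons (nat_lit 774) (C.miq (nat_lit 1678903945) (nat_lit 26607233483823880207730561)) (C.cons (nat_lit 772) (C.node (nat_lit 1) (nat_lit 2) (nat_lit 9) (C.cons (nat_lit 550) (C.node (nat_lit 1) (nat_lit 3) (nat_lit 9) (C.cons (nat_lit 522) (C.node (nat_lit 1) (nat_lit 7) (nat_lit 9) (C.cons (nat_lit 642) (C.node (nat_lit 1) (nat_lit 9)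 (nat_lit 10) (C.cons (nat_lit 1538) (C.node (nat_lit 3) (nat_lit 5) (nat_lit 9) (C.cons (nat_lit 552) (C.node (nat_lit 1) (nat_lit 6) (nat_lit 9) C.nil) C.nil)) C.nil)) C.nil)) C.nil)) (C.cons (nat_lit 518) (C.node (nat_lit 2) (nat_lit 5) (nat_lit 9) (C.cons (nat_lit 548) (C.node (nat_lit 1) (nat_lit 3) (nat_lit 4) (C.cons (nat_lit 26) (C.node (nat_lit 3) (nat_lit 4) (nat_lit 5) C.nil) C.nil)) C.nil)) C.nil))) C.nil))))) C.nil)) C.nil))) C.nil))))) C.nil))) C.nil))) C.nil))) C.nil))) C.nil))) (C.cons (nat_lit 1042) (C.node (nat_lit 4) (nat_lit 8) (nat_lit 10) (C.cons (nat_lit 1296) (C.node (nat_lit 1) (nat_lit 7) (nat_lit 9) (C.cons (nat_lit 674) (C.node (nat_lit 1) (nat_lit 9) (nat_lit 10) (C.cons (nat_lit 1538) (C.node (nat_lit 3) (nat_lit 5) (nat_lit 9) (C.cons (nat_lit 552) (C.node (nat_lit 5) (nat_lit 9) (nat_lit 10) (C.cons (nat_lit 1568) (C.node (nat_lit 6) (nat_lit 7) (nat_lit 9) (C.cons (nat_lit 704) (C.node (nat_lit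 2) (nat_lit 5) (nat_lit 9) (C.cons (nat_lit 804) (C.miq (nat_lit 1500742208) (nat_lit 783389410019578312910242069)) (C.cons (nat_lit 548) (C.node (nat_lit 4) (nat_lit 5) (nat_lit 7) (C.cons (nat_lit 432) (C.miq (nat_lit 1469285408) (nat_lit 783389409914869621602451733)) (C.cons (nat_lit 176) (C.node (nat_lit 2) (nat_lit 4) (nat_lit 5) (C.cons (nat_lit 62) (C.miq (nat_lit 2033322565) (nat_lit 712060352006508876392170609)) (C.cons (nat_lit 60) (C.miq (nat_lit 2033322565) (nat_lit 712060352006508876392039537)) (C.cons (nat_lit 54) (C.miq (nat_lit 2270300436) (nat_lit 199477870525238556444983827)) (C.cons (nat_lit 52) (C.node (nat_lit 1) (nat_lit 2) (nat_lit 4) (C.cons (nat_lit 30) (C.node (nat_lit 3) (nat_lit 4) (nat_lit 5) (C.cons (nat_lit 56) (C.node (nat_lit 4) (nat_lit 5) (nat_lit 9) (C.cons (nat_lit 560) (C.node (nat_lit 4) (nat_lit 8) (nat_lit 9) C.nil) C.nil)) C.nil)) (C.cons (nat_lit 22) (C.node (nat_lit 2) (nat_lit 3) (nat_lit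 4) (C.cons (nat_lit 28) (C.node (nat_lit 1) (nat_lit 4) (nat_lit 7) (C.cons (nat_lit 402) (C.node (nat_lit 1) (nat_lit 4) (nat_lit 5) C.nil) C.nil)) C.nil)) C.nil))) C.nil))))) C.nil))) C.nil))) C.nil)) C.nil)) C.nil)) C.nil))
  (C.cons (nat_lit 642) (C.node (nat_lit 1) (nat_lit 9) (nat_lit 10) (C.cons (nat_lit 1570) (C.node (nat_lit 3) (nat_lit 5) (nat_lit 9) (C.cons (nat_lit 552) (C.node (nat_lit 2) (nat_lit 5) (nat_lit 9) (C.cons (nat_lit 804) (C.miq (nat_lit 1500742208) (nat_lit 783389410019578312910242069)) (C.cons (nat_lit 548) (C.node (nat_lit 5) (nat_lit 7) (nat_lit 10) (C.cons (nat_lit 1192) (C.miq (nat_lit 1359456579) (nat_lit 235762523785706544926623256)) (C.cons (nat_lit 1184) (C.node (nat_lit 3) (nat_lit 4) (nat_lit 5) (C.cons (nat_lit 62) (C.miq (nat_lit 932266149) (nat_lit 776131519933798422325363825)) (C.cons (nat_lit 60) (C.miq (nat_lit 2033322565) (nat_lit 712060352006508876392039537)) (C.cons (nat_lit 58) (C.miq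 (nat_lit 932266149) (nat_lit 776131446146822127487157361)) (C.cons (nat_lit 56) (C.node (nat_lit 1) (nat_lit 2) (nat_lit 9) (C.cons (nat_lit 774) (C.node (nat_lit 1) (nat_lit 3) (nat_lit 9) (C.cons (nat_lit 522) (C.node (nat_lit 1) (nat_lit 6) (nat_lit 9) (C.cons (nat_lit 578) (C.node (nat_lit 3) (nat_lit 8) (nat_lit 9) (C.cons (nat_lit 776) (C.node (nat_lit 1) (nat_lit 2) (nat_lit 6) (C.cons (nat_lit 102) (C.miq (nat_lit 1158810264) (nat_lit 123315543668844385035224961)) (C.cons (nat_lit 70) (C.node (nat_lit 2) (nat_lit 3) (nat_lit 4) (C.cons (nat_lit 30) (C.miq (nat_lit 1361357184) (nat_lit 36288748978369720759945089)) (C.cons (nat_lit 28) (C.node (nat_lit 5) (nat_lit 7) (nat_lit 9) (C.cons (nat_lit 672) (C.node (nat_lit 6) (nat_lit 7) (nat_lit 9) C.nil) C.nil)) C.nil))) C.nil))) C.nil)) C.nil)) C.nil)) (C.cons (nat_lit 518) (C.node (nat_lit 2) (nat_lit 8) (nat_lit 9) (C.cons (nat_lit 772) (C.node (nat_lit 2) (nat_lit 4) (nat_lit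 5) (C.cons (nat_lit 54) (C.miq (nat_lit 2299660884) (nat_lit 626228684849206503406961777)) (C.cons (nat_lit 52) (C.node (nat_lit 4) (nat_lit 5) (nat_lit 9) (C.cons (nat_lit 816) (C.miq (nat_lit 356690304) (nat_lit 62883161655019929779636097)) (C.cons (nat_lit 560) (C.node (nat_lit 4) (nat_lit 8) (nat_lit 9) (C.cons (nat_lit 784) (C.node (nat_lit 1) (nat_lit 2) (nat_lit 4) (C.cons (nat_lit 30) (C.node (nat_lit 1) (nat_lit 4) (nat_lit 6) C.nil) C.nil)) C.nil)) C.nil))) C.nil))) C.nil)) C.nil))) C.nil))))) C.nil))) C.nil))) C.nil)) (C.cons (nat_lit 1538) (C.node (nat_lit 5) (nat_lit 9) (nat_lit 10) (C.cons (nat_lit 1568) (C.node (nat_lit 3) (nat_lit 5) (nat_lit 9) (C.cons (nat_lit 554) (C.node (nat_lit 3) (nat_lit 8) (nat_lit 9) (C.cons (nat_lit 776) (C.node (nat_lit 2) (nat_lit 5) (nat_lit 9) (C.cons (nat_lit 804) (C.miq (nat_lit 1500742208) (nat_lit 783389410019578312910242069)) (C.cons (nat_lit 548) (C.node (nat_lit 3) (nat_lit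 4) (nat_lit 5) (C.cons (nat_lit 60) (C.miq (nat_lit 2033322565) (nat_lit 712060352006508876392039537)) (C.cons (nat_lit 56) (C.node (nat_lit 1) (nat_lit 2) (nat_lit 9) (C.cons (nat_lit 774) (C.node (nat_lit 1) (nat_lit 6) (nat_lit 9) (C.cons (nat_lit 578) (C.node (nat_lit 2) (nat_lit 3) (nat_lit 4) (C.cons (nat_lit 30) (C.miq (nat_lit 2031290404) (nat_lit 669747726959064594916442389)) (C.cons (nat_lit 28) (C.node (nat_lit 1) (nat_lit 2) (nat_lit 4) (C.cons (nat_lit 54) (C.miq (nat_lit 2836727844) (nat_lit 669765878555233125116805397)) (C.cons (nat_lit 22) (C.node (nat_lit 2) (nat_lit 4) (nat_lit 5) (C.cons (nat_lit 52) (C.node (nat_lit 4) (nat_lit 5) (nat_lit 9) C.nil) C.nil)) C.nil))) C.nil))) C.nil)) (C.cons (nat_lit 518) (C.node (nat_lit 2) (nat_lit 8) (nat_lit 9) (C.cons (nat_lit 772) (C.node (nat_lit 4) (nat_lit 5) (nat_lit 9) (C.cons (nat_lit 816) (C.node (nat_lit 1) (nat_lit 6) (nat_lit 9) (C.cons (nat_lit 834) (C.node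 (nat_lit 2) (nat_lit 4) (nat_lit 5) (C.cons (nat_lit 54) (C.miq (nat_lit 2840660034) (nat_lit 669763923200361492292960533)) C.nil)) C.nil)) C.nil)) C.nil)) C.nil))) C.nil))) C.nil))) C.nil)) (C.cons (nat_lit 552) (C.node (nat_lit 1) (nat_lit 3) (nat_lit 9) (C.cons (nat_lit 778) (C.node (nat_lit 2) (nat_lit 8) (nat_lit 9) (C.cons (nat_lit 804) (C.miq (nat_lit 1500742208) (nat_lit 783389410019578312910242069)) (C.cons (nat_lit 772)
  (C.node (nat_lit 3) (nat_lit 4) (nat_lit 5) (C.cons (nat_lit 62) (C.miq (nat_lit 2033322565) (nat_lit 712060352006508876392170609)) (C.cons (nat_lit 60) (C.miq (nat_lit 2033322565) (nat_lit 712060352006508876392039537)) (C.cons (nat_lit 58) (C.miq (nat_lit 2822048020) (nat_lit 359071942914273444397449747)) (C.cons (nat_lit 56) (C.node (nat_lit 1) (nat_lit 2) (nat_lit 9) (C.cons (nat_lit 550) (C.node (nat_lit 1) (nat_lit 6) (nat_lit 9) (C.cons (nat_lit 578) (C.node (nat_lit 2) (nat_lit 4) (nat_lit 5)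 (C.cons (nat_lit 52) (C.node (nat_lit 1) (nat_lit 4) (nat_lit 5) (C.cons (nat_lit 434) (C.miq (nat_lit 827496560) (nat_lit 664920066139294856921810817)) (C.cons (nat_lit 306) (C.miq (nat_lit 1669662996) (nat_lit 359071942539348775435108883)) (C.cons (nat_lit 178) (C.miq (nat_lit 844564756) (nat_lit 199475582754048214914171411)) (C.cons (nat_lit 50) (C.node (nat_lit 4) (nat_lit 5) (nat_lit 7) (C.cons (nat_lit 432) (C.miq (nat_lit 609458048) (nat_lit 67710711216453988783818625)) (C.cons (nat_lit 176) (C.node (nat_lit 1) (nat_lit 2) (nat_lit 4) (C.cons (nat_lit 30) (C.node (nat_lit 1) (nat_lit 4) (nat_lit 6) C.nil) C.nil)) C.nil))) C.nil))))) C.nil)) C.nil)) (C.cons (nat_lit 518) (C.node (nat_lit 2) (nat_lit 5) (nat_lit 9) (C.cons (nat_lit 548) (C.node (nat_lit 4) (nat_lit 5) (nat_lit 9) (C.cons (nat_lit 816) (C.node (nat_lit 6) (nat_lit 8) (nat_lit 9) C.nil) C.nil)) C.nil)) C.nil))) C.nil))))) C.nil))) (C.cons (nat_lit 522) (C.node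 (nat_lit 3) (nat_lit 8) (nat_lit 9) (C.cons (nat_lit 776) (C.node (nat_lit 4) (nat_lit 5) (nat_lit 9) (C.cons (nat_lit 816) (C.node (nat_lit 2) (nat_lit 8) (nat_lit 9) (C.cons (nat_lit 774) (C.miq (nat_lit 1494894624) (nat_lit 1859348884744998383826436373)) (C.cons (nat_lit 772) (C.node (nat_lit 2) (nat_lit 4) (nat_lit 5) (C.cons (nat_lit 62) (C.miq (nat_lit 2033322565) (nat_lit 712060352006508876392170609)) (C.cons (nat_lit 60) (C.miq (nat_lit 2033322565) (nat_lit 712060352006508876392039537)) (C.cons (nat_lit 54) (C.miq (nat_lit 445980804) (nat_lit 1895596681570127477929410837)) (C.cons (nat_lit 52) (C.node (nat_lit 1) (nat_lit 2) (nat_lit 4) (C.cons (nat_lit 30) (C.node (nat_lit 3) (nat_lit 4) (nat_lit 5) (C.cons (nat_lit 56) (C.node (nat_lit 4) (nat_lit 7) (nat_lit 8) (C.cons (nat_lit 402) (C.miq (nat_lit 1899594784) (nat_lit 631094714147355094770581781)) C.nil)) C.nil)) (C.cons (nat_lit 22) (C.node (nat_lit 2) (nat_lit 3)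 (nat_lit 4) (C.cons (nat_lit 28) (C.node (nat_lit 1) (nat_lit 2) (nat_lit 9) (C.cons (nat_lit 550) (C.node (nat_lit 1) (nat_lit 6) (nat_lit 9) C.nil) C.nil)) C.nil)) C.nil))) C.nil))))) C.nil))) (C.cons (nat_lit 560) (C.node (nat_lit 4) (nat_lit 8) (nat_lit 9) (C.cons (nat_lit 784) (C.node (nat_lit 5) (nat_lit 7) (nat_lit 9) (C.cons (nat_lit 672) (C.node (nat_lit 6) (nat_lit 7) (nat_lit 9) C.nil) C.nil)) C.nil)) C.nil))) C.nil)) C.nil))) C.nil))) C.nil)) C.nil))) C.nil))) C.nil)) C.nil))) C.nil))))) (C.cons (nat_lit 1552) (C.node (nat_lit 6) (nat_lit 7) (nat_lit 9) (C.cons (nat_lit 736) (C.node (nat_lit 1) (nat_lit 6) (nat_lit 9) (C.cons (nat_lit 834) (C.node (nat_lit 1) (nat_lit 2) (nat_lit 6) (C.cons (nat_lit 102) (C.miq (nat_lit 1386832135) (nat_lit 1861759339038882055139164355)) (C.cons (nat_lit 70) (C.node (nat_lit 2) (nat_lit 8) (nat_lit 9) (C.cons (nat_lit 804) (C.miq (nat_lit 899090468) (nat_lit 889772225671811871425167637))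 (C.cons (nat_lit 772) (C.node (nat_lit 3) (nat_lit 8) (nat_lit 9) (C.cons (nat_lit 792) (C.miq (nat_lit 964002848) (nat_lit 889774882142287980564644117)) (C.cons (nat_lit 776) (C.node (nat_lit 3) (nat_lit 6) (nat_lit 7) (C.cons (nat_lit 456) (C.miq (nat_lit 1133053793) (nat_lit 938136231285123009340375235)) (C.cons (nat_lit 200) (C.node (nat_lit 6) (nat_lit 7) (nat_lit 8) (C.cons (nat_lit 448) (C.node (nat_lit 1) (nat_lit 4) (nat_lit 6) (C.cons (nat_lit 90) (C.miq (nat_lit 2251788608) (nat_lit 241820600353041948123660819)) (C.cons (nat_lit 82) (C.node (nat_lit 4) (nat_lit 7) (nat_lit 8) (C.cons (nat_lit 434)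
  (C.miq (nat_lit 1382117528) (nat_lit 84632813306397933122488193)) (C.cons (nat_lit 432) (C.miq (nat_lit 643041656) (nat_lit 1374553766815733711593539457)) (C.cons (nat_lit 402) (C.miq (nat_lit 907282823) (nat_lit 99134739726035213198952321)) (C.cons (nat_lit 400) (C.node (nat_lit 5) (nat_lit 7) (nat_lit 8) (C.cons (nat_lit 418) (C.miq (nat_lit 1382117528) (nat_lit 84632518158492753769662337)) (C.cons (nat_lit 416) (C.node (nat_lit 1) (nat_lit 2) (nat_lit 9) (C.cons (nat_lit 550) (C.node (nat_lit 1) (nat_lit 4) (nat_lit 7) (C.cons (nat_lit 178) (C.miq (nat_lit 844564756) (nat_lit 199475582754048214914171411)) (C.cons (nat_lit 146) (C.node (nat_lit 4) (nat_lit 5) (nat_lit 7) (C.cons (nat_lit 176) (C.node (nat_lit 2) (nat_lit 4) (nat_lit 5) (C.cons (nat_lit 60) (C.miq (nat_lit 2269448483) (nat_lit 212776423475880891428635213)) (C.cons (nat_lit 52) (C.node (nat_lit 3) (nat_lit 4) (nat_lit 6) (C.cons (nat_lit 344) (C.node (nat_lit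 6) (nat_lit 8) (nat_lit 10) C.nil) C.nil)) C.nil))) C.nil)) C.nil))) (C.cons (nat_lit 518) (C.node (nat_lit 2) (nat_lit 5) (nat_lit 9) (C.cons (nat_lit 548) (C.node (nat_lit 1) (nat_lit 4) (nat_lit 7) (C.cons (nat_lit 178) (C.node (nat_lit 1) (nat_lit 7) (nat_lit 9) (C.cons (nat_lit 650) (C.miq (nat_lit 928420160) (nat_lit 889780268551585986950267411)) (C.cons (nat_lit 642) (C.node (nat_lit 3) (nat_lit 7) (nat_lit 9) (C.cons (nat_lit 648) (C.node (nat_lit 1) (nat_lit 7) (nat_lit 10) C.nil) C.nil)) C.nil))) (C.cons (nat_lit 146) (C.node (nat_lit 4) (nat_lit 5) (nat_lit 7) (C.cons (nat_lit 176) (C.node (nat_lit 1) (nat_lit 7) (nat_lit 9) (C.cons (nat_lit 650) (C.node (nat_lit 1) (nat_lit 2) (nat_lit 7) C.nil) C.nil)) C.nil)) C.nil))) C.nil)) C.nil))) C.nil))) C.nil))))) C.nil))) C.nil)) C.nil))) C.nil))) C.nil))) C.nil))) (C.cons (nat_lit 578) (C.node (nat_lit 6) (nat_lit 8) (nat_lit 9) (C.cons (nat_lit 832) (C.node (nat_lit 1)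 (nat_lit 7) (nat_lit 9) (C.cons (nat_lit 650) (C.node (nat_lit 1) (nat_lit 7) (nat_lit 10) (C.cons (nat_lit 1186) (C.miq (nat_lit 395486560) (nat_lit 797910059872627733367161969)) (C.cons (nat_lit 1154) (C.node (nat_lit 2) (nat_lit 3) (nat_lit 7) (C.cons (nat_lit 396) (C.miq (nat_lit 822638914) (nat_lit 313119092373803160739054228)) (C.cons (nat_lit 140) (C.node (nat_lit 3) (nat_lit 5) (nat_lit 6) (C.cons (nat_lit 106) (C.miq (nat_lit 1517379731) (nat_lit 1395102351510199180018188877)) (C.cons (nat_lit 104) (C.node (nat_lit 3) (nat_lit 8) (nat_lit 9) (C.cons (nat_lit 792) (C.miq (nat_lit 964002848) (nat_lit 889774882142287980564644117)) (C.cons (nat_lit 776) (C.node (nat_lit 3) (nat_lit 4) (nat_lit 9) (C.cons (nat_lit 568) (C.miq (nat_lit 1985155145) (nat_lit 125740275678461849251611155)) (C.cons (nat_lit 536) (C.node (nat_lit 3) (nat_lit 5) (nat_lit 9) (C.cons (nat_lit 1576) (C.miq (nat_lit 374567081) (nat_lit 125740275678461849317672833))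 (C.cons (nat_lit 552) (C.node (nat_lit 3) (nat_lit 9) (nat_lit 10) (C.cons (nat_lit 1544) (C.node (nat_lit 1) (nat_lit 4) (nat_lit 7) (C.cons (nat_lit 434) (C.miq (nat_lit 643041656) (nat_lit 1374553766815733711593670529)) (C.cons (nat_lit 402) (C.miq (nat_lit 2184659089) (nat_lit 169257030415136814025802259)) (C.cons (nat_lit 178) (C.miq (nat_lit 928420160) (nat_lit 889780268551585986950267411)) (C.cons (nat_lit 146) (C.node (nat_lit 4) (nat_lit 5) (nat_lit 7) (C.cons (nat_lit 432) (C.miq (nat_lit 643041656) (nat_lit 1374553766815733711593539457)) (C.cons (nat_lit 176) (C.node (nat_lit 4) (nat_lit 7) (nat_lit 8) (C.cons (nat_lit 400) (C.node (nat_lit 1) (nat_lit 2) (nat_lit 7) (C.cons (nat_lit 134) (C.node (nat_lit 2) (nat_lit 7) (nat_lit 8) C.nil) C.nil)) C.nil)) C.nil))) C.nil))))) C.nil)) C.nil))) C.nil))) C.nil))) C.nil))) C.nil))) C.nil))) (C.cons (nat_lit 642) (C.node (nat_lit 3) (nat_lit 7) (nat_lit 9) (C.cons (nat_lit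 648) (C.node (nat_lit 3) (nat_lit 5) (nat_lit 6) (C.cons (nat_lit 106) (C.node (nat_lit 3) (nat_lit 8) (nat_lit 9) (C.cons (nat_lit 792) (C.miq (nat_lit 964002848) (nat_lit 889774882142287980564644117))
  (C.cons (nat_lit 778) (C.miq (nat_lit 2836793397) (nat_lit 698780098225984242493030697)) (C.cons (nat_lit 776) (C.node (nat_lit 5) (nat_lit 7) (nat_lit 8) (C.cons (nat_lit 434) (C.miq (nat_lit 643041656) (nat_lit 1374553766815733711593670529)) (C.cons (nat_lit 432) (C.miq (nat_lit 643041656) (nat_lit 1374553766815733711593539457)) (C.cons (nat_lit 418) (C.miq (nat_lit 2555578134) (nat_lit 359061834098519505378083011)) (C.cons (nat_lit 416) (C.node (nat_lit 1) (nat_lit 2) (nat_lit 6) (C.cons (nat_lit 326) (C.node (nat_lit 1) (nat_lit 4) (nat_lit 6) (C.cons (nat_lit 82) (C.node (nat_lit 1) (nat_lit 6) (nat_lit 10) (C.cons (nat_lit 1090) (C.node (nat_lit 2) (nat_lit 5) (nat_lit 6) (C.cons (nat_lit 100) (C.node (nat_lit 3) (nat_lit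 6) (nat_lit 7) C.nil) C.nil)) C.nil)) C.nil)) (C.cons (nat_lit 70) (C.node (nat_lit 1) (nat_lit 3) (nat_lit 9) (C.cons (nat_lit 1546) (C.node (nat_lit 5) (nat_lit 9) (nat_lit 10) (C.cons (nat_lit 1568) (C.node (nat_lit 1) (nat_lit 7) (nat_lit 10) (C.cons (nat_lit 1186) (C.miq (nat_lit 588581287) (nat_lit 128149180757718255974614913)) (C.cons (nat_lit 1154) (C.node (nat_lit 1) (nat_lit 5) (nat_lit 10) (C.cons (nat_lit 1314) (C.miq (nat_lit 2168038752) (nat_lit 1869034753689440874847339633)) (C.cons (nat_lit 1058) (C.node (nat_lit 1) (nat_lit 4) (nat_lit 10) (C.cons (nat_lit 1298) (C.node (nat_lit 1) (nat_lit 6) (nat_lit 10) C.nil) C.nil)) C.nil))) C.nil))) C.nil)) (C.cons (nat_lit 522) (C.node (nat_lit 3) (nat_lit 9) (nat_lit 10) (C.cons (nat_lit 1576) (C.miq (nat_lit 2033257046) (nat_lit 631062875494651001695765617)) (C.cons (nat_lit 1544) (C.node (nat_lit 1) (nat_lit 4) (nat_lit 6) (C.cons (nat_lit 338) (C.node (nat_lit 1) (nat_lit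 6) (nat_lit 10) (C.cons (nat_lit 1090) (C.node (nat_lit 3) (nat_lit 4) (nat_lit 6) (C.cons (nat_lit 88) (C.node (nat_lit 4) (nat_lit 7) (nat_lit 8) C.nil) C.nil)) C.nil)) (C.cons (nat_lit 82) (C.node (nat_lit 1) (nat_lit 6) (nat_lit 8) (C.cons (nat_lit 1346) (C.node (nat_lit 3) (nat_lit 6) (nat_lit 10) (C.cons (nat_lit 1096) (C.node (nat_lit 1) (nat_lit 4) (nat_lit 10) C.nil) C.nil)) (C.cons (nat_lit 322) (C.node (nat_lit 1) (nat_lit 6) (nat_lit 10) (C.cons (nat_lit 1090) (C.node (nat_lit 2) (nat_lit 5) (nat_lit 6) C.nil) C.nil)) C.nil))) C.nil))) C.nil))) C.nil))) C.nil))) C.nil))))) C.nil)))) (C.cons (nat_lit 104) (C.node (nat_lit 3) (nat_lit 6) (nat_lit 7) (C.cons (nat_lit 456) (C.node (nat_lit 3) (nat_lit 4) (nat_lit 6) (C.cons (nat_lit 90) (C.miq (nat_lit 2249814848) (nat_lit 698794560060974234990739609)) (C.cons (nat_lit 88) (C.node (nat_lit 4) (nat_lit 7) (nat_lit 8) (C.cons (nat_lit 434) (C.miq (nat_lit 643041656) (nat_lit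 1374553766815733711593670529)) (C.cons (nat_lit 432) (C.miq (nat_lit 643041656) (nat_lit 1374553766815733711593539457)) (C.cons (nat_lit 402) (C.miq (nat_lit 409552688) (nat_lit 1005836077253629512308818073)) (C.cons (nat_lit 400) (C.node (nat_lit 1) (nat_lit 3) (nat_lit 6) (C.cons (nat_lit 1098) (C.node (nat_lit 6) (nat_lit 8) (nat_lit 10) (C.cons (nat_lit 1344) (C.node (nat_lit 1) (nat_lit 7) (nat_lit 10) (C.cons (nat_lit 1186) (C.miq (nat_lit 395486560) (nat_lit 797910059872627733367161969)) (C.cons (nat_lit 1154) (C.node (nat_lit 1) (nat_lit 4) (nat_lit 10) C.nil) C.nil))) C.nil)) (C.cons (nat_lit 74) (C.node (nat_lit 3) (nat_lit 6) (nat_lit 10) (C.cons (nat_lit 1096) (C.node (nat_lit 1) (nat_lit 4) (nat_lit 6) (C.cons (nat_lit 338) (C.node (nat_lit 1) (nat_lit 6) (nat_lit 10) (C.cons (nat_lit 1090) (C.node (nat_lit 6) (nat_lit 8) (nat_lit 10) C.nil) C.nil)) (C.cons (nat_lit 82) (C.node (nat_lit 4) (nat_lit 6) (nat_lit 8)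 C.nil) C.nil))) C.nil)) C.nil))) C.nil))))) C.nil))) (C.cons (nat_lit 200) (C.node (nat_lit 6) (nat_lit 7) (nat_lit 8) (C.cons (nat_lit 448) (C.ref (nat_lit 160) (nat_lit 7229140141840)) C.nil)) C.nil))) C.nil))) C.nil)) C.nil))) C.nil)) C.nil))) (C.cons (nat_lit 704) (C.ref (nat_lit 128) (nat_lit 11430141571600)) C.nil))) C.nil))) C.nil))) C.nil))) List.nil)

theorem ok11_161 : okL par11 (nat_lit 162) c11_161 (nat_lit 161) = true := by decide +kernel


end Pool.Agent.MP_1f1ca1_co
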