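import Pool.Agent.Mg.F1f1ca1.G140a50

section

set_option autoImplicit false
set_option maxRecDepth 1000000
set_option maxHeartbeats 0

namespace Pool.Agent.MP_1f1ca1_co

noncomputable def c11_74 : List C :=
  (List.cons (C.node (nat_lit 1) (nat_lit 7) (nat_lit 10) (C.cons (nat_lit 1186) (C.node (nat_lit 1) (nat_lit 8) (nat_lit 10) (C.cons (nat_lit 1346) (C.node (nat_lit 1) (nat_lit 9) (nat_lit 10) (C.cons (nat_lit 1538) (C.node (nat_lit 2) (nat_lit 6) (nat_lit 10) (C.cons (nat_lit 1220) (C.node (nat_lit 3) (nat_lit 7) (nat_lit 10) (C.cons (nat_lit 1160) (C.node (nat_lit 4) (nat_lit 7) (nat_lit 10) (C.cons (nat_lit 1168) (C.node (nat_lit 2) (nat_lit 4) (nat_lit 10) (C.cons (nat_lit 1556) (C.miq (nat_lit 1248957024) (nat_lit 1433795817722033644608094789)) (C.cons (nat_lit 1044) (C.node (nat_lit 2) (nat_lit 8) (nat_lit 10) (C.cons (nat_lit 1316) (C.miq (nat_lit 1652587089) (nat_lit 334876049491751778539209890)) (C.cons (nat_lit 1284)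 (C.node (nat_lit 2) (nat_lit 5) (nat_lit 10) (C.cons (nat_lit 1572) (C.miq (nat_lit 1359587170) (nat_lit 641968608830882123119658180)) (C.cons (nat_lit 1060) (C.node (nat_lit 2) (nat_lit 9) (nat_lit 10) (C.cons (nat_lit 1540) (C.node (nat_lit 5) (nat_lit 9) (nat_lit 10) (C.cons (nat_lit 1568) (C.ref (nat_lit 62) (nat_lit 11649936536080)) C.nil)) C.nil)) C.nil))) C.nil))) C.nil))) C.nil)) C.nil)) (C.cons (nat_lit 1092) (C.node (nat_lit 2) (nat_lit 7) (nat_lit 10) (C.cons (nat_lit 1172) (C.node (nat_lit 1) (nat_lit 4) (nat_lit 7) (C.cons (nat_lit 402) (C.miq (nat_lit 672612442) (nat_lit 486009799147105134288438385)) (C.cons (nat_lit 146) (C.node (nat_lit 2) (nat_lit 8) (nat_lit 10) (C.cons (nat_lit 1316) (C.miq (nat_lit 1896129922) (nat_lit 641961230133253051595949348)) (C.cons (nat_lit 1284) (C.node (nat_lit 1) (nat_lit 2) (nat_lit 7) (C.cons (nat_lit 646) (C.miq (nat_lit 2171733412) (nat_lit 780971189301073176536810609)) (C.cons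 (nat_lit 390) (C.node (nat_lit 1) (nat_lit 2) (nat_lit 9) (C.cons (nat_lit 550) (C.miq (nat_lit 1158810232) (nat_lit 664914310856196606010984321)) (C.cons (nat_lit 518) (C.node (nat_lit 4) (nat_lit 8) (nat_lit 10) (C.cons (nat_lit 1304) (C.miq (nat_lit 924336234) (nat_lit 471505124247044004434281585)) (C.cons (nat_lit 1296) (C.node (nat_lit 1) (nat_lit 2) (nat_lit 4) (C.cons (nat_lit 86) (C.miq (nat_lit 1361356672) (nat_lit 103988594768700914219157377)) (C.cons (nat_lit 54) (C.node (nat_lit 1) (nat_lit 2) (nat_lit 6) (C.cons (nat_lit 70) (C.node (nat_lit 1) (nat_lit 4) (nat_lit 6) (C.cons (nat_lit 90) (C.miq (nat_lit 931217574) (nat_lit 471482729899745934152172657)) (C.cons (nat_lit 82) (C.node (nat_lit 2) (nat_lit 5) (nat_lit 10) (C.cons (nat_lit 1572) (C.miq (nat_lit 891554215) (nat_lit 65284816766695666881922945)) (C.cons (nat_lit 1060) (C.node (nat_lit 2) (nat_lit 9) (nat_lit 10) (C.cons (nat_lit 1540) (C.node (nat_lit 5) (nat_lit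 9) (nat_lit 10) (C.cons (nat_lit 1568) (C.ref (nat_lit 63) (nat_lit 11649936536080)) C.nil)) C.nil)) C.nil))) C.nil))) C.nil)) (C.cons (nat_lit 22) (C.miq (nat_lit 1361356672) (nat_lit 26617342313364647037962113)) C.nil)))) C.nil))) C.nil))) (C.cons (nat_lit 134) (C.miq (nat_lit 2171733412) (nat_lit 162001169658383039087248497)) C.nil)))) C.nil))) C.nil))) (C.cons (nat_lit 1156) (C.node (nat_lit 4) (nat_lit 7) (nat_lit 10) (C.cons (nat_lit 1168) (C.node (nat_lit 2) (nat_lit 4) (nat_lit 10) (C.cons (nat_lit 1556) (C.node (nat_lit 5) (nat_lit 9) (nat_lit 10) (C.cons (nat_lit 1568) (C.node (nat_lit 2) (nat_lit 5) (nat_lit 10) (C.cons (nat_lit 1316) (C.miq (nat_lit 1519485504) (nat_lit 1859333278940252872532754709)) (C.cons (nat_lit 1060) (C.node (nat_lit 2) (nat_lit 8) (nat_lit 10) (C.cons (nat_lit 1284) (C.node (nat_lit 1) (nat_lit 2) (nat_lit 6) (C.cons (nat_lit 102) (C.miq (nat_lit 2589067030) (nat_lit 1281472086890532274537103555))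 (C.cons (nat_lit 86) (C.miq (nat_lit 2049313089) (nat_lit 1320150592674989545377628691)) (C.cons (nat_lit 70) (C.node (nat_lit 1) (nat_lit 2) (nat_lit 8) (C.cons (nat_lit 774) (C.miq (nat_lit 1512572049) (nat_lit 1552266120707753041342104083)) (C.cons (nat_lit 390) (C.miq (nat_lit 665092432) (nat_lit 1412030467167775628425494819)) (C.cons (nat_lit 262) (C.node (nat_lit 1) (nat_lit 4) (nat_lit 6) (C.cons (nat_lit 90)
  (C.node (nat_lit 1) (nat_lit 3) (nat_lit 5) (C.cons (nat_lit 42) (C.node (nat_lit 1) (nat_lit 4) (nat_lit 5) (C.cons (nat_lit 54) (C.miq (nat_lit 1898489152) (nat_lit 316774001268227994146899057)) (C.cons (nat_lit 50) (C.node (nat_lit 1) (nat_lit 4) (nat_lit 8) (C.cons (nat_lit 402) (C.miq (nat_lit 931217574) (nat_lit 485989839735121484248646769)) (C.cons (nat_lit 274) (C.node (nat_lit 1) (nat_lit 7) (nat_lit 8) (C.cons (nat_lit 394) (C.node (nat_lit 1) (nat_lit 3) (nat_lit 9) (C.cons (nat_lit 522) (C.node (nat_lit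 1) (nat_lit 8) (nat_lit 9) (C.cons (nat_lit 770) (C.node (nat_lit 1) (nat_lit 7) (nat_lit 9) (C.cons (nat_lit 646) (C.miq (nat_lit 1108781424) (nat_lit 84645781759013688313055105)) (C.cons (nat_lit 642) (C.node (nat_lit 2) (nat_lit 4) (nat_lit 6) (C.cons (nat_lit 212) (C.miq (nat_lit 2269516554) (nat_lit 256317103186726396122694671)) (C.cons (nat_lit 84) (C.node (nat_lit 3) (nat_lit 4) (nat_lit 9) (C.cons (nat_lit 792) (C.miq (nat_lit 1736642708) (nat_lit 476318433190026399836537363)) (C.cons (nat_lit 536) (C.node (nat_lit 3) (nat_lit 4) (nat_lit 10) (C.cons (nat_lit 1304) (C.node (nat_lit 3) (nat_lit 5) (nat_lit 10) (C.cons (nat_lit 1064) (C.node (nat_lit 5) (nat_lit 8) (nat_lit 10) (C.cons (nat_lit 1312) (C.node (nat_lit 3) (nat_lit 7) (nat_lit 10) (C.cons (nat_lit 1224) (C.miq (nat_lit 1662363520) (nat_lit 50795858716353296827877249)) (C.cons (nat_lit 1160) (C.node (nat_lit 6) (nat_lit 7) (nat_lit 10) (C.cons (nat_lit 1216) (C.node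 (nat_lit 3) (nat_lit 6) (nat_lit 10) (C.cons (nat_lit 1608) (C.miq (nat_lit 640944552) (nat_lit 108808433676968911131117441)) C.nil)) C.nil)) C.nil))) C.nil)) C.nil)) (C.cons (nat_lit 1048) (C.miq (nat_lit 2319652359) (nat_lit 1266961527352166618695794883)) C.nil))) C.nil))) C.nil))) C.nil))) C.nil)) C.nil)) (C.cons (nat_lit 386) (C.miq (nat_lit 931217574) (nat_lit 466647026621287417453347953)) C.nil))) C.nil))) C.nil))) C.nil)) (C.cons (nat_lit 82) (C.node (nat_lit 1) (nat_lit 8) (nat_lit 9) (C.cons (nat_lit 778) (C.node (nat_lit 1) (nat_lit 3) (nat_lit 7) (C.cons (nat_lit 138) (C.node (nat_lit 1) (nat_lit 3) (nat_lit 4) (C.cons (nat_lit 58) (C.miq (nat_lit 1630906512) (nat_lit 70138671864528960066488193)) (C.cons (nat_lit 26) (C.node (nat_lit 1) (nat_lit 3) (nat_lit 5) (C.cons (nat_lit 106) (C.node (nat_lit 1) (nat_lit 6) (nat_lit 9) (C.cons (nat_lit 578) (C.node (nat_lit 1) (nat_lit 4) (nat_lit 5) (C.cons (nat_lit 54) (C.miq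 (nat_lit 1898489152) (nat_lit 316774001268227994146899057)) (C.cons (nat_lit 50) (C.node (nat_lit 1) (nat_lit 7) (nat_lit 9) (C.cons (nat_lit 646) (C.miq (nat_lit 1108781424) (nat_lit 84645781759013688313055105)) (C.cons (nat_lit 642) (C.node (nat_lit 2) (nat_lit 9) (nat_lit 8) (C.cons (nat_lit 804) (C.miq (nat_lit 1704465162) (nat_lit 972001188317523792294380559)) (C.cons (nat_lit 772) (C.node (nat_lit 3) (nat_lit 9) (nat_lit 4) (C.cons (nat_lit 600) (C.miq (nat_lit 2237861961) (nat_lit 128160488527954140189950483)) (C.cons (nat_lit 536) (C.node (nat_lit 3) (nat_lit 9) (nat_lit 10) (C.cons (nat_lit 1608) (C.node (nat_lit 3) (nat_lit 7) (nat_lit 10) (C.cons (nat_lit 1160) (C.node (nat_lit 7) (nat_lit 6) (nat_lit 10) (C.cons (nat_lit 1216) (C.node (nat_lit 3) (nat_lit 5) (nat_lit 10) (C.cons (nat_lit 1320) (C.miq (nat_lit 2199364960) (nat_lit 166867199673731846695486577)) (C.cons (nat_lit 1064) (C.node (nat_lit 8) (nat_lit 5) (nat_lit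 10) (C.cons (nat_lit 1312) (C.node (nat_lit 3) (nat_lit 8) (nat_lit 10) (C.cons (nat_lit 1304) (C.miq (nat_lit 674825382) (nat_lit 940555005296462492462482545)) C.nil)) C.nil)) C.nil))) C.nil)) C.nil)) (C.cons (nat_lit 1544) (C.miq (nat_lit 1788024837) (nat_lit 1866583421218732828279767331)) C.nil))) C.nil))) C.nil))) C.nil))) C.nil))) C.nil)) (C.cons (nat_lit 42) (C.miq (nat_lit 1630906512) (nat_lit 50795858750694893271189377)) C.nil))) C.nil))) C.nil)) (C.cons (nat_lit 770) (C.node (nat_lit 3) (nat_lit 4) (nat_lit 10) (C.cons (nat_lit 1304) (C.node (nat_lit 1) (nat_lit 3) (nat_lit 8) (C.cons (nat_lit 394)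
  (C.miq (nat_lit 878801064) (nat_lit 99139185268635188792002433)) (C.cons (nat_lit 266) (C.miq (nat_lit 1904412324) (nat_lit 321577090424228039603258481)) C.nil))) (C.cons (nat_lit 1048) (C.node (nat_lit 4) (nat_lit 8) (nat_lit 10) (C.cons (nat_lit 1296) (C.node (nat_lit 3) (nat_lit 5) (nat_lit 10) (C.cons (nat_lit 1320) (C.node (nat_lit 3) (nat_lit 7) (nat_lit 10) (C.cons (nat_lit 1224) (C.miq (nat_lit 1669364305) (nat_lit 320368939657502145529447586)) (C.cons (nat_lit 1160) (C.node (nat_lit 6) (nat_lit 7) (nat_lit 10) (C.cons (nat_lit 1216) (C.node (nat_lit 3) (nat_lit 6) (nat_lit 10) (C.cons (nat_lit 1608) (C.miq (nat_lit 1628022867) (nat_lit 641969272958705185252246824)) (C.cons (nat_lit 1096) (C.node (nat_lit 3) (nat_lit 9) (nat_lit 10) (C.cons (nat_lit 1544) (C.node (nat_lit 6) (nat_lit 9) (nat_lit 10) (C.cons (nat_lit 1600) (C.node (nat_lit 1) (nat_lit 3) (nat_lit 5) (C.cons (nat_lit 106) (C.miq (nat_lit 964776102) (nat_lit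 930874836613800190577607793)) (C.cons (nat_lit 58) (C.miq (nat_lit 832066570) (nat_lit 930897230821769590534636657)) (C.cons (nat_lit 42) (C.node (nat_lit 1) (nat_lit 4) (nat_lit 5) (C.cons (nat_lit 54) (C.miq (nat_lit 1898489152) (nat_lit 316774001268227994146899057)) (C.cons (nat_lit 50) (C.node (nat_lit 4) (nat_lit 5) (nat_lit 8) (C.cons (nat_lit 816) (C.miq (nat_lit 609331584) (nat_lit 60465457585802611433604993)) (C.cons (nat_lit 432) (C.miq (nat_lit 559155832) (nat_lit 60451401021297470943004545)) (C.cons (nat_lit 304) (C.node (nat_lit 1) (nat_lit 2) (nat_lit 4) (C.cons (nat_lit 150) (C.node (nat_lit 1) (nat_lit 7) (nat_lit 8) (C.cons (nat_lit 394) (C.miq (nat_lit 878801064) (nat_lit 99139185268635188792002433)) (C.cons (nat_lit 386) (C.node (nat_lit 4) (nat_lit 7) (nat_lit 8) (C.cons (nat_lit 464) (C.miq (nat_lit 828639879) (nat_lit 99134739852701151746066305)) (C.cons (nat_lit 400) (C.node (nat_lit 1) (nat_lit 3) (nat_lit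 4) C.nil) C.nil))) C.nil))) (C.cons (nat_lit 22) (C.node (nat_lit 1) (nat_lit 2) (nat_lit 7) (C.cons (nat_lit 646) (C.miq (nat_lit 1108781424) (nat_lit 84645781759013688313055105)) (C.cons (nat_lit 134) (C.node (nat_lit 1) (nat_lit 2) (nat_lit 5) C.nil) C.nil))) C.nil))) C.nil)))) C.nil))) C.nil)))) C.nil)) C.nil)) C.nil))) C.nil)) C.nil))) (C.cons (nat_lit 1064) (C.node (nat_lit 3) (nat_lit 8) (nat_lit 10) (C.cons (nat_lit 1288) (C.node (nat_lit 5) (nat_lit 8) (nat_lit 10) (C.cons (nat_lit 1312) (C.node (nat_lit 3) (nat_lit 7) (nat_lit 10) (C.cons (nat_lit 1224) (C.node (nat_lit 3) (nat_lit 9) (nat_lit 10) (C.cons (nat_lit 1544) (C.node (nat_lit 6) (nat_lit 9) (nat_lit 10) (C.cons (nat_lit 1600) (C.node (nat_lit 1) (nat_lit 3) (nat_lit 7) (C.cons (nat_lit 394) (C.miq (nat_lit 878801064) (nat_lit 99139185268635188792002433)) (C.cons (nat_lit 650) (C.miq (nat_lit 826702090) (nat_lit 99154496206106828381161345)) (C.cons (nat_lit 138)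 (C.node (nat_lit 1) (nat_lit 9) (nat_lit 7) (C.cons (nat_lit 646) (C.miq (nat_lit 1361487760) (nat_lit 84645781654867946955409281)) (C.cons (nat_lit 642) (C.node (nat_lit 9) (nat_lit 7) (nat_lit 6) (C.cons (nat_lit 720) (C.miq (nat_lit 695313504) (nat_lit 776149542797662670536508529)) (C.cons (nat_lit 736) (C.miq (nat_lit 561580630) (nat_lit 776141094043356350092674161)) (C.cons (nat_lit 704) (C.node (nat_lit 1) (nat_lit 2) (nat_lit 9) (C.cons (nat_lit 550) (C.node (nat_lit 1) (nat_lit 5) (nat_lit 6) (C.cons (nat_lit 106) (C.miq (nat_lit 964776102) (nat_lit 930874836613800190577607793)) (C.cons (nat_lit 98) (C.node (nat_lit 9) (nat_lit 5) (nat_lit 6) (C.cons (nat_lit 864) (C.miq (nat_lit 831064677) (nat_lit 930883082445195507790775409)) (C.cons (nat_lit 608) (C.node (nat_lit 1) (nat_lit 3) (nat_lit 9) C.nil) C.nil))) C.nil))) (C.cons (nat_lit 518) (C.node (nat_lit 1) (nat_lit 2) (nat_lit 5) (C.cons (nat_lit 54) (C.miq (nat_lit 2451088464)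 (nat_lit 316774001372373735530759281)) (C.cons (nat_lit 38) (C.node (nat_lit 1) (nat_lit 2) (nat_lit 7) C.nil) C.nil))) C.nil))) C.nil)))) C.nil))) C.nil)))) C.nil)) C.nil)) (C.cons (nat_lit 1160)
  (C.node (nat_lit 6) (nat_lit 7) (nat_lit 10) (C.cons (nat_lit 1216) (C.node (nat_lit 3) (nat_lit 6) (nat_lit 10) (C.cons (nat_lit 1608) (C.node (nat_lit 1) (nat_lit 3) (nat_lit 6) (C.cons (nat_lit 106) (C.miq (nat_lit 831087882) (nat_lit 930902543497572586975462513)) (C.cons (nat_lit 74) (C.miq (nat_lit 1398868392) (nat_lit 89465878809670576924395393)) C.nil))) C.nil)) C.nil)) C.nil))) C.nil)) C.nil)) C.nil))) C.nil)) C.nil))) C.nil))) C.nil))) C.nil)))) C.nil)))) C.nil)) C.nil))) C.nil)) (C.cons (nat_lit 1044) (C.node (nat_lit 2) (nat_lit 8) (nat_lit 10) (C.cons (nat_lit 1316) (C.node (nat_lit 2) (nat_lit 9) (nat_lit 10) (C.cons (nat_lit 1540) (C.node (nat_lit 3) (nat_lit 5) (nat_lit 10) (C.cons (nat_lit 1064) (C.node (nat_lit 5) (nat_lit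 9) (nat_lit 10) (C.cons (nat_lit 1568) (C.ref (nat_lit 62) (nat_lit 11297248326160)) C.nil)) C.nil)) C.nil)) (C.cons (nat_lit 1284) (C.node (nat_lit 2) (nat_lit 5) (nat_lit 10) (C.cons (nat_lit 1572) (C.node (nat_lit 1) (nat_lit 5) (nat_lit 9) (C.cons (nat_lit 610) (C.miq (nat_lit 622238320) (nat_lit 737455467965714379053401985)) (C.cons (nat_lit 546) (C.node (nat_lit 1) (nat_lit 2) (nat_lit 5) (C.cons (nat_lit 102) (C.node (nat_lit 1) (nat_lit 2) (nat_lit 4) (C.cons (nat_lit 150) (C.miq (nat_lit 2451023200) (nat_lit 181374309580039073743176817)) (C.cons (nat_lit 22) (C.node (nat_lit 6) (nat_lit 9) (nat_lit 10) (C.cons (nat_lit 1608) (C.miq (nat_lit 907385472) (nat_lit 123320635102782480797861761)) (C.cons (nat_lit 1600) (C.node (nat_lit 1) (nat_lit 2) (nat_lit 7) (C.cons (nat_lit 646) (C.node (nat_lit 1) (nat_lit 2) (nat_lit 8) (C.cons (nat_lit 262) (C.node (nat_lit 1) (nat_lit 8) (nat_lit 9) (C.cons (nat_lit 778) (C.miq (nat_lit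 895586472) (nat_lit 123324785323242067438208897)) (C.cons (nat_lit 770) (C.ref (nat_lit 63) (nat_lit 11297248326160)) C.nil))) C.nil)) (C.cons (nat_lit 390) (C.miq (nat_lit 1361356672) (nat_lit 26617342313364647037962113)) (C.cons (nat_lit 134) (C.miq (nat_lit 2451023200) (nat_lit 162031496466205006947878001)) C.nil)))) C.nil))) C.nil))) (C.cons (nat_lit 54) (C.miq (nat_lit 1649478055) (nat_lit 65285591537828062031906689)) (C.cons (nat_lit 38) (C.miq (nat_lit 1649478055) (nat_lit 45942778423993995236607873)) C.nil)))) C.nil))) (C.cons (nat_lit 1060) (C.node (nat_lit 2) (nat_lit 9) (nat_lit 10) (C.cons (nat_lit 1540) (C.node (nat_lit 5) (nat_lit 9) (nat_lit 10) (C.cons (nat_lit 1568) (C.node (nat_lit 3) (nat_lit 5) (nat_lit 10) (C.cons (nat_lit 1320) (C.node (nat_lit 4) (nat_lit 8) (nat_lit 10) (C.cons (nat_lit 1296) (C.node (nat_lit 3) (nat_lit 4) (nat_lit 10) (C.cons (nat_lit 1560) (C.miq (nat_lit 1250005840) (nat_lit 1627223948861500641970946601))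 (C.cons (nat_lit 1048) (C.node (nat_lit 4) (nat_lit 9) (nat_lit 10) (C.cons (nat_lit 1552) (C.node (nat_lit 3) (nat_lit 7) (nat_lit 10) (C.cons (nat_lit 1224) (C.miq (nat_lit 1669364305) (nat_lit 320368939657502145529447586)) (C.cons (nat_lit 1160) (C.node (nat_lit 6) (nat_lit 7) (nat_lit 10) (C.cons (nat_lit 1216) (C.node (nat_lit 3) (nat_lit 6) (nat_lit 10) (C.cons (nat_lit 1608) (C.miq (nat_lit 1628022867) (nat_lit 641969272958705185252246824)) C.nil)) C.nil)) C.nil))) C.nil)) C.nil))) C.nil)) (C.cons (nat_lit 1064) (C.node (nat_lit 5) (nat_lit 8) (nat_lit 10) (C.cons (nat_lit 1312) (C.node (nat_lit 3) (nat_lit 7) (nat_lit 10) (C.cons (nat_lit 1224) (C.node (nat_lit 6) (nat_lit 9) (nat_lit 10) (C.cons (nat_lit 1600) (C.node (nat_lit 3) (nat_lit 8) (nat_lit 10) (C.cons (nat_lit 1304) (C.miq (nat_lit 2164565619) (nat_lit 641963665148506365205480648)) (C.cons (nat_lit 1288) (C.node (nat_lit 4) (nat_lit 8) (nat_lit 10) (C.cons (nat_lit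 1296) (C.node (nat_lit 3) (nat_lit 4) (nat_lit 10) (C.cons (nat_lit 1560) (C.miq (nat_lit 1787917120) (nat_lit 1859331508026926115738288281)) C.nil)) C.nil)) C.nil))) C.nil)) (C.cons (nat_lit 1160) (C.node (nat_lit 6) (nat_lit 7) (nat_lit 10) (C.cons (nat_lit 1216) (C.node (nat_lit 3) (nat_lit 6) (nat_lit 10) (C.cons (nat_lit 1608) (C.node (nat_lit 4) (nat_lit 9) (nat_lit 10)
  (C.cons (nat_lit 1552) (C.node (nat_lit 3) (nat_lit 4) (nat_lit 10) (C.cons (nat_lit 1304) (C.node (nat_lit 1) (nat_lit 4) (nat_lit 8) (C.cons (nat_lit 402) (C.miq (nat_lit 924336234) (nat_lit 486012234082419554530755697)) (C.cons (nat_lit 274) (C.node (nat_lit 1) (nat_lit 6) (nat_lit 9) (C.cons (nat_lit 610) (C.miq (nat_lit 907385472) (nat_lit 737454951467014101548599169)) (C.cons (nat_lit 578) (C.node (nat_lit 3) (nat_lit 4) (nat_lit 9) (C.cons (nat_lit 540) (C.miq (nat_lit 1665309312) (nat_lit 652830660602823942797068161)) (C.cons (nat_lit 536) (C.node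 (nat_lit 1) (nat_lit 3) (nat_lit 5) (C.cons (nat_lit 106) (C.node (nat_lit 3) (nat_lit 4) (nat_lit 6) (C.cons (nat_lit 92) (C.miq (nat_lit 2167539044) (nat_lit 1256079036409617803560879217)) (C.cons (nat_lit 88) (C.miq (nat_lit 640944552) (nat_lit 106390582037739652781705089)) C.nil))) (C.cons (nat_lit 58) (C.miq (nat_lit 1632872457) (nat_lit 70147360280985585616226177)) (C.cons (nat_lit 42) (C.miq (nat_lit 1632872457) (nat_lit 50804547167151518820927361)) C.nil)))) C.nil))) C.nil))) C.nil))) C.nil)) C.nil)) (C.cons (nat_lit 1096) (C.node (nat_lit 6) (nat_lit 9) (nat_lit 10) C.nil) C.nil))) C.nil)) C.nil))) C.nil)) C.nil))) C.nil)) C.nil)) C.nil))) C.nil))) C.nil))) C.nil)) C.nil))) C.nil))) C.nil)) (C.cons (nat_lit 1282) (C.node (nat_lit 1) (nat_lit 6) (nat_lit 10) (C.cons (nat_lit 1602) (C.node (nat_lit 9) (nat_lit 5) (nat_lit 10) (C.cons (nat_lit 1572) (C.miq (nat_lit 1376233825) (nat_lit 160809012289698258542069314)) (C.cons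 (nat_lit 1568) (C.ref (nat_lit 53) (nat_lit 11297248326160)) C.nil))) (C.cons (nat_lit 1090) (C.ref (nat_lit 66) (nat_lit 11649936536080)) C.nil))) C.nil))) (C.cons (nat_lit 1154) (C.node (nat_lit 1) (nat_lit 5) (nat_lit 10) (C.cons (nat_lit 1570) (C.node (nat_lit 1) (nat_lit 6) (nat_lit 10) (C.cons (nat_lit 1346) (C.node (nat_lit 9) (nat_lit 6) (nat_lit 10) (C.cons (nat_lit 1608) (C.miq (nat_lit 1661512017) (nat_lit 320390171968014082040333858)) (C.cons (nat_lit 1600) (C.ref (nat_lit 53) (nat_lit 11293206061840)) C.nil))) (C.cons (nat_lit 1090) (C.node (nat_lit 1) (nat_lit 8) (nat_lit 10) (C.cons (nat_lit 1282) (C.ref (nat_lit 60) (nat_lit 11293206061840)) C.nil)) C.nil))) (C.cons (nat_lit 1058) (C.node (nat_lit 1) (nat_lit 8) (nat_lit 10) (C.cons (nat_lit 1346) (C.ref (nat_lit 66) (nat_lit 11645894271760)) (C.cons (nat_lit 1282) (C.node (nat_lit 1) (nat_lit 6) (nat_lit 10) (C.cons (nat_lit 1602) (C.ref (nat_lit 60) (nat_lit 11297248326160))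 (C.cons (nat_lit 1090) (C.node (nat_lit 1) (nat_lit 9) (nat_lit 10) (C.cons (nat_lit 1538) (C.node (nat_lit 4) (nat_lit 7) (nat_lit 10) (C.cons (nat_lit 1172) (C.node (nat_lit 2) (nat_lit 6) (nat_lit 10) (C.cons (nat_lit 1348) (C.node (nat_lit 6) (nat_lit 7) (nat_lit 10) (C.cons (nat_lit 1224) (C.miq (nat_lit 1661511490) (nat_lit 320390208753414120414708884)) (C.cons (nat_lit 1216) (C.node (nat_lit 1) (nat_lit 2) (nat_lit 8) (C.cons (nat_lit 774) (C.miq (nat_lit 1099565350) (nat_lit 1549863874843432946759893573)) (C.cons (nat_lit 390) (C.miq (nat_lit 1366951972) (nat_lit 1395121369865204768707969301)) (C.cons (nat_lit 262) (C.node (nat_lit 1) (nat_lit 2) (nat_lit 4) (C.cons (nat_lit 86) (C.miq (nat_lit 2552302180) (nat_lit 316748360500855203427648625)) (C.cons (nat_lit 54) (C.miq (nat_lit 1914217552) (nat_lit 316774001264287344473867377)) (C.cons (nat_lit 22) (C.node (nat_lit 2) (nat_lit 4) (nat_lit 6) (C.cons (nat_lit 92) (C.miq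 (nat_lit 933642370) (nat_lit 1470055493794917779878707477)) (C.cons (nat_lit 84) (C.node (nat_lit 1) (nat_lit 2) (nat_lit 6) (C.cons (nat_lit 102) (C.node (nat_lit 1) (nat_lit 2) (nat_lit 7) (C.cons (nat_lit 646) (C.miq (nat_lit 1901761120) (nat_lit 1279078953529476536004051525)) (C.cons (nat_lit 134) (C.node (nat_lit 1) (nat_lit 2) (nat_lit 9) (C.cons (nat_lit 518) (C.node (nat_lit 2) (nat_lit 5) (nat_lit 10) (C.cons (nat_lit 1572) (C.miq (nat_lit 2451023200) (nat_lit 162031496466205006947878001)) (C.cons (nat_lit 1060) (C.node (nat_lit 2) (nat_lit 9) (nat_lit 10)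
  (C.cons (nat_lit 1540) (C.node (nat_lit 5) (nat_lit 9) (nat_lit 10) (C.cons (nat_lit 1568) (C.ref (nat_lit 67) (nat_lit 11649936536080)) C.nil)) C.nil)) C.nil))) C.nil)) C.nil))) (C.cons (nat_lit 70) (C.node (nat_lit 2) (nat_lit 5) (nat_lit 10) (C.cons (nat_lit 1572) (C.node (nat_lit 1) (nat_lit 2) (nat_lit 9) (C.cons (nat_lit 646) (C.miq (nat_lit 1377216880) (nat_lit 84645781763517287940425601)) (C.cons (nat_lit 518) (C.node (nat_lit 2) (nat_lit 4) (nat_lit 5) (C.cons (nat_lit 60) (C.node (nat_lit 2) (nat_lit 4) (nat_lit 9) (C.cons (nat_lit 532) (C.node (nat_lit 1) (nat_lit 4) (nat_lit 5) (C.cons (nat_lit 178) (C.miq (nat_lit 2504499760) (nat_lit 215224232529248510243570703)) (C.cons (nat_lit 50) (C.node (nat_lit 2) (nat_lit 3) (nat_lit 6) (C.cons (nat_lit 204) (C.miq (nat_lit 2453120320) (nat_lit 246656303839228868785931377)) (C.cons (nat_lit 76) (C.node (nat_lit 2) (nat_lit 7) (nat_lit 9) (C.cons (nat_lit 652) (C.node (nat_lit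 2) (nat_lit 3) (nat_lit 8) (C.cons (nat_lit 268) (C.node (nat_lit 2) (nat_lit 8) (nat_lit 9) (C.cons (nat_lit 772) (C.node (nat_lit 1) (nat_lit 7) (nat_lit 9) (C.cons (nat_lit 674) (C.miq (nat_lit 1167526435) (nat_lit 814818825092147141564695567)) (C.cons (nat_lit 642) (C.node (nat_lit 3) (nat_lit 7) (nat_lit 10) (C.cons (nat_lit 1192) (C.miq (nat_lit 1395042192) (nat_lit 91899336574244597633714049)) (C.cons (nat_lit 1160) (C.node (nat_lit 5) (nat_lit 7) (nat_lit 10) (C.cons (nat_lit 1184) (C.node (nat_lit 3) (nat_lit 5) (nat_lit 10) (C.cons (nat_lit 1320) (C.miq (nat_lit 2458060453) (nat_lit 324002320869736131374613617)) (C.cons (nat_lit 1064) (C.node (nat_lit 1) (nat_lit 2) (nat_lit 5) C.nil) C.nil))) C.nil)) C.nil))) C.nil))) C.nil)) C.nil)) (C.cons (nat_lit 644) (C.miq (nat_lit 932331685) (nat_lit 778549334679539533255804017)) C.nil))) C.nil))) C.nil))) C.nil)) (C.cons (nat_lit 52) (C.miq (nat_lit 891554215) (nat_lit 62866965127466408532510593))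 C.nil))) C.nil))) (C.cons (nat_lit 1060) (C.node (nat_lit 2) (nat_lit 9) (nat_lit 10) (C.cons (nat_lit 1540) (C.node (nat_lit 5) (nat_lit 9) (nat_lit 10) (C.cons (nat_lit 1568) (C.ref (nat_lit 68) (nat_lit 11649936536080)) C.nil)) C.nil)) C.nil))) C.nil))) C.nil))) C.nil)))) C.nil)))) C.nil))) (C.cons (nat_lit 1092) (C.node (nat_lit 2) (nat_lit 8) (nat_lit 10) (C.cons (nat_lit 1316) (C.node (nat_lit 2) (nat_lit 9) (nat_lit 10) (C.cons (nat_lit 1540) (C.node (nat_lit 5) (nat_lit 9) (nat_lit 10) (C.cons (nat_lit 1568) (C.ref (nat_lit 70) (nat_lit 11649936536080)) C.nil)) C.nil)) (C.cons (nat_lit 1284) (C.node (nat_lit 2) (nat_lit 5) (nat_lit 10) (C.cons (nat_lit 1572) (C.node (nat_lit 2) (nat_lit 4) (nat_lit 9) (C.cons (nat_lit 540) (C.miq (nat_lit 1380162160) (nat_lit 652830144083856212824229761)) (C.cons (nat_lit 532) (C.node (nat_lit 4) (nat_lit 9) (nat_lit 10) (C.cons (nat_lit 1560) (C.miq (nat_lit 1383111235) (nat_lit 160797335500702138718815768))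 (C.cons (nat_lit 1552) (C.node (nat_lit 5) (nat_lit 7) (nat_lit 10) (C.cons (nat_lit 1192) (C.miq (nat_lit 1116764755) (nat_lit 702388723877838252495406248)) (C.cons (nat_lit 1184) (C.node (nat_lit 2) (nat_lit 3) (nat_lit 4) (C.cons (nat_lit 92) (C.miq (nat_lit 1380162160) (nat_lit 111231376896502342555862913)) (C.cons (nat_lit 60) (C.node (nat_lit 1) (nat_lit 4) (nat_lit 5) (C.cons (nat_lit 178) (C.miq (nat_lit 2504499760) (nat_lit 215224232529248510243570703)) (C.cons (nat_lit 50) (C.node (nat_lit 2) (nat_lit 3) (nat_lit 9) (C.cons (nat_lit 780) (C.miq (nat_lit 2032339540) (nat_lit 942964962191974215785907313)) (C.cons (nat_lit 652) (C.node (nat_lit 1) (nat_lit 7) (nat_lit 9) (C.cons (nat_lit 674) (C.miq (nat_lit 1167526435) (nat_lit 814818825092147141564695567)) (C.cons (nat_lit 642) (C.node (nat_lit 4) (nat_lit 5) (nat_lit 7) (C.cons (nat_lit 688) (C.node (nat_lit 4) (nat_lit 5) (nat_lit 8) (C.cons (nat_lit 304) (C.node (nat_lit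 6) (nat_lit 7) (nat_lit 9) (C.cons (nat_lit 704) (C.node (nat_lit 1) (nat_lit 2) (nat_lit 4) (C.cons (nat_lit 86) (C.node (nat_lit 1) (nat_lit 2) (nat_lit 9)
  (C.cons (nat_lit 774) (C.miq (nat_lit 2188022080) (nat_lit 1320182431432402656243548691)) (C.cons (nat_lit 518) (C.node (nat_lit 2) (nat_lit 8) (nat_lit 9) (C.cons (nat_lit 772) (C.node (nat_lit 1) (nat_lit 2) (nat_lit 8) (C.cons (nat_lit 390) (C.miq (nat_lit 1394674040) (nat_lit 1256079294737783624464467841)) (C.cons (nat_lit 262) (C.node (nat_lit 1) (nat_lit 4) (nat_lit 7) (C.cons (nat_lit 402) (C.miq (nat_lit 2217308512) (nat_lit 643183972343501627035287747)) (C.cons (nat_lit 146) (C.node (nat_lit 4) (nat_lit 6) (nat_lit 7) (C.cons (nat_lit 464) (C.miq (nat_lit 2217375248) (nat_lit 1416896496914315747433316547)) (C.cons (nat_lit 208) (C.node (nat_lit 4) (nat_lit 7) (nat_lit 8) (C.cons (nat_lit 400) (C.node (nat_lit 1) (nat_lit 2) (nat_lit 5) (C.cons (nat_lit 166) (C.node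 (nat_lit 1) (nat_lit 3) (nat_lit 4) (C.cons (nat_lit 282) (C.node (nat_lit 1) (nat_lit 3) (nat_lit 7) C.nil) C.nil)) (C.cons (nat_lit 38) (C.node (nat_lit 1) (nat_lit 2) (nat_lit 7) C.nil) C.nil))) C.nil)) C.nil))) C.nil))) C.nil))) C.nil)) C.nil))) (C.cons (nat_lit 22) (C.node (nat_lit 2) (nat_lit 4) (nat_lit 6) (C.cons (nat_lit 84) (C.node (nat_lit 1) (nat_lit 2) (nat_lit 9) (C.cons (nat_lit 774) (C.node (nat_lit 1) (nat_lit 2) (nat_lit 6) (C.cons (nat_lit 102) (C.miq (nat_lit 1931543638) (nat_lit 1256077523737760015023735921)) (C.cons (nat_lit 70) (C.node (nat_lit 1) (nat_lit 9) (nat_lit 5) (C.cons (nat_lit 610) (C.miq (nat_lit 1763987840) (nat_lit 643169510154697588820214051)) (C.cons (nat_lit 546) (C.node (nat_lit 9) (nat_lit 8) (nat_lit 5) (C.cons (nat_lit 864) (C.miq (nat_lit 1764382736) (nat_lit 1900452362625406574649082147)) (C.cons (nat_lit 800) (C.node (nat_lit 9) (nat_lit 5) (nat_lit 6) (C.cons (nat_lit 608) (C.node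 (nat_lit 1) (nat_lit 2) (nat_lit 7) (C.cons (nat_lit 166) (C.node (nat_lit 1) (nat_lit 3) (nat_lit 9) (C.cons (nat_lit 586) (C.node (nat_lit 1) (nat_lit 3) (nat_lit 5) C.nil) C.nil)) (C.cons (nat_lit 134) (C.node (nat_lit 1) (nat_lit 2) (nat_lit 5) C.nil) C.nil))) C.nil)) C.nil))) C.nil))) C.nil))) (C.cons (nat_lit 518) (C.node (nat_lit 2) (nat_lit 8) (nat_lit 9) (C.cons (nat_lit 772) (C.node (nat_lit 1) (nat_lit 4) (nat_lit 7) (C.cons (nat_lit 402) (C.node (nat_lit 4) (nat_lit 6) (nat_lit 7) (C.cons (nat_lit 208) (C.node (nat_lit 1) (nat_lit 2) (nat_lit 7) (C.cons (nat_lit 166) (C.node (nat_lit 1) (nat_lit 3) (nat_lit 7) (C.cons (nat_lit 138) (C.node (nat_lit 2) (nat_lit 6) (nat_lit 7) (C.cons (nat_lit 452) (C.miq (nat_lit 2458125937) (nat_lit 334882247417894323985973443)) C.nil)) C.nil)) (C.cons (nat_lit 134) (C.node (nat_lit 1) (nat_lit 2) (nat_lit 5) (C.cons (nat_lit 102) (C.miq (nat_lit 305620288) (nat_lit 788223231532543300603544689))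 (C.cons (nat_lit 38) (C.node (nat_lit 1) (nat_lit 2) (nat_lit 6) (C.cons (nat_lit 326) (C.node (nat_lit 1) (nat_lit 3) (nat_lit 4) C.nil) C.nil)) C.nil))) C.nil))) C.nil)) (C.cons (nat_lit 146) (C.node (nat_lit 1) (nat_lit 5) (nat_lit 9) (C.cons (nat_lit 610) (C.node (nat_lit 5) (nat_lit 8) (nat_lit 9) (C.cons (nat_lit 800) (C.node (nat_lit 1) (nat_lit 2) (nat_lit 5) (C.cons (nat_lit 166) (C.node (nat_lit 1) (nat_lit 3) (nat_lit 5) (C.cons (nat_lit 42) (C.node (nat_lit 1) (nat_lit 3) (nat_lit 9) C.nil) C.nil)) (C.cons (nat_lit 38) (C.node (nat_lit 1) (nat_lit 3) (nat_lit 9) (C.cons (nat_lit 778) (C.node (nat_lit 1) (nat_lit 2) (nat_lit 6) C.nil) C.nil)) C.nil))) C.nil)) (C.cons (nat_lit 546) (C.node (nat_lit 2) (nat_lit 3) (nat_lit 6) (C.cons (nat_lit 332) (C.node (nat_lit 6) (nat_lit 8) (nat_lit 10) (C.cons (nat_lit 1344) (C.node (nat_lit 1) (nat_lit 2) (nat_lit 6) (C.cons (nat_lit 102) (C.miq (nat_lit 305620288) (nat_lit 788223231532543300603544689))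 (C.cons (nat_lit 70) (C.node (nat_lit 3) (nat_lit 4) (nat_lit 10) C.nil) C.nil))) C.nil)) (C.cons (nat_lit 76) (C.node (nat_lit 2) (nat_lit 3) (nat_lit 8) (C.cons (nat_lit 268) (C.node (nat_lit 3) (nat_lit 4) (nat_lit 10) (C.cons (nat_lit 1304) (C.node (nat_lit 1) (nat_lit 3) (nat_lit 4) C.nil) (C.cons (nat_lit 1048)
  (C.node (nat_lit 1) (nat_lit 2) (nat_lit 5) C.nil) C.nil))) C.nil)) C.nil))) C.nil))) C.nil))) C.nil)) C.nil))) C.nil)) C.nil))) C.nil)) C.nil)) (C.cons (nat_lit 432) (C.miq (nat_lit 609331072) (nat_lit 60465457477714571109271425)) (C.cons (nat_lit 176) (C.miq (nat_lit 2537890570) (nat_lit 212799942717380948183286799)) C.nil)))) C.nil))) (C.cons (nat_lit 524) (C.miq (nat_lit 2032339540) (nat_lit 633479952370629147061126257)) C.nil)))) C.nil))) (C.cons (nat_lit 28) (C.miq (nat_lit 1380162160) (nat_lit 33860124441166075374667649)) C.nil)))) C.nil))) C.nil))) C.nil))) (C.cons (nat_lit 1060) (C.node (nat_lit 2) (nat_lit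 9) (nat_lit 10) (C.cons (nat_lit 1540) (C.node (nat_lit 5) (nat_lit 9) (nat_lit 10) (C.cons (nat_lit 1568) (C.ref (nat_lit 72) (nat_lit 11649936536080)) C.nil)) C.nil)) C.nil))) C.nil))) C.nil))) (C.cons (nat_lit 1168) (C.node (nat_lit 2) (nat_lit 4) (nat_lit 10) (C.cons (nat_lit 1556) (C.node (nat_lit 5) (nat_lit 9) (nat_lit 10) (C.cons (nat_lit 1568) (C.node (nat_lit 3) (nat_lit 4) (nat_lit 10) (C.cons (nat_lit 1304) (C.node (nat_lit 3) (nat_lit 9) (nat_lit 10) (C.cons (nat_lit 1608) (C.miq (nat_lit 1669372482) (nat_lit 320376060208800919752869396)) (C.cons (nat_lit 1544) (C.node (nat_lit 6) (nat_lit 9) (nat_lit 10) (C.cons (nat_lit 1600) (C.ref (nat_lit 73) (nat_lit 11649936536080)) C.nil)) C.nil))) (C.cons (nat_lit 1048) (C.node (nat_lit 4) (nat_lit 8) (nat_lit 10) (C.cons (nat_lit 1296) (C.node (nat_lit 3) (nat_lit 9) (nat_lit 10) (C.cons (nat_lit 1608) (C.ref (nat_lit 73) (nat_lit 11297248326160)) (C.cons (nat_lit 1544) (C.node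 (nat_lit 6) (nat_lit 9) (nat_lit 10) (C.cons (nat_lit 1600) (C.ref (nat_lit 59) (nat_lit 11073357436480)) C.nil)) C.nil))) C.nil)) C.nil))) C.nil)) (C.cons (nat_lit 1044) (C.node (nat_lit 2) (nat_lit 9) (nat_lit 10) (C.cons (nat_lit 1572) (C.node (nat_lit 2) (nat_lit 7) (nat_lit 10) (C.cons (nat_lit 1220) (C.node (nat_lit 2) (nat_lit 8) (nat_lit 10) (C.cons (nat_lit 1284) (C.ref (nat_lit 70) (nat_lit 11297248326160)) C.nil)) (C.cons (nat_lit 1156) (C.node (nat_lit 2) (nat_lit 6) (nat_lit 10) (C.cons (nat_lit 1348) (C.node (nat_lit 5) (nat_lit 8) (nat_lit 10) (C.cons (nat_lit 1320) (C.miq (nat_lit 2198250898) (nat_lit 88276451414428634642187812)) (C.cons (nat_lit 1312) (C.node (nat_lit 1) (nat_lit 2) (nat_lit 6) (C.cons (nat_lit 102) (C.miq (nat_lit 2052131110) (nat_lit 1279047114808092222158144069)) (C.cons (nat_lit 86) (C.miq (nat_lit 2590050340) (nat_lit 1317738939141768160084361493)) (C.cons (nat_lit 70) (C.node (nat_lit 1) (nat_lit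 2) (nat_lit 9) (C.cons (nat_lit 774) (C.miq (nat_lit 1176570505) (nat_lit 84634602914170020187998081)) (C.cons (nat_lit 646) (C.miq (nat_lit 1377216880) (nat_lit 84645781763517287940425601)) (C.cons (nat_lit 518) (C.node (nat_lit 2) (nat_lit 8) (nat_lit 9) (C.cons (nat_lit 780) (C.miq (nat_lit 950375008) (nat_lit 1586120876603422510121288261)) (C.cons (nat_lit 772) (C.node (nat_lit 1) (nat_lit 2) (nat_lit 8) (C.cons (nat_lit 390) (C.node (nat_lit 1) (nat_lit 2) (nat_lit 4) (C.cons (nat_lit 54) (C.miq (nat_lit 1917485392) (nat_lit 1262153991982813927361806627)) (C.cons (nat_lit 22) (C.node (nat_lit 1) (nat_lit 2) (nat_lit 5) (C.cons (nat_lit 38) (C.ref (nat_lit 67) (nat_lit 11297248326160)) C.nil)) C.nil))) (C.cons (nat_lit 262) (C.ref (nat_lit 68) (nat_lit 11297248326160)) C.nil))) C.nil))) C.nil)))) C.nil)))) C.nil))) (C.cons (nat_lit 1092) (C.node (nat_lit 2) (nat_lit 8) (nat_lit 10) (C.cons (nat_lit 1284) (C.ref (nat_lit 72)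 (nat_lit 11297248326160)) C.nil)) C.nil))) C.nil))) (C.cons (nat_lit 1540) (C.node (nat_lit 5) (nat_lit 9) (nat_lit 10) (C.cons (nat_lit 1568) (C.node (nat_lit 4) (nat_lit 8) (nat_lit 10) (C.cons (nat_lit 1304) (C.node (nat_lit 4) (nat_lit 9) (nat_lit 10) (C.cons (nat_lit 1552) (C.node (nat_lit 3) (nat_lit 5) (nat_lit 10) (C.cons (nat_lit 1192) (C.node (nat_lit 2) (nat_lit 5) (nat_lit 10) (C.cons (nat_lit 1316) (C.miq (nat_lit 1376233539) (nat_lit 160809122898103801088640280)) (C.cons (nat_lit 1060)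
  (C.node (nat_lit 5) (nat_lit 8) (nat_lit 10) (C.cons (nat_lit 1312) (C.node (nat_lit 1) (nat_lit 3) (nat_lit 7) (C.cons (nat_lit 650) (C.miq (nat_lit 396661584) (nat_lit 1412035152713953870366179881)) (C.cons (nat_lit 394) (C.miq (nat_lit 1636435764) (nat_lit 1549863874748855722494656665)) (C.cons (nat_lit 138) (C.node (nat_lit 1) (nat_lit 3) (nat_lit 4) (C.cons (nat_lit 90) (C.miq (nat_lit 2199364704) (nat_lit 166867199669228178348639345)) (C.cons (nat_lit 58) (C.miq (nat_lit 2536573524) (nat_lit 166841558868640515747349617)) (C.cons (nat_lit 26) (C.node (nat_lit 3) (nat_lit 4) (nat_lit 5) (C.cons (nat_lit 60) (C.miq (nat_lit 2320631604) (nat_lit 1281466479080333892600463513)) (C.cons (nat_lit 56) (C.node (nat_lit 1) (nat_lit 3) (nat_lit 5) (C.cons (nat_lit 106) (C.node (nat_lit 1) (nat_lit 3) (nat_lit 8) (C.cons (nat_lit 778) (C.miq (nat_lit 2171245392) (nat_lit 1317764579794299383700324905)) (C.cons (nat_lit 266) (C.node (nat_lit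 1) (nat_lit 3) (nat_lit 9) (C.cons (nat_lit 522) (C.node (nat_lit 3) (nat_lit 6) (nat_lit 10) (C.cons (nat_lit 1608) (C.miq (nat_lit 2467866192) (nat_lit 321609704665469174356837489)) (C.cons (nat_lit 1096) (C.node (nat_lit 3) (nat_lit 9) (nat_lit 10) (C.cons (nat_lit 1544) (C.node (nat_lit 6) (nat_lit 9) (nat_lit 10) C.nil) C.nil)) C.nil))) C.nil)) C.nil))) (C.cons (nat_lit 42) (C.node (nat_lit 2) (nat_lit 7) (nat_lit 10) (C.cons (nat_lit 1220) (C.node (nat_lit 2) (nat_lit 8) (nat_lit 10) (C.cons (nat_lit 1284) (C.node (nat_lit 6) (nat_lit 8) (nat_lit 10) (C.cons (nat_lit 1344) (C.node (nat_lit 3) (nat_lit 6) (nat_lit 10) (C.cons (nat_lit 1608) (C.miq (nat_lit 1912972947) (nat_lit 44752244188079108248897096)) C.nil)) C.nil)) C.nil)) (C.cons (nat_lit 1156) (C.node (nat_lit 6) (nat_lit 7) (nat_lit 10) (C.cons (nat_lit 1216) (C.node (nat_lit 2) (nat_lit 6) (nat_lit 10) (C.cons (nat_lit 1348) (C.node (nat_lit 3) (nat_lit 6) (nat_lit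 10) (C.cons (nat_lit 1608) (C.miq (nat_lit 1133546082) (nat_lit 668541088362048627134498116)) C.nil)) C.nil)) C.nil)) C.nil))) C.nil))) C.nil))) C.nil)))) C.nil)))) C.nil)) C.nil))) (C.cons (nat_lit 1064) (C.node (nat_lit 3) (nat_lit 7) (nat_lit 10) (C.cons (nat_lit 1224) (C.node (nat_lit 3) (nat_lit 9) (nat_lit 10) (C.cons (nat_lit 1544) (C.node (nat_lit 6) (nat_lit 9) (nat_lit 10) (C.cons (nat_lit 1600) (C.node (nat_lit 2) (nat_lit 6) (nat_lit 10) (C.cons (nat_lit 1348) (C.miq (nat_lit 1644668995) (nat_lit 160809713202921359049032984)) (C.cons (nat_lit 1092) (C.node (nat_lit 6) (nat_lit 8) (nat_lit 10) C.nil) C.nil))) C.nil)) C.nil)) (C.cons (nat_lit 1160) (C.node (nat_lit 3) (nat_lit 6) (nat_lit 10) (C.cons (nat_lit 1608) (C.node (nat_lit 3) (nat_lit 4) (nat_lit 9) (C.cons (nat_lit 540) (C.miq (nat_lit 1665309312) (nat_lit 652830660602823942797068161)) (C.cons (nat_lit 536) (C.node (nat_lit 6) (nat_lit 8) (nat_lit 10) (C.cons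 (nat_lit 1348) (C.miq (nat_lit 1133546082) (nat_lit 668541088362048627134498116)) (C.cons (nat_lit 1344) (C.node (nat_lit 2) (nat_lit 3) (nat_lit 4) (C.cons (nat_lit 92) (C.node (nat_lit 1) (nat_lit 4) (nat_lit 6) (C.cons (nat_lit 338) (C.miq (nat_lit 2521342752) (nat_lit 408652363677722414805222415)) (C.cons (nat_lit 82) (C.node (nat_lit 2) (nat_lit 3) (nat_lit 9) (C.cons (nat_lit 780) (C.node (nat_lit 1) (nat_lit 8) (nat_lit 9) (C.cons (nat_lit 834) (C.miq (nat_lit 1184369202) (nat_lit 1008249243626753104129295375)) (C.cons (nat_lit 770) (C.node (nat_lit 4) (nat_lit 6) (nat_lit 8) (C.cons (nat_lit 848) (C.node (nat_lit 4) (nat_lit 6) (nat_lit 7) (C.cons (nat_lit 208) (C.node (nat_lit 5) (nat_lit 8) (nat_lit 9) (C.cons (nat_lit 800) (C.node (nat_lit 1) (nat_lit 3) (nat_lit 4) (C.cons (nat_lit 58) (C.node (nat_lit 1) (nat_lit 3) (nat_lit 9) (C.cons (nat_lit 650) (C.miq (nat_lit 1935315264) (nat_lit 1286332508448290021980570131))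 (C.cons (nat_lit 522) (C.node (nat_lit 3) (nat_lit 7) (nat_lit 9) (C.cons (nat_lit 648) (C.node (nat_lit 1) (nat_lit 2) (nat_lit 4) (C.cons (nat_lit 22)
  (C.node (nat_lit 1) (nat_lit 4) (nat_lit 7) C.nil) C.nil)) C.nil)) C.nil))) (C.cons (nat_lit 26) (C.node (nat_lit 3) (nat_lit 4) (nat_lit 5) (C.cons (nat_lit 56) (C.node (nat_lit 1) (nat_lit 3) (nat_lit 9) (C.cons (nat_lit 650) (C.node (nat_lit 1) (nat_lit 2) (nat_lit 9) (C.cons (nat_lit 518) (C.node (nat_lit 1) (nat_lit 9) (nat_lit 5) C.nil) C.nil)) (C.cons (nat_lit 522) (C.node (nat_lit 3) (nat_lit 7) (nat_lit 9) (C.cons (nat_lit 648) (C.node (nat_lit 1) (nat_lit 4) (nat_lit 8) C.nil) C.nil)) C.nil))) C.nil)) C.nil))) C.nil)) C.nil)) (C.cons (nat_lit 464) (C.miq (nat_lit 878815344) (nat_lit 99151083742537539058337665)) (C.cons (nat_lit 336) (C.miq (nat_lit 2554737162) (nat_lit 406228737974537599275041807)) C.nil)))) C.nil))) (C.cons (nat_lit 652) (C.miq (nat_lit 2301758052)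 (nat_lit 788224744677566976028836977)) (C.cons (nat_lit 524) (C.miq (nat_lit 2301758052) (nat_lit 633482239766894441666446449)) C.nil)))) C.nil))) (C.cons (nat_lit 60) (C.miq (nat_lit 1665309312) (nat_lit 72546267187801938938103681)) (C.cons (nat_lit 28) (C.miq (nat_lit 1665309312) (nat_lit 33860640960133805347506049)) C.nil)))) C.nil))) C.nil))) (C.cons (nat_lit 1096) (C.node (nat_lit 3) (nat_lit 9) (nat_lit 10) (C.cons (nat_lit 1544) (C.node (nat_lit 6) (nat_lit 9) (nat_lit 10) (C.cons (nat_lit 1600) (C.node (nat_lit 6) (nat_lit 8) (nat_lit 10) (C.cons (nat_lit 1344) (C.node (nat_lit 2) (nat_lit 6) (nat_lit 10) (C.cons (nat_lit 1092) (C.node (nat_lit 6) (nat_lit 7) (nat_lit 10) C.nil) C.nil)) C.nil)) C.nil)) C.nil)) C.nil))) C.nil))) C.nil))) C.nil)) (C.cons (nat_lit 1296) (C.node (nat_lit 3) (nat_lit 4) (nat_lit 10) (C.cons (nat_lit 1560) (C.node (nat_lit 6) (nat_lit 9) (nat_lit 10) (C.cons (nat_lit 1600) (C.ref (nat_lit 59)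 (nat_lit 11077399700800)) C.nil)) (C.cons (nat_lit 1048) (C.node (nat_lit 4) (nat_lit 9) (nat_lit 10) (C.cons (nat_lit 1552) (C.node (nat_lit 3) (nat_lit 9) (nat_lit 10) (C.cons (nat_lit 1608) (C.node (nat_lit 3) (nat_lit 7) (nat_lit 10) (C.cons (nat_lit 1192) (C.node (nat_lit 3) (nat_lit 8) (nat_lit 10) (C.cons (nat_lit 1288) (C.node (nat_lit 2) (nat_lit 7) (nat_lit 10) (C.cons (nat_lit 1220) (C.miq (nat_lit 1912972947) (nat_lit 44752244188079108248897096)) (C.cons (nat_lit 1156) (C.node (nat_lit 6) (nat_lit 7) (nat_lit 10) C.nil) C.nil))) C.nil)) (C.cons (nat_lit 1160) (C.node (nat_lit 3) (nat_lit 5) (nat_lit 10) (C.cons (nat_lit 1320) (C.node (nat_lit 2) (nat_lit 8) (nat_lit 10) (C.cons (nat_lit 1348) (C.miq (nat_lit 2181408403) (nat_lit 44754605407349340090467912)) (C.cons (nat_lit 1284) (C.node (nat_lit 8) (nat_lit 6) (nat_lit 10) C.nil) C.nil))) (C.cons (nat_lit 1064) (C.node (nat_lit 3) (nat_lit 8) (nat_lit 10) (C.cons (nat_lit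 1288) (C.node (nat_lit 8) (nat_lit 6) (nat_lit 10) (C.cons (nat_lit 1344) (C.node (nat_lit 2) (nat_lit 8) (nat_lit 10) (C.cons (nat_lit 1284) (C.node (nat_lit 8) (nat_lit 5) (nat_lit 10) C.nil) C.nil)) C.nil)) C.nil)) C.nil))) C.nil))) (C.cons (nat_lit 1544) (C.node (nat_lit 6) (nat_lit 9) (nat_lit 10) (C.cons (nat_lit 1600) (C.node (nat_lit 2) (nat_lit 5) (nat_lit 10) (C.cons (nat_lit 1316) (C.node (nat_lit 2) (nat_lit 6) (nat_lit 10) (C.cons (nat_lit 1220) (C.node (nat_lit 3) (nat_lit 5) (nat_lit 10) (C.cons (nat_lit 1192) (C.node (nat_lit 3) (nat_lit 6) (nat_lit 10) (C.cons (nat_lit 1352) (C.node (nat_lit 2) (nat_lit 6) (nat_lit 8) (C.cons (nat_lit 326) (C.miq (nat_lit 1382124144) (nat_lit 394115185567320869657839489)) (C.cons (nat_lit 324) (C.node (nat_lit 3) (nat_lit 5) (nat_lit 8) (C.cons (nat_lit 312) (C.miq (nat_lit 624200304) (nat_lit 377189965838298909016393601)) (C.cons (nat_lit 296) (C.node (nat_lit 3) (nat_lit 6) (nat_lit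 7) (C.cons (nat_lit 712) (C.miq (nat_lit 658074192) (nat_lit 860765901467327388864545905)) (C.cons (nat_lit 200) (C.node (nat_lit 1) (nat_lit 2) (nat_lit 6) (C.cons (nat_lit 102) (C.node (nat_lit 2) (nat_lit 3) (nat_lit 5) (C.cons (nat_lit 60) (C.miq (nat_lit 1898120788) (nat_lit 1256076748986331048630289521)) (C.cons (nat_lit 44)
  (C.miq (nat_lit 1112737959) (nat_lit 53195558492861182052403073)) C.nil))) (C.cons (nat_lit 86) (C.miq (nat_lit 1382124144) (nat_lit 103972988859809867728357249)) (C.cons (nat_lit 70) (C.miq (nat_lit 1382124144) (nat_lit 84630175745975800933058433)) C.nil)))) C.nil))) C.nil))) C.nil))) C.nil)) C.nil)) (C.cons (nat_lit 1092) (C.node (nat_lit 2) (nat_lit 7) (nat_lit 10) (C.cons (nat_lit 1156) (C.node (nat_lit 3) (nat_lit 5) (nat_lit 10) (C.cons (nat_lit 1064) (C.node (nat_lit 5) (nat_lit 7) (nat_lit 10) C.nil) C.nil)) C.nil)) C.nil))) (C.cons (nat_lit 1188) (C.node (nat_lit 2) (nat_lit 6) (nat_lit 10)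 (C.cons (nat_lit 1348) (C.node (nat_lit 3) (nat_lit 5) (nat_lit 10) (C.cons (nat_lit 1320) (C.node (nat_lit 3) (nat_lit 6) (nat_lit 10) (C.cons (nat_lit 1224) (C.node (nat_lit 3) (nat_lit 5) (nat_lit 7) (C.cons (nat_lit 170) (C.miq (nat_lit 1666284160) (nat_lit 205520986794112373932361601)) (C.cons (nat_lit 168) (C.node (nat_lit 2) (nat_lit 6) (nat_lit 7) (C.cons (nat_lit 212) (C.miq (nat_lit 908360320) (nat_lit 256295096454675823727019905)) (C.cons (nat_lit 196) (C.node (nat_lit 2) (nat_lit 5) (nat_lit 8) (C.cons (nat_lit 804) (C.miq (nat_lit 942234208) (nat_lit 971986560391187376757867633)) (C.cons (nat_lit 292) (C.node (nat_lit 1) (nat_lit 3) (nat_lit 5) (C.cons (nat_lit 106) (C.node (nat_lit 3) (nat_lit 2) (nat_lit 6) (C.cons (nat_lit 92) (C.miq (nat_lit 2167539044) (nat_lit 1256079036409617803560879217)) (C.cons (nat_lit 76) (C.miq (nat_lit 1130497960) (nat_lit 91883472081891163388512129)) C.nil))) (C.cons (nat_lit 58) (C.miq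 (nat_lit 1666284160) (nat_lit 70121294997273906365269889)) (C.cons (nat_lit 42) (C.miq (nat_lit 1666284160) (nat_lit 50778481883439839569971073)) C.nil)))) C.nil))) C.nil))) C.nil))) C.nil)) C.nil)) (C.cons (nat_lit 1092) (C.node (nat_lit 2) (nat_lit 8) (nat_lit 10) (C.cons (nat_lit 1284) (C.node (nat_lit 3) (nat_lit 5) (nat_lit 10) (C.cons (nat_lit 1064) (C.node (nat_lit 5) (nat_lit 8) (nat_lit 10) C.nil) C.nil)) C.nil)) C.nil))) (C.cons (nat_lit 1060) (C.node (nat_lit 2) (nat_lit 7) (nat_lit 10) (C.cons (nat_lit 1220) (C.node (nat_lit 2) (nat_lit 8) (nat_lit 10) (C.cons (nat_lit 1284) (C.node (nat_lit 3) (nat_lit 7) (nat_lit 10) (C.cons (nat_lit 1160) (C.node (nat_lit 7) (nat_lit 5) (nat_lit 10) C.nil) C.nil)) C.nil)) (C.cons (nat_lit 1156) (C.node (nat_lit 2) (nat_lit 6) (nat_lit 10) (C.cons (nat_lit 1348) (C.node (nat_lit 3) (nat_lit 6) (nat_lit 10) (C.cons (nat_lit 1096) (C.node (nat_lit 6) (nat_lit 7) (nat_lit 10) C.nil) C.nil))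 (C.cons (nat_lit 1092) (C.node (nat_lit 2) (nat_lit 8) (nat_lit 10) C.nil) C.nil))) C.nil))) C.nil)))) C.nil)) C.nil))) C.nil)) C.nil))) C.nil))) C.nil)) C.nil))) C.nil))) C.nil))) C.nil)) C.nil))) C.nil))) C.nil))) C.nil))) List.nil)

theorem ok11_74 : okL par11 (nat_lit 75) c11_74 (nat_lit 74) = true := by decide +kernel

noncomputable def c11_75 : List C :=
  (List.cons (C.node (nat_lit 1) (nat_lit 4) (nat_lit 10) (C.cons (nat_lit 1298) (C.ref (nat_lit 61) (nat_lit 11649936536080)) (C.cons (nat_lit 1170) (C.ref (nat_lit 61) (nat_lit 11645894271760)) (C.cons (nat_lit 1042) (C.ref (nat_lit 74) (nat_lit 11649936536080)) C.nil)))) (List.cons (C.qs (C.cons (nat_lit 2336) (C.pat (nat_lit 1) (nat_lit 1200319009) (nat_lit 1012510009674974457540940525079955329)) (C.cons (nat_lit 1544) (C.pat (nat_lit 1) (nat_lit 2506852897) (nat_lit 1511002199243281199264823370682008689)) (C.cons (nat_lit 32900) (C.pat (nat_lit 0) (nat_lit 110844466)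 (nat_lit 152198674739905462326107866203151)) (C.cons (nat_lit 4228) (C.ref (nat_lit 75) (nat_lit 11649936536080)) (C.cons (nat_lit 4164) (C.pat (nat_lit 1) (nat_lit 1232824882) (nat_lit 3016766545123838034539308161023149953)) (C.cons (nat_lit 2116) (C.pat (nat_lit 2) (nat_lit 49549701921) (nat_lit 1628152104986193321924112323363123435236427649)) (C.cons (nat_lit 4116) (C.pat (nat_lit 1) (nat_lit 1469803057) (nat_lit 1012510643790416768440839368899889025)) (C.cons (nat_lit 532) (C.pat (nat_lit 2) (nat_lit 23935936323) (nat_lit 3590514237936267140280152922130960477339583045)) (C.cons (nat_lit 4226) (C.pat (nat_lit 1) (nat_lit 2489027122) (nat_lit 1438308300013208019142976655153759345)) (C.cons (nat_lit 1154) (C.pat (nat_lit 2) (nat_lit 48931361569) (nat_lit 5909791738842979639380632152486232496794436721)) (C.cons (nat_lit 16450) (C.pat (nat_lit 0) (nat_lit 192432690) (nat_lit 152198674743447124596345286231055)) (C.cons (nat_lit 4162)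 (C.ref (nat_lit 75) (nat_lit 11649936536080)) (C.cons (nat_lit 4114) (C.pat (nat_lit 1) (nat_lit 1967884849) (nat_lit 1510971142209774682914530814121804913)) (C.cons (nat_lit 274) (C.pat (nat_lit 2) (nat_lit 31160703875) (nat_lit 3590519000570622746696844362643011232137282067)) (C.cons (nat_lit 4225) (C.pat (nat_lit 1) (nat_lit 1755011617) (nat_lit 1510983818715762503081663282882611073)) (C.cons (nat_lit 4161) (C.pat (nat_lit 1) (nat_lit 2253093409) (nat_lit 1012523320296433512904521030652200049)) (C.cons (nat_lit 161) (C.pat (nat_lit 2) (nat_lit 28247676994) (nat_lit 7158591274687668646672455782495215089066770985)) (C.cons (nat_lit 8209) (C.pat (nat_lit 0) (nat_lit 195520593) (nat_lit 152197688258060134650541250904355)) (C.cons (nat_lit 4113) (C.ref (nat_lit 75) (nat_lit 11649936536080)) (C.cons (nat_lit 73) (C.pat (nat_lit 2) (nat_lit 35456785266) (nat_lit 7158605564584453228757900540813709721865617939)) C.nil)))))))))))))))))))))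 (List.cons (C.node (nat_lit 0) (nat_lit 3) (nat_lit 6) (C.cons (nat_lit 329) (C.node (nat_lit 0) (nat_lit 3) (nat_lit 7) (C.cons (nat_lit 169) (C.pat (nat_lit 0) (nat_lit 108550705) (nat_lit 152198674744627720720928613794831)) (C.cons (nat_lit 137) (C.node (nat_lit 0) (nat_lit 5) (nat_lit 7) (C.cons (nat_lit 161) (C.node (nat_lit 0) (nat_lit 3) (nat_lit 5) (C.cons (nat_lit 553) (C.pat (nat_lit 1) (nat_lit 1704231713) (nat_lit 1511048468896359237811928057444106793)) C.nil)) C.nil)) C.nil))) (C.cons (nat_lit 73) (C.node (nat_lit 0) (nat_lit 3) (nat_lit 8) (C.cons (nat_lit 265) (C.node (nat_lit 0) (nat_lit 6) (nat_lit 8) C.nil) C.nil)) C.nil))) (List.cons (C.node (nat_lit 0) (nat_lit 3) (nat_lit 4) (C.cons (nat_lit 153) (C.node (nat_lit 0) (nat_lit 5) (nat_lit 7) (C.cons (nat_lit 161) (C.node (nat_lit 0) (nat_lit 3) (nat_lit 5) (C.cons (nat_lit 553) (C.node (nat_lit 0) (nat_lit 3) (nat_lit 6) (C.cons (nat_lit 73) (C.node (nat_lit 0)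 (nat_lit 3) (nat_lit 8) (C.cons (nat_lit 265) (C.node (nat_lit 0) (nat_lit 6) (nat_lit 8) (C.cons (nat_lit 321) (C.ref (nat_lit 76) (nat_lit 11649936536080)) C.nil)) C.nil)) C.nil)) (C.cons (nat_lit 41) (C.node (nat_lit 0) (nat_lit 3) (nat_lit 9) (C.cons (nat_lit 521) (C.node (nat_lit 0) (nat_lit 5) (nat_lit 9) (C.cons (nat_lit 545) (C.node (nat_lit 0) (nat_lit 3) (nat_lit 6) (C.cons (nat_lit 329) (C.pat (nat_lit 1) (nat_lit 2269733665) (nat_lit 1012650085356426968628105355395924121)) C.nil)) C.nil)) C.nil)) C.nil))) C.nil)) (C.cons (nat_lit 25)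
  (C.node (nat_lit 0) (nat_lit 4) (nat_lit 7) (C.cons (nat_lit 145) (C.ref (nat_lit 77) (nat_lit 11649936536080)) C.nil)) C.nil))) (List.cons (C.node (nat_lit 0) (nat_lit 3) (nat_lit 5) (C.cons (nat_lit 553) (C.node (nat_lit 0) (nat_lit 6) (nat_lit 9) (C.cons (nat_lit 577) (C.node (nat_lit 0) (nat_lit 6) (nat_lit 3) (C.cons (nat_lit 329) (C.pat (nat_lit 1) (nat_lit 2266576468) (nat_lit 794573617297964208233765580147589315)) C.nil)) C.nil)) (C.cons (nat_lit 41) (C.node (nat_lit 0) (nat_lit 5) (nat_lit 9) C.nil) C.nil))) (List.cons (C.node (nat_lit 0) (nat_lit 3) (nat_lit 4) (C.cons (nat_lit 153) (C.node (nat_lit 0) (nat_lit 5) (nat_lit 7) (C.cons (nat_lit 161) (C.ref (nat_lit 79) (nat_lit 11649936536080)) C.nil)) (C.cons (nat_lit 25) (C.node (nat_lit 0) (nat_lit 4) (nat_lit 7) (C.cons (nat_lit 145) (C.node (nat_lit 0) (nat_lit 3) (nat_lit 7) (C.cons (nat_lit 169) (C.node (nat_lit 0) (nat_lit 5) (nat_lit 9) C.nil) C.nil)) C.nil))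 C.nil))) (List.cons (C.node (nat_lit 0) (nat_lit 2) (nat_lit 7) (C.cons (nat_lit 165) (C.node (nat_lit 0) (nat_lit 2) (nat_lit 9) (C.cons (nat_lit 517) (C.ref (nat_lit 78) (nat_lit 11577426522640)) C.nil)) (C.cons (nat_lit 133) (C.node (nat_lit 0) (nat_lit 2) (nat_lit 5) (C.cons (nat_lit 549) (C.pat (nat_lit 0) (nat_lit 92883489) (nat_lit 152198674748686034816854532490255)) (C.cons (nat_lit 37) (C.node (nat_lit 0) (nat_lit 2) (nat_lit 9) (C.cons (nat_lit 517) (C.ref (nat_lit 80) (nat_lit 11649936536080)) C.nil)) C.nil))) C.nil))) (List.cons (C.node (nat_lit 0) (nat_lit 2) (nat_lit 6) (C.cons (nat_lit 581) (C.node (nat_lit 0) (nat_lit 2) (nat_lit 5) (C.cons (nat_lit 165) (C.pat (nat_lit 1) (nat_lit 663054657) (nat_lit 1012510960412914372323284483289712513)) (C.cons (nat_lit 37) (C.node (nat_lit 0) (nat_lit 2) (nat_lit 7) (C.cons (nat_lit 133) (C.ref (nat_lit 78) (nat_lit 11649936536080)) C.nil)) C.nil))) (C.cons (nat_lit 69) (C.ref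 (nat_lit 81) (nat_lit 11649936536080)) C.nil))) (List.cons (C.node (nat_lit 0) (nat_lit 5) (nat_lit 7) (C.cons (nat_lit 165) (C.node (nat_lit 0) (nat_lit 5) (nat_lit 9) (C.cons (nat_lit 545) (C.node (nat_lit 0) (nat_lit 6) (nat_lit 7) (C.cons (nat_lit 193) (C.node (nat_lit 0) (nat_lit 2) (nat_lit 6) (C.cons (nat_lit 581) (C.ref (nat_lit 76) (nat_lit 11585496297760)) C.nil)) C.nil)) C.nil)) (C.cons (nat_lit 161) (C.node (nat_lit 0) (nat_lit 2) (nat_lit 5) (C.cons (nat_lit 549) (C.pat (nat_lit 0) (nat_lit 92883489) (nat_lit 152198674748686034816854532490255)) (C.cons (nat_lit 37) (C.node (nat_lit 0) (nat_lit 5) (nat_lit 9) C.nil) C.nil))) C.nil))) (List.cons (C.node (nat_lit 0) (nat_lit 2) (nat_lit 6) (C.cons (nat_lit 197) (C.node (nat_lit 0) (nat_lit 5) (nat_lit 7) (C.cons (nat_lit 161) (C.node (nat_lit 0) (nat_lit 2) (nat_lit 5) (C.cons (nat_lit 549) (C.pat (nat_lit 0) (nat_lit 92883489) (nat_lit 152198674748686034816854532490255))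 C.nil)) C.nil)) (C.cons (nat_lit 69) (C.node (nat_lit 0) (nat_lit 6) (nat_lit 7) C.nil) C.nil))) (List.cons (C.node (nat_lit 0) (nat_lit 6) (nat_lit 8) (C.cons (nat_lit 321) (C.node (nat_lit 0) (nat_lit 2) (nat_lit 5) (C.cons (nat_lit 549) (C.pat (nat_lit 0) (nat_lit 92883489) (nat_lit 152198674748686034816854532490255)) (C.cons (nat_lit 165) (C.node (nat_lit 0) (nat_lit 2) (nat_lit 6) (C.cons (nat_lit 581) (C.node (nat_lit 0) (nat_lit 3) (nat_lit 5) (C.cons (nat_lit 553) (C.node (nat_lit 0) (nat_lit 3) (nat_lit 6) (C.cons (nat_lit 201) (C.pat (nat_lit 0) (nat_lit 110582322) (nat_lit 152198674742266645567542697198607)) C.nil)) C.nil)) C.nil)) C.nil))) C.nil)) (List.cons (C.node (nat_lit 0) (nat_lit 3) (nat_lit 4) (C.cons (nat_lit 281) (C.node (nat_lit 0) (nat_lit 6) (nat_lit 8) (C.cons (nat_lit 321) (C.node (nat_lit 0) (nat_lit 3) (nat_lit 9) (C.cons (nat_lit 585) (C.node (nat_lit 0) (nat_lit 7) (nat_lit 6) (C.cons (nat_lit 193)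 (C.node (nat_lit 0) (nat_lit 7) (nat_lit 5) (C.cons (nat_lit 169) (C.pat (nat_lit 1) (nat_lit 843143049) (nat_lit 2850653294038415416504221444696375445)) C.nil)) C.nil)) (C.cons (nat_lit 521)
  (C.node (nat_lit 0) (nat_lit 9) (nat_lit 6) C.nil) C.nil))) C.nil)) (C.cons (nat_lit 25) (C.node (nat_lit 0) (nat_lit 4) (nat_lit 8) (C.cons (nat_lit 273) (C.node (nat_lit 0) (nat_lit 3) (nat_lit 5) (C.cons (nat_lit 169) (C.node (nat_lit 0) (nat_lit 6) (nat_lit 7) C.nil) C.nil)) C.nil)) C.nil))) (List.cons (C.node (nat_lit 0) (nat_lit 2) (nat_lit 4) (C.cons (nat_lit 277) (C.node (nat_lit 0) (nat_lit 3) (nat_lit 4) (C.cons (nat_lit 153) (C.node (nat_lit 0) (nat_lit 3) (nat_lit 5) (C.cons (nat_lit 553) (C.node (nat_lit 0) (nat_lit 2) (nat_lit 5) (C.cons (nat_lit 165) (C.pat (nat_lit 1) (nat_lit 2035827489) (nat_lit 2757261829533983608448358949791793705)) (C.cons (nat_lit 37) (C.node (nat_lit 0) (nat_lit 5) (nat_lit 7) (C.cons (nat_lit 161)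 (C.ref (nat_lit 77) (nat_lit 11649882875200)) C.nil)) C.nil))) (C.cons (nat_lit 41) (C.node (nat_lit 0) (nat_lit 3) (nat_lit 8) (C.cons (nat_lit 329) (C.node (nat_lit 0) (nat_lit 3) (nat_lit 9) (C.cons (nat_lit 521) (C.ref (nat_lit 83) (nat_lit 11649936536080)) C.nil)) (C.cons (nat_lit 265) (C.node (nat_lit 0) (nat_lit 6) (nat_lit 8) (C.cons (nat_lit 321) (C.node (nat_lit 0) (nat_lit 3) (nat_lit 6) (C.cons (nat_lit 585) (C.ref (nat_lit 84) (nat_lit 11649936536080)) (C.cons (nat_lit 73) (C.node (nat_lit 0) (nat_lit 3) (nat_lit 9) C.nil) C.nil))) C.nil)) C.nil))) C.nil))) (C.cons (nat_lit 25) (C.node (nat_lit 0) (nat_lit 4) (nat_lit 7) (C.cons (nat_lit 145) (C.node (nat_lit 0) (nat_lit 3) (nat_lit 8) (C.cons (nat_lit 329) (C.node (nat_lit 0) (nat_lit 3) (nat_lit 7) (C.cons (nat_lit 169) (C.node (nat_lit 0) (nat_lit 3) (nat_lit 9) (C.cons (nat_lit 521) (C.ref (nat_lit 84) (nat_lit 11357631558160)) C.nil)) (C.cons (nat_lit 137) (C.node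 (nat_lit 0) (nat_lit 3) (nat_lit 5) (C.cons (nat_lit 553) (C.node (nat_lit 0) (nat_lit 2) (nat_lit 5) (C.cons (nat_lit 165) (C.node (nat_lit 0) (nat_lit 6) (nat_lit 7) (C.cons (nat_lit 193) (C.node (nat_lit 0) (nat_lit 6) (nat_lit 9) (C.cons (nat_lit 581) (C.pat (nat_lit 1) (nat_lit 595695173) (nat_lit 2871422481182420130368261529273565513)) C.nil)) C.nil)) (C.cons (nat_lit 37) (C.node (nat_lit 0) (nat_lit 5) (nat_lit 7) C.nil) C.nil))) (C.cons (nat_lit 41) (C.node (nat_lit 0) (nat_lit 3) (nat_lit 9) C.nil) C.nil))) C.nil))) (C.cons (nat_lit 265) (C.ref (nat_lit 85) (nat_lit 11649936536080)) C.nil))) C.nil)) C.nil))) (C.cons (nat_lit 149) (C.node (nat_lit 0) (nat_lit 2) (nat_lit 5) (C.cons (nat_lit 549) (C.node (nat_lit 0) (nat_lit 2) (nat_lit 6) (C.cons (nat_lit 325) (C.ref (nat_lit 78) (nat_lit 11649904095520)) (C.cons (nat_lit 69) (C.node (nat_lit 0) (nat_lit 2) (nat_lit 8) (C.cons (nat_lit 261) (C.ref (nat_lit 86) (nat_lit 11649936536080))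 C.nil)) C.nil))) (C.cons (nat_lit 37) (C.node (nat_lit 0) (nat_lit 2) (nat_lit 8) (C.cons (nat_lit 325) (C.node (nat_lit 0) (nat_lit 2) (nat_lit 9) (C.cons (nat_lit 517) (C.node (nat_lit 0) (nat_lit 3) (nat_lit 4) (C.cons (nat_lit 281) (C.ref (nat_lit 83) (nat_lit 11649936532240)) (C.cons (nat_lit 25) (C.node (nat_lit 0) (nat_lit 3) (nat_lit 8) (C.cons (nat_lit 265) (C.node (nat_lit 0) (nat_lit 4) (nat_lit 8) C.nil) C.nil)) C.nil))) C.nil)) (C.cons (nat_lit 261) (C.node (nat_lit 0) (nat_lit 2) (nat_lit 6) (C.cons (nat_lit 581) (C.node (nat_lit 0) (nat_lit 3) (nat_lit 4) (C.cons (nat_lit 281) (C.node (nat_lit 0) (nat_lit 6) (nat_lit 8) (C.cons (nat_lit 321) (C.ref (nat_lit 84) (nat_lit 11649936532240)) C.nil)) (C.cons (nat_lit 25) (C.node (nat_lit 0) (nat_lit 4) (nat_lit 8) (C.cons (nat_lit 273) (C.node (nat_lit 0) (nat_lit 3) (nat_lit 8) (C.cons (nat_lit 329) (C.node (nat_lit 0) (nat_lit 6) (nat_lit 7) C.nil) C.nil)) C.nil)) C.nil)))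 (C.cons (nat_lit 69) (C.node (nat_lit 0) (nat_lit 2) (nat_lit 9) (C.cons (nat_lit 517) (C.node (nat_lit 0) (nat_lit 3) (nat_lit 4) (C.cons (nat_lit 281) (C.node (nat_lit 0) (nat_lit 6) (nat_lit 8) C.nil) C.nil)) C.nil)) C.nil))) C.nil))) C.nil))) (C.cons (nat_lit 21) (C.node (nat_lit 0) (nat_lit 2) (nat_lit 8) (C.cons (nat_lit 325) (C.node (nat_lit 0) (nat_lit 2) (nat_lit 7)
  (C.cons (nat_lit 165) (C.node (nat_lit 0) (nat_lit 2) (nat_lit 9) (C.cons (nat_lit 517) (C.node (nat_lit 0) (nat_lit 3) (nat_lit 5) (C.cons (nat_lit 553) (C.node (nat_lit 0) (nat_lit 6) (nat_lit 9) (C.cons (nat_lit 577) (C.ref (nat_lit 84) (nat_lit 11585511039760)) C.nil)) (C.cons (nat_lit 41) (C.node (nat_lit 0) (nat_lit 5) (nat_lit 9) (C.cons (nat_lit 545) (C.node (nat_lit 0) (nat_lit 3) (nat_lit 9) (C.cons (nat_lit 585) (C.node (nat_lit 0) (nat_lit 6) (nat_lit 7) C.nil) C.nil)) C.nil)) C.nil))) C.nil)) (C.cons (nat_lit 133) (C.node (nat_lit 0) (nat_lit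 2) (nat_lit 5) (C.cons (nat_lit 549) (C.ref (nat_lit 86) (nat_lit 11357631558160)) (C.cons (nat_lit 37) (C.node (nat_lit 0) (nat_lit 2) (nat_lit 9) (C.cons (nat_lit 517) (C.node (nat_lit 0) (nat_lit 3) (nat_lit 8) (C.cons (nat_lit 281) (C.node (nat_lit 0) (nat_lit 7) (nat_lit 4) C.nil) C.nil)) C.nil)) C.nil))) C.nil))) (C.cons (nat_lit 261) (C.node (nat_lit 0) (nat_lit 4) (nat_lit 7) (C.cons (nat_lit 153) (C.node (nat_lit 0) (nat_lit 4) (nat_lit 8) (C.cons (nat_lit 273) (C.node (nat_lit 0) (nat_lit 3) (nat_lit 5) (C.cons (nat_lit 553) (C.node (nat_lit 0) (nat_lit 2) (nat_lit 5) (C.cons (nat_lit 165) (C.node (nat_lit 0) (nat_lit 6) (nat_lit 7) (C.cons (nat_lit 193) (C.node (nat_lit 0) (nat_lit 2) (nat_lit 6) (C.cons (nat_lit 581) (C.node (nat_lit 0) (nat_lit 3) (nat_lit 6) (C.cons (nat_lit 329) (C.ref (nat_lit 76) (nat_lit 11649904091440)) C.nil)) C.nil)) C.nil)) (C.cons (nat_lit 37) (C.node (nat_lit 0) (nat_lit 5) (nat_lit 7) C.nil)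 C.nil))) (C.cons (nat_lit 41) (C.node (nat_lit 0) (nat_lit 3) (nat_lit 8) (C.cons (nat_lit 329) (C.node (nat_lit 0) (nat_lit 3) (nat_lit 9) C.nil) C.nil)) C.nil))) C.nil)) (C.cons (nat_lit 145) (C.node (nat_lit 0) (nat_lit 3) (nat_lit 4) (C.cons (nat_lit 281) (C.ref (nat_lit 85) (nat_lit 11649936532240)) (C.cons (nat_lit 25) (C.node (nat_lit 0) (nat_lit 4) (nat_lit 8) C.nil) C.nil))) C.nil))) C.nil))) C.nil)))) (List.cons (C.node (nat_lit 0) (nat_lit 1) (nat_lit 6) (C.cons (nat_lit 195) (C.node (nat_lit 0) (nat_lit 2) (nat_lit 4) (C.cons (nat_lit 277) (C.ref (nat_lit 82) (nat_lit 11649936536080)) (C.cons (nat_lit 149) (C.ref (nat_lit 82) (nat_lit 11645894275600)) (C.cons (nat_lit 21) (C.node (nat_lit 0) (nat_lit 2) (nat_lit 7) (C.cons (nat_lit 165) (C.ref (nat_lit 81) (nat_lit 11577426522640)) (C.cons (nat_lit 133) (C.node (nat_lit 0) (nat_lit 2) (nat_lit 5) (C.cons (nat_lit 549) (C.node (nat_lit 0) (nat_lit 2) (nat_lit 6) (C.cons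 (nat_lit 325) (C.ref (nat_lit 78) (nat_lit 11585511043600)) (C.cons (nat_lit 69) (C.node (nat_lit 0) (nat_lit 2) (nat_lit 8) (C.cons (nat_lit 261) (C.ref (nat_lit 80) (nat_lit 11585511043600)) C.nil)) C.nil))) (C.cons (nat_lit 37) (C.node (nat_lit 0) (nat_lit 2) (nat_lit 8) (C.cons (nat_lit 325) (C.node (nat_lit 0) (nat_lit 2) (nat_lit 9) (C.cons (nat_lit 517) (C.ref (nat_lit 80) (nat_lit 11513001030160)) C.nil)) (C.cons (nat_lit 261) (C.node (nat_lit 0) (nat_lit 2) (nat_lit 6) (C.cons (nat_lit 581) (C.ref (nat_lit 80) (nat_lit 11517043290640)) (C.cons (nat_lit 69) (C.node (nat_lit 0) (nat_lit 2) (nat_lit 9) (C.cons (nat_lit 517) (C.node (nat_lit 0) (nat_lit 4) (nat_lit 7) (C.cons (nat_lit 153) (C.node (nat_lit 0) (nat_lit 4) (nat_lit 8) C.nil) C.nil)) C.nil)) C.nil))) C.nil))) C.nil))) C.nil))) C.nil)))) (C.cons (nat_lit 67) (C.node (nat_lit 0) (nat_lit 1) (nat_lit 7) (C.cons (nat_lit 131) (C.ref (nat_lit 87) (nat_lit 11649936536080))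 C.nil)) C.nil))) (List.cons (C.node (nat_lit 0) (nat_lit 3) (nat_lit 4) (C.cons (nat_lit 153) (C.node (nat_lit 0) (nat_lit 5) (nat_lit 7) (C.cons (nat_lit 165) (C.node (nat_lit 0) (nat_lit 6) (nat_lit 7) (C.cons (nat_lit 193) (C.node (nat_lit 0) (nat_lit 2) (nat_lit 6) (C.cons (nat_lit 581) (C.ref (nat_lit 79) (nat_lit 11585496297760)) (C.cons (nat_lit 69) (C.node (nat_lit 0) (nat_lit 2) (nat_lit 9) C.nil) C.nil))) C.nil)) (C.cons (nat_lit 161) (C.node (nat_lit 0) (nat_lit 2) (nat_lit 5) (C.cons (nat_lit 549) (C.node (nat_lit 0) (nat_lit 2) (nat_lit 6) (C.cons (nat_lit 197)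
  (C.ref (nat_lit 79) (nat_lit 11585512026400)) (C.cons (nat_lit 69) (C.node (nat_lit 0) (nat_lit 2) (nat_lit 7) C.nil) C.nil))) (C.cons (nat_lit 37) (C.node (nat_lit 0) (nat_lit 2) (nat_lit 7) (C.cons (nat_lit 197) (C.node (nat_lit 0) (nat_lit 2) (nat_lit 9) C.nil) C.nil)) C.nil))) C.nil))) (C.cons (nat_lit 25) (C.node (nat_lit 0) (nat_lit 4) (nat_lit 7) (C.cons (nat_lit 145) (C.node (nat_lit 0) (nat_lit 5) (nat_lit 8) (C.cons (nat_lit 297) (C.node (nat_lit 0) (nat_lit 6) (nat_lit 8) C.nil) C.nil)) C.nil)) C.nil))) (List.cons (C.node (nat_lit 0) (nat_lit 2) (nat_lit 4) (C.cons (nat_lit 277) (C.ref (nat_lit 89) (nat_lit 11649936536080)) (C.cons (nat_lit 149) (C.ref (nat_lit 89) (nat_lit 11645910004240)) (C.cons (nat_lit 21) (C.node (nat_lit 0) (nat_lit 4) (nat_lit 7) (C.cons (nat_lit 153) (C.node (nat_lit 0) (nat_lit 4) (nat_lit 8) (C.cons (nat_lit 273) (C.node (nat_lit 0) (nat_lit 5) (nat_lit 7) (C.cons (nat_lit 165) (C.node (nat_lit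 0) (nat_lit 6) (nat_lit 7) C.nil) C.nil)) C.nil)) (C.cons (nat_lit 145) (C.node (nat_lit 0) (nat_lit 3) (nat_lit 4) (C.cons (nat_lit 281) (C.node (nat_lit 0) (nat_lit 5) (nat_lit 8) (C.cons (nat_lit 293) (C.node (nat_lit 0) (nat_lit 6) (nat_lit 8) C.nil) C.nil)) C.nil)) C.nil))) C.nil)))) (List.cons (C.node (nat_lit 0) (nat_lit 1) (nat_lit 6) (C.cons (nat_lit 323) (C.ref (nat_lit 87) (nat_lit 11649920807440)) (C.cons (nat_lit 67) (C.node (nat_lit 0) (nat_lit 1) (nat_lit 8) (C.cons (nat_lit 259) (C.ref (nat_lit 90) (nat_lit 11649936536080)) C.nil)) C.nil))) (List.cons (C.node (nat_lit 0) (nat_lit 1) (nat_lit 7) (C.cons (nat_lit 195) (C.node (nat_lit 0) (nat_lit 1) (nat_lit 8) (C.cons (nat_lit 259) (C.ref (nat_lit 87) (nat_lit 11645894275600)) C.nil)) (C.cons (nat_lit 131) (C.ref (nat_lit 91) (nat_lit 11649936536080)) C.nil))) (List.cons (C.node (nat_lit 0) (nat_lit 1) (nat_lit 5) (C.cons (nat_lit 291) (C.ref (nat_lit 88) (nat_lit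 11649936536080)) (C.cons (nat_lit 163) (C.ref (nat_lit 88) (nat_lit 11645910004240)) (C.cons (nat_lit 35) (C.ref (nat_lit 92) (nat_lit 11649936536080)) C.nil)))) (List.cons (C.qs (C.cons (nat_lit 5440) (C.pat (nat_lit 1) (nat_lit 3094755873) (nat_lit 1552522193177840130140914560386533249)) (C.cons (nat_lit 7200) (C.pat (nat_lit 0) (nat_lit 195651667) (nat_lit 152197688265143684374819974742315)) (C.cons (nat_lit 6688) (C.pat (nat_lit 1) (nat_lit 3041475105) (nat_lit 1552539940692442400702518520286348401)) (C.cons (nat_lit 6672) (C.pat (nat_lit 1) (nat_lit 2603973153) (nat_lit 1012541067124365918053368174341325833)) (C.cons (nat_lit 6664) (C.pat (nat_lit 1) (nat_lit 2603973153) (nat_lit 1012541067124365918053368174341325833)) (C.cons (nat_lit 3204) (C.pat (nat_lit 1) (nat_lit 2556910369) (nat_lit 1552648958237853951189301650543411521)) (C.cons (nat_lit 2580) (C.pat (nat_lit 0) (nat_lit 112805169) (nat_lit 43180723129796105118979990946091))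 (C.cons (nat_lit 3202) (C.pat (nat_lit 1) (nat_lit 2556910369) (nat_lit 1552648958237853951189301650543411521)) (C.cons (nat_lit 3106) (C.pat (nat_lit 2) (nat_lit 48338999122) (nat_lit 3055303842530089440815985127215141856037110291)) (C.cons (nat_lit 2186) (C.pat (nat_lit 0) (nat_lit 195582273) (nat_lit 152197959059509763663697501946387)) (C.cons (nat_lit 7169) (C.pat (nat_lit 0) (nat_lit 195651667) (nat_lit 152197688265143684374819974742315)) (C.cons (nat_lit 3201) (C.pat (nat_lit 1) (nat_lit 2556910369) (nat_lit 1552648958237853951189301650543411521)) (C.cons (nat_lit 6161) (C.pat (nat_lit 2) (nat_lit 34707247733) (nat_lit 5820543838772346261444568771484797953923940883)) C.nil)))))))))))))) (List.cons (C.node (nat_lit 0) (nat_lit 2) (nat_lit 5) (C.cons (nat_lit 165) (C.node (nat_lit 0) (nat_lit 2) (nat_lit 4) (C.cons (nat_lit 277) (C.pat (nat_lit 1) (nat_lit 663054657) (nat_lit 1012510960422585926454154106363774849)) (C.cons (nat_lit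 21) (C.node (nat_lit 0) (nat_lit 2) (nat_lit 8) (C.cons (nat_lit 261) (C.node (nat_lit 0) (nat_lit 4) (nat_lit 8) (C.cons (nat_lit 273) (C.node (nat_lit 0) (nat_lit 3) (nat_lit 4) (C.cons (nat_lit 153)
  (C.ref (nat_lit 94) (nat_lit 6984750498160)) C.nil)) C.nil)) C.nil)) C.nil))) (C.cons (nat_lit 37) (C.node (nat_lit 0) (nat_lit 5) (nat_lit 7) (C.cons (nat_lit 161) (C.node (nat_lit 0) (nat_lit 2) (nat_lit 7) (C.cons (nat_lit 149) (C.node (nat_lit 0) (nat_lit 2) (nat_lit 8) (C.cons (nat_lit 261) (C.node (nat_lit 0) (nat_lit 3) (nat_lit 4) C.nil) C.nil)) (C.cons (nat_lit 133) (C.node (nat_lit 0) (nat_lit 2) (nat_lit 4) (C.cons (nat_lit 277) (C.node (nat_lit 0) (nat_lit 3) (nat_lit 7) (C.cons (nat_lit 153) (C.ref (nat_lit 94) (nat_lit 10490245960000)) C.nil)) C.nil)) C.nil))) C.nil)) C.nil))) (List.cons (C.node (nat_lit 0) (nat_lit 1) (nat_lit 4) (C.cons (nat_lit 23) (C.node (nat_lit 0) (nat_lit 1) (nat_lit 10) (C.cons (nat_lit 1027)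 (C.node (nat_lit 0) (nat_lit 2) (nat_lit 8) (C.cons (nat_lit 261) (C.node (nat_lit 0) (nat_lit 2) (nat_lit 10) (C.cons (nat_lit 1029) (C.node (nat_lit 0) (nat_lit 4) (nat_lit 8) (C.cons (nat_lit 273) (C.node (nat_lit 0) (nat_lit 2) (nat_lit 5) (C.cons (nat_lit 165) (C.node (nat_lit 0) (nat_lit 3) (nat_lit 4) (C.cons (nat_lit 153) (C.pat (nat_lit 0) (nat_lit 124072993) (nat_lit 90082605747412831443884098387991)) C.nil)) C.nil)) C.nil)) C.nil)) C.nil)) C.nil)) (C.cons (nat_lit 19) (C.node (nat_lit 0) (nat_lit 1) (nat_lit 2) (C.cons (nat_lit 1031) (C.ref (nat_lit 95) (nat_lit 10619142165520)) (C.cons (nat_lit 7) (C.node (nat_lit 0) (nat_lit 1) (nat_lit 10) (C.cons (nat_lit 1027) (C.node (nat_lit 0) (nat_lit 2) (nat_lit 10) (C.cons (nat_lit 1029) (C.node (nat_lit 0) (nat_lit 2) (nat_lit 5) (C.cons (nat_lit 165) (C.node (nat_lit 0) (nat_lit 2) (nat_lit 4) (C.cons (nat_lit 277) (C.node (nat_lit 0) (nat_lit 3) (nat_lit 4) (C.cons (nat_lit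 153) (C.ref (nat_lit 94) (nat_lit 5953957237360)) C.nil)) C.nil)) C.nil)) C.nil)) C.nil)) C.nil))) C.nil))) List.nil))))))))))))))))))))))

theorem ok11_75 : okL par11 (nat_lit 97) c11_75 (nat_lit 75) = true := by decide +kernel

noncomputable def c11_97 : List C :=
  (List.cons (C.big (C.cons (nat_lit 151) (C.big C.nil (C.node (nat_lit 0) (nat_lit 1) (nat_lit 6) (C.cons (nat_lit 67) (C.node (nat_lit 0) (nat_lit 1) (nat_lit 9) (C.cons (nat_lit 515) (C.node (nat_lit 0) (nat_lit 1) (nat_lit 10) (C.cons (nat_lit 1027) (C.node (nat_lit 0) (nat_lit 2) (nat_lit 5) (C.cons (nat_lit 37) (C.node (nat_lit 0) (nat_lit 2) (nat_lit 8) (C.cons (nat_lit 261) (C.node (nat_lit 0) (nat_lit 2) (nat_lit 10) (C.cons (nat_lit 1029) (C.node (nat_lit 0) (nat_lit 3) (nat_lit 4) (C.cons (nat_lit 25) (C.node (nat_lit 0) (nat_lit 3) (nat_lit 7) (C.cons (nat_lit 137) (C.node (nat_lit 0) (nat_lit 3) (nat_lit 10) (C.cons (nat_lit 1033) (C.node (nat_lit 0) (nat_lit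 4) (nat_lit 8) C.nil) C.nil)) C.nil)) C.nil)) C.nil)) C.nil)) C.nil)) C.nil)) C.nil)) C.nil))) C.nil) (C.node (nat_lit 0) (nat_lit 3) (nat_lit 10) (C.cons (nat_lit 1033) (C.node (nat_lit 0) (nat_lit 5) (nat_lit 9) (C.cons (nat_lit 545) (C.node (nat_lit 0) (nat_lit 6) (nat_lit 8) (C.cons (nat_lit 321) (C.node (nat_lit 0) (nat_lit 1) (nat_lit 6) (C.cons (nat_lit 195) (C.node (nat_lit 0) (nat_lit 1) (nat_lit 9) (C.cons (nat_lit 531) (C.node (nat_lit 0) (nat_lit 1) (nat_lit 2) (C.cons (nat_lit 1031) (C.node (nat_lit 0) (nat_lit 2) (nat_lit 5) (C.cons (nat_lit 165) (C.node (nat_lit 0) (nat_lit 2) (nat_lit 4) (C.cons (nat_lit 21) (C.node (nat_lit 0) (nat_lit 2) (nat_lit 8) (C.cons (nat_lit 261) (C.node (nat_lit 0) (nat_lit 4) (nat_lit 8) (C.cons (nat_lit 273) (C.node (nat_lit 0) (nat_lit 3) (nat_lit 4) (C.cons (nat_lit 25) (C.node (nat_lit 0) (nat_lit 3) (nat_lit 7) (C.cons (nat_lit 137) (C.node (nat_lit 0) (nat_lit 4) (nat_lit 7) (C.cons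 (nat_lit 145) (C.ref (nat_lit 94) (nat_lit 11649936536080)) C.nil)) C.nil)) C.nil)) C.nil)) C.nil)) C.nil)) (C.cons (nat_lit 37) (C.node (nat_lit 0) (nat_lit 5) (nat_lit 7) (C.cons (nat_lit 161) (C.node (nat_lit 0) (nat_lit 2) (nat_lit 7) (C.cons (nat_lit 149) (C.pat (nat_lit 0) (nat_lit 108612129) (nat_lit 152198674749423868550593578730503)) (C.cons (nat_lit 133) (C.node (nat_lit 0) (nat_lit 2) (nat_lit 4) (C.cons (nat_lit 277) (C.node (nat_lit 0) (nat_lit 3) (nat_lit 7) (C.cons (nat_lit 137) (C.node (nat_lit 0) (nat_lit 3) (nat_lit 4) (C.cons (nat_lit 25) (C.node (nat_lit 0) (nat_lit 7) (nat_lit 4) (C.cons (nat_lit 145) (C.ref (nat_lit 94) (nat_lit 11430141571600)) C.nil)) C.nil)) C.nil)) (C.cons (nat_lit 21) (C.node (nat_lit 0) (nat_lit 2) (nat_lit 8) (C.cons (nat_lit 261) (C.node (nat_lit 0) (nat_lit 4) (nat_lit 8) (C.cons (nat_lit 273) (C.node (nat_lit 0) (nat_lit 3) (nat_lit 4) (C.cons (nat_lit 153) (C.ref (nat_lit 94) (nat_lit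 10619142165520)) C.nil)) C.nil)) C.nil)) C.nil))) C.nil))) C.nil)) C.nil))) (C.cons (nat_lit 7) (C.node (nat_lit 0) (nat_lit 1) (nat_lit 10) (C.cons (nat_lit 1027) (C.node (nat_lit 0) (nat_lit 2) (nat_lit 10) (C.cons (nat_lit 1029) (C.ref (nat_lit 95) (nat_lit 11649936536080)) C.nil)) C.nil)) C.nil))) (C.cons (nat_lit 515) (C.node (nat_lit 0) (nat_lit 4) (nat_lit 9) (C.cons (nat_lit 529) (C.ref (nat_lit 96) (nat_lit 11649936536080)) C.nil)) C.nil))) (C.cons (nat_lit 67) (C.node (nat_lit 0) (nat_lit 6) (nat_lit 7) (C.cons (nat_lit 193) (C.node (nat_lit 0) (nat_lit 1) (nat_lit 9) (C.cons (nat_lit 531) (C.ref (nat_lit 96) (nat_lit 11430141571600)) (C.cons (nat_lit 515) (C.node (nat_lit 0) (nat_lit 4) (nat_lit 9) (C.cons (nat_lit 529) (C.node (nat_lit 0) (nat_lit 1) (nat_lit 10) (C.cons (nat_lit 1031) (C.node (nat_lit 0) (nat_lit 1) (nat_lit 4) (C.cons (nat_lit 147) (C.node (nat_lit 0) (nat_lit 3) (nat_lit 4) (C.cons (nat_lit 25) (C.node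 (nat_lit 0) (nat_lit 7) (nat_lit 3) (C.cons (nat_lit 137) (C.node (nat_lit 0) (nat_lit 4) (nat_lit 8) (C.cons (nat_lit 277) (C.node (nat_lit 0) (nat_lit 5) (nat_lit 7) (C.cons (nat_lit 165) (C.pat (nat_lit 0) (nat_lit 44586817) (nat_lit 152197499667772097080905951805587)) C.nil)) C.nil)) C.nil)) C.nil)) (C.cons (nat_lit 19) (C.node (nat_lit 0) (nat_lit 1) (nat_lit 7) (C.cons (nat_lit 131) (C.node (nat_lit 0) (nat_lit 4) (nat_lit 8) (C.cons (nat_lit 277)
  (C.node (nat_lit 0) (nat_lit 4) (nat_lit 7) (C.cons (nat_lit 153) (C.node (nat_lit 0) (nat_lit 5) (nat_lit 7) (C.cons (nat_lit 165) (C.ref (nat_lit 94) (nat_lit 9523908666400)) C.nil)) C.nil)) C.nil)) C.nil)) C.nil))) (C.cons (nat_lit 1027) (C.node (nat_lit 0) (nat_lit 2) (nat_lit 10) (C.cons (nat_lit 1029) (C.node (nat_lit 0) (nat_lit 2) (nat_lit 5) (C.cons (nat_lit 165) (C.node (nat_lit 0) (nat_lit 1) (nat_lit 2) (C.cons (nat_lit 23) (C.node (nat_lit 0) (nat_lit 1) (nat_lit 7)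 C.nil) C.nil)) C.nil)) C.nil)) C.nil))) C.nil)) C.nil))) C.nil)) C.nil))) C.nil)) C.nil)) C.nil))) (List.cons (C.node (nat_lit 0) (nat_lit 3) (nat_lit 4) (C.cons (nat_lit 153) (C.node (nat_lit 0) (nat_lit 3) (nat_lit 5) (C.cons (nat_lit 41) (C.node (nat_lit 0) (nat_lit 2) (nat_lit 4) (C.cons (nat_lit 277) (C.pat (nat_lit 1) (nat_lit 1199794721) (nat_lit 1012510009645960237870189390527793025)) (C.cons (nat_lit 21) (C.node (nat_lit 0) (nat_lit 4) (nat_lit 8) C.nil) C.nil))) C.nil)) (C.cons (nat_lit 25) (C.node (nat_lit 0) (nat_lit 3) (nat_lit 5) (C.cons (nat_lit 169) (C.node (nat_lit 0) (nat_lit 2) (nat_lit 5) (C.cons (nat_lit 293) (C.pat (nat_lit 1) (nat_lit 1468230177) (nat_lit 1012511277296560466104094486858368897)) (C.cons (nat_lit 37) (C.node (nat_lit 0) (nat_lit 5) (nat_lit 8) C.nil) C.nil))) (C.cons (nat_lit 41) (C.node (nat_lit 0) (nat_lit 3) (nat_lit 7) C.nil) C.nil))) C.nil))) (List.cons (C.node (nat_lit 1) (nat_lit 2) (nat_lit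 6) (C.cons (nat_lit 358) (C.miq (nat_lit 309945610) (nat_lit 778577779616596021670380657)) (C.cons (nat_lit 326) (C.node (nat_lit 2) (nat_lit 5) (nat_lit 6) (C.cons (nat_lit 100) (C.node (nat_lit 1) (nat_lit 4) (nat_lit 6) (C.cons (nat_lit 90) (C.miq (nat_lit 343565065) (nat_lit 1412054909019226363918352973)) (C.cons (nat_lit 82) (C.node (nat_lit 2) (nat_lit 7) (nat_lit 8) (C.cons (nat_lit 396) (C.miq (nat_lit 1445463155) (nat_lit 394115296197396961770078361)) (C.cons (nat_lit 388) (C.node (nat_lit 3) (nat_lit 4) (nat_lit 6) (C.cons (nat_lit 344) (C.miq (nat_lit 1382549315) (nat_lit 394115295923803284403912857)) (C.cons (nat_lit 88) (C.node (nat_lit 4) (nat_lit 6) (nat_lit 8) (C.cons (nat_lit 336) (C.node (nat_lit 4) (nat_lit 7) (nat_lit 8) (C.cons (nat_lit 434) (C.miq (nat_lit 846726725) (nat_lit 469068696859255683366913137)) (C.cons (nat_lit 432) (C.miq (nat_lit 846726725) (nat_lit 469068696859255683366782065)) (C.cons (nat_lit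 402) (C.miq (nat_lit 880936726) (nat_lit 334883317208579094354460867)) (C.cons (nat_lit 400) (C.node (nat_lit 1) (nat_lit 2) (nat_lit 7) (C.cons (nat_lit 142) (C.node (nat_lit 1) (nat_lit 7) (nat_lit 10) (C.cons (nat_lit 1186) (C.miq (nat_lit 1382117530) (nat_lit 394131695079286431480416129)) C.nil)) (C.cons (nat_lit 134) (C.node (nat_lit 2) (nat_lit 3) (nat_lit 7) (C.cons (nat_lit 140) (C.node (nat_lit 1) (nat_lit 2) (nat_lit 9) (C.cons (nat_lit 550) (C.node (nat_lit 2) (nat_lit 8) (nat_lit 9) C.nil) C.nil)) C.nil)) C.nil))) C.nil))))) C.nil)) C.nil))) C.nil))) C.nil))) C.nil)) (C.cons (nat_lit 102) (C.miq (nat_lit 309945610) (nat_lit 778577779544538427632452721)) (C.cons (nat_lit 70) (C.node (nat_lit 2) (nat_lit 5) (nat_lit 6) (C.cons (nat_lit 356) (C.node (nat_lit 1) (nat_lit 5) (nat_lit 6) (C.cons (nat_lit 106) (C.miq (nat_lit 1935032450) (nat_lit 128150047631961266009145621)) (C.cons (nat_lit 98) (C.node (nat_lit 2) (nat_lit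 8) (nat_lit 9) (C.cons (nat_lit 774) (C.miq (nat_lit 1175587480) (nat_lit 84629917441176388883580801)) (C.cons (nat_lit 772) (C.node (nat_lit 2) (nat_lit 8) (nat_lit 10) (C.cons (nat_lit 1292) (C.miq (nat_lit 1937915990) (nat_lit 1561936069694911467210671217)) (C.cons (nat_lit 1284) (C.node (nat_lit 3) (nat_lit 5) (nat_lit 6) (C.cons (nat_lit 232) (C.node (nat_lit 6) (nat_lit 7) (nat_lit 8) (C.cons (nat_lit 448) (C.node (nat_lit 1) (nat_lit 3) (nat_lit 6) (C.cons (nat_lit 346) (C.miq (nat_lit 343565065) (nat_lit 1412054909091283957956280909)) (C.cons (nat_lit 330) (C.miq (nat_lit 1130891090) (nat_lit 398950630264002713091309733)) (C.cons (nat_lit 90)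
  (C.miq (nat_lit 343565065) (nat_lit 1412054909019226363918352973)) C.nil)))) C.nil)) (C.cons (nat_lit 104) (C.miq (nat_lit 1935032450) (nat_lit 125732195992732007659733269)) C.nil))) C.nil))) C.nil))) C.nil))) (C.cons (nat_lit 100) (C.node (nat_lit 2) (nat_lit 6) (nat_lit 8) (C.cons (nat_lit 324) (C.node (nat_lit 3) (nat_lit 4) (nat_lit 6) (C.cons (nat_lit 346) (C.miq (nat_lit 343565065) (nat_lit 1412054909091283957956280909)) (C.cons (nat_lit 344) (C.miq (nat_lit 1382549315) (nat_lit 391697444284574026054500505)) (C.cons (nat_lit 90) (C.miq (nat_lit 343565065) (nat_lit 1412054909019226363918352973)) (C.cons (nat_lit 88) (C.node (nat_lit 1) (nat_lit 4) (nat_lit 6) (C.cons (nat_lit 338) (C.node (nat_lit 4) (nat_lit 7) (nat_lit 8) (C.cons (nat_lit 432) (C.miq (nat_lit 2221102880) (nat_lit 106390950930675359621644453)) (C.cons (nat_lit 400) (C.node (nat_lit 2) (nat_lit 7) (nat_lit 8) (C.cons (nat_lit 398) (C.miq (nat_lit 1417152035)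 (nat_lit 483575806848879520698466893)) (C.cons (nat_lit 396) (C.miq (nat_lit 1417152035) (nat_lit 483575806848879520698335821)) (C.cons (nat_lit 390) (C.miq (nat_lit 1384384278) (nat_lit 334893426027709135370453187)) (C.cons (nat_lit 388) (C.node (nat_lit 1) (nat_lit 4) (nat_lit 7) (C.cons (nat_lit 178) (C.node (nat_lit 1) (nat_lit 7) (nat_lit 9) (C.cons (nat_lit 650) (C.miq (nat_lit 878801065) (nat_lit 408628917456463127178774401)) C.nil)) (C.cons (nat_lit 146) (C.node (nat_lit 4) (nat_lit 5) (nat_lit 7) (C.cons (nat_lit 176) (C.node (nat_lit 1) (nat_lit 4) (nat_lit 10) (C.cons (nat_lit 1050) (C.node (nat_lit 4) (nat_lit 8) (nat_lit 10) C.nil) C.nil)) C.nil)) C.nil))) C.nil))))) C.nil))) (C.cons (nat_lit 82) (C.node (nat_lit 4) (nat_lit 6) (nat_lit 8) (C.cons (nat_lit 336) (C.node (nat_lit 3) (nat_lit 5) (nat_lit 6) (C.cons (nat_lit 232) (C.miq (nat_lit 910710560) (nat_lit 406204554138808399586197669)) (C.cons (nat_lit 106) (C.node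 (nat_lit 1) (nat_lit 6) (nat_lit 8) C.nil) C.nil))) C.nil)) C.nil))) C.nil))))) C.nil)) C.nil))) C.nil))))) (List.cons (C.node (nat_lit 1) (nat_lit 2) (nat_lit 6) (C.cons (nat_lit 358) (C.miq (nat_lit 309945610) (nat_lit 778577779616596021670380657)) (C.cons (nat_lit 326) (C.node (nat_lit 2) (nat_lit 5) (nat_lit 6) (C.cons (nat_lit 100) (C.node (nat_lit 1) (nat_lit 4) (nat_lit 6) (C.cons (nat_lit 90) (C.miq (nat_lit 343565065) (nat_lit 1412054909019226363918352973)) (C.cons (nat_lit 82) (C.node (nat_lit 2) (nat_lit 7) (nat_lit 8) (C.cons (nat_lit 396) (C.miq (nat_lit 1445463155) (nat_lit 394115296197396961770078361)) (C.cons (nat_lit 388) (C.node (nat_lit 3) (nat_lit 4) (nat_lit 6) (C.cons (nat_lit 344) (C.miq (nat_lit 1382549315) (nat_lit 394115295923803284403912857)) (C.cons (nat_lit 88) (C.node (nat_lit 4) (nat_lit 6) (nat_lit 8) C.nil) C.nil))) C.nil))) C.nil))) C.nil)) (C.cons (nat_lit 102) (C.miq (nat_lit 309945610) (nat_lit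 778577779544538427632452721)) (C.cons (nat_lit 70) (C.node (nat_lit 2) (nat_lit 5) (nat_lit 6) (C.cons (nat_lit 356) (C.node (nat_lit 1) (nat_lit 5) (nat_lit 6) (C.cons (nat_lit 106) (C.miq (nat_lit 1935032450) (nat_lit 128150047631961266009145621)) (C.cons (nat_lit 98) (C.node (nat_lit 2) (nat_lit 8) (nat_lit 9) (C.cons (nat_lit 774) (C.miq (nat_lit 1175587480) (nat_lit 84629917441176388883580801)) (C.cons (nat_lit 772) (C.node (nat_lit 2) (nat_lit 8) (nat_lit 10) (C.cons (nat_lit 1292) (C.miq (nat_lit 1937915990) (nat_lit 1561936069694911467210671217)) C.nil)) C.nil))) C.nil))) (C.cons (nat_lit 100) (C.node (nat_lit 2) (nat_lit 6) (nat_lit 8) (C.cons (nat_lit 324) (C.node (nat_lit 3) (nat_lit 4) (nat_lit 6) (C.cons (nat_lit 346) (C.miq (nat_lit 343565065) (nat_lit 1412054909091283957956280909)) (C.cons (nat_lit 344) (C.miq (nat_lit 1382549315) (nat_lit 391697444284574026054500505)) (C.cons (nat_lit 90) (C.miq (nat_lit 343565065)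 (nat_lit 1412054909019226363918352973)) (C.cons (nat_lit 88) (C.node (nat_lit 1) (nat_lit 4) (nat_lit 6) (C.cons (nat_lit 82)
  (C.node (nat_lit 4) (nat_lit 6) (nat_lit 8) C.nil) C.nil)) C.nil))))) C.nil)) C.nil))) C.nil))))) List.nil))))

theorem ok11_97 : okL par11 (nat_lit 101) c11_97 (nat_lit 97) = true := by decide +kernel

noncomputable def c11_101 : List C :=
  (List.cons (C.node (nat_lit 2) (nat_lit 7) (nat_lit 10) (C.cons (nat_lit 1164) (C.node (nat_lit 6) (nat_lit 7) (nat_lit 10) (C.cons (nat_lit 1216) (C.node (nat_lit 4) (nat_lit 7) (nat_lit 10) (C.cons (nat_lit 1170) (C.miq (nat_lit 2473853601) (nat_lit 184975445787935164203140103)) (C.cons (nat_lit 1168) (C.node (nat_lit 1) (nat_lit 7) (nat_lit 10) (C.cons (nat_lit 1186) (C.miq (nat_lit 388605190) (nat_lit 778577779849657302299509873)) (C.cons (nat_lit 1154) (C.node (nat_lit 5) (nat_lit 7) (nat_lit 10) (C.cons (nat_lit 1184) (C.node (nat_lit 2) (nat_lit 5) (nat_lit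 6) (C.cons (nat_lit 358) (C.miq (nat_lit 2188596800) (nat_lit 1407195132815187203300328561)) (C.cons (nat_lit 356) (C.miq (nat_lit 2188596800) (nat_lit 1407195132814624253346907249)) (C.cons (nat_lit 102) (C.miq (nat_lit 309945610) (nat_lit 778577779544538427632452721)) (C.cons (nat_lit 100) (C.node (nat_lit 3) (nat_lit 4) (nat_lit 6) (C.cons (nat_lit 346) (C.miq (nat_lit 1201746070) (nat_lit 1395106778451805493289681485)) (C.cons (nat_lit 344) (C.miq (nat_lit 2233872500) (nat_lit 120898927725023050322935961)) (C.cons (nat_lit 90) (C.miq (nat_lit 1201746070) (nat_lit 1395102056085322623644467789)) (C.cons (nat_lit 88) (C.node (nat_lit 1) (nat_lit 2) (nat_lit 6) (C.cons (nat_lit 326) (C.node (nat_lit 1) (nat_lit 2) (nat_lit 7) (C.cons (nat_lit 134) (C.node (nat_lit 1) (nat_lit 4) (nat_lit 6) (C.cons (nat_lit 82) (C.node (nat_lit 2) (nat_lit 3) (nat_lit 8) (C.cons (nat_lit 268) (C.node (nat_lit 2) (nat_lit 7) (nat_lit 8) (C.cons (nat_lit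 388) (C.node (nat_lit 4) (nat_lit 6) (nat_lit 8) (C.cons (nat_lit 336) (C.node (nat_lit 4) (nat_lit 7) (nat_lit 8) (C.cons (nat_lit 434) (C.miq (nat_lit 846726725) (nat_lit 469068696859255683366913137)) (C.cons (nat_lit 432) (C.miq (nat_lit 846726725) (nat_lit 469068696859255683366782065)) (C.cons (nat_lit 402) (C.miq (nat_lit 1210282336) (nat_lit 323994942121718237218275523)) (C.cons (nat_lit 400) (C.node (nat_lit 1) (nat_lit 2) (nat_lit 9) (C.cons (nat_lit 550) (C.node (nat_lit 2) (nat_lit 8) (nat_lit 9) (C.cons (nat_lit 772) (C.node (nat_lit 1) (nat_lit 2) (nat_lit 3) (C.cons (nat_lit 30) (C.miq (nat_lit 2536770081) (nat_lit 184975446162859833107022855)) (C.cons (nat_lit 14) (C.node (nat_lit 1) (nat_lit 2) (nat_lit 4) (C.cons (nat_lit 22) (C.node (nat_lit 1) (nat_lit 4) (nat_lit 7) (C.cons (nat_lit 178) (C.miq (nat_lit 844564756) (nat_lit 199475582754048214914171411)) (C.cons (nat_lit 146) (C.node (nat_lit 1) (nat_lit 7) (nat_lit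 9) (C.cons (nat_lit 650) (C.miq (nat_lit 878801065) (nat_lit 99143907635118058453993345)) (C.cons (nat_lit 642) (C.node (nat_lit 3) (nat_lit 6) (nat_lit 7) (C.cons (nat_lit 456) (C.node (nat_lit 3) (nat_lit 6) (nat_lit 10) C.nil) (C.cons (nat_lit 232) (C.miq (nat_lit 925390400) (nat_lit 469068696758769116670919793)) C.nil))) C.nil))) C.nil))) C.nil)) C.nil))) C.nil)) (C.cons (nat_lit 518) (C.node (nat_lit 1) (nat_lit 3) (nat_lit 6) (C.cons (nat_lit 106) (C.node (nat_lit 1) (nat_lit 2) (nat_lit 3) (C.cons (nat_lit 30) (C.miq (nat_lit 2536770081) (nat_lit 184975446162859833107022855)) (C.cons (nat_lit 14) (C.node (nat_lit 1) (nat_lit 5) (nat_lit 10) (C.cons (nat_lit 1314) (C.node (nat_lit 2) (nat_lit 8) (nat_lit 10) (C.cons (nat_lit 1284) (C.node (nat_lit 1) (nat_lit 4) (nat_lit 8) (C.cons (nat_lit 282) (C.miq (nat_lit 2436408912) (nat_lit 340952517777614391292265585)) (C.cons (nat_lit 274) (C.node (nat_lit 1) (nat_lit 7) (nat_lit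 8) (C.cons (nat_lit 394) (C.miq (nat_lit 1158875783) (nat_lit 128148959551036662213117825)) (C.cons (nat_lit 386) (C.node (nat_lit 2) (nat_lit 5) (nat_lit 8) C.nil) C.nil))) C.nil))) C.nil)) (C.cons (nat_lit 1058) (C.miq (nat_lit 2316634467) (nat_lit 1279048996375987869381689933)) C.nil))) C.nil))) (C.cons (nat_lit 74) (C.node (nat_lit 1) (nat_lit 5) (nat_lit 6) (C.cons (nat_lit 98) (C.node (nat_lit 3) (nat_lit 5) (nat_lit 6) (C.cons (nat_lit 232) (C.miq (nat_lit 925390400) (nat_lit 469068696758769116670919793)) (C.cons (nat_lit 104) (C.node (nat_lit 1) (nat_lit 4) (nat_lit 7)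
  (C.cons (nat_lit 178) (C.node (nat_lit 4) (nat_lit 7) (nat_lit 9) (C.cons (nat_lit 656) (C.node (nat_lit 1) (nat_lit 7) (nat_lit 8) (C.cons (nat_lit 386) (C.node (nat_lit 1) (nat_lit 3) (nat_lit 7) C.nil) C.nil)) C.nil)) (C.cons (nat_lit 146) (C.node (nat_lit 2) (nat_lit 4) (nat_lit 10) (C.cons (nat_lit 1556) (C.node (nat_lit 3) (nat_lit 9) (nat_lit 10) (C.cons (nat_lit 1576) (C.miq (nat_lit 2207384996) (nat_lit 712062417584729838501233777)) (C.cons (nat_lit 1544) (C.node (nat_lit 5) (nat_lit 9) (nat_lit 10) (C.cons (nat_lit 1568) (C.node (nat_lit 1) (nat_lit 2) (nat_lit 3) (C.cons (nat_lit 14) (C.node (nat_lit 1) (nat_lit 2) (nat_lit 4) C.nil) C.nil)) C.nil)) C.nil))) (C.cons (nat_lit 1044) (C.node (nat_lit 2) (nat_lit 9) (nat_lit 10) (C.cons (nat_lit 1572) (C.miq (nat_lit 422013520) (nat_lit 778551825397845226263217265)) (C.cons (nat_lit 1540) (C.node (nat_lit 3) (nat_lit 6) (nat_lit 7) (C.cons (nat_lit 456) (C.node (nat_lit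 3) (nat_lit 6) (nat_lit 10) C.nil) C.nil)) C.nil))) C.nil))) C.nil))) C.nil))) C.nil)) C.nil))) C.nil))) C.nil))))) C.nil)) C.nil)) C.nil)) C.nil)) C.nil)) (C.cons (nat_lit 70) (C.node (nat_lit 2) (nat_lit 6) (nat_lit 8) (C.cons (nat_lit 324) (C.node (nat_lit 1) (nat_lit 2) (nat_lit 7) (C.cons (nat_lit 390) (C.node (nat_lit 2) (nat_lit 3) (nat_lit 8) (C.cons (nat_lit 268) (C.node (nat_lit 1) (nat_lit 4) (nat_lit 6) (C.cons (nat_lit 338) (C.miq (nat_lit 1384384278) (nat_lit 334893426027709135370453187)) (C.cons (nat_lit 82) (C.node (nat_lit 4) (nat_lit 6) (nat_lit 8) (C.cons (nat_lit 336) (C.node (nat_lit 2) (nat_lit 8) (nat_lit 10) (C.cons (nat_lit 1316) (C.miq (nat_lit 1377216624) (nat_lit 84645781691458594390869889)) (C.cons (nat_lit 1284) (C.node (nat_lit 2) (nat_lit 5) (nat_lit 10) (C.cons (nat_lit 1572) (C.miq (nat_lit 422013520) (nat_lit 778551825397845226263217265)) (C.cons (nat_lit 1060) (C.node (nat_lit 4) (nat_lit 7) (nat_lit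 8) (C.cons (nat_lit 432) (C.miq (nat_lit 846726725) (nat_lit 471486548498484941716194417)) (C.cons (nat_lit 400) (C.node (nat_lit 5) (nat_lit 7) (nat_lit 8) (C.cons (nat_lit 480) (C.miq (nat_lit 1479173904) (nat_lit 1552281726468305332008845507)) (C.cons (nat_lit 416) (C.node (nat_lit 5) (nat_lit 6) (nat_lit 7) (C.cons (nat_lit 232) (C.miq (nat_lit 925390400) (nat_lit 471486548397998375020332145)) (C.cons (nat_lit 224) (C.node (nat_lit 1) (nat_lit 2) (nat_lit 4) (C.cons (nat_lit 62) (C.miq (nat_lit 2536770081) (nat_lit 184975446162859833109120007)) (C.cons (nat_lit 54) (C.miq (nat_lit 1517371522) (nat_lit 1395101392279507347104465173)) (C.cons (nat_lit 30) (C.miq (nat_lit 2536770081) (nat_lit 184975446162859833107022855)) (C.cons (nat_lit 22) (C.node (nat_lit 1) (nat_lit 2) (nat_lit 3) (C.cons (nat_lit 46) (C.node (nat_lit 1) (nat_lit 2) (nat_lit 9) (C.cons (nat_lit 518) (C.node (nat_lit 3) (nat_lit 5) (nat_lit 6) C.nil) C.nil))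 (C.cons (nat_lit 14) (C.node (nat_lit 1) (nat_lit 2) (nat_lit 5) (C.cons (nat_lit 550) (C.node (nat_lit 3) (nat_lit 6) (nat_lit 7) C.nil) (C.cons (nat_lit 38) (C.node (nat_lit 1) (nat_lit 2) (nat_lit 9) (C.cons (nat_lit 518) (C.node (nat_lit 1) (nat_lit 4) (nat_lit 7) C.nil) C.nil)) C.nil))) C.nil))) C.nil))))) C.nil))) C.nil))) C.nil))) C.nil))) C.nil))) C.nil)) C.nil))) C.nil)) (C.cons (nat_lit 134) (C.node (nat_lit 2) (nat_lit 7) (nat_lit 8) (C.cons (nat_lit 388) (C.node (nat_lit 1) (nat_lit 4) (nat_lit 6) (C.cons (nat_lit 338) (C.node (nat_lit 4) (nat_lit 7) (nat_lit 8) (C.cons (nat_lit 432) (C.miq (nat_lit 846726725) (nat_lit 469068696859255683366782065)) (C.cons (nat_lit 400) (C.node (nat_lit 1) (nat_lit 3) (nat_lit 6) (C.cons (nat_lit 106) (C.node (nat_lit 1) (nat_lit 5) (nat_lit 10) (C.cons (nat_lit 1314) (C.node (nat_lit 2) (nat_lit 8) (nat_lit 10) (C.cons (nat_lit 1284) (C.node (nat_lit 1) (nat_lit 7) (nat_lit 8) (C.cons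 (nat_lit 394) (C.miq (nat_lit 1158875783) (nat_lit 128148959551036662213117825)) (C.cons (nat_lit 386) (C.node (nat_lit 1) (nat_lit 3) (nat_lit 7) (C.cons (nat_lit 650)
  (C.miq (nat_lit 1175653015) (nat_lit 128148959551037899180476289)) (C.cons (nat_lit 138) (C.node (nat_lit 1) (nat_lit 3) (nat_lit 9) (C.cons (nat_lit 778) (C.node (nat_lit 1) (nat_lit 2) (nat_lit 8) (C.cons (nat_lit 262) (C.node (nat_lit 6) (nat_lit 8) (nat_lit 9) (C.cons (nat_lit 864) (C.miq (nat_lit 358787216) (nat_lit 120911600924464742306482049)) C.nil)) C.nil)) (C.cons (nat_lit 522) (C.miq (nat_lit 2299726437) (nat_lit 631064757062546631739180145)) C.nil))) C.nil))) C.nil))) C.nil)) (C.cons (nat_lit 1058) (C.miq (nat_lit 2316634467) (nat_lit 1279048996375987869381689933)) C.nil))) (C.cons (nat_lit 74) (C.node (nat_lit 1) (nat_lit 5) (nat_lit 6) (C.cons (nat_lit 98) (C.node (nat_lit 3) (nat_lit 5) (nat_lit 6) (C.cons (nat_lit 232) (C.miq (nat_lit 925390400)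 (nat_lit 469068696758769116670919793)) (C.cons (nat_lit 104) (C.node (nat_lit 1) (nat_lit 4) (nat_lit 7) (C.cons (nat_lit 178) (C.node (nat_lit 4) (nat_lit 7) (nat_lit 9) (C.cons (nat_lit 656) (C.node (nat_lit 1) (nat_lit 2) (nat_lit 4) (C.cons (nat_lit 30) (C.miq (nat_lit 2536770081) (nat_lit 184975446162859833107022855)) (C.cons (nat_lit 22) (C.node (nat_lit 1) (nat_lit 7) (nat_lit 8) (C.cons (nat_lit 386) (C.node (nat_lit 1) (nat_lit 3) (nat_lit 7) C.nil) C.nil)) C.nil))) C.nil)) (C.cons (nat_lit 146) (C.node (nat_lit 1) (nat_lit 4) (nat_lit 10) (C.cons (nat_lit 1050) (C.node (nat_lit 4) (nat_lit 8) (nat_lit 10) (C.cons (nat_lit 1296) (C.node (nat_lit 3) (nat_lit 6) (nat_lit 7) (C.cons (nat_lit 456) (C.node (nat_lit 3) (nat_lit 6) (nat_lit 10) C.nil) C.nil)) C.nil)) (C.cons (nat_lit 1042) (C.node (nat_lit 2) (nat_lit 3) (nat_lit 8) (C.cons (nat_lit 270) (C.node (nat_lit 3) (nat_lit 6) (nat_lit 7) (C.cons (nat_lit 456) (C.node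 (nat_lit 3) (nat_lit 6) (nat_lit 10) C.nil) C.nil)) (C.cons (nat_lit 268) (C.node (nat_lit 2) (nat_lit 4) (nat_lit 10) (C.cons (nat_lit 1556) (C.node (nat_lit 3) (nat_lit 9) (nat_lit 10) (C.cons (nat_lit 1576) (C.miq (nat_lit 2207384996) (nat_lit 712062417584729838501233777)) (C.cons (nat_lit 1544) (C.node (nat_lit 5) (nat_lit 9) (nat_lit 10) (C.cons (nat_lit 1568) (C.node (nat_lit 3) (nat_lit 6) (nat_lit 10) (C.cons (nat_lit 1352) (C.node (nat_lit 3) (nat_lit 6) (nat_lit 7) C.nil) C.nil)) C.nil)) C.nil))) (C.cons (nat_lit 1044) (C.node (nat_lit 3) (nat_lit 6) (nat_lit 7) (C.cons (nat_lit 456) (C.node (nat_lit 3) (nat_lit 6) (nat_lit 10) C.nil) C.nil)) C.nil))) C.nil))) C.nil))) C.nil))) C.nil))) C.nil)) C.nil))) C.nil))) (C.cons (nat_lit 82) (C.node (nat_lit 4) (nat_lit 6) (nat_lit 8) (C.cons (nat_lit 336) (C.node (nat_lit 2) (nat_lit 3) (nat_lit 8) (C.cons (nat_lit 270) (C.node (nat_lit 1) (nat_lit 3) (nat_lit 6) (C.cons (nat_lit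 106) (C.miq (nat_lit 2436408912) (nat_lit 326445407942238841195791473)) (C.cons (nat_lit 74) (C.node (nat_lit 3) (nat_lit 5) (nat_lit 6) (C.cons (nat_lit 232) (C.miq (nat_lit 925390400) (nat_lit 469068696758769116670919793)) (C.cons (nat_lit 104) (C.node (nat_lit 1) (nat_lit 5) (nat_lit 10) (C.cons (nat_lit 1314) (C.miq (nat_lit 1398898842) (nat_lit 89484749756796011202873217)) (C.cons (nat_lit 1066) (C.miq (nat_lit 1161300498) (nat_lit 359056078493694909406381063)) (C.cons (nat_lit 1058) (C.node (nat_lit 1) (nat_lit 8) (nat_lit 10) (C.cons (nat_lit 1298) (C.miq (nat_lit 638847400) (nat_lit 99137027122303651776956289)) (C.cons (nat_lit 1282) (C.node (nat_lit 1) (nat_lit 2) (nat_lit 4) (C.cons (nat_lit 54) (C.node (nat_lit 1) (nat_lit 2) (nat_lit 9) (C.cons (nat_lit 518) (C.node (nat_lit 1) (nat_lit 7) (nat_lit 9) (C.cons (nat_lit 682) (C.miq (nat_lit 1175653015) (nat_lit 89463333323369765591975809)) (C.cons (nat_lit 674) (C.miq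 (nat_lit 2270300436) (nat_lit 199477870525238556444983827)) (C.cons (nat_lit 650) (C.miq (nat_lit 1175653015) (nat_lit 89463333323369765589878657)) C.nil)))) C.nil)) (C.cons (nat_lit 22) (C.node (nat_lit 1) (nat_lit 2) (nat_lit 5) (C.cons (nat_lit 550) (C.node (nat_lit 1) (nat_lit 7) (nat_lit 9) (C.cons (nat_lit 650) (C.miq (nat_lit 1175653015) (nat_lit 89463333323369765589878657)) C.nil))
  (C.cons (nat_lit 38) (C.node (nat_lit 1) (nat_lit 2) (nat_lit 9) C.nil) C.nil))) C.nil))) C.nil))) C.nil)))) C.nil))) C.nil))) (C.cons (nat_lit 268) (C.node (nat_lit 2) (nat_lit 4) (nat_lit 10) (C.cons (nat_lit 1556) (C.node (nat_lit 3) (nat_lit 9) (nat_lit 10) (C.cons (nat_lit 1576) (C.miq (nat_lit 2207384996) (nat_lit 712062417584729838501233777)) (C.cons (nat_lit 1544) (C.node (nat_lit 5) (nat_lit 9) (nat_lit 10) (C.cons (nat_lit 1568) (C.node (nat_lit 2) (nat_lit 3) (nat_lit 4) (C.cons (nat_lit 62) (C.miq (nat_lit 2453185616) (nat_lit 324027556290061544939127921))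 (C.cons (nat_lit 60) (C.miq (nat_lit 2453185616) (nat_lit 324027556290061536349193329)) (C.cons (nat_lit 30) (C.miq (nat_lit 2536770081) (nat_lit 184975446162859833107022855)) (C.cons (nat_lit 28) (C.node (nat_lit 1) (nat_lit 2) (nat_lit 3) (C.cons (nat_lit 46) (C.node (nat_lit 1) (nat_lit 2) (nat_lit 4) (C.cons (nat_lit 22) (C.node (nat_lit 2) (nat_lit 4) (nat_lit 5) (C.cons (nat_lit 52) (C.node (nat_lit 3) (nat_lit 5) (nat_lit 10) (C.cons (nat_lit 1064) (C.node (nat_lit 1) (nat_lit 2) (nat_lit 8) (C.cons (nat_lit 774) (C.miq (nat_lit 1629792640) (nat_lit 26617342430459886617036673)) (C.cons (nat_lit 262) (C.node (nat_lit 1) (nat_lit 2) (nat_lit 9) C.nil) C.nil))) C.nil)) C.nil)) C.nil)) (C.cons (nat_lit 14) (C.node (nat_lit 2) (nat_lit 3) (nat_lit 5) (C.cons (nat_lit 44) (C.node (nat_lit 1) (nat_lit 2) (nat_lit 4) (C.cons (nat_lit 54) (C.node (nat_lit 1) (nat_lit 2) (nat_lit 8) (C.cons (nat_lit 774) (C.miq (nat_lit 1629792640)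 (nat_lit 65302968658128020207634305)) (C.cons (nat_lit 262) (C.node (nat_lit 1) (nat_lit 2) (nat_lit 9) C.nil) C.nil))) (C.cons (nat_lit 22) (C.node (nat_lit 2) (nat_lit 4) (nat_lit 5) C.nil) C.nil))) C.nil)) C.nil))) C.nil))))) C.nil)) C.nil))) (C.cons (nat_lit 1044) (C.node (nat_lit 2) (nat_lit 9) (nat_lit 10) (C.cons (nat_lit 1572) (C.miq (nat_lit 422013520) (nat_lit 778551825397845226263217265)) (C.cons (nat_lit 1540) (C.node (nat_lit 4) (nat_lit 9) (nat_lit 10) (C.cons (nat_lit 1560) (C.miq (nat_lit 440887600) (nat_lit 1412028954875910862268858957)) (C.cons (nat_lit 1552) (C.node (nat_lit 2) (nat_lit 4) (nat_lit 9) (C.cons (nat_lit 564) (C.node (nat_lit 4) (nat_lit 7) (nat_lit 9) (C.cons (nat_lit 656) (C.node (nat_lit 1) (nat_lit 2) (nat_lit 4) (C.cons (nat_lit 30) (C.miq (nat_lit 2536770081) (nat_lit 184975446162859833107022855)) (C.cons (nat_lit 22) (C.node (nat_lit 2) (nat_lit 3) (nat_lit 4) C.nil) C.nil))) C.nil)) (C.cons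 (nat_lit 532) (C.node (nat_lit 2) (nat_lit 5) (nat_lit 10) (C.cons (nat_lit 1316) (C.node (nat_lit 1) (nat_lit 2) (nat_lit 8) (C.cons (nat_lit 774) (C.miq (nat_lit 1175587480) (nat_lit 84629917441176388883580801)) (C.cons (nat_lit 262) (C.node (nat_lit 2) (nat_lit 8) (nat_lit 9) C.nil) C.nil))) (C.cons (nat_lit 1060) (C.node (nat_lit 2) (nat_lit 8) (nat_lit 10) (C.cons (nat_lit 1284) (C.node (nat_lit 4) (nat_lit 7) (nat_lit 9) (C.cons (nat_lit 688) (C.node (nat_lit 1) (nat_lit 7) (nat_lit 9) (C.cons (nat_lit 650) (C.miq (nat_lit 878801065) (nat_lit 99143907635118058453993345)) C.nil)) C.nil)) C.nil)) C.nil))) C.nil))) C.nil))) C.nil))) C.nil))) C.nil))) C.nil)) C.nil))) C.nil)) C.nil))) C.nil)) C.nil))) C.nil))))) C.nil))))) C.nil)) C.nil))) C.nil))) C.nil)) (C.cons (nat_lit 1156) (C.node (nat_lit 4) (nat_lit 7) (nat_lit 9) (C.cons (nat_lit 688) (C.node (nat_lit 1) (nat_lit 7) (nat_lit 9) (C.cons (nat_lit 650) (C.node (nat_lit 2)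 (nat_lit 3) (nat_lit 7) (C.cons (nat_lit 396) (C.miq (nat_lit 2236035170) (nat_lit 831748268889121012655063629)) (C.cons (nat_lit 140) (C.node (nat_lit 2) (nat_lit 4) (nat_lit 9) (C.cons (nat_lit 1556) (C.miq (nat_lit 967078240) (nat_lit 1881091397855171888878256323)) (C.cons (nat_lit 532) (C.node (nat_lit 2) (nat_lit 4) (nat_lit 10) (C.cons (nat_lit 1052) (C.miq (nat_lit 2588087815) (nat_lit 1271801953069165599077761219)) (C.cons (nat_lit 1044) (C.node (nat_lit 2) (nat_lit 9) (nat_lit 10) (C.cons (nat_lit 1572) (C.miq (nat_lit 422013520) (nat_lit 778551825397845226263217265))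
  (C.cons (nat_lit 1540) (C.node (nat_lit 3) (nat_lit 5) (nat_lit 9) (C.cons (nat_lit 1576) (C.miq (nat_lit 1134167830) (nat_lit 1905288065703735850367582403)) (C.cons (nat_lit 552) (C.node (nat_lit 5) (nat_lit 9) (nat_lit 10) (C.cons (nat_lit 1568) (C.node (nat_lit 3) (nat_lit 8) (nat_lit 9) (C.cons (nat_lit 792) (C.miq (nat_lit 2755223665) (nat_lit 957498801138830094761590979)) (C.cons (nat_lit 776) (C.node (nat_lit 4) (nat_lit 8) (nat_lit 9) (C.cons (nat_lit 784) (C.node (nat_lit 3) (nat_lit 4) (nat_lit 9) (C.cons (nat_lit 1560) (C.node (nat_lit 3) (nat_lit 7) (nat_lit 8) (C.cons (nat_lit 456) (C.miq (nat_lit 2742438160) (nat_lit 551291148131386466836349459)) (C.cons (nat_lit 392) (C.node (nat_lit 4) (nat_lit 7) (nat_lit 8) (C.cons (nat_lit 402) (C.miq (nat_lit 2708760880) (nat_lit 486009153884018440421311053)) (C.cons (nat_lit 400) (C.node (nat_lit 1) (nat_lit 4) (nat_lit 7) (C.cons (nat_lit 1170) (C.node (nat_lit 4) (nat_lit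 8) (nat_lit 10) (C.cons (nat_lit 1296) (C.node (nat_lit 5) (nat_lit 7) (nat_lit 10) (C.cons (nat_lit 1192) (C.miq (nat_lit 1671891265) (nat_lit 1441043174261527811120562707)) (C.cons (nat_lit 1184) (C.node (nat_lit 3) (nat_lit 5) (nat_lit 7) (C.cons (nat_lit 232) (C.miq (nat_lit 2205287780) (nat_lit 169254724577755566534034545)) (C.cons (nat_lit 168) (C.node (nat_lit 3) (nat_lit 5) (nat_lit 6) (C.cons (nat_lit 106) (C.miq (nat_lit 1175653015) (nat_lit 128148959551037899180476289)) (C.cons (nat_lit 104) (C.node (nat_lit 3) (nat_lit 6) (nat_lit 7) (C.cons (nat_lit 1224) (C.node (nat_lit 6) (nat_lit 8) (nat_lit 10) (C.cons (nat_lit 1344) (C.node (nat_lit 1) (nat_lit 2) (nat_lit 4) (C.cons (nat_lit 62) (C.miq (nat_lit 1630841200) (nat_lit 74974375215044521021212545)) (C.cons (nat_lit 54) (C.miq (nat_lit 2807171393) (nat_lit 199491779370270193576444435)) (C.cons (nat_lit 30) (C.miq (nat_lit 1630841200) (nat_lit 36288748987376387430614913))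 (C.cons (nat_lit 22) (C.node (nat_lit 1) (nat_lit 4) (nat_lit 6) (C.cons (nat_lit 82) (C.miq (nat_lit 878801065) (nat_lit 99143907635118058453993345)) C.nil)) C.nil))))) C.nil)) (C.cons (nat_lit 200) (C.miq (nat_lit 2808299785) (nat_lit 241813941173007382150447635)) C.nil))) C.nil))) C.nil))) C.nil))) C.nil)) (C.cons (nat_lit 146) (C.miq (nat_lit 2708760880) (nat_lit 176524144062673371696529997)) C.nil))) C.nil))) C.nil))) (C.cons (nat_lit 536) (C.miq (nat_lit 2755223665) (nat_lit 648013791317485026036809923)) C.nil))) C.nil)) C.nil))) C.nil)) C.nil))) C.nil))) C.nil))) C.nil))) C.nil))) (C.cons (nat_lit 642) (C.node (nat_lit 3) (nat_lit 7) (nat_lit 9) (C.cons (nat_lit 648) (C.node (nat_lit 4) (nat_lit 7) (nat_lit 10) (C.cons (nat_lit 1170) (C.miq (nat_lit 957810340) (nat_lit 776133198710230849619625073)) (C.cons (nat_lit 1168) (C.node (nat_lit 6) (nat_lit 7) (nat_lit 10) (C.cons (nat_lit 1224) (C.miq (nat_lit 443848240) (nat_lit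 1412035152981918185569190477)) (C.cons (nat_lit 1216) (C.node (nat_lit 3) (nat_lit 4) (nat_lit 6) (C.cons (nat_lit 346) (C.miq (nat_lit 932266150) (nat_lit 776136758809115355840119921)) (C.cons (nat_lit 344) (C.miq (nat_lit 2222274080) (nat_lit 831746442674683066467025485)) (C.cons (nat_lit 90) (C.miq (nat_lit 932266150) (nat_lit 776132036442632486194906225)) (C.cons (nat_lit 88) (C.node (nat_lit 2) (nat_lit 5) (nat_lit 6) (C.cons (nat_lit 358) (C.miq (nat_lit 663834790) (nat_lit 776136980173421940075267185)) (C.cons (nat_lit 356) (C.miq (nat_lit 2202423410) (nat_lit 106392039250576333201473701)) (C.cons (nat_lit 102) (C.miq (nat_lit 663834790) (nat_lit 776132257806939070430053489)) (C.cons (nat_lit 100) (C.node (nat_lit 1) (nat_lit 2) (nat_lit 6) (C.cons (nat_lit 326) (C.node (nat_lit 1) (nat_lit 4) (nat_lit 6) (C.cons (nat_lit 82) (C.node (nat_lit 4) (nat_lit 6) (nat_lit 8) (C.cons (nat_lit 336) (C.node (nat_lit 1) (nat_lit 4)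 (nat_lit 7) (C.cons (nat_lit 402) (C.miq (nat_lit 880936726) (nat_lit 334883317208579094354460867)) (C.cons (nat_lit 146) (C.node (nat_lit 4) (nat_lit 7) (nat_lit 8) (C.cons (nat_lit 400)
  (C.node (nat_lit 2) (nat_lit 7) (nat_lit 8) (C.cons (nat_lit 396) (C.miq (nat_lit 1417152035) (nat_lit 483575806848879520698335821)) (C.cons (nat_lit 388) (C.node (nat_lit 1) (nat_lit 2) (nat_lit 7) (C.cons (nat_lit 142) (C.node (nat_lit 1) (nat_lit 2) (nat_lit 4) (C.cons (nat_lit 54) (C.miq (nat_lit 2807171393) (nat_lit 199491779370270193576444435)) (C.cons (nat_lit 22) (C.node (nat_lit 1) (nat_lit 7) (nat_lit 10) (C.cons (nat_lit 1186) (C.miq (nat_lit 1382117530) (nat_lit 394131695079286431480416129)) (C.cons (nat_lit 1154) (C.node (nat_lit 2) (nat_lit 4) (nat_lit 5) (C.cons (nat_lit 60) (C.miq (nat_lit 323383888) (nat_lit 106389069281151445202174117)) (C.cons (nat_lit 52) (C.node (nat_lit 2) (nat_lit 3) (nat_lit 4) (C.cons (nat_lit 1052) (C.miq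 (nat_lit 1681328673) (nat_lit 184969247836174203927528455)) (C.cons (nat_lit 28) (C.node (nat_lit 2) (nat_lit 3) (nat_lit 5) (C.cons (nat_lit 1068) (C.miq (nat_lit 979444999) (nat_lit 1936701782760914563153199269)) (C.cons (nat_lit 44) (C.node (nat_lit 3) (nat_lit 6) (nat_lit 7) (C.cons (nat_lit 456) (C.node (nat_lit 3) (nat_lit 6) (nat_lit 10) C.nil) (C.cons (nat_lit 232) (C.miq (nat_lit 925390400) (nat_lit 469068696758769116670919793)) C.nil))) C.nil))) C.nil))) C.nil))) C.nil))) C.nil))) (C.cons (nat_lit 134) (C.node (nat_lit 2) (nat_lit 3) (nat_lit 7) (C.cons (nat_lit 140) (C.node (nat_lit 1) (nat_lit 2) (nat_lit 9) (C.cons (nat_lit 550) (C.node (nat_lit 2) (nat_lit 8) (nat_lit 9) (C.cons (nat_lit 772) (C.node (nat_lit 1) (nat_lit 2) (nat_lit 3) (C.cons (nat_lit 30) (C.node (nat_lit 2) (nat_lit 4) (nat_lit 5) (C.cons (nat_lit 52) (C.node (nat_lit 3) (nat_lit 4) (nat_lit 5) (C.cons (nat_lit 56) (C.node (nat_lit 3) (nat_lit 6)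 (nat_lit 7) C.nil) C.nil)) C.nil)) (C.cons (nat_lit 14) (C.node (nat_lit 1) (nat_lit 2) (nat_lit 4) (C.cons (nat_lit 22) (C.node (nat_lit 3) (nat_lit 6) (nat_lit 7) (C.cons (nat_lit 456) (C.node (nat_lit 3) (nat_lit 6) (nat_lit 10) C.nil) (C.cons (nat_lit 232) (C.miq (nat_lit 925390400) (nat_lit 469068696758769116670919793)) C.nil))) C.nil)) C.nil))) C.nil)) (C.cons (nat_lit 518) (C.node (nat_lit 1) (nat_lit 3) (nat_lit 6) (C.cons (nat_lit 106) (C.node (nat_lit 1) (nat_lit 2) (nat_lit 5) (C.cons (nat_lit 54) (C.miq (nat_lit 2807171393) (nat_lit 199491779370270193576444435)) (C.cons (nat_lit 38) (C.node (nat_lit 1) (nat_lit 3) (nat_lit 7) C.nil) C.nil))) (C.cons (nat_lit 74) (C.node (nat_lit 1) (nat_lit 5) (nat_lit 6) (C.cons (nat_lit 98) (C.node (nat_lit 3) (nat_lit 5) (nat_lit 6) (C.cons (nat_lit 232) (C.miq (nat_lit 925390400) (nat_lit 469068696758769116670919793)) (C.cons (nat_lit 104) (C.node (nat_lit 1) (nat_lit 7) (nat_lit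 8) C.nil) C.nil))) C.nil)) C.nil))) C.nil))) C.nil)) C.nil))) C.nil))) C.nil)) C.nil))) C.nil)) C.nil)) (C.cons (nat_lit 70) (C.node (nat_lit 2) (nat_lit 6) (nat_lit 8) (C.cons (nat_lit 324) (C.node (nat_lit 1) (nat_lit 4) (nat_lit 6) (C.cons (nat_lit 338) (C.node (nat_lit 1) (nat_lit 4) (nat_lit 7) (C.cons (nat_lit 146) (C.node (nat_lit 4) (nat_lit 5) (nat_lit 8) (C.cons (nat_lit 304) (C.node (nat_lit 4) (nat_lit 7) (nat_lit 8) (C.cons (nat_lit 400) (C.node (nat_lit 2) (nat_lit 7) (nat_lit 8) (C.cons (nat_lit 398) (C.miq (nat_lit 1417152035) (nat_lit 483575806848879520698466893)) (C.cons (nat_lit 396) (C.miq (nat_lit 1417152035) (nat_lit 483575806848879520698335821)) (C.cons (nat_lit 390) (C.miq (nat_lit 675639648) (nat_lit 367516492985396123877310659)) (C.cons (nat_lit 388) (C.node (nat_lit 1) (nat_lit 2) (nat_lit 7) (C.cons (nat_lit 142) (C.node (nat_lit 1) (nat_lit 2) (nat_lit 4) (C.cons (nat_lit 54) (C.miq (nat_lit 2807171393)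 (nat_lit 199491779370270193576444435)) (C.cons (nat_lit 22) (C.node (nat_lit 1) (nat_lit 4) (nat_lit 10) (C.cons (nat_lit 1050) (C.miq (nat_lit 1412893202) (nat_lit 184968694433851984051045383)) (C.cons (nat_lit 1042) (C.node (nat_lit 1) (nat_lit 7) (nat_lit 10) (C.cons (nat_lit 1186) (C.miq (nat_lit 1382117530) (nat_lit 84646685257941362755635073)) (C.cons (nat_lit 1154)
  (C.node (nat_lit 2) (nat_lit 4) (nat_lit 5) (C.cons (nat_lit 60) (C.miq (nat_lit 323383888) (nat_lit 106389069281151445202174117)) (C.cons (nat_lit 52) (C.node (nat_lit 3) (nat_lit 6) (nat_lit 7) C.nil) C.nil))) C.nil))) C.nil))) C.nil))) (C.cons (nat_lit 134) (C.node (nat_lit 2) (nat_lit 3) (nat_lit 7) (C.cons (nat_lit 140) (C.node (nat_lit 1) (nat_lit 3) (nat_lit 6) (C.cons (nat_lit 106) (C.node (nat_lit 1) (nat_lit 3) (nat_lit 9) (C.cons (nat_lit 778) (C.node (nat_lit 4) (nat_lit 8) (nat_lit 9) (C.cons (nat_lit 784) (C.node (nat_lit 1) (nat_lit 2) (nat_lit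 8) (C.cons (nat_lit 294) (C.miq (nat_lit 2706937392) (nat_lit 355459627612989941388739149)) (C.cons (nat_lit 262) (C.node (nat_lit 1) (nat_lit 7) (nat_lit 8) (C.cons (nat_lit 418) (C.miq (nat_lit 588581255) (nat_lit 128149180757714957389399937)) C.nil)) C.nil))) C.nil)) (C.cons (nat_lit 522) (C.miq (nat_lit 2299726437) (nat_lit 631064757062546631739180145)) C.nil))) (C.cons (nat_lit 74) (C.node (nat_lit 1) (nat_lit 5) (nat_lit 6) (C.cons (nat_lit 98) (C.node (nat_lit 3) (nat_lit 5) (nat_lit 6) (C.cons (nat_lit 232) (C.miq (nat_lit 925390400) (nat_lit 469068696758769116670919793)) (C.cons (nat_lit 104) (C.node (nat_lit 3) (nat_lit 6) (nat_lit 7) (C.cons (nat_lit 456) (C.node (nat_lit 3) (nat_lit 6) (nat_lit 10) C.nil) C.nil)) C.nil))) C.nil)) C.nil))) C.nil)) C.nil))) C.nil))))) C.nil)) C.nil)) C.nil)) (C.cons (nat_lit 82) (C.node (nat_lit 4) (nat_lit 6) (nat_lit 8) (C.cons (nat_lit 336) (C.node (nat_lit 1) (nat_lit 4) (nat_lit 7)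 (C.cons (nat_lit 402) (C.node (nat_lit 4) (nat_lit 5) (nat_lit 8) (C.cons (nat_lit 304) (C.node (nat_lit 2) (nat_lit 7) (nat_lit 8) (C.cons (nat_lit 396) (C.miq (nat_lit 1417152035) (nat_lit 485993658488108779047748173)) (C.cons (nat_lit 388) (C.node (nat_lit 3) (nat_lit 7) (nat_lit 8) (C.cons (nat_lit 456) (C.miq (nat_lit 2257679108) (nat_lit 1936706578742108688269639833)) (C.cons (nat_lit 392) (C.node (nat_lit 3) (nat_lit 6) (nat_lit 7) (C.cons (nat_lit 232) (C.miq (nat_lit 925390400) (nat_lit 469068696758769116670919793)) (C.cons (nat_lit 200) (C.node (nat_lit 4) (nat_lit 8) (nat_lit 9) (C.cons (nat_lit 792) (C.miq (nat_lit 873896048) (nat_lit 99142782563588915396282241)) (C.cons (nat_lit 784) (C.node (nat_lit 3) (nat_lit 4) (nat_lit 9) (C.cons (nat_lit 1560) (C.miq (nat_lit 423062080) (nat_lit 783387528676303691421647985)) (C.cons (nat_lit 536) (C.node (nat_lit 1) (nat_lit 2) (nat_lit 4) (C.cons (nat_lit 62) (C.miq (nat_lit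 2807171393) (nat_lit 199491779370270193576968723)) (C.cons (nat_lit 54) (C.miq (nat_lit 2807171393) (nat_lit 199491779370270193576444435)) (C.cons (nat_lit 30) (C.miq (nat_lit 963715204) (nat_lit 776130929760711153389011221)) (C.cons (nat_lit 22) (C.node (nat_lit 1) (nat_lit 2) (nat_lit 7) (C.cons (nat_lit 142) (C.node (nat_lit 5) (nat_lit 6) (nat_lit 7) C.nil) (C.cons (nat_lit 134) (C.node (nat_lit 2) (nat_lit 3) (nat_lit 7) C.nil) C.nil))) C.nil))))) C.nil))) C.nil))) C.nil))) C.nil))) C.nil))) C.nil)) (C.cons (nat_lit 146) (C.node (nat_lit 4) (nat_lit 7) (nat_lit 8) (C.cons (nat_lit 400) (C.node (nat_lit 2) (nat_lit 4) (nat_lit 9) (C.cons (nat_lit 1556) (C.node (nat_lit 3) (nat_lit 9) (nat_lit 10) (C.cons (nat_lit 1576) (C.miq (nat_lit 2207384996) (nat_lit 712062417584729838501233777)) (C.cons (nat_lit 1544) (C.node (nat_lit 5) (nat_lit 9) (nat_lit 10) (C.cons (nat_lit 1568) (C.node (nat_lit 2) (nat_lit 4) (nat_lit 5) (C.cons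 (nat_lit 62) (C.miq (nat_lit 2300774981) (nat_lit 712062786976726588873114737)) (C.cons (nat_lit 60) (C.miq (nat_lit 2300774981) (nat_lit 712062786976726588872983665)) (C.cons (nat_lit 54) (C.miq (nat_lit 2807171393) (nat_lit 199491779370270193576444435)) (C.cons (nat_lit 52) (C.node (nat_lit 1) (nat_lit 2) (nat_lit 4) (C.cons (nat_lit 30) (C.node (nat_lit 3) (nat_lit 4) (nat_lit 5) (C.cons (nat_lit 56) (C.node (nat_lit 1) (nat_lit 4) (nat_lit 10) (C.cons (nat_lit 1298) (C.miq (nat_lit 1631754880) (nat_lit 36278640171626777743263617)) (C.cons (nat_lit 1042)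
  (C.node (nat_lit 2) (nat_lit 3) (nat_lit 7) (C.cons (nat_lit 396) (C.miq (nat_lit 1417152035) (nat_lit 483575806848879520698335821)) (C.cons (nat_lit 140) (C.node (nat_lit 2) (nat_lit 3) (nat_lit 8) (C.cons (nat_lit 1292) (C.miq (nat_lit 430129282) (nat_lit 1866582019036781120383090965)) C.nil)) C.nil))) C.nil))) C.nil)) (C.cons (nat_lit 22) (C.node (nat_lit 2) (nat_lit 3) (nat_lit 4) (C.cons (nat_lit 28) (C.node (nat_lit 1) (nat_lit 4) (nat_lit 10) (C.cons (nat_lit 1306) (C.miq (nat_lit 1631754880) (nat_lit 26607233614709778705352577)) (C.cons (nat_lit 1042) (C.node (nat_lit 3) (nat_lit 4) (nat_lit 10) C.nil) C.nil))) C.nil)) C.nil))) C.nil))))) C.nil)) C.nil))) (C.cons (nat_lit 532) (C.node (nat_lit 2) (nat_lit 9) (nat_lit 10) (C.cons (nat_lit 1572) (C.miq (nat_lit 422013520) (nat_lit 778551825397845226263217265)) (C.cons (nat_lit 1540) (C.node (nat_lit 4) (nat_lit 9) (nat_lit 10) (C.cons (nat_lit 1560) (C.miq (nat_lit 423062080)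 (nat_lit 783387528676303691421647985)) (C.cons (nat_lit 1552) (C.node (nat_lit 2) (nat_lit 4) (nat_lit 10) (C.cons (nat_lit 1052) (C.node (nat_lit 1) (nat_lit 2) (nat_lit 4) (C.cons (nat_lit 54) (C.miq (nat_lit 2807171393) (nat_lit 199491779370270193576444435)) (C.cons (nat_lit 22) (C.node (nat_lit 2) (nat_lit 4) (nat_lit 5) (C.cons (nat_lit 52) (C.node (nat_lit 1) (nat_lit 4) (nat_lit 10) C.nil) C.nil)) C.nil))) (C.cons (nat_lit 1044) (C.node (nat_lit 3) (nat_lit 4) (nat_lit 9) (C.cons (nat_lit 792) (C.node (nat_lit 4) (nat_lit 8) (nat_lit 10) (C.cons (nat_lit 1298) (C.miq (nat_lit 638847400) (nat_lit 99137027122303651776956289)) (C.cons (nat_lit 1296) (C.node (nat_lit 1) (nat_lit 2) (nat_lit 4) (C.cons (nat_lit 62) (C.miq (nat_lit 2220331808) (nat_lit 831776400313158916100129357)) (C.cons (nat_lit 54) (C.miq (nat_lit 2807171393) (nat_lit 199491779370270193576444435)) (C.cons (nat_lit 30) (C.miq (nat_lit 444866707) (nat_lit 1566768415913090573378519629))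 C.nil)))) C.nil))) (C.cons (nat_lit 536) (C.node (nat_lit 4) (nat_lit 8) (nat_lit 9) (C.cons (nat_lit 784) (C.node (nat_lit 4) (nat_lit 5) (nat_lit 8) C.nil) C.nil)) C.nil))) C.nil))) C.nil))) C.nil))) C.nil))) C.nil)) C.nil))) C.nil)) C.nil))) C.nil)) C.nil))) C.nil))))) C.nil))))) C.nil))) C.nil))) C.nil)) C.nil))) (C.cons (nat_lit 656) (C.node (nat_lit 4) (nat_lit 7) (nat_lit 10) (C.cons (nat_lit 1170) (C.node (nat_lit 4) (nat_lit 8) (nat_lit 10) (C.cons (nat_lit 1304) (C.miq (nat_lit 2471125105) (nat_lit 1576468820627271945007792323)) (C.cons (nat_lit 1296) (C.node (nat_lit 5) (nat_lit 7) (nat_lit 10) (C.cons (nat_lit 1192) (C.miq (nat_lit 1785958720) (nat_lit 1441050442563825328987898387)) (C.cons (nat_lit 1184) (C.node (nat_lit 3) (nat_lit 7) (nat_lit 10) (C.cons (nat_lit 1224) (C.node (nat_lit 6) (nat_lit 8) (nat_lit 10) (C.cons (nat_lit 1344) (C.node (nat_lit 3) (nat_lit 5) (nat_lit 6) (C.cons (nat_lit 106) (C.miq (nat_lit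 1130459290) (nat_lit 128167719612785133971703681)) (C.cons (nat_lit 104) (C.node (nat_lit 4) (nat_lit 5) (nat_lit 7) (C.cons (nat_lit 432) (C.miq (nat_lit 1466139680) (nat_lit 1479730682012894102087860501)) (C.cons (nat_lit 176) (C.node (nat_lit 4) (nat_lit 7) (nat_lit 8) (C.cons (nat_lit 400) (C.node (nat_lit 3) (nat_lit 4) (nat_lit 10) (C.cons (nat_lit 1560) (C.node (nat_lit 2) (nat_lit 4) (nat_lit 10) (C.cons (nat_lit 1044) (C.node (nat_lit 2) (nat_lit 9) (nat_lit 10) (C.cons (nat_lit 1572) (C.miq (nat_lit 1922237860) (nat_lit 712060130151309984411419761)) (C.cons (nat_lit 1540) (C.node (nat_lit 5) (nat_lit 9) (nat_lit 10) (C.cons (nat_lit 1568) (C.node (nat_lit 3) (nat_lit 8) (nat_lit 9) (C.cons (nat_lit 778) (C.miq (nat_lit 324442122) (nat_lit 125757837142916324431824769)) (C.cons (nat_lit 776) (C.node (nat_lit 1) (nat_lit 3) (nat_lit 6) (C.cons (nat_lit 346) (C.miq (nat_lit 2222274080) (nat_lit 212776423032555878970884685))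 (C.cons (nat_lit 330) (C.miq (nat_lit 1130470000) (nat_lit 398955316133036988146321281)) (C.cons (nat_lit 90) (C.node (nat_lit 3) (nat_lit 4) (nat_lit 8) (C.cons (nat_lit 280)
  (C.node (nat_lit 3) (nat_lit 6) (nat_lit 8) (C.cons (nat_lit 328) (C.node (nat_lit 4) (nat_lit 6) (nat_lit 8) (C.cons (nat_lit 336) (C.node (nat_lit 2) (nat_lit 3) (nat_lit 4) (C.cons (nat_lit 60) (C.miq (nat_lit 2033322565) (nat_lit 712060352006508876392039537)) (C.cons (nat_lit 28) (C.node (nat_lit 3) (nat_lit 4) (nat_lit 5) (C.cons (nat_lit 56) (C.node (nat_lit 2) (nat_lit 3) (nat_lit 7) (C.cons (nat_lit 398) (C.miq (nat_lit 1663346560) (nat_lit 33870897241748505560942465)) (C.cons (nat_lit 396) (C.miq (nat_lit 1663346560) (nat_lit 33870897241748496971007873)) (C.cons (nat_lit 142) (C.miq (nat_lit 2436343360) (nat_lit 171702903031566238104487025)) (C.cons (nat_lit 140) (C.node (nat_lit 5) (nat_lit 6) (nat_lit 7) (C.cons (nat_lit 480) (C.node (nat_lit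 1) (nat_lit 2) (nat_lit 7) C.nil) C.nil)) C.nil))))) C.nil)) C.nil))) C.nil)) C.nil)) C.nil)) (C.cons (nat_lit 74) (C.miq (nat_lit 1130470000) (nat_lit 89470306311691919421540225)) C.nil))))) C.nil))) C.nil)) C.nil))) C.nil)) (C.cons (nat_lit 1052) (C.miq (nat_lit 880159248) (nat_lit 256303139186677500587738119)) (C.cons (nat_lit 1048) (C.miq (nat_lit 2486833270) (nat_lit 1266983810789601327637332163)) C.nil)))) C.nil)) C.nil))) C.nil))) C.nil)) (C.cons (nat_lit 1160) (C.miq (nat_lit 1785958720) (nat_lit 1402364816336157195397300755)) C.nil))) C.nil))) C.nil))) (C.cons (nat_lit 1168) (C.node (nat_lit 6) (nat_lit 7) (nat_lit 10) (C.cons (nat_lit 1224) (C.miq (nat_lit 443848240) (nat_lit 1412035152981918185569190477)) (C.cons (nat_lit 1216) (C.node (nat_lit 3) (nat_lit 6) (nat_lit 10) (C.cons (nat_lit 1352) (C.node (nat_lit 3) (nat_lit 4) (nat_lit 6) (C.cons (nat_lit 90) (C.miq (nat_lit 343565065) (nat_lit 1412054909019226363918352973))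 (C.cons (nat_lit 88) (C.node (nat_lit 1) (nat_lit 3) (nat_lit 6) (C.cons (nat_lit 106) (C.miq (nat_lit 1351694502) (nat_lit 641941565653846223801681224)) (C.cons (nat_lit 74) (C.node (nat_lit 3) (nat_lit 5) (nat_lit 6) (C.cons (nat_lit 232) (C.miq (nat_lit 2204370290) (nat_lit 106390581957794849449312421)) (C.cons (nat_lit 104) (C.node (nat_lit 3) (nat_lit 6) (nat_lit 7) (C.cons (nat_lit 200) (C.node (nat_lit 4) (nat_lit 8) (nat_lit 10) (C.cons (nat_lit 1298) (C.miq (nat_lit 338077705) (nat_lit 256321825807663177254373249)) (C.cons (nat_lit 1296) (C.node (nat_lit 1) (nat_lit 8) (nat_lit 10) (C.cons (nat_lit 1314) (C.miq (nat_lit 1398898842) (nat_lit 89484749756796011202873217)) (C.cons (nat_lit 1282) (C.node (nat_lit 2) (nat_lit 5) (nat_lit 6) (C.cons (nat_lit 358) (C.miq (nat_lit 309945610) (nat_lit 778577779616596021670380657)) (C.cons (nat_lit 356) (C.miq (nat_lit 1450410560) (nat_lit 241790642706121728930152725)) (C.cons (nat_lit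 102) (C.miq (nat_lit 309945610) (nat_lit 778577779544538427632452721)) (C.cons (nat_lit 100) (C.node (nat_lit 1) (nat_lit 2) (nat_lit 6) (C.cons (nat_lit 326) (C.node (nat_lit 1) (nat_lit 4) (nat_lit 6) (C.cons (nat_lit 82) (C.node (nat_lit 1) (nat_lit 5) (nat_lit 6) (C.cons (nat_lit 98) (C.node (nat_lit 4) (nat_lit 6) (nat_lit 8) (C.cons (nat_lit 336) (C.node (nat_lit 2) (nat_lit 3) (nat_lit 8) (C.cons (nat_lit 396) (C.miq (nat_lit 1446120071) (nat_lit 712060351785831601319708545)) (C.cons (nat_lit 268) (C.node (nat_lit 2) (nat_lit 7) (nat_lit 8) (C.cons (nat_lit 388) (C.node (nat_lit 4) (nat_lit 7) (nat_lit 8) (C.cons (nat_lit 434) (C.miq (nat_lit 846726725) (nat_lit 469068696859255683366913137)) (C.cons (nat_lit 432) (C.miq (nat_lit 846726725) (nat_lit 469068696859255683366782065)) (C.cons (nat_lit 402) (C.miq (nat_lit 1210282336) (nat_lit 323994942121718237218275523)) (C.cons (nat_lit 400) (C.node (nat_lit 1) (nat_lit 2) (nat_lit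 7) (C.cons (nat_lit 142) (C.node (nat_lit 3) (nat_lit 7) (nat_lit 8) C.nil) C.nil)) C.nil))))) C.nil)) C.nil))) C.nil)) C.nil)) C.nil)) (C.cons (nat_lit 70) (C.node (nat_lit 2) (nat_lit 6) (nat_lit 8) (C.cons (nat_lit 324) (C.node (nat_lit 1) (nat_lit 4) (nat_lit 6) (C.cons (nat_lit 338) (C.node (nat_lit 1) (nat_lit 5) (nat_lit 6) (C.cons (nat_lit 98)
  (C.node (nat_lit 4) (nat_lit 7) (nat_lit 8) (C.cons (nat_lit 432) (C.miq (nat_lit 1466139680) (nat_lit 241790642727513827188736277)) (C.cons (nat_lit 400) (C.node (nat_lit 2) (nat_lit 7) (nat_lit 8) (C.cons (nat_lit 398) (C.miq (nat_lit 1446120071) (nat_lit 712060351785831601319839617)) (C.cons (nat_lit 396) (C.miq (nat_lit 1446120071) (nat_lit 712060351785831601319708545)) (C.cons (nat_lit 390) (C.miq (nat_lit 1384384278) (nat_lit 334893426027709135370453187)) (C.cons (nat_lit 388) (C.node (nat_lit 1) (nat_lit 2) (nat_lit 7) (C.cons (nat_lit 142) (C.node (nat_lit 3) (nat_lit 7)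 (nat_lit 8) C.nil) C.nil)) C.nil))))) C.nil))) C.nil)) (C.cons (nat_lit 82) (C.node (nat_lit 4) (nat_lit 6) (nat_lit 8) (C.cons (nat_lit 336) (C.node (nat_lit 1) (nat_lit 4) (nat_lit 10) (C.cons (nat_lit 1050) (C.node (nat_lit 1) (nat_lit 5) (nat_lit 10) (C.cons (nat_lit 1186) (C.miq (nat_lit 1382117530) (nat_lit 84646685257941362755635073)) (C.cons (nat_lit 1058) (C.node (nat_lit 1) (nat_lit 7) (nat_lit 10) (C.cons (nat_lit 1154) (C.node (nat_lit 2) (nat_lit 3) (nat_lit 7) (C.cons (nat_lit 398) (C.miq (nat_lit 1446120071) (nat_lit 712060351785831601319839617)) (C.cons (nat_lit 396) (C.miq (nat_lit 1446120071) (nat_lit 712060351785831601319708545)) (C.cons (nat_lit 142) (C.miq (nat_lit 1412893202) (nat_lit 184968694433851984051045383)) (C.cons (nat_lit 140) (C.node (nat_lit 3) (nat_lit 7) (nat_lit 10) C.nil) C.nil))))) C.nil)) C.nil))) (C.cons (nat_lit 1042) (C.node (nat_lit 1) (nat_lit 5) (nat_lit 6) (C.cons (nat_lit 354) (C.node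 (nat_lit 5) (nat_lit 6) (nat_lit 7) (C.cons (nat_lit 224) (C.node (nat_lit 5) (nat_lit 6) (nat_lit 9) C.nil) C.nil)) (C.cons (nat_lit 98) (C.node (nat_lit 1) (nat_lit 6) (nat_lit 8) C.nil) C.nil))) C.nil))) C.nil)) C.nil))) C.nil)) C.nil))) C.nil))))) C.nil))) C.nil))) C.nil)) C.nil))) C.nil))) C.nil))) (C.cons (nat_lit 1096) (C.node (nat_lit 6) (nat_lit 8) (nat_lit 10) (C.cons (nat_lit 1344) (C.node (nat_lit 5) (nat_lit 6) (nat_lit 9) (C.cons (nat_lit 864) (C.node (nat_lit 2) (nat_lit 5) (nat_lit 6) (C.cons (nat_lit 102) (C.miq (nat_lit 309945610) (nat_lit 778577779544538427632452721)) (C.cons (nat_lit 100) (C.node (nat_lit 1) (nat_lit 5) (nat_lit 6) (C.cons (nat_lit 106) (C.miq (nat_lit 815880342) (nat_lit 1246404475461160811154768736)) (C.cons (nat_lit 98) (C.node (nat_lit 2) (nat_lit 8) (nat_lit 9) (C.cons (nat_lit 774) (C.miq (nat_lit 306616330) (nat_lit 256321825660170289493903233)) (C.cons (nat_lit 772) (C.node (nat_lit 1)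 (nat_lit 8) (nat_lit 9) (C.cons (nat_lit 778) (C.miq (nat_lit 895582377) (nat_lit 118489081972725956718233473)) (C.cons (nat_lit 770) (C.node (nat_lit 3) (nat_lit 5) (nat_lit 6) (C.cons (nat_lit 232) (C.miq (nat_lit 643319600) (nat_lit 1044517017954821716006469785)) (C.cons (nat_lit 104) (C.node (nat_lit 5) (nat_lit 6) (nat_lit 7) (C.cons (nat_lit 224) (C.node (nat_lit 3) (nat_lit 4) (nat_lit 6) (C.cons (nat_lit 346) (C.miq (nat_lit 343565065) (nat_lit 1412054909091283957956280909)) (C.cons (nat_lit 344) (C.miq (nat_lit 913671200) (nat_lit 270804862373495129403359509)) (C.cons (nat_lit 90) (C.miq (nat_lit 343565065) (nat_lit 1412054909019226363918352973)) (C.cons (nat_lit 88) (C.node (nat_lit 1) (nat_lit 2) (nat_lit 6) (C.cons (nat_lit 326) (C.node (nat_lit 1) (nat_lit 3) (nat_lit 6) (C.cons (nat_lit 74) (C.node (nat_lit 1) (nat_lit 4) (nat_lit 6) (C.cons (nat_lit 82) (C.node (nat_lit 4) (nat_lit 6) (nat_lit 8) (C.cons (nat_lit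 336) (C.node (nat_lit 3) (nat_lit 6) (nat_lit 7) (C.cons (nat_lit 456) (C.node (nat_lit 2) (nat_lit 7) (nat_lit 8) (C.cons (nat_lit 388) (C.node (nat_lit 2) (nat_lit 3) (nat_lit 8) (C.cons (nat_lit 1292) (C.miq (nat_lit 593602672) (nat_lit 89479529608290181904009089)) (C.cons (nat_lit 268) (C.node (nat_lit 4) (nat_lit 7) (nat_lit 8) (C.cons (nat_lit 434) (C.miq (nat_lit 911477127) (nat_lit 1374551479419469121365084033)) (C.cons (nat_lit 432) (C.miq (nat_lit 911477127) (nat_lit 1374551479419469121364952961)) (C.cons (nat_lit 402)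
  (C.miq (nat_lit 1210282336) (nat_lit 323994942121718237218275523)) C.nil)))) C.nil))) C.nil)) C.nil)) C.nil)) C.nil)) C.nil)) (C.cons (nat_lit 70) (C.node (nat_lit 2) (nat_lit 6) (nat_lit 8) (C.cons (nat_lit 324) (C.node (nat_lit 1) (nat_lit 2) (nat_lit 9) (C.cons (nat_lit 550) (C.node (nat_lit 1) (nat_lit 3) (nat_lit 9) (C.cons (nat_lit 650) (C.miq (nat_lit 323393290) (nat_lit 106415023993052842142271361)) (C.cons (nat_lit 522) (C.node (nat_lit 1) (nat_lit 7) (nat_lit 9) (C.cons (nat_lit 642) (C.node (nat_lit 4) (nat_lit 5) (nat_lit 7) (C.cons (nat_lit 434) (C.miq (nat_lit 911477127) (nat_lit 1374551479419469121365084033)) (C.cons (nat_lit 432) (C.miq (nat_lit 911477127) (nat_lit 1374551479419469121364952961)) (C.cons (nat_lit 178) (C.miq (nat_lit 844564756) (nat_lit 199475582754048214914171411)) (C.cons (nat_lit 176) (C.node (nat_lit 3) (nat_lit 7) (nat_lit 9) (C.cons (nat_lit 680) (C.node (nat_lit 4) (nat_lit 5) (nat_lit 9)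 C.nil) C.nil)) C.nil))))) C.nil)) C.nil))) (C.cons (nat_lit 518) (C.node (nat_lit 1) (nat_lit 3) (nat_lit 6) (C.cons (nat_lit 330) (C.node (nat_lit 1) (nat_lit 4) (nat_lit 6) (C.cons (nat_lit 82) (C.node (nat_lit 3) (nat_lit 6) (nat_lit 7) C.nil) C.nil)) (C.cons (nat_lit 74) (C.node (nat_lit 1) (nat_lit 4) (nat_lit 6) (C.cons (nat_lit 338) (C.node (nat_lit 3) (nat_lit 6) (nat_lit 7) (C.cons (nat_lit 456) (C.node (nat_lit 2) (nat_lit 7) (nat_lit 8) (C.cons (nat_lit 390) (C.miq (nat_lit 1384384278) (nat_lit 334893426027709135370453187)) (C.cons (nat_lit 388) (C.node (nat_lit 1) (nat_lit 2) (nat_lit 7) (C.cons (nat_lit 142) (C.node (nat_lit 1) (nat_lit 4) (nat_lit 7) (C.cons (nat_lit 178) (C.miq (nat_lit 1094080288) (nat_lit 89481484649597522466898085)) C.nil)) C.nil)) C.nil))) C.nil)) C.nil)) C.nil))) C.nil))) C.nil)) C.nil))) C.nil))))) C.nil)) C.nil))) C.nil))) C.nil))) C.nil))) C.nil))) (C.cons (nat_lit 608) (C.node (nat_lit 6)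 (nat_lit 8) (nat_lit 9) (C.cons (nat_lit 832) (C.node (nat_lit 2) (nat_lit 9) (nat_lit 10) (C.cons (nat_lit 1572) (C.miq (nat_lit 422013520) (nat_lit 778551825397845226263217265)) (C.cons (nat_lit 1556) (C.node (nat_lit 3) (nat_lit 9) (nat_lit 10) (C.cons (nat_lit 1576) (C.miq (nat_lit 2207384996) (nat_lit 712062417584729838501233777)) (C.cons (nat_lit 1544) (C.node (nat_lit 5) (nat_lit 9) (nat_lit 10) (C.cons (nat_lit 1568) (C.ref (nat_lit 99) (nat_lit 11649936536080)) C.nil)) C.nil))) (C.cons (nat_lit 1540) (C.node (nat_lit 4) (nat_lit 9) (nat_lit 10) (C.cons (nat_lit 1560) (C.miq (nat_lit 440887600) (nat_lit 1412028954875910862268858957)) (C.cons (nat_lit 1552) (C.node (nat_lit 2) (nat_lit 4) (nat_lit 9) (C.cons (nat_lit 564) (C.node (nat_lit 1) (nat_lit 2) (nat_lit 9) (C.cons (nat_lit 774) (C.miq (nat_lit 306616330) (nat_lit 256321825660170289493903233)) (C.cons (nat_lit 518) (C.node (nat_lit 2) (nat_lit 8) (nat_lit 9) (C.cons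 (nat_lit 772) (C.node (nat_lit 1) (nat_lit 2) (nat_lit 4) (C.cons (nat_lit 30) (C.node (nat_lit 2) (nat_lit 4) (nat_lit 10) (C.cons (nat_lit 1044) (C.node (nat_lit 3) (nat_lit 4) (nat_lit 5) (C.cons (nat_lit 56) (C.node (nat_lit 1) (nat_lit 4) (nat_lit 10) (C.cons (nat_lit 1298) (C.miq (nat_lit 1631754880) (nat_lit 36278640171626777743263617)) (C.cons (nat_lit 1042) (C.node (nat_lit 2) (nat_lit 3) (nat_lit 7) (C.cons (nat_lit 396) (C.miq (nat_lit 2182705984) (nat_lit 626259010867207728207691929)) (C.cons (nat_lit 140) (C.node (nat_lit 2) (nat_lit 3) (nat_lit 8) (C.cons (nat_lit 1292) (C.miq (nat_lit 832185352) (nat_lit 1936722996224425700674830613)) (C.cons (nat_lit 268) (C.node (nat_lit 3) (nat_lit 4) (nat_lit 9) (C.cons (nat_lit 792) (C.miq (nat_lit 2216334112) (nat_lit 1259736140456737506563916365)) (C.cons (nat_lit 536) (C.node (nat_lit 4) (nat_lit 8) (nat_lit 9) (C.cons (nat_lit 784) (C.node (nat_lit 2) (nat_lit 5) (nat_lit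 6) (C.cons (nat_lit 358) (C.miq (nat_lit 2188596800) (nat_lit 169255093529806928401204337)) (C.cons (nat_lit 356) (C.miq (nat_lit 2188596800) (nat_lit 169255093529243978447783025)) (C.cons (nat_lit 102)
  (C.miq (nat_lit 2031225445) (nat_lit 626226618813870385379279985)) C.nil)))) C.nil)) C.nil))) C.nil))) C.nil))) C.nil))) C.nil)) C.nil)) (C.cons (nat_lit 22) (C.node (nat_lit 2) (nat_lit 3) (nat_lit 4) (C.cons (nat_lit 1052) (C.node (nat_lit 1) (nat_lit 4) (nat_lit 10) (C.cons (nat_lit 1298) (C.miq (nat_lit 1631754880) (nat_lit 26607233614709744345614209)) (C.cons (nat_lit 1042) (C.node (nat_lit 4) (nat_lit 8) (nat_lit 10) (C.cons (nat_lit 1296) (C.node (nat_lit 2) (nat_lit 3) (nat_lit 5) (C.cons (nat_lit 46) (C.node (nat_lit 3) (nat_lit 4) (nat_lit 5) (C.cons (nat_lit 56) (C.node (nat_lit 3) (nat_lit 8) (nat_lit 10) (C.cons (nat_lit 1290) (C.miq (nat_lit 2016741906) (nat_lit 359054012679035997735748615)) (C.cons (nat_lit 1288)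 (C.node (nat_lit 1) (nat_lit 8) (nat_lit 10) (C.cons (nat_lit 1314) (C.miq (nat_lit 1632868992) (nat_lit 55621453285460913259349889)) (C.cons (nat_lit 1282) (C.node (nat_lit 2) (nat_lit 5) (nat_lit 10) (C.cons (nat_lit 1060) (C.node (nat_lit 2) (nat_lit 8) (nat_lit 10) C.nil) C.nil)) C.nil))) C.nil))) C.nil)) (C.cons (nat_lit 44) (C.node (nat_lit 2) (nat_lit 5) (nat_lit 10) (C.cons (nat_lit 1316) (C.node (nat_lit 1) (nat_lit 2) (nat_lit 5) (C.cons (nat_lit 102) (C.miq (nat_lit 2031225445) (nat_lit 626226618813870385379279985)) (C.cons (nat_lit 38) (C.node (nat_lit 2) (nat_lit 5) (nat_lit 6) C.nil) C.nil))) (C.cons (nat_lit 1060) (C.node (nat_lit 2) (nat_lit 8) (nat_lit 10) (C.cons (nat_lit 1284) (C.node (nat_lit 3) (nat_lit 8) (nat_lit 10) (C.cons (nat_lit 1288) (C.node (nat_lit 1) (nat_lit 8) (nat_lit 10) C.nil) C.nil)) C.nil)) C.nil))) C.nil))) C.nil)) C.nil))) (C.cons (nat_lit 28) (C.node (nat_lit 2) (nat_lit 4) (nat_lit 10)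 (C.cons (nat_lit 1044) (C.node (nat_lit 3) (nat_lit 4) (nat_lit 5) (C.cons (nat_lit 58) (C.node (nat_lit 1) (nat_lit 4) (nat_lit 10) (C.cons (nat_lit 1298) (C.miq (nat_lit 1631754880) (nat_lit 26607233614709744345614209)) (C.cons (nat_lit 1042) (C.node (nat_lit 5) (nat_lit 8) (nat_lit 9) (C.cons (nat_lit 802) (C.miq (nat_lit 2018707732) (nat_lit 359053791318105017277874707)) (C.cons (nat_lit 800) (C.node (nat_lit 1) (nat_lit 8) (nat_lit 9) (C.cons (nat_lit 778) (C.miq (nat_lit 1630906752) (nat_lit 70138671936586554087638913)) (C.cons (nat_lit 770) (C.node (nat_lit 3) (nat_lit 9) (nat_lit 10) (C.cons (nat_lit 1544) (C.node (nat_lit 5) (nat_lit 9) (nat_lit 10) C.nil) C.nil)) C.nil))) C.nil))) C.nil))) (C.cons (nat_lit 56) (C.node (nat_lit 3) (nat_lit 4) (nat_lit 9) (C.cons (nat_lit 792) (C.node (nat_lit 3) (nat_lit 4) (nat_lit 6) (C.cons (nat_lit 90) (C.miq (nat_lit 343565065) (nat_lit 1412054909019226363918352973)) (C.cons (nat_lit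 88) (C.node (nat_lit 1) (nat_lit 3) (nat_lit 4) (C.cons (nat_lit 26) (C.node (nat_lit 3) (nat_lit 4) (nat_lit 10) (C.cons (nat_lit 1048) (C.node (nat_lit 1) (nat_lit 4) (nat_lit 6) C.nil) C.nil)) C.nil)) C.nil))) (C.cons (nat_lit 536) (C.node (nat_lit 4) (nat_lit 8) (nat_lit 9) (C.cons (nat_lit 784) (C.node (nat_lit 3) (nat_lit 8) (nat_lit 9) (C.cons (nat_lit 776) (C.node (nat_lit 1) (nat_lit 8) (nat_lit 9) C.nil) C.nil)) C.nil)) C.nil))) C.nil))) C.nil)) C.nil))) C.nil))) C.nil)) C.nil))) (C.cons (nat_lit 532) (C.node (nat_lit 2) (nat_lit 4) (nat_lit 10) (C.cons (nat_lit 1052) (C.node (nat_lit 1) (nat_lit 4) (nat_lit 10) (C.cons (nat_lit 1298) (C.miq (nat_lit 338077705) (nat_lit 256321825807663177254373249)) (C.cons (nat_lit 1042) (C.node (nat_lit 4) (nat_lit 8) (nat_lit 10) (C.cons (nat_lit 1296) (C.node (nat_lit 1) (nat_lit 2) (nat_lit 4) (C.cons (nat_lit 54) (C.node (nat_lit 5) (nat_lit 2) (nat_lit 3) (C.cons (nat_lit 44) (C.node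 (nat_lit 1) (nat_lit 2) (nat_lit 9) (C.cons (nat_lit 774) (C.miq (nat_lit 1629792640) (nat_lit 65302968658128020207634305)) (C.cons (nat_lit 518) (C.node (nat_lit 4) (nat_lit 5) (nat_lit 7) (C.cons (nat_lit 432) (C.miq (nat_lit 2216326432) (nat_lit 1259736140355406618027294885)) (C.cons (nat_lit 176) (C.node (nat_lit 4) (nat_lit 5) (nat_lit 8) (C.cons (nat_lit 816)
  (C.miq (nat_lit 1370046984) (nat_lit 1936714215581004161852965141)) (C.cons (nat_lit 304) (C.node (nat_lit 5) (nat_lit 2) (nat_lit 10) (C.cons (nat_lit 1316) (C.miq (nat_lit 2182718784) (nat_lit 626259011126164809860711537)) (C.cons (nat_lit 1060) (C.node (nat_lit 2) (nat_lit 8) (nat_lit 10) (C.cons (nat_lit 1284) (C.node (nat_lit 4) (nat_lit 3) (nat_lit 6) (C.cons (nat_lit 346) (C.miq (nat_lit 2222274080) (nat_lit 212776423032555878970884685)) (C.cons (nat_lit 344) (C.miq (nat_lit 2222274080) (nat_lit 212776423031992929017463373)) (C.cons (nat_lit 90) (C.miq (nat_lit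 2048133475) (nat_lit 1259703526931007188409909837)) C.nil)))) C.nil)) C.nil))) C.nil))) C.nil))) C.nil))) C.nil)) (C.cons (nat_lit 22) (C.node (nat_lit 2) (nat_lit 4) (nat_lit 5) (C.cons (nat_lit 52) (C.node (nat_lit 5) (nat_lit 2) (nat_lit 3) (C.cons (nat_lit 46) (C.node (nat_lit 1) (nat_lit 2) (nat_lit 9) (C.cons (nat_lit 774) (C.miq (nat_lit 1629792640) (nat_lit 26617342430459886617036673)) (C.cons (nat_lit 518) (C.node (nat_lit 3) (nat_lit 8) (nat_lit 10) (C.cons (nat_lit 1290) (C.miq (nat_lit 2016741906) (nat_lit 359054012679035997735748615)) (C.cons (nat_lit 1288) (C.node (nat_lit 1) (nat_lit 8) (nat_lit 10) (C.cons (nat_lit 1314) (C.miq (nat_lit 1632868992) (nat_lit 55621453285460913259349889)) (C.cons (nat_lit 1282) (C.node (nat_lit 5) (nat_lit 10) (nat_lit 9) (C.cons (nat_lit 1568) (C.node (nat_lit 3) (nat_lit 10) (nat_lit 9) C.nil) C.nil)) C.nil))) C.nil))) C.nil))) (C.cons (nat_lit 44) (C.node (nat_lit 5) (nat_lit 2)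 (nat_lit 10) (C.cons (nat_lit 1316) (C.node (nat_lit 5) (nat_lit 2) (nat_lit 6) (C.cons (nat_lit 102) (C.miq (nat_lit 309945610) (nat_lit 778577779544538427632452721)) (C.cons (nat_lit 100) (C.node (nat_lit 1) (nat_lit 5) (nat_lit 2) (C.cons (nat_lit 38) (C.node (nat_lit 5) (nat_lit 2) (nat_lit 9) (C.cons (nat_lit 548) (C.node (nat_lit 1) (nat_lit 2) (nat_lit 6) C.nil) C.nil)) C.nil)) C.nil))) (C.cons (nat_lit 1060) (C.node (nat_lit 2) (nat_lit 8) (nat_lit 10) (C.cons (nat_lit 1284) (C.node (nat_lit 5) (nat_lit 8) (nat_lit 10) (C.cons (nat_lit 1312) (C.node (nat_lit 1) (nat_lit 8) (nat_lit 10) C.nil) C.nil)) C.nil)) C.nil))) C.nil))) C.nil)) C.nil))) C.nil)) C.nil))) (C.cons (nat_lit 1044) (C.node (nat_lit 3) (nat_lit 9) (nat_lit 10) (C.cons (nat_lit 1576) (C.node (nat_lit 3) (nat_lit 7) (nat_lit 9) (C.cons (nat_lit 650) (C.miq (nat_lit 390763270) (nat_lit 1412054909176852350824940109)) (C.cons (nat_lit 648) (C.node (nat_lit 1)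 (nat_lit 3) (nat_lit 9) (C.cons (nat_lit 778) (C.miq (nat_lit 369662547) (nat_lit 388079540114113107199591976)) (C.cons (nat_lit 522) (C.node (nat_lit 5) (nat_lit 7) (nat_lit 10) (C.cons (nat_lit 1186) (C.miq (nat_lit 388605190) (nat_lit 778577779849657302299509873)) (C.cons (nat_lit 1184) (C.node (nat_lit 1) (nat_lit 5) (nat_lit 10) (C.cons (nat_lit 1314) (C.miq (nat_lit 2207338602) (nat_lit 631083516944149881471239281)) (C.cons (nat_lit 1058) (C.node (nat_lit 1) (nat_lit 7) (nat_lit 9) (C.cons (nat_lit 674) (C.node (nat_lit 1) (nat_lit 2) (nat_lit 9) (C.cons (nat_lit 774) (C.miq (nat_lit 306616330) (nat_lit 256321825660170289493903233)) (C.cons (nat_lit 518) (C.node (nat_lit 1) (nat_lit 7) (nat_lit 10) C.nil) C.nil))) (C.cons (nat_lit 642) (C.node (nat_lit 5) (nat_lit 7) (nat_lit 9) (C.cons (nat_lit 672) (C.node (nat_lit 3) (nat_lit 4) (nat_lit 9) C.nil) C.nil)) C.nil))) C.nil))) C.nil))) C.nil))) C.nil))) (C.cons (nat_lit 1544)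 (C.node (nat_lit 5) (nat_lit 9) (nat_lit 10) (C.cons (nat_lit 1568) (C.ref (nat_lit 100) (nat_lit 11649936536080)) C.nil)) C.nil))) C.nil))) C.nil))) C.nil))) C.nil)))) C.nil)) C.nil))) C.nil)) C.nil))) C.nil))) C.nil))) C.nil))) C.nil))) List.nil)

theorem ok11_101 : okL par11 (nat_lit 102) c11_101 (nat_lit 101) = true := by decide +kernel

noncomputable def c11_102 : List C :=
  (List.cons (C.node (nat_lit 1) (nat_lit 2) (nat_lit 3) (C.cons (nat_lit 270) (C.node (nat_lit 2) (nat_lit 7) (nat_lit 8) (C.cons (nat_lit 388) (C.node (nat_lit 3) (nat_lit 8) (nat_lit 10) (C.cons (nat_lit 1288) (C.node (nat_lit 1) (nat_lit 2) (nat_lit 6) (C.cons (nat_lit 102) (C.miq (nat_lit 1469456545) (nat_lit 851085658623046079261836295)) (C.cons (nat_lit 70) (C.node (nat_lit 1) (nat_lit 8) (nat_lit 10) (C.cons (nat_lit 1314) (C.miq (nat_lit 2441308752) (nat_lit 326420836879137848393532529)) (C.cons (nat_lit 1282) (C.node (nat_lit 1) (nat_lit 3) (nat_lit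 6) (C.cons (nat_lit 106) (C.miq (nat_lit 2436408912) (nat_lit 326445407942238841195791473)) (C.cons (nat_lit 90) (C.miq (nat_lit 2048133475) (nat_lit 1259703526931007188409909837)) (C.cons (nat_lit 74) (C.node (nat_lit 3) (nat_lit 4) (nat_lit 6) (C.cons (nat_lit 344) (C.miq (nat_lit 1209688864) (nat_lit 1549863874790794961430708813)) (C.cons (nat_lit 88) (C.node (nat_lit 1) (nat_lit 5) (nat_lit 10) (C.cons (nat_lit 1194) (C.miq (nat_lit 1382117530) (nat_lit 84646832831893952432048001)) (C.cons (nat_lit 1186) (C.miq (nat_lit 1382117530) (nat_lit 84646685257941362755635073)) (C.cons (nat_lit 1066) (C.miq (nat_lit 1161300498) (nat_lit 359056078493694909406381063)) (C.cons (nat_lit 1058) (C.node (nat_lit 1) (nat_lit 3) (nat_lit 4) (C.cons (nat_lit 58) (C.node (nat_lit 1) (nat_lit 3) (nat_lit 9) (C.cons (nat_lit 650) (C.miq (nat_lit 1630841200) (nat_lit 70138671936586004322387841)) (C.cons (nat_lit 522) (C.node (nat_lit 1) (nat_lit 5)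 (nat_lit 6) (C.cons (nat_lit 354) (C.miq (nat_lit 2258769219) (nat_lit 1474894480650394519922802746)) (C.cons (nat_lit 98) (C.node (nat_lit 1) (nat_lit 3) (nat_lit 7) (C.cons (nat_lit 138) (C.node (nat_lit 1) (nat_lit 3) (nat_lit 10) C.nil) C.nil)) C.nil))) C.nil))) (C.cons (nat_lit 26) (C.node (nat_lit 1) (nat_lit 3) (nat_lit 10) (C.cons (nat_lit 1162) (C.node (nat_lit 5) (nat_lit 7) (nat_lit 10) (C.cons (nat_lit 1184) (C.node (nat_lit 2) (nat_lit 5) (nat_lit 10) (C.cons (nat_lit 1316) (C.node (nat_lit 1) (nat_lit 5) (nat_lit 6) (C.cons (nat_lit 354) (C.miq (nat_lit 1175692674) (nat_lit 89479916946286670332691748)) C.nil)) C.nil)) C.nil)) (C.cons (nat_lit 1034) (C.node (nat_lit 1) (nat_lit 7) (nat_lit 10) C.nil) C.nil))) C.nil))) C.nil))))) C.nil))) C.nil)))) C.nil))) C.nil))) C.nil)) C.nil)) (C.cons (nat_lit 14) (C.node (nat_lit 2) (nat_lit 3) (nat_lit 8) (C.cons (nat_lit 268) (C.node (nat_lit 2) (nat_lit 5) (nat_lit 10) (C.cons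 (nat_lit 1316) (C.node (nat_lit 2) (nat_lit 5) (nat_lit 6) (C.cons (nat_lit 102) (C.miq (nat_lit 1469456545) (nat_lit 851085658623046079261836295)) (C.cons (nat_lit 100) (C.node (nat_lit 2) (nat_lit 7) (nat_lit 8) (C.cons (nat_lit 390) (C.miq (nat_lit 374501544) (nat_lit 120899776246544168118388609)) (C.cons (nat_lit 388) (C.node (nat_lit 2) (nat_lit 8) (nat_lit 9) (C.cons (nat_lit 774) (C.miq (nat_lit 306616330) (nat_lit 101579320749497755131512705)) (C.cons (nat_lit 772) (C.node (nat_lit 5) (nat_lit 7) (nat_lit 10) (C.cons (nat_lit 1194) (C.miq (nat_lit 1112737959) (nat_lit 53195558492861182052534145)) (C.cons (nat_lit 1192) (C.miq (nat_lit 1112737959) (nat_lit 53195558492861182052403073)) (C.cons (nat_lit 1186) (C.miq (nat_lit 354854665) (nat_lit 120922133979299031259350913)) (C.cons (nat_lit 1184) (C.node (nat_lit 1) (nat_lit 2) (nat_lit 6) (C.cons (nat_lit 326) (C.node (nat_lit 1) (nat_lit 4) (nat_lit 6) (C.cons (nat_lit 90)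 (C.miq (nat_lit 2048133475) (nat_lit 1259703526931007188409909837)) (C.cons (nat_lit 82) (C.node (nat_lit 1) (nat_lit 3) (nat_lit 6) (C.cons (nat_lit 106) (C.miq (nat_lit 361390857) (nat_lit 1590975930326695699877528141)) (C.cons (nat_lit 74) (C.node (nat_lit 1) (nat_lit 5) (nat_lit 6) (C.cons (nat_lit 98) (C.node (nat_lit 1) (nat_lit 5) (nat_lit 10) (C.cons (nat_lit 1066) (C.node (nat_lit 1) (nat_lit 7) (nat_lit 10) C.nil) (C.cons (nat_lit 1058) (C.node (nat_lit 1) (nat_lit 7) (nat_lit 10) (C.cons (nat_lit 1154)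
  (C.node (nat_lit 1) (nat_lit 3) (nat_lit 10) C.nil) C.nil)) C.nil))) C.nil)) C.nil))) C.nil))) (C.cons (nat_lit 70) (C.node (nat_lit 1) (nat_lit 2) (nat_lit 8) (C.cons (nat_lit 262) (C.node (nat_lit 2) (nat_lit 6) (nat_lit 8) (C.cons (nat_lit 324) (C.node (nat_lit 1) (nat_lit 5) (nat_lit 10) (C.cons (nat_lit 1066) (C.node (nat_lit 1) (nat_lit 7) (nat_lit 10) (C.cons (nat_lit 1154) (C.node (nat_lit 1) (nat_lit 8) (nat_lit 10) C.nil) C.nil)) (C.cons (nat_lit 1058) (C.node (nat_lit 4) (nat_lit 6) (nat_lit 7) (C.cons (nat_lit 464) (C.node (nat_lit 1) (nat_lit 8) (nat_lit 10) C.nil) C.nil)) C.nil))) C.nil)) C.nil)) C.nil))) C.nil))))) C.nil))) C.nil))) C.nil))) (C.cons (nat_lit 1060) (C.node (nat_lit 2) (nat_lit 8) (nat_lit 10) (C.cons (nat_lit 1284) (C.node (nat_lit 2) (nat_lit 7) (nat_lit 8) (C.cons (nat_lit 390) (C.node (nat_lit 1) (nat_lit 2) (nat_lit 4) (C.cons (nat_lit 54) (C.miq (nat_lit 2169139792) (nat_lit 1259736140343584669012394149))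 (C.cons (nat_lit 22) (C.node (nat_lit 1) (nat_lit 2) (nat_lit 6) (C.cons (nat_lit 102) (C.miq (nat_lit 2435294800) (nat_lit 471516506295994324972012657)) (C.cons (nat_lit 70) (C.node (nat_lit 4) (nat_lit 6) (nat_lit 7) (C.cons (nat_lit 464) (C.miq (nat_lit 1210738448) (nat_lit 1552281726463801732381475011)) (C.cons (nat_lit 208) (C.node (nat_lit 4) (nat_lit 7) (nat_lit 8) (C.cons (nat_lit 432) (C.miq (nat_lit 440934487) (nat_lit 1566775056740953741539147941)) (C.cons (nat_lit 400) (C.node (nat_lit 5) (nat_lit 7) (nat_lit 8) (C.cons (nat_lit 480) (C.miq (nat_lit 1479173904) (nat_lit 1552281726468305332008845507)) (C.cons (nat_lit 416) (C.node (nat_lit 1) (nat_lit 4) (nat_lit 6) (C.cons (nat_lit 346) (C.miq (nat_lit 2048133475) (nat_lit 1259703526931007188426687053)) (C.cons (nat_lit 338) (C.miq (nat_lit 1384384278) (nat_lit 334893426027709135370453187)) (C.cons (nat_lit 90) (C.miq (nat_lit 2048133475) (nat_lit 1259703526931007188409909837))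 (C.cons (nat_lit 82) (C.node (nat_lit 1) (nat_lit 2) (nat_lit 5) (C.cons (nat_lit 550) (C.node (nat_lit 2) (nat_lit 5) (nat_lit 6) C.nil) (C.cons (nat_lit 38) (C.node (nat_lit 1) (nat_lit 2) (nat_lit 9) (C.cons (nat_lit 518) (C.node (nat_lit 1) (nat_lit 4) (nat_lit 7) C.nil) C.nil)) C.nil))) C.nil))))) C.nil))) C.nil))) C.nil))) C.nil))) C.nil))) (C.cons (nat_lit 388) (C.node (nat_lit 3) (nat_lit 8) (nat_lit 10) (C.cons (nat_lit 1290) (C.node (nat_lit 5) (nat_lit 8) (nat_lit 10) (C.cons (nat_lit 1312) (C.node (nat_lit 1) (nat_lit 5) (nat_lit 10) (C.cons (nat_lit 1186) (C.miq (nat_lit 1519546720) (nat_lit 1861748806253137294078574787)) (C.cons (nat_lit 1058) (C.node (nat_lit 1) (nat_lit 7) (nat_lit 10) (C.cons (nat_lit 1154) (C.node (nat_lit 1) (nat_lit 2) (nat_lit 7) (C.cons (nat_lit 646) (C.miq (nat_lit 342003879) (nat_lit 101561685593768563136792449)) (C.cons (nat_lit 150) (C.node (nat_lit 2) (nat_lit 7) (nat_lit 9) C.nil) C.nil)))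 C.nil)) C.nil))) C.nil)) (C.cons (nat_lit 1288) (C.node (nat_lit 1) (nat_lit 8) (nat_lit 10) (C.cons (nat_lit 1314) (C.node (nat_lit 3) (nat_lit 9) (nat_lit 10) (C.cons (nat_lit 1576) (C.miq (nat_lit 1635818067) (nat_lit 313122652863376927471765032)) (C.cons (nat_lit 1544) (C.node (nat_lit 5) (nat_lit 9) (nat_lit 10) (C.cons (nat_lit 1568) (C.node (nat_lit 1) (nat_lit 5) (nat_lit 6) (C.cons (nat_lit 106) (C.node (nat_lit 1) (nat_lit 3) (nat_lit 4) C.nil) (C.cons (nat_lit 102) (C.miq (nat_lit 907348392) (nat_lit 123315912449477709463160705)) (C.cons (nat_lit 98) (C.miq (nat_lit 907348392) (nat_lit 118480209171019192764336001)) C.nil)))) C.nil)) C.nil))) (C.cons (nat_lit 1282) (C.node (nat_lit 5) (nat_lit 8) (nat_lit 10) (C.cons (nat_lit 1312) (C.node (nat_lit 3) (nat_lit 9) (nat_lit 10) (C.cons (nat_lit 1576) (C.node (nat_lit 6) (nat_lit 8) (nat_lit 9) (C.cons (nat_lit 864) (C.node (nat_lit 2) (nat_lit 5) (nat_lit 8) C.nil) C.nil))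 (C.cons (nat_lit 1544) (C.node (nat_lit 5) (nat_lit 9) (nat_lit 10) (C.cons (nat_lit 1568) (C.node (nat_lit 5) (nat_lit 7) (nat_lit 10) (C.cons (nat_lit 1194)
  (C.miq (nat_lit 1519546720) (nat_lit 1861748806255389093892260035)) (C.cons (nat_lit 1192) (C.node (nat_lit 1) (nat_lit 3) (nat_lit 10) C.nil) (C.cons (nat_lit 1186) (C.miq (nat_lit 1519546720) (nat_lit 1861748806253137294078574787)) C.nil)))) C.nil)) C.nil))) C.nil)) C.nil))) C.nil))) C.nil))) C.nil)) C.nil))) C.nil)) C.nil))) (List.cons (C.node (nat_lit 1) (nat_lit 2) (nat_lit 6) (C.cons (nat_lit 358) (C.miq (nat_lit 309945610) (nat_lit 778577779616596021670380657)) (C.cons (nat_lit 326) (C.node (nat_lit 2) (nat_lit 5) (nat_lit 6) (C.cons (nat_lit 100) (C.node (nat_lit 1) (nat_lit 4) (nat_lit 6) (C.cons (nat_lit 90) (C.miq (nat_lit 343565065) (nat_lit 1412054909019226363918352973)) (C.cons (nat_lit 82) (C.node (nat_lit 2) (nat_lit 7) (nat_lit 8) (C.cons (nat_lit 396) (C.miq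 (nat_lit 1445137016) (nat_lit 712062786756048764044838785)) (C.cons (nat_lit 388) (C.node (nat_lit 1) (nat_lit 2) (nat_lit 7) (C.cons (nat_lit 142) (C.node (nat_lit 1) (nat_lit 7) (nat_lit 10) (C.cons (nat_lit 1186) (C.miq (nat_lit 1382117530) (nat_lit 394131695079286431480416129)) (C.cons (nat_lit 1154) (C.node (nat_lit 2) (nat_lit 3) (nat_lit 4) (C.cons (nat_lit 60) (C.miq (nat_lit 878781703) (nat_lit 99134536662951441075470501)) (C.cons (nat_lit 28) (C.node (nat_lit 1) (nat_lit 2) (nat_lit 4) C.nil) C.nil))) C.nil))) (C.cons (nat_lit 134) (C.node (nat_lit 2) (nat_lit 3) (nat_lit 7) (C.cons (nat_lit 140) (C.node (nat_lit 1) (nat_lit 7) (nat_lit 9) (C.cons (nat_lit 682) (C.miq (nat_lit 878801065) (nat_lit 99144497930928417159645057)) (C.cons (nat_lit 674) (C.node (nat_lit 3) (nat_lit 7) (nat_lit 9) C.nil) (C.cons (nat_lit 650) (C.miq (nat_lit 878801065) (nat_lit 99143907635118058453993345)) C.nil)))) C.nil)) C.nil))) C.nil))) C.nil)))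 C.nil)) (C.cons (nat_lit 102) (C.miq (nat_lit 309945610) (nat_lit 778577779544538427632452721)) (C.cons (nat_lit 70) (C.node (nat_lit 2) (nat_lit 5) (nat_lit 6) (C.cons (nat_lit 356) (C.node (nat_lit 2) (nat_lit 8) (nat_lit 9) (C.cons (nat_lit 774) (C.miq (nat_lit 1175587480) (nat_lit 84629917441176388883580801)) (C.cons (nat_lit 772) (C.node (nat_lit 5) (nat_lit 6) (nat_lit 7) (C.cons (nat_lit 232) (C.miq (nat_lit 645170480) (nat_lit 251461680328157374036115753)) (C.cons (nat_lit 224) (C.node (nat_lit 3) (nat_lit 4) (nat_lit 6) (C.cons (nat_lit 346) (C.miq (nat_lit 343565065) (nat_lit 1412054909091283957956280909)) (C.cons (nat_lit 344) (C.miq (nat_lit 911689760) (nat_lit 270802206042349133703217429)) (C.cons (nat_lit 90) (C.miq (nat_lit 343565065) (nat_lit 1412054909019226363918352973)) (C.cons (nat_lit 88) (C.node (nat_lit 1) (nat_lit 4) (nat_lit 6) (C.cons (nat_lit 338) (C.node (nat_lit 1) (nat_lit 3) (nat_lit 6) C.nil) C.nil))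 C.nil))))) C.nil))) C.nil))) (C.cons (nat_lit 100) (C.node (nat_lit 2) (nat_lit 6) (nat_lit 8) (C.cons (nat_lit 324) (C.node (nat_lit 1) (nat_lit 4) (nat_lit 6) (C.cons (nat_lit 346) (C.miq (nat_lit 343565065) (nat_lit 1412054909091283957956280909)) (C.cons (nat_lit 338) (C.node (nat_lit 3) (nat_lit 4) (nat_lit 6) C.nil) (C.cons (nat_lit 90) (C.miq (nat_lit 343565065) (nat_lit 1412054909019226363918352973)) (C.cons (nat_lit 82) (C.node (nat_lit 3) (nat_lit 4) (nat_lit 6) (C.cons (nat_lit 88) (C.node (nat_lit 4) (nat_lit 6) (nat_lit 8) C.nil) C.nil)) C.nil))))) C.nil)) C.nil))) C.nil))))) (List.cons (C.node (nat_lit 2) (nat_lit 7) (nat_lit 9) (C.cons (nat_lit 660) (C.ref (nat_lit 99) (nat_lit 11430141571600)) (C.cons (nat_lit 646) (C.miq (nat_lit 342003879) (nat_lit 101561685593768563136792449)) (C.cons (nat_lit 644) (C.node (nat_lit 2) (nat_lit 4) (nat_lit 7) (C.cons (nat_lit 150) (C.node (nat_lit 2) (nat_lit 3) (nat_lit 7) (C.cons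 (nat_lit 396) (C.miq (nat_lit 1445137016) (nat_lit 712062786756048764044838785)) (C.cons (nat_lit 140) (C.node (nat_lit 2) (nat_lit 7) (nat_lit 8) (C.cons (nat_lit 388) (C.node (nat_lit 2) (nat_lit 3) (nat_lit 4) (C.cons (nat_lit 60) (C.node (nat_lit 2) (nat_lit 4) (nat_lit 9) (C.cons (nat_lit 532) (C.node (nat_lit 2) (nat_lit 5) (nat_lit 10) (C.cons (nat_lit 1316)
  (C.miq (nat_lit 2184684864) (nat_lit 169285051311835007566808177)) (C.cons (nat_lit 1060) (C.node (nat_lit 3) (nat_lit 4) (nat_lit 9) (C.cons (nat_lit 792) (C.miq (nat_lit 2485617488) (nat_lit 181374309360488411518271785)) (C.cons (nat_lit 536) (C.node (nat_lit 4) (nat_lit 7) (nat_lit 8) (C.cons (nat_lit 432) (C.miq (nat_lit 2218358048) (nat_lit 648019675630404281366806693)) (C.cons (nat_lit 400) (C.node (nat_lit 2) (nat_lit 8) (nat_lit 9) (C.cons (nat_lit 806) (C.miq (nat_lit 1629792640) (nat_lit 181359847341132558418380673)) (C.cons (nat_lit 804) (C.miq (nat_lit 1417159433)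 (nat_lit 483585159044976088220500557)) (C.cons (nat_lit 774) (C.miq (nat_lit 1629792640) (nat_lit 181359847341132420979427201)) (C.cons (nat_lit 772) (C.node (nat_lit 1) (nat_lit 2) (nat_lit 6) (C.cons (nat_lit 358) (C.miq (nat_lit 305620288) (nat_lit 169253211961910757191910513)) C.nil)) C.nil))))) C.nil))) C.nil))) C.nil))) C.nil)) (C.cons (nat_lit 28) (C.node (nat_lit 2) (nat_lit 4) (nat_lit 5) (C.cons (nat_lit 564) (C.node (nat_lit 4) (nat_lit 7) (nat_lit 9) (C.cons (nat_lit 656) (C.node (nat_lit 1) (nat_lit 2) (nat_lit 9) (C.cons (nat_lit 774) (C.miq (nat_lit 1629792640) (nat_lit 181359847341132420979427201)) (C.cons (nat_lit 518) (C.node (nat_lit 2) (nat_lit 8) (nat_lit 9) (C.cons (nat_lit 772) (C.node (nat_lit 3) (nat_lit 4) (nat_lit 5) (C.cons (nat_lit 58) (C.node (nat_lit 1) (nat_lit 4) (nat_lit 10) (C.cons (nat_lit 1298) (C.miq (nat_lit 1631754880) (nat_lit 181349738525382278708004737)) (C.cons (nat_lit 1042) (C.node (nat_lit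 1) (nat_lit 4) (nat_lit 6) C.nil) C.nil))) (C.cons (nat_lit 56) (C.node (nat_lit 3) (nat_lit 4) (nat_lit 9) (C.cons (nat_lit 536) (C.node (nat_lit 4) (nat_lit 8) (nat_lit 9) C.nil) C.nil)) C.nil))) C.nil)) C.nil))) C.nil)) (C.cons (nat_lit 52) (C.node (nat_lit 2) (nat_lit 4) (nat_lit 9) (C.cons (nat_lit 532) (C.node (nat_lit 4) (nat_lit 7) (nat_lit 8) (C.cons (nat_lit 432) (C.node (nat_lit 4) (nat_lit 7) (nat_lit 9) (C.cons (nat_lit 656) (C.node (nat_lit 4) (nat_lit 8) (nat_lit 9) (C.cons (nat_lit 792) (C.miq (nat_lit 877828208) (nat_lit 62875007975150169002149761)) (C.cons (nat_lit 784) (C.node (nat_lit 2) (nat_lit 5) (nat_lit 6) (C.cons (nat_lit 358) (C.miq (nat_lit 847709780) (nat_lit 469066040528109696256574577)) (C.cons (nat_lit 356) (C.miq (nat_lit 847709780) (nat_lit 469066040528109687666639985)) (C.cons (nat_lit 102) (C.miq (nat_lit 2435294800) (nat_lit 181374309588483323042530417)) C.nil)))) C.nil))) C.nil)) (C.cons (nat_lit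 400) (C.node (nat_lit 4) (nat_lit 5) (nat_lit 7) (C.cons (nat_lit 688) (C.node (nat_lit 1) (nat_lit 7) (nat_lit 9) (C.cons (nat_lit 650) (C.miq (nat_lit 2708760880) (nat_lit 181359847341131888395354701)) (C.cons (nat_lit 642) (C.node (nat_lit 3) (nat_lit 7) (nat_lit 9) (C.cons (nat_lit 648) (C.node (nat_lit 3) (nat_lit 6) (nat_lit 7) C.nil) C.nil)) C.nil))) (C.cons (nat_lit 176) (C.node (nat_lit 4) (nat_lit 7) (nat_lit 9) (C.cons (nat_lit 656) (C.node (nat_lit 1) (nat_lit 2) (nat_lit 6) (C.cons (nat_lit 358) (C.miq (nat_lit 2435294800) (nat_lit 181374309588484422554158193)) (C.cons (nat_lit 326) (C.node (nat_lit 2) (nat_lit 5) (nat_lit 6) C.nil) (C.cons (nat_lit 102) (C.miq (nat_lit 2435294800) (nat_lit 181374309588483323042530417)) C.nil)))) C.nil)) C.nil))) C.nil))) C.nil)) C.nil))) C.nil))) C.nil)) C.nil))) (C.cons (nat_lit 148) (C.node (nat_lit 2) (nat_lit 4) (nat_lit 9) (C.cons (nat_lit 564) (C.node (nat_lit 4) (nat_lit 7)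 (nat_lit 9) (C.cons (nat_lit 656) (C.node (nat_lit 1) (nat_lit 2) (nat_lit 9) (C.cons (nat_lit 774) (C.miq (nat_lit 306616330) (nat_lit 101579320749497755131512705)) (C.cons (nat_lit 518) (C.node (nat_lit 2) (nat_lit 8) (nat_lit 9) (C.cons (nat_lit 772) (C.node (nat_lit 1) (nat_lit 2) (nat_lit 4) (C.cons (nat_lit 30) (C.node (nat_lit 3) (nat_lit 4) (nat_lit 5) (C.cons (nat_lit 56) (C.node (nat_lit 1) (nat_lit 4) (nat_lit 10) (C.cons (nat_lit 1298) (C.miq (nat_lit 1631754880) (nat_lit 36278640171626777743263617)) (C.cons (nat_lit 1042)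
  (C.node (nat_lit 3) (nat_lit 4) (nat_lit 9) (C.cons (nat_lit 536) (C.node (nat_lit 4) (nat_lit 8) (nat_lit 9) C.nil) C.nil)) C.nil))) C.nil)) (C.cons (nat_lit 22) (C.node (nat_lit 2) (nat_lit 3) (nat_lit 4) (C.cons (nat_lit 28) (C.node (nat_lit 3) (nat_lit 4) (nat_lit 9) (C.cons (nat_lit 536) (C.node (nat_lit 4) (nat_lit 8) (nat_lit 9) C.nil) C.nil)) C.nil)) C.nil))) C.nil)) C.nil))) C.nil)) (C.cons (nat_lit 532) (C.node (nat_lit 4) (nat_lit 7) (nat_lit 9) (C.cons (nat_lit 688) (C.node (nat_lit 1) (nat_lit 7) (nat_lit 9) (C.cons (nat_lit 650) (C.miq (nat_lit 390763270) (nat_lit 1412054909176852350824940109)) (C.cons (nat_lit 642) (C.node (nat_lit 7) (nat_lit 3) (nat_lit 9) (C.cons (nat_lit 648) (C.node (nat_lit 1) (nat_lit 7) (nat_lit 4) (C.cons (nat_lit 402) (C.node (nat_lit 8) (nat_lit 4) (nat_lit 5) (C.cons (nat_lit 304) (C.node (nat_lit 1) (nat_lit 4) (nat_lit 6) (C.cons (nat_lit 90) (C.miq (nat_lit 2705823280) (nat_lit 486023616131369823528092237))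 (C.cons (nat_lit 82) (C.node (nat_lit 8) (nat_lit 4) (nat_lit 9) (C.cons (nat_lit 784) (C.node (nat_lit 4) (nat_lit 3) (nat_lit 9) C.nil) C.nil)) C.nil))) C.nil)) (C.cons (nat_lit 146) (C.node (nat_lit 7) (nat_lit 8) (nat_lit 4) (C.cons (nat_lit 400) (C.node (nat_lit 8) (nat_lit 4) (nat_lit 9) (C.cons (nat_lit 784) (C.node (nat_lit 4) (nat_lit 3) (nat_lit 9) C.nil) C.nil)) C.nil)) C.nil))) C.nil)) C.nil))) (C.cons (nat_lit 656) (C.ref (nat_lit 103) (nat_lit 11649936536080)) C.nil))) C.nil))) C.nil))) C.nil)))) List.nil)))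

theorem ok11_102 : okL par11 (nat_lit 105) c11_102 (nat_lit 102) = true := by decide +kernel

noncomputable def c11_105 : List C :=
  (List.cons (C.node (nat_lit 1) (nat_lit 4) (nat_lit 6) (C.cons (nat_lit 338) (C.node (nat_lit 2) (nat_lit 7) (nat_lit 8) (C.cons (nat_lit 398) (C.miq (nat_lit 1446120071) (nat_lit 712060351785831601319839617)) (C.cons (nat_lit 396) (C.miq (nat_lit 1446120071) (nat_lit 712060351785831601319708545)) (C.cons (nat_lit 390) (C.miq (nat_lit 1384384278) (nat_lit 334893426027709135370453187)) (C.cons (nat_lit 388) (C.node (nat_lit 1) (nat_lit 2) (nat_lit 6) (C.cons (nat_lit 102) (C.node (nat_lit 2) (nat_lit 6) (nat_lit 8) (C.cons (nat_lit 324) (C.node (nat_lit 2) (nat_lit 8) (nat_lit 10) (C.cons (nat_lit 1316) (C.miq (nat_lit 394420389) (nat_lit 469065099633267509337261169)) (C.cons (nat_lit 1284) (C.node (nat_lit 5) (nat_lit 8) (nat_lit 10) (C.cons (nat_lit 1312) (C.node (nat_lit 3) (nat_lit 5) (nat_lit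 6) (C.cons (nat_lit 232) (C.miq (nat_lit 2522325280) (nat_lit 280506226796882915368436743)) (C.cons (nat_lit 104) (C.node (nat_lit 3) (nat_lit 6) (nat_lit 7) (C.cons (nat_lit 200) (C.node (nat_lit 4) (nat_lit 6) (nat_lit 7) (C.cons (nat_lit 720) (C.miq (nat_lit 1469456545) (nat_lit 870428471736880146057135111)) (C.cons (nat_lit 208) (C.node (nat_lit 4) (nat_lit 6) (nat_lit 9) (C.cons (nat_lit 592) (C.node (nat_lit 6) (nat_lit 7) (nat_lit 8) (C.cons (nat_lit 480) (C.miq (nat_lit 2522325280) (nat_lit 580319830061310950695568391)) (C.cons (nat_lit 448) (C.node (nat_lit 2) (nat_lit 3) (nat_lit 8) (C.cons (nat_lit 270) (C.node (nat_lit 3) (nat_lit 7) (nat_lit 8) C.nil) C.nil)) C.nil))) C.nil)) C.nil))) C.nil)) C.nil))) C.nil)) C.nil))) C.nil)) (C.cons (nat_lit 70) (C.node (nat_lit 1) (nat_lit 5) (nat_lit 6) (C.cons (nat_lit 98) (C.node (nat_lit 2) (nat_lit 3) (nat_lit 8) (C.cons (nat_lit 270) (C.node (nat_lit 3) (nat_lit 7) (nat_lit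 8) (C.cons (nat_lit 392) (C.node (nat_lit 1) (nat_lit 5) (nat_lit 10) (C.cons (nat_lit 1194) (C.miq (nat_lit 638912935) (nat_lit 118477774200801463095658369)) (C.cons (nat_lit 1186) (C.miq (nat_lit 638912935) (nat_lit 118477774200801463095134081)) (C.cons (nat_lit 1066) (C.miq (nat_lit 1161300498) (nat_lit 359056078493694909406381063)) (C.cons (nat_lit 1058) (C.node (nat_lit 1) (nat_lit 7) (nat_lit 8) (C.cons (nat_lit 418) (C.node (nat_lit 1) (nat_lit 8) (nat_lit 9) (C.cons (nat_lit 770) (C.node (nat_lit 4) (nat_lit 7) (nat_lit 8) (C.cons (nat_lit 400) (C.node (nat_lit 6) (nat_lit 7) (nat_lit 8) (C.cons (nat_lit 448) (C.node (nat_lit 2) (nat_lit 8) (nat_lit 9) (C.cons (nat_lit 804) (C.miq (nat_lit 622237808) (nat_lit 118485595680800750631585665)) (C.cons (nat_lit 772) (C.node (nat_lit 2) (nat_lit 5) (nat_lit 6) (C.cons (nat_lit 100) (C.node (nat_lit 2) (nat_lit 6) (nat_lit 8) (C.cons (nat_lit 324) (C.node (nat_lit 2) (nat_lit 5)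 (nat_lit 8) C.nil) C.nil)) C.nil)) C.nil))) C.nil)) C.nil)) C.nil)) (C.cons (nat_lit 386) (C.node (nat_lit 1) (nat_lit 5) (nat_lit 8) (C.cons (nat_lit 802) (C.node (nat_lit 2) (nat_lit 8) (nat_lit 9) (C.cons (nat_lit 772) (C.node (nat_lit 6) (nat_lit 8) (nat_lit 9) (C.cons (nat_lit 832) (C.node (nat_lit 1) (nat_lit 2) (nat_lit 9) (C.cons (nat_lit 646) (C.miq (nat_lit 1444022935) (nat_lit 84627851405840133405411201)) (C.cons (nat_lit 518) (C.node (nat_lit 1) (nat_lit 3) (nat_lit 9) (C.cons (nat_lit 650) (C.miq (nat_lit 1175653015) (nat_lit 89463333323369765589878657)) (C.cons (nat_lit 522) (C.node (nat_lit 1) (nat_lit 7) (nat_lit 9) (C.cons (nat_lit 642) (C.node (nat_lit 1) (nat_lit 2) (nat_lit 5) (C.cons (nat_lit 54) (C.node (nat_lit 1) (nat_lit 2) (nat_lit 7) C.nil) C.nil)) C.nil)) C.nil))) C.nil))) C.nil)) C.nil)) (C.cons (nat_lit 290) (C.node (nat_lit 1) (nat_lit 8) (nat_lit 9) (C.cons (nat_lit 770) (C.node (nat_lit 2) (nat_lit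 3) (nat_lit 7) (C.cons (nat_lit 1164) (C.node (nat_lit 5) (nat_lit 7) (nat_lit 10) (C.cons (nat_lit 1184) (C.node (nat_lit 1) (nat_lit 7) (nat_lit 10) (C.cons (nat_lit 1170) (C.miq (nat_lit 907282855) (nat_lit 408619749547383580508948353)) (C.cons (nat_lit 1154) (C.node (nat_lit 4) (nat_lit 7) (nat_lit 10) (C.cons (nat_lit 1168)
  (C.node (nat_lit 1) (nat_lit 3) (nat_lit 10) (C.cons (nat_lit 1050) (C.node (nat_lit 2) (nat_lit 6) (nat_lit 8) (C.cons (nat_lit 356) (C.miq (nat_lit 1513251864) (nat_lit 1407196221392360158211735890)) C.nil)) C.nil)) C.nil)) C.nil))) C.nil)) (C.cons (nat_lit 140) (C.node (nat_lit 2) (nat_lit 5) (nat_lit 6) (C.cons (nat_lit 356) (C.node (nat_lit 2) (nat_lit 8) (nat_lit 9) (C.cons (nat_lit 772) (C.node (nat_lit 2) (nat_lit 8) (nat_lit 10) (C.cons (nat_lit 1284) (C.node (nat_lit 6) (nat_lit 7) (nat_lit 8) C.nil) C.nil)) C.nil)) (C.cons (nat_lit 100) (C.node (nat_lit 2) (nat_lit 6) (nat_lit 8) (C.cons (nat_lit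 324) (C.node (nat_lit 2) (nat_lit 7) (nat_lit 10) (C.cons (nat_lit 1172) (C.node (nat_lit 1) (nat_lit 2) (nat_lit 7) (C.cons (nat_lit 646) (C.miq (nat_lit 1444022935) (nat_lit 84627851405840133405411201)) C.nil)) (C.cons (nat_lit 1156) (C.node (nat_lit 4) (nat_lit 7) (nat_lit 10) (C.cons (nat_lit 1170) (C.miq (nat_lit 907282855) (nat_lit 408619749547383580508948353)) (C.cons (nat_lit 1168) (C.node (nat_lit 1) (nat_lit 2) (nat_lit 7) (C.cons (nat_lit 646) (C.miq (nat_lit 1444022935) (nat_lit 84627851405840133405411201)) (C.cons (nat_lit 150) (C.node (nat_lit 3) (nat_lit 5) (nat_lit 6) C.nil) C.nil))) C.nil))) C.nil))) C.nil)) C.nil))) C.nil))) C.nil)) C.nil))) C.nil))) C.nil))))) C.nil)) (C.cons (nat_lit 268) (C.node (nat_lit 2) (nat_lit 5) (nat_lit 6) (C.cons (nat_lit 356) (C.node (nat_lit 2) (nat_lit 8) (nat_lit 10) (C.cons (nat_lit 1284) (C.node (nat_lit 5) (nat_lit 8) (nat_lit 10) (C.cons (nat_lit 1312) (C.node (nat_lit 6) (nat_lit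 7) (nat_lit 8) (C.cons (nat_lit 448) (C.node (nat_lit 6) (nat_lit 8) (nat_lit 9) (C.cons (nat_lit 832) (C.node (nat_lit 1) (nat_lit 2) (nat_lit 8) (C.cons (nat_lit 774) (C.miq (nat_lit 1175587480) (nat_lit 84629917441176388883580801)) (C.cons (nat_lit 262) (C.node (nat_lit 2) (nat_lit 8) (nat_lit 9) (C.cons (nat_lit 772) (C.node (nat_lit 3) (nat_lit 5) (nat_lit 6) (C.cons (nat_lit 232) (C.miq (nat_lit 914650400) (nat_lit 408619749446891662235467941)) (C.cons (nat_lit 104) (C.node (nat_lit 3) (nat_lit 6) (nat_lit 7) C.nil) C.nil))) C.nil)) C.nil))) C.nil)) C.nil)) C.nil)) C.nil)) (C.cons (nat_lit 100) (C.node (nat_lit 2) (nat_lit 6) (nat_lit 8) (C.cons (nat_lit 324) (C.node (nat_lit 2) (nat_lit 8) (nat_lit 10) (C.cons (nat_lit 1316) (C.node (nat_lit 1) (nat_lit 2) (nat_lit 8) (C.cons (nat_lit 774) (C.miq (nat_lit 1175587480) (nat_lit 84629917441176388883580801)) (C.cons (nat_lit 262) (C.node (nat_lit 2) (nat_lit 8) (nat_lit 9) (C.cons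 (nat_lit 772) (C.node (nat_lit 6) (nat_lit 7) (nat_lit 8) (C.cons (nat_lit 480) (C.miq (nat_lit 627157104) (nat_lit 118493749285796784617228161)) (C.cons (nat_lit 448) (C.node (nat_lit 3) (nat_lit 5) (nat_lit 6) (C.cons (nat_lit 232) (C.node (nat_lit 4) (nat_lit 6) (nat_lit 7) (C.cons (nat_lit 720) (C.node (nat_lit 5) (nat_lit 6) (nat_lit 8) (C.cons (nat_lit 864) (C.miq (nat_lit 1447266672) (nat_lit 106390951052274731375462273)) C.nil)) C.nil)) C.nil)) C.nil))) C.nil)) C.nil))) (C.cons (nat_lit 1284) (C.node (nat_lit 5) (nat_lit 8) (nat_lit 10) (C.cons (nat_lit 1312) (C.node (nat_lit 3) (nat_lit 4) (nat_lit 8) (C.cons (nat_lit 792) (C.node (nat_lit 1) (nat_lit 3) (nat_lit 8) (C.cons (nat_lit 394) (C.node (nat_lit 1) (nat_lit 7) (nat_lit 10) (C.cons (nat_lit 1186) (C.miq (nat_lit 638912935) (nat_lit 118477774200801463095134081)) (C.cons (nat_lit 1170) (C.miq (nat_lit 907282855) (nat_lit 408619749547383580508948353)) (C.cons (nat_lit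 1154) (C.node (nat_lit 1) (nat_lit 3) (nat_lit 9) (C.cons (nat_lit 554) (C.node (nat_lit 1) (nat_lit 5) (nat_lit 10) (C.cons (nat_lit 1058) (C.node (nat_lit 3) (nat_lit 7) (nat_lit 9) (C.cons (nat_lit 648) (C.node (nat_lit 3) (nat_lit 9) (nat_lit 10) (C.cons (nat_lit 1544) (C.node (nat_lit 6) (nat_lit 7) (nat_lit 8) C.nil) C.nil)) C.nil)) C.nil)) (C.cons (nat_lit 522) (C.node (nat_lit 1) (nat_lit 4) (nat_lit 10) (C.cons (nat_lit 1050) (C.node (nat_lit 1) (nat_lit 5) (nat_lit 10) (C.cons (nat_lit 1058)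
  (C.node (nat_lit 1) (nat_lit 2) (nat_lit 3) (C.cons (nat_lit 46) (C.node (nat_lit 2) (nat_lit 3) (nat_lit 10) C.nil) (C.cons (nat_lit 14) (C.node (nat_lit 2) (nat_lit 3) (nat_lit 10) C.nil) C.nil))) C.nil)) (C.cons (nat_lit 1042) (C.node (nat_lit 1) (nat_lit 3) (nat_lit 4) (C.cons (nat_lit 62) (C.miq (nat_lit 2216334112) (nat_lit 1259736140456737644002869837)) (C.cons (nat_lit 58) (C.miq (nat_lit 1518420083) (nat_lit 1549843970977156176305324185)) (C.cons (nat_lit 30) (C.miq (nat_lit 2216334112) (nat_lit 1259736140456737506563916365)) (C.cons (nat_lit 26) (C.node (nat_lit 1) (nat_lit 3) (nat_lit 10) (C.cons (nat_lit 1066) (C.node (nat_lit 1) (nat_lit 2) (nat_lit 3) (C.cons (nat_lit 14) (C.node (nat_lit 3) (nat_lit 9) (nat_lit 10) C.nil) C.nil)) C.nil)) C.nil))))) C.nil))) C.nil))) C.nil)))) (C.cons (nat_lit 266) (C.node (nat_lit 3) (nat_lit 7) (nat_lit 8) (C.cons (nat_lit 392) (C.node (nat_lit 1) (nat_lit 7) (nat_lit 8) (C.cons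 (nat_lit 418) (C.node (nat_lit 4) (nat_lit 5) (nat_lit 8) (C.cons (nat_lit 304) (C.node (nat_lit 4) (nat_lit 7) (nat_lit 8) C.nil) C.nil)) (C.cons (nat_lit 386) (C.node (nat_lit 3) (nat_lit 5) (nat_lit 6) (C.cons (nat_lit 232) (C.node (nat_lit 6) (nat_lit 7) (nat_lit 8) (C.cons (nat_lit 448) (C.node (nat_lit 4) (nat_lit 6) (nat_lit 7) C.nil) C.nil)) (C.cons (nat_lit 104) (C.node (nat_lit 3) (nat_lit 6) (nat_lit 7) C.nil) C.nil))) C.nil))) C.nil)) C.nil))) (C.cons (nat_lit 280) (C.node (nat_lit 3) (nat_lit 8) (nat_lit 9) (C.cons (nat_lit 778) (C.miq (nat_lit 1444088472) (nat_lit 89465989654516379773699969)) (C.cons (nat_lit 776) (C.node (nat_lit 1) (nat_lit 3) (nat_lit 8) (C.cons (nat_lit 394) (C.node (nat_lit 1) (nat_lit 7) (nat_lit 10) (C.cons (nat_lit 1186) (C.miq (nat_lit 638912935) (nat_lit 118477774200801463095134081)) (C.cons (nat_lit 1170) (C.miq (nat_lit 907282855) (nat_lit 408619749547383580508948353)) (C.cons (nat_lit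 1154) (C.node (nat_lit 1) (nat_lit 3) (nat_lit 9) (C.cons (nat_lit 554) (C.node (nat_lit 1) (nat_lit 5) (nat_lit 10) (C.cons (nat_lit 1058) (C.node (nat_lit 3) (nat_lit 7) (nat_lit 9) (C.cons (nat_lit 648) (C.node (nat_lit 3) (nat_lit 9) (nat_lit 10) (C.cons (nat_lit 1560) (C.miq (nat_lit 423062080) (nat_lit 783387528676303691421647985)) C.nil)) C.nil)) C.nil)) (C.cons (nat_lit 522) (C.node (nat_lit 1) (nat_lit 4) (nat_lit 10) (C.cons (nat_lit 1050) (C.node (nat_lit 1) (nat_lit 5) (nat_lit 10) (C.cons (nat_lit 1058) (C.node (nat_lit 3) (nat_lit 5) (nat_lit 6) (C.cons (nat_lit 232) (C.node (nat_lit 3) (nat_lit 7) (nat_lit 9) C.nil) C.nil)) C.nil)) (C.cons (nat_lit 1042) (C.node (nat_lit 1) (nat_lit 3) (nat_lit 10) (C.cons (nat_lit 1066) (C.node (nat_lit 3) (nat_lit 9) (nat_lit 10) (C.cons (nat_lit 1560) (C.miq (nat_lit 1905460900) (nat_lit 631062100245574207856444529)) C.nil)) (C.cons (nat_lit 1034) (C.node (nat_lit 1) (nat_lit 5)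 (nat_lit 10) C.nil) C.nil))) C.nil))) C.nil))) C.nil)))) (C.cons (nat_lit 266) (C.node (nat_lit 3) (nat_lit 7) (nat_lit 8) (C.cons (nat_lit 392) (C.node (nat_lit 1) (nat_lit 7) (nat_lit 8) (C.cons (nat_lit 418) (C.node (nat_lit 4) (nat_lit 7) (nat_lit 8) (C.cons (nat_lit 400) (C.node (nat_lit 6) (nat_lit 7) (nat_lit 8) C.nil) C.nil)) (C.cons (nat_lit 386) (C.node (nat_lit 6) (nat_lit 7) (nat_lit 8) (C.cons (nat_lit 480) (C.node (nat_lit 4) (nat_lit 7) (nat_lit 8) C.nil) C.nil)) C.nil))) C.nil)) C.nil))) C.nil))) C.nil))) C.nil)) C.nil))) C.nil)) C.nil))) C.nil))) C.nil)) C.nil))) C.nil))))) (C.cons (nat_lit 82) (C.node (nat_lit 2) (nat_lit 8) (nat_lit 10) (C.cons (nat_lit 1316) (C.node (nat_lit 2) (nat_lit 8) (nat_lit 9) (C.cons (nat_lit 774) (C.miq (nat_lit 610369705) (nat_lit 99146195066286095550515073)) (C.cons (nat_lit 772) (C.node (nat_lit 4) (nat_lit 7) (nat_lit 10) (C.cons (nat_lit 1172) (C.miq (nat_lit 1250128464) (nat_lit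 1634470530800716246665461925)) (C.cons (nat_lit 1170) (C.miq (nat_lit 907282855) (nat_lit 99134739726038511784167297)) (C.cons (nat_lit 1168) (C.node (nat_lit 2) (nat_lit 7) (nat_lit 8) (C.cons (nat_lit 398)
  (C.miq (nat_lit 1446120071) (nat_lit 712060351785831601319839617)) (C.cons (nat_lit 396) (C.miq (nat_lit 1446120071) (nat_lit 712060351785831601319708545)) (C.cons (nat_lit 390) (C.miq (nat_lit 413561424) (nat_lit 1634471305343853910733947045)) (C.cons (nat_lit 388) (C.node (nat_lit 2) (nat_lit 5) (nat_lit 6) (C.cons (nat_lit 102) (C.miq (nat_lit 394420389) (nat_lit 469065099633267509337261169)) (C.cons (nat_lit 100) (C.node (nat_lit 5) (nat_lit 7) (nat_lit 10) (C.cons (nat_lit 1194) (C.miq (nat_lit 354854665) (nat_lit 120922133981550831073036161)) (C.cons (nat_lit 1192) (C.miq (nat_lit 981759264) (nat_lit 1566770684907926512414818469)) (C.cons (nat_lit 1186) (C.miq (nat_lit 354854665) (nat_lit 120922133979299031259350913))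 (C.cons (nat_lit 1184) (C.node (nat_lit 1) (nat_lit 2) (nat_lit 6) (C.cons (nat_lit 326) (C.node (nat_lit 1) (nat_lit 5) (nat_lit 6) (C.cons (nat_lit 98) (C.node (nat_lit 2) (nat_lit 3) (nat_lit 8) (C.cons (nat_lit 268) (C.node (nat_lit 1) (nat_lit 4) (nat_lit 10) (C.cons (nat_lit 1050) (C.node (nat_lit 1) (nat_lit 5) (nat_lit 10) (C.cons (nat_lit 1058) (C.node (nat_lit 1) (nat_lit 7) (nat_lit 10) (C.cons (nat_lit 1154) (C.node (nat_lit 2) (nat_lit 3) (nat_lit 4) (C.cons (nat_lit 60) (C.miq (nat_lit 2015562324) (nat_lit 323994942549282978824717425)) (C.cons (nat_lit 28) (C.node (nat_lit 2) (nat_lit 3) (nat_lit 5) (C.cons (nat_lit 46) (C.node (nat_lit 1) (nat_lit 2) (nat_lit 9) (C.cons (nat_lit 646) (C.miq (nat_lit 1629858160) (nat_lit 55631562101210437046830977)) (C.cons (nat_lit 518) (C.node (nat_lit 2) (nat_lit 3) (nat_lit 10) (C.cons (nat_lit 1164) (C.node (nat_lit 2) (nat_lit 4) (nat_lit 10) C.nil) C.nil)) C.nil))) (C.cons (nat_lit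 44) (C.node (nat_lit 1) (nat_lit 2) (nat_lit 3) (C.cons (nat_lit 142) (C.miq (nat_lit 1412893202) (nat_lit 184968694433851984051045383)) (C.cons (nat_lit 14) (C.node (nat_lit 2) (nat_lit 3) (nat_lit 7) (C.cons (nat_lit 1164) (C.node (nat_lit 2) (nat_lit 4) (nat_lit 10) C.nil) (C.cons (nat_lit 140) (C.node (nat_lit 2) (nat_lit 3) (nat_lit 10) C.nil) C.nil))) C.nil))) C.nil))) C.nil))) C.nil)) C.nil)) (C.cons (nat_lit 1042) (C.node (nat_lit 1) (nat_lit 5) (nat_lit 10) (C.cons (nat_lit 1066) (C.node (nat_lit 1) (nat_lit 7) (nat_lit 10) (C.cons (nat_lit 1154) (C.node (nat_lit 5) (nat_lit 9) (nat_lit 10) (C.cons (nat_lit 1568) (C.node (nat_lit 2) (nat_lit 3) (nat_lit 5) (C.cons (nat_lit 60) (C.miq (nat_lit 2015562324) (nat_lit 323994942549282978824717425)) (C.cons (nat_lit 44) (C.node (nat_lit 3) (nat_lit 9) (nat_lit 10) (C.cons (nat_lit 1560) (C.miq (nat_lit 440887600) (nat_lit 1412028954875910862268858957)) (C.cons (nat_lit 1544) (C.node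 (nat_lit 1) (nat_lit 3) (nat_lit 9) (C.cons (nat_lit 778) (C.miq (nat_lit 1630906752) (nat_lit 1288735898108132762191464321)) (C.cons (nat_lit 650) (C.miq (nat_lit 1175653015) (nat_lit 89463333323369765589878657)) (C.cons (nat_lit 522) (C.node (nat_lit 1) (nat_lit 8) (nat_lit 9) (C.cons (nat_lit 802) (C.node (nat_lit 2) (nat_lit 7) (nat_lit 10) C.nil) (C.cons (nat_lit 770) (C.node (nat_lit 1) (nat_lit 2) (nat_lit 5) (C.cons (nat_lit 550) (C.node (nat_lit 1) (nat_lit 7) (nat_lit 9) C.nil) (C.cons (nat_lit 54) (C.miq (nat_lit 2552302164) (nat_lit 394119612956191333167793265)) C.nil))) C.nil))) C.nil)))) C.nil))) C.nil))) C.nil)) C.nil)) (C.cons (nat_lit 1058) (C.node (nat_lit 1) (nat_lit 3) (nat_lit 10) (C.cons (nat_lit 1162) (C.node (nat_lit 2) (nat_lit 3) (nat_lit 7) (C.cons (nat_lit 140) (C.node (nat_lit 2) (nat_lit 7) (nat_lit 10) (C.cons (nat_lit 1156) (C.node (nat_lit 3) (nat_lit 7) (nat_lit 8) (C.cons (nat_lit 392) (C.node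 (nat_lit 1) (nat_lit 3) (nat_lit 8) (C.cons (nat_lit 778) (C.miq (nat_lit 1444088472) (nat_lit 89465989654516379773699969)) (C.cons (nat_lit 282) (C.node (nat_lit 3) (nat_lit 8) (nat_lit 9) C.nil) C.nil))) C.nil)) C.nil)) C.nil)) (C.cons (nat_lit 1034) (C.node (nat_lit 1) (nat_lit 7) (nat_lit 10) (C.cons (nat_lit 1154) (C.node (nat_lit 2) (nat_lit 7) (nat_lit 10) (C.cons (nat_lit 1164)
  (C.node (nat_lit 3) (nat_lit 4) (nat_lit 10) (C.cons (nat_lit 1560) (C.miq (nat_lit 440887600) (nat_lit 1412028954875910862268858957)) (C.cons (nat_lit 1048) (C.node (nat_lit 2) (nat_lit 4) (nat_lit 10) (C.cons (nat_lit 1556) (C.node (nat_lit 1) (nat_lit 2) (nat_lit 7) C.nil) C.nil)) C.nil))) (C.cons (nat_lit 1156) (C.node (nat_lit 3) (nat_lit 7) (nat_lit 10) C.nil) C.nil))) C.nil)) C.nil))) C.nil))) C.nil))) C.nil)) C.nil)) (C.cons (nat_lit 70) (C.node (nat_lit 2) (nat_lit 6) (nat_lit 8) (C.cons (nat_lit 324) (C.node (nat_lit 1) (nat_lit 2) (nat_lit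 8) (C.cons (nat_lit 270) (C.node (nat_lit 3) (nat_lit 7) (nat_lit 8) (C.cons (nat_lit 392) (C.node (nat_lit 1) (nat_lit 5) (nat_lit 10) (C.cons (nat_lit 1066) (C.miq (nat_lit 1161300498) (nat_lit 359056078493694909406381063)) (C.cons (nat_lit 1058) (C.node (nat_lit 2) (nat_lit 3) (nat_lit 5) (C.cons (nat_lit 60) (C.miq (nat_lit 2015562324) (nat_lit 326412794188512237174129777)) (C.cons (nat_lit 44) (C.node (nat_lit 1) (nat_lit 4) (nat_lit 10) (C.cons (nat_lit 1050) (C.node (nat_lit 1) (nat_lit 7) (nat_lit 10) (C.cons (nat_lit 1154) (C.node (nat_lit 2) (nat_lit 3) (nat_lit 4) (C.cons (nat_lit 28) (C.node (nat_lit 1) (nat_lit 5) (nat_lit 6) (C.cons (nat_lit 354) (C.node (nat_lit 1) (nat_lit 8) (nat_lit 9) C.nil) (C.cons (nat_lit 98) (C.node (nat_lit 1) (nat_lit 6) (nat_lit 8) C.nil) C.nil))) C.nil)) C.nil)) (C.cons (nat_lit 1042) (C.node (nat_lit 1) (nat_lit 3) (nat_lit 4) (C.cons (nat_lit 58) (C.node (nat_lit 1) (nat_lit 3) (nat_lit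 9) (C.cons (nat_lit 650) (C.miq (nat_lit 1630841200) (nat_lit 70138671936586004322387841)) (C.cons (nat_lit 522) (C.node (nat_lit 1) (nat_lit 8) (nat_lit 9) (C.cons (nat_lit 802) (C.miq (nat_lit 2018707732) (nat_lit 359053791318105017277874707)) (C.cons (nat_lit 770) (C.node (nat_lit 1) (nat_lit 2) (nat_lit 4) (C.cons (nat_lit 150) (C.node (nat_lit 1) (nat_lit 4) (nat_lit 8) C.nil) C.nil)) C.nil))) C.nil))) (C.cons (nat_lit 26) (C.node (nat_lit 1) (nat_lit 3) (nat_lit 10) (C.cons (nat_lit 1162) (C.node (nat_lit 2) (nat_lit 3) (nat_lit 7) (C.cons (nat_lit 140) (C.node (nat_lit 2) (nat_lit 7) (nat_lit 10) (C.cons (nat_lit 1156) (C.node (nat_lit 1) (nat_lit 3) (nat_lit 5) C.nil) C.nil)) C.nil)) (C.cons (nat_lit 1034) (C.node (nat_lit 1) (nat_lit 7) (nat_lit 10) (C.cons (nat_lit 1154) (C.node (nat_lit 1) (nat_lit 5) (nat_lit 6) C.nil) C.nil)) C.nil))) C.nil))) C.nil))) C.nil))) C.nil))) C.nil)) (C.cons (nat_lit 262) (C.node (nat_lit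 2) (nat_lit 3) (nat_lit 8) (C.cons (nat_lit 268) (C.node (nat_lit 1) (nat_lit 4) (nat_lit 10) (C.cons (nat_lit 1050) (C.node (nat_lit 1) (nat_lit 5) (nat_lit 10) (C.cons (nat_lit 1058) (C.node (nat_lit 1) (nat_lit 7) (nat_lit 10) (C.cons (nat_lit 1154) (C.node (nat_lit 2) (nat_lit 3) (nat_lit 4) (C.cons (nat_lit 60) (C.miq (nat_lit 2015562324) (nat_lit 323994942549282978824717425)) (C.cons (nat_lit 28) (C.node (nat_lit 1) (nat_lit 5) (nat_lit 6) (C.cons (nat_lit 354) (C.node (nat_lit 2) (nat_lit 3) (nat_lit 5) C.nil) (C.cons (nat_lit 98) (C.node (nat_lit 1) (nat_lit 6) (nat_lit 8) C.nil) C.nil))) C.nil))) C.nil)) C.nil)) (C.cons (nat_lit 1042) (C.node (nat_lit 1) (nat_lit 5) (nat_lit 6) (C.cons (nat_lit 354) (C.node (nat_lit 1) (nat_lit 8) (nat_lit 9) (C.cons (nat_lit 778) (C.miq (nat_lit 1444088472) (nat_lit 89465989654516379773699969)) (C.cons (nat_lit 770) (C.node (nat_lit 3) (nat_lit 7) (nat_lit 8) (C.cons (nat_lit 394) (C.miq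 (nat_lit 1132791574) (nat_lit 359071942416624036324966595)) (C.cons (nat_lit 392) (C.node (nat_lit 5) (nat_lit 6) (nat_lit 9) (C.cons (nat_lit 736) (C.miq (nat_lit 374516080) (nat_lit 120911601005528985815549825)) (C.cons (nat_lit 608) (C.node (nat_lit 6) (nat_lit 8) (nat_lit 9) (C.cons (nat_lit 848) (C.miq (nat_lit 373467520) (nat_lit 101568787891695400063928193)) C.nil)) C.nil))) C.nil))) C.nil))) (C.cons (nat_lit 98) (C.node (nat_lit 1) (nat_lit 6) (nat_lit 8) (C.cons (nat_lit 322) (C.node (nat_lit 1) (nat_lit 5) (nat_lit 10) (C.cons (nat_lit 1066)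
  (C.node (nat_lit 1) (nat_lit 7) (nat_lit 10) C.nil) C.nil)) C.nil)) C.nil))) C.nil))) C.nil)) C.nil))) C.nil)) C.nil))) C.nil))))) C.nil))) C.nil))))) C.nil)))) C.nil))) (C.cons (nat_lit 1284) (C.node (nat_lit 5) (nat_lit 8) (nat_lit 10) (C.cons (nat_lit 1312) (C.node (nat_lit 3) (nat_lit 5) (nat_lit 6) (C.cons (nat_lit 232) (C.node (nat_lit 3) (nat_lit 7) (nat_lit 9) (C.cons (nat_lit 650) (C.miq (nat_lit 1175653015) (nat_lit 89463333323369765589878657)) (C.cons (nat_lit 648) (C.node (nat_lit 2) (nat_lit 5) (nat_lit 10) (C.cons (nat_lit 1572) (C.miq (nat_lit 2524291330) (nat_lit 280499788883201590166881287)) (C.cons (nat_lit 1068) (C.miq (nat_lit 372901714) (nat_lit 1634486726767007255711449253)) (C.cons (nat_lit 1060) (C.node (nat_lit 5) (nat_lit 7) (nat_lit 10) (C.cons (nat_lit 1186) (C.miq (nat_lit 899835664) (nat_lit 1281472233989073628610101443)) (C.cons (nat_lit 1184) (C.node (nat_lit 2) (nat_lit 5) (nat_lit 6) (C.cons (nat_lit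 358) (C.miq (nat_lit 360342025) (nat_lit 1431397722208495776011715149)) (C.cons (nat_lit 356) (C.miq (nat_lit 1130891090) (nat_lit 1634472817910153729641021605)) (C.cons (nat_lit 102) (C.miq (nat_lit 360342025) (nat_lit 1431397722136438181973787213)) (C.cons (nat_lit 100) (C.node (nat_lit 1) (nat_lit 2) (nat_lit 6) (C.cons (nat_lit 326) (C.node (nat_lit 1) (nat_lit 5) (nat_lit 6) (C.cons (nat_lit 98) (C.node (nat_lit 2) (nat_lit 3) (nat_lit 8) (C.cons (nat_lit 396) (C.miq (nat_lit 1446120071) (nat_lit 712060351785831601319708545)) (C.cons (nat_lit 268) (C.node (nat_lit 2) (nat_lit 7) (nat_lit 8) (C.cons (nat_lit 388) (C.node (nat_lit 1) (nat_lit 5) (nat_lit 10) (C.cons (nat_lit 1066) (C.node (nat_lit 5) (nat_lit 9) (nat_lit 10) (C.cons (nat_lit 1568) (C.node (nat_lit 1) (nat_lit 3) (nat_lit 9) (C.cons (nat_lit 778) (C.miq (nat_lit 1630906752) (nat_lit 1288735898108132762191464321)) (C.cons (nat_lit 522) (C.node (nat_lit 1) (nat_lit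 4) (nat_lit 10) (C.cons (nat_lit 1170) (C.miq (nat_lit 907282855) (nat_lit 99134739726038511784167297)) (C.cons (nat_lit 1042) (C.node (nat_lit 1) (nat_lit 7) (nat_lit 10) (C.cons (nat_lit 1154) (C.node (nat_lit 3) (nat_lit 9) (nat_lit 10) (C.cons (nat_lit 1560) (C.miq (nat_lit 423062080) (nat_lit 783387528676303691421647985)) C.nil)) C.nil)) C.nil))) C.nil))) C.nil)) (C.cons (nat_lit 1058) (C.node (nat_lit 2) (nat_lit 5) (nat_lit 8) (C.cons (nat_lit 804) (C.node (nat_lit 5) (nat_lit 6) (nat_lit 8) (C.cons (nat_lit 352) (C.node (nat_lit 5) (nat_lit 6) (nat_lit 9) (C.cons (nat_lit 608) (C.node (nat_lit 6) (nat_lit 7) (nat_lit 8) C.nil) C.nil)) C.nil)) (C.cons (nat_lit 292) (C.node (nat_lit 2) (nat_lit 8) (nat_lit 9) (C.cons (nat_lit 772) (C.node (nat_lit 5) (nat_lit 6) (nat_lit 8) (C.cons (nat_lit 352) (C.node (nat_lit 5) (nat_lit 6) (nat_lit 9) C.nil) C.nil)) C.nil)) C.nil))) C.nil))) C.nil)) C.nil))) C.nil)) (C.cons (nat_lit 70)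 (C.node (nat_lit 2) (nat_lit 6) (nat_lit 8) (C.cons (nat_lit 324) (C.node (nat_lit 1) (nat_lit 5) (nat_lit 6) (C.cons (nat_lit 354) (C.node (nat_lit 5) (nat_lit 6) (nat_lit 9) (C.cons (nat_lit 608) (C.node (nat_lit 5) (nat_lit 7) (nat_lit 8) (C.cons (nat_lit 432) (C.miq (nat_lit 2237810480) (nat_lit 120897691831169521426432153)) (C.cons (nat_lit 416) (C.node (nat_lit 6) (nat_lit 8) (nat_lit 9) (C.cons (nat_lit 848) (C.miq (nat_lit 373467520) (nat_lit 101568787891695400063928193)) (C.cons (nat_lit 832) (C.node (nat_lit 1) (nat_lit 8) (nat_lit 9) (C.cons (nat_lit 778) (C.miq (nat_lit 1444088472) (nat_lit 89465989654516379773699969)) (C.cons (nat_lit 774) (C.miq (nat_lit 1175587480) (nat_lit 84629917441176388883580801)) C.nil))) C.nil))) C.nil))) C.nil)) (C.cons (nat_lit 98) (C.node (nat_lit 1) (nat_lit 6) (nat_lit 8) (C.cons (nat_lit 322) (C.node (nat_lit 1) (nat_lit 5) (nat_lit 10) (C.cons (nat_lit 1066) (C.node (nat_lit 5) (nat_lit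 9) (nat_lit 10) (C.cons (nat_lit 1568) (C.node (nat_lit 1) (nat_lit 3) (nat_lit 9) (C.cons (nat_lit 522) (C.node (nat_lit 1) (nat_lit 4) (nat_lit 10) C.nil) C.nil)) C.nil)) (C.cons (nat_lit 1058)
  (C.node (nat_lit 5) (nat_lit 6) (nat_lit 8) (C.cons (nat_lit 352) (C.node (nat_lit 5) (nat_lit 6) (nat_lit 9) (C.cons (nat_lit 608) (C.node (nat_lit 3) (nat_lit 5) (nat_lit 10) C.nil) C.nil)) C.nil)) C.nil))) C.nil)) C.nil))) C.nil)) C.nil))) C.nil))))) C.nil))) C.nil)))) C.nil))) (C.cons (nat_lit 104) (C.node (nat_lit 3) (nat_lit 6) (nat_lit 7) (C.cons (nat_lit 200) (C.node (nat_lit 1) (nat_lit 4) (nat_lit 10) (C.cons (nat_lit 1170) (C.miq (nat_lit 907282855) (nat_lit 99134739726038511784167297)) (C.cons (nat_lit 1050) (C.node (nat_lit 1) (nat_lit 5) (nat_lit 10) (C.cons (nat_lit 1186) (C.node (nat_lit 3) (nat_lit 9) (nat_lit 10) (C.cons (nat_lit 1576) (C.miq (nat_lit 372600986) (nat_lit 125750163133283003995260801)) (C.cons (nat_lit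 1544) (C.node (nat_lit 3) (nat_lit 5) (nat_lit 10) (C.cons (nat_lit 1068) (C.miq (nat_lit 1983189034) (nat_lit 125750163133283003961967623)) (C.cons (nat_lit 1064) (C.node (nat_lit 2) (nat_lit 5) (nat_lit 10) (C.cons (nat_lit 1572) (C.node (nat_lit 4) (nat_lit 9) (nat_lit 10) (C.cons (nat_lit 1552) (C.node (nat_lit 2) (nat_lit 3) (nat_lit 4) (C.cons (nat_lit 60) (C.miq (nat_lit 2032339540) (nat_lit 712060130645580043417027697)) (C.cons (nat_lit 28) (C.node (nat_lit 2) (nat_lit 3) (nat_lit 5) (C.cons (nat_lit 46) (C.miq (nat_lit 1632803440) (nat_lit 55621453285460363494885249)) (C.cons (nat_lit 44) (C.node (nat_lit 2) (nat_lit 4) (nat_lit 5) (C.cons (nat_lit 54) (C.miq (nat_lit 1632803440) (nat_lit 65292859842377396892534657)) (C.cons (nat_lit 52) (C.node (nat_lit 1) (nat_lit 2) (nat_lit 4) (C.cons (nat_lit 150) (C.miq (nat_lit 2440194640) (nat_lit 181349738525381797664326769)) (C.cons (nat_lit 22) (C.node (nat_lit 2) (nat_lit 4)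 (nat_lit 9) (C.cons (nat_lit 660) (C.miq (nat_lit 388605190) (nat_lit 797920592963491369094808689)) (C.cons (nat_lit 532) (C.node (nat_lit 1) (nat_lit 4) (nat_lit 5) C.nil) C.nil))) C.nil))) C.nil))) C.nil))) C.nil))) C.nil)) (C.cons (nat_lit 1060) (C.miq (nat_lit 2455396465) (nat_lit 1281490920641302477920141507)) C.nil))) C.nil))) C.nil))) (C.cons (nat_lit 1058) (C.node (nat_lit 1) (nat_lit 7) (nat_lit 10) (C.cons (nat_lit 1154) (C.node (nat_lit 2) (nat_lit 3) (nat_lit 4) (C.cons (nat_lit 60) (C.node (nat_lit 2) (nat_lit 5) (nat_lit 10) (C.cons (nat_lit 1572) (C.miq (nat_lit 2032339540) (nat_lit 712060130645580043417027697)) (C.cons (nat_lit 1060) (C.node (nat_lit 2) (nat_lit 9) (nat_lit 10) (C.cons (nat_lit 1556) (C.miq (nat_lit 2300774981) (nat_lit 712062786976726588872983665)) (C.cons (nat_lit 1540) (C.node (nat_lit 4) (nat_lit 9) (nat_lit 10) (C.cons (nat_lit 1552) (C.node (nat_lit 2) (nat_lit 4) (nat_lit 10) (C.cons (nat_lit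 1172) (C.miq (nat_lit 2319648549) (nat_lit 1269377589819068989145088165)) (C.cons (nat_lit 1044) (C.node (nat_lit 4) (nat_lit 7) (nat_lit 10) (C.cons (nat_lit 1168) (C.node (nat_lit 2) (nat_lit 3) (nat_lit 10) (C.cons (nat_lit 1036) (C.node (nat_lit 2) (nat_lit 7) (nat_lit 10) C.nil) C.nil)) C.nil)) C.nil))) C.nil)) C.nil))) C.nil))) (C.cons (nat_lit 28) (C.node (nat_lit 3) (nat_lit 4) (nat_lit 5) (C.cons (nat_lit 568) (C.node (nat_lit 3) (nat_lit 4) (nat_lit 8) (C.cons (nat_lit 280) (C.node (nat_lit 3) (nat_lit 9) (nat_lit 10) (C.cons (nat_lit 1544) (C.node (nat_lit 3) (nat_lit 7) (nat_lit 9) (C.cons (nat_lit 650) (C.miq (nat_lit 1630841200) (nat_lit 1269393084994298145630914433)) (C.cons (nat_lit 648) (C.node (nat_lit 1) (nat_lit 3) (nat_lit 9) (C.cons (nat_lit 778) (C.miq (nat_lit 1444088472) (nat_lit 89465989654516379773699969)) (C.cons (nat_lit 522) (C.node (nat_lit 3) (nat_lit 8) (nat_lit 9) (C.cons (nat_lit 776) (C.node (nat_lit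 1) (nat_lit 3) (nat_lit 5) C.nil) C.nil)) C.nil))) C.nil))) C.nil)) C.nil)) (C.cons (nat_lit 56) (C.node (nat_lit 3) (nat_lit 4) (nat_lit 8) (C.cons (nat_lit 792) (C.node (nat_lit 2) (nat_lit 7) (nat_lit 9) (C.cons (nat_lit 660) (C.miq (nat_lit 1396836503) (nat_lit 33852966745583248708208513)) (C.cons (nat_lit 646) (C.miq (nat_lit 1511458450) (nat_lit 1395103439868098158786904653)) (C.cons (nat_lit 644)
  (C.node (nat_lit 2) (nat_lit 8) (nat_lit 9) (C.cons (nat_lit 806) (C.miq (nat_lit 610369705) (nat_lit 99146785362096454256166785)) (C.cons (nat_lit 804) (C.miq (nat_lit 1193881688) (nat_lit 778562837696193946634682665)) (C.cons (nat_lit 774) (C.miq (nat_lit 610369705) (nat_lit 99146195066286095550515073)) (C.cons (nat_lit 772) (C.node (nat_lit 3) (nat_lit 7) (nat_lit 9) (C.cons (nat_lit 682) (C.miq (nat_lit 607455383) (nat_lit 67702889689163366067210113)) (C.cons (nat_lit 680) (C.miq (nat_lit 607455383) (nat_lit 67702889689163366067079041))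 (C.cons (nat_lit 650) (C.miq (nat_lit 1630841200) (nat_lit 1269393084994298145630914433)) (C.cons (nat_lit 648) (C.node (nat_lit 1) (nat_lit 2) (nat_lit 9) (C.cons (nat_lit 550) (C.node (nat_lit 1) (nat_lit 3) (nat_lit 9) (C.cons (nat_lit 522) (C.node (nat_lit 1) (nat_lit 7) (nat_lit 9) (C.cons (nat_lit 642) (C.node (nat_lit 1) (nat_lit 8) (nat_lit 9) (C.cons (nat_lit 770) (C.node (nat_lit 2) (nat_lit 4) (nat_lit 5) (C.cons (nat_lit 52) (C.node (nat_lit 1) (nat_lit 2) (nat_lit 4) (C.cons (nat_lit 150) (C.node (nat_lit 4) (nat_lit 7) (nat_lit 10) (C.cons (nat_lit 1168) (C.node (nat_lit 2) (nat_lit 3) (nat_lit 5) C.nil) C.nil)) (C.cons (nat_lit 22) (C.node (nat_lit 1) (nat_lit 2) (nat_lit 6) C.nil) C.nil))) C.nil)) C.nil)) C.nil)) C.nil)) (C.cons (nat_lit 518) (C.node (nat_lit 1) (nat_lit 3) (nat_lit 9) (C.cons (nat_lit 554) (C.node (nat_lit 1) (nat_lit 7) (nat_lit 9) (C.cons (nat_lit 642) (C.node (nat_lit 1) (nat_lit 8) (nat_lit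 9) (C.cons (nat_lit 770) (C.node (nat_lit 3) (nat_lit 9) (nat_lit 10) (C.cons (nat_lit 1544) (C.node (nat_lit 1) (nat_lit 2) (nat_lit 3) C.nil) C.nil)) C.nil)) C.nil)) (C.cons (nat_lit 522) (C.node (nat_lit 1) (nat_lit 7) (nat_lit 9) (C.cons (nat_lit 674) (C.node (nat_lit 1) (nat_lit 8) (nat_lit 9) (C.cons (nat_lit 770) (C.node (nat_lit 4) (nat_lit 5) (nat_lit 7) (C.cons (nat_lit 432) (C.miq (nat_lit 591726983) (nat_lit 67702889776983558784550785)) (C.cons (nat_lit 176) (C.node (nat_lit 1) (nat_lit 3) (nat_lit 5) (C.cons (nat_lit 46) (C.node (nat_lit 1) (nat_lit 3) (nat_lit 7) (C.cons (nat_lit 138) (C.node (nat_lit 1) (nat_lit 3) (nat_lit 8) C.nil) C.nil)) (C.cons (nat_lit 42) (C.node (nat_lit 2) (nat_lit 3) (nat_lit 5) C.nil) C.nil))) C.nil))) C.nil)) (C.cons (nat_lit 642) (C.node (nat_lit 1) (nat_lit 5) (nat_lit 9) (C.cons (nat_lit 802) (C.node (nat_lit 6) (nat_lit 8) (nat_lit 9) (C.cons (nat_lit 832) (C.node (nat_lit 1) (nat_lit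 4) (nat_lit 8) (C.cons (nat_lit 402) (C.miq (nat_lit 873896048) (nat_lit 99142782563588915396282241)) C.nil)) C.nil)) (C.cons (nat_lit 546) (C.node (nat_lit 1) (nat_lit 8) (nat_lit 9) (C.cons (nat_lit 770) (C.node (nat_lit 3) (nat_lit 5) (nat_lit 9) C.nil) C.nil)) C.nil))) C.nil))) C.nil))) C.nil))) C.nil))))) C.nil))))) C.nil)))) (C.cons (nat_lit 280) (C.node (nat_lit 3) (nat_lit 4) (nat_lit 9) (C.cons (nat_lit 536) (C.node (nat_lit 3) (nat_lit 8) (nat_lit 9) (C.cons (nat_lit 778) (C.miq (nat_lit 1444088472) (nat_lit 89465989654516379773699969)) (C.cons (nat_lit 776) (C.node (nat_lit 3) (nat_lit 9) (nat_lit 10) (C.cons (nat_lit 1576) (C.node (nat_lit 2) (nat_lit 5) (nat_lit 10) (C.cons (nat_lit 1060) (C.node (nat_lit 5) (nat_lit 7) (nat_lit 10) (C.cons (nat_lit 1184) (C.node (nat_lit 1) (nat_lit 3) (nat_lit 9) (C.cons (nat_lit 650) (C.miq (nat_lit 1630841200) (nat_lit 1269393084994298145630914433)) (C.cons (nat_lit 522) (C.node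 (nat_lit 3) (nat_lit 7) (nat_lit 9) C.nil) C.nil))) C.nil)) C.nil)) (C.cons (nat_lit 1544) (C.node (nat_lit 5) (nat_lit 9) (nat_lit 10) (C.cons (nat_lit 1572) (C.miq (nat_lit 1906640530) (nat_lit 1279046560919944330014360141)) (C.cons (nat_lit 1568) (C.node (nat_lit 1) (nat_lit 3) (nat_lit 9) (C.cons (nat_lit 682) (C.miq (nat_lit 1630841200) (nat_lit 1269393084994298283069867905)) (C.cons (nat_lit 650) (C.miq (nat_lit 1630841200) (nat_lit 1269393084994298145630914433)) (C.cons (nat_lit 554)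
  (C.node (nat_lit 2) (nat_lit 3) (nat_lit 10) C.nil) C.nil)))) C.nil))) C.nil))) C.nil))) C.nil)) C.nil))) C.nil))) C.nil))) C.nil)) C.nil))) (C.cons (nat_lit 1042) (C.node (nat_lit 4) (nat_lit 7) (nat_lit 10) (C.cons (nat_lit 1172) (C.node (nat_lit 3) (nat_lit 4) (nat_lit 10) (C.cons (nat_lit 1560) (C.miq (nat_lit 440887600) (nat_lit 1416864658154369378967683661)) (C.cons (nat_lit 1048) (C.node (nat_lit 4) (nat_lit 9) (nat_lit 10) (C.cons (nat_lit 1552) (C.node (nat_lit 2) (nat_lit 3) (nat_lit 10) (C.cons (nat_lit 1068) (C.node (nat_lit 2) (nat_lit 9) (nat_lit 10) (C.cons (nat_lit 1540) (C.node (nat_lit 3) (nat_lit 9) (nat_lit 10) (C.cons (nat_lit 1544) (C.node (nat_lit 5) (nat_lit 9) (nat_lit 10) C.nil) C.nil)) C.nil)) (C.cons (nat_lit 1036) (C.node (nat_lit 2) (nat_lit 4) (nat_lit 9) (C.cons (nat_lit 564) (C.node (nat_lit 2) (nat_lit 5) (nat_lit 10) (C.cons (nat_lit 1060) (C.node (nat_lit 2) (nat_lit 9) (nat_lit 10) (C.cons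 (nat_lit 1540) (C.node (nat_lit 3) (nat_lit 9) (nat_lit 10) (C.cons (nat_lit 1544) (C.node (nat_lit 5) (nat_lit 9) (nat_lit 10) (C.cons (nat_lit 1568) (C.node (nat_lit 1) (nat_lit 3) (nat_lit 10) (C.cons (nat_lit 1194) (C.miq (nat_lit 1519546720) (nat_lit 1861748806255389093892260035)) C.nil)) C.nil)) C.nil)) C.nil)) C.nil)) (C.cons (nat_lit 532) (C.node (nat_lit 2) (nat_lit 5) (nat_lit 10) (C.cons (nat_lit 1572) (C.node (nat_lit 3) (nat_lit 9) (nat_lit 10) (C.cons (nat_lit 1544) (C.node (nat_lit 1) (nat_lit 3) (nat_lit 10) (C.cons (nat_lit 1194) (C.miq (nat_lit 977819424) (nat_lit 1566773341239635458068381861)) (C.cons (nat_lit 1162) (C.miq (nat_lit 1461330025) (nat_lit 1404800800720327181204587085)) (C.cons (nat_lit 1066) (C.miq (nat_lit 1906640530) (nat_lit 1288717967476861363412009549)) C.nil)))) C.nil)) (C.cons (nat_lit 1060) (C.node (nat_lit 2) (nat_lit 9) (nat_lit 10) (C.cons (nat_lit 1540) (C.node (nat_lit 3) (nat_lit 9)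 (nat_lit 10) (C.cons (nat_lit 1544) (C.node (nat_lit 5) (nat_lit 9) (nat_lit 10) (C.cons (nat_lit 1568) (C.node (nat_lit 1) (nat_lit 3) (nat_lit 10) (C.cons (nat_lit 1194) (C.miq (nat_lit 1519546720) (nat_lit 1861748806255389093892260035)) C.nil)) C.nil)) C.nil)) C.nil)) C.nil))) C.nil))) C.nil))) C.nil)) C.nil))) (C.cons (nat_lit 1168) (C.node (nat_lit 2) (nat_lit 7) (nat_lit 10) (C.cons (nat_lit 1164) (C.node (nat_lit 3) (nat_lit 4) (nat_lit 10) (C.cons (nat_lit 1560) (C.miq (nat_lit 440887600) (nat_lit 1412028954875910862268858957)) (C.cons (nat_lit 1048) (C.node (nat_lit 1) (nat_lit 3) (nat_lit 10) (C.cons (nat_lit 1066) (C.node (nat_lit 1) (nat_lit 7) (nat_lit 10) (C.cons (nat_lit 1154) (C.node (nat_lit 3) (nat_lit 9) (nat_lit 10) (C.cons (nat_lit 1544) (C.node (nat_lit 5) (nat_lit 7) (nat_lit 10) C.nil) C.nil)) C.nil)) (C.cons (nat_lit 1034) (C.node (nat_lit 1) (nat_lit 5) (nat_lit 10) (C.cons (nat_lit 1186) (C.node (nat_lit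 2) (nat_lit 4) (nat_lit 10) (C.cons (nat_lit 1556) (C.miq (nat_lit 1519546720) (nat_lit 1881091619366971360873873603)) (C.cons (nat_lit 1044) (C.node (nat_lit 4) (nat_lit 9) (nat_lit 10) C.nil) C.nil))) (C.cons (nat_lit 1058) (C.node (nat_lit 1) (nat_lit 7) (nat_lit 10) (C.cons (nat_lit 1154) (C.node (nat_lit 5) (nat_lit 7) (nat_lit 10) (C.cons (nat_lit 1184) (C.node (nat_lit 2) (nat_lit 4) (nat_lit 10) (C.cons (nat_lit 1044) (C.node (nat_lit 4) (nat_lit 9) (nat_lit 10) C.nil) C.nil)) C.nil)) C.nil)) C.nil))) C.nil))) C.nil))) (C.cons (nat_lit 1156) (C.node (nat_lit 3) (nat_lit 4) (nat_lit 10) (C.cons (nat_lit 1560) (C.miq (nat_lit 440887600) (nat_lit 1412028954875910862268858957)) (C.cons (nat_lit 1052) (C.node (nat_lit 4) (nat_lit 9) (nat_lit 10) (C.cons (nat_lit 1552) (C.node (nat_lit 2) (nat_lit 3) (nat_lit 7) (C.cons (nat_lit 398) (C.miq (nat_lit 1446120071) (nat_lit 712060351785831601319839617)) (C.cons (nat_lit 396) (C.miq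 (nat_lit 1446120071) (nat_lit 712060351785831601319708545)) (C.cons (nat_lit 142) (C.miq (nat_lit 1131848208) (nat_lit 241806138167049928099169287)) (C.cons (nat_lit 140) (C.node (nat_lit 2) (nat_lit 3) (nat_lit 5)
  (C.cons (nat_lit 46) (C.node (nat_lit 2) (nat_lit 3) (nat_lit 8) (C.cons (nat_lit 268) (C.node (nat_lit 1) (nat_lit 5) (nat_lit 10) (C.cons (nat_lit 1186) (C.miq (nat_lit 1632803440) (nat_lit 55621453285460363494885249)) (C.cons (nat_lit 1058) (C.node (nat_lit 1) (nat_lit 3) (nat_lit 10) (C.cons (nat_lit 1162) (C.node (nat_lit 5) (nat_lit 7) (nat_lit 10) C.nil) C.nil)) C.nil))) C.nil)) (C.cons (nat_lit 44) (C.node (nat_lit 1) (nat_lit 2) (nat_lit 3) (C.cons (nat_lit 270) (C.node (nat_lit 2) (nat_lit 7) (nat_lit 8) (C.cons (nat_lit 388) (C.node (nat_lit 3) (nat_lit 7) (nat_lit 8) (C.cons (nat_lit 392) (C.node (nat_lit 1) (nat_lit 2) (nat_lit 6) (C.cons (nat_lit 102) (C.node (nat_lit 1) (nat_lit 6) (nat_lit 8) (C.cons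 (nat_lit 322) (C.node (nat_lit 2) (nat_lit 6) (nat_lit 8) C.nil) C.nil)) (C.cons (nat_lit 70) (C.node (nat_lit 1) (nat_lit 5) (nat_lit 10) (C.cons (nat_lit 1194) (C.miq (nat_lit 1382117530) (nat_lit 84646832831893952432048001)) (C.cons (nat_lit 1186) (C.miq (nat_lit 1382117530) (nat_lit 84646685257941362755635073)) (C.cons (nat_lit 1066) (C.miq (nat_lit 1161300498) (nat_lit 359056078493694909406381063)) (C.cons (nat_lit 1058) (C.node (nat_lit 1) (nat_lit 3) (nat_lit 10) C.nil) C.nil))))) C.nil))) C.nil)) C.nil)) (C.cons (nat_lit 14) (C.node (nat_lit 2) (nat_lit 3) (nat_lit 8) (C.cons (nat_lit 268) (C.node (nat_lit 2) (nat_lit 5) (nat_lit 10) (C.cons (nat_lit 1572) (C.node (nat_lit 3) (nat_lit 9) (nat_lit 10) (C.cons (nat_lit 1544) (C.node (nat_lit 3) (nat_lit 7) (nat_lit 9) (C.cons (nat_lit 682) (C.miq (nat_lit 1175653015) (nat_lit 89463333323369765591975809)) (C.cons (nat_lit 680) (C.miq (nat_lit 1733890090) (nat_lit 822099109076842250733093895))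 (C.cons (nat_lit 650) (C.miq (nat_lit 1175653015) (nat_lit 89463333323369765589878657)) C.nil)))) C.nil)) (C.cons (nat_lit 1060) (C.node (nat_lit 2) (nat_lit 9) (nat_lit 10) C.nil) C.nil))) C.nil)) C.nil))) C.nil))) C.nil))))) C.nil)) (C.cons (nat_lit 1048) (C.node (nat_lit 2) (nat_lit 3) (nat_lit 10) (C.cons (nat_lit 1068) (C.node (nat_lit 3) (nat_lit 9) (nat_lit 10) (C.cons (nat_lit 1544) (C.node (nat_lit 5) (nat_lit 9) (nat_lit 10) (C.cons (nat_lit 1568) (C.node (nat_lit 1) (nat_lit 3) (nat_lit 10) (C.cons (nat_lit 1034) (C.node (nat_lit 3) (nat_lit 7) (nat_lit 10) C.nil) C.nil)) C.nil)) C.nil)) (C.cons (nat_lit 1036) (C.node (nat_lit 2) (nat_lit 4) (nat_lit 10) (C.cons (nat_lit 1556) (C.node (nat_lit 2) (nat_lit 5) (nat_lit 10) (C.cons (nat_lit 1060) (C.node (nat_lit 3) (nat_lit 9) (nat_lit 10) (C.cons (nat_lit 1544) (C.node (nat_lit 5) (nat_lit 9) (nat_lit 10) (C.cons (nat_lit 1568) (C.node (nat_lit 1) (nat_lit 3) (nat_lit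 10) (C.cons (nat_lit 1194) (C.miq (nat_lit 1519546720) (nat_lit 1881091619369223160687558851)) C.nil)) C.nil)) C.nil)) C.nil)) (C.cons (nat_lit 1044) (C.node (nat_lit 4) (nat_lit 9) (nat_lit 10) (C.cons (nat_lit 1552) (C.node (nat_lit 2) (nat_lit 5) (nat_lit 10) (C.cons (nat_lit 1572) (C.node (nat_lit 3) (nat_lit 9) (nat_lit 10) (C.cons (nat_lit 1544) (C.node (nat_lit 2) (nat_lit 4) (nat_lit 9) (C.cons (nat_lit 660) (C.miq (nat_lit 422013520) (nat_lit 797894638511679293058516081)) (C.cons (nat_lit 532) (C.node (nat_lit 2) (nat_lit 4) (nat_lit 7) C.nil) C.nil))) C.nil)) (C.cons (nat_lit 1060) (C.node (nat_lit 2) (nat_lit 9) (nat_lit 10) C.nil) C.nil))) C.nil)) C.nil))) C.nil))) C.nil)))) C.nil))) C.nil))) C.nil)))) C.nil)) C.nil))) C.nil)) C.nil))) C.nil))) List.nil)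

theorem ok11_105 : okL par11 (nat_lit 106) c11_105 (nat_lit 105) = true := by decide +kernel

noncomputable def c11_106 : List C :=
  (List.cons (C.node (nat_lit 4) (nat_lit 9) (nat_lit 10) (C.cons (nat_lit 1556) (C.node (nat_lit 5) (nat_lit 9) (nat_lit 10) (C.cons (nat_lit 1568) (C.node (nat_lit 2) (nat_lit 7) (nat_lit 9) (C.cons (nat_lit 646) (C.miq (nat_lit 373452969) (nat_lit 101561685499192970984032129)) (C.cons (nat_lit 644) (C.node (nat_lit 4) (nat_lit 7) (nat_lit 10) (C.cons (nat_lit 1170) (C.miq (nat_lit 371486874) (nat_lit 101571351593085241147000705)) (C.cons (nat_lit 1168) (C.node (nat_lit 4) (nat_lit 6) (nat_lit 9) (C.cons (nat_lit 848) (C.miq (nat_lit 373467520) (nat_lit 101568787891695400063928193)) (C.cons (nat_lit 720) (C.miq (nat_lit 306580119) (nat_lit 101553366252930608042870657)) (C.cons (nat_lit 592) (C.node (nat_lit 6) (nat_lit 7) (nat_lit 9) (C.cons (nat_lit 736) (C.miq (nat_lit 426944080) (nat_lit 778567246875887256855708785))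 (C.cons (nat_lit 704) (C.node (nat_lit 2) (nat_lit 4) (nat_lit 7) (C.cons (nat_lit 150) (C.node (nat_lit 2) (nat_lit 3) (nat_lit 4) (C.cons (nat_lit 60) (C.miq (nat_lit 2300774981) (nat_lit 712062786976726588872983665)) (C.cons (nat_lit 28) (C.node (nat_lit 2) (nat_lit 4) (nat_lit 5) (C.cons (nat_lit 52) (C.node (nat_lit 2) (nat_lit 7) (nat_lit 8) (C.cons (nat_lit 396) (C.node (nat_lit 2) (nat_lit 7) (nat_lit 10) (C.cons (nat_lit 1156) (C.node (nat_lit 2) (nat_lit 8) (nat_lit 10) (C.cons (nat_lit 1316) (C.miq (nat_lit 1379182704) (nat_lit 33870897267644194820261761)) (C.cons (nat_lit 1284) (C.node (nat_lit 3) (nat_lit 6) (nat_lit 7) (C.cons (nat_lit 232) (C.miq (nat_lit 1115031605) (nat_lit 236970434670449395373703465)) (C.cons (nat_lit 200) (C.node (nat_lit 2) (nat_lit 5) (nat_lit 6) (C.cons (nat_lit 358) (C.miq (nat_lit 2435294800) (nat_lit 181374309588484422554158193)) (C.cons (nat_lit 356) (C.miq (nat_lit 1651791920) (nat_lit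 181359846990412976492183849)) (C.cons (nat_lit 102) (C.miq (nat_lit 2435294800) (nat_lit 181374309588483323042530417)) (C.cons (nat_lit 100) (C.node (nat_lit 3) (nat_lit 4) (nat_lit 6) (C.cons (nat_lit 346) (C.miq (nat_lit 2705823280) (nat_lit 181374309588484371013763661)) (C.cons (nat_lit 344) (C.miq (nat_lit 1446446210) (nat_lit 241788207955736523031970069)) (C.cons (nat_lit 90) (C.miq (nat_lit 2705823280) (nat_lit 181374309588483271502135885)) (C.cons (nat_lit 88) (C.node (nat_lit 4) (nat_lit 8) (nat_lit 10) (C.cons (nat_lit 1306) (C.miq (nat_lit 1412565639) (nat_lit 33852966982024436741048193)) (C.cons (nat_lit 1304) (C.miq (nat_lit 1412565639) (nat_lit 33852966982024428151113601)) (C.cons (nat_lit 1298) (C.miq (nat_lit 1631754880) (nat_lit 181349738525382278708004737)) (C.cons (nat_lit 1296) (C.node (nat_lit 5) (nat_lit 7) (nat_lit 10) (C.cons (nat_lit 1194) (C.miq (nat_lit 354854665) (nat_lit 120922133981550831073036161))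 (C.cons (nat_lit 1192) (C.miq (nat_lit 1394911104) (nat_lit 33870897232741297716266881)) (C.cons (nat_lit 1186) (C.miq (nat_lit 354854665) (nat_lit 120922133979299031259350913)) (C.cons (nat_lit 1184) (C.node (nat_lit 1) (nat_lit 2) (nat_lit 3) (C.cons (nat_lit 46) (C.node (nat_lit 2) (nat_lit 3) (nat_lit 10) C.nil) (C.cons (nat_lit 14) (C.node (nat_lit 2) (nat_lit 3) (nat_lit 5) (C.cons (nat_lit 44) (C.node (nat_lit 2) (nat_lit 3) (nat_lit 10) C.nil) C.nil)) C.nil))) C.nil))))) C.nil))))) C.nil))))) C.nil))))) C.nil))) C.nil))) C.nil)) (C.cons (nat_lit 388) (C.node (nat_lit 2) (nat_lit 3) (nat_lit 7) (C.cons (nat_lit 1164) (C.node (nat_lit 1) (nat_lit 7) (nat_lit 10) (C.cons (nat_lit 1186) (C.miq (nat_lit 2440194640) (nat_lit 181349738525381797664326769)) (C.cons (nat_lit 1154) (C.node (nat_lit 5) (nat_lit 7) (nat_lit 10) (C.cons (nat_lit 1184) (C.node (nat_lit 2) (nat_lit 3) (nat_lit 5) (C.cons (nat_lit 46) (C.node (nat_lit 2)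 (nat_lit 3) (nat_lit 8) (C.cons (nat_lit 268) (C.node (nat_lit 3) (nat_lit 5) (nat_lit 10) (C.cons (nat_lit 1064) (C.node (nat_lit 1) (nat_lit 2) (nat_lit 9) (C.cons (nat_lit 774) (C.miq (nat_lit 1629792640) (nat_lit 181359847341132420979427201)) (C.cons (nat_lit 518) (C.node (nat_lit 1) (nat_lit 5) (nat_lit 10)
  (C.cons (nat_lit 1314) (C.miq (nat_lit 1632868992) (nat_lit 55621453285460913259349889)) (C.cons (nat_lit 1058) (C.node (nat_lit 2) (nat_lit 5) (nat_lit 10) (C.cons (nat_lit 1316) (C.node (nat_lit 2) (nat_lit 5) (nat_lit 6) C.nil) C.nil)) C.nil))) C.nil))) C.nil)) C.nil)) (C.cons (nat_lit 44) (C.node (nat_lit 1) (nat_lit 2) (nat_lit 3) (C.cons (nat_lit 270) (C.node (nat_lit 1) (nat_lit 2) (nat_lit 6) (C.cons (nat_lit 102) (C.miq (nat_lit 2435294800) (nat_lit 181374309588483323042530417)) (C.cons (nat_lit 70) (C.node (nat_lit 3) (nat_lit 5) (nat_lit 10) (C.cons (nat_lit 1066) (C.miq (nat_lit 1161300498) (nat_lit 359056078493694909406381063))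 (C.cons (nat_lit 1064) (C.node (nat_lit 1) (nat_lit 5) (nat_lit 10) (C.cons (nat_lit 1314) (C.miq (nat_lit 2441308752) (nat_lit 326420836879137848393532529)) (C.cons (nat_lit 1058) (C.node (nat_lit 1) (nat_lit 8) (nat_lit 10) (C.cons (nat_lit 1298) (C.miq (nat_lit 1631754880) (nat_lit 181349738525382278708004737)) C.nil)) C.nil))) C.nil))) C.nil))) (C.cons (nat_lit 14) (C.node (nat_lit 2) (nat_lit 3) (nat_lit 8) (C.cons (nat_lit 268) (C.node (nat_lit 2) (nat_lit 5) (nat_lit 10) (C.cons (nat_lit 1316) (C.node (nat_lit 4) (nat_lit 6) (nat_lit 7) (C.cons (nat_lit 464) (C.node (nat_lit 1) (nat_lit 4) (nat_lit 6) (C.cons (nat_lit 90) (C.miq (nat_lit 2705823280) (nat_lit 181374309588483271502135885)) C.nil)) C.nil)) (C.cons (nat_lit 1060) (C.node (nat_lit 2) (nat_lit 8) (nat_lit 10) (C.cons (nat_lit 1284) (C.node (nat_lit 3) (nat_lit 5) (nat_lit 10) (C.cons (nat_lit 1066) (C.node (nat_lit 5) (nat_lit 8) (nat_lit 10) C.nil) C.nil)) C.nil))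 C.nil))) C.nil)) C.nil))) C.nil))) C.nil)) C.nil))) (C.cons (nat_lit 140) (C.node (nat_lit 2) (nat_lit 7) (nat_lit 10) (C.cons (nat_lit 1156) (C.node (nat_lit 4) (nat_lit 6) (nat_lit 7) (C.cons (nat_lit 464) (C.node (nat_lit 1) (nat_lit 4) (nat_lit 6) (C.cons (nat_lit 90) (C.miq (nat_lit 2705823280) (nat_lit 181374309588483271502135885)) (C.cons (nat_lit 82) (C.node (nat_lit 3) (nat_lit 4) (nat_lit 6) (C.cons (nat_lit 88) (C.node (nat_lit 3) (nat_lit 6) (nat_lit 7) (C.cons (nat_lit 232) (C.node (nat_lit 3) (nat_lit 7) (nat_lit 9) (C.cons (nat_lit 650) (C.miq (nat_lit 878801065) (nat_lit 99143907635118058453993345)) (C.cons (nat_lit 648) (C.node (nat_lit 5) (nat_lit 7) (nat_lit 10) (C.cons (nat_lit 1186) (C.miq (nat_lit 2440194640) (nat_lit 181349738525381797664326769)) (C.cons (nat_lit 1184) (C.node (nat_lit 1) (nat_lit 7) (nat_lit 9) (C.cons (nat_lit 642) (C.node (nat_lit 1) (nat_lit 5) (nat_lit 7) C.nil) C.nil)) C.nil))) C.nil)))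 (C.cons (nat_lit 200) (C.node (nat_lit 5) (nat_lit 6) (nat_lit 7) (C.cons (nat_lit 224) (C.node (nat_lit 3) (nat_lit 5) (nat_lit 6) (C.cons (nat_lit 104) (C.node (nat_lit 1) (nat_lit 3) (nat_lit 6) C.nil) C.nil)) C.nil)) C.nil))) C.nil)) C.nil))) (C.cons (nat_lit 208) (C.node (nat_lit 4) (nat_lit 7) (nat_lit 8) (C.cons (nat_lit 432) (C.node (nat_lit 4) (nat_lit 7) (nat_lit 9) (C.cons (nat_lit 656) (C.node (nat_lit 4) (nat_lit 8) (nat_lit 9) (C.cons (nat_lit 792) (C.miq (nat_lit 877828208) (nat_lit 62875007975150169002149761)) (C.cons (nat_lit 784) (C.node (nat_lit 5) (nat_lit 6) (nat_lit 7) (C.cons (nat_lit 232) (C.miq (nat_lit 931292480) (nat_lit 469074083208039584752796785)) (C.cons (nat_lit 224) (C.node (nat_lit 5) (nat_lit 6) (nat_lit 9) (C.cons (nat_lit 864) (C.miq (nat_lit 911477127) (nat_lit 1374551479419469121364952961)) (C.cons (nat_lit 608) (C.node (nat_lit 6) (nat_lit 8) (nat_lit 9) (C.cons (nat_lit 832) (C.node (nat_lit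 2) (nat_lit 5) (nat_lit 6) (C.cons (nat_lit 356) (C.miq (nat_lit 847709780) (nat_lit 469066040528109687666639985)) (C.cons (nat_lit 102) (C.miq (nat_lit 2435294800) (nat_lit 181374309588483323042530417)) C.nil))) C.nil)) C.nil))) C.nil))) C.nil))) C.nil)) (C.cons (nat_lit 400) (C.node (nat_lit 4) (nat_lit 5) (nat_lit 7) (C.cons (nat_lit 688) (C.node (nat_lit 1) (nat_lit 7) (nat_lit 9) (C.cons (nat_lit 650) (C.miq (nat_lit 2708760880) (nat_lit 181359847341131888395354701)) (C.cons (nat_lit 642)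
  (C.node (nat_lit 3) (nat_lit 7) (nat_lit 9) (C.cons (nat_lit 648) (C.node (nat_lit 3) (nat_lit 4) (nat_lit 5) (C.cons (nat_lit 58) (C.node (nat_lit 3) (nat_lit 5) (nat_lit 9) (C.cons (nat_lit 552) (C.node (nat_lit 4) (nat_lit 5) (nat_lit 8) (C.cons (nat_lit 304) (C.node (nat_lit 1) (nat_lit 4) (nat_lit 10) (C.cons (nat_lit 1298) (C.miq (nat_lit 1631754880) (nat_lit 181349738525382278708004737)) C.nil)) C.nil)) C.nil)) (C.cons (nat_lit 56) (C.node (nat_lit 1) (nat_lit 4) (nat_lit 5) (C.cons (nat_lit 306) (C.node (nat_lit 1) (nat_lit 4) (nat_lit 10) (C.cons (nat_lit 1050) (C.node (nat_lit 1) (nat_lit 8) (nat_lit 10) C.nil) C.nil)) (C.cons (nat_lit 50) (C.node (nat_lit 4) (nat_lit 5) (nat_lit 8) (C.cons (nat_lit 304) (C.node (nat_lit 3) (nat_lit 4) (nat_lit 9) (C.cons (nat_lit 536) (C.node (nat_lit 4) (nat_lit 8) (nat_lit 9) C.nil) C.nil)) C.nil)) C.nil))) C.nil))) C.nil)) C.nil))) (C.cons (nat_lit 176) (C.node (nat_lit 4) (nat_lit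 7) (nat_lit 9) (C.cons (nat_lit 656) (C.node (nat_lit 5) (nat_lit 7) (nat_lit 10) (C.cons (nat_lit 1194) (C.miq (nat_lit 2440194640) (nat_lit 181349738525381832024065137)) (C.cons (nat_lit 1192) (C.node (nat_lit 1) (nat_lit 7) (nat_lit 10) C.nil) (C.cons (nat_lit 1186) (C.miq (nat_lit 2440194640) (nat_lit 181349738525381797664326769)) C.nil)))) C.nil)) C.nil))) C.nil))) C.nil))) C.nil)) C.nil))) C.nil))) C.nil)) C.nil))) (C.cons (nat_lit 148) (C.node (nat_lit 2) (nat_lit 7) (nat_lit 10) (C.cons (nat_lit 1164) (C.node (nat_lit 1) (nat_lit 7) (nat_lit 10) (C.cons (nat_lit 1186) (C.miq (nat_lit 388605190) (nat_lit 778577779849657302299509873)) (C.cons (nat_lit 1154) (C.node (nat_lit 5) (nat_lit 7) (nat_lit 10) (C.cons (nat_lit 1184) (C.node (nat_lit 2) (nat_lit 3) (nat_lit 4) (C.cons (nat_lit 62) (C.miq (nat_lit 2300774981) (nat_lit 712062786976726588873114737)) (C.cons (nat_lit 60) (C.miq (nat_lit 2300774981) (nat_lit 712062786976726588872983665))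 (C.cons (nat_lit 30) (C.miq (nat_lit 2536770081) (nat_lit 184975446162859833107022855)) (C.cons (nat_lit 28) (C.node (nat_lit 1) (nat_lit 2) (nat_lit 4) (C.cons (nat_lit 54) (C.node (nat_lit 2) (nat_lit 3) (nat_lit 5) (C.cons (nat_lit 44) (C.node (nat_lit 1) (nat_lit 2) (nat_lit 7) (C.cons (nat_lit 390) (C.miq (nat_lit 1517371522) (nat_lit 1395101392279507347104465173)) (C.cons (nat_lit 134) (C.node (nat_lit 2) (nat_lit 7) (nat_lit 8) (C.cons (nat_lit 388) (C.node (nat_lit 1) (nat_lit 2) (nat_lit 9) (C.cons (nat_lit 774) (C.miq (nat_lit 1629792640) (nat_lit 65302968658128020207634305)) (C.cons (nat_lit 518) (C.node (nat_lit 2) (nat_lit 5) (nat_lit 10) (C.cons (nat_lit 1060) (C.node (nat_lit 2) (nat_lit 8) (nat_lit 10) C.nil) C.nil)) C.nil))) C.nil)) C.nil))) C.nil)) (C.cons (nat_lit 22) (C.node (nat_lit 2) (nat_lit 4) (nat_lit 5) (C.cons (nat_lit 52) (C.node (nat_lit 1) (nat_lit 2) (nat_lit 7) (C.cons (nat_lit 390) (C.node (nat_lit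 2) (nat_lit 3) (nat_lit 8) (C.cons (nat_lit 268) (C.node (nat_lit 1) (nat_lit 2) (nat_lit 6) (C.cons (nat_lit 102) (C.miq (nat_lit 2435294800) (nat_lit 471516506295994324972012657)) (C.cons (nat_lit 70) (C.node (nat_lit 2) (nat_lit 5) (nat_lit 10) (C.cons (nat_lit 1316) (C.miq (nat_lit 1377216624) (nat_lit 84645781691458594390869889)) (C.cons (nat_lit 1060) (C.node (nat_lit 2) (nat_lit 8) (nat_lit 10) (C.cons (nat_lit 1284) (C.node (nat_lit 2) (nat_lit 5) (nat_lit 6) C.nil) C.nil)) C.nil))) C.nil))) C.nil)) (C.cons (nat_lit 134) (C.node (nat_lit 2) (nat_lit 7) (nat_lit 8) (C.cons (nat_lit 388) (C.node (nat_lit 2) (nat_lit 3) (nat_lit 5) (C.cons (nat_lit 46) (C.node (nat_lit 2) (nat_lit 3) (nat_lit 8) (C.cons (nat_lit 268) (C.node (nat_lit 3) (nat_lit 5) (nat_lit 10) (C.cons (nat_lit 1064) (C.node (nat_lit 2) (nat_lit 5) (nat_lit 10) C.nil) C.nil)) C.nil)) (C.cons (nat_lit 44) (C.node (nat_lit 1) (nat_lit 2) (nat_lit 3) (C.cons (nat_lit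 270) (C.node (nat_lit 2) (nat_lit 5) (nat_lit 10) (C.cons (nat_lit 1060) (C.node (nat_lit 2) (nat_lit 8) (nat_lit 10) C.nil) C.nil)) (C.cons (nat_lit 14) (C.node (nat_lit 2) (nat_lit 3) (nat_lit 8)
  (C.cons (nat_lit 268) (C.node (nat_lit 1) (nat_lit 2) (nat_lit 6) C.nil) C.nil)) C.nil))) C.nil))) C.nil)) C.nil))) C.nil)) C.nil))) C.nil))))) C.nil)) C.nil))) (C.cons (nat_lit 1156) (C.node (nat_lit 4) (nat_lit 6) (nat_lit 7) (C.cons (nat_lit 464) (C.node (nat_lit 1) (nat_lit 4) (nat_lit 6) (C.cons (nat_lit 90) (C.miq (nat_lit 343565065) (nat_lit 1412054909019226363918352973)) (C.cons (nat_lit 82) (C.node (nat_lit 3) (nat_lit 4) (nat_lit 6) (C.cons (nat_lit 88) (C.node (nat_lit 1) (nat_lit 4) (nat_lit 7) (C.cons (nat_lit 178) (C.node (nat_lit 4) (nat_lit 7) (nat_lit 9) (C.cons (nat_lit 656) (C.node (nat_lit 5) (nat_lit 7) (nat_lit 8) (C.cons (nat_lit 416) (C.node (nat_lit 1) (nat_lit 7) (nat_lit 9) (C.cons (nat_lit 650) (C.miq (nat_lit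 878801065) (nat_lit 99143907635118058453993345)) (C.cons (nat_lit 642) (C.node (nat_lit 2) (nat_lit 4) (nat_lit 5) (C.cons (nat_lit 60) (C.miq (nat_lit 2300774981) (nat_lit 712062786976726588872983665)) (C.cons (nat_lit 52) (C.node (nat_lit 3) (nat_lit 4) (nat_lit 5) (C.cons (nat_lit 568) (C.miq (nat_lit 1499546375) (nat_lit 1936702446702961374699651225)) (C.cons (nat_lit 56) (C.node (nat_lit 3) (nat_lit 6) (nat_lit 7) (C.cons (nat_lit 232) (C.miq (nat_lit 924411200) (nat_lit 776141241390154304223118449)) (C.cons (nat_lit 200) (C.node (nat_lit 5) (nat_lit 6) (nat_lit 7) (C.cons (nat_lit 224) (C.node (nat_lit 1) (nat_lit 7) (nat_lit 10) C.nil) C.nil)) C.nil))) C.nil))) C.nil))) C.nil))) C.nil)) C.nil)) (C.cons (nat_lit 146) (C.node (nat_lit 3) (nat_lit 6) (nat_lit 7) (C.cons (nat_lit 232) (C.node (nat_lit 3) (nat_lit 7) (nat_lit 9) (C.cons (nat_lit 650) (C.miq (nat_lit 878801065) (nat_lit 99143907635118058453993345)) (C.cons (nat_lit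 648) (C.node (nat_lit 5) (nat_lit 7) (nat_lit 10) (C.cons (nat_lit 1186) (C.miq (nat_lit 388605190) (nat_lit 778577779849657302299509873)) (C.cons (nat_lit 1184) (C.node (nat_lit 1) (nat_lit 2) (nat_lit 7) (C.cons (nat_lit 398) (C.miq (nat_lit 1468293920) (nat_lit 560962554314503648835863117)) (C.cons (nat_lit 390) (C.miq (nat_lit 2759984753) (nat_lit 334891470946431317351727299)) (C.cons (nat_lit 142) (C.miq (nat_lit 441917539) (nat_lit 1431370790151584993990148685)) (C.cons (nat_lit 134) (C.node (nat_lit 2) (nat_lit 3) (nat_lit 7) (C.cons (nat_lit 396) (C.miq (nat_lit 1468293920) (nat_lit 560962554314503640245928525)) (C.cons (nat_lit 140) (C.node (nat_lit 2) (nat_lit 7) (nat_lit 8) (C.cons (nat_lit 388) (C.node (nat_lit 1) (nat_lit 3) (nat_lit 6) C.nil) C.nil)) C.nil))) C.nil))))) C.nil))) C.nil))) (C.cons (nat_lit 200) (C.node (nat_lit 5) (nat_lit 6) (nat_lit 7) (C.cons (nat_lit 224) (C.node (nat_lit 3) (nat_lit 5) (nat_lit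 6) (C.cons (nat_lit 106) (C.node (nat_lit 3) (nat_lit 6) (nat_lit 8) (C.cons (nat_lit 328) (C.node (nat_lit 1) (nat_lit 2) (nat_lit 6) (C.cons (nat_lit 70) (C.node (nat_lit 1) (nat_lit 6) (nat_lit 8) C.nil) C.nil)) C.nil)) (C.cons (nat_lit 104) (C.node (nat_lit 1) (nat_lit 3) (nat_lit 6) (C.cons (nat_lit 330) (C.node (nat_lit 1) (nat_lit 8) (nat_lit 10) (C.cons (nat_lit 1314) (C.miq (nat_lit 1398898842) (nat_lit 398969759578141079927654273)) (C.cons (nat_lit 1298) (C.miq (nat_lit 638847400) (nat_lit 99137027122303651776956289)) C.nil))) (C.cons (nat_lit 74) (C.node (nat_lit 3) (nat_lit 6) (nat_lit 8) C.nil) C.nil))) C.nil))) C.nil)) C.nil))) C.nil))) C.nil)) C.nil))) (C.cons (nat_lit 208) (C.node (nat_lit 4) (nat_lit 7) (nat_lit 9) (C.cons (nat_lit 688) (C.node (nat_lit 1) (nat_lit 7) (nat_lit 9) (C.cons (nat_lit 650) (C.miq (nat_lit 390763270) (nat_lit 1412054909176852350824940109)) (C.cons (nat_lit 642) (C.node (nat_lit 3) (nat_lit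 7) (nat_lit 9) (C.cons (nat_lit 648) (C.node (nat_lit 2) (nat_lit 4) (nat_lit 5) (C.cons (nat_lit 62) (C.miq (nat_lit 2300774981) (nat_lit 712062786976726588873114737)) (C.cons (nat_lit 60) (C.miq (nat_lit 2300774981) (nat_lit 712062786976726588872983665)) (C.cons (nat_lit 54) (C.miq (nat_lit 2807171393) (nat_lit 199491779370270193576444435)) (C.cons (nat_lit 52) (C.node (nat_lit 1) (nat_lit 2) (nat_lit 4)
  (C.cons (nat_lit 30) (C.node (nat_lit 3) (nat_lit 4) (nat_lit 5) (C.cons (nat_lit 56) (C.node (nat_lit 1) (nat_lit 4) (nat_lit 7) (C.cons (nat_lit 402) (C.miq (nat_lit 963715204) (nat_lit 776130929760711153389011221)) (C.cons (nat_lit 146) (C.node (nat_lit 4) (nat_lit 7) (nat_lit 8) (C.cons (nat_lit 400) (C.node (nat_lit 1) (nat_lit 4) (nat_lit 10) (C.cons (nat_lit 1298) (C.miq (nat_lit 1631754880) (nat_lit 36278640171626777743263617)) (C.cons (nat_lit 1042) (C.node (nat_lit 2) (nat_lit 3) (nat_lit 7) (C.cons (nat_lit 396) (C.miq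 (nat_lit 426983554) (nat_lit 783384484662073379787637013)) C.nil)) C.nil))) C.nil)) C.nil))) C.nil)) (C.cons (nat_lit 22) (C.node (nat_lit 2) (nat_lit 3) (nat_lit 4) (C.cons (nat_lit 28) (C.node (nat_lit 1) (nat_lit 4) (nat_lit 7) (C.cons (nat_lit 402) (C.node (nat_lit 4) (nat_lit 5) (nat_lit 8) (C.cons (nat_lit 304) (C.node (nat_lit 1) (nat_lit 4) (nat_lit 6) (C.cons (nat_lit 90) (C.miq (nat_lit 932266150) (nat_lit 776132036442632486194906225)) (C.cons (nat_lit 82) (C.node (nat_lit 2) (nat_lit 7) (nat_lit 8) (C.cons (nat_lit 396) (C.miq (nat_lit 389629984) (nat_lit 783393726444537486464844053)) (C.cons (nat_lit 388) (C.node (nat_lit 3) (nat_lit 4) (nat_lit 6) (C.cons (nat_lit 88) (C.node (nat_lit 4) (nat_lit 6) (nat_lit 8) C.nil) C.nil)) C.nil))) C.nil))) C.nil)) (C.cons (nat_lit 146) (C.node (nat_lit 4) (nat_lit 7) (nat_lit 8) (C.cons (nat_lit 400) (C.node (nat_lit 5) (nat_lit 7) (nat_lit 10) (C.cons (nat_lit 1194) (C.miq (nat_lit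 689374885) (nat_lit 776133420071159734135817329)) (C.cons (nat_lit 1192) (C.node (nat_lit 1) (nat_lit 7) (nat_lit 10) C.nil) (C.cons (nat_lit 1186) (C.miq (nat_lit 689374885) (nat_lit 776133420071159734135293041)) C.nil)))) C.nil)) C.nil))) C.nil)) C.nil))) C.nil))))) C.nil)) C.nil))) (C.cons (nat_lit 656) (C.node (nat_lit 5) (nat_lit 6) (nat_lit 9) (C.cons (nat_lit 864) (C.node (nat_lit 2) (nat_lit 5) (nat_lit 6) (C.cons (nat_lit 102) (C.miq (nat_lit 309945610) (nat_lit 778577779544538427632452721)) (C.cons (nat_lit 100) (C.node (nat_lit 1) (nat_lit 5) (nat_lit 6) (C.cons (nat_lit 106) (C.miq (nat_lit 815880342) (nat_lit 1246404475461160811154768736)) (C.cons (nat_lit 98) (C.node (nat_lit 2) (nat_lit 8) (nat_lit 9) (C.cons (nat_lit 774) (C.miq (nat_lit 306616330) (nat_lit 101579320749497755131512705)) (C.cons (nat_lit 772) (C.node (nat_lit 1) (nat_lit 8) (nat_lit 9) (C.cons (nat_lit 778) (C.miq (nat_lit 895582377) (nat_lit 118489081972725956718233473))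 (C.cons (nat_lit 770) (C.node (nat_lit 1) (nat_lit 2) (nat_lit 6) (C.cons (nat_lit 326) (C.node (nat_lit 1) (nat_lit 3) (nat_lit 6) (C.cons (nat_lit 90) (C.miq (nat_lit 343565065) (nat_lit 1412054909019226363918352973)) (C.cons (nat_lit 74) (C.node (nat_lit 1) (nat_lit 4) (nat_lit 6) (C.cons (nat_lit 82) (C.node (nat_lit 1) (nat_lit 2) (nat_lit 9) (C.cons (nat_lit 550) (C.node (nat_lit 1) (nat_lit 3) (nat_lit 9) (C.cons (nat_lit 650) (C.miq (nat_lit 1175653015) (nat_lit 89463333323369765589878657)) C.nil)) C.nil)) C.nil)) C.nil))) (C.cons (nat_lit 70) (C.node (nat_lit 2) (nat_lit 6) (nat_lit 8) (C.cons (nat_lit 324) (C.node (nat_lit 1) (nat_lit 2) (nat_lit 9) (C.cons (nat_lit 550) (C.node (nat_lit 3) (nat_lit 5) (nat_lit 6) C.nil) (C.cons (nat_lit 518) (C.node (nat_lit 3) (nat_lit 5) (nat_lit 6) C.nil) C.nil))) C.nil)) C.nil))) C.nil))) C.nil))) C.nil))) C.nil))) (C.cons (nat_lit 608) (C.node (nat_lit 6) (nat_lit 8) (nat_lit 9)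 (C.cons (nat_lit 832) (C.ref (nat_lit 103) (nat_lit 11430141571600)) C.nil)) C.nil))) C.nil))) C.nil))) C.nil))) C.nil))) C.nil))) C.nil)))) C.nil))) C.nil))) C.nil)) (C.cons (nat_lit 1552) (C.node (nat_lit 2) (nat_lit 9) (nat_lit 10) (C.cons (nat_lit 1572) (C.node (nat_lit 2) (nat_lit 4) (nat_lit 9) (C.cons (nat_lit 660) (C.miq (nat_lit 422013520) (nat_lit 797894638511679293058516081)) (C.cons (nat_lit 532) (C.node (nat_lit 2) (nat_lit 7) (nat_lit 9) (C.cons (nat_lit 646) (C.node (nat_lit 2) (nat_lit 8) (nat_lit 9) (C.cons (nat_lit 772) (C.node (nat_lit 3) (nat_lit 7) (nat_lit 9)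
  (C.cons (nat_lit 680) (C.miq (nat_lit 1704397345) (nat_lit 822073154773086012413707271)) (C.cons (nat_lit 648) (C.node (nat_lit 5) (nat_lit 8) (nat_lit 10) (C.cons (nat_lit 1314) (C.miq (nat_lit 1973493865) (nat_lit 1588540443616742606574322253)) (C.cons (nat_lit 1312) (C.node (nat_lit 5) (nat_lit 6) (nat_lit 9) (C.cons (nat_lit 864) (C.miq (nat_lit 1985548450) (nat_lit 1044523824798603727255897095)) (C.cons (nat_lit 736) (C.node (nat_lit 4) (nat_lit 7) (nat_lit 9) (C.cons (nat_lit 656) (C.node (nat_lit 3) (nat_lit 5) (nat_lit 6) (C.cons (nat_lit 106) (C.miq (nat_lit 627157360) (nat_lit 128165155914772511564433281)) (C.cons (nat_lit 104) (C.node (nat_lit 4) (nat_lit 6) (nat_lit 9) (C.cons (nat_lit 848) (C.miq (nat_lit 610601111) (nat_lit 1374551700692577744446293889)) (C.cons (nat_lit 592) (C.node (nat_lit 6) (nat_lit 8) (nat_lit 9) (C.cons (nat_lit 832) (C.node (nat_lit 2) (nat_lit 3) (nat_lit 5) (C.cons (nat_lit 62) (C.miq (nat_lit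 1629843625) (nat_lit 74966977674637307734656897)) (C.cons (nat_lit 60) (C.miq (nat_lit 2032339540) (nat_lit 712060130645580043417027697)) (C.cons (nat_lit 46) (C.miq (nat_lit 1629843625) (nat_lit 55624164560803240939358081)) (C.cons (nat_lit 44) (C.node (nat_lit 2) (nat_lit 4) (nat_lit 5) (C.cons (nat_lit 54) (C.miq (nat_lit 1629843625) (nat_lit 65295571117720274337007489)) (C.cons (nat_lit 52) (C.node (nat_lit 4) (nat_lit 5) (nat_lit 7) (C.cons (nat_lit 434) (C.miq (nat_lit 1698862976) (nat_lit 62875007959387578903627649)) (C.cons (nat_lit 432) (C.miq (nat_lit 1698862976) (nat_lit 62875007959387570313693057)) (C.cons (nat_lit 178) (C.miq (nat_lit 2708807785) (nat_lit 215217794463289403068383821)) (C.cons (nat_lit 176) (C.node (nat_lit 5) (nat_lit 7) (nat_lit 8) (C.cons (nat_lit 418) (C.miq (nat_lit 355629065) (nat_lit 53204652777373115966359425)) (C.cons (nat_lit 416) (C.node (nat_lit 1) (nat_lit 2) (nat_lit 4) (C.cons (nat_lit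 30) (C.node (nat_lit 2) (nat_lit 7) (nat_lit 8) (C.cons (nat_lit 396) (C.miq (nat_lit 426983554) (nat_lit 783384484662073379787637013)) (C.cons (nat_lit 388) (C.node (nat_lit 2) (nat_lit 3) (nat_lit 7) (C.cons (nat_lit 1164) (C.miq (nat_lit 2536770081) (nat_lit 184975446162859833107022855)) (C.cons (nat_lit 140) (C.node (nat_lit 2) (nat_lit 3) (nat_lit 8) (C.cons (nat_lit 1292) (C.miq (nat_lit 430129282) (nat_lit 1866582019036781120383090965)) (C.cons (nat_lit 268) (C.node (nat_lit 2) (nat_lit 3) (nat_lit 10) (C.cons (nat_lit 1036) (C.node (nat_lit 2) (nat_lit 8) (nat_lit 10) C.nil) C.nil)) C.nil))) C.nil))) C.nil))) (C.cons (nat_lit 22) (C.node (nat_lit 1) (nat_lit 2) (nat_lit 3) (C.cons (nat_lit 270) (C.node (nat_lit 2) (nat_lit 7) (nat_lit 8) (C.cons (nat_lit 388) (C.node (nat_lit 2) (nat_lit 8) (nat_lit 10) (C.cons (nat_lit 1284) (C.node (nat_lit 1) (nat_lit 2) (nat_lit 5) (C.cons (nat_lit 102) (C.node (nat_lit 1) (nat_lit 8)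 (nat_lit 10) (C.cons (nat_lit 1298) (C.miq (nat_lit 1631754880) (nat_lit 26607233614709744345614209)) C.nil)) (C.cons (nat_lit 38) (C.miq (nat_lit 1629843625) (nat_lit 45952758003886207541708673)) C.nil))) C.nil)) C.nil)) (C.cons (nat_lit 14) (C.node (nat_lit 2) (nat_lit 3) (nat_lit 4) (C.cons (nat_lit 1052) (C.node (nat_lit 2) (nat_lit 4) (nat_lit 7) (C.cons (nat_lit 148) (C.node (nat_lit 2) (nat_lit 7) (nat_lit 10) (C.cons (nat_lit 1156) (C.node (nat_lit 2) (nat_lit 8) (nat_lit 10) C.nil) C.nil)) C.nil)) (C.cons (nat_lit 28) (C.node (nat_lit 2) (nat_lit 4) (nat_lit 7) (C.cons (nat_lit 1172) (C.node (nat_lit 2) (nat_lit 3) (nat_lit 7) (C.cons (nat_lit 396) (C.miq (nat_lit 1110812544) (nat_lit 53213710340945864978663297)) (C.cons (nat_lit 140) (C.node (nat_lit 2) (nat_lit 7) (nat_lit 8) (C.cons (nat_lit 388) (C.node (nat_lit 4) (nat_lit 6) (nat_lit 7) C.nil) C.nil)) C.nil))) (C.cons (nat_lit 148) (C.node (nat_lit 2) (nat_lit 4)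 (nat_lit 10) (C.cons (nat_lit 1044) (C.node (nat_lit 2) (nat_lit 7) (nat_lit 8) C.nil) C.nil)) C.nil))) C.nil))) C.nil))) C.nil))) C.nil))) C.nil))))) C.nil))) C.nil))))) C.nil)) C.nil))) C.nil))) C.nil))
  (C.cons (nat_lit 608) (C.miq (nat_lit 1985548450) (nat_lit 735038814977258658531116039)) C.nil)))) C.nil))) C.nil))) C.nil)) (C.cons (nat_lit 644) (C.miq (nat_lit 422013520) (nat_lit 778551825397845226263217265)) C.nil))) C.nil))) (C.cons (nat_lit 1540) (C.node (nat_lit 5) (nat_lit 9) (nat_lit 10) (C.cons (nat_lit 1568) (C.node (nat_lit 2) (nat_lit 7) (nat_lit 9) (C.cons (nat_lit 660) (C.node (nat_lit 4) (nat_lit 6) (nat_lit 9) (C.cons (nat_lit 848) (C.miq (nat_lit 373467520) (nat_lit 101568787891695400063928193)) (C.cons (nat_lit 592) (C.node (nat_lit 4) (nat_lit 7) (nat_lit 10) (C.cons (nat_lit 1170) (C.miq (nat_lit 916916500) (nat_lit 1470056619169027995900969491)) (C.cons (nat_lit 1168) (C.node (nat_lit 6) (nat_lit 7) (nat_lit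 9) (C.cons (nat_lit 736) (C.miq (nat_lit 426944080) (nat_lit 797910059989721323651007601)) (C.cons (nat_lit 704) (C.node (nat_lit 2) (nat_lit 4) (nat_lit 10) (C.cons (nat_lit 1052) (C.node (nat_lit 2) (nat_lit 7) (nat_lit 10) (C.cons (nat_lit 1156) (C.node (nat_lit 1) (nat_lit 4) (nat_lit 10) (C.cons (nat_lit 1298) (C.miq (nat_lit 338077705) (nat_lit 101579320896990642891982721)) (C.cons (nat_lit 1042) (C.node (nat_lit 4) (nat_lit 8) (nat_lit 10) (C.cons (nat_lit 1296) (C.node (nat_lit 2) (nat_lit 8) (nat_lit 9) (C.cons (nat_lit 806) (C.miq (nat_lit 1380157808) (nat_lit 1271795441144451449444960129)) (C.cons (nat_lit 804) (C.miq (nat_lit 1380157808) (nat_lit 1271795441143888499491538817)) (C.cons (nat_lit 774) (C.miq (nat_lit 306616330) (nat_lit 101579320749497755131512705)) (C.cons (nat_lit 772) (C.node (nat_lit 3) (nat_lit 7) (nat_lit 9) (C.cons (nat_lit 682) (C.miq (nat_lit 1956720745) (nat_lit 1259713284760972424877572685))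 (C.cons (nat_lit 680) (C.miq (nat_lit 1479094343) (nat_lit 933303276612063103200526489)) (C.cons (nat_lit 650) (C.miq (nat_lit 1956720745) (nat_lit 1259712694465162066171920973)) (C.cons (nat_lit 648) (C.node (nat_lit 1) (nat_lit 2) (nat_lit 4) (C.cons (nat_lit 54) (C.node (nat_lit 1) (nat_lit 2) (nat_lit 9) (C.cons (nat_lit 518) (C.node (nat_lit 2) (nat_lit 3) (nat_lit 5) (C.cons (nat_lit 44) (C.node (nat_lit 2) (nat_lit 5) (nat_lit 9) (C.cons (nat_lit 548) (C.node (nat_lit 2) (nat_lit 5) (nat_lit 10) (C.cons (nat_lit 1060) (C.node (nat_lit 2) (nat_lit 8) (nat_lit 10) C.nil) C.nil)) C.nil)) C.nil)) C.nil)) (C.cons (nat_lit 22) (C.node (nat_lit 2) (nat_lit 4) (nat_lit 5) (C.cons (nat_lit 52) (C.node (nat_lit 1) (nat_lit 2) (nat_lit 9) (C.cons (nat_lit 550) (C.node (nat_lit 1) (nat_lit 7) (nat_lit 9) (C.cons (nat_lit 642) (C.node (nat_lit 2) (nat_lit 3) (nat_lit 5) (C.cons (nat_lit 44) (C.node (nat_lit 5) (nat_lit 7) (nat_lit 9)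 (C.cons (nat_lit 672) (C.node (nat_lit 2) (nat_lit 5) (nat_lit 10) (C.cons (nat_lit 1060) (C.node (nat_lit 2) (nat_lit 8) (nat_lit 10) C.nil) C.nil)) C.nil)) C.nil)) C.nil)) (C.cons (nat_lit 518) (C.node (nat_lit 2) (nat_lit 5) (nat_lit 9) (C.cons (nat_lit 548) (C.node (nat_lit 2) (nat_lit 5) (nat_lit 10) (C.cons (nat_lit 1060) (C.node (nat_lit 2) (nat_lit 8) (nat_lit 10) C.nil) C.nil)) C.nil)) C.nil))) C.nil)) C.nil))) C.nil))))) C.nil))))) C.nil)) C.nil))) C.nil)) (C.cons (nat_lit 1044) (C.node (nat_lit 2) (nat_lit 7) (nat_lit 10) (C.cons (nat_lit 1164) (C.node (nat_lit 1) (nat_lit 7) (nat_lit 10) (C.cons (nat_lit 1186) (C.miq (nat_lit 388605190) (nat_lit 797920592963491369094808689)) (C.cons (nat_lit 1154) (C.node (nat_lit 5) (nat_lit 7) (nat_lit 10) (C.cons (nat_lit 1184) (C.node (nat_lit 1) (nat_lit 2) (nat_lit 7) (C.cons (nat_lit 390) (C.node (nat_lit 2) (nat_lit 3) (nat_lit 8) (C.cons (nat_lit 268) (C.node (nat_lit 1) (nat_lit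 2) (nat_lit 6) (C.cons (nat_lit 102) (C.miq (nat_lit 2435294800) (nat_lit 471516506295994324972012657)) (C.cons (nat_lit 70) (C.node (nat_lit 2) (nat_lit 5) (nat_lit 10) (C.cons (nat_lit 1316) (C.miq (nat_lit 1377216624) (nat_lit 84645781691458594390869889)) (C.cons (nat_lit 1060) (C.node (nat_lit 2) (nat_lit 8) (nat_lit 10) (C.cons (nat_lit 1284) (C.node (nat_lit 1) (nat_lit 2) (nat_lit 9) (C.cons (nat_lit 518)
  (C.node (nat_lit 2) (nat_lit 5) (nat_lit 6) (C.cons (nat_lit 100) (C.node (nat_lit 2) (nat_lit 6) (nat_lit 8) C.nil) C.nil)) C.nil)) C.nil)) C.nil))) C.nil))) C.nil)) (C.cons (nat_lit 134) (C.node (nat_lit 2) (nat_lit 7) (nat_lit 8) (C.cons (nat_lit 388) (C.node (nat_lit 2) (nat_lit 3) (nat_lit 8) (C.cons (nat_lit 270) (C.node (nat_lit 1) (nat_lit 2) (nat_lit 6) (C.cons (nat_lit 102) (C.miq (nat_lit 2435294800) (nat_lit 162031496474649256247231601)) (C.cons (nat_lit 70) (C.node (nat_lit 3) (nat_lit 5) (nat_lit 10) (C.cons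 (nat_lit 1066) (C.miq (nat_lit 1161300498) (nat_lit 359056078493694909406381063)) (C.cons (nat_lit 1064) (C.node (nat_lit 1) (nat_lit 5) (nat_lit 10) (C.cons (nat_lit 1314) (C.miq (nat_lit 2441308752) (nat_lit 326420836879137848393532529)) (C.cons (nat_lit 1058) (C.node (nat_lit 1) (nat_lit 8) (nat_lit 10) (C.cons (nat_lit 1298) (C.miq (nat_lit 1113686170) (nat_lit 84648751324802815617009537)) C.nil)) C.nil))) C.nil))) C.nil))) (C.cons (nat_lit 268) (C.node (nat_lit 2) (nat_lit 5) (nat_lit 10) (C.cons (nat_lit 1316) (C.node (nat_lit 2) (nat_lit 5) (nat_lit 6) (C.cons (nat_lit 102) (C.miq (nat_lit 2435294800) (nat_lit 162031496474649256247231601)) (C.cons (nat_lit 100) (C.node (nat_lit 4) (nat_lit 6) (nat_lit 7) C.nil) C.nil))) (C.cons (nat_lit 1060) (C.node (nat_lit 2) (nat_lit 8) (nat_lit 10) (C.cons (nat_lit 1284) (C.node (nat_lit 3) (nat_lit 5) (nat_lit 10) (C.cons (nat_lit 1066) (C.node (nat_lit 5) (nat_lit 8) (nat_lit 10) C.nil)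 C.nil)) C.nil)) C.nil))) C.nil))) C.nil)) C.nil))) C.nil)) C.nil))) (C.cons (nat_lit 1156) (C.node (nat_lit 4) (nat_lit 6) (nat_lit 7) (C.cons (nat_lit 464) (C.node (nat_lit 1) (nat_lit 4) (nat_lit 6) (C.cons (nat_lit 90) (C.miq (nat_lit 343565065) (nat_lit 1412054909019226363918352973)) (C.cons (nat_lit 82) (C.node (nat_lit 3) (nat_lit 4) (nat_lit 6) (C.cons (nat_lit 88) (C.node (nat_lit 3) (nat_lit 7) (nat_lit 9) (C.cons (nat_lit 682) (C.miq (nat_lit 878801065) (nat_lit 99144497930928417159645057)) (C.cons (nat_lit 680) (C.miq (nat_lit 1464351008) (nat_lit 560947059175583647660311117)) (C.cons (nat_lit 650) (C.miq (nat_lit 878801065) (nat_lit 99143907635118058453993345)) (C.cons (nat_lit 648) (C.node (nat_lit 2) (nat_lit 8) (nat_lit 9) (C.cons (nat_lit 806) (C.miq (nat_lit 610369705) (nat_lit 99146785362096454256166785)) (C.cons (nat_lit 804) (C.miq (nat_lit 1500742208) (nat_lit 783389410019578312910242069)) (C.cons (nat_lit 774)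 (C.miq (nat_lit 610369705) (nat_lit 99146195066286095550515073)) (C.cons (nat_lit 772) (C.node (nat_lit 1) (nat_lit 2) (nat_lit 9) (C.cons (nat_lit 550) (C.node (nat_lit 1) (nat_lit 7) (nat_lit 9) (C.cons (nat_lit 642) (C.node (nat_lit 5) (nat_lit 7) (nat_lit 9) (C.cons (nat_lit 672) (C.node (nat_lit 1) (nat_lit 4) (nat_lit 7) (C.cons (nat_lit 178) (C.miq (nat_lit 844564756) (nat_lit 199475582754048214914171411)) (C.cons (nat_lit 146) (C.node (nat_lit 4) (nat_lit 5) (nat_lit 7) (C.cons (nat_lit 176) (C.node (nat_lit 1) (nat_lit 3) (nat_lit 9) C.nil) C.nil)) C.nil))) C.nil)) C.nil)) (C.cons (nat_lit 518) (C.node (nat_lit 2) (nat_lit 5) (nat_lit 9) (C.cons (nat_lit 548) (C.node (nat_lit 1) (nat_lit 4) (nat_lit 7) (C.cons (nat_lit 178) (C.node (nat_lit 1) (nat_lit 7) (nat_lit 9) (C.cons (nat_lit 642) (C.node (nat_lit 5) (nat_lit 7) (nat_lit 8) (C.cons (nat_lit 416) (C.node (nat_lit 5) (nat_lit 7) (nat_lit 9) (C.cons (nat_lit 672) (C.node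 (nat_lit 1) (nat_lit 2) (nat_lit 4) C.nil) C.nil)) C.nil)) C.nil)) (C.cons (nat_lit 146) (C.node (nat_lit 4) (nat_lit 5) (nat_lit 7) (C.cons (nat_lit 176) (C.node (nat_lit 2) (nat_lit 7) (nat_lit 8) (C.cons (nat_lit 398) (C.miq (nat_lit 2759984753) (nat_lit 334891470946431317352251587)) (C.cons (nat_lit 396) (C.node (nat_lit 1) (nat_lit 2) (nat_lit 7) C.nil) (C.cons (nat_lit 390) (C.miq (nat_lit 2759984753) (nat_lit 334891470946431317351727299)) C.nil)))) C.nil)) C.nil))) C.nil)) C.nil))) C.nil))))) C.nil))))) C.nil)) C.nil))) (C.cons (nat_lit 208) (C.node (nat_lit 5) (nat_lit 6) (nat_lit 9) (C.cons (nat_lit 864)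
  (C.node (nat_lit 2) (nat_lit 5) (nat_lit 6) (C.cons (nat_lit 102) (C.miq (nat_lit 309945610) (nat_lit 797920592658372494427751537)) (C.cons (nat_lit 100) (C.node (nat_lit 1) (nat_lit 5) (nat_lit 6) (C.cons (nat_lit 106) (C.miq (nat_lit 815880342) (nat_lit 1246404475461160811154768736)) (C.cons (nat_lit 98) (C.node (nat_lit 2) (nat_lit 8) (nat_lit 9) (C.cons (nat_lit 774) (C.miq (nat_lit 306616330) (nat_lit 101579320749497755131512705)) (C.cons (nat_lit 772) (C.node (nat_lit 1) (nat_lit 8) (nat_lit 9) (C.cons (nat_lit 778) (C.miq (nat_lit 895582377) (nat_lit 118489081972725956718233473)) (C.cons (nat_lit 770) (C.node (nat_lit 3) (nat_lit 8) (nat_lit 9) (C.cons (nat_lit 792) (C.miq (nat_lit 696611888) (nat_lit 1044514952045588655284748441)) (C.cons (nat_lit 776) (C.node (nat_lit 4) (nat_lit 8) (nat_lit 9) (C.cons (nat_lit 784) (C.node (nat_lit 3) (nat_lit 7) (nat_lit 9) (C.cons (nat_lit 682) (C.miq (nat_lit 390763270) (nat_lit 1412054909185859550079681101))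 (C.cons (nat_lit 680) (C.miq (nat_lit 961042208) (nat_lit 947803321452264983566287013)) (C.cons (nat_lit 650) (C.miq (nat_lit 390763270) (nat_lit 1412054909176852350824940109)) (C.cons (nat_lit 648) (C.node (nat_lit 1) (nat_lit 2) (nat_lit 9) (C.cons (nat_lit 550) (C.node (nat_lit 1) (nat_lit 3) (nat_lit 9) C.nil) C.nil)) C.nil))))) C.nil)) C.nil))) C.nil))) C.nil))) C.nil))) C.nil))) (C.cons (nat_lit 608) (C.node (nat_lit 6) (nat_lit 8) (nat_lit 9) (C.cons (nat_lit 832) (C.ref (nat_lit 100) (nat_lit 11430141571600)) C.nil)) C.nil))) C.nil))) C.nil))) C.nil))) C.nil))) C.nil))) C.nil))) (C.cons (nat_lit 646) (C.miq (nat_lit 698708320) (nat_lit 1895598729050350423582507203)) (C.cons (nat_lit 644) (C.node (nat_lit 2) (nat_lit 4) (nat_lit 9) (C.cons (nat_lit 564) (C.node (nat_lit 1) (nat_lit 2) (nat_lit 9) (C.cons (nat_lit 774) (C.miq (nat_lit 306616330) (nat_lit 101579320749497755131512705)) (C.cons (nat_lit 518) (C.node (nat_lit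 2) (nat_lit 8) (nat_lit 9) (C.cons (nat_lit 772) (C.node (nat_lit 3) (nat_lit 4) (nat_lit 5) (C.cons (nat_lit 58) (C.node (nat_lit 1) (nat_lit 3) (nat_lit 9) (C.cons (nat_lit 778) (C.miq (nat_lit 1630906752) (nat_lit 70138671936586554087638913)) (C.cons (nat_lit 650) (C.miq (nat_lit 1630841200) (nat_lit 70138671936586004322387841)) (C.cons (nat_lit 522) (C.node (nat_lit 1) (nat_lit 8) (nat_lit 9) (C.cons (nat_lit 802) (C.miq (nat_lit 2018707732) (nat_lit 359053791318105017277874707)) (C.cons (nat_lit 770) (C.node (nat_lit 1) (nat_lit 4) (nat_lit 10) (C.cons (nat_lit 1298) (C.miq (nat_lit 338077705) (nat_lit 101579320896990642891982721)) (C.cons (nat_lit 1170) (C.miq (nat_lit 1631820400) (nat_lit 70128563120835844871096193)) (C.cons (nat_lit 1042) (C.node (nat_lit 1) (nat_lit 5) (nat_lit 10) (C.cons (nat_lit 1314) (C.miq (nat_lit 1632868992) (nat_lit 70128563120836463355824001)) (C.cons (nat_lit 1186) (C.miq (nat_lit 1922125930)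 (nat_lit 626245452445295233024001137)) (C.cons (nat_lit 1058) (C.node (nat_lit 5) (nat_lit 7) (nat_lit 10) (C.cons (nat_lit 1192) (C.miq (nat_lit 1931060544) (nat_lit 631094714369720446627284081)) (C.cons (nat_lit 1184) (C.node (nat_lit 1) (nat_lit 2) (nat_lit 4) (C.cons (nat_lit 150) (C.node (nat_lit 4) (nat_lit 7) (nat_lit 10) (C.cons (nat_lit 1168) (C.node (nat_lit 1) (nat_lit 2) (nat_lit 5) (C.cons (nat_lit 358) (C.miq (nat_lit 2435294800) (nat_lit 181374309588484422554158193)) (C.cons (nat_lit 294) (C.miq (nat_lit 1934704770) (nat_lit 70120464592326495626985749)) (C.cons (nat_lit 102) (C.miq (nat_lit 2435294800) (nat_lit 181374309588483323042530417)) (C.cons (nat_lit 38) (C.node (nat_lit 1) (nat_lit 2) (nat_lit 3) (C.cons (nat_lit 270) (C.node (nat_lit 1) (nat_lit 2) (nat_lit 6) C.nil) (C.cons (nat_lit 14) (C.node (nat_lit 1) (nat_lit 2) (nat_lit 6) (C.cons (nat_lit 70) (C.node (nat_lit 1) (nat_lit 2) (nat_lit 8) C.nil) C.nil))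 C.nil))) C.nil))))) C.nil)) (C.cons (nat_lit 22) (C.node (nat_lit 1) (nat_lit 3) (nat_lit 6) (C.cons (nat_lit 330) (C.node (nat_lit 1) (nat_lit 4) (nat_lit 6) (C.cons (nat_lit 82)
  (C.node (nat_lit 1) (nat_lit 8) (nat_lit 10) (C.cons (nat_lit 1282) (C.node (nat_lit 1) (nat_lit 2) (nat_lit 6) (C.cons (nat_lit 102) (C.miq (nat_lit 2031225445) (nat_lit 626226618813870385379279985)) C.nil)) C.nil)) C.nil)) (C.cons (nat_lit 74) (C.node (nat_lit 1) (nat_lit 4) (nat_lit 6) (C.cons (nat_lit 338) (C.node (nat_lit 1) (nat_lit 4) (nat_lit 7) (C.cons (nat_lit 146) (C.node (nat_lit 3) (nat_lit 4) (nat_lit 6) (C.cons (nat_lit 88) (C.node (nat_lit 1) (nat_lit 2) (nat_lit 6) (C.cons (nat_lit 102) (C.miq (nat_lit 2031225445) (nat_lit 626226618813870385379279985)) C.nil)) C.nil)) C.nil)) (C.cons (nat_lit 82) (C.node (nat_lit 1) (nat_lit 4) (nat_lit 7) (C.cons (nat_lit 402) (C.node (nat_lit 4) (nat_lit 5) (nat_lit 7) (C.cons (nat_lit 176) (C.node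 (nat_lit 4) (nat_lit 5) (nat_lit 8) (C.cons (nat_lit 304) (C.node (nat_lit 1) (nat_lit 7) (nat_lit 10) (C.cons (nat_lit 1162) (C.node (nat_lit 1) (nat_lit 8) (nat_lit 10) C.nil) C.nil)) C.nil)) C.nil)) (C.cons (nat_lit 146) (C.node (nat_lit 1) (nat_lit 4) (nat_lit 8) (C.cons (nat_lit 274) (C.node (nat_lit 1) (nat_lit 7) (nat_lit 10) C.nil) C.nil)) C.nil))) C.nil))) C.nil))) C.nil))) C.nil))) C.nil)))) C.nil)))) C.nil))) C.nil)))) (C.cons (nat_lit 56) (C.node (nat_lit 3) (nat_lit 4) (nat_lit 9) (C.cons (nat_lit 792) (C.node (nat_lit 3) (nat_lit 4) (nat_lit 6) (C.cons (nat_lit 90) (C.miq (nat_lit 2053310740) (nat_lit 1324985521190197163844043283)) (C.cons (nat_lit 88) (C.node (nat_lit 4) (nat_lit 8) (nat_lit 10) (C.cons (nat_lit 1298) (C.miq (nat_lit 338077705) (nat_lit 101579320896990642891982721)) (C.cons (nat_lit 1296) (C.node (nat_lit 3) (nat_lit 7) (nat_lit 9) (C.cons (nat_lit 682) (C.miq (nat_lit 607455383) (nat_lit 67702889689163366067210113))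 (C.cons (nat_lit 680) (C.miq (nat_lit 607455383) (nat_lit 67702889689163366067079041)) (C.cons (nat_lit 650) (C.miq (nat_lit 323393290) (nat_lit 106415023993052842142271361)) (C.cons (nat_lit 648) (C.node (nat_lit 4) (nat_lit 5) (nat_lit 7) (C.cons (nat_lit 434) (C.miq (nat_lit 877828208) (nat_lit 681845027617840315041646465)) (C.cons (nat_lit 432) (C.miq (nat_lit 877828208) (nat_lit 681845027617840306451711873)) (C.cons (nat_lit 178) (C.miq (nat_lit 1649871169) (nat_lit 199476357517299370844881427)) (C.cons (nat_lit 176) (C.node (nat_lit 1) (nat_lit 3) (nat_lit 9) (C.cons (nat_lit 554) (C.node (nat_lit 1) (nat_lit 7) (nat_lit 9) (C.cons (nat_lit 642) (C.node (nat_lit 1) (nat_lit 8) (nat_lit 9) (C.cons (nat_lit 770) (C.node (nat_lit 1) (nat_lit 4) (nat_lit 5) (C.cons (nat_lit 306) (C.miq (nat_lit 592972052) (nat_lit 359056078339444423148044819)) (C.cons (nat_lit 50) (C.node (nat_lit 4) (nat_lit 5) (nat_lit 8) (C.cons (nat_lit 304)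 (C.node (nat_lit 5) (nat_lit 7) (nat_lit 9) (C.cons (nat_lit 736) (C.miq (nat_lit 426944080) (nat_lit 778567246875887256855708785)) (C.cons (nat_lit 672) (C.node (nat_lit 4) (nat_lit 6) (nat_lit 9) (C.cons (nat_lit 720) (C.node (nat_lit 4) (nat_lit 7) (nat_lit 8) (C.cons (nat_lit 402) (C.miq (nat_lit 372535448) (nat_lit 106392887772095148860114817)) (C.cons (nat_lit 400) (C.node (nat_lit 5) (nat_lit 6) (nat_lit 9) (C.cons (nat_lit 864) (C.miq (nat_lit 1447266672) (nat_lit 106390951052274731375462273)) C.nil)) C.nil))) C.nil)) C.nil))) C.nil)) C.nil))) C.nil)) C.nil)) (C.cons (nat_lit 522) (C.node (nat_lit 3) (nat_lit 5) (nat_lit 9) (C.cons (nat_lit 552) (C.node (nat_lit 1) (nat_lit 4) (nat_lit 5) (C.cons (nat_lit 306) (C.node (nat_lit 1) (nat_lit 4) (nat_lit 6) (C.cons (nat_lit 82) (C.node (nat_lit 1) (nat_lit 8) (nat_lit 9) (C.cons (nat_lit 770) (C.node (nat_lit 1) (nat_lit 5) (nat_lit 6) (C.cons (nat_lit 106) (C.miq (nat_lit 2299726437)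 (nat_lit 631064757062546631739180145)) (C.cons (nat_lit 102) (C.miq (nat_lit 2031225445) (nat_lit 626226618813870385379279985)) (C.cons (nat_lit 98) (C.node (nat_lit 1) (nat_lit 3) (nat_lit 6) (C.cons (nat_lit 330) (C.miq (nat_lit 622236803) (nat_lit 118485595613246275193537304)) (C.cons (nat_lit 74) (C.node (nat_lit 4) (nat_lit 6) (nat_lit 9) (C.cons (nat_lit 720)
  (C.node (nat_lit 5) (nat_lit 6) (nat_lit 9) (C.cons (nat_lit 864) (C.miq (nat_lit 1447266672) (nat_lit 106390951052274731375462273)) C.nil)) C.nil)) C.nil))) C.nil)))) C.nil)) C.nil)) (C.cons (nat_lit 50) (C.node (nat_lit 4) (nat_lit 5) (nat_lit 8) (C.cons (nat_lit 304) (C.node (nat_lit 1) (nat_lit 4) (nat_lit 6) (C.cons (nat_lit 338) (C.node (nat_lit 4) (nat_lit 7) (nat_lit 8) (C.cons (nat_lit 400) (C.node (nat_lit 1) (nat_lit 2) (nat_lit 6) (C.cons (nat_lit 102) (C.miq (nat_lit 2031225445) (nat_lit 626226618813870385379279985)) (C.cons (nat_lit 70) (C.node (nat_lit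 1) (nat_lit 3) (nat_lit 6) (C.cons (nat_lit 106) (C.miq (nat_lit 2299726437) (nat_lit 631064757062546631739180145)) (C.cons (nat_lit 74) (C.node (nat_lit 1) (nat_lit 5) (nat_lit 6) (C.cons (nat_lit 98) (C.node (nat_lit 1) (nat_lit 3) (nat_lit 4) (C.cons (nat_lit 26) (C.node (nat_lit 1) (nat_lit 2) (nat_lit 4) C.nil) C.nil)) C.nil)) C.nil))) C.nil))) C.nil)) (C.cons (nat_lit 82) (C.node (nat_lit 1) (nat_lit 4) (nat_lit 8) (C.cons (nat_lit 402) (C.miq (nat_lit 873896048) (nat_lit 99142782563588915396282241)) (C.cons (nat_lit 274) (C.node (nat_lit 1) (nat_lit 7) (nat_lit 9) (C.cons (nat_lit 674) (C.node (nat_lit 1) (nat_lit 8) (nat_lit 9) (C.cons (nat_lit 770) (C.node (nat_lit 4) (nat_lit 6) (nat_lit 9) (C.cons (nat_lit 720) (C.node (nat_lit 4) (nat_lit 6) (nat_lit 8) C.nil) C.nil)) C.nil)) (C.cons (nat_lit 642) (C.node (nat_lit 1) (nat_lit 5) (nat_lit 9) (C.cons (nat_lit 802) (C.node (nat_lit 6) (nat_lit 8) (nat_lit 9) C.nil) C.nil))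 C.nil))) C.nil))) C.nil))) C.nil)) C.nil))) C.nil)) C.nil))) C.nil))))) C.nil))))) C.nil))) C.nil))) (C.cons (nat_lit 536) (C.node (nat_lit 4) (nat_lit 8) (nat_lit 9) (C.cons (nat_lit 848) (C.miq (nat_lit 373467520) (nat_lit 101568787891695400063928193)) (C.cons (nat_lit 784) (C.node (nat_lit 3) (nat_lit 8) (nat_lit 9) (C.cons (nat_lit 778) (C.node (nat_lit 5) (nat_lit 8) (nat_lit 9) (C.cons (nat_lit 864) (C.miq (nat_lit 832604517) (nat_lit 1246407998924666983351911264)) (C.cons (nat_lit 800) (C.node (nat_lit 6) (nat_lit 8) (nat_lit 9) (C.cons (nat_lit 832) (C.node (nat_lit 5) (nat_lit 6) (nat_lit 9) (C.cons (nat_lit 736) (C.miq (nat_lit 426944080) (nat_lit 778567246875887256855708785)) (C.cons (nat_lit 608) (C.node (nat_lit 1) (nat_lit 3) (nat_lit 6) (C.cons (nat_lit 106) (C.node (nat_lit 1) (nat_lit 2) (nat_lit 5) (C.cons (nat_lit 294) (C.miq (nat_lit 2706937392) (nat_lit 355459627612989941388739149)) (C.cons (nat_lit 38) (C.node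 (nat_lit 1) (nat_lit 5) (nat_lit 10) (C.cons (nat_lit 1314) (C.node (nat_lit 1) (nat_lit 4) (nat_lit 5) (C.cons (nat_lit 178) (C.miq (nat_lit 1649871169) (nat_lit 199476357517299370844881427)) (C.cons (nat_lit 50) (C.node (nat_lit 2) (nat_lit 5) (nat_lit 6) (C.cons (nat_lit 356) (C.node (nat_lit 1) (nat_lit 2) (nat_lit 6) C.nil) C.nil)) C.nil))) (C.cons (nat_lit 1186) (C.miq (nat_lit 1632803440) (nat_lit 45950046728543330097235841)) (C.cons (nat_lit 1058) (C.miq (nat_lit 2316634467) (nat_lit 1279048996375987869381689933)) C.nil)))) C.nil))) (C.cons (nat_lit 90) (C.miq (nat_lit 1444088472) (nat_lit 108808802768350446568998785)) (C.cons (nat_lit 74) (C.miq (nat_lit 1444088472) (nat_lit 89465989654516379773699969)) C.nil)))) C.nil))) C.nil)) C.nil))) (C.cons (nat_lit 776) (C.node (nat_lit 1) (nat_lit 8) (nat_lit 9) (C.cons (nat_lit 802) (C.node (nat_lit 6) (nat_lit 8) (nat_lit 9) (C.cons (nat_lit 832) (C.node (nat_lit 1) (nat_lit 3)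 (nat_lit 9) (C.cons (nat_lit 650) (C.miq (nat_lit 967078240) (nat_lit 1876255694576713372179431619)) (C.cons (nat_lit 522) (C.node (nat_lit 1) (nat_lit 7) (nat_lit 9) (C.cons (nat_lit 642) (C.node (nat_lit 1) (nat_lit 4) (nat_lit 5) (C.cons (nat_lit 178) (C.miq (nat_lit 1649871169) (nat_lit 199476357517299370844881427)) (C.cons (nat_lit 50) (C.node (nat_lit 5) (nat_lit 6) (nat_lit 9) (C.cons (nat_lit 736) (C.miq (nat_lit 426944080) (nat_lit 778567246875887256855708785)) (C.cons (nat_lit 608) (C.node (nat_lit 3) (nat_lit 5) (nat_lit 9) (C.cons (nat_lit 680)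
  (C.node (nat_lit 4) (nat_lit 6) (nat_lit 9) (C.cons (nat_lit 720) (C.node (nat_lit 3) (nat_lit 5) (nat_lit 6) (C.cons (nat_lit 106) (C.miq (nat_lit 2299726437) (nat_lit 631064757062546631739180145)) C.nil)) C.nil)) C.nil)) C.nil))) C.nil))) C.nil)) C.nil))) C.nil)) (C.cons (nat_lit 770) (C.node (nat_lit 4) (nat_lit 6) (nat_lit 9) (C.cons (nat_lit 720) (C.node (nat_lit 5) (nat_lit 6) (nat_lit 9) (C.cons (nat_lit 864) (C.miq (nat_lit 895748247) (nat_lit 1374551479337278428184315777)) (C.cons (nat_lit 608) (C.node (nat_lit 5) (nat_lit 8) (nat_lit 9) (C.cons (nat_lit 800) (C.node (nat_lit 6) (nat_lit 8) (nat_lit 9) (C.cons (nat_lit 832) (C.node (nat_lit 1) (nat_lit 7) (nat_lit 9) (C.cons (nat_lit 682) (C.miq (nat_lit 967078240) (nat_lit 1876255694585720571434172611)) (C.cons (nat_lit 674) (C.node (nat_lit 1) (nat_lit 3) (nat_lit 9) C.nil) (C.cons (nat_lit 650) (C.miq (nat_lit 967078240) (nat_lit 1876255694576713372179431619)) C.nil))))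 C.nil)) C.nil)) C.nil))) (C.cons (nat_lit 592) (C.node (nat_lit 4) (nat_lit 7) (nat_lit 9) (C.cons (nat_lit 656) (C.node (nat_lit 6) (nat_lit 7) (nat_lit 9) (C.cons (nat_lit 736) (C.miq (nat_lit 426944080) (nat_lit 778567246875887256855708785)) (C.cons (nat_lit 704) (C.node (nat_lit 5) (nat_lit 6) (nat_lit 9) (C.cons (nat_lit 864) (C.node (nat_lit 2) (nat_lit 5) (nat_lit 6) (C.cons (nat_lit 102) (C.miq (nat_lit 2031225445) (nat_lit 626226618813870385379279985)) (C.cons (nat_lit 100) (C.node (nat_lit 1) (nat_lit 3) (nat_lit 9) (C.cons (nat_lit 682) (C.miq (nat_lit 967078240) (nat_lit 1876255694585720571434172611)) C.nil)) C.nil))) C.nil)) C.nil))) C.nil)) C.nil))) C.nil))) C.nil))) C.nil))) C.nil))) C.nil))) C.nil)) C.nil))) (C.cons (nat_lit 532) (C.node (nat_lit 4) (nat_lit 6) (nat_lit 9) (C.cons (nat_lit 848) (C.miq (nat_lit 373467520) (nat_lit 101568787891695400063928193)) (C.cons (nat_lit 720) (C.node (nat_lit 5) (nat_lit 6)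 (nat_lit 9) (C.cons (nat_lit 864) (C.miq (nat_lit 895748247) (nat_lit 1374551479337278428184315777)) (C.cons (nat_lit 608) (C.node (nat_lit 6) (nat_lit 8) (nat_lit 9) (C.cons (nat_lit 832) (C.ref (nat_lit 104) (nat_lit 10619142165520)) C.nil)) C.nil))) (C.cons (nat_lit 592) (C.node (nat_lit 6) (nat_lit 7) (nat_lit 9) (C.cons (nat_lit 736) (C.miq (nat_lit 426944080) (nat_lit 778567246875887256855708785)) (C.cons (nat_lit 704) (C.node (nat_lit 4) (nat_lit 6) (nat_lit 7) (C.cons (nat_lit 464) (C.node (nat_lit 1) (nat_lit 4) (nat_lit 6) (C.cons (nat_lit 90) (C.miq (nat_lit 2053310740) (nat_lit 1324985521190197163844043283)) (C.cons (nat_lit 82) (C.node (nat_lit 3) (nat_lit 4) (nat_lit 6) (C.cons (nat_lit 88) (C.node (nat_lit 3) (nat_lit 6) (nat_lit 7) (C.cons (nat_lit 232) (C.node (nat_lit 3) (nat_lit 7) (nat_lit 9) (C.cons (nat_lit 650) (C.miq (nat_lit 878801065) (nat_lit 99143907635118058453993345)) (C.cons (nat_lit 648) (C.node (nat_lit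 5) (nat_lit 7) (nat_lit 10) (C.cons (nat_lit 1186) (C.miq (nat_lit 388605190) (nat_lit 778577779849657302299509873)) (C.cons (nat_lit 1184) (C.node (nat_lit 2) (nat_lit 5) (nat_lit 6) (C.cons (nat_lit 358) (C.miq (nat_lit 309945610) (nat_lit 778577779616596021670380657)) (C.cons (nat_lit 356) (C.miq (nat_lit 1481073155) (nat_lit 560945860046019319104602701)) (C.cons (nat_lit 102) (C.miq (nat_lit 309945610) (nat_lit 778577779544538427632452721)) (C.cons (nat_lit 100) (C.node (nat_lit 2) (nat_lit 7) (nat_lit 8) (C.cons (nat_lit 398) (C.miq (nat_lit 1468293920) (nat_lit 560962554314503648835863117)) (C.cons (nat_lit 396) (C.miq (nat_lit 1468293920) (nat_lit 560962554314503640245928525)) (C.cons (nat_lit 390) (C.miq (nat_lit 2759984753) (nat_lit 334891470946431317351727299)) (C.cons (nat_lit 388) (C.node (nat_lit 1) (nat_lit 2) (nat_lit 6) (C.cons (nat_lit 326) (C.node (nat_lit 1) (nat_lit 3) (nat_lit 6) (C.cons (nat_lit 74) (C.node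 (nat_lit 1) (nat_lit 5) (nat_lit 6) (C.cons (nat_lit 98) (C.node (nat_lit 3) (nat_lit 6) (nat_lit 8) (C.cons (nat_lit 328) (C.node (nat_lit 5) (nat_lit 6) (nat_lit 8) C.nil) C.nil)) C.nil)) C.nil))
  (C.cons (nat_lit 70) (C.node (nat_lit 2) (nat_lit 6) (nat_lit 8) (C.cons (nat_lit 324) (C.node (nat_lit 1) (nat_lit 2) (nat_lit 7) C.nil) C.nil)) C.nil))) C.nil))))) C.nil))))) C.nil))) C.nil))) (C.cons (nat_lit 200) (C.node (nat_lit 5) (nat_lit 6) (nat_lit 7) (C.cons (nat_lit 224) (C.node (nat_lit 3) (nat_lit 5) (nat_lit 6) (C.cons (nat_lit 106) (C.node (nat_lit 3) (nat_lit 6) (nat_lit 8) (C.cons (nat_lit 328) (C.node (nat_lit 5) (nat_lit 6) (nat_lit 9) (C.cons (nat_lit 864) (C.miq (nat_lit 815880342) (nat_lit 1246404475461160811154768736)) (C.cons (nat_lit 608) (C.node (nat_lit 6) (nat_lit 8) (nat_lit 9) C.nil) C.nil))) C.nil)) (C.cons (nat_lit 104) (C.node (nat_lit 1) (nat_lit 3) (nat_lit 6) (C.cons (nat_lit 330) (C.node (nat_lit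 1) (nat_lit 2) (nat_lit 6) (C.cons (nat_lit 102) (C.miq (nat_lit 309945610) (nat_lit 778577779544538427632452721)) (C.cons (nat_lit 70) (C.node (nat_lit 1) (nat_lit 5) (nat_lit 6) C.nil) C.nil))) (C.cons (nat_lit 74) (C.node (nat_lit 3) (nat_lit 6) (nat_lit 8) C.nil) C.nil))) C.nil))) C.nil)) C.nil))) C.nil)) C.nil))) (C.cons (nat_lit 208) (C.node (nat_lit 4) (nat_lit 7) (nat_lit 9) (C.cons (nat_lit 688) (C.node (nat_lit 1) (nat_lit 7) (nat_lit 9) (C.cons (nat_lit 650) (C.miq (nat_lit 967078240) (nat_lit 1876255694576713372179431619)) (C.cons (nat_lit 642) (C.node (nat_lit 3) (nat_lit 7) (nat_lit 9) (C.cons (nat_lit 648) (C.node (nat_lit 3) (nat_lit 4) (nat_lit 9) (C.cons (nat_lit 792) (C.node (nat_lit 3) (nat_lit 4) (nat_lit 6) (C.cons (nat_lit 90) (C.miq (nat_lit 932266150) (nat_lit 776132036442632486194906225)) (C.cons (nat_lit 88) (C.node (nat_lit 4) (nat_lit 7) (nat_lit 8) (C.cons (nat_lit 402) (C.miq (nat_lit 372535448) (nat_lit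 106392887772095148860114817)) (C.cons (nat_lit 400) (C.node (nat_lit 4) (nat_lit 8) (nat_lit 10) (C.cons (nat_lit 1298) (C.miq (nat_lit 338077705) (nat_lit 101579320896990642891982721)) (C.cons (nat_lit 1296) (C.node (nat_lit 2) (nat_lit 4) (nat_lit 5) (C.cons (nat_lit 62) (C.miq (nat_lit 2220331808) (nat_lit 831776400313158916100129357)) (C.cons (nat_lit 60) (C.miq (nat_lit 2220331808) (nat_lit 831776400313158907510194765)) (C.cons (nat_lit 54) (C.miq (nat_lit 2807171393) (nat_lit 199491779370270193576444435)) (C.cons (nat_lit 52) (C.node (nat_lit 2) (nat_lit 8) (nat_lit 9) (C.cons (nat_lit 806) (C.miq (nat_lit 306616330) (nat_lit 101579320758504954386253697)) (C.cons (nat_lit 804) (C.miq (nat_lit 1464344633) (nat_lit 483585159074530960701129293)) (C.cons (nat_lit 774) (C.miq (nat_lit 306616330) (nat_lit 101579320749497755131512705)) (C.cons (nat_lit 772) (C.node (nat_lit 5) (nat_lit 6) (nat_lit 9) (C.cons (nat_lit 864) (C.node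 (nat_lit 1) (nat_lit 8) (nat_lit 9) C.nil) C.nil)) C.nil))))) C.nil))))) C.nil))) C.nil))) C.nil))) (C.cons (nat_lit 536) (C.node (nat_lit 4) (nat_lit 8) (nat_lit 9) (C.cons (nat_lit 784) (C.node (nat_lit 3) (nat_lit 5) (nat_lit 9) (C.cons (nat_lit 554) (C.node (nat_lit 3) (nat_lit 8) (nat_lit 9) (C.cons (nat_lit 776) (C.node (nat_lit 5) (nat_lit 6) (nat_lit 9) (C.cons (nat_lit 608) (C.node (nat_lit 6) (nat_lit 8) (nat_lit 9) C.nil) C.nil)) C.nil)) (C.cons (nat_lit 552) (C.node (nat_lit 1) (nat_lit 3) (nat_lit 9) (C.cons (nat_lit 778) (C.node (nat_lit 5) (nat_lit 6) (nat_lit 9) (C.cons (nat_lit 608) (C.node (nat_lit 6) (nat_lit 8) (nat_lit 9) C.nil) C.nil)) (C.cons (nat_lit 522) (C.node (nat_lit 3) (nat_lit 8) (nat_lit 9) C.nil) C.nil))) C.nil))) C.nil)) C.nil))) C.nil)) C.nil))) (C.cons (nat_lit 656) (C.node (nat_lit 5) (nat_lit 6) (nat_lit 9) (C.cons (nat_lit 864) (C.node (nat_lit 2) (nat_lit 5) (nat_lit 6) (C.cons (nat_lit 102)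 (C.miq (nat_lit 309945610) (nat_lit 778577779544538427632452721)) (C.cons (nat_lit 100) (C.node (nat_lit 1) (nat_lit 5) (nat_lit 6) (C.cons (nat_lit 106) (C.miq (nat_lit 815880342) (nat_lit 1246404475461160811154768736)) (C.cons (nat_lit 98) (C.node (nat_lit 2) (nat_lit 8) (nat_lit 9) (C.cons (nat_lit 774) (C.miq (nat_lit 306616330) (nat_lit 101579320749497755131512705)) (C.cons (nat_lit 772)
  (C.node (nat_lit 1) (nat_lit 8) (nat_lit 9) (C.cons (nat_lit 778) (C.miq (nat_lit 895582377) (nat_lit 118489081972725956718233473)) (C.cons (nat_lit 770) (C.node (nat_lit 1) (nat_lit 2) (nat_lit 6) (C.cons (nat_lit 326) (C.node (nat_lit 1) (nat_lit 3) (nat_lit 6) (C.cons (nat_lit 90) (C.miq (nat_lit 2053310740) (nat_lit 1324985521190197163844043283)) (C.cons (nat_lit 74) (C.node (nat_lit 1) (nat_lit 2) (nat_lit 9) C.nil) C.nil))) (C.cons (nat_lit 70) (C.node (nat_lit 2) (nat_lit 6) (nat_lit 8) (C.cons (nat_lit 324) (C.node (nat_lit 1) (nat_lit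 2) (nat_lit 9) (C.cons (nat_lit 550) (C.node (nat_lit 3) (nat_lit 5) (nat_lit 6) C.nil) (C.cons (nat_lit 518) (C.node (nat_lit 2) (nat_lit 5) (nat_lit 9) C.nil) C.nil))) C.nil)) C.nil))) C.nil))) C.nil))) C.nil))) C.nil))) (C.cons (nat_lit 608) (C.node (nat_lit 6) (nat_lit 8) (nat_lit 9) (C.cons (nat_lit 832) (C.node (nat_lit 4) (nat_lit 7) (nat_lit 10) (C.cons (nat_lit 1172) (C.ref (nat_lit 100) (nat_lit 10321519924240)) (C.cons (nat_lit 1170) (C.miq (nat_lit 916916500) (nat_lit 1470056619169027995900969491)) (C.cons (nat_lit 1168) (C.node (nat_lit 2) (nat_lit 4) (nat_lit 7) (C.cons (nat_lit 150) (C.node (nat_lit 2) (nat_lit 4) (nat_lit 5) (C.cons (nat_lit 60) (C.node (nat_lit 2) (nat_lit 4) (nat_lit 10) (C.cons (nat_lit 1044) (C.node (nat_lit 2) (nat_lit 5) (nat_lit 10) (C.cons (nat_lit 1316) (C.miq (nat_lit 2722596144) (nat_lit 181374309507981299313869097)) (C.cons (nat_lit 1060) (C.node (nat_lit 2) (nat_lit 7) (nat_lit 8) (C.cons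 (nat_lit 396) (C.miq (nat_lit 2186965824) (nat_lit 1281496805098336869787173017)) (C.cons (nat_lit 388) (C.node (nat_lit 3) (nat_lit 4) (nat_lit 9) (C.cons (nat_lit 792) (C.miq (nat_lit 2485617488) (nat_lit 181374309360488411518271785)) C.nil)) C.nil))) C.nil))) C.nil)) (C.cons (nat_lit 52) (C.node (nat_lit 2) (nat_lit 3) (nat_lit 4) (C.cons (nat_lit 1052) (C.node (nat_lit 2) (nat_lit 7) (nat_lit 10) (C.cons (nat_lit 1156) (C.node (nat_lit 1) (nat_lit 4) (nat_lit 10) (C.cons (nat_lit 1298) (C.miq (nat_lit 1631754880) (nat_lit 181349738525382278708004737)) (C.cons (nat_lit 1042) (C.node (nat_lit 4) (nat_lit 8) (nat_lit 10) C.nil) C.nil))) C.nil)) (C.cons (nat_lit 28) (C.node (nat_lit 2) (nat_lit 4) (nat_lit 10) (C.cons (nat_lit 1044) (C.node (nat_lit 1) (nat_lit 2) (nat_lit 6) (C.cons (nat_lit 358) (C.miq (nat_lit 2435294800) (nat_lit 181374309588484422554158193)) (C.cons (nat_lit 326) (C.node (nat_lit 2) (nat_lit 5) (nat_lit 6)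 C.nil) (C.cons (nat_lit 102) (C.miq (nat_lit 2435294800) (nat_lit 181374309588483323042530417)) C.nil)))) C.nil)) C.nil))) C.nil))) (C.cons (nat_lit 148) (C.node (nat_lit 2) (nat_lit 4) (nat_lit 10) (C.cons (nat_lit 1052) (C.node (nat_lit 2) (nat_lit 7) (nat_lit 10) (C.cons (nat_lit 1156) (C.node (nat_lit 1) (nat_lit 4) (nat_lit 10) (C.cons (nat_lit 1298) (C.miq (nat_lit 338077705) (nat_lit 101579320896990642891982721)) (C.cons (nat_lit 1042) (C.node (nat_lit 4) (nat_lit 8) (nat_lit 10) (C.cons (nat_lit 1296) (C.node (nat_lit 2) (nat_lit 5) (nat_lit 10) C.nil) C.nil)) C.nil))) C.nil)) (C.cons (nat_lit 1044) (C.node (nat_lit 2) (nat_lit 7) (nat_lit 10) (C.cons (nat_lit 1164) (C.node (nat_lit 1) (nat_lit 7) (nat_lit 10) (C.cons (nat_lit 1186) (C.miq (nat_lit 388605190) (nat_lit 778577779849657302299509873)) (C.cons (nat_lit 1154) (C.node (nat_lit 7) (nat_lit 5) (nat_lit 10) (C.cons (nat_lit 1184) (C.node (nat_lit 2) (nat_lit 8) (nat_lit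 10) C.nil) C.nil)) C.nil))) (C.cons (nat_lit 1156) (C.node (nat_lit 1) (nat_lit 2) (nat_lit 6) (C.cons (nat_lit 358) (C.miq (nat_lit 309945610) (nat_lit 778577779616596021670380657)) (C.cons (nat_lit 326) (C.node (nat_lit 2) (nat_lit 5) (nat_lit 6) (C.cons (nat_lit 100) (C.node (nat_lit 3) (nat_lit 4) (nat_lit 9) C.nil) C.nil)) (C.cons (nat_lit 102) (C.miq (nat_lit 309945610) (nat_lit 778577779544538427632452721)) (C.cons (nat_lit 70) (C.node (nat_lit 1) (nat_lit 2) (nat_lit 4) (C.cons (nat_lit 22)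
  (C.node (nat_lit 2) (nat_lit 3) (nat_lit 4) C.nil) C.nil)) C.nil))))) C.nil))) C.nil))) C.nil))) C.nil)))) C.nil)) C.nil))) C.nil))) C.nil))) C.nil))) C.nil)))) C.nil))) C.nil)))) C.nil)) C.nil))) C.nil))) List.nil)

theorem ok11_106 : okL par11 (nat_lit 107) c11_106 (nat_lit 106) = true := by decide +kernel

noncomputable def c11_107 : List C :=
  (List.cons (C.node (nat_lit 2) (nat_lit 6) (nat_lit 7) (C.cons (nat_lit 452) (C.node (nat_lit 1) (nat_lit 2) (nat_lit 6) (C.cons (nat_lit 102) (C.node (nat_lit 3) (nat_lit 5) (nat_lit 6) (C.cons (nat_lit 232) (C.miq (nat_lit 2522325280) (nat_lit 280506226796882915368436743)) (C.cons (nat_lit 104) (C.node (nat_lit 4) (nat_lit 6) (nat_lit 7) (C.cons (nat_lit 720) (C.miq (nat_lit 1469456545) (nat_lit 870428471736880146057135111)) (C.cons (nat_lit 208) (C.node (nat_lit 4) (nat_lit 6) (nat_lit 9) (C.cons (nat_lit 848) (C.miq (nat_lit 373467520) (nat_lit 101568787891695400063928193)) (C.cons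 (nat_lit 592) (C.node (nat_lit 5) (nat_lit 6) (nat_lit 7) (C.cons (nat_lit 736) (C.node (nat_lit 5) (nat_lit 6) (nat_lit 8) (C.cons (nat_lit 352) (C.node (nat_lit 6) (nat_lit 8) (nat_lit 9) (C.cons (nat_lit 832) (C.node (nat_lit 3) (nat_lit 7) (nat_lit 9) (C.cons (nat_lit 650) (C.miq (nat_lit 563546725) (nat_lit 785804826752488707209561201)) (C.cons (nat_lit 648) (C.node (nat_lit 1) (nat_lit 7) (nat_lit 9) (C.cons (nat_lit 646) (C.node (nat_lit 4) (nat_lit 7) (nat_lit 9) (C.cons (nat_lit 656) (C.node (nat_lit 2) (nat_lit 8) (nat_lit 9) (C.cons (nat_lit 804) (C.miq (nat_lit 2723745910) (nat_lit 972005910944369348871979203)) (C.cons (nat_lit 772) (C.node (nat_lit 2) (nat_lit 5) (nat_lit 8) (C.cons (nat_lit 1316) (C.miq (nat_lit 2182587744) (nat_lit 781001516036837550359512177)) (C.cons (nat_lit 292) (C.node (nat_lit 5) (nat_lit 8) (nat_lit 10) (C.cons (nat_lit 1314) (C.miq (nat_lit 907348392) (nat_lit 123315912449477709463160705))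 (C.cons (nat_lit 1312) (C.node (nat_lit 2) (nat_lit 5) (nat_lit 9) (C.cons (nat_lit 1572) (C.node (nat_lit 2) (nat_lit 4) (nat_lit 9) (C.cons (nat_lit 532) (C.node (nat_lit 2) (nat_lit 3) (nat_lit 5) (C.cons (nat_lit 60) (C.miq (nat_lit 923943013) (nat_lit 780967186318761378395325553)) (C.cons (nat_lit 44) (C.node (nat_lit 2) (nat_lit 4) (nat_lit 5) (C.cons (nat_lit 52) (C.node (nat_lit 3) (nat_lit 9) (nat_lit 10) (C.cons (nat_lit 1560) (C.miq (nat_lit 691493440) (nat_lit 783386975265537230833779825)) (C.cons (nat_lit 1544) (C.node (nat_lit 4) (nat_lit 9) (nat_lit 10) (C.cons (nat_lit 1552) (C.node (nat_lit 3) (nat_lit 6) (nat_lit 7) (C.cons (nat_lit 1224) (C.miq (nat_lit 982808080) (nat_lit 1876255694738280008771633347)) (C.cons (nat_lit 200) (C.node (nat_lit 6) (nat_lit 7) (nat_lit 10) (C.cons (nat_lit 1216) (C.node (nat_lit 4) (nat_lit 5) (nat_lit 7) (C.cons (nat_lit 434) (C.miq (nat_lit 1698862976) (nat_lit 62875007959387578903627649))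 (C.cons (nat_lit 432) (C.miq (nat_lit 1698862976) (nat_lit 62875007959387570313693057)) (C.cons (nat_lit 178) (C.miq (nat_lit 840369748) (nat_lit 780968901988682923802494065)) (C.cons (nat_lit 176) (C.node (nat_lit 4) (nat_lit 7) (nat_lit 8) (C.cons (nat_lit 402) (C.miq (nat_lit 2458125937) (nat_lit 334882247420146123799658691)) (C.cons (nat_lit 400) (C.node (nat_lit 1) (nat_lit 4) (nat_lit 7) (C.cons (nat_lit 1170) (C.miq (nat_lit 1093052304) (nat_lit 123331407878032480919160705)) (C.cons (nat_lit 146) (C.node (nat_lit 1) (nat_lit 2) (nat_lit 4) (C.cons (nat_lit 22) (C.node (nat_lit 1) (nat_lit 2) (nat_lit 3) C.nil) C.nil)) C.nil))) C.nil))) C.nil))))) C.nil)) C.nil))) C.nil)) C.nil))) C.nil)) C.nil))) C.nil)) (C.cons (nat_lit 564) (C.miq (nat_lit 1383483664) (nat_lit 546455444572578856153842195)) (C.cons (nat_lit 548) (C.miq (nat_lit 2723745910) (nat_lit 662520901123024280147198147)) C.nil)))) C.nil))) C.nil))) C.nil))) C.nil))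 (C.cons (nat_lit 642) (C.miq (nat_lit 563546725) (nat_lit 776133420195571673811911793)) C.nil))) C.nil))) C.nil)) C.nil)) (C.cons (nat_lit 224) (C.miq (nat_lit 2522325280) (nat_lit 270834820239965881970787335)) C.nil))) C.nil))) C.nil))) C.nil))) (C.cons (nat_lit 70) (C.node (nat_lit 2) (nat_lit 5) (nat_lit 6) (C.cons (nat_lit 100) (C.node (nat_lit 3) (nat_lit 7) (nat_lit 8) (C.cons (nat_lit 394) (C.node (nat_lit 1) (nat_lit 3) (nat_lit 6) (C.cons (nat_lit 106) (C.miq (nat_lit 2436408912) (nat_lit 476352209574452858859357297)) (C.cons (nat_lit 90)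
  (C.miq (nat_lit 2436343360) (nat_lit 476352209574452790130443377)) (C.cons (nat_lit 74) (C.node (nat_lit 1) (nat_lit 5) (nat_lit 6) (C.cons (nat_lit 354) (C.miq (nat_lit 1132791574) (nat_lit 359071942416624036324966595)) (C.cons (nat_lit 98) (C.node (nat_lit 6) (nat_lit 7) (nat_lit 10) (C.cons (nat_lit 1224) (C.miq (nat_lit 1097009575) (nat_lit 89463333152795929740838785)) (C.cons (nat_lit 1216) (C.node (nat_lit 1) (nat_lit 7) (nat_lit 10) (C.cons (nat_lit 1186) (C.miq (nat_lit 638912935) (nat_lit 118477774200801463095134081)) (C.cons (nat_lit 1170) (C.miq (nat_lit 1130459290) (nat_lit 89482093385117000381106049)) (C.cons (nat_lit 1154) (C.node (nat_lit 1) (nat_lit 8) (nat_lit 10) (C.cons (nat_lit 1314) (C.miq (nat_lit 907348392) (nat_lit 118480209171019192764336001)) (C.cons (nat_lit 1298) (C.miq (nat_lit 1113686170) (nat_lit 84648751324802815617009537)) (C.cons (nat_lit 1282) (C.node (nat_lit 4) (nat_lit 8) (nat_lit 10) (C.cons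 (nat_lit 1304) (C.miq (nat_lit 1125558384) (nat_lit 89481484966539428549035905)) (C.cons (nat_lit 1296) (C.node (nat_lit 1) (nat_lit 3) (nat_lit 9) (C.cons (nat_lit 554) (C.node (nat_lit 1) (nat_lit 5) (nat_lit 10) (C.cons (nat_lit 1058) (C.node (nat_lit 3) (nat_lit 7) (nat_lit 9) (C.cons (nat_lit 648) (C.node (nat_lit 1) (nat_lit 7) (nat_lit 9) (C.cons (nat_lit 646) (C.miq (nat_lit 1444022935) (nat_lit 84627851405840133405411201)) (C.cons (nat_lit 642) (C.node (nat_lit 1) (nat_lit 2) (nat_lit 9) (C.cons (nat_lit 774) (C.miq (nat_lit 1175587480) (nat_lit 84629917441176388883580801)) (C.cons (nat_lit 518) (C.node (nat_lit 1) (nat_lit 8) (nat_lit 9) (C.cons (nat_lit 770) (C.node (nat_lit 3) (nat_lit 9) (nat_lit 10) (C.cons (nat_lit 1560) (C.miq (nat_lit 423062080) (nat_lit 783387528676303691421647985)) (C.cons (nat_lit 1544) (C.node (nat_lit 5) (nat_lit 9) (nat_lit 10) (C.cons (nat_lit 1572) (C.miq (nat_lit 1905395365) (nat_lit 626226618328044575673025649))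 (C.cons (nat_lit 1568) (C.node (nat_lit 1) (nat_lit 2) (nat_lit 3) (C.cons (nat_lit 30) (C.node (nat_lit 1) (nat_lit 2) (nat_lit 7) (C.cons (nat_lit 134) (C.node (nat_lit 1) (nat_lit 3) (nat_lit 10) (C.cons (nat_lit 1034) (C.node (nat_lit 1) (nat_lit 4) (nat_lit 10) C.nil) C.nil)) C.nil)) (C.cons (nat_lit 14) (C.node (nat_lit 1) (nat_lit 2) (nat_lit 7) (C.cons (nat_lit 150) (C.node (nat_lit 1) (nat_lit 5) (nat_lit 7) (C.cons (nat_lit 162) (C.node (nat_lit 2) (nat_lit 7) (nat_lit 9) (C.cons (nat_lit 644) (C.node (nat_lit 4) (nat_lit 7) (nat_lit 10) (C.cons (nat_lit 1168) (C.node (nat_lit 1) (nat_lit 2) (nat_lit 5) C.nil) C.nil)) C.nil)) C.nil)) (C.cons (nat_lit 134) (C.node (nat_lit 1) (nat_lit 2) (nat_lit 4) (C.cons (nat_lit 54) (C.node (nat_lit 1) (nat_lit 2) (nat_lit 8) (C.cons (nat_lit 262) (C.node (nat_lit 1) (nat_lit 4) (nat_lit 7) C.nil) C.nil)) (C.cons (nat_lit 22) (C.node (nat_lit 1) (nat_lit 2) (nat_lit 5) (C.cons (nat_lit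 294) (C.node (nat_lit 2) (nat_lit 8) (nat_lit 9) C.nil) C.nil)) C.nil))) C.nil))) C.nil))) C.nil))) C.nil))) C.nil)) C.nil))) C.nil))) C.nil)) C.nil)) (C.cons (nat_lit 522) (C.node (nat_lit 1) (nat_lit 4) (nat_lit 6) (C.cons (nat_lit 338) (C.node (nat_lit 3) (nat_lit 4) (nat_lit 6) (C.cons (nat_lit 88) (C.node (nat_lit 1) (nat_lit 4) (nat_lit 10) (C.cons (nat_lit 1050) (C.node (nat_lit 1) (nat_lit 5) (nat_lit 10) (C.cons (nat_lit 1058) (C.node (nat_lit 2) (nat_lit 3) (nat_lit 7) (C.cons (nat_lit 1164) (C.miq (nat_lit 1177163891) (nat_lit 1320166364195592937338044810)) (C.cons (nat_lit 140) (C.node (nat_lit 3) (nat_lit 7) (nat_lit 10) (C.cons (nat_lit 1192) (C.miq (nat_lit 1468441364) (nat_lit 546455444749344059205747738)) (C.cons (nat_lit 1160) (C.node (nat_lit 5) (nat_lit 7) (nat_lit 10) (C.cons (nat_lit 1184) (C.node (nat_lit 1) (nat_lit 2) (nat_lit 3) (C.cons (nat_lit 46) (C.node (nat_lit 2) (nat_lit 3) (nat_lit 4) (C.cons (nat_lit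 28) (C.node (nat_lit 1) (nat_lit 2) (nat_lit 8) (C.cons (nat_lit 774) (C.miq (nat_lit 1175587480) (nat_lit 84629917441176388883580801)) (C.cons (nat_lit 262)
  (C.node (nat_lit 1) (nat_lit 2) (nat_lit 9) (C.cons (nat_lit 646) (C.miq (nat_lit 1629858160) (nat_lit 55631562101210437046830977)) (C.cons (nat_lit 518) (C.node (nat_lit 1) (nat_lit 2) (nat_lit 4) (C.cons (nat_lit 150) (C.node (nat_lit 1) (nat_lit 4) (nat_lit 5) C.nil) C.nil)) C.nil))) C.nil))) C.nil)) (C.cons (nat_lit 14) (C.node (nat_lit 1) (nat_lit 3) (nat_lit 5) (C.cons (nat_lit 42) (C.node (nat_lit 3) (nat_lit 6) (nat_lit 10) (C.cons (nat_lit 1352) (C.node (nat_lit 2) (nat_lit 3) (nat_lit 8) (C.cons (nat_lit 268) (C.node (nat_lit 1) (nat_lit 2) (nat_lit 7) (C.cons (nat_lit 646) (C.miq (nat_lit 1444022935) (nat_lit 84627851405840133405411201)) (C.cons (nat_lit 150) (C.miq (nat_lit 648312881) (nat_lit 1374551424040676924411478410)) C.nil))) C.nil)) C.nil)) C.nil)) C.nil)))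 C.nil)) C.nil))) C.nil))) C.nil)) (C.cons (nat_lit 1042) (C.node (nat_lit 1) (nat_lit 3) (nat_lit 10) (C.cons (nat_lit 1066) (C.node (nat_lit 5) (nat_lit 7) (nat_lit 10) (C.cons (nat_lit 1184) (C.node (nat_lit 3) (nat_lit 9) (nat_lit 10) (C.cons (nat_lit 1560) (C.miq (nat_lit 1905460900) (nat_lit 631062100245574207856444529)) (C.cons (nat_lit 1544) (C.node (nat_lit 5) (nat_lit 9) (nat_lit 10) (C.cons (nat_lit 1572) (C.miq (nat_lit 441936160) (nat_lit 1431371767989744980604551757)) (C.cons (nat_lit 1568) (C.node (nat_lit 1) (nat_lit 2) (nat_lit 3) (C.cons (nat_lit 30) (C.node (nat_lit 2) (nat_lit 3) (nat_lit 5) (C.cons (nat_lit 44) (C.node (nat_lit 3) (nat_lit 4) (nat_lit 10) (C.cons (nat_lit 1048) (C.node (nat_lit 1) (nat_lit 2) (nat_lit 7) (C.cons (nat_lit 646) (C.miq (nat_lit 1444022935) (nat_lit 84627851405840133405411201)) (C.cons (nat_lit 134) (C.node (nat_lit 2) (nat_lit 3) (nat_lit 7) (C.cons (nat_lit 1164) (C.miq (nat_lit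 2536770081) (nat_lit 184975446162859833107022855)) (C.cons (nat_lit 140) (C.node (nat_lit 3) (nat_lit 7) (nat_lit 10) (C.cons (nat_lit 1160) (C.node (nat_lit 1) (nat_lit 4) (nat_lit 5) C.nil) C.nil)) C.nil))) C.nil))) C.nil)) C.nil)) (C.cons (nat_lit 14) (C.node (nat_lit 1) (nat_lit 3) (nat_lit 4) (C.cons (nat_lit 26) (C.node (nat_lit 2) (nat_lit 3) (nat_lit 5) (C.cons (nat_lit 60) (C.node (nat_lit 3) (nat_lit 4) (nat_lit 10) (C.cons (nat_lit 1048) (C.node (nat_lit 1) (nat_lit 4) (nat_lit 5) (C.cons (nat_lit 178) (C.miq (nat_lit 339113248) (nat_lit 106389069291284544327844005)) C.nil)) C.nil)) (C.cons (nat_lit 44) (C.node (nat_lit 3) (nat_lit 5) (nat_lit 6) (C.cons (nat_lit 232) (C.node (nat_lit 3) (nat_lit 7) (nat_lit 9) C.nil) C.nil)) C.nil))) C.nil)) C.nil))) C.nil))) C.nil))) C.nil)) (C.cons (nat_lit 1034) (C.node (nat_lit 1) (nat_lit 5) (nat_lit 10) (C.cons (nat_lit 1058) (C.node (nat_lit 2) (nat_lit 3) (nat_lit 7) (C.cons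 (nat_lit 1164) (C.node (nat_lit 2) (nat_lit 3) (nat_lit 8) (C.cons (nat_lit 268) (C.node (nat_lit 4) (nat_lit 7) (nat_lit 10) (C.cons (nat_lit 1168) (C.node (nat_lit 5) (nat_lit 7) (nat_lit 10) (C.cons (nat_lit 1184) (C.node (nat_lit 3) (nat_lit 4) (nat_lit 10) (C.cons (nat_lit 1560) (C.miq (nat_lit 1905460900) (nat_lit 631062100245574207856444529)) (C.cons (nat_lit 1048) (C.node (nat_lit 3) (nat_lit 6) (nat_lit 10) (C.cons (nat_lit 1352) (C.node (nat_lit 1) (nat_lit 2) (nat_lit 7) (C.cons (nat_lit 646) (C.miq (nat_lit 1444022935) (nat_lit 84627851405840133405411201)) (C.cons (nat_lit 150) (C.miq (nat_lit 1185028151) (nat_lit 1320149762125930464212156810)) C.nil))) C.nil)) C.nil))) C.nil)) C.nil)) C.nil)) (C.cons (nat_lit 140) (C.node (nat_lit 2) (nat_lit 3) (nat_lit 8) (C.cons (nat_lit 1292) (C.node (nat_lit 3) (nat_lit 6) (nat_lit 8) (C.cons (nat_lit 328) (C.node (nat_lit 3) (nat_lit 6) (nat_lit 10) (C.cons (nat_lit 1096) (C.node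 (nat_lit 6) (nat_lit 8) (nat_lit 10) C.nil) C.nil)) C.nil)) (C.cons (nat_lit 268) (C.node (nat_lit 2) (nat_lit 7) (nat_lit 10) (C.cons (nat_lit 1172) (C.node (nat_lit 1) (nat_lit 2) (nat_lit 7) (C.cons (nat_lit 646) (C.miq (nat_lit 1444022935) (nat_lit 84627851405840133405411201)) (C.cons (nat_lit 134) (C.node (nat_lit 2) (nat_lit 7) (nat_lit 9) (C.cons (nat_lit 644)
  (C.node (nat_lit 2) (nat_lit 8) (nat_lit 10) (C.cons (nat_lit 1316) (C.miq (nat_lit 2188597824) (nat_lit 169255093799464079258616945)) C.nil)) C.nil)) C.nil))) (C.cons (nat_lit 1156) (C.node (nat_lit 4) (nat_lit 7) (nat_lit 10) (C.cons (nat_lit 1168) (C.node (nat_lit 2) (nat_lit 8) (nat_lit 10) (C.cons (nat_lit 1316) (C.node (nat_lit 1) (nat_lit 2) (nat_lit 8) (C.cons (nat_lit 774) (C.miq (nat_lit 1175587480) (nat_lit 84629917441176388883580801)) (C.cons (nat_lit 262) (C.node (nat_lit 2) (nat_lit 8) (nat_lit 9) C.nil) C.nil))) (C.cons (nat_lit 1284) (C.node (nat_lit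 5) (nat_lit 8) (nat_lit 10) (C.cons (nat_lit 1312) (C.node (nat_lit 3) (nat_lit 5) (nat_lit 6) C.nil) C.nil)) C.nil))) C.nil)) C.nil))) C.nil))) C.nil))) C.nil)) C.nil))) C.nil))) C.nil)) (C.cons (nat_lit 82) (C.node (nat_lit 1) (nat_lit 6) (nat_lit 8) (C.cons (nat_lit 322) (C.node (nat_lit 1) (nat_lit 4) (nat_lit 8) (C.cons (nat_lit 306) (C.node (nat_lit 4) (nat_lit 7) (nat_lit 8) (C.cons (nat_lit 400) (C.node (nat_lit 5) (nat_lit 7) (nat_lit 8) (C.cons (nat_lit 416) (C.node (nat_lit 1) (nat_lit 2) (nat_lit 8) (C.cons (nat_lit 774) (C.miq (nat_lit 1175587480) (nat_lit 84629917441176388883580801)) (C.cons (nat_lit 262) (C.node (nat_lit 1) (nat_lit 8) (nat_lit 9) C.nil) C.nil))) C.nil)) C.nil)) (C.cons (nat_lit 274) (C.node (nat_lit 1) (nat_lit 4) (nat_lit 10) (C.cons (nat_lit 1050) (C.node (nat_lit 1) (nat_lit 5) (nat_lit 10) (C.cons (nat_lit 1058) (C.node (nat_lit 1) (nat_lit 2) (nat_lit 3) (C.cons (nat_lit 46) (C.node (nat_lit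 2) (nat_lit 3) (nat_lit 4) (C.cons (nat_lit 28) (C.node (nat_lit 1) (nat_lit 2) (nat_lit 4) (C.cons (nat_lit 22) (C.node (nat_lit 1) (nat_lit 2) (nat_lit 7) C.nil) C.nil)) C.nil)) (C.cons (nat_lit 14) (C.node (nat_lit 1) (nat_lit 3) (nat_lit 5) C.nil) C.nil))) C.nil)) (C.cons (nat_lit 1042) (C.node (nat_lit 1) (nat_lit 3) (nat_lit 10) (C.cons (nat_lit 1066) (C.node (nat_lit 5) (nat_lit 7) (nat_lit 10) (C.cons (nat_lit 1184) (C.node (nat_lit 3) (nat_lit 9) (nat_lit 10) (C.cons (nat_lit 1560) (C.miq (nat_lit 1905460900) (nat_lit 631062100245574207856444529)) (C.cons (nat_lit 1544) (C.node (nat_lit 5) (nat_lit 9) (nat_lit 10) (C.cons (nat_lit 1572) (C.miq (nat_lit 441936160) (nat_lit 1431371767989744980604551757)) C.nil)) C.nil))) C.nil)) (C.cons (nat_lit 1034) (C.node (nat_lit 1) (nat_lit 5) (nat_lit 10) C.nil) C.nil))) C.nil))) C.nil))) C.nil)) C.nil))) C.nil))) C.nil))) C.nil)))) C.nil)))) C.nil))) C.nil))) C.nil)))) (C.cons (nat_lit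 392) (C.node (nat_lit 4) (nat_lit 6) (nat_lit 7) (C.cons (nat_lit 720) (C.node (nat_lit 2) (nat_lit 7) (nat_lit 9) (C.cons (nat_lit 646) (C.miq (nat_lit 1444022935) (nat_lit 84627851405840133405411201)) (C.cons (nat_lit 644) (C.node (nat_lit 5) (nat_lit 6) (nat_lit 9) (C.cons (nat_lit 864) (C.miq (nat_lit 895748247) (nat_lit 1374551479337278428184315777)) (C.cons (nat_lit 608) (C.node (nat_lit 6) (nat_lit 8) (nat_lit 9) (C.cons (nat_lit 832) (C.node (nat_lit 6) (nat_lit 7) (nat_lit 10) (C.cons (nat_lit 1224) (C.miq (nat_lit 439391860) (nat_lit 1248830167333943246983856848)) (C.cons (nat_lit 1216) (C.node (nat_lit 2) (nat_lit 9) (nat_lit 10) (C.cons (nat_lit 1572) (C.miq (nat_lit 422013520) (nat_lit 778551825397845226263217265)) (C.cons (nat_lit 1556) (C.miq (nat_lit 306580119) (nat_lit 101553366252930608042870657)) (C.cons (nat_lit 1540) (C.node (nat_lit 4) (nat_lit 9) (nat_lit 10) (C.cons (nat_lit 1560) (C.miq (nat_lit 979847440)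 (nat_lit 1470056619442340198223118867)) (C.cons (nat_lit 1552) (C.node (nat_lit 4) (nat_lit 7) (nat_lit 8) (C.cons (nat_lit 434) (C.miq (nat_lit 910494072) (nat_lit 1374554135750615117065226113)) (C.cons (nat_lit 432) (C.miq (nat_lit 910494072) (nat_lit 1374554135750615117065095041)) (C.cons (nat_lit 402) (C.miq (nat_lit 2458125937) (nat_lit 334882247420146123799658691)) (C.cons (nat_lit 400) (C.ref (nat_lit 102) (nat_lit 7306967418640)) C.nil))))) C.nil))) C.nil)))) C.nil))) C.nil)) C.nil))) C.nil))) (C.cons (nat_lit 208) (C.node (nat_lit 4) (nat_lit 6) (nat_lit 9)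
  (C.cons (nat_lit 848) (C.miq (nat_lit 373467520) (nat_lit 101568787891695400063928193)) (C.cons (nat_lit 592) (C.node (nat_lit 6) (nat_lit 7) (nat_lit 9) (C.cons (nat_lit 736) (C.miq (nat_lit 374516080) (nat_lit 120911601005528985815549825)) (C.cons (nat_lit 704) (C.node (nat_lit 5) (nat_lit 6) (nat_lit 7) (C.cons (nat_lit 232) (C.node (nat_lit 6) (nat_lit 7) (nat_lit 10) (C.cons (nat_lit 1216) (C.node (nat_lit 5) (nat_lit 7) (nat_lit 10) (C.cons (nat_lit 1186) (C.miq (nat_lit 1382117530) (nat_lit 84646685257941362755635073)) (C.cons (nat_lit 1184) (C.node (nat_lit 3) (nat_lit 4) (nat_lit 6) (C.cons (nat_lit 346) (C.miq (nat_lit 657982820) (nat_lit 473904031083487421642966129)) (C.cons (nat_lit 344) (C.miq (nat_lit 657982820) (nat_lit 473904031083487421642835057)) (C.cons (nat_lit 90) (C.miq (nat_lit 2788659520) (nat_lit 280506226796882863828042259)) (C.cons (nat_lit 88) (C.node (nat_lit 3) (nat_lit 7) (nat_lit 9) (C.cons (nat_lit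 650) (C.miq (nat_lit 323393290) (nat_lit 106415023993052842142271361)) (C.cons (nat_lit 648) (C.node (nat_lit 4) (nat_lit 7) (nat_lit 8) (C.cons (nat_lit 434) (C.miq (nat_lit 931292480) (nat_lit 546445335663375860523926641)) (C.cons (nat_lit 432) (C.miq (nat_lit 931292480) (nat_lit 546445335663375851933992049)) (C.cons (nat_lit 402) (C.miq (nat_lit 2458125937) (nat_lit 334882247420146123799658691)) (C.cons (nat_lit 400) (C.node (nat_lit 1) (nat_lit 3) (nat_lit 6) (C.cons (nat_lit 330) (C.node (nat_lit 1) (nat_lit 4) (nat_lit 6) (C.cons (nat_lit 82) (C.node (nat_lit 1) (nat_lit 5) (nat_lit 6) (C.cons (nat_lit 98) (C.node (nat_lit 3) (nat_lit 6) (nat_lit 10) (C.cons (nat_lit 1096) (C.node (nat_lit 4) (nat_lit 6) (nat_lit 8) (C.cons (nat_lit 336) (C.node (nat_lit 6) (nat_lit 8) (nat_lit 10) (C.cons (nat_lit 1344) (C.node (nat_lit 5) (nat_lit 6) (nat_lit 8) (C.cons (nat_lit 864) (C.node (nat_lit 1) (nat_lit 7) (nat_lit 8) (C.cons (nat_lit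 418) (C.miq (nat_lit 629344022) (nat_lit 359061833604249446288851139)) (C.cons (nat_lit 386) (C.node (nat_lit 5) (nat_lit 7) (nat_lit 8) (C.cons (nat_lit 416) (C.node (nat_lit 1) (nat_lit 8) (nat_lit 9) (C.cons (nat_lit 774) (C.miq (nat_lit 1175587480) (nat_lit 84629917441176388883580801)) C.nil)) C.nil)) C.nil))) C.nil)) C.nil)) C.nil)) C.nil)) C.nil)) C.nil)) (C.cons (nat_lit 74) (C.node (nat_lit 1) (nat_lit 4) (nat_lit 6) (C.cons (nat_lit 338) (C.node (nat_lit 1) (nat_lit 5) (nat_lit 6) (C.cons (nat_lit 98) (C.node (nat_lit 1) (nat_lit 7) (nat_lit 8) (C.cons (nat_lit 418) (C.node (nat_lit 1) (nat_lit 7) (nat_lit 9) (C.cons (nat_lit 646) (C.miq (nat_lit 1444022935) (nat_lit 84627851405840133405411201)) (C.cons (nat_lit 642) (C.node (nat_lit 1) (nat_lit 8) (nat_lit 9) (C.cons (nat_lit 778) (C.miq (nat_lit 1444088472) (nat_lit 89465989654516379773699969)) (C.cons (nat_lit 774) (C.miq (nat_lit 1175587480) (nat_lit 84629917441176388883580801))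 (C.cons (nat_lit 770) (C.node (nat_lit 1) (nat_lit 3) (nat_lit 9) (C.cons (nat_lit 554) (C.miq (nat_lit 672753491) (nat_lit 930883746362752364255510760)) (C.cons (nat_lit 522) (C.node (nat_lit 2) (nat_lit 8) (nat_lit 9) (C.cons (nat_lit 804) (C.miq (nat_lit 622237808) (nat_lit 118485595680800750631585665)) (C.cons (nat_lit 772) (C.node (nat_lit 1) (nat_lit 2) (nat_lit 8) (C.cons (nat_lit 270) (C.node (nat_lit 1) (nat_lit 8) (nat_lit 10) (C.cons (nat_lit 1282) (C.node (nat_lit 3) (nat_lit 6) (nat_lit 8) (C.cons (nat_lit 1352) (C.node (nat_lit 5) (nat_lit 6) (nat_lit 8) C.nil) C.nil)) C.nil)) (C.cons (nat_lit 262) (C.node (nat_lit 3) (nat_lit 6) (nat_lit 8) (C.cons (nat_lit 1352) (C.node (nat_lit 1) (nat_lit 3) (nat_lit 8) (C.cons (nat_lit 266) (C.node (nat_lit 1) (nat_lit 8) (nat_lit 10) C.nil) C.nil)) C.nil)) C.nil))) C.nil))) C.nil))) C.nil)))) C.nil))) (C.cons (nat_lit 386) (C.node (nat_lit 5) (nat_lit 7) (nat_lit 8) (C.cons (nat_lit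 416) (C.node (nat_lit 3) (nat_lit 6) (nat_lit 8) (C.cons (nat_lit 1352) (C.node (nat_lit 4) (nat_lit 8) (nat_lit 10) (C.cons (nat_lit 1296) (C.node (nat_lit 1) (nat_lit 8) (nat_lit 10)
  (C.cons (nat_lit 1314) (C.miq (nat_lit 907348392) (nat_lit 118480209171019192764336001)) (C.cons (nat_lit 1282) (C.node (nat_lit 5) (nat_lit 6) (nat_lit 8) (C.cons (nat_lit 864) (C.node (nat_lit 4) (nat_lit 5) (nat_lit 8) (C.cons (nat_lit 304) (C.node (nat_lit 2) (nat_lit 8) (nat_lit 9) (C.cons (nat_lit 774) (C.miq (nat_lit 1175587480) (nat_lit 84629917441176388883580801)) (C.cons (nat_lit 772) (C.node (nat_lit 1) (nat_lit 5) (nat_lit 8) (C.cons (nat_lit 290) (C.node (nat_lit 1) (nat_lit 2) (nat_lit 8) C.nil) C.nil)) C.nil))) C.nil)) C.nil)) C.nil))) C.nil)) (C.cons (nat_lit 328) (C.node (nat_lit 3) (nat_lit 6) (nat_lit 10) (C.cons (nat_lit 1096) (C.node (nat_lit 6) (nat_lit 8) (nat_lit 10) (C.cons (nat_lit 1344) (C.node (nat_lit 5) (nat_lit 6)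 (nat_lit 8) (C.cons (nat_lit 864) (C.node (nat_lit 4) (nat_lit 5) (nat_lit 8) C.nil) C.nil)) C.nil)) C.nil)) C.nil))) C.nil)) C.nil))) C.nil)) (C.cons (nat_lit 82) (C.node (nat_lit 4) (nat_lit 6) (nat_lit 8) (C.cons (nat_lit 336) (C.node (nat_lit 1) (nat_lit 5) (nat_lit 6) (C.cons (nat_lit 354) (C.node (nat_lit 1) (nat_lit 7) (nat_lit 8) (C.cons (nat_lit 386) (C.node (nat_lit 5) (nat_lit 6) (nat_lit 9) (C.cons (nat_lit 608) (C.node (nat_lit 5) (nat_lit 7) (nat_lit 8) (C.cons (nat_lit 416) (C.node (nat_lit 6) (nat_lit 8) (nat_lit 9) (C.cons (nat_lit 832) (C.node (nat_lit 3) (nat_lit 6) (nat_lit 8) (C.cons (nat_lit 1352) (C.node (nat_lit 1) (nat_lit 8) (nat_lit 10) (C.cons (nat_lit 1298) (C.miq (nat_lit 638847400) (nat_lit 99137027122303651776956289)) C.nil)) C.nil)) C.nil)) C.nil)) C.nil)) C.nil)) (C.cons (nat_lit 98) (C.node (nat_lit 1) (nat_lit 6) (nat_lit 8) (C.cons (nat_lit 322) (C.node (nat_lit 3) (nat_lit 6) (nat_lit 8) (C.cons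 (nat_lit 1352) (C.node (nat_lit 5) (nat_lit 6) (nat_lit 8) (C.cons (nat_lit 864) (C.node (nat_lit 2) (nat_lit 8) (nat_lit 9) (C.cons (nat_lit 774) (C.miq (nat_lit 1175587480) (nat_lit 84629917441176388883580801)) (C.cons (nat_lit 772) (C.node (nat_lit 1) (nat_lit 8) (nat_lit 9) (C.cons (nat_lit 778) (C.miq (nat_lit 1444088472) (nat_lit 89465989654516379773699969)) (C.cons (nat_lit 770) (C.node (nat_lit 1) (nat_lit 8) (nat_lit 10) (C.cons (nat_lit 1314) (C.miq (nat_lit 907348392) (nat_lit 118480209171019192764336001)) (C.cons (nat_lit 1298) (C.miq (nat_lit 638847400) (nat_lit 99137027122303651776956289)) C.nil))) C.nil))) C.nil))) C.nil)) C.nil)) C.nil)) C.nil))) C.nil)) C.nil))) C.nil))) C.nil))))) C.nil))) C.nil))))) C.nil))) C.nil)) (C.cons (nat_lit 224) (C.node (nat_lit 3) (nat_lit 5) (nat_lit 6) (C.cons (nat_lit 106) (C.node (nat_lit 3) (nat_lit 6) (nat_lit 7) (C.cons (nat_lit 1224) (C.miq (nat_lit 1097009575) (nat_lit 128148959380464063331436417))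 (C.cons (nat_lit 200) (C.node (nat_lit 6) (nat_lit 7) (nat_lit 10) (C.cons (nat_lit 1216) (C.node (nat_lit 3) (nat_lit 6) (nat_lit 10) (C.cons (nat_lit 1352) (C.miq (nat_lit 1351694502) (nat_lit 641941565653846223801681224)) (C.cons (nat_lit 1096) (C.node (nat_lit 6) (nat_lit 8) (nat_lit 10) (C.cons (nat_lit 1344) (C.node (nat_lit 5) (nat_lit 6) (nat_lit 8) (C.cons (nat_lit 864) (C.miq (nat_lit 815880342) (nat_lit 1246404475461160811154768736)) (C.cons (nat_lit 352) (C.node (nat_lit 5) (nat_lit 6) (nat_lit 9) (C.cons (nat_lit 608) (C.node (nat_lit 6) (nat_lit 8) (nat_lit 9) C.nil) C.nil)) C.nil))) C.nil)) C.nil))) C.nil)) C.nil))) (C.cons (nat_lit 104) (C.node (nat_lit 1) (nat_lit 5) (nat_lit 6) (C.cons (nat_lit 354) (C.node (nat_lit 5) (nat_lit 6) (nat_lit 9) (C.cons (nat_lit 608) (C.node (nat_lit 6) (nat_lit 8) (nat_lit 9) (C.cons (nat_lit 832) (C.node (nat_lit 1) (nat_lit 7) (nat_lit 8) (C.cons (nat_lit 402) (C.miq (nat_lit 2458125937)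 (nat_lit 334882247420146123799658691)) (C.cons (nat_lit 386) (C.node (nat_lit 1) (nat_lit 8) (nat_lit 9) (C.cons (nat_lit 778) (C.miq (nat_lit 895582377) (nat_lit 427974091794071025443014529)) (C.cons (nat_lit 774) (C.miq (nat_lit 1175587480) (nat_lit 84629917441176388883580801)) (C.cons (nat_lit 770) (C.node (nat_lit 1) (nat_lit 2) (nat_lit 8) (C.cons (nat_lit 270)
  (C.node (nat_lit 1) (nat_lit 4) (nat_lit 8) (C.cons (nat_lit 1298) (C.miq (nat_lit 1113686170) (nat_lit 84648751324802815617009537)) (C.cons (nat_lit 274) (C.node (nat_lit 1) (nat_lit 8) (nat_lit 10) (C.cons (nat_lit 1282) (C.node (nat_lit 4) (nat_lit 6) (nat_lit 8) (C.cons (nat_lit 344) (C.miq (nat_lit 1209688864) (nat_lit 1549863874790794961430708813)) (C.cons (nat_lit 336) (C.node (nat_lit 1) (nat_lit 5) (nat_lit 10) (C.cons (nat_lit 1194) (C.miq (nat_lit 638912935) (nat_lit 427962784022146531820439425)) (C.cons (nat_lit 1186) (C.miq (nat_lit 638912935) (nat_lit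 427962784022146531819915137)) (C.cons (nat_lit 1066) (C.miq (nat_lit 1161300498) (nat_lit 359056078493694909406381063)) (C.cons (nat_lit 1058) (C.node (nat_lit 1) (nat_lit 3) (nat_lit 6) C.nil) C.nil))))) C.nil))) C.nil)) C.nil))) (C.cons (nat_lit 262) (C.node (nat_lit 1) (nat_lit 3) (nat_lit 6) (C.cons (nat_lit 90) (C.node (nat_lit 4) (nat_lit 6) (nat_lit 8) (C.cons (nat_lit 336) (C.node (nat_lit 1) (nat_lit 4) (nat_lit 8) (C.cons (nat_lit 1298) (C.miq (nat_lit 638847400) (nat_lit 108808433679220685174605697)) (C.cons (nat_lit 274) (C.node (nat_lit 3) (nat_lit 6) (nat_lit 8) (C.cons (nat_lit 1352) (C.miq (nat_lit 832070666) (nat_lit 930897821126587148495029361)) C.nil)) C.nil))) C.nil)) (C.cons (nat_lit 74) (C.node (nat_lit 1) (nat_lit 4) (nat_lit 6) (C.cons (nat_lit 82) (C.node (nat_lit 3) (nat_lit 6) (nat_lit 7) (C.cons (nat_lit 1224) (C.miq (nat_lit 1097009575) (nat_lit 89463333152795929740838785)) (C.cons (nat_lit 200) (C.node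 (nat_lit 6) (nat_lit 7) (nat_lit 10) C.nil) C.nil))) C.nil)) C.nil))) C.nil))) C.nil)))) C.nil))) C.nil)) C.nil)) (C.cons (nat_lit 98) (C.node (nat_lit 3) (nat_lit 6) (nat_lit 7) (C.cons (nat_lit 1224) (C.node (nat_lit 6) (nat_lit 8) (nat_lit 10) (C.cons (nat_lit 1344) (C.node (nat_lit 2) (nat_lit 7) (nat_lit 10) (C.cons (nat_lit 1172) (C.miq (nat_lit 443848240) (nat_lit 1416870856260376702268015181)) (C.cons (nat_lit 1156) (C.node (nat_lit 4) (nat_lit 7) (nat_lit 10) (C.cons (nat_lit 1170) (C.node (nat_lit 5) (nat_lit 7) (nat_lit 10) (C.cons (nat_lit 1184) (C.node (nat_lit 2) (nat_lit 3) (nat_lit 7) (C.cons (nat_lit 142) (C.miq (nat_lit 2440260160) (nat_lit 171678331968464695546414193)) (C.cons (nat_lit 140) (C.node (nat_lit 1) (nat_lit 2) (nat_lit 7) (C.cons (nat_lit 646) (C.miq (nat_lit 1444022935) (nat_lit 84627851405840133405411201)) (C.cons (nat_lit 134) (C.node (nat_lit 4) (nat_lit 8) (nat_lit 10) (C.cons (nat_lit 1304) (C.miq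 (nat_lit 2486833270) (nat_lit 1576468820610946396362113219)) (C.cons (nat_lit 1296) (C.node (nat_lit 3) (nat_lit 4) (nat_lit 10) (C.cons (nat_lit 1560) (C.node (nat_lit 2) (nat_lit 4) (nat_lit 10) (C.cons (nat_lit 1044) (C.node (nat_lit 2) (nat_lit 9) (nat_lit 10) (C.cons (nat_lit 1572) (C.miq (nat_lit 1922237860) (nat_lit 712060130151309984411419761)) (C.cons (nat_lit 1540) (C.node (nat_lit 5) (nat_lit 9) (nat_lit 10) (C.cons (nat_lit 1568) (C.node (nat_lit 3) (nat_lit 8) (nat_lit 9) (C.cons (nat_lit 778) (C.miq (nat_lit 895582377) (nat_lit 118489081972725956718233473)) (C.cons (nat_lit 776) (C.node (nat_lit 2) (nat_lit 3) (nat_lit 4) (C.cons (nat_lit 62) (C.miq (nat_lit 1631809690) (nat_lit 74975979685743130511411073)) (C.cons (nat_lit 60) (C.miq (nat_lit 2468848720) (nat_lit 169285051380514901884994673)) (C.cons (nat_lit 30) (C.miq (nat_lit 1631809690) (nat_lit 36290353458074996920813441)) (C.cons (nat_lit 28) (C.node (nat_lit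 5) (nat_lit 6) (nat_lit 8) (C.cons (nat_lit 864) (C.node (nat_lit 4) (nat_lit 8) (nat_lit 9) (C.cons (nat_lit 784) (C.node (nat_lit 1) (nat_lit 8) (nat_lit 9) (C.cons (nat_lit 774) (C.miq (nat_lit 1175587480) (nat_lit 84629917441176388883580801)) (C.cons (nat_lit 770) (C.node (nat_lit 2) (nat_lit 8) (nat_lit 9) (C.cons (nat_lit 772) (C.node (nat_lit 4) (nat_lit 7) (nat_lit 8) (C.cons (nat_lit 432) (C.miq (nat_lit 911477127) (nat_lit 1374551479419469121364952961)) C.nil)) C.nil)) C.nil))) C.nil)) C.nil)) C.nil))))) C.nil))) C.nil)) C.nil))) C.nil)) (C.cons (nat_lit 1052)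
  (C.miq (nat_lit 880159248) (nat_lit 251467435908218983888913415)) (C.cons (nat_lit 1048) (C.miq (nat_lit 2486833270) (nat_lit 1266983810789601327637332163)) C.nil)))) C.nil))) C.nil))) C.nil))) C.nil)) (C.cons (nat_lit 1168) (C.miq (nat_lit 443848240) (nat_lit 1412035152981918185569190477)) C.nil))) C.nil))) C.nil)) (C.cons (nat_lit 200) (C.node (nat_lit 6) (nat_lit 7) (nat_lit 10) (C.cons (nat_lit 1216) (C.node (nat_lit 3) (nat_lit 6) (nat_lit 10) (C.cons (nat_lit 1352) (C.node (nat_lit 1) (nat_lit 3) (nat_lit 6) (C.cons (nat_lit 90) (C.miq (nat_lit 2788659520) (nat_lit 241820600569214730237444627)) (C.cons (nat_lit 74) (C.node (nat_lit 3) (nat_lit 4) (nat_lit 6) (C.cons (nat_lit 88) (C.node (nat_lit 1) (nat_lit 4) (nat_lit 6) (C.cons (nat_lit 338) (C.node (nat_lit 4) (nat_lit 8) (nat_lit 10) (C.cons (nat_lit 1296) (C.node (nat_lit 5) (nat_lit 6) (nat_lit 8) (C.cons (nat_lit 864) (C.node (nat_lit 1) (nat_lit 8) (nat_lit 10) (C.cons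 (nat_lit 1314) (C.miq (nat_lit 907348392) (nat_lit 118480209171019192764336001)) (C.cons (nat_lit 1282) (C.node (nat_lit 2) (nat_lit 8) (nat_lit 9) (C.cons (nat_lit 774) (C.miq (nat_lit 1175587480) (nat_lit 84629917441176388883580801)) (C.cons (nat_lit 772) (C.node (nat_lit 1) (nat_lit 8) (nat_lit 9) (C.cons (nat_lit 778) (C.miq (nat_lit 1444088472) (nat_lit 89465989654516379773699969)) (C.cons (nat_lit 770) (C.node (nat_lit 4) (nat_lit 5) (nat_lit 8) (C.cons (nat_lit 432) (C.miq (nat_lit 911477127) (nat_lit 1374551479419469121364952961)) (C.cons (nat_lit 304) (C.node (nat_lit 4) (nat_lit 7) (nat_lit 8) (C.cons (nat_lit 400) (C.node (nat_lit 1) (nat_lit 3) (nat_lit 8) C.nil) C.nil)) C.nil))) C.nil))) C.nil))) C.nil))) C.nil)) C.nil)) C.nil)) C.nil)) C.nil))) (C.cons (nat_lit 1096) (C.node (nat_lit 6) (nat_lit 8) (nat_lit 10) (C.cons (nat_lit 1344) (C.node (nat_lit 5) (nat_lit 6) (nat_lit 8) (C.cons (nat_lit 864) (C.node (nat_lit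 2) (nat_lit 8) (nat_lit 9) (C.cons (nat_lit 774) (C.miq (nat_lit 1175587480) (nat_lit 84629917441176388883580801)) (C.cons (nat_lit 772) (C.node (nat_lit 1) (nat_lit 8) (nat_lit 9) (C.cons (nat_lit 778) (C.miq (nat_lit 895582377) (nat_lit 118489081972725956718233473)) (C.cons (nat_lit 770) (C.node (nat_lit 1) (nat_lit 3) (nat_lit 6) (C.cons (nat_lit 346) (C.miq (nat_lit 2788659520) (nat_lit 241820600569215829749072403)) (C.cons (nat_lit 330) (C.node (nat_lit 1) (nat_lit 4) (nat_lit 6) C.nil) (C.cons (nat_lit 90) (C.miq (nat_lit 2788659520) (nat_lit 241820600569214730237444627)) C.nil)))) C.nil))) C.nil))) C.nil)) C.nil)) C.nil))) C.nil)) C.nil))) C.nil))) C.nil))) C.nil))) C.nil))) C.nil))) C.nil))) C.nil))) C.nil)) C.nil))) (C.cons (nat_lit 196) (C.node (nat_lit 6) (nat_lit 7) (nat_lit 10) (C.cons (nat_lit 1224) (C.node (nat_lit 6) (nat_lit 8) (nat_lit 10) (C.cons (nat_lit 1344) (C.node (nat_lit 2) (nat_lit 7) (nat_lit 10) (C.cons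 (nat_lit 1172) (C.miq (nat_lit 443848240) (nat_lit 1416870856260376702268015181)) (C.cons (nat_lit 1156) (C.node (nat_lit 3) (nat_lit 5) (nat_lit 6) (C.cons (nat_lit 106) (C.miq (nat_lit 1097009575) (nat_lit 128148959380464063331436417)) (C.cons (nat_lit 104) (C.node (nat_lit 4) (nat_lit 7) (nat_lit 10) (C.cons (nat_lit 1170) (C.node (nat_lit 5) (nat_lit 7) (nat_lit 10) (C.cons (nat_lit 1184) (C.node (nat_lit 4) (nat_lit 8) (nat_lit 10) (C.cons (nat_lit 1304) (C.miq (nat_lit 2486833270) (nat_lit 1576468820610946396362113219)) (C.cons (nat_lit 1296) (C.node (nat_lit 3) (nat_lit 4) (nat_lit 10) (C.cons (nat_lit 1560) (C.node (nat_lit 2) (nat_lit 4) (nat_lit 10) (C.cons (nat_lit 1044) (C.node (nat_lit 2) (nat_lit 9) (nat_lit 10) (C.cons (nat_lit 1572) (C.miq (nat_lit 1922237860) (nat_lit 712060130151309984411419761)) (C.cons (nat_lit 1540) (C.node (nat_lit 5) (nat_lit 9) (nat_lit 10) (C.cons (nat_lit 1568) (C.node (nat_lit 3) (nat_lit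 8) (nat_lit 9) (C.cons (nat_lit 778) (C.miq (nat_lit 324442122) (nat_lit 125757837142916324431824769)) (C.cons (nat_lit 776) (C.node (nat_lit 4) (nat_lit 6) (nat_lit 9) (C.cons (nat_lit 848)
  (C.miq (nat_lit 373467520) (nat_lit 101568787891695400063928193)) (C.cons (nat_lit 720) (C.miq (nat_lit 342009744) (nat_lit 101568787770097660389558145)) (C.cons (nat_lit 592) (C.node (nat_lit 6) (nat_lit 7) (nat_lit 9) (C.cons (nat_lit 736) (C.miq (nat_lit 1503819280) (nat_lit 1861748806126473554587746499)) (C.cons (nat_lit 704) (C.node (nat_lit 2) (nat_lit 3) (nat_lit 4) (C.cons (nat_lit 62) (C.miq (nat_lit 1631809690) (nat_lit 74975979685743130511411073)) (C.cons (nat_lit 60) (C.miq (nat_lit 2033322565) (nat_lit 712060352006508876392039537)) (C.cons (nat_lit 30) (C.miq (nat_lit 1631809690) (nat_lit 36290353458074996920813441)) (C.cons (nat_lit 28) (C.node (nat_lit 3) (nat_lit 4) (nat_lit 5) (C.cons (nat_lit 58) (C.miq (nat_lit 1631809690)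 (nat_lit 70140276407284613812586369)) (C.cons (nat_lit 56) (C.node (nat_lit 2) (nat_lit 3) (nat_lit 7) (C.cons (nat_lit 398) (C.miq (nat_lit 1663346560) (nat_lit 33870897241748505560942465)) (C.cons (nat_lit 396) (C.miq (nat_lit 1663346560) (nat_lit 33870897241748496971007873)) (C.cons (nat_lit 142) (C.miq (nat_lit 2440249450) (nat_lit 171696243455496379940996209)) (C.cons (nat_lit 140) (C.node (nat_lit 3) (nat_lit 7) (nat_lit 8) (C.cons (nat_lit 394) (C.miq (nat_lit 324302858) (nat_lit 67721428699887890462738305)) (C.cons (nat_lit 392) (C.node (nat_lit 1) (nat_lit 2) (nat_lit 4) (C.cons (nat_lit 54) (C.node (nat_lit 2) (nat_lit 7) (nat_lit 8) (C.cons (nat_lit 390) (C.miq (nat_lit 1517371522) (nat_lit 1414444205393341413899763989)) (C.cons (nat_lit 388) (C.node (nat_lit 1) (nat_lit 2) (nat_lit 7) (C.cons (nat_lit 646) (C.miq (nat_lit 1629858160) (nat_lit 65302968658127470444480385)) (C.cons (nat_lit 134) (C.node (nat_lit 1) (nat_lit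 2) (nat_lit 9) (C.cons (nat_lit 774) (C.miq (nat_lit 1629792640) (nat_lit 65302968658128020207634305)) (C.cons (nat_lit 518) (C.node (nat_lit 4) (nat_lit 8) (nat_lit 9) (C.cons (nat_lit 816) (C.miq (nat_lit 445980804) (nat_lit 1895596681570127477929410837)) (C.cons (nat_lit 784) (C.node (nat_lit 4) (nat_lit 5) (nat_lit 8) (C.cons (nat_lit 432) (C.miq (nat_lit 443883652) (nat_lit 1431369166838109874817073429)) (C.cons (nat_lit 304) (C.node (nat_lit 4) (nat_lit 5) (nat_lit 7) (C.cons (nat_lit 688) (C.miq (nat_lit 2807171393) (nat_lit 199491779370270193576444435)) (C.cons (nat_lit 176) (C.node (nat_lit 4) (nat_lit 5) (nat_lit 9) (C.cons (nat_lit 560) (C.node (nat_lit 2) (nat_lit 4) (nat_lit 9) (C.cons (nat_lit 660) (C.node (nat_lit 1) (nat_lit 7) (nat_lit 8) C.nil) C.nil)) C.nil)) C.nil))) C.nil))) C.nil))) C.nil))) C.nil))) C.nil))) (C.cons (nat_lit 22) (C.node (nat_lit 1) (nat_lit 4) (nat_lit 5) (C.cons (nat_lit 306) (C.node (nat_lit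 4) (nat_lit 8) (nat_lit 9) (C.cons (nat_lit 784) (C.node (nat_lit 1) (nat_lit 3) (nat_lit 4) (C.cons (nat_lit 90) (C.node (nat_lit 3) (nat_lit 4) (nat_lit 8) (C.cons (nat_lit 280) (C.node (nat_lit 3) (nat_lit 6) (nat_lit 8) (C.cons (nat_lit 328) (C.node (nat_lit 4) (nat_lit 6) (nat_lit 7) (C.cons (nat_lit 464) (C.node (nat_lit 5) (nat_lit 6) (nat_lit 7) (C.cons (nat_lit 224) (C.node (nat_lit 5) (nat_lit 7) (nat_lit 8) C.nil) C.nil)) C.nil)) C.nil)) C.nil)) (C.cons (nat_lit 26) (C.miq (nat_lit 1631809690) (nat_lit 31454650179616480221988737)) C.nil))) C.nil)) (C.cons (nat_lit 50) (C.node (nat_lit 2) (nat_lit 4) (nat_lit 5) (C.cons (nat_lit 564) (C.node (nat_lit 2) (nat_lit 4) (nat_lit 7) (C.cons (nat_lit 148) (C.node (nat_lit 4) (nat_lit 7) (nat_lit 9) (C.cons (nat_lit 656) (C.node (nat_lit 4) (nat_lit 8) (nat_lit 9) (C.cons (nat_lit 784) (C.node (nat_lit 2) (nat_lit 7) (nat_lit 9) (C.cons (nat_lit 646) (C.miq (nat_lit 1678903929)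 (nat_lit 26607233483823330443528065)) (C.cons (nat_lit 644) (C.node (nat_lit 1) (nat_lit 2) (nat_lit 9) (C.cons (nat_lit 774) (C.miq (nat_lit 1629792640) (nat_lit 26617342430459886617036673)) C.nil)) C.nil))) C.nil)) C.nil)) C.nil)) (C.cons (nat_lit 52) (C.node (nat_lit 2) (nat_lit 4) (nat_lit 7) (C.cons (nat_lit 660) (C.node (nat_lit 4) (nat_lit 5) (nat_lit 7) (C.cons (nat_lit 432)
  (C.miq (nat_lit 609458048) (nat_lit 67710711216453988783818625)) (C.cons (nat_lit 176) (C.node (nat_lit 1) (nat_lit 3) (nat_lit 7) (C.cons (nat_lit 682) (C.miq (nat_lit 2238972818) (nat_lit 212776054083884149588099661)) (C.cons (nat_lit 650) (C.node (nat_lit 3) (nat_lit 5) (nat_lit 7) (C.cons (nat_lit 168) (C.node (nat_lit 5) (nat_lit 7) (nat_lit 9) C.nil) C.nil)) (C.cons (nat_lit 170) (C.miq (nat_lit 2440249450) (nat_lit 205546166404705996832769137)) (C.cons (nat_lit 138) (C.miq (nat_lit 2440249450) (nat_lit 166860540177037863242171505)) C.nil)))))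 C.nil))) (C.cons (nat_lit 148) (C.node (nat_lit 2) (nat_lit 4) (nat_lit 9) (C.cons (nat_lit 532) (C.node (nat_lit 2) (nat_lit 7) (nat_lit 9) (C.cons (nat_lit 646) (C.miq (nat_lit 1678903929) (nat_lit 26607233483823330443528065)) (C.cons (nat_lit 644) (C.node (nat_lit 4) (nat_lit 6) (nat_lit 7) (C.cons (nat_lit 464) (C.node (nat_lit 1) (nat_lit 4) (nat_lit 6) C.nil) C.nil)) C.nil))) C.nil)) C.nil))) C.nil))) C.nil))) C.nil))) C.nil))) C.nil))))) C.nil))) C.nil))))) C.nil))) C.nil)))) C.nil))) C.nil)) C.nil))) C.nil)) (C.cons (nat_lit 1052) (C.miq (nat_lit 1665598113) (nat_lit 184969247681925916757459975)) (C.cons (nat_lit 1048) (C.miq (nat_lit 2486833270) (nat_lit 1266983810789601327637332163)) C.nil)))) C.nil))) C.nil)) (C.cons (nat_lit 1168) (C.miq (nat_lit 443848240) (nat_lit 1412035152981918185569190477)) C.nil))) C.nil))) C.nil))) C.nil)) (C.cons (nat_lit 1216) (C.node (nat_lit 3) (nat_lit 6) (nat_lit 10) (C.cons (nat_lit 1352)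 (C.node (nat_lit 3) (nat_lit 4) (nat_lit 6) (C.cons (nat_lit 90) (C.miq (nat_lit 2053310740) (nat_lit 1634470531011542232568824339)) (C.cons (nat_lit 88) (C.node (nat_lit 1) (nat_lit 3) (nat_lit 6) (C.cons (nat_lit 106) (C.miq (nat_lit 1351694502) (nat_lit 641941565653846223801681224)) (C.cons (nat_lit 74) (C.node (nat_lit 4) (nat_lit 8) (nat_lit 10) (C.cons (nat_lit 1298) (C.miq (nat_lit 338077705) (nat_lit 101579320896990642891982721)) (C.cons (nat_lit 1296) (C.node (nat_lit 1) (nat_lit 8) (nat_lit 10) (C.cons (nat_lit 1314) (C.miq (nat_lit 1398898842) (nat_lit 89484749756796011202873217)) (C.cons (nat_lit 1282) (C.ref (nat_lit 105) (nat_lit 11649936536080)) C.nil))) C.nil))) C.nil))) C.nil))) (C.cons (nat_lit 1096) (C.node (nat_lit 6) (nat_lit 8) (nat_lit 10) (C.cons (nat_lit 1344) (C.node (nat_lit 3) (nat_lit 9) (nat_lit 10) (C.cons (nat_lit 1576) (C.node (nat_lit 2) (nat_lit 9) (nat_lit 10) (C.cons (nat_lit 1556) (C.miq (nat_lit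 2207384996) (nat_lit 712062417584729838501233777)) (C.cons (nat_lit 1540) (C.node (nat_lit 4) (nat_lit 9) (nat_lit 10) (C.cons (nat_lit 1552) (C.node (nat_lit 3) (nat_lit 7) (nat_lit 9) (C.cons (nat_lit 650) (C.miq (nat_lit 967078240) (nat_lit 1876255694576713372179431619)) (C.cons (nat_lit 648) (C.node (nat_lit 1) (nat_lit 3) (nat_lit 9) (C.cons (nat_lit 778) (C.miq (nat_lit 369662547) (nat_lit 388079540114113107199591976)) (C.cons (nat_lit 522) (C.node (nat_lit 5) (nat_lit 7) (nat_lit 10) (C.cons (nat_lit 1186) (C.miq (nat_lit 1519546720) (nat_lit 1861748806253137294078574787)) (C.cons (nat_lit 1184) (C.node (nat_lit 1) (nat_lit 5) (nat_lit 10) (C.cons (nat_lit 1314) (C.miq (nat_lit 2207338602) (nat_lit 631083516944149881471239281)) (C.cons (nat_lit 1058) (C.node (nat_lit 2) (nat_lit 5) (nat_lit 10) (C.cons (nat_lit 1316) (C.node (nat_lit 2) (nat_lit 5) (nat_lit 6) (C.cons (nat_lit 102) (C.miq (nat_lit 2048199010) (nat_lit 1279046561405770139720614477))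 (C.cons (nat_lit 100) (C.node (nat_lit 2) (nat_lit 8) (nat_lit 9) (C.cons (nat_lit 774) (C.miq (nat_lit 306616330) (nat_lit 101579320749497755131512705)) (C.cons (nat_lit 772) (C.node (nat_lit 4) (nat_lit 7) (nat_lit 10) (C.cons (nat_lit 1172) (C.miq (nat_lit 900139044) (nat_lit 1431370992859167940750344469)) (C.cons (nat_lit 1170) (C.miq (nat_lit 1938899050) (nat_lit 631080860572470870649472113)) (C.cons (nat_lit 1168) (C.node (nat_lit 2) (nat_lit 7) (nat_lit 8) (C.cons (nat_lit 398) (C.miq (nat_lit 374501544) (nat_lit 120899923820496757794801537))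
  (C.cons (nat_lit 396) (C.miq (nat_lit 659194629) (nat_lit 1412049633336552625808671017)) (C.cons (nat_lit 390) (C.miq (nat_lit 374501544) (nat_lit 120899776246544168118388609)) (C.cons (nat_lit 388) (C.node (nat_lit 4) (nat_lit 8) (nat_lit 10) (C.cons (nat_lit 1306) (C.miq (nat_lit 338077705) (nat_lit 101579320899242442705667969)) (C.cons (nat_lit 1304) (C.miq (nat_lit 925384794) (nat_lit 469087272607814617233884273)) (C.cons (nat_lit 1298) (C.miq (nat_lit 338077705) (nat_lit 101579320896990642891982721)) (C.cons (nat_lit 1296) (C.node (nat_lit 1) (nat_lit 2) (nat_lit 6) (C.cons (nat_lit 326) (C.node (nat_lit 2) (nat_lit 3) (nat_lit 8) (C.cons (nat_lit 268) (C.node (nat_lit 1) (nat_lit 4) (nat_lit 6) (C.cons (nat_lit 90) (C.miq (nat_lit 2031290980) (nat_lit 631062100731400017562698865)) (C.cons (nat_lit 82) (C.node (nat_lit 1) (nat_lit 3) (nat_lit 6) (C.cons (nat_lit 106) (C.miq (nat_lit 2299726437) (nat_lit 631064757062546631739180145))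 (C.cons (nat_lit 74) (C.node (nat_lit 1) (nat_lit 5) (nat_lit 6) (C.cons (nat_lit 98) (C.node (nat_lit 1) (nat_lit 4) (nat_lit 10) (C.cons (nat_lit 1050) (C.node (nat_lit 1) (nat_lit 7) (nat_lit 10) (C.cons (nat_lit 1154) (C.node (nat_lit 1) (nat_lit 8) (nat_lit 10) C.nil) C.nil)) (C.cons (nat_lit 1042) (C.node (nat_lit 2) (nat_lit 4) (nat_lit 10) (C.cons (nat_lit 1052) (C.node (nat_lit 2) (nat_lit 7) (nat_lit 10) C.nil) C.nil)) C.nil))) C.nil)) C.nil))) C.nil))) C.nil)) (C.cons (nat_lit 70) (C.node (nat_lit 2) (nat_lit 6) (nat_lit 8) (C.cons (nat_lit 324) (C.node (nat_lit 1) (nat_lit 2) (nat_lit 8) (C.cons (nat_lit 270) (C.node (nat_lit 1) (nat_lit 8) (nat_lit 10) (C.cons (nat_lit 1282) (C.node (nat_lit 3) (nat_lit 8) (nat_lit 10) (C.cons (nat_lit 1288) (C.node (nat_lit 1) (nat_lit 8) (nat_lit 9) C.nil) C.nil)) C.nil)) (C.cons (nat_lit 262) (C.node (nat_lit 2) (nat_lit 3) (nat_lit 8) (C.cons (nat_lit 268) (C.node (nat_lit 1) (nat_lit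 4) (nat_lit 10) (C.cons (nat_lit 1050) (C.node (nat_lit 1) (nat_lit 7) (nat_lit 10) (C.cons (nat_lit 1154) (C.node (nat_lit 1) (nat_lit 8) (nat_lit 10) C.nil) C.nil)) (C.cons (nat_lit 1042) (C.node (nat_lit 2) (nat_lit 4) (nat_lit 10) (C.cons (nat_lit 1052) (C.node (nat_lit 2) (nat_lit 7) (nat_lit 10) C.nil) C.nil)) C.nil))) C.nil)) C.nil))) C.nil)) C.nil))) C.nil))))) C.nil))))) C.nil)))) C.nil))) C.nil))) (C.cons (nat_lit 1060) (C.node (nat_lit 5) (nat_lit 8) (nat_lit 10) (C.cons (nat_lit 1312) (C.node (nat_lit 2) (nat_lit 8) (nat_lit 10) (C.cons (nat_lit 1292) (C.node (nat_lit 1) (nat_lit 8) (nat_lit 10) (C.cons (nat_lit 1298) (C.miq (nat_lit 338077705) (nat_lit 101579320896990642891982721)) (C.cons (nat_lit 1282) (C.node (nat_lit 4) (nat_lit 8) (nat_lit 10) (C.cons (nat_lit 1296) (C.node (nat_lit 3) (nat_lit 4) (nat_lit 9) (C.cons (nat_lit 792) (C.miq (nat_lit 1218548512) (nat_lit 1549852696189991472465379917)) (C.cons (nat_lit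 536) (C.node (nat_lit 3) (nat_lit 8) (nat_lit 9) (C.cons (nat_lit 776) (C.node (nat_lit 2) (nat_lit 3) (nat_lit 4) (C.cons (nat_lit 62) (C.miq (nat_lit 2468914496) (nat_lit 1561967595581071319371154545)) (C.cons (nat_lit 60) (C.miq (nat_lit 2468914496) (nat_lit 1561967595581071310781219953)) (C.cons (nat_lit 30) (C.miq (nat_lit 2202640912) (nat_lit 648019675872472632485151751)) (C.cons (nat_lit 28) (C.node (nat_lit 2) (nat_lit 3) (nat_lit 5) (C.cons (nat_lit 46) (C.node (nat_lit 2) (nat_lit 3) (nat_lit 7) (C.cons (nat_lit 140) (C.node (nat_lit 3) (nat_lit 4) (nat_lit 5) (C.cons (nat_lit 56) (C.node (nat_lit 2) (nat_lit 4) (nat_lit 10) (C.cons (nat_lit 1044) (C.node (nat_lit 2) (nat_lit 7) (nat_lit 10) C.nil) C.nil)) C.nil)) C.nil)) (C.cons (nat_lit 44) (C.node (nat_lit 1) (nat_lit 2) (nat_lit 3) (C.cons (nat_lit 142) (C.node (nat_lit 2) (nat_lit 7) (nat_lit 8) (C.cons (nat_lit 388) (C.node (nat_lit 3) (nat_lit 7) (nat_lit 10) (C.cons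 (nat_lit 1160) (C.node (nat_lit 2) (nat_lit 4) (nat_lit 10) C.nil) C.nil)) C.nil)) (C.cons (nat_lit 14) (C.node (nat_lit 2) (nat_lit 3) (nat_lit 7) (C.cons (nat_lit 140)
  (C.node (nat_lit 2) (nat_lit 4) (nat_lit 10) C.nil) C.nil)) C.nil))) C.nil))) C.nil))))) C.nil)) C.nil))) C.nil)) C.nil))) (C.cons (nat_lit 1284) (C.node (nat_lit 3) (nat_lit 4) (nat_lit 9) (C.cons (nat_lit 792) (C.node (nat_lit 3) (nat_lit 4) (nat_lit 6) (C.cons (nat_lit 90) (C.miq (nat_lit 2031290980) (nat_lit 631062100731400017562698865)) (C.cons (nat_lit 88) (C.node (nat_lit 4) (nat_lit 8) (nat_lit 10) (C.cons (nat_lit 1298) (C.miq (nat_lit 338077705) (nat_lit 101579320896990642891982721)) (C.cons (nat_lit 1296) (C.node (nat_lit 2) (nat_lit 7) (nat_lit 9) (C.cons (nat_lit 660) (C.miq (nat_lit 1402406978) (nat_lit 783386974906653337026035989)) (C.cons (nat_lit 646) (C.miq (nat_lit 1973493865) (nat_lit 1279055433795397537849541197)) (C.cons (nat_lit 644) (C.node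 (nat_lit 2) (nat_lit 8) (nat_lit 9) (C.cons (nat_lit 806) (C.miq (nat_lit 306616330) (nat_lit 101579320758504954386253697)) (C.cons (nat_lit 804) (C.miq (nat_lit 1939145858) (nat_lit 1905270135468496814516470037)) (C.cons (nat_lit 774) (C.miq (nat_lit 306616330) (nat_lit 101579320749497755131512705)) (C.cons (nat_lit 772) (C.node (nat_lit 1) (nat_lit 2) (nat_lit 9) (C.cons (nat_lit 550) (C.node (nat_lit 1) (nat_lit 7) (nat_lit 9) (C.cons (nat_lit 642) (C.node (nat_lit 1) (nat_lit 8) (nat_lit 9) (C.cons (nat_lit 770) (C.node (nat_lit 2) (nat_lit 4) (nat_lit 9) (C.cons (nat_lit 532) (C.node (nat_lit 1) (nat_lit 8) (nat_lit 10) (C.cons (nat_lit 1282) (C.node (nat_lit 3) (nat_lit 8) (nat_lit 10) C.nil) C.nil)) C.nil)) C.nil)) C.nil)) (C.cons (nat_lit 518) (C.node (nat_lit 1) (nat_lit 4) (nat_lit 6) (C.cons (nat_lit 338) (C.node (nat_lit 1) (nat_lit 2) (nat_lit 6) (C.cons (nat_lit 102) (C.miq (nat_lit 2031225445) (nat_lit 626226618813870385379279985))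 (C.cons (nat_lit 70) (C.node (nat_lit 1) (nat_lit 3) (nat_lit 6) (C.cons (nat_lit 106) (C.miq (nat_lit 2299726437) (nat_lit 631064757062546631739180145)) (C.cons (nat_lit 74) (C.node (nat_lit 1) (nat_lit 5) (nat_lit 6) (C.cons (nat_lit 98) (C.node (nat_lit 1) (nat_lit 8) (nat_lit 10) (C.cons (nat_lit 1282) (C.node (nat_lit 1) (nat_lit 3) (nat_lit 10) C.nil) C.nil)) C.nil)) C.nil))) C.nil))) (C.cons (nat_lit 82) (C.node (nat_lit 1) (nat_lit 7) (nat_lit 9) (C.cons (nat_lit 674) (C.node (nat_lit 1) (nat_lit 8) (nat_lit 9) (C.cons (nat_lit 770) (C.node (nat_lit 4) (nat_lit 5) (nat_lit 7) (C.cons (nat_lit 432) (C.miq (nat_lit 1485993008) (nat_lit 933293776576866476540887193)) (C.cons (nat_lit 176) (C.node (nat_lit 1) (nat_lit 8) (nat_lit 10) (C.cons (nat_lit 1290) (C.node (nat_lit 1) (nat_lit 3) (nat_lit 6) (C.cons (nat_lit 106) (C.miq (nat_lit 2436408912) (nat_lit 1559549743949160599396090993)) C.nil)) (C.cons (nat_lit 1282) (C.node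 (nat_lit 3) (nat_lit 8) (nat_lit 10) (C.cons (nat_lit 1288) (C.node (nat_lit 4) (nat_lit 5) (nat_lit 8) C.nil) C.nil)) C.nil))) C.nil))) C.nil)) (C.cons (nat_lit 642) (C.node (nat_lit 1) (nat_lit 5) (nat_lit 9) (C.cons (nat_lit 802) (C.node (nat_lit 6) (nat_lit 8) (nat_lit 9) (C.cons (nat_lit 832) (C.node (nat_lit 1) (nat_lit 8) (nat_lit 10) (C.cons (nat_lit 1282) (C.node (nat_lit 3) (nat_lit 8) (nat_lit 10) C.nil) C.nil)) C.nil)) (C.cons (nat_lit 546) (C.node (nat_lit 1) (nat_lit 8) (nat_lit 9) (C.cons (nat_lit 770) (C.node (nat_lit 1) (nat_lit 8) (nat_lit 10) (C.cons (nat_lit 1290) (C.node (nat_lit 1) (nat_lit 3) (nat_lit 6) C.nil) (C.cons (nat_lit 1282) (C.node (nat_lit 3) (nat_lit 8) (nat_lit 10) C.nil) C.nil))) C.nil)) C.nil))) C.nil))) C.nil))) C.nil))) C.nil))))) C.nil)))) C.nil))) C.nil))) (C.cons (nat_lit 536) (C.node (nat_lit 3) (nat_lit 8) (nat_lit 9) (C.cons (nat_lit 776) (C.node (nat_lit 1) (nat_lit 7) (nat_lit 9) (C.cons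 (nat_lit 674) (C.node (nat_lit 1) (nat_lit 2) (nat_lit 9) (C.cons (nat_lit 774) (C.miq (nat_lit 306616330) (nat_lit 101579320749497755131512705)) (C.cons (nat_lit 518) (C.node (nat_lit 1) (nat_lit 8) (nat_lit 9) (C.cons (nat_lit 770) (C.node (nat_lit 2) (nat_lit 7) (nat_lit 9) (C.cons (nat_lit 660) (C.node (nat_lit 6) (nat_lit 7) (nat_lit 9) (C.cons (nat_lit 704)
  (C.node (nat_lit 2) (nat_lit 5) (nat_lit 9) (C.cons (nat_lit 804) (C.miq (nat_lit 1500742208) (nat_lit 783389410019578312910242069)) (C.cons (nat_lit 548) (C.node (nat_lit 2) (nat_lit 8) (nat_lit 9) (C.cons (nat_lit 772) (C.node (nat_lit 4) (nat_lit 6) (nat_lit 9) (C.cons (nat_lit 848) (C.miq (nat_lit 373467520) (nat_lit 101568787891695400063928193)) C.nil)) C.nil)) C.nil))) C.nil)) (C.cons (nat_lit 644) (C.node (nat_lit 2) (nat_lit 4) (nat_lit 9) (C.cons (nat_lit 564) (C.node (nat_lit 2) (nat_lit 8) (nat_lit 9) (C.cons (nat_lit 772) (C.node (nat_lit 4) (nat_lit 8) (nat_lit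 9) (C.cons (nat_lit 848) (C.miq (nat_lit 373467520) (nat_lit 101568787891695400063928193)) (C.cons (nat_lit 784) (C.node (nat_lit 4) (nat_lit 6) (nat_lit 9) (C.cons (nat_lit 720) (C.node (nat_lit 5) (nat_lit 6) (nat_lit 9) (C.cons (nat_lit 864) (C.miq (nat_lit 895748247) (nat_lit 1374551479337278428184315777)) C.nil)) C.nil)) C.nil))) C.nil)) (C.cons (nat_lit 532) (C.node (nat_lit 2) (nat_lit 4) (nat_lit 5) (C.cons (nat_lit 62) (C.miq (nat_lit 2301758036) (nat_lit 712062418041845200581428337)) (C.cons (nat_lit 60) (C.miq (nat_lit 2301758036) (nat_lit 712062418041845200581297265)) (C.cons (nat_lit 54) (C.miq (nat_lit 2270300436) (nat_lit 199477870525238556444983827)) (C.cons (nat_lit 52) (C.node (nat_lit 2) (nat_lit 3) (nat_lit 5) (C.cons (nat_lit 46) (C.node (nat_lit 3) (nat_lit 4) (nat_lit 5) (C.cons (nat_lit 56) (C.node (nat_lit 1) (nat_lit 8) (nat_lit 10) (C.cons (nat_lit 1306) (C.miq (nat_lit 338077705) (nat_lit 101579320899242442705667969))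 (C.cons (nat_lit 1298) (C.miq (nat_lit 338077705) (nat_lit 101579320896990642891982721)) (C.cons (nat_lit 1290) (C.miq (nat_lit 2016741906) (nat_lit 359054012679035997735748615)) (C.cons (nat_lit 1282) (C.node (nat_lit 1) (nat_lit 4) (nat_lit 5) (C.cons (nat_lit 306) (C.node (nat_lit 1) (nat_lit 5) (nat_lit 6) C.nil) C.nil)) C.nil))))) C.nil)) (C.cons (nat_lit 44) (C.node (nat_lit 2) (nat_lit 5) (nat_lit 9) (C.cons (nat_lit 804) (C.node (nat_lit 1) (nat_lit 2) (nat_lit 5) (C.cons (nat_lit 102) (C.miq (nat_lit 2031225445) (nat_lit 626226618813870385379279985)) C.nil)) (C.cons (nat_lit 548) (C.node (nat_lit 2) (nat_lit 8) (nat_lit 9) C.nil) C.nil))) C.nil))) C.nil))))) C.nil))) C.nil))) C.nil)) C.nil))) (C.cons (nat_lit 646) (C.miq (nat_lit 1973493865) (nat_lit 1279055433795397537849541197)) (C.cons (nat_lit 642) (C.node (nat_lit 2) (nat_lit 7) (nat_lit 9) (C.cons (nat_lit 660) (C.node (nat_lit 4) (nat_lit 6) (nat_lit 9) (C.cons (nat_lit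 848) (C.miq (nat_lit 373467520) (nat_lit 101568787891695400063928193)) (C.cons (nat_lit 592) (C.node (nat_lit 4) (nat_lit 7) (nat_lit 10) (C.cons (nat_lit 1170) (C.miq (nat_lit 957810340) (nat_lit 776133198710230849619625073)) (C.cons (nat_lit 1168) (C.node (nat_lit 5) (nat_lit 7) (nat_lit 9) (C.cons (nat_lit 736) (C.miq (nat_lit 426944080) (nat_lit 797910059989721323651007601)) (C.cons (nat_lit 672) (C.node (nat_lit 6) (nat_lit 7) (nat_lit 9) (C.cons (nat_lit 704) (C.node (nat_lit 2) (nat_lit 8) (nat_lit 9) (C.cons (nat_lit 806) (C.miq (nat_lit 306616330) (nat_lit 101579320758504954386253697)) (C.cons (nat_lit 804) (C.miq (nat_lit 1500742208) (nat_lit 783389410019578312910242069)) (C.cons (nat_lit 774) (C.miq (nat_lit 306616330) (nat_lit 101579320749497755131512705)) (C.cons (nat_lit 772) (C.node (nat_lit 1) (nat_lit 2) (nat_lit 9) (C.cons (nat_lit 550) (C.node (nat_lit 1) (nat_lit 8) (nat_lit 9) C.nil) C.nil)) C.nil))))) C.nil))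 C.nil))) C.nil))) C.nil))) (C.cons (nat_lit 644) (C.node (nat_lit 2) (nat_lit 4) (nat_lit 9) (C.cons (nat_lit 564) (C.node (nat_lit 1) (nat_lit 2) (nat_lit 9) (C.cons (nat_lit 774) (C.miq (nat_lit 306616330) (nat_lit 101579320749497755131512705)) (C.cons (nat_lit 518) (C.node (nat_lit 2) (nat_lit 8) (nat_lit 9) (C.cons (nat_lit 772) (C.node (nat_lit 4) (nat_lit 8) (nat_lit 9) (C.cons (nat_lit 848) (C.miq (nat_lit 373467520) (nat_lit 101568787891695400063928193)) (C.cons (nat_lit 784) (C.node (nat_lit 5) (nat_lit 7) (nat_lit 9) (C.cons (nat_lit 736)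
  (C.miq (nat_lit 426944080) (nat_lit 778567246875887256855708785)) (C.cons (nat_lit 672) (C.node (nat_lit 2) (nat_lit 3) (nat_lit 5) C.nil) C.nil))) C.nil))) C.nil)) C.nil))) (C.cons (nat_lit 532) (C.node (nat_lit 1) (nat_lit 7) (nat_lit 10) (C.cons (nat_lit 1170) (C.miq (nat_lit 957810340) (nat_lit 776133198710230849619625073)) (C.cons (nat_lit 1162) (C.node (nat_lit 1) (nat_lit 4) (nat_lit 10) (C.cons (nat_lit 1298) (C.miq (nat_lit 338077705) (nat_lit 101579320896990642891982721)) (C.cons (nat_lit 1042) (C.node (nat_lit 1) (nat_lit 8) (nat_lit 10) (C.cons (nat_lit 1282) (C.node (nat_lit 2) (nat_lit 3) (nat_lit 10) (C.cons (nat_lit 1036) (C.node (nat_lit 2) (nat_lit 4) (nat_lit 10) C.nil) C.nil)) C.nil)) C.nil))) (C.cons (nat_lit 1154) (C.node (nat_lit 3) (nat_lit 7) (nat_lit 10) (C.cons (nat_lit 1164) (C.node (nat_lit 2) (nat_lit 4) (nat_lit 10) (C.cons (nat_lit 1044) (C.node (nat_lit 2) (nat_lit 3) (nat_lit 8) C.nil) C.nil))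 (C.cons (nat_lit 1160) (C.node (nat_lit 2) (nat_lit 3) (nat_lit 10) (C.cons (nat_lit 1052) (C.node (nat_lit 2) (nat_lit 7) (nat_lit 10) (C.cons (nat_lit 1156) (C.node (nat_lit 4) (nat_lit 7) (nat_lit 10) C.nil) C.nil)) (C.cons (nat_lit 1036) (C.node (nat_lit 2) (nat_lit 4) (nat_lit 10) (C.cons (nat_lit 1172) (C.node (nat_lit 1) (nat_lit 2) (nat_lit 4) (C.cons (nat_lit 62) (C.miq (nat_lit 2301758036) (nat_lit 712062418041845200581428337)) C.nil)) C.nil)) C.nil))) C.nil))) C.nil)))) C.nil))) C.nil))) C.nil)))) C.nil)) C.nil))) C.nil))) C.nil)) C.nil))) C.nil))) C.nil))) C.nil))) C.nil))) C.nil)) C.nil))) (C.cons (nat_lit 1560) (C.miq (nat_lit 979847440) (nat_lit 1470056619442340198223118867)) (C.cons (nat_lit 1544) (C.ref (nat_lit 106) (nat_lit 11649936536080)) C.nil)))) C.nil)) C.nil))) C.nil))) C.nil))) List.nil)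

theorem ok11_107 : okL par11 (nat_lit 108) c11_107 (nat_lit 107) = true := by decide +kernel

noncomputable def c11_108 : List C :=
  (List.cons (C.node (nat_lit 2) (nat_lit 4) (nat_lit 6) (C.cons (nat_lit 212) (C.node (nat_lit 2) (nat_lit 6) (nat_lit 10) (C.cons (nat_lit 1348) (C.miq (nat_lit 371497600) (nat_lit 256302069430333227134158721)) (C.cons (nat_lit 1092) (C.node (nat_lit 4) (nat_lit 6) (nat_lit 9) (C.cons (nat_lit 848) (C.miq (nat_lit 373467520) (nat_lit 256311292802367934426318721)) (C.cons (nat_lit 592) (C.node (nat_lit 2) (nat_lit 7) (nat_lit 9) (C.cons (nat_lit 646) (C.node (nat_lit 2) (nat_lit 8) (nat_lit 9) (C.cons (nat_lit 804) (C.miq (nat_lit 2770952305) (nat_lit 972005910974205696397410499)) (C.cons (nat_lit 772) (C.node (nat_lit 3) (nat_lit 7) (nat_lit 9) (C.cons (nat_lit 680) (C.miq (nat_lit 1769316640) (nat_lit 822090531736885333810545671)) (C.cons (nat_lit 648) (C.node (nat_lit 4) (nat_lit 7) (nat_lit 9)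 (C.cons (nat_lit 688) (C.miq (nat_lit 1769316640) (nat_lit 831761938293802367208195079)) (C.cons (nat_lit 656) (C.node (nat_lit 4) (nat_lit 7) (nat_lit 10) (C.cons (nat_lit 1170) (C.miq (nat_lit 308574474) (nat_lit 256313856630702989978437505)) (C.cons (nat_lit 1168) (C.node (nat_lit 5) (nat_lit 7) (nat_lit 9) (C.cons (nat_lit 736) (C.node (nat_lit 6) (nat_lit 8) (nat_lit 9) (C.cons (nat_lit 832) (C.node (nat_lit 2) (nat_lit 7) (nat_lit 8) (C.cons (nat_lit 396) (C.miq (nat_lit 929399360) (nat_lit 889774882030821965705576725)) (C.cons (nat_lit 388) (C.node (nat_lit 3) (nat_lit 5) (nat_lit 6) (C.cons (nat_lit 106) (C.miq (nat_lit 560269975) (nat_lit 128149180882130436169402241)) (C.cons (nat_lit 104) (C.node (nat_lit 6) (nat_lit 7) (nat_lit 10) (C.cons (nat_lit 1224) (C.miq (nat_lit 443848240) (nat_lit 1412035152981918185569190477)) (C.cons (nat_lit 1216) (C.node (nat_lit 2) (nat_lit 5) (nat_lit 9) (C.cons (nat_lit 1572) (C.node (nat_lit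 2) (nat_lit 4) (nat_lit 9) (C.cons (nat_lit 532) (C.node (nat_lit 3) (nat_lit 9) (nat_lit 10) (C.cons (nat_lit 1560) (C.miq (nat_lit 691493440) (nat_lit 783386975265537230833779825)) (C.cons (nat_lit 1544) (C.node (nat_lit 4) (nat_lit 9) (nat_lit 10) (C.cons (nat_lit 1552) (C.node (nat_lit 5) (nat_lit 8) (nat_lit 10) (C.cons (nat_lit 1314) (C.miq (nat_lit 355903497) (nat_lit 125757837293786911912822657)) (C.cons (nat_lit 1312) (C.node (nat_lit 1) (nat_lit 2) (nat_lit 6) (C.cons (nat_lit 358) (C.miq (nat_lit 942081380) (nat_lit 469066040445919003042645105)) (C.cons (nat_lit 326) (C.miq (nat_lit 1444058890) (nat_lit 394138815683219402814588801)) (C.cons (nat_lit 102) (C.node (nat_lit 2) (nat_lit 5) (nat_lit 8) (C.cons (nat_lit 292) (C.node (nat_lit 2) (nat_lit 6) (nat_lit 8) (C.cons (nat_lit 324) (C.node (nat_lit 5) (nat_lit 6) (nat_lit 8) (C.cons (nat_lit 352) (C.node (nat_lit 2) (nat_lit 3) (nat_lit 5) (C.cons (nat_lit 60) (C.miq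 (nat_lit 923943013) (nat_lit 780967186318761378395325553)) (C.cons (nat_lit 44) (C.node (nat_lit 2) (nat_lit 4) (nat_lit 5) (C.cons (nat_lit 52) (C.node (nat_lit 3) (nat_lit 4) (nat_lit 6) (C.cons (nat_lit 346) (C.miq (nat_lit 924926038) (nat_lit 780972462087566330478068849)) (C.cons (nat_lit 344) (C.miq (nat_lit 913671200) (nat_lit 889774882016185266852921621)) (C.cons (nat_lit 90) (C.miq (nat_lit 924926038) (nat_lit 780967739721083460832855153)) (C.cons (nat_lit 88) (C.node (nat_lit 4) (nat_lit 5) (nat_lit 7) (C.cons (nat_lit 434) (C.miq (nat_lit 1698862976) (nat_lit 62875007959387578903627649)) (C.cons (nat_lit 432) (C.miq (nat_lit 1698862976) (nat_lit 62875007959387570313693057)) (C.cons (nat_lit 178) (C.miq (nat_lit 840369748) (nat_lit 780968901988682923802494065)) (C.cons (nat_lit 176) (C.node (nat_lit 5) (nat_lit 7) (nat_lit 8) (C.cons (nat_lit 418) (C.miq (nat_lit 840239480) (nat_lit 123315912449473603415705473)) (C.cons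 (nat_lit 416) (C.node (nat_lit 1) (nat_lit 2) (nat_lit 4) (C.cons (nat_lit 30) (C.node (nat_lit 3) (nat_lit 8) (nat_lit 9) (C.cons (nat_lit 792) (C.miq (nat_lit 445849732) (nat_lit 1866582019177518608705650965)) (C.cons (nat_lit 778) (C.miq (nat_lit 824543600) (nat_lit 123315912502672373997438849)) C.nil))) (C.cons (nat_lit 22)
  (C.node (nat_lit 1) (nat_lit 2) (nat_lit 8) (C.cons (nat_lit 270) (C.node (nat_lit 2) (nat_lit 8) (nat_lit 10) C.nil) C.nil)) C.nil))) C.nil))) C.nil))))) C.nil))))) C.nil)) C.nil))) C.nil)) C.nil)) C.nil)) (C.cons (nat_lit 70) (C.miq (nat_lit 1444058890) (nat_lit 84653805861874334089807745)) C.nil))))) C.nil))) C.nil)) C.nil))) C.nil)) (C.cons (nat_lit 564) (C.miq (nat_lit 1383483664) (nat_lit 256313247865067854224359955)) (C.cons (nat_lit 548) (C.miq (nat_lit 2723745910) (nat_lit 662520901123024280147198147)) C.nil)))) C.nil))) C.nil))) C.nil))) C.nil)) (C.cons (nat_lit 672) (C.miq (nat_lit 1769316640)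 (nat_lit 812419125179968300412896263)) C.nil))) C.nil))) C.nil))) C.nil))) C.nil))) (C.cons (nat_lit 644) (C.node (nat_lit 6) (nat_lit 7) (nat_lit 9) (C.cons (nat_lit 736) (C.miq (nat_lit 426944080) (nat_lit 778567246875887256855708785)) (C.cons (nat_lit 704) (C.ref (nat_lit 101) (nat_lit 11649936536080)) C.nil))) C.nil))) C.nil))) C.nil))) (C.cons (nat_lit 86) (C.node (nat_lit 2) (nat_lit 5) (nat_lit 6) (C.cons (nat_lit 356) (C.miq (nat_lit 2787676480) (nat_lit 430413028429096864319865363)) (C.cons (nat_lit 100) (C.node (nat_lit 3) (nat_lit 4) (nat_lit 6) (C.cons (nat_lit 344) (C.miq (nat_lit 2521342240) (nat_lit 415905918593721314223391751)) (C.cons (nat_lit 88) (C.node (nat_lit 2) (nat_lit 6) (nat_lit 8) (C.cons (nat_lit 1348) (C.node (nat_lit 2) (nat_lit 6) (nat_lit 7) (C.cons (nat_lit 196) (C.node (nat_lit 3) (nat_lit 6) (nat_lit 10) (C.cons (nat_lit 1224) (C.miq (nat_lit 640977520) (nat_lit 106390582253629310575904641)) (C.cons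 (nat_lit 1096) (C.node (nat_lit 6) (nat_lit 7) (nat_lit 10) (C.cons (nat_lit 1216) (C.node (nat_lit 5) (nat_lit 8) (nat_lit 10) (C.cons (nat_lit 1314) (C.miq (nat_lit 1101531490) (nat_lit 1588533636871201246369022541)) (C.cons (nat_lit 1312) (C.node (nat_lit 4) (nat_lit 6) (nat_lit 8) (C.cons (nat_lit 848) (C.node (nat_lit 4) (nat_lit 6) (nat_lit 7) (C.cons (nat_lit 208) (C.node (nat_lit 3) (nat_lit 8) (nat_lit 9) (C.cons (nat_lit 778) (C.miq (nat_lit 680633920) (nat_lit 940563306632753403242153073)) (C.cons (nat_lit 776) (C.node (nat_lit 5) (nat_lit 6) (nat_lit 9) (C.cons (nat_lit 736) (C.miq (nat_lit 1179814256) (nat_lit 120897691948265276373796737)) (C.cons (nat_lit 608) (C.node (nat_lit 6) (nat_lit 7) (nat_lit 9) (C.cons (nat_lit 704) (C.node (nat_lit 2) (nat_lit 9) (nat_lit 10) (C.cons (nat_lit 1572) (C.miq (nat_lit 1499933200) (nat_lit 851086821163956645008704519)) (C.cons (nat_lit 1556) (C.miq (nat_lit 2489819664) (nat_lit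 251492007113183897529287687)) (C.cons (nat_lit 1540) (C.node (nat_lit 4) (nat_lit 9) (nat_lit 10) (C.cons (nat_lit 1560) (C.miq (nat_lit 979847440) (nat_lit 1470056619442340198223118867)) (C.cons (nat_lit 1552) (C.node (nat_lit 2) (nat_lit 3) (nat_lit 8) (C.cons (nat_lit 398) (C.miq (nat_lit 1176701575) (nat_lit 712060130424902699625351041)) (C.cons (nat_lit 396) (C.miq (nat_lit 1176701575) (nat_lit 712060130424902699625219969)) (C.cons (nat_lit 270) (C.miq (nat_lit 2435334310) (nat_lit 326425614284392023703422065)) (C.cons (nat_lit 268) (C.node (nat_lit 2) (nat_lit 7) (nat_lit 8) (C.cons (nat_lit 390) (C.miq (nat_lit 2435334310) (nat_lit 471496712638147524668163185)) (C.cons (nat_lit 388) (C.node (nat_lit 4) (nat_lit 5) (nat_lit 8) (C.cons (nat_lit 434) (C.miq (nat_lit 642058631) (nat_lit 1374551700780397937160226689)) (C.cons (nat_lit 432) (C.miq (nat_lit 642058631) (nat_lit 1374551700780397937160095617)) (C.cons (nat_lit 306)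 (C.miq (nat_lit 405947654) (nat_lit 323993706162843576360043633)) (C.cons (nat_lit 304) (C.node (nat_lit 4) (nat_lit 7) (nat_lit 8) (C.cons (nat_lit 402) (C.miq (nat_lit 2705858710) (nat_lit 486013045986295270379356749)) (C.cons (nat_lit 400) (C.node (nat_lit 2) (nat_lit 5) (nat_lit 10) (C.cons (nat_lit 1068) (C.node (nat_lit 2) (nat_lit 3) (nat_lit 4) (C.cons (nat_lit 28) (C.node (nat_lit 3) (nat_lit 9) (nat_lit 10) (C.cons (nat_lit 1544) (C.node (nat_lit 5) (nat_lit 9) (nat_lit 10) (C.cons (nat_lit 1568)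
  (C.node (nat_lit 1) (nat_lit 2) (nat_lit 3) (C.cons (nat_lit 142) (C.miq (nat_lit 329675344) (nat_lit 1324986295452701982633033893)) (C.cons (nat_lit 14) (C.node (nat_lit 2) (nat_lit 3) (nat_lit 7) (C.cons (nat_lit 140) (C.node (nat_lit 1) (nat_lit 2) (nat_lit 7) (C.cons (nat_lit 646) (C.miq (nat_lit 1444022935) (nat_lit 103970664519674200200710017)) (C.cons (nat_lit 134) (C.node (nat_lit 1) (nat_lit 5) (nat_lit 10) (C.cons (nat_lit 1186) (C.miq (nat_lit 1382117530) (nat_lit 103989498371775429550933889)) (C.cons (nat_lit 1058) (C.node (nat_lit 5) (nat_lit 7) (nat_lit 10) (C.cons (nat_lit 1184) (C.node (nat_lit 3) (nat_lit 4) (nat_lit 9) (C.cons (nat_lit 568) (C.miq (nat_lit 305728084) (nat_lit 712067103264325011724829809)) (C.cons (nat_lit 536) (C.node (nat_lit 3) (nat_lit 5) (nat_lit 6) (C.cons (nat_lit 232) (C.miq (nat_lit 305597014) (nat_lit 169253212151347745850393713)) (C.cons (nat_lit 106) (C.miq (nat_lit 2198996324) (nat_lit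 16930071306311749346919537)) (C.cons (nat_lit 104) (C.node (nat_lit 1) (nat_lit 3) (nat_lit 6) C.nil) C.nil)))) C.nil))) C.nil)) C.nil))) C.nil))) C.nil)) C.nil))) C.nil)) C.nil)) C.nil)) (C.cons (nat_lit 1060) (C.node (nat_lit 3) (nat_lit 4) (nat_lit 9) (C.cons (nat_lit 568) (C.node (nat_lit 2) (nat_lit 4) (nat_lit 5) (C.cons (nat_lit 52) (C.node (nat_lit 3) (nat_lit 9) (nat_lit 10) (C.cons (nat_lit 1544) (C.node (nat_lit 5) (nat_lit 9) (nat_lit 10) (C.cons (nat_lit 1568) (C.node (nat_lit 1) (nat_lit 3) (nat_lit 9) (C.cons (nat_lit 650) (C.miq (nat_lit 878801065) (nat_lit 103979610913576575152818049)) (C.cons (nat_lit 522) (C.node (nat_lit 3) (nat_lit 7) (nat_lit 9) (C.cons (nat_lit 648) (C.node (nat_lit 1) (nat_lit 4) (nat_lit 5) (C.cons (nat_lit 178) (C.miq (nat_lit 362181680) (nat_lit 735030495490893897018441881)) (C.cons (nat_lit 50) (C.node (nat_lit 4) (nat_lit 5) (nat_lit 7) (C.cons (nat_lit 176) (C.node (nat_lit 1) (nat_lit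 4) (nat_lit 7) (C.cons (nat_lit 1170) (C.miq (nat_lit 907282855) (nat_lit 103970443004497028482992001)) (C.cons (nat_lit 146) (C.node (nat_lit 5) (nat_lit 3) (nat_lit 6) (C.cons (nat_lit 232) (C.miq (nat_lit 341248310) (nat_lit 212774541516734760300839501)) (C.cons (nat_lit 106) (C.miq (nat_lit 2232681314) (nat_lit 60451400812438399636341325)) (C.cons (nat_lit 104) (C.node (nat_lit 1) (nat_lit 5) (nat_lit 6) C.nil) C.nil)))) C.nil))) C.nil)) C.nil))) C.nil)) C.nil))) C.nil)) C.nil)) C.nil)) (C.cons (nat_lit 536) (C.node (nat_lit 3) (nat_lit 9) (nat_lit 10) (C.cons (nat_lit 1576) (C.node (nat_lit 1) (nat_lit 3) (nat_lit 9) (C.cons (nat_lit 650) (C.miq (nat_lit 878801065) (nat_lit 103979610913576575152818049)) (C.cons (nat_lit 522) (C.node (nat_lit 3) (nat_lit 7) (nat_lit 9) (C.cons (nat_lit 648) (C.node (nat_lit 1) (nat_lit 5) (nat_lit 10) (C.cons (nat_lit 1186) (C.miq (nat_lit 1382117530) (nat_lit 103989498371775429550933889)) (C.cons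 (nat_lit 1058) (C.node (nat_lit 5) (nat_lit 7) (nat_lit 10) (C.cons (nat_lit 1184) (C.node (nat_lit 1) (nat_lit 2) (nat_lit 7) (C.cons (nat_lit 646) (C.miq (nat_lit 1444022935) (nat_lit 103970664519674200200710017)) (C.cons (nat_lit 142) (C.node (nat_lit 3) (nat_lit 7) (nat_lit 10) (C.cons (nat_lit 1160) (C.node (nat_lit 1) (nat_lit 7) (nat_lit 10) (C.cons (nat_lit 1170) (C.miq (nat_lit 907282855) (nat_lit 103970443004497028482992001)) (C.cons (nat_lit 1154) (C.node (nat_lit 1) (nat_lit 4) (nat_lit 7) (C.cons (nat_lit 178) (C.miq (nat_lit 910237783) (nat_lit 103970240090310220453118117)) (C.cons (nat_lit 146) (C.node (nat_lit 1) (nat_lit 7) (nat_lit 9) (C.cons (nat_lit 674) (C.node (nat_lit 1) (nat_lit 7) (nat_lit 8) C.nil) C.nil)) C.nil))) C.nil))) C.nil)) (C.cons (nat_lit 134) (C.node (nat_lit 1) (nat_lit 2) (nat_lit 3) (C.cons (nat_lit 46) (C.node (nat_lit 3) (nat_lit 4) (nat_lit 5) (C.cons (nat_lit 56) (C.node (nat_lit 1) (nat_lit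 2) (nat_lit 8) (C.cons (nat_lit 774) (C.node (nat_lit 5) (nat_lit 8) (nat_lit 9) C.nil) (C.cons (nat_lit 262) (C.miq (nat_lit 2435334310) (nat_lit 316754207727474990305772657)) C.nil))) C.nil))
  (C.cons (nat_lit 14) (C.node (nat_lit 2) (nat_lit 3) (nat_lit 5) (C.cons (nat_lit 60) (C.miq (nat_lit 2468914496) (nat_lit 324027556295691035882095729)) (C.cons (nat_lit 44) (C.node (nat_lit 1) (nat_lit 7) (nat_lit 9) (C.cons (nat_lit 674) (C.node (nat_lit 4) (nat_lit 5) (nat_lit 7) C.nil) (C.cons (nat_lit 642) (C.node (nat_lit 5) (nat_lit 7) (nat_lit 9) C.nil) C.nil))) C.nil))) C.nil))) C.nil)))) C.nil)) C.nil))) C.nil)) C.nil))) (C.cons (nat_lit 1544) (C.node (nat_lit 5) (nat_lit 9) (nat_lit 10) (C.cons (nat_lit 1568) (C.node (nat_lit 1) (nat_lit 2) (nat_lit 7) (C.cons (nat_lit 646) (C.miq (nat_lit 1444022935) (nat_lit 103970664519674200200710017)) (C.cons (nat_lit 142) (C.node (nat_lit 2) (nat_lit 3) (nat_lit 5) (C.cons (nat_lit 60)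 (C.miq (nat_lit 323383888) (nat_lit 106389069281151445202174117)) (C.cons (nat_lit 44) (C.node (nat_lit 2) (nat_lit 3) (nat_lit 4) (C.cons (nat_lit 1052) (C.miq (nat_lit 1681328673) (nat_lit 184969247836174203927528455)) (C.cons (nat_lit 28) (C.node (nat_lit 2) (nat_lit 3) (nat_lit 10) (C.cons (nat_lit 1036) (C.node (nat_lit 1) (nat_lit 4) (nat_lit 7) (C.cons (nat_lit 1170) (C.miq (nat_lit 907282855) (nat_lit 103970443004497028482992001)) (C.cons (nat_lit 178) (C.miq (nat_lit 910237783) (nat_lit 103970240090310220453118117)) (C.cons (nat_lit 146) (C.node (nat_lit 1) (nat_lit 7) (nat_lit 10) (C.cons (nat_lit 1186) (C.miq (nat_lit 1382117530) (nat_lit 103989498371775429550933889)) (C.cons (nat_lit 1154) (C.node (nat_lit 3) (nat_lit 5) (nat_lit 6) (C.cons (nat_lit 232) (C.miq (nat_lit 1461347104) (nat_lit 1395121369848596679920910925)) (C.cons (nat_lit 106) (C.miq (nat_lit 2198996324) (nat_lit 171672576216984283709310065)) (C.cons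 (nat_lit 104) (C.node (nat_lit 1) (nat_lit 3) (nat_lit 6) C.nil) C.nil)))) C.nil))) C.nil)))) C.nil)) C.nil))) C.nil))) (C.cons (nat_lit 134) (C.node (nat_lit 1) (nat_lit 2) (nat_lit 3) (C.cons (nat_lit 46) (C.node (nat_lit 3) (nat_lit 4) (nat_lit 5) (C.cons (nat_lit 56) (C.node (nat_lit 1) (nat_lit 2) (nat_lit 8) (C.cons (nat_lit 774) (C.node (nat_lit 2) (nat_lit 5) (nat_lit 8) (C.cons (nat_lit 292) (C.node (nat_lit 5) (nat_lit 8) (nat_lit 9) (C.cons (nat_lit 800) (C.node (nat_lit 2) (nat_lit 3) (nat_lit 4) C.nil) C.nil)) C.nil)) (C.cons (nat_lit 262) (C.miq (nat_lit 2435334310) (nat_lit 316754207727474990305772657)) C.nil))) C.nil)) (C.cons (nat_lit 14) (C.node (nat_lit 2) (nat_lit 3) (nat_lit 5) (C.cons (nat_lit 60) (C.node (nat_lit 1) (nat_lit 4) (nat_lit 5) (C.cons (nat_lit 178) (C.miq (nat_lit 339113248) (nat_lit 106389069291284544327844005)) (C.cons (nat_lit 50) (C.node (nat_lit 1) (nat_lit 4) (nat_lit 7) (C.cons (nat_lit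 1170) (C.miq (nat_lit 907282855) (nat_lit 103970443004497028482992001)) (C.cons (nat_lit 146) (C.node (nat_lit 2) (nat_lit 4) (nat_lit 9) (C.cons (nat_lit 660) (C.miq (nat_lit 1951961648) (nat_lit 367548885543986607505867341)) (C.cons (nat_lit 532) (C.node (nat_lit 2) (nat_lit 7) (nat_lit 9) (C.cons (nat_lit 644) (C.node (nat_lit 2) (nat_lit 3) (nat_lit 7) (C.cons (nat_lit 140) (C.node (nat_lit 2) (nat_lit 3) (nat_lit 10) C.nil) C.nil)) C.nil)) C.nil))) C.nil))) C.nil))) (C.cons (nat_lit 44) (C.node (nat_lit 2) (nat_lit 3) (nat_lit 4) (C.cons (nat_lit 1052) (C.node (nat_lit 2) (nat_lit 3) (nat_lit 7) (C.cons (nat_lit 140) (C.node (nat_lit 2) (nat_lit 7) (nat_lit 10) (C.cons (nat_lit 1156) (C.node (nat_lit 2) (nat_lit 4) (nat_lit 5) C.nil) C.nil)) C.nil)) (C.cons (nat_lit 28) (C.node (nat_lit 2) (nat_lit 3) (nat_lit 7) (C.cons (nat_lit 1164) (C.node (nat_lit 2) (nat_lit 4) (nat_lit 10) (C.cons (nat_lit 1044) (C.node (nat_lit 2) (nat_lit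 4) (nat_lit 5) C.nil) C.nil)) (C.cons (nat_lit 140) (C.node (nat_lit 2) (nat_lit 3) (nat_lit 10) (C.cons (nat_lit 1036) (C.node (nat_lit 3) (nat_lit 4) (nat_lit 5) C.nil) C.nil)) C.nil))) C.nil))) C.nil))) C.nil))) C.nil)))) C.nil)) C.nil))) C.nil))) C.nil))) C.nil))) C.nil))))) C.nil))) C.nil))))) C.nil))) C.nil)))) C.nil)) C.nil))) C.nil))) C.nil)) (C.cons (nat_lit 464)
  (C.miq (nat_lit 2556693025) (nat_lit 560951376063010296718296071)) (C.cons (nat_lit 336) (C.miq (nat_lit 2556693025) (nat_lit 406208871152337762355905543)) C.nil)))) C.nil))) C.nil)) C.nil))) C.nil)) (C.cons (nat_lit 452) (C.miq (nat_lit 2787676480) (nat_lit 546469907112101265091658259)) (C.cons (nat_lit 324) (C.miq (nat_lit 2787676480) (nat_lit 391727402201428730729267731)) C.nil)))) C.nil))) C.nil))) (C.cons (nat_lit 84) (C.node (nat_lit 2) (nat_lit 6) (nat_lit 10) (C.cons (nat_lit 1348) (C.miq (nat_lit 371497600) (nat_lit 101559564519660692771768193)) (C.cons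 (nat_lit 1220) (C.node (nat_lit 3) (nat_lit 6) (nat_lit 10) (C.cons (nat_lit 1352) (C.miq (nat_lit 1398933671) (nat_lit 712060351549392620936759169)) (C.cons (nat_lit 1096) (C.node (nat_lit 6) (nat_lit 8) (nat_lit 10) (C.cons (nat_lit 1344) (C.node (nat_lit 4) (nat_lit 7) (nat_lit 10) (C.cons (nat_lit 1170) (C.miq (nat_lit 916916500) (nat_lit 1474892322447486512599794195)) (C.cons (nat_lit 1168) (C.node (nat_lit 2) (nat_lit 9) (nat_lit 10) (C.cons (nat_lit 1572) (C.miq (nat_lit 2433066610) (nat_lit 42341402419119642749764804)) (C.cons (nat_lit 1556) (C.miq (nat_lit 338037159) (nat_lit 101553366112193119720310657)) (C.cons (nat_lit 1540) (C.node (nat_lit 4) (nat_lit 9) (nat_lit 10) (C.cons (nat_lit 1560) (C.miq (nat_lit 440887600) (nat_lit 1412028954875910862268858957)) (C.cons (nat_lit 1552) (C.node (nat_lit 4) (nat_lit 6) (nat_lit 9) (C.cons (nat_lit 848) (C.miq (nat_lit 373467520) (nat_lit 101568787891695400063928193)) (C.cons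 (nat_lit 720) (C.miq (nat_lit 308546169) (nat_lit 101559564358937931343202177)) (C.cons (nat_lit 592) (C.node (nat_lit 6) (nat_lit 7) (nat_lit 9) (C.cons (nat_lit 736) (C.miq (nat_lit 1503819280) (nat_lit 1861748806126473554587746499)) (C.cons (nat_lit 704) (C.node (nat_lit 2) (nat_lit 4) (nat_lit 10) (C.cons (nat_lit 1052) (C.node (nat_lit 1) (nat_lit 4) (nat_lit 10) (C.cons (nat_lit 1298) (C.miq (nat_lit 338077705) (nat_lit 101579320896990642891982721)) (C.cons (nat_lit 1042) (C.node (nat_lit 4) (nat_lit 8) (nat_lit 10) (C.cons (nat_lit 1296) (C.node (nat_lit 2) (nat_lit 3) (nat_lit 7) (C.cons (nat_lit 398) (C.miq (nat_lit 1445137016) (nat_lit 712062786756048764044969857)) (C.cons (nat_lit 396) (C.miq (nat_lit 1445137016) (nat_lit 712062786756048764044838785)) (C.cons (nat_lit 142) (C.miq (nat_lit 1681328673) (nat_lit 184969247836174203927528455)) (C.cons (nat_lit 140) (C.node (nat_lit 2) (nat_lit 3) (nat_lit 5) (C.cons (nat_lit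 46) (C.node (nat_lit 2) (nat_lit 3) (nat_lit 8) (C.cons (nat_lit 268) (C.node (nat_lit 3) (nat_lit 8) (nat_lit 10) (C.cons (nat_lit 1290) (C.miq (nat_lit 2016741906) (nat_lit 359054012679035997735748615)) (C.cons (nat_lit 1288) (C.node (nat_lit 1) (nat_lit 8) (nat_lit 10) (C.cons (nat_lit 1314) (C.miq (nat_lit 1632868992) (nat_lit 55621453285460913259349889)) (C.cons (nat_lit 1282) (C.node (nat_lit 1) (nat_lit 5) (nat_lit 10) (C.cons (nat_lit 1186) (C.miq (nat_lit 1632803440) (nat_lit 55621453285460363494885249)) (C.cons (nat_lit 1058) (C.node (nat_lit 1) (nat_lit 2) (nat_lit 9) (C.cons (nat_lit 774) (C.miq (nat_lit 306616330) (nat_lit 101579320749497755131512705)) (C.cons (nat_lit 646) (C.miq (nat_lit 1629858160) (nat_lit 55631562101210437046830977)) (C.cons (nat_lit 518) (C.node (nat_lit 1) (nat_lit 3) (nat_lit 9) (C.cons (nat_lit 778) (C.miq (nat_lit 1630906752) (nat_lit 55631562101211003991164801)) (C.cons (nat_lit 650) (C.miq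 (nat_lit 1956720745) (nat_lit 1259712694465162066171920973)) (C.cons (nat_lit 522) (C.node (nat_lit 3) (nat_lit 7) (nat_lit 9) (C.cons (nat_lit 680) (C.miq (nat_lit 1964675872) (nat_lit 1279078953539046444687098445)) (C.cons (nat_lit 648) (C.node (nat_lit 1) (nat_lit 2) (nat_lit 4) (C.cons (nat_lit 150) (C.node (nat_lit 2) (nat_lit 7) (nat_lit 8) (C.cons (nat_lit 388) (C.node (nat_lit 2) (nat_lit 7) (nat_lit 9) (C.cons (nat_lit 644) (C.node (nat_lit 1) (nat_lit 3) (nat_lit 4) (C.cons (nat_lit 346) (C.miq (nat_lit 2031290980) (nat_lit 631062100731400017579476081)) (C.cons (nat_lit 282)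
  (C.miq (nat_lit 1966153860) (nat_lit 55613354760328645250253077)) (C.cons (nat_lit 90) (C.miq (nat_lit 2031290980) (nat_lit 631062100731400017562698865)) (C.cons (nat_lit 26) (C.node (nat_lit 1) (nat_lit 2) (nat_lit 6) (C.cons (nat_lit 326) (C.node (nat_lit 1) (nat_lit 3) (nat_lit 6) C.nil) (C.cons (nat_lit 70) (C.node (nat_lit 1) (nat_lit 2) (nat_lit 8) (C.cons (nat_lit 262) (C.node (nat_lit 1) (nat_lit 3) (nat_lit 10) C.nil) C.nil)) C.nil))) C.nil))))) C.nil)) C.nil)) (C.cons (nat_lit 22) (C.node (nat_lit 1) (nat_lit 2) (nat_lit 6) (C.cons (nat_lit 326) (C.node (nat_lit 1) (nat_lit 2) (nat_lit 7) (C.cons (nat_lit 134) (C.node (nat_lit 1) (nat_lit 5) (nat_lit 6) (C.cons (nat_lit 98) (C.node (nat_lit 2) (nat_lit 5) (nat_lit 6) (C.cons (nat_lit 100) (C.node (nat_lit 2) (nat_lit 7) (nat_lit 8) (C.cons (nat_lit 388) (C.node (nat_lit 1) (nat_lit 3) (nat_lit 10) (C.cons (nat_lit 1162) (C.node (nat_lit 2) (nat_lit 5) (nat_lit 10) C.nil)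 C.nil)) C.nil)) C.nil)) C.nil)) C.nil)) (C.cons (nat_lit 70) (C.node (nat_lit 1) (nat_lit 2) (nat_lit 7) (C.cons (nat_lit 390) (C.node (nat_lit 2) (nat_lit 5) (nat_lit 10) (C.cons (nat_lit 1316) (C.miq (nat_lit 1377216624) (nat_lit 84645781691458594390869889)) (C.cons (nat_lit 1060) (C.node (nat_lit 2) (nat_lit 8) (nat_lit 10) C.nil) C.nil))) (C.cons (nat_lit 134) (C.node (nat_lit 1) (nat_lit 2) (nat_lit 8) (C.cons (nat_lit 262) (C.node (nat_lit 2) (nat_lit 7) (nat_lit 8) (C.cons (nat_lit 388) (C.node (nat_lit 1) (nat_lit 3) (nat_lit 10) C.nil) C.nil)) C.nil)) C.nil))) C.nil))) C.nil))) C.nil))) C.nil)))) C.nil)))) C.nil))) C.nil))) C.nil))) C.nil)) (C.cons (nat_lit 44) (C.ref (nat_lit 102) (nat_lit 11649936536080)) C.nil))) C.nil))))) C.nil)) C.nil))) (C.cons (nat_lit 1044) (C.node (nat_lit 3) (nat_lit 9) (nat_lit 10) (C.cons (nat_lit 1576) (C.node (nat_lit 3) (nat_lit 7) (nat_lit 9) (C.cons (nat_lit 650) (C.miq (nat_lit 390763270)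 (nat_lit 1412054909176852350824940109)) (C.cons (nat_lit 648) (C.node (nat_lit 1) (nat_lit 3) (nat_lit 9) (C.cons (nat_lit 778) (C.miq (nat_lit 369662547) (nat_lit 388079540114113107199591976)) (C.cons (nat_lit 522) (C.node (nat_lit 5) (nat_lit 7) (nat_lit 10) (C.cons (nat_lit 1186) (C.miq (nat_lit 1519546720) (nat_lit 1861748806253137294078574787)) (C.cons (nat_lit 1184) (C.node (nat_lit 1) (nat_lit 5) (nat_lit 10) (C.cons (nat_lit 1314) (C.miq (nat_lit 2207338602) (nat_lit 631083516944149881471239281)) (C.cons (nat_lit 1058) (C.node (nat_lit 1) (nat_lit 7) (nat_lit 10) (C.cons (nat_lit 1162) (C.node (nat_lit 1) (nat_lit 4) (nat_lit 10) (C.cons (nat_lit 1298) (C.miq (nat_lit 338077705) (nat_lit 101579320896990642891982721)) (C.cons (nat_lit 1042) (C.node (nat_lit 1) (nat_lit 8) (nat_lit 10) (C.cons (nat_lit 1282) (C.node (nat_lit 2) (nat_lit 3) (nat_lit 7) (C.cons (nat_lit 396) (C.miq (nat_lit 1445137016) (nat_lit 712062786756048764044838785))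 (C.cons (nat_lit 140) (C.node (nat_lit 2) (nat_lit 3) (nat_lit 4) (C.cons (nat_lit 62) (C.miq (nat_lit 2301758036) (nat_lit 712062418041845200581428337)) (C.cons (nat_lit 60) (C.miq (nat_lit 2301758036) (nat_lit 712062418041845200581297265)) (C.cons (nat_lit 30) (C.miq (nat_lit 2268334610) (nat_lit 184970760689865102290977799)) (C.cons (nat_lit 28) (C.node (nat_lit 2) (nat_lit 3) (nat_lit 5) (C.cons (nat_lit 46) (C.node (nat_lit 3) (nat_lit 4) (nat_lit 5) (C.cons (nat_lit 56) (C.node (nat_lit 1) (nat_lit 2) (nat_lit 9) (C.cons (nat_lit 774) (C.miq (nat_lit 306616330) (nat_lit 101579320749497755131512705)) (C.cons (nat_lit 646) (C.miq (nat_lit 1629858160) (nat_lit 55631562101210437046830977)) (C.cons (nat_lit 518) (C.node (nat_lit 1) (nat_lit 2) (nat_lit 4) (C.cons (nat_lit 150) (C.node (nat_lit 2) (nat_lit 7) (nat_lit 8) (C.cons (nat_lit 388) (C.node (nat_lit 2) (nat_lit 7) (nat_lit 9) (C.cons (nat_lit 644) (C.node (nat_lit 1) (nat_lit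 7) (nat_lit 8) (C.cons (nat_lit 418) (C.miq (nat_lit 2168026400) (nat_lit 631094714151858763117428901)) (C.cons (nat_lit 386) (C.node (nat_lit 1) (nat_lit 7) (nat_lit 9) (C.cons (nat_lit 674)
  (C.node (nat_lit 4) (nat_lit 7) (nat_lit 9) C.nil) C.nil)) C.nil))) C.nil)) C.nil)) (C.cons (nat_lit 22) (C.node (nat_lit 1) (nat_lit 2) (nat_lit 6) (C.cons (nat_lit 326) (C.node (nat_lit 1) (nat_lit 2) (nat_lit 7) (C.cons (nat_lit 134) (C.node (nat_lit 1) (nat_lit 5) (nat_lit 6) (C.cons (nat_lit 98) (C.node (nat_lit 2) (nat_lit 5) (nat_lit 6) (C.cons (nat_lit 100) (C.node (nat_lit 2) (nat_lit 3) (nat_lit 8) C.nil) C.nil)) C.nil)) C.nil)) (C.cons (nat_lit 70) (C.node (nat_lit 1) (nat_lit 2) (nat_lit 7) (C.cons (nat_lit 390) (C.node (nat_lit 1) (nat_lit 8) (nat_lit 9) (C.cons (nat_lit 802) (C.miq (nat_lit 680859555) (nat_lit 969559355990943480406344842)) (C.cons (nat_lit 770) (C.node (nat_lit 1) (nat_lit 5) (nat_lit 9) (C.cons (nat_lit 674)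 (C.node (nat_lit 1) (nat_lit 4) (nat_lit 7) (C.cons (nat_lit 146) (C.node (nat_lit 1) (nat_lit 4) (nat_lit 5) C.nil) C.nil)) C.nil)) C.nil))) (C.cons (nat_lit 134) (C.node (nat_lit 1) (nat_lit 2) (nat_lit 8) C.nil) C.nil))) C.nil))) C.nil))) C.nil)))) C.nil)) (C.cons (nat_lit 44) (C.node (nat_lit 1) (nat_lit 2) (nat_lit 3) (C.cons (nat_lit 270) (C.node (nat_lit 2) (nat_lit 3) (nat_lit 10) (C.cons (nat_lit 1036) (C.node (nat_lit 2) (nat_lit 7) (nat_lit 8) (C.cons (nat_lit 388) (C.node (nat_lit 2) (nat_lit 5) (nat_lit 10) (C.cons (nat_lit 1316) (C.node (nat_lit 3) (nat_lit 4) (nat_lit 10) (C.cons (nat_lit 1304) (C.miq (nat_lit 1921189284) (nat_lit 326412793694242178151744625)) C.nil)) C.nil)) C.nil)) C.nil)) (C.cons (nat_lit 14) (C.node (nat_lit 2) (nat_lit 3) (nat_lit 8) (C.cons (nat_lit 1292) (C.node (nat_lit 2) (nat_lit 5) (nat_lit 10) (C.cons (nat_lit 1060) (C.node (nat_lit 3) (nat_lit 4) (nat_lit 10) C.nil) C.nil)) (C.cons (nat_lit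 268) (C.node (nat_lit 2) (nat_lit 3) (nat_lit 10) (C.cons (nat_lit 1036) (C.node (nat_lit 2) (nat_lit 5) (nat_lit 10) (C.cons (nat_lit 1316) (C.node (nat_lit 3) (nat_lit 4) (nat_lit 10) (C.cons (nat_lit 1304) (C.miq (nat_lit 1921189284) (nat_lit 323994942055012919802332273)) C.nil)) C.nil)) C.nil)) C.nil))) C.nil))) C.nil))) C.nil))))) C.nil))) C.nil)) C.nil))) (C.cons (nat_lit 1154) (C.node (nat_lit 3) (nat_lit 7) (nat_lit 10) (C.cons (nat_lit 1160) (C.node (nat_lit 2) (nat_lit 3) (nat_lit 10) (C.cons (nat_lit 1292) (C.node (nat_lit 2) (nat_lit 5) (nat_lit 10) (C.cons (nat_lit 1060) (C.node (nat_lit 5) (nat_lit 8) (nat_lit 10) (C.cons (nat_lit 1312) (C.node (nat_lit 1) (nat_lit 8) (nat_lit 10) (C.cons (nat_lit 1298) (C.miq (nat_lit 338077705) (nat_lit 101579320896990642891982721)) (C.cons (nat_lit 1282) (C.node (nat_lit 4) (nat_lit 8) (nat_lit 10) (C.cons (nat_lit 1296) (C.node (nat_lit 1) (nat_lit 3) (nat_lit 10) (C.cons (nat_lit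 1050) (C.node (nat_lit 2) (nat_lit 3) (nat_lit 4) (C.cons (nat_lit 60) (C.miq (nat_lit 2468914496) (nat_lit 1561967595581071310781219953)) (C.cons (nat_lit 28) (C.node (nat_lit 3) (nat_lit 4) (nat_lit 5) (C.cons (nat_lit 56) (C.node (nat_lit 2) (nat_lit 3) (nat_lit 7) (C.cons (nat_lit 142) (C.miq (nat_lit 1412893202) (nat_lit 184968694433851984051045383)) (C.cons (nat_lit 140) (C.node (nat_lit 3) (nat_lit 4) (nat_lit 9) (C.cons (nat_lit 792) (C.miq (nat_lit 591505552) (nat_lit 1269391129552169699548268417)) C.nil)) C.nil))) C.nil)) C.nil))) C.nil)) C.nil)) C.nil))) C.nil)) C.nil)) (C.cons (nat_lit 1036) (C.node (nat_lit 2) (nat_lit 5) (nat_lit 10) (C.cons (nat_lit 1316) (C.node (nat_lit 2) (nat_lit 5) (nat_lit 6) (C.cons (nat_lit 102) (C.miq (nat_lit 2048199010) (nat_lit 1279046561405770139720614477)) (C.cons (nat_lit 100) (C.node (nat_lit 2) (nat_lit 8) (nat_lit 9) (C.cons (nat_lit 774) (C.miq (nat_lit 306616330) (nat_lit 101579320749497755131512705))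 (C.cons (nat_lit 772) (C.node (nat_lit 2) (nat_lit 7) (nat_lit 8) (C.cons (nat_lit 398) (C.miq (nat_lit 374501544) (nat_lit 120899923820496757794801537)) (C.cons (nat_lit 396) (C.miq (nat_lit 1445137016) (nat_lit 712062786756048764044838785)) (C.cons (nat_lit 390) (C.miq (nat_lit 374501544) (nat_lit 120899776246544168118388609)) (C.cons (nat_lit 388)
  (C.node (nat_lit 4) (nat_lit 8) (nat_lit 10) (C.cons (nat_lit 1306) (C.miq (nat_lit 338077705) (nat_lit 101579320899242442705667969)) (C.cons (nat_lit 1304) (C.miq (nat_lit 925384794) (nat_lit 469087272607814617233884273)) (C.cons (nat_lit 1298) (C.miq (nat_lit 338077705) (nat_lit 101579320896990642891982721)) (C.cons (nat_lit 1296) (C.node (nat_lit 1) (nat_lit 2) (nat_lit 6) (C.cons (nat_lit 326) (C.node (nat_lit 2) (nat_lit 3) (nat_lit 8) (C.cons (nat_lit 268) (C.node (nat_lit 1) (nat_lit 4) (nat_lit 6) (C.cons (nat_lit 90) (C.miq (nat_lit 2031290980) (nat_lit 631062100731400017562698865))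 (C.cons (nat_lit 82) (C.node (nat_lit 1) (nat_lit 3) (nat_lit 6) (C.cons (nat_lit 106) (C.miq (nat_lit 2299726437) (nat_lit 631064757062546631739180145)) (C.cons (nat_lit 74) (C.node (nat_lit 1) (nat_lit 5) (nat_lit 6) C.nil) C.nil))) C.nil))) C.nil)) (C.cons (nat_lit 70) (C.node (nat_lit 2) (nat_lit 6) (nat_lit 8) (C.cons (nat_lit 324) (C.node (nat_lit 1) (nat_lit 2) (nat_lit 8) (C.cons (nat_lit 270) (C.node (nat_lit 2) (nat_lit 3) (nat_lit 7) C.nil) C.nil)) C.nil)) C.nil))) C.nil))))) C.nil))))) C.nil))) C.nil))) (C.cons (nat_lit 1060) (C.node (nat_lit 2) (nat_lit 8) (nat_lit 10) (C.cons (nat_lit 1284) (C.node (nat_lit 5) (nat_lit 8) (nat_lit 10) (C.cons (nat_lit 1312) (C.node (nat_lit 4) (nat_lit 8) (nat_lit 10) (C.cons (nat_lit 1306) (C.miq (nat_lit 338077705) (nat_lit 101579320899242442705667969)) (C.cons (nat_lit 1304) (C.node (nat_lit 1) (nat_lit 3) (nat_lit 10) C.nil) (C.cons (nat_lit 1298) (C.miq (nat_lit 338077705) (nat_lit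 101579320896990642891982721)) C.nil)))) C.nil)) C.nil)) C.nil))) C.nil))) C.nil)) C.nil))) C.nil))) C.nil))) C.nil))) C.nil))) (C.cons (nat_lit 1544) (C.node (nat_lit 5) (nat_lit 9) (nat_lit 10) (C.cons (nat_lit 1568) (C.node (nat_lit 4) (nat_lit 6) (nat_lit 7) (C.cons (nat_lit 464) (C.node (nat_lit 1) (nat_lit 4) (nat_lit 6) (C.cons (nat_lit 90) (C.miq (nat_lit 343565065) (nat_lit 1412054909019226363918352973)) (C.cons (nat_lit 82) (C.node (nat_lit 3) (nat_lit 4) (nat_lit 6) (C.cons (nat_lit 88) (C.node (nat_lit 2) (nat_lit 7) (nat_lit 8) (C.cons (nat_lit 398) (C.miq (nat_lit 1445137016) (nat_lit 712062786756048764044969857)) (C.cons (nat_lit 396) (C.miq (nat_lit 1445137016) (nat_lit 712062786756048764044838785)) (C.cons (nat_lit 390) (C.miq (nat_lit 2759984753) (nat_lit 334891470946431317351727299)) (C.cons (nat_lit 388) (C.node (nat_lit 2) (nat_lit 3) (nat_lit 7) (C.cons (nat_lit 142) (C.node (nat_lit 3) (nat_lit 7) (nat_lit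 8) (C.cons (nat_lit 392) (C.node (nat_lit 1) (nat_lit 4) (nat_lit 7) (C.cons (nat_lit 178) (C.miq (nat_lit 910237783) (nat_lit 99134536811851703754293413)) (C.cons (nat_lit 146) (C.node (nat_lit 1) (nat_lit 7) (nat_lit 10) (C.cons (nat_lit 1186) (C.miq (nat_lit 2440194640) (nat_lit 171678331968464764266677361)) (C.cons (nat_lit 1154) (C.node (nat_lit 2) (nat_lit 3) (nat_lit 4) (C.cons (nat_lit 60) (C.miq (nat_lit 323383888) (nat_lit 106389069281151445202174117)) (C.cons (nat_lit 28) (C.node (nat_lit 2) (nat_lit 3) (nat_lit 5) (C.cons (nat_lit 1068) (C.miq (nat_lit 329675344) (nat_lit 1324986295452701982633033893)) (C.cons (nat_lit 44) (C.node (nat_lit 3) (nat_lit 6) (nat_lit 7) (C.cons (nat_lit 232) (C.miq (nat_lit 1461347104) (nat_lit 1395121369848596679920910925)) (C.cons (nat_lit 200) (C.node (nat_lit 5) (nat_lit 6) (nat_lit 7) (C.cons (nat_lit 224) (C.node (nat_lit 1) (nat_lit 4) (nat_lit 10) (C.cons (nat_lit 1306) (C.miq (nat_lit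 638847400) (nat_lit 99137027122303651777480577)) (C.cons (nat_lit 1298) (C.miq (nat_lit 638847400) (nat_lit 99137027122303651776956289)) (C.cons (nat_lit 1050) (C.miq (nat_lit 1412893202) (nat_lit 184968694433851984051045383)) (C.cons (nat_lit 1042) (C.node (nat_lit 1) (nat_lit 2) (nat_lit 4) (C.cons (nat_lit 54) (C.node (nat_lit 1) (nat_lit 2) (nat_lit 9) (C.cons (nat_lit 774) (C.miq (nat_lit 1629792640) (nat_lit 65302968658128020207634305)) (C.cons (nat_lit 518) (C.node (nat_lit 1) (nat_lit 7) (nat_lit 9) (C.cons (nat_lit 674)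
  (C.miq (nat_lit 2270300436) (nat_lit 199477870525238556444983827)) (C.cons (nat_lit 642) (C.node (nat_lit 1) (nat_lit 5) (nat_lit 7) C.nil) C.nil))) C.nil))) (C.cons (nat_lit 22) (C.node (nat_lit 1) (nat_lit 7) (nat_lit 8) (C.cons (nat_lit 418) (C.node (nat_lit 1) (nat_lit 7) (nat_lit 9) C.nil) (C.cons (nat_lit 386) (C.node (nat_lit 5) (nat_lit 7) (nat_lit 8) (C.cons (nat_lit 416) (C.node (nat_lit 2) (nat_lit 4) (nat_lit 7) C.nil) C.nil)) C.nil))) C.nil))) C.nil))))) C.nil)) C.nil))) C.nil))) C.nil))) C.nil))) C.nil))) C.nil)) (C.cons (nat_lit 140) (C.node (nat_lit 3) (nat_lit 6) (nat_lit 7) (C.cons (nat_lit 232) (C.node (nat_lit 3) (nat_lit 7) (nat_lit 9) (C.cons (nat_lit 650) (C.miq (nat_lit 878801065) (nat_lit 99143907635118058453993345)) (C.cons (nat_lit 648) (C.node (nat_lit 5) (nat_lit 7) (nat_lit 10) (C.cons (nat_lit 1186) (C.miq (nat_lit 389195104) (nat_lit 169268633673018397856433265)) (C.cons (nat_lit 1184) (C.node (nat_lit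 2) (nat_lit 5) (nat_lit 6) (C.cons (nat_lit 358) (C.miq (nat_lit 1481073155) (nat_lit 560945860046582269058024013)) (C.cons (nat_lit 356) (C.miq (nat_lit 1481073155) (nat_lit 560945860046019319104602701)) (C.cons (nat_lit 102) (C.miq (nat_lit 360342025) (nat_lit 1431397722136438181973787213)) (C.cons (nat_lit 100) (C.node (nat_lit 1) (nat_lit 2) (nat_lit 6) (C.cons (nat_lit 326) (C.node (nat_lit 1) (nat_lit 3) (nat_lit 6) (C.cons (nat_lit 74) (C.node (nat_lit 1) (nat_lit 5) (nat_lit 6) (C.cons (nat_lit 98) (C.node (nat_lit 3) (nat_lit 6) (nat_lit 8) (C.cons (nat_lit 328) (C.node (nat_lit 5) (nat_lit 6) (nat_lit 8) (C.cons (nat_lit 864) (C.node (nat_lit 2) (nat_lit 8) (nat_lit 9) (C.cons (nat_lit 772) (C.node (nat_lit 1) (nat_lit 8) (nat_lit 9) (C.cons (nat_lit 778) (C.miq (nat_lit 1444088472) (nat_lit 89465989654516379773699969)) (C.cons (nat_lit 770) (C.node (nat_lit 1) (nat_lit 3) (nat_lit 9) (C.cons (nat_lit 554) (C.node (nat_lit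 1) (nat_lit 2) (nat_lit 3) C.nil) (C.cons (nat_lit 522) (C.node (nat_lit 2) (nat_lit 3) (nat_lit 8) C.nil) C.nil))) C.nil))) C.nil)) C.nil)) C.nil)) C.nil)) C.nil)) (C.cons (nat_lit 70) (C.node (nat_lit 2) (nat_lit 6) (nat_lit 8) (C.cons (nat_lit 324) (C.node (nat_lit 1) (nat_lit 3) (nat_lit 6) (C.cons (nat_lit 330) (C.node (nat_lit 1) (nat_lit 5) (nat_lit 6) (C.cons (nat_lit 98) (C.node (nat_lit 3) (nat_lit 7) (nat_lit 8) (C.cons (nat_lit 392) (C.node (nat_lit 5) (nat_lit 6) (nat_lit 8) (C.cons (nat_lit 864) (C.node (nat_lit 1) (nat_lit 7) (nat_lit 8) (C.cons (nat_lit 418) (C.miq (nat_lit 629344022) (nat_lit 359061833604249446288851139)) (C.cons (nat_lit 386) (C.node (nat_lit 5) (nat_lit 7) (nat_lit 8) (C.cons (nat_lit 416) (C.node (nat_lit 1) (nat_lit 8) (nat_lit 9) (C.cons (nat_lit 774) (C.miq (nat_lit 1175587480) (nat_lit 84629917441176388883580801)) C.nil)) C.nil)) C.nil))) C.nil)) C.nil)) C.nil)) (C.cons (nat_lit 74) (C.node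 (nat_lit 3) (nat_lit 6) (nat_lit 8) C.nil) C.nil))) C.nil)) C.nil))) C.nil))))) C.nil))) C.nil))) (C.cons (nat_lit 200) (C.node (nat_lit 5) (nat_lit 6) (nat_lit 7) (C.cons (nat_lit 224) (C.node (nat_lit 3) (nat_lit 5) (nat_lit 6) (C.cons (nat_lit 106) (C.node (nat_lit 3) (nat_lit 6) (nat_lit 8) (C.cons (nat_lit 328) (C.node (nat_lit 3) (nat_lit 7) (nat_lit 8) (C.cons (nat_lit 394) (C.miq (nat_lit 2436408912) (nat_lit 476352209574452858859357297)) (C.cons (nat_lit 392) (C.node (nat_lit 1) (nat_lit 7) (nat_lit 8) (C.cons (nat_lit 418) (C.miq (nat_lit 2706937392) (nat_lit 505366429245203959052304973)) (C.cons (nat_lit 386) (C.node (nat_lit 5) (nat_lit 7) (nat_lit 8) (C.cons (nat_lit 416) (C.node (nat_lit 5) (nat_lit 6) (nat_lit 9) (C.cons (nat_lit 864) (C.miq (nat_lit 815880342) (nat_lit 1246404475461160811154768736)) (C.cons (nat_lit 608) (C.node (nat_lit 6) (nat_lit 8) (nat_lit 9) (C.cons (nat_lit 832) (C.node (nat_lit 1) (nat_lit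 3) (nat_lit 7) C.nil) C.nil)) C.nil))) C.nil)) C.nil))) C.nil))) C.nil)) (C.cons (nat_lit 104) (C.node (nat_lit 1) (nat_lit 3) (nat_lit 6) (C.cons (nat_lit 330) (C.node (nat_lit 3) (nat_lit 7) (nat_lit 8)
  (C.cons (nat_lit 392) (C.node (nat_lit 1) (nat_lit 2) (nat_lit 6) (C.cons (nat_lit 102) (C.miq (nat_lit 2522325280) (nat_lit 270834820239965881970787335)) (C.cons (nat_lit 70) (C.node (nat_lit 1) (nat_lit 5) (nat_lit 6) (C.cons (nat_lit 98) (C.node (nat_lit 1) (nat_lit 8) (nat_lit 10) (C.cons (nat_lit 1314) (C.miq (nat_lit 907348392) (nat_lit 118480209171019192764336001)) (C.cons (nat_lit 1298) (C.miq (nat_lit 638847400) (nat_lit 99137027122303651776956289)) C.nil))) C.nil)) C.nil))) C.nil)) (C.cons (nat_lit 74) (C.node (nat_lit 3) (nat_lit 6) (nat_lit 8) (C.cons (nat_lit 328) (C.node (nat_lit 3) (nat_lit 7) (nat_lit 8) (C.cons (nat_lit 394) (C.node (nat_lit 5) (nat_lit 7) (nat_lit 8) (C.cons (nat_lit 416) (C.node (nat_lit 3)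 (nat_lit 7) (nat_lit 10) (C.cons (nat_lit 1192) (C.node (nat_lit 1) (nat_lit 7) (nat_lit 10) C.nil) C.nil)) C.nil)) (C.cons (nat_lit 392) (C.node (nat_lit 1) (nat_lit 7) (nat_lit 8) (C.cons (nat_lit 418) (C.node (nat_lit 1) (nat_lit 5) (nat_lit 6) (C.cons (nat_lit 102) (C.miq (nat_lit 2706871840) (nat_lit 505366429245203941863785037)) (C.cons (nat_lit 98) (C.node (nat_lit 1) (nat_lit 7) (nat_lit 9) (C.cons (nat_lit 650) (C.miq (nat_lit 1175653015) (nat_lit 89463333323369765589878657)) (C.cons (nat_lit 646) (C.miq (nat_lit 627142825) (nat_lit 118486646965353530131613569)) (C.cons (nat_lit 642) (C.node (nat_lit 1) (nat_lit 7) (nat_lit 10) (C.cons (nat_lit 1162) (C.node (nat_lit 1) (nat_lit 5) (nat_lit 10) C.nil) C.nil)) C.nil)))) C.nil))) (C.cons (nat_lit 386) (C.node (nat_lit 5) (nat_lit 7) (nat_lit 8) (C.cons (nat_lit 416) (C.node (nat_lit 2) (nat_lit 3) (nat_lit 10) C.nil) C.nil)) C.nil))) C.nil))) C.nil)) C.nil))) C.nil))) C.nil))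 C.nil))) C.nil))) C.nil))))) C.nil)) C.nil))) (C.cons (nat_lit 208) (C.node (nat_lit 5) (nat_lit 6) (nat_lit 9) (C.cons (nat_lit 864) (C.node (nat_lit 2) (nat_lit 5) (nat_lit 6) (C.cons (nat_lit 102) (C.miq (nat_lit 2036664850) (nat_lit 1044514952400532079827616775)) (C.cons (nat_lit 100) (C.node (nat_lit 1) (nat_lit 5) (nat_lit 6) (C.cons (nat_lit 106) (C.miq (nat_lit 815880342) (nat_lit 1246404475461160811154768736)) (C.cons (nat_lit 98) (C.node (nat_lit 2) (nat_lit 8) (nat_lit 9) (C.cons (nat_lit 774) (C.miq (nat_lit 306616330) (nat_lit 101579320749497755131512705)) (C.cons (nat_lit 772) (C.node (nat_lit 1) (nat_lit 8) (nat_lit 9) (C.cons (nat_lit 778) (C.miq (nat_lit 895582377) (nat_lit 118489081972725956718233473)) (C.cons (nat_lit 770) (C.node (nat_lit 1) (nat_lit 2) (nat_lit 6) (C.cons (nat_lit 326) (C.node (nat_lit 1) (nat_lit 3) (nat_lit 6) (C.cons (nat_lit 90) (C.miq (nat_lit 343565065) (nat_lit 1412054909019226363918352973))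 (C.cons (nat_lit 74) (C.node (nat_lit 1) (nat_lit 4) (nat_lit 6) (C.cons (nat_lit 82) (C.node (nat_lit 2) (nat_lit 7) (nat_lit 8) (C.cons (nat_lit 396) (C.miq (nat_lit 1445137016) (nat_lit 712062786756048764044838785)) (C.cons (nat_lit 388) (C.node (nat_lit 4) (nat_lit 7) (nat_lit 8) (C.cons (nat_lit 434) (C.miq (nat_lit 911477127) (nat_lit 1374551479419469121365084033)) (C.cons (nat_lit 432) (C.miq (nat_lit 911477127) (nat_lit 1374551479419469121364952961)) (C.cons (nat_lit 402) (C.miq (nat_lit 880936726) (nat_lit 334883317208579094354460867)) (C.cons (nat_lit 400) (C.node (nat_lit 2) (nat_lit 3) (nat_lit 7) (C.cons (nat_lit 142) (C.node (nat_lit 1) (nat_lit 4) (nat_lit 7) (C.cons (nat_lit 178) (C.miq (nat_lit 1094080288) (nat_lit 89481484649597522466898085)) (C.cons (nat_lit 146) (C.node (nat_lit 1) (nat_lit 7) (nat_lit 10) (C.cons (nat_lit 1186) (C.miq (nat_lit 638912935) (nat_lit 118477774200801463095134081)) (C.cons (nat_lit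 1154) (C.node (nat_lit 2) (nat_lit 3) (nat_lit 4) (C.cons (nat_lit 60) (C.miq (nat_lit 1175670898) (nat_lit 89461617776164867549298853)) (C.cons (nat_lit 28) (C.node (nat_lit 1) (nat_lit 2) (nat_lit 4) (C.cons (nat_lit 22) (C.node (nat_lit 1) (nat_lit 2) (nat_lit 5) C.nil) C.nil)) C.nil))) C.nil))) C.nil))) (C.cons (nat_lit 140) (C.node (nat_lit 2) (nat_lit 3) (nat_lit 8) (C.cons (nat_lit 1292)
  (C.node (nat_lit 2) (nat_lit 5) (nat_lit 8) (C.cons (nat_lit 292) (C.node (nat_lit 2) (nat_lit 5) (nat_lit 10) (C.cons (nat_lit 1060) (C.node (nat_lit 3) (nat_lit 8) (nat_lit 9) (C.cons (nat_lit 792) (C.miq (nat_lit 423232642) (nat_lit 1866600484227594054626181397)) C.nil)) C.nil)) C.nil)) (C.cons (nat_lit 268) (C.node (nat_lit 2) (nat_lit 3) (nat_lit 10) (C.cons (nat_lit 1068) (C.node (nat_lit 2) (nat_lit 5) (nat_lit 8) (C.cons (nat_lit 292) (C.node (nat_lit 2) (nat_lit 8) (nat_lit 10) (C.cons (nat_lit 1284) (C.node (nat_lit 1) (nat_lit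 2) (nat_lit 9) C.nil) C.nil)) C.nil)) (C.cons (nat_lit 1036) (C.node (nat_lit 2) (nat_lit 5) (nat_lit 8) (C.cons (nat_lit 1316) (C.node (nat_lit 3) (nat_lit 8) (nat_lit 9) (C.cons (nat_lit 792) (C.node (nat_lit 3) (nat_lit 4) (nat_lit 6) (C.cons (nat_lit 88) (C.node (nat_lit 4) (nat_lit 6) (nat_lit 8) C.nil) C.nil)) C.nil)) (C.cons (nat_lit 292) (C.node (nat_lit 2) (nat_lit 5) (nat_lit 10) (C.cons (nat_lit 1060) (C.node (nat_lit 2) (nat_lit 8) (nat_lit 10) C.nil) C.nil)) C.nil))) C.nil))) C.nil))) C.nil))) C.nil))))) C.nil))) C.nil)) C.nil))) (C.cons (nat_lit 70) (C.node (nat_lit 2) (nat_lit 6) (nat_lit 8) (C.cons (nat_lit 324) (C.node (nat_lit 3) (nat_lit 5) (nat_lit 6) (C.cons (nat_lit 232) (C.node (nat_lit 6) (nat_lit 7) (nat_lit 8) (C.cons (nat_lit 448) (C.node (nat_lit 3) (nat_lit 7) (nat_lit 9) (C.cons (nat_lit 650) (C.miq (nat_lit 390763270) (nat_lit 1412054909176852350824940109)) (C.cons (nat_lit 648) (C.node (nat_lit 3)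 (nat_lit 4) (nat_lit 6) (C.cons (nat_lit 346) (C.miq (nat_lit 326722570) (nat_lit 783413482891676787109069937)) (C.cons (nat_lit 344) (C.miq (nat_lit 1451389760) (nat_lit 391695009333215686764593305)) (C.cons (nat_lit 90) (C.miq (nat_lit 326722570) (nat_lit 783413482819619193071142001)) C.nil)))) C.nil))) C.nil)) (C.cons (nat_lit 104) (C.node (nat_lit 5) (nat_lit 6) (nat_lit 7) (C.cons (nat_lit 224) (C.node (nat_lit 3) (nat_lit 6) (nat_lit 7) (C.cons (nat_lit 456) (C.node (nat_lit 3) (nat_lit 8) (nat_lit 9) (C.cons (nat_lit 792) (C.miq (nat_lit 1754362688) (nat_lit 930876478346714828915277977)) C.nil)) (C.cons (nat_lit 200) (C.node (nat_lit 6) (nat_lit 7) (nat_lit 8) (C.cons (nat_lit 448) (C.node (nat_lit 1) (nat_lit 3) (nat_lit 6) (C.cons (nat_lit 346) (C.miq (nat_lit 343565065) (nat_lit 1412054909091283957956280909)) (C.cons (nat_lit 330) (C.node (nat_lit 1) (nat_lit 4) (nat_lit 6) C.nil) (C.cons (nat_lit 90) (C.miq (nat_lit 343565065)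 (nat_lit 1412054909019226363918352973)) C.nil)))) C.nil)) C.nil))) C.nil)) C.nil))) C.nil)) C.nil))) C.nil))) C.nil))) C.nil))) C.nil))) (C.cons (nat_lit 608) (C.node (nat_lit 6) (nat_lit 8) (nat_lit 9) (C.cons (nat_lit 832) (C.ref (nat_lit 104) (nat_lit 11649936536080)) C.nil)) C.nil))) C.nil))) C.nil)) C.nil))) C.nil))) C.nil))) C.nil)))) C.nil))) C.nil)))) C.nil))) C.nil)) C.nil))) (C.cons (nat_lit 1092) (C.ref (nat_lit 107) (nat_lit 11649936536080)) C.nil)))) C.nil)))) List.nil)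

theorem ok11_108 : okL par11 (nat_lit 109) c11_108 (nat_lit 108) = true := by decide +kernel


end Pool.Agent.MP_1f1ca1_co

end

section

set_option autoImplicit false
set_option maxRecDepth 1000000
set_option maxHeartbeats 0

namespace Pool.Agent.MP_1f1ca1_co

noncomputable def c11_109 : List C :=
  (List.cons (C.node (nat_lit 2) (nat_lit 3) (nat_lit 8) (C.cons (nat_lit 270) (C.node (nat_lit 1) (nat_lit 2) (nat_lit 4) (C.cons (nat_lit 54) (C.miq (nat_lit 2804222228) (nat_lit 199493734725141826400289299)) (C.cons (nat_lit 22) (C.node (nat_lit 1) (nat_lit 2) (nat_lit 5) (C.cons (nat_lit 38) (C.node (nat_lit 1) (nat_lit 7) (nat_lit 8) (C.cons (nat_lit 418) (C.miq (nat_lit 840239480) (nat_lit 45944659994137336234510209)) (C.cons (nat_lit 386) (C.node (nat_lit 5) (nat_lit 8) (nat_lit 10) (C.cons (nat_lit 1314) (C.miq (nat_lit 1703086610) (nat_lit 359061833877846971938374663)) (C.cons (nat_lit 1312) (C.node (nat_lit 1) (nat_lit 8) (nat_lit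 10) (C.cons (nat_lit 1298) (C.miq (nat_lit 2457929380) (nat_lit 326419766682847567926133873)) (C.cons (nat_lit 1282) (C.node (nat_lit 3) (nat_lit 5) (nat_lit 6) (C.cons (nat_lit 232) (C.miq (nat_lit 925390400) (nat_lit 469068696758769116670919793)) (C.cons (nat_lit 106) (C.miq (nat_lit 1108740149) (nat_lit 84645781399005578186588457)) (C.cons (nat_lit 104) (C.node (nat_lit 1) (nat_lit 7) (nat_lit 10) C.nil) C.nil)))) C.nil))) C.nil))) C.nil))) C.nil)) C.nil))) (C.cons (nat_lit 268) (C.node (nat_lit 1) (nat_lit 2) (nat_lit 8) (C.cons (nat_lit 294) (C.node (nat_lit 2) (nat_lit 5) (nat_lit 9) (C.cons (nat_lit 548) (C.node (nat_lit 2) (nat_lit 8) (nat_lit 9) (C.cons (nat_lit 772) (C.node (nat_lit 5) (nat_lit 8) (nat_lit 10) (C.cons (nat_lit 1312) (C.node (nat_lit 1) (nat_lit 5) (nat_lit 7) (C.cons (nat_lit 1194) (C.miq (nat_lit 1361487760) (nat_lit 84645781657119746769618817)) (C.cons (nat_lit 1186) (C.miq (nat_lit 1361487760) (nat_lit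 84645781654867946955933569)) (C.cons (nat_lit 170) (C.miq (nat_lit 561284400) (nat_lit 176508279494598650360299817)) (C.cons (nat_lit 162) (C.node (nat_lit 3) (nat_lit 6) (nat_lit 7) (C.cons (nat_lit 456) (C.node (nat_lit 1) (nat_lit 7) (nat_lit 8) C.nil) (C.cons (nat_lit 232) (C.miq (nat_lit 925390400) (nat_lit 469068696758769116670919793)) C.nil))) C.nil))))) C.nil)) C.nil)) C.nil)) (C.cons (nat_lit 262) (C.node (nat_lit 2) (nat_lit 4) (nat_lit 10) (C.cons (nat_lit 1052) (C.node (nat_lit 2) (nat_lit 5) (nat_lit 10) (C.cons (nat_lit 1060) (C.node (nat_lit 4) (nat_lit 9) (nat_lit 10) (C.cons (nat_lit 1552) (C.node (nat_lit 1) (nat_lit 2) (nat_lit 4) C.nil) C.nil)) C.nil)) (C.cons (nat_lit 1044) (C.node (nat_lit 2) (nat_lit 3) (nat_lit 10) (C.cons (nat_lit 1068) (C.node (nat_lit 1) (nat_lit 2) (nat_lit 5) (C.cons (nat_lit 54) (C.miq (nat_lit 1918538048) (nat_lit 1291168211725622621592683027)) (C.cons (nat_lit 38) (C.node (nat_lit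 2) (nat_lit 4) (nat_lit 5) (C.cons (nat_lit 52) (C.node (nat_lit 1) (nat_lit 2) (nat_lit 3) (C.cons (nat_lit 30) (C.node (nat_lit 1) (nat_lit 4) (nat_lit 10) (C.cons (nat_lit 1298) (C.miq (nat_lit 2457929380) (nat_lit 316748360125930534528484465)) C.nil)) C.nil)) C.nil)) C.nil))) (C.cons (nat_lit 1036) (C.node (nat_lit 2) (nat_lit 5) (nat_lit 10) (C.cons (nat_lit 1060) (C.node (nat_lit 2) (nat_lit 5) (nat_lit 8) (C.cons (nat_lit 804) (C.node (nat_lit 1) (nat_lit 2) (nat_lit 5) (C.cons (nat_lit 62) (C.miq (nat_lit 2236060208) (nat_lit 212806380673846478370308685)) (C.cons (nat_lit 54) (C.miq (nat_lit 1918538048) (nat_lit 1281496805168705588195033619)) (C.cons (nat_lit 46) (C.miq (nat_lit 1882298450) (nat_lit 13310101153147243161584420)) C.nil)))) C.nil)) C.nil)) C.nil))) C.nil))) C.nil))) C.nil))) (List.cons (C.node (nat_lit 3) (nat_lit 5) (nat_lit 6) (C.cons (nat_lit 232) (C.miq (nat_lit 2187658355) (nat_lit 120898060722422288304570521))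 (C.cons (nat_lit 106) (C.node (nat_lit 3) (nat_lit 4) (nat_lit 6) (C.cons (nat_lit 344) (C.miq (nat_lit 1966481540) (nat_lit 128150047635338965728887061)) (C.cons (nat_lit 88) (C.node (nat_lit 2) (nat_lit 3) (nat_lit 8) (C.cons (nat_lit 398) (C.miq (nat_lit 1176701575) (nat_lit 712060130424902699625351041)) (C.cons (nat_lit 396) (C.miq (nat_lit 1176701575) (nat_lit 712060130424902699625219969)) (C.cons (nat_lit 270) (C.miq (nat_lit 1108740149) (nat_lit 84645781399005578186588457)) (C.cons (nat_lit 268)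
  (C.node (nat_lit 1) (nat_lit 4) (nat_lit 6) (C.cons (nat_lit 338) (C.node (nat_lit 1) (nat_lit 6) (nat_lit 9) (C.cons (nat_lit 578) (C.node (nat_lit 2) (nat_lit 7) (nat_lit 8) (C.cons (nat_lit 390) (C.miq (nat_lit 1384384278) (nat_lit 334893426027709135370453187)) (C.cons (nat_lit 388) (C.node (nat_lit 4) (nat_lit 7) (nat_lit 8) (C.cons (nat_lit 432) (C.miq (nat_lit 846726725) (nat_lit 469068696859255683366782065)) (C.cons (nat_lit 400) (C.node (nat_lit 1) (nat_lit 7) (nat_lit 8) (C.cons (nat_lit 418) (C.miq (nat_lit 2555578134) (nat_lit 359061834098519505378083011)) (C.cons (nat_lit 394) (C.miq (nat_lit 2822047510) (nat_lit 359071942914271795133153475)) (C.cons (nat_lit 386) (C.node (nat_lit 1) (nat_lit 2) (nat_lit 7) (C.cons (nat_lit 142) (C.node (nat_lit 1) (nat_lit 3) (nat_lit 4) (C.cons (nat_lit 1050) (C.miq (nat_lit 1412893202) (nat_lit 184968694433851984051045383)) (C.cons (nat_lit 26) (C.node (nat_lit 1) (nat_lit 4) (nat_lit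 10) (C.cons (nat_lit 1042) (C.node (nat_lit 1) (nat_lit 4) (nat_lit 7) (C.cons (nat_lit 178) (C.miq (nat_lit 1094080288) (nat_lit 128167110877265656057495717)) (C.cons (nat_lit 146) (C.node (nat_lit 4) (nat_lit 5) (nat_lit 7) (C.cons (nat_lit 176) (C.node (nat_lit 1) (nat_lit 7) (nat_lit 9) C.nil) C.nil)) C.nil))) C.nil)) C.nil))) (C.cons (nat_lit 134) (C.node (nat_lit 2) (nat_lit 3) (nat_lit 7) (C.cons (nat_lit 140) (C.node (nat_lit 1) (nat_lit 2) (nat_lit 3) (C.cons (nat_lit 30) (C.node (nat_lit 1) (nat_lit 4) (nat_lit 10) (C.cons (nat_lit 1042) (C.node (nat_lit 1) (nat_lit 3) (nat_lit 7) (C.cons (nat_lit 1162) (C.miq (nat_lit 2268334610) (nat_lit 184970760689865102290977799)) (C.cons (nat_lit 650) (C.miq (nat_lit 1900581664) (nat_lit 408652363408069120828441165)) (C.cons (nat_lit 138) (C.node (nat_lit 1) (nat_lit 4) (nat_lit 7) C.nil) C.nil)))) C.nil)) (C.cons (nat_lit 14) (C.node (nat_lit 1) (nat_lit 2) (nat_lit 4) (C.cons (nat_lit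 54) (C.node (nat_lit 1) (nat_lit 4) (nat_lit 7) C.nil) (C.cons (nat_lit 22) (C.node (nat_lit 1) (nat_lit 4) (nat_lit 7) (C.cons (nat_lit 178) (C.node (nat_lit 1) (nat_lit 7) (nat_lit 9) C.nil) C.nil)) C.nil))) C.nil))) C.nil)) C.nil))) C.nil)))) C.nil))) C.nil))) C.nil)) (C.cons (nat_lit 82) (C.node (nat_lit 4) (nat_lit 6) (nat_lit 8) (C.cons (nat_lit 336) (C.node (nat_lit 1) (nat_lit 6) (nat_lit 8) (C.cons (nat_lit 834) (C.node (nat_lit 5) (nat_lit 6) (nat_lit 9) (C.cons (nat_lit 608) (C.node (nat_lit 3) (nat_lit 6) (nat_lit 7) (C.cons (nat_lit 456) (C.miq (nat_lit 372545648) (nat_lit 106395267581942596237854593)) (C.cons (nat_lit 200) (C.node (nat_lit 3) (nat_lit 6) (nat_lit 8) (C.cons (nat_lit 328) (C.node (nat_lit 5) (nat_lit 6) (nat_lit 7) (C.cons (nat_lit 480) (C.node (nat_lit 2) (nat_lit 7) (nat_lit 8) (C.cons (nat_lit 390) (C.miq (nat_lit 1479173904) (nat_lit 1629652978923641599190040771)) (C.cons (nat_lit 388) (C.node (nat_lit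 2) (nat_lit 8) (nat_lit 9) (C.cons (nat_lit 804) (C.miq (nat_lit 408381728) (nat_lit 580287990764869960962736717)) (C.cons (nat_lit 772) (C.node (nat_lit 3) (nat_lit 7) (nat_lit 8) (C.cons (nat_lit 394) (C.miq (nat_lit 2822047510) (nat_lit 359071942914271795133153475)) C.nil)) C.nil))) C.nil))) C.nil)) C.nil)) C.nil))) C.nil)) (C.cons (nat_lit 322) (C.node (nat_lit 1) (nat_lit 6) (nat_lit 9) (C.cons (nat_lit 578) (C.node (nat_lit 2) (nat_lit 3) (nat_lit 7) (C.cons (nat_lit 142) (C.node (nat_lit 2) (nat_lit 7) (nat_lit 8) (C.cons (nat_lit 388) (C.node (nat_lit 1) (nat_lit 7) (nat_lit 10) (C.cons (nat_lit 1186) (C.miq (nat_lit 2534607446) (nat_lit 171678332058255281833510001)) (C.cons (nat_lit 1154) (C.node (nat_lit 2) (nat_lit 3) (nat_lit 4) (C.cons (nat_lit 1052) (C.miq (nat_lit 1681328673) (nat_lit 184969247836174203927528455)) (C.cons (nat_lit 60) (C.miq (nat_lit 323383888) (nat_lit 106389069281151445202174117)) (C.cons (nat_lit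 28) (C.node (nat_lit 2) (nat_lit 3) (nat_lit 5) (C.cons (nat_lit 1068) (C.miq (nat_lit 1985155234) (nat_lit 128148756371701663181571079)) (C.cons (nat_lit 44) (C.node (nat_lit 2) (nat_lit 3) (nat_lit 10)
  (C.cons (nat_lit 1036) (C.node (nat_lit 1) (nat_lit 2) (nat_lit 4) C.nil) C.nil)) C.nil))) C.nil)))) C.nil))) C.nil)) (C.cons (nat_lit 140) (C.node (nat_lit 1) (nat_lit 2) (nat_lit 3) (C.cons (nat_lit 30) (C.node (nat_lit 1) (nat_lit 4) (nat_lit 10) (C.cons (nat_lit 1298) (C.miq (nat_lit 2525233825) (nat_lit 406208870777413093456741383)) (C.cons (nat_lit 1042) (C.node (nat_lit 3) (nat_lit 8) (nat_lit 9) (C.cons (nat_lit 792) (C.miq (nat_lit 2216334112) (nat_lit 1259736140456737506563916365)) (C.cons (nat_lit 778) (C.miq (nat_lit 363345417) (nat_lit 1586125026931124054280700493)) (C.cons (nat_lit 776) (C.node (nat_lit 1) (nat_lit 3) (nat_lit 9) (C.cons (nat_lit 1546) (C.miq (nat_lit 2316568882) (nat_lit 1259705814327272087872209485))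 (C.cons (nat_lit 650) (C.miq (nat_lit 1932038464) (nat_lit 324027556035045078599008787)) (C.cons (nat_lit 522) (C.node (nat_lit 1) (nat_lit 3) (nat_lit 7) (C.cons (nat_lit 1162) (C.miq (nat_lit 2268334610) (nat_lit 184970760689865102290977799)) (C.cons (nat_lit 394) (C.miq (nat_lit 2822047510) (nat_lit 359071942914271795133153475)) (C.cons (nat_lit 138) (C.node (nat_lit 1) (nat_lit 3) (nat_lit 8) C.nil) C.nil)))) C.nil)))) C.nil)))) C.nil))) (C.cons (nat_lit 14) (C.node (nat_lit 1) (nat_lit 2) (nat_lit 4) (C.cons (nat_lit 54) (C.node (nat_lit 1) (nat_lit 2) (nat_lit 9) (C.cons (nat_lit 774) (C.miq (nat_lit 1645521040) (nat_lit 65302968586633376139773825)) (C.cons (nat_lit 518) (C.node (nat_lit 1) (nat_lit 2) (nat_lit 7) (C.cons (nat_lit 390) (C.node (nat_lit 2) (nat_lit 3) (nat_lit 4) C.nil) C.nil)) C.nil))) (C.cons (nat_lit 22) (C.node (nat_lit 1) (nat_lit 2) (nat_lit 7) (C.cons (nat_lit 390) (C.node (nat_lit 1) (nat_lit 2) (nat_lit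 5) (C.cons (nat_lit 550) (C.node (nat_lit 2) (nat_lit 5) (nat_lit 8) C.nil) C.nil)) C.nil)) C.nil))) C.nil))) C.nil))) C.nil)) C.nil))) C.nil)) C.nil))) C.nil))))) C.nil))) (C.cons (nat_lit 104) (C.node (nat_lit 3) (nat_lit 6) (nat_lit 7) (C.cons (nat_lit 456) (C.node (nat_lit 5) (nat_lit 6) (nat_lit 7) (C.cons (nat_lit 224) (C.node (nat_lit 1) (nat_lit 3) (nat_lit 6) (C.cons (nat_lit 90) (C.node (nat_lit 4) (nat_lit 6) (nat_lit 8) (C.cons (nat_lit 336) (C.node (nat_lit 1) (nat_lit 4) (nat_lit 10) (C.cons (nat_lit 1298) (C.miq (nat_lit 2525233825) (nat_lit 406208870777413093456741383)) (C.cons (nat_lit 1042) (C.node (nat_lit 2) (nat_lit 3) (nat_lit 7) (C.cons (nat_lit 142) (C.miq (nat_lit 1377175348) (nat_lit 84645781367479831038132377)) (C.cons (nat_lit 140) (C.node (nat_lit 4) (nat_lit 8) (nat_lit 10) (C.cons (nat_lit 1304) (C.miq (nat_lit 394485924) (nat_lit 551271834006133408701875313)) (C.cons (nat_lit 1296) (C.node (nat_lit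 3) (nat_lit 4) (nat_lit 8) (C.cons (nat_lit 792) (C.node (nat_lit 1) (nat_lit 2) (nat_lit 7) (C.cons (nat_lit 390) (C.miq (nat_lit 1215402848) (nat_lit 471490865093738657980023373)) (C.cons (nat_lit 134) (C.node (nat_lit 2) (nat_lit 7) (nat_lit 8) (C.cons (nat_lit 388) (C.node (nat_lit 3) (nat_lit 4) (nat_lit 5) (C.cons (nat_lit 60) (C.miq (nat_lit 321348688) (nat_lit 169253211886475463434241137)) (C.cons (nat_lit 56) (C.node (nat_lit 1) (nat_lit 5) (nat_lit 6) (C.cons (nat_lit 866) (C.node (nat_lit 1) (nat_lit 2) (nat_lit 9) (C.cons (nat_lit 518) (C.node (nat_lit 2) (nat_lit 5) (nat_lit 8) (C.cons (nat_lit 292) (C.node (nat_lit 2) (nat_lit 8) (nat_lit 9) (C.cons (nat_lit 772) (C.node (nat_lit 1) (nat_lit 8) (nat_lit 10) (C.cons (nat_lit 1282) (C.node (nat_lit 3) (nat_lit 8) (nat_lit 10) C.nil) C.nil)) C.nil)) C.nil)) C.nil)) (C.cons (nat_lit 610) (C.miq (nat_lit 2299933703) (nat_lit 737453161903151870321557657)) (C.cons (nat_lit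 354) (C.miq (nat_lit 2439528563) (nat_lit 427974350114349155992731801)) C.nil)))) C.nil))) C.nil)) C.nil))) (C.cons (nat_lit 280) (C.miq (nat_lit 2553546593) (nat_lit 338509025253914697461792963)) C.nil))) C.nil))) C.nil))) C.nil))) C.nil)) (C.cons (nat_lit 74) (C.node (nat_lit 3) (nat_lit 4) (nat_lit 6) (C.cons (nat_lit 88) (C.node (nat_lit 1) (nat_lit 4) (nat_lit 6) (C.cons (nat_lit 338)
  (C.node (nat_lit 2) (nat_lit 7) (nat_lit 8) (C.cons (nat_lit 390) (C.miq (nat_lit 1384384278) (nat_lit 334893426027709135370453187)) (C.cons (nat_lit 388) (C.node (nat_lit 4) (nat_lit 7) (nat_lit 8) (C.cons (nat_lit 432) (C.miq (nat_lit 662922320) (nat_lit 551281038936204869099914353)) (C.cons (nat_lit 400) (C.node (nat_lit 1) (nat_lit 2) (nat_lit 7) (C.cons (nat_lit 142) (C.node (nat_lit 1) (nat_lit 7) (nat_lit 10) C.nil) (C.cons (nat_lit 134) (C.node (nat_lit 2) (nat_lit 3) (nat_lit 7) C.nil) C.nil))) C.nil))) C.nil))) (C.cons (nat_lit 82)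 (C.node (nat_lit 4) (nat_lit 6) (nat_lit 8) (C.cons (nat_lit 336) (C.node (nat_lit 6) (nat_lit 8) (nat_lit 9) (C.cons (nat_lit 866) (C.miq (nat_lit 372545648) (nat_lit 106395267590949795492595585)) (C.cons (nat_lit 864) (C.node (nat_lit 1) (nat_lit 5) (nat_lit 6) C.nil) (C.cons (nat_lit 834) (C.miq (nat_lit 372545648) (nat_lit 106395267581942596237854593)) C.nil)))) C.nil)) C.nil))) C.nil)) C.nil))) C.nil)) (C.cons (nat_lit 200) (C.node (nat_lit 5) (nat_lit 6) (nat_lit 7) (C.cons (nat_lit 480) (C.node (nat_lit 2) (nat_lit 7) (nat_lit 8) (C.cons (nat_lit 398) (C.miq (nat_lit 1176701575) (nat_lit 712060130424902699625351041)) (C.cons (nat_lit 396) (C.miq (nat_lit 1176701575) (nat_lit 712060130424902699625219969)) (C.cons (nat_lit 390) (C.miq (nat_lit 1479173904) (nat_lit 1629652978923641599190040771)) (C.cons (nat_lit 388) (C.node (nat_lit 1) (nat_lit 2) (nat_lit 7) (C.cons (nat_lit 142) (C.node (nat_lit 2) (nat_lit 3) (nat_lit 8)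 (C.cons (nat_lit 268) (C.node (nat_lit 3) (nat_lit 7) (nat_lit 8) (C.cons (nat_lit 392) (C.node (nat_lit 1) (nat_lit 7) (nat_lit 10) (C.cons (nat_lit 1186) (C.miq (nat_lit 1463197984) (nat_lit 241806138204767575004218375)) (C.cons (nat_lit 1154) (C.node (nat_lit 4) (nat_lit 5) (nat_lit 7) (C.cons (nat_lit 178) (C.miq (nat_lit 1361463088) (nat_lit 84645781371139005768073369)) (C.cons (nat_lit 176) (C.node (nat_lit 2) (nat_lit 3) (nat_lit 4) (C.cons (nat_lit 1052) (C.miq (nat_lit 1131848208) (nat_lit 241806138167049928099169287)) (C.cons (nat_lit 60) (C.miq (nat_lit 307655488) (nat_lit 120896179116526995298648217)) (C.cons (nat_lit 28) (C.node (nat_lit 2) (nat_lit 3) (nat_lit 5) (C.cons (nat_lit 1068) (C.miq (nat_lit 1400283664) (nat_lit 241806138171553527726539783)) (C.cons (nat_lit 44) (C.node (nat_lit 2) (nat_lit 3) (nat_lit 10) (C.cons (nat_lit 1036) (C.node (nat_lit 3) (nat_lit 7) (nat_lit 9) C.nil) C.nil)) C.nil))) C.nil))))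 C.nil))) C.nil))) C.nil)) C.nil)) (C.cons (nat_lit 134) (C.node (nat_lit 2) (nat_lit 3) (nat_lit 7) (C.cons (nat_lit 140) (C.node (nat_lit 1) (nat_lit 5) (nat_lit 6) (C.cons (nat_lit 610) (C.node (nat_lit 6) (nat_lit 8) (nat_lit 9) (C.cons (nat_lit 832) (C.node (nat_lit 1) (nat_lit 2) (nat_lit 9) (C.cons (nat_lit 774) (C.miq (nat_lit 1176570505) (nat_lit 84634602914170020187998081)) (C.cons (nat_lit 518) (C.node (nat_lit 4) (nat_lit 5) (nat_lit 7) (C.cons (nat_lit 178) (C.miq (nat_lit 911673620) (nat_lit 580287215932656662644654611)) (C.cons (nat_lit 176) (C.node (nat_lit 1) (nat_lit 7) (nat_lit 9) (C.cons (nat_lit 650) (C.miq (nat_lit 390435590) (nat_lit 212782196949019089641210445)) (C.cons (nat_lit 642) (C.node (nat_lit 4) (nat_lit 5) (nat_lit 8) (C.cons (nat_lit 816) (C.miq (nat_lit 1164023920) (nat_lit 737454545415712578935654273)) (C.cons (nat_lit 306) (C.miq (nat_lit 2190557285) (nat_lit 626229219342035565945160817)) (C.cons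 (nat_lit 304) (C.node (nat_lit 3) (nat_lit 4) (nat_lit 6) (C.cons (nat_lit 346) (C.miq (nat_lit 2222274080) (nat_lit 212776423032555878970884685)) (C.cons (nat_lit 344) (C.miq (nat_lit 2222274080) (nat_lit 212776423031992929017463373)) (C.cons (nat_lit 90) (C.node (nat_lit 1) (nat_lit 6) (nat_lit 8) C.nil) C.nil)))) C.nil)))) C.nil))) C.nil))) C.nil))) C.nil)) (C.cons (nat_lit 98) (C.node (nat_lit 5) (nat_lit 6) (nat_lit 9) (C.cons (nat_lit 608) (C.node (nat_lit 1) (nat_lit 6) (nat_lit 9) (C.cons (nat_lit 578) (C.node (nat_lit 6) (nat_lit 8) (nat_lit 9) (C.cons (nat_lit 832)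
  (C.node (nat_lit 1) (nat_lit 3) (nat_lit 6) (C.cons (nat_lit 346) (C.miq (nat_lit 1196974595) (nat_lit 580290776048144911115551309)) C.nil)) C.nil)) C.nil)) C.nil)) C.nil))) C.nil)) C.nil))) C.nil))))) (C.cons (nat_lit 224) (C.node (nat_lit 6) (nat_lit 7) (nat_lit 8) (C.cons (nat_lit 448) (C.node (nat_lit 2) (nat_lit 8) (nat_lit 9) (C.cons (nat_lit 806) (C.miq (nat_lit 1176570505) (nat_lit 84634602914170020190095233)) (C.cons (nat_lit 804) (C.node (nat_lit 1) (nat_lit 2) (nat_lit 9) (C.cons (nat_lit 518) (C.node (nat_lit 4) (nat_lit 8) (nat_lit 9) (C.cons (nat_lit 792) (C.miq (nat_lit 692541488) (nat_lit 793058381606278183582761257)) (C.cons (nat_lit 784) (C.node (nat_lit 5) (nat_lit 7) (nat_lit 8) (C.cons (nat_lit 434) (C.miq (nat_lit 371552408) (nat_lit 120900587903281057663027073)) (C.cons (nat_lit 432) (C.miq (nat_lit 1466139680) (nat_lit 241790642727513827188736277)) (C.cons (nat_lit 418) (C.miq (nat_lit 371552408) (nat_lit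 120900292755375878310201217)) (C.cons (nat_lit 416) (C.node (nat_lit 6) (nat_lit 8) (nat_lit 9) (C.cons (nat_lit 834) (C.miq (nat_lit 408381728) (nat_lit 502916738309533693781541453)) (C.cons (nat_lit 832) (C.node (nat_lit 1) (nat_lit 6) (nat_lit 9) (C.cons (nat_lit 610) (C.node (nat_lit 4) (nat_lit 5) (nat_lit 9) (C.cons (nat_lit 568) (C.miq (nat_lit 895961360) (nat_lit 270802206105400619410063891)) C.nil)) (C.cons (nat_lit 578) (C.node (nat_lit 5) (nat_lit 6) (nat_lit 9) C.nil) C.nil))) C.nil))) C.nil))))) C.nil))) C.nil)) (C.cons (nat_lit 774) (C.miq (nat_lit 1176570505) (nat_lit 84634602914170020187998081)) (C.cons (nat_lit 772) (C.node (nat_lit 1) (nat_lit 2) (nat_lit 9) (C.cons (nat_lit 550) (C.node (nat_lit 2) (nat_lit 5) (nat_lit 8) (C.cons (nat_lit 292) (C.node (nat_lit 4) (nat_lit 5) (nat_lit 7) (C.cons (nat_lit 434) (C.miq (nat_lit 844564756) (nat_lit 199475582754048214930948627)) (C.cons (nat_lit 432) (C.miq (nat_lit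 1466139680) (nat_lit 241790642727513827188736277)) (C.cons (nat_lit 178) (C.miq (nat_lit 844564756) (nat_lit 199475582754048214914171411)) (C.cons (nat_lit 176) (C.node (nat_lit 1) (nat_lit 2) (nat_lit 4) (C.cons (nat_lit 30) (C.node (nat_lit 2) (nat_lit 4) (nat_lit 5) (C.cons (nat_lit 52) (C.node (nat_lit 1) (nat_lit 4) (nat_lit 7) (C.cons (nat_lit 402) (C.miq (nat_lit 2166977584) (nat_lit 664944637096564711662354585)) (C.cons (nat_lit 146) (C.node (nat_lit 4) (nat_lit 7) (nat_lit 8) (C.cons (nat_lit 400) (C.node (nat_lit 1) (nat_lit 2) (nat_lit 7) (C.cons (nat_lit 134) (C.node (nat_lit 1) (nat_lit 2) (nat_lit 8) C.nil) C.nil)) C.nil)) C.nil))) C.nil)) (C.cons (nat_lit 22) (C.node (nat_lit 1) (nat_lit 4) (nat_lit 7) (C.cons (nat_lit 402) (C.node (nat_lit 5) (nat_lit 7) (nat_lit 8) (C.cons (nat_lit 416) (C.node (nat_lit 1) (nat_lit 6) (nat_lit 9) (C.cons (nat_lit 834) (C.miq (nat_lit 914819348) (nat_lit 541601589704989491141411347))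 (C.cons (nat_lit 578) (C.node (nat_lit 1) (nat_lit 4) (nat_lit 6) (C.cons (nat_lit 90) (C.miq (nat_lit 2171171888) (nat_lit 698794560045774586252165273)) (C.cons (nat_lit 82) (C.node (nat_lit 1) (nat_lit 7) (nat_lit 9) (C.cons (nat_lit 650) (C.miq (nat_lit 826447744) (nat_lit 26607233346741718226372481)) C.nil)) C.nil))) C.nil))) C.nil)) (C.cons (nat_lit 146) (C.node (nat_lit 4) (nat_lit 7) (nat_lit 8) (C.cons (nat_lit 400) (C.node (nat_lit 1) (nat_lit 5) (nat_lit 6) (C.cons (nat_lit 98) (C.node (nat_lit 1) (nat_lit 6) (nat_lit 9) C.nil) C.nil)) C.nil)) C.nil))) C.nil))) C.nil))))) C.nil)) (C.cons (nat_lit 518) (C.node (nat_lit 2) (nat_lit 5) (nat_lit 8) (C.cons (nat_lit 294) (C.node (nat_lit 2) (nat_lit 3) (nat_lit 8) (C.cons (nat_lit 396) (C.miq (nat_lit 1176701575) (nat_lit 712060130424902699625219969)) (C.cons (nat_lit 268) (C.node (nat_lit 2) (nat_lit 7) (nat_lit 8) (C.cons (nat_lit 388) (C.node (nat_lit 5) (nat_lit 7) (nat_lit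 8) (C.cons (nat_lit 432) (C.miq (nat_lit 846726725) (nat_lit 469068696859255683366782065)) (C.cons (nat_lit 416) (C.node (nat_lit 1) (nat_lit 2) (nat_lit 4) (C.cons (nat_lit 30)
  (C.node (nat_lit 1) (nat_lit 2) (nat_lit 7) C.nil) (C.cons (nat_lit 22) (C.node (nat_lit 1) (nat_lit 5) (nat_lit 6) (C.cons (nat_lit 98) (C.node (nat_lit 1) (nat_lit 6) (nat_lit 9) C.nil) C.nil)) C.nil))) C.nil))) C.nil)) C.nil))) (C.cons (nat_lit 292) (C.node (nat_lit 4) (nat_lit 8) (nat_lit 10) (C.cons (nat_lit 1306) (C.miq (nat_lit 422068330) (nat_lit 933314824339719730005017713)) (C.cons (nat_lit 1304) (C.node (nat_lit 1) (nat_lit 4) (nat_lit 10) (C.cons (nat_lit 1042) (C.node (nat_lit 1) (nat_lit 8) (nat_lit 10) (C.cons (nat_lit 1282) (C.node (nat_lit 3) (nat_lit 7) (nat_lit 8) (C.cons (nat_lit 398) (C.miq (nat_lit 1176701575) (nat_lit 712060130424902699625351041)) (C.cons (nat_lit 396) (C.miq (nat_lit 1176701575) (nat_lit 712060130424902699625219969))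 (C.cons (nat_lit 394) (C.miq (nat_lit 413561664) (nat_lit 1629635602066521242402357401)) (C.cons (nat_lit 392) (C.node (nat_lit 3) (nat_lit 4) (nat_lit 6) (C.cons (nat_lit 88) (C.node (nat_lit 1) (nat_lit 3) (nat_lit 6) C.nil) C.nil)) C.nil))))) C.nil)) C.nil)) (C.cons (nat_lit 1298) (C.miq (nat_lit 422068330) (nat_lit 933314676765767140328604785)) (C.cons (nat_lit 1296) (C.node (nat_lit 1) (nat_lit 4) (nat_lit 10) (C.cons (nat_lit 1050) (C.node (nat_lit 1) (nat_lit 8) (nat_lit 10) (C.cons (nat_lit 1282) (C.node (nat_lit 3) (nat_lit 8) (nat_lit 10) (C.cons (nat_lit 1288) (C.node (nat_lit 3) (nat_lit 4) (nat_lit 6) (C.cons (nat_lit 344) (C.miq (nat_lit 913671200) (nat_lit 270804862373495129403359509)) (C.cons (nat_lit 88) (C.node (nat_lit 2) (nat_lit 3) (nat_lit 7) (C.cons (nat_lit 398) (C.miq (nat_lit 1176701575) (nat_lit 712060130424902699625351041)) (C.cons (nat_lit 396) (C.miq (nat_lit 1176701575) (nat_lit 712060130424902699625219969))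 (C.cons (nat_lit 142) (C.miq (nat_lit 1412893202) (nat_lit 184968694433851984051045383)) (C.cons (nat_lit 140) (C.node (nat_lit 1) (nat_lit 3) (nat_lit 6) C.nil) C.nil))))) C.nil))) C.nil)) C.nil)) (C.cons (nat_lit 1042) (C.node (nat_lit 1) (nat_lit 8) (nat_lit 10) (C.cons (nat_lit 1290) (C.node (nat_lit 2) (nat_lit 3) (nat_lit 8) (C.cons (nat_lit 396) (C.miq (nat_lit 1176701575) (nat_lit 712060130424902699625219969)) (C.cons (nat_lit 268) (C.node (nat_lit 3) (nat_lit 7) (nat_lit 8) (C.cons (nat_lit 392) (C.node (nat_lit 1) (nat_lit 2) (nat_lit 8) (C.cons (nat_lit 390) (C.node (nat_lit 2) (nat_lit 3) (nat_lit 7) C.nil) C.nil)) C.nil)) C.nil))) (C.cons (nat_lit 1282) (C.node (nat_lit 3) (nat_lit 8) (nat_lit 10) (C.cons (nat_lit 1288) (C.node (nat_lit 2) (nat_lit 3) (nat_lit 7) (C.cons (nat_lit 398) (C.miq (nat_lit 1176701575) (nat_lit 712060130424902699625351041)) (C.cons (nat_lit 396) (C.miq (nat_lit 1176701575) (nat_lit 712060130424902699625219969))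 (C.cons (nat_lit 142) (C.node (nat_lit 1) (nat_lit 7) (nat_lit 10) (C.cons (nat_lit 1186) (C.miq (nat_lit 1463197984) (nat_lit 241806138204767575004218375)) C.nil)) (C.cons (nat_lit 140) (C.node (nat_lit 1) (nat_lit 3) (nat_lit 6) (C.cons (nat_lit 74) (C.node (nat_lit 1) (nat_lit 4) (nat_lit 6) C.nil) C.nil)) C.nil))))) C.nil)) C.nil))) C.nil))) C.nil))))) C.nil))) C.nil))) C.nil))))) C.nil)) C.nil))) C.nil))) C.nil)))) (List.cons (C.node (nat_lit 6) (nat_lit 7) (nat_lit 9) (C.cons (nat_lit 736) (C.node (nat_lit 1) (nat_lit 6) (nat_lit 9) (C.cons (nat_lit 834) (C.node (nat_lit 5) (nat_lit 6) (nat_lit 8) (C.cons (nat_lit 352) (C.node (nat_lit 2) (nat_lit 8) (nat_lit 9) (C.cons (nat_lit 804) (C.miq (nat_lit 2164430453) (nat_lit 1246417351439668909707690720)) (C.cons (nat_lit 772) (C.node (nat_lit 4) (nat_lit 6) (nat_lit 8) (C.cons (nat_lit 344) (C.miq (nat_lit 913671200) (nat_lit 889774882016185266852921621)) (C.cons (nat_lit 336)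 (C.node (nat_lit 5) (nat_lit 7) (nat_lit 8) (C.cons (nat_lit 434) (C.miq (nat_lit 1382117528) (nat_lit 84632813306397933122488193)) (C.cons (nat_lit 432) (C.miq (nat_lit 643041656) (nat_lit 1374553766815733711593539457)) (C.cons (nat_lit 418) (C.miq (nat_lit 1382117528) (nat_lit 84632518158492753769662337)) (C.cons (nat_lit 416)
  (C.node (nat_lit 1) (nat_lit 2) (nat_lit 9) (C.cons (nat_lit 550) (C.node (nat_lit 2) (nat_lit 5) (nat_lit 8) (C.cons (nat_lit 292) (C.node (nat_lit 4) (nat_lit 5) (nat_lit 7) (C.cons (nat_lit 178) (C.miq (nat_lit 844564756) (nat_lit 199475582754048214914171411)) (C.cons (nat_lit 176) (C.node (nat_lit 1) (nat_lit 2) (nat_lit 4) (C.cons (nat_lit 30) (C.node (nat_lit 1) (nat_lit 4) (nat_lit 6) (C.cons (nat_lit 82) (C.node (nat_lit 2) (nat_lit 4) (nat_lit 5) (C.cons (nat_lit 52) (C.node (nat_lit 3) (nat_lit 4) (nat_lit 6) (C.cons (nat_lit 88) (C.node (nat_lit 1) (nat_lit 5) (nat_lit 6) (C.cons (nat_lit 106)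 (C.node (nat_lit 1) (nat_lit 4) (nat_lit 5) (C.cons (nat_lit 306) (C.miq (nat_lit 2184265829) (nat_lit 36273419370096528655516785)) (C.cons (nat_lit 50) (C.node (nat_lit 3) (nat_lit 6) (nat_lit 7) (C.cons (nat_lit 456) (C.miq (nat_lit 372545648) (nat_lit 106395267581942596237854593)) C.nil)) C.nil))) C.nil)) C.nil)) C.nil)) C.nil)) (C.cons (nat_lit 22) (C.node (nat_lit 1) (nat_lit 4) (nat_lit 6) (C.cons (nat_lit 90) (C.node (nat_lit 1) (nat_lit 5) (nat_lit 6) (C.cons (nat_lit 98) (C.node (nat_lit 3) (nat_lit 5) (nat_lit 6) (C.cons (nat_lit 104) (C.node (nat_lit 3) (nat_lit 6) (nat_lit 7) (C.cons (nat_lit 456) (C.node (nat_lit 1) (nat_lit 4) (nat_lit 5) (C.cons (nat_lit 306) (C.miq (nat_lit 1947742358) (nat_lit 369939712560442091134648909)) (C.cons (nat_lit 50) (C.node (nat_lit 1) (nat_lit 5) (nat_lit 8) C.nil) C.nil))) C.nil)) C.nil)) C.nil)) (C.cons (nat_lit 82) (C.node (nat_lit 3) (nat_lit 4) (nat_lit 6) (C.cons (nat_lit 88) (C.node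 (nat_lit 1) (nat_lit 4) (nat_lit 7) (C.cons (nat_lit 402) (C.miq (nat_lit 907282823) (nat_lit 99134739726035213198952321)) (C.cons (nat_lit 146) (C.node (nat_lit 6) (nat_lit 7) (nat_lit 8) (C.cons (nat_lit 456) (C.miq (nat_lit 372545648) (nat_lit 106395267581942596237854593)) C.nil)) C.nil))) C.nil)) C.nil))) C.nil))) C.nil))) C.nil)) (C.cons (nat_lit 518) (C.node (nat_lit 1) (nat_lit 4) (nat_lit 6) (C.cons (nat_lit 90) (C.node (nat_lit 1) (nat_lit 5) (nat_lit 6) (C.cons (nat_lit 98) (C.node (nat_lit 3) (nat_lit 5) (nat_lit 6) (C.cons (nat_lit 104) (C.node (nat_lit 1) (nat_lit 4) (nat_lit 10) (C.cons (nat_lit 1298) (C.miq (nat_lit 672754240) (nat_lit 1008254999070293990139167857)) (C.cons (nat_lit 1042) (C.node (nat_lit 1) (nat_lit 7) (nat_lit 9) (C.cons (nat_lit 650) (C.miq (nat_lit 1900712800) (nat_lit 1259736140416768317575987789)) (C.cons (nat_lit 642) (C.node (nat_lit 3) (nat_lit 7) (nat_lit 9) (C.cons (nat_lit 648) (C.node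 (nat_lit 3) (nat_lit 6) (nat_lit 7) (C.cons (nat_lit 456) (C.node (nat_lit 2) (nat_lit 3) (nat_lit 7) (C.cons (nat_lit 142) (C.miq (nat_lit 560296768) (nat_lit 118477774074975654511706265)) (C.cons (nat_lit 140) (C.node (nat_lit 1) (nat_lit 2) (nat_lit 7) (C.cons (nat_lit 390) (C.miq (nat_lit 1099368803) (nat_lit 471483892151015450362774093)) (C.cons (nat_lit 134) (C.node (nat_lit 1) (nat_lit 7) (nat_lit 8) (C.cons (nat_lit 386) (C.miq (nat_lit 1099368803) (nat_lit 466648188872556933663949389)) C.nil)) C.nil))) C.nil))) C.nil)) C.nil)) C.nil))) C.nil))) C.nil)) C.nil)) (C.cons (nat_lit 82) (C.node (nat_lit 3) (nat_lit 4) (nat_lit 6) (C.cons (nat_lit 88) (C.node (nat_lit 3) (nat_lit 6) (nat_lit 7) (C.cons (nat_lit 456) (C.miq (nat_lit 372545648) (nat_lit 106395267581942596237854593)) (C.cons (nat_lit 200) (C.node (nat_lit 3) (nat_lit 6) (nat_lit 8) (C.cons (nat_lit 328) (C.node (nat_lit 6) (nat_lit 7) (nat_lit 8) (C.cons (nat_lit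 448) (C.node (nat_lit 3) (nat_lit 8) (nat_lit 9) (C.cons (nat_lit 792) (C.miq (nat_lit 946293008) (nat_lit 541601589762128911400108563)) C.nil)) C.nil)) C.nil)) C.nil))) C.nil)) C.nil))) C.nil))) C.nil))))) C.nil))) C.nil))) C.nil)) (C.cons (nat_lit 578) (C.node (nat_lit 6) (nat_lit 8) (nat_lit 9) (C.cons (nat_lit 832) (C.node (nat_lit 1) (nat_lit 7) (nat_lit 9) (C.cons (nat_lit 650) (C.node (nat_lit 1) (nat_lit 7) (nat_lit 10) (C.cons (nat_lit 1186) (C.miq (nat_lit 358786960) (nat_lit 120911600888435395531704193)) (C.cons (nat_lit 1154)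
  (C.node (nat_lit 2) (nat_lit 3) (nat_lit 7) (C.cons (nat_lit 396) (C.miq (nat_lit 1176701575) (nat_lit 712060130424902699625219969)) (C.cons (nat_lit 140) (C.node (nat_lit 3) (nat_lit 5) (nat_lit 6) (C.cons (nat_lit 106) (C.miq (nat_lit 1517379731) (nat_lit 1395102351510199180018188877)) (C.cons (nat_lit 104) (C.node (nat_lit 3) (nat_lit 5) (nat_lit 9) (C.cons (nat_lit 1576) (C.miq (nat_lit 374567081) (nat_lit 125740275678461849317672833)) (C.cons (nat_lit 568) (C.miq (nat_lit 1985155145) (nat_lit 125740275678461849251611155)) (C.cons (nat_lit 552) (C.node (nat_lit 3) (nat_lit 9) (nat_lit 10) (C.cons (nat_lit 1560) (C.miq (nat_lit 1990398025) (nat_lit 1324994688736173990625149459)) (C.cons (nat_lit 1544) (C.node (nat_lit 1) (nat_lit 4) (nat_lit 7) (C.cons (nat_lit 434) (C.miq (nat_lit 643041656) (nat_lit 1374553766815733711593670529)) (C.cons (nat_lit 402) (C.miq (nat_lit 2184659089) (nat_lit 169257030415136814025802259)) (C.cons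 (nat_lit 178) (C.miq (nat_lit 928420160) (nat_lit 889780268551585986950267411)) (C.cons (nat_lit 146) (C.node (nat_lit 4) (nat_lit 5) (nat_lit 7) (C.cons (nat_lit 432) (C.miq (nat_lit 643041656) (nat_lit 1374553766815733711593539457)) (C.cons (nat_lit 176) (C.node (nat_lit 4) (nat_lit 7) (nat_lit 8) (C.cons (nat_lit 400) (C.node (nat_lit 3) (nat_lit 4) (nat_lit 6) (C.cons (nat_lit 346) (C.miq (nat_lit 2222274080) (nat_lit 212776423032555878970884685)) (C.cons (nat_lit 344) (C.miq (nat_lit 2222274080) (nat_lit 212776423031992929017463373)) (C.cons (nat_lit 90) (C.miq (nat_lit 2803108150) (nat_lit 176524144152463889263100493)) (C.cons (nat_lit 88) (C.node (nat_lit 3) (nat_lit 5) (nat_lit 7) (C.cons (nat_lit 168) (C.node (nat_lit 3) (nat_lit 7) (nat_lit 10) (C.cons (nat_lit 1160) (C.node (nat_lit 5) (nat_lit 7) (nat_lit 10) C.nil) C.nil)) C.nil)) C.nil))))) C.nil)) C.nil))) C.nil))))) C.nil))) C.nil)))) C.nil))) C.nil))) C.nil))) (C.cons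 (nat_lit 642) (C.node (nat_lit 3) (nat_lit 7) (nat_lit 9) (C.cons (nat_lit 648) (C.node (nat_lit 3) (nat_lit 5) (nat_lit 6) (C.cons (nat_lit 106) (C.node (nat_lit 5) (nat_lit 6) (nat_lit 8) (C.cons (nat_lit 352) (C.node (nat_lit 3) (nat_lit 4) (nat_lit 6) (C.cons (nat_lit 344) (C.miq (nat_lit 913671200) (nat_lit 889774882016185266852921621)) (C.cons (nat_lit 88) (C.node (nat_lit 2) (nat_lit 3) (nat_lit 8) (C.cons (nat_lit 398) (C.miq (nat_lit 1176701575) (nat_lit 712060130424902699625351041)) (C.cons (nat_lit 396) (C.miq (nat_lit 1176701575) (nat_lit 712060130424902699625219969)) (C.cons (nat_lit 270) (C.miq (nat_lit 1108740149) (nat_lit 84645781399005578186588457)) (C.cons (nat_lit 268) (C.node (nat_lit 5) (nat_lit 7) (nat_lit 8) (C.cons (nat_lit 434) (C.miq (nat_lit 643041656) (nat_lit 1374553766815733711593670529)) (C.cons (nat_lit 432) (C.miq (nat_lit 643041656) (nat_lit 1374553766815733711593539457)) (C.cons (nat_lit 418) (C.miq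 (nat_lit 2555578134) (nat_lit 359061834098519505378083011)) (C.cons (nat_lit 416) (C.node (nat_lit 1) (nat_lit 4) (nat_lit 6) (C.cons (nat_lit 338) (C.node (nat_lit 4) (nat_lit 7) (nat_lit 8) (C.cons (nat_lit 400) (C.node (nat_lit 3) (nat_lit 6) (nat_lit 7) (C.cons (nat_lit 456) (C.node (nat_lit 1) (nat_lit 7) (nat_lit 8) (C.cons (nat_lit 390) (C.miq (nat_lit 1384384278) (nat_lit 334893426027709135370453187)) (C.cons (nat_lit 386) (C.node (nat_lit 2) (nat_lit 7) (nat_lit 8) (C.cons (nat_lit 388) (C.node (nat_lit 1) (nat_lit 2) (nat_lit 7) C.nil) C.nil)) C.nil))) C.nil)) C.nil)) (C.cons (nat_lit 82) (C.node (nat_lit 1) (nat_lit 6) (nat_lit 8) (C.cons (nat_lit 322) (C.node (nat_lit 4) (nat_lit 6) (nat_lit 8) (C.cons (nat_lit 336) (C.node (nat_lit 3) (nat_lit 6) (nat_lit 7) (C.cons (nat_lit 456) (C.node (nat_lit 2) (nat_lit 7) (nat_lit 8) C.nil) C.nil)) C.nil)) C.nil)) C.nil))) C.nil))))) C.nil))))) C.nil))) C.nil)) (C.cons (nat_lit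 104) (C.node (nat_lit 1) (nat_lit 5) (nat_lit 6) (C.cons (nat_lit 354) (C.node (nat_lit 4) (nat_lit 6) (nat_lit 8) (C.cons (nat_lit 344) (C.miq (nat_lit 913671200) (nat_lit 889774882016185266852921621))
  (C.cons (nat_lit 336) (C.node (nat_lit 5) (nat_lit 7) (nat_lit 8) (C.cons (nat_lit 432) (C.miq (nat_lit 643041656) (nat_lit 1374553766815733711593539457)) (C.cons (nat_lit 416) (C.node (nat_lit 1) (nat_lit 3) (nat_lit 6) (C.cons (nat_lit 90) (C.node (nat_lit 1) (nat_lit 4) (nat_lit 10) (C.cons (nat_lit 1298) (C.miq (nat_lit 2525233825) (nat_lit 406208870777413093456741383)) (C.cons (nat_lit 1042) (C.node (nat_lit 1) (nat_lit 4) (nat_lit 8) (C.cons (nat_lit 402) (C.miq (nat_lit 2171171888) (nat_lit 698794560045774586252165273)) (C.cons (nat_lit 274) (C.node (nat_lit 3) (nat_lit 6) (nat_lit 7) (C.cons (nat_lit 456) (C.miq (nat_lit 2249814848) (nat_lit 698794560060974234990739609)) C.nil)) C.nil))) C.nil))) (C.cons (nat_lit 74) (C.node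 (nat_lit 1) (nat_lit 4) (nat_lit 6) (C.cons (nat_lit 82) (C.node (nat_lit 3) (nat_lit 4) (nat_lit 6) (C.cons (nat_lit 88) (C.node (nat_lit 3) (nat_lit 6) (nat_lit 7) (C.cons (nat_lit 456) (C.node (nat_lit 4) (nat_lit 7) (nat_lit 8) (C.cons (nat_lit 402) (C.miq (nat_lit 409552688) (nat_lit 1005836077253629512308818073)) (C.cons (nat_lit 400) (C.node (nat_lit 1) (nat_lit 4) (nat_lit 7) C.nil) C.nil))) C.nil)) C.nil)) C.nil)) C.nil))) C.nil))) C.nil))) (C.cons (nat_lit 98) (C.node (nat_lit 5) (nat_lit 6) (nat_lit 8) (C.cons (nat_lit 352) (C.node (nat_lit 3) (nat_lit 6) (nat_lit 7) (C.cons (nat_lit 456) (C.node (nat_lit 1) (nat_lit 3) (nat_lit 6) (C.cons (nat_lit 90) (C.miq (nat_lit 2249814848) (nat_lit 698794560060974234990739609)) (C.cons (nat_lit 74) (C.node (nat_lit 3) (nat_lit 4) (nat_lit 6) (C.cons (nat_lit 88) (C.node (nat_lit 1) (nat_lit 4) (nat_lit 6) (C.cons (nat_lit 338) (C.node (nat_lit 2) (nat_lit 7) (nat_lit 8) (C.cons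 (nat_lit 390) (C.miq (nat_lit 1384384278) (nat_lit 334893426027709135370453187)) (C.cons (nat_lit 388) (C.node (nat_lit 1) (nat_lit 2) (nat_lit 7) (C.cons (nat_lit 142) (C.node (nat_lit 1) (nat_lit 4) (nat_lit 7) C.nil) C.nil)) C.nil))) C.nil)) C.nil)) C.nil))) (C.cons (nat_lit 200) (C.node (nat_lit 6) (nat_lit 7) (nat_lit 8) (C.cons (nat_lit 448) (C.node (nat_lit 3) (nat_lit 4) (nat_lit 6) (C.cons (nat_lit 346) (C.miq (nat_lit 913671200) (nat_lit 889774882016748216806342933)) (C.cons (nat_lit 344) (C.miq (nat_lit 913671200) (nat_lit 889774882016185266852921621)) (C.cons (nat_lit 90) (C.node (nat_lit 1) (nat_lit 6) (nat_lit 8) C.nil) C.nil)))) C.nil)) C.nil))) C.nil)) C.nil))) C.nil))) C.nil)) C.nil))) C.nil)) C.nil))) (C.cons (nat_lit 704) (C.ref (nat_lit 110) (nat_lit 11649936536080)) C.nil))) List.nil)))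

theorem ok11_109 : okL par11 (nat_lit 112) c11_109 (nat_lit 109) = true := by decide +kernel

noncomputable def c11_112 : List C :=
  (List.cons (C.node (nat_lit 5) (nat_lit 8) (nat_lit 10) (C.cons (nat_lit 1314) (C.node (nat_lit 3) (nat_lit 5) (nat_lit 6) (C.cons (nat_lit 232) (C.miq (nat_lit 2187658355) (nat_lit 120898060722422288304570521)) (C.cons (nat_lit 106) (C.miq (nat_lit 2585135187) (nat_lit 1317740009052924289210777897)) (C.cons (nat_lit 104) (C.node (nat_lit 2) (nat_lit 3) (nat_lit 8) (C.cons (nat_lit 398) (C.miq (nat_lit 1176701575) (nat_lit 712060130424902699625351041)) (C.cons (nat_lit 396) (C.miq (nat_lit 1176701575) (nat_lit 712060130424902699625219969)) (C.cons (nat_lit 270) (C.miq (nat_lit 1703086610) (nat_lit 359061833877846971938374663)) (C.cons (nat_lit 268) (C.node (nat_lit 1) (nat_lit 4) (nat_lit 10) (C.cons (nat_lit 1050) (C.node (nat_lit 1) (nat_lit 7) (nat_lit 10) (C.cons (nat_lit 1154) (C.node (nat_lit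 1) (nat_lit 9) (nat_lit 10) (C.cons (nat_lit 1538) (C.node (nat_lit 3) (nat_lit 8) (nat_lit 10) (C.cons (nat_lit 1288) (C.node (nat_lit 4) (nat_lit 8) (nat_lit 10) (C.cons (nat_lit 1296) (C.node (nat_lit 2) (nat_lit 3) (nat_lit 7) (C.cons (nat_lit 142) (C.miq (nat_lit 1412893202) (nat_lit 184968694433851984051045383)) (C.cons (nat_lit 140) (C.node (nat_lit 1) (nat_lit 2) (nat_lit 3) (C.cons (nat_lit 46) (C.miq (nat_lit 2555578898) (nat_lit 359061834098523353664848903)) (C.cons (nat_lit 14) (C.node (nat_lit 3) (nat_lit 4) (nat_lit 6) (C.cons (nat_lit 344) (C.miq (nat_lit 1966481540) (nat_lit 125732195996109707379474709)) (C.cons (nat_lit 88) (C.node (nat_lit 1) (nat_lit 2) (nat_lit 4) (C.cons (nat_lit 54) (C.node (nat_lit 2) (nat_lit 3) (nat_lit 4) (C.cons (nat_lit 28) (C.node (nat_lit 1) (nat_lit 2) (nat_lit 7) (C.cons (nat_lit 390) (C.miq (nat_lit 1901756992) (nat_lit 1588563963278763804532474133)) (C.cons (nat_lit 134) (C.node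 (nat_lit 2) (nat_lit 3) (nat_lit 10) C.nil) C.nil))) C.nil)) (C.cons (nat_lit 22) (C.node (nat_lit 1) (nat_lit 2) (nat_lit 5) (C.cons (nat_lit 550) (C.node (nat_lit 1) (nat_lit 5) (nat_lit 6) (C.cons (nat_lit 98) (C.node (nat_lit 2) (nat_lit 5) (nat_lit 8) (C.cons (nat_lit 292) (C.node (nat_lit 2) (nat_lit 8) (nat_lit 9) (C.cons (nat_lit 772) (C.node (nat_lit 1) (nat_lit 2) (nat_lit 7) (C.cons (nat_lit 134) (C.node (nat_lit 1) (nat_lit 2) (nat_lit 8) C.nil) C.nil)) C.nil)) C.nil)) C.nil)) (C.cons (nat_lit 38) (C.node (nat_lit 1) (nat_lit 2) (nat_lit 9) (C.cons (nat_lit 774) (C.miq (nat_lit 1645521040) (nat_lit 26617342358965242549176193)) (C.cons (nat_lit 518) (C.node (nat_lit 1) (nat_lit 2) (nat_lit 7) (C.cons (nat_lit 390) (C.node (nat_lit 1) (nat_lit 4) (nat_lit 6) (C.cons (nat_lit 338) (C.miq (nat_lit 1384384278) (nat_lit 334893426027709135370453187)) C.nil)) (C.cons (nat_lit 134) (C.node (nat_lit 1) (nat_lit 2) (nat_lit 8)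 C.nil) C.nil))) C.nil))) C.nil))) C.nil))) C.nil))) C.nil))) C.nil))) C.nil)) C.nil)) C.nil)) C.nil)) (C.cons (nat_lit 1042) (C.node (nat_lit 1) (nat_lit 5) (nat_lit 6) (C.cons (nat_lit 610) (C.node (nat_lit 6) (nat_lit 7) (nat_lit 9) (C.cons (nat_lit 704) (C.node (nat_lit 6) (nat_lit 8) (nat_lit 9) (C.cons (nat_lit 832) (C.node (nat_lit 1) (nat_lit 2) (nat_lit 9) (C.cons (nat_lit 774) (C.miq (nat_lit 1176570505) (nat_lit 84634602914170020187998081)) (C.cons (nat_lit 518) (C.node (nat_lit 1) (nat_lit 8) (nat_lit 9) (C.cons (nat_lit 778) (C.miq (nat_lit 911315112) (nat_lit 737459101697606787348432769)) (C.cons (nat_lit 770) (C.node (nat_lit 4) (nat_lit 5) (nat_lit 7) (C.cons (nat_lit 432) (C.miq (nat_lit 2016560390) (nat_lit 323996030488062710829089905)) (C.cons (nat_lit 178) (C.miq (nat_lit 1936015505) (nat_lit 125731568803434755682075155)) (C.cons (nat_lit 176) (C.node (nat_lit 1) (nat_lit 2) (nat_lit 8) (C.cons (nat_lit 390) (C.miq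 (nat_lit 357010018) (nat_lit 212778138852226484262929732)) (C.cons (nat_lit 262) (C.node (nat_lit 2) (nat_lit 7) (nat_lit 8) (C.cons (nat_lit 388) (C.node (nat_lit 1) (nat_lit 7) (nat_lit 9) (C.cons (nat_lit 650) (C.miq (nat_lit 390435590) (nat_lit 212782196949019089641210445)) (C.cons (nat_lit 642) (C.node (nat_lit 1) (nat_lit 2) (nat_lit 7)
  (C.cons (nat_lit 142) (C.node (nat_lit 1) (nat_lit 5) (nat_lit 7) (C.cons (nat_lit 162) (C.node (nat_lit 1) (nat_lit 7) (nat_lit 10) (C.cons (nat_lit 1154) (C.node (nat_lit 1) (nat_lit 3) (nat_lit 9) C.nil) C.nil)) C.nil)) (C.cons (nat_lit 134) (C.node (nat_lit 2) (nat_lit 3) (nat_lit 7) (C.cons (nat_lit 140) (C.node (nat_lit 1) (nat_lit 3) (nat_lit 9) C.nil) C.nil)) C.nil))) C.nil))) C.nil)) C.nil))) C.nil)))) C.nil))) C.nil))) C.nil)) C.nil)) (C.cons (nat_lit 98) (C.node (nat_lit 1) (nat_lit 6) (nat_lit 9) (C.cons (nat_lit 834) (C.node (nat_lit 2) (nat_lit 5) (nat_lit 8) (C.cons (nat_lit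 804) (C.miq (nat_lit 1904543378) (nat_lit 1588531570741286100153926221)) (C.cons (nat_lit 292) (C.node (nat_lit 2) (nat_lit 8) (nat_lit 9) (C.cons (nat_lit 772) (C.node (nat_lit 4) (nat_lit 6) (nat_lit 8) (C.cons (nat_lit 344) (C.miq (nat_lit 1966481540) (nat_lit 125732195996109707379474709)) (C.cons (nat_lit 336) (C.node (nat_lit 1) (nat_lit 2) (nat_lit 8) (C.cons (nat_lit 390) (C.node (nat_lit 2) (nat_lit 3) (nat_lit 7) (C.cons (nat_lit 140) (C.node (nat_lit 1) (nat_lit 3) (nat_lit 6) (C.cons (nat_lit 90) (C.miq (nat_lit 1199648918) (nat_lit 471482729899745934118617677)) (C.cons (nat_lit 74) (C.node (nat_lit 1) (nat_lit 4) (nat_lit 6) (C.cons (nat_lit 82) (C.node (nat_lit 3) (nat_lit 4) (nat_lit 6) (C.cons (nat_lit 88) (C.node (nat_lit 1) (nat_lit 2) (nat_lit 9) (C.cons (nat_lit 550) (C.node (nat_lit 1) (nat_lit 2) (nat_lit 3) C.nil) C.nil)) C.nil)) C.nil)) C.nil))) C.nil)) (C.cons (nat_lit 262) (C.node (nat_lit 2) (nat_lit 7)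 (nat_lit 8) (C.cons (nat_lit 388) (C.node (nat_lit 4) (nat_lit 5) (nat_lit 7) (C.cons (nat_lit 432) (C.miq (nat_lit 846726725) (nat_lit 469068696859255683366782065)) (C.cons (nat_lit 178) (C.miq (nat_lit 1921074853) (nat_lit 316741848319156448837895281)) (C.cons (nat_lit 176) (C.node (nat_lit 1) (nat_lit 2) (nat_lit 7) (C.cons (nat_lit 142) (C.node (nat_lit 1) (nat_lit 7) (nat_lit 10) (C.cons (nat_lit 1154) (C.node (nat_lit 1) (nat_lit 3) (nat_lit 6) (C.cons (nat_lit 90) (C.miq (nat_lit 391393798) (nat_lit 212772604499111524044964429)) (C.cons (nat_lit 74) (C.node (nat_lit 1) (nat_lit 4) (nat_lit 6) C.nil) C.nil))) C.nil)) (C.cons (nat_lit 134) (C.node (nat_lit 2) (nat_lit 3) (nat_lit 7) (C.cons (nat_lit 140) (C.node (nat_lit 1) (nat_lit 2) (nat_lit 9) (C.cons (nat_lit 550) (C.node (nat_lit 1) (nat_lit 4) (nat_lit 5) (C.cons (nat_lit 58) (C.miq (nat_lit 2048133203) (nat_lit 1259703526931005951457231145)) (C.cons (nat_lit 50) (C.node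 (nat_lit 1) (nat_lit 2) (nat_lit 3) (C.cons (nat_lit 14) (C.node (nat_lit 1) (nat_lit 2) (nat_lit 4) C.nil) C.nil)) C.nil))) (C.cons (nat_lit 518) (C.node (nat_lit 1) (nat_lit 7) (nat_lit 8) (C.cons (nat_lit 402) (C.node (nat_lit 1) (nat_lit 3) (nat_lit 8) C.nil) (C.cons (nat_lit 394) (C.miq (nat_lit 1956720728) (nat_lit 1259707972098679196507832617)) C.nil))) C.nil))) C.nil)) C.nil))) C.nil)))) C.nil)) C.nil))) C.nil))) C.nil)) C.nil))) (C.cons (nat_lit 578) (C.node (nat_lit 6) (nat_lit 8) (nat_lit 9) (C.cons (nat_lit 864) (C.miq (nat_lit 358787216) (nat_lit 120911600924464742306482049)) (C.cons (nat_lit 832) (C.node (nat_lit 1) (nat_lit 8) (nat_lit 9) (C.cons (nat_lit 778) (C.miq (nat_lit 911315112) (nat_lit 118489082054916649898870657)) (C.cons (nat_lit 774) (C.miq (nat_lit 1176570505) (nat_lit 84634602914170020187998081)) (C.cons (nat_lit 770) (C.node (nat_lit 1) (nat_lit 2) (nat_lit 8) (C.cons (nat_lit 390) (C.node (nat_lit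 2) (nat_lit 3) (nat_lit 7) (C.cons (nat_lit 140) (C.node (nat_lit 1) (nat_lit 4) (nat_lit 7) (C.cons (nat_lit 178) (C.node (nat_lit 4) (nat_lit 7) (nat_lit 8) (C.cons (nat_lit 400) (C.node (nat_lit 1) (nat_lit 2) (nat_lit 9) (C.cons (nat_lit 550) (C.miq (nat_lit 844564756) (nat_lit 199475582754048214914171411)) (C.cons (nat_lit 518) (C.node (nat_lit 1) (nat_lit 2) (nat_lit 5) (C.cons (nat_lit 46) (C.miq (nat_lit 2555578898) (nat_lit 359061834098523353664848903)) (C.cons (nat_lit 38) (C.node (nat_lit 1) (nat_lit 7) (nat_lit 9) (C.cons (nat_lit 650)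
  (C.miq (nat_lit 1969427465) (nat_lit 125740275673676774648906259)) (C.cons (nat_lit 642) (C.node (nat_lit 1) (nat_lit 4) (nat_lit 6) (C.cons (nat_lit 346) (C.miq (nat_lit 829580368) (nat_lit 471491934879355899518190705)) (C.cons (nat_lit 338) (C.miq (nat_lit 1384384278) (nat_lit 334893426027709135370453187)) (C.cons (nat_lit 90) (C.miq (nat_lit 829580368) (nat_lit 471491934807298305480262769)) C.nil)))) C.nil))) C.nil))) C.nil))) C.nil)) (C.cons (nat_lit 146) (C.miq (nat_lit 1416734248) (nat_lit 176527409005486672936568132)) C.nil))) C.nil)) (C.cons (nat_lit 262) (C.node (nat_lit 2) (nat_lit 7) (nat_lit 8) (C.cons (nat_lit 388) (C.node (nat_lit 4) (nat_lit 5) (nat_lit 7) (C.cons (nat_lit 432) (C.miq (nat_lit 846726725) (nat_lit 469068696859255683366782065)) (C.cons (nat_lit 178) (C.miq (nat_lit 1921074853) (nat_lit 316741848319156448837895281)) (C.cons (nat_lit 176) (C.node (nat_lit 1) (nat_lit 2) (nat_lit 7) (C.cons (nat_lit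 142) (C.node (nat_lit 1) (nat_lit 7) (nat_lit 10) (C.cons (nat_lit 1154) (C.node (nat_lit 2) (nat_lit 3) (nat_lit 4) (C.cons (nat_lit 1052) (C.miq (nat_lit 1681328673) (nat_lit 184969247836174203927528455)) (C.cons (nat_lit 60) (C.miq (nat_lit 307655488) (nat_lit 120896179116526995298648217)) (C.cons (nat_lit 28) (C.node (nat_lit 2) (nat_lit 3) (nat_lit 5) (C.cons (nat_lit 1068) (C.miq (nat_lit 1985155234) (nat_lit 125730904732472404832158727)) (C.cons (nat_lit 44) (C.node (nat_lit 2) (nat_lit 3) (nat_lit 10) (C.cons (nat_lit 1036) (C.node (nat_lit 3) (nat_lit 4) (nat_lit 6) (C.cons (nat_lit 346) (C.miq (nat_lit 391393798) (nat_lit 212777326865594393690178125)) (C.cons (nat_lit 344) (C.miq (nat_lit 2222274080) (nat_lit 212776423031992929017463373)) (C.cons (nat_lit 90) (C.miq (nat_lit 391393798) (nat_lit 212772604499111524044964429)) C.nil)))) C.nil)) C.nil))) C.nil)))) C.nil)) (C.cons (nat_lit 134) (C.node (nat_lit 2) (nat_lit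 3) (nat_lit 7) (C.cons (nat_lit 140) (C.node (nat_lit 1) (nat_lit 2) (nat_lit 9) (C.cons (nat_lit 550) (C.node (nat_lit 2) (nat_lit 5) (nat_lit 8) (C.cons (nat_lit 292) (C.node (nat_lit 2) (nat_lit 8) (nat_lit 9) (C.cons (nat_lit 772) (C.node (nat_lit 3) (nat_lit 6) (nat_lit 7) C.nil) C.nil)) C.nil)) (C.cons (nat_lit 518) (C.node (nat_lit 3) (nat_lit 6) (nat_lit 7) (C.cons (nat_lit 456) (C.node (nat_lit 5) (nat_lit 6) (nat_lit 8) C.nil) C.nil)) C.nil))) C.nil)) C.nil))) C.nil)))) C.nil)) C.nil))) C.nil)))) C.nil))) C.nil))) C.nil))) C.nil))) C.nil))))) C.nil)))) (C.cons (nat_lit 1312) (C.ref (nat_lit 111) (nat_lit 11649936536080)) C.nil))) List.nil)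

theorem ok11_112 : okL par11 (nat_lit 113) c11_112 (nat_lit 112) = true := by decide +kernel

noncomputable def c11_113 : List C :=
  (List.cons (C.node (nat_lit 2) (nat_lit 7) (nat_lit 10) (C.cons (nat_lit 1164) (C.node (nat_lit 4) (nat_lit 7) (nat_lit 10) (C.cons (nat_lit 1170) (C.miq (nat_lit 2473853601) (nat_lit 184975445787935164203140103)) (C.cons (nat_lit 1168) (C.node (nat_lit 1) (nat_lit 2) (nat_lit 7) (C.cons (nat_lit 390) (C.node (nat_lit 2) (nat_lit 3) (nat_lit 8) (C.cons (nat_lit 268) (C.node (nat_lit 4) (nat_lit 7) (nat_lit 8) (C.cons (nat_lit 432) (C.miq (nat_lit 846726725) (nat_lit 471486548498484941716194417)) (C.cons (nat_lit 400) (C.node (nat_lit 1) (nat_lit 7) (nat_lit 10) (C.cons (nat_lit 1186) (C.miq (nat_lit 1468309792) (nat_lit 483591302127694475076895751)) (C.cons (nat_lit 1154) (C.node (nat_lit 5) (nat_lit 7) (nat_lit 10) (C.cons (nat_lit 1184) (C.node (nat_lit 5) (nat_lit 7) (nat_lit 8) (C.cons (nat_lit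 480) (C.miq (nat_lit 1479173904) (nat_lit 1629652978923641599190040771)) (C.cons (nat_lit 416) (C.node (nat_lit 1) (nat_lit 2) (nat_lit 4) (C.cons (nat_lit 62) (C.miq (nat_lit 2536770081) (nat_lit 184975446162859833109120007)) (C.cons (nat_lit 54) (C.miq (nat_lit 1517371522) (nat_lit 1395101392279507347104465173)) (C.cons (nat_lit 30) (C.miq (nat_lit 2536770081) (nat_lit 184975446162859833107022855)) (C.cons (nat_lit 22) (C.node (nat_lit 4) (nat_lit 6) (nat_lit 8) (C.cons (nat_lit 346) (C.miq (nat_lit 1481048930) (nat_lit 483573371642223386114130509)) (C.cons (nat_lit 344) (C.miq (nat_lit 1481048930) (nat_lit 483573371642223377524195917)) (C.cons (nat_lit 338) (C.miq (nat_lit 1384384278) (nat_lit 334893426027709135370453187)) (C.cons (nat_lit 336) (C.node (nat_lit 1) (nat_lit 2) (nat_lit 3) (C.cons (nat_lit 46) (C.node (nat_lit 1) (nat_lit 2) (nat_lit 9) (C.cons (nat_lit 518) (C.node (nat_lit 2) (nat_lit 3) (nat_lit 4) (C.cons (nat_lit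 28) (C.node (nat_lit 3) (nat_lit 5) (nat_lit 6) (C.cons (nat_lit 232) (C.miq (nat_lit 925390400) (nat_lit 471486548397998375020332145)) (C.cons (nat_lit 104) (C.node (nat_lit 3) (nat_lit 5) (nat_lit 7) (C.cons (nat_lit 680) (C.miq (nat_lit 443883667) (nat_lit 1431369019264157285156913741)) (C.cons (nat_lit 168) (C.node (nat_lit 5) (nat_lit 8) (nat_lit 10) (C.cons (nat_lit 1314) (C.miq (nat_lit 2555578898) (nat_lit 359061834098523353664848903)) (C.cons (nat_lit 1312) (C.node (nat_lit 1) (nat_lit 4) (nat_lit 7) (C.cons (nat_lit 178) (C.miq (nat_lit 363361378) (nat_lit 1586117869614689653260288212)) (C.cons (nat_lit 146) (C.node (nat_lit 1) (nat_lit 8) (nat_lit 10) (C.cons (nat_lit 1306) (C.miq (nat_lit 1092986992) (nat_lit 55631562017892744428849025)) (C.cons (nat_lit 1298) (C.miq (nat_lit 1092986992) (nat_lit 55631562015640944615163777)) (C.cons (nat_lit 1290) (C.miq (nat_lit 2203558176) (nat_lit 203134974253726214935348231)) (C.cons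 (nat_lit 1282) (C.node (nat_lit 1) (nat_lit 3) (nat_lit 7) C.nil) C.nil))))) C.nil))) C.nil))) C.nil))) C.nil))) C.nil)) C.nil)) (C.cons (nat_lit 14) (C.node (nat_lit 1) (nat_lit 2) (nat_lit 5) (C.cons (nat_lit 550) (C.node (nat_lit 2) (nat_lit 5) (nat_lit 8) (C.cons (nat_lit 292) (C.node (nat_lit 2) (nat_lit 5) (nat_lit 10) (C.cons (nat_lit 1060) (C.node (nat_lit 2) (nat_lit 8) (nat_lit 9) (C.cons (nat_lit 772) (C.node (nat_lit 1) (nat_lit 4) (nat_lit 7) (C.cons (nat_lit 178) (C.miq (nat_lit 844564756) (nat_lit 199475582754048214914171411)) (C.cons (nat_lit 146) (C.node (nat_lit 5) (nat_lit 8) (nat_lit 10) (C.cons (nat_lit 1314) (C.miq (nat_lit 1416734248) (nat_lit 176527409005486672936568132)) (C.cons (nat_lit 1312) (C.node (nat_lit 6) (nat_lit 7) (nat_lit 8) (C.cons (nat_lit 456) (C.node (nat_lit 5) (nat_lit 6) (nat_lit 7) C.nil) C.nil)) C.nil))) C.nil))) C.nil)) C.nil)) C.nil)) (C.cons (nat_lit 38) (C.node (nat_lit 1) (nat_lit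 2) (nat_lit 9) (C.cons (nat_lit 518) (C.node (nat_lit 1) (nat_lit 4) (nat_lit 6) (C.cons (nat_lit 90) (C.node (nat_lit 1) (nat_lit 4) (nat_lit 7) (C.cons (nat_lit 178) (C.miq (nat_lit 829580368) (nat_lit 471491934807298305480262769)) (C.cons (nat_lit 146) (C.node (nat_lit 1) (nat_lit 4) (nat_lit 10) (C.cons (nat_lit 1298)
  (C.miq (nat_lit 1092986992) (nat_lit 45960155458723911217514369)) (C.cons (nat_lit 1042) (C.node (nat_lit 2) (nat_lit 3) (nat_lit 4) (C.cons (nat_lit 60) (C.miq (nat_lit 321348688) (nat_lit 1407193251171855738333365361)) (C.cons (nat_lit 28) (C.node (nat_lit 2) (nat_lit 3) (nat_lit 5) (C.cons (nat_lit 44) (C.node (nat_lit 3) (nat_lit 5) (nat_lit 6) (C.cons (nat_lit 232) (C.miq (nat_lit 925390400) (nat_lit 471486548397998375020332145)) C.nil)) C.nil)) C.nil))) C.nil))) C.nil))) (C.cons (nat_lit 82) (C.node (nat_lit 3) (nat_lit 4) (nat_lit 6) (C.cons (nat_lit 88) (C.node (nat_lit 1) (nat_lit 4) (nat_lit 7) (C.cons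 (nat_lit 178) (C.node (nat_lit 4) (nat_lit 7) (nat_lit 9) (C.cons (nat_lit 656) (C.node (nat_lit 2) (nat_lit 3) (nat_lit 4) (C.cons (nat_lit 60) (C.miq (nat_lit 339113248) (nat_lit 106389069291284544327844005)) (C.cons (nat_lit 28) (C.node (nat_lit 2) (nat_lit 3) (nat_lit 5) C.nil) C.nil))) C.nil)) (C.cons (nat_lit 146) (C.node (nat_lit 5) (nat_lit 8) (nat_lit 10) (C.cons (nat_lit 1314) (C.miq (nat_lit 1416734248) (nat_lit 176527409005486672936568132)) (C.cons (nat_lit 1312) (C.node (nat_lit 2) (nat_lit 3) (nat_lit 4) (C.cons (nat_lit 60) (C.node (nat_lit 2) (nat_lit 4) (nat_lit 10) (C.cons (nat_lit 1556) (C.miq (nat_lit 2453185616) (nat_lit 324027556290061536349193329)) C.nil)) (C.cons (nat_lit 28) (C.node (nat_lit 2) (nat_lit 3) (nat_lit 5) (C.cons (nat_lit 44) (C.node (nat_lit 2) (nat_lit 4) (nat_lit 5) C.nil) C.nil)) C.nil))) C.nil))) C.nil))) C.nil)) C.nil))) C.nil)) C.nil))) C.nil))) C.nil))))) C.nil))))) C.nil))) C.nil))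 C.nil))) C.nil))) C.nil)) (C.cons (nat_lit 134) (C.node (nat_lit 2) (nat_lit 7) (nat_lit 8) (C.cons (nat_lit 388) (C.node (nat_lit 1) (nat_lit 7) (nat_lit 10) (C.cons (nat_lit 1186) (C.node (nat_lit 5) (nat_lit 8) (nat_lit 10) (C.cons (nat_lit 1312) (C.node (nat_lit 1) (nat_lit 9) (nat_lit 10) (C.cons (nat_lit 1546) (C.miq (nat_lit 1368422962) (nat_lit 641942654261976216281875596)) (C.cons (nat_lit 1538) (C.node (nat_lit 2) (nat_lit 5) (nat_lit 10) (C.cons (nat_lit 1572) (C.miq (nat_lit 371552410) (nat_lit 120914459854824487296173953)) (C.cons (nat_lit 1060) (C.node (nat_lit 6) (nat_lit 7) (nat_lit 9) (C.cons (nat_lit 736) (C.miq (nat_lit 358786960) (nat_lit 120911600888435395531704193)) (C.cons (nat_lit 704) (C.node (nat_lit 3) (nat_lit 5) (nat_lit 7) (C.cons (nat_lit 680) (C.miq (nat_lit 361801522) (nat_lit 658883590616945137757783180)) (C.cons (nat_lit 232) (C.miq (nat_lit 925390400) (nat_lit 469068696758769116670919793)) (C.cons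 (nat_lit 168) (C.node (nat_lit 1) (nat_lit 2) (nat_lit 4) (C.cons (nat_lit 62) (C.miq (nat_lit 2266106452) (nat_lit 162001170117187251052872817)) (C.cons (nat_lit 54) (C.miq (nat_lit 2266106452) (nat_lit 162001170117187251052348529)) (C.cons (nat_lit 30) (C.miq (nat_lit 2536770081) (nat_lit 184975446162859833107022855)) (C.cons (nat_lit 22) (C.node (nat_lit 1) (nat_lit 4) (nat_lit 7) (C.cons (nat_lit 402) (C.node (nat_lit 1) (nat_lit 3) (nat_lit 7) (C.cons (nat_lit 650) (C.miq (nat_lit 826447744) (nat_lit 26607233346741718226372481)) (C.cons (nat_lit 138) (C.node (nat_lit 1) (nat_lit 7) (nat_lit 9) (C.cons (nat_lit 642) (C.node (nat_lit 3) (nat_lit 7) (nat_lit 9) (C.cons (nat_lit 648) (C.node (nat_lit 3) (nat_lit 5) (nat_lit 6) (C.cons (nat_lit 106) (C.miq (nat_lit 2534607446) (nat_lit 166842628779796765134685297)) (C.cons (nat_lit 104) (C.node (nat_lit 1) (nat_lit 4) (nat_lit 10) C.nil) C.nil))) C.nil)) C.nil)) C.nil))) (C.cons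 (nat_lit 146) (C.node (nat_lit 4) (nat_lit 7) (nat_lit 8) (C.cons (nat_lit 432) (C.miq (nat_lit 1411479562) (nat_lit 26618245991591641084266369)) (C.cons (nat_lit 400) (C.node (nat_lit 1) (nat_lit 7) (nat_lit 8) (C.cons (nat_lit 394) (C.node (nat_lit 1) (nat_lit 7) (nat_lit 9) (C.cons (nat_lit 642) (C.node (nat_lit 2) (nat_lit 3) (nat_lit 8) (C.cons (nat_lit 268) (C.node (nat_lit 3) (nat_lit 6) (nat_lit 7) (C.cons (nat_lit 200) (C.node (nat_lit 1) (nat_lit 3) (nat_lit 10) C.nil) C.nil)) C.nil)) C.nil)) (C.cons (nat_lit 386)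
  (C.node (nat_lit 1) (nat_lit 3) (nat_lit 7) (C.cons (nat_lit 650) (C.node (nat_lit 3) (nat_lit 5) (nat_lit 6) (C.cons (nat_lit 106) (C.node (nat_lit 1) (nat_lit 2) (nat_lit 3) (C.cons (nat_lit 270) (C.miq (nat_lit 1108740149) (nat_lit 84645781399005578186588457)) (C.cons (nat_lit 14) (C.node (nat_lit 1) (nat_lit 6) (nat_lit 9) (C.cons (nat_lit 834) (C.miq (nat_lit 638822551) (nat_lit 128167609268684341088225153)) C.nil)) C.nil))) (C.cons (nat_lit 104) (C.miq (nat_lit 325417226) (nat_lit 125750163261354118369838977)) C.nil))) (C.cons (nat_lit 138) (C.node (nat_lit 1) (nat_lit 7) (nat_lit 9) (C.cons (nat_lit 642) (C.node (nat_lit 3) (nat_lit 7) (nat_lit 9) C.nil) C.nil)) C.nil))) C.nil))) C.nil))) C.nil))) C.nil))))) C.nil)))) C.nil))) C.nil))) C.nil))) C.nil)) (C.cons (nat_lit 1154) (C.node (nat_lit 5) (nat_lit 7) (nat_lit 10) (C.cons (nat_lit 1184) (C.node (nat_lit 2) (nat_lit 3) (nat_lit 8) (C.cons (nat_lit 270) (C.node (nat_lit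 5) (nat_lit 8) (nat_lit 10) (C.cons (nat_lit 1314) (C.miq (nat_lit 1703086610) (nat_lit 359061833877846971938374663)) (C.cons (nat_lit 1312) (C.node (nat_lit 1) (nat_lit 8) (nat_lit 10) (C.cons (nat_lit 1298) (C.miq (nat_lit 2457929380) (nat_lit 326419766682847567926133873)) (C.cons (nat_lit 1282) (C.node (nat_lit 3) (nat_lit 5) (nat_lit 6) (C.cons (nat_lit 232) (C.miq (nat_lit 925390400) (nat_lit 469068696758769116670919793)) (C.cons (nat_lit 106) (C.miq (nat_lit 1108740149) (nat_lit 84645781399005578186588457)) (C.cons (nat_lit 104) (C.node (nat_lit 1) (nat_lit 2) (nat_lit 4) (C.cons (nat_lit 54) (C.node (nat_lit 1) (nat_lit 2) (nat_lit 9) (C.cons (nat_lit 518) (C.node (nat_lit 2) (nat_lit 3) (nat_lit 4) (C.cons (nat_lit 28) (C.node (nat_lit 2) (nat_lit 3) (nat_lit 5) (C.cons (nat_lit 44) (C.node (nat_lit 4) (nat_lit 7) (nat_lit 9) (C.cons (nat_lit 688) (C.miq (nat_lit 2807171393) (nat_lit 199491779370270193576444435)) (C.cons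 (nat_lit 656) (C.node (nat_lit 4) (nat_lit 5) (nat_lit 7) (C.cons (nat_lit 432) (C.miq (nat_lit 846726725) (nat_lit 469068696859255683366782065)) (C.cons (nat_lit 176) (C.node (nat_lit 4) (nat_lit 5) (nat_lit 8) (C.cons (nat_lit 816) (C.miq (nat_lit 713363604) (nat_lit 1586111671748782409204630035)) (C.cons (nat_lit 304) (C.node (nat_lit 1) (nat_lit 5) (nat_lit 10) (C.cons (nat_lit 1578) (C.miq (nat_lit 2435360064) (nat_lit 326445407935483218415125617)) (C.cons (nat_lit 1570) (C.miq (nat_lit 2435360064) (nat_lit 326445407933231418601440369)) (C.cons (nat_lit 1066) (C.miq (nat_lit 1161300498) (nat_lit 359056078493694909406381063)) (C.cons (nat_lit 1058) (C.node (nat_lit 1) (nat_lit 3) (nat_lit 5) C.nil) C.nil))))) C.nil))) C.nil))) C.nil))) C.nil)) C.nil)) C.nil)) (C.cons (nat_lit 22) (C.node (nat_lit 1) (nat_lit 2) (nat_lit 5) (C.cons (nat_lit 550) (C.node (nat_lit 2) (nat_lit 5) (nat_lit 8) (C.cons (nat_lit 292) (C.node (nat_lit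 2) (nat_lit 5) (nat_lit 10) (C.cons (nat_lit 1060) (C.node (nat_lit 2) (nat_lit 8) (nat_lit 9) (C.cons (nat_lit 772) (C.node (nat_lit 1) (nat_lit 5) (nat_lit 10) (C.cons (nat_lit 1066) (C.miq (nat_lit 1161300498) (nat_lit 359056078493694909406381063)) (C.cons (nat_lit 1058) (C.node (nat_lit 2) (nat_lit 4) (nat_lit 10) (C.cons (nat_lit 1556) (C.node (nat_lit 2) (nat_lit 3) (nat_lit 4) (C.cons (nat_lit 60) (C.miq (nat_lit 2453185616) (nat_lit 326445407929290794698605681)) C.nil)) C.nil)) C.nil))) C.nil)) C.nil)) C.nil)) (C.cons (nat_lit 38) (C.node (nat_lit 1) (nat_lit 2) (nat_lit 9) (C.cons (nat_lit 518) (C.node (nat_lit 1) (nat_lit 3) (nat_lit 6) (C.cons (nat_lit 90) (C.node (nat_lit 1) (nat_lit 4) (nat_lit 10) (C.cons (nat_lit 1042) (C.node (nat_lit 4) (nat_lit 6) (nat_lit 8) (C.cons (nat_lit 336) (C.node (nat_lit 2) (nat_lit 3) (nat_lit 4) C.nil) C.nil)) C.nil)) (C.cons (nat_lit 74) (C.node (nat_lit 3) (nat_lit 4) (nat_lit 6)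 (C.cons (nat_lit 344) (C.miq (nat_lit 1209688864) (nat_lit 1549863874790794961430708813)) (C.cons (nat_lit 88) (C.node (nat_lit 1) (nat_lit 4) (nat_lit 6) (C.cons (nat_lit 338)
  (C.node (nat_lit 1) (nat_lit 5) (nat_lit 6) C.nil) (C.cons (nat_lit 82) (C.node (nat_lit 4) (nat_lit 6) (nat_lit 8) (C.cons (nat_lit 336) (C.node (nat_lit 1) (nat_lit 4) (nat_lit 10) C.nil) C.nil)) C.nil))) C.nil))) C.nil))) C.nil)) C.nil))) C.nil))) C.nil)))) C.nil))) C.nil))) (C.cons (nat_lit 268) (C.node (nat_lit 2) (nat_lit 4) (nat_lit 10) (C.cons (nat_lit 1556) (C.node (nat_lit 2) (nat_lit 5) (nat_lit 10) (C.cons (nat_lit 1060) (C.node (nat_lit 2) (nat_lit 3) (nat_lit 4) (C.cons (nat_lit 62) (C.miq (nat_lit 2453185616) (nat_lit 324027556290061544939127921)) (C.cons (nat_lit 60) (C.miq (nat_lit 2453185616) (nat_lit 324027556290061536349193329)) (C.cons (nat_lit 30) (C.miq (nat_lit 2536770081) (nat_lit 184975446162859833107022855)) (C.cons (nat_lit 28)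 (C.node (nat_lit 1) (nat_lit 2) (nat_lit 3) (C.cons (nat_lit 46) (C.node (nat_lit 1) (nat_lit 2) (nat_lit 4) (C.cons (nat_lit 22) (C.node (nat_lit 2) (nat_lit 4) (nat_lit 5) (C.cons (nat_lit 52) (C.node (nat_lit 1) (nat_lit 2) (nat_lit 8) (C.cons (nat_lit 774) (C.miq (nat_lit 1645521040) (nat_lit 26617342358965242549176193)) (C.cons (nat_lit 262) (C.node (nat_lit 1) (nat_lit 2) (nat_lit 9) (C.cons (nat_lit 518) (C.node (nat_lit 1) (nat_lit 8) (nat_lit 10) (C.cons (nat_lit 1314) (C.miq (nat_lit 2555578898) (nat_lit 359061834098523353664848903)) (C.cons (nat_lit 1306) (C.miq (nat_lit 2457929380) (nat_lit 316748360125930534529008753)) (C.cons (nat_lit 1298) (C.miq (nat_lit 2457929380) (nat_lit 316748360125930534528484465)) (C.cons (nat_lit 1290) (C.miq (nat_lit 2016741906) (nat_lit 359054012679035997735748615)) C.nil))))) C.nil)) C.nil))) C.nil)) C.nil)) (C.cons (nat_lit 14) (C.node (nat_lit 2) (nat_lit 3) (nat_lit 5) (C.cons (nat_lit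 44) (C.node (nat_lit 1) (nat_lit 2) (nat_lit 4) (C.cons (nat_lit 54) (C.node (nat_lit 1) (nat_lit 2) (nat_lit 8) (C.cons (nat_lit 774) (C.miq (nat_lit 1645521040) (nat_lit 65302968586633376139773825)) (C.cons (nat_lit 262) (C.node (nat_lit 1) (nat_lit 2) (nat_lit 9) (C.cons (nat_lit 518) (C.node (nat_lit 2) (nat_lit 5) (nat_lit 8) (C.cons (nat_lit 804) (C.node (nat_lit 4) (nat_lit 5) (nat_lit 8) (C.cons (nat_lit 432) (C.miq (nat_lit 844368263) (nat_lit 65284816776825467460126593)) (C.cons (nat_lit 304) (C.node (nat_lit 4) (nat_lit 5) (nat_lit 7) (C.cons (nat_lit 688) (C.miq (nat_lit 1965724688) (nat_lit 1281496805180527537209934355)) (C.cons (nat_lit 176) (C.node (nat_lit 4) (nat_lit 7) (nat_lit 9) (C.cons (nat_lit 656) (C.node (nat_lit 5) (nat_lit 9) (nat_lit 10) (C.cons (nat_lit 1578) (C.miq (nat_lit 2435360064) (nat_lit 316774001378566185017476209)) (C.cons (nat_lit 1576) (C.miq (nat_lit 958945856) (nat_lit 971981838096762994483856497))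 (C.cons (nat_lit 1570) (C.miq (nat_lit 2435360064) (nat_lit 316774001376314385203790961)) C.nil)))) C.nil)) C.nil))) C.nil))) C.nil)) C.nil)) C.nil))) (C.cons (nat_lit 22) (C.node (nat_lit 2) (nat_lit 4) (nat_lit 5) (C.cons (nat_lit 52) (C.node (nat_lit 4) (nat_lit 7) (nat_lit 9) (C.cons (nat_lit 688) (C.node (nat_lit 6) (nat_lit 7) (nat_lit 9) (C.cons (nat_lit 704) (C.node (nat_lit 5) (nat_lit 6) (nat_lit 7) (C.cons (nat_lit 480) (C.miq (nat_lit 1113954951) (nat_lit 120905273759366483051284353)) (C.cons (nat_lit 232) (C.miq (nat_lit 925390400) (nat_lit 469068696758769116670919793)) (C.cons (nat_lit 224) (C.node (nat_lit 5) (nat_lit 8) (nat_lit 10) (C.cons (nat_lit 1314) (C.node (nat_lit 5) (nat_lit 7) (nat_lit 8) C.nil) C.nil)) C.nil)))) C.nil)) (C.cons (nat_lit 656) (C.node (nat_lit 5) (nat_lit 8) (nat_lit 10) (C.cons (nat_lit 1314) (C.node (nat_lit 1) (nat_lit 2) (nat_lit 8) (C.cons (nat_lit 774) (C.miq (nat_lit 1645521040) (nat_lit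 26617342358965242549176193)) C.nil)) (C.cons (nat_lit 1312) (C.node (nat_lit 2) (nat_lit 8) (nat_lit 9) (C.cons (nat_lit 806) (C.miq (nat_lit 1645521040) (nat_lit 26617342358965379988129665)) (C.cons (nat_lit 804) (C.node (nat_lit 1) (nat_lit 2) (nat_lit 5) C.nil) (C.cons (nat_lit 774)
  (C.miq (nat_lit 1645521040) (nat_lit 26617342358965242549176193)) C.nil)))) C.nil))) C.nil))) C.nil)) C.nil))) C.nil)) C.nil))) C.nil))))) C.nil)) (C.cons (nat_lit 1044) (C.node (nat_lit 2) (nat_lit 4) (nat_lit 9) (C.cons (nat_lit 564) (C.node (nat_lit 2) (nat_lit 5) (nat_lit 10) (C.cons (nat_lit 1060) (C.node (nat_lit 2) (nat_lit 9) (nat_lit 10) (C.cons (nat_lit 1540) (C.node (nat_lit 4) (nat_lit 7) (nat_lit 9) (C.cons (nat_lit 656) (C.node (nat_lit 1) (nat_lit 2) (nat_lit 4) (C.cons (nat_lit 30) (C.miq (nat_lit 2536770081) (nat_lit 184975446162859833107022855)) (C.cons (nat_lit 22) (C.node (nat_lit 2) (nat_lit 3) (nat_lit 4) (C.cons (nat_lit 28)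 (C.node (nat_lit 1) (nat_lit 2) (nat_lit 9) (C.cons (nat_lit 774) (C.miq (nat_lit 1645521040) (nat_lit 26617342358965242549176193)) (C.cons (nat_lit 518) (C.node (nat_lit 2) (nat_lit 8) (nat_lit 9) C.nil) C.nil))) C.nil)) C.nil))) C.nil)) C.nil)) C.nil)) (C.cons (nat_lit 532) (C.node (nat_lit 2) (nat_lit 5) (nat_lit 10) (C.cons (nat_lit 1572) (C.node (nat_lit 1) (nat_lit 2) (nat_lit 9) (C.cons (nat_lit 774) (C.miq (nat_lit 1176570505) (nat_lit 84634602914170020187998081)) (C.cons (nat_lit 518) (C.node (nat_lit 2) (nat_lit 8) (nat_lit 9) (C.cons (nat_lit 772) (C.node (nat_lit 4) (nat_lit 9) (nat_lit 10) (C.cons (nat_lit 1560) (C.miq (nat_lit 1922237860) (nat_lit 712060130151309984411419761)) (C.cons (nat_lit 1552) (C.node (nat_lit 6) (nat_lit 7) (nat_lit 9) (C.cons (nat_lit 736) (C.miq (nat_lit 307628695) (nat_lit 120896179366764743558694785)) (C.cons (nat_lit 704) (C.node (nat_lit 3) (nat_lit 6) (nat_lit 7) (C.cons (nat_lit 456)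 (C.node (nat_lit 5) (nat_lit 6) (nat_lit 7) C.nil) (C.cons (nat_lit 232) (C.miq (nat_lit 925390400) (nat_lit 469068696758769116670919793)) C.nil))) C.nil))) C.nil))) C.nil)) C.nil))) (C.cons (nat_lit 1060) (C.node (nat_lit 2) (nat_lit 9) (nat_lit 10) (C.cons (nat_lit 1540) (C.node (nat_lit 4) (nat_lit 7) (nat_lit 9) (C.cons (nat_lit 688) (C.node (nat_lit 6) (nat_lit 7) (nat_lit 9) (C.cons (nat_lit 704) (C.node (nat_lit 1) (nat_lit 2) (nat_lit 4) (C.cons (nat_lit 62) (C.miq (nat_lit 2536770081) (nat_lit 184975446162859833109120007)) (C.cons (nat_lit 54) (C.miq (nat_lit 1965724688) (nat_lit 1281496805180527537209934355)) (C.cons (nat_lit 30) (C.miq (nat_lit 2536770081) (nat_lit 184975446162859833107022855)) (C.cons (nat_lit 22) (C.node (nat_lit 1) (nat_lit 2) (nat_lit 3) (C.cons (nat_lit 46) (C.node (nat_lit 2) (nat_lit 3) (nat_lit 4) (C.cons (nat_lit 28) (C.node (nat_lit 2) (nat_lit 4) (nat_lit 5) C.nil) C.nil)) (C.cons (nat_lit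 14) (C.node (nat_lit 2) (nat_lit 3) (nat_lit 4) (C.cons (nat_lit 60) (C.node (nat_lit 2) (nat_lit 8) (nat_lit 9) (C.cons (nat_lit 806) (C.miq (nat_lit 1645521040) (nat_lit 26617342358965379988129665)) (C.cons (nat_lit 804) (C.miq (nat_lit 2236060208) (nat_lit 831776400316536607229936205)) (C.cons (nat_lit 774) (C.miq (nat_lit 1645521040) (nat_lit 26617342358965242549176193)) C.nil)))) C.nil)) C.nil))) C.nil))))) C.nil)) (C.cons (nat_lit 656) (C.node (nat_lit 4) (nat_lit 9) (nat_lit 10) (C.cons (nat_lit 1560) (C.node (nat_lit 1) (nat_lit 4) (nat_lit 10) (C.cons (nat_lit 1298) (C.miq (nat_lit 2224464130) (nat_lit 715708951788228632338301959)) (C.cons (nat_lit 1042) (C.node (nat_lit 4) (nat_lit 8) (nat_lit 10) (C.cons (nat_lit 1296) (C.node (nat_lit 1) (nat_lit 9) (nat_lit 10) (C.cons (nat_lit 1538) (C.node (nat_lit 5) (nat_lit 9) (nat_lit 10) (C.cons (nat_lit 1568) (C.node (nat_lit 3) (nat_lit 5) (nat_lit 10) C.nil) C.nil)) C.nil))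 C.nil)) C.nil))) (C.cons (nat_lit 1552) (C.node (nat_lit 5) (nat_lit 8) (nat_lit 10) (C.cons (nat_lit 1314) (C.node (nat_lit 1) (nat_lit 2) (nat_lit 8) (C.cons (nat_lit 774) (C.miq (nat_lit 1176570505) (nat_lit 84634602914170020187998081)) (C.cons (nat_lit 262) (C.node (nat_lit 3) (nat_lit 5) (nat_lit 6) (C.cons (nat_lit 232) (C.miq (nat_lit 925390400) (nat_lit 469068696758769116670919793)) (C.cons (nat_lit 106) (C.miq (nat_lit 2585135187) (nat_lit 1317740009052924289210777897)) (C.cons (nat_lit 104)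
  (C.node (nat_lit 4) (nat_lit 5) (nat_lit 7) (C.cons (nat_lit 432) (C.miq (nat_lit 846726725) (nat_lit 469068696859255683366782065)) (C.cons (nat_lit 178) (C.miq (nat_lit 1921074853) (nat_lit 316741848319156448837895281)) (C.cons (nat_lit 176) (C.node (nat_lit 1) (nat_lit 4) (nat_lit 10) (C.cons (nat_lit 1050) (C.node (nat_lit 1) (nat_lit 9) (nat_lit 10) C.nil) C.nil)) C.nil)))) C.nil)))) C.nil))) (C.cons (nat_lit 1312) (C.node (nat_lit 6) (nat_lit 7) (nat_lit 9) (C.cons (nat_lit 736) (C.node (nat_lit 1) (nat_lit 6) (nat_lit 9) (C.cons (nat_lit 834) (C.node (nat_lit 5) (nat_lit 6) (nat_lit 8) (C.cons (nat_lit 352) (C.node (nat_lit 1) (nat_lit 2) (nat_lit 8) (C.cons (nat_lit 262) (C.node (nat_lit 1) (nat_lit 2) (nat_lit 9) C.nil) C.nil)) C.nil)) (C.cons (nat_lit 578) (C.node (nat_lit 6) (nat_lit 8) (nat_lit 9) (C.cons (nat_lit 832) (C.node (nat_lit 1) (nat_lit 7) (nat_lit 9) C.nil) C.nil)) C.nil))) (C.cons (nat_lit 704) (C.node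 (nat_lit 1) (nat_lit 2) (nat_lit 3) (C.cons (nat_lit 14) (C.node (nat_lit 1) (nat_lit 2) (nat_lit 4) C.nil) C.nil)) C.nil))) C.nil))) C.nil))) C.nil))) C.nil)) C.nil))) C.nil))) C.nil))) C.nil))) C.nil)) C.nil))) C.nil)) C.nil))) C.nil))) (C.cons (nat_lit 1156) (C.node (nat_lit 4) (nat_lit 7) (nat_lit 9) (C.cons (nat_lit 688) (C.node (nat_lit 6) (nat_lit 7) (nat_lit 9) (C.cons (nat_lit 704) (C.node (nat_lit 1) (nat_lit 7) (nat_lit 9) (C.cons (nat_lit 650) (C.node (nat_lit 1) (nat_lit 9) (nat_lit 10) (C.cons (nat_lit 1570) (C.miq (nat_lit 832600404) (nat_lit 1246405342557491434718560944)) (C.cons (nat_lit 1538) (C.node (nat_lit 2) (nat_lit 3) (nat_lit 7) (C.cons (nat_lit 396) (C.miq (nat_lit 1176701575) (nat_lit 712060130424902699625219969)) (C.cons (nat_lit 140) (C.node (nat_lit 3) (nat_lit 7) (nat_lit 10) (C.cons (nat_lit 1192) (C.miq (nat_lit 329291604) (nat_lit 1248830167065978931780846256)) (C.cons (nat_lit 1160) (C.node (nat_lit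 3) (nat_lit 5) (nat_lit 7) (C.cons (nat_lit 232) (C.miq (nat_lit 2205287780) (nat_lit 169254724577755566534034545)) (C.cons (nat_lit 168) (C.node (nat_lit 4) (nat_lit 7) (nat_lit 8) (C.cons (nat_lit 402) (C.miq (nat_lit 2184659089) (nat_lit 169257030415136814025802259)) (C.cons (nat_lit 400) (C.node (nat_lit 1) (nat_lit 4) (nat_lit 7) (C.cons (nat_lit 1170) (C.miq (nat_lit 933663040) (nat_lit 1470064661966612251416789523)) (C.cons (nat_lit 146) (C.node (nat_lit 4) (nat_lit 7) (nat_lit 10) (C.cons (nat_lit 1168) (C.node (nat_lit 1) (nat_lit 2) (nat_lit 4) (C.cons (nat_lit 62) (C.miq (nat_lit 2266237234) (nat_lit 176508279952560499046875725)) (C.cons (nat_lit 54) (C.miq (nat_lit 2807171393) (nat_lit 199491779370270193576444435)) (C.cons (nat_lit 30) (C.miq (nat_lit 2266237234) (nat_lit 176508279952560499044778573)) (C.cons (nat_lit 22) (C.node (nat_lit 3) (nat_lit 4) (nat_lit 6) (C.cons (nat_lit 346) (C.miq (nat_lit 2222274080) (nat_lit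 831746442675246016420446797)) (C.cons (nat_lit 344) (C.miq (nat_lit 2222274080) (nat_lit 831746442674683066467025485)) (C.cons (nat_lit 90) (C.miq (nat_lit 2803108150) (nat_lit 176524144152463889263100493)) (C.cons (nat_lit 88) (C.node (nat_lit 1) (nat_lit 2) (nat_lit 7) (C.cons (nat_lit 390) (C.node (nat_lit 2) (nat_lit 3) (nat_lit 8) (C.cons (nat_lit 268) (C.node (nat_lit 1) (nat_lit 4) (nat_lit 6) (C.cons (nat_lit 338) (C.miq (nat_lit 1384384278) (nat_lit 334893426027709135370453187)) (C.cons (nat_lit 82) (C.node (nat_lit 4) (nat_lit 6) (nat_lit 8) (C.cons (nat_lit 336) (C.node (nat_lit 3) (nat_lit 6) (nat_lit 7) (C.cons (nat_lit 200) (C.node (nat_lit 1) (nat_lit 7) (nat_lit 10) C.nil) C.nil)) C.nil)) C.nil))) C.nil)) (C.cons (nat_lit 134) (C.node (nat_lit 2) (nat_lit 7) (nat_lit 8) (C.cons (nat_lit 388) (C.node (nat_lit 1) (nat_lit 7) (nat_lit 8) (C.cons (nat_lit 418) (C.node (nat_lit 1) (nat_lit 7) (nat_lit 10) C.nil) C.nil))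 C.nil)) C.nil))) C.nil))))) C.nil))))) C.nil)) C.nil))) C.nil))) C.nil))) C.nil))) C.nil))) C.nil))) (C.cons (nat_lit 642) (C.node (nat_lit 3) (nat_lit 7) (nat_lit 9) (C.cons (nat_lit 648)
  (C.node (nat_lit 2) (nat_lit 4) (nat_lit 9) (C.cons (nat_lit 1556) (C.node (nat_lit 4) (nat_lit 7) (nat_lit 10) (C.cons (nat_lit 1170) (C.miq (nat_lit 371486874) (nat_lit 256313856503757775509391233)) (C.cons (nat_lit 1168) (C.node (nat_lit 5) (nat_lit 6) (nat_lit 7) (C.cons (nat_lit 480) (C.miq (nat_lit 1113954951) (nat_lit 120905273759366483051284353)) (C.cons (nat_lit 232) (C.miq (nat_lit 2238972770) (nat_lit 831746073726572354273018445)) (C.cons (nat_lit 224) (C.node (nat_lit 2) (nat_lit 4) (nat_lit 5) (C.cons (nat_lit 62) (C.miq (nat_lit 2300774981) (nat_lit 712062786976726588873114737)) (C.cons (nat_lit 60) (C.miq (nat_lit 2300774981) (nat_lit 712062786976726588872983665)) (C.cons (nat_lit 54) (C.miq (nat_lit 2807171393) (nat_lit 199491779370270193576444435))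 (C.cons (nat_lit 52) (C.node (nat_lit 1) (nat_lit 2) (nat_lit 4) (C.cons (nat_lit 30) (C.node (nat_lit 3) (nat_lit 4) (nat_lit 5) (C.cons (nat_lit 56) (C.node (nat_lit 1) (nat_lit 4) (nat_lit 7) (C.cons (nat_lit 402) (C.miq (nat_lit 963715204) (nat_lit 776130929760711153389011221)) (C.cons (nat_lit 146) (C.node (nat_lit 4) (nat_lit 7) (nat_lit 8) (C.cons (nat_lit 400) (C.node (nat_lit 1) (nat_lit 4) (nat_lit 10) (C.cons (nat_lit 1298) (C.miq (nat_lit 2224464130) (nat_lit 715708951788228632338301959)) (C.cons (nat_lit 1042) (C.node (nat_lit 2) (nat_lit 3) (nat_lit 7) (C.cons (nat_lit 396) (C.miq (nat_lit 1647618160) (nat_lit 36288748915880652424415105)) (C.cons (nat_lit 140) (C.node (nat_lit 2) (nat_lit 3) (nat_lit 8) (C.cons (nat_lit 268) (C.node (nat_lit 3) (nat_lit 4) (nat_lit 6) (C.cons (nat_lit 344) (C.miq (nat_lit 2222274080) (nat_lit 831746442674683066467025485)) (C.cons (nat_lit 88) (C.node (nat_lit 3) (nat_lit 4) (nat_lit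 9) (C.cons (nat_lit 792) (C.miq (nat_lit 2216334112) (nat_lit 1259736140456737506563916365)) (C.cons (nat_lit 536) (C.node (nat_lit 4) (nat_lit 8) (nat_lit 9) (C.cons (nat_lit 784) (C.node (nat_lit 1) (nat_lit 2) (nat_lit 7) C.nil) C.nil)) C.nil))) C.nil))) C.nil)) C.nil))) C.nil))) C.nil)) C.nil))) C.nil)) (C.cons (nat_lit 22) (C.node (nat_lit 2) (nat_lit 3) (nat_lit 4) (C.cons (nat_lit 28) (C.node (nat_lit 1) (nat_lit 4) (nat_lit 7) (C.cons (nat_lit 402) (C.node (nat_lit 4) (nat_lit 5) (nat_lit 8) (C.cons (nat_lit 304) (C.node (nat_lit 5) (nat_lit 7) (nat_lit 8) (C.cons (nat_lit 416) (C.node (nat_lit 2) (nat_lit 7) (nat_lit 8) (C.cons (nat_lit 396) (C.miq (nat_lit 1647618160) (nat_lit 33870897276651394075002753)) (C.cons (nat_lit 388) (C.node (nat_lit 4) (nat_lit 6) (nat_lit 8) (C.cons (nat_lit 344) (C.miq (nat_lit 2222274080) (nat_lit 831746442674683066467025485)) (C.cons (nat_lit 336) (C.node (nat_lit 1) (nat_lit 2) (nat_lit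 7) (C.cons (nat_lit 142) (C.node (nat_lit 2) (nat_lit 3) (nat_lit 8) (C.cons (nat_lit 268) (C.node (nat_lit 2) (nat_lit 3) (nat_lit 5) (C.cons (nat_lit 1068) (C.miq (nat_lit 929374474) (nat_lit 270819084756317941221360647)) C.nil)) C.nil)) (C.cons (nat_lit 134) (C.node (nat_lit 2) (nat_lit 3) (nat_lit 7) (C.cons (nat_lit 140) (C.node (nat_lit 1) (nat_lit 4) (nat_lit 5) (C.cons (nat_lit 50) (C.node (nat_lit 3) (nat_lit 4) (nat_lit 5) C.nil) C.nil)) C.nil)) C.nil))) C.nil))) C.nil))) C.nil)) C.nil)) (C.cons (nat_lit 146) (C.node (nat_lit 4) (nat_lit 7) (nat_lit 8) (C.cons (nat_lit 400) (C.node (nat_lit 2) (nat_lit 3) (nat_lit 10) (C.cons (nat_lit 1068) (C.node (nat_lit 5) (nat_lit 7) (nat_lit 10) (C.cons (nat_lit 1186) (C.miq (nat_lit 896936464) (nat_lit 270810249026556719031059463)) (C.cons (nat_lit 1184) (C.node (nat_lit 2) (nat_lit 3) (nat_lit 7) (C.cons (nat_lit 398) (C.miq (nat_lit 1647618160) (nat_lit 33870897276651402664937345))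 (C.cons (nat_lit 396) (C.miq (nat_lit 1647618160) (nat_lit 33870897276651394075002753)) (C.cons (nat_lit 142) (C.miq (nat_lit 929374474) (nat_lit 270819084756317941221360647)) (C.cons (nat_lit 140) (C.node (nat_lit 1) (nat_lit 2) (nat_lit 7) (C.cons (nat_lit 390) (C.node (nat_lit 5) (nat_lit 7) (nat_lit 8) C.nil) C.nil)) C.nil))))) C.nil))) (C.cons (nat_lit 1036)
  (C.node (nat_lit 2) (nat_lit 5) (nat_lit 10) (C.cons (nat_lit 1060) (C.node (nat_lit 2) (nat_lit 3) (nat_lit 5) (C.cons (nat_lit 46) (C.node (nat_lit 3) (nat_lit 4) (nat_lit 5) (C.cons (nat_lit 56) (C.node (nat_lit 3) (nat_lit 5) (nat_lit 6) (C.cons (nat_lit 104) (C.node (nat_lit 1) (nat_lit 2) (nat_lit 9) (C.cons (nat_lit 774) (C.miq (nat_lit 1645521040) (nat_lit 26617342358965242549176193)) (C.cons (nat_lit 518) (C.node (nat_lit 5) (nat_lit 8) (nat_lit 10) (C.cons (nat_lit 1314) (C.miq (nat_lit 2555578898) (nat_lit 359061834098523353664848903)) C.nil)) C.nil))) C.nil))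 C.nil)) (C.cons (nat_lit 44) (C.node (nat_lit 3) (nat_lit 4) (nat_lit 5) (C.cons (nat_lit 58) (C.node (nat_lit 3) (nat_lit 5) (nat_lit 6) (C.cons (nat_lit 104) (C.node (nat_lit 4) (nat_lit 5) (nat_lit 8) (C.cons (nat_lit 304) (C.node (nat_lit 1) (nat_lit 4) (nat_lit 10) (C.cons (nat_lit 1298) (C.miq (nat_lit 2224464130) (nat_lit 715708951788228632338301959)) C.nil)) C.nil)) C.nil)) (C.cons (nat_lit 56) (C.node (nat_lit 1) (nat_lit 4) (nat_lit 5) (C.cons (nat_lit 306) (C.node (nat_lit 5) (nat_lit 7) (nat_lit 8) (C.cons (nat_lit 416) (C.node (nat_lit 5) (nat_lit 8) (nat_lit 10) (C.cons (nat_lit 1312) (C.node (nat_lit 1) (nat_lit 2) (nat_lit 5) C.nil) C.nil)) C.nil)) (C.cons (nat_lit 50) (C.node (nat_lit 4) (nat_lit 5) (nat_lit 8) (C.cons (nat_lit 304) (C.node (nat_lit 5) (nat_lit 8) (nat_lit 10) C.nil) C.nil)) C.nil))) C.nil))) C.nil))) C.nil)) C.nil))) C.nil)) C.nil))) C.nil)) C.nil))) C.nil))))) C.nil)))) C.nil))) (C.cons (nat_lit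 532) (C.node (nat_lit 2) (nat_lit 4) (nat_lit 10) (C.cons (nat_lit 1052) (C.node (nat_lit 4) (nat_lit 9) (nat_lit 10) (C.cons (nat_lit 1552) (C.node (nat_lit 1) (nat_lit 2) (nat_lit 4) (C.cons (nat_lit 54) (C.miq (nat_lit 2807171393) (nat_lit 199491779370270193576444435)) (C.cons (nat_lit 22) (C.node (nat_lit 2) (nat_lit 4) (nat_lit 5) (C.cons (nat_lit 52) (C.node (nat_lit 4) (nat_lit 7) (nat_lit 10) (C.cons (nat_lit 1170) (C.miq (nat_lit 880159248) (nat_lit 256303139186677500587738119)) (C.cons (nat_lit 1168) (C.node (nat_lit 1) (nat_lit 4) (nat_lit 10) (C.cons (nat_lit 1298) (C.miq (nat_lit 2224464130) (nat_lit 715708951788228632338301959)) (C.cons (nat_lit 1042) (C.node (nat_lit 4) (nat_lit 8) (nat_lit 10) (C.cons (nat_lit 1296) (C.node (nat_lit 2) (nat_lit 3) (nat_lit 7) (C.cons (nat_lit 398) (C.miq (nat_lit 1647618160) (nat_lit 1271810936562031677564061569)) (C.cons (nat_lit 396) (C.miq (nat_lit 1647618160) (nat_lit 1271810936562031668974126977))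 (C.cons (nat_lit 142) (C.miq (nat_lit 1681328673) (nat_lit 184969247836174203927528455)) (C.cons (nat_lit 140) (C.node (nat_lit 1) (nat_lit 2) (nat_lit 7) (C.cons (nat_lit 390) (C.node (nat_lit 1) (nat_lit 4) (nat_lit 7) (C.cons (nat_lit 146) (C.node (nat_lit 2) (nat_lit 3) (nat_lit 8) (C.cons (nat_lit 268) (C.node (nat_lit 5) (nat_lit 6) (nat_lit 7) (C.cons (nat_lit 480) (C.miq (nat_lit 1479173904) (nat_lit 1629652978923641599190040771)) (C.cons (nat_lit 232) (C.miq (nat_lit 925390400) (nat_lit 471486548397998375020332145)) C.nil))) C.nil)) C.nil)) (C.cons (nat_lit 134) (C.node (nat_lit 2) (nat_lit 7) (nat_lit 8) (C.cons (nat_lit 388) (C.node (nat_lit 1) (nat_lit 4) (nat_lit 7) (C.cons (nat_lit 402) (C.node (nat_lit 4) (nat_lit 6) (nat_lit 8) (C.cons (nat_lit 344) (C.miq (nat_lit 2222274080) (nat_lit 831746442674683066467025485)) C.nil)) (C.cons (nat_lit 146) (C.node (nat_lit 1) (nat_lit 2) (nat_lit 9) C.nil) C.nil))) C.nil)) C.nil)))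 C.nil))))) C.nil)) C.nil))) C.nil))) C.nil)) C.nil))) C.nil)) (C.cons (nat_lit 1044) (C.node (nat_lit 2) (nat_lit 3) (nat_lit 10) (C.cons (nat_lit 1068) (C.node (nat_lit 2) (nat_lit 9) (nat_lit 10) (C.cons (nat_lit 1540) (C.node (nat_lit 2) (nat_lit 4) (nat_lit 5) (C.cons (nat_lit 54) (C.miq (nat_lit 1965724688) (nat_lit 1291168211737444570607583763)) (C.cons (nat_lit 52) (C.node (nat_lit 5) (nat_lit 7) (nat_lit 10) (C.cons (nat_lit 1186) (C.miq (nat_lit 439776544) (nat_lit 1324986295746561858283045029)) (C.cons (nat_lit 1184)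
  (C.node (nat_lit 2) (nat_lit 3) (nat_lit 7) (C.cons (nat_lit 398) (C.miq (nat_lit 1176701575) (nat_lit 712060130424902699625351041)) (C.cons (nat_lit 396) (C.miq (nat_lit 1176701575) (nat_lit 712060130424902699625219969)) (C.cons (nat_lit 142) (C.miq (nat_lit 329675344) (nat_lit 1324986295452701982633033893)) (C.cons (nat_lit 140) (C.node (nat_lit 1) (nat_lit 2) (nat_lit 4) (C.cons (nat_lit 30) (C.node (nat_lit 2) (nat_lit 3) (nat_lit 8) (C.cons (nat_lit 268) (C.node (nat_lit 3) (nat_lit 4) (nat_lit 5) (C.cons (nat_lit 56) (C.node (nat_lit 3) (nat_lit 4) (nat_lit 6) (C.cons (nat_lit 344) (C.miq (nat_lit 2222274080) (nat_lit 831746442674683066467025485)) (C.cons (nat_lit 88) (C.node (nat_lit 3) (nat_lit 7) (nat_lit 10) (C.cons (nat_lit 1162) (C.miq (nat_lit 2268334610) (nat_lit 184970760689865102290977799)) C.nil)) C.nil))) C.nil)) C.nil)) (C.cons (nat_lit 22) (C.node (nat_lit 2) (nat_lit 3) (nat_lit 4) (C.cons (nat_lit 28) (C.node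 (nat_lit 1) (nat_lit 2) (nat_lit 3) (C.cons (nat_lit 270) (C.node (nat_lit 1) (nat_lit 2) (nat_lit 7) (C.cons (nat_lit 134) (C.node (nat_lit 2) (nat_lit 7) (nat_lit 8) C.nil) C.nil)) (C.cons (nat_lit 14) (C.node (nat_lit 2) (nat_lit 3) (nat_lit 8) (C.cons (nat_lit 268) (C.node (nat_lit 3) (nat_lit 7) (nat_lit 10) (C.cons (nat_lit 1162) (C.node (nat_lit 4) (nat_lit 7) (nat_lit 10) C.nil) C.nil)) C.nil)) C.nil))) C.nil)) C.nil))) C.nil))))) C.nil))) C.nil))) C.nil)) (C.cons (nat_lit 1036) (C.node (nat_lit 2) (nat_lit 5) (nat_lit 10) (C.cons (nat_lit 1572) (C.node (nat_lit 1) (nat_lit 2) (nat_lit 9) (C.cons (nat_lit 774) (C.miq (nat_lit 1176570505) (nat_lit 84634602914170020187998081)) (C.cons (nat_lit 518) (C.node (nat_lit 2) (nat_lit 8) (nat_lit 9) (C.cons (nat_lit 772) (C.node (nat_lit 4) (nat_lit 9) (nat_lit 10) (C.cons (nat_lit 1560) (C.miq (nat_lit 691493440) (nat_lit 783386975265537230833779825)) (C.cons (nat_lit 1552) (C.node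 (nat_lit 2) (nat_lit 4) (nat_lit 5) (C.cons (nat_lit 62) (C.miq (nat_lit 2032339540) (nat_lit 712060130645580043417158769)) (C.cons (nat_lit 60) (C.miq (nat_lit 2032339540) (nat_lit 712060130645580043417027697)) (C.cons (nat_lit 54) (C.miq (nat_lit 1965724688) (nat_lit 1900466824823217674659496467)) (C.cons (nat_lit 52) (C.node (nat_lit 1) (nat_lit 2) (nat_lit 4) (C.cons (nat_lit 30) (C.node (nat_lit 2) (nat_lit 3) (nat_lit 5) (C.cons (nat_lit 44) (C.node (nat_lit 3) (nat_lit 4) (nat_lit 5) (C.cons (nat_lit 56) (C.node (nat_lit 1) (nat_lit 9) (nat_lit 10) (C.cons (nat_lit 1546) (C.miq (nat_lit 2318534932) (nat_lit 1252452259409584312823972371)) (C.cons (nat_lit 1538) (C.node (nat_lit 3) (nat_lit 9) (nat_lit 10) C.nil) C.nil))) C.nil)) C.nil)) (C.cons (nat_lit 22) (C.node (nat_lit 2) (nat_lit 3) (nat_lit 4) (C.cons (nat_lit 28) (C.node (nat_lit 2) (nat_lit 3) (nat_lit 5) (C.cons (nat_lit 46) (C.node (nat_lit 2) (nat_lit 5) (nat_lit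 8) C.nil) C.nil)) C.nil)) C.nil))) C.nil))))) C.nil))) C.nil)) C.nil))) (C.cons (nat_lit 1060) (C.node (nat_lit 2) (nat_lit 9) (nat_lit 10) (C.cons (nat_lit 1540) (C.node (nat_lit 4) (nat_lit 5) (nat_lit 8) (C.cons (nat_lit 306) (C.node (nat_lit 4) (nat_lit 7) (nat_lit 8) (C.cons (nat_lit 400) (C.node (nat_lit 5) (nat_lit 8) (nat_lit 10) (C.cons (nat_lit 1312) (C.node (nat_lit 4) (nat_lit 6) (nat_lit 8) (C.cons (nat_lit 344) (C.miq (nat_lit 2222274080) (nat_lit 831746442674683066467025485)) (C.cons (nat_lit 336) (C.node (nat_lit 1) (nat_lit 5) (nat_lit 6) (C.cons (nat_lit 610) (C.miq (nat_lit 2187673745) (nat_lit 120898226743120570917978643)) (C.cons (nat_lit 106) (C.miq (nat_lit 1096975664) (nat_lit 84629917207264257953825065)) (C.cons (nat_lit 98) (C.node (nat_lit 3) (nat_lit 5) (nat_lit 6) (C.cons (nat_lit 232) (C.miq (nat_lit 1464350240) (nat_lit 483575806594144666767393357)) (C.cons (nat_lit 104) (C.node (nat_lit 2) (nat_lit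 3) (nat_lit 8) (C.cons (nat_lit 398) (C.miq (nat_lit 1176701575) (nat_lit 712060130424902699625351041)) (C.cons (nat_lit 396) (C.miq (nat_lit 1176701575) (nat_lit 712060130424902699625219969)) (C.cons (nat_lit 270)
  (C.miq (nat_lit 911286344) (nat_lit 118479711108927205380587797)) (C.cons (nat_lit 268) (C.node (nat_lit 1) (nat_lit 2) (nat_lit 4) (C.cons (nat_lit 30) (C.node (nat_lit 1) (nat_lit 4) (nat_lit 6) (C.cons (nat_lit 82) (C.node (nat_lit 2) (nat_lit 3) (nat_lit 5) (C.cons (nat_lit 44) (C.node (nat_lit 2) (nat_lit 3) (nat_lit 7) (C.cons (nat_lit 140) (C.node (nat_lit 2) (nat_lit 4) (nat_lit 5) C.nil) C.nil)) C.nil)) C.nil)) (C.cons (nat_lit 22) (C.node (nat_lit 1) (nat_lit 4) (nat_lit 6) (C.cons (nat_lit 90) (C.node (nat_lit 1) (nat_lit 6) (nat_lit 8) (C.cons (nat_lit 834) (C.miq (nat_lit 2014579043) (nat_lit 369934123694636817291280973)) C.nil)) (C.cons (nat_lit 82) (C.node (nat_lit 3) (nat_lit 4) (nat_lit 6) (C.cons (nat_lit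 88) (C.node (nat_lit 1) (nat_lit 3) (nat_lit 6) C.nil) C.nil)) C.nil))) C.nil))) C.nil))))) C.nil))) C.nil)))) C.nil))) C.nil)) C.nil)) (C.cons (nat_lit 304) (C.node (nat_lit 4) (nat_lit 7) (nat_lit 8) (C.cons (nat_lit 402) (C.node (nat_lit 4) (nat_lit 7) (nat_lit 10) (C.cons (nat_lit 1168) (C.node (nat_lit 2) (nat_lit 7) (nat_lit 8) (C.cons (nat_lit 396) (C.miq (nat_lit 1176701575) (nat_lit 712060130424902699625219969)) (C.cons (nat_lit 388) (C.node (nat_lit 4) (nat_lit 6) (nat_lit 8) (C.cons (nat_lit 344) (C.miq (nat_lit 2222274080) (nat_lit 831746442674683066467025485)) (C.cons (nat_lit 336) (C.node (nat_lit 1) (nat_lit 2) (nat_lit 4) (C.cons (nat_lit 62) (C.miq (nat_lit 1965724688) (nat_lit 1281496805180527571569672723)) (C.cons (nat_lit 54) (C.miq (nat_lit 1965724688) (nat_lit 1281496805180527537209934355)) (C.cons (nat_lit 30) (C.miq (nat_lit 963715204) (nat_lit 776130929760711153389011221)) (C.cons (nat_lit 22) (C.node (nat_lit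 1) (nat_lit 2) (nat_lit 7) (C.cons (nat_lit 142) (C.node (nat_lit 2) (nat_lit 3) (nat_lit 8) (C.cons (nat_lit 268) (C.node (nat_lit 1) (nat_lit 5) (nat_lit 7) C.nil) C.nil)) (C.cons (nat_lit 134) (C.node (nat_lit 2) (nat_lit 3) (nat_lit 7) C.nil) C.nil))) C.nil))))) C.nil))) C.nil))) C.nil)) (C.cons (nat_lit 400) (C.node (nat_lit 1) (nat_lit 4) (nat_lit 7) (C.cons (nat_lit 1170) (C.node (nat_lit 4) (nat_lit 9) (nat_lit 10) (C.cons (nat_lit 1560) (C.miq (nat_lit 980849680) (nat_lit 1470064662222754480161751571)) (C.cons (nat_lit 1552) (C.node (nat_lit 1) (nat_lit 2) (nat_lit 4) (C.cons (nat_lit 62) (C.miq (nat_lit 2537753106) (nat_lit 184976516074016134032917511)) (C.cons (nat_lit 54) (C.miq (nat_lit 1965724688) (nat_lit 1281496805180527537209934355)) (C.cons (nat_lit 30) (C.miq (nat_lit 2537753106) (nat_lit 184976516074016134030820359)) (C.cons (nat_lit 22) (C.node (nat_lit 2) (nat_lit 3) (nat_lit 7) (C.cons (nat_lit 398) (C.miq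 (nat_lit 1176701575) (nat_lit 712060130424902699625351041)) (C.cons (nat_lit 396) (C.miq (nat_lit 1176701575) (nat_lit 712060130424902699625219969)) (C.cons (nat_lit 142) (C.miq (nat_lit 1685260818) (nat_lit 184976515853339752297006087)) (C.cons (nat_lit 140) (C.node (nat_lit 3) (nat_lit 4) (nat_lit 6) (C.cons (nat_lit 346) (C.miq (nat_lit 963731620) (nat_lit 776136758931838445657654385)) (C.cons (nat_lit 344) (C.miq (nat_lit 2222274080) (nat_lit 831746442674683066467025485)) (C.cons (nat_lit 90) (C.miq (nat_lit 963731620) (nat_lit 776132036565355576012440689)) (C.cons (nat_lit 88) (C.node (nat_lit 1) (nat_lit 2) (nat_lit 7) (C.cons (nat_lit 390) (C.node (nat_lit 2) (nat_lit 3) (nat_lit 8) (C.cons (nat_lit 268) (C.node (nat_lit 1) (nat_lit 2) (nat_lit 9) C.nil) C.nil)) (C.cons (nat_lit 134) (C.node (nat_lit 2) (nat_lit 7) (nat_lit 8) C.nil) C.nil))) C.nil))))) C.nil))))) C.nil))))) C.nil))) (C.cons (nat_lit 146) (C.node (nat_lit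 4) (nat_lit 7) (nat_lit 10) (C.cons (nat_lit 1168) (C.node (nat_lit 4) (nat_lit 8) (nat_lit 9) (C.cons (nat_lit 792) (C.node (nat_lit 4) (nat_lit 9) (nat_lit 10) (C.cons (nat_lit 1552) (C.node (nat_lit 3) (nat_lit 4) (nat_lit 6) (C.cons (nat_lit 90) (C.miq (nat_lit 2216137568) (nat_lit 176538606082030023670432333)) C.nil)) C.nil)) (C.cons (nat_lit 784) (C.node (nat_lit 3) (nat_lit 4) (nat_lit 9) (C.cons (nat_lit 1560)
  (C.node (nat_lit 3) (nat_lit 4) (nat_lit 6) (C.cons (nat_lit 346) (C.miq (nat_lit 395534500) (nat_lit 783390313738625079907452017)) (C.cons (nat_lit 344) (C.miq (nat_lit 2222274080) (nat_lit 831746442674683066467025485)) (C.cons (nat_lit 90) (C.miq (nat_lit 395534500) (nat_lit 783385591372142210262238321)) C.nil)))) (C.cons (nat_lit 536) (C.node (nat_lit 4) (nat_lit 9) (nat_lit 10) (C.cons (nat_lit 1552) (C.node (nat_lit 3) (nat_lit 8) (nat_lit 9) (C.cons (nat_lit 778) (C.node (nat_lit 1) (nat_lit 2) (nat_lit 9)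 C.nil) C.nil)) C.nil)) C.nil))) C.nil))) C.nil)) C.nil))) C.nil))) C.nil))) C.nil)) C.nil))) C.nil))) C.nil))) C.nil))) C.nil)) C.nil))) C.nil)) (C.cons (nat_lit 656) (C.node (nat_lit 4) (nat_lit 7) (nat_lit 10) (C.cons (nat_lit 1170) (C.node (nat_lit 2) (nat_lit 4) (nat_lit 10) (C.cons (nat_lit 1556) (C.miq (nat_lit 371486874) (nat_lit 256313856503757775509391233)) (C.cons (nat_lit 1052) (C.miq (nat_lit 880159248) (nat_lit 256303139186677500587738119)) (C.cons (nat_lit 1044) (C.node (nat_lit 4) (nat_lit 9) (nat_lit 10) (C.cons (nat_lit 1560) (C.miq (nat_lit 980849680) (nat_lit 1470064662222754480161751571)) (C.cons (nat_lit 1552) (C.node (nat_lit 2) (nat_lit 3) (nat_lit 7) (C.cons (nat_lit 398) (C.miq (nat_lit 1176701575) (nat_lit 712060130424902699625351041)) (C.cons (nat_lit 396) (C.miq (nat_lit 1176701575) (nat_lit 712060130424902699625219969)) (C.cons (nat_lit 142) (C.miq (nat_lit 1685260818) (nat_lit 184976515853339752297006087))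 (C.cons (nat_lit 140) (C.node (nat_lit 4) (nat_lit 5) (nat_lit 7) (C.cons (nat_lit 432) (C.miq (nat_lit 2200391780) (nat_lit 169257583823088524817859697)) (C.cons (nat_lit 176) (C.node (nat_lit 4) (nat_lit 7) (nat_lit 8) (C.cons (nat_lit 400) (C.node (nat_lit 3) (nat_lit 4) (nat_lit 6) (C.cons (nat_lit 346) (C.miq (nat_lit 2222274080) (nat_lit 212776423032555878970884685)) (C.cons (nat_lit 344) (C.miq (nat_lit 2222274080) (nat_lit 212776423031992929017463373)) (C.cons (nat_lit 90) (C.miq (nat_lit 967073905) (nat_lit 1876254532414668124995059907)) (C.cons (nat_lit 88) (C.node (nat_lit 1) (nat_lit 2) (nat_lit 7) (C.cons (nat_lit 390) (C.node (nat_lit 2) (nat_lit 3) (nat_lit 8) (C.cons (nat_lit 268) (C.node (nat_lit 1) (nat_lit 4) (nat_lit 6) (C.cons (nat_lit 338) (C.miq (nat_lit 1384384278) (nat_lit 334893426027709135370453187)) (C.cons (nat_lit 82) (C.node (nat_lit 4) (nat_lit 6) (nat_lit 8) (C.cons (nat_lit 336) (C.node (nat_lit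 5) (nat_lit 7) (nat_lit 8) (C.cons (nat_lit 480) (C.miq (nat_lit 1479173904) (nat_lit 1629652978923641599190040771)) (C.cons (nat_lit 416) (C.node (nat_lit 5) (nat_lit 8) (nat_lit 10) (C.cons (nat_lit 1314) (C.miq (nat_lit 941032868) (nat_lit 471483892085152367443575921)) (C.cons (nat_lit 1312) (C.node (nat_lit 1) (nat_lit 2) (nat_lit 4) (C.cons (nat_lit 62) (C.miq (nat_lit 946950308) (nat_lit 471482213431444266919527537)) (C.cons (nat_lit 54) (C.miq (nat_lit 1517371522) (nat_lit 1414444205393341413899763989)) (C.cons (nat_lit 30) (C.miq (nat_lit 2537753106) (nat_lit 184976516074016134030820359)) (C.cons (nat_lit 22) (C.node (nat_lit 1) (nat_lit 2) (nat_lit 3) (C.cons (nat_lit 46) (C.node (nat_lit 1) (nat_lit 2) (nat_lit 9) (C.cons (nat_lit 518) (C.node (nat_lit 2) (nat_lit 3) (nat_lit 10) C.nil) C.nil)) (C.cons (nat_lit 14) (C.node (nat_lit 1) (nat_lit 2) (nat_lit 5) (C.cons (nat_lit 550) (C.node (nat_lit 2) (nat_lit 9) (nat_lit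 10) C.nil) (C.cons (nat_lit 38) (C.node (nat_lit 1) (nat_lit 2) (nat_lit 9) (C.cons (nat_lit 518) (C.node (nat_lit 2) (nat_lit 3) (nat_lit 10) (C.cons (nat_lit 1068) (C.node (nat_lit 2) (nat_lit 9) (nat_lit 10) C.nil) C.nil)) C.nil)) C.nil))) C.nil))) C.nil))))) C.nil))) C.nil))) C.nil)) C.nil))) C.nil)) (C.cons (nat_lit 134) (C.node (nat_lit 2) (nat_lit 7) (nat_lit 8) (C.cons (nat_lit 388) (C.node (nat_lit 1) (nat_lit 4) (nat_lit 6) (C.cons (nat_lit 338) (C.node (nat_lit 1) (nat_lit 3) (nat_lit 6) (C.cons (nat_lit 106) (C.node (nat_lit 1) (nat_lit 6) (nat_lit 9) (C.cons (nat_lit 578) (C.node (nat_lit 1) (nat_lit 3) (nat_lit 4)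
  (C.cons (nat_lit 30) (C.miq (nat_lit 2537753106) (nat_lit 184976516074016134030820359)) (C.cons (nat_lit 26) (C.node (nat_lit 1) (nat_lit 2) (nat_lit 3) (C.cons (nat_lit 270) (C.miq (nat_lit 1367630624) (nat_lit 408637901007593976001528397)) (C.cons (nat_lit 14) (C.node (nat_lit 2) (nat_lit 3) (nat_lit 8) (C.cons (nat_lit 268) (C.node (nat_lit 1) (nat_lit 2) (nat_lit 4) (C.cons (nat_lit 54) (C.node (nat_lit 2) (nat_lit 3) (nat_lit 4) C.nil) C.nil)) C.nil)) C.nil))) C.nil))) C.nil)) (C.cons (nat_lit 74) (C.node (nat_lit 3) (nat_lit 5) (nat_lit 6) (C.cons (nat_lit 232) (C.miq (nat_lit 925390400) (nat_lit 469068696758769116670919793)) (C.cons (nat_lit 104) (C.node (nat_lit 1) (nat_lit 5) (nat_lit 6) (C.cons (nat_lit 610) (C.node (nat_lit 6) (nat_lit 7) (nat_lit 9) (C.cons (nat_lit 704) (C.node (nat_lit 6) (nat_lit 8) (nat_lit 9) C.nil) C.nil)) (C.cons (nat_lit 98) (C.node (nat_lit 1) (nat_lit 6) (nat_lit 9) (C.cons (nat_lit 578)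 (C.node (nat_lit 2) (nat_lit 3) (nat_lit 8) (C.cons (nat_lit 270) (C.node (nat_lit 1) (nat_lit 2) (nat_lit 4) C.nil) C.nil)) C.nil)) C.nil))) C.nil))) C.nil))) (C.cons (nat_lit 82) (C.node (nat_lit 4) (nat_lit 6) (nat_lit 8) (C.cons (nat_lit 336) (C.node (nat_lit 2) (nat_lit 3) (nat_lit 8) (C.cons (nat_lit 270) (C.node (nat_lit 1) (nat_lit 3) (nat_lit 4) (C.cons (nat_lit 58) (C.miq (nat_lit 1899537488) (nat_lit 326445407820641445098357873)) (C.cons (nat_lit 26) (C.node (nat_lit 1) (nat_lit 3) (nat_lit 6) (C.cons (nat_lit 106) (C.miq (nat_lit 560235344) (nat_lit 99137027032506708924629289)) (C.cons (nat_lit 74) (C.node (nat_lit 1) (nat_lit 4) (nat_lit 8) (C.cons (nat_lit 306) (C.miq (nat_lit 1362511904) (nat_lit 89481484685626869241676053)) (C.cons (nat_lit 274) (C.node (nat_lit 1) (nat_lit 2) (nat_lit 4) (C.cons (nat_lit 54) (C.node (nat_lit 1) (nat_lit 2) (nat_lit 9) C.nil) C.nil)) C.nil))) C.nil))) C.nil))) (C.cons (nat_lit 268)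 (C.node (nat_lit 2) (nat_lit 3) (nat_lit 10) (C.cons (nat_lit 1068) (C.node (nat_lit 2) (nat_lit 9) (nat_lit 10) (C.cons (nat_lit 1540) (C.node (nat_lit 3) (nat_lit 7) (nat_lit 10) (C.cons (nat_lit 1160) (C.node (nat_lit 5) (nat_lit 7) (nat_lit 10) (C.cons (nat_lit 1184) (C.node (nat_lit 3) (nat_lit 4) (nat_lit 10) C.nil) C.nil)) C.nil)) C.nil)) (C.cons (nat_lit 1036) (C.node (nat_lit 2) (nat_lit 4) (nat_lit 9) (C.cons (nat_lit 564) (C.node (nat_lit 2) (nat_lit 5) (nat_lit 10) (C.cons (nat_lit 1060) (C.node (nat_lit 2) (nat_lit 9) (nat_lit 10) C.nil) C.nil)) (C.cons (nat_lit 532) (C.node (nat_lit 2) (nat_lit 5) (nat_lit 10) (C.cons (nat_lit 1572) (C.node (nat_lit 1) (nat_lit 2) (nat_lit 9) C.nil) C.nil)) C.nil))) C.nil))) C.nil))) C.nil)) C.nil))) C.nil)) C.nil))) C.nil))))) C.nil)) C.nil))) C.nil))))) C.nil))) C.nil)))) (C.cons (nat_lit 1168) (C.ref (nat_lit 112) (nat_lit 11649936536080)) C.nil))) C.nil))) C.nil))) List.nil)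

theorem ok11_113 : okL par11 (nat_lit 114) c11_113 (nat_lit 113) = true := by decide +kernel

noncomputable def c11_114 : List C :=
  (List.cons (C.node (nat_lit 1) (nat_lit 6) (nat_lit 10) (C.cons (nat_lit 1098) (C.node (nat_lit 3) (nat_lit 4) (nat_lit 6) (C.cons (nat_lit 344) (C.miq (nat_lit 1382549315) (nat_lit 1629637483569954300953624729)) (C.cons (nat_lit 88) (C.node (nat_lit 3) (nat_lit 5) (nat_lit 6) (C.cons (nat_lit 232) (C.miq (nat_lit 2204370290) (nat_lit 106390581957794849449312421)) (C.cons (nat_lit 104) (C.node (nat_lit 2) (nat_lit 3) (nat_lit 8) (C.cons (nat_lit 398) (C.miq (nat_lit 1176701575) (nat_lit 712060130424902699625351041)) (C.cons (nat_lit 396) (C.miq (nat_lit 1176701575) (nat_lit 712060130424902699625219969)) (C.cons (nat_lit 270) (C.miq (nat_lit 2221088929) (nat_lit 106390452824960720951706631)) (C.cons (nat_lit 268) (C.node (nat_lit 1) (nat_lit 4) (nat_lit 6) (C.cons (nat_lit 338) (C.node (nat_lit 2)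 (nat_lit 7) (nat_lit 8) (C.cons (nat_lit 390) (C.miq (nat_lit 1384384278) (nat_lit 334893426027709135370453187)) (C.cons (nat_lit 388) (C.node (nat_lit 4) (nat_lit 7) (nat_lit 8) (C.cons (nat_lit 432) (C.miq (nat_lit 846726725) (nat_lit 469068696859255683366782065)) (C.cons (nat_lit 400) (C.node (nat_lit 1) (nat_lit 4) (nat_lit 10) (C.cons (nat_lit 1170) (C.node (nat_lit 2) (nat_lit 7) (nat_lit 9) (C.cons (nat_lit 646) (C.miq (nat_lit 1093052304) (nat_lit 84645781650364347328563073)) (C.cons (nat_lit 644) (C.node (nat_lit 1) (nat_lit 2) (nat_lit 7) (C.cons (nat_lit 142) (C.miq (nat_lit 1511458354) (nat_lit 1414446252981930060885656141)) (C.cons (nat_lit 134) (C.node (nat_lit 2) (nat_lit 3) (nat_lit 7) (C.cons (nat_lit 1164) (C.miq (nat_lit 2473853601) (nat_lit 184975445787935164203140103)) (C.cons (nat_lit 140) (C.node (nat_lit 2) (nat_lit 7) (nat_lit 10) (C.cons (nat_lit 1156) (C.node (nat_lit 2) (nat_lit 3) (nat_lit 10) (C.cons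 (nat_lit 1068) (C.miq (nat_lit 321350224) (nat_lit 169253212170206569285616753)) (C.cons (nat_lit 1052) (C.miq (nat_lit 880159248) (nat_lit 256303139186677500587738119)) (C.cons (nat_lit 1036) (C.node (nat_lit 2) (nat_lit 4) (nat_lit 10) (C.cons (nat_lit 1556) (C.miq (nat_lit 605461104) (nat_lit 408627792599984164862887809)) (C.cons (nat_lit 1044) (C.node (nat_lit 4) (nat_lit 9) (nat_lit 10) (C.cons (nat_lit 1560) (C.miq (nat_lit 873896560) (nat_lit 408627792601110064769730433)) (C.cons (nat_lit 1552) (C.node (nat_lit 1) (nat_lit 5) (nat_lit 6) (C.cons (nat_lit 610) (C.node (nat_lit 1) (nat_lit 9) (nat_lit 10) (C.cons (nat_lit 1538) (C.node (nat_lit 6) (nat_lit 7) (nat_lit 9) (C.cons (nat_lit 704) (C.node (nat_lit 6) (nat_lit 8) (nat_lit 9) (C.cons (nat_lit 832) (C.node (nat_lit 1) (nat_lit 2) (nat_lit 9) (C.cons (nat_lit 774) (C.miq (nat_lit 1176570505) (nat_lit 84634602914170020187998081)) (C.cons (nat_lit 518) (C.node (nat_lit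 1) (nat_lit 7) (nat_lit 9) (C.cons (nat_lit 650) (C.miq (nat_lit 1094100880) (nat_lit 1327421524214203156106381185)) (C.cons (nat_lit 642) (C.node (nat_lit 1) (nat_lit 2) (nat_lit 8) C.nil) C.nil))) C.nil))) C.nil)) C.nil)) C.nil)) (C.cons (nat_lit 98) (C.node (nat_lit 1) (nat_lit 6) (nat_lit 9) (C.cons (nat_lit 578) (C.node (nat_lit 1) (nat_lit 8) (nat_lit 10) (C.cons (nat_lit 1314) (C.node (nat_lit 1) (nat_lit 9) (nat_lit 10) (C.cons (nat_lit 1538) (C.node (nat_lit 1) (nat_lit 2) (nat_lit 8) (C.cons (nat_lit 774) (C.miq (nat_lit 1176570505) (nat_lit 84634602914170020187998081)) (C.cons (nat_lit 262) (C.node (nat_lit 1) (nat_lit 2) (nat_lit 3) (C.cons (nat_lit 62) (C.miq (nat_lit 2537753106) (nat_lit 184976516074016134032917511)) (C.cons (nat_lit 46) (C.miq (nat_lit 1129410698) (nat_lit 55632170435906129340008321)) (C.cons (nat_lit 30) (C.miq (nat_lit 1363380848) (nat_lit 36273253641291911497582465)) C.nil)))) C.nil))) C.nil))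 (C.cons (nat_lit 1282) (C.node (nat_lit 5) (nat_lit 8) (nat_lit 10) (C.cons (nat_lit 1312) (C.node (nat_lit 1) (nat_lit 3) (nat_lit 4) (C.cons (nat_lit 62) (C.miq (nat_lit 2537753106) (nat_lit 184976516074016134032917511)) (C.cons (nat_lit 58) (C.miq (nat_lit 1486958708) (nat_lit 1549843970740717195919229081)) (C.cons (nat_lit 30)
  (C.miq (nat_lit 2537753106) (nat_lit 184976516074016134030820359)) (C.cons (nat_lit 26) (C.node (nat_lit 1) (nat_lit 2) (nat_lit 3) (C.cons (nat_lit 46) (C.node (nat_lit 2) (nat_lit 5) (nat_lit 10) C.nil) (C.cons (nat_lit 14) (C.node (nat_lit 1) (nat_lit 5) (nat_lit 10) (C.cons (nat_lit 1058) (C.node (nat_lit 1) (nat_lit 9) (nat_lit 10) C.nil) C.nil)) C.nil))) C.nil))))) C.nil)) C.nil))) C.nil)) C.nil))) C.nil))) C.nil))) C.nil)))) C.nil)) C.nil))) C.nil))) C.nil))) (C.cons (nat_lit 1042) (C.node (nat_lit 4) (nat_lit 7) (nat_lit 10) (C.cons (nat_lit 1168) (C.node (nat_lit 1) (nat_lit 4) (nat_lit 7) (C.cons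 (nat_lit 178) (C.node (nat_lit 1) (nat_lit 7) (nat_lit 10) (C.cons (nat_lit 1154) (C.node (nat_lit 4) (nat_lit 7) (nat_lit 9) (C.cons (nat_lit 656) (C.node (nat_lit 1) (nat_lit 5) (nat_lit 6) (C.cons (nat_lit 610) (C.miq (nat_lit 1936015505) (nat_lit 125731568803434755682075155)) (C.cons (nat_lit 98) (C.node (nat_lit 1) (nat_lit 6) (nat_lit 9) (C.cons (nat_lit 578) (C.node (nat_lit 1) (nat_lit 8) (nat_lit 10) (C.cons (nat_lit 1314) (C.miq (nat_lit 388519018) (nat_lit 469087457082292430612726897)) (C.cons (nat_lit 1282) (C.node (nat_lit 5) (nat_lit 8) (nat_lit 10) (C.cons (nat_lit 1312) (C.node (nat_lit 2) (nat_lit 7) (nat_lit 9) (C.cons (nat_lit 646) (C.miq (nat_lit 1651837204) (nat_lit 199493734350217157429821971)) (C.cons (nat_lit 644) (C.node (nat_lit 1) (nat_lit 2) (nat_lit 7) (C.cons (nat_lit 142) (C.miq (nat_lit 2708824864) (nat_lit 215209770148475935182357069)) (C.cons (nat_lit 134) (C.node (nat_lit 1) (nat_lit 7) (nat_lit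 9) (C.cons (nat_lit 650) (C.miq (nat_lit 1969427465) (nat_lit 125740275673676774648906259)) (C.cons (nat_lit 642) (C.node (nat_lit 1) (nat_lit 3) (nat_lit 7) (C.cons (nat_lit 394) (C.node (nat_lit 3) (nat_lit 6) (nat_lit 7) (C.cons (nat_lit 200) (C.node (nat_lit 1) (nat_lit 2) (nat_lit 9) (C.cons (nat_lit 774) (C.miq (nat_lit 1176570505) (nat_lit 84634602914170020187998081)) (C.cons (nat_lit 550) (C.miq (nat_lit 844564756) (nat_lit 199475582754048214914171411)) C.nil))) C.nil)) C.nil)) C.nil))) C.nil))) C.nil))) C.nil)) C.nil))) C.nil)) C.nil))) C.nil)) C.nil)) (C.cons (nat_lit 146) (C.node (nat_lit 1) (nat_lit 5) (nat_lit 6) (C.cons (nat_lit 610) (C.node (nat_lit 1) (nat_lit 9) (nat_lit 10) (C.cons (nat_lit 1538) (C.node (nat_lit 6) (nat_lit 7) (nat_lit 9) (C.cons (nat_lit 704) (C.node (nat_lit 6) (nat_lit 8) (nat_lit 9) (C.cons (nat_lit 832) (C.node (nat_lit 1) (nat_lit 7) (nat_lit 10) (C.cons (nat_lit 1186) (C.node (nat_lit 1)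 (nat_lit 2) (nat_lit 7) (C.cons (nat_lit 646) (C.miq (nat_lit 1361487760) (nat_lit 84645781654867946955933569)) (C.cons (nat_lit 142) (C.miq (nat_lit 1969430689) (nat_lit 125730904724028155532805127)) (C.cons (nat_lit 134) (C.miq (nat_lit 829581904) (nat_lit 162006925269684342606857329)) C.nil)))) (C.cons (nat_lit 1154) (C.node (nat_lit 1) (nat_lit 5) (nat_lit 10) (C.cons (nat_lit 1314) (C.node (nat_lit 1) (nat_lit 2) (nat_lit 8) (C.cons (nat_lit 774) (C.miq (nat_lit 1176570505) (nat_lit 84634602914170020187998081)) (C.cons (nat_lit 262) (C.node (nat_lit 1) (nat_lit 7) (nat_lit 8) (C.cons (nat_lit 394) (C.miq (nat_lit 2708756528) (nat_lit 176524143981607478892233001)) (C.cons (nat_lit 386) (C.node (nat_lit 1) (nat_lit 3) (nat_lit 8) (C.cons (nat_lit 778) (C.miq (nat_lit 1362536592) (nat_lit 1327421524254736102508529537)) (C.cons (nat_lit 266) (C.node (nat_lit 1) (nat_lit 8) (nat_lit 9) C.nil) C.nil))) C.nil))) C.nil))) (C.cons (nat_lit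 1058) (C.node (nat_lit 1) (nat_lit 8) (nat_lit 10) (C.cons (nat_lit 1282) (C.node (nat_lit 5) (nat_lit 8) (nat_lit 10) (C.cons (nat_lit 1312) (C.node (nat_lit 2) (nat_lit 7) (nat_lit 9) (C.cons (nat_lit 644) (C.node (nat_lit 1) (nat_lit 2) (nat_lit 7) (C.cons (nat_lit 134) (C.node (nat_lit 1) (nat_lit 2) (nat_lit 9) C.nil) C.nil)) C.nil)) C.nil)) C.nil)) C.nil))) C.nil))) C.nil)) C.nil)) C.nil)) (C.cons (nat_lit 98) (C.node (nat_lit 1) (nat_lit 6) (nat_lit 9) (C.cons (nat_lit 578) (C.node (nat_lit 1) (nat_lit 7) (nat_lit 10)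
  (C.cons (nat_lit 1186) (C.node (nat_lit 1) (nat_lit 2) (nat_lit 7) (C.cons (nat_lit 646) (C.miq (nat_lit 1361487760) (nat_lit 84645781654867946955933569)) (C.cons (nat_lit 142) (C.miq (nat_lit 1969430689) (nat_lit 125730904724028155532805127)) (C.cons (nat_lit 134) (C.miq (nat_lit 829581904) (nat_lit 162006925269684342606857329)) C.nil)))) (C.cons (nat_lit 1154) (C.node (nat_lit 1) (nat_lit 8) (nat_lit 10) (C.cons (nat_lit 1314) (C.node (nat_lit 1) (nat_lit 9) (nat_lit 10) (C.cons (nat_lit 1538) (C.node (nat_lit 1) (nat_lit 2) (nat_lit 8) (C.cons (nat_lit 774) (C.miq (nat_lit 1176570505) (nat_lit 84634602914170020187998081)) (C.cons (nat_lit 262) (C.node (nat_lit 1) (nat_lit 7) (nat_lit 8) (C.cons (nat_lit 394) (C.miq (nat_lit 2708756528) (nat_lit 176524143981607478892233001)) (C.cons (nat_lit 386) (C.node (nat_lit 1) (nat_lit 3) (nat_lit 8) (C.cons (nat_lit 778) (C.miq (nat_lit 1362536592) (nat_lit 1327421524254736102508529537))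 C.nil)) C.nil))) C.nil))) C.nil)) (C.cons (nat_lit 1282) (C.node (nat_lit 5) (nat_lit 8) (nat_lit 10) (C.cons (nat_lit 1312) (C.node (nat_lit 1) (nat_lit 5) (nat_lit 10) (C.cons (nat_lit 1570) (C.node (nat_lit 2) (nat_lit 5) (nat_lit 10) (C.cons (nat_lit 1068) (C.miq (nat_lit 1906640434) (nat_lit 1898016580562632302767374925)) (C.cons (nat_lit 1060) (C.node (nat_lit 4) (nat_lit 5) (nat_lit 8) (C.cons (nat_lit 816) (C.miq (nat_lit 2242005264) (nat_lit 1281466478769305666896462355)) (C.cons (nat_lit 304) (C.node (nat_lit 2) (nat_lit 7) (nat_lit 9) (C.cons (nat_lit 646) (C.node (nat_lit 2) (nat_lit 9) (nat_lit 10) (C.cons (nat_lit 1556) (C.miq (nat_lit 1108781424) (nat_lit 84645781759013688313055105)) (C.cons (nat_lit 1540) (C.node (nat_lit 2) (nat_lit 3) (nat_lit 7) (C.cons (nat_lit 140) (C.node (nat_lit 2) (nat_lit 7) (nat_lit 10) (C.cons (nat_lit 1156) (C.node (nat_lit 2) (nat_lit 3) (nat_lit 10) C.nil) C.nil)) C.nil)) C.nil)))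 (C.cons (nat_lit 644) (C.node (nat_lit 1) (nat_lit 2) (nat_lit 7) (C.cons (nat_lit 142) (C.miq (nat_lit 1511458354) (nat_lit 1395103439868095994090357325)) (C.cons (nat_lit 134) (C.node (nat_lit 1) (nat_lit 2) (nat_lit 9) (C.cons (nat_lit 774) (C.miq (nat_lit 1176570505) (nat_lit 84634602914170020187998081)) (C.cons (nat_lit 518) (C.node (nat_lit 1) (nat_lit 2) (nat_lit 8) (C.cons (nat_lit 294) (C.node (nat_lit 2) (nat_lit 8) (nat_lit 9) C.nil) C.nil)) C.nil))) C.nil))) C.nil))) C.nil))) C.nil))) (C.cons (nat_lit 1058) (C.node (nat_lit 1) (nat_lit 9) (nat_lit 10) (C.cons (nat_lit 1538) (C.node (nat_lit 1) (nat_lit 2) (nat_lit 7) C.nil) C.nil)) C.nil))) C.nil)) C.nil))) C.nil))) C.nil)) C.nil))) C.nil))) C.nil)) C.nil))) C.nil))) C.nil))) (C.cons (nat_lit 82) (C.node (nat_lit 4) (nat_lit 6) (nat_lit 8) (C.cons (nat_lit 336) (C.node (nat_lit 1) (nat_lit 9) (nat_lit 10) (C.cons (nat_lit 1570) (C.node (nat_lit 5) (nat_lit 8) (nat_lit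 10) (C.cons (nat_lit 1312) (C.node (nat_lit 1) (nat_lit 8) (nat_lit 10) (C.cons (nat_lit 1298) (C.miq (nat_lit 404988934) (nat_lit 324012374547069261423903857)) (C.cons (nat_lit 1282) (C.node (nat_lit 2) (nat_lit 5) (nat_lit 10) (C.cons (nat_lit 1068) (C.miq (nat_lit 1906640434) (nat_lit 1898016580562632302767374925)) (C.cons (nat_lit 1060) (C.node (nat_lit 1) (nat_lit 4) (nat_lit 10) (C.cons (nat_lit 1170) (C.node (nat_lit 2) (nat_lit 7) (nat_lit 9) (C.cons (nat_lit 646) (C.miq (nat_lit 1093052304) (nat_lit 84645781650364347328563073)) (C.cons (nat_lit 644) (C.node (nat_lit 1) (nat_lit 2) (nat_lit 9) (C.cons (nat_lit 774) (C.miq (nat_lit 1176570505) (nat_lit 84634602914170020187998081)) (C.cons (nat_lit 518) (C.node (nat_lit 1) (nat_lit 7) (nat_lit 9) (C.cons (nat_lit 650) (C.miq (nat_lit 1094100880) (nat_lit 1327421524214203156106381185)) (C.cons (nat_lit 642) (C.node (nat_lit 2) (nat_lit 7) (nat_lit 10) (C.cons (nat_lit 1164)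 (C.miq (nat_lit 2473853601) (nat_lit 184975445787935164203140103)) (C.cons (nat_lit 1156) (C.node (nat_lit 2) (nat_lit 3) (nat_lit 7) (C.cons (nat_lit 142) (C.miq (nat_lit 1511458354) (nat_lit 1414446252981930060885656141))
  (C.cons (nat_lit 140) (C.node (nat_lit 2) (nat_lit 3) (nat_lit 10) (C.cons (nat_lit 1052) (C.miq (nat_lit 880159248) (nat_lit 256303139186677500587738119)) (C.cons (nat_lit 1036) (C.node (nat_lit 2) (nat_lit 4) (nat_lit 10) (C.cons (nat_lit 1556) (C.miq (nat_lit 605461104) (nat_lit 99142782778639096138106753)) (C.cons (nat_lit 1044) (C.node (nat_lit 2) (nat_lit 9) (nat_lit 10) (C.cons (nat_lit 1540) (C.node (nat_lit 1) (nat_lit 2) (nat_lit 4) (C.cons (nat_lit 62) (C.miq (nat_lit 932266149) (nat_lit 776131519933798422325363825)) (C.cons (nat_lit 54) (C.miq (nat_lit 2299660884) (nat_lit 626228684849206503406961777)) (C.cons (nat_lit 30) (C.miq (nat_lit 2537753106) (nat_lit 184976516074016134030820359)) C.nil))))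 C.nil)) C.nil))) C.nil))) C.nil))) C.nil))) C.nil))) C.nil))) C.nil))) (C.cons (nat_lit 1042) (C.node (nat_lit 1) (nat_lit 7) (nat_lit 10) (C.cons (nat_lit 1154) (C.node (nat_lit 4) (nat_lit 7) (nat_lit 10) (C.cons (nat_lit 1168) (C.node (nat_lit 1) (nat_lit 5) (nat_lit 6) (C.cons (nat_lit 354) (C.node (nat_lit 1) (nat_lit 6) (nat_lit 9) (C.cons (nat_lit 578) (C.node (nat_lit 6) (nat_lit 8) (nat_lit 9) (C.cons (nat_lit 832) (C.node (nat_lit 5) (nat_lit 7) (nat_lit 8) (C.cons (nat_lit 432) (C.miq (nat_lit 2016560390) (nat_lit 323996030488062710829089905)) (C.cons (nat_lit 416) (C.node (nat_lit 4) (nat_lit 5) (nat_lit 8) (C.cons (nat_lit 816) (C.miq (nat_lit 2242005264) (nat_lit 1281466478769305666896462355)) (C.cons (nat_lit 304) (C.node (nat_lit 3) (nat_lit 6) (nat_lit 8) (C.cons (nat_lit 456) (C.node (nat_lit 3) (nat_lit 8) (nat_lit 10) (C.cons (nat_lit 1304) (C.node (nat_lit 3) (nat_lit 9) (nat_lit 10) C.nil) C.nil)) C.nil)) C.nil)))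 C.nil))) C.nil)) C.nil)) (C.cons (nat_lit 98) (C.node (nat_lit 1) (nat_lit 6) (nat_lit 8) (C.cons (nat_lit 834) (C.node (nat_lit 3) (nat_lit 6) (nat_lit 7) (C.cons (nat_lit 456) (C.miq (nat_lit 372545648) (nat_lit 106395267581942596237854593)) (C.cons (nat_lit 200) (C.node (nat_lit 3) (nat_lit 6) (nat_lit 8) (C.cons (nat_lit 328) (C.node (nat_lit 1) (nat_lit 2) (nat_lit 9) C.nil) C.nil)) C.nil))) (C.cons (nat_lit 322) (C.node (nat_lit 1) (nat_lit 6) (nat_lit 9) (C.cons (nat_lit 578) (C.node (nat_lit 2) (nat_lit 7) (nat_lit 10) C.nil) C.nil)) C.nil))) C.nil))) C.nil)) C.nil)) C.nil))) C.nil))) C.nil))) C.nil)) (C.cons (nat_lit 1538) (C.node (nat_lit 2) (nat_lit 7) (nat_lit 8) (C.cons (nat_lit 390) (C.node (nat_lit 2) (nat_lit 7) (nat_lit 9) (C.cons (nat_lit 644) (C.node (nat_lit 4) (nat_lit 7) (nat_lit 8) (C.cons (nat_lit 432) (C.miq (nat_lit 846726725) (nat_lit 471486548498484941716194417)) (C.cons (nat_lit 400) (C.node (nat_lit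 5) (nat_lit 7) (nat_lit 8) (C.cons (nat_lit 480) (C.miq (nat_lit 1479173904) (nat_lit 1629652978923641599190040771)) (C.cons (nat_lit 416) (C.node (nat_lit 1) (nat_lit 2) (nat_lit 9) (C.cons (nat_lit 550) (C.node (nat_lit 2) (nat_lit 5) (nat_lit 8) (C.cons (nat_lit 292) (C.node (nat_lit 2) (nat_lit 8) (nat_lit 9) (C.cons (nat_lit 772) (C.node (nat_lit 2) (nat_lit 5) (nat_lit 10) (C.cons (nat_lit 1068) (C.miq (nat_lit 846308614) (nat_lit 471501324475314295032448113)) (C.cons (nat_lit 1060) (C.node (nat_lit 1) (nat_lit 2) (nat_lit 3) (C.cons (nat_lit 30) (C.node (nat_lit 2) (nat_lit 3) (nat_lit 5) (C.cons (nat_lit 44) (C.node (nat_lit 2) (nat_lit 4) (nat_lit 5) (C.cons (nat_lit 52) (C.node (nat_lit 1) (nat_lit 7) (nat_lit 9) (C.cons (nat_lit 650) (C.miq (nat_lit 1215373459) (nat_lit 471481623130004408645583437)) (C.cons (nat_lit 642) (C.node (nat_lit 2) (nat_lit 3) (nat_lit 7) (C.cons (nat_lit 1164) (C.miq (nat_lit 2536770081) (nat_lit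 184975446162859833107022855)) (C.cons (nat_lit 140) (C.node (nat_lit 2) (nat_lit 3) (nat_lit 10) (C.cons (nat_lit 1036) (C.node (nat_lit 2) (nat_lit 7) (nat_lit 10) (C.cons (nat_lit 1156) (C.node (nat_lit 1) (nat_lit 5) (nat_lit 6) (C.cons (nat_lit 98) (C.node (nat_lit 1) (nat_lit 3) (nat_lit 5) C.nil) C.nil)) C.nil)) C.nil)) C.nil))) C.nil))) C.nil)) C.nil)) (C.cons (nat_lit 14) (C.node (nat_lit 1) (nat_lit 2) (nat_lit 4)
  (C.cons (nat_lit 22) (C.node (nat_lit 1) (nat_lit 5) (nat_lit 6) (C.cons (nat_lit 354) (C.node (nat_lit 1) (nat_lit 8) (nat_lit 10) (C.cons (nat_lit 1298) (C.miq (nat_lit 1092986992) (nat_lit 664930175101414048667076481)) C.nil)) (C.cons (nat_lit 98) (C.node (nat_lit 1) (nat_lit 6) (nat_lit 8) (C.cons (nat_lit 834) (C.node (nat_lit 5) (nat_lit 6) (nat_lit 8) C.nil) (C.cons (nat_lit 322) (C.node (nat_lit 1) (nat_lit 6) (nat_lit 9) C.nil) C.nil))) C.nil))) C.nil)) C.nil))) C.nil))) C.nil)) C.nil)) (C.cons (nat_lit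 518) (C.node (nat_lit 2) (nat_lit 3) (nat_lit 7) (C.cons (nat_lit 1164) (C.node (nat_lit 4) (nat_lit 7) (nat_lit 10) (C.cons (nat_lit 1170) (C.miq (nat_lit 2473853601) (nat_lit 184975445787935164203140103)) (C.cons (nat_lit 1168) (C.node (nat_lit 1) (nat_lit 4) (nat_lit 10) (C.cons (nat_lit 1298) (C.miq (nat_lit 830630464) (nat_lit 471491935091029892375315569)) (C.cons (nat_lit 1042) (C.node (nat_lit 1) (nat_lit 7) (nat_lit 10) (C.cons (nat_lit 1186) (C.miq (nat_lit 829581904) (nat_lit 471491935091029411331638385)) (C.cons (nat_lit 1154) (C.node (nat_lit 5) (nat_lit 7) (nat_lit 10) (C.cons (nat_lit 1184) (C.node (nat_lit 1) (nat_lit 2) (nat_lit 4) (C.cons (nat_lit 62) (C.miq (nat_lit 2536770081) (nat_lit 184975446162859833109120007)) (C.cons (nat_lit 54) (C.miq (nat_lit 1517371522) (nat_lit 1395101392279507347104465173)) (C.cons (nat_lit 30) (C.miq (nat_lit 2536770081) (nat_lit 184975446162859833107022855)) (C.cons (nat_lit 22)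 (C.node (nat_lit 1) (nat_lit 2) (nat_lit 3) (C.cons (nat_lit 46) (C.node (nat_lit 2) (nat_lit 3) (nat_lit 4) (C.cons (nat_lit 28) (C.node (nat_lit 1) (nat_lit 5) (nat_lit 10) (C.cons (nat_lit 1314) (C.miq (nat_lit 2555578898) (nat_lit 359061834098523353664848903)) (C.cons (nat_lit 1058) (C.node (nat_lit 1) (nat_lit 8) (nat_lit 10) C.nil) C.nil))) C.nil)) (C.cons (nat_lit 14) (C.node (nat_lit 1) (nat_lit 2) (nat_lit 5) (C.cons (nat_lit 38) (C.node (nat_lit 1) (nat_lit 4) (nat_lit 7) (C.cons (nat_lit 178) (C.node (nat_lit 2) (nat_lit 3) (nat_lit 4) (C.cons (nat_lit 60) (C.miq (nat_lit 339113248) (nat_lit 106389069291284544327844005)) C.nil)) (C.cons (nat_lit 146) (C.node (nat_lit 2) (nat_lit 3) (nat_lit 4) C.nil) C.nil))) C.nil)) C.nil))) C.nil))))) C.nil)) C.nil))) C.nil))) C.nil))) (C.cons (nat_lit 140) (C.node (nat_lit 2) (nat_lit 7) (nat_lit 10) (C.cons (nat_lit 1156) (C.node (nat_lit 2) (nat_lit 5) (nat_lit 8) (C.cons (nat_lit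 804) (C.node (nat_lit 2) (nat_lit 5) (nat_lit 10) (C.cons (nat_lit 1068) (C.miq (nat_lit 321350224) (nat_lit 169253212170206569285616753)) (C.cons (nat_lit 1060) (C.node (nat_lit 4) (nat_lit 8) (nat_lit 9) (C.cons (nat_lit 792) (C.miq (nat_lit 1213675808) (nat_lit 502915963534460648958526029)) (C.cons (nat_lit 784) (C.node (nat_lit 6) (nat_lit 8) (nat_lit 9) (C.cons (nat_lit 834) (C.miq (nat_lit 408381728) (nat_lit 502916738309533693781541453)) (C.cons (nat_lit 832) (C.node (nat_lit 1) (nat_lit 6) (nat_lit 8) (C.cons (nat_lit 354) (C.node (nat_lit 1) (nat_lit 6) (nat_lit 9) (C.cons (nat_lit 578) (C.node (nat_lit 4) (nat_lit 5) (nat_lit 8) (C.cons (nat_lit 304) (C.node (nat_lit 5) (nat_lit 8) (nat_lit 10) (C.cons (nat_lit 1312) (C.node (nat_lit 3) (nat_lit 6) (nat_lit 7) (C.cons (nat_lit 456) (C.node (nat_lit 1) (nat_lit 8) (nat_lit 9) C.nil) C.nil)) C.nil)) C.nil)) C.nil)) (C.cons (nat_lit 322) (C.node (nat_lit 5) (nat_lit 6) (nat_lit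 8) (C.cons (nat_lit 352) (C.node (nat_lit 2) (nat_lit 3) (nat_lit 10) C.nil) C.nil)) C.nil))) C.nil))) C.nil))) C.nil))) (C.cons (nat_lit 292) (C.node (nat_lit 2) (nat_lit 8) (nat_lit 9) (C.cons (nat_lit 772) (C.node (nat_lit 3) (nat_lit 6) (nat_lit 7) (C.cons (nat_lit 456) (C.node (nat_lit 3) (nat_lit 7) (nat_lit 10) (C.cons (nat_lit 1192) (C.node (nat_lit 3) (nat_lit 8) (nat_lit 10) (C.cons (nat_lit 1304) (C.miq (nat_lit 1937922624) (nat_lit 323995163705016553791882353)) (C.cons (nat_lit 1288) (C.node (nat_lit 4) (nat_lit 8) (nat_lit 10) (C.cons (nat_lit 1298) (C.miq (nat_lit 830630464) (nat_lit 471491935091029892375315569))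
  (C.cons (nat_lit 1296) (C.node (nat_lit 1) (nat_lit 3) (nat_lit 7) (C.cons (nat_lit 650) (C.node (nat_lit 1) (nat_lit 3) (nat_lit 5) (C.cons (nat_lit 62) (C.miq (nat_lit 1932043584) (nat_lit 324027556187604653415138417)) (C.cons (nat_lit 58) (C.miq (nat_lit 1369060359) (nat_lit 1859349899102563361886371993)) (C.cons (nat_lit 46) (C.miq (nat_lit 1160841849) (nat_lit 55620383243418249972025217)) (C.cons (nat_lit 42) (C.miq (nat_lit 1160841849) (nat_lit 50784679964959733273200513)) C.nil))))) (C.cons (nat_lit 138) (C.node (nat_lit 3) (nat_lit 7) (nat_lit 9) (C.cons (nat_lit 648) (C.node (nat_lit 1) (nat_lit 7) (nat_lit 9) C.nil) C.nil)) C.nil))) C.nil))) C.nil))) (C.cons (nat_lit 1160) (C.node (nat_lit 5) (nat_lit 7) (nat_lit 10) (C.cons (nat_lit 1186) (C.miq (nat_lit 829581904) (nat_lit 471491935091029411331638385)) (C.cons (nat_lit 1184) (C.node (nat_lit 1) (nat_lit 5) (nat_lit 10) (C.cons (nat_lit 1314) (C.node (nat_lit 1) (nat_lit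 4) (nat_lit 10) (C.cons (nat_lit 1170) (C.miq (nat_lit 941032868) (nat_lit 471483892085152367443575921)) (C.cons (nat_lit 1042) (C.node (nat_lit 1) (nat_lit 7) (nat_lit 10) (C.cons (nat_lit 1154) (C.node (nat_lit 4) (nat_lit 7) (nat_lit 10) C.nil) C.nil)) C.nil))) (C.cons (nat_lit 1058) (C.node (nat_lit 5) (nat_lit 8) (nat_lit 10) (C.cons (nat_lit 1312) (C.node (nat_lit 1) (nat_lit 7) (nat_lit 10) (C.cons (nat_lit 1170) (C.node (nat_lit 1) (nat_lit 8) (nat_lit 10) C.nil) C.nil)) C.nil)) C.nil))) C.nil))) C.nil))) (C.cons (nat_lit 200) (C.node (nat_lit 3) (nat_lit 6) (nat_lit 8) (C.cons (nat_lit 328) (C.node (nat_lit 6) (nat_lit 7) (nat_lit 8) C.nil) C.nil)) C.nil))) C.nil)) C.nil))) C.nil)) C.nil))) C.nil))) C.nil))) C.nil))) C.nil)) (C.cons (nat_lit 388) (C.node (nat_lit 2) (nat_lit 7) (nat_lit 9) (C.cons (nat_lit 646) (C.node (nat_lit 4) (nat_lit 7) (nat_lit 9) (C.cons (nat_lit 688) (C.miq (nat_lit 2775712913) (nat_lit 199491779149593811874087443))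 (C.cons (nat_lit 656) (C.node (nat_lit 4) (nat_lit 7) (nat_lit 10) (C.cons (nat_lit 1170) (C.miq (nat_lit 1093052304) (nat_lit 84645781650364347328563073)) (C.cons (nat_lit 1168) (C.node (nat_lit 1) (nat_lit 4) (nat_lit 10) (C.cons (nat_lit 1298) (C.miq (nat_lit 404988934) (nat_lit 324012374547069261423903857)) (C.cons (nat_lit 1042) (C.node (nat_lit 1) (nat_lit 7) (nat_lit 10) (C.cons (nat_lit 1186) (C.miq (nat_lit 1361487760) (nat_lit 84645781654867946955933569)) (C.cons (nat_lit 1154) (C.node (nat_lit 6) (nat_lit 7) (nat_lit 9) (C.cons (nat_lit 736) (C.miq (nat_lit 1461348640) (nat_lit 1395121369990462232846598733)) (C.cons (nat_lit 704) (C.node (nat_lit 2) (nat_lit 4) (nat_lit 9) (C.cons (nat_lit 1556) (C.miq (nat_lit 1108781424) (nat_lit 84645781759013688313055105)) (C.cons (nat_lit 564) (C.miq (nat_lit 1383483664) (nat_lit 256313247865067854224359955)) (C.cons (nat_lit 532) (C.node (nat_lit 2) (nat_lit 9) (nat_lit 10) (C.cons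 (nat_lit 1572) (C.miq (nat_lit 1377216880) (nat_lit 84645781763517287940425601)) (C.cons (nat_lit 1540) (C.node (nat_lit 2) (nat_lit 5) (nat_lit 10) (C.cons (nat_lit 1068) (C.miq (nat_lit 846308614) (nat_lit 780986334296659363757229169)) (C.cons (nat_lit 1060) (C.node (nat_lit 4) (nat_lit 5) (nat_lit 7) (C.cons (nat_lit 434) (C.miq (nat_lit 846726725) (nat_lit 469068696859255683366913137)) (C.cons (nat_lit 432) (C.miq (nat_lit 846726725) (nat_lit 469068696859255683366782065)) (C.cons (nat_lit 178) (C.miq (nat_lit 1651837204) (nat_lit 199493734350217157429821971)) (C.cons (nat_lit 176) (C.node (nat_lit 1) (nat_lit 2) (nat_lit 8) (C.cons (nat_lit 294) (C.node (nat_lit 1) (nat_lit 5) (nat_lit 10) (C.cons (nat_lit 1058) (C.node (nat_lit 1) (nat_lit 8) (nat_lit 10) (C.cons (nat_lit 1282) (C.node (nat_lit 2) (nat_lit 5) (nat_lit 9) (C.cons (nat_lit 548) (C.node (nat_lit 1) (nat_lit 2) (nat_lit 4) C.nil) C.nil)) C.nil)) C.nil)) (C.cons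 (nat_lit 262) (C.node (nat_lit 1) (nat_lit 4) (nat_lit 7) (C.cons (nat_lit 402) (C.node (nat_lit 1) (nat_lit 3) (nat_lit 8) (C.cons (nat_lit 778)
  (C.miq (nat_lit 1477903250) (nat_lit 485991223281454499917857357)) (C.cons (nat_lit 266) (C.node (nat_lit 3) (nat_lit 8) (nat_lit 9) (C.cons (nat_lit 792) (C.miq (nat_lit 873896048) (nat_lit 99142782563588915396282241)) (C.cons (nat_lit 776) (C.node (nat_lit 3) (nat_lit 6) (nat_lit 7) (C.cons (nat_lit 456) (C.miq (nat_lit 1228410983) (nat_lit 938133851761535613210722499)) (C.cons (nat_lit 200) (C.node (nat_lit 3) (nat_lit 6) (nat_lit 8) C.nil) C.nil))) C.nil))) C.nil))) (C.cons (nat_lit 146) (C.node (nat_lit 4) (nat_lit 7) (nat_lit 8) (C.cons (nat_lit 400) (C.node (nat_lit 2) (nat_lit 4) (nat_lit 10) (C.cons (nat_lit 1052) (C.node (nat_lit 2) (nat_lit 7) (nat_lit 10) C.nil) C.nil)) C.nil)) C.nil))) C.nil))) C.nil))))) C.nil))) C.nil))) C.nil)))) C.nil))) C.nil))) C.nil))) C.nil))) C.nil)))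 (C.cons (nat_lit 644) (C.node (nat_lit 1) (nat_lit 2) (nat_lit 7) (C.cons (nat_lit 142) (C.miq (nat_lit 1969430689) (nat_lit 125730904724028155532805127)) (C.cons (nat_lit 134) (C.node (nat_lit 2) (nat_lit 3) (nat_lit 7) (C.cons (nat_lit 1164) (C.node (nat_lit 4) (nat_lit 7) (nat_lit 10) (C.cons (nat_lit 1170) (C.miq (nat_lit 2473853601) (nat_lit 184975445787935164203140103)) (C.cons (nat_lit 1168) (C.node (nat_lit 1) (nat_lit 4) (nat_lit 10) (C.cons (nat_lit 1298) (C.miq (nat_lit 404988934) (nat_lit 324012374547069261423903857)) (C.cons (nat_lit 1042) (C.node (nat_lit 1) (nat_lit 7) (nat_lit 10) (C.cons (nat_lit 1186) (C.miq (nat_lit 829581904) (nat_lit 162006925269684342606857329)) (C.cons (nat_lit 1154) (C.node (nat_lit 5) (nat_lit 7) (nat_lit 10) (C.cons (nat_lit 1184) (C.node (nat_lit 1) (nat_lit 5) (nat_lit 10) (C.cons (nat_lit 1314) (C.node (nat_lit 1) (nat_lit 2) (nat_lit 8) (C.cons (nat_lit 774) (C.miq (nat_lit 1176570505)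 (nat_lit 84634602914170020187998081)) (C.cons (nat_lit 262) (C.node (nat_lit 1) (nat_lit 2) (nat_lit 3) (C.cons (nat_lit 62) (C.miq (nat_lit 2536770081) (nat_lit 184975446162859833109120007)) (C.cons (nat_lit 46) (C.miq (nat_lit 2555578898) (nat_lit 359061834098523353664848903)) (C.cons (nat_lit 30) (C.miq (nat_lit 2536770081) (nat_lit 184975446162859833107022855)) (C.cons (nat_lit 14) (C.node (nat_lit 1) (nat_lit 2) (nat_lit 4) (C.cons (nat_lit 54) (C.node (nat_lit 1) (nat_lit 2) (nat_lit 9) (C.cons (nat_lit 518) (C.node (nat_lit 2) (nat_lit 3) (nat_lit 4) C.nil) C.nil)) (C.cons (nat_lit 22) (C.node (nat_lit 1) (nat_lit 4) (nat_lit 5) (C.cons (nat_lit 178) (C.miq (nat_lit 1921074853) (nat_lit 316741848319156448837895281)) (C.cons (nat_lit 58) (C.miq (nat_lit 2048133203) (nat_lit 1259703526931005951457231145)) (C.cons (nat_lit 50) (C.node (nat_lit 2) (nat_lit 4) (nat_lit 10) C.nil) C.nil)))) C.nil))) C.nil))))) C.nil))) (C.cons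 (nat_lit 1058) (C.node (nat_lit 1) (nat_lit 8) (nat_lit 10) (C.cons (nat_lit 1282) (C.node (nat_lit 5) (nat_lit 8) (nat_lit 10) (C.cons (nat_lit 1312) (C.node (nat_lit 2) (nat_lit 4) (nat_lit 10) (C.cons (nat_lit 1556) (C.node (nat_lit 2) (nat_lit 5) (nat_lit 10) (C.cons (nat_lit 1060) (C.node (nat_lit 3) (nat_lit 5) (nat_lit 10) (C.cons (nat_lit 1576) (C.miq (nat_lit 2207384996) (nat_lit 712062417584729838501233777)) C.nil)) C.nil)) (C.cons (nat_lit 1044) (C.node (nat_lit 2) (nat_lit 5) (nat_lit 10) (C.cons (nat_lit 1572) (C.node (nat_lit 3) (nat_lit 5) (nat_lit 10) C.nil) C.nil)) C.nil))) C.nil)) C.nil)) C.nil))) C.nil)) C.nil))) C.nil))) C.nil))) (C.cons (nat_lit 140) (C.node (nat_lit 2) (nat_lit 7) (nat_lit 10) (C.cons (nat_lit 1156) (C.node (nat_lit 3) (nat_lit 6) (nat_lit 7) (C.cons (nat_lit 456) (C.node (nat_lit 3) (nat_lit 7) (nat_lit 10) (C.cons (nat_lit 1192) (C.node (nat_lit 3) (nat_lit 8) (nat_lit 10) (C.cons (nat_lit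 1304) (C.miq (nat_lit 1937922624) (nat_lit 323995163705016553791882353)) (C.cons (nat_lit 1288) (C.node (nat_lit 4) (nat_lit 8) (nat_lit 10) (C.cons (nat_lit 1298) (C.miq (nat_lit 404988934) (nat_lit 324012374547069261423903857)) (C.cons (nat_lit 1296) (C.node (nat_lit 1) (nat_lit 3) (nat_lit 7) (C.cons (nat_lit 650) (C.node (nat_lit 1) (nat_lit 3) (nat_lit 5)
  (C.cons (nat_lit 62) (C.miq (nat_lit 1932043584) (nat_lit 324027556187604653415138417)) (C.cons (nat_lit 58) (C.miq (nat_lit 1369060359) (nat_lit 1859349899102563361886371993)) (C.cons (nat_lit 46) (C.miq (nat_lit 1160841849) (nat_lit 55620383243418249972025217)) (C.cons (nat_lit 42) (C.miq (nat_lit 1160841849) (nat_lit 50784679964959733273200513)) C.nil))))) (C.cons (nat_lit 138) (C.node (nat_lit 3) (nat_lit 7) (nat_lit 9) (C.cons (nat_lit 648) (C.node (nat_lit 1) (nat_lit 4) (nat_lit 10) (C.cons (nat_lit 1170) (C.node (nat_lit 1) (nat_lit 5) (nat_lit 10) (C.cons (nat_lit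 1314) (C.miq (nat_lit 2171820608) (nat_lit 166837242159671862365848689)) (C.cons (nat_lit 1058) (C.node (nat_lit 1) (nat_lit 8) (nat_lit 10) (C.cons (nat_lit 1282) (C.node (nat_lit 1) (nat_lit 7) (nat_lit 8) C.nil) C.nil)) C.nil))) (C.cons (nat_lit 1042) (C.node (nat_lit 1) (nat_lit 7) (nat_lit 10) (C.cons (nat_lit 1154) (C.node (nat_lit 4) (nat_lit 7) (nat_lit 10) (C.cons (nat_lit 1168) (C.node (nat_lit 1) (nat_lit 5) (nat_lit 10) C.nil) C.nil)) C.nil)) C.nil))) C.nil)) C.nil))) C.nil))) C.nil))) (C.cons (nat_lit 1160) (C.node (nat_lit 5) (nat_lit 7) (nat_lit 10) (C.cons (nat_lit 1186) (C.miq (nat_lit 829581904) (nat_lit 162006925269684342606857329)) (C.cons (nat_lit 1184) (C.node (nat_lit 1) (nat_lit 5) (nat_lit 10) (C.cons (nat_lit 1314) (C.node (nat_lit 1) (nat_lit 2) (nat_lit 8) (C.cons (nat_lit 774) (C.miq (nat_lit 1176570505) (nat_lit 84634602914170020187998081)) (C.cons (nat_lit 262) (C.node (nat_lit 1) (nat_lit 4) (nat_lit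 10) (C.cons (nat_lit 1170) (C.miq (nat_lit 389587973) (nat_lit 551294413095310137917768817)) (C.cons (nat_lit 1042) (C.node (nat_lit 1) (nat_lit 7) (nat_lit 10) (C.cons (nat_lit 1154) (C.node (nat_lit 4) (nat_lit 7) (nat_lit 10) (C.cons (nat_lit 1168) (C.node (nat_lit 1) (nat_lit 2) (nat_lit 9) C.nil) C.nil)) C.nil)) C.nil))) C.nil))) (C.cons (nat_lit 1058) (C.node (nat_lit 5) (nat_lit 8) (nat_lit 10) (C.cons (nat_lit 1312) (C.node (nat_lit 1) (nat_lit 8) (nat_lit 10) (C.cons (nat_lit 1298) (C.miq (nat_lit 404988934) (nat_lit 324012374547069261423903857)) (C.cons (nat_lit 1282) (C.node (nat_lit 1) (nat_lit 4) (nat_lit 10) (C.cons (nat_lit 1170) (C.node (nat_lit 4) (nat_lit 7) (nat_lit 8) (C.cons (nat_lit 432) (C.miq (nat_lit 662922320) (nat_lit 551281038936204869099914353)) (C.cons (nat_lit 400) (C.node (nat_lit 5) (nat_lit 6) (nat_lit 7) (C.cons (nat_lit 224) (C.node (nat_lit 6) (nat_lit 7) (nat_lit 9) (C.cons (nat_lit 704) (C.node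 (nat_lit 1) (nat_lit 7) (nat_lit 8) C.nil) C.nil)) C.nil)) C.nil))) (C.cons (nat_lit 1042) (C.node (nat_lit 1) (nat_lit 7) (nat_lit 10) (C.cons (nat_lit 1154) (C.node (nat_lit 4) (nat_lit 7) (nat_lit 10) C.nil) C.nil)) C.nil))) C.nil))) C.nil)) C.nil))) C.nil))) C.nil))) (C.cons (nat_lit 200) (C.node (nat_lit 3) (nat_lit 6) (nat_lit 8) (C.cons (nat_lit 328) (C.node (nat_lit 3) (nat_lit 7) (nat_lit 8) (C.cons (nat_lit 394) (C.node (nat_lit 3) (nat_lit 8) (nat_lit 10) (C.cons (nat_lit 1304) (C.miq (nat_lit 1125558384) (nat_lit 1327421524251919703448160129)) (C.cons (nat_lit 1288) (C.node (nat_lit 4) (nat_lit 7) (nat_lit 8) (C.cons (nat_lit 432) (C.miq (nat_lit 662922320) (nat_lit 476327638120097860268131441)) (C.cons (nat_lit 400) (C.node (nat_lit 4) (nat_lit 8) (nat_lit 10) (C.cons (nat_lit 1298) (C.miq (nat_lit 588777124) (nat_lit 476321882842065789621765233)) (C.cons (nat_lit 1296) (C.node (nat_lit 6) (nat_lit 7) (nat_lit 8) (C.cons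 (nat_lit 480) (C.node (nat_lit 6) (nat_lit 7) (nat_lit 9) C.nil) C.nil)) C.nil))) C.nil))) C.nil))) (C.cons (nat_lit 392) (C.node (nat_lit 3) (nat_lit 7) (nat_lit 10) (C.cons (nat_lit 1192) (C.node (nat_lit 3) (nat_lit 8) (nat_lit 10) (C.cons (nat_lit 1304) (C.miq (nat_lit 1937922624) (nat_lit 323995163705016553791882353)) (C.cons (nat_lit 1288) (C.node (nat_lit 6) (nat_lit 7) (nat_lit 8) (C.cons (nat_lit 480) (C.node (nat_lit 6) (nat_lit 7) (nat_lit 9) C.nil) C.nil)) C.nil))) (C.cons (nat_lit 1160) (C.node (nat_lit 5) (nat_lit 7) (nat_lit 10) (C.cons (nat_lit 1186)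
  (C.miq (nat_lit 829581904) (nat_lit 162006925269684342606857329)) (C.cons (nat_lit 1184) (C.node (nat_lit 1) (nat_lit 5) (nat_lit 10) (C.cons (nat_lit 1314) (C.node (nat_lit 1) (nat_lit 2) (nat_lit 8) (C.cons (nat_lit 774) (C.miq (nat_lit 1176570505) (nat_lit 84634602914170020187998081)) (C.cons (nat_lit 262) (C.node (nat_lit 1) (nat_lit 5) (nat_lit 6) (C.cons (nat_lit 610) (C.node (nat_lit 1) (nat_lit 6) (nat_lit 8) C.nil) C.nil)) C.nil))) (C.cons (nat_lit 1058) (C.node (nat_lit 5) (nat_lit 8) (nat_lit 10) (C.cons (nat_lit 1312) (C.node (nat_lit 1) (nat_lit 8) (nat_lit 10) (C.cons (nat_lit 1298) (C.miq (nat_lit 404988934) (nat_lit 324012374547069261423903857)) (C.cons (nat_lit 1282) (C.node (nat_lit 6) (nat_lit 7) (nat_lit 8) (C.cons (nat_lit 480) (C.node (nat_lit 6) (nat_lit 7) (nat_lit 9) C.nil) C.nil)) C.nil))) C.nil)) C.nil))) C.nil))) C.nil))) C.nil))) C.nil)) C.nil))) C.nil)) C.nil))) C.nil))) C.nil))) C.nil))) C.nil)))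 C.nil)) C.nil))) C.nil))))) C.nil))) C.nil))) (C.cons (nat_lit 1090) (C.node (nat_lit 3) (nat_lit 6) (nat_lit 10) (C.cons (nat_lit 1096) (C.node (nat_lit 2) (nat_lit 7) (nat_lit 9) (C.cons (nat_lit 646) (C.node (nat_lit 2) (nat_lit 7) (nat_lit 8) (C.cons (nat_lit 396) (C.miq (nat_lit 1176701575) (nat_lit 712060130424902699625219969)) (C.cons (nat_lit 388) (C.node (nat_lit 4) (nat_lit 7) (nat_lit 9) (C.cons (nat_lit 688) (C.miq (nat_lit 2775712913) (nat_lit 199491779149593811874087443)) (C.cons (nat_lit 656) (C.node (nat_lit 4) (nat_lit 7) (nat_lit 10) (C.cons (nat_lit 1170) (C.miq (nat_lit 1093052304) (nat_lit 84645781650364347328563073)) (C.cons (nat_lit 1168) (C.node (nat_lit 6) (nat_lit 7) (nat_lit 9) (C.cons (nat_lit 736) (C.miq (nat_lit 443097175) (nat_lit 1934293228270283880314962085)) (C.cons (nat_lit 704) (C.node (nat_lit 2) (nat_lit 4) (nat_lit 9) (C.cons (nat_lit 1556) (C.miq (nat_lit 1108781424) (nat_lit 84645781759013688313055105))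 (C.cons (nat_lit 564) (C.miq (nat_lit 1383483664) (nat_lit 256313247865067854224359955)) (C.cons (nat_lit 532) (C.node (nat_lit 2) (nat_lit 9) (nat_lit 10) (C.cons (nat_lit 1572) (C.miq (nat_lit 1377216880) (nat_lit 84645781763517287940425601)) (C.cons (nat_lit 1540) (C.node (nat_lit 4) (nat_lit 5) (nat_lit 7) (C.cons (nat_lit 434) (C.miq (nat_lit 846726725) (nat_lit 469068696859255683366913137)) (C.cons (nat_lit 432) (C.miq (nat_lit 846726725) (nat_lit 469068696859255683366782065)) (C.cons (nat_lit 178) (C.miq (nat_lit 1651837204) (nat_lit 199493734350217157429821971)) (C.cons (nat_lit 176) (C.node (nat_lit 1) (nat_lit 4) (nat_lit 7) (C.cons (nat_lit 402) (C.node (nat_lit 4) (nat_lit 6) (nat_lit 8) (C.cons (nat_lit 344) (C.miq (nat_lit 2222274080) (nat_lit 212776423031992929017463373)) (C.cons (nat_lit 336) (C.node (nat_lit 1) (nat_lit 2) (nat_lit 4) (C.cons (nat_lit 62) (C.miq (nat_lit 1483813010) (nat_lit 485989323266819816981660237))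 (C.cons (nat_lit 54) (C.miq (nat_lit 2804222228) (nat_lit 199493734725141826400289299)) (C.cons (nat_lit 30) (C.miq (nat_lit 963715204) (nat_lit 780966633039169670087835925)) (C.cons (nat_lit 22) (C.node (nat_lit 1) (nat_lit 4) (nat_lit 5) (C.cons (nat_lit 58) (C.node (nat_lit 1) (nat_lit 4) (nat_lit 6) (C.cons (nat_lit 82) (C.node (nat_lit 1) (nat_lit 4) (nat_lit 10) (C.cons (nat_lit 1042) (C.node (nat_lit 2) (nat_lit 4) (nat_lit 5) (C.cons (nat_lit 52) (C.node (nat_lit 3) (nat_lit 4) (nat_lit 6) (C.cons (nat_lit 88) (C.node (nat_lit 1) (nat_lit 5) (nat_lit 7) (C.cons (nat_lit 1186) (C.miq (nat_lit 1361487760) (nat_lit 84645781654867946955933569)) (C.cons (nat_lit 162) (C.node (nat_lit 3) (nat_lit 5) (nat_lit 6) (C.cons (nat_lit 232) (C.miq (nat_lit 925390400) (nat_lit 469068696758769116670919793)) (C.cons (nat_lit 104) (C.node (nat_lit 2) (nat_lit 3) (nat_lit 4) C.nil) C.nil))) C.nil))) C.nil)) C.nil)) C.nil)) C.nil)) (C.cons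 (nat_lit 50) (C.node (nat_lit 1) (nat_lit 4) (nat_lit 6) (C.cons (nat_lit 90) (C.node (nat_lit 1) (nat_lit 4) (nat_lit 10) (C.cons (nat_lit 1042) (C.node (nat_lit 2) (nat_lit 4) (nat_lit 5)
  (C.cons (nat_lit 60) (C.miq (nat_lit 846284038) (nat_lit 780967739694906288004858993)) (C.cons (nat_lit 52) (C.node (nat_lit 3) (nat_lit 4) (nat_lit 5) (C.cons (nat_lit 568) (C.miq (nat_lit 2218357088) (nat_lit 686705301849628294505103555)) (C.cons (nat_lit 56) (C.node (nat_lit 3) (nat_lit 5) (nat_lit 6) (C.cons (nat_lit 232) (C.miq (nat_lit 925390400) (nat_lit 469068696758769116670919793)) (C.cons (nat_lit 104) (C.node (nat_lit 4) (nat_lit 5) (nat_lit 8) (C.cons (nat_lit 816) (C.miq (nat_lit 964976753) (nat_lit 986485129178301052360982723)) (C.cons (nat_lit 304) (C.node (nat_lit 4) (nat_lit 5) (nat_lit 9) C.nil) C.nil))) C.nil))) C.nil))) C.nil))) C.nil)) (C.cons (nat_lit 82) (C.node (nat_lit 3) (nat_lit 4) (nat_lit 6) (C.cons (nat_lit 88)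 (C.node (nat_lit 3) (nat_lit 8) (nat_lit 9) (C.cons (nat_lit 792) (C.miq (nat_lit 873896048) (nat_lit 99142782563588915396282241)) (C.cons (nat_lit 778) (C.miq (nat_lit 1477903250) (nat_lit 485991223281454499917857357)) (C.cons (nat_lit 776) (C.node (nat_lit 3) (nat_lit 7) (nat_lit 8) (C.cons (nat_lit 456) (C.miq (nat_lit 1228410983) (nat_lit 938133851761535613210722499)) (C.cons (nat_lit 392) (C.node (nat_lit 3) (nat_lit 6) (nat_lit 7) (C.cons (nat_lit 232) (C.miq (nat_lit 925390400) (nat_lit 469068696758769116670919793)) (C.cons (nat_lit 200) (C.node (nat_lit 1) (nat_lit 3) (nat_lit 4) (C.cons (nat_lit 1050) (C.node (nat_lit 2) (nat_lit 4) (nat_lit 10) (C.cons (nat_lit 1044) (C.node (nat_lit 3) (nat_lit 4) (nat_lit 8) (C.cons (nat_lit 280) (C.node (nat_lit 4) (nat_lit 8) (nat_lit 10) C.nil) C.nil)) C.nil)) (C.cons (nat_lit 26) (C.node (nat_lit 1) (nat_lit 4) (nat_lit 10) (C.cons (nat_lit 1042) (C.node (nat_lit 2) (nat_lit 4) (nat_lit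 5) (C.cons (nat_lit 60) (C.node (nat_lit 2) (nat_lit 4) (nat_lit 10) C.nil) C.nil)) C.nil)) C.nil))) C.nil))) C.nil))) C.nil)))) C.nil)) C.nil))) C.nil))) C.nil))))) C.nil))) (C.cons (nat_lit 146) (C.node (nat_lit 4) (nat_lit 7) (nat_lit 8) (C.cons (nat_lit 400) (C.node (nat_lit 2) (nat_lit 3) (nat_lit 7) (C.cons (nat_lit 1164) (C.node (nat_lit 2) (nat_lit 4) (nat_lit 10) (C.cons (nat_lit 1044) (C.node (nat_lit 2) (nat_lit 5) (nat_lit 10) (C.cons (nat_lit 1060) (C.node (nat_lit 1) (nat_lit 7) (nat_lit 10) (C.cons (nat_lit 1186) (C.miq (nat_lit 1361487760) (nat_lit 84645781654867946955933569)) (C.cons (nat_lit 1154) (C.node (nat_lit 5) (nat_lit 7) (nat_lit 10) (C.cons (nat_lit 1184) (C.node (nat_lit 1) (nat_lit 2) (nat_lit 4) (C.cons (nat_lit 62) (C.miq (nat_lit 2536770081) (nat_lit 184975446162859833109120007)) (C.cons (nat_lit 54) (C.miq (nat_lit 1918538048) (nat_lit 1281496805168705588195033619)) (C.cons (nat_lit 30) (C.miq (nat_lit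 2536770081) (nat_lit 184975446162859833107022855)) (C.cons (nat_lit 22) (C.node (nat_lit 2) (nat_lit 3) (nat_lit 4) (C.cons (nat_lit 60) (C.node (nat_lit 3) (nat_lit 6) (nat_lit 7) C.nil) (C.cons (nat_lit 28) (C.node (nat_lit 2) (nat_lit 4) (nat_lit 5) C.nil) C.nil))) C.nil))))) C.nil)) C.nil))) C.nil)) C.nil)) (C.cons (nat_lit 140) (C.node (nat_lit 2) (nat_lit 7) (nat_lit 10) (C.cons (nat_lit 1156) (C.ref (nat_lit 109) (nat_lit 11649936536080)) C.nil)) C.nil))) C.nil)) C.nil))) C.nil))))) C.nil))) C.nil)))) C.nil))) C.nil))) C.nil))) C.nil))) (C.cons (nat_lit 644) (C.ref (nat_lit 113) (nat_lit 11649936536080)) C.nil))) C.nil)) C.nil))) List.nil)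

theorem ok11_114 : okL par11 (nat_lit 115) c11_114 (nat_lit 114) = true := by decide +kernel

noncomputable def c11_115 : List C :=
  (List.cons (C.node (nat_lit 3) (nat_lit 5) (nat_lit 6) (C.cons (nat_lit 232) (C.miq (nat_lit 925390400) (nat_lit 469068696758769116670919793)) (C.cons (nat_lit 106) (C.node (nat_lit 1) (nat_lit 2) (nat_lit 3) (C.cons (nat_lit 30) (C.miq (nat_lit 2536770081) (nat_lit 184975446162859833107022855)) (C.cons (nat_lit 14) (C.node (nat_lit 2) (nat_lit 5) (nat_lit 6) (C.cons (nat_lit 356) (C.miq (nat_lit 2188596800) (nat_lit 1407195132814624253346907249)) (C.cons (nat_lit 100) (C.node (nat_lit 1) (nat_lit 2) (nat_lit 4) C.nil) C.nil))) C.nil))) (C.cons (nat_lit 104) (C.node (nat_lit 3) (nat_lit 6) (nat_lit 7) (C.cons (nat_lit 456) (C.node (nat_lit 5) (nat_lit 6) (nat_lit 7) (C.cons (nat_lit 224) (C.node (nat_lit 1) (nat_lit 3) (nat_lit 7) (C.cons (nat_lit 138) (C.node (nat_lit 1) (nat_lit 7) (nat_lit 9)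 C.nil) C.nil)) C.nil)) (C.cons (nat_lit 200) (C.node (nat_lit 3) (nat_lit 7) (nat_lit 8) (C.cons (nat_lit 394) (C.node (nat_lit 1) (nat_lit 4) (nat_lit 7) (C.cons (nat_lit 146) (C.node (nat_lit 1) (nat_lit 5) (nat_lit 7) C.nil) C.nil)) (C.cons (nat_lit 392) (C.node (nat_lit 5) (nat_lit 6) (nat_lit 7) (C.cons (nat_lit 480) (C.node (nat_lit 1) (nat_lit 7) (nat_lit 8) C.nil) (C.cons (nat_lit 224) (C.node (nat_lit 6) (nat_lit 7) (nat_lit 8) C.nil) C.nil))) C.nil))) C.nil))) C.nil)))) (List.cons (C.node (nat_lit 5) (nat_lit 8) (nat_lit 10) (C.cons (nat_lit 1314) (C.node (nat_lit 3) (nat_lit 5) (nat_lit 6) (C.cons (nat_lit 232) (C.miq (nat_lit 925390400) (nat_lit 469068696758769116670919793)) (C.cons (nat_lit 106) (C.miq (nat_lit 379212552) (nat_lit 1934305550434958411273666857)) (C.cons (nat_lit 104) (C.node (nat_lit 1) (nat_lit 2) (nat_lit 3) (C.cons (nat_lit 62) (C.miq (nat_lit 2536770081) (nat_lit 184975446162859833109120007)) (C.cons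 (nat_lit 46) (C.miq (nat_lit 2555578898) (nat_lit 359061834098523353664848903)) (C.cons (nat_lit 30) (C.miq (nat_lit 2536770081) (nat_lit 184975446162859833107022855)) (C.cons (nat_lit 14) (C.node (nat_lit 1) (nat_lit 2) (nat_lit 4) (C.cons (nat_lit 54) (C.node (nat_lit 2) (nat_lit 3) (nat_lit 4) (C.cons (nat_lit 28) (C.node (nat_lit 2) (nat_lit 3) (nat_lit 5) C.nil) C.nil)) (C.cons (nat_lit 22) (C.node (nat_lit 1) (nat_lit 4) (nat_lit 10) (C.cons (nat_lit 1050) (C.node (nat_lit 1) (nat_lit 6) (nat_lit 10) C.nil) (C.cons (nat_lit 1042) (C.node (nat_lit 1) (nat_lit 6) (nat_lit 10) (C.cons (nat_lit 1090) (C.node (nat_lit 1) (nat_lit 3) (nat_lit 10) C.nil) C.nil)) C.nil))) C.nil))) C.nil))))) C.nil)))) (C.cons (nat_lit 1312) (C.node (nat_lit 6) (nat_lit 7) (nat_lit 9) (C.cons (nat_lit 736) (C.node (nat_lit 2) (nat_lit 5) (nat_lit 6) (C.cons (nat_lit 358) (C.miq (nat_lit 2188596800) (nat_lit 1407195132815187203300328561)) (C.cons (nat_lit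 356) (C.miq (nat_lit 2188596800) (nat_lit 1407195132814624253346907249)) (C.cons (nat_lit 102) (C.miq (nat_lit 443883670) (nat_lit 1431370052281825412895474253)) (C.cons (nat_lit 100) (C.node (nat_lit 1) (nat_lit 2) (nat_lit 6) (C.cons (nat_lit 326) (C.node (nat_lit 1) (nat_lit 6) (nat_lit 9) (C.cons (nat_lit 578) (C.node (nat_lit 5) (nat_lit 6) (nat_lit 8) (C.cons (nat_lit 352) (C.node (nat_lit 6) (nat_lit 8) (nat_lit 9) (C.cons (nat_lit 832) (C.node (nat_lit 1) (nat_lit 2) (nat_lit 9) (C.cons (nat_lit 518) (C.node (nat_lit 1) (nat_lit 4) (nat_lit 6) C.nil) C.nil)) C.nil)) C.nil)) C.nil)) (C.cons (nat_lit 70) (C.node (nat_lit 2) (nat_lit 6) (nat_lit 8) (C.cons (nat_lit 324) (C.node (nat_lit 1) (nat_lit 7) (nat_lit 9) (C.cons (nat_lit 650) (C.node (nat_lit 3) (nat_lit 5) (nat_lit 7) C.nil) C.nil)) C.nil)) C.nil))) C.nil))))) (C.cons (nat_lit 704) (C.ref (nat_lit 115) (nat_lit 11649936536080)) C.nil))) C.nil))) List.nil))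

theorem ok11_115 : okL par11 (nat_lit 117) c11_115 (nat_lit 115) = true := by decide +kernel

noncomputable def c11_117 : List C :=
  (List.cons (C.node (nat_lit 1) (nat_lit 7) (nat_lit 10) (C.cons (nat_lit 1186) (C.node (nat_lit 1) (nat_lit 9) (nat_lit 10) (C.cons (nat_lit 1546) (C.miq (nat_lit 1368422962) (nat_lit 641942654261976216281875596)) (C.cons (nat_lit 1538) (C.node (nat_lit 6) (nat_lit 7) (nat_lit 9) (C.cons (nat_lit 736) (C.miq (nat_lit 395486560) (nat_lit 778567246758793666571863153)) (C.cons (nat_lit 704) (C.node (nat_lit 3) (nat_lit 5) (nat_lit 7) (C.cons (nat_lit 680) (C.miq (nat_lit 361801522) (nat_lit 658883590616945137757783180)) (C.cons (nat_lit 232) (C.miq (nat_lit 925390400) (nat_lit 469068696758769116670919793)) (C.cons (nat_lit 168) (C.node (nat_lit 1) (nat_lit 2) (nat_lit 4) (C.cons (nat_lit 62) (C.miq (nat_lit 2266106452) (nat_lit 162001170117187251052872817)) (C.cons (nat_lit 54) (C.miq (nat_lit 2266106452)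 (nat_lit 162001170117187251052348529)) (C.cons (nat_lit 30) (C.miq (nat_lit 2536770081) (nat_lit 184975446162859833107022855)) (C.cons (nat_lit 22) (C.node (nat_lit 2) (nat_lit 5) (nat_lit 6) (C.cons (nat_lit 358) (C.miq (nat_lit 2188596800) (nat_lit 1407195132815187203300328561)) (C.cons (nat_lit 356) (C.miq (nat_lit 2188596800) (nat_lit 1407195132814624253346907249)) (C.cons (nat_lit 102) (C.miq (nat_lit 2534541910) (nat_lit 162006925501338248435598449)) (C.cons (nat_lit 100) (C.node (nat_lit 1) (nat_lit 2) (nat_lit 6) (C.cons (nat_lit 326) (C.node (nat_lit 2) (nat_lit 3) (nat_lit 8) (C.cons (nat_lit 268) (C.node (nat_lit 1) (nat_lit 2) (nat_lit 3) (C.cons (nat_lit 46) (C.miq (nat_lit 2538801682) (nat_lit 203110403368235640371938311)) (C.cons (nat_lit 14) (C.node (nat_lit 1) (nat_lit 4) (nat_lit 7) (C.cons (nat_lit 402) (C.miq (nat_lit 1210282336) (nat_lit 323994942121718237218275523)) (C.cons (nat_lit 146) (C.node (nat_lit 1)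 (nat_lit 6) (nat_lit 10) (C.cons (nat_lit 1098) (C.miq (nat_lit 829581904) (nat_lit 162006925269684342606857329)) (C.cons (nat_lit 1090) (C.node (nat_lit 4) (nat_lit 7) (nat_lit 8) (C.cons (nat_lit 432) (C.miq (nat_lit 1411479562) (nat_lit 26618245991591641084266369)) (C.cons (nat_lit 400) (C.node (nat_lit 1) (nat_lit 2) (nat_lit 5) (C.cons (nat_lit 550) (C.node (nat_lit 1) (nat_lit 6) (nat_lit 9) (C.cons (nat_lit 578) (C.node (nat_lit 2) (nat_lit 8) (nat_lit 9) (C.cons (nat_lit 772) (C.node (nat_lit 1) (nat_lit 4) (nat_lit 6) (C.cons (nat_lit 90) (C.node (nat_lit 1) (nat_lit 3) (nat_lit 5) (C.cons (nat_lit 42) (C.node (nat_lit 1) (nat_lit 5) (nat_lit 6) (C.cons (nat_lit 98) (C.node (nat_lit 3) (nat_lit 5) (nat_lit 6) C.nil) C.nil)) C.nil)) (C.cons (nat_lit 82) (C.node (nat_lit 1) (nat_lit 3) (nat_lit 6) (C.cons (nat_lit 106) (C.node (nat_lit 3) (nat_lit 6) (nat_lit 7) (C.cons (nat_lit 200) (C.node (nat_lit 1) (nat_lit 7) (nat_lit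 8) C.nil) C.nil)) C.nil)) C.nil))) C.nil)) C.nil)) (C.cons (nat_lit 38) (C.node (nat_lit 1) (nat_lit 2) (nat_lit 9) (C.cons (nat_lit 518) (C.node (nat_lit 1) (nat_lit 4) (nat_lit 6) (C.cons (nat_lit 90) (C.node (nat_lit 3) (nat_lit 5) (nat_lit 6) (C.cons (nat_lit 104) (C.node (nat_lit 1) (nat_lit 4) (nat_lit 10) (C.cons (nat_lit 1298) (C.miq (nat_lit 1095928432) (nat_lit 45944291258823939797092225)) (C.cons (nat_lit 1042) (C.node (nat_lit 1) (nat_lit 7) (nat_lit 8) (C.cons (nat_lit 394) (C.miq (nat_lit 2171237184) (nat_lit 1317764579686212923923955865)) C.nil)) C.nil))) C.nil)) (C.cons (nat_lit 82) (C.node (nat_lit 3) (nat_lit 4) (nat_lit 6) (C.cons (nat_lit 344) (C.miq (nat_lit 1481048930) (nat_lit 483573371642223377524195917)) (C.cons (nat_lit 88) (C.node (nat_lit 1) (nat_lit 3) (nat_lit 6) (C.cons (nat_lit 106) (C.node (nat_lit 1) (nat_lit 6) (nat_lit 9) C.nil) C.nil)) C.nil))) C.nil))) C.nil)) C.nil))) C.nil))) C.nil))) C.nil)))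 C.nil))) C.nil)) (C.cons (nat_lit 70) (C.node (nat_lit 2) (nat_lit 6) (nat_lit 8) (C.cons (nat_lit 324) (C.node (nat_lit 1) (nat_lit 4) (nat_lit 7) (C.cons (nat_lit 402) (C.node (nat_lit 1) (nat_lit 3) (nat_lit 7) (C.cons (nat_lit 650) (C.miq (nat_lit 826447744) (nat_lit 26607233346741718226372481)) (C.cons (nat_lit 138)
  (C.node (nat_lit 1) (nat_lit 7) (nat_lit 9) (C.cons (nat_lit 642) (C.node (nat_lit 3) (nat_lit 7) (nat_lit 9) (C.cons (nat_lit 648) (C.node (nat_lit 3) (nat_lit 5) (nat_lit 6) (C.cons (nat_lit 106) (C.miq (nat_lit 2534607446) (nat_lit 166842628779796765134685297)) (C.cons (nat_lit 104) (C.node (nat_lit 3) (nat_lit 5) (nat_lit 10) (C.cons (nat_lit 1576) (C.miq (nat_lit 372600986) (nat_lit 125750163133283003995260801)) (C.cons (nat_lit 1064) (C.node (nat_lit 5) (nat_lit 9) (nat_lit 10) (C.cons (nat_lit 1572) (C.miq (nat_lit 371552410) (nat_lit 120914459854824487296173953)) (C.cons (nat_lit 1568) (C.node (nat_lit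 1) (nat_lit 4) (nat_lit 5) (C.cons (nat_lit 58) (C.node (nat_lit 1) (nat_lit 4) (nat_lit 6) (C.cons (nat_lit 82) (C.node (nat_lit 1) (nat_lit 4) (nat_lit 10) (C.cons (nat_lit 1042) (C.node (nat_lit 1) (nat_lit 3) (nat_lit 9) (C.cons (nat_lit 778) (C.miq (nat_lit 2203750720) (nat_lit 1286332508484318818999534099)) C.nil)) C.nil)) C.nil)) (C.cons (nat_lit 50) (C.node (nat_lit 1) (nat_lit 4) (nat_lit 6) (C.cons (nat_lit 90) (C.node (nat_lit 1) (nat_lit 4) (nat_lit 10) (C.cons (nat_lit 1042) (C.node (nat_lit 1) (nat_lit 6) (nat_lit 10) (C.cons (nat_lit 1346) (C.miq (nat_lit 2167907904) (nat_lit 166867199681050127367734385)) C.nil)) C.nil)) (C.cons (nat_lit 82) (C.node (nat_lit 3) (nat_lit 6) (nat_lit 7) (C.cons (nat_lit 200) (C.node (nat_lit 3) (nat_lit 7) (nat_lit 8) (C.cons (nat_lit 392) (C.node (nat_lit 5) (nat_lit 6) (nat_lit 7) C.nil) C.nil)) C.nil)) C.nil))) C.nil))) C.nil))) C.nil))) C.nil))) C.nil)) C.nil)) C.nil))) (C.cons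 (nat_lit 146) (C.node (nat_lit 4) (nat_lit 7) (nat_lit 8) (C.cons (nat_lit 432) (C.miq (nat_lit 1411479562) (nat_lit 26618245991591641084266369)) (C.cons (nat_lit 400) (C.node (nat_lit 1) (nat_lit 7) (nat_lit 8) (C.cons (nat_lit 394) (C.node (nat_lit 1) (nat_lit 7) (nat_lit 9) (C.cons (nat_lit 642) (C.node (nat_lit 2) (nat_lit 3) (nat_lit 8) (C.cons (nat_lit 268) (C.node (nat_lit 3) (nat_lit 6) (nat_lit 7) (C.cons (nat_lit 200) (C.node (nat_lit 3) (nat_lit 7) (nat_lit 9) (C.cons (nat_lit 648) (C.node (nat_lit 4) (nat_lit 5) (nat_lit 7) (C.cons (nat_lit 688) (C.node (nat_lit 5) (nat_lit 6) (nat_lit 7) (C.cons (nat_lit 480) (C.node (nat_lit 3) (nat_lit 5) (nat_lit 6) (C.cons (nat_lit 106) (C.miq (nat_lit 2534607446) (nat_lit 476327638601141833859466353)) C.nil)) C.nil)) C.nil)) C.nil)) C.nil)) C.nil)) C.nil)) (C.cons (nat_lit 386) (C.node (nat_lit 1) (nat_lit 3) (nat_lit 7) (C.cons (nat_lit 650) (C.node (nat_lit 3) (nat_lit 5) (nat_lit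 6) (C.cons (nat_lit 106) (C.node (nat_lit 1) (nat_lit 2) (nat_lit 3) (C.cons (nat_lit 270) (C.miq (nat_lit 1108740149) (nat_lit 84645781399005578186588457)) (C.cons (nat_lit 14) (C.node (nat_lit 2) (nat_lit 3) (nat_lit 8) (C.cons (nat_lit 268) (C.node (nat_lit 1) (nat_lit 4) (nat_lit 6) (C.cons (nat_lit 82) (C.node (nat_lit 1) (nat_lit 4) (nat_lit 5) C.nil) C.nil)) C.nil)) C.nil))) (C.cons (nat_lit 104) (C.miq (nat_lit 325417226) (nat_lit 125750163261354118369838977)) C.nil))) (C.cons (nat_lit 138) (C.node (nat_lit 1) (nat_lit 7) (nat_lit 9) (C.cons (nat_lit 642) (C.node (nat_lit 3) (nat_lit 7) (nat_lit 9) C.nil) C.nil)) C.nil))) C.nil))) C.nil))) C.nil))) C.nil)) C.nil))) C.nil))))) C.nil))))) C.nil)))) C.nil))) C.nil))) (C.cons (nat_lit 1154) (C.node (nat_lit 5) (nat_lit 7) (nat_lit 10) (C.cons (nat_lit 1184) (C.node (nat_lit 2) (nat_lit 3) (nat_lit 8) (C.cons (nat_lit 270) (C.node (nat_lit 2) (nat_lit 6) (nat_lit 8) (C.cons (nat_lit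 356) (C.miq (nat_lit 2188596800) (nat_lit 1407195132814624253346907249)) (C.cons (nat_lit 324) (C.node (nat_lit 3) (nat_lit 5) (nat_lit 6) (C.cons (nat_lit 232) (C.miq (nat_lit 925390400) (nat_lit 469068696758769116670919793)) (C.cons (nat_lit 106) (C.miq (nat_lit 373437704) (nat_lit 256297254409042517543944489)) (C.cons (nat_lit 104) (C.node (nat_lit 1) (nat_lit 2) (nat_lit 4) (C.cons (nat_lit 54) (C.node (nat_lit 1) (nat_lit 2) (nat_lit 6) (C.cons (nat_lit 70) (C.node (nat_lit 1) (nat_lit 2) (nat_lit 9) (C.cons (nat_lit 518)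
  (C.node (nat_lit 2) (nat_lit 3) (nat_lit 4) (C.cons (nat_lit 28) (C.node (nat_lit 2) (nat_lit 3) (nat_lit 5) (C.cons (nat_lit 44) (C.node (nat_lit 2) (nat_lit 5) (nat_lit 6) (C.cons (nat_lit 100) (C.node (nat_lit 2) (nat_lit 8) (nat_lit 10) (C.cons (nat_lit 1316) (C.miq (nat_lit 2182718784) (nat_lit 626259011126164809860711537)) (C.cons (nat_lit 1284) (C.node (nat_lit 4) (nat_lit 7) (nat_lit 9) (C.cons (nat_lit 688) (C.miq (nat_lit 2807171393) (nat_lit 199491779370270193576444435)) (C.cons (nat_lit 656) (C.node (nat_lit 4) (nat_lit 5) (nat_lit 7) (C.cons (nat_lit 432) (C.miq (nat_lit 846726725) (nat_lit 469068696859255683366782065)) (C.cons (nat_lit 176) (C.node (nat_lit 4) (nat_lit 5) (nat_lit 8) (C.cons (nat_lit 816) (C.miq (nat_lit 1386758409) (nat_lit 1552275804943552084296401427)) (C.cons (nat_lit 304) (C.node (nat_lit 5) (nat_lit 8) (nat_lit 10) (C.cons (nat_lit 1314) (C.miq (nat_lit 1703086610) (nat_lit 359061833877846971938374663))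 (C.cons (nat_lit 1312) (C.node (nat_lit 1) (nat_lit 5) (nat_lit 10) (C.cons (nat_lit 1578) (C.miq (nat_lit 2435360064) (nat_lit 326445407935483218415125617)) (C.cons (nat_lit 1570) (C.miq (nat_lit 2435360064) (nat_lit 326445407933231418601440369)) (C.cons (nat_lit 1066) (C.miq (nat_lit 1161300498) (nat_lit 359056078493694909406381063)) (C.cons (nat_lit 1058) (C.node (nat_lit 2) (nat_lit 5) (nat_lit 8) (C.cons (nat_lit 292) (C.node (nat_lit 2) (nat_lit 8) (nat_lit 9) C.nil) C.nil)) C.nil))))) C.nil))) C.nil))) C.nil))) C.nil))) C.nil))) C.nil)) C.nil)) C.nil)) C.nil)) C.nil)) (C.cons (nat_lit 22) (C.node (nat_lit 1) (nat_lit 2) (nat_lit 6) (C.cons (nat_lit 102) (C.node (nat_lit 1) (nat_lit 2) (nat_lit 9) (C.cons (nat_lit 518) (C.node (nat_lit 2) (nat_lit 3) (nat_lit 4) (C.cons (nat_lit 60) (C.miq (nat_lit 305620288) (nat_lit 1407193251175233438053106801)) (C.cons (nat_lit 28) (C.node (nat_lit 2) (nat_lit 3) (nat_lit 5) (C.cons (nat_lit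 44) (C.node (nat_lit 2) (nat_lit 8) (nat_lit 10) (C.cons (nat_lit 1316) (C.miq (nat_lit 2182587744) (nat_lit 162031496394147412909950065)) (C.cons (nat_lit 1284) (C.node (nat_lit 2) (nat_lit 5) (nat_lit 10) (C.cons (nat_lit 1572) (C.miq (nat_lit 2451023200) (nat_lit 162031496466205006947878001)) (C.cons (nat_lit 1060) (C.node (nat_lit 5) (nat_lit 8) (nat_lit 10) (C.cons (nat_lit 1314) (C.miq (nat_lit 2166990176) (nat_lit 626259011125602066069521521)) (C.cons (nat_lit 1312) (C.node (nat_lit 6) (nat_lit 7) (nat_lit 9) (C.cons (nat_lit 736) (C.miq (nat_lit 443883670) (nat_lit 1431370052281825412895474253)) (C.cons (nat_lit 704) (C.node (nat_lit 5) (nat_lit 6) (nat_lit 7) (C.cons (nat_lit 480) (C.miq (nat_lit 2234152464) (nat_lit 1281496805121980948212547779)) (C.cons (nat_lit 224) (C.node (nat_lit 5) (nat_lit 6) (nat_lit 8) (C.cons (nat_lit 864) (C.miq (nat_lit 444932246) (nat_lit 1586112557192497947266253389)) (C.cons (nat_lit 352)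 (C.node (nat_lit 5) (nat_lit 6) (nat_lit 9) (C.cons (nat_lit 608) (C.node (nat_lit 2) (nat_lit 4) (nat_lit 5) C.nil) C.nil)) C.nil))) C.nil))) C.nil))) C.nil))) C.nil))) C.nil))) C.nil)) C.nil))) C.nil)) (C.cons (nat_lit 70) (C.node (nat_lit 2) (nat_lit 5) (nat_lit 6) (C.cons (nat_lit 100) (C.node (nat_lit 1) (nat_lit 2) (nat_lit 5) (C.cons (nat_lit 550) (C.node (nat_lit 2) (nat_lit 8) (nat_lit 9) (C.cons (nat_lit 772) (C.node (nat_lit 1) (nat_lit 5) (nat_lit 10) (C.cons (nat_lit 1314) (C.miq (nat_lit 1703086610) (nat_lit 359061833877846971938374663)) (C.cons (nat_lit 1066) (C.miq (nat_lit 1161300498) (nat_lit 359056078493694909406381063)) (C.cons (nat_lit 1058) (C.node (nat_lit 1) (nat_lit 5) (nat_lit 6) (C.cons (nat_lit 354) (C.node (nat_lit 1) (nat_lit 6) (nat_lit 9) (C.cons (nat_lit 578) (C.node (nat_lit 1) (nat_lit 8) (nat_lit 9) (C.cons (nat_lit 770) (C.node (nat_lit 5) (nat_lit 7) (nat_lit 8) (C.cons (nat_lit 432) (C.miq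 (nat_lit 846726725) (nat_lit 469068696859255683366782065)) (C.cons (nat_lit 416) (C.node (nat_lit 1) (nat_lit 4) (nat_lit 6) (C.cons (nat_lit 90) (C.node (nat_lit 1) (nat_lit 6) (nat_lit 10)
  (C.cons (nat_lit 1090) (C.node (nat_lit 1) (nat_lit 4) (nat_lit 10) (C.cons (nat_lit 1298) (C.miq (nat_lit 2551384646) (nat_lit 326420836968928297231189105)) C.nil)) C.nil)) (C.cons (nat_lit 82) (C.node (nat_lit 1) (nat_lit 7) (nat_lit 8) (C.cons (nat_lit 402) (C.node (nat_lit 1) (nat_lit 7) (nat_lit 9) (C.cons (nat_lit 650) (C.miq (nat_lit 826447744) (nat_lit 26607233346741718226372481)) C.nil)) C.nil)) C.nil))) C.nil))) C.nil)) C.nil)) (C.cons (nat_lit 98) (C.node (nat_lit 1) (nat_lit 6) (nat_lit 9) (C.cons (nat_lit 834) (C.node (nat_lit 4) (nat_lit 6) (nat_lit 9) (C.cons (nat_lit 592) (C.node (nat_lit 4) (nat_lit 6) (nat_lit 8) (C.cons (nat_lit 344) (C.miq (nat_lit 1966481540) (nat_lit 125732195996109707379474709)) (C.cons (nat_lit 336)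 (C.node (nat_lit 1) (nat_lit 6) (nat_lit 10) (C.cons (nat_lit 1098) (C.miq (nat_lit 944116234) (nat_lit 406219329991507769281283079)) (C.cons (nat_lit 1090) (C.node (nat_lit 1) (nat_lit 8) (nat_lit 10) (C.cons (nat_lit 1298) (C.miq (nat_lit 910696609) (nat_lit 406204056177208949025670151)) (C.cons (nat_lit 1282) (C.node (nat_lit 1) (nat_lit 3) (nat_lit 6) C.nil) C.nil))) C.nil))) C.nil))) C.nil)) (C.cons (nat_lit 578) (C.node (nat_lit 1) (nat_lit 8) (nat_lit 9) (C.cons (nat_lit 770) (C.node (nat_lit 1) (nat_lit 7) (nat_lit 9) (C.cons (nat_lit 650) (C.node (nat_lit 1) (nat_lit 9) (nat_lit 10) (C.cons (nat_lit 1538) (C.node (nat_lit 1) (nat_lit 3) (nat_lit 5) (C.cons (nat_lit 58) (C.miq (nat_lit 1517502609) (nat_lit 1407190724262629933706773011)) C.nil)) C.nil)) (C.cons (nat_lit 642) (C.node (nat_lit 1) (nat_lit 3) (nat_lit 7) (C.cons (nat_lit 170) (C.node (nat_lit 1) (nat_lit 4) (nat_lit 5) (C.cons (nat_lit 306) (C.miq (nat_lit 1695745154)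 (nat_lit 205528254786784737423655189)) C.nil)) C.nil)) C.nil))) C.nil)) C.nil))) C.nil))) C.nil)))) C.nil)) (C.cons (nat_lit 38) (C.node (nat_lit 1) (nat_lit 2) (nat_lit 9) (C.cons (nat_lit 518) (C.node (nat_lit 2) (nat_lit 3) (nat_lit 4) (C.cons (nat_lit 60) (C.node (nat_lit 2) (nat_lit 4) (nat_lit 9) (C.cons (nat_lit 1556) (C.miq (nat_lit 2453185616) (nat_lit 326445407929290794698605681)) (C.cons (nat_lit 532) (C.node (nat_lit 2) (nat_lit 4) (nat_lit 10) (C.cons (nat_lit 1044) (C.node (nat_lit 2) (nat_lit 8) (nat_lit 9) (C.cons (nat_lit 804) (C.miq (nat_lit 2454160688) (nat_lit 256327710179973120069796137)) (C.cons (nat_lit 772) (C.node (nat_lit 1) (nat_lit 3) (nat_lit 4) C.nil) C.nil))) C.nil)) C.nil))) (C.cons (nat_lit 28) (C.node (nat_lit 2) (nat_lit 3) (nat_lit 5) (C.cons (nat_lit 44) (C.node (nat_lit 2) (nat_lit 4) (nat_lit 5) (C.cons (nat_lit 564) (C.node (nat_lit 2) (nat_lit 4) (nat_lit 10) (C.cons (nat_lit 1044) (C.node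 (nat_lit 1) (nat_lit 3) (nat_lit 6) C.nil) C.nil)) (C.cons (nat_lit 52) (C.node (nat_lit 2) (nat_lit 4) (nat_lit 9) (C.cons (nat_lit 1556) (C.node (nat_lit 1) (nat_lit 3) (nat_lit 6) C.nil) (C.cons (nat_lit 532) (C.node (nat_lit 2) (nat_lit 4) (nat_lit 10) (C.cons (nat_lit 1044) (C.node (nat_lit 2) (nat_lit 8) (nat_lit 9) (C.cons (nat_lit 804) (C.node (nat_lit 2) (nat_lit 5) (nat_lit 10) C.nil) C.nil)) C.nil)) C.nil))) C.nil))) C.nil)) C.nil))) C.nil)) C.nil))) C.nil)) C.nil))) C.nil))) C.nil)))) C.nil))) (C.cons (nat_lit 268) (C.node (nat_lit 2) (nat_lit 4) (nat_lit 10) (C.cons (nat_lit 1556) (C.node (nat_lit 2) (nat_lit 3) (nat_lit 4) (C.cons (nat_lit 62) (C.miq (nat_lit 2453185616) (nat_lit 324027556290061544939127921)) (C.cons (nat_lit 60) (C.miq (nat_lit 2453185616) (nat_lit 324027556290061536349193329)) (C.cons (nat_lit 30) (C.miq (nat_lit 2536770081) (nat_lit 184975446162859833107022855)) (C.cons (nat_lit 28) (C.node (nat_lit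 1) (nat_lit 2) (nat_lit 3) (C.cons (nat_lit 46) (C.node (nat_lit 1) (nat_lit 2) (nat_lit 4) (C.cons (nat_lit 22) (C.node (nat_lit 2) (nat_lit 4) (nat_lit 5) (C.cons (nat_lit 52) (C.node (nat_lit 2) (nat_lit 5) (nat_lit 6) (C.cons (nat_lit 356) (C.miq (nat_lit 2188596800) (nat_lit 1407195132814624253346907249)) (C.cons (nat_lit 100) (C.node (nat_lit 3) (nat_lit 5) (nat_lit 6) (C.cons (nat_lit 232)
  (C.miq (nat_lit 925390400) (nat_lit 469068696758769116670919793)) (C.cons (nat_lit 104) (C.node (nat_lit 3) (nat_lit 5) (nat_lit 7) (C.cons (nat_lit 680) (C.miq (nat_lit 443883667) (nat_lit 1431369019264157285156913741)) (C.cons (nat_lit 168) (C.node (nat_lit 3) (nat_lit 5) (nat_lit 10) (C.cons (nat_lit 1576) (C.miq (nat_lit 2207384996) (nat_lit 712062417584729838501233777)) (C.cons (nat_lit 1064) (C.node (nat_lit 3) (nat_lit 9) (nat_lit 10) (C.cons (nat_lit 1546) (C.miq (nat_lit 1470177427) (nat_lit 1395101244431961080141054541)) (C.cons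 (nat_lit 1544) (C.node (nat_lit 1) (nat_lit 2) (nat_lit 6) (C.cons (nat_lit 326) (C.node (nat_lit 1) (nat_lit 2) (nat_lit 9) (C.cons (nat_lit 518) (C.node (nat_lit 4) (nat_lit 7) (nat_lit 8) (C.cons (nat_lit 434) (C.miq (nat_lit 846726725) (nat_lit 469068696859255683366913137)) (C.cons (nat_lit 432) (C.miq (nat_lit 846726725) (nat_lit 469068696859255683366782065)) (C.cons (nat_lit 402) (C.miq (nat_lit 1210282336) (nat_lit 323994942121718237218275523)) (C.cons (nat_lit 400) (C.node (nat_lit 1) (nat_lit 4) (nat_lit 6) (C.cons (nat_lit 90) (C.node (nat_lit 1) (nat_lit 3) (nat_lit 10) (C.cons (nat_lit 1290) (C.miq (nat_lit 2203558176) (nat_lit 203134974253726214935348231)) C.nil)) (C.cons (nat_lit 82) (C.node (nat_lit 1) (nat_lit 6) (nat_lit 10) (C.cons (nat_lit 1098) (C.node (nat_lit 1) (nat_lit 4) (nat_lit 10) (C.cons (nat_lit 1298) (C.miq (nat_lit 830630464) (nat_lit 394120682635693625194120305)) C.nil)) C.nil)) C.nil))) C.nil)))))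 C.nil)) (C.cons (nat_lit 70) (C.node (nat_lit 2) (nat_lit 6) (nat_lit 8) (C.cons (nat_lit 324) (C.node (nat_lit 1) (nat_lit 2) (nat_lit 8) (C.cons (nat_lit 774) (C.node (nat_lit 2) (nat_lit 5) (nat_lit 9) (C.cons (nat_lit 548) (C.node (nat_lit 2) (nat_lit 5) (nat_lit 10) (C.cons (nat_lit 1316) (C.miq (nat_lit 1377085584) (nat_lit 26617342349958043294435201)) C.nil)) C.nil)) (C.cons (nat_lit 262) (C.node (nat_lit 1) (nat_lit 2) (nat_lit 9) (C.cons (nat_lit 518) (C.node (nat_lit 1) (nat_lit 9) (nat_lit 10) C.nil) C.nil)) C.nil))) C.nil)) C.nil))) C.nil))) C.nil))) C.nil))) C.nil))) C.nil))) C.nil)) C.nil)) (C.cons (nat_lit 14) (C.node (nat_lit 2) (nat_lit 3) (nat_lit 5) (C.cons (nat_lit 44) (C.node (nat_lit 1) (nat_lit 2) (nat_lit 4) (C.cons (nat_lit 54) (C.node (nat_lit 1) (nat_lit 2) (nat_lit 9) (C.cons (nat_lit 774) (C.miq (nat_lit 2152831554) (nat_lit 42326682007143385950193172)) (C.cons (nat_lit 518) (C.node (nat_lit 2) (nat_lit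 5) (nat_lit 6) (C.cons (nat_lit 356) (C.miq (nat_lit 2188596800) (nat_lit 1407195132814624253346907249)) (C.cons (nat_lit 100) (C.node (nat_lit 2) (nat_lit 5) (nat_lit 10) (C.cons (nat_lit 1316) (C.miq (nat_lit 2182718784) (nat_lit 626259011126164809860711537)) (C.cons (nat_lit 1060) (C.node (nat_lit 2) (nat_lit 8) (nat_lit 10) (C.cons (nat_lit 1284) (C.node (nat_lit 4) (nat_lit 7) (nat_lit 9) (C.cons (nat_lit 688) (C.miq (nat_lit 1965724688) (nat_lit 1281496805180527537209934355)) (C.cons (nat_lit 656) (C.node (nat_lit 4) (nat_lit 5) (nat_lit 7) (C.cons (nat_lit 432) (C.miq (nat_lit 846726725) (nat_lit 469068696859255683366782065)) (C.cons (nat_lit 176) (C.node (nat_lit 1) (nat_lit 2) (nat_lit 6) (C.cons (nat_lit 326) (C.node (nat_lit 2) (nat_lit 5) (nat_lit 8) (C.cons (nat_lit 804) (C.node (nat_lit 4) (nat_lit 5) (nat_lit 8) (C.cons (nat_lit 304) (C.node (nat_lit 1) (nat_lit 4) (nat_lit 7) (C.cons (nat_lit 402) (C.miq (nat_lit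 1210282336) (nat_lit 323994942121718237218275523)) (C.cons (nat_lit 146) (C.node (nat_lit 5) (nat_lit 9) (nat_lit 10) (C.cons (nat_lit 1578) (C.miq (nat_lit 2435360064) (nat_lit 394145253833902452198671473)) (C.cons (nat_lit 1576) (C.miq (nat_lit 958945856) (nat_lit 971981838096762994483856497)) (C.cons (nat_lit 1570) (C.miq (nat_lit 2435360064) (nat_lit 394145253831650652384986225)) C.nil)))) C.nil))) C.nil)) C.nil)) C.nil)) C.nil))) C.nil))) C.nil)) C.nil))) C.nil))) C.nil))) (C.cons (nat_lit 22) (C.node (nat_lit 2) (nat_lit 4) (nat_lit 5) (C.cons (nat_lit 52) (C.node (nat_lit 2) (nat_lit 5) (nat_lit 10)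
  (C.cons (nat_lit 1316) (C.node (nat_lit 2) (nat_lit 5) (nat_lit 6) (C.cons (nat_lit 102) (C.miq (nat_lit 2182587744) (nat_lit 162031496394147412909950065)) (C.cons (nat_lit 100) (C.node (nat_lit 2) (nat_lit 8) (nat_lit 9) (C.cons (nat_lit 774) (C.miq (nat_lit 1377085584) (nat_lit 26617342349958043294435201)) (C.cons (nat_lit 772) (C.node (nat_lit 5) (nat_lit 9) (nat_lit 10) (C.cons (nat_lit 1578) (C.miq (nat_lit 354720384) (nat_lit 62873938285237022301161345)) (C.cons (nat_lit 1576) (C.miq (nat_lit 958945856) (nat_lit 933296211869094860893258865)) (C.cons (nat_lit 1570) (C.miq (nat_lit 354720384) (nat_lit 62873938282985222487476097)) (C.cons (nat_lit 1568) (C.node (nat_lit 1) (nat_lit 2) (nat_lit 5) (C.cons (nat_lit 550) (C.node (nat_lit 1) (nat_lit 2) (nat_lit 6) (C.cons (nat_lit 326) (C.node (nat_lit 1) (nat_lit 6) (nat_lit 9) (C.cons (nat_lit 578) (C.node (nat_lit 1) (nat_lit 4) (nat_lit 7) (C.cons (nat_lit 434) (C.miq (nat_lit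 846726725) (nat_lit 469068696859255683366913137)) (C.cons (nat_lit 402) (C.miq (nat_lit 1210282336) (nat_lit 323994942121718237218275523)) (C.cons (nat_lit 178) (C.miq (nat_lit 844564756) (nat_lit 199475582754048214914171411)) (C.cons (nat_lit 146) (C.node (nat_lit 4) (nat_lit 7) (nat_lit 8) (C.cons (nat_lit 432) (C.miq (nat_lit 846726725) (nat_lit 469068696859255683366782065)) (C.cons (nat_lit 400) (C.node (nat_lit 1) (nat_lit 4) (nat_lit 6) (C.cons (nat_lit 90) (C.node (nat_lit 1) (nat_lit 7) (nat_lit 9) C.nil) (C.cons (nat_lit 82) (C.node (nat_lit 1) (nat_lit 7) (nat_lit 9) (C.cons (nat_lit 650) (C.node (nat_lit 1) (nat_lit 5) (nat_lit 7) C.nil) C.nil)) C.nil))) C.nil))) C.nil))))) C.nil)) (C.cons (nat_lit 70) (C.node (nat_lit 1) (nat_lit 2) (nat_lit 8) (C.cons (nat_lit 262) (C.node (nat_lit 1) (nat_lit 5) (nat_lit 10) C.nil) C.nil)) C.nil))) (C.cons (nat_lit 38) (C.node (nat_lit 1) (nat_lit 2) (nat_lit 9) (C.cons (nat_lit 518)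 (C.node (nat_lit 2) (nat_lit 5) (nat_lit 9) (C.cons (nat_lit 548) (C.node (nat_lit 1) (nat_lit 2) (nat_lit 6) (C.cons (nat_lit 326) (C.node (nat_lit 1) (nat_lit 4) (nat_lit 6) C.nil) C.nil)) C.nil)) C.nil)) C.nil))) C.nil))))) C.nil))) C.nil))) (C.cons (nat_lit 1060) (C.node (nat_lit 2) (nat_lit 8) (nat_lit 10) (C.cons (nat_lit 1284) (C.node (nat_lit 4) (nat_lit 6) (nat_lit 9) (C.cons (nat_lit 848) (C.node (nat_lit 6) (nat_lit 7) (nat_lit 9) (C.cons (nat_lit 736) (C.miq (nat_lit 610601111) (nat_lit 1374551700692577744446293889)) (C.cons (nat_lit 704) (C.node (nat_lit 3) (nat_lit 6) (nat_lit 7) (C.cons (nat_lit 456) (C.miq (nat_lit 843479704) (nat_lit 256300685801242552509138817)) (C.cons (nat_lit 232) (C.miq (nat_lit 925390400) (nat_lit 469068696758769116670919793)) (C.cons (nat_lit 200) (C.node (nat_lit 1) (nat_lit 4) (nat_lit 6) (C.cons (nat_lit 90) (C.node (nat_lit 3) (nat_lit 5) (nat_lit 6) (C.cons (nat_lit 104) (C.node (nat_lit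 1) (nat_lit 4) (nat_lit 10) (C.cons (nat_lit 1298) (C.miq (nat_lit 342010000) (nat_lit 256311292716799541526726529)) (C.cons (nat_lit 1042) (C.node (nat_lit 2) (nat_lit 5) (nat_lit 6) (C.cons (nat_lit 358) (C.miq (nat_lit 2188596800) (nat_lit 1407195132815187203300328561)) (C.cons (nat_lit 356) (C.miq (nat_lit 2188596800) (nat_lit 1407195132814624253346907249)) (C.cons (nat_lit 102) (C.miq (nat_lit 1913849188) (nat_lit 16927783872891895257105521)) C.nil)))) C.nil))) C.nil)) (C.cons (nat_lit 82) (C.node (nat_lit 3) (nat_lit 4) (nat_lit 6) (C.cons (nat_lit 88) (C.node (nat_lit 1) (nat_lit 6) (nat_lit 9) (C.cons (nat_lit 610) (C.node (nat_lit 3) (nat_lit 5) (nat_lit 6) (C.cons (nat_lit 104) (C.node (nat_lit 2) (nat_lit 5) (nat_lit 6) (C.cons (nat_lit 356) (C.miq (nat_lit 2188596800) (nat_lit 1407195132814624253346907249)) C.nil)) C.nil)) (C.cons (nat_lit 578) (C.node (nat_lit 5) (nat_lit 6) (nat_lit 9) (C.cons (nat_lit 608) (C.node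 (nat_lit 5) (nat_lit 8) (nat_lit 10) (C.cons (nat_lit 1314) (C.node (nat_lit 1) (nat_lit 4) (nat_lit 10) C.nil) C.nil)) C.nil)) C.nil))) C.nil)) C.nil))) C.nil)))) C.nil))) (C.cons (nat_lit 592)
  (C.node (nat_lit 4) (nat_lit 7) (nat_lit 9) (C.cons (nat_lit 688) (C.node (nat_lit 6) (nat_lit 7) (nat_lit 9) (C.cons (nat_lit 704) (C.node (nat_lit 1) (nat_lit 4) (nat_lit 7) (C.cons (nat_lit 402) (C.node (nat_lit 4) (nat_lit 5) (nat_lit 8) (C.cons (nat_lit 304) (C.node (nat_lit 1) (nat_lit 7) (nat_lit 9) (C.cons (nat_lit 650) (C.miq (nat_lit 826447744) (nat_lit 26607233346741718226372481)) (C.cons (nat_lit 642) (C.node (nat_lit 2) (nat_lit 6) (nat_lit 8) (C.cons (nat_lit 358) (C.miq (nat_lit 2188596800) (nat_lit 1407195132815187203300328561)) (C.cons (nat_lit 356) (C.miq (nat_lit 2188596800) (nat_lit 1407195132814624253346907249)) (C.cons (nat_lit 326) (C.miq (nat_lit 1210282336) (nat_lit 323994942121718237218275523)) C.nil)))) C.nil)))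 C.nil)) (C.cons (nat_lit 146) (C.node (nat_lit 4) (nat_lit 7) (nat_lit 8) (C.cons (nat_lit 400) (C.node (nat_lit 2) (nat_lit 5) (nat_lit 6) (C.cons (nat_lit 358) (C.miq (nat_lit 2188596800) (nat_lit 1407195132815187203300328561)) (C.cons (nat_lit 356) (C.miq (nat_lit 2188596800) (nat_lit 1407195132814624253346907249)) (C.cons (nat_lit 102) (C.node (nat_lit 2) (nat_lit 6) (nat_lit 8) C.nil) C.nil)))) C.nil)) C.nil))) C.nil)) (C.cons (nat_lit 656) (C.node (nat_lit 5) (nat_lit 8) (nat_lit 10) (C.cons (nat_lit 1314) (C.node (nat_lit 3) (nat_lit 5) (nat_lit 10) (C.cons (nat_lit 1576) (C.miq (nat_lit 2207384996) (nat_lit 712062417584729838501233777)) (C.cons (nat_lit 1064) (C.node (nat_lit 5) (nat_lit 9) (nat_lit 10) (C.cons (nat_lit 1568) (C.node (nat_lit 2) (nat_lit 5) (nat_lit 6) (C.cons (nat_lit 356) (C.miq (nat_lit 2188596800) (nat_lit 1407195132814624253346907249)) (C.cons (nat_lit 102) (C.node (nat_lit 2) (nat_lit 6) (nat_lit 8)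 C.nil) C.nil))) C.nil)) C.nil))) (C.cons (nat_lit 1312) (C.node (nat_lit 2) (nat_lit 5) (nat_lit 6) (C.cons (nat_lit 358) (C.miq (nat_lit 2188596800) (nat_lit 1407195132815187203300328561)) (C.cons (nat_lit 356) (C.miq (nat_lit 2188596800) (nat_lit 1407195132814624253346907249)) (C.cons (nat_lit 102) (C.node (nat_lit 2) (nat_lit 6) (nat_lit 8) C.nil) C.nil)))) C.nil))) C.nil))) C.nil))) C.nil)) C.nil))) C.nil)) C.nil))) C.nil)) C.nil))) C.nil))))) (C.cons (nat_lit 1044) (C.node (nat_lit 2) (nat_lit 4) (nat_lit 9) (C.cons (nat_lit 564) (C.node (nat_lit 2) (nat_lit 9) (nat_lit 10) (C.cons (nat_lit 1540) (C.node (nat_lit 4) (nat_lit 7) (nat_lit 9) (C.cons (nat_lit 656) (C.node (nat_lit 1) (nat_lit 2) (nat_lit 4) (C.cons (nat_lit 30) (C.miq (nat_lit 2536770081) (nat_lit 184975446162859833107022855)) (C.cons (nat_lit 22) (C.node (nat_lit 2) (nat_lit 3) (nat_lit 4) (C.cons (nat_lit 28) (C.node (nat_lit 4) (nat_lit 5) (nat_lit 7) (C.cons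 (nat_lit 434) (C.miq (nat_lit 846726725) (nat_lit 469068696859255683366913137)) (C.cons (nat_lit 432) (C.miq (nat_lit 846726725) (nat_lit 469068696859255683366782065)) (C.cons (nat_lit 178) (C.miq (nat_lit 1649871169) (nat_lit 199476357517299370844881427)) (C.cons (nat_lit 176) (C.node (nat_lit 1) (nat_lit 2) (nat_lit 3) (C.cons (nat_lit 46) (C.node (nat_lit 3) (nat_lit 4) (nat_lit 5) (C.cons (nat_lit 56) (C.node (nat_lit 2) (nat_lit 5) (nat_lit 6) (C.cons (nat_lit 356) (C.miq (nat_lit 2188596800) (nat_lit 1407195132814624253346907249)) (C.cons (nat_lit 100) (C.node (nat_lit 3) (nat_lit 5) (nat_lit 6) (C.cons (nat_lit 232) (C.miq (nat_lit 925390400) (nat_lit 469068696758769116670919793)) (C.cons (nat_lit 104) (C.node (nat_lit 3) (nat_lit 5) (nat_lit 7) (C.cons (nat_lit 680) (C.miq (nat_lit 443883667) (nat_lit 1431369019264157285156913741)) (C.cons (nat_lit 168) (C.node (nat_lit 1) (nat_lit 2) (nat_lit 6) (C.cons (nat_lit 326) (C.node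 (nat_lit 1) (nat_lit 2) (nat_lit 9) (C.cons (nat_lit 518) (C.node (nat_lit 2) (nat_lit 8) (nat_lit 9) (C.cons (nat_lit 772) (C.node (nat_lit 2) (nat_lit 5) (nat_lit 8) (C.cons (nat_lit 1316) (C.node (nat_lit 1) (nat_lit 5) (nat_lit 10) (C.cons (nat_lit 1570) (C.miq (nat_lit 354720384) (nat_lit 681843957925675359937038209)) C.nil)) C.nil)) C.nil)) C.nil)) (C.cons (nat_lit 70)
  (C.node (nat_lit 2) (nat_lit 6) (nat_lit 8) (C.cons (nat_lit 324) (C.node (nat_lit 1) (nat_lit 2) (nat_lit 8) (C.cons (nat_lit 774) (C.node (nat_lit 2) (nat_lit 5) (nat_lit 8) (C.cons (nat_lit 1316) (C.miq (nat_lit 1377085584) (nat_lit 26617342349958043294435201)) C.nil)) C.nil)) C.nil)) C.nil))) C.nil))) C.nil))) C.nil))) C.nil)) (C.cons (nat_lit 14) (C.node (nat_lit 2) (nat_lit 3) (nat_lit 5) (C.cons (nat_lit 44) (C.node (nat_lit 1) (nat_lit 2) (nat_lit 9) (C.cons (nat_lit 774) (C.node (nat_lit 1) (nat_lit 4) (nat_lit 7) (C.cons (nat_lit 402) (C.miq (nat_lit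 840173959) (nat_lit 26599190549157205018544001)) (C.cons (nat_lit 146) (C.node (nat_lit 4) (nat_lit 7) (nat_lit 8) (C.cons (nat_lit 400) (C.node (nat_lit 1) (nat_lit 6) (nat_lit 9) (C.cons (nat_lit 610) (C.miq (nat_lit 369661250) (nat_lit 388079466047913635463103028)) (C.cons (nat_lit 578) (C.node (nat_lit 2) (nat_lit 5) (nat_lit 10) (C.cons (nat_lit 1316) (C.miq (nat_lit 1377085584) (nat_lit 26617342349958043294435201)) (C.cons (nat_lit 1060) (C.node (nat_lit 2) (nat_lit 8) (nat_lit 10) C.nil) C.nil))) C.nil))) C.nil)) C.nil))) (C.cons (nat_lit 518) (C.node (nat_lit 2) (nat_lit 8) (nat_lit 9) (C.cons (nat_lit 772) (C.node (nat_lit 2) (nat_lit 5) (nat_lit 10) C.nil) C.nil)) C.nil))) C.nil)) C.nil))) C.nil))))) C.nil)) C.nil))) C.nil)) C.nil)) (C.cons (nat_lit 532) (C.node (nat_lit 2) (nat_lit 8) (nat_lit 10) (C.cons (nat_lit 1316) (C.node (nat_lit 2) (nat_lit 9) (nat_lit 10) (C.cons (nat_lit 1540) (C.node (nat_lit 2) (nat_lit 5)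 (nat_lit 6) (C.cons (nat_lit 102) (C.miq (nat_lit 2182587744) (nat_lit 162031496394147412909950065)) (C.cons (nat_lit 100) (C.node (nat_lit 2) (nat_lit 3) (nat_lit 4) (C.cons (nat_lit 62) (C.miq (nat_lit 2184684864) (nat_lit 1407225090597215291055866993)) (C.cons (nat_lit 60) (C.miq (nat_lit 2184684864) (nat_lit 1407225090597215282465932401)) (C.cons (nat_lit 30) (C.miq (nat_lit 2536770081) (nat_lit 184975446162859833107022855)) (C.cons (nat_lit 28) (C.node (nat_lit 1) (nat_lit 2) (nat_lit 3) (C.cons (nat_lit 46) (C.node (nat_lit 1) (nat_lit 2) (nat_lit 4) (C.cons (nat_lit 22) (C.node (nat_lit 2) (nat_lit 4) (nat_lit 5) (C.cons (nat_lit 52) (C.node (nat_lit 2) (nat_lit 5) (nat_lit 9) (C.cons (nat_lit 548) (C.node (nat_lit 1) (nat_lit 5) (nat_lit 10) (C.cons (nat_lit 1570) (C.miq (nat_lit 354720384) (nat_lit 62873938282985222487476097)) C.nil)) C.nil)) C.nil)) C.nil)) (C.cons (nat_lit 14) (C.node (nat_lit 2) (nat_lit 3) (nat_lit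 5) (C.cons (nat_lit 44) (C.node (nat_lit 1) (nat_lit 2) (nat_lit 4) (C.cons (nat_lit 54) (C.node (nat_lit 2) (nat_lit 5) (nat_lit 9) (C.cons (nat_lit 548) (C.node (nat_lit 4) (nat_lit 8) (nat_lit 10) (C.cons (nat_lit 1306) (C.miq (nat_lit 1921189284) (nat_lit 323994942055012919802463345)) (C.cons (nat_lit 1304) (C.miq (nat_lit 1921189284) (nat_lit 323994942055012919802332273)) (C.cons (nat_lit 1298) (C.miq (nat_lit 2166858832) (nat_lit 162031496389080657168761969)) C.nil)))) C.nil)) (C.cons (nat_lit 22) (C.node (nat_lit 2) (nat_lit 4) (nat_lit 5) (C.cons (nat_lit 52) (C.node (nat_lit 4) (nat_lit 9) (nat_lit 10) (C.cons (nat_lit 1560) (C.node (nat_lit 1) (nat_lit 9) (nat_lit 10) (C.cons (nat_lit 1570) (C.miq (nat_lit 354720384) (nat_lit 62873938282985222487476097)) C.nil)) C.nil)) C.nil)) C.nil))) C.nil)) C.nil))) C.nil))))) C.nil))) C.nil)) (C.cons (nat_lit 1284) (C.node (nat_lit 2) (nat_lit 5) (nat_lit 10) (C.cons (nat_lit 1572)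 (C.node (nat_lit 4) (nat_lit 9) (nat_lit 10) (C.cons (nat_lit 1560) (C.miq (nat_lit 1922237860) (nat_lit 712060130151309984411419761)) (C.cons (nat_lit 1552) (C.node (nat_lit 6) (nat_lit 7) (nat_lit 9) (C.cons (nat_lit 736) (C.miq (nat_lit 311888470) (nat_lit 778551825237123014598853745)) (C.cons (nat_lit 704) (C.node (nat_lit 2) (nat_lit 3) (nat_lit 4) (C.cons (nat_lit 62) (C.miq (nat_lit 2453120320) (nat_lit 1407225090669272885093794929)) (C.cons (nat_lit 60) (C.miq (nat_lit 2453120320) (nat_lit 1407225090669272876503860337)) (C.cons (nat_lit 30)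
  (C.miq (nat_lit 2536770081) (nat_lit 184975446162859833107022855)) (C.cons (nat_lit 28) (C.node (nat_lit 2) (nat_lit 5) (nat_lit 6) (C.cons (nat_lit 358) (C.miq (nat_lit 2188596800) (nat_lit 1407195132815187203300328561)) (C.cons (nat_lit 356) (C.miq (nat_lit 2188596800) (nat_lit 1407195132814624253346907249)) (C.cons (nat_lit 102) (C.miq (nat_lit 2451023200) (nat_lit 162031496466205006947878001)) (C.cons (nat_lit 100) (C.node (nat_lit 1) (nat_lit 2) (nat_lit 3) (C.cons (nat_lit 46) (C.node (nat_lit 1) (nat_lit 2) (nat_lit 4) (C.cons (nat_lit 22) (C.node (nat_lit 2) (nat_lit 4) (nat_lit 5) (C.cons (nat_lit 52) (C.node (nat_lit 2) (nat_lit 5) (nat_lit 8) C.nil) C.nil)) C.nil)) (C.cons (nat_lit 14) (C.node (nat_lit 2) (nat_lit 3) (nat_lit 5) (C.cons (nat_lit 44) (C.node (nat_lit 1) (nat_lit 2) (nat_lit 4) (C.cons (nat_lit 54) (C.node (nat_lit 2) (nat_lit 5) (nat_lit 8) C.nil) C.nil)) C.nil)) C.nil))) C.nil))))) C.nil))))) C.nil)))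 C.nil))) (C.cons (nat_lit 1060) (C.node (nat_lit 2) (nat_lit 9) (nat_lit 10) (C.cons (nat_lit 1540) (C.node (nat_lit 4) (nat_lit 6) (nat_lit 9) (C.cons (nat_lit 848) (C.node (nat_lit 6) (nat_lit 7) (nat_lit 9) (C.cons (nat_lit 736) (C.miq (nat_lit 610601111) (nat_lit 1374551700692577744446293889)) (C.cons (nat_lit 704) (C.node (nat_lit 1) (nat_lit 4) (nat_lit 6) (C.cons (nat_lit 90) (C.node (nat_lit 1) (nat_lit 4) (nat_lit 10) (C.cons (nat_lit 1298) (C.miq (nat_lit 342010000) (nat_lit 256311292716799541526726529)) (C.cons (nat_lit 1042) (C.node (nat_lit 2) (nat_lit 3) (nat_lit 4) (C.cons (nat_lit 60) (C.miq (nat_lit 321348688) (nat_lit 1407193251171855738333365361)) (C.cons (nat_lit 28) (C.node (nat_lit 3) (nat_lit 5) (nat_lit 6) (C.cons (nat_lit 232) (C.miq (nat_lit 925390400) (nat_lit 469068696758769116670919793)) (C.cons (nat_lit 104) (C.node (nat_lit 3) (nat_lit 6) (nat_lit 7) (C.cons (nat_lit 456) (C.miq (nat_lit 882401543)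 (nat_lit 1025177506773838180363862211)) (C.cons (nat_lit 200) (C.node (nat_lit 3) (nat_lit 6) (nat_lit 8) (C.cons (nat_lit 1352) (C.miq (nat_lit 279136646) (nat_lit 1248822032018350034685264720)) (C.cons (nat_lit 328) (C.node (nat_lit 3) (nat_lit 6) (nat_lit 10) (C.cons (nat_lit 1096) (C.node (nat_lit 2) (nat_lit 5) (nat_lit 6) (C.cons (nat_lit 358) (C.miq (nat_lit 2188596800) (nat_lit 1407195132815187203300328561)) (C.cons (nat_lit 356) (C.miq (nat_lit 2188596800) (nat_lit 1407195132814624253346907249)) (C.cons (nat_lit 102) (C.miq (nat_lit 924926038) (nat_lit 161997720078393323383293041)) C.nil)))) C.nil)) C.nil))) C.nil))) C.nil))) C.nil))) C.nil))) (C.cons (nat_lit 82) (C.node (nat_lit 3) (nat_lit 4) (nat_lit 6) (C.cons (nat_lit 88) (C.node (nat_lit 1) (nat_lit 6) (nat_lit 9) (C.cons (nat_lit 610) (C.node (nat_lit 1) (nat_lit 2) (nat_lit 9) (C.cons (nat_lit 774) (C.miq (nat_lit 1747601680) (nat_lit 1552281726571889772705808915))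 (C.cons (nat_lit 518) (C.node (nat_lit 2) (nat_lit 5) (nat_lit 6) (C.cons (nat_lit 356) (C.miq (nat_lit 2188596800) (nat_lit 1407195132814624253346907249)) (C.cons (nat_lit 100) (C.node (nat_lit 3) (nat_lit 5) (nat_lit 6) (C.cons (nat_lit 232) (C.miq (nat_lit 925390400) (nat_lit 469068696758769116670919793)) (C.cons (nat_lit 104) (C.node (nat_lit 4) (nat_lit 5) (nat_lit 8) (C.cons (nat_lit 434) (C.miq (nat_lit 642058631) (nat_lit 1374551700780397937160226689)) (C.cons (nat_lit 432) (C.miq (nat_lit 642058631) (nat_lit 1374551700780397937160095617)) (C.cons (nat_lit 306) (C.miq (nat_lit 2190557285) (nat_lit 626229219342035565945160817)) (C.cons (nat_lit 304) (C.node (nat_lit 1) (nat_lit 2) (nat_lit 6) (C.cons (nat_lit 326) (C.node (nat_lit 1) (nat_lit 6) (nat_lit 10) (C.cons (nat_lit 1098) (C.node (nat_lit 6) (nat_lit 8) (nat_lit 10) C.nil) C.nil)) (C.cons (nat_lit 70) (C.node (nat_lit 2) (nat_lit 6) (nat_lit 8) (C.cons (nat_lit 324)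 (C.node (nat_lit 1) (nat_lit 2) (nat_lit 8) C.nil) C.nil)) C.nil))) C.nil))))) C.nil))) C.nil))) C.nil))) (C.cons (nat_lit 578) (C.node (nat_lit 5) (nat_lit 6) (nat_lit 9) (C.cons (nat_lit 608)
  (C.node (nat_lit 3) (nat_lit 8) (nat_lit 9) (C.cons (nat_lit 778) (C.node (nat_lit 5) (nat_lit 8) (nat_lit 10) (C.cons (nat_lit 1314) (C.miq (nat_lit 2710984752) (nat_lit 698780098055128931661316393)) (C.cons (nat_lit 1312) (C.node (nat_lit 3) (nat_lit 5) (nat_lit 6) (C.cons (nat_lit 232) (C.miq (nat_lit 925390400) (nat_lit 469068696758769116670919793)) (C.cons (nat_lit 106) (C.miq (nat_lit 363345417) (nat_lit 1586125026931124054280700493)) (C.cons (nat_lit 104) (C.node (nat_lit 1) (nat_lit 2) (nat_lit 3) (C.cons (nat_lit 62) (C.miq (nat_lit 2536770081) (nat_lit 184975446162859833109120007)) (C.cons (nat_lit 46) (C.miq (nat_lit 2435285840) (nat_lit 162031496242713634919481641)) (C.cons (nat_lit 30) (C.miq (nat_lit 2536770081) (nat_lit 184975446162859833107022855))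 (C.cons (nat_lit 14) (C.node (nat_lit 1) (nat_lit 7) (nat_lit 8) (C.cons (nat_lit 434) (C.miq (nat_lit 1378971800) (nat_lit 16932967407978699335272321)) (C.cons (nat_lit 418) (C.miq (nat_lit 1378971800) (nat_lit 16932672260073519982446465)) (C.cons (nat_lit 402) (C.miq (nat_lit 321358180) (nat_lit 1407197069841536052228260688)) (C.cons (nat_lit 386) (C.node (nat_lit 1) (nat_lit 9) (nat_lit 10) (C.cons (nat_lit 1570) (C.node (nat_lit 3) (nat_lit 5) (nat_lit 10) C.nil) C.nil)) C.nil))))) C.nil))))) C.nil)))) C.nil))) (C.cons (nat_lit 776) (C.node (nat_lit 4) (nat_lit 7) (nat_lit 9) (C.cons (nat_lit 688) (C.node (nat_lit 1) (nat_lit 2) (nat_lit 4) (C.cons (nat_lit 62) (C.miq (nat_lit 2536770081) (nat_lit 184975446162859833109120007)) (C.cons (nat_lit 54) (C.miq (nat_lit 1965724688) (nat_lit 1281496805180527537209934355)) (C.cons (nat_lit 30) (C.miq (nat_lit 2536770081) (nat_lit 184975446162859833107022855)) (C.cons (nat_lit 22) (C.node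 (nat_lit 1) (nat_lit 2) (nat_lit 3) (C.cons (nat_lit 46) (C.node (nat_lit 2) (nat_lit 3) (nat_lit 4) (C.cons (nat_lit 28) (C.node (nat_lit 1) (nat_lit 2) (nat_lit 9) (C.cons (nat_lit 774) (C.miq (nat_lit 1747601680) (nat_lit 1552281726571889772705808915)) C.nil)) C.nil)) (C.cons (nat_lit 14) (C.node (nat_lit 1) (nat_lit 4) (nat_lit 7) (C.cons (nat_lit 402) (C.node (nat_lit 4) (nat_lit 5) (nat_lit 8) (C.cons (nat_lit 304) (C.node (nat_lit 1) (nat_lit 7) (nat_lit 9) (C.cons (nat_lit 650) (C.miq (nat_lit 826447744) (nat_lit 26607233346741718226372481)) (C.cons (nat_lit 642) (C.node (nat_lit 3) (nat_lit 7) (nat_lit 9) C.nil) C.nil))) C.nil)) (C.cons (nat_lit 146) (C.node (nat_lit 4) (nat_lit 7) (nat_lit 8) (C.cons (nat_lit 400) (C.node (nat_lit 1) (nat_lit 7) (nat_lit 9) (C.cons (nat_lit 650) (C.node (nat_lit 1) (nat_lit 5) (nat_lit 7) C.nil) C.nil)) C.nil)) C.nil))) C.nil))) C.nil))))) (C.cons (nat_lit 656) (C.node (nat_lit 4) (nat_lit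 5) (nat_lit 9) (C.cons (nat_lit 568) (C.node (nat_lit 4) (nat_lit 9) (nat_lit 10) (C.cons (nat_lit 1552) (C.node (nat_lit 2) (nat_lit 3) (nat_lit 4) (C.cons (nat_lit 30) (C.miq (nat_lit 1934205456) (nat_lit 686705302064111969056785415)) (C.cons (nat_lit 28) (C.node (nat_lit 1) (nat_lit 2) (nat_lit 4) (C.cons (nat_lit 54) (C.node (nat_lit 1) (nat_lit 2) (nat_lit 3) C.nil) C.nil)) C.nil))) C.nil)) (C.cons (nat_lit 560) (C.node (nat_lit 3) (nat_lit 4) (nat_lit 9) (C.cons (nat_lit 1560) (C.node (nat_lit 1) (nat_lit 4) (nat_lit 10) (C.cons (nat_lit 1298) (C.miq (nat_lit 342010000) (nat_lit 256311292716799541526726529)) (C.cons (nat_lit 1042) (C.node (nat_lit 4) (nat_lit 8) (nat_lit 10) C.nil) C.nil))) (C.cons (nat_lit 536) (C.node (nat_lit 4) (nat_lit 9) (nat_lit 10) C.nil) C.nil))) C.nil))) C.nil))) C.nil))) C.nil)) C.nil))) C.nil)) C.nil))) C.nil))) (C.cons (nat_lit 592) (C.node (nat_lit 4) (nat_lit 7) (nat_lit 9) (C.cons (nat_lit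 688) (C.node (nat_lit 6) (nat_lit 7) (nat_lit 9) (C.cons (nat_lit 704) (C.node (nat_lit 1) (nat_lit 2) (nat_lit 4) (C.cons (nat_lit 62) (C.miq (nat_lit 2536770081) (nat_lit 184975446162859833109120007)) (C.cons (nat_lit 54) (C.miq (nat_lit 1965724688) (nat_lit 1281496805180527537209934355)) (C.cons (nat_lit 30) (C.miq (nat_lit 2536770081) (nat_lit 184975446162859833107022855))
  (C.cons (nat_lit 22) (C.node (nat_lit 1) (nat_lit 2) (nat_lit 3) (C.cons (nat_lit 46) (C.node (nat_lit 2) (nat_lit 3) (nat_lit 4) (C.cons (nat_lit 28) (C.node (nat_lit 2) (nat_lit 4) (nat_lit 5) (C.cons (nat_lit 52) (C.node (nat_lit 3) (nat_lit 5) (nat_lit 10) C.nil) C.nil)) C.nil)) (C.cons (nat_lit 14) (C.node (nat_lit 1) (nat_lit 4) (nat_lit 7) (C.cons (nat_lit 402) (C.node (nat_lit 4) (nat_lit 5) (nat_lit 8) (C.cons (nat_lit 304) (C.node (nat_lit 1) (nat_lit 7) (nat_lit 9) (C.cons (nat_lit 650) (C.miq (nat_lit 826447744) (nat_lit 26607233346741718226372481))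 (C.cons (nat_lit 642) (C.node (nat_lit 3) (nat_lit 7) (nat_lit 9) (C.cons (nat_lit 648) (C.node (nat_lit 1) (nat_lit 4) (nat_lit 10) C.nil) C.nil)) C.nil))) C.nil)) (C.cons (nat_lit 146) (C.node (nat_lit 4) (nat_lit 7) (nat_lit 8) (C.cons (nat_lit 400) (C.node (nat_lit 1) (nat_lit 7) (nat_lit 9) (C.cons (nat_lit 650) (C.node (nat_lit 1) (nat_lit 9) (nat_lit 10) C.nil) (C.cons (nat_lit 642) (C.node (nat_lit 3) (nat_lit 7) (nat_lit 9) (C.cons (nat_lit 648) (C.node (nat_lit 2) (nat_lit 3) (nat_lit 4) C.nil) C.nil)) C.nil))) C.nil)) C.nil))) C.nil))) C.nil))))) C.nil)) (C.cons (nat_lit 656) (C.node (nat_lit 4) (nat_lit 9) (nat_lit 10) (C.cons (nat_lit 1560) (C.node (nat_lit 2) (nat_lit 3) (nat_lit 4) (C.cons (nat_lit 62) (C.miq (nat_lit 2468848720) (nat_lit 1407225090665895185374053489)) (C.cons (nat_lit 60) (C.miq (nat_lit 2468848720) (nat_lit 1407225090665895176784118897)) (C.cons (nat_lit 30) (C.miq (nat_lit 1934205456) (nat_lit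 1885959715121824110365312007)) (C.cons (nat_lit 28) (C.node (nat_lit 1) (nat_lit 2) (nat_lit 3) (C.cons (nat_lit 46) (C.node (nat_lit 1) (nat_lit 2) (nat_lit 4) (C.cons (nat_lit 22) (C.node (nat_lit 2) (nat_lit 4) (nat_lit 5) C.nil) C.nil)) (C.cons (nat_lit 14) (C.node (nat_lit 2) (nat_lit 3) (nat_lit 5) (C.cons (nat_lit 44) (C.node (nat_lit 1) (nat_lit 2) (nat_lit 4) (C.cons (nat_lit 22) (C.node (nat_lit 2) (nat_lit 4) (nat_lit 5) C.nil) C.nil)) C.nil)) C.nil))) C.nil))))) (C.cons (nat_lit 1552) (C.ref (nat_lit 116) (nat_lit 11649936536080)) C.nil))) C.nil))) C.nil))) C.nil)) C.nil))) C.nil))) C.nil))) C.nil))) C.nil))) C.nil)) C.nil))) List.nil)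

theorem ok11_117 : okL par11 (nat_lit 118) c11_117 (nat_lit 117) = true := by decide +kernel

noncomputable def c11_118 : List C :=
  (List.cons (C.node (nat_lit 1) (nat_lit 6) (nat_lit 9) (C.cons (nat_lit 610) (C.node (nat_lit 1) (nat_lit 2) (nat_lit 9) (C.cons (nat_lit 774) (C.miq (nat_lit 2191954180) (nat_lit 1320162638076015624638759443)) (C.cons (nat_lit 518) (C.node (nat_lit 2) (nat_lit 5) (nat_lit 6) (C.cons (nat_lit 356) (C.miq (nat_lit 879232805) (nat_lit 1025174573759262013880795301)) (C.cons (nat_lit 100) (C.node (nat_lit 3) (nat_lit 5) (nat_lit 6) (C.cons (nat_lit 232) (C.miq (nat_lit 910710560) (nat_lit 1025174573781498537035759781)) (C.cons (nat_lit 104) (C.node (nat_lit 4) (nat_lit 5) (nat_lit 8) (C.cons (nat_lit 434) (C.miq (nat_lit 642058631) (nat_lit 1374551700780397937160226689)) (C.cons (nat_lit 432) (C.miq (nat_lit 642058631) (nat_lit 1374551700780397937160095617)) (C.cons (nat_lit 306) (C.miq (nat_lit 2190557285)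 (nat_lit 626229219342035565945160817)) (C.cons (nat_lit 304) (C.node (nat_lit 1) (nat_lit 2) (nat_lit 6) (C.cons (nat_lit 326) (C.node (nat_lit 2) (nat_lit 7) (nat_lit 8) (C.cons (nat_lit 396) (C.miq (nat_lit 2018779910) (nat_lit 367517359984056261992841805)) (C.cons (nat_lit 388) (C.node (nat_lit 4) (nat_lit 7) (nat_lit 8) (C.cons (nat_lit 402) (C.miq (nat_lit 880936726) (nat_lit 334883317208579094354460867)) (C.cons (nat_lit 400) (C.node (nat_lit 1) (nat_lit 2) (nat_lit 7) (C.cons (nat_lit 142) (C.node (nat_lit 1) (nat_lit 7) (nat_lit 9) (C.cons (nat_lit 642) (C.node (nat_lit 1) (nat_lit 3) (nat_lit 6) (C.cons (nat_lit 1098) (C.miq (nat_lit 1969430689) (nat_lit 125730904724028155532805127)) (C.cons (nat_lit 74) (C.node (nat_lit 1) (nat_lit 6) (nat_lit 10) (C.cons (nat_lit 1090) (C.node (nat_lit 1) (nat_lit 8) (nat_lit 9) (C.cons (nat_lit 778) (C.miq (nat_lit 390607465) (nat_lit 483584679452711373195182669)) (C.cons (nat_lit 770)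 (C.node (nat_lit 3) (nat_lit 8) (nat_lit 9) (C.cons (nat_lit 776) (C.node (nat_lit 4) (nat_lit 7) (nat_lit 10) (C.cons (nat_lit 1170) (C.miq (nat_lit 1685260818) (nat_lit 184976515853339752297006087)) (C.cons (nat_lit 1168) (C.node (nat_lit 1) (nat_lit 4) (nat_lit 7) (C.cons (nat_lit 178) (C.miq (nat_lit 2440258880) (nat_lit 171678331689237258041885809)) (C.cons (nat_lit 146) (C.node (nat_lit 1) (nat_lit 7) (nat_lit 10) (C.cons (nat_lit 1186) (C.miq (nat_lit 1936003594) (nat_lit 125750163118364830200824839)) (C.cons (nat_lit 1154) (C.node (nat_lit 1) (nat_lit 5) (nat_lit 7) (C.cons (nat_lit 418) (C.node (nat_lit 5) (nat_lit 6) (nat_lit 7) (C.cons (nat_lit 224) (C.node (nat_lit 1) (nat_lit 4) (nat_lit 10) (C.cons (nat_lit 1298) (C.miq (nat_lit 641796490) (nat_lit 99150935967331990373533569)) (C.cons (nat_lit 1050) (C.miq (nat_lit 1412893202) (nat_lit 184968694433851984051045383)) C.nil))) C.nil)) C.nil)) C.nil))) C.nil))) C.nil)))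 C.nil)) C.nil))) C.nil)) C.nil))) C.nil)) (C.cons (nat_lit 134) (C.node (nat_lit 2) (nat_lit 3) (nat_lit 7) (C.cons (nat_lit 140) (C.node (nat_lit 1) (nat_lit 3) (nat_lit 6) (C.cons (nat_lit 1098) (C.node (nat_lit 1) (nat_lit 9) (nat_lit 10) (C.cons (nat_lit 1538) (C.node (nat_lit 6) (nat_lit 7) (nat_lit 10) (C.cons (nat_lit 1216) (C.node (nat_lit 6) (nat_lit 8) (nat_lit 10) (C.cons (nat_lit 1344) (C.node (nat_lit 1) (nat_lit 7) (nat_lit 9) (C.cons (nat_lit 650) (C.node (nat_lit 1) (nat_lit 4) (nat_lit 7) (C.cons (nat_lit 1170) (C.miq (nat_lit 1094100880) (nat_lit 1327421524214203156106381185)) (C.cons (nat_lit 178) (C.miq (nat_lit 1936015505) (nat_lit 125731568803434755682075155)) (C.cons (nat_lit 146) (C.miq (nat_lit 1366583600) (nat_lit 176524143783450194799559245)) C.nil)))) (C.cons (nat_lit 642) (C.node (nat_lit 1) (nat_lit 3) (nat_lit 9) (C.cons (nat_lit 778) (C.node (nat_lit 1) (nat_lit 4) (nat_lit 8) (C.cons (nat_lit 1298)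 (C.miq (nat_lit 342010000) (nat_lit 256311292716799541526726529)) (C.cons (nat_lit 274) (C.node (nat_lit 1) (nat_lit 7) (nat_lit 8) (C.cons (nat_lit 418) (C.miq (nat_lit 1905416240) (nat_lit 626226618390809956362027305)) C.nil)) C.nil))) (C.cons (nat_lit 522) (C.node (nat_lit 1) (nat_lit 8) (nat_lit 9) (C.cons (nat_lit 770)
  (C.node (nat_lit 3) (nat_lit 8) (nat_lit 9) (C.cons (nat_lit 776) (C.node (nat_lit 3) (nat_lit 6) (nat_lit 7) C.nil) C.nil)) C.nil)) C.nil))) C.nil))) C.nil)) C.nil)) C.nil)) (C.cons (nat_lit 74) (C.node (nat_lit 1) (nat_lit 6) (nat_lit 10) (C.cons (nat_lit 1090) (C.node (nat_lit 1) (nat_lit 7) (nat_lit 9) (C.cons (nat_lit 650) (C.node (nat_lit 1) (nat_lit 4) (nat_lit 7) (C.cons (nat_lit 1170) (C.miq (nat_lit 1094100880) (nat_lit 89481484928822881207256961)) (C.cons (nat_lit 178) (C.miq (nat_lit 1936015505) (nat_lit 125731568803434755682075155)) (C.cons (nat_lit 146) (C.miq (nat_lit 1366583600) (nat_lit 176524143783450194799559245))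 C.nil)))) (C.cons (nat_lit 642) (C.node (nat_lit 1) (nat_lit 8) (nat_lit 9) (C.cons (nat_lit 778) (C.node (nat_lit 1) (nat_lit 9) (nat_lit 10) (C.cons (nat_lit 1538) (C.node (nat_lit 1) (nat_lit 4) (nat_lit 8) (C.cons (nat_lit 1298) (C.miq (nat_lit 342010000) (nat_lit 256311292716799541526726529)) (C.cons (nat_lit 274) (C.node (nat_lit 1) (nat_lit 7) (nat_lit 8) (C.cons (nat_lit 418) (C.miq (nat_lit 1905416240) (nat_lit 626226618390809956362027305)) (C.cons (nat_lit 386) (C.node (nat_lit 3) (nat_lit 7) (nat_lit 8) C.nil) C.nil))) C.nil))) C.nil)) (C.cons (nat_lit 770) (C.node (nat_lit 3) (nat_lit 8) (nat_lit 9) (C.cons (nat_lit 776) (C.node (nat_lit 1) (nat_lit 3) (nat_lit 9) (C.cons (nat_lit 1546) (C.node (nat_lit 2) (nat_lit 3) (nat_lit 8) (C.cons (nat_lit 1292) (C.miq (nat_lit 1211695777) (nat_lit 938136231320029497091818503)) (C.cons (nat_lit 268) (C.node (nat_lit 3) (nat_lit 4) (nat_lit 9) (C.cons (nat_lit 568) (C.miq (nat_lit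 1905460820) (nat_lit 1869002139530950222082999409)) (C.cons (nat_lit 536) (C.node (nat_lit 2) (nat_lit 8) (nat_lit 9) (C.cons (nat_lit 804) (C.node (nat_lit 2) (nat_lit 8) (nat_lit 10) C.nil) (C.cons (nat_lit 772) (C.node (nat_lit 5) (nat_lit 8) (nat_lit 9) C.nil) C.nil))) C.nil))) C.nil))) (C.cons (nat_lit 522) (C.node (nat_lit 1) (nat_lit 9) (nat_lit 10) (C.cons (nat_lit 1538) (C.node (nat_lit 1) (nat_lit 4) (nat_lit 7) C.nil) C.nil)) C.nil))) C.nil)) C.nil))) C.nil))) C.nil)) C.nil))) C.nil)) C.nil))) C.nil))) C.nil))) (C.cons (nat_lit 70) (C.node (nat_lit 2) (nat_lit 6) (nat_lit 8) (C.cons (nat_lit 324) (C.node (nat_lit 1) (nat_lit 7) (nat_lit 9) (C.cons (nat_lit 650) (C.node (nat_lit 3) (nat_lit 4) (nat_lit 9) (C.cons (nat_lit 1560) (C.miq (nat_lit 373518505) (nat_lit 106397462564627782521325441)) (C.cons (nat_lit 568) (C.miq (nat_lit 1985155145) (nat_lit 125740275678461849251611155)) (C.cons (nat_lit 536) (C.miq (nat_lit 1413046385)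 (nat_lit 647995492147363906161606851)) C.nil)))) (C.cons (nat_lit 642) (C.node (nat_lit 1) (nat_lit 8) (nat_lit 9) (C.cons (nat_lit 778) (C.node (nat_lit 1) (nat_lit 9) (nat_lit 10) (C.cons (nat_lit 1538) (C.node (nat_lit 1) (nat_lit 3) (nat_lit 6) (C.cons (nat_lit 1098) (C.node (nat_lit 1) (nat_lit 6) (nat_lit 8) (C.cons (nat_lit 322) (C.node (nat_lit 6) (nat_lit 7) (nat_lit 10) (C.cons (nat_lit 1216) (C.node (nat_lit 6) (nat_lit 8) (nat_lit 10) (C.cons (nat_lit 1344) (C.node (nat_lit 1) (nat_lit 2) (nat_lit 7) C.nil) C.nil)) C.nil)) C.nil)) (C.cons (nat_lit 74) (C.node (nat_lit 1) (nat_lit 6) (nat_lit 8) (C.cons (nat_lit 1346) (C.node (nat_lit 3) (nat_lit 4) (nat_lit 8) (C.cons (nat_lit 1304) (C.miq (nat_lit 1904412324) (nat_lit 940547110066918177052820593)) (C.cons (nat_lit 280) (C.node (nat_lit 4) (nat_lit 8) (nat_lit 10) (C.cons (nat_lit 1296) (C.node (nat_lit 5) (nat_lit 6) (nat_lit 7) (C.cons (nat_lit 480) (C.miq (nat_lit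 374515824) (nat_lit 120911600933470292265994113)) (C.cons (nat_lit 224) (C.node (nat_lit 5) (nat_lit 6) (nat_lit 8) (C.cons (nat_lit 352) (C.node (nat_lit 1) (nat_lit 4) (nat_lit 8) C.nil) C.nil)) C.nil))) C.nil)) C.nil))) (C.cons (nat_lit 322) (C.node (nat_lit 1) (nat_lit 6) (nat_lit 10) (C.cons (nat_lit 1090) (C.node (nat_lit 1) (nat_lit 8) (nat_lit 10) (C.cons (nat_lit 1314) (C.miq (nat_lit 1362536592) (nat_lit 89481484969355827609405313)) (C.cons (nat_lit 1298)
  (C.miq (nat_lit 342010000) (nat_lit 256311292716799541526726529)) C.nil))) C.nil)) C.nil))) C.nil))) C.nil)) (C.cons (nat_lit 770) (C.node (nat_lit 3) (nat_lit 8) (nat_lit 9) (C.cons (nat_lit 776) (C.node (nat_lit 1) (nat_lit 3) (nat_lit 9) (C.cons (nat_lit 1546) (C.node (nat_lit 3) (nat_lit 4) (nat_lit 9) (C.cons (nat_lit 568) (C.miq (nat_lit 1905460820) (nat_lit 1869002139530950222082999409)) (C.cons (nat_lit 536) (C.node (nat_lit 1) (nat_lit 3) (nat_lit 6) (C.cons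 (nat_lit 330) (C.node (nat_lit 1) (nat_lit 6) (nat_lit 10) (C.cons (nat_lit 1090) (C.node (nat_lit 6) (nat_lit 8) (nat_lit 10) (C.cons (nat_lit 1344) (C.node (nat_lit 3) (nat_lit 7) (nat_lit 8) (C.cons (nat_lit 396) (C.miq (nat_lit 2018779910) (nat_lit 367517359984056261992841805)) (C.cons (nat_lit 392) (C.node (nat_lit 2) (nat_lit 3) (nat_lit 8) (C.cons (nat_lit 1292) (C.miq (nat_lit 2207525392) (nat_lit 647989349425221965152715783)) (C.cons (nat_lit 268) (C.node (nat_lit 3) (nat_lit 6) (nat_lit 7) (C.cons (nat_lit 1224) (C.node (nat_lit 2) (nat_lit 8) (nat_lit 9) (C.cons (nat_lit 804) (C.node (nat_lit 2) (nat_lit 8) (nat_lit 10) C.nil) C.nil)) C.nil)) C.nil))) C.nil))) C.nil)) C.nil)) (C.cons (nat_lit 74) (C.node (nat_lit 1) (nat_lit 6) (nat_lit 8) (C.cons (nat_lit 1346) (C.node (nat_lit 5) (nat_lit 6) (nat_lit 7) (C.cons (nat_lit 480) (C.miq (nat_lit 374515824) (nat_lit 120911600933470292265994113)) (C.cons (nat_lit 224) (C.node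 (nat_lit 5) (nat_lit 6) (nat_lit 8) (C.cons (nat_lit 352) (C.node (nat_lit 1) (nat_lit 4) (nat_lit 10) C.nil) C.nil)) C.nil))) (C.cons (nat_lit 322) (C.node (nat_lit 1) (nat_lit 6) (nat_lit 10) (C.cons (nat_lit 1090) (C.node (nat_lit 2) (nat_lit 8) (nat_lit 9) C.nil) C.nil)) C.nil))) C.nil))) C.nil))) (C.cons (nat_lit 522) (C.node (nat_lit 1) (nat_lit 9) (nat_lit 10) (C.cons (nat_lit 1538) (C.node (nat_lit 2) (nat_lit 8) (nat_lit 9) (C.cons (nat_lit 804) (C.node (nat_lit 3) (nat_lit 7) (nat_lit 9) (C.cons (nat_lit 680) (C.miq (nat_lit 1971599648) (nat_lit 367516271706096984007180877)) (C.cons (nat_lit 648) (C.node (nat_lit 2) (nat_lit 4) (nat_lit 9) (C.cons (nat_lit 1556) (C.node (nat_lit 3) (nat_lit 4) (nat_lit 9) (C.cons (nat_lit 568) (C.miq (nat_lit 423060800) (nat_lit 783387528397076253917119601)) (C.cons (nat_lit 536) (C.node (nat_lit 3) (nat_lit 5) (nat_lit 9) (C.cons (nat_lit 1576) (C.miq (nat_lit 958945856) (nat_lit 971981838096762994483856497))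 C.nil)) C.nil))) (C.cons (nat_lit 532) (C.node (nat_lit 2) (nat_lit 9) (nat_lit 10) C.nil) C.nil))) C.nil))) (C.cons (nat_lit 772) (C.node (nat_lit 5) (nat_lit 8) (nat_lit 9) (C.cons (nat_lit 800) (C.node (nat_lit 3) (nat_lit 7) (nat_lit 9) (C.cons (nat_lit 680) (C.node (nat_lit 4) (nat_lit 7) (nat_lit 9) (C.cons (nat_lit 656) (C.node (nat_lit 1) (nat_lit 3) (nat_lit 6) C.nil) C.nil)) (C.cons (nat_lit 648) (C.node (nat_lit 4) (nat_lit 7) (nat_lit 8) (C.cons (nat_lit 402) (C.node (nat_lit 4) (nat_lit 7) (nat_lit 10) (C.cons (nat_lit 1168) (C.node (nat_lit 1) (nat_lit 2) (nat_lit 7) (C.cons (nat_lit 142) (C.miq (nat_lit 412316770) (nat_lit 938129055571767289136873684)) (C.cons (nat_lit 134) (C.node (nat_lit 2) (nat_lit 4) (nat_lit 9) C.nil) C.nil))) C.nil)) (C.cons (nat_lit 400) (C.node (nat_lit 4) (nat_lit 7) (nat_lit 9) (C.cons (nat_lit 688) (C.node (nat_lit 1) (nat_lit 3) (nat_lit 6) C.nil) (C.cons (nat_lit 656) (C.node (nat_lit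 5) (nat_lit 7) (nat_lit 9) (C.cons (nat_lit 672) (C.node (nat_lit 1) (nat_lit 3) (nat_lit 6) C.nil) C.nil)) C.nil))) C.nil))) C.nil))) C.nil)) C.nil))) C.nil)) C.nil))) C.nil)) C.nil))) C.nil))) C.nil)) C.nil))) C.nil))))) C.nil))) C.nil))) C.nil))) (C.cons (nat_lit 578) (C.node (nat_lit 5) (nat_lit 6) (nat_lit 9) (C.cons (nat_lit 608) (C.node (nat_lit 3) (nat_lit 8) (nat_lit 9) (C.cons (nat_lit 778) (C.node (nat_lit 3) (nat_lit 5) (nat_lit 6) (C.cons (nat_lit 232) (C.miq (nat_lit 910710560) (nat_lit 1025174573781498537035759781)) (C.cons (nat_lit 106) (C.miq (nat_lit 2836793397) (nat_lit 698780098225984242493030697)) (C.cons (nat_lit 104)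
  (C.node (nat_lit 4) (nat_lit 5) (nat_lit 8) (C.cons (nat_lit 434) (C.miq (nat_lit 642058631) (nat_lit 1374551700780397937160226689)) (C.cons (nat_lit 432) (C.miq (nat_lit 642058631) (nat_lit 1374551700780397937160095617)) (C.cons (nat_lit 306) (C.miq (nat_lit 1669662996) (nat_lit 359071942539348775435108883)) (C.cons (nat_lit 304) (C.node (nat_lit 1) (nat_lit 2) (nat_lit 9) (C.cons (nat_lit 550) (C.node (nat_lit 1) (nat_lit 7) (nat_lit 9) (C.cons (nat_lit 642) (C.node (nat_lit 1) (nat_lit 9) (nat_lit 10) (C.cons (nat_lit 1538) (C.node (nat_lit 2) (nat_lit 8) (nat_lit 9) (C.cons (nat_lit 772) (C.node (nat_lit 5) (nat_lit 8) (nat_lit 9) (C.cons (nat_lit 800) (C.node (nat_lit 2) (nat_lit 5) (nat_lit 6) (C.cons (nat_lit 356) (C.miq (nat_lit 1935032450) (nat_lit 125732195992732007659733269)) (C.cons (nat_lit 100) (C.node (nat_lit 1) (nat_lit 4) (nat_lit 5) (C.cons (nat_lit 178) (C.miq (nat_lit 844564756) (nat_lit 199475582754048214914171411))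 (C.cons (nat_lit 58) (C.miq (nat_lit 2822048020) (nat_lit 359071942914273444397449747)) (C.cons (nat_lit 50) (C.node (nat_lit 1) (nat_lit 2) (nat_lit 4) (C.cons (nat_lit 30) (C.node (nat_lit 2) (nat_lit 4) (nat_lit 5) (C.cons (nat_lit 52) (C.node (nat_lit 2) (nat_lit 3) (nat_lit 7) (C.cons (nat_lit 396) (C.miq (nat_lit 2018779910) (nat_lit 367517359984056261992841805)) (C.cons (nat_lit 140) (C.node (nat_lit 2) (nat_lit 3) (nat_lit 8) (C.cons (nat_lit 1292) (C.miq (nat_lit 1233326242) (nat_lit 940544841211975172558160903)) (C.cons (nat_lit 268) (C.node (nat_lit 4) (nat_lit 7) (nat_lit 8) (C.cons (nat_lit 402) (C.miq (nat_lit 1899594784) (nat_lit 940579723968700163495362837)) (C.cons (nat_lit 400) (C.node (nat_lit 1) (nat_lit 4) (nat_lit 7) (C.cons (nat_lit 1170) (C.miq (nat_lit 2537753106) (nat_lit 184976516074016134030820359)) (C.cons (nat_lit 146) (C.node (nat_lit 4) (nat_lit 7) (nat_lit 10) (C.cons (nat_lit 1168) (C.node (nat_lit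 1) (nat_lit 4) (nat_lit 8) (C.cons (nat_lit 1298) (C.miq (nat_lit 342010000) (nat_lit 256311292716799541526726529)) (C.cons (nat_lit 274) (C.node (nat_lit 1) (nat_lit 4) (nat_lit 10) (C.cons (nat_lit 1042) (C.node (nat_lit 1) (nat_lit 2) (nat_lit 6) (C.cons (nat_lit 326) (C.node (nat_lit 1) (nat_lit 2) (nat_lit 7) C.nil) C.nil)) C.nil)) C.nil))) C.nil)) C.nil))) C.nil))) C.nil))) C.nil))) C.nil)) (C.cons (nat_lit 22) (C.node (nat_lit 1) (nat_lit 2) (nat_lit 3) (C.cons (nat_lit 142) (C.node (nat_lit 2) (nat_lit 7) (nat_lit 8) (C.cons (nat_lit 388) (C.node (nat_lit 1) (nat_lit 2) (nat_lit 6) (C.cons (nat_lit 326) (C.miq (nat_lit 2490598945) (nat_lit 184980002206619300554211654)) (C.cons (nat_lit 70) (C.node (nat_lit 1) (nat_lit 2) (nat_lit 8) (C.cons (nat_lit 262) (C.node (nat_lit 1) (nat_lit 3) (nat_lit 4) (C.cons (nat_lit 1050) (C.miq (nat_lit 1412893202) (nat_lit 184968694433851984051045383)) C.nil)) C.nil)) C.nil))) C.nil)) (C.cons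 (nat_lit 14) (C.node (nat_lit 2) (nat_lit 3) (nat_lit 7) (C.cons (nat_lit 396) (C.miq (nat_lit 2018779910) (nat_lit 367517359984056261992841805)) (C.cons (nat_lit 140) (C.node (nat_lit 4) (nat_lit 7) (nat_lit 8) (C.cons (nat_lit 402) (C.miq (nat_lit 321358180) (nat_lit 169257030556155777329136464)) (C.cons (nat_lit 400) (C.node (nat_lit 1) (nat_lit 4) (nat_lit 8) (C.cons (nat_lit 1298) (C.miq (nat_lit 342010000) (nat_lit 256311292716799541526726529)) (C.cons (nat_lit 274) (C.node (nat_lit 1) (nat_lit 2) (nat_lit 6) (C.cons (nat_lit 326) (C.node (nat_lit 1) (nat_lit 2) (nat_lit 7) C.nil) (C.cons (nat_lit 70) (C.node (nat_lit 1) (nat_lit 2) (nat_lit 7) C.nil) C.nil))) C.nil))) C.nil))) C.nil))) C.nil))) C.nil))) C.nil)))) C.nil))) C.nil)) C.nil)) C.nil)) C.nil)) (C.cons (nat_lit 518) (C.node (nat_lit 1) (nat_lit 3) (nat_lit 6) (C.cons (nat_lit 1098) (C.node (nat_lit 6) (nat_lit 7) (nat_lit 10) (C.cons (nat_lit 1216) (C.node (nat_lit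 6) (nat_lit 8) (nat_lit 10) (C.cons (nat_lit 1344) (C.node (nat_lit 1) (nat_lit 8) (nat_lit 10) (C.cons (nat_lit 1314) (C.miq (nat_lit 1362536592) (nat_lit 1327421524254736102508529537))
  (C.cons (nat_lit 1298) (C.miq (nat_lit 342010000) (nat_lit 256311292716799541526726529)) (C.cons (nat_lit 1282) (C.node (nat_lit 2) (nat_lit 3) (nat_lit 7) (C.cons (nat_lit 396) (C.miq (nat_lit 2018779910) (nat_lit 367517359984056261992841805)) (C.cons (nat_lit 142) (C.miq (nat_lit 1969430689) (nat_lit 125730904724028155532805127)) (C.cons (nat_lit 140) (C.node (nat_lit 1) (nat_lit 4) (nat_lit 8) (C.cons (nat_lit 402) (C.miq (nat_lit 321358180) (nat_lit 169257030556155777329136464)) (C.cons (nat_lit 274) (C.node (nat_lit 4) (nat_lit 7) (nat_lit 8) (C.cons (nat_lit 400) (C.node (nat_lit 1) (nat_lit 2) (nat_lit 7) (C.cons (nat_lit 390) (C.node (nat_lit 1) (nat_lit 2) (nat_lit 6) (C.cons (nat_lit 102) (C.miq (nat_lit 2171236944) (nat_lit 1327435986242004108954370213))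 (C.cons (nat_lit 70) (C.node (nat_lit 2) (nat_lit 5) (nat_lit 6) (C.cons (nat_lit 356) (C.miq (nat_lit 2188596800) (nat_lit 169255093529243978447783025)) (C.cons (nat_lit 100) (C.node (nat_lit 2) (nat_lit 6) (nat_lit 8) (C.cons (nat_lit 324) (C.node (nat_lit 1) (nat_lit 5) (nat_lit 8) C.nil) C.nil)) C.nil))) C.nil))) (C.cons (nat_lit 134) (C.node (nat_lit 2) (nat_lit 7) (nat_lit 8) (C.cons (nat_lit 388) (C.node (nat_lit 1) (nat_lit 7) (nat_lit 8) (C.cons (nat_lit 418) (C.miq (nat_lit 1905416240) (nat_lit 626226618390809956362027305)) (C.cons (nat_lit 386) (C.node (nat_lit 1) (nat_lit 3) (nat_lit 7) (C.cons (nat_lit 170) (C.node (nat_lit 1) (nat_lit 7) (nat_lit 9) (C.cons (nat_lit 642) (C.node (nat_lit 1) (nat_lit 6) (nat_lit 8) (C.cons (nat_lit 358) (C.miq (nat_lit 2188596800) (nat_lit 169255093529806928401204337)) C.nil)) C.nil)) (C.cons (nat_lit 138) (C.node (nat_lit 1) (nat_lit 3) (nat_lit 5) (C.cons (nat_lit 62) (C.miq (nat_lit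 1468080275) (nat_lit 466646510115831053269205581)) (C.cons (nat_lit 58) (C.miq (nat_lit 2822048020) (nat_lit 359071942914273444397449747)) (C.cons (nat_lit 46) (C.miq (nat_lit 1468080275) (nat_lit 466646214967925873916379725)) (C.cons (nat_lit 42) (C.node (nat_lit 3) (nat_lit 6) (nat_lit 8) C.nil) C.nil))))) C.nil))) C.nil))) C.nil)) C.nil))) C.nil)) C.nil))) C.nil)))) C.nil)))) C.nil)) C.nil)) (C.cons (nat_lit 74) (C.node (nat_lit 1) (nat_lit 6) (nat_lit 10) (C.cons (nat_lit 1346) (C.node (nat_lit 2) (nat_lit 6) (nat_lit 8) (C.cons (nat_lit 356) (C.miq (nat_lit 1935032450) (nat_lit 125732195992732007659733269)) (C.cons (nat_lit 324) (C.node (nat_lit 3) (nat_lit 4) (nat_lit 8) (C.cons (nat_lit 1304) (C.miq (nat_lit 1904412324) (nat_lit 940547110066918177052820593)) (C.cons (nat_lit 280) (C.node (nat_lit 4) (nat_lit 8) (nat_lit 10) (C.cons (nat_lit 1296) (C.node (nat_lit 1) (nat_lit 2) (nat_lit 6) (C.cons (nat_lit 102) (C.node (nat_lit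 1) (nat_lit 2) (nat_lit 8) (C.cons (nat_lit 390) (C.node (nat_lit 1) (nat_lit 4) (nat_lit 8) (C.cons (nat_lit 274) (C.node (nat_lit 1) (nat_lit 5) (nat_lit 8) (C.cons (nat_lit 290) (C.node (nat_lit 2) (nat_lit 3) (nat_lit 7) (C.cons (nat_lit 140) (C.node (nat_lit 4) (nat_lit 7) (nat_lit 8) (C.cons (nat_lit 400) (C.node (nat_lit 5) (nat_lit 6) (nat_lit 7) (C.cons (nat_lit 224) (C.miq (nat_lit 2270564874) (nat_lit 270824213020976097851933703)) C.nil)) C.nil)) C.nil)) C.nil)) C.nil)) (C.cons (nat_lit 262) (C.miq (nat_lit 2014448229) (nat_lit 316741608992524217142871153)) C.nil))) (C.cons (nat_lit 70) (C.node (nat_lit 1) (nat_lit 5) (nat_lit 6) (C.cons (nat_lit 98) (C.node (nat_lit 2) (nat_lit 5) (nat_lit 6) (C.cons (nat_lit 100) (C.node (nat_lit 5) (nat_lit 6) (nat_lit 7) (C.cons (nat_lit 480) (C.miq (nat_lit 374515824) (nat_lit 120911600933470292265994113)) (C.cons (nat_lit 224) (C.node (nat_lit 5) (nat_lit 6) (nat_lit 8) C.nil) C.nil)))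 C.nil)) C.nil)) C.nil))) C.nil)) C.nil))) C.nil))) (C.cons (nat_lit 1090) (C.node (nat_lit 6) (nat_lit 8) (nat_lit 10) (C.cons (nat_lit 1352) (C.miq (nat_lit 1177619081) (nat_lit 89470306192628554066954113)) (C.cons (nat_lit 1344) (C.node (nat_lit 1) (nat_lit 8) (nat_lit 10) (C.cons (nat_lit 1314) (C.miq (nat_lit 1362536592) (nat_lit 89481484969355827609405313))
  (C.cons (nat_lit 1298) (C.miq (nat_lit 342010000) (nat_lit 256311292716799541526726529)) (C.cons (nat_lit 1282) (C.node (nat_lit 1) (nat_lit 4) (nat_lit 8) (C.cons (nat_lit 402) (C.node (nat_lit 4) (nat_lit 7) (nat_lit 10) (C.cons (nat_lit 1168) (C.node (nat_lit 1) (nat_lit 2) (nat_lit 7) (C.cons (nat_lit 142) (C.node (nat_lit 2) (nat_lit 7) (nat_lit 8) (C.cons (nat_lit 388) (C.node (nat_lit 1) (nat_lit 4) (nat_lit 10) (C.cons (nat_lit 1050) (C.miq (nat_lit 1412893202) (nat_lit 184968694433851984051045383)) (C.cons (nat_lit 1042) (C.node (nat_lit 1) (nat_lit 3) (nat_lit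 4) (C.cons (nat_lit 58) (C.miq (nat_lit 2822048020) (nat_lit 359071942914273444397449747)) (C.cons (nat_lit 26) (C.node (nat_lit 1) (nat_lit 7) (nat_lit 10) (C.cons (nat_lit 1186) (C.miq (nat_lit 1936003594) (nat_lit 125750163118364830200824839)) (C.cons (nat_lit 1154) (C.node (nat_lit 1) (nat_lit 2) (nat_lit 6) (C.cons (nat_lit 358) (C.miq (nat_lit 2188596800) (nat_lit 171672945169036186750616689)) (C.cons (nat_lit 326) (C.miq (nat_lit 880936726) (nat_lit 334883317208579094354460867)) (C.cons (nat_lit 102) (C.miq (nat_lit 1366581808) (nat_lit 486009153461803793511940685)) C.nil)))) C.nil))) C.nil))) C.nil))) C.nil)) (C.cons (nat_lit 134) (C.miq (nat_lit 846304840) (nat_lit 162010411561039327283774288)) C.nil))) C.nil)) (C.cons (nat_lit 274) (C.node (nat_lit 4) (nat_lit 7) (nat_lit 8) (C.cons (nat_lit 400) (C.node (nat_lit 2) (nat_lit 3) (nat_lit 7) (C.cons (nat_lit 396) (C.miq (nat_lit 1417152035) (nat_lit 483575806848879520698335821))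 (C.cons (nat_lit 142) (C.miq (nat_lit 1954621075) (nat_lit 331248294071743197871735373)) (C.cons (nat_lit 140) (C.node (nat_lit 1) (nat_lit 2) (nat_lit 7) (C.cons (nat_lit 390) (C.node (nat_lit 1) (nat_lit 2) (nat_lit 6) (C.cons (nat_lit 102) (C.miq (nat_lit 2171236944) (nat_lit 1317764579685087075556720805)) (C.cons (nat_lit 70) (C.node (nat_lit 2) (nat_lit 5) (nat_lit 6) (C.cons (nat_lit 356) (C.miq (nat_lit 2188596800) (nat_lit 169255093529243978447783025)) (C.cons (nat_lit 100) (C.node (nat_lit 2) (nat_lit 6) (nat_lit 8) (C.cons (nat_lit 324) (C.node (nat_lit 5) (nat_lit 6) (nat_lit 7) (C.cons (nat_lit 480) (C.miq (nat_lit 1746556704) (nat_lit 1549863874829076073659433125)) C.nil)) C.nil)) C.nil))) C.nil))) (C.cons (nat_lit 134) (C.node (nat_lit 2) (nat_lit 7) (nat_lit 8) (C.cons (nat_lit 388) (C.node (nat_lit 1) (nat_lit 7) (nat_lit 8) (C.cons (nat_lit 418) (C.miq (nat_lit 1905416240) (nat_lit 626226618390809956362027305))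 (C.cons (nat_lit 386) (C.node (nat_lit 1) (nat_lit 7) (nat_lit 9) (C.cons (nat_lit 674) (C.node (nat_lit 1) (nat_lit 9) (nat_lit 10) (C.cons (nat_lit 1538) (C.node (nat_lit 3) (nat_lit 6) (nat_lit 8) C.nil) C.nil)) (C.cons (nat_lit 642) (C.node (nat_lit 1) (nat_lit 6) (nat_lit 8) (C.cons (nat_lit 358) (C.miq (nat_lit 2188596800) (nat_lit 169255093529806928401204337)) C.nil)) C.nil))) C.nil))) C.nil)) C.nil))) C.nil)))) C.nil)) C.nil))) C.nil)))) C.nil))) C.nil))) C.nil))) C.nil))) C.nil))))) C.nil)))) (C.cons (nat_lit 776) (C.node (nat_lit 4) (nat_lit 7) (nat_lit 9) (C.cons (nat_lit 688) (C.node (nat_lit 1) (nat_lit 7) (nat_lit 9) (C.cons (nat_lit 650) (C.node (nat_lit 1) (nat_lit 9) (nat_lit 10) (C.cons (nat_lit 1570) (C.miq (nat_lit 832600404) (nat_lit 1246405342557491434718560944)) (C.cons (nat_lit 1538) (C.node (nat_lit 2) (nat_lit 3) (nat_lit 7) (C.cons (nat_lit 396) (C.miq (nat_lit 2236035170) (nat_lit 831748268889121012655063629))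 (C.cons (nat_lit 140) (C.node (nat_lit 3) (nat_lit 4) (nat_lit 9) (C.cons (nat_lit 1560) (C.miq (nat_lit 373518505) (nat_lit 106397462564627782521325441)) (C.cons (nat_lit 536) (C.node (nat_lit 4) (nat_lit 7) (nat_lit 8) (C.cons (nat_lit 402) (C.miq (nat_lit 2184659089) (nat_lit 169257030415136814025802259)) (C.cons (nat_lit 400) (C.node (nat_lit 1) (nat_lit 4) (nat_lit 7) (C.cons (nat_lit 1170) (C.miq (nat_lit 910266535) (nat_lit 99143907757841148271527809)) (C.cons (nat_lit 146) (C.node (nat_lit 4) (nat_lit 7) (nat_lit 10) (C.cons (nat_lit 1168)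
  (C.node (nat_lit 6) (nat_lit 7) (nat_lit 10) (C.cons (nat_lit 1224) (C.miq (nat_lit 342069415) (nat_lit 106397462659203374674085761)) (C.cons (nat_lit 1216) (C.node (nat_lit 3) (nat_lit 7) (nat_lit 10) (C.cons (nat_lit 1192) (C.miq (nat_lit 329291604) (nat_lit 1248830167065978931780846256)) (C.cons (nat_lit 1160) (C.node (nat_lit 3) (nat_lit 5) (nat_lit 7) (C.cons (nat_lit 232) (C.miq (nat_lit 2205287780) (nat_lit 169254724577755566534034545)) (C.cons (nat_lit 168) (C.node (nat_lit 1) (nat_lit 2) (nat_lit 4) (C.cons (nat_lit 62) (C.miq (nat_lit 2266237234) (nat_lit 176508279952560499046875725)) (C.cons (nat_lit 54) (C.miq (nat_lit 2807171393) (nat_lit 199491779370270193576444435)) (C.cons (nat_lit 30) (C.miq (nat_lit 2266237234) (nat_lit 176508279952560499044778573)) (C.cons (nat_lit 22) (C.node (nat_lit 1) (nat_lit 2) (nat_lit 7) (C.cons (nat_lit 390) (C.node (nat_lit 1) (nat_lit 5) (nat_lit 7) (C.cons (nat_lit 1186) (C.miq (nat_lit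 1361356672) (nat_lit 26617342313364647037962113)) (C.cons (nat_lit 162) (C.node (nat_lit 1) (nat_lit 7) (nat_lit 10) (C.cons (nat_lit 1154) (C.node (nat_lit 5) (nat_lit 7) (nat_lit 10) C.nil) C.nil)) C.nil))) (C.cons (nat_lit 134) (C.node (nat_lit 2) (nat_lit 7) (nat_lit 8) (C.cons (nat_lit 388) (C.node (nat_lit 3) (nat_lit 6) (nat_lit 7) (C.cons (nat_lit 456) (C.node (nat_lit 5) (nat_lit 6) (nat_lit 7) C.nil) C.nil)) C.nil)) C.nil))) C.nil))))) C.nil))) C.nil))) C.nil))) C.nil)) C.nil))) C.nil))) C.nil))) C.nil))) C.nil))) (C.cons (nat_lit 642) (C.node (nat_lit 3) (nat_lit 7) (nat_lit 9) (C.cons (nat_lit 648) (C.node (nat_lit 2) (nat_lit 4) (nat_lit 9) (C.cons (nat_lit 1556) (C.node (nat_lit 3) (nat_lit 4) (nat_lit 9) (C.cons (nat_lit 536) (C.node (nat_lit 4) (nat_lit 7) (nat_lit 10) (C.cons (nat_lit 1170) (C.miq (nat_lit 605461104) (nat_lit 99142782778639096138106753)) (C.cons (nat_lit 1168) (C.node (nat_lit 2) (nat_lit 4) (nat_lit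 5) (C.cons (nat_lit 62) (C.miq (nat_lit 2300774981) (nat_lit 712062786976726588873114737)) (C.cons (nat_lit 60) (C.miq (nat_lit 2300774981) (nat_lit 712062786976726588872983665)) (C.cons (nat_lit 54) (C.miq (nat_lit 2807171393) (nat_lit 199491779370270193576444435)) (C.cons (nat_lit 52) (C.node (nat_lit 1) (nat_lit 2) (nat_lit 4) (C.cons (nat_lit 30) (C.node (nat_lit 3) (nat_lit 4) (nat_lit 5) (C.cons (nat_lit 56) (C.node (nat_lit 1) (nat_lit 4) (nat_lit 7) (C.cons (nat_lit 402) (C.miq (nat_lit 963715204) (nat_lit 776130929760711153389011221)) (C.cons (nat_lit 146) (C.node (nat_lit 4) (nat_lit 7) (nat_lit 8) (C.cons (nat_lit 400) (C.node (nat_lit 1) (nat_lit 4) (nat_lit 10) (C.cons (nat_lit 1298) (C.miq (nat_lit 342010000) (nat_lit 256311292716799541526726529)) (C.cons (nat_lit 1042) (C.node (nat_lit 2) (nat_lit 3) (nat_lit 7) (C.cons (nat_lit 396) (C.miq (nat_lit 1417152035) (nat_lit 483575806848879520698335821)) (C.cons (nat_lit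 140) (C.node (nat_lit 2) (nat_lit 3) (nat_lit 8) (C.cons (nat_lit 1292) (C.miq (nat_lit 2202640912) (nat_lit 648019675872472632485151751)) (C.cons (nat_lit 268) (C.node (nat_lit 3) (nat_lit 9) (nat_lit 10) (C.cons (nat_lit 1578) (C.miq (nat_lit 2207384996) (nat_lit 712062417584729847091168369)) (C.cons (nat_lit 1576) (C.miq (nat_lit 2207384996) (nat_lit 712062417584729838501233777)) (C.cons (nat_lit 1546) (C.miq (nat_lit 2316568882) (nat_lit 1259705814327272087872209485)) (C.cons (nat_lit 1544) (C.node (nat_lit 3) (nat_lit 4) (nat_lit 8) (C.cons (nat_lit 1304) (C.node (nat_lit 1) (nat_lit 4) (nat_lit 5) (C.cons (nat_lit 306) (C.node (nat_lit 1) (nat_lit 3) (nat_lit 9) (C.cons (nat_lit 554) (C.miq (nat_lit 592972052) (nat_lit 359056078339444423148044819)) C.nil)) C.nil)) C.nil)) C.nil))))) C.nil))) C.nil))) C.nil))) C.nil)) C.nil))) C.nil)) (C.cons (nat_lit 22) (C.node (nat_lit 2) (nat_lit 3) (nat_lit 4) (C.cons (nat_lit 28) (C.node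 (nat_lit 1) (nat_lit 4) (nat_lit 7) (C.cons (nat_lit 402) (C.node (nat_lit 4) (nat_lit 5) (nat_lit 8) (C.cons (nat_lit 304) (C.node (nat_lit 1) (nat_lit 2) (nat_lit 7) (C.cons (nat_lit 142)
  (C.miq (nat_lit 412316770) (nat_lit 938129055571767289136873684)) (C.cons (nat_lit 134) (C.node (nat_lit 2) (nat_lit 3) (nat_lit 7) (C.cons (nat_lit 396) (C.miq (nat_lit 1417152035) (nat_lit 485993658488108779047748173)) (C.cons (nat_lit 140) (C.node (nat_lit 2) (nat_lit 7) (nat_lit 8) (C.cons (nat_lit 388) (C.node (nat_lit 3) (nat_lit 7) (nat_lit 8) (C.cons (nat_lit 456) (C.miq (nat_lit 944334608) (nat_lit 1025179960293819271068451011)) (C.cons (nat_lit 392) (C.node (nat_lit 5) (nat_lit 7) (nat_lit 8) (C.cons (nat_lit 416) (C.node (nat_lit 6) (nat_lit 7) (nat_lit 8) C.nil) C.nil)) C.nil))) C.nil)) C.nil))) C.nil))) C.nil)) (C.cons (nat_lit 146) (C.node (nat_lit 4) (nat_lit 7) (nat_lit 8) (C.cons (nat_lit 400) (C.node (nat_lit 3) (nat_lit 4)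 (nat_lit 5) (C.cons (nat_lit 58) (C.node (nat_lit 4) (nat_lit 5) (nat_lit 8) (C.cons (nat_lit 304) (C.node (nat_lit 1) (nat_lit 4) (nat_lit 8) (C.cons (nat_lit 1298) (C.miq (nat_lit 342010000) (nat_lit 256311292716799541526726529)) (C.cons (nat_lit 274) (C.node (nat_lit 1) (nat_lit 4) (nat_lit 10) (C.cons (nat_lit 1042) (C.node (nat_lit 1) (nat_lit 3) (nat_lit 9) C.nil) C.nil)) C.nil))) C.nil)) (C.cons (nat_lit 56) (C.node (nat_lit 1) (nat_lit 4) (nat_lit 5) (C.cons (nat_lit 306) (C.node (nat_lit 1) (nat_lit 8) (nat_lit 9) (C.cons (nat_lit 774) (C.miq (nat_lit 2759919250) (nat_lit 369950319715257212710814285)) (C.cons (nat_lit 770) (C.node (nat_lit 1) (nat_lit 2) (nat_lit 9) C.nil) C.nil))) (C.cons (nat_lit 50) (C.node (nat_lit 4) (nat_lit 5) (nat_lit 8) (C.cons (nat_lit 304) (C.node (nat_lit 4) (nat_lit 8) (nat_lit 10) (C.cons (nat_lit 1306) (C.miq (nat_lit 1678940320) (nat_lit 26607233402477646314932097)) (C.cons (nat_lit 1304)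 (C.node (nat_lit 1) (nat_lit 4) (nat_lit 3) C.nil) (C.cons (nat_lit 1298) (C.miq (nat_lit 1678940320) (nat_lit 26607233402477611955193729)) C.nil)))) C.nil)) C.nil))) C.nil))) C.nil)) C.nil))) C.nil)) C.nil))) C.nil))))) C.nil))) C.nil)) (C.cons (nat_lit 532) (C.node (nat_lit 2) (nat_lit 4) (nat_lit 10) (C.cons (nat_lit 1052) (C.node (nat_lit 3) (nat_lit 4) (nat_lit 9) (C.cons (nat_lit 536) (C.node (nat_lit 4) (nat_lit 9) (nat_lit 10) (C.cons (nat_lit 1552) (C.node (nat_lit 1) (nat_lit 2) (nat_lit 4) (C.cons (nat_lit 54) (C.miq (nat_lit 2807171393) (nat_lit 199491779370270193576444435)) (C.cons (nat_lit 22) (C.node (nat_lit 2) (nat_lit 4) (nat_lit 5) (C.cons (nat_lit 52) (C.node (nat_lit 4) (nat_lit 7) (nat_lit 10) (C.cons (nat_lit 1170) (C.miq (nat_lit 880159248) (nat_lit 256303139186677500587738119)) (C.cons (nat_lit 1168) (C.node (nat_lit 1) (nat_lit 4) (nat_lit 10) (C.cons (nat_lit 1298) (C.miq (nat_lit 342010000) (nat_lit 256311292716799541526726529))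 (C.cons (nat_lit 1042) (C.node (nat_lit 4) (nat_lit 8) (nat_lit 10) (C.cons (nat_lit 1296) (C.node (nat_lit 2) (nat_lit 3) (nat_lit 7) (C.cons (nat_lit 398) (C.miq (nat_lit 2236035170) (nat_lit 831748305782609160074166861)) (C.cons (nat_lit 396) (C.miq (nat_lit 2236035170) (nat_lit 831748268889121012655063629)) (C.cons (nat_lit 142) (C.miq (nat_lit 1681328673) (nat_lit 184969247836174203927528455)) (C.cons (nat_lit 140) (C.node (nat_lit 1) (nat_lit 2) (nat_lit 7) (C.cons (nat_lit 390) (C.node (nat_lit 1) (nat_lit 4) (nat_lit 7) (C.cons (nat_lit 146) (C.node (nat_lit 2) (nat_lit 3) (nat_lit 8) (C.cons (nat_lit 268) (C.node (nat_lit 4) (nat_lit 7) (nat_lit 8) (C.cons (nat_lit 400) (C.node (nat_lit 1) (nat_lit 2) (nat_lit 9) C.nil) C.nil)) C.nil)) C.nil)) (C.cons (nat_lit 134) (C.node (nat_lit 2) (nat_lit 7) (nat_lit 8) (C.cons (nat_lit 388) (C.node (nat_lit 1) (nat_lit 4) (nat_lit 7) C.nil) C.nil)) C.nil))) C.nil))))) C.nil)) C.nil)))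 C.nil))) C.nil)) C.nil))) C.nil)) C.nil)) (C.cons (nat_lit 1044) (C.node (nat_lit 2) (nat_lit 9) (nat_lit 10) (C.cons (nat_lit 1572) (C.node (nat_lit 1) (nat_lit 2) (nat_lit 9) (C.cons (nat_lit 774) (C.miq (nat_lit 2191954180) (nat_lit 1320162638076015624638759443)) (C.cons (nat_lit 518) (C.node (nat_lit 2) (nat_lit 8) (nat_lit 9) (C.cons (nat_lit 772)
  (C.node (nat_lit 3) (nat_lit 4) (nat_lit 9) (C.cons (nat_lit 1560) (C.miq (nat_lit 691493440) (nat_lit 783386975265537230833779825)) (C.cons (nat_lit 536) (C.node (nat_lit 4) (nat_lit 9) (nat_lit 10) (C.cons (nat_lit 1552) (C.node (nat_lit 2) (nat_lit 4) (nat_lit 5) (C.cons (nat_lit 62) (C.miq (nat_lit 2032339540) (nat_lit 712060130645580043417158769)) (C.cons (nat_lit 60) (C.miq (nat_lit 2032339540) (nat_lit 712060130645580043417027697)) (C.cons (nat_lit 54) (C.miq (nat_lit 1965724688) (nat_lit 1900466824823217674659496467)) (C.cons (nat_lit 52) (C.node (nat_lit 2) (nat_lit 5)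 (nat_lit 6) (C.cons (nat_lit 358) (C.miq (nat_lit 2032208470) (nat_lit 626227172216192467833586801)) (C.cons (nat_lit 356) (C.miq (nat_lit 879232805) (nat_lit 1025174573759262013880795301)) (C.cons (nat_lit 102) (C.miq (nat_lit 2032208470) (nat_lit 626227172216192467816809585)) (C.cons (nat_lit 100) (C.node (nat_lit 1) (nat_lit 2) (nat_lit 6) (C.cons (nat_lit 326) (C.node (nat_lit 2) (nat_lit 5) (nat_lit 8) (C.cons (nat_lit 292) (C.node (nat_lit 1) (nat_lit 5) (nat_lit 6) C.nil) C.nil)) C.nil)) C.nil))))) C.nil))))) C.nil)) C.nil))) C.nil)) C.nil))) (C.cons (nat_lit 1540) (C.node (nat_lit 3) (nat_lit 4) (nat_lit 9) (C.cons (nat_lit 1560) (C.node (nat_lit 4) (nat_lit 7) (nat_lit 10) (C.cons (nat_lit 1170) (C.miq (nat_lit 873896560) (nat_lit 99142782779764996044949377)) (C.cons (nat_lit 1168) (C.node (nat_lit 1) (nat_lit 4) (nat_lit 10) (C.cons (nat_lit 1298) (C.miq (nat_lit 342010000) (nat_lit 256311292716799541526726529)) (C.cons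 (nat_lit 1042) (C.node (nat_lit 4) (nat_lit 8) (nat_lit 10) (C.cons (nat_lit 1296) (C.node (nat_lit 6) (nat_lit 7) (nat_lit 10) (C.cons (nat_lit 1224) (C.miq (nat_lit 339085735) (nat_lit 106389069390651653599266689)) (C.cons (nat_lit 1216) (C.node (nat_lit 2) (nat_lit 4) (nat_lit 5) (C.cons (nat_lit 62) (C.miq (nat_lit 2033322565) (nat_lit 712060352006508876392170609)) (C.cons (nat_lit 60) (C.miq (nat_lit 2033322565) (nat_lit 712060352006508876392039537)) (C.cons (nat_lit 54) (C.miq (nat_lit 2807171393) (nat_lit 199491779370270193576444435)) (C.cons (nat_lit 52) (C.node (nat_lit 1) (nat_lit 2) (nat_lit 4) (C.cons (nat_lit 30) (C.node (nat_lit 3) (nat_lit 4) (nat_lit 5) (C.cons (nat_lit 56) (C.node (nat_lit 3) (nat_lit 4) (nat_lit 8) (C.cons (nat_lit 280) (C.node (nat_lit 1) (nat_lit 3) (nat_lit 9) C.nil) C.nil)) C.nil)) (C.cons (nat_lit 22) (C.node (nat_lit 2) (nat_lit 3) (nat_lit 4) (C.cons (nat_lit 28) (C.node (nat_lit 1) (nat_lit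 2) (nat_lit 9) (C.cons (nat_lit 806) (C.miq (nat_lit 440934505) (nat_lit 1566782730586488404739883597)) C.nil)) C.nil)) C.nil))) C.nil))))) C.nil))) C.nil)) C.nil))) C.nil))) (C.cons (nat_lit 536) (C.node (nat_lit 4) (nat_lit 9) (nat_lit 10) (C.cons (nat_lit 1552) (C.node (nat_lit 4) (nat_lit 5) (nat_lit 8) (C.cons (nat_lit 306) (C.node (nat_lit 4) (nat_lit 7) (nat_lit 8) (C.cons (nat_lit 400) (C.node (nat_lit 1) (nat_lit 8) (nat_lit 9) (C.cons (nat_lit 774) (C.miq (nat_lit 2759919250) (nat_lit 369950319715257212710814285)) (C.cons (nat_lit 770) (C.node (nat_lit 3) (nat_lit 5) (nat_lit 6) (C.cons (nat_lit 232) (C.miq (nat_lit 1464350240) (nat_lit 483575806594144666767393357)) (C.cons (nat_lit 106) (C.miq (nat_lit 605423699) (nat_lit 99142782418628890067599657)) (C.cons (nat_lit 104) (C.node (nat_lit 1) (nat_lit 2) (nat_lit 4) (C.cons (nat_lit 30) (C.node (nat_lit 2) (nat_lit 4) (nat_lit 5) (C.cons (nat_lit 52) (C.node (nat_lit 3)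 (nat_lit 4) (nat_lit 5) (C.cons (nat_lit 56) (C.node (nat_lit 1) (nat_lit 4) (nat_lit 7) (C.cons (nat_lit 1170) (C.miq (nat_lit 1949933856) (nat_lit 648019675838132685330252807)) C.nil)) C.nil)) C.nil)) (C.cons (nat_lit 22) (C.node (nat_lit 1) (nat_lit 2) (nat_lit 9) (C.cons (nat_lit 550) (C.node (nat_lit 1) (nat_lit 5) (nat_lit 6) (C.cons (nat_lit 98) (C.node (nat_lit 1) (nat_lit 3) (nat_lit 4) C.nil) C.nil)) (C.cons (nat_lit 518) (C.node (nat_lit 1) (nat_lit 3) (nat_lit 4) C.nil) C.nil))) C.nil))) C.nil)))) C.nil))) C.nil)) (C.cons (nat_lit 304)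
  (C.node (nat_lit 4) (nat_lit 7) (nat_lit 8) (C.cons (nat_lit 402) (C.node (nat_lit 4) (nat_lit 7) (nat_lit 10) (C.cons (nat_lit 1168) (C.node (nat_lit 1) (nat_lit 2) (nat_lit 7) (C.cons (nat_lit 142) (C.miq (nat_lit 412316770) (nat_lit 938129055571767289136873684)) (C.cons (nat_lit 134) (C.node (nat_lit 2) (nat_lit 3) (nat_lit 7) (C.cons (nat_lit 396) (C.miq (nat_lit 1417152035) (nat_lit 485993658488108779047748173)) (C.cons (nat_lit 140) (C.node (nat_lit 2) (nat_lit 7) (nat_lit 8) (C.cons (nat_lit 388) (C.node (nat_lit 1) (nat_lit 2) (nat_lit 4) (C.cons (nat_lit 62) (C.miq (nat_lit 2807171393) (nat_lit 199491779370270193576968723)) (C.cons (nat_lit 54) (C.miq (nat_lit 2807171393) (nat_lit 199491779370270193576444435)) (C.cons (nat_lit 30) (C.miq (nat_lit 963715204) (nat_lit 776130929760711153389011221)) C.nil)))) C.nil)) C.nil))) C.nil))) C.nil)) (C.cons (nat_lit 400) (C.node (nat_lit 1) (nat_lit 4) (nat_lit 7) (C.cons (nat_lit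 1170) (C.node (nat_lit 6) (nat_lit 7) (nat_lit 10) (C.cons (nat_lit 1224) (C.miq (nat_lit 924412480) (nat_lit 776141241669381741727646833)) (C.cons (nat_lit 1216) (C.node (nat_lit 1) (nat_lit 2) (nat_lit 4) (C.cons (nat_lit 62) (C.miq (nat_lit 1949933856) (nat_lit 648019675838132822769206279)) (C.cons (nat_lit 54) (C.miq (nat_lit 2807171393) (nat_lit 199491779370270193576444435)) (C.cons (nat_lit 30) (C.miq (nat_lit 1949933856) (nat_lit 648019675838132685330252807)) (C.cons (nat_lit 22) (C.node (nat_lit 2) (nat_lit 3) (nat_lit 7) (C.cons (nat_lit 398) (C.miq (nat_lit 1417152035) (nat_lit 483575806848879520698466893)) (C.cons (nat_lit 396) (C.miq (nat_lit 1417152035) (nat_lit 483575806848879520698335821)) (C.cons (nat_lit 142) (C.miq (nat_lit 1685260818) (nat_lit 184976515853339752297006087)) (C.cons (nat_lit 140) (C.node (nat_lit 3) (nat_lit 6) (nat_lit 7) (C.cons (nat_lit 456) (C.node (nat_lit 5) (nat_lit 6) (nat_lit 7) C.nil)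 (C.cons (nat_lit 232) (C.miq (nat_lit 2205287780) (nat_lit 169254724577755566534034545)) C.nil))) C.nil))))) C.nil))))) C.nil))) (C.cons (nat_lit 146) (C.node (nat_lit 4) (nat_lit 7) (nat_lit 10) (C.cons (nat_lit 1168) (C.node (nat_lit 6) (nat_lit 7) (nat_lit 10) (C.cons (nat_lit 1224) (C.node (nat_lit 1) (nat_lit 6) (nat_lit 10) (C.cons (nat_lit 1346) (C.node (nat_lit 3) (nat_lit 6) (nat_lit 8) (C.cons (nat_lit 328) (C.node (nat_lit 1) (nat_lit 4) (nat_lit 8) (C.cons (nat_lit 274) (C.node (nat_lit 1) (nat_lit 4) (nat_lit 10) C.nil) C.nil)) C.nil)) (C.cons (nat_lit 1090) (C.node (nat_lit 6) (nat_lit 8) (nat_lit 10) (C.cons (nat_lit 1344) (C.node (nat_lit 1) (nat_lit 7) (nat_lit 10) C.nil) C.nil)) C.nil))) (C.cons (nat_lit 1216) (C.node (nat_lit 1) (nat_lit 4) (nat_lit 5) (C.cons (nat_lit 50) (C.node (nat_lit 1) (nat_lit 4) (nat_lit 2) C.nil) C.nil)) C.nil))) C.nil)) C.nil))) C.nil))) C.nil))) C.nil)) C.nil))) C.nil))) C.nil))) C.nil)))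 C.nil)) C.nil))) (C.cons (nat_lit 656) (C.node (nat_lit 4) (nat_lit 7) (nat_lit 10) (C.cons (nat_lit 1170) (C.node (nat_lit 4) (nat_lit 5) (nat_lit 7) (C.cons (nat_lit 432) (C.miq (nat_lit 642058631) (nat_lit 1374551700780397937160095617)) (C.cons (nat_lit 176) (C.node (nat_lit 4) (nat_lit 7) (nat_lit 8) (C.cons (nat_lit 400) (C.node (nat_lit 6) (nat_lit 7) (nat_lit 10) (C.cons (nat_lit 1224) (C.miq (nat_lit 443107120) (nat_lit 1934291106933840799131828377)) (C.cons (nat_lit 1216) (C.node (nat_lit 2) (nat_lit 4) (nat_lit 10) (C.cons (nat_lit 1556) (C.miq (nat_lit 605461104) (nat_lit 99142782778639096138106753)) (C.cons (nat_lit 1052) (C.miq (nat_lit 880159248) (nat_lit 256303139186677500587738119)) (C.cons (nat_lit 1044) (C.node (nat_lit 4) (nat_lit 9) (nat_lit 10) (C.cons (nat_lit 1560) (C.miq (nat_lit 873896560) (nat_lit 99142782779764996044949377)) (C.cons (nat_lit 1552) (C.node (nat_lit 2) (nat_lit 3) (nat_lit 7) (C.cons (nat_lit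 398) (C.miq (nat_lit 1417152035) (nat_lit 483575806848879520698466893)) (C.cons (nat_lit 396) (C.miq (nat_lit 1417152035) (nat_lit 483575806848879520698335821)) (C.cons (nat_lit 142)
  (C.miq (nat_lit 1685260818) (nat_lit 184976515853339752297006087)) (C.cons (nat_lit 140) (C.node (nat_lit 1) (nat_lit 2) (nat_lit 7) (C.cons (nat_lit 390) (C.node (nat_lit 2) (nat_lit 6) (nat_lit 8) (C.cons (nat_lit 356) (C.miq (nat_lit 2188596800) (nat_lit 169255093529243978447783025)) (C.cons (nat_lit 324) (C.node (nat_lit 1) (nat_lit 2) (nat_lit 4) (C.cons (nat_lit 62) (C.miq (nat_lit 946950308) (nat_lit 471482213431444266919527537)) (C.cons (nat_lit 54) (C.miq (nat_lit 1517371522) (nat_lit 1414444205393341413899763989)) (C.cons (nat_lit 30) (C.miq (nat_lit 2537753106) (nat_lit 184976516074016134030820359)) (C.cons (nat_lit 22) (C.node (nat_lit 1) (nat_lit 2) (nat_lit 3) (C.cons (nat_lit 46) (C.node (nat_lit 1) (nat_lit 2) (nat_lit 6) (C.cons (nat_lit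 70) (C.node (nat_lit 1) (nat_lit 2) (nat_lit 9) (C.cons (nat_lit 518) (C.node (nat_lit 2) (nat_lit 3) (nat_lit 4) (C.cons (nat_lit 28) (C.node (nat_lit 2) (nat_lit 5) (nat_lit 6) (C.cons (nat_lit 100) (C.node (nat_lit 2) (nat_lit 4) (nat_lit 5) (C.cons (nat_lit 52) (C.node (nat_lit 2) (nat_lit 4) (nat_lit 9) C.nil) C.nil)) C.nil)) C.nil)) C.nil)) C.nil)) (C.cons (nat_lit 14) (C.node (nat_lit 1) (nat_lit 2) (nat_lit 6) (C.cons (nat_lit 102) (C.node (nat_lit 1) (nat_lit 2) (nat_lit 9) (C.cons (nat_lit 518) (C.node (nat_lit 2) (nat_lit 3) (nat_lit 4) (C.cons (nat_lit 60) (C.miq (nat_lit 305620288) (nat_lit 169253211889853163153982577)) (C.cons (nat_lit 28) (C.node (nat_lit 2) (nat_lit 4) (nat_lit 5) (C.cons (nat_lit 52) (C.node (nat_lit 2) (nat_lit 4) (nat_lit 9) (C.cons (nat_lit 532) (C.node (nat_lit 1) (nat_lit 8) (nat_lit 9) C.nil) C.nil)) C.nil)) C.nil))) C.nil)) (C.cons (nat_lit 70) (C.node (nat_lit 2) (nat_lit 5) (nat_lit 6)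 (C.cons (nat_lit 100) (C.node (nat_lit 5) (nat_lit 8) (nat_lit 10) (C.cons (nat_lit 1316) (C.miq (nat_lit 1377216624) (nat_lit 84645781691458594390869889)) (C.cons (nat_lit 1314) (C.miq (nat_lit 941032868) (nat_lit 471483892085152367443575921)) (C.cons (nat_lit 1312) (C.node (nat_lit 5) (nat_lit 7) (nat_lit 8) (C.cons (nat_lit 480) (C.miq (nat_lit 710414439) (nat_lit 1586117869854787808337592515)) (C.cons (nat_lit 416) (C.node (nat_lit 5) (nat_lit 6) (nat_lit 7) (C.cons (nat_lit 232) (C.miq (nat_lit 925390400) (nat_lit 471486548397998375020332145)) (C.cons (nat_lit 224) (C.node (nat_lit 2) (nat_lit 4) (nat_lit 9) (C.cons (nat_lit 564) (C.node (nat_lit 1) (nat_lit 2) (nat_lit 9) C.nil) C.nil)) C.nil))) C.nil))) C.nil)))) C.nil)) C.nil))) C.nil))) C.nil))))) C.nil))) (C.cons (nat_lit 134) (C.node (nat_lit 2) (nat_lit 7) (nat_lit 8) (C.cons (nat_lit 388) (C.node (nat_lit 2) (nat_lit 4) (nat_lit 9) (C.cons (nat_lit 564) (C.node (nat_lit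 2) (nat_lit 9) (nat_lit 10) (C.cons (nat_lit 1540) (C.node (nat_lit 3) (nat_lit 4) (nat_lit 9) (C.cons (nat_lit 536) (C.node (nat_lit 1) (nat_lit 2) (nat_lit 4) (C.cons (nat_lit 30) (C.miq (nat_lit 1949933856) (nat_lit 648019675838132685330252807)) (C.cons (nat_lit 22) (C.node (nat_lit 2) (nat_lit 3) (nat_lit 4) C.nil) C.nil))) C.nil)) C.nil)) (C.cons (nat_lit 532) (C.node (nat_lit 2) (nat_lit 9) (nat_lit 10) (C.cons (nat_lit 1572) (C.node (nat_lit 1) (nat_lit 2) (nat_lit 9) (C.cons (nat_lit 774) (C.miq (nat_lit 2175046150) (nat_lit 1414458852005956700265841229)) (C.cons (nat_lit 518) (C.node (nat_lit 2) (nat_lit 8) (nat_lit 9) (C.cons (nat_lit 772) (C.node (nat_lit 2) (nat_lit 3) (nat_lit 4) (C.cons (nat_lit 62) (C.miq (nat_lit 2453120320) (nat_lit 169285051383892610194670705)) (C.cons (nat_lit 60) (C.miq (nat_lit 2453120320) (nat_lit 169285051383892601604736113)) (C.cons (nat_lit 30) (C.miq (nat_lit 2537753106) (nat_lit 184976516074016134030820359))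 (C.cons (nat_lit 28) (C.node (nat_lit 2) (nat_lit 5) (nat_lit 6) (C.cons (nat_lit 358) (C.miq (nat_lit 2188596800) (nat_lit 169255093529806928401204337)) (C.cons (nat_lit 356) (C.miq (nat_lit 2188596800) (nat_lit 169255093529243978447783025)) (C.cons (nat_lit 102) (C.miq (nat_lit 2451023200) (nat_lit 162031496466205006947878001)) C.nil)))) C.nil))))) C.nil)) C.nil)))
  (C.cons (nat_lit 1540) (C.node (nat_lit 3) (nat_lit 4) (nat_lit 9) (C.cons (nat_lit 568) (C.node (nat_lit 2) (nat_lit 3) (nat_lit 4) (C.cons (nat_lit 30) (C.miq (nat_lit 1949933856) (nat_lit 686705302065800818920850439)) (C.cons (nat_lit 28) (C.node (nat_lit 1) (nat_lit 2) (nat_lit 4) (C.cons (nat_lit 54) (C.node (nat_lit 4) (nat_lit 5) (nat_lit 8) C.nil) C.nil)) C.nil))) (C.cons (nat_lit 536) (C.node (nat_lit 4) (nat_lit 5) (nat_lit 9) (C.cons (nat_lit 560) (C.node (nat_lit 3) (nat_lit 4) (nat_lit 10) (C.cons (nat_lit 1048) (C.node (nat_lit 4) (nat_lit 8) (nat_lit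 10) C.nil) C.nil)) C.nil)) C.nil))) C.nil))) C.nil))) C.nil)) C.nil))) C.nil))))) C.nil))) C.nil)))) C.nil))) C.nil)) C.nil))) (C.cons (nat_lit 1168) (C.ref (nat_lit 111) (nat_lit 10619142165520)) C.nil))) C.nil))) C.nil))) C.nil)) C.nil))) List.nil)

theorem ok11_118 : okL par11 (nat_lit 119) c11_118 (nat_lit 118) = true := by decide +kernel

noncomputable def c11_119 : List C :=
  (List.cons (C.node (nat_lit 2) (nat_lit 4) (nat_lit 9) (C.cons (nat_lit 1556) (C.node (nat_lit 4) (nat_lit 7) (nat_lit 10) (C.cons (nat_lit 1170) (C.miq (nat_lit 371486874) (nat_lit 256313856503757775509391233)) (C.cons (nat_lit 1168) (C.node (nat_lit 2) (nat_lit 4) (nat_lit 5) (C.cons (nat_lit 62) (C.miq (nat_lit 2300774981) (nat_lit 712062786976726588873114737)) (C.cons (nat_lit 60) (C.miq (nat_lit 2300774981) (nat_lit 712062786976726588872983665)) (C.cons (nat_lit 54) (C.miq (nat_lit 2807171393) (nat_lit 199491779370270193576444435)) (C.cons (nat_lit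 52) (C.node (nat_lit 1) (nat_lit 2) (nat_lit 4) (C.cons (nat_lit 30) (C.node (nat_lit 3) (nat_lit 4) (nat_lit 5) (C.cons (nat_lit 56) (C.node (nat_lit 1) (nat_lit 4) (nat_lit 7) (C.cons (nat_lit 402) (C.miq (nat_lit 963715204) (nat_lit 776130929760711153389011221)) (C.cons (nat_lit 146) (C.node (nat_lit 4) (nat_lit 7) (nat_lit 8) (C.cons (nat_lit 400) (C.node (nat_lit 1) (nat_lit 4) (nat_lit 10) (C.cons (nat_lit 1298) (C.miq (nat_lit 813771172) (nat_lit 313112340848308179535267348)) (C.cons (nat_lit 1042) (C.node (nat_lit 2) (nat_lit 3) (nat_lit 7) (C.cons (nat_lit 396) (C.miq (nat_lit 1417152035) (nat_lit 483575806848879520698335821)) (C.cons (nat_lit 140) (C.node (nat_lit 2) (nat_lit 3) (nat_lit 8) (C.cons (nat_lit 1292) (C.miq (nat_lit 2148772162) (nat_lit 13322017749819864553227796)) (C.cons (nat_lit 268) (C.node (nat_lit 3) (nat_lit 4) (nat_lit 6) (C.cons (nat_lit 344) (C.miq (nat_lit 2222274080) (nat_lit 831746442674683066467025485))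 (C.cons (nat_lit 88) (C.node (nat_lit 3) (nat_lit 4) (nat_lit 9) (C.cons (nat_lit 792) (C.miq (nat_lit 2216334112) (nat_lit 1259736140456737506563916365)) (C.cons (nat_lit 536) (C.node (nat_lit 4) (nat_lit 8) (nat_lit 9) (C.cons (nat_lit 784) (C.node (nat_lit 3) (nat_lit 9) (nat_lit 10) (C.cons (nat_lit 1578) (C.miq (nat_lit 2207384996) (nat_lit 712062417584729847091168369)) (C.cons (nat_lit 1576) (C.miq (nat_lit 2207384996) (nat_lit 712062417584729838501233777)) (C.cons (nat_lit 1546) (C.miq (nat_lit 2316568882) (nat_lit 1259705814327272087872209485)) (C.cons (nat_lit 1544) (C.node (nat_lit 1) (nat_lit 2) (nat_lit 7) (C.cons (nat_lit 390) (C.node (nat_lit 1) (nat_lit 4) (nat_lit 6) (C.cons (nat_lit 338) (C.miq (nat_lit 1384384278) (nat_lit 334893426027709135370453187)) (C.cons (nat_lit 82) (C.node (nat_lit 4) (nat_lit 6) (nat_lit 8) (C.cons (nat_lit 336) (C.node (nat_lit 1) (nat_lit 4) (nat_lit 5) (C.cons (nat_lit 306) (C.node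 (nat_lit 3) (nat_lit 7) (nat_lit 8) C.nil) C.nil)) C.nil)) C.nil))) (C.cons (nat_lit 134) (C.node (nat_lit 2) (nat_lit 7) (nat_lit 8) (C.cons (nat_lit 388) (C.node (nat_lit 1) (nat_lit 4) (nat_lit 5) (C.cons (nat_lit 50) (C.node (nat_lit 4) (nat_lit 5) (nat_lit 8) (C.cons (nat_lit 304) (C.node (nat_lit 1) (nat_lit 4) (nat_lit 6) C.nil) C.nil)) C.nil)) C.nil)) C.nil))) C.nil))))) C.nil)) C.nil))) C.nil))) C.nil))) C.nil))) C.nil))) C.nil)) C.nil))) C.nil)) (C.cons (nat_lit 22) (C.node (nat_lit 2) (nat_lit 3) (nat_lit 4) (C.cons (nat_lit 28) (C.node (nat_lit 1) (nat_lit 4) (nat_lit 7) (C.cons (nat_lit 402) (C.node (nat_lit 4) (nat_lit 5) (nat_lit 8) (C.cons (nat_lit 304) (C.node (nat_lit 2) (nat_lit 7) (nat_lit 8) (C.cons (nat_lit 396) (C.miq (nat_lit 1417152035) (nat_lit 485993658488108779047748173)) (C.cons (nat_lit 388) (C.node (nat_lit 4) (nat_lit 6) (nat_lit 8) (C.cons (nat_lit 344) (C.miq (nat_lit 2222274080) (nat_lit 831746442674683066467025485))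 (C.cons (nat_lit 336) (C.node (nat_lit 2) (nat_lit 6) (nat_lit 8) (C.cons (nat_lit 358) (C.miq (nat_lit 942081380) (nat_lit 469066040445919003042645105)) (C.cons (nat_lit 356) (C.miq (nat_lit 942081380) (nat_lit 469066040445918994452710513)) (C.cons (nat_lit 326) (C.miq (nat_lit 880936726) (nat_lit 334883317208579094354460867)) (C.cons (nat_lit 324) (C.node (nat_lit 1) (nat_lit 2) (nat_lit 6) (C.cons (nat_lit 102) (C.node (nat_lit 1) (nat_lit 2) (nat_lit 7) (C.cons (nat_lit 142) (C.miq (nat_lit 1366581808) (nat_lit 486009153461803793511940685)) (C.cons (nat_lit 134)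
  (C.node (nat_lit 2) (nat_lit 3) (nat_lit 7) (C.cons (nat_lit 140) (C.node (nat_lit 1) (nat_lit 2) (nat_lit 9) (C.cons (nat_lit 774) (C.miq (nat_lit 840173959) (nat_lit 26599190549157205018544001)) (C.cons (nat_lit 518) (C.node (nat_lit 1) (nat_lit 4) (nat_lit 6) (C.cons (nat_lit 90) (C.miq (nat_lit 924926038) (nat_lit 161997720078393323383293041)) (C.cons (nat_lit 82) (C.node (nat_lit 3) (nat_lit 4) (nat_lit 6) (C.cons (nat_lit 88) (C.node (nat_lit 1) (nat_lit 6) (nat_lit 9) (C.cons (nat_lit 834) (C.miq (nat_lit 907282823) (nat_lit 99134739726035213198952321)) (C.cons (nat_lit 578) (C.node (nat_lit 1) (nat_lit 2) (nat_lit 3) C.nil) C.nil))) C.nil)) C.nil))) C.nil))) C.nil)) C.nil))) (C.cons (nat_lit 70) (C.node (nat_lit 2) (nat_lit 5) (nat_lit 6) (C.cons (nat_lit 100) (C.node (nat_lit 1) (nat_lit 2) (nat_lit 7) (C.cons (nat_lit 142) (C.node (nat_lit 1) (nat_lit 4) (nat_lit 6) (C.cons (nat_lit 90) (C.miq (nat_lit 1410795058) (nat_lit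 485991223517890525384278605)) (C.cons (nat_lit 82) (C.node (nat_lit 3) (nat_lit 4) (nat_lit 6) (C.cons (nat_lit 88) (C.node (nat_lit 1) (nat_lit 4) (nat_lit 10) (C.cons (nat_lit 1050) (C.miq (nat_lit 1412893202) (nat_lit 184968694433851984051045383)) (C.cons (nat_lit 1042) (C.node (nat_lit 1) (nat_lit 5) (nat_lit 7) (C.cons (nat_lit 162) (C.node (nat_lit 1) (nat_lit 7) (nat_lit 10) C.nil) C.nil)) C.nil))) C.nil)) C.nil))) (C.cons (nat_lit 134) (C.node (nat_lit 2) (nat_lit 3) (nat_lit 7) (C.cons (nat_lit 140) (C.node (nat_lit 1) (nat_lit 4) (nat_lit 5) (C.cons (nat_lit 58) (C.node (nat_lit 1) (nat_lit 4) (nat_lit 6) (C.cons (nat_lit 82) (C.node (nat_lit 1) (nat_lit 4) (nat_lit 10) (C.cons (nat_lit 1042) (C.node (nat_lit 3) (nat_lit 4) (nat_lit 6) C.nil) C.nil)) C.nil)) (C.cons (nat_lit 50) (C.node (nat_lit 3) (nat_lit 4) (nat_lit 5) (C.cons (nat_lit 56) (C.node (nat_lit 1) (nat_lit 4) (nat_lit 6) (C.cons (nat_lit 90) (C.node (nat_lit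 1) (nat_lit 4) (nat_lit 10) C.nil) C.nil)) C.nil)) C.nil))) C.nil)) C.nil))) C.nil)) C.nil))) C.nil))))) C.nil))) C.nil))) C.nil)) (C.cons (nat_lit 146) (C.node (nat_lit 4) (nat_lit 7) (nat_lit 8) (C.cons (nat_lit 400) (C.node (nat_lit 3) (nat_lit 4) (nat_lit 5) (C.cons (nat_lit 58) (C.node (nat_lit 4) (nat_lit 5) (nat_lit 8) (C.cons (nat_lit 304) (C.node (nat_lit 3) (nat_lit 4) (nat_lit 6) (C.cons (nat_lit 344) (C.miq (nat_lit 2222274080) (nat_lit 831746442674683066467025485)) (C.cons (nat_lit 88) (C.node (nat_lit 3) (nat_lit 5) (nat_lit 6) (C.cons (nat_lit 232) (C.miq (nat_lit 1464350240) (nat_lit 483575806594144666767393357)) (C.cons (nat_lit 104) (C.node (nat_lit 3) (nat_lit 5) (nat_lit 7) (C.cons (nat_lit 1192) (C.miq (nat_lit 426983589) (nat_lit 783385001170907443707249777)) (C.cons (nat_lit 168) (C.node (nat_lit 3) (nat_lit 5) (nat_lit 9) (C.cons (nat_lit 1576) (C.miq (nat_lit 2207384996) (nat_lit 712062417584729838501233777))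 (C.cons (nat_lit 552) (C.node (nat_lit 5) (nat_lit 9) (nat_lit 10) (C.cons (nat_lit 1570) (C.miq (nat_lit 932266149) (nat_lit 776131446146822127487157361)) (C.cons (nat_lit 1568) (C.node (nat_lit 1) (nat_lit 4) (nat_lit 6) (C.cons (nat_lit 338) (C.node (nat_lit 1) (nat_lit 4) (nat_lit 10) (C.cons (nat_lit 1042) (C.node (nat_lit 2) (nat_lit 6) (nat_lit 8) (C.cons (nat_lit 356) (C.miq (nat_lit 1935032450) (nat_lit 125732195992732007659733269)) (C.cons (nat_lit 324) (C.node (nat_lit 2) (nat_lit 7) (nat_lit 8) (C.cons (nat_lit 398) (C.miq (nat_lit 1417152035) (nat_lit 483575806848879520698466893)) (C.cons (nat_lit 396) (C.miq (nat_lit 1417152035) (nat_lit 483575806848879520698335821)) (C.cons (nat_lit 390) (C.miq (nat_lit 675639648) (nat_lit 367516492985396123877310659)) (C.cons (nat_lit 388) (C.node (nat_lit 1) (nat_lit 6) (nat_lit 9) (C.cons (nat_lit 610) (C.node (nat_lit 2) (nat_lit 5) (nat_lit 6) C.nil) C.nil)) C.nil))))) C.nil)))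 C.nil)) (C.cons (nat_lit 82) (C.node (nat_lit 4) (nat_lit 6) (nat_lit 8) (C.cons (nat_lit 336) (C.node (nat_lit 1) (nat_lit 4) (nat_lit 8) (C.cons (nat_lit 1298) (C.node (nat_lit 3) (nat_lit 4) (nat_lit 10)
  (C.cons (nat_lit 1048) (C.node (nat_lit 3) (nat_lit 4) (nat_lit 8) (C.cons (nat_lit 792) (C.miq (nat_lit 338864272) (nat_lit 33868941907707532862621569)) C.nil)) C.nil)) (C.cons (nat_lit 274) (C.node (nat_lit 1) (nat_lit 4) (nat_lit 10) C.nil) C.nil))) C.nil)) C.nil))) C.nil))) C.nil))) C.nil))) C.nil))) C.nil))) C.nil)) (C.cons (nat_lit 56) (C.node (nat_lit 1) (nat_lit 4) (nat_lit 5) (C.cons (nat_lit 306) (C.node (nat_lit 4) (nat_lit 6) (nat_lit 8) (C.cons (nat_lit 344) (C.miq (nat_lit 2222274080) (nat_lit 831746442674683066467025485)) (C.cons (nat_lit 336) (C.node (nat_lit 3) (nat_lit 5) (nat_lit 6) (C.cons (nat_lit 232) (C.miq (nat_lit 1464350240) (nat_lit 483575806594144666767393357)) (C.cons (nat_lit 106) (C.miq (nat_lit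 1648439429) (nat_lit 26598323552183606064578857)) (C.cons (nat_lit 104) (C.node (nat_lit 3) (nat_lit 5) (nat_lit 9) (C.cons (nat_lit 1578) (C.miq (nat_lit 2207384996) (nat_lit 712062417584729847091168369)) (C.cons (nat_lit 1576) (C.miq (nat_lit 2207384996) (nat_lit 712062417584729838501233777)) (C.cons (nat_lit 554) (C.miq (nat_lit 592972052) (nat_lit 359056078339444423148044819)) (C.cons (nat_lit 552) (C.node (nat_lit 1) (nat_lit 4) (nat_lit 6) (C.cons (nat_lit 90) (C.node (nat_lit 1) (nat_lit 4) (nat_lit 10) (C.cons (nat_lit 1042) (C.node (nat_lit 3) (nat_lit 4) (nat_lit 9) (C.cons (nat_lit 792) (C.miq (nat_lit 2216137568) (nat_lit 176538606082030023670432333)) (C.cons (nat_lit 536) (C.node (nat_lit 4) (nat_lit 8) (nat_lit 9) (C.cons (nat_lit 784) (C.node (nat_lit 3) (nat_lit 4) (nat_lit 8) (C.cons (nat_lit 1304) (C.node (nat_lit 2) (nat_lit 8) (nat_lit 10) (C.cons (nat_lit 1316) (C.miq (nat_lit 709318704) (nat_lit 1412028401393085708131434793))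 (C.cons (nat_lit 1284) (C.node (nat_lit 5) (nat_lit 8) (nat_lit 10) (C.cons (nat_lit 1312) (C.node (nat_lit 3) (nat_lit 7) (nat_lit 10) (C.cons (nat_lit 1224) (C.miq (nat_lit 426983590) (nat_lit 783385591466717802414998641)) (C.cons (nat_lit 1194) (C.miq (nat_lit 607455399) (nat_lit 67702889689165565124020097)) (C.cons (nat_lit 1192) (C.miq (nat_lit 607455399) (nat_lit 67702889689165565123889025)) (C.cons (nat_lit 1162) (C.miq (nat_lit 2199364704) (nat_lit 1404807238954608453247763569)) C.nil))))) C.nil)) C.nil))) C.nil)) C.nil)) C.nil))) C.nil)) (C.cons (nat_lit 82) (C.node (nat_lit 3) (nat_lit 4) (nat_lit 6) (C.cons (nat_lit 88) (C.node (nat_lit 1) (nat_lit 3) (nat_lit 4) (C.cons (nat_lit 1050) (C.node (nat_lit 3) (nat_lit 9) (nat_lit 10) (C.cons (nat_lit 1544) (C.node (nat_lit 4) (nat_lit 8) (nat_lit 10) (C.cons (nat_lit 1296) (C.node (nat_lit 3) (nat_lit 4) (nat_lit 9) (C.cons (nat_lit 792) (C.node (nat_lit 1) (nat_lit 3) (nat_lit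 9) C.nil) C.nil)) C.nil)) C.nil)) (C.cons (nat_lit 26) (C.node (nat_lit 1) (nat_lit 4) (nat_lit 10) (C.cons (nat_lit 1042) (C.node (nat_lit 1) (nat_lit 2) (nat_lit 6) C.nil) C.nil)) C.nil))) C.nil)) C.nil))) C.nil))))) C.nil)))) C.nil))) (C.cons (nat_lit 50) (C.node (nat_lit 4) (nat_lit 5) (nat_lit 8) (C.cons (nat_lit 304) (C.node (nat_lit 3) (nat_lit 4) (nat_lit 9) (C.cons (nat_lit 792) (C.node (nat_lit 3) (nat_lit 4) (nat_lit 6) (C.cons (nat_lit 90) (C.miq (nat_lit 2216137568) (nat_lit 176538606082030023670432333)) (C.cons (nat_lit 88) (C.node (nat_lit 4) (nat_lit 8) (nat_lit 10) (C.cons (nat_lit 1298) (C.miq (nat_lit 338864272) (nat_lit 33868941907707532862621569)) (C.cons (nat_lit 1296) (C.node (nat_lit 3) (nat_lit 9) (nat_lit 10) (C.cons (nat_lit 1578) (C.miq (nat_lit 323135872) (nat_lit 33868941986520526321158017)) (C.cons (nat_lit 1576) (C.miq (nat_lit 2207384996) (nat_lit 712062417584729838501233777)) (C.cons (nat_lit 1546)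 (C.miq (nat_lit 323135872) (nat_lit 33868941977513327066417025)) (C.cons (nat_lit 1544) (C.node (nat_lit 1) (nat_lit 3) (nat_lit 4) (C.cons (nat_lit 1050) (C.node (nat_lit 2) (nat_lit 3) (nat_lit 7) (C.cons (nat_lit 398) (C.miq (nat_lit 1417152035) (nat_lit 483575806848879520698466893)) (C.cons (nat_lit 396) (C.miq (nat_lit 1417152035) (nat_lit 483575806848879520698335821)) (C.cons (nat_lit 142)
  (C.miq (nat_lit 1412893202) (nat_lit 184968694433851984051045383)) (C.cons (nat_lit 140) (C.node (nat_lit 1) (nat_lit 4) (nat_lit 6) (C.cons (nat_lit 338) (C.node (nat_lit 1) (nat_lit 6) (nat_lit 10) (C.cons (nat_lit 1090) (C.node (nat_lit 1) (nat_lit 2) (nat_lit 7) (C.cons (nat_lit 390) (C.miq (nat_lit 675639648) (nat_lit 367516492985396123877310659)) (C.cons (nat_lit 134) (C.node (nat_lit 2) (nat_lit 7) (nat_lit 8) C.nil) C.nil))) C.nil)) C.nil)) C.nil))))) (C.cons (nat_lit 26) (C.node (nat_lit 1) (nat_lit 4) (nat_lit 10) (C.cons (nat_lit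 1042) (C.node (nat_lit 3) (nat_lit 4) (nat_lit 10) (C.cons (nat_lit 1048) (C.node (nat_lit 2) (nat_lit 3) (nat_lit 7) (C.cons (nat_lit 396) (C.miq (nat_lit 1417152035) (nat_lit 483575806848879520698335821)) C.nil)) C.nil)) C.nil)) C.nil))) C.nil))))) C.nil))) C.nil))) (C.cons (nat_lit 536) (C.node (nat_lit 4) (nat_lit 8) (nat_lit 9) (C.cons (nat_lit 784) (C.node (nat_lit 3) (nat_lit 8) (nat_lit 9) (C.cons (nat_lit 778) (C.node (nat_lit 5) (nat_lit 3) (nat_lit 9) (C.cons (nat_lit 1576) (C.miq (nat_lit 2242118546) (nat_lit 1374553766733546626240217677)) (C.cons (nat_lit 552) (C.node (nat_lit 3) (nat_lit 10) (nat_lit 9) (C.cons (nat_lit 1544) (C.node (nat_lit 4) (nat_lit 3) (nat_lit 6) (C.cons (nat_lit 344) (C.miq (nat_lit 2222274080) (nat_lit 831746442674683066467025485)) (C.cons (nat_lit 90) (C.node (nat_lit 4) (nat_lit 6) (nat_lit 8) C.nil) C.nil))) C.nil)) C.nil))) (C.cons (nat_lit 776) (C.node (nat_lit 4) (nat_lit 3) (nat_lit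 6) (C.cons (nat_lit 346) (C.miq (nat_lit 2222274080) (nat_lit 831746442675246016420446797)) (C.cons (nat_lit 344) (C.miq (nat_lit 2222274080) (nat_lit 831746442674683066467025485)) (C.cons (nat_lit 90) (C.node (nat_lit 4) (nat_lit 6) (nat_lit 8) C.nil) C.nil)))) C.nil))) C.nil)) C.nil))) C.nil)) C.nil))) C.nil))) C.nil)) C.nil))) C.nil)) C.nil))) C.nil))))) C.nil))) (C.cons (nat_lit 532) (C.node (nat_lit 2) (nat_lit 4) (nat_lit 10) (C.cons (nat_lit 1052) (C.node (nat_lit 4) (nat_lit 9) (nat_lit 10) (C.cons (nat_lit 1552) (C.node (nat_lit 1) (nat_lit 2) (nat_lit 4) (C.cons (nat_lit 54) (C.miq (nat_lit 2807171393) (nat_lit 199491779370270193576444435)) (C.cons (nat_lit 22) (C.node (nat_lit 2) (nat_lit 4) (nat_lit 5) (C.cons (nat_lit 52) (C.node (nat_lit 4) (nat_lit 7) (nat_lit 10) (C.cons (nat_lit 1170) (C.miq (nat_lit 880159248) (nat_lit 256303139186677500587738119)) (C.cons (nat_lit 1168) (C.node (nat_lit 2) (nat_lit 3) (nat_lit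 7) (C.cons (nat_lit 398) (C.miq (nat_lit 2236035170) (nat_lit 831748305782609160074166861)) (C.cons (nat_lit 396) (C.miq (nat_lit 2236035170) (nat_lit 831748268889121012655063629)) (C.cons (nat_lit 142) (C.miq (nat_lit 1681328673) (nat_lit 184969247836174203927528455)) (C.cons (nat_lit 140) (C.node (nat_lit 1) (nat_lit 2) (nat_lit 7) (C.cons (nat_lit 390) (C.node (nat_lit 1) (nat_lit 4) (nat_lit 7) (C.cons (nat_lit 146) (C.node (nat_lit 2) (nat_lit 3) (nat_lit 8) (C.cons (nat_lit 268) (C.node (nat_lit 4) (nat_lit 7) (nat_lit 8) (C.cons (nat_lit 400) (C.node (nat_lit 1) (nat_lit 4) (nat_lit 10) (C.cons (nat_lit 1298) (C.miq (nat_lit 1410468487) (nat_lit 26599412064336627332679553)) (C.cons (nat_lit 1042) (C.node (nat_lit 4) (nat_lit 8) (nat_lit 10) (C.cons (nat_lit 1296) (C.node (nat_lit 2) (nat_lit 6) (nat_lit 8) (C.cons (nat_lit 356) (C.miq (nat_lit 2188596800) (nat_lit 169255093529243978447783025)) (C.cons (nat_lit 324) (C.node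 (nat_lit 4) (nat_lit 6) (nat_lit 8) (C.cons (nat_lit 346) (C.miq (nat_lit 2222274080) (nat_lit 831746442675246016420446797)) (C.cons (nat_lit 344) (C.miq (nat_lit 2222274080) (nat_lit 831746442674683066467025485)) (C.cons (nat_lit 338) (C.miq (nat_lit 1384384278) (nat_lit 334893426027709135370453187)) (C.cons (nat_lit 336) (C.node (nat_lit 1) (nat_lit 2) (nat_lit 3) (C.cons (nat_lit 46) (C.node (nat_lit 1) (nat_lit 2) (nat_lit 6) (C.cons (nat_lit 70) (C.node (nat_lit 3) (nat_lit 4) (nat_lit 5) C.nil) C.nil)) (C.cons (nat_lit 14) (C.node (nat_lit 2) (nat_lit 3) (nat_lit 5) (C.cons (nat_lit 44)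
  (C.node (nat_lit 1) (nat_lit 2) (nat_lit 6) (C.cons (nat_lit 102) (C.node (nat_lit 1) (nat_lit 4) (nat_lit 6) C.nil) (C.cons (nat_lit 70) (C.node (nat_lit 2) (nat_lit 5) (nat_lit 6) C.nil) C.nil))) C.nil)) C.nil))) C.nil))))) C.nil))) C.nil)) C.nil))) C.nil)) C.nil)) C.nil)) (C.cons (nat_lit 134) (C.node (nat_lit 2) (nat_lit 7) (nat_lit 8) (C.cons (nat_lit 388) (C.node (nat_lit 1) (nat_lit 4) (nat_lit 7) (C.cons (nat_lit 402) (C.node (nat_lit 1) (nat_lit 4) (nat_lit 10) (C.cons (nat_lit 1042) (C.node (nat_lit 4) (nat_lit 5) (nat_lit 8) (C.cons (nat_lit 304) (C.node (nat_lit 4) (nat_lit 8) (nat_lit 10) (C.cons (nat_lit 1296) (C.node (nat_lit 4) (nat_lit 6) (nat_lit 8) (C.cons (nat_lit 344) (C.miq (nat_lit 2222274080) (nat_lit 831746442674683066467025485)) (C.cons (nat_lit 336) (C.node (nat_lit 2) (nat_lit 6) (nat_lit 8) (C.cons (nat_lit 358) (C.miq (nat_lit 2188596800) (nat_lit 169255093529806928401204337)) (C.cons (nat_lit 356)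 (C.miq (nat_lit 2188596800) (nat_lit 169255093529243978447783025)) (C.cons (nat_lit 326) (C.miq (nat_lit 880936726) (nat_lit 334883317208579094354460867)) (C.cons (nat_lit 324) (C.node (nat_lit 1) (nat_lit 2) (nat_lit 6) (C.cons (nat_lit 102) (C.node (nat_lit 2) (nat_lit 3) (nat_lit 5) (C.cons (nat_lit 44) (C.node (nat_lit 1) (nat_lit 2) (nat_lit 3) C.nil) C.nil)) (C.cons (nat_lit 70) (C.node (nat_lit 2) (nat_lit 5) (nat_lit 6) (C.cons (nat_lit 100) (C.node (nat_lit 1) (nat_lit 4) (nat_lit 6) C.nil) C.nil)) C.nil))) C.nil))))) C.nil))) C.nil)) C.nil)) C.nil)) (C.cons (nat_lit 146) (C.node (nat_lit 4) (nat_lit 7) (nat_lit 8) (C.cons (nat_lit 400) (C.node (nat_lit 1) (nat_lit 4) (nat_lit 10) (C.cons (nat_lit 1298) (C.node (nat_lit 4) (nat_lit 5) (nat_lit 8) (C.cons (nat_lit 304) (C.node (nat_lit 1) (nat_lit 6) (nat_lit 10) (C.cons (nat_lit 1098) (C.miq (nat_lit 2170571314) (nat_lit 235745644938320342296626204)) (C.cons (nat_lit 1090)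 (C.node (nat_lit 2) (nat_lit 3) (nat_lit 8) (C.cons (nat_lit 270) (C.miq (nat_lit 916529224) (nat_lit 1317734124166639346754126101)) (C.cons (nat_lit 268) (C.node (nat_lit 3) (nat_lit 4) (nat_lit 9) (C.cons (nat_lit 792) (C.miq (nat_lit 338864272) (nat_lit 1271808981193087807761745793)) (C.cons (nat_lit 536) (C.node (nat_lit 4) (nat_lit 8) (nat_lit 9) (C.cons (nat_lit 784) (C.node (nat_lit 2) (nat_lit 9) (nat_lit 10) C.nil) C.nil)) C.nil))) C.nil))) C.nil))) C.nil)) (C.cons (nat_lit 1042) (C.node (nat_lit 4) (nat_lit 8) (nat_lit 10) (C.cons (nat_lit 1296) (C.node (nat_lit 2) (nat_lit 3) (nat_lit 5) (C.cons (nat_lit 46) (C.node (nat_lit 2) (nat_lit 3) (nat_lit 8) (C.cons (nat_lit 268) (C.node (nat_lit 3) (nat_lit 4) (nat_lit 5) (C.cons (nat_lit 56) (C.node (nat_lit 2) (nat_lit 5) (nat_lit 6) (C.cons (nat_lit 356) (C.miq (nat_lit 2188596800) (nat_lit 169255093529243978447783025)) (C.cons (nat_lit 100) (C.node (nat_lit 3) (nat_lit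 5) (nat_lit 6) (C.cons (nat_lit 232) (C.miq (nat_lit 925390400) (nat_lit 469068696758769116670919793)) (C.cons (nat_lit 104) (C.node (nat_lit 1) (nat_lit 3) (nat_lit 9) (C.cons (nat_lit 1546) (C.miq (nat_lit 1469259937) (nat_lit 783384779706958717739729927)) (C.cons (nat_lit 778) (C.miq (nat_lit 2435285840) (nat_lit 162031496242713634919481641)) (C.cons (nat_lit 522) (C.node (nat_lit 1) (nat_lit 2) (nat_lit 6) C.nil) C.nil)))) C.nil))) C.nil))) C.nil)) C.nil)) (C.cons (nat_lit 44) (C.node (nat_lit 1) (nat_lit 2) (nat_lit 3) (C.cons (nat_lit 270) (C.node (nat_lit 2) (nat_lit 6) (nat_lit 8) (C.cons (nat_lit 356) (C.miq (nat_lit 2188596800) (nat_lit 169255093529243978447783025)) (C.cons (nat_lit 324) (C.node (nat_lit 4) (nat_lit 5) (nat_lit 8) (C.cons (nat_lit 306) (C.miq (nat_lit 1678902659) (nat_lit 26607233483819619567141161)) (C.cons (nat_lit 304) (C.node (nat_lit 3) (nat_lit 5) (nat_lit 6) (C.cons (nat_lit 232) (C.miq (nat_lit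 925390400) (nat_lit 469068696758769116670919793)) (C.cons (nat_lit 106) (C.miq (nat_lit 407187974) (nat_lit 367515404593718515815481933)) (C.cons (nat_lit 104) (C.node (nat_lit 1) (nat_lit 2) (nat_lit 6)
  (C.cons (nat_lit 102) (C.node (nat_lit 1) (nat_lit 4) (nat_lit 5) C.nil) (C.cons (nat_lit 70) (C.node (nat_lit 2) (nat_lit 5) (nat_lit 6) C.nil) C.nil))) C.nil)))) C.nil))) C.nil))) (C.cons (nat_lit 14) (C.node (nat_lit 2) (nat_lit 3) (nat_lit 8) (C.cons (nat_lit 268) (C.node (nat_lit 2) (nat_lit 9) (nat_lit 10) (C.cons (nat_lit 1572) (C.node (nat_lit 2) (nat_lit 8) (nat_lit 10) C.nil) C.nil)) C.nil)) C.nil))) C.nil))) C.nil)) C.nil))) C.nil)) C.nil))) C.nil)) C.nil))) C.nil))))) C.nil))) C.nil)) C.nil))) C.nil)) (C.cons (nat_lit 1044) (C.node (nat_lit 2) (nat_lit 9) (nat_lit 10) (C.cons (nat_lit 1572) (C.node (nat_lit 4) (nat_lit 9) (nat_lit 10) (C.cons (nat_lit 1560) (C.miq (nat_lit 691493440) (nat_lit 783386975265537230833779825))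 (C.cons (nat_lit 1552) (C.node (nat_lit 2) (nat_lit 4) (nat_lit 5) (C.cons (nat_lit 62) (C.miq (nat_lit 2032339540) (nat_lit 712060130645580043417158769)) (C.cons (nat_lit 60) (C.miq (nat_lit 2032339540) (nat_lit 712060130645580043417027697)) (C.cons (nat_lit 54) (C.miq (nat_lit 1965724688) (nat_lit 1900466824823217674659496467)) (C.cons (nat_lit 52) (C.node (nat_lit 1) (nat_lit 2) (nat_lit 4) (C.cons (nat_lit 30) (C.node (nat_lit 2) (nat_lit 3) (nat_lit 5) (C.cons (nat_lit 44) (C.node (nat_lit 3) (nat_lit 4) (nat_lit 5) (C.cons (nat_lit 56) (C.node (nat_lit 1) (nat_lit 2) (nat_lit 9) (C.cons (nat_lit 774) (C.miq (nat_lit 932266114) (nat_lit 776130929637988063567544597)) (C.cons (nat_lit 518) (C.node (nat_lit 2) (nat_lit 8) (nat_lit 9) (C.cons (nat_lit 772) (C.node (nat_lit 2) (nat_lit 3) (nat_lit 7) (C.cons (nat_lit 396) (C.miq (nat_lit 2236035170) (nat_lit 831748268889121012655063629)) (C.cons (nat_lit 140) (C.node (nat_lit 3)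 (nat_lit 4) (nat_lit 6) (C.cons (nat_lit 344) (C.miq (nat_lit 2222274080) (nat_lit 831746442674683066467025485)) (C.cons (nat_lit 88) (C.node (nat_lit 4) (nat_lit 7) (nat_lit 8) (C.cons (nat_lit 402) (C.miq (nat_lit 963715204) (nat_lit 776130929760711153389011221)) (C.cons (nat_lit 400) (C.node (nat_lit 1) (nat_lit 4) (nat_lit 7) (C.cons (nat_lit 1170) (C.miq (nat_lit 2537753106) (nat_lit 184976516074016134030820359)) (C.cons (nat_lit 146) (C.node (nat_lit 4) (nat_lit 7) (nat_lit 10) (C.cons (nat_lit 1168) (C.node (nat_lit 1) (nat_lit 2) (nat_lit 7) (C.cons (nat_lit 134) (C.node (nat_lit 2) (nat_lit 7) (nat_lit 8) C.nil) C.nil)) C.nil)) C.nil))) C.nil))) C.nil))) C.nil))) C.nil)) C.nil))) C.nil)) C.nil)) (C.cons (nat_lit 22) (C.node (nat_lit 2) (nat_lit 3) (nat_lit 4) (C.cons (nat_lit 28) (C.node (nat_lit 1) (nat_lit 2) (nat_lit 9) (C.cons (nat_lit 774) (C.node (nat_lit 1) (nat_lit 2) (nat_lit 6) (C.cons (nat_lit 102) (C.miq (nat_lit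 2032208470) (nat_lit 935712182037537536541590641)) (C.cons (nat_lit 70) (C.node (nat_lit 2) (nat_lit 7) (nat_lit 8) (C.cons (nat_lit 396) (C.miq (nat_lit 305436784) (nat_lit 33859718388176089454806913)) (C.cons (nat_lit 388) (C.node (nat_lit 2) (nat_lit 5) (nat_lit 6) (C.cons (nat_lit 356) (C.miq (nat_lit 942081380) (nat_lit 469066040445918994452710513)) (C.cons (nat_lit 100) (C.node (nat_lit 2) (nat_lit 5) (nat_lit 8) (C.cons (nat_lit 292) (C.node (nat_lit 2) (nat_lit 6) (nat_lit 8) (C.cons (nat_lit 324) (C.node (nat_lit 5) (nat_lit 8) (nat_lit 9) (C.cons (nat_lit 864) (C.miq (nat_lit 275262041) (nat_lit 388079466166414600696759844)) C.nil)) C.nil)) C.nil)) C.nil))) C.nil))) C.nil))) (C.cons (nat_lit 518) (C.node (nat_lit 2) (nat_lit 8) (nat_lit 9) (C.cons (nat_lit 772) (C.node (nat_lit 1) (nat_lit 9) (nat_lit 10) (C.cons (nat_lit 1546) (C.node (nat_lit 3) (nat_lit 5) (nat_lit 9) (C.cons (nat_lit 552) (C.node (nat_lit 2) (nat_lit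 3) (nat_lit 5) (C.cons (nat_lit 46) (C.miq (nat_lit 2033519122) (nat_lit 667330096680767536797451271)) (C.cons (nat_lit 44) (C.node (nat_lit 2) (nat_lit 3) (nat_lit 10) (C.cons (nat_lit 1292) (C.miq (nat_lit 321165952) (nat_lit 33859718605478619774257025)) (C.cons (nat_lit 1036) (C.node (nat_lit 3) (nat_lit 4) (nat_lit 9) (C.cons (nat_lit 792)
  (C.miq (nat_lit 323135872) (nat_lit 33868941977513327066417025)) C.nil)) C.nil))) C.nil))) C.nil)) (C.cons (nat_lit 1538) (C.node (nat_lit 3) (nat_lit 9) (nat_lit 10) (C.cons (nat_lit 1544) (C.node (nat_lit 2) (nat_lit 3) (nat_lit 5) (C.cons (nat_lit 46) (C.node (nat_lit 3) (nat_lit 4) (nat_lit 5) (C.cons (nat_lit 56) (C.node (nat_lit 3) (nat_lit 5) (nat_lit 9) (C.cons (nat_lit 552) (C.node (nat_lit 3) (nat_lit 4) (nat_lit 9) (C.cons (nat_lit 792) (C.node (nat_lit 4) (nat_lit 8) (nat_lit 10) (C.cons (nat_lit 1298) (C.miq (nat_lit 338864272) (nat_lit 33868941907707532862621569)) C.nil)) C.nil))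 C.nil)) C.nil)) (C.cons (nat_lit 44) (C.node (nat_lit 2) (nat_lit 3) (nat_lit 10) (C.cons (nat_lit 1292) (C.node (nat_lit 3) (nat_lit 4) (nat_lit 9) (C.cons (nat_lit 792) (C.miq (nat_lit 305400457) (nat_lit 33859718460519006802020225)) (C.cons (nat_lit 536) (C.node (nat_lit 4) (nat_lit 8) (nat_lit 9) C.nil) C.nil))) (C.cons (nat_lit 1036) (C.node (nat_lit 2) (nat_lit 8) (nat_lit 10) C.nil) C.nil))) C.nil))) C.nil)) C.nil))) C.nil)) C.nil))) C.nil)) C.nil))) C.nil))))) C.nil))) (C.cons (nat_lit 1540) (C.node (nat_lit 4) (nat_lit 5) (nat_lit 8) (C.cons (nat_lit 306) (C.node (nat_lit 4) (nat_lit 7) (nat_lit 8) (C.cons (nat_lit 400) (C.node (nat_lit 4) (nat_lit 6) (nat_lit 8) (C.cons (nat_lit 344) (C.miq (nat_lit 2222274080) (nat_lit 831746442674683066467025485)) (C.cons (nat_lit 336) (C.node (nat_lit 3) (nat_lit 5) (nat_lit 6) (C.cons (nat_lit 232) (C.miq (nat_lit 1464350240) (nat_lit 483575806594144666767393357)) (C.cons (nat_lit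 106) (C.miq (nat_lit 371479304) (nat_lit 256297918491826817445724457)) (C.cons (nat_lit 104) (C.node (nat_lit 1) (nat_lit 2) (nat_lit 4) (C.cons (nat_lit 30) (C.node (nat_lit 1) (nat_lit 4) (nat_lit 6) (C.cons (nat_lit 82) (C.node (nat_lit 2) (nat_lit 4) (nat_lit 5) (C.cons (nat_lit 52) (C.node (nat_lit 3) (nat_lit 4) (nat_lit 5) (C.cons (nat_lit 56) (C.node (nat_lit 3) (nat_lit 4) (nat_lit 6) (C.cons (nat_lit 88) (C.node (nat_lit 1) (nat_lit 4) (nat_lit 7) (C.cons (nat_lit 1170) (C.miq (nat_lit 2537753106) (nat_lit 184976516074016134030820359)) (C.cons (nat_lit 146) (C.node (nat_lit 1) (nat_lit 4) (nat_lit 10) (C.cons (nat_lit 1042) (C.node (nat_lit 4) (nat_lit 7) (nat_lit 10) (C.cons (nat_lit 1168) (C.node (nat_lit 4) (nat_lit 8) (nat_lit 9) (C.cons (nat_lit 792) (C.miq (nat_lit 2216334112) (nat_lit 1259736140456737506563916365)) C.nil)) C.nil)) C.nil)) C.nil))) C.nil)) C.nil)) C.nil)) C.nil)) (C.cons (nat_lit 22) (C.node (nat_lit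 1) (nat_lit 4) (nat_lit 6) (C.cons (nat_lit 90) (C.node (nat_lit 1) (nat_lit 4) (nat_lit 7) (C.cons (nat_lit 1170) (C.miq (nat_lit 963731620) (nat_lit 776132036565355576012440689)) (C.cons (nat_lit 146) (C.node (nat_lit 1) (nat_lit 4) (nat_lit 10) (C.cons (nat_lit 1042) (C.node (nat_lit 4) (nat_lit 7) (nat_lit 10) (C.cons (nat_lit 1168) (C.node (nat_lit 2) (nat_lit 3) (nat_lit 4) (C.cons (nat_lit 60) (C.miq (nat_lit 341271328) (nat_lit 831744561035292251173225037)) (C.cons (nat_lit 28) (C.node (nat_lit 2) (nat_lit 4) (nat_lit 5) (C.cons (nat_lit 52) (C.node (nat_lit 3) (nat_lit 4) (nat_lit 5) (C.cons (nat_lit 56) (C.node (nat_lit 4) (nat_lit 8) (nat_lit 9) (C.cons (nat_lit 792) (C.miq (nat_lit 2216137568) (nat_lit 176538606082030023670432333)) C.nil)) C.nil)) C.nil)) C.nil))) C.nil)) C.nil)) C.nil))) (C.cons (nat_lit 82) (C.node (nat_lit 3) (nat_lit 4) (nat_lit 6) (C.cons (nat_lit 88) (C.node (nat_lit 1) (nat_lit 3) (nat_lit 4)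 (C.cons (nat_lit 1050) (C.node (nat_lit 1) (nat_lit 4) (nat_lit 7) (C.cons (nat_lit 146) (C.node (nat_lit 4) (nat_lit 7) (nat_lit 10) (C.cons (nat_lit 1168) (C.node (nat_lit 4) (nat_lit 8) (nat_lit 10) (C.cons (nat_lit 1296) (C.node (nat_lit 4) (nat_lit 9) (nat_lit 10) (C.cons (nat_lit 1552) (C.node (nat_lit 2) (nat_lit 3) (nat_lit 4) (C.cons (nat_lit 60) (C.node (nat_lit 3) (nat_lit 4) (nat_lit 8) (C.cons (nat_lit 792) (C.miq (nat_lit 2220331808) (nat_lit 831776400313158907510194765)) C.nil)) C.nil)) C.nil)) C.nil)) C.nil)) C.nil)) (C.cons (nat_lit 26)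
  (C.node (nat_lit 1) (nat_lit 4) (nat_lit 7) (C.cons (nat_lit 1170) (C.node (nat_lit 4) (nat_lit 9) (nat_lit 10) (C.cons (nat_lit 1560) (C.miq (nat_lit 873896560) (nat_lit 99142782779764996044949377)) (C.cons (nat_lit 1552) (C.node (nat_lit 6) (nat_lit 7) (nat_lit 10) (C.cons (nat_lit 1224) (C.miq (nat_lit 924412480) (nat_lit 776141241669381741727646833)) (C.cons (nat_lit 1216) (C.node (nat_lit 2) (nat_lit 3) (nat_lit 7) (C.cons (nat_lit 398) (C.miq (nat_lit 1410534008) (nat_lit 31437550313012323937027969)) (C.cons (nat_lit 396) (C.miq (nat_lit 1417152035) (nat_lit 483575806848879520698335821)) (C.cons (nat_lit 142) (C.miq (nat_lit 1685260818) (nat_lit 184976515853339752297006087)) (C.cons (nat_lit 140) (C.node (nat_lit 1) (nat_lit 2) (nat_lit 7) (C.cons (nat_lit 390) (C.node (nat_lit 3) (nat_lit 6) (nat_lit 7) (C.cons (nat_lit 200) (C.node (nat_lit 3) (nat_lit 7) (nat_lit 8) C.nil) C.nil)) (C.cons (nat_lit 134) (C.node (nat_lit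 2) (nat_lit 7) (nat_lit 8) C.nil) C.nil))) C.nil))))) C.nil))) C.nil))) (C.cons (nat_lit 146) (C.node (nat_lit 1) (nat_lit 4) (nat_lit 10) (C.cons (nat_lit 1042) (C.node (nat_lit 4) (nat_lit 7) (nat_lit 10) (C.cons (nat_lit 1168) (C.node (nat_lit 2) (nat_lit 3) (nat_lit 4) (C.cons (nat_lit 60) (C.node (nat_lit 4) (nat_lit 8) (nat_lit 9) (C.cons (nat_lit 792) (C.miq (nat_lit 2220331808) (nat_lit 831776400313158907510194765)) C.nil)) (C.cons (nat_lit 28) (C.node (nat_lit 2) (nat_lit 4) (nat_lit 5) (C.cons (nat_lit 52) (C.node (nat_lit 1) (nat_lit 2) (nat_lit 6) C.nil) C.nil)) C.nil))) C.nil)) C.nil)) C.nil))) C.nil))) C.nil)) C.nil))) C.nil))) C.nil)))) C.nil))) C.nil)) (C.cons (nat_lit 304) (C.node (nat_lit 4) (nat_lit 7) (nat_lit 8) (C.cons (nat_lit 402) (C.node (nat_lit 4) (nat_lit 7) (nat_lit 10) (C.cons (nat_lit 1168) (C.node (nat_lit 2) (nat_lit 7) (nat_lit 8) (C.cons (nat_lit 396) (C.miq (nat_lit 1417152035) (nat_lit 485993658488108779047748173))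 (C.cons (nat_lit 388) (C.node (nat_lit 4) (nat_lit 6) (nat_lit 8) (C.cons (nat_lit 344) (C.miq (nat_lit 2222274080) (nat_lit 831746442674683066467025485)) (C.cons (nat_lit 336) (C.node (nat_lit 1) (nat_lit 2) (nat_lit 4) (C.cons (nat_lit 62) (C.miq (nat_lit 2807171393) (nat_lit 199491779370270193576968723)) (C.cons (nat_lit 54) (C.miq (nat_lit 2807171393) (nat_lit 199491779370270193576444435)) (C.cons (nat_lit 30) (C.miq (nat_lit 963715204) (nat_lit 776130929760711153389011221)) (C.cons (nat_lit 22) (C.node (nat_lit 2) (nat_lit 6) (nat_lit 8) (C.cons (nat_lit 358) (C.miq (nat_lit 942081380) (nat_lit 469066040445919003042645105)) (C.cons (nat_lit 356) (C.miq (nat_lit 942081380) (nat_lit 469066040445918994452710513)) (C.cons (nat_lit 326) (C.miq (nat_lit 880936726) (nat_lit 334883317208579094354460867)) (C.cons (nat_lit 324) (C.node (nat_lit 1) (nat_lit 2) (nat_lit 6) (C.cons (nat_lit 102) (C.node (nat_lit 1) (nat_lit 2) (nat_lit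 7) (C.cons (nat_lit 142) (C.miq (nat_lit 1366581808) (nat_lit 486009153461803793511940685)) (C.cons (nat_lit 134) (C.node (nat_lit 2) (nat_lit 3) (nat_lit 7) (C.cons (nat_lit 140) (C.node (nat_lit 1) (nat_lit 2) (nat_lit 9) (C.cons (nat_lit 774) (C.miq (nat_lit 840173959) (nat_lit 26599190549157205018544001)) (C.cons (nat_lit 518) (C.node (nat_lit 1) (nat_lit 4) (nat_lit 6) (C.cons (nat_lit 90) (C.miq (nat_lit 924926038) (nat_lit 161997720078393323383293041)) (C.cons (nat_lit 82) (C.node (nat_lit 3) (nat_lit 4) (nat_lit 6) (C.cons (nat_lit 88) (C.node (nat_lit 1) (nat_lit 6) (nat_lit 9) (C.cons (nat_lit 834) (C.miq (nat_lit 907282823) (nat_lit 99134739726035213198952321)) (C.cons (nat_lit 578) (C.node (nat_lit 1) (nat_lit 2) (nat_lit 3) C.nil) C.nil))) C.nil)) C.nil))) C.nil))) C.nil)) C.nil))) (C.cons (nat_lit 70) (C.node (nat_lit 2) (nat_lit 5) (nat_lit 6) (C.cons (nat_lit 100) (C.node (nat_lit 1) (nat_lit 2) (nat_lit 7) (C.cons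 (nat_lit 142) (C.node (nat_lit 1) (nat_lit 4) (nat_lit 6) (C.cons (nat_lit 90) (C.miq (nat_lit 1410795058) (nat_lit 485991223517890525384278605)) (C.cons (nat_lit 82)
  (C.node (nat_lit 3) (nat_lit 4) (nat_lit 6) (C.cons (nat_lit 88) (C.node (nat_lit 1) (nat_lit 4) (nat_lit 10) (C.cons (nat_lit 1050) (C.miq (nat_lit 1412893202) (nat_lit 184968694433851984051045383)) (C.cons (nat_lit 1042) (C.node (nat_lit 2) (nat_lit 3) (nat_lit 4) (C.cons (nat_lit 60) (C.miq (nat_lit 323383888) (nat_lit 106389069281151445202174117)) (C.cons (nat_lit 28) (C.node (nat_lit 2) (nat_lit 4) (nat_lit 5) C.nil) C.nil))) C.nil))) C.nil)) C.nil))) (C.cons (nat_lit 134) (C.node (nat_lit 2) (nat_lit 3) (nat_lit 7) (C.cons (nat_lit 140) (C.node (nat_lit 1) (nat_lit 4) (nat_lit 5) (C.cons (nat_lit 58) (C.node (nat_lit 1) (nat_lit 4) (nat_lit 6) (C.cons (nat_lit 82) (C.node (nat_lit 1) (nat_lit 4) (nat_lit 10) C.nil) C.nil)) (C.cons (nat_lit 50) (C.node (nat_lit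 1) (nat_lit 4) (nat_lit 6) (C.cons (nat_lit 90) (C.node (nat_lit 1) (nat_lit 4) (nat_lit 10) C.nil) (C.cons (nat_lit 82) (C.node (nat_lit 1) (nat_lit 3) (nat_lit 4) C.nil) C.nil))) C.nil))) C.nil)) C.nil))) C.nil)) C.nil))) C.nil))))) C.nil))))) C.nil))) C.nil))) C.nil)) (C.cons (nat_lit 400) (C.node (nat_lit 1) (nat_lit 4) (nat_lit 7) (C.cons (nat_lit 1170) (C.node (nat_lit 4) (nat_lit 9) (nat_lit 10) (C.cons (nat_lit 1560) (C.miq (nat_lit 446067760) (nat_lit 1934284908827833475831496857)) (C.cons (nat_lit 1552) (C.node (nat_lit 6) (nat_lit 7) (nat_lit 10) (C.cons (nat_lit 1224) (C.miq (nat_lit 924412480) (nat_lit 776141241669381741727646833)) (C.cons (nat_lit 1216) (C.node (nat_lit 1) (nat_lit 2) (nat_lit 4) (C.cons (nat_lit 62) (C.miq (nat_lit 2537753106) (nat_lit 184976516074016134032917511)) (C.cons (nat_lit 54) (C.miq (nat_lit 2807171393) (nat_lit 199491779370270193576444435)) (C.cons (nat_lit 30) (C.miq (nat_lit 2537753106)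 (nat_lit 184976516074016134030820359)) (C.cons (nat_lit 22) (C.node (nat_lit 2) (nat_lit 3) (nat_lit 7) (C.cons (nat_lit 398) (C.miq (nat_lit 1417152035) (nat_lit 483575806848879520698466893)) (C.cons (nat_lit 396) (C.miq (nat_lit 1417152035) (nat_lit 483575806848879520698335821)) (C.cons (nat_lit 142) (C.miq (nat_lit 1685260818) (nat_lit 184976515853339752297006087)) (C.cons (nat_lit 140) (C.node (nat_lit 3) (nat_lit 4) (nat_lit 6) (C.cons (nat_lit 346) (C.miq (nat_lit 963731620) (nat_lit 776136758931838445657654385)) (C.cons (nat_lit 344) (C.miq (nat_lit 2222274080) (nat_lit 831746442674683066467025485)) (C.cons (nat_lit 90) (C.miq (nat_lit 963731620) (nat_lit 776132036565355576012440689)) (C.cons (nat_lit 88) (C.node (nat_lit 1) (nat_lit 2) (nat_lit 7) (C.cons (nat_lit 390) (C.node (nat_lit 1) (nat_lit 4) (nat_lit 5) (C.cons (nat_lit 58) (C.miq (nat_lit 946950308) (nat_lit 471482139644467972081321073)) (C.cons (nat_lit 50) (C.node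 (nat_lit 1) (nat_lit 4) (nat_lit 6) (C.cons (nat_lit 338) (C.miq (nat_lit 675639648) (nat_lit 367516492985396123877310659)) (C.cons (nat_lit 82) (C.node (nat_lit 4) (nat_lit 6) (nat_lit 8) (C.cons (nat_lit 336) (C.node (nat_lit 2) (nat_lit 6) (nat_lit 8) (C.cons (nat_lit 356) (C.miq (nat_lit 2188596800) (nat_lit 169255093529243978447783025)) (C.cons (nat_lit 324) (C.node (nat_lit 1) (nat_lit 2) (nat_lit 3) (C.cons (nat_lit 46) (C.node (nat_lit 1) (nat_lit 2) (nat_lit 6) (C.cons (nat_lit 70) (C.node (nat_lit 1) (nat_lit 2) (nat_lit 9) (C.cons (nat_lit 518) (C.node (nat_lit 2) (nat_lit 3) (nat_lit 4) C.nil) C.nil)) C.nil)) (C.cons (nat_lit 14) (C.node (nat_lit 1) (nat_lit 2) (nat_lit 6) (C.cons (nat_lit 102) (C.node (nat_lit 1) (nat_lit 2) (nat_lit 9) (C.cons (nat_lit 518) (C.node (nat_lit 1) (nat_lit 3) (nat_lit 4) C.nil) C.nil)) (C.cons (nat_lit 70) (C.node (nat_lit 2) (nat_lit 5) (nat_lit 6) (C.cons (nat_lit 100) (C.node (nat_lit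 1) (nat_lit 2) (nat_lit 5) C.nil) C.nil)) C.nil))) C.nil))) C.nil))) C.nil)) C.nil))) C.nil))) (C.cons (nat_lit 134) (C.node (nat_lit 2) (nat_lit 7) (nat_lit 8) (C.cons (nat_lit 388) (C.node (nat_lit 1) (nat_lit 4) (nat_lit 5) (C.cons (nat_lit 58) (C.node (nat_lit 2) (nat_lit 3) (nat_lit 4) (C.cons (nat_lit 28) (C.node (nat_lit 2) (nat_lit 4) (nat_lit 5) C.nil) C.nil))
  (C.cons (nat_lit 50) (C.node (nat_lit 1) (nat_lit 3) (nat_lit 4) (C.cons (nat_lit 282) (C.node (nat_lit 1) (nat_lit 4) (nat_lit 6) (C.cons (nat_lit 82) (C.node (nat_lit 3) (nat_lit 4) (nat_lit 9) (C.cons (nat_lit 536) (C.node (nat_lit 3) (nat_lit 8) (nat_lit 9) C.nil) C.nil)) C.nil)) (C.cons (nat_lit 26) (C.node (nat_lit 3) (nat_lit 4) (nat_lit 9) (C.cons (nat_lit 536) (C.node (nat_lit 4) (nat_lit 8) (nat_lit 9) C.nil) C.nil)) C.nil))) C.nil))) C.nil)) C.nil))) C.nil))))) C.nil))))) C.nil))))) C.nil))) C.nil))) (C.cons (nat_lit 146) (C.node (nat_lit 4) (nat_lit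 7) (nat_lit 10) (C.cons (nat_lit 1168) (C.node (nat_lit 4) (nat_lit 8) (nat_lit 9) (C.cons (nat_lit 792) (C.node (nat_lit 4) (nat_lit 9) (nat_lit 10) (C.cons (nat_lit 1552) (C.node (nat_lit 3) (nat_lit 4) (nat_lit 6) (C.cons (nat_lit 90) (C.miq (nat_lit 2216137568) (nat_lit 176538606082030023670432333)) (C.cons (nat_lit 88) (C.node (nat_lit 2) (nat_lit 4) (nat_lit 5) (C.cons (nat_lit 62) (C.miq (nat_lit 2220331808) (nat_lit 831776400313158916100129357)) (C.cons (nat_lit 60) (C.miq (nat_lit 2220331808) (nat_lit 831776400313158907510194765)) (C.cons (nat_lit 54) (C.miq (nat_lit 2807171393) (nat_lit 199491779370270193576444435)) (C.cons (nat_lit 52) (C.node (nat_lit 1) (nat_lit 2) (nat_lit 4) (C.cons (nat_lit 30) (C.node (nat_lit 1) (nat_lit 4) (nat_lit 5) (C.cons (nat_lit 50) (C.node (nat_lit 3) (nat_lit 4) (nat_lit 5) (C.cons (nat_lit 56) (C.node (nat_lit 3) (nat_lit 4) (nat_lit 10) C.nil) C.nil)) C.nil)) (C.cons (nat_lit 22) (C.node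 (nat_lit 2) (nat_lit 3) (nat_lit 4) (C.cons (nat_lit 28) (C.node (nat_lit 4) (nat_lit 8) (nat_lit 10) (C.cons (nat_lit 1298) (C.miq (nat_lit 338864272) (nat_lit 33868941907707532862621569)) C.nil)) C.nil)) C.nil))) C.nil))))) C.nil))) C.nil)) (C.cons (nat_lit 784) (C.node (nat_lit 3) (nat_lit 4) (nat_lit 9) (C.cons (nat_lit 1560) (C.node (nat_lit 6) (nat_lit 7) (nat_lit 10) (C.cons (nat_lit 1224) (C.miq (nat_lit 389613220) (nat_lit 783393726386275722582295665)) (C.cons (nat_lit 1216) (C.node (nat_lit 2) (nat_lit 4) (nat_lit 5) (C.cons (nat_lit 62) (C.miq (nat_lit 2033322565) (nat_lit 712060352006508876392170609)) (C.cons (nat_lit 60) (C.miq (nat_lit 2033322565) (nat_lit 712060352006508876392039537)) (C.cons (nat_lit 54) (C.miq (nat_lit 2807171393) (nat_lit 199491779370270193576444435)) (C.cons (nat_lit 52) (C.node (nat_lit 3) (nat_lit 4) (nat_lit 6) (C.cons (nat_lit 346) (C.miq (nat_lit 395534500) (nat_lit 783390313738625079907452017))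 (C.cons (nat_lit 344) (C.miq (nat_lit 2222274080) (nat_lit 831746442674683066467025485)) (C.cons (nat_lit 90) (C.miq (nat_lit 395534500) (nat_lit 783385591372142210262238321)) (C.cons (nat_lit 88) (C.node (nat_lit 1) (nat_lit 2) (nat_lit 4) (C.cons (nat_lit 30) (C.node (nat_lit 1) (nat_lit 4) (nat_lit 5) (C.cons (nat_lit 50) (C.node (nat_lit 3) (nat_lit 4) (nat_lit 5) (C.cons (nat_lit 56) (C.node (nat_lit 3) (nat_lit 4) (nat_lit 8) C.nil) C.nil)) C.nil)) (C.cons (nat_lit 22) (C.node (nat_lit 2) (nat_lit 3) (nat_lit 4) (C.cons (nat_lit 28) (C.node (nat_lit 1) (nat_lit 4) (nat_lit 5) (C.cons (nat_lit 58) (C.node (nat_lit 3) (nat_lit 4) (nat_lit 8) C.nil) C.nil)) C.nil)) C.nil))) C.nil))))) C.nil))))) C.nil))) (C.cons (nat_lit 536) (C.node (nat_lit 4) (nat_lit 9) (nat_lit 10) (C.cons (nat_lit 1552) (C.ref (nat_lit 116) (nat_lit 10619142165520)) C.nil)) C.nil))) C.nil))) C.nil)) C.nil))) C.nil))) C.nil))) C.nil))) C.nil))) C.nil)))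 List.nil)

theorem ok11_119 : okL par11 (nat_lit 120) c11_119 (nat_lit 119) = true := by decide +kernel

noncomputable def c11_120 : List C :=
  (List.cons (C.node (nat_lit 3) (nat_lit 5) (nat_lit 9) (C.cons (nat_lit 1576) (C.miq (nat_lit 374567081) (nat_lit 125740275678461849317672833)) (C.cons (nat_lit 568) (C.miq (nat_lit 1985155145) (nat_lit 125740275678461849251611155)) (C.cons (nat_lit 552) (C.node (nat_lit 3) (nat_lit 9) (nat_lit 10) (C.cons (nat_lit 1560) (C.miq (nat_lit 929730820) (nat_lit 1470082573755103635798295059)) (C.cons (nat_lit 1544) (C.node (nat_lit 1) (nat_lit 4) (nat_lit 7) (C.cons (nat_lit 434) (C.miq (nat_lit 643041656) (nat_lit 1374553766815733711593670529)) (C.cons (nat_lit 402) (C.miq (nat_lit 2184659089) (nat_lit 169257030415136814025802259)) (C.cons (nat_lit 178) (C.miq (nat_lit 928420160) (nat_lit 889780268551585986950267411)) (C.cons (nat_lit 146) (C.node (nat_lit 4) (nat_lit 5) (nat_lit 7) (C.cons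 (nat_lit 432) (C.miq (nat_lit 643041656) (nat_lit 1374553766815733711593539457)) (C.cons (nat_lit 176) (C.node (nat_lit 4) (nat_lit 7) (nat_lit 8) (C.cons (nat_lit 400) (C.node (nat_lit 3) (nat_lit 4) (nat_lit 6) (C.cons (nat_lit 346) (C.miq (nat_lit 2222274080) (nat_lit 212776423032555878970884685)) (C.cons (nat_lit 344) (C.miq (nat_lit 2222274080) (nat_lit 212776423031992929017463373)) (C.cons (nat_lit 90) (C.miq (nat_lit 2803108150) (nat_lit 176524144152463889263100493)) (C.cons (nat_lit 88) (C.node (nat_lit 1) (nat_lit 2) (nat_lit 7) (C.cons (nat_lit 390) (C.node (nat_lit 1) (nat_lit 5) (nat_lit 7) (C.cons (nat_lit 162) (C.node (nat_lit 5) (nat_lit 7) (nat_lit 8) (C.cons (nat_lit 416) (C.node (nat_lit 3) (nat_lit 5) (nat_lit 7) (C.cons (nat_lit 1192) (C.node (nat_lit 1) (nat_lit 4) (nat_lit 6) (C.cons (nat_lit 338) (C.miq (nat_lit 1384384278) (nat_lit 334893426027709135370453187)) C.nil)) C.nil)) C.nil)) C.nil)) (C.cons (nat_lit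 134) (C.node (nat_lit 2) (nat_lit 7) (nat_lit 8) (C.cons (nat_lit 388) (C.node (nat_lit 1) (nat_lit 5) (nat_lit 7) (C.cons (nat_lit 418) (C.node (nat_lit 2) (nat_lit 8) (nat_lit 9) (C.cons (nat_lit 804) (C.miq (nat_lit 371552408) (nat_lit 120900292755375878310201217)) (C.cons (nat_lit 774) (C.miq (nat_lit 1192756114) (nat_lit 505336102390091875789177421)) C.nil))) C.nil)) C.nil)) C.nil))) C.nil))))) C.nil)) C.nil))) C.nil))))) C.nil))) C.nil)))) (List.cons (C.node (nat_lit 3) (nat_lit 4) (nat_lit 6) (C.cons (nat_lit 346) (C.miq (nat_lit 1399261250) (nat_lit 1479728247004677826072019221)) (C.cons (nat_lit 344) (C.miq (nat_lit 1399261250) (nat_lit 1479728247004677817482084629)) (C.cons (nat_lit 90) (C.miq (nat_lit 430325875) (nat_lit 1934282971739844776735277209)) (C.cons (nat_lit 88) (C.node (nat_lit 1) (nat_lit 4) (nat_lit 6) (C.cons (nat_lit 338) (C.node (nat_lit 1) (nat_lit 6) (nat_lit 10) (C.cons (nat_lit 1090) (C.node (nat_lit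 3) (nat_lit 6) (nat_lit 8) (C.cons (nat_lit 328) (C.node (nat_lit 6) (nat_lit 8) (nat_lit 10) (C.cons (nat_lit 1344) (C.node (nat_lit 2) (nat_lit 6) (nat_lit 8) (C.cons (nat_lit 356) (C.miq (nat_lit 1450410560) (nat_lit 1479730681991502003829276949)) (C.cons (nat_lit 324) (C.node (nat_lit 4) (nat_lit 7) (nat_lit 8) (C.cons (nat_lit 432) (C.miq (nat_lit 1466139680) (nat_lit 1479730682012894102087860501)) (C.cons (nat_lit 400) (C.node (nat_lit 2) (nat_lit 7) (nat_lit 8) (C.cons (nat_lit 398) (C.miq (nat_lit 1177684600) (nat_lit 712062417821167307033806721)) (C.cons (nat_lit 396) (C.miq (nat_lit 1177684600) (nat_lit 712062417821167307033675649)) (C.cons (nat_lit 390) (C.miq (nat_lit 1384384278) (nat_lit 334893426027709135370453187)) (C.cons (nat_lit 388) (C.node (nat_lit 1) (nat_lit 2) (nat_lit 6) (C.cons (nat_lit 102) (C.node (nat_lit 1) (nat_lit 3) (nat_lit 6) (C.cons (nat_lit 74) (C.node (nat_lit 1) (nat_lit 6) (nat_lit 9) (C.cons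 (nat_lit 578) (C.node (nat_lit 3) (nat_lit 5) (nat_lit 6) (C.cons (nat_lit 104) (C.node (nat_lit 1) (nat_lit 2) (nat_lit 7) (C.cons (nat_lit 142) (C.miq (nat_lit 828666448) (nat_lit 408619749421557823466176677)) (C.cons (nat_lit 134) (C.node (nat_lit 2) (nat_lit 3) (nat_lit 7) (C.cons (nat_lit 140) (C.node (nat_lit 1) (nat_lit 4) (nat_lit 7)
  (C.cons (nat_lit 178) (C.miq (nat_lit 840369748) (nat_lit 161998882345992786352931953)) C.nil)) C.nil)) C.nil))) C.nil)) C.nil)) C.nil)) (C.cons (nat_lit 70) (C.node (nat_lit 2) (nat_lit 5) (nat_lit 6) (C.cons (nat_lit 100) (C.node (nat_lit 1) (nat_lit 2) (nat_lit 7) (C.cons (nat_lit 142) (C.node (nat_lit 3) (nat_lit 7) (nat_lit 8) (C.cons (nat_lit 392) (C.node (nat_lit 1) (nat_lit 4) (nat_lit 7) (C.cons (nat_lit 178) (C.miq (nat_lit 910237783) (nat_lit 408619546633196772479074469)) (C.cons (nat_lit 146) (C.node (nat_lit 4) (nat_lit 5) (nat_lit 7) (C.cons (nat_lit 176) (C.node (nat_lit 1)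 (nat_lit 4) (nat_lit 10) (C.cons (nat_lit 1050) (C.miq (nat_lit 1412893202) (nat_lit 184968694433851984051045383)) (C.cons (nat_lit 1042) (C.node (nat_lit 1) (nat_lit 7) (nat_lit 10) (C.cons (nat_lit 1186) (C.miq (nat_lit 1463197984) (nat_lit 1479746177490147849903342599)) (C.cons (nat_lit 1154) (C.node (nat_lit 5) (nat_lit 7) (nat_lit 10) (C.cons (nat_lit 1184) (C.node (nat_lit 4) (nat_lit 8) (nat_lit 10) C.nil) C.nil)) C.nil))) C.nil))) C.nil)) C.nil))) C.nil)) (C.cons (nat_lit 134) (C.node (nat_lit 2) (nat_lit 3) (nat_lit 7) (C.cons (nat_lit 140) (C.node (nat_lit 1) (nat_lit 3) (nat_lit 6) (C.cons (nat_lit 106) (C.node (nat_lit 1) (nat_lit 6) (nat_lit 9) (C.cons (nat_lit 578) (C.node (nat_lit 1) (nat_lit 2) (nat_lit 3) C.nil) C.nil)) (C.cons (nat_lit 74) (C.node (nat_lit 3) (nat_lit 5) (nat_lit 6) (C.cons (nat_lit 104) (C.node (nat_lit 1) (nat_lit 4) (nat_lit 7) (C.cons (nat_lit 178) (C.node (nat_lit 2) (nat_lit 4) (nat_lit 5)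 (C.cons (nat_lit 564) (C.miq (nat_lit 1649871169) (nat_lit 199476357517299370844881427)) (C.cons (nat_lit 60) (C.miq (nat_lit 339113248) (nat_lit 106389069291284544327844005)) C.nil))) (C.cons (nat_lit 146) (C.node (nat_lit 2) (nat_lit 3) (nat_lit 8) C.nil) C.nil))) C.nil)) C.nil))) C.nil)) C.nil))) C.nil)) C.nil))) C.nil))))) C.nil))) C.nil))) C.nil)) C.nil)) C.nil)) (C.cons (nat_lit 82) (C.node (nat_lit 4) (nat_lit 6) (nat_lit 8) (C.cons (nat_lit 336) (C.node (nat_lit 1) (nat_lit 6) (nat_lit 10) (C.cons (nat_lit 1346) (C.node (nat_lit 3) (nat_lit 6) (nat_lit 8) (C.cons (nat_lit 328) (C.node (nat_lit 2) (nat_lit 6) (nat_lit 8) (C.cons (nat_lit 356) (C.miq (nat_lit 1450410560) (nat_lit 1479730681991502003829276949)) (C.cons (nat_lit 324) (C.node (nat_lit 4) (nat_lit 8) (nat_lit 10) (C.cons (nat_lit 1304) (C.miq (nat_lit 2164565619) (nat_lit 641963665148506365205480648)) (C.cons (nat_lit 1296) (C.node (nat_lit 3) (nat_lit 7) (nat_lit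 8) (C.cons (nat_lit 398) (C.miq (nat_lit 878801064) (nat_lit 99139259055611483630208897)) (C.cons (nat_lit 396) (C.miq (nat_lit 1177684600) (nat_lit 712062417821167307033675649)) (C.cons (nat_lit 394) (C.miq (nat_lit 878801064) (nat_lit 99139185268635188792002433)) (C.cons (nat_lit 392) (C.node (nat_lit 1) (nat_lit 2) (nat_lit 6) (C.cons (nat_lit 102) (C.node (nat_lit 1) (nat_lit 3) (nat_lit 6) (C.cons (nat_lit 74) (C.node (nat_lit 1) (nat_lit 6) (nat_lit 9) (C.cons (nat_lit 578) (C.node (nat_lit 3) (nat_lit 5) (nat_lit 6) (C.cons (nat_lit 104) (C.node (nat_lit 1) (nat_lit 2) (nat_lit 9) (C.cons (nat_lit 774) (C.miq (nat_lit 2014448229) (nat_lit 935711628635214354592433265)) (C.cons (nat_lit 518) (C.node (nat_lit 1) (nat_lit 7) (nat_lit 10) (C.cons (nat_lit 1186) (C.miq (nat_lit 1898554720) (nat_lit 626259011089573269050557553)) (C.cons (nat_lit 1154) (C.node (nat_lit 5) (nat_lit 7) (nat_lit 10) (C.cons (nat_lit 1184) (C.node (nat_lit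 1) (nat_lit 4) (nat_lit 7) (C.cons (nat_lit 434) (C.miq (nat_lit 662922320) (nat_lit 473909786480868610508653681)) (C.cons (nat_lit 402) (C.miq (nat_lit 662786214) (nat_lit 485990061099428068483794033)) (C.cons (nat_lit 178) (C.miq (nat_lit 1097037088) (nat_lit 89463333053428820469416101)) C.nil)))) C.nil)) C.nil))) C.nil))) C.nil)) C.nil)) C.nil)) (C.cons (nat_lit 70) (C.node (nat_lit 2) (nat_lit 5) (nat_lit 6) (C.cons (nat_lit 100) (C.node (nat_lit 2) (nat_lit 7) (nat_lit 8) (C.cons (nat_lit 390)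
  (C.miq (nat_lit 1444022919) (nat_lit 84627851405839033877006209)) (C.cons (nat_lit 388) (C.node (nat_lit 5) (nat_lit 6) (nat_lit 7) (C.cons (nat_lit 480) (C.miq (nat_lit 374515824) (nat_lit 120911600933470292265994113)) (C.cons (nat_lit 224) (C.node (nat_lit 6) (nat_lit 7) (nat_lit 8) (C.cons (nat_lit 448) (C.node (nat_lit 5) (nat_lit 8) (nat_lit 10) (C.cons (nat_lit 1316) (C.miq (nat_lit 405236304) (nat_lit 469066815504441463988880497)) (C.cons (nat_lit 1312) (C.node (nat_lit 2) (nat_lit 8) (nat_lit 10) C.nil) C.nil))) C.nil)) C.nil))) C.nil))) C.nil)) C.nil))) C.nil))))) C.nil))) C.nil))) C.nil)) (C.cons (nat_lit 1090) (C.node (nat_lit 6) (nat_lit 8) (nat_lit 10) (C.cons (nat_lit 1344) (C.node (nat_lit 1) (nat_lit 7) (nat_lit 10) (C.cons (nat_lit 1186) (C.node (nat_lit 1) (nat_lit 7) (nat_lit 9) (C.cons (nat_lit 650) (C.miq (nat_lit 342069415) (nat_lit 106397462659203374674085761)) (C.cons (nat_lit 642) (C.node (nat_lit 3) (nat_lit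 5) (nat_lit 6) (C.cons (nat_lit 106) (C.miq (nat_lit 963731621) (nat_lit 776132331713260755366315121)) (C.cons (nat_lit 104) (C.node (nat_lit 4) (nat_lit 5) (nat_lit 7) (C.cons (nat_lit 432) (C.miq (nat_lit 1466139680) (nat_lit 1479730682012894102087860501)) (C.cons (nat_lit 176) (C.ref (nat_lit 120) (nat_lit 10619142165520)) C.nil))) C.nil))) C.nil))) (C.cons (nat_lit 1154) (C.node (nat_lit 5) (nat_lit 7) (nat_lit 10) (C.cons (nat_lit 1184) (C.node (nat_lit 3) (nat_lit 5) (nat_lit 6) (C.cons (nat_lit 106) (C.node (nat_lit 3) (nat_lit 6) (nat_lit 8) (C.cons (nat_lit 328) (C.node (nat_lit 2) (nat_lit 5) (nat_lit 6) (C.cons (nat_lit 356) (C.miq (nat_lit 1450410560) (nat_lit 1479730681991502003829276949)) (C.cons (nat_lit 100) (C.node (nat_lit 3) (nat_lit 7) (nat_lit 8) (C.cons (nat_lit 398) (C.miq (nat_lit 1177684600) (nat_lit 712062417821167307033806721)) (C.cons (nat_lit 396) (C.miq (nat_lit 1177684600) (nat_lit 712062417821167307033675649))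 (C.cons (nat_lit 394) (C.miq (nat_lit 2822047510) (nat_lit 359071942914271795133153475)) (C.cons (nat_lit 392) (C.node (nat_lit 1) (nat_lit 2) (nat_lit 6) (C.cons (nat_lit 326) (C.node (nat_lit 1) (nat_lit 6) (nat_lit 9) (C.cons (nat_lit 578) (C.node (nat_lit 2) (nat_lit 7) (nat_lit 8) (C.cons (nat_lit 388) (C.node (nat_lit 1) (nat_lit 7) (nat_lit 8) (C.cons (nat_lit 434) (C.miq (nat_lit 830629184) (nat_lit 394120682356466737445405809)) (C.cons (nat_lit 418) (C.miq (nat_lit 2555578134) (nat_lit 359061834098519505378083011)) (C.cons (nat_lit 402) (C.miq (nat_lit 880936726) (nat_lit 334883317208579094354460867)) C.nil)))) C.nil)) C.nil)) (C.cons (nat_lit 70) (C.node (nat_lit 2) (nat_lit 6) (nat_lit 8) (C.cons (nat_lit 324) (C.node (nat_lit 1) (nat_lit 6) (nat_lit 8) (C.cons (nat_lit 834) (C.node (nat_lit 5) (nat_lit 6) (nat_lit 9) (C.cons (nat_lit 608) (C.node (nat_lit 5) (nat_lit 6) (nat_lit 7) (C.cons (nat_lit 480) (C.node (nat_lit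 2) (nat_lit 7) (nat_lit 8) (C.cons (nat_lit 390) (C.miq (nat_lit 2793473394) (nat_lit 1008263152471779836382544037)) (C.cons (nat_lit 388) (C.node (nat_lit 1) (nat_lit 2) (nat_lit 7) C.nil) C.nil))) C.nil)) C.nil)) (C.cons (nat_lit 322) (C.node (nat_lit 1) (nat_lit 6) (nat_lit 9) C.nil) C.nil))) C.nil)) C.nil))) C.nil))))) C.nil))) C.nil)) (C.cons (nat_lit 104) (C.node (nat_lit 1) (nat_lit 3) (nat_lit 6) (C.cons (nat_lit 330) (C.node (nat_lit 2) (nat_lit 6) (nat_lit 8) (C.cons (nat_lit 356) (C.miq (nat_lit 1450410560) (nat_lit 1479730681991502003829276949)) (C.cons (nat_lit 324) (C.node (nat_lit 3) (nat_lit 7) (nat_lit 8) (C.cons (nat_lit 396) (C.miq (nat_lit 1177684600) (nat_lit 712062417821167307033675649)) (C.cons (nat_lit 392) (C.node (nat_lit 1) (nat_lit 2) (nat_lit 6) (C.cons (nat_lit 102) (C.node (nat_lit 1) (nat_lit 6) (nat_lit 9) (C.cons (nat_lit 578) (C.node (nat_lit 2) (nat_lit 3) (nat_lit 7) (C.cons (nat_lit 142) (C.miq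 (nat_lit 828666448) (nat_lit 99134739600212754741395621)) (C.cons (nat_lit 140) (C.node (nat_lit 1) (nat_lit 2) (nat_lit 7) (C.cons (nat_lit 390)
  (C.miq (nat_lit 2171236944) (nat_lit 1317764579685087075556720805)) C.nil)) C.nil))) C.nil)) (C.cons (nat_lit 70) (C.node (nat_lit 2) (nat_lit 5) (nat_lit 6) (C.cons (nat_lit 100) (C.node (nat_lit 1) (nat_lit 5) (nat_lit 6) (C.cons (nat_lit 610) (C.node (nat_lit 6) (nat_lit 8) (nat_lit 9) (C.cons (nat_lit 832) (C.node (nat_lit 5) (nat_lit 6) (nat_lit 7) (C.cons (nat_lit 480) (C.node (nat_lit 1) (nat_lit 7) (nat_lit 9) (C.cons (nat_lit 650) (C.miq (nat_lit 325359520) (nat_lit 106395267530154499122464641)) (C.cons (nat_lit 642) (C.node (nat_lit 4) (nat_lit 5) (nat_lit 7) C.nil) C.nil))) C.nil)) C.nil)) (C.cons (nat_lit 98) (C.node (nat_lit 1) (nat_lit 6) (nat_lit 9) C.nil) C.nil))) C.nil)) C.nil))) C.nil))) C.nil))) (C.cons (nat_lit 74) (C.node (nat_lit 3) (nat_lit 6) (nat_lit 8) (C.cons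 (nat_lit 328) (C.node (nat_lit 5) (nat_lit 6) (nat_lit 7) (C.cons (nat_lit 480) (C.node (nat_lit 5) (nat_lit 2) (nat_lit 6) (C.cons (nat_lit 102) (C.miq (nat_lit 2249880864) (nat_lit 1317764579710419823453733029)) (C.cons (nat_lit 100) (C.node (nat_lit 2) (nat_lit 7) (nat_lit 8) (C.cons (nat_lit 398) (C.miq (nat_lit 1177684600) (nat_lit 712062417821167307033806721)) (C.cons (nat_lit 396) (C.miq (nat_lit 1177684600) (nat_lit 712062417821167307033675649)) (C.cons (nat_lit 390) (C.miq (nat_lit 409610064) (nat_lit 1624815320264978907928789157)) (C.cons (nat_lit 388) (C.node (nat_lit 1) (nat_lit 5) (nat_lit 6) (C.cons (nat_lit 610) (C.node (nat_lit 6) (nat_lit 8) (nat_lit 9) (C.cons (nat_lit 832) (C.node (nat_lit 1) (nat_lit 2) (nat_lit 6) (C.cons (nat_lit 326) (C.node (nat_lit 1) (nat_lit 2) (nat_lit 9) (C.cons (nat_lit 518) (C.node (nat_lit 1) (nat_lit 7) (nat_lit 9) (C.cons (nat_lit 650) (C.miq (nat_lit 325359520) (nat_lit 106395267530154499122464641))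 C.nil)) C.nil)) C.nil)) C.nil)) (C.cons (nat_lit 98) (C.node (nat_lit 5) (nat_lit 6) (nat_lit 9) C.nil) C.nil))) C.nil))))) C.nil))) (C.cons (nat_lit 224) (C.node (nat_lit 6) (nat_lit 7) (nat_lit 8) (C.cons (nat_lit 448) (C.node (nat_lit 5) (nat_lit 2) (nat_lit 6) (C.cons (nat_lit 358) (C.miq (nat_lit 1450410560) (nat_lit 1479730681992064953782698261)) (C.cons (nat_lit 356) (C.miq (nat_lit 1450410560) (nat_lit 1479730681991502003829276949)) (C.cons (nat_lit 102) (C.node (nat_lit 2) (nat_lit 6) (nat_lit 8) C.nil) C.nil)))) C.nil)) C.nil))) C.nil)) C.nil))) C.nil))) C.nil)) C.nil))) C.nil)) C.nil))) C.nil)) C.nil))) C.nil))))) (List.cons (C.node (nat_lit 1) (nat_lit 4) (nat_lit 10) (C.cons (nat_lit 1298) (C.miq (nat_lit 813771172) (nat_lit 313112340848308179535267348)) (C.cons (nat_lit 1042) (C.node (nat_lit 3) (nat_lit 9) (nat_lit 10) (C.cons (nat_lit 1578) (C.miq (nat_lit 2207384996) (nat_lit 712062417584729847091168369)) (C.cons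 (nat_lit 1576) (C.miq (nat_lit 2207384996) (nat_lit 712062417584729838501233777)) (C.cons (nat_lit 1546) (C.miq (nat_lit 2316568882) (nat_lit 1259705814327272087872209485)) (C.cons (nat_lit 1544) (C.node (nat_lit 1) (nat_lit 2) (nat_lit 7) (C.cons (nat_lit 390) (C.node (nat_lit 2) (nat_lit 3) (nat_lit 7) (C.cons (nat_lit 140) (C.node (nat_lit 1) (nat_lit 4) (nat_lit 6) (C.cons (nat_lit 338) (C.miq (nat_lit 1384384278) (nat_lit 334893426027709135370453187)) (C.cons (nat_lit 82) (C.node (nat_lit 2) (nat_lit 3) (nat_lit 8) (C.cons (nat_lit 1292) (C.miq (nat_lit 430129282) (nat_lit 1866582019036781120383090965)) (C.cons (nat_lit 268) (C.node (nat_lit 2) (nat_lit 6) (nat_lit 8) (C.cons (nat_lit 356) (C.miq (nat_lit 2188596800) (nat_lit 169255093529243978447783025)) (C.cons (nat_lit 324) (C.node (nat_lit 3) (nat_lit 4) (nat_lit 6) (C.cons (nat_lit 344) (C.miq (nat_lit 1382549315) (nat_lit 391697444284574026054500505)) (C.cons (nat_lit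 88) (C.node (nat_lit 4) (nat_lit 6) (nat_lit 8) (C.cons (nat_lit 336) (C.node (nat_lit 4) (nat_lit 7) (nat_lit 8) (C.cons (nat_lit 432) (C.miq (nat_lit 846726725) (nat_lit 471486548498484941716194417)) (C.cons (nat_lit 400) (C.node (nat_lit 1) (nat_lit 7) (nat_lit 10) (C.cons (nat_lit 1194)
  (C.miq (nat_lit 1361356672) (nat_lit 36288748872533480249296769)) (C.cons (nat_lit 1186) (C.miq (nat_lit 1361356672) (nat_lit 36288748870281680435611521)) (C.cons (nat_lit 1162) (C.miq (nat_lit 2268334610) (nat_lit 184970760689865102290977799)) (C.cons (nat_lit 1154) (C.node (nat_lit 1) (nat_lit 2) (nat_lit 6) (C.cons (nat_lit 102) (C.node (nat_lit 1) (nat_lit 2) (nat_lit 9) (C.cons (nat_lit 518) (C.node (nat_lit 1) (nat_lit 4) (nat_lit 7) (C.cons (nat_lit 178) (C.miq (nat_lit 840369748) (nat_lit 471483892167337855077713009)) (C.cons (nat_lit 146) (C.node (nat_lit 1) (nat_lit 4) (nat_lit 5) C.nil) C.nil))) C.nil)) (C.cons (nat_lit 70) (C.node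 (nat_lit 2) (nat_lit 5) (nat_lit 6) (C.cons (nat_lit 100) (C.node (nat_lit 2) (nat_lit 8) (nat_lit 10) (C.cons (nat_lit 1316) (C.miq (nat_lit 1377216624) (nat_lit 84645781691458594390869889)) C.nil)) C.nil)) C.nil))) C.nil))))) C.nil))) C.nil)) C.nil))) C.nil))) C.nil))) C.nil))) C.nil)) (C.cons (nat_lit 134) (C.node (nat_lit 1) (nat_lit 4) (nat_lit 6) (C.cons (nat_lit 338) (C.node (nat_lit 3) (nat_lit 4) (nat_lit 6) (C.cons (nat_lit 88) (C.node (nat_lit 2) (nat_lit 6) (nat_lit 8) (C.cons (nat_lit 356) (C.miq (nat_lit 879232805) (nat_lit 408622405755801134780645541)) (C.cons (nat_lit 324) (C.node (nat_lit 2) (nat_lit 3) (nat_lit 7) (C.cons (nat_lit 396) (C.miq (nat_lit 1445463155) (nat_lit 391697444558167703420666009)) (C.cons (nat_lit 140) (C.node (nat_lit 2) (nat_lit 7) (nat_lit 8) (C.cons (nat_lit 388) (C.node (nat_lit 2) (nat_lit 3) (nat_lit 8) (C.cons (nat_lit 1292) (C.miq (nat_lit 430129282) (nat_lit 1866582019036781120383090965))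 (C.cons (nat_lit 268) (C.node (nat_lit 4) (nat_lit 7) (nat_lit 8) (C.cons (nat_lit 432) (C.miq (nat_lit 846726725) (nat_lit 469068696859255683366782065)) (C.cons (nat_lit 400) (C.node (nat_lit 1) (nat_lit 2) (nat_lit 6) (C.cons (nat_lit 102) (C.node (nat_lit 1) (nat_lit 6) (nat_lit 9) (C.cons (nat_lit 578) (C.node (nat_lit 1) (nat_lit 2) (nat_lit 8) (C.cons (nat_lit 774) (C.miq (nat_lit 2014578979) (nat_lit 408619749922304693179908685)) (C.cons (nat_lit 262) (C.node (nat_lit 1) (nat_lit 2) (nat_lit 9) (C.cons (nat_lit 518) (C.node (nat_lit 1) (nat_lit 3) (nat_lit 6) (C.cons (nat_lit 1098) (C.node (nat_lit 6) (nat_lit 8) (nat_lit 10) C.nil) C.nil)) C.nil)) C.nil))) C.nil)) (C.cons (nat_lit 70) (C.node (nat_lit 2) (nat_lit 5) (nat_lit 6) (C.cons (nat_lit 100) (C.node (nat_lit 1) (nat_lit 4) (nat_lit 5) (C.cons (nat_lit 178) (C.node (nat_lit 2) (nat_lit 3) (nat_lit 5) C.nil) (C.cons (nat_lit 50) (C.node (nat_lit 1) (nat_lit 4) (nat_lit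 7) (C.cons (nat_lit 146) (C.node (nat_lit 4) (nat_lit 5) (nat_lit 7) C.nil) C.nil)) C.nil))) C.nil)) C.nil))) C.nil))) C.nil))) C.nil)) C.nil))) C.nil))) C.nil)) (C.cons (nat_lit 82) (C.node (nat_lit 1) (nat_lit 9) (nat_lit 10) (C.cons (nat_lit 1570) (C.node (nat_lit 1) (nat_lit 2) (nat_lit 9) (C.cons (nat_lit 774) (C.miq (nat_lit 1361357184) (nat_lit 36288748978369720759945089)) (C.cons (nat_lit 518) (C.node (nat_lit 1) (nat_lit 7) (nat_lit 9) (C.cons (nat_lit 650) (C.miq (nat_lit 1362405744) (nat_lit 36288748978369188175873921)) (C.cons (nat_lit 642) (C.node (nat_lit 1) (nat_lit 7) (nat_lit 10) (C.cons (nat_lit 1162) (C.miq (nat_lit 2268334610) (nat_lit 184970760689865102290977799)) (C.cons (nat_lit 1154) (C.node (nat_lit 2) (nat_lit 3) (nat_lit 7) (C.cons (nat_lit 396) (C.miq (nat_lit 831988744) (nat_lit 776137681111691649198653717)) (C.cons (nat_lit 140) (C.node (nat_lit 2) (nat_lit 7) (nat_lit 8) (C.cons (nat_lit 388) (C.node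 (nat_lit 2) (nat_lit 3) (nat_lit 8) (C.cons (nat_lit 1292) (C.miq (nat_lit 430129282) (nat_lit 1866582019036781120383090965)) (C.cons (nat_lit 268) (C.node (nat_lit 2) (nat_lit 8) (nat_lit 10) (C.cons (nat_lit 1316) (C.miq (nat_lit 354720384) (nat_lit 62873938282985222487476097)) (C.cons (nat_lit 1284) (C.node (nat_lit 5) (nat_lit 8) (nat_lit 10) (C.cons (nat_lit 1312) (C.node (nat_lit 3) (nat_lit 7) (nat_lit 10) (C.cons (nat_lit 1192)
  (C.miq (nat_lit 1396811529) (nat_lit 36296736312153428641122177)) (C.cons (nat_lit 1160) (C.node (nat_lit 5) (nat_lit 7) (nat_lit 10) C.nil) C.nil))) C.nil)) C.nil))) C.nil))) C.nil)) C.nil))) C.nil))) C.nil))) C.nil))) (C.cons (nat_lit 1538) (C.node (nat_lit 5) (nat_lit 9) (nat_lit 10) (C.cons (nat_lit 1568) (C.node (nat_lit 2) (nat_lit 3) (nat_lit 5) (C.cons (nat_lit 1068) (C.node (nat_lit 2) (nat_lit 8) (nat_lit 10) (C.cons (nat_lit 1284) (C.node (nat_lit 3) (nat_lit 4) (nat_lit 5) (C.cons (nat_lit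 568) (C.miq (nat_lit 305728084) (nat_lit 712067103264325011724829809)) (C.cons (nat_lit 56) (C.node (nat_lit 3) (nat_lit 4) (nat_lit 9) (C.cons (nat_lit 792) (C.miq (nat_lit 2216334112) (nat_lit 1259736140456737506563916365)) (C.cons (nat_lit 536) (C.node (nat_lit 3) (nat_lit 7) (nat_lit 10) (C.cons (nat_lit 1162) (C.miq (nat_lit 2268334610) (nat_lit 184970760689865102290977799)) (C.cons (nat_lit 1160) (C.node (nat_lit 1) (nat_lit 7) (nat_lit 10) (C.cons (nat_lit 1186) (C.node (nat_lit 3) (nat_lit 5) (nat_lit 6) (C.cons (nat_lit 232) (C.miq (nat_lit 1898143909) (nat_lit 36272054287956024497013873)) (C.cons (nat_lit 106) (C.miq (nat_lit 1983189034) (nat_lit 128168014772512262311379975)) (C.cons (nat_lit 104) (C.miq (nat_lit 1983189034) (nat_lit 125750163133283003961967623)) C.nil)))) (C.cons (nat_lit 1154) (C.node (nat_lit 5) (nat_lit 7) (nat_lit 10) (C.cons (nat_lit 1184) (C.node (nat_lit 3) (nat_lit 4) (nat_lit 10) (C.cons (nat_lit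 1304) (C.node (nat_lit 3) (nat_lit 4) (nat_lit 6) C.nil) C.nil)) C.nil)) C.nil))) C.nil))) C.nil))) C.nil))) C.nil)) (C.cons (nat_lit 44) (C.node (nat_lit 2) (nat_lit 3) (nat_lit 10) (C.cons (nat_lit 1292) (C.miq (nat_lit 430129282) (nat_lit 1866582019036781120383090965)) (C.cons (nat_lit 1036) (C.node (nat_lit 2) (nat_lit 3) (nat_lit 7) (C.cons (nat_lit 396) (C.node (nat_lit 2) (nat_lit 5) (nat_lit 10) (C.cons (nat_lit 1316) (C.miq (nat_lit 1379182704) (nat_lit 36288748906873453169674113)) (C.cons (nat_lit 1060) (C.node (nat_lit 2) (nat_lit 8) (nat_lit 10) (C.cons (nat_lit 1284) (C.node (nat_lit 3) (nat_lit 4) (nat_lit 10) (C.cons (nat_lit 1304) (C.miq (nat_lit 1126541424) (nat_lit 53213710378100561895819137)) (C.cons (nat_lit 1048) (C.node (nat_lit 4) (nat_lit 8) (nat_lit 10) (C.cons (nat_lit 1296) (C.node (nat_lit 4) (nat_lit 8) (nat_lit 9) (C.cons (nat_lit 816) (C.miq (nat_lit 2018779910) (nat_lit 986487379626746399442403917))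 (C.cons (nat_lit 792) (C.miq (nat_lit 2216334112) (nat_lit 1259736140456737506563916365)) C.nil))) C.nil)) C.nil))) C.nil)) C.nil))) (C.cons (nat_lit 140) (C.node (nat_lit 2) (nat_lit 3) (nat_lit 8) (C.cons (nat_lit 268) (C.node (nat_lit 2) (nat_lit 7) (nat_lit 8) (C.cons (nat_lit 388) (C.node (nat_lit 2) (nat_lit 5) (nat_lit 10) (C.cons (nat_lit 1316) (C.node (nat_lit 2) (nat_lit 5) (nat_lit 6) (C.cons (nat_lit 102) (C.miq (nat_lit 2182587744) (nat_lit 162031496394147412909950065)) (C.cons (nat_lit 100) (C.node (nat_lit 2) (nat_lit 8) (nat_lit 9) (C.cons (nat_lit 774) (C.miq (nat_lit 1377085584) (nat_lit 36288748906875076692084609)) (C.cons (nat_lit 772) (C.node (nat_lit 1) (nat_lit 2) (nat_lit 5) C.nil) C.nil))) C.nil))) (C.cons (nat_lit 1060) (C.node (nat_lit 2) (nat_lit 8) (nat_lit 10) (C.cons (nat_lit 1284) (C.node (nat_lit 3) (nat_lit 6) (nat_lit 7) C.nil) C.nil)) C.nil))) C.nil)) C.nil)) C.nil))) C.nil))) C.nil))) C.nil))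 C.nil))) C.nil))) C.nil))) C.nil))))) C.nil))) (List.cons (C.node (nat_lit 1) (nat_lit 4) (nat_lit 10) (C.cons (nat_lit 1298) (C.miq (nat_lit 826448512) (nat_lit 26607233598947145649817473)) (C.cons (nat_lit 1042) (C.node (nat_lit 3) (nat_lit 8) (nat_lit 9) (C.cons (nat_lit 792) (C.miq (nat_lit 323135872) (nat_lit 33868941977513327066417025)) (C.cons (nat_lit 776) (C.node (nat_lit 1) (nat_lit 6) (nat_lit 10) (C.cons (nat_lit 1346) (C.node (nat_lit 3) (nat_lit 6) (nat_lit 10) (C.cons (nat_lit 1096) (C.node (nat_lit 1) (nat_lit 2) (nat_lit 6) (C.cons (nat_lit 102) (C.node (nat_lit 1) (nat_lit 6) (nat_lit 9) (C.cons (nat_lit 578)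
  (C.node (nat_lit 2) (nat_lit 6) (nat_lit 8) (C.cons (nat_lit 324) (C.node (nat_lit 1) (nat_lit 2) (nat_lit 9) (C.cons (nat_lit 774) (C.miq (nat_lit 2014448229) (nat_lit 935711628635214354592433265)) (C.cons (nat_lit 518) (C.node (nat_lit 1) (nat_lit 3) (nat_lit 6) (C.cons (nat_lit 90) (C.miq (nat_lit 1345398598) (nat_lit 13300065630100467589185748)) (C.cons (nat_lit 74) (C.node (nat_lit 1) (nat_lit 4) (nat_lit 6) (C.cons (nat_lit 82) (C.node (nat_lit 1) (nat_lit 5) (nat_lit 10) (C.cons (nat_lit 1186) (C.miq (nat_lit 827497072) (nat_lit 123321299168116998582634369)) (C.cons (nat_lit 1058) (C.node (nat_lit 3) (nat_lit 4) (nat_lit 6) (C.cons (nat_lit 344) (C.miq (nat_lit 1382549315) (nat_lit 391697444284574026054500505)) C.nil)) C.nil))) C.nil)) C.nil))) C.nil))) C.nil)) C.nil)) (C.cons (nat_lit 70) (C.node (nat_lit 1) (nat_lit 4) (nat_lit 6) (C.cons (nat_lit 90) (C.node (nat_lit 4) (nat_lit 6) (nat_lit 8) (C.cons (nat_lit 336) (C.node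 (nat_lit 2) (nat_lit 5) (nat_lit 6) (C.cons (nat_lit 356) (C.miq (nat_lit 879232805) (nat_lit 406204554116571876431233189)) (C.cons (nat_lit 100) (C.node (nat_lit 2) (nat_lit 6) (nat_lit 8) (C.cons (nat_lit 324) (C.node (nat_lit 3) (nat_lit 5) (nat_lit 6) (C.cons (nat_lit 232) (C.miq (nat_lit 910710560) (nat_lit 406204554138808399586197669)) (C.cons (nat_lit 104) (C.node (nat_lit 3) (nat_lit 6) (nat_lit 7) (C.cons (nat_lit 456) (C.miq (nat_lit 326657034) (nat_lit 551295003087127521882342513)) (C.cons (nat_lit 200) (C.node (nat_lit 3) (nat_lit 6) (nat_lit 8) (C.cons (nat_lit 328) (C.node (nat_lit 1) (nat_lit 5) (nat_lit 6) (C.cons (nat_lit 98) (C.node (nat_lit 1) (nat_lit 6) (nat_lit 9) C.nil) C.nil)) C.nil)) C.nil))) C.nil))) C.nil)) C.nil))) C.nil)) (C.cons (nat_lit 82) (C.node (nat_lit 1) (nat_lit 3) (nat_lit 6) (C.cons (nat_lit 106) (C.node (nat_lit 1) (nat_lit 6) (nat_lit 9) (C.cons (nat_lit 578) (C.node (nat_lit 1) (nat_lit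 5) (nat_lit 10) (C.cons (nat_lit 1186) (C.miq (nat_lit 588581287) (nat_lit 128149180757718255974614913)) (C.cons (nat_lit 1058) (C.node (nat_lit 1) (nat_lit 7) (nat_lit 10) (C.cons (nat_lit 1154) (C.node (nat_lit 2) (nat_lit 5) (nat_lit 6) (C.cons (nat_lit 356) (C.miq (nat_lit 1935032450) (nat_lit 128150047631961266009145621)) (C.cons (nat_lit 100) (C.node (nat_lit 2) (nat_lit 6) (nat_lit 8) (C.cons (nat_lit 324) (C.node (nat_lit 1) (nat_lit 3) (nat_lit 4) C.nil) C.nil)) C.nil))) C.nil)) C.nil))) C.nil)) (C.cons (nat_lit 74) (C.node (nat_lit 1) (nat_lit 5) (nat_lit 6) (C.cons (nat_lit 610) (C.node (nat_lit 1) (nat_lit 7) (nat_lit 9) (C.cons (nat_lit 642) (C.node (nat_lit 6) (nat_lit 8) (nat_lit 9) (C.cons (nat_lit 832) (C.node (nat_lit 3) (nat_lit 4) (nat_lit 9) (C.cons (nat_lit 568) (C.miq (nat_lit 1905460820) (nat_lit 1869002139530950222082999409)) (C.cons (nat_lit 536) (C.node (nat_lit 3) (nat_lit 5) (nat_lit 6) (C.cons (nat_lit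 232) (C.miq (nat_lit 1497587975) (nat_lit 647988519129768354689646787)) (C.cons (nat_lit 104) (C.node (nat_lit 1) (nat_lit 2) (nat_lit 9) C.nil) C.nil))) C.nil))) C.nil)) C.nil)) (C.cons (nat_lit 98) (C.node (nat_lit 1) (nat_lit 6) (nat_lit 9) (C.cons (nat_lit 578) (C.node (nat_lit 1) (nat_lit 5) (nat_lit 10) (C.cons (nat_lit 1186) (C.node (nat_lit 1) (nat_lit 7) (nat_lit 9) (C.cons (nat_lit 642) (C.node (nat_lit 1) (nat_lit 2) (nat_lit 7) (C.cons (nat_lit 398) (C.miq (nat_lit 1175652999) (nat_lit 89463333323368666061735809)) (C.cons (nat_lit 390) (C.miq (nat_lit 1444022919) (nat_lit 84627851405839033877006209)) (C.cons (nat_lit 142) (C.miq (nat_lit 1378971802) (nat_lit 171689344270194663330809729)) C.nil)))) C.nil)) (C.cons (nat_lit 1058) (C.node (nat_lit 1) (nat_lit 7) (nat_lit 10) (C.cons (nat_lit 1154) (C.node (nat_lit 1) (nat_lit 7) (nat_lit 9) (C.cons (nat_lit 674) (C.node (nat_lit 3) (nat_lit 7) (nat_lit 9) C.nil) C.nil))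 C.nil)) C.nil))) C.nil)) C.nil))) C.nil))) C.nil))) C.nil))) C.nil)) (C.cons (nat_lit 1090) (C.node (nat_lit 1) (nat_lit 7) (nat_lit 9) (C.cons (nat_lit 674) (C.node (nat_lit 1) (nat_lit 7) (nat_lit 10)
  (C.cons (nat_lit 1154) (C.node (nat_lit 3) (nat_lit 7) (nat_lit 9) (C.cons (nat_lit 648) (C.node (nat_lit 1) (nat_lit 2) (nat_lit 9) (C.cons (nat_lit 774) (C.node (nat_lit 1) (nat_lit 6) (nat_lit 9) (C.cons (nat_lit 578) (C.node (nat_lit 2) (nat_lit 5) (nat_lit 9) (C.cons (nat_lit 548) (C.node (nat_lit 1) (nat_lit 4) (nat_lit 7) (C.cons (nat_lit 402) (C.miq (nat_lit 840173959) (nat_lit 26599190549157205018544001)) (C.cons (nat_lit 146) (C.node (nat_lit 4) (nat_lit 5) (nat_lit 7) (C.cons (nat_lit 432) (C.node (nat_lit 2) (nat_lit 7) (nat_lit 8) (C.cons (nat_lit 396) (C.miq (nat_lit 305436784) (nat_lit 33859718388176089454806913)) (C.cons (nat_lit 388) (C.miq (nat_lit 846726725) (nat_lit 469068696859255683366782065)) C.nil))) C.nil))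 C.nil))) C.nil)) C.nil)) (C.cons (nat_lit 518) (C.node (nat_lit 1) (nat_lit 4) (nat_lit 7) (C.cons (nat_lit 402) (C.node (nat_lit 4) (nat_lit 5) (nat_lit 7) (C.cons (nat_lit 176) (C.node (nat_lit 1) (nat_lit 4) (nat_lit 6) (C.cons (nat_lit 90) (C.miq (nat_lit 1134040583) (nat_lit 938133851637405148577333443)) (C.cons (nat_lit 82) (C.node (nat_lit 1) (nat_lit 2) (nat_lit 7) (C.cons (nat_lit 134) (C.node (nat_lit 2) (nat_lit 3) (nat_lit 7) C.nil) C.nil)) C.nil))) C.nil)) (C.cons (nat_lit 146) (C.node (nat_lit 1) (nat_lit 5) (nat_lit 10) (C.cons (nat_lit 1314) (C.node (nat_lit 1) (nat_lit 4) (nat_lit 5) (C.cons (nat_lit 58) (C.miq (nat_lit 2705818928) (nat_lit 176538606228959824071688489)) (C.cons (nat_lit 50) (C.node (nat_lit 1) (nat_lit 6) (nat_lit 9) (C.cons (nat_lit 578) (C.node (nat_lit 1) (nat_lit 8) (nat_lit 9) C.nil) C.nil)) C.nil))) (C.cons (nat_lit 1058) (C.node (nat_lit 1) (nat_lit 8) (nat_lit 10) (C.cons (nat_lit 1282)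 (C.node (nat_lit 3) (nat_lit 4) (nat_lit 10) (C.cons (nat_lit 1304) (C.node (nat_lit 3) (nat_lit 6) (nat_lit 10) C.nil) C.nil)) C.nil)) C.nil))) C.nil))) C.nil))) C.nil)) C.nil)) (C.cons (nat_lit 642) (C.node (nat_lit 1) (nat_lit 7) (nat_lit 10) (C.cons (nat_lit 1186) (C.node (nat_lit 1) (nat_lit 8) (nat_lit 10) (C.cons (nat_lit 1282) (C.node (nat_lit 3) (nat_lit 7) (nat_lit 10) (C.cons (nat_lit 1160) (C.node (nat_lit 3) (nat_lit 5) (nat_lit 10) (C.cons (nat_lit 1068) (C.miq (nat_lit 354658057) (nat_lit 1291161294348591944640038785)) (C.cons (nat_lit 1064) (C.node (nat_lit 2) (nat_lit 3) (nat_lit 5) (C.cons (nat_lit 46) (C.node (nat_lit 1) (nat_lit 2) (nat_lit 7) (C.cons (nat_lit 390) (C.miq (nat_lit 1361356672) (nat_lit 26617342313364647037962113)) (C.cons (nat_lit 134) (C.node (nat_lit 2) (nat_lit 3) (nat_lit 10) (C.cons (nat_lit 1292) (C.miq (nat_lit 321165952) (nat_lit 33859718605478619774257025)) C.nil)) C.nil))) (C.cons (nat_lit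 44) (C.miq (nat_lit 354658057) (nat_lit 53221255063211669740914561)) C.nil))) C.nil))) C.nil)) C.nil)) (C.cons (nat_lit 1154) (C.node (nat_lit 1) (nat_lit 5) (nat_lit 10) (C.cons (nat_lit 1314) (C.node (nat_lit 2) (nat_lit 8) (nat_lit 10) (C.cons (nat_lit 1292) (C.miq (nat_lit 321165952) (nat_lit 33859718605478619774257025)) (C.cons (nat_lit 1284) (C.node (nat_lit 2) (nat_lit 3) (nat_lit 10) (C.cons (nat_lit 1068) (C.node (nat_lit 3) (nat_lit 7) (nat_lit 10) (C.cons (nat_lit 1160) (C.node (nat_lit 5) (nat_lit 7) (nat_lit 10) C.nil) C.nil)) (C.cons (nat_lit 1036) (C.node (nat_lit 2) (nat_lit 5) (nat_lit 10) (C.cons (nat_lit 1060) (C.node (nat_lit 3) (nat_lit 4) (nat_lit 9) (C.cons (nat_lit 568) (C.node (nat_lit 3) (nat_lit 7) (nat_lit 9) C.nil) C.nil)) C.nil)) C.nil))) C.nil))) (C.cons (nat_lit 1058) (C.node (nat_lit 1) (nat_lit 8) (nat_lit 10) (C.cons (nat_lit 1282) (C.node (nat_lit 3) (nat_lit 4) (nat_lit 9) (C.cons (nat_lit 568)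 (C.node (nat_lit 3) (nat_lit 7) (nat_lit 9) (C.cons (nat_lit 648) (C.node (nat_lit 4) (nat_lit 8) (nat_lit 9) (C.cons (nat_lit 784) (C.node (nat_lit 5) (nat_lit 7) (nat_lit 9) (C.cons (nat_lit 672) (C.node (nat_lit 2) (nat_lit 3) (nat_lit 10) (C.cons (nat_lit 1292) (C.miq (nat_lit 321165952) (nat_lit 33859718605478619774257025)) (C.cons (nat_lit 1068)
  (C.miq (nat_lit 596747584) (nat_lit 1869018336017974413346669681)) C.nil))) C.nil)) C.nil)) C.nil)) (C.cons (nat_lit 536) (C.node (nat_lit 3) (nat_lit 4) (nat_lit 5) (C.cons (nat_lit 58) (C.node (nat_lit 3) (nat_lit 5) (nat_lit 9) (C.cons (nat_lit 680) (C.miq (nat_lit 557124247) (nat_lit 70120741540627995261667201)) (C.cons (nat_lit 552) (C.node (nat_lit 3) (nat_lit 7) (nat_lit 9) (C.cons (nat_lit 648) (C.node (nat_lit 5) (nat_lit 7) (nat_lit 9) (C.cons (nat_lit 672) (C.node (nat_lit 3) (nat_lit 4) (nat_lit 10) C.nil) C.nil)) C.nil)) C.nil))) (C.cons (nat_lit 56) (C.node (nat_lit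 3) (nat_lit 4) (nat_lit 10) (C.cons (nat_lit 1304) (C.node (nat_lit 3) (nat_lit 6) (nat_lit 10) C.nil) (C.cons (nat_lit 1048) (C.node (nat_lit 4) (nat_lit 8) (nat_lit 10) (C.cons (nat_lit 1296) (C.node (nat_lit 3) (nat_lit 6) (nat_lit 10) C.nil) C.nil)) C.nil))) C.nil))) C.nil))) C.nil)) C.nil))) C.nil))) C.nil))) C.nil))) C.nil))) C.nil))) List.nil))))

theorem ok11_120 : okL par11 (nat_lit 124) c11_120 (nat_lit 120) = true := by decide +kernel

noncomputable def c11_124 : List C :=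
  (List.cons (C.node (nat_lit 2) (nat_lit 3) (nat_lit 4) (C.cons (nat_lit 62) (C.miq (nat_lit 2300774981) (nat_lit 712062786976726588873114737)) (C.cons (nat_lit 60) (C.miq (nat_lit 2300774981) (nat_lit 712062786976726588872983665)) (C.cons (nat_lit 30) (C.node (nat_lit 2) (nat_lit 4) (nat_lit 5) (C.cons (nat_lit 52) (C.ref (nat_lit 122) (nat_lit 11649936536080)) C.nil)) (C.cons (nat_lit 28) (C.node (nat_lit 1) (nat_lit 2) (nat_lit 4) (C.cons (nat_lit 54) (C.ref (nat_lit 122) (nat_lit 10619142165520)) (C.cons (nat_lit 22) (C.node (nat_lit 2) (nat_lit 4) (nat_lit 5) (C.cons (nat_lit 52) (C.node (nat_lit 3) (nat_lit 9) (nat_lit 10) (C.cons (nat_lit 1578) (C.miq (nat_lit 2207384996) (nat_lit 712062417584729847091168369)) (C.cons (nat_lit 1576) (C.miq (nat_lit 2207384996) (nat_lit 712062417584729838501233777)) (C.cons (nat_lit 1546) (C.node (nat_lit 5) (nat_lit 9) (nat_lit 10) (C.cons (nat_lit 1568) (C.ref (nat_lit 123) (nat_lit 11649936536080))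 C.nil)) (C.cons (nat_lit 1544) (C.node (nat_lit 1) (nat_lit 9) (nat_lit 10) (C.cons (nat_lit 1570) (C.ref (nat_lit 123) (nat_lit 10619142165520)) (C.cons (nat_lit 1538) (C.node (nat_lit 5) (nat_lit 9) (nat_lit 10) (C.cons (nat_lit 1568) (C.node (nat_lit 2) (nat_lit 3) (nat_lit 5) (C.cons (nat_lit 1068) (C.node (nat_lit 2) (nat_lit 8) (nat_lit 10) (C.cons (nat_lit 1284) (C.node (nat_lit 3) (nat_lit 7) (nat_lit 10) (C.cons (nat_lit 1162) (C.node (nat_lit 5) (nat_lit 7) (nat_lit 10) (C.cons (nat_lit 1184) (C.node (nat_lit 1) (nat_lit 2) (nat_lit 3) (C.cons (nat_lit 270) (C.node (nat_lit 1) (nat_lit 2) (nat_lit 7) (C.cons (nat_lit 134) (C.node (nat_lit 2) (nat_lit 3) (nat_lit 7) (C.cons (nat_lit 140) (C.node (nat_lit 2) (nat_lit 7) (nat_lit 8) (C.cons (nat_lit 388) (C.node (nat_lit 1) (nat_lit 4) (nat_lit 10) C.nil) C.nil)) C.nil)) C.nil)) (C.cons (nat_lit 14) (C.node (nat_lit 1) (nat_lit 2) (nat_lit 7) (C.cons (nat_lit 390) (C.node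 (nat_lit 2) (nat_lit 3) (nat_lit 7) (C.cons (nat_lit 140) (C.node (nat_lit 2) (nat_lit 3) (nat_lit 8) (C.cons (nat_lit 268) (C.node (nat_lit 1) (nat_lit 2) (nat_lit 6) (C.cons (nat_lit 102) (C.miq (nat_lit 2186965344) (nat_lit 1291168211653565233713184963)) (C.cons (nat_lit 70) (C.node (nat_lit 1) (nat_lit 4) (nat_lit 10) (C.cons (nat_lit 1298) (C.miq (nat_lit 1410468487) (nat_lit 26599412064336627332679553)) (C.cons (nat_lit 1042) (C.node (nat_lit 1) (nat_lit 6) (nat_lit 10) (C.cons (nat_lit 1346) (C.miq (nat_lit 1444022919) (nat_lit 84627851405839033877006209)) C.nil)) C.nil))) C.nil))) C.nil)) C.nil)) (C.cons (nat_lit 134) (C.node (nat_lit 1) (nat_lit 4) (nat_lit 10) (C.cons (nat_lit 1298) (C.node (nat_lit 1) (nat_lit 5) (nat_lit 10) (C.cons (nat_lit 1058) (C.node (nat_lit 1) (nat_lit 6) (nat_lit 10) C.nil) C.nil)) (C.cons (nat_lit 1042) (C.node (nat_lit 1) (nat_lit 5) (nat_lit 10) (C.cons (nat_lit 1314) (C.node (nat_lit 1) (nat_lit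 6) (nat_lit 10) C.nil) (C.cons (nat_lit 1058) (C.node (nat_lit 5) (nat_lit 8) (nat_lit 10) (C.cons (nat_lit 1312) (C.node (nat_lit 1) (nat_lit 6) (nat_lit 10) (C.cons (nat_lit 1090) (C.node (nat_lit 1) (nat_lit 8) (nat_lit 10) C.nil) C.nil)) C.nil)) C.nil))) C.nil))) C.nil))) C.nil))) C.nil)) (C.cons (nat_lit 1160) (C.node (nat_lit 1) (nat_lit 7) (nat_lit 10) (C.cons (nat_lit 1186) (C.node (nat_lit 5) (nat_lit 8) (nat_lit 10) (C.cons (nat_lit 1312) (C.node (nat_lit 4) (nat_lit 5) (nat_lit 7) (C.cons (nat_lit 432) (C.miq (nat_lit 356689792) (nat_lit 62883161546931889455302529)) (C.cons (nat_lit 176) (C.node (nat_lit 3) (nat_lit 5) (nat_lit 6) (C.cons (nat_lit 232) (C.miq (nat_lit 2238972770) (nat_lit 212776054083882216823456333)) (C.cons (nat_lit 106) (C.miq (nat_lit 1983189034) (nat_lit 128168014772512262311379975)) (C.cons (nat_lit 104) (C.miq (nat_lit 1983189034) (nat_lit 125750163133283003961967623)) C.nil)))) C.nil))) C.nil))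 (C.cons (nat_lit 1154) (C.node (nat_lit 5) (nat_lit 7) (nat_lit 10) (C.cons (nat_lit 1184) (C.node (nat_lit 1) (nat_lit 5) (nat_lit 10) (C.cons (nat_lit 1314) (C.node (nat_lit 1) (nat_lit 6) (nat_lit 10)
  (C.cons (nat_lit 1098) (C.miq (nat_lit 441934624) (nat_lit 1431371767847879427678863949)) (C.cons (nat_lit 1090) (C.node (nat_lit 3) (nat_lit 4) (nat_lit 5) (C.cons (nat_lit 568) (C.miq (nat_lit 305728084) (nat_lit 712067103264325011724829809)) (C.cons (nat_lit 58) (C.miq (nat_lit 1201746053) (nat_lit 1395101465789512264919941417)) (C.cons (nat_lit 56) (C.node (nat_lit 3) (nat_lit 5) (nat_lit 6) (C.cons (nat_lit 232) (C.miq (nat_lit 1973510944) (nat_lit 1588532124154023890615992909)) (C.cons (nat_lit 106) (C.miq (nat_lit 2585135187) (nat_lit 1317740009052924289210777897)) (C.cons (nat_lit 104) (C.node (nat_lit 1) (nat_lit 2) (nat_lit 3) (C.cons (nat_lit 398) (C.miq (nat_lit 323323658) (nat_lit 67724085032159786069723009)) (C.cons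 (nat_lit 270) (C.miq (nat_lit 1703086610) (nat_lit 359061833877846971938374663)) (C.cons (nat_lit 142) (C.miq (nat_lit 1985155234) (nat_lit 125730904732472404832158727)) (C.cons (nat_lit 14) (C.node (nat_lit 2) (nat_lit 3) (nat_lit 7) (C.cons (nat_lit 396) (C.miq (nat_lit 1985160200) (nat_lit 125735590210252201611821333)) C.nil)) C.nil))))) C.nil)))) C.nil)))) C.nil))) (C.cons (nat_lit 1058) (C.node (nat_lit 5) (nat_lit 8) (nat_lit 10) (C.cons (nat_lit 1312) (C.node (nat_lit 1) (nat_lit 6) (nat_lit 10) (C.cons (nat_lit 1354) (C.miq (nat_lit 441934624) (nat_lit 1431371767919937021716791885)) (C.cons (nat_lit 1346) (C.node (nat_lit 3) (nat_lit 6) (nat_lit 10) C.nil) (C.cons (nat_lit 1098) (C.miq (nat_lit 441934624) (nat_lit 1431371767847879427678863949)) C.nil)))) C.nil)) C.nil))) C.nil)) C.nil))) C.nil))) C.nil)) (C.cons (nat_lit 46) (C.node (nat_lit 1) (nat_lit 5) (nat_lit 10) (C.cons (nat_lit 1314) (C.miq (nat_lit 2555578898) (nat_lit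 359061834098523353664848903)) (C.cons (nat_lit 1186) (C.miq (nat_lit 966860917) (nat_lit 1859328759283324073329950885)) (C.cons (nat_lit 1058) (C.node (nat_lit 1) (nat_lit 2) (nat_lit 6) (C.cons (nat_lit 326) (C.node (nat_lit 1) (nat_lit 2) (nat_lit 7) (C.cons (nat_lit 134) (C.node (nat_lit 1) (nat_lit 2) (nat_lit 9) (C.cons (nat_lit 518) (C.node (nat_lit 2) (nat_lit 5) (nat_lit 6) (C.cons (nat_lit 100) (C.node (nat_lit 2) (nat_lit 3) (nat_lit 7) (C.cons (nat_lit 396) (C.miq (nat_lit 1445463155) (nat_lit 394115296197396961770078361)) (C.cons (nat_lit 140) (C.node (nat_lit 2) (nat_lit 7) (nat_lit 8) (C.cons (nat_lit 388) (C.node (nat_lit 3) (nat_lit 5) (nat_lit 6) (C.cons (nat_lit 232) (C.miq (nat_lit 925390400) (nat_lit 469068696758769116670919793)) (C.cons (nat_lit 104) (C.node (nat_lit 4) (nat_lit 6) (nat_lit 8) (C.cons (nat_lit 344) (C.miq (nat_lit 1966481540) (nat_lit 125732195996109707379474709)) (C.cons (nat_lit 336) (C.node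 (nat_lit 3) (nat_lit 6) (nat_lit 7) (C.cons (nat_lit 456) (C.node (nat_lit 5) (nat_lit 6) (nat_lit 7) C.nil) C.nil)) C.nil))) C.nil))) C.nil)) C.nil))) C.nil)) C.nil)) C.nil)) (C.cons (nat_lit 70) (C.node (nat_lit 1) (nat_lit 2) (nat_lit 7) (C.cons (nat_lit 390) (C.node (nat_lit 1) (nat_lit 2) (nat_lit 9) (C.cons (nat_lit 518) (C.node (nat_lit 2) (nat_lit 3) (nat_lit 7) (C.cons (nat_lit 140) (C.node (nat_lit 2) (nat_lit 5) (nat_lit 6) (C.cons (nat_lit 356) (C.miq (nat_lit 2188596800) (nat_lit 169255093529243978447783025)) (C.cons (nat_lit 100) (C.node (nat_lit 2) (nat_lit 6) (nat_lit 8) (C.cons (nat_lit 324) (C.node (nat_lit 2) (nat_lit 5) (nat_lit 10) (C.cons (nat_lit 1316) (C.miq (nat_lit 1377216624) (nat_lit 84645781691458594390869889)) (C.cons (nat_lit 1060) (C.node (nat_lit 5) (nat_lit 8) (nat_lit 10) (C.cons (nat_lit 1312) (C.node (nat_lit 2) (nat_lit 5) (nat_lit 8) C.nil) C.nil)) C.nil))) C.nil)) C.nil))) C.nil)) C.nil))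 (C.cons (nat_lit 134) (C.node (nat_lit 1) (nat_lit 2) (nat_lit 8) (C.cons (nat_lit 774) (C.node (nat_lit 2) (nat_lit 5) (nat_lit 9) (C.cons (nat_lit 548) (C.node (nat_lit 1) (nat_lit 3) (nat_lit 9) (C.cons (nat_lit 650) (C.miq (nat_lit 1108543639) (nat_lit 55613410132088112494020481)) (C.cons (nat_lit 522) (C.node (nat_lit 2) (nat_lit 3) (nat_lit 7) (C.cons (nat_lit 396)
  (C.miq (nat_lit 305436784) (nat_lit 33859718388176089454806913)) (C.cons (nat_lit 140) (C.node (nat_lit 2) (nat_lit 7) (nat_lit 8) (C.cons (nat_lit 388) (C.node (nat_lit 1) (nat_lit 7) (nat_lit 9) C.nil) C.nil)) C.nil))) C.nil))) C.nil)) (C.cons (nat_lit 262) (C.node (nat_lit 1) (nat_lit 2) (nat_lit 9) (C.cons (nat_lit 518) (C.node (nat_lit 1) (nat_lit 7) (nat_lit 10) (C.cons (nat_lit 1162) (C.node (nat_lit 3) (nat_lit 5) (nat_lit 10) (C.cons (nat_lit 1064) (C.node (nat_lit 5) (nat_lit 7) (nat_lit 10) (C.cons (nat_lit 1184) (C.node (nat_lit 1) (nat_lit 3) (nat_lit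 9) (C.cons (nat_lit 778) (C.miq (nat_lit 2435285840) (nat_lit 162031496242713634919481641)) (C.cons (nat_lit 522) (C.node (nat_lit 1) (nat_lit 4) (nat_lit 10) (C.cons (nat_lit 1298) (C.node (nat_lit 1) (nat_lit 6) (nat_lit 10) C.nil) C.nil)) C.nil))) C.nil)) C.nil)) (C.cons (nat_lit 1154) (C.node (nat_lit 2) (nat_lit 3) (nat_lit 7) (C.cons (nat_lit 396) (C.node (nat_lit 1) (nat_lit 3) (nat_lit 7) (C.cons (nat_lit 650) (C.miq (nat_lit 321165184) (nat_lit 33859718353273192350812033)) C.nil)) (C.cons (nat_lit 140) (C.node (nat_lit 2) (nat_lit 7) (nat_lit 8) C.nil) C.nil))) C.nil))) C.nil)) C.nil))) C.nil))) C.nil))) C.nil)))) (C.cons (nat_lit 44) (C.node (nat_lit 2) (nat_lit 3) (nat_lit 10) (C.cons (nat_lit 1292) (C.node (nat_lit 2) (nat_lit 5) (nat_lit 10) (C.cons (nat_lit 1060) (C.node (nat_lit 4) (nat_lit 8) (nat_lit 10) (C.cons (nat_lit 1298) (C.miq (nat_lit 439961632) (nat_lit 1866591261071450654425022741)) (C.cons (nat_lit 1296)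 (C.node (nat_lit 3) (nat_lit 6) (nat_lit 7) (C.cons (nat_lit 456) (C.miq (nat_lit 305531527) (nat_lit 712060905158317207380821889)) (C.cons (nat_lit 232) (C.miq (nat_lit 1921213445) (nat_lit 1561936438646399879124419697)) (C.cons (nat_lit 200) (C.node (nat_lit 1) (nat_lit 2) (nat_lit 3) (C.cons (nat_lit 142) (C.node (nat_lit 2) (nat_lit 7) (nat_lit 8) (C.cons (nat_lit 388) (C.node (nat_lit 3) (nat_lit 7) (nat_lit 8) (C.cons (nat_lit 392) (C.node (nat_lit 1) (nat_lit 4) (nat_lit 10) (C.cons (nat_lit 1050) (C.miq (nat_lit 1412893202) (nat_lit 184968694433851984051045383)) (C.cons (nat_lit 1042) (C.node (nat_lit 3) (nat_lit 4) (nat_lit 10) (C.cons (nat_lit 1048) (C.node (nat_lit 1) (nat_lit 7) (nat_lit 10) C.nil) C.nil)) C.nil))) C.nil)) C.nil)) (C.cons (nat_lit 14) (C.node (nat_lit 2) (nat_lit 3) (nat_lit 7) (C.cons (nat_lit 140) (C.node (nat_lit 1) (nat_lit 2) (nat_lit 7) (C.cons (nat_lit 390) (C.node (nat_lit 3) (nat_lit 7) (nat_lit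 8) (C.cons (nat_lit 392) (C.node (nat_lit 1) (nat_lit 2) (nat_lit 6) (C.cons (nat_lit 102) (C.miq (nat_lit 2186965344) (nat_lit 1281496805096648200315535555)) (C.cons (nat_lit 70) (C.node (nat_lit 2) (nat_lit 5) (nat_lit 6) (C.cons (nat_lit 356) (C.miq (nat_lit 2188596800) (nat_lit 169255093529243978447783025)) (C.cons (nat_lit 100) (C.node (nat_lit 2) (nat_lit 6) (nat_lit 8) C.nil) C.nil))) C.nil))) C.nil)) (C.cons (nat_lit 134) (C.node (nat_lit 2) (nat_lit 7) (nat_lit 8) (C.cons (nat_lit 388) (C.node (nat_lit 2) (nat_lit 5) (nat_lit 6) (C.cons (nat_lit 358) (C.miq (nat_lit 2188596800) (nat_lit 169255093529806928401204337)) (C.cons (nat_lit 356) (C.miq (nat_lit 2188596800) (nat_lit 169255093529243978447783025)) (C.cons (nat_lit 102) (C.node (nat_lit 2) (nat_lit 6) (nat_lit 8) C.nil) C.nil)))) C.nil)) C.nil))) C.nil)) C.nil))) C.nil)))) C.nil))) C.nil)) (C.cons (nat_lit 1036) (C.node (nat_lit 2) (nat_lit 5) (nat_lit 10) (C.cons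 (nat_lit 1316) (C.node (nat_lit 2) (nat_lit 8) (nat_lit 9) (C.cons (nat_lit 774) (C.miq (nat_lit 1377085584) (nat_lit 26617342349958043294435201)) (C.cons (nat_lit 772) (C.node (nat_lit 1) (nat_lit 2) (nat_lit 9) (C.cons (nat_lit 550) (C.node (nat_lit 2) (nat_lit 5) (nat_lit 6) (C.cons (nat_lit 100) (C.node (nat_lit 1) (nat_lit 2) (nat_lit 6) (C.cons (nat_lit 70) (C.node (nat_lit 2) (nat_lit 6) (nat_lit 8) (C.cons (nat_lit 324) (C.node (nat_lit 1) (nat_lit 2) (nat_lit 3) (C.cons (nat_lit 398)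
  (C.miq (nat_lit 1379182704) (nat_lit 33870897267644203410196353)) C.nil)) C.nil)) C.nil)) C.nil)) (C.cons (nat_lit 518) (C.node (nat_lit 2) (nat_lit 5) (nat_lit 9) (C.cons (nat_lit 548) (C.node (nat_lit 1) (nat_lit 2) (nat_lit 5) (C.cons (nat_lit 102) (C.node (nat_lit 5) (nat_lit 6) (nat_lit 9) (C.cons (nat_lit 864) (C.miq (nat_lit 444932246) (nat_lit 1590948260470956463965078093)) C.nil)) (C.cons (nat_lit 38) (C.node (nat_lit 2) (nat_lit 5) (nat_lit 6) C.nil) C.nil))) C.nil)) C.nil))) C.nil))) (C.cons (nat_lit 1060) (C.node (nat_lit 2) (nat_lit 8) (nat_lit 10) (C.cons (nat_lit 1284) (C.node (nat_lit 5) (nat_lit 8) (nat_lit 10) (C.cons (nat_lit 1314) (C.node (nat_lit 1) (nat_lit 4) (nat_lit 10) (C.cons (nat_lit 1050) (C.node (nat_lit 1) (nat_lit 6) (nat_lit 10) (C.cons (nat_lit 1090) (C.node (nat_lit 1) (nat_lit 7) (nat_lit 10) (C.cons (nat_lit 1154) (C.node (nat_lit 4) (nat_lit 8) (nat_lit 10) (C.cons (nat_lit 1296) (C.node (nat_lit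 3) (nat_lit 5) (nat_lit 10) C.nil) C.nil)) C.nil)) C.nil)) (C.cons (nat_lit 1042) (C.node (nat_lit 1) (nat_lit 6) (nat_lit 10) (C.cons (nat_lit 1098) (C.node (nat_lit 1) (nat_lit 7) (nat_lit 10) (C.cons (nat_lit 1154) (C.node (nat_lit 6) (nat_lit 8) (nat_lit 10) (C.cons (nat_lit 1344) (C.node (nat_lit 3) (nat_lit 4) (nat_lit 10) C.nil) C.nil)) C.nil)) (C.cons (nat_lit 1090) (C.node (nat_lit 1) (nat_lit 3) (nat_lit 10) (C.cons (nat_lit 1162) (C.node (nat_lit 3) (nat_lit 5) (nat_lit 10) (C.cons (nat_lit 1064) (C.node (nat_lit 5) (nat_lit 7) (nat_lit 10) C.nil) C.nil)) (C.cons (nat_lit 1034) (C.node (nat_lit 1) (nat_lit 7) (nat_lit 10) C.nil) C.nil))) C.nil))) C.nil))) (C.cons (nat_lit 1312) (C.node (nat_lit 3) (nat_lit 4) (nat_lit 5) (C.cons (nat_lit 568) (C.node (nat_lit 4) (nat_lit 8) (nat_lit 9) (C.cons (nat_lit 784) (C.node (nat_lit 3) (nat_lit 7) (nat_lit 9) (C.cons (nat_lit 650) (C.node (nat_lit 3) (nat_lit 8) (nat_lit 9) (C.cons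 (nat_lit 776) (C.node (nat_lit 5) (nat_lit 7) (nat_lit 9) (C.cons (nat_lit 672) (C.node (nat_lit 1) (nat_lit 2) (nat_lit 9) (C.cons (nat_lit 774) (C.miq (nat_lit 874606729) (nat_lit 26608358458236614245484417)) (C.cons (nat_lit 550) (C.miq (nat_lit 1637156660) (nat_lit 664930174790948266073129113)) C.nil))) C.nil)) C.nil)) (C.cons (nat_lit 648) (C.node (nat_lit 1) (nat_lit 3) (nat_lit 9) (C.cons (nat_lit 778) (C.node (nat_lit 1) (nat_lit 6) (nat_lit 9) (C.cons (nat_lit 610) (C.miq (nat_lit 423060800) (nat_lit 783387528397076253917119601)) (C.cons (nat_lit 578) (C.node (nat_lit 1) (nat_lit 2) (nat_lit 9) (C.cons (nat_lit 550) (C.node (nat_lit 1) (nat_lit 7) (nat_lit 9) C.nil) C.nil)) C.nil))) (C.cons (nat_lit 522) (C.node (nat_lit 3) (nat_lit 8) (nat_lit 9) (C.cons (nat_lit 776) (C.node (nat_lit 1) (nat_lit 7) (nat_lit 9) (C.cons (nat_lit 642) (C.node (nat_lit 5) (nat_lit 7) (nat_lit 9) C.nil) C.nil)) C.nil)) C.nil))) C.nil))) C.nil))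 (C.cons (nat_lit 58) (C.node (nat_lit 3) (nat_lit 5) (nat_lit 10) (C.cons (nat_lit 1192) (C.miq (nat_lit 430260339) (nat_lit 1895596755216366284436930713)) (C.cons (nat_lit 1064) (C.node (nat_lit 1) (nat_lit 3) (nat_lit 9) (C.cons (nat_lit 778) (C.miq (nat_lit 2203750720) (nat_lit 1286332508484318818999534099)) (C.cons (nat_lit 650) (C.miq (nat_lit 1935315264) (nat_lit 1286332508448290021980570131)) (C.cons (nat_lit 522) (C.node (nat_lit 1) (nat_lit 4) (nat_lit 6) (C.cons (nat_lit 338) (C.node (nat_lit 1) (nat_lit 4) (nat_lit 7) (C.cons (nat_lit 146) (C.node (nat_lit 1) (nat_lit 4) (nat_lit 10) (C.cons (nat_lit 1042) (C.node (nat_lit 3) (nat_lit 4) (nat_lit 6) C.nil) C.nil)) C.nil)) (C.cons (nat_lit 82) (C.node (nat_lit 1) (nat_lit 4) (nat_lit 7) (C.cons (nat_lit 402) (C.node (nat_lit 1) (nat_lit 4) (nat_lit 10) (C.cons (nat_lit 1042) (C.node (nat_lit 4) (nat_lit 5) (nat_lit 7) C.nil) C.nil)) (C.cons (nat_lit 146) (C.node (nat_lit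 1) (nat_lit 4) (nat_lit 8) (C.cons (nat_lit 1298) (C.node (nat_lit 3) (nat_lit 4) (nat_lit 10) C.nil) (C.cons (nat_lit 274)
  (C.node (nat_lit 1) (nat_lit 4) (nat_lit 10) C.nil) C.nil))) C.nil))) C.nil))) C.nil)))) C.nil))) (C.cons (nat_lit 56) (C.node (nat_lit 3) (nat_lit 4) (nat_lit 9) (C.cons (nat_lit 792) (C.node (nat_lit 4) (nat_lit 5) (nat_lit 9) (C.cons (nat_lit 560) (C.node (nat_lit 4) (nat_lit 8) (nat_lit 10) (C.cons (nat_lit 1298) (C.miq (nat_lit 338864272) (nat_lit 33868941907707532862621569)) (C.cons (nat_lit 1296) (C.node (nat_lit 1) (nat_lit 4) (nat_lit 10) C.nil) C.nil))) C.nil)) (C.cons (nat_lit 536) (C.node (nat_lit 3) (nat_lit 8) (nat_lit 9) (C.cons (nat_lit 778) (C.node (nat_lit 1) (nat_lit 2) (nat_lit 3) (C.cons (nat_lit 142) (C.node (nat_lit 2) (nat_lit 3) (nat_lit 8) (C.cons (nat_lit 268) (C.node (nat_lit 2) (nat_lit 7) (nat_lit 8) C.nil) C.nil)) (C.cons (nat_lit 14) (C.node (nat_lit 1) (nat_lit 2) (nat_lit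 7) (C.cons (nat_lit 390) (C.node (nat_lit 2) (nat_lit 3) (nat_lit 7) C.nil) (C.cons (nat_lit 134) (C.node (nat_lit 1) (nat_lit 2) (nat_lit 9) C.nil) C.nil))) C.nil))) (C.cons (nat_lit 776) (C.node (nat_lit 4) (nat_lit 5) (nat_lit 9) (C.cons (nat_lit 816) (C.node (nat_lit 2) (nat_lit 8) (nat_lit 9) (C.cons (nat_lit 774) (C.miq (nat_lit 1479166224) (nat_lit 1552281726562882573451067923)) (C.cons (nat_lit 772) (C.node (nat_lit 1) (nat_lit 2) (nat_lit 9) (C.cons (nat_lit 550) (C.node (nat_lit 5) (nat_lit 6) (nat_lit 9) C.nil) C.nil)) C.nil))) (C.cons (nat_lit 560) (C.node (nat_lit 4) (nat_lit 8) (nat_lit 9) C.nil) C.nil))) C.nil))) C.nil))) C.nil)))) C.nil))) C.nil)) C.nil))) C.nil))) C.nil)))) C.nil)) C.nil))) C.nil))))) C.nil)) C.nil))) C.nil))))) (List.cons (C.node (nat_lit 3) (nat_lit 4) (nat_lit 5) (C.cons (nat_lit 56) (C.node (nat_lit 1) (nat_lit 2) (nat_lit 7) (C.cons (nat_lit 390) (C.node (nat_lit 1) (nat_lit 2) (nat_lit 9)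 (C.cons (nat_lit 518) (C.node (nat_lit 2) (nat_lit 3) (nat_lit 7) (C.cons (nat_lit 140) (C.node (nat_lit 2) (nat_lit 8) (nat_lit 9) (C.cons (nat_lit 772) (C.node (nat_lit 1) (nat_lit 4) (nat_lit 6) (C.cons (nat_lit 338) (C.miq (nat_lit 1384384278) (nat_lit 334893426027709135370453187)) (C.cons (nat_lit 82) (C.node (nat_lit 1) (nat_lit 4) (nat_lit 7) (C.cons (nat_lit 178) (C.miq (nat_lit 1649871169) (nat_lit 199476357517299370844881427)) (C.cons (nat_lit 146) (C.node (nat_lit 1) (nat_lit 4) (nat_lit 10) (C.cons (nat_lit 1298) (C.miq (nat_lit 1410468487) (nat_lit 36270818621253660730328961)) (C.cons (nat_lit 1042) (C.node (nat_lit 2) (nat_lit 6) (nat_lit 8) (C.cons (nat_lit 356) (C.miq (nat_lit 2188596800) (nat_lit 169255093529243978447783025)) (C.cons (nat_lit 324) (C.node (nat_lit 3) (nat_lit 4) (nat_lit 6) (C.cons (nat_lit 344) (C.miq (nat_lit 1382549315) (nat_lit 391697444284574026054500505)) (C.cons (nat_lit 88) (C.node (nat_lit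 4) (nat_lit 6) (nat_lit 8) (C.cons (nat_lit 336) (C.node (nat_lit 4) (nat_lit 5) (nat_lit 7) (C.cons (nat_lit 432) (C.miq (nat_lit 846726725) (nat_lit 471486548498484941716194417)) (C.cons (nat_lit 176) (C.node (nat_lit 4) (nat_lit 7) (nat_lit 8) C.nil) C.nil))) C.nil)) C.nil))) C.nil))) C.nil))) C.nil))) C.nil))) C.nil)) C.nil)) C.nil)) (C.cons (nat_lit 134) (C.node (nat_lit 1) (nat_lit 2) (nat_lit 9) (C.cons (nat_lit 774) (C.node (nat_lit 1) (nat_lit 4) (nat_lit 6) (C.cons (nat_lit 338) (C.miq (nat_lit 2014578979) (nat_lit 408619749922304693179908685)) (C.cons (nat_lit 82) (C.node (nat_lit 1) (nat_lit 4) (nat_lit 10) (C.cons (nat_lit 1298) (C.miq (nat_lit 1678903945) (nat_lit 36278640040740913605379969)) (C.cons (nat_lit 1042) (C.node (nat_lit 1) (nat_lit 6) (nat_lit 9) (C.cons (nat_lit 610) (C.miq (nat_lit 369661250) (nat_lit 388079466047913635463103028)) (C.cons (nat_lit 578) (C.node (nat_lit 2) (nat_lit 3) (nat_lit 7) (C.cons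 (nat_lit 396) (C.node (nat_lit 2) (nat_lit 6) (nat_lit 8) (C.cons (nat_lit 356) (C.miq (nat_lit 275289170) (nat_lit 388079466025677112308138548)) (C.cons (nat_lit 324) (C.miq (nat_lit 1445463155) (nat_lit 391697444558167703420666009)) C.nil))) (C.cons (nat_lit 140)
  (C.miq (nat_lit 2184679744) (nat_lit 169285051159275441340613139)) C.nil))) C.nil))) C.nil))) C.nil))) (C.cons (nat_lit 518) (C.node (nat_lit 2) (nat_lit 8) (nat_lit 9) (C.cons (nat_lit 772) (C.node (nat_lit 2) (nat_lit 3) (nat_lit 7) (C.cons (nat_lit 396) (C.miq (nat_lit 2182705984) (nat_lit 626259010867207728207691929)) (C.cons (nat_lit 140) (C.node (nat_lit 2) (nat_lit 7) (nat_lit 8) (C.cons (nat_lit 388) (C.node (nat_lit 1) (nat_lit 4) (nat_lit 7) (C.cons (nat_lit 434) (C.miq (nat_lit 846726725) (nat_lit 469068696859255683366913137)) (C.cons (nat_lit 402) (C.miq (nat_lit 2166977584) (nat_lit 626259010868896578071756953)) (C.cons (nat_lit 178) (C.miq (nat_lit 1649871169)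 (nat_lit 199476357517299370844881427)) (C.cons (nat_lit 146) (C.node (nat_lit 4) (nat_lit 5) (nat_lit 7) (C.cons (nat_lit 432) (C.miq (nat_lit 846726725) (nat_lit 469068696859255683366782065)) (C.cons (nat_lit 176) (C.node (nat_lit 4) (nat_lit 7) (nat_lit 8) (C.cons (nat_lit 400) (C.node (nat_lit 3) (nat_lit 4) (nat_lit 6) (C.cons (nat_lit 344) (C.miq (nat_lit 2222274080) (nat_lit 212776423031992929017463373)) (C.cons (nat_lit 88) (C.node (nat_lit 1) (nat_lit 4) (nat_lit 5) (C.cons (nat_lit 306) (C.node (nat_lit 1) (nat_lit 4) (nat_lit 6) C.nil) (C.cons (nat_lit 50) (C.node (nat_lit 4) (nat_lit 5) (nat_lit 8) (C.cons (nat_lit 304) (C.node (nat_lit 1) (nat_lit 4) (nat_lit 6) C.nil) C.nil)) C.nil))) C.nil))) C.nil)) C.nil))) C.nil))))) C.nil)) C.nil))) C.nil)) C.nil))) C.nil))) C.nil)) (List.cons (C.node (nat_lit 3) (nat_lit 4) (nat_lit 5) (C.cons (nat_lit 58) (C.node (nat_lit 1) (nat_lit 4) (nat_lit 6) (C.cons (nat_lit 338) (C.node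 (nat_lit 1) (nat_lit 4) (nat_lit 7) (C.cons (nat_lit 146) (C.node (nat_lit 1) (nat_lit 4) (nat_lit 10) (C.cons (nat_lit 1042) (C.node (nat_lit 3) (nat_lit 4) (nat_lit 6) (C.cons (nat_lit 88) (C.node (nat_lit 2) (nat_lit 6) (nat_lit 8) (C.cons (nat_lit 356) (C.miq (nat_lit 879232805) (nat_lit 408622405755801134780645541)) (C.cons (nat_lit 324) (C.node (nat_lit 3) (nat_lit 5) (nat_lit 6) (C.cons (nat_lit 232) (C.miq (nat_lit 910710560) (nat_lit 408622405778037657935610021)) (C.cons (nat_lit 104) (C.node (nat_lit 4) (nat_lit 5) (nat_lit 7) (C.cons (nat_lit 432) (C.miq (nat_lit 1983201800) (nat_lit 125736254293036501513601301)) (C.cons (nat_lit 176) (C.node (nat_lit 4) (nat_lit 5) (nat_lit 8) (C.cons (nat_lit 304) (C.node (nat_lit 4) (nat_lit 7) (nat_lit 8) (C.cons (nat_lit 400) (C.node (nat_lit 3) (nat_lit 6) (nat_lit 7) (C.cons (nat_lit 456) (C.node (nat_lit 5) (nat_lit 6) (nat_lit 7) C.nil) C.nil)) C.nil)) C.nil)) C.nil))) C.nil)))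 C.nil))) C.nil)) C.nil)) C.nil)) (C.cons (nat_lit 82) (C.node (nat_lit 1) (nat_lit 4) (nat_lit 7) (C.cons (nat_lit 402) (C.node (nat_lit 1) (nat_lit 4) (nat_lit 10) (C.cons (nat_lit 1042) (C.node (nat_lit 4) (nat_lit 5) (nat_lit 7) (C.cons (nat_lit 176) (C.node (nat_lit 4) (nat_lit 5) (nat_lit 8) (C.cons (nat_lit 304) (C.node (nat_lit 2) (nat_lit 7) (nat_lit 8) (C.cons (nat_lit 396) (C.miq (nat_lit 1417152035) (nat_lit 485993658488108779047748173)) (C.cons (nat_lit 388) (C.node (nat_lit 3) (nat_lit 4) (nat_lit 6) (C.cons (nat_lit 344) (C.miq (nat_lit 2222274080) (nat_lit 212776423031992929017463373)) (C.cons (nat_lit 88) (C.node (nat_lit 4) (nat_lit 6) (nat_lit 8) (C.cons (nat_lit 336) (C.node (nat_lit 4) (nat_lit 8) (nat_lit 9) (C.cons (nat_lit 792) (C.miq (nat_lit 873896048) (nat_lit 99142782563588915396282241)) C.nil)) C.nil)) C.nil))) C.nil))) C.nil)) C.nil)) C.nil)) (C.cons (nat_lit 146) (C.node (nat_lit 1) (nat_lit 4) (nat_lit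 8) (C.cons (nat_lit 1298) (C.node (nat_lit 4) (nat_lit 5) (nat_lit 7) (C.cons (nat_lit 432) (C.miq (nat_lit 340961392) (nat_lit 681853181221147224289118081)) (C.cons (nat_lit 176) (C.node (nat_lit 4) (nat_lit 5) (nat_lit 8) (C.cons (nat_lit 304) (C.node (nat_lit 4) (nat_lit 7) (nat_lit 8) (C.cons (nat_lit 400) (C.node (nat_lit 3) (nat_lit 4) (nat_lit 6) (C.cons (nat_lit 344) (C.miq (nat_lit 2222274080) (nat_lit 212776423031992929017463373)) (C.cons (nat_lit 88)
  (C.node (nat_lit 4) (nat_lit 6) (nat_lit 8) C.nil) C.nil))) C.nil)) C.nil)) C.nil))) (C.cons (nat_lit 274) (C.node (nat_lit 1) (nat_lit 4) (nat_lit 10) (C.cons (nat_lit 1042) (C.node (nat_lit 2) (nat_lit 3) (nat_lit 5) (C.cons (nat_lit 1068) (C.node (nat_lit 2) (nat_lit 8) (nat_lit 10) (C.cons (nat_lit 1284) (C.node (nat_lit 5) (nat_lit 8) (nat_lit 10) (C.cons (nat_lit 1314) (C.miq (nat_lit 2705818928) (nat_lit 176538606228959824071688489)) (C.cons (nat_lit 1312) (C.node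 (nat_lit 5) (nat_lit 9) (nat_lit 10) (C.cons (nat_lit 1570) (C.miq (nat_lit 2052262164) (nat_lit 1291135598240987409511219731)) (C.cons (nat_lit 1568) (C.node (nat_lit 4) (nat_lit 8) (nat_lit 9) (C.cons (nat_lit 784) (C.node (nat_lit 3) (nat_lit 4) (nat_lit 9) C.nil) C.nil)) C.nil))) C.nil))) C.nil)) (C.cons (nat_lit 44) (C.node (nat_lit 2) (nat_lit 3) (nat_lit 10) (C.cons (nat_lit 1292) (C.node (nat_lit 2) (nat_lit 5) (nat_lit 10) (C.cons (nat_lit 1060) (C.node (nat_lit 4) (nat_lit 8) (nat_lit 10) (C.cons (nat_lit 1296) (C.node (nat_lit 3) (nat_lit 5) (nat_lit 6) (C.cons (nat_lit 232) (C.miq (nat_lit 1921213445) (nat_lit 1561936438646399879124419697)) (C.cons (nat_lit 104) (C.node (nat_lit 3) (nat_lit 4) (nat_lit 6) (C.cons (nat_lit 344) (C.miq (nat_lit 1966481540) (nat_lit 125732195996109707379474709)) (C.cons (nat_lit 88) (C.node (nat_lit 4) (nat_lit 6) (nat_lit 8) C.nil) C.nil))) C.nil))) C.nil)) C.nil)) (C.cons (nat_lit 1036)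 (C.node (nat_lit 2) (nat_lit 5) (nat_lit 10) (C.cons (nat_lit 1316) (C.node (nat_lit 3) (nat_lit 4) (nat_lit 6) (C.cons (nat_lit 344) (C.miq (nat_lit 1750221575) (nat_lit 1590950289419424287942836377)) (C.cons (nat_lit 88) (C.node (nat_lit 4) (nat_lit 6) (nat_lit 8) (C.cons (nat_lit 336) (C.node (nat_lit 1) (nat_lit 2) (nat_lit 5) C.nil) C.nil)) C.nil))) (C.cons (nat_lit 1060) (C.node (nat_lit 2) (nat_lit 8) (nat_lit 10) (C.cons (nat_lit 1284) (C.node (nat_lit 4) (nat_lit 8) (nat_lit 9) C.nil) C.nil)) C.nil))) C.nil))) C.nil))) C.nil)) C.nil))) C.nil))) C.nil))) (C.cons (nat_lit 56) (C.node (nat_lit 4) (nat_lit 8) (nat_lit 9) (C.cons (nat_lit 792) (C.node (nat_lit 4) (nat_lit 9) (nat_lit 10) (C.cons (nat_lit 1552) (C.node (nat_lit 4) (nat_lit 8) (nat_lit 10) (C.cons (nat_lit 1298) (C.miq (nat_lit 338864272) (nat_lit 33868941907707532862621569)) (C.cons (nat_lit 1296) (C.node (nat_lit 4) (nat_lit 5) (nat_lit 7) (C.cons (nat_lit 434)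 (C.miq (nat_lit 877828208) (nat_lit 681845027617840315041646465)) (C.cons (nat_lit 432) (C.miq (nat_lit 877828208) (nat_lit 681845027617840306451711873)) (C.cons (nat_lit 178) (C.miq (nat_lit 1649871169) (nat_lit 199476357517299370844881427)) (C.cons (nat_lit 176) (C.node (nat_lit 1) (nat_lit 4) (nat_lit 5) (C.cons (nat_lit 306) (C.node (nat_lit 1) (nat_lit 4) (nat_lit 7) (C.cons (nat_lit 146) (C.node (nat_lit 4) (nat_lit 6) (nat_lit 8) (C.cons (nat_lit 336) (C.node (nat_lit 4) (nat_lit 7) (nat_lit 8) C.nil) C.nil)) C.nil)) (C.cons (nat_lit 50) (C.node (nat_lit 4) (nat_lit 5) (nat_lit 8) (C.cons (nat_lit 304) (C.node (nat_lit 1) (nat_lit 4) (nat_lit 7) (C.cons (nat_lit 402) (C.node (nat_lit 4) (nat_lit 6) (nat_lit 8) C.nil) C.nil)) C.nil)) C.nil))) C.nil))))) C.nil))) C.nil)) (C.cons (nat_lit 784) (C.node (nat_lit 3) (nat_lit 4) (nat_lit 9) (C.cons (nat_lit 1560) (C.node (nat_lit 1) (nat_lit 4) (nat_lit 10) (C.cons (nat_lit 1298)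 (C.node (nat_lit 1) (nat_lit 3) (nat_lit 4) (C.cons (nat_lit 90) (C.miq (nat_lit 2051082550) (nat_lit 1569189311515603172547232333)) (C.cons (nat_lit 26) (C.node (nat_lit 1) (nat_lit 4) (nat_lit 6) (C.cons (nat_lit 82) (C.node (nat_lit 1) (nat_lit 4) (nat_lit 5) (C.cons (nat_lit 178) (C.miq (nat_lit 1649871169) (nat_lit 199476357517299370844881427)) (C.cons (nat_lit 50) (C.node (nat_lit 1) (nat_lit 4) (nat_lit 7) (C.cons (nat_lit 146) (C.node (nat_lit 4) (nat_lit 5) (nat_lit 7) (C.cons (nat_lit 432) (C.miq (nat_lit 340961392) (nat_lit 681853181221147224289118081)) C.nil)) C.nil)) C.nil))) C.nil)) C.nil))) (C.cons (nat_lit 1042) (C.node (nat_lit 4) (nat_lit 8) (nat_lit 10)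
  (C.cons (nat_lit 1296) (C.node (nat_lit 1) (nat_lit 9) (nat_lit 10) (C.cons (nat_lit 1570) (C.node (nat_lit 1) (nat_lit 7) (nat_lit 9) (C.cons (nat_lit 650) (C.miq (nat_lit 323327754) (nat_lit 67728807469574349846022017)) (C.cons (nat_lit 642) (C.node (nat_lit 5) (nat_lit 7) (nat_lit 10) (C.cons (nat_lit 1192) (C.miq (nat_lit 355768944) (nat_lit 67709641561443206602229633)) (C.cons (nat_lit 1184) (C.node (nat_lit 5) (nat_lit 8) (nat_lit 10) (C.cons (nat_lit 1316) (C.miq (nat_lit 354720384) (nat_lit 681843957925675359937038209)) (C.cons (nat_lit 1312) (C.node (nat_lit 1) (nat_lit 3) (nat_lit 4) (C.cons (nat_lit 26) (C.node (nat_lit 1) (nat_lit 4) (nat_lit 6) C.nil) C.nil)) C.nil))) C.nil))) C.nil))) (C.cons (nat_lit 1538) (C.node (nat_lit 5) (nat_lit 9) (nat_lit 10) (C.cons (nat_lit 1568) (C.node (nat_lit 1) (nat_lit 3) (nat_lit 4) (C.cons (nat_lit 26) (C.node (nat_lit 1) (nat_lit 4) (nat_lit 6) C.nil) C.nil)) C.nil)) C.nil)))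 C.nil)) C.nil))) (C.cons (nat_lit 536) (C.node (nat_lit 4) (nat_lit 9) (nat_lit 10) (C.cons (nat_lit 1552) (C.node (nat_lit 3) (nat_lit 8) (nat_lit 9) (C.cons (nat_lit 778) (C.node (nat_lit 1) (nat_lit 4) (nat_lit 5) (C.cons (nat_lit 434) (C.miq (nat_lit 1649871169) (nat_lit 199476357517299370861658643)) (C.cons (nat_lit 306) (C.miq (nat_lit 1669662996) (nat_lit 359071942539348775435108883)) (C.cons (nat_lit 178) (C.miq (nat_lit 1649871169) (nat_lit 199476357517299370844881427)) (C.cons (nat_lit 50) (C.node (nat_lit 1) (nat_lit 4) (nat_lit 7) (C.cons (nat_lit 402) (C.node (nat_lit 4) (nat_lit 5) (nat_lit 7) (C.cons (nat_lit 176) (C.node (nat_lit 4) (nat_lit 5) (nat_lit 8) C.nil) C.nil)) (C.cons (nat_lit 146) (C.node (nat_lit 1) (nat_lit 6) (nat_lit 9) (C.cons (nat_lit 610) (C.node (nat_lit 1) (nat_lit 7) (nat_lit 9) C.nil) (C.cons (nat_lit 578) (C.node (nat_lit 4) (nat_lit 5) (nat_lit 7) C.nil) C.nil))) C.nil))) C.nil))))) (C.cons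 (nat_lit 776) (C.node (nat_lit 1) (nat_lit 4) (nat_lit 5) (C.cons (nat_lit 434) (C.miq (nat_lit 1649871169) (nat_lit 199476357517299370861658643)) (C.cons (nat_lit 306) (C.node (nat_lit 1) (nat_lit 4) (nat_lit 7) (C.cons (nat_lit 146) (C.node (nat_lit 4) (nat_lit 5) (nat_lit 7) C.nil) C.nil)) (C.cons (nat_lit 178) (C.miq (nat_lit 1649871169) (nat_lit 199476357517299370844881427)) (C.cons (nat_lit 50) (C.node (nat_lit 1) (nat_lit 4) (nat_lit 7) (C.cons (nat_lit 402) (C.node (nat_lit 4) (nat_lit 5) (nat_lit 7) C.nil) (C.cons (nat_lit 146) (C.node (nat_lit 4) (nat_lit 5) (nat_lit 7) C.nil) C.nil))) C.nil))))) C.nil))) C.nil)) C.nil))) C.nil))) C.nil))) List.nil)))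

theorem ok11_124 : okL par11 (nat_lit 127) c11_124 (nat_lit 124) = true := by decide +kernel

noncomputable def c11_127 : List C :=
  (List.cons (C.node (nat_lit 1) (nat_lit 2) (nat_lit 9) (C.cons (nat_lit 774) (C.node (nat_lit 1) (nat_lit 2) (nat_lit 6) (C.cons (nat_lit 102) (C.miq (nat_lit 2032208470) (nat_lit 935712182037537536541590641)) (C.cons (nat_lit 70) (C.node (nat_lit 5) (nat_lit 8) (nat_lit 10) (C.cons (nat_lit 1314) (C.miq (nat_lit 1361488016) (nat_lit 84645781690897293730711425)) (C.cons (nat_lit 1312) (C.node (nat_lit 6) (nat_lit 8) (nat_lit 9) (C.cons (nat_lit 864) (C.miq (nat_lit 441983081) (nat_lit 1586124953404512112830579277)) (C.cons (nat_lit 832) (C.node (nat_lit 5) (nat_lit 8) (nat_lit 9) (C.cons (nat_lit 816) (C.miq (nat_lit 710414409) (nat_lit 1586124953404512112827433491)) (C.cons (nat_lit 800) (C.node (nat_lit 2) (nat_lit 4) (nat_lit 5) (C.cons (nat_lit 62) (C.miq (nat_lit 2032339540) (nat_lit 712060130645580043417158769))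 (C.cons (nat_lit 60) (C.miq (nat_lit 2032339540) (nat_lit 712060130645580043417027697)) (C.cons (nat_lit 54) (C.miq (nat_lit 2186973504) (nat_lit 1900466824847424522663559699)) (C.cons (nat_lit 52) (C.node (nat_lit 1) (nat_lit 2) (nat_lit 4) (C.cons (nat_lit 30) (C.node (nat_lit 1) (nat_lit 2) (nat_lit 5) (C.cons (nat_lit 38) (C.node (nat_lit 1) (nat_lit 2) (nat_lit 7) (C.cons (nat_lit 134) (C.node (nat_lit 2) (nat_lit 3) (nat_lit 5) (C.cons (nat_lit 44) (C.node (nat_lit 1) (nat_lit 4) (nat_lit 6) (C.cons (nat_lit 338) (C.miq (nat_lit 2014578979) (nat_lit 408619749922304693179908685)) (C.cons (nat_lit 82) (C.node (nat_lit 1) (nat_lit 4) (nat_lit 10) (C.cons (nat_lit 1298) (C.miq (nat_lit 1093052560) (nat_lit 84645781686393694103340929)) (C.cons (nat_lit 1042) (C.node (nat_lit 2) (nat_lit 3) (nat_lit 7) (C.cons (nat_lit 140) (C.miq (nat_lit 2184679744) (nat_lit 169285051159275441340613139)) C.nil)) C.nil))) C.nil))) C.nil)) C.nil))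 C.nil)) (C.cons (nat_lit 22) (C.node (nat_lit 2) (nat_lit 3) (nat_lit 4) (C.cons (nat_lit 28) (C.node (nat_lit 2) (nat_lit 7) (nat_lit 8) (C.cons (nat_lit 396) (C.miq (nat_lit 305436784) (nat_lit 33859718388176089454806913)) (C.cons (nat_lit 388) (C.node (nat_lit 2) (nat_lit 5) (nat_lit 6) (C.cons (nat_lit 356) (C.miq (nat_lit 942081380) (nat_lit 469066040445918994452710513)) (C.cons (nat_lit 100) (C.node (nat_lit 2) (nat_lit 5) (nat_lit 8) (C.cons (nat_lit 292) (C.node (nat_lit 2) (nat_lit 6) (nat_lit 8) C.nil) C.nil)) C.nil))) C.nil))) C.nil)) C.nil))) C.nil))))) C.nil))) C.nil))) C.nil))) C.nil))) (C.cons (nat_lit 518) (C.node (nat_lit 2) (nat_lit 8) (nat_lit 9) (C.cons (nat_lit 772) (C.node (nat_lit 1) (nat_lit 9) (nat_lit 10) (C.cons (nat_lit 1546) (C.node (nat_lit 1) (nat_lit 7) (nat_lit 10) (C.cons (nat_lit 1186) (C.miq (nat_lit 1466540290) (nat_lit 851112775624212970344350727)) (C.cons (nat_lit 1154) (C.node (nat_lit 3)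 (nat_lit 7) (nat_lit 9) (C.cons (nat_lit 680) (C.miq (nat_lit 326150482) (nat_lit 184984669429341492861011492)) (C.cons (nat_lit 648) (C.node (nat_lit 2) (nat_lit 3) (nat_lit 5) (C.cons (nat_lit 62) (C.miq (nat_lit 2032339540) (nat_lit 712060130645580043417158769)) (C.cons (nat_lit 60) (C.miq (nat_lit 2032339540) (nat_lit 712060130645580043417027697)) (C.cons (nat_lit 46) (C.miq (nat_lit 1470177427) (nat_lit 1395101244431961080141054541)) (C.cons (nat_lit 44) (C.node (nat_lit 1) (nat_lit 4) (nat_lit 10) (C.cons (nat_lit 1298) (C.node (nat_lit 1) (nat_lit 5) (nat_lit 10) (C.cons (nat_lit 1058) (C.node (nat_lit 1) (nat_lit 6) (nat_lit 10) (C.cons (nat_lit 1090) (C.node (nat_lit 3) (nat_lit 4) (nat_lit 10) (C.cons (nat_lit 1048) (C.node (nat_lit 5) (nat_lit 8) (nat_lit 10) (C.cons (nat_lit 1312) (C.node (nat_lit 2) (nat_lit 3) (nat_lit 10) C.nil) C.nil)) C.nil)) C.nil)) C.nil)) (C.cons (nat_lit 1042) (C.node (nat_lit 2) (nat_lit 3)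 (nat_lit 4) (C.cons (nat_lit 30) (C.miq (nat_lit 2316568882) (nat_lit 1259705814327272087872209485)) (C.cons (nat_lit 28) (C.node (nat_lit 2) (nat_lit 3) (nat_lit 10) (C.cons (nat_lit 1292) (C.miq (nat_lit 321165952) (nat_lit 33859718605478619774257025)) (C.cons (nat_lit 1036) (C.node (nat_lit 2) (nat_lit 8) (nat_lit 10)
  (C.cons (nat_lit 1284) (C.node (nat_lit 3) (nat_lit 8) (nat_lit 9) (C.cons (nat_lit 792) (C.miq (nat_lit 323135872) (nat_lit 33868941977513327066417025)) (C.cons (nat_lit 776) (C.node (nat_lit 1) (nat_lit 2) (nat_lit 4) (C.cons (nat_lit 54) (C.node (nat_lit 1) (nat_lit 7) (nat_lit 9) (C.cons (nat_lit 674) (C.miq (nat_lit 2270300436) (nat_lit 199477870525238556444983827)) (C.cons (nat_lit 642) (C.node (nat_lit 1) (nat_lit 2) (nat_lit 6) C.nil) C.nil))) (C.cons (nat_lit 22) (C.node (nat_lit 2) (nat_lit 4) (nat_lit 5) C.nil) C.nil))) C.nil))) C.nil)) C.nil))) C.nil))) C.nil))) C.nil))))) C.nil))) C.nil))) (C.cons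 (nat_lit 1538) (C.node (nat_lit 3) (nat_lit 9) (nat_lit 10) (C.cons (nat_lit 1544) (C.node (nat_lit 2) (nat_lit 3) (nat_lit 10) (C.cons (nat_lit 1292) (C.node (nat_lit 4) (nat_lit 8) (nat_lit 10) (C.cons (nat_lit 1298) (C.miq (nat_lit 439961632) (nat_lit 1866591261071450654425022741)) (C.cons (nat_lit 1296) (C.node (nat_lit 3) (nat_lit 6) (nat_lit 7) (C.cons (nat_lit 456) (C.miq (nat_lit 305531527) (nat_lit 712060905158317207380821889)) (C.cons (nat_lit 232) (C.miq (nat_lit 1921213445) (nat_lit 1561936438646399879124419697)) (C.cons (nat_lit 200) (C.node (nat_lit 2) (nat_lit 3) (nat_lit 4) (C.cons (nat_lit 62) (C.miq (nat_lit 2032339540) (nat_lit 712060130645580043417158769)) (C.cons (nat_lit 60) (C.miq (nat_lit 2032339540) (nat_lit 712060130645580043417027697)) (C.cons (nat_lit 30) (C.miq (nat_lit 430129282) (nat_lit 1866582019036781120383090965)) (C.cons (nat_lit 28) (C.node (nat_lit 2) (nat_lit 5) (nat_lit 6) (C.cons (nat_lit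 358) (C.miq (nat_lit 1937915990) (nat_lit 1561936069694911467210802289)) (C.cons (nat_lit 356) (C.miq (nat_lit 1937915990) (nat_lit 1561936069694911467210671217)) (C.cons (nat_lit 102) (C.miq (nat_lit 2032208470) (nat_lit 626227172216192467816809585)) (C.cons (nat_lit 100) (C.node (nat_lit 1) (nat_lit 2) (nat_lit 4) (C.cons (nat_lit 54) (C.node (nat_lit 4) (nat_lit 8) (nat_lit 9) (C.cons (nat_lit 816) (C.miq (nat_lit 2234160144) (nat_lit 1900466824859246471678460435)) (C.cons (nat_lit 792) (C.miq (nat_lit 305400457) (nat_lit 33859718460519006802020225)) C.nil))) (C.cons (nat_lit 22) (C.node (nat_lit 2) (nat_lit 4) (nat_lit 5) (C.cons (nat_lit 52) (C.node (nat_lit 1) (nat_lit 2) (nat_lit 6) C.nil) C.nil)) C.nil))) C.nil))))) C.nil))))) C.nil)))) C.nil))) (C.cons (nat_lit 1036) (C.node (nat_lit 2) (nat_lit 8) (nat_lit 10) (C.cons (nat_lit 1284) (C.node (nat_lit 5) (nat_lit 8) (nat_lit 10) (C.cons (nat_lit 1314) (C.node (nat_lit 2)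 (nat_lit 3) (nat_lit 5) (C.cons (nat_lit 62) (C.miq (nat_lit 2032339540) (nat_lit 712060130645580043417158769)) (C.cons (nat_lit 60) (C.miq (nat_lit 2032339540) (nat_lit 712060130645580043417027697)) (C.cons (nat_lit 46) (C.miq (nat_lit 2555578898) (nat_lit 359061834098523353664848903)) (C.cons (nat_lit 44) (C.node (nat_lit 1) (nat_lit 4) (nat_lit 10) (C.cons (nat_lit 1050) (C.node (nat_lit 1) (nat_lit 6) (nat_lit 10) C.nil) (C.cons (nat_lit 1042) (C.node (nat_lit 1) (nat_lit 6) (nat_lit 10) (C.cons (nat_lit 1090) (C.node (nat_lit 1) (nat_lit 3) (nat_lit 10) C.nil) C.nil)) C.nil))) C.nil))))) (C.cons (nat_lit 1312) (C.node (nat_lit 1) (nat_lit 2) (nat_lit 6) (C.cons (nat_lit 358) (C.miq (nat_lit 2032208470) (nat_lit 626227172216192467833586801)) (C.cons (nat_lit 326) (C.node (nat_lit 2) (nat_lit 5) (nat_lit 6) (C.cons (nat_lit 100) (C.node (nat_lit 2) (nat_lit 5) (nat_lit 8) (C.cons (nat_lit 292) (C.node (nat_lit 1) (nat_lit 2)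 (nat_lit 7) C.nil) C.nil)) C.nil)) (C.cons (nat_lit 102) (C.miq (nat_lit 2032208470) (nat_lit 626227172216192467816809585)) (C.cons (nat_lit 70) (C.node (nat_lit 2) (nat_lit 5) (nat_lit 6) (C.cons (nat_lit 356) (C.node (nat_lit 2) (nat_lit 3) (nat_lit 7) (C.cons (nat_lit 140) (C.miq (nat_lit 2188596800) (nat_lit 169255093529243978447783025)) C.nil)) (C.cons (nat_lit 100) (C.node (nat_lit 2) (nat_lit 6) (nat_lit 8) (C.cons (nat_lit 324)
  (C.node (nat_lit 2) (nat_lit 5) (nat_lit 8) C.nil) C.nil)) C.nil))) C.nil))))) C.nil))) C.nil)) C.nil))) C.nil)) C.nil))) C.nil)) C.nil))) (List.cons (C.node (nat_lit 2) (nat_lit 3) (nat_lit 10) (C.cons (nat_lit 1292) (C.node (nat_lit 2) (nat_lit 5) (nat_lit 10) (C.cons (nat_lit 1060) (C.node (nat_lit 3) (nat_lit 6) (nat_lit 7) (C.cons (nat_lit 456) (C.miq (nat_lit 305531527) (nat_lit 712060905158317207380821889)) (C.cons (nat_lit 232) (C.miq (nat_lit 1921213445) (nat_lit 1561936438646399879124419697))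 (C.cons (nat_lit 200) (C.node (nat_lit 2) (nat_lit 3) (nat_lit 7) (C.cons (nat_lit 142) (C.node (nat_lit 2) (nat_lit 7) (nat_lit 8) (C.cons (nat_lit 388) (C.node (nat_lit 3) (nat_lit 7) (nat_lit 8) (C.cons (nat_lit 392) (C.node (nat_lit 1) (nat_lit 7) (nat_lit 10) (C.cons (nat_lit 1186) (C.miq (nat_lit 1463197984) (nat_lit 241806138204767575004218375)) (C.cons (nat_lit 1154) (C.node (nat_lit 2) (nat_lit 3) (nat_lit 4) (C.cons (nat_lit 60) (C.miq (nat_lit 273905218) (nat_lit 359053587918095835484389588)) (C.cons (nat_lit 28) (C.node (nat_lit 2) (nat_lit 3) (nat_lit 5) (C.cons (nat_lit 44) (C.node (nat_lit 3) (nat_lit 4) (nat_lit 10) (C.cons (nat_lit 1050) (C.miq (nat_lit 1412893202) (nat_lit 184968694433851984051045383)) (C.cons (nat_lit 1048) (C.node (nat_lit 3) (nat_lit 6) (nat_lit 10) (C.cons (nat_lit 1098) (C.miq (nat_lit 1511458354) (nat_lit 1395103439868095994090357325)) (C.cons (nat_lit 1096) (C.node (nat_lit 1) (nat_lit 2)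 (nat_lit 4) (C.cons (nat_lit 22) (C.node (nat_lit 2) (nat_lit 4) (nat_lit 5) C.nil) C.nil)) C.nil))) C.nil))) C.nil)) C.nil))) C.nil))) C.nil)) C.nil)) (C.cons (nat_lit 140) (C.node (nat_lit 1) (nat_lit 2) (nat_lit 7) (C.cons (nat_lit 390) (C.node (nat_lit 3) (nat_lit 7) (nat_lit 8) (C.cons (nat_lit 392) (C.node (nat_lit 1) (nat_lit 2) (nat_lit 6) (C.cons (nat_lit 102) (C.miq (nat_lit 2186965344) (nat_lit 1281496805096648200315535555)) (C.cons (nat_lit 70) (C.node (nat_lit 2) (nat_lit 5) (nat_lit 6) (C.cons (nat_lit 356) (C.miq (nat_lit 2188596800) (nat_lit 169255093529243978447783025)) (C.cons (nat_lit 100) (C.node (nat_lit 2) (nat_lit 6) (nat_lit 8) (C.cons (nat_lit 324) (C.node (nat_lit 4) (nat_lit 7) (nat_lit 8) (C.cons (nat_lit 432) (C.miq (nat_lit 662922320) (nat_lit 473909786480868601918719089)) (C.cons (nat_lit 400) (C.node (nat_lit 4) (nat_lit 8) (nat_lit 10) (C.cons (nat_lit 1298) (C.miq (nat_lit 1418136082) (nat_lit 483573371878666455371613191))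 (C.cons (nat_lit 1296) (C.node (nat_lit 5) (nat_lit 6) (nat_lit 7) (C.cons (nat_lit 480) (C.miq (nat_lit 1479173904) (nat_lit 1561953133025222365406494915)) (C.cons (nat_lit 224) (C.node (nat_lit 5) (nat_lit 7) (nat_lit 8) (C.cons (nat_lit 416) (C.node (nat_lit 6) (nat_lit 7) (nat_lit 8) C.nil) C.nil)) C.nil))) C.nil))) C.nil))) C.nil)) C.nil))) C.nil))) C.nil)) (C.cons (nat_lit 134) (C.node (nat_lit 2) (nat_lit 7) (nat_lit 8) (C.cons (nat_lit 388) (C.node (nat_lit 3) (nat_lit 4) (nat_lit 10) (C.cons (nat_lit 1050) (C.node (nat_lit 3) (nat_lit 6) (nat_lit 10) (C.cons (nat_lit 1096) (C.node (nat_lit 4) (nat_lit 8) (nat_lit 10) (C.cons (nat_lit 1296) (C.node (nat_lit 3) (nat_lit 4) (nat_lit 6) (C.cons (nat_lit 344) (C.miq (nat_lit 1399261250) (nat_lit 241788207719297542582960405)) (C.cons (nat_lit 88) (C.node (nat_lit 3) (nat_lit 4) (nat_lit 8) (C.cons (nat_lit 792) (C.miq (nat_lit 591505552) (nat_lit 1269391129552169699548268417))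 (C.cons (nat_lit 280) (C.node (nat_lit 1) (nat_lit 6) (nat_lit 10) (C.cons (nat_lit 1346) (C.node (nat_lit 1) (nat_lit 4) (nat_lit 6) C.nil) C.nil)) C.nil))) C.nil))) C.nil)) C.nil)) (C.cons (nat_lit 1048) (C.node (nat_lit 1) (nat_lit 4) (nat_lit 10) (C.cons (nat_lit 1298) (C.node (nat_lit 5) (nat_lit 8) (nat_lit 10) (C.cons (nat_lit 1312) (C.node (nat_lit 6) (nat_lit 8) (nat_lit 10) (C.cons (nat_lit 1344) (C.node (nat_lit 1) (nat_lit 9) (nat_lit 10) (C.cons (nat_lit 1538) (C.miq (nat_lit 958013512) (nat_lit 1859351743926433945434063125)) C.nil)) C.nil)) C.nil)) (C.cons (nat_lit 1042)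
  (C.node (nat_lit 4) (nat_lit 8) (nat_lit 10) (C.cons (nat_lit 1296) (C.node (nat_lit 3) (nat_lit 5) (nat_lit 6) (C.cons (nat_lit 106) (C.node (nat_lit 3) (nat_lit 6) (nat_lit 10) (C.cons (nat_lit 1096) (C.node (nat_lit 2) (nat_lit 5) (nat_lit 6) (C.cons (nat_lit 356) (C.miq (nat_lit 2188596800) (nat_lit 169255093529243978447783025)) (C.cons (nat_lit 100) (C.node (nat_lit 3) (nat_lit 4) (nat_lit 6) (C.cons (nat_lit 344) (C.miq (nat_lit 1399261250) (nat_lit 241788207719297542582960405)) C.nil)) C.nil))) C.nil)) (C.cons (nat_lit 104) (C.node (nat_lit 3) (nat_lit 6) (nat_lit 10) (C.cons (nat_lit 1098) (C.node (nat_lit 6) (nat_lit 8) (nat_lit 10) (C.cons (nat_lit 1344) (C.node (nat_lit 1) (nat_lit 7) (nat_lit 10) C.nil) C.nil)) (C.cons (nat_lit 1096) (C.node (nat_lit 1) (nat_lit 6) (nat_lit 10) (C.cons (nat_lit 1346) (C.node (nat_lit 5) (nat_lit 8) (nat_lit 10) C.nil) C.nil)) C.nil))) C.nil))) C.nil)) C.nil))) C.nil))) C.nil)) C.nil)))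 C.nil))) C.nil)))) C.nil)) (C.cons (nat_lit 1068) (C.node (nat_lit 2) (nat_lit 8) (nat_lit 10) (C.cons (nat_lit 1284) (C.node (nat_lit 2) (nat_lit 3) (nat_lit 4) (C.cons (nat_lit 30) (C.node (nat_lit 2) (nat_lit 4) (nat_lit 5) (C.cons (nat_lit 52) (C.node (nat_lit 3) (nat_lit 4) (nat_lit 5) (C.cons (nat_lit 568) (C.miq (nat_lit 305728084) (nat_lit 712067103264325011724829809)) (C.cons (nat_lit 56) (C.node (nat_lit 3) (nat_lit 4) (nat_lit 9) (C.cons (nat_lit 792) (C.miq (nat_lit 2200605712) (nat_lit 1291168211766717865106276883)) (C.cons (nat_lit 536) (C.node (nat_lit 1) (nat_lit 4) (nat_lit 10) (C.cons (nat_lit 1298) (C.miq (nat_lit 2218369312) (nat_lit 648019675874161482349216775)) (C.cons (nat_lit 1042) (C.node (nat_lit 3) (nat_lit 7) (nat_lit 10) (C.cons (nat_lit 1162) (C.miq (nat_lit 2268334610) (nat_lit 184970760689865102290977799)) (C.cons (nat_lit 1160) (C.node (nat_lit 3) (nat_lit 9) (nat_lit 10) (C.cons (nat_lit 1546) (C.miq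 (nat_lit 2316568882) (nat_lit 1259705814327272087872209485)) (C.cons (nat_lit 1544) (C.node (nat_lit 1) (nat_lit 2) (nat_lit 7) (C.cons (nat_lit 390) (C.node (nat_lit 2) (nat_lit 3) (nat_lit 7) (C.cons (nat_lit 140) (C.node (nat_lit 2) (nat_lit 3) (nat_lit 8) C.nil) C.nil)) (C.cons (nat_lit 134) (C.node (nat_lit 1) (nat_lit 4) (nat_lit 6) (C.cons (nat_lit 338) (C.node (nat_lit 3) (nat_lit 4) (nat_lit 6) (C.cons (nat_lit 88) (C.node (nat_lit 1) (nat_lit 4) (nat_lit 5) C.nil) C.nil)) (C.cons (nat_lit 82) (C.node (nat_lit 4) (nat_lit 5) (nat_lit 9) (C.cons (nat_lit 816) (C.node (nat_lit 1) (nat_lit 4) (nat_lit 5) C.nil) C.nil)) C.nil))) C.nil))) C.nil))) C.nil))) C.nil))) C.nil))) C.nil))) C.nil)) (C.cons (nat_lit 28) (C.node (nat_lit 1) (nat_lit 2) (nat_lit 4) (C.cons (nat_lit 54) (C.node (nat_lit 1) (nat_lit 2) (nat_lit 9) (C.cons (nat_lit 774) (C.miq (nat_lit 2186973504) (nat_lit 1291168211761651418611646995)) (C.cons (nat_lit 518)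 (C.node (nat_lit 3) (nat_lit 4) (nat_lit 5) (C.cons (nat_lit 568) (C.miq (nat_lit 305728084) (nat_lit 712067103264325011724829809)) (C.cons (nat_lit 56) (C.node (nat_lit 4) (nat_lit 5) (nat_lit 9) (C.cons (nat_lit 816) (C.miq (nat_lit 2234160144) (nat_lit 1291168211773473367626547731)) (C.cons (nat_lit 560) (C.node (nat_lit 5) (nat_lit 9) (nat_lit 10) (C.cons (nat_lit 1570) (C.miq (nat_lit 2299660884) (nat_lit 626228684849206503406961777)) (C.cons (nat_lit 1568) (C.node (nat_lit 1) (nat_lit 2) (nat_lit 6) (C.cons (nat_lit 326) (C.node (nat_lit 2) (nat_lit 5) (nat_lit 6) (C.cons (nat_lit 100) (C.node (nat_lit 1) (nat_lit 6) (nat_lit 10) C.nil) C.nil)) (C.cons (nat_lit 70) (C.node (nat_lit 1) (nat_lit 4) (nat_lit 7) (C.cons (nat_lit 402) (C.node (nat_lit 4) (nat_lit 5) (nat_lit 7) (C.cons (nat_lit 176) (C.node (nat_lit 4) (nat_lit 5) (nat_lit 8) (C.cons (nat_lit 304) (C.node (nat_lit 1) (nat_lit 4) (nat_lit 10) C.nil) C.nil)) C.nil))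 (C.cons (nat_lit 146) (C.node (nat_lit 1) (nat_lit 9) (nat_lit 10) (C.cons (nat_lit 1546) (C.node (nat_lit 3) (nat_lit 7) (nat_lit 10) (C.cons (nat_lit 1160) (C.node (nat_lit 2) (nat_lit 5) (nat_lit 6)
  (C.cons (nat_lit 100) (C.node (nat_lit 2) (nat_lit 6) (nat_lit 8) C.nil) C.nil)) C.nil)) (C.cons (nat_lit 1538) (C.node (nat_lit 3) (nat_lit 9) (nat_lit 10) C.nil) C.nil))) C.nil))) C.nil))) C.nil))) C.nil))) C.nil))) C.nil))) (C.cons (nat_lit 22) (C.node (nat_lit 2) (nat_lit 4) (nat_lit 5) (C.cons (nat_lit 52) (C.node (nat_lit 3) (nat_lit 7) (nat_lit 10) (C.cons (nat_lit 1162) (C.node (nat_lit 3) (nat_lit 9) (nat_lit 10) (C.cons (nat_lit 1544) (C.node (nat_lit 5) (nat_lit 7) (nat_lit 10) (C.cons (nat_lit 1184) (C.node (nat_lit 1) (nat_lit 2) (nat_lit 3) (C.cons (nat_lit 270) (C.node (nat_lit 1) (nat_lit 2) (nat_lit 7) (C.cons (nat_lit 134) (C.node (nat_lit 2) (nat_lit 3) (nat_lit 7) (C.cons (nat_lit 140) (C.node (nat_lit 2) (nat_lit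 7) (nat_lit 8) C.nil) C.nil)) C.nil)) (C.cons (nat_lit 14) (C.node (nat_lit 1) (nat_lit 2) (nat_lit 7) (C.cons (nat_lit 390) (C.node (nat_lit 2) (nat_lit 3) (nat_lit 7) (C.cons (nat_lit 140) (C.node (nat_lit 2) (nat_lit 3) (nat_lit 8) C.nil) C.nil)) (C.cons (nat_lit 134) (C.node (nat_lit 1) (nat_lit 4) (nat_lit 10) (C.cons (nat_lit 1298) (C.node (nat_lit 1) (nat_lit 6) (nat_lit 10) C.nil) (C.cons (nat_lit 1042) (C.node (nat_lit 1) (nat_lit 7) (nat_lit 9) C.nil) C.nil))) C.nil))) C.nil))) C.nil)) C.nil)) (C.cons (nat_lit 1160) (C.node (nat_lit 1) (nat_lit 7) (nat_lit 10) (C.cons (nat_lit 1186) (C.node (nat_lit 5) (nat_lit 8) (nat_lit 10) (C.cons (nat_lit 1312) (C.node (nat_lit 5) (nat_lit 9) (nat_lit 10) (C.cons (nat_lit 1568) (C.node (nat_lit 1) (nat_lit 9) (nat_lit 10) (C.cons (nat_lit 1546) (C.miq (nat_lit 354658057) (nat_lit 1291161294348591944640038785)) (C.cons (nat_lit 1538) (C.node (nat_lit 3) (nat_lit 9) (nat_lit 10) C.nil)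 C.nil))) C.nil)) C.nil)) (C.cons (nat_lit 1154) (C.node (nat_lit 5) (nat_lit 7) (nat_lit 10) (C.cons (nat_lit 1184) (C.node (nat_lit 3) (nat_lit 9) (nat_lit 10) (C.cons (nat_lit 1546) (C.node (nat_lit 5) (nat_lit 9) (nat_lit 10) (C.cons (nat_lit 1568) (C.node (nat_lit 1) (nat_lit 4) (nat_lit 10) C.nil) C.nil)) (C.cons (nat_lit 1544) (C.node (nat_lit 1) (nat_lit 9) (nat_lit 10) (C.cons (nat_lit 1570) (C.node (nat_lit 5) (nat_lit 8) (nat_lit 10) (C.cons (nat_lit 1312) (C.node (nat_lit 1) (nat_lit 7) (nat_lit 9) C.nil) C.nil)) (C.cons (nat_lit 1538) (C.node (nat_lit 5) (nat_lit 9) (nat_lit 10) C.nil) C.nil))) C.nil))) C.nil)) C.nil))) C.nil))) C.nil)) C.nil))) C.nil))) C.nil)) (C.cons (nat_lit 1036) (C.node (nat_lit 2) (nat_lit 5) (nat_lit 10) (C.cons (nat_lit 1316) (C.node (nat_lit 2) (nat_lit 5) (nat_lit 6) (C.cons (nat_lit 102) (C.node (nat_lit 2) (nat_lit 5) (nat_lit 9) (C.cons (nat_lit 548) (C.node (nat_lit 2) (nat_lit 6) (nat_lit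 8) (C.cons (nat_lit 324) (C.node (nat_lit 1) (nat_lit 2) (nat_lit 9) (C.cons (nat_lit 774) (C.miq (nat_lit 1159793289) (nat_lit 123320229141838016339642241)) (C.cons (nat_lit 518) (C.node (nat_lit 2) (nat_lit 8) (nat_lit 9) (C.cons (nat_lit 772) (C.node (nat_lit 2) (nat_lit 3) (nat_lit 5) (C.cons (nat_lit 60) (C.miq (nat_lit 2722596144) (nat_lit 256327710324088308145652009)) (C.cons (nat_lit 44) (C.node (nat_lit 2) (nat_lit 4) (nat_lit 5) C.nil) C.nil))) C.nil)) C.nil))) C.nil)) C.nil)) (C.cons (nat_lit 100) (C.node (nat_lit 5) (nat_lit 6) (nat_lit 7) (C.cons (nat_lit 480) (C.miq (nat_lit 307628679) (nat_lit 120896179366763644030289793)) (C.cons (nat_lit 232) (C.miq (nat_lit 2187658355) (nat_lit 120898060722422288304570521)) (C.cons (nat_lit 224) (C.node (nat_lit 2) (nat_lit 7) (nat_lit 8) (C.cons (nat_lit 398) (C.miq (nat_lit 374501544) (nat_lit 120899923820496757794801537)) (C.cons (nat_lit 396) (C.miq (nat_lit 929399360) (nat_lit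 270804862388131828256014613)) (C.cons (nat_lit 390) (C.miq (nat_lit 374501544) (nat_lit 120899776246544168118388609)) (C.cons (nat_lit 388) (C.node (nat_lit 1) (nat_lit 2) (nat_lit 6) (C.cons (nat_lit 326) (C.node (nat_lit 2) (nat_lit 3) (nat_lit 8) (C.cons (nat_lit 268) (C.node (nat_lit 2) (nat_lit 8) (nat_lit 9) (C.cons (nat_lit 772) (C.node (nat_lit 4) (nat_lit 6) (nat_lit 8) (C.cons (nat_lit 344)
  (C.miq (nat_lit 913671200) (nat_lit 270804862373495129403359509)) (C.cons (nat_lit 336) (C.node (nat_lit 2) (nat_lit 4) (nat_lit 5) (C.cons (nat_lit 62) (C.miq (nat_lit 2015562324) (nat_lit 323994942549282978824848497)) (C.cons (nat_lit 60) (C.miq (nat_lit 2015562324) (nat_lit 323994942549282978824717425)) (C.cons (nat_lit 54) (C.miq (nat_lit 2552302164) (nat_lit 394119612956191333167793265)) (C.cons (nat_lit 52) (C.node (nat_lit 4) (nat_lit 7) (nat_lit 8) (C.cons (nat_lit 434) (C.miq (nat_lit 846726725) (nat_lit 469068696859255683366913137))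 (C.cons (nat_lit 432) (C.miq (nat_lit 846726725) (nat_lit 469068696859255683366782065)) (C.cons (nat_lit 402) (C.miq (nat_lit 1210282336) (nat_lit 323994942121718237218275523)) (C.cons (nat_lit 400) (C.node (nat_lit 1) (nat_lit 2) (nat_lit 4) (C.cons (nat_lit 30) (C.node (nat_lit 1) (nat_lit 2) (nat_lit 7) C.nil) C.nil)) C.nil))))) C.nil))))) C.nil))) C.nil)) C.nil)) (C.cons (nat_lit 70) (C.node (nat_lit 2) (nat_lit 6) (nat_lit 8) (C.cons (nat_lit 324) (C.node (nat_lit 1) (nat_lit 2) (nat_lit 7) (C.cons (nat_lit 142) (C.node (nat_lit 2) (nat_lit 3) (nat_lit 8) (C.cons (nat_lit 268) (C.node (nat_lit 1) (nat_lit 7) (nat_lit 10) (C.cons (nat_lit 1186) (C.miq (nat_lit 911679649) (nat_lit 270802003197129046628631559)) (C.cons (nat_lit 1154) (C.node (nat_lit 2) (nat_lit 3) (nat_lit 4) (C.cons (nat_lit 60) (C.miq (nat_lit 2184684864) (nat_lit 171702902951064265916220529)) C.nil)) C.nil))) C.nil)) (C.cons (nat_lit 134) (C.node (nat_lit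 2) (nat_lit 3) (nat_lit 7) (C.cons (nat_lit 140) (C.node (nat_lit 2) (nat_lit 3) (nat_lit 8) (C.cons (nat_lit 268) (C.node (nat_lit 1) (nat_lit 2) (nat_lit 8) C.nil) C.nil)) C.nil)) C.nil))) C.nil)) C.nil))) C.nil))))) C.nil)))) C.nil))) (C.cons (nat_lit 1060) (C.node (nat_lit 2) (nat_lit 8) (nat_lit 10) (C.cons (nat_lit 1284) (C.node (nat_lit 5) (nat_lit 8) (nat_lit 10) (C.cons (nat_lit 1314) (C.node (nat_lit 1) (nat_lit 4) (nat_lit 10) (C.cons (nat_lit 1050) (C.node (nat_lit 1) (nat_lit 6) (nat_lit 10) (C.cons (nat_lit 1090) (C.node (nat_lit 1) (nat_lit 7) (nat_lit 10) (C.cons (nat_lit 1154) (C.node (nat_lit 1) (nat_lit 9) (nat_lit 10) (C.cons (nat_lit 1538) (C.node (nat_lit 4) (nat_lit 8) (nat_lit 10) C.nil) C.nil)) C.nil)) C.nil)) (C.cons (nat_lit 1042) (C.node (nat_lit 1) (nat_lit 6) (nat_lit 10) (C.cons (nat_lit 1098) (C.node (nat_lit 1) (nat_lit 7) (nat_lit 10) (C.cons (nat_lit 1154) (C.node (nat_lit 1) (nat_lit 9) (nat_lit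 10) (C.cons (nat_lit 1538) (C.node (nat_lit 6) (nat_lit 8) (nat_lit 10) C.nil) C.nil)) C.nil)) (C.cons (nat_lit 1090) (C.node (nat_lit 1) (nat_lit 7) (nat_lit 10) (C.cons (nat_lit 1162) (C.node (nat_lit 1) (nat_lit 9) (nat_lit 10) (C.cons (nat_lit 1538) (C.node (nat_lit 5) (nat_lit 7) (nat_lit 10) C.nil) C.nil)) (C.cons (nat_lit 1154) (C.node (nat_lit 1) (nat_lit 3) (nat_lit 10) (C.cons (nat_lit 1546) (C.node (nat_lit 5) (nat_lit 9) (nat_lit 10) C.nil) (C.cons (nat_lit 1034) (C.node (nat_lit 1) (nat_lit 9) (nat_lit 10) (C.cons (nat_lit 1538) (C.node (nat_lit 3) (nat_lit 4) (nat_lit 10) C.nil) C.nil)) C.nil))) C.nil))) C.nil))) C.nil))) (C.cons (nat_lit 1312) (C.node (nat_lit 3) (nat_lit 4) (nat_lit 9) (C.cons (nat_lit 792) (C.node (nat_lit 4) (nat_lit 5) (nat_lit 9) (C.cons (nat_lit 560) (C.node (nat_lit 4) (nat_lit 8) (nat_lit 10) (C.cons (nat_lit 1298) (C.miq (nat_lit 950178832) (nat_lit 1552271617740377031738589715)) (C.cons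 (nat_lit 1296) (C.node (nat_lit 2) (nat_lit 3) (nat_lit 4) (C.cons (nat_lit 62) (C.miq (nat_lit 444866707) (nat_lit 1566769006208900932084171341)) (C.cons (nat_lit 60) (C.miq (nat_lit 2485617488) (nat_lit 256327710176595420350054697)) (C.cons (nat_lit 30) (C.miq (nat_lit 444866707) (nat_lit 1566768415913090573378519629)) (C.cons (nat_lit 28) (C.node (nat_lit 1) (nat_lit 2) (nat_lit 4) (C.cons (nat_lit 54) (C.node (nat_lit 2) (nat_lit 3) (nat_lit 5) (C.cons (nat_lit 44) (C.node (nat_lit 3) (nat_lit 4) (nat_lit 5) (C.cons (nat_lit 56) (C.node (nat_lit 1) (nat_lit 4) (nat_lit 10) (C.cons (nat_lit 1042)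
  (C.node (nat_lit 3) (nat_lit 4) (nat_lit 10) C.nil) C.nil)) C.nil)) C.nil)) (C.cons (nat_lit 22) (C.node (nat_lit 2) (nat_lit 4) (nat_lit 5) (C.cons (nat_lit 52) (C.node (nat_lit 1) (nat_lit 9) (nat_lit 10) (C.cons (nat_lit 1578) (C.miq (nat_lit 323135872) (nat_lit 33868941986520526321158017)) C.nil)) C.nil)) C.nil))) C.nil))))) C.nil))) C.nil)) (C.cons (nat_lit 568) (C.node (nat_lit 4) (nat_lit 8) (nat_lit 9) (C.cons (nat_lit 784) (C.node (nat_lit 2) (nat_lit 3) (nat_lit 4) (C.cons (nat_lit 30) (C.node (nat_lit 2) (nat_lit 3) (nat_lit 5) (C.cons (nat_lit 44) (C.node (nat_lit 2) (nat_lit 4) (nat_lit 5) (C.cons (nat_lit 52) (C.node (nat_lit 1) (nat_lit 4) (nat_lit 10) (C.cons (nat_lit 1298) (C.miq (nat_lit 2218369312) (nat_lit 686705302101829615939814407)) (C.cons (nat_lit 1042) (C.node (nat_lit 3) (nat_lit 9) (nat_lit 10) (C.cons (nat_lit 1546) (C.miq (nat_lit 2316568882) (nat_lit 1259705814327272087872209485)) (C.cons (nat_lit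 1544) (C.node (nat_lit 1) (nat_lit 9) (nat_lit 10) C.nil) C.nil))) C.nil))) C.nil)) C.nil)) (C.cons (nat_lit 28) (C.node (nat_lit 1) (nat_lit 2) (nat_lit 4) (C.cons (nat_lit 54) (C.node (nat_lit 2) (nat_lit 3) (nat_lit 5) (C.cons (nat_lit 44) (C.node (nat_lit 1) (nat_lit 2) (nat_lit 9) (C.cons (nat_lit 774) (C.miq (nat_lit 2186973504) (nat_lit 1281496805204734385213997587)) (C.cons (nat_lit 518) (C.node (nat_lit 5) (nat_lit 7) (nat_lit 9) (C.cons (nat_lit 674) (C.miq (nat_lit 2270300436) (nat_lit 199477870525238556444983827)) (C.cons (nat_lit 672) (C.node (nat_lit 5) (nat_lit 9) (nat_lit 10) (C.cons (nat_lit 1570) (C.miq (nat_lit 2299660884) (nat_lit 626228684849206503406961777)) C.nil)) C.nil))) C.nil))) C.nil)) (C.cons (nat_lit 22) (C.node (nat_lit 2) (nat_lit 4) (nat_lit 5) (C.cons (nat_lit 52) (C.node (nat_lit 2) (nat_lit 3) (nat_lit 5) (C.cons (nat_lit 46) (C.node (nat_lit 1) (nat_lit 2) (nat_lit 9) C.nil) C.nil)) C.nil)) C.nil)))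 C.nil))) C.nil)) (C.cons (nat_lit 536) (C.node (nat_lit 3) (nat_lit 8) (nat_lit 9) (C.cons (nat_lit 778) (C.node (nat_lit 1) (nat_lit 2) (nat_lit 9) (C.cons (nat_lit 550) (C.node (nat_lit 1) (nat_lit 6) (nat_lit 9) (C.cons (nat_lit 578) (C.node (nat_lit 1) (nat_lit 7) (nat_lit 9) (C.cons (nat_lit 642) (C.node (nat_lit 1) (nat_lit 9) (nat_lit 10) (C.cons (nat_lit 1538) (C.node (nat_lit 3) (nat_lit 9) (nat_lit 10) C.nil) C.nil)) C.nil)) C.nil)) (C.cons (nat_lit 518) (C.node (nat_lit 1) (nat_lit 6) (nat_lit 9) (C.cons (nat_lit 610) (C.node (nat_lit 1) (nat_lit 7) (nat_lit 9) (C.cons (nat_lit 642) (C.node (nat_lit 1) (nat_lit 9) (nat_lit 10) (C.cons (nat_lit 1538) (C.node (nat_lit 3) (nat_lit 9) (nat_lit 10) C.nil) C.nil)) C.nil)) (C.cons (nat_lit 578) (C.node (nat_lit 1) (nat_lit 7) (nat_lit 9) (C.cons (nat_lit 674) (C.node (nat_lit 1) (nat_lit 9) (nat_lit 10) (C.cons (nat_lit 1538) (C.node (nat_lit 3) (nat_lit 9) (nat_lit 10) C.nil)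 C.nil)) (C.cons (nat_lit 642) (C.node (nat_lit 1) (nat_lit 5) (nat_lit 9) (C.cons (nat_lit 1570) (C.node (nat_lit 3) (nat_lit 9) (nat_lit 10) (C.cons (nat_lit 1544) (C.node (nat_lit 2) (nat_lit 5) (nat_lit 9) C.nil) C.nil)) (C.cons (nat_lit 546) (C.node (nat_lit 1) (nat_lit 9) (nat_lit 10) C.nil) C.nil))) C.nil))) C.nil))) C.nil))) (C.cons (nat_lit 776) (C.node (nat_lit 4) (nat_lit 5) (nat_lit 9) (C.cons (nat_lit 816) (C.node (nat_lit 2) (nat_lit 8) (nat_lit 9) (C.cons (nat_lit 774) (C.miq (nat_lit 1479166224) (nat_lit 1552281726562882573451067923)) (C.cons (nat_lit 772) (C.node (nat_lit 5) (nat_lit 6) (nat_lit 7) (C.cons (nat_lit 480) (C.miq (nat_lit 341182855) (nat_lit 1374552254166394462361618305)) (C.cons (nat_lit 232) (C.miq (nat_lit 1954898435) (nat_lit 986487748509836391964279373)) (C.cons (nat_lit 224) (C.node (nat_lit 1) (nat_lit 2) (nat_lit 9) (C.cons (nat_lit 550) (C.node (nat_lit 5) (nat_lit 6) (nat_lit 9) (C.cons (nat_lit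 608) (C.node (nat_lit 1) (nat_lit 6) (nat_lit 9) (C.cons (nat_lit 578) (C.node (nat_lit 1) (nat_lit 8) (nat_lit 9) C.nil) C.nil)) C.nil)) (C.cons (nat_lit 518)
  (C.node (nat_lit 2) (nat_lit 5) (nat_lit 9) C.nil) C.nil))) C.nil)))) C.nil))) (C.cons (nat_lit 560) (C.node (nat_lit 4) (nat_lit 8) (nat_lit 9) (C.cons (nat_lit 784) (C.node (nat_lit 3) (nat_lit 5) (nat_lit 6) (C.cons (nat_lit 232) (C.node (nat_lit 6) (nat_lit 7) (nat_lit 8) (C.cons (nat_lit 448) (C.node (nat_lit 3) (nat_lit 7) (nat_lit 9) (C.cons (nat_lit 650) (C.miq (nat_lit 1402234640) (nat_lit 648005213326758031763112131)) (C.cons (nat_lit 648) (C.node (nat_lit 5) (nat_lit 7) (nat_lit 10) (C.cons (nat_lit 1186) (C.miq (nat_lit 899835664) (nat_lit 1281472233989073628610101443)) (C.cons (nat_lit 1184) (C.node (nat_lit 1) (nat_lit 7) (nat_lit 9) (C.cons (nat_lit 674) (C.node (nat_lit 1) (nat_lit 4) (nat_lit 7) C.nil) C.nil)) C.nil))) C.nil))) C.nil)) (C.cons (nat_lit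 106) (C.node (nat_lit 2) (nat_lit 5) (nat_lit 6) (C.cons (nat_lit 356) (C.miq (nat_lit 1935032450) (nat_lit 128150047631961266009145621)) (C.cons (nat_lit 100) (C.node (nat_lit 3) (nat_lit 4) (nat_lit 6) (C.cons (nat_lit 344) (C.miq (nat_lit 1966481540) (nat_lit 128150047635338965728887061)) (C.cons (nat_lit 88) (C.node (nat_lit 1) (nat_lit 6) (nat_lit 9) (C.cons (nat_lit 578) (C.node (nat_lit 1) (nat_lit 6) (nat_lit 10) C.nil) C.nil)) C.nil))) C.nil))) (C.cons (nat_lit 104) (C.node (nat_lit 3) (nat_lit 6) (nat_lit 7) (C.cons (nat_lit 456) (C.node (nat_lit 5) (nat_lit 6) (nat_lit 7) (C.cons (nat_lit 224) (C.node (nat_lit 3) (nat_lit 4) (nat_lit 6) (C.cons (nat_lit 90) (C.miq (nat_lit 2202629648) (nat_lit 648019675637159809653080259)) (C.cons (nat_lit 88) (C.node (nat_lit 2) (nat_lit 5) (nat_lit 6) (C.cons (nat_lit 358) (C.miq (nat_lit 658007045) (nat_lit 551276777738322643897615473)) (C.cons (nat_lit 356) (C.miq (nat_lit 658007045)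 (nat_lit 551276740844834496478512241)) (C.cons (nat_lit 102) (C.node (nat_lit 2) (nat_lit 6) (nat_lit 8) C.nil) C.nil)))) C.nil))) C.nil)) (C.cons (nat_lit 200) (C.node (nat_lit 5) (nat_lit 6) (nat_lit 7) (C.cons (nat_lit 480) (C.node (nat_lit 5) (nat_lit 2) (nat_lit 6) (C.cons (nat_lit 102) (C.miq (nat_lit 2234152464) (nat_lit 1281496805121980948212547779)) (C.cons (nat_lit 100) (C.node (nat_lit 4) (nat_lit 3) (nat_lit 6) (C.cons (nat_lit 346) (C.miq (nat_lit 1196974595) (nat_lit 580290776048144911115551309)) (C.cons (nat_lit 344) (C.miq (nat_lit 1196974595) (nat_lit 580290739154656763696448077)) (C.cons (nat_lit 90) (C.node (nat_lit 4) (nat_lit 6) (nat_lit 8) C.nil) C.nil)))) C.nil))) (C.cons (nat_lit 224) (C.node (nat_lit 6) (nat_lit 7) (nat_lit 8) (C.cons (nat_lit 448) (C.node (nat_lit 2) (nat_lit 3) (nat_lit 7) (C.cons (nat_lit 398) (C.miq (nat_lit 929399360) (nat_lit 270804862388694778209435925)) (C.cons (nat_lit 396) (C.miq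 (nat_lit 929399360) (nat_lit 270804862388131828256014613)) (C.cons (nat_lit 142) (C.node (nat_lit 1) (nat_lit 2) (nat_lit 4) C.nil) (C.cons (nat_lit 140) (C.node (nat_lit 1) (nat_lit 2) (nat_lit 4) C.nil) C.nil))))) C.nil)) C.nil))) C.nil))) C.nil)))) C.nil)) C.nil))) C.nil))) C.nil)))) C.nil))) C.nil)) C.nil))) C.nil)))) List.nil))

theorem ok11_127 : okL par11 (nat_lit 129) c11_127 (nat_lit 127) = true := by decide +kernel


end Pool.Agent.MP_1f1ca1_co

end
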