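import Pool.Agent.Mg.F1f1ca1.G140a50

section

set_option autoImplicit false
set_option maxRecDepth 1000000
set_option maxHeartbeats 0

namespace Pool.Agent.MP_1f1ca1_co

noncomputable def c11_129 : List C :=
  (List.cons (C.node (nat_lit 2) (nat_lit 4) (nat_lit 9) (C.cons (nat_lit 1556) (C.ref (nat_lit 124) (nat_lit 11649936536080)) (C.cons (nat_lit 564) (C.node (nat_lit 2) (nat_lit 9) (nat_lit 10) (C.cons (nat_lit 1540) (C.node (nat_lit 1) (nat_lit 2) (nat_lit 4) (C.cons (nat_lit 30) (C.node (nat_lit 2) (nat_lit 4) (nat_lit 10) (C.cons (nat_lit 1044) (C.ref (nat_lit 125) (nat_lit 11649936536080)) C.nil)) (C.cons (nat_lit 22) (C.node (nat_lit 1) (nat_lit 2) (nat_lit 9) (C.cons (nat_lit 774) (C.node (nat_lit 1) (nat_lit 6) (nat_lit 9) (C.cons (nat_lit 610) (C.miq (nat_lit 369661250) (nat_lit 388079466047913635463103028)) (C.cons (nat_lit 578) (C.node (nat_lit 2) (nat_lit 6) (nat_lit 8) (C.cons (nat_lit 356) (C.miq (nat_lit 275289170)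 (nat_lit 388079466025677112308138548)) (C.cons (nat_lit 324) (C.node (nat_lit 2) (nat_lit 5) (nat_lit 8) (C.cons (nat_lit 1316) (C.miq (nat_lit 1377085584) (nat_lit 26617342349958043294435201)) (C.cons (nat_lit 292) (C.node (nat_lit 2) (nat_lit 7) (nat_lit 8) (C.cons (nat_lit 396) (C.miq (nat_lit 873623704) (nat_lit 26603672985242982941067137)) (C.cons (nat_lit 388) (C.node (nat_lit 1) (nat_lit 4) (nat_lit 7) (C.cons (nat_lit 434) (C.miq (nat_lit 840173959) (nat_lit 26599190549157205020641153)) (C.cons (nat_lit 402) (C.miq (nat_lit 840173959) (nat_lit 26599190549157205018544001)) (C.cons (nat_lit 178) (C.miq (nat_lit 1649871169) (nat_lit 199476357517299370844881427)) (C.cons (nat_lit 146) (C.node (nat_lit 4) (nat_lit 5) (nat_lit 7) (C.cons (nat_lit 432) (C.miq (nat_lit 846726725) (nat_lit 469068696859255683366782065)) (C.cons (nat_lit 176) (C.node (nat_lit 4) (nat_lit 7) (nat_lit 8) (C.cons (nat_lit 400) (C.node (nat_lit 4) (nat_lit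 5) (nat_lit 8) (C.cons (nat_lit 306) (C.miq (nat_lit 1652885780) (nat_lit 353027313441275612381708819)) (C.cons (nat_lit 304) (C.node (nat_lit 1) (nat_lit 2) (nat_lit 6) (C.cons (nat_lit 102) (C.node (nat_lit 1) (nat_lit 2) (nat_lit 3) (C.cons (nat_lit 142) (C.miq (nat_lit 1366581808) (nat_lit 176524143640458724787159629)) (C.cons (nat_lit 14) (C.node (nat_lit 1) (nat_lit 2) (nat_lit 7) (C.cons (nat_lit 134) (C.node (nat_lit 2) (nat_lit 3) (nat_lit 7) (C.cons (nat_lit 140) (C.node (nat_lit 5) (nat_lit 6) (nat_lit 7) (C.cons (nat_lit 480) (C.miq (nat_lit 2823948129) (nat_lit 353025358461327205414076611)) (C.cons (nat_lit 232) (C.miq (nat_lit 925390400) (nat_lit 469068696758769116670919793)) C.nil))) C.nil)) C.nil)) C.nil))) (C.cons (nat_lit 70) (C.node (nat_lit 2) (nat_lit 5) (nat_lit 6) (C.cons (nat_lit 100) (C.node (nat_lit 5) (nat_lit 8) (nat_lit 10) (C.cons (nat_lit 1314) (C.miq (nat_lit 1361488016) (nat_lit 84645781690897293730711425))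 (C.cons (nat_lit 1312) (C.node (nat_lit 5) (nat_lit 6) (nat_lit 9) (C.cons (nat_lit 864) (C.miq (nat_lit 441983081) (nat_lit 1586124953404512112830579277)) (C.cons (nat_lit 608) (C.node (nat_lit 5) (nat_lit 8) (nat_lit 9) (C.cons (nat_lit 800) (C.node (nat_lit 6) (nat_lit 8) (nat_lit 9) (C.cons (nat_lit 832) (C.node (nat_lit 5) (nat_lit 6) (nat_lit 8) C.nil) C.nil)) C.nil)) C.nil))) C.nil))) C.nil)) C.nil))) C.nil))) C.nil)) C.nil))) C.nil))))) C.nil))) C.nil))) C.nil))) C.nil))) (C.cons (nat_lit 518) (C.node (nat_lit 2) (nat_lit 8) (nat_lit 9) (C.cons (nat_lit 772) (C.node (nat_lit 2) (nat_lit 3) (nat_lit 4) (C.cons (nat_lit 1052) (C.node (nat_lit 4) (nat_lit 9) (nat_lit 10) (C.cons (nat_lit 1552) (C.node (nat_lit 1) (nat_lit 4) (nat_lit 10) (C.cons (nat_lit 1298) (C.node (nat_lit 1) (nat_lit 4) (nat_lit 7) (C.cons (nat_lit 178) (C.miq (nat_lit 1649871169) (nat_lit 199476357517299370844881427)) (C.cons (nat_lit 146) (C.node (nat_lit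 1) (nat_lit 6) (nat_lit 10) (C.cons (nat_lit 1098) (C.miq (nat_lit 2170571314) (nat_lit 235745644938320342296626204)) (C.cons (nat_lit 1090) (C.node (nat_lit 3) (nat_lit 4) (nat_lit 9) (C.cons (nat_lit 792) (C.miq (nat_lit 338864272) (nat_lit 1271808981193087807761745793)) (C.cons (nat_lit 536) (C.node (nat_lit 4) (nat_lit 8) (nat_lit 9) (C.cons (nat_lit 784) (C.node (nat_lit 3) (nat_lit 4) (nat_lit 8)
  (C.cons (nat_lit 344) (C.miq (nat_lit 408986674) (nat_lit 388084207054791956906181660)) (C.cons (nat_lit 280) (C.node (nat_lit 4) (nat_lit 6) (nat_lit 8) (C.cons (nat_lit 336) (C.node (nat_lit 4) (nat_lit 5) (nat_lit 7) (C.cons (nat_lit 432) (C.miq (nat_lit 340961392) (nat_lit 681853181221147224289118081)) (C.cons (nat_lit 176) (C.node (nat_lit 4) (nat_lit 5) (nat_lit 8) (C.cons (nat_lit 304) (C.node (nat_lit 4) (nat_lit 7) (nat_lit 8) C.nil) C.nil)) C.nil))) C.nil)) C.nil))) C.nil)) C.nil))) C.nil))) C.nil))) (C.cons (nat_lit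 1042) (C.node (nat_lit 4) (nat_lit 8) (nat_lit 10) (C.cons (nat_lit 1296) (C.node (nat_lit 2) (nat_lit 3) (nat_lit 5) (C.cons (nat_lit 46) (C.node (nat_lit 3) (nat_lit 4) (nat_lit 5) (C.cons (nat_lit 56) (C.node (nat_lit 1) (nat_lit 2) (nat_lit 6) (C.cons (nat_lit 326) (C.node (nat_lit 1) (nat_lit 2) (nat_lit 7) (C.cons (nat_lit 134) (C.node (nat_lit 2) (nat_lit 5) (nat_lit 6) (C.cons (nat_lit 100) (C.node (nat_lit 2) (nat_lit 3) (nat_lit 7) (C.cons (nat_lit 396) (C.miq (nat_lit 1445463155) (nat_lit 394115296197396961770078361)) (C.cons (nat_lit 140) (C.node (nat_lit 2) (nat_lit 3) (nat_lit 8) (C.cons (nat_lit 268) (C.node (nat_lit 2) (nat_lit 7) (nat_lit 8) (C.cons (nat_lit 388) (C.node (nat_lit 1) (nat_lit 4) (nat_lit 7) (C.cons (nat_lit 434) (C.miq (nat_lit 846726725) (nat_lit 469068696859255683366913137)) (C.cons (nat_lit 402) (C.miq (nat_lit 1210282336) (nat_lit 323994942121718237218275523)) (C.cons (nat_lit 178) (C.miq (nat_lit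 1649871169) (nat_lit 199476357517299370844881427)) C.nil)))) C.nil)) C.nil)) C.nil))) C.nil)) C.nil)) (C.cons (nat_lit 70) (C.node (nat_lit 1) (nat_lit 2) (nat_lit 7) (C.cons (nat_lit 390) (C.node (nat_lit 2) (nat_lit 3) (nat_lit 7) (C.cons (nat_lit 140) (C.node (nat_lit 2) (nat_lit 3) (nat_lit 8) (C.cons (nat_lit 268) (C.node (nat_lit 1) (nat_lit 9) (nat_lit 10) (C.cons (nat_lit 1538) (C.node (nat_lit 3) (nat_lit 9) (nat_lit 10) C.nil) C.nil)) C.nil)) C.nil)) (C.cons (nat_lit 134) (C.node (nat_lit 1) (nat_lit 2) (nat_lit 8) (C.cons (nat_lit 262) (C.node (nat_lit 2) (nat_lit 3) (nat_lit 7) (C.cons (nat_lit 396) (C.node (nat_lit 1) (nat_lit 9) (nat_lit 10) (C.cons (nat_lit 1538) (C.node (nat_lit 3) (nat_lit 9) (nat_lit 10) C.nil) C.nil)) (C.cons (nat_lit 140) (C.node (nat_lit 2) (nat_lit 3) (nat_lit 8) (C.cons (nat_lit 268) (C.node (nat_lit 2) (nat_lit 7) (nat_lit 8) C.nil) C.nil)) C.nil))) C.nil)) C.nil))) C.nil))) C.nil)) (C.cons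 (nat_lit 44) (C.node (nat_lit 2) (nat_lit 5) (nat_lit 10) (C.cons (nat_lit 1316) (C.node (nat_lit 2) (nat_lit 3) (nat_lit 7) (C.cons (nat_lit 398) (C.miq (nat_lit 1379182704) (nat_lit 1271810936553024478309320577)) (C.cons (nat_lit 396) (C.miq (nat_lit 1379182704) (nat_lit 1271810936553024469719385985)) (C.cons (nat_lit 142) (C.miq (nat_lit 1681328673) (nat_lit 184969247836174203927528455)) (C.cons (nat_lit 140) (C.node (nat_lit 4) (nat_lit 5) (nat_lit 7) (C.cons (nat_lit 434) (C.miq (nat_lit 2200391780) (nat_lit 169257620716576672236962929)) (C.cons (nat_lit 432) (C.miq (nat_lit 2200391780) (nat_lit 169257583823088524817859697)) (C.cons (nat_lit 178) (C.miq (nat_lit 1649871169) (nat_lit 199476357517299370844881427)) (C.cons (nat_lit 176) (C.node (nat_lit 1) (nat_lit 2) (nat_lit 3) (C.cons (nat_lit 270) (C.node (nat_lit 1) (nat_lit 2) (nat_lit 7) (C.cons (nat_lit 134) (C.node (nat_lit 2) (nat_lit 7) (nat_lit 8) C.nil) C.nil)) (C.cons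 (nat_lit 14) (C.node (nat_lit 2) (nat_lit 3) (nat_lit 8) (C.cons (nat_lit 268) (C.node (nat_lit 1) (nat_lit 2) (nat_lit 5) (C.cons (nat_lit 102) (C.node (nat_lit 3) (nat_lit 4) (nat_lit 9) C.nil) (C.cons (nat_lit 38) (C.node (nat_lit 2) (nat_lit 5) (nat_lit 6) C.nil) C.nil))) C.nil)) C.nil))) C.nil))))) C.nil))))) (C.cons (nat_lit 1060) (C.node (nat_lit 2) (nat_lit 8) (nat_lit 10) (C.cons (nat_lit 1284) (C.node (nat_lit 3) (nat_lit 4) (nat_lit 5) (C.cons (nat_lit 58) (C.node (nat_lit 5) (nat_lit 8) (nat_lit 10) (C.cons (nat_lit 1314) (C.miq (nat_lit 2048133203) (nat_lit 1259703526931005951457231145))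
  (C.cons (nat_lit 1312) (C.node (nat_lit 3) (nat_lit 4) (nat_lit 9) (C.cons (nat_lit 536) (C.node (nat_lit 4) (nat_lit 8) (nat_lit 9) C.nil) C.nil)) C.nil))) (C.cons (nat_lit 56) (C.node (nat_lit 3) (nat_lit 4) (nat_lit 9) (C.cons (nat_lit 792) (C.node (nat_lit 4) (nat_lit 5) (nat_lit 7) (C.cons (nat_lit 434) (C.miq (nat_lit 877828208) (nat_lit 681845027617840315041646465)) (C.cons (nat_lit 432) (C.miq (nat_lit 877828208) (nat_lit 681845027617840306451711873)) (C.cons (nat_lit 178) (C.miq (nat_lit 1649871169) (nat_lit 199476357517299370844881427)) (C.cons (nat_lit 176) (C.node (nat_lit 1) (nat_lit 3) (nat_lit 4) (C.cons (nat_lit 90) (C.node (nat_lit 4) (nat_lit 6) (nat_lit 8) C.nil) C.nil)) C.nil))))) (C.cons (nat_lit 536) (C.node (nat_lit 4) (nat_lit 8) (nat_lit 9) (C.cons (nat_lit 784) (C.node (nat_lit 1) (nat_lit 2) (nat_lit 3) (C.cons (nat_lit 14) (C.node (nat_lit 1) (nat_lit 2) (nat_lit 7) C.nil) C.nil)) C.nil)) C.nil)))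 C.nil))) C.nil)) C.nil))) C.nil))) C.nil)) C.nil))) C.nil)) (C.cons (nat_lit 28) (C.node (nat_lit 2) (nat_lit 4) (nat_lit 10) (C.cons (nat_lit 1044) (C.ref (nat_lit 126) (nat_lit 11649936536080)) C.nil)) C.nil))) C.nil)) C.nil))) C.nil))) C.nil)) (C.cons (nat_lit 532) (C.node (nat_lit 2) (nat_lit 4) (nat_lit 10) (C.cons (nat_lit 1052) (C.node (nat_lit 4) (nat_lit 9) (nat_lit 10) (C.cons (nat_lit 1552) (C.node (nat_lit 1) (nat_lit 2) (nat_lit 4) (C.cons (nat_lit 54) (C.ref (nat_lit 125) (nat_lit 10619142165520)) (C.cons (nat_lit 22) (C.node (nat_lit 2) (nat_lit 4) (nat_lit 5) (C.cons (nat_lit 52) (C.node (nat_lit 1) (nat_lit 4) (nat_lit 10) (C.cons (nat_lit 1298) (C.node (nat_lit 1) (nat_lit 6) (nat_lit 10) (C.cons (nat_lit 1098) (C.miq (nat_lit 2170571314) (nat_lit 235745644938320342296626204)) (C.cons (nat_lit 1090) (C.node (nat_lit 4) (nat_lit 6) (nat_lit 8) (C.cons (nat_lit 344) (C.miq (nat_lit 408986674) (nat_lit 388084207054791956906181660))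 (C.cons (nat_lit 336) (C.node (nat_lit 3) (nat_lit 4) (nat_lit 8) (C.cons (nat_lit 792) (C.miq (nat_lit 338864272) (nat_lit 1271808981193087807761745793)) (C.cons (nat_lit 280) (C.node (nat_lit 4) (nat_lit 7) (nat_lit 8) (C.cons (nat_lit 432) (C.miq (nat_lit 340961392) (nat_lit 62883161578457086839555969)) (C.cons (nat_lit 400) (C.node (nat_lit 1) (nat_lit 2) (nat_lit 7) (C.cons (nat_lit 398) (C.miq (nat_lit 1410468487) (nat_lit 26599412064336627333203841)) (C.cons (nat_lit 390) (C.miq (nat_lit 1410468487) (nat_lit 26599412064336627332679553)) (C.cons (nat_lit 142) (C.miq (nat_lit 1681328673) (nat_lit 184969247836174203927528455)) (C.cons (nat_lit 134) (C.node (nat_lit 2) (nat_lit 3) (nat_lit 7) (C.cons (nat_lit 396) (C.miq (nat_lit 1417152035) (nat_lit 483575806848879520698335821)) (C.cons (nat_lit 140) (C.node (nat_lit 2) (nat_lit 7) (nat_lit 8) (C.cons (nat_lit 388) (C.node (nat_lit 2) (nat_lit 3) (nat_lit 8) (C.cons (nat_lit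 270) (C.miq (nat_lit 1686309394) (nat_lit 338510094944398207248892935)) (C.cons (nat_lit 268) (C.node (nat_lit 1) (nat_lit 2) (nat_lit 3) (C.cons (nat_lit 46) (C.node (nat_lit 1) (nat_lit 2) (nat_lit 9) (C.cons (nat_lit 774) (C.miq (nat_lit 1678903945) (nat_lit 26607233483823880207730561)) (C.cons (nat_lit 518) (C.node (nat_lit 2) (nat_lit 5) (nat_lit 6) (C.cons (nat_lit 356) (C.miq (nat_lit 2188596800) (nat_lit 169255093529243978447783025)) (C.cons (nat_lit 100) (C.node (nat_lit 1) (nat_lit 2) (nat_lit 6) (C.cons (nat_lit 326) (C.node (nat_lit 1) (nat_lit 3) (nat_lit 6) C.nil) C.nil)) C.nil))) C.nil))) (C.cons (nat_lit 14) (C.node (nat_lit 2) (nat_lit 3) (nat_lit 5) (C.cons (nat_lit 44) (C.node (nat_lit 1) (nat_lit 4) (nat_lit 6) (C.cons (nat_lit 82) (C.node (nat_lit 3) (nat_lit 4) (nat_lit 6) C.nil) C.nil)) C.nil)) C.nil))) C.nil))) C.nil)) C.nil))) C.nil))))) C.nil))) C.nil))) C.nil))) C.nil))) (C.cons (nat_lit 1042) (C.node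 (nat_lit 4) (nat_lit 8) (nat_lit 10) (C.cons (nat_lit 1296) (C.ref (nat_lit 126) (nat_lit 10619142165520)) C.nil)) C.nil))) C.nil)) C.nil))) C.nil)) (C.cons (nat_lit 1044)
  (C.node (nat_lit 2) (nat_lit 9) (nat_lit 10) (C.cons (nat_lit 1572) (C.node (nat_lit 4) (nat_lit 9) (nat_lit 10) (C.cons (nat_lit 1560) (C.miq (nat_lit 1922237860) (nat_lit 712060130151309984411419761)) (C.cons (nat_lit 1552) (C.ref (nat_lit 127) (nat_lit 11649936536080)) C.nil))) (C.cons (nat_lit 1540) (C.node (nat_lit 4) (nat_lit 9) (nat_lit 10) (C.cons (nat_lit 1560) (C.ref (nat_lit 127) (nat_lit 10619142165520)) (C.cons (nat_lit 1552) (C.ref (nat_lit 128) (nat_lit 11649936536080)) C.nil))) C.nil))) C.nil))) C.nil)))) List.nil)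

theorem ok11_129 : okL par11 (nat_lit 130) c11_129 (nat_lit 129) = true := by decide +kernel

noncomputable def c11_130 : List C :=
  (List.cons (C.node (nat_lit 4) (nat_lit 7) (nat_lit 10) (C.cons (nat_lit 1170) (C.node (nat_lit 6) (nat_lit 7) (nat_lit 10) (C.cons (nat_lit 1224) (C.miq (nat_lit 443107120) (nat_lit 1934291106933840799131828377)) (C.cons (nat_lit 1216) (C.node (nat_lit 2) (nat_lit 4) (nat_lit 10) (C.cons (nat_lit 1556) (C.miq (nat_lit 371486874) (nat_lit 256313856503757775509391233)) (C.cons (nat_lit 1052) (C.miq (nat_lit 880159248) (nat_lit 256303139186677500587738119)) (C.cons (nat_lit 1044) (C.node (nat_lit 4) (nat_lit 9) (nat_lit 10) (C.cons (nat_lit 1560) (C.miq (nat_lit 980849680) (nat_lit 1470064662222754480161751571)) (C.cons (nat_lit 1552) (C.node (nat_lit 2) (nat_lit 4) (nat_lit 9) (C.cons (nat_lit 564) (C.node (nat_lit 2) (nat_lit 9) (nat_lit 10) (C.cons (nat_lit 1540) (C.node (nat_lit 1) (nat_lit 2)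 (nat_lit 4) (C.cons (nat_lit 30) (C.miq (nat_lit 2537753106) (nat_lit 184976516074016134030820359)) (C.cons (nat_lit 22) (C.node (nat_lit 2) (nat_lit 3) (nat_lit 4) (C.cons (nat_lit 28) (C.node (nat_lit 1) (nat_lit 2) (nat_lit 9) (C.cons (nat_lit 774) (C.node (nat_lit 1) (nat_lit 2) (nat_lit 7) (C.cons (nat_lit 142) (C.miq (nat_lit 1685260818) (nat_lit 184976515853339752297006087)) (C.cons (nat_lit 134) (C.node (nat_lit 1) (nat_lit 6) (nat_lit 9) (C.cons (nat_lit 610) (C.miq (nat_lit 369661250) (nat_lit 388079466047913635463103028)) (C.cons (nat_lit 578) (C.node (nat_lit 2) (nat_lit 3) (nat_lit 7) (C.cons (nat_lit 396) (C.miq (nat_lit 305436784) (nat_lit 33859718388176089454806913)) (C.cons (nat_lit 140) (C.node (nat_lit 2) (nat_lit 7) (nat_lit 8) (C.cons (nat_lit 388) (C.node (nat_lit 2) (nat_lit 6) (nat_lit 8) (C.cons (nat_lit 356) (C.miq (nat_lit 2188596800) (nat_lit 169255093529243978447783025)) (C.cons (nat_lit 324) (C.node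 (nat_lit 2) (nat_lit 5) (nat_lit 8) (C.cons (nat_lit 1316) (C.miq (nat_lit 1377085584) (nat_lit 26617342349958043294435201)) (C.cons (nat_lit 292) (C.node (nat_lit 4) (nat_lit 5) (nat_lit 7) (C.cons (nat_lit 432) (C.miq (nat_lit 846726725) (nat_lit 469068696859255683366782065)) (C.cons (nat_lit 176) (C.node (nat_lit 4) (nat_lit 7) (nat_lit 8) (C.cons (nat_lit 400) (C.node (nat_lit 4) (nat_lit 5) (nat_lit 8) (C.cons (nat_lit 306) (C.miq (nat_lit 1652885780) (nat_lit 353027313441275612381708819)) (C.cons (nat_lit 304) (C.node (nat_lit 1) (nat_lit 2) (nat_lit 3) (C.cons (nat_lit 46) (C.node (nat_lit 1) (nat_lit 2) (nat_lit 6) C.nil) C.nil)) C.nil))) C.nil)) C.nil))) C.nil))) C.nil))) C.nil)) C.nil))) C.nil))) C.nil))) (C.cons (nat_lit 518) (C.node (nat_lit 2) (nat_lit 8) (nat_lit 9) (C.cons (nat_lit 772) (C.node (nat_lit 3) (nat_lit 4) (nat_lit 5) (C.cons (nat_lit 58) (C.node (nat_lit 3) (nat_lit 4) (nat_lit 10) (C.cons (nat_lit 1304)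 (C.miq (nat_lit 1349597348) (nat_lit 235741604819615283013616920)) (C.cons (nat_lit 1048) (C.node (nat_lit 4) (nat_lit 8) (nat_lit 10) (C.cons (nat_lit 1296) (C.node (nat_lit 4) (nat_lit 5) (nat_lit 7) (C.cons (nat_lit 432) (C.miq (nat_lit 2687596628) (nat_lit 13319767247041866967417264)) (C.cons (nat_lit 176) (C.node (nat_lit 4) (nat_lit 5) (nat_lit 8) (C.cons (nat_lit 304) (C.node (nat_lit 4) (nat_lit 7) (nat_lit 8) (C.cons (nat_lit 400) (C.node (nat_lit 3) (nat_lit 4) (nat_lit 6) (C.cons (nat_lit 344) (C.miq (nat_lit 2222274080) (nat_lit 212776423031992929017463373)) (C.cons (nat_lit 88) (C.node (nat_lit 1) (nat_lit 4) (nat_lit 6) (C.cons (nat_lit 338) (C.node (nat_lit 3) (nat_lit 4) (nat_lit 8) (C.cons (nat_lit 792) (C.node (nat_lit 1) (nat_lit 8) (nat_lit 9) (C.cons (nat_lit 802) (C.miq (nat_lit 2018707732) (nat_lit 359053791318105017277874707)) C.nil)) C.nil)) C.nil)) C.nil))) C.nil)) C.nil)) C.nil))) C.nil)) C.nil))) (C.cons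 (nat_lit 56) (C.node (nat_lit 1) (nat_lit 4) (nat_lit 5) (C.cons (nat_lit 306) (C.node (nat_lit 4) (nat_lit 5) (nat_lit 7) (C.cons (nat_lit 176) (C.node (nat_lit 4) (nat_lit 7) (nat_lit 8) (C.cons (nat_lit 400) (C.node (nat_lit 1) (nat_lit 3) (nat_lit 4) (C.cons (nat_lit 90) (C.miq (nat_lit 967073905) (nat_lit 1876254532414668124995059907))
  (C.cons (nat_lit 26) (C.node (nat_lit 1) (nat_lit 4) (nat_lit 6) (C.cons (nat_lit 82) (C.node (nat_lit 3) (nat_lit 4) (nat_lit 6) (C.cons (nat_lit 344) (C.miq (nat_lit 2222274080) (nat_lit 212776423031992929017463373)) (C.cons (nat_lit 88) (C.node (nat_lit 4) (nat_lit 6) (nat_lit 8) C.nil) C.nil))) C.nil)) C.nil))) C.nil)) C.nil)) (C.cons (nat_lit 50) (C.node (nat_lit 3) (nat_lit 4) (nat_lit 9) (C.cons (nat_lit 792) (C.node (nat_lit 3) (nat_lit 4) (nat_lit 10) (C.cons (nat_lit 1048) (C.node (nat_lit 4) (nat_lit 8) (nat_lit 10) (C.cons (nat_lit 1296) (C.node (nat_lit 1) (nat_lit 3) (nat_lit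 4) (C.cons (nat_lit 90) (C.miq (nat_lit 2216137568) (nat_lit 1414478645367410298569556557)) (C.cons (nat_lit 26) (C.node (nat_lit 3) (nat_lit 4) (nat_lit 6) (C.cons (nat_lit 88) (C.node (nat_lit 4) (nat_lit 5) (nat_lit 7) (C.cons (nat_lit 432) (C.miq (nat_lit 877828208) (nat_lit 681845027617840306451711873)) C.nil)) C.nil)) C.nil))) C.nil)) C.nil)) (C.cons (nat_lit 536) (C.node (nat_lit 4) (nat_lit 8) (nat_lit 9) (C.cons (nat_lit 784) (C.node (nat_lit 3) (nat_lit 4) (nat_lit 10) (C.cons (nat_lit 1304) (C.node (nat_lit 1) (nat_lit 3) (nat_lit 4) (C.cons (nat_lit 90) (C.miq (nat_lit 2755228000) (nat_lit 648019675838132943028289731)) (C.cons (nat_lit 26) (C.node (nat_lit 3) (nat_lit 4) (nat_lit 6) (C.cons (nat_lit 88) (C.node (nat_lit 4) (nat_lit 5) (nat_lit 7) (C.cons (nat_lit 432) (C.miq (nat_lit 2221102880) (nat_lit 106390950930675359621644453)) C.nil)) C.nil)) C.nil))) (C.cons (nat_lit 1048) (C.node (nat_lit 4) (nat_lit 8) (nat_lit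 10) (C.cons (nat_lit 1296) (C.node (nat_lit 4) (nat_lit 5) (nat_lit 7) (C.cons (nat_lit 432) (C.node (nat_lit 1) (nat_lit 3) (nat_lit 4) (C.cons (nat_lit 346) (C.miq (nat_lit 2755228000) (nat_lit 648019675838134042539917507)) (C.cons (nat_lit 282) (C.miq (nat_lit 1669603415) (nat_lit 340920992006859090608259237)) (C.cons (nat_lit 90) (C.miq (nat_lit 2755228000) (nat_lit 648019675838132943028289731)) C.nil)))) C.nil)) C.nil)) C.nil))) C.nil)) C.nil))) C.nil))) C.nil))) C.nil)) C.nil))) C.nil)) C.nil))) C.nil)) (C.cons (nat_lit 532) (C.node (nat_lit 2) (nat_lit 9) (nat_lit 10) (C.cons (nat_lit 1572) (C.node (nat_lit 6) (nat_lit 7) (nat_lit 9) (C.cons (nat_lit 736) (C.miq (nat_lit 311888470) (nat_lit 778551825237123014598853745)) (C.cons (nat_lit 704) (C.node (nat_lit 2) (nat_lit 3) (nat_lit 4) (C.cons (nat_lit 62) (C.miq (nat_lit 2032339540) (nat_lit 712060130645580043417158769)) (C.cons (nat_lit 60) (C.miq (nat_lit 2032339540) (nat_lit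 712060130645580043417027697)) (C.cons (nat_lit 30) (C.miq (nat_lit 2537753106) (nat_lit 184976516074016134030820359)) (C.cons (nat_lit 28) (C.node (nat_lit 1) (nat_lit 2) (nat_lit 4) (C.cons (nat_lit 54) (C.node (nat_lit 2) (nat_lit 3) (nat_lit 5) (C.cons (nat_lit 44) (C.node (nat_lit 1) (nat_lit 2) (nat_lit 9) (C.cons (nat_lit 774) (C.miq (nat_lit 2186973504) (nat_lit 1900466824847424522663559699)) (C.cons (nat_lit 518) (C.node (nat_lit 2) (nat_lit 8) (nat_lit 9) (C.cons (nat_lit 772) (C.node (nat_lit 4) (nat_lit 5) (nat_lit 7) (C.cons (nat_lit 432) (C.miq (nat_lit 1369915912) (nat_lit 1414451177957760053912076565)) (C.cons (nat_lit 176) (C.node (nat_lit 4) (nat_lit 7) (nat_lit 8) (C.cons (nat_lit 400) (C.node (nat_lit 4) (nat_lit 5) (nat_lit 8) (C.cons (nat_lit 816) (C.miq (nat_lit 2234160144) (nat_lit 1900466824859246471678460435)) (C.cons (nat_lit 304) (C.node (nat_lit 5) (nat_lit 8) (nat_lit 10) (C.cons (nat_lit 1314) (C.miq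 (nat_lit 890505383) (nat_lit 65284816694636964742301569)) (C.cons (nat_lit 1312) (C.node (nat_lit 1) (nat_lit 2) (nat_lit 7) (C.cons (nat_lit 398) (C.miq (nat_lit 893485223) (nat_lit 65289336146934263373236097)) (C.cons (nat_lit 390) (C.miq (nat_lit 1517371522) (nat_lit 1414444205393341413899763989)) (C.cons (nat_lit 142) (C.miq (nat_lit 1685260818) (nat_lit 184976515853339752297006087)) (C.cons (nat_lit 134) (C.node (nat_lit 2) (nat_lit 3) (nat_lit 7) (C.cons (nat_lit 396) (C.miq (nat_lit 1417152035) (nat_lit 483575806848879520698335821))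
  (C.cons (nat_lit 140) (C.node (nat_lit 2) (nat_lit 7) (nat_lit 8) (C.cons (nat_lit 388) (C.node (nat_lit 2) (nat_lit 5) (nat_lit 6) (C.cons (nat_lit 356) (C.miq (nat_lit 2188596800) (nat_lit 169255093529243978447783025)) C.nil)) C.nil)) C.nil))) C.nil))))) C.nil))) C.nil))) C.nil)) C.nil))) C.nil)) C.nil))) C.nil)) (C.cons (nat_lit 22) (C.node (nat_lit 2) (nat_lit 4) (nat_lit 5) (C.cons (nat_lit 52) (C.node (nat_lit 1) (nat_lit 2) (nat_lit 9) (C.cons (nat_lit 774) (C.node (nat_lit 1) (nat_lit 2) (nat_lit 6) (C.cons (nat_lit 102) (C.miq (nat_lit 2032208470) (nat_lit 935712182037537536541590641)) (C.cons (nat_lit 70) (C.node (nat_lit 1) (nat_lit 2) (nat_lit 7) (C.cons (nat_lit 142) (C.miq (nat_lit 1685260818) (nat_lit 184976515853339752297006087)) (C.cons (nat_lit 134) (C.node (nat_lit 2) (nat_lit 3) (nat_lit 7) (C.cons (nat_lit 396) (C.miq (nat_lit 305436784) (nat_lit 33859718388176089454806913)) (C.cons (nat_lit 140) (C.node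 (nat_lit 2) (nat_lit 7) (nat_lit 8) (C.cons (nat_lit 388) (C.node (nat_lit 2) (nat_lit 5) (nat_lit 6) (C.cons (nat_lit 356) (C.miq (nat_lit 2188596800) (nat_lit 169255093529243978447783025)) (C.cons (nat_lit 100) (C.node (nat_lit 4) (nat_lit 5) (nat_lit 7) (C.cons (nat_lit 432) (C.miq (nat_lit 846726725) (nat_lit 469068696859255683366782065)) C.nil)) C.nil))) C.nil)) C.nil))) C.nil))) C.nil))) (C.cons (nat_lit 518) (C.node (nat_lit 2) (nat_lit 8) (nat_lit 9) (C.cons (nat_lit 772) (C.node (nat_lit 1) (nat_lit 9) (nat_lit 10) (C.cons (nat_lit 1546) (C.node (nat_lit 2) (nat_lit 3) (nat_lit 5) (C.cons (nat_lit 46) (C.miq (nat_lit 1470177427) (nat_lit 1414444057545795146936353357)) (C.cons (nat_lit 44) (C.node (nat_lit 2) (nat_lit 3) (nat_lit 10) (C.cons (nat_lit 1292) (C.miq (nat_lit 321165952) (nat_lit 33859718605478619774257025)) (C.cons (nat_lit 1036) (C.node (nat_lit 2) (nat_lit 8) (nat_lit 10) (C.cons (nat_lit 1284) (C.node (nat_lit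 3) (nat_lit 4) (nat_lit 10) (C.cons (nat_lit 1304) (C.node (nat_lit 3) (nat_lit 6) (nat_lit 10) C.nil) C.nil)) C.nil)) C.nil))) C.nil))) (C.cons (nat_lit 1538) (C.node (nat_lit 3) (nat_lit 9) (nat_lit 10) (C.cons (nat_lit 1544) (C.node (nat_lit 2) (nat_lit 3) (nat_lit 5) (C.cons (nat_lit 46) (C.node (nat_lit 1) (nat_lit 5) (nat_lit 10) (C.cons (nat_lit 1314) (C.miq (nat_lit 1129410698) (nat_lit 55632170435906129340008321)) (C.cons (nat_lit 1058) (C.node (nat_lit 5) (nat_lit 8) (nat_lit 10) (C.cons (nat_lit 1312) (C.node (nat_lit 1) (nat_lit 3) (nat_lit 7) (C.cons (nat_lit 650) (C.miq (nat_lit 933663040) (nat_lit 1470064661966612251416789523)) (C.cons (nat_lit 394) (C.miq (nat_lit 1094035328) (nat_lit 55631561979612164784719745)) (C.cons (nat_lit 138) (C.node (nat_lit 1) (nat_lit 3) (nat_lit 9) (C.cons (nat_lit 778) (C.miq (nat_lit 2031224885) (nat_lit 626226618813866846322557225)) (C.cons (nat_lit 522) (C.node (nat_lit 1) (nat_lit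 2) (nat_lit 6) (C.cons (nat_lit 70) (C.node (nat_lit 1) (nat_lit 2) (nat_lit 7) C.nil) C.nil)) C.nil))) C.nil)))) C.nil)) C.nil))) (C.cons (nat_lit 44) (C.node (nat_lit 2) (nat_lit 3) (nat_lit 10) (C.cons (nat_lit 1292) (C.node (nat_lit 3) (nat_lit 4) (nat_lit 10) (C.cons (nat_lit 1048) (C.node (nat_lit 1) (nat_lit 2) (nat_lit 3) C.nil) C.nil)) (C.cons (nat_lit 1036) (C.node (nat_lit 2) (nat_lit 8) (nat_lit 10) (C.cons (nat_lit 1284) (C.node (nat_lit 3) (nat_lit 4) (nat_lit 10) (C.cons (nat_lit 1304) (C.node (nat_lit 3) (nat_lit 6) (nat_lit 10) C.nil) C.nil)) C.nil)) C.nil))) C.nil))) C.nil)) C.nil))) C.nil)) C.nil))) C.nil)) C.nil))) C.nil))))) C.nil))) (C.cons (nat_lit 1540) (C.node (nat_lit 3) (nat_lit 4) (nat_lit 10) (C.cons (nat_lit 1304) (C.node (nat_lit 2) (nat_lit 8) (nat_lit 10) (C.cons (nat_lit 1316) (C.miq (nat_lit 709318704) (nat_lit 1414446253032314966480847145)) (C.cons (nat_lit 1284) (C.node (nat_lit 3) (nat_lit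 4) (nat_lit 6) (C.cons (nat_lit 90) (C.miq (nat_lit 2588083990) (nat_lit 1576450134450454314121560259)) (C.cons (nat_lit 88) (C.node (nat_lit 3) (nat_lit 7) (nat_lit 10) (C.cons (nat_lit 1192)
  (C.miq (nat_lit 1518498624) (nat_lit 1552263796433479795293356185)) (C.cons (nat_lit 1160) (C.node (nat_lit 5) (nat_lit 7) (nat_lit 10) (C.cons (nat_lit 1184) (C.node (nat_lit 4) (nat_lit 5) (nat_lit 7) (C.cons (nat_lit 432) (C.miq (nat_lit 2221102880) (nat_lit 106390950930675359621644453)) (C.cons (nat_lit 176) (C.node (nat_lit 4) (nat_lit 7) (nat_lit 8) (C.cons (nat_lit 400) (C.node (nat_lit 5) (nat_lit 8) (nat_lit 10) (C.cons (nat_lit 1314) (C.miq (nat_lit 1366329923) (nat_lit 235746013877705725324100888)) (C.cons (nat_lit 1312) (C.node (nat_lit 1) (nat_lit 8) (nat_lit 10) (C.cons (nat_lit 1346) (C.miq (nat_lit 2198250609) (nat_lit 712082137437583823731885202)) (C.cons (nat_lit 1282) (C.node (nat_lit 6) (nat_lit 8) (nat_lit 10) (C.cons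 (nat_lit 1344) (C.node (nat_lit 1) (nat_lit 3) (nat_lit 4) (C.cons (nat_lit 62) (C.miq (nat_lit 2537753106) (nat_lit 184976516074016134032917511)) (C.cons (nat_lit 58) (C.miq (nat_lit 1486958708) (nat_lit 1549843970740717195919229081)) (C.cons (nat_lit 30) (C.miq (nat_lit 2537753106) (nat_lit 184976516074016134030820359)) (C.cons (nat_lit 26) (C.node (nat_lit 2) (nat_lit 3) (nat_lit 4) (C.cons (nat_lit 60) (C.miq (nat_lit 1470308484) (nat_lit 1402355057604065887107154197)) (C.cons (nat_lit 28) (C.node (nat_lit 2) (nat_lit 3) (nat_lit 7) (C.cons (nat_lit 398) (C.miq (nat_lit 1412565639) (nat_lit 33852966982024428151244673)) (C.cons (nat_lit 396) (C.miq (nat_lit 1412565639) (nat_lit 33852966982024428151113601)) (C.cons (nat_lit 142) (C.miq (nat_lit 1685260818) (nat_lit 184976515853339752297006087)) (C.cons (nat_lit 140) (C.node (nat_lit 1) (nat_lit 6) (nat_lit 10) C.nil) C.nil))))) C.nil))) C.nil))))) C.nil)) C.nil))) C.nil))) C.nil))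 C.nil))) C.nil)) C.nil))) C.nil))) C.nil))) (C.cons (nat_lit 1048) (C.node (nat_lit 4) (nat_lit 8) (nat_lit 10) (C.cons (nat_lit 1296) (C.node (nat_lit 3) (nat_lit 7) (nat_lit 10) (C.cons (nat_lit 1192) (C.node (nat_lit 2) (nat_lit 5) (nat_lit 10) (C.cons (nat_lit 1316) (C.miq (nat_lit 981759264) (nat_lit 1566770684907926512414818469)) (C.cons (nat_lit 1060) (C.node (nat_lit 3) (nat_lit 7) (nat_lit 9) (C.cons (nat_lit 650) (C.miq (nat_lit 933663040) (nat_lit 1470064661966612251416789523)) (C.cons (nat_lit 648) (C.node (nat_lit 4) (nat_lit 5) (nat_lit 7) (C.cons (nat_lit 432) (C.miq (nat_lit 1666654340) (nat_lit 1441043487856171639590879509)) (C.cons (nat_lit 176) (C.node (nat_lit 4) (nat_lit 7) (nat_lit 8) (C.cons (nat_lit 400) (C.node (nat_lit 5) (nat_lit 8) (nat_lit 10) (C.cons (nat_lit 1314) (C.miq (nat_lit 1098938963) (nat_lit 313114609961363600168256680)) (C.cons (nat_lit 1312) (C.node (nat_lit 1) (nat_lit 5) (nat_lit 10)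 (C.cons (nat_lit 1570) (C.miq (nat_lit 1393141569) (nat_lit 712086269476731137301873810)) (C.cons (nat_lit 1058) (C.node (nat_lit 5) (nat_lit 9) (nat_lit 10) (C.cons (nat_lit 1568) (C.node (nat_lit 1) (nat_lit 3) (nat_lit 7) (C.cons (nat_lit 398) (C.miq (nat_lit 1417152035) (nat_lit 483575806848879520698466893)) (C.cons (nat_lit 394) (C.miq (nat_lit 2241933383) (nat_lit 1279050785253045659940028569)) (C.cons (nat_lit 142) (C.miq (nat_lit 1685260818) (nat_lit 184976515853339752297006087)) (C.cons (nat_lit 138) (C.node (nat_lit 2) (nat_lit 3) (nat_lit 7) (C.cons (nat_lit 396) (C.miq (nat_lit 1417152035) (nat_lit 483575806848879520698335821)) (C.cons (nat_lit 140) (C.node (nat_lit 1) (nat_lit 9) (nat_lit 10) C.nil) C.nil))) C.nil))))) C.nil)) C.nil))) C.nil))) C.nil)) C.nil))) C.nil))) C.nil))) (C.cons (nat_lit 1160) (C.node (nat_lit 5) (nat_lit 7) (nat_lit 10) (C.cons (nat_lit 1184) (C.node (nat_lit 4) (nat_lit 5) (nat_lit 7) (C.cons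 (nat_lit 432) (C.node (nat_lit 4) (nat_lit 8) (nat_lit 9) (C.cons (nat_lit 792) (C.miq (nat_lit 1669603415) (nat_lit 957473160010319969708408997)) (C.cons (nat_lit 784) (C.node (nat_lit 6) (nat_lit 7) (nat_lit 8) (C.cons (nat_lit 456) (C.miq (nat_lit 662922320) (nat_lit 551281038936204869099914353)) (C.cons (nat_lit 448) (C.node (nat_lit 3) (nat_lit 6) (nat_lit 7) (C.cons (nat_lit 232)
  (C.node (nat_lit 6) (nat_lit 7) (nat_lit 9) (C.cons (nat_lit 704) (C.node (nat_lit 3) (nat_lit 4) (nat_lit 9) (C.cons (nat_lit 568) (C.miq (nat_lit 341248310) (nat_lit 522259551338079829025620557)) (C.cons (nat_lit 536) (C.node (nat_lit 4) (nat_lit 5) (nat_lit 9) (C.cons (nat_lit 560) (C.node (nat_lit 3) (nat_lit 7) (nat_lit 9) (C.cons (nat_lit 650) (C.miq (nat_lit 391418720) (nat_lit 522265749477582674613830221)) (C.cons (nat_lit 648) (C.node (nat_lit 1) (nat_lit 5) (nat_lit 7) C.nil) C.nil))) C.nil)) C.nil))) C.nil)) (C.cons (nat_lit 200) (C.miq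 (nat_lit 1466139680) (nat_lit 241790642727513827188736277)) C.nil))) C.nil))) C.nil))) (C.cons (nat_lit 176) (C.node (nat_lit 4) (nat_lit 7) (nat_lit 8) (C.cons (nat_lit 400) (C.node (nat_lit 2) (nat_lit 3) (nat_lit 7) (C.cons (nat_lit 398) (C.miq (nat_lit 1417152035) (nat_lit 483575806848879520698466893)) (C.cons (nat_lit 396) (C.miq (nat_lit 1417152035) (nat_lit 483575806848879520698335821)) (C.cons (nat_lit 142) (C.miq (nat_lit 1685260818) (nat_lit 184976515853339752297006087)) (C.cons (nat_lit 140) (C.node (nat_lit 3) (nat_lit 4) (nat_lit 6) (C.cons (nat_lit 346) (C.miq (nat_lit 2222274080) (nat_lit 212776423032555878970884685)) (C.cons (nat_lit 344) (C.miq (nat_lit 2222274080) (nat_lit 212776423031992929017463373)) (C.cons (nat_lit 90) (C.miq (nat_lit 2588083990) (nat_lit 1266965124629109245396779203)) (C.cons (nat_lit 88) (C.node (nat_lit 1) (nat_lit 2) (nat_lit 7) (C.cons (nat_lit 390) (C.node (nat_lit 1) (nat_lit 4) (nat_lit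 6) (C.cons (nat_lit 338) (C.miq (nat_lit 1384384278) (nat_lit 334893426027709135370453187)) (C.cons (nat_lit 82) (C.node (nat_lit 4) (nat_lit 6) (nat_lit 8) (C.cons (nat_lit 336) (C.node (nat_lit 2) (nat_lit 6) (nat_lit 8) (C.cons (nat_lit 356) (C.miq (nat_lit 2188596800) (nat_lit 169255093529243978447783025)) (C.cons (nat_lit 324) (C.node (nat_lit 1) (nat_lit 2) (nat_lit 4) (C.cons (nat_lit 62) (C.miq (nat_lit 946950308) (nat_lit 471482213431444266919527537)) (C.cons (nat_lit 54) (C.miq (nat_lit 1517371522) (nat_lit 1414444205393341413899763989)) (C.cons (nat_lit 30) (C.miq (nat_lit 2537753106) (nat_lit 184976516074016134030820359)) C.nil)))) C.nil))) C.nil)) C.nil))) (C.cons (nat_lit 134) (C.node (nat_lit 2) (nat_lit 7) (nat_lit 8) (C.cons (nat_lit 388) (C.node (nat_lit 1) (nat_lit 4) (nat_lit 6) (C.cons (nat_lit 338) (C.node (nat_lit 2) (nat_lit 6) (nat_lit 8) (C.cons (nat_lit 356) (C.miq (nat_lit 2188596800) (nat_lit 169255093529243978447783025))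 (C.cons (nat_lit 324) (C.node (nat_lit 3) (nat_lit 4) (nat_lit 8) (C.cons (nat_lit 280) (C.node (nat_lit 3) (nat_lit 4) (nat_lit 9) C.nil) C.nil)) C.nil))) (C.cons (nat_lit 82) (C.node (nat_lit 4) (nat_lit 6) (nat_lit 8) (C.cons (nat_lit 336) (C.node (nat_lit 1) (nat_lit 4) (nat_lit 2) (C.cons (nat_lit 62) (C.miq (nat_lit 2537753106) (nat_lit 184976516074016134032917511)) C.nil)) C.nil)) C.nil))) C.nil)) C.nil))) C.nil))))) C.nil))))) C.nil)) C.nil))) C.nil)) C.nil))) C.nil)) C.nil))) C.nil))) C.nil))) C.nil))) C.nil)))) C.nil))) (C.cons (nat_lit 1168) (C.node (nat_lit 6) (nat_lit 7) (nat_lit 9) (C.cons (nat_lit 736) (C.node (nat_lit 2) (nat_lit 5) (nat_lit 6) (C.cons (nat_lit 358) (C.miq (nat_lit 895944740) (nat_lit 889772225671809955840393493)) (C.cons (nat_lit 356) (C.miq (nat_lit 895944740) (nat_lit 889772225671809947250458901)) (C.cons (nat_lit 102) (C.miq (nat_lit 446046325) (nat_lit 1934283193241511149573243045)) (C.cons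 (nat_lit 100) (C.node (nat_lit 1) (nat_lit 2) (nat_lit 6) (C.cons (nat_lit 326) (C.node (nat_lit 1) (nat_lit 6) (nat_lit 9) (C.cons (nat_lit 578) (C.node (nat_lit 5) (nat_lit 6) (nat_lit 8) (C.cons (nat_lit 352) (C.node (nat_lit 6) (nat_lit 8) (nat_lit 9) (C.cons (nat_lit 832) (C.node (nat_lit 2) (nat_lit 7) (nat_lit 8) (C.cons (nat_lit 396) (C.miq (nat_lit 929399360) (nat_lit 889774882030821965705576725)) (C.cons (nat_lit 388) (C.node (nat_lit 4) (nat_lit 6) (nat_lit 8) (C.cons (nat_lit 344) (C.miq (nat_lit 913671200) (nat_lit 889774882016185266852921621)) (C.cons (nat_lit 336)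
  (C.node (nat_lit 4) (nat_lit 7) (nat_lit 8) (C.cons (nat_lit 434) (C.miq (nat_lit 643041656) (nat_lit 1374553766815733711593670529)) (C.cons (nat_lit 432) (C.miq (nat_lit 643041656) (nat_lit 1374553766815733711593539457)) (C.cons (nat_lit 402) (C.miq (nat_lit 880936726) (nat_lit 334883317208579094354460867)) (C.cons (nat_lit 400) (C.node (nat_lit 1) (nat_lit 2) (nat_lit 7) (C.cons (nat_lit 142) (C.node (nat_lit 1) (nat_lit 7) (nat_lit 9) (C.cons (nat_lit 642) (C.node (nat_lit 3) (nat_lit 7) (nat_lit 9) (C.cons (nat_lit 648) (C.node (nat_lit 1) (nat_lit 4) (nat_lit 6) (C.cons (nat_lit 90) (C.miq (nat_lit 1377175348) (nat_lit 394130791188824899762913433)) (C.cons (nat_lit 82) (C.node (nat_lit 3) (nat_lit 4) (nat_lit 6) (C.cons (nat_lit 88) (C.node (nat_lit 1) (nat_lit 4) (nat_lit 7) (C.cons (nat_lit 178) (C.miq (nat_lit 910237783) (nat_lit 99134536811851703754293413)) (C.cons (nat_lit 146) (C.node (nat_lit 4) (nat_lit 5) (nat_lit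 7) (C.cons (nat_lit 176) (C.node (nat_lit 1) (nat_lit 6) (nat_lit 10) (C.cons (nat_lit 1098) (C.miq (nat_lit 928387594) (nat_lit 889789657801330161108452359)) (C.cons (nat_lit 1090) (C.node (nat_lit 1) (nat_lit 7) (nat_lit 10) (C.cons (nat_lit 1186) (C.miq (nat_lit 358786960) (nat_lit 120911600888435395531704193)) (C.cons (nat_lit 1154) (C.node (nat_lit 6) (nat_lit 7) (nat_lit 8) (C.cons (nat_lit 456) (C.node (nat_lit 3) (nat_lit 6) (nat_lit 10) C.nil) C.nil)) C.nil))) C.nil))) C.nil)) C.nil))) C.nil)) C.nil))) C.nil)) C.nil)) (C.cons (nat_lit 134) (C.node (nat_lit 2) (nat_lit 3) (nat_lit 7) (C.cons (nat_lit 140) (C.node (nat_lit 1) (nat_lit 2) (nat_lit 9) (C.cons (nat_lit 550) (C.node (nat_lit 2) (nat_lit 8) (nat_lit 9) (C.cons (nat_lit 772) (C.node (nat_lit 1) (nat_lit 4) (nat_lit 7) (C.cons (nat_lit 178) (C.miq (nat_lit 844564756) (nat_lit 199475582754048214914171411)) (C.cons (nat_lit 146) (C.node (nat_lit 4) (nat_lit 5) (nat_lit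 7) (C.cons (nat_lit 176) (C.node (nat_lit 1) (nat_lit 2) (nat_lit 3) (C.cons (nat_lit 30) (C.node (nat_lit 1) (nat_lit 4) (nat_lit 6) (C.cons (nat_lit 82) (C.node (nat_lit 2) (nat_lit 4) (nat_lit 5) (C.cons (nat_lit 52) (C.node (nat_lit 3) (nat_lit 4) (nat_lit 6) (C.cons (nat_lit 88) (C.node (nat_lit 1) (nat_lit 5) (nat_lit 6) (C.cons (nat_lit 106) (C.node (nat_lit 1) (nat_lit 4) (nat_lit 5) C.nil) C.nil)) C.nil)) C.nil)) C.nil)) (C.cons (nat_lit 14) (C.node (nat_lit 1) (nat_lit 2) (nat_lit 4) (C.cons (nat_lit 22) (C.node (nat_lit 1) (nat_lit 4) (nat_lit 6) (C.cons (nat_lit 90) (C.node (nat_lit 1) (nat_lit 5) (nat_lit 6) (C.cons (nat_lit 98) (C.node (nat_lit 1) (nat_lit 4) (nat_lit 5) C.nil) C.nil)) (C.cons (nat_lit 82) (C.node (nat_lit 3) (nat_lit 4) (nat_lit 6) (C.cons (nat_lit 88) (C.node (nat_lit 1) (nat_lit 5) (nat_lit 6) (C.cons (nat_lit 98) (C.node (nat_lit 3) (nat_lit 5) (nat_lit 6) C.nil) C.nil)) C.nil)) C.nil))) C.nil))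 C.nil))) C.nil)) C.nil))) C.nil)) (C.cons (nat_lit 518) (C.node (nat_lit 1) (nat_lit 4) (nat_lit 6) (C.cons (nat_lit 90) (C.node (nat_lit 1) (nat_lit 5) (nat_lit 6) (C.cons (nat_lit 98) (C.node (nat_lit 1) (nat_lit 6) (nat_lit 10) (C.cons (nat_lit 1090) (C.node (nat_lit 3) (nat_lit 5) (nat_lit 6) (C.cons (nat_lit 104) (C.node (nat_lit 1) (nat_lit 4) (nat_lit 7) (C.cons (nat_lit 178) (C.miq (nat_lit 829580368) (nat_lit 162006924985953236755481713)) (C.cons (nat_lit 146) (C.node (nat_lit 6) (nat_lit 7) (nat_lit 8) (C.cons (nat_lit 456) (C.miq (nat_lit 2249814848) (nat_lit 698794560060974234990739609)) C.nil)) C.nil))) C.nil)) C.nil)) C.nil)) (C.cons (nat_lit 82) (C.node (nat_lit 3) (nat_lit 4) (nat_lit 6) (C.cons (nat_lit 88) (C.node (nat_lit 1) (nat_lit 4) (nat_lit 7) (C.cons (nat_lit 178) (C.node (nat_lit 5) (nat_lit 7) (nat_lit 8) (C.cons (nat_lit 416) (C.node (nat_lit 1) (nat_lit 7) (nat_lit 9) (C.cons (nat_lit 650) (C.miq (nat_lit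 928420160) (nat_lit 889780268551585986950267411)) (C.cons (nat_lit 642) (C.node (nat_lit 3) (nat_lit 7) (nat_lit 9) (C.cons (nat_lit 648) (C.node (nat_lit 2) (nat_lit 4) (nat_lit 5) (C.cons (nat_lit 564)
  (C.miq (nat_lit 628528144) (nat_lit 889780268527379138891416083)) (C.cons (nat_lit 60) (C.miq (nat_lit 339113248) (nat_lit 106389069291284544327844005)) (C.cons (nat_lit 52) (C.node (nat_lit 6) (nat_lit 7) (nat_lit 8) C.nil) C.nil)))) C.nil)) C.nil))) C.nil)) (C.cons (nat_lit 146) (C.node (nat_lit 4) (nat_lit 5) (nat_lit 7) (C.cons (nat_lit 176) (C.node (nat_lit 1) (nat_lit 5) (nat_lit 6) (C.cons (nat_lit 106) (C.node (nat_lit 1) (nat_lit 6) (nat_lit 10) (C.cons (nat_lit 1090) (C.node (nat_lit 6) (nat_lit 7) (nat_lit 8) (C.cons (nat_lit 456) (C.node (nat_lit 3) (nat_lit 6) (nat_lit 10) C.nil) C.nil)) C.nil)) (C.cons (nat_lit 98) (C.node (nat_lit 3) (nat_lit 5) (nat_lit 6) (C.cons (nat_lit 104) (C.node (nat_lit 2) (nat_lit 4)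 (nat_lit 9) C.nil) C.nil)) C.nil))) C.nil)) C.nil))) C.nil)) C.nil))) C.nil))) C.nil)) C.nil))) C.nil))))) C.nil))) C.nil))) C.nil)) C.nil)) C.nil)) (C.cons (nat_lit 70) (C.node (nat_lit 2) (nat_lit 6) (nat_lit 8) (C.cons (nat_lit 324) (C.node (nat_lit 1) (nat_lit 6) (nat_lit 9) (C.cons (nat_lit 834) (C.node (nat_lit 5) (nat_lit 6) (nat_lit 8) (C.cons (nat_lit 352) (C.node (nat_lit 2) (nat_lit 8) (nat_lit 9) (C.cons (nat_lit 804) (C.miq (nat_lit 2164430453) (nat_lit 1246417351439668909707690720)) (C.cons (nat_lit 772) (C.node (nat_lit 4) (nat_lit 6) (nat_lit 8) (C.cons (nat_lit 344) (C.miq (nat_lit 913671200) (nat_lit 889774882016185266852921621)) (C.cons (nat_lit 336) (C.node (nat_lit 5) (nat_lit 7) (nat_lit 8) (C.cons (nat_lit 434) (C.miq (nat_lit 1382117528) (nat_lit 84632813306397933122488193)) (C.cons (nat_lit 432) (C.miq (nat_lit 643041656) (nat_lit 1374553766815733711593539457)) (C.cons (nat_lit 418) (C.miq (nat_lit 1382117528)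 (nat_lit 84632518158492753769662337)) (C.cons (nat_lit 416) (C.node (nat_lit 1) (nat_lit 2) (nat_lit 9) (C.cons (nat_lit 550) (C.node (nat_lit 4) (nat_lit 5) (nat_lit 7) (C.cons (nat_lit 178) (C.miq (nat_lit 844564756) (nat_lit 199475582754048214914171411)) (C.cons (nat_lit 176) (C.node (nat_lit 1) (nat_lit 2) (nat_lit 4) (C.cons (nat_lit 30) (C.node (nat_lit 1) (nat_lit 4) (nat_lit 6) (C.cons (nat_lit 82) (C.node (nat_lit 2) (nat_lit 4) (nat_lit 5) (C.cons (nat_lit 52) (C.node (nat_lit 3) (nat_lit 4) (nat_lit 6) (C.cons (nat_lit 88) (C.node (nat_lit 1) (nat_lit 4) (nat_lit 7) (C.cons (nat_lit 402) (C.miq (nat_lit 1631819888) (nat_lit 36278639955450147330656129)) (C.cons (nat_lit 146) (C.node (nat_lit 4) (nat_lit 7) (nat_lit 8) (C.cons (nat_lit 400) (C.node (nat_lit 1) (nat_lit 7) (nat_lit 9) (C.cons (nat_lit 650) (C.miq (nat_lit 2266237234) (nat_lit 176508279952560499044778573)) (C.cons (nat_lit 642) (C.node (nat_lit 3) (nat_lit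 7) (nat_lit 9) (C.cons (nat_lit 648) (C.node (nat_lit 2) (nat_lit 3) (nat_lit 7) (C.cons (nat_lit 396) (C.miq (nat_lit 1199923760) (nat_lit 502934114967371940327129677)) (C.cons (nat_lit 140) (C.node (nat_lit 6) (nat_lit 7) (nat_lit 8) (C.cons (nat_lit 456) (C.miq (nat_lit 372545648) (nat_lit 106395267581942596237854593)) C.nil)) C.nil))) C.nil)) C.nil))) C.nil)) C.nil))) C.nil)) C.nil)) C.nil)) (C.cons (nat_lit 22) (C.node (nat_lit 1) (nat_lit 4) (nat_lit 6) (C.cons (nat_lit 90) (C.node (nat_lit 1) (nat_lit 5) (nat_lit 6) (C.cons (nat_lit 98) (C.node (nat_lit 1) (nat_lit 6) (nat_lit 10) (C.cons (nat_lit 1090) (C.node (nat_lit 3) (nat_lit 5) (nat_lit 6) (C.cons (nat_lit 104) (C.node (nat_lit 1) (nat_lit 4) (nat_lit 5) (C.cons (nat_lit 306) (C.miq (nat_lit 2014579043) (nat_lit 369934123694636817291280973)) (C.cons (nat_lit 50) (C.node (nat_lit 1) (nat_lit 4) (nat_lit 7) (C.cons (nat_lit 402) (C.node (nat_lit 1) (nat_lit 4) (nat_lit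 10) (C.cons (nat_lit 1042) (C.node (nat_lit 2) (nat_lit 4) (nat_lit 5) (C.cons (nat_lit 60) (C.miq (nat_lit 341271328) (nat_lit 212774541392602113723662925)) C.nil)) C.nil)) (C.cons (nat_lit 146) (C.miq (nat_lit 2168952368) (nat_lit 176538606093851972689527373)) C.nil))) C.nil))) C.nil)) C.nil)) C.nil)) (C.cons (nat_lit 82) (C.node (nat_lit 3) (nat_lit 4) (nat_lit 6) (C.cons (nat_lit 88)
  (C.node (nat_lit 1) (nat_lit 4) (nat_lit 7) (C.cons (nat_lit 402) (C.miq (nat_lit 907282823) (nat_lit 99134739726035213198952321)) (C.cons (nat_lit 146) (C.node (nat_lit 4) (nat_lit 7) (nat_lit 8) (C.cons (nat_lit 400) (C.node (nat_lit 3) (nat_lit 8) (nat_lit 9) (C.cons (nat_lit 792) (C.miq (nat_lit 407333168) (nat_lit 483573925195699575445848653)) (C.cons (nat_lit 776) (C.node (nat_lit 6) (nat_lit 7) (nat_lit 8) (C.cons (nat_lit 456) (C.miq (nat_lit 372545648) (nat_lit 106395267581942596237854593)) (C.cons (nat_lit 448) (C.node (nat_lit 1) (nat_lit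 5) (nat_lit 6) (C.cons (nat_lit 106) (C.node (nat_lit 1) (nat_lit 6) (nat_lit 10) C.nil) C.nil)) C.nil))) C.nil))) C.nil)) C.nil))) C.nil)) C.nil))) C.nil))) C.nil))) (C.cons (nat_lit 518) (C.node (nat_lit 1) (nat_lit 4) (nat_lit 6) (C.cons (nat_lit 90) (C.node (nat_lit 1) (nat_lit 5) (nat_lit 6) (C.cons (nat_lit 98) (C.node (nat_lit 1) (nat_lit 6) (nat_lit 10) (C.cons (nat_lit 1090) (C.node (nat_lit 3) (nat_lit 5) (nat_lit 6) (C.cons (nat_lit 104) (C.node (nat_lit 1) (nat_lit 4) (nat_lit 10) (C.cons (nat_lit 1298) (C.miq (nat_lit 964780196) (nat_lit 1008245793931364377564415089)) (C.cons (nat_lit 1042) (C.node (nat_lit 1) (nat_lit 7) (nat_lit 9) (C.cons (nat_lit 650) (C.miq (nat_lit 1900712800) (nat_lit 1259736140416768317575987789)) (C.cons (nat_lit 642) (C.node (nat_lit 3) (nat_lit 7) (nat_lit 9) (C.cons (nat_lit 648) (C.node (nat_lit 4) (nat_lit 5) (nat_lit 7) (C.cons (nat_lit 178) (C.miq (nat_lit 2168952368) (nat_lit 215224232321520106280125005))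 (C.cons (nat_lit 176) (C.node (nat_lit 6) (nat_lit 7) (nat_lit 10) (C.cons (nat_lit 1224) (C.miq (nat_lit 426983590) (nat_lit 783385591466717802414998641)) C.nil)) C.nil))) C.nil)) C.nil))) C.nil))) C.nil)) C.nil)) C.nil)) (C.cons (nat_lit 82) (C.node (nat_lit 3) (nat_lit 4) (nat_lit 6) (C.cons (nat_lit 88) (C.node (nat_lit 4) (nat_lit 7) (nat_lit 8) (C.cons (nat_lit 402) (C.miq (nat_lit 907282823) (nat_lit 99134739726035213198952321)) (C.cons (nat_lit 400) (C.node (nat_lit 3) (nat_lit 8) (nat_lit 9) (C.cons (nat_lit 792) (C.miq (nat_lit 407333168) (nat_lit 483573925195699575445848653)) (C.cons (nat_lit 776) (C.node (nat_lit 6) (nat_lit 7) (nat_lit 8) (C.cons (nat_lit 456) (C.miq (nat_lit 372545648) (nat_lit 106395267581942596237854593)) (C.cons (nat_lit 448) (C.node (nat_lit 1) (nat_lit 4) (nat_lit 7) (C.cons (nat_lit 178) (C.node (nat_lit 1) (nat_lit 7) (nat_lit 9) (C.cons (nat_lit 650) (C.miq (nat_lit 928420160) (nat_lit 889780268551585986950267411))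 (C.cons (nat_lit 642) (C.node (nat_lit 3) (nat_lit 7) (nat_lit 9) (C.cons (nat_lit 648) (C.node (nat_lit 1) (nat_lit 5) (nat_lit 6) (C.cons (nat_lit 106) (C.node (nat_lit 1) (nat_lit 6) (nat_lit 10) C.nil) C.nil)) C.nil)) C.nil))) (C.cons (nat_lit 146) (C.node (nat_lit 4) (nat_lit 5) (nat_lit 7) (C.cons (nat_lit 176) (C.node (nat_lit 3) (nat_lit 6) (nat_lit 8) (C.cons (nat_lit 1352) (C.node (nat_lit 1) (nat_lit 6) (nat_lit 10) C.nil) C.nil)) C.nil)) C.nil))) C.nil))) C.nil))) C.nil))) C.nil)) C.nil))) C.nil))) C.nil))))) C.nil))) C.nil))) C.nil)) (C.cons (nat_lit 578) (C.node (nat_lit 6) (nat_lit 8) (nat_lit 9) (C.cons (nat_lit 832) (C.node (nat_lit 1) (nat_lit 7) (nat_lit 9) (C.cons (nat_lit 650) (C.node (nat_lit 1) (nat_lit 7) (nat_lit 10) (C.cons (nat_lit 1186) (C.miq (nat_lit 358786960) (nat_lit 120911600888435395531704193)) (C.cons (nat_lit 1154) (C.node (nat_lit 2) (nat_lit 3) (nat_lit 7) (C.cons (nat_lit 396) (C.miq (nat_lit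 929399360) (nat_lit 889774882030821965705576725)) (C.cons (nat_lit 140) (C.node (nat_lit 3) (nat_lit 5) (nat_lit 6) (C.cons (nat_lit 106) (C.miq (nat_lit 1517379731) (nat_lit 1395102351510199180018188877)) (C.cons (nat_lit 104) (C.node (nat_lit 6) (nat_lit 7) (nat_lit 10) (C.cons (nat_lit 1224) (C.miq (nat_lit 396661600) (nat_lit 1412035152713954007805133389)) (C.cons (nat_lit 1216) (C.ref (nat_lit 120) (nat_lit 11649936536080)) C.nil))) C.nil))) C.nil))) C.nil))) (C.cons (nat_lit 642) (C.node (nat_lit 3) (nat_lit 7) (nat_lit 9) (C.cons (nat_lit 648)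
  (C.node (nat_lit 3) (nat_lit 5) (nat_lit 6) (C.cons (nat_lit 106) (C.node (nat_lit 5) (nat_lit 6) (nat_lit 8) (C.cons (nat_lit 352) (C.node (nat_lit 3) (nat_lit 4) (nat_lit 6) (C.cons (nat_lit 344) (C.miq (nat_lit 913671200) (nat_lit 889774882016185266852921621)) (C.cons (nat_lit 88) (C.node (nat_lit 5) (nat_lit 7) (nat_lit 8) (C.cons (nat_lit 434) (C.miq (nat_lit 643041656) (nat_lit 1374553766815733711593670529)) (C.cons (nat_lit 432) (C.miq (nat_lit 643041656) (nat_lit 1374553766815733711593539457)) (C.cons (nat_lit 418) (C.miq (nat_lit 2555578134) (nat_lit 359061834098519505378083011)) (C.cons (nat_lit 416) (C.node (nat_lit 1) (nat_lit 4) (nat_lit 6) (C.cons (nat_lit 338) (C.node (nat_lit 1) (nat_lit 6) (nat_lit 10) (C.cons (nat_lit 1090) (C.node (nat_lit 4) (nat_lit 7) (nat_lit 8) (C.cons (nat_lit 400) (C.node (nat_lit 1) (nat_lit 7) (nat_lit 8) (C.cons (nat_lit 398) (C.miq (nat_lit 1367630624) (nat_lit 408637901007594525757342285))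 (C.cons (nat_lit 394) (C.miq (nat_lit 2822047510) (nat_lit 359071942914271795133153475)) (C.cons (nat_lit 390) (C.miq (nat_lit 1384384278) (nat_lit 334893426027709135370453187)) (C.cons (nat_lit 386) (C.node (nat_lit 6) (nat_lit 7) (nat_lit 8) (C.cons (nat_lit 456) (C.node (nat_lit 6) (nat_lit 7) (nat_lit 10) C.nil) C.nil)) C.nil))))) C.nil)) C.nil)) (C.cons (nat_lit 82) (C.node (nat_lit 4) (nat_lit 6) (nat_lit 8) (C.cons (nat_lit 336) (C.node (nat_lit 1) (nat_lit 6) (nat_lit 8) (C.cons (nat_lit 1346) (C.node (nat_lit 5) (nat_lit 8) (nat_lit 10) (C.cons (nat_lit 1316) (C.miq (nat_lit 1971716769) (nat_lit 425545485665892866281571335)) (C.cons (nat_lit 1312) (C.node (nat_lit 2) (nat_lit 7) (nat_lit 8) (C.cons (nat_lit 398) (C.miq (nat_lit 1175652999) (nat_lit 128148959551036799652333441)) (C.cons (nat_lit 396) (C.miq (nat_lit 1199923760) (nat_lit 502934114967371940327129677)) (C.cons (nat_lit 390) (C.miq (nat_lit 1444022919) (nat_lit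 84627851405839033877006209)) (C.cons (nat_lit 388) (C.node (nat_lit 1) (nat_lit 2) (nat_lit 7) (C.cons (nat_lit 142) (C.node (nat_lit 1) (nat_lit 4) (nat_lit 10) (C.cons (nat_lit 1050) (C.miq (nat_lit 1412893202) (nat_lit 184968694433851984051045383)) (C.cons (nat_lit 1042) (C.node (nat_lit 1) (nat_lit 7) (nat_lit 10) (C.cons (nat_lit 1186) (C.miq (nat_lit 358786960) (nat_lit 120911600888435395531704193)) C.nil)) C.nil))) (C.cons (nat_lit 134) (C.node (nat_lit 2) (nat_lit 3) (nat_lit 7) C.nil) C.nil))) C.nil))))) C.nil))) (C.cons (nat_lit 322) (C.node (nat_lit 1) (nat_lit 6) (nat_lit 10) (C.cons (nat_lit 1090) (C.node (nat_lit 6) (nat_lit 7) (nat_lit 8) (C.cons (nat_lit 456) (C.node (nat_lit 3) (nat_lit 6) (nat_lit 10) C.nil) C.nil)) C.nil)) C.nil))) C.nil)) C.nil))) C.nil))))) C.nil))) C.nil)) (C.cons (nat_lit 104) (C.node (nat_lit 1) (nat_lit 5) (nat_lit 6) (C.cons (nat_lit 354) (C.node (nat_lit 4) (nat_lit 6) (nat_lit 8) (C.cons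 (nat_lit 344) (C.miq (nat_lit 913671200) (nat_lit 889774882016185266852921621)) (C.cons (nat_lit 336) (C.node (nat_lit 5) (nat_lit 7) (nat_lit 8) (C.cons (nat_lit 432) (C.miq (nat_lit 643041656) (nat_lit 1374553766815733711593539457)) (C.cons (nat_lit 416) (C.node (nat_lit 1) (nat_lit 4) (nat_lit 6) (C.cons (nat_lit 90) (C.node (nat_lit 1) (nat_lit 6) (nat_lit 10) (C.cons (nat_lit 1090) (C.node (nat_lit 4) (nat_lit 5) (nat_lit 7) (C.cons (nat_lit 178) (C.miq (nat_lit 1365406768) (nat_lit 84627851135899136745603225)) (C.cons (nat_lit 176) (C.node (nat_lit 1) (nat_lit 4) (nat_lit 7) (C.cons (nat_lit 402) (C.miq (nat_lit 2171171888) (nat_lit 698794560045774586252165273)) (C.cons (nat_lit 146) (C.node (nat_lit 6) (nat_lit 7) (nat_lit 8) (C.cons (nat_lit 456) (C.miq (nat_lit 2249814848) (nat_lit 698794560060974234990739609)) C.nil)) C.nil))) C.nil))) C.nil)) (C.cons (nat_lit 82) (C.node (nat_lit 3) (nat_lit 4) (nat_lit 6) (C.cons (nat_lit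 88) (C.node (nat_lit 1) (nat_lit 3) (nat_lit 6) (C.cons (nat_lit 1098) (C.node (nat_lit 6) (nat_lit 7) (nat_lit 10) (C.cons (nat_lit 1216) (C.node (nat_lit 6) (nat_lit 8) (nat_lit 10)
  (C.cons (nat_lit 1344) (C.node (nat_lit 3) (nat_lit 6) (nat_lit 7) (C.cons (nat_lit 456) (C.node (nat_lit 1) (nat_lit 7) (nat_lit 10) (C.cons (nat_lit 1186) (C.miq (nat_lit 358786960) (nat_lit 120911600888435395531704193)) (C.cons (nat_lit 1154) (C.node (nat_lit 2) (nat_lit 3) (nat_lit 7) C.nil) C.nil))) C.nil)) C.nil)) C.nil)) (C.cons (nat_lit 74) (C.node (nat_lit 1) (nat_lit 6) (nat_lit 10) (C.cons (nat_lit 1090) (C.node (nat_lit 6) (nat_lit 7) (nat_lit 8) (C.cons (nat_lit 456) (C.node (nat_lit 3) (nat_lit 6) (nat_lit 10) C.nil) C.nil)) C.nil)) C.nil))) C.nil)) C.nil))) C.nil))) C.nil))) (C.cons (nat_lit 98) (C.node (nat_lit 5) (nat_lit 6) (nat_lit 8) (C.cons (nat_lit 352) (C.node (nat_lit 6) (nat_lit 7) (nat_lit 8) (C.cons (nat_lit 456) (C.node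 (nat_lit 6) (nat_lit 7) (nat_lit 10) (C.cons (nat_lit 1216) (C.node (nat_lit 3) (nat_lit 4) (nat_lit 6) (C.cons (nat_lit 90) (C.miq (nat_lit 2249814848) (nat_lit 698794560060974234990739609)) (C.cons (nat_lit 88) (C.node (nat_lit 4) (nat_lit 7) (nat_lit 8) (C.cons (nat_lit 434) (C.miq (nat_lit 643041656) (nat_lit 1374553766815733711593670529)) (C.cons (nat_lit 432) (C.miq (nat_lit 643041656) (nat_lit 1374553766815733711593539457)) (C.cons (nat_lit 402) (C.miq (nat_lit 409552688) (nat_lit 1005836077253629512308818073)) (C.cons (nat_lit 400) (C.node (nat_lit 1) (nat_lit 3) (nat_lit 6) (C.cons (nat_lit 1098) (C.node (nat_lit 6) (nat_lit 8) (nat_lit 10) (C.cons (nat_lit 1344) (C.node (nat_lit 1) (nat_lit 4) (nat_lit 6) (C.cons (nat_lit 338) (C.node (nat_lit 1) (nat_lit 4) (nat_lit 10) (C.cons (nat_lit 1042) (C.node (nat_lit 1) (nat_lit 7) (nat_lit 10) (C.cons (nat_lit 1186) (C.miq (nat_lit 358786960) (nat_lit 120911600888435395531704193))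 C.nil)) C.nil)) C.nil)) C.nil)) (C.cons (nat_lit 74) (C.node (nat_lit 3) (nat_lit 6) (nat_lit 10) C.nil) C.nil))) C.nil))))) C.nil))) C.nil)) (C.cons (nat_lit 448) (C.node (nat_lit 3) (nat_lit 6) (nat_lit 7) (C.cons (nat_lit 1224) (C.node (nat_lit 1) (nat_lit 7) (nat_lit 10) (C.cons (nat_lit 1186) (C.miq (nat_lit 358786960) (nat_lit 120911600888435395531704193)) (C.cons (nat_lit 1154) (C.node (nat_lit 5) (nat_lit 7) (nat_lit 10) (C.cons (nat_lit 1184) (C.node (nat_lit 3) (nat_lit 4) (nat_lit 6) (C.cons (nat_lit 346) (C.miq (nat_lit 426983590) (nat_lit 783390313833200672060212337)) (C.cons (nat_lit 344) (C.miq (nat_lit 913671200) (nat_lit 889774882016185266852921621)) (C.cons (nat_lit 90) (C.miq (nat_lit 426983590) (nat_lit 783385591466717802414998641)) (C.cons (nat_lit 88) (C.node (nat_lit 1) (nat_lit 3) (nat_lit 6) (C.cons (nat_lit 330) (C.node (nat_lit 3) (nat_lit 5) (nat_lit 7) C.nil) (C.cons (nat_lit 74) (C.node (nat_lit 3)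 (nat_lit 6) (nat_lit 8) C.nil) C.nil))) C.nil))))) C.nil)) C.nil))) (C.cons (nat_lit 200) (C.node (nat_lit 6) (nat_lit 7) (nat_lit 10) (C.cons (nat_lit 1216) (C.node (nat_lit 3) (nat_lit 4) (nat_lit 6) (C.cons (nat_lit 346) (C.miq (nat_lit 913671200) (nat_lit 889774882016748216806342933)) (C.cons (nat_lit 344) (C.miq (nat_lit 913671200) (nat_lit 889774882016185266852921621)) (C.cons (nat_lit 90) (C.node (nat_lit 4) (nat_lit 6) (nat_lit 8) C.nil) C.nil)))) C.nil)) C.nil))) C.nil))) C.nil)) C.nil))) C.nil))) C.nil)) C.nil))) C.nil)) C.nil))) C.nil)) C.nil))) C.nil))))) (C.cons (nat_lit 704) (C.node (nat_lit 6) (nat_lit 7) (nat_lit 10) (C.cons (nat_lit 1224) (C.ref (nat_lit 121) (nat_lit 11649936536080)) (C.cons (nat_lit 1216) (C.ref (nat_lit 129) (nat_lit 11649936536080)) C.nil))) C.nil))) C.nil))) List.nil)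

theorem ok11_130 : okL par11 (nat_lit 131) c11_130 (nat_lit 130) = true := by decide +kernel

noncomputable def c11_131 : List C :=
  (List.cons (C.node (nat_lit 2) (nat_lit 7) (nat_lit 9) (C.cons (nat_lit 646) (C.node (nat_lit 4) (nat_lit 7) (nat_lit 9) (C.cons (nat_lit 688) (C.miq (nat_lit 2775712913) (nat_lit 199491779149593811874087443)) (C.cons (nat_lit 656) (C.node (nat_lit 4) (nat_lit 7) (nat_lit 10) (C.cons (nat_lit 1170) (C.miq (nat_lit 308574474) (nat_lit 256313856630702989978437505)) (C.cons (nat_lit 1168) (C.node (nat_lit 6) (nat_lit 7) (nat_lit 9) (C.cons (nat_lit 736) (C.miq (nat_lit 443097175) (nat_lit 1934293228270283880314962085)) (C.cons (nat_lit 704) (C.node (nat_lit 2) (nat_lit 4) (nat_lit 9) (C.cons (nat_lit 1556) (C.miq (nat_lit 373452969) (nat_lit 256304190409865505346422657)) (C.cons (nat_lit 564) (C.miq (nat_lit 1383483664) (nat_lit 256313247865067854224359955)) (C.cons (nat_lit 532) (C.node (nat_lit 2)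 (nat_lit 9) (nat_lit 10) (C.cons (nat_lit 1572) (C.miq (nat_lit 1500946960) (nat_lit 851104751399192184704140295)) (C.cons (nat_lit 1540) (C.node (nat_lit 2) (nat_lit 4) (nat_lit 10) (C.cons (nat_lit 1052) (C.node (nat_lit 2) (nat_lit 7) (nat_lit 10) (C.cons (nat_lit 1156) (C.node (nat_lit 4) (nat_lit 9) (nat_lit 10) (C.cons (nat_lit 1552) (C.node (nat_lit 1) (nat_lit 2) (nat_lit 4) (C.cons (nat_lit 54) (C.miq (nat_lit 2804222228) (nat_lit 199493734725141826400289299)) (C.cons (nat_lit 22) (C.node (nat_lit 2) (nat_lit 4) (nat_lit 5) (C.cons (nat_lit 52) (C.node (nat_lit 1) (nat_lit 4) (nat_lit 10) (C.cons (nat_lit 1298) (C.node (nat_lit 1) (nat_lit 4) (nat_lit 7) (C.cons (nat_lit 178) (C.miq (nat_lit 1651837204) (nat_lit 199493734350217157429821971)) (C.cons (nat_lit 146) (C.node (nat_lit 1) (nat_lit 6) (nat_lit 10) (C.cons (nat_lit 1098) (C.miq (nat_lit 2170571314) (nat_lit 235745644938320342296626204)) (C.cons (nat_lit 1090)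 (C.node (nat_lit 4) (nat_lit 5) (nat_lit 7) (C.cons (nat_lit 432) (C.miq (nat_lit 340961392) (nat_lit 62883161578457086839555969)) (C.cons (nat_lit 176) (C.node (nat_lit 4) (nat_lit 7) (nat_lit 8) (C.cons (nat_lit 400) (C.node (nat_lit 2) (nat_lit 3) (nat_lit 7) (C.cons (nat_lit 396) (C.miq (nat_lit 1417152035) (nat_lit 483575806848879520698335821)) (C.cons (nat_lit 140) (C.node (nat_lit 2) (nat_lit 7) (nat_lit 8) (C.cons (nat_lit 388) (C.node (nat_lit 2) (nat_lit 3) (nat_lit 8) (C.cons (nat_lit 270) (C.miq (nat_lit 916529224) (nat_lit 1317734124166639346754126101)) (C.cons (nat_lit 268) (C.node (nat_lit 4) (nat_lit 6) (nat_lit 9) (C.cons (nat_lit 848) (C.miq (nat_lit 342010000) (nat_lit 256311292716799541526726529)) (C.cons (nat_lit 592) (C.node (nat_lit 4) (nat_lit 6) (nat_lit 8) (C.cons (nat_lit 344) (C.miq (nat_lit 405972064) (nat_lit 324011138615216610646754417)) (C.cons (nat_lit 336) (C.node (nat_lit 3) (nat_lit 4) (nat_lit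 8) (C.cons (nat_lit 792) (C.miq (nat_lit 338864272) (nat_lit 1271808981193087807761745793)) (C.cons (nat_lit 280) (C.node (nat_lit 1) (nat_lit 4) (nat_lit 5) (C.cons (nat_lit 58) (C.node (nat_lit 1) (nat_lit 4) (nat_lit 6) C.nil) C.nil)) C.nil))) C.nil))) C.nil))) C.nil))) C.nil)) C.nil))) C.nil)) C.nil))) C.nil))) C.nil))) (C.cons (nat_lit 1042) (C.node (nat_lit 4) (nat_lit 8) (nat_lit 10) (C.cons (nat_lit 1296) (C.node (nat_lit 2) (nat_lit 3) (nat_lit 5) (C.cons (nat_lit 46) (C.node (nat_lit 2) (nat_lit 3) (nat_lit 7) (C.cons (nat_lit 396) (C.miq (nat_lit 2421258290) (nat_lit 42324320823898343354532236)) (C.cons (nat_lit 140) (C.node (nat_lit 2) (nat_lit 3) (nat_lit 8) (C.cons (nat_lit 268) (C.node (nat_lit 2) (nat_lit 7) (nat_lit 8) (C.cons (nat_lit 388) (C.node (nat_lit 2) (nat_lit 5) (nat_lit 6) (C.cons (nat_lit 356) (C.miq (nat_lit 2188596800) (nat_lit 169255093529243978447783025)) (C.cons (nat_lit 100) (C.node (nat_lit 2)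 (nat_lit 5) (nat_lit 9) (C.cons (nat_lit 804) (C.miq (nat_lit 1882298450) (nat_lit 13310101153147243161584420)) (C.cons (nat_lit 548) (C.node (nat_lit 2) (nat_lit 8) (nat_lit 9) (C.cons (nat_lit 772) (C.node (nat_lit 2) (nat_lit 5) (nat_lit 10) (C.cons (nat_lit 1316) (C.node (nat_lit 3) (nat_lit 5) (nat_lit 6) (C.cons (nat_lit 232)
  (C.miq (nat_lit 925390400) (nat_lit 469068696758769116670919793)) (C.cons (nat_lit 104) (C.node (nat_lit 5) (nat_lit 6) (nat_lit 7) (C.cons (nat_lit 480) (C.miq (nat_lit 307628679) (nat_lit 120896179366763644030289793)) (C.cons (nat_lit 224) (C.node (nat_lit 1) (nat_lit 3) (nat_lit 9) (C.cons (nat_lit 1546) (C.miq (nat_lit 2299725605) (nat_lit 1869004796347922800645636261)) (C.cons (nat_lit 778) (C.node (nat_lit 1) (nat_lit 9) (nat_lit 10) (C.cons (nat_lit 1570) (C.miq (nat_lit 354720384) (nat_lit 62873938282985222487476097)) C.nil)) (C.cons (nat_lit 522) (C.miq (nat_lit 2299725605) (nat_lit 631064757062542525746512037))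 C.nil)))) C.nil))) C.nil))) C.nil)) C.nil)) C.nil))) C.nil))) C.nil)) C.nil)) C.nil))) (C.cons (nat_lit 44) (C.node (nat_lit 1) (nat_lit 2) (nat_lit 3) (C.cons (nat_lit 270) (C.node (nat_lit 2) (nat_lit 3) (nat_lit 7) (C.cons (nat_lit 140) (C.node (nat_lit 2) (nat_lit 7) (nat_lit 8) (C.cons (nat_lit 388) (C.node (nat_lit 1) (nat_lit 2) (nat_lit 5) (C.cons (nat_lit 102) (C.miq (nat_lit 1519542385) (nat_lit 1861747644094469746616303811)) (C.cons (nat_lit 38) (C.node (nat_lit 1) (nat_lit 2) (nat_lit 6) (C.cons (nat_lit 70) (C.node (nat_lit 2) (nat_lit 5) (nat_lit 6) (C.cons (nat_lit 356) (C.miq (nat_lit 2188596800) (nat_lit 169255093529243978447783025)) (C.cons (nat_lit 100) (C.node (nat_lit 2) (nat_lit 6) (nat_lit 8) (C.cons (nat_lit 324) (C.node (nat_lit 4) (nat_lit 5) (nat_lit 7) (C.cons (nat_lit 434) (C.miq (nat_lit 840239480) (nat_lit 45944659994137336235558785)) (C.cons (nat_lit 432) (C.miq (nat_lit 846726725) (nat_lit 469068696859255683366782065))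 (C.cons (nat_lit 178) (C.miq (nat_lit 1651837204) (nat_lit 199493734350217157429821971)) C.nil)))) C.nil)) C.nil))) C.nil)) C.nil))) C.nil)) C.nil)) (C.cons (nat_lit 14) (C.node (nat_lit 2) (nat_lit 3) (nat_lit 7) (C.cons (nat_lit 396) (C.node (nat_lit 2) (nat_lit 5) (nat_lit 9) (C.cons (nat_lit 804) (C.miq (nat_lit 1652901680) (nat_lit 971997332977848060113125529)) (C.cons (nat_lit 548) (C.node (nat_lit 2) (nat_lit 8) (nat_lit 9) (C.cons (nat_lit 772) (C.node (nat_lit 2) (nat_lit 5) (nat_lit 10) (C.cons (nat_lit 1316) (C.miq (nat_lit 1379182704) (nat_lit 1271810936553024469719385985)) (C.cons (nat_lit 1060) (C.node (nat_lit 2) (nat_lit 8) (nat_lit 10) (C.cons (nat_lit 1284) (C.node (nat_lit 1) (nat_lit 2) (nat_lit 5) (C.cons (nat_lit 358) (C.miq (nat_lit 2455400800) (nat_lit 1281496805168706893865091267)) (C.cons (nat_lit 294) (C.miq (nat_lit 1652901680) (nat_lit 355445164974387181012975769)) (C.cons (nat_lit 102) (C.miq (nat_lit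 2455400800) (nat_lit 1281496805168705794353463491)) C.nil)))) C.nil)) C.nil))) C.nil)) C.nil))) (C.cons (nat_lit 140) (C.node (nat_lit 2) (nat_lit 3) (nat_lit 8) (C.cons (nat_lit 268) (C.node (nat_lit 2) (nat_lit 7) (nat_lit 8) (C.cons (nat_lit 388) (C.node (nat_lit 2) (nat_lit 5) (nat_lit 6) (C.cons (nat_lit 358) (C.miq (nat_lit 2188596800) (nat_lit 169255093529806928401204337)) (C.cons (nat_lit 356) (C.miq (nat_lit 2188596800) (nat_lit 169255093529243978447783025)) (C.cons (nat_lit 102) (C.miq (nat_lit 1519542385) (nat_lit 1861747644094469746616303811)) (C.cons (nat_lit 100) (C.node (nat_lit 4) (nat_lit 5) (nat_lit 7) (C.cons (nat_lit 434) (C.miq (nat_lit 1394704535) (nat_lit 16932967445133396252428161)) (C.cons (nat_lit 432) (C.miq (nat_lit 846726725) (nat_lit 469068696859255683366782065)) (C.cons (nat_lit 178) (C.miq (nat_lit 1651837204) (nat_lit 199493734350217157429821971)) (C.cons (nat_lit 176) (C.node (nat_lit 2) (nat_lit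 5) (nat_lit 10) (C.cons (nat_lit 1316) (C.node (nat_lit 1) (nat_lit 2) (nat_lit 5) C.nil) C.nil)) C.nil))))) C.nil))))) C.nil)) C.nil)) C.nil))) C.nil))) C.nil))) C.nil)) C.nil))) C.nil)) C.nil))) C.nil)) C.nil)) (C.cons (nat_lit 1044) (C.node (nat_lit 2) (nat_lit 5) (nat_lit 9) (C.cons (nat_lit 804) (C.node (nat_lit 2) (nat_lit 5) (nat_lit 6) (C.cons (nat_lit 102) (C.miq (nat_lit 2837776150) (nat_lit 971997333458889869040681155)) (C.cons (nat_lit 100) (C.node (nat_lit 2) (nat_lit 7) (nat_lit 8)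
  (C.cons (nat_lit 396) (C.miq (nat_lit 1652901680) (nat_lit 971997332977848060113125529)) (C.cons (nat_lit 388) (C.node (nat_lit 3) (nat_lit 7) (nat_lit 9) (C.cons (nat_lit 680) (C.miq (nat_lit 695502128) (nat_lit 793060447641613958016205097)) (C.cons (nat_lit 648) (C.node (nat_lit 5) (nat_lit 7) (nat_lit 9) (C.cons (nat_lit 672) (C.node (nat_lit 1) (nat_lit 8) (nat_lit 9) (C.cons (nat_lit 834) (C.miq (nat_lit 2231800433) (nat_lit 1374564041712697435364721286)) (C.cons (nat_lit 778) (C.miq (nat_lit 319264850) (nat_lit 184977567216698687597380388)) (C.cons (nat_lit 770) (C.node (nat_lit 3) (nat_lit 8) (nat_lit 9) (C.cons (nat_lit 792) (C.miq (nat_lit 962021408) (nat_lit 812400973355805717683306773)) (C.cons (nat_lit 776) (C.node (nat_lit 1) (nat_lit 2) (nat_lit 5) (C.cons (nat_lit 62) (C.miq (nat_lit 2804222228) (nat_lit 199493734725141826400813587)) (C.cons (nat_lit 54) (C.miq (nat_lit 2804222228) (nat_lit 199493734725141826400289299))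 (C.cons (nat_lit 46) (C.miq (nat_lit 949047410) (nat_lit 930873729737098173920706725)) (C.cons (nat_lit 38) (C.node (nat_lit 2) (nat_lit 4) (nat_lit 5) (C.cons (nat_lit 60) (C.miq (nat_lit 932528258) (nat_lit 812399257628749150097244437)) (C.cons (nat_lit 52) (C.node (nat_lit 4) (nat_lit 5) (nat_lit 7) (C.cons (nat_lit 434) (C.miq (nat_lit 844368263) (nat_lit 62866965137596209110845313)) (C.cons (nat_lit 432) (C.miq (nat_lit 844368263) (nat_lit 62866965137596209110714241)) (C.cons (nat_lit 178) (C.miq (nat_lit 1651837204) (nat_lit 199493734350217157429821971)) (C.cons (nat_lit 176) (C.node (nat_lit 1) (nat_lit 2) (nat_lit 4) (C.cons (nat_lit 30) (C.node (nat_lit 1) (nat_lit 4) (nat_lit 7) (C.cons (nat_lit 402) (C.miq (nat_lit 963715204) (nat_lit 780966633039169670087835925)) (C.cons (nat_lit 146) (C.node (nat_lit 4) (nat_lit 7) (nat_lit 8) (C.cons (nat_lit 400) (C.node (nat_lit 1) (nat_lit 4) (nat_lit 10) (C.cons (nat_lit 1298)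 (C.miq (nat_lit 1134039562) (nat_lit 938150379903206693732942855)) (C.cons (nat_lit 1042) (C.node (nat_lit 2) (nat_lit 3) (nat_lit 7) (C.cons (nat_lit 1164) (C.miq (nat_lit 2536770081) (nat_lit 184975446162859833107022855)) (C.cons (nat_lit 140) (C.node (nat_lit 2) (nat_lit 7) (nat_lit 10) C.nil) C.nil))) C.nil))) C.nil)) C.nil))) (C.cons (nat_lit 22) (C.node (nat_lit 2) (nat_lit 3) (nat_lit 4) (C.cons (nat_lit 28) (C.node (nat_lit 1) (nat_lit 2) (nat_lit 3) (C.cons (nat_lit 270) (C.node (nat_lit 1) (nat_lit 2) (nat_lit 6) (C.cons (nat_lit 70) (C.node (nat_lit 2) (nat_lit 6) (nat_lit 8) (C.cons (nat_lit 324) (C.node (nat_lit 2) (nat_lit 8) (nat_lit 10) C.nil) C.nil)) C.nil)) (C.cons (nat_lit 14) (C.node (nat_lit 1) (nat_lit 2) (nat_lit 6) (C.cons (nat_lit 326) (C.node (nat_lit 1) (nat_lit 4) (nat_lit 7) (C.cons (nat_lit 402) (C.miq (nat_lit 880936726) (nat_lit 334883317208579094354460867)) (C.cons (nat_lit 146) (C.node (nat_lit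 4) (nat_lit 7) (nat_lit 8) C.nil) C.nil))) (C.cons (nat_lit 70) (C.node (nat_lit 1) (nat_lit 2) (nat_lit 8) C.nil) C.nil))) C.nil))) C.nil)) C.nil))) C.nil))))) C.nil))) C.nil))))) C.nil))) C.nil)))) C.nil)) C.nil))) C.nil))) C.nil))) (C.cons (nat_lit 548) (C.node (nat_lit 2) (nat_lit 8) (nat_lit 9) (C.cons (nat_lit 772) (C.node (nat_lit 2) (nat_lit 7) (nat_lit 8) (C.cons (nat_lit 396) (C.node (nat_lit 2) (nat_lit 7) (nat_lit 10) (C.cons (nat_lit 1156) (C.node (nat_lit 2) (nat_lit 8) (nat_lit 10) (C.cons (nat_lit 1316) (C.miq (nat_lit 1652901680) (nat_lit 1590967352620538197562687641)) (C.cons (nat_lit 1284) (C.node (nat_lit 3) (nat_lit 7) (nat_lit 9) (C.cons (nat_lit 680) (C.miq (nat_lit 1698119810) (nat_lit 822073468367729789376397589)) (C.cons (nat_lit 648) (C.node (nat_lit 5) (nat_lit 7) (nat_lit 9) (C.cons (nat_lit 672) (C.node (nat_lit 6) (nat_lit 7) (nat_lit 8) (C.cons (nat_lit 480) (C.miq (nat_lit 1199923760) (nat_lit 580305367422708207508324941))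 (C.cons (nat_lit 448) (C.node (nat_lit 5) (nat_lit 6) (nat_lit 7) (C.cons (nat_lit 232) (C.node (nat_lit 6) (nat_lit 7) (nat_lit 10) (C.cons (nat_lit 1216)
  (C.node (nat_lit 2) (nat_lit 3) (nat_lit 10) (C.cons (nat_lit 1068) (C.miq (nat_lit 305597014) (nat_lit 478738221972692814575174769)) (C.cons (nat_lit 1036) (C.node (nat_lit 2) (nat_lit 5) (nat_lit 10) (C.cons (nat_lit 1060) (C.node (nat_lit 4) (nat_lit 6) (nat_lit 9) (C.cons (nat_lit 848) (C.miq (nat_lit 944140805) (nat_lit 1025173374789295921324687525)) (C.cons (nat_lit 592) (C.node (nat_lit 5) (nat_lit 7) (nat_lit 10) (C.cons (nat_lit 1186) (C.miq (nat_lit 389195104) (nat_lit 478753643494363466581214321)) (C.cons (nat_lit 1184) (C.node (nat_lit 2) (nat_lit 5) (nat_lit 6) (C.cons (nat_lit 100) (C.miq (nat_lit 2237804615) (nat_lit 120899886955719057927831705)) C.nil)) C.nil))) C.nil))) C.nil)) C.nil))) C.nil)) (C.cons (nat_lit 224) (C.miq (nat_lit 929399360) (nat_lit 270804862388131828256014613))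 C.nil))) C.nil))) C.nil)) C.nil))) C.nil))) C.nil)) (C.cons (nat_lit 388) (C.node (nat_lit 2) (nat_lit 5) (nat_lit 6) (C.cons (nat_lit 358) (C.miq (nat_lit 942081380) (nat_lit 469066040445919003042645105)) (C.cons (nat_lit 356) (C.miq (nat_lit 942081380) (nat_lit 469066040445918994452710513)) (C.cons (nat_lit 102) (C.miq (nat_lit 2837776150) (nat_lit 662512323637544800315900099)) (C.cons (nat_lit 100) (C.node (nat_lit 4) (nat_lit 5) (nat_lit 7) (C.cons (nat_lit 434) (C.miq (nat_lit 846726725) (nat_lit 469068696859255683366913137)) (C.cons (nat_lit 432) (C.miq (nat_lit 846726725) (nat_lit 469068696859255683366782065)) (C.cons (nat_lit 178) (C.miq (nat_lit 1651837204) (nat_lit 199493734350217157429821971)) (C.cons (nat_lit 176) (C.node (nat_lit 1) (nat_lit 2) (nat_lit 6) (C.cons (nat_lit 326) (C.node (nat_lit 1) (nat_lit 4) (nat_lit 7) (C.cons (nat_lit 402) (C.miq (nat_lit 880936726) (nat_lit 334883317208579094354460867)) (C.cons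 (nat_lit 146) (C.node (nat_lit 4) (nat_lit 7) (nat_lit 8) (C.cons (nat_lit 400) (C.node (nat_lit 1) (nat_lit 4) (nat_lit 6) (C.cons (nat_lit 90) (C.node (nat_lit 1) (nat_lit 6) (nat_lit 10) (C.cons (nat_lit 1090) (C.node (nat_lit 1) (nat_lit 2) (nat_lit 4) (C.cons (nat_lit 54) (C.miq (nat_lit 2804222228) (nat_lit 199493734725141826400289299)) (C.cons (nat_lit 22) (C.node (nat_lit 2) (nat_lit 3) (nat_lit 4) (C.cons (nat_lit 60) (C.miq (nat_lit 846284038) (nat_lit 780967739694906288004858993)) (C.cons (nat_lit 28) (C.node (nat_lit 2) (nat_lit 4) (nat_lit 5) (C.cons (nat_lit 52) (C.node (nat_lit 3) (nat_lit 5) (nat_lit 6) (C.cons (nat_lit 232) (C.miq (nat_lit 925390400) (nat_lit 469068696758769116670919793)) (C.cons (nat_lit 104) (C.node (nat_lit 4) (nat_lit 9) (nat_lit 10) (C.cons (nat_lit 1560) (C.miq (nat_lit 830031370) (nat_lit 780994856417139019309188209)) (C.cons (nat_lit 1552) (C.node (nat_lit 6) (nat_lit 7) (nat_lit 10) (C.cons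 (nat_lit 1224) (C.miq (nat_lit 832005130) (nat_lit 780988658311131696008856689)) (C.cons (nat_lit 1216) (C.node (nat_lit 3) (nat_lit 6) (nat_lit 7) (C.cons (nat_lit 456) (C.miq (nat_lit 2556495668) (nat_lit 394119612956187639498277017)) (C.cons (nat_lit 200) (C.node (nat_lit 3) (nat_lit 7) (nat_lit 8) (C.cons (nat_lit 394) (C.miq (nat_lit 2171237184) (nat_lit 1317764579686212923923955865)) (C.cons (nat_lit 392) (C.node (nat_lit 4) (nat_lit 6) (nat_lit 9) (C.cons (nat_lit 848) (C.node (nat_lit 1) (nat_lit 2) (nat_lit 3) C.nil) C.nil)) C.nil))) C.nil))) C.nil))) C.nil))) C.nil))) C.nil)) C.nil))) C.nil))) C.nil)) (C.cons (nat_lit 82) (C.node (nat_lit 3) (nat_lit 4) (nat_lit 6) (C.cons (nat_lit 344) (C.miq (nat_lit 2222274080) (nat_lit 212776423031992929017463373)) (C.cons (nat_lit 88) (C.node (nat_lit 1) (nat_lit 6) (nat_lit 9) (C.cons (nat_lit 610) (C.node (nat_lit 3) (nat_lit 5) (nat_lit 6) (C.cons (nat_lit 232) (C.miq (nat_lit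 925390400) (nat_lit 469068696758769116670919793)) (C.cons (nat_lit 104) (C.node (nat_lit 1) (nat_lit 3) (nat_lit 6) (C.cons (nat_lit 1098) (C.node (nat_lit 1) (nat_lit 9) (nat_lit 10) (C.cons (nat_lit 1538) (C.node (nat_lit 6) (nat_lit 7) (nat_lit 10) (C.cons (nat_lit 1216) (C.node (nat_lit 6) (nat_lit 8) (nat_lit 10) (C.cons (nat_lit 1344)
  (C.node (nat_lit 1) (nat_lit 4) (nat_lit 10) (C.cons (nat_lit 1298) (C.miq (nat_lit 830630464) (nat_lit 394120682635693625194120305)) (C.cons (nat_lit 1042) (C.node (nat_lit 1) (nat_lit 7) (nat_lit 10) (C.cons (nat_lit 1186) (C.miq (nat_lit 1361487760) (nat_lit 394130791476213015680714625)) (C.cons (nat_lit 1154) (C.node (nat_lit 1) (nat_lit 5) (nat_lit 10) C.nil) C.nil))) C.nil))) C.nil)) C.nil)) C.nil)) (C.cons (nat_lit 74) (C.node (nat_lit 1) (nat_lit 6) (nat_lit 10) (C.cons (nat_lit 1090) (C.node (nat_lit 1) (nat_lit 8) (nat_lit 9) (C.cons (nat_lit 778) (C.node (nat_lit 1) (nat_lit 9)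 (nat_lit 10) (C.cons (nat_lit 1538) (C.node (nat_lit 1) (nat_lit 7) (nat_lit 8) (C.cons (nat_lit 418) (C.node (nat_lit 5) (nat_lit 6) (nat_lit 7) (C.cons (nat_lit 224) (C.node (nat_lit 5) (nat_lit 6) (nat_lit 8) (C.cons (nat_lit 352) (C.node (nat_lit 4) (nat_lit 6) (nat_lit 8) (C.cons (nat_lit 848) (C.node (nat_lit 3) (nat_lit 7) (nat_lit 9) (C.cons (nat_lit 680) (C.miq (nat_lit 2234914706) (nat_lit 125734298996148924364685958)) C.nil)) C.nil)) C.nil)) C.nil)) (C.cons (nat_lit 386) (C.miq (nat_lit 1477903250) (nat_lit 466648410167620433122558541)) C.nil))) C.nil)) (C.cons (nat_lit 770) (C.node (nat_lit 1) (nat_lit 2) (nat_lit 5) (C.cons (nat_lit 62) (C.miq (nat_lit 2804222228) (nat_lit 199493734725141826400813587)) (C.cons (nat_lit 54) (C.miq (nat_lit 2804222228) (nat_lit 199493734725141826400289299)) (C.cons (nat_lit 46) (C.miq (nat_lit 949047410) (nat_lit 930873729737098173920706725)) (C.cons (nat_lit 38) (C.node (nat_lit 1)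 (nat_lit 2) (nat_lit 3) (C.cons (nat_lit 30) (C.node (nat_lit 2) (nat_lit 4) (nat_lit 5) C.nil) (C.cons (nat_lit 14) (C.node (nat_lit 1) (nat_lit 2) (nat_lit 4) (C.cons (nat_lit 22) (C.node (nat_lit 2) (nat_lit 3) (nat_lit 4) C.nil) C.nil)) C.nil))) C.nil))))) C.nil))) C.nil)) C.nil))) C.nil))) (C.cons (nat_lit 578) (C.node (nat_lit 1) (nat_lit 5) (nat_lit 6) (C.cons (nat_lit 106) (C.node (nat_lit 1) (nat_lit 6) (nat_lit 10) (C.cons (nat_lit 1090) (C.node (nat_lit 1) (nat_lit 2) (nat_lit 5) (C.cons (nat_lit 54) (C.miq (nat_lit 2804222228) (nat_lit 199493734725141826400289299)) (C.cons (nat_lit 38) (C.node (nat_lit 1) (nat_lit 4) (nat_lit 5) (C.cons (nat_lit 306) (C.miq (nat_lit 830629184) (nat_lit 394120682356466187689591921)) (C.cons (nat_lit 50) (C.node (nat_lit 1) (nat_lit 5) (nat_lit 7) (C.cons (nat_lit 1186) (C.miq (nat_lit 1361487760) (nat_lit 394130791476213015680714625)) (C.cons (nat_lit 418) (C.miq (nat_lit 559126400)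 (nat_lit 128157002193244737715636097)) (C.cons (nat_lit 162) (C.node (nat_lit 1) (nat_lit 7) (nat_lit 8) (C.cons (nat_lit 394) (C.miq (nat_lit 2822047510) (nat_lit 359071942914271795133153475)) (C.cons (nat_lit 386) (C.node (nat_lit 1) (nat_lit 2) (nat_lit 3) (C.cons (nat_lit 30) (C.node (nat_lit 2) (nat_lit 4) (nat_lit 5) C.nil) C.nil)) C.nil))) C.nil)))) C.nil))) C.nil))) C.nil)) (C.cons (nat_lit 98) (C.node (nat_lit 3) (nat_lit 5) (nat_lit 6) (C.cons (nat_lit 232) (C.miq (nat_lit 925390400) (nat_lit 469068696758769116670919793)) (C.cons (nat_lit 104) (C.node (nat_lit 1) (nat_lit 3) (nat_lit 6) (C.cons (nat_lit 1098) (C.node (nat_lit 6) (nat_lit 7) (nat_lit 10) (C.cons (nat_lit 1216) (C.node (nat_lit 6) (nat_lit 8) (nat_lit 10) (C.cons (nat_lit 1344) (C.node (nat_lit 1) (nat_lit 4) (nat_lit 10) (C.cons (nat_lit 1298) (C.miq (nat_lit 830630464) (nat_lit 394120682635693625194120305)) (C.cons (nat_lit 1042) (C.node (nat_lit 3) (nat_lit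 6) (nat_lit 7) (C.cons (nat_lit 456) (C.node (nat_lit 5) (nat_lit 6) (nat_lit 7) C.nil) C.nil)) C.nil))) C.nil)) C.nil)) (C.cons (nat_lit 74) (C.node (nat_lit 1) (nat_lit 6) (nat_lit 10) (C.cons (nat_lit 1090) (C.node (nat_lit 2) (nat_lit 3) (nat_lit 7) (C.cons (nat_lit 1164) (C.node (nat_lit 2) (nat_lit 3) (nat_lit 8) (C.cons (nat_lit 268) (C.node (nat_lit 6) (nat_lit 7) (nat_lit 10) (C.cons (nat_lit 1216) (C.node (nat_lit 4) (nat_lit 6) (nat_lit 9) C.nil) C.nil)) C.nil)) (C.cons (nat_lit 140) (C.node (nat_lit 2) (nat_lit 7) (nat_lit 10) (C.cons (nat_lit 1156)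
  (C.node (nat_lit 4) (nat_lit 6) (nat_lit 8) (C.cons (nat_lit 848) (C.node (nat_lit 5) (nat_lit 6) (nat_lit 9) C.nil) C.nil)) C.nil)) C.nil))) C.nil)) C.nil))) C.nil))) C.nil))) C.nil))) C.nil))) C.nil))) C.nil)) C.nil))) (C.cons (nat_lit 70) (C.node (nat_lit 2) (nat_lit 6) (nat_lit 8) (C.cons (nat_lit 324) (C.node (nat_lit 1) (nat_lit 4) (nat_lit 7) (C.cons (nat_lit 402) (C.node (nat_lit 1) (nat_lit 2) (nat_lit 4) (C.cons (nat_lit 62) (C.miq (nat_lit 1483813010) (nat_lit 485989323266819816981660237)) (C.cons (nat_lit 54) (C.miq (nat_lit 2804222228) (nat_lit 199493734725141826400289299)) (C.cons (nat_lit 30) (C.miq (nat_lit 963715204) (nat_lit 780966633039169670087835925)) (C.cons (nat_lit 22) (C.node (nat_lit 1) (nat_lit 4) (nat_lit 5) (C.cons (nat_lit 58) (C.node (nat_lit 1) (nat_lit 4) (nat_lit 6) (C.cons (nat_lit 82) (C.node (nat_lit 1) (nat_lit 4) (nat_lit 10) (C.cons (nat_lit 1042) (C.node (nat_lit 2) (nat_lit 3) (nat_lit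 4) (C.cons (nat_lit 28) (C.node (nat_lit 2) (nat_lit 4) (nat_lit 5) (C.cons (nat_lit 52) (C.node (nat_lit 1) (nat_lit 2) (nat_lit 3) (C.cons (nat_lit 14) (C.node (nat_lit 1) (nat_lit 2) (nat_lit 5) C.nil) C.nil)) C.nil)) C.nil)) C.nil)) C.nil)) (C.cons (nat_lit 50) (C.node (nat_lit 1) (nat_lit 4) (nat_lit 6) (C.cons (nat_lit 90) (C.node (nat_lit 1) (nat_lit 4) (nat_lit 10) (C.cons (nat_lit 1042) (C.node (nat_lit 1) (nat_lit 6) (nat_lit 10) (C.cons (nat_lit 1346) (C.miq (nat_lit 931217574) (nat_lit 485989839735121484248646769)) (C.cons (nat_lit 1090) (C.node (nat_lit 2) (nat_lit 3) (nat_lit 4) (C.cons (nat_lit 60) (C.miq (nat_lit 846284038) (nat_lit 780967739694906288004858993)) (C.cons (nat_lit 28) (C.node (nat_lit 2) (nat_lit 4) (nat_lit 5) (C.cons (nat_lit 52) (C.node (nat_lit 3) (nat_lit 4) (nat_lit 8) (C.cons (nat_lit 280) (C.miq (nat_lit 2554529558) (nat_lit 338510095165070740687552707)) C.nil)) C.nil)) C.nil))) C.nil))) C.nil))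 (C.cons (nat_lit 82) (C.node (nat_lit 3) (nat_lit 4) (nat_lit 6) (C.cons (nat_lit 344) (C.miq (nat_lit 2222274080) (nat_lit 212776423031992929017463373)) (C.cons (nat_lit 88) (C.node (nat_lit 3) (nat_lit 8) (nat_lit 9) (C.cons (nat_lit 792) (C.miq (nat_lit 873896048) (nat_lit 99142782563588915396282241)) (C.cons (nat_lit 778) (C.miq (nat_lit 1477903250) (nat_lit 485991223281454499917857357)) (C.cons (nat_lit 776) (C.node (nat_lit 3) (nat_lit 7) (nat_lit 8) (C.cons (nat_lit 456) (C.miq (nat_lit 1228410983) (nat_lit 938133851761535613210722499)) (C.cons (nat_lit 392) (C.node (nat_lit 1) (nat_lit 3) (nat_lit 4) (C.cons (nat_lit 1050) (C.node (nat_lit 3) (nat_lit 4) (nat_lit 8) (C.cons (nat_lit 280) (C.node (nat_lit 4) (nat_lit 8) (nat_lit 10) (C.cons (nat_lit 1296) (C.node (nat_lit 4) (nat_lit 9) (nat_lit 10) (C.cons (nat_lit 1552) (C.node (nat_lit 2) (nat_lit 3) (nat_lit 4) (C.cons (nat_lit 60) (C.node (nat_lit 3) (nat_lit 4) (nat_lit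 9) C.nil) C.nil)) C.nil)) C.nil)) C.nil)) (C.cons (nat_lit 26) (C.node (nat_lit 1) (nat_lit 4) (nat_lit 10) (C.cons (nat_lit 1042) (C.node (nat_lit 2) (nat_lit 3) (nat_lit 4) (C.cons (nat_lit 60) (C.node (nat_lit 2) (nat_lit 5) (nat_lit 10) (C.cons (nat_lit 1316) (C.miq (nat_lit 931283109) (nat_lit 469064324858194464514245745)) (C.cons (nat_lit 1060) (C.node (nat_lit 3) (nat_lit 4) (nat_lit 8) C.nil) C.nil))) (C.cons (nat_lit 28) (C.node (nat_lit 2) (nat_lit 4) (nat_lit 5) C.nil) C.nil))) C.nil)) C.nil))) C.nil))) C.nil)))) C.nil))) C.nil))) C.nil))) C.nil))))) (C.cons (nat_lit 146) (C.node (nat_lit 4) (nat_lit 7) (nat_lit 8) (C.cons (nat_lit 400) (C.node (nat_lit 2) (nat_lit 3) (nat_lit 7) (C.cons (nat_lit 1164) (C.node (nat_lit 6) (nat_lit 7) (nat_lit 10) (C.cons (nat_lit 1216) (C.node (nat_lit 1) (nat_lit 7) (nat_lit 10) (C.cons (nat_lit 1186) (C.miq (nat_lit 1361487760) (nat_lit 84645781654867946955933569)) (C.cons (nat_lit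 1154) (C.node (nat_lit 5) (nat_lit 7) (nat_lit 10) (C.cons (nat_lit 1184) (C.node (nat_lit 1) (nat_lit 2) (nat_lit 4) (C.cons (nat_lit 62) (C.miq (nat_lit 2536770081) (nat_lit 184975446162859833109120007))
  (C.cons (nat_lit 54) (C.miq (nat_lit 2804222228) (nat_lit 199493734725141826400289299)) (C.cons (nat_lit 30) (C.miq (nat_lit 2536770081) (nat_lit 184975446162859833107022855)) (C.cons (nat_lit 22) (C.node (nat_lit 2) (nat_lit 3) (nat_lit 4) (C.cons (nat_lit 60) (C.node (nat_lit 2) (nat_lit 5) (nat_lit 10) (C.cons (nat_lit 1316) (C.miq (nat_lit 2184684864) (nat_lit 1407225090597215282465932401)) (C.cons (nat_lit 1060) (C.node (nat_lit 2) (nat_lit 8) (nat_lit 10) C.nil) C.nil))) (C.cons (nat_lit 28) (C.node (nat_lit 2) (nat_lit 4) (nat_lit 5) C.nil) C.nil))) C.nil))))) C.nil)) C.nil))) C.nil)) (C.cons (nat_lit 140) (C.node (nat_lit 2) (nat_lit 7) (nat_lit 10) (C.cons (nat_lit 1156) (C.node (nat_lit 3) (nat_lit 7) (nat_lit 9)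 (C.cons (nat_lit 680) (C.node (nat_lit 5) (nat_lit 7) (nat_lit 10) (C.cons (nat_lit 1186) (C.miq (nat_lit 1361487760) (nat_lit 84645781654867946955933569)) (C.cons (nat_lit 1184) (C.node (nat_lit 1) (nat_lit 5) (nat_lit 7) (C.cons (nat_lit 418) (C.miq (nat_lit 562075475) (nat_lit 313122652594283001445679784)) (C.cons (nat_lit 162) (C.node (nat_lit 1) (nat_lit 3) (nat_lit 9) (C.cons (nat_lit 1546) (C.miq (nat_lit 889886497) (nat_lit 1374577175759575019508138630)) (C.cons (nat_lit 778) (C.miq (nat_lit 2171943200) (nat_lit 195851461679550124479808077)) (C.cons (nat_lit 522) (C.node (nat_lit 3) (nat_lit 8) (nat_lit 9) (C.cons (nat_lit 792) (C.miq (nat_lit 1501721408) (nat_lit 933293776646672270744682649)) (C.cons (nat_lit 776) (C.node (nat_lit 1) (nat_lit 7) (nat_lit 8) C.nil) C.nil))) C.nil)))) C.nil))) C.nil))) (C.cons (nat_lit 648) (C.node (nat_lit 5) (nat_lit 7) (nat_lit 9) (C.cons (nat_lit 672) (C.node (nat_lit 4) (nat_lit 6)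 (nat_lit 9) (C.cons (nat_lit 848) (C.node (nat_lit 1) (nat_lit 4) (nat_lit 6) (C.cons (nat_lit 90) (C.node (nat_lit 1) (nat_lit 2) (nat_lit 4) (C.cons (nat_lit 54) (C.miq (nat_lit 2804222228) (nat_lit 199493734725141826400289299)) (C.cons (nat_lit 22) (C.node (nat_lit 2) (nat_lit 3) (nat_lit 4) C.nil) C.nil))) (C.cons (nat_lit 82) (C.node (nat_lit 3) (nat_lit 4) (nat_lit 6) (C.cons (nat_lit 88) (C.node (nat_lit 1) (nat_lit 2) (nat_lit 8) C.nil) C.nil)) C.nil))) (C.cons (nat_lit 592) (C.node (nat_lit 4) (nat_lit 9) (nat_lit 10) (C.cons (nat_lit 1560) (C.node (nat_lit 2) (nat_lit 4) (nat_lit 5) (C.cons (nat_lit 62) (C.miq (nat_lit 2468848720) (nat_lit 169285051380514910474929265)) (C.cons (nat_lit 60) (C.miq (nat_lit 2468848720) (nat_lit 169285051380514901884994673)) (C.cons (nat_lit 54) (C.miq (nat_lit 2804222228) (nat_lit 199493734725141826400289299)) C.nil)))) (C.cons (nat_lit 1552) (C.node (nat_lit 1) (nat_lit 2) (nat_lit 4)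 (C.cons (nat_lit 62) (C.miq (nat_lit 2804222228) (nat_lit 199493734725141826400813587)) C.nil)) C.nil))) C.nil))) C.nil)) C.nil))) C.nil)) C.nil))) C.nil)) C.nil))) C.nil)) C.nil))) C.nil))))) C.nil))))) C.nil))) C.nil)) C.nil))) C.nil))) C.nil))) C.nil)))) C.nil))) C.nil))) C.nil))) (C.cons (nat_lit 644) (C.node (nat_lit 2) (nat_lit 7) (nat_lit 10) (C.cons (nat_lit 1164) (C.node (nat_lit 6) (nat_lit 7) (nat_lit 10) (C.cons (nat_lit 1216) (C.node (nat_lit 4) (nat_lit 7) (nat_lit 10) (C.cons (nat_lit 1170) (C.miq (nat_lit 2473853601) (nat_lit 184975445787935164203140103)) (C.cons (nat_lit 1168) (C.node (nat_lit 1) (nat_lit 2) (nat_lit 7) (C.cons (nat_lit 390) (C.node (nat_lit 2) (nat_lit 3) (nat_lit 8) (C.cons (nat_lit 268) (C.node (nat_lit 2) (nat_lit 6) (nat_lit 8) (C.cons (nat_lit 356) (C.miq (nat_lit 2188596800) (nat_lit 1407195132814624253346907249)) (C.cons (nat_lit 324) (C.node (nat_lit 4) (nat_lit 7) (nat_lit 8) (C.cons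 (nat_lit 432) (C.miq (nat_lit 846726725) (nat_lit 471486548498484941716194417)) (C.cons (nat_lit 400) (C.node (nat_lit 1) (nat_lit 7) (nat_lit 10) (C.cons (nat_lit 1186) (C.miq (nat_lit 1468309792) (nat_lit 483591302127694475076895751)) (C.cons (nat_lit 1154) (C.node (nat_lit 5) (nat_lit 7) (nat_lit 10) (C.cons (nat_lit 1184) (C.node (nat_lit 1) (nat_lit 2) (nat_lit 4) (C.cons (nat_lit 62)
  (C.miq (nat_lit 2536770081) (nat_lit 184975446162859833109120007)) (C.cons (nat_lit 54) (C.miq (nat_lit 1517371522) (nat_lit 1395101392279507347104465173)) (C.cons (nat_lit 30) (C.miq (nat_lit 2536770081) (nat_lit 184975446162859833107022855)) (C.cons (nat_lit 22) (C.node (nat_lit 1) (nat_lit 2) (nat_lit 3) (C.cons (nat_lit 46) (C.node (nat_lit 1) (nat_lit 2) (nat_lit 6) (C.cons (nat_lit 70) (C.node (nat_lit 1) (nat_lit 2) (nat_lit 9) (C.cons (nat_lit 518) (C.node (nat_lit 2) (nat_lit 3) (nat_lit 4) (C.cons (nat_lit 28) (C.node (nat_lit 2)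 (nat_lit 5) (nat_lit 6) (C.cons (nat_lit 100) (C.node (nat_lit 2) (nat_lit 8) (nat_lit 10) (C.cons (nat_lit 1316) (C.miq (nat_lit 1377216624) (nat_lit 84645781691458594390869889)) (C.cons (nat_lit 1284) (C.node (nat_lit 3) (nat_lit 5) (nat_lit 6) (C.cons (nat_lit 232) (C.miq (nat_lit 925390400) (nat_lit 471486548397998375020332145)) (C.cons (nat_lit 104) (C.node (nat_lit 3) (nat_lit 5) (nat_lit 7) (C.cons (nat_lit 680) (C.miq (nat_lit 443883667) (nat_lit 1431369019264157285156913741)) (C.cons (nat_lit 168) (C.node (nat_lit 5) (nat_lit 7) (nat_lit 8) (C.cons (nat_lit 480) (C.miq (nat_lit 1479173904) (nat_lit 1552281726468305332008845507)) (C.cons (nat_lit 416) (C.node (nat_lit 5) (nat_lit 8) (nat_lit 10) (C.cons (nat_lit 1314) (C.miq (nat_lit 2555578898) (nat_lit 359061834098523353664848903)) (C.cons (nat_lit 1312) (C.node (nat_lit 1) (nat_lit 8) (nat_lit 10) (C.cons (nat_lit 1354) (C.miq (nat_lit 1629857904) (nat_lit 55631562031403543310960513))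 (C.cons (nat_lit 1346) (C.miq (nat_lit 1629857904) (nat_lit 55631562029151743497275265)) (C.cons (nat_lit 1306) (C.miq (nat_lit 1092986992) (nat_lit 55631562017892744428849025)) (C.cons (nat_lit 1298) (C.miq (nat_lit 1092986992) (nat_lit 55631562015640944615163777)) (C.cons (nat_lit 1290) (C.miq (nat_lit 2203558176) (nat_lit 203134974253726214935348231)) (C.cons (nat_lit 1282) (C.node (nat_lit 1) (nat_lit 3) (nat_lit 7) (C.cons (nat_lit 650) (C.node (nat_lit 1) (nat_lit 4) (nat_lit 7) (C.cons (nat_lit 178) (C.miq (nat_lit 1668614420) (nat_lit 203120511809061062133809683)) (C.cons (nat_lit 146) (C.node (nat_lit 1) (nat_lit 5) (nat_lit 7) C.nil) C.nil))) (C.cons (nat_lit 138) (C.node (nat_lit 3) (nat_lit 7) (nat_lit 9) (C.cons (nat_lit 648) (C.node (nat_lit 1) (nat_lit 4) (nat_lit 7) (C.cons (nat_lit 146) (C.node (nat_lit 1) (nat_lit 5) (nat_lit 7) C.nil) C.nil)) C.nil)) C.nil))) C.nil))))))) C.nil))) C.nil))) C.nil))) C.nil))) C.nil)))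 C.nil)) C.nil)) C.nil)) C.nil)) (C.cons (nat_lit 14) (C.node (nat_lit 1) (nat_lit 2) (nat_lit 6) (C.cons (nat_lit 102) (C.node (nat_lit 1) (nat_lit 2) (nat_lit 9) (C.cons (nat_lit 518) (C.node (nat_lit 1) (nat_lit 4) (nat_lit 7) (C.cons (nat_lit 178) (C.miq (nat_lit 840369748) (nat_lit 471483892167337855077713009)) (C.cons (nat_lit 146) (C.node (nat_lit 1) (nat_lit 6) (nat_lit 9) (C.cons (nat_lit 834) (C.miq (nat_lit 1468080278) (nat_lit 471482951264052518353764941)) (C.cons (nat_lit 578) (C.node (nat_lit 2) (nat_lit 3) (nat_lit 4) (C.cons (nat_lit 60) (C.miq (nat_lit 305620288) (nat_lit 1407193251175233438053106801)) (C.cons (nat_lit 28) (C.node (nat_lit 2) (nat_lit 3) (nat_lit 5) (C.cons (nat_lit 44) (C.node (nat_lit 2) (nat_lit 8) (nat_lit 9) (C.cons (nat_lit 804) (C.miq (nat_lit 1366828553) (nat_lit 471495900860651925883912781)) (C.cons (nat_lit 772) (C.node (nat_lit 2) (nat_lit 5) (nat_lit 8) (C.cons (nat_lit 1316) (C.node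 (nat_lit 3) (nat_lit 5) (nat_lit 6) (C.cons (nat_lit 232) (C.miq (nat_lit 925390400) (nat_lit 471486548397998375020332145)) (C.cons (nat_lit 104) (C.node (nat_lit 3) (nat_lit 6) (nat_lit 7) (C.cons (nat_lit 456) (C.miq (nat_lit 1484169744) (nat_lit 551291148062705455827452935)) (C.cons (nat_lit 200) (C.node (nat_lit 3) (nat_lit 7) (nat_lit 8) (C.cons (nat_lit 392) (C.node (nat_lit 5) (nat_lit 7) (nat_lit 8) (C.cons (nat_lit 480) (C.node (nat_lit 6) (nat_lit 7) (nat_lit 9) C.nil) (C.cons (nat_lit 416)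
  (C.miq (nat_lit 1703348769) (nat_lit 502916738394822810762871815)) C.nil))) C.nil)) C.nil))) C.nil))) (C.cons (nat_lit 292) (C.miq (nat_lit 2820998934) (nat_lit 353027313816198632079491267)) C.nil))) C.nil))) C.nil)) C.nil))) C.nil))) C.nil))) C.nil)) (C.cons (nat_lit 70) (C.node (nat_lit 2) (nat_lit 5) (nat_lit 6) (C.cons (nat_lit 100) (C.node (nat_lit 2) (nat_lit 8) (nat_lit 10) (C.cons (nat_lit 1316) (C.miq (nat_lit 1377216624) (nat_lit 84645781691458594390869889)) (C.cons (nat_lit 1284) (C.node (nat_lit 5) (nat_lit 7) (nat_lit 8) (C.cons (nat_lit 480) (C.miq (nat_lit 1479173904) (nat_lit 1552281726468305332008845507)) (C.cons (nat_lit 416) (C.node (nat_lit 1) (nat_lit 2) (nat_lit 5) (C.cons (nat_lit 550) (C.node (nat_lit 2) (nat_lit 5) (nat_lit 8) (C.cons (nat_lit 292) (C.node (nat_lit 2) (nat_lit 5) (nat_lit 10) (C.cons (nat_lit 1060) (C.node (nat_lit 2) (nat_lit 8) (nat_lit 9) (C.cons (nat_lit 772) (C.node (nat_lit 2) (nat_lit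 4) (nat_lit 10) (C.cons (nat_lit 1556) (C.node (nat_lit 1) (nat_lit 4) (nat_lit 7) (C.cons (nat_lit 178) (C.miq (nat_lit 844564756) (nat_lit 199475582754048214914171411)) (C.cons (nat_lit 146) (C.node (nat_lit 2) (nat_lit 3) (nat_lit 4) (C.cons (nat_lit 60) (C.miq (nat_lit 2453185616) (nat_lit 324027556290061536349193329)) (C.cons (nat_lit 28) (C.node (nat_lit 5) (nat_lit 9) (nat_lit 10) (C.cons (nat_lit 1576) (C.miq (nat_lit 958945856) (nat_lit 933296211869094860893258865)) C.nil)) C.nil))) C.nil))) C.nil)) C.nil)) C.nil)) C.nil)) (C.cons (nat_lit 38) (C.node (nat_lit 1) (nat_lit 2) (nat_lit 9) (C.cons (nat_lit 518) (C.node (nat_lit 1) (nat_lit 4) (nat_lit 7) (C.cons (nat_lit 178) (C.node (nat_lit 4) (nat_lit 7) (nat_lit 9) (C.cons (nat_lit 656) (C.node (nat_lit 2) (nat_lit 3) (nat_lit 4) (C.cons (nat_lit 60) (C.miq (nat_lit 354841648) (nat_lit 120896179126660094424318105)) (C.cons (nat_lit 28) (C.node (nat_lit 2) (nat_lit 3)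 (nat_lit 5) (C.cons (nat_lit 44) (C.node (nat_lit 1) (nat_lit 3) (nat_lit 7) C.nil) C.nil)) C.nil))) C.nil)) (C.cons (nat_lit 146) (C.node (nat_lit 2) (nat_lit 3) (nat_lit 4) (C.cons (nat_lit 60) (C.node (nat_lit 2) (nat_lit 4) (nat_lit 9) (C.cons (nat_lit 1556) (C.miq (nat_lit 2453185616) (nat_lit 324027556290061536349193329)) (C.cons (nat_lit 532) (C.node (nat_lit 2) (nat_lit 4) (nat_lit 10) C.nil) C.nil))) (C.cons (nat_lit 28) (C.node (nat_lit 2) (nat_lit 3) (nat_lit 5) (C.cons (nat_lit 44) (C.node (nat_lit 2) (nat_lit 4) (nat_lit 5) (C.cons (nat_lit 52) (C.node (nat_lit 2) (nat_lit 4) (nat_lit 9) (C.cons (nat_lit 532) (C.node (nat_lit 2) (nat_lit 4) (nat_lit 10) C.nil) C.nil)) C.nil)) C.nil)) C.nil))) C.nil))) C.nil)) C.nil))) C.nil))) C.nil))) C.nil)) C.nil))) C.nil))) C.nil))))) C.nil)) C.nil))) C.nil))) C.nil))) C.nil)) (C.cons (nat_lit 134) (C.node (nat_lit 2) (nat_lit 7) (nat_lit 8) (C.cons (nat_lit 388) (C.ref (nat_lit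 117) (nat_lit 11649936536080)) C.nil)) C.nil))) C.nil))) C.nil)) (C.cons (nat_lit 1156) (C.node (nat_lit 4) (nat_lit 6) (nat_lit 9) (C.cons (nat_lit 848) (C.node (nat_lit 6) (nat_lit 7) (nat_lit 9) (C.cons (nat_lit 736) (C.miq (nat_lit 610601111) (nat_lit 1374551700692577744446293889)) (C.cons (nat_lit 704) (C.node (nat_lit 1) (nat_lit 4) (nat_lit 6) (C.cons (nat_lit 90) (C.node (nat_lit 3) (nat_lit 5) (nat_lit 6) (C.cons (nat_lit 232) (C.miq (nat_lit 910710560) (nat_lit 1025174573781498537035759781)) (C.cons (nat_lit 104) (C.node (nat_lit 4) (nat_lit 7) (nat_lit 10) (C.cons (nat_lit 1170) (C.miq (nat_lit 379208455) (nat_lit 1934302894099308197470863513)) (C.cons (nat_lit 1168) (C.node (nat_lit 1) (nat_lit 4) (nat_lit 10) (C.cons (nat_lit 1298) (C.miq (nat_lit 342010000) (nat_lit 256311292716799541526726529)) (C.cons (nat_lit 1042) (C.node (nat_lit 3) (nat_lit 8) (nat_lit 9) (C.cons (nat_lit 778) (C.miq (nat_lit 2169148256) (nat_lit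 1259736140452797114594951757)) (C.cons (nat_lit 776) (C.node (nat_lit 6) (nat_lit 7) (nat_lit 10) (C.cons (nat_lit 1224) (C.miq (nat_lit 430325875) (nat_lit 1934282971739844776735277209)) (C.cons (nat_lit 1216)
  (C.node (nat_lit 3) (nat_lit 6) (nat_lit 7) (C.cons (nat_lit 456) (C.miq (nat_lit 1233326198) (nat_lit 938128096377390336727056579)) (C.cons (nat_lit 200) (C.node (nat_lit 3) (nat_lit 6) (nat_lit 8) (C.cons (nat_lit 1352) (C.miq (nat_lit 428032166) (nat_lit 938128096377390336785777777)) (C.cons (nat_lit 328) (C.node (nat_lit 3) (nat_lit 6) (nat_lit 10) (C.cons (nat_lit 1096) (C.node (nat_lit 1) (nat_lit 4) (nat_lit 7) (C.cons (nat_lit 434) (C.miq (nat_lit 642058631) (nat_lit 1374551700780397937160226689)) (C.cons (nat_lit 402) (C.miq (nat_lit 964976753) (nat_lit 1025170755405969185951580355)) (C.cons (nat_lit 178) (C.miq (nat_lit 1362130018) (nat_lit 13301227778636015437938900)) (C.cons (nat_lit 146) (C.node (nat_lit 4)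 (nat_lit 7) (nat_lit 8) (C.cons (nat_lit 432) (C.miq (nat_lit 642058631) (nat_lit 1374551700780397937160095617)) (C.cons (nat_lit 400) (C.node (nat_lit 2) (nat_lit 3) (nat_lit 7) (C.cons (nat_lit 398) (C.miq (nat_lit 1410795058) (nat_lit 176506213696545456676274765)) (C.cons (nat_lit 396) (C.miq (nat_lit 1417152035) (nat_lit 483575806848879520698335821)) (C.cons (nat_lit 142) (C.miq (nat_lit 1410795058) (nat_lit 176506213696545456659497549)) (C.cons (nat_lit 140) (C.node (nat_lit 2) (nat_lit 5) (nat_lit 6) (C.cons (nat_lit 358) (C.miq (nat_lit 2188596800) (nat_lit 169255093529806928401204337)) (C.cons (nat_lit 356) (C.miq (nat_lit 2188596800) (nat_lit 169255093529243978447783025)) (C.cons (nat_lit 102) (C.miq (nat_lit 326263813) (nat_lit 169251496339277007877899377)) (C.cons (nat_lit 100) (C.node (nat_lit 1) (nat_lit 2) (nat_lit 4) (C.cons (nat_lit 54) (C.node (nat_lit 1) (nat_lit 4) (nat_lit 8) (C.cons (nat_lit 274) (C.node (nat_lit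 4) (nat_lit 5) (nat_lit 8) (C.cons (nat_lit 304) (C.node (nat_lit 1) (nat_lit 2) (nat_lit 7) (C.cons (nat_lit 390) (C.miq (nat_lit 2169139792) (nat_lit 1259736140343584669012394149)) (C.cons (nat_lit 134) (C.node (nat_lit 2) (nat_lit 7) (nat_lit 8) (C.cons (nat_lit 388) (C.node (nat_lit 1) (nat_lit 2) (nat_lit 9) (C.cons (nat_lit 774) (C.miq (nat_lit 2759919250) (nat_lit 331264693487589079120216653)) (C.cons (nat_lit 518) (C.node (nat_lit 4) (nat_lit 5) (nat_lit 7) (C.cons (nat_lit 688) (C.miq (nat_lit 2807171393) (nat_lit 199491779370270193576444435)) (C.cons (nat_lit 176) (C.node (nat_lit 4) (nat_lit 7) (nat_lit 9) (C.cons (nat_lit 656) (C.node (nat_lit 2) (nat_lit 3) (nat_lit 4) C.nil) C.nil)) C.nil))) C.nil))) C.nil)) C.nil))) C.nil)) C.nil)) (C.cons (nat_lit 22) (C.node (nat_lit 1) (nat_lit 2) (nat_lit 6) (C.cons (nat_lit 326) (C.node (nat_lit 1) (nat_lit 2) (nat_lit 7) (C.cons (nat_lit 134) (C.node (nat_lit 1) (nat_lit 6)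 (nat_lit 10) (C.cons (nat_lit 1090) (C.node (nat_lit 2) (nat_lit 7) (nat_lit 8) (C.cons (nat_lit 388) (C.node (nat_lit 6) (nat_lit 8) (nat_lit 10) (C.cons (nat_lit 1344) (C.node (nat_lit 1) (nat_lit 5) (nat_lit 6) (C.cons (nat_lit 610) (C.node (nat_lit 1) (nat_lit 2) (nat_lit 9) (C.cons (nat_lit 518) (C.node (nat_lit 1) (nat_lit 8) (nat_lit 9) C.nil) C.nil)) C.nil)) C.nil)) C.nil)) C.nil)) C.nil)) (C.cons (nat_lit 70) (C.node (nat_lit 2) (nat_lit 6) (nat_lit 8) (C.cons (nat_lit 324) (C.node (nat_lit 1) (nat_lit 2) (nat_lit 7) (C.cons (nat_lit 390) (C.node (nat_lit 3) (nat_lit 7) (nat_lit 8) (C.cons (nat_lit 392) (C.node (nat_lit 1) (nat_lit 6) (nat_lit 10) (C.cons (nat_lit 1346) (C.miq (nat_lit 1444022919) (nat_lit 84627851405839033877006209)) (C.cons (nat_lit 1090) (C.node (nat_lit 6) (nat_lit 8) (nat_lit 10) (C.cons (nat_lit 1344) (C.node (nat_lit 1) (nat_lit 2) (nat_lit 3) (C.cons (nat_lit 46) (C.node (nat_lit 1) (nat_lit 2)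 (nat_lit 9) C.nil) C.nil)) C.nil)) C.nil))) C.nil)) (C.cons (nat_lit 134) (C.node (nat_lit 2) (nat_lit 7) (nat_lit 8) (C.cons (nat_lit 388) (C.node (nat_lit 1) (nat_lit 6) (nat_lit 9) (C.cons (nat_lit 610) (C.node (nat_lit 1) (nat_lit 6) (nat_lit 8) (C.cons (nat_lit 1346) (C.node (nat_lit 1) (nat_lit 2) (nat_lit 9) (C.cons (nat_lit 774)
  (C.miq (nat_lit 1209690400) (nat_lit 1627235127387996781537591885)) C.nil)) C.nil)) C.nil)) C.nil)) C.nil))) C.nil)) C.nil))) C.nil))) C.nil))))) C.nil))))) C.nil))) C.nil))))) C.nil)) C.nil))) C.nil))) C.nil))) C.nil))) C.nil))) C.nil))) C.nil))) (C.cons (nat_lit 82) (C.node (nat_lit 3) (nat_lit 4) (nat_lit 6) (C.cons (nat_lit 88) (C.ref (nat_lit 118) (nat_lit 11649936536080)) C.nil)) C.nil))) C.nil))) (C.cons (nat_lit 592) (C.node (nat_lit 4) (nat_lit 7) (nat_lit 9) (C.cons (nat_lit 688) (C.node (nat_lit 6) (nat_lit 7) (nat_lit 9) (C.cons (nat_lit 704) (C.node (nat_lit 1) (nat_lit 7) (nat_lit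 9) (C.cons (nat_lit 650) (C.node (nat_lit 1) (nat_lit 9) (nat_lit 10) (C.cons (nat_lit 1570) (C.miq (nat_lit 832600404) (nat_lit 1246405342557491434718560944)) (C.cons (nat_lit 1538) (C.node (nat_lit 2) (nat_lit 3) (nat_lit 7) (C.cons (nat_lit 396) (C.miq (nat_lit 2236035170) (nat_lit 831748268889121012655063629)) (C.cons (nat_lit 140) (C.node (nat_lit 4) (nat_lit 7) (nat_lit 8) (C.cons (nat_lit 402) (C.miq (nat_lit 2184659089) (nat_lit 169257030415136814025802259)) (C.cons (nat_lit 400) (C.node (nat_lit 1) (nat_lit 4) (nat_lit 7) (C.cons (nat_lit 1170) (C.miq (nat_lit 1780024435) (nat_lit 1859338776019601159298351257)) (C.cons (nat_lit 146) (C.node (nat_lit 4) (nat_lit 7) (nat_lit 10) (C.cons (nat_lit 1168) (C.node (nat_lit 6) (nat_lit 7) (nat_lit 10) (C.cons (nat_lit 1224) (C.miq (nat_lit 396661600) (nat_lit 1412035152713954007805133389)) (C.cons (nat_lit 1216) (C.node (nat_lit 3) (nat_lit 7) (nat_lit 10) (C.cons (nat_lit 1192)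 (C.miq (nat_lit 329291604) (nat_lit 1248830167065978931780846256)) (C.cons (nat_lit 1160) (C.node (nat_lit 3) (nat_lit 5) (nat_lit 7) (C.cons (nat_lit 232) (C.miq (nat_lit 2205287780) (nat_lit 169254724577755566534034545)) (C.cons (nat_lit 168) (C.node (nat_lit 1) (nat_lit 2) (nat_lit 4) (C.cons (nat_lit 62) (C.miq (nat_lit 2266237234) (nat_lit 176508279952560499046875725)) (C.cons (nat_lit 54) (C.miq (nat_lit 2807171393) (nat_lit 199491779370270193576444435)) (C.cons (nat_lit 30) (C.miq (nat_lit 2266237234) (nat_lit 176508279952560499044778573)) (C.cons (nat_lit 22) (C.node (nat_lit 3) (nat_lit 4) (nat_lit 6) (C.cons (nat_lit 346) (C.miq (nat_lit 2222274080) (nat_lit 831746442675246016420446797)) (C.cons (nat_lit 344) (C.miq (nat_lit 2222274080) (nat_lit 831746442674683066467025485)) (C.cons (nat_lit 90) (C.miq (nat_lit 2803108150) (nat_lit 176524144152463889263100493)) (C.cons (nat_lit 88) (C.node (nat_lit 1) (nat_lit 2) (nat_lit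 7) (C.cons (nat_lit 390) (C.node (nat_lit 1) (nat_lit 4) (nat_lit 6) (C.cons (nat_lit 338) (C.miq (nat_lit 1384384278) (nat_lit 334893426027709135370453187)) (C.cons (nat_lit 82) (C.node (nat_lit 4) (nat_lit 6) (nat_lit 8) (C.cons (nat_lit 336) (C.node (nat_lit 1) (nat_lit 5) (nat_lit 7) (C.cons (nat_lit 1186) (C.miq (nat_lit 1361356672) (nat_lit 26617342313364647037962113)) (C.cons (nat_lit 162) (C.node (nat_lit 1) (nat_lit 7) (nat_lit 10) (C.cons (nat_lit 1154) (C.node (nat_lit 5) (nat_lit 7) (nat_lit 10) C.nil) C.nil)) C.nil))) C.nil)) C.nil))) (C.cons (nat_lit 134) (C.node (nat_lit 2) (nat_lit 7) (nat_lit 8) (C.cons (nat_lit 388) (C.node (nat_lit 1) (nat_lit 4) (nat_lit 6) (C.cons (nat_lit 338) (C.node (nat_lit 4) (nat_lit 5) (nat_lit 8) (C.cons (nat_lit 304) (C.node (nat_lit 1) (nat_lit 4) (nat_lit 5) (C.cons (nat_lit 58) (C.miq (nat_lit 2805270804) (nat_lit 203120512183985731104539155)) (C.cons (nat_lit 50) (C.node (nat_lit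 1) (nat_lit 6) (nat_lit 9) (C.cons (nat_lit 610) (C.miq (nat_lit 1366583600) (nat_lit 176524143783450194799559245)) (C.cons (nat_lit 578) (C.node (nat_lit 2) (nat_lit 6) (nat_lit 8) (C.cons (nat_lit 356) (C.miq (nat_lit 2188596800) (nat_lit 169255093529243978447783025)) (C.cons (nat_lit 324) (C.node (nat_lit 3) (nat_lit 6) (nat_lit 7) (C.cons (nat_lit 456) (C.node (nat_lit 5) (nat_lit 6) (nat_lit 7) C.nil) C.nil)) C.nil))) C.nil))) C.nil))) C.nil)) (C.cons (nat_lit 82) (C.node (nat_lit 4) (nat_lit 6) (nat_lit 8) (C.cons (nat_lit 336)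
  (C.node (nat_lit 1) (nat_lit 7) (nat_lit 8) (C.cons (nat_lit 418) (C.node (nat_lit 1) (nat_lit 7) (nat_lit 10) C.nil) (C.cons (nat_lit 386) (C.node (nat_lit 1) (nat_lit 5) (nat_lit 7) (C.cons (nat_lit 162) (C.node (nat_lit 1) (nat_lit 7) (nat_lit 10) C.nil) C.nil)) C.nil))) C.nil)) C.nil))) C.nil)) C.nil))) C.nil))))) C.nil))))) C.nil))) C.nil))) C.nil))) C.nil)) C.nil))) C.nil))) C.nil))) C.nil))) (C.cons (nat_lit 642) (C.node (nat_lit 3) (nat_lit 7) (nat_lit 9) (C.cons (nat_lit 648) (C.ref (nat_lit 119) (nat_lit 11649936536080)) C.nil)) C.nil))) C.nil)) (C.cons (nat_lit 656) (C.ref (nat_lit 130) (nat_lit 11649936536080)) C.nil))) C.nil))) C.nil))) C.nil))) List.nil)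

theorem ok11_131 : okL par11 (nat_lit 132) c11_131 (nat_lit 131) = true := by decide +kernel

noncomputable def c11_132 : List C :=
  (List.cons (C.node (nat_lit 2) (nat_lit 4) (nat_lit 5) (C.cons (nat_lit 60) (C.node (nat_lit 2) (nat_lit 4) (nat_lit 10) (C.cons (nat_lit 1044) (C.node (nat_lit 2) (nat_lit 9) (nat_lit 10) (C.cons (nat_lit 1572) (C.miq (nat_lit 2032339540) (nat_lit 712060130645580043417027697)) (C.cons (nat_lit 1540) (C.node (nat_lit 2) (nat_lit 5) (nat_lit 10) (C.cons (nat_lit 1316) (C.miq (nat_lit 2455270448) (nat_lit 1590981814993991332308517017)) (C.cons (nat_lit 1060) (C.node (nat_lit 4) (nat_lit 5) (nat_lit 9) (C.cons (nat_lit 816) (C.miq (nat_lit 1951961648) (nat_lit 986518905186676744955429453)) (C.cons (nat_lit 560) (C.node (nat_lit 4) (nat_lit 8) (nat_lit 9) (C.cons (nat_lit 792) (C.node (nat_lit 4) (nat_lit 9) (nat_lit 10) (C.cons (nat_lit 1552) (C.node (nat_lit 2) (nat_lit 8) (nat_lit 10) (C.cons (nat_lit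 1292) (C.miq (nat_lit 305400457) (nat_lit 72545344688187140392617857)) (C.cons (nat_lit 1284) (C.node (nat_lit 4) (nat_lit 8) (nat_lit 10) (C.cons (nat_lit 1298) (C.miq (nat_lit 338864272) (nat_lit 72554568135375666453219201)) (C.cons (nat_lit 1296) (C.node (nat_lit 3) (nat_lit 6) (nat_lit 7) (C.cons (nat_lit 456) (C.miq (nat_lit 339085703) (nat_lit 106389069390648355014051713)) (C.cons (nat_lit 232) (C.miq (nat_lit 2538816008) (nat_lit 280485400157674539814813973)) (C.cons (nat_lit 200) (C.node (nat_lit 1) (nat_lit 4) (nat_lit 10) (C.cons (nat_lit 1050) (C.node (nat_lit 1) (nat_lit 4) (nat_lit 5) (C.cons (nat_lit 434) (C.miq (nat_lit 873896048) (nat_lit 103978485842047569534060417)) (C.cons (nat_lit 306) (C.miq (nat_lit 2017790258) (nat_lit 369934345055565521415307853)) (C.cons (nat_lit 178) (C.miq (nat_lit 2220331808) (nat_lit 215224232309698028410045005)) C.nil)))) C.nil)) C.nil)))) C.nil))) C.nil))) C.nil)) (C.cons (nat_lit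 784) (C.miq (nat_lit 949244018) (nat_lit 947798949466120014301233317)) C.nil))) C.nil))) C.nil))) C.nil))) C.nil)) (C.cons (nat_lit 52) (C.node (nat_lit 2) (nat_lit 8) (nat_lit 9) (C.cons (nat_lit 806) (C.miq (nat_lit 891553943) (nat_lit 62866965055405524516079489)) (C.cons (nat_lit 804) (C.miq (nat_lit 891553943) (nat_lit 62866965055405515926144897)) (C.cons (nat_lit 774) (C.miq (nat_lit 2188022080) (nat_lit 1320182431432402656243548691)) (C.cons (nat_lit 772) (C.node (nat_lit 4) (nat_lit 7) (nat_lit 8) (C.cons (nat_lit 434) (C.miq (nat_lit 843385208) (nat_lit 62869621468742204810987393)) (C.cons (nat_lit 432) (C.miq (nat_lit 843385208) (nat_lit 62869621468742204810856321)) (C.cons (nat_lit 402) (C.miq (nat_lit 2217308512) (nat_lit 797926477254174161398202563)) (C.cons (nat_lit 400) (C.node (nat_lit 1) (nat_lit 2) (nat_lit 9) (C.cons (nat_lit 550) (C.node (nat_lit 2) (nat_lit 9) (nat_lit 10) (C.cons (nat_lit 1540) (C.node (nat_lit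 1) (nat_lit 4) (nat_lit 7) (C.cons (nat_lit 178) (C.miq (nat_lit 844564756) (nat_lit 199475582754048214914171411)) (C.cons (nat_lit 146) (C.node (nat_lit 4) (nat_lit 5) (nat_lit 7) (C.cons (nat_lit 176) (C.node (nat_lit 5) (nat_lit 7) (nat_lit 9) (C.cons (nat_lit 680) (C.miq (nat_lit 1464351008) (nat_lit 483575806720247380479115853)) (C.cons (nat_lit 672) (C.node (nat_lit 1) (nat_lit 6) (nat_lit 9) (C.cons (nat_lit 834) (C.node (nat_lit 5) (nat_lit 6) (nat_lit 9) (C.cons (nat_lit 608) (C.node (nat_lit 3) (nat_lit 8) (nat_lit 9) (C.cons (nat_lit 792) (C.miq (nat_lit 874875248) (nat_lit 62869621525881625065621377)) (C.cons (nat_lit 776) (C.node (nat_lit 5) (nat_lit 6) (nat_lit 8) (C.cons (nat_lit 352) (C.node (nat_lit 6) (nat_lit 7) (nat_lit 8) (C.cons (nat_lit 456) (C.miq (nat_lit 372545648) (nat_lit 106395267581942596237854593)) C.nil)) C.nil)) C.nil))) C.nil)) (C.cons (nat_lit 578) (C.node (nat_lit 1) (nat_lit 7) (nat_lit 9) (C.cons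 (nat_lit 650) (C.node (nat_lit 1) (nat_lit 8) (nat_lit 9) (C.cons (nat_lit 770) (C.node (nat_lit 1) (nat_lit 9) (nat_lit 10) (C.cons (nat_lit 1538) (C.node (nat_lit 3) (nat_lit 8) (nat_lit 9) (C.cons (nat_lit 776) (C.node (nat_lit 4) (nat_lit 8) (nat_lit 9) C.nil) C.nil)) C.nil)) C.nil)) (C.cons (nat_lit 642)
  (C.node (nat_lit 3) (nat_lit 7) (nat_lit 9) (C.cons (nat_lit 648) (C.node (nat_lit 2) (nat_lit 7) (nat_lit 10) (C.cons (nat_lit 1164) (C.node (nat_lit 1) (nat_lit 2) (nat_lit 7) C.nil) C.nil)) C.nil)) C.nil))) C.nil))) C.nil))) C.nil)) C.nil))) C.nil)) (C.cons (nat_lit 518) (C.node (nat_lit 1) (nat_lit 4) (nat_lit 7) (C.cons (nat_lit 178) (C.node (nat_lit 5) (nat_lit 7) (nat_lit 9) (C.cons (nat_lit 680) (C.miq (nat_lit 1464351008) (nat_lit 483575806720247380479115853)) (C.cons (nat_lit 672) (C.node (nat_lit 1) (nat_lit 2) (nat_lit 7) (C.cons (nat_lit 398) (C.miq (nat_lit 2235641954) (nat_lit 215196137779148280965759565))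 (C.cons (nat_lit 390) (C.miq (nat_lit 2820933398) (nat_lit 334893426521979194457850051)) (C.cons (nat_lit 142) (C.miq (nat_lit 910237783) (nat_lit 103970240090310220453118117)) (C.cons (nat_lit 134) (C.node (nat_lit 1) (nat_lit 7) (nat_lit 8) (C.cons (nat_lit 394) (C.node (nat_lit 1) (nat_lit 7) (nat_lit 9) (C.cons (nat_lit 642) (C.node (nat_lit 1) (nat_lit 7) (nat_lit 10) (C.cons (nat_lit 1154) (C.node (nat_lit 2) (nat_lit 7) (nat_lit 8) (C.cons (nat_lit 388) (C.node (nat_lit 3) (nat_lit 6) (nat_lit 7) (C.cons (nat_lit 232) (C.miq (nat_lit 924411200) (nat_lit 776141241390154304223118449)) C.nil)) C.nil)) C.nil)) C.nil)) (C.cons (nat_lit 386) (C.node (nat_lit 1) (nat_lit 7) (nat_lit 9) (C.cons (nat_lit 650) (C.node (nat_lit 1) (nat_lit 7) (nat_lit 10) (C.cons (nat_lit 1154) (C.node (nat_lit 1) (nat_lit 9) (nat_lit 10) (C.cons (nat_lit 1570) (C.miq (nat_lit 877752489) (nat_lit 215200786318122459223689089)) (C.cons (nat_lit 1538)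 (C.node (nat_lit 2) (nat_lit 7) (nat_lit 8) (C.cons (nat_lit 396) (C.miq (nat_lit 843151369) (nat_lit 103979610981971300751443841)) (C.cons (nat_lit 388) (C.node (nat_lit 6) (nat_lit 7) (nat_lit 8) (C.cons (nat_lit 480) (C.miq (nat_lit 928420160) (nat_lit 580295258730240918225486355)) (C.cons (nat_lit 456) (C.miq (nat_lit 1446461585) (nat_lit 551273457584755602264556051)) C.nil))) C.nil))) C.nil))) C.nil)) (C.cons (nat_lit 642) (C.node (nat_lit 3) (nat_lit 7) (nat_lit 9) (C.cons (nat_lit 648) (C.node (nat_lit 3) (nat_lit 5) (nat_lit 6) (C.cons (nat_lit 232) (C.miq (nat_lit 924411200) (nat_lit 776141241390154304223118449)) (C.cons (nat_lit 106) (C.miq (nat_lit 2232681314) (nat_lit 215193905723110933998731853)) (C.cons (nat_lit 104) (C.node (nat_lit 3) (nat_lit 4) (nat_lit 5) (C.cons (nat_lit 568) (C.miq (nat_lit 1983189140) (nat_lit 125731568815256704701170195)) (C.cons (nat_lit 56) (C.node (nat_lit 1) (nat_lit 3) (nat_lit 7) (C.cons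 (nat_lit 1162) (C.node (nat_lit 2) (nat_lit 7) (nat_lit 10) C.nil) (C.cons (nat_lit 138) (C.node (nat_lit 1) (nat_lit 7) (nat_lit 10) C.nil) C.nil))) C.nil))) C.nil)))) C.nil)) C.nil))) C.nil))) C.nil))))) C.nil))) (C.cons (nat_lit 146) (C.node (nat_lit 4) (nat_lit 5) (nat_lit 7) (C.cons (nat_lit 176) (C.node (nat_lit 2) (nat_lit 3) (nat_lit 4) (C.cons (nat_lit 1052) (C.node (nat_lit 2) (nat_lit 7) (nat_lit 10) (C.cons (nat_lit 1156) (C.node (nat_lit 4) (nat_lit 9) (nat_lit 10) (C.cons (nat_lit 1552) (C.node (nat_lit 1) (nat_lit 4) (nat_lit 10) (C.cons (nat_lit 1298) (C.miq (nat_lit 2166989920) (nat_lit 626259011121098397722674289)) (C.cons (nat_lit 1042) (C.node (nat_lit 4) (nat_lit 8) (nat_lit 10) (C.cons (nat_lit 1296) (C.node (nat_lit 1) (nat_lit 2) (nat_lit 7) (C.cons (nat_lit 398) (C.miq (nat_lit 1681328673) (nat_lit 184969247836174203944305671)) (C.cons (nat_lit 390) (C.miq (nat_lit 2185916768) (nat_lit 1271825398539731098198409411))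 (C.cons (nat_lit 142) (C.miq (nat_lit 1681328673) (nat_lit 184969247836174203927528455)) C.nil)))) C.nil)) C.nil))) C.nil)) C.nil)) (C.cons (nat_lit 28) (C.node (nat_lit 2) (nat_lit 4) (nat_lit 10) (C.cons (nat_lit 1044) (C.node (nat_lit 2) (nat_lit 5) (nat_lit 9) (C.cons (nat_lit 1572) (C.node (nat_lit 4) (nat_lit 9) (nat_lit 10) (C.cons (nat_lit 1560) (C.miq (nat_lit 1922237860) (nat_lit 712060130151309984411419761)) (C.cons (nat_lit 1552) (C.node (nat_lit 1) (nat_lit 9) (nat_lit 10) (C.cons (nat_lit 1546)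
  (C.node (nat_lit 1) (nat_lit 4) (nat_lit 10) (C.cons (nat_lit 1298) (C.miq (nat_lit 826448512) (nat_lit 103978486054283412831012737)) (C.cons (nat_lit 1042) (C.node (nat_lit 1) (nat_lit 6) (nat_lit 10) (C.cons (nat_lit 1346) (C.node (nat_lit 3) (nat_lit 6) (nat_lit 10) C.nil) C.nil)) C.nil))) (C.cons (nat_lit 1538) (C.node (nat_lit 3) (nat_lit 9) (nat_lit 10) (C.cons (nat_lit 1544) (C.node (nat_lit 3) (nat_lit 4) (nat_lit 9) (C.cons (nat_lit 792) (C.miq (nat_lit 874875248) (nat_lit 62869621525881625065621377)) (C.cons (nat_lit 568) (C.node (nat_lit 4) (nat_lit 8) (nat_lit 9) C.nil) C.nil))) C.nil)) C.nil))) C.nil))) (C.cons (nat_lit 548) (C.node (nat_lit 2) (nat_lit 9) (nat_lit 10) (C.cons (nat_lit 1540) (C.node (nat_lit 2) (nat_lit 7) (nat_lit 10) (C.cons (nat_lit 1164) (C.node (nat_lit 1) (nat_lit 2) (nat_lit 7) (C.cons (nat_lit 390) (C.miq (nat_lit 2185916768) (nat_lit 1262153991982814064800760003)) C.nil)) (C.cons (nat_lit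 1156) (C.node (nat_lit 1) (nat_lit 2) (nat_lit 7) (C.cons (nat_lit 398) (C.miq (nat_lit 2754086423) (nat_lit 334907888548655295355551939)) C.nil)) C.nil))) C.nil)) C.nil))) C.nil)) C.nil))) C.nil)) C.nil))) C.nil))) C.nil))))) C.nil))))) C.nil))) (List.cons (C.node (nat_lit 2) (nat_lit 4) (nat_lit 9) (C.cons (nat_lit 1556) (C.miq (nat_lit 395468964) (nat_lit 778549814306707398724945009)) (C.cons (nat_lit 564) (C.node (nat_lit 2) (nat_lit 9) (nat_lit 10) (C.cons (nat_lit 1540) (C.node (nat_lit 1) (nat_lit 2) (nat_lit 9) (C.cons (nat_lit 774) (C.miq (nat_lit 2188022080) (nat_lit 1320182431432402656243548691)) (C.cons (nat_lit 518) (C.node (nat_lit 2) (nat_lit 8) (nat_lit 9) (C.cons (nat_lit 772) (C.node (nat_lit 1) (nat_lit 4) (nat_lit 7) (C.cons (nat_lit 434) (C.miq (nat_lit 1649871169) (nat_lit 199476357517299370861658643)) (C.cons (nat_lit 402) (C.miq (nat_lit 2217308512) (nat_lit 681869598571169760626409667)) (C.cons (nat_lit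 178) (C.miq (nat_lit 1649871169) (nat_lit 199476357517299370844881427)) (C.cons (nat_lit 146) (C.node (nat_lit 2) (nat_lit 3) (nat_lit 4) (C.cons (nat_lit 1052) (C.node (nat_lit 4) (nat_lit 9) (nat_lit 10) (C.cons (nat_lit 1552) (C.node (nat_lit 1) (nat_lit 4) (nat_lit 10) (C.cons (nat_lit 1298) (C.miq (nat_lit 2166989920) (nat_lit 626259011121098397722674289)) (C.cons (nat_lit 1042) (C.node (nat_lit 4) (nat_lit 8) (nat_lit 10) (C.cons (nat_lit 1296) (C.node (nat_lit 3) (nat_lit 4) (nat_lit 5) C.nil) C.nil)) C.nil))) C.nil)) (C.cons (nat_lit 28) (C.node (nat_lit 2) (nat_lit 4) (nat_lit 10) (C.cons (nat_lit 1044) (C.node (nat_lit 1) (nat_lit 2) (nat_lit 7) (C.cons (nat_lit 398) (C.miq (nat_lit 2185916768) (nat_lit 1262153991985065864614445251)) C.nil)) C.nil)) C.nil))) C.nil))))) C.nil)) C.nil))) C.nil)) (C.cons (nat_lit 532) (C.node (nat_lit 2) (nat_lit 4) (nat_lit 5) (C.cons (nat_lit 60) (C.node (nat_lit 2) (nat_lit 4) (nat_lit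 10) (C.cons (nat_lit 1044) (C.node (nat_lit 2) (nat_lit 9) (nat_lit 10) (C.cons (nat_lit 1572) (C.miq (nat_lit 2032339540) (nat_lit 712060130645580043417027697)) (C.cons (nat_lit 1540) (C.node (nat_lit 2) (nat_lit 5) (nat_lit 10) (C.cons (nat_lit 1316) (C.miq (nat_lit 2722596144) (nat_lit 178956457868752040964456745)) (C.cons (nat_lit 1060) (C.node (nat_lit 4) (nat_lit 9) (nat_lit 10) (C.cons (nat_lit 1560) (C.miq (nat_lit 2033322565) (nat_lit 712060352006508876392039537)) (C.cons (nat_lit 1552) (C.node (nat_lit 3) (nat_lit 4) (nat_lit 9) (C.cons (nat_lit 792) (C.miq (nat_lit 2485617488) (nat_lit 178956457721259153168859433)) (C.cons (nat_lit 536) (C.node (nat_lit 1) (nat_lit 2) (nat_lit 3) (C.cons (nat_lit 398) (C.miq (nat_lit 2185916768) (nat_lit 1262153991985065864614445251)) (C.cons (nat_lit 270) (C.miq (nat_lit 1619084594) (nat_lit 313113374020217619413336124)) (C.cons (nat_lit 142) (C.miq (nat_lit 323383888) (nat_lit 106389069281151445202174117))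 (C.cons (nat_lit 14) (C.node (nat_lit 1) (nat_lit 2) (nat_lit 7) (C.cons (nat_lit 390) (C.miq (nat_lit 2185916768) (nat_lit 1262153991982814064800760003)) (C.cons (nat_lit 134)
  (C.node (nat_lit 2) (nat_lit 3) (nat_lit 7) C.nil) C.nil))) C.nil))))) C.nil))) C.nil))) C.nil))) C.nil))) C.nil)) (C.cons (nat_lit 52) (C.node (nat_lit 2) (nat_lit 3) (nat_lit 4) (C.cons (nat_lit 1052) (C.node (nat_lit 4) (nat_lit 9) (nat_lit 10) (C.cons (nat_lit 1552) (C.node (nat_lit 1) (nat_lit 4) (nat_lit 10) (C.cons (nat_lit 1298) (C.miq (nat_lit 2221515040) (nat_lit 715719521772580956650931207)) (C.cons (nat_lit 1042) (C.node (nat_lit 4) (nat_lit 8) (nat_lit 10) (C.cons (nat_lit 1296) (C.node (nat_lit 1) (nat_lit 2) (nat_lit 7) (C.cons (nat_lit 398) (C.miq (nat_lit 1681328673) (nat_lit 184969247836174203944305671)) (C.cons (nat_lit 390) (C.miq (nat_lit 2185916768) (nat_lit 1271825398539731098198409411)) (C.cons (nat_lit 142) (C.miq (nat_lit 1681328673)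 (nat_lit 184969247836174203927528455)) (C.cons (nat_lit 134) (C.node (nat_lit 1) (nat_lit 4) (nat_lit 7) (C.cons (nat_lit 434) (C.miq (nat_lit 2217308512) (nat_lit 643183972352508826290553027)) C.nil)) C.nil))))) C.nil)) C.nil))) C.nil)) (C.cons (nat_lit 28) (C.node (nat_lit 2) (nat_lit 4) (nat_lit 10) (C.cons (nat_lit 1044) (C.node (nat_lit 2) (nat_lit 9) (nat_lit 10) (C.cons (nat_lit 1572) (C.node (nat_lit 1) (nat_lit 2) (nat_lit 9) (C.cons (nat_lit 774) (C.miq (nat_lit 2188022080) (nat_lit 1320182431432402656243548691)) (C.cons (nat_lit 518) (C.node (nat_lit 2) (nat_lit 8) (nat_lit 9) (C.cons (nat_lit 772) (C.node (nat_lit 4) (nat_lit 9) (nat_lit 10) (C.cons (nat_lit 1560) (C.miq (nat_lit 1922237860) (nat_lit 712060130151309984411419761)) C.nil)) C.nil)) C.nil))) (C.cons (nat_lit 1540) (C.node (nat_lit 4) (nat_lit 9) (nat_lit 10) (C.cons (nat_lit 1560) (C.node (nat_lit 1) (nat_lit 4) (nat_lit 10) (C.cons (nat_lit 1298) (C.miq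 (nat_lit 2221515040) (nat_lit 715719521772580956650931207)) (C.cons (nat_lit 1042) (C.node (nat_lit 4) (nat_lit 8) (nat_lit 10) C.nil) C.nil))) (C.cons (nat_lit 1552) (C.node (nat_lit 2) (nat_lit 7) (nat_lit 8) (C.cons (nat_lit 398) (C.miq (nat_lit 2185916768) (nat_lit 1262153991985065864614445251)) (C.cons (nat_lit 396) (C.node (nat_lit 1) (nat_lit 2) (nat_lit 7) C.nil) (C.cons (nat_lit 390) (C.miq (nat_lit 2185916768) (nat_lit 1262153991982814064800760003)) C.nil)))) C.nil))) C.nil))) C.nil)) C.nil))) C.nil))) C.nil)))) List.nil))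

theorem ok11_132 : okL par11 (nat_lit 134) c11_132 (nat_lit 132) = true := by decide +kernel

noncomputable def c11_134 : List C :=
  (List.cons (C.node (nat_lit 2) (nat_lit 5) (nat_lit 6) (C.cons (nat_lit 356) (C.node (nat_lit 2) (nat_lit 8) (nat_lit 9) (C.cons (nat_lit 774) (C.miq (nat_lit 2821064980) (nat_lit 430398566271536548527079955)) (C.cons (nat_lit 772) (C.node (nat_lit 3) (nat_lit 4) (nat_lit 6) (C.cons (nat_lit 344) (C.miq (nat_lit 1919157635) (nat_lit 103970442885146286774288681)) (C.cons (nat_lit 88) (C.node (nat_lit 1) (nat_lit 5) (nat_lit 6) (C.cons (nat_lit 610) (C.miq (nat_lit 1477009985) (nat_lit 2322357752093793888886784086)) (C.cons (nat_lit 106) (C.miq (nat_lit 1076963414) (nat_lit 13299770513721104104292708)) (C.cons (nat_lit 98) (C.node (nat_lit 3) (nat_lit 5) (nat_lit 6) (C.cons (nat_lit 232) (C.miq (nat_lit 2218139765) (nat_lit 106392039244946833668571301)) (C.cons (nat_lit 104) (C.node (nat_lit 4) (nat_lit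 6) (nat_lit 8) (C.cons (nat_lit 848) (C.miq (nat_lit 2824997185) (nat_lit 430396610916665053142188563)) (C.cons (nat_lit 464) (C.miq (nat_lit 2822899553) (nat_lit 334891471167107699072958659)) (C.cons (nat_lit 336) (C.node (nat_lit 1) (nat_lit 2) (nat_lit 8) (C.cons (nat_lit 398) (C.miq (nat_lit 2820933398) (nat_lit 334893426521979228817588419)) (C.cons (nat_lit 390) (C.miq (nat_lit 2820933398) (nat_lit 334893426521979194457850051)) (C.cons (nat_lit 270) (C.miq (nat_lit 828736064) (nat_lit 118480209081222164011614485)) (C.cons (nat_lit 262) (C.node (nat_lit 2) (nat_lit 7) (nat_lit 8) (C.cons (nat_lit 396) (C.miq (nat_lit 946106960) (nat_lit 406201897853824300122964133)) (C.cons (nat_lit 388) (C.node (nat_lit 4) (nat_lit 7) (nat_lit 8) (C.cons (nat_lit 434) (C.miq (nat_lit 847709780) (nat_lit 469066040528109687666771057)) (C.cons (nat_lit 432) (C.miq (nat_lit 847709780) (nat_lit 469066040528109687666639985)) (C.cons (nat_lit 402)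 (C.miq (nat_lit 2554464022) (nat_lit 334883317706226853163172035)) (C.cons (nat_lit 400) (C.node (nat_lit 1) (nat_lit 6) (nat_lit 9) (C.cons (nat_lit 834) (C.node (nat_lit 3) (nat_lit 8) (nat_lit 9) (C.cons (nat_lit 792) (C.miq (nat_lit 407333168) (nat_lit 483573925195699575445848653)) (C.cons (nat_lit 776) (C.node (nat_lit 5) (nat_lit 7) (nat_lit 8) (C.cons (nat_lit 418) (C.miq (nat_lit 638912903) (nat_lit 118477774200798164509919105)) (C.cons (nat_lit 416) (C.node (nat_lit 6) (nat_lit 7) (nat_lit 8) (C.cons (nat_lit 456) (C.miq (nat_lit 372545648) (nat_lit 106395267581942596237854593)) (C.cons (nat_lit 448) (C.node (nat_lit 1) (nat_lit 3) (nat_lit 6) (C.cons (nat_lit 1098) (C.node (nat_lit 3) (nat_lit 6) (nat_lit 7) (C.cons (nat_lit 200) (C.node (nat_lit 3) (nat_lit 6) (nat_lit 8) (C.cons (nat_lit 328) (C.node (nat_lit 6) (nat_lit 8) (nat_lit 10) (C.cons (nat_lit 1344) (C.node (nat_lit 1) (nat_lit 7) (nat_lit 8) (C.cons (nat_lit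 394) (C.node (nat_lit 3) (nat_lit 4) (nat_lit 8) (C.cons (nat_lit 1304) (C.miq (nat_lit 1125558384) (nat_lit 1327421524251919703448160129)) (C.cons (nat_lit 280) (C.node (nat_lit 2) (nat_lit 3) (nat_lit 8) (C.cons (nat_lit 268) (C.node (nat_lit 2) (nat_lit 8) (nat_lit 10) C.nil) C.nil)) C.nil))) (C.cons (nat_lit 386) (C.node (nat_lit 3) (nat_lit 7) (nat_lit 8) (C.cons (nat_lit 392) (C.node (nat_lit 1) (nat_lit 3) (nat_lit 8) (C.cons (nat_lit 282) (C.node (nat_lit 4) (nat_lit 8) (nat_lit 10) C.nil) C.nil)) C.nil)) C.nil))) C.nil)) C.nil)) C.nil)) (C.cons (nat_lit 74) (C.node (nat_lit 1) (nat_lit 6) (nat_lit 10) (C.cons (nat_lit 1090) (C.node (nat_lit 1) (nat_lit 7) (nat_lit 8) (C.cons (nat_lit 394) (C.node (nat_lit 3) (nat_lit 4) (nat_lit 8) (C.cons (nat_lit 1304) (C.miq (nat_lit 1125558384) (nat_lit 89481484966539428549035905)) (C.cons (nat_lit 280) (C.node (nat_lit 4) (nat_lit 8) (nat_lit 10) (C.cons (nat_lit 1298) (C.miq (nat_lit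 2551319110) (nat_lit 316749430412011263833277553)) (C.cons (nat_lit 1296) (C.node (nat_lit 1) (nat_lit 4) (nat_lit 8) (C.cons (nat_lit 306) (C.miq (nat_lit 672752960) (nat_lit 1008254998791066552634639473)) (C.cons (nat_lit 274) (C.node (nat_lit 1) (nat_lit 2) (nat_lit 3) (C.cons (nat_lit 46) (C.node (nat_lit 1) (nat_lit 2) (nat_lit 7)
  (C.cons (nat_lit 646) (C.miq (nat_lit 1483813010) (nat_lit 476317621561997604231184973)) (C.cons (nat_lit 134) (C.node (nat_lit 3) (nat_lit 6) (nat_lit 8) C.nil) C.nil))) (C.cons (nat_lit 14) (C.node (nat_lit 1) (nat_lit 5) (nat_lit 8) (C.cons (nat_lit 290) (C.node (nat_lit 1) (nat_lit 8) (nat_lit 10) C.nil) C.nil)) C.nil))) C.nil))) C.nil))) C.nil))) (C.cons (nat_lit 386) (C.node (nat_lit 3) (nat_lit 7) (nat_lit 8) (C.cons (nat_lit 392) (C.node (nat_lit 2) (nat_lit 3) (nat_lit 8) (C.cons (nat_lit 1292) (C.node (nat_lit 3) (nat_lit 6) (nat_lit 8) (C.cons (nat_lit 328) (C.node (nat_lit 6) (nat_lit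 8) (nat_lit 10) (C.cons (nat_lit 1344) (C.node (nat_lit 1) (nat_lit 3) (nat_lit 8) C.nil) C.nil)) C.nil)) (C.cons (nat_lit 268) (C.node (nat_lit 2) (nat_lit 8) (nat_lit 10) (C.cons (nat_lit 1284) (C.node (nat_lit 2) (nat_lit 6) (nat_lit 7) (C.cons (nat_lit 1220) (C.node (nat_lit 3) (nat_lit 6) (nat_lit 8) (C.cons (nat_lit 1352) (C.miq (nat_lit 908429936) (nat_lit 430383070846357286315952001)) C.nil)) (C.cons (nat_lit 196) (C.node (nat_lit 2) (nat_lit 6) (nat_lit 10) (C.cons (nat_lit 1092) (C.node (nat_lit 3) (nat_lit 6) (nat_lit 8) (C.cons (nat_lit 1352) (C.node (nat_lit 1) (nat_lit 3) (nat_lit 8) C.nil) C.nil)) C.nil)) C.nil))) C.nil)) C.nil))) C.nil)) C.nil))) C.nil)) C.nil))) C.nil))) C.nil))) C.nil))) (C.cons (nat_lit 578) (C.node (nat_lit 6) (nat_lit 8) (nat_lit 9) (C.cons (nat_lit 832) (C.node (nat_lit 2) (nat_lit 3) (nat_lit 8) (C.cons (nat_lit 1292) (C.node (nat_lit 4) (nat_lit 8) (nat_lit 10) (C.cons (nat_lit 1298) (C.miq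 (nat_lit 2551319110) (nat_lit 316749430412011263833277553)) (C.cons (nat_lit 1296) (C.node (nat_lit 6) (nat_lit 7) (nat_lit 8) (C.cons (nat_lit 456) (C.miq (nat_lit 305531527) (nat_lit 712060905158317207380821889)) (C.cons (nat_lit 448) (C.node (nat_lit 2) (nat_lit 3) (nat_lit 4) (C.cons (nat_lit 60) (C.node (nat_lit 1) (nat_lit 2) (nat_lit 3) (C.cons (nat_lit 142) (C.miq (nat_lit 323383888) (nat_lit 106389069281151445202174117)) (C.cons (nat_lit 14) (C.node (nat_lit 2) (nat_lit 3) (nat_lit 7) (C.cons (nat_lit 140) (C.node (nat_lit 2) (nat_lit 5) (nat_lit 10) (C.cons (nat_lit 1572) (C.miq (nat_lit 2453120320) (nat_lit 169285051383892601604736113)) (C.cons (nat_lit 1060) (C.node (nat_lit 2) (nat_lit 9) (nat_lit 10) (C.cons (nat_lit 1556) (C.miq (nat_lit 2453185616) (nat_lit 1561967595575441811248317553)) (C.cons (nat_lit 1540) (C.node (nat_lit 1) (nat_lit 2) (nat_lit 7) (C.cons (nat_lit 646) (C.miq (nat_lit 1251106929) (nat_lit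 1861747348946564567263477955)) (C.cons (nat_lit 134) (C.node (nat_lit 2) (nat_lit 4) (nat_lit 9) (C.cons (nat_lit 660) (C.miq (nat_lit 1484009618) (nat_lit 483571434734102411214062157)) (C.cons (nat_lit 532) (C.node (nat_lit 2) (nat_lit 7) (nat_lit 9) (C.cons (nat_lit 644) (C.node (nat_lit 2) (nat_lit 4) (nat_lit 7) (C.cons (nat_lit 1172) (C.miq (nat_lit 1916314704) (nat_lit 1561967595467355420191425649)) (C.cons (nat_lit 148) (C.node (nat_lit 2) (nat_lit 4) (nat_lit 10) (C.cons (nat_lit 1044) (C.node (nat_lit 2) (nat_lit 6) (nat_lit 7) (C.cons (nat_lit 1220) (C.miq (nat_lit 2535524964) (nat_lit 162005855590182119309444209)) C.nil)) C.nil)) C.nil))) C.nil)) C.nil))) C.nil))) C.nil))) C.nil))) C.nil)) C.nil))) (C.cons (nat_lit 28) (C.node (nat_lit 2) (nat_lit 3) (nat_lit 5) (C.cons (nat_lit 46) (C.node (nat_lit 2) (nat_lit 3) (nat_lit 7) (C.cons (nat_lit 140) (C.node (nat_lit 5) (nat_lit 8) (nat_lit 10) (C.cons (nat_lit 1314) (C.miq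 (nat_lit 2555578898) (nat_lit 359061834098523353664848903)) (C.cons (nat_lit 1312) (C.node (nat_lit 1) (nat_lit 2) (nat_lit 7) (C.cons (nat_lit 646) (C.node (nat_lit 2) (nat_lit 4) (nat_lit 5) (C.cons (nat_lit 564) (C.miq (nat_lit 1697055889) (nat_lit 199476357671547658112991763)) (C.cons (nat_lit 52) (C.node (nat_lit 2) (nat_lit 4) (nat_lit 7) (C.cons (nat_lit 1172) (C.miq (nat_lit 346498569) (nat_lit 1416872977209228740626809421)) (C.cons (nat_lit 148) (C.node (nat_lit 2) (nat_lit 4) (nat_lit 9) (C.cons (nat_lit 1556)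
  (C.node (nat_lit 2) (nat_lit 5) (nat_lit 9) (C.cons (nat_lit 548) (C.node (nat_lit 2) (nat_lit 5) (nat_lit 10) (C.cons (nat_lit 1060) (C.node (nat_lit 2) (nat_lit 6) (nat_lit 7) (C.cons (nat_lit 1220) (C.node (nat_lit 3) (nat_lit 6) (nat_lit 7) (C.cons (nat_lit 200) (C.node (nat_lit 3) (nat_lit 4) (nat_lit 10) (C.cons (nat_lit 1050) (C.miq (nat_lit 1900699794) (nat_lit 1269394615678020460282643021)) (C.cons (nat_lit 1048) (C.node (nat_lit 1) (nat_lit 3) (nat_lit 4) (C.cons (nat_lit 282) (C.miq (nat_lit 2436395600) (nat_lit 340952517508524055858839717)) (C.cons (nat_lit 26) (C.node (nat_lit 3) (nat_lit 6) (nat_lit 8) C.nil) C.nil))) C.nil))) C.nil)) C.nil)) C.nil)) C.nil)) (C.cons (nat_lit 532) (C.miq (nat_lit 2837710614) (nat_lit 643169510523710733519552707)) C.nil))) C.nil))) C.nil))) (C.cons (nat_lit 134) (C.node (nat_lit 1) (nat_lit 2) (nat_lit 9) (C.cons (nat_lit 518) (C.node (nat_lit 2) (nat_lit 6) (nat_lit 7) (C.cons (nat_lit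 1220) (C.miq (nat_lit 1914283584) (nat_lit 626259011099143349535442033)) (C.cons (nat_lit 196) (C.node (nat_lit 2) (nat_lit 6) (nat_lit 10) (C.cons (nat_lit 1092) (C.node (nat_lit 4) (nat_lit 6) (nat_lit 7) (C.cons (nat_lit 720) (C.miq (nat_lit 1982501904) (nat_lit 1320182431417203007494226451)) (C.cons (nat_lit 208) (C.node (nat_lit 4) (nat_lit 6) (nat_lit 9) (C.cons (nat_lit 592) (C.node (nat_lit 1) (nat_lit 8) (nat_lit 10) C.nil) C.nil)) C.nil))) C.nil)) C.nil))) C.nil)) C.nil))) C.nil))) C.nil)) (C.cons (nat_lit 44) (C.node (nat_lit 1) (nat_lit 2) (nat_lit 3) (C.cons (nat_lit 142) (C.node (nat_lit 3) (nat_lit 7) (nat_lit 8) (C.cons (nat_lit 392) (C.node (nat_lit 2) (nat_lit 6) (nat_lit 7) (C.cons (nat_lit 1220) (C.miq (nat_lit 2535524964) (nat_lit 171677262147099152707093617)) (C.cons (nat_lit 196) (C.node (nat_lit 2) (nat_lit 6) (nat_lit 10) (C.cons (nat_lit 1092) (C.node (nat_lit 4) (nat_lit 6) (nat_lit 7) (C.cons (nat_lit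 720) (C.miq (nat_lit 1982501904) (nat_lit 1320182431417203007494226451)) (C.cons (nat_lit 208) (C.node (nat_lit 4) (nat_lit 6) (nat_lit 9) (C.cons (nat_lit 592) (C.node (nat_lit 1) (nat_lit 4) (nat_lit 7) (C.cons (nat_lit 1170) (C.miq (nat_lit 2534541894) (nat_lit 171678332058255213112722545)) (C.cons (nat_lit 178) (C.miq (nat_lit 910237783) (nat_lit 103970240090310220453118117)) (C.cons (nat_lit 146) (C.node (nat_lit 1) (nat_lit 4) (nat_lit 10) (C.cons (nat_lit 1050) (C.miq (nat_lit 1412893202) (nat_lit 184968694433851984051045383)) (C.cons (nat_lit 1042) (C.node (nat_lit 2) (nat_lit 4) (nat_lit 5) (C.cons (nat_lit 52) (C.node (nat_lit 1) (nat_lit 2) (nat_lit 5) C.nil) C.nil)) C.nil))) C.nil)))) C.nil)) C.nil))) C.nil)) C.nil))) C.nil)) (C.cons (nat_lit 14) (C.node (nat_lit 2) (nat_lit 3) (nat_lit 7) (C.cons (nat_lit 140) (C.node (nat_lit 1) (nat_lit 2) (nat_lit 5) (C.cons (nat_lit 550) (C.node (nat_lit 1) (nat_lit 2) (nat_lit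 7) (C.cons (nat_lit 134) (C.node (nat_lit 2) (nat_lit 4) (nat_lit 5) (C.cons (nat_lit 52) (C.node (nat_lit 2) (nat_lit 5) (nat_lit 10) (C.cons (nat_lit 1060) (C.node (nat_lit 1) (nat_lit 9) (nat_lit 10) (C.cons (nat_lit 1546) (C.miq (nat_lit 321165952) (nat_lit 33859718605478619774257025)) (C.cons (nat_lit 1538) (C.node (nat_lit 2) (nat_lit 6) (nat_lit 7) (C.cons (nat_lit 1220) (C.miq (nat_lit 1914283584) (nat_lit 664944637326811483126039665)) (C.cons (nat_lit 196) (C.node (nat_lit 2) (nat_lit 6) (nat_lit 10) (C.cons (nat_lit 1092) (C.node (nat_lit 2) (nat_lit 7) (nat_lit 9) C.nil) C.nil)) C.nil))) C.nil))) C.nil)) C.nil)) C.nil)) (C.cons (nat_lit 38) (C.node (nat_lit 1) (nat_lit 2) (nat_lit 7) (C.cons (nat_lit 646) (C.node (nat_lit 2) (nat_lit 4) (nat_lit 5) (C.cons (nat_lit 564) (C.miq (nat_lit 1697055889) (nat_lit 199476357671547658112991763)) (C.cons (nat_lit 52) (C.node (nat_lit 2) (nat_lit 4) (nat_lit 7) (C.cons (nat_lit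 1172) (C.miq (nat_lit 346498569) (nat_lit 1416872977209228740626809421)) (C.cons (nat_lit 148) (C.node (nat_lit 2) (nat_lit 4) (nat_lit 9) (C.cons (nat_lit 1556) (C.node (nat_lit 3) (nat_lit 6) (nat_lit 7)
  (C.cons (nat_lit 1224) (C.miq (nat_lit 645546249) (nat_lit 1479753906366292487544308243)) C.nil)) (C.cons (nat_lit 532) (C.miq (nat_lit 2837710614) (nat_lit 643169510523710733519552707)) C.nil))) C.nil))) C.nil))) (C.cons (nat_lit 134) (C.node (nat_lit 1) (nat_lit 2) (nat_lit 9) (C.cons (nat_lit 518) (C.node (nat_lit 2) (nat_lit 6) (nat_lit 7) (C.cons (nat_lit 1220) (C.miq (nat_lit 1914283584) (nat_lit 626259011099143349535442033)) (C.cons (nat_lit 196) (C.node (nat_lit 2) (nat_lit 6) (nat_lit 10) (C.cons (nat_lit 1092) (C.node (nat_lit 2) (nat_lit 4) (nat_lit 5) (C.cons (nat_lit 564) (C.node (nat_lit 2) (nat_lit 5) (nat_lit 10) C.nil) C.nil)) C.nil)) C.nil))) C.nil)) C.nil))) C.nil))) C.nil)) C.nil))) C.nil))) C.nil))) C.nil)))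 C.nil))) (C.cons (nat_lit 268) (C.node (nat_lit 2) (nat_lit 8) (nat_lit 10) (C.cons (nat_lit 1284) (C.node (nat_lit 2) (nat_lit 6) (nat_lit 7) (C.cons (nat_lit 1220) (C.node (nat_lit 2) (nat_lit 3) (nat_lit 7) (C.cons (nat_lit 142) (C.miq (nat_lit 2535524964) (nat_lit 171677262147099152707093617)) (C.cons (nat_lit 140) (C.node (nat_lit 1) (nat_lit 2) (nat_lit 7) (C.cons (nat_lit 646) (C.node (nat_lit 2) (nat_lit 4) (nat_lit 7) (C.cons (nat_lit 148) (C.node (nat_lit 4) (nat_lit 6) (nat_lit 7) (C.cons (nat_lit 720) (C.node (nat_lit 5) (nat_lit 6) (nat_lit 7) (C.cons (nat_lit 224) (C.node (nat_lit 5) (nat_lit 6) (nat_lit 9) (C.cons (nat_lit 608) (C.node (nat_lit 4) (nat_lit 5) (nat_lit 7) (C.cons (nat_lit 178) (C.miq (nat_lit 2705793174) (nat_lit 215211301209376900414177869)) (C.cons (nat_lit 176) (C.node (nat_lit 1) (nat_lit 4) (nat_lit 7) (C.cons (nat_lit 1170) (C.node (nat_lit 2) (nat_lit 4) (nat_lit 9) (C.cons (nat_lit 1556) (C.node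 (nat_lit 2) (nat_lit 5) (nat_lit 9) (C.cons (nat_lit 548) (C.node (nat_lit 3) (nat_lit 6) (nat_lit 7) (C.cons (nat_lit 200) (C.node (nat_lit 6) (nat_lit 7) (nat_lit 8) (C.cons (nat_lit 448) (C.node (nat_lit 3) (nat_lit 7) (nat_lit 8) C.nil) C.nil)) C.nil)) C.nil)) (C.cons (nat_lit 564) (C.miq (nat_lit 1383483664) (nat_lit 1474910474036614062328185363)) (C.cons (nat_lit 532) (C.miq (nat_lit 2722723344) (nat_lit 643183972573748157981327555)) C.nil)))) (C.cons (nat_lit 146) (C.miq (nat_lit 2705793174) (nat_lit 176525674981708766823580237)) C.nil))) C.nil))) C.nil)) C.nil)) (C.cons (nat_lit 208) (C.miq (nat_lit 2489782434) (nat_lit 251468487225982580800357383)) C.nil))) C.nil)) (C.cons (nat_lit 134) (C.miq (nat_lit 2535524964) (nat_lit 162005855590182119309444209)) C.nil))) C.nil))) (C.cons (nat_lit 196) (C.node (nat_lit 2) (nat_lit 6) (nat_lit 10) (C.cons (nat_lit 1092) (C.node (nat_lit 4) (nat_lit 6) (nat_lit 7) (C.cons (nat_lit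 720) (C.miq (nat_lit 1982501904) (nat_lit 1320182431417203007494226451)) (C.cons (nat_lit 208) (C.node (nat_lit 4) (nat_lit 6) (nat_lit 9) (C.cons (nat_lit 592) (C.node (nat_lit 5) (nat_lit 6) (nat_lit 7) (C.cons (nat_lit 736) (C.node (nat_lit 2) (nat_lit 9) (nat_lit 10) (C.cons (nat_lit 1572) (C.miq (nat_lit 627157360) (nat_lit 118493749357855478166783873)) (C.cons (nat_lit 1556) (C.miq (nat_lit 2489819664) (nat_lit 251492007113183897529287687)) (C.cons (nat_lit 1540) (C.node (nat_lit 2) (nat_lit 5) (nat_lit 10) (C.cons (nat_lit 1068) (C.node (nat_lit 2) (nat_lit 3) (nat_lit 4) (C.cons (nat_lit 28) (C.node (nat_lit 6) (nat_lit 7) (nat_lit 8) (C.cons (nat_lit 456) (C.node (nat_lit 6) (nat_lit 7) (nat_lit 10) C.nil) C.nil)) C.nil)) (C.cons (nat_lit 1060) (C.node (nat_lit 6) (nat_lit 7) (nat_lit 8) (C.cons (nat_lit 456) (C.node (nat_lit 6) (nat_lit 7) (nat_lit 10) C.nil) C.nil)) C.nil))) C.nil)))) (C.cons (nat_lit 224) (C.node (nat_lit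 5) (nat_lit 6) (nat_lit 9) (C.cons (nat_lit 608) (C.node (nat_lit 6) (nat_lit 7) (nat_lit 9) (C.cons (nat_lit 704) (C.node (nat_lit 6) (nat_lit 7) (nat_lit 8) (C.cons (nat_lit 456) (C.node (nat_lit 6) (nat_lit 7) (nat_lit 10) C.nil) C.nil)) C.nil)) C.nil)) C.nil))) C.nil)) C.nil))) C.nil)) C.nil))) C.nil)) C.nil))) C.nil)) C.nil))) C.nil))))) C.nil))) C.nil))))) C.nil)))) C.nil))) C.nil)))) C.nil))) C.nil)))
  (C.cons (nat_lit 100) (C.node (nat_lit 2) (nat_lit 6) (nat_lit 8) (C.cons (nat_lit 1348) (C.miq (nat_lit 430325890) (nat_lit 1934282897952868481905197333)) (C.cons (nat_lit 452) (C.miq (nat_lit 2552498017) (nat_lit 334882247795070792757543107)) (C.cons (nat_lit 324) (C.node (nat_lit 2) (nat_lit 6) (nat_lit 7) (C.cons (nat_lit 1220) (C.node (nat_lit 2) (nat_lit 4) (nat_lit 7) (C.cons (nat_lit 660) (C.miq (nat_lit 426918054) (nat_lit 797892627515117057673004145)) (C.cons (nat_lit 148) (C.node (nat_lit 2) (nat_lit 7) (nat_lit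 9) (C.cons (nat_lit 646) (C.node (nat_lit 2) (nat_lit 3) (nat_lit 7) (C.cons (nat_lit 396) (C.miq (nat_lit 1445137016) (nat_lit 712062786756048764044838785)) (C.cons (nat_lit 140) (C.node (nat_lit 2) (nat_lit 7) (nat_lit 8) (C.cons (nat_lit 388) (C.node (nat_lit 4) (nat_lit 7) (nat_lit 10) (C.cons (nat_lit 1170) (C.node (nat_lit 2) (nat_lit 4) (nat_lit 9) (C.cons (nat_lit 1556) (C.node (nat_lit 2) (nat_lit 3) (nat_lit 4) (C.cons (nat_lit 60) (C.miq (nat_lit 2300774981) (nat_lit 712062786976726588872983665)) (C.cons (nat_lit 28) (C.node (nat_lit 2) (nat_lit 4) (nat_lit 5) (C.cons (nat_lit 52) (C.node (nat_lit 4) (nat_lit 6) (nat_lit 7) (C.cons (nat_lit 720) (C.node (nat_lit 4) (nat_lit 5) (nat_lit 7) (C.cons (nat_lit 432) (C.miq (nat_lit 910494072) (nat_lit 1374554135750615117065095041)) (C.cons (nat_lit 176) (C.node (nat_lit 4) (nat_lit 7) (nat_lit 8) (C.cons (nat_lit 400) (C.node (nat_lit 2) (nat_lit 5) (nat_lit 9) (C.cons (nat_lit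 804) (C.node (nat_lit 1) (nat_lit 2) (nat_lit 5) (C.cons (nat_lit 46) (C.miq (nat_lit 1882298450) (nat_lit 13310101153147243161584420)) (C.cons (nat_lit 38) (C.node (nat_lit 3) (nat_lit 7) (nat_lit 9) (C.cons (nat_lit 680) (C.miq (nat_lit 874868873) (nat_lit 62876686448997700775184257)) (C.cons (nat_lit 648) (C.node (nat_lit 5) (nat_lit 7) (nat_lit 9) (C.cons (nat_lit 672) (C.node (nat_lit 4) (nat_lit 8) (nat_lit 9) (C.cons (nat_lit 792) (C.miq (nat_lit 1464344633) (nat_lit 483585159074530960701129293)) (C.cons (nat_lit 784) (C.node (nat_lit 3) (nat_lit 8) (nat_lit 9) (C.cons (nat_lit 778) (C.miq (nat_lit 824543600) (nat_lit 45944660047336106816243585)) (C.cons (nat_lit 776) (C.node (nat_lit 1) (nat_lit 8) (nat_lit 9) (C.cons (nat_lit 834) (C.miq (nat_lit 2231800433) (nat_lit 1374564041712697435364721286)) (C.cons (nat_lit 770) (C.node (nat_lit 6) (nat_lit 8) (nat_lit 9) (C.cons (nat_lit 832) (C.node (nat_lit 1) (nat_lit 2) (nat_lit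 3) (C.cons (nat_lit 270) (C.node (nat_lit 2) (nat_lit 8) (nat_lit 10) (C.cons (nat_lit 1284) (C.node (nat_lit 1) (nat_lit 3) (nat_lit 4) (C.cons (nat_lit 58) (C.miq (nat_lit 1899537488) (nat_lit 326445407820641445098357873)) (C.cons (nat_lit 26) (C.node (nat_lit 1) (nat_lit 3) (nat_lit 7) (C.cons (nat_lit 170) (C.miq (nat_lit 1697726594) (nat_lit 205518976074515622864486677)) (C.cons (nat_lit 138) (C.node (nat_lit 1) (nat_lit 4) (nat_lit 5) (C.cons (nat_lit 306) (C.node (nat_lit 1) (nat_lit 5) (nat_lit 7) C.nil) (C.cons (nat_lit 50) (C.miq (nat_lit 2235641954) (nat_lit 60451271685234311780762189)) C.nil))) C.nil))) C.nil))) C.nil)) (C.cons (nat_lit 14) (C.node (nat_lit 1) (nat_lit 2) (nat_lit 8) (C.cons (nat_lit 262) (C.node (nat_lit 1) (nat_lit 7) (nat_lit 8) (C.cons (nat_lit 386) (C.node (nat_lit 1) (nat_lit 3) (nat_lit 7) C.nil) C.nil)) C.nil)) C.nil))) C.nil)) C.nil))) C.nil))) C.nil))) C.nil)) C.nil))) C.nil))) (C.cons (nat_lit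 548) (C.node (nat_lit 2) (nat_lit 8) (nat_lit 9) (C.cons (nat_lit 772) (C.node (nat_lit 3) (nat_lit 4) (nat_lit 6) (C.cons (nat_lit 344) (C.node (nat_lit 3) (nat_lit 4) (nat_lit 10) (C.cons (nat_lit 1048) (C.node (nat_lit 4) (nat_lit 8) (nat_lit 10) (C.cons (nat_lit 1296) (C.node (nat_lit 1) (nat_lit 4) (nat_lit 8) (C.cons (nat_lit 306) (C.miq (nat_lit 1361085539) (nat_lit 1246407998791804283138146648)) (C.cons (nat_lit 274) (C.node (nat_lit 3) (nat_lit 6) (nat_lit 7) (C.cons (nat_lit 232) (C.miq (nat_lit 2188591190) (nat_lit 169255960503978717778281585)) (C.cons (nat_lit 200)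
  (C.node (nat_lit 3) (nat_lit 5) (nat_lit 6) (C.cons (nat_lit 106) (C.miq (nat_lit 1363686944) (nat_lit 331251153287235002522993229)) (C.cons (nat_lit 104) (C.node (nat_lit 1) (nat_lit 3) (nat_lit 6) (C.cons (nat_lit 1098) (C.miq (nat_lit 940205089) (nat_lit 2322366754101524159460212822)) (C.cons (nat_lit 74) (C.node (nat_lit 3) (nat_lit 6) (nat_lit 10) (C.cons (nat_lit 1096) (C.node (nat_lit 1) (nat_lit 3) (nat_lit 4) (C.cons (nat_lit 58) (C.node (nat_lit 3) (nat_lit 4) (nat_lit 9) (C.cons (nat_lit 536) (C.node (nat_lit 4) (nat_lit 5) (nat_lit 8) (C.cons (nat_lit 816) (C.node (nat_lit 1) (nat_lit 2) (nat_lit 3) (C.cons (nat_lit 270) (C.miq (nat_lit 1899537488) (nat_lit 326445407820641445098357873)) (C.cons (nat_lit 14) (C.node (nat_lit 1) (nat_lit 3) (nat_lit 7) C.nil) C.nil))) C.nil)) C.nil)) (C.cons (nat_lit 26) (C.node (nat_lit 1) (nat_lit 4) (nat_lit 5) (C.cons (nat_lit 50) (C.node (nat_lit 1) (nat_lit 6) (nat_lit 10) C.nil)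 C.nil)) C.nil))) C.nil)) C.nil))) C.nil))) C.nil))) C.nil))) C.nil)) C.nil)) (C.cons (nat_lit 88) (C.node (nat_lit 4) (nat_lit 6) (nat_lit 8) (C.cons (nat_lit 336) (C.node (nat_lit 3) (nat_lit 4) (nat_lit 10) (C.cons (nat_lit 1304) (C.node (nat_lit 1) (nat_lit 3) (nat_lit 4) (C.cons (nat_lit 58) (C.miq (nat_lit 1349597348) (nat_lit 235741604819615283013616920)) (C.cons (nat_lit 26) (C.node (nat_lit 2) (nat_lit 8) (nat_lit 10) (C.cons (nat_lit 1316) (C.miq (nat_lit 925384794) (nat_lit 469087272607814617233884273)) (C.cons (nat_lit 1284) (C.node (nat_lit 3) (nat_lit 7) (nat_lit 10) (C.cons (nat_lit 1192) (C.miq (nat_lit 1380151434) (nat_lit 33871911514590039625959297)) (C.cons (nat_lit 1160) (C.node (nat_lit 5) (nat_lit 7) (nat_lit 10) (C.cons (nat_lit 1184) (C.node (nat_lit 3) (nat_lit 7) (nat_lit 9) (C.cons (nat_lit 648) (C.node (nat_lit 5) (nat_lit 7) (nat_lit 9) C.nil) C.nil)) C.nil)) C.nil))) C.nil))) C.nil))) (C.cons (nat_lit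 1048) (C.node (nat_lit 4) (nat_lit 8) (nat_lit 10) (C.cons (nat_lit 1296) (C.node (nat_lit 3) (nat_lit 7) (nat_lit 9) (C.cons (nat_lit 680) (C.node (nat_lit 3) (nat_lit 7) (nat_lit 10) (C.cons (nat_lit 1160) (C.node (nat_lit 5) (nat_lit 7) (nat_lit 10) (C.cons (nat_lit 1184) (C.node (nat_lit 3) (nat_lit 4) (nat_lit 9) (C.cons (nat_lit 792) (C.miq (nat_lit 1380151433) (nat_lit 33862466781624300301977473)) C.nil)) C.nil)) C.nil)) (C.cons (nat_lit 648) (C.node (nat_lit 5) (nat_lit 7) (nat_lit 9) (C.cons (nat_lit 672) (C.node (nat_lit 3) (nat_lit 7) (nat_lit 10) (C.cons (nat_lit 1192) (C.node (nat_lit 5) (nat_lit 2) (nat_lit 10) (C.cons (nat_lit 1316) (C.miq (nat_lit 874868874) (nat_lit 62886131181963440099166081)) C.nil)) (C.cons (nat_lit 1160) (C.node (nat_lit 5) (nat_lit 7) (nat_lit 10) (C.cons (nat_lit 1184) (C.node (nat_lit 1) (nat_lit 2) (nat_lit 3) (C.cons (nat_lit 270) (C.node (nat_lit 1) (nat_lit 2) (nat_lit 5) C.nil) (C.cons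 (nat_lit 46) (C.node (nat_lit 1) (nat_lit 2) (nat_lit 8) C.nil) C.nil))) C.nil)) C.nil))) C.nil)) C.nil))) C.nil)) C.nil))) C.nil)) C.nil))) C.nil)) C.nil))) C.nil)) C.nil))) (C.cons (nat_lit 464) (C.miq (nat_lit 2489782434) (nat_lit 560953497047327649525138439)) (C.cons (nat_lit 208) (C.miq (nat_lit 2489782434) (nat_lit 251468487225982580800357383)) C.nil)))) C.nil)) C.nil))) (C.cons (nat_lit 564) (C.miq (nat_lit 1383483664) (nat_lit 1474910474036614062328185363)) (C.cons (nat_lit 532) (C.miq (nat_lit 2722723344) (nat_lit 643183972573748157981327555)) C.nil)))) (C.cons (nat_lit 1168) (C.miq (nat_lit 396661344) (nat_lit 1412035152712828090718421581)) C.nil))) C.nil)) C.nil))) (C.cons (nat_lit 644) (C.miq (nat_lit 426918054) (nat_lit 778549814401282990877705329)) C.nil))) C.nil))) (C.cons (nat_lit 196) (C.node (nat_lit 2) (nat_lit 6) (nat_lit 10) (C.cons (nat_lit 1092) (C.node (nat_lit 4) (nat_lit 6) (nat_lit 7) (C.cons (nat_lit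 720) (C.miq (nat_lit 1982501904) (nat_lit 1320182431417203007494226451)) (C.cons (nat_lit 464) (C.miq (nat_lit 2822899553) (nat_lit 334891471167107699072958659)) (C.cons (nat_lit 208)
  (C.node (nat_lit 4) (nat_lit 6) (nat_lit 9) (C.cons (nat_lit 848) (C.miq (nat_lit 2250937360) (nat_lit 1320182431453231804513190419)) (C.cons (nat_lit 592) (C.node (nat_lit 3) (nat_lit 4) (nat_lit 6) (C.cons (nat_lit 344) (C.node (nat_lit 4) (nat_lit 8) (nat_lit 10) (C.cons (nat_lit 1298) (C.miq (nat_lit 2221515040) (nat_lit 715719521772580956650931207)) (C.cons (nat_lit 1296) (C.node (nat_lit 1) (nat_lit 3) (nat_lit 6) (C.cons (nat_lit 1098) (C.miq (nat_lit 940205089) (nat_lit 2322366754101524159460212822)) (C.cons (nat_lit 106) (C.miq (nat_lit 1344354374) (nat_lit 1246404475461153750129181016)) (C.cons (nat_lit 74) (C.node (nat_lit 3) (nat_lit 5) (nat_lit 6) (C.cons (nat_lit 232) (C.miq (nat_lit 1451389760) (nat_lit 391695009333215686764593305))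 (C.cons (nat_lit 104) (C.node (nat_lit 1) (nat_lit 4) (nat_lit 8) (C.cons (nat_lit 434) (C.miq (nat_lit 2554464022) (nat_lit 334883317706226990602125507)) (C.cons (nat_lit 402) (C.miq (nat_lit 2554464022) (nat_lit 334883317706226853163172035)) (C.cons (nat_lit 306) (C.miq (nat_lit 1365476384) (nat_lit 89465989420604162944336149)) (C.cons (nat_lit 274) (C.node (nat_lit 4) (nat_lit 7) (nat_lit 8) (C.cons (nat_lit 432) (C.miq (nat_lit 1482847280) (nat_lit 391695009389510682127171737)) (C.cons (nat_lit 400) (C.node (nat_lit 2) (nat_lit 7) (nat_lit 8) (C.cons (nat_lit 398) (C.miq (nat_lit 1418135090) (nat_lit 483573371878662357973336653)) (C.cons (nat_lit 396) (C.miq (nat_lit 1418135090) (nat_lit 483573371878662357973205581)) (C.cons (nat_lit 390) (C.miq (nat_lit 2820933398) (nat_lit 334893426521979194457850051)) (C.cons (nat_lit 388) (C.node (nat_lit 1) (nat_lit 6) (nat_lit 10) (C.cons (nat_lit 1346) (C.node (nat_lit 3) (nat_lit 7)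 (nat_lit 8) (C.cons (nat_lit 394) (C.miq (nat_lit 1175652999) (nat_lit 89463333323368666061473665)) (C.cons (nat_lit 392) (C.node (nat_lit 5) (nat_lit 8) (nat_lit 10) (C.cons (nat_lit 1316) (C.miq (nat_lit 405236304) (nat_lit 469066815504441463988880497)) (C.cons (nat_lit 1312) (C.node (nat_lit 6) (nat_lit 7) (nat_lit 8) (C.cons (nat_lit 480) (C.miq (nat_lit 374515824) (nat_lit 120911600933470292265994113)) (C.cons (nat_lit 448) (C.node (nat_lit 1) (nat_lit 5) (nat_lit 6) (C.cons (nat_lit 610) (C.node (nat_lit 5) (nat_lit 6) (nat_lit 7) (C.cons (nat_lit 224) (C.node (nat_lit 5) (nat_lit 6) (nat_lit 8) (C.cons (nat_lit 352) (C.node (nat_lit 6) (nat_lit 8) (nat_lit 9) C.nil) C.nil)) C.nil)) (C.cons (nat_lit 98) (C.node (nat_lit 1) (nat_lit 6) (nat_lit 9) (C.cons (nat_lit 578) (C.node (nat_lit 1) (nat_lit 7) (nat_lit 8) (C.cons (nat_lit 418) (C.node (nat_lit 1) (nat_lit 4) (nat_lit 7) (C.cons (nat_lit 1170) (C.miq (nat_lit 1953079584)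 (nat_lit 715719521736552159631967239)) (C.cons (nat_lit 146) (C.node (nat_lit 1) (nat_lit 2) (nat_lit 8) (C.cons (nat_lit 774) (C.miq (nat_lit 2819885350) (nat_lit 331266649063136956201173581)) (C.cons (nat_lit 270) (C.miq (nat_lit 1209688864) (nat_lit 1627235127246131228611904077)) C.nil))) C.nil))) (C.cons (nat_lit 386) (C.node (nat_lit 5) (nat_lit 7) (nat_lit 8) C.nil) C.nil))) C.nil)) C.nil))) C.nil))) C.nil))) C.nil))) (C.cons (nat_lit 1090) (C.node (nat_lit 6) (nat_lit 8) (nat_lit 10) (C.cons (nat_lit 1344) (C.node (nat_lit 3) (nat_lit 6) (nat_lit 7) (C.cons (nat_lit 1224) (C.node (nat_lit 4) (nat_lit 9) (nat_lit 10) (C.cons (nat_lit 1560) (C.miq (nat_lit 1130470000) (nat_lit 89470306311691919421540225)) (C.cons (nat_lit 1556) (C.miq (nat_lit 2489819664) (nat_lit 251492007113183897529287687)) (C.cons (nat_lit 1552) (C.node (nat_lit 2) (nat_lit 3) (nat_lit 7) (C.cons (nat_lit 142) (C.node (nat_lit 3) (nat_lit 7) (nat_lit 8)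 (C.cons (nat_lit 392) (C.node (nat_lit 5) (nat_lit 7) (nat_lit 10) (C.cons (nat_lit 1186) (C.miq (nat_lit 1463197984) (nat_lit 1479746177490147849903342599)) (C.cons (nat_lit 1184) (C.node (nat_lit 1) (nat_lit 7) (nat_lit 10) (C.cons (nat_lit 1170) (C.miq (nat_lit 2473658020) (nat_lit 171677261772174500979410033)) (C.cons (nat_lit 1154) (C.node (nat_lit 1) (nat_lit 4) (nat_lit 7) (C.cons (nat_lit 178)
  (C.miq (nat_lit 1094080288) (nat_lit 89481484649597522466898085)) (C.cons (nat_lit 146) (C.node (nat_lit 1) (nat_lit 4) (nat_lit 10) (C.cons (nat_lit 1050) (C.miq (nat_lit 1412893202) (nat_lit 184968694433851984051045383)) (C.cons (nat_lit 1042) (C.node (nat_lit 3) (nat_lit 4) (nat_lit 10) (C.cons (nat_lit 1052) (C.miq (nat_lit 1131848208) (nat_lit 1479746177452430202998293511)) (C.cons (nat_lit 1048) (C.node (nat_lit 6) (nat_lit 7) (nat_lit 8) (C.cons (nat_lit 480) (C.node (nat_lit 6) (nat_lit 7) (nat_lit 9) C.nil) C.nil)) C.nil)))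 C.nil))) C.nil))) C.nil))) C.nil))) C.nil)) (C.cons (nat_lit 140) (C.node (nat_lit 1) (nat_lit 2) (nat_lit 7) (C.cons (nat_lit 646) (C.miq (nat_lit 1919586624) (nat_lit 1320182431396373859224584723)) (C.cons (nat_lit 134) (C.node (nat_lit 2) (nat_lit 7) (nat_lit 9) (C.cons (nat_lit 660) (C.node (nat_lit 2) (nat_lit 7) (nat_lit 10) (C.cons (nat_lit 1156) (C.node (nat_lit 2) (nat_lit 4) (nat_lit 5) (C.cons (nat_lit 60) (C.miq (nat_lit 1484009618) (nat_lit 483571434734102411214062157)) (C.cons (nat_lit 52) (C.node (nat_lit 4) (nat_lit 7) (nat_lit 10) (C.cons (nat_lit 1170) (C.miq (nat_lit 2534541894) (nat_lit 162006925501338179715073137)) (C.cons (nat_lit 1168) (C.node (nat_lit 2) (nat_lit 8) (nat_lit 9) (C.cons (nat_lit 806) (C.miq (nat_lit 891553943) (nat_lit 62866965055405524516079489)) (C.cons (nat_lit 804) (C.miq (nat_lit 891553943) (nat_lit 62866965055405515926144897)) (C.cons (nat_lit 774) (C.miq (nat_lit 2819885350) (nat_lit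 331266649063136956201173581)) (C.cons (nat_lit 772) (C.node (nat_lit 6) (nat_lit 7) (nat_lit 8) (C.cons (nat_lit 480) (C.node (nat_lit 6) (nat_lit 7) (nat_lit 9) C.nil) C.nil)) C.nil))))) C.nil))) C.nil))) C.nil)) (C.cons (nat_lit 644) (C.node (nat_lit 2) (nat_lit 4) (nat_lit 7) (C.cons (nat_lit 1172) (C.node (nat_lit 2) (nat_lit 3) (nat_lit 4) (C.cons (nat_lit 60) (C.miq (nat_lit 2267220549) (nat_lit 169255093969756440162468977)) (C.cons (nat_lit 28) (C.node (nat_lit 1) (nat_lit 4) (nat_lit 7) (C.cons (nat_lit 178) (C.node (nat_lit 1) (nat_lit 7) (nat_lit 10) (C.cons (nat_lit 1154) (C.node (nat_lit 4) (nat_lit 7) (nat_lit 9) (C.cons (nat_lit 656) (C.node (nat_lit 5) (nat_lit 7) (nat_lit 10) (C.cons (nat_lit 1184) (C.node (nat_lit 2) (nat_lit 4) (nat_lit 5) (C.cons (nat_lit 564) (C.miq (nat_lit 1649871169) (nat_lit 199476357517299370844881427)) C.nil)) C.nil)) C.nil)) C.nil)) (C.cons (nat_lit 146) (C.node (nat_lit 1) (nat_lit 4)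 (nat_lit 5) (C.cons (nat_lit 58) (C.node (nat_lit 1) (nat_lit 4) (nat_lit 10) (C.cons (nat_lit 1042) (C.node (nat_lit 3) (nat_lit 4) (nat_lit 9) C.nil) C.nil)) (C.cons (nat_lit 50) (C.node (nat_lit 6) (nat_lit 7) (nat_lit 8) (C.cons (nat_lit 480) (C.node (nat_lit 6) (nat_lit 7) (nat_lit 9) C.nil) C.nil)) C.nil))) C.nil))) C.nil))) (C.cons (nat_lit 148) (C.node (nat_lit 2) (nat_lit 7) (nat_lit 10) (C.cons (nat_lit 1156) (C.node (nat_lit 6) (nat_lit 7) (nat_lit 8) (C.cons (nat_lit 480) (C.node (nat_lit 6) (nat_lit 7) (nat_lit 9) C.nil) C.nil)) C.nil)) C.nil))) C.nil))) C.nil))) C.nil))) C.nil)))) (C.cons (nat_lit 200) (C.node (nat_lit 3) (nat_lit 6) (nat_lit 10) (C.cons (nat_lit 1096) (C.node (nat_lit 6) (nat_lit 7) (nat_lit 10) (C.cons (nat_lit 1216) (C.node (nat_lit 6) (nat_lit 7) (nat_lit 8) (C.cons (nat_lit 480) (C.node (nat_lit 6) (nat_lit 7) (nat_lit 9) C.nil) C.nil)) C.nil)) C.nil)) C.nil))) C.nil)) C.nil))) C.nil))))) C.nil)))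 C.nil))))) C.nil))) C.nil)))) C.nil))) (C.cons (nat_lit 88) (C.node (nat_lit 4) (nat_lit 6) (nat_lit 8) (C.cons (nat_lit 336) (C.node (nat_lit 6) (nat_lit 7) (nat_lit 9) (C.cons (nat_lit 736) (C.node (nat_lit 2) (nat_lit 9) (nat_lit 10) (C.cons (nat_lit 1572) (C.miq (nat_lit 307628695) (nat_lit 120896179366764743558694785)) (C.cons (nat_lit 1556) (C.miq (nat_lit 2489819664) (nat_lit 251492007113183897529287687)) (C.cons (nat_lit 1540) (C.node (nat_lit 4) (nat_lit 7) (nat_lit 8) (C.cons (nat_lit 434) (C.miq (nat_lit 643041656) (nat_lit 1374553766815733711593670529)) (C.cons (nat_lit 432)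
  (C.miq (nat_lit 643041656) (nat_lit 1374553766815733711593539457)) (C.cons (nat_lit 402) (C.miq (nat_lit 2554464022) (nat_lit 334883317706226853163172035)) (C.cons (nat_lit 400) (C.node (nat_lit 1) (nat_lit 6) (nat_lit 9) (C.cons (nat_lit 834) (C.node (nat_lit 5) (nat_lit 6) (nat_lit 8) (C.cons (nat_lit 352) (C.node (nat_lit 2) (nat_lit 8) (nat_lit 9) (C.cons (nat_lit 804) (C.miq (nat_lit 2164430453) (nat_lit 1246417351439668909707690720)) (C.cons (nat_lit 772) (C.node (nat_lit 3) (nat_lit 8) (nat_lit 9) (C.cons (nat_lit 792) (C.miq (nat_lit 407333168) (nat_lit 483573925195699575445848653)) (C.cons (nat_lit 776) (C.node (nat_lit 5) (nat_lit 7) (nat_lit 8) (C.cons (nat_lit 418) (C.miq (nat_lit 1382117528) (nat_lit 103975331272326820564961153)) (C.cons (nat_lit 416) (C.node (nat_lit 6) (nat_lit 7) (nat_lit 8) (C.cons (nat_lit 456) (C.miq (nat_lit 372545648) (nat_lit 106395267581942596237854593)) (C.cons (nat_lit 448) (C.node (nat_lit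 1) (nat_lit 5) (nat_lit 6) (C.cons (nat_lit 106) (C.node (nat_lit 1) (nat_lit 6) (nat_lit 10) (C.cons (nat_lit 1090) (C.node (nat_lit 2) (nat_lit 7) (nat_lit 8) (C.cons (nat_lit 396) (C.miq (nat_lit 310600709) (nat_lit 478736579946473004118639729)) (C.cons (nat_lit 390) (C.miq (nat_lit 824727104) (nat_lit 471486548362531986788910193)) C.nil))) C.nil)) (C.cons (nat_lit 98) (C.node (nat_lit 3) (nat_lit 5) (nat_lit 6) (C.cons (nat_lit 104) (C.node (nat_lit 1) (nat_lit 3) (nat_lit 6) (C.cons (nat_lit 1098) (C.node (nat_lit 2) (nat_lit 5) (nat_lit 8) C.nil) (C.cons (nat_lit 74) (C.node (nat_lit 1) (nat_lit 6) (nat_lit 10) C.nil) C.nil))) C.nil)) C.nil))) C.nil))) C.nil))) C.nil))) C.nil))) C.nil)) (C.cons (nat_lit 578) (C.node (nat_lit 6) (nat_lit 8) (nat_lit 9) (C.cons (nat_lit 832) (C.node (nat_lit 3) (nat_lit 5) (nat_lit 6) (C.cons (nat_lit 106) (C.node (nat_lit 5) (nat_lit 6) (nat_lit 8) (C.cons (nat_lit 352) (C.node (nat_lit 4)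 (nat_lit 5) (nat_lit 7) (C.cons (nat_lit 178) (C.miq (nat_lit 2232681314) (nat_lit 215193905723110933998731853)) (C.cons (nat_lit 176) (C.node (nat_lit 1) (nat_lit 4) (nat_lit 5) (C.cons (nat_lit 306) (C.node (nat_lit 5) (nat_lit 7) (nat_lit 8) (C.cons (nat_lit 416) (C.node (nat_lit 1) (nat_lit 4) (nat_lit 7) (C.cons (nat_lit 1170) (C.miq (nat_lit 1953079584) (nat_lit 715719521736552159631967239)) (C.cons (nat_lit 146) (C.node (nat_lit 1) (nat_lit 5) (nat_lit 7) (C.cons (nat_lit 1186) (C.miq (nat_lit 358786960) (nat_lit 120911600888435395531704193)) (C.cons (nat_lit 162) (C.node (nat_lit 3) (nat_lit 7) (nat_lit 9) (C.cons (nat_lit 650) (C.miq (nat_lit 2803173686) (nat_lit 195866957266297956059447885)) (C.cons (nat_lit 648) (C.node (nat_lit 1) (nat_lit 7) (nat_lit 9) (C.cons (nat_lit 646) (C.miq (nat_lit 2775647890) (nat_lit 195865001690750130508399181)) (C.cons (nat_lit 642) (C.node (nat_lit 1) (nat_lit 8) (nat_lit 9) (C.cons (nat_lit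 778) (C.miq (nat_lit 588777044) (nat_lit 940549397574079132036367473)) (C.cons (nat_lit 774) (C.miq (nat_lit 830629184) (nat_lit 935719449543820057957958769)) (C.cons (nat_lit 770) (C.node (nat_lit 1) (nat_lit 2) (nat_lit 7) (C.cons (nat_lit 398) (C.miq (nat_lit 2820933398) (nat_lit 334893426521979228817588419)) (C.cons (nat_lit 390) (C.miq (nat_lit 830629184) (nat_lit 471491934811802454870787185)) (C.cons (nat_lit 142) (C.miq (nat_lit 2184265829) (nat_lit 171673111166934996222608497)) C.nil)))) C.nil)))) C.nil))) C.nil))) C.nil))) C.nil))) C.nil)) (C.cons (nat_lit 50) (C.miq (nat_lit 2232681314) (nat_lit 60451400812438399636341325)) C.nil))) C.nil))) C.nil)) (C.cons (nat_lit 104) (C.node (nat_lit 1) (nat_lit 5) (nat_lit 6) (C.cons (nat_lit 354) (C.node (nat_lit 5) (nat_lit 7) (nat_lit 8) (C.cons (nat_lit 416) (C.node (nat_lit 1) (nat_lit 7) (nat_lit 8) (C.cons (nat_lit 398) (C.miq (nat_lit 1099260464) (nat_lit 427980714115799093019738701))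 (C.cons (nat_lit 394) (C.miq (nat_lit 1132791574) (nat_lit 359071942416624036324966595)) (C.cons (nat_lit 390) (C.miq (nat_lit 2820933398) (nat_lit 334893426521979194457850051)) (C.cons (nat_lit 386)
  (C.node (nat_lit 1) (nat_lit 2) (nat_lit 8) (C.cons (nat_lit 774) (C.miq (nat_lit 2188022080) (nat_lit 1320182431432402656243548691)) (C.cons (nat_lit 270) (C.miq (nat_lit 1099260464) (nat_lit 427980714115798543263924813)) (C.cons (nat_lit 262) (C.node (nat_lit 1) (nat_lit 3) (nat_lit 6) (C.cons (nat_lit 1098) (C.node (nat_lit 6) (nat_lit 7) (nat_lit 10) (C.cons (nat_lit 1216) (C.node (nat_lit 6) (nat_lit 8) (nat_lit 10) (C.cons (nat_lit 1344) (C.node (nat_lit 2) (nat_lit 7) (nat_lit 8) (C.cons (nat_lit 396) (C.node (nat_lit 3) (nat_lit 6) (nat_lit 7) C.nil) C.nil)) C.nil)) C.nil)) (C.cons (nat_lit 74) (C.node (nat_lit 1) (nat_lit 6) (nat_lit 10) (C.cons (nat_lit 1090) (C.node (nat_lit 6) (nat_lit 7) (nat_lit 8) (C.cons (nat_lit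 456) (C.node (nat_lit 2) (nat_lit 7) (nat_lit 8) C.nil) C.nil)) C.nil)) C.nil))) C.nil)))) C.nil))))) C.nil)) (C.cons (nat_lit 98) (C.node (nat_lit 5) (nat_lit 6) (nat_lit 8) (C.cons (nat_lit 352) (C.node (nat_lit 6) (nat_lit 7) (nat_lit 8) (C.cons (nat_lit 456) (C.node (nat_lit 6) (nat_lit 7) (nat_lit 10) C.nil) C.nil)) C.nil)) C.nil))) C.nil))) C.nil)) C.nil))) C.nil))))) C.nil)))) (C.cons (nat_lit 704) (C.node (nat_lit 6) (nat_lit 7) (nat_lit 10) (C.cons (nat_lit 1224) (C.node (nat_lit 4) (nat_lit 9) (nat_lit 10) (C.cons (nat_lit 1560) (C.miq (nat_lit 339085735) (nat_lit 106389069390651653599266689)) (C.cons (nat_lit 1556) (C.miq (nat_lit 2489819664) (nat_lit 251492007113183897529287687)) (C.cons (nat_lit 1552) (C.node (nat_lit 2) (nat_lit 7) (nat_lit 8) (C.cons (nat_lit 398) (C.miq (nat_lit 1177684600) (nat_lit 712062417821167307033806721)) (C.cons (nat_lit 396) (C.miq (nat_lit 1177684600) (nat_lit 712062417821167307033675649))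 (C.cons (nat_lit 390) (C.miq (nat_lit 2820933398) (nat_lit 334893426521979194457850051)) (C.cons (nat_lit 388) (C.node (nat_lit 1) (nat_lit 6) (nat_lit 10) (C.cons (nat_lit 1346) (C.node (nat_lit 3) (nat_lit 6) (nat_lit 8) (C.cons (nat_lit 328) (C.node (nat_lit 3) (nat_lit 7) (nat_lit 8) (C.cons (nat_lit 394) (C.miq (nat_lit 878801064) (nat_lit 103974888547093705490827137)) (C.cons (nat_lit 392) (C.node (nat_lit 4) (nat_lit 8) (nat_lit 10) (C.cons (nat_lit 1304) (C.miq (nat_lit 406284864) (nat_lit 473902518782899929147311217)) (C.cons (nat_lit 1296) (C.node (nat_lit 5) (nat_lit 6) (nat_lit 7) (C.cons (nat_lit 480) (C.miq (nat_lit 374515824) (nat_lit 120911600933470292265994113)) (C.cons (nat_lit 224) (C.node (nat_lit 6) (nat_lit 7) (nat_lit 8) (C.cons (nat_lit 448) (C.node (nat_lit 5) (nat_lit 8) (nat_lit 10) (C.cons (nat_lit 1316) (C.miq (nat_lit 405236304) (nat_lit 469066815504441463988880497)) (C.cons (nat_lit 1312) (C.node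 (nat_lit 5) (nat_lit 6) (nat_lit 8) (C.cons (nat_lit 352) (C.node (nat_lit 6) (nat_lit 8) (nat_lit 9) C.nil) C.nil)) C.nil))) C.nil)) C.nil))) C.nil))) C.nil))) C.nil)) (C.cons (nat_lit 1090) (C.node (nat_lit 6) (nat_lit 8) (nat_lit 10) (C.cons (nat_lit 1344) (C.node (nat_lit 2) (nat_lit 3) (nat_lit 7) (C.cons (nat_lit 142) (C.node (nat_lit 3) (nat_lit 7) (nat_lit 8) (C.cons (nat_lit 392) (C.node (nat_lit 3) (nat_lit 5) (nat_lit 6) (C.cons (nat_lit 106) (C.miq (nat_lit 2198996324) (nat_lit 171672576216984283709310065)) (C.cons (nat_lit 104) (C.node (nat_lit 5) (nat_lit 7) (nat_lit 10) (C.cons (nat_lit 1186) (C.miq (nat_lit 1463197984) (nat_lit 1479746177490147849903342599)) (C.cons (nat_lit 1184) (C.node (nat_lit 1) (nat_lit 7) (nat_lit 10) (C.cons (nat_lit 1170) (C.miq (nat_lit 2473658020) (nat_lit 171677261772174500979410033)) (C.cons (nat_lit 1154) (C.node (nat_lit 2) (nat_lit 3) (nat_lit 4) (C.cons (nat_lit 1052) (C.miq (nat_lit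 1131848208) (nat_lit 1479746177452430202998293511)) (C.cons (nat_lit 60) (C.miq (nat_lit 323383888) (nat_lit 106389069281151445202174117)) (C.cons (nat_lit 28) (C.node (nat_lit 2) (nat_lit 3) (nat_lit 5) (C.cons (nat_lit 1068) (C.miq (nat_lit 1400283664) (nat_lit 1479746177456933802625664007)) (C.cons (nat_lit 44) (C.node (nat_lit 1) (nat_lit 4) (nat_lit 7) (C.cons (nat_lit 434)
  (C.miq (nat_lit 2199998564) (nat_lit 171675472355805930578117745)) (C.cons (nat_lit 402) (C.miq (nat_lit 2554464022) (nat_lit 334883317706226853163172035)) (C.cons (nat_lit 178) (C.miq (nat_lit 910237783) (nat_lit 103970240090310220453118117)) (C.cons (nat_lit 146) (C.node (nat_lit 1) (nat_lit 4) (nat_lit 10) (C.cons (nat_lit 1306) (C.miq (nat_lit 1412893202) (nat_lit 184968694433853083562673159)) (C.cons (nat_lit 1298) (C.miq (nat_lit 2221515040) (nat_lit 715719521772580956650931207)) (C.cons (nat_lit 1050) (C.miq (nat_lit 1412893202) (nat_lit 184968694433851984051045383))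 (C.cons (nat_lit 1042) (C.node (nat_lit 1) (nat_lit 3) (nat_lit 6) (C.cons (nat_lit 330) (C.node (nat_lit 1) (nat_lit 4) (nat_lit 8) (C.cons (nat_lit 306) (C.miq (nat_lit 562259024) (nat_lit 398956385629295204855514225)) (C.cons (nat_lit 274) (C.node (nat_lit 1) (nat_lit 7) (nat_lit 8) (C.cons (nat_lit 418) (C.miq (nat_lit 629344022) (nat_lit 359061833604249446288851139)) C.nil)) C.nil))) (C.cons (nat_lit 74) (C.node (nat_lit 3) (nat_lit 6) (nat_lit 8) C.nil) C.nil))) C.nil))))) C.nil))))) C.nil))) C.nil)))) C.nil))) C.nil))) C.nil))) C.nil)) (C.cons (nat_lit 140) (C.node (nat_lit 1) (nat_lit 2) (nat_lit 7) (C.cons (nat_lit 646) (C.miq (nat_lit 1919586624) (nat_lit 1320182431396373859224584723)) (C.cons (nat_lit 134) (C.node (nat_lit 2) (nat_lit 7) (nat_lit 9) (C.cons (nat_lit 660) (C.node (nat_lit 2) (nat_lit 7) (nat_lit 10) (C.cons (nat_lit 1156) (C.node (nat_lit 4) (nat_lit 7) (nat_lit 10) (C.cons (nat_lit 1170) (C.miq (nat_lit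 2534541894) (nat_lit 162006925501338179715073137)) (C.cons (nat_lit 1168) (C.node (nat_lit 1) (nat_lit 7) (nat_lit 10) (C.cons (nat_lit 1186) (C.node (nat_lit 1) (nat_lit 4) (nat_lit 7) (C.cons (nat_lit 402) (C.miq (nat_lit 2217308512) (nat_lit 797926477254174161398202563)) (C.cons (nat_lit 146) (C.node (nat_lit 1) (nat_lit 7) (nat_lit 9) (C.cons (nat_lit 650) (C.miq (nat_lit 342069415) (nat_lit 106397462659203374674085761)) (C.cons (nat_lit 642) (C.node (nat_lit 5) (nat_lit 6) (nat_lit 7) (C.cons (nat_lit 224) (C.node (nat_lit 6) (nat_lit 7) (nat_lit 8) C.nil) C.nil)) C.nil))) C.nil))) (C.cons (nat_lit 1154) (C.node (nat_lit 5) (nat_lit 7) (nat_lit 10) (C.cons (nat_lit 1184) (C.node (nat_lit 2) (nat_lit 4) (nat_lit 5) (C.cons (nat_lit 60) (C.node (nat_lit 2) (nat_lit 4) (nat_lit 10) (C.cons (nat_lit 1044) (C.node (nat_lit 2) (nat_lit 3) (nat_lit 10) (C.cons (nat_lit 1036) (C.node (nat_lit 2) (nat_lit 8) (nat_lit 10) C.nil) C.nil))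 C.nil)) (C.cons (nat_lit 52) (C.node (nat_lit 3) (nat_lit 5) (nat_lit 6) (C.cons (nat_lit 104) (C.node (nat_lit 1) (nat_lit 3) (nat_lit 6) C.nil) C.nil)) C.nil))) C.nil)) C.nil))) C.nil))) C.nil)) (C.cons (nat_lit 644) (C.node (nat_lit 2) (nat_lit 4) (nat_lit 7) (C.cons (nat_lit 1172) (C.node (nat_lit 2) (nat_lit 3) (nat_lit 4) (C.cons (nat_lit 60) (C.miq (nat_lit 2267220549) (nat_lit 169255093969756440162468977)) (C.cons (nat_lit 28) (C.node (nat_lit 4) (nat_lit 8) (nat_lit 10) (C.cons (nat_lit 1306) (C.miq (nat_lit 1396836519) (nat_lit 33852966745585456354953089)) (C.cons (nat_lit 1304) (C.miq (nat_lit 1396836519) (nat_lit 33852966745585447765018497)) (C.cons (nat_lit 1298) (C.miq (nat_lit 2221515040) (nat_lit 715719521772580956650931207)) (C.cons (nat_lit 1296) (C.node (nat_lit 1) (nat_lit 4) (nat_lit 10) (C.cons (nat_lit 1050) (C.node (nat_lit 1) (nat_lit 7) (nat_lit 10) (C.cons (nat_lit 1186) (C.node (nat_lit 1) (nat_lit 8)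 (nat_lit 10) (C.cons (nat_lit 1282) (C.node (nat_lit 1) (nat_lit 9) (nat_lit 10) (C.cons (nat_lit 1538) (C.node (nat_lit 1) (nat_lit 4) (nat_lit 7) (C.cons (nat_lit 402) (C.miq (nat_lit 2554464022) (nat_lit 334883317706226853163172035)) (C.cons (nat_lit 146) (C.node (nat_lit 1) (nat_lit 7) (nat_lit 9) (C.cons (nat_lit 650) (C.miq (nat_lit 1662298000) (nat_lit 1269393084887900604459059073)) (C.cons (nat_lit 642) (C.node (nat_lit 1) (nat_lit 3) (nat_lit 7) C.nil) C.nil))) C.nil))) C.nil)) C.nil)) (C.cons (nat_lit 1154) (C.node (nat_lit 5) (nat_lit 7) (nat_lit 10)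
  (C.cons (nat_lit 1184) (C.node (nat_lit 1) (nat_lit 8) (nat_lit 10) (C.cons (nat_lit 1314) (C.node (nat_lit 1) (nat_lit 9) (nat_lit 10) C.nil) (C.cons (nat_lit 1282) (C.node (nat_lit 1) (nat_lit 5) (nat_lit 10) (C.cons (nat_lit 1058) (C.node (nat_lit 1) (nat_lit 9) (nat_lit 10) C.nil) C.nil)) C.nil))) C.nil)) C.nil))) (C.cons (nat_lit 1042) (C.node (nat_lit 3) (nat_lit 4) (nat_lit 10) (C.cons (nat_lit 1048) (C.node (nat_lit 1) (nat_lit 7) (nat_lit 10) (C.cons (nat_lit 1186) (C.node (nat_lit 1) (nat_lit 4) (nat_lit 7) (C.cons (nat_lit 402) (C.miq (nat_lit 2554464022) (nat_lit 334883317706226853163172035)) (C.cons (nat_lit 146) (C.node (nat_lit 3) (nat_lit 5) (nat_lit 6) (C.cons (nat_lit 104) (C.node (nat_lit 1) (nat_lit 3) (nat_lit 6) C.nil) C.nil)) C.nil))) (C.cons (nat_lit 1154) (C.node (nat_lit 5) (nat_lit 7) (nat_lit 10) C.nil) C.nil))) C.nil)) C.nil))) C.nil))))) C.nil))) (C.cons (nat_lit 148) (C.node (nat_lit 2) (nat_lit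 7) (nat_lit 10) (C.cons (nat_lit 1156) (C.node (nat_lit 5) (nat_lit 6) (nat_lit 7) (C.cons (nat_lit 224) (C.node (nat_lit 6) (nat_lit 7) (nat_lit 8) C.nil) C.nil)) C.nil)) C.nil))) C.nil))) C.nil))) C.nil))) C.nil)) C.nil))) C.nil))))) C.nil)))) (C.cons (nat_lit 1216) (C.node (nat_lit 2) (nat_lit 7) (nat_lit 9) (C.cons (nat_lit 660) (C.node (nat_lit 4) (nat_lit 7) (nat_lit 10) (C.cons (nat_lit 1170) (C.miq (nat_lit 311903754) (nat_lit 797912623660430873340216433)) (C.cons (nat_lit 1168) (C.ref (nat_lit 132) (nat_lit 11649936536080)) C.nil))) (C.cons (nat_lit 646) (C.miq (nat_lit 1919586624) (nat_lit 1320182431396373859224584723)) (C.cons (nat_lit 644) (C.node (nat_lit 2) (nat_lit 4) (nat_lit 7) (C.cons (nat_lit 1172) (C.ref (nat_lit 132) (nat_lit 10619142165520)) (C.cons (nat_lit 148) (C.node (nat_lit 4) (nat_lit 7) (nat_lit 10) (C.cons (nat_lit 1170) (C.miq (nat_lit 311903754) (nat_lit 778569810546596806544917617)) (C.cons (nat_lit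 1168) (C.node (nat_lit 2) (nat_lit 7) (nat_lit 10) (C.cons (nat_lit 1164) (C.node (nat_lit 1) (nat_lit 2) (nat_lit 7) (C.cons (nat_lit 390) (C.miq (nat_lit 2820933398) (nat_lit 334893426521979194457850051)) (C.cons (nat_lit 134) (C.node (nat_lit 2) (nat_lit 7) (nat_lit 8) (C.cons (nat_lit 388) (C.node (nat_lit 2) (nat_lit 4) (nat_lit 10) (C.cons (nat_lit 1556) (C.miq (nat_lit 2451022944) (nat_lit 162031496461701338601030769)) (C.cons (nat_lit 1044) (C.node (nat_lit 1) (nat_lit 7) (nat_lit 10) (C.cons (nat_lit 1186) (C.node (nat_lit 1) (nat_lit 4) (nat_lit 7) (C.cons (nat_lit 402) (C.miq (nat_lit 2554464022) (nat_lit 334883317706226853163172035)) (C.cons (nat_lit 146) (C.node (nat_lit 1) (nat_lit 9) (nat_lit 10) (C.cons (nat_lit 1546) (C.miq (nat_lit 1368422962) (nat_lit 641942654261976216281875596)) (C.cons (nat_lit 1538) (C.node (nat_lit 2) (nat_lit 9) (nat_lit 10) (C.cons (nat_lit 1572) (C.miq (nat_lit 371552410) (nat_lit 120914459854824487296173953))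 (C.cons (nat_lit 1540) (C.node (nat_lit 4) (nat_lit 7) (nat_lit 8) (C.cons (nat_lit 432) (C.miq (nat_lit 1411479562) (nat_lit 103989498446927908265461633)) (C.cons (nat_lit 400) (C.node (nat_lit 3) (nat_lit 5) (nat_lit 7) (C.cons (nat_lit 680) (C.miq (nat_lit 361801522) (nat_lit 658883590616945137757783180)) (C.cons (nat_lit 232) (C.miq (nat_lit 389195104) (nat_lit 1407208672958398672755557489)) (C.cons (nat_lit 168) (C.node (nat_lit 4) (nat_lit 5) (nat_lit 7) C.nil) C.nil)))) C.nil))) C.nil))) C.nil))) C.nil))) (C.cons (nat_lit 1154) (C.node (nat_lit 5) (nat_lit 7) (nat_lit 10) (C.cons (nat_lit 1184) (C.node (nat_lit 2) (nat_lit 3) (nat_lit 4) (C.cons (nat_lit 60) (C.node (nat_lit 2) (nat_lit 4) (nat_lit 9) (C.cons (nat_lit 532) (C.node (nat_lit 1) (nat_lit 2) (nat_lit 3) (C.cons (nat_lit 270) (C.miq (nat_lit 1619084594) (nat_lit 313113374020217619413336124)) (C.cons (nat_lit 14) (C.node (nat_lit 2) (nat_lit 3) (nat_lit 8) (C.cons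 (nat_lit 268) (C.node (nat_lit 2) (nat_lit 8) (nat_lit 10) (C.cons (nat_lit 1316) (C.miq (nat_lit 2184684864) (nat_lit 1407225090597215282465932401)) C.nil)) C.nil)) C.nil))) C.nil))
  (C.cons (nat_lit 28) (C.node (nat_lit 2) (nat_lit 3) (nat_lit 5) (C.cons (nat_lit 46) (C.node (nat_lit 2) (nat_lit 3) (nat_lit 8) (C.cons (nat_lit 268) (C.node (nat_lit 1) (nat_lit 2) (nat_lit 8) (C.cons (nat_lit 774) (C.miq (nat_lit 2188022080) (nat_lit 1320182431432402656243548691)) (C.cons (nat_lit 262) (C.node (nat_lit 1) (nat_lit 2) (nat_lit 9) C.nil) C.nil))) C.nil)) (C.cons (nat_lit 44) (C.node (nat_lit 1) (nat_lit 2) (nat_lit 3) (C.cons (nat_lit 270) (C.node (nat_lit 1) (nat_lit 3) (nat_lit 6) (C.cons (nat_lit 1098) (C.miq (nat_lit 2221088929) (nat_lit 106390452824960720951706631)) (C.cons (nat_lit 106) (C.node (nat_lit 1) (nat_lit 3) (nat_lit 7) (C.cons (nat_lit 650) (C.miq (nat_lit 1517379731) (nat_lit 1395102351510199180018188877)) (C.cons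 (nat_lit 138) (C.node (nat_lit 1) (nat_lit 2) (nat_lit 5) C.nil) C.nil))) (C.cons (nat_lit 74) (C.miq (nat_lit 1393952804) (nat_lit 89481484683093594418315541)) C.nil)))) (C.cons (nat_lit 14) (C.node (nat_lit 2) (nat_lit 3) (nat_lit 8) (C.cons (nat_lit 268) (C.node (nat_lit 2) (nat_lit 4) (nat_lit 5) (C.cons (nat_lit 52) (C.node (nat_lit 2) (nat_lit 4) (nat_lit 9) C.nil) C.nil)) C.nil)) C.nil))) C.nil))) C.nil))) C.nil)) C.nil))) C.nil))) C.nil)) C.nil))) (C.cons (nat_lit 1156) (C.node (nat_lit 4) (nat_lit 7) (nat_lit 9) (C.cons (nat_lit 688) (C.node (nat_lit 1) (nat_lit 4) (nat_lit 7) (C.cons (nat_lit 402) (C.miq (nat_lit 2554464022) (nat_lit 334883317706226853163172035)) (C.cons (nat_lit 146) (C.node (nat_lit 4) (nat_lit 7) (nat_lit 8) (C.cons (nat_lit 400) (C.node (nat_lit 2) (nat_lit 4) (nat_lit 9) (C.cons (nat_lit 1556) (C.miq (nat_lit 395468964) (nat_lit 778549814306707398724945009)) (C.cons (nat_lit 532) (C.node (nat_lit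 1) (nat_lit 7) (nat_lit 9) (C.cons (nat_lit 650) (C.node (nat_lit 1) (nat_lit 2) (nat_lit 7) (C.cons (nat_lit 390) (C.miq (nat_lit 2820933398) (nat_lit 334893426521979194457850051)) (C.cons (nat_lit 134) (C.node (nat_lit 1) (nat_lit 9) (nat_lit 10) (C.cons (nat_lit 1570) (C.miq (nat_lit 832600404) (nat_lit 1246405342557491434718560944)) (C.cons (nat_lit 1538) (C.node (nat_lit 2) (nat_lit 3) (nat_lit 7) (C.cons (nat_lit 396) (C.miq (nat_lit 843151369) (nat_lit 103979610981971300751443841)) (C.cons (nat_lit 140) (C.node (nat_lit 2) (nat_lit 7) (nat_lit 8) C.nil) C.nil))) C.nil))) C.nil))) (C.cons (nat_lit 642) (C.node (nat_lit 3) (nat_lit 7) (nat_lit 9) (C.cons (nat_lit 648) (C.node (nat_lit 2) (nat_lit 4) (nat_lit 5) (C.cons (nat_lit 60) (C.node (nat_lit 1) (nat_lit 2) (nat_lit 7) (C.cons (nat_lit 398) (C.miq (nat_lit 2820933398) (nat_lit 334893426521979228817588419)) (C.cons (nat_lit 390) (C.miq (nat_lit 2820933398) (nat_lit 334893426521979194457850051))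 (C.cons (nat_lit 142) (C.miq (nat_lit 323383888) (nat_lit 106389069281151445202174117)) C.nil)))) (C.cons (nat_lit 52) (C.node (nat_lit 2) (nat_lit 7) (nat_lit 8) (C.cons (nat_lit 398) (C.miq (nat_lit 2820933398) (nat_lit 334893426521979228817588419)) (C.cons (nat_lit 396) (C.node (nat_lit 1) (nat_lit 2) (nat_lit 7) C.nil) (C.cons (nat_lit 390) (C.miq (nat_lit 2820933398) (nat_lit 334893426521979194457850051)) C.nil)))) C.nil))) C.nil)) C.nil))) C.nil))) C.nil)) C.nil))) (C.cons (nat_lit 656) (C.ref (nat_lit 133) (nat_lit 11649936536080)) C.nil))) C.nil))) C.nil))) C.nil))) C.nil)))) C.nil))) C.nil))) C.nil)) C.nil))) C.nil))) C.nil)))) C.nil)) C.nil))) C.nil)))) C.nil))) List.nil)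

theorem ok11_134 : okL par11 (nat_lit 135) c11_134 (nat_lit 134) = true := by decide +kernel

noncomputable def c11_135 : List C :=
  (List.cons (C.node (nat_lit 4) (nat_lit 6) (nat_lit 7) (C.cons (nat_lit 720) (C.miq (nat_lit 308546169) (nat_lit 101559564358937931343202177)) (C.cons (nat_lit 464) (C.node (nat_lit 4) (nat_lit 6) (nat_lit 9) (C.cons (nat_lit 592) (C.node (nat_lit 1) (nat_lit 4) (nat_lit 6) (C.cons (nat_lit 90) (C.node (nat_lit 1) (nat_lit 6) (nat_lit 10) (C.cons (nat_lit 1346) (C.miq (nat_lit 815875974) (nat_lit 1246404180272723235138830800)) (C.cons (nat_lit 1090) (C.node (nat_lit 3) (nat_lit 4) (nat_lit 8) (C.cons (nat_lit 792) (C.miq (nat_lit 2216137568) (nat_lit 181374309360488540369257037)) (C.cons (nat_lit 280) (C.node (nat_lit 1) (nat_lit 4) (nat_lit 5) (C.cons (nat_lit 306) (C.node (nat_lit 4) (nat_lit 8) (nat_lit 9) C.nil) C.nil)) C.nil))) C.nil))) (C.cons (nat_lit 82) (C.node (nat_lit 3) (nat_lit 4) (nat_lit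 6) (C.cons (nat_lit 88) (C.node (nat_lit 4) (nat_lit 5) (nat_lit 7) (C.cons (nat_lit 176) (C.node (nat_lit 4) (nat_lit 7) (nat_lit 9) C.nil) C.nil)) C.nil)) C.nil))) C.nil)) (C.cons (nat_lit 208) (C.node (nat_lit 4) (nat_lit 6) (nat_lit 9) (C.cons (nat_lit 848) (C.node (nat_lit 4) (nat_lit 7) (nat_lit 8) (C.cons (nat_lit 432) (C.miq (nat_lit 1683134576) (nat_lit 62875007990912767697946497)) (C.cons (nat_lit 400) (C.node (nat_lit 6) (nat_lit 7) (nat_lit 9) (C.cons (nat_lit 736) (C.miq (nat_lit 610601111) (nat_lit 1374551700692577744446293889)) (C.cons (nat_lit 704) (C.node (nat_lit 2) (nat_lit 8) (nat_lit 9) (C.cons (nat_lit 806) (C.miq (nat_lit 440934505) (nat_lit 1566782730586488404739883597)) (C.cons (nat_lit 804) (C.node (nat_lit 1) (nat_lit 2) (nat_lit 9) C.nil) (C.cons (nat_lit 774) (C.miq (nat_lit 440934505) (nat_lit 1566782140290678046034231885)) C.nil)))) C.nil))) C.nil))) (C.cons (nat_lit 592) (C.node (nat_lit 4) (nat_lit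 7) (nat_lit 8) (C.cons (nat_lit 432) (C.node (nat_lit 4) (nat_lit 7) (nat_lit 9) (C.cons (nat_lit 656) (C.node (nat_lit 1) (nat_lit 4) (nat_lit 5) (C.cons (nat_lit 50) (C.node (nat_lit 3) (nat_lit 4) (nat_lit 5) C.nil) C.nil)) C.nil)) (C.cons (nat_lit 400) (C.node (nat_lit 4) (nat_lit 5) (nat_lit 7) (C.cons (nat_lit 688) (C.node (nat_lit 6) (nat_lit 7) (nat_lit 9) (C.cons (nat_lit 704) (C.node (nat_lit 3) (nat_lit 4) (nat_lit 5) (C.cons (nat_lit 56) (C.node (nat_lit 1) (nat_lit 4) (nat_lit 5) C.nil) C.nil)) C.nil)) (C.cons (nat_lit 176) (C.node (nat_lit 4) (nat_lit 7) (nat_lit 9) C.nil) C.nil))) C.nil))) C.nil))) C.nil)))) List.nil)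

theorem ok11_135 : okL par11 (nat_lit 136) c11_135 (nat_lit 135) = true := by decide +kernel

noncomputable def c11_136 : List C :=
  (List.cons (C.node (nat_lit 1) (nat_lit 2) (nat_lit 3) (C.cons (nat_lit 270) (C.node (nat_lit 2) (nat_lit 7) (nat_lit 8) (C.cons (nat_lit 388) (C.node (nat_lit 3) (nat_lit 8) (nat_lit 10) (C.cons (nat_lit 1352) (C.miq (nat_lit 1398933671) (nat_lit 712060351549392620936759169)) (C.cons (nat_lit 1288) (C.node (nat_lit 3) (nat_lit 6) (nat_lit 10) (C.cons (nat_lit 1098) (C.miq (nat_lit 2225152099) (nat_lit 1259705684737316953621398093)) (C.cons (nat_lit 1096) (C.node (nat_lit 1) (nat_lit 2) (nat_lit 6) (C.cons (nat_lit 102) (C.node (nat_lit 2) (nat_lit 6) (nat_lit 8) (C.cons (nat_lit 324) (C.node (nat_lit 1) (nat_lit 2) (nat_lit 9) (C.cons (nat_lit 646) (C.miq (nat_lit 1176570489) (nat_lit 123320229141837604014393217)) (C.cons (nat_lit 518) (C.node (nat_lit 1) (nat_lit 3) (nat_lit 6) (C.cons (nat_lit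 90) (C.miq (nat_lit 1913849188) (nat_lit 326412793694236963981886577)) (C.cons (nat_lit 74) (C.node (nat_lit 1) (nat_lit 6) (nat_lit 10) (C.cons (nat_lit 1346) (C.miq (nat_lit 2014448229) (nat_lit 326413015549441250540520561)) (C.cons (nat_lit 1090) (C.node (nat_lit 6) (nat_lit 8) (nat_lit 10) (C.cons (nat_lit 1344) (C.node (nat_lit 1) (nat_lit 8) (nat_lit 10) (C.cons (nat_lit 1314) (C.miq (nat_lit 2166990176) (nat_lit 626259011125602066069521521)) (C.cons (nat_lit 1282) (C.node (nat_lit 2) (nat_lit 8) (nat_lit 10) (C.cons (nat_lit 1316) (C.miq (nat_lit 2015431254) (nat_lit 326413568951763332978050161)) (C.cons (nat_lit 1284) (C.node (nat_lit 5) (nat_lit 8) (nat_lit 10) (C.cons (nat_lit 1312) (C.node (nat_lit 2) (nat_lit 5) (nat_lit 10) (C.cons (nat_lit 1572) (C.miq (nat_lit 2032208470) (nat_lit 626227172216192467816809585)) (C.cons (nat_lit 1060) (C.node (nat_lit 2) (nat_lit 9) (nat_lit 10) (C.cons (nat_lit 1540) (C.node (nat_lit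 1) (nat_lit 4) (nat_lit 6) C.nil) C.nil)) C.nil))) C.nil)) C.nil))) C.nil))) C.nil)) C.nil))) C.nil))) C.nil))) C.nil)) (C.cons (nat_lit 70) (C.node (nat_lit 1) (nat_lit 6) (nat_lit 10) (C.cons (nat_lit 1346) (C.node (nat_lit 1) (nat_lit 4) (nat_lit 6) (C.cons (nat_lit 90) (C.miq (nat_lit 2014513764) (nat_lit 326412794188512366025114737)) (C.cons (nat_lit 82) (C.node (nat_lit 1) (nat_lit 3) (nat_lit 6) (C.cons (nat_lit 106) (C.miq (nat_lit 560235344) (nat_lit 99137027032506708924629289)) (C.cons (nat_lit 74) (C.node (nat_lit 2) (nat_lit 8) (nat_lit 10) (C.cons (nat_lit 1316) (C.miq (nat_lit 405236304) (nat_lit 469066815504441463988880497)) (C.cons (nat_lit 1284) (C.node (nat_lit 5) (nat_lit 8) (nat_lit 10) (C.cons (nat_lit 1312) (C.node (nat_lit 3) (nat_lit 4) (nat_lit 6) (C.cons (nat_lit 344) (C.miq (nat_lit 1209688864) (nat_lit 1627235127246131228611904077)) (C.cons (nat_lit 88) (C.node (nat_lit 1) (nat_lit 3) (nat_lit 4) (C.cons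 (nat_lit 58) (C.node (nat_lit 1) (nat_lit 8) (nat_lit 9) (C.cons (nat_lit 802) (C.miq (nat_lit 2018707732) (nat_lit 359053791318105017277874707)) (C.cons (nat_lit 770) (C.node (nat_lit 1) (nat_lit 2) (nat_lit 4) (C.cons (nat_lit 150) (C.node (nat_lit 1) (nat_lit 4) (nat_lit 8) (C.cons (nat_lit 274) (C.node (nat_lit 2) (nat_lit 7) (nat_lit 9) (C.cons (nat_lit 644) (C.node (nat_lit 1) (nat_lit 2) (nat_lit 5) (C.cons (nat_lit 550) (C.node (nat_lit 1) (nat_lit 5) (nat_lit 6) (C.cons (nat_lit 98) (C.node (nat_lit 1) (nat_lit 6) (nat_lit 9) C.nil) C.nil)) (C.cons (nat_lit 38) (C.node (nat_lit 1) (nat_lit 2) (nat_lit 9) (C.cons (nat_lit 518) (C.node (nat_lit 1) (nat_lit 5) (nat_lit 8) (C.cons (nat_lit 418) (C.node (nat_lit 1) (nat_lit 5) (nat_lit 6) C.nil) C.nil)) C.nil)) C.nil))) C.nil)) C.nil)) (C.cons (nat_lit 22) (C.node (nat_lit 1) (nat_lit 2) (nat_lit 7) (C.cons (nat_lit 646) (C.miq (nat_lit 1645520784) (nat_lit 26617342322935895774398337))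 (C.cons (nat_lit 134) (C.node (nat_lit 1) (nat_lit 2) (nat_lit 5) (C.cons (nat_lit 550) (C.node (nat_lit 1) (nat_lit 5) (nat_lit 6) (C.cons (nat_lit 98) (C.node (nat_lit 1) (nat_lit 6) (nat_lit 9) (C.cons (nat_lit 578) (C.node (nat_lit 2) (nat_lit 4) (nat_lit 5) C.nil) C.nil)) C.nil)) (C.cons (nat_lit 38)
  (C.node (nat_lit 1) (nat_lit 2) (nat_lit 9) (C.cons (nat_lit 518) (C.node (nat_lit 2) (nat_lit 4) (nat_lit 5) C.nil) C.nil)) C.nil))) C.nil))) C.nil))) C.nil))) (C.cons (nat_lit 26) (C.node (nat_lit 1) (nat_lit 5) (nat_lit 6) (C.cons (nat_lit 610) (C.node (nat_lit 1) (nat_lit 8) (nat_lit 9) (C.cons (nat_lit 770) (C.node (nat_lit 1) (nat_lit 2) (nat_lit 9) (C.cons (nat_lit 646) (C.miq (nat_lit 1176570489) (nat_lit 84634602914169470423795585)) (C.cons (nat_lit 518) (C.node (nat_lit 6) (nat_lit 7) (nat_lit 9) (C.cons (nat_lit 720) (C.miq (nat_lit 641836944) (nat_lit 99150936144942150871877505)) (C.cons (nat_lit 704) (C.node (nat_lit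 1) (nat_lit 2) (nat_lit 5) (C.cons (nat_lit 54) (C.node (nat_lit 1) (nat_lit 2) (nat_lit 7) (C.cons (nat_lit 134) (C.node (nat_lit 2) (nat_lit 5) (nat_lit 6) (C.cons (nat_lit 356) (C.miq (nat_lit 2215977110) (nat_lit 65288561378051065250972237)) C.nil)) C.nil)) (C.cons (nat_lit 38) (C.node (nat_lit 1) (nat_lit 2) (nat_lit 4) (C.cons (nat_lit 150) (C.node (nat_lit 2) (nat_lit 7) (nat_lit 9) (C.cons (nat_lit 644) (C.node (nat_lit 3) (nat_lit 5) (nat_lit 6) C.nil) C.nil)) (C.cons (nat_lit 22) (C.node (nat_lit 1) (nat_lit 2) (nat_lit 7) C.nil) C.nil))) C.nil))) C.nil))) C.nil))) C.nil)) (C.cons (nat_lit 98) (C.node (nat_lit 1) (nat_lit 6) (nat_lit 9) (C.cons (nat_lit 578) (C.node (nat_lit 1) (nat_lit 8) (nat_lit 9) (C.cons (nat_lit 802) (C.node (nat_lit 2) (nat_lit 8) (nat_lit 9) (C.cons (nat_lit 772) (C.node (nat_lit 1) (nat_lit 9) (nat_lit 10) (C.cons (nat_lit 1538) (C.node (nat_lit 1) (nat_lit 3) (nat_lit 10) (C.cons (nat_lit 1194)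 (C.miq (nat_lit 1161300498) (nat_lit 359056078493695459162194951)) C.nil)) C.nil)) C.nil)) (C.cons (nat_lit 770) (C.node (nat_lit 2) (nat_lit 5) (nat_lit 6) (C.cons (nat_lit 356) (C.node (nat_lit 2) (nat_lit 8) (nat_lit 9) (C.cons (nat_lit 772) (C.node (nat_lit 3) (nat_lit 6) (nat_lit 8) C.nil) C.nil)) (C.cons (nat_lit 100) (C.node (nat_lit 2) (nat_lit 6) (nat_lit 8) (C.cons (nat_lit 324) (C.node (nat_lit 3) (nat_lit 6) (nat_lit 8) C.nil) C.nil)) C.nil))) C.nil))) C.nil)) C.nil))) C.nil))) C.nil))) C.nil)) C.nil))) C.nil))) C.nil))) (C.cons (nat_lit 1090) (C.node (nat_lit 6) (nat_lit 8) (nat_lit 10) (C.cons (nat_lit 1344) (C.node (nat_lit 1) (nat_lit 8) (nat_lit 10) (C.cons (nat_lit 1314) (C.miq (nat_lit 1703086610) (nat_lit 359061833877846971938374663)) (C.cons (nat_lit 1282) (C.node (nat_lit 2) (nat_lit 5) (nat_lit 6) (C.cons (nat_lit 356) (C.node (nat_lit 2) (nat_lit 8) (nat_lit 9) (C.cons (nat_lit 772) (C.node (nat_lit 2) (nat_lit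 8) (nat_lit 10) (C.cons (nat_lit 1284) (C.node (nat_lit 5) (nat_lit 8) (nat_lit 10) (C.cons (nat_lit 1312) (C.node (nat_lit 2) (nat_lit 5) (nat_lit 10) (C.cons (nat_lit 1060) (C.node (nat_lit 2) (nat_lit 9) (nat_lit 10) C.nil) C.nil)) C.nil)) C.nil)) C.nil)) (C.cons (nat_lit 100) (C.node (nat_lit 2) (nat_lit 6) (nat_lit 8) (C.cons (nat_lit 324) (C.node (nat_lit 2) (nat_lit 8) (nat_lit 9) (C.cons (nat_lit 804) (C.node (nat_lit 2) (nat_lit 5) (nat_lit 10) (C.cons (nat_lit 1060) (C.node (nat_lit 2) (nat_lit 8) (nat_lit 10) (C.cons (nat_lit 1284) (C.node (nat_lit 2) (nat_lit 9) (nat_lit 10) (C.cons (nat_lit 1540) (C.node (nat_lit 5) (nat_lit 8) (nat_lit 10) C.nil) C.nil)) C.nil)) C.nil)) (C.cons (nat_lit 772) (C.node (nat_lit 2) (nat_lit 5) (nat_lit 8) (C.cons (nat_lit 1316) (C.node (nat_lit 2) (nat_lit 9) (nat_lit 10) (C.cons (nat_lit 1540) (C.node (nat_lit 3) (nat_lit 7) (nat_lit 8) (C.cons (nat_lit 456) (C.node (nat_lit 3) (nat_lit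 5) (nat_lit 6) (C.cons (nat_lit 106) (C.miq (nat_lit 1108740149) (nat_lit 84645781399005578186588457)) (C.cons (nat_lit 104) (C.node (nat_lit 3) (nat_lit 4) (nat_lit 8) (C.cons (nat_lit 792) (C.node (nat_lit 4) (nat_lit 6) (nat_lit 8) C.nil) C.nil)) C.nil))) (C.cons (nat_lit 392) (C.node (nat_lit 3) (nat_lit 6) (nat_lit 8) (C.cons (nat_lit 344) (C.miq (nat_lit 1209688864) (nat_lit 1549863874790794961430708813)) (C.cons (nat_lit 328) (C.node (nat_lit 6) (nat_lit 7) (nat_lit 8) C.nil) C.nil))) C.nil))) C.nil))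
  (C.cons (nat_lit 292) (C.node (nat_lit 2) (nat_lit 8) (nat_lit 10) (C.cons (nat_lit 1284) (C.node (nat_lit 5) (nat_lit 8) (nat_lit 10) (C.cons (nat_lit 1312) (C.node (nat_lit 2) (nat_lit 5) (nat_lit 10) (C.cons (nat_lit 1060) (C.node (nat_lit 2) (nat_lit 9) (nat_lit 10) C.nil) C.nil)) C.nil)) C.nil)) C.nil))) C.nil))) C.nil)) C.nil))) C.nil))) C.nil)) C.nil))) C.nil))) C.nil))) C.nil))) C.nil)) (C.cons (nat_lit 14) (C.node (nat_lit 2) (nat_lit 3) (nat_lit 8) (C.cons (nat_lit 268) (C.node (nat_lit 2) (nat_lit 7) (nat_lit 8) (C.cons (nat_lit 390) (C.node (nat_lit 1) (nat_lit 2) (nat_lit 4) (C.cons (nat_lit 54) (C.miq (nat_lit 2169139792) (nat_lit 1259736140343584669012394149)) (C.cons (nat_lit 22) (C.node (nat_lit 1) (nat_lit 2) (nat_lit 6) (C.cons (nat_lit 102) (C.miq (nat_lit 2152823394) (nat_lit 42319598457419081485518020)) (C.cons (nat_lit 70) (C.node (nat_lit 2) (nat_lit 8) (nat_lit 10) (C.cons (nat_lit 1316) (C.miq (nat_lit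 1377216624) (nat_lit 84645781691458594390869889)) (C.cons (nat_lit 1284) (C.node (nat_lit 4) (nat_lit 6) (nat_lit 7) (C.cons (nat_lit 720) (C.miq (nat_lit 308546169) (nat_lit 101559564358937931343202177)) (C.cons (nat_lit 464) (C.miq (nat_lit 1210738448) (nat_lit 1552281726463801732381475011)) (C.cons (nat_lit 208) (C.node (nat_lit 4) (nat_lit 7) (nat_lit 8) (C.cons (nat_lit 432) (C.miq (nat_lit 440934487) (nat_lit 1566775056740953741539147941)) (C.cons (nat_lit 400) (C.node (nat_lit 5) (nat_lit 7) (nat_lit 8) (C.cons (nat_lit 480) (C.miq (nat_lit 1479173904) (nat_lit 1552281726468305332008845507)) (C.cons (nat_lit 416) (C.node (nat_lit 6) (nat_lit 8) (nat_lit 10) (C.cons (nat_lit 1354) (C.miq (nat_lit 1444022919) (nat_lit 84627851405839068236744577)) (C.cons (nat_lit 1352) (C.miq (nat_lit 1398933671) (nat_lit 712060351549392620936759169)) (C.cons (nat_lit 1346) (C.miq (nat_lit 1444022919) (nat_lit 84627851405839033877006209))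 (C.cons (nat_lit 1344) (C.node (nat_lit 1) (nat_lit 2) (nat_lit 5) (C.cons (nat_lit 550) (C.node (nat_lit 2) (nat_lit 4) (nat_lit 5) (C.cons (nat_lit 52) (C.node (nat_lit 2) (nat_lit 5) (nat_lit 10) (C.cons (nat_lit 1060) (C.node (nat_lit 2) (nat_lit 8) (nat_lit 9) (C.cons (nat_lit 772) (C.node (nat_lit 2) (nat_lit 9) (nat_lit 10) (C.cons (nat_lit 1540) (C.node (nat_lit 2) (nat_lit 4) (nat_lit 7) (C.cons (nat_lit 660) (C.node (nat_lit 1) (nat_lit 4) (nat_lit 7) (C.cons (nat_lit 178) (C.miq (nat_lit 844564756) (nat_lit 199475582754048214914171411)) C.nil)) C.nil)) C.nil)) C.nil)) C.nil)) C.nil)) (C.cons (nat_lit 38) (C.node (nat_lit 1) (nat_lit 2) (nat_lit 9) (C.cons (nat_lit 518) (C.node (nat_lit 1) (nat_lit 4) (nat_lit 7) (C.cons (nat_lit 178) (C.node (nat_lit 2) (nat_lit 4) (nat_lit 5) (C.cons (nat_lit 564) (C.miq (nat_lit 1649871169) (nat_lit 199476357517299370844881427)) (C.cons (nat_lit 52) (C.node (nat_lit 1) (nat_lit 4)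 (nat_lit 6) (C.cons (nat_lit 346) (C.miq (nat_lit 829580368) (nat_lit 471491934879355899518190705)) (C.cons (nat_lit 338) (C.miq (nat_lit 1384384278) (nat_lit 334893426027709135370453187)) (C.cons (nat_lit 90) (C.miq (nat_lit 829580368) (nat_lit 471491934807298305480262769)) (C.cons (nat_lit 82) (C.node (nat_lit 1) (nat_lit 3) (nat_lit 4) (C.cons (nat_lit 282) (C.node (nat_lit 3) (nat_lit 4) (nat_lit 6) (C.cons (nat_lit 88) (C.node (nat_lit 2) (nat_lit 4) (nat_lit 7) C.nil) C.nil)) (C.cons (nat_lit 26) (C.node (nat_lit 1) (nat_lit 4) (nat_lit 8) (C.cons (nat_lit 274) (C.node (nat_lit 1) (nat_lit 6) (nat_lit 10) C.nil) C.nil)) C.nil))) C.nil))))) C.nil))) (C.cons (nat_lit 146) (C.node (nat_lit 1) (nat_lit 6) (nat_lit 10) (C.cons (nat_lit 1098) (C.node (nat_lit 3) (nat_lit 8) (nat_lit 10) (C.cons (nat_lit 1288) (C.node (nat_lit 1) (nat_lit 4) (nat_lit 6) (C.cons (nat_lit 338) (C.miq (nat_lit 1384384278) (nat_lit 334893426027709135370453187))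 (C.cons (nat_lit 82) (C.node (nat_lit 2) (nat_lit 5) (nat_lit 10) (C.cons (nat_lit 1060) (C.node (nat_lit 2) (nat_lit 9) (nat_lit 10) C.nil) C.nil)) C.nil))) C.nil)) (C.cons (nat_lit 1090)
  (C.node (nat_lit 3) (nat_lit 6) (nat_lit 10) (C.cons (nat_lit 1096) (C.node (nat_lit 2) (nat_lit 4) (nat_lit 5) (C.cons (nat_lit 52) (C.node (nat_lit 2) (nat_lit 4) (nat_lit 7) C.nil) C.nil)) C.nil)) C.nil))) C.nil))) C.nil)) C.nil))) C.nil))))) C.nil))) C.nil))) C.nil)))) C.nil))) C.nil))) C.nil))) (C.cons (nat_lit 388) (C.node (nat_lit 2) (nat_lit 8) (nat_lit 10) (C.cons (nat_lit 1316) (C.node (nat_lit 2) (nat_lit 9) (nat_lit 10) (C.cons (nat_lit 1540) (C.node (nat_lit 2) (nat_lit 5) (nat_lit 6) (C.cons (nat_lit 102) (C.miq (nat_lit 394420389) (nat_lit 469065099633267509337261169)) (C.cons (nat_lit 100) (C.node (nat_lit 6) (nat_lit 8) (nat_lit 10) (C.cons (nat_lit 1354) (C.miq (nat_lit 908429936) (nat_lit 120898061025575167544592257)) (C.cons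 (nat_lit 1352) (C.miq (nat_lit 908429936) (nat_lit 120898061025012217591170945)) (C.cons (nat_lit 1346) (C.miq (nat_lit 405236304) (nat_lit 469066815504441463988880497)) (C.cons (nat_lit 1344) (C.node (nat_lit 1) (nat_lit 2) (nat_lit 6) (C.cons (nat_lit 326) (C.node (nat_lit 2) (nat_lit 8) (nat_lit 9) (C.cons (nat_lit 772) (C.node (nat_lit 1) (nat_lit 4) (nat_lit 6) (C.cons (nat_lit 90) (C.node (nat_lit 1) (nat_lit 6) (nat_lit 10) (C.cons (nat_lit 1090) (C.node (nat_lit 3) (nat_lit 6) (nat_lit 10) (C.cons (nat_lit 1096) (C.node (nat_lit 3) (nat_lit 6) (nat_lit 8) (C.cons (nat_lit 456) (C.miq (nat_lit 2556495668) (nat_lit 394119612956187639498277017)) (C.cons (nat_lit 328) (C.node (nat_lit 3) (nat_lit 4) (nat_lit 8) (C.cons (nat_lit 792) (C.miq (nat_lit 2016807233) (nat_lit 396531266489409574547358227)) (C.cons (nat_lit 280) (C.node (nat_lit 3) (nat_lit 7) (nat_lit 8) (C.cons (nat_lit 394) (C.miq (nat_lit 2202693984) (nat_lit 1271825398540857015285121219))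 (C.cons (nat_lit 392) (C.node (nat_lit 1) (nat_lit 8) (nat_lit 10) (C.cons (nat_lit 1282) (C.node (nat_lit 3) (nat_lit 8) (nat_lit 10) C.nil) C.nil)) C.nil))) C.nil))) C.nil))) C.nil)) C.nil)) (C.cons (nat_lit 82) (C.node (nat_lit 1) (nat_lit 6) (nat_lit 9) (C.cons (nat_lit 610) (C.node (nat_lit 1) (nat_lit 2) (nat_lit 5) (C.cons (nat_lit 54) (C.miq (nat_lit 2552302164) (nat_lit 394119612956191333167793265)) (C.cons (nat_lit 38) (C.node (nat_lit 1) (nat_lit 2) (nat_lit 9) (C.cons (nat_lit 646) (C.miq (nat_lit 1176570489) (nat_lit 394119612735514539148576641)) (C.cons (nat_lit 518) (C.node (nat_lit 5) (nat_lit 6) (nat_lit 8) (C.cons (nat_lit 480) (C.miq (nat_lit 627157104) (nat_lit 737463768928486922066790273)) (C.cons (nat_lit 352) (C.node (nat_lit 5) (nat_lit 8) (nat_lit 9) (C.cons (nat_lit 816) (C.miq (nat_lit 1092980904) (nat_lit 45954233837987696463841153)) (C.cons (nat_lit 800) (C.node (nat_lit 6) (nat_lit 7) (nat_lit 9) (C.cons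 (nat_lit 720) (C.miq (nat_lit 641836944) (nat_lit 99150936144942150871877505)) (C.cons (nat_lit 704) (C.node (nat_lit 1) (nat_lit 2) (nat_lit 4) (C.cons (nat_lit 150) (C.node (nat_lit 2) (nat_lit 7) (nat_lit 9) (C.cons (nat_lit 644) (C.node (nat_lit 1) (nat_lit 4) (nat_lit 8) (C.cons (nat_lit 306) (C.miq (nat_lit 2441241920) (nat_lit 394120682498329575951762545)) (C.cons (nat_lit 282) (C.miq (nat_lit 1377306435) (nat_lit 394115295923803018111877273)) C.nil))) C.nil)) (C.cons (nat_lit 22) (C.node (nat_lit 1) (nat_lit 2) (nat_lit 7) C.nil) C.nil))) C.nil))) C.nil))) C.nil))) C.nil))) C.nil))) (C.cons (nat_lit 578) (C.node (nat_lit 1) (nat_lit 5) (nat_lit 6) (C.cons (nat_lit 106) (C.node (nat_lit 1) (nat_lit 6) (nat_lit 10) (C.cons (nat_lit 1090) (C.node (nat_lit 3) (nat_lit 6) (nat_lit 10) (C.cons (nat_lit 1096) (C.node (nat_lit 1) (nat_lit 7) (nat_lit 8) (C.cons (nat_lit 434) (C.miq (nat_lit 830629184) (nat_lit 394120682356466737445405809))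 (C.cons (nat_lit 418) (C.miq (nat_lit 2555578134) (nat_lit 359061834098519505378083011)) (C.cons (nat_lit 402) (C.miq (nat_lit 1210282336) (nat_lit 323994942121718237218275523)) (C.cons (nat_lit 394) (C.miq (nat_lit 2822047510) (nat_lit 359071942914271795133153475)) (C.cons (nat_lit 386) (C.node (nat_lit 1) (nat_lit 3) (nat_lit 4) (C.cons (nat_lit 282)
  (C.node (nat_lit 1) (nat_lit 8) (nat_lit 10) (C.cons (nat_lit 1282) (C.node (nat_lit 3) (nat_lit 4) (nat_lit 6) C.nil) C.nil)) (C.cons (nat_lit 26) (C.node (nat_lit 1) (nat_lit 4) (nat_lit 8) (C.cons (nat_lit 306) (C.miq (nat_lit 830629184) (nat_lit 394120682356466187689591921)) (C.cons (nat_lit 274) (C.node (nat_lit 1) (nat_lit 5) (nat_lit 8) (C.cons (nat_lit 802) (C.node (nat_lit 1) (nat_lit 3) (nat_lit 8) C.nil) C.nil)) C.nil))) C.nil))) C.nil)))))) C.nil)) C.nil)) (C.cons (nat_lit 98) (C.node (nat_lit 1) (nat_lit 3) (nat_lit 6) (C.cons (nat_lit 1098) (C.node (nat_lit 1) (nat_lit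 8) (nat_lit 10) (C.cons (nat_lit 1282) (C.node (nat_lit 3) (nat_lit 8) (nat_lit 10) (C.cons (nat_lit 1288) (C.node (nat_lit 1) (nat_lit 7) (nat_lit 10) (C.cons (nat_lit 1186) (C.miq (nat_lit 1915834474) (nat_lit 16946839359522128939058289)) (C.cons (nat_lit 1154) (C.node (nat_lit 3) (nat_lit 4) (nat_lit 6) (C.cons (nat_lit 344) (C.miq (nat_lit 327329344) (nat_lit 324011138558921615284175985)) (C.cons (nat_lit 88) (C.node (nat_lit 3) (nat_lit 6) (nat_lit 8) (C.cons (nat_lit 456) (C.node (nat_lit 3) (nat_lit 5) (nat_lit 6) C.nil) C.nil)) C.nil))) C.nil))) C.nil)) C.nil)) (C.cons (nat_lit 74) (C.node (nat_lit 1) (nat_lit 6) (nat_lit 10) (C.cons (nat_lit 1090) (C.node (nat_lit 3) (nat_lit 6) (nat_lit 10) (C.cons (nat_lit 1096) (C.node (nat_lit 1) (nat_lit 2) (nat_lit 4) (C.cons (nat_lit 150) (C.node (nat_lit 2) (nat_lit 7) (nat_lit 9) C.nil) (C.cons (nat_lit 54) (C.miq (nat_lit 2552302164) (nat_lit 394119612956191333167793265)) C.nil)))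 C.nil)) C.nil)) C.nil))) C.nil))) C.nil))) C.nil))) C.nil)) (C.cons (nat_lit 70) (C.node (nat_lit 2) (nat_lit 6) (nat_lit 8) (C.cons (nat_lit 324) (C.node (nat_lit 1) (nat_lit 2) (nat_lit 8) (C.cons (nat_lit 774) (C.node (nat_lit 1) (nat_lit 2) (nat_lit 5) (C.cons (nat_lit 54) (C.node (nat_lit 1) (nat_lit 2) (nat_lit 7) (C.cons (nat_lit 134) (C.node (nat_lit 2) (nat_lit 5) (nat_lit 9) (C.cons (nat_lit 548) (C.node (nat_lit 1) (nat_lit 4) (nat_lit 7) (C.cons (nat_lit 402) (C.miq (nat_lit 840173959) (nat_lit 65284816776825338609141633)) (C.cons (nat_lit 146) (C.node (nat_lit 1) (nat_lit 6) (nat_lit 9) (C.cons (nat_lit 610) (C.miq (nat_lit 2219909225) (nat_lit 65296272117076478593729101)) (C.cons (nat_lit 578) (C.node (nat_lit 2) (nat_lit 4) (nat_lit 7) (C.cons (nat_lit 660) (C.node (nat_lit 3) (nat_lit 4) (nat_lit 5) (C.cons (nat_lit 568) (C.miq (nat_lit 2303009034) (nat_lit 686694141674174285679232007)) (C.cons (nat_lit 56) (C.node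 (nat_lit 3) (nat_lit 4) (nat_lit 9) (C.cons (nat_lit 792) (C.miq (nat_lit 874875248) (nat_lit 65287473165110883415033729)) (C.cons (nat_lit 536) (C.node (nat_lit 3) (nat_lit 8) (nat_lit 9) (C.cons (nat_lit 776) (C.node (nat_lit 4) (nat_lit 5) (nat_lit 7) (C.cons (nat_lit 432) (C.miq (nat_lit 609458048) (nat_lit 67710711216453988783818625)) (C.cons (nat_lit 176) (C.node (nat_lit 4) (nat_lit 5) (nat_lit 8) (C.cons (nat_lit 816) (C.node (nat_lit 4) (nat_lit 6) (nat_lit 9) C.nil) (C.cons (nat_lit 304) (C.miq (nat_lit 2488799394) (nat_lit 367527727092228416401048583)) C.nil))) C.nil))) C.nil)) C.nil))) C.nil))) C.nil)) C.nil))) C.nil))) C.nil)) C.nil)) (C.cons (nat_lit 38) (C.miq (nat_lit 1159793289) (nat_lit 45948976686501749158446977)) C.nil))) (C.cons (nat_lit 262) (C.node (nat_lit 2) (nat_lit 8) (nat_lit 9) (C.cons (nat_lit 772) (C.node (nat_lit 1) (nat_lit 6) (nat_lit 10) (C.cons (nat_lit 1098) (C.node (nat_lit 1) (nat_lit 8) (nat_lit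 10) (C.cons (nat_lit 1282) (C.node (nat_lit 3) (nat_lit 8) (nat_lit 10) C.nil) C.nil)) (C.cons (nat_lit 1090) (C.node (nat_lit 3) (nat_lit 6) (nat_lit 10) (C.cons (nat_lit 1096) (C.node (nat_lit 1) (nat_lit 2) (nat_lit 4) (C.cons (nat_lit 150) (C.node (nat_lit 2) (nat_lit 7) (nat_lit 9) C.nil) (C.cons (nat_lit 54) (C.miq (nat_lit 2552302164) (nat_lit 316748360500855065986598001)) C.nil))) C.nil)) C.nil))) C.nil)) C.nil))) C.nil)) C.nil))) C.nil))))) C.nil))) C.nil)) (C.cons (nat_lit 1284) (C.node (nat_lit 2) (nat_lit 5) (nat_lit 10) (C.cons (nat_lit 1572)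
  (C.node (nat_lit 6) (nat_lit 7) (nat_lit 9) (C.cons (nat_lit 736) (C.miq (nat_lit 379193170) (nat_lit 1934300330031437455735128229)) (C.cons (nat_lit 720) (C.miq (nat_lit 308546169) (nat_lit 101559564358937931343202177)) (C.cons (nat_lit 704) (C.node (nat_lit 1) (nat_lit 9) (nat_lit 10) (C.cons (nat_lit 1546) (C.node (nat_lit 1) (nat_lit 7) (nat_lit 10) (C.cons (nat_lit 1186) (C.miq (nat_lit 1378971802) (nat_lit 16946839359522128968419201)) (C.cons (nat_lit 1154) (C.node (nat_lit 3) (nat_lit 6) (nat_lit 10) (C.cons (nat_lit 1352) (C.miq (nat_lit 1398933671) (nat_lit 712060351549392620936759169)) (C.cons (nat_lit 1096) (C.node (nat_lit 3) (nat_lit 8) (nat_lit 10) (C.cons (nat_lit 1288) (C.node (nat_lit 3) (nat_lit 7) (nat_lit 9) (C.cons (nat_lit 680) (C.miq (nat_lit 324184432) (nat_lit 53211755091346912818038657)) (C.cons (nat_lit 648) (C.node (nat_lit 3) (nat_lit 8) (nat_lit 9) (C.cons (nat_lit 792) (C.miq (nat_lit 323135872)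 (nat_lit 1271808981262893601965541249)) (C.cons (nat_lit 776) (C.node (nat_lit 1) (nat_lit 5) (nat_lit 10) (C.cons (nat_lit 1314) (C.node (nat_lit 1) (nat_lit 6) (nat_lit 10) (C.cons (nat_lit 1090) (C.node (nat_lit 6) (nat_lit 8) (nat_lit 10) (C.cons (nat_lit 1344) (C.node (nat_lit 3) (nat_lit 5) (nat_lit 10) (C.cons (nat_lit 1192) (C.node (nat_lit 1) (nat_lit 3) (nat_lit 7) (C.cons (nat_lit 394) (C.miq (nat_lit 1243022723) (nat_lit 1395103218507168037305188649)) (C.cons (nat_lit 138) (C.node (nat_lit 3) (nat_lit 5) (nat_lit 6) (C.cons (nat_lit 106) (C.miq (nat_lit 2168038752) (nat_lit 1869034753689440874847339633)) (C.cons (nat_lit 104) (C.node (nat_lit 1) (nat_lit 3) (nat_lit 5) (C.cons (nat_lit 58) (C.miq (nat_lit 2167907648) (nat_lit 166867199672042790674039921)) C.nil)) C.nil))) C.nil))) C.nil)) C.nil)) C.nil)) (C.cons (nat_lit 1058) (C.node (nat_lit 5) (nat_lit 8) (nat_lit 10) (C.cons (nat_lit 1312) (C.node (nat_lit 1) (nat_lit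 6) (nat_lit 10) (C.cons (nat_lit 1346) (C.node (nat_lit 3) (nat_lit 5) (nat_lit 10) (C.cons (nat_lit 1192) (C.node (nat_lit 1) (nat_lit 2) (nat_lit 6) (C.cons (nat_lit 102) (C.miq (nat_lit 309880074) (nat_lit 469088047356710489262457969)) (C.cons (nat_lit 70) (C.node (nat_lit 1) (nat_lit 3) (nat_lit 7) (C.cons (nat_lit 394) (C.miq (nat_lit 950301024) (nat_lit 1566770684683309609905094851)) (C.cons (nat_lit 138) (C.node (nat_lit 1) (nat_lit 4) (nat_lit 6) (C.cons (nat_lit 90) (C.miq (nat_lit 2167907904) (nat_lit 166867199681050127367734385)) (C.cons (nat_lit 82) (C.node (nat_lit 1) (nat_lit 3) (nat_lit 6) (C.cons (nat_lit 106) (C.node (nat_lit 1) (nat_lit 3) (nat_lit 4) C.nil) C.nil)) C.nil))) C.nil))) C.nil))) C.nil)) C.nil)) C.nil)) C.nil))) C.nil))) C.nil))) C.nil)) C.nil))) C.nil))) (C.cons (nat_lit 1538) (C.node (nat_lit 3) (nat_lit 9) (nat_lit 10) (C.cons (nat_lit 1544) (C.node (nat_lit 2) (nat_lit 4) (nat_lit 5) (C.cons (nat_lit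 54) (C.node (nat_lit 1) (nat_lit 2) (nat_lit 7) (C.cons (nat_lit 646) (C.miq (nat_lit 1696664215) (nat_lit 65285591694328149047641985)) (C.cons (nat_lit 134) (C.node (nat_lit 1) (nat_lit 2) (nat_lit 9) (C.cons (nat_lit 774) (C.miq (nat_lit 2186973504) (nat_lit 1900466824847424522663559699)) (C.cons (nat_lit 518) (C.node (nat_lit 2) (nat_lit 8) (nat_lit 9) (C.cons (nat_lit 772) (C.node (nat_lit 4) (nat_lit 5) (nat_lit 7) (C.cons (nat_lit 688) (C.miq (nat_lit 1965724688) (nat_lit 1900466824823217674659496467)) (C.cons (nat_lit 432) (C.miq (nat_lit 2216326432) (nat_lit 1259736140355406618027294885)) (C.cons (nat_lit 176) (C.node (nat_lit 4) (nat_lit 5) (nat_lit 8) (C.cons (nat_lit 816) (C.miq (nat_lit 2234160144) (nat_lit 1900466824859246471678460435)) (C.cons (nat_lit 304) (C.node (nat_lit 1) (nat_lit 2) (nat_lit 6) (C.cons (nat_lit 326) (C.node (nat_lit 2) (nat_lit 5) (nat_lit 6) (C.cons (nat_lit 100) (C.node (nat_lit 2) (nat_lit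 5) (nat_lit 8) (C.cons (nat_lit 292) (C.node (nat_lit 1) (nat_lit 4) (nat_lit 7) (C.cons (nat_lit 402) (C.miq (nat_lit 1210282336) (nat_lit 323994942121718237218275523)) (C.cons (nat_lit 146)
  (C.node (nat_lit 2) (nat_lit 4) (nat_lit 7) (C.cons (nat_lit 660) (C.node (nat_lit 5) (nat_lit 8) (nat_lit 10) (C.cons (nat_lit 1314) (C.miq (nat_lit 2168956201) (nat_lit 176538606228959806925047332)) (C.cons (nat_lit 1312) (C.node (nat_lit 1) (nat_lit 4) (nat_lit 8) C.nil) C.nil))) C.nil)) C.nil))) C.nil)) C.nil)) (C.cons (nat_lit 70) (C.node (nat_lit 1) (nat_lit 2) (nat_lit 8) (C.cons (nat_lit 262) (C.node (nat_lit 2) (nat_lit 4) (nat_lit 7) (C.cons (nat_lit 660) (C.node (nat_lit 2) (nat_lit 5) (nat_lit 6) (C.cons (nat_lit 356) (C.node (nat_lit 5) (nat_lit 6) (nat_lit 7) (C.cons (nat_lit 232) (C.miq (nat_lit 1971598880) (nat_lit 367516271579994270295458381)) (C.cons (nat_lit 224) (C.node (nat_lit 5) (nat_lit 6) (nat_lit 9) (C.cons (nat_lit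 610) (C.miq (nat_lit 361010720) (nat_lit 367523244555651673702597197)) (C.cons (nat_lit 608) (C.node (nat_lit 1) (nat_lit 6) (nat_lit 9) (C.cons (nat_lit 834) (C.node (nat_lit 5) (nat_lit 8) (nat_lit 9) C.nil) C.nil)) C.nil))) C.nil))) C.nil)) C.nil)) C.nil)) C.nil))) C.nil))) C.nil)))) C.nil)) C.nil))) C.nil))) (C.cons (nat_lit 52) (C.node (nat_lit 1) (nat_lit 2) (nat_lit 4) (C.cons (nat_lit 150) (C.node (nat_lit 2) (nat_lit 4) (nat_lit 9) (C.cons (nat_lit 532) (C.node (nat_lit 2) (nat_lit 7) (nat_lit 9) (C.cons (nat_lit 644) (C.node (nat_lit 1) (nat_lit 2) (nat_lit 9) (C.cons (nat_lit 774) (C.node (nat_lit 1) (nat_lit 2) (nat_lit 5) (C.cons (nat_lit 102) (C.miq (nat_lit 2451023200) (nat_lit 181374309580039073743176817)) (C.cons (nat_lit 38) (C.node (nat_lit 1) (nat_lit 2) (nat_lit 6) (C.cons (nat_lit 70) (C.node (nat_lit 4) (nat_lit 6) (nat_lit 9) (C.cons (nat_lit 848) (C.miq (nat_lit 440934505) (nat_lit 1566782140290678046034231885))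 (C.cons (nat_lit 592) (C.node (nat_lit 5) (nat_lit 8) (nat_lit 10) (C.cons (nat_lit 1314) (C.miq (nat_lit 1361488016) (nat_lit 84645781690897293730711425)) (C.cons (nat_lit 1312) (C.node (nat_lit 6) (nat_lit 8) (nat_lit 9) (C.cons (nat_lit 864) (C.miq (nat_lit 441983081) (nat_lit 1586124953404512112830579277)) C.nil)) C.nil))) C.nil))) C.nil)) C.nil))) (C.cons (nat_lit 518) (C.node (nat_lit 2) (nat_lit 8) (nat_lit 9) (C.cons (nat_lit 772) (C.node (nat_lit 1) (nat_lit 2) (nat_lit 5) (C.cons (nat_lit 358) (C.miq (nat_lit 2451023200) (nat_lit 181374309580040173254804593)) (C.cons (nat_lit 294) (C.node (nat_lit 1) (nat_lit 2) (nat_lit 6) C.nil) (C.cons (nat_lit 102) (C.miq (nat_lit 2451023200) (nat_lit 181374309580039073743176817)) C.nil)))) C.nil)) C.nil))) C.nil)) C.nil)) (C.cons (nat_lit 22) (C.node (nat_lit 1) (nat_lit 2) (nat_lit 7) (C.cons (nat_lit 646) (C.miq (nat_lit 1645520784) (nat_lit 26617342322935895774398337)) (C.cons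 (nat_lit 134) (C.node (nat_lit 1) (nat_lit 2) (nat_lit 9) (C.cons (nat_lit 774) (C.node (nat_lit 1) (nat_lit 2) (nat_lit 5) (C.cons (nat_lit 102) (C.miq (nat_lit 2451023200) (nat_lit 162031496466205006947878001)) (C.cons (nat_lit 38) (C.node (nat_lit 1) (nat_lit 2) (nat_lit 6) (C.cons (nat_lit 70) (C.node (nat_lit 2) (nat_lit 4) (nat_lit 7) (C.cons (nat_lit 660) (C.node (nat_lit 2) (nat_lit 5) (nat_lit 6) (C.cons (nat_lit 356) (C.node (nat_lit 3) (nat_lit 8) (nat_lit 9) (C.cons (nat_lit 792) (C.miq (nat_lit 874875248) (nat_lit 62869621525881625065621377)) (C.cons (nat_lit 776) (C.node (nat_lit 4) (nat_lit 6) (nat_lit 9) (C.cons (nat_lit 848) (C.miq (nat_lit 440934505) (nat_lit 1566782140290678046034231885)) (C.cons (nat_lit 592) (C.node (nat_lit 6) (nat_lit 8) (nat_lit 9) (C.cons (nat_lit 832) (C.node (nat_lit 4) (nat_lit 8) (nat_lit 9) (C.cons (nat_lit 816) (C.miq (nat_lit 408195680) (nat_lit 986493264244503707389067853)) C.nil))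 C.nil)) C.nil))) C.nil))) C.nil)) C.nil)) C.nil)) C.nil))) (C.cons (nat_lit 518) (C.node (nat_lit 2) (nat_lit 8) (nat_lit 9) (C.cons (nat_lit 772) (C.node (nat_lit 2) (nat_lit 4) (nat_lit 7) (C.cons (nat_lit 660) (C.node (nat_lit 7) (nat_lit 4) (nat_lit 6) (C.cons (nat_lit 464) (C.node (nat_lit 9) (nat_lit 4) (nat_lit 6) (C.cons (nat_lit 592) (C.node (nat_lit 8) (nat_lit 9) (nat_lit 4)
  (C.cons (nat_lit 816) (C.miq (nat_lit 1922591316) (nat_lit 933299292375150147434185841)) (C.cons (nat_lit 792) (C.miq (nat_lit 874875248) (nat_lit 62869621525881625065621377)) (C.cons (nat_lit 784) (C.node (nat_lit 8) (nat_lit 5) (nat_lit 10) (C.cons (nat_lit 1314) (C.node (nat_lit 8) (nat_lit 4) (nat_lit 5) C.nil) C.nil)) C.nil)))) C.nil)) (C.cons (nat_lit 208) (C.node (nat_lit 8) (nat_lit 5) (nat_lit 10) (C.cons (nat_lit 1314) (C.node (nat_lit 1) (nat_lit 2) (nat_lit 5) (C.cons (nat_lit 102) (C.miq (nat_lit 2451023200) (nat_lit 162031496466205006947878001))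 C.nil)) (C.cons (nat_lit 1312) (C.node (nat_lit 2) (nat_lit 5) (nat_lit 6) (C.cons (nat_lit 358) (C.miq (nat_lit 2451023200) (nat_lit 162031496466206106459505777)) (C.cons (nat_lit 356) (C.node (nat_lit 1) (nat_lit 2) (nat_lit 8) C.nil) (C.cons (nat_lit 102) (C.miq (nat_lit 2451023200) (nat_lit 162031496466205006947878001)) C.nil)))) C.nil))) C.nil))) (C.cons (nat_lit 148) (C.node (nat_lit 2) (nat_lit 4) (nat_lit 9) (C.cons (nat_lit 532) (C.node (nat_lit 1) (nat_lit 7) (nat_lit 10) (C.cons (nat_lit 1194) (C.miq (nat_lit 1466540290) (nat_lit 851112775626464770158035975)) (C.cons (nat_lit 1186) (C.miq (nat_lit 1466540290) (nat_lit 851112775624212970344350727)) C.nil))) C.nil)) C.nil))) C.nil)) C.nil))) C.nil))) C.nil))) C.nil))) C.nil)) C.nil))) C.nil)))) (C.cons (nat_lit 1060) (C.node (nat_lit 2) (nat_lit 9) (nat_lit 10) (C.cons (nat_lit 1540) (C.node (nat_lit 5) (nat_lit 8) (nat_lit 10) (C.cons (nat_lit 1314) (C.node (nat_lit 3)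 (nat_lit 8) (nat_lit 10) (C.cons (nat_lit 1352) (C.miq (nat_lit 1398933671) (nat_lit 712060351549392620936759169)) (C.cons (nat_lit 1288) (C.node (nat_lit 6) (nat_lit 8) (nat_lit 10) (C.cons (nat_lit 1344) (C.node (nat_lit 1) (nat_lit 6) (nat_lit 10) (C.cons (nat_lit 1098) (C.node (nat_lit 1) (nat_lit 7) (nat_lit 10) (C.cons (nat_lit 1154) (C.node (nat_lit 1) (nat_lit 9) (nat_lit 10) (C.cons (nat_lit 1538) (C.node (nat_lit 3) (nat_lit 4) (nat_lit 6) (C.cons (nat_lit 344) (C.miq (nat_lit 327329344) (nat_lit 324011138558921615284175985)) (C.cons (nat_lit 88) (C.node (nat_lit 3) (nat_lit 5) (nat_lit 6) (C.cons (nat_lit 232) (C.miq (nat_lit 326280784) (nat_lit 169268633648248599878108273)) (C.cons (nat_lit 104) (C.node (nat_lit 3) (nat_lit 6) (nat_lit 7) C.nil) C.nil))) C.nil))) C.nil)) C.nil)) (C.cons (nat_lit 1090) (C.node (nat_lit 3) (nat_lit 6) (nat_lit 10) (C.cons (nat_lit 1096) (C.node (nat_lit 1) (nat_lit 7) (nat_lit 10) (C.cons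 (nat_lit 1162) (C.node (nat_lit 1) (nat_lit 9) (nat_lit 10) (C.cons (nat_lit 1538) (C.node (nat_lit 5) (nat_lit 7) (nat_lit 10) (C.cons (nat_lit 1184) (C.node (nat_lit 3) (nat_lit 5) (nat_lit 10) (C.cons (nat_lit 1576) (C.node (nat_lit 3) (nat_lit 7) (nat_lit 9) C.nil) C.nil)) C.nil)) C.nil)) (C.cons (nat_lit 1154) (C.node (nat_lit 1) (nat_lit 3) (nat_lit 10) (C.cons (nat_lit 1546) (C.node (nat_lit 5) (nat_lit 9) (nat_lit 10) (C.cons (nat_lit 1568) (C.node (nat_lit 3) (nat_lit 5) (nat_lit 10) (C.cons (nat_lit 1192) (C.node (nat_lit 3) (nat_lit 7) (nat_lit 9) C.nil) C.nil)) C.nil)) (C.cons (nat_lit 1034) (C.node (nat_lit 1) (nat_lit 9) (nat_lit 10) C.nil) C.nil))) C.nil))) C.nil)) C.nil))) C.nil)) C.nil))) (C.cons (nat_lit 1312) (C.node (nat_lit 1) (nat_lit 2) (nat_lit 7) (C.cons (nat_lit 646) (C.miq (nat_lit 342003879) (nat_lit 101561685593768563136792449)) (C.cons (nat_lit 150) (C.node (nat_lit 2) (nat_lit 7) (nat_lit 9) (C.cons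 (nat_lit 644) (C.node (nat_lit 2) (nat_lit 4) (nat_lit 5) (C.cons (nat_lit 564) (C.node (nat_lit 4) (nat_lit 7) (nat_lit 9) (C.cons (nat_lit 720) (C.miq (nat_lit 308546169) (nat_lit 101559564358937931343202177)) (C.cons (nat_lit 656) (C.node (nat_lit 1) (nat_lit 2) (nat_lit 9) (C.cons (nat_lit 774) (C.node (nat_lit 1) (nat_lit 2) (nat_lit 5) (C.cons (nat_lit 102) (C.miq (nat_lit 363341321) (nat_lit 1586124953143021859535651405)) (C.cons (nat_lit 38) (C.node (nat_lit 1) (nat_lit 2) (nat_lit 6) (C.cons (nat_lit 70) (C.node (nat_lit 2) (nat_lit 5) (nat_lit 6) (C.cons (nat_lit 356)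
  (C.miq (nat_lit 275289170) (nat_lit 388079466025677112308138548)) C.nil)) C.nil)) C.nil))) (C.cons (nat_lit 518) (C.node (nat_lit 2) (nat_lit 8) (nat_lit 9) (C.cons (nat_lit 772) (C.node (nat_lit 3) (nat_lit 4) (nat_lit 5) (C.cons (nat_lit 58) (C.node (nat_lit 1) (nat_lit 2) (nat_lit 8) (C.cons (nat_lit 358) (C.miq (nat_lit 1934704770) (nat_lit 70120464592326495631180053)) (C.cons (nat_lit 326) (C.node (nat_lit 1) (nat_lit 2) (nat_lit 5) C.nil) (C.cons (nat_lit 294) (C.miq (nat_lit 1934704770) (nat_lit 70120464592326495626985749)) C.nil)))) (C.cons (nat_lit 56) (C.node (nat_lit 1) (nat_lit 4) (nat_lit 5) (C.cons (nat_lit 306) (C.node (nat_lit 2) (nat_lit 5) (nat_lit 8) (C.cons (nat_lit 356) (C.miq (nat_lit 422068325) (nat_lit 933296377595646020388390001)) C.nil)) (C.cons (nat_lit 50) (C.node (nat_lit 3) (nat_lit 4) (nat_lit 9) (C.cons (nat_lit 792) (C.node (nat_lit 4) (nat_lit 6) (nat_lit 9) (C.cons (nat_lit 592) (C.node (nat_lit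 1) (nat_lit 3) (nat_lit 4) (C.cons (nat_lit 90) (C.miq (nat_lit 2216137568) (nat_lit 181374309360488540369257037)) C.nil)) C.nil)) (C.cons (nat_lit 536) (C.node (nat_lit 3) (nat_lit 8) (nat_lit 9) (C.cons (nat_lit 778) (C.node (nat_lit 1) (nat_lit 6) (nat_lit 9) (C.cons (nat_lit 610) (C.node (nat_lit 1) (nat_lit 7) (nat_lit 9) C.nil) C.nil)) (C.cons (nat_lit 776) (C.node (nat_lit 4) (nat_lit 5) (nat_lit 7) (C.cons (nat_lit 176) (C.node (nat_lit 4) (nat_lit 5) (nat_lit 8) (C.cons (nat_lit 304) (C.node (nat_lit 4) (nat_lit 6) (nat_lit 7) C.nil) C.nil)) C.nil)) C.nil))) C.nil))) C.nil))) C.nil))) C.nil)) C.nil))) C.nil))) (C.cons (nat_lit 52) (C.node (nat_lit 2) (nat_lit 4) (nat_lit 9) (C.cons (nat_lit 532) (C.ref (nat_lit 135) (nat_lit 11649936536080)) C.nil)) C.nil))) C.nil)) (C.cons (nat_lit 134) (C.node (nat_lit 1) (nat_lit 2) (nat_lit 4) (C.cons (nat_lit 54) (C.node (nat_lit 1) (nat_lit 2) (nat_lit 9) (C.cons (nat_lit 774) (C.miq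 (nat_lit 2186973504) (nat_lit 1281496805204734385213997587)) (C.cons (nat_lit 518) (C.node (nat_lit 4) (nat_lit 5) (nat_lit 7) (C.cons (nat_lit 688) (C.miq (nat_lit 1965724688) (nat_lit 1281496805180527537209934355)) (C.cons (nat_lit 432) (C.miq (nat_lit 2216326432) (nat_lit 1259736140355406618027294885)) (C.cons (nat_lit 176) (C.node (nat_lit 4) (nat_lit 5) (nat_lit 8) (C.cons (nat_lit 816) (C.miq (nat_lit 2234160144) (nat_lit 1281496805216556334228898323)) (C.cons (nat_lit 304) (C.node (nat_lit 1) (nat_lit 2) (nat_lit 6) (C.cons (nat_lit 326) (C.node (nat_lit 2) (nat_lit 5) (nat_lit 6) (C.cons (nat_lit 100) (C.node (nat_lit 2) (nat_lit 4) (nat_lit 7) (C.cons (nat_lit 660) (C.node (nat_lit 2) (nat_lit 5) (nat_lit 8) (C.cons (nat_lit 804) (C.miq (nat_lit 1380157808) (nat_lit 1271795441143888499491538817)) C.nil)) C.nil)) C.nil)) (C.cons (nat_lit 70) (C.node (nat_lit 1) (nat_lit 2) (nat_lit 8) C.nil) C.nil))) C.nil))) C.nil))))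 C.nil))) (C.cons (nat_lit 22) (C.node (nat_lit 2) (nat_lit 4) (nat_lit 5) (C.cons (nat_lit 564) (C.node (nat_lit 2) (nat_lit 4) (nat_lit 7) (C.cons (nat_lit 148) (C.node (nat_lit 2) (nat_lit 7) (nat_lit 9) C.nil) C.nil)) (C.cons (nat_lit 52) (C.node (nat_lit 2) (nat_lit 4) (nat_lit 7) (C.cons (nat_lit 660) (C.node (nat_lit 2) (nat_lit 5) (nat_lit 9) (C.cons (nat_lit 806) (C.miq (nat_lit 1380157808) (nat_lit 1271795441144451449444960129)) (C.cons (nat_lit 804) (C.miq (nat_lit 1380157808) (nat_lit 1271795441143888499491538817)) (C.cons (nat_lit 550) (C.node (nat_lit 2) (nat_lit 8) (nat_lit 9) C.nil) C.nil)))) (C.cons (nat_lit 148) (C.node (nat_lit 2) (nat_lit 4) (nat_lit 9) (C.cons (nat_lit 532) (C.node (nat_lit 2) (nat_lit 7) (nat_lit 9) C.nil) C.nil)) C.nil))) C.nil))) C.nil))) C.nil)))) C.nil))) C.nil)) C.nil))) C.nil))) C.nil))) C.nil)) C.nil))) List.nil)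

theorem ok11_136 : okL par11 (nat_lit 137) c11_136 (nat_lit 136) = true := by decide +kernel

noncomputable def c11_137 : List C :=
  (List.cons (C.node (nat_lit 3) (nat_lit 4) (nat_lit 9) (C.cons (nat_lit 792) (C.miq (nat_lit 1385695043) (nat_lit 933296211471929820497576089)) (C.cons (nat_lit 568) (C.node (nat_lit 4) (nat_lit 8) (nat_lit 9) (C.cons (nat_lit 784) (C.node (nat_lit 2) (nat_lit 3) (nat_lit 4) (C.cons (nat_lit 30) (C.node (nat_lit 2) (nat_lit 3) (nat_lit 5) (C.cons (nat_lit 44) (C.node (nat_lit 2) (nat_lit 4) (nat_lit 5) (C.cons (nat_lit 52) (C.node (nat_lit 1) (nat_lit 4) (nat_lit 10) (C.cons (nat_lit 1298) (C.miq (nat_lit 2218369312) (nat_lit 686705302101829615939814407)) (C.cons (nat_lit 1042) (C.node (nat_lit 2) (nat_lit 3) (nat_lit 7) (C.cons (nat_lit 396) (C.miq (nat_lit 1647683456) (nat_lit 53213710354456663860774785)) (C.cons (nat_lit 140) (C.node (nat_lit 2) (nat_lit 3) (nat_lit 8) C.nil) C.nil))) C.nil)))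 C.nil)) C.nil)) (C.cons (nat_lit 28) (C.node (nat_lit 1) (nat_lit 2) (nat_lit 4) (C.cons (nat_lit 54) (C.node (nat_lit 2) (nat_lit 3) (nat_lit 5) (C.cons (nat_lit 44) (C.node (nat_lit 1) (nat_lit 4) (nat_lit 7) (C.cons (nat_lit 402) (C.miq (nat_lit 363348631) (nat_lit 1586118090940717509011112596)) (C.cons (nat_lit 146) (C.node (nat_lit 4) (nat_lit 5) (nat_lit 7) (C.cons (nat_lit 432) (C.miq (nat_lit 609458048) (nat_lit 686680730859144126233380737)) (C.cons (nat_lit 176) (C.node (nat_lit 4) (nat_lit 5) (nat_lit 8) (C.cons (nat_lit 304) (C.node (nat_lit 4) (nat_lit 7) (nat_lit 8) (C.cons (nat_lit 400) (C.node (nat_lit 1) (nat_lit 2) (nat_lit 6) C.nil) C.nil)) C.nil)) C.nil))) C.nil))) C.nil)) (C.cons (nat_lit 22) (C.node (nat_lit 2) (nat_lit 4) (nat_lit 5) (C.cons (nat_lit 52) (C.node (nat_lit 2) (nat_lit 3) (nat_lit 5) (C.cons (nat_lit 46) (C.node (nat_lit 2) (nat_lit 3) (nat_lit 7) (C.cons (nat_lit 396) (C.miq (nat_lit 1647683456)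 (nat_lit 55631561993685922210187137)) C.nil)) (C.cons (nat_lit 44) (C.node (nat_lit 1) (nat_lit 2) (nat_lit 3) (C.cons (nat_lit 14) (C.node (nat_lit 1) (nat_lit 2) (nat_lit 7) C.nil) C.nil)) C.nil))) C.nil)) C.nil))) C.nil))) C.nil)) (C.cons (nat_lit 536) (C.node (nat_lit 3) (nat_lit 8) (nat_lit 9) (C.cons (nat_lit 778) (C.node (nat_lit 2) (nat_lit 3) (nat_lit 8) (C.cons (nat_lit 396) (C.miq (nat_lit 1445137016) (nat_lit 712062786756048764044838785)) (C.cons (nat_lit 268) (C.node (nat_lit 3) (nat_lit 5) (nat_lit 9) (C.cons (nat_lit 680) (C.miq (nat_lit 2207516018) (nat_lit 647989349145150643892388005)) (C.cons (nat_lit 552) (C.node (nat_lit 3) (nat_lit 7) (nat_lit 9) (C.cons (nat_lit 648) (C.node (nat_lit 2) (nat_lit 3) (nat_lit 5) (C.cons (nat_lit 62) (C.miq (nat_lit 2032339540) (nat_lit 712060130645580043417158769)) (C.cons (nat_lit 60) (C.miq (nat_lit 2032339540) (nat_lit 712060130645580043417027697)) (C.cons (nat_lit 46) (C.miq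 (nat_lit 2031224885) (nat_lit 626226618813866846322557225)) (C.cons (nat_lit 44) (C.node (nat_lit 3) (nat_lit 4) (nat_lit 5) (C.cons (nat_lit 58) (C.miq (nat_lit 2822048020) (nat_lit 359071942914273444397449747)) (C.cons (nat_lit 56) (C.node (nat_lit 1) (nat_lit 6) (nat_lit 9) (C.cons (nat_lit 610) (C.node (nat_lit 1) (nat_lit 7) (nat_lit 9) C.nil) (C.cons (nat_lit 578) (C.node (nat_lit 2) (nat_lit 3) (nat_lit 4) C.nil) C.nil))) C.nil))) C.nil))))) C.nil)) C.nil))) C.nil))) (C.cons (nat_lit 776) (C.node (nat_lit 4) (nat_lit 5) (nat_lit 9) (C.cons (nat_lit 816) (C.node (nat_lit 2) (nat_lit 4) (nat_lit 5) (C.cons (nat_lit 62) (C.miq (nat_lit 2032339540) (nat_lit 712060130645580043417158769)) (C.cons (nat_lit 60) (C.miq (nat_lit 2032339540) (nat_lit 712060130645580043417027697)) (C.cons (nat_lit 54) (C.miq (nat_lit 2234160144) (nat_lit 1900466824859246471678460435)) (C.cons (nat_lit 52) (C.node (nat_lit 1) (nat_lit 2) (nat_lit 4)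 (C.cons (nat_lit 30) (C.node (nat_lit 2) (nat_lit 3) (nat_lit 5) (C.cons (nat_lit 44) (C.node (nat_lit 3) (nat_lit 4) (nat_lit 5) (C.cons (nat_lit 56) (C.node (nat_lit 1) (nat_lit 4) (nat_lit 10) (C.cons (nat_lit 1298) (C.miq (nat_lit 2218369312) (nat_lit 648019675874161482349216775)) (C.cons (nat_lit 1042) (C.node (nat_lit 2) (nat_lit 3) (nat_lit 7)
  (C.cons (nat_lit 396) (C.miq (nat_lit 1647683456) (nat_lit 53213710354456663860774785)) (C.cons (nat_lit 140) (C.node (nat_lit 2) (nat_lit 3) (nat_lit 8) C.nil) C.nil))) C.nil))) C.nil)) C.nil)) (C.cons (nat_lit 22) (C.node (nat_lit 2) (nat_lit 3) (nat_lit 4) (C.cons (nat_lit 28) (C.node (nat_lit 1) (nat_lit 8) (nat_lit 9) (C.cons (nat_lit 834) (C.node (nat_lit 5) (nat_lit 6) (nat_lit 9) (C.cons (nat_lit 608) (C.node (nat_lit 1) (nat_lit 3) (nat_lit 9) (C.cons (nat_lit 682) (C.miq (nat_lit 1954910723) (nat_lit 986496049670770350828880461)) C.nil)) C.nil)) (C.cons (nat_lit 770) (C.node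 (nat_lit 6) (nat_lit 8) (nat_lit 9) C.nil) C.nil))) C.nil)) C.nil))) C.nil))))) (C.cons (nat_lit 560) (C.node (nat_lit 4) (nat_lit 8) (nat_lit 9) (C.cons (nat_lit 784) (C.node (nat_lit 1) (nat_lit 2) (nat_lit 6) (C.cons (nat_lit 358) (C.miq (nat_lit 2032208470) (nat_lit 626227172216192467833586801)) (C.cons (nat_lit 326) (C.node (nat_lit 2) (nat_lit 5) (nat_lit 6) (C.cons (nat_lit 100) (C.node (nat_lit 2) (nat_lit 5) (nat_lit 8) (C.cons (nat_lit 292) (C.node (nat_lit 1) (nat_lit 2) (nat_lit 4) (C.cons (nat_lit 62) (C.miq (nat_lit 2032339540) (nat_lit 712060130645580043417158769)) C.nil)) C.nil)) C.nil)) (C.cons (nat_lit 102) (C.miq (nat_lit 2032208470) (nat_lit 626227172216192467816809585)) (C.cons (nat_lit 70) (C.node (nat_lit 2) (nat_lit 5) (nat_lit 6) (C.cons (nat_lit 356) (C.node (nat_lit 5) (nat_lit 6) (nat_lit 7) (C.cons (nat_lit 232) (C.miq (nat_lit 645170480) (nat_lit 251461680328157374036115753)) (C.cons (nat_lit 224)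 (C.node (nat_lit 1) (nat_lit 2) (nat_lit 4) (C.cons (nat_lit 62) (C.miq (nat_lit 2032339540) (nat_lit 712060130645580043417158769)) (C.cons (nat_lit 22) (C.node (nat_lit 1) (nat_lit 2) (nat_lit 5) C.nil) C.nil))) C.nil))) (C.cons (nat_lit 100) (C.node (nat_lit 2) (nat_lit 6) (nat_lit 8) (C.cons (nat_lit 324) (C.node (nat_lit 1) (nat_lit 3) (nat_lit 9) (C.cons (nat_lit 522) (C.node (nat_lit 1) (nat_lit 7) (nat_lit 9) C.nil) C.nil)) C.nil)) C.nil))) C.nil))))) C.nil)) C.nil))) C.nil))) C.nil)))) (List.cons (C.node (nat_lit 1) (nat_lit 2) (nat_lit 6) (C.cons (nat_lit 358) (C.miq (nat_lit 2032208470) (nat_lit 626227172216192467833586801)) (C.cons (nat_lit 326) (C.node (nat_lit 2) (nat_lit 5) (nat_lit 6) (C.cons (nat_lit 100) (C.node (nat_lit 2) (nat_lit 5) (nat_lit 8) (C.cons (nat_lit 292) (C.node (nat_lit 2) (nat_lit 3) (nat_lit 8) (C.cons (nat_lit 396) (C.miq (nat_lit 1445137016) (nat_lit 712062786756048764044838785)) (C.cons (nat_lit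 268) (C.node (nat_lit 2) (nat_lit 7) (nat_lit 8) C.nil) C.nil))) C.nil)) C.nil)) (C.cons (nat_lit 102) (C.miq (nat_lit 2032208470) (nat_lit 626227172216192467816809585)) (C.cons (nat_lit 70) (C.node (nat_lit 2) (nat_lit 5) (nat_lit 6) (C.cons (nat_lit 356) (C.node (nat_lit 5) (nat_lit 6) (nat_lit 7) (C.cons (nat_lit 232) (C.miq (nat_lit 645170480) (nat_lit 251461680328157374036115753)) (C.cons (nat_lit 224) (C.node (nat_lit 3) (nat_lit 5) (nat_lit 6) (C.cons (nat_lit 106) (C.node (nat_lit 5) (nat_lit 6) (nat_lit 9) (C.cons (nat_lit 608) (C.node (nat_lit 3) (nat_lit 4) (nat_lit 6) (C.cons (nat_lit 344) (C.miq (nat_lit 911689760) (nat_lit 270802206042349133703217429)) C.nil)) C.nil)) (C.cons (nat_lit 104) (C.node (nat_lit 1) (nat_lit 5) (nat_lit 6) (C.cons (nat_lit 610) (C.node (nat_lit 6) (nat_lit 8) (nat_lit 9) C.nil) (C.cons (nat_lit 98) (C.node (nat_lit 5) (nat_lit 6) (nat_lit 9) C.nil) C.nil))) C.nil))) C.nil))) (C.cons (nat_lit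 100) (C.node (nat_lit 2) (nat_lit 6) (nat_lit 8) (C.cons (nat_lit 324) (C.node (nat_lit 2) (nat_lit 5) (nat_lit 8) (C.cons (nat_lit 294) (C.node (nat_lit 2) (nat_lit 3) (nat_lit 5) (C.cons (nat_lit 60) (C.miq (nat_lit 2032339540) (nat_lit 712060130645580043417027697)) C.nil)) (C.cons (nat_lit 292) (C.node (nat_lit 1) (nat_lit 2) (nat_lit 4) (C.cons (nat_lit 22) (C.node (nat_lit 1) (nat_lit 2) (nat_lit 5) C.nil) C.nil)) C.nil))) C.nil)) C.nil))) C.nil))))) List.nil))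

theorem ok11_137 : okL par11 (nat_lit 139) c11_137 (nat_lit 137) = true := by decide +kernel

noncomputable def c11_139 : List C :=
  (List.cons (C.node (nat_lit 2) (nat_lit 3) (nat_lit 10) (C.cons (nat_lit 1292) (C.node (nat_lit 4) (nat_lit 8) (nat_lit 10) (C.cons (nat_lit 1298) (C.miq (nat_lit 439961632) (nat_lit 1866591261071450654425022741)) (C.cons (nat_lit 1296) (C.node (nat_lit 2) (nat_lit 3) (nat_lit 4) (C.cons (nat_lit 62) (C.miq (nat_lit 2032339540) (nat_lit 712060130645580043417158769)) (C.cons (nat_lit 60) (C.miq (nat_lit 2032339540) (nat_lit 712060130645580043417027697)) (C.cons (nat_lit 30) (C.miq (nat_lit 430129282) (nat_lit 1866582019036781120383090965)) (C.cons (nat_lit 28) (C.node (nat_lit 1) (nat_lit 4) (nat_lit 10) (C.cons (nat_lit 1050) (C.node (nat_lit 3) (nat_lit 6) (nat_lit 10) (C.cons (nat_lit 1096) (C.node (nat_lit 1) (nat_lit 7) (nat_lit 10) (C.cons (nat_lit 1186) (C.miq (nat_lit 1466540290) (nat_lit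 851112775624212970344350727)) (C.cons (nat_lit 1154) (C.node (nat_lit 2) (nat_lit 3) (nat_lit 7) (C.cons (nat_lit 142) (C.miq (nat_lit 1412893202) (nat_lit 184968694433851984051045383)) (C.cons (nat_lit 140) (C.node (nat_lit 1) (nat_lit 2) (nat_lit 3) (C.cons (nat_lit 46) (C.node (nat_lit 2) (nat_lit 4) (nat_lit 5) (C.cons (nat_lit 52) (C.node (nat_lit 1) (nat_lit 5) (nat_lit 10) (C.cons (nat_lit 1314) (C.miq (nat_lit 2555578898) (nat_lit 359061834098523353664848903)) (C.cons (nat_lit 1058) (C.node (nat_lit 5) (nat_lit 8) (nat_lit 10) (C.cons (nat_lit 1312) (C.node (nat_lit 1) (nat_lit 2) (nat_lit 4) (C.cons (nat_lit 150) (C.node (nat_lit 2) (nat_lit 4) (nat_lit 9) (C.cons (nat_lit 532) (C.node (nat_lit 2) (nat_lit 7) (nat_lit 8) (C.cons (nat_lit 388) (C.node (nat_lit 2) (nat_lit 7) (nat_lit 9) (C.cons (nat_lit 644) (C.node (nat_lit 1) (nat_lit 6) (nat_lit 10) (C.cons (nat_lit 1346) (C.node (nat_lit 1) (nat_lit 2) (nat_lit 6) (C.cons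 (nat_lit 70) (C.node (nat_lit 1) (nat_lit 3) (nat_lit 6) (C.cons (nat_lit 74) (C.node (nat_lit 1) (nat_lit 4) (nat_lit 6) C.nil) C.nil)) C.nil)) C.nil)) C.nil)) C.nil)) C.nil)) (C.cons (nat_lit 22) (C.node (nat_lit 1) (nat_lit 2) (nat_lit 6) (C.cons (nat_lit 326) (C.node (nat_lit 1) (nat_lit 3) (nat_lit 6) (C.cons (nat_lit 74) (C.node (nat_lit 1) (nat_lit 6) (nat_lit 10) C.nil) C.nil)) (C.cons (nat_lit 70) (C.node (nat_lit 1) (nat_lit 3) (nat_lit 6) (C.cons (nat_lit 330) (C.node (nat_lit 1) (nat_lit 4) (nat_lit 6) (C.cons (nat_lit 82) (C.node (nat_lit 1) (nat_lit 6) (nat_lit 10) C.nil) C.nil)) (C.cons (nat_lit 74) (C.node (nat_lit 1) (nat_lit 4) (nat_lit 6) (C.cons (nat_lit 338) (C.node (nat_lit 1) (nat_lit 6) (nat_lit 10) C.nil) (C.cons (nat_lit 82) (C.node (nat_lit 1) (nat_lit 6) (nat_lit 10) (C.cons (nat_lit 1346) (C.node (nat_lit 2) (nat_lit 4) (nat_lit 7) (C.cons (nat_lit 148) (C.node (nat_lit 2) (nat_lit 4) (nat_lit 9) C.nil)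 C.nil)) C.nil)) C.nil))) C.nil))) C.nil))) C.nil))) C.nil)) C.nil))) C.nil)) (C.cons (nat_lit 14) (C.node (nat_lit 2) (nat_lit 3) (nat_lit 5) (C.cons (nat_lit 44) (C.node (nat_lit 1) (nat_lit 4) (nat_lit 6) (C.cons (nat_lit 338) (C.node (nat_lit 1) (nat_lit 6) (nat_lit 10) (C.cons (nat_lit 1090) (C.node (nat_lit 3) (nat_lit 4) (nat_lit 6) (C.cons (nat_lit 88) (C.node (nat_lit 4) (nat_lit 6) (nat_lit 7) (C.cons (nat_lit 208) (C.node (nat_lit 4) (nat_lit 6) (nat_lit 9) (C.cons (nat_lit 592) (C.node (nat_lit 6) (nat_lit 8) (nat_lit 10) (C.cons (nat_lit 1344) (C.node (nat_lit 1) (nat_lit 5) (nat_lit 10) (C.cons (nat_lit 1314) (C.node (nat_lit 1) (nat_lit 3) (nat_lit 6) (C.cons (nat_lit 106) (C.miq (nat_lit 2585135187) (nat_lit 1317740009052924289210777897)) C.nil)) C.nil)) C.nil)) C.nil)) C.nil)) C.nil)) C.nil)) (C.cons (nat_lit 82) (C.node (nat_lit 1) (nat_lit 5) (nat_lit 10) (C.cons (nat_lit 1314) (C.node (nat_lit 1) (nat_lit 6)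 (nat_lit 10) (C.cons (nat_lit 1090) (C.node (nat_lit 6) (nat_lit 8) (nat_lit 10) (C.cons (nat_lit 1344) (C.node (nat_lit 3) (nat_lit 7) (nat_lit 8) (C.cons (nat_lit 456) (C.miq (nat_lit 305531527) (nat_lit 712060905158317207380821889)) (C.cons (nat_lit 394) (C.miq (nat_lit 1362405488) (nat_lit 1269393084913232252826617729)) (C.cons (nat_lit 392)
  (C.node (nat_lit 3) (nat_lit 5) (nat_lit 10) (C.cons (nat_lit 1192) (C.node (nat_lit 3) (nat_lit 6) (nat_lit 7) (C.cons (nat_lit 200) (C.node (nat_lit 1) (nat_lit 3) (nat_lit 7) (C.cons (nat_lit 650) (C.miq (nat_lit 1393862544) (nat_lit 1269393084878893405204318081)) (C.cons (nat_lit 138) (C.node (nat_lit 3) (nat_lit 7) (nat_lit 9) (C.cons (nat_lit 648) (C.node (nat_lit 3) (nat_lit 4) (nat_lit 5) C.nil) C.nil)) C.nil))) C.nil)) C.nil)) C.nil)))) C.nil)) C.nil)) (C.cons (nat_lit 1058) (C.node (nat_lit 5) (nat_lit 8) (nat_lit 10) (C.cons (nat_lit 1312) (C.node (nat_lit 1) (nat_lit 6) (nat_lit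 10) (C.cons (nat_lit 1346) (C.node (nat_lit 1) (nat_lit 2) (nat_lit 6) (C.cons (nat_lit 102) (C.miq (nat_lit 2052131110) (nat_lit 1279047114808092222158144077)) (C.cons (nat_lit 70) (C.node (nat_lit 2) (nat_lit 7) (nat_lit 8) (C.cons (nat_lit 390) (C.miq (nat_lit 1444022919) (nat_lit 84627851405839033877006209)) (C.cons (nat_lit 388) (C.node (nat_lit 3) (nat_lit 7) (nat_lit 8) (C.cons (nat_lit 456) (C.miq (nat_lit 305531527) (nat_lit 712060905158317207380821889)) (C.cons (nat_lit 394) (C.miq (nat_lit 1630840944) (nat_lit 1269393084922239452081358721)) (C.cons (nat_lit 392) (C.node (nat_lit 3) (nat_lit 5) (nat_lit 10) (C.cons (nat_lit 1192) (C.node (nat_lit 3) (nat_lit 6) (nat_lit 7) (C.cons (nat_lit 200) (C.node (nat_lit 1) (nat_lit 3) (nat_lit 7) (C.cons (nat_lit 650) (C.miq (nat_lit 1393862544) (nat_lit 1269393084878893405204318081)) (C.cons (nat_lit 138) (C.node (nat_lit 3) (nat_lit 7) (nat_lit 9) C.nil) C.nil))) C.nil)) C.nil))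 C.nil)))) C.nil))) C.nil))) (C.cons (nat_lit 1090) (C.node (nat_lit 1) (nat_lit 8) (nat_lit 10) (C.cons (nat_lit 1282) (C.node (nat_lit 6) (nat_lit 8) (nat_lit 10) (C.cons (nat_lit 1344) (C.node (nat_lit 3) (nat_lit 5) (nat_lit 10) (C.cons (nat_lit 1192) (C.node (nat_lit 3) (nat_lit 6) (nat_lit 7) (C.cons (nat_lit 456) (C.miq (nat_lit 305531527) (nat_lit 712060905158317207380821889)) C.nil)) C.nil)) C.nil)) C.nil)) C.nil))) C.nil)) C.nil))) C.nil))) C.nil)) C.nil))) C.nil))) C.nil))) C.nil)) (C.cons (nat_lit 1042) (C.node (nat_lit 3) (nat_lit 4) (nat_lit 10) (C.cons (nat_lit 1048) (C.node (nat_lit 2) (nat_lit 3) (nat_lit 5) (C.cons (nat_lit 46) (C.node (nat_lit 2) (nat_lit 3) (nat_lit 7) (C.cons (nat_lit 140) (C.node (nat_lit 2) (nat_lit 4) (nat_lit 5) (C.cons (nat_lit 52) (C.node (nat_lit 5) (nat_lit 8) (nat_lit 10) (C.cons (nat_lit 1314) (C.miq (nat_lit 2555578898) (nat_lit 359061834098523353664848903)) (C.cons (nat_lit 1312)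 (C.node (nat_lit 1) (nat_lit 5) (nat_lit 10) (C.cons (nat_lit 1186) (C.miq (nat_lit 1649478055) (nat_lit 55614184983162828447942529)) (C.cons (nat_lit 1058) (C.node (nat_lit 1) (nat_lit 2) (nat_lit 4) (C.cons (nat_lit 150) (C.node (nat_lit 2) (nat_lit 4) (nat_lit 9) (C.cons (nat_lit 532) (C.node (nat_lit 2) (nat_lit 7) (nat_lit 8) (C.cons (nat_lit 388) (C.node (nat_lit 2) (nat_lit 7) (nat_lit 9) (C.cons (nat_lit 644) (C.node (nat_lit 1) (nat_lit 7) (nat_lit 10) (C.cons (nat_lit 1162) (C.node (nat_lit 3) (nat_lit 5) (nat_lit 10) C.nil) C.nil)) C.nil)) C.nil)) C.nil)) (C.cons (nat_lit 22) (C.node (nat_lit 1) (nat_lit 2) (nat_lit 6) (C.cons (nat_lit 326) (C.node (nat_lit 1) (nat_lit 8) (nat_lit 10) (C.cons (nat_lit 1282) (C.node (nat_lit 1) (nat_lit 2) (nat_lit 7) (C.cons (nat_lit 646) (C.miq (nat_lit 1377216880) (nat_lit 394130791584862356665206657)) C.nil)) C.nil)) (C.cons (nat_lit 70) (C.node (nat_lit 1) (nat_lit 7) (nat_lit 10)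 (C.cons (nat_lit 1162) (C.node (nat_lit 3) (nat_lit 5) (nat_lit 10) (C.cons (nat_lit 1064) (C.node (nat_lit 2) (nat_lit 4) (nat_lit 7) C.nil) C.nil)) (C.cons (nat_lit 1154) (C.node (nat_lit 2) (nat_lit 4) (nat_lit 7) (C.cons (nat_lit 148) (C.node (nat_lit 2) (nat_lit 4) (nat_lit 9) C.nil) C.nil)) C.nil))) C.nil))) C.nil))) C.nil))) C.nil))) C.nil)) C.nil)) (C.cons (nat_lit 44) (C.node (nat_lit 1) (nat_lit 2) (nat_lit 3) (C.cons (nat_lit 142) (C.node (nat_lit 2) (nat_lit 7) (nat_lit 8) (C.cons (nat_lit 388) (C.node (nat_lit 1) (nat_lit 7) (nat_lit 10)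
  (C.cons (nat_lit 1186) (C.miq (nat_lit 1466540290) (nat_lit 851112775624212970344350727)) (C.cons (nat_lit 1154) (C.node (nat_lit 3) (nat_lit 6) (nat_lit 10) (C.cons (nat_lit 1098) (C.miq (nat_lit 1511458354) (nat_lit 1395103439868095994090357325)) (C.cons (nat_lit 1096) (C.node (nat_lit 3) (nat_lit 7) (nat_lit 8) (C.cons (nat_lit 456) (C.miq (nat_lit 305531527) (nat_lit 712060905158317207380821889)) (C.cons (nat_lit 392) (C.node (nat_lit 3) (nat_lit 6) (nat_lit 7) (C.cons (nat_lit 232) (C.miq (nat_lit 1461347104) (nat_lit 1395121369848596679920910925)) (C.cons (nat_lit 200) (C.node (nat_lit 1) (nat_lit 2) (nat_lit 4) (C.cons (nat_lit 54) (C.node (nat_lit 1) (nat_lit 2) (nat_lit 9) (C.cons (nat_lit 774) (C.miq (nat_lit 2186973504) (nat_lit 1900466824847424522663559699)) (C.cons (nat_lit 518) (C.node (nat_lit 2) (nat_lit 8) (nat_lit 9) (C.cons (nat_lit 772) (C.node (nat_lit 1) (nat_lit 3) (nat_lit 10) (C.cons (nat_lit 1066) (C.node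 (nat_lit 3) (nat_lit 7) (nat_lit 10) C.nil) C.nil)) C.nil)) C.nil))) (C.cons (nat_lit 22) (C.node (nat_lit 2) (nat_lit 4) (nat_lit 5) (C.cons (nat_lit 52) (C.node (nat_lit 1) (nat_lit 2) (nat_lit 9) (C.cons (nat_lit 774) (C.node (nat_lit 1) (nat_lit 3) (nat_lit 10) (C.cons (nat_lit 1066) (C.node (nat_lit 3) (nat_lit 7) (nat_lit 10) C.nil) C.nil)) (C.cons (nat_lit 518) (C.node (nat_lit 2) (nat_lit 8) (nat_lit 9) (C.cons (nat_lit 772) (C.node (nat_lit 1) (nat_lit 3) (nat_lit 10) (C.cons (nat_lit 1066) (C.node (nat_lit 3) (nat_lit 7) (nat_lit 10) C.nil) C.nil)) C.nil)) C.nil))) C.nil)) C.nil))) C.nil))) C.nil))) C.nil))) C.nil))) C.nil)) (C.cons (nat_lit 14) (C.node (nat_lit 2) (nat_lit 3) (nat_lit 7) (C.cons (nat_lit 140) (C.node (nat_lit 2) (nat_lit 4) (nat_lit 5) (C.cons (nat_lit 54) (C.node (nat_lit 2) (nat_lit 7) (nat_lit 8) (C.cons (nat_lit 390) (C.miq (nat_lit 2169139792) (nat_lit 1259736140343584669012394149)) (C.cons (nat_lit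 388) (C.node (nat_lit 1) (nat_lit 2) (nat_lit 7) (C.cons (nat_lit 646) (C.miq (nat_lit 1696664215) (nat_lit 65285591694328149047641985)) (C.cons (nat_lit 134) (C.node (nat_lit 1) (nat_lit 2) (nat_lit 9) (C.cons (nat_lit 774) (C.miq (nat_lit 2186973504) (nat_lit 1900466824847424522663559699)) (C.cons (nat_lit 518) (C.node (nat_lit 2) (nat_lit 8) (nat_lit 9) (C.cons (nat_lit 772) (C.node (nat_lit 4) (nat_lit 5) (nat_lit 7) (C.cons (nat_lit 688) (C.miq (nat_lit 1965724688) (nat_lit 1900466824823217674659496467)) (C.cons (nat_lit 432) (C.miq (nat_lit 2216326432) (nat_lit 1259736140355406618027294885)) (C.cons (nat_lit 176) (C.node (nat_lit 4) (nat_lit 5) (nat_lit 8) (C.cons (nat_lit 816) (C.miq (nat_lit 2234160144) (nat_lit 1900466824859246471678460435)) (C.cons (nat_lit 304) (C.node (nat_lit 1) (nat_lit 2) (nat_lit 6) (C.cons (nat_lit 70) (C.node (nat_lit 1) (nat_lit 2) (nat_lit 8) (C.cons (nat_lit 262) (C.node (nat_lit 2) (nat_lit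 4) (nat_lit 7) C.nil) C.nil)) C.nil)) C.nil))) C.nil)))) C.nil)) C.nil))) C.nil))) C.nil))) (C.cons (nat_lit 52) (C.node (nat_lit 1) (nat_lit 2) (nat_lit 4) (C.cons (nat_lit 150) (C.node (nat_lit 2) (nat_lit 4) (nat_lit 9) (C.cons (nat_lit 532) (C.node (nat_lit 2) (nat_lit 7) (nat_lit 8) (C.cons (nat_lit 388) (C.node (nat_lit 2) (nat_lit 7) (nat_lit 9) (C.cons (nat_lit 644) (C.node (nat_lit 1) (nat_lit 2) (nat_lit 9) (C.cons (nat_lit 518) (C.node (nat_lit 2) (nat_lit 8) (nat_lit 9) (C.cons (nat_lit 772) (C.node (nat_lit 1) (nat_lit 2) (nat_lit 5) (C.cons (nat_lit 358) (C.miq (nat_lit 2451023200) (nat_lit 181374309580040173254804593)) C.nil)) C.nil)) C.nil)) C.nil)) C.nil)) C.nil)) (C.cons (nat_lit 22) (C.node (nat_lit 2) (nat_lit 4) (nat_lit 7) (C.cons (nat_lit 660) (C.node (nat_lit 1) (nat_lit 2) (nat_lit 7) (C.cons (nat_lit 390) (C.node (nat_lit 1) (nat_lit 2) (nat_lit 9) (C.cons (nat_lit 518) (C.node (nat_lit 2) (nat_lit 8)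 (nat_lit 9) C.nil) C.nil)) (C.cons (nat_lit 134) (C.node (nat_lit 2) (nat_lit 7) (nat_lit 8) (C.cons (nat_lit 388) (C.node (nat_lit 1) (nat_lit 2) (nat_lit 9) (C.cons (nat_lit 518)
  (C.node (nat_lit 2) (nat_lit 8) (nat_lit 9) (C.cons (nat_lit 772) (C.node (nat_lit 1) (nat_lit 2) (nat_lit 5) (C.cons (nat_lit 358) (C.miq (nat_lit 2451023200) (nat_lit 162031496466206106459505777)) C.nil)) C.nil)) C.nil)) C.nil)) C.nil))) (C.cons (nat_lit 148) (C.node (nat_lit 2) (nat_lit 4) (nat_lit 9) (C.cons (nat_lit 532) (C.node (nat_lit 2) (nat_lit 7) (nat_lit 9) (C.cons (nat_lit 646) (C.miq (nat_lit 1645520784) (nat_lit 26617342322935895774398337)) (C.cons (nat_lit 644) (C.node (nat_lit 1) (nat_lit 2) (nat_lit 7) (C.cons (nat_lit 390) (C.node (nat_lit 1) (nat_lit 4) (nat_lit 7) C.nil) (C.cons (nat_lit 134) (C.node (nat_lit 2) (nat_lit 7) (nat_lit 8) C.nil) C.nil))) C.nil))) C.nil)) C.nil))) C.nil))) C.nil))) C.nil)) C.nil))) C.nil))) C.nil))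 C.nil))) C.nil))))) C.nil))) (C.cons (nat_lit 1036) (C.node (nat_lit 2) (nat_lit 8) (nat_lit 10) (C.cons (nat_lit 1284) (C.node (nat_lit 2) (nat_lit 4) (nat_lit 9) (C.cons (nat_lit 660) (C.node (nat_lit 1) (nat_lit 2) (nat_lit 9) (C.cons (nat_lit 774) (C.node (nat_lit 1) (nat_lit 2) (nat_lit 6) (C.cons (nat_lit 102) (C.miq (nat_lit 2032208470) (nat_lit 935712182037537536541590641)) (C.cons (nat_lit 70) (C.node (nat_lit 2) (nat_lit 3) (nat_lit 8) (C.cons (nat_lit 396) (C.miq (nat_lit 1445137016) (nat_lit 712062786756048764044838785)) (C.cons (nat_lit 268) (C.node (nat_lit 2) (nat_lit 7) (nat_lit 8) (C.cons (nat_lit 388) (C.node (nat_lit 3) (nat_lit 8) (nat_lit 9) (C.cons (nat_lit 792) (C.miq (nat_lit 1385695043) (nat_lit 935714063111159078846988441)) (C.cons (nat_lit 776) (C.node (nat_lit 4) (nat_lit 6) (nat_lit 9) (C.cons (nat_lit 848) (C.miq (nat_lit 1747601680) (nat_lit 1552281726571889772705808915)) (C.cons (nat_lit 592) (C.node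 (nat_lit 4) (nat_lit 8) (nat_lit 9) (C.cons (nat_lit 816) (C.miq (nat_lit 1479166224) (nat_lit 1552281726562882573451067923)) (C.cons (nat_lit 784) (C.node (nat_lit 5) (nat_lit 8) (nat_lit 9) (C.cons (nat_lit 864) (C.miq (nat_lit 275262041) (nat_lit 388079466166414600696759844)) (C.cons (nat_lit 800) (C.node (nat_lit 6) (nat_lit 8) (nat_lit 9) (C.cons (nat_lit 832) (C.node (nat_lit 5) (nat_lit 8) (nat_lit 10) (C.cons (nat_lit 1314) (C.miq (nat_lit 1361488016) (nat_lit 84645781690897293730711425)) (C.cons (nat_lit 1312) (C.node (nat_lit 1) (nat_lit 2) (nat_lit 4) (C.cons (nat_lit 62) (C.miq (nat_lit 2032339540) (nat_lit 712060130645580043417158769)) (C.cons (nat_lit 54) (C.miq (nat_lit 2186973504) (nat_lit 1900466824847424522663559699)) (C.cons (nat_lit 30) (C.miq (nat_lit 2015562004) (nat_lit 323994942549280650950476307)) (C.cons (nat_lit 22) (C.node (nat_lit 2) (nat_lit 3) (nat_lit 4) (C.cons (nat_lit 60) (C.miq (nat_lit 2032339540)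 (nat_lit 712060130645580043417027697)) (C.cons (nat_lit 28) (C.node (nat_lit 2) (nat_lit 4) (nat_lit 5) (C.cons (nat_lit 52) (C.node (nat_lit 1) (nat_lit 6) (nat_lit 9) C.nil) C.nil)) C.nil))) C.nil))))) C.nil))) C.nil)) C.nil))) C.nil))) C.nil))) C.nil))) C.nil)) C.nil))) C.nil))) (C.cons (nat_lit 518) (C.node (nat_lit 2) (nat_lit 8) (nat_lit 9) (C.cons (nat_lit 772) (C.node (nat_lit 4) (nat_lit 6) (nat_lit 7) (C.cons (nat_lit 464) (C.node (nat_lit 4) (nat_lit 6) (nat_lit 9) (C.cons (nat_lit 592) (C.node (nat_lit 4) (nat_lit 8) (nat_lit 9) (C.cons (nat_lit 816) (C.miq (nat_lit 625387911) (nat_lit 1374571162372085465406769025)) (C.cons (nat_lit 792) (C.miq (nat_lit 1481048978) (nat_lit 560944624097561568880099917)) (C.cons (nat_lit 784) (C.node (nat_lit 2) (nat_lit 7) (nat_lit 8) (C.cons (nat_lit 398) (C.miq (nat_lit 1445137016) (nat_lit 712062786756048764044969857)) (C.cons (nat_lit 396) (C.miq (nat_lit 1445137016) (nat_lit 712062786756048764044838785))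 (C.cons (nat_lit 390) (C.miq (nat_lit 1210738448) (nat_lit 1552281726463801732381475011)) (C.cons (nat_lit 388) (C.node (nat_lit 1) (nat_lit 2) (nat_lit 7) (C.cons (nat_lit 142) (C.node (nat_lit 2) (nat_lit 3) (nat_lit 8) (C.cons (nat_lit 268) (C.node (nat_lit 3) (nat_lit 7) (nat_lit 8) (C.cons (nat_lit 392) (C.node (nat_lit 1) (nat_lit 7) (nat_lit 10)
  (C.cons (nat_lit 1186) (C.miq (nat_lit 1466540290) (nat_lit 851112775624212970344350727)) (C.cons (nat_lit 1154) (C.node (nat_lit 2) (nat_lit 3) (nat_lit 4) (C.cons (nat_lit 60) (C.miq (nat_lit 2453120320) (nat_lit 171702903023121859954148465)) (C.cons (nat_lit 28) (C.node (nat_lit 2) (nat_lit 3) (nat_lit 5) (C.cons (nat_lit 44) (C.node (nat_lit 1) (nat_lit 2) (nat_lit 4) (C.cons (nat_lit 22) (C.node (nat_lit 2) (nat_lit 4) (nat_lit 5) C.nil) C.nil)) C.nil)) C.nil))) C.nil))) C.nil)) C.nil)) (C.cons (nat_lit 134) (C.node (nat_lit 2) (nat_lit 3) (nat_lit 7) (C.cons (nat_lit 140)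 (C.node (nat_lit 1) (nat_lit 4) (nat_lit 6) (C.cons (nat_lit 90) (C.node (nat_lit 1) (nat_lit 4) (nat_lit 7) (C.cons (nat_lit 178) (C.miq (nat_lit 829580368) (nat_lit 162006924985953236755481713)) (C.cons (nat_lit 146) (C.node (nat_lit 4) (nat_lit 5) (nat_lit 7) (C.cons (nat_lit 176) (C.node (nat_lit 1) (nat_lit 6) (nat_lit 10) (C.cons (nat_lit 1346) (C.miq (nat_lit 815875974) (nat_lit 1246404180272723235138830800)) (C.cons (nat_lit 1090) (C.node (nat_lit 2) (nat_lit 3) (nat_lit 4) (C.cons (nat_lit 60) (C.miq (nat_lit 2453120320) (nat_lit 169285051383892601604736113)) (C.cons (nat_lit 28) (C.node (nat_lit 1) (nat_lit 2) (nat_lit 4) (C.cons (nat_lit 22) (C.node (nat_lit 2) (nat_lit 4) (nat_lit 5) C.nil) C.nil)) C.nil))) C.nil))) C.nil)) C.nil))) (C.cons (nat_lit 82) (C.node (nat_lit 3) (nat_lit 4) (nat_lit 6) (C.cons (nat_lit 88) (C.node (nat_lit 1) (nat_lit 4) (nat_lit 7) (C.cons (nat_lit 178) (C.node (nat_lit 4) (nat_lit 5) (nat_lit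 8) (C.cons (nat_lit 304) (C.node (nat_lit 5) (nat_lit 7) (nat_lit 8) (C.cons (nat_lit 416) (C.node (nat_lit 2) (nat_lit 4) (nat_lit 5) (C.cons (nat_lit 60) (C.miq (nat_lit 2453120320) (nat_lit 169285051383892601604736113)) (C.cons (nat_lit 52) (C.node (nat_lit 1) (nat_lit 2) (nat_lit 4) (C.cons (nat_lit 22) (C.node (nat_lit 2) (nat_lit 3) (nat_lit 4) C.nil) C.nil)) C.nil))) C.nil)) C.nil)) (C.cons (nat_lit 146) (C.node (nat_lit 4) (nat_lit 5) (nat_lit 7) (C.cons (nat_lit 176) (C.node (nat_lit 2) (nat_lit 3) (nat_lit 8) (C.cons (nat_lit 270) (C.node (nat_lit 3) (nat_lit 7) (nat_lit 8) (C.cons (nat_lit 392) (C.node (nat_lit 3) (nat_lit 8) (nat_lit 9) (C.cons (nat_lit 776) (C.node (nat_lit 1) (nat_lit 2) (nat_lit 6) (C.cons (nat_lit 102) (C.miq (nat_lit 2451023200) (nat_lit 162031496466205006947878001)) (C.cons (nat_lit 70) (C.node (nat_lit 8) (nat_lit 5) (nat_lit 10) (C.cons (nat_lit 1314) (C.miq (nat_lit 1703086610) (nat_lit 359061833877846971938374663))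 C.nil)) C.nil))) C.nil)) C.nil)) (C.cons (nat_lit 268) (C.node (nat_lit 3) (nat_lit 7) (nat_lit 8) (C.cons (nat_lit 394) (C.node (nat_lit 3) (nat_lit 8) (nat_lit 9) (C.cons (nat_lit 776) (C.node (nat_lit 7) (nat_lit 8) (nat_lit 5) (C.cons (nat_lit 416) (C.node (nat_lit 1) (nat_lit 7) (nat_lit 10) (C.cons (nat_lit 1186) (C.miq (nat_lit 1466540290) (nat_lit 851112775624212970344350727)) C.nil)) C.nil)) C.nil)) (C.cons (nat_lit 392) (C.node (nat_lit 1) (nat_lit 7) (nat_lit 8) (C.cons (nat_lit 418) (C.node (nat_lit 8) (nat_lit 4) (nat_lit 5) (C.cons (nat_lit 304) (C.node (nat_lit 8) (nat_lit 5) (nat_lit 10) (C.cons (nat_lit 1312) (C.node (nat_lit 1) (nat_lit 2) (nat_lit 8) C.nil) C.nil)) C.nil)) (C.cons (nat_lit 386) (C.node (nat_lit 7) (nat_lit 8) (nat_lit 5) (C.cons (nat_lit 416) (C.node (nat_lit 8) (nat_lit 5) (nat_lit 10) C.nil) C.nil)) C.nil))) C.nil))) C.nil))) C.nil)) C.nil))) C.nil)) C.nil))) C.nil)) C.nil))) C.nil))))) C.nil))))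 C.nil)) (C.cons (nat_lit 208) (C.node (nat_lit 4) (nat_lit 6) (nat_lit 9) (C.cons (nat_lit 848) (C.node (nat_lit 1) (nat_lit 4) (nat_lit 6) (C.cons (nat_lit 90) (C.node (nat_lit 1) (nat_lit 4) (nat_lit 10) (C.cons (nat_lit 1298) (C.miq (nat_lit 342010000) (nat_lit 101568787806127007164336001)) (C.cons (nat_lit 1042) (C.node (nat_lit 2) (nat_lit 3) (nat_lit 4) (C.cons (nat_lit 60) (C.miq (nat_lit 2032339540) (nat_lit 712060130645580043417027697)) (C.cons (nat_lit 28) (C.node (nat_lit 3) (nat_lit 6) (nat_lit 10) (C.cons (nat_lit 1352)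
  (C.miq (nat_lit 1398933671) (nat_lit 712060351549392620936759169)) (C.cons (nat_lit 1096) (C.node (nat_lit 3) (nat_lit 6) (nat_lit 8) (C.cons (nat_lit 456) (C.miq (nat_lit 882401543) (nat_lit 1025177506773838180363862211)) (C.cons (nat_lit 328) (C.node (nat_lit 3) (nat_lit 8) (nat_lit 9) (C.cons (nat_lit 778) (C.miq (nat_lit 2169148256) (nat_lit 1259736140452797114594951757)) (C.cons (nat_lit 776) (C.node (nat_lit 1) (nat_lit 4) (nat_lit 7) (C.cons (nat_lit 434) (C.miq (nat_lit 642058631) (nat_lit 1374551700780397937160226689)) (C.cons (nat_lit 402) (C.miq (nat_lit 964976753) (nat_lit 1025170755405969185951580355)) (C.cons (nat_lit 178) (C.miq (nat_lit 1412591968) (nat_lit 33852966712084711407943875)) (C.cons (nat_lit 146) (C.node (nat_lit 4) (nat_lit 5) (nat_lit 7) (C.cons (nat_lit 432) (C.miq (nat_lit 642058631) (nat_lit 1374551700780397937160095617)) (C.cons (nat_lit 176) (C.node (nat_lit 4) (nat_lit 7) (nat_lit 8) (C.cons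 (nat_lit 400) (C.node (nat_lit 2) (nat_lit 3) (nat_lit 7) (C.cons (nat_lit 398) (C.miq (nat_lit 1445137016) (nat_lit 712062786756048764044969857)) (C.cons (nat_lit 396) (C.miq (nat_lit 1445137016) (nat_lit 712062786756048764044838785)) (C.cons (nat_lit 142) (C.miq (nat_lit 1410795058) (nat_lit 176506213696545456659497549)) (C.cons (nat_lit 140) (C.node (nat_lit 3) (nat_lit 7) (nat_lit 9) (C.cons (nat_lit 682) (C.miq (nat_lit 1464351008) (nat_lit 483575806720810330432537165)) (C.cons (nat_lit 680) (C.miq (nat_lit 1464351008) (nat_lit 483575806720247380479115853)) (C.cons (nat_lit 650) (C.miq (nat_lit 1900712800) (nat_lit 1259736140416768317575987789)) (C.cons (nat_lit 648) (C.node (nat_lit 3) (nat_lit 4) (nat_lit 5) (C.cons (nat_lit 56) (C.node (nat_lit 3) (nat_lit 4) (nat_lit 9) C.nil) C.nil)) C.nil))))) C.nil))))) C.nil)) C.nil))) C.nil))))) C.nil))) C.nil))) C.nil))) C.nil))) C.nil))) (C.cons (nat_lit 82) (C.node (nat_lit 3)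 (nat_lit 4) (nat_lit 6) (C.cons (nat_lit 88) (C.node (nat_lit 1) (nat_lit 6) (nat_lit 9) (C.cons (nat_lit 610) (C.node (nat_lit 5) (nat_lit 8) (nat_lit 9) (C.cons (nat_lit 800) (C.node (nat_lit 2) (nat_lit 5) (nat_lit 6) (C.cons (nat_lit 356) (C.miq (nat_lit 354457220) (nat_lit 199482555629218218418438992)) (C.cons (nat_lit 100) (C.node (nat_lit 5) (nat_lit 7) (nat_lit 9) (C.cons (nat_lit 680) (C.miq (nat_lit 961042208) (nat_lit 1025174573907601250747482277)) (C.cons (nat_lit 672) (C.node (nat_lit 4) (nat_lit 5) (nat_lit 8) (C.cons (nat_lit 434) (C.miq (nat_lit 642058631) (nat_lit 1374551700780397937160226689)) (C.cons (nat_lit 432) (C.miq (nat_lit 642058631) (nat_lit 1374551700780397937160095617)) (C.cons (nat_lit 306) (C.miq (nat_lit 2190557285) (nat_lit 626229219342035565945160817)) (C.cons (nat_lit 304) (C.node (nat_lit 1) (nat_lit 2) (nat_lit 6) (C.cons (nat_lit 326) (C.node (nat_lit 2) (nat_lit 5) (nat_lit 8) (C.cons (nat_lit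 292) (C.node (nat_lit 2) (nat_lit 3) (nat_lit 8) (C.cons (nat_lit 396) (C.miq (nat_lit 1445137016) (nat_lit 712062786756048764044838785)) (C.cons (nat_lit 268) (C.node (nat_lit 2) (nat_lit 7) (nat_lit 8) (C.cons (nat_lit 388) (C.node (nat_lit 1) (nat_lit 8) (nat_lit 9) C.nil) C.nil)) C.nil))) C.nil)) (C.cons (nat_lit 70) (C.node (nat_lit 2) (nat_lit 6) (nat_lit 8) (C.cons (nat_lit 324) (C.node (nat_lit 4) (nat_lit 8) (nat_lit 10) (C.cons (nat_lit 1306) (C.miq (nat_lit 342010000) (nat_lit 101568787808378806978021249)) (C.cons (nat_lit 1304) (C.node (nat_lit 1) (nat_lit 4) (nat_lit 10) C.nil) (C.cons (nat_lit 1298) (C.miq (nat_lit 342010000) (nat_lit 101568787806127007164336001)) C.nil)))) C.nil)) C.nil))) C.nil))))) C.nil))) C.nil))) C.nil)) (C.cons (nat_lit 578) (C.node (nat_lit 5) (nat_lit 6) (nat_lit 9) (C.cons (nat_lit 608) (C.node (nat_lit 3) (nat_lit 4) (nat_lit 9) (C.cons (nat_lit 568) (C.node (nat_lit 3) (nat_lit 7) (nat_lit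 9) (C.cons (nat_lit 650) (C.miq (nat_lit 425096000) (nat_lit 735030495623750086061785241)) (C.cons (nat_lit 648) (C.node (nat_lit 4) (nat_lit 5) (nat_lit 7) (C.cons (nat_lit 434)
  (C.miq (nat_lit 642058631) (nat_lit 1374551700780397937160226689)) (C.cons (nat_lit 432) (C.miq (nat_lit 642058631) (nat_lit 1374551700780397937160095617)) (C.cons (nat_lit 178) (C.miq (nat_lit 362181680) (nat_lit 735030495490893897018441881)) (C.cons (nat_lit 176) (C.node (nat_lit 1) (nat_lit 3) (nat_lit 9) (C.cons (nat_lit 778) (C.node (nat_lit 5) (nat_lit 8) (nat_lit 9) (C.cons (nat_lit 800) (C.node (nat_lit 2) (nat_lit 3) (nat_lit 5) (C.cons (nat_lit 46) (C.miq (nat_lit 2031224885) (nat_lit 626226618813866846322557225)) (C.cons (nat_lit 44) (C.node (nat_lit 2) (nat_lit 3) (nat_lit 8) (C.cons (nat_lit 396) (C.miq (nat_lit 1647683456) (nat_lit 53213710354456663860774785)) (C.cons (nat_lit 268) (C.node (nat_lit 4) (nat_lit 5) (nat_lit 8) (C.cons (nat_lit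 306) (C.miq (nat_lit 1669662996) (nat_lit 359071942539348775435108883)) (C.cons (nat_lit 304) (C.node (nat_lit 1) (nat_lit 5) (nat_lit 9) (C.cons (nat_lit 674) (C.node (nat_lit 1) (nat_lit 4) (nat_lit 5) (C.cons (nat_lit 54) (C.miq (nat_lit 2270300436) (nat_lit 199477870525238556444983827)) (C.cons (nat_lit 50) (C.node (nat_lit 2) (nat_lit 4) (nat_lit 5) C.nil) C.nil))) C.nil)) C.nil))) C.nil))) C.nil))) C.nil)) (C.cons (nat_lit 522) (C.node (nat_lit 3) (nat_lit 8) (nat_lit 9) (C.cons (nat_lit 776) (C.node (nat_lit 5) (nat_lit 8) (nat_lit 10) (C.cons (nat_lit 1314) (C.node (nat_lit 6) (nat_lit 8) (nat_lit 10) (C.cons (nat_lit 1352) (C.miq (nat_lit 1398933671) (nat_lit 712060351549392620936759169)) C.nil)) C.nil)) C.nil)) C.nil))) C.nil))))) C.nil))) (C.cons (nat_lit 536) (C.node (nat_lit 4) (nat_lit 5) (nat_lit 9) (C.cons (nat_lit 560) (C.node (nat_lit 3) (nat_lit 8) (nat_lit 9) (C.cons (nat_lit 778) (C.node (nat_lit 5) (nat_lit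 8) (nat_lit 9) (C.cons (nat_lit 800) (C.node (nat_lit 5) (nat_lit 8) (nat_lit 10) (C.cons (nat_lit 1314) (C.miq (nat_lit 2710984752) (nat_lit 698780098055128931661316393)) C.nil)) C.nil)) (C.cons (nat_lit 776) (C.node (nat_lit 5) (nat_lit 8) (nat_lit 10) (C.cons (nat_lit 1314) (C.node (nat_lit 6) (nat_lit 8) (nat_lit 10) (C.cons (nat_lit 1352) (C.miq (nat_lit 1398933671) (nat_lit 712060351549392620936759169)) C.nil)) C.nil)) C.nil))) C.nil)) C.nil))) C.nil)) C.nil))) C.nil)) C.nil))) (C.cons (nat_lit 592) (C.node (nat_lit 5) (nat_lit 8) (nat_lit 10) (C.cons (nat_lit 1314) (C.node (nat_lit 6) (nat_lit 8) (nat_lit 10) (C.cons (nat_lit 1352) (C.miq (nat_lit 1398933671) (nat_lit 712060351549392620936759169)) (C.cons (nat_lit 1344) (C.node (nat_lit 3) (nat_lit 8) (nat_lit 9) (C.cons (nat_lit 792) (C.miq (nat_lit 1385695043) (nat_lit 933296211471929820497576089)) (C.cons (nat_lit 778) (C.miq (nat_lit 1780024707) (nat_lit 1859338776019601777782030633))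 (C.cons (nat_lit 776) (C.node (nat_lit 2) (nat_lit 3) (nat_lit 5) (C.cons (nat_lit 62) (C.miq (nat_lit 2032339540) (nat_lit 712060130645580043417158769)) (C.cons (nat_lit 60) (C.miq (nat_lit 2032339540) (nat_lit 712060130645580043417027697)) (C.cons (nat_lit 46) (C.miq (nat_lit 2555578898) (nat_lit 359061834098523353664848903)) (C.cons (nat_lit 44) (C.node (nat_lit 2) (nat_lit 3) (nat_lit 8) (C.cons (nat_lit 398) (C.miq (nat_lit 1647683456) (nat_lit 53213710354456672450709377)) (C.cons (nat_lit 396) (C.miq (nat_lit 1647683456) (nat_lit 53213710354456663860774785)) (C.cons (nat_lit 270) (C.miq (nat_lit 1703086610) (nat_lit 359061833877846971938374663)) (C.cons (nat_lit 268) (C.node (nat_lit 1) (nat_lit 4) (nat_lit 10) (C.cons (nat_lit 1050) (C.node (nat_lit 1) (nat_lit 6) (nat_lit 10) (C.cons (nat_lit 1090) (C.node (nat_lit 1) (nat_lit 7) (nat_lit 10) (C.cons (nat_lit 1154) (C.node (nat_lit 3) (nat_lit 6) (nat_lit 10) C.nil) C.nil))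 C.nil)) (C.cons (nat_lit 1042) (C.node (nat_lit 1) (nat_lit 6) (nat_lit 10) (C.cons (nat_lit 1098) (C.node (nat_lit 1) (nat_lit 7) (nat_lit 10) (C.cons (nat_lit 1154) (C.node (nat_lit 3) (nat_lit 4) (nat_lit 10) (C.cons (nat_lit 1304) (C.node (nat_lit 3) (nat_lit 5) (nat_lit 10) (C.cons (nat_lit 1192)
  (C.miq (nat_lit 1129482864) (nat_lit 53197846178200590475396993)) C.nil)) C.nil)) C.nil)) (C.cons (nat_lit 1090) (C.node (nat_lit 3) (nat_lit 6) (nat_lit 10) (C.cons (nat_lit 1096) (C.node (nat_lit 1) (nat_lit 3) (nat_lit 10) (C.cons (nat_lit 1034) (C.node (nat_lit 1) (nat_lit 7) (nat_lit 10) (C.cons (nat_lit 1154) (C.node (nat_lit 3) (nat_lit 4) (nat_lit 10) C.nil) C.nil)) C.nil)) C.nil)) C.nil))) C.nil))) C.nil))))) C.nil))))) C.nil)))) C.nil))) (C.cons (nat_lit 1312) (C.ref (nat_lit 137) (nat_lit 11649936536080)) C.nil))) C.nil))) C.nil))) C.nil)) C.nil))) (C.cons (nat_lit 532) (C.node (nat_lit 2) (nat_lit 7) (nat_lit 9) (C.cons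 (nat_lit 646) (C.miq (nat_lit 342003879) (nat_lit 101561685593768563136792449)) (C.cons (nat_lit 644) (C.node (nat_lit 1) (nat_lit 2) (nat_lit 9) (C.cons (nat_lit 774) (C.node (nat_lit 1) (nat_lit 2) (nat_lit 6) (C.cons (nat_lit 102) (C.miq (nat_lit 2032208470) (nat_lit 935712182037537536541590641)) (C.cons (nat_lit 70) (C.node (nat_lit 2) (nat_lit 3) (nat_lit 8) (C.cons (nat_lit 396) (C.miq (nat_lit 1445137016) (nat_lit 712062786756048764044838785)) (C.cons (nat_lit 268) (C.node (nat_lit 2) (nat_lit 7) (nat_lit 8) (C.cons (nat_lit 388) (C.node (nat_lit 4) (nat_lit 6) (nat_lit 9) (C.cons (nat_lit 848) (C.miq (nat_lit 1747601680) (nat_lit 1552281726571889772705808915)) (C.cons (nat_lit 592) (C.node (nat_lit 5) (nat_lit 8) (nat_lit 10) (C.cons (nat_lit 1314) (C.miq (nat_lit 1361488016) (nat_lit 84645781690897293730711425)) (C.cons (nat_lit 1312) (C.node (nat_lit 6) (nat_lit 8) (nat_lit 9) (C.cons (nat_lit 864) (C.miq (nat_lit 441983081)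 (nat_lit 1586124953404512112830579277)) (C.cons (nat_lit 832) (C.node (nat_lit 5) (nat_lit 8) (nat_lit 9) (C.cons (nat_lit 816) (C.miq (nat_lit 1479166224) (nat_lit 1552281726562882573451067923)) (C.cons (nat_lit 800) (C.node (nat_lit 2) (nat_lit 3) (nat_lit 4) (C.cons (nat_lit 62) (C.miq (nat_lit 2032339540) (nat_lit 712060130645580043417158769)) (C.cons (nat_lit 60) (C.miq (nat_lit 2032339540) (nat_lit 712060130645580043417027697)) (C.cons (nat_lit 30) (C.miq (nat_lit 2015562004) (nat_lit 323994942549280650950476307)) (C.cons (nat_lit 28) (C.node (nat_lit 2) (nat_lit 4) (nat_lit 5) (C.cons (nat_lit 54) (C.miq (nat_lit 2186973504) (nat_lit 1900466824847424522663559699)) (C.cons (nat_lit 52) (C.node (nat_lit 1) (nat_lit 2) (nat_lit 4) (C.cons (nat_lit 150) (C.node (nat_lit 2) (nat_lit 3) (nat_lit 7) (C.cons (nat_lit 140) (C.node (nat_lit 1) (nat_lit 2) (nat_lit 3) C.nil) C.nil)) (C.cons (nat_lit 22) (C.node (nat_lit 2) (nat_lit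 4) (nat_lit 7) C.nil) C.nil))) C.nil))) C.nil))))) C.nil))) C.nil))) C.nil))) C.nil))) C.nil)) C.nil))) C.nil))) (C.cons (nat_lit 518) (C.node (nat_lit 2) (nat_lit 8) (nat_lit 9) (C.cons (nat_lit 772) (C.node (nat_lit 2) (nat_lit 4) (nat_lit 7) (C.cons (nat_lit 150) (C.node (nat_lit 2) (nat_lit 3) (nat_lit 4) (C.cons (nat_lit 60) (C.miq (nat_lit 2032339540) (nat_lit 712060130645580043417027697)) (C.cons (nat_lit 28) (C.node (nat_lit 2) (nat_lit 4) (nat_lit 5) (C.cons (nat_lit 52) (C.node (nat_lit 2) (nat_lit 3) (nat_lit 7) (C.cons (nat_lit 396) (C.miq (nat_lit 1445137016) (nat_lit 712062786756048764044838785)) (C.cons (nat_lit 140) (C.node (nat_lit 2) (nat_lit 7) (nat_lit 8) (C.cons (nat_lit 388) (C.node (nat_lit 2) (nat_lit 3) (nat_lit 5) (C.cons (nat_lit 46) (C.node (nat_lit 2) (nat_lit 3) (nat_lit 8) C.nil) (C.cons (nat_lit 44) (C.node (nat_lit 1) (nat_lit 2) (nat_lit 3) (C.cons (nat_lit 14) (C.node (nat_lit 2) (nat_lit 3) (nat_lit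 8) (C.cons (nat_lit 268) (C.node (nat_lit 1) (nat_lit 2) (nat_lit 5) (C.cons (nat_lit 358) (C.miq (nat_lit 2451023200) (nat_lit 181374309580040173254804593)) C.nil)) C.nil)) C.nil)) C.nil))) C.nil)) C.nil))) C.nil)) C.nil))) (C.cons (nat_lit 148) (C.node (nat_lit 4) (nat_lit 6) (nat_lit 7) (C.cons (nat_lit 464) (C.node (nat_lit 4) (nat_lit 6) (nat_lit 9) (C.cons (nat_lit 592) (C.node (nat_lit 2) (nat_lit 7) (nat_lit 8) (C.cons (nat_lit 398) (C.miq (nat_lit 1445137016) (nat_lit 712062786756048764044969857))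
  (C.cons (nat_lit 396) (C.miq (nat_lit 1445137016) (nat_lit 712062786756048764044838785)) (C.cons (nat_lit 390) (C.miq (nat_lit 1210738448) (nat_lit 1552281726463801732381475011)) (C.cons (nat_lit 388) (C.node (nat_lit 1) (nat_lit 2) (nat_lit 7) (C.cons (nat_lit 142) (C.node (nat_lit 2) (nat_lit 3) (nat_lit 8) (C.cons (nat_lit 268) (C.node (nat_lit 3) (nat_lit 7) (nat_lit 8) (C.cons (nat_lit 392) (C.node (nat_lit 1) (nat_lit 7) (nat_lit 10) (C.cons (nat_lit 1186) (C.miq (nat_lit 1466540290) (nat_lit 851112775624212970344350727)) (C.cons (nat_lit 1154) (C.node (nat_lit 2) (nat_lit 3) (nat_lit 4) (C.cons (nat_lit 60) (C.miq (nat_lit 2453120320) (nat_lit 171702903023121859954148465)) (C.cons (nat_lit 28) (C.node (nat_lit 2) (nat_lit 3) (nat_lit 5) C.nil) C.nil))) C.nil))) C.nil)) C.nil)) (C.cons (nat_lit 134) (C.node (nat_lit 2) (nat_lit 3) (nat_lit 7) (C.cons (nat_lit 140) (C.node (nat_lit 1) (nat_lit 4) (nat_lit 6) (C.cons (nat_lit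 90) (C.node (nat_lit 1) (nat_lit 4) (nat_lit 7) (C.cons (nat_lit 178) (C.miq (nat_lit 829580368) (nat_lit 162006924985953236755481713)) (C.cons (nat_lit 146) (C.node (nat_lit 1) (nat_lit 6) (nat_lit 10) (C.cons (nat_lit 1346) (C.miq (nat_lit 815875974) (nat_lit 1246404180272723235138830800)) (C.cons (nat_lit 1090) (C.node (nat_lit 4) (nat_lit 7) (nat_lit 9) (C.cons (nat_lit 688) (C.node (nat_lit 1) (nat_lit 2) (nat_lit 4) (C.cons (nat_lit 54) (C.miq (nat_lit 1965724688) (nat_lit 1900466824823217674659496467)) C.nil)) C.nil)) C.nil))) C.nil))) (C.cons (nat_lit 82) (C.node (nat_lit 3) (nat_lit 4) (nat_lit 6) (C.cons (nat_lit 88) (C.node (nat_lit 1) (nat_lit 4) (nat_lit 7) (C.cons (nat_lit 178) (C.node (nat_lit 4) (nat_lit 7) (nat_lit 9) (C.cons (nat_lit 656) (C.node (nat_lit 5) (nat_lit 7) (nat_lit 8) (C.cons (nat_lit 416) (C.node (nat_lit 1) (nat_lit 2) (nat_lit 4) C.nil) C.nil)) C.nil)) (C.cons (nat_lit 146) (C.node (nat_lit 2)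 (nat_lit 3) (nat_lit 8) (C.cons (nat_lit 270) (C.node (nat_lit 1) (nat_lit 2) (nat_lit 6) (C.cons (nat_lit 102) (C.miq (nat_lit 2451023200) (nat_lit 162031496466205006947878001)) C.nil)) (C.cons (nat_lit 268) (C.node (nat_lit 4) (nat_lit 7) (nat_lit 9) (C.cons (nat_lit 688) (C.node (nat_lit 1) (nat_lit 7) (nat_lit 9) (C.cons (nat_lit 650) (C.node (nat_lit 3) (nat_lit 5) (nat_lit 9) C.nil) C.nil)) C.nil)) C.nil))) C.nil))) C.nil)) C.nil))) C.nil)) C.nil))) C.nil))))) C.nil)) (C.cons (nat_lit 208) (C.node (nat_lit 4) (nat_lit 6) (nat_lit 9) (C.cons (nat_lit 848) (C.node (nat_lit 1) (nat_lit 4) (nat_lit 6) (C.cons (nat_lit 90) (C.node (nat_lit 1) (nat_lit 4) (nat_lit 10) (C.cons (nat_lit 1298) (C.miq (nat_lit 342010000) (nat_lit 101568787806127007164336001)) (C.cons (nat_lit 1042) (C.node (nat_lit 2) (nat_lit 3) (nat_lit 4) (C.cons (nat_lit 60) (C.miq (nat_lit 2032339540) (nat_lit 712060130645580043417027697)) (C.cons (nat_lit 28)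 (C.node (nat_lit 3) (nat_lit 6) (nat_lit 10) (C.cons (nat_lit 1352) (C.miq (nat_lit 1398933671) (nat_lit 712060351549392620936759169)) (C.cons (nat_lit 1096) (C.node (nat_lit 3) (nat_lit 6) (nat_lit 8) (C.cons (nat_lit 456) (C.miq (nat_lit 882401543) (nat_lit 1025177506773838180363862211)) (C.cons (nat_lit 328) (C.node (nat_lit 3) (nat_lit 8) (nat_lit 9) (C.cons (nat_lit 778) (C.miq (nat_lit 2169148256) (nat_lit 1259736140452797114594951757)) (C.cons (nat_lit 776) (C.node (nat_lit 1) (nat_lit 4) (nat_lit 7) (C.cons (nat_lit 434) (C.miq (nat_lit 642058631) (nat_lit 1374551700780397937160226689)) (C.cons (nat_lit 402) (C.miq (nat_lit 964976753) (nat_lit 1025170755405969185951580355)) (C.cons (nat_lit 178) (C.miq (nat_lit 1412591968) (nat_lit 33852966712084711407943875)) (C.cons (nat_lit 146) (C.node (nat_lit 4) (nat_lit 7) (nat_lit 8) (C.cons (nat_lit 432) (C.miq (nat_lit 642058631) (nat_lit 1374551700780397937160095617)) (C.cons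 (nat_lit 400) (C.node (nat_lit 2) (nat_lit 3) (nat_lit 7) (C.cons (nat_lit 398) (C.miq (nat_lit 1445137016) (nat_lit 712062786756048764044969857)) (C.cons (nat_lit 396)
  (C.miq (nat_lit 1445137016) (nat_lit 712062786756048764044838785)) (C.cons (nat_lit 142) (C.miq (nat_lit 1410795058) (nat_lit 176506213696545456659497549)) (C.cons (nat_lit 140) (C.node (nat_lit 1) (nat_lit 2) (nat_lit 4) (C.cons (nat_lit 54) (C.node (nat_lit 1) (nat_lit 4) (nat_lit 8) C.nil) C.nil)) C.nil))))) C.nil))) C.nil))))) C.nil))) C.nil))) C.nil))) C.nil))) C.nil))) (C.cons (nat_lit 82) (C.node (nat_lit 3) (nat_lit 4) (nat_lit 6) (C.cons (nat_lit 88) (C.node (nat_lit 1) (nat_lit 6) (nat_lit 9) (C.cons (nat_lit 610) (C.node (nat_lit 5) (nat_lit 8) (nat_lit 9) (C.cons (nat_lit 800) (C.node (nat_lit 2) (nat_lit 5) (nat_lit 6) (C.cons (nat_lit 356) (C.miq (nat_lit 354457220) (nat_lit 199482555629218218418438992)) (C.cons (nat_lit 100) (C.node (nat_lit 4)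 (nat_lit 5) (nat_lit 8) (C.cons (nat_lit 434) (C.miq (nat_lit 642058631) (nat_lit 1374551700780397937160226689)) (C.cons (nat_lit 432) (C.miq (nat_lit 642058631) (nat_lit 1374551700780397937160095617)) (C.cons (nat_lit 306) (C.miq (nat_lit 2190557285) (nat_lit 626229219342035565945160817)) (C.cons (nat_lit 304) (C.node (nat_lit 1) (nat_lit 2) (nat_lit 6) (C.cons (nat_lit 326) (C.node (nat_lit 2) (nat_lit 5) (nat_lit 8) (C.cons (nat_lit 292) (C.node (nat_lit 2) (nat_lit 3) (nat_lit 8) (C.cons (nat_lit 396) (C.miq (nat_lit 1445137016) (nat_lit 712062786756048764044838785)) (C.cons (nat_lit 268) (C.node (nat_lit 2) (nat_lit 7) (nat_lit 8) C.nil) C.nil))) C.nil)) (C.cons (nat_lit 70) (C.node (nat_lit 2) (nat_lit 6) (nat_lit 8) (C.cons (nat_lit 324) (C.node (nat_lit 1) (nat_lit 7) (nat_lit 9) C.nil) C.nil)) C.nil))) C.nil))))) C.nil))) C.nil)) (C.cons (nat_lit 578) (C.node (nat_lit 5) (nat_lit 6) (nat_lit 9) (C.cons (nat_lit 608) (C.node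 (nat_lit 3) (nat_lit 4) (nat_lit 9) (C.cons (nat_lit 568) (C.node (nat_lit 4) (nat_lit 7) (nat_lit 9) C.nil) (C.cons (nat_lit 536) (C.node (nat_lit 3) (nat_lit 8) (nat_lit 9) (C.cons (nat_lit 776) (C.node (nat_lit 1) (nat_lit 8) (nat_lit 9) C.nil) C.nil)) C.nil))) C.nil)) C.nil))) C.nil)) C.nil))) (C.cons (nat_lit 592) (C.node (nat_lit 4) (nat_lit 7) (nat_lit 9) (C.cons (nat_lit 688) (C.node (nat_lit 2) (nat_lit 4) (nat_lit 5) (C.cons (nat_lit 62) (C.miq (nat_lit 2032339540) (nat_lit 712060130645580043417158769)) (C.cons (nat_lit 60) (C.miq (nat_lit 2032339540) (nat_lit 712060130645580043417027697)) (C.cons (nat_lit 54) (C.miq (nat_lit 1965724688) (nat_lit 1900466824823217674659496467)) (C.cons (nat_lit 52) (C.node (nat_lit 1) (nat_lit 2) (nat_lit 4) (C.cons (nat_lit 30) (C.node (nat_lit 2) (nat_lit 3) (nat_lit 5) (C.cons (nat_lit 44) (C.node (nat_lit 3) (nat_lit 4) (nat_lit 5) (C.cons (nat_lit 56) (C.node (nat_lit 1) (nat_lit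 4) (nat_lit 7) (C.cons (nat_lit 402) (C.miq (nat_lit 2166977584) (nat_lit 626259010868896578071756953)) (C.cons (nat_lit 146) (C.node (nat_lit 4) (nat_lit 7) (nat_lit 8) (C.cons (nat_lit 400) (C.node (nat_lit 1) (nat_lit 2) (nat_lit 7) C.nil) C.nil)) C.nil))) C.nil)) C.nil)) (C.cons (nat_lit 22) (C.node (nat_lit 2) (nat_lit 3) (nat_lit 4) (C.cons (nat_lit 28) (C.node (nat_lit 1) (nat_lit 4) (nat_lit 7) (C.cons (nat_lit 402) (C.node (nat_lit 4) (nat_lit 5) (nat_lit 8) (C.cons (nat_lit 304) (C.node (nat_lit 1) (nat_lit 2) (nat_lit 7) C.nil) C.nil)) (C.cons (nat_lit 146) (C.node (nat_lit 4) (nat_lit 7) (nat_lit 8) C.nil) C.nil))) C.nil)) C.nil))) C.nil))))) (C.cons (nat_lit 656) (C.node (nat_lit 5) (nat_lit 8) (nat_lit 10) (C.cons (nat_lit 1314) (C.node (nat_lit 6) (nat_lit 8) (nat_lit 10) (C.cons (nat_lit 1352) (C.miq (nat_lit 1398933671) (nat_lit 712060351549392620936759169)) (C.cons (nat_lit 1344) (C.node (nat_lit 2) (nat_lit 3)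 (nat_lit 5) (C.cons (nat_lit 62) (C.miq (nat_lit 2032339540) (nat_lit 712060130645580043417158769)) (C.cons (nat_lit 60) (C.miq (nat_lit 2032339540) (nat_lit 712060130645580043417027697)) (C.cons (nat_lit 46) (C.miq (nat_lit 2555578898) (nat_lit 359061834098523353664848903)) (C.cons (nat_lit 44) (C.node (nat_lit 2) (nat_lit 3) (nat_lit 8) (C.cons (nat_lit 398)
  (C.miq (nat_lit 1647683456) (nat_lit 53213710354456672450709377)) (C.cons (nat_lit 396) (C.miq (nat_lit 1647683456) (nat_lit 53213710354456663860774785)) (C.cons (nat_lit 270) (C.miq (nat_lit 1703086610) (nat_lit 359061833877846971938374663)) (C.cons (nat_lit 268) (C.node (nat_lit 1) (nat_lit 4) (nat_lit 10) (C.cons (nat_lit 1050) (C.node (nat_lit 2) (nat_lit 3) (nat_lit 4) C.nil) (C.cons (nat_lit 1042) (C.node (nat_lit 1) (nat_lit 6) (nat_lit 10) (C.cons (nat_lit 1098) (C.node (nat_lit 1) (nat_lit 7) (nat_lit 10) (C.cons (nat_lit 1154) (C.node (nat_lit 3) (nat_lit 4) (nat_lit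 10) C.nil) C.nil)) (C.cons (nat_lit 1090) (C.node (nat_lit 3) (nat_lit 6) (nat_lit 10) C.nil) C.nil))) C.nil))) C.nil))))) C.nil))))) C.nil))) (C.cons (nat_lit 1312) (C.ref (nat_lit 138) (nat_lit 11649936536080)) C.nil))) C.nil))) C.nil))) C.nil))) C.nil))) C.nil)) C.nil))) C.nil))) C.nil))) C.nil)) C.nil))) List.nil)

theorem ok11_139 : okL par11 (nat_lit 140) c11_139 (nat_lit 139) = true := by decide +kernel

noncomputable def c11_140 : List C :=
  (List.cons (C.node (nat_lit 3) (nat_lit 4) (nat_lit 5) (C.cons (nat_lit 58) (C.node (nat_lit 1) (nat_lit 3) (nat_lit 9) (C.cons (nat_lit 650) (C.miq (nat_lit 1680935575) (nat_lit 70121294972786614207121281)) (C.cons (nat_lit 522) (C.node (nat_lit 1) (nat_lit 2) (nat_lit 3) (C.cons (nat_lit 270) (C.node (nat_lit 1) (nat_lit 3) (nat_lit 6) (C.cons (nat_lit 1098) (C.miq (nat_lit 2225152099) (nat_lit 1259705684737316953621398093)) (C.cons (nat_lit 74) (C.node (nat_lit 3) (nat_lit 4) (nat_lit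 6) (C.cons (nat_lit 344) (C.miq (nat_lit 440934499) (nat_lit 1566772843131664896387187277)) (C.cons (nat_lit 88) (C.node (nat_lit 3) (nat_lit 4) (nat_lit 8) (C.cons (nat_lit 280) (C.node (nat_lit 3) (nat_lit 6) (nat_lit 10) (C.cons (nat_lit 1352) (C.miq (nat_lit 1398933671) (nat_lit 712060351549392620936759169)) (C.cons (nat_lit 1096) (C.node (nat_lit 3) (nat_lit 8) (nat_lit 10) (C.cons (nat_lit 1288) (C.node (nat_lit 1) (nat_lit 4) (nat_lit 6) (C.cons (nat_lit 82) (C.node (nat_lit 1) (nat_lit 4) (nat_lit 8) C.nil) C.nil)) C.nil)) C.nil))) C.nil)) C.nil))) C.nil))) (C.cons (nat_lit 14) (C.node (nat_lit 1) (nat_lit 4) (nat_lit 6) (C.cons (nat_lit 338) (C.node (nat_lit 3) (nat_lit 4) (nat_lit 6) (C.cons (nat_lit 88) (C.node (nat_lit 3) (nat_lit 4) (nat_lit 8) (C.cons (nat_lit 280) (C.node (nat_lit 4) (nat_lit 6) (nat_lit 7) (C.cons (nat_lit 720) (C.miq (nat_lit 641836944) (nat_lit 408635945966287219596658561)) (C.cons (nat_lit 208)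 (C.node (nat_lit 4) (nat_lit 6) (nat_lit 9) (C.cons (nat_lit 592) (C.node (nat_lit 4) (nat_lit 7) (nat_lit 9) C.nil) C.nil)) C.nil))) C.nil)) C.nil)) (C.cons (nat_lit 82) (C.node (nat_lit 1) (nat_lit 4) (nat_lit 8) (C.cons (nat_lit 274) (C.node (nat_lit 1) (nat_lit 7) (nat_lit 9) (C.cons (nat_lit 674) (C.node (nat_lit 3) (nat_lit 5) (nat_lit 9) (C.cons (nat_lit 552) (C.node (nat_lit 3) (nat_lit 7) (nat_lit 9) (C.cons (nat_lit 648) (C.node (nat_lit 3) (nat_lit 7) (nat_lit 10) (C.cons (nat_lit 1192) (C.miq (nat_lit 1931060544) (nat_lit 631094714369720446627284081)) C.nil)) C.nil)) C.nil)) (C.cons (nat_lit 642) (C.node (nat_lit 2) (nat_lit 3) (nat_lit 5) (C.cons (nat_lit 1068) (C.node (nat_lit 2) (nat_lit 3) (nat_lit 8) (C.cons (nat_lit 268) (C.node (nat_lit 2) (nat_lit 8) (nat_lit 10) C.nil) C.nil)) (C.cons (nat_lit 44) (C.node (nat_lit 3) (nat_lit 5) (nat_lit 10) (C.cons (nat_lit 1192) (C.miq (nat_lit 1931060544) (nat_lit 631094714369720446627284081))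 (C.cons (nat_lit 1064) (C.node (nat_lit 1) (nat_lit 3) (nat_lit 7) C.nil) C.nil))) C.nil))) C.nil))) C.nil)) C.nil))) C.nil))) C.nil))) (C.cons (nat_lit 56) (C.node (nat_lit 1) (nat_lit 4) (nat_lit 5) (C.cons (nat_lit 306) (C.node (nat_lit 1) (nat_lit 3) (nat_lit 4) (C.cons (nat_lit 90) (C.miq (nat_lit 2753008480) (nat_lit 181374309576661322483040845)) (C.cons (nat_lit 26) (C.node (nat_lit 1) (nat_lit 4) (nat_lit 6) (C.cons (nat_lit 82) (C.node (nat_lit 1) (nat_lit 3) (nat_lit 9) (C.cons (nat_lit 682) (C.miq (nat_lit 1680935575) (nat_lit 31435668745118480618620801)) (C.cons (nat_lit 650) (C.miq (nat_lit 1680935575) (nat_lit 31435668745118480616523649)) (C.cons (nat_lit 554) (C.miq (nat_lit 592972052) (nat_lit 359056078339444423148044819)) (C.cons (nat_lit 522) (C.node (nat_lit 1) (nat_lit 7) (nat_lit 8) (C.cons (nat_lit 394) (C.node (nat_lit 1) (nat_lit 8) (nat_lit 10) (C.cons (nat_lit 1346) (C.miq (nat_lit 1630840944) (nat_lit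 31453045636859177182234497)) (C.cons (nat_lit 1282) (C.node (nat_lit 3) (nat_lit 4) (nat_lit 8) (C.cons (nat_lit 344) (C.node (nat_lit 4) (nat_lit 8) (nat_lit 9) C.nil) C.nil)) C.nil))) (C.cons (nat_lit 386) (C.node (nat_lit 1) (nat_lit 7) (nat_lit 9) (C.cons (nat_lit 674) (C.node (nat_lit 3) (nat_lit 5) (nat_lit 9) (C.cons (nat_lit 552) (C.node (nat_lit 3) (nat_lit 7) (nat_lit 9) (C.cons (nat_lit 648) (C.node (nat_lit 3) (nat_lit 4) (nat_lit 6) C.nil) C.nil)) C.nil)) (C.cons (nat_lit 642) (C.node (nat_lit 3) (nat_lit 4) (nat_lit 6) (C.cons (nat_lit 344) (C.node (nat_lit 3) (nat_lit 7) (nat_lit 8) (C.cons (nat_lit 392)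
  (C.node (nat_lit 3) (nat_lit 6) (nat_lit 10) C.nil) C.nil)) (C.cons (nat_lit 88) (C.node (nat_lit 3) (nat_lit 4) (nat_lit 8) C.nil) C.nil))) C.nil))) C.nil))) C.nil))))) C.nil)) C.nil))) (C.cons (nat_lit 50) (C.node (nat_lit 4) (nat_lit 6) (nat_lit 7) (C.cons (nat_lit 720) (C.miq (nat_lit 308546169) (nat_lit 101559564358937931343202177)) (C.cons (nat_lit 464) (C.node (nat_lit 4) (nat_lit 6) (nat_lit 9) (C.cons (nat_lit 592) (C.node (nat_lit 1) (nat_lit 4) (nat_lit 6) (C.cons (nat_lit 90) (C.miq (nat_lit 2753008480) (nat_lit 181374309576661322483040845)) (C.cons (nat_lit 82) (C.node (nat_lit 3) (nat_lit 4) (nat_lit 6) (C.cons (nat_lit 88) (C.node (nat_lit 4) (nat_lit 7) (nat_lit 9) C.nil) C.nil)) C.nil))) C.nil)) (C.cons (nat_lit 208) (C.node (nat_lit 4) (nat_lit 6) (nat_lit 9) (C.cons (nat_lit 848) (C.node (nat_lit 1) (nat_lit 4) (nat_lit 6) (C.cons (nat_lit 90) (C.miq (nat_lit 2753008480) (nat_lit 181374309576661322483040845))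 (C.cons (nat_lit 82) (C.node (nat_lit 3) (nat_lit 4) (nat_lit 6) (C.cons (nat_lit 88) (C.node (nat_lit 1) (nat_lit 3) (nat_lit 4) (C.cons (nat_lit 26) (C.node (nat_lit 1) (nat_lit 4) (nat_lit 8) (C.cons (nat_lit 274) (C.node (nat_lit 3) (nat_lit 4) (nat_lit 8) C.nil) C.nil)) C.nil)) C.nil)) C.nil))) (C.cons (nat_lit 592) (C.node (nat_lit 4) (nat_lit 7) (nat_lit 8) (C.cons (nat_lit 432) (C.node (nat_lit 4) (nat_lit 5) (nat_lit 9) C.nil) (C.cons (nat_lit 400) (C.node (nat_lit 4) (nat_lit 5) (nat_lit 7) (C.cons (nat_lit 688) (C.node (nat_lit 4) (nat_lit 8) (nat_lit 9) C.nil) (C.cons (nat_lit 176) (C.node (nat_lit 4) (nat_lit 7) (nat_lit 9) C.nil) C.nil))) C.nil))) C.nil))) C.nil)))) C.nil))) C.nil))) (List.cons (C.node (nat_lit 4) (nat_lit 6) (nat_lit 7) (C.cons (nat_lit 720) (C.miq (nat_lit 308546169) (nat_lit 101559564358937931343202177)) (C.cons (nat_lit 464) (C.node (nat_lit 4) (nat_lit 6) (nat_lit 9) (C.cons (nat_lit 592) (C.node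 (nat_lit 1) (nat_lit 4) (nat_lit 6) (C.cons (nat_lit 90) (C.miq (nat_lit 2051082550) (nat_lit 1259704301694258103822451277)) (C.cons (nat_lit 82) (C.node (nat_lit 3) (nat_lit 4) (nat_lit 6) (C.cons (nat_lit 88) (C.node (nat_lit 2) (nat_lit 7) (nat_lit 8) (C.cons (nat_lit 398) (C.miq (nat_lit 1445137016) (nat_lit 712062786756048764044969857)) (C.cons (nat_lit 396) (C.miq (nat_lit 1445137016) (nat_lit 712062786756048764044838785)) (C.cons (nat_lit 390) (C.miq (nat_lit 2759984753) (nat_lit 334891470946431317351727299)) (C.cons (nat_lit 388) (C.node (nat_lit 1) (nat_lit 2) (nat_lit 7) (C.cons (nat_lit 142) (C.node (nat_lit 3) (nat_lit 7) (nat_lit 8) (C.cons (nat_lit 392) (C.node (nat_lit 1) (nat_lit 4) (nat_lit 7) (C.cons (nat_lit 178) (C.miq (nat_lit 910237783) (nat_lit 99134536811851703754293413)) (C.cons (nat_lit 146) (C.node (nat_lit 1) (nat_lit 7) (nat_lit 10) (C.cons (nat_lit 1186) (C.miq (nat_lit 352549474) (nat_lit 359053588197037537439319236))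 (C.cons (nat_lit 1154) (C.node (nat_lit 2) (nat_lit 3) (nat_lit 4) (C.cons (nat_lit 60) (C.miq (nat_lit 2468848720) (nat_lit 171702903019744160234407025)) (C.cons (nat_lit 28) (C.node (nat_lit 2) (nat_lit 3) (nat_lit 5) (C.cons (nat_lit 1068) (C.miq (nat_lit 1343465074) (nat_lit 13317885458469528770839748)) (C.cons (nat_lit 44) (C.node (nat_lit 3) (nat_lit 6) (nat_lit 7) (C.cons (nat_lit 232) (C.miq (nat_lit 1461347104) (nat_lit 1395121369848596679920910925)) (C.cons (nat_lit 200) (C.node (nat_lit 4) (nat_lit 5) (nat_lit 7) (C.cons (nat_lit 688) (C.node (nat_lit 1) (nat_lit 7) (nat_lit 9) C.nil) C.nil)) C.nil))) C.nil))) C.nil))) C.nil))) C.nil))) C.nil)) (C.cons (nat_lit 134) (C.node (nat_lit 2) (nat_lit 3) (nat_lit 7) (C.cons (nat_lit 140) (C.node (nat_lit 1) (nat_lit 4) (nat_lit 7) (C.cons (nat_lit 178) (C.node (nat_lit 4) (nat_lit 7) (nat_lit 9) (C.cons (nat_lit 656) (C.node (nat_lit 5) (nat_lit 7) (nat_lit 8) (C.cons (nat_lit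 416) (C.node (nat_lit 1) (nat_lit 7) (nat_lit 9) (C.cons (nat_lit 650) (C.miq (nat_lit 373518505) (nat_lit 106397462564627782521325441)) (C.cons (nat_lit 642)
  (C.node (nat_lit 2) (nat_lit 4) (nat_lit 5) (C.cons (nat_lit 60) (C.miq (nat_lit 2468848720) (nat_lit 169285051380514901884994673)) (C.cons (nat_lit 52) (C.node (nat_lit 3) (nat_lit 4) (nat_lit 5) C.nil) C.nil))) C.nil))) C.nil)) C.nil)) (C.cons (nat_lit 146) (C.node (nat_lit 3) (nat_lit 4) (nat_lit 8) (C.cons (nat_lit 282) (C.node (nat_lit 3) (nat_lit 7) (nat_lit 8) (C.cons (nat_lit 392) (C.node (nat_lit 2) (nat_lit 3) (nat_lit 4) (C.cons (nat_lit 60) (C.miq (nat_lit 2468848720) (nat_lit 169285051380514901884994673)) (C.cons (nat_lit 28) (C.node (nat_lit 3) (nat_lit 4) (nat_lit 5) C.nil) C.nil))) C.nil)) (C.cons (nat_lit 280) (C.node (nat_lit 1) (nat_lit 4) (nat_lit 8) (C.cons (nat_lit 306) (C.node (nat_lit 2) (nat_lit 4) (nat_lit 5) (C.cons (nat_lit 60) (C.miq (nat_lit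 2468848720) (nat_lit 169285051380514901884994673)) C.nil)) (C.cons (nat_lit 274) (C.node (nat_lit 1) (nat_lit 2) (nat_lit 4) (C.cons (nat_lit 62) (C.miq (nat_lit 2468848720) (nat_lit 169285051380514910474929265)) (C.cons (nat_lit 22) (C.node (nat_lit 1) (nat_lit 3) (nat_lit 4) C.nil) C.nil))) C.nil))) C.nil))) C.nil))) C.nil)) C.nil))) C.nil))))) C.nil)) C.nil))) C.nil)) (C.cons (nat_lit 208) (C.node (nat_lit 4) (nat_lit 6) (nat_lit 9) (C.cons (nat_lit 848) (C.node (nat_lit 1) (nat_lit 4) (nat_lit 6) (C.cons (nat_lit 90) (C.miq (nat_lit 2051082550) (nat_lit 1259704301694258103822451277)) (C.cons (nat_lit 82) (C.node (nat_lit 3) (nat_lit 4) (nat_lit 6) (C.cons (nat_lit 88) (C.node (nat_lit 6) (nat_lit 7) (nat_lit 9) (C.cons (nat_lit 736) (C.miq (nat_lit 610601111) (nat_lit 1374551700692577744446293889)) (C.cons (nat_lit 704) (C.node (nat_lit 1) (nat_lit 6) (nat_lit 9) (C.cons (nat_lit 610) (C.node (nat_lit 1) (nat_lit 2) (nat_lit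 9) (C.cons (nat_lit 774) (C.miq (nat_lit 440934505) (nat_lit 1566782140290678046034231885)) (C.cons (nat_lit 518) (C.node (nat_lit 1) (nat_lit 8) (nat_lit 9) (C.cons (nat_lit 770) (C.node (nat_lit 1) (nat_lit 3) (nat_lit 9) (C.cons (nat_lit 650) (C.miq (nat_lit 373518505) (nat_lit 106397462564627782521325441)) (C.cons (nat_lit 522) (C.node (nat_lit 1) (nat_lit 7) (nat_lit 9) (C.cons (nat_lit 642) (C.node (nat_lit 1) (nat_lit 2) (nat_lit 6) (C.cons (nat_lit 326) (C.node (nat_lit 1) (nat_lit 2) (nat_lit 7) C.nil) C.nil)) C.nil)) C.nil))) C.nil)) C.nil))) (C.cons (nat_lit 578) (C.node (nat_lit 5) (nat_lit 6) (nat_lit 9) (C.cons (nat_lit 608) (C.node (nat_lit 3) (nat_lit 4) (nat_lit 8) (C.cons (nat_lit 282) (C.node (nat_lit 2) (nat_lit 3) (nat_lit 4) (C.cons (nat_lit 60) (C.miq (nat_lit 2033322565) (nat_lit 712060352006508876392039537)) (C.cons (nat_lit 28) (C.node (nat_lit 3) (nat_lit 4) (nat_lit 5) (C.cons (nat_lit 56) (C.node (nat_lit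 4) (nat_lit 5) (nat_lit 8) (C.cons (nat_lit 432) (C.miq (nat_lit 642058631) (nat_lit 1374551700780397937160095617)) C.nil)) C.nil)) C.nil))) (C.cons (nat_lit 280) (C.node (nat_lit 4) (nat_lit 5) (nat_lit 9) (C.cons (nat_lit 688) (C.node (nat_lit 1) (nat_lit 7) (nat_lit 9) (C.cons (nat_lit 650) (C.miq (nat_lit 373518505) (nat_lit 106397462564627782521325441)) (C.cons (nat_lit 642) (C.node (nat_lit 3) (nat_lit 7) (nat_lit 9) (C.cons (nat_lit 648) (C.node (nat_lit 1) (nat_lit 4) (nat_lit 7) C.nil) C.nil)) C.nil))) (C.cons (nat_lit 560) (C.node (nat_lit 4) (nat_lit 7) (nat_lit 9) (C.cons (nat_lit 656) (C.node (nat_lit 1) (nat_lit 2) (nat_lit 4) (C.cons (nat_lit 22) (C.node (nat_lit 1) (nat_lit 3) (nat_lit 4) C.nil) C.nil)) C.nil)) C.nil))) C.nil))) C.nil)) C.nil))) C.nil))) C.nil)) C.nil))) (C.cons (nat_lit 592) (C.node (nat_lit 4) (nat_lit 7) (nat_lit 9) (C.cons (nat_lit 688) (C.node (nat_lit 4) (nat_lit 8) (nat_lit 9) (C.cons (nat_lit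 784) (C.node (nat_lit 6) (nat_lit 7) (nat_lit 9) (C.cons (nat_lit 704) (C.node (nat_lit 1) (nat_lit 7) (nat_lit 9) (C.cons (nat_lit 650) (C.miq (nat_lit 929730820) (nat_lit 1474918277033562152497119763)) (C.cons (nat_lit 642) (C.node (nat_lit 3) (nat_lit 7) (nat_lit 9) (C.cons (nat_lit 648) (C.node (nat_lit 2) (nat_lit 4) (nat_lit 5) (C.cons (nat_lit 62)
  (C.miq (nat_lit 2033322565) (nat_lit 712060352006508876392170609)) (C.cons (nat_lit 60) (C.miq (nat_lit 2033322565) (nat_lit 712060352006508876392039537)) (C.cons (nat_lit 54) (C.miq (nat_lit 2807171393) (nat_lit 199491779370270193576444435)) (C.cons (nat_lit 52) (C.node (nat_lit 1) (nat_lit 2) (nat_lit 4) (C.cons (nat_lit 30) (C.node (nat_lit 3) (nat_lit 4) (nat_lit 5) (C.cons (nat_lit 56) (C.node (nat_lit 1) (nat_lit 4) (nat_lit 7) (C.cons (nat_lit 402) (C.miq (nat_lit 963715204) (nat_lit 776130929760711153389011221)) C.nil)) C.nil)) (C.cons (nat_lit 22) (C.node (nat_lit 2)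 (nat_lit 3) (nat_lit 4) (C.cons (nat_lit 28) (C.node (nat_lit 2) (nat_lit 3) (nat_lit 5) C.nil) C.nil)) C.nil))) C.nil))))) C.nil)) C.nil))) C.nil)) C.nil)) (C.cons (nat_lit 656) (C.node (nat_lit 4) (nat_lit 5) (nat_lit 9) (C.cons (nat_lit 816) (C.node (nat_lit 2) (nat_lit 8) (nat_lit 9) (C.cons (nat_lit 774) (C.miq (nat_lit 1494894624) (nat_lit 1859348884744998383826436373)) (C.cons (nat_lit 772) (C.node (nat_lit 2) (nat_lit 4) (nat_lit 5) (C.cons (nat_lit 62) (C.miq (nat_lit 2033322565) (nat_lit 712060352006508876392170609)) (C.cons (nat_lit 60) (C.miq (nat_lit 2033322565) (nat_lit 712060352006508876392039537)) (C.cons (nat_lit 54) (C.miq (nat_lit 445980804) (nat_lit 1895596681570127477929410837)) (C.cons (nat_lit 52) (C.node (nat_lit 1) (nat_lit 2) (nat_lit 4) (C.cons (nat_lit 30) (C.node (nat_lit 3) (nat_lit 4) (nat_lit 5) (C.cons (nat_lit 56) (C.node (nat_lit 4) (nat_lit 7) (nat_lit 8) (C.cons (nat_lit 402) (C.miq (nat_lit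 311968519) (nat_lit 933298148342058133275869337)) C.nil)) C.nil)) (C.cons (nat_lit 22) (C.node (nat_lit 2) (nat_lit 3) (nat_lit 4) (C.cons (nat_lit 28) (C.node (nat_lit 3) (nat_lit 4) (nat_lit 5) (C.cons (nat_lit 56) (C.node (nat_lit 1) (nat_lit 4) (nat_lit 5) C.nil) C.nil)) C.nil)) C.nil))) C.nil))))) C.nil))) (C.cons (nat_lit 560) (C.node (nat_lit 4) (nat_lit 8) (nat_lit 9) (C.cons (nat_lit 784) (C.node (nat_lit 6) (nat_lit 7) (nat_lit 9) (C.cons (nat_lit 736) (C.node (nat_lit 1) (nat_lit 7) (nat_lit 9) (C.cons (nat_lit 650) (C.miq (nat_lit 929730820) (nat_lit 1474918277033562152497119763)) (C.cons (nat_lit 642) (C.node (nat_lit 3) (nat_lit 7) (nat_lit 9) (C.cons (nat_lit 648) (C.node (nat_lit 1) (nat_lit 3) (nat_lit 9) C.nil) C.nil)) C.nil))) (C.cons (nat_lit 704) (C.node (nat_lit 1) (nat_lit 4) (nat_lit 6) (C.cons (nat_lit 346) (C.miq (nat_lit 2051082550) (nat_lit 1259704301694258103839228493)) (C.cons (nat_lit 338) (C.node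 (nat_lit 3) (nat_lit 4) (nat_lit 6) (C.cons (nat_lit 88) (C.node (nat_lit 6) (nat_lit 8) (nat_lit 10) (C.cons (nat_lit 1352) (C.miq (nat_lit 1398933671) (nat_lit 712060351549392620936759169)) C.nil)) C.nil)) (C.cons (nat_lit 90) (C.miq (nat_lit 2051082550) (nat_lit 1259704301694258103822451277)) (C.cons (nat_lit 82) (C.node (nat_lit 3) (nat_lit 6) (nat_lit 10) (C.cons (nat_lit 1354) (C.miq (nat_lit 1398933671) (nat_lit 712060351549392629526693761)) (C.cons (nat_lit 1352) (C.miq (nat_lit 1398933671) (nat_lit 712060351549392620936759169)) (C.cons (nat_lit 1098) (C.node (nat_lit 6) (nat_lit 8) (nat_lit 10) C.nil) C.nil)))) C.nil))))) C.nil))) C.nil)) C.nil))) C.nil))) C.nil))) C.nil)))) List.nil))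

theorem ok11_140 : okL par11 (nat_lit 142) c11_140 (nat_lit 140) = true := by decide +kernel

noncomputable def c11_142 : List C :=
  (List.cons (C.node (nat_lit 2) (nat_lit 7) (nat_lit 9) (C.cons (nat_lit 660) (C.node (nat_lit 3) (nat_lit 7) (nat_lit 9) (C.cons (nat_lit 682) (C.miq (nat_lit 929730820) (nat_lit 1474918277042569351751860755)) (C.cons (nat_lit 680) (C.miq (nat_lit 2207516018) (nat_lit 1885929388430530918791512229)) (C.cons (nat_lit 650) (C.miq (nat_lit 929730820) (nat_lit 1474918277033562152497119763)) (C.cons (nat_lit 648) (C.node (nat_lit 1) (nat_lit 3) (nat_lit 9) (C.cons (nat_lit 554) (C.node (nat_lit 1) (nat_lit 7) (nat_lit 9) (C.cons (nat_lit 642) (C.node (nat_lit 2) (nat_lit 5) (nat_lit 9) (C.cons (nat_lit 804) (C.miq (nat_lit 1500742208) (nat_lit 783389410019578312910242069)) (C.cons (nat_lit 548) (C.node (nat_lit 3) (nat_lit 4) (nat_lit 5) (C.cons (nat_lit 60) (C.miq (nat_lit 2033322565) (nat_lit 712060352006508876392039537))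 (C.cons (nat_lit 56) (C.node (nat_lit 1) (nat_lit 2) (nat_lit 9) (C.cons (nat_lit 774) (C.node (nat_lit 1) (nat_lit 6) (nat_lit 9) (C.cons (nat_lit 578) (C.node (nat_lit 2) (nat_lit 3) (nat_lit 4) (C.cons (nat_lit 30) (C.miq (nat_lit 2031290404) (nat_lit 669747726959064594916442389)) (C.cons (nat_lit 28) (C.node (nat_lit 1) (nat_lit 2) (nat_lit 4) (C.cons (nat_lit 54) (C.miq (nat_lit 2836727844) (nat_lit 669765878555233125116805397)) (C.cons (nat_lit 22) (C.node (nat_lit 2) (nat_lit 4) (nat_lit 5) (C.cons (nat_lit 52) (C.node (nat_lit 2) (nat_lit 7) (nat_lit 8) (C.cons (nat_lit 396) (C.miq (nat_lit 305436784) (nat_lit 33859718388176089454806913)) (C.cons (nat_lit 388) (C.node (nat_lit 4) (nat_lit 5) (nat_lit 9) (C.cons (nat_lit 816) (C.miq (nat_lit 1494894624) (nat_lit 1859348884744998383826436373)) (C.cons (nat_lit 560) (C.node (nat_lit 4) (nat_lit 6) (nat_lit 9) (C.cons (nat_lit 848) (C.miq (nat_lit 440934505) (nat_lit 1566782140290678046034231885))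 (C.cons (nat_lit 592) (C.node (nat_lit 4) (nat_lit 8) (nat_lit 9) C.nil) C.nil))) C.nil))) C.nil))) C.nil)) C.nil))) C.nil))) C.nil)) (C.cons (nat_lit 518) (C.node (nat_lit 2) (nat_lit 8) (nat_lit 9) (C.cons (nat_lit 772) (C.node (nat_lit 1) (nat_lit 6) (nat_lit 9) (C.cons (nat_lit 834) (C.node (nat_lit 4) (nat_lit 6) (nat_lit 9) (C.cons (nat_lit 592) (C.node (nat_lit 1) (nat_lit 4) (nat_lit 6) (C.cons (nat_lit 90) (C.miq (nat_lit 2033257030) (nat_lit 669748501722319066565837937)) (C.cons (nat_lit 82) (C.node (nat_lit 6) (nat_lit 8) (nat_lit 10) (C.cons (nat_lit 1352) (C.miq (nat_lit 1398933671) (nat_lit 712060351549392620936759169)) (C.cons (nat_lit 1344) (C.node (nat_lit 4) (nat_lit 5) (nat_lit 9) (C.cons (nat_lit 816) (C.node (nat_lit 5) (nat_lit 6) (nat_lit 9) (C.cons (nat_lit 736) (C.node (nat_lit 3) (nat_lit 5) (nat_lit 6) (C.cons (nat_lit 104) (C.node (nat_lit 1) (nat_lit 2) (nat_lit 6) (C.cons (nat_lit 102) (C.miq (nat_lit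 2840725345) (nat_lit 662510368282673373650485443)) (C.cons (nat_lit 70) (C.node (nat_lit 1) (nat_lit 5) (nat_lit 6) (C.cons (nat_lit 98) (C.node (nat_lit 1) (nat_lit 3) (nat_lit 6) C.nil) C.nil)) C.nil))) C.nil)) C.nil)) C.nil)) C.nil))) C.nil))) C.nil)) (C.cons (nat_lit 578) (C.node (nat_lit 1) (nat_lit 8) (nat_lit 9) (C.cons (nat_lit 770) (C.node (nat_lit 2) (nat_lit 3) (nat_lit 4) (C.cons (nat_lit 30) (C.node (nat_lit 2) (nat_lit 4) (nat_lit 5) (C.cons (nat_lit 52) (C.node (nat_lit 2) (nat_lit 3) (nat_lit 7) (C.cons (nat_lit 396) (C.miq (nat_lit 1445137016) (nat_lit 712062786756048764044838785)) (C.cons (nat_lit 140) (C.node (nat_lit 2) (nat_lit 3) (nat_lit 8) (C.cons (nat_lit 1292) (C.miq (nat_lit 2202640912) (nat_lit 1885959715157852907384275975)) (C.cons (nat_lit 268) (C.node (nat_lit 2) (nat_lit 3) (nat_lit 10) C.nil) C.nil))) C.nil))) C.nil)) (C.cons (nat_lit 28) (C.node (nat_lit 1) (nat_lit 2) (nat_lit 4) (C.cons (nat_lit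 54) (C.node (nat_lit 4) (nat_lit 5) (nat_lit 7) (C.cons (nat_lit 432) (C.miq (nat_lit 609458048) (nat_lit 67710711216453988783818625)) (C.cons (nat_lit 176) (C.node (nat_lit 4) (nat_lit 5) (nat_lit 8) (C.cons (nat_lit 816) (C.miq (nat_lit 2840660034) (nat_lit 669763923200361492292960533))
  (C.cons (nat_lit 304) (C.node (nat_lit 4) (nat_lit 5) (nat_lit 9) (C.cons (nat_lit 560) (C.node (nat_lit 1) (nat_lit 5) (nat_lit 10) C.nil) C.nil)) C.nil))) C.nil))) (C.cons (nat_lit 22) (C.node (nat_lit 2) (nat_lit 4) (nat_lit 5) C.nil) C.nil))) C.nil))) C.nil)) C.nil))) C.nil)) C.nil))) C.nil))) C.nil))) C.nil)) (C.cons (nat_lit 522) (C.node (nat_lit 3) (nat_lit 5) (nat_lit 9) (C.cons (nat_lit 552) (C.node (nat_lit 1) (nat_lit 7) (nat_lit 9) (C.cons (nat_lit 674) (C.node (nat_lit 6) (nat_lit 7) (nat_lit 9) (C.cons (nat_lit 704) (C.node (nat_lit 2) (nat_lit 5) (nat_lit 9) (C.cons (nat_lit 804) (C.miq (nat_lit 1500742208) (nat_lit 783389410019578312910242069))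 (C.cons (nat_lit 548) (C.node (nat_lit 4) (nat_lit 5) (nat_lit 7) (C.cons (nat_lit 432) (C.miq (nat_lit 1469285408) (nat_lit 783389409914869621602451733)) (C.cons (nat_lit 176) (C.node (nat_lit 2) (nat_lit 4) (nat_lit 5) (C.cons (nat_lit 62) (C.miq (nat_lit 2033322565) (nat_lit 712060352006508876392170609)) (C.cons (nat_lit 60) (C.miq (nat_lit 2033322565) (nat_lit 712060352006508876392039537)) (C.cons (nat_lit 54) (C.miq (nat_lit 2270300436) (nat_lit 199477870525238556444983827)) (C.cons (nat_lit 52) (C.node (nat_lit 1) (nat_lit 2) (nat_lit 4) (C.cons (nat_lit 30) (C.node (nat_lit 3) (nat_lit 4) (nat_lit 5) (C.cons (nat_lit 56) (C.node (nat_lit 1) (nat_lit 2) (nat_lit 9) (C.cons (nat_lit 774) (C.miq (nat_lit 2031290404) (nat_lit 631062100731396461325844757)) (C.cons (nat_lit 518) (C.node (nat_lit 2) (nat_lit 8) (nat_lit 9) (C.cons (nat_lit 772) (C.node (nat_lit 1) (nat_lit 4) (nat_lit 7) (C.cons (nat_lit 402) (C.miq (nat_lit 1899594784)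 (nat_lit 631094714147355094770581781)) (C.cons (nat_lit 146) (C.node (nat_lit 1) (nat_lit 7) (nat_lit 10) (C.cons (nat_lit 1162) (C.miq (nat_lit 2268334610) (nat_lit 184970760689865102290977799)) C.nil)) C.nil))) C.nil)) C.nil))) C.nil)) (C.cons (nat_lit 22) (C.node (nat_lit 2) (nat_lit 3) (nat_lit 4) (C.cons (nat_lit 28) (C.node (nat_lit 1) (nat_lit 2) (nat_lit 9) (C.cons (nat_lit 774) (C.node (nat_lit 1) (nat_lit 6) (nat_lit 9) (C.cons (nat_lit 578) (C.node (nat_lit 4) (nat_lit 5) (nat_lit 9) (C.cons (nat_lit 816) (C.miq (nat_lit 1494894624) (nat_lit 1859348884744998383826436373)) C.nil)) C.nil)) (C.cons (nat_lit 518) (C.node (nat_lit 2) (nat_lit 8) (nat_lit 9) (C.cons (nat_lit 772) (C.node (nat_lit 3) (nat_lit 4) (nat_lit 5) C.nil) C.nil)) C.nil))) C.nil)) C.nil))) C.nil))))) C.nil))) C.nil))) C.nil)) (C.cons (nat_lit 642) (C.node (nat_lit 4) (nat_lit 5) (nat_lit 9) (C.cons (nat_lit 816) (C.node (nat_lit 4) (nat_lit 6) (nat_lit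 9) (C.cons (nat_lit 592) (C.node (nat_lit 2) (nat_lit 8) (nat_lit 9) (C.cons (nat_lit 774) (C.miq (nat_lit 1494894624) (nat_lit 1859348884744998383826436373)) (C.cons (nat_lit 772) (C.node (nat_lit 2) (nat_lit 4) (nat_lit 5) (C.cons (nat_lit 62) (C.miq (nat_lit 2033322565) (nat_lit 712060352006508876392170609)) (C.cons (nat_lit 60) (C.miq (nat_lit 2033322565) (nat_lit 712060352006508876392039537)) (C.cons (nat_lit 54) (C.miq (nat_lit 445980804) (nat_lit 1895596681570127477929410837)) (C.cons (nat_lit 52) (C.node (nat_lit 1) (nat_lit 2) (nat_lit 4) (C.cons (nat_lit 30) (C.node (nat_lit 3) (nat_lit 4) (nat_lit 5) (C.cons (nat_lit 56) (C.node (nat_lit 2) (nat_lit 3) (nat_lit 7) (C.cons (nat_lit 396) (C.miq (nat_lit 1445137016) (nat_lit 712062786756048764044838785)) (C.cons (nat_lit 140) (C.node (nat_lit 2) (nat_lit 3) (nat_lit 8) (C.cons (nat_lit 1292) (C.miq (nat_lit 2202640912) (nat_lit 1885959715157852907384275975)) (C.cons (nat_lit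 268) (C.node (nat_lit 2) (nat_lit 8) (nat_lit 10) (C.cons (nat_lit 1316) (C.miq (nat_lit 307497609) (nat_lit 62873938131270210075756417)) (C.cons (nat_lit 1284) (C.node (nat_lit 1) (nat_lit 2) (nat_lit 9) (C.cons (nat_lit 550) (C.node (nat_lit 1) (nat_lit 6) (nat_lit 9) (C.cons (nat_lit 834) (C.node (nat_lit 2) (nat_lit 3) (nat_lit 5) C.nil) C.nil)) C.nil)) C.nil))) C.nil))) C.nil))) C.nil)) (C.cons (nat_lit 22) (C.node (nat_lit 2) (nat_lit 3) (nat_lit 4) (C.cons (nat_lit 28)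
  (C.node (nat_lit 1) (nat_lit 2) (nat_lit 9) (C.cons (nat_lit 550) (C.node (nat_lit 4) (nat_lit 5) (nat_lit 7) (C.cons (nat_lit 178) (C.miq (nat_lit 844564756) (nat_lit 199475582754048214914171411)) (C.cons (nat_lit 176) (C.node (nat_lit 1) (nat_lit 6) (nat_lit 9) (C.cons (nat_lit 834) (C.node (nat_lit 1) (nat_lit 2) (nat_lit 6) (C.cons (nat_lit 70) (C.node (nat_lit 1) (nat_lit 4) (nat_lit 5) (C.cons (nat_lit 50) (C.node (nat_lit 3) (nat_lit 4) (nat_lit 5) C.nil) C.nil)) C.nil)) C.nil)) C.nil))) (C.cons (nat_lit 518) (C.node (nat_lit 2) (nat_lit 5) (nat_lit 9) (C.cons (nat_lit 548) (C.node (nat_lit 3) (nat_lit 4) (nat_lit 5) C.nil) C.nil)) C.nil))) C.nil)) C.nil))) C.nil))))) C.nil))) C.nil)) (C.cons (nat_lit 560) (C.node (nat_lit 4) (nat_lit 6) (nat_lit 7) (C.cons (nat_lit 464) (C.node (nat_lit 4) (nat_lit 6) (nat_lit 9) (C.cons (nat_lit 592) (C.node (nat_lit 4) (nat_lit 8) (nat_lit 9) (C.cons (nat_lit 784) (C.node (nat_lit 1)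 (nat_lit 4) (nat_lit 6) (C.cons (nat_lit 90) (C.miq (nat_lit 2033257030) (nat_lit 631062875494650932975240305)) (C.cons (nat_lit 82) (C.node (nat_lit 3) (nat_lit 4) (nat_lit 6) (C.cons (nat_lit 88) (C.node (nat_lit 2) (nat_lit 7) (nat_lit 8) (C.cons (nat_lit 398) (C.miq (nat_lit 1445137016) (nat_lit 712062786756048764044969857)) (C.cons (nat_lit 396) (C.miq (nat_lit 1445137016) (nat_lit 712062786756048764044838785)) (C.cons (nat_lit 390) (C.miq (nat_lit 2759984753) (nat_lit 334891470946431317351727299)) (C.cons (nat_lit 388) (C.node (nat_lit 1) (nat_lit 2) (nat_lit 7) (C.cons (nat_lit 142) (C.node (nat_lit 3) (nat_lit 7) (nat_lit 8) (C.cons (nat_lit 392) (C.node (nat_lit 1) (nat_lit 4) (nat_lit 7) (C.cons (nat_lit 178) (C.miq (nat_lit 910237783) (nat_lit 99134536811851703754293413)) (C.cons (nat_lit 146) (C.node (nat_lit 4) (nat_lit 5) (nat_lit 7) (C.cons (nat_lit 176) (C.node (nat_lit 1) (nat_lit 7) (nat_lit 10) C.nil) C.nil))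 C.nil))) C.nil)) (C.cons (nat_lit 134) (C.node (nat_lit 2) (nat_lit 3) (nat_lit 7) (C.cons (nat_lit 140) (C.node (nat_lit 1) (nat_lit 4) (nat_lit 7) (C.cons (nat_lit 178) (C.node (nat_lit 1) (nat_lit 7) (nat_lit 10) C.nil) (C.cons (nat_lit 146) (C.node (nat_lit 4) (nat_lit 5) (nat_lit 7) (C.cons (nat_lit 176) (C.node (nat_lit 5) (nat_lit 7) (nat_lit 9) C.nil) C.nil)) C.nil))) C.nil)) C.nil))) C.nil))))) C.nil)) C.nil))) C.nil)) C.nil)) (C.cons (nat_lit 208) (C.node (nat_lit 4) (nat_lit 6) (nat_lit 9) (C.cons (nat_lit 848) (C.node (nat_lit 1) (nat_lit 4) (nat_lit 6) (C.cons (nat_lit 90) (C.miq (nat_lit 2033257030) (nat_lit 631062875494650932975240305)) (C.cons (nat_lit 82) (C.node (nat_lit 3) (nat_lit 4) (nat_lit 6) (C.cons (nat_lit 88) (C.node (nat_lit 5) (nat_lit 7) (nat_lit 9) (C.cons (nat_lit 736) (C.miq (nat_lit 610601111) (nat_lit 1374551700692577744446293889)) (C.cons (nat_lit 672) (C.node (nat_lit 6) (nat_lit 7) (nat_lit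 9) (C.cons (nat_lit 704) (C.node (nat_lit 3) (nat_lit 6) (nat_lit 10) (C.cons (nat_lit 1354) (C.miq (nat_lit 1398933671) (nat_lit 712060351549392629526693761)) (C.cons (nat_lit 1352) (C.miq (nat_lit 1398933671) (nat_lit 712060351549392620936759169)) (C.cons (nat_lit 1098) (C.node (nat_lit 6) (nat_lit 8) (nat_lit 10) C.nil) C.nil)))) C.nil)) C.nil))) C.nil)) C.nil))) (C.cons (nat_lit 592) (C.node (nat_lit 4) (nat_lit 8) (nat_lit 9) (C.cons (nat_lit 784) (C.node (nat_lit 5) (nat_lit 7) (nat_lit 9) (C.cons (nat_lit 736) (C.node (nat_lit 5) (nat_lit 7) (nat_lit 10) (C.cons (nat_lit 1194) (C.miq (nat_lit 395486560) (nat_lit 797910059874879533180847217)) (C.cons (nat_lit 1192) (C.node (nat_lit 1) (nat_lit 7) (nat_lit 10) C.nil) (C.cons (nat_lit 1186) (C.miq (nat_lit 395486560) (nat_lit 797910059872627733367161969)) C.nil)))) (C.cons (nat_lit 672) (C.node (nat_lit 6) (nat_lit 7) (nat_lit 9) (C.cons (nat_lit 704) (C.node (nat_lit 2) (nat_lit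 5) (nat_lit 9) (C.cons (nat_lit 806) (C.miq (nat_lit 1500742208) (nat_lit 783389410020141262863663381)) (C.cons (nat_lit 804) (C.miq (nat_lit 1500742208) (nat_lit 783389410019578312910242069)) (C.cons (nat_lit 550)
  (C.node (nat_lit 2) (nat_lit 8) (nat_lit 9) C.nil) C.nil)))) C.nil)) C.nil))) C.nil)) C.nil))) C.nil))) C.nil))) C.nil))) C.nil)) C.nil))) C.nil))))) (C.cons (nat_lit 646) (C.miq (nat_lit 342003879) (nat_lit 101561685593768563136792449)) (C.cons (nat_lit 644) (C.node (nat_lit 2) (nat_lit 4) (nat_lit 7) (C.cons (nat_lit 150) (C.node (nat_lit 2) (nat_lit 3) (nat_lit 4) (C.cons (nat_lit 60) (C.miq (nat_lit 2033322565) (nat_lit 712060352006508876392039537)) (C.cons (nat_lit 28) (C.node (nat_lit 2) (nat_lit 3) (nat_lit 7) (C.cons (nat_lit 396) (C.miq (nat_lit 1445137016) (nat_lit 712062786756048764044838785)) (C.cons (nat_lit 140) (C.node (nat_lit 2) (nat_lit 7) (nat_lit 8) (C.cons (nat_lit 388) (C.node (nat_lit 2) (nat_lit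 4) (nat_lit 5) (C.cons (nat_lit 564) (C.node (nat_lit 4) (nat_lit 7) (nat_lit 9) (C.cons (nat_lit 720) (C.miq (nat_lit 308546169) (nat_lit 101559564358937931343202177)) (C.cons (nat_lit 656) (C.node (nat_lit 1) (nat_lit 2) (nat_lit 9) (C.cons (nat_lit 774) (C.node (nat_lit 1) (nat_lit 6) (nat_lit 9) (C.cons (nat_lit 610) (C.miq (nat_lit 369661250) (nat_lit 388079466047913635463103028)) (C.cons (nat_lit 578) (C.node (nat_lit 2) (nat_lit 6) (nat_lit 8) (C.cons (nat_lit 356) (C.miq (nat_lit 275289170) (nat_lit 388079466025677112308138548)) (C.cons (nat_lit 324) (C.node (nat_lit 2) (nat_lit 5) (nat_lit 8) (C.cons (nat_lit 1316) (C.miq (nat_lit 1377085584) (nat_lit 181359847260630577656825729)) (C.cons (nat_lit 292) (C.node (nat_lit 4) (nat_lit 6) (nat_lit 9) (C.cons (nat_lit 848) (C.miq (nat_lit 440934505) (nat_lit 1566782140290678046034231885)) (C.cons (nat_lit 592) (C.node (nat_lit 4) (nat_lit 8) (nat_lit 9) (C.cons (nat_lit 784)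 (C.node (nat_lit 2) (nat_lit 5) (nat_lit 10) (C.cons (nat_lit 1068) (C.node (nat_lit 2) (nat_lit 8) (nat_lit 10) C.nil) C.nil)) C.nil)) C.nil))) C.nil))) C.nil))) C.nil))) (C.cons (nat_lit 518) (C.node (nat_lit 2) (nat_lit 8) (nat_lit 9) (C.cons (nat_lit 772) (C.node (nat_lit 3) (nat_lit 4) (nat_lit 5) (C.cons (nat_lit 58) (C.node (nat_lit 1) (nat_lit 3) (nat_lit 9) (C.cons (nat_lit 650) (C.miq (nat_lit 1680935575) (nat_lit 70121294972786614207121281)) (C.cons (nat_lit 522) (C.node (nat_lit 1) (nat_lit 2) (nat_lit 3) (C.cons (nat_lit 270) (C.node (nat_lit 1) (nat_lit 3) (nat_lit 6) (C.cons (nat_lit 1098) (C.miq (nat_lit 2225152099) (nat_lit 1259705684737316953621398093)) (C.cons (nat_lit 74) (C.node (nat_lit 3) (nat_lit 4) (nat_lit 6) (C.cons (nat_lit 344) (C.miq (nat_lit 440934499) (nat_lit 1566772843131664896387187277)) (C.cons (nat_lit 88) (C.node (nat_lit 3) (nat_lit 4) (nat_lit 8) (C.cons (nat_lit 280) (C.node (nat_lit 3)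 (nat_lit 6) (nat_lit 10) (C.cons (nat_lit 1352) (C.miq (nat_lit 1398933671) (nat_lit 712060351549392620936759169)) C.nil)) C.nil)) C.nil))) C.nil))) (C.cons (nat_lit 14) (C.node (nat_lit 1) (nat_lit 4) (nat_lit 6) (C.cons (nat_lit 338) (C.node (nat_lit 3) (nat_lit 4) (nat_lit 6) (C.cons (nat_lit 88) (C.node (nat_lit 3) (nat_lit 4) (nat_lit 8) (C.cons (nat_lit 280) (C.node (nat_lit 4) (nat_lit 6) (nat_lit 7) C.nil) C.nil)) C.nil)) (C.cons (nat_lit 82) (C.node (nat_lit 1) (nat_lit 4) (nat_lit 8) (C.cons (nat_lit 274) (C.node (nat_lit 2) (nat_lit 3) (nat_lit 5) (C.cons (nat_lit 44) (C.node (nat_lit 2) (nat_lit 3) (nat_lit 8) C.nil) C.nil)) C.nil)) C.nil))) C.nil))) C.nil))) (C.cons (nat_lit 56) (C.node (nat_lit 1) (nat_lit 4) (nat_lit 5) (C.cons (nat_lit 306) (C.node (nat_lit 4) (nat_lit 5) (nat_lit 7) (C.cons (nat_lit 176) (C.node (nat_lit 1) (nat_lit 3) (nat_lit 4) (C.cons (nat_lit 90) (C.miq (nat_lit 2753008480) (nat_lit 181374309576661322483040845))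 (C.cons (nat_lit 26) (C.node (nat_lit 1) (nat_lit 4) (nat_lit 6) (C.cons (nat_lit 82) (C.node (nat_lit 5) (nat_lit 8) (nat_lit 10) (C.cons (nat_lit 1316) (C.node (nat_lit 2) (nat_lit 3) (nat_lit 10) C.nil) C.nil)) C.nil)) C.nil))) C.nil)) (C.cons (nat_lit 50) (C.node (nat_lit 4) (nat_lit 5) (nat_lit 7) (C.cons (nat_lit 432) (C.node (nat_lit 4) (nat_lit 6) (nat_lit 7) (C.cons (nat_lit 208)
  (C.node (nat_lit 4) (nat_lit 6) (nat_lit 9) (C.cons (nat_lit 848) (C.miq (nat_lit 1683134576) (nat_lit 681845027633602905147508609)) (C.cons (nat_lit 592) (C.node (nat_lit 4) (nat_lit 8) (nat_lit 9) (C.cons (nat_lit 784) (C.node (nat_lit 6) (nat_lit 7) (nat_lit 9) (C.cons (nat_lit 736) (C.miq (nat_lit 1698862976) (nat_lit 681845027602077707763255169)) C.nil)) C.nil)) C.nil))) C.nil)) (C.cons (nat_lit 176) (C.node (nat_lit 4) (nat_lit 5) (nat_lit 8) (C.cons (nat_lit 304) (C.node (nat_lit 4) (nat_lit 6) (nat_lit 7) (C.cons (nat_lit 464) (C.node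 (nat_lit 4) (nat_lit 6) (nat_lit 9) (C.cons (nat_lit 592) (C.node (nat_lit 4) (nat_lit 8) (nat_lit 9) C.nil) C.nil)) (C.cons (nat_lit 208) (C.node (nat_lit 4) (nat_lit 7) (nat_lit 8) C.nil) C.nil))) C.nil)) C.nil))) C.nil))) C.nil))) C.nil)) C.nil))) C.nil))) (C.cons (nat_lit 52) (C.node (nat_lit 2) (nat_lit 4) (nat_lit 9) (C.cons (nat_lit 532) (C.ref (nat_lit 140) (nat_lit 11649936536080)) C.nil)) C.nil))) C.nil)) C.nil))) C.nil))) (C.cons (nat_lit 148) (C.node (nat_lit 2) (nat_lit 4) (nat_lit 9) (C.cons (nat_lit 564) (C.node (nat_lit 4) (nat_lit 7) (nat_lit 9) (C.cons (nat_lit 720) (C.miq (nat_lit 308546169) (nat_lit 101559564358937931343202177)) (C.cons (nat_lit 656) (C.node (nat_lit 1) (nat_lit 2) (nat_lit 4) (C.cons (nat_lit 30) (C.node (nat_lit 3) (nat_lit 4) (nat_lit 5) (C.cons (nat_lit 56) (C.node (nat_lit 2) (nat_lit 3) (nat_lit 7) (C.cons (nat_lit 396) (C.miq (nat_lit 1445137016) (nat_lit 712062786756048764044838785))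 (C.cons (nat_lit 140) (C.node (nat_lit 1) (nat_lit 2) (nat_lit 9) (C.cons (nat_lit 774) (C.miq (nat_lit 2184679744) (nat_lit 169285051159275441340613139)) (C.cons (nat_lit 518) (C.node (nat_lit 2) (nat_lit 8) (nat_lit 9) (C.cons (nat_lit 772) (C.node (nat_lit 2) (nat_lit 3) (nat_lit 8) (C.cons (nat_lit 1292) (C.miq (nat_lit 2202640912) (nat_lit 1885959715157852907384275975)) (C.cons (nat_lit 268) (C.node (nat_lit 1) (nat_lit 4) (nat_lit 7) (C.cons (nat_lit 434) (C.miq (nat_lit 1649871169) (nat_lit 199476357517299370861658643)) (C.cons (nat_lit 402) (C.miq (nat_lit 2166977584) (nat_lit 626259010868896578071756953)) (C.cons (nat_lit 178) (C.miq (nat_lit 1649871169) (nat_lit 199476357517299370844881427)) (C.cons (nat_lit 146) (C.node (nat_lit 1) (nat_lit 2) (nat_lit 7) (C.cons (nat_lit 390) (C.node (nat_lit 2) (nat_lit 8) (nat_lit 10) (C.cons (nat_lit 1316) (C.miq (nat_lit 1343792754) (nat_lit 313136063515427844083025092)) C.nil))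 (C.cons (nat_lit 134) (C.node (nat_lit 2) (nat_lit 7) (nat_lit 8) (C.cons (nat_lit 388) (C.node (nat_lit 2) (nat_lit 3) (nat_lit 10) (C.cons (nat_lit 1068) (C.node (nat_lit 2) (nat_lit 8) (nat_lit 10) C.nil) C.nil)) C.nil)) C.nil))) C.nil))))) C.nil))) C.nil)) C.nil))) C.nil))) C.nil)) (C.cons (nat_lit 22) (C.node (nat_lit 2) (nat_lit 3) (nat_lit 4) (C.cons (nat_lit 28) (C.node (nat_lit 1) (nat_lit 2) (nat_lit 9) (C.cons (nat_lit 774) (C.node (nat_lit 1) (nat_lit 6) (nat_lit 9) (C.cons (nat_lit 610) (C.miq (nat_lit 369661250) (nat_lit 388079466047913635463103028)) (C.cons (nat_lit 578) (C.node (nat_lit 2) (nat_lit 6) (nat_lit 8) (C.cons (nat_lit 356) (C.miq (nat_lit 275289170) (nat_lit 388079466025677112308138548)) (C.cons (nat_lit 324) (C.node (nat_lit 2) (nat_lit 5) (nat_lit 8) (C.cons (nat_lit 1316) (C.miq (nat_lit 1377085584) (nat_lit 26617342349958043294435201)) (C.cons (nat_lit 292) (C.node (nat_lit 2) (nat_lit 7) (nat_lit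 8) (C.cons (nat_lit 396) (C.miq (nat_lit 305436784) (nat_lit 33859718388176089454806913)) (C.cons (nat_lit 388) (C.node (nat_lit 4) (nat_lit 6) (nat_lit 9) (C.cons (nat_lit 848) (C.miq (nat_lit 440934505) (nat_lit 1566782140290678046034231885)) (C.cons (nat_lit 592) (C.node (nat_lit 4) (nat_lit 8) (nat_lit 9) (C.cons (nat_lit 784) (C.node (nat_lit 1) (nat_lit 4) (nat_lit 7) (C.cons (nat_lit 434) (C.miq (nat_lit 840173959) (nat_lit 26599190549157205020641153)) (C.cons (nat_lit 402) (C.miq (nat_lit 840173959) (nat_lit 26599190549157205018544001)) (C.cons (nat_lit 178)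
  (C.miq (nat_lit 1649871169) (nat_lit 199476357517299370844881427)) (C.cons (nat_lit 146) (C.node (nat_lit 1) (nat_lit 2) (nat_lit 6) (C.cons (nat_lit 70) (C.node (nat_lit 2) (nat_lit 5) (nat_lit 6) C.nil) C.nil)) C.nil))))) C.nil)) C.nil))) C.nil))) C.nil))) C.nil))) C.nil))) (C.cons (nat_lit 518) (C.node (nat_lit 2) (nat_lit 8) (nat_lit 9) (C.cons (nat_lit 772) (C.node (nat_lit 3) (nat_lit 4) (nat_lit 5) (C.cons (nat_lit 58) (C.node (nat_lit 1) (nat_lit 3) (nat_lit 9) (C.cons (nat_lit 650) (C.miq (nat_lit 1680935575) (nat_lit 70121294972786614207121281)) (C.cons (nat_lit 522) (C.node (nat_lit 1) (nat_lit 4) (nat_lit 6) (C.cons (nat_lit 338) (C.node (nat_lit 1) (nat_lit 4) (nat_lit 7) (C.cons (nat_lit 146) (C.node (nat_lit 6) (nat_lit 8) (nat_lit 10) (C.cons (nat_lit 1352) (C.miq (nat_lit 1398933671) (nat_lit 712060351549392620936759169)) C.nil)) C.nil)) (C.cons (nat_lit 82) (C.node (nat_lit 1) (nat_lit 4) (nat_lit 7) (C.cons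 (nat_lit 402) (C.node (nat_lit 4) (nat_lit 5) (nat_lit 7) (C.cons (nat_lit 176) (C.node (nat_lit 4) (nat_lit 5) (nat_lit 8) (C.cons (nat_lit 304) (C.node (nat_lit 4) (nat_lit 6) (nat_lit 7) C.nil) C.nil)) C.nil)) (C.cons (nat_lit 146) (C.node (nat_lit 1) (nat_lit 4) (nat_lit 8) C.nil) C.nil))) C.nil))) C.nil))) (C.cons (nat_lit 56) (C.node (nat_lit 4) (nat_lit 6) (nat_lit 7) (C.cons (nat_lit 464) (C.node (nat_lit 4) (nat_lit 6) (nat_lit 9) (C.cons (nat_lit 592) (C.node (nat_lit 4) (nat_lit 8) (nat_lit 9) (C.cons (nat_lit 784) (C.node (nat_lit 1) (nat_lit 4) (nat_lit 6) (C.cons (nat_lit 90) (C.miq (nat_lit 2051082550) (nat_lit 1259704301694258103822451277)) C.nil)) C.nil)) C.nil)) (C.cons (nat_lit 208) (C.node (nat_lit 4) (nat_lit 6) (nat_lit 9) (C.cons (nat_lit 848) (C.node (nat_lit 1) (nat_lit 4) (nat_lit 6) (C.cons (nat_lit 90) (C.miq (nat_lit 2051082550) (nat_lit 1259704301694258103822451277)) (C.cons (nat_lit 82) (C.node (nat_lit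 3) (nat_lit 4) (nat_lit 6) C.nil) C.nil))) (C.cons (nat_lit 592) (C.node (nat_lit 4) (nat_lit 8) (nat_lit 9) (C.cons (nat_lit 784) (C.node (nat_lit 6) (nat_lit 7) (nat_lit 9) C.nil) C.nil)) C.nil))) C.nil))) C.nil))) C.nil)) C.nil))) C.nil)) C.nil))) C.nil))) (C.cons (nat_lit 532) (C.ref (nat_lit 141) (nat_lit 11649936536080)) C.nil))) C.nil))) C.nil)))) List.nil)

theorem ok11_142 : okL par11 (nat_lit 143) c11_142 (nat_lit 142) = true := by decide +kernel

noncomputable def c11_143 : List C :=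
  (List.cons (C.node (nat_lit 1) (nat_lit 4) (nat_lit 10) (C.cons (nat_lit 1298) (C.node (nat_lit 1) (nat_lit 4) (nat_lit 6) (C.cons (nat_lit 90) (C.miq (nat_lit 2051082550) (nat_lit 1569189311515603172547232333)) (C.cons (nat_lit 82) (C.node (nat_lit 3) (nat_lit 8) (nat_lit 9) (C.cons (nat_lit 778) (C.miq (nat_lit 910266536) (nat_lit 99146268941082583102523265)) (C.cons (nat_lit 776) (C.node (nat_lit 6) (nat_lit 8) (nat_lit 10) (C.cons (nat_lit 1352) (C.miq (nat_lit 1398933671) (nat_lit 712060351549392620936759169)) (C.cons (nat_lit 1344) (C.node (nat_lit 3) (nat_lit 8) (nat_lit 10) (C.cons (nat_lit 1292) (C.miq (nat_lit 1228410922) (nat_lit 938150380044225657023759367)) (C.cons (nat_lit 1288) (C.node (nat_lit 4) (nat_lit 6) (nat_lit 9) (C.cons (nat_lit 848) (C.miq (nat_lit 342010000) (nat_lit 101568787806127007164336001)) (C.cons (nat_lit 720) (C.miq (nat_lit 641836944) (nat_lit 99150936144942150871877505)) (C.cons (nat_lit 592)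 (C.node (nat_lit 2) (nat_lit 3) (nat_lit 4) (C.cons (nat_lit 62) (C.miq (nat_lit 2033322565) (nat_lit 712060352006508876392170609)) (C.cons (nat_lit 60) (C.miq (nat_lit 2033322565) (nat_lit 712060352006508876392039537)) (C.cons (nat_lit 30) (C.miq (nat_lit 2218369312) (nat_lit 1885959715159541757248340999)) (C.cons (nat_lit 28) (C.node (nat_lit 1) (nat_lit 3) (nat_lit 4) (C.cons (nat_lit 58) (C.node (nat_lit 1) (nat_lit 3) (nat_lit 9) (C.cons (nat_lit 650) (C.miq (nat_lit 1680935575) (nat_lit 70121294972786614207121281)) (C.cons (nat_lit 522) (C.node (nat_lit 1) (nat_lit 9) (nat_lit 10) (C.cons (nat_lit 1570) (C.miq (nat_lit 2031290964) (nat_lit 631062100731399880121648241)) (C.cons (nat_lit 1538) (C.node (nat_lit 5) (nat_lit 9) (nat_lit 10) (C.cons (nat_lit 1568) (C.node (nat_lit 1) (nat_lit 5) (nat_lit 10) (C.cons (nat_lit 1186) (C.miq (nat_lit 605358247) (nat_lit 70120741328394797703104385)) (C.cons (nat_lit 1058) (C.node (nat_lit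 5) (nat_lit 7) (nat_lit 10) (C.cons (nat_lit 1192) (C.miq (nat_lit 1931060544) (nat_lit 631094714369720446627284081)) (C.cons (nat_lit 1184) (C.node (nat_lit 2) (nat_lit 7) (nat_lit 8) (C.cons (nat_lit 398) (C.miq (nat_lit 625045672) (nat_lit 70125039388238083154642817)) (C.cons (nat_lit 396) (C.miq (nat_lit 1445137016) (nat_lit 712062786756048764044838785)) (C.cons (nat_lit 390) (C.miq (nat_lit 625045672) (nat_lit 70124891814285493478229889)) (C.cons (nat_lit 388) (C.node (nat_lit 1) (nat_lit 2) (nat_lit 4) (C.cons (nat_lit 150) (C.node (nat_lit 2) (nat_lit 3) (nat_lit 7) (C.cons (nat_lit 140) (C.node (nat_lit 2) (nat_lit 7) (nat_lit 9) (C.cons (nat_lit 644) (C.node (nat_lit 1) (nat_lit 2) (nat_lit 3) (C.cons (nat_lit 270) (C.node (nat_lit 1) (nat_lit 3) (nat_lit 6) (C.cons (nat_lit 1098) (C.node (nat_lit 1) (nat_lit 3) (nat_lit 7) (C.cons (nat_lit 138) (C.node (nat_lit 1) (nat_lit 7) (nat_lit 10) (C.cons (nat_lit 1154) (C.node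 (nat_lit 3) (nat_lit 7) (nat_lit 10) C.nil) C.nil)) C.nil)) (C.cons (nat_lit 74) (C.miq (nat_lit 2704689184) (nat_lit 89481484964850046138646805)) C.nil))) (C.cons (nat_lit 14) (C.node (nat_lit 2) (nat_lit 3) (nat_lit 8) (C.cons (nat_lit 268) (C.node (nat_lit 1) (nat_lit 6) (nat_lit 10) (C.cons (nat_lit 1098) (C.miq (nat_lit 2184265834) (nat_lit 16948905426383581800432753)) (C.cons (nat_lit 1090) (C.node (nat_lit 3) (nat_lit 6) (nat_lit 10) C.nil) C.nil))) C.nil)) C.nil))) C.nil)) C.nil)) (C.cons (nat_lit 22) (C.node (nat_lit 1) (nat_lit 4) (nat_lit 7) (C.cons (nat_lit 146) (C.node (nat_lit 1) (nat_lit 6) (nat_lit 10) (C.cons (nat_lit 1098) (C.node (nat_lit 1) (nat_lit 7) (nat_lit 10) (C.cons (nat_lit 1154) (C.node (nat_lit 3) (nat_lit 7) (nat_lit 10) C.nil) C.nil)) (C.cons (nat_lit 1090) (C.node (nat_lit 3) (nat_lit 6) (nat_lit 10) (C.cons (nat_lit 1096) (C.node (nat_lit 1) (nat_lit 3) (nat_lit 10) (C.cons (nat_lit 1034) (C.node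 (nat_lit 1) (nat_lit 7) (nat_lit 10) C.nil) C.nil)) C.nil)) C.nil))) C.nil)) C.nil))) C.nil))))) C.nil))) C.nil))) C.nil)) C.nil))) C.nil))) (C.cons (nat_lit 26) (C.node (nat_lit 3) (nat_lit 4) (nat_lit 5)
  (C.cons (nat_lit 56) (C.node (nat_lit 1) (nat_lit 6) (nat_lit 10) (C.cons (nat_lit 1098) (C.node (nat_lit 1) (nat_lit 7) (nat_lit 10) (C.cons (nat_lit 1186) (C.miq (nat_lit 1362131554) (nat_lit 13301228062367121289315524)) (C.cons (nat_lit 1154) (C.node (nat_lit 2) (nat_lit 3) (nat_lit 10) (C.cons (nat_lit 1068) (C.miq (nat_lit 1461330019) (nat_lit 1395120097004396998159893069)) (C.cons (nat_lit 1036) (C.node (nat_lit 2) (nat_lit 3) (nat_lit 5) (C.cons (nat_lit 46) (C.miq (nat_lit 2184265834) (nat_lit 55634531654051715391030385)) (C.cons (nat_lit 44) (C.node (nat_lit 3) (nat_lit 5) (nat_lit 6) (C.cons (nat_lit 232) (C.miq (nat_lit 1403155984) (nat_lit 1252450192898834897610145987)) (C.cons (nat_lit 104) (C.node (nat_lit 1)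 (nat_lit 2) (nat_lit 3) (C.cons (nat_lit 398) (C.miq (nat_lit 1647683456) (nat_lit 53213710354456672450709377)) (C.cons (nat_lit 270) (C.node (nat_lit 2) (nat_lit 3) (nat_lit 7) (C.cons (nat_lit 140) (C.node (nat_lit 2) (nat_lit 7) (nat_lit 8) (C.cons (nat_lit 388) (C.node (nat_lit 3) (nat_lit 4) (nat_lit 6) (C.cons (nat_lit 344) (C.node (nat_lit 3) (nat_lit 6) (nat_lit 7) (C.cons (nat_lit 200) (C.node (nat_lit 3) (nat_lit 7) (nat_lit 8) (C.cons (nat_lit 392) (C.node (nat_lit 4) (nat_lit 6) (nat_lit 7) C.nil) C.nil)) C.nil)) (C.cons (nat_lit 88) (C.miq (nat_lit 2221088929) (nat_lit 106390452824960720951706631)) C.nil))) C.nil)) C.nil)) (C.cons (nat_lit 142) (C.miq (nat_lit 2184265834) (nat_lit 171691410337056116162823281)) (C.cons (nat_lit 14) (C.miq (nat_lit 2184265834) (nat_lit 16948905426383581800432753)) C.nil))))) C.nil))) C.nil))) C.nil))) C.nil))) (C.cons (nat_lit 1090) (C.node (nat_lit 3) (nat_lit 6) (nat_lit 10) (C.cons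 (nat_lit 1096) (C.node (nat_lit 2) (nat_lit 3) (nat_lit 8) (C.cons (nat_lit 398) (C.miq (nat_lit 1445137016) (nat_lit 712062786756048764044969857)) (C.cons (nat_lit 396) (C.miq (nat_lit 1445137016) (nat_lit 712062786756048764044838785)) (C.cons (nat_lit 270) (C.miq (nat_lit 916529224) (nat_lit 1317734124166639346754126101)) (C.cons (nat_lit 268) (C.node (nat_lit 3) (nat_lit 4) (nat_lit 6) (C.cons (nat_lit 344) (C.miq (nat_lit 405972064) (nat_lit 324011138615216610646754417)) (C.cons (nat_lit 88) (C.node (nat_lit 3) (nat_lit 4) (nat_lit 8) (C.cons (nat_lit 280) (C.node (nat_lit 1) (nat_lit 9) (nat_lit 10) (C.cons (nat_lit 1570) (C.node (nat_lit 1) (nat_lit 3) (nat_lit 9) (C.cons (nat_lit 650) (C.miq (nat_lit 1362405744) (nat_lit 31453045699910671477049217)) (C.cons (nat_lit 522) (C.node (nat_lit 1) (nat_lit 7) (nat_lit 9) (C.cons (nat_lit 646) (C.miq (nat_lit 342003879) (nat_lit 101561685593768563136792449)) (C.cons (nat_lit 642)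 (C.node (nat_lit 1) (nat_lit 3) (nat_lit 10) (C.cons (nat_lit 1162) (C.node (nat_lit 5) (nat_lit 7) (nat_lit 10) C.nil) C.nil)) C.nil))) C.nil))) (C.cons (nat_lit 1538) (C.node (nat_lit 5) (nat_lit 9) (nat_lit 10) (C.cons (nat_lit 1568) (C.node (nat_lit 2) (nat_lit 3) (nat_lit 7) (C.cons (nat_lit 142) (C.node (nat_lit 2) (nat_lit 7) (nat_lit 8) (C.cons (nat_lit 388) (C.node (nat_lit 1) (nat_lit 2) (nat_lit 4) (C.cons (nat_lit 54) (C.miq (nat_lit 2166858832) (nat_lit 171702902945997690566411377)) (C.cons (nat_lit 22) (C.node (nat_lit 1) (nat_lit 4) (nat_lit 5) (C.cons (nat_lit 178) (C.miq (nat_lit 1678968178) (nat_lit 31442936762277586501763237)) (C.cons (nat_lit 50) (C.node (nat_lit 1) (nat_lit 4) (nat_lit 7) C.nil) C.nil))) C.nil))) C.nil)) (C.cons (nat_lit 140) (C.node (nat_lit 1) (nat_lit 2) (nat_lit 3) (C.cons (nat_lit 46) (C.node (nat_lit 2) (nat_lit 3) (nat_lit 10) C.nil) (C.cons (nat_lit 14) (C.node (nat_lit 2) (nat_lit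 3) (nat_lit 5) (C.cons (nat_lit 44) (C.node (nat_lit 2) (nat_lit 3) (nat_lit 10) C.nil) C.nil)) C.nil))) C.nil))) C.nil)) C.nil))) C.nil)) C.nil))) C.nil))))) C.nil)) C.nil))) C.nil)) C.nil))) C.nil))))) C.nil)))) C.nil))) C.nil))) C.nil))) C.nil))) (C.cons (nat_lit 1042) (C.node (nat_lit 4) (nat_lit 8) (nat_lit 10) (C.cons (nat_lit 1296) (C.node (nat_lit 1) (nat_lit 9) (nat_lit 10) (C.cons (nat_lit 1570)
  (C.node (nat_lit 5) (nat_lit 7) (nat_lit 10) (C.cons (nat_lit 1192) (C.miq (nat_lit 1359456579) (nat_lit 235762523785706544926623256)) (C.cons (nat_lit 1184) (C.node (nat_lit 1) (nat_lit 7) (nat_lit 9) (C.cons (nat_lit 650) (C.miq (nat_lit 929730820) (nat_lit 1474918277033562152497119763)) (C.cons (nat_lit 646) (C.miq (nat_lit 342003879) (nat_lit 101561685593768563136792449)) (C.cons (nat_lit 642) (C.node (nat_lit 3) (nat_lit 4) (nat_lit 5) (C.cons (nat_lit 62) (C.miq (nat_lit 932266149) (nat_lit 776131519933798422325363825))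 (C.cons (nat_lit 60) (C.miq (nat_lit 2033322565) (nat_lit 712060352006508876392039537)) (C.cons (nat_lit 58) (C.miq (nat_lit 932266149) (nat_lit 776131446146822127487157361)) (C.cons (nat_lit 56) (C.node (nat_lit 1) (nat_lit 2) (nat_lit 9) (C.cons (nat_lit 774) (C.node (nat_lit 1) (nat_lit 3) (nat_lit 9) (C.cons (nat_lit 522) (C.node (nat_lit 1) (nat_lit 6) (nat_lit 9) (C.cons (nat_lit 578) (C.node (nat_lit 3) (nat_lit 8) (nat_lit 9) (C.cons (nat_lit 776) (C.node (nat_lit 1) (nat_lit 2) (nat_lit 6) (C.cons (nat_lit 102) (C.miq (nat_lit 1158810264) (nat_lit 123315543668844385035224961)) (C.cons (nat_lit 70) (C.node (nat_lit 2) (nat_lit 3) (nat_lit 4) (C.cons (nat_lit 30) (C.miq (nat_lit 1361357184) (nat_lit 36288748978369720759945089)) (C.cons (nat_lit 28) (C.node (nat_lit 2) (nat_lit 5) (nat_lit 9) (C.cons (nat_lit 564) (C.miq (nat_lit 306550794) (nat_lit 681863123868709400284825473)) (C.cons (nat_lit 548) (C.node (nat_lit 2) (nat_lit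 4) (nat_lit 5) (C.cons (nat_lit 54) (C.node (nat_lit 1) (nat_lit 4) (nat_lit 7) (C.cons (nat_lit 402) (C.miq (nat_lit 840173959) (nat_lit 65284816776825338609141633)) (C.cons (nat_lit 146) (C.node (nat_lit 2) (nat_lit 3) (nat_lit 5) (C.cons (nat_lit 1068) (C.miq (nat_lit 2320632084) (nat_lit 1291137885637252549495357971)) (C.cons (nat_lit 44) (C.node (nat_lit 3) (nat_lit 5) (nat_lit 10) (C.cons (nat_lit 1064) (C.node (nat_lit 2) (nat_lit 3) (nat_lit 10) (C.cons (nat_lit 1292) (C.miq (nat_lit 1384780809) (nat_lit 1561961120345497456290628115)) (C.cons (nat_lit 1036) (C.node (nat_lit 2) (nat_lit 3) (nat_lit 8) (C.cons (nat_lit 396) (C.miq (nat_lit 305436784) (nat_lit 33859718388176089454806913)) (C.cons (nat_lit 268) (C.node (nat_lit 2) (nat_lit 7) (nat_lit 8) (C.cons (nat_lit 388) (C.node (nat_lit 1) (nat_lit 2) (nat_lit 3) (C.cons (nat_lit 14) (C.node (nat_lit 1) (nat_lit 2) (nat_lit 7) C.nil) C.nil)) C.nil)) C.nil))) C.nil)))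 C.nil)) C.nil))) C.nil))) (C.cons (nat_lit 52) (C.miq (nat_lit 306550794) (nat_lit 62893104226019262835263361)) C.nil))) C.nil))) C.nil))) C.nil))) C.nil)) C.nil)) C.nil)) (C.cons (nat_lit 518) (C.node (nat_lit 1) (nat_lit 3) (nat_lit 9) (C.cons (nat_lit 778) (C.node (nat_lit 1) (nat_lit 6) (nat_lit 9) (C.cons (nat_lit 578) (C.node (nat_lit 1) (nat_lit 7) (nat_lit 10) (C.cons (nat_lit 1162) (C.node (nat_lit 2) (nat_lit 3) (nat_lit 4) (C.cons (nat_lit 30) (C.miq (nat_lit 2268334610) (nat_lit 184970760689865102290977799)) (C.cons (nat_lit 28) (C.node (nat_lit 1) (nat_lit 2) (nat_lit 3) (C.cons (nat_lit 46) (C.miq (nat_lit 2031224885) (nat_lit 626226618813866846322557225)) (C.cons (nat_lit 14) (C.node (nat_lit 1) (nat_lit 3) (nat_lit 4) (C.cons (nat_lit 90) (C.miq (nat_lit 2467800160) (nat_lit 1404807239026666047285691505)) (C.cons (nat_lit 26) (C.node (nat_lit 1) (nat_lit 3) (nat_lit 5) (C.cons (nat_lit 106) (C.miq (nat_lit 2170196832)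 (nat_lit 1898048973209321387559289421)) (C.cons (nat_lit 42) (C.node (nat_lit 1) (nat_lit 3) (nat_lit 6) (C.cons (nat_lit 74) (C.node (nat_lit 2) (nat_lit 3) (nat_lit 7) (C.cons (nat_lit 396) (C.miq (nat_lit 1445137016) (nat_lit 712062786756048764044838785)) (C.cons (nat_lit 140) (C.node (nat_lit 3) (nat_lit 6) (nat_lit 10) (C.cons (nat_lit 1352) (C.miq (nat_lit 1398933671) (nat_lit 712060351549392620936759169)) (C.cons (nat_lit 1096) (C.node (nat_lit 1) (nat_lit 6) (nat_lit 10) (C.cons (nat_lit 1346) (C.node (nat_lit 5) (nat_lit 8) (nat_lit 10) (C.cons (nat_lit 1316)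
  (C.miq (nat_lit 2164631154) (nat_lit 42336679980579179066623172)) C.nil)) C.nil)) C.nil))) C.nil))) C.nil)) C.nil))) C.nil))) C.nil))) C.nil))) (C.cons (nat_lit 1154) (C.node (nat_lit 3) (nat_lit 7) (nat_lit 10) (C.cons (nat_lit 1160) (C.node (nat_lit 1) (nat_lit 3) (nat_lit 10) (C.cons (nat_lit 1098) (C.node (nat_lit 1) (nat_lit 8) (nat_lit 10) (C.cons (nat_lit 1282) (C.node (nat_lit 6) (nat_lit 8) (nat_lit 10) (C.cons (nat_lit 1344) (C.node (nat_lit 3) (nat_lit 4) (nat_lit 6) (C.cons (nat_lit 344) (C.miq (nat_lit 557320804) (nat_lit 940549397698495332352525425)) (C.cons (nat_lit 88) (C.node (nat_lit 3) (nat_lit 4) (nat_lit 8) (C.cons (nat_lit 280) (C.node (nat_lit 3) (nat_lit 5) (nat_lit 6) (C.cons (nat_lit 232) (C.miq (nat_lit 324052594) (nat_lit 359069987327745380306977988)) (C.cons (nat_lit 104) (C.node (nat_lit 3) (nat_lit 5) (nat_lit 10) (C.cons (nat_lit 1068) (C.miq (nat_lit 441934624) (nat_lit 1431371767847879427678863949))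 (C.cons (nat_lit 1064) (C.node (nat_lit 1) (nat_lit 3) (nat_lit 4) C.nil) C.nil))) C.nil))) C.nil)) C.nil))) C.nil)) C.nil)) (C.cons (nat_lit 1034) (C.node (nat_lit 3) (nat_lit 6) (nat_lit 10) (C.cons (nat_lit 1352) (C.miq (nat_lit 1398933671) (nat_lit 712060351549392620936759169)) (C.cons (nat_lit 1096) (C.node (nat_lit 1) (nat_lit 3) (nat_lit 6) (C.cons (nat_lit 106) (C.miq (nat_lit 2170196832) (nat_lit 1898048973209321387559289421)) (C.cons (nat_lit 90) (C.miq (nat_lit 2033257030) (nat_lit 940547885315996001700021361)) (C.cons (nat_lit 74) (C.node (nat_lit 1) (nat_lit 3) (nat_lit 4) (C.cons (nat_lit 30) (C.node (nat_lit 1) (nat_lit 2) (nat_lit 7) (C.cons (nat_lit 390) (C.miq (nat_lit 2051180849) (nat_lit 1262125750448581735530496778)) (C.cons (nat_lit 134) (C.node (nat_lit 1) (nat_lit 6) (nat_lit 10) (C.cons (nat_lit 1346) (C.node (nat_lit 3) (nat_lit 8) (nat_lit 10) (C.cons (nat_lit 1292) (C.miq (nat_lit 2202640912) (nat_lit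 1885959715157852907384275975)) C.nil)) C.nil)) C.nil))) (C.cons (nat_lit 26) (C.node (nat_lit 2) (nat_lit 3) (nat_lit 4) (C.cons (nat_lit 28) (C.node (nat_lit 1) (nat_lit 6) (nat_lit 10) (C.cons (nat_lit 1346) (C.node (nat_lit 5) (nat_lit 8) (nat_lit 10) (C.cons (nat_lit 1316) (C.miq (nat_lit 2164631154) (nat_lit 42336679980579179066623172)) C.nil)) C.nil)) C.nil)) C.nil))) C.nil)))) C.nil))) C.nil))) C.nil)) C.nil))) C.nil)) (C.cons (nat_lit 522) (C.node (nat_lit 3) (nat_lit 8) (nat_lit 9) (C.cons (nat_lit 776) (C.node (nat_lit 1) (nat_lit 6) (nat_lit 9) (C.cons (nat_lit 834) (C.node (nat_lit 1) (nat_lit 4) (nat_lit 6) (C.cons (nat_lit 90) (C.miq (nat_lit 2033257030) (nat_lit 631062875494650932975240305)) (C.cons (nat_lit 82) (C.node (nat_lit 4) (nat_lit 6) (nat_lit 9) (C.cons (nat_lit 720) (C.miq (nat_lit 641836944) (nat_lit 99150936144942150871877505)) (C.cons (nat_lit 592) (C.node (nat_lit 4) (nat_lit 8) (nat_lit 9) (C.cons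 (nat_lit 816) (C.miq (nat_lit 563612244) (nat_lit 1008249243596916593391567985)) (C.cons (nat_lit 784) (C.node (nat_lit 5) (nat_lit 8) (nat_lit 10) (C.cons (nat_lit 1316) (C.miq (nat_lit 1497932034) (nat_lit 947822118934988268821087239)) (C.cons (nat_lit 1312) (C.node (nat_lit 6) (nat_lit 8) (nat_lit 10) (C.cons (nat_lit 1352) (C.miq (nat_lit 1398933671) (nat_lit 712060351549392620936759169)) (C.cons (nat_lit 1344) (C.node (nat_lit 1) (nat_lit 2) (nat_lit 6) (C.cons (nat_lit 102) (C.node (nat_lit 2) (nat_lit 6) (nat_lit 8) (C.cons (nat_lit 324) (C.node (nat_lit 1) (nat_lit 3) (nat_lit 5) (C.cons (nat_lit 170) (C.miq (nat_lit 2170000928) (nat_lit 205552825764603124422869581)) (C.cons (nat_lit 42) (C.node (nat_lit 5) (nat_lit 6) (nat_lit 8) (C.cons (nat_lit 480) (C.miq (nat_lit 360210953) (nat_lit 580299778028290634044998221)) (C.cons (nat_lit 352) (C.node (nat_lit 5) (nat_lit 6) (nat_lit 9) (C.cons (nat_lit 736) (C.miq (nat_lit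 1964676640) (nat_lit 1898048973197499421350625869)) (C.cons (nat_lit 608) (C.node (nat_lit 6) (nat_lit 7) (nat_lit 9) (C.cons (nat_lit 704)
  (C.node (nat_lit 1) (nat_lit 2) (nat_lit 4) C.nil) C.nil)) C.nil))) C.nil))) C.nil))) C.nil)) (C.cons (nat_lit 70) (C.node (nat_lit 1) (nat_lit 5) (nat_lit 6) (C.cons (nat_lit 106) (C.node (nat_lit 1) (nat_lit 6) (nat_lit 10) (C.cons (nat_lit 1090) (C.node (nat_lit 3) (nat_lit 6) (nat_lit 10) (C.cons (nat_lit 1096) (C.node (nat_lit 3) (nat_lit 6) (nat_lit 7) (C.cons (nat_lit 456) (C.miq (nat_lit 1097009543) (nat_lit 128148959380460764746221441)) (C.cons (nat_lit 200) (C.node (nat_lit 2) (nat_lit 4) (nat_lit 9) C.nil) C.nil))) C.nil)) C.nil)) (C.cons (nat_lit 98) (C.node (nat_lit 1) (nat_lit 3) (nat_lit 6) (C.cons (nat_lit 1098) (C.node (nat_lit 1) (nat_lit 7) (nat_lit 10) (C.cons (nat_lit 1154) (C.node (nat_lit 1) (nat_lit 8) (nat_lit 10) (C.cons (nat_lit 1282) (C.node (nat_lit 3) (nat_lit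 7) (nat_lit 10) C.nil) C.nil)) C.nil)) (C.cons (nat_lit 74) (C.node (nat_lit 1) (nat_lit 6) (nat_lit 10) (C.cons (nat_lit 1090) (C.node (nat_lit 1) (nat_lit 7) (nat_lit 10) C.nil) C.nil)) C.nil))) C.nil))) C.nil))) C.nil))) C.nil))) C.nil))) C.nil))) C.nil))) (C.cons (nat_lit 578) (C.node (nat_lit 1) (nat_lit 8) (nat_lit 9) (C.cons (nat_lit 770) (C.node (nat_lit 1) (nat_lit 7) (nat_lit 10) (C.cons (nat_lit 1162) (C.node (nat_lit 2) (nat_lit 3) (nat_lit 4) (C.cons (nat_lit 30) (C.miq (nat_lit 2268334610) (nat_lit 184970760689865102290977799)) (C.cons (nat_lit 28) (C.node (nat_lit 2) (nat_lit 3) (nat_lit 7) (C.cons (nat_lit 396) (C.miq (nat_lit 1445137016) (nat_lit 712062786756048764044838785)) (C.cons (nat_lit 140) (C.node (nat_lit 3) (nat_lit 6) (nat_lit 10) (C.cons (nat_lit 1352) (C.miq (nat_lit 1398933671) (nat_lit 712060351549392620936759169)) (C.cons (nat_lit 1096) (C.node (nat_lit 1) (nat_lit 6) (nat_lit 10) (C.cons (nat_lit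 1346) (C.node (nat_lit 1) (nat_lit 2) (nat_lit 6) (C.cons (nat_lit 102) (C.miq (nat_lit 1350641574) (nat_lit 313113668894536096500810948)) (C.cons (nat_lit 70) (C.node (nat_lit 1) (nat_lit 4) (nat_lit 6) (C.cons (nat_lit 90) (C.miq (nat_lit 2167907904) (nat_lit 1404807238966430402266858609)) (C.cons (nat_lit 82) (C.node (nat_lit 2) (nat_lit 7) (nat_lit 8) (C.cons (nat_lit 390) (C.miq (nat_lit 1444022919) (nat_lit 84627851405839033877006209)) (C.cons (nat_lit 388) (C.node (nat_lit 5) (nat_lit 8) (nat_lit 10) (C.cons (nat_lit 1316) (C.miq (nat_lit 405236304) (nat_lit 469066815504441463988880497)) (C.cons (nat_lit 1312) (C.node (nat_lit 1) (nat_lit 2) (nat_lit 7) (C.cons (nat_lit 150) (C.node (nat_lit 2) (nat_lit 7) (nat_lit 9) C.nil) (C.cons (nat_lit 134) (C.node (nat_lit 1) (nat_lit 2) (nat_lit 4) C.nil) C.nil))) C.nil))) C.nil))) C.nil))) C.nil))) (C.cons (nat_lit 1090) (C.node (nat_lit 1) (nat_lit 8) (nat_lit 10) (C.cons (nat_lit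 1282) (C.node (nat_lit 6) (nat_lit 8) (nat_lit 10) (C.cons (nat_lit 1344) (C.node (nat_lit 3) (nat_lit 5) (nat_lit 10) (C.cons (nat_lit 1068) (C.node (nat_lit 2) (nat_lit 8) (nat_lit 10) C.nil) C.nil)) C.nil)) C.nil)) C.nil))) C.nil))) C.nil))) C.nil))) (C.cons (nat_lit 1154) (C.node (nat_lit 3) (nat_lit 7) (nat_lit 10) (C.cons (nat_lit 1160) (C.node (nat_lit 2) (nat_lit 3) (nat_lit 4) (C.cons (nat_lit 30) (C.node (nat_lit 2) (nat_lit 3) (nat_lit 7) (C.cons (nat_lit 396) (C.miq (nat_lit 1445137016) (nat_lit 712062786756048764044838785)) (C.cons (nat_lit 140) (C.node (nat_lit 2) (nat_lit 3) (nat_lit 8) (C.cons (nat_lit 1292) (C.miq (nat_lit 2202640912) (nat_lit 1885959715157852907384275975)) (C.cons (nat_lit 268) (C.node (nat_lit 2) (nat_lit 8) (nat_lit 10) (C.cons (nat_lit 1316) (C.miq (nat_lit 1380034569) (nat_lit 36296736347056858329188225)) (C.cons (nat_lit 1284) (C.node (nat_lit 5) (nat_lit 8) (nat_lit 10) (C.cons (nat_lit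 1312) (C.node (nat_lit 1) (nat_lit 2) (nat_lit 7) (C.cons (nat_lit 390) (C.node (nat_lit 1) (nat_lit 2) (nat_lit 5) (C.cons (nat_lit 102) (C.miq (nat_lit 1518493809) (nat_lit 1552262634273124677874745539)) (C.cons (nat_lit 38) (C.node (nat_lit 1) (nat_lit 2) (nat_lit 6) (C.cons (nat_lit 70) (C.node (nat_lit 2) (nat_lit 3) (nat_lit 5) C.nil) C.nil)) C.nil)))
  (C.cons (nat_lit 134) (C.node (nat_lit 2) (nat_lit 7) (nat_lit 8) (C.cons (nat_lit 388) (C.node (nat_lit 2) (nat_lit 3) (nat_lit 10) (C.cons (nat_lit 1068) (C.node (nat_lit 3) (nat_lit 6) (nat_lit 10) (C.cons (nat_lit 1354) (C.miq (nat_lit 1398933671) (nat_lit 712060351549392629526693761)) (C.cons (nat_lit 1352) (C.miq (nat_lit 1398933671) (nat_lit 712060351549392620936759169)) (C.cons (nat_lit 1098) (C.miq (nat_lit 321350224) (nat_lit 169253212170206569285616753)) C.nil)))) C.nil)) C.nil)) C.nil))) C.nil)) C.nil))) C.nil))) C.nil))) (C.cons (nat_lit 28) (C.node (nat_lit 2)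 (nat_lit 7) (nat_lit 9) (C.cons (nat_lit 660) (C.node (nat_lit 1) (nat_lit 2) (nat_lit 4) (C.cons (nat_lit 54) (C.miq (nat_lit 2299660884) (nat_lit 626228684849206503406961777)) (C.cons (nat_lit 22) (C.node (nat_lit 2) (nat_lit 4) (nat_lit 5) (C.cons (nat_lit 52) (C.node (nat_lit 2) (nat_lit 5) (nat_lit 9) (C.cons (nat_lit 804) (C.miq (nat_lit 1380157808) (nat_lit 33855401858508224592414593)) (C.cons (nat_lit 548) (C.node (nat_lit 2) (nat_lit 8) (nat_lit 9) (C.cons (nat_lit 772) (C.node (nat_lit 3) (nat_lit 5) (nat_lit 9) C.nil) C.nil)) C.nil))) C.nil)) C.nil))) (C.cons (nat_lit 644) (C.node (nat_lit 2) (nat_lit 4) (nat_lit 7) (C.cons (nat_lit 150) (C.node (nat_lit 2) (nat_lit 3) (nat_lit 7) (C.cons (nat_lit 396) (C.miq (nat_lit 1445137016) (nat_lit 712062786756048764044838785)) (C.cons (nat_lit 140) (C.node (nat_lit 2) (nat_lit 7) (nat_lit 8) (C.cons (nat_lit 388) (C.node (nat_lit 5) (nat_lit 8) (nat_lit 10) (C.cons (nat_lit 1316)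 (C.miq (nat_lit 1380034569) (nat_lit 181367834700812359293929345)) (C.cons (nat_lit 1312) (C.node (nat_lit 1) (nat_lit 4) (nat_lit 5) (C.cons (nat_lit 306) (C.node (nat_lit 1) (nat_lit 3) (nat_lit 4) (C.cons (nat_lit 90) (C.miq (nat_lit 2033257030) (nat_lit 631062875494650932975240305)) (C.cons (nat_lit 26) (C.node (nat_lit 1) (nat_lit 4) (nat_lit 6) C.nil) C.nil))) (C.cons (nat_lit 50) (C.node (nat_lit 2) (nat_lit 4) (nat_lit 5) (C.cons (nat_lit 564) (C.node (nat_lit 2) (nat_lit 8) (nat_lit 9) (C.cons (nat_lit 772) (C.node (nat_lit 4) (nat_lit 7) (nat_lit 9) (C.cons (nat_lit 720) (C.miq (nat_lit 308546169) (nat_lit 101559564358937931343202177)) C.nil)) C.nil)) (C.cons (nat_lit 52) (C.node (nat_lit 2) (nat_lit 5) (nat_lit 10) C.nil) C.nil))) C.nil))) C.nil))) C.nil)) C.nil))) (C.cons (nat_lit 148) (C.node (nat_lit 1) (nat_lit 2) (nat_lit 4) (C.cons (nat_lit 54) (C.miq (nat_lit 2299660884) (nat_lit 626228684849206503406961777))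 (C.cons (nat_lit 22) (C.node (nat_lit 5) (nat_lit 8) (nat_lit 10) (C.cons (nat_lit 1316) (C.miq (nat_lit 1380034569) (nat_lit 26625329790139824931538817)) (C.cons (nat_lit 1312) (C.node (nat_lit 2) (nat_lit 4) (nat_lit 5) (C.cons (nat_lit 564) (C.node (nat_lit 2) (nat_lit 8) (nat_lit 9) (C.cons (nat_lit 772) (C.node (nat_lit 2) (nat_lit 5) (nat_lit 10) C.nil) C.nil)) (C.cons (nat_lit 52) (C.node (nat_lit 2) (nat_lit 5) (nat_lit 10) C.nil) C.nil))) C.nil))) C.nil))) C.nil))) C.nil))) C.nil))) C.nil)) C.nil))) C.nil)) C.nil))) C.nil)) C.nil))) C.nil))) C.nil))))) C.nil)))) C.nil))) (C.cons (nat_lit 1538) (C.node (nat_lit 5) (nat_lit 9) (nat_lit 10) (C.cons (nat_lit 1568) (C.node (nat_lit 3) (nat_lit 8) (nat_lit 9) (C.cons (nat_lit 778) (C.node (nat_lit 3) (nat_lit 4) (nat_lit 5) (C.cons (nat_lit 62) (C.miq (nat_lit 2033322565) (nat_lit 712060352006508876392170609)) (C.cons (nat_lit 60) (C.miq (nat_lit 2033322565) (nat_lit 712060352006508876392039537))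 (C.cons (nat_lit 58) (C.miq (nat_lit 2822048020) (nat_lit 359071942914273444397449747)) (C.cons (nat_lit 56) (C.node (nat_lit 1) (nat_lit 6) (nat_lit 9) (C.cons (nat_lit 610) (C.node (nat_lit 1) (nat_lit 2) (nat_lit 9) (C.cons (nat_lit 646) (C.miq (nat_lit 342003879) (nat_lit 101561685593768563136792449)) (C.cons (nat_lit 518) (C.node (nat_lit 1) (nat_lit 7) (nat_lit 9) (C.cons (nat_lit 642) (C.node (nat_lit 3) (nat_lit 5) (nat_lit 6) (C.cons (nat_lit 232) (C.miq (nat_lit 2486505590) (nat_lit 67711098561768066388590787)) (C.cons (nat_lit 104)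
  (C.node (nat_lit 6) (nat_lit 7) (nat_lit 9) (C.cons (nat_lit 720) (C.miq (nat_lit 308546169) (nat_lit 101559564358937931343202177)) (C.cons (nat_lit 704) (C.node (nat_lit 1) (nat_lit 2) (nat_lit 6) (C.cons (nat_lit 326) (C.node (nat_lit 2) (nat_lit 5) (nat_lit 6) (C.cons (nat_lit 100) (C.node (nat_lit 1) (nat_lit 4) (nat_lit 6) (C.cons (nat_lit 90) (C.miq (nat_lit 2033257030) (nat_lit 940547885315996001700021361)) (C.cons (nat_lit 82) (C.node (nat_lit 1) (nat_lit 8) (nat_lit 10) (C.cons (nat_lit 1314) (C.miq (nat_lit 911315112) (nat_lit 737459101697606787348432769)) (C.cons (nat_lit 1282) (C.node (nat_lit 2) (nat_lit 7) (nat_lit 8) (C.cons (nat_lit 396) (C.miq (nat_lit 1445137016) (nat_lit 712062786756048764044838785)) (C.cons (nat_lit 388) (C.node (nat_lit 6) (nat_lit 8) (nat_lit 10) (C.cons (nat_lit 1352) (C.miq (nat_lit 908429936) (nat_lit 120898061025012217591170945)) (C.cons (nat_lit 1344) (C.node (nat_lit 1) (nat_lit 4)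 (nat_lit 8) (C.cons (nat_lit 434) (C.miq (nat_lit 2441241920) (nat_lit 394120682498330125707576433)) (C.cons (nat_lit 402) (C.miq (nat_lit 880936726) (nat_lit 334883317208579094354460867)) (C.cons (nat_lit 306) (C.miq (nat_lit 2441241920) (nat_lit 394120682498329575951762545)) (C.cons (nat_lit 274) (C.node (nat_lit 1) (nat_lit 5) (nat_lit 8) (C.cons (nat_lit 418) (C.miq (nat_lit 1905416240) (nat_lit 626226618390809956362027305)) (C.cons (nat_lit 290) (C.node (nat_lit 1) (nat_lit 7) (nat_lit 8) (C.cons (nat_lit 386) (C.node (nat_lit 1) (nat_lit 3) (nat_lit 4) (C.cons (nat_lit 30) (C.node (nat_lit 1) (nat_lit 4) (nat_lit 5) (C.cons (nat_lit 178) (C.miq (nat_lit 957810260) (nat_lit 776133198710226588947055729)) C.nil)) (C.cons (nat_lit 26) (C.node (nat_lit 2) (nat_lit 3) (nat_lit 4) C.nil) C.nil))) C.nil)) C.nil))) C.nil))))) C.nil))) C.nil))) C.nil))) C.nil))) C.nil)) (C.cons (nat_lit 70) (C.node (nat_lit 2) (nat_lit 3) (nat_lit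 4) (C.cons (nat_lit 30) (C.node (nat_lit 1) (nat_lit 2) (nat_lit 7) (C.cons (nat_lit 390) (C.miq (nat_lit 2051180849) (nat_lit 1262125750448581735530496778)) (C.cons (nat_lit 134) (C.node (nat_lit 2) (nat_lit 3) (nat_lit 7) (C.cons (nat_lit 396) (C.miq (nat_lit 1445137016) (nat_lit 712062786756048764044838785)) (C.cons (nat_lit 140) (C.node (nat_lit 2) (nat_lit 7) (nat_lit 8) (C.cons (nat_lit 388) (C.node (nat_lit 2) (nat_lit 3) (nat_lit 8) (C.cons (nat_lit 1292) (C.miq (nat_lit 2202640912) (nat_lit 1885959715157852907384275975)) (C.cons (nat_lit 268) (C.node (nat_lit 3) (nat_lit 8) (nat_lit 10) (C.cons (nat_lit 1352) (C.miq (nat_lit 1398933671) (nat_lit 712060351549392620936759169)) (C.cons (nat_lit 1288) (C.node (nat_lit 1) (nat_lit 4) (nat_lit 5) (C.cons (nat_lit 434) (C.miq (nat_lit 1378971800) (nat_lit 36275780521812766130571137)) (C.cons (nat_lit 306) (C.miq (nat_lit 689440340) (nat_lit 940549397574081296699884657)) (C.cons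 (nat_lit 178) (C.miq (nat_lit 957810260) (nat_lit 776133198710226588947055729)) (C.cons (nat_lit 50) (C.node (nat_lit 1) (nat_lit 4) (nat_lit 7) (C.cons (nat_lit 402) (C.miq (nat_lit 1899594784) (nat_lit 940579723968700163495362837)) (C.cons (nat_lit 146) (C.node (nat_lit 1) (nat_lit 7) (nat_lit 8) (C.cons (nat_lit 418) (C.miq (nat_lit 1378971800) (nat_lit 36275485373907586777745281)) (C.cons (nat_lit 386) (C.node (nat_lit 1) (nat_lit 2) (nat_lit 5) (C.cons (nat_lit 294) (C.node (nat_lit 1) (nat_lit 3) (nat_lit 6) C.nil) C.nil)) C.nil))) C.nil))) C.nil))))) C.nil))) C.nil))) C.nil)) C.nil))) C.nil))) (C.cons (nat_lit 28) (C.node (nat_lit 1) (nat_lit 3) (nat_lit 4) (C.cons (nat_lit 90) (C.miq (nat_lit 2033257030) (nat_lit 940547885315996001700021361)) (C.cons (nat_lit 26) (C.node (nat_lit 1) (nat_lit 3) (nat_lit 6) (C.cons (nat_lit 1098) (C.node (nat_lit 6) (nat_lit 8) (nat_lit 10) (C.cons (nat_lit 1344) (C.node (nat_lit 1) (nat_lit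 7) (nat_lit 10) (C.cons (nat_lit 1186) (C.miq (nat_lit 1362131554) (nat_lit 13301228062367121289315524)) (C.cons (nat_lit 1154) (C.node (nat_lit 1) (nat_lit 5) (nat_lit 10) (C.cons (nat_lit 1314)
  (C.miq (nat_lit 1362536592) (nat_lit 1327421524254736102508529537)) (C.cons (nat_lit 1058) (C.node (nat_lit 1) (nat_lit 8) (nat_lit 10) C.nil) C.nil))) C.nil))) C.nil)) (C.cons (nat_lit 74) (C.node (nat_lit 3) (nat_lit 6) (nat_lit 10) (C.cons (nat_lit 1352) (C.miq (nat_lit 1398933671) (nat_lit 712060351549392620936759169)) (C.cons (nat_lit 1096) (C.node (nat_lit 1) (nat_lit 4) (nat_lit 6) (C.cons (nat_lit 338) (C.node (nat_lit 1) (nat_lit 6) (nat_lit 10) (C.cons (nat_lit 1090) (C.node (nat_lit 3) (nat_lit 4) (nat_lit 6) (C.cons (nat_lit 88) (C.node (nat_lit 3) (nat_lit 4) (nat_lit 8) C.nil) C.nil)) C.nil)) (C.cons (nat_lit 82) (C.node (nat_lit 1) (nat_lit 6) (nat_lit 8) (C.cons (nat_lit 1346) (C.node (nat_lit 5) (nat_lit 6) (nat_lit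 7) (C.cons (nat_lit 480) (C.miq (nat_lit 560269959) (nat_lit 737447793967902440692909953)) (C.cons (nat_lit 224) (C.node (nat_lit 5) (nat_lit 8) (nat_lit 10) (C.cons (nat_lit 1316) (C.miq (nat_lit 2255855874) (nat_lit 270823659887744093086090247)) (C.cons (nat_lit 1312) (C.node (nat_lit 2) (nat_lit 7) (nat_lit 8) (C.cons (nat_lit 396) (C.miq (nat_lit 1445137016) (nat_lit 712062786756048764044838785)) (C.cons (nat_lit 390) (C.miq (nat_lit 1444022919) (nat_lit 84627851405839033877006209)) (C.cons (nat_lit 388) (C.node (nat_lit 1) (nat_lit 4) (nat_lit 8) (C.cons (nat_lit 434) (C.miq (nat_lit 689440340) (nat_lit 940549397574081296708273265)) (C.cons (nat_lit 402) (C.node (nat_lit 2) (nat_lit 5) (nat_lit 10) C.nil) (C.cons (nat_lit 306) (C.miq (nat_lit 689440340) (nat_lit 940549397574081296699884657)) C.nil)))) C.nil)))) C.nil))) C.nil))) (C.cons (nat_lit 322) (C.node (nat_lit 1) (nat_lit 2) (nat_lit 4) C.nil) C.nil))) C.nil))) C.nil)))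 C.nil))) C.nil))) C.nil))) C.nil))) C.nil))) C.nil))) C.nil)) C.nil))) (C.cons (nat_lit 578) (C.node (nat_lit 2) (nat_lit 3) (nat_lit 4) (C.cons (nat_lit 30) (C.node (nat_lit 2) (nat_lit 3) (nat_lit 7) (C.cons (nat_lit 396) (C.miq (nat_lit 1445137016) (nat_lit 712062786756048764044838785)) (C.cons (nat_lit 140) (C.node (nat_lit 2) (nat_lit 3) (nat_lit 8) (C.cons (nat_lit 1292) (C.miq (nat_lit 2202640912) (nat_lit 1885959715157852907384275975)) (C.cons (nat_lit 268) (C.node (nat_lit 2) (nat_lit 7) (nat_lit 8) (C.cons (nat_lit 390) (C.miq (nat_lit 2051180849) (nat_lit 1262125750448581735530496778)) (C.cons (nat_lit 388) (C.node (nat_lit 1) (nat_lit 2) (nat_lit 7) (C.cons (nat_lit 646) (C.miq (nat_lit 1393690775) (nat_lit 36270818384812446927161217)) (C.cons (nat_lit 134) (C.node (nat_lit 3) (nat_lit 8) (nat_lit 10) (C.cons (nat_lit 1352) (C.miq (nat_lit 1398933671) (nat_lit 712060351549392620936759169)) (C.cons (nat_lit 1288) (C.node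 (nat_lit 1) (nat_lit 7) (nat_lit 8) (C.cons (nat_lit 434) (C.miq (nat_lit 1378971800) (nat_lit 36275780521812766130571137)) (C.cons (nat_lit 418) (C.miq (nat_lit 1378971800) (nat_lit 36275485373907586777745281)) (C.cons (nat_lit 402) (C.miq (nat_lit 1899594784) (nat_lit 940579723968700163495362837)) (C.cons (nat_lit 386) (C.node (nat_lit 1) (nat_lit 2) (nat_lit 9) (C.cons (nat_lit 550) (C.node (nat_lit 1) (nat_lit 7) (nat_lit 9) (C.cons (nat_lit 642) (C.node (nat_lit 2) (nat_lit 4) (nat_lit 5) (C.cons (nat_lit 52) (C.node (nat_lit 2) (nat_lit 8) (nat_lit 9) (C.cons (nat_lit 772) (C.node (nat_lit 1) (nat_lit 4) (nat_lit 7) (C.cons (nat_lit 178) (C.miq (nat_lit 844564756) (nat_lit 199475582754048214914171411)) (C.cons (nat_lit 146) (C.node (nat_lit 1) (nat_lit 4) (nat_lit 5) (C.cons (nat_lit 306) (C.miq (nat_lit 1669662996) (nat_lit 359071942539348775435108883)) (C.cons (nat_lit 50) (C.node (nat_lit 1) (nat_lit 2) (nat_lit 6) (C.cons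 (nat_lit 326) (C.node (nat_lit 1) (nat_lit 4) (nat_lit 6) C.nil) C.nil)) C.nil))) C.nil))) C.nil)) C.nil)) C.nil)) (C.cons (nat_lit 518) (C.node (nat_lit 1) (nat_lit 4) (nat_lit 6) (C.cons (nat_lit 338) (C.node (nat_lit 3) (nat_lit 4) (nat_lit 6) (C.cons (nat_lit 88) (C.node (nat_lit 3) (nat_lit 4) (nat_lit 8) (C.cons (nat_lit 280) (C.node (nat_lit 6) (nat_lit 8) (nat_lit 10) (C.cons (nat_lit 1344)
  (C.node (nat_lit 1) (nat_lit 8) (nat_lit 10) (C.cons (nat_lit 1314) (C.miq (nat_lit 2710984752) (nat_lit 698780098055128931661316393)) (C.cons (nat_lit 1282) (C.node (nat_lit 2) (nat_lit 3) (nat_lit 10) (C.cons (nat_lit 1068) (C.node (nat_lit 2) (nat_lit 8) (nat_lit 10) C.nil) C.nil)) C.nil))) C.nil)) C.nil)) C.nil)) (C.cons (nat_lit 82) (C.node (nat_lit 1) (nat_lit 4) (nat_lit 8) (C.cons (nat_lit 306) (C.miq (nat_lit 1669662996) (nat_lit 359071942539348775435108883)) (C.cons (nat_lit 274) (C.node (nat_lit 1) (nat_lit 4) (nat_lit 5)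 (C.cons (nat_lit 178) (C.node (nat_lit 1) (nat_lit 5) (nat_lit 9) (C.cons (nat_lit 546) (C.node (nat_lit 1) (nat_lit 7) (nat_lit 9) (C.cons (nat_lit 642) (C.node (nat_lit 2) (nat_lit 4) (nat_lit 5) (C.cons (nat_lit 564) (C.miq (nat_lit 1649871169) (nat_lit 199476357517299370844881427)) C.nil)) C.nil)) C.nil)) (C.cons (nat_lit 50) (C.node (nat_lit 1) (nat_lit 4) (nat_lit 7) (C.cons (nat_lit 146) (C.node (nat_lit 1) (nat_lit 5) (nat_lit 9) (C.cons (nat_lit 546) (C.node (nat_lit 1) (nat_lit 7) (nat_lit 9) C.nil) C.nil)) C.nil)) C.nil))) C.nil))) C.nil))) C.nil))) C.nil))))) C.nil))) C.nil))) C.nil))) C.nil))) C.nil))) (C.cons (nat_lit 28) (C.node (nat_lit 1) (nat_lit 3) (nat_lit 4) (C.cons (nat_lit 90) (C.miq (nat_lit 2033257030) (nat_lit 940547885315996001700021361)) (C.cons (nat_lit 26) (C.node (nat_lit 1) (nat_lit 4) (nat_lit 6) (C.cons (nat_lit 338) (C.node (nat_lit 3) (nat_lit 4) (nat_lit 6) (C.cons (nat_lit 88) (C.node (nat_lit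 3) (nat_lit 4) (nat_lit 8) (C.cons (nat_lit 280) (C.node (nat_lit 1) (nat_lit 8) (nat_lit 10) (C.cons (nat_lit 1314) (C.miq (nat_lit 2710984752) (nat_lit 698780098055128931661316393)) (C.cons (nat_lit 1282) (C.node (nat_lit 4) (nat_lit 6) (nat_lit 7) (C.cons (nat_lit 720) (C.miq (nat_lit 641836944) (nat_lit 408635945966287219596658561)) (C.cons (nat_lit 208) (C.node (nat_lit 4) (nat_lit 6) (nat_lit 9) (C.cons (nat_lit 592) (C.node (nat_lit 6) (nat_lit 8) (nat_lit 10) (C.cons (nat_lit 1352) (C.miq (nat_lit 1398933671) (nat_lit 712060351549392620936759169)) (C.cons (nat_lit 1344) (C.node (nat_lit 2) (nat_lit 7) (nat_lit 8) (C.cons (nat_lit 396) (C.miq (nat_lit 1445137016) (nat_lit 712062786756048764044838785)) (C.cons (nat_lit 390) (C.miq (nat_lit 1384384278) (nat_lit 334893426027709135370453187)) (C.cons (nat_lit 388) (C.node (nat_lit 1) (nat_lit 2) (nat_lit 6) (C.cons (nat_lit 102) (C.node (nat_lit 1) (nat_lit 2) (nat_lit 8) (C.cons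 (nat_lit 262) (C.node (nat_lit 2) (nat_lit 6) (nat_lit 8) (C.cons (nat_lit 324) (C.node (nat_lit 4) (nat_lit 8) (nat_lit 9) C.nil) C.nil)) C.nil)) (C.cons (nat_lit 70) (C.node (nat_lit 1) (nat_lit 5) (nat_lit 6) (C.cons (nat_lit 106) (C.miq (nat_lit 1518428307) (nat_lit 1549844856420871714388968013)) (C.cons (nat_lit 98) (C.node (nat_lit 1) (nat_lit 2) (nat_lit 4) C.nil) C.nil))) C.nil))) C.nil)))) C.nil))) C.nil)) C.nil))) C.nil))) C.nil)) C.nil)) (C.cons (nat_lit 82) (C.node (nat_lit 2) (nat_lit 8) (nat_lit 9) (C.cons (nat_lit 804) (C.node (nat_lit 1) (nat_lit 2) (nat_lit 9) (C.cons (nat_lit 646) (C.miq (nat_lit 342003879) (nat_lit 101561685593768563136792449)) (C.cons (nat_lit 518) (C.node (nat_lit 2) (nat_lit 4) (nat_lit 9) (C.cons (nat_lit 660) (C.miq (nat_lit 1380157808) (nat_lit 33855401858508224592414593)) (C.cons (nat_lit 532) (C.node (nat_lit 2) (nat_lit 7) (nat_lit 9) (C.cons (nat_lit 644) (C.node (nat_lit 3) (nat_lit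 5) (nat_lit 9) (C.cons (nat_lit 680) (C.miq (nat_lit 624200048) (nat_lit 67704955872836453192501121)) (C.cons (nat_lit 552) (C.node (nat_lit 3) (nat_lit 7) (nat_lit 9) (C.cons (nat_lit 648) (C.node (nat_lit 5) (nat_lit 8) (nat_lit 10) (C.cons (nat_lit 1314) (C.miq (nat_lit 2710984752) (nat_lit 698780098055128931661316393)) (C.cons (nat_lit 1312) (C.node (nat_lit 4) (nat_lit 5) (nat_lit 8) (C.cons (nat_lit 434) (C.miq (nat_lit 625186928) (nat_lit 67710711256986394010650497)) (C.cons (nat_lit 432) (C.miq (nat_lit 625186928) (nat_lit 67710711256986385420715905)) (C.cons (nat_lit 306)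
  (C.miq (nat_lit 1669662996) (nat_lit 359071942539348775435108883)) (C.cons (nat_lit 304) (C.node (nat_lit 1) (nat_lit 4) (nat_lit 8) (C.cons (nat_lit 402) (C.node (nat_lit 2) (nat_lit 4) (nat_lit 7) (C.cons (nat_lit 148) (C.node (nat_lit 1) (nat_lit 2) (nat_lit 4) C.nil) C.nil)) (C.cons (nat_lit 274) (C.node (nat_lit 1) (nat_lit 5) (nat_lit 9) (C.cons (nat_lit 674) (C.node (nat_lit 4) (nat_lit 5) (nat_lit 7) C.nil) C.nil)) C.nil))) C.nil))))) C.nil))) C.nil)) C.nil))) C.nil)) C.nil))) C.nil))) (C.cons (nat_lit 772) (C.node (nat_lit 3) (nat_lit 4) (nat_lit 6) (C.cons (nat_lit 344) (C.node (nat_lit 3) (nat_lit 6) (nat_lit 7) (C.cons (nat_lit 232) (C.miq (nat_lit 1181909840) (nat_lit 1474894609774784399119024425)) (C.cons (nat_lit 200) (C.node (nat_lit 3) (nat_lit 5) (nat_lit 6) (C.cons (nat_lit 106) (C.miq (nat_lit 2836793397) (nat_lit 698780098225984242493030697)) (C.cons (nat_lit 104) (C.node (nat_lit 1) (nat_lit 3) (nat_lit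 6) (C.cons (nat_lit 1098) (C.miq (nat_lit 557320804) (nat_lit 940549397698495332352525425)) (C.cons (nat_lit 74) (C.node (nat_lit 3) (nat_lit 6) (nat_lit 10) (C.cons (nat_lit 1096) (C.node (nat_lit 3) (nat_lit 7) (nat_lit 8) (C.cons (nat_lit 396) (C.miq (nat_lit 1445137016) (nat_lit 712062786756048764044838785)) (C.cons (nat_lit 392) (C.node (nat_lit 4) (nat_lit 6) (nat_lit 7) (C.cons (nat_lit 720) (C.miq (nat_lit 641836944) (nat_lit 99150936144942150871877505)) (C.cons (nat_lit 208) (C.node (nat_lit 4) (nat_lit 6) (nat_lit 9) (C.cons (nat_lit 592) (C.node (nat_lit 1) (nat_lit 6) (nat_lit 10) (C.cons (nat_lit 1346) (C.node (nat_lit 6) (nat_lit 7) (nat_lit 9) C.nil) (C.cons (nat_lit 1090) (C.node (nat_lit 6) (nat_lit 8) (nat_lit 10) C.nil) C.nil))) C.nil)) C.nil))) C.nil))) C.nil)) C.nil))) C.nil))) C.nil))) (C.cons (nat_lit 88) (C.node (nat_lit 3) (nat_lit 4) (nat_lit 8) (C.cons (nat_lit 280) (C.node (nat_lit 3) (nat_lit 5) (nat_lit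 9) (C.cons (nat_lit 680) (C.node (nat_lit 1) (nat_lit 7) (nat_lit 9) (C.cons (nat_lit 646) (C.miq (nat_lit 342003879) (nat_lit 101561685593768563136792449)) (C.cons (nat_lit 642) (C.node (nat_lit 2) (nat_lit 7) (nat_lit 9) (C.cons (nat_lit 660) (C.miq (nat_lit 2207516018) (nat_lit 1885929388430530918791512229)) (C.cons (nat_lit 644) (C.node (nat_lit 3) (nat_lit 5) (nat_lit 6) (C.cons (nat_lit 106) (C.miq (nat_lit 2836793397) (nat_lit 698780098225984242493030697)) (C.cons (nat_lit 104) (C.node (nat_lit 4) (nat_lit 7) (nat_lit 9) (C.cons (nat_lit 720) (C.miq (nat_lit 641836944) (nat_lit 99150936144942150871877505)) (C.cons (nat_lit 656) (C.node (nat_lit 6) (nat_lit 7) (nat_lit 9) (C.cons (nat_lit 704) (C.node (nat_lit 1) (nat_lit 2) (nat_lit 9) (C.cons (nat_lit 550) (C.node (nat_lit 2) (nat_lit 4) (nat_lit 5) (C.cons (nat_lit 52) (C.node (nat_lit 1) (nat_lit 2) (nat_lit 3) C.nil) C.nil)) (C.cons (nat_lit 518) (C.node (nat_lit 1)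 (nat_lit 5) (nat_lit 9) C.nil) C.nil))) C.nil)) C.nil))) C.nil))) C.nil))) C.nil))) (C.cons (nat_lit 552) (C.node (nat_lit 3) (nat_lit 7) (nat_lit 9) (C.cons (nat_lit 648) (C.node (nat_lit 1) (nat_lit 2) (nat_lit 9) (C.cons (nat_lit 646) (C.miq (nat_lit 342003879) (nat_lit 101561685593768563136792449)) (C.cons (nat_lit 550) (C.node (nat_lit 1) (nat_lit 7) (nat_lit 9) (C.cons (nat_lit 642) (C.node (nat_lit 2) (nat_lit 4) (nat_lit 5) (C.cons (nat_lit 52) (C.node (nat_lit 3) (nat_lit 6) (nat_lit 10) (C.cons (nat_lit 1352) (C.miq (nat_lit 1398933671) (nat_lit 712060351549392620936759169)) (C.cons (nat_lit 1098) (C.node (nat_lit 6) (nat_lit 8) (nat_lit 10) C.nil) C.nil))) C.nil)) C.nil)) (C.cons (nat_lit 518) (C.node (nat_lit 1) (nat_lit 5) (nat_lit 9) (C.cons (nat_lit 674) (C.node (nat_lit 6) (nat_lit 7) (nat_lit 9) (C.cons (nat_lit 720) (C.miq (nat_lit 641836944) (nat_lit 99150936144942150871877505)) (C.cons (nat_lit 704) (C.node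 (nat_lit 1) (nat_lit 4) (nat_lit 5) (C.cons (nat_lit 306) (C.miq (nat_lit 1669662996) (nat_lit 359071942539348775435108883)) (C.cons (nat_lit 54) (C.miq (nat_lit 2270300436) (nat_lit 199477870525238556444983827))
  (C.cons (nat_lit 50) (C.node (nat_lit 3) (nat_lit 6) (nat_lit 10) (C.cons (nat_lit 1352) (C.miq (nat_lit 1398933671) (nat_lit 712060351549392620936759169)) (C.cons (nat_lit 1098) (C.node (nat_lit 1) (nat_lit 7) (nat_lit 10) C.nil) C.nil))) C.nil)))) C.nil))) (C.cons (nat_lit 546) (C.node (nat_lit 1) (nat_lit 7) (nat_lit 9) (C.cons (nat_lit 642) (C.node (nat_lit 2) (nat_lit 5) (nat_lit 9) (C.cons (nat_lit 564) (C.node (nat_lit 2) (nat_lit 7) (nat_lit 9) C.nil) (C.cons (nat_lit 548) (C.node (nat_lit 2) (nat_lit 4) (nat_lit 9) (C.cons (nat_lit 532) (C.node (nat_lit 2) (nat_lit 7) (nat_lit 9) C.nil) C.nil)) C.nil))) C.nil)) C.nil))) C.nil)))) C.nil)) C.nil))) C.nil)) C.nil))) C.nil))) C.nil))) C.nil))) C.nil))) C.nil)))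 C.nil))))) (C.cons (nat_lit 776) (C.ref (nat_lit 142) (nat_lit 11649936536080)) C.nil))) C.nil)) C.nil))) C.nil)) C.nil))) List.nil)

theorem ok11_143 : okL par11 (nat_lit 144) c11_143 (nat_lit 143) = true := by decide +kernel


end Pool.Agent.MP_1f1ca1_co

end

section

set_option autoImplicit false
set_option maxRecDepth 1000000
set_option maxHeartbeats 0

namespace Pool.Agent.MP_1f1ca1_co

noncomputable def c11_171 : List C :=
  (List.cons (C.node (nat_lit 2) (nat_lit 4) (nat_lit 9) (C.cons (nat_lit 1556) (C.ref (nat_lit 148) (nat_lit 11430141571600)) (C.cons (nat_lit 564) (C.node (nat_lit 2) (nat_lit 9) (nat_lit 10) (C.cons (nat_lit 1540) (C.node (nat_lit 1) (nat_lit 2) (nat_lit 4) (C.cons (nat_lit 30) (C.node (nat_lit 2) (nat_lit 4) (nat_lit 10) (C.cons (nat_lit 1044) (C.node (nat_lit 3) (nat_lit 4) (nat_lit 5) (C.cons (nat_lit 56) (C.node (nat_lit 1) (nat_lit 2) (nat_lit 7) (C.cons (nat_lit 390) (C.node (nat_lit 1) (nat_lit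 2) (nat_lit 9) (C.cons (nat_lit 518) (C.node (nat_lit 2) (nat_lit 3) (nat_lit 7) (C.cons (nat_lit 140) (C.node (nat_lit 2) (nat_lit 8) (nat_lit 9) (C.cons (nat_lit 772) (C.node (nat_lit 1) (nat_lit 4) (nat_lit 6) (C.cons (nat_lit 338) (C.miq (nat_lit 1384384278) (nat_lit 334893426027709135370453187)) (C.cons (nat_lit 82) (C.node (nat_lit 1) (nat_lit 4) (nat_lit 7) (C.cons (nat_lit 178) (C.miq (nat_lit 1649871169) (nat_lit 199476357517299370844881427)) (C.cons (nat_lit 146) (C.node (nat_lit 1) (nat_lit 4) (nat_lit 10) (C.cons (nat_lit 1298) (C.miq (nat_lit 1410468487) (nat_lit 36270818621253660730328961)) (C.cons (nat_lit 1042) (C.node (nat_lit 4) (nat_lit 5) (nat_lit 7) (C.cons (nat_lit 432) (C.miq (nat_lit 2175037957) (nat_lit 1259708673141663111673086117)) (C.cons (nat_lit 176) (C.node (nat_lit 4) (nat_lit 7) (nat_lit 8) (C.cons (nat_lit 464) (C.miq (nat_lit 2759984753) (nat_lit 334891470946431317351727299)) (C.cons (nat_lit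 400) (C.node (nat_lit 1) (nat_lit 7) (nat_lit 10) (C.cons (nat_lit 1194) (C.miq (nat_lit 1361356672) (nat_lit 36288748872533480249296769)) (C.cons (nat_lit 1186) (C.miq (nat_lit 1361356672) (nat_lit 36288748870281680435611521)) (C.cons (nat_lit 1162) (C.miq (nat_lit 2268334610) (nat_lit 184970760689865102290977799)) (C.cons (nat_lit 1154) (C.node (nat_lit 1) (nat_lit 2) (nat_lit 5) (C.cons (nat_lit 102) (C.node (nat_lit 1) (nat_lit 6) (nat_lit 9) (C.cons (nat_lit 834) (C.miq (nat_lit 1468080278) (nat_lit 471482951264052518353764941)) C.nil)) (C.cons (nat_lit 38) (C.node (nat_lit 1) (nat_lit 2) (nat_lit 6) C.nil) C.nil))) C.nil))))) C.nil))) C.nil))) C.nil))) C.nil))) C.nil))) C.nil)) C.nil)) C.nil)) (C.cons (nat_lit 134) (C.node (nat_lit 1) (nat_lit 2) (nat_lit 9) (C.cons (nat_lit 774) (C.node (nat_lit 1) (nat_lit 4) (nat_lit 6) (C.cons (nat_lit 338) (C.miq (nat_lit 2014578979) (nat_lit 408619749922304693179908685)) (C.cons (nat_lit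 82) (C.node (nat_lit 1) (nat_lit 4) (nat_lit 10) (C.cons (nat_lit 1298) (C.miq (nat_lit 1678903945) (nat_lit 36278640040740913605379969)) (C.cons (nat_lit 1042) (C.node (nat_lit 1) (nat_lit 6) (nat_lit 9) (C.cons (nat_lit 610) (C.miq (nat_lit 369661250) (nat_lit 388079466047913635463103028)) (C.cons (nat_lit 578) (C.node (nat_lit 2) (nat_lit 3) (nat_lit 7) (C.cons (nat_lit 396) (C.node (nat_lit 2) (nat_lit 6) (nat_lit 8) (C.cons (nat_lit 356) (C.miq (nat_lit 1651791920) (nat_lit 178941995351183718142771497)) (C.cons (nat_lit 324) (C.node (nat_lit 2) (nat_lit 5) (nat_lit 8) (C.cons (nat_lit 1316) (C.miq (nat_lit 1379182704) (nat_lit 36288748906873453169674113)) (C.cons (nat_lit 292) (C.node (nat_lit 2) (nat_lit 8) (nat_lit 10) (C.cons (nat_lit 1284) (C.node (nat_lit 2) (nat_lit 3) (nat_lit 10) (C.cons (nat_lit 1068) (C.node (nat_lit 1) (nat_lit 2) (nat_lit 5) (C.cons (nat_lit 102) (C.node (nat_lit 3) (nat_lit 4) (nat_lit 6) (C.cons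 (nat_lit 344) (C.miq (nat_lit 1384515380) (nat_lit 391712939549596732351840409)) (C.cons (nat_lit 88) (C.node (nat_lit 3) (nat_lit 5) (nat_lit 6) (C.cons (nat_lit 232) (C.miq (nat_lit 305597014) (nat_lit 478738221972692814575174769)) (C.cons (nat_lit 104) (C.node (nat_lit 4) (nat_lit 6) (nat_lit 8) (C.cons (nat_lit 848) (C.miq (nat_lit 2175046150) (nat_lit 1259716347095284165903450701)) (C.cons (nat_lit 464) (C.miq (nat_lit 410292784) (nat_lit 560951375740154409626698317)) C.nil))) C.nil))) C.nil))) C.nil)) C.nil)) C.nil)) C.nil))) C.nil))) (C.cons (nat_lit 140)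
  (C.miq (nat_lit 2184679744) (nat_lit 169285051159275441340613139)) C.nil))) C.nil))) C.nil))) C.nil))) (C.cons (nat_lit 518) (C.node (nat_lit 2) (nat_lit 8) (nat_lit 9) (C.cons (nat_lit 772) (C.node (nat_lit 2) (nat_lit 3) (nat_lit 7) (C.cons (nat_lit 396) (C.miq (nat_lit 2182705984) (nat_lit 626259010867207728207691929)) (C.cons (nat_lit 140) (C.node (nat_lit 2) (nat_lit 7) (nat_lit 8) (C.cons (nat_lit 388) (C.node (nat_lit 1) (nat_lit 4) (nat_lit 7) (C.cons (nat_lit 434) (C.miq (nat_lit 1649871169) (nat_lit 199476357517299370861658643)) (C.cons (nat_lit 402) (C.miq (nat_lit 2166977584) (nat_lit 626259010868896578071756953)) (C.cons (nat_lit 178) (C.miq (nat_lit 1649871169) (nat_lit 199476357517299370844881427)) (C.cons (nat_lit 146) (C.node (nat_lit 1) (nat_lit 4) (nat_lit 5) (C.cons (nat_lit 306) (C.node (nat_lit 1) (nat_lit 4) (nat_lit 6) (C.cons (nat_lit 82) (C.node (nat_lit 1) (nat_lit 4) (nat_lit 10) (C.cons (nat_lit 1042)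 (C.node (nat_lit 4) (nat_lit 5) (nat_lit 7) (C.cons (nat_lit 176) (C.node (nat_lit 1) (nat_lit 2) (nat_lit 5) (C.cons (nat_lit 38) (C.node (nat_lit 1) (nat_lit 2) (nat_lit 6) C.nil) C.nil)) C.nil)) C.nil)) C.nil)) (C.cons (nat_lit 50) (C.node (nat_lit 1) (nat_lit 4) (nat_lit 6) (C.cons (nat_lit 338) (C.node (nat_lit 1) (nat_lit 4) (nat_lit 10) (C.cons (nat_lit 1042) (C.node (nat_lit 3) (nat_lit 4) (nat_lit 6) (C.cons (nat_lit 88) (C.node (nat_lit 4) (nat_lit 8) (nat_lit 9) (C.cons (nat_lit 792) (C.miq (nat_lit 2216334112) (nat_lit 1259736140456737506563916365)) (C.cons (nat_lit 784) (C.node (nat_lit 1) (nat_lit 2) (nat_lit 6) (C.cons (nat_lit 70) (C.node (nat_lit 1) (nat_lit 2) (nat_lit 5) C.nil) C.nil)) C.nil))) C.nil)) C.nil)) (C.cons (nat_lit 82) (C.node (nat_lit 1) (nat_lit 4) (nat_lit 8) (C.cons (nat_lit 1298) (C.node (nat_lit 1) (nat_lit 6) (nat_lit 10) (C.cons (nat_lit 1098) (C.miq (nat_lit 2184265834) (nat_lit 36291718540217648595731569))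 (C.cons (nat_lit 1090) (C.node (nat_lit 3) (nat_lit 4) (nat_lit 6) (C.cons (nat_lit 344) (C.miq (nat_lit 2199995914) (nat_lit 36291718559076472030954609)) (C.cons (nat_lit 88) (C.node (nat_lit 1) (nat_lit 7) (nat_lit 10) C.nil) C.nil))) C.nil))) (C.cons (nat_lit 274) (C.node (nat_lit 1) (nat_lit 4) (nat_lit 10) (C.cons (nat_lit 1042) (C.node (nat_lit 2) (nat_lit 3) (nat_lit 5) (C.cons (nat_lit 44) (C.node (nat_lit 2) (nat_lit 3) (nat_lit 8) C.nil) C.nil)) C.nil)) C.nil))) C.nil))) C.nil))) C.nil))))) C.nil)) C.nil))) C.nil)) C.nil))) C.nil))) C.nil)) C.nil)) (C.cons (nat_lit 22) (C.node (nat_lit 1) (nat_lit 2) (nat_lit 9) (C.cons (nat_lit 774) (C.node (nat_lit 1) (nat_lit 6) (nat_lit 9) (C.cons (nat_lit 610) (C.miq (nat_lit 369661250) (nat_lit 388079466047913635463103028)) (C.cons (nat_lit 578) (C.node (nat_lit 2) (nat_lit 6) (nat_lit 8) (C.cons (nat_lit 356) (C.miq (nat_lit 275289170) (nat_lit 388079466025677112308138548)) (C.cons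 (nat_lit 324) (C.node (nat_lit 2) (nat_lit 5) (nat_lit 8) (C.cons (nat_lit 1316) (C.miq (nat_lit 1377085584) (nat_lit 26617342349958043294435201)) (C.cons (nat_lit 292) (C.node (nat_lit 2) (nat_lit 7) (nat_lit 8) (C.cons (nat_lit 396) (C.miq (nat_lit 873623704) (nat_lit 26603672985242982941067137)) (C.cons (nat_lit 388) (C.node (nat_lit 1) (nat_lit 4) (nat_lit 7) (C.cons (nat_lit 434) (C.miq (nat_lit 840173959) (nat_lit 26599190549157205020641153)) (C.cons (nat_lit 402) (C.miq (nat_lit 840173959) (nat_lit 26599190549157205018544001)) (C.cons (nat_lit 178) (C.miq (nat_lit 1649871169) (nat_lit 199476357517299370844881427)) (C.cons (nat_lit 146) (C.node (nat_lit 1) (nat_lit 2) (nat_lit 6) (C.cons (nat_lit 102) (C.node (nat_lit 1) (nat_lit 2) (nat_lit 3) (C.cons (nat_lit 142) (C.miq (nat_lit 1366581808) (nat_lit 176524143640458724787159629)) (C.cons (nat_lit 14) (C.node (nat_lit 1) (nat_lit 2) (nat_lit 7) (C.cons (nat_lit 134) (C.node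 (nat_lit 2) (nat_lit 3) (nat_lit 7) (C.cons (nat_lit 140) (C.node (nat_lit 4) (nat_lit 5) (nat_lit 7) C.nil) C.nil)) C.nil)) C.nil))) (C.cons (nat_lit 70) (C.node (nat_lit 2) (nat_lit 5) (nat_lit 6)
  (C.cons (nat_lit 100) (C.node (nat_lit 5) (nat_lit 8) (nat_lit 10) (C.cons (nat_lit 1314) (C.miq (nat_lit 1361488016) (nat_lit 84645781690897293730711425)) (C.cons (nat_lit 1312) (C.node (nat_lit 5) (nat_lit 8) (nat_lit 9) (C.cons (nat_lit 864) (C.miq (nat_lit 441983081) (nat_lit 1586124953404512112830579277)) (C.cons (nat_lit 800) (C.node (nat_lit 6) (nat_lit 8) (nat_lit 9) (C.cons (nat_lit 848) (C.miq (nat_lit 2793538705) (nat_lit 391710984468320537855525395)) (C.cons (nat_lit 832) (C.node (nat_lit 1) (nat_lit 2) (nat_lit 5) (C.cons (nat_lit 46) (C.node (nat_lit 1) (nat_lit 2) (nat_lit 7) (C.cons (nat_lit 134) (C.node (nat_lit 2) (nat_lit 3) (nat_lit 7) (C.cons (nat_lit 140) (C.node (nat_lit 2) (nat_lit 5) (nat_lit 10) C.nil) C.nil))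 C.nil)) (C.cons (nat_lit 38) (C.node (nat_lit 1) (nat_lit 2) (nat_lit 3) (C.cons (nat_lit 142) (C.node (nat_lit 2) (nat_lit 3) (nat_lit 4) (C.cons (nat_lit 28) (C.node (nat_lit 2) (nat_lit 4) (nat_lit 10) C.nil) C.nil)) (C.cons (nat_lit 14) (C.node (nat_lit 1) (nat_lit 2) (nat_lit 7) C.nil) C.nil))) C.nil))) C.nil))) C.nil))) C.nil))) C.nil)) C.nil))) C.nil))))) C.nil))) C.nil))) C.nil))) C.nil))) (C.cons (nat_lit 518) (C.node (nat_lit 2) (nat_lit 8) (nat_lit 9) (C.cons (nat_lit 772) (C.node (nat_lit 2) (nat_lit 3) (nat_lit 4) (C.cons (nat_lit 1052) (C.node (nat_lit 4) (nat_lit 9) (nat_lit 10) (C.cons (nat_lit 1552) (C.node (nat_lit 1) (nat_lit 4) (nat_lit 10) (C.cons (nat_lit 1298) (C.node (nat_lit 1) (nat_lit 4) (nat_lit 7) (C.cons (nat_lit 178) (C.miq (nat_lit 1649871169) (nat_lit 199476357517299370844881427)) (C.cons (nat_lit 146) (C.node (nat_lit 1) (nat_lit 6) (nat_lit 10) (C.cons (nat_lit 1098) (C.miq (nat_lit 2170571314)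 (nat_lit 235745644938320342296626204)) (C.cons (nat_lit 1090) (C.node (nat_lit 3) (nat_lit 4) (nat_lit 9) (C.cons (nat_lit 792) (C.miq (nat_lit 338864272) (nat_lit 1271808981193087807761745793)) (C.cons (nat_lit 536) (C.node (nat_lit 3) (nat_lit 4) (nat_lit 8) (C.cons (nat_lit 344) (C.miq (nat_lit 408986674) (nat_lit 388084207054791956906181660)) (C.cons (nat_lit 280) (C.node (nat_lit 4) (nat_lit 5) (nat_lit 7) (C.cons (nat_lit 432) (C.miq (nat_lit 340961392) (nat_lit 681853181221147224289118081)) (C.cons (nat_lit 176) (C.node (nat_lit 4) (nat_lit 5) (nat_lit 8) (C.cons (nat_lit 304) (C.node (nat_lit 4) (nat_lit 8) (nat_lit 9) (C.cons (nat_lit 848) (C.miq (nat_lit 342010000) (nat_lit 101568787806127007164336001)) (C.cons (nat_lit 784) (C.node (nat_lit 1) (nat_lit 2) (nat_lit 7) (C.cons (nat_lit 398) (C.miq (nat_lit 1410468487) (nat_lit 26599412064336627333203841)) (C.cons (nat_lit 390) (C.miq (nat_lit 1410468487) (nat_lit 26599412064336627332679553))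 (C.cons (nat_lit 142) (C.miq (nat_lit 1681328673) (nat_lit 184969247836174203927528455)) (C.cons (nat_lit 134) (C.node (nat_lit 1) (nat_lit 4) (nat_lit 5) (C.cons (nat_lit 58) (C.node (nat_lit 1) (nat_lit 4) (nat_lit 6) (C.cons (nat_lit 82) (C.node (nat_lit 3) (nat_lit 4) (nat_lit 6) C.nil) C.nil)) (C.cons (nat_lit 50) (C.node (nat_lit 3) (nat_lit 4) (nat_lit 5) C.nil) C.nil))) C.nil))))) C.nil))) C.nil)) C.nil))) C.nil))) C.nil))) C.nil))) C.nil))) (C.cons (nat_lit 1042) (C.node (nat_lit 4) (nat_lit 8) (nat_lit 10) (C.cons (nat_lit 1296) (C.node (nat_lit 2) (nat_lit 3) (nat_lit 5) (C.cons (nat_lit 46) (C.node (nat_lit 3) (nat_lit 4) (nat_lit 5) (C.cons (nat_lit 56) (C.node (nat_lit 1) (nat_lit 2) (nat_lit 6) (C.cons (nat_lit 326) (C.node (nat_lit 1) (nat_lit 2) (nat_lit 7) (C.cons (nat_lit 134) (C.node (nat_lit 2) (nat_lit 5) (nat_lit 6) (C.cons (nat_lit 100) (C.node (nat_lit 2) (nat_lit 3) (nat_lit 7) (C.cons (nat_lit 396) (C.node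 (nat_lit 2) (nat_lit 5) (nat_lit 8) (C.cons (nat_lit 1316) (C.miq (nat_lit 1379182704) (nat_lit 1271810936553024469719385985)) C.nil)) C.nil)) C.nil)) C.nil)) (C.cons (nat_lit 70) (C.node (nat_lit 1) (nat_lit 2) (nat_lit 7) (C.cons (nat_lit 390) (C.node (nat_lit 2) (nat_lit 3) (nat_lit 7) (C.cons (nat_lit 140) (C.node (nat_lit 2) (nat_lit 3) (nat_lit 8) C.nil) C.nil)) (C.cons (nat_lit 134)
  (C.node (nat_lit 1) (nat_lit 2) (nat_lit 8) (C.cons (nat_lit 262) (C.node (nat_lit 2) (nat_lit 3) (nat_lit 7) (C.cons (nat_lit 140) (C.node (nat_lit 2) (nat_lit 3) (nat_lit 8) (C.cons (nat_lit 268) (C.node (nat_lit 2) (nat_lit 7) (nat_lit 8) C.nil) C.nil)) C.nil)) C.nil)) C.nil))) C.nil))) C.nil)) (C.cons (nat_lit 44) (C.node (nat_lit 2) (nat_lit 5) (nat_lit 10) (C.cons (nat_lit 1316) (C.node (nat_lit 2) (nat_lit 3) (nat_lit 7) (C.cons (nat_lit 398) (C.miq (nat_lit 1379182704) (nat_lit 1271810936553024478309320577)) (C.cons (nat_lit 396) (C.miq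 (nat_lit 1379182704) (nat_lit 1271810936553024469719385985)) (C.cons (nat_lit 142) (C.miq (nat_lit 1681328673) (nat_lit 184969247836174203927528455)) (C.cons (nat_lit 140) (C.node (nat_lit 1) (nat_lit 2) (nat_lit 3) (C.cons (nat_lit 270) (C.node (nat_lit 1) (nat_lit 2) (nat_lit 7) C.nil) C.nil)) C.nil))))) (C.cons (nat_lit 1060) (C.node (nat_lit 2) (nat_lit 8) (nat_lit 10) (C.cons (nat_lit 1284) (C.node (nat_lit 1) (nat_lit 2) (nat_lit 3) (C.cons (nat_lit 14) (C.node (nat_lit 1) (nat_lit 2) (nat_lit 7) C.nil) C.nil)) C.nil)) C.nil))) C.nil))) C.nil)) C.nil))) C.nil)) (C.cons (nat_lit 28) (C.node (nat_lit 2) (nat_lit 4) (nat_lit 10) (C.cons (nat_lit 1044) (C.node (nat_lit 3) (nat_lit 4) (nat_lit 5) (C.cons (nat_lit 58) (C.node (nat_lit 1) (nat_lit 4) (nat_lit 6) (C.cons (nat_lit 338) (C.node (nat_lit 1) (nat_lit 4) (nat_lit 7) (C.cons (nat_lit 146) (C.node (nat_lit 1) (nat_lit 4) (nat_lit 10) (C.cons (nat_lit 1042) (C.node (nat_lit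 3) (nat_lit 4) (nat_lit 6) (C.cons (nat_lit 88) (C.node (nat_lit 1) (nat_lit 8) (nat_lit 9) (C.cons (nat_lit 802) (C.miq (nat_lit 2018707732) (nat_lit 359053791318105017277874707)) (C.cons (nat_lit 778) (C.miq (nat_lit 2822048020) (nat_lit 359071942914273444397449747)) (C.cons (nat_lit 770) (C.node (nat_lit 1) (nat_lit 2) (nat_lit 6) (C.cons (nat_lit 102) (C.node (nat_lit 1) (nat_lit 6) (nat_lit 9) (C.cons (nat_lit 578) (C.node (nat_lit 2) (nat_lit 6) (nat_lit 8) (C.cons (nat_lit 324) (C.node (nat_lit 1) (nat_lit 3) (nat_lit 6) (C.cons (nat_lit 1098) (C.node (nat_lit 6) (nat_lit 8) (nat_lit 10) C.nil) C.nil)) C.nil)) C.nil)) (C.cons (nat_lit 70) (C.node (nat_lit 1) (nat_lit 2) (nat_lit 5) (C.cons (nat_lit 294) (C.node (nat_lit 2) (nat_lit 5) (nat_lit 6) (C.cons (nat_lit 100) (C.node (nat_lit 2) (nat_lit 6) (nat_lit 8) C.nil) C.nil)) (C.cons (nat_lit 38) (C.node (nat_lit 1) (nat_lit 2) (nat_lit 7) (C.cons (nat_lit 390) (C.miq (nat_lit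 1384384278) (nat_lit 334893426027709135370453187)) (C.cons (nat_lit 142) (C.node (nat_lit 1) (nat_lit 2) (nat_lit 8) C.nil) C.nil))) C.nil))) C.nil))) C.nil)))) C.nil)) C.nil)) C.nil)) (C.cons (nat_lit 82) (C.node (nat_lit 1) (nat_lit 4) (nat_lit 7) (C.cons (nat_lit 402) (C.node (nat_lit 1) (nat_lit 4) (nat_lit 10) (C.cons (nat_lit 1042) (C.node (nat_lit 4) (nat_lit 5) (nat_lit 7) (C.cons (nat_lit 176) (C.node (nat_lit 4) (nat_lit 5) (nat_lit 8) (C.cons (nat_lit 304) (C.node (nat_lit 2) (nat_lit 7) (nat_lit 8) (C.cons (nat_lit 396) (C.miq (nat_lit 405358384) (nat_lit 933300528076751504128409753)) (C.cons (nat_lit 388) (C.node (nat_lit 3) (nat_lit 4) (nat_lit 6) (C.cons (nat_lit 88) (C.node (nat_lit 4) (nat_lit 6) (nat_lit 7) C.nil) C.nil)) C.nil))) C.nil)) C.nil)) C.nil)) (C.cons (nat_lit 146) (C.node (nat_lit 1) (nat_lit 4) (nat_lit 8) (C.cons (nat_lit 1298) (C.node (nat_lit 4) (nat_lit 5) (nat_lit 7) (C.cons (nat_lit 432) (C.miq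 (nat_lit 340961392) (nat_lit 681853181221147224289118081)) (C.cons (nat_lit 176) (C.node (nat_lit 4) (nat_lit 5) (nat_lit 8) (C.cons (nat_lit 304) (C.node (nat_lit 3) (nat_lit 8) (nat_lit 9) (C.cons (nat_lit 792) (C.miq (nat_lit 338864272) (nat_lit 33868941907707532862621569)) (C.cons (nat_lit 778) (C.miq (nat_lit 1678969481) (nat_lit 70128562989950530497415041)) (C.cons (nat_lit 776) (C.node (nat_lit 4) (nat_lit 8) (nat_lit 9) (C.cons (nat_lit 848) (C.miq (nat_lit 342010000) (nat_lit 101568787806127007164336001)) (C.cons (nat_lit 784) (C.node (nat_lit 6) (nat_lit 8) (nat_lit 10)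
  (C.cons (nat_lit 1352) (C.miq (nat_lit 423116906) (nat_lit 938150380044225657027691633)) (C.cons (nat_lit 1344) (C.node (nat_lit 3) (nat_lit 8) (nat_lit 10) (C.cons (nat_lit 1292) (C.miq (nat_lit 944318992) (nat_lit 947808708073799932708062215)) (C.cons (nat_lit 1288) (C.node (nat_lit 3) (nat_lit 4) (nat_lit 9) (C.cons (nat_lit 536) (C.node (nat_lit 3) (nat_lit 4) (nat_lit 10) C.nil) C.nil)) C.nil))) C.nil))) C.nil))) C.nil)))) C.nil)) C.nil))) (C.cons (nat_lit 274) (C.node (nat_lit 1) (nat_lit 4) (nat_lit 10) (C.cons (nat_lit 1042) (C.node (nat_lit 2) (nat_lit 3) (nat_lit 5) (C.cons (nat_lit 1068) (C.node (nat_lit 2) (nat_lit 8) (nat_lit 10) (C.cons (nat_lit 1284) (C.node (nat_lit 5) (nat_lit 8) (nat_lit 10) (C.cons (nat_lit 1314) (C.miq (nat_lit 2705818928) (nat_lit 176538606228959824071688489)) (C.cons (nat_lit 1312) (C.node (nat_lit 5) (nat_lit 9) (nat_lit 10) (C.cons (nat_lit 1570) (C.miq (nat_lit 2052262164) (nat_lit 1291135598240987409511219731))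 (C.cons (nat_lit 1568) (C.node (nat_lit 1) (nat_lit 5) (nat_lit 10) (C.cons (nat_lit 1186) (C.node (nat_lit 3) (nat_lit 7) (nat_lit 10) C.nil) C.nil)) C.nil))) C.nil))) C.nil)) (C.cons (nat_lit 44) (C.node (nat_lit 2) (nat_lit 3) (nat_lit 10) (C.cons (nat_lit 1292) (C.node (nat_lit 2) (nat_lit 5) (nat_lit 10) (C.cons (nat_lit 1060) (C.node (nat_lit 1) (nat_lit 2) (nat_lit 3) C.nil) C.nil)) (C.cons (nat_lit 1036) (C.node (nat_lit 2) (nat_lit 5) (nat_lit 10) (C.cons (nat_lit 1316) (C.node (nat_lit 1) (nat_lit 2) (nat_lit 5) C.nil) (C.cons (nat_lit 1060) (C.node (nat_lit 2) (nat_lit 8) (nat_lit 10) C.nil) C.nil))) C.nil))) C.nil))) C.nil)) C.nil))) C.nil))) C.nil))) (C.cons (nat_lit 56) (C.node (nat_lit 4) (nat_lit 7) (nat_lit 9) (C.cons (nat_lit 720) (C.node (nat_lit 4) (nat_lit 5) (nat_lit 7) (C.cons (nat_lit 434) (C.miq (nat_lit 1683199872) (nat_lit 67710711233342495976392577)) (C.cons (nat_lit 432) (C.miq (nat_lit 1683199872)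 (nat_lit 67710711233342487386457985)) (C.cons (nat_lit 178) (C.miq (nat_lit 1649871169) (nat_lit 199476357517299370844881427)) (C.cons (nat_lit 176) (C.node (nat_lit 1) (nat_lit 4) (nat_lit 5) (C.cons (nat_lit 306) (C.node (nat_lit 1) (nat_lit 4) (nat_lit 7) (C.cons (nat_lit 146) (C.node (nat_lit 4) (nat_lit 7) (nat_lit 8) (C.cons (nat_lit 400) (C.node (nat_lit 5) (nat_lit 8) (nat_lit 9) (C.cons (nat_lit 864) (C.miq (nat_lit 895748247) (nat_lit 1374551479337278428184315777)) (C.cons (nat_lit 800) (C.node (nat_lit 5) (nat_lit 6) (nat_lit 9) (C.cons (nat_lit 610) (C.miq (nat_lit 2190557285) (nat_lit 626229219342035565945160817)) (C.cons (nat_lit 608) (C.node (nat_lit 1) (nat_lit 4) (nat_lit 6) (C.cons (nat_lit 90) (C.node (nat_lit 2) (nat_lit 5) (nat_lit 6) (C.cons (nat_lit 356) (C.miq (nat_lit 422068325) (nat_lit 933296377595646020388390001)) (C.cons (nat_lit 102) (C.miq (nat_lit 1947534178) (nat_lit 369934344557914747526578765))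 C.nil))) (C.cons (nat_lit 82) (C.node (nat_lit 1) (nat_lit 3) (nat_lit 4) (C.cons (nat_lit 1050) (C.node (nat_lit 4) (nat_lit 8) (nat_lit 10) (C.cons (nat_lit 1296) (C.node (nat_lit 4) (nat_lit 9) (nat_lit 10) C.nil) C.nil)) (C.cons (nat_lit 26) (C.node (nat_lit 1) (nat_lit 4) (nat_lit 10) C.nil) C.nil))) C.nil))) C.nil))) C.nil))) C.nil)) C.nil)) (C.cons (nat_lit 50) (C.node (nat_lit 4) (nat_lit 5) (nat_lit 8) (C.cons (nat_lit 304) (C.node (nat_lit 1) (nat_lit 4) (nat_lit 7) (C.cons (nat_lit 402) (C.node (nat_lit 1) (nat_lit 4) (nat_lit 6) (C.cons (nat_lit 90) (C.miq (nat_lit 2150725988) (nat_lit 13305600147594512164324048)) (C.cons (nat_lit 82) (C.node (nat_lit 2) (nat_lit 7) (nat_lit 8) (C.cons (nat_lit 396) (C.miq (nat_lit 405358384) (nat_lit 933300528076751504128409753)) (C.cons (nat_lit 388) (C.node (nat_lit 1) (nat_lit 3) (nat_lit 4) C.nil) C.nil))) C.nil))) (C.cons (nat_lit 146) (C.node (nat_lit 4) (nat_lit 7) (nat_lit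 8) (C.cons (nat_lit 400) (C.node (nat_lit 4) (nat_lit 8) (nat_lit 9) (C.cons (nat_lit 792) (C.node (nat_lit 4) (nat_lit 9) (nat_lit 10) C.nil) (C.cons (nat_lit 784)
  (C.node (nat_lit 3) (nat_lit 6) (nat_lit 7) C.nil) C.nil))) C.nil)) C.nil))) C.nil)) C.nil))) C.nil))))) (C.cons (nat_lit 656) (C.node (nat_lit 4) (nat_lit 6) (nat_lit 7) (C.cons (nat_lit 464) (C.node (nat_lit 4) (nat_lit 6) (nat_lit 9) (C.cons (nat_lit 592) (C.node (nat_lit 1) (nat_lit 4) (nat_lit 7) (C.cons (nat_lit 178) (C.miq (nat_lit 1649871169) (nat_lit 199476357517299370844881427)) (C.cons (nat_lit 146) (C.node (nat_lit 4) (nat_lit 5) (nat_lit 7) (C.cons (nat_lit 176) (C.node (nat_lit 1) (nat_lit 4) (nat_lit 5) (C.cons (nat_lit 306) (C.node (nat_lit 5) (nat_lit 7) (nat_lit 8) (C.cons (nat_lit 416) (C.node (nat_lit 4) (nat_lit 8) (nat_lit 9) (C.cons (nat_lit 792) (C.node (nat_lit 4) (nat_lit 9) (nat_lit 10) C.nil) C.nil)) C.nil)) (C.cons (nat_lit 50) (C.node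 (nat_lit 4) (nat_lit 5) (nat_lit 8) (C.cons (nat_lit 304) (C.node (nat_lit 3) (nat_lit 6) (nat_lit 7) C.nil) C.nil)) C.nil))) C.nil)) C.nil))) C.nil)) (C.cons (nat_lit 208) (C.node (nat_lit 4) (nat_lit 6) (nat_lit 9) (C.cons (nat_lit 848) (C.node (nat_lit 6) (nat_lit 7) (nat_lit 9) (C.cons (nat_lit 736) (C.miq (nat_lit 610601111) (nat_lit 1374551700692577744446293889)) (C.cons (nat_lit 704) (C.node (nat_lit 4) (nat_lit 5) (nat_lit 7) (C.cons (nat_lit 434) (C.miq (nat_lit 1683134576) (nat_lit 681845027633602913737443201)) (C.cons (nat_lit 432) (C.miq (nat_lit 1683134576) (nat_lit 681845027633602905147508609)) (C.cons (nat_lit 178) (C.miq (nat_lit 1649871169) (nat_lit 199476357517299370844881427)) (C.cons (nat_lit 176) (C.node (nat_lit 1) (nat_lit 4) (nat_lit 5) (C.cons (nat_lit 306) (C.node (nat_lit 1) (nat_lit 4) (nat_lit 7) (C.cons (nat_lit 146) (C.node (nat_lit 4) (nat_lit 7) (nat_lit 8) C.nil) C.nil)) (C.cons (nat_lit 50) (C.node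 (nat_lit 4) (nat_lit 5) (nat_lit 8) (C.cons (nat_lit 304) (C.node (nat_lit 1) (nat_lit 4) (nat_lit 7) (C.cons (nat_lit 402) (C.node (nat_lit 1) (nat_lit 6) (nat_lit 9) C.nil) C.nil)) C.nil)) C.nil))) C.nil))))) C.nil))) (C.cons (nat_lit 592) (C.node (nat_lit 4) (nat_lit 8) (nat_lit 9) (C.cons (nat_lit 792) (C.node (nat_lit 4) (nat_lit 9) (nat_lit 10) (C.cons (nat_lit 1552) (C.node (nat_lit 4) (nat_lit 8) (nat_lit 10) (C.cons (nat_lit 1298) (C.miq (nat_lit 338864272) (nat_lit 33868941907707532862621569)) (C.cons (nat_lit 1296) (C.node (nat_lit 4) (nat_lit 5) (nat_lit 7) (C.cons (nat_lit 434) (C.miq (nat_lit 877828208) (nat_lit 681845027617840315041646465)) (C.cons (nat_lit 432) (C.miq (nat_lit 877828208) (nat_lit 681845027617840306451711873)) (C.cons (nat_lit 178) (C.miq (nat_lit 1649871169) (nat_lit 199476357517299370844881427)) (C.cons (nat_lit 176) (C.node (nat_lit 1) (nat_lit 4) (nat_lit 5) (C.cons (nat_lit 50) (C.node (nat_lit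 4) (nat_lit 5) (nat_lit 8) C.nil) C.nil)) C.nil))))) C.nil))) C.nil)) (C.cons (nat_lit 784) (C.node (nat_lit 3) (nat_lit 4) (nat_lit 9) (C.cons (nat_lit 1560) (C.node (nat_lit 1) (nat_lit 4) (nat_lit 10) (C.cons (nat_lit 1298) (C.node (nat_lit 1) (nat_lit 3) (nat_lit 4) (C.cons (nat_lit 90) (C.miq (nat_lit 2051082550) (nat_lit 1569189311515603172547232333)) (C.cons (nat_lit 26) (C.node (nat_lit 1) (nat_lit 4) (nat_lit 6) C.nil) C.nil))) (C.cons (nat_lit 1042) (C.node (nat_lit 4) (nat_lit 8) (nat_lit 10) (C.cons (nat_lit 1296) (C.node (nat_lit 1) (nat_lit 9) (nat_lit 10) C.nil) C.nil)) C.nil))) (C.cons (nat_lit 536) (C.node (nat_lit 4) (nat_lit 9) (nat_lit 10) (C.cons (nat_lit 1552) (C.node (nat_lit 3) (nat_lit 8) (nat_lit 9) C.nil) C.nil)) C.nil))) C.nil))) C.nil))) C.nil))) C.nil))) C.nil))) C.nil)) C.nil))) C.nil)) C.nil))) C.nil))) C.nil)) (C.cons (nat_lit 532) (C.node (nat_lit 2) (nat_lit 4) (nat_lit 10) (C.cons (nat_lit 1052)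 (C.node (nat_lit 4) (nat_lit 9) (nat_lit 10) (C.cons (nat_lit 1552) (C.node (nat_lit 1) (nat_lit 2) (nat_lit 4) (C.cons (nat_lit 54) (C.node (nat_lit 2) (nat_lit 3) (nat_lit 5) (C.cons (nat_lit 44) (C.node (nat_lit 1) (nat_lit 2) (nat_lit 6) (C.cons (nat_lit 326) (C.node (nat_lit 1) (nat_lit 2) (nat_lit 9) (C.cons (nat_lit 518) (C.node (nat_lit 2) (nat_lit 5) (nat_lit 6)
  (C.cons (nat_lit 100) (C.node (nat_lit 1) (nat_lit 2) (nat_lit 3) (C.cons (nat_lit 142) (C.miq (nat_lit 1681328673) (nat_lit 184969247836174203927528455)) (C.cons (nat_lit 14) (C.node (nat_lit 1) (nat_lit 2) (nat_lit 7) (C.cons (nat_lit 134) (C.node (nat_lit 1) (nat_lit 4) (nat_lit 7) (C.cons (nat_lit 402) (C.miq (nat_lit 880936726) (nat_lit 334883317208579094354460867)) (C.cons (nat_lit 146) (C.node (nat_lit 1) (nat_lit 4) (nat_lit 10) (C.cons (nat_lit 1298) (C.miq (nat_lit 2166858832) (nat_lit 162031496389080657168761969)) (C.cons (nat_lit 1042) (C.node (nat_lit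 4) (nat_lit 8) (nat_lit 10) (C.cons (nat_lit 1296) (C.node (nat_lit 2) (nat_lit 8) (nat_lit 10) (C.cons (nat_lit 1316) (C.miq (nat_lit 2182718784) (nat_lit 626259011126164809860711537)) (C.cons (nat_lit 1284) (C.node (nat_lit 4) (nat_lit 5) (nat_lit 7) (C.cons (nat_lit 688) (C.miq (nat_lit 2807171393) (nat_lit 199491779370270193576444435)) (C.cons (nat_lit 432) (C.miq (nat_lit 2216326432) (nat_lit 1259736140355406618027294885)) C.nil))) C.nil))) C.nil)) C.nil))) C.nil))) C.nil)) C.nil))) C.nil)) C.nil)) (C.cons (nat_lit 70) (C.node (nat_lit 1) (nat_lit 2) (nat_lit 9) (C.cons (nat_lit 774) (C.node (nat_lit 1) (nat_lit 2) (nat_lit 3) (C.cons (nat_lit 142) (C.miq (nat_lit 1681328673) (nat_lit 184969247836174203927528455)) (C.cons (nat_lit 14) (C.node (nat_lit 1) (nat_lit 2) (nat_lit 7) (C.cons (nat_lit 134) (C.node (nat_lit 1) (nat_lit 4) (nat_lit 7) (C.cons (nat_lit 402) (C.miq (nat_lit 840173959) (nat_lit 65284816776825338609141633))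 (C.cons (nat_lit 146) (C.node (nat_lit 1) (nat_lit 4) (nat_lit 10) (C.cons (nat_lit 1298) (C.miq (nat_lit 1093052560) (nat_lit 84645781686393694103340929)) (C.cons (nat_lit 1042) (C.node (nat_lit 4) (nat_lit 8) (nat_lit 10) (C.cons (nat_lit 1296) (C.node (nat_lit 1) (nat_lit 6) (nat_lit 9) (C.cons (nat_lit 610) (C.miq (nat_lit 2219909225) (nat_lit 65296272117076478593729101)) (C.cons (nat_lit 578) (C.node (nat_lit 2) (nat_lit 3) (nat_lit 7) (C.cons (nat_lit 396) (C.miq (nat_lit 305436784) (nat_lit 1271799757673556364353931137)) (C.cons (nat_lit 140) (C.node (nat_lit 2) (nat_lit 3) (nat_lit 8) (C.cons (nat_lit 268) (C.node (nat_lit 2) (nat_lit 8) (nat_lit 10) (C.cons (nat_lit 1284) (C.miq (nat_lit 1518485649) (nat_lit 1552261748829409139841434131)) C.nil)) C.nil)) C.nil))) C.nil))) C.nil)) C.nil))) C.nil))) C.nil)) C.nil))) (C.cons (nat_lit 518) (C.node (nat_lit 2) (nat_lit 8) (nat_lit 10) (C.cons (nat_lit 1316) (C.miq (nat_lit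 2182718784) (nat_lit 626259011126164809860711537)) (C.cons (nat_lit 1284) (C.node (nat_lit 1) (nat_lit 4) (nat_lit 7) (C.cons (nat_lit 402) (C.node (nat_lit 1) (nat_lit 4) (nat_lit 10) (C.cons (nat_lit 1042) (C.node (nat_lit 4) (nat_lit 8) (nat_lit 10) (C.cons (nat_lit 1296) (C.node (nat_lit 1) (nat_lit 2) (nat_lit 7) (C.cons (nat_lit 142) (C.miq (nat_lit 1681328673) (nat_lit 184969247836174203927528455)) (C.cons (nat_lit 134) (C.node (nat_lit 2) (nat_lit 3) (nat_lit 7) (C.cons (nat_lit 396) (C.miq (nat_lit 2190570244) (nat_lit 626230990262962164285505689)) (C.cons (nat_lit 140) (C.node (nat_lit 2) (nat_lit 7) (nat_lit 8) (C.cons (nat_lit 388) (C.node (nat_lit 2) (nat_lit 5) (nat_lit 10) (C.cons (nat_lit 1060) (C.node (nat_lit 2) (nat_lit 9) (nat_lit 10) C.nil) C.nil)) C.nil)) C.nil))) C.nil))) C.nil)) C.nil)) (C.cons (nat_lit 146) (C.node (nat_lit 1) (nat_lit 4) (nat_lit 10) (C.cons (nat_lit 1298) (C.node (nat_lit 5) (nat_lit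 8) (nat_lit 10) (C.cons (nat_lit 1312) (C.node (nat_lit 1) (nat_lit 6) (nat_lit 10) (C.cons (nat_lit 1098) (C.miq (nat_lit 2170571314) (nat_lit 235745644938320342296626204)) (C.cons (nat_lit 1090) (C.node (nat_lit 4) (nat_lit 5) (nat_lit 7) (C.cons (nat_lit 688) (C.miq (nat_lit 2220335392) (nat_lit 831776400455585219955983367)) (C.cons (nat_lit 432) (C.node (nat_lit 2) (nat_lit 8) (nat_lit 9) (C.cons (nat_lit 804) (C.miq (nat_lit 844368263) (nat_lit 65284816776825467460126593)) (C.cons (nat_lit 772) (C.node (nat_lit 4) (nat_lit 6) (nat_lit 7) (C.cons (nat_lit 720)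
  (C.miq (nat_lit 910494072) (nat_lit 1374554135750615117065095041)) (C.cons (nat_lit 208) (C.node (nat_lit 4) (nat_lit 7) (nat_lit 9) (C.cons (nat_lit 656) (C.node (nat_lit 4) (nat_lit 6) (nat_lit 9) (C.cons (nat_lit 848) (C.miq (nat_lit 1683134576) (nat_lit 65292859630142026047358849)) (C.cons (nat_lit 592) (C.node (nat_lit 2) (nat_lit 5) (nat_lit 6) C.nil) C.nil))) C.nil)) C.nil))) C.nil))) (C.cons (nat_lit 176) (C.miq (nat_lit 2220335392) (nat_lit 212806380812895082506421255)) C.nil)))) C.nil))) C.nil)) (C.cons (nat_lit 1042) (C.node (nat_lit 4) (nat_lit 8) (nat_lit 10) (C.cons (nat_lit 1296) (C.node (nat_lit 4) (nat_lit 5) (nat_lit 7) (C.cons (nat_lit 688) (C.miq (nat_lit 2807171393) (nat_lit 199491779370270193576444435)) (C.cons (nat_lit 432) (C.miq (nat_lit 2216326432) (nat_lit 1259736140355406618027294885)) (C.cons (nat_lit 176) (C.node (nat_lit 4) (nat_lit 5) (nat_lit 8) (C.cons (nat_lit 816) (C.miq (nat_lit 1386758409)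 (nat_lit 1552275804943552084296401427)) (C.cons (nat_lit 304) (C.node (nat_lit 1) (nat_lit 2) (nat_lit 7) (C.cons (nat_lit 398) (C.miq (nat_lit 1681328673) (nat_lit 184969247836174203944305671)) (C.cons (nat_lit 390) (C.miq (nat_lit 2169139792) (nat_lit 1259736140343584669012394149)) (C.cons (nat_lit 142) (C.miq (nat_lit 1681328673) (nat_lit 184969247836174203927528455)) (C.cons (nat_lit 134) (C.node (nat_lit 1) (nat_lit 2) (nat_lit 3) (C.cons (nat_lit 270) (C.node (nat_lit 2) (nat_lit 3) (nat_lit 7) C.nil) (C.cons (nat_lit 14) (C.node (nat_lit 1) (nat_lit 2) (nat_lit 8) (C.cons (nat_lit 262) (C.node (nat_lit 2) (nat_lit 3) (nat_lit 7) C.nil) C.nil)) C.nil))) C.nil))))) C.nil))) C.nil)))) C.nil)) C.nil))) C.nil))) C.nil))) C.nil))) C.nil))) C.nil)) (C.cons (nat_lit 22) (C.node (nat_lit 2) (nat_lit 4) (nat_lit 5) (C.cons (nat_lit 52) (C.node (nat_lit 1) (nat_lit 4) (nat_lit 10) (C.cons (nat_lit 1298) (C.node (nat_lit 1) (nat_lit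 6) (nat_lit 10) (C.cons (nat_lit 1098) (C.miq (nat_lit 2170571314) (nat_lit 235745644938320342296626204)) (C.cons (nat_lit 1090) (C.node (nat_lit 3) (nat_lit 4) (nat_lit 8) (C.cons (nat_lit 792) (C.miq (nat_lit 338864272) (nat_lit 1271808981193087807761745793)) (C.cons (nat_lit 344) (C.miq (nat_lit 408986674) (nat_lit 388084207054791956906181660)) (C.cons (nat_lit 280) (C.node (nat_lit 1) (nat_lit 2) (nat_lit 7) (C.cons (nat_lit 398) (C.miq (nat_lit 1410468487) (nat_lit 26599412064336627333203841)) (C.cons (nat_lit 390) (C.miq (nat_lit 1410468487) (nat_lit 26599412064336627332679553)) (C.cons (nat_lit 142) (C.miq (nat_lit 1681328673) (nat_lit 184969247836174203927528455)) (C.cons (nat_lit 134) (C.node (nat_lit 1) (nat_lit 4) (nat_lit 6) (C.cons (nat_lit 90) (C.node (nat_lit 1) (nat_lit 4) (nat_lit 5) (C.cons (nat_lit 178) (C.miq (nat_lit 829580368) (nat_lit 162006924985953236755481713)) (C.cons (nat_lit 50) (C.node (nat_lit 1)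 (nat_lit 4) (nat_lit 7) (C.cons (nat_lit 146) (C.node (nat_lit 3) (nat_lit 8) (nat_lit 9) (C.cons (nat_lit 778) (C.node (nat_lit 1) (nat_lit 2) (nat_lit 3) (C.cons (nat_lit 46) (C.miq (nat_lit 2435285840) (nat_lit 162031496242713634919481641)) (C.cons (nat_lit 14) (C.node (nat_lit 2) (nat_lit 3) (nat_lit 5) (C.cons (nat_lit 44) (C.node (nat_lit 1) (nat_lit 7) (nat_lit 8) (C.cons (nat_lit 418) (C.miq (nat_lit 1378971800) (nat_lit 16932672260073519982446465)) (C.cons (nat_lit 386) (C.node (nat_lit 4) (nat_lit 5) (nat_lit 7) (C.cons (nat_lit 176) (C.node (nat_lit 4) (nat_lit 7) (nat_lit 8) C.nil) C.nil)) C.nil))) C.nil)) C.nil))) (C.cons (nat_lit 776) (C.miq (nat_lit 328746506) (nat_lit 938150379920095192335582321)) C.nil))) C.nil)) C.nil))) (C.cons (nat_lit 82) (C.node (nat_lit 3) (nat_lit 4) (nat_lit 6) (C.cons (nat_lit 88) (C.node (nat_lit 3) (nat_lit 8) (nat_lit 9) (C.cons (nat_lit 778) (C.miq (nat_lit 910266536) (nat_lit 99146268941082583102523265))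 (C.cons (nat_lit 776) (C.node (nat_lit 3) (nat_lit 6) (nat_lit 10) (C.cons (nat_lit 1352) (C.miq (nat_lit 423116906) (nat_lit 938150380044225657027691633)) (C.cons (nat_lit 1096)
  (C.node (nat_lit 3) (nat_lit 8) (nat_lit 10) (C.cons (nat_lit 1288) (C.node (nat_lit 6) (nat_lit 8) (nat_lit 10) (C.cons (nat_lit 1344) (C.node (nat_lit 1) (nat_lit 3) (nat_lit 4) (C.cons (nat_lit 58) (C.node (nat_lit 1) (nat_lit 4) (nat_lit 7) (C.cons (nat_lit 146) (C.node (nat_lit 2) (nat_lit 3) (nat_lit 5) (C.cons (nat_lit 44) (C.node (nat_lit 3) (nat_lit 4) (nat_lit 9) (C.cons (nat_lit 536) (C.node (nat_lit 1) (nat_lit 2) (nat_lit 3) C.nil) C.nil)) C.nil)) C.nil)) (C.cons (nat_lit 26) (C.node (nat_lit 1) (nat_lit 4) (nat_lit 5) (C.cons (nat_lit 178) (C.node (nat_lit 4) (nat_lit 6) (nat_lit 8) (C.cons (nat_lit 848) (C.miq (nat_lit 342010000) (nat_lit 101568787806127007164336001)) (C.cons (nat_lit 464) (C.node (nat_lit 4) (nat_lit 6) (nat_lit 9) C.nil)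 C.nil))) (C.cons (nat_lit 50) (C.node (nat_lit 1) (nat_lit 4) (nat_lit 7) C.nil) C.nil))) C.nil))) C.nil)) C.nil)) C.nil))) C.nil))) C.nil)) C.nil))) C.nil))))) C.nil)))) C.nil))) (C.cons (nat_lit 1042) (C.node (nat_lit 4) (nat_lit 8) (nat_lit 10) (C.cons (nat_lit 1296) (C.node (nat_lit 2) (nat_lit 3) (nat_lit 5) (C.cons (nat_lit 46) (C.node (nat_lit 1) (nat_lit 2) (nat_lit 6) (C.cons (nat_lit 326) (C.node (nat_lit 1) (nat_lit 2) (nat_lit 7) (C.cons (nat_lit 134) (C.node (nat_lit 1) (nat_lit 2) (nat_lit 9) (C.cons (nat_lit 518) (C.node (nat_lit 2) (nat_lit 5) (nat_lit 6) (C.cons (nat_lit 100) (C.node (nat_lit 1) (nat_lit 8) (nat_lit 10) (C.cons (nat_lit 1314) (C.miq (nat_lit 2555578898) (nat_lit 359061834098523353664848903)) (C.cons (nat_lit 1290) (C.miq (nat_lit 2016741906) (nat_lit 359054012679035997735748615)) (C.cons (nat_lit 1282) (C.node (nat_lit 1) (nat_lit 4) (nat_lit 6) (C.cons (nat_lit 90) (C.node (nat_lit 1) (nat_lit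 6) (nat_lit 10) (C.cons (nat_lit 1090) (C.node (nat_lit 1) (nat_lit 3) (nat_lit 10) C.nil) C.nil)) (C.cons (nat_lit 82) (C.node (nat_lit 1) (nat_lit 3) (nat_lit 6) (C.cons (nat_lit 74) (C.node (nat_lit 1) (nat_lit 6) (nat_lit 10) C.nil) C.nil)) C.nil))) C.nil)))) C.nil)) C.nil)) C.nil)) (C.cons (nat_lit 70) (C.node (nat_lit 1) (nat_lit 2) (nat_lit 7) (C.cons (nat_lit 390) (C.node (nat_lit 1) (nat_lit 2) (nat_lit 9) (C.cons (nat_lit 518) (C.node (nat_lit 2) (nat_lit 3) (nat_lit 7) (C.cons (nat_lit 140) (C.node (nat_lit 2) (nat_lit 3) (nat_lit 8) (C.cons (nat_lit 268) (C.node (nat_lit 4) (nat_lit 7) (nat_lit 8) (C.cons (nat_lit 464) (C.miq (nat_lit 2759984753) (nat_lit 334891470946431317351727299)) (C.cons (nat_lit 432) (C.miq (nat_lit 440934487) (nat_lit 1566775056740953741539147941)) C.nil))) C.nil)) C.nil)) C.nil)) (C.cons (nat_lit 134) (C.node (nat_lit 1) (nat_lit 2) (nat_lit 8) (C.cons (nat_lit 774) (C.node (nat_lit 2) (nat_lit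 3) (nat_lit 7) (C.cons (nat_lit 396) (C.miq (nat_lit 305436784) (nat_lit 1271799757673556364353931137)) (C.cons (nat_lit 140) (C.node (nat_lit 2) (nat_lit 3) (nat_lit 8) (C.cons (nat_lit 268) (C.node (nat_lit 2) (nat_lit 7) (nat_lit 8) (C.cons (nat_lit 388) (C.node (nat_lit 3) (nat_lit 4) (nat_lit 5) (C.cons (nat_lit 568) (C.node (nat_lit 2) (nat_lit 8) (nat_lit 10) C.nil) C.nil)) C.nil)) C.nil)) C.nil))) (C.cons (nat_lit 262) (C.node (nat_lit 1) (nat_lit 2) (nat_lit 9) (C.cons (nat_lit 518) (C.node (nat_lit 2) (nat_lit 3) (nat_lit 7) (C.cons (nat_lit 396) (C.node (nat_lit 1) (nat_lit 4) (nat_lit 5) (C.cons (nat_lit 434) (C.miq (nat_lit 2441217139) (nat_lit 316749430020757335374037145)) C.nil)) (C.cons (nat_lit 140) (C.node (nat_lit 2) (nat_lit 3) (nat_lit 8) (C.cons (nat_lit 268) (C.node (nat_lit 2) (nat_lit 7) (nat_lit 8) C.nil) C.nil)) C.nil))) C.nil)) C.nil))) C.nil))) C.nil))) (C.cons (nat_lit 44) (C.node (nat_lit 2) (nat_lit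 8) (nat_lit 10) (C.cons (nat_lit 1316) (C.node (nat_lit 2) (nat_lit 9) (nat_lit 10) (C.cons (nat_lit 1540) (C.node (nat_lit 2) (nat_lit 8) (nat_lit 9) (C.cons (nat_lit 774) (C.miq (nat_lit 1377085584) (nat_lit 26617342349958043294435201)) (C.cons (nat_lit 772) (C.node (nat_lit 2) (nat_lit 3) (nat_lit 7) (C.cons (nat_lit 398) (C.miq (nat_lit 1379182704) (nat_lit 1271810936553024478309320577))
  (C.cons (nat_lit 396) (C.miq (nat_lit 1379182704) (nat_lit 1271810936553024469719385985)) (C.cons (nat_lit 142) (C.miq (nat_lit 1681328673) (nat_lit 184969247836174203927528455)) (C.cons (nat_lit 140) (C.node (nat_lit 1) (nat_lit 2) (nat_lit 3) (C.cons (nat_lit 14) (C.node (nat_lit 2) (nat_lit 3) (nat_lit 8) C.nil) C.nil)) C.nil))))) C.nil))) C.nil)) (C.cons (nat_lit 1284) (C.node (nat_lit 2) (nat_lit 5) (nat_lit 10) (C.cons (nat_lit 1572) (C.node (nat_lit 1) (nat_lit 2) (nat_lit 9) (C.cons (nat_lit 774) (C.node (nat_lit 1) (nat_lit 2) (nat_lit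 3) (C.cons (nat_lit 142) (C.miq (nat_lit 1681328673) (nat_lit 184969247836174203927528455)) (C.cons (nat_lit 14) (C.node (nat_lit 1) (nat_lit 2) (nat_lit 7) C.nil) C.nil))) (C.cons (nat_lit 518) (C.node (nat_lit 2) (nat_lit 8) (nat_lit 9) (C.cons (nat_lit 772) (C.node (nat_lit 1) (nat_lit 2) (nat_lit 3) (C.cons (nat_lit 14) (C.node (nat_lit 1) (nat_lit 2) (nat_lit 7) C.nil) C.nil)) C.nil)) C.nil))) (C.cons (nat_lit 1060) (C.node (nat_lit 2) (nat_lit 9) (nat_lit 10) (C.cons (nat_lit 1540) (C.node (nat_lit 8) (nat_lit 5) (nat_lit 10) (C.cons (nat_lit 1314) (C.node (nat_lit 1) (nat_lit 2) (nat_lit 3) (C.cons (nat_lit 398) (C.miq (nat_lit 1681328673) (nat_lit 184969247836174203944305671)) (C.cons (nat_lit 270) (C.miq (nat_lit 1703086610) (nat_lit 359061833877846971938374663)) (C.cons (nat_lit 142) (C.miq (nat_lit 1681328673) (nat_lit 184969247836174203927528455)) (C.cons (nat_lit 14) (C.node (nat_lit 1) (nat_lit 2) (nat_lit 7) (C.cons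 (nat_lit 390) (C.node (nat_lit 2) (nat_lit 3) (nat_lit 7) C.nil) (C.cons (nat_lit 134) (C.node (nat_lit 1) (nat_lit 7) (nat_lit 10) C.nil) C.nil))) C.nil))))) (C.cons (nat_lit 1312) (C.node (nat_lit 3) (nat_lit 9) (nat_lit 4) C.nil) C.nil))) C.nil)) C.nil))) C.nil))) C.nil))) C.nil)) C.nil))) C.nil)) C.nil))) C.nil)) (C.cons (nat_lit 1044) (C.node (nat_lit 2) (nat_lit 9) (nat_lit 10) (C.cons (nat_lit 1572) (C.node (nat_lit 4) (nat_lit 9) (nat_lit 10) (C.cons (nat_lit 1560) (C.miq (nat_lit 1922237860) (nat_lit 712060130151309984411419761)) (C.cons (nat_lit 1552) (C.node (nat_lit 1) (nat_lit 2) (nat_lit 9) (C.cons (nat_lit 774) (C.node (nat_lit 1) (nat_lit 2) (nat_lit 6) (C.cons (nat_lit 102) (C.miq (nat_lit 2032208470) (nat_lit 935712182037537536541590641)) (C.cons (nat_lit 70) (C.node (nat_lit 5) (nat_lit 8) (nat_lit 10) (C.cons (nat_lit 1314) (C.miq (nat_lit 1361488016) (nat_lit 84645781690897293730711425)) (C.cons (nat_lit 1312)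 (C.node (nat_lit 5) (nat_lit 8) (nat_lit 9) (C.cons (nat_lit 864) (C.miq (nat_lit 441983081) (nat_lit 1586124953404512112830579277)) (C.cons (nat_lit 816) (C.miq (nat_lit 710414409) (nat_lit 1586124953404512112827433491)) (C.cons (nat_lit 800) (C.node (nat_lit 6) (nat_lit 8) (nat_lit 9) (C.cons (nat_lit 848) (C.miq (nat_lit 2191954180) (nat_lit 1320162638076015624638759443)) (C.cons (nat_lit 832) (C.node (nat_lit 2) (nat_lit 4) (nat_lit 5) (C.cons (nat_lit 62) (C.miq (nat_lit 2032339540) (nat_lit 712060130645580043417158769)) (C.cons (nat_lit 60) (C.miq (nat_lit 2032339540) (nat_lit 712060130645580043417027697)) (C.cons (nat_lit 54) (C.miq (nat_lit 2186973504) (nat_lit 1900466824847424522663559699)) (C.cons (nat_lit 52) (C.node (nat_lit 1) (nat_lit 2) (nat_lit 4) (C.cons (nat_lit 30) (C.node (nat_lit 1) (nat_lit 2) (nat_lit 5) (C.cons (nat_lit 38) (C.node (nat_lit 1) (nat_lit 2) (nat_lit 7) (C.cons (nat_lit 134) (C.node (nat_lit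 2) (nat_lit 3) (nat_lit 5) (C.cons (nat_lit 44) (C.node (nat_lit 1) (nat_lit 4) (nat_lit 6) (C.cons (nat_lit 338) (C.miq (nat_lit 2014578979) (nat_lit 408619749922304693179908685)) (C.cons (nat_lit 82) (C.node (nat_lit 1) (nat_lit 4) (nat_lit 10) (C.cons (nat_lit 1298) (C.miq (nat_lit 1093052560) (nat_lit 84645781686393694103340929)) (C.cons (nat_lit 1042) (C.node (nat_lit 3) (nat_lit 4) (nat_lit 5) C.nil) C.nil))) C.nil))) C.nil)) C.nil)) C.nil)) (C.cons (nat_lit 22) (C.node (nat_lit 2) (nat_lit 3) (nat_lit 4) (C.cons (nat_lit 28) (C.node (nat_lit 2) (nat_lit 7) (nat_lit 8) (C.cons (nat_lit 396)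
  (C.miq (nat_lit 305436784) (nat_lit 33859718388176089454806913)) (C.cons (nat_lit 388) (C.node (nat_lit 1) (nat_lit 2) (nat_lit 5) (C.cons (nat_lit 46) (C.node (nat_lit 1) (nat_lit 2) (nat_lit 7) (C.cons (nat_lit 134) (C.node (nat_lit 2) (nat_lit 3) (nat_lit 7) (C.cons (nat_lit 140) (C.node (nat_lit 2) (nat_lit 3) (nat_lit 8) (C.cons (nat_lit 1292) (C.node (nat_lit 1) (nat_lit 5) (nat_lit 10) (C.cons (nat_lit 1186) (C.miq (nat_lit 1649478055) (nat_lit 55614184983162828447942529)) C.nil)) C.nil)) C.nil)) C.nil)) (C.cons (nat_lit 38) (C.node (nat_lit 2) (nat_lit 3) (nat_lit 5) (C.cons (nat_lit 44) (C.node (nat_lit 1) (nat_lit 2) (nat_lit 3) (C.cons (nat_lit 142) (C.node (nat_lit 2) (nat_lit 3) (nat_lit 8) (C.cons (nat_lit 1292) (C.node (nat_lit 1) (nat_lit 7) (nat_lit 10) (C.cons (nat_lit 1186) (C.miq (nat_lit 1649478055) (nat_lit 45942778426245795050293121)) C.nil)) C.nil)) C.nil)) C.nil)) C.nil))) C.nil))) C.nil)) C.nil))) C.nil)))))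 C.nil))) C.nil)))) C.nil))) C.nil))) (C.cons (nat_lit 518) (C.node (nat_lit 2) (nat_lit 8) (nat_lit 9) (C.cons (nat_lit 772) (C.node (nat_lit 1) (nat_lit 9) (nat_lit 10) (C.cons (nat_lit 1546) (C.node (nat_lit 1) (nat_lit 7) (nat_lit 10) (C.cons (nat_lit 1186) (C.miq (nat_lit 446068000) (nat_lit 1934284908832337126998474917)) (C.cons (nat_lit 1154) (C.node (nat_lit 3) (nat_lit 7) (nat_lit 9) (C.cons (nat_lit 680) (C.miq (nat_lit 326150482) (nat_lit 184984669429341492861011492)) (C.cons (nat_lit 648) (C.node (nat_lit 2) (nat_lit 3) (nat_lit 5) (C.cons (nat_lit 62) (C.miq (nat_lit 2032339540) (nat_lit 712060130645580043417158769)) (C.cons (nat_lit 60) (C.miq (nat_lit 2032339540) (nat_lit 712060130645580043417027697)) (C.cons (nat_lit 46) (C.miq (nat_lit 1470177427) (nat_lit 1395101244431961080141054541)) (C.cons (nat_lit 44) (C.node (nat_lit 1) (nat_lit 4) (nat_lit 10) (C.cons (nat_lit 1298) (C.node (nat_lit 1) (nat_lit 5) (nat_lit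 10) (C.cons (nat_lit 1058) (C.node (nat_lit 1) (nat_lit 6) (nat_lit 10) (C.cons (nat_lit 1090) (C.node (nat_lit 3) (nat_lit 4) (nat_lit 10) (C.cons (nat_lit 1048) (C.node (nat_lit 5) (nat_lit 8) (nat_lit 10) (C.cons (nat_lit 1312) (C.node (nat_lit 2) (nat_lit 3) (nat_lit 10) C.nil) C.nil)) C.nil)) C.nil)) C.nil)) (C.cons (nat_lit 1042) (C.node (nat_lit 2) (nat_lit 3) (nat_lit 4) (C.cons (nat_lit 30) (C.miq (nat_lit 2316568882) (nat_lit 1259705814327272087872209485)) (C.cons (nat_lit 28) (C.node (nat_lit 2) (nat_lit 3) (nat_lit 10) (C.cons (nat_lit 1292) (C.miq (nat_lit 321165952) (nat_lit 33859718605478619774257025)) (C.cons (nat_lit 1036) (C.node (nat_lit 2) (nat_lit 8) (nat_lit 10) (C.cons (nat_lit 1284) (C.node (nat_lit 3) (nat_lit 8) (nat_lit 9) (C.cons (nat_lit 792) (C.miq (nat_lit 323135872) (nat_lit 33868941977513327066417025)) (C.cons (nat_lit 776) (C.node (nat_lit 1) (nat_lit 2) (nat_lit 4) (C.cons (nat_lit 54) (C.node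 (nat_lit 1) (nat_lit 2) (nat_lit 6) C.nil) (C.cons (nat_lit 22) (C.node (nat_lit 2) (nat_lit 4) (nat_lit 5) C.nil) C.nil))) C.nil))) C.nil)) C.nil))) C.nil))) C.nil))) C.nil))))) C.nil))) C.nil))) (C.cons (nat_lit 1538) (C.node (nat_lit 3) (nat_lit 9) (nat_lit 10) (C.cons (nat_lit 1544) (C.node (nat_lit 2) (nat_lit 3) (nat_lit 10) (C.cons (nat_lit 1292) (C.node (nat_lit 4) (nat_lit 8) (nat_lit 10) (C.cons (nat_lit 1298) (C.miq (nat_lit 439961632) (nat_lit 1866591261071450654425022741)) (C.cons (nat_lit 1296) (C.node (nat_lit 2) (nat_lit 3) (nat_lit 4) (C.cons (nat_lit 62) (C.miq (nat_lit 2032339540) (nat_lit 712060130645580043417158769)) (C.cons (nat_lit 60) (C.miq (nat_lit 2032339540) (nat_lit 712060130645580043417027697)) (C.cons (nat_lit 30) (C.miq (nat_lit 430129282) (nat_lit 1866582019036781120383090965)) (C.cons (nat_lit 28) (C.node (nat_lit 1) (nat_lit 2) (nat_lit 4) (C.cons (nat_lit 54) (C.node (nat_lit 2) (nat_lit 3) (nat_lit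 5) (C.cons (nat_lit 44) (C.node (nat_lit 2) (nat_lit 7) (nat_lit 8) (C.cons (nat_lit 390) (C.miq (nat_lit 346563847) (nat_lit 1566775056465952689390420133)) C.nil)) C.nil)) (C.cons (nat_lit 22)
  (C.node (nat_lit 2) (nat_lit 4) (nat_lit 5) (C.cons (nat_lit 52) (C.node (nat_lit 2) (nat_lit 3) (nat_lit 5) (C.cons (nat_lit 44) (C.node (nat_lit 1) (nat_lit 2) (nat_lit 3) C.nil) C.nil)) C.nil)) C.nil))) C.nil))))) C.nil))) (C.cons (nat_lit 1036) (C.node (nat_lit 2) (nat_lit 8) (nat_lit 10) (C.cons (nat_lit 1284) (C.node (nat_lit 5) (nat_lit 8) (nat_lit 10) (C.cons (nat_lit 1314) (C.node (nat_lit 2) (nat_lit 3) (nat_lit 5) (C.cons (nat_lit 62) (C.miq (nat_lit 2032339540) (nat_lit 712060130645580043417158769)) (C.cons (nat_lit 60) (C.miq (nat_lit 2032339540) (nat_lit 712060130645580043417027697)) (C.cons (nat_lit 46) (C.miq (nat_lit 2555578898) (nat_lit 359061834098523353664848903)) (C.cons (nat_lit 44) (C.node (nat_lit 1) (nat_lit 4)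 (nat_lit 10) (C.cons (nat_lit 1050) (C.node (nat_lit 1) (nat_lit 6) (nat_lit 10) C.nil) (C.cons (nat_lit 1042) (C.node (nat_lit 1) (nat_lit 6) (nat_lit 10) (C.cons (nat_lit 1090) (C.node (nat_lit 1) (nat_lit 3) (nat_lit 10) C.nil) C.nil)) C.nil))) C.nil))))) (C.cons (nat_lit 1312) (C.node (nat_lit 6) (nat_lit 7) (nat_lit 9) (C.cons (nat_lit 736) (C.miq (nat_lit 311888470) (nat_lit 778551825237123014598853745)) (C.cons (nat_lit 720) (C.node (nat_lit 1) (nat_lit 2) (nat_lit 6) (C.cons (nat_lit 358) (C.miq (nat_lit 2032208470) (nat_lit 626227172216192467833586801)) (C.cons (nat_lit 326) (C.node (nat_lit 5) (nat_lit 2) (nat_lit 6) (C.cons (nat_lit 100) (C.node (nat_lit 6) (nat_lit 8) (nat_lit 9) (C.cons (nat_lit 864) (C.miq (nat_lit 895748247) (nat_lit 1374551479337278428184315777)) C.nil)) C.nil)) (C.cons (nat_lit 102) (C.miq (nat_lit 2032208470) (nat_lit 626227172216192467816809585)) (C.cons (nat_lit 70) (C.node (nat_lit 5) (nat_lit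 6) (nat_lit 9) (C.cons (nat_lit 866) (C.miq (nat_lit 895748247) (nat_lit 1374551479337278436774250369)) (C.cons (nat_lit 864) (C.miq (nat_lit 895748247) (nat_lit 1374551479337278428184315777)) (C.cons (nat_lit 610) (C.node (nat_lit 6) (nat_lit 8) (nat_lit 9) C.nil) C.nil)))) C.nil))))) (C.cons (nat_lit 704) (C.node (nat_lit 4) (nat_lit 6) (nat_lit 7) (C.cons (nat_lit 464) (C.node (nat_lit 4) (nat_lit 6) (nat_lit 9) (C.cons (nat_lit 592) (C.node (nat_lit 1) (nat_lit 2) (nat_lit 6) (C.cons (nat_lit 358) (C.miq (nat_lit 2032208470) (nat_lit 626227172216192467833586801)) (C.cons (nat_lit 326) (C.node (nat_lit 2) (nat_lit 5) (nat_lit 6) C.nil) (C.cons (nat_lit 102) (C.miq (nat_lit 2032208470) (nat_lit 626227172216192467816809585)) C.nil)))) C.nil)) (C.cons (nat_lit 208) (C.node (nat_lit 4) (nat_lit 6) (nat_lit 9) (C.cons (nat_lit 848) (C.node (nat_lit 1) (nat_lit 2) (nat_lit 6) (C.cons (nat_lit 358) (C.miq (nat_lit 2032208470) (nat_lit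 626227172216192467833586801)) (C.cons (nat_lit 326) (C.node (nat_lit 2) (nat_lit 5) (nat_lit 6) C.nil) (C.cons (nat_lit 102) (C.miq (nat_lit 2032208470) (nat_lit 626227172216192467816809585)) C.nil)))) (C.cons (nat_lit 592) (C.node (nat_lit 4) (nat_lit 7) (nat_lit 9) (C.cons (nat_lit 688) (C.node (nat_lit 2) (nat_lit 4) (nat_lit 5) (C.cons (nat_lit 62) (C.miq (nat_lit 2032339540) (nat_lit 712060130645580043417158769)) (C.cons (nat_lit 60) (C.miq (nat_lit 2032339540) (nat_lit 712060130645580043417027697)) (C.cons (nat_lit 54) (C.miq (nat_lit 1965724688) (nat_lit 1900466824823217674659496467)) C.nil)))) (C.cons (nat_lit 656) (C.node (nat_lit 1) (nat_lit 2) (nat_lit 6) (C.cons (nat_lit 358) (C.miq (nat_lit 2032208470) (nat_lit 626227172216192467833586801)) (C.cons (nat_lit 326) (C.node (nat_lit 2) (nat_lit 5) (nat_lit 6) C.nil) (C.cons (nat_lit 102) (C.miq (nat_lit 2032208470) (nat_lit 626227172216192467816809585)) C.nil)))) C.nil)))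 C.nil))) C.nil))) C.nil)))) C.nil))) C.nil)) C.nil))) C.nil)) C.nil))) C.nil)) C.nil))) C.nil))) (C.cons (nat_lit 1540) (C.ref (nat_lit 170) (nat_lit 11649936536080)) C.nil))) C.nil))) C.nil)))) List.nil)

theorem ok11_171 : okL par11 (nat_lit 172) c11_171 (nat_lit 171) = true := by decide +kernel

noncomputable def c11_172 : List C :=
  (List.cons (C.node (nat_lit 2) (nat_lit 7) (nat_lit 10) (C.cons (nat_lit 1164) (C.node (nat_lit 4) (nat_lit 7) (nat_lit 10) (C.cons (nat_lit 1170) (C.miq (nat_lit 2473853601) (nat_lit 184975445787935164203140103)) (C.cons (nat_lit 1168) (C.node (nat_lit 1) (nat_lit 2) (nat_lit 7) (C.cons (nat_lit 390) (C.node (nat_lit 2) (nat_lit 3) (nat_lit 8) (C.cons (nat_lit 268) (C.node (nat_lit 1) (nat_lit 2) (nat_lit 6) (C.cons (nat_lit 102) (C.node (nat_lit 1) (nat_lit 2) (nat_lit 9) (C.cons (nat_lit 518) (C.node (nat_lit 2) (nat_lit 6) (nat_lit 8) (C.cons (nat_lit 324) (C.node (nat_lit 1) (nat_lit 2) (nat_lit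 3) (C.cons (nat_lit 30) (C.miq (nat_lit 2536770081) (nat_lit 184975446162859833107022855)) (C.cons (nat_lit 14) (C.node (nat_lit 1) (nat_lit 2) (nat_lit 4) (C.cons (nat_lit 22) (C.node (nat_lit 1) (nat_lit 4) (nat_lit 7) (C.cons (nat_lit 178) (C.miq (nat_lit 840369748) (nat_lit 471483892167337855077713009)) (C.cons (nat_lit 146) (C.node (nat_lit 1) (nat_lit 6) (nat_lit 9) (C.cons (nat_lit 834) (C.miq (nat_lit 1468080278) (nat_lit 471482951264052518353764941)) (C.cons (nat_lit 578) (C.node (nat_lit 1) (nat_lit 7) (nat_lit 10) (C.cons (nat_lit 1186) (C.miq (nat_lit 1361356672) (nat_lit 26617342313364647037962113)) (C.cons (nat_lit 1154) (C.node (nat_lit 5) (nat_lit 7) (nat_lit 10) (C.cons (nat_lit 1184) (C.node (nat_lit 2) (nat_lit 3) (nat_lit 4) (C.cons (nat_lit 60) (C.miq (nat_lit 305620288) (nat_lit 1407193251175233438053106801)) (C.cons (nat_lit 28) (C.node (nat_lit 2) (nat_lit 3) (nat_lit 5) (C.cons (nat_lit 44) (C.node (nat_lit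 2) (nat_lit 8) (nat_lit 9) (C.cons (nat_lit 804) (C.miq (nat_lit 1366828553) (nat_lit 471495900860651925883912781)) (C.cons (nat_lit 772) (C.node (nat_lit 2) (nat_lit 5) (nat_lit 8) (C.cons (nat_lit 292) (C.miq (nat_lit 2820998934) (nat_lit 353027313816198632079491267)) C.nil)) C.nil))) C.nil)) C.nil))) C.nil)) C.nil))) C.nil))) C.nil))) C.nil)) C.nil))) C.nil)) C.nil)) (C.cons (nat_lit 70) (C.node (nat_lit 2) (nat_lit 8) (nat_lit 10) (C.cons (nat_lit 1316) (C.miq (nat_lit 1377216624) (nat_lit 84645781691458594390869889)) (C.cons (nat_lit 1284) (C.node (nat_lit 1) (nat_lit 2) (nat_lit 9) (C.cons (nat_lit 550) (C.node (nat_lit 2) (nat_lit 5) (nat_lit 10) (C.cons (nat_lit 1060) (C.node (nat_lit 2) (nat_lit 8) (nat_lit 9) (C.cons (nat_lit 772) (C.node (nat_lit 1) (nat_lit 2) (nat_lit 3) (C.cons (nat_lit 30) (C.miq (nat_lit 2536770081) (nat_lit 184975446162859833107022855)) (C.cons (nat_lit 14) (C.node (nat_lit 1) (nat_lit 2) (nat_lit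 4) (C.cons (nat_lit 22) (C.node (nat_lit 1) (nat_lit 4) (nat_lit 7) (C.cons (nat_lit 178) (C.miq (nat_lit 844564756) (nat_lit 199475582754048214914171411)) (C.cons (nat_lit 146) (C.node (nat_lit 1) (nat_lit 7) (nat_lit 10) (C.cons (nat_lit 1186) (C.miq (nat_lit 1361356672) (nat_lit 26617342313364647037962113)) (C.cons (nat_lit 1154) (C.node (nat_lit 5) (nat_lit 7) (nat_lit 10) (C.cons (nat_lit 1184) (C.node (nat_lit 4) (nat_lit 7) (nat_lit 8) (C.cons (nat_lit 464) (C.miq (nat_lit 1210738448) (nat_lit 1552281726463801732381475011)) (C.cons (nat_lit 432) (C.miq (nat_lit 1461340192) (nat_lit 1395121369904892740414931221)) (C.cons (nat_lit 400) (C.node (nat_lit 2) (nat_lit 4) (nat_lit 10) (C.cons (nat_lit 1556) (C.node (nat_lit 2) (nat_lit 3) (nat_lit 4) (C.cons (nat_lit 60) (C.miq (nat_lit 2453185616) (nat_lit 324027556290061536349193329)) C.nil)) C.nil)) C.nil)))) C.nil)) C.nil))) C.nil))) C.nil)) C.nil))) C.nil)) C.nil)) (C.cons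 (nat_lit 518) (C.node (nat_lit 1) (nat_lit 4) (nat_lit 7) (C.cons (nat_lit 178) (C.node (nat_lit 1) (nat_lit 7) (nat_lit 10) (C.cons (nat_lit 1154) (C.node (nat_lit 5) (nat_lit 7) (nat_lit 10) (C.cons (nat_lit 1184) (C.node (nat_lit 1) (nat_lit 2) (nat_lit 4) (C.cons (nat_lit 30) (C.miq (nat_lit 2536770081) (nat_lit 184975446162859833107022855)) (C.cons (nat_lit 22) (C.node (nat_lit 2) (nat_lit 3) (nat_lit 4) (C.cons (nat_lit 60) (C.miq (nat_lit 1382105863) (nat_lit 84628090910360190880776345)) (C.cons (nat_lit 28)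
  (C.node (nat_lit 2) (nat_lit 4) (nat_lit 5) (C.cons (nat_lit 564) (C.miq (nat_lit 1649871169) (nat_lit 199476357517299370844881427)) (C.cons (nat_lit 52) (C.node (nat_lit 4) (nat_lit 7) (nat_lit 8) (C.cons (nat_lit 464) (C.miq (nat_lit 1210738448) (nat_lit 1552281726463801732381475011)) (C.cons (nat_lit 400) (C.node (nat_lit 5) (nat_lit 7) (nat_lit 8) (C.cons (nat_lit 480) (C.miq (nat_lit 1479173904) (nat_lit 1552281726468305332008845507)) (C.cons (nat_lit 416) (C.node (nat_lit 1) (nat_lit 4) (nat_lit 6) (C.cons (nat_lit 346) (C.miq (nat_lit 829580368) (nat_lit 471491934879355899518190705)) (C.cons (nat_lit 338) (C.miq (nat_lit 1384384278) (nat_lit 334893426027709135370453187)) (C.cons (nat_lit 90) (C.miq (nat_lit 829580368) (nat_lit 471491934807298305480262769)) (C.cons (nat_lit 82) (C.node (nat_lit 1) (nat_lit 2) (nat_lit 3) (C.cons (nat_lit 46) (C.node (nat_lit 5) (nat_lit 8) (nat_lit 10) (C.cons (nat_lit 1314) (C.miq (nat_lit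 2555578898) (nat_lit 359061834098523353664848903)) (C.cons (nat_lit 1312) (C.node (nat_lit 2) (nat_lit 4) (nat_lit 10) (C.cons (nat_lit 1556) (C.node (nat_lit 2) (nat_lit 5) (nat_lit 10) C.nil) C.nil)) C.nil))) (C.cons (nat_lit 14) (C.node (nat_lit 1) (nat_lit 2) (nat_lit 5) (C.cons (nat_lit 38) (C.node (nat_lit 2) (nat_lit 3) (nat_lit 5) C.nil) C.nil)) C.nil))) C.nil))))) C.nil))) C.nil))) C.nil))) C.nil))) C.nil))) C.nil)) C.nil)) (C.cons (nat_lit 146) (C.node (nat_lit 1) (nat_lit 7) (nat_lit 10) (C.cons (nat_lit 1186) (C.node (nat_lit 5) (nat_lit 8) (nat_lit 10) (C.cons (nat_lit 1312) (C.node (nat_lit 1) (nat_lit 9) (nat_lit 10) (C.cons (nat_lit 1546) (C.miq (nat_lit 1368422962) (nat_lit 641942654261976216281875596)) (C.cons (nat_lit 1538) (C.node (nat_lit 2) (nat_lit 5) (nat_lit 10) (C.cons (nat_lit 1572) (C.miq (nat_lit 1365419785) (nat_lit 84653805988538073580636033)) (C.cons (nat_lit 1060) (C.node (nat_lit 4) (nat_lit 5)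 (nat_lit 7) (C.cons (nat_lit 688) (C.miq (nat_lit 2220302497) (nat_lit 831748158203027070927373319)) (C.cons (nat_lit 432) (C.node (nat_lit 2) (nat_lit 5) (nat_lit 6) (C.cons (nat_lit 356) (C.miq (nat_lit 847709780) (nat_lit 471483892167338946016052337)) (C.cons (nat_lit 100) (C.node (nat_lit 2) (nat_lit 6) (nat_lit 8) (C.cons (nat_lit 324) (C.node (nat_lit 4) (nat_lit 6) (nat_lit 7) (C.cons (nat_lit 720) (C.miq (nat_lit 910494072) (nat_lit 1374554135750615117065095041)) (C.cons (nat_lit 208) (C.node (nat_lit 4) (nat_lit 7) (nat_lit 9) (C.cons (nat_lit 656) (C.node (nat_lit 4) (nat_lit 6) (nat_lit 9) (C.cons (nat_lit 848) (C.miq (nat_lit 642058631) (nat_lit 1374551700780397937160095617)) (C.cons (nat_lit 592) (C.node (nat_lit 4) (nat_lit 8) (nat_lit 9) (C.cons (nat_lit 792) (C.miq (nat_lit 659096963) (nat_lit 793066202845901380168188201)) (C.cons (nat_lit 784) (C.node (nat_lit 2) (nat_lit 5) (nat_lit 8) (C.cons (nat_lit 804) (C.miq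 (nat_lit 881395538) (nat_lit 947808707753196214810837157)) (C.cons (nat_lit 292) (C.node (nat_lit 6) (nat_lit 7) (nat_lit 9) (C.cons (nat_lit 736) (C.miq (nat_lit 643041656) (nat_lit 1374553766815733711593539457)) C.nil)) C.nil))) C.nil))) C.nil))) C.nil)) C.nil))) C.nil)) C.nil))) (C.cons (nat_lit 176) (C.miq (nat_lit 2220302497) (nat_lit 212778138560336933477811207)) C.nil)))) C.nil))) C.nil))) C.nil)) (C.cons (nat_lit 1154) (C.node (nat_lit 5) (nat_lit 7) (nat_lit 10) (C.cons (nat_lit 1184) (C.node (nat_lit 4) (nat_lit 7) (nat_lit 8) (C.cons (nat_lit 464) (C.miq (nat_lit 1210738448) (nat_lit 1552281726463801732381475011)) (C.cons (nat_lit 432) (C.miq (nat_lit 1461340192) (nat_lit 1395121369904892740414931221)) (C.cons (nat_lit 400) (C.node (nat_lit 5) (nat_lit 7) (nat_lit 8) (C.cons (nat_lit 480) (C.miq (nat_lit 1479173904) (nat_lit 1552281726468305332008845507)) (C.cons (nat_lit 416) (C.node (nat_lit 1) (nat_lit 2) (nat_lit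 4) (C.cons (nat_lit 62) (C.miq (nat_lit 2536770081) (nat_lit 184975446162859833109120007)) (C.cons (nat_lit 54) (C.miq (nat_lit 1517371522) (nat_lit 1395101392279507347104465173)) (C.cons (nat_lit 30)
  (C.miq (nat_lit 2536770081) (nat_lit 184975446162859833107022855)) (C.cons (nat_lit 22) (C.node (nat_lit 1) (nat_lit 2) (nat_lit 3) (C.cons (nat_lit 46) (C.node (nat_lit 2) (nat_lit 3) (nat_lit 4) (C.cons (nat_lit 28) (C.node (nat_lit 5) (nat_lit 8) (nat_lit 10) (C.cons (nat_lit 1314) (C.miq (nat_lit 2555578898) (nat_lit 359061834098523353664848903)) (C.cons (nat_lit 1312) (C.node (nat_lit 1) (nat_lit 8) (nat_lit 10) (C.cons (nat_lit 1354) (C.miq (nat_lit 1629857904) (nat_lit 55631562031403543310960513)) (C.cons (nat_lit 1346) (C.miq (nat_lit 1629857904) (nat_lit 55631562029151743497275265)) (C.cons (nat_lit 1306) (C.miq (nat_lit 1092986992) (nat_lit 55631562017892744428849025)) (C.cons (nat_lit 1298) (C.miq (nat_lit 1092986992)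 (nat_lit 55631562015640944615163777)) (C.cons (nat_lit 1290) (C.miq (nat_lit 2016741906) (nat_lit 359054012679035997735748615)) (C.cons (nat_lit 1282) (C.node (nat_lit 1) (nat_lit 3) (nat_lit 7) (C.cons (nat_lit 650) (C.node (nat_lit 1) (nat_lit 5) (nat_lit 7) (C.cons (nat_lit 162) (C.node (nat_lit 2) (nat_lit 4) (nat_lit 10) (C.cons (nat_lit 1044) (C.node (nat_lit 1) (nat_lit 4) (nat_lit 10) C.nil) C.nil)) C.nil)) (C.cons (nat_lit 138) (C.node (nat_lit 3) (nat_lit 7) (nat_lit 9) (C.cons (nat_lit 680) (C.miq (nat_lit 443883667) (nat_lit 1431369019264157285156913741)) (C.cons (nat_lit 648) (C.node (nat_lit 2) (nat_lit 4) (nat_lit 10) (C.cons (nat_lit 1044) (C.node (nat_lit 1) (nat_lit 4) (nat_lit 5) C.nil) C.nil)) C.nil))) C.nil))) C.nil))))))) C.nil))) C.nil)) (C.cons (nat_lit 14) (C.node (nat_lit 1) (nat_lit 2) (nat_lit 5) (C.cons (nat_lit 38) (C.node (nat_lit 2) (nat_lit 3) (nat_lit 4) (C.cons (nat_lit 60) (C.node (nat_lit 2)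 (nat_lit 4) (nat_lit 9) (C.cons (nat_lit 1556) (C.miq (nat_lit 2453185616) (nat_lit 324027556290061536349193329)) C.nil)) (C.cons (nat_lit 28) (C.node (nat_lit 2) (nat_lit 3) (nat_lit 5) (C.cons (nat_lit 44) (C.node (nat_lit 2) (nat_lit 4) (nat_lit 5) C.nil) C.nil)) C.nil))) C.nil)) C.nil))) C.nil))))) C.nil))) C.nil)))) C.nil)) C.nil))) C.nil))) C.nil))) C.nil))) C.nil))) C.nil)) (C.cons (nat_lit 134) (C.node (nat_lit 2) (nat_lit 7) (nat_lit 8) (C.cons (nat_lit 388) (C.node (nat_lit 1) (nat_lit 7) (nat_lit 10) (C.cons (nat_lit 1186) (C.node (nat_lit 1) (nat_lit 9) (nat_lit 10) (C.cons (nat_lit 1546) (C.miq (nat_lit 1368422962) (nat_lit 641942654261976216281875596)) (C.cons (nat_lit 1538) (C.node (nat_lit 3) (nat_lit 5) (nat_lit 7) (C.cons (nat_lit 680) (C.miq (nat_lit 361801522) (nat_lit 658883590616945137757783180)) (C.cons (nat_lit 232) (C.miq (nat_lit 389195104) (nat_lit 1407208672958398672755557489)) (C.cons (nat_lit 168)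 (C.node (nat_lit 1) (nat_lit 2) (nat_lit 4) (C.cons (nat_lit 62) (C.miq (nat_lit 2266106452) (nat_lit 162001170117187251052872817)) (C.cons (nat_lit 54) (C.miq (nat_lit 2266106452) (nat_lit 162001170117187251052348529)) (C.cons (nat_lit 30) (C.miq (nat_lit 2536770081) (nat_lit 184975446162859833107022855)) (C.cons (nat_lit 22) (C.node (nat_lit 1) (nat_lit 4) (nat_lit 7) (C.cons (nat_lit 402) (C.node (nat_lit 1) (nat_lit 3) (nat_lit 7) (C.cons (nat_lit 650) (C.miq (nat_lit 826447744) (nat_lit 26607233346741718226372481)) (C.cons (nat_lit 138) (C.node (nat_lit 1) (nat_lit 7) (nat_lit 9) (C.cons (nat_lit 642) (C.node (nat_lit 3) (nat_lit 7) (nat_lit 9) (C.cons (nat_lit 648) (C.node (nat_lit 3) (nat_lit 5) (nat_lit 6) (C.cons (nat_lit 106) (C.miq (nat_lit 2534607446) (nat_lit 166842628779796765134685297)) (C.cons (nat_lit 104) (C.node (nat_lit 3) (nat_lit 5) (nat_lit 10) (C.cons (nat_lit 1576) (C.miq (nat_lit 372600986) (nat_lit 125750163133283003995260801))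 (C.cons (nat_lit 1064) (C.node (nat_lit 5) (nat_lit 9) (nat_lit 10) (C.cons (nat_lit 1572) (C.miq (nat_lit 446068000) (nat_lit 1934284908832337126998474917)) (C.cons (nat_lit 1568) (C.node (nat_lit 1) (nat_lit 2) (nat_lit 6) (C.cons (nat_lit 358) (C.miq (nat_lit 2534541910) (nat_lit 162006925501338248452375665)) (C.cons (nat_lit 326) (C.miq (nat_lit 880936726) (nat_lit 334883317208579094354460867))
  (C.cons (nat_lit 102) (C.miq (nat_lit 2534541910) (nat_lit 162006925501338248435598449)) (C.cons (nat_lit 70) (C.node (nat_lit 1) (nat_lit 4) (nat_lit 5) (C.cons (nat_lit 58) (C.node (nat_lit 1) (nat_lit 4) (nat_lit 6) (C.cons (nat_lit 82) (C.node (nat_lit 1) (nat_lit 4) (nat_lit 10) (C.cons (nat_lit 1042) (C.node (nat_lit 2) (nat_lit 3) (nat_lit 4) (C.cons (nat_lit 28) (C.node (nat_lit 2) (nat_lit 3) (nat_lit 5) (C.cons (nat_lit 44) (C.node (nat_lit 3) (nat_lit 6) (nat_lit 7) C.nil) C.nil)) C.nil)) C.nil)) C.nil)) (C.cons (nat_lit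 50) (C.node (nat_lit 1) (nat_lit 4) (nat_lit 6) (C.cons (nat_lit 90) (C.node (nat_lit 1) (nat_lit 4) (nat_lit 10) (C.cons (nat_lit 1042) (C.node (nat_lit 1) (nat_lit 6) (nat_lit 10) (C.cons (nat_lit 1346) (C.miq (nat_lit 2167907904) (nat_lit 166867199681050127367734385)) (C.cons (nat_lit 1090) (C.node (nat_lit 2) (nat_lit 3) (nat_lit 4) C.nil) C.nil))) C.nil)) (C.cons (nat_lit 82) (C.node (nat_lit 1) (nat_lit 3) (nat_lit 4) (C.cons (nat_lit 1050) (C.node (nat_lit 3) (nat_lit 9) (nat_lit 10) (C.cons (nat_lit 1544) (C.node (nat_lit 4) (nat_lit 8) (nat_lit 10) (C.cons (nat_lit 1296) (C.node (nat_lit 1) (nat_lit 2) (nat_lit 3) (C.cons (nat_lit 270) (C.node (nat_lit 1) (nat_lit 3) (nat_lit 6) C.nil) (C.cons (nat_lit 46) (C.miq (nat_lit 2538801682) (nat_lit 203110403368235640371938311)) C.nil))) C.nil)) C.nil)) (C.cons (nat_lit 26) (C.node (nat_lit 1) (nat_lit 4) (nat_lit 10) (C.cons (nat_lit 1042) (C.node (nat_lit 3) (nat_lit 6) (nat_lit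 7) C.nil) C.nil)) C.nil))) C.nil))) C.nil))) C.nil))))) C.nil))) C.nil))) C.nil))) C.nil)) C.nil)) C.nil))) (C.cons (nat_lit 146) (C.node (nat_lit 1) (nat_lit 7) (nat_lit 8) (C.cons (nat_lit 394) (C.node (nat_lit 1) (nat_lit 7) (nat_lit 9) (C.cons (nat_lit 642) (C.node (nat_lit 2) (nat_lit 3) (nat_lit 8) (C.cons (nat_lit 268) (C.node (nat_lit 3) (nat_lit 6) (nat_lit 7) (C.cons (nat_lit 200) (C.node (nat_lit 3) (nat_lit 7) (nat_lit 9) (C.cons (nat_lit 648) (C.node (nat_lit 1) (nat_lit 2) (nat_lit 3) (C.cons (nat_lit 46) (C.miq (nat_lit 2538801682) (nat_lit 203110403368235640371938311)) (C.cons (nat_lit 14) (C.node (nat_lit 3) (nat_lit 5) (nat_lit 6) (C.cons (nat_lit 106) (C.miq (nat_lit 2534607446) (nat_lit 476327638601141833859466353)) (C.cons (nat_lit 104) (C.node (nat_lit 3) (nat_lit 5) (nat_lit 10) (C.cons (nat_lit 1576) (C.miq (nat_lit 372600986) (nat_lit 125750163133283003995260801)) (C.cons (nat_lit 1064) (C.node (nat_lit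 5) (nat_lit 9) (nat_lit 10) (C.cons (nat_lit 1572) (C.miq (nat_lit 446068000) (nat_lit 1934284908832337126998474917)) (C.cons (nat_lit 1568) (C.node (nat_lit 4) (nat_lit 5) (nat_lit 7) (C.cons (nat_lit 688) (C.node (nat_lit 6) (nat_lit 7) (nat_lit 9) C.nil) (C.cons (nat_lit 432) (C.miq (nat_lit 1411479562) (nat_lit 26618245991591641084266369)) C.nil))) C.nil))) C.nil))) C.nil))) C.nil))) C.nil)) C.nil)) C.nil)) C.nil)) (C.cons (nat_lit 386) (C.node (nat_lit 1) (nat_lit 3) (nat_lit 7) (C.cons (nat_lit 650) (C.node (nat_lit 3) (nat_lit 5) (nat_lit 6) (C.cons (nat_lit 106) (C.node (nat_lit 1) (nat_lit 2) (nat_lit 3) (C.cons (nat_lit 270) (C.miq (nat_lit 1679904899) (nat_lit 26598323706431893299659049)) (C.cons (nat_lit 14) (C.node (nat_lit 2) (nat_lit 3) (nat_lit 8) (C.cons (nat_lit 268) (C.node (nat_lit 1) (nat_lit 4) (nat_lit 5) (C.cons (nat_lit 306) (C.miq (nat_lit 2184265829) (nat_lit 16930606256262461860217969)) (C.cons (nat_lit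 50) (C.node (nat_lit 3) (nat_lit 5) (nat_lit 10) (C.cons (nat_lit 1576) (C.node (nat_lit 2) (nat_lit 3) (nat_lit 4) (C.cons (nat_lit 60) (C.miq (nat_lit 2468914496) (nat_lit 324027556295691035882095729)) (C.cons (nat_lit 28) (C.node (nat_lit 2) (nat_lit 3) (nat_lit 5) (C.cons (nat_lit 44) (C.node (nat_lit 3) (nat_lit 4) (nat_lit 5) (C.cons (nat_lit 56) (C.node (nat_lit 3) (nat_lit 6) (nat_lit 7) (C.cons (nat_lit 200) (C.node (nat_lit 3) (nat_lit 7) (nat_lit 8) C.nil) C.nil)) C.nil)) C.nil)) C.nil))) (C.cons (nat_lit 1064)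
  (C.miq (nat_lit 2589132566) (nat_lit 1286307937742943380912603331)) C.nil))) C.nil))) C.nil)) C.nil))) (C.cons (nat_lit 104) (C.miq (nat_lit 325417226) (nat_lit 125750163261354118369838977)) C.nil))) (C.cons (nat_lit 138) (C.node (nat_lit 1) (nat_lit 7) (nat_lit 9) (C.cons (nat_lit 642) (C.node (nat_lit 3) (nat_lit 7) (nat_lit 9) (C.cons (nat_lit 648) (C.node (nat_lit 3) (nat_lit 5) (nat_lit 6) (C.cons (nat_lit 106) (C.miq (nat_lit 2534607446) (nat_lit 166842628779796765134685297)) (C.cons (nat_lit 104) (C.node (nat_lit 3) (nat_lit 5) (nat_lit 10) (C.cons (nat_lit 1576) (C.miq (nat_lit 372600986) (nat_lit 125750163133283003995260801)) (C.cons (nat_lit 1064) (C.node (nat_lit 5) (nat_lit 9) (nat_lit 10) (C.cons (nat_lit 1572) (C.miq (nat_lit 446068000) (nat_lit 1934284908832337126998474917)) (C.cons (nat_lit 1568) (C.node (nat_lit 2) (nat_lit 3) (nat_lit 4) (C.cons (nat_lit 60) (C.node (nat_lit 2) (nat_lit 4) (nat_lit 9) (C.cons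 (nat_lit 1556) (C.miq (nat_lit 2300774981) (nat_lit 712062786976726588872983665)) (C.cons (nat_lit 532) (C.node (nat_lit 2) (nat_lit 4) (nat_lit 10) (C.cons (nat_lit 1044) (C.node (nat_lit 2) (nat_lit 9) (nat_lit 10) C.nil) C.nil)) C.nil))) (C.cons (nat_lit 28) (C.node (nat_lit 2) (nat_lit 3) (nat_lit 5) (C.cons (nat_lit 46) (C.miq (nat_lit 2538801682) (nat_lit 203110403368235640371938311)) (C.cons (nat_lit 44) (C.node (nat_lit 3) (nat_lit 6) (nat_lit 7) (C.cons (nat_lit 200) (C.node (nat_lit 3) (nat_lit 7) (nat_lit 8) C.nil) C.nil)) C.nil))) C.nil))) C.nil))) C.nil))) C.nil))) C.nil)) C.nil)) C.nil))) C.nil))) C.nil))) C.nil))))) C.nil)))) C.nil))) (C.cons (nat_lit 1154) (C.node (nat_lit 5) (nat_lit 7) (nat_lit 10) (C.cons (nat_lit 1184) (C.node (nat_lit 2) (nat_lit 3) (nat_lit 8) (C.cons (nat_lit 270) (C.node (nat_lit 1) (nat_lit 2) (nat_lit 4) (C.cons (nat_lit 54) (C.node (nat_lit 1) (nat_lit 2) (nat_lit 6) (C.cons (nat_lit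 70) (C.node (nat_lit 1) (nat_lit 2) (nat_lit 9) (C.cons (nat_lit 518) (C.node (nat_lit 2) (nat_lit 3) (nat_lit 4) (C.cons (nat_lit 28) (C.node (nat_lit 2) (nat_lit 3) (nat_lit 5) (C.cons (nat_lit 44) (C.node (nat_lit 2) (nat_lit 8) (nat_lit 10) (C.cons (nat_lit 1316) (C.miq (nat_lit 2182718784) (nat_lit 626259011126164809860711537)) (C.cons (nat_lit 1284) (C.node (nat_lit 5) (nat_lit 8) (nat_lit 10) (C.cons (nat_lit 1314) (C.miq (nat_lit 1703086610) (nat_lit 359061833877846971938374663)) (C.cons (nat_lit 1312) (C.node (nat_lit 4) (nat_lit 5) (nat_lit 7) (C.cons (nat_lit 688) (C.miq (nat_lit 2807171393) (nat_lit 199491779370270193576444435)) (C.cons (nat_lit 432) (C.miq (nat_lit 443883652) (nat_lit 1431369166838109874817073429)) (C.cons (nat_lit 176) (C.node (nat_lit 2) (nat_lit 4) (nat_lit 9) (C.cons (nat_lit 1556) (C.node (nat_lit 2) (nat_lit 5) (nat_lit 10) C.nil) C.nil)) C.nil)))) C.nil))) C.nil))) C.nil)) C.nil)) C.nil)) C.nil))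 (C.cons (nat_lit 22) (C.node (nat_lit 1) (nat_lit 2) (nat_lit 6) (C.cons (nat_lit 102) (C.node (nat_lit 1) (nat_lit 2) (nat_lit 9) (C.cons (nat_lit 518) (C.node (nat_lit 2) (nat_lit 6) (nat_lit 8) (C.cons (nat_lit 324) (C.node (nat_lit 2) (nat_lit 3) (nat_lit 4) (C.cons (nat_lit 60) (C.miq (nat_lit 305620288) (nat_lit 1407193251175233438053106801)) (C.cons (nat_lit 28) (C.node (nat_lit 2) (nat_lit 3) (nat_lit 5) (C.cons (nat_lit 44) (C.node (nat_lit 2) (nat_lit 8) (nat_lit 10) (C.cons (nat_lit 1316) (C.miq (nat_lit 2182587744) (nat_lit 162031496394147412909950065)) (C.cons (nat_lit 1284) (C.node (nat_lit 2) (nat_lit 5) (nat_lit 10) (C.cons (nat_lit 1572) (C.miq (nat_lit 2451023200) (nat_lit 162031496466205006947878001)) (C.cons (nat_lit 1060) (C.node (nat_lit 3) (nat_lit 7) (nat_lit 8) (C.cons (nat_lit 456) (C.node (nat_lit 2) (nat_lit 4) (nat_lit 10) C.nil) C.nil)) C.nil))) C.nil))) C.nil)) C.nil))) C.nil)) C.nil)) (C.cons (nat_lit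 70) (C.node (nat_lit 1) (nat_lit 2) (nat_lit 5) (C.cons (nat_lit 550) (C.node (nat_lit 2) (nat_lit 8) (nat_lit 9) (C.cons (nat_lit 772) (C.node (nat_lit 1) (nat_lit 5) (nat_lit 10) (C.cons (nat_lit 1314)
  (C.miq (nat_lit 1703086610) (nat_lit 359061833877846971938374663)) (C.cons (nat_lit 1066) (C.miq (nat_lit 1161300498) (nat_lit 359056078493694909406381063)) (C.cons (nat_lit 1058) (C.node (nat_lit 1) (nat_lit 6) (nat_lit 9) (C.cons (nat_lit 834) (C.node (nat_lit 1) (nat_lit 5) (nat_lit 6) (C.cons (nat_lit 106) (C.miq (nat_lit 1108740149) (nat_lit 84645781399005578186588457)) (C.cons (nat_lit 98) (C.node (nat_lit 1) (nat_lit 5) (nat_lit 8) (C.cons (nat_lit 434) (C.miq (nat_lit 1632802928) (nat_lit 664920066155057455617607553)) (C.cons (nat_lit 418) (C.miq (nat_lit 1632802928) (nat_lit 664920066155057386898130817)) (C.cons (nat_lit 306) (C.miq (nat_lit 911286344) (nat_lit 118479711108927205380587797)) (C.cons (nat_lit 290) (C.node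 (nat_lit 1) (nat_lit 4) (nat_lit 6) (C.cons (nat_lit 90) (C.node (nat_lit 1) (nat_lit 6) (nat_lit 10) (C.cons (nat_lit 1090) (C.node (nat_lit 1) (nat_lit 4) (nat_lit 5) (C.cons (nat_lit 178) (C.miq (nat_lit 829580368) (nat_lit 162006924985953236755481713)) (C.cons (nat_lit 50) (C.node (nat_lit 1) (nat_lit 7) (nat_lit 9) (C.cons (nat_lit 650) (C.miq (nat_lit 1248944275) (nat_lit 1395102056362294000665363021)) C.nil)) C.nil))) C.nil)) (C.cons (nat_lit 82) (C.node (nat_lit 1) (nat_lit 7) (nat_lit 8) (C.cons (nat_lit 402) (C.miq (nat_lit 907282823) (nat_lit 99134739726035213198952321)) (C.cons (nat_lit 386) (C.node (nat_lit 1) (nat_lit 4) (nat_lit 7) (C.cons (nat_lit 178) (C.miq (nat_lit 844564756) (nat_lit 199475582754048214914171411)) C.nil)) C.nil))) C.nil))) C.nil))))) C.nil))) (C.cons (nat_lit 578) (C.node (nat_lit 1) (nat_lit 8) (nat_lit 9) (C.cons (nat_lit 770) (C.node (nat_lit 1) (nat_lit 7) (nat_lit 9) (C.cons (nat_lit 650)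 (C.node (nat_lit 1) (nat_lit 9) (nat_lit 10) (C.cons (nat_lit 1538) (C.node (nat_lit 1) (nat_lit 3) (nat_lit 5) (C.cons (nat_lit 106) (C.miq (nat_lit 1901761376) (nat_lit 1279078953530602453090763341)) (C.cons (nat_lit 58) (C.miq (nat_lit 1517502609) (nat_lit 1407190724262629933706773011)) (C.cons (nat_lit 42) (C.node (nat_lit 1) (nat_lit 4) (nat_lit 5) (C.cons (nat_lit 434) (C.miq (nat_lit 826447744) (nat_lit 26607233346741855665325953)) (C.cons (nat_lit 306) (C.miq (nat_lit 1695745154) (nat_lit 50785749876112203061264661)) (C.cons (nat_lit 178) (C.miq (nat_lit 844564756) (nat_lit 199475582754048214914171411)) C.nil)))) C.nil)))) C.nil)) (C.cons (nat_lit 642) (C.node (nat_lit 1) (nat_lit 3) (nat_lit 7) (C.cons (nat_lit 170) (C.node (nat_lit 3) (nat_lit 5) (nat_lit 6) (C.cons (nat_lit 104) (C.node (nat_lit 3) (nat_lit 7) (nat_lit 9) (C.cons (nat_lit 648) (C.node (nat_lit 1) (nat_lit 4) (nat_lit 5) (C.cons (nat_lit 306) (C.miq (nat_lit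 1695745154) (nat_lit 205528254786784737423655189)) (C.cons (nat_lit 50) (C.node (nat_lit 1) (nat_lit 3) (nat_lit 9) (C.cons (nat_lit 1546) (C.node (nat_lit 1) (nat_lit 3) (nat_lit 4) C.nil) C.nil)) C.nil))) C.nil)) C.nil)) (C.cons (nat_lit 138) (C.node (nat_lit 1) (nat_lit 4) (nat_lit 7) (C.cons (nat_lit 434) (C.miq (nat_lit 844564756) (nat_lit 199475582754048214930948627)) (C.cons (nat_lit 402) (C.node (nat_lit 1) (nat_lit 5) (nat_lit 7) C.nil) (C.cons (nat_lit 178) (C.miq (nat_lit 844564756) (nat_lit 199475582754048214914171411)) C.nil)))) C.nil))) C.nil))) C.nil)) C.nil))) C.nil)))) C.nil)) (C.cons (nat_lit 38) (C.node (nat_lit 1) (nat_lit 2) (nat_lit 9) (C.cons (nat_lit 518) (C.node (nat_lit 2) (nat_lit 3) (nat_lit 4) (C.cons (nat_lit 60) (C.node (nat_lit 2) (nat_lit 4) (nat_lit 9) (C.cons (nat_lit 1556) (C.miq (nat_lit 2453185616) (nat_lit 326445407929290794698605681)) (C.cons (nat_lit 532) (C.node (nat_lit 2) (nat_lit 4)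 (nat_lit 10) (C.cons (nat_lit 1044) (C.node (nat_lit 1) (nat_lit 4) (nat_lit 7) (C.cons (nat_lit 434) (C.miq (nat_lit 1632765763) (nat_lit 45950046332504808043053209)) C.nil)) C.nil)) C.nil))) (C.cons (nat_lit 28) (C.node (nat_lit 2) (nat_lit 3) (nat_lit 5) (C.cons (nat_lit 44) (C.node (nat_lit 2) (nat_lit 4) (nat_lit 5) (C.cons (nat_lit 564) (C.node (nat_lit 1) (nat_lit 4) (nat_lit 7) (C.cons (nat_lit 434)
  (C.miq (nat_lit 1649871169) (nat_lit 199476357517299370861658643)) C.nil)) (C.cons (nat_lit 52) (C.node (nat_lit 2) (nat_lit 4) (nat_lit 9) (C.cons (nat_lit 1556) (C.node (nat_lit 1) (nat_lit 4) (nat_lit 7) (C.cons (nat_lit 434) (C.miq (nat_lit 1093031984) (nat_lit 84645781443197149561815337)) C.nil)) (C.cons (nat_lit 532) (C.node (nat_lit 2) (nat_lit 4) (nat_lit 10) C.nil) C.nil))) C.nil))) C.nil)) C.nil))) C.nil)) C.nil))) C.nil))) C.nil))) (C.cons (nat_lit 268) (C.node (nat_lit 2) (nat_lit 4) (nat_lit 10) (C.cons (nat_lit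 1556) (C.node (nat_lit 2) (nat_lit 3) (nat_lit 4) (C.cons (nat_lit 62) (C.miq (nat_lit 2453185616) (nat_lit 324027556290061544939127921)) (C.cons (nat_lit 60) (C.miq (nat_lit 2453185616) (nat_lit 324027556290061536349193329)) (C.cons (nat_lit 30) (C.miq (nat_lit 2536770081) (nat_lit 184975446162859833107022855)) (C.cons (nat_lit 28) (C.node (nat_lit 1) (nat_lit 2) (nat_lit 3) (C.cons (nat_lit 46) (C.node (nat_lit 1) (nat_lit 2) (nat_lit 4) (C.cons (nat_lit 22) (C.node (nat_lit 2) (nat_lit 4) (nat_lit 5) (C.cons (nat_lit 52) (C.node (nat_lit 3) (nat_lit 5) (nat_lit 10) (C.cons (nat_lit 1576) (C.miq (nat_lit 2207384996) (nat_lit 712062417584729838501233777)) (C.cons (nat_lit 1064) (C.node (nat_lit 3) (nat_lit 9) (nat_lit 10) (C.cons (nat_lit 1546) (C.miq (nat_lit 1470177427) (nat_lit 1395101244431961080141054541)) (C.cons (nat_lit 1544) (C.node (nat_lit 1) (nat_lit 2) (nat_lit 6) (C.cons (nat_lit 326) (C.node (nat_lit 1) (nat_lit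 2) (nat_lit 9) (C.cons (nat_lit 518) (C.node (nat_lit 2) (nat_lit 5) (nat_lit 6) (C.cons (nat_lit 100) (C.node (nat_lit 1) (nat_lit 3) (nat_lit 7) C.nil) C.nil)) C.nil)) (C.cons (nat_lit 70) (C.node (nat_lit 2) (nat_lit 5) (nat_lit 10) (C.cons (nat_lit 1316) (C.node (nat_lit 2) (nat_lit 5) (nat_lit 6) (C.cons (nat_lit 100) (C.node (nat_lit 1) (nat_lit 5) (nat_lit 10) C.nil) C.nil)) C.nil)) C.nil))) C.nil))) C.nil))) C.nil)) C.nil)) (C.cons (nat_lit 14) (C.node (nat_lit 2) (nat_lit 3) (nat_lit 5) (C.cons (nat_lit 44) (C.node (nat_lit 1) (nat_lit 2) (nat_lit 4) (C.cons (nat_lit 54) (C.node (nat_lit 1) (nat_lit 2) (nat_lit 9) (C.cons (nat_lit 774) (C.miq (nat_lit 2152831554) (nat_lit 42326682007143385950193172)) (C.cons (nat_lit 518) (C.node (nat_lit 2) (nat_lit 5) (nat_lit 10) (C.cons (nat_lit 1316) (C.miq (nat_lit 2182718784) (nat_lit 626259011126164809860711537)) (C.cons (nat_lit 1060) (C.node (nat_lit 2) (nat_lit 8) (nat_lit 10)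 (C.cons (nat_lit 1284) (C.node (nat_lit 4) (nat_lit 5) (nat_lit 7) (C.cons (nat_lit 688) (C.miq (nat_lit 1965724688) (nat_lit 1281496805180527537209934355)) (C.cons (nat_lit 432) (C.miq (nat_lit 443883652) (nat_lit 1431369166838109874817073429)) C.nil))) C.nil)) C.nil))) C.nil))) (C.cons (nat_lit 22) (C.node (nat_lit 2) (nat_lit 4) (nat_lit 5) (C.cons (nat_lit 52) (C.node (nat_lit 2) (nat_lit 5) (nat_lit 10) (C.cons (nat_lit 1316) (C.node (nat_lit 2) (nat_lit 5) (nat_lit 6) (C.cons (nat_lit 102) (C.miq (nat_lit 2182587744) (nat_lit 162031496394147412909950065)) (C.cons (nat_lit 100) (C.node (nat_lit 2) (nat_lit 8) (nat_lit 9) (C.cons (nat_lit 774) (C.miq (nat_lit 1377085584) (nat_lit 26617342349958043294435201)) (C.cons (nat_lit 772) (C.node (nat_lit 1) (nat_lit 2) (nat_lit 5) (C.cons (nat_lit 550) (C.node (nat_lit 1) (nat_lit 7) (nat_lit 9) C.nil) C.nil)) C.nil))) C.nil))) (C.cons (nat_lit 1060) (C.node (nat_lit 2) (nat_lit 8)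 (nat_lit 10) (C.cons (nat_lit 1284) (C.node (nat_lit 5) (nat_lit 8) (nat_lit 10) (C.cons (nat_lit 1314) (C.node (nat_lit 3) (nat_lit 5) (nat_lit 10) (C.cons (nat_lit 1576) (C.miq (nat_lit 2207384996) (nat_lit 712062417584729838501233777)) C.nil)) C.nil)) C.nil)) C.nil))) C.nil)) C.nil))) C.nil)) C.nil))) C.nil))))) (C.cons (nat_lit 1044) (C.node (nat_lit 2) (nat_lit 4) (nat_lit 9) (C.cons (nat_lit 564) (C.node (nat_lit 2) (nat_lit 9) (nat_lit 10) (C.cons (nat_lit 1540) (C.node (nat_lit 1) (nat_lit 2) (nat_lit 4) (C.cons (nat_lit 30) (C.miq (nat_lit 2536770081) (nat_lit 184975446162859833107022855)) (C.cons (nat_lit 22)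
  (C.node (nat_lit 2) (nat_lit 3) (nat_lit 4) (C.cons (nat_lit 28) (C.node (nat_lit 1) (nat_lit 2) (nat_lit 3) (C.cons (nat_lit 46) (C.node (nat_lit 3) (nat_lit 4) (nat_lit 5) (C.cons (nat_lit 56) (C.node (nat_lit 1) (nat_lit 2) (nat_lit 6) (C.cons (nat_lit 326) (C.node (nat_lit 1) (nat_lit 2) (nat_lit 9) (C.cons (nat_lit 518) (C.node (nat_lit 4) (nat_lit 7) (nat_lit 9) C.nil) C.nil)) (C.cons (nat_lit 70) (C.node (nat_lit 4) (nat_lit 7) (nat_lit 9) (C.cons (nat_lit 720) (C.node (nat_lit 2) (nat_lit 5) (nat_lit 10) C.nil) C.nil)) C.nil))) C.nil)) (C.cons (nat_lit 14) (C.node (nat_lit 2) (nat_lit 3) (nat_lit 5) (C.cons (nat_lit 44) (C.node (nat_lit 1) (nat_lit 2) (nat_lit 9) (C.cons (nat_lit 774) (C.node (nat_lit 1) (nat_lit 4) (nat_lit 7) (C.cons (nat_lit 434) (C.miq (nat_lit 840173959) (nat_lit 26599190549157205020641153)) (C.cons (nat_lit 402) (C.miq (nat_lit 840173959) (nat_lit 26599190549157205018544001)) (C.cons (nat_lit 178)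 (C.miq (nat_lit 1649871169) (nat_lit 199476357517299370844881427)) C.nil)))) (C.cons (nat_lit 518) (C.node (nat_lit 2) (nat_lit 8) (nat_lit 9) C.nil) C.nil))) C.nil)) C.nil))) C.nil)) C.nil))) C.nil)) (C.cons (nat_lit 532) (C.node (nat_lit 2) (nat_lit 8) (nat_lit 10) (C.cons (nat_lit 1316) (C.node (nat_lit 2) (nat_lit 9) (nat_lit 10) (C.cons (nat_lit 1540) (C.node (nat_lit 2) (nat_lit 5) (nat_lit 6) (C.cons (nat_lit 102) (C.miq (nat_lit 2182587744) (nat_lit 162031496394147412909950065)) (C.cons (nat_lit 100) (C.node (nat_lit 2) (nat_lit 3) (nat_lit 4) (C.cons (nat_lit 62) (C.miq (nat_lit 2184684864) (nat_lit 1407225090597215291055866993)) (C.cons (nat_lit 60) (C.miq (nat_lit 2184684864) (nat_lit 1407225090597215282465932401)) (C.cons (nat_lit 30) (C.miq (nat_lit 2536770081) (nat_lit 184975446162859833107022855)) (C.cons (nat_lit 28) (C.node (nat_lit 1) (nat_lit 2) (nat_lit 3) (C.cons (nat_lit 46) (C.node (nat_lit 1) (nat_lit 5)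 (nat_lit 10) (C.cons (nat_lit 1570) (C.miq (nat_lit 1095895464) (nat_lit 55615697599851315400542081)) C.nil)) (C.cons (nat_lit 14) (C.node (nat_lit 2) (nat_lit 3) (nat_lit 5) (C.cons (nat_lit 44) (C.node (nat_lit 1) (nat_lit 2) (nat_lit 4) (C.cons (nat_lit 54) (C.node (nat_lit 2) (nat_lit 5) (nat_lit 9) C.nil) C.nil)) C.nil)) C.nil))) C.nil))))) C.nil))) C.nil)) (C.cons (nat_lit 1284) (C.node (nat_lit 2) (nat_lit 5) (nat_lit 10) (C.cons (nat_lit 1572) (C.node (nat_lit 4) (nat_lit 9) (nat_lit 10) (C.cons (nat_lit 1560) (C.miq (nat_lit 1922237860) (nat_lit 712060130151309984411419761)) (C.cons (nat_lit 1552) (C.node (nat_lit 2) (nat_lit 3) (nat_lit 4) (C.cons (nat_lit 62) (C.miq (nat_lit 2453120320) (nat_lit 1407225090669272885093794929)) (C.cons (nat_lit 60) (C.miq (nat_lit 2453120320) (nat_lit 1407225090669272876503860337)) (C.cons (nat_lit 30) (C.miq (nat_lit 2536770081) (nat_lit 184975446162859833107022855)) (C.cons (nat_lit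 28) (C.node (nat_lit 1) (nat_lit 2) (nat_lit 3) (C.cons (nat_lit 46) (C.node (nat_lit 1) (nat_lit 2) (nat_lit 4) C.nil) (C.cons (nat_lit 14) (C.node (nat_lit 2) (nat_lit 3) (nat_lit 5) (C.cons (nat_lit 44) (C.node (nat_lit 1) (nat_lit 2) (nat_lit 4) C.nil) C.nil)) C.nil))) C.nil))))) C.nil))) (C.cons (nat_lit 1060) (C.node (nat_lit 2) (nat_lit 9) (nat_lit 10) (C.cons (nat_lit 1540) (C.node (nat_lit 4) (nat_lit 9) (nat_lit 10) (C.cons (nat_lit 1560) (C.node (nat_lit 2) (nat_lit 3) (nat_lit 4) (C.cons (nat_lit 62) (C.miq (nat_lit 2468848720) (nat_lit 1407225090665895185374053489)) (C.cons (nat_lit 60) (C.miq (nat_lit 2468848720) (nat_lit 1407225090665895176784118897)) (C.cons (nat_lit 30) (C.miq (nat_lit 1934205456) (nat_lit 1885959715121824110365312007)) (C.cons (nat_lit 28) (C.node (nat_lit 1) (nat_lit 2) (nat_lit 3) (C.cons (nat_lit 46) (C.node (nat_lit 1) (nat_lit 2) (nat_lit 4) C.nil) (C.cons (nat_lit 14) (C.node (nat_lit 2)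 (nat_lit 3) (nat_lit 5) C.nil) C.nil))) C.nil))))) (C.cons (nat_lit 1552) (C.node (nat_lit 5) (nat_lit 8) (nat_lit 10) (C.cons (nat_lit 1314) (C.node (nat_lit 1) (nat_lit 2) (nat_lit 3) (C.cons (nat_lit 62)
  (C.miq (nat_lit 2536770081) (nat_lit 184975446162859833109120007)) (C.cons (nat_lit 46) (C.miq (nat_lit 2555578898) (nat_lit 359061834098523353664848903)) (C.cons (nat_lit 30) (C.miq (nat_lit 2536770081) (nat_lit 184975446162859833107022855)) (C.cons (nat_lit 14) (C.node (nat_lit 1) (nat_lit 2) (nat_lit 4) (C.cons (nat_lit 54) (C.node (nat_lit 2) (nat_lit 3) (nat_lit 4) C.nil) (C.cons (nat_lit 22) (C.node (nat_lit 1) (nat_lit 4) (nat_lit 10) C.nil) C.nil))) C.nil))))) (C.cons (nat_lit 1312) (C.node (nat_lit 3) (nat_lit 6) (nat_lit 7) C.nil) C.nil))) C.nil))) C.nil)) C.nil))) C.nil))) C.nil))) C.nil))) C.nil))) C.nil)) C.nil))) C.nil)) C.nil))) C.nil))) (C.cons (nat_lit 1156) (C.node (nat_lit 4) (nat_lit 7) (nat_lit 10) (C.cons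 (nat_lit 1170) (C.node (nat_lit 2) (nat_lit 4) (nat_lit 10) (C.cons (nat_lit 1556) (C.miq (nat_lit 371486874) (nat_lit 101571351593085241147000705)) (C.cons (nat_lit 1052) (C.miq (nat_lit 1665598113) (nat_lit 184969247681925916757459975)) (C.cons (nat_lit 1044) (C.node (nat_lit 4) (nat_lit 9) (nat_lit 10) (C.cons (nat_lit 1560) (C.miq (nat_lit 980849680) (nat_lit 1470064662222754480161751571)) (C.cons (nat_lit 1552) (C.node (nat_lit 2) (nat_lit 4) (nat_lit 9) (C.cons (nat_lit 564) (C.node (nat_lit 2) (nat_lit 9) (nat_lit 10) (C.cons (nat_lit 1540) (C.node (nat_lit 1) (nat_lit 2) (nat_lit 4) (C.cons (nat_lit 30) (C.miq (nat_lit 2537753106) (nat_lit 184976516074016134030820359)) (C.cons (nat_lit 22) (C.node (nat_lit 2) (nat_lit 3) (nat_lit 4) (C.cons (nat_lit 28) (C.node (nat_lit 4) (nat_lit 7) (nat_lit 9) (C.cons (nat_lit 720) (C.miq (nat_lit 342009744) (nat_lit 101568787770097660389558145)) (C.cons (nat_lit 656) (C.node (nat_lit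 1) (nat_lit 2) (nat_lit 9) (C.cons (nat_lit 774) (C.node (nat_lit 1) (nat_lit 2) (nat_lit 7) (C.cons (nat_lit 142) (C.miq (nat_lit 1685260818) (nat_lit 184976515853339752297006087)) (C.cons (nat_lit 134) (C.node (nat_lit 1) (nat_lit 6) (nat_lit 9) (C.cons (nat_lit 610) (C.miq (nat_lit 369661250) (nat_lit 388079466047913635463103028)) (C.cons (nat_lit 578) (C.node (nat_lit 2) (nat_lit 3) (nat_lit 7) (C.cons (nat_lit 396) (C.miq (nat_lit 305436784) (nat_lit 33859718388176089454806913)) (C.cons (nat_lit 140) (C.node (nat_lit 2) (nat_lit 7) (nat_lit 8) (C.cons (nat_lit 388) (C.node (nat_lit 2) (nat_lit 6) (nat_lit 8) (C.cons (nat_lit 356) (C.miq (nat_lit 275289170) (nat_lit 388079466025677112308138548)) (C.cons (nat_lit 324) (C.node (nat_lit 2) (nat_lit 5) (nat_lit 8) (C.cons (nat_lit 1316) (C.miq (nat_lit 1377085584) (nat_lit 26617342349958043294435201)) (C.cons (nat_lit 292) (C.node (nat_lit 1) (nat_lit 2) (nat_lit 3) (C.cons (nat_lit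 46) (C.node (nat_lit 1) (nat_lit 2) (nat_lit 6) C.nil) C.nil)) C.nil))) C.nil))) C.nil)) C.nil))) C.nil))) C.nil))) (C.cons (nat_lit 518) (C.node (nat_lit 2) (nat_lit 8) (nat_lit 9) (C.cons (nat_lit 772) (C.node (nat_lit 3) (nat_lit 4) (nat_lit 5) (C.cons (nat_lit 58) (C.node (nat_lit 3) (nat_lit 4) (nat_lit 10) (C.cons (nat_lit 1304) (C.miq (nat_lit 1349597348) (nat_lit 235741604819615283013616920)) (C.cons (nat_lit 1048) (C.node (nat_lit 4) (nat_lit 8) (nat_lit 10) (C.cons (nat_lit 1296) (C.node (nat_lit 4) (nat_lit 5) (nat_lit 7) (C.cons (nat_lit 432) (C.miq (nat_lit 2687596628) (nat_lit 13319767247041866967417264)) (C.cons (nat_lit 176) (C.node (nat_lit 4) (nat_lit 5) (nat_lit 8) (C.cons (nat_lit 304) (C.node (nat_lit 1) (nat_lit 5) (nat_lit 10) (C.cons (nat_lit 1570) (C.miq (nat_lit 2316633923) (nat_lit 1898019016018676151402234009)) (C.cons (nat_lit 1314) (C.node (nat_lit 1) (nat_lit 4) (nat_lit 6) C.nil) (C.cons (nat_lit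 1058) (C.miq (nat_lit 2316633923) (nat_lit 1279048996375986013952671897)) C.nil)))) C.nil)) C.nil))) C.nil)) C.nil))) (C.cons (nat_lit 56) (C.node (nat_lit 1) (nat_lit 4) (nat_lit 5) (C.cons (nat_lit 306) (C.node (nat_lit 4) (nat_lit 5) (nat_lit 7) (C.cons (nat_lit 176) (C.node (nat_lit 1) (nat_lit 3) (nat_lit 4) (C.cons (nat_lit 90) (C.miq (nat_lit 967073905) (nat_lit 1876254532414668124995059907)) (C.cons (nat_lit 26)
  (C.node (nat_lit 1) (nat_lit 4) (nat_lit 6) (C.cons (nat_lit 82) (C.node (nat_lit 3) (nat_lit 4) (nat_lit 6) (C.cons (nat_lit 344) (C.node (nat_lit 2) (nat_lit 3) (nat_lit 7) (C.cons (nat_lit 398) (C.miq (nat_lit 1410534008) (nat_lit 31437550313012323937027969)) (C.cons (nat_lit 396) (C.miq (nat_lit 1967661155) (nat_lit 369938605759177971000148557)) (C.cons (nat_lit 142) (C.miq (nat_lit 1685260818) (nat_lit 184976515853339752297006087)) C.nil)))) (C.cons (nat_lit 88) (C.node (nat_lit 3) (nat_lit 4) (nat_lit 9)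 (C.cons (nat_lit 792) (C.node (nat_lit 3) (nat_lit 4) (nat_lit 10) C.nil) C.nil)) C.nil))) C.nil)) C.nil))) C.nil)) (C.cons (nat_lit 50) (C.node (nat_lit 3) (nat_lit 4) (nat_lit 9) (C.cons (nat_lit 792) (C.node (nat_lit 3) (nat_lit 4) (nat_lit 10) (C.cons (nat_lit 1048) (C.node (nat_lit 4) (nat_lit 6) (nat_lit 9) (C.cons (nat_lit 592) (C.node (nat_lit 4) (nat_lit 8) (nat_lit 10) (C.cons (nat_lit 1296) (C.node (nat_lit 2) (nat_lit 3) (nat_lit 10) C.nil) C.nil)) C.nil)) C.nil)) (C.cons (nat_lit 536) (C.node (nat_lit 3) (nat_lit 4) (nat_lit 10) (C.cons (nat_lit 1304) (C.node (nat_lit 1) (nat_lit 3) (nat_lit 4) (C.cons (nat_lit 90) (C.miq (nat_lit 2755228000) (nat_lit 648019675838132943028289731)) (C.cons (nat_lit 26) (C.node (nat_lit 3) (nat_lit 4) (nat_lit 6) (C.cons (nat_lit 88) (C.node (nat_lit 2) (nat_lit 8) (nat_lit 10) (C.cons (nat_lit 1316) (C.miq (nat_lit 709318704) (nat_lit 1414446253032314966480847145)) C.nil)) C.nil)) C.nil)))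 (C.cons (nat_lit 1048) (C.node (nat_lit 4) (nat_lit 8) (nat_lit 10) (C.cons (nat_lit 1296) (C.node (nat_lit 4) (nat_lit 6) (nat_lit 9) (C.cons (nat_lit 848) (C.node (nat_lit 4) (nat_lit 6) (nat_lit 7) C.nil) C.nil)) C.nil)) C.nil))) C.nil))) C.nil))) C.nil))) C.nil)) C.nil))) C.nil))) C.nil)) C.nil))) C.nil)) (C.cons (nat_lit 532) (C.node (nat_lit 2) (nat_lit 9) (nat_lit 10) (C.cons (nat_lit 1572) (C.node (nat_lit 6) (nat_lit 7) (nat_lit 9) (C.cons (nat_lit 736) (C.miq (nat_lit 311888470) (nat_lit 778551825237123014598853745)) (C.cons (nat_lit 720) (C.miq (nat_lit 342009744) (nat_lit 101568787770097660389558145)) (C.cons (nat_lit 704) (C.node (nat_lit 2) (nat_lit 3) (nat_lit 4) (C.cons (nat_lit 62) (C.miq (nat_lit 2032339540) (nat_lit 712060130645580043417158769)) (C.cons (nat_lit 60) (C.miq (nat_lit 2032339540) (nat_lit 712060130645580043417027697)) (C.cons (nat_lit 30) (C.miq (nat_lit 2537753106) (nat_lit 184976516074016134030820359))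 (C.cons (nat_lit 28) (C.node (nat_lit 1) (nat_lit 2) (nat_lit 4) (C.cons (nat_lit 54) (C.node (nat_lit 2) (nat_lit 3) (nat_lit 5) (C.cons (nat_lit 44) (C.node (nat_lit 1) (nat_lit 2) (nat_lit 9) (C.cons (nat_lit 774) (C.miq (nat_lit 2186973504) (nat_lit 1900466824847424522663559699)) (C.cons (nat_lit 518) (C.node (nat_lit 2) (nat_lit 8) (nat_lit 9) (C.cons (nat_lit 772) (C.node (nat_lit 4) (nat_lit 7) (nat_lit 9) (C.cons (nat_lit 688) (C.miq (nat_lit 1965724688) (nat_lit 1900466824823217674659496467)) (C.cons (nat_lit 656) (C.node (nat_lit 4) (nat_lit 5) (nat_lit 7) (C.cons (nat_lit 432) (C.miq (nat_lit 1369915912) (nat_lit 1414451177957760053912076565)) (C.cons (nat_lit 176) (C.node (nat_lit 4) (nat_lit 5) (nat_lit 8) (C.cons (nat_lit 816) (C.miq (nat_lit 2234160144) (nat_lit 1900466824859246471678460435)) (C.cons (nat_lit 304) (C.node (nat_lit 5) (nat_lit 8) (nat_lit 10) (C.cons (nat_lit 1314) (C.miq (nat_lit 890505383) (nat_lit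 65284816694636964742301569)) (C.cons (nat_lit 1312) (C.node (nat_lit 1) (nat_lit 2) (nat_lit 7) (C.cons (nat_lit 398) (C.miq (nat_lit 893485223) (nat_lit 65289336146934263373236097)) (C.cons (nat_lit 390) (C.miq (nat_lit 1517371522) (nat_lit 1414444205393341413899763989)) (C.cons (nat_lit 142) (C.miq (nat_lit 1685260818) (nat_lit 184976515853339752297006087)) (C.cons (nat_lit 134) (C.node (nat_lit 2) (nat_lit 3) (nat_lit 7) (C.cons (nat_lit 140) (C.node (nat_lit 2) (nat_lit 7) (nat_lit 8) C.nil) C.nil)) C.nil))))) C.nil))) C.nil))) C.nil))) C.nil))) C.nil)) C.nil))) C.nil)) (C.cons (nat_lit 22)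
  (C.node (nat_lit 2) (nat_lit 4) (nat_lit 5) (C.cons (nat_lit 52) (C.node (nat_lit 1) (nat_lit 2) (nat_lit 9) (C.cons (nat_lit 774) (C.node (nat_lit 1) (nat_lit 2) (nat_lit 6) (C.cons (nat_lit 102) (C.miq (nat_lit 2032208470) (nat_lit 935712182037537536541590641)) (C.cons (nat_lit 70) (C.node (nat_lit 1) (nat_lit 2) (nat_lit 7) (C.cons (nat_lit 142) (C.miq (nat_lit 1685260818) (nat_lit 184976515853339752297006087)) (C.cons (nat_lit 134) (C.node (nat_lit 2) (nat_lit 3) (nat_lit 7) (C.cons (nat_lit 396) (C.miq (nat_lit 305436784) (nat_lit 33859718388176089454806913)) (C.cons (nat_lit 140) (C.node (nat_lit 2) (nat_lit 7) (nat_lit 8) (C.cons (nat_lit 388) (C.node (nat_lit 1) (nat_lit 2) (nat_lit 3) (C.cons (nat_lit 46) (C.node (nat_lit 1) (nat_lit 3) (nat_lit 7) (C.cons (nat_lit 650) (C.miq (nat_lit 1108543639) (nat_lit 55613410132088112494020481)) (C.cons (nat_lit 394) (C.miq (nat_lit 1094035328) (nat_lit 55631561979612164784719745))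 C.nil))) C.nil)) C.nil)) C.nil))) C.nil))) C.nil))) (C.cons (nat_lit 518) (C.node (nat_lit 2) (nat_lit 8) (nat_lit 9) (C.cons (nat_lit 772) (C.node (nat_lit 1) (nat_lit 9) (nat_lit 10) (C.cons (nat_lit 1546) (C.node (nat_lit 2) (nat_lit 3) (nat_lit 5) (C.cons (nat_lit 46) (C.miq (nat_lit 1470177427) (nat_lit 1414444057545795146936353357)) (C.cons (nat_lit 44) (C.node (nat_lit 2) (nat_lit 3) (nat_lit 10) (C.cons (nat_lit 1292) (C.miq (nat_lit 321165952) (nat_lit 33859718605478619774257025)) (C.cons (nat_lit 1036) (C.node (nat_lit 2) (nat_lit 8) (nat_lit 10) (C.cons (nat_lit 1284) (C.node (nat_lit 1) (nat_lit 5) (nat_lit 10) C.nil) C.nil)) C.nil))) C.nil))) (C.cons (nat_lit 1538) (C.node (nat_lit 3) (nat_lit 9) (nat_lit 10) (C.cons (nat_lit 1544) (C.node (nat_lit 2) (nat_lit 3) (nat_lit 5) (C.cons (nat_lit 46) (C.node (nat_lit 1) (nat_lit 5) (nat_lit 10) (C.cons (nat_lit 1314) (C.miq (nat_lit 1129410698) (nat_lit 55632170435906129340008321))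 (C.cons (nat_lit 1058) (C.node (nat_lit 5) (nat_lit 8) (nat_lit 10) (C.cons (nat_lit 1312) (C.node (nat_lit 1) (nat_lit 2) (nat_lit 6) (C.cons (nat_lit 70) (C.node (nat_lit 1) (nat_lit 2) (nat_lit 7) C.nil) C.nil)) C.nil)) C.nil))) (C.cons (nat_lit 44) (C.node (nat_lit 2) (nat_lit 3) (nat_lit 10) (C.cons (nat_lit 1292) (C.node (nat_lit 3) (nat_lit 4) (nat_lit 10) (C.cons (nat_lit 1048) (C.node (nat_lit 4) (nat_lit 8) (nat_lit 10) C.nil) C.nil)) (C.cons (nat_lit 1036) (C.node (nat_lit 2) (nat_lit 8) (nat_lit 10) C.nil) C.nil))) C.nil))) C.nil)) C.nil))) C.nil)) C.nil))) C.nil)) C.nil))) C.nil))))) C.nil)))) (C.cons (nat_lit 1540) (C.node (nat_lit 3) (nat_lit 4) (nat_lit 10) (C.cons (nat_lit 1304) (C.node (nat_lit 2) (nat_lit 8) (nat_lit 10) (C.cons (nat_lit 1316) (C.miq (nat_lit 709318704) (nat_lit 1414446253032314966480847145)) (C.cons (nat_lit 1284) (C.node (nat_lit 3) (nat_lit 4) (nat_lit 6) (C.cons (nat_lit 90) (C.miq (nat_lit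 2588083990) (nat_lit 1576450134450454314121560259)) (C.cons (nat_lit 88) (C.node (nat_lit 3) (nat_lit 7) (nat_lit 10) (C.cons (nat_lit 1192) (C.miq (nat_lit 1518498624) (nat_lit 1552263796433479795293356185)) (C.cons (nat_lit 1160) (C.node (nat_lit 5) (nat_lit 7) (nat_lit 10) (C.cons (nat_lit 1184) (C.node (nat_lit 5) (nat_lit 8) (nat_lit 10) (C.cons (nat_lit 1314) (C.miq (nat_lit 1366329923) (nat_lit 235746013877705725324100888)) (C.cons (nat_lit 1312) (C.node (nat_lit 1) (nat_lit 8) (nat_lit 10) (C.cons (nat_lit 1346) (C.miq (nat_lit 2198250609) (nat_lit 712082137437583823731885202)) (C.cons (nat_lit 1282) (C.node (nat_lit 6) (nat_lit 8) (nat_lit 10) (C.cons (nat_lit 1344) (C.node (nat_lit 1) (nat_lit 3) (nat_lit 4) (C.cons (nat_lit 62) (C.miq (nat_lit 2537753106) (nat_lit 184976516074016134032917511)) (C.cons (nat_lit 58) (C.miq (nat_lit 1486958708) (nat_lit 1549843970740717195919229081)) (C.cons (nat_lit 30) (C.miq (nat_lit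 2537753106) (nat_lit 184976516074016134030820359)) (C.cons (nat_lit 26) (C.node (nat_lit 2) (nat_lit 3) (nat_lit 4) (C.cons (nat_lit 60) (C.miq (nat_lit 1470308484) (nat_lit 1402355057604065887107154197))
  (C.cons (nat_lit 28) (C.node (nat_lit 2) (nat_lit 3) (nat_lit 7) (C.cons (nat_lit 398) (C.miq (nat_lit 1412565639) (nat_lit 33852966982024428151244673)) (C.cons (nat_lit 396) (C.miq (nat_lit 1412565639) (nat_lit 33852966982024428151113601)) (C.cons (nat_lit 142) (C.miq (nat_lit 1685260818) (nat_lit 184976515853339752297006087)) (C.cons (nat_lit 140) (C.node (nat_lit 2) (nat_lit 3) (nat_lit 10) C.nil) C.nil))))) C.nil))) C.nil))))) C.nil)) C.nil))) C.nil))) C.nil)) C.nil))) C.nil))) C.nil))) (C.cons (nat_lit 1048) (C.node (nat_lit 4) (nat_lit 8) (nat_lit 10) (C.cons (nat_lit 1296) (C.node (nat_lit 3) (nat_lit 7) (nat_lit 10) (C.cons (nat_lit 1192) (C.node (nat_lit 2) (nat_lit 5) (nat_lit 10) (C.cons (nat_lit 1316) (C.miq (nat_lit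 981759264) (nat_lit 1566770684907926512414818469)) (C.cons (nat_lit 1060) (C.node (nat_lit 3) (nat_lit 7) (nat_lit 9) (C.cons (nat_lit 650) (C.miq (nat_lit 933663040) (nat_lit 1470064661966612251416789523)) (C.cons (nat_lit 648) (C.node (nat_lit 8) (nat_lit 5) (nat_lit 10) (C.cons (nat_lit 1314) (C.miq (nat_lit 2168478323) (nat_lit 641945089268221128025375912)) (C.cons (nat_lit 1312) (C.node (nat_lit 1) (nat_lit 5) (nat_lit 10) (C.cons (nat_lit 1570) (C.miq (nat_lit 1393141569) (nat_lit 712086269476731137301873810)) (C.cons (nat_lit 1058) (C.node (nat_lit 9) (nat_lit 5) (nat_lit 10) (C.cons (nat_lit 1568) (C.node (nat_lit 1) (nat_lit 3) (nat_lit 7) (C.cons (nat_lit 398) (C.miq (nat_lit 1685260818) (nat_lit 184976515853339752313783303)) (C.cons (nat_lit 394) (C.miq (nat_lit 2241933383) (nat_lit 1279050785253045659940028569)) (C.cons (nat_lit 142) (C.miq (nat_lit 1685260818) (nat_lit 184976515853339752297006087)) (C.cons (nat_lit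 138) (C.node (nat_lit 2) (nat_lit 3) (nat_lit 7) (C.cons (nat_lit 396) (C.miq (nat_lit 2225283159) (nat_lit 1266961563944758016079298725)) (C.cons (nat_lit 140) (C.node (nat_lit 2) (nat_lit 3) (nat_lit 4) (C.cons (nat_lit 62) (C.miq (nat_lit 2268203604) (nat_lit 169254725034875051870913649)) (C.cons (nat_lit 60) (C.miq (nat_lit 2268203604) (nat_lit 169254725034875051870782577)) (C.cons (nat_lit 30) (C.miq (nat_lit 2537753106) (nat_lit 184976516074016134030820359)) (C.cons (nat_lit 28) (C.node (nat_lit 2) (nat_lit 3) (nat_lit 10) C.nil) C.nil))))) C.nil))) C.nil))))) C.nil)) C.nil))) C.nil))) C.nil))) C.nil))) (C.cons (nat_lit 1160) (C.node (nat_lit 5) (nat_lit 7) (nat_lit 10) (C.cons (nat_lit 1184) (C.ref (nat_lit 133) (nat_lit 10321519924240)) C.nil)) C.nil))) C.nil)) C.nil))) C.nil))) C.nil))) C.nil))) C.nil)))) (C.cons (nat_lit 1168) (C.ref (nat_lit 171) (nat_lit 11649936536080)) C.nil))) C.nil))) List.nil)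

theorem ok11_172 : okL par11 (nat_lit 173) c11_172 (nat_lit 172) = true := by decide +kernel

noncomputable def c11_173 : List C :=
  (List.cons (C.node (nat_lit 2) (nat_lit 7) (nat_lit 9) (C.cons (nat_lit 660) (C.ref (nat_lit 163) (nat_lit 11649936536080)) (C.cons (nat_lit 646) (C.node (nat_lit 2) (nat_lit 4) (nat_lit 9) (C.cons (nat_lit 1556) (C.miq (nat_lit 373452969) (nat_lit 101561685499192970984032129)) (C.cons (nat_lit 564) (C.miq (nat_lit 1383483664) (nat_lit 236970434751233787429061139)) (C.cons (nat_lit 532) (C.node (nat_lit 2) (nat_lit 9) (nat_lit 10) (C.cons (nat_lit 1572) (C.miq (nat_lit 430338640) (nat_lit 1934284908680340639610634405)) (C.cons (nat_lit 1540) (C.node (nat_lit 4) (nat_lit 7) (nat_lit 9) (C.cons (nat_lit 720) (C.miq (nat_lit 2792490129) (nat_lit 236968479557647453728932371)) (C.cons (nat_lit 688) (C.miq (nat_lit 2775712913) (nat_lit 199491779149593811874087443)) (C.cons (nat_lit 656) (C.node (nat_lit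 6) (nat_lit 7) (nat_lit 9) (C.cons (nat_lit 736) (C.miq (nat_lit 1495951120) (nat_lit 1861766736361709094283182275)) (C.cons (nat_lit 704) (C.node (nat_lit 2) (nat_lit 4) (nat_lit 7) (C.cons (nat_lit 1172) (C.node (nat_lit 2) (nat_lit 3) (nat_lit 7) (C.cons (nat_lit 396) (C.node (nat_lit 2) (nat_lit 3) (nat_lit 10) (C.cons (nat_lit 1068) (C.miq (nat_lit 1110812544) (nat_lit 1291153749626326139877787521)) (C.cons (nat_lit 1036) (C.node (nat_lit 2) (nat_lit 5) (nat_lit 9) (C.cons (nat_lit 804) (C.miq (nat_lit 2726643504) (nat_lit 971997333248064037755355289)) (C.cons (nat_lit 548) (C.node (nat_lit 2) (nat_lit 8) (nat_lit 9) (C.cons (nat_lit 772) (C.node (nat_lit 2) (nat_lit 5) (nat_lit 10) (C.cons (nat_lit 1316) (C.node (nat_lit 2) (nat_lit 5) (nat_lit 6) (C.cons (nat_lit 102) (C.miq (nat_lit 2182587744) (nat_lit 781001516036837550359512177)) (C.cons (nat_lit 100) (C.node (nat_lit 3) (nat_lit 6) (nat_lit 7) (C.cons (nat_lit 232)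 (C.miq (nat_lit 2805277704) (nat_lit 280495066395684300156109077)) (C.cons (nat_lit 200) (C.node (nat_lit 3) (nat_lit 7) (nat_lit 9) (C.cons (nat_lit 680) (C.miq (nat_lit 2805277704) (nat_lit 822093833583038170424475925)) (C.cons (nat_lit 648) (C.node (nat_lit 5) (nat_lit 7) (nat_lit 9) (C.cons (nat_lit 672) (C.node (nat_lit 4) (nat_lit 9) (nat_lit 10) (C.cons (nat_lit 1560) (C.miq (nat_lit 2202685554) (nat_lit 1885948554597621239601430693)) (C.cons (nat_lit 1552) (C.node (nat_lit 5) (nat_lit 6) (nat_lit 7) (C.cons (nat_lit 480) (C.miq (nat_lit 307628679) (nat_lit 120896179366763644030289793)) (C.cons (nat_lit 224) (C.node (nat_lit 3) (nat_lit 4) (nat_lit 9) (C.cons (nat_lit 792) (C.miq (nat_lit 2821989639) (nat_lit 957490869089263038928322725)) (C.cons (nat_lit 568) (C.miq (nat_lit 591759114) (nat_lit 686694141567775120984967041)) (C.cons (nat_lit 536) (C.node (nat_lit 4) (nat_lit 5) (nat_lit 9) (C.cons (nat_lit 816) (C.miq (nat_lit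 310970964) (nat_lit 933300528253803215864202353)) (C.cons (nat_lit 560) (C.node (nat_lit 2) (nat_lit 3) (nat_lit 4) (C.cons (nat_lit 62) (C.miq (nat_lit 2182718784) (nat_lit 781001516036837378582840433)) (C.cons (nat_lit 60) (C.node (nat_lit 1) (nat_lit 2) (nat_lit 3) C.nil) (C.cons (nat_lit 30) (C.miq (nat_lit 1379182704) (nat_lit 36288748906873453169674113)) (C.cons (nat_lit 28) (C.miq (nat_lit 1379182704) (nat_lit 33870897267644194820261761)) C.nil))))) C.nil))) C.nil)))) C.nil))) C.nil))) C.nil)) C.nil))) C.nil))) C.nil))) (C.cons (nat_lit 1060) (C.miq (nat_lit 2241998919) (nat_lit 1281468673785763065708675225)) C.nil))) C.nil)) C.nil))) C.nil))) (C.cons (nat_lit 140) (C.node (nat_lit 2) (nat_lit 7) (nat_lit 8) (C.cons (nat_lit 388) (C.node (nat_lit 2) (nat_lit 4) (nat_lit 5) (C.cons (nat_lit 62) (C.miq (nat_lit 2267220549) (nat_lit 169255093969756440162600049)) (C.cons (nat_lit 60) (C.miq (nat_lit 2267220549) (nat_lit 169255093969756440162468977))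 (C.cons (nat_lit 54) (C.miq (nat_lit 2804222228) (nat_lit 199493734725141826400289299)) (C.cons (nat_lit 52) (C.node (nat_lit 5) (nat_lit 7) (nat_lit 10) (C.cons (nat_lit 1194) (C.miq (nat_lit 925391424) (nat_lit 469068697029552167435175025)) (C.cons (nat_lit 1192) (C.miq (nat_lit 925391424) (nat_lit 469068697028989217481753713))
  (C.cons (nat_lit 1186) (C.miq (nat_lit 1469489440) (nat_lit 851104751290542843719648263)) (C.cons (nat_lit 1184) (C.node (nat_lit 1) (nat_lit 2) (nat_lit 4) (C.cons (nat_lit 30) (C.node (nat_lit 1) (nat_lit 7) (nat_lit 10) (C.cons (nat_lit 1162) (C.miq (nat_lit 2268334610) (nat_lit 184970760689865102290977799)) (C.cons (nat_lit 1154) (C.node (nat_lit 3) (nat_lit 7) (nat_lit 10) (C.cons (nat_lit 1160) (C.node (nat_lit 1) (nat_lit 4) (nat_lit 7) (C.cons (nat_lit 434) (C.miq (nat_lit 1394704535) (nat_lit 36275780558967463047726977)) (C.cons (nat_lit 402) (C.miq (nat_lit 963715204) (nat_lit 780966633039169670087835925))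 (C.cons (nat_lit 178) (C.miq (nat_lit 1651837204) (nat_lit 199493734350217157429821971)) (C.cons (nat_lit 146) (C.node (nat_lit 1) (nat_lit 4) (nat_lit 5) (C.cons (nat_lit 306) (C.node (nat_lit 1) (nat_lit 4) (nat_lit 6) (C.cons (nat_lit 82) (C.node (nat_lit 1) (nat_lit 4) (nat_lit 10) (C.cons (nat_lit 1042) (C.node (nat_lit 4) (nat_lit 5) (nat_lit 7) (C.cons (nat_lit 176) (C.node (nat_lit 1) (nat_lit 2) (nat_lit 5) (C.cons (nat_lit 102) (C.miq (nat_lit 1517379730) (nat_lit 1395102277723222885179720269)) (C.cons (nat_lit 38) (C.node (nat_lit 2) (nat_lit 5) (nat_lit 6) (C.cons (nat_lit 356) (C.miq (nat_lit 2173850630) (nat_lit 780972646598074311000261745)) (C.cons (nat_lit 100) (C.node (nat_lit 4) (nat_lit 8) (nat_lit 10) (C.cons (nat_lit 1304) (C.miq (nat_lit 874875504) (nat_lit 62869621669999012164732801)) (C.cons (nat_lit 1296) (C.node (nat_lit 2) (nat_lit 3) (nat_lit 5) (C.cons (nat_lit 44) (C.node (nat_lit 1) (nat_lit 2) (nat_lit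 6) (C.cons (nat_lit 326) (C.node (nat_lit 1) (nat_lit 5) (nat_lit 7) C.nil) C.nil)) C.nil)) C.nil))) C.nil))) C.nil))) C.nil)) C.nil)) C.nil)) (C.cons (nat_lit 50) (C.node (nat_lit 1) (nat_lit 4) (nat_lit 6) (C.cons (nat_lit 338) (C.node (nat_lit 1) (nat_lit 4) (nat_lit 10) (C.cons (nat_lit 1042) (C.node (nat_lit 3) (nat_lit 4) (nat_lit 6) (C.cons (nat_lit 88) (C.node (nat_lit 4) (nat_lit 6) (nat_lit 7) (C.cons (nat_lit 208) (C.node (nat_lit 4) (nat_lit 6) (nat_lit 9) (C.cons (nat_lit 592) (C.node (nat_lit 1) (nat_lit 2) (nat_lit 6) (C.cons (nat_lit 102) (C.miq (nat_lit 1517379730) (nat_lit 1395102277723222885179720269)) (C.cons (nat_lit 70) (C.node (nat_lit 4) (nat_lit 8) (nat_lit 10) (C.cons (nat_lit 1304) (C.miq (nat_lit 874875504) (nat_lit 62869621669999012164732801)) (C.cons (nat_lit 1296) (C.node (nat_lit 3) (nat_lit 4) (nat_lit 10) (C.cons (nat_lit 1048) (C.node (nat_lit 4) (nat_lit 9) (nat_lit 10) C.nil) C.nil)) C.nil)))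 C.nil))) C.nil)) C.nil)) C.nil)) C.nil)) (C.cons (nat_lit 82) (C.node (nat_lit 1) (nat_lit 4) (nat_lit 8) (C.cons (nat_lit 1298) (C.node (nat_lit 1) (nat_lit 6) (nat_lit 10) (C.cons (nat_lit 1098) (C.miq (nat_lit 2184265834) (nat_lit 36291718540217648595731569)) (C.cons (nat_lit 1090) (C.node (nat_lit 3) (nat_lit 4) (nat_lit 5) (C.cons (nat_lit 568) (C.miq (nat_lit 2218369312) (nat_lit 686705302101829615939814407)) (C.cons (nat_lit 56) (C.node (nat_lit 3) (nat_lit 4) (nat_lit 6) (C.cons (nat_lit 344) (C.miq (nat_lit 2199995914) (nat_lit 36291718559076472030954609)) (C.cons (nat_lit 88) (C.node (nat_lit 3) (nat_lit 4) (nat_lit 8) (C.cons (nat_lit 792) (C.node (nat_lit 3) (nat_lit 4) (nat_lit 10) (C.cons (nat_lit 1048) (C.node (nat_lit 2) (nat_lit 3) (nat_lit 5) (C.cons (nat_lit 1068) (C.miq (nat_lit 2317566217) (nat_lit 1291147385535089284471390739)) C.nil)) C.nil)) (C.cons (nat_lit 280) (C.miq (nat_lit 2554530322) (nat_lit 338510095165074588974318599))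 C.nil))) C.nil))) C.nil))) C.nil))) (C.cons (nat_lit 274) (C.node (nat_lit 1) (nat_lit 4) (nat_lit 10) (C.cons (nat_lit 1042) (C.node (nat_lit 4) (nat_lit 8) (nat_lit 10) (C.cons (nat_lit 1304) (C.miq (nat_lit 874875504) (nat_lit 62869621669999012164732801)) (C.cons (nat_lit 1296) (C.node (nat_lit 3) (nat_lit 8) (nat_lit 9) (C.cons (nat_lit 792) (C.miq (nat_lit 2216334112) (nat_lit 1259736140456737506563916365)) (C.cons (nat_lit 778) (C.miq (nat_lit 1393690775) (nat_lit 36270818384812446927161217))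
  (C.cons (nat_lit 776) (C.node (nat_lit 2) (nat_lit 3) (nat_lit 8) (C.cons (nat_lit 1292) (C.miq (nat_lit 1233326242) (nat_lit 938126989572745914208748551)) (C.cons (nat_lit 268) (C.node (nat_lit 2) (nat_lit 8) (nat_lit 10) (C.cons (nat_lit 1316) (C.miq (nat_lit 1380158064) (nat_lit 36273253641854870040938369)) (C.cons (nat_lit 1284) (C.node (nat_lit 2) (nat_lit 3) (nat_lit 5) (C.cons (nat_lit 44) (C.node (nat_lit 2) (nat_lit 3) (nat_lit 10) C.nil) C.nil)) C.nil))) C.nil))) C.nil)))) C.nil))) C.nil)) C.nil))) C.nil))) C.nil))) C.nil))))) C.nil)) C.nil))) (C.cons (nat_lit 22) (C.node (nat_lit 2) (nat_lit 3) (nat_lit 4) (C.cons (nat_lit 28) (C.node (nat_lit 1) (nat_lit 7) (nat_lit 10) (C.cons (nat_lit 1162) (C.node (nat_lit 1) (nat_lit 4) (nat_lit 10) (C.cons (nat_lit 1298) (C.node (nat_lit 1) (nat_lit 6) (nat_lit 10) (C.cons (nat_lit 1090) (C.node (nat_lit 1) (nat_lit 4) (nat_lit 7) (C.cons (nat_lit 178) (C.miq (nat_lit 1651837204)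 (nat_lit 199493734350217157429821971)) (C.cons (nat_lit 146) (C.node (nat_lit 4) (nat_lit 5) (nat_lit 7) (C.cons (nat_lit 432) (C.miq (nat_lit 340961392) (nat_lit 62883161578457086839555969)) (C.cons (nat_lit 176) (C.node (nat_lit 4) (nat_lit 6) (nat_lit 9) (C.cons (nat_lit 848) (C.miq (nat_lit 342010000) (nat_lit 101568787806127007164336001)) (C.cons (nat_lit 592) (C.node (nat_lit 5) (nat_lit 8) (nat_lit 10) (C.cons (nat_lit 1316) (C.miq (nat_lit 1380158064) (nat_lit 33855402002625611691526017)) (C.cons (nat_lit 1312) (C.node (nat_lit 2) (nat_lit 8) (nat_lit 10) (C.cons (nat_lit 1292) (C.miq (nat_lit 2443379842) (nat_lit 1404782667673927303520059669)) (C.cons (nat_lit 1284) (C.node (nat_lit 2) (nat_lit 3) (nat_lit 8) (C.cons (nat_lit 270) (C.miq (nat_lit 1779631234) (nat_lit 1404782667844501139339739413)) (C.cons (nat_lit 268) (C.node (nat_lit 2) (nat_lit 3) (nat_lit 10) (C.cons (nat_lit 1068) (C.node (nat_lit 1) (nat_lit 2) (nat_lit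 3) C.nil) C.nil)) C.nil))) C.nil))) C.nil))) C.nil))) C.nil))) C.nil))) C.nil)) (C.cons (nat_lit 1042) (C.node (nat_lit 4) (nat_lit 8) (nat_lit 10) (C.cons (nat_lit 1304) (C.miq (nat_lit 874875504) (nat_lit 62869621669999012164732801)) (C.cons (nat_lit 1296) (C.node (nat_lit 1) (nat_lit 6) (nat_lit 10) (C.cons (nat_lit 1346) (C.node (nat_lit 3) (nat_lit 6) (nat_lit 10) (C.cons (nat_lit 1096) (C.node (nat_lit 1) (nat_lit 2) (nat_lit 6) (C.cons (nat_lit 102) (C.miq (nat_lit 2166859344) (nat_lit 781001516045281799658865777)) (C.cons (nat_lit 70) (C.node (nat_lit 1) (nat_lit 4) (nat_lit 6) (C.cons (nat_lit 90) (C.miq (nat_lit 2167907904) (nat_lit 1404807238966430402266858609)) (C.cons (nat_lit 82) (C.node (nat_lit 5) (nat_lit 8) (nat_lit 10) (C.cons (nat_lit 1316) (C.miq (nat_lit 1380158064) (nat_lit 33855402002625611691526017)) (C.cons (nat_lit 1312) (C.node (nat_lit 1) (nat_lit 3) (nat_lit 6) (C.cons (nat_lit 106) (C.node (nat_lit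 1) (nat_lit 6) (nat_lit 9) (C.cons (nat_lit 578) (C.node (nat_lit 1) (nat_lit 2) (nat_lit 3) (C.cons (nat_lit 270) (C.miq (nat_lit 560235344) (nat_lit 99137027032506708924629289)) C.nil)) C.nil)) (C.cons (nat_lit 74) (C.node (nat_lit 1) (nat_lit 5) (nat_lit 6) (C.cons (nat_lit 610) (C.node (nat_lit 1) (nat_lit 5) (nat_lit 10) (C.cons (nat_lit 1058) (C.node (nat_lit 1) (nat_lit 9) (nat_lit 10) C.nil) C.nil)) (C.cons (nat_lit 98) (C.node (nat_lit 1) (nat_lit 6) (nat_lit 9) C.nil) C.nil))) C.nil))) C.nil))) C.nil))) C.nil))) C.nil)) (C.cons (nat_lit 1090) (C.node (nat_lit 1) (nat_lit 8) (nat_lit 10) (C.cons (nat_lit 1314) (C.node (nat_lit 1) (nat_lit 9) (nat_lit 10) (C.cons (nat_lit 1538) (C.node (nat_lit 1) (nat_lit 5) (nat_lit 7) (C.cons (nat_lit 178) (C.miq (nat_lit 1651837204) (nat_lit 199493734350217157429821971)) (C.cons (nat_lit 162) (C.node (nat_lit 1) (nat_lit 4) (nat_lit 5) (C.cons (nat_lit 58) (C.miq (nat_lit 2167907648)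 (nat_lit 1404807238957423065573164145)) (C.cons (nat_lit 50) (C.node (nat_lit 1) (nat_lit 2) (nat_lit 3) (C.cons (nat_lit 270) (C.miq (nat_lit 1703086610) (nat_lit 359061833877846971938374663)) (C.cons (nat_lit 46)
  (C.miq (nat_lit 1901630000) (nat_lit 1588563963350821364155613773)) (C.cons (nat_lit 14) (C.node (nat_lit 1) (nat_lit 2) (nat_lit 5) (C.cons (nat_lit 102) (C.miq (nat_lit 2166990176) (nat_lit 781001516036274600431912049)) (C.cons (nat_lit 38) (C.node (nat_lit 1) (nat_lit 2) (nat_lit 6) C.nil) C.nil))) C.nil)))) C.nil))) C.nil))) C.nil)) (C.cons (nat_lit 1282) (C.node (nat_lit 5) (nat_lit 8) (nat_lit 10) (C.cons (nat_lit 1316) (C.miq (nat_lit 1380158064) (nat_lit 33855402002625611691526017)) (C.cons (nat_lit 1312) (C.node (nat_lit 1) (nat_lit 5) (nat_lit 10) (C.cons (nat_lit 1570) (C.node (nat_lit 1) (nat_lit 3) (nat_lit 9) (C.cons (nat_lit 778) (C.node (nat_lit 1) (nat_lit 6) (nat_lit 9) (C.cons (nat_lit 578) (C.node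 (nat_lit 1) (nat_lit 2) (nat_lit 3) (C.cons (nat_lit 46) (C.node (nat_lit 2) (nat_lit 5) (nat_lit 10) (C.cons (nat_lit 1060) (C.node (nat_lit 3) (nat_lit 5) (nat_lit 10) C.nil) C.nil)) (C.cons (nat_lit 14) (C.miq (nat_lit 1393690775) (nat_lit 16928005270978380131862401)) C.nil))) C.nil)) (C.cons (nat_lit 522) (C.node (nat_lit 1) (nat_lit 5) (nat_lit 7) (C.cons (nat_lit 434) (C.miq (nat_lit 1651837204) (nat_lit 199493734350217157446599187)) (C.cons (nat_lit 418) (C.miq (nat_lit 2173916960) (nat_lit 631064756639485635785982117)) (C.cons (nat_lit 178) (C.miq (nat_lit 1651837204) (nat_lit 199493734350217157429821971)) (C.cons (nat_lit 162) (C.node (nat_lit 1) (nat_lit 4) (nat_lit 7) (C.cons (nat_lit 402) (C.node (nat_lit 4) (nat_lit 5) (nat_lit 7) C.nil) (C.cons (nat_lit 146) (C.node (nat_lit 3) (nat_lit 4) (nat_lit 10) C.nil) C.nil))) C.nil))))) C.nil))) (C.cons (nat_lit 1058) (C.node (nat_lit 1) (nat_lit 9) (nat_lit 10) (C.cons (nat_lit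 1538) (C.node (nat_lit 2) (nat_lit 5) (nat_lit 9) (C.cons (nat_lit 804) (C.node (nat_lit 2) (nat_lit 5) (nat_lit 6) (C.cons (nat_lit 100) (C.node (nat_lit 1) (nat_lit 2) (nat_lit 5) (C.cons (nat_lit 38) (C.node (nat_lit 1) (nat_lit 2) (nat_lit 3) C.nil) C.nil)) C.nil)) (C.cons (nat_lit 548) (C.node (nat_lit 2) (nat_lit 8) (nat_lit 9) (C.cons (nat_lit 772) (C.node (nat_lit 2) (nat_lit 5) (nat_lit 10) C.nil) C.nil)) C.nil))) C.nil)) C.nil))) C.nil))) C.nil))) C.nil))) C.nil))) C.nil))) (C.cons (nat_lit 1154) (C.node (nat_lit 3) (nat_lit 7) (nat_lit 10) (C.cons (nat_lit 1160) (C.node (nat_lit 2) (nat_lit 5) (nat_lit 9) (C.cons (nat_lit 804) (C.node (nat_lit 2) (nat_lit 5) (nat_lit 6) (C.cons (nat_lit 102) (C.miq (nat_lit 1517379730) (nat_lit 1395102277723222885179720269)) (C.cons (nat_lit 100) (C.node (nat_lit 1) (nat_lit 2) (nat_lit 5) (C.cons (nat_lit 46) (C.miq (nat_lit 1882298450) (nat_lit 13310101153147243161584420)) (C.cons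 (nat_lit 38) (C.node (nat_lit 3) (nat_lit 7) (nat_lit 9) (C.cons (nat_lit 680) (C.miq (nat_lit 874868873) (nat_lit 62876686448997700775184257)) (C.cons (nat_lit 648) (C.node (nat_lit 5) (nat_lit 7) (nat_lit 9) (C.cons (nat_lit 672) (C.node (nat_lit 2) (nat_lit 5) (nat_lit 10) (C.cons (nat_lit 1068) (C.node (nat_lit 2) (nat_lit 8) (nat_lit 10) C.nil) C.nil)) C.nil)) C.nil))) C.nil))) C.nil))) (C.cons (nat_lit 548) (C.node (nat_lit 2) (nat_lit 8) (nat_lit 9) (C.cons (nat_lit 772) (C.node (nat_lit 3) (nat_lit 7) (nat_lit 9) (C.cons (nat_lit 680) (C.node (nat_lit 1) (nat_lit 3) (nat_lit 9) (C.cons (nat_lit 1546) (C.miq (nat_lit 889886497) (nat_lit 1374577175759575019508138630)) (C.cons (nat_lit 778) (C.miq (nat_lit 302552915) (nat_lit 334886803781975171068920488)) (C.cons (nat_lit 522) (C.node (nat_lit 3) (nat_lit 8) (nat_lit 9) (C.cons (nat_lit 792) (C.miq (nat_lit 1380151433) (nat_lit 33862466781624300301977473)) (C.cons (nat_lit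 776) (C.node (nat_lit 1) (nat_lit 5) (nat_lit 7) (C.cons (nat_lit 434) (C.miq (nat_lit 893556608) (nat_lit 62875007943624980207830913)) (C.cons (nat_lit 418) (C.miq (nat_lit 2173916960) (nat_lit 631064756639485635785982117)) (C.cons (nat_lit 178) (C.miq (nat_lit 1651837204) (nat_lit 199493734350217157429821971)) (C.cons (nat_lit 162) (C.node (nat_lit 1) (nat_lit 3) (nat_lit 7) (C.cons (nat_lit 138)
  (C.node (nat_lit 1) (nat_lit 4) (nat_lit 7) C.nil) C.nil)) C.nil))))) C.nil))) C.nil)))) (C.cons (nat_lit 648) (C.node (nat_lit 5) (nat_lit 7) (nat_lit 9) (C.cons (nat_lit 672) (C.node (nat_lit 4) (nat_lit 6) (nat_lit 7) (C.cons (nat_lit 464) (C.node (nat_lit 4) (nat_lit 6) (nat_lit 9) (C.cons (nat_lit 592) (C.node (nat_lit 1) (nat_lit 4) (nat_lit 7) (C.cons (nat_lit 178) (C.miq (nat_lit 1651837204) (nat_lit 199493734350217157429821971)) (C.cons (nat_lit 146) (C.node (nat_lit 4) (nat_lit 5) (nat_lit 7) C.nil) C.nil))) C.nil)) (C.cons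 (nat_lit 208) (C.node (nat_lit 4) (nat_lit 6) (nat_lit 9) (C.cons (nat_lit 848) (C.node (nat_lit 1) (nat_lit 2) (nat_lit 3) C.nil) (C.cons (nat_lit 592) (C.node (nat_lit 4) (nat_lit 9) (nat_lit 10) (C.cons (nat_lit 1560) (C.node (nat_lit 1) (nat_lit 2) (nat_lit 3) C.nil) (C.cons (nat_lit 1552) (C.node (nat_lit 1) (nat_lit 2) (nat_lit 3) C.nil) C.nil))) C.nil))) C.nil))) C.nil)) C.nil))) C.nil)) C.nil))) C.nil)) C.nil))) C.nil)) C.nil))) C.nil))))) C.nil))))) C.nil)) C.nil))) (C.cons (nat_lit 148) (C.node (nat_lit 4) (nat_lit 7) (nat_lit 10) (C.cons (nat_lit 1170) (C.miq (nat_lit 308574474) (nat_lit 101571351720030455616046977)) (C.cons (nat_lit 1168) (C.node (nat_lit 2) (nat_lit 4) (nat_lit 10) (C.cons (nat_lit 1052) (C.node (nat_lit 2) (nat_lit 7) (nat_lit 10) (C.cons (nat_lit 1156) (C.node (nat_lit 4) (nat_lit 9) (nat_lit 10) (C.cons (nat_lit 1552) (C.node (nat_lit 1) (nat_lit 2) (nat_lit 4) (C.cons (nat_lit 54) (C.miq (nat_lit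 2804222228) (nat_lit 199493734725141826400289299)) (C.cons (nat_lit 22) (C.node (nat_lit 2) (nat_lit 4) (nat_lit 5) (C.cons (nat_lit 52) (C.node (nat_lit 1) (nat_lit 4) (nat_lit 10) (C.cons (nat_lit 1298) (C.node (nat_lit 1) (nat_lit 4) (nat_lit 7) (C.cons (nat_lit 178) (C.miq (nat_lit 1651837204) (nat_lit 199493734350217157429821971)) (C.cons (nat_lit 146) (C.node (nat_lit 1) (nat_lit 6) (nat_lit 10) (C.cons (nat_lit 1098) (C.miq (nat_lit 2170571314) (nat_lit 235745644938320342296626204)) (C.cons (nat_lit 1090) (C.node (nat_lit 4) (nat_lit 5) (nat_lit 7) (C.cons (nat_lit 432) (C.miq (nat_lit 340961392) (nat_lit 62883161578457086839555969)) (C.cons (nat_lit 176) (C.node (nat_lit 4) (nat_lit 6) (nat_lit 9) (C.cons (nat_lit 848) (C.miq (nat_lit 342010000) (nat_lit 101568787806127007164336001)) (C.cons (nat_lit 592) (C.node (nat_lit 3) (nat_lit 4) (nat_lit 8) (C.cons (nat_lit 792) (C.miq (nat_lit 338864272) (nat_lit 1271808981193087807761745793))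 (C.cons (nat_lit 344) (C.miq (nat_lit 408986674) (nat_lit 388084207054791956906181660)) (C.cons (nat_lit 280) (C.node (nat_lit 1) (nat_lit 4) (nat_lit 5) (C.cons (nat_lit 58) (C.node (nat_lit 5) (nat_lit 7) (nat_lit 10) (C.cons (nat_lit 1192) (C.miq (nat_lit 832001034) (nat_lit 780988068006314138048463985)) (C.cons (nat_lit 1186) (C.miq (nat_lit 605358247) (nat_lit 70120741328394797703104385)) C.nil))) (C.cons (nat_lit 50) (C.node (nat_lit 4) (nat_lit 6) (nat_lit 7) (C.cons (nat_lit 208) (C.node (nat_lit 4) (nat_lit 6) (nat_lit 8) C.nil) C.nil)) C.nil))) C.nil)))) C.nil))) C.nil))) C.nil))) C.nil))) (C.cons (nat_lit 1042) (C.node (nat_lit 4) (nat_lit 8) (nat_lit 10) (C.cons (nat_lit 1296) (C.node (nat_lit 2) (nat_lit 3) (nat_lit 5) (C.cons (nat_lit 46) (C.node (nat_lit 2) (nat_lit 3) (nat_lit 7) (C.cons (nat_lit 396) (C.miq (nat_lit 2421258290) (nat_lit 42324320823898343354532236)) (C.cons (nat_lit 140) (C.node (nat_lit 2) (nat_lit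 3) (nat_lit 8) (C.cons (nat_lit 268) (C.node (nat_lit 2) (nat_lit 7) (nat_lit 8) (C.cons (nat_lit 388) (C.node (nat_lit 2) (nat_lit 5) (nat_lit 9) (C.cons (nat_lit 804) (C.miq (nat_lit 1882298450) (nat_lit 13310101153147243161584420)) C.nil)) C.nil)) C.nil)) C.nil))) (C.cons (nat_lit 44) (C.node (nat_lit 1) (nat_lit 2) (nat_lit 3) (C.cons (nat_lit 270) (C.node (nat_lit 2) (nat_lit 3) (nat_lit 7) (C.cons (nat_lit 140) (C.node (nat_lit 2) (nat_lit 7) (nat_lit 8) (C.cons (nat_lit 388) (C.node (nat_lit 1) (nat_lit 2) (nat_lit 5) (C.cons (nat_lit 102)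
  (C.miq (nat_lit 1519542385) (nat_lit 1861747644094469746616303811)) C.nil)) C.nil)) C.nil)) (C.cons (nat_lit 14) (C.node (nat_lit 2) (nat_lit 3) (nat_lit 7) (C.cons (nat_lit 396) (C.node (nat_lit 2) (nat_lit 5) (nat_lit 10) (C.cons (nat_lit 1316) (C.miq (nat_lit 1379182704) (nat_lit 1271810936553024469719385985)) (C.cons (nat_lit 1060) (C.node (nat_lit 2) (nat_lit 8) (nat_lit 10) C.nil) C.nil))) (C.cons (nat_lit 140) (C.node (nat_lit 2) (nat_lit 3) (nat_lit 8) (C.cons (nat_lit 268) (C.node (nat_lit 2) (nat_lit 7) (nat_lit 8) (C.cons (nat_lit 388) (C.node (nat_lit 2) (nat_lit 5) (nat_lit 9) C.nil) C.nil)) C.nil)) C.nil))) C.nil))) C.nil))) C.nil)) C.nil))) C.nil)) C.nil))) C.nil)) C.nil)) (C.cons (nat_lit 1044) (C.node (nat_lit 2) (nat_lit 5) (nat_lit 9) (C.cons (nat_lit 804) (C.node (nat_lit 2) (nat_lit 5) (nat_lit 6) (C.cons (nat_lit 102) (C.miq (nat_lit 2837776150) (nat_lit 971997333458889869040681155)) (C.cons (nat_lit 100)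 (C.node (nat_lit 3) (nat_lit 7) (nat_lit 9) (C.cons (nat_lit 680) (C.miq (nat_lit 695502128) (nat_lit 793060447641613958016205097)) (C.cons (nat_lit 648) (C.node (nat_lit 5) (nat_lit 7) (nat_lit 9) (C.cons (nat_lit 672) (C.node (nat_lit 1) (nat_lit 8) (nat_lit 9) (C.cons (nat_lit 834) (C.miq (nat_lit 2231800433) (nat_lit 1374564041712697435364721286)) (C.cons (nat_lit 778) (C.miq (nat_lit 319264850) (nat_lit 184977567216698687597380388)) (C.cons (nat_lit 770) (C.node (nat_lit 3) (nat_lit 8) (nat_lit 9) (C.cons (nat_lit 792) (C.miq (nat_lit 962021408) (nat_lit 812400973355805717683306773)) (C.cons (nat_lit 776) (C.node (nat_lit 1) (nat_lit 2) (nat_lit 5) (C.cons (nat_lit 62) (C.miq (nat_lit 2804222228) (nat_lit 199493734725141826400813587)) (C.cons (nat_lit 54) (C.miq (nat_lit 2804222228) (nat_lit 199493734725141826400289299)) (C.cons (nat_lit 46) (C.miq (nat_lit 949047410) (nat_lit 930873729737098173920706725)) (C.cons (nat_lit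 38) (C.node (nat_lit 2) (nat_lit 4) (nat_lit 5) (C.cons (nat_lit 60) (C.miq (nat_lit 932528258) (nat_lit 812399257628749150097244437)) (C.cons (nat_lit 52) (C.node (nat_lit 4) (nat_lit 5) (nat_lit 7) (C.cons (nat_lit 434) (C.miq (nat_lit 844368263) (nat_lit 62866965137596209110845313)) (C.cons (nat_lit 432) (C.miq (nat_lit 844368263) (nat_lit 62866965137596209110714241)) (C.cons (nat_lit 178) (C.miq (nat_lit 1651837204) (nat_lit 199493734350217157429821971)) (C.cons (nat_lit 176) (C.node (nat_lit 1) (nat_lit 2) (nat_lit 4) (C.cons (nat_lit 30) (C.node (nat_lit 1) (nat_lit 4) (nat_lit 7) (C.cons (nat_lit 402) (C.miq (nat_lit 963715204) (nat_lit 780966633039169670087835925)) (C.cons (nat_lit 146) (C.node (nat_lit 1) (nat_lit 4) (nat_lit 10) (C.cons (nat_lit 1298) (C.miq (nat_lit 1134039562) (nat_lit 938150379903206693732942855)) (C.cons (nat_lit 1042) (C.node (nat_lit 1) (nat_lit 2) (nat_lit 6) (C.cons (nat_lit 70) (C.node (nat_lit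 1) (nat_lit 2) (nat_lit 8) C.nil) C.nil)) C.nil))) C.nil))) (C.cons (nat_lit 22) (C.node (nat_lit 2) (nat_lit 3) (nat_lit 4) (C.cons (nat_lit 28) (C.node (nat_lit 1) (nat_lit 2) (nat_lit 3) (C.cons (nat_lit 270) (C.node (nat_lit 1) (nat_lit 2) (nat_lit 6) C.nil) (C.cons (nat_lit 14) (C.node (nat_lit 1) (nat_lit 4) (nat_lit 7) C.nil) C.nil))) C.nil)) C.nil))) C.nil))))) C.nil))) C.nil))))) C.nil))) C.nil)))) C.nil)) C.nil))) C.nil))) (C.cons (nat_lit 548) (C.node (nat_lit 2) (nat_lit 8) (nat_lit 9) (C.cons (nat_lit 772) (C.node (nat_lit 2) (nat_lit 7) (nat_lit 8) (C.cons (nat_lit 396) (C.node (nat_lit 2) (nat_lit 7) (nat_lit 10) (C.cons (nat_lit 1156) (C.node (nat_lit 2) (nat_lit 8) (nat_lit 10) (C.cons (nat_lit 1316) (C.miq (nat_lit 2725533744) (nat_lit 178941995621399695785001257)) (C.cons (nat_lit 1284) (C.node (nat_lit 3) (nat_lit 6) (nat_lit 7) (C.cons (nat_lit 232) (C.miq (nat_lit 1115031605) (nat_lit 236970434670449395373703465))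 (C.cons (nat_lit 200) (C.node (nat_lit 1) (nat_lit 2) (nat_lit 3) (C.cons (nat_lit 62) (C.miq (nat_lit 2804222228) (nat_lit 199493734725141826400813587)) (C.cons (nat_lit 46)
  (C.miq (nat_lit 2421258290) (nat_lit 42324320823898343354532236)) (C.cons (nat_lit 30) (C.miq (nat_lit 831988744) (nat_lit 780973384390150165897478421)) (C.cons (nat_lit 14) (C.node (nat_lit 1) (nat_lit 2) (nat_lit 4) (C.cons (nat_lit 54) (C.miq (nat_lit 2804222228) (nat_lit 199493734725141826400289299)) (C.cons (nat_lit 22) (C.node (nat_lit 2) (nat_lit 3) (nat_lit 4) (C.cons (nat_lit 60) (C.miq (nat_lit 1518485619) (nat_lit 1552261859509873582073970841)) (C.cons (nat_lit 28) (C.node (nat_lit 2) (nat_lit 4) (nat_lit 5) (C.cons (nat_lit 52) (C.node (nat_lit 2) (nat_lit 5) (nat_lit 6) (C.cons (nat_lit 358) (C.miq (nat_lit 2837776150) (nat_lit 662512323637544800332677315)) (C.cons (nat_lit 356) (C.miq (nat_lit 1651791920) (nat_lit 178941995351183718142771497))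 (C.cons (nat_lit 102) (C.miq (nat_lit 2837776150) (nat_lit 662512323637544800315900099)) C.nil)))) C.nil)) C.nil))) C.nil))) C.nil))))) C.nil))) C.nil))) C.nil)) (C.cons (nat_lit 388) (C.node (nat_lit 2) (nat_lit 3) (nat_lit 7) (C.cons (nat_lit 1164) (C.node (nat_lit 1) (nat_lit 7) (nat_lit 10) (C.cons (nat_lit 1186) (C.miq (nat_lit 1469489440) (nat_lit 851104751290542843719648263)) (C.cons (nat_lit 1154) (C.node (nat_lit 5) (nat_lit 7) (nat_lit 10) (C.cons (nat_lit 1184) (C.node (nat_lit 1) (nat_lit 2) (nat_lit 4) (C.cons (nat_lit 62) (C.miq (nat_lit 2536770081) (nat_lit 184975446162859833109120007)) (C.cons (nat_lit 54) (C.miq (nat_lit 2804222228) (nat_lit 199493734725141826400289299)) (C.cons (nat_lit 30) (C.miq (nat_lit 2536770081) (nat_lit 184975446162859833107022855)) (C.cons (nat_lit 22) (C.node (nat_lit 2) (nat_lit 3) (nat_lit 4) (C.cons (nat_lit 60) (C.node (nat_lit 2) (nat_lit 5) (nat_lit 10) (C.cons (nat_lit 1316) (C.miq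 (nat_lit 2184684864) (nat_lit 1407225090597215282465932401)) (C.cons (nat_lit 1060) (C.node (nat_lit 2) (nat_lit 8) (nat_lit 10) C.nil) C.nil))) (C.cons (nat_lit 28) (C.node (nat_lit 2) (nat_lit 4) (nat_lit 5) (C.cons (nat_lit 52) (C.node (nat_lit 2) (nat_lit 3) (nat_lit 5) (C.cons (nat_lit 46) (C.node (nat_lit 2) (nat_lit 5) (nat_lit 10) C.nil) (C.cons (nat_lit 44) (C.node (nat_lit 2) (nat_lit 5) (nat_lit 10) (C.cons (nat_lit 1316) (C.node (nat_lit 1) (nat_lit 2) (nat_lit 3) (C.cons (nat_lit 14) (C.node (nat_lit 2) (nat_lit 3) (nat_lit 8) C.nil) C.nil)) C.nil)) C.nil))) C.nil)) C.nil))) C.nil))))) C.nil)) C.nil))) (C.cons (nat_lit 140) (C.node (nat_lit 2) (nat_lit 7) (nat_lit 10) (C.cons (nat_lit 1156) (C.node (nat_lit 3) (nat_lit 7) (nat_lit 9) (C.cons (nat_lit 680) (C.node (nat_lit 5) (nat_lit 7) (nat_lit 10) (C.cons (nat_lit 1186) (C.miq (nat_lit 1469489440) (nat_lit 851104751290542843719648263)) (C.cons (nat_lit 1184) (C.node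 (nat_lit 1) (nat_lit 3) (nat_lit 9) (C.cons (nat_lit 1546) (C.miq (nat_lit 889886497) (nat_lit 1374577175759575019508138630)) (C.cons (nat_lit 778) (C.miq (nat_lit 302552915) (nat_lit 334886803781975171068920488)) (C.cons (nat_lit 522) (C.node (nat_lit 3) (nat_lit 8) (nat_lit 9) (C.cons (nat_lit 792) (C.miq (nat_lit 1501721408) (nat_lit 933293776646672270744682649)) (C.cons (nat_lit 776) (C.node (nat_lit 1) (nat_lit 5) (nat_lit 7) (C.cons (nat_lit 434) (C.miq (nat_lit 1651837204) (nat_lit 199493734350217157446599187)) (C.cons (nat_lit 418) (C.miq (nat_lit 2173916960) (nat_lit 631064756639485635785982117)) (C.cons (nat_lit 178) (C.miq (nat_lit 1651837204) (nat_lit 199493734350217157429821971)) (C.cons (nat_lit 162) (C.node (nat_lit 4) (nat_lit 5) (nat_lit 7) (C.cons (nat_lit 432) (C.miq (nat_lit 2240956208) (nat_lit 662496459018525315840147609)) (C.cons (nat_lit 176) (C.node (nat_lit 1) (nat_lit 4) (nat_lit 7) C.nil) C.nil))) C.nil)))))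 C.nil))) C.nil)))) C.nil))) (C.cons (nat_lit 648) (C.node (nat_lit 5) (nat_lit 7) (nat_lit 9) (C.cons (nat_lit 672) (C.node (nat_lit 4) (nat_lit 6) (nat_lit 7) (C.cons (nat_lit 464) (C.node (nat_lit 4) (nat_lit 6) (nat_lit 9) (C.cons (nat_lit 592) (C.node (nat_lit 1) (nat_lit 4) (nat_lit 7) (C.cons (nat_lit 178) (C.miq (nat_lit 1651837204) (nat_lit 199493734350217157429821971))
  (C.cons (nat_lit 146) (C.node (nat_lit 4) (nat_lit 5) (nat_lit 7) (C.cons (nat_lit 176) (C.node (nat_lit 1) (nat_lit 4) (nat_lit 6) C.nil) C.nil)) C.nil))) C.nil)) (C.cons (nat_lit 208) (C.node (nat_lit 4) (nat_lit 6) (nat_lit 9) (C.cons (nat_lit 848) (C.node (nat_lit 4) (nat_lit 5) (nat_lit 7) (C.cons (nat_lit 434) (C.miq (nat_lit 642058631) (nat_lit 1374551700780397937160226689)) (C.cons (nat_lit 432) (C.miq (nat_lit 642058631) (nat_lit 1374551700780397937160095617)) (C.cons (nat_lit 178) (C.miq (nat_lit 1651837204) (nat_lit 199493734350217157429821971))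 C.nil)))) (C.cons (nat_lit 592) (C.node (nat_lit 4) (nat_lit 9) (nat_lit 10) (C.cons (nat_lit 1560) (C.node (nat_lit 2) (nat_lit 4) (nat_lit 5) (C.cons (nat_lit 62) (C.miq (nat_lit 2468848720) (nat_lit 169285051380514910474929265)) (C.cons (nat_lit 60) (C.miq (nat_lit 2468848720) (nat_lit 169285051380514901884994673)) (C.cons (nat_lit 54) (C.miq (nat_lit 2804222228) (nat_lit 199493734725141826400289299)) C.nil)))) (C.cons (nat_lit 1552) (C.node (nat_lit 2) (nat_lit 4) (nat_lit 5) (C.cons (nat_lit 62) (C.miq (nat_lit 1383743888) (nat_lit 1397539221439977356951355923)) (C.cons (nat_lit 60) (C.node (nat_lit 1) (nat_lit 2) (nat_lit 4) C.nil) (C.cons (nat_lit 54) (C.miq (nat_lit 1383743888) (nat_lit 1397539221437725557137670675)) C.nil)))) C.nil))) C.nil))) C.nil))) C.nil)) C.nil))) C.nil)) C.nil))) C.nil))) C.nil)) C.nil))) C.nil))) C.nil))) C.nil))) C.nil))) C.nil)))) C.nil))) C.nil)))) (C.cons (nat_lit 644) (C.node (nat_lit 2) (nat_lit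 4) (nat_lit 7) (C.cons (nat_lit 1172) (C.node (nat_lit 2) (nat_lit 4) (nat_lit 9) (C.cons (nat_lit 564) (C.node (nat_lit 2) (nat_lit 9) (nat_lit 10) (C.cons (nat_lit 1540) (C.ref (nat_lit 164) (nat_lit 11649936536080)) C.nil)) (C.cons (nat_lit 532) (C.node (nat_lit 2) (nat_lit 9) (nat_lit 10) (C.cons (nat_lit 1572) (C.node (nat_lit 4) (nat_lit 9) (nat_lit 10) (C.cons (nat_lit 1560) (C.miq (nat_lit 1922237860) (nat_lit 712060130151309984411419761)) (C.cons (nat_lit 1552) (C.ref (nat_lit 121) (nat_lit 10321519924240)) C.nil))) (C.cons (nat_lit 1540) (C.node (nat_lit 4) (nat_lit 9) (nat_lit 10) (C.cons (nat_lit 1560) (C.node (nat_lit 1) (nat_lit 4) (nat_lit 10) (C.cons (nat_lit 1298) (C.node (nat_lit 1) (nat_lit 4) (nat_lit 6) (C.cons (nat_lit 90) (C.miq (nat_lit 2051082550) (nat_lit 1569189311515603172547232333)) (C.cons (nat_lit 82) (C.node (nat_lit 3) (nat_lit 8) (nat_lit 9) (C.cons (nat_lit 778) (C.miq (nat_lit 910266536) (nat_lit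 99146268941082583102523265)) (C.cons (nat_lit 776) (C.node (nat_lit 5) (nat_lit 8) (nat_lit 10) (C.cons (nat_lit 1316) (C.miq (nat_lit 883427109) (nat_lit 1569191192585849265730093221)) (C.cons (nat_lit 1312) (C.node (nat_lit 2) (nat_lit 8) (nat_lit 10) (C.cons (nat_lit 1292) (C.miq (nat_lit 1228410922) (nat_lit 938150380044225657023759367)) (C.cons (nat_lit 1284) (C.node (nat_lit 3) (nat_lit 8) (nat_lit 10) (C.cons (nat_lit 1352) (C.miq (nat_lit 423116906) (nat_lit 938150380044225657027691633)) (C.cons (nat_lit 1288) (C.node (nat_lit 6) (nat_lit 8) (nat_lit 10) (C.cons (nat_lit 1344) (C.node (nat_lit 1) (nat_lit 2) (nat_lit 4) (C.cons (nat_lit 62) (C.miq (nat_lit 2033322565) (nat_lit 712060352006508876392170609)) (C.cons (nat_lit 54) (C.miq (nat_lit 1350641572) (nat_lit 313112783450820558439187604)) (C.cons (nat_lit 30) (C.miq (nat_lit 2218369312) (nat_lit 1885959715159541757248340999)) (C.cons (nat_lit 22) (C.node (nat_lit 2)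 (nat_lit 3) (nat_lit 4) (C.cons (nat_lit 60) (C.miq (nat_lit 2033322565) (nat_lit 712060352006508876392039537)) (C.cons (nat_lit 28) (C.node (nat_lit 2) (nat_lit 4) (nat_lit 5) (C.cons (nat_lit 52) (C.node (nat_lit 2) (nat_lit 7) (nat_lit 8) (C.cons (nat_lit 398) (C.miq (nat_lit 1410468487) (nat_lit 26599412064336627333203841)) (C.cons (nat_lit 396) (C.miq (nat_lit 1411582584) (nat_lit 33855401952241590876243841)) (C.cons (nat_lit 390) (C.miq (nat_lit 1410468487) (nat_lit 26599412064336627332679553)) (C.cons (nat_lit 388) (C.node (nat_lit 5) (nat_lit 7) (nat_lit 10) (C.cons (nat_lit 1194)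
  (C.miq (nat_lit 1380020362) (nat_lit 26618393490390411996432257)) (C.cons (nat_lit 1192) (C.miq (nat_lit 925391424) (nat_lit 469068697028989217481753713)) (C.cons (nat_lit 1186) (C.miq (nat_lit 1380020362) (nat_lit 26618245916437822320019329)) (C.cons (nat_lit 1184) (C.node (nat_lit 1) (nat_lit 2) (nat_lit 7) (C.cons (nat_lit 142) (C.node (nat_lit 1) (nat_lit 7) (nat_lit 10) (C.cons (nat_lit 1154) (C.node (nat_lit 2) (nat_lit 3) (nat_lit 8) (C.cons (nat_lit 268) (C.node (nat_lit 3) (nat_lit 7) (nat_lit 10) (C.cons (nat_lit 1160) (C.node (nat_lit 1) (nat_lit 6) (nat_lit 10) (C.cons (nat_lit 1098) (C.miq (nat_lit 2184265834) (nat_lit 171691410337056116162823281)) C.nil)) C.nil)) C.nil)) C.nil)) (C.cons (nat_lit 134) (C.node (nat_lit 2) (nat_lit 3) (nat_lit 7) (C.cons (nat_lit 140) (C.node (nat_lit 1) (nat_lit 3) (nat_lit 4) (C.cons (nat_lit 58) (C.node (nat_lit 1) (nat_lit 4) (nat_lit 7) (C.cons (nat_lit 146) (C.node (nat_lit 3)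 (nat_lit 4) (nat_lit 6) (C.cons (nat_lit 88) (C.node (nat_lit 3) (nat_lit 4) (nat_lit 8) C.nil) C.nil)) C.nil)) (C.cons (nat_lit 26) (C.node (nat_lit 3) (nat_lit 4) (nat_lit 5) (C.cons (nat_lit 56) (C.node (nat_lit 1) (nat_lit 4) (nat_lit 5) (C.cons (nat_lit 178) (C.node (nat_lit 3) (nat_lit 4) (nat_lit 6) C.nil) (C.cons (nat_lit 50) (C.node (nat_lit 1) (nat_lit 4) (nat_lit 7) (C.cons (nat_lit 146) (C.node (nat_lit 1) (nat_lit 6) (nat_lit 10) C.nil) C.nil)) C.nil))) C.nil)) C.nil))) C.nil)) C.nil))) C.nil))))) C.nil))))) C.nil)) C.nil))) C.nil))))) C.nil)) C.nil))) C.nil))) C.nil))) C.nil))) C.nil))) (C.cons (nat_lit 1042) (C.node (nat_lit 4) (nat_lit 8) (nat_lit 10) (C.cons (nat_lit 1296) (C.node (nat_lit 1) (nat_lit 9) (nat_lit 10) (C.cons (nat_lit 1570) (C.node (nat_lit 1) (nat_lit 7) (nat_lit 9) (C.cons (nat_lit 650) (C.miq (nat_lit 929730820) (nat_lit 1470082573755103635798295059)) (C.cons (nat_lit 642) (C.node (nat_lit 5)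 (nat_lit 7) (nat_lit 10) (C.cons (nat_lit 1192) (C.miq (nat_lit 977819424) (nat_lit 1566773341239072508114960549)) (C.cons (nat_lit 1184) (C.node (nat_lit 5) (nat_lit 8) (nat_lit 10) (C.cons (nat_lit 1316) (C.miq (nat_lit 900139044) (nat_lit 1431370992859167940750344469)) (C.cons (nat_lit 1312) (C.node (nat_lit 2) (nat_lit 4) (nat_lit 5) (C.cons (nat_lit 62) (C.miq (nat_lit 932266149) (nat_lit 776131519933798422325363825)) (C.cons (nat_lit 60) (C.miq (nat_lit 2033322565) (nat_lit 712060352006508876392039537)) (C.cons (nat_lit 54) (C.miq (nat_lit 681918609) (nat_lit 1586111671536550276814209555)) (C.cons (nat_lit 52) (C.node (nat_lit 1) (nat_lit 2) (nat_lit 9) (C.cons (nat_lit 774) (C.miq (nat_lit 306550794) (nat_lit 62893104226019262835263361)) (C.cons (nat_lit 518) (C.node (nat_lit 3) (nat_lit 4) (nat_lit 5) (C.cons (nat_lit 58) (C.miq (nat_lit 932266149) (nat_lit 776131446146822127487157361)) (C.cons (nat_lit 56) (C.node (nat_lit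 1) (nat_lit 2) (nat_lit 4) (C.cons (nat_lit 30) (C.node (nat_lit 1) (nat_lit 7) (nat_lit 10) (C.cons (nat_lit 1162) (C.miq (nat_lit 2268334610) (nat_lit 184970760689865102290977799)) (C.cons (nat_lit 1154) (C.node (nat_lit 3) (nat_lit 7) (nat_lit 10) (C.cons (nat_lit 1160) (C.node (nat_lit 2) (nat_lit 3) (nat_lit 7) (C.cons (nat_lit 396) (C.miq (nat_lit 1411582584) (nat_lit 36273253591470849225656193)) (C.cons (nat_lit 140) (C.node (nat_lit 2) (nat_lit 3) (nat_lit 8) (C.cons (nat_lit 1292) (C.miq (nat_lit 2202640912) (nat_lit 1885959715157852907384275975)) (C.cons (nat_lit 268) (C.node (nat_lit 2) (nat_lit 8) (nat_lit 10) (C.cons (nat_lit 1284) (C.node (nat_lit 2) (nat_lit 3) (nat_lit 10) (C.cons (nat_lit 1068) (C.node (nat_lit 1) (nat_lit 3) (nat_lit 10) (C.cons (nat_lit 1354) (C.miq (nat_lit 321350224) (nat_lit 169253212242264163323544689)) (C.cons (nat_lit 1290) (C.node (nat_lit 1) (nat_lit 6) (nat_lit 10) C.nil) (C.cons (nat_lit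 1098) (C.miq (nat_lit 321350224) (nat_lit 169253212170206569285616753)) C.nil)))) C.nil)) C.nil)) C.nil))) C.nil))) C.nil)) C.nil))) (C.cons (nat_lit 22) (C.node (nat_lit 2) (nat_lit 3) (nat_lit 4) (C.cons (nat_lit 28)
  (C.node (nat_lit 1) (nat_lit 3) (nat_lit 9) (C.cons (nat_lit 778) (C.node (nat_lit 1) (nat_lit 6) (nat_lit 9) (C.cons (nat_lit 578) (C.node (nat_lit 1) (nat_lit 3) (nat_lit 4) (C.cons (nat_lit 90) (C.miq (nat_lit 2033257030) (nat_lit 940547885315996001700021361)) (C.cons (nat_lit 26) (C.node (nat_lit 2) (nat_lit 7) (nat_lit 8) (C.cons (nat_lit 396) (C.miq (nat_lit 1411582584) (nat_lit 33855401952241590876243841)) (C.cons (nat_lit 390) (C.miq (nat_lit 607222424) (nat_lit 31439265870064478172350337)) (C.cons (nat_lit 388) (C.node (nat_lit 1) (nat_lit 2) (nat_lit 7) (C.cons (nat_lit 142) (C.node (nat_lit 1) (nat_lit 7) (nat_lit 10) (C.cons (nat_lit 1154) (C.node (nat_lit 3) (nat_lit 7) (nat_lit 10) (C.cons (nat_lit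 1160) (C.node (nat_lit 1) (nat_lit 3) (nat_lit 10) (C.cons (nat_lit 1034) (C.node (nat_lit 1) (nat_lit 3) (nat_lit 5) C.nil) C.nil)) C.nil)) C.nil)) (C.cons (nat_lit 134) (C.node (nat_lit 2) (nat_lit 3) (nat_lit 7) (C.cons (nat_lit 140) (C.node (nat_lit 1) (nat_lit 7) (nat_lit 10) C.nil) C.nil)) C.nil))) C.nil)))) C.nil))) C.nil)) (C.cons (nat_lit 522) (C.node (nat_lit 3) (nat_lit 8) (nat_lit 9) (C.cons (nat_lit 776) (C.node (nat_lit 1) (nat_lit 6) (nat_lit 9) (C.cons (nat_lit 834) (C.node (nat_lit 1) (nat_lit 4) (nat_lit 6) (C.cons (nat_lit 90) (C.miq (nat_lit 2033257030) (nat_lit 631062875494650932975240305)) (C.cons (nat_lit 82) (C.node (nat_lit 4) (nat_lit 8) (nat_lit 9) (C.cons (nat_lit 816) (C.miq (nat_lit 356690304) (nat_lit 62883161655019929779636097)) (C.cons (nat_lit 784) (C.node (nat_lit 1) (nat_lit 2) (nat_lit 6) (C.cons (nat_lit 102) (C.node (nat_lit 2) (nat_lit 6) (nat_lit 8) (C.cons (nat_lit 324) (C.node (nat_lit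 1) (nat_lit 6) (nat_lit 10) C.nil) C.nil)) (C.cons (nat_lit 70) (C.node (nat_lit 1) (nat_lit 6) (nat_lit 10) (C.cons (nat_lit 1098) (C.node (nat_lit 1) (nat_lit 7) (nat_lit 10) C.nil) C.nil)) C.nil))) C.nil))) C.nil))) (C.cons (nat_lit 578) (C.node (nat_lit 1) (nat_lit 8) (nat_lit 9) (C.cons (nat_lit 770) (C.node (nat_lit 1) (nat_lit 7) (nat_lit 10) (C.cons (nat_lit 1162) (C.node (nat_lit 2) (nat_lit 3) (nat_lit 7) (C.cons (nat_lit 396) (C.miq (nat_lit 1411582584) (nat_lit 33855401952241590876243841)) (C.cons (nat_lit 140) (C.node (nat_lit 1) (nat_lit 2) (nat_lit 7) (C.cons (nat_lit 390) (C.node (nat_lit 2) (nat_lit 5) (nat_lit 10) (C.cons (nat_lit 1068) (C.node (nat_lit 1) (nat_lit 2) (nat_lit 3) C.nil) C.nil)) (C.cons (nat_lit 134) (C.node (nat_lit 2) (nat_lit 7) (nat_lit 8) C.nil) C.nil))) C.nil))) (C.cons (nat_lit 1154) (C.node (nat_lit 3) (nat_lit 7) (nat_lit 10) (C.cons (nat_lit 1160) (C.node (nat_lit 1) (nat_lit 3) (nat_lit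 4) (C.cons (nat_lit 346) (C.miq (nat_lit 2033257030) (nat_lit 631062875494650932992017521)) (C.cons (nat_lit 282) (C.node (nat_lit 1) (nat_lit 4) (nat_lit 6) C.nil) (C.cons (nat_lit 90) (C.miq (nat_lit 2033257030) (nat_lit 631062875494650932975240305)) C.nil)))) C.nil)) C.nil))) C.nil)) C.nil))) C.nil)) C.nil))) C.nil)) C.nil))) C.nil))) C.nil))) C.nil))))) C.nil))) C.nil))) C.nil))) (C.cons (nat_lit 1538) (C.node (nat_lit 5) (nat_lit 9) (nat_lit 10) (C.cons (nat_lit 1568) (C.node (nat_lit 3) (nat_lit 8) (nat_lit 9) (C.cons (nat_lit 778) (C.node (nat_lit 5) (nat_lit 8) (nat_lit 10) (C.cons (nat_lit 1316) (C.miq (nat_lit 883427109) (nat_lit 1566773340946620007380680869)) (C.cons (nat_lit 1314) (C.miq (nat_lit 1780024707) (nat_lit 1859338776019601777782030633)) (C.cons (nat_lit 1312) (C.node (nat_lit 3) (nat_lit 4) (nat_lit 5) (C.cons (nat_lit 62) (C.miq (nat_lit 2033322565) (nat_lit 712060352006508876392170609)) (C.cons (nat_lit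 60) (C.miq (nat_lit 2033322565) (nat_lit 712060352006508876392039537)) (C.cons (nat_lit 58) (C.miq (nat_lit 2822048020) (nat_lit 359071942914273444397449747)) (C.cons (nat_lit 56) (C.node (nat_lit 1) (nat_lit 2) (nat_lit 9) (C.cons (nat_lit 550) (C.node (nat_lit 1) (nat_lit 6) (nat_lit 9) (C.cons (nat_lit 578) (C.node (nat_lit 1) (nat_lit 7) (nat_lit 9) (C.cons (nat_lit 642) (C.node (nat_lit 2) (nat_lit 4) (nat_lit 5) (C.cons (nat_lit 52)
  (C.node (nat_lit 2) (nat_lit 8) (nat_lit 9) (C.cons (nat_lit 772) (C.node (nat_lit 1) (nat_lit 4) (nat_lit 5) (C.cons (nat_lit 434) (C.miq (nat_lit 827496560) (nat_lit 664920066139294856921810817)) (C.cons (nat_lit 306) (C.miq (nat_lit 1669662996) (nat_lit 359071942539348775435108883)) (C.cons (nat_lit 178) (C.miq (nat_lit 844564756) (nat_lit 199475582754048214914171411)) (C.cons (nat_lit 50) (C.node (nat_lit 1) (nat_lit 2) (nat_lit 4) (C.cons (nat_lit 30) (C.node (nat_lit 1) (nat_lit 2) (nat_lit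 6) (C.cons (nat_lit 326) (C.miq (nat_lit 1914217529) (nat_lit 394145253719623508607763992)) (C.cons (nat_lit 70) (C.node (nat_lit 1) (nat_lit 2) (nat_lit 7) (C.cons (nat_lit 390) (C.node (nat_lit 1) (nat_lit 4) (nat_lit 7) C.nil) (C.cons (nat_lit 134) (C.miq (nat_lit 2267126339) (nat_lit 162010411935968119406593560)) C.nil))) C.nil))) (C.cons (nat_lit 22) (C.node (nat_lit 2) (nat_lit 3) (nat_lit 4) (C.cons (nat_lit 28) (C.node (nat_lit 1) (nat_lit 3) (nat_lit 4) (C.cons (nat_lit 90) (C.miq (nat_lit 2033257030) (nat_lit 940547885315996001700021361)) (C.cons (nat_lit 26) (C.node (nat_lit 1) (nat_lit 5) (nat_lit 10) (C.cons (nat_lit 1194) (C.miq (nat_lit 977819424) (nat_lit 1566773341239635458068381861)) (C.cons (nat_lit 1058) (C.node (nat_lit 1) (nat_lit 2) (nat_lit 3) (C.cons (nat_lit 142) (C.node (nat_lit 1) (nat_lit 7) (nat_lit 10) C.nil) C.nil)) C.nil))) C.nil))) C.nil)) C.nil))) C.nil))))) C.nil)) C.nil)) C.nil)) C.nil)) (C.cons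 (nat_lit 518) (C.node (nat_lit 1) (nat_lit 6) (nat_lit 9) (C.cons (nat_lit 610) (C.node (nat_lit 1) (nat_lit 7) (nat_lit 9) (C.cons (nat_lit 642) (C.node (nat_lit 3) (nat_lit 5) (nat_lit 6) (C.cons (nat_lit 232) (C.miq (nat_lit 2486505590) (nat_lit 67711098561768066388590787)) (C.cons (nat_lit 104) (C.node (nat_lit 1) (nat_lit 2) (nat_lit 6) (C.cons (nat_lit 326) (C.node (nat_lit 1) (nat_lit 8) (nat_lit 10) (C.cons (nat_lit 1282) (C.node (nat_lit 2) (nat_lit 5) (nat_lit 6) (C.cons (nat_lit 100) (C.node (nat_lit 1) (nat_lit 4) (nat_lit 6) (C.cons (nat_lit 90) (C.miq (nat_lit 2033257030) (nat_lit 940547885315996001700021361)) (C.cons (nat_lit 82) (C.node (nat_lit 1) (nat_lit 3) (nat_lit 4) (C.cons (nat_lit 30) (C.miq (nat_lit 1914217529) (nat_lit 394145253719623508607763992)) (C.cons (nat_lit 26) (C.node (nat_lit 2) (nat_lit 3) (nat_lit 4) (C.cons (nat_lit 28) (C.node (nat_lit 2) (nat_lit 7) (nat_lit 8) (C.cons (nat_lit 396) (C.miq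 (nat_lit 1411582584) (nat_lit 33855401952241590876243841)) (C.cons (nat_lit 388) (C.node (nat_lit 6) (nat_lit 7) (nat_lit 9) (C.cons (nat_lit 720) (C.node (nat_lit 6) (nat_lit 8) (nat_lit 9) C.nil) C.nil)) C.nil))) C.nil)) C.nil))) C.nil))) C.nil)) C.nil)) (C.cons (nat_lit 70) (C.node (nat_lit 1) (nat_lit 8) (nat_lit 10) (C.cons (nat_lit 1346) (C.node (nat_lit 3) (nat_lit 6) (nat_lit 10) (C.cons (nat_lit 1096) (C.node (nat_lit 1) (nat_lit 3) (nat_lit 6) (C.cons (nat_lit 90) (C.miq (nat_lit 2014513764) (nat_lit 940547110552743986775852145)) (C.cons (nat_lit 74) (C.node (nat_lit 1) (nat_lit 4) (nat_lit 6) (C.cons (nat_lit 82) (C.node (nat_lit 5) (nat_lit 6) (nat_lit 7) (C.cons (nat_lit 480) (C.miq (nat_lit 560269959) (nat_lit 737447793967902440692909953)) (C.cons (nat_lit 224) (C.node (nat_lit 6) (nat_lit 7) (nat_lit 9) (C.cons (nat_lit 720) (C.node (nat_lit 6) (nat_lit 8) (nat_lit 9) C.nil) C.nil)) C.nil))) C.nil)) C.nil))) C.nil))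 (C.cons (nat_lit 1282) (C.node (nat_lit 6) (nat_lit 8) (nat_lit 10) (C.cons (nat_lit 1352) (C.miq (nat_lit 413438816) (nat_lit 1566777657660655888942301773)) (C.cons (nat_lit 1344) (C.node (nat_lit 1) (nat_lit 6) (nat_lit 8) (C.cons (nat_lit 338) (C.node (nat_lit 3) (nat_lit 4) (nat_lit 6) (C.cons (nat_lit 88) (C.node (nat_lit 3) (nat_lit 4) (nat_lit 8) (C.cons (nat_lit 280) (C.node (nat_lit 6) (nat_lit 8) (nat_lit 9) (C.cons (nat_lit 832) (C.node (nat_lit 1) (nat_lit 6) (nat_lit 10) C.nil) C.nil)) C.nil)) C.nil)) (C.cons (nat_lit 322) (C.node (nat_lit 1) (nat_lit 4) (nat_lit 6) (C.cons (nat_lit 90)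
  (C.miq (nat_lit 2033257030) (nat_lit 940547885315996001700021361)) (C.cons (nat_lit 82) (C.node (nat_lit 1) (nat_lit 3) (nat_lit 4) (C.cons (nat_lit 30) (C.node (nat_lit 2) (nat_lit 4) (nat_lit 5) (C.cons (nat_lit 52) (C.node (nat_lit 1) (nat_lit 3) (nat_lit 6) C.nil) C.nil)) (C.cons (nat_lit 26) (C.node (nat_lit 1) (nat_lit 6) (nat_lit 10) C.nil) C.nil))) C.nil))) C.nil))) C.nil))) C.nil))) C.nil))) C.nil))) C.nil)) (C.cons (nat_lit 578) (C.node (nat_lit 1) (nat_lit 5) (nat_lit 9) (C.cons (nat_lit 674) (C.node (nat_lit 3) (nat_lit 5) (nat_lit 9) (C.cons (nat_lit 552) (C.node (nat_lit 3) (nat_lit 7) (nat_lit 9) (C.cons (nat_lit 648) (C.node (nat_lit 2) (nat_lit 4) (nat_lit 5) (C.cons (nat_lit 54) (C.miq (nat_lit 2270300436) (nat_lit 199477870525238556444983827)) (C.cons (nat_lit 52) (C.node (nat_lit 1) (nat_lit 4) (nat_lit 5) (C.cons (nat_lit 306) (C.miq (nat_lit 1669662996) (nat_lit 359071942539348775435108883)) (C.cons (nat_lit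 50) (C.node (nat_lit 5) (nat_lit 7) (nat_lit 10) (C.cons (nat_lit 1192) (C.miq (nat_lit 977819424) (nat_lit 1566773341239072508114960549)) (C.cons (nat_lit 1184) (C.node (nat_lit 1) (nat_lit 2) (nat_lit 4) (C.cons (nat_lit 30) (C.node (nat_lit 1) (nat_lit 2) (nat_lit 7) (C.cons (nat_lit 390) (C.node (nat_lit 1) (nat_lit 4) (nat_lit 7) (C.cons (nat_lit 146) (C.node (nat_lit 2) (nat_lit 3) (nat_lit 7) (C.cons (nat_lit 140) (C.node (nat_lit 2) (nat_lit 5) (nat_lit 9) C.nil) C.nil)) C.nil)) (C.cons (nat_lit 134) (C.miq (nat_lit 2267126339) (nat_lit 162010411935968119406593560)) C.nil))) (C.cons (nat_lit 22) (C.node (nat_lit 2) (nat_lit 3) (nat_lit 4) (C.cons (nat_lit 28) (C.node (nat_lit 1) (nat_lit 3) (nat_lit 4) (C.cons (nat_lit 90) (C.miq (nat_lit 2033257030) (nat_lit 940547885315996001700021361)) (C.cons (nat_lit 26) (C.node (nat_lit 1) (nat_lit 5) (nat_lit 10) (C.cons (nat_lit 1058) (C.node (nat_lit 1) (nat_lit 7) (nat_lit 10)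 C.nil) C.nil)) C.nil))) C.nil)) C.nil))) C.nil))) C.nil))) C.nil))) C.nil)) C.nil)) (C.cons (nat_lit 546) (C.node (nat_lit 1) (nat_lit 7) (nat_lit 9) (C.cons (nat_lit 642) (C.node (nat_lit 1) (nat_lit 8) (nat_lit 10) (C.cons (nat_lit 1346) (C.node (nat_lit 3) (nat_lit 6) (nat_lit 10) (C.cons (nat_lit 1096) (C.node (nat_lit 1) (nat_lit 4) (nat_lit 6) (C.cons (nat_lit 90) (C.miq (nat_lit 2014513764) (nat_lit 940547110552743986775852145)) (C.cons (nat_lit 82) (C.node (nat_lit 1) (nat_lit 3) (nat_lit 6) (C.cons (nat_lit 106) (C.miq (nat_lit 1518428307) (nat_lit 1627216108876207981570163277)) (C.cons (nat_lit 74) (C.node (nat_lit 2) (nat_lit 7) (nat_lit 8) (C.cons (nat_lit 396) (C.miq (nat_lit 592738314) (nat_lit 67721465593938987835262849)) (C.cons (nat_lit 390) (C.miq (nat_lit 681931104) (nat_lit 1586113719156946661308170435)) (C.cons (nat_lit 388) (C.node (nat_lit 1) (nat_lit 2) (nat_lit 6) (C.cons (nat_lit 102) (C.miq (nat_lit 309880074)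 (nat_lit 469088047356710489262457969)) (C.cons (nat_lit 70) (C.node (nat_lit 1) (nat_lit 5) (nat_lit 6) C.nil) C.nil))) C.nil)))) C.nil))) C.nil))) C.nil)) (C.cons (nat_lit 1282) (C.node (nat_lit 6) (nat_lit 8) (nat_lit 10) (C.cons (nat_lit 1352) (C.miq (nat_lit 413438816) (nat_lit 1566777657660655888942301773)) (C.cons (nat_lit 1344) (C.node (nat_lit 1) (nat_lit 6) (nat_lit 10) (C.cons (nat_lit 1098) (C.node (nat_lit 1) (nat_lit 5) (nat_lit 10) (C.cons (nat_lit 1186) (C.node (nat_lit 3) (nat_lit 7) (nat_lit 10) C.nil) C.nil)) (C.cons (nat_lit 1090) (C.node (nat_lit 3) (nat_lit 6) (nat_lit 10) (C.cons (nat_lit 1096) (C.node (nat_lit 2) (nat_lit 5) (nat_lit 10) C.nil) C.nil)) C.nil))) C.nil))) C.nil))) C.nil)) C.nil))) C.nil))) C.nil))) C.nil))))) C.nil)))) (C.cons (nat_lit 776) (C.ref (nat_lit 110) (nat_lit 10321519924240)) C.nil))) C.nil)) C.nil))) C.nil)) C.nil))) (C.cons (nat_lit 1552) (C.ref (nat_lit 129) (nat_lit 10321519924240))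 C.nil))) C.nil))) C.nil))) (C.cons (nat_lit 150) (C.node (nat_lit 4) (nat_lit 7) (nat_lit 10) (C.cons (nat_lit 1168) (C.node (nat_lit 2) (nat_lit 7) (nat_lit 8) (C.cons (nat_lit 396)
  (C.node (nat_lit 2) (nat_lit 7) (nat_lit 10) (C.cons (nat_lit 1156) (C.node (nat_lit 2) (nat_lit 8) (nat_lit 10) (C.cons (nat_lit 1316) (C.miq (nat_lit 2725533744) (nat_lit 181359847260628954134413609)) (C.cons (nat_lit 1284) (C.node (nat_lit 3) (nat_lit 6) (nat_lit 7) (C.cons (nat_lit 232) (C.miq (nat_lit 1115031605) (nat_lit 236970434670449395373703465)) (C.cons (nat_lit 200) (C.node (nat_lit 1) (nat_lit 2) (nat_lit 3) (C.cons (nat_lit 46) (C.node (nat_lit 3) (nat_lit 5) (nat_lit 6) (C.cons (nat_lit 104) (C.node (nat_lit 1) (nat_lit 2) (nat_lit 9) (C.cons (nat_lit 774) (C.miq (nat_lit 1092815239) (nat_lit 55613410203582756561880961)) (C.cons (nat_lit 518) (C.node (nat_lit 1) (nat_lit 7) (nat_lit 8) (C.cons (nat_lit 418) (C.miq (nat_lit 1898546480)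 (nat_lit 626259010873400246418604329)) (C.cons (nat_lit 386) (C.ref (nat_lit 165) (nat_lit 11649936536080)) C.nil))) C.nil))) C.nil)) (C.cons (nat_lit 14) (C.node (nat_lit 1) (nat_lit 7) (nat_lit 8) (C.cons (nat_lit 418) (C.node (nat_lit 5) (nat_lit 8) (nat_lit 10) (C.cons (nat_lit 1312) (C.node (nat_lit 1) (nat_lit 7) (nat_lit 9) (C.cons (nat_lit 650) (C.miq (nat_lit 1093798264) (nat_lit 16930071372179230379739009)) (C.cons (nat_lit 642) (C.ref (nat_lit 165) (nat_lit 7229140141840)) C.nil))) C.nil)) (C.cons (nat_lit 386) (C.node (nat_lit 3) (nat_lit 5) (nat_lit 6) (C.cons (nat_lit 106) (C.node (nat_lit 1) (nat_lit 4) (nat_lit 5) (C.cons (nat_lit 306) (C.miq (nat_lit 2184265829) (nat_lit 16930606256262461860217969)) (C.cons (nat_lit 50) (C.node (nat_lit 2) (nat_lit 5) (nat_lit 6) (C.cons (nat_lit 356) (C.miq (nat_lit 1651791920) (nat_lit 181359846990412976492183849)) (C.cons (nat_lit 100) (C.node (nat_lit 3) (nat_lit 4) (nat_lit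 6) (C.cons (nat_lit 344) (C.miq (nat_lit 1446446210) (nat_lit 241788207955736523031970069)) (C.cons (nat_lit 88) (C.node (nat_lit 3) (nat_lit 6) (nat_lit 8) (C.cons (nat_lit 1352) (C.miq (nat_lit 1446120071) (nat_lit 712060351785831601319708545)) (C.cons (nat_lit 328) (C.node (nat_lit 3) (nat_lit 6) (nat_lit 10) (C.cons (nat_lit 1096) (C.node (nat_lit 5) (nat_lit 8) (nat_lit 10) (C.cons (nat_lit 1314) (C.miq (nat_lit 379212552) (nat_lit 1934305550434958411273666857)) (C.cons (nat_lit 1312) (C.node (nat_lit 1) (nat_lit 2) (nat_lit 6) (C.cons (nat_lit 326) (C.node (nat_lit 1) (nat_lit 4) (nat_lit 6) (C.cons (nat_lit 82) (C.node (nat_lit 1) (nat_lit 6) (nat_lit 9) (C.cons (nat_lit 578) (C.node (nat_lit 1) (nat_lit 6) (nat_lit 10) (C.cons (nat_lit 1090) (C.node (nat_lit 6) (nat_lit 8) (nat_lit 10) (C.cons (nat_lit 1344) (C.node (nat_lit 1) (nat_lit 2) (nat_lit 5) C.nil) C.nil)) C.nil)) C.nil)) C.nil)) (C.cons (nat_lit 70) (C.node (nat_lit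 2) (nat_lit 6) (nat_lit 8) (C.cons (nat_lit 324) (C.node (nat_lit 1) (nat_lit 2) (nat_lit 8) (C.cons (nat_lit 806) (C.miq (nat_lit 1092815239) (nat_lit 16927783975914760410236801)) (C.cons (nat_lit 774) (C.miq (nat_lit 1092815239) (nat_lit 16927783975914622971283329)) (C.cons (nat_lit 294) (C.miq (nat_lit 1934704770) (nat_lit 128148903933828696012882197)) (C.cons (nat_lit 262) (C.node (nat_lit 1) (nat_lit 2) (nat_lit 5) (C.cons (nat_lit 550) (C.node (nat_lit 1) (nat_lit 5) (nat_lit 8) (C.cons (nat_lit 290) (C.node (nat_lit 2) (nat_lit 5) (nat_lit 8) C.nil) C.nil)) (C.cons (nat_lit 38) (C.node (nat_lit 1) (nat_lit 2) (nat_lit 9) C.nil) C.nil))) C.nil))))) C.nil)) C.nil))) C.nil))) C.nil)) C.nil))) C.nil))) C.nil))) C.nil))) (C.cons (nat_lit 104) (C.node (nat_lit 5) (nat_lit 8) (nat_lit 10) (C.cons (nat_lit 1314) (C.node (nat_lit 1) (nat_lit 4) (nat_lit 5) (C.cons (nat_lit 58) (C.miq (nat_lit 931217573) (nat_lit 466646436325477058745599089))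 (C.cons (nat_lit 50) (C.node (nat_lit 4) (nat_lit 8) (nat_lit 10) (C.cons (nat_lit 1304) (C.miq (nat_lit 681931584) (nat_lit 1588531570797864589129220249)) (C.cons (nat_lit 1296) (C.node (nat_lit 3) (nat_lit 8) (nat_lit 10) (C.cons (nat_lit 1352) (C.miq (nat_lit 1446120071) (nat_lit 712060351785831601319708545)) (C.cons (nat_lit 1288) (C.node (nat_lit 6) (nat_lit 8) (nat_lit 10)
  (C.cons (nat_lit 1344) (C.node (nat_lit 5) (nat_lit 7) (nat_lit 10) (C.cons (nat_lit 1192) (C.miq (nat_lit 1245185394) (nat_lit 1557101565731792962714337445)) (C.cons (nat_lit 1184) (C.node (nat_lit 1) (nat_lit 7) (nat_lit 10) (C.cons (nat_lit 1162) (C.node (nat_lit 1) (nat_lit 4) (nat_lit 10) (C.cons (nat_lit 1042) (C.node (nat_lit 1) (nat_lit 10) (nat_lit 9) (C.cons (nat_lit 1538) (C.node (nat_lit 1) (nat_lit 10) (nat_lit 6) (C.cons (nat_lit 1090) (C.node (nat_lit 10) (nat_lit 3) (nat_lit 6) (C.cons (nat_lit 1096) (C.node (nat_lit 1) (nat_lit 7) (nat_lit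 5) C.nil) C.nil)) C.nil)) C.nil)) C.nil)) (C.cons (nat_lit 1154) (C.node (nat_lit 7) (nat_lit 10) (nat_lit 3) (C.cons (nat_lit 1160) (C.node (nat_lit 1) (nat_lit 7) (nat_lit 3) (C.cons (nat_lit 682) (C.miq (nat_lit 1098385714) (nat_lit 466650476268821420809388621)) (C.cons (nat_lit 650) (C.miq (nat_lit 1098385714) (nat_lit 466650476268821283370435149)) (C.cons (nat_lit 170) (C.miq (nat_lit 676413495) (nat_lit 1588531294063203636161937561)) (C.cons (nat_lit 138) (C.node (nat_lit 1) (nat_lit 7) (nat_lit 5) (C.cons (nat_lit 674) (C.node (nat_lit 1) (nat_lit 5) (nat_lit 3) (C.cons (nat_lit 42) (C.node (nat_lit 7) (nat_lit 5) (nat_lit 3) C.nil) C.nil)) (C.cons (nat_lit 162) (C.node (nat_lit 1) (nat_lit 7) (nat_lit 9) C.nil) C.nil))) C.nil))))) C.nil)) C.nil))) C.nil))) C.nil)) C.nil))) C.nil))) C.nil))) (C.cons (nat_lit 1312) (C.node (nat_lit 2) (nat_lit 3) (nat_lit 4) (C.cons (nat_lit 1052) (C.node (nat_lit 2) (nat_lit 3) (nat_lit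 5) (C.cons (nat_lit 44) (C.node (nat_lit 4) (nat_lit 9) (nat_lit 10) (C.cons (nat_lit 1552) (C.node (nat_lit 1) (nat_lit 4) (nat_lit 10) (C.cons (nat_lit 1298) (C.node (nat_lit 1) (nat_lit 6) (nat_lit 10) (C.cons (nat_lit 1098) (C.miq (nat_lit 2184265834) (nat_lit 16948905426383581800432753)) (C.cons (nat_lit 1090) (C.node (nat_lit 3) (nat_lit 6) (nat_lit 10) (C.cons (nat_lit 1352) (C.miq (nat_lit 1663412336) (nat_lit 53213710391611360777930625)) (C.cons (nat_lit 1096) (C.node (nat_lit 3) (nat_lit 8) (nat_lit 10) (C.cons (nat_lit 1288) (C.node (nat_lit 6) (nat_lit 8) (nat_lit 10) (C.cons (nat_lit 1344) (C.node (nat_lit 3) (nat_lit 4) (nat_lit 8) (C.cons (nat_lit 792) (C.miq (nat_lit 338864272) (nat_lit 1271808981193087807761745793)) (C.cons (nat_lit 344) (C.miq (nat_lit 405972064) (nat_lit 478753643525889145009144945)) (C.cons (nat_lit 280) (C.node (nat_lit 3) (nat_lit 8) (nat_lit 9) (C.cons (nat_lit 778) (C.miq (nat_lit 950440256)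 (nat_lit 1624807166913314132553957907)) (C.cons (nat_lit 776) (C.node (nat_lit 1) (nat_lit 4) (nat_lit 6) (C.cons (nat_lit 90) (C.miq (nat_lit 328746506) (nat_lit 938150379920095192335582321)) (C.cons (nat_lit 82) (C.node (nat_lit 3) (nat_lit 4) (nat_lit 6) (C.cons (nat_lit 88) (C.node (nat_lit 1) (nat_lit 3) (nat_lit 6) C.nil) C.nil)) C.nil))) C.nil))) C.nil)))) C.nil)) C.nil)) C.nil))) C.nil))) (C.cons (nat_lit 1042) (C.node (nat_lit 4) (nat_lit 8) (nat_lit 10) (C.cons (nat_lit 1296) (C.node (nat_lit 2) (nat_lit 4) (nat_lit 5) (C.cons (nat_lit 564) (C.node (nat_lit 2) (nat_lit 5) (nat_lit 10) (C.cons (nat_lit 1060) (C.node (nat_lit 2) (nat_lit 9) (nat_lit 10) (C.cons (nat_lit 1540) (C.node (nat_lit 1) (nat_lit 2) (nat_lit 9) (C.cons (nat_lit 518) (C.node (nat_lit 2) (nat_lit 8) (nat_lit 9) (C.cons (nat_lit 772) (C.node (nat_lit 1) (nat_lit 2) (nat_lit 5) (C.cons (nat_lit 358) (C.miq (nat_lit 1651791920) (nat_lit 181359846990975926445605161))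 C.nil)) C.nil)) C.nil)) C.nil)) C.nil)) (C.cons (nat_lit 52) (C.node (nat_lit 2) (nat_lit 4) (nat_lit 9) (C.cons (nat_lit 532) (C.node (nat_lit 2) (nat_lit 5) (nat_lit 10) (C.cons (nat_lit 1572) (C.node (nat_lit 1) (nat_lit 2) (nat_lit 9) (C.cons (nat_lit 774) (C.miq (nat_lit 305436784) (nat_lit 1271799757673556364353931137)) (C.cons (nat_lit 518) (C.node (nat_lit 2) (nat_lit 8) (nat_lit 9) (C.cons (nat_lit 772) (C.node (nat_lit 1) (nat_lit 2) (nat_lit 5) (C.cons (nat_lit 358) (C.miq (nat_lit 2451023200) (nat_lit 181374309580040173254804593)) (C.cons (nat_lit 294)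
  (C.miq (nat_lit 1346470770) (nat_lit 641945033641724487600046476)) (C.cons (nat_lit 102) (C.miq (nat_lit 2451023200) (nat_lit 181374309580039073743176817)) C.nil)))) C.nil)) C.nil))) (C.cons (nat_lit 1060) (C.node (nat_lit 2) (nat_lit 9) (nat_lit 10) (C.cons (nat_lit 1540) (C.node (nat_lit 2) (nat_lit 8) (nat_lit 9) (C.cons (nat_lit 806) (C.miq (nat_lit 305436784) (nat_lit 1271799757682563563608672129)) (C.cons (nat_lit 804) (C.node (nat_lit 1) (nat_lit 2) (nat_lit 9) C.nil) (C.cons (nat_lit 774) (C.miq (nat_lit 305436784) (nat_lit 1271799757673556364353931137)) C.nil)))) C.nil)) C.nil))) C.nil)) C.nil))) C.nil)) C.nil))) C.nil)) C.nil)) (C.cons (nat_lit 60) (C.miq (nat_lit 1518485619) (nat_lit 1552261859509873582073970841)) (C.cons (nat_lit 28) (C.node (nat_lit 2) (nat_lit 3) (nat_lit 5) (C.cons (nat_lit 1068) (C.node (nat_lit 5) (nat_lit 7) (nat_lit 10) (C.cons (nat_lit 1186) (C.miq (nat_lit 1983189034) (nat_lit 125750163133283003961967623))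 (C.cons (nat_lit 1184) (C.node (nat_lit 3) (nat_lit 6) (nat_lit 10) (C.cons (nat_lit 1354) (C.miq (nat_lit 1663412336) (nat_lit 1291153749677554585630476161)) (C.cons (nat_lit 1352) (C.miq (nat_lit 1663412336) (nat_lit 1291153749676991635677054849)) (C.cons (nat_lit 1098) (C.miq (nat_lit 321350224) (nat_lit 478738221991551638010397809)) (C.cons (nat_lit 1096) (C.node (nat_lit 1) (nat_lit 5) (nat_lit 10) (C.cons (nat_lit 1570) (C.node (nat_lit 1) (nat_lit 2) (nat_lit 9) (C.cons (nat_lit 774) (C.miq (nat_lit 305436784) (nat_lit 33859718388176089454806913)) (C.cons (nat_lit 518) (C.node (nat_lit 1) (nat_lit 5) (nat_lit 7) (C.cons (nat_lit 170) (C.miq (nat_lit 1079060535) (nat_lit 42315170776092921712738700)) (C.cons (nat_lit 162) (C.node (nat_lit 1) (nat_lit 3) (nat_lit 5) (C.cons (nat_lit 58) (C.miq (nat_lit 2052262164) (nat_lit 1291135598240987409511219731)) (C.cons (nat_lit 42) (C.node (nat_lit 1) (nat_lit 7) (nat_lit 9) (C.cons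 (nat_lit 650) (C.miq (nat_lit 1158875799) (nat_lit 50777707095701494560327553)) (C.cons (nat_lit 642) (C.node (nat_lit 3) (nat_lit 4) (nat_lit 5) (C.cons (nat_lit 568) (C.miq (nat_lit 305728084) (nat_lit 712067103264325011724829809)) (C.cons (nat_lit 56) (C.node (nat_lit 1) (nat_lit 3) (nat_lit 7) (C.cons (nat_lit 1162) (C.node (nat_lit 1) (nat_lit 4) (nat_lit 10) (C.cons (nat_lit 1042) (C.node (nat_lit 1) (nat_lit 6) (nat_lit 10) C.nil) C.nil)) (C.cons (nat_lit 138) (C.node (nat_lit 1) (nat_lit 7) (nat_lit 10) C.nil) C.nil))) C.nil))) C.nil))) C.nil))) C.nil))) C.nil))) (C.cons (nat_lit 1058) (C.node (nat_lit 5) (nat_lit 9) (nat_lit 10) (C.cons (nat_lit 1568) (C.node (nat_lit 1) (nat_lit 6) (nat_lit 10) (C.cons (nat_lit 1346) (C.node (nat_lit 1) (nat_lit 2) (nat_lit 6) (C.cons (nat_lit 102) (C.miq (nat_lit 2166859344) (nat_lit 181374309516425729004602481)) (C.cons (nat_lit 70) (C.node (nat_lit 1) (nat_lit 3) (nat_lit 6) (C.cons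 (nat_lit 90) (C.miq (nat_lit 931217574) (nat_lit 466647026621287417453347953)) (C.cons (nat_lit 74) (C.node (nat_lit 1) (nat_lit 4) (nat_lit 6) (C.cons (nat_lit 82) (C.node (nat_lit 2) (nat_lit 5) (nat_lit 6) (C.cons (nat_lit 356) (C.miq (nat_lit 1651791920) (nat_lit 181359846990412976492183849)) (C.cons (nat_lit 100) (C.node (nat_lit 1) (nat_lit 4) (nat_lit 10) C.nil) C.nil))) C.nil)) C.nil))) C.nil))) (C.cons (nat_lit 1090) (C.node (nat_lit 6) (nat_lit 8) (nat_lit 10) (C.cons (nat_lit 1344) (C.node (nat_lit 1) (nat_lit 7) (nat_lit 10) (C.cons (nat_lit 1162) (C.node (nat_lit 1) (nat_lit 9) (nat_lit 10) (C.cons (nat_lit 1538) (C.node (nat_lit 3) (nat_lit 8) (nat_lit 10) (C.cons (nat_lit 1304) (C.miq (nat_lit 1126541424) (nat_lit 1291153749663480836794943361)) C.nil)) C.nil)) (C.cons (nat_lit 1154) (C.node (nat_lit 3) (nat_lit 7) (nat_lit 10) C.nil) C.nil))) C.nil)) C.nil))) C.nil)) C.nil))) C.nil))))) C.nil))) (C.cons (nat_lit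 44) (C.node (nat_lit 2) (nat_lit 3) (nat_lit 10) (C.cons (nat_lit 1036) (C.node (nat_lit 2) (nat_lit 4) (nat_lit 5) (C.cons (nat_lit 564) (C.node (nat_lit 2) (nat_lit 4) (nat_lit 10) (C.cons (nat_lit 1044)
  (C.node (nat_lit 2) (nat_lit 5) (nat_lit 10) (C.cons (nat_lit 1060) (C.node (nat_lit 2) (nat_lit 9) (nat_lit 10) C.nil) C.nil)) C.nil)) (C.cons (nat_lit 52) (C.node (nat_lit 2) (nat_lit 4) (nat_lit 9) (C.cons (nat_lit 1556) (C.node (nat_lit 2) (nat_lit 5) (nat_lit 10) (C.cons (nat_lit 1060) (C.node (nat_lit 7) (nat_lit 8) (nat_lit 4) (C.cons (nat_lit 464) (C.node (nat_lit 7) (nat_lit 8) (nat_lit 5) (C.cons (nat_lit 416) (C.node (nat_lit 9) (nat_lit 4) (nat_lit 6) (C.cons (nat_lit 592) (C.node (nat_lit 1) (nat_lit 4) (nat_lit 6) (C.cons (nat_lit 90) (C.node (nat_lit 2) (nat_lit 5) (nat_lit 6) (C.cons (nat_lit 358) (C.miq (nat_lit 1913849188) (nat_lit 16927783872892994768733297)) (C.cons (nat_lit 356) (C.miq (nat_lit 1484022320)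 (nat_lit 560962554349406537349923405)) (C.cons (nat_lit 102) (C.miq (nat_lit 1913849188) (nat_lit 16927783872891895257105521)) C.nil)))) (C.cons (nat_lit 82) (C.node (nat_lit 3) (nat_lit 4) (nat_lit 6) (C.cons (nat_lit 88) (C.node (nat_lit 2) (nat_lit 8) (nat_lit 6) (C.cons (nat_lit 358) (C.miq (nat_lit 1484022320) (nat_lit 560962554349969487303344717)) (C.cons (nat_lit 356) (C.miq (nat_lit 1484022320) (nat_lit 560962554349406537349923405)) (C.cons (nat_lit 326) (C.node (nat_lit 2) (nat_lit 5) (nat_lit 6) C.nil) C.nil)))) C.nil)) C.nil))) C.nil)) C.nil)) (C.cons (nat_lit 432) (C.miq (nat_lit 1463175200) (nat_lit 241806137992536533486076181)) (C.cons (nat_lit 400) (C.node (nat_lit 7) (nat_lit 4) (nat_lit 6) (C.cons (nat_lit 720) (C.miq (nat_lit 311888454) (nat_lit 778551825237122945878328433)) (C.cons (nat_lit 208) (C.node (nat_lit 1) (nat_lit 2) (nat_lit 9) (C.cons (nat_lit 806) (C.miq (nat_lit 305436784) (nat_lit 33859718397183288709547905))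 (C.cons (nat_lit 550) (C.node (nat_lit 2) (nat_lit 8) (nat_lit 9) C.nil) (C.cons (nat_lit 774) (C.miq (nat_lit 305436784) (nat_lit 33859718388176089454806913)) C.nil)))) C.nil))) C.nil)))) C.nil)) (C.cons (nat_lit 532) (C.node (nat_lit 2) (nat_lit 4) (nat_lit 10) (C.cons (nat_lit 1044) (C.node (nat_lit 2) (nat_lit 5) (nat_lit 10) (C.cons (nat_lit 1572) (C.node (nat_lit 1) (nat_lit 2) (nat_lit 9) (C.cons (nat_lit 518) (C.node (nat_lit 2) (nat_lit 8) (nat_lit 9) (C.cons (nat_lit 772) (C.node (nat_lit 1) (nat_lit 2) (nat_lit 5) (C.cons (nat_lit 358) (C.miq (nat_lit 2451023200) (nat_lit 181374309580040173254804593)) C.nil)) C.nil)) C.nil)) (C.cons (nat_lit 1060) (C.node (nat_lit 2) (nat_lit 9) (nat_lit 10) C.nil) C.nil))) C.nil)) C.nil))) C.nil))) C.nil)) C.nil))) C.nil)))) C.nil))) C.nil))) C.nil))) C.nil))) C.nil))) C.nil))) C.nil)) (C.cons (nat_lit 388) (C.node (nat_lit 2) (nat_lit 3) (nat_lit 7) (C.cons (nat_lit 1164) (C.ref (nat_lit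 166) (nat_lit 11649936536080)) (C.cons (nat_lit 140) (C.node (nat_lit 2) (nat_lit 7) (nat_lit 10) (C.cons (nat_lit 1156) (C.ref (nat_lit 168) (nat_lit 11649936536080)) C.nil)) C.nil))) C.nil))) C.nil)) (C.cons (nat_lit 148) (C.ref (nat_lit 172) (nat_lit 11649936536080)) C.nil)))) C.nil)))) List.nil)

theorem ok11_173 : okL par11 (nat_lit 174) c11_173 (nat_lit 173) = true := by decide +kernel

noncomputable def c11_174 : List C :=
  (List.cons (C.node (nat_lit 2) (nat_lit 6) (nat_lit 10) (C.cons (nat_lit 1348) (C.node (nat_lit 6) (nat_lit 7) (nat_lit 10) (C.cons (nat_lit 1224) (C.miq (nat_lit 1113786535) (nat_lit 712060130182834219708319617)) (C.cons (nat_lit 1216) (C.node (nat_lit 1) (nat_lit 2) (nat_lit 6) (C.cons (nat_lit 102) (C.node (nat_lit 1) (nat_lit 2) (nat_lit 9) (C.cons (nat_lit 774) (C.miq (nat_lit 1176570505) (nat_lit 123320229141838153778595713)) (C.cons (nat_lit 646) (C.miq (nat_lit 380183815) (nat_lit 1934293228008793627028422821))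 (C.cons (nat_lit 518) (C.node (nat_lit 5) (nat_lit 8) (nat_lit 10) (C.cons (nat_lit 1314) (C.miq (nat_lit 2166990176) (nat_lit 626259011125602066069521521)) (C.cons (nat_lit 1312) (C.node (nat_lit 5) (nat_lit 6) (nat_lit 8) (C.cons (nat_lit 864) (C.miq (nat_lit 444932246) (nat_lit 1586112557192497947266253389)) (C.cons (nat_lit 480) (C.miq (nat_lit 713363574) (nat_lit 1586112557192497947241087171)) (C.cons (nat_lit 352) (C.node (nat_lit 5) (nat_lit 6) (nat_lit 9) (C.cons (nat_lit 736) (C.miq (nat_lit 446046325) (nat_lit 1934283193241511149573243045)) (C.cons (nat_lit 608) (C.node (nat_lit 2) (nat_lit 7) (nat_lit 8) (C.cons (nat_lit 398) (C.miq (nat_lit 1176701575) (nat_lit 712060130424902699625351041)) (C.cons (nat_lit 396) (C.miq (nat_lit 1176701575) (nat_lit 712060130424902699625219969)) (C.cons (nat_lit 390) (C.miq (nat_lit 1518493809) (nat_lit 1629633886728460945055940803)) (C.cons (nat_lit 388) (C.node (nat_lit 1) (nat_lit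 2) (nat_lit 8) (C.cons (nat_lit 270) (C.node (nat_lit 1) (nat_lit 8) (nat_lit 10) (C.cons (nat_lit 1298) (C.miq (nat_lit 2457929380) (nat_lit 326419766682847567926133873)) (C.cons (nat_lit 1282) (C.node (nat_lit 1) (nat_lit 6) (nat_lit 10) (C.cons (nat_lit 1098) (C.miq (nat_lit 1243088434) (nat_lit 1549848010814104783930917453)) (C.cons (nat_lit 1090) (C.node (nat_lit 3) (nat_lit 6) (nat_lit 10) (C.cons (nat_lit 1096) (C.node (nat_lit 1) (nat_lit 3) (nat_lit 6) (C.cons (nat_lit 90) (C.miq (nat_lit 1913849188) (nat_lit 326412793694236963981886577)) (C.cons (nat_lit 74) (C.node (nat_lit 3) (nat_lit 4) (nat_lit 6) (C.cons (nat_lit 344) (C.miq (nat_lit 1209688864) (nat_lit 1549863874790794961430708813)) (C.cons (nat_lit 88) (C.node (nat_lit 1) (nat_lit 2) (nat_lit 4) (C.cons (nat_lit 150) (C.node (nat_lit 2) (nat_lit 7) (nat_lit 9) (C.cons (nat_lit 644) (C.node (nat_lit 4) (nat_lit 7) (nat_lit 10) (C.cons (nat_lit 1168) (C.node (nat_lit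 1) (nat_lit 4) (nat_lit 6) (C.cons (nat_lit 338) (C.node (nat_lit 1) (nat_lit 6) (nat_lit 9) (C.cons (nat_lit 578) (C.node (nat_lit 6) (nat_lit 8) (nat_lit 9) (C.cons (nat_lit 832) (C.node (nat_lit 1) (nat_lit 7) (nat_lit 8) (C.cons (nat_lit 418) (C.miq (nat_lit 2171172128) (nat_lit 698794560050278237419143333)) (C.cons (nat_lit 386) (C.node (nat_lit 2) (nat_lit 5) (nat_lit 8) C.nil) C.nil))) C.nil)) C.nil)) (C.cons (nat_lit 82) (C.node (nat_lit 1) (nat_lit 4) (nat_lit 8) (C.cons (nat_lit 306) (C.miq (nat_lit 1362511904) (nat_lit 89481484685626869241676053)) (C.cons (nat_lit 274) (C.node (nat_lit 1) (nat_lit 4) (nat_lit 5) (C.cons (nat_lit 58) (C.node (nat_lit 1) (nat_lit 4) (nat_lit 10) (C.cons (nat_lit 1042) (C.node (nat_lit 2) (nat_lit 3) (nat_lit 4) (C.cons (nat_lit 1052) (C.miq (nat_lit 2202673494) (nat_lit 1271814828521599745160970342)) (C.cons (nat_lit 28) (C.node (nat_lit 2) (nat_lit 3) (nat_lit 5) (C.cons (nat_lit 1068)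 (C.miq (nat_lit 1679336754) (nat_lit 331270541105457051990885420)) (C.cons (nat_lit 44) (C.node (nat_lit 2) (nat_lit 5) (nat_lit 10) (C.cons (nat_lit 1572) (C.miq (nat_lit 2451023200) (nat_lit 181374309580039073743176817)) (C.cons (nat_lit 1060) (C.node (nat_lit 2) (nat_lit 3) (nat_lit 7) (C.cons (nat_lit 140) (C.node (nat_lit 2) (nat_lit 3) (nat_lit 10) C.nil) C.nil)) C.nil))) C.nil))) C.nil))) C.nil)) (C.cons (nat_lit 50) (C.node (nat_lit 3) (nat_lit 8) (nat_lit 10) (C.cons (nat_lit 1304) (C.miq (nat_lit 877759074) (nat_lit 60451271968679613329442116)) (C.cons (nat_lit 1288) (C.node (nat_lit 4) (nat_lit 8) (nat_lit 10)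
  (C.cons (nat_lit 1296) (C.node (nat_lit 1) (nat_lit 3) (nat_lit 4) (C.cons (nat_lit 1050) (C.node (nat_lit 1) (nat_lit 6) (nat_lit 8) C.nil) (C.cons (nat_lit 26) (C.node (nat_lit 1) (nat_lit 4) (nat_lit 10) (C.cons (nat_lit 1042) (C.node (nat_lit 1) (nat_lit 6) (nat_lit 8) C.nil) C.nil)) C.nil))) C.nil)) C.nil))) C.nil))) C.nil))) C.nil))) C.nil)) C.nil)) (C.cons (nat_lit 22) (C.node (nat_lit 1) (nat_lit 2) (nat_lit 7) (C.cons (nat_lit 134) (C.node (nat_lit 1) (nat_lit 4) (nat_lit 6) (C.cons (nat_lit 338) (C.node (nat_lit 1) (nat_lit 6) (nat_lit 9) (C.cons (nat_lit 578) (C.node (nat_lit 6) (nat_lit 8) (nat_lit 9) (C.cons (nat_lit 832) (C.node (nat_lit 1) (nat_lit 7) (nat_lit 8) (C.cons (nat_lit 386) (C.node (nat_lit 1) (nat_lit 5) (nat_lit 8) C.nil) C.nil)) C.nil)) C.nil)) (C.cons (nat_lit 82) (C.node (nat_lit 1) (nat_lit 6) (nat_lit 8) (C.cons (nat_lit 834) (C.node (nat_lit 3) (nat_lit 6) (nat_lit 8) (C.cons (nat_lit 456) (C.miq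 (nat_lit 372545648) (nat_lit 106395267581942596237854593)) (C.cons (nat_lit 328) (C.node (nat_lit 1) (nat_lit 5) (nat_lit 8) (C.cons (nat_lit 434) (C.miq (nat_lit 907282823) (nat_lit 99134739726035213201049473)) (C.cons (nat_lit 290) (C.miq (nat_lit 2014644578) (nat_lit 350591531941731635011387981)) C.nil))) C.nil))) (C.cons (nat_lit 322) (C.node (nat_lit 1) (nat_lit 6) (nat_lit 9) (C.cons (nat_lit 578) (C.node (nat_lit 3) (nat_lit 5) (nat_lit 6) C.nil) C.nil)) C.nil))) C.nil))) C.nil)) C.nil))) C.nil))) C.nil))) C.nil)) C.nil))) C.nil))) (C.cons (nat_lit 262) (C.node (nat_lit 2) (nat_lit 3) (nat_lit 8) (C.cons (nat_lit 268) (C.node (nat_lit 1) (nat_lit 6) (nat_lit 9) (C.cons (nat_lit 834) (C.node (nat_lit 1) (nat_lit 4) (nat_lit 6) (C.cons (nat_lit 90) (C.node (nat_lit 1) (nat_lit 6) (nat_lit 10) (C.cons (nat_lit 1090) (C.node (nat_lit 3) (nat_lit 6) (nat_lit 10) (C.cons (nat_lit 1096) (C.node (nat_lit 1) (nat_lit 2) (nat_lit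 3) (C.cons (nat_lit 142) (C.node (nat_lit 1) (nat_lit 2) (nat_lit 4) (C.cons (nat_lit 22) (C.node (nat_lit 1) (nat_lit 7) (nat_lit 9) (C.cons (nat_lit 674) (C.miq (nat_lit 1098212128) (nat_lit 814836976393605229312279117)) (C.cons (nat_lit 642) (C.node (nat_lit 3) (nat_lit 5) (nat_lit 6) (C.cons (nat_lit 232) (C.miq (nat_lit 2251788608) (nat_lit 280506226580710081714258451)) (C.cons (nat_lit 104) (C.node (nat_lit 5) (nat_lit 6) (nat_lit 7) (C.cons (nat_lit 224) (C.node (nat_lit 3) (nat_lit 6) (nat_lit 7) (C.cons (nat_lit 456) (C.node (nat_lit 4) (nat_lit 6) (nat_lit 8) (C.cons (nat_lit 336) (C.node (nat_lit 3) (nat_lit 8) (nat_lit 9) (C.cons (nat_lit 792) (C.node (nat_lit 3) (nat_lit 4) (nat_lit 5) (C.cons (nat_lit 60) (C.node (nat_lit 2) (nat_lit 3) (nat_lit 10) (C.cons (nat_lit 1036) (C.node (nat_lit 3) (nat_lit 4) (nat_lit 10) (C.cons (nat_lit 1048) (C.node (nat_lit 2) (nat_lit 5) (nat_lit 10) (C.cons (nat_lit 1572) (C.miq (nat_lit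 2453120320) (nat_lit 171702903023121859954148465)) (C.cons (nat_lit 1060) (C.node (nat_lit 1) (nat_lit 3) (nat_lit 8) C.nil) C.nil))) C.nil)) C.nil)) (C.cons (nat_lit 56) (C.miq (nat_lit 625153543) (nat_lit 67702465364793031552204995)) C.nil))) (C.cons (nat_lit 776) (C.miq (nat_lit 1133053793) (nat_lit 938136231285123009340375235)) C.nil))) C.nil)) (C.cons (nat_lit 200) (C.miq (nat_lit 2251788608) (nat_lit 241820600353041948123660819)) C.nil))) C.nil)) C.nil))) C.nil))) C.nil)) (C.cons (nat_lit 14) (C.miq (nat_lit 1913849188) (nat_lit 16927783872891895257105521)) C.nil))) C.nil)) C.nil)) (C.cons (nat_lit 82) (C.node (nat_lit 3) (nat_lit 7) (nat_lit 8) (C.cons (nat_lit 456) (C.miq (nat_lit 873885848) (nat_lit 99140328966765156000466817)) (C.cons (nat_lit 394) (C.miq (nat_lit 1468080278) (nat_lit 476318654542511035052589645)) (C.cons (nat_lit 392) (C.node (nat_lit 3) (nat_lit 8) (nat_lit 9) (C.cons (nat_lit 792) (C.miq (nat_lit 1731727433)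 (nat_lit 473914305928380387891347987)) (C.cons (nat_lit 776) (C.node (nat_lit 1) (nat_lit 5) (nat_lit 8) (C.cons (nat_lit 434) (C.miq (nat_lit 907282823) (nat_lit 99134739726035213201049473))
  (C.cons (nat_lit 418) (C.node (nat_lit 2) (nat_lit 5) (nat_lit 8) (C.cons (nat_lit 804) (C.node (nat_lit 4) (nat_lit 5) (nat_lit 8) (C.cons (nat_lit 304) (C.node (nat_lit 4) (nat_lit 8) (nat_lit 9) (C.cons (nat_lit 784) (C.node (nat_lit 2) (nat_lit 4) (nat_lit 5) (C.cons (nat_lit 60) (C.miq (nat_lit 1192570978) (nat_lit 505332099446625926562316877)) (C.cons (nat_lit 52) (C.node (nat_lit 2) (nat_lit 7) (nat_lit 9) (C.cons (nat_lit 660) (C.miq (nat_lit 891553943) (nat_lit 62866965055405515926144897)) (C.cons (nat_lit 644) (C.node (nat_lit 1) (nat_lit 3) (nat_lit 6) (C.cons (nat_lit 1098) (C.node (nat_lit 1) (nat_lit 8) (nat_lit 10) (C.cons (nat_lit 1298) (C.miq (nat_lit 830630464) (nat_lit 316749430180357358012925041)) (C.cons (nat_lit 1282)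 (C.node (nat_lit 2) (nat_lit 3) (nat_lit 5) (C.cons (nat_lit 1068) (C.miq (nat_lit 2775659014) (nat_lit 505351247424523911924220493)) (C.cons (nat_lit 44) (C.node (nat_lit 3) (nat_lit 6) (nat_lit 8) (C.cons (nat_lit 344) (C.miq (nat_lit 327329344) (nat_lit 324011138558921615284175985)) C.nil)) C.nil))) C.nil))) (C.cons (nat_lit 74) (C.node (nat_lit 1) (nat_lit 6) (nat_lit 10) (C.cons (nat_lit 1090) (C.node (nat_lit 3) (nat_lit 6) (nat_lit 10) (C.cons (nat_lit 1096) (C.node (nat_lit 1) (nat_lit 4) (nat_lit 5) (C.cons (nat_lit 58) (C.node (nat_lit 1) (nat_lit 2) (nat_lit 3) (C.cons (nat_lit 142) (C.miq (nat_lit 1159136803) (nat_lit 505333815270795759204565581)) (C.cons (nat_lit 14) (C.node (nat_lit 1) (nat_lit 3) (nat_lit 8) C.nil) C.nil))) (C.cons (nat_lit 50) (C.node (nat_lit 1) (nat_lit 7) (nat_lit 9) (C.cons (nat_lit 650) (C.node (nat_lit 3) (nat_lit 6) (nat_lit 8) C.nil) (C.cons (nat_lit 642) (C.node (nat_lit 3) (nat_lit 6)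 (nat_lit 8) C.nil) C.nil))) C.nil))) C.nil)) C.nil)) C.nil))) C.nil))) C.nil))) C.nil)) C.nil)) (C.cons (nat_lit 292) (C.miq (nat_lit 2455265393) (nat_lit 353021724077818662759825603)) C.nil))) (C.cons (nat_lit 306) (C.miq (nat_lit 2014644578) (nat_lit 369934345055565701806686797)) (C.cons (nat_lit 290) (C.miq (nat_lit 2014644578) (nat_lit 350591531941731635011387981)) C.nil))))) C.nil))) C.nil)))) C.nil))) (C.cons (nat_lit 578) (C.node (nat_lit 6) (nat_lit 8) (nat_lit 9) (C.cons (nat_lit 848) (C.miq (nat_lit 308546185) (nat_lit 101559564358938481107404673)) (C.cons (nat_lit 832) (C.node (nat_lit 1) (nat_lit 6) (nat_lit 10) (C.cons (nat_lit 1098) (C.node (nat_lit 1) (nat_lit 8) (nat_lit 10) (C.cons (nat_lit 1298) (C.miq (nat_lit 830630464) (nat_lit 316749430180357358012925041)) (C.cons (nat_lit 1282) (C.node (nat_lit 3) (nat_lit 4) (nat_lit 6) (C.cons (nat_lit 344) (C.miq (nat_lit 327329344) (nat_lit 324011138558921615284175985))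 (C.cons (nat_lit 88) (C.node (nat_lit 3) (nat_lit 5) (nat_lit 6) (C.cons (nat_lit 232) (C.miq (nat_lit 923428129) (nat_lit 2322366754069998481032282214)) (C.cons (nat_lit 104) (C.node (nat_lit 5) (nat_lit 6) (nat_lit 7) (C.cons (nat_lit 224) (C.node (nat_lit 2) (nat_lit 5) (nat_lit 10) (C.cons (nat_lit 1572) (C.miq (nat_lit 2032208470) (nat_lit 626227172216192467816809585)) (C.cons (nat_lit 1068) (C.miq (nat_lit 1966473889) (nat_lit 125731882401463765786297351)) (C.cons (nat_lit 1060) (C.node (nat_lit 1) (nat_lit 4) (nat_lit 6) (C.cons (nat_lit 338) (C.node (nat_lit 3) (nat_lit 6) (nat_lit 8) (C.cons (nat_lit 456) (C.node (nat_lit 1) (nat_lit 7) (nat_lit 8) (C.cons (nat_lit 418) (C.miq (nat_lit 2171172128) (nat_lit 698794560050278237419143333)) (C.cons (nat_lit 386) (C.node (nat_lit 4) (nat_lit 6) (nat_lit 7) (C.cons (nat_lit 720) (C.node (nat_lit 2) (nat_lit 7) (nat_lit 9) (C.cons (nat_lit 644) (C.node (nat_lit 1) (nat_lit 4)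 (nat_lit 10) (C.cons (nat_lit 1170) (C.miq (nat_lit 342009744) (nat_lit 101568787770097660389558145)) (C.cons (nat_lit 1042) (C.node (nat_lit 1) (nat_lit 7) (nat_lit 10) (C.cons (nat_lit 1186) (C.miq (nat_lit 1898554720) (nat_lit 626259011089573269050557553)) (C.cons (nat_lit 1154) (C.node (nat_lit 1) (nat_lit 2) (nat_lit 3) C.nil) C.nil))) C.nil))) C.nil)) C.nil)) C.nil))) C.nil)) (C.cons (nat_lit 82)
  (C.node (nat_lit 1) (nat_lit 6) (nat_lit 8) (C.cons (nat_lit 322) (C.node (nat_lit 3) (nat_lit 6) (nat_lit 7) (C.cons (nat_lit 200) (C.node (nat_lit 3) (nat_lit 6) (nat_lit 8) C.nil) C.nil)) C.nil)) C.nil))) C.nil)))) C.nil)) C.nil))) C.nil))) C.nil))) (C.cons (nat_lit 1090) (C.node (nat_lit 3) (nat_lit 6) (nat_lit 10) (C.cons (nat_lit 1096) (C.node (nat_lit 2) (nat_lit 5) (nat_lit 8) (C.cons (nat_lit 804) (C.node (nat_lit 1) (nat_lit 5) (nat_lit 8) (C.cons (nat_lit 434) (C.miq (nat_lit 412513568) (nat_lit 1005829879156629439802835109))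 (C.cons (nat_lit 418) (C.miq (nat_lit 412513568) (nat_lit 1005829879152125840175464613)) (C.cons (nat_lit 306) (C.miq (nat_lit 2018576678) (nat_lit 369934898457887784244216397)) (C.cons (nat_lit 290) (C.miq (nat_lit 2018576678) (nat_lit 350592085344053717448917581)) C.nil))))) (C.cons (nat_lit 292) (C.node (nat_lit 2) (nat_lit 8) (nat_lit 9) (C.cons (nat_lit 772) (C.node (nat_lit 2) (nat_lit 7) (nat_lit 9) (C.cons (nat_lit 660) (C.node (nat_lit 4) (nat_lit 6) (nat_lit 9) (C.cons (nat_lit 592) (C.node (nat_lit 6) (nat_lit 7) (nat_lit 9) (C.cons (nat_lit 704) (C.node (nat_lit 2) (nat_lit 4) (nat_lit 5) (C.cons (nat_lit 60) (C.miq (nat_lit 2455270448) (nat_lit 353041775708611057409392793)) (C.cons (nat_lit 52) (C.node (nat_lit 4) (nat_lit 6) (nat_lit 7) (C.cons (nat_lit 208) (C.node (nat_lit 6) (nat_lit 7) (nat_lit 8) C.nil) C.nil)) C.nil))) C.nil)) C.nil)) (C.cons (nat_lit 644) (C.node (nat_lit 3) (nat_lit 5) (nat_lit 6) (C.cons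 (nat_lit 232) (C.node (nat_lit 5) (nat_lit 7) (nat_lit 10) (C.cons (nat_lit 1186) (C.miq (nat_lit 1898554720) (nat_lit 626259011089573269050557553)) (C.cons (nat_lit 1184) (C.node (nat_lit 2) (nat_lit 3) (nat_lit 5) (C.cons (nat_lit 1068) (C.miq (nat_lit 391775794) (nat_lit 1431387189071749554360812109)) (C.cons (nat_lit 60) (C.miq (nat_lit 1074935653) (nat_lit 1246403626870393610657202408)) (C.cons (nat_lit 44) (C.node (nat_lit 2) (nat_lit 5) (nat_lit 10) (C.cons (nat_lit 1572) (C.miq (nat_lit 2032208470) (nat_lit 626227172216192467816809585)) (C.cons (nat_lit 1060) (C.node (nat_lit 3) (nat_lit 4) (nat_lit 6) (C.cons (nat_lit 346) (C.miq (nat_lit 1937921600) (nat_lit 323995163434796461570983025)) (C.cons (nat_lit 344) (C.miq (nat_lit 1937921600) (nat_lit 323995163434796452981048433)) (C.cons (nat_lit 90) (C.miq (nat_lit 1075918678) (nat_lit 1246404180272715693094732008)) (C.cons (nat_lit 88) (C.node (nat_lit 3) (nat_lit 6) (nat_lit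 8) (C.cons (nat_lit 330) (C.node (nat_lit 1) (nat_lit 4) (nat_lit 6) C.nil) C.nil)) C.nil))))) C.nil))) C.nil)))) C.nil))) (C.cons (nat_lit 104) (C.node (nat_lit 5) (nat_lit 6) (nat_lit 7) (C.cons (nat_lit 224) (C.node (nat_lit 3) (nat_lit 6) (nat_lit 7) (C.cons (nat_lit 200) (C.node (nat_lit 6) (nat_lit 7) (nat_lit 8) C.nil) C.nil)) C.nil)) C.nil))) C.nil))) C.nil)) C.nil))) C.nil)) C.nil))) C.nil))) C.nil))) C.nil)) C.nil))) C.nil))))) C.nil))) C.nil)))) C.nil))) C.nil)))) (C.cons (nat_lit 70) (C.node (nat_lit 2) (nat_lit 5) (nat_lit 6) (C.cons (nat_lit 100) (C.node (nat_lit 1) (nat_lit 6) (nat_lit 10) (C.cons (nat_lit 1098) (C.node (nat_lit 3) (nat_lit 4) (nat_lit 6) (C.cons (nat_lit 344) (C.miq (nat_lit 323004034) (nat_lit 184984669303239260192965956)) (C.cons (nat_lit 88) (C.node (nat_lit 2) (nat_lit 3) (nat_lit 8) (C.cons (nat_lit 398) (C.miq (nat_lit 1176701575) (nat_lit 712060130424902699625351041)) (C.cons (nat_lit 396)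 (C.miq (nat_lit 1176701575) (nat_lit 712060130424902699625219969)) (C.cons (nat_lit 270) (C.miq (nat_lit 2221088929) (nat_lit 106390452824960720951706631)) (C.cons (nat_lit 268) (C.node (nat_lit 1) (nat_lit 4) (nat_lit 6) (C.cons (nat_lit 338) (C.node (nat_lit 2) (nat_lit 7) (nat_lit 8) (C.cons (nat_lit 390) (C.miq (nat_lit 1384384278) (nat_lit 334893426027709135370453187)) (C.cons (nat_lit 388) (C.node (nat_lit 1) (nat_lit 4) (nat_lit 10) (C.cons (nat_lit 1170) (C.node (nat_lit 2) (nat_lit 7) (nat_lit 10) (C.cons (nat_lit 1164) (C.miq (nat_lit 2473853601) (nat_lit 184975445787935164203140103))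
  (C.cons (nat_lit 1156) (C.node (nat_lit 2) (nat_lit 3) (nat_lit 7) (C.cons (nat_lit 142) (C.miq (nat_lit 1511458354) (nat_lit 1414446252981930060885656141)) (C.cons (nat_lit 140) (C.node (nat_lit 1) (nat_lit 2) (nat_lit 7) (C.cons (nat_lit 646) (C.miq (nat_lit 1093052304) (nat_lit 84645781650364347328563073)) (C.cons (nat_lit 134) (C.node (nat_lit 3) (nat_lit 5) (nat_lit 6) (C.cons (nat_lit 232) (C.miq (nat_lit 326280784) (nat_lit 169268633648248599878108273)) (C.cons (nat_lit 104) (C.node (nat_lit 4) (nat_lit 6) (nat_lit 7) (C.cons (nat_lit 720) (C.miq (nat_lit 342009744) (nat_lit 101568787770097660389558145)) (C.cons (nat_lit 208) (C.node (nat_lit 4) (nat_lit 6) (nat_lit 9) (C.cons (nat_lit 592) (C.node (nat_lit 2) (nat_lit 3) (nat_lit 10) (C.cons (nat_lit 1068) (C.miq (nat_lit 321350224) (nat_lit 169253212170206569285616753)) (C.cons (nat_lit 1052) (C.miq (nat_lit 880159248) (nat_lit 251467435908218983888913415)) (C.cons (nat_lit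 1036) (C.node (nat_lit 2) (nat_lit 4) (nat_lit 10) (C.cons (nat_lit 1556) (C.miq (nat_lit 605461104) (nat_lit 408627792599984164862887809)) (C.cons (nat_lit 1044) (C.node (nat_lit 4) (nat_lit 9) (nat_lit 10) (C.cons (nat_lit 1560) (C.miq (nat_lit 873896560) (nat_lit 408627792601110064769730433)) (C.cons (nat_lit 1552) (C.node (nat_lit 1) (nat_lit 5) (nat_lit 6) (C.cons (nat_lit 610) (C.node (nat_lit 1) (nat_lit 9) (nat_lit 10) (C.cons (nat_lit 1538) (C.node (nat_lit 6) (nat_lit 7) (nat_lit 9) (C.cons (nat_lit 704) (C.node (nat_lit 6) (nat_lit 8) (nat_lit 9) C.nil) C.nil)) C.nil)) (C.cons (nat_lit 98) (C.node (nat_lit 1) (nat_lit 6) (nat_lit 9) (C.cons (nat_lit 578) (C.node (nat_lit 2) (nat_lit 4) (nat_lit 7) (C.cons (nat_lit 660) (C.node (nat_lit 2) (nat_lit 5) (nat_lit 10) (C.cons (nat_lit 1572) (C.node (nat_lit 1) (nat_lit 2) (nat_lit 9) C.nil) C.nil)) C.nil)) C.nil)) C.nil))) C.nil))) C.nil))) C.nil)))) C.nil)) C.nil))) C.nil)))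 C.nil))) C.nil))) C.nil))) (C.cons (nat_lit 1042) (C.node (nat_lit 1) (nat_lit 5) (nat_lit 6) (C.cons (nat_lit 610) (C.node (nat_lit 1) (nat_lit 9) (nat_lit 10) (C.cons (nat_lit 1538) (C.node (nat_lit 6) (nat_lit 8) (nat_lit 9) (C.cons (nat_lit 832) (C.node (nat_lit 1) (nat_lit 7) (nat_lit 10) (C.cons (nat_lit 1186) (C.node (nat_lit 1) (nat_lit 8) (nat_lit 10) (C.cons (nat_lit 1282) (C.node (nat_lit 5) (nat_lit 8) (nat_lit 10) (C.cons (nat_lit 1312) (C.node (nat_lit 1) (nat_lit 4) (nat_lit 7) (C.cons (nat_lit 150) (C.miq (nat_lit 829581904) (nat_lit 181349738383518409402156145)) (C.cons (nat_lit 146) (C.node (nat_lit 1) (nat_lit 7) (nat_lit 8) (C.cons (nat_lit 394) (C.miq (nat_lit 588711589) (nat_lit 476319816806729534144644209)) (C.cons (nat_lit 386) (C.node (nat_lit 3) (nat_lit 5) (nat_lit 6) (C.cons (nat_lit 232) (C.miq (nat_lit 1096223075) (nat_lit 1433788844564259311341535821)) (C.cons (nat_lit 104) (C.node (nat_lit 1) (nat_lit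 2) (nat_lit 7) (C.cons (nat_lit 646) (C.miq (nat_lit 1361487760) (nat_lit 84645781654867946955933569)) (C.cons (nat_lit 142) (C.miq (nat_lit 1969430689) (nat_lit 125730904724028155532805127)) (C.cons (nat_lit 134) (C.miq (nat_lit 829581904) (nat_lit 162006925269684342606857329)) C.nil)))) C.nil))) C.nil))) C.nil))) C.nil)) C.nil)) (C.cons (nat_lit 1154) (C.node (nat_lit 1) (nat_lit 5) (nat_lit 10) (C.cons (nat_lit 1314) (C.node (nat_lit 1) (nat_lit 2) (nat_lit 8) (C.cons (nat_lit 774) (C.miq (nat_lit 1176570505) (nat_lit 84634602914170020187998081)) (C.cons (nat_lit 262) (C.node (nat_lit 1) (nat_lit 7) (nat_lit 8) (C.cons (nat_lit 394) (C.miq (nat_lit 1243022723) (nat_lit 1395103218507168037305188649)) (C.cons (nat_lit 386) (C.node (nat_lit 1) (nat_lit 3) (nat_lit 8) (C.cons (nat_lit 778) (C.miq (nat_lit 1362536592) (nat_lit 1327421524254736102508529537)) (C.cons (nat_lit 266) (C.node (nat_lit 1) (nat_lit 8) (nat_lit 9) (C.cons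 (nat_lit 770) (C.node (nat_lit 2) (nat_lit 5) (nat_lit 8) (C.cons (nat_lit 804) (C.miq (nat_lit 961634954) (nat_lit 737465004655708944180839748)) (C.cons (nat_lit 292) (C.node (nat_lit 2) (nat_lit 8) (nat_lit 9)
  (C.cons (nat_lit 772) (C.node (nat_lit 1) (nat_lit 2) (nat_lit 9) (C.cons (nat_lit 646) (C.node (nat_lit 1) (nat_lit 3) (nat_lit 9) C.nil) C.nil)) C.nil)) C.nil))) C.nil)) C.nil))) C.nil))) C.nil))) (C.cons (nat_lit 1058) (C.node (nat_lit 1) (nat_lit 8) (nat_lit 10) (C.cons (nat_lit 1282) (C.node (nat_lit 5) (nat_lit 8) (nat_lit 10) (C.cons (nat_lit 1312) (C.node (nat_lit 3) (nat_lit 5) (nat_lit 6) (C.cons (nat_lit 232) (C.node (nat_lit 2) (nat_lit 3) (nat_lit 7) (C.cons (nat_lit 1164) (C.miq (nat_lit 326280784) (nat_lit 1407208672933628874777232497)) (C.cons (nat_lit 142) (C.miq (nat_lit 1511458354) (nat_lit 1395103439868095994090357325)) (C.cons (nat_lit 140) (C.miq (nat_lit 326280784) (nat_lit 169268633648248599878108273))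 C.nil)))) (C.cons (nat_lit 104) (C.node (nat_lit 3) (nat_lit 6) (nat_lit 7) (C.cons (nat_lit 456) (C.node (nat_lit 5) (nat_lit 6) (nat_lit 7) (C.cons (nat_lit 224) (C.node (nat_lit 5) (nat_lit 6) (nat_lit 8) (C.cons (nat_lit 352) (C.node (nat_lit 1) (nat_lit 3) (nat_lit 8) (C.cons (nat_lit 778) (C.node (nat_lit 3) (nat_lit 8) (nat_lit 10) (C.cons (nat_lit 1304) (C.node (nat_lit 1) (nat_lit 2) (nat_lit 8) C.nil) C.nil)) (C.cons (nat_lit 266) (C.node (nat_lit 3) (nat_lit 8) (nat_lit 10) (C.cons (nat_lit 1304) (C.node (nat_lit 3) (nat_lit 9) (nat_lit 10) (C.cons (nat_lit 1576) (C.miq (nat_lit 2441303626) (nat_lit 321603340257852714303095921)) C.nil)) C.nil)) C.nil))) C.nil)) C.nil)) (C.cons (nat_lit 200) (C.node (nat_lit 3) (nat_lit 6) (nat_lit 8) (C.cons (nat_lit 328) (C.node (nat_lit 3) (nat_lit 7) (nat_lit 8) (C.cons (nat_lit 394) (C.node (nat_lit 1) (nat_lit 3) (nat_lit 9) (C.cons (nat_lit 522) (C.node (nat_lit 3) (nat_lit 8)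 (nat_lit 10) (C.cons (nat_lit 1304) (C.miq (nat_lit 1125558384) (nat_lit 1327421524251919703448160129)) C.nil)) C.nil)) (C.cons (nat_lit 392) (C.node (nat_lit 5) (nat_lit 6) (nat_lit 8) (C.cons (nat_lit 480) (C.node (nat_lit 1) (nat_lit 7) (nat_lit 8) (C.cons (nat_lit 386) (C.node (nat_lit 4) (nat_lit 7) (nat_lit 8) (C.cons (nat_lit 400) (C.node (nat_lit 1) (nat_lit 3) (nat_lit 8) C.nil) C.nil)) C.nil)) C.nil)) C.nil))) C.nil)) C.nil))) C.nil))) C.nil)) C.nil)) C.nil))) C.nil))) C.nil)) C.nil)) (C.cons (nat_lit 98) (C.node (nat_lit 1) (nat_lit 6) (nat_lit 9) (C.cons (nat_lit 578) (C.node (nat_lit 1) (nat_lit 7) (nat_lit 10) (C.cons (nat_lit 1186) (C.node (nat_lit 1) (nat_lit 8) (nat_lit 10) (C.cons (nat_lit 1282) (C.node (nat_lit 1) (nat_lit 9) (nat_lit 10) (C.cons (nat_lit 1538) (C.node (nat_lit 5) (nat_lit 8) (nat_lit 10) (C.cons (nat_lit 1312) (C.node (nat_lit 1) (nat_lit 4) (nat_lit 7) (C.cons (nat_lit 150) (C.miq (nat_lit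 829581904) (nat_lit 181349738383518409402156145)) (C.cons (nat_lit 146) (C.node (nat_lit 1) (nat_lit 7) (nat_lit 8) (C.cons (nat_lit 394) (C.miq (nat_lit 588711589) (nat_lit 476319816806729534144644209)) (C.cons (nat_lit 386) (C.node (nat_lit 3) (nat_lit 7) (nat_lit 10) (C.cons (nat_lit 1164) (C.miq (nat_lit 388211974) (nat_lit 1407209908890251323532706929)) (C.cons (nat_lit 1160) (C.node (nat_lit 2) (nat_lit 3) (nat_lit 7) (C.cons (nat_lit 142) (C.node (nat_lit 1) (nat_lit 7) (nat_lit 9) (C.cons (nat_lit 642) (C.node (nat_lit 1) (nat_lit 2) (nat_lit 4) (C.cons (nat_lit 54) (C.miq (nat_lit 2266106452) (nat_lit 171672576674104284449997937)) (C.cons (nat_lit 22) (C.node (nat_lit 3) (nat_lit 5) (nat_lit 6) (C.cons (nat_lit 104) (C.miq (nat_lit 1969430689) (nat_lit 125730904724028155532805127)) C.nil)) C.nil))) C.nil)) (C.cons (nat_lit 140) (C.miq (nat_lit 388211974) (nat_lit 169269869604871048633582705)) C.nil))) C.nil))) C.nil)))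 C.nil))) C.nil)) C.nil)) C.nil)) (C.cons (nat_lit 1154) (C.node (nat_lit 1) (nat_lit 8) (nat_lit 10) (C.cons (nat_lit 1314) (C.node (nat_lit 1) (nat_lit 9) (nat_lit 10) (C.cons (nat_lit 1538) (C.node (nat_lit 1) (nat_lit 2) (nat_lit 8) (C.cons (nat_lit 774) (C.miq (nat_lit 1176570505) (nat_lit 84634602914170020187998081)) (C.cons (nat_lit 262) (C.node (nat_lit 1) (nat_lit 7) (nat_lit 8) (C.cons (nat_lit 394)
  (C.miq (nat_lit 1243022723) (nat_lit 1395103218507168037305188649)) (C.cons (nat_lit 386) (C.node (nat_lit 1) (nat_lit 3) (nat_lit 8) (C.cons (nat_lit 778) (C.miq (nat_lit 1362536592) (nat_lit 1327421524254736102508529537)) (C.cons (nat_lit 266) (C.node (nat_lit 1) (nat_lit 8) (nat_lit 9) (C.cons (nat_lit 770) (C.node (nat_lit 3) (nat_lit 6) (nat_lit 8) C.nil) C.nil)) C.nil))) C.nil))) C.nil))) C.nil)) (C.cons (nat_lit 1282) (C.node (nat_lit 5) (nat_lit 8) (nat_lit 10) (C.cons (nat_lit 1312) (C.node (nat_lit 1) (nat_lit 5)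 (nat_lit 10) (C.cons (nat_lit 1570) (C.node (nat_lit 2) (nat_lit 5) (nat_lit 10) (C.cons (nat_lit 1068) (C.miq (nat_lit 1906640434) (nat_lit 1898016580562632302767374925)) (C.cons (nat_lit 1060) (C.node (nat_lit 3) (nat_lit 5) (nat_lit 6) (C.cons (nat_lit 232) (C.miq (nat_lit 975528199) (nat_lit 1281465648745195978354917571)) (C.cons (nat_lit 104) (C.node (nat_lit 2) (nat_lit 9) (nat_lit 10) (C.cons (nat_lit 1556) (C.node (nat_lit 3) (nat_lit 9) (nat_lit 10) (C.cons (nat_lit 1544) (C.node (nat_lit 4) (nat_lit 7) (nat_lit 10) (C.cons (nat_lit 1168) (C.node (nat_lit 2) (nat_lit 7) (nat_lit 9) (C.cons (nat_lit 646) (C.miq (nat_lit 1108781424) (nat_lit 84645781759013688313055105)) (C.cons (nat_lit 644) (C.node (nat_lit 1) (nat_lit 2) (nat_lit 9) (C.cons (nat_lit 774) (C.miq (nat_lit 1176570505) (nat_lit 84634602914170020187998081)) (C.cons (nat_lit 518) (C.node (nat_lit 3) (nat_lit 6) (nat_lit 7) C.nil) C.nil))) C.nil))) C.nil)) C.nil))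 (C.cons (nat_lit 1540) (C.node (nat_lit 3) (nat_lit 5) (nat_lit 10) (C.cons (nat_lit 1192) (C.node (nat_lit 2) (nat_lit 3) (nat_lit 7) (C.cons (nat_lit 142) (C.miq (nat_lit 1511458354) (nat_lit 1395103439868095994090357325)) (C.cons (nat_lit 140) (C.node (nat_lit 2) (nat_lit 7) (nat_lit 10) (C.cons (nat_lit 1172) (C.miq (nat_lit 925391424) (nat_lit 469068697028989217481753713)) (C.cons (nat_lit 1156) (C.node (nat_lit 3) (nat_lit 6) (nat_lit 7) C.nil) C.nil))) C.nil))) (C.cons (nat_lit 1064) (C.node (nat_lit 5) (nat_lit 7) (nat_lit 10) (C.cons (nat_lit 1184) (C.node (nat_lit 3) (nat_lit 6) (nat_lit 7) (C.cons (nat_lit 456) (C.node (nat_lit 4) (nat_lit 8) (nat_lit 9) (C.cons (nat_lit 816) (C.miq (nat_lit 2242005264) (nat_lit 1281466478769305666896462355)) (C.cons (nat_lit 792) (C.miq (nat_lit 1130469488) (nat_lit 1327410345380896113671997313)) (C.cons (nat_lit 784) (C.node (nat_lit 1) (nat_lit 3) (nat_lit 8) (C.cons (nat_lit 778)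 (C.node (nat_lit 1) (nat_lit 2) (nat_lit 8) (C.cons (nat_lit 294) (C.node (nat_lit 4) (nat_lit 5) (nat_lit 8) C.nil) (C.cons (nat_lit 262) (C.node (nat_lit 1) (nat_lit 2) (nat_lit 9) C.nil) C.nil))) (C.cons (nat_lit 266) (C.node (nat_lit 3) (nat_lit 8) (nat_lit 9) (C.cons (nat_lit 776) (C.node (nat_lit 3) (nat_lit 7) (nat_lit 10) C.nil) C.nil)) C.nil))) C.nil)))) (C.cons (nat_lit 200) (C.node (nat_lit 3) (nat_lit 6) (nat_lit 8) C.nil) C.nil))) C.nil)) C.nil))) C.nil))) C.nil))) C.nil))) (C.cons (nat_lit 1058) (C.node (nat_lit 1) (nat_lit 9) (nat_lit 10) (C.cons (nat_lit 1538) (C.node (nat_lit 3) (nat_lit 5) (nat_lit 6) (C.cons (nat_lit 232) (C.node (nat_lit 2) (nat_lit 3) (nat_lit 7) (C.cons (nat_lit 1164) (C.miq (nat_lit 326280784) (nat_lit 1407208672933628874777232497)) (C.cons (nat_lit 142) (C.miq (nat_lit 1511458354) (nat_lit 1395103439868095994090357325)) (C.cons (nat_lit 140) (C.miq (nat_lit 326280784) (nat_lit 169268633648248599878108273))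 C.nil)))) (C.cons (nat_lit 104) (C.node (nat_lit 3) (nat_lit 6) (nat_lit 7) (C.cons (nat_lit 456) (C.node (nat_lit 1) (nat_lit 3) (nat_lit 8) (C.cons (nat_lit 778) (C.node (nat_lit 1) (nat_lit 2) (nat_lit 8) (C.cons (nat_lit 294) (C.node (nat_lit 1) (nat_lit 7) (nat_lit 8) (C.cons (nat_lit 386) (C.node (nat_lit 3) (nat_lit 8) (nat_lit 10) C.nil) C.nil)) (C.cons (nat_lit 262) (C.node (nat_lit 1) (nat_lit 5) (nat_lit 8) (C.cons (nat_lit 418) (C.node (nat_lit 3) (nat_lit 8) (nat_lit 10) C.nil) C.nil)) C.nil))) (C.cons (nat_lit 266) (C.node (nat_lit 3) (nat_lit 8) (nat_lit 9) (C.cons (nat_lit 792)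
  (C.miq (nat_lit 1130469488) (nat_lit 1327410345380896113671997313)) (C.cons (nat_lit 776) (C.node (nat_lit 1) (nat_lit 7) (nat_lit 8) (C.cons (nat_lit 418) (C.node (nat_lit 1) (nat_lit 2) (nat_lit 8) (C.cons (nat_lit 774) (C.miq (nat_lit 1176570505) (nat_lit 84634602914170020187998081)) C.nil)) C.nil)) C.nil))) C.nil))) (C.cons (nat_lit 200) (C.node (nat_lit 3) (nat_lit 6) (nat_lit 8) (C.cons (nat_lit 328) (C.node (nat_lit 3) (nat_lit 8) (nat_lit 10) (C.cons (nat_lit 1304) (C.node (nat_lit 3) (nat_lit 9) (nat_lit 10) C.nil) C.nil)) C.nil)) C.nil))) C.nil))) C.nil)) C.nil))) C.nil)) C.nil))) C.nil))) C.nil)) C.nil))) C.nil))) C.nil))) (C.cons (nat_lit 82) (C.ref (nat_lit 155) (nat_lit 11649936536080)) C.nil))) C.nil))))) C.nil))) (C.cons (nat_lit 1090) (C.node (nat_lit 3) (nat_lit 6) (nat_lit 10) (C.cons (nat_lit 1096) (C.ref (nat_lit 157) (nat_lit 11649936536080)) C.nil)) C.nil))) C.nil)) C.nil))) C.nil))) (C.cons (nat_lit 1092)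 (C.node (nat_lit 6) (nat_lit 7) (nat_lit 10) (C.cons (nat_lit 1224) (C.node (nat_lit 1) (nat_lit 6) (nat_lit 10) (C.cons (nat_lit 1346) (C.node (nat_lit 1) (nat_lit 4) (nat_lit 6) (C.cons (nat_lit 90) (C.miq (nat_lit 2590050100) (nat_lit 1627223948963112696233459865)) (C.cons (nat_lit 82) (C.node (nat_lit 4) (nat_lit 8) (nat_lit 10) (C.cons (nat_lit 1304) (C.miq (nat_lit 2164565619) (nat_lit 641963665148506365205480648)) (C.cons (nat_lit 1296) (C.node (nat_lit 3) (nat_lit 7) (nat_lit 8) (C.cons (nat_lit 398) (C.miq (nat_lit 878801064) (nat_lit 99139259055611483630208897)) (C.cons (nat_lit 396) (C.miq (nat_lit 1177684600) (nat_lit 712062417821167307033675649)) (C.cons (nat_lit 394) (C.miq (nat_lit 878801064) (nat_lit 99139185268635188792002433)) (C.cons (nat_lit 392) (C.node (nat_lit 1) (nat_lit 2) (nat_lit 6) (C.cons (nat_lit 102) (C.node (nat_lit 1) (nat_lit 3) (nat_lit 6) (C.cons (nat_lit 74) (C.node (nat_lit 1) (nat_lit 6) (nat_lit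 9) (C.cons (nat_lit 578) (C.node (nat_lit 2) (nat_lit 6) (nat_lit 8) (C.cons (nat_lit 324) (C.node (nat_lit 3) (nat_lit 5) (nat_lit 6) (C.cons (nat_lit 104) (C.node (nat_lit 2) (nat_lit 3) (nat_lit 7) (C.cons (nat_lit 142) (C.miq (nat_lit 2166859344) (nat_lit 171702902959508695606953073)) (C.cons (nat_lit 140) (C.node (nat_lit 2) (nat_lit 7) (nat_lit 8) (C.cons (nat_lit 390) (C.node (nat_lit 1) (nat_lit 2) (nat_lit 9) (C.cons (nat_lit 518) (C.node (nat_lit 2) (nat_lit 3) (nat_lit 8) (C.cons (nat_lit 1292) (C.miq (nat_lit 1384777494) (nat_lit 1561953132936557747763282115)) (C.cons (nat_lit 268) (C.node (nat_lit 3) (nat_lit 8) (nat_lit 10) (C.cons (nat_lit 1288) (C.node (nat_lit 2) (nat_lit 8) (nat_lit 9) (C.cons (nat_lit 804) (C.miq (nat_lit 1366828553) (nat_lit 471495900860651925883912781)) (C.cons (nat_lit 772) (C.node (nat_lit 2) (nat_lit 5) (nat_lit 8) (C.cons (nat_lit 1316) (C.node (nat_lit 2) (nat_lit 3) (nat_lit 5) (C.cons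 (nat_lit 60) (C.miq (nat_lit 305620288) (nat_lit 169253211889853163153982577)) (C.cons (nat_lit 44) (C.node (nat_lit 2) (nat_lit 7) (nat_lit 10) (C.cons (nat_lit 1172) (C.miq (nat_lit 1129476234) (nat_lit 53214355690165018409830273)) (C.cons (nat_lit 1156) (C.node (nat_lit 4) (nat_lit 7) (nat_lit 10) (C.cons (nat_lit 1170) (C.miq (nat_lit 443107120) (nat_lit 1934291106933840799131828377)) (C.cons (nat_lit 1168) (C.node (nat_lit 1) (nat_lit 4) (nat_lit 7) (C.cons (nat_lit 178) (C.miq (nat_lit 840369748) (nat_lit 471483892167337855077713009)) (C.cons (nat_lit 146) (C.node (nat_lit 1) (nat_lit 7) (nat_lit 10) (C.cons (nat_lit 1186) (C.miq (nat_lit 1158810232) (nat_lit 123315543668842735742617473)) (C.cons (nat_lit 1154) (C.node (nat_lit 5) (nat_lit 7) (nat_lit 10) (C.cons (nat_lit 1184) (C.node (nat_lit 2) (nat_lit 3) (nat_lit 10) (C.cons (nat_lit 1036) (C.node (nat_lit 1) (nat_lit 2) (nat_lit 3) C.nil) C.nil)) C.nil)) C.nil))) C.nil)))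 C.nil))) C.nil))) C.nil))) (C.cons (nat_lit 292) (C.miq (nat_lit 2770886769) (nat_lit 353031168965032689285857475)) C.nil))) C.nil))) C.nil)) C.nil))) C.nil)) (C.cons (nat_lit 388)
  (C.miq (nat_lit 309880074) (nat_lit 469088047356710489262457969)) C.nil))) C.nil))) C.nil)) C.nil)) C.nil)) C.nil)) (C.cons (nat_lit 70) (C.node (nat_lit 2) (nat_lit 7) (nat_lit 8) (C.cons (nat_lit 390) (C.miq (nat_lit 1444022919) (nat_lit 84627851405839033877006209)) (C.cons (nat_lit 388) (C.node (nat_lit 5) (nat_lit 8) (nat_lit 10) (C.cons (nat_lit 1316) (C.miq (nat_lit 405236304) (nat_lit 469066815504441463988880497)) (C.cons (nat_lit 1312) (C.node (nat_lit 1) (nat_lit 3) (nat_lit 6) (C.cons (nat_lit 106) (C.node (nat_lit 1) (nat_lit 6) (nat_lit 9) (C.cons (nat_lit 578) (C.node (nat_lit 2) (nat_lit 3) (nat_lit 7) (C.cons (nat_lit 142) (C.node (nat_lit 5) (nat_lit 7) (nat_lit 10) (C.cons (nat_lit 1186) (C.miq (nat_lit 2534607446) (nat_lit 171678332058255281833510001))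 (C.cons (nat_lit 1184) (C.node (nat_lit 1) (nat_lit 7) (nat_lit 10) (C.cons (nat_lit 1170) (C.miq (nat_lit 2473658020) (nat_lit 171677261772174500979410033)) (C.cons (nat_lit 1154) (C.node (nat_lit 1) (nat_lit 4) (nat_lit 10) (C.cons (nat_lit 1050) (C.miq (nat_lit 1412893202) (nat_lit 184968694433851984051045383)) (C.cons (nat_lit 1042) (C.node (nat_lit 2) (nat_lit 3) (nat_lit 4) (C.cons (nat_lit 1052) (C.miq (nat_lit 1131848208) (nat_lit 1479746177452430202998293511)) (C.cons (nat_lit 60) (C.miq (nat_lit 1175670898) (nat_lit 128147244003833001139896485)) (C.cons (nat_lit 28) (C.node (nat_lit 2) (nat_lit 3) (nat_lit 5) (C.cons (nat_lit 1068) (C.miq (nat_lit 1400283664) (nat_lit 1479746177456933802625664007)) (C.cons (nat_lit 44) (C.node (nat_lit 3) (nat_lit 4) (nat_lit 10) (C.cons (nat_lit 1560) (C.miq (nat_lit 1130470000) (nat_lit 128155932539360053012137857)) (C.cons (nat_lit 1048) (C.node (nat_lit 3) (nat_lit 5) (nat_lit 10)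 (C.cons (nat_lit 1576) (C.miq (nat_lit 2467800416) (nat_lit 171702903024247957432239217)) (C.cons (nat_lit 1064) (C.node (nat_lit 1) (nat_lit 2) (nat_lit 4) (C.cons (nat_lit 54) (C.node (nat_lit 1) (nat_lit 2) (nat_lit 8) (C.cons (nat_lit 774) (C.miq (nat_lit 631772169) (nat_lit 1586124953129511060653539859)) (C.cons (nat_lit 262) (C.node (nat_lit 1) (nat_lit 2) (nat_lit 9) (C.cons (nat_lit 518) (C.node (nat_lit 1) (nat_lit 5) (nat_lit 10) (C.cons (nat_lit 1570) (C.miq (nat_lit 2435360064) (nat_lit 316774001376314385203790961)) (C.cons (nat_lit 1058) (C.node (nat_lit 1) (nat_lit 7) (nat_lit 9) (C.cons (nat_lit 674) (C.miq (nat_lit 2270300436) (nat_lit 199477870525238556444983827)) (C.cons (nat_lit 642) (C.node (nat_lit 1) (nat_lit 5) (nat_lit 7) (C.cons (nat_lit 418) (C.miq (nat_lit 2555578134) (nat_lit 359061834098519505378083011)) C.nil)) C.nil))) C.nil))) C.nil)) C.nil))) (C.cons (nat_lit 22) (C.node (nat_lit 2) (nat_lit 7)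 (nat_lit 10) (C.cons (nat_lit 1172) (C.miq (nat_lit 1361339258) (nat_lit 26617342009370607097218248)) (C.cons (nat_lit 1156) (C.node (nat_lit 4) (nat_lit 7) (nat_lit 10) (C.cons (nat_lit 1168) (C.node (nat_lit 1) (nat_lit 4) (nat_lit 5) (C.cons (nat_lit 434) (C.miq (nat_lit 2184265829) (nat_lit 171675472350176431045215345)) (C.cons (nat_lit 306) (C.miq (nat_lit 2184265829) (nat_lit 171673111166934996222608497)) (C.cons (nat_lit 178) (C.miq (nat_lit 1094080288) (nat_lit 128167110877265656057495717)) (C.cons (nat_lit 50) (C.node (nat_lit 1) (nat_lit 3) (nat_lit 4) (C.cons (nat_lit 282) (C.node (nat_lit 1) (nat_lit 4) (nat_lit 7) (C.cons (nat_lit 146) (C.node (nat_lit 2) (nat_lit 3) (nat_lit 10) C.nil) C.nil)) (C.cons (nat_lit 26) (C.node (nat_lit 1) (nat_lit 3) (nat_lit 10) (C.cons (nat_lit 1546) (C.node (nat_lit 1) (nat_lit 5) (nat_lit 10) C.nil) C.nil)) C.nil))) C.nil))))) C.nil)) C.nil))) C.nil))) C.nil))) C.nil))) C.nil))) C.nil))))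 C.nil))) C.nil))) C.nil))) (C.cons (nat_lit 140) (C.node (nat_lit 1) (nat_lit 3) (nat_lit 7) (C.cons (nat_lit 650) (C.miq (nat_lit 1177619065) (nat_lit 128155932420296137893349249)) (C.cons (nat_lit 138) (C.node (nat_lit 5) (nat_lit 7) (nat_lit 10) (C.cons (nat_lit 1186) (C.miq (nat_lit 2534607446) (nat_lit 166842628779796765134685297)) (C.cons (nat_lit 1184)
  (C.node (nat_lit 1) (nat_lit 7) (nat_lit 10) (C.cons (nat_lit 1170) (C.miq (nat_lit 2473658020) (nat_lit 166841558493715984280585329)) (C.cons (nat_lit 1154) (C.node (nat_lit 1) (nat_lit 4) (nat_lit 10) (C.cons (nat_lit 1050) (C.node (nat_lit 1) (nat_lit 2) (nat_lit 3) (C.cons (nat_lit 270) (C.miq (nat_lit 560235344) (nat_lit 99137027032506708924629289)) (C.cons (nat_lit 14) (C.node (nat_lit 1) (nat_lit 3) (nat_lit 8) (C.cons (nat_lit 778) (C.miq (nat_lit 1518428307) (nat_lit 1627216108876207981570163277)) (C.cons (nat_lit 266) (C.node (nat_lit 1) (nat_lit 3) (nat_lit 9)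 (C.cons (nat_lit 522) (C.node (nat_lit 3) (nat_lit 9) (nat_lit 10) (C.cons (nat_lit 1576) (C.miq (nat_lit 2467800416) (nat_lit 166867199745789440733414513)) (C.cons (nat_lit 1544) (C.node (nat_lit 1) (nat_lit 5) (nat_lit 10) (C.cons (nat_lit 1570) (C.node (nat_lit 3) (nat_lit 5) (nat_lit 7) (C.cons (nat_lit 680) (C.miq (nat_lit 2170136119) (nat_lit 1898048973369199174300992712)) (C.cons (nat_lit 168) (C.node (nat_lit 3) (nat_lit 7) (nat_lit 9) (C.cons (nat_lit 648) (C.node (nat_lit 1) (nat_lit 7) (nat_lit 9) (C.cons (nat_lit 646) (C.node (nat_lit 1) (nat_lit 5) (nat_lit 7) (C.cons (nat_lit 434) (C.miq (nat_lit 559126400) (nat_lit 128157002193244806435112833)) (C.cons (nat_lit 418) (C.miq (nat_lit 559126400) (nat_lit 128157002193244737715636097)) (C.cons (nat_lit 178) (C.miq (nat_lit 1651837204) (nat_lit 199493734350217157429821971)) C.nil)))) (C.cons (nat_lit 642) (C.node (nat_lit 1) (nat_lit 2) (nat_lit 7) C.nil) C.nil))) C.nil))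 C.nil))) (C.cons (nat_lit 1058) (C.node (nat_lit 1) (nat_lit 9) (nat_lit 10) C.nil) C.nil))) C.nil))) C.nil)) C.nil))) C.nil))) (C.cons (nat_lit 1042) (C.node (nat_lit 1) (nat_lit 3) (nat_lit 10) (C.cons (nat_lit 1546) (C.node (nat_lit 1) (nat_lit 5) (nat_lit 10) (C.cons (nat_lit 1058) (C.node (nat_lit 2) (nat_lit 8) (nat_lit 10) (C.cons (nat_lit 1292) (C.miq (nat_lit 444896032) (nat_lit 1566777657876828413301686861)) (C.cons (nat_lit 1284) (C.node (nat_lit 3) (nat_lit 8) (nat_lit 10) (C.cons (nat_lit 1288) (C.node (nat_lit 2) (nat_lit 3) (nat_lit 8) (C.cons (nat_lit 270) (C.miq (nat_lit 560235344) (nat_lit 99137027032506708924629289)) (C.cons (nat_lit 268) (C.node (nat_lit 1) (nat_lit 2) (nat_lit 3) (C.cons (nat_lit 30) (C.miq (nat_lit 2316568882) (nat_lit 1259705814327272087872209485)) (C.cons (nat_lit 14) (C.node (nat_lit 3) (nat_lit 5) (nat_lit 7) (C.cons (nat_lit 680) (C.miq (nat_lit 557124247) (nat_lit 128149180882130195647563649))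 (C.cons (nat_lit 168) (C.node (nat_lit 3) (nat_lit 7) (nat_lit 9) (C.cons (nat_lit 648) (C.node (nat_lit 3) (nat_lit 8) (nat_lit 9) (C.cons (nat_lit 792) (C.miq (nat_lit 1108574377) (nat_lit 16939571373884183172220801)) (C.cons (nat_lit 776) (C.node (nat_lit 1) (nat_lit 7) (nat_lit 8) (C.cons (nat_lit 434) (C.miq (nat_lit 2184265829) (nat_lit 16932967439503896682824817)) C.nil)) C.nil))) C.nil)) C.nil))) C.nil))) C.nil))) C.nil)) C.nil))) C.nil)) (C.cons (nat_lit 1034) (C.node (nat_lit 1) (nat_lit 3) (nat_lit 9) (C.cons (nat_lit 778) (C.miq (nat_lit 1518428307) (nat_lit 1627216108876207981570163277)) (C.cons (nat_lit 522) (C.node (nat_lit 3) (nat_lit 9) (nat_lit 10) (C.cons (nat_lit 1576) (C.miq (nat_lit 2467800416) (nat_lit 166867199745789440733414513)) (C.cons (nat_lit 1560) (C.miq (nat_lit 1130470000) (nat_lit 128155932539360053012137857)) (C.cons (nat_lit 1544) (C.node (nat_lit 1) (nat_lit 5) (nat_lit 10) (C.cons (nat_lit 1570)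 (C.node (nat_lit 3) (nat_lit 5) (nat_lit 7) (C.cons (nat_lit 680) (C.miq (nat_lit 2170136119) (nat_lit 1898048973369199174300992712)) (C.cons (nat_lit 168) (C.node (nat_lit 3) (nat_lit 7) (nat_lit 9) (C.cons (nat_lit 648) (C.node (nat_lit 1) (nat_lit 7) (nat_lit 9) (C.cons (nat_lit 646) (C.node (nat_lit 1) (nat_lit 8) (nat_lit 9) C.nil) C.nil)) C.nil)) C.nil))) (C.cons (nat_lit 1058) (C.node (nat_lit 1) (nat_lit 9) (nat_lit 10) (C.cons (nat_lit 1538) (C.node (nat_lit 2) (nat_lit 5) (nat_lit 6) (C.cons (nat_lit 356) (C.node (nat_lit 3) (nat_lit 4) (nat_lit 6)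
  (C.cons (nat_lit 344) (C.miq (nat_lit 674715200) (nat_lit 473901965101913367748609137)) (C.cons (nat_lit 88) (C.node (nat_lit 3) (nat_lit 6) (nat_lit 8) C.nil) C.nil))) (C.cons (nat_lit 100) (C.node (nat_lit 2) (nat_lit 6) (nat_lit 8) (C.cons (nat_lit 324) (C.node (nat_lit 2) (nat_lit 7) (nat_lit 10) C.nil) C.nil)) C.nil))) C.nil)) C.nil))) C.nil)))) C.nil))) C.nil))) C.nil))) C.nil))) C.nil))) C.nil))) C.nil))) C.nil)) (C.cons (nat_lit 74) (C.node (nat_lit 3) (nat_lit 5) (nat_lit 6) (C.cons (nat_lit 104) (C.node (nat_lit 1) (nat_lit 5) (nat_lit 6) (C.cons (nat_lit 610) (C.node (nat_lit 5) (nat_lit 6) (nat_lit 7) (C.cons (nat_lit 480) (C.miq (nat_lit 560269959) (nat_lit 737447793967902440692909953)) (C.cons (nat_lit 224) (C.node (nat_lit 1) (nat_lit 9) (nat_lit 10) (C.cons (nat_lit 1546) (C.node (nat_lit 1) (nat_lit 4) (nat_lit 10) (C.cons (nat_lit 1170) (C.miq (nat_lit 1905501190) (nat_lit 1869021896268290928004629617)) (C.cons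 (nat_lit 1042) (C.node (nat_lit 2) (nat_lit 8) (nat_lit 10) (C.cons (nat_lit 1292) (C.miq (nat_lit 444896032) (nat_lit 1566777657876828413301686861)) (C.cons (nat_lit 1284) (C.node (nat_lit 3) (nat_lit 8) (nat_lit 10) (C.cons (nat_lit 1288) (C.node (nat_lit 3) (nat_lit 8) (nat_lit 9) (C.cons (nat_lit 792) (C.miq (nat_lit 674890897) (nat_lit 1557115474334754341833540115)) (C.cons (nat_lit 776) (C.node (nat_lit 3) (nat_lit 4) (nat_lit 9) (C.cons (nat_lit 568) (C.miq (nat_lit 1905460820) (nat_lit 1869002139530950222082999409)) (C.cons (nat_lit 536) (C.node (nat_lit 1) (nat_lit 5) (nat_lit 10) (C.cons (nat_lit 1186) (C.node (nat_lit 1) (nat_lit 3) (nat_lit 7) (C.cons (nat_lit 142) (C.miq (nat_lit 1378971802) (nat_lit 171689344270194663330809729)) (C.cons (nat_lit 138) (C.node (nat_lit 2) (nat_lit 3) (nat_lit 7) (C.cons (nat_lit 140) (C.node (nat_lit 1) (nat_lit 7) (nat_lit 9) (C.cons (nat_lit 646) (C.miq (nat_lit 1361487760) (nat_lit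 84645781654867946955933569)) (C.cons (nat_lit 642) (C.node (nat_lit 2) (nat_lit 3) (nat_lit 8) (C.cons (nat_lit 270) (C.miq (nat_lit 1378971802) (nat_lit 326431849180867197693200257)) (C.cons (nat_lit 268) (C.node (nat_lit 3) (nat_lit 6) (nat_lit 8) C.nil) C.nil))) C.nil))) C.nil)) C.nil))) (C.cons (nat_lit 1058) (C.node (nat_lit 1) (nat_lit 7) (nat_lit 10) (C.cons (nat_lit 1154) (C.node (nat_lit 5) (nat_lit 7) (nat_lit 10) (C.cons (nat_lit 1184) (C.node (nat_lit 1) (nat_lit 7) (nat_lit 9) (C.cons (nat_lit 646) (C.node (nat_lit 1) (nat_lit 8) (nat_lit 9) (C.cons (nat_lit 770) (C.node (nat_lit 2) (nat_lit 3) (nat_lit 7) (C.cons (nat_lit 140) (C.node (nat_lit 2) (nat_lit 3) (nat_lit 8) C.nil) C.nil)) C.nil)) (C.cons (nat_lit 642) (C.node (nat_lit 1) (nat_lit 2) (nat_lit 9) (C.cons (nat_lit 774) (C.node (nat_lit 2) (nat_lit 3) (nat_lit 8) (C.cons (nat_lit 268) (C.node (nat_lit 1) (nat_lit 3) (nat_lit 8) C.nil) C.nil)) (C.cons (nat_lit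 518) (C.node (nat_lit 1) (nat_lit 8) (nat_lit 9) (C.cons (nat_lit 770) (C.node (nat_lit 2) (nat_lit 3) (nat_lit 8) C.nil) C.nil)) C.nil))) C.nil))) C.nil)) C.nil)) C.nil))) C.nil))) C.nil))) C.nil)) C.nil))) C.nil))) (C.cons (nat_lit 1538) (C.node (nat_lit 2) (nat_lit 3) (nat_lit 7) (C.cons (nat_lit 142) (C.node (nat_lit 1) (nat_lit 7) (nat_lit 9) (C.cons (nat_lit 642) (C.node (nat_lit 5) (nat_lit 7) (nat_lit 10) (C.cons (nat_lit 1186) (C.miq (nat_lit 1463197984) (nat_lit 1479746177490147849903342599)) (C.cons (nat_lit 1184) (C.node (nat_lit 1) (nat_lit 7) (nat_lit 10) (C.cons (nat_lit 1170) (C.miq (nat_lit 924412480) (nat_lit 776141241669381741727646833)) (C.cons (nat_lit 1154) (C.node (nat_lit 1) (nat_lit 4) (nat_lit 10) (C.cons (nat_lit 1050) (C.miq (nat_lit 1412893202) (nat_lit 184968694433851984051045383)) (C.cons (nat_lit 1042) (C.node (nat_lit 2) (nat_lit 3) (nat_lit 4) (C.cons (nat_lit 1052) (C.miq (nat_lit 1131848208)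 (nat_lit 1479746177452430202998293511)) (C.cons (nat_lit 60) (C.miq (nat_lit 1175670898) (nat_lit 89461617776164867549298853)) (C.cons (nat_lit 28) (C.node (nat_lit 2) (nat_lit 3) (nat_lit 5) (C.cons (nat_lit 1068)
  (C.miq (nat_lit 1400283664) (nat_lit 1479746177456933802625664007)) (C.cons (nat_lit 44) (C.node (nat_lit 3) (nat_lit 4) (nat_lit 10) (C.cons (nat_lit 1560) (C.miq (nat_lit 1130470000) (nat_lit 89470306311691919421540225)) (C.cons (nat_lit 1048) (C.node (nat_lit 1) (nat_lit 2) (nat_lit 4) (C.cons (nat_lit 54) (C.node (nat_lit 1) (nat_lit 2) (nat_lit 8) (C.cons (nat_lit 774) (C.miq (nat_lit 2219909225) (nat_lit 65296272117076478593729101)) (C.cons (nat_lit 262) (C.node (nat_lit 1) (nat_lit 2) (nat_lit 9) C.nil) C.nil))) (C.cons (nat_lit 22) (C.node (nat_lit 1) (nat_lit 2) (nat_lit 5) (C.cons (nat_lit 294) (C.node (nat_lit 1) (nat_lit 2) (nat_lit 9) C.nil) (C.cons (nat_lit 38) (C.node (nat_lit 1) (nat_lit 2) (nat_lit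 8) C.nil) C.nil))) C.nil))) C.nil))) C.nil))) C.nil)))) C.nil))) C.nil))) C.nil))) C.nil)) (C.cons (nat_lit 140) (C.node (nat_lit 2) (nat_lit 5) (nat_lit 6) (C.cons (nat_lit 356) (C.node (nat_lit 3) (nat_lit 4) (nat_lit 6) (C.cons (nat_lit 344) (C.miq (nat_lit 674715200) (nat_lit 473901965101913367748609137)) (C.cons (nat_lit 88) (C.node (nat_lit 3) (nat_lit 6) (nat_lit 8) (C.cons (nat_lit 328) (C.node (nat_lit 5) (nat_lit 8) (nat_lit 9) (C.cons (nat_lit 816) (C.miq (nat_lit 361010720) (nat_lit 986493264198341811152159309)) (C.cons (nat_lit 800) (C.node (nat_lit 6) (nat_lit 8) (nat_lit 9) (C.cons (nat_lit 848) (C.miq (nat_lit 354457220) (nat_lit 199482555629218218418438992)) (C.cons (nat_lit 832) (C.node (nat_lit 1) (nat_lit 7) (nat_lit 8) (C.cons (nat_lit 434) (C.miq (nat_lit 678651200) (nat_lit 473909786521401007145550961)) (C.cons (nat_lit 418) (C.miq (nat_lit 1096288610) (nat_lit 505336102496489245159719501)) (C.cons (nat_lit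 402) (C.miq (nat_lit 1480679945) (nat_lit 485999432099172172508103245)) C.nil)))) C.nil))) C.nil))) C.nil)) C.nil))) (C.cons (nat_lit 100) (C.node (nat_lit 2) (nat_lit 6) (nat_lit 8) (C.cons (nat_lit 324) (C.node (nat_lit 5) (nat_lit 6) (nat_lit 8) (C.cons (nat_lit 352) (C.node (nat_lit 2) (nat_lit 7) (nat_lit 10) (C.cons (nat_lit 1172) (C.node (nat_lit 4) (nat_lit 9) (nat_lit 10) (C.cons (nat_lit 1560) (C.miq (nat_lit 1130470000) (nat_lit 89470306311691919421540225)) (C.cons (nat_lit 1552) (C.node (nat_lit 1) (nat_lit 2) (nat_lit 7) (C.cons (nat_lit 646) (C.node (nat_lit 1) (nat_lit 7) (nat_lit 10) (C.cons (nat_lit 1186) (C.miq (nat_lit 1361487760) (nat_lit 84645781654867946955933569)) (C.cons (nat_lit 1154) (C.node (nat_lit 5) (nat_lit 7) (nat_lit 10) (C.cons (nat_lit 1184) (C.node (nat_lit 2) (nat_lit 9) (nat_lit 10) (C.cons (nat_lit 1572) (C.miq (nat_lit 1377216880) (nat_lit 84645781763517287940425601)) C.nil)) C.nil)) C.nil)))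 (C.cons (nat_lit 134) (C.node (nat_lit 2) (nat_lit 7) (nat_lit 9) (C.cons (nat_lit 644) (C.node (nat_lit 3) (nat_lit 4) (nat_lit 6) (C.cons (nat_lit 88) (C.node (nat_lit 3) (nat_lit 6) (nat_lit 8) (C.cons (nat_lit 328) (C.node (nat_lit 6) (nat_lit 7) (nat_lit 8) C.nil) C.nil)) C.nil)) C.nil)) C.nil))) C.nil))) (C.cons (nat_lit 1156) (C.node (nat_lit 4) (nat_lit 7) (nat_lit 10) (C.cons (nat_lit 1170) (C.miq (nat_lit 443107120) (nat_lit 1934291106933840799131828377)) (C.cons (nat_lit 1168) (C.node (nat_lit 1) (nat_lit 4) (nat_lit 10) (C.cons (nat_lit 1050) (C.node (nat_lit 1) (nat_lit 5) (nat_lit 10) (C.cons (nat_lit 1186) (C.node (nat_lit 1) (nat_lit 3) (nat_lit 5) (C.cons (nat_lit 46) (C.miq (nat_lit 2584938322) (nat_lit 1269382976268338572462784677)) (C.cons (nat_lit 42) (C.node (nat_lit 1) (nat_lit 3) (nat_lit 7) (C.cons (nat_lit 650) (C.miq (nat_lit 1662298000) (nat_lit 1269393084887900604459059073)) (C.cons (nat_lit 138) (C.node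 (nat_lit 1) (nat_lit 2) (nat_lit 3) C.nil) C.nil))) C.nil))) (C.cons (nat_lit 1058) (C.node (nat_lit 1) (nat_lit 7) (nat_lit 10) C.nil) C.nil))) (C.cons (nat_lit 1042) (C.node (nat_lit 1) (nat_lit 3) (nat_lit 10) (C.cons (nat_lit 1066) (C.node (nat_lit 1) (nat_lit 7) (nat_lit 10) C.nil) (C.cons (nat_lit 1034) (C.node (nat_lit 1) (nat_lit 5) (nat_lit 10) (C.cons (nat_lit 1058)
  (C.node (nat_lit 1) (nat_lit 7) (nat_lit 10) C.nil) C.nil)) C.nil))) C.nil))) C.nil))) C.nil))) C.nil)) C.nil)) C.nil))) C.nil))) C.nil))) C.nil))) (C.cons (nat_lit 98) (C.node (nat_lit 1) (nat_lit 6) (nat_lit 9) (C.cons (nat_lit 578) (C.node (nat_lit 2) (nat_lit 3) (nat_lit 7) (C.cons (nat_lit 142) (C.node (nat_lit 5) (nat_lit 7) (nat_lit 10) (C.cons (nat_lit 1186) (C.miq (nat_lit 1463197984) (nat_lit 1479746177490147849903342599)) (C.cons (nat_lit 1184) (C.node (nat_lit 1) (nat_lit 7) (nat_lit 10) (C.cons (nat_lit 1170) (C.miq (nat_lit 2473658020) (nat_lit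 171677261772174500979410033)) (C.cons (nat_lit 1154) (C.node (nat_lit 1) (nat_lit 4) (nat_lit 10) (C.cons (nat_lit 1050) (C.miq (nat_lit 1412893202) (nat_lit 184968694433851984051045383)) (C.cons (nat_lit 1042) (C.node (nat_lit 2) (nat_lit 3) (nat_lit 4) (C.cons (nat_lit 1052) (C.miq (nat_lit 1131848208) (nat_lit 1479746177452430202998293511)) (C.cons (nat_lit 60) (C.miq (nat_lit 1175670898) (nat_lit 89461617776164867549298853)) (C.cons (nat_lit 28) (C.node (nat_lit 2) (nat_lit 3) (nat_lit 5) (C.cons (nat_lit 1068) (C.miq (nat_lit 1400283664) (nat_lit 1479746177456933802625664007)) (C.cons (nat_lit 44) (C.node (nat_lit 3) (nat_lit 4) (nat_lit 10) (C.cons (nat_lit 1560) (C.miq (nat_lit 1130470000) (nat_lit 89470306311691919421540225)) (C.cons (nat_lit 1048) (C.node (nat_lit 1) (nat_lit 2) (nat_lit 4) (C.cons (nat_lit 54) (C.node (nat_lit 1) (nat_lit 2) (nat_lit 8) (C.cons (nat_lit 774) (C.miq (nat_lit 631772169) (nat_lit 1586124953129511060653539859))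 (C.cons (nat_lit 262) (C.node (nat_lit 1) (nat_lit 2) (nat_lit 9) (C.cons (nat_lit 518) (C.node (nat_lit 1) (nat_lit 7) (nat_lit 9) (C.cons (nat_lit 674) (C.miq (nat_lit 2270300436) (nat_lit 199477870525238556444983827)) C.nil)) C.nil)) C.nil))) (C.cons (nat_lit 22) (C.node (nat_lit 1) (nat_lit 7) (nat_lit 9) (C.cons (nat_lit 674) (C.node (nat_lit 3) (nat_lit 5) (nat_lit 7) (C.cons (nat_lit 168) (C.node (nat_lit 3) (nat_lit 7) (nat_lit 9) (C.cons (nat_lit 648) (C.node (nat_lit 1) (nat_lit 5) (nat_lit 10) (C.cons (nat_lit 1066) (C.node (nat_lit 1) (nat_lit 9) (nat_lit 10) C.nil) C.nil)) C.nil)) C.nil)) (C.cons (nat_lit 642) (C.node (nat_lit 2) (nat_lit 3) (nat_lit 8) (C.cons (nat_lit 1292) (C.node (nat_lit 1) (nat_lit 3) (nat_lit 10) (C.cons (nat_lit 1578) (C.miq (nat_lit 321165952) (nat_lit 33859718614485819028998017)) (C.cons (nat_lit 1546) (C.miq (nat_lit 321165952) (nat_lit 33859718605478619774257025)) (C.cons (nat_lit 1066)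 (C.node (nat_lit 1) (nat_lit 9) (nat_lit 10) C.nil) C.nil)))) (C.cons (nat_lit 268) (C.node (nat_lit 2) (nat_lit 3) (nat_lit 10) C.nil) C.nil))) C.nil))) C.nil))) C.nil))) C.nil))) C.nil)))) C.nil))) C.nil))) C.nil))) (C.cons (nat_lit 140) (C.node (nat_lit 2) (nat_lit 5) (nat_lit 6) (C.cons (nat_lit 356) (C.node (nat_lit 3) (nat_lit 4) (nat_lit 6) (C.cons (nat_lit 344) (C.miq (nat_lit 674715200) (nat_lit 473901965101913367748609137)) (C.cons (nat_lit 88) (C.node (nat_lit 3) (nat_lit 6) (nat_lit 8) (C.cons (nat_lit 328) (C.node (nat_lit 2) (nat_lit 7) (nat_lit 10) (C.cons (nat_lit 1172) (C.node (nat_lit 4) (nat_lit 9) (nat_lit 10) (C.cons (nat_lit 1560) (C.miq (nat_lit 1130470000) (nat_lit 89470306311691919421540225)) (C.cons (nat_lit 1552) (C.node (nat_lit 1) (nat_lit 2) (nat_lit 7) (C.cons (nat_lit 646) (C.node (nat_lit 2) (nat_lit 8) (nat_lit 9) (C.cons (nat_lit 772) (C.node (nat_lit 1) (nat_lit 7) (nat_lit 10) (C.cons (nat_lit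 1186) (C.miq (nat_lit 1361487760) (nat_lit 84645781654867946955933569)) (C.cons (nat_lit 1154) (C.node (nat_lit 5) (nat_lit 7) (nat_lit 10) (C.cons (nat_lit 1184) (C.node (nat_lit 2) (nat_lit 4) (nat_lit 9) (C.cons (nat_lit 564) (C.miq (nat_lit 1383483664) (nat_lit 236970434751233787429061139)) (C.cons (nat_lit 532) (C.node (nat_lit 2) (nat_lit 5) (nat_lit 9) (C.cons (nat_lit 1572) (C.miq (nat_lit 1377216880) (nat_lit 84645781763517287940425601)) (C.cons (nat_lit 548) (C.node (nat_lit 2) (nat_lit 9) (nat_lit 10) (C.cons (nat_lit 1540)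
  (C.node (nat_lit 1) (nat_lit 4) (nat_lit 10) C.nil) C.nil)) C.nil))) C.nil))) C.nil)) C.nil))) C.nil)) (C.cons (nat_lit 134) (C.node (nat_lit 2) (nat_lit 7) (nat_lit 9) (C.cons (nat_lit 644) (C.node (nat_lit 1) (nat_lit 4) (nat_lit 10) (C.cons (nat_lit 1050) (C.node (nat_lit 2) (nat_lit 3) (nat_lit 4) (C.cons (nat_lit 60) (C.miq (nat_lit 2267220549) (nat_lit 169255093969756440162468977)) (C.cons (nat_lit 28) (C.node (nat_lit 3) (nat_lit 4) (nat_lit 5) C.nil) C.nil))) (C.cons (nat_lit 1042) (C.node (nat_lit 3) (nat_lit 4) (nat_lit 10) (C.cons (nat_lit 1048) (C.node (nat_lit 1) (nat_lit 7) (nat_lit 10) (C.cons (nat_lit 1186) (C.node (nat_lit 1) (nat_lit 3) (nat_lit 10) C.nil) (C.cons (nat_lit 1154) (C.node (nat_lit 5) (nat_lit 7) (nat_lit 10) C.nil) C.nil))) C.nil)) C.nil))) C.nil)) C.nil))) C.nil))) (C.cons (nat_lit 1156) (C.node (nat_lit 4) (nat_lit 7) (nat_lit 10) (C.cons (nat_lit 1170) (C.miq (nat_lit 443107120) (nat_lit 1934291106933840799131828377))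 (C.cons (nat_lit 1168) (C.node (nat_lit 1) (nat_lit 4) (nat_lit 10) (C.cons (nat_lit 1050) (C.node (nat_lit 1) (nat_lit 7) (nat_lit 10) (C.cons (nat_lit 1186) (C.node (nat_lit 1) (nat_lit 9) (nat_lit 10) (C.cons (nat_lit 1538) (C.node (nat_lit 1) (nat_lit 3) (nat_lit 7) (C.cons (nat_lit 650) (C.miq (nat_lit 1662298000) (nat_lit 1269393084887900604459059073)) (C.cons (nat_lit 138) (C.node (nat_lit 2) (nat_lit 3) (nat_lit 4) C.nil) C.nil))) C.nil)) (C.cons (nat_lit 1154) (C.node (nat_lit 5) (nat_lit 7) (nat_lit 10) (C.cons (nat_lit 1184) (C.node (nat_lit 1) (nat_lit 5) (nat_lit 10) (C.cons (nat_lit 1570) (C.node (nat_lit 3) (nat_lit 9) (nat_lit 10) C.nil) (C.cons (nat_lit 1058) (C.node (nat_lit 1) (nat_lit 9) (nat_lit 10) C.nil) C.nil))) C.nil)) C.nil))) (C.cons (nat_lit 1042) (C.node (nat_lit 1) (nat_lit 7) (nat_lit 10) (C.cons (nat_lit 1186) (C.node (nat_lit 1) (nat_lit 3) (nat_lit 7) (C.cons (nat_lit 650) (C.miq (nat_lit 1177619065)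 (nat_lit 89470306192628004302751617)) (C.cons (nat_lit 138) (C.node (nat_lit 1) (nat_lit 7) (nat_lit 9) (C.cons (nat_lit 646) (C.miq (nat_lit 1361487760) (nat_lit 84645781654867946955933569)) (C.cons (nat_lit 642) (C.node (nat_lit 5) (nat_lit 6) (nat_lit 7) C.nil) C.nil))) C.nil))) (C.cons (nat_lit 1154) (C.node (nat_lit 5) (nat_lit 7) (nat_lit 10) (C.cons (nat_lit 1184) (C.node (nat_lit 5) (nat_lit 6) (nat_lit 7) (C.cons (nat_lit 224) (C.node (nat_lit 6) (nat_lit 7) (nat_lit 8) C.nil) C.nil)) C.nil)) C.nil))) C.nil))) C.nil))) C.nil))) C.nil)) C.nil))) (C.cons (nat_lit 100) (C.node (nat_lit 2) (nat_lit 6) (nat_lit 8) (C.cons (nat_lit 324) (C.node (nat_lit 2) (nat_lit 7) (nat_lit 10) (C.cons (nat_lit 1172) (C.node (nat_lit 4) (nat_lit 9) (nat_lit 10) (C.cons (nat_lit 1560) (C.miq (nat_lit 1130470000) (nat_lit 89470306311691919421540225)) (C.cons (nat_lit 1552) (C.node (nat_lit 1) (nat_lit 2) (nat_lit 7) (C.cons (nat_lit 646) (C.node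 (nat_lit 1) (nat_lit 7) (nat_lit 10) (C.cons (nat_lit 1186) (C.miq (nat_lit 1361487760) (nat_lit 84645781654867946955933569)) (C.cons (nat_lit 1154) (C.node (nat_lit 5) (nat_lit 7) (nat_lit 10) (C.cons (nat_lit 1184) (C.node (nat_lit 2) (nat_lit 4) (nat_lit 9) (C.cons (nat_lit 564) (C.miq (nat_lit 1383483664) (nat_lit 236970434751233787429061139)) (C.cons (nat_lit 532) (C.node (nat_lit 2) (nat_lit 9) (nat_lit 10) (C.cons (nat_lit 1572) (C.miq (nat_lit 1377216880) (nat_lit 84645781763517287940425601)) (C.cons (nat_lit 1540) (C.node (nat_lit 4) (nat_lit 7) (nat_lit 9) (C.cons (nat_lit 720) (C.miq (nat_lit 1192913184) (nat_lit 1395121369985958633219228237)) (C.cons (nat_lit 688) (C.miq (nat_lit 1462389008) (nat_lit 1416882034730014759109198355)) (C.cons (nat_lit 656) (C.node (nat_lit 6) (nat_lit 7) (nat_lit 9) (C.cons (nat_lit 736) (C.miq (nat_lit 1461348640) (nat_lit 1395121369990462232846598733)) (C.cons (nat_lit 704) (C.node (nat_lit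 5) (nat_lit 6) (nat_lit 7) (C.cons (nat_lit 480) (C.miq (nat_lit 374515824) (nat_lit 120911600933470292265994113)) C.nil)) C.nil))) C.nil)))) C.nil))) C.nil))) C.nil)) C.nil)))
  (C.cons (nat_lit 134) (C.node (nat_lit 2) (nat_lit 7) (nat_lit 9) (C.cons (nat_lit 644) (C.node (nat_lit 1) (nat_lit 4) (nat_lit 10) (C.cons (nat_lit 1050) (C.node (nat_lit 2) (nat_lit 3) (nat_lit 4) (C.cons (nat_lit 60) (C.miq (nat_lit 2267220549) (nat_lit 169255093969756440162468977)) (C.cons (nat_lit 28) (C.node (nat_lit 1) (nat_lit 2) (nat_lit 4) (C.cons (nat_lit 54) (C.node (nat_lit 2) (nat_lit 4) (nat_lit 9) (C.cons (nat_lit 532) (C.node (nat_lit 1) (nat_lit 2) (nat_lit 3) C.nil) C.nil)) (C.cons (nat_lit 22) (C.node (nat_lit 2) (nat_lit 4) (nat_lit 5) (C.cons (nat_lit 564) (C.node (nat_lit 2) (nat_lit 9) (nat_lit 10) C.nil) C.nil)) C.nil))) C.nil))) (C.cons (nat_lit 1042) (C.node (nat_lit 3) (nat_lit 4) (nat_lit 10) (C.cons (nat_lit 1048) (C.node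 (nat_lit 1) (nat_lit 7) (nat_lit 10) (C.cons (nat_lit 1186) (C.node (nat_lit 1) (nat_lit 3) (nat_lit 7) (C.cons (nat_lit 650) (C.miq (nat_lit 1177619065) (nat_lit 89470306192628004302751617)) (C.cons (nat_lit 138) (C.node (nat_lit 1) (nat_lit 7) (nat_lit 9) (C.cons (nat_lit 642) (C.node (nat_lit 1) (nat_lit 3) (nat_lit 10) C.nil) C.nil)) C.nil))) (C.cons (nat_lit 1154) (C.node (nat_lit 5) (nat_lit 7) (nat_lit 10) (C.cons (nat_lit 1184) (C.node (nat_lit 3) (nat_lit 4) (nat_lit 6) C.nil) C.nil)) C.nil))) C.nil)) C.nil))) C.nil)) C.nil))) C.nil))) (C.cons (nat_lit 1156) (C.node (nat_lit 4) (nat_lit 7) (nat_lit 10) (C.cons (nat_lit 1170) (C.miq (nat_lit 443107120) (nat_lit 1934291106933840799131828377)) (C.cons (nat_lit 1168) (C.node (nat_lit 1) (nat_lit 4) (nat_lit 10) (C.cons (nat_lit 1050) (C.node (nat_lit 1) (nat_lit 7) (nat_lit 10) (C.cons (nat_lit 1186) (C.node (nat_lit 1) (nat_lit 9) (nat_lit 10) (C.cons (nat_lit 1538) (C.node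 (nat_lit 1) (nat_lit 3) (nat_lit 7) (C.cons (nat_lit 650) (C.miq (nat_lit 1662298000) (nat_lit 1269393084887900604459059073)) (C.cons (nat_lit 138) (C.node (nat_lit 1) (nat_lit 7) (nat_lit 9) (C.cons (nat_lit 646) (C.miq (nat_lit 1361487760) (nat_lit 84645781654867946955933569)) (C.cons (nat_lit 642) (C.node (nat_lit 1) (nat_lit 2) (nat_lit 7) (C.cons (nat_lit 150) (C.node (nat_lit 1) (nat_lit 7) (nat_lit 8) C.nil) C.nil)) C.nil))) C.nil))) C.nil)) (C.cons (nat_lit 1154) (C.node (nat_lit 5) (nat_lit 7) (nat_lit 10) (C.cons (nat_lit 1184) (C.node (nat_lit 1) (nat_lit 5) (nat_lit 10) (C.cons (nat_lit 1570) (C.node (nat_lit 3) (nat_lit 9) (nat_lit 10) (C.cons (nat_lit 1544) (C.node (nat_lit 2) (nat_lit 4) (nat_lit 10) (C.cons (nat_lit 1044) (C.node (nat_lit 2) (nat_lit 9) (nat_lit 10) C.nil) C.nil)) C.nil)) (C.cons (nat_lit 1058) (C.node (nat_lit 1) (nat_lit 9) (nat_lit 10) (C.cons (nat_lit 1538) (C.node (nat_lit 3) (nat_lit 4) (nat_lit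 6) (C.cons (nat_lit 88) (C.node (nat_lit 3) (nat_lit 6) (nat_lit 8) C.nil) C.nil)) C.nil)) C.nil))) C.nil)) C.nil))) (C.cons (nat_lit 1042) (C.node (nat_lit 1) (nat_lit 7) (nat_lit 10) (C.cons (nat_lit 1186) (C.node (nat_lit 1) (nat_lit 3) (nat_lit 7) (C.cons (nat_lit 650) (C.miq (nat_lit 1177619065) (nat_lit 89470306192628004302751617)) (C.cons (nat_lit 138) (C.node (nat_lit 1) (nat_lit 7) (nat_lit 9) (C.cons (nat_lit 646) (C.miq (nat_lit 1361487760) (nat_lit 84645781654867946955933569)) (C.cons (nat_lit 642) (C.node (nat_lit 2) (nat_lit 5) (nat_lit 10) (C.cons (nat_lit 1572) (C.miq (nat_lit 622238320) (nat_lit 118485595896976831280252801)) (C.cons (nat_lit 1068) (C.miq (nat_lit 1983189034) (nat_lit 125750163133283003961967623)) (C.cons (nat_lit 1060) (C.node (nat_lit 1) (nat_lit 2) (nat_lit 7) (C.cons (nat_lit 150) (C.node (nat_lit 1) (nat_lit 7) (nat_lit 8) C.nil) C.nil)) C.nil)))) C.nil))) C.nil))) (C.cons (nat_lit 1154) (C.node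 (nat_lit 5) (nat_lit 7) (nat_lit 10) (C.cons (nat_lit 1184) (C.node (nat_lit 2) (nat_lit 8) (nat_lit 10) (C.cons (nat_lit 1292) (C.node (nat_lit 3) (nat_lit 4) (nat_lit 10) (C.cons (nat_lit 1560) (C.miq (nat_lit 1130470000) (nat_lit 89470306311691919421540225)) (C.cons (nat_lit 1048) (C.node (nat_lit 2) (nat_lit 4) (nat_lit 10) (C.cons (nat_lit 1556)
  (C.node (nat_lit 2) (nat_lit 5) (nat_lit 10) C.nil) C.nil)) C.nil))) (C.cons (nat_lit 1284) (C.node (nat_lit 3) (nat_lit 8) (nat_lit 10) (C.cons (nat_lit 1288) (C.node (nat_lit 2) (nat_lit 3) (nat_lit 10) C.nil) C.nil)) C.nil))) C.nil)) C.nil))) C.nil))) C.nil))) C.nil))) C.nil)) C.nil))) C.nil))) C.nil)) C.nil))) C.nil)) C.nil))) C.nil))) C.nil))) C.nil))) C.nil))))) C.nil))) C.nil))) (C.cons (nat_lit 1090) (C.ref (nat_lit 159) (nat_lit 11649936536080)) C.nil))) (C.cons (nat_lit 1216) (C.ref (nat_lit 173) (nat_lit 11649936536080)) C.nil))) C.nil))) List.nil)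

theorem ok11_174 : okL par11 (nat_lit 175) c11_174 (nat_lit 174) = true := by decide +kernel

noncomputable def c11_175 : List C :=
  (List.cons (C.node (nat_lit 2) (nat_lit 4) (nat_lit 6) (C.cons (nat_lit 212) (C.node (nat_lit 2) (nat_lit 6) (nat_lit 10) (C.cons (nat_lit 1348) (C.node (nat_lit 4) (nat_lit 6) (nat_lit 9) (C.cons (nat_lit 848) (C.miq (nat_lit 308546185) (nat_lit 256302069269611015469795201)) (C.cons (nat_lit 592) (C.node (nat_lit 6) (nat_lit 7) (nat_lit 10) (C.cons (nat_lit 1224) (C.miq (nat_lit 1113786535) (nat_lit 712060130182834219708319617)) (C.cons (nat_lit 1216) (C.node (nat_lit 1) (nat_lit 2) (nat_lit 6) (C.cons (nat_lit 102) (C.node (nat_lit 2) (nat_lit 7) (nat_lit 9) (C.cons (nat_lit 646) (C.miq (nat_lit 380183815) (nat_lit 1934293228008793627028422821)) (C.cons (nat_lit 644) (C.node (nat_lit 1) (nat_lit 2) (nat_lit 9) (C.cons (nat_lit 774) (C.miq (nat_lit 1176570505) (nat_lit 123320229141838153778595713))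 (C.cons (nat_lit 518) (C.node (nat_lit 3) (nat_lit 5) (nat_lit 6) (C.cons (nat_lit 232) (C.miq (nat_lit 2187658355) (nat_lit 123315912361651546653982873)) (C.cons (nat_lit 104) (C.node (nat_lit 5) (nat_lit 8) (nat_lit 10) (C.cons (nat_lit 1314) (C.miq (nat_lit 2166990176) (nat_lit 626259011125602066069521521)) (C.cons (nat_lit 1312) (C.node (nat_lit 6) (nat_lit 7) (nat_lit 9) (C.cons (nat_lit 736) (C.miq (nat_lit 446046325) (nat_lit 1934283193241511149573243045)) (C.cons (nat_lit 704) (C.node (nat_lit 5) (nat_lit 6) (nat_lit 7) (C.cons (nat_lit 480) (C.miq (nat_lit 713363574) (nat_lit 1586112557192497947241087171)) (C.cons (nat_lit 224) (C.node (nat_lit 5) (nat_lit 6) (nat_lit 8) (C.cons (nat_lit 864) (C.miq (nat_lit 444932246) (nat_lit 1586112557192497947266253389)) (C.cons (nat_lit 352) (C.node (nat_lit 5) (nat_lit 6) (nat_lit 9) (C.cons (nat_lit 608) (C.node (nat_lit 1) (nat_lit 2) (nat_lit 7) (C.cons (nat_lit 398) (C.miq (nat_lit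 1176701575) (nat_lit 712060130424902699625351041)) (C.cons (nat_lit 390) (C.miq (nat_lit 1518493809) (nat_lit 1629633886728460945055940803)) (C.cons (nat_lit 142) (C.miq (nat_lit 810644578) (nat_lit 42315023167241042692276436)) (C.cons (nat_lit 134) (C.node (nat_lit 2) (nat_lit 7) (nat_lit 8) (C.cons (nat_lit 396) (C.miq (nat_lit 1176701575) (nat_lit 712060130424902699625219969)) (C.cons (nat_lit 388) (C.node (nat_lit 3) (nat_lit 4) (nat_lit 6) (C.cons (nat_lit 346) (C.miq (nat_lit 924926038) (nat_lit 162002442444876193028506737)) (C.cons (nat_lit 344) (C.miq (nat_lit 913671200) (nat_lit 270804862373495129403359509)) (C.cons (nat_lit 90) (C.miq (nat_lit 924926038) (nat_lit 161997720078393323383293041)) (C.cons (nat_lit 88) (C.node (nat_lit 1) (nat_lit 2) (nat_lit 4) (C.cons (nat_lit 30) (C.node (nat_lit 1) (nat_lit 2) (nat_lit 8) (C.cons (nat_lit 262) (C.node (nat_lit 2) (nat_lit 3) (nat_lit 8) (C.cons (nat_lit 268) (C.node (nat_lit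 2) (nat_lit 3) (nat_lit 7) (C.cons (nat_lit 1164) (C.miq (nat_lit 2536770081) (nat_lit 184975446162859833107022855)) (C.cons (nat_lit 140) (C.node (nat_lit 2) (nat_lit 7) (nat_lit 10) (C.cons (nat_lit 1156) (C.node (nat_lit 4) (nat_lit 7) (nat_lit 10) (C.cons (nat_lit 1170) (C.miq (nat_lit 2537753106) (nat_lit 184976516074016134030820359)) (C.cons (nat_lit 1168) (C.node (nat_lit 1) (nat_lit 4) (nat_lit 10) (C.cons (nat_lit 1298) (C.miq (nat_lit 2457929380) (nat_lit 316748360125930534528484465)) (C.cons (nat_lit 1042) (C.node (nat_lit 1) (nat_lit 4) (nat_lit 7) (C.cons (nat_lit 434) (C.miq (nat_lit 840369748) (nat_lit 161998882345992786369709169)) (C.cons (nat_lit 402) (C.miq (nat_lit 2166977584) (nat_lit 626259010868896578071756953)) (C.cons (nat_lit 178) (C.miq (nat_lit 840369748) (nat_lit 161998882345992786352931953)) (C.cons (nat_lit 146) (C.node (nat_lit 4) (nat_lit 7) (nat_lit 8) (C.cons (nat_lit 432) (C.miq (nat_lit 846726725)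 (nat_lit 469068696859255683366782065)) (C.cons (nat_lit 400) (C.node (nat_lit 1) (nat_lit 7) (nat_lit 10) (C.cons (nat_lit 1194) (C.miq (nat_lit 1898554720) (nat_lit 626259011091825068864242801)) (C.cons (nat_lit 1186) (C.miq (nat_lit 1898554720) (nat_lit 626259011089573269050557553)) (C.cons (nat_lit 1162)
  (C.miq (nat_lit 2268334610) (nat_lit 184970760689865102290977799)) (C.cons (nat_lit 1154) (C.node (nat_lit 1) (nat_lit 4) (nat_lit 5) (C.cons (nat_lit 306) (C.node (nat_lit 1) (nat_lit 4) (nat_lit 6) (C.cons (nat_lit 82) (C.node (nat_lit 2) (nat_lit 3) (nat_lit 5) C.nil) C.nil)) (C.cons (nat_lit 50) (C.node (nat_lit 1) (nat_lit 4) (nat_lit 6) (C.cons (nat_lit 338) (C.node (nat_lit 2) (nat_lit 3) (nat_lit 5) C.nil) (C.cons (nat_lit 82) (C.node (nat_lit 1) (nat_lit 4) (nat_lit 8) C.nil) C.nil))) C.nil))) C.nil))))) C.nil))) C.nil))))) C.nil))) C.nil))) C.nil)) C.nil))) C.nil)) C.nil)) (C.cons (nat_lit 22) (C.node (nat_lit 1)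 (nat_lit 2) (nat_lit 3) (C.cons (nat_lit 270) (C.node (nat_lit 1) (nat_lit 3) (nat_lit 6) (C.cons (nat_lit 1098) (C.miq (nat_lit 2221088929) (nat_lit 106390452824960720951706631)) (C.cons (nat_lit 74) (C.node (nat_lit 1) (nat_lit 6) (nat_lit 10) (C.cons (nat_lit 1090) (C.node (nat_lit 3) (nat_lit 6) (nat_lit 10) (C.cons (nat_lit 1096) (C.node (nat_lit 1) (nat_lit 8) (nat_lit 10) (C.cons (nat_lit 1298) (C.miq (nat_lit 2457929380) (nat_lit 326419766682847567926133873)) (C.cons (nat_lit 1282) (C.node (nat_lit 1) (nat_lit 4) (nat_lit 6) (C.cons (nat_lit 338) (C.node (nat_lit 1) (nat_lit 7) (nat_lit 8) C.nil) (C.cons (nat_lit 82) (C.node (nat_lit 4) (nat_lit 6) (nat_lit 8) (C.cons (nat_lit 336) (C.node (nat_lit 1) (nat_lit 6) (nat_lit 8) C.nil) C.nil)) C.nil))) C.nil))) C.nil)) C.nil)) C.nil))) (C.cons (nat_lit 14) (C.node (nat_lit 1) (nat_lit 2) (nat_lit 8) (C.cons (nat_lit 262) (C.node (nat_lit 2) (nat_lit 3) (nat_lit 8) (C.cons (nat_lit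 268) (C.node (nat_lit 1) (nat_lit 4) (nat_lit 6) (C.cons (nat_lit 338) (C.node (nat_lit 1) (nat_lit 6) (nat_lit 9) (C.cons (nat_lit 578) (C.node (nat_lit 6) (nat_lit 8) (nat_lit 9) (C.cons (nat_lit 832) (C.node (nat_lit 4) (nat_lit 7) (nat_lit 8) (C.cons (nat_lit 432) (C.miq (nat_lit 846726725) (nat_lit 469068696859255683366782065)) (C.cons (nat_lit 400) (C.node (nat_lit 3) (nat_lit 6) (nat_lit 8) (C.cons (nat_lit 456) (C.node (nat_lit 1) (nat_lit 3) (nat_lit 6) (C.cons (nat_lit 1098) (C.node (nat_lit 1) (nat_lit 8) (nat_lit 10) (C.cons (nat_lit 1282) (C.node (nat_lit 2) (nat_lit 3) (nat_lit 5) (C.cons (nat_lit 1068) (C.miq (nat_lit 1899103909) (nat_lit 16928005242269306924565617)) (C.cons (nat_lit 60) (C.miq (nat_lit 1898120788) (nat_lit 16927783881336144556459121)) C.nil))) C.nil)) C.nil)) C.nil)) C.nil))) C.nil)) C.nil)) (C.cons (nat_lit 82) (C.node (nat_lit 4) (nat_lit 6) (nat_lit 8) (C.cons (nat_lit 336) (C.node (nat_lit 1)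 (nat_lit 6) (nat_lit 9) (C.cons (nat_lit 834) (C.node (nat_lit 3) (nat_lit 6) (nat_lit 7) (C.cons (nat_lit 456) (C.miq (nat_lit 372545648) (nat_lit 106395267581942596237854593)) (C.cons (nat_lit 200) (C.node (nat_lit 3) (nat_lit 6) (nat_lit 8) (C.cons (nat_lit 328) (C.node (nat_lit 6) (nat_lit 7) (nat_lit 8) C.nil) C.nil)) C.nil))) (C.cons (nat_lit 578) (C.node (nat_lit 6) (nat_lit 8) (nat_lit 9) (C.cons (nat_lit 832) (C.node (nat_lit 5) (nat_lit 7) (nat_lit 8) (C.cons (nat_lit 434) (C.miq (nat_lit 840369748) (nat_lit 161998882345992786369709169)) (C.cons (nat_lit 432) (C.miq (nat_lit 846726725) (nat_lit 469068696859255683366782065)) (C.cons (nat_lit 418) (C.miq (nat_lit 2171172128) (nat_lit 698794560050278237419143333)) (C.cons (nat_lit 416) (C.node (nat_lit 1) (nat_lit 6) (nat_lit 8) C.nil) C.nil))))) C.nil)) C.nil))) C.nil)) C.nil))) C.nil)) C.nil)) C.nil))) C.nil))) C.nil))))) C.nil))) C.nil))))) C.nil)) C.nil))) C.nil))) C.nil)))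 C.nil))) C.nil))) C.nil))) C.nil))) (C.cons (nat_lit 70) (C.node (nat_lit 2) (nat_lit 5) (nat_lit 6) (C.cons (nat_lit 100) (C.ref (nat_lit 114) (nat_lit 11649936536080)) C.nil)) C.nil))) C.nil))) C.nil))) (C.cons (nat_lit 1092) (C.ref (nat_lit 131) (nat_lit 11649936536080)) C.nil))) (C.cons (nat_lit 86) (C.ref (nat_lit 134) (nat_lit 11649936536080)) (C.cons (nat_lit 84) (C.node (nat_lit 2) (nat_lit 6) (nat_lit 7) (C.cons (nat_lit 1220) (C.node (nat_lit 4) (nat_lit 7) (nat_lit 10) (C.cons (nat_lit 1170)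
  (C.node (nat_lit 2) (nat_lit 4) (nat_lit 10) (C.cons (nat_lit 1556) (C.miq (nat_lit 338037159) (nat_lit 101553366112193119720310657)) (C.cons (nat_lit 1052) (C.miq (nat_lit 1665598113) (nat_lit 184969247681925916757459975)) (C.cons (nat_lit 1044) (C.miq (nat_lit 2460223089) (nat_lit 1262128351064569999384510659)) C.nil)))) (C.cons (nat_lit 1168) (C.ref (nat_lit 149) (nat_lit 11649936536080)) C.nil))) (C.cons (nat_lit 452) (C.node (nat_lit 2) (nat_lit 6) (nat_lit 10) (C.cons (nat_lit 1092) (C.node (nat_lit 1) (nat_lit 2) (nat_lit 6) (C.cons (nat_lit 102) (C.node (nat_lit 1) (nat_lit 6) (nat_lit 9) (C.cons (nat_lit 834) (C.miq (nat_lit 1351690118) (nat_lit 641941491829715231987335620)) (C.cons (nat_lit 578) (C.node (nat_lit 2) (nat_lit 5) (nat_lit 8) (C.cons (nat_lit 1316) (C.miq (nat_lit 394420389) (nat_lit 546436352088603776518456433)) (C.cons (nat_lit 804) (C.miq (nat_lit 2417330018) (nat_lit 42327235409461551380693444)) (C.cons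 (nat_lit 292) (C.node (nat_lit 2) (nat_lit 8) (nat_lit 9) (C.cons (nat_lit 774) (C.node (nat_lit 5) (nat_lit 8) (nat_lit 10) (C.cons (nat_lit 1314) (C.node (nat_lit 5) (nat_lit 6) (nat_lit 8) (C.cons (nat_lit 864) (C.node (nat_lit 4) (nat_lit 5) (nat_lit 8) (C.cons (nat_lit 432) (C.miq (nat_lit 911477127) (nat_lit 1374551479419469121364952961)) (C.cons (nat_lit 304) (C.node (nat_lit 5) (nat_lit 7) (nat_lit 8) (C.cons (nat_lit 416) (C.node (nat_lit 4) (nat_lit 6) (nat_lit 7) (C.cons (nat_lit 720) (C.miq (nat_lit 895748247) (nat_lit 1374551479337278428184315777)) (C.cons (nat_lit 208) (C.node (nat_lit 4) (nat_lit 6) (nat_lit 9) (C.cons (nat_lit 592) (C.node (nat_lit 6) (nat_lit 7) (nat_lit 9) (C.cons (nat_lit 704) (C.node (nat_lit 4) (nat_lit 7) (nat_lit 8) (C.cons (nat_lit 402) (C.miq (nat_lit 847710484) (nat_lit 546437292983447750142198291)) (C.cons (nat_lit 400) (C.node (nat_lit 1) (nat_lit 6) (nat_lit 10) (C.cons (nat_lit 1098)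 (C.node (nat_lit 1) (nat_lit 9) (nat_lit 10) (C.cons (nat_lit 1538) (C.node (nat_lit 6) (nat_lit 7) (nat_lit 10) (C.cons (nat_lit 1216) (C.node (nat_lit 6) (nat_lit 8) (nat_lit 10) (C.cons (nat_lit 1344) (C.node (nat_lit 3) (nat_lit 4) (nat_lit 6) (C.cons (nat_lit 344) (C.miq (nat_lit 941712394) (nat_lit 935728839003544496072230001)) (C.cons (nat_lit 88) (C.node (nat_lit 3) (nat_lit 6) (nat_lit 8) (C.cons (nat_lit 328) (C.node (nat_lit 3) (nat_lit 5) (nat_lit 6) (C.cons (nat_lit 232) (C.miq (nat_lit 923428129) (nat_lit 2322366754069998481032282214)) (C.cons (nat_lit 104) (C.node (nat_lit 3) (nat_lit 6) (nat_lit 7) (C.cons (nat_lit 200) (C.node (nat_lit 5) (nat_lit 6) (nat_lit 7) (C.cons (nat_lit 224) (C.node (nat_lit 1) (nat_lit 4) (nat_lit 6) (C.cons (nat_lit 338) (C.node (nat_lit 1) (nat_lit 3) (nat_lit 8) C.nil) C.nil)) C.nil)) C.nil)) C.nil))) C.nil)) C.nil))) C.nil)) C.nil)) C.nil)) (C.cons (nat_lit 1090) (C.node (nat_lit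 1) (nat_lit 7) (nat_lit 8) (C.cons (nat_lit 394) (C.node (nat_lit 1) (nat_lit 2) (nat_lit 3) (C.cons (nat_lit 30) (C.miq (nat_lit 1362405488) (nat_lit 36288748906310494626318209)) (C.cons (nat_lit 14) (C.node (nat_lit 1) (nat_lit 2) (nat_lit 4) (C.cons (nat_lit 150) (C.miq (nat_lit 2708756528) (nat_lit 181359847260065995591057705)) (C.cons (nat_lit 22) (C.node (nat_lit 1) (nat_lit 2) (nat_lit 7) (C.cons (nat_lit 134) (C.node (nat_lit 1) (nat_lit 3) (nat_lit 6) (C.cons (nat_lit 90) (C.miq (nat_lit 1362405488) (nat_lit 108824298083188245108688769)) (C.cons (nat_lit 74) (C.node (nat_lit 1) (nat_lit 7) (nat_lit 10) (C.cons (nat_lit 1170) (C.node (nat_lit 1) (nat_lit 3) (nat_lit 4) (C.cons (nat_lit 58) (C.node (nat_lit 2) (nat_lit 3) (nat_lit 4) (C.cons (nat_lit 1052) (C.miq (nat_lit 880159248) (nat_lit 251467435908218983888913415)) (C.cons (nat_lit 28) (C.node (nat_lit 2) (nat_lit 3) (nat_lit 7) (C.cons (nat_lit 1164) (C.miq (nat_lit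 2473853601) (nat_lit 184975445787935164203140103)) (C.cons (nat_lit 140) (C.node (nat_lit 2) (nat_lit 7) (nat_lit 10) (C.cons (nat_lit 1156) (C.node (nat_lit 2) (nat_lit 4) (nat_lit 10) (C.cons (nat_lit 1556)
  (C.miq (nat_lit 1648429479) (nat_lit 26599965312411659534468993)) (C.cons (nat_lit 1044) (C.node (nat_lit 1) (nat_lit 3) (nat_lit 9) (C.cons (nat_lit 1546) (C.node (nat_lit 1) (nat_lit 4) (nat_lit 6) C.nil) C.nil)) C.nil))) C.nil)) C.nil))) C.nil))) (C.cons (nat_lit 26) (C.miq (nat_lit 1362405488) (nat_lit 31453045627851977927493505)) C.nil))) (C.cons (nat_lit 1154) (C.miq (nat_lit 1243022723) (nat_lit 1395103218507168037305188649)) C.nil))) C.nil))) C.nil)) C.nil))) C.nil))) (C.cons (nat_lit 386) (C.node (nat_lit 3) (nat_lit 7) (nat_lit 8) (C.cons (nat_lit 392) (C.node (nat_lit 1) (nat_lit 9) (nat_lit 10) (C.cons (nat_lit 1546) (C.node (nat_lit 1) (nat_lit 4) (nat_lit 10) (C.cons (nat_lit 1170) (C.miq (nat_lit 941032868)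 (nat_lit 466648188806693850744751217)) (C.cons (nat_lit 1042) (C.node (nat_lit 1) (nat_lit 7) (nat_lit 10) (C.cons (nat_lit 1154) (C.node (nat_lit 2) (nat_lit 3) (nat_lit 8) (C.cons (nat_lit 1292) (C.miq (nat_lit 1101531442) (nat_lit 1588533636871201005847183949)) (C.cons (nat_lit 268) (C.node (nat_lit 2) (nat_lit 8) (nat_lit 10) (C.cons (nat_lit 1284) (C.node (nat_lit 3) (nat_lit 7) (nat_lit 9) (C.cons (nat_lit 680) (C.miq (nat_lit 891393802) (nat_lit 123338952458433823687247745)) (C.cons (nat_lit 648) (C.node (nat_lit 3) (nat_lit 8) (nat_lit 9) (C.cons (nat_lit 792) (C.miq (nat_lit 2726498377) (nat_lit 324020638613260464534585875)) (C.cons (nat_lit 776) (C.node (nat_lit 4) (nat_lit 8) (nat_lit 9) (C.cons (nat_lit 784) (C.node (nat_lit 6) (nat_lit 8) (nat_lit 10) (C.cons (nat_lit 1352) (C.node (nat_lit 4) (nat_lit 8) (nat_lit 10) C.nil) C.nil)) C.nil)) C.nil))) C.nil))) C.nil)) C.nil))) C.nil)) C.nil))) (C.cons (nat_lit 1538)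 (C.node (nat_lit 2) (nat_lit 3) (nat_lit 8) (C.cons (nat_lit 1292) (C.node (nat_lit 4) (nat_lit 8) (nat_lit 10) (C.cons (nat_lit 1296) (C.node (nat_lit 6) (nat_lit 8) (nat_lit 10) (C.cons (nat_lit 1344) (C.node (nat_lit 2) (nat_lit 5) (nat_lit 10) (C.cons (nat_lit 1572) (C.miq (nat_lit 2032208470) (nat_lit 935712182037537536541590641)) (C.cons (nat_lit 1060) (C.node (nat_lit 3) (nat_lit 8) (nat_lit 9) (C.cons (nat_lit 792) (C.miq (nat_lit 1218548512) (nat_lit 1588538322417659606055977549)) (C.cons (nat_lit 776) (C.node (nat_lit 4) (nat_lit 8) (nat_lit 9) (C.cons (nat_lit 784) (C.node (nat_lit 2) (nat_lit 3) (nat_lit 5) (C.cons (nat_lit 60) (C.node (nat_lit 2) (nat_lit 5) (nat_lit 9) (C.cons (nat_lit 548) (C.node (nat_lit 1) (nat_lit 2) (nat_lit 3) (C.cons (nat_lit 142) (C.node (nat_lit 1) (nat_lit 2) (nat_lit 4) (C.cons (nat_lit 22) (C.node (nat_lit 1) (nat_lit 3) (nat_lit 5) (C.cons (nat_lit 554) (C.miq (nat_lit 2018584211) (nat_lit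 1588531146538511602681512525)) C.nil)) C.nil)) (C.cons (nat_lit 14) (C.miq (nat_lit 1898120788) (nat_lit 16927783881336144556459121)) C.nil))) C.nil)) (C.cons (nat_lit 44) (C.node (nat_lit 2) (nat_lit 3) (nat_lit 4) (C.cons (nat_lit 30) (C.miq (nat_lit 1199648914) (nat_lit 466645919816642994842763853)) (C.cons (nat_lit 28) (C.node (nat_lit 1) (nat_lit 2) (nat_lit 3) (C.cons (nat_lit 142) (C.miq (nat_lit 1126500118) (nat_lit 53213710054121772776030403)) (C.cons (nat_lit 14) (C.node (nat_lit 2) (nat_lit 3) (nat_lit 7) (C.cons (nat_lit 140) (C.node (nat_lit 1) (nat_lit 2) (nat_lit 4) (C.cons (nat_lit 150) (C.node (nat_lit 1) (nat_lit 4) (nat_lit 5) C.nil) C.nil)) C.nil)) C.nil))) C.nil))) C.nil))) C.nil)) C.nil))) C.nil))) C.nil)) C.nil)) (C.cons (nat_lit 268) (C.node (nat_lit 2) (nat_lit 8) (nat_lit 10) (C.cons (nat_lit 1284) (C.node (nat_lit 2) (nat_lit 7) (nat_lit 9) (C.cons (nat_lit 660) (C.node (nat_lit 1) (nat_lit 2) (nat_lit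 4) (C.cons (nat_lit 30) (C.miq (nat_lit 1199648914) (nat_lit 466645919816642994842763853)) (C.cons (nat_lit 22) (C.node (nat_lit 2) (nat_lit 4) (nat_lit 5) (C.cons (nat_lit 60) (C.miq (nat_lit 1951961648) (nat_lit 367548885543986607505867341)) (C.cons (nat_lit 52) (C.node (nat_lit 1) (nat_lit 2) (nat_lit 3) (C.cons (nat_lit 142) (C.miq (nat_lit 844394848) (nat_lit 62866965011773879500210371)) (C.cons (nat_lit 14)
  (C.node (nat_lit 1) (nat_lit 2) (nat_lit 7) (C.cons (nat_lit 134) (C.node (nat_lit 6) (nat_lit 8) (nat_lit 10) (C.cons (nat_lit 1344) (C.node (nat_lit 3) (nat_lit 8) (nat_lit 9) C.nil) C.nil)) C.nil)) C.nil))) C.nil))) C.nil))) (C.cons (nat_lit 644) (C.node (nat_lit 3) (nat_lit 5) (nat_lit 6) (C.cons (nat_lit 232) (C.node (nat_lit 5) (nat_lit 7) (nat_lit 10) (C.cons (nat_lit 1184) (C.node (nat_lit 6) (nat_lit 7) (nat_lit 10) (C.cons (nat_lit 1216) (C.node (nat_lit 3) (nat_lit 6) (nat_lit 10) (C.cons (nat_lit 1096) (C.node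 (nat_lit 6) (nat_lit 8) (nat_lit 10) (C.cons (nat_lit 1344) (C.node (nat_lit 3) (nat_lit 8) (nat_lit 9) C.nil) C.nil)) C.nil)) C.nil)) C.nil)) (C.cons (nat_lit 104) (C.node (nat_lit 5) (nat_lit 6) (nat_lit 7) (C.cons (nat_lit 224) (C.node (nat_lit 3) (nat_lit 6) (nat_lit 7) (C.cons (nat_lit 1224) (C.node (nat_lit 5) (nat_lit 7) (nat_lit 10) (C.cons (nat_lit 1184) (C.node (nat_lit 6) (nat_lit 8) (nat_lit 10) (C.cons (nat_lit 1344) (C.node (nat_lit 1) (nat_lit 6) (nat_lit 8) (C.cons (nat_lit 346) (C.miq (nat_lit 2786685760) (nat_lit 698794560277148116616151193)) C.nil)) C.nil)) C.nil)) (C.cons (nat_lit 200) (C.node (nat_lit 6) (nat_lit 7) (nat_lit 10) C.nil) C.nil))) C.nil)) C.nil))) C.nil))) C.nil)) C.nil))) C.nil))) C.nil)) C.nil))) C.nil))) C.nil))) C.nil)) C.nil)) C.nil))) C.nil)) C.nil))) (C.cons (nat_lit 352) (C.miq (nat_lit 2522357921) (nat_lit 425556166450056165436032007)) C.nil))) (C.cons (nat_lit 1312) (C.miq (nat_lit 363341321)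 (nat_lit 1586124953143021859535651405)) C.nil))) (C.cons (nat_lit 772) (C.node (nat_lit 1) (nat_lit 2) (nat_lit 9) (C.cons (nat_lit 646) (C.miq (nat_lit 2836793125) (nat_lit 698780098225983675557085349)) (C.cons (nat_lit 518) (C.node (nat_lit 5) (nat_lit 8) (nat_lit 10) (C.cons (nat_lit 1314) (C.miq (nat_lit 2166990176) (nat_lit 626259011125602066069521521)) (C.cons (nat_lit 1312) (C.node (nat_lit 5) (nat_lit 6) (nat_lit 8) (C.cons (nat_lit 864) (C.miq (nat_lit 444932246) (nat_lit 1586112557192497947266253389)) (C.cons (nat_lit 352) (C.node (nat_lit 5) (nat_lit 6) (nat_lit 9) (C.cons (nat_lit 736) (C.miq (nat_lit 2841708370) (nat_lit 698778142871112248891670693)) (C.cons (nat_lit 608) (C.node (nat_lit 1) (nat_lit 2) (nat_lit 8) (C.cons (nat_lit 270) (C.node (nat_lit 2) (nat_lit 8) (nat_lit 10) (C.cons (nat_lit 1284) (C.node (nat_lit 3) (nat_lit 7) (nat_lit 8) (C.cons (nat_lit 392) (C.node (nat_lit 1) (nat_lit 7) (nat_lit 8) (C.cons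 (nat_lit 434) (C.miq (nat_lit 1931559013) (nat_lit 326417977225946068295222385)) (C.cons (nat_lit 418) (C.miq (nat_lit 2555512598) (nat_lit 353017205000446359504289987)) (C.cons (nat_lit 402) (C.miq (nat_lit 2458125937) (nat_lit 334882247420146123799658691)) (C.cons (nat_lit 386) (C.node (nat_lit 1) (nat_lit 2) (nat_lit 4) (C.cons (nat_lit 150) (C.node (nat_lit 2) (nat_lit 7) (nat_lit 9) (C.cons (nat_lit 644) (C.node (nat_lit 4) (nat_lit 7) (nat_lit 10) (C.cons (nat_lit 1168) (C.node (nat_lit 1) (nat_lit 8) (nat_lit 9) (C.cons (nat_lit 802) (C.node (nat_lit 1) (nat_lit 4) (nat_lit 5) (C.cons (nat_lit 58) (C.miq (nat_lit 2018707732) (nat_lit 359053791318105017277874707)) (C.cons (nat_lit 50) (C.node (nat_lit 1) (nat_lit 3) (nat_lit 5) (C.cons (nat_lit 1194) (C.miq (nat_lit 1898554720) (nat_lit 626259011091825068864242801)) (C.cons (nat_lit 1066) (C.miq (nat_lit 1161300498) (nat_lit 359056078493694909406381063)) (C.cons (nat_lit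 170) (C.miq (nat_lit 1211179095) (nat_lit 326412738385530777768689829)) (C.cons (nat_lit 42) (C.node (nat_lit 1) (nat_lit 5) (nat_lit 7) (C.cons (nat_lit 1186) (C.miq (nat_lit 1898554720) (nat_lit 626259011089573269050557553)) (C.cons (nat_lit 162) (C.node (nat_lit 1) (nat_lit 5) (nat_lit 10) (C.cons (nat_lit 1058) (C.node (nat_lit 1) (nat_lit 7) (nat_lit 9) (C.cons (nat_lit 650) (C.node (nat_lit 1) (nat_lit 7) (nat_lit 10) (C.cons (nat_lit 1154) (C.node (nat_lit 1) (nat_lit 9) (nat_lit 10) (C.cons (nat_lit 1538) (C.node (nat_lit 2) (nat_lit 3) (nat_lit 7) (C.cons (nat_lit 140)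
  (C.node (nat_lit 2) (nat_lit 7) (nat_lit 10) C.nil) C.nil)) C.nil)) C.nil)) (C.cons (nat_lit 642) (C.node (nat_lit 1) (nat_lit 3) (nat_lit 7) (C.cons (nat_lit 1162) (C.node (nat_lit 1) (nat_lit 3) (nat_lit 9) (C.cons (nat_lit 522) (C.node (nat_lit 1) (nat_lit 9) (nat_lit 10) C.nil) C.nil)) (C.cons (nat_lit 138) (C.node (nat_lit 1) (nat_lit 7) (nat_lit 10) C.nil) C.nil))) C.nil))) C.nil)) C.nil))) C.nil))))) C.nil))) (C.cons (nat_lit 770) (C.node (nat_lit 1) (nat_lit 5) (nat_lit 8) (C.cons (nat_lit 306) (C.miq (nat_lit 911286344) (nat_lit 123315414387385722079412501)) (C.cons (nat_lit 290) (C.node (nat_lit 1) (nat_lit 4) (nat_lit 5) (C.cons (nat_lit 58) (C.node (nat_lit 1) (nat_lit 3) (nat_lit 6) (C.cons (nat_lit 1098) (C.node (nat_lit 6) (nat_lit 7) (nat_lit 10) (C.cons (nat_lit 1216) (C.node (nat_lit 6) (nat_lit 8) (nat_lit 10) (C.cons (nat_lit 1344) (C.node (nat_lit 1) (nat_lit 6) (nat_lit 8) (C.cons (nat_lit 338) (C.miq (nat_lit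 2709807904) (nat_lit 408637901286817152898499149)) C.nil)) C.nil)) C.nil)) (C.cons (nat_lit 74) (C.node (nat_lit 1) (nat_lit 4) (nat_lit 10) (C.cons (nat_lit 1298) (C.miq (nat_lit 2704689184) (nat_lit 89481484964850046138646805)) (C.cons (nat_lit 1042) (C.node (nat_lit 1) (nat_lit 6) (nat_lit 10) (C.cons (nat_lit 1346) (C.miq (nat_lit 2166859344) (nat_lit 181374309516425729004602481)) (C.cons (nat_lit 1090) (C.node (nat_lit 1) (nat_lit 8) (nat_lit 10) (C.cons (nat_lit 1282) (C.node (nat_lit 3) (nat_lit 4) (nat_lit 6) (C.cons (nat_lit 344) (C.miq (nat_lit 1209688864) (nat_lit 1549863874790794961430708813)) C.nil)) C.nil)) C.nil))) C.nil))) C.nil))) (C.cons (nat_lit 50) (C.node (nat_lit 2) (nat_lit 3) (nat_lit 7) (C.cons (nat_lit 1164) (C.node (nat_lit 6) (nat_lit 7) (nat_lit 10) (C.cons (nat_lit 1216) (C.node (nat_lit 1) (nat_lit 7) (nat_lit 10) (C.cons (nat_lit 1186) (C.miq (nat_lit 1898554720) (nat_lit 626259011089573269050557553))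 (C.cons (nat_lit 1154) (C.node (nat_lit 5) (nat_lit 7) (nat_lit 10) (C.cons (nat_lit 1184) (C.node (nat_lit 2) (nat_lit 3) (nat_lit 4) (C.cons (nat_lit 60) (C.miq (nat_lit 305620288) (nat_lit 1407193251175233438053106801)) (C.cons (nat_lit 28) (C.node (nat_lit 2) (nat_lit 3) (nat_lit 5) (C.cons (nat_lit 44) (C.node (nat_lit 2) (nat_lit 5) (nat_lit 10) (C.cons (nat_lit 1572) (C.miq (nat_lit 2451023200) (nat_lit 181374309580039073743176817)) C.nil)) C.nil)) C.nil))) C.nil)) C.nil))) C.nil)) (C.cons (nat_lit 140) (C.node (nat_lit 2) (nat_lit 7) (nat_lit 10) (C.cons (nat_lit 1156) (C.node (nat_lit 3) (nat_lit 5) (nat_lit 6) (C.cons (nat_lit 232) (C.node (nat_lit 6) (nat_lit 7) (nat_lit 10) (C.cons (nat_lit 1216) (C.node (nat_lit 3) (nat_lit 7) (nat_lit 9) (C.cons (nat_lit 650) (C.miq (nat_lit 1410818195) (nat_lit 181343152906858806012150349)) (C.cons (nat_lit 648) (C.node (nat_lit 4) (nat_lit 7) (nat_lit 8) (C.cons (nat_lit 432) (C.miq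 (nat_lit 931292480) (nat_lit 546445335663375851933992049)) (C.cons (nat_lit 400) (C.node (nat_lit 5) (nat_lit 7) (nat_lit 8) C.nil) C.nil))) C.nil))) C.nil)) (C.cons (nat_lit 104) (C.node (nat_lit 5) (nat_lit 6) (nat_lit 7) (C.cons (nat_lit 224) (C.node (nat_lit 1) (nat_lit 6) (nat_lit 8) (C.cons (nat_lit 1346) (C.miq (nat_lit 2166859344) (nat_lit 181374309516425729004602481)) (C.cons (nat_lit 338) (C.node (nat_lit 6) (nat_lit 8) (nat_lit 9) C.nil) C.nil))) C.nil)) C.nil))) C.nil)) C.nil))) C.nil))) C.nil))) C.nil))) C.nil)) C.nil)) (C.cons (nat_lit 22) (C.node (nat_lit 1) (nat_lit 2) (nat_lit 7) (C.cons (nat_lit 134) (C.node (nat_lit 1) (nat_lit 8) (nat_lit 9) (C.cons (nat_lit 802) (C.node (nat_lit 1) (nat_lit 4) (nat_lit 5) (C.cons (nat_lit 178) (C.miq (nat_lit 840369748) (nat_lit 161998882345992786352931953)) (C.cons (nat_lit 58) (C.miq (nat_lit 2018707732) (nat_lit 359053791318105017277874707)) (C.cons (nat_lit 50) (C.node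 (nat_lit 1) (nat_lit 5) (nat_lit 10) (C.cons (nat_lit 1194) (C.miq (nat_lit 1898554720) (nat_lit 626259011091825068864242801)) (C.cons (nat_lit 1186) (C.miq (nat_lit 1898554720) (nat_lit 626259011089573269050557553))
  (C.cons (nat_lit 1066) (C.miq (nat_lit 1161300498) (nat_lit 359056078493694909406381063)) (C.cons (nat_lit 1058) (C.node (nat_lit 1) (nat_lit 3) (nat_lit 5) (C.cons (nat_lit 170) (C.node (nat_lit 1) (nat_lit 7) (nat_lit 9) (C.cons (nat_lit 642) (C.node (nat_lit 3) (nat_lit 5) (nat_lit 6) (C.cons (nat_lit 104) (C.node (nat_lit 3) (nat_lit 7) (nat_lit 9) (C.cons (nat_lit 648) (C.node (nat_lit 5) (nat_lit 6) (nat_lit 7) (C.cons (nat_lit 224) (C.node (nat_lit 5) (nat_lit 7) (nat_lit 10) (C.cons (nat_lit 1184) (C.node (nat_lit 1) (nat_lit 3) (nat_lit 6) (C.cons (nat_lit 1098) (C.node (nat_lit 1) (nat_lit 4) (nat_lit 6) C.nil) (C.cons (nat_lit 90) (C.miq (nat_lit 557274688) (nat_lit 205520433075969955957638257)) C.nil)))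 C.nil)) C.nil)) C.nil)) C.nil)) C.nil)) (C.cons (nat_lit 42) (C.node (nat_lit 1) (nat_lit 5) (nat_lit 7) (C.cons (nat_lit 162) (C.node (nat_lit 1) (nat_lit 4) (nat_lit 7) (C.cons (nat_lit 1170) (C.node (nat_lit 1) (nat_lit 3) (nat_lit 4) (C.cons (nat_lit 90) (C.miq (nat_lit 1913849188) (nat_lit 326412793694236963981886577)) C.nil)) C.nil)) C.nil)) C.nil))) C.nil))))) C.nil)))) (C.cons (nat_lit 770) (C.node (nat_lit 1) (nat_lit 5) (nat_lit 8) (C.cons (nat_lit 306) (C.miq (nat_lit 911286344) (nat_lit 123315414387385722079412501)) (C.cons (nat_lit 290) (C.node (nat_lit 2) (nat_lit 3) (nat_lit 7) (C.cons (nat_lit 1164) (C.node (nat_lit 6) (nat_lit 7) (nat_lit 10) (C.cons (nat_lit 1216) (C.node (nat_lit 2) (nat_lit 3) (nat_lit 4) (C.cons (nat_lit 60) (C.miq (nat_lit 305620288) (nat_lit 1407193251175233438053106801)) (C.cons (nat_lit 28) (C.node (nat_lit 2) (nat_lit 3) (nat_lit 5) (C.cons (nat_lit 44) (C.node (nat_lit 2) (nat_lit 5)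 (nat_lit 10) (C.cons (nat_lit 1572) (C.miq (nat_lit 2451023200) (nat_lit 162031496466205006947878001)) (C.cons (nat_lit 1060) (C.node (nat_lit 4) (nat_lit 7) (nat_lit 10) (C.cons (nat_lit 1170) (C.miq (nat_lit 2473853601) (nat_lit 184975445787935164203140103)) (C.cons (nat_lit 1168) (C.node (nat_lit 1) (nat_lit 4) (nat_lit 7) (C.cons (nat_lit 178) (C.miq (nat_lit 840369748) (nat_lit 161998882345992786352931953)) (C.cons (nat_lit 146) (C.node (nat_lit 1) (nat_lit 7) (nat_lit 10) (C.cons (nat_lit 1186) (C.miq (nat_lit 1898554720) (nat_lit 626259011089573269050557553)) C.nil)) C.nil))) C.nil))) C.nil))) C.nil)) C.nil))) C.nil)) (C.cons (nat_lit 140) (C.node (nat_lit 2) (nat_lit 7) (nat_lit 9) (C.cons (nat_lit 660) (C.node (nat_lit 2) (nat_lit 7) (nat_lit 10) (C.cons (nat_lit 1156) (C.node (nat_lit 4) (nat_lit 6) (nat_lit 7) (C.cons (nat_lit 208) (C.node (nat_lit 6) (nat_lit 7) (nat_lit 9) (C.cons (nat_lit 704) (C.node (nat_lit 6)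 (nat_lit 8) (nat_lit 9) (C.cons (nat_lit 848) (C.node (nat_lit 1) (nat_lit 4) (nat_lit 6) C.nil) C.nil)) C.nil)) C.nil)) C.nil)) (C.cons (nat_lit 644) (C.node (nat_lit 2) (nat_lit 4) (nat_lit 7) (C.cons (nat_lit 1172) (C.node (nat_lit 1) (nat_lit 4) (nat_lit 7) (C.cons (nat_lit 178) (C.miq (nat_lit 840369748) (nat_lit 161998882345992786352931953)) (C.cons (nat_lit 146) (C.node (nat_lit 4) (nat_lit 7) (nat_lit 8) (C.cons (nat_lit 432) (C.node (nat_lit 5) (nat_lit 8) (nat_lit 9) C.nil) C.nil)) C.nil))) (C.cons (nat_lit 148) (C.node (nat_lit 2) (nat_lit 7) (nat_lit 10) (C.cons (nat_lit 1156) (C.node (nat_lit 1) (nat_lit 6) (nat_lit 8) (C.cons (nat_lit 1346) (C.miq (nat_lit 2166859344) (nat_lit 162031496402591662209303665)) (C.cons (nat_lit 338) (C.node (nat_lit 1) (nat_lit 8) (nat_lit 10) C.nil) C.nil))) C.nil)) C.nil))) C.nil))) C.nil))) C.nil))) C.nil))) C.nil)) C.nil))) C.nil))))) C.nil)) C.nil)) (C.cons (nat_lit 262) (C.node (nat_lit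 2) (nat_lit 3) (nat_lit 8) (C.cons (nat_lit 1292) (C.node (nat_lit 2) (nat_lit 5) (nat_lit 10) (C.cons (nat_lit 1572) (C.miq (nat_lit 2032208470) (nat_lit 626227172216192467816809585)) (C.cons (nat_lit 1060) (C.node (nat_lit 6) (nat_lit 8) (nat_lit 10) (C.cons (nat_lit 1346) (C.miq (nat_lit 2014448229) (nat_lit 316741608992524217142871153)) (C.cons (nat_lit 1344) (C.node (nat_lit 1) (nat_lit 6) (nat_lit 10) (C.cons (nat_lit 1098)
  (C.node (nat_lit 6) (nat_lit 7) (nat_lit 10) (C.cons (nat_lit 1216) (C.node (nat_lit 1) (nat_lit 8) (nat_lit 10) (C.cons (nat_lit 1298) (C.miq (nat_lit 830630464) (nat_lit 316749430180357358012925041)) (C.cons (nat_lit 1282) (C.node (nat_lit 4) (nat_lit 8) (nat_lit 10) (C.cons (nat_lit 1296) (C.node (nat_lit 2) (nat_lit 3) (nat_lit 7) (C.cons (nat_lit 142) (C.miq (nat_lit 1379534614) (nat_lit 1561953132936556682595139779)) (C.cons (nat_lit 140) (C.node (nat_lit 1) (nat_lit 2) (nat_lit 3) (C.cons (nat_lit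 30) (C.miq (nat_lit 2586904612) (nat_lit 1327410345698684952960172309)) (C.cons (nat_lit 14) (C.node (nat_lit 2) (nat_lit 3) (nat_lit 4) (C.cons (nat_lit 60) (C.miq (nat_lit 305620288) (nat_lit 169253211889853163153982577)) (C.cons (nat_lit 28) (C.node (nat_lit 2) (nat_lit 3) (nat_lit 5) (C.cons (nat_lit 44) (C.node (nat_lit 3) (nat_lit 4) (nat_lit 6) (C.cons (nat_lit 344) (C.miq (nat_lit 327329344) (nat_lit 1561951177844301890183300209)) (C.cons (nat_lit 88) (C.node (nat_lit 3) (nat_lit 6) (nat_lit 8) (C.cons (nat_lit 328) (C.node (nat_lit 2) (nat_lit 7) (nat_lit 10) (C.cons (nat_lit 1172) (C.node (nat_lit 1) (nat_lit 4) (nat_lit 10) C.nil) C.nil)) C.nil)) C.nil))) C.nil)) C.nil))) C.nil))) C.nil))) C.nil)) C.nil))) C.nil)) (C.cons (nat_lit 1090) (C.node (nat_lit 1) (nat_lit 8) (nat_lit 10) (C.cons (nat_lit 1298) (C.node (nat_lit 2) (nat_lit 9) (nat_lit 10) (C.cons (nat_lit 1556) (C.miq (nat_lit 2164499602) (nat_lit 13322017574460954099123732))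 (C.cons (nat_lit 1540) (C.node (nat_lit 3) (nat_lit 4) (nat_lit 10) (C.cons (nat_lit 1560) (C.miq (nat_lit 2224267522) (nat_lit 1885948112157521545718989831)) (C.cons (nat_lit 1048) (C.node (nat_lit 4) (nat_lit 9) (nat_lit 10) (C.cons (nat_lit 1552) (C.node (nat_lit 4) (nat_lit 7) (nat_lit 8) (C.cons (nat_lit 432) (C.miq (nat_lit 1159825162) (nat_lit 123334377596097749494204289)) (C.cons (nat_lit 400) (C.node (nat_lit 4) (nat_lit 5) (nat_lit 8) (C.cons (nat_lit 816) (C.miq (nat_lit 944318992) (nat_lit 986494334301468066298659847)) (C.cons (nat_lit 304) (C.node (nat_lit 5) (nat_lit 7) (nat_lit 8) (C.cons (nat_lit 418) (C.miq (nat_lit 2555512598) (nat_lit 353017205000446359504289987)) (C.cons (nat_lit 416) (C.node (nat_lit 6) (nat_lit 8) (nat_lit 9) (C.cons (nat_lit 848) (C.miq (nat_lit 342010000) (nat_lit 101568787806127007164336001)) (C.cons (nat_lit 832) (C.node (nat_lit 4) (nat_lit 6) (nat_lit 8) (C.cons (nat_lit 344) (C.miq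 (nat_lit 405972064) (nat_lit 1561951177900596885545878641)) (C.cons (nat_lit 336) (C.node (nat_lit 3) (nat_lit 4) (nat_lit 8) (C.cons (nat_lit 280) (C.miq (nat_lit 2474902177) (nat_lit 338509024878993619155026951)) C.nil)) C.nil))) C.nil))) C.nil))) C.nil))) C.nil))) C.nil)) C.nil))) C.nil))) (C.cons (nat_lit 1282) (C.node (nat_lit 4) (nat_lit 8) (nat_lit 10) (C.cons (nat_lit 1296) (C.node (nat_lit 2) (nat_lit 3) (nat_lit 5) (C.cons (nat_lit 60) (C.node (nat_lit 2) (nat_lit 5) (nat_lit 9) (C.cons (nat_lit 548) (C.node (nat_lit 1) (nat_lit 2) (nat_lit 3) (C.cons (nat_lit 142) (C.node (nat_lit 1) (nat_lit 2) (nat_lit 4) (C.cons (nat_lit 22) (C.node (nat_lit 3) (nat_lit 7) (nat_lit 8) (C.cons (nat_lit 392) (C.node (nat_lit 1) (nat_lit 7) (nat_lit 9) (C.cons (nat_lit 674) (C.miq (nat_lit 1159136803) (nat_lit 814818825092140827929346637)) (C.cons (nat_lit 642) (C.node (nat_lit 2) (nat_lit 7) (nat_lit 9) (C.cons (nat_lit 660) (C.miq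 (nat_lit 2455270448) (nat_lit 353041775708611057409392793)) (C.cons (nat_lit 644) (C.node (nat_lit 1) (nat_lit 4) (nat_lit 10) C.nil) C.nil))) C.nil))) C.nil)) C.nil)) (C.cons (nat_lit 14) (C.miq (nat_lit 1898120788) (nat_lit 16927783881336144556459121)) C.nil))) C.nil)) (C.cons (nat_lit 44) (C.node (nat_lit 2) (nat_lit 3) (nat_lit 7) (C.cons (nat_lit 142) (C.miq (nat_lit 1126500118) (nat_lit 53213710054121772776030403)) (C.cons (nat_lit 140) (C.node (nat_lit 1) (nat_lit 2) (nat_lit 3) (C.cons (nat_lit 30) (C.node (nat_lit 3) (nat_lit 4) (nat_lit 8) (C.cons (nat_lit 792)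
  (C.miq (nat_lit 1218548512) (nat_lit 1549852696189991472465379917)) (C.cons (nat_lit 344) (C.miq (nat_lit 2553547297) (nat_lit 415880277709254555231716359)) (C.cons (nat_lit 280) (C.miq (nat_lit 2553547297) (nat_lit 338509025253918288050521095)) C.nil)))) (C.cons (nat_lit 14) (C.node (nat_lit 2) (nat_lit 3) (nat_lit 4) (C.cons (nat_lit 28) (C.node (nat_lit 1) (nat_lit 2) (nat_lit 4) (C.cons (nat_lit 150) (C.node (nat_lit 2) (nat_lit 7) (nat_lit 9) (C.cons (nat_lit 644) (C.node (nat_lit 2) (nat_lit 7) (nat_lit 10) C.nil) C.nil)) (C.cons (nat_lit 22) (C.node (nat_lit 1) (nat_lit 2) (nat_lit 7) C.nil) C.nil))) C.nil)) C.nil))) C.nil))) C.nil))) C.nil)) C.nil))) C.nil))) C.nil))) C.nil))) (C.cons (nat_lit 268) (C.node (nat_lit 2) (nat_lit 8) (nat_lit 10) (C.cons (nat_lit 1284) (C.node (nat_lit 2) (nat_lit 7) (nat_lit 9) (C.cons (nat_lit 660) (C.node (nat_lit 4) (nat_lit 6) (nat_lit 7) (C.cons (nat_lit 208) (C.node (nat_lit 6) (nat_lit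 7) (nat_lit 9) (C.cons (nat_lit 704) (C.node (nat_lit 2) (nat_lit 4) (nat_lit 5) (C.cons (nat_lit 60) (C.miq (nat_lit 2455270448) (nat_lit 353041775708611057409392793)) (C.cons (nat_lit 52) (C.node (nat_lit 1) (nat_lit 2) (nat_lit 7) (C.cons (nat_lit 142) (C.miq (nat_lit 844394848) (nat_lit 62866965011773879500210371)) (C.cons (nat_lit 134) (C.node (nat_lit 2) (nat_lit 5) (nat_lit 9) (C.cons (nat_lit 1572) (C.miq (nat_lit 2451023200) (nat_lit 162031496466205006947878001)) (C.cons (nat_lit 548) (C.node (nat_lit 2) (nat_lit 9) (nat_lit 10) (C.cons (nat_lit 1540) (C.node (nat_lit 4) (nat_lit 5) (nat_lit 7) (C.cons (nat_lit 434) (C.miq (nat_lit 843385208) (nat_lit 62869621468742204810987393)) (C.cons (nat_lit 432) (C.miq (nat_lit 843385208) (nat_lit 62869621468742204810856321)) (C.cons (nat_lit 178) (C.miq (nat_lit 840369748) (nat_lit 161998882345992786352931953)) (C.cons (nat_lit 176) (C.node (nat_lit 4) (nat_lit 7) (nat_lit 8) (C.cons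 (nat_lit 402) (C.miq (nat_lit 2458125937) (nat_lit 334882247420146123799658691)) (C.cons (nat_lit 400) (C.node (nat_lit 5) (nat_lit 7) (nat_lit 8) (C.cons (nat_lit 418) (C.miq (nat_lit 2234085728) (nat_lit 662526785461839362177958083)) (C.cons (nat_lit 416) (C.node (nat_lit 1) (nat_lit 2) (nat_lit 3) (C.cons (nat_lit 30) (C.node (nat_lit 2) (nat_lit 4) (nat_lit 10) C.nil) C.nil)) C.nil))) C.nil))) C.nil))))) C.nil)) C.nil))) C.nil))) C.nil))) C.nil)) C.nil)) (C.cons (nat_lit 644) (C.node (nat_lit 3) (nat_lit 5) (nat_lit 6) (C.cons (nat_lit 232) (C.node (nat_lit 6) (nat_lit 7) (nat_lit 10) (C.cons (nat_lit 1216) (C.node (nat_lit 5) (nat_lit 7) (nat_lit 10) (C.cons (nat_lit 1186) (C.miq (nat_lit 1898554720) (nat_lit 626259011089573269050557553)) (C.cons (nat_lit 1184) (C.node (nat_lit 2) (nat_lit 3) (nat_lit 5) (C.cons (nat_lit 1068) (C.miq (nat_lit 391775794) (nat_lit 1431387189071749554360812109)) (C.cons (nat_lit 60) (C.miq (nat_lit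 1074935653) (nat_lit 1246403626870393610657202408)) (C.cons (nat_lit 44) (C.node (nat_lit 2) (nat_lit 5) (nat_lit 10) (C.cons (nat_lit 1572) (C.miq (nat_lit 2032208470) (nat_lit 626227172216192467816809585)) (C.cons (nat_lit 1060) (C.node (nat_lit 1) (nat_lit 6) (nat_lit 10) (C.cons (nat_lit 1354) (C.miq (nat_lit 2014448229) (nat_lit 316741608992524251502609521)) (C.cons (nat_lit 1346) (C.miq (nat_lit 2014448229) (nat_lit 316741608992524217142871153)) (C.cons (nat_lit 1098) (C.miq (nat_lit 2723352694) (nat_lit 53212990878238026448240835)) (C.cons (nat_lit 1090) (C.node (nat_lit 3) (nat_lit 4) (nat_lit 6) (C.cons (nat_lit 346) (C.miq (nat_lit 1937921600) (nat_lit 323995163434796461570983025)) (C.cons (nat_lit 344) (C.miq (nat_lit 1937921600) (nat_lit 323995163434796452981048433)) (C.cons (nat_lit 90) (C.miq (nat_lit 1075918678) (nat_lit 1246404180272715693094732008)) (C.cons (nat_lit 88) (C.node (nat_lit 4) (nat_lit 7) (nat_lit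 8) (C.cons (nat_lit 434) (C.miq (nat_lit 931292480) (nat_lit 546445335663375860523926641)) (C.cons (nat_lit 432) (C.miq (nat_lit 931292480) (nat_lit 546445335663375851933992049)) (C.cons (nat_lit 402)
  (C.miq (nat_lit 2458125937) (nat_lit 334882247420146123799658691)) (C.cons (nat_lit 400) (C.node (nat_lit 5) (nat_lit 7) (nat_lit 8) (C.cons (nat_lit 418) (C.miq (nat_lit 2555512598) (nat_lit 353017205000446359504289987)) (C.cons (nat_lit 416) (C.node (nat_lit 1) (nat_lit 3) (nat_lit 6) (C.cons (nat_lit 330) (C.node (nat_lit 1) (nat_lit 7) (nat_lit 8) C.nil) (C.cons (nat_lit 74) (C.node (nat_lit 1) (nat_lit 4) (nat_lit 6) (C.cons (nat_lit 338) (C.node (nat_lit 6) (nat_lit 8) (nat_lit 9) C.nil) (C.cons (nat_lit 82) (C.node (nat_lit 1) (nat_lit 6) (nat_lit 8) C.nil) C.nil))) C.nil))) C.nil))) C.nil))))) C.nil))))) C.nil))))) C.nil))) C.nil)))) C.nil))) C.nil)) (C.cons (nat_lit 104) (C.node (nat_lit 5) (nat_lit 6) (nat_lit 7) (C.cons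 (nat_lit 224) (C.node (nat_lit 3) (nat_lit 6) (nat_lit 7) (C.cons (nat_lit 1224) (C.node (nat_lit 1) (nat_lit 6) (nat_lit 10) (C.cons (nat_lit 1346) (C.miq (nat_lit 2014448229) (nat_lit 316741608992524217142871153)) (C.cons (nat_lit 1090) (C.node (nat_lit 6) (nat_lit 8) (nat_lit 10) (C.cons (nat_lit 1344) (C.node (nat_lit 5) (nat_lit 7) (nat_lit 10) (C.cons (nat_lit 1186) (C.miq (nat_lit 1898554720) (nat_lit 626259011089573269050557553)) (C.cons (nat_lit 1184) (C.node (nat_lit 1) (nat_lit 7) (nat_lit 10) (C.cons (nat_lit 1170) (C.miq (nat_lit 443107120) (nat_lit 1934291106933840799131828377)) (C.cons (nat_lit 1154) (C.node (nat_lit 2) (nat_lit 3) (nat_lit 7) (C.cons (nat_lit 142) (C.node (nat_lit 1) (nat_lit 3) (nat_lit 6) (C.cons (nat_lit 346) (C.miq (nat_lit 2536573540) (nat_lit 171677262147099169904002161)) (C.cons (nat_lit 330) (C.miq (nat_lit 1125517093) (nat_lit 398966494463905716741996709)) (C.cons (nat_lit 90) (C.miq (nat_lit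 2536573540) (nat_lit 171677262147099169887224945)) (C.cons (nat_lit 74) (C.miq (nat_lit 1125517093) (nat_lit 89481484642560648017215653)) C.nil))))) (C.cons (nat_lit 140) (C.node (nat_lit 1) (nat_lit 2) (nat_lit 3) (C.cons (nat_lit 30) (C.node (nat_lit 1) (nat_lit 2) (nat_lit 7) (C.cons (nat_lit 134) (C.node (nat_lit 1) (nat_lit 4) (nat_lit 7) (C.cons (nat_lit 434) (C.miq (nat_lit 840369748) (nat_lit 161998882345992786369709169)) (C.cons (nat_lit 402) (C.miq (nat_lit 2458125937) (nat_lit 334882247420146123799658691)) (C.cons (nat_lit 178) (C.miq (nat_lit 840369748) (nat_lit 161998882345992786352931953)) (C.cons (nat_lit 146) (C.node (nat_lit 1) (nat_lit 3) (nat_lit 6) (C.cons (nat_lit 330) (C.node (nat_lit 2) (nat_lit 3) (nat_lit 5) C.nil) (C.cons (nat_lit 74) (C.node (nat_lit 2) (nat_lit 3) (nat_lit 5) C.nil) C.nil))) C.nil))))) C.nil)) (C.cons (nat_lit 14) (C.node (nat_lit 1) (nat_lit 2) (nat_lit 4) (C.cons (nat_lit 150) (C.node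 (nat_lit 2) (nat_lit 7) (nat_lit 10) (C.cons (nat_lit 1156) (C.node (nat_lit 3) (nat_lit 7) (nat_lit 8) C.nil) C.nil)) (C.cons (nat_lit 22) (C.node (nat_lit 1) (nat_lit 2) (nat_lit 7) (C.cons (nat_lit 134) (C.node (nat_lit 2) (nat_lit 7) (nat_lit 10) C.nil) C.nil)) C.nil))) C.nil))) C.nil))) C.nil))) C.nil))) C.nil)) C.nil))) (C.cons (nat_lit 200) (C.node (nat_lit 6) (nat_lit 7) (nat_lit 10) (C.cons (nat_lit 1216) (C.node (nat_lit 3) (nat_lit 7) (nat_lit 8) (C.cons (nat_lit 394) (C.node (nat_lit 1) (nat_lit 7) (nat_lit 10) (C.cons (nat_lit 1186) (C.miq (nat_lit 1898554720) (nat_lit 626259011089573269050557553)) (C.cons (nat_lit 1170) (C.miq (nat_lit 408580868) (nat_lit 1586132258135862133893693593)) (C.cons (nat_lit 1154) (C.node (nat_lit 1) (nat_lit 2) (nat_lit 3) (C.cons (nat_lit 30) (C.node (nat_lit 1) (nat_lit 2) (nat_lit 7) (C.cons (nat_lit 134) (C.node (nat_lit 1) (nat_lit 4) (nat_lit 7) (C.cons (nat_lit 178) (C.miq (nat_lit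 561210688) (nat_lit 476327638089134521898828913)) (C.cons (nat_lit 146) (C.node (nat_lit 2) (nat_lit 3) (nat_lit 7) (C.cons (nat_lit 1164) (C.miq (nat_lit 2536770081) (nat_lit 184975446162859833107022855)) (C.cons (nat_lit 140) (C.node (nat_lit 3) (nat_lit 8) (nat_lit 9) (C.cons (nat_lit 792) (C.miq (nat_lit 2821851457) (nat_lit 324011138790577445246206483)) (C.cons (nat_lit 776)
  (C.node (nat_lit 2) (nat_lit 3) (nat_lit 5) C.nil) C.nil))) C.nil))) C.nil))) C.nil)) (C.cons (nat_lit 14) (C.node (nat_lit 1) (nat_lit 2) (nat_lit 4) (C.cons (nat_lit 150) (C.node (nat_lit 4) (nat_lit 7) (nat_lit 10) (C.cons (nat_lit 1168) (C.node (nat_lit 1) (nat_lit 5) (nat_lit 7) (C.cons (nat_lit 674) (C.node (nat_lit 1) (nat_lit 8) (nat_lit 9) (C.cons (nat_lit 770) (C.node (nat_lit 3) (nat_lit 7) (nat_lit 9) (C.cons (nat_lit 648) (C.node (nat_lit 1) (nat_lit 3) (nat_lit 9) (C.cons (nat_lit 1546) (C.node (nat_lit 4) (nat_lit 7) (nat_lit 9) C.nil)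 C.nil)) C.nil)) C.nil)) (C.cons (nat_lit 162) (C.node (nat_lit 1) (nat_lit 7) (nat_lit 9) (C.cons (nat_lit 642) (C.node (nat_lit 1) (nat_lit 8) (nat_lit 9) (C.cons (nat_lit 802) (C.node (nat_lit 1) (nat_lit 4) (nat_lit 5) C.nil) (C.cons (nat_lit 770) (C.node (nat_lit 1) (nat_lit 5) (nat_lit 8) (C.cons (nat_lit 306) (C.node (nat_lit 4) (nat_lit 7) (nat_lit 8) C.nil) C.nil)) C.nil))) C.nil)) C.nil))) C.nil)) (C.cons (nat_lit 22) (C.node (nat_lit 1) (nat_lit 2) (nat_lit 7) (C.cons (nat_lit 134) (C.node (nat_lit 1) (nat_lit 4) (nat_lit 7) (C.cons (nat_lit 178) (C.miq (nat_lit 561210688) (nat_lit 476327638089134521898828913)) (C.cons (nat_lit 146) (C.node (nat_lit 1) (nat_lit 8) (nat_lit 9) (C.cons (nat_lit 802) (C.node (nat_lit 1) (nat_lit 5) (nat_lit 7) C.nil) C.nil)) C.nil))) C.nil)) C.nil))) C.nil))) C.nil)))) (C.cons (nat_lit 392) (C.node (nat_lit 1) (nat_lit 7) (nat_lit 8) (C.cons (nat_lit 434) (C.miq (nat_lit 2458125937) (nat_lit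 334882247420146123801755843)) (C.cons (nat_lit 418) (C.miq (nat_lit 2555512598) (nat_lit 353017205000446359504289987)) (C.cons (nat_lit 402) (C.miq (nat_lit 2458125937) (nat_lit 334882247420146123799658691)) (C.cons (nat_lit 386) (C.node (nat_lit 4) (nat_lit 6) (nat_lit 7) (C.cons (nat_lit 720) (C.node (nat_lit 6) (nat_lit 8) (nat_lit 9) (C.cons (nat_lit 832) (C.node (nat_lit 4) (nat_lit 7) (nat_lit 8) (C.cons (nat_lit 432) (C.miq (nat_lit 910494072) (nat_lit 1374554135750615117065095041)) (C.cons (nat_lit 400) (C.node (nat_lit 6) (nat_lit 8) (nat_lit 10) (C.cons (nat_lit 1354) (C.miq (nat_lit 2014448229) (nat_lit 316741608992524251502609521)) C.nil)) C.nil))) C.nil)) (C.cons (nat_lit 208) (C.node (nat_lit 6) (nat_lit 7) (nat_lit 9) (C.cons (nat_lit 704) (C.node (nat_lit 4) (nat_lit 6) (nat_lit 9) (C.cons (nat_lit 592) (C.node (nat_lit 6) (nat_lit 8) (nat_lit 9) C.nil) C.nil)) C.nil)) C.nil))) C.nil))))) C.nil))) C.nil)) C.nil)))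 C.nil)) C.nil))) C.nil))) C.nil)) C.nil))) C.nil))) C.nil))) C.nil))) C.nil))) C.nil))) C.nil))) C.nil)))) C.nil))) (C.cons (nat_lit 70) (C.node (nat_lit 2) (nat_lit 5) (nat_lit 6) (C.cons (nat_lit 100) (C.ref (nat_lit 154) (nat_lit 11649936536080)) C.nil)) C.nil))) C.nil)) (C.cons (nat_lit 196) (C.ref (nat_lit 174) (nat_lit 11649936536080)) C.nil)))) C.nil)))) List.nil)

theorem ok11_175 : okL par11 (nat_lit 176) c11_175 (nat_lit 175) = true := by decide +kernel

noncomputable def c11_176 : List C :=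
  (List.cons (C.node (nat_lit 6) (nat_lit 9) (nat_lit 10) (C.cons (nat_lit 1602) (C.ref (nat_lit 108) (nat_lit 11649936536080)) (C.cons (nat_lit 1600) (C.ref (nat_lit 175) (nat_lit 11649936536080)) C.nil))) (List.cons (C.node (nat_lit 0) (nat_lit 1) (nat_lit 3) (C.cons (nat_lit 267) (C.node (nat_lit 0) (nat_lit 1) (nat_lit 5) (C.cons (nat_lit 35) (C.ref (nat_lit 98) (nat_lit 11649936536080)) C.nil)) (C.cons (nat_lit 43) (C.node (nat_lit 0) (nat_lit 1) (nat_lit 8) (C.cons (nat_lit 259) (C.ref (nat_lit 98) (nat_lit 11430141571600)) C.nil)) (C.cons (nat_lit 11) (C.node (nat_lit 0) (nat_lit 1) (nat_lit 5) (C.cons (nat_lit 291) (C.ref (nat_lit 98) (nat_lit 10619142165520)) (C.cons (nat_lit 35) (C.node (nat_lit 0) (nat_lit 1) (nat_lit 8) (C.cons (nat_lit 259) (C.node (nat_lit 0) (nat_lit 2) (nat_lit 4) (C.cons (nat_lit 277) (C.node (nat_lit 0) (nat_lit 2) (nat_lit 5) (C.cons (nat_lit 165) (C.node (nat_lit 0) (nat_lit 3) (nat_lit 4) (C.cons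 (nat_lit 153) (C.node (nat_lit 0) (nat_lit 3) (nat_lit 5) (C.cons (nat_lit 297) (C.qs (C.cons (nat_lit 2816) (C.ref (nat_lit 176) (nat_lit 11649936536080)) (C.cons (nat_lit 3200) (C.ref (nat_lit 176) (nat_lit 11649936536080)) (C.cons (nat_lit 4736) (C.ref (nat_lit 176) (nat_lit 11649936536080)) (C.cons (nat_lit 2688) (C.pat (nat_lit 0) (nat_lit 195651667) (nat_lit 152197688265143684374819974742313)) (C.cons (nat_lit 704) (C.pat (nat_lit 3) (nat_lit 37403838819) (nat_lit 42839916981934041708076032875469650844280488525)) (C.cons (nat_lit 2208) (C.pat (nat_lit 3) (nat_lit 37370276453) (nat_lit 42840083039729099126650655803269639844766483569)) (C.cons (nat_lit 2576) (C.pat (nat_lit 3) (nat_lit 24482228888) (nat_lit 25356298805244191700661058859121587994670466945)) (C.cons (nat_lit 2568) (C.pat (nat_lit 1) (nat_lit 2780068146) (nat_lit 856819064413933165778759811922985505)) (C.cons (nat_lit 2312) (C.pat (nat_lit 1) (nat_lit 932493857)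 (nat_lit 1012510009965114735874888019570132865)) (C.cons (nat_lit 776) (C.pat (nat_lit 1) (nat_lit 1501252129) (nat_lit 2757152811466325253632994328383391617)) (C.cons (nat_lit 2824) (C.pat (nat_lit 1) (nat_lit 1501252129) (nat_lit 2757152811466325253632994328383391617)) (C.cons (nat_lit 584) (C.pat (nat_lit 2) (nat_lit 7100275522) (nat_lit 245360266289659357109080475646064330936747905)) (C.cons (nat_lit 2088) (C.pat (nat_lit 2) (nat_lit 23506168642) (nat_lit 780706772679918331303279952716726008431314817)) (C.cons (nat_lit 3076) (C.pat (nat_lit 1) (nat_lit 879213089) (nat_lit 2757121754026617743670619383479469169)) (C.cons (nat_lit 2180) (C.pat (nat_lit 1) (nat_lit 2830583346) (nat_lit 1438418427313830889370656483397140801)) (C.cons (nat_lit 1156) (C.pat (nat_lit 1) (nat_lit 2253093409) (nat_lit 1012523320296433512904520996294558833)) (C.cons (nat_lit 3204) (C.pat (nat_lit 1) (nat_lit 2253093409) (nat_lit 1012523320296433512904520996294558833))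 (C.cons (nat_lit 196) (C.pat (nat_lit 2) (nat_lit 7125365602) (nat_lit 245417433727275453634438608505270177090045825)) (C.cons (nat_lit 2068) (C.pat (nat_lit 2) (nat_lit 35535432562) (nat_lit 5775959362275554594562970401197871505571382385)) (C.cons (nat_lit 4610) (C.pat (nat_lit 1) (nat_lit 1417059105) (nat_lit 2757199714538522777648358070367879321)) (C.cons (nat_lit 4226) (C.pat (nat_lit 1) (nat_lit 2269735713) (nat_lit 1012650085356426821054152731360297113)) (C.cons (nat_lit 642) (C.pat (nat_lit 1) (nat_lit 3111479362) (nat_lit 3058306029225062428952779155173345153)) (C.cons (nat_lit 4738) (C.pat (nat_lit 1) (nat_lit 2269735713) (nat_lit 1012650085356426821054152731360297113)) (C.cons (nat_lit 162) (C.pat (nat_lit 2) (nat_lit 6856799588) (nat_lit 780635315646631730568708193077457508637935489)) (C.cons (nat_lit 530) (C.pat (nat_lit 2) (nat_lit 34998688628) (nat_lit 5775959362337862156275432532922544564018414157)) C.nil))))))))))))))))))))))))))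 C.nil)) C.nil)) C.nil)) (C.cons (nat_lit 149) (C.pat (nat_lit 0) (nat_lit 108612129) (nat_lit 152198674749423868550593578730503)) C.nil))) C.nil)) C.nil))) C.nil)))) (List.cons
  (C.node (nat_lit 0) (nat_lit 1) (nat_lit 7) (C.cons (nat_lit 163) (C.node (nat_lit 0) (nat_lit 1) (nat_lit 3) (C.cons (nat_lit 267) (C.node (nat_lit 0) (nat_lit 3) (nat_lit 5) (C.cons (nat_lit 41) (C.node (nat_lit 0) (nat_lit 2) (nat_lit 5) (C.cons (nat_lit 293) (C.node (nat_lit 0) (nat_lit 4) (nat_lit 8) C.nil) C.nil)) C.nil)) (C.cons (nat_lit 11) (C.node (nat_lit 0) (nat_lit 1) (nat_lit 8) C.nil) C.nil))) (C.cons (nat_lit 139) (C.node (nat_lit 0) (nat_lit 1) (nat_lit 5) (C.cons (nat_lit 291) (C.node (nat_lit 0) (nat_lit 5) (nat_lit 3) (C.cons (nat_lit 41) (C.node (nat_lit 0) (nat_lit 4) (nat_lit 3) (C.cons (nat_lit 281) (C.node (nat_lit 0) (nat_lit 2) (nat_lit 8) C.nil) C.nil)) C.nil)) (C.cons (nat_lit 35) (C.node (nat_lit 0) (nat_lit 1) (nat_lit 8)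 C.nil) C.nil))) (C.cons (nat_lit 131) (C.node (nat_lit 0) (nat_lit 1) (nat_lit 3) (C.cons (nat_lit 267) (C.node (nat_lit 0) (nat_lit 1) (nat_lit 5) C.nil) (C.cons (nat_lit 43) (C.node (nat_lit 0) (nat_lit 1) (nat_lit 8) C.nil) C.nil))) C.nil)))) (List.cons (C.node (nat_lit 0) (nat_lit 6) (nat_lit 7) (C.cons (nat_lit 195) (C.node (nat_lit 0) (nat_lit 6) (nat_lit 8) (C.cons (nat_lit 321) (C.ref (nat_lit 177) (nat_lit 11649936536080)) C.nil)) (C.cons (nat_lit 193) (C.node (nat_lit 0) (nat_lit 1) (nat_lit 6) (C.cons (nat_lit 323) (C.ref (nat_lit 177) (nat_lit 11645910004240)) (C.cons (nat_lit 67) (C.node (nat_lit 0) (nat_lit 6) (nat_lit 8) (C.cons (nat_lit 321) (C.ref (nat_lit 178) (nat_lit 11649936536080)) C.nil)) C.nil))) C.nil))) (List.cons (C.node (nat_lit 0) (nat_lit 6) (nat_lit 7) (C.cons (nat_lit 195) (C.node (nat_lit 0) (nat_lit 6) (nat_lit 8) (C.cons (nat_lit 321) (C.ref (nat_lit 178) (nat_lit 11430141571600)) C.nil)) (C.cons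 (nat_lit 193) (C.node (nat_lit 0) (nat_lit 1) (nat_lit 6) (C.cons (nat_lit 323) (C.ref (nat_lit 178) (nat_lit 11430140588560)) (C.cons (nat_lit 67) (C.node (nat_lit 0) (nat_lit 6) (nat_lit 8) C.nil) C.nil))) C.nil))) (List.cons (C.node (nat_lit 0) (nat_lit 4) (nat_lit 9) (C.cons (nat_lit 531) (C.node (nat_lit 0) (nat_lit 5) (nat_lit 9) (C.cons (nat_lit 545) (C.ref (nat_lit 179) (nat_lit 11649936536080)) C.nil)) (C.cons (nat_lit 529) (C.node (nat_lit 0) (nat_lit 1) (nat_lit 9) (C.cons (nat_lit 547) (C.ref (nat_lit 179) (nat_lit 11649935553040)) (C.cons (nat_lit 515) (C.node (nat_lit 0) (nat_lit 5) (nat_lit 9) (C.cons (nat_lit 545) (C.ref (nat_lit 180) (nat_lit 11649936536080)) C.nil)) C.nil))) C.nil))) (List.cons (C.big (C.cons (nat_lit 299) (C.ref (nat_lit 97) (nat_lit 11649936536080)) (C.cons (nat_lit 295) (C.ref (nat_lit 97) (nat_lit 11649936532240)) (C.cons (nat_lit 283) (C.ref (nat_lit 97) (nat_lit 11649935553040)) (C.cons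 (nat_lit 279) (C.ref (nat_lit 97) (nat_lit 11649935549200)) (C.cons (nat_lit 171) (C.ref (nat_lit 97) (nat_lit 11645910004240)) (C.cons (nat_lit 167) (C.ref (nat_lit 97) (nat_lit 11645910000400)) (C.cons (nat_lit 155) (C.ref (nat_lit 97) (nat_lit 11645909021200)) (C.cons (nat_lit 151) (C.ref (nat_lit 97) (nat_lit 11645909017360)) C.nil)))))))) (C.node (nat_lit 0) (nat_lit 2) (nat_lit 10) (C.cons (nat_lit 1031) (C.node (nat_lit 0) (nat_lit 3) (nat_lit 10) (C.cons (nat_lit 1033) (C.ref (nat_lit 181) (nat_lit 11649936536080)) C.nil)) (C.cons (nat_lit 1029) (C.node (nat_lit 0) (nat_lit 1) (nat_lit 10) (C.cons (nat_lit 1035) (C.ref (nat_lit 181) (nat_lit 11649936532240)) (C.cons (nat_lit 1027) (C.node (nat_lit 0) (nat_lit 3) (nat_lit 10) (C.cons (nat_lit 1033) (C.node (nat_lit 0) (nat_lit 4) (nat_lit 9) (C.cons (nat_lit 531) (C.node (nat_lit 0) (nat_lit 5) (nat_lit 9) (C.cons (nat_lit 545) (C.ref (nat_lit 180) (nat_lit 10619142165520))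 C.nil)) (C.cons (nat_lit 529) (C.node (nat_lit 0) (nat_lit 1) (nat_lit 9) (C.cons (nat_lit 547) (C.ref (nat_lit 180) (nat_lit 10619142161680)) (C.cons (nat_lit 515) (C.node (nat_lit 0) (nat_lit 5) (nat_lit 9) (C.cons (nat_lit 545) (C.node (nat_lit 0) (nat_lit 6) (nat_lit 7) (C.cons (nat_lit 195)
  (C.node (nat_lit 0) (nat_lit 6) (nat_lit 8) C.nil) C.nil)) C.nil)) C.nil))) C.nil))) C.nil)) C.nil))) C.nil)))) (List.cons (C.big C.nil (C.node (nat_lit 0) (nat_lit 1) (nat_lit 10) (C.cons (nat_lit 1027) (C.node (nat_lit 0) (nat_lit 2) (nat_lit 10) (C.cons (nat_lit 1029) (C.node (nat_lit 0) (nat_lit 3) (nat_lit 10) (C.cons (nat_lit 1033) (C.node (nat_lit 0) (nat_lit 4) (nat_lit 9) (C.cons (nat_lit 529) (C.node (nat_lit 0) (nat_lit 5) (nat_lit 9) (C.cons (nat_lit 545) (C.node (nat_lit 0) (nat_lit 6) (nat_lit 9) (C.cons (nat_lit 577) (C.node (nat_lit 0) (nat_lit 1) (nat_lit 4) (C.cons (nat_lit 275) (C.node (nat_lit 0) (nat_lit 1) (nat_lit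 5) (C.cons (nat_lit 163) (C.node (nat_lit 0) (nat_lit 1) (nat_lit 6) C.nil) C.nil)) (C.cons (nat_lit 147) (C.node (nat_lit 0) (nat_lit 1) (nat_lit 5) (C.cons (nat_lit 291) (C.node (nat_lit 0) (nat_lit 1) (nat_lit 6) C.nil) C.nil)) C.nil))) C.nil)) C.nil)) C.nil)) C.nil)) C.nil)) C.nil))) (List.cons (C.big (C.cons (nat_lit 1039) (C.big C.nil (C.node (nat_lit 0) (nat_lit 1) (nat_lit 4) (C.cons (nat_lit 531) (C.ref (nat_lit 93) (nat_lit 11649936536080)) (C.cons (nat_lit 275) (C.ref (nat_lit 93) (nat_lit 11585512026640)) (C.cons (nat_lit 147) (C.ref (nat_lit 93) (nat_lit 11517060985360)) (C.cons (nat_lit 19) (C.node (nat_lit 0) (nat_lit 1) (nat_lit 7) (C.cons (nat_lit 195) (C.ref (nat_lit 92) (nat_lit 11517043290640)) (C.cons (nat_lit 163) (C.ref (nat_lit 92) (nat_lit 11517060002320)) (C.cons (nat_lit 131) (C.node (nat_lit 0) (nat_lit 1) (nat_lit 5) (C.cons (nat_lit 547) (C.ref (nat_lit 91) (nat_lit 11649935553040)) (C.cons (nat_lit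 291) (C.ref (nat_lit 91) (nat_lit 11585511043600)) (C.cons (nat_lit 35) (C.node (nat_lit 0) (nat_lit 1) (nat_lit 8) (C.cons (nat_lit 323) (C.node (nat_lit 0) (nat_lit 1) (nat_lit 9) (C.cons (nat_lit 515) (C.ref (nat_lit 90) (nat_lit 11585494331920)) C.nil)) (C.cons (nat_lit 259) (C.node (nat_lit 0) (nat_lit 1) (nat_lit 6) (C.cons (nat_lit 579) (C.ref (nat_lit 90) (nat_lit 11649918841360)) (C.cons (nat_lit 67) (C.node (nat_lit 0) (nat_lit 1) (nat_lit 9) (C.cons (nat_lit 515) (C.node (nat_lit 0) (nat_lit 4) (nat_lit 7) (C.cons (nat_lit 153) (C.node (nat_lit 0) (nat_lit 4) (nat_lit 8) (C.cons (nat_lit 277) (C.node (nat_lit 0) (nat_lit 4) (nat_lit 9) C.nil) C.nil)) (C.cons (nat_lit 149) (C.node (nat_lit 0) (nat_lit 4) (nat_lit 8) (C.cons (nat_lit 281) (C.node (nat_lit 0) (nat_lit 4) (nat_lit 9) C.nil) C.nil)) C.nil))) C.nil)) C.nil))) C.nil))) C.nil)))) C.nil)))) C.nil)))))) (C.cons (nat_lit 589) (C.ref (nat_lit 182) (nat_lit 11649936536080))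 (C.cons (nat_lit 587) (C.ref (nat_lit 182) (nat_lit 11649936535840)) (C.cons (nat_lit 583) (C.ref (nat_lit 182) (nat_lit 11649936531760)) (C.cons (nat_lit 557) (C.ref (nat_lit 182) (nat_lit 11649920807440)) (C.cons (nat_lit 555) (C.ref (nat_lit 182) (nat_lit 11649920807200)) (C.cons (nat_lit 551) (C.ref (nat_lit 182) (nat_lit 11649920803120)) (C.cons (nat_lit 541) (C.ref (nat_lit 182) (nat_lit 11649904095760)) (C.cons (nat_lit 539) (C.ref (nat_lit 182) (nat_lit 11649904095520)) (C.cons (nat_lit 535) (C.ref (nat_lit 182) (nat_lit 11649904091440)) (C.cons (nat_lit 527) (C.ref (nat_lit 183) (nat_lit 11649936536080)) (C.cons (nat_lit 333) (C.ref (nat_lit 182) (nat_lit 11585512026640)) (C.cons (nat_lit 331) (C.ref (nat_lit 182) (nat_lit 11585512026400)) (C.cons (nat_lit 327) (C.ref (nat_lit 182) (nat_lit 11585512022320)) (C.cons (nat_lit 301) (C.ref (nat_lit 182) (nat_lit 11585496298000)) (C.cons (nat_lit 299) (C.ref (nat_lit 182) (nat_lit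 11585496297760)) (C.cons (nat_lit 295) (C.ref (nat_lit 182) (nat_lit 11585496293680)) (C.cons (nat_lit 285) (C.ref (nat_lit 182) (nat_lit 11585479586320)) (C.cons (nat_lit 283) (C.ref (nat_lit 182) (nat_lit 11585479586080)) (C.cons (nat_lit 279) (C.ref (nat_lit 182) (nat_lit 11585479582000)) (C.cons (nat_lit 271) (C.ref (nat_lit 183) (nat_lit 11585512026640)) (C.cons (nat_lit 205) (C.ref (nat_lit 182) (nat_lit 11517060985360)) (C.cons (nat_lit 203) (C.ref (nat_lit 182) (nat_lit 11517060985120))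
  (C.cons (nat_lit 199) (C.ref (nat_lit 182) (nat_lit 11517060981040)) (C.cons (nat_lit 173) (C.ref (nat_lit 182) (nat_lit 11517045256720)) (C.cons (nat_lit 171) (C.ref (nat_lit 182) (nat_lit 11517045256480)) (C.cons (nat_lit 167) (C.ref (nat_lit 182) (nat_lit 11517045252400)) (C.cons (nat_lit 157) (C.ref (nat_lit 182) (nat_lit 11517028545040)) (C.cons (nat_lit 155) (C.ref (nat_lit 182) (nat_lit 11517028544800)) (C.cons (nat_lit 151) (C.ref (nat_lit 182) (nat_lit 11517028540720)) (C.cons (nat_lit 143) (C.ref (nat_lit 183) (nat_lit 11517060985360)) (C.cons (nat_lit 79) (C.ref (nat_lit 183) (nat_lit 11430141571600)) (C.cons (nat_lit 47) (C.ref (nat_lit 183) (nat_lit 11365717062160)) (C.cons (nat_lit 31) (C.ref (nat_lit 183) (nat_lit 11297266020880)) C.nil)))))))))))))))))))))))))))))))))) C.nil) (List.cons (C.big (C.cons (nat_lit 1095) (C.ref (nat_lit 183) (nat_lit 11416451372080)) (C.cons (nat_lit 1063) (C.ref (nat_lit 183) (nat_lit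 11347731899440)) (C.cons (nat_lit 1047) (C.ref (nat_lit 183) (nat_lit 11279012422960)) (C.cons (nat_lit 1039) (C.ref (nat_lit 183) (nat_lit 11210292946240)) (C.cons (nat_lit 583) (C.ref (nat_lit 183) (nat_lit 10316956521520)) (C.cons (nat_lit 551) (C.ref (nat_lit 183) (nat_lit 10248237048880)) (C.cons (nat_lit 535) (C.ref (nat_lit 183) (nat_lit 10179517572400)) (C.cons (nat_lit 527) (C.ref (nat_lit 183) (nat_lit 10110798095680)) (C.cons (nat_lit 327) (C.ref (nat_lit 183) (nat_lit 9217445942320)) (C.cons (nat_lit 295) (C.ref (nat_lit 183) (nat_lit 9148726469680)) (C.cons (nat_lit 279) (C.ref (nat_lit 183) (nat_lit 9080006993200)) (C.cons (nat_lit 271) (C.ref (nat_lit 183) (nat_lit 9011287516480)) (C.cons (nat_lit 199) (C.ref (nat_lit 183) (nat_lit 8117934380080)) (C.cons (nat_lit 167) (C.ref (nat_lit 183) (nat_lit 8049214907440)) (C.cons (nat_lit 151) (C.ref (nat_lit 183) (nat_lit 7980495430960)) (C.cons (nat_lit 143) (C.ref (nat_lit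 183) (nat_lit 7911775954240)) C.nil)))))))))))))))) C.nil) (List.cons (C.node (nat_lit 0) (nat_lit 3) (nat_lit 5) (C.cons (nat_lit 553) (C.node (nat_lit 0) (nat_lit 4) (nat_lit 5) (C.cons (nat_lit 113) (C.pat (nat_lit 2) (nat_lit 43304518516) (nat_lit 23125928918479448237731248429541630845208035619)) (C.cons (nat_lit 49) (C.node (nat_lit 0) (nat_lit 4) (nat_lit 6) (C.cons (nat_lit 593) (C.pat (nat_lit 3) (nat_lit 14567942535) (nat_lit 12332513883939307436258773536796691433143994241)) (C.cons (nat_lit 81) (C.node (nat_lit 0) (nat_lit 4) (nat_lit 9) (C.cons (nat_lit 529) (C.node (nat_lit 0) (nat_lit 6) (nat_lit 9) (C.cons (nat_lit 577) (C.node (nat_lit 0) (nat_lit 5) (nat_lit 6) (C.cons (nat_lit 1121) (C.pat (nat_lit 3) (nat_lit 5742148231) (nat_lit 23260058700111738641927610036405118940130903937)) C.nil)) C.nil)) C.nil)) C.nil))) C.nil))) (C.cons (nat_lit 41) (C.node (nat_lit 0) (nat_lit 3) (nat_lit 9) (C.cons (nat_lit 521) (C.node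 (nat_lit 0) (nat_lit 5) (nat_lit 10) (C.cons (nat_lit 1121) (C.pat (nat_lit 3) (nat_lit 5742148231) (nat_lit 23260058700111738641927610036405118940130903937)) (C.cons (nat_lit 1057) (C.node (nat_lit 0) (nat_lit 6) (nat_lit 10) (C.cons (nat_lit 1089) (C.node (nat_lit 0) (nat_lit 4) (nat_lit 5) (C.cons (nat_lit 561) (C.node (nat_lit 0) (nat_lit 4) (nat_lit 6) C.nil) (C.cons (nat_lit 113) (C.pat (nat_lit 2) (nat_lit 43304518516) (nat_lit 23125928918479448237731248429541630845208035619)) C.nil))) C.nil)) C.nil))) C.nil)) C.nil))) (List.cons (C.qs C.nil) (List.cons (C.node (nat_lit 0) (nat_lit 4) (nat_lit 5) (C.cons (nat_lit 561) (C.node (nat_lit 0) (nat_lit 4) (nat_lit 6) (C.cons (nat_lit 81) (C.node (nat_lit 0) (nat_lit 5) (nat_lit 6) (C.cons (nat_lit 97) (C.node (nat_lit 0) (nat_lit 6) (nat_lit 9) (C.cons (nat_lit 577) (C.ref (nat_lit 187) (nat_lit 11649936536080)) C.nil)) C.nil)) C.nil)) (C.cons (nat_lit 113) (C.pat (nat_lit 1)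 (nat_lit 947280449) (nat_lit 1510984452134862213519804048597911425)) (C.cons (nat_lit 49) (C.node (nat_lit 0) (nat_lit 4) (nat_lit 6) (C.cons (nat_lit 593) (C.node (nat_lit 0) (nat_lit 6) (nat_lit 5)
  (C.cons (nat_lit 97) (C.node (nat_lit 0) (nat_lit 5) (nat_lit 9) (C.cons (nat_lit 545) (C.ref (nat_lit 187) (nat_lit 9459487486240)) C.nil)) C.nil)) (C.cons (nat_lit 81) (C.node (nat_lit 0) (nat_lit 4) (nat_lit 9) (C.cons (nat_lit 529) (C.node (nat_lit 0) (nat_lit 5) (nat_lit 6) (C.cons (nat_lit 609) (C.ref (nat_lit 187) (nat_lit 11645876580640)) C.nil)) C.nil)) C.nil))) C.nil)))) (List.cons (C.node (nat_lit 0) (nat_lit 2) (nat_lit 3) (C.cons (nat_lit 1037) (C.node (nat_lit 0) (nat_lit 2) (nat_lit 6) (C.cons (nat_lit 69) (C.ref (nat_lit 186) (nat_lit 11649936536080)) C.nil)) (C.cons (nat_lit 13) (C.node (nat_lit 0) (nat_lit 2) (nat_lit 6) (C.cons (nat_lit 1093) (C.node (nat_lit 0) (nat_lit 3) (nat_lit 9) (C.cons (nat_lit 553) (C.node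 (nat_lit 0) (nat_lit 3) (nat_lit 10) (C.cons (nat_lit 1033) (C.node (nat_lit 0) (nat_lit 5) (nat_lit 10) (C.cons (nat_lit 1057) (C.node (nat_lit 0) (nat_lit 4) (nat_lit 5) (C.cons (nat_lit 113) (C.pat (nat_lit 1) (nat_lit 663054913) (nat_lit 1012510960412923817056252421536286593)) (C.cons (nat_lit 49) (C.node (nat_lit 0) (nat_lit 5) (nat_lit 6) (C.cons (nat_lit 97) (C.node (nat_lit 0) (nat_lit 4) (nat_lit 6) (C.cons (nat_lit 593) (C.pat (nat_lit 3) (nat_lit 14567942535) (nat_lit 12332513883939307436258773536796691433143994241)) C.nil)) C.nil)) C.nil))) C.nil)) C.nil)) (C.cons (nat_lit 521) (C.node (nat_lit 0) (nat_lit 3) (nat_lit 5) (C.cons (nat_lit 1065) (C.ref (nat_lit 188) (nat_lit 11649936536080)) (C.cons (nat_lit 41) (C.node (nat_lit 0) (nat_lit 3) (nat_lit 10) (C.cons (nat_lit 1033) (C.node (nat_lit 0) (nat_lit 5) (nat_lit 10) (C.cons (nat_lit 1057) (C.node (nat_lit 0) (nat_lit 4) (nat_lit 5) (C.cons (nat_lit 561) (C.node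 (nat_lit 0) (nat_lit 4) (nat_lit 6) C.nil) (C.cons (nat_lit 113) (C.pat (nat_lit 1) (nat_lit 663054913) (nat_lit 1012510960412923817056252421536286593)) C.nil))) C.nil)) C.nil)) C.nil))) C.nil))) (C.cons (nat_lit 69) (C.node (nat_lit 0) (nat_lit 2) (nat_lit 10) (C.cons (nat_lit 1029) (C.node (nat_lit 0) (nat_lit 3) (nat_lit 9) (C.cons (nat_lit 553) (C.node (nat_lit 0) (nat_lit 3) (nat_lit 10) (C.cons (nat_lit 1033) (C.node (nat_lit 0) (nat_lit 4) (nat_lit 5) (C.cons (nat_lit 113) (C.pat (nat_lit 2) (nat_lit 39562019445) (nat_lit 11574153113893516610448314323625164917694595401)) (C.cons (nat_lit 49) (C.node (nat_lit 0) (nat_lit 4) (nat_lit 6) (C.cons (nat_lit 593) (C.pat (nat_lit 3) (nat_lit 14567942535) (nat_lit 12332513883939307436258773536796691433143994241)) C.nil)) C.nil))) C.nil)) (C.cons (nat_lit 521) (C.node (nat_lit 0) (nat_lit 3) (nat_lit 5) (C.cons (nat_lit 1065) (C.node (nat_lit 0) (nat_lit 6) (nat_lit 10) (C.cons (nat_lit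 1089) (C.node (nat_lit 0) (nat_lit 4) (nat_lit 5) (C.cons (nat_lit 561) (C.node (nat_lit 0) (nat_lit 4) (nat_lit 6) C.nil) (C.cons (nat_lit 113) (C.pat (nat_lit 1) (nat_lit 947280449) (nat_lit 1510984452134862213519804048597911425)) C.nil))) C.nil)) (C.cons (nat_lit 41) (C.node (nat_lit 0) (nat_lit 3) (nat_lit 10) C.nil) C.nil))) C.nil))) C.nil)) C.nil))) C.nil))) (List.cons (C.node (nat_lit 0) (nat_lit 3) (nat_lit 9) (C.cons (nat_lit 553) (C.node (nat_lit 0) (nat_lit 3) (nat_lit 10) (C.cons (nat_lit 1033) (C.node (nat_lit 0) (nat_lit 4) (nat_lit 5) (C.cons (nat_lit 113) (C.pat (nat_lit 1) (nat_lit 1165394481) (nat_lit 1510967338851744596388549344765739173)) (C.cons (nat_lit 49) (C.node (nat_lit 0) (nat_lit 4) (nat_lit 6) (C.cons (nat_lit 593) (C.pat (nat_lit 2) (nat_lit 40034727555) (nat_lit 13224436162455407206254635768020176834824568997)) C.nil)) C.nil))) C.nil)) (C.cons (nat_lit 521) (C.node (nat_lit 0) (nat_lit 3) (nat_lit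 5) (C.cons (nat_lit 1065) (C.pat (nat_lit 1) (nat_lit 2052604705) (nat_lit 5415717821103815354255968672305972265)) (C.cons (nat_lit 41) (C.node (nat_lit 0) (nat_lit 3) (nat_lit 10) C.nil) C.nil))) C.nil))) (List.cons (C.node (nat_lit 0) (nat_lit 1) (nat_lit 2) (C.cons (nat_lit 519) (C.node (nat_lit 0) (nat_lit 1) (nat_lit 3) (C.cons (nat_lit 11) (C.ref (nat_lit 189) (nat_lit 11649936536080)) C.nil))
  (C.cons (nat_lit 15) (C.node (nat_lit 0) (nat_lit 1) (nat_lit 9) (C.cons (nat_lit 515) (C.node (nat_lit 0) (nat_lit 2) (nat_lit 9) (C.cons (nat_lit 581) (C.node (nat_lit 0) (nat_lit 2) (nat_lit 10) (C.cons (nat_lit 1029) (C.node (nat_lit 0) (nat_lit 3) (nat_lit 9) (C.cons (nat_lit 553) (C.pat (nat_lit 1) (nat_lit 2556908321) (nat_lit 1511110583369575477732754106085605705)) (C.cons (nat_lit 521) (C.node (nat_lit 0) (nat_lit 3) (nat_lit 5) (C.cons (nat_lit 1065) (C.pat (nat_lit 1) (nat_lit 2052604705) (nat_lit 5415717821103815354255968672305972265))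 (C.cons (nat_lit 41) (C.node (nat_lit 0) (nat_lit 3) (nat_lit 10) (C.cons (nat_lit 1033) (C.node (nat_lit 0) (nat_lit 4) (nat_lit 6) (C.cons (nat_lit 113) (C.pat (nat_lit 1) (nat_lit 1183150881) (nat_lit 1012506840548455735371263855049376073)) (C.cons (nat_lit 81) (C.node (nat_lit 0) (nat_lit 4) (nat_lit 5) (C.cons (nat_lit 561) (C.pat (nat_lit 2) (nat_lit 40319944050) (nat_lit 12510770120590468571052737267697019076974281033)) C.nil)) C.nil))) C.nil)) C.nil))) C.nil))) C.nil)) (C.cons (nat_lit 517) (C.node (nat_lit 0) (nat_lit 2) (nat_lit 6) (C.cons (nat_lit 1093) (C.pat (nat_lit 1) (nat_lit 2269799201) (nat_lit 1012650085975396988270791094832529561)) (C.cons (nat_lit 69) (C.node (nat_lit 0) (nat_lit 2) (nat_lit 10) (C.cons (nat_lit 1029) (C.ref (nat_lit 190) (nat_lit 11649936536080)) C.nil)) C.nil))) C.nil))) C.nil)) (C.cons (nat_lit 7) (C.node (nat_lit 0) (nat_lit 1) (nat_lit 3) (C.cons (nat_lit 523) (C.ref (nat_lit 189) (nat_lit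 11645894271760)) (C.cons (nat_lit 11) (C.node (nat_lit 0) (nat_lit 1) (nat_lit 9) (C.cons (nat_lit 515) (C.node (nat_lit 0) (nat_lit 2) (nat_lit 3) (C.cons (nat_lit 1037) (C.node (nat_lit 0) (nat_lit 2) (nat_lit 6) (C.cons (nat_lit 581) (C.node (nat_lit 0) (nat_lit 3) (nat_lit 5) (C.cons (nat_lit 553) (C.node (nat_lit 0) (nat_lit 4) (nat_lit 9) (C.cons (nat_lit 529) (C.node (nat_lit 0) (nat_lit 5) (nat_lit 4) (C.cons (nat_lit 113) (C.pat (nat_lit 1) (nat_lit 678717779) (nat_lit 1708287612843951109013837539248768897)) (C.cons (nat_lit 49) (C.node (nat_lit 0) (nat_lit 4) (nat_lit 6) (C.cons (nat_lit 81) (C.node (nat_lit 0) (nat_lit 5) (nat_lit 6) (C.cons (nat_lit 1121) (C.pat (nat_lit 3) (nat_lit 5993867896) (nat_lit 23260058699613268319216111790049323906856454017)) C.nil)) C.nil)) C.nil))) C.nil)) (C.cons (nat_lit 41) (C.node (nat_lit 0) (nat_lit 3) (nat_lit 9) (C.cons (nat_lit 521) (C.node (nat_lit 0) (nat_lit 6) (nat_lit 4) (C.cons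 (nat_lit 113) (C.pat (nat_lit 2) (nat_lit 43304518516) (nat_lit 23125928918479448237731248429541630845208035619)) (C.cons (nat_lit 81) (C.node (nat_lit 0) (nat_lit 6) (nat_lit 5) (C.cons (nat_lit 1121) (C.pat (nat_lit 3) (nat_lit 5742148231) (nat_lit 23260058700111738641927610036405118940130903937)) C.nil)) C.nil))) C.nil)) C.nil))) (C.cons (nat_lit 69) (C.node (nat_lit 0) (nat_lit 2) (nat_lit 9) (C.cons (nat_lit 517) (C.node (nat_lit 0) (nat_lit 3) (nat_lit 5) (C.cons (nat_lit 553) (C.node (nat_lit 0) (nat_lit 5) (nat_lit 4) (C.cons (nat_lit 113) (C.pat (nat_lit 2) (nat_lit 43322274436) (nat_lit 23125984725286083769860336040899377585580212419)) (C.cons (nat_lit 49) (C.node (nat_lit 0) (nat_lit 5) (nat_lit 6) (C.cons (nat_lit 1121) (C.pat (nat_lit 3) (nat_lit 5993867896) (nat_lit 23260058699613268319216111790049323906856454017)) C.nil)) C.nil))) (C.cons (nat_lit 41) (C.node (nat_lit 0) (nat_lit 3) (nat_lit 9) C.nil) C.nil))) C.nil))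 C.nil))) (C.cons (nat_lit 525) (C.node (nat_lit 0) (nat_lit 2) (nat_lit 6) (C.cons (nat_lit 1093) (C.node (nat_lit 0) (nat_lit 3) (nat_lit 5) (C.cons (nat_lit 1065) (C.ref (nat_lit 188) (nat_lit 9447423611680)) (C.cons (nat_lit 41) (C.node (nat_lit 0) (nat_lit 3) (nat_lit 10) (C.cons (nat_lit 1033) (C.node (nat_lit 0) (nat_lit 5) (nat_lit 10) (C.cons (nat_lit 1057) (C.node (nat_lit 0) (nat_lit 6) (nat_lit 4) (C.cons (nat_lit 593) (C.node (nat_lit 0) (nat_lit 6) (nat_lit 5) C.nil) (C.cons (nat_lit 113)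
  (C.pat (nat_lit 1) (nat_lit 410339938) (nat_lit 1438289285408930904270562212237608833)) C.nil))) C.nil)) C.nil)) C.nil))) (C.cons (nat_lit 69) (C.node (nat_lit 0) (nat_lit 2) (nat_lit 10) (C.cons (nat_lit 1029) (C.node (nat_lit 0) (nat_lit 3) (nat_lit 5) (C.cons (nat_lit 1065) (C.node (nat_lit 0) (nat_lit 6) (nat_lit 10) (C.cons (nat_lit 1089) (C.node (nat_lit 0) (nat_lit 5) (nat_lit 4) (C.cons (nat_lit 561) (C.node (nat_lit 0) (nat_lit 5) (nat_lit 6) C.nil) (C.cons (nat_lit 113) (C.pat (nat_lit 1) (nat_lit 394676819) (nat_lit 794436869245274743400192349352036225)) C.nil))) C.nil)) (C.cons (nat_lit 41) (C.node (nat_lit 0) (nat_lit 3) (nat_lit 10) C.nil) C.nil))) C.nil)) C.nil))) (C.cons (nat_lit 13) (C.node (nat_lit 0) (nat_lit 2) (nat_lit 9) (C.cons (nat_lit 581) (C.node (nat_lit 0) (nat_lit 2) (nat_lit 10) (C.cons (nat_lit 1029) (C.node (nat_lit 0) (nat_lit 3) (nat_lit 9) (C.cons (nat_lit 553) (C.node (nat_lit 0) (nat_lit 3)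 (nat_lit 10) (C.cons (nat_lit 1033) (C.node (nat_lit 0) (nat_lit 4) (nat_lit 9) C.nil) C.nil)) (C.cons (nat_lit 521) (C.node (nat_lit 0) (nat_lit 3) (nat_lit 5) (C.cons (nat_lit 1065) (C.node (nat_lit 0) (nat_lit 6) (nat_lit 10) C.nil) C.nil)) C.nil))) C.nil)) (C.cons (nat_lit 517) (C.node (nat_lit 0) (nat_lit 2) (nat_lit 6) (C.cons (nat_lit 1093) (C.node (nat_lit 0) (nat_lit 3) (nat_lit 9) (C.cons (nat_lit 553) (C.node (nat_lit 0) (nat_lit 3) (nat_lit 10) (C.cons (nat_lit 1033) (C.node (nat_lit 0) (nat_lit 5) (nat_lit 10) C.nil) C.nil)) (C.cons (nat_lit 521) (C.node (nat_lit 0) (nat_lit 3) (nat_lit 5) (C.cons (nat_lit 1065) (C.node (nat_lit 0) (nat_lit 4) (nat_lit 5) (C.cons (nat_lit 561) (C.node (nat_lit 0) (nat_lit 4) (nat_lit 6) C.nil) (C.cons (nat_lit 113) (C.pat (nat_lit 1) (nat_lit 947280449) (nat_lit 1510984452134862213519804048597911425)) C.nil))) C.nil)) C.nil))) (C.cons (nat_lit 69) (C.node (nat_lit 0) (nat_lit 2) (nat_lit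 10) C.nil) C.nil))) C.nil))) C.nil)))) C.nil)) C.nil))) C.nil)))) List.nil))))))))))))))))

theorem ok11_176 : okL par11 (nat_lit 192) c11_176 (nat_lit 176) = true := by decide +kernel

noncomputable def c11_192 : List C :=
  (List.cons (C.node (nat_lit 0) (nat_lit 3) (nat_lit 5) (C.cons (nat_lit 1065) (C.node (nat_lit 0) (nat_lit 6) (nat_lit 10) (C.cons (nat_lit 1105) (C.pat (nat_lit 3) (nat_lit 14567942791) (nat_lit 23750669650158850005837324559834347726979794817)) (C.cons (nat_lit 1089) (C.node (nat_lit 0) (nat_lit 4) (nat_lit 10) (C.cons (nat_lit 1041) (C.node (nat_lit 0) (nat_lit 5) (nat_lit 6) (C.cons (nat_lit 609) (C.node (nat_lit 0) (nat_lit 5) (nat_lit 4) C.nil) (C.cons (nat_lit 113) (C.pat (nat_lit 2) (nat_lit 43856986741) (nat_lit 22992134655541195658914611523954091748046995785)) C.nil))) C.nil)) C.nil))) (C.cons (nat_lit 41) (C.node (nat_lit 0) (nat_lit 3) (nat_lit 10) (C.cons (nat_lit 1033) (C.node (nat_lit 0) (nat_lit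 4) (nat_lit 9) (C.cons (nat_lit 593) (C.node (nat_lit 0) (nat_lit 5) (nat_lit 9) C.nil) (C.cons (nat_lit 561) (C.node (nat_lit 0) (nat_lit 6) (nat_lit 9) C.nil) C.nil))) C.nil)) C.nil))) (List.cons (C.node (nat_lit 0) (nat_lit 2) (nat_lit 3) (C.cons (nat_lit 1037) (C.node (nat_lit 0) (nat_lit 3) (nat_lit 5) (C.cons (nat_lit 41) (C.ref (nat_lit 192) (nat_lit 10619111940400)) C.nil)) (C.cons (nat_lit 13) (C.node (nat_lit 0) (nat_lit 2) (nat_lit 9) (C.cons (nat_lit 581) (C.node (nat_lit 0) (nat_lit 2) (nat_lit 10) (C.cons (nat_lit 1029) (C.node (nat_lit 0) (nat_lit 3) (nat_lit 5) (C.cons (nat_lit 1065) (C.node (nat_lit 0) (nat_lit 5) (nat_lit 6) (C.cons (nat_lit 113) (C.pat (nat_lit 2) (nat_lit 39262191990) (nat_lit 11663341802890535985918335144508051220928332053)) (C.cons (nat_lit 97) (C.node (nat_lit 0) (nat_lit 5) (nat_lit 4) (C.cons (nat_lit 561) (C.pat (nat_lit 3) (nat_lit 9754057095) (nat_lit 12956923860192426988222143287340903552245761921))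 C.nil)) C.nil))) (C.cons (nat_lit 41) (C.node (nat_lit 0) (nat_lit 3) (nat_lit 10) C.nil) C.nil))) C.nil)) (C.cons (nat_lit 517) (C.node (nat_lit 0) (nat_lit 2) (nat_lit 6) (C.cons (nat_lit 1093) (C.node (nat_lit 0) (nat_lit 3) (nat_lit 5) (C.cons (nat_lit 1065) (C.node (nat_lit 0) (nat_lit 4) (nat_lit 10) (C.cons (nat_lit 1041) (C.node (nat_lit 0) (nat_lit 5) (nat_lit 6) (C.cons (nat_lit 609) (C.node (nat_lit 0) (nat_lit 5) (nat_lit 4) C.nil) (C.cons (nat_lit 113) (C.pat (nat_lit 1) (nat_lit 678718035) (nat_lit 1708287612843960553746805477562451841)) C.nil))) C.nil)) (C.cons (nat_lit 41) (C.node (nat_lit 0) (nat_lit 3) (nat_lit 10) C.nil) C.nil))) (C.cons (nat_lit 69) (C.node (nat_lit 0) (nat_lit 2) (nat_lit 10) C.nil) C.nil))) C.nil))) C.nil))) (List.cons (C.node (nat_lit 0) (nat_lit 1) (nat_lit 2) (C.cons (nat_lit 1031) (C.node (nat_lit 0) (nat_lit 2) (nat_lit 3) (C.cons (nat_lit 13) (C.node (nat_lit 0) (nat_lit 2) (nat_lit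 6) (C.cons (nat_lit 581) (C.ref (nat_lit 186) (nat_lit 10615084429600)) (C.cons (nat_lit 69) (C.node (nat_lit 0) (nat_lit 2) (nat_lit 9) (C.cons (nat_lit 517) (C.ref (nat_lit 192) (nat_lit 11649936536080)) C.nil)) C.nil))) C.nil)) (C.cons (nat_lit 7) (C.node (nat_lit 0) (nat_lit 1) (nat_lit 10) (C.cons (nat_lit 1027) (C.ref (nat_lit 193) (nat_lit 11649936536080)) C.nil)) C.nil))) (List.cons (C.node (nat_lit 0) (nat_lit 2) (nat_lit 6) (C.cons (nat_lit 581) (C.node (nat_lit 0) (nat_lit 3) (nat_lit 5) (C.cons (nat_lit 553) (C.node (nat_lit 0) (nat_lit 4) (nat_lit 9) (C.cons (nat_lit 529) (C.node (nat_lit 0) (nat_lit 5) (nat_lit 4) (C.cons (nat_lit 1073) (C.node (nat_lit 0) (nat_lit 5) (nat_lit 6) C.nil) (C.cons (nat_lit 113) (C.pat (nat_lit 1) (nat_lit 678717779) (nat_lit 1708287612843951109013837539248768897)) C.nil))) C.nil)) (C.cons (nat_lit 41) (C.node (nat_lit 0) (nat_lit 3) (nat_lit 9) C.nil) C.nil))) (C.cons (nat_lit 69) (C.node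 (nat_lit 0) (nat_lit 2) (nat_lit 9) C.nil) C.nil))) (List.cons (C.node (nat_lit 0) (nat_lit 2) (nat_lit 9) (C.cons (nat_lit 581) (C.node (nat_lit 0) (nat_lit 2) (nat_lit 10) (C.cons (nat_lit 1029) (C.node (nat_lit 0) (nat_lit 4) (nat_lit 9) (C.cons (nat_lit 561) (C.pat (nat_lit 2) (nat_lit 35772339825) (nat_lit 7336997234375595096810988937721398258982650417)) (C.cons (nat_lit 529)
  (C.node (nat_lit 0) (nat_lit 5) (nat_lit 9) C.nil) C.nil))) C.nil)) (C.cons (nat_lit 517) (C.node (nat_lit 0) (nat_lit 2) (nat_lit 6) (C.cons (nat_lit 1093) (C.node (nat_lit 0) (nat_lit 4) (nat_lit 10) (C.cons (nat_lit 1041) (C.node (nat_lit 0) (nat_lit 4) (nat_lit 5) (C.cons (nat_lit 561) (C.node (nat_lit 0) (nat_lit 4) (nat_lit 6) C.nil) (C.cons (nat_lit 113) (C.pat (nat_lit 2) (nat_lit 6612546661) (nat_lit 513289069901530034130506578752534542759823233)) C.nil))) C.nil)) (C.cons (nat_lit 69) (C.node (nat_lit 0) (nat_lit 2) (nat_lit 10) C.nil) C.nil)))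 C.nil))) (List.cons (C.node (nat_lit 0) (nat_lit 1) (nat_lit 2) (C.cons (nat_lit 1031) (C.node (nat_lit 0) (nat_lit 1) (nat_lit 4) (C.cons (nat_lit 19) (C.node (nat_lit 0) (nat_lit 4) (nat_lit 10) (C.cons (nat_lit 1105) (C.node (nat_lit 0) (nat_lit 2) (nat_lit 4) (C.cons (nat_lit 533) (C.node (nat_lit 0) (nat_lit 2) (nat_lit 6) (C.cons (nat_lit 69) (C.node (nat_lit 0) (nat_lit 4) (nat_lit 5) (C.cons (nat_lit 49) (C.node (nat_lit 0) (nat_lit 5) (nat_lit 6) (C.cons (nat_lit 609) (C.ref (nat_lit 187) (nat_lit 11585445904720)) C.nil)) C.nil)) C.nil)) (C.cons (nat_lit 21) (C.node (nat_lit 0) (nat_lit 2) (nat_lit 6) (C.cons (nat_lit 581) (C.node (nat_lit 0) (nat_lit 5) (nat_lit 6) (C.cons (nat_lit 97) (C.node (nat_lit 0) (nat_lit 4) (nat_lit 5) (C.cons (nat_lit 561) (C.pat (nat_lit 3) (nat_lit 18578807447) (nat_lit 24642685848010033941307428440132004196317857665)) C.nil)) C.nil)) (C.cons (nat_lit 69) (C.node (nat_lit 0) (nat_lit 2) (nat_lit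 9) C.nil) C.nil))) C.nil))) (C.cons (nat_lit 1041) (C.node (nat_lit 0) (nat_lit 6) (nat_lit 10) (C.cons (nat_lit 1089) (C.node (nat_lit 0) (nat_lit 2) (nat_lit 4) (C.cons (nat_lit 533) (C.node (nat_lit 0) (nat_lit 2) (nat_lit 6) C.nil) (C.cons (nat_lit 85) (C.node (nat_lit 0) (nat_lit 2) (nat_lit 9) C.nil) C.nil))) C.nil)) C.nil))) C.nil)) (C.cons (nat_lit 23) (C.node (nat_lit 0) (nat_lit 1) (nat_lit 10) (C.cons (nat_lit 1027) (C.ref (nat_lit 196) (nat_lit 11649936536080)) C.nil)) (C.cons (nat_lit 7) (C.node (nat_lit 0) (nat_lit 1) (nat_lit 4) (C.cons (nat_lit 1043) (C.node (nat_lit 0) (nat_lit 2) (nat_lit 10) (C.cons (nat_lit 1093) (C.node (nat_lit 0) (nat_lit 2) (nat_lit 4) (C.cons (nat_lit 533) (C.node (nat_lit 0) (nat_lit 5) (nat_lit 4) (C.cons (nat_lit 113) (C.pat (nat_lit 1) (nat_lit 933521489) (nat_lit 1012510010584071769143729176123082625)) (C.cons (nat_lit 49) (C.node (nat_lit 0) (nat_lit 4) (nat_lit 6) (C.cons (nat_lit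 81) (C.node (nat_lit 0) (nat_lit 5) (nat_lit 6) (C.cons (nat_lit 609) (C.pat (nat_lit 3) (nat_lit 10288708007) (nat_lit 11886504428453540087947143859632778951435814785)) C.nil)) C.nil)) C.nil))) (C.cons (nat_lit 21) (C.node (nat_lit 0) (nat_lit 2) (nat_lit 9) (C.cons (nat_lit 517) (C.node (nat_lit 0) (nat_lit 5) (nat_lit 4) (C.cons (nat_lit 561) (C.node (nat_lit 0) (nat_lit 5) (nat_lit 6) C.nil) (C.cons (nat_lit 113) (C.pat (nat_lit 1) (nat_lit 933521489) (nat_lit 1012510010584071769143729176123082625)) C.nil))) C.nil)) C.nil))) (C.cons (nat_lit 1029) (C.node (nat_lit 0) (nat_lit 6) (nat_lit 10) (C.cons (nat_lit 1089) (C.node (nat_lit 0) (nat_lit 2) (nat_lit 4) (C.cons (nat_lit 533) (C.node (nat_lit 0) (nat_lit 2) (nat_lit 6) C.nil) (C.cons (nat_lit 85) (C.node (nat_lit 0) (nat_lit 2) (nat_lit 9) C.nil) C.nil))) C.nil)) C.nil))) (C.cons (nat_lit 19) (C.node (nat_lit 0) (nat_lit 1) (nat_lit 10) (C.cons (nat_lit 1027) (C.node (nat_lit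 0) (nat_lit 2) (nat_lit 9) (C.cons (nat_lit 581) (C.node (nat_lit 0) (nat_lit 2) (nat_lit 4) (C.cons (nat_lit 1045) (C.node (nat_lit 0) (nat_lit 6) (nat_lit 10) C.nil) C.nil)) (C.cons (nat_lit 533) (C.node (nat_lit 0) (nat_lit 2) (nat_lit 6) (C.cons (nat_lit 1093) (C.node (nat_lit 0) (nat_lit 4) (nat_lit 10) C.nil) C.nil)) C.nil))) C.nil)) C.nil))) C.nil)))) (List.cons (C.node (nat_lit 0) (nat_lit 2) (nat_lit 9) (C.cons (nat_lit 581) (C.node (nat_lit 0) (nat_lit 5) (nat_lit 9) (C.cons (nat_lit 545) (C.node (nat_lit 0) (nat_lit 2) (nat_lit 4) (C.cons (nat_lit 1045)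
  (C.pat (nat_lit 4) (nat_lit 380799054130) (nat_lit 2807544980179443087103192482494021497495226485506201)) (C.cons (nat_lit 21) (C.node (nat_lit 0) (nat_lit 2) (nat_lit 10) C.nil) C.nil))) C.nil)) (C.cons (nat_lit 517) (C.node (nat_lit 0) (nat_lit 4) (nat_lit 5) (C.cons (nat_lit 113) (C.node (nat_lit 0) (nat_lit 5) (nat_lit 9) (C.cons (nat_lit 545) (C.node (nat_lit 0) (nat_lit 6) (nat_lit 9) C.nil) C.nil)) (C.cons (nat_lit 49) (C.node (nat_lit 0) (nat_lit 5) (nat_lit 6) (C.cons (nat_lit 609) (C.node (nat_lit 0) (nat_lit 2) (nat_lit 4) (C.cons (nat_lit 1045) (C.node (nat_lit 0) (nat_lit 2) (nat_lit 6) C.nil) (C.cons (nat_lit 85) (C.pat (nat_lit 3) (nat_lit 24027346785) (nat_lit 3680276643346523462568202115313373803975737539)) C.nil))) C.nil)) C.nil))) C.nil))) (List.cons (C.node (nat_lit 0) (nat_lit 2) (nat_lit 4) (C.cons (nat_lit 85) (C.node (nat_lit 0) (nat_lit 4) (nat_lit 5) (C.cons (nat_lit 49) (C.node (nat_lit 0) (nat_lit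 4) (nat_lit 10) (C.cons (nat_lit 1041) (C.node (nat_lit 0) (nat_lit 6) (nat_lit 10) (C.cons (nat_lit 1089) (C.node (nat_lit 0) (nat_lit 5) (nat_lit 6) (C.cons (nat_lit 609) (C.pat (nat_lit 2) (nat_lit 43288794482) (nat_lit 23750345700649902634771185988803782836364837395)) C.nil)) C.nil)) C.nil)) C.nil)) (C.cons (nat_lit 21) (C.node (nat_lit 0) (nat_lit 2) (nat_lit 6) (C.cons (nat_lit 69) (C.node (nat_lit 0) (nat_lit 4) (nat_lit 5) (C.cons (nat_lit 113) (C.node (nat_lit 0) (nat_lit 4) (nat_lit 10) (C.cons (nat_lit 1041) (C.node (nat_lit 0) (nat_lit 5) (nat_lit 9) C.nil) C.nil)) (C.cons (nat_lit 49) (C.node (nat_lit 0) (nat_lit 4) (nat_lit 6) (C.cons (nat_lit 1105) (C.node (nat_lit 0) (nat_lit 5) (nat_lit 6) (C.cons (nat_lit 609) (C.pat (nat_lit 3) (nat_lit 5471689367) (nat_lit 22992444314457671323880283259580212215707666305)) C.nil)) C.nil)) C.nil))) C.nil)) C.nil))) (List.cons (C.node (nat_lit 0) (nat_lit 1) (nat_lit 2) (C.cons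 (nat_lit 1031) (C.node (nat_lit 0) (nat_lit 1) (nat_lit 4) (C.cons (nat_lit 19) (C.node (nat_lit 0) (nat_lit 2) (nat_lit 4) (C.cons (nat_lit 85) (C.node (nat_lit 0) (nat_lit 4) (nat_lit 10) (C.cons (nat_lit 1041) (C.node (nat_lit 0) (nat_lit 6) (nat_lit 10) C.nil) C.nil)) (C.cons (nat_lit 21) (C.node (nat_lit 0) (nat_lit 2) (nat_lit 6) C.nil) C.nil))) C.nil)) (C.cons (nat_lit 23) (C.node (nat_lit 0) (nat_lit 1) (nat_lit 10) (C.cons (nat_lit 1027) (C.node (nat_lit 0) (nat_lit 2) (nat_lit 6) (C.cons (nat_lit 1093) (C.node (nat_lit 0) (nat_lit 4) (nat_lit 10) (C.cons (nat_lit 1041) (C.node (nat_lit 0) (nat_lit 4) (nat_lit 6) (C.cons (nat_lit 593) (C.node (nat_lit 0) (nat_lit 4) (nat_lit 5) C.nil) (C.cons (nat_lit 113) (C.pat (nat_lit 2) (nat_lit 11409781846) (nat_lit 513016167264787552519581453067273417692088193)) C.nil))) C.nil)) (C.cons (nat_lit 69) (C.node (nat_lit 0) (nat_lit 2) (nat_lit 10) C.nil) C.nil))) C.nil)) (C.cons (nat_lit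 7) (C.node (nat_lit 0) (nat_lit 1) (nat_lit 4) (C.cons (nat_lit 1043) (C.node (nat_lit 0) (nat_lit 2) (nat_lit 4) (C.cons (nat_lit 85) (C.node (nat_lit 0) (nat_lit 2) (nat_lit 10) (C.cons (nat_lit 1029) (C.node (nat_lit 0) (nat_lit 6) (nat_lit 10) C.nil) C.nil)) (C.cons (nat_lit 21) (C.node (nat_lit 0) (nat_lit 2) (nat_lit 6) (C.cons (nat_lit 1093) (C.node (nat_lit 0) (nat_lit 6) (nat_lit 5) (C.cons (nat_lit 609) (C.node (nat_lit 0) (nat_lit 6) (nat_lit 4) C.nil) (C.cons (nat_lit 113) (C.pat (nat_lit 1) (nat_lit 443832419) (nat_lit 5529878789498064820547541403679393665)) C.nil))) C.nil)) C.nil))) (C.cons (nat_lit 19) (C.node (nat_lit 0) (nat_lit 1) (nat_lit 10) C.nil) C.nil))) C.nil)))) (List.cons (C.node (nat_lit 0) (nat_lit 1) (nat_lit 9) (C.cons (nat_lit 531) (C.node (nat_lit 0) (nat_lit 1) (nat_lit 2) (C.cons (nat_lit 1031) (C.node (nat_lit 0) (nat_lit 2) (nat_lit 4) (C.cons (nat_lit 85) (C.node (nat_lit 0) (nat_lit 2) (nat_lit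 9) (C.cons (nat_lit 517) (C.node (nat_lit 0) (nat_lit 4) (nat_lit 5) C.nil) C.nil)) (C.cons (nat_lit 21) (C.node (nat_lit 0) (nat_lit 2) (nat_lit 6) (C.cons (nat_lit 581)
  (C.node (nat_lit 0) (nat_lit 5) (nat_lit 9) C.nil) C.nil)) C.nil))) (C.cons (nat_lit 7) (C.node (nat_lit 0) (nat_lit 1) (nat_lit 10) C.nil) C.nil))) (C.cons (nat_lit 519) (C.node (nat_lit 0) (nat_lit 1) (nat_lit 4) (C.cons (nat_lit 1043) (C.node (nat_lit 0) (nat_lit 2) (nat_lit 4) (C.cons (nat_lit 85) (C.node (nat_lit 0) (nat_lit 2) (nat_lit 10) (C.cons (nat_lit 1029) (C.node (nat_lit 0) (nat_lit 6) (nat_lit 10) C.nil) C.nil)) (C.cons (nat_lit 21) (C.node (nat_lit 0) (nat_lit 2) (nat_lit 6) (C.cons (nat_lit 1093) (C.node (nat_lit 0) (nat_lit 5) (nat_lit 6) (C.cons (nat_lit 609) (C.node (nat_lit 0) (nat_lit 5) (nat_lit 4) C.nil) (C.cons (nat_lit 113) (C.pat (nat_lit 1) (nat_lit 933521489) (nat_lit 1012510010584071769143729176123082625)) C.nil))) C.nil)) C.nil)))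 (C.cons (nat_lit 19) (C.node (nat_lit 0) (nat_lit 1) (nat_lit 10) C.nil) C.nil))) (C.cons (nat_lit 515) (C.node (nat_lit 0) (nat_lit 1) (nat_lit 2) (C.cons (nat_lit 1031) (C.node (nat_lit 0) (nat_lit 1) (nat_lit 4) C.nil) (C.cons (nat_lit 23) (C.node (nat_lit 0) (nat_lit 1) (nat_lit 10) C.nil) C.nil))) C.nil)))) (List.cons (C.node (nat_lit 0) (nat_lit 1) (nat_lit 3) (C.cons (nat_lit 523) (C.node (nat_lit 0) (nat_lit 2) (nat_lit 3) (C.cons (nat_lit 13) (C.ref (nat_lit 197) (nat_lit 11649936536080)) C.nil)) (C.cons (nat_lit 15) (C.node (nat_lit 0) (nat_lit 3) (nat_lit 9) (C.cons (nat_lit 521) (C.node (nat_lit 0) (nat_lit 1) (nat_lit 9) (C.cons (nat_lit 531) (C.node (nat_lit 0) (nat_lit 1) (nat_lit 10) (C.cons (nat_lit 1027) (C.ref (nat_lit 198) (nat_lit 11649936536080)) C.nil)) (C.cons (nat_lit 515) (C.node (nat_lit 0) (nat_lit 1) (nat_lit 4) (C.cons (nat_lit 1043) (C.node (nat_lit 0) (nat_lit 2) (nat_lit 10) (C.cons (nat_lit 1093)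 (C.pat (nat_lit 1) (nat_lit 2825343777) (nat_lit 1511110583369584922609835033451888969)) (C.cons (nat_lit 1029) (C.node (nat_lit 0) (nat_lit 6) (nat_lit 10) (C.cons (nat_lit 1089) (C.node (nat_lit 0) (nat_lit 2) (nat_lit 4) (C.cons (nat_lit 533) (C.node (nat_lit 0) (nat_lit 2) (nat_lit 6) C.nil) (C.cons (nat_lit 85) (C.pat (nat_lit 2) (nat_lit 20005089841) (nat_lit 1895675300303628232232963610521978931224971137)) C.nil))) C.nil)) C.nil))) (C.cons (nat_lit 19) (C.node (nat_lit 0) (nat_lit 1) (nat_lit 10) (C.cons (nat_lit 1027) (C.node (nat_lit 0) (nat_lit 2) (nat_lit 9) (C.cons (nat_lit 581) (C.node (nat_lit 0) (nat_lit 2) (nat_lit 4) (C.cons (nat_lit 1045) (C.node (nat_lit 0) (nat_lit 6) (nat_lit 10) C.nil) C.nil)) (C.cons (nat_lit 533) (C.node (nat_lit 0) (nat_lit 2) (nat_lit 6) (C.cons (nat_lit 1093) (C.pat (nat_lit 1) (nat_lit 2825343777) (nat_lit 1511110583369584922609835033451888969)) C.nil)) C.nil))) C.nil)) C.nil))) C.nil)))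 C.nil)) (C.cons (nat_lit 11) (C.node (nat_lit 0) (nat_lit 2) (nat_lit 3) (C.cons (nat_lit 525) (C.node (nat_lit 0) (nat_lit 1) (nat_lit 9) (C.cons (nat_lit 531) (C.node (nat_lit 0) (nat_lit 1) (nat_lit 2) (C.cons (nat_lit 1031) (C.ref (nat_lit 199) (nat_lit 11649936536080)) (C.cons (nat_lit 7) (C.node (nat_lit 0) (nat_lit 1) (nat_lit 10) (C.cons (nat_lit 1027) (C.node (nat_lit 0) (nat_lit 4) (nat_lit 5) (C.cons (nat_lit 113) (C.node (nat_lit 0) (nat_lit 5) (nat_lit 9) (C.cons (nat_lit 545) (C.node (nat_lit 0) (nat_lit 6) (nat_lit 9) C.nil) C.nil)) (C.cons (nat_lit 49) (C.node (nat_lit 0) (nat_lit 5) (nat_lit 6) (C.cons (nat_lit 609) (C.node (nat_lit 0) (nat_lit 6) (nat_lit 2) (C.cons (nat_lit 1093) (C.node (nat_lit 0) (nat_lit 6) (nat_lit 4) C.nil) (C.cons (nat_lit 85) (C.pat (nat_lit 2) (nat_lit 35204141430) (nat_lit 6489573000157526906331329682326678907174191629)) C.nil))) C.nil)) C.nil))) C.nil)) C.nil))) (C.cons (nat_lit 515)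 (C.ref (nat_lit 200) (nat_lit 11649936536080)) C.nil))) (C.cons (nat_lit 13) (C.node (nat_lit 0) (nat_lit 3) (nat_lit 9) (C.cons (nat_lit 521) (C.ref (nat_lit 201) (nat_lit 11649936536080)) C.nil)) C.nil))) C.nil)))) (List.cons (C.node (nat_lit 0) (nat_lit 2) (nat_lit 6) (C.cons (nat_lit 1093) (C.node (nat_lit 0) (nat_lit 4) (nat_lit 10) (C.cons (nat_lit 1073)
  (C.pat (nat_lit 2) (nat_lit 35772343921) (nat_lit 7336997234375595097429958957364090595455468593)) (C.cons (nat_lit 1041) (C.node (nat_lit 0) (nat_lit 5) (nat_lit 10) (C.cons (nat_lit 1057) (C.node (nat_lit 0) (nat_lit 4) (nat_lit 5) (C.cons (nat_lit 561) (C.node (nat_lit 0) (nat_lit 4) (nat_lit 6) C.nil) (C.cons (nat_lit 113) (C.pat (nat_lit 3) (nat_lit 15204689761) (nat_lit 3412667699510315082883093362811771329027965123)) C.nil))) C.nil)) C.nil))) (C.cons (nat_lit 69) (C.node (nat_lit 0) (nat_lit 2) (nat_lit 10) (C.cons (nat_lit 1029) (C.node (nat_lit 0) (nat_lit 4) (nat_lit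 9) (C.cons (nat_lit 593) (C.node (nat_lit 0) (nat_lit 5) (nat_lit 9) C.nil) (C.cons (nat_lit 561) (C.node (nat_lit 0) (nat_lit 6) (nat_lit 9) C.nil) C.nil))) C.nil)) C.nil))) (List.cons (C.node (nat_lit 0) (nat_lit 1) (nat_lit 2) (C.cons (nat_lit 23) (C.node (nat_lit 0) (nat_lit 1) (nat_lit 9) (C.cons (nat_lit 515) (C.ref (nat_lit 203) (nat_lit 11649936536080)) C.nil)) (C.cons (nat_lit 7) (C.node (nat_lit 0) (nat_lit 1) (nat_lit 4) (C.cons (nat_lit 531) (C.node (nat_lit 0) (nat_lit 5) (nat_lit 9) (C.cons (nat_lit 609) (C.node (nat_lit 0) (nat_lit 4) (nat_lit 5) (C.cons (nat_lit 1073) (C.node (nat_lit 0) (nat_lit 2) (nat_lit 4) (C.cons (nat_lit 85) (C.pat (nat_lit 2) (nat_lit 44393730932) (nat_lit 23081337636397625714082986079417551506468569697)) (C.cons (nat_lit 21) (C.node (nat_lit 0) (nat_lit 4) (nat_lit 6) (C.cons (nat_lit 81) (C.node (nat_lit 0) (nat_lit 6) (nat_lit 2) (C.cons (nat_lit 1093) (C.pat (nat_lit 3) (nat_lit 23123278487)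 (nat_lit 23929071529812554074861644183024173356926175105)) C.nil)) C.nil)) C.nil))) (C.cons (nat_lit 49) (C.node (nat_lit 0) (nat_lit 5) (nat_lit 10) (C.cons (nat_lit 1057) (C.node (nat_lit 0) (nat_lit 6) (nat_lit 4) (C.cons (nat_lit 1105) (C.node (nat_lit 0) (nat_lit 6) (nat_lit 2) C.nil) (C.cons (nat_lit 85) (C.pat (nat_lit 2) (nat_lit 35233363350) (nat_lit 6489697545435354400741446305267387512777670809)) C.nil))) C.nil)) C.nil))) (C.cons (nat_lit 545) (C.node (nat_lit 0) (nat_lit 6) (nat_lit 9) (C.cons (nat_lit 577) (C.node (nat_lit 0) (nat_lit 2) (nat_lit 4) (C.cons (nat_lit 1045) (C.node (nat_lit 0) (nat_lit 2) (nat_lit 6) C.nil) (C.cons (nat_lit 85) (C.node (nat_lit 0) (nat_lit 2) (nat_lit 10) C.nil) C.nil))) C.nil)) C.nil))) (C.cons (nat_lit 19) (C.node (nat_lit 0) (nat_lit 1) (nat_lit 9) (C.cons (nat_lit 515) (C.node (nat_lit 0) (nat_lit 2) (nat_lit 4) (C.cons (nat_lit 1045) (C.node (nat_lit 0) (nat_lit 2) (nat_lit 6) C.nil)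 (C.cons (nat_lit 85) (C.node (nat_lit 0) (nat_lit 2) (nat_lit 10) C.nil) C.nil))) C.nil)) C.nil))) C.nil))) (List.cons (C.node (nat_lit 0) (nat_lit 1) (nat_lit 9) (C.cons (nat_lit 531) (C.node (nat_lit 0) (nat_lit 1) (nat_lit 2) (C.cons (nat_lit 1031) (C.node (nat_lit 0) (nat_lit 2) (nat_lit 4) (C.cons (nat_lit 85) (C.node (nat_lit 0) (nat_lit 4) (nat_lit 5) (C.cons (nat_lit 1073) (C.node (nat_lit 0) (nat_lit 6) (nat_lit 10) (C.cons (nat_lit 1089) (C.node (nat_lit 0) (nat_lit 5) (nat_lit 6) (C.cons (nat_lit 609) (C.pat (nat_lit 1) (nat_lit 1500924449) (nat_lit 2757157882068724985958979597772326785)) C.nil)) C.nil)) (C.cons (nat_lit 49) (C.node (nat_lit 0) (nat_lit 4) (nat_lit 10) C.nil) C.nil))) (C.cons (nat_lit 21) (C.node (nat_lit 0) (nat_lit 2) (nat_lit 6) C.nil) C.nil))) (C.cons (nat_lit 7) (C.node (nat_lit 0) (nat_lit 1) (nat_lit 10) C.nil) C.nil))) (C.cons (nat_lit 515) (C.node (nat_lit 0) (nat_lit 1) (nat_lit 2) (C.cons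 (nat_lit 1031) (C.node (nat_lit 0) (nat_lit 1) (nat_lit 4) C.nil) (C.cons (nat_lit 23) (C.node (nat_lit 0) (nat_lit 1) (nat_lit 10) C.nil) C.nil))) C.nil))) (List.cons (C.node (nat_lit 0) (nat_lit 1) (nat_lit 2) (C.cons (nat_lit 1031) (C.node (nat_lit 0) (nat_lit 1) (nat_lit 4) (C.cons (nat_lit 19) (C.node (nat_lit 0) (nat_lit 2) (nat_lit 4) (C.cons (nat_lit 533) (C.node (nat_lit 0) (nat_lit 2) (nat_lit 6) C.nil) (C.cons (nat_lit 85) (C.node (nat_lit 0) (nat_lit 2) (nat_lit 9) C.nil) C.nil))) C.nil)) (C.cons (nat_lit 23) (C.node (nat_lit 0) (nat_lit 1) (nat_lit 10)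
  (C.cons (nat_lit 1027) (C.node (nat_lit 0) (nat_lit 2) (nat_lit 9) (C.cons (nat_lit 581) (C.node (nat_lit 0) (nat_lit 2) (nat_lit 10) C.nil) C.nil)) C.nil)) (C.cons (nat_lit 7) (C.node (nat_lit 0) (nat_lit 1) (nat_lit 4) (C.cons (nat_lit 1043) (C.node (nat_lit 0) (nat_lit 2) (nat_lit 10) (C.cons (nat_lit 1093) (C.node (nat_lit 0) (nat_lit 5) (nat_lit 10) C.nil) C.nil)) C.nil)) C.nil)))) (List.cons (C.node (nat_lit 0) (nat_lit 3) (nat_lit 5) (C.cons (nat_lit 1065) (C.ref (nat_lit 202) (nat_lit 11649936536080)) (C.cons (nat_lit 553) (C.ref (nat_lit 202) (nat_lit 10619144385040)) (C.cons (nat_lit 41) (C.node (nat_lit 0) (nat_lit 3) (nat_lit 9) (C.cons (nat_lit 525) (C.node (nat_lit 0) (nat_lit 1) (nat_lit 3) (C.cons (nat_lit 1035) (C.ref (nat_lit 204) (nat_lit 11649936536080)) (C.cons (nat_lit 11) (C.node (nat_lit 0) (nat_lit 3) (nat_lit 10) (C.cons (nat_lit 1033) (C.ref (nat_lit 205) (nat_lit 11649936536080)) C.nil)) C.nil))) (C.cons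 (nat_lit 523) (C.node (nat_lit 0) (nat_lit 2) (nat_lit 3) (C.cons (nat_lit 1037) (C.ref (nat_lit 204) (nat_lit 10619144385040)) (C.cons (nat_lit 13) (C.node (nat_lit 0) (nat_lit 3) (nat_lit 10) (C.cons (nat_lit 1033) (C.ref (nat_lit 206) (nat_lit 11649936536080)) C.nil)) C.nil))) (C.cons (nat_lit 521) (C.node (nat_lit 0) (nat_lit 1) (nat_lit 3) (C.cons (nat_lit 1035) (C.node (nat_lit 0) (nat_lit 2) (nat_lit 3) (C.cons (nat_lit 13) (C.ref (nat_lit 206) (nat_lit 10619144385040)) C.nil)) (C.cons (nat_lit 15) (C.node (nat_lit 0) (nat_lit 3) (nat_lit 10) (C.cons (nat_lit 1033) (C.node (nat_lit 0) (nat_lit 1) (nat_lit 9) (C.cons (nat_lit 531) (C.node (nat_lit 0) (nat_lit 1) (nat_lit 10) (C.cons (nat_lit 1027) (C.node (nat_lit 0) (nat_lit 2) (nat_lit 9) (C.cons (nat_lit 581) (C.node (nat_lit 0) (nat_lit 5) (nat_lit 9) C.nil) C.nil)) C.nil)) (C.cons (nat_lit 515) (C.node (nat_lit 0) (nat_lit 1) (nat_lit 4) (C.cons (nat_lit 1043) (C.node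 (nat_lit 0) (nat_lit 2) (nat_lit 10) (C.cons (nat_lit 1093) (C.node (nat_lit 0) (nat_lit 5) (nat_lit 10) C.nil) C.nil)) C.nil)) C.nil))) C.nil)) (C.cons (nat_lit 11) (C.node (nat_lit 0) (nat_lit 2) (nat_lit 3) (C.cons (nat_lit 1037) (C.ref (nat_lit 205) (nat_lit 10619144385040)) (C.cons (nat_lit 13) (C.node (nat_lit 0) (nat_lit 3) (nat_lit 10) C.nil) C.nil))) C.nil)))) C.nil)))) C.nil)))) (List.cons (C.node (nat_lit 0) (nat_lit 2) (nat_lit 8) (C.cons (nat_lit 277) (C.node (nat_lit 0) (nat_lit 1) (nat_lit 4) (C.cons (nat_lit 1043) (C.ref (nat_lit 191) (nat_lit 11649936536080)) (C.cons (nat_lit 531) (C.ref (nat_lit 191) (nat_lit 10619144385040)) (C.cons (nat_lit 19) (C.node (nat_lit 0) (nat_lit 1) (nat_lit 9) (C.cons (nat_lit 523) (C.ref (nat_lit 194) (nat_lit 11649936536080)) (C.cons (nat_lit 519) (C.ref (nat_lit 194) (nat_lit 11645894271760)) (C.cons (nat_lit 515) (C.node (nat_lit 0) (nat_lit 1) (nat_lit 2) (C.cons (nat_lit 1031)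 (C.node (nat_lit 0) (nat_lit 1) (nat_lit 3) (C.cons (nat_lit 11) (C.ref (nat_lit 193) (nat_lit 10615102120720)) C.nil)) (C.cons (nat_lit 15) (C.node (nat_lit 0) (nat_lit 1) (nat_lit 10) (C.cons (nat_lit 1027) (C.node (nat_lit 0) (nat_lit 2) (nat_lit 9) (C.cons (nat_lit 581) (C.node (nat_lit 0) (nat_lit 2) (nat_lit 10) (C.cons (nat_lit 1029) (C.ref (nat_lit 190) (nat_lit 10615084429600)) C.nil)) (C.cons (nat_lit 517) (C.node (nat_lit 0) (nat_lit 2) (nat_lit 6) (C.cons (nat_lit 1093) (C.ref (nat_lit 190) (nat_lit 11645876580640)) (C.cons (nat_lit 69) (C.node (nat_lit 0) (nat_lit 2) (nat_lit 10) (C.cons (nat_lit 1029) (C.node (nat_lit 0) (nat_lit 3) (nat_lit 9) (C.cons (nat_lit 553) (C.node (nat_lit 0) (nat_lit 3) (nat_lit 10) C.nil) C.nil)) C.nil)) C.nil))) C.nil))) C.nil)) (C.cons (nat_lit 7) (C.node (nat_lit 0) (nat_lit 1) (nat_lit 3) (C.cons (nat_lit 1035) (C.ref (nat_lit 193) (nat_lit 10619144385040)) (C.cons (nat_lit 11) (C.node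 (nat_lit 0) (nat_lit 1) (nat_lit 10) (C.cons (nat_lit 1027) (C.node (nat_lit 0) (nat_lit 2) (nat_lit 3) (C.cons (nat_lit 1037) (C.ref (nat_lit 195) (nat_lit 11649936536080)) (C.cons (nat_lit 525)
  (C.ref (nat_lit 195) (nat_lit 10619144385040)) (C.cons (nat_lit 13) (C.node (nat_lit 0) (nat_lit 2) (nat_lit 9) (C.cons (nat_lit 581) (C.node (nat_lit 0) (nat_lit 2) (nat_lit 10) C.nil) C.nil)) C.nil)))) C.nil)) C.nil))) C.nil)))) C.nil)))) C.nil)))) (C.cons (nat_lit 261) (C.node (nat_lit 0) (nat_lit 4) (nat_lit 8) (C.cons (nat_lit 273) (C.ref (nat_lit 207) (nat_lit 11649936536080)) C.nil)) C.nil))) List.nil)))))))))))))))))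

theorem ok11_192 : okL par11 (nat_lit 209) c11_192 (nat_lit 192) = true := by decide +kernel

noncomputable def c11_209 : List C :=
  (List.cons (C.node (nat_lit 0) (nat_lit 3) (nat_lit 5) (C.cons (nat_lit 105) (C.node (nat_lit 0) (nat_lit 5) (nat_lit 9) (C.cons (nat_lit 561) (C.pat (nat_lit 3) (nat_lit 34738550610) (nat_lit 42839797882949879470908263089402361527231381669)) (C.cons (nat_lit 545) (C.node (nat_lit 0) (nat_lit 4) (nat_lit 5) (C.cons (nat_lit 1073) (C.pat (nat_lit 2) (nat_lit 9720985681) (nat_lit 7247777924742326823714803916019567099474280601)) (C.cons (nat_lit 49) (C.node (nat_lit 0) (nat_lit 5) (nat_lit 10) C.nil) C.nil))) C.nil))) (C.cons (nat_lit 41) (C.node (nat_lit 0) (nat_lit 3) (nat_lit 6) (C.cons (nat_lit 73) (C.node (nat_lit 0) (nat_lit 4) (nat_lit 9) (C.cons (nat_lit 593) (C.node (nat_lit 0) (nat_lit 5) (nat_lit 9) C.nil) (C.cons (nat_lit 561) (C.node (nat_lit 0) (nat_lit 6) (nat_lit 9) C.nil) C.nil)))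 C.nil)) C.nil))) (List.cons (C.node (nat_lit 0) (nat_lit 3) (nat_lit 5) (C.cons (nat_lit 105) (C.node (nat_lit 0) (nat_lit 5) (nat_lit 9) (C.cons (nat_lit 545) (C.node (nat_lit 0) (nat_lit 6) (nat_lit 9) C.nil) C.nil)) (C.cons (nat_lit 41) (C.node (nat_lit 0) (nat_lit 3) (nat_lit 6) C.nil) C.nil))) (List.cons (C.node (nat_lit 0) (nat_lit 5) (nat_lit 10) (C.cons (nat_lit 1121) (C.node (nat_lit 0) (nat_lit 3) (nat_lit 5) (C.cons (nat_lit 553) (C.node (nat_lit 0) (nat_lit 3) (nat_lit 6) (C.cons (nat_lit 73) (C.node (nat_lit 0) (nat_lit 4) (nat_lit 5) (C.cons (nat_lit 49) (C.node (nat_lit 0) (nat_lit 4) (nat_lit 6) (C.cons (nat_lit 593) (C.ref (nat_lit 187) (nat_lit 11577405620560)) C.nil)) C.nil)) C.nil)) (C.cons (nat_lit 41) (C.node (nat_lit 0) (nat_lit 3) (nat_lit 6) (C.cons (nat_lit 585) (C.node (nat_lit 0) (nat_lit 4) (nat_lit 6) (C.cons (nat_lit 81) (C.node (nat_lit 0) (nat_lit 4) (nat_lit 5) (C.cons (nat_lit 561) (C.pat (nat_lit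 3) (nat_lit 22588627607) (nat_lit 24999490965539185809720216351554439589266655105)) C.nil)) C.nil)) (C.cons (nat_lit 73) (C.node (nat_lit 0) (nat_lit 3) (nat_lit 9) C.nil) C.nil))) C.nil))) (C.cons (nat_lit 1057) (C.node (nat_lit 0) (nat_lit 6) (nat_lit 10) (C.cons (nat_lit 1089) (C.node (nat_lit 0) (nat_lit 3) (nat_lit 5) (C.cons (nat_lit 553) (C.node (nat_lit 0) (nat_lit 3) (nat_lit 6) C.nil) (C.cons (nat_lit 105) (C.node (nat_lit 0) (nat_lit 3) (nat_lit 9) C.nil) C.nil))) C.nil)) C.nil))) (List.cons (C.node (nat_lit 0) (nat_lit 3) (nat_lit 5) (C.cons (nat_lit 553) (C.node (nat_lit 0) (nat_lit 3) (nat_lit 6) C.nil) (C.cons (nat_lit 105) (C.node (nat_lit 0) (nat_lit 3) (nat_lit 9) C.nil) C.nil))) (List.cons (C.node (nat_lit 0) (nat_lit 2) (nat_lit 3) (C.cons (nat_lit 525) (C.node (nat_lit 0) (nat_lit 1) (nat_lit 2) (C.cons (nat_lit 23) (C.node (nat_lit 0) (nat_lit 1) (nat_lit 9) (C.cons (nat_lit 515) (C.node (nat_lit 0) (nat_lit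 2) (nat_lit 10) (C.cons (nat_lit 1029) (C.ref (nat_lit 209) (nat_lit 11649936536080)) C.nil)) C.nil)) (C.cons (nat_lit 7) (C.node (nat_lit 0) (nat_lit 1) (nat_lit 4) (C.cons (nat_lit 531) (C.node (nat_lit 0) (nat_lit 2) (nat_lit 4) (C.cons (nat_lit 1045) (C.node (nat_lit 0) (nat_lit 3) (nat_lit 5) (C.cons (nat_lit 105) (C.node (nat_lit 0) (nat_lit 4) (nat_lit 5) (C.cons (nat_lit 49) (C.node (nat_lit 0) (nat_lit 4) (nat_lit 6) (C.cons (nat_lit 81) (C.node (nat_lit 0) (nat_lit 5) (nat_lit 9) (C.cons (nat_lit 545) (C.node (nat_lit 0) (nat_lit 5) (nat_lit 10) C.nil) C.nil)) C.nil)) C.nil)) (C.cons (nat_lit 41) (C.node (nat_lit 0) (nat_lit 3) (nat_lit 6) (C.cons (nat_lit 73) (C.node (nat_lit 0) (nat_lit 4) (nat_lit 5) (C.cons (nat_lit 113) (C.node (nat_lit 0) (nat_lit 5) (nat_lit 10) (C.cons (nat_lit 1057) (C.node (nat_lit 0) (nat_lit 5) (nat_lit 9) C.nil) C.nil)) (C.cons (nat_lit 49) (C.node (nat_lit 0) (nat_lit 4) (nat_lit 6) C.nil)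 C.nil))) C.nil)) C.nil))) (C.cons (nat_lit 21) (C.node (nat_lit 0) (nat_lit 2) (nat_lit 10) (C.cons (nat_lit 1029) (C.ref (nat_lit 210) (nat_lit 11649936536080)) C.nil)) C.nil))) (C.cons (nat_lit 19) (C.node (nat_lit 0) (nat_lit 1) (nat_lit 9) (C.cons (nat_lit 515) (C.node (nat_lit 0) (nat_lit 2) (nat_lit 4) (C.cons (nat_lit 1045)
  (C.ref (nat_lit 210) (nat_lit 10619128656160)) (C.cons (nat_lit 21) (C.node (nat_lit 0) (nat_lit 2) (nat_lit 10) C.nil) C.nil))) C.nil)) C.nil))) C.nil))) (C.cons (nat_lit 13) (C.node (nat_lit 0) (nat_lit 2) (nat_lit 10) (C.cons (nat_lit 1045) (C.node (nat_lit 0) (nat_lit 1) (nat_lit 2) (C.cons (nat_lit 519) (C.node (nat_lit 0) (nat_lit 1) (nat_lit 4) (C.cons (nat_lit 19) (C.ref (nat_lit 211) (nat_lit 11649936536080)) C.nil)) (C.cons (nat_lit 7) (C.node (nat_lit 0) (nat_lit 2) (nat_lit 9) (C.cons (nat_lit 517) (C.node (nat_lit 0) (nat_lit 1) (nat_lit 4) (C.cons (nat_lit 531) (C.ref (nat_lit 210) (nat_lit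 10619144323600)) (C.cons (nat_lit 19) (C.node (nat_lit 0) (nat_lit 1) (nat_lit 9) C.nil) C.nil))) C.nil)) C.nil))) (C.cons (nat_lit 1029) (C.node (nat_lit 0) (nat_lit 1) (nat_lit 2) (C.cons (nat_lit 519) (C.node (nat_lit 0) (nat_lit 1) (nat_lit 4) (C.cons (nat_lit 19) (C.node (nat_lit 0) (nat_lit 2) (nat_lit 4) (C.cons (nat_lit 21) (C.node (nat_lit 0) (nat_lit 3) (nat_lit 5) (C.cons (nat_lit 553) (C.node (nat_lit 0) (nat_lit 3) (nat_lit 6) C.nil) (C.cons (nat_lit 105) (C.node (nat_lit 0) (nat_lit 3) (nat_lit 9) C.nil) C.nil))) C.nil)) C.nil)) (C.cons (nat_lit 23) (C.node (nat_lit 0) (nat_lit 1) (nat_lit 9) (C.cons (nat_lit 515) (C.node (nat_lit 0) (nat_lit 2) (nat_lit 9) (C.cons (nat_lit 517) (C.ref (nat_lit 212) (nat_lit 11649936536080)) C.nil)) C.nil)) (C.cons (nat_lit 7) (C.node (nat_lit 0) (nat_lit 1) (nat_lit 4) (C.cons (nat_lit 531) (C.node (nat_lit 0) (nat_lit 2) (nat_lit 4) (C.cons (nat_lit 21) (C.node (nat_lit 0) (nat_lit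 2) (nat_lit 9) C.nil) C.nil)) (C.cons (nat_lit 19) (C.node (nat_lit 0) (nat_lit 1) (nat_lit 9) C.nil) C.nil))) C.nil)))) C.nil))) C.nil))) (List.cons (C.node (nat_lit 0) (nat_lit 2) (nat_lit 4) (C.cons (nat_lit 21) (C.node (nat_lit 0) (nat_lit 2) (nat_lit 3) (C.cons (nat_lit 525) (C.ref (nat_lit 211) (nat_lit 10619128656160)) (C.cons (nat_lit 13) (C.node (nat_lit 0) (nat_lit 2) (nat_lit 9) (C.cons (nat_lit 517) (C.node (nat_lit 0) (nat_lit 4) (nat_lit 5) (C.cons (nat_lit 1073) (C.node (nat_lit 0) (nat_lit 4) (nat_lit 6) C.nil) (C.cons (nat_lit 113) (C.node (nat_lit 0) (nat_lit 4) (nat_lit 10) C.nil) C.nil))) C.nil)) C.nil))) C.nil)) (List.cons (C.node (nat_lit 0) (nat_lit 2) (nat_lit 3) (C.cons (nat_lit 1037) (C.node (nat_lit 0) (nat_lit 2) (nat_lit 4) (C.cons (nat_lit 21) (C.node (nat_lit 0) (nat_lit 3) (nat_lit 6) (C.cons (nat_lit 585) (C.node (nat_lit 0) (nat_lit 3) (nat_lit 5) C.nil) (C.cons (nat_lit 105) (C.node (nat_lit 0)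 (nat_lit 3) (nat_lit 9) C.nil) C.nil))) C.nil)) (C.cons (nat_lit 13) (C.node (nat_lit 0) (nat_lit 2) (nat_lit 4) (C.cons (nat_lit 1045) (C.node (nat_lit 0) (nat_lit 4) (nat_lit 6) (C.cons (nat_lit 593) (C.node (nat_lit 0) (nat_lit 4) (nat_lit 5) C.nil) (C.cons (nat_lit 113) (C.node (nat_lit 0) (nat_lit 4) (nat_lit 9) C.nil) C.nil))) C.nil)) C.nil))) (List.cons (C.node (nat_lit 0) (nat_lit 2) (nat_lit 3) (C.cons (nat_lit 77) (C.node (nat_lit 0) (nat_lit 2) (nat_lit 4) (C.cons (nat_lit 1045) (C.node (nat_lit 0) (nat_lit 3) (nat_lit 5) (C.cons (nat_lit 553) (C.node (nat_lit 0) (nat_lit 4) (nat_lit 5) (C.cons (nat_lit 113) (C.pat (nat_lit 2) (nat_lit 20020557362) (nat_lit 2520172388956907064692002500758386068100548481)) (C.cons (nat_lit 49) (C.node (nat_lit 0) (nat_lit 4) (nat_lit 6) (C.cons (nat_lit 593) (C.pat (nat_lit 1) (nat_lit 1201891617) (nat_lit 1012510010574405232521619081763030913)) C.nil)) C.nil))) (C.cons (nat_lit 41) (C.node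 (nat_lit 0) (nat_lit 3) (nat_lit 9) C.nil) C.nil))) (C.cons (nat_lit 21) (C.node (nat_lit 0) (nat_lit 2) (nat_lit 10) C.nil) C.nil))) (C.cons (nat_lit 13) (C.node (nat_lit 0) (nat_lit 2) (nat_lit 4) (C.cons (nat_lit 1045) (C.node (nat_lit 0) (nat_lit 2) (nat_lit 6) C.nil) (C.cons (nat_lit 85) (C.node (nat_lit 0) (nat_lit 2) (nat_lit 10) C.nil) C.nil))) C.nil))) (List.cons (C.node (nat_lit 0) (nat_lit 2) (nat_lit 10) (C.cons (nat_lit 1093) (C.node (nat_lit 0) (nat_lit 2) (nat_lit 3) (C.cons (nat_lit 525)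
  (C.node (nat_lit 0) (nat_lit 3) (nat_lit 5) (C.cons (nat_lit 105) (C.node (nat_lit 0) (nat_lit 4) (nat_lit 6) (C.cons (nat_lit 593) (C.pat (nat_lit 1) (nat_lit 2537186337) (nat_lit 1012650085965730451724115349340487833)) (C.cons (nat_lit 81) (C.node (nat_lit 0) (nat_lit 6) (nat_lit 9) C.nil) C.nil))) (C.cons (nat_lit 41) (C.node (nat_lit 0) (nat_lit 3) (nat_lit 6) C.nil) C.nil))) (C.cons (nat_lit 13) (C.node (nat_lit 0) (nat_lit 2) (nat_lit 9) C.nil) C.nil))) (C.cons (nat_lit 1029) (C.node (nat_lit 0) (nat_lit 2) (nat_lit 3) (C.cons (nat_lit 525) (C.node (nat_lit 0) (nat_lit 2) (nat_lit 6) C.nil) (C.cons (nat_lit 77) (C.node (nat_lit 0) (nat_lit 2) (nat_lit 9) C.nil) C.nil))) C.nil))) (List.cons (C.node (nat_lit 0) (nat_lit 2) (nat_lit 3) (C.cons (nat_lit 525) (C.node (nat_lit 0) (nat_lit 3) (nat_lit 5) (C.cons (nat_lit 105) (C.node (nat_lit 0) (nat_lit 5) (nat_lit 9) (C.cons (nat_lit 545) (C.node (nat_lit 0) (nat_lit 6) (nat_lit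 9) C.nil) C.nil)) (C.cons (nat_lit 41) (C.node (nat_lit 0) (nat_lit 3) (nat_lit 6) C.nil) C.nil))) (C.cons (nat_lit 77) (C.node (nat_lit 0) (nat_lit 2) (nat_lit 9) (C.cons (nat_lit 517) (C.node (nat_lit 0) (nat_lit 2) (nat_lit 4) (C.cons (nat_lit 1045) (C.node (nat_lit 0) (nat_lit 3) (nat_lit 5) (C.cons (nat_lit 553) (C.node (nat_lit 0) (nat_lit 6) (nat_lit 9) C.nil) C.nil)) C.nil)) C.nil)) (C.cons (nat_lit 13) (C.node (nat_lit 0) (nat_lit 2) (nat_lit 9) (C.cons (nat_lit 581) (C.node (nat_lit 0) (nat_lit 2) (nat_lit 4) (C.cons (nat_lit 1045) (C.node (nat_lit 0) (nat_lit 3) (nat_lit 6) (C.cons (nat_lit 105) (C.node (nat_lit 0) (nat_lit 3) (nat_lit 9) C.nil) C.nil)) C.nil)) C.nil)) C.nil)))) (List.cons (C.node (nat_lit 0) (nat_lit 1) (nat_lit 2) (C.cons (nat_lit 519) (C.node (nat_lit 0) (nat_lit 1) (nat_lit 4) (C.cons (nat_lit 19) (C.ref (nat_lit 216) (nat_lit 11649936536080)) C.nil)) (C.cons (nat_lit 23) (C.node (nat_lit 0) (nat_lit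 1) (nat_lit 9) (C.cons (nat_lit 515) (C.ref (nat_lit 217) (nat_lit 11649936536080)) C.nil)) (C.cons (nat_lit 7) (C.node (nat_lit 0) (nat_lit 1) (nat_lit 4) (C.cons (nat_lit 531) (C.ref (nat_lit 218) (nat_lit 11649936536080)) (C.cons (nat_lit 19) (C.node (nat_lit 0) (nat_lit 1) (nat_lit 9) C.nil) C.nil))) C.nil)))) (List.cons (C.node (nat_lit 0) (nat_lit 1) (nat_lit 3) (C.cons (nat_lit 1035) (C.ref (nat_lit 219) (nat_lit 11649936536080)) (C.cons (nat_lit 523) (C.ref (nat_lit 219) (nat_lit 10619144385040)) (C.cons (nat_lit 15) (C.node (nat_lit 0) (nat_lit 1) (nat_lit 9) (C.cons (nat_lit 531) (C.node (nat_lit 0) (nat_lit 1) (nat_lit 10) (C.cons (nat_lit 1027) (C.ref (nat_lit 217) (nat_lit 10619144323600)) C.nil)) (C.cons (nat_lit 515) (C.node (nat_lit 0) (nat_lit 1) (nat_lit 4) (C.cons (nat_lit 1043) (C.ref (nat_lit 217) (nat_lit 11649936474640)) (C.cons (nat_lit 19) (C.node (nat_lit 0) (nat_lit 1) (nat_lit 10) C.nil) C.nil))) C.nil)))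 (C.cons (nat_lit 11) (C.node (nat_lit 0) (nat_lit 1) (nat_lit 9) (C.cons (nat_lit 531) (C.node (nat_lit 0) (nat_lit 1) (nat_lit 2) (C.cons (nat_lit 1031) (C.ref (nat_lit 216) (nat_lit 10619144323600)) (C.cons (nat_lit 7) (C.node (nat_lit 0) (nat_lit 1) (nat_lit 10) C.nil) C.nil))) (C.cons (nat_lit 519) (C.node (nat_lit 0) (nat_lit 1) (nat_lit 4) (C.cons (nat_lit 1043) (C.ref (nat_lit 216) (nat_lit 11649936474640)) (C.cons (nat_lit 19) (C.node (nat_lit 0) (nat_lit 1) (nat_lit 10) C.nil) C.nil))) (C.cons (nat_lit 515) (C.node (nat_lit 0) (nat_lit 1) (nat_lit 2) (C.cons (nat_lit 1031) (C.node (nat_lit 0) (nat_lit 1) (nat_lit 4) C.nil) (C.cons (nat_lit 23) (C.node (nat_lit 0) (nat_lit 1) (nat_lit 10) C.nil) C.nil))) C.nil)))) C.nil))))) (List.cons (C.node (nat_lit 0) (nat_lit 4) (nat_lit 8) (C.cons (nat_lit 337) (C.ref (nat_lit 207) (nat_lit 11649936474640)) (C.cons (nat_lit 273) (C.node (nat_lit 0) (nat_lit 6) (nat_lit 8) (C.cons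 (nat_lit 321) (C.ref (nat_lit 220) (nat_lit 11649936536080)) C.nil)) C.nil))) (List.cons (C.node (nat_lit 0) (nat_lit 2) (nat_lit 8) (C.cons (nat_lit 325) (C.node (nat_lit 0) (nat_lit 4) (nat_lit 8)
  (C.cons (nat_lit 273) (C.node (nat_lit 0) (nat_lit 1) (nat_lit 3) (C.cons (nat_lit 1035) (C.ref (nat_lit 213) (nat_lit 11649936536080)) (C.cons (nat_lit 523) (C.ref (nat_lit 213) (nat_lit 10619144385040)) (C.cons (nat_lit 15) (C.node (nat_lit 0) (nat_lit 1) (nat_lit 9) (C.cons (nat_lit 531) (C.node (nat_lit 0) (nat_lit 1) (nat_lit 10) (C.cons (nat_lit 1027) (C.node (nat_lit 0) (nat_lit 2) (nat_lit 9) (C.cons (nat_lit 517) (C.node (nat_lit 0) (nat_lit 2) (nat_lit 4) (C.cons (nat_lit 1045) (C.ref (nat_lit 209) (nat_lit 10619144323600)) (C.cons (nat_lit 21) (C.node (nat_lit 0) (nat_lit 2) (nat_lit 10) (C.cons (nat_lit 1029) (C.ref (nat_lit 212) (nat_lit 10619144323600)) C.nil)) C.nil))) C.nil)) C.nil)) (C.cons (nat_lit 515) (C.node (nat_lit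 0) (nat_lit 1) (nat_lit 4) (C.cons (nat_lit 1043) (C.node (nat_lit 0) (nat_lit 2) (nat_lit 10) (C.cons (nat_lit 1029) (C.node (nat_lit 0) (nat_lit 2) (nat_lit 4) (C.cons (nat_lit 533) (C.ref (nat_lit 209) (nat_lit 11649936474640)) (C.cons (nat_lit 21) (C.node (nat_lit 0) (nat_lit 2) (nat_lit 9) (C.cons (nat_lit 517) (C.ref (nat_lit 212) (nat_lit 11649936474640)) C.nil)) C.nil))) C.nil)) (C.cons (nat_lit 19) (C.node (nat_lit 0) (nat_lit 1) (nat_lit 10) (C.cons (nat_lit 1027) (C.node (nat_lit 0) (nat_lit 2) (nat_lit 9) (C.cons (nat_lit 533) (C.node (nat_lit 0) (nat_lit 2) (nat_lit 10) (C.cons (nat_lit 1029) (C.ref (nat_lit 212) (nat_lit 10619128594720)) C.nil)) (C.cons (nat_lit 517) (C.node (nat_lit 0) (nat_lit 2) (nat_lit 4) (C.cons (nat_lit 1045) (C.ref (nat_lit 212) (nat_lit 11649920745760)) C.nil)) C.nil))) C.nil)) C.nil))) C.nil))) (C.cons (nat_lit 11) (C.node (nat_lit 0) (nat_lit 1) (nat_lit 9) (C.cons (nat_lit 531) (C.node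 (nat_lit 0) (nat_lit 1) (nat_lit 2) (C.cons (nat_lit 1031) (C.ref (nat_lit 214) (nat_lit 11649936536080)) (C.cons (nat_lit 7) (C.node (nat_lit 0) (nat_lit 1) (nat_lit 10) (C.cons (nat_lit 1027) (C.node (nat_lit 0) (nat_lit 2) (nat_lit 4) (C.cons (nat_lit 1045) (C.node (nat_lit 0) (nat_lit 2) (nat_lit 3) (C.cons (nat_lit 525) (C.ref (nat_lit 210) (nat_lit 11649920745760)) (C.cons (nat_lit 13) (C.node (nat_lit 0) (nat_lit 2) (nat_lit 9) C.nil) C.nil))) (C.cons (nat_lit 21) (C.node (nat_lit 0) (nat_lit 2) (nat_lit 9) (C.cons (nat_lit 525) (C.node (nat_lit 0) (nat_lit 2) (nat_lit 10) C.nil) C.nil)) C.nil))) C.nil)) C.nil))) (C.cons (nat_lit 519) (C.node (nat_lit 0) (nat_lit 1) (nat_lit 4) (C.cons (nat_lit 1043) (C.ref (nat_lit 214) (nat_lit 10619144385040)) (C.cons (nat_lit 19) (C.node (nat_lit 0) (nat_lit 1) (nat_lit 10) (C.cons (nat_lit 1027) (C.ref (nat_lit 215) (nat_lit 11649936536080)) C.nil)) C.nil))) (C.cons (nat_lit 515) (C.node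 (nat_lit 0) (nat_lit 1) (nat_lit 2) (C.cons (nat_lit 1031) (C.node (nat_lit 0) (nat_lit 1) (nat_lit 4) (C.cons (nat_lit 19) (C.ref (nat_lit 215) (nat_lit 10619144385040)) C.nil)) (C.cons (nat_lit 23) (C.node (nat_lit 0) (nat_lit 1) (nat_lit 10) (C.cons (nat_lit 1027) (C.node (nat_lit 0) (nat_lit 2) (nat_lit 9) (C.cons (nat_lit 525) (C.node (nat_lit 0) (nat_lit 2) (nat_lit 10) (C.cons (nat_lit 1029) (C.ref (nat_lit 212) (nat_lit 10619128656160)) C.nil)) (C.cons (nat_lit 517) (C.node (nat_lit 0) (nat_lit 2) (nat_lit 3) (C.cons (nat_lit 1037) (C.ref (nat_lit 212) (nat_lit 11649920807200)) C.nil)) C.nil))) C.nil)) (C.cons (nat_lit 7) (C.node (nat_lit 0) (nat_lit 1) (nat_lit 4) (C.cons (nat_lit 1043) (C.node (nat_lit 0) (nat_lit 2) (nat_lit 4) (C.cons (nat_lit 533) (C.node (nat_lit 0) (nat_lit 2) (nat_lit 3) (C.cons (nat_lit 1037) (C.ref (nat_lit 210) (nat_lit 10619128594720)) (C.cons (nat_lit 13) (C.node (nat_lit 0) (nat_lit 2) (nat_lit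 10) C.nil) C.nil))) (C.cons (nat_lit 21) (C.node (nat_lit 0) (nat_lit 2) (nat_lit 10) (C.cons (nat_lit 1037) (C.node (nat_lit 0) (nat_lit 2) (nat_lit 9) C.nil) C.nil)) C.nil))) (C.cons (nat_lit 19) (C.node (nat_lit 0) (nat_lit 1) (nat_lit 10) C.nil) C.nil))) C.nil)))) C.nil)))) C.nil))))) C.nil)) (C.cons (nat_lit 277) (C.node (nat_lit 0) (nat_lit 6) (nat_lit 8) (C.cons (nat_lit 321)
  (C.ref (nat_lit 207) (nat_lit 11649918833440)) C.nil)) (C.cons (nat_lit 261) (C.ref (nat_lit 221) (nat_lit 11649936536080)) C.nil)))) (List.cons (C.node (nat_lit 0) (nat_lit 3) (nat_lit 8) (C.cons (nat_lit 329) (C.ref (nat_lit 208) (nat_lit 11649936536080)) (C.cons (nat_lit 269) (C.ref (nat_lit 208) (nat_lit 11649917785120)) (C.cons (nat_lit 265) (C.ref (nat_lit 222) (nat_lit 11649936536080)) C.nil)))) (List.cons (C.node (nat_lit 0) (nat_lit 1) (nat_lit 4) (C.cons (nat_lit 531) (C.node (nat_lit 0) (nat_lit 2) (nat_lit 4) (C.cons (nat_lit 85) (C.node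 (nat_lit 0) (nat_lit 2) (nat_lit 3) (C.cons (nat_lit 525) (C.node (nat_lit 0) (nat_lit 4) (nat_lit 5) (C.cons (nat_lit 1073) (C.pat (nat_lit 1) (nat_lit 1951636001) (nat_lit 2757121753842877399678587812904240177)) C.nil)) C.nil)) C.nil)) C.nil)) (List.cons (C.node (nat_lit 0) (nat_lit 1) (nat_lit 3) (C.cons (nat_lit 523) (C.node (nat_lit 0) (nat_lit 1) (nat_lit 4) (C.cons (nat_lit 51) (C.node (nat_lit 0) (nat_lit 2) (nat_lit 3) (C.cons (nat_lit 77) (C.node (nat_lit 0) (nat_lit 2) (nat_lit 4) (C.cons (nat_lit 533) (C.node (nat_lit 0) (nat_lit 3) (nat_lit 5) (C.cons (nat_lit 1065) (C.pat (nat_lit 1) (nat_lit 1934924321) (nat_lit 2715583378984270185207260875668653097)) C.nil)) C.nil)) C.nil)) C.nil)) (C.cons (nat_lit 43) (C.ref (nat_lit 224) (nat_lit 11649936536080)) C.nil))) (List.cons (C.node (nat_lit 0) (nat_lit 1) (nat_lit 2) (C.cons (nat_lit 1031) (C.ref (nat_lit 225) (nat_lit 11649936536080)) (C.cons (nat_lit 519) (C.ref (nat_lit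 225) (nat_lit 10619144385040)) (C.cons (nat_lit 23) (C.node (nat_lit 0) (nat_lit 1) (nat_lit 9) (C.cons (nat_lit 547) (C.ref (nat_lit 224) (nat_lit 10619141178640)) (C.cons (nat_lit 523) (C.ref (nat_lit 224) (nat_lit 10619143398160)) C.nil))) (C.cons (nat_lit 15) (C.node (nat_lit 0) (nat_lit 1) (nat_lit 9) (C.cons (nat_lit 547) (C.ref (nat_lit 224) (nat_lit 10619141240080)) (C.cons (nat_lit 531) (C.ref (nat_lit 224) (nat_lit 10619142349840)) C.nil))) C.nil))))) (List.cons (C.node (nat_lit 0) (nat_lit 2) (nat_lit 3) (C.cons (nat_lit 269) (C.node (nat_lit 0) (nat_lit 2) (nat_lit 4) (C.cons (nat_lit 21) (C.node (nat_lit 0) (nat_lit 4) (nat_lit 8) (C.cons (nat_lit 337) (C.node (nat_lit 0) (nat_lit 4) (nat_lit 3) (C.cons (nat_lit 1049) (C.node (nat_lit 0) (nat_lit 4) (nat_lit 5) C.nil) (C.cons (nat_lit 57) (C.node (nat_lit 0) (nat_lit 4) (nat_lit 10) C.nil) C.nil))) C.nil)) C.nil)) (C.cons (nat_lit 29) (C.node (nat_lit 0) (nat_lit 2)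 (nat_lit 8) (C.cons (nat_lit 261) (C.node (nat_lit 0) (nat_lit 3) (nat_lit 8) (C.cons (nat_lit 329) (C.node (nat_lit 0) (nat_lit 4) (nat_lit 8) C.nil) C.nil)) C.nil)) (C.cons (nat_lit 13) (C.node (nat_lit 0) (nat_lit 2) (nat_lit 4) (C.cons (nat_lit 277) (C.node (nat_lit 0) (nat_lit 3) (nat_lit 8) (C.cons (nat_lit 329) (C.node (nat_lit 0) (nat_lit 3) (nat_lit 4) (C.cons (nat_lit 1049) (C.node (nat_lit 0) (nat_lit 3) (nat_lit 5) C.nil) (C.cons (nat_lit 57) (C.node (nat_lit 0) (nat_lit 3) (nat_lit 10) C.nil) C.nil))) C.nil)) C.nil)) C.nil)))) (List.cons (C.node (nat_lit 0) (nat_lit 2) (nat_lit 4) (C.cons (nat_lit 277) (C.node (nat_lit 0) (nat_lit 2) (nat_lit 6) (C.cons (nat_lit 69) (C.node (nat_lit 0) (nat_lit 3) (nat_lit 8) (C.cons (nat_lit 329) (C.node (nat_lit 0) (nat_lit 3) (nat_lit 4) (C.cons (nat_lit 1049) (C.node (nat_lit 0) (nat_lit 3) (nat_lit 5) C.nil) (C.cons (nat_lit 57) (C.node (nat_lit 0) (nat_lit 3) (nat_lit 10) C.nil)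 C.nil))) C.nil)) C.nil)) (C.cons (nat_lit 85) (C.node (nat_lit 0) (nat_lit 2) (nat_lit 8) (C.cons (nat_lit 261) (C.node (nat_lit 0) (nat_lit 4) (nat_lit 8) (C.cons (nat_lit 281) (C.node (nat_lit 0) (nat_lit 6) (nat_lit 8) C.nil) C.nil)) C.nil)) (C.cons (nat_lit 21) (C.node (nat_lit 0) (nat_lit 2) (nat_lit 6) (C.cons (nat_lit 325) (C.node (nat_lit 0) (nat_lit 3) (nat_lit 8) (C.cons (nat_lit 281) (C.node (nat_lit 0) (nat_lit 3) (nat_lit 5) (C.cons (nat_lit 1065) (C.node (nat_lit 0) (nat_lit 3) (nat_lit 6) C.nil) (C.cons (nat_lit 105)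
  (C.node (nat_lit 0) (nat_lit 3) (nat_lit 10) C.nil) C.nil))) C.nil)) C.nil)) C.nil)))) (List.cons (C.node (nat_lit 0) (nat_lit 2) (nat_lit 3) (C.cons (nat_lit 269) (C.node (nat_lit 0) (nat_lit 2) (nat_lit 4) (C.cons (nat_lit 85) (C.node (nat_lit 0) (nat_lit 4) (nat_lit 8) (C.cons (nat_lit 273) (C.node (nat_lit 0) (nat_lit 6) (nat_lit 8) C.nil) C.nil)) (C.cons (nat_lit 21) (C.node (nat_lit 0) (nat_lit 2) (nat_lit 6) C.nil) C.nil))) (C.cons (nat_lit 29) (C.node (nat_lit 0) (nat_lit 3) (nat_lit 8) (C.cons (nat_lit 265) (C.node (nat_lit 0) (nat_lit 2) (nat_lit 6) (C.cons (nat_lit 325) (C.node (nat_lit 0) (nat_lit 4) (nat_lit 8) C.nil) C.nil)) C.nil)) (C.cons (nat_lit 13) (C.node (nat_lit 0) (nat_lit 3) (nat_lit 8) (C.cons (nat_lit 281) (C.node (nat_lit 0) (nat_lit 2) (nat_lit 4) (C.cons (nat_lit 85) (C.node (nat_lit 0) (nat_lit 2) (nat_lit 8) C.nil) C.nil)) C.nil)) C.nil)))) (List.cons (C.node (nat_lit 0) (nat_lit 2) (nat_lit 9)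 (C.cons (nat_lit 581) (C.node (nat_lit 0) (nat_lit 3) (nat_lit 9) (C.cons (nat_lit 553) (C.ref (nat_lit 197) (nat_lit 9515874652960)) (C.cons (nat_lit 521) (C.node (nat_lit 0) (nat_lit 5) (nat_lit 9) (C.cons (nat_lit 545) (C.ref (nat_lit 227) (nat_lit 11649936536080)) C.nil)) C.nil))) (C.cons (nat_lit 525) (C.node (nat_lit 0) (nat_lit 5) (nat_lit 9) (C.cons (nat_lit 609) (C.ref (nat_lit 197) (nat_lit 11577455809360)) (C.cons (nat_lit 545) (C.node (nat_lit 0) (nat_lit 6) (nat_lit 9) (C.cons (nat_lit 577) (C.ref (nat_lit 228) (nat_lit 11649936536080)) C.nil)) C.nil))) (C.cons (nat_lit 517) (C.node (nat_lit 0) (nat_lit 3) (nat_lit 9) (C.cons (nat_lit 585) (C.node (nat_lit 0) (nat_lit 5) (nat_lit 9) (C.cons (nat_lit 545) (C.ref (nat_lit 229) (nat_lit 11649936536080)) C.nil)) (C.cons (nat_lit 553) (C.node (nat_lit 0) (nat_lit 6) (nat_lit 9) (C.cons (nat_lit 577) (C.ref (nat_lit 228) (nat_lit 9459500070160)) C.nil)) (C.cons (nat_lit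 521) (C.node (nat_lit 0) (nat_lit 5) (nat_lit 9) (C.cons (nat_lit 609) (C.ref (nat_lit 227) (nat_lit 9459500070160)) (C.cons (nat_lit 545) (C.node (nat_lit 0) (nat_lit 6) (nat_lit 9) C.nil) C.nil))) C.nil)))) C.nil)))) List.nil))))))))))))))))))))))

theorem ok11_209 : okL par11 (nat_lit 231) c11_209 (nat_lit 209) = true := by decide +kernel


end Pool.Agent.MP_1f1ca1_co

end
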