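import Pool.Agent.Mg.F1f1ca1.G140a50

section

set_option autoImplicit false
set_option maxRecDepth 1000000
set_option maxHeartbeats 0

namespace Pool.Agent.MP_1f1ca1_co

noncomputable def c11_144 : List C :=
  (List.cons (C.node (nat_lit 4) (nat_lit 6) (nat_lit 7) (C.cons (nat_lit 464) (C.node (nat_lit 4) (nat_lit 6) (nat_lit 9) (C.cons (nat_lit 592) (C.node (nat_lit 2) (nat_lit 7) (nat_lit 8) (C.cons (nat_lit 398) (C.miq (nat_lit 1445137016) (nat_lit 712062786756048764044969857)) (C.cons (nat_lit 396) (C.miq (nat_lit 1445137016) (nat_lit 712062786756048764044838785)) (C.cons (nat_lit 390) (C.miq (nat_lit 2759984753) (nat_lit 334891470946431317351727299)) (C.cons (nat_lit 388) (C.node (nat_lit 1) (nat_lit 2) (nat_lit 7) (C.cons (nat_lit 142) (C.node (nat_lit 3) (nat_lit 7) (nat_lit 8) (C.cons (nat_lit 392) (C.node (nat_lit 1) (nat_lit 7) (nat_lit 10) (C.cons (nat_lit 1186) (C.miq (nat_lit 352549474) (nat_lit 359053588197037537439319236))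 (C.cons (nat_lit 1154) (C.node (nat_lit 2) (nat_lit 3) (nat_lit 4) (C.cons (nat_lit 60) (C.miq (nat_lit 1484009618) (nat_lit 560942687189438678395257421)) (C.cons (nat_lit 28) (C.node (nat_lit 1) (nat_lit 4) (nat_lit 6) (C.cons (nat_lit 90) (C.miq (nat_lit 1379141398) (nat_lit 33870896943665405700473027)) (C.cons (nat_lit 82) (C.node (nat_lit 3) (nat_lit 4) (nat_lit 6) (C.cons (nat_lit 88) (C.node (nat_lit 1) (nat_lit 4) (nat_lit 7) (C.cons (nat_lit 178) (C.miq (nat_lit 910237783) (nat_lit 99134536811851703754293413)) (C.cons (nat_lit 146) (C.node (nat_lit 4) (nat_lit 5) (nat_lit 7) (C.cons (nat_lit 176) (C.node (nat_lit 2) (nat_lit 3) (nat_lit 5) (C.cons (nat_lit 1068) (C.miq (nat_lit 1343465074) (nat_lit 13317885458469528770839748)) (C.cons (nat_lit 44) (C.node (nat_lit 3) (nat_lit 6) (nat_lit 7) (C.cons (nat_lit 232) (C.miq (nat_lit 1461347104) (nat_lit 1395121369848596679920910925)) (C.cons (nat_lit 200) (C.node (nat_lit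 3) (nat_lit 7) (nat_lit 9) (C.cons (nat_lit 680) (C.miq (nat_lit 1464351008) (nat_lit 560947059175583647660311117)) (C.cons (nat_lit 648) (C.node (nat_lit 3) (nat_lit 6) (nat_lit 10) (C.cons (nat_lit 1354) (C.miq (nat_lit 1398933671) (nat_lit 712060351549392629526693761)) (C.cons (nat_lit 1352) (C.miq (nat_lit 1398933671) (nat_lit 712060351549392620936759169)) (C.cons (nat_lit 1098) (C.miq (nat_lit 1511458354) (nat_lit 1395103439868095994090357325)) (C.cons (nat_lit 1096) (C.node (nat_lit 1) (nat_lit 2) (nat_lit 4) (C.cons (nat_lit 54) (C.node (nat_lit 1) (nat_lit 7) (nat_lit 9) (C.cons (nat_lit 674) (C.miq (nat_lit 2270300436) (nat_lit 199477870525238556444983827)) (C.cons (nat_lit 642) (C.node (nat_lit 2) (nat_lit 5) (nat_lit 9) (C.cons (nat_lit 804) (C.miq (nat_lit 1380157808) (nat_lit 33855401858508224592414593)) (C.cons (nat_lit 548) (C.node (nat_lit 1) (nat_lit 4) (nat_lit 10) (C.cons (nat_lit 1306) (C.miq (nat_lit 2166858832)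 (nat_lit 171702902948249490380096625)) (C.cons (nat_lit 1298) (C.miq (nat_lit 2166858832) (nat_lit 171702902945997690566411377)) (C.cons (nat_lit 1050) (C.miq (nat_lit 1412893202) (nat_lit 184968694433851984051045383)) (C.cons (nat_lit 1042) (C.node (nat_lit 1) (nat_lit 2) (nat_lit 6) (C.cons (nat_lit 326) (C.node (nat_lit 1) (nat_lit 3) (nat_lit 4) C.nil) (C.cons (nat_lit 70) (C.node (nat_lit 2) (nat_lit 5) (nat_lit 6) (C.cons (nat_lit 356) (C.node (nat_lit 1) (nat_lit 3) (nat_lit 4) C.nil) C.nil)) C.nil))) C.nil))))) C.nil))) C.nil))) (C.cons (nat_lit 22) (C.node (nat_lit 2) (nat_lit 4) (nat_lit 5) (C.cons (nat_lit 52) (C.node (nat_lit 1) (nat_lit 6) (nat_lit 10) (C.cons (nat_lit 1346) (C.node (nat_lit 3) (nat_lit 6) (nat_lit 8) (C.cons (nat_lit 328) (C.node (nat_lit 1) (nat_lit 2) (nat_lit 6) (C.cons (nat_lit 102) (C.miq (nat_lit 2166859344) (nat_lit 171702902959508695606953073)) (C.cons (nat_lit 70) (C.node (nat_lit 3)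 (nat_lit 5) (nat_lit 7) C.nil) C.nil))) C.nil)) (C.cons (nat_lit 1090) (C.node (nat_lit 6) (nat_lit 8) (nat_lit 10) (C.cons (nat_lit 1344) (C.node (nat_lit 3) (nat_lit 5) (nat_lit 7) (C.cons (nat_lit 168) (C.node (nat_lit 3) (nat_lit 7) (nat_lit 10) C.nil) C.nil)) C.nil)) C.nil))) C.nil)) C.nil))) C.nil))))) C.nil))) C.nil))) C.nil))) C.nil)) C.nil))) C.nil)) C.nil))) C.nil))) C.nil))) C.nil)) (C.cons (nat_lit 134)
  (C.node (nat_lit 2) (nat_lit 3) (nat_lit 7) (C.cons (nat_lit 140) (C.node (nat_lit 1) (nat_lit 4) (nat_lit 6) (C.cons (nat_lit 90) (C.node (nat_lit 1) (nat_lit 4) (nat_lit 7) (C.cons (nat_lit 178) (C.miq (nat_lit 829580368) (nat_lit 162006924985953236755481713)) (C.cons (nat_lit 146) (C.node (nat_lit 4) (nat_lit 5) (nat_lit 7) (C.cons (nat_lit 176) (C.node (nat_lit 1) (nat_lit 6) (nat_lit 10) (C.cons (nat_lit 1346) (C.miq (nat_lit 815875974) (nat_lit 1246404180272723235138830800)) (C.cons (nat_lit 1090) (C.node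 (nat_lit 2) (nat_lit 3) (nat_lit 4) (C.cons (nat_lit 60) (C.miq (nat_lit 321348688) (nat_lit 169253211886475463434241137)) (C.cons (nat_lit 28) (C.node (nat_lit 3) (nat_lit 4) (nat_lit 10) (C.cons (nat_lit 1304) (C.miq (nat_lit 2685634404) (nat_lit 13322239110747305962766800)) (C.cons (nat_lit 1048) (C.node (nat_lit 3) (nat_lit 4) (nat_lit 8) (C.cons (nat_lit 792) (C.miq (nat_lit 1396836503) (nat_lit 33852966745583248708208513)) (C.cons (nat_lit 280) (C.node (nat_lit 3) (nat_lit 6) (nat_lit 8) (C.cons (nat_lit 1352) (C.miq (nat_lit 1398933671) (nat_lit 712060351549392620936759169)) (C.cons (nat_lit 328) (C.node (nat_lit 3) (nat_lit 6) (nat_lit 10) (C.cons (nat_lit 1096) (C.node (nat_lit 6) (nat_lit 8) (nat_lit 10) (C.cons (nat_lit 1344) (C.node (nat_lit 3) (nat_lit 7) (nat_lit 8) (C.cons (nat_lit 394) (C.miq (nat_lit 2202693984) (nat_lit 1266989695262398498586296515)) (C.cons (nat_lit 392) (C.node (nat_lit 3) (nat_lit 8) (nat_lit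 9) (C.cons (nat_lit 778) (C.miq (nat_lit 2204799296) (nat_lit 1325018134711987090029085203)) (C.cons (nat_lit 776) (C.node (nat_lit 1) (nat_lit 4) (nat_lit 10) (C.cons (nat_lit 1298) (C.miq (nat_lit 328746506) (nat_lit 938150379920095192335582321)) (C.cons (nat_lit 1042) (C.node (nat_lit 4) (nat_lit 8) (nat_lit 10) (C.cons (nat_lit 1296) (C.node (nat_lit 1) (nat_lit 2) (nat_lit 4) (C.cons (nat_lit 54) (C.node (nat_lit 1) (nat_lit 4) (nat_lit 8) C.nil) C.nil)) C.nil)) C.nil))) C.nil))) C.nil))) C.nil)) C.nil)) C.nil))) C.nil))) C.nil))) C.nil))) C.nil))) C.nil)) C.nil))) (C.cons (nat_lit 82) (C.node (nat_lit 3) (nat_lit 4) (nat_lit 6) (C.cons (nat_lit 88) (C.node (nat_lit 1) (nat_lit 4) (nat_lit 7) (C.cons (nat_lit 178) (C.node (nat_lit 5) (nat_lit 7) (nat_lit 8) (C.cons (nat_lit 416) (C.node (nat_lit 2) (nat_lit 4) (nat_lit 5) (C.cons (nat_lit 60) (C.miq (nat_lit 2269448483) (nat_lit 215194275115110149778047565)) (C.cons (nat_lit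 52) (C.node (nat_lit 2) (nat_lit 5) (nat_lit 9) (C.cons (nat_lit 806) (C.miq (nat_lit 891553943) (nat_lit 62866965055405524516079489)) (C.cons (nat_lit 804) (C.miq (nat_lit 891553943) (nat_lit 62866965055405515926144897)) (C.cons (nat_lit 550) (C.miq (nat_lit 844564756) (nat_lit 199475582754048214914171411)) (C.cons (nat_lit 548) (C.node (nat_lit 1) (nat_lit 2) (nat_lit 4) (C.cons (nat_lit 30) (C.node (nat_lit 1) (nat_lit 2) (nat_lit 9) (C.cons (nat_lit 774) (C.miq (nat_lit 2168951344) (nat_lit 215224232304631349979447885)) (C.cons (nat_lit 518) (C.node (nat_lit 2) (nat_lit 8) (nat_lit 9) (C.cons (nat_lit 772) (C.node (nat_lit 1) (nat_lit 7) (nat_lit 9) (C.cons (nat_lit 650) (C.miq (nat_lit 2266237234) (nat_lit 215193906180228632635376205)) (C.cons (nat_lit 642) (C.node (nat_lit 1) (nat_lit 7) (nat_lit 10) (C.cons (nat_lit 1162) (C.miq (nat_lit 2268334610) (nat_lit 184970760689865102290977799)) (C.cons (nat_lit 1154) (C.node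 (nat_lit 3) (nat_lit 6) (nat_lit 7) (C.cons (nat_lit 232) (C.miq (nat_lit 924411200) (nat_lit 776141241390154304223118449)) (C.cons (nat_lit 200) (C.node (nat_lit 3) (nat_lit 4) (nat_lit 5) (C.cons (nat_lit 568) (C.miq (nat_lit 1466122505) (nat_lit 241795641723663085378273811)) (C.cons (nat_lit 56) (C.node (nat_lit 3) (nat_lit 4) (nat_lit 9) (C.cons (nat_lit 792) (C.miq (nat_lit 874875248) (nat_lit 62869621525881625065621377)) (C.cons (nat_lit 536) (C.node (nat_lit 1) (nat_lit 3) (nat_lit 7) C.nil) C.nil))) C.nil))) C.nil))) C.nil))) C.nil))) C.nil)) C.nil))) (C.cons (nat_lit 22) (C.node (nat_lit 2) (nat_lit 3) (nat_lit 4) (C.cons (nat_lit 28)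
  (C.node (nat_lit 1) (nat_lit 2) (nat_lit 9) (C.cons (nat_lit 774) (C.node (nat_lit 1) (nat_lit 2) (nat_lit 6) (C.cons (nat_lit 102) (C.miq (nat_lit 840369748) (nat_lit 161998882345992786352931953)) (C.cons (nat_lit 70) (C.node (nat_lit 1) (nat_lit 6) (nat_lit 9) (C.cons (nat_lit 610) (C.miq (nat_lit 2219909225) (nat_lit 215203073749290496257294925)) (C.cons (nat_lit 578) (C.node (nat_lit 1) (nat_lit 7) (nat_lit 9) (C.cons (nat_lit 650) (C.miq (nat_lit 874606729) (nat_lit 26608358458236614245484417)) (C.cons (nat_lit 642) (C.node (nat_lit 2) (nat_lit 5) (nat_lit 6) (C.cons (nat_lit 356) (C.miq (nat_lit 2235639305) (nat_lit 215203073771527019412259405)) (C.cons (nat_lit 100) (C.node (nat_lit 2) (nat_lit 6) (nat_lit 8) C.nil) C.nil))) C.nil))) C.nil))) C.nil))) (C.cons (nat_lit 518) (C.node (nat_lit 2) (nat_lit 8) (nat_lit 9) (C.cons (nat_lit 772) (C.node (nat_lit 1) (nat_lit 7) (nat_lit 8) (C.cons (nat_lit 394) (C.node (nat_lit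 1) (nat_lit 7) (nat_lit 9) (C.cons (nat_lit 642) (C.node (nat_lit 1) (nat_lit 7) (nat_lit 10) (C.cons (nat_lit 1154) (C.node (nat_lit 1) (nat_lit 2) (nat_lit 3) C.nil) C.nil)) C.nil)) (C.cons (nat_lit 386) (C.node (nat_lit 3) (nat_lit 7) (nat_lit 8) (C.cons (nat_lit 392) (C.node (nat_lit 1) (nat_lit 7) (nat_lit 9) (C.cons (nat_lit 650) (C.node (nat_lit 1) (nat_lit 7) (nat_lit 10) (C.cons (nat_lit 1154) (C.node (nat_lit 1) (nat_lit 2) (nat_lit 3) C.nil) C.nil)) (C.cons (nat_lit 642) (C.node (nat_lit 3) (nat_lit 6) (nat_lit 7) (C.cons (nat_lit 232) (C.miq (nat_lit 924411200) (nat_lit 776141241390154304223118449)) (C.cons (nat_lit 200) (C.node (nat_lit 1) (nat_lit 2) (nat_lit 3) C.nil) C.nil))) C.nil))) C.nil)) C.nil))) C.nil)) C.nil))) C.nil)) C.nil))) C.nil))))) C.nil))) C.nil)) (C.cons (nat_lit 146) (C.node (nat_lit 4) (nat_lit 5) (nat_lit 7) (C.cons (nat_lit 176) (C.node (nat_lit 3) (nat_lit 6) (nat_lit 7) (C.cons (nat_lit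 232) (C.node (nat_lit 6) (nat_lit 7) (nat_lit 9) (C.cons (nat_lit 704) (C.node (nat_lit 3) (nat_lit 7) (nat_lit 9) (C.cons (nat_lit 650) (C.miq (nat_lit 391418720) (nat_lit 212780739656237605889049165)) (C.cons (nat_lit 648) (C.node (nat_lit 5) (nat_lit 7) (nat_lit 10) (C.cons (nat_lit 1186) (C.miq (nat_lit 389195104) (nat_lit 169268633673018397856433265)) (C.cons (nat_lit 1184) (C.node (nat_lit 3) (nat_lit 4) (nat_lit 9) (C.cons (nat_lit 792) (C.miq (nat_lit 2222274848) (nat_lit 212776423158095642729185869)) (C.cons (nat_lit 568) (C.miq (nat_lit 389613140) (nat_lit 783393726386271461909726321)) (C.cons (nat_lit 536) (C.node (nat_lit 3) (nat_lit 6) (nat_lit 10) (C.cons (nat_lit 1354) (C.miq (nat_lit 1398933671) (nat_lit 712060351549392629526693761)) (C.cons (nat_lit 1352) (C.miq (nat_lit 1398933671) (nat_lit 712060351549392620936759169)) (C.cons (nat_lit 1098) (C.miq (nat_lit 326280784) (nat_lit 169268633648248599878108273))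 (C.cons (nat_lit 1096) (C.node (nat_lit 1) (nat_lit 3) (nat_lit 6) (C.cons (nat_lit 330) (C.node (nat_lit 1) (nat_lit 6) (nat_lit 10) (C.cons (nat_lit 1090) (C.node (nat_lit 3) (nat_lit 7) (nat_lit 8) (C.cons (nat_lit 392) (C.node (nat_lit 6) (nat_lit 8) (nat_lit 10) C.nil) C.nil)) C.nil)) (C.cons (nat_lit 74) (C.node (nat_lit 3) (nat_lit 6) (nat_lit 8) (C.cons (nat_lit 328) (C.node (nat_lit 1) (nat_lit 6) (nat_lit 10) (C.cons (nat_lit 1346) (C.node (nat_lit 1) (nat_lit 7) (nat_lit 9) (C.cons (nat_lit 674) (C.node (nat_lit 5) (nat_lit 7) (nat_lit 8) C.nil) C.nil)) (C.cons (nat_lit 1090) (C.node (nat_lit 6) (nat_lit 8) (nat_lit 10) (C.cons (nat_lit 1344) (C.node (nat_lit 1) (nat_lit 7) (nat_lit 10) C.nil) C.nil)) C.nil))) C.nil)) C.nil))) C.nil))))) C.nil)))) C.nil))) C.nil))) C.nil)) (C.cons (nat_lit 200) (C.node (nat_lit 3) (nat_lit 5) (nat_lit 6) (C.cons (nat_lit 106) (C.node (nat_lit 3) (nat_lit 6) (nat_lit 8) (C.cons (nat_lit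 1352) (C.miq (nat_lit 1398933671) (nat_lit 712060351549392620936759169)) (C.cons (nat_lit 328) (C.node (nat_lit 3) (nat_lit 6) (nat_lit 10) (C.cons (nat_lit 1096) (C.node (nat_lit 3) (nat_lit 7) (nat_lit 8) (C.cons (nat_lit 394)
  (C.miq (nat_lit 2822047510) (nat_lit 359071942914271795133153475)) (C.cons (nat_lit 392) (C.node (nat_lit 1) (nat_lit 7) (nat_lit 8) (C.cons (nat_lit 418) (C.miq (nat_lit 2555578134) (nat_lit 359061834098519505378083011)) (C.cons (nat_lit 386) (C.node (nat_lit 5) (nat_lit 7) (nat_lit 8) (C.cons (nat_lit 416) (C.node (nat_lit 3) (nat_lit 8) (nat_lit 9) (C.cons (nat_lit 792) (C.miq (nat_lit 2222274848) (nat_lit 212776423158095642729185869)) (C.cons (nat_lit 778) (C.miq (nat_lit 380187912) (nat_lit 1934295662980137256596078889)) (C.cons (nat_lit 776) (C.node (nat_lit 1) (nat_lit 2) (nat_lit 6) (C.cons (nat_lit 326) (C.node (nat_lit 1) (nat_lit 6) (nat_lit 9) (C.cons (nat_lit 578) (C.node (nat_lit 1)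 (nat_lit 6) (nat_lit 10) (C.cons (nat_lit 1090) (C.node (nat_lit 2) (nat_lit 5) (nat_lit 6) (C.cons (nat_lit 100) (C.node (nat_lit 6) (nat_lit 8) (nat_lit 10) C.nil) C.nil)) C.nil)) C.nil)) (C.cons (nat_lit 70) (C.node (nat_lit 1) (nat_lit 6) (nat_lit 9) (C.cons (nat_lit 834) (C.node (nat_lit 1) (nat_lit 6) (nat_lit 10) (C.cons (nat_lit 1090) (C.node (nat_lit 6) (nat_lit 8) (nat_lit 10) (C.cons (nat_lit 1344) (C.node (nat_lit 2) (nat_lit 5) (nat_lit 6) C.nil) C.nil)) C.nil)) (C.cons (nat_lit 578) (C.node (nat_lit 1) (nat_lit 6) (nat_lit 8) (C.cons (nat_lit 1346) (C.node (nat_lit 5) (nat_lit 6) (nat_lit 7) (C.cons (nat_lit 224) (C.node (nat_lit 6) (nat_lit 7) (nat_lit 9) C.nil) C.nil)) (C.cons (nat_lit 322) (C.node (nat_lit 1) (nat_lit 6) (nat_lit 10) C.nil) C.nil))) C.nil))) C.nil))) C.nil)))) C.nil)) C.nil))) C.nil))) C.nil)) C.nil))) (C.cons (nat_lit 104) (C.node (nat_lit 3) (nat_lit 7) (nat_lit 8) (C.cons (nat_lit 394) (C.node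 (nat_lit 5) (nat_lit 7) (nat_lit 8) (C.cons (nat_lit 416) (C.node (nat_lit 3) (nat_lit 6) (nat_lit 8) (C.cons (nat_lit 1352) (C.miq (nat_lit 1398933671) (nat_lit 712060351549392620936759169)) (C.cons (nat_lit 328) (C.node (nat_lit 3) (nat_lit 7) (nat_lit 9) (C.cons (nat_lit 680) (C.miq (nat_lit 1464351008) (nat_lit 560947059175583647660311117)) (C.cons (nat_lit 648) (C.node (nat_lit 3) (nat_lit 8) (nat_lit 9) (C.cons (nat_lit 792) (C.miq (nat_lit 2222274848) (nat_lit 212776423158095642729185869)) (C.cons (nat_lit 776) (C.node (nat_lit 3) (nat_lit 4) (nat_lit 8) (C.cons (nat_lit 1304) (C.miq (nat_lit 373518504) (nat_lit 106392740198144912859334529)) (C.cons (nat_lit 280) (C.node (nat_lit 6) (nat_lit 8) (nat_lit 10) (C.cons (nat_lit 1346) (C.miq (nat_lit 878801064) (nat_lit 99139185268635188792002433)) (C.cons (nat_lit 1344) (C.node (nat_lit 3) (nat_lit 5) (nat_lit 7) (C.cons (nat_lit 1192) (C.node (nat_lit 1) (nat_lit 7) (nat_lit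 10) C.nil) C.nil)) C.nil))) C.nil))) C.nil))) C.nil))) C.nil))) C.nil)) (C.cons (nat_lit 392) (C.node (nat_lit 1) (nat_lit 7) (nat_lit 8) (C.cons (nat_lit 418) (C.node (nat_lit 3) (nat_lit 8) (nat_lit 9) (C.cons (nat_lit 792) (C.miq (nat_lit 2222274848) (nat_lit 212776423158095642729185869)) (C.cons (nat_lit 778) (C.miq (nat_lit 2456891480) (nat_lit 162010411561039125421359401)) (C.cons (nat_lit 776) (C.node (nat_lit 3) (nat_lit 6) (nat_lit 8) (C.cons (nat_lit 1354) (C.miq (nat_lit 1398933671) (nat_lit 712060351549392629526693761)) (C.cons (nat_lit 1352) (C.miq (nat_lit 1398933671) (nat_lit 712060351549392620936759169)) (C.cons (nat_lit 330) (C.miq (nat_lit 629344022) (nat_lit 359061833604249446288851139)) (C.cons (nat_lit 328) (C.node (nat_lit 1) (nat_lit 3) (nat_lit 6) (C.cons (nat_lit 1098) (C.node (nat_lit 1) (nat_lit 7) (nat_lit 10) (C.cons (nat_lit 1154) (C.node (nat_lit 6) (nat_lit 8) (nat_lit 10) (C.cons (nat_lit 1344)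 (C.node (nat_lit 2) (nat_lit 3) (nat_lit 5) (C.cons (nat_lit 1068) (C.miq (nat_lit 321350224) (nat_lit 169253212170206569285616753)) (C.cons (nat_lit 62) (C.miq (nat_lit 2269448483) (nat_lit 212776423475880891428766285)) (C.cons (nat_lit 60) (C.miq (nat_lit 2269448483) (nat_lit 212776423475880891428635213)) (C.cons (nat_lit 46) (C.miq (nat_lit 328749575) (nat_lit 938134146772925428954890405)) (C.cons (nat_lit 44) (C.node (nat_lit 1) (nat_lit 3) (nat_lit 7)
  (C.cons (nat_lit 650) (C.node (nat_lit 3) (nat_lit 5) (nat_lit 7) (C.cons (nat_lit 1192) (C.node (nat_lit 3) (nat_lit 9) (nat_lit 10) (C.cons (nat_lit 1544) (C.node (nat_lit 1) (nat_lit 5) (nat_lit 10) C.nil) C.nil)) C.nil)) C.nil)) C.nil)))))) C.nil)) C.nil)) (C.cons (nat_lit 74) (C.node (nat_lit 3) (nat_lit 6) (nat_lit 10) (C.cons (nat_lit 1096) (C.node (nat_lit 1) (nat_lit 6) (nat_lit 10) (C.cons (nat_lit 1346) (C.node (nat_lit 1) (nat_lit 2) (nat_lit 6) (C.cons (nat_lit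 102) (C.miq (nat_lit 2166859344) (nat_lit 162031496402591662209303665)) (C.cons (nat_lit 70) (C.node (nat_lit 5) (nat_lit 6) (nat_lit 7) (C.cons (nat_lit 736) (C.node (nat_lit 1) (nat_lit 5) (nat_lit 6) C.nil) C.nil)) C.nil))) (C.cons (nat_lit 1090) (C.node (nat_lit 6) (nat_lit 8) (nat_lit 10) (C.cons (nat_lit 1344) (C.node (nat_lit 3) (nat_lit 7) (nat_lit 10) C.nil) C.nil)) C.nil))) C.nil)) C.nil))) C.nil))))) C.nil)))) (C.cons (nat_lit 386) (C.node (nat_lit 5) (nat_lit 7) (nat_lit 8) (C.cons (nat_lit 416) (C.node (nat_lit 5) (nat_lit 6) (nat_lit 7) (C.cons (nat_lit 736) (C.node (nat_lit 1) (nat_lit 6) (nat_lit 9) (C.cons (nat_lit 834) (C.node (nat_lit 1) (nat_lit 2) (nat_lit 6) (C.cons (nat_lit 102) (C.miq (nat_lit 1468080278) (nat_lit 466647247985594001654940237)) (C.cons (nat_lit 70) (C.node (nat_lit 1) (nat_lit 5) (nat_lit 6) (C.cons (nat_lit 98) (C.node (nat_lit 1) (nat_lit 2) (nat_lit 9) C.nil) C.nil)) C.nil))) (C.cons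 (nat_lit 578) (C.node (nat_lit 6) (nat_lit 8) (nat_lit 9) (C.cons (nat_lit 832) (C.node (nat_lit 1) (nat_lit 7) (nat_lit 9) (C.cons (nat_lit 650) (C.node (nat_lit 3) (nat_lit 4) (nat_lit 9) (C.cons (nat_lit 568) (C.miq (nat_lit 1400260880) (nat_lit 241806138030818221214597651)) C.nil)) (C.cons (nat_lit 642) (C.node (nat_lit 3) (nat_lit 7) (nat_lit 9) (C.cons (nat_lit 648) (C.node (nat_lit 3) (nat_lit 4) (nat_lit 9) (C.cons (nat_lit 792) (C.miq (nat_lit 2222274848) (nat_lit 212776423158095642729185869)) (C.cons (nat_lit 568) (C.node (nat_lit 4) (nat_lit 8) (nat_lit 9) C.nil) C.nil))) C.nil)) C.nil))) C.nil)) C.nil))) (C.cons (nat_lit 224) (C.node (nat_lit 6) (nat_lit 7) (nat_lit 9) (C.cons (nat_lit 704) (C.node (nat_lit 3) (nat_lit 7) (nat_lit 9) (C.cons (nat_lit 682) (C.miq (nat_lit 1464351008) (nat_lit 560947059176146597613732429)) (C.cons (nat_lit 680) (C.miq (nat_lit 1464351008) (nat_lit 560947059175583647660311117)) (C.cons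 (nat_lit 650) (C.node (nat_lit 5) (nat_lit 7) (nat_lit 9) C.nil) C.nil)))) C.nil)) C.nil))) C.nil)) C.nil))) C.nil))) C.nil))) C.nil))) C.nil)) C.nil))) C.nil)) C.nil))) C.nil)) C.nil))) C.nil))))) C.nil)) (C.cons (nat_lit 208) (C.node (nat_lit 4) (nat_lit 6) (nat_lit 9) (C.cons (nat_lit 848) (C.node (nat_lit 6) (nat_lit 7) (nat_lit 9) (C.cons (nat_lit 736) (C.miq (nat_lit 610601111) (nat_lit 1374551700692577744446293889)) (C.cons (nat_lit 704) (C.node (nat_lit 2) (nat_lit 8) (nat_lit 9) (C.cons (nat_lit 806) (C.miq (nat_lit 2191954180) (nat_lit 1474905142995695358255890963)) (C.cons (nat_lit 804) (C.miq (nat_lit 882378533) (nat_lit 1025174573759263938055504037)) (C.cons (nat_lit 774) (C.miq (nat_lit 2191954180) (nat_lit 1474905142986688159001149971)) (C.cons (nat_lit 772) (C.node (nat_lit 1) (nat_lit 2) (nat_lit 9) (C.cons (nat_lit 550) (C.node (nat_lit 1) (nat_lit 6) (nat_lit 9) (C.cons (nat_lit 578) (C.node (nat_lit 5) (nat_lit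 6) (nat_lit 9) (C.cons (nat_lit 608) (C.node (nat_lit 5) (nat_lit 8) (nat_lit 9) (C.cons (nat_lit 800) (C.node (nat_lit 2) (nat_lit 4) (nat_lit 5) (C.cons (nat_lit 60) (C.miq (nat_lit 949244018) (nat_lit 1025170201921456281482428581)) (C.cons (nat_lit 52) (C.node (nat_lit 5) (nat_lit 7) (nat_lit 9) (C.cons (nat_lit 680) (C.miq (nat_lit 961042208) (nat_lit 1025174573907601250747482277)) (C.cons (nat_lit 672) (C.node (nat_lit 4) (nat_lit 5) (nat_lit 7) (C.cons (nat_lit 434) (C.miq (nat_lit 1683134576) (nat_lit 62875007990912776287881089)) (C.cons (nat_lit 432) (C.miq (nat_lit 1683134576) (nat_lit 62875007990912767697946497)) (C.cons (nat_lit 178)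
  (C.miq (nat_lit 844564756) (nat_lit 199475582754048214914171411)) (C.cons (nat_lit 176) (C.node (nat_lit 1) (nat_lit 2) (nat_lit 4) (C.cons (nat_lit 30) (C.node (nat_lit 1) (nat_lit 4) (nat_lit 6) (C.cons (nat_lit 82) (C.node (nat_lit 3) (nat_lit 4) (nat_lit 6) (C.cons (nat_lit 88) (C.node (nat_lit 1) (nat_lit 4) (nat_lit 7) (C.cons (nat_lit 402) (C.miq (nat_lit 2166977584) (nat_lit 664944637096564711662354585)) (C.cons (nat_lit 146) (C.node (nat_lit 4) (nat_lit 7) (nat_lit 8) (C.cons (nat_lit 400) (C.node (nat_lit 1) (nat_lit 4) (nat_lit 10) (C.cons (nat_lit 1298) (C.miq (nat_lit 342010000) (nat_lit 101568787806127007164336001)) (C.cons (nat_lit 1042) (C.node (nat_lit 1) (nat_lit 4) (nat_lit 5) (C.cons (nat_lit 306) (C.node (nat_lit 3) (nat_lit 4) (nat_lit 5) (C.cons (nat_lit 568) (C.node (nat_lit 1) (nat_lit 2) (nat_lit 6) C.nil) C.nil)) C.nil)) C.nil))) C.nil)) C.nil))) C.nil)) C.nil)) (C.cons (nat_lit 22) (C.node (nat_lit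 2) (nat_lit 3) (nat_lit 4) (C.cons (nat_lit 28) (C.node (nat_lit 1) (nat_lit 2) (nat_lit 6) (C.cons (nat_lit 326) (C.node (nat_lit 2) (nat_lit 5) (nat_lit 6) (C.cons (nat_lit 100) (C.node (nat_lit 1) (nat_lit 4) (nat_lit 7) (C.cons (nat_lit 402) (C.miq (nat_lit 880936726) (nat_lit 334883317208579094354460867)) (C.cons (nat_lit 146) (C.node (nat_lit 4) (nat_lit 7) (nat_lit 8) (C.cons (nat_lit 400) (C.node (nat_lit 2) (nat_lit 7) (nat_lit 8) (C.cons (nat_lit 396) (C.miq (nat_lit 1445137016) (nat_lit 712062786756048764044838785)) (C.cons (nat_lit 388) (C.node (nat_lit 1) (nat_lit 2) (nat_lit 7) (C.cons (nat_lit 142) (C.node (nat_lit 2) (nat_lit 3) (nat_lit 5) (C.cons (nat_lit 1068) (C.miq (nat_lit 1343465074) (nat_lit 13317885458469528770839748)) C.nil)) C.nil)) C.nil))) C.nil)) C.nil))) C.nil)) (C.cons (nat_lit 70) (C.node (nat_lit 1) (nat_lit 4) (nat_lit 6) (C.cons (nat_lit 90) (C.node (nat_lit 1) (nat_lit 4) (nat_lit 7) (C.cons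 (nat_lit 402) (C.miq (nat_lit 964976753) (nat_lit 1025170755405969185951580355)) (C.cons (nat_lit 146) (C.node (nat_lit 4) (nat_lit 7) (nat_lit 8) (C.cons (nat_lit 400) (C.node (nat_lit 1) (nat_lit 4) (nat_lit 10) (C.cons (nat_lit 1298) (C.miq (nat_lit 342010000) (nat_lit 101568787806127007164336001)) (C.cons (nat_lit 1042) (C.node (nat_lit 1) (nat_lit 4) (nat_lit 5) (C.cons (nat_lit 306) (C.node (nat_lit 1) (nat_lit 2) (nat_lit 3) (C.cons (nat_lit 398) (C.miq (nat_lit 1445137016) (nat_lit 712062786756048764044969857)) (C.cons (nat_lit 270) (C.miq (nat_lit 1362511904) (nat_lit 108824297799460936036974869)) (C.cons (nat_lit 142) (C.miq (nat_lit 1410795058) (nat_lit 176506213696545456659497549)) C.nil)))) C.nil)) C.nil))) C.nil)) C.nil))) (C.cons (nat_lit 82) (C.node (nat_lit 3) (nat_lit 4) (nat_lit 6) (C.cons (nat_lit 88) (C.node (nat_lit 1) (nat_lit 4) (nat_lit 7) (C.cons (nat_lit 402) (C.node (nat_lit 4) (nat_lit 5) (nat_lit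 8) (C.cons (nat_lit 304) (C.node (nat_lit 3) (nat_lit 4) (nat_lit 9) C.nil) C.nil)) (C.cons (nat_lit 146) (C.node (nat_lit 4) (nat_lit 7) (nat_lit 8) (C.cons (nat_lit 400) (C.node (nat_lit 1) (nat_lit 7) (nat_lit 9) (C.cons (nat_lit 642) (C.node (nat_lit 3) (nat_lit 7) (nat_lit 9) C.nil) C.nil)) C.nil)) C.nil))) C.nil)) C.nil))) C.nil))) C.nil)) C.nil))) C.nil))))) C.nil))) C.nil))) C.nil)) C.nil)) C.nil)) (C.cons (nat_lit 518) (C.node (nat_lit 2) (nat_lit 5) (nat_lit 9) (C.cons (nat_lit 548) (C.node (nat_lit 1) (nat_lit 4) (nat_lit 6) (C.cons (nat_lit 90) (C.node (nat_lit 1) (nat_lit 4) (nat_lit 10) (C.cons (nat_lit 1298) (C.miq (nat_lit 342010000) (nat_lit 101568787806127007164336001)) (C.cons (nat_lit 1042) (C.node (nat_lit 2) (nat_lit 3) (nat_lit 4) (C.cons (nat_lit 60) (C.miq (nat_lit 949244018) (nat_lit 1025170201921456281482428581)) (C.cons (nat_lit 28) (C.node (nat_lit 3) (nat_lit 6) (nat_lit 10) (C.cons (nat_lit 1352)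 (C.miq (nat_lit 1398933671) (nat_lit 712060351549392620936759169)) (C.cons (nat_lit 1096) (C.node (nat_lit 3) (nat_lit 6) (nat_lit 8) (C.cons (nat_lit 456) (C.miq (nat_lit 882401543) (nat_lit 1025177506773838180363862211))
  (C.cons (nat_lit 328) (C.node (nat_lit 3) (nat_lit 8) (nat_lit 9) (C.cons (nat_lit 778) (C.miq (nat_lit 2169148256) (nat_lit 1259736140452797114594951757)) (C.cons (nat_lit 776) (C.node (nat_lit 1) (nat_lit 4) (nat_lit 7) (C.cons (nat_lit 434) (C.miq (nat_lit 642058631) (nat_lit 1374551700780397937160226689)) (C.cons (nat_lit 402) (C.miq (nat_lit 964976753) (nat_lit 1025170755405969185951580355)) (C.cons (nat_lit 178) (C.miq (nat_lit 1412591968) (nat_lit 33852966712084711407943875)) (C.cons (nat_lit 146) (C.node (nat_lit 4) (nat_lit 5) (nat_lit 7) (C.cons (nat_lit 432) (C.miq (nat_lit 642058631) (nat_lit 1374551700780397937160095617)) (C.cons (nat_lit 176) (C.node (nat_lit 4) (nat_lit 7) (nat_lit 8) (C.cons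 (nat_lit 400) (C.node (nat_lit 2) (nat_lit 3) (nat_lit 7) (C.cons (nat_lit 398) (C.miq (nat_lit 1445137016) (nat_lit 712062786756048764044969857)) (C.cons (nat_lit 396) (C.miq (nat_lit 1445137016) (nat_lit 712062786756048764044838785)) (C.cons (nat_lit 142) (C.miq (nat_lit 1410795058) (nat_lit 176506213696545456659497549)) (C.cons (nat_lit 140) (C.node (nat_lit 3) (nat_lit 7) (nat_lit 9) (C.cons (nat_lit 682) (C.miq (nat_lit 1464351008) (nat_lit 483575806720810330432537165)) (C.cons (nat_lit 680) (C.miq (nat_lit 1464351008) (nat_lit 483575806720247380479115853)) (C.cons (nat_lit 650) (C.miq (nat_lit 1900712800) (nat_lit 1259736140416768317575987789)) (C.cons (nat_lit 648) (C.node (nat_lit 1) (nat_lit 2) (nat_lit 4) (C.cons (nat_lit 54) (C.node (nat_lit 1) (nat_lit 4) (nat_lit 8) (C.cons (nat_lit 274) (C.node (nat_lit 4) (nat_lit 5) (nat_lit 8) (C.cons (nat_lit 304) (C.node (nat_lit 3) (nat_lit 4) (nat_lit 5) (C.cons (nat_lit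 568) (C.node (nat_lit 1) (nat_lit 2) (nat_lit 7) (C.cons (nat_lit 390) (C.miq (nat_lit 2169139792) (nat_lit 1259736140343584669012394149)) C.nil)) C.nil)) C.nil)) C.nil)) (C.cons (nat_lit 22) (C.node (nat_lit 2) (nat_lit 4) (nat_lit 5) (C.cons (nat_lit 52) (C.node (nat_lit 1) (nat_lit 2) (nat_lit 7) (C.cons (nat_lit 390) (C.node (nat_lit 3) (nat_lit 7) (nat_lit 8) C.nil) C.nil)) C.nil)) C.nil))) C.nil))))) C.nil))))) C.nil)) C.nil))) C.nil))))) C.nil))) C.nil))) C.nil))) C.nil))) C.nil))) (C.cons (nat_lit 82) (C.node (nat_lit 3) (nat_lit 4) (nat_lit 6) (C.cons (nat_lit 88) (C.node (nat_lit 1) (nat_lit 6) (nat_lit 9) (C.cons (nat_lit 610) (C.node (nat_lit 5) (nat_lit 8) (nat_lit 9) (C.cons (nat_lit 800) (C.node (nat_lit 2) (nat_lit 5) (nat_lit 6) (C.cons (nat_lit 356) (C.miq (nat_lit 354457220) (nat_lit 199482555629218218418438992)) (C.cons (nat_lit 100) (C.node (nat_lit 5) (nat_lit 7) (nat_lit 9) (C.cons (nat_lit 680) (C.miq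 (nat_lit 961042208) (nat_lit 1025174573907601250747482277)) (C.cons (nat_lit 672) (C.node (nat_lit 4) (nat_lit 5) (nat_lit 8) (C.cons (nat_lit 434) (C.miq (nat_lit 642058631) (nat_lit 1374551700780397937160226689)) (C.cons (nat_lit 432) (C.miq (nat_lit 642058631) (nat_lit 1374551700780397937160095617)) (C.cons (nat_lit 306) (C.miq (nat_lit 2190557285) (nat_lit 626229219342035565945160817)) (C.cons (nat_lit 304) (C.node (nat_lit 1) (nat_lit 2) (nat_lit 6) (C.cons (nat_lit 326) (C.node (nat_lit 2) (nat_lit 7) (nat_lit 8) (C.cons (nat_lit 396) (C.miq (nat_lit 1445137016) (nat_lit 712062786756048764044838785)) (C.cons (nat_lit 388) (C.node (nat_lit 4) (nat_lit 7) (nat_lit 8) (C.cons (nat_lit 402) (C.miq (nat_lit 880936726) (nat_lit 334883317208579094354460867)) (C.cons (nat_lit 400) (C.node (nat_lit 6) (nat_lit 8) (nat_lit 10) (C.cons (nat_lit 1352) (C.miq (nat_lit 908429936) (nat_lit 120898061025012217591170945)) (C.cons (nat_lit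 1344) (C.node (nat_lit 1) (nat_lit 2) (nat_lit 7) (C.cons (nat_lit 142) (C.node (nat_lit 1) (nat_lit 7) (nat_lit 9) (C.cons (nat_lit 642) (C.node (nat_lit 3) (nat_lit 7) (nat_lit 9) (C.cons (nat_lit 648) (C.node (nat_lit 3) (nat_lit 4) (nat_lit 9) (C.cons (nat_lit 568) (C.miq (nat_lit 423060800) (nat_lit 783387528397076253917119601)) C.nil)) C.nil)) C.nil)) (C.cons (nat_lit 134) (C.node (nat_lit 2) (nat_lit 3) (nat_lit 7) (C.cons (nat_lit 140)
  (C.node (nat_lit 1) (nat_lit 3) (nat_lit 6) (C.cons (nat_lit 1098) (C.node (nat_lit 3) (nat_lit 5) (nat_lit 6) (C.cons (nat_lit 232) (C.miq (nat_lit 326280784) (nat_lit 169268633648248599878108273)) C.nil)) (C.cons (nat_lit 74) (C.node (nat_lit 1) (nat_lit 7) (nat_lit 9) C.nil) C.nil))) C.nil)) C.nil))) C.nil))) C.nil))) C.nil))) (C.cons (nat_lit 70) (C.node (nat_lit 2) (nat_lit 6) (nat_lit 8) (C.cons (nat_lit 324) (C.node (nat_lit 1) (nat_lit 7) (nat_lit 9) (C.cons (nat_lit 650) (C.node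 (nat_lit 1) (nat_lit 8) (nat_lit 9) (C.cons (nat_lit 770) (C.node (nat_lit 1) (nat_lit 9) (nat_lit 10) (C.cons (nat_lit 1538) (C.node (nat_lit 3) (nat_lit 8) (nat_lit 9) C.nil) C.nil)) C.nil)) (C.cons (nat_lit 642) (C.node (nat_lit 3) (nat_lit 7) (nat_lit 9) (C.cons (nat_lit 648) (C.node (nat_lit 3) (nat_lit 4) (nat_lit 9) (C.cons (nat_lit 568) (C.miq (nat_lit 423060800) (nat_lit 783387528397076253917119601)) C.nil)) C.nil)) C.nil))) C.nil)) C.nil))) C.nil))))) C.nil))) C.nil))) C.nil)) (C.cons (nat_lit 578) (C.node (nat_lit 5) (nat_lit 6) (nat_lit 9) (C.cons (nat_lit 608) (C.node (nat_lit 3) (nat_lit 4) (nat_lit 9) (C.cons (nat_lit 568) (C.node (nat_lit 3) (nat_lit 7) (nat_lit 9) (C.cons (nat_lit 650) (C.miq (nat_lit 425096000) (nat_lit 735030495623750086061785241)) (C.cons (nat_lit 648) (C.node (nat_lit 4) (nat_lit 5) (nat_lit 7) (C.cons (nat_lit 434) (C.miq (nat_lit 642058631) (nat_lit 1374551700780397937160226689)) (C.cons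 (nat_lit 432) (C.miq (nat_lit 642058631) (nat_lit 1374551700780397937160095617)) (C.cons (nat_lit 178) (C.miq (nat_lit 362181680) (nat_lit 735030495490893897018441881)) (C.cons (nat_lit 176) (C.node (nat_lit 1) (nat_lit 4) (nat_lit 7) (C.cons (nat_lit 402) (C.node (nat_lit 4) (nat_lit 5) (nat_lit 8) (C.cons (nat_lit 304) (C.node (nat_lit 2) (nat_lit 3) (nat_lit 4) (C.cons (nat_lit 30) (C.miq (nat_lit 328679944) (nat_lit 783391346709844115612303637)) (C.cons (nat_lit 28) (C.node (nat_lit 2) (nat_lit 7) (nat_lit 8) (C.cons (nat_lit 396) (C.miq (nat_lit 1445137016) (nat_lit 712062786756048764044838785)) (C.cons (nat_lit 388) (C.node (nat_lit 3) (nat_lit 7) (nat_lit 8) (C.cons (nat_lit 456) (C.miq (nat_lit 944334608) (nat_lit 1025179960293819271068451011)) (C.cons (nat_lit 392) (C.node (nat_lit 3) (nat_lit 6) (nat_lit 7) (C.cons (nat_lit 232) (C.miq (nat_lit 389613140) (nat_lit 783393726386271461909726321)) (C.cons (nat_lit 200)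 (C.node (nat_lit 1) (nat_lit 2) (nat_lit 4) C.nil) C.nil))) C.nil))) C.nil))) C.nil))) C.nil)) (C.cons (nat_lit 146) (C.node (nat_lit 4) (nat_lit 7) (nat_lit 8) (C.cons (nat_lit 400) (C.node (nat_lit 1) (nat_lit 7) (nat_lit 9) (C.cons (nat_lit 674) (C.node (nat_lit 5) (nat_lit 8) (nat_lit 9) (C.cons (nat_lit 800) (C.node (nat_lit 5) (nat_lit 9) (nat_lit 10) C.nil) C.nil)) (C.cons (nat_lit 642) (C.node (nat_lit 5) (nat_lit 7) (nat_lit 9) C.nil) C.nil))) C.nil)) C.nil))) C.nil))))) C.nil))) (C.cons (nat_lit 536) (C.node (nat_lit 4) (nat_lit 5) (nat_lit 9) (C.cons (nat_lit 560) (C.node (nat_lit 3) (nat_lit 8) (nat_lit 9) (C.cons (nat_lit 778) (C.node (nat_lit 5) (nat_lit 8) (nat_lit 9) (C.cons (nat_lit 800) (C.node (nat_lit 3) (nat_lit 7) (nat_lit 9) (C.cons (nat_lit 680) (C.miq (nat_lit 961042208) (nat_lit 1025174573907601250747482277)) (C.cons (nat_lit 648) (C.node (nat_lit 1) (nat_lit 3) (nat_lit 6) (C.cons (nat_lit 1098) (C.node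 (nat_lit 6) (nat_lit 8) (nat_lit 10) C.nil) (C.cons (nat_lit 106) (C.miq (nat_lit 2836793397) (nat_lit 698780098225984242493030697)) C.nil))) C.nil))) C.nil)) (C.cons (nat_lit 776) (C.node (nat_lit 1) (nat_lit 8) (nat_lit 9) (C.cons (nat_lit 802) (C.node (nat_lit 4) (nat_lit 5) (nat_lit 8) (C.cons (nat_lit 432) (C.miq (nat_lit 642058631) (nat_lit 1374551700780397937160095617)) (C.cons (nat_lit 304) (C.node (nat_lit 1) (nat_lit 7) (nat_lit 9) (C.cons (nat_lit 642) (C.node (nat_lit 1) (nat_lit 3) (nat_lit 9) (C.cons (nat_lit 522) (C.node (nat_lit 1) (nat_lit 9) (nat_lit 10) C.nil) C.nil)) C.nil)) C.nil))) (C.cons (nat_lit 770) (C.node (nat_lit 5) (nat_lit 8) (nat_lit 9)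
  (C.cons (nat_lit 800) (C.node (nat_lit 7) (nat_lit 5) (nat_lit 9) (C.cons (nat_lit 682) (C.miq (nat_lit 1495807808) (nat_lit 933296211617452383423234201)) (C.cons (nat_lit 680) (C.miq (nat_lit 1495807808) (nat_lit 933296211616889433469812889)) (C.cons (nat_lit 674) (C.node (nat_lit 7) (nat_lit 3) (nat_lit 9) C.nil) C.nil)))) C.nil)) C.nil))) C.nil))) C.nil)) C.nil))) C.nil)) C.nil))) C.nil)) C.nil))) C.nil)) C.nil))) C.nil))))) C.nil))) (C.cons (nat_lit 592) (C.node (nat_lit 6) (nat_lit 7) (nat_lit 9) (C.cons (nat_lit 736) (C.node (nat_lit 1) (nat_lit 6) (nat_lit 9) (C.cons (nat_lit 834) (C.node (nat_lit 1) (nat_lit 2) (nat_lit 6) (C.cons (nat_lit 102) (C.miq (nat_lit 1386832135) (nat_lit 1861759339038882055139164355)) (C.cons (nat_lit 70) (C.node (nat_lit 2) (nat_lit 8) (nat_lit 9) (C.cons (nat_lit 804) (C.miq (nat_lit 899090468) (nat_lit 889772225671811871425167637)) (C.cons (nat_lit 772) (C.node (nat_lit 3) (nat_lit 8)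 (nat_lit 9) (C.cons (nat_lit 792) (C.miq (nat_lit 964002848) (nat_lit 889774882142287980564644117)) (C.cons (nat_lit 776) (C.node (nat_lit 3) (nat_lit 6) (nat_lit 7) (C.cons (nat_lit 456) (C.miq (nat_lit 1133053793) (nat_lit 938136231285123009340375235)) (C.cons (nat_lit 200) (C.node (nat_lit 6) (nat_lit 7) (nat_lit 8) (C.cons (nat_lit 448) (C.node (nat_lit 1) (nat_lit 4) (nat_lit 6) (C.cons (nat_lit 90) (C.miq (nat_lit 2251788608) (nat_lit 241820600353041948123660819)) (C.cons (nat_lit 82) (C.node (nat_lit 6) (nat_lit 8) (nat_lit 10) (C.cons (nat_lit 1352) (C.miq (nat_lit 1398933671) (nat_lit 712060351549392620936759169)) (C.cons (nat_lit 1344) (C.node (nat_lit 4) (nat_lit 7) (nat_lit 8) (C.cons (nat_lit 434) (C.miq (nat_lit 1382117528) (nat_lit 84632813306397933122488193)) (C.cons (nat_lit 432) (C.miq (nat_lit 643041656) (nat_lit 1374553766815733711593539457)) (C.cons (nat_lit 402) (C.miq (nat_lit 907282823) (nat_lit 99134739726035213198952321))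 (C.cons (nat_lit 400) (C.node (nat_lit 5) (nat_lit 7) (nat_lit 8) (C.cons (nat_lit 418) (C.miq (nat_lit 1382117528) (nat_lit 84632518158492753769662337)) (C.cons (nat_lit 416) (C.node (nat_lit 1) (nat_lit 2) (nat_lit 9) (C.cons (nat_lit 550) (C.node (nat_lit 1) (nat_lit 4) (nat_lit 7) (C.cons (nat_lit 178) (C.miq (nat_lit 844564756) (nat_lit 199475582754048214914171411)) (C.cons (nat_lit 146) (C.node (nat_lit 4) (nat_lit 5) (nat_lit 7) (C.cons (nat_lit 176) (C.node (nat_lit 2) (nat_lit 4) (nat_lit 5) (C.cons (nat_lit 60) (C.miq (nat_lit 2269448483) (nat_lit 212776423475880891428635213)) (C.cons (nat_lit 52) (C.node (nat_lit 1) (nat_lit 2) (nat_lit 4) (C.cons (nat_lit 30) (C.node (nat_lit 1) (nat_lit 4) (nat_lit 10) (C.cons (nat_lit 1298) (C.miq (nat_lit 1134039562) (nat_lit 938150379903206693732942855)) (C.cons (nat_lit 1042) (C.node (nat_lit 1) (nat_lit 5) (nat_lit 6) (C.cons (nat_lit 106) (C.miq (nat_lit 343224982) (nat_lit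 212772899615493631988728397)) (C.cons (nat_lit 98) (C.node (nat_lit 3) (nat_lit 5) (nat_lit 6) (C.cons (nat_lit 104) (C.node (nat_lit 1) (nat_lit 7) (nat_lit 10) (C.cons (nat_lit 1194) (C.miq (nat_lit 559286905) (nat_lit 118485595744698903274981249)) (C.cons (nat_lit 1186) (C.miq (nat_lit 559286905) (nat_lit 118485595744698868915242881)) (C.cons (nat_lit 1162) (C.miq (nat_lit 2268334610) (nat_lit 184970760689865102290977799)) C.nil)))) C.nil)) C.nil))) C.nil))) (C.cons (nat_lit 22) (C.node (nat_lit 2) (nat_lit 3) (nat_lit 4) (C.cons (nat_lit 28) (C.node (nat_lit 2) (nat_lit 3) (nat_lit 7) (C.cons (nat_lit 396) (C.miq (nat_lit 1445137016) (nat_lit 712062786756048764044838785)) (C.cons (nat_lit 142) (C.node (nat_lit 1) (nat_lit 2) (nat_lit 8) C.nil) C.nil))) C.nil)) C.nil))) C.nil))) C.nil)) C.nil))) (C.cons (nat_lit 518) (C.node (nat_lit 2) (nat_lit 5) (nat_lit 9) (C.cons (nat_lit 548) (C.node (nat_lit 1) (nat_lit 4) (nat_lit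 7) (C.cons (nat_lit 178) (C.node (nat_lit 1) (nat_lit 7) (nat_lit 9) (C.cons (nat_lit 650) (C.miq (nat_lit 928420160) (nat_lit 889780268551585986950267411)) (C.cons (nat_lit 642)
  (C.node (nat_lit 3) (nat_lit 7) (nat_lit 9) (C.cons (nat_lit 648) (C.node (nat_lit 2) (nat_lit 4) (nat_lit 5) (C.cons (nat_lit 60) (C.miq (nat_lit 2269448483) (nat_lit 215194275115110149778047565)) (C.cons (nat_lit 52) (C.node (nat_lit 3) (nat_lit 4) (nat_lit 5) (C.cons (nat_lit 568) (C.miq (nat_lit 896963600) (nat_lit 889780268528505038798258707)) (C.cons (nat_lit 56) (C.node (nat_lit 2) (nat_lit 3) (nat_lit 7) (C.cons (nat_lit 398) (C.miq (nat_lit 1445137016) (nat_lit 712062786756048764044969857)) (C.cons (nat_lit 396) (C.miq (nat_lit 1445137016) (nat_lit 712062786756048764044838785)) (C.cons (nat_lit 142) (C.miq (nat_lit 910237783) (nat_lit 99134536811851703754293413)) C.nil)))) C.nil))) C.nil))) C.nil)) C.nil))) (C.cons (nat_lit 146) (C.node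 (nat_lit 4) (nat_lit 5) (nat_lit 7) (C.cons (nat_lit 176) (C.node (nat_lit 1) (nat_lit 5) (nat_lit 6) (C.cons (nat_lit 106) (C.node (nat_lit 1) (nat_lit 6) (nat_lit 10) (C.cons (nat_lit 1090) (C.node (nat_lit 3) (nat_lit 6) (nat_lit 10) (C.cons (nat_lit 1096) (C.node (nat_lit 2) (nat_lit 5) (nat_lit 6) (C.cons (nat_lit 356) (C.node (nat_lit 3) (nat_lit 4) (nat_lit 6) (C.cons (nat_lit 344) (C.miq (nat_lit 1213675040) (nat_lit 502915963408357935246803533)) C.nil)) C.nil)) C.nil)) C.nil)) (C.cons (nat_lit 98) (C.node (nat_lit 3) (nat_lit 5) (nat_lit 6) (C.cons (nat_lit 104) (C.node (nat_lit 1) (nat_lit 3) (nat_lit 6) (C.cons (nat_lit 1098) (C.node (nat_lit 2) (nat_lit 5) (nat_lit 6) (C.cons (nat_lit 356) (C.node (nat_lit 3) (nat_lit 4) (nat_lit 6) (C.cons (nat_lit 344) (C.miq (nat_lit 1213675040) (nat_lit 502915963408357935246803533)) C.nil)) C.nil)) (C.cons (nat_lit 74) (C.node (nat_lit 1) (nat_lit 7) (nat_lit 9) C.nil) C.nil)))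 C.nil)) C.nil))) C.nil)) C.nil))) C.nil)) C.nil))) C.nil))) C.nil))))) C.nil))) C.nil))) C.nil)) C.nil))) C.nil))) C.nil))) C.nil))) (C.cons (nat_lit 578) (C.node (nat_lit 6) (nat_lit 8) (nat_lit 9) (C.cons (nat_lit 832) (C.node (nat_lit 1) (nat_lit 7) (nat_lit 9) (C.cons (nat_lit 650) (C.node (nat_lit 1) (nat_lit 7) (nat_lit 10) (C.cons (nat_lit 1186) (C.miq (nat_lit 395486560) (nat_lit 797910059872627733367161969)) (C.cons (nat_lit 1154) (C.node (nat_lit 2) (nat_lit 3) (nat_lit 7) (C.cons (nat_lit 396) (C.miq (nat_lit 1445137016) (nat_lit 712062786756048764044838785)) (C.cons (nat_lit 140) (C.node (nat_lit 3) (nat_lit 5) (nat_lit 6) (C.cons (nat_lit 106) (C.miq (nat_lit 1517379731) (nat_lit 1395102351510199180018188877)) (C.cons (nat_lit 104) (C.node (nat_lit 3) (nat_lit 8) (nat_lit 9) (C.cons (nat_lit 792) (C.miq (nat_lit 964002848) (nat_lit 889774882142287980564644117)) (C.cons (nat_lit 776) (C.node (nat_lit 3) (nat_lit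 4) (nat_lit 9) (C.cons (nat_lit 568) (C.miq (nat_lit 1985155145) (nat_lit 125740275678461849251611155)) (C.cons (nat_lit 536) (C.node (nat_lit 3) (nat_lit 5) (nat_lit 9) (C.cons (nat_lit 1576) (C.miq (nat_lit 374567081) (nat_lit 125740275678461849317672833)) (C.cons (nat_lit 552) (C.node (nat_lit 3) (nat_lit 9) (nat_lit 10) (C.cons (nat_lit 1544) (C.node (nat_lit 1) (nat_lit 4) (nat_lit 7) (C.cons (nat_lit 434) (C.miq (nat_lit 643041656) (nat_lit 1374553766815733711593670529)) (C.cons (nat_lit 402) (C.miq (nat_lit 2184659089) (nat_lit 169257030415136814025802259)) (C.cons (nat_lit 178) (C.miq (nat_lit 928420160) (nat_lit 889780268551585986950267411)) (C.cons (nat_lit 146) (C.node (nat_lit 4) (nat_lit 5) (nat_lit 7) (C.cons (nat_lit 432) (C.miq (nat_lit 643041656) (nat_lit 1374553766815733711593539457)) (C.cons (nat_lit 176) (C.node (nat_lit 4) (nat_lit 7) (nat_lit 8) (C.cons (nat_lit 400) (C.node (nat_lit 2) (nat_lit 3) (nat_lit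 4) (C.cons (nat_lit 62) (C.miq (nat_lit 2266237234) (nat_lit 176508279952560499046875725)) (C.cons (nat_lit 60) (C.miq (nat_lit 2269448483) (nat_lit 212776423475880891428635213)) (C.cons (nat_lit 30) (C.miq (nat_lit 2266237234) (nat_lit 176508279952560499044778573)) (C.cons (nat_lit 28) (C.node (nat_lit 2) (nat_lit 8) (nat_lit 9) (C.cons (nat_lit 806)
  (C.miq (nat_lit 1380157808) (nat_lit 33855401859071174545835905)) (C.cons (nat_lit 804) (C.miq (nat_lit 1380157808) (nat_lit 33855401858508224592414593)) (C.cons (nat_lit 774) (C.miq (nat_lit 323131144) (nat_lit 33864200912082060094801793)) (C.cons (nat_lit 772) (C.node (nat_lit 4) (nat_lit 5) (nat_lit 9) (C.cons (nat_lit 816) (C.node (nat_lit 1) (nat_lit 8) (nat_lit 9) C.nil) C.nil)) C.nil))))) C.nil))))) C.nil)) C.nil))) C.nil))))) C.nil)) C.nil))) C.nil))) C.nil))) C.nil))) C.nil))) C.nil))) (C.cons (nat_lit 642) (C.node (nat_lit 3) (nat_lit 7) (nat_lit 9) (C.cons (nat_lit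 648) (C.node (nat_lit 3) (nat_lit 5) (nat_lit 6) (C.cons (nat_lit 106) (C.node (nat_lit 3) (nat_lit 6) (nat_lit 10) (C.cons (nat_lit 1352) (C.miq (nat_lit 1398933671) (nat_lit 712060351549392620936759169)) (C.cons (nat_lit 1096) (C.node (nat_lit 3) (nat_lit 8) (nat_lit 9) (C.cons (nat_lit 792) (C.miq (nat_lit 964002848) (nat_lit 889774882142287980564644117)) (C.cons (nat_lit 778) (C.miq (nat_lit 2836793397) (nat_lit 698780098225984242493030697)) (C.cons (nat_lit 776) (C.node (nat_lit 5) (nat_lit 7) (nat_lit 8) (C.cons (nat_lit 434) (C.miq (nat_lit 643041656) (nat_lit 1374553766815733711593670529)) (C.cons (nat_lit 432) (C.miq (nat_lit 643041656) (nat_lit 1374553766815733711593539457)) (C.cons (nat_lit 418) (C.miq (nat_lit 2555578134) (nat_lit 359061834098519505378083011)) (C.cons (nat_lit 416) (C.node (nat_lit 1) (nat_lit 2) (nat_lit 6) (C.cons (nat_lit 326) (C.node (nat_lit 1) (nat_lit 4) (nat_lit 6) (C.cons (nat_lit 82) (C.node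 (nat_lit 1) (nat_lit 6) (nat_lit 10) (C.cons (nat_lit 1090) (C.node (nat_lit 2) (nat_lit 5) (nat_lit 6) (C.cons (nat_lit 100) (C.node (nat_lit 5) (nat_lit 6) (nat_lit 8) (C.cons (nat_lit 352) (C.node (nat_lit 6) (nat_lit 8) (nat_lit 10) C.nil) C.nil)) C.nil)) C.nil)) C.nil)) (C.cons (nat_lit 70) (C.node (nat_lit 1) (nat_lit 3) (nat_lit 9) (C.cons (nat_lit 1546) (C.node (nat_lit 5) (nat_lit 9) (nat_lit 10) (C.cons (nat_lit 1568) (C.node (nat_lit 1) (nat_lit 7) (nat_lit 10) (C.cons (nat_lit 1186) (C.miq (nat_lit 588581287) (nat_lit 128149180757718255974614913)) (C.cons (nat_lit 1154) (C.node (nat_lit 1) (nat_lit 5) (nat_lit 10) (C.cons (nat_lit 1314) (C.miq (nat_lit 2168038752) (nat_lit 1869034753689440874847339633)) (C.cons (nat_lit 1058) (C.node (nat_lit 2) (nat_lit 3) (nat_lit 4) (C.cons (nat_lit 60) (C.miq (nat_lit 1166484233) (nat_lit 502925315827664159315657293)) (C.cons (nat_lit 30) (C.miq (nat_lit 1217601697) (nat_lit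 938126989501251270140888071)) (C.cons (nat_lit 28) (C.node (nat_lit 1) (nat_lit 4) (nat_lit 10) (C.cons (nat_lit 1298) (C.miq (nat_lit 337881097) (nat_lit 33878441980903281373546369)) (C.cons (nat_lit 1042) (C.node (nat_lit 1) (nat_lit 5) (nat_lit 7) (C.cons (nat_lit 178) (C.miq (nat_lit 337860502) (nat_lit 33851878354186810675757792)) (C.cons (nat_lit 162) (C.node (nat_lit 4) (nat_lit 5) (nat_lit 7) (C.cons (nat_lit 176) (C.node (nat_lit 1) (nat_lit 4) (nat_lit 6) (C.cons (nat_lit 338) (C.node (nat_lit 1) (nat_lit 4) (nat_lit 7) C.nil) C.nil)) C.nil)) C.nil))) C.nil))) C.nil)))) C.nil))) C.nil))) C.nil)) (C.cons (nat_lit 522) (C.node (nat_lit 3) (nat_lit 9) (nat_lit 10) (C.cons (nat_lit 1576) (C.miq (nat_lit 2033257046) (nat_lit 631062875494651001695765617)) (C.cons (nat_lit 1544) (C.node (nat_lit 1) (nat_lit 4) (nat_lit 6) (C.cons (nat_lit 338) (C.node (nat_lit 1) (nat_lit 6) (nat_lit 10) (C.cons (nat_lit 1090) (C.node (nat_lit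 3) (nat_lit 4) (nat_lit 6) (C.cons (nat_lit 88) (C.node (nat_lit 4) (nat_lit 7) (nat_lit 8) (C.cons (nat_lit 400) (C.node (nat_lit 6) (nat_lit 8) (nat_lit 10) (C.cons (nat_lit 1344) (C.node (nat_lit 2) (nat_lit 5) (nat_lit 6) (C.cons (nat_lit 356) (C.node (nat_lit 1) (nat_lit 9) (nat_lit 10) C.nil) C.nil)) C.nil)) C.nil)) C.nil)) C.nil)) (C.cons (nat_lit 82) (C.node (nat_lit 1) (nat_lit 6) (nat_lit 8) (C.cons (nat_lit 1346) (C.node (nat_lit 5) (nat_lit 8) (nat_lit 10) (C.cons (nat_lit 1316) (C.miq (nat_lit 1733824554) (nat_lit 502937970332097278948672519)) (C.cons (nat_lit 1312)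
  (C.node (nat_lit 1) (nat_lit 9) (nat_lit 10) (C.cons (nat_lit 1570) (C.node (nat_lit 2) (nat_lit 5) (nat_lit 9) (C.cons (nat_lit 804) (C.miq (nat_lit 1500742208) (nat_lit 783389410019578312910242069)) C.nil)) C.nil)) C.nil))) (C.cons (nat_lit 322) (C.node (nat_lit 1) (nat_lit 6) (nat_lit 10) (C.cons (nat_lit 1090) (C.node (nat_lit 6) (nat_lit 8) (nat_lit 10) C.nil) C.nil)) C.nil))) C.nil))) C.nil))) C.nil))) C.nil))) C.nil))))) C.nil)))) C.nil))) (C.cons (nat_lit 104) (C.node (nat_lit 3) (nat_lit 6) (nat_lit 7) (C.cons (nat_lit 456) (C.node (nat_lit 3) (nat_lit 4) (nat_lit 6) (C.cons (nat_lit 90) (C.miq (nat_lit 2249814848) (nat_lit 698794560060974234990739609)) (C.cons (nat_lit 88) (C.node (nat_lit 4) (nat_lit 7) (nat_lit 8) (C.cons (nat_lit 434) (C.miq (nat_lit 643041656) (nat_lit 1374553766815733711593670529)) (C.cons (nat_lit 432) (C.miq (nat_lit 643041656) (nat_lit 1374553766815733711593539457)) (C.cons (nat_lit 402)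 (C.miq (nat_lit 409552688) (nat_lit 1005836077253629512308818073)) (C.cons (nat_lit 400) (C.node (nat_lit 1) (nat_lit 3) (nat_lit 6) (C.cons (nat_lit 1098) (C.node (nat_lit 6) (nat_lit 8) (nat_lit 10) (C.cons (nat_lit 1344) (C.node (nat_lit 1) (nat_lit 7) (nat_lit 10) (C.cons (nat_lit 1186) (C.miq (nat_lit 395486560) (nat_lit 797910059872627733367161969)) (C.cons (nat_lit 1154) (C.node (nat_lit 2) (nat_lit 3) (nat_lit 7) (C.cons (nat_lit 142) (C.miq (nat_lit 1511458354) (nat_lit 1395103439868095994090357325)) (C.cons (nat_lit 140) (C.node (nat_lit 2) (nat_lit 3) (nat_lit 8) (C.cons (nat_lit 1292) (C.miq (nat_lit 593602672) (nat_lit 1327419568893670456803133313)) (C.cons (nat_lit 270) (C.miq (nat_lit 1178077714) (nat_lit 551275283812421085623616519)) (C.cons (nat_lit 268) (C.node (nat_lit 1) (nat_lit 4) (nat_lit 10) (C.cons (nat_lit 1298) (C.miq (nat_lit 404988934) (nat_lit 324012374547069261423903857)) (C.cons (nat_lit 1042)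 (C.node (nat_lit 2) (nat_lit 3) (nat_lit 10) (C.cons (nat_lit 1068) (C.miq (nat_lit 321350224) (nat_lit 169253212170206569285616753)) (C.cons (nat_lit 1036) (C.node (nat_lit 1) (nat_lit 2) (nat_lit 7) (C.cons (nat_lit 390) (C.node (nat_lit 1) (nat_lit 4) (nat_lit 6) C.nil) (C.cons (nat_lit 134) (C.node (nat_lit 2) (nat_lit 7) (nat_lit 8) (C.cons (nat_lit 388) (C.node (nat_lit 1) (nat_lit 4) (nat_lit 6) C.nil) C.nil)) C.nil))) C.nil))) C.nil))) C.nil)))) C.nil))) C.nil))) C.nil)) (C.cons (nat_lit 74) (C.node (nat_lit 3) (nat_lit 6) (nat_lit 10) (C.cons (nat_lit 1096) (C.node (nat_lit 1) (nat_lit 4) (nat_lit 6) (C.cons (nat_lit 338) (C.node (nat_lit 1) (nat_lit 6) (nat_lit 10) (C.cons (nat_lit 1090) (C.node (nat_lit 6) (nat_lit 8) (nat_lit 10) (C.cons (nat_lit 1344) (C.node (nat_lit 1) (nat_lit 4) (nat_lit 10) (C.cons (nat_lit 1050) (C.node (nat_lit 4) (nat_lit 8) (nat_lit 10) C.nil) C.nil)) C.nil)) C.nil)) (C.cons (nat_lit 82)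 (C.node (nat_lit 4) (nat_lit 6) (nat_lit 8) (C.cons (nat_lit 336) (C.node (nat_lit 1) (nat_lit 6) (nat_lit 10) (C.cons (nat_lit 1090) (C.node (nat_lit 6) (nat_lit 8) (nat_lit 10) (C.cons (nat_lit 1344) (C.node (nat_lit 1) (nat_lit 2) (nat_lit 6) (C.cons (nat_lit 358) (C.miq (nat_lit 1386832135) (nat_lit 1861759339110939649177092291)) C.nil)) C.nil)) C.nil)) C.nil)) C.nil))) C.nil)) C.nil))) C.nil))))) C.nil))) (C.cons (nat_lit 200) (C.node (nat_lit 6) (nat_lit 7) (nat_lit 8) (C.cons (nat_lit 448) (C.ref (nat_lit 137) (nat_lit 7229140141840)) C.nil)) C.nil))) C.nil))) C.nil)) C.nil))) C.nil)) C.nil))) (C.cons (nat_lit 704) (C.ref (nat_lit 124) (nat_lit 11430141571600)) C.nil))) C.nil))) C.nil))) List.nil)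

theorem ok11_144 : okL par11 (nat_lit 145) c11_144 (nat_lit 144) = true := by decide +kernel

noncomputable def c11_145 : List C :=
  (List.cons (C.node (nat_lit 2) (nat_lit 4) (nat_lit 5) (C.cons (nat_lit 564) (C.node (nat_lit 4) (nat_lit 7) (nat_lit 9) (C.cons (nat_lit 720) (C.miq (nat_lit 308546169) (nat_lit 101559564358937931343202177)) (C.cons (nat_lit 656) (C.node (nat_lit 1) (nat_lit 2) (nat_lit 9) (C.cons (nat_lit 774) (C.node (nat_lit 1) (nat_lit 6) (nat_lit 9) (C.cons (nat_lit 610) (C.miq (nat_lit 369661250) (nat_lit 388079466047913635463103028)) (C.cons (nat_lit 578) (C.node (nat_lit 2) (nat_lit 6) (nat_lit 8) (C.cons (nat_lit 356) (C.miq (nat_lit 275289170) (nat_lit 388079466025677112308138548)) (C.cons (nat_lit 324) (C.node (nat_lit 2) (nat_lit 5) (nat_lit 8) (C.cons (nat_lit 1316) (C.miq (nat_lit 1377085584) (nat_lit 181359847260630577656825729)) (C.cons (nat_lit 292) (C.node (nat_lit 4) (nat_lit 6) (nat_lit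 9) (C.cons (nat_lit 848) (C.miq (nat_lit 2793538705) (nat_lit 391710984468320537855525395)) (C.cons (nat_lit 592) (C.node (nat_lit 1) (nat_lit 2) (nat_lit 3) (C.cons (nat_lit 46) (C.node (nat_lit 1) (nat_lit 2) (nat_lit 6) (C.cons (nat_lit 70) (C.node (nat_lit 2) (nat_lit 5) (nat_lit 6) (C.cons (nat_lit 100) (C.node (nat_lit 2) (nat_lit 5) (nat_lit 10) (C.cons (nat_lit 1060) (C.node (nat_lit 3) (nat_lit 4) (nat_lit 5) (C.cons (nat_lit 56) (C.node (nat_lit 1) (nat_lit 4) (nat_lit 5) (C.cons (nat_lit 306) (C.miq (nat_lit 1652885780) (nat_lit 353027313441275612381708819)) (C.cons (nat_lit 50) (C.node (nat_lit 2) (nat_lit 3) (nat_lit 8) (C.cons (nat_lit 1292) (C.node (nat_lit 3) (nat_lit 4) (nat_lit 9) (C.cons (nat_lit 792) (C.miq (nat_lit 305400457) (nat_lit 33859718460519006802020225)) (C.cons (nat_lit 536) (C.node (nat_lit 3) (nat_lit 8) (nat_lit 9) C.nil) C.nil))) C.nil)) C.nil))) C.nil)) C.nil)) C.nil)) C.nil)) (C.cons (nat_lit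 14) (C.node (nat_lit 1) (nat_lit 2) (nat_lit 5) (C.cons (nat_lit 102) (C.node (nat_lit 5) (nat_lit 8) (nat_lit 10) (C.cons (nat_lit 1314) (C.node (nat_lit 1) (nat_lit 4) (nat_lit 5) (C.cons (nat_lit 58) (C.miq (nat_lit 2705818928) (nat_lit 181374309507418340770513193)) (C.cons (nat_lit 50) (C.node (nat_lit 3) (nat_lit 4) (nat_lit 5) (C.cons (nat_lit 56) (C.node (nat_lit 1) (nat_lit 7) (nat_lit 8) (C.cons (nat_lit 394) (C.miq (nat_lit 877752488) (nat_lit 60453559040967055199307649)) (C.cons (nat_lit 386) (C.node (nat_lit 5) (nat_lit 8) (nat_lit 9) (C.cons (nat_lit 864) (C.node (nat_lit 6) (nat_lit 7) (nat_lit 9) (C.cons (nat_lit 704) (C.node (nat_lit 1) (nat_lit 9) (nat_lit 10) (C.cons (nat_lit 1538) (C.node (nat_lit 1) (nat_lit 4) (nat_lit 10) C.nil) C.nil)) C.nil)) (C.cons (nat_lit 800) (C.miq (nat_lit 1703479826) (nat_lit 967151521144005446848611335)) C.nil))) C.nil))) C.nil)) C.nil))) (C.cons (nat_lit 1312) (C.miq (nat_lit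 363341321) (nat_lit 1586124953143021859535651405)) C.nil))) (C.cons (nat_lit 38) (C.node (nat_lit 1) (nat_lit 2) (nat_lit 6) (C.cons (nat_lit 70) (C.node (nat_lit 2) (nat_lit 5) (nat_lit 6) (C.cons (nat_lit 100) (C.node (nat_lit 5) (nat_lit 8) (nat_lit 10) (C.cons (nat_lit 1314) (C.miq (nat_lit 1361488016) (nat_lit 84645781690897293730711425)) (C.cons (nat_lit 1312) (C.node (nat_lit 5) (nat_lit 8) (nat_lit 9) (C.cons (nat_lit 864) (C.miq (nat_lit 441983081) (nat_lit 1586124953404512112830579277)) (C.cons (nat_lit 800) (C.node (nat_lit 6) (nat_lit 8) (nat_lit 9) C.nil) C.nil))) C.nil))) C.nil)) C.nil)) C.nil))) C.nil))) C.nil))) C.nil))) C.nil))) C.nil))) (C.cons (nat_lit 518) (C.node (nat_lit 2) (nat_lit 8) (nat_lit 9) (C.cons (nat_lit 772) (C.node (nat_lit 3) (nat_lit 4) (nat_lit 5) (C.cons (nat_lit 58) (C.node (nat_lit 1) (nat_lit 2) (nat_lit 3) (C.cons (nat_lit 270) (C.node (nat_lit 1) (nat_lit 2) (nat_lit 5) (C.cons (nat_lit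 102) (C.node (nat_lit 2) (nat_lit 6) (nat_lit 8) (C.cons (nat_lit 324) (C.node (nat_lit 1) (nat_lit 7) (nat_lit 8) (C.cons (nat_lit 418) (C.miq (nat_lit 2234085728) (nat_lit 681869598575673428973256899)) (C.cons (nat_lit 386) (C.node (nat_lit 1) (nat_lit 6) (nat_lit 9) (C.cons (nat_lit 834) (C.miq (nat_lit 1468080278) (nat_lit 466647247985594001654940237))
  (C.cons (nat_lit 578) (C.node (nat_lit 1) (nat_lit 8) (nat_lit 9) (C.cons (nat_lit 802) (C.miq (nat_lit 2018707732) (nat_lit 359053791318105017277874707)) (C.cons (nat_lit 770) (C.node (nat_lit 1) (nat_lit 5) (nat_lit 8) (C.cons (nat_lit 1314) (C.miq (nat_lit 2014513748) (nat_lit 326412794188512228584064113)) (C.cons (nat_lit 290) (C.node (nat_lit 2) (nat_lit 5) (nat_lit 8) (C.cons (nat_lit 1316) (C.miq (nat_lit 2182587744) (nat_lit 181374309507981479705248881)) (C.cons (nat_lit 292) (C.node (nat_lit 2) (nat_lit 8) (nat_lit 10) (C.cons (nat_lit 1284) (C.node (nat_lit 1)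 (nat_lit 4) (nat_lit 8) C.nil) C.nil)) C.nil))) C.nil))) C.nil))) C.nil))) C.nil))) C.nil)) (C.cons (nat_lit 38) (C.node (nat_lit 1) (nat_lit 2) (nat_lit 6) (C.cons (nat_lit 70) (C.node (nat_lit 1) (nat_lit 3) (nat_lit 6) (C.cons (nat_lit 1098) (C.node (nat_lit 6) (nat_lit 8) (nat_lit 10) (C.cons (nat_lit 1344) (C.node (nat_lit 1) (nat_lit 4) (nat_lit 6) (C.cons (nat_lit 338) (C.miq (nat_lit 2709807904) (nat_lit 408637901286817152898499149)) (C.cons (nat_lit 82) (C.node (nat_lit 1) (nat_lit 4) (nat_lit 8) (C.cons (nat_lit 1298) (C.node (nat_lit 3) (nat_lit 4) (nat_lit 10) (C.cons (nat_lit 1048) (C.node (nat_lit 3) (nat_lit 8) (nat_lit 10) (C.cons (nat_lit 1288) (C.node (nat_lit 1) (nat_lit 7) (nat_lit 10) (C.cons (nat_lit 1186) (C.miq (nat_lit 1095928432) (nat_lit 45944291258823939797092225)) (C.cons (nat_lit 1154) (C.node (nat_lit 3) (nat_lit 4) (nat_lit 6) C.nil) C.nil))) C.nil)) C.nil)) (C.cons (nat_lit 274) (C.miq (nat_lit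 2709807904) (nat_lit 331266648831480885717303885)) C.nil))) C.nil))) C.nil)) (C.cons (nat_lit 74) (C.node (nat_lit 1) (nat_lit 4) (nat_lit 10) (C.cons (nat_lit 1298) (C.miq (nat_lit 2704689184) (nat_lit 89481484964850046138646805)) (C.cons (nat_lit 1042) (C.node (nat_lit 3) (nat_lit 4) (nat_lit 6) (C.cons (nat_lit 344) (C.miq (nat_lit 2175021574) (nat_lit 1259707049794407628027265613)) (C.cons (nat_lit 88) (C.node (nat_lit 3) (nat_lit 6) (nat_lit 10) (C.cons (nat_lit 1352) (C.miq (nat_lit 1398933671) (nat_lit 712060351549392620936759169)) (C.cons (nat_lit 1096) (C.node (nat_lit 1) (nat_lit 4) (nat_lit 6) (C.cons (nat_lit 338) (C.node (nat_lit 1) (nat_lit 6) (nat_lit 10) (C.cons (nat_lit 1090) (C.node (nat_lit 4) (nat_lit 6) (nat_lit 7) C.nil) C.nil)) (C.cons (nat_lit 82) (C.node (nat_lit 1) (nat_lit 4) (nat_lit 8) (C.cons (nat_lit 274) (C.node (nat_lit 3) (nat_lit 4) (nat_lit 9) (C.cons (nat_lit 536) (C.node (nat_lit 3) (nat_lit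 4) (nat_lit 8) C.nil) C.nil)) C.nil)) C.nil))) C.nil))) C.nil))) C.nil))) C.nil))) C.nil)) C.nil))) (C.cons (nat_lit 14) (C.node (nat_lit 1) (nat_lit 4) (nat_lit 6) (C.cons (nat_lit 338) (C.node (nat_lit 1) (nat_lit 4) (nat_lit 10) (C.cons (nat_lit 1042) (C.node (nat_lit 3) (nat_lit 4) (nat_lit 6) (C.cons (nat_lit 88) (C.node (nat_lit 4) (nat_lit 6) (nat_lit 7) (C.cons (nat_lit 208) (C.node (nat_lit 4) (nat_lit 6) (nat_lit 9) (C.cons (nat_lit 592) (C.node (nat_lit 1) (nat_lit 2) (nat_lit 8) (C.cons (nat_lit 294) (C.miq (nat_lit 1934704770) (nat_lit 70120464592326495626985749)) (C.cons (nat_lit 262) (C.node (nat_lit 6) (nat_lit 8) (nat_lit 10) (C.cons (nat_lit 1352) (C.miq (nat_lit 1398933671) (nat_lit 712060351549392620936759169)) (C.cons (nat_lit 1344) (C.node (nat_lit 1) (nat_lit 8) (nat_lit 9) (C.cons (nat_lit 802) (C.miq (nat_lit 2018707732) (nat_lit 359053791318105017277874707)) (C.cons (nat_lit 778) (C.miq (nat_lit 2822048020)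 (nat_lit 359071942914273444397449747)) (C.cons (nat_lit 770) (C.node (nat_lit 1) (nat_lit 2) (nat_lit 5) C.nil) C.nil)))) C.nil))) C.nil))) C.nil)) C.nil)) C.nil)) C.nil)) (C.cons (nat_lit 82) (C.node (nat_lit 1) (nat_lit 4) (nat_lit 8) (C.cons (nat_lit 1298) (C.node (nat_lit 3) (nat_lit 4) (nat_lit 10) (C.cons (nat_lit 1048) (C.node (nat_lit 1) (nat_lit 6) (nat_lit 10) (C.cons (nat_lit 1098) (C.miq (nat_lit 2184265834) (nat_lit 16948905426383581800432753)) (C.cons (nat_lit 1090) (C.node (nat_lit 3) (nat_lit 4) (nat_lit 6) (C.cons (nat_lit 344)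
  (C.miq (nat_lit 2199995914) (nat_lit 16948905445242405235655793)) (C.cons (nat_lit 88) (C.node (nat_lit 3) (nat_lit 4) (nat_lit 8) (C.cons (nat_lit 792) (C.miq (nat_lit 338864272) (nat_lit 33868941907707532862621569)) (C.cons (nat_lit 280) (C.node (nat_lit 3) (nat_lit 4) (nat_lit 9) (C.cons (nat_lit 536) (C.node (nat_lit 2) (nat_lit 3) (nat_lit 8) (C.cons (nat_lit 1292) (C.miq (nat_lit 2474902177) (nat_lit 338509024878993619155026951)) (C.cons (nat_lit 268) (C.node (nat_lit 2) (nat_lit 3) (nat_lit 5) C.nil) C.nil))) C.nil)) C.nil))) C.nil))) C.nil))) C.nil)) (C.cons (nat_lit 274) (C.node (nat_lit 1) (nat_lit 4) (nat_lit 10) (C.cons (nat_lit 1042) (C.node (nat_lit 2) (nat_lit 3) (nat_lit 5) (C.cons (nat_lit 1068) (C.node (nat_lit 2) (nat_lit 3) (nat_lit 8) (C.cons (nat_lit 268) (C.node (nat_lit 2) (nat_lit 8) (nat_lit 10) (C.cons (nat_lit 1284) (C.node (nat_lit 3) (nat_lit 5) (nat_lit 6) (C.cons (nat_lit 232) (C.miq (nat_lit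 305597014) (nat_lit 169253212151347745850393713)) (C.cons (nat_lit 104) (C.node (nat_lit 5) (nat_lit 7) (nat_lit 10) (C.cons (nat_lit 1186) (C.miq (nat_lit 1983189034) (nat_lit 125750163133283003961967623)) (C.cons (nat_lit 1184) (C.node (nat_lit 5) (nat_lit 8) (nat_lit 10) (C.cons (nat_lit 1314) (C.miq (nat_lit 2705818928) (nat_lit 181374309507418340770513193)) (C.cons (nat_lit 1312) (C.node (nat_lit 1) (nat_lit 5) (nat_lit 10) (C.cons (nat_lit 1570) (C.miq (nat_lit 2052262164) (nat_lit 1291135598240987409511219731)) (C.cons (nat_lit 1058) (C.node (nat_lit 1) (nat_lit 2) (nat_lit 5) (C.cons (nat_lit 358) (C.miq (nat_lit 1934704770) (nat_lit 70120464592326495631180053)) C.nil)) C.nil))) C.nil))) C.nil))) C.nil))) C.nil)) C.nil)) (C.cons (nat_lit 44) (C.node (nat_lit 2) (nat_lit 3) (nat_lit 8) (C.cons (nat_lit 1292) (C.node (nat_lit 2) (nat_lit 5) (nat_lit 10) (C.cons (nat_lit 1060) (C.node (nat_lit 3) (nat_lit 4) (nat_lit 10)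 (C.cons (nat_lit 1048) (C.node (nat_lit 4) (nat_lit 8) (nat_lit 10) (C.cons (nat_lit 1296) (C.node (nat_lit 3) (nat_lit 4) (nat_lit 6) C.nil) C.nil)) C.nil)) C.nil)) (C.cons (nat_lit 268) (C.node (nat_lit 2) (nat_lit 3) (nat_lit 10) (C.cons (nat_lit 1036) (C.node (nat_lit 3) (nat_lit 4) (nat_lit 6) C.nil) C.nil)) C.nil))) C.nil))) C.nil)) C.nil))) C.nil))) C.nil))) (C.cons (nat_lit 56) (C.node (nat_lit 1) (nat_lit 4) (nat_lit 5) (C.cons (nat_lit 306) (C.node (nat_lit 4) (nat_lit 5) (nat_lit 7) (C.cons (nat_lit 176) (C.node (nat_lit 1) (nat_lit 4) (nat_lit 6) (C.cons (nat_lit 90) (C.node (nat_lit 1) (nat_lit 4) (nat_lit 10) (C.cons (nat_lit 1042) (C.node (nat_lit 3) (nat_lit 4) (nat_lit 9) (C.cons (nat_lit 792) (C.miq (nat_lit 2216137568) (nat_lit 181374309360488540369257037)) (C.cons (nat_lit 536) (C.node (nat_lit 3) (nat_lit 6) (nat_lit 10) (C.cons (nat_lit 1352) (C.miq (nat_lit 1398933671) (nat_lit 712060351549392620936759169))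 (C.cons (nat_lit 1096) (C.node (nat_lit 3) (nat_lit 6) (nat_lit 8) (C.cons (nat_lit 456) (C.miq (nat_lit 2202629648) (nat_lit 648019675637159809653080259)) (C.cons (nat_lit 328) (C.node (nat_lit 3) (nat_lit 8) (nat_lit 9) (C.cons (nat_lit 778) (C.miq (nat_lit 2169148256) (nat_lit 1259736140452797114594951757)) (C.cons (nat_lit 776) (C.node (nat_lit 1) (nat_lit 8) (nat_lit 9) (C.cons (nat_lit 834) (C.miq (nat_lit 2168952368) (nat_lit 181374309372310489388352077)) (C.cons (nat_lit 770) (C.node (nat_lit 1) (nat_lit 6) (nat_lit 9) (C.cons (nat_lit 610) (C.miq (nat_lit 689440340) (nat_lit 930877991017164263302235249)) (C.cons (nat_lit 578) (C.node (nat_lit 4) (nat_lit 6) (nat_lit 9) (C.cons (nat_lit 848) (C.node (nat_lit 5) (nat_lit 8) (nat_lit 9) C.nil) C.nil)) C.nil))) C.nil))) C.nil))) C.nil))) C.nil))) C.nil))) C.nil)) (C.cons (nat_lit 82) (C.node (nat_lit 1) (nat_lit 3) (nat_lit 4) (C.cons (nat_lit 1050) (C.node (nat_lit 4)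 (nat_lit 8) (nat_lit 10) (C.cons (nat_lit 1296) (C.node (nat_lit 3) (nat_lit 6) (nat_lit 10) (C.cons (nat_lit 1352) (C.miq (nat_lit 1398933671) (nat_lit 712060351549392620936759169)) (C.cons (nat_lit 1096)
  (C.node (nat_lit 1) (nat_lit 6) (nat_lit 10) (C.cons (nat_lit 1346) (C.node (nat_lit 1) (nat_lit 2) (nat_lit 6) (C.cons (nat_lit 102) (C.miq (nat_lit 2166859344) (nat_lit 181374309516425729004602481)) (C.cons (nat_lit 70) (C.node (nat_lit 1) (nat_lit 2) (nat_lit 5) (C.cons (nat_lit 38) (C.node (nat_lit 1) (nat_lit 2) (nat_lit 3) (C.cons (nat_lit 14) (C.node (nat_lit 1) (nat_lit 2) (nat_lit 8) C.nil) C.nil)) C.nil)) C.nil))) (C.cons (nat_lit 1090) (C.node (nat_lit 1) (nat_lit 8) (nat_lit 10) (C.cons (nat_lit 1282) (C.node (nat_lit 6) (nat_lit 8) (nat_lit 10) (C.cons (nat_lit 1344) (C.node (nat_lit 1) (nat_lit 7) (nat_lit 8) (C.cons (nat_lit 394) (C.node (nat_lit 1) (nat_lit 2) (nat_lit 3) (C.cons (nat_lit 14) (C.node (nat_lit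 1) (nat_lit 2) (nat_lit 5) C.nil) C.nil)) (C.cons (nat_lit 386) (C.node (nat_lit 1) (nat_lit 2) (nat_lit 3) (C.cons (nat_lit 270) (C.miq (nat_lit 1678902659) (nat_lit 181349738394492153929531689)) (C.cons (nat_lit 46) (C.node (nat_lit 1) (nat_lit 2) (nat_lit 6) C.nil) C.nil))) C.nil))) C.nil)) C.nil)) C.nil))) C.nil))) C.nil)) (C.cons (nat_lit 26) (C.node (nat_lit 1) (nat_lit 4) (nat_lit 10) (C.cons (nat_lit 1042) (C.node (nat_lit 1) (nat_lit 7) (nat_lit 8) (C.cons (nat_lit 394) (C.node (nat_lit 1) (nat_lit 8) (nat_lit 10) (C.cons (nat_lit 1346) (C.miq (nat_lit 1630840944) (nat_lit 31453045636859177182234497)) (C.cons (nat_lit 1282) (C.node (nat_lit 3) (nat_lit 4) (nat_lit 10) (C.cons (nat_lit 1304) (C.miq (nat_lit 1680935559) (nat_lit 31435668745117381088118657)) (C.cons (nat_lit 1048) (C.node (nat_lit 4) (nat_lit 8) (nat_lit 10) C.nil) C.nil))) C.nil))) (C.cons (nat_lit 386) (C.node (nat_lit 3) (nat_lit 4) (nat_lit 6) (C.cons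 (nat_lit 344) (C.node (nat_lit 3) (nat_lit 4) (nat_lit 9) (C.cons (nat_lit 536) (C.node (nat_lit 3) (nat_lit 4) (nat_lit 10) C.nil) C.nil)) (C.cons (nat_lit 88) (C.node (nat_lit 3) (nat_lit 4) (nat_lit 9) (C.cons (nat_lit 792) (C.node (nat_lit 3) (nat_lit 4) (nat_lit 10) C.nil) (C.cons (nat_lit 536) (C.node (nat_lit 4) (nat_lit 6) (nat_lit 9) C.nil) C.nil))) C.nil))) C.nil))) C.nil)) C.nil))) C.nil))) C.nil)) (C.cons (nat_lit 50) (C.node (nat_lit 3) (nat_lit 4) (nat_lit 9) (C.cons (nat_lit 792) (C.node (nat_lit 4) (nat_lit 6) (nat_lit 9) (C.cons (nat_lit 592) (C.node (nat_lit 3) (nat_lit 4) (nat_lit 6) (C.cons (nat_lit 90) (C.miq (nat_lit 2216137568) (nat_lit 181374309360488540369257037)) (C.cons (nat_lit 88) (C.node (nat_lit 4) (nat_lit 5) (nat_lit 7) (C.cons (nat_lit 432) (C.miq (nat_lit 877828208) (nat_lit 681845027617840306451711873)) (C.cons (nat_lit 176) (C.node (nat_lit 4) (nat_lit 5) (nat_lit 8) (C.cons (nat_lit 304)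 (C.node (nat_lit 4) (nat_lit 8) (nat_lit 10) (C.cons (nat_lit 1298) (C.miq (nat_lit 338864272) (nat_lit 33868941907707532862621569)) (C.cons (nat_lit 1296) (C.node (nat_lit 1) (nat_lit 2) (nat_lit 3) C.nil) C.nil))) C.nil)) C.nil))) C.nil))) C.nil)) (C.cons (nat_lit 536) (C.node (nat_lit 3) (nat_lit 8) (nat_lit 9) (C.cons (nat_lit 778) (C.node (nat_lit 1) (nat_lit 2) (nat_lit 3) (C.cons (nat_lit 46) (C.miq (nat_lit 2435285840) (nat_lit 181374309356547701714780457)) (C.cons (nat_lit 14) (C.node (nat_lit 1) (nat_lit 7) (nat_lit 8) (C.cons (nat_lit 418) (C.miq (nat_lit 1378971800) (nat_lit 16932672260073519982446465)) (C.cons (nat_lit 386) (C.node (nat_lit 1) (nat_lit 6) (nat_lit 9) (C.cons (nat_lit 610) (C.node (nat_lit 1) (nat_lit 7) (nat_lit 9) (C.cons (nat_lit 642) (C.node (nat_lit 1) (nat_lit 9) (nat_lit 10) (C.cons (nat_lit 1538) (C.node (nat_lit 5) (nat_lit 8) (nat_lit 9) (C.cons (nat_lit 800) (C.node (nat_lit 6) (nat_lit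 7) (nat_lit 9) C.nil) C.nil)) C.nil)) C.nil)) (C.cons (nat_lit 578) (C.node (nat_lit 1) (nat_lit 7) (nat_lit 9) (C.cons (nat_lit 674) (C.node (nat_lit 1) (nat_lit 9) (nat_lit 10) (C.cons (nat_lit 1538) (C.node (nat_lit 3) (nat_lit 7) (nat_lit 9) (C.cons (nat_lit 648) (C.node (nat_lit 6) (nat_lit 7) (nat_lit 9) C.nil) C.nil)) C.nil)) (C.cons (nat_lit 642) (C.node (nat_lit 1) (nat_lit 5) (nat_lit 9) (C.cons (nat_lit 1570)
  (C.node (nat_lit 3) (nat_lit 9) (nat_lit 10) (C.cons (nat_lit 1544) (C.node (nat_lit 2) (nat_lit 3) (nat_lit 5) (C.cons (nat_lit 44) (C.node (nat_lit 2) (nat_lit 3) (nat_lit 8) C.nil) C.nil)) C.nil)) (C.cons (nat_lit 546) (C.node (nat_lit 1) (nat_lit 9) (nat_lit 10) (C.cons (nat_lit 1538) (C.node (nat_lit 1) (nat_lit 2) (nat_lit 5) C.nil) C.nil)) C.nil))) C.nil))) C.nil))) C.nil))) C.nil))) (C.cons (nat_lit 776) (C.node (nat_lit 4) (nat_lit 5) (nat_lit 7) (C.cons (nat_lit 432) (C.node (nat_lit 4) (nat_lit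 6) (nat_lit 7) (C.cons (nat_lit 208) (C.node (nat_lit 4) (nat_lit 6) (nat_lit 9) (C.cons (nat_lit 848) (C.miq (nat_lit 1683134576) (nat_lit 681845027633602905147508609)) (C.cons (nat_lit 592) (C.node (nat_lit 4) (nat_lit 8) (nat_lit 9) (C.cons (nat_lit 784) (C.node (nat_lit 6) (nat_lit 7) (nat_lit 9) (C.cons (nat_lit 736) (C.miq (nat_lit 1698862976) (nat_lit 681845027602077707763255169)) C.nil)) C.nil)) C.nil))) C.nil)) (C.cons (nat_lit 176) (C.node (nat_lit 4) (nat_lit 5) (nat_lit 8) (C.cons (nat_lit 304) (C.node (nat_lit 4) (nat_lit 6) (nat_lit 7) (C.cons (nat_lit 464) (C.node (nat_lit 4) (nat_lit 6) (nat_lit 9) (C.cons (nat_lit 592) (C.node (nat_lit 4) (nat_lit 8) (nat_lit 9) C.nil) C.nil)) (C.cons (nat_lit 208) (C.node (nat_lit 4) (nat_lit 7) (nat_lit 8) (C.cons (nat_lit 400) (C.node (nat_lit 4) (nat_lit 6) (nat_lit 9) (C.cons (nat_lit 592) (C.node (nat_lit 4) (nat_lit 8) (nat_lit 9) C.nil) C.nil)) C.nil)) C.nil))) C.nil))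 C.nil))) C.nil))) C.nil))) C.nil))) C.nil))) C.nil)) C.nil))) C.nil))) (C.cons (nat_lit 52) (C.node (nat_lit 2) (nat_lit 4) (nat_lit 9) (C.cons (nat_lit 532) (C.node (nat_lit 4) (nat_lit 6) (nat_lit 7) (C.cons (nat_lit 720) (C.miq (nat_lit 308546169) (nat_lit 101559564358937931343202177)) (C.cons (nat_lit 464) (C.node (nat_lit 4) (nat_lit 6) (nat_lit 9) (C.cons (nat_lit 592) (C.node (nat_lit 1) (nat_lit 4) (nat_lit 6) (C.cons (nat_lit 90) (C.node (nat_lit 1) (nat_lit 6) (nat_lit 10) (C.cons (nat_lit 1346) (C.miq (nat_lit 815875974) (nat_lit 1246404180272723235138830800)) (C.cons (nat_lit 1090) (C.node (nat_lit 3) (nat_lit 4) (nat_lit 10) (C.cons (nat_lit 1304) (C.miq (nat_lit 2685634404) (nat_lit 13322239110747305962766800)) (C.cons (nat_lit 1048) (C.node (nat_lit 3) (nat_lit 4) (nat_lit 8) (C.cons (nat_lit 792) (C.miq (nat_lit 2216137568) (nat_lit 181374309360488540369257037)) (C.cons (nat_lit 280) (C.node (nat_lit 3) (nat_lit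 6) (nat_lit 8) (C.cons (nat_lit 1352) (C.miq (nat_lit 1398933671) (nat_lit 712060351549392620936759169)) (C.cons (nat_lit 328) (C.node (nat_lit 3) (nat_lit 6) (nat_lit 10) (C.cons (nat_lit 1096) (C.node (nat_lit 6) (nat_lit 8) (nat_lit 10) (C.cons (nat_lit 1344) (C.node (nat_lit 3) (nat_lit 7) (nat_lit 8) (C.cons (nat_lit 394) (C.miq (nat_lit 2202693984) (nat_lit 1266989695262398498586296515)) (C.cons (nat_lit 392) (C.node (nat_lit 3) (nat_lit 8) (nat_lit 9) (C.cons (nat_lit 778) (C.miq (nat_lit 2204799296) (nat_lit 1325018134711987090029085203)) (C.cons (nat_lit 776) (C.node (nat_lit 1) (nat_lit 4) (nat_lit 10) (C.cons (nat_lit 1298) (C.miq (nat_lit 328746506) (nat_lit 938150379920095192335582321)) (C.cons (nat_lit 1042) (C.node (nat_lit 4) (nat_lit 8) (nat_lit 10) (C.cons (nat_lit 1296) (C.node (nat_lit 3) (nat_lit 4) (nat_lit 5) C.nil) C.nil)) C.nil))) C.nil))) C.nil))) C.nil)) C.nil)) C.nil))) C.nil))) C.nil))) C.nil)))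 (C.cons (nat_lit 82) (C.node (nat_lit 3) (nat_lit 4) (nat_lit 6) (C.cons (nat_lit 88) (C.node (nat_lit 3) (nat_lit 6) (nat_lit 7) (C.cons (nat_lit 232) (C.node (nat_lit 6) (nat_lit 7) (nat_lit 9) (C.cons (nat_lit 704) (C.node (nat_lit 3) (nat_lit 7) (nat_lit 9) (C.cons (nat_lit 650) (C.miq (nat_lit 1410818195) (nat_lit 181343152906858806012150349)) (C.cons (nat_lit 648) (C.node (nat_lit 5) (nat_lit 7) (nat_lit 10) (C.cons (nat_lit 1186) (C.miq (nat_lit 389195104) (nat_lit 169268633673018397856433265)) (C.cons (nat_lit 1184) (C.node (nat_lit 3) (nat_lit 6) (nat_lit 10) (C.cons (nat_lit 1354) (C.miq (nat_lit 1398933671) (nat_lit 712060351549392629526693761))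
  (C.cons (nat_lit 1352) (C.miq (nat_lit 1398933671) (nat_lit 712060351549392620936759169)) (C.cons (nat_lit 1098) (C.miq (nat_lit 326280784) (nat_lit 169268633648248599878108273)) (C.cons (nat_lit 1096) (C.node (nat_lit 1) (nat_lit 3) (nat_lit 6) (C.cons (nat_lit 330) (C.node (nat_lit 1) (nat_lit 6) (nat_lit 10) (C.cons (nat_lit 1090) (C.node (nat_lit 3) (nat_lit 7) (nat_lit 8) (C.cons (nat_lit 392) (C.node (nat_lit 6) (nat_lit 8) (nat_lit 10) (C.cons (nat_lit 1344) (C.node (nat_lit 1) (nat_lit 3) (nat_lit 7) C.nil) C.nil)) C.nil)) C.nil)) (C.cons (nat_lit 74) (C.node (nat_lit 3) (nat_lit 6) (nat_lit 8) (C.cons (nat_lit 328) (C.node (nat_lit 1) (nat_lit 6) (nat_lit 10) (C.cons (nat_lit 1346) (C.node (nat_lit 1) (nat_lit 2) (nat_lit 6) (C.cons (nat_lit 102) (C.miq (nat_lit 2166859344) (nat_lit 181374309516425729004602481)) (C.cons (nat_lit 70) (C.node (nat_lit 1) (nat_lit 7) (nat_lit 9) (C.cons (nat_lit 642) (C.node (nat_lit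 1) (nat_lit 7) (nat_lit 10) C.nil) C.nil)) C.nil))) (C.cons (nat_lit 1090) (C.node (nat_lit 6) (nat_lit 8) (nat_lit 10) (C.cons (nat_lit 1344) (C.node (nat_lit 1) (nat_lit 7) (nat_lit 9) (C.cons (nat_lit 642) (C.node (nat_lit 1) (nat_lit 5) (nat_lit 7) C.nil) C.nil)) C.nil)) C.nil))) C.nil)) C.nil))) C.nil))))) C.nil))) C.nil))) C.nil)) (C.cons (nat_lit 200) (C.node (nat_lit 3) (nat_lit 5) (nat_lit 6) (C.cons (nat_lit 106) (C.node (nat_lit 1) (nat_lit 2) (nat_lit 3) (C.cons (nat_lit 270) (C.miq (nat_lit 560235344) (nat_lit 99137027032506708924629289)) (C.cons (nat_lit 14) (C.node (nat_lit 1) (nat_lit 4) (nat_lit 5) (C.cons (nat_lit 306) (C.miq (nat_lit 2184265829) (nat_lit 16930606256262461860217969)) (C.cons (nat_lit 50) (C.node (nat_lit 3) (nat_lit 6) (nat_lit 8) (C.cons (nat_lit 1352) (C.miq (nat_lit 1398933671) (nat_lit 712060351549392620936759169)) (C.cons (nat_lit 328) (C.node (nat_lit 3) (nat_lit 6) (nat_lit 10) (C.cons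 (nat_lit 1096) (C.node (nat_lit 3) (nat_lit 7) (nat_lit 8) (C.cons (nat_lit 394) (C.miq (nat_lit 2822047510) (nat_lit 359071942914271795133153475)) (C.cons (nat_lit 392) (C.node (nat_lit 1) (nat_lit 7) (nat_lit 8) (C.cons (nat_lit 418) (C.miq (nat_lit 2555578134) (nat_lit 359061834098519505378083011)) (C.cons (nat_lit 386) (C.node (nat_lit 5) (nat_lit 7) (nat_lit 8) (C.cons (nat_lit 416) (C.node (nat_lit 1) (nat_lit 2) (nat_lit 6) (C.cons (nat_lit 326) (C.node (nat_lit 1) (nat_lit 6) (nat_lit 9) (C.cons (nat_lit 578) (C.node (nat_lit 1) (nat_lit 6) (nat_lit 10) (C.cons (nat_lit 1090) (C.node (nat_lit 2) (nat_lit 3) (nat_lit 5) C.nil) C.nil)) C.nil)) (C.cons (nat_lit 70) (C.node (nat_lit 1) (nat_lit 3) (nat_lit 4) (C.cons (nat_lit 1306) (C.miq (nat_lit 1966153860) (nat_lit 128148903937206395799732501)) (C.cons (nat_lit 1050) (C.node (nat_lit 1) (nat_lit 4) (nat_lit 8) C.nil) (C.cons (nat_lit 282) (C.miq (nat_lit 1966153860)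 (nat_lit 128148903937206395732623637)) C.nil)))) C.nil))) C.nil)) C.nil))) C.nil))) C.nil)) C.nil))) C.nil))) C.nil))) (C.cons (nat_lit 104) (C.node (nat_lit 3) (nat_lit 7) (nat_lit 8) (C.cons (nat_lit 394) (C.node (nat_lit 5) (nat_lit 7) (nat_lit 8) (C.cons (nat_lit 416) (C.node (nat_lit 3) (nat_lit 6) (nat_lit 8) (C.cons (nat_lit 1352) (C.miq (nat_lit 1398933671) (nat_lit 712060351549392620936759169)) (C.cons (nat_lit 328) (C.node (nat_lit 6) (nat_lit 8) (nat_lit 10) (C.cons (nat_lit 1346) (C.miq (nat_lit 878801064) (nat_lit 99139185268635188792002433)) (C.cons (nat_lit 1344) (C.node (nat_lit 1) (nat_lit 2) (nat_lit 3) (C.cons (nat_lit 46) (C.node (nat_lit 1) (nat_lit 2) (nat_lit 6) (C.cons (nat_lit 326) (C.node (nat_lit 1) (nat_lit 2) (nat_lit 9) (C.cons (nat_lit 518) (C.node (nat_lit 2) (nat_lit 5) (nat_lit 6) (C.cons (nat_lit 100) (C.node (nat_lit 1) (nat_lit 3) (nat_lit 6) C.nil) C.nil)) C.nil)) (C.cons (nat_lit 70) (C.node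 (nat_lit 1) (nat_lit 2) (nat_lit 8) (C.cons (nat_lit 774) (C.node (nat_lit 2) (nat_lit 5) (nat_lit 9) (C.cons (nat_lit 548) (C.node (nat_lit 2) (nat_lit 3) (nat_lit 8) (C.cons (nat_lit 268)
  (C.node (nat_lit 2) (nat_lit 3) (nat_lit 10) C.nil) C.nil)) C.nil)) (C.cons (nat_lit 262) (C.node (nat_lit 1) (nat_lit 2) (nat_lit 9) (C.cons (nat_lit 518) (C.node (nat_lit 2) (nat_lit 3) (nat_lit 8) (C.cons (nat_lit 1292) (C.node (nat_lit 2) (nat_lit 5) (nat_lit 10) C.nil) C.nil)) C.nil)) C.nil))) C.nil))) (C.cons (nat_lit 14) (C.node (nat_lit 1) (nat_lit 3) (nat_lit 6) (C.cons (nat_lit 1098) (C.node (nat_lit 1) (nat_lit 3) (nat_lit 4) (C.cons (nat_lit 58) (C.miq (nat_lit 2803107893) (nat_lit 181359847430921306448199977)) (C.cons (nat_lit 26) (C.node (nat_lit 1) (nat_lit 4) (nat_lit 10) (C.cons (nat_lit 1298) (C.miq (nat_lit 588777124) (nat_lit 476321882842065789621765233)) (C.cons (nat_lit 1042) (C.node (nat_lit 1) (nat_lit 4) (nat_lit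 5) C.nil) C.nil))) C.nil))) (C.cons (nat_lit 74) (C.node (nat_lit 1) (nat_lit 6) (nat_lit 10) (C.cons (nat_lit 1090) (C.node (nat_lit 3) (nat_lit 6) (nat_lit 10) (C.cons (nat_lit 1096) (C.node (nat_lit 1) (nat_lit 7) (nat_lit 9) C.nil) C.nil)) C.nil)) C.nil))) C.nil))) C.nil))) C.nil))) C.nil)) (C.cons (nat_lit 392) (C.node (nat_lit 1) (nat_lit 7) (nat_lit 8) (C.cons (nat_lit 418) (C.node (nat_lit 3) (nat_lit 6) (nat_lit 8) (C.cons (nat_lit 1354) (C.miq (nat_lit 1398933671) (nat_lit 712060351549392629526693761)) (C.cons (nat_lit 1352) (C.miq (nat_lit 1398933671) (nat_lit 712060351549392620936759169)) (C.cons (nat_lit 330) (C.miq (nat_lit 629344022) (nat_lit 359061833604249446288851139)) (C.cons (nat_lit 328) (C.node (nat_lit 1) (nat_lit 3) (nat_lit 6) (C.cons (nat_lit 1098) (C.node (nat_lit 1) (nat_lit 7) (nat_lit 10) (C.cons (nat_lit 1154) (C.node (nat_lit 6) (nat_lit 8) (nat_lit 10) (C.cons (nat_lit 1344) (C.node (nat_lit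 1) (nat_lit 2) (nat_lit 3) (C.cons (nat_lit 270) (C.miq (nat_lit 1178077714) (nat_lit 396532778901748551261225991)) (C.cons (nat_lit 46) (C.miq (nat_lit 2534541395) (nat_lit 181349738615169016692343081)) (C.cons (nat_lit 14) (C.node (nat_lit 1) (nat_lit 3) (nat_lit 7) (C.cons (nat_lit 138) (C.node (nat_lit 1) (nat_lit 7) (nat_lit 9) C.nil) C.nil)) C.nil)))) C.nil)) C.nil)) (C.cons (nat_lit 74) (C.node (nat_lit 3) (nat_lit 6) (nat_lit 10) (C.cons (nat_lit 1096) (C.node (nat_lit 1) (nat_lit 4) (nat_lit 5) (C.cons (nat_lit 58) (C.node (nat_lit 1) (nat_lit 4) (nat_lit 8) (C.cons (nat_lit 274) (C.node (nat_lit 1) (nat_lit 4) (nat_lit 10) C.nil) C.nil)) (C.cons (nat_lit 50) (C.node (nat_lit 1) (nat_lit 6) (nat_lit 10) (C.cons (nat_lit 1346) (C.node (nat_lit 1) (nat_lit 2) (nat_lit 6) (C.cons (nat_lit 102) (C.miq (nat_lit 2166859344) (nat_lit 181374309516425729004602481)) (C.cons (nat_lit 70) (C.node (nat_lit 1) (nat_lit 5) (nat_lit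 6) (C.cons (nat_lit 610) (C.node (nat_lit 5) (nat_lit 6) (nat_lit 7) C.nil) C.nil)) C.nil))) (C.cons (nat_lit 1090) (C.node (nat_lit 6) (nat_lit 8) (nat_lit 10) (C.cons (nat_lit 1344) (C.node (nat_lit 1) (nat_lit 7) (nat_lit 9) (C.cons (nat_lit 642) (C.node (nat_lit 1) (nat_lit 3) (nat_lit 7) (C.cons (nat_lit 138) (C.node (nat_lit 1) (nat_lit 7) (nat_lit 10) C.nil) C.nil)) C.nil)) C.nil)) C.nil))) C.nil))) C.nil)) C.nil))) C.nil))))) (C.cons (nat_lit 386) (C.node (nat_lit 5) (nat_lit 7) (nat_lit 8) (C.cons (nat_lit 416) (C.node (nat_lit 4) (nat_lit 5) (nat_lit 7) (C.cons (nat_lit 688) (C.node (nat_lit 5) (nat_lit 6) (nat_lit 7) (C.cons (nat_lit 224) (C.node (nat_lit 6) (nat_lit 7) (nat_lit 9) C.nil) C.nil)) (C.cons (nat_lit 176) (C.node (nat_lit 4) (nat_lit 7) (nat_lit 9) (C.cons (nat_lit 656) (C.node (nat_lit 5) (nat_lit 6) (nat_lit 7) (C.cons (nat_lit 736) (C.node (nat_lit 1) (nat_lit 4) (nat_lit 5) C.nil) (C.cons (nat_lit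 224) (C.node (nat_lit 6) (nat_lit 7) (nat_lit 9) C.nil) C.nil))) C.nil)) C.nil))) C.nil)) C.nil))) C.nil))) C.nil))) C.nil))) C.nil)) C.nil))) C.nil)) (C.cons (nat_lit 208) (C.node (nat_lit 4) (nat_lit 6) (nat_lit 9) (C.cons (nat_lit 848) (C.node (nat_lit 4) (nat_lit 7) (nat_lit 8) (C.cons (nat_lit 432) (C.miq (nat_lit 1683134576) (nat_lit 62875007990912767697946497)) (C.cons (nat_lit 400)
  (C.node (nat_lit 6) (nat_lit 7) (nat_lit 9) (C.cons (nat_lit 736) (C.miq (nat_lit 610601111) (nat_lit 1374551700692577744446293889)) (C.cons (nat_lit 704) (C.node (nat_lit 1) (nat_lit 4) (nat_lit 6) (C.cons (nat_lit 90) (C.node (nat_lit 1) (nat_lit 4) (nat_lit 10) (C.cons (nat_lit 1298) (C.miq (nat_lit 342010000) (nat_lit 101568787806127007164336001)) (C.cons (nat_lit 1042) (C.node (nat_lit 3) (nat_lit 6) (nat_lit 10) (C.cons (nat_lit 1352) (C.miq (nat_lit 1398933671) (nat_lit 712060351549392620936759169)) (C.cons (nat_lit 1096) (C.node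 (nat_lit 3) (nat_lit 6) (nat_lit 8) (C.cons (nat_lit 456) (C.miq (nat_lit 882401543) (nat_lit 1025177506773838180363862211)) (C.cons (nat_lit 328) (C.node (nat_lit 3) (nat_lit 8) (nat_lit 9) (C.cons (nat_lit 778) (C.miq (nat_lit 2169148256) (nat_lit 1259736140452797114594951757)) (C.cons (nat_lit 776) (C.node (nat_lit 1) (nat_lit 4) (nat_lit 5) (C.cons (nat_lit 306) (C.node (nat_lit 1) (nat_lit 8) (nat_lit 9) (C.cons (nat_lit 774) (C.miq (nat_lit 2759919250) (nat_lit 369950319715257212710814285)) (C.cons (nat_lit 770) (C.node (nat_lit 1) (nat_lit 6) (nat_lit 9) (C.cons (nat_lit 610) (C.miq (nat_lit 689440340) (nat_lit 930877991017164263302235249)) (C.cons (nat_lit 578) (C.node (nat_lit 5) (nat_lit 6) (nat_lit 9) (C.cons (nat_lit 608) (C.node (nat_lit 1) (nat_lit 5) (nat_lit 6) (C.cons (nat_lit 102) (C.miq (nat_lit 924926038) (nat_lit 181340533192227390178591857)) (C.cons (nat_lit 98) (C.node (nat_lit 1) (nat_lit 2) (nat_lit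 9) C.nil) C.nil))) C.nil)) C.nil))) C.nil))) (C.cons (nat_lit 50) (C.node (nat_lit 1) (nat_lit 4) (nat_lit 8) (C.cons (nat_lit 274) (C.node (nat_lit 4) (nat_lit 5) (nat_lit 8) (C.cons (nat_lit 304) (C.node (nat_lit 3) (nat_lit 4) (nat_lit 5) (C.cons (nat_lit 56) (C.node (nat_lit 3) (nat_lit 4) (nat_lit 9) (C.cons (nat_lit 536) (C.node (nat_lit 1) (nat_lit 6) (nat_lit 10) C.nil) C.nil)) C.nil)) C.nil)) C.nil)) C.nil))) C.nil))) C.nil))) C.nil))) C.nil))) (C.cons (nat_lit 82) (C.node (nat_lit 3) (nat_lit 4) (nat_lit 6) (C.cons (nat_lit 88) (C.node (nat_lit 1) (nat_lit 6) (nat_lit 9) (C.cons (nat_lit 610) (C.node (nat_lit 1) (nat_lit 2) (nat_lit 9) (C.cons (nat_lit 774) (C.miq (nat_lit 2191954180) (nat_lit 1474905142986688159001149971)) (C.cons (nat_lit 518) (C.node (nat_lit 1) (nat_lit 7) (nat_lit 9) (C.cons (nat_lit 650) (C.miq (nat_lit 1366583600) (nat_lit 181359847061908711498383949)) (C.cons (nat_lit 642) (C.node (nat_lit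 2) (nat_lit 5) (nat_lit 6) (C.cons (nat_lit 356) (C.miq (nat_lit 354457220) (nat_lit 199482555629218218418438992)) (C.cons (nat_lit 100) (C.node (nat_lit 3) (nat_lit 4) (nat_lit 9) (C.cons (nat_lit 568) (C.miq (nat_lit 924401765) (nat_lit 776140853986292306182014065)) (C.cons (nat_lit 536) (C.node (nat_lit 4) (nat_lit 5) (nat_lit 7) (C.cons (nat_lit 688) (C.node (nat_lit 3) (nat_lit 7) (nat_lit 9) C.nil) C.nil)) C.nil))) C.nil))) C.nil))) C.nil))) (C.cons (nat_lit 578) (C.node (nat_lit 5) (nat_lit 6) (nat_lit 9) (C.cons (nat_lit 608) (C.node (nat_lit 3) (nat_lit 4) (nat_lit 9) (C.cons (nat_lit 568) (C.node (nat_lit 4) (nat_lit 5) (nat_lit 7) (C.cons (nat_lit 176) (C.node (nat_lit 4) (nat_lit 7) (nat_lit 9) C.nil) C.nil)) (C.cons (nat_lit 536) (C.node (nat_lit 3) (nat_lit 4) (nat_lit 5) (C.cons (nat_lit 58) (C.node (nat_lit 4) (nat_lit 5) (nat_lit 8) C.nil) (C.cons (nat_lit 56) (C.node (nat_lit 1) (nat_lit 4) (nat_lit 5) (C.cons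 (nat_lit 50) (C.node (nat_lit 4) (nat_lit 5) (nat_lit 8) C.nil) C.nil)) C.nil))) C.nil))) C.nil)) C.nil))) C.nil)) C.nil))) C.nil))) C.nil))) (C.cons (nat_lit 592) (C.node (nat_lit 4) (nat_lit 7) (nat_lit 8) (C.cons (nat_lit 432) (C.node (nat_lit 4) (nat_lit 7) (nat_lit 9) (C.cons (nat_lit 656) (C.node (nat_lit 4) (nat_lit 8) (nat_lit 9) (C.cons (nat_lit 792) (C.miq (nat_lit 877828208) (nat_lit 62875007975150169002149761)) (C.cons (nat_lit 784) (C.node (nat_lit 6) (nat_lit 7) (nat_lit 9) (C.cons (nat_lit 736) (C.miq (nat_lit 1698862976) (nat_lit 62875007959387570313693057)) (C.cons (nat_lit 704)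
  (C.node (nat_lit 5) (nat_lit 6) (nat_lit 7) (C.cons (nat_lit 232) (C.miq (nat_lit 931292480) (nat_lit 469074083208039584752796785)) (C.cons (nat_lit 224) (C.node (nat_lit 1) (nat_lit 4) (nat_lit 5) (C.cons (nat_lit 58) (C.node (nat_lit 3) (nat_lit 4) (nat_lit 9) (C.cons (nat_lit 536) (C.node (nat_lit 4) (nat_lit 5) (nat_lit 9) C.nil) C.nil)) (C.cons (nat_lit 50) (C.node (nat_lit 1) (nat_lit 7) (nat_lit 8) (C.cons (nat_lit 394) (C.node (nat_lit 3) (nat_lit 6) (nat_lit 7) (C.cons (nat_lit 200) (C.node (nat_lit 3) (nat_lit 7) (nat_lit 9) (C.cons (nat_lit 680) (C.miq (nat_lit 893556608) (nat_lit 62875007943624971617896321)) C.nil)) C.nil)) (C.cons (nat_lit 386) (C.node (nat_lit 3) (nat_lit 4) (nat_lit 5) (C.cons (nat_lit 568) (C.node (nat_lit 3) (nat_lit 7) (nat_lit 9) (C.cons (nat_lit 648) (C.node (nat_lit 1) (nat_lit 7) (nat_lit 9) C.nil) C.nil)) (C.cons (nat_lit 56) (C.node (nat_lit 3) (nat_lit 4) (nat_lit 9) (C.cons (nat_lit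 536) (C.node (nat_lit 4) (nat_lit 5) (nat_lit 9) C.nil) C.nil)) C.nil))) C.nil))) C.nil))) C.nil))) C.nil))) C.nil))) C.nil)) (C.cons (nat_lit 400) (C.node (nat_lit 4) (nat_lit 5) (nat_lit 7) (C.cons (nat_lit 688) (C.node (nat_lit 6) (nat_lit 7) (nat_lit 9) (C.cons (nat_lit 704) (C.node (nat_lit 1) (nat_lit 7) (nat_lit 9) (C.cons (nat_lit 650) (C.node (nat_lit 1) (nat_lit 9) (nat_lit 10) (C.cons (nat_lit 1570) (C.miq (nat_lit 832600404) (nat_lit 1246405342557491434718560944)) (C.cons (nat_lit 1538) (C.node (nat_lit 3) (nat_lit 4) (nat_lit 5) (C.cons (nat_lit 58) (C.miq (nat_lit 1519468659) (nat_lit 1859328980798501245046882457)) (C.cons (nat_lit 56) (C.node (nat_lit 3) (nat_lit 7) (nat_lit 10) (C.cons (nat_lit 1192) (C.miq (nat_lit 341020839) (nat_lit 67711836431535241081390977)) (C.cons (nat_lit 1160) (C.node (nat_lit 3) (nat_lit 5) (nat_lit 7) (C.cons (nat_lit 232) (C.miq (nat_lit 391418720) (nat_lit 831750759298927743338611277))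 (C.cons (nat_lit 168) (C.node (nat_lit 1) (nat_lit 4) (nat_lit 5) (C.cons (nat_lit 306) (C.node (nat_lit 1) (nat_lit 7) (nat_lit 8) (C.cons (nat_lit 386) (C.node (nat_lit 1) (nat_lit 4) (nat_lit 6) C.nil) C.nil)) (C.cons (nat_lit 50) (C.node (nat_lit 4) (nat_lit 5) (nat_lit 8) (C.cons (nat_lit 304) (C.node (nat_lit 3) (nat_lit 4) (nat_lit 9) C.nil) C.nil)) C.nil))) C.nil))) C.nil))) C.nil))) C.nil))) (C.cons (nat_lit 642) (C.node (nat_lit 3) (nat_lit 7) (nat_lit 9) (C.cons (nat_lit 648) (C.node (nat_lit 3) (nat_lit 4) (nat_lit 5) (C.cons (nat_lit 58) (C.node (nat_lit 4) (nat_lit 5) (nat_lit 8) (C.cons (nat_lit 304) (C.node (nat_lit 1) (nat_lit 2) (nat_lit 3) (C.cons (nat_lit 270) (C.node (nat_lit 1) (nat_lit 2) (nat_lit 6) (C.cons (nat_lit 102) (C.node (nat_lit 1) (nat_lit 2) (nat_lit 9) (C.cons (nat_lit 518) (C.node (nat_lit 1) (nat_lit 3) (nat_lit 9) C.nil) C.nil)) (C.cons (nat_lit 70) (C.node (nat_lit 1) (nat_lit 2) (nat_lit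 5) (C.cons (nat_lit 38) (C.node (nat_lit 1) (nat_lit 2) (nat_lit 9) (C.cons (nat_lit 518) (C.node (nat_lit 1) (nat_lit 3) (nat_lit 9) C.nil) C.nil)) C.nil)) C.nil))) (C.cons (nat_lit 14) (C.node (nat_lit 3) (nat_lit 4) (nat_lit 9) (C.cons (nat_lit 536) (C.node (nat_lit 4) (nat_lit 8) (nat_lit 9) C.nil) C.nil)) C.nil))) C.nil)) (C.cons (nat_lit 56) (C.node (nat_lit 1) (nat_lit 4) (nat_lit 5) (C.cons (nat_lit 306) (C.node (nat_lit 1) (nat_lit 4) (nat_lit 6) (C.cons (nat_lit 90) (C.node (nat_lit 1) (nat_lit 4) (nat_lit 10) (C.cons (nat_lit 1042) (C.node (nat_lit 4) (nat_lit 6) (nat_lit 8) C.nil) C.nil)) (C.cons (nat_lit 82) (C.node (nat_lit 1) (nat_lit 3) (nat_lit 4) (C.cons (nat_lit 1050) (C.node (nat_lit 4) (nat_lit 8) (nat_lit 10) C.nil) C.nil)) C.nil))) (C.cons (nat_lit 50) (C.node (nat_lit 4) (nat_lit 5) (nat_lit 8) (C.cons (nat_lit 304) (C.node (nat_lit 3) (nat_lit 4) (nat_lit 9) (C.cons (nat_lit 536) (C.node (nat_lit 4)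 (nat_lit 8) (nat_lit 9) C.nil) C.nil)) C.nil)) C.nil))) C.nil))) C.nil)) C.nil))) C.nil)) (C.cons (nat_lit 176) (C.node (nat_lit 4) (nat_lit 7) (nat_lit 9) (C.cons (nat_lit 656) (C.node (nat_lit 6) (nat_lit 7) (nat_lit 9)
  (C.cons (nat_lit 736) (C.node (nat_lit 1) (nat_lit 6) (nat_lit 9) (C.cons (nat_lit 834) (C.node (nat_lit 1) (nat_lit 2) (nat_lit 6) (C.cons (nat_lit 102) (C.miq (nat_lit 1386832135) (nat_lit 1861759339038882055139164355)) (C.cons (nat_lit 70) (C.node (nat_lit 1) (nat_lit 4) (nat_lit 6) (C.cons (nat_lit 90) (C.miq (nat_lit 2168952368) (nat_lit 181374309372310489388352077)) (C.cons (nat_lit 82) (C.node (nat_lit 2) (nat_lit 8) (nat_lit 9) (C.cons (nat_lit 804) (C.miq (nat_lit 2164430453) (nat_lit 1246417351439668909707690720)) (C.cons (nat_lit 772) (C.node (nat_lit 1) (nat_lit 2) (nat_lit 9) (C.cons (nat_lit 550) (C.node (nat_lit 1) (nat_lit 2) (nat_lit 3) C.nil) C.nil)) C.nil))) C.nil))) C.nil))) (C.cons (nat_lit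 578) (C.node (nat_lit 6) (nat_lit 8) (nat_lit 9) (C.cons (nat_lit 832) (C.node (nat_lit 1) (nat_lit 7) (nat_lit 9) (C.cons (nat_lit 650) (C.node (nat_lit 1) (nat_lit 7) (nat_lit 10) (C.cons (nat_lit 1186) (C.miq (nat_lit 395486560) (nat_lit 778567246758793666571863153)) (C.cons (nat_lit 1154) (C.node (nat_lit 1) (nat_lit 5) (nat_lit 7) (C.cons (nat_lit 418) (C.node (nat_lit 1) (nat_lit 4) (nat_lit 5) (C.cons (nat_lit 58) (C.node (nat_lit 1) (nat_lit 4) (nat_lit 6) C.nil) C.nil)) C.nil)) C.nil))) (C.cons (nat_lit 642) (C.node (nat_lit 3) (nat_lit 7) (nat_lit 9) (C.cons (nat_lit 648) (C.node (nat_lit 3) (nat_lit 6) (nat_lit 7) (C.cons (nat_lit 200) (C.node (nat_lit 6) (nat_lit 7) (nat_lit 8) C.nil) C.nil)) C.nil)) C.nil))) C.nil)) C.nil))) (C.cons (nat_lit 704) (C.node (nat_lit 3) (nat_lit 6) (nat_lit 10) (C.cons (nat_lit 1354) (C.miq (nat_lit 1398933671) (nat_lit 712060351549392629526693761)) (C.cons (nat_lit 1352) (C.miq (nat_lit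 1398933671) (nat_lit 712060351549392620936759169)) (C.cons (nat_lit 1098) (C.node (nat_lit 6) (nat_lit 8) (nat_lit 10) (C.cons (nat_lit 1344) (C.node (nat_lit 1) (nat_lit 7) (nat_lit 10) (C.cons (nat_lit 1186) (C.miq (nat_lit 829581904) (nat_lit 181349738383518409402156145)) (C.cons (nat_lit 1154) (C.node (nat_lit 3) (nat_lit 5) (nat_lit 6) (C.cons (nat_lit 232) (C.miq (nat_lit 326280784) (nat_lit 169268633648248599878108273)) (C.cons (nat_lit 104) (C.node (nat_lit 1) (nat_lit 4) (nat_lit 6) (C.cons (nat_lit 338) (C.node (nat_lit 1) (nat_lit 4) (nat_lit 10) (C.cons (nat_lit 1042) (C.node (nat_lit 3) (nat_lit 4) (nat_lit 10) C.nil) C.nil)) (C.cons (nat_lit 82) (C.node (nat_lit 3) (nat_lit 4) (nat_lit 6) (C.cons (nat_lit 344) (C.node (nat_lit 3) (nat_lit 6) (nat_lit 7) C.nil) C.nil)) C.nil))) C.nil))) C.nil))) C.nil)) (C.cons (nat_lit 1096) (C.node (nat_lit 1) (nat_lit 6) (nat_lit 10) (C.cons (nat_lit 1346) (C.node (nat_lit 1)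 (nat_lit 2) (nat_lit 6) (C.cons (nat_lit 102) (C.miq (nat_lit 2166859344) (nat_lit 181374309516425729004602481)) (C.cons (nat_lit 70) (C.node (nat_lit 8) (nat_lit 5) (nat_lit 10) (C.cons (nat_lit 1316) (C.miq (nat_lit 405236304) (nat_lit 469066815504441463988880497)) (C.cons (nat_lit 1312) (C.node (nat_lit 1) (nat_lit 4) (nat_lit 10) (C.cons (nat_lit 1050) (C.node (nat_lit 1) (nat_lit 4) (nat_lit 6) (C.cons (nat_lit 82) (C.node (nat_lit 8) (nat_lit 4) (nat_lit 6) C.nil) C.nil)) (C.cons (nat_lit 1042) (C.node (nat_lit 8) (nat_lit 4) (nat_lit 10) (C.cons (nat_lit 1304) (C.node (nat_lit 8) (nat_lit 10) (nat_lit 2) C.nil) C.nil)) C.nil))) C.nil))) C.nil))) (C.cons (nat_lit 1090) (C.node (nat_lit 6) (nat_lit 8) (nat_lit 10) (C.cons (nat_lit 1344) (C.node (nat_lit 1) (nat_lit 2) (nat_lit 3) (C.cons (nat_lit 270) (C.node (nat_lit 1) (nat_lit 8) (nat_lit 10) (C.cons (nat_lit 1314) (C.miq (nat_lit 1703086610) (nat_lit 359061833877846971938374663))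 (C.cons (nat_lit 1298) (C.miq (nat_lit 916529224) (nat_lit 1317734124166639346754126101)) (C.cons (nat_lit 1282) (C.node (nat_lit 1) (nat_lit 2) (nat_lit 6) (C.cons (nat_lit 102) (C.node (nat_lit 1) (nat_lit 2) (nat_lit 9) C.nil) (C.cons (nat_lit 70) (C.node (nat_lit 1) (nat_lit 2) (nat_lit 5) (C.cons (nat_lit 38) (C.node (nat_lit 1) (nat_lit 2) (nat_lit 9) C.nil) C.nil)) C.nil))) C.nil)))) (C.cons (nat_lit 46)
  (C.node (nat_lit 1) (nat_lit 2) (nat_lit 6) (C.cons (nat_lit 326) (C.node (nat_lit 2) (nat_lit 5) (nat_lit 6) C.nil) (C.cons (nat_lit 70) (C.node (nat_lit 1) (nat_lit 2) (nat_lit 8) (C.cons (nat_lit 262) (C.node (nat_lit 1) (nat_lit 2) (nat_lit 9) C.nil) C.nil)) C.nil))) (C.cons (nat_lit 14) (C.node (nat_lit 2) (nat_lit 3) (nat_lit 5) (C.cons (nat_lit 1068) (C.node (nat_lit 2) (nat_lit 3) (nat_lit 8) (C.cons (nat_lit 268) (C.node (nat_lit 2) (nat_lit 8) (nat_lit 10) C.nil) C.nil)) (C.cons (nat_lit 44) (C.node (nat_lit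 2) (nat_lit 3) (nat_lit 8) (C.cons (nat_lit 1292) (C.node (nat_lit 2) (nat_lit 5) (nat_lit 10) C.nil) (C.cons (nat_lit 268) (C.node (nat_lit 2) (nat_lit 3) (nat_lit 10) C.nil) C.nil))) C.nil))) C.nil)))) C.nil)) C.nil))) C.nil))))) C.nil))) C.nil)) C.nil))) C.nil))) C.nil))) C.nil)))) C.nil)) C.nil))) List.nil)

theorem ok11_145 : okL par11 (nat_lit 146) c11_145 (nat_lit 145) = true := by decide +kernel

noncomputable def c11_146 : List C :=
  (List.cons (C.node (nat_lit 1) (nat_lit 7) (nat_lit 10) (C.cons (nat_lit 1186) (C.miq (nat_lit 352549474) (nat_lit 359053588197037537439319236)) (C.cons (nat_lit 1154) (C.node (nat_lit 3) (nat_lit 6) (nat_lit 10) (C.cons (nat_lit 1354) (C.miq (nat_lit 1398933671) (nat_lit 712060351549392629526693761)) (C.cons (nat_lit 1352) (C.miq (nat_lit 1398933671) (nat_lit 712060351549392620936759169)) (C.cons (nat_lit 1098) (C.miq (nat_lit 1511458354) (nat_lit 1395103439868095994090357325)) (C.cons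 (nat_lit 1096) (C.node (nat_lit 1) (nat_lit 2) (nat_lit 4) (C.cons (nat_lit 54) (C.node (nat_lit 2) (nat_lit 3) (nat_lit 4) (C.cons (nat_lit 28) (C.node (nat_lit 1) (nat_lit 7) (nat_lit 9) (C.cons (nat_lit 674) (C.miq (nat_lit 2270300436) (nat_lit 199477870525238556444983827)) (C.cons (nat_lit 642) (C.node (nat_lit 2) (nat_lit 3) (nat_lit 5) (C.cons (nat_lit 1068) (C.miq (nat_lit 329675344) (nat_lit 1324986295452701982633033893)) (C.cons (nat_lit 44) (C.node (nat_lit 4) (nat_lit 5) (nat_lit 7) (C.cons (nat_lit 432) (C.miq (nat_lit 1369915912) (nat_lit 1395108364843925987116777749)) (C.cons (nat_lit 176) (C.node (nat_lit 1) (nat_lit 4) (nat_lit 10) (C.cons (nat_lit 1306) (C.miq (nat_lit 2166858832) (nat_lit 171702902948249490380096625)) (C.cons (nat_lit 1298) (C.miq (nat_lit 2166858832) (nat_lit 171702902945997690566411377)) (C.cons (nat_lit 1050) (C.miq (nat_lit 1412893202) (nat_lit 184968694433851984051045383)) (C.cons (nat_lit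 1042) (C.node (nat_lit 1) (nat_lit 2) (nat_lit 6) (C.cons (nat_lit 326) (C.node (nat_lit 1) (nat_lit 2) (nat_lit 9) C.nil) (C.cons (nat_lit 70) (C.node (nat_lit 1) (nat_lit 2) (nat_lit 8) (C.cons (nat_lit 262) (C.node (nat_lit 1) (nat_lit 2) (nat_lit 9) C.nil) C.nil)) C.nil))) C.nil))))) C.nil))) C.nil))) C.nil))) C.nil)) (C.cons (nat_lit 22) (C.node (nat_lit 1) (nat_lit 6) (nat_lit 10) (C.cons (nat_lit 1346) (C.node (nat_lit 1) (nat_lit 2) (nat_lit 6) (C.cons (nat_lit 102) (C.miq (nat_lit 2166859344) (nat_lit 171702902959508695606953073)) (C.cons (nat_lit 70) (C.node (nat_lit 1) (nat_lit 4) (nat_lit 6) (C.cons (nat_lit 90) (C.miq (nat_lit 2167907904) (nat_lit 171702902959508644066559089)) (C.cons (nat_lit 82) (C.node (nat_lit 1) (nat_lit 4) (nat_lit 10) (C.cons (nat_lit 1050) (C.miq (nat_lit 1412893202) (nat_lit 184968694433851984051045383)) (C.cons (nat_lit 1042) (C.node (nat_lit 2) (nat_lit 3) (nat_lit 4) (C.cons (nat_lit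 60) (C.miq (nat_lit 878781703) (nat_lit 99134536662951441075470501)) (C.cons (nat_lit 28) (C.node (nat_lit 2) (nat_lit 4) (nat_lit 5) (C.cons (nat_lit 52) (C.node (nat_lit 3) (nat_lit 4) (nat_lit 10) (C.cons (nat_lit 1304) (C.miq (nat_lit 2205262854) (nat_lit 171692296069844582638224497)) C.nil)) C.nil)) C.nil))) C.nil))) C.nil))) C.nil))) (C.cons (nat_lit 1090) (C.node (nat_lit 6) (nat_lit 8) (nat_lit 10) (C.cons (nat_lit 1344) (C.node (nat_lit 1) (nat_lit 7) (nat_lit 9) (C.cons (nat_lit 674) (C.node (nat_lit 3) (nat_lit 7) (nat_lit 9) (C.cons (nat_lit 648) (C.node (nat_lit 1) (nat_lit 2) (nat_lit 9) (C.cons (nat_lit 774) (C.node (nat_lit 1) (nat_lit 6) (nat_lit 9) (C.cons (nat_lit 578) (C.node (nat_lit 2) (nat_lit 5) (nat_lit 9) (C.cons (nat_lit 548) (C.node (nat_lit 1) (nat_lit 2) (nat_lit 5) (C.cons (nat_lit 102) (C.miq (nat_lit 1159136803) (nat_lit 814818825092140827929346637)) (C.cons (nat_lit 38) (C.node (nat_lit 1)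 (nat_lit 4) (nat_lit 7) C.nil) C.nil))) C.nil)) C.nil)) (C.cons (nat_lit 518) (C.node (nat_lit 1) (nat_lit 4) (nat_lit 7) (C.cons (nat_lit 402) (C.node (nat_lit 4) (nat_lit 5) (nat_lit 7) (C.cons (nat_lit 176) (C.node (nat_lit 1) (nat_lit 4) (nat_lit 10) C.nil) C.nil)) (C.cons (nat_lit 146) (C.node (nat_lit 1) (nat_lit 7) (nat_lit 8) (C.cons (nat_lit 386) (C.node (nat_lit 3) (nat_lit 7) (nat_lit 8) C.nil) C.nil)) C.nil))) C.nil))) C.nil)) (C.cons (nat_lit 642) (C.node (nat_lit 2) (nat_lit 3) (nat_lit 4) (C.cons (nat_lit 60) (C.node (nat_lit 2) (nat_lit 5) (nat_lit 10) (C.cons (nat_lit 1316) (C.miq (nat_lit 2184684864) (nat_lit 171702902951064265916220529))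
  (C.cons (nat_lit 1060) (C.node (nat_lit 3) (nat_lit 4) (nat_lit 9) (C.cons (nat_lit 792) (C.miq (nat_lit 2485617488) (nat_lit 178956457721259153168859433)) (C.cons (nat_lit 536) (C.node (nat_lit 3) (nat_lit 7) (nat_lit 9) (C.cons (nat_lit 680) (C.miq (nat_lit 2301888338) (nat_lit 647989349602266006031171749)) (C.cons (nat_lit 648) (C.node (nat_lit 3) (nat_lit 4) (nat_lit 10) (C.cons (nat_lit 1306) (C.miq (nat_lit 2200413264) (nat_lit 171702902948249516149900401)) (C.cons (nat_lit 1304) (C.miq (nat_lit 2200413264) (nat_lit 171702902947686566196479089)) (C.cons (nat_lit 1050) (C.miq (nat_lit 1412893202) (nat_lit 184968694433851984051045383)) C.nil)))) C.nil))) C.nil))) C.nil))) (C.cons (nat_lit 28) (C.node (nat_lit 2) (nat_lit 4) (nat_lit 5) (C.cons (nat_lit 52) (C.node (nat_lit 2) (nat_lit 3) (nat_lit 5) (C.cons (nat_lit 1068) (C.miq (nat_lit 329675344) (nat_lit 1324986295452701982633033893)) (C.cons (nat_lit 44) (C.node (nat_lit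 2) (nat_lit 3) (nat_lit 8) (C.cons (nat_lit 1292) (C.node (nat_lit 2) (nat_lit 5) (nat_lit 10) C.nil) (C.cons (nat_lit 268) (C.node (nat_lit 2) (nat_lit 3) (nat_lit 10) (C.cons (nat_lit 1036) (C.node (nat_lit 2) (nat_lit 5) (nat_lit 10) C.nil) C.nil)) C.nil))) C.nil))) C.nil)) C.nil))) C.nil))) C.nil)) C.nil))) C.nil))) C.nil))))) C.nil))) (List.cons (C.node (nat_lit 1) (nat_lit 7) (nat_lit 10) (C.cons (nat_lit 1186) (C.miq (nat_lit 829581904) (nat_lit 162006925269684342606857329)) (C.cons (nat_lit 1154) (C.node (nat_lit 3) (nat_lit 5) (nat_lit 6) (C.cons (nat_lit 232) (C.miq (nat_lit 326280784) (nat_lit 169268633648248599878108273)) (C.cons (nat_lit 104) (C.node (nat_lit 1) (nat_lit 4) (nat_lit 6) (C.cons (nat_lit 338) (C.node (nat_lit 1) (nat_lit 4) (nat_lit 10) (C.cons (nat_lit 1042) (C.node (nat_lit 3) (nat_lit 4) (nat_lit 6) (C.cons (nat_lit 88) (C.node (nat_lit 1) (nat_lit 2) (nat_lit 6) (C.cons (nat_lit 102) (C.node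 (nat_lit 1) (nat_lit 6) (nat_lit 9) (C.cons (nat_lit 578) (C.node (nat_lit 1) (nat_lit 4) (nat_lit 7) (C.cons (nat_lit 178) (C.miq (nat_lit 840369748) (nat_lit 161998882345992786352931953)) C.nil)) C.nil)) (C.cons (nat_lit 70) (C.node (nat_lit 3) (nat_lit 4) (nat_lit 10) (C.cons (nat_lit 1304) (C.node (nat_lit 1) (nat_lit 8) (nat_lit 10) (C.cons (nat_lit 1314) (C.node (nat_lit 1) (nat_lit 9) (nat_lit 10) C.nil) C.nil)) C.nil)) C.nil))) C.nil)) C.nil)) (C.cons (nat_lit 82) (C.node (nat_lit 1) (nat_lit 4) (nat_lit 10) (C.cons (nat_lit 1298) (C.node (nat_lit 3) (nat_lit 4) (nat_lit 10) (C.cons (nat_lit 1048) (C.node (nat_lit 3) (nat_lit 8) (nat_lit 10) (C.cons (nat_lit 1292) (C.miq (nat_lit 404988934) (nat_lit 1561952413832449536323028081)) (C.cons (nat_lit 1288) (C.node (nat_lit 2) (nat_lit 3) (nat_lit 8) (C.cons (nat_lit 270) (C.node (nat_lit 3) (nat_lit 4) (nat_lit 6) (C.cons (nat_lit 344) (C.node (nat_lit 3) (nat_lit 6) (nat_lit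 7) (C.cons (nat_lit 200) (C.node (nat_lit 3) (nat_lit 7) (nat_lit 8) C.nil) C.nil)) C.nil)) (C.cons (nat_lit 268) (C.miq (nat_lit 404988934) (nat_lit 324012374547069261423903857)) C.nil))) C.nil))) C.nil)) (C.cons (nat_lit 1042) (C.node (nat_lit 1) (nat_lit 8) (nat_lit 10) (C.cons (nat_lit 1314) (C.node (nat_lit 1) (nat_lit 9) (nat_lit 10) (C.cons (nat_lit 1538) (C.node (nat_lit 2) (nat_lit 5) (nat_lit 10) (C.cons (nat_lit 1068) (C.miq (nat_lit 321350224) (nat_lit 169253212170206569285616753)) (C.cons (nat_lit 1060) (C.node (nat_lit 3) (nat_lit 9) (nat_lit 10) C.nil) C.nil))) C.nil)) (C.cons (nat_lit 1282) (C.node (nat_lit 1) (nat_lit 5) (nat_lit 10) (C.cons (nat_lit 1570) (C.node (nat_lit 3) (nat_lit 9) (nat_lit 10) (C.cons (nat_lit 1544) (C.node (nat_lit 2) (nat_lit 3) (nat_lit 10) (C.cons (nat_lit 1292) (C.node (nat_lit 2) (nat_lit 5) (nat_lit 10) C.nil) (C.cons (nat_lit 1068) (C.miq (nat_lit 321350224) (nat_lit 169253212170206569285616753))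 C.nil))) C.nil)) (C.cons (nat_lit 1058) (C.node (nat_lit 1) (nat_lit 9) (nat_lit 10) (C.cons (nat_lit 1538) (C.node (nat_lit 2) (nat_lit 3) (nat_lit 10) (C.cons (nat_lit 1292)
  (C.node (nat_lit 2) (nat_lit 5) (nat_lit 10) C.nil) (C.cons (nat_lit 1068) (C.miq (nat_lit 321350224) (nat_lit 169253212170206569285616753)) C.nil))) C.nil)) C.nil))) C.nil))) C.nil))) C.nil))) C.nil))) C.nil))) List.nil))

theorem ok11_146 : okL par11 (nat_lit 148) c11_146 (nat_lit 146) = true := by decide +kernel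

noncomputable def c11_148 : List C :=
  (List.cons (C.node (nat_lit 4) (nat_lit 6) (nat_lit 7) (C.cons (nat_lit 720) (C.miq (nat_lit 308546169) (nat_lit 101559564358937931343202177)) (C.cons (nat_lit 464) (C.node (nat_lit 4) (nat_lit 6) (nat_lit 9) (C.cons (nat_lit 592) (C.node (nat_lit 2) (nat_lit 7) (nat_lit 8) (C.cons (nat_lit 398) (C.miq (nat_lit 1445137016) (nat_lit 712062786756048764044969857)) (C.cons (nat_lit 396) (C.miq (nat_lit 1445137016) (nat_lit 712062786756048764044838785)) (C.cons (nat_lit 390) (C.miq (nat_lit 2759984753) (nat_lit 334891470946431317351727299)) (C.cons (nat_lit 388) (C.node (nat_lit 1) (nat_lit 2) (nat_lit 7) (C.cons (nat_lit 142) (C.node (nat_lit 3) (nat_lit 7) (nat_lit 8) (C.cons (nat_lit 392) (C.node (nat_lit 1) (nat_lit 7) (nat_lit 10) (C.cons (nat_lit 1186) (C.miq (nat_lit 352549474) (nat_lit 359053588197037537439319236)) (C.cons (nat_lit 1154) (C.node (nat_lit 3) (nat_lit 6) (nat_lit 7)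 (C.cons (nat_lit 232) (C.miq (nat_lit 1461347104) (nat_lit 1395121369848596679920910925)) (C.cons (nat_lit 200) (C.node (nat_lit 3) (nat_lit 6) (nat_lit 10) (C.cons (nat_lit 1354) (C.miq (nat_lit 1398933671) (nat_lit 712060351549392629526693761)) (C.cons (nat_lit 1352) (C.miq (nat_lit 1398933671) (nat_lit 712060351549392620936759169)) (C.cons (nat_lit 1098) (C.miq (nat_lit 1511458354) (nat_lit 1395103439868095994090357325)) (C.cons (nat_lit 1096) (C.node (nat_lit 1) (nat_lit 2) (nat_lit 4) (C.cons (nat_lit 54) (C.node (nat_lit 1) (nat_lit 4) (nat_lit 7) (C.cons (nat_lit 146) (C.node (nat_lit 2) (nat_lit 3) (nat_lit 4) (C.cons (nat_lit 28) (C.node (nat_lit 1) (nat_lit 4) (nat_lit 6) (C.cons (nat_lit 90) (C.miq (nat_lit 1410795058) (nat_lit 176506213696545456659497549)) (C.cons (nat_lit 82) (C.node (nat_lit 3) (nat_lit 4) (nat_lit 6) (C.cons (nat_lit 88) (C.node (nat_lit 1) (nat_lit 7) (nat_lit 9) (C.cons (nat_lit 674) (C.miq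 (nat_lit 2270300436) (nat_lit 199477870525238556444983827)) (C.cons (nat_lit 642) (C.node (nat_lit 2) (nat_lit 3) (nat_lit 5) (C.cons (nat_lit 1068) (C.miq (nat_lit 1400283664) (nat_lit 241806138171553527726539783)) (C.cons (nat_lit 44) (C.node (nat_lit 4) (nat_lit 5) (nat_lit 7) (C.cons (nat_lit 688) (C.miq (nat_lit 2807171393) (nat_lit 199491779370270193576444435)) (C.cons (nat_lit 176) (C.node (nat_lit 4) (nat_lit 7) (nat_lit 9) (C.cons (nat_lit 656) (C.node (nat_lit 1) (nat_lit 5) (nat_lit 7) C.nil) C.nil)) C.nil))) C.nil))) C.nil))) C.nil)) C.nil))) C.nil)) C.nil)) (C.cons (nat_lit 22) (C.node (nat_lit 1) (nat_lit 4) (nat_lit 6) (C.cons (nat_lit 90) (C.node (nat_lit 3) (nat_lit 5) (nat_lit 6) (C.cons (nat_lit 104) (C.node (nat_lit 3) (nat_lit 6) (nat_lit 8) (C.cons (nat_lit 328) (C.node (nat_lit 1) (nat_lit 4) (nat_lit 7) (C.cons (nat_lit 178) (C.node (nat_lit 1) (nat_lit 7) (nat_lit 8) (C.cons (nat_lit 386) (C.node (nat_lit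 1) (nat_lit 7) (nat_lit 9) (C.cons (nat_lit 642) (C.node (nat_lit 4) (nat_lit 7) (nat_lit 9) (C.cons (nat_lit 656) (C.node (nat_lit 5) (nat_lit 7) (nat_lit 8) (C.cons (nat_lit 416) (C.node (nat_lit 1) (nat_lit 6) (nat_lit 10) (C.cons (nat_lit 1346) (C.miq (nat_lit 2167907904) (nat_lit 171702902959508644066559089)) (C.cons (nat_lit 1090) (C.node (nat_lit 1) (nat_lit 6) (nat_lit 9) (C.cons (nat_lit 866) (C.miq (nat_lit 2440258880) (nat_lit 171678331761294852079813745)) (C.cons (nat_lit 834) (C.miq (nat_lit 2168952368) (nat_lit 215224232321520106280125005)) (C.cons (nat_lit 610) (C.miq (nat_lit 2440258880) (nat_lit 171678331689237258041885809)) C.nil)))) C.nil))) C.nil)) C.nil)) C.nil)) C.nil)) (C.cons (nat_lit 146) (C.miq (nat_lit 1410795058) (nat_lit 176506213696545456659497549)) C.nil))) C.nil)) C.nil)) (C.cons (nat_lit 82) (C.node (nat_lit 3) (nat_lit 4) (nat_lit 6) (C.cons (nat_lit 88) (C.node (nat_lit 1) (nat_lit 4) (nat_lit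 7) (C.cons (nat_lit 178) (C.miq (nat_lit 910237783) (nat_lit 99134536811851703754293413)) (C.cons (nat_lit 146) (C.node (nat_lit 2) (nat_lit 3) (nat_lit 4) (C.cons (nat_lit 60) (C.miq (nat_lit 323383888) (nat_lit 106389069281151445202174117)) (C.cons (nat_lit 28)
  (C.node (nat_lit 2) (nat_lit 4) (nat_lit 5) (C.cons (nat_lit 52) (C.node (nat_lit 2) (nat_lit 3) (nat_lit 5) (C.cons (nat_lit 1068) (C.miq (nat_lit 1400283664) (nat_lit 241806138171553527726539783)) (C.cons (nat_lit 44) (C.node (nat_lit 1) (nat_lit 6) (nat_lit 10) (C.cons (nat_lit 1346) (C.node (nat_lit 3) (nat_lit 6) (nat_lit 8) (C.cons (nat_lit 328) (C.node (nat_lit 1) (nat_lit 2) (nat_lit 6) (C.cons (nat_lit 102) (C.miq (nat_lit 2166859344) (nat_lit 171702902959508695606953073)) C.nil)) C.nil)) (C.cons (nat_lit 1090) (C.node (nat_lit 6) (nat_lit 8) (nat_lit 10) C.nil) C.nil))) C.nil))) C.nil)) C.nil))) C.nil))) C.nil)) C.nil))) C.nil))) C.nil))))) C.nil))) C.nil)))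 C.nil)) (C.cons (nat_lit 134) (C.node (nat_lit 2) (nat_lit 3) (nat_lit 7) (C.cons (nat_lit 140) (C.node (nat_lit 1) (nat_lit 4) (nat_lit 6) (C.cons (nat_lit 90) (C.node (nat_lit 1) (nat_lit 4) (nat_lit 7) (C.cons (nat_lit 178) (C.miq (nat_lit 829580368) (nat_lit 162006924985953236755481713)) (C.cons (nat_lit 146) (C.node (nat_lit 1) (nat_lit 6) (nat_lit 10) (C.cons (nat_lit 1346) (C.miq (nat_lit 815875974) (nat_lit 1246404180272723235138830800)) (C.cons (nat_lit 1090) (C.node (nat_lit 2) (nat_lit 3) (nat_lit 4) (C.cons (nat_lit 60) (C.miq (nat_lit 321348688) (nat_lit 169253211886475463434241137)) (C.cons (nat_lit 28) (C.node (nat_lit 3) (nat_lit 4) (nat_lit 10) (C.cons (nat_lit 1304) (C.miq (nat_lit 2685634404) (nat_lit 13322239110747305962766800)) (C.cons (nat_lit 1048) (C.node (nat_lit 3) (nat_lit 4) (nat_lit 8) (C.cons (nat_lit 792) (C.miq (nat_lit 2216137568) (nat_lit 176538606082030023670432333)) (C.cons (nat_lit 280)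 (C.node (nat_lit 3) (nat_lit 6) (nat_lit 8) (C.cons (nat_lit 1352) (C.miq (nat_lit 1398933671) (nat_lit 712060351549392620936759169)) (C.cons (nat_lit 328) (C.node (nat_lit 3) (nat_lit 6) (nat_lit 10) (C.cons (nat_lit 1096) (C.node (nat_lit 6) (nat_lit 8) (nat_lit 10) (C.cons (nat_lit 1344) (C.node (nat_lit 3) (nat_lit 7) (nat_lit 8) (C.cons (nat_lit 394) (C.miq (nat_lit 2202693984) (nat_lit 1266989695262398498586296515)) (C.cons (nat_lit 392) (C.node (nat_lit 3) (nat_lit 8) (nat_lit 9) (C.cons (nat_lit 778) (C.miq (nat_lit 2204799296) (nat_lit 1325018134711987090029085203)) (C.cons (nat_lit 776) (C.node (nat_lit 1) (nat_lit 4) (nat_lit 10) (C.cons (nat_lit 1298) (C.miq (nat_lit 328746506) (nat_lit 938150379920095192335582321)) (C.cons (nat_lit 1042) (C.node (nat_lit 4) (nat_lit 8) (nat_lit 10) (C.cons (nat_lit 1296) (C.node (nat_lit 3) (nat_lit 4) (nat_lit 5) C.nil) C.nil)) C.nil))) C.nil))) C.nil))) C.nil)) C.nil)) C.nil)))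 C.nil))) C.nil))) C.nil))) C.nil))) C.nil))) (C.cons (nat_lit 82) (C.node (nat_lit 3) (nat_lit 4) (nat_lit 6) (C.cons (nat_lit 88) (C.node (nat_lit 1) (nat_lit 4) (nat_lit 7) (C.cons (nat_lit 178) (C.node (nat_lit 4) (nat_lit 7) (nat_lit 9) (C.cons (nat_lit 656) (C.node (nat_lit 5) (nat_lit 7) (nat_lit 8) (C.cons (nat_lit 416) (C.node (nat_lit 2) (nat_lit 4) (nat_lit 5) (C.cons (nat_lit 60) (C.miq (nat_lit 339113248) (nat_lit 106389069291284544327844005)) (C.cons (nat_lit 52) (C.node (nat_lit 1) (nat_lit 2) (nat_lit 4) (C.cons (nat_lit 30) (C.node (nat_lit 1) (nat_lit 7) (nat_lit 9) (C.cons (nat_lit 650) (C.miq (nat_lit 2266237234) (nat_lit 215193906180228632635376205)) (C.cons (nat_lit 642) (C.node (nat_lit 1) (nat_lit 7) (nat_lit 10) (C.cons (nat_lit 1162) (C.miq (nat_lit 2268334610) (nat_lit 184970760689865102290977799)) (C.cons (nat_lit 1154) (C.node (nat_lit 3) (nat_lit 6) (nat_lit 7) (C.cons (nat_lit 232) (C.miq (nat_lit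 924411200) (nat_lit 776141241390154304223118449)) (C.cons (nat_lit 200) (C.node (nat_lit 3) (nat_lit 4) (nat_lit 5) (C.cons (nat_lit 568) (C.miq (nat_lit 1466122505) (nat_lit 241795641723663085378273811)) (C.cons (nat_lit 56) (C.node (nat_lit 1) (nat_lit 3) (nat_lit 7) C.nil) C.nil))) C.nil))) C.nil))) C.nil))) (C.cons (nat_lit 22) (C.node (nat_lit 2) (nat_lit 3) (nat_lit 4) (C.cons (nat_lit 28) (C.node (nat_lit 1) (nat_lit 7) (nat_lit 8) (C.cons (nat_lit 394)
  (C.node (nat_lit 1) (nat_lit 7) (nat_lit 9) C.nil) C.nil)) C.nil)) C.nil))) C.nil))) C.nil)) C.nil)) (C.cons (nat_lit 146) (C.node (nat_lit 3) (nat_lit 6) (nat_lit 7) (C.cons (nat_lit 232) (C.node (nat_lit 6) (nat_lit 7) (nat_lit 9) (C.cons (nat_lit 704) (C.node (nat_lit 3) (nat_lit 7) (nat_lit 9) (C.cons (nat_lit 650) (C.miq (nat_lit 1410818195) (nat_lit 176507449628400289313325645)) (C.cons (nat_lit 648) (C.node (nat_lit 5) (nat_lit 7) (nat_lit 10) (C.cons (nat_lit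 1186) (C.miq (nat_lit 389195104) (nat_lit 169268633673018397856433265)) (C.cons (nat_lit 1184) (C.node (nat_lit 3) (nat_lit 6) (nat_lit 10) (C.cons (nat_lit 1354) (C.miq (nat_lit 1398933671) (nat_lit 712060351549392629526693761)) (C.cons (nat_lit 1352) (C.miq (nat_lit 1398933671) (nat_lit 712060351549392620936759169)) (C.cons (nat_lit 1098) (C.miq (nat_lit 326280784) (nat_lit 169268633648248599878108273)) (C.cons (nat_lit 1096) (C.node (nat_lit 1) (nat_lit 3) (nat_lit 6) (C.cons (nat_lit 330) (C.node (nat_lit 1) (nat_lit 6) (nat_lit 10) (C.cons (nat_lit 1090) (C.node (nat_lit 3) (nat_lit 7) (nat_lit 8) (C.cons (nat_lit 392) (C.node (nat_lit 6) (nat_lit 8) (nat_lit 10) (C.cons (nat_lit 1344) (C.node (nat_lit 1) (nat_lit 2) (nat_lit 6) C.nil) C.nil)) C.nil)) C.nil)) (C.cons (nat_lit 74) (C.node (nat_lit 3) (nat_lit 6) (nat_lit 8) (C.cons (nat_lit 328) (C.node (nat_lit 1) (nat_lit 6) (nat_lit 10) (C.cons (nat_lit 1346) (C.node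 (nat_lit 1) (nat_lit 2) (nat_lit 6) (C.cons (nat_lit 70) (C.node (nat_lit 1) (nat_lit 5) (nat_lit 6) (C.cons (nat_lit 98) (C.node (nat_lit 1) (nat_lit 6) (nat_lit 9) C.nil) C.nil)) C.nil)) (C.cons (nat_lit 1090) (C.node (nat_lit 6) (nat_lit 8) (nat_lit 10) (C.cons (nat_lit 1344) (C.node (nat_lit 1) (nat_lit 7) (nat_lit 9) (C.cons (nat_lit 642) (C.node (nat_lit 1) (nat_lit 5) (nat_lit 7) C.nil) C.nil)) C.nil)) C.nil))) C.nil)) C.nil))) C.nil))))) C.nil))) C.nil))) C.nil)) (C.cons (nat_lit 200) (C.node (nat_lit 3) (nat_lit 5) (nat_lit 6) (C.cons (nat_lit 106) (C.node (nat_lit 3) (nat_lit 6) (nat_lit 8) (C.cons (nat_lit 1352) (C.miq (nat_lit 1398933671) (nat_lit 712060351549392620936759169)) (C.cons (nat_lit 328) (C.node (nat_lit 3) (nat_lit 6) (nat_lit 10) (C.cons (nat_lit 1096) (C.node (nat_lit 3) (nat_lit 7) (nat_lit 8) (C.cons (nat_lit 394) (C.miq (nat_lit 2822047510) (nat_lit 359071942914271795133153475)) (C.cons (nat_lit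 392) (C.node (nat_lit 1) (nat_lit 7) (nat_lit 8) (C.cons (nat_lit 418) (C.miq (nat_lit 2555578134) (nat_lit 359061834098519505378083011)) (C.cons (nat_lit 386) (C.node (nat_lit 5) (nat_lit 7) (nat_lit 8) (C.cons (nat_lit 416) (C.node (nat_lit 1) (nat_lit 2) (nat_lit 6) (C.cons (nat_lit 326) (C.node (nat_lit 1) (nat_lit 6) (nat_lit 9) (C.cons (nat_lit 578) (C.node (nat_lit 5) (nat_lit 6) (nat_lit 7) C.nil) C.nil)) (C.cons (nat_lit 70) (C.node (nat_lit 1) (nat_lit 6) (nat_lit 9) (C.cons (nat_lit 834) (C.node (nat_lit 5) (nat_lit 6) (nat_lit 7) C.nil) (C.cons (nat_lit 578) (C.node (nat_lit 5) (nat_lit 6) (nat_lit 7) (C.cons (nat_lit 736) (C.node (nat_lit 4) (nat_lit 5) (nat_lit 7) C.nil) C.nil)) C.nil))) C.nil))) C.nil)) C.nil))) C.nil))) C.nil)) C.nil))) (C.cons (nat_lit 104) (C.node (nat_lit 3) (nat_lit 7) (nat_lit 8) (C.cons (nat_lit 394) (C.node (nat_lit 5) (nat_lit 7) (nat_lit 8) (C.cons (nat_lit 416) (C.node (nat_lit 3)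 (nat_lit 6) (nat_lit 8) (C.cons (nat_lit 1352) (C.miq (nat_lit 1398933671) (nat_lit 712060351549392620936759169)) (C.cons (nat_lit 328) (C.node (nat_lit 6) (nat_lit 8) (nat_lit 10) (C.cons (nat_lit 1346) (C.miq (nat_lit 878801064) (nat_lit 99139185268635188792002433)) (C.cons (nat_lit 1344) (C.node (nat_lit 1) (nat_lit 3) (nat_lit 6) (C.cons (nat_lit 1098) (C.node (nat_lit 1) (nat_lit 4) (nat_lit 10) (C.cons (nat_lit 1298) (C.miq (nat_lit 588777124) (nat_lit 476321882842065789621765233)) (C.cons (nat_lit 1042) (C.node (nat_lit 1) (nat_lit 7) (nat_lit 10) (C.cons (nat_lit 1186) (C.miq (nat_lit 829581904) (nat_lit 162006925269684342606857329)) (C.cons (nat_lit 1154)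
  (C.node (nat_lit 5) (nat_lit 6) (nat_lit 7) (C.cons (nat_lit 224) (C.node (nat_lit 6) (nat_lit 7) (nat_lit 9) C.nil) C.nil)) C.nil))) C.nil))) (C.cons (nat_lit 74) (C.node (nat_lit 1) (nat_lit 6) (nat_lit 10) (C.cons (nat_lit 1090) (C.node (nat_lit 3) (nat_lit 6) (nat_lit 10) (C.cons (nat_lit 1096) (C.node (nat_lit 5) (nat_lit 6) (nat_lit 7) (C.cons (nat_lit 224) (C.node (nat_lit 6) (nat_lit 7) (nat_lit 9) C.nil) C.nil)) C.nil)) C.nil)) C.nil))) C.nil))) C.nil))) C.nil)) (C.cons (nat_lit 392) (C.node (nat_lit 1) (nat_lit 7) (nat_lit 8) (C.cons (nat_lit 418) (C.node (nat_lit 3) (nat_lit 6) (nat_lit 8) (C.cons (nat_lit 1354) (C.miq (nat_lit 1398933671) (nat_lit 712060351549392629526693761)) (C.cons (nat_lit 1352) (C.miq (nat_lit 1398933671) (nat_lit 712060351549392620936759169)) (C.cons (nat_lit 330) (C.miq (nat_lit 629344022) (nat_lit 359061833604249446288851139)) (C.cons (nat_lit 328) (C.node (nat_lit 1) (nat_lit 3) (nat_lit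 6) (C.cons (nat_lit 1098) (C.node (nat_lit 1) (nat_lit 7) (nat_lit 10) (C.cons (nat_lit 1154) (C.node (nat_lit 6) (nat_lit 8) (nat_lit 10) (C.cons (nat_lit 1344) (C.node (nat_lit 5) (nat_lit 6) (nat_lit 7) (C.cons (nat_lit 224) (C.node (nat_lit 6) (nat_lit 7) (nat_lit 9) C.nil) C.nil)) C.nil)) C.nil)) (C.cons (nat_lit 74) (C.node (nat_lit 3) (nat_lit 6) (nat_lit 10) (C.cons (nat_lit 1096) (C.node (nat_lit 1) (nat_lit 6) (nat_lit 10) (C.cons (nat_lit 1346) (C.node (nat_lit 1) (nat_lit 2) (nat_lit 6) (C.cons (nat_lit 102) (C.miq (nat_lit 2166859344) (nat_lit 162031496402591662209303665)) (C.cons (nat_lit 70) (C.node (nat_lit 1) (nat_lit 5) (nat_lit 6) (C.cons (nat_lit 610) (C.node (nat_lit 5) (nat_lit 6) (nat_lit 7) C.nil) C.nil)) C.nil))) (C.cons (nat_lit 1090) (C.node (nat_lit 6) (nat_lit 8) (nat_lit 10) (C.cons (nat_lit 1344) (C.node (nat_lit 5) (nat_lit 6) (nat_lit 7) (C.cons (nat_lit 224) (C.node (nat_lit 6) (nat_lit 7)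 (nat_lit 9) C.nil) C.nil)) C.nil)) C.nil))) C.nil)) C.nil))) C.nil))))) (C.cons (nat_lit 386) (C.node (nat_lit 5) (nat_lit 7) (nat_lit 8) (C.cons (nat_lit 416) (C.node (nat_lit 4) (nat_lit 5) (nat_lit 7) (C.cons (nat_lit 688) (C.node (nat_lit 5) (nat_lit 6) (nat_lit 7) (C.cons (nat_lit 224) (C.node (nat_lit 6) (nat_lit 7) (nat_lit 9) C.nil) C.nil)) (C.cons (nat_lit 176) (C.node (nat_lit 4) (nat_lit 7) (nat_lit 9) (C.cons (nat_lit 656) (C.node (nat_lit 2) (nat_lit 3) (nat_lit 8) C.nil) C.nil)) C.nil))) C.nil)) C.nil))) C.nil))) C.nil))) C.nil))) C.nil))) C.nil)) C.nil))) C.nil)) C.nil))) C.nil))))) C.nil)) (C.cons (nat_lit 208) (C.node (nat_lit 4) (nat_lit 6) (nat_lit 9) (C.cons (nat_lit 848) (C.node (nat_lit 6) (nat_lit 7) (nat_lit 9) (C.cons (nat_lit 736) (C.miq (nat_lit 610601111) (nat_lit 1374551700692577744446293889)) (C.cons (nat_lit 704) (C.node (nat_lit 1) (nat_lit 4) (nat_lit 6) (C.cons (nat_lit 90) (C.node (nat_lit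 1) (nat_lit 4) (nat_lit 10) (C.cons (nat_lit 1298) (C.miq (nat_lit 342010000) (nat_lit 101568787806127007164336001)) (C.cons (nat_lit 1042) (C.node (nat_lit 3) (nat_lit 6) (nat_lit 10) (C.cons (nat_lit 1352) (C.miq (nat_lit 1398933671) (nat_lit 712060351549392620936759169)) (C.cons (nat_lit 1096) (C.node (nat_lit 3) (nat_lit 6) (nat_lit 8) (C.cons (nat_lit 456) (C.miq (nat_lit 882401543) (nat_lit 1025177506773838180363862211)) (C.cons (nat_lit 328) (C.node (nat_lit 3) (nat_lit 8) (nat_lit 9) (C.cons (nat_lit 778) (C.miq (nat_lit 2169148256) (nat_lit 1259736140452797114594951757)) (C.cons (nat_lit 776) (C.node (nat_lit 4) (nat_lit 7) (nat_lit 8) (C.cons (nat_lit 434) (C.miq (nat_lit 642058631) (nat_lit 1374551700780397937160226689)) (C.cons (nat_lit 432) (C.miq (nat_lit 642058631) (nat_lit 1374551700780397937160095617)) (C.cons (nat_lit 402) (C.miq (nat_lit 964976753) (nat_lit 1025170755405969185951580355)) (C.cons (nat_lit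 400) (C.node (nat_lit 1) (nat_lit 2) (nat_lit 4) (C.cons (nat_lit 54) (C.node (nat_lit 1) (nat_lit 4) (nat_lit 7) (C.cons (nat_lit 146) (C.node (nat_lit 1) (nat_lit 4) (nat_lit 8) (C.cons (nat_lit 274) (C.node (nat_lit 2) (nat_lit 3) (nat_lit 4)
  (C.cons (nat_lit 28) (C.node (nat_lit 4) (nat_lit 5) (nat_lit 8) (C.cons (nat_lit 304) (C.node (nat_lit 1) (nat_lit 2) (nat_lit 9) (C.cons (nat_lit 774) (C.miq (nat_lit 2759919250) (nat_lit 331264693487589079120216653)) (C.cons (nat_lit 518) (C.node (nat_lit 2) (nat_lit 5) (nat_lit 9) (C.cons (nat_lit 804) (C.node (nat_lit 1) (nat_lit 8) (nat_lit 9) C.nil) C.nil)) C.nil))) C.nil)) C.nil)) C.nil)) C.nil)) (C.cons (nat_lit 22) (C.node (nat_lit 1) (nat_lit 4) (nat_lit 7) (C.cons (nat_lit 178) (C.node (nat_lit 1) (nat_lit 4) (nat_lit 8) (C.cons (nat_lit 274) (C.node (nat_lit 4) (nat_lit 5) (nat_lit 8) (C.cons (nat_lit 304) (C.node (nat_lit 4) (nat_lit 7) (nat_lit 9) (C.cons (nat_lit 656)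 (C.node (nat_lit 1) (nat_lit 6) (nat_lit 9) (C.cons (nat_lit 610) (C.miq (nat_lit 622200643) (nat_lit 737455615143627347164004505)) (C.cons (nat_lit 578) (C.node (nat_lit 2) (nat_lit 3) (nat_lit 4) (C.cons (nat_lit 28) (C.miq (nat_lit 1412591968) (nat_lit 33852966712084711407943875)) C.nil)) C.nil))) C.nil)) C.nil)) C.nil)) (C.cons (nat_lit 146) (C.node (nat_lit 2) (nat_lit 3) (nat_lit 4) (C.cons (nat_lit 60) (C.miq (nat_lit 1460936803) (nat_lit 176504276514824490761978445)) (C.cons (nat_lit 28) (C.node (nat_lit 2) (nat_lit 4) (nat_lit 5) (C.cons (nat_lit 52) (C.node (nat_lit 2) (nat_lit 3) (nat_lit 7) (C.cons (nat_lit 398) (C.miq (nat_lit 1445137016) (nat_lit 712062786756048764044969857)) (C.cons (nat_lit 396) (C.miq (nat_lit 1445137016) (nat_lit 712062786756048764044838785)) (C.cons (nat_lit 142) (C.miq (nat_lit 1410795058) (nat_lit 176506213696545456659497549)) (C.cons (nat_lit 140) (C.node (nat_lit 1) (nat_lit 4) (nat_lit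 5) (C.cons (nat_lit 50) (C.node (nat_lit 1) (nat_lit 4) (nat_lit 8) C.nil) C.nil)) C.nil))))) C.nil)) C.nil))) C.nil))) C.nil))) C.nil))))) C.nil))) C.nil))) C.nil))) C.nil))) (C.cons (nat_lit 82) (C.node (nat_lit 3) (nat_lit 4) (nat_lit 6) (C.cons (nat_lit 88) (C.node (nat_lit 1) (nat_lit 6) (nat_lit 9) (C.cons (nat_lit 610) (C.node (nat_lit 1) (nat_lit 2) (nat_lit 9) (C.cons (nat_lit 774) (C.miq (nat_lit 2191954180) (nat_lit 1474905142986688159001149971)) (C.cons (nat_lit 518) (C.node (nat_lit 2) (nat_lit 5) (nat_lit 6) (C.cons (nat_lit 356) (C.miq (nat_lit 354457220) (nat_lit 199482555629218218418438992)) (C.cons (nat_lit 100) (C.node (nat_lit 4) (nat_lit 5) (nat_lit 8) (C.cons (nat_lit 434) (C.miq (nat_lit 642058631) (nat_lit 1374551700780397937160226689)) (C.cons (nat_lit 432) (C.miq (nat_lit 642058631) (nat_lit 1374551700780397937160095617)) (C.cons (nat_lit 306) (C.miq (nat_lit 2190557285) (nat_lit 626229219342035565945160817))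 (C.cons (nat_lit 304) (C.node (nat_lit 1) (nat_lit 2) (nat_lit 6) (C.cons (nat_lit 326) (C.node (nat_lit 2) (nat_lit 7) (nat_lit 8) (C.cons (nat_lit 396) (C.miq (nat_lit 1445137016) (nat_lit 712062786756048764044838785)) (C.cons (nat_lit 388) (C.node (nat_lit 4) (nat_lit 7) (nat_lit 8) (C.cons (nat_lit 402) (C.miq (nat_lit 880936726) (nat_lit 334883317208579094354460867)) (C.cons (nat_lit 400) (C.node (nat_lit 6) (nat_lit 8) (nat_lit 10) (C.cons (nat_lit 1352) (C.miq (nat_lit 908429936) (nat_lit 120898061025012217591170945)) (C.cons (nat_lit 1344) (C.node (nat_lit 1) (nat_lit 2) (nat_lit 7) (C.cons (nat_lit 142) (C.node (nat_lit 1) (nat_lit 7) (nat_lit 9) (C.cons (nat_lit 642) (C.node (nat_lit 1) (nat_lit 4) (nat_lit 7) (C.cons (nat_lit 178) (C.miq (nat_lit 2440258880) (nat_lit 171678331689237258041885809)) (C.cons (nat_lit 146) (C.node (nat_lit 2) (nat_lit 3) (nat_lit 4) (C.cons (nat_lit 60) (C.miq (nat_lit 323383888) (nat_lit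 106389069281151445202174117)) C.nil)) C.nil))) C.nil)) (C.cons (nat_lit 134) (C.node (nat_lit 2) (nat_lit 3) (nat_lit 7) (C.cons (nat_lit 140) (C.node (nat_lit 1) (nat_lit 3) (nat_lit 6) (C.cons (nat_lit 1098) (C.node (nat_lit 1) (nat_lit 9) (nat_lit 10) (C.cons (nat_lit 1538) (C.node (nat_lit 4) (nat_lit 7) (nat_lit 9) (C.cons (nat_lit 688) (C.node (nat_lit 3) (nat_lit 4) (nat_lit 9) C.nil) C.nil)) C.nil)) (C.cons (nat_lit 74)
  (C.node (nat_lit 1) (nat_lit 6) (nat_lit 10) (C.cons (nat_lit 1090) (C.node (nat_lit 3) (nat_lit 6) (nat_lit 10) (C.cons (nat_lit 1096) (C.node (nat_lit 3) (nat_lit 5) (nat_lit 6) C.nil) C.nil)) C.nil)) C.nil))) C.nil)) C.nil))) C.nil))) C.nil))) C.nil))) (C.cons (nat_lit 70) (C.node (nat_lit 2) (nat_lit 6) (nat_lit 8) (C.cons (nat_lit 324) (C.node (nat_lit 1) (nat_lit 7) (nat_lit 9) (C.cons (nat_lit 650) (C.node (nat_lit 1) (nat_lit 8) (nat_lit 9) (C.cons (nat_lit 770) (C.node (nat_lit 1) (nat_lit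 9) (nat_lit 10) (C.cons (nat_lit 1538) (C.node (nat_lit 3) (nat_lit 8) (nat_lit 9) (C.cons (nat_lit 776) (C.node (nat_lit 1) (nat_lit 7) (nat_lit 10) (C.cons (nat_lit 1186) (C.miq (nat_lit 911315111) (nat_lit 737456740514365352517437313)) (C.cons (nat_lit 1154) (C.node (nat_lit 3) (nat_lit 9) (nat_lit 10) (C.cons (nat_lit 1576) (C.miq (nat_lit 828741386) (nat_lit 737473822216543535279179649)) C.nil)) C.nil))) C.nil)) C.nil)) C.nil)) (C.cons (nat_lit 642) (C.node (nat_lit 3) (nat_lit 4) (nat_lit 9) (C.cons (nat_lit 568) (C.miq (nat_lit 924401765) (nat_lit 776140853986292306182014065)) (C.cons (nat_lit 536) (C.node (nat_lit 3) (nat_lit 5) (nat_lit 6) (C.cons (nat_lit 232) (C.miq (nat_lit 1497587975) (nat_lit 647988519129768354689646787)) (C.cons (nat_lit 104) (C.node (nat_lit 1) (nat_lit 8) (nat_lit 9) (C.cons (nat_lit 778) (C.node (nat_lit 1) (nat_lit 9) (nat_lit 10) (C.cons (nat_lit 1538) (C.node (nat_lit 4) (nat_lit 5) (nat_lit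 9) (C.cons (nat_lit 688) (C.node (nat_lit 1) (nat_lit 3) (nat_lit 6) C.nil) C.nil)) C.nil)) (C.cons (nat_lit 770) (C.node (nat_lit 3) (nat_lit 8) (nat_lit 9) (C.cons (nat_lit 776) (C.node (nat_lit 1) (nat_lit 3) (nat_lit 9) (C.cons (nat_lit 1546) (C.node (nat_lit 5) (nat_lit 9) (nat_lit 10) C.nil) C.nil)) C.nil)) C.nil))) C.nil))) C.nil))) C.nil))) C.nil)) C.nil))) C.nil))))) C.nil))) C.nil))) (C.cons (nat_lit 578) (C.node (nat_lit 5) (nat_lit 6) (nat_lit 9) (C.cons (nat_lit 608) (C.node (nat_lit 3) (nat_lit 4) (nat_lit 9) (C.cons (nat_lit 568) (C.node (nat_lit 4) (nat_lit 7) (nat_lit 9) (C.cons (nat_lit 656) (C.node (nat_lit 3) (nat_lit 7) (nat_lit 9) (C.cons (nat_lit 650) (C.miq (nat_lit 425096000) (nat_lit 735030495623750086061785241)) (C.cons (nat_lit 648) (C.node (nat_lit 4) (nat_lit 5) (nat_lit 7) (C.cons (nat_lit 434) (C.miq (nat_lit 642058631) (nat_lit 1374551700780397937160226689)) (C.cons (nat_lit 432) (C.miq (nat_lit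 642058631) (nat_lit 1374551700780397937160095617)) (C.cons (nat_lit 178) (C.miq (nat_lit 362181680) (nat_lit 735030495490893897018441881)) (C.cons (nat_lit 176) (C.node (nat_lit 1) (nat_lit 4) (nat_lit 7) (C.cons (nat_lit 402) (C.node (nat_lit 4) (nat_lit 5) (nat_lit 8) (C.cons (nat_lit 304) (C.node (nat_lit 2) (nat_lit 3) (nat_lit 4) (C.cons (nat_lit 30) (C.miq (nat_lit 328679944) (nat_lit 783391346709844115612303637)) C.nil)) C.nil)) (C.cons (nat_lit 146) (C.node (nat_lit 4) (nat_lit 7) (nat_lit 8) (C.cons (nat_lit 400) (C.node (nat_lit 2) (nat_lit 3) (nat_lit 4) (C.cons (nat_lit 28) (C.node (nat_lit 1) (nat_lit 2) (nat_lit 4) C.nil) C.nil)) C.nil)) C.nil))) C.nil))))) C.nil))) C.nil)) (C.cons (nat_lit 536) (C.node (nat_lit 3) (nat_lit 8) (nat_lit 9) (C.cons (nat_lit 778) (C.node (nat_lit 4) (nat_lit 5) (nat_lit 8) (C.cons (nat_lit 434) (C.miq (nat_lit 642058631) (nat_lit 1374551700780397937160226689)) (C.cons (nat_lit 432)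 (C.miq (nat_lit 642058631) (nat_lit 1374551700780397937160095617)) (C.cons (nat_lit 306) (C.miq (nat_lit 1669662996) (nat_lit 359071942539348775435108883)) (C.cons (nat_lit 304) (C.node (nat_lit 1) (nat_lit 2) (nat_lit 9) (C.cons (nat_lit 550) (C.node (nat_lit 1) (nat_lit 7) (nat_lit 9) (C.cons (nat_lit 642) (C.node (nat_lit 1) (nat_lit 9) (nat_lit 10) (C.cons (nat_lit 1538) (C.node (nat_lit 2) (nat_lit 8) (nat_lit 9) (C.cons (nat_lit 772) (C.node (nat_lit 4) (nat_lit 5) (nat_lit 9) C.nil) C.nil)) C.nil)) C.nil)) (C.cons (nat_lit 518) (C.node (nat_lit 1) (nat_lit 7) (nat_lit 9) (C.cons (nat_lit 674) (C.node (nat_lit 1) (nat_lit 9) (nat_lit 10)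
  (C.cons (nat_lit 1538) (C.node (nat_lit 4) (nat_lit 5) (nat_lit 9) C.nil) C.nil)) (C.cons (nat_lit 642) (C.node (nat_lit 1) (nat_lit 5) (nat_lit 9) (C.cons (nat_lit 1570) (C.node (nat_lit 3) (nat_lit 9) (nat_lit 10) (C.cons (nat_lit 1544) (C.node (nat_lit 4) (nat_lit 5) (nat_lit 9) C.nil) C.nil)) (C.cons (nat_lit 546) (C.node (nat_lit 1) (nat_lit 9) (nat_lit 10) (C.cons (nat_lit 1538) (C.node (nat_lit 4) (nat_lit 5) (nat_lit 9) (C.cons (nat_lit 688) (C.node (nat_lit 1) (nat_lit 4) (nat_lit 5) (C.cons (nat_lit 58) (C.miq (nat_lit 2822048020) (nat_lit 359071942914273444397449747)) (C.cons (nat_lit 54) (C.miq (nat_lit 2807171393) (nat_lit 199491779370270193576444435)) C.nil))) C.nil)) C.nil)) C.nil))) C.nil))) C.nil))) C.nil))))) (C.cons (nat_lit 776) (C.node (nat_lit 4) (nat_lit 5) (nat_lit 9) (C.cons (nat_lit 688) (C.node (nat_lit 1) (nat_lit 4) (nat_lit 7) (C.cons (nat_lit 402) (C.node (nat_lit 4) (nat_lit 5) (nat_lit 8)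 (C.cons (nat_lit 304) (C.node (nat_lit 2) (nat_lit 7) (nat_lit 8) (C.cons (nat_lit 396) (C.miq (nat_lit 1445137016) (nat_lit 712062786756048764044838785)) (C.cons (nat_lit 388) (C.node (nat_lit 1) (nat_lit 7) (nat_lit 9) (C.cons (nat_lit 650) (C.miq (nat_lit 931303744) (nat_lit 469074083325695996168831507)) (C.cons (nat_lit 642) (C.node (nat_lit 3) (nat_lit 7) (nat_lit 9) (C.cons (nat_lit 648) (C.node (nat_lit 3) (nat_lit 7) (nat_lit 8) (C.cons (nat_lit 456) (C.miq (nat_lit 944334608) (nat_lit 1025179960293819271068451011)) (C.cons (nat_lit 392) (C.node (nat_lit 1) (nat_lit 4) (nat_lit 10) C.nil) C.nil))) C.nil)) C.nil))) C.nil))) C.nil)) (C.cons (nat_lit 146) (C.node (nat_lit 4) (nat_lit 7) (nat_lit 8) (C.cons (nat_lit 400) (C.node (nat_lit 1) (nat_lit 7) (nat_lit 9) (C.cons (nat_lit 650) (C.node (nat_lit 1) (nat_lit 9) (nat_lit 10) (C.cons (nat_lit 1570) (C.miq (nat_lit 832600404) (nat_lit 1246405342557491434718560944)) (C.cons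 (nat_lit 1538) (C.node (nat_lit 3) (nat_lit 5) (nat_lit 9) (C.cons (nat_lit 1576) (C.node (nat_lit 3) (nat_lit 7) (nat_lit 10) (C.cons (nat_lit 1160) (C.node (nat_lit 2) (nat_lit 3) (nat_lit 7) (C.cons (nat_lit 396) (C.miq (nat_lit 1445137016) (nat_lit 712062786756048764044838785)) (C.cons (nat_lit 140) (C.node (nat_lit 1) (nat_lit 2) (nat_lit 4) (C.cons (nat_lit 62) (C.miq (nat_lit 1697712791) (nat_lit 74956998251245199625422721)) (C.cons (nat_lit 54) (C.miq (nat_lit 2807171393) (nat_lit 199491779370270193576444435)) (C.cons (nat_lit 30) (C.miq (nat_lit 2266237234) (nat_lit 176508279952560499044778573)) C.nil)))) C.nil))) C.nil)) C.nil)) C.nil))) (C.cons (nat_lit 642) (C.node (nat_lit 3) (nat_lit 7) (nat_lit 9) (C.cons (nat_lit 648) (C.node (nat_lit 4) (nat_lit 5) (nat_lit 8) C.nil) C.nil)) C.nil))) C.nil)) C.nil))) (C.cons (nat_lit 560) (C.node (nat_lit 4) (nat_lit 7) (nat_lit 9) (C.cons (nat_lit 656) (C.node (nat_lit 1)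 (nat_lit 4) (nat_lit 10) (C.cons (nat_lit 1306) (C.miq (nat_lit 641796490) (nat_lit 99150935967331990374057857)) (C.cons (nat_lit 1050) (C.node (nat_lit 8) (nat_lit 4) (nat_lit 10) (C.cons (nat_lit 1296) (C.node (nat_lit 10) (nat_lit 3) (nat_lit 6) (C.cons (nat_lit 1352) (C.miq (nat_lit 1487340386) (nat_lit 2322349543276078681645384269)) C.nil)) C.nil)) (C.cons (nat_lit 1298) (C.miq (nat_lit 641796490) (nat_lit 99150935967331990373533569)) (C.cons (nat_lit 1042) (C.node (nat_lit 8) (nat_lit 10) (nat_lit 6) (C.cons (nat_lit 1354) (C.miq (nat_lit 1487340386) (nat_lit 2322349543276078690235318861)) (C.cons (nat_lit 1352) (C.miq (nat_lit 1487340386) (nat_lit 2322349543276078681645384269)) (C.cons (nat_lit 1346) (C.node (nat_lit 10) (nat_lit 3) (nat_lit 6) C.nil) C.nil)))) C.nil))))) C.nil)) C.nil))) C.nil))) C.nil))) C.nil)) C.nil))) C.nil)) C.nil))) C.nil))) (C.cons (nat_lit 592) (C.node (nat_lit 4) (nat_lit 7) (nat_lit 9) (C.cons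 (nat_lit 688) (C.node (nat_lit 6) (nat_lit 7) (nat_lit 9) (C.cons (nat_lit 704) (C.node (nat_lit 1) (nat_lit 4) (nat_lit 7) (C.cons (nat_lit 402) (C.node (nat_lit 4) (nat_lit 5) (nat_lit 8) (C.cons (nat_lit 304)
  (C.node (nat_lit 2) (nat_lit 7) (nat_lit 8) (C.cons (nat_lit 396) (C.miq (nat_lit 1445137016) (nat_lit 712062786756048764044838785)) (C.cons (nat_lit 388) (C.node (nat_lit 1) (nat_lit 7) (nat_lit 9) (C.cons (nat_lit 650) (C.miq (nat_lit 931303744) (nat_lit 469074083325695996168831507)) (C.cons (nat_lit 642) (C.node (nat_lit 3) (nat_lit 7) (nat_lit 9) (C.cons (nat_lit 648) (C.node (nat_lit 1) (nat_lit 2) (nat_lit 4) (C.cons (nat_lit 62) (C.miq (nat_lit 2807171393) (nat_lit 199491779370270193576968723)) (C.cons (nat_lit 54) (C.miq (nat_lit 2807171393) (nat_lit 199491779370270193576444435)) (C.cons (nat_lit 30) (C.miq (nat_lit 963715204) (nat_lit 776130929760711153389011221)) (C.cons (nat_lit 22) (C.node (nat_lit 1)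 (nat_lit 2) (nat_lit 7) (C.cons (nat_lit 142) (C.node (nat_lit 1) (nat_lit 4) (nat_lit 6) (C.cons (nat_lit 90) (C.miq (nat_lit 1410795058) (nat_lit 485991223517890525384278605)) (C.cons (nat_lit 82) (C.node (nat_lit 1) (nat_lit 4) (nat_lit 10) (C.cons (nat_lit 1050) (C.miq (nat_lit 1412893202) (nat_lit 184968694433851984051045383)) (C.cons (nat_lit 1042) (C.node (nat_lit 1) (nat_lit 5) (nat_lit 7) (C.cons (nat_lit 1186) (C.miq (nat_lit 352549474) (nat_lit 359053588197037537439319236)) (C.cons (nat_lit 162) (C.node (nat_lit 2) (nat_lit 3) (nat_lit 4) (C.cons (nat_lit 60) (C.miq (nat_lit 878781703) (nat_lit 99134536662951441075470501)) C.nil)) C.nil))) C.nil))) C.nil))) (C.cons (nat_lit 134) (C.node (nat_lit 2) (nat_lit 3) (nat_lit 7) (C.cons (nat_lit 140) (C.node (nat_lit 1) (nat_lit 4) (nat_lit 5) (C.cons (nat_lit 58) (C.node (nat_lit 1) (nat_lit 4) (nat_lit 6) (C.cons (nat_lit 82) (C.node (nat_lit 1) (nat_lit 4) (nat_lit 10)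 (C.cons (nat_lit 1042) (C.node (nat_lit 2) (nat_lit 3) (nat_lit 4) C.nil) C.nil)) C.nil)) (C.cons (nat_lit 50) (C.node (nat_lit 1) (nat_lit 4) (nat_lit 6) (C.cons (nat_lit 90) (C.node (nat_lit 3) (nat_lit 4) (nat_lit 9) (C.cons (nat_lit 536) (C.miq (nat_lit 2218357088) (nat_lit 648019675621960160914505923)) C.nil)) (C.cons (nat_lit 82) (C.node (nat_lit 1) (nat_lit 3) (nat_lit 4) (C.cons (nat_lit 1050) (C.node (nat_lit 4) (nat_lit 8) (nat_lit 10) C.nil) C.nil)) C.nil))) C.nil))) C.nil)) C.nil))) C.nil))))) C.nil)) C.nil))) C.nil))) C.nil)) (C.cons (nat_lit 146) (C.node (nat_lit 4) (nat_lit 7) (nat_lit 8) (C.cons (nat_lit 400) (C.node (nat_lit 1) (nat_lit 7) (nat_lit 9) (C.cons (nat_lit 650) (C.node (nat_lit 1) (nat_lit 9) (nat_lit 10) (C.cons (nat_lit 1570) (C.miq (nat_lit 832600404) (nat_lit 1246405342557491434718560944)) (C.cons (nat_lit 1538) (C.node (nat_lit 2) (nat_lit 3) (nat_lit 7) (C.cons (nat_lit 396) (C.miq (nat_lit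 1445137016) (nat_lit 712062786756048764044838785)) (C.cons (nat_lit 140) (C.node (nat_lit 3) (nat_lit 7) (nat_lit 10) (C.cons (nat_lit 1192) (C.miq (nat_lit 329291604) (nat_lit 1248830167065978931780846256)) (C.cons (nat_lit 1160) (C.node (nat_lit 3) (nat_lit 5) (nat_lit 7) (C.cons (nat_lit 232) (C.miq (nat_lit 391418720) (nat_lit 831750759298927743338611277)) (C.cons (nat_lit 168) (C.node (nat_lit 1) (nat_lit 2) (nat_lit 4) (C.cons (nat_lit 62) (C.miq (nat_lit 2266237234) (nat_lit 176508279952560499046875725)) (C.cons (nat_lit 54) (C.miq (nat_lit 2807171393) (nat_lit 199491779370270193576444435)) (C.cons (nat_lit 30) (C.miq (nat_lit 2266237234) (nat_lit 176508279952560499044778573)) (C.cons (nat_lit 22) (C.node (nat_lit 1) (nat_lit 2) (nat_lit 7) (C.cons (nat_lit 390) (C.node (nat_lit 1) (nat_lit 2) (nat_lit 9) (C.cons (nat_lit 550) (C.node (nat_lit 2) (nat_lit 8) (nat_lit 9) C.nil) C.nil)) (C.cons (nat_lit 134) (C.node (nat_lit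 2) (nat_lit 7) (nat_lit 8) (C.cons (nat_lit 388) (C.node (nat_lit 1) (nat_lit 7) (nat_lit 8) (C.cons (nat_lit 418) (C.node (nat_lit 1) (nat_lit 7) (nat_lit 10) C.nil) C.nil)) C.nil)) C.nil))) C.nil))))) C.nil))) C.nil))) C.nil))) C.nil))) (C.cons (nat_lit 642) (C.node (nat_lit 3) (nat_lit 7) (nat_lit 9) (C.cons (nat_lit 648) (C.node (nat_lit 3) (nat_lit 4) (nat_lit 9) (C.cons (nat_lit 792) (C.node (nat_lit 3) (nat_lit 4) (nat_lit 6)
  (C.cons (nat_lit 90) (C.miq (nat_lit 2216137568) (nat_lit 176538606082030023670432333)) (C.cons (nat_lit 88) (C.node (nat_lit 2) (nat_lit 4) (nat_lit 5) (C.cons (nat_lit 62) (C.miq (nat_lit 2220331808) (nat_lit 831776400313158916100129357)) (C.cons (nat_lit 60) (C.miq (nat_lit 2220331808) (nat_lit 831776400313158907510194765)) (C.cons (nat_lit 54) (C.miq (nat_lit 2807171393) (nat_lit 199491779370270193576444435)) (C.cons (nat_lit 52) (C.node (nat_lit 1) (nat_lit 2) (nat_lit 4) (C.cons (nat_lit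 30) (C.node (nat_lit 3) (nat_lit 4) (nat_lit 5) C.nil) (C.cons (nat_lit 22) (C.node (nat_lit 2) (nat_lit 3) (nat_lit 4) (C.cons (nat_lit 28) (C.node (nat_lit 1) (nat_lit 4) (nat_lit 6) C.nil) C.nil)) C.nil))) C.nil))))) C.nil))) (C.cons (nat_lit 536) (C.node (nat_lit 4) (nat_lit 8) (nat_lit 9) (C.cons (nat_lit 784) (C.node (nat_lit 3) (nat_lit 8) (nat_lit 9) (C.cons (nat_lit 778) (C.node (nat_lit 4) (nat_lit 5) (nat_lit 8) (C.cons (nat_lit 306) (C.miq (nat_lit 1669662996) (nat_lit 359071942539348775435108883)) (C.cons (nat_lit 304) (C.node (nat_lit 1) (nat_lit 2) (nat_lit 9) C.nil) C.nil))) (C.cons (nat_lit 776) (C.node (nat_lit 4) (nat_lit 5) (nat_lit 8) (C.cons (nat_lit 306) (C.node (nat_lit 1) (nat_lit 2) (nat_lit 4) C.nil) C.nil)) C.nil))) C.nil)) C.nil))) C.nil)) C.nil))) C.nil)) C.nil))) C.nil)) (C.cons (nat_lit 656) (C.node (nat_lit 6) (nat_lit 7) (nat_lit 9) (C.cons (nat_lit 736) (C.node (nat_lit 1) (nat_lit 6) (nat_lit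 9) (C.cons (nat_lit 834) (C.node (nat_lit 1) (nat_lit 2) (nat_lit 6) (C.cons (nat_lit 102) (C.miq (nat_lit 1386832135) (nat_lit 1861759339038882055139164355)) (C.cons (nat_lit 70) (C.node (nat_lit 2) (nat_lit 8) (nat_lit 9) (C.cons (nat_lit 804) (C.miq (nat_lit 2164430453) (nat_lit 1246417351439668909707690720)) (C.cons (nat_lit 772) (C.node (nat_lit 6) (nat_lit 8) (nat_lit 10) (C.cons (nat_lit 1352) (C.miq (nat_lit 1398933671) (nat_lit 712060351549392620936759169)) (C.cons (nat_lit 1344) (C.node (nat_lit 5) (nat_lit 7) (nat_lit 8) (C.cons (nat_lit 434) (C.miq (nat_lit 1382117528) (nat_lit 84632813306397933122488193)) (C.cons (nat_lit 432) (C.miq (nat_lit 643041656) (nat_lit 1374553766815733711593539457)) (C.cons (nat_lit 418) (C.miq (nat_lit 1382117528) (nat_lit 84632518158492753769662337)) (C.cons (nat_lit 416) (C.node (nat_lit 1) (nat_lit 2) (nat_lit 9) (C.cons (nat_lit 550) (C.node (nat_lit 4) (nat_lit 5) (nat_lit 7) (C.cons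 (nat_lit 178) (C.miq (nat_lit 844564756) (nat_lit 199475582754048214914171411)) (C.cons (nat_lit 176) (C.node (nat_lit 1) (nat_lit 2) (nat_lit 4) (C.cons (nat_lit 30) (C.node (nat_lit 1) (nat_lit 4) (nat_lit 6) (C.cons (nat_lit 82) (C.node (nat_lit 2) (nat_lit 4) (nat_lit 5) (C.cons (nat_lit 52) (C.node (nat_lit 1) (nat_lit 4) (nat_lit 7) (C.cons (nat_lit 402) (C.miq (nat_lit 1631819888) (nat_lit 36278639955450147330656129)) (C.cons (nat_lit 146) (C.node (nat_lit 1) (nat_lit 7) (nat_lit 9) (C.cons (nat_lit 650) (C.miq (nat_lit 2266237234) (nat_lit 176508279952560499044778573)) C.nil)) C.nil))) C.nil)) C.nil)) (C.cons (nat_lit 22) (C.node (nat_lit 1) (nat_lit 4) (nat_lit 6) (C.cons (nat_lit 90) (C.node (nat_lit 1) (nat_lit 5) (nat_lit 6) (C.cons (nat_lit 98) (C.node (nat_lit 1) (nat_lit 6) (nat_lit 10) (C.cons (nat_lit 1090) (C.node (nat_lit 3) (nat_lit 5) (nat_lit 6) (C.cons (nat_lit 104) (C.node (nat_lit 3) (nat_lit 6) (nat_lit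 10) (C.cons (nat_lit 1096) (C.node (nat_lit 4) (nat_lit 6) (nat_lit 8) (C.cons (nat_lit 336) (C.node (nat_lit 1) (nat_lit 4) (nat_lit 5) (C.cons (nat_lit 306) (C.miq (nat_lit 2014579043) (nat_lit 369934123694636817291280973)) C.nil)) C.nil)) C.nil)) C.nil)) C.nil)) C.nil)) (C.cons (nat_lit 82) (C.node (nat_lit 1) (nat_lit 4) (nat_lit 7) (C.cons (nat_lit 402) (C.miq (nat_lit 907282823) (nat_lit 99134739726035213198952321)) (C.cons (nat_lit 146) (C.node (nat_lit 4) (nat_lit 7) (nat_lit 8) (C.cons (nat_lit 400) (C.node (nat_lit 2) (nat_lit 3) (nat_lit 4) (C.cons (nat_lit 60) (C.node (nat_lit 3) (nat_lit 4) (nat_lit 9) (C.cons (nat_lit 792)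
  (C.miq (nat_lit 2220331808) (nat_lit 212806380670468770060632653)) C.nil)) C.nil)) C.nil)) C.nil))) C.nil))) C.nil))) C.nil))) (C.cons (nat_lit 518) (C.node (nat_lit 2) (nat_lit 5) (nat_lit 9) (C.cons (nat_lit 548) (C.node (nat_lit 1) (nat_lit 4) (nat_lit 6) (C.cons (nat_lit 90) (C.node (nat_lit 1) (nat_lit 5) (nat_lit 6) (C.cons (nat_lit 98) (C.node (nat_lit 1) (nat_lit 6) (nat_lit 10) (C.cons (nat_lit 1090) (C.node (nat_lit 3) (nat_lit 5) (nat_lit 6) (C.cons (nat_lit 104) (C.node (nat_lit 3) (nat_lit 6) (nat_lit 10) (C.cons (nat_lit 1096) (C.node (nat_lit 1) (nat_lit 4) (nat_lit 10) (C.cons (nat_lit 1298) (C.miq (nat_lit 964780196) (nat_lit 1008245793931364377564415089)) C.nil)) C.nil)) C.nil)) C.nil)) C.nil)) (C.cons (nat_lit 82) (C.node (nat_lit 3) (nat_lit 6) (nat_lit 7) (C.cons (nat_lit 456) (C.miq (nat_lit 873885848) (nat_lit 99140328966765156000466817)) (C.cons (nat_lit 200) (C.node (nat_lit 6) (nat_lit 7) (nat_lit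 8) (C.cons (nat_lit 448) (C.node (nat_lit 3) (nat_lit 8) (nat_lit 9) (C.cons (nat_lit 792) (C.miq (nat_lit 946293008) (nat_lit 541601589762128911400108563)) (C.cons (nat_lit 776) (C.node (nat_lit 4) (nat_lit 7) (nat_lit 8) (C.cons (nat_lit 402) (C.miq (nat_lit 907282823) (nat_lit 99134739726035213198952321)) (C.cons (nat_lit 400) (C.node (nat_lit 1) (nat_lit 7) (nat_lit 9) C.nil) C.nil))) C.nil))) C.nil)) C.nil))) C.nil))) C.nil)) C.nil))) C.nil))))) C.nil))) C.nil))) C.nil))) (C.cons (nat_lit 578) (C.node (nat_lit 6) (nat_lit 8) (nat_lit 9) (C.cons (nat_lit 832) (C.node (nat_lit 1) (nat_lit 7) (nat_lit 9) (C.cons (nat_lit 650) (C.node (nat_lit 1) (nat_lit 7) (nat_lit 10) (C.cons (nat_lit 1186) (C.miq (nat_lit 395486560) (nat_lit 778567246758793666571863153)) (C.cons (nat_lit 1154) (C.node (nat_lit 2) (nat_lit 3) (nat_lit 7) (C.cons (nat_lit 396) (C.miq (nat_lit 1445137016) (nat_lit 712062786756048764044838785)) (C.cons (nat_lit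 140) (C.node (nat_lit 3) (nat_lit 5) (nat_lit 6) (C.cons (nat_lit 106) (C.miq (nat_lit 1517379731) (nat_lit 1395102351510199180018188877)) (C.cons (nat_lit 104) (C.node (nat_lit 3) (nat_lit 9) (nat_lit 10) (C.cons (nat_lit 1576) (C.miq (nat_lit 374567081) (nat_lit 125740275678461849317672833)) (C.cons (nat_lit 1544) (C.node (nat_lit 3) (nat_lit 5) (nat_lit 9) (C.cons (nat_lit 568) (C.miq (nat_lit 1985155145) (nat_lit 125740275678461849251611155)) (C.cons (nat_lit 552) (C.node (nat_lit 1) (nat_lit 4) (nat_lit 7) (C.cons (nat_lit 434) (C.miq (nat_lit 643041656) (nat_lit 1374553766815733711593670529)) (C.cons (nat_lit 402) (C.miq (nat_lit 2184659089) (nat_lit 169257030415136814025802259)) (C.cons (nat_lit 178) (C.miq (nat_lit 928420160) (nat_lit 889780268551585986950267411)) (C.cons (nat_lit 146) (C.node (nat_lit 4) (nat_lit 5) (nat_lit 7) (C.cons (nat_lit 432) (C.miq (nat_lit 643041656) (nat_lit 1374553766815733711593539457))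 (C.cons (nat_lit 176) (C.node (nat_lit 4) (nat_lit 7) (nat_lit 8) (C.cons (nat_lit 400) (C.node (nat_lit 1) (nat_lit 2) (nat_lit 7) (C.cons (nat_lit 390) (C.node (nat_lit 1) (nat_lit 2) (nat_lit 9) C.nil) (C.cons (nat_lit 134) (C.node (nat_lit 2) (nat_lit 7) (nat_lit 8) (C.cons (nat_lit 388) (C.node (nat_lit 1) (nat_lit 9) (nat_lit 10) C.nil) C.nil)) C.nil))) C.nil)) C.nil))) C.nil))))) C.nil))) C.nil))) C.nil))) C.nil))) C.nil))) (C.cons (nat_lit 642) (C.node (nat_lit 3) (nat_lit 7) (nat_lit 9) (C.cons (nat_lit 648) (C.node (nat_lit 3) (nat_lit 5) (nat_lit 6) (C.cons (nat_lit 106) (C.node (nat_lit 3) (nat_lit 6) (nat_lit 10) (C.cons (nat_lit 1352) (C.miq (nat_lit 1398933671) (nat_lit 712060351549392620936759169)) (C.cons (nat_lit 1096) (C.node (nat_lit 5) (nat_lit 7) (nat_lit 8) (C.cons (nat_lit 434) (C.miq (nat_lit 643041656) (nat_lit 1374553766815733711593670529)) (C.cons (nat_lit 432) (C.miq (nat_lit 643041656) (nat_lit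 1374553766815733711593539457)) (C.cons (nat_lit 418) (C.miq (nat_lit 2555578134) (nat_lit 359061834098519505378083011)) (C.cons (nat_lit 416) (C.node (nat_lit 1) (nat_lit 2) (nat_lit 6) (C.cons (nat_lit 326)
  (C.node (nat_lit 1) (nat_lit 4) (nat_lit 6) (C.cons (nat_lit 82) (C.node (nat_lit 1) (nat_lit 6) (nat_lit 10) (C.cons (nat_lit 1090) (C.node (nat_lit 2) (nat_lit 5) (nat_lit 6) (C.cons (nat_lit 100) (C.node (nat_lit 5) (nat_lit 6) (nat_lit 8) (C.cons (nat_lit 352) (C.node (nat_lit 6) (nat_lit 8) (nat_lit 10) C.nil) C.nil)) C.nil)) C.nil)) C.nil)) (C.cons (nat_lit 70) (C.node (nat_lit 1) (nat_lit 4) (nat_lit 6) (C.cons (nat_lit 338) (C.node (nat_lit 1) (nat_lit 6) (nat_lit 10) (C.cons (nat_lit 1090) (C.node (nat_lit 3) (nat_lit 4) (nat_lit 6) (C.cons (nat_lit 88) (C.node (nat_lit 4) (nat_lit 7) (nat_lit 8) (C.cons (nat_lit 400) (C.node (nat_lit 6) (nat_lit 8) (nat_lit 10) (C.cons (nat_lit 1344) (C.node (nat_lit 2) (nat_lit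 5) (nat_lit 6) C.nil) C.nil)) C.nil)) C.nil)) C.nil)) (C.cons (nat_lit 82) (C.node (nat_lit 1) (nat_lit 6) (nat_lit 8) (C.cons (nat_lit 1346) (C.node (nat_lit 5) (nat_lit 8) (nat_lit 10) (C.cons (nat_lit 1316) (C.miq (nat_lit 1733824554) (nat_lit 502937970332097278948672519)) (C.cons (nat_lit 1312) (C.node (nat_lit 2) (nat_lit 7) (nat_lit 8) (C.cons (nat_lit 398) (C.miq (nat_lit 1175652999) (nat_lit 128148959551036799652333441)) (C.cons (nat_lit 396) (C.miq (nat_lit 1445137016) (nat_lit 712062786756048764044838785)) (C.cons (nat_lit 390) (C.miq (nat_lit 1444022919) (nat_lit 84627851405839033877006209)) (C.cons (nat_lit 388) (C.node (nat_lit 3) (nat_lit 4) (nat_lit 6) (C.cons (nat_lit 88) (C.node (nat_lit 4) (nat_lit 6) (nat_lit 8) (C.cons (nat_lit 336) (C.node (nat_lit 1) (nat_lit 4) (nat_lit 10) C.nil) C.nil)) C.nil)) C.nil))))) C.nil))) (C.cons (nat_lit 322) (C.node (nat_lit 1) (nat_lit 6) (nat_lit 10) (C.cons (nat_lit 1090)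 (C.node (nat_lit 6) (nat_lit 8) (nat_lit 10) (C.cons (nat_lit 1344) (C.node (nat_lit 3) (nat_lit 4) (nat_lit 6) C.nil) C.nil)) C.nil)) C.nil))) C.nil))) C.nil))) C.nil))))) C.nil))) (C.cons (nat_lit 104) (C.node (nat_lit 3) (nat_lit 6) (nat_lit 7) (C.cons (nat_lit 456) (C.node (nat_lit 3) (nat_lit 4) (nat_lit 6) (C.cons (nat_lit 90) (C.miq (nat_lit 2249814848) (nat_lit 698794560060974234990739609)) (C.cons (nat_lit 88) (C.node (nat_lit 4) (nat_lit 7) (nat_lit 8) (C.cons (nat_lit 434) (C.miq (nat_lit 643041656) (nat_lit 1374553766815733711593670529)) (C.cons (nat_lit 432) (C.miq (nat_lit 643041656) (nat_lit 1374553766815733711593539457)) (C.cons (nat_lit 402) (C.miq (nat_lit 409552688) (nat_lit 1005836077253629512308818073)) (C.cons (nat_lit 400) (C.node (nat_lit 1) (nat_lit 3) (nat_lit 6) (C.cons (nat_lit 1098) (C.node (nat_lit 6) (nat_lit 8) (nat_lit 10) (C.cons (nat_lit 1344) (C.node (nat_lit 1) (nat_lit 7) (nat_lit 10) (C.cons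 (nat_lit 1186) (C.miq (nat_lit 395486560) (nat_lit 778567246758793666571863153)) (C.cons (nat_lit 1154) (C.node (nat_lit 1) (nat_lit 4) (nat_lit 6) (C.cons (nat_lit 82) (C.node (nat_lit 4) (nat_lit 6) (nat_lit 8) C.nil) C.nil)) C.nil))) C.nil)) (C.cons (nat_lit 74) (C.node (nat_lit 3) (nat_lit 6) (nat_lit 10) (C.cons (nat_lit 1096) (C.node (nat_lit 1) (nat_lit 4) (nat_lit 6) (C.cons (nat_lit 338) (C.node (nat_lit 1) (nat_lit 6) (nat_lit 10) (C.cons (nat_lit 1090) (C.node (nat_lit 6) (nat_lit 8) (nat_lit 10) C.nil) C.nil)) (C.cons (nat_lit 82) (C.node (nat_lit 4) (nat_lit 6) (nat_lit 8) C.nil) C.nil))) C.nil)) C.nil))) C.nil))))) C.nil))) (C.cons (nat_lit 200) (C.node (nat_lit 6) (nat_lit 7) (nat_lit 8) (C.cons (nat_lit 448) (C.ref (nat_lit 138) (nat_lit 7229140141840)) C.nil)) C.nil))) C.nil))) C.nil)) C.nil))) C.nil)) C.nil))) (C.cons (nat_lit 704) (C.node (nat_lit 2) (nat_lit 3) (nat_lit 7) (C.cons (nat_lit 398) (C.miq (nat_lit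 1445137016) (nat_lit 712062786756048764044969857)) (C.cons (nat_lit 396) (C.miq (nat_lit 1445137016) (nat_lit 712062786756048764044838785)) (C.cons (nat_lit 142) (C.node (nat_lit 2) (nat_lit 7) (nat_lit 8) (C.cons (nat_lit 388) (C.ref (nat_lit 146) (nat_lit 11649936536080)) C.nil)) (C.cons (nat_lit 140) (C.node (nat_lit 1) (nat_lit 2) (nat_lit 7) (C.cons (nat_lit 390) (C.ref (nat_lit 146) (nat_lit 7229140141840))
  (C.cons (nat_lit 134) (C.node (nat_lit 2) (nat_lit 7) (nat_lit 8) (C.cons (nat_lit 388) (C.node (nat_lit 3) (nat_lit 6) (nat_lit 10) (C.cons (nat_lit 1354) (C.miq (nat_lit 1398933671) (nat_lit 712060351549392629526693761)) (C.cons (nat_lit 1352) (C.miq (nat_lit 1398933671) (nat_lit 712060351549392620936759169)) (C.cons (nat_lit 1098) (C.node (nat_lit 6) (nat_lit 8) (nat_lit 10) (C.cons (nat_lit 1344) (C.ref (nat_lit 147) (nat_lit 11649936536080)) C.nil)) (C.cons (nat_lit 1096) (C.node (nat_lit 1) (nat_lit 6) (nat_lit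 10) (C.cons (nat_lit 1346) (C.ref (nat_lit 147) (nat_lit 7229140141840)) (C.cons (nat_lit 1090) (C.node (nat_lit 6) (nat_lit 8) (nat_lit 10) (C.cons (nat_lit 1344) (C.node (nat_lit 2) (nat_lit 3) (nat_lit 8) (C.cons (nat_lit 1292) (C.node (nat_lit 2) (nat_lit 5) (nat_lit 10) (C.cons (nat_lit 1060) (C.node (nat_lit 3) (nat_lit 4) (nat_lit 10) (C.cons (nat_lit 1050) (C.node (nat_lit 4) (nat_lit 8) (nat_lit 10) (C.cons (nat_lit 1296) (C.node (nat_lit 1) (nat_lit 2) (nat_lit 3) (C.cons (nat_lit 46) (C.node (nat_lit 1) (nat_lit 2) (nat_lit 4) (C.cons (nat_lit 22) (C.node (nat_lit 2) (nat_lit 3) (nat_lit 4) C.nil) C.nil)) (C.cons (nat_lit 14) (C.node (nat_lit 1) (nat_lit 2) (nat_lit 4) (C.cons (nat_lit 54) (C.node (nat_lit 2) (nat_lit 3) (nat_lit 4) (C.cons (nat_lit 28) (C.node (nat_lit 2) (nat_lit 3) (nat_lit 5) C.nil) C.nil)) (C.cons (nat_lit 22) (C.node (nat_lit 1) (nat_lit 7) (nat_lit 10) C.nil) C.nil))) C.nil))) C.nil)) (C.cons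 (nat_lit 1048) (C.node (nat_lit 1) (nat_lit 4) (nat_lit 10) (C.cons (nat_lit 1298) (C.node (nat_lit 5) (nat_lit 8) (nat_lit 10) (C.cons (nat_lit 1312) (C.node (nat_lit 1) (nat_lit 7) (nat_lit 10) (C.cons (nat_lit 1194) (C.miq (nat_lit 2188460122) (nat_lit 162020003780137261705331825)) (C.cons (nat_lit 1186) (C.miq (nat_lit 2188460122) (nat_lit 162020003780137261704807537)) (C.cons (nat_lit 1162) (C.miq (nat_lit 2443379842) (nat_lit 1404782667673927303520059669)) C.nil)))) C.nil)) (C.cons (nat_lit 1042) (C.node (nat_lit 4) (nat_lit 8) (nat_lit 10) (C.cons (nat_lit 1296) (C.node (nat_lit 1) (nat_lit 8) (nat_lit 10) (C.cons (nat_lit 1282) (C.node (nat_lit 5) (nat_lit 8) (nat_lit 10) C.nil) C.nil)) C.nil)) C.nil))) C.nil))) C.nil)) (C.cons (nat_lit 270) (C.node (nat_lit 1) (nat_lit 8) (nat_lit 10) (C.cons (nat_lit 1314) (C.miq (nat_lit 1703086610) (nat_lit 359061833877846971938374663)) (C.cons (nat_lit 1298) (C.miq (nat_lit 916529224)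 (nat_lit 1317734124166639346754126101)) (C.cons (nat_lit 1282) (C.node (nat_lit 1) (nat_lit 2) (nat_lit 4) (C.cons (nat_lit 54) (C.node (nat_lit 1) (nat_lit 2) (nat_lit 6) (C.cons (nat_lit 70) (C.node (nat_lit 1) (nat_lit 2) (nat_lit 9) (C.cons (nat_lit 518) (C.node (nat_lit 2) (nat_lit 3) (nat_lit 4) (C.cons (nat_lit 28) (C.node (nat_lit 3) (nat_lit 7) (nat_lit 8) C.nil) C.nil)) C.nil)) C.nil)) (C.cons (nat_lit 22) (C.node (nat_lit 1) (nat_lit 2) (nat_lit 6) (C.cons (nat_lit 102) (C.node (nat_lit 1) (nat_lit 2) (nat_lit 9) (C.cons (nat_lit 518) (C.node (nat_lit 2) (nat_lit 6) (nat_lit 8) (C.cons (nat_lit 324) (C.node (nat_lit 1) (nat_lit 4) (nat_lit 10) C.nil) C.nil)) C.nil)) (C.cons (nat_lit 70) (C.node (nat_lit 1) (nat_lit 2) (nat_lit 5) (C.cons (nat_lit 550) (C.node (nat_lit 2) (nat_lit 8) (nat_lit 9) (C.cons (nat_lit 772) (C.node (nat_lit 1) (nat_lit 4) (nat_lit 7) (C.cons (nat_lit 434) (C.miq (nat_lit 844564756) (nat_lit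 199475582754048214930948627)) C.nil)) C.nil)) (C.cons (nat_lit 38) (C.node (nat_lit 1) (nat_lit 2) (nat_lit 9) (C.cons (nat_lit 518) (C.node (nat_lit 1) (nat_lit 4) (nat_lit 10) C.nil) C.nil)) C.nil))) C.nil))) C.nil))) C.nil)))) (C.cons (nat_lit 268) (C.node (nat_lit 2) (nat_lit 3) (nat_lit 10) (C.cons (nat_lit 1068) (C.node (nat_lit 2) (nat_lit 8) (nat_lit 10) (C.cons (nat_lit 1284) (C.node (nat_lit 5) (nat_lit 7) (nat_lit 10) (C.cons (nat_lit 1186) (C.miq (nat_lit 439776544) (nat_lit 1324986295746561858283045029)) (C.cons (nat_lit 1184) (C.node (nat_lit 1) (nat_lit 2) (nat_lit 3) (C.cons (nat_lit 30)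
  (C.node (nat_lit 2) (nat_lit 4) (nat_lit 5) C.nil) (C.cons (nat_lit 14) (C.node (nat_lit 2) (nat_lit 3) (nat_lit 4) (C.cons (nat_lit 28) (C.node (nat_lit 1) (nat_lit 2) (nat_lit 4) C.nil) C.nil)) C.nil))) C.nil))) C.nil)) (C.cons (nat_lit 1036) (C.node (nat_lit 2) (nat_lit 5) (nat_lit 10) (C.cons (nat_lit 1316) (C.node (nat_lit 2) (nat_lit 5) (nat_lit 6) (C.cons (nat_lit 102) (C.miq (nat_lit 2182587744) (nat_lit 162031496394147412909950065)) (C.cons (nat_lit 100) (C.node (nat_lit 1) (nat_lit 2) (nat_lit 6) (C.cons (nat_lit 326) (C.node (nat_lit 2) (nat_lit 8) (nat_lit 9) C.nil) (C.cons (nat_lit 70) (C.node (nat_lit 3) (nat_lit 6) (nat_lit 7) C.nil) C.nil))) C.nil))) (C.cons (nat_lit 1060) (C.node (nat_lit 2) (nat_lit 8) (nat_lit 10) (C.cons (nat_lit 1284) (C.node (nat_lit 5) (nat_lit 8) (nat_lit 10) (C.cons (nat_lit 1314) (C.node (nat_lit 1) (nat_lit 7) (nat_lit 10) C.nil) (C.cons (nat_lit 1312) (C.node (nat_lit 3) (nat_lit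 6) (nat_lit 7) C.nil) C.nil))) C.nil)) C.nil))) C.nil))) C.nil)))) C.nil)) C.nil))) C.nil))))) C.nil)) C.nil))) C.nil))))) C.nil))) C.nil))) C.nil))) C.nil)))) List.nil)

theorem ok11_148 : okL par11 (nat_lit 149) c11_148 (nat_lit 148) = true := by decide +kernel

noncomputable def c11_149 : List C :=
  (List.cons (C.node (nat_lit 2) (nat_lit 4) (nat_lit 10) (C.cons (nat_lit 1556) (C.miq (nat_lit 338037159) (nat_lit 101553366112193119720310657)) (C.cons (nat_lit 1052) (C.node (nat_lit 4) (nat_lit 9) (nat_lit 10) (C.cons (nat_lit 1552) (C.node (nat_lit 2) (nat_lit 3) (nat_lit 7) (C.cons (nat_lit 398) (C.miq (nat_lit 1445137016) (nat_lit 712062786756048764044969857)) (C.cons (nat_lit 396) (C.miq (nat_lit 1445137016) (nat_lit 712062786756048764044838785)) (C.cons (nat_lit 142) (C.miq (nat_lit 1681328673) (nat_lit 184969247836174203927528455)) (C.cons (nat_lit 140) (C.node (nat_lit 1) (nat_lit 4) (nat_lit 10) (C.cons (nat_lit 1298)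 (C.node (nat_lit 1) (nat_lit 6) (nat_lit 10) (C.cons (nat_lit 1098) (C.miq (nat_lit 2170571314) (nat_lit 235745644938320342296626204)) (C.cons (nat_lit 1090) (C.node (nat_lit 2) (nat_lit 3) (nat_lit 8) (C.cons (nat_lit 270) (C.miq (nat_lit 916529224) (nat_lit 1317734124166639346754126101)) (C.cons (nat_lit 268) (C.node (nat_lit 3) (nat_lit 6) (nat_lit 10) (C.cons (nat_lit 1352) (C.miq (nat_lit 1398933671) (nat_lit 712060351549392620936759169)) (C.cons (nat_lit 1096) (C.node (nat_lit 3) (nat_lit 8) (nat_lit 10) (C.cons (nat_lit 1288) (C.node (nat_lit 6) (nat_lit 8) (nat_lit 10) (C.cons (nat_lit 1344) (C.node (nat_lit 3) (nat_lit 4) (nat_lit 8) (C.cons (nat_lit 792) (C.miq (nat_lit 338864272) (nat_lit 1271808981193087807761745793)) (C.cons (nat_lit 344) (C.miq (nat_lit 405972064) (nat_lit 324011138615216610646754417)) (C.cons (nat_lit 280) (C.node (nat_lit 3) (nat_lit 8) (nat_lit 9) (C.cons (nat_lit 778) (C.miq (nat_lit 950440256)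 (nat_lit 1624807166913314132553957907)) (C.cons (nat_lit 776) (C.node (nat_lit 1) (nat_lit 4) (nat_lit 6) (C.cons (nat_lit 90) (C.miq (nat_lit 328746506) (nat_lit 938150379920095192335582321)) (C.cons (nat_lit 82) (C.node (nat_lit 3) (nat_lit 4) (nat_lit 6) (C.cons (nat_lit 88) (C.node (nat_lit 4) (nat_lit 6) (nat_lit 9) (C.cons (nat_lit 848) (C.miq (nat_lit 342010000) (nat_lit 101568787806127007164336001)) (C.cons (nat_lit 720) (C.miq (nat_lit 641836944) (nat_lit 99150936144942150871877505)) (C.cons (nat_lit 592) (C.node (nat_lit 1) (nat_lit 2) (nat_lit 3) (C.cons (nat_lit 46) (C.node (nat_lit 1) (nat_lit 3) (nat_lit 4) (C.cons (nat_lit 26) (C.node (nat_lit 2) (nat_lit 7) (nat_lit 8) (C.cons (nat_lit 390) (C.miq (nat_lit 1092986992) (nat_lit 55631562015640944615163777)) (C.cons (nat_lit 388) (C.node (nat_lit 1) (nat_lit 2) (nat_lit 9) (C.cons (nat_lit 774) (C.miq (nat_lit 641831080) (nat_lit 99146195154106288264316801)) (C.cons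 (nat_lit 646) (C.miq (nat_lit 342003879) (nat_lit 101561685593768563136792449)) (C.cons (nat_lit 518) (C.node (nat_lit 1) (nat_lit 2) (nat_lit 4) (C.cons (nat_lit 150) (C.node (nat_lit 1) (nat_lit 4) (nat_lit 5) (C.cons (nat_lit 50) (C.node (nat_lit 2) (nat_lit 7) (nat_lit 9) (C.cons (nat_lit 644) (C.node (nat_lit 1) (nat_lit 2) (nat_lit 6) (C.cons (nat_lit 326) (C.node (nat_lit 1) (nat_lit 3) (nat_lit 6) (C.cons (nat_lit 74) (C.node (nat_lit 2) (nat_lit 5) (nat_lit 6) C.nil) C.nil)) (C.cons (nat_lit 70) (C.node (nat_lit 1) (nat_lit 2) (nat_lit 8) (C.cons (nat_lit 262) (C.node (nat_lit 2) (nat_lit 4) (nat_lit 5) (C.cons (nat_lit 52) (C.node (nat_lit 2) (nat_lit 4) (nat_lit 9) C.nil) C.nil)) C.nil)) C.nil))) C.nil)) C.nil)) (C.cons (nat_lit 22) (C.node (nat_lit 1) (nat_lit 2) (nat_lit 7) (C.cons (nat_lit 134) (C.node (nat_lit 1) (nat_lit 2) (nat_lit 6) (C.cons (nat_lit 326) (C.node (nat_lit 1) (nat_lit 3) (nat_lit 6) (C.cons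 (nat_lit 74) (C.node (nat_lit 2) (nat_lit 5) (nat_lit 6) (C.cons (nat_lit 100) (C.node (nat_lit 2) (nat_lit 4) (nat_lit 5) C.nil) C.nil)) C.nil)) (C.cons (nat_lit 70) (C.node (nat_lit 1) (nat_lit 2) (nat_lit 8) (C.cons (nat_lit 262) (C.node (nat_lit 2) (nat_lit 5) (nat_lit 6) (C.cons (nat_lit 100) (C.node (nat_lit 2) (nat_lit 6) (nat_lit 8) (C.cons (nat_lit 324) (C.node (nat_lit 1) (nat_lit 3) (nat_lit 6) C.nil) C.nil)) C.nil)) C.nil)) C.nil))) C.nil)) C.nil))) C.nil)))) C.nil))) C.nil)) (C.cons (nat_lit 14)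
  (C.node (nat_lit 2) (nat_lit 3) (nat_lit 5) (C.cons (nat_lit 44) (C.node (nat_lit 1) (nat_lit 3) (nat_lit 4) (C.cons (nat_lit 58) (C.node (nat_lit 3) (nat_lit 4) (nat_lit 9) (C.cons (nat_lit 536) (C.node (nat_lit 2) (nat_lit 7) (nat_lit 8) (C.cons (nat_lit 390) (C.miq (nat_lit 625045672) (nat_lit 70124891814285493478229889)) (C.cons (nat_lit 388) (C.node (nat_lit 1) (nat_lit 2) (nat_lit 4) (C.cons (nat_lit 150) (C.node (nat_lit 2) (nat_lit 7) (nat_lit 9) (C.cons (nat_lit 644) (C.node (nat_lit 1) (nat_lit 3) (nat_lit 6) (C.cons (nat_lit 330) (C.node (nat_lit 3) (nat_lit 7) (nat_lit 8) (C.cons (nat_lit 392) (C.node (nat_lit 4) (nat_lit 6) (nat_lit 7) (C.cons (nat_lit 464) (C.node (nat_lit 1) (nat_lit 2) (nat_lit 6) C.nil) C.nil)) C.nil)) (C.cons (nat_lit 74) (C.node (nat_lit 4) (nat_lit 6) (nat_lit 7) (C.cons (nat_lit 208) (C.node (nat_lit 4) (nat_lit 6) (nat_lit 8) C.nil) C.nil)) C.nil))) C.nil)) (C.cons (nat_lit 22) (C.node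 (nat_lit 1) (nat_lit 4) (nat_lit 7) (C.cons (nat_lit 146) (C.node (nat_lit 1) (nat_lit 2) (nat_lit 7) (C.cons (nat_lit 646) (C.miq (nat_lit 1645520784) (nat_lit 26617342322935895774398337)) (C.cons (nat_lit 134) (C.node (nat_lit 1) (nat_lit 3) (nat_lit 6) (C.cons (nat_lit 330) (C.node (nat_lit 3) (nat_lit 7) (nat_lit 8) (C.cons (nat_lit 392) (C.node (nat_lit 1) (nat_lit 2) (nat_lit 6) C.nil) C.nil)) (C.cons (nat_lit 74) (C.node (nat_lit 1) (nat_lit 3) (nat_lit 8) C.nil) C.nil))) C.nil))) C.nil)) C.nil))) C.nil))) C.nil)) (C.cons (nat_lit 26) (C.node (nat_lit 2) (nat_lit 7) (nat_lit 8) (C.cons (nat_lit 390) (C.node (nat_lit 1) (nat_lit 2) (nat_lit 4) (C.cons (nat_lit 54) (C.node (nat_lit 1) (nat_lit 2) (nat_lit 6) (C.cons (nat_lit 70) (C.node (nat_lit 1) (nat_lit 2) (nat_lit 9) (C.cons (nat_lit 518) (C.node (nat_lit 1) (nat_lit 4) (nat_lit 7) (C.cons (nat_lit 146) (C.node (nat_lit 1) (nat_lit 3) (nat_lit 8) (C.cons (nat_lit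 266) (C.node (nat_lit 1) (nat_lit 3) (nat_lit 6) C.nil) C.nil)) C.nil)) C.nil)) C.nil)) (C.cons (nat_lit 22) (C.miq (nat_lit 1410468487) (nat_lit 26599412064336627332679553)) C.nil))) (C.cons (nat_lit 388) (C.node (nat_lit 2) (nat_lit 8) (nat_lit 10) (C.cons (nat_lit 1316) (C.node (nat_lit 2) (nat_lit 9) (nat_lit 10) (C.cons (nat_lit 1540) (C.node (nat_lit 2) (nat_lit 5) (nat_lit 6) (C.cons (nat_lit 102) (C.miq (nat_lit 394420389) (nat_lit 469065099633267509337261169)) (C.cons (nat_lit 100) (C.node (nat_lit 2) (nat_lit 8) (nat_lit 9) (C.cons (nat_lit 774) (C.miq (nat_lit 641831080) (nat_lit 99146195154106288264316801)) (C.cons (nat_lit 772) (C.node (nat_lit 4) (nat_lit 8) (nat_lit 9) (C.cons (nat_lit 816) (C.miq (nat_lit 310970964) (nat_lit 933300528253803215864202353)) (C.cons (nat_lit 784) (C.node (nat_lit 3) (nat_lit 4) (nat_lit 5) C.nil) C.nil))) C.nil))) C.nil))) C.nil)) (C.cons (nat_lit 1284) (C.node (nat_lit 5) (nat_lit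 8) (nat_lit 10) (C.cons (nat_lit 1312) (C.node (nat_lit 2) (nat_lit 5) (nat_lit 10) (C.cons (nat_lit 1572) (C.node (nat_lit 1) (nat_lit 9) (nat_lit 10) (C.cons (nat_lit 1546) (C.miq (nat_lit 588515752) (nat_lit 31437181223884177475241857)) (C.cons (nat_lit 1538) (C.node (nat_lit 3) (nat_lit 9) (nat_lit 10) (C.cons (nat_lit 1544) (C.node (nat_lit 3) (nat_lit 6) (nat_lit 8) C.nil) C.nil)) C.nil))) (C.cons (nat_lit 1060) (C.node (nat_lit 2) (nat_lit 9) (nat_lit 10) (C.cons (nat_lit 1540) (C.node (nat_lit 1) (nat_lit 3) (nat_lit 8) C.nil) C.nil)) C.nil))) C.nil)) C.nil))) C.nil))) C.nil))) C.nil)) C.nil))) C.nil)))) C.nil)) C.nil))) C.nil))) C.nil)))) C.nil)) C.nil)) C.nil))) C.nil))) C.nil))) (C.cons (nat_lit 1042) (C.node (nat_lit 4) (nat_lit 8) (nat_lit 10) (C.cons (nat_lit 1296) (C.node (nat_lit 2) (nat_lit 3) (nat_lit 5) (C.cons (nat_lit 46) (C.node (nat_lit 2) (nat_lit 3) (nat_lit 8) (C.cons (nat_lit 268) (C.node (nat_lit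 3) (nat_lit 8) (nat_lit 10) (C.cons (nat_lit 1354) (C.miq (nat_lit 1398933671) (nat_lit 712060351549392629526693761)) (C.cons (nat_lit 1352) (C.miq (nat_lit 1398933671) (nat_lit 712060351549392620936759169)) (C.cons (nat_lit 1290)
  (C.miq (nat_lit 2016741906) (nat_lit 359054012679035997735748615)) (C.cons (nat_lit 1288) (C.node (nat_lit 1) (nat_lit 2) (nat_lit 4) (C.cons (nat_lit 150) (C.node (nat_lit 2) (nat_lit 7) (nat_lit 8) (C.cons (nat_lit 388) (C.node (nat_lit 2) (nat_lit 7) (nat_lit 9) (C.cons (nat_lit 644) (C.node (nat_lit 1) (nat_lit 2) (nat_lit 6) (C.cons (nat_lit 326) (C.node (nat_lit 1) (nat_lit 2) (nat_lit 9) (C.cons (nat_lit 518) (C.node (nat_lit 2) (nat_lit 5) (nat_lit 6) (C.cons (nat_lit 100) (C.node (nat_lit 6) (nat_lit 8) (nat_lit 10) (C.cons (nat_lit 1344) (C.node (nat_lit 1) (nat_lit 8) (nat_lit 10) (C.cons (nat_lit 1314) (C.miq (nat_lit 2555578898) (nat_lit 359061834098523353664848903)) (C.cons (nat_lit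 1282) (C.node (nat_lit 1) (nat_lit 4) (nat_lit 5) (C.cons (nat_lit 306) (C.node (nat_lit 1) (nat_lit 5) (nat_lit 6) (C.cons (nat_lit 610) (C.miq (nat_lit 2441241920) (nat_lit 394120682498329575951762545)) (C.cons (nat_lit 98) (C.node (nat_lit 1) (nat_lit 6) (nat_lit 9) (C.cons (nat_lit 578) (C.node (nat_lit 1) (nat_lit 8) (nat_lit 9) (C.cons (nat_lit 778) (C.miq (nat_lit 2014644530) (nat_lit 369934345055565461284848205)) (C.cons (nat_lit 770) (C.node (nat_lit 1) (nat_lit 3) (nat_lit 4) (C.cons (nat_lit 90) (C.node (nat_lit 1) (nat_lit 6) (nat_lit 10) (C.cons (nat_lit 1090) (C.node (nat_lit 1) (nat_lit 3) (nat_lit 8) C.nil) C.nil)) (C.cons (nat_lit 26) (C.node (nat_lit 1) (nat_lit 4) (nat_lit 6) (C.cons (nat_lit 82) (C.node (nat_lit 1) (nat_lit 3) (nat_lit 6) (C.cons (nat_lit 1098) (C.node (nat_lit 1) (nat_lit 3) (nat_lit 8) C.nil) (C.cons (nat_lit 74) (C.node (nat_lit 1) (nat_lit 6) (nat_lit 10) C.nil) C.nil))) C.nil)) C.nil)))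 C.nil))) C.nil)) C.nil))) (C.cons (nat_lit 50) (C.node (nat_lit 1) (nat_lit 4) (nat_lit 8) (C.cons (nat_lit 282) (C.miq (nat_lit 1966153860) (nat_lit 55613354760328645250253077)) (C.cons (nat_lit 274) (C.node (nat_lit 1) (nat_lit 3) (nat_lit 4) (C.cons (nat_lit 90) (C.node (nat_lit 1) (nat_lit 6) (nat_lit 10) (C.cons (nat_lit 1090) (C.node (nat_lit 3) (nat_lit 6) (nat_lit 10) (C.cons (nat_lit 1096) (C.node (nat_lit 3) (nat_lit 4) (nat_lit 8) (C.cons (nat_lit 792) (C.miq (nat_lit 2216137568) (nat_lit 181374309360488540369257037)) (C.cons (nat_lit 280) (C.node (nat_lit 1) (nat_lit 3) (nat_lit 8) (C.cons (nat_lit 778) (C.miq (nat_lit 2169148256) (nat_lit 1259736140452797114594951757)) (C.cons (nat_lit 394) (C.miq (nat_lit 2202693984) (nat_lit 1271825398540857015285121219)) C.nil))) C.nil))) C.nil)) C.nil)) (C.cons (nat_lit 26) (C.node (nat_lit 1) (nat_lit 4) (nat_lit 6) (C.cons (nat_lit 82) (C.node (nat_lit 1) (nat_lit 3) (nat_lit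 6) (C.cons (nat_lit 1098) (C.node (nat_lit 1) (nat_lit 7) (nat_lit 10) (C.cons (nat_lit 1186) (C.miq (nat_lit 829581904) (nat_lit 181349738383518409402156145)) (C.cons (nat_lit 1154) (C.node (nat_lit 1) (nat_lit 5) (nat_lit 10) C.nil) C.nil))) (C.cons (nat_lit 74) (C.node (nat_lit 1) (nat_lit 6) (nat_lit 10) C.nil) C.nil))) C.nil)) C.nil))) C.nil))) C.nil))) C.nil))) C.nil)) C.nil)) C.nil)) (C.cons (nat_lit 70) (C.node (nat_lit 1) (nat_lit 2) (nat_lit 8) (C.cons (nat_lit 774) (C.node (nat_lit 2) (nat_lit 8) (nat_lit 10) (C.cons (nat_lit 1316) (C.miq (nat_lit 1377085584) (nat_lit 181359847260630577656825729)) (C.cons (nat_lit 1284) (C.node (nat_lit 5) (nat_lit 8) (nat_lit 10) (C.cons (nat_lit 1314) (C.miq (nat_lit 1361488016) (nat_lit 84645781690897293730711425)) (C.cons (nat_lit 1312) (C.node (nat_lit 4) (nat_lit 6) (nat_lit 9) (C.cons (nat_lit 848) (C.miq (nat_lit 440934505) (nat_lit 1566782140290678046034231885)) (C.cons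 (nat_lit 720) (C.miq (nat_lit 308546169) (nat_lit 101559564358937931343202177)) (C.cons (nat_lit 592) (C.node (nat_lit 6) (nat_lit 8) (nat_lit 9) (C.cons (nat_lit 864) (C.miq (nat_lit 441983081) (nat_lit 1586124953404512112830579277)) (C.cons (nat_lit 832) (C.node (nat_lit 5) (nat_lit 8) (nat_lit 9) (C.cons (nat_lit 816) (C.miq (nat_lit 1479166224) (nat_lit 1552281726562882573451067923)) (C.cons (nat_lit 800) (C.node (nat_lit 1) (nat_lit 4) (nat_lit 5)
  (C.cons (nat_lit 306) (C.node (nat_lit 1) (nat_lit 5) (nat_lit 6) (C.cons (nat_lit 610) (C.node (nat_lit 6) (nat_lit 7) (nat_lit 9) (C.cons (nat_lit 704) (C.node (nat_lit 1) (nat_lit 7) (nat_lit 9) (C.cons (nat_lit 650) (C.miq (nat_lit 1108543639) (nat_lit 55613410132088112494020481)) (C.cons (nat_lit 642) (C.node (nat_lit 1) (nat_lit 9) (nat_lit 10) (C.cons (nat_lit 1546) (C.node (nat_lit 3) (nat_lit 6) (nat_lit 10) (C.cons (nat_lit 1096) (C.node (nat_lit 2) (nat_lit 5) (nat_lit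 10) (C.cons (nat_lit 1060) (C.node (nat_lit 2) (nat_lit 9) (nat_lit 10) C.nil) C.nil)) C.nil)) C.nil)) C.nil))) C.nil)) (C.cons (nat_lit 98) (C.miq (nat_lit 2521899080) (nat_lit 118489008267940354994602261)) C.nil))) (C.cons (nat_lit 50) (C.node (nat_lit 1) (nat_lit 6) (nat_lit 9) (C.cons (nat_lit 610) (C.miq (nat_lit 2219909225) (nat_lit 60460568838617961894904397)) (C.cons (nat_lit 578) (C.node (nat_lit 2) (nat_lit 5) (nat_lit 6) (C.cons (nat_lit 356) (C.miq (nat_lit 2235639305) (nat_lit 60460568860854485049868877)) (C.cons (nat_lit 100) (C.node (nat_lit 2) (nat_lit 5) (nat_lit 8) (C.cons (nat_lit 292) (C.node (nat_lit 2) (nat_lit 6) (nat_lit 8) (C.cons (nat_lit 324) (C.node (nat_lit 1) (nat_lit 8) (nat_lit 10) (C.cons (nat_lit 1346) (C.node (nat_lit 1) (nat_lit 5) (nat_lit 6) C.nil) C.nil)) C.nil)) C.nil)) C.nil))) C.nil))) C.nil))) C.nil))) C.nil))) C.nil)))) C.nil))) C.nil))) (C.cons (nat_lit 262) (C.node (nat_lit 1) (nat_lit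 2) (nat_lit 9) (C.cons (nat_lit 518) (C.node (nat_lit 1) (nat_lit 4) (nat_lit 5) (C.cons (nat_lit 306) (C.node (nat_lit 1) (nat_lit 5) (nat_lit 6) (C.cons (nat_lit 610) (C.miq (nat_lit 2441241920) (nat_lit 316749430042993308770567281)) (C.cons (nat_lit 98) (C.node (nat_lit 2) (nat_lit 5) (nat_lit 6) (C.cons (nat_lit 356) (C.miq (nat_lit 2457929300) (nat_lit 316748360125926273855915121)) (C.cons (nat_lit 100) (C.node (nat_lit 2) (nat_lit 6) (nat_lit 8) (C.cons (nat_lit 324) (C.node (nat_lit 1) (nat_lit 3) (nat_lit 4) (C.cons (nat_lit 90) (C.node (nat_lit 3) (nat_lit 6) (nat_lit 10) (C.cons (nat_lit 1096) (C.node (nat_lit 1) (nat_lit 6) (nat_lit 9) (C.cons (nat_lit 834) (C.miq (nat_lit 2168952368) (nat_lit 181374309372310489388352077)) (C.cons (nat_lit 578) (C.node (nat_lit 1) (nat_lit 6) (nat_lit 10) (C.cons (nat_lit 1346) (C.node (nat_lit 1) (nat_lit 7) (nat_lit 8) (C.cons (nat_lit 394) (C.miq (nat_lit 950301024) (nat_lit 1566770684683309609905094851))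 (C.cons (nat_lit 386) (C.miq (nat_lit 931217574) (nat_lit 466647026621287417453347953)) C.nil))) C.nil)) C.nil))) C.nil)) (C.cons (nat_lit 26) (C.node (nat_lit 1) (nat_lit 4) (nat_lit 6) (C.cons (nat_lit 82) (C.node (nat_lit 1) (nat_lit 6) (nat_lit 9) (C.cons (nat_lit 834) (C.node (nat_lit 1) (nat_lit 8) (nat_lit 10) (C.cons (nat_lit 1282) (C.node (nat_lit 6) (nat_lit 8) (nat_lit 10) C.nil) C.nil)) (C.cons (nat_lit 578) (C.node (nat_lit 1) (nat_lit 8) (nat_lit 9) (C.cons (nat_lit 778) (C.miq (nat_lit 2014644530) (nat_lit 369934345055565461284848205)) (C.cons (nat_lit 770) (C.node (nat_lit 1) (nat_lit 7) (nat_lit 8) (C.cons (nat_lit 394) (C.node (nat_lit 1) (nat_lit 3) (nat_lit 6) C.nil) C.nil)) C.nil))) C.nil))) C.nil)) C.nil))) C.nil)) C.nil))) C.nil))) (C.cons (nat_lit 50) (C.node (nat_lit 2) (nat_lit 4) (nat_lit 5) (C.cons (nat_lit 564) (C.node (nat_lit 2) (nat_lit 8) (nat_lit 9) (C.cons (nat_lit 772) (C.node (nat_lit 2)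 (nat_lit 9) (nat_lit 10) (C.cons (nat_lit 1540) (C.node (nat_lit 3) (nat_lit 4) (nat_lit 5) (C.cons (nat_lit 56) (C.node (nat_lit 4) (nat_lit 7) (nat_lit 9) (C.cons (nat_lit 720) (C.miq (nat_lit 308546169) (nat_lit 101559564358937931343202177)) (C.cons (nat_lit 656) (C.node (nat_lit 2) (nat_lit 5) (nat_lit 6) (C.cons (nat_lit 356) (C.node (nat_lit 2) (nat_lit 5) (nat_lit 10) (C.cons (nat_lit 1060) (C.node (nat_lit 2) (nat_lit 8) (nat_lit 10) (C.cons (nat_lit 1284) (C.node (nat_lit 1) (nat_lit 5) (nat_lit 6) (C.cons (nat_lit 610) (C.miq (nat_lit 2215977110) (nat_lit 60452858099592548552147533)) (C.cons (nat_lit 98)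
  (C.node (nat_lit 4) (nat_lit 5) (nat_lit 7) (C.cons (nat_lit 432) (C.miq (nat_lit 847709780) (nat_lit 469066040528109687666639985)) C.nil)) C.nil))) C.nil)) C.nil)) (C.cons (nat_lit 100) (C.node (nat_lit 2) (nat_lit 6) (nat_lit 8) (C.cons (nat_lit 324) (C.node (nat_lit 2) (nat_lit 5) (nat_lit 8) (C.cons (nat_lit 1316) (C.node (nat_lit 1) (nat_lit 8) (nat_lit 10) (C.cons (nat_lit 1346) (C.miq (nat_lit 405236304) (nat_lit 469066815504441463988880497)) (C.cons (nat_lit 1282) (C.node (nat_lit 6) (nat_lit 8) (nat_lit 10) C.nil) C.nil))) (C.cons (nat_lit 292) (C.node (nat_lit 2) (nat_lit 8) (nat_lit 10) C.nil) C.nil))) C.nil)) C.nil))) C.nil))) C.nil)) C.nil)) C.nil)) (C.cons (nat_lit 52) (C.node (nat_lit 2) (nat_lit 4) (nat_lit 9) (C.cons (nat_lit 532) (C.node (nat_lit 2) (nat_lit 5) (nat_lit 6) (C.cons (nat_lit 356) (C.node (nat_lit 2) (nat_lit 8) (nat_lit 9) (C.cons (nat_lit 772) (C.node (nat_lit 2) (nat_lit 8) (nat_lit 10)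 (C.cons (nat_lit 1284) (C.node (nat_lit 1) (nat_lit 5) (nat_lit 6) (C.cons (nat_lit 610) (C.miq (nat_lit 2215977110) (nat_lit 60452858099592548552147533)) (C.cons (nat_lit 98) (C.node (nat_lit 2) (nat_lit 5) (nat_lit 9) (C.cons (nat_lit 1572) (C.node (nat_lit 3) (nat_lit 5) (nat_lit 6) (C.cons (nat_lit 232) (C.miq (nat_lit 1114048595) (nat_lit 1474892322359660968275345705)) (C.cons (nat_lit 104) (C.node (nat_lit 5) (nat_lit 6) (nat_lit 7) (C.cons (nat_lit 736) (C.miq (nat_lit 627157360) (nat_lit 118493749357855478166783873)) (C.cons (nat_lit 224) (C.node (nat_lit 5) (nat_lit 6) (nat_lit 9) (C.cons (nat_lit 608) (C.node (nat_lit 5) (nat_lit 8) (nat_lit 10) (C.cons (nat_lit 1314) (C.miq (nat_lit 2555578898) (nat_lit 359061834098523353664848903)) (C.cons (nat_lit 1312) (C.node (nat_lit 1) (nat_lit 5) (nat_lit 10) C.nil) C.nil))) C.nil)) C.nil))) C.nil))) C.nil)) C.nil))) C.nil)) C.nil)) (C.cons (nat_lit 100) (C.node (nat_lit 2)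 (nat_lit 6) (nat_lit 8) (C.cons (nat_lit 324) (C.node (nat_lit 2) (nat_lit 8) (nat_lit 9) (C.cons (nat_lit 804) (C.node (nat_lit 2) (nat_lit 5) (nat_lit 10) (C.cons (nat_lit 1060) (C.node (nat_lit 4) (nat_lit 5) (nat_lit 8) (C.cons (nat_lit 432) (C.miq (nat_lit 844368263) (nat_lit 62866965137596209110714241)) C.nil)) C.nil)) (C.cons (nat_lit 772) (C.node (nat_lit 3) (nat_lit 4) (nat_lit 5) (C.cons (nat_lit 568) (C.node (nat_lit 4) (nat_lit 7) (nat_lit 9) (C.cons (nat_lit 720) (C.miq (nat_lit 308546169) (nat_lit 101559564358937931343202177)) C.nil)) C.nil)) C.nil))) C.nil)) C.nil))) C.nil)) C.nil))) C.nil))) C.nil)) C.nil))) C.nil))) C.nil)) C.nil)) (C.cons (nat_lit 22) (C.node (nat_lit 1) (nat_lit 2) (nat_lit 6) (C.cons (nat_lit 326) (C.node (nat_lit 2) (nat_lit 5) (nat_lit 6) (C.cons (nat_lit 100) (C.node (nat_lit 2) (nat_lit 7) (nat_lit 8) (C.cons (nat_lit 388) (C.node (nat_lit 6) (nat_lit 8) (nat_lit 10) (C.cons (nat_lit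 1344) (C.node (nat_lit 1) (nat_lit 2) (nat_lit 7) (C.cons (nat_lit 646) (C.miq (nat_lit 1645520784) (nat_lit 26617342322935895774398337)) (C.cons (nat_lit 134) (C.node (nat_lit 1) (nat_lit 2) (nat_lit 9) (C.cons (nat_lit 518) (C.node (nat_lit 1) (nat_lit 8) (nat_lit 10) (C.cons (nat_lit 1314) (C.miq (nat_lit 2555578898) (nat_lit 359061834098523353664848903)) (C.cons (nat_lit 1282) (C.node (nat_lit 1) (nat_lit 4) (nat_lit 6) (C.cons (nat_lit 90) (C.node (nat_lit 1) (nat_lit 6) (nat_lit 10) (C.cons (nat_lit 1090) (C.node (nat_lit 3) (nat_lit 6) (nat_lit 10) (C.cons (nat_lit 1096) (C.node (nat_lit 3) (nat_lit 6) (nat_lit 8) (C.cons (nat_lit 456) (C.miq (nat_lit 2556495668) (nat_lit 394119612956187639498277017)) (C.cons (nat_lit 328) (C.node (nat_lit 3) (nat_lit 4) (nat_lit 8) (C.cons (nat_lit 792) (C.miq (nat_lit 2016807233) (nat_lit 396531266489409574547358227)) (C.cons (nat_lit 280) (C.node (nat_lit 3) (nat_lit 7) (nat_lit 8)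 (C.cons (nat_lit 394) (C.miq (nat_lit 2202693984) (nat_lit 1271825398540857015285121219)) (C.cons (nat_lit 392) (C.node (nat_lit 1) (nat_lit 3) (nat_lit 8) (C.cons (nat_lit 778) (C.miq (nat_lit 2169148256) (nat_lit 1259736140452797114594951757))
  (C.cons (nat_lit 266) (C.node (nat_lit 3) (nat_lit 8) (nat_lit 9) C.nil) C.nil))) C.nil))) C.nil))) C.nil))) C.nil)) C.nil)) (C.cons (nat_lit 82) (C.node (nat_lit 1) (nat_lit 3) (nat_lit 4) (C.cons (nat_lit 282) (C.node (nat_lit 3) (nat_lit 4) (nat_lit 6) (C.cons (nat_lit 88) (C.node (nat_lit 3) (nat_lit 8) (nat_lit 9) (C.cons (nat_lit 776) (C.node (nat_lit 1) (nat_lit 7) (nat_lit 8) (C.cons (nat_lit 418) (C.miq (nat_lit 2551383890) (nat_lit 340927946804300067753558181)) (C.cons (nat_lit 386) (C.node (nat_lit 1) (nat_lit 3) (nat_lit 6) (C.cons (nat_lit 1098) (C.node (nat_lit 2) (nat_lit 8) (nat_lit 10) (C.cons (nat_lit 1316) (C.node (nat_lit 2) (nat_lit 9) (nat_lit 10) C.nil) C.nil))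 (C.cons (nat_lit 74) (C.node (nat_lit 1) (nat_lit 6) (nat_lit 10) (C.cons (nat_lit 1090) (C.node (nat_lit 3) (nat_lit 6) (nat_lit 10) C.nil) C.nil)) C.nil))) C.nil))) C.nil)) C.nil)) (C.cons (nat_lit 26) (C.node (nat_lit 1) (nat_lit 3) (nat_lit 6) (C.cons (nat_lit 1098) (C.node (nat_lit 1) (nat_lit 7) (nat_lit 10) (C.cons (nat_lit 1186) (C.miq (nat_lit 829581904) (nat_lit 162006925269684342606857329)) (C.cons (nat_lit 1154) (C.node (nat_lit 3) (nat_lit 4) (nat_lit 6) (C.cons (nat_lit 344) (C.miq (nat_lit 327329344) (nat_lit 324011138558921615284175985)) (C.cons (nat_lit 88) (C.node (nat_lit 3) (nat_lit 5) (nat_lit 6) (C.cons (nat_lit 232) (C.miq (nat_lit 326280784) (nat_lit 169268633648248599878108273)) (C.cons (nat_lit 104) (C.node (nat_lit 1) (nat_lit 5) (nat_lit 6) (C.cons (nat_lit 610) (C.node (nat_lit 2) (nat_lit 4) (nat_lit 5) (C.cons (nat_lit 564) (C.miq (nat_lit 831694420) (nat_lit 626242980844205599341413489)) C.nil))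 (C.cons (nat_lit 98) (C.node (nat_lit 1) (nat_lit 6) (nat_lit 9) C.nil) C.nil))) C.nil))) C.nil))) C.nil))) (C.cons (nat_lit 74) (C.node (nat_lit 1) (nat_lit 6) (nat_lit 10) (C.cons (nat_lit 1090) (C.node (nat_lit 3) (nat_lit 6) (nat_lit 10) (C.cons (nat_lit 1096) (C.node (nat_lit 1) (nat_lit 5) (nat_lit 6) (C.cons (nat_lit 610) (C.node (nat_lit 1) (nat_lit 8) (nat_lit 9) (C.cons (nat_lit 778) (C.miq (nat_lit 2435285840) (nat_lit 162031496242713634919481641)) (C.cons (nat_lit 770) (C.node (nat_lit 2) (nat_lit 4) (nat_lit 5) C.nil) C.nil))) (C.cons (nat_lit 98) (C.node (nat_lit 2) (nat_lit 4) (nat_lit 5) C.nil) C.nil))) C.nil)) C.nil)) C.nil))) C.nil))) C.nil))) C.nil))) C.nil)) C.nil))) C.nil)) C.nil)) C.nil)) (C.cons (nat_lit 70) (C.node (nat_lit 2) (nat_lit 4) (nat_lit 5) (C.cons (nat_lit 564) (C.node (nat_lit 2) (nat_lit 4) (nat_lit 7) (C.cons (nat_lit 148) (C.node (nat_lit 2) (nat_lit 9) (nat_lit 10) (C.cons (nat_lit 1540)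 (C.node (nat_lit 3) (nat_lit 4) (nat_lit 5) (C.cons (nat_lit 56) (C.node (nat_lit 2) (nat_lit 7) (nat_lit 9) (C.cons (nat_lit 646) (C.miq (nat_lit 1645520784) (nat_lit 26617342322935895774398337)) (C.cons (nat_lit 644) (C.node (nat_lit 4) (nat_lit 7) (nat_lit 9) (C.cons (nat_lit 720) (C.miq (nat_lit 308546169) (nat_lit 101559564358937931343202177)) (C.cons (nat_lit 656) (C.node (nat_lit 1) (nat_lit 2) (nat_lit 7) (C.cons (nat_lit 390) (C.node (nat_lit 1) (nat_lit 2) (nat_lit 9) (C.cons (nat_lit 518) (C.node (nat_lit 2) (nat_lit 8) (nat_lit 9) (C.cons (nat_lit 772) (C.node (nat_lit 1) (nat_lit 4) (nat_lit 7) (C.cons (nat_lit 178) (C.miq (nat_lit 1649871169) (nat_lit 199476357517299370844881427)) (C.cons (nat_lit 146) (C.node (nat_lit 2) (nat_lit 5) (nat_lit 10) (C.cons (nat_lit 1316) (C.miq (nat_lit 1377216624) (nat_lit 84645781691458594390869889)) (C.cons (nat_lit 1060) (C.node (nat_lit 2) (nat_lit 8) (nat_lit 10) C.nil) C.nil)))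 C.nil))) C.nil)) C.nil)) (C.cons (nat_lit 134) (C.node (nat_lit 2) (nat_lit 7) (nat_lit 8) (C.cons (nat_lit 388) (C.node (nat_lit 1) (nat_lit 2) (nat_lit 8) (C.cons (nat_lit 774) (C.node (nat_lit 1) (nat_lit 6) (nat_lit 9) (C.cons (nat_lit 610) (C.miq (nat_lit 369661250) (nat_lit 388079466047913635463103028)) (C.cons (nat_lit 578) (C.node (nat_lit 2) (nat_lit 5) (nat_lit 6) (C.cons (nat_lit 356) (C.miq (nat_lit 275289170) (nat_lit 388079466025677112308138548))
  (C.cons (nat_lit 100) (C.node (nat_lit 2) (nat_lit 6) (nat_lit 8) (C.cons (nat_lit 324) (C.node (nat_lit 2) (nat_lit 5) (nat_lit 8) (C.cons (nat_lit 1316) (C.miq (nat_lit 1377085584) (nat_lit 26617342349958043294435201)) C.nil)) C.nil)) C.nil))) C.nil))) (C.cons (nat_lit 262) (C.node (nat_lit 1) (nat_lit 2) (nat_lit 9) (C.cons (nat_lit 518) (C.node (nat_lit 2) (nat_lit 8) (nat_lit 9) C.nil) C.nil)) C.nil))) C.nil)) C.nil))) C.nil))) C.nil))) C.nil)) C.nil)) C.nil))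 (C.cons (nat_lit 52) (C.node (nat_lit 2) (nat_lit 4) (nat_lit 7) (C.cons (nat_lit 660) (C.node (nat_lit 3) (nat_lit 8) (nat_lit 9) (C.cons (nat_lit 792) (C.miq (nat_lit 874875248) (nat_lit 62869621525881625065621377)) (C.cons (nat_lit 778) (C.miq (nat_lit 309933320) (nat_lit 797905392525493159061422377)) (C.cons (nat_lit 776) (C.node (nat_lit 1) (nat_lit 2) (nat_lit 7) (C.cons (nat_lit 390) (C.node (nat_lit 1) (nat_lit 2) (nat_lit 9) (C.cons (nat_lit 518) (C.node (nat_lit 2) (nat_lit 8) (nat_lit 9) (C.cons (nat_lit 804) (C.miq (nat_lit 1380157808) (nat_lit 1271795441143888499491538817)) (C.cons (nat_lit 772) (C.node (nat_lit 2) (nat_lit 8) (nat_lit 10) (C.cons (nat_lit 1316) (C.miq (nat_lit 1377216624) (nat_lit 84645781691458594390869889)) (C.cons (nat_lit 1284) (C.node (nat_lit 4) (nat_lit 6) (nat_lit 7) (C.cons (nat_lit 464) (C.miq (nat_lit 1210738448) (nat_lit 1552281726463801732381475011)) (C.cons (nat_lit 208) (C.node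 (nat_lit 4) (nat_lit 7) (nat_lit 8) (C.cons (nat_lit 432) (C.miq (nat_lit 843385208) (nat_lit 62869621468742204810856321)) (C.cons (nat_lit 400) (C.node (nat_lit 5) (nat_lit 7) (nat_lit 8) (C.cons (nat_lit 480) (C.miq (nat_lit 1479173904) (nat_lit 1552281726468305332008845507)) (C.cons (nat_lit 416) (C.node (nat_lit 5) (nat_lit 8) (nat_lit 10) (C.cons (nat_lit 1314) (C.miq (nat_lit 2555578898) (nat_lit 359061834098523353664848903)) (C.cons (nat_lit 1312) (C.node (nat_lit 2) (nat_lit 5) (nat_lit 10) (C.cons (nat_lit 1572) (C.node (nat_lit 1) (nat_lit 5) (nat_lit 10) (C.cons (nat_lit 1186) (C.miq (nat_lit 1649478055) (nat_lit 55614184983162828447942529)) (C.cons (nat_lit 1058) (C.node (nat_lit 2) (nat_lit 5) (nat_lit 6) (C.cons (nat_lit 356) (C.node (nat_lit 1) (nat_lit 8) (nat_lit 10) (C.cons (nat_lit 1346) (C.miq (nat_lit 1629857904) (nat_lit 55631562029151743497275265)) C.nil)) C.nil)) C.nil))) C.nil)) C.nil))) C.nil))) C.nil)))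 C.nil))) C.nil))) C.nil))) C.nil)) (C.cons (nat_lit 134) (C.node (nat_lit 2) (nat_lit 7) (nat_lit 8) (C.cons (nat_lit 388) (C.node (nat_lit 1) (nat_lit 2) (nat_lit 8) (C.cons (nat_lit 774) (C.node (nat_lit 2) (nat_lit 8) (nat_lit 10) (C.cons (nat_lit 1316) (C.miq (nat_lit 1377085584) (nat_lit 26617342349958043294435201)) (C.cons (nat_lit 1284) (C.node (nat_lit 4) (nat_lit 6) (nat_lit 9) (C.cons (nat_lit 848) (C.miq (nat_lit 440934505) (nat_lit 1566782140290678046034231885)) (C.cons (nat_lit 592) (C.node (nat_lit 4) (nat_lit 8) (nat_lit 9) (C.cons (nat_lit 816) (C.miq (nat_lit 1479166224) (nat_lit 1552281726562882573451067923)) (C.cons (nat_lit 784) (C.node (nat_lit 5) (nat_lit 8) (nat_lit 10) (C.cons (nat_lit 1314) (C.miq (nat_lit 1361488016) (nat_lit 84645781690897293730711425)) (C.cons (nat_lit 1312) (C.node (nat_lit 5) (nat_lit 8) (nat_lit 9) (C.cons (nat_lit 864) (C.miq (nat_lit 441983081) (nat_lit 1586124953404512112830579277))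 (C.cons (nat_lit 800) (C.node (nat_lit 6) (nat_lit 8) (nat_lit 9) (C.cons (nat_lit 832) (C.node (nat_lit 1) (nat_lit 8) (nat_lit 10) (C.cons (nat_lit 1346) (C.node (nat_lit 3) (nat_lit 6) (nat_lit 10) (C.cons (nat_lit 1096) (C.node (nat_lit 2) (nat_lit 5) (nat_lit 9) C.nil) C.nil)) C.nil)) C.nil)) C.nil))) C.nil))) C.nil))) C.nil))) C.nil))) (C.cons (nat_lit 262) (C.node (nat_lit 1) (nat_lit 2) (nat_lit 9) (C.cons (nat_lit 518) (C.node (nat_lit 2) (nat_lit 8) (nat_lit 9) (C.cons (nat_lit 804) (C.miq (nat_lit 1380157808) (nat_lit 1271795441143888499491538817)) (C.cons (nat_lit 772) (C.node (nat_lit 2) (nat_lit 5) (nat_lit 6) (C.cons (nat_lit 356) (C.node (nat_lit 2) (nat_lit 8) (nat_lit 10)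
  (C.cons (nat_lit 1284) (C.node (nat_lit 3) (nat_lit 5) (nat_lit 6) (C.cons (nat_lit 232) (C.miq (nat_lit 1114048595) (nat_lit 1474892322359660968275345705)) (C.cons (nat_lit 104) (C.node (nat_lit 5) (nat_lit 8) (nat_lit 10) (C.cons (nat_lit 1314) (C.miq (nat_lit 2555578898) (nat_lit 359061834098523353664848903)) (C.cons (nat_lit 1312) (C.node (nat_lit 1) (nat_lit 8) (nat_lit 10) (C.cons (nat_lit 1346) (C.node (nat_lit 3) (nat_lit 6) (nat_lit 10) C.nil) C.nil)) C.nil))) C.nil))) C.nil)) (C.cons (nat_lit 100) (C.node (nat_lit 2) (nat_lit 6) (nat_lit 8) (C.cons (nat_lit 324) (C.node (nat_lit 6) (nat_lit 8) (nat_lit 10) C.nil) C.nil)) C.nil))) C.nil))) C.nil)) C.nil))) C.nil)) C.nil))) C.nil)))) (C.cons (nat_lit 148) (C.node (nat_lit 2) (nat_lit 4) (nat_lit 9) (C.cons (nat_lit 532) (C.node (nat_lit 2) (nat_lit 7) (nat_lit 9) (C.cons (nat_lit 646) (C.miq (nat_lit 1645520784) (nat_lit 26617342322935895774398337)) (C.cons (nat_lit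 644) (C.node (nat_lit 1) (nat_lit 2) (nat_lit 7) (C.cons (nat_lit 390) (C.node (nat_lit 1) (nat_lit 2) (nat_lit 9) (C.cons (nat_lit 518) (C.node (nat_lit 2) (nat_lit 8) (nat_lit 10) (C.cons (nat_lit 1316) (C.miq (nat_lit 1377216624) (nat_lit 84645781691458594390869889)) (C.cons (nat_lit 1284) (C.node (nat_lit 5) (nat_lit 8) (nat_lit 10) (C.cons (nat_lit 1314) (C.miq (nat_lit 2555578898) (nat_lit 359061834098523353664848903)) (C.cons (nat_lit 1312) (C.node (nat_lit 1) (nat_lit 8) (nat_lit 10) (C.cons (nat_lit 1346) (C.miq (nat_lit 1629857904) (nat_lit 55631562029151743497275265)) (C.cons (nat_lit 1282) (C.node (nat_lit 6) (nat_lit 8) (nat_lit 10) (C.cons (nat_lit 1344) (C.node (nat_lit 4) (nat_lit 6) (nat_lit 7) (C.cons (nat_lit 720) (C.miq (nat_lit 308546169) (nat_lit 101559564358937931343202177)) (C.cons (nat_lit 464) (C.miq (nat_lit 1210738448) (nat_lit 1552281726463801732381475011)) (C.cons (nat_lit 208) (C.node (nat_lit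 2) (nat_lit 5) (nat_lit 6) (C.cons (nat_lit 100) (C.node (nat_lit 2) (nat_lit 6) (nat_lit 8) C.nil) C.nil)) C.nil)))) C.nil)) C.nil))) C.nil))) C.nil))) C.nil)) (C.cons (nat_lit 134) (C.node (nat_lit 2) (nat_lit 7) (nat_lit 8) (C.cons (nat_lit 388) (C.node (nat_lit 1) (nat_lit 2) (nat_lit 8) (C.cons (nat_lit 774) (C.node (nat_lit 2) (nat_lit 8) (nat_lit 10) (C.cons (nat_lit 1316) (C.miq (nat_lit 1377085584) (nat_lit 26617342349958043294435201)) (C.cons (nat_lit 1284) (C.node (nat_lit 5) (nat_lit 8) (nat_lit 10) (C.cons (nat_lit 1314) (C.miq (nat_lit 1361488016) (nat_lit 84645781690897293730711425)) (C.cons (nat_lit 1312) (C.node (nat_lit 2) (nat_lit 5) (nat_lit 10) (C.cons (nat_lit 1572) (C.node (nat_lit 1) (nat_lit 5) (nat_lit 10) (C.cons (nat_lit 1186) (C.miq (nat_lit 1649478055) (nat_lit 55614184983162828447942529)) (C.cons (nat_lit 1058) (C.node (nat_lit 4) (nat_lit 6) (nat_lit 9) (C.cons (nat_lit 848) (C.miq (nat_lit 440934505)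 (nat_lit 1566782140290678046034231885)) (C.cons (nat_lit 720) (C.miq (nat_lit 308546169) (nat_lit 101559564358937931343202177)) C.nil))) C.nil))) C.nil)) C.nil))) C.nil))) (C.cons (nat_lit 262) (C.node (nat_lit 1) (nat_lit 2) (nat_lit 9) (C.cons (nat_lit 518) (C.node (nat_lit 1) (nat_lit 4) (nat_lit 5) (C.cons (nat_lit 434) (C.miq (nat_lit 1898546480) (nat_lit 626259010877903846045974825)) C.nil)) C.nil)) C.nil))) C.nil)) C.nil))) C.nil))) C.nil)) C.nil))) C.nil))) C.nil))) C.nil))) C.nil))))) C.nil)) (C.cons (nat_lit 44) (C.ref (nat_lit 136) (nat_lit 11649936536080)) C.nil))) C.nil)) C.nil))) C.nil))))) C.nil)) (C.cons (nat_lit 1044) (C.node (nat_lit 2) (nat_lit 9) (nat_lit 10) (C.cons (nat_lit 1572) (C.node (nat_lit 4) (nat_lit 9) (nat_lit 10) (C.cons (nat_lit 1560) (C.miq (nat_lit 1922237860) (nat_lit 712060130151309984411419761)) (C.cons (nat_lit 1552) (C.node (nat_lit 6) (nat_lit 7) (nat_lit 9) (C.cons (nat_lit 736) (C.miq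 (nat_lit 379193170) (nat_lit 1934300330031437455735128229)) (C.cons (nat_lit 720) (C.miq (nat_lit 308546169) (nat_lit 101559564358937931343202177)) (C.cons (nat_lit 704) (C.node (nat_lit 1) (nat_lit 9) (nat_lit 10)
  (C.cons (nat_lit 1546) (C.node (nat_lit 1) (nat_lit 7) (nat_lit 10) (C.cons (nat_lit 1186) (C.miq (nat_lit 1466540290) (nat_lit 851112775624212970344350727)) (C.cons (nat_lit 1154) (C.node (nat_lit 3) (nat_lit 6) (nat_lit 10) (C.cons (nat_lit 1352) (C.miq (nat_lit 1398933671) (nat_lit 712060351549392620936759169)) (C.cons (nat_lit 1096) (C.node (nat_lit 3) (nat_lit 7) (nat_lit 9) (C.cons (nat_lit 680) (C.miq (nat_lit 326150482) (nat_lit 184984669429341492861011492)) (C.cons (nat_lit 648) (C.node (nat_lit 2) (nat_lit 3) (nat_lit 5) (C.cons (nat_lit 62) (C.miq (nat_lit 2032339540) (nat_lit 712060130645580043417158769)) (C.cons (nat_lit 60) (C.miq (nat_lit 2032339540) (nat_lit 712060130645580043417027697)) (C.cons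 (nat_lit 46) (C.miq (nat_lit 1470177427) (nat_lit 1395101244431961080141054541)) (C.cons (nat_lit 44) (C.node (nat_lit 1) (nat_lit 4) (nat_lit 10) (C.cons (nat_lit 1298) (C.node (nat_lit 1) (nat_lit 5) (nat_lit 10) (C.cons (nat_lit 1058) (C.node (nat_lit 1) (nat_lit 6) (nat_lit 10) (C.cons (nat_lit 1090) (C.node (nat_lit 3) (nat_lit 4) (nat_lit 10) (C.cons (nat_lit 1048) (C.node (nat_lit 5) (nat_lit 8) (nat_lit 10) (C.cons (nat_lit 1312) (C.node (nat_lit 6) (nat_lit 8) (nat_lit 10) (C.cons (nat_lit 1344) (C.node (nat_lit 1) (nat_lit 4) (nat_lit 6) (C.cons (nat_lit 90) (C.miq (nat_lit 588515752) (nat_lit 108808433679220444656437121)) (C.cons (nat_lit 82) (C.node (nat_lit 2) (nat_lit 3) (nat_lit 4) (C.cons (nat_lit 30) (C.node (nat_lit 2) (nat_lit 4) (nat_lit 5) (C.cons (nat_lit 52) (C.node (nat_lit 2) (nat_lit 3) (nat_lit 7) (C.cons (nat_lit 396) (C.miq (nat_lit 1647683456) (nat_lit 53213710354456663860774785)) (C.cons (nat_lit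 140) (C.node (nat_lit 2) (nat_lit 3) (nat_lit 8) (C.cons (nat_lit 1292) (C.node (nat_lit 2) (nat_lit 7) (nat_lit 8) (C.cons (nat_lit 390) (C.miq (nat_lit 1410468487) (nat_lit 36270818621253660730328961)) (C.cons (nat_lit 388) (C.node (nat_lit 1) (nat_lit 2) (nat_lit 7) (C.cons (nat_lit 646) (C.miq (nat_lit 1645520784) (nat_lit 36288748879852929172047745)) (C.cons (nat_lit 134) (C.node (nat_lit 1) (nat_lit 2) (nat_lit 9) (C.cons (nat_lit 774) (C.miq (nat_lit 1678903945) (nat_lit 36278640040740913605379969)) (C.cons (nat_lit 518) (C.node (nat_lit 2) (nat_lit 8) (nat_lit 9) (C.cons (nat_lit 772) (C.node (nat_lit 1) (nat_lit 2) (nat_lit 5) (C.cons (nat_lit 358) (C.miq (nat_lit 2451023200) (nat_lit 162031496466206106459505777)) C.nil)) C.nil)) C.nil))) C.nil))) C.nil))) (C.cons (nat_lit 268) (C.miq (nat_lit 2820871177) (nat_lit 324020638688414283303027219)) C.nil))) C.nil))) C.nil)) (C.cons (nat_lit 28) (C.miq (nat_lit 337881097)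 (nat_lit 33878441980903281373546369)) C.nil))) C.nil))) C.nil)) C.nil)) C.nil)) C.nil)) C.nil)) (C.cons (nat_lit 1042) (C.node (nat_lit 2) (nat_lit 3) (nat_lit 4) (C.cons (nat_lit 30) (C.miq (nat_lit 2316568882) (nat_lit 1259705814327272087872209485)) (C.cons (nat_lit 28) (C.node (nat_lit 2) (nat_lit 3) (nat_lit 10) (C.cons (nat_lit 1292) (C.miq (nat_lit 321165952) (nat_lit 33859718605478619774257025)) (C.cons (nat_lit 1036) (C.node (nat_lit 2) (nat_lit 8) (nat_lit 10) (C.cons (nat_lit 1284) (C.node (nat_lit 3) (nat_lit 8) (nat_lit 9) (C.cons (nat_lit 792) (C.miq (nat_lit 323135872) (nat_lit 33868941977513327066417025)) (C.cons (nat_lit 776) (C.node (nat_lit 1) (nat_lit 5) (nat_lit 10) (C.cons (nat_lit 1314) (C.node (nat_lit 1) (nat_lit 6) (nat_lit 10) (C.cons (nat_lit 1090) (C.node (nat_lit 6) (nat_lit 8) (nat_lit 10) (C.cons (nat_lit 1344) (C.node (nat_lit 2) (nat_lit 3) (nat_lit 8) (C.cons (nat_lit 398) (C.miq (nat_lit 1647683456)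 (nat_lit 53213710354456672450709377)) (C.cons (nat_lit 396) (C.miq (nat_lit 1647683456) (nat_lit 53213710354456663860774785)) (C.cons (nat_lit 270) (C.miq (nat_lit 1703086610) (nat_lit 359061833877846971938374663)) (C.cons (nat_lit 268) (C.node (nat_lit 1) (nat_lit 2) (nat_lit 3) (C.cons (nat_lit 142) (C.node (nat_lit 2) (nat_lit 7) (nat_lit 8) (C.cons (nat_lit 388) (C.node (nat_lit 3) (nat_lit 4) (nat_lit 10) (C.cons (nat_lit 1304)
  (C.node (nat_lit 3) (nat_lit 5) (nat_lit 10) (C.cons (nat_lit 1192) (C.miq (nat_lit 1129482864) (nat_lit 53197846178200590475396993)) C.nil)) C.nil)) C.nil)) (C.cons (nat_lit 14) (C.node (nat_lit 2) (nat_lit 3) (nat_lit 7) (C.cons (nat_lit 140) (C.node (nat_lit 3) (nat_lit 4) (nat_lit 10) (C.cons (nat_lit 1304) (C.node (nat_lit 3) (nat_lit 5) (nat_lit 10) (C.cons (nat_lit 1192) (C.miq (nat_lit 1129482864) (nat_lit 53197846178200590475396993)) C.nil)) C.nil)) C.nil)) C.nil))) C.nil))))) C.nil))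 C.nil)) (C.cons (nat_lit 1058) (C.node (nat_lit 5) (nat_lit 8) (nat_lit 10) (C.cons (nat_lit 1312) (C.node (nat_lit 1) (nat_lit 6) (nat_lit 10) (C.cons (nat_lit 1346) (C.node (nat_lit 1) (nat_lit 2) (nat_lit 6) (C.cons (nat_lit 102) (C.miq (nat_lit 2052131110) (nat_lit 1279047114808092222158144077)) (C.cons (nat_lit 70) (C.node (nat_lit 2) (nat_lit 7) (nat_lit 8) (C.cons (nat_lit 398) (C.miq (nat_lit 1444022919) (nat_lit 84627851405839033877530497)) (C.cons (nat_lit 396) (C.miq (nat_lit 1647683456) (nat_lit 53213710354456663860774785)) (C.cons (nat_lit 390) (C.miq (nat_lit 1444022919) (nat_lit 84627851405839033877006209)) (C.cons (nat_lit 388) (C.node (nat_lit 1) (nat_lit 4) (nat_lit 6) (C.cons (nat_lit 90) (C.node (nat_lit 1) (nat_lit 3) (nat_lit 5) (C.cons (nat_lit 170) (C.miq (nat_lit 2167907904) (nat_lit 205552825908718260958332017)) (C.cons (nat_lit 42) (C.node (nat_lit 3) (nat_lit 4) (nat_lit 10) (C.cons (nat_lit 1304)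 (C.node (nat_lit 3) (nat_lit 5) (nat_lit 10) (C.cons (nat_lit 1192) (C.miq (nat_lit 1129482864) (nat_lit 53197846178200590475396993)) C.nil)) C.nil)) C.nil))) (C.cons (nat_lit 82) (C.node (nat_lit 1) (nat_lit 3) (nat_lit 6) (C.cons (nat_lit 106) (C.node (nat_lit 1) (nat_lit 6) (nat_lit 9) (C.cons (nat_lit 578) (C.node (nat_lit 2) (nat_lit 3) (nat_lit 8) (C.cons (nat_lit 270) (C.miq (nat_lit 560235344) (nat_lit 99137027032506708924629289)) (C.cons (nat_lit 268) (C.node (nat_lit 3) (nat_lit 4) (nat_lit 10) (C.cons (nat_lit 1304) (C.node (nat_lit 1) (nat_lit 3) (nat_lit 4) C.nil) C.nil)) C.nil))) C.nil)) (C.cons (nat_lit 74) (C.node (nat_lit 1) (nat_lit 5) (nat_lit 6) (C.cons (nat_lit 610) (C.node (nat_lit 1) (nat_lit 7) (nat_lit 9) (C.cons (nat_lit 646) (C.miq (nat_lit 1377216880) (nat_lit 84645781763517287940425601)) (C.cons (nat_lit 642) (C.node (nat_lit 3) (nat_lit 4) (nat_lit 10) (C.cons (nat_lit 1304) (C.node (nat_lit 2)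 (nat_lit 3) (nat_lit 7) (C.cons (nat_lit 142) (C.miq (nat_lit 2205262854) (nat_lit 171692296069844582638224497)) C.nil)) C.nil)) C.nil))) (C.cons (nat_lit 98) (C.node (nat_lit 1) (nat_lit 6) (nat_lit 9) (C.cons (nat_lit 578) (C.node (nat_lit 3) (nat_lit 4) (nat_lit 10) (C.cons (nat_lit 1304) (C.node (nat_lit 3) (nat_lit 4) (nat_lit 6) C.nil) C.nil)) C.nil)) C.nil))) C.nil))) C.nil))) C.nil))))) C.nil))) (C.cons (nat_lit 1090) (C.node (nat_lit 1) (nat_lit 8) (nat_lit 10) (C.cons (nat_lit 1282) (C.node (nat_lit 6) (nat_lit 8) (nat_lit 10) (C.cons (nat_lit 1344) (C.node (nat_lit 3) (nat_lit 4) (nat_lit 10) (C.cons (nat_lit 1304) (C.node (nat_lit 3) (nat_lit 5) (nat_lit 10) (C.cons (nat_lit 1192) (C.miq (nat_lit 1129482864) (nat_lit 53197846178200590475396993)) C.nil)) C.nil)) C.nil)) C.nil)) C.nil))) C.nil)) C.nil))) C.nil))) C.nil)) C.nil))) C.nil))) C.nil))) C.nil))))) C.nil))) C.nil))) C.nil))) (C.cons (nat_lit 1538) (C.node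 (nat_lit 3) (nat_lit 9) (nat_lit 10) (C.cons (nat_lit 1544) (C.ref (nat_lit 139) (nat_lit 11649936536080)) C.nil)) C.nil))) C.nil)))) C.nil))) (C.cons (nat_lit 1540) (C.node (nat_lit 4) (nat_lit 9) (nat_lit 10) (C.cons (nat_lit 1560) (C.ref (nat_lit 143) (nat_lit 11649936536080)) (C.cons (nat_lit 1552) (C.node (nat_lit 2) (nat_lit 7) (nat_lit 9) (C.cons (nat_lit 660) (C.ref (nat_lit 144) (nat_lit 11649936536080)) (C.cons (nat_lit 646) (C.miq (nat_lit 342003879) (nat_lit 101561685593768563136792449)) (C.cons (nat_lit 644) (C.node (nat_lit 2) (nat_lit 4) (nat_lit 7) (C.cons (nat_lit 150) (C.node (nat_lit 2) (nat_lit 3) (nat_lit 7) (C.cons (nat_lit 396)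
  (C.miq (nat_lit 1445137016) (nat_lit 712062786756048764044838785)) (C.cons (nat_lit 140) (C.node (nat_lit 2) (nat_lit 7) (nat_lit 8) (C.cons (nat_lit 388) (C.node (nat_lit 2) (nat_lit 3) (nat_lit 4) (C.cons (nat_lit 60) (C.node (nat_lit 2) (nat_lit 4) (nat_lit 9) (C.cons (nat_lit 532) (C.node (nat_lit 2) (nat_lit 5) (nat_lit 10) (C.cons (nat_lit 1316) (C.miq (nat_lit 2184684864) (nat_lit 169285051311835007566808177)) (C.cons (nat_lit 1060) (C.node (nat_lit 3) (nat_lit 4) (nat_lit 9) (C.cons (nat_lit 792) (C.miq (nat_lit 2485617488) (nat_lit 181374309360488411518271785)) (C.cons (nat_lit 536) (C.node (nat_lit 1) (nat_lit 2) (nat_lit 3) (C.cons (nat_lit 270) (C.node (nat_lit 2) (nat_lit 3) (nat_lit 10) (C.cons (nat_lit 1036) (C.node (nat_lit 2) (nat_lit 8) (nat_lit 10) (C.cons (nat_lit 1284) (C.node (nat_lit 3) (nat_lit 8) (nat_lit 9) (C.cons (nat_lit 776) (C.node (nat_lit 1) (nat_lit 2) (nat_lit 6) (C.cons (nat_lit 102) (C.miq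 (nat_lit 305620288) (nat_lit 169253211889853163153982577)) (C.cons (nat_lit 70) (C.node (nat_lit 1) (nat_lit 4) (nat_lit 5) (C.cons (nat_lit 306) (C.miq (nat_lit 1093031984) (nat_lit 84645781407168352542851369)) (C.cons (nat_lit 50) (C.node (nat_lit 2) (nat_lit 8) (nat_lit 9) (C.cons (nat_lit 804) (C.miq (nat_lit 2454160688) (nat_lit 181374309363866111238013225)) (C.cons (nat_lit 772) (C.node (nat_lit 5) (nat_lit 8) (nat_lit 10) (C.cons (nat_lit 1314) (C.miq (nat_lit 1703086610) (nat_lit 359061833877846971938374663)) (C.cons (nat_lit 1312) (C.node (nat_lit 1) (nat_lit 2) (nat_lit 5) (C.cons (nat_lit 550) (C.node (nat_lit 2) (nat_lit 5) (nat_lit 6) (C.cons (nat_lit 356) (C.node (nat_lit 1) (nat_lit 5) (nat_lit 6) (C.cons (nat_lit 106) (C.miq (nat_lit 2219909219) (nat_lit 60451271679604812247859789)) (C.cons (nat_lit 98) (C.node (nat_lit 3) (nat_lit 5) (nat_lit 6) (C.cons (nat_lit 232) (C.miq (nat_lit 1114048595) (nat_lit 1474892322359660968275345705))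 (C.cons (nat_lit 104) (C.node (nat_lit 5) (nat_lit 9) (nat_lit 10) (C.cons (nat_lit 1576) (C.miq (nat_lit 2468914496) (nat_lit 326445407934920294231508081)) (C.cons (nat_lit 1568) (C.node (nat_lit 3) (nat_lit 5) (nat_lit 10) (C.cons (nat_lit 1194) (C.miq (nat_lit 1932043584) (nat_lit 326445407827396853128037489)) (C.cons (nat_lit 1192) (C.miq (nat_lit 1932043584) (nat_lit 326445407826833903174616177)) (C.cons (nat_lit 1066) (C.miq (nat_lit 1161300498) (nat_lit 359056078493694909406381063)) C.nil)))) C.nil))) C.nil))) C.nil))) C.nil)) C.nil)) C.nil))) C.nil))) C.nil))) C.nil))) C.nil)) C.nil)) C.nil)) (C.cons (nat_lit 14) (C.node (nat_lit 1) (nat_lit 4) (nat_lit 5) (C.cons (nat_lit 306) (C.node (nat_lit 5) (nat_lit 8) (nat_lit 10) (C.cons (nat_lit 1312) (C.node (nat_lit 1) (nat_lit 4) (nat_lit 6) (C.cons (nat_lit 90) (C.miq (nat_lit 321348688) (nat_lit 169253211886475463434241137)) (C.cons (nat_lit 82) (C.node (nat_lit 3) (nat_lit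 8) (nat_lit 9) (C.cons (nat_lit 778) (C.miq (nat_lit 1669662996) (nat_lit 359071942539348775435108883)) (C.cons (nat_lit 776) (C.node (nat_lit 4) (nat_lit 8) (nat_lit 10) (C.cons (nat_lit 1304) (C.miq (nat_lit 2200413264) (nat_lit 169285051308457307847066737)) (C.cons (nat_lit 1296) (C.node (nat_lit 3) (nat_lit 5) (nat_lit 9) (C.cons (nat_lit 1578) (C.miq (nat_lit 2301758036) (nat_lit 712062418041845209171231857)) (C.cons (nat_lit 1576) (C.miq (nat_lit 2301758036) (nat_lit 712062418041845200581297265)) (C.cons (nat_lit 682) (C.miq (nat_lit 1967690528) (nat_lit 369966737189408315341603405)) (C.cons (nat_lit 680) (C.miq (nat_lit 1967690528) (nat_lit 369966737188845365388182093)) (C.cons (nat_lit 554) (C.miq (nat_lit 592972052) (nat_lit 359056078339444423148044819)) (C.cons (nat_lit 552) (C.node (nat_lit 1) (nat_lit 3) (nat_lit 4) (C.cons (nat_lit 1050) (C.node (nat_lit 3) (nat_lit 9) (nat_lit 10) (C.cons (nat_lit 1544) (C.node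 (nat_lit 3) (nat_lit 5) (nat_lit 10) (C.cons (nat_lit 1192) (C.miq (nat_lit 2268203604) (nat_lit 169254725034875051870782577)) (C.cons (nat_lit 1064) (C.node (nat_lit 3) (nat_lit 7) (nat_lit 10)
  (C.cons (nat_lit 1160) (C.node (nat_lit 3) (nat_lit 6) (nat_lit 10) (C.cons (nat_lit 1352) (C.miq (nat_lit 1398933671) (nat_lit 712060351549392620936759169)) (C.cons (nat_lit 1096) (C.node (nat_lit 3) (nat_lit 4) (nat_lit 6) C.nil) C.nil))) C.nil)) C.nil))) C.nil)) (C.cons (nat_lit 26) (C.node (nat_lit 1) (nat_lit 4) (nat_lit 10) (C.cons (nat_lit 1042) (C.node (nat_lit 3) (nat_lit 4) (nat_lit 10) (C.cons (nat_lit 1048) (C.node (nat_lit 1) (nat_lit 7) (nat_lit 8) (C.cons (nat_lit 394) (C.node (nat_lit 3) (nat_lit 7) (nat_lit 9) (C.cons (nat_lit 648) (C.node (nat_lit 1) (nat_lit 8) (nat_lit 10) (C.cons (nat_lit 1346) (C.miq (nat_lit 1630840944) (nat_lit 31453045636859177182234497)) (C.cons (nat_lit 1282) (C.node (nat_lit 3) (nat_lit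 4) (nat_lit 6) C.nil) C.nil))) C.nil)) (C.cons (nat_lit 386) (C.node (nat_lit 2) (nat_lit 3) (nat_lit 8) (C.cons (nat_lit 1292) (C.node (nat_lit 3) (nat_lit 4) (nat_lit 6) C.nil) (C.cons (nat_lit 268) (C.node (nat_lit 2) (nat_lit 3) (nat_lit 10) (C.cons (nat_lit 1036) (C.node (nat_lit 2) (nat_lit 8) (nat_lit 10) C.nil) C.nil)) C.nil))) C.nil))) C.nil)) C.nil)) C.nil))) C.nil))))))) C.nil))) C.nil))) C.nil))) C.nil)) (C.cons (nat_lit 50) (C.node (nat_lit 2) (nat_lit 3) (nat_lit 8) (C.cons (nat_lit 1292) (C.node (nat_lit 4) (nat_lit 8) (nat_lit 10) (C.cons (nat_lit 1298) (C.miq (nat_lit 2224267522) (nat_lit 648008072872141270819865607)) (C.cons (nat_lit 1296) (C.node (nat_lit 3) (nat_lit 9) (nat_lit 10) (C.cons (nat_lit 1578) (C.miq (nat_lit 321165952) (nat_lit 72545344842153952619595649)) (C.cons (nat_lit 1576) (C.miq (nat_lit 2468914496) (nat_lit 1561967595581071310781219953)) (C.cons (nat_lit 1546) (C.miq (nat_lit 321165952)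 (nat_lit 72545344833146753364854657)) (C.cons (nat_lit 1544) (C.node (nat_lit 1) (nat_lit 4) (nat_lit 10) (C.cons (nat_lit 1050) (C.node (nat_lit 3) (nat_lit 6) (nat_lit 10) (C.cons (nat_lit 1096) (C.node (nat_lit 3) (nat_lit 5) (nat_lit 10) (C.cons (nat_lit 1192) (C.miq (nat_lit 1932043584) (nat_lit 1561967595472984919724328049)) (C.cons (nat_lit 1064) (C.node (nat_lit 3) (nat_lit 7) (nat_lit 10) (C.cons (nat_lit 1160) (C.node (nat_lit 1) (nat_lit 6) (nat_lit 10) (C.cons (nat_lit 1346) (C.node (nat_lit 5) (nat_lit 8) (nat_lit 10) C.nil) C.nil)) C.nil)) C.nil))) C.nil)) (C.cons (nat_lit 1042) (C.node (nat_lit 3) (nat_lit 4) (nat_lit 10) (C.cons (nat_lit 1048) (C.node (nat_lit 1) (nat_lit 3) (nat_lit 4) (C.cons (nat_lit 346) (C.miq (nat_lit 321348688) (nat_lit 169253211958533057472169073)) (C.cons (nat_lit 282) (C.miq (nat_lit 1887511860) (nat_lit 313114554338244659462668348)) (C.cons (nat_lit 90) (C.miq (nat_lit 321348688)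 (nat_lit 169253211886475463434241137)) (C.cons (nat_lit 26) (C.node (nat_lit 1) (nat_lit 4) (nat_lit 6) (C.cons (nat_lit 338) (C.node (nat_lit 3) (nat_lit 4) (nat_lit 6) (C.cons (nat_lit 88) (C.node (nat_lit 3) (nat_lit 4) (nat_lit 8) C.nil) C.nil)) (C.cons (nat_lit 82) (C.node (nat_lit 1) (nat_lit 4) (nat_lit 8) C.nil) C.nil))) C.nil))))) C.nil)) C.nil))) C.nil))))) C.nil))) (C.cons (nat_lit 268) (C.node (nat_lit 2) (nat_lit 3) (nat_lit 10) (C.cons (nat_lit 1036) (C.node (nat_lit 2) (nat_lit 8) (nat_lit 10) (C.cons (nat_lit 1284) (C.node (nat_lit 3) (nat_lit 8) (nat_lit 9) (C.cons (nat_lit 778) (C.node (nat_lit 1) (nat_lit 7) (nat_lit 8) (C.cons (nat_lit 418) (C.miq (nat_lit 1378971800) (nat_lit 16932672260073519982446465)) (C.cons (nat_lit 386) (C.node (nat_lit 2) (nat_lit 8) (nat_lit 9) (C.cons (nat_lit 804) (C.miq (nat_lit 2454160688) (nat_lit 181374309363866111238013225)) (C.cons (nat_lit 772) (C.node (nat_lit 3) (nat_lit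 7) (nat_lit 9) (C.cons (nat_lit 680) (C.miq (nat_lit 2301888338) (nat_lit 647989349602266006031171749)) (C.cons (nat_lit 648) (C.node (nat_lit 3) (nat_lit 5) (nat_lit 9) (C.cons (nat_lit 1576) (C.miq (nat_lit 2468914496) (nat_lit 324027556295691035882095729)) (C.cons (nat_lit 552) (C.node (nat_lit 3) (nat_lit 9) (nat_lit 10) C.nil) C.nil))) C.nil))) C.nil))) C.nil))) (C.cons (nat_lit 776) (C.node (nat_lit 5) (nat_lit 8) (nat_lit 10)
  (C.cons (nat_lit 1314) (C.node (nat_lit 1) (nat_lit 7) (nat_lit 8) (C.cons (nat_lit 394) (C.miq (nat_lit 877752488) (nat_lit 60453559040967055199307649)) (C.cons (nat_lit 386) (C.node (nat_lit 4) (nat_lit 8) (nat_lit 10) (C.cons (nat_lit 1304) (C.miq (nat_lit 2200413264) (nat_lit 169285051308457307847066737)) (C.cons (nat_lit 1296) (C.node (nat_lit 3) (nat_lit 8) (nat_lit 10) (C.cons (nat_lit 1352) (C.miq (nat_lit 1398933671) (nat_lit 712060351549392620936759169)) (C.cons (nat_lit 1288) (C.node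 (nat_lit 6) (nat_lit 8) (nat_lit 10) (C.cons (nat_lit 1344) (C.node (nat_lit 1) (nat_lit 4) (nat_lit 10) (C.cons (nat_lit 1050) (C.node (nat_lit 1) (nat_lit 6) (nat_lit 10) C.nil) C.nil)) C.nil)) C.nil))) C.nil))) C.nil))) (C.cons (nat_lit 1312) (C.node (nat_lit 4) (nat_lit 5) (nat_lit 7) (C.cons (nat_lit 688) (C.node (nat_lit 4) (nat_lit 5) (nat_lit 8) (C.cons (nat_lit 304) (C.node (nat_lit 6) (nat_lit 7) (nat_lit 9) (C.cons (nat_lit 704) (C.node (nat_lit 1) (nat_lit 7) (nat_lit 9) (C.cons (nat_lit 650) (C.node (nat_lit 2) (nat_lit 8) (nat_lit 9) (C.cons (nat_lit 806) (C.miq (nat_lit 1108543639) (nat_lit 16927783904420116342376321)) (C.cons (nat_lit 804) (C.miq (nat_lit 2236060208) (nat_lit 831776400316536607229936205)) (C.cons (nat_lit 774) (C.miq (nat_lit 1108543639) (nat_lit 16927783904419978903422849)) C.nil)))) (C.cons (nat_lit 642) (C.node (nat_lit 3) (nat_lit 7) (nat_lit 9) (C.cons (nat_lit 648) (C.node (nat_lit 2)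 (nat_lit 5) (nat_lit 9) (C.cons (nat_lit 806) (C.miq (nat_lit 2236060208) (nat_lit 831776400317099557183357517)) (C.cons (nat_lit 804) (C.miq (nat_lit 2236060208) (nat_lit 831776400316536607229936205)) (C.cons (nat_lit 550) (C.node (nat_lit 2) (nat_lit 8) (nat_lit 9) C.nil) C.nil)))) C.nil)) C.nil))) C.nil)) C.nil)) (C.cons (nat_lit 432) (C.miq (nat_lit 2218358048) (nat_lit 648019675630404281366806693)) (C.cons (nat_lit 176) (C.node (nat_lit 4) (nat_lit 7) (nat_lit 9) (C.cons (nat_lit 720) (C.miq (nat_lit 308546169) (nat_lit 101559564358937931343202177)) (C.cons (nat_lit 656) (C.node (nat_lit 1) (nat_lit 2) (nat_lit 6) (C.cons (nat_lit 358) (C.miq (nat_lit 305620288) (nat_lit 169253211961910757191910513)) (C.cons (nat_lit 326) (C.node (nat_lit 2) (nat_lit 5) (nat_lit 6) C.nil) (C.cons (nat_lit 102) (C.miq (nat_lit 305620288) (nat_lit 169253211889853163153982577)) C.nil)))) C.nil))) C.nil)))) C.nil))) C.nil))) C.nil)) C.nil))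 C.nil))) C.nil))) C.nil))) C.nil))) C.nil))) C.nil)) (C.cons (nat_lit 28) (C.ref (nat_lit 145) (nat_lit 11649936536080)) C.nil))) C.nil)) C.nil))) (C.cons (nat_lit 148) (C.node (nat_lit 2) (nat_lit 4) (nat_lit 9) (C.cons (nat_lit 564) (C.node (nat_lit 4) (nat_lit 7) (nat_lit 9) (C.cons (nat_lit 720) (C.miq (nat_lit 308546169) (nat_lit 101559564358937931343202177)) (C.cons (nat_lit 656) (C.node (nat_lit 1) (nat_lit 2) (nat_lit 4) (C.cons (nat_lit 30) (C.node (nat_lit 3) (nat_lit 4) (nat_lit 5) (C.cons (nat_lit 56) (C.node (nat_lit 2) (nat_lit 3) (nat_lit 7) (C.cons (nat_lit 396) (C.miq (nat_lit 1445137016) (nat_lit 712062786756048764044838785)) (C.cons (nat_lit 140) (C.node (nat_lit 1) (nat_lit 2) (nat_lit 9) (C.cons (nat_lit 774) (C.miq (nat_lit 2184679744) (nat_lit 169285051159275441340613139)) (C.cons (nat_lit 518) (C.node (nat_lit 2) (nat_lit 8) (nat_lit 9) (C.cons (nat_lit 772) (C.node (nat_lit 1) (nat_lit 4) (nat_lit 7)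 (C.cons (nat_lit 434) (C.miq (nat_lit 1649871169) (nat_lit 199476357517299370861658643)) (C.cons (nat_lit 402) (C.miq (nat_lit 2166977584) (nat_lit 626259010868896578071756953)) (C.cons (nat_lit 178) (C.miq (nat_lit 1649871169) (nat_lit 199476357517299370844881427)) (C.cons (nat_lit 146) (C.node (nat_lit 1) (nat_lit 2) (nat_lit 7) (C.cons (nat_lit 390) (C.node (nat_lit 1) (nat_lit 2) (nat_lit 5) (C.cons (nat_lit 102) (C.miq (nat_lit 2152823394) (nat_lit 42319598457419081485518020)) (C.cons (nat_lit 38) (C.node (nat_lit 1) (nat_lit 2) (nat_lit 6) (C.cons (nat_lit 70) (C.node (nat_lit 1) (nat_lit 4) (nat_lit 6) (C.cons (nat_lit 338)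
  (C.miq (nat_lit 1384384278) (nat_lit 334893426027709135370453187)) (C.cons (nat_lit 82) (C.node (nat_lit 1) (nat_lit 4) (nat_lit 10) (C.cons (nat_lit 1298) (C.miq (nat_lit 1092986992) (nat_lit 45960155458723911217514369)) (C.cons (nat_lit 1042) (C.node (nat_lit 3) (nat_lit 4) (nat_lit 9) (C.cons (nat_lit 792) (C.miq (nat_lit 2216334112) (nat_lit 1259736140456737506563916365)) (C.cons (nat_lit 536) (C.node (nat_lit 2) (nat_lit 3) (nat_lit 8) (C.cons (nat_lit 1292) (C.miq (nat_lit 2202640912) (nat_lit 648019675872472632485151751)) (C.cons (nat_lit 268) (C.node (nat_lit 2) (nat_lit 8) (nat_lit 10) (C.cons (nat_lit 1316) (C.miq (nat_lit 1377216624) (nat_lit 84645781691458594390869889)) (C.cons (nat_lit 1284) (C.node (nat_lit 2) (nat_lit 3) (nat_lit 5) (C.cons (nat_lit 1068) (C.node (nat_lit 4) (nat_lit 5) (nat_lit 7) (C.cons (nat_lit 432) (C.miq (nat_lit 2175037957) (nat_lit 1259708673141663111673086117)) C.nil)) C.nil)) C.nil)))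 C.nil))) C.nil))) C.nil))) C.nil))) C.nil)) C.nil))) (C.cons (nat_lit 134) (C.node (nat_lit 2) (nat_lit 7) (nat_lit 8) (C.cons (nat_lit 388) (C.node (nat_lit 1) (nat_lit 4) (nat_lit 5) (C.cons (nat_lit 306) (C.node (nat_lit 1) (nat_lit 4) (nat_lit 6) (C.cons (nat_lit 82) (C.node (nat_lit 1) (nat_lit 4) (nat_lit 10) (C.cons (nat_lit 1042) (C.node (nat_lit 4) (nat_lit 5) (nat_lit 7) (C.cons (nat_lit 176) (C.node (nat_lit 3) (nat_lit 4) (nat_lit 9) (C.cons (nat_lit 792) (C.miq (nat_lit 2216334112) (nat_lit 1259736140456737506563916365)) (C.cons (nat_lit 536) (C.node (nat_lit 3) (nat_lit 4) (nat_lit 6) (C.cons (nat_lit 344) (C.node (nat_lit 3) (nat_lit 4) (nat_lit 10) C.nil) C.nil)) C.nil))) C.nil)) C.nil)) C.nil)) (C.cons (nat_lit 50) (C.node (nat_lit 1) (nat_lit 4) (nat_lit 6) (C.cons (nat_lit 338) (C.node (nat_lit 1) (nat_lit 4) (nat_lit 10) (C.cons (nat_lit 1042) (C.node (nat_lit 3) (nat_lit 4) (nat_lit 6) (C.cons (nat_lit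 88) (C.node (nat_lit 4) (nat_lit 6) (nat_lit 7) (C.cons (nat_lit 208) (C.node (nat_lit 4) (nat_lit 6) (nat_lit 9) C.nil) C.nil)) C.nil)) C.nil)) (C.cons (nat_lit 82) (C.node (nat_lit 1) (nat_lit 4) (nat_lit 8) (C.cons (nat_lit 1298) (C.node (nat_lit 3) (nat_lit 4) (nat_lit 10) (C.cons (nat_lit 1048) (C.node (nat_lit 1) (nat_lit 6) (nat_lit 10) (C.cons (nat_lit 1098) (C.miq (nat_lit 2184265834) (nat_lit 36291718540217648595731569)) (C.cons (nat_lit 1090) (C.node (nat_lit 3) (nat_lit 4) (nat_lit 6) (C.cons (nat_lit 344) (C.miq (nat_lit 2199995914) (nat_lit 36291718559076472030954609)) (C.cons (nat_lit 88) (C.node (nat_lit 4) (nat_lit 5) (nat_lit 7) (C.cons (nat_lit 432) (C.miq (nat_lit 340961392) (nat_lit 681853181221147224289118081)) C.nil)) C.nil))) C.nil))) C.nil)) (C.cons (nat_lit 274) (C.node (nat_lit 1) (nat_lit 4) (nat_lit 10) (C.cons (nat_lit 1042) (C.node (nat_lit 3) (nat_lit 4) (nat_lit 9) (C.cons (nat_lit 792) (C.miq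 (nat_lit 2216334112) (nat_lit 1259736140456737506563916365)) (C.cons (nat_lit 536) (C.node (nat_lit 2) (nat_lit 3) (nat_lit 5) (C.cons (nat_lit 44) (C.node (nat_lit 2) (nat_lit 3) (nat_lit 8) C.nil) C.nil)) C.nil))) C.nil)) C.nil))) C.nil))) C.nil))) C.nil)) C.nil))) C.nil))))) C.nil)) C.nil))) C.nil))) C.nil)) (C.cons (nat_lit 22) (C.node (nat_lit 2) (nat_lit 3) (nat_lit 4) (C.cons (nat_lit 28) (C.node (nat_lit 1) (nat_lit 2) (nat_lit 9) (C.cons (nat_lit 774) (C.node (nat_lit 1) (nat_lit 6) (nat_lit 9) (C.cons (nat_lit 610) (C.miq (nat_lit 369661250) (nat_lit 388079466047913635463103028)) (C.cons (nat_lit 578) (C.node (nat_lit 2) (nat_lit 6) (nat_lit 8) (C.cons (nat_lit 356) (C.miq (nat_lit 275289170) (nat_lit 388079466025677112308138548)) (C.cons (nat_lit 324) (C.node (nat_lit 2) (nat_lit 5) (nat_lit 8) (C.cons (nat_lit 1316) (C.miq (nat_lit 1377085584) (nat_lit 26617342349958043294435201)) (C.cons (nat_lit 292) (C.node (nat_lit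 2) (nat_lit 7) (nat_lit 8) (C.cons (nat_lit 396) (C.miq (nat_lit 305436784) (nat_lit 33859718388176089454806913)) (C.cons (nat_lit 388) (C.node (nat_lit 4) (nat_lit 6) (nat_lit 9) (C.cons (nat_lit 848)
  (C.miq (nat_lit 2793538705) (nat_lit 391710984468320537855525395)) (C.cons (nat_lit 592) (C.node (nat_lit 1) (nat_lit 4) (nat_lit 7) (C.cons (nat_lit 434) (C.miq (nat_lit 840173959) (nat_lit 26599190549157205020641153)) (C.cons (nat_lit 402) (C.miq (nat_lit 840173959) (nat_lit 26599190549157205018544001)) (C.cons (nat_lit 178) (C.miq (nat_lit 1649871169) (nat_lit 199476357517299370844881427)) (C.cons (nat_lit 146) (C.node (nat_lit 1) (nat_lit 2) (nat_lit 6) (C.cons (nat_lit 102) (C.node (nat_lit 1) (nat_lit 2) (nat_lit 3) (C.cons (nat_lit 142) (C.miq (nat_lit 1366581808) (nat_lit 176524143640458724787159629)) (C.cons (nat_lit 14) (C.node (nat_lit 1) (nat_lit 2) (nat_lit 7) (C.cons (nat_lit 134) (C.node (nat_lit 2) (nat_lit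 3) (nat_lit 7) C.nil) C.nil)) C.nil))) (C.cons (nat_lit 70) (C.node (nat_lit 2) (nat_lit 5) (nat_lit 6) (C.cons (nat_lit 100) (C.node (nat_lit 1) (nat_lit 2) (nat_lit 5) (C.cons (nat_lit 46) (C.node (nat_lit 1) (nat_lit 2) (nat_lit 7) C.nil) C.nil)) C.nil)) C.nil))) C.nil))))) C.nil))) C.nil))) C.nil))) C.nil))) C.nil))) (C.cons (nat_lit 518) (C.node (nat_lit 2) (nat_lit 8) (nat_lit 9) (C.cons (nat_lit 772) (C.node (nat_lit 3) (nat_lit 4) (nat_lit 5) (C.cons (nat_lit 58) (C.node (nat_lit 1) (nat_lit 4) (nat_lit 6) (C.cons (nat_lit 338) (C.node (nat_lit 1) (nat_lit 4) (nat_lit 7) (C.cons (nat_lit 146) (C.node (nat_lit 1) (nat_lit 4) (nat_lit 10) (C.cons (nat_lit 1042) (C.node (nat_lit 3) (nat_lit 4) (nat_lit 6) (C.cons (nat_lit 88) (C.node (nat_lit 4) (nat_lit 6) (nat_lit 7) (C.cons (nat_lit 208) (C.node (nat_lit 4) (nat_lit 6) (nat_lit 9) (C.cons (nat_lit 592) (C.node (nat_lit 3) (nat_lit 4) (nat_lit 9) C.nil) C.nil)) C.nil))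 C.nil)) C.nil)) C.nil)) (C.cons (nat_lit 82) (C.node (nat_lit 1) (nat_lit 4) (nat_lit 7) (C.cons (nat_lit 402) (C.node (nat_lit 1) (nat_lit 4) (nat_lit 10) (C.cons (nat_lit 1042) (C.node (nat_lit 4) (nat_lit 5) (nat_lit 7) (C.cons (nat_lit 176) (C.node (nat_lit 4) (nat_lit 5) (nat_lit 8) (C.cons (nat_lit 304) (C.node (nat_lit 4) (nat_lit 6) (nat_lit 7) (C.cons (nat_lit 208) (C.node (nat_lit 2) (nat_lit 7) (nat_lit 8) (C.cons (nat_lit 396) (C.miq (nat_lit 1445137016) (nat_lit 712062786756048764044838785)) C.nil)) C.nil)) C.nil)) C.nil)) C.nil)) (C.cons (nat_lit 146) (C.node (nat_lit 1) (nat_lit 4) (nat_lit 8) (C.cons (nat_lit 1298) (C.node (nat_lit 3) (nat_lit 4) (nat_lit 10) (C.cons (nat_lit 1048) (C.node (nat_lit 3) (nat_lit 4) (nat_lit 9) (C.cons (nat_lit 792) (C.miq (nat_lit 338864272) (nat_lit 33868941907707532862621569)) (C.cons (nat_lit 536) (C.node (nat_lit 4) (nat_lit 6) (nat_lit 9) (C.cons (nat_lit 848) (C.miq (nat_lit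 342010000) (nat_lit 101568787806127007164336001)) C.nil)) C.nil))) C.nil)) (C.cons (nat_lit 274) (C.node (nat_lit 1) (nat_lit 4) (nat_lit 10) (C.cons (nat_lit 1042) (C.node (nat_lit 2) (nat_lit 3) (nat_lit 5) (C.cons (nat_lit 1068) (C.node (nat_lit 2) (nat_lit 8) (nat_lit 10) (C.cons (nat_lit 1284) (C.node (nat_lit 5) (nat_lit 7) (nat_lit 10) (C.cons (nat_lit 1186) (C.miq (nat_lit 1359193954) (nat_lit 13317885472261802658956484)) (C.cons (nat_lit 1184) (C.node (nat_lit 3) (nat_lit 5) (nat_lit 6) (C.cons (nat_lit 232) (C.miq (nat_lit 391775794) (nat_lit 1431387189071749554360812109)) (C.cons (nat_lit 104) (C.node (nat_lit 5) (nat_lit 8) (nat_lit 10) (C.cons (nat_lit 1314) (C.miq (nat_lit 2705818928) (nat_lit 176538606228959824071688489)) (C.cons (nat_lit 1312) (C.node (nat_lit 1) (nat_lit 5) (nat_lit 10) (C.cons (nat_lit 1570) (C.miq (nat_lit 2052262164) (nat_lit 1291135598240987409511219731)) (C.cons (nat_lit 1058) (C.node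 (nat_lit 5) (nat_lit 9) (nat_lit 10) (C.cons (nat_lit 1568) (C.node (nat_lit 3) (nat_lit 4) (nat_lit 10) C.nil) C.nil)) C.nil))) C.nil))) C.nil))) C.nil))) C.nil)) (C.cons (nat_lit 44) (C.node (nat_lit 2) (nat_lit 3) (nat_lit 10) (C.cons (nat_lit 1292) (C.node (nat_lit 2) (nat_lit 5) (nat_lit 10) (C.cons (nat_lit 1060) (C.node (nat_lit 3) (nat_lit 4) (nat_lit 10) (C.cons (nat_lit 1048)
  (C.node (nat_lit 1) (nat_lit 2) (nat_lit 3) C.nil) C.nil)) C.nil)) (C.cons (nat_lit 1036) (C.node (nat_lit 2) (nat_lit 5) (nat_lit 10) (C.cons (nat_lit 1316) (C.node (nat_lit 1) (nat_lit 2) (nat_lit 5) (C.cons (nat_lit 102) (C.miq (nat_lit 2148902754) (nat_lit 42336680142427290671121604)) (C.cons (nat_lit 38) (C.node (nat_lit 2) (nat_lit 5) (nat_lit 6) C.nil) C.nil))) (C.cons (nat_lit 1060) (C.node (nat_lit 2) (nat_lit 8) (nat_lit 10) (C.cons (nat_lit 1284) (C.node (nat_lit 3) (nat_lit 4) (nat_lit 6) C.nil) C.nil)) C.nil))) C.nil))) C.nil)))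 C.nil)) C.nil))) C.nil))) C.nil))) (C.cons (nat_lit 56) (C.node (nat_lit 3) (nat_lit 4) (nat_lit 9) (C.cons (nat_lit 792) (C.node (nat_lit 4) (nat_lit 6) (nat_lit 9) (C.cons (nat_lit 592) (C.node (nat_lit 4) (nat_lit 8) (nat_lit 10) (C.cons (nat_lit 1298) (C.miq (nat_lit 338864272) (nat_lit 33868941907707532862621569)) (C.cons (nat_lit 1296) (C.node (nat_lit 4) (nat_lit 5) (nat_lit 7) (C.cons (nat_lit 434) (C.miq (nat_lit 877828208) (nat_lit 681845027617840315041646465)) (C.cons (nat_lit 432) (C.miq (nat_lit 877828208) (nat_lit 681845027617840306451711873)) (C.cons (nat_lit 178) (C.miq (nat_lit 1649871169) (nat_lit 199476357517299370844881427)) (C.cons (nat_lit 176) (C.node (nat_lit 1) (nat_lit 4) (nat_lit 5) (C.cons (nat_lit 306) (C.node (nat_lit 1) (nat_lit 4) (nat_lit 7) (C.cons (nat_lit 146) (C.node (nat_lit 1) (nat_lit 8) (nat_lit 9) (C.cons (nat_lit 834) (C.miq (nat_lit 1904477843) (nat_lit 369934123208811007534694989))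 C.nil)) C.nil)) (C.cons (nat_lit 50) (C.node (nat_lit 4) (nat_lit 5) (nat_lit 8) (C.cons (nat_lit 304) (C.node (nat_lit 1) (nat_lit 4) (nat_lit 7) (C.cons (nat_lit 402) (C.node (nat_lit 1) (nat_lit 4) (nat_lit 6) (C.cons (nat_lit 82) (C.miq (nat_lit 873896048) (nat_lit 99142782563588915396282241)) C.nil)) (C.cons (nat_lit 146) (C.node (nat_lit 3) (nat_lit 4) (nat_lit 6) (C.cons (nat_lit 90) (C.miq (nat_lit 2216137568) (nat_lit 176538606082030023670432333)) C.nil)) C.nil))) C.nil)) C.nil))) C.nil))))) C.nil))) C.nil)) (C.cons (nat_lit 536) (C.node (nat_lit 3) (nat_lit 8) (nat_lit 9) (C.cons (nat_lit 778) (C.node (nat_lit 1) (nat_lit 4) (nat_lit 5) (C.cons (nat_lit 434) (C.miq (nat_lit 1649871169) (nat_lit 199476357517299370861658643)) (C.cons (nat_lit 306) (C.miq (nat_lit 1669662996) (nat_lit 359071942539348775435108883)) (C.cons (nat_lit 178) (C.miq (nat_lit 1649871169) (nat_lit 199476357517299370844881427)) (C.cons (nat_lit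 50) (C.node (nat_lit 1) (nat_lit 4) (nat_lit 7) (C.cons (nat_lit 402) (C.node (nat_lit 4) (nat_lit 5) (nat_lit 7) (C.cons (nat_lit 176) (C.node (nat_lit 4) (nat_lit 5) (nat_lit 8) (C.cons (nat_lit 304) (C.node (nat_lit 4) (nat_lit 6) (nat_lit 7) (C.cons (nat_lit 208) (C.node (nat_lit 4) (nat_lit 6) (nat_lit 9) (C.cons (nat_lit 848) (C.node (nat_lit 5) (nat_lit 8) (nat_lit 9) C.nil) C.nil)) C.nil)) C.nil)) C.nil)) (C.cons (nat_lit 146) (C.node (nat_lit 1) (nat_lit 6) (nat_lit 9) (C.cons (nat_lit 610) (C.node (nat_lit 1) (nat_lit 7) (nat_lit 9) (C.cons (nat_lit 642) (C.node (nat_lit 1) (nat_lit 9) (nat_lit 10) (C.cons (nat_lit 1538) (C.node (nat_lit 5) (nat_lit 8) (nat_lit 9) (C.cons (nat_lit 800) (C.node (nat_lit 6) (nat_lit 7) (nat_lit 9) C.nil) C.nil)) C.nil)) C.nil)) (C.cons (nat_lit 578) (C.node (nat_lit 1) (nat_lit 7) (nat_lit 9) (C.cons (nat_lit 674) (C.node (nat_lit 1) (nat_lit 9) (nat_lit 10) (C.cons (nat_lit 1538) (C.node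 (nat_lit 3) (nat_lit 7) (nat_lit 9) (C.cons (nat_lit 648) (C.node (nat_lit 6) (nat_lit 7) (nat_lit 9) C.nil) C.nil)) C.nil)) (C.cons (nat_lit 642) (C.node (nat_lit 1) (nat_lit 5) (nat_lit 9) (C.cons (nat_lit 1570) (C.node (nat_lit 3) (nat_lit 9) (nat_lit 10) (C.cons (nat_lit 1544) (C.node (nat_lit 3) (nat_lit 5) (nat_lit 9) (C.cons (nat_lit 680) (C.node (nat_lit 6) (nat_lit 7) (nat_lit 9) C.nil) C.nil)) C.nil)) (C.cons (nat_lit 546) (C.node (nat_lit 1) (nat_lit 9) (nat_lit 10) C.nil) C.nil))) C.nil))) C.nil))) C.nil))) C.nil))))) (C.cons (nat_lit 776) (C.node (nat_lit 4) (nat_lit 6) (nat_lit 7) (C.cons (nat_lit 464)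
  (C.node (nat_lit 4) (nat_lit 6) (nat_lit 9) (C.cons (nat_lit 592) (C.node (nat_lit 4) (nat_lit 8) (nat_lit 9) (C.cons (nat_lit 784) (C.node (nat_lit 1) (nat_lit 4) (nat_lit 7) (C.cons (nat_lit 178) (C.miq (nat_lit 1649871169) (nat_lit 199476357517299370844881427)) (C.cons (nat_lit 146) (C.node (nat_lit 4) (nat_lit 5) (nat_lit 7) (C.cons (nat_lit 176) (C.node (nat_lit 1) (nat_lit 4) (nat_lit 5) C.nil) C.nil)) C.nil))) C.nil)) C.nil)) (C.cons (nat_lit 208) (C.node (nat_lit 4) (nat_lit 6) (nat_lit 9) (C.cons (nat_lit 848) (C.node (nat_lit 6) (nat_lit 7) (nat_lit 9) (C.cons (nat_lit 736) (C.miq (nat_lit 610601111) (nat_lit 1374551700692577744446293889)) (C.cons (nat_lit 704) (C.node (nat_lit 4) (nat_lit 5) (nat_lit 7) (C.cons (nat_lit 434) (C.miq (nat_lit 1683134576) (nat_lit 681845027633602913737443201)) (C.cons (nat_lit 432) (C.miq (nat_lit 1683134576) (nat_lit 681845027633602905147508609)) (C.cons (nat_lit 178) (C.miq (nat_lit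 1649871169) (nat_lit 199476357517299370844881427)) (C.cons (nat_lit 176) (C.node (nat_lit 1) (nat_lit 4) (nat_lit 5) (C.cons (nat_lit 306) (C.node (nat_lit 1) (nat_lit 4) (nat_lit 7) C.nil) (C.cons (nat_lit 50) (C.node (nat_lit 4) (nat_lit 5) (nat_lit 8) (C.cons (nat_lit 304) (C.node (nat_lit 1) (nat_lit 4) (nat_lit 6) C.nil) C.nil)) C.nil))) C.nil))))) C.nil))) (C.cons (nat_lit 592) (C.node (nat_lit 4) (nat_lit 8) (nat_lit 9) (C.cons (nat_lit 784) (C.node (nat_lit 6) (nat_lit 7) (nat_lit 9) (C.cons (nat_lit 736) (C.node (nat_lit 1) (nat_lit 6) (nat_lit 9) C.nil) C.nil)) C.nil)) C.nil))) C.nil))) C.nil))) C.nil))) C.nil))) C.nil)) C.nil))) C.nil)) C.nil))) C.nil))) (C.cons (nat_lit 532) (C.ref (nat_lit 148) (nat_lit 11649936536080)) C.nil))) C.nil))) C.nil)))) C.nil))) C.nil))) C.nil)))) List.nil)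

theorem ok11_149 : okL par11 (nat_lit 150) c11_149 (nat_lit 149) = true := by decide +kernel

noncomputable def c11_150 : List C :=
  (List.cons (C.node (nat_lit 3) (nat_lit 7) (nat_lit 9) (C.cons (nat_lit 680) (C.node (nat_lit 5) (nat_lit 6) (nat_lit 7) (C.cons (nat_lit 224) (C.node (nat_lit 3) (nat_lit 5) (nat_lit 6) (C.cons (nat_lit 106) (C.miq (nat_lit 2822047510) (nat_lit 359071942914271795133153475)) (C.cons (nat_lit 104) (C.node (nat_lit 1) (nat_lit 3) (nat_lit 9) (C.cons (nat_lit 1546) (C.node (nat_lit 1) (nat_lit 7) (nat_lit 9) (C.cons (nat_lit 646) (C.miq (nat_lit 889886497) (nat_lit 1374577175759575019508138630)) (C.cons (nat_lit 642) (C.node (nat_lit 3) (nat_lit 4) (nat_lit 9) (C.cons (nat_lit 792) (C.miq (nat_lit 2726498377) (nat_lit 324020638613260464534585875)) (C.cons (nat_lit 536) (C.node (nat_lit 3) (nat_lit 8) (nat_lit 9) (C.cons (nat_lit 776) (C.node (nat_lit 2) (nat_lit 7) (nat_lit 9) (C.cons (nat_lit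 660) (C.miq (nat_lit 2207516018) (nat_lit 647989349145150643892388005)) (C.cons (nat_lit 644) (C.node (nat_lit 3) (nat_lit 5) (nat_lit 10) (C.cons (nat_lit 1068) (C.miq (nat_lit 324184432) (nat_lit 1291151794376727187717162881)) (C.cons (nat_lit 1064) (C.node (nat_lit 2) (nat_lit 5) (nat_lit 10) (C.cons (nat_lit 1572) (C.miq (nat_lit 326150482) (nat_lit 184984669429341492861011492)) (C.cons (nat_lit 1060) (C.node (nat_lit 5) (nat_lit 9) (nat_lit 10) (C.cons (nat_lit 1568) (C.node (nat_lit 4) (nat_lit 7) (nat_lit 8) (C.cons (nat_lit 432) (C.miq (nat_lit 1200784688) (nat_lit 778553337701529716611940649)) (C.cons (nat_lit 400) (C.node (nat_lit 5) (nat_lit 7) (nat_lit 8) (C.cons (nat_lit 416) (C.node (nat_lit 1) (nat_lit 2) (nat_lit 3) (C.cons (nat_lit 62) (C.miq (nat_lit 1215635603) (nat_lit 502914284735795125895561805)) (C.cons (nat_lit 46) (C.node (nat_lit 3) (nat_lit 4) (nat_lit 5) (C.cons (nat_lit 56) (C.node (nat_lit 2) (nat_lit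 5) (nat_lit 8) (C.cons (nat_lit 804) (C.miq (nat_lit 624200048) (nat_lit 67704955872836453192501121)) (C.cons (nat_lit 292) (C.node (nat_lit 4) (nat_lit 5) (nat_lit 7) (C.cons (nat_lit 178) (C.miq (nat_lit 2706871072) (nat_lit 215224232521930100720337485)) (C.cons (nat_lit 176) (C.node (nat_lit 1) (nat_lit 5) (nat_lit 7) (C.cons (nat_lit 1186) (C.node (nat_lit 3) (nat_lit 6) (nat_lit 7) C.nil) C.nil)) C.nil))) C.nil))) C.nil)) (C.cons (nat_lit 30) (C.miq (nat_lit 1377005737) (nat_lit 36280318420856797106145153)) (C.cons (nat_lit 14) (C.miq (nat_lit 1377005737) (nat_lit 16937505307022730310846337)) C.nil))))) C.nil)) C.nil))) C.nil)) C.nil))) C.nil))) C.nil))) C.nil)) C.nil))) C.nil))) (C.cons (nat_lit 522) (C.node (nat_lit 1) (nat_lit 7) (nat_lit 9) (C.cons (nat_lit 646) (C.node (nat_lit 2) (nat_lit 4) (nat_lit 7) (C.cons (nat_lit 148) (C.node (nat_lit 2) (nat_lit 8) (nat_lit 9) (C.cons (nat_lit 804) (C.miq (nat_lit 1117194323)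 (nat_lit 780968901900865746168709417)) (C.cons (nat_lit 772) (C.node (nat_lit 3) (nat_lit 8) (nat_lit 9) (C.cons (nat_lit 792) (C.miq (nat_lit 1501721408) (nat_lit 933293776646672270744682649)) (C.cons (nat_lit 776) (C.node (nat_lit 4) (nat_lit 6) (nat_lit 7) (C.cons (nat_lit 720) (C.miq (nat_lit 1730824464) (nat_lit 1397539221625187891568640531)) (C.cons (nat_lit 208) (C.node (nat_lit 4) (nat_lit 7) (nat_lit 9) (C.cons (nat_lit 656) (C.node (nat_lit 6) (nat_lit 7) (nat_lit 9) (C.cons (nat_lit 704) (C.node (nat_lit 4) (nat_lit 7) (nat_lit 8) (C.cons (nat_lit 432) (C.miq (nat_lit 1495823108) (nat_lit 933298701927339079316603033)) (C.cons (nat_lit 400) (C.node (nat_lit 5) (nat_lit 7) (nat_lit 8) (C.cons (nat_lit 416) (C.node (nat_lit 4) (nat_lit 5) (nat_lit 7) (C.cons (nat_lit 178) (C.miq (nat_lit 659984704) (nat_lit 270810248907769949593862675)) (C.cons (nat_lit 176) (C.node (nat_lit 3) (nat_lit 6) (nat_lit 7) (C.cons (nat_lit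 200) (C.node (nat_lit 3) (nat_lit 7) (nat_lit 10) (C.cons (nat_lit 1160) (C.node (nat_lit 6) (nat_lit 7) (nat_lit 10) C.nil) C.nil)) C.nil)) C.nil))) C.nil)) C.nil))) C.nil)) C.nil)) C.nil))) C.nil))) C.nil))) C.nil)) (C.cons (nat_lit 642) (C.node (nat_lit 1) (nat_lit 2) (nat_lit 7) (C.cons (nat_lit 150) (C.node (nat_lit 2) (nat_lit 7) (nat_lit 9)
  (C.cons (nat_lit 644) (C.node (nat_lit 4) (nat_lit 7) (nat_lit 10) (C.cons (nat_lit 1168) (C.node (nat_lit 1) (nat_lit 2) (nat_lit 3) (C.cons (nat_lit 46) (C.miq (nat_lit 2838562642) (nat_lit 631078296972692774586286245)) (C.cons (nat_lit 14) (C.node (nat_lit 1) (nat_lit 5) (nat_lit 7) (C.cons (nat_lit 1186) (C.miq (nat_lit 1394702602) (nat_lit 16946839504481741940656001)) (C.cons (nat_lit 162) (C.node (nat_lit 1) (nat_lit 7) (nat_lit 10) (C.cons (nat_lit 1154) (C.node (nat_lit 5) (nat_lit 7) (nat_lit 10) (C.cons (nat_lit 1184) (C.node (nat_lit 3) (nat_lit 8) (nat_lit 9) (C.cons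 (nat_lit 792) (C.miq (nat_lit 1232241488) (nat_lit 778553337802860708199989545)) (C.cons (nat_lit 776) (C.node (nat_lit 4) (nat_lit 5) (nat_lit 7) (C.cons (nat_lit 432) (C.miq (nat_lit 1200784688) (nat_lit 778553337701529716611940649)) (C.cons (nat_lit 176) (C.node (nat_lit 4) (nat_lit 7) (nat_lit 8) (C.cons (nat_lit 400) (C.node (nat_lit 5) (nat_lit 7) (nat_lit 8) (C.cons (nat_lit 416) (C.node (nat_lit 3) (nat_lit 6) (nat_lit 7) (C.cons (nat_lit 1224) (C.node (nat_lit 1) (nat_lit 3) (nat_lit 6) (C.cons (nat_lit 90) (C.miq (nat_lit 1931060800) (nat_lit 631094714378727783320978545)) C.nil)) C.nil)) C.nil)) C.nil)) C.nil))) C.nil))) C.nil)) C.nil)) C.nil))) C.nil))) C.nil)) C.nil)) (C.cons (nat_lit 134) (C.node (nat_lit 1) (nat_lit 9) (nat_lit 10) (C.cons (nat_lit 1570) (C.node (nat_lit 5) (nat_lit 7) (nat_lit 10) (C.cons (nat_lit 1184) (C.node (nat_lit 5) (nat_lit 8) (nat_lit 10) (C.cons (nat_lit 1312) (C.node (nat_lit 1) (nat_lit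 5) (nat_lit 6) (C.cons (nat_lit 354) (C.miq (nat_lit 1132791574) (nat_lit 359071942416624036324966595)) (C.cons (nat_lit 98) (C.node (nat_lit 1) (nat_lit 7) (nat_lit 10) (C.cons (nat_lit 1170) (C.miq (nat_lit 2241933383) (nat_lit 1898020804895735797389590681)) (C.cons (nat_lit 1154) (C.node (nat_lit 4) (nat_lit 7) (nat_lit 10) (C.cons (nat_lit 1168) (C.node (nat_lit 1) (nat_lit 3) (nat_lit 5) (C.cons (nat_lit 62) (C.miq (nat_lit 2436343104) (nat_lit 476352209565445470616618097)) (C.cons (nat_lit 58) (C.miq (nat_lit 2436343104) (nat_lit 476352209565445453436748913)) (C.cons (nat_lit 46) (C.miq (nat_lit 1964675872) (nat_lit 1898048973181736582136660557)) (C.cons (nat_lit 42) (C.node (nat_lit 1) (nat_lit 2) (nat_lit 3) (C.cons (nat_lit 30) (C.node (nat_lit 3) (nat_lit 4) (nat_lit 5) (C.cons (nat_lit 56) (C.node (nat_lit 1) (nat_lit 2) (nat_lit 9) (C.cons (nat_lit 774) (C.miq (nat_lit 1361357184) (nat_lit 36288748978369720759945089))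 (C.cons (nat_lit 518) (C.node (nat_lit 1) (nat_lit 3) (nat_lit 6) (C.cons (nat_lit 1098) (C.node (nat_lit 3) (nat_lit 6) (nat_lit 7) C.nil) C.nil)) C.nil))) C.nil)) (C.cons (nat_lit 14) (C.node (nat_lit 1) (nat_lit 2) (nat_lit 4) (C.cons (nat_lit 54) (C.miq (nat_lit 681918609) (nat_lit 1586111671536550276814209555)) (C.cons (nat_lit 22) (C.node (nat_lit 1) (nat_lit 2) (nat_lit 5) (C.cons (nat_lit 294) (C.node (nat_lit 1) (nat_lit 2) (nat_lit 9) C.nil) C.nil)) C.nil))) C.nil))) C.nil))))) C.nil)) C.nil))) C.nil))) C.nil)) C.nil)) (C.cons (nat_lit 1538) (C.node (nat_lit 2) (nat_lit 4) (nat_lit 7) (C.cons (nat_lit 660) (C.node (nat_lit 4) (nat_lit 6) (nat_lit 7) (C.cons (nat_lit 208) (C.node (nat_lit 6) (nat_lit 7) (nat_lit 9) (C.cons (nat_lit 704) (C.node (nat_lit 2) (nat_lit 9) (nat_lit 10) (C.cons (nat_lit 1572) (C.miq (nat_lit 2190804083) (nat_lit 1900436867195158357646770329)) (C.cons (nat_lit 1540) (C.node (nat_lit 5) (nat_lit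 9) (nat_lit 10) (C.cons (nat_lit 1568) (C.node (nat_lit 3) (nat_lit 8) (nat_lit 9) (C.cons (nat_lit 792) (C.node (nat_lit 3) (nat_lit 9) (nat_lit 10) (C.cons (nat_lit 1544) (C.node (nat_lit 4) (nat_lit 5) (nat_lit 9) (C.cons (nat_lit 560) (C.node (nat_lit 4) (nat_lit 6) (nat_lit 9) (C.cons (nat_lit 592) (C.node (nat_lit 4) (nat_lit 9) (nat_lit 10) (C.cons (nat_lit 1552) (C.node (nat_lit 6) (nat_lit 8) (nat_lit 9) (C.cons (nat_lit 866) (C.miq (nat_lit 1192767593) (nat_lit 476331382792536781811221069)) (C.cons (nat_lit 864)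
  (C.miq (nat_lit 696611888) (nat_lit 1044514952045588655284748441)) (C.cons (nat_lit 834) (C.miq (nat_lit 1192767593) (nat_lit 476331382792536781809123917)) C.nil)))) C.nil)) C.nil)) C.nil)) C.nil)) (C.cons (nat_lit 776) (C.miq (nat_lit 1211703383) (nat_lit 938138610950010732074762405)) C.nil))) C.nil)) C.nil))) C.nil)) C.nil)) (C.cons (nat_lit 148) (C.node (nat_lit 2) (nat_lit 7) (nat_lit 9) (C.cons (nat_lit 644) (C.node (nat_lit 3) (nat_lit 8) (nat_lit 9) (C.cons (nat_lit 792) (C.miq (nat_lit 1232241488) (nat_lit 778553337802860708199989545)) (C.cons (nat_lit 776) (C.node (nat_lit 4) (nat_lit 7) (nat_lit 8) (C.cons (nat_lit 432) (C.miq (nat_lit 1200784688) (nat_lit 778553337701529716611940649)) (C.cons (nat_lit 400) (C.node (nat_lit 5) (nat_lit 7) (nat_lit 8) (C.cons (nat_lit 416) (C.node (nat_lit 3) (nat_lit 4) (nat_lit 9) (C.cons (nat_lit 1560) (C.node (nat_lit 2) (nat_lit 4) (nat_lit 10) (C.cons (nat_lit 1044) (C.node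 (nat_lit 2) (nat_lit 9) (nat_lit 10) (C.cons (nat_lit 1572) (C.miq (nat_lit 691493440) (nat_lit 822072601493205364424377457)) (C.cons (nat_lit 1540) (C.node (nat_lit 5) (nat_lit 9) (nat_lit 10) (C.cons (nat_lit 1568) (C.node (nat_lit 3) (nat_lit 6) (nat_lit 7) (C.cons (nat_lit 1224) (C.miq (nat_lit 1938909760) (nat_lit 631062875298462874236814449)) (C.cons (nat_lit 200) (C.node (nat_lit 6) (nat_lit 7) (nat_lit 9) C.nil) C.nil))) C.nil)) C.nil))) C.nil)) (C.cons (nat_lit 536) (C.node (nat_lit 3) (nat_lit 9) (nat_lit 10) (C.cons (nat_lit 1544) (C.node (nat_lit 3) (nat_lit 6) (nat_lit 7) (C.cons (nat_lit 1224) (C.node (nat_lit 1) (nat_lit 3) (nat_lit 6) (C.cons (nat_lit 90) (C.miq (nat_lit 1931060800) (nat_lit 631094714378727783320978545)) (C.cons (nat_lit 74) (C.node (nat_lit 4) (nat_lit 6) (nat_lit 7) (C.cons (nat_lit 720) (C.node (nat_lit 4) (nat_lit 7) (nat_lit 10) (C.cons (nat_lit 1170) (C.miq (nat_lit 342009744) (nat_lit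 101568787770097660389558145)) C.nil)) C.nil)) C.nil))) (C.cons (nat_lit 200) (C.node (nat_lit 3) (nat_lit 7) (nat_lit 10) (C.cons (nat_lit 1160) (C.node (nat_lit 6) (nat_lit 7) (nat_lit 10) (C.cons (nat_lit 1216) (C.node (nat_lit 4) (nat_lit 6) (nat_lit 7) C.nil) C.nil)) C.nil)) C.nil))) C.nil)) C.nil))) C.nil)) C.nil))) C.nil))) C.nil)) C.nil))) C.nil))) C.nil))) C.nil))) C.nil))) C.nil))) C.nil)) (C.cons (nat_lit 648) (C.node (nat_lit 3) (nat_lit 8) (nat_lit 9) (C.cons (nat_lit 792) (C.node (nat_lit 3) (nat_lit 4) (nat_lit 6) (C.cons (nat_lit 90) (C.miq (nat_lit 1098397193) (nat_lit 476331382774803858347590221)) (C.cons (nat_lit 88) (C.node (nat_lit 4) (nat_lit 8) (nat_lit 10) (C.cons (nat_lit 1298) (C.miq (nat_lit 950178832) (nat_lit 1552271617740377031738589715)) (C.cons (nat_lit 1296) (C.node (nat_lit 1) (nat_lit 4) (nat_lit 6) (C.cons (nat_lit 338) (C.node (nat_lit 1) (nat_lit 6) (nat_lit 9) (C.cons (nat_lit 610) (C.node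 (nat_lit 5) (nat_lit 6) (nat_lit 8) (C.cons (nat_lit 352) (C.node (nat_lit 6) (nat_lit 8) (nat_lit 9) (C.cons (nat_lit 832) (C.node (nat_lit 1) (nat_lit 3) (nat_lit 9) (C.cons (nat_lit 1546) (C.miq (nat_lit 2726498377) (nat_lit 324020638613260464534585875)) (C.cons (nat_lit 522) (C.node (nat_lit 1) (nat_lit 9) (nat_lit 10) (C.cons (nat_lit 1538) (C.node (nat_lit 1) (nat_lit 8) (nat_lit 9) (C.cons (nat_lit 774) (C.miq (nat_lit 1367632160) (nat_lit 408637901149459528927216205)) (C.cons (nat_lit 770) (C.node (nat_lit 2) (nat_lit 8) (nat_lit 9) (C.cons (nat_lit 804) (C.miq (nat_lit 1463361608) (nat_lit 783398762338958996028260629)) (C.cons (nat_lit 772) (C.node (nat_lit 5) (nat_lit 8) (nat_lit 9) (C.cons (nat_lit 800) (C.node (nat_lit 3) (nat_lit 5) (nat_lit 6) (C.cons (nat_lit 232) (C.miq (nat_lit 1497587975) (nat_lit 957473528951113423414427843)) (C.cons (nat_lit 104) (C.node (nat_lit 5) (nat_lit 6) (nat_lit 7) (C.cons (nat_lit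 224) (C.node (nat_lit 4) (nat_lit 5) (nat_lit 8) (C.cons (nat_lit 432) (C.miq (nat_lit 1485993008) (nat_lit 933293776576866476540887193)) (C.cons (nat_lit 304) (C.node (nat_lit 4) (nat_lit 7) (nat_lit 8) (C.cons (nat_lit 400)
  (C.node (nat_lit 5) (nat_lit 7) (nat_lit 8) C.nil) C.nil)) C.nil))) C.nil)) C.nil))) C.nil)) C.nil))) C.nil))) C.nil)) C.nil))) C.nil)) C.nil)) (C.cons (nat_lit 578) (C.node (nat_lit 1) (nat_lit 5) (nat_lit 6) (C.cons (nat_lit 106) (C.miq (nat_lit 2822047510) (nat_lit 359071942914271795133153475)) (C.cons (nat_lit 98) (C.node (nat_lit 1) (nat_lit 3) (nat_lit 6) (C.cons (nat_lit 1098) (C.node (nat_lit 3) (nat_lit 6) (nat_lit 8) (C.cons (nat_lit 328) (C.node (nat_lit 3) (nat_lit 8) (nat_lit 10) (C.cons (nat_lit 1288) (C.node (nat_lit 6) (nat_lit 7) (nat_lit 10) (C.cons (nat_lit 1216) (C.node (nat_lit 6) (nat_lit 8) (nat_lit 10) (C.cons (nat_lit 1344) (C.node (nat_lit 3) (nat_lit 5) (nat_lit 6) (C.cons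 (nat_lit 232) (C.miq (nat_lit 326280784) (nat_lit 169268633648248599878108273)) (C.cons (nat_lit 104) (C.node (nat_lit 3) (nat_lit 6) (nat_lit 7) (C.cons (nat_lit 200) (C.node (nat_lit 5) (nat_lit 6) (nat_lit 8) C.nil) C.nil)) C.nil))) C.nil)) C.nil)) C.nil)) C.nil)) (C.cons (nat_lit 74) (C.node (nat_lit 1) (nat_lit 6) (nat_lit 10) (C.cons (nat_lit 1090) (C.node (nat_lit 1) (nat_lit 8) (nat_lit 10) (C.cons (nat_lit 1314) (C.node (nat_lit 1) (nat_lit 2) (nat_lit 8) (C.cons (nat_lit 774) (C.miq (nat_lit 1361488016) (nat_lit 84645781690897293730711425)) (C.cons (nat_lit 262) (C.node (nat_lit 1) (nat_lit 8) (nat_lit 9) (C.cons (nat_lit 770) (C.node (nat_lit 1) (nat_lit 7) (nat_lit 10) (C.cons (nat_lit 1170) (C.node (nat_lit 1) (nat_lit 2) (nat_lit 7) (C.cons (nat_lit 646) (C.miq (nat_lit 1093052304) (nat_lit 84645781650364347328563073)) (C.cons (nat_lit 134) (C.node (nat_lit 3) (nat_lit 6) (nat_lit 8) (C.cons (nat_lit 328) (C.node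 (nat_lit 3) (nat_lit 8) (nat_lit 10) C.nil) C.nil)) C.nil))) (C.cons (nat_lit 1154) (C.miq (nat_lit 1243022723) (nat_lit 1395103218507168037305188649)) C.nil))) C.nil)) C.nil))) (C.cons (nat_lit 1282) (C.node (nat_lit 5) (nat_lit 8) (nat_lit 10) (C.cons (nat_lit 1312) (C.node (nat_lit 4) (nat_lit 7) (nat_lit 10) (C.cons (nat_lit 1170) (C.miq (nat_lit 1511523443) (nat_lit 1549848379748986567367721113)) (C.cons (nat_lit 1168) (C.node (nat_lit 3) (nat_lit 4) (nat_lit 5) (C.cons (nat_lit 62) (C.miq (nat_lit 2822834482) (nat_lit 408635946163601487477736013)) (C.cons (nat_lit 60) (C.miq (nat_lit 1469259908) (nat_lit 783385037961375749624037653)) (C.cons (nat_lit 58) (C.miq (nat_lit 1518420083) (nat_lit 1549843970977156176305324185)) (C.cons (nat_lit 56) (C.node (nat_lit 4) (nat_lit 5) (nat_lit 8) (C.cons (nat_lit 432) (C.miq (nat_lit 591726983) (nat_lit 67702889776983558784550785)) (C.cons (nat_lit 304) (C.node (nat_lit 4) (nat_lit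 7) (nat_lit 8) (C.cons (nat_lit 400) (C.node (nat_lit 5) (nat_lit 7) (nat_lit 8) (C.cons (nat_lit 416) (C.node (nat_lit 1) (nat_lit 4) (nat_lit 10) (C.cons (nat_lit 1050) (C.node (nat_lit 2) (nat_lit 3) (nat_lit 4) (C.cons (nat_lit 28) (C.node (nat_lit 1) (nat_lit 2) (nat_lit 3) C.nil) C.nil)) (C.cons (nat_lit 1042) (C.node (nat_lit 1) (nat_lit 3) (nat_lit 4) (C.cons (nat_lit 30) (C.miq (nat_lit 2216334112) (nat_lit 1259736140456737506563916365)) (C.cons (nat_lit 26) (C.node (nat_lit 3) (nat_lit 6) (nat_lit 8) C.nil) C.nil))) C.nil))) C.nil)) C.nil)) C.nil))) C.nil))))) C.nil))) C.nil)) C.nil))) C.nil)) C.nil))) C.nil))) C.nil))) (C.cons (nat_lit 82) (C.node (nat_lit 4) (nat_lit 6) (nat_lit 8) (C.cons (nat_lit 336) (C.node (nat_lit 1) (nat_lit 6) (nat_lit 8) (C.cons (nat_lit 1346) (C.miq (nat_lit 878801064) (nat_lit 99139185268635188792002433)) (C.cons (nat_lit 866) (C.miq (nat_lit 1192767593) (nat_lit 476331382792536781811221069))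 (C.cons (nat_lit 834) (C.miq (nat_lit 1192767593) (nat_lit 476331382792536781809123917)) (C.cons (nat_lit 354) (C.miq (nat_lit 1132791574) (nat_lit 359071942416624036324966595)) (C.cons (nat_lit 322) (C.node (nat_lit 1) (nat_lit 4) (nat_lit 8) (C.cons (nat_lit 306) (C.node (nat_lit 1) (nat_lit 8) (nat_lit 10) (C.cons (nat_lit 1282) (C.node (nat_lit 4) (nat_lit 7) (nat_lit 8) (C.cons (nat_lit 400) (C.node (nat_lit 5) (nat_lit 7) (nat_lit 8)
  (C.cons (nat_lit 416) (C.node (nat_lit 5) (nat_lit 8) (nat_lit 10) (C.cons (nat_lit 1312) (C.node (nat_lit 1) (nat_lit 2) (nat_lit 8) (C.cons (nat_lit 774) (C.miq (nat_lit 1445478545) (nat_lit 546440115489538520396464659)) (C.cons (nat_lit 262) (C.node (nat_lit 2) (nat_lit 5) (nat_lit 8) (C.cons (nat_lit 804) (C.miq (nat_lit 1213675808) (nat_lit 502915963534460648958526029)) C.nil)) C.nil))) C.nil)) C.nil)) C.nil)) C.nil)) (C.cons (nat_lit 274) (C.node (nat_lit 1) (nat_lit 6) (nat_lit 9)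 (C.cons (nat_lit 610) (C.node (nat_lit 5) (nat_lit 6) (nat_lit 8) (C.cons (nat_lit 352) (C.node (nat_lit 6) (nat_lit 8) (nat_lit 9) (C.cons (nat_lit 832) (C.node (nat_lit 1) (nat_lit 3) (nat_lit 9) (C.cons (nat_lit 1546) (C.miq (nat_lit 2726498377) (nat_lit 324020638613260464534585875)) (C.cons (nat_lit 522) (C.node (nat_lit 1) (nat_lit 9) (nat_lit 10) (C.cons (nat_lit 1538) (C.node (nat_lit 1) (nat_lit 8) (nat_lit 9) (C.cons (nat_lit 774) (C.miq (nat_lit 1367632160) (nat_lit 331266648694123261746020941)) (C.cons (nat_lit 770) (C.node (nat_lit 2) (nat_lit 8) (nat_lit 9) (C.cons (nat_lit 804) (C.miq (nat_lit 1463361608) (nat_lit 783398762338958996028260629)) (C.cons (nat_lit 772) (C.node (nat_lit 1) (nat_lit 2) (nat_lit 8) C.nil) C.nil))) C.nil))) C.nil)) C.nil))) C.nil)) C.nil)) (C.cons (nat_lit 578) (C.node (nat_lit 1) (nat_lit 5) (nat_lit 6) (C.cons (nat_lit 106) (C.miq (nat_lit 2822047510) (nat_lit 359071942914271795133153475))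 (C.cons (nat_lit 98) (C.node (nat_lit 1) (nat_lit 3) (nat_lit 6) (C.cons (nat_lit 1098) (C.node (nat_lit 3) (nat_lit 6) (nat_lit 8) (C.cons (nat_lit 328) (C.node (nat_lit 3) (nat_lit 8) (nat_lit 10) (C.cons (nat_lit 1288) (C.node (nat_lit 6) (nat_lit 7) (nat_lit 10) (C.cons (nat_lit 1216) (C.node (nat_lit 3) (nat_lit 5) (nat_lit 6) (C.cons (nat_lit 232) (C.miq (nat_lit 326280784) (nat_lit 169268633648248599878108273)) C.nil)) C.nil)) C.nil)) C.nil)) (C.cons (nat_lit 74) (C.node (nat_lit 1) (nat_lit 6) (nat_lit 10) (C.cons (nat_lit 1090) (C.node (nat_lit 1) (nat_lit 8) (nat_lit 10) (C.cons (nat_lit 1314) (C.node (nat_lit 1) (nat_lit 2) (nat_lit 8) (C.cons (nat_lit 774) (C.miq (nat_lit 1361488016) (nat_lit 84645781690897293730711425)) (C.cons (nat_lit 262) (C.node (nat_lit 1) (nat_lit 8) (nat_lit 9) C.nil) C.nil))) (C.cons (nat_lit 1282) (C.node (nat_lit 5) (nat_lit 8) (nat_lit 10) (C.cons (nat_lit 1312) (C.node (nat_lit 4) (nat_lit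 6) (nat_lit 7) (C.cons (nat_lit 720) (C.node (nat_lit 3) (nat_lit 5) (nat_lit 6) C.nil) C.nil)) C.nil)) C.nil))) C.nil)) C.nil))) C.nil))) C.nil))) C.nil))) C.nil)))))) C.nil)) C.nil))) C.nil))) C.nil))) (C.cons (nat_lit 776) (C.node (nat_lit 4) (nat_lit 6) (nat_lit 7) (C.cons (nat_lit 720) (C.node (nat_lit 2) (nat_lit 7) (nat_lit 9) (C.cons (nat_lit 646) (C.miq (nat_lit 1730824464) (nat_lit 1397539221625187891568640531)) (C.cons (nat_lit 644) (C.node (nat_lit 4) (nat_lit 7) (nat_lit 8) (C.cons (nat_lit 432) (C.miq (nat_lit 910494072) (nat_lit 1374554135750615117065095041)) (C.cons (nat_lit 400) (C.node (nat_lit 5) (nat_lit 7) (nat_lit 8) (C.cons (nat_lit 416) (C.node (nat_lit 4) (nat_lit 7) (nat_lit 10) (C.cons (nat_lit 1170) (C.miq (nat_lit 342009744) (nat_lit 101568787770097660389558145)) (C.cons (nat_lit 1168) (C.node (nat_lit 5) (nat_lit 8) (nat_lit 10) (C.cons (nat_lit 1314) (C.miq (nat_lit 390759173) (nat_lit 1412049596442501528436146473))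 (C.cons (nat_lit 1312) (C.node (nat_lit 5) (nat_lit 6) (nat_lit 8) (C.cons (nat_lit 866) (C.miq (nat_lit 895748247) (nat_lit 1374551479337278436774250369)) (C.cons (nat_lit 864) (C.miq (nat_lit 895748247) (nat_lit 1374551479337278428184315777)) (C.cons (nat_lit 354) (C.miq (nat_lit 1132791574) (nat_lit 359071942416624036324966595)) (C.cons (nat_lit 352) (C.node (nat_lit 1) (nat_lit 2) (nat_lit 7) (C.cons (nat_lit 150) (C.node (nat_lit 4) (nat_lit 5) (nat_lit 7) (C.cons (nat_lit 176) (C.node (nat_lit 1) (nat_lit 2) (nat_lit 3) (C.cons (nat_lit 46) (C.node (nat_lit 1) (nat_lit 3) (nat_lit 9) (C.cons (nat_lit 1546)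
  (C.miq (nat_lit 1469259937) (nat_lit 783384779706958717739729927)) (C.cons (nat_lit 522) (C.node (nat_lit 1) (nat_lit 7) (nat_lit 10) (C.cons (nat_lit 1186) (C.miq (nat_lit 1402409482) (nat_lit 783405808961701503528141831)) (C.cons (nat_lit 1154) (C.node (nat_lit 1) (nat_lit 2) (nat_lit 8) (C.cons (nat_lit 774) (C.node (nat_lit 2) (nat_lit 5) (nat_lit 8) (C.cons (nat_lit 292) (C.node (nat_lit 1) (nat_lit 5) (nat_lit 7) C.nil) C.nil)) (C.cons (nat_lit 262) (C.node (nat_lit 1) (nat_lit 2) (nat_lit 9) (C.cons (nat_lit 518) (C.node (nat_lit 1) (nat_lit 5) (nat_lit 7) (C.cons (nat_lit 674) (C.node (nat_lit 1) (nat_lit 5) (nat_lit 6) (C.cons (nat_lit 98) (C.node (nat_lit 1) (nat_lit 5) (nat_lit 10) C.nil) C.nil)) C.nil)) C.nil)) C.nil))) C.nil))) C.nil))) (C.cons (nat_lit 14) (C.node (nat_lit 1) (nat_lit 7) (nat_lit 9) (C.cons (nat_lit 674) (C.node (nat_lit 1) (nat_lit 7) (nat_lit 10) (C.cons (nat_lit 1154) (C.node (nat_lit 5)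 (nat_lit 6) (nat_lit 9) (C.cons (nat_lit 608) (C.node (nat_lit 1) (nat_lit 2) (nat_lit 5) (C.cons (nat_lit 294) (C.miq (nat_lit 1366524480) (nat_lit 476322251693908073979117845)) (C.cons (nat_lit 38) (C.node (nat_lit 1) (nat_lit 5) (nat_lit 6) (C.cons (nat_lit 106) (C.miq (nat_lit 2822047510) (nat_lit 359071942914271795133153475)) (C.cons (nat_lit 98) (C.node (nat_lit 1) (nat_lit 5) (nat_lit 8) (C.cons (nat_lit 306) (C.node (nat_lit 1) (nat_lit 2) (nat_lit 8) (C.cons (nat_lit 774) (C.miq (nat_lit 676761920) (nat_lit 425552753854471830731031059)) C.nil)) C.nil)) C.nil))) C.nil))) C.nil)) C.nil)) (C.cons (nat_lit 642) (C.node (nat_lit 5) (nat_lit 7) (nat_lit 9) (C.cons (nat_lit 672) (C.node (nat_lit 1) (nat_lit 5) (nat_lit 7) (C.cons (nat_lit 1186) (C.node (nat_lit 1) (nat_lit 9) (nat_lit 10) (C.cons (nat_lit 1546) (C.miq (nat_lit 1378971802) (nat_lit 16946839359522128968419201)) (C.cons (nat_lit 1538) (C.node (nat_lit 4) (nat_lit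 8) (nat_lit 9) (C.cons (nat_lit 816) (C.node (nat_lit 1) (nat_lit 5) (nat_lit 8) (C.cons (nat_lit 294) (C.miq (nat_lit 1366524480) (nat_lit 476322251693908073979117845)) C.nil)) C.nil)) C.nil))) (C.cons (nat_lit 162) (C.node (nat_lit 1) (nat_lit 7) (nat_lit 10) (C.cons (nat_lit 1154) (C.node (nat_lit 5) (nat_lit 6) (nat_lit 7) (C.cons (nat_lit 232) (C.node (nat_lit 3) (nat_lit 7) (nat_lit 10) C.nil) C.nil)) C.nil)) C.nil))) C.nil)) C.nil))) C.nil))) C.nil)) (C.cons (nat_lit 134) (C.node (nat_lit 2) (nat_lit 4) (nat_lit 7) (C.cons (nat_lit 148) (C.node (nat_lit 1) (nat_lit 4) (nat_lit 7) (C.cons (nat_lit 178) (C.node (nat_lit 1) (nat_lit 7) (nat_lit 9) (C.cons (nat_lit 642) (C.node (nat_lit 1) (nat_lit 7) (nat_lit 10) (C.cons (nat_lit 1154) (C.node (nat_lit 5) (nat_lit 7) (nat_lit 9) (C.cons (nat_lit 672) (C.node (nat_lit 5) (nat_lit 6) (nat_lit 7) (C.cons (nat_lit 232) (C.miq (nat_lit 924411200) (nat_lit 776141241390154304223118449))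 C.nil)) C.nil)) C.nil)) C.nil)) (C.cons (nat_lit 146) (C.node (nat_lit 4) (nat_lit 5) (nat_lit 7) (C.cons (nat_lit 176) (C.node (nat_lit 1) (nat_lit 7) (nat_lit 9) (C.cons (nat_lit 674) (C.node (nat_lit 1) (nat_lit 7) (nat_lit 10) (C.cons (nat_lit 1154) (C.node (nat_lit 5) (nat_lit 6) (nat_lit 9) (C.cons (nat_lit 608) (C.node (nat_lit 5) (nat_lit 6) (nat_lit 7) (C.cons (nat_lit 232) (C.node (nat_lit 3) (nat_lit 7) (nat_lit 10) C.nil) C.nil)) C.nil)) C.nil)) (C.cons (nat_lit 642) (C.node (nat_lit 5) (nat_lit 7) (nat_lit 9) C.nil) C.nil))) C.nil)) C.nil))) C.nil)) C.nil))) C.nil))))) C.nil))) C.nil))) C.nil)) C.nil))) C.nil))) (C.cons (nat_lit 208) (C.node (nat_lit 4) (nat_lit 6) (nat_lit 9) (C.cons (nat_lit 848) (C.node (nat_lit 4) (nat_lit 7) (nat_lit 8) (C.cons (nat_lit 432) (C.miq (nat_lit 642058631) (nat_lit 1374551700780397937160095617)) (C.cons (nat_lit 400) (C.node (nat_lit 5) (nat_lit 7) (nat_lit 8) (C.cons (nat_lit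 416) (C.node (nat_lit 5) (nat_lit 6) (nat_lit 8) (C.cons (nat_lit 354) (C.miq (nat_lit 1132791574) (nat_lit 359071942416624036324966595)) (C.cons (nat_lit 352) (C.node (nat_lit 6) (nat_lit 7) (nat_lit 9) (C.cons (nat_lit 736)
  (C.miq (nat_lit 1179814256) (nat_lit 120897691948265276373796737)) (C.cons (nat_lit 704) (C.node (nat_lit 1) (nat_lit 4) (nat_lit 6) (C.cons (nat_lit 90) (C.node (nat_lit 1) (nat_lit 6) (nat_lit 8) (C.cons (nat_lit 1346) (C.node (nat_lit 3) (nat_lit 6) (nat_lit 8) (C.cons (nat_lit 328) (C.node (nat_lit 5) (nat_lit 8) (nat_lit 10) (C.cons (nat_lit 1312) (C.node (nat_lit 1) (nat_lit 4) (nat_lit 10) (C.cons (nat_lit 1170) (C.miq (nat_lit 1410534008) (nat_lit 108808802768348591117961089)) (C.cons (nat_lit 1042) (C.node (nat_lit 4) (nat_lit 7) (nat_lit 10) (C.cons (nat_lit 1168) (C.node (nat_lit 3) (nat_lit 4) (nat_lit 8) (C.cons (nat_lit 1304) (C.node (nat_lit 2) (nat_lit 3) (nat_lit 4) (C.cons (nat_lit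 60) (C.miq (nat_lit 321348688) (nat_lit 169253211886475463434241137)) (C.cons (nat_lit 28) (C.node (nat_lit 1) (nat_lit 2) (nat_lit 8) (C.cons (nat_lit 806) (C.miq (nat_lit 1209690400) (nat_lit 1627235127387996918976545357)) C.nil)) C.nil))) (C.cons (nat_lit 280) (C.miq (nat_lit 2755158129) (nat_lit 338524059129657087650037955)) C.nil))) C.nil)) C.nil))) C.nil)) C.nil)) (C.cons (nat_lit 322) (C.miq (nat_lit 2820015924) (nat_lit 389295088404637524499759257)) C.nil))) (C.cons (nat_lit 82) (C.node (nat_lit 3) (nat_lit 4) (nat_lit 6) (C.cons (nat_lit 88) (C.node (nat_lit 1) (nat_lit 6) (nat_lit 8) (C.cons (nat_lit 1346) (C.miq (nat_lit 878801064) (nat_lit 99139185268635188792002433)) (C.cons (nat_lit 322) (C.node (nat_lit 3) (nat_lit 4) (nat_lit 8) (C.cons (nat_lit 1304) (C.miq (nat_lit 373518504) (nat_lit 106392740198144912859334529)) (C.cons (nat_lit 280) (C.node (nat_lit 4) (nat_lit 8) (nat_lit 10) (C.cons (nat_lit 1298) (C.miq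 (nat_lit 342010000) (nat_lit 101568787806127007164336001)) (C.cons (nat_lit 1296) (C.node (nat_lit 1) (nat_lit 4) (nat_lit 8) (C.cons (nat_lit 306) (C.node (nat_lit 1) (nat_lit 8) (nat_lit 10) (C.cons (nat_lit 1282) (C.node (nat_lit 5) (nat_lit 8) (nat_lit 10) C.nil) C.nil)) (C.cons (nat_lit 274) (C.node (nat_lit 4) (nat_lit 5) (nat_lit 8) (C.cons (nat_lit 304) (C.node (nat_lit 1) (nat_lit 8) (nat_lit 10) (C.cons (nat_lit 1282) (C.node (nat_lit 5) (nat_lit 8) (nat_lit 10) C.nil) C.nil)) C.nil)) C.nil))) C.nil))) C.nil))) C.nil))) C.nil)) C.nil))) C.nil))) C.nil))) C.nil)) C.nil))) (C.cons (nat_lit 592) (C.node (nat_lit 4) (nat_lit 7) (nat_lit 8) (C.cons (nat_lit 432) (C.node (nat_lit 4) (nat_lit 8) (nat_lit 9) (C.cons (nat_lit 784) (C.node (nat_lit 4) (nat_lit 7) (nat_lit 9) (C.cons (nat_lit 660) (C.miq (nat_lit 1469285408) (nat_lit 783389409914869621602451733)) (C.cons (nat_lit 656) (C.node (nat_lit 4) (nat_lit 7) (nat_lit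 10) (C.cons (nat_lit 1170) (C.miq (nat_lit 319453268) (nat_lit 1248841954463380594150670768)) (C.cons (nat_lit 1168) (C.node (nat_lit 1) (nat_lit 7) (nat_lit 10) (C.cons (nat_lit 1186) (C.miq (nat_lit 394437952) (nat_lit 546453489392783559337772145)) (C.cons (nat_lit 1154) (C.node (nat_lit 5) (nat_lit 8) (nat_lit 10) (C.cons (nat_lit 1314) (C.miq (nat_lit 1243022723) (nat_lit 1395103218507168037305188649)) (C.cons (nat_lit 1312) (C.node (nat_lit 6) (nat_lit 7) (nat_lit 9) (C.cons (nat_lit 736) (C.miq (nat_lit 643041656) (nat_lit 1374553766815733711593539457)) (C.cons (nat_lit 704) (C.node (nat_lit 5) (nat_lit 6) (nat_lit 7) (C.cons (nat_lit 232) (C.miq (nat_lit 931292480) (nat_lit 546445335663375851933992049)) (C.cons (nat_lit 224) (C.node (nat_lit 3) (nat_lit 5) (nat_lit 6) (C.cons (nat_lit 106) (C.miq (nat_lit 2822047510) (nat_lit 359071942914271795133153475)) (C.cons (nat_lit 104) (C.node (nat_lit 1) (nat_lit 4) (nat_lit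 5) (C.cons (nat_lit 62) (C.miq (nat_lit 1402421768) (nat_lit 783391900121173526153593109)) (C.cons (nat_lit 58) (C.miq (nat_lit 363344903) (nat_lit 1586117943367888950930768025)) (C.cons (nat_lit 54) (C.miq (nat_lit 1369915912) (nat_lit 1395108364843925987116777749)) (C.cons (nat_lit 50) (C.node (nat_lit 5) (nat_lit 6) (nat_lit 8) (C.cons (nat_lit 866) (C.miq (nat_lit 911477127) (nat_lit 1374551479419469129954887553)) (C.cons (nat_lit 864)
  (C.miq (nat_lit 911477127) (nat_lit 1374551479419469121364952961)) (C.cons (nat_lit 354) (C.miq (nat_lit 945058144) (nat_lit 522258776536265742351401155)) (C.cons (nat_lit 352) (C.node (nat_lit 1) (nat_lit 4) (nat_lit 7) (C.cons (nat_lit 150) (C.node (nat_lit 2) (nat_lit 7) (nat_lit 9) (C.cons (nat_lit 644) (C.node (nat_lit 2) (nat_lit 5) (nat_lit 8) (C.cons (nat_lit 806) (C.miq (nat_lit 1496809988) (nat_lit 783391900330590908710453525)) (C.cons (nat_lit 804) (C.miq (nat_lit 1496809988)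 (nat_lit 783391900330027958757032213)) (C.cons (nat_lit 294) (C.miq (nat_lit 1366524480) (nat_lit 476322251693908073979117845)) C.nil)))) C.nil)) (C.cons (nat_lit 146) (C.node (nat_lit 2) (nat_lit 4) (nat_lit 7) (C.cons (nat_lit 148) (C.node (nat_lit 1) (nat_lit 2) (nat_lit 4) (C.cons (nat_lit 30) (C.node (nat_lit 1) (nat_lit 2) (nat_lit 7) (C.cons (nat_lit 646) (C.node (nat_lit 1) (nat_lit 2) (nat_lit 5) C.nil) C.nil)) (C.cons (nat_lit 22) (C.node (nat_lit 1) (nat_lit 2) (nat_lit 7) C.nil) C.nil))) C.nil)) C.nil))) C.nil))))) C.nil))))) C.nil))) C.nil))) C.nil))) C.nil))) C.nil))) C.nil))) C.nil))) C.nil)) (C.cons (nat_lit 400) (C.node (nat_lit 5) (nat_lit 7) (nat_lit 8) (C.cons (nat_lit 416) (C.node (nat_lit 4) (nat_lit 7) (nat_lit 10) (C.cons (nat_lit 1170) (C.node (nat_lit 1) (nat_lit 2) (nat_lit 7) (C.cons (nat_lit 646) (C.miq (nat_lit 1093052304) (nat_lit 84645781650364347328563073)) (C.cons (nat_lit 134) (C.node (nat_lit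 5) (nat_lit 7) (nat_lit 10) (C.cons (nat_lit 1192) (C.miq (nat_lit 336099923) (nat_lit 334879720379747929105695912)) (C.cons (nat_lit 1184) (C.node (nat_lit 3) (nat_lit 7) (nat_lit 10) (C.cons (nat_lit 1224) (C.miq (nat_lit 2473658020) (nat_lit 476326568315061053005366385)) (C.cons (nat_lit 1160) (C.node (nat_lit 6) (nat_lit 7) (nat_lit 10) (C.cons (nat_lit 1216) (C.node (nat_lit 5) (nat_lit 8) (nat_lit 10) (C.cons (nat_lit 1314) (C.node (nat_lit 1) (nat_lit 2) (nat_lit 8) (C.cons (nat_lit 774) (C.miq (nat_lit 1361488016) (nat_lit 84645781690897293730711425)) (C.cons (nat_lit 262) (C.node (nat_lit 4) (nat_lit 8) (nat_lit 10) (C.cons (nat_lit 1304) (C.miq (nat_lit 1636435764) (nat_lit 1588549500976523856085254297)) (C.cons (nat_lit 1296) (C.node (nat_lit 5) (nat_lit 6) (nat_lit 8) (C.cons (nat_lit 864) (C.miq (nat_lit 358787216) (nat_lit 120911600924464742306482049)) (C.cons (nat_lit 352) (C.node (nat_lit 3) (nat_lit 5) (nat_lit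 7) (C.cons (nat_lit 168) (C.node (nat_lit 3) (nat_lit 6) (nat_lit 7) (C.cons (nat_lit 200) (C.node (nat_lit 1) (nat_lit 6) (nat_lit 10) C.nil) C.nil)) C.nil)) C.nil))) C.nil))) C.nil))) (C.cons (nat_lit 1312) (C.miq (nat_lit 408580868) (nat_lit 1586132258135862133893693593)) C.nil))) C.nil)) C.nil))) C.nil))) C.nil))) (C.cons (nat_lit 1168) (C.node (nat_lit 5) (nat_lit 8) (nat_lit 10) (C.cons (nat_lit 1314) (C.miq (nat_lit 390759173) (nat_lit 1412049596442501528436146473)) (C.cons (nat_lit 1312) (C.node (nat_lit 1) (nat_lit 7) (nat_lit 10) (C.cons (nat_lit 1186) (C.node (nat_lit 1) (nat_lit 7) (nat_lit 9) (C.cons (nat_lit 646) (C.miq (nat_lit 1361487760) (nat_lit 84645781654867946955933569)) (C.cons (nat_lit 642) (C.node (nat_lit 3) (nat_lit 5) (nat_lit 7) (C.cons (nat_lit 232) (C.miq (nat_lit 389195104) (nat_lit 169268633673018397856433265)) (C.cons (nat_lit 168) (C.node (nat_lit 3) (nat_lit 5) (nat_lit 6) (C.cons (nat_lit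 106) (C.miq (nat_lit 2534607446) (nat_lit 476327638601141833859466353)) (C.cons (nat_lit 104) (C.node (nat_lit 5) (nat_lit 6) (nat_lit 7) (C.cons (nat_lit 736) (C.miq (nat_lit 358786960) (nat_lit 120911600888435395531704193)) (C.cons (nat_lit 224) (C.node (nat_lit 6) (nat_lit 7) (nat_lit 9) (C.cons (nat_lit 704) (C.node (nat_lit 2) (nat_lit 5) (nat_lit 10) (C.cons (nat_lit 1572) (C.miq (nat_lit 371552410) (nat_lit 120914459854824487296173953)) (C.cons (nat_lit 1068) (C.miq (nat_lit 896936464) (nat_lit 270810249026556719031059463)) (C.cons (nat_lit 1060) (C.node (nat_lit 3) (nat_lit 5) (nat_lit 10) (C.cons (nat_lit 1576)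
  (C.miq (nat_lit 372600986) (nat_lit 125750163133283003995260801)) (C.cons (nat_lit 1064) (C.node (nat_lit 5) (nat_lit 9) (nat_lit 10) (C.cons (nat_lit 1568) (C.node (nat_lit 1) (nat_lit 2) (nat_lit 7) (C.cons (nat_lit 150) (C.node (nat_lit 2) (nat_lit 7) (nat_lit 9) C.nil) C.nil)) C.nil)) C.nil))) C.nil)))) C.nil)) C.nil))) C.nil))) C.nil))) C.nil))) (C.cons (nat_lit 1154) (C.node (nat_lit 4) (nat_lit 8) (nat_lit 9) (C.cons (nat_lit 816) (C.node (nat_lit 2) (nat_lit 8) (nat_lit 9) (C.cons (nat_lit 774) (C.miq (nat_lit 1479166224) (nat_lit 1552281726562882573451067923)) (C.cons (nat_lit 772) (C.node (nat_lit 5) (nat_lit 6) (nat_lit 8) (C.cons (nat_lit 354) (C.miq (nat_lit 945058144) (nat_lit 986486291268283345438572739)) (C.cons (nat_lit 352) (C.node (nat_lit 1) (nat_lit 2) (nat_lit 8) (C.cons (nat_lit 294) (C.node (nat_lit 1) (nat_lit 2) (nat_lit 3) (C.cons (nat_lit 30) (C.node (nat_lit 2) (nat_lit 4) (nat_lit 5) (C.cons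 (nat_lit 52) (C.node (nat_lit 3) (nat_lit 4) (nat_lit 5) (C.cons (nat_lit 56) (C.node (nat_lit 1) (nat_lit 4) (nat_lit 10) (C.cons (nat_lit 1298) (C.miq (nat_lit 964960417) (nat_lit 986484022373656629846606855)) (C.cons (nat_lit 1042) (C.node (nat_lit 1) (nat_lit 8) (nat_lit 10) (C.cons (nat_lit 1346) (C.miq (nat_lit 1630840944) (nat_lit 36288748915317693881059201)) (C.cons (nat_lit 1282) (C.node (nat_lit 4) (nat_lit 8) (nat_lit 10) (C.cons (nat_lit 1304) (C.miq (nat_lit 1680935559) (nat_lit 36271372023575897786943361)) (C.cons (nat_lit 1296) (C.node (nat_lit 1) (nat_lit 2) (nat_lit 7) C.nil) C.nil))) C.nil))) C.nil))) C.nil)) C.nil)) (C.cons (nat_lit 14) (C.node (nat_lit 1) (nat_lit 2) (nat_lit 4) (C.cons (nat_lit 150) (C.miq (nat_lit 1366524480) (nat_lit 476322251693908073979117845)) (C.cons (nat_lit 22) (C.node (nat_lit 1) (nat_lit 2) (nat_lit 7) (C.cons (nat_lit 646) (C.node (nat_lit 2) (nat_lit 4) (nat_lit 7) (C.cons (nat_lit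 148) (C.node (nat_lit 2) (nat_lit 4) (nat_lit 9) (C.cons (nat_lit 1556) (C.miq (nat_lit 1108781424) (nat_lit 84645781759013688313055105)) C.nil)) C.nil)) (C.cons (nat_lit 134) (C.node (nat_lit 1) (nat_lit 2) (nat_lit 9) (C.cons (nat_lit 518) (C.node (nat_lit 1) (nat_lit 4) (nat_lit 7) C.nil) C.nil)) C.nil))) C.nil))) C.nil))) (C.cons (nat_lit 262) (C.node (nat_lit 1) (nat_lit 5) (nat_lit 8) (C.cons (nat_lit 290) (C.node (nat_lit 2) (nat_lit 5) (nat_lit 8) (C.cons (nat_lit 292) (C.node (nat_lit 1) (nat_lit 8) (nat_lit 9) (C.cons (nat_lit 770) (C.node (nat_lit 6) (nat_lit 8) (nat_lit 9) C.nil) C.nil)) C.nil)) C.nil)) C.nil))) C.nil))) C.nil))) (C.cons (nat_lit 784) (C.node (nat_lit 4) (nat_lit 5) (nat_lit 8) (C.cons (nat_lit 306) (C.node (nat_lit 1) (nat_lit 2) (nat_lit 8) (C.cons (nat_lit 774) (C.miq (nat_lit 1445478545) (nat_lit 546440115489538520396464659)) (C.cons (nat_lit 262) (C.node (nat_lit 1) (nat_lit 5) (nat_lit 6)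 (C.cons (nat_lit 610) (C.miq (nat_lit 2441241920) (nat_lit 316749430042993308770567281)) (C.cons (nat_lit 106) (C.miq (nat_lit 830629184) (nat_lit 316749429901129920508396657)) (C.cons (nat_lit 98) (C.node (nat_lit 1) (nat_lit 4) (nat_lit 6) (C.cons (nat_lit 90) (C.node (nat_lit 1) (nat_lit 4) (nat_lit 10) (C.cons (nat_lit 1042) (C.node (nat_lit 4) (nat_lit 6) (nat_lit 8) (C.cons (nat_lit 336) (C.node (nat_lit 1) (nat_lit 6) (nat_lit 9) (C.cons (nat_lit 834) (C.miq (nat_lit 2014579043) (nat_lit 369934123694636817291280973)) (C.cons (nat_lit 578) (C.node (nat_lit 1) (nat_lit 8) (nat_lit 9) (C.cons (nat_lit 770) (C.node (nat_lit 1) (nat_lit 2) (nat_lit 4) C.nil) C.nil)) C.nil))) C.nil)) C.nil)) (C.cons (nat_lit 82) (C.node (nat_lit 1) (nat_lit 8) (nat_lit 10) (C.cons (nat_lit 1346) (C.miq (nat_lit 878801064) (nat_lit 99139185268635188792002433)) (C.cons (nat_lit 1282) (C.node (nat_lit 4) (nat_lit 8) (nat_lit 10) (C.cons (nat_lit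 1304) (C.miq (nat_lit 828671754) (nat_lit 99155971873573687998351233)) (C.cons (nat_lit 1296) (C.node (nat_lit 1) (nat_lit 3) (nat_lit 6) (C.cons (nat_lit 1098) (C.node (nat_lit 1) (nat_lit 6) (nat_lit 8) C.nil) (C.cons (nat_lit 74)
  (C.node (nat_lit 1) (nat_lit 6) (nat_lit 10) (C.cons (nat_lit 1090) (C.node (nat_lit 2) (nat_lit 5) (nat_lit 8) C.nil) C.nil)) C.nil))) C.nil))) C.nil))) C.nil))) C.nil)))) C.nil))) (C.cons (nat_lit 304) (C.node (nat_lit 5) (nat_lit 7) (nat_lit 10) (C.cons (nat_lit 1192) (C.node (nat_lit 3) (nat_lit 6) (nat_lit 7) (C.cons (nat_lit 200) (C.node (nat_lit 6) (nat_lit 7) (nat_lit 10) (C.cons (nat_lit 1216) (C.node (nat_lit 3) (nat_lit 5) (nat_lit 6) (C.cons (nat_lit 106) (C.miq (nat_lit 2203742560) (nat_lit 1441075013286905168463462595)) (C.cons (nat_lit 104) (C.node (nat_lit 1) (nat_lit 5) (nat_lit 10) (C.cons (nat_lit 1570) (C.node (nat_lit 1) (nat_lit 3) (nat_lit 5) (C.cons (nat_lit 62) (C.miq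 (nat_lit 2436343104) (nat_lit 476352209565445470616618097)) (C.cons (nat_lit 58) (C.miq (nat_lit 2436343104) (nat_lit 476352209565445453436748913)) (C.cons (nat_lit 46) (C.miq (nat_lit 1095960999) (nat_lit 55613410203586175408015233)) (C.cons (nat_lit 42) (C.miq (nat_lit 1095960999) (nat_lit 50777706925127658709190529)) C.nil))))) (C.cons (nat_lit 1058) (C.node (nat_lit 1) (nat_lit 9) (nat_lit 10) (C.cons (nat_lit 1546) (C.node (nat_lit 5) (nat_lit 6) (nat_lit 7) (C.cons (nat_lit 224) (C.node (nat_lit 6) (nat_lit 7) (nat_lit 9) C.nil) C.nil)) (C.cons (nat_lit 1538) (C.node (nat_lit 1) (nat_lit 3) (nat_lit 9) (C.cons (nat_lit 554) (C.node (nat_lit 1) (nat_lit 5) (nat_lit 6) (C.cons (nat_lit 354) (C.miq (nat_lit 945058144) (nat_lit 367516271625593207989010627)) (C.cons (nat_lit 98) (C.node (nat_lit 5) (nat_lit 6) (nat_lit 7) C.nil) C.nil))) (C.cons (nat_lit 522) (C.node (nat_lit 2) (nat_lit 3) (nat_lit 10) (C.cons (nat_lit 1052)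 (C.node (nat_lit 3) (nat_lit 9) (nat_lit 10) (C.cons (nat_lit 1544) (C.node (nat_lit 4) (nat_lit 9) (nat_lit 10) C.nil) C.nil)) (C.cons (nat_lit 1036) (C.node (nat_lit 2) (nat_lit 4) (nat_lit 10) C.nil) C.nil))) C.nil))) C.nil))) C.nil))) C.nil))) C.nil)) C.nil)) (C.cons (nat_lit 1184) (C.node (nat_lit 3) (nat_lit 5) (nat_lit 7) (C.cons (nat_lit 232) (C.node (nat_lit 3) (nat_lit 7) (nat_lit 10) (C.cons (nat_lit 1160) (C.node (nat_lit 6) (nat_lit 7) (nat_lit 9) (C.cons (nat_lit 704) (C.node (nat_lit 6) (nat_lit 7) (nat_lit 10) (C.cons (nat_lit 1216) (C.node (nat_lit 1) (nat_lit 4) (nat_lit 7) (C.cons (nat_lit 178) (C.miq (nat_lit 2473657940) (nat_lit 476326568315056792332797041)) (C.cons (nat_lit 150) (C.node (nat_lit 2) (nat_lit 7) (nat_lit 9) C.nil) C.nil))) C.nil)) C.nil)) C.nil)) (C.cons (nat_lit 168) (C.node (nat_lit 3) (nat_lit 5) (nat_lit 6) (C.cons (nat_lit 106) (C.miq (nat_lit 2822047510) (nat_lit 359071942914271795133153475))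 (C.cons (nat_lit 104) (C.node (nat_lit 3) (nat_lit 6) (nat_lit 7) (C.cons (nat_lit 1224) (C.node (nat_lit 1) (nat_lit 3) (nat_lit 6) (C.cons (nat_lit 90) (C.miq (nat_lit 2536573540) (nat_lit 476326568689985721913181297)) (C.cons (nat_lit 74) (C.node (nat_lit 1) (nat_lit 6) (nat_lit 10) (C.cons (nat_lit 1346) (C.miq (nat_lit 1175652999) (nat_lit 89463333323368666061473665)) (C.cons (nat_lit 1090) (C.node (nat_lit 6) (nat_lit 8) (nat_lit 10) (C.cons (nat_lit 1344) (C.node (nat_lit 3) (nat_lit 8) (nat_lit 10) (C.cons (nat_lit 1304) (C.miq (nat_lit 1125558384) (nat_lit 89481484966539428549035905)) C.nil)) C.nil)) C.nil))) C.nil))) (C.cons (nat_lit 200) (C.node (nat_lit 3) (nat_lit 7) (nat_lit 10) (C.cons (nat_lit 1160) (C.node (nat_lit 6) (nat_lit 7) (nat_lit 10) (C.cons (nat_lit 1216) (C.node (nat_lit 5) (nat_lit 6) (nat_lit 7) C.nil) C.nil)) C.nil)) C.nil))) C.nil))) C.nil))) C.nil))) C.nil))) C.nil))) C.nil))) C.nil))) C.nil)))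 C.nil)) C.nil))) C.nil))) C.nil))) C.nil))) C.nil))) List.nil)

theorem ok11_150 : okL par11 (nat_lit 151) c11_150 (nat_lit 150) = true := by decide +kernel

noncomputable def c11_151 : List C :=
  (List.cons (C.node (nat_lit 2) (nat_lit 3) (nat_lit 8) (C.cons (nat_lit 1292) (C.node (nat_lit 6) (nat_lit 8) (nat_lit 10) (C.cons (nat_lit 1346) (C.miq (nat_lit 1133119254) (nat_lit 1561953132933180065222623427)) (C.cons (nat_lit 1344) (C.node (nat_lit 1) (nat_lit 6) (nat_lit 10) (C.cons (nat_lit 1098) (C.node (nat_lit 6) (nat_lit 7) (nat_lit 10) (C.cons (nat_lit 1216) (C.node (nat_lit 3) (nat_lit 4) (nat_lit 6) (C.cons (nat_lit 344) (C.miq (nat_lit 327329344) (nat_lit 1561951177844301890183300209)) (C.cons (nat_lit 88) (C.node (nat_lit 3) (nat_lit 6) (nat_lit 8) (C.cons (nat_lit 328) (C.node (nat_lit 3) (nat_lit 4) (nat_lit 8) (C.cons (nat_lit 792) (C.miq (nat_lit 2476820512) (nat_lit 1327410345380899704319443221)) (C.cons (nat_lit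 280) (C.node (nat_lit 3) (nat_lit 8) (nat_lit 9) (C.cons (nat_lit 776) (C.node (nat_lit 3) (nat_lit 5) (nat_lit 6) (C.cons (nat_lit 232) (C.miq (nat_lit 326280784) (nat_lit 169268633648248599878108273)) (C.cons (nat_lit 104) (C.node (nat_lit 3) (nat_lit 6) (nat_lit 7) (C.cons (nat_lit 200) (C.node (nat_lit 4) (nat_lit 8) (nat_lit 10) (C.cons (nat_lit 1298) (C.miq (nat_lit 588777124) (nat_lit 476321882842065789621765233)) (C.cons (nat_lit 1296) (C.node (nat_lit 1) (nat_lit 3) (nat_lit 9) (C.cons (nat_lit 554) (C.node (nat_lit 1) (nat_lit 9) (nat_lit 10) (C.cons (nat_lit 1538) (C.node (nat_lit 3) (nat_lit 7) (nat_lit 9) (C.cons (nat_lit 648) (C.node (nat_lit 1) (nat_lit 2) (nat_lit 3) (C.cons (nat_lit 30) (C.miq (nat_lit 2553547297) (nat_lit 338509025253918288050521095)) (C.cons (nat_lit 14) (C.node (nat_lit 1) (nat_lit 3) (nat_lit 4) (C.cons (nat_lit 26) (C.node (nat_lit 2) (nat_lit 3) (nat_lit 4) (C.cons (nat_lit 60) (C.node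 (nat_lit 3) (nat_lit 4) (nat_lit 9) (C.cons (nat_lit 1560) (C.miq (nat_lit 2468848720) (nat_lit 169285051380514901884994673)) C.nil)) C.nil)) C.nil)) C.nil))) C.nil)) C.nil)) (C.cons (nat_lit 522) (C.node (nat_lit 1) (nat_lit 4) (nat_lit 6) (C.cons (nat_lit 338) (C.node (nat_lit 1) (nat_lit 4) (nat_lit 10) (C.cons (nat_lit 1170) (C.node (nat_lit 2) (nat_lit 7) (nat_lit 10) (C.cons (nat_lit 1156) (C.node (nat_lit 1) (nat_lit 2) (nat_lit 7) (C.cons (nat_lit 646) (C.miq (nat_lit 1093052304) (nat_lit 84645781650364347328563073)) (C.cons (nat_lit 134) (C.node (nat_lit 1) (nat_lit 8) (nat_lit 10) (C.cons (nat_lit 1314) (C.node (nat_lit 1) (nat_lit 9) (nat_lit 10) (C.cons (nat_lit 1538) (C.node (nat_lit 4) (nat_lit 6) (nat_lit 7) (C.cons (nat_lit 720) (C.miq (nat_lit 342009744) (nat_lit 101568787770097660389558145)) C.nil)) C.nil)) (C.cons (nat_lit 1282) (C.miq (nat_lit 1511523443) (nat_lit 1549848379748986567367721113)) C.nil)))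 C.nil))) C.nil)) (C.cons (nat_lit 1042) (C.node (nat_lit 1) (nat_lit 7) (nat_lit 10) (C.cons (nat_lit 1186) (C.miq (nat_lit 588711589) (nat_lit 476319816806729534144644209)) (C.cons (nat_lit 1154) (C.node (nat_lit 1) (nat_lit 8) (nat_lit 10) (C.cons (nat_lit 1314) (C.miq (nat_lit 1243022723) (nat_lit 1395103218507168037305188649)) (C.cons (nat_lit 1282) (C.node (nat_lit 5) (nat_lit 8) (nat_lit 10) (C.cons (nat_lit 1312) (C.node (nat_lit 5) (nat_lit 6) (nat_lit 8) C.nil) C.nil)) C.nil))) C.nil))) C.nil))) (C.cons (nat_lit 82) (C.node (nat_lit 1) (nat_lit 4) (nat_lit 8) (C.cons (nat_lit 306) (C.node (nat_lit 1) (nat_lit 8) (nat_lit 10) (C.cons (nat_lit 1282) (C.node (nat_lit 4) (nat_lit 7) (nat_lit 8) (C.cons (nat_lit 400) (C.node (nat_lit 5) (nat_lit 7) (nat_lit 8) (C.cons (nat_lit 416) (C.node (nat_lit 5) (nat_lit 8) (nat_lit 10) (C.cons (nat_lit 1312) (C.node (nat_lit 1) (nat_lit 2) (nat_lit 8) C.nil) C.nil)) C.nil)) C.nil))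 C.nil)) (C.cons (nat_lit 274) (C.node (nat_lit 1) (nat_lit 4) (nat_lit 10) (C.cons (nat_lit 1170) (C.node (nat_lit 2) (nat_lit 7) (nat_lit 10) (C.cons (nat_lit 1156) (C.node (nat_lit 1) (nat_lit 2) (nat_lit 7) (C.cons (nat_lit 646) (C.miq (nat_lit 1093052304) (nat_lit 84645781650364347328563073)) (C.cons (nat_lit 134) (C.node (nat_lit 1) (nat_lit 8) (nat_lit 10) (C.cons (nat_lit 1314)
  (C.node (nat_lit 1) (nat_lit 6) (nat_lit 8) C.nil) (C.cons (nat_lit 1282) (C.miq (nat_lit 1511523443) (nat_lit 1549848379748986567367721113)) C.nil))) C.nil))) C.nil)) (C.cons (nat_lit 1042) (C.node (nat_lit 1) (nat_lit 7) (nat_lit 10) (C.cons (nat_lit 1186) (C.miq (nat_lit 588711589) (nat_lit 476319816806729534144644209)) (C.cons (nat_lit 1154) (C.node (nat_lit 1) (nat_lit 8) (nat_lit 10) (C.cons (nat_lit 1314) (C.miq (nat_lit 1243022723) (nat_lit 1395103218507168037305188649)) (C.cons (nat_lit 1282) (C.node (nat_lit 5) (nat_lit 8) (nat_lit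 10) C.nil) C.nil))) C.nil))) C.nil))) C.nil))) C.nil))) C.nil))) C.nil))) C.nil)) C.nil))) C.nil)) C.nil))) C.nil)) C.nil))) C.nil)) (C.cons (nat_lit 1090) (C.node (nat_lit 1) (nat_lit 3) (nat_lit 6) (C.cons (nat_lit 106) (C.miq (nat_lit 2822047510) (nat_lit 359071942914271795133153475)) (C.cons (nat_lit 90) (C.miq (nat_lit 1250123889) (nat_lit 1561933819469112826758037699)) (C.cons (nat_lit 74) (C.node (nat_lit 1) (nat_lit 4) (nat_lit 6) (C.cons (nat_lit 338) (C.node (nat_lit 3) (nat_lit 4) (nat_lit 6) (C.cons (nat_lit 88) (C.node (nat_lit 3) (nat_lit 6) (nat_lit 8) (C.cons (nat_lit 328) (C.node (nat_lit 4) (nat_lit 8) (nat_lit 10) (C.cons (nat_lit 1296) (C.node (nat_lit 3) (nat_lit 4) (nat_lit 8) (C.cons (nat_lit 792) (C.miq (nat_lit 344590642) (nat_lit 1566786880963166019299050061)) (C.cons (nat_lit 280) (C.node (nat_lit 3) (nat_lit 8) (nat_lit 9) (C.cons (nat_lit 776) (C.node (nat_lit 1) (nat_lit 5) (nat_lit 6) (C.cons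 (nat_lit 610) (C.node (nat_lit 5) (nat_lit 6) (nat_lit 8) (C.cons (nat_lit 352) (C.node (nat_lit 6) (nat_lit 8) (nat_lit 9) (C.cons (nat_lit 832) (C.node (nat_lit 1) (nat_lit 3) (nat_lit 9) (C.cons (nat_lit 1546) (C.miq (nat_lit 444896032) (nat_lit 1566777657876828413301686861)) (C.cons (nat_lit 522) (C.node (nat_lit 3) (nat_lit 5) (nat_lit 6) C.nil) C.nil))) C.nil)) C.nil)) (C.cons (nat_lit 98) (C.node (nat_lit 1) (nat_lit 6) (nat_lit 9) (C.cons (nat_lit 578) (C.node (nat_lit 1) (nat_lit 8) (nat_lit 10) (C.cons (nat_lit 1314) (C.node (nat_lit 1) (nat_lit 2) (nat_lit 8) (C.cons (nat_lit 774) (C.miq (nat_lit 1361488016) (nat_lit 84645781690897293730711425)) (C.cons (nat_lit 262) (C.node (nat_lit 1) (nat_lit 8) (nat_lit 9) (C.cons (nat_lit 770) (C.node (nat_lit 5) (nat_lit 6) (nat_lit 8) C.nil) C.nil)) C.nil))) (C.cons (nat_lit 1282) (C.node (nat_lit 5) (nat_lit 8) (nat_lit 10) (C.cons (nat_lit 1312) (C.node (nat_lit 5) (nat_lit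 6) (nat_lit 8) (C.cons (nat_lit 352) (C.node (nat_lit 6) (nat_lit 8) (nat_lit 9) (C.cons (nat_lit 832) (C.node (nat_lit 4) (nat_lit 7) (nat_lit 8) C.nil) C.nil)) C.nil)) C.nil)) C.nil))) C.nil)) C.nil))) C.nil)) C.nil))) C.nil)) C.nil)) C.nil)) (C.cons (nat_lit 82) (C.node (nat_lit 2) (nat_lit 5) (nat_lit 10) (C.cons (nat_lit 1572) (C.node (nat_lit 4) (nat_lit 9) (nat_lit 10) (C.cons (nat_lit 1560) (C.miq (nat_lit 1922237860) (nat_lit 712060130151309984411419761)) (C.cons (nat_lit 1552) (C.node (nat_lit 1) (nat_lit 9) (nat_lit 10) (C.cons (nat_lit 1546) (C.node (nat_lit 3) (nat_lit 4) (nat_lit 10) (C.cons (nat_lit 1048) (C.node (nat_lit 3) (nat_lit 4) (nat_lit 6) (C.cons (nat_lit 344) (C.miq (nat_lit 2491617322) (nat_lit 415899000763234793489695751)) (C.cons (nat_lit 88) (C.node (nat_lit 3) (nat_lit 6) (nat_lit 8) (C.cons (nat_lit 328) (C.node (nat_lit 3) (nat_lit 4) (nat_lit 8) (C.cons (nat_lit 792) (C.node (nat_lit 4) (nat_lit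 6) (nat_lit 8) (C.cons (nat_lit 336) (C.node (nat_lit 2) (nat_lit 4) (nat_lit 9) (C.cons (nat_lit 660) (C.miq (nat_lit 2234069108) (nat_lit 1900445998339102217398911129)) (C.cons (nat_lit 532) (C.node (nat_lit 2) (nat_lit 7) (nat_lit 9) (C.cons (nat_lit 646) (C.miq (nat_lit 1377216880) (nat_lit 84645781763517287940425601)) (C.cons (nat_lit 644) (C.node (nat_lit 1) (nat_lit 2) (nat_lit 7) (C.cons (nat_lit 150) (C.miq (nat_lit 874616842) (nat_lit 181367391831461702501074817)) (C.cons (nat_lit 134) (C.node (nat_lit 1) (nat_lit 2) (nat_lit 9) (C.cons (nat_lit 774)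
  (C.miq (nat_lit 1134598177) (nat_lit 1248830167105948807963542278)) (C.cons (nat_lit 518) (C.node (nat_lit 2) (nat_lit 8) (nat_lit 9) (C.cons (nat_lit 772) (C.node (nat_lit 1) (nat_lit 2) (nat_lit 3) (C.cons (nat_lit 14) (C.miq (nat_lit 1108574377) (nat_lit 16939571373884183172220801)) C.nil)) C.nil)) C.nil))) C.nil))) C.nil))) C.nil))) C.nil)) (C.cons (nat_lit 280) (C.miq (nat_lit 2491617322) (nat_lit 338527748307898526308500487)) C.nil))) C.nil)) C.nil))) C.nil)) (C.cons (nat_lit 1538) (C.node (nat_lit 3) (nat_lit 9) (nat_lit 10) (C.cons (nat_lit 1544) (C.node (nat_lit 3) (nat_lit 8) (nat_lit 9) (C.cons (nat_lit 792) (C.miq (nat_lit 423232642) (nat_lit 1866600484227594054626181397)) (C.cons (nat_lit 776) (C.node (nat_lit 4) (nat_lit 8) (nat_lit 10) (C.cons (nat_lit 1298) (C.miq (nat_lit 1228410922) (nat_lit 938150380044225657023759367)) (C.cons (nat_lit 1296) (C.node (nat_lit 2) (nat_lit 3) (nat_lit 4) (C.cons (nat_lit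 62) (C.miq (nat_lit 2453120320) (nat_lit 169285051383892610194670705)) (C.cons (nat_lit 60) (C.miq (nat_lit 2453120320) (nat_lit 169285051383892601604736113)) (C.cons (nat_lit 30) (C.miq (nat_lit 1233326242) (nat_lit 938126989572745914208748551)) (C.cons (nat_lit 28) (C.node (nat_lit 1) (nat_lit 2) (nat_lit 3) (C.cons (nat_lit 46) (C.node (nat_lit 1) (nat_lit 3) (nat_lit 9) (C.cons (nat_lit 522) (C.node (nat_lit 2) (nat_lit 4) (nat_lit 5) (C.cons (nat_lit 52) (C.node (nat_lit 2) (nat_lit 5) (nat_lit 8) (C.cons (nat_lit 292) (C.node (nat_lit 1) (nat_lit 8) (nat_lit 10) (C.cons (nat_lit 1314) (C.miq (nat_lit 1158875783) (nat_lit 55613410374158911730747265)) (C.cons (nat_lit 1282) (C.node (nat_lit 5) (nat_lit 8) (nat_lit 10) (C.cons (nat_lit 1312) (C.node (nat_lit 1) (nat_lit 5) (nat_lit 10) (C.cons (nat_lit 1186) (C.miq (nat_lit 1649478055) (nat_lit 55614184983162828447942529)) (C.cons (nat_lit 1058) (C.node (nat_lit 1) (nat_lit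 2) (nat_lit 8) (C.cons (nat_lit 774) (C.node (nat_lit 1) (nat_lit 3) (nat_lit 4) C.nil) C.nil)) C.nil))) C.nil)) C.nil))) C.nil)) C.nil)) C.nil)) (C.cons (nat_lit 14) (C.node (nat_lit 2) (nat_lit 3) (nat_lit 5) (C.cons (nat_lit 44) (C.node (nat_lit 1) (nat_lit 7) (nat_lit 9) (C.cons (nat_lit 674) (C.miq (nat_lit 1378982535) (nat_lit 16937395022594701196396417)) (C.cons (nat_lit 646) (C.miq (nat_lit 1377216880) (nat_lit 84645781763517287940425601)) (C.cons (nat_lit 642) (C.node (nat_lit 1) (nat_lit 2) (nat_lit 7) (C.cons (nat_lit 150) (C.node (nat_lit 2) (nat_lit 4) (nat_lit 5) (C.cons (nat_lit 52) (C.node (nat_lit 2) (nat_lit 4) (nat_lit 9) (C.cons (nat_lit 532) (C.node (nat_lit 2) (nat_lit 4) (nat_lit 10) (C.cons (nat_lit 1044) (C.node (nat_lit 1) (nat_lit 3) (nat_lit 9) C.nil) C.nil)) C.nil)) C.nil)) (C.cons (nat_lit 134) (C.node (nat_lit 1) (nat_lit 2) (nat_lit 4) (C.cons (nat_lit 54) (C.node (nat_lit 1) (nat_lit 4) (nat_lit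 8) (C.cons (nat_lit 274) (C.node (nat_lit 1) (nat_lit 2) (nat_lit 8) (C.cons (nat_lit 774) (C.miq (nat_lit 2186973504) (nat_lit 1900466824847424522663559699)) C.nil)) C.nil)) (C.cons (nat_lit 22) (C.node (nat_lit 2) (nat_lit 4) (nat_lit 5) (C.cons (nat_lit 52) (C.node (nat_lit 2) (nat_lit 4) (nat_lit 10) (C.cons (nat_lit 1172) (C.node (nat_lit 1) (nat_lit 3) (nat_lit 9) C.nil) C.nil)) C.nil)) C.nil))) C.nil))) C.nil)))) C.nil)) C.nil))) C.nil))))) C.nil))) C.nil))) C.nil)) C.nil))) C.nil))) (C.cons (nat_lit 1060) (C.node (nat_lit 2) (nat_lit 7) (nat_lit 10) (C.cons (nat_lit 1172) (C.node (nat_lit 2) (nat_lit 9) (nat_lit 10) (C.cons (nat_lit 1540) (C.node (nat_lit 5) (nat_lit 8) (nat_lit 10) (C.cons (nat_lit 1314) (C.miq (nat_lit 390759173) (nat_lit 1416885299720960045134971177)) (C.cons (nat_lit 1312) (C.node (nat_lit 1) (nat_lit 2) (nat_lit 7) (C.cons (nat_lit 646) (C.node (nat_lit 1) (nat_lit 4) (nat_lit 7) (C.cons (nat_lit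 178) (C.miq (nat_lit 1651837204) (nat_lit 199493734350217157429821971)) (C.cons (nat_lit 146) (C.node (nat_lit 1) (nat_lit 5) (nat_lit 7) (C.cons (nat_lit 1186) (C.miq (nat_lit 1361487760) (nat_lit 84645781654867946955933569))
  (C.cons (nat_lit 162) (C.node (nat_lit 1) (nat_lit 7) (nat_lit 10) (C.cons (nat_lit 1154) (C.node (nat_lit 2) (nat_lit 4) (nat_lit 9) (C.cons (nat_lit 564) (C.miq (nat_lit 1383483664) (nat_lit 546455444572578856153842195)) (C.cons (nat_lit 532) (C.node (nat_lit 4) (nat_lit 6) (nat_lit 7) (C.cons (nat_lit 720) (C.miq (nat_lit 1192913184) (nat_lit 1395121369985958633219228237)) (C.cons (nat_lit 208) (C.node (nat_lit 4) (nat_lit 7) (nat_lit 9) (C.cons (nat_lit 688) (C.miq (nat_lit 1462389008) (nat_lit 1416882034730014759109198355)) (C.cons (nat_lit 656) (C.node (nat_lit 5) (nat_lit 7) (nat_lit 10) (C.cons (nat_lit 1192) (C.miq (nat_lit 925391424) (nat_lit 546439949484325484662948977)) (C.cons (nat_lit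 1184) (C.node (nat_lit 6) (nat_lit 7) (nat_lit 9) (C.cons (nat_lit 736) (C.miq (nat_lit 1461348640) (nat_lit 1395121369990462232846598733)) (C.cons (nat_lit 704) (C.node (nat_lit 2) (nat_lit 3) (nat_lit 5) (C.cons (nat_lit 62) (C.miq (nat_lit 1916314704) (nat_lit 1561967595467355428781360241)) (C.cons (nat_lit 60) (C.miq (nat_lit 1916314704) (nat_lit 1561967595467355420191425649)) (C.cons (nat_lit 46) (C.miq (nat_lit 2266302755) (nat_lit 195851462001276022852289101)) (C.cons (nat_lit 44) (C.node (nat_lit 3) (nat_lit 7) (nat_lit 9) C.nil) C.nil))))) C.nil))) C.nil))) C.nil))) C.nil))) C.nil))) C.nil)) C.nil))) C.nil))) (C.cons (nat_lit 134) (C.node (nat_lit 2) (nat_lit 7) (nat_lit 9) (C.cons (nat_lit 644) (C.node (nat_lit 1) (nat_lit 4) (nat_lit 7) (C.cons (nat_lit 178) (C.node (nat_lit 1) (nat_lit 7) (nat_lit 9) (C.cons (nat_lit 642) (C.node (nat_lit 1) (nat_lit 7) (nat_lit 10) (C.cons (nat_lit 1154) (C.node (nat_lit 4) (nat_lit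 7) (nat_lit 8) (C.cons (nat_lit 400) (C.node (nat_lit 5) (nat_lit 7) (nat_lit 8) (C.cons (nat_lit 416) (C.node (nat_lit 2) (nat_lit 4) (nat_lit 9) (C.cons (nat_lit 564) (C.miq (nat_lit 1649871169) (nat_lit 199476357517299370844881427)) (C.cons (nat_lit 532) (C.node (nat_lit 2) (nat_lit 4) (nat_lit 5) (C.cons (nat_lit 60) (C.miq (nat_lit 1916314704) (nat_lit 1561967595467355420191425649)) (C.cons (nat_lit 52) (C.node (nat_lit 3) (nat_lit 5) (nat_lit 6) (C.cons (nat_lit 232) (C.miq (nat_lit 924411200) (nat_lit 776141241390154304223118449)) (C.cons (nat_lit 104) (C.node (nat_lit 3) (nat_lit 4) (nat_lit 5) (C.cons (nat_lit 568) (C.miq (nat_lit 1983189140) (nat_lit 125731568815256704701170195)) (C.cons (nat_lit 56) (C.node (nat_lit 5) (nat_lit 7) (nat_lit 10) (C.cons (nat_lit 1192) (C.miq (nat_lit 925391424) (nat_lit 546439949484325484662948977)) (C.cons (nat_lit 1184) (C.node (nat_lit 2) (nat_lit 3) (nat_lit 5) C.nil) C.nil)))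 C.nil))) C.nil))) C.nil))) C.nil))) C.nil)) C.nil)) C.nil)) C.nil)) (C.cons (nat_lit 146) (C.node (nat_lit 1) (nat_lit 7) (nat_lit 9) (C.cons (nat_lit 674) (C.node (nat_lit 1) (nat_lit 7) (nat_lit 10) (C.cons (nat_lit 1154) (C.node (nat_lit 3) (nat_lit 7) (nat_lit 9) (C.cons (nat_lit 648) (C.node (nat_lit 1) (nat_lit 5) (nat_lit 6) (C.cons (nat_lit 354) (C.miq (nat_lit 1132791574) (nat_lit 359071942416624036324966595)) (C.cons (nat_lit 98) (C.node (nat_lit 5) (nat_lit 7) (nat_lit 10) (C.cons (nat_lit 1192) (C.miq (nat_lit 925391424) (nat_lit 546439949484325484662948977)) (C.cons (nat_lit 1184) (C.node (nat_lit 3) (nat_lit 5) (nat_lit 6) (C.cons (nat_lit 104) (C.node (nat_lit 3) (nat_lit 5) (nat_lit 7) (C.cons (nat_lit 168) (C.node (nat_lit 5) (nat_lit 6) (nat_lit 7) C.nil) C.nil)) C.nil)) C.nil))) C.nil))) C.nil)) C.nil)) (C.cons (nat_lit 642) (C.node (nat_lit 1) (nat_lit 5) (nat_lit 7) (C.cons (nat_lit 1186) (C.node (nat_lit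 1) (nat_lit 8) (nat_lit 10) (C.cons (nat_lit 1298) (C.miq (nat_lit 655885732) (nat_lit 476321882722720777453569137)) (C.cons (nat_lit 1282) (C.node (nat_lit 4) (nat_lit 8) (nat_lit 10) (C.cons (nat_lit 1296) (C.node (nat_lit 1) (nat_lit 9) (nat_lit 10) (C.cons (nat_lit 1546) (C.miq (nat_lit 444896032) (nat_lit 1566777657876828413301686861)) (C.cons (nat_lit 1538) (C.node (nat_lit 1) (nat_lit 3) (nat_lit 10) C.nil) C.nil))) C.nil)) C.nil))) (C.cons (nat_lit 162)
  (C.node (nat_lit 1) (nat_lit 7) (nat_lit 10) (C.cons (nat_lit 1154) (C.node (nat_lit 5) (nat_lit 7) (nat_lit 10) (C.cons (nat_lit 1192) (C.miq (nat_lit 925391424) (nat_lit 546439949484325484662948977)) (C.cons (nat_lit 1184) (C.node (nat_lit 1) (nat_lit 8) (nat_lit 10) (C.cons (nat_lit 1298) (C.node (nat_lit 1) (nat_lit 2) (nat_lit 3) (C.cons (nat_lit 62) (C.miq (nat_lit 2166858832) (nat_lit 162031496389080691528500337)) C.nil)) (C.cons (nat_lit 1282) (C.node (nat_lit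 1) (nat_lit 2) (nat_lit 3) (C.cons (nat_lit 62) (C.miq (nat_lit 1916314704) (nat_lit 1561967595467355428781360241)) C.nil)) C.nil))) C.nil))) C.nil)) C.nil))) C.nil))) C.nil))) C.nil)) C.nil))) C.nil))) C.nil)) (C.cons (nat_lit 1156) (C.node (nat_lit 2) (nat_lit 4) (nat_lit 10) (C.cons (nat_lit 1556) (C.node (nat_lit 2) (nat_lit 7) (nat_lit 9) (C.cons (nat_lit 646) (C.miq (nat_lit 1108781424) (nat_lit 84645781759013688313055105)) (C.cons (nat_lit 644) (C.node (nat_lit 4) (nat_lit 6) (nat_lit 7) (C.cons (nat_lit 720) (C.miq (nat_lit 610380144) (nat_lit 99150936239517743024637825)) (C.cons (nat_lit 208) (C.node (nat_lit 4) (nat_lit 7) (nat_lit 10) (C.cons (nat_lit 1170) (C.miq (nat_lit 605461104) (nat_lit 99142782778639096138106753)) (C.cons (nat_lit 1168) (C.node (nat_lit 4) (nat_lit 8) (nat_lit 10) (C.cons (nat_lit 1298) (C.miq (nat_lit 2164499602) (nat_lit 13322017574460954099123732)) (C.cons (nat_lit 1296) (C.node (nat_lit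 1) (nat_lit 8) (nat_lit 10) (C.cons (nat_lit 1314) (C.miq (nat_lit 390759173) (nat_lit 1412049596442501528436146473)) (C.cons (nat_lit 1282) (C.node (nat_lit 5) (nat_lit 8) (nat_lit 10) (C.cons (nat_lit 1312) (C.node (nat_lit 3) (nat_lit 8) (nat_lit 9) (C.cons (nat_lit 792) (C.miq (nat_lit 1218548512) (nat_lit 1549852696189991472465379917)) (C.cons (nat_lit 776) (C.node (nat_lit 2) (nat_lit 3) (nat_lit 4) (C.cons (nat_lit 62) (C.miq (nat_lit 2453185616) (nat_lit 1561967595575441819838252145)) (C.cons (nat_lit 60) (C.miq (nat_lit 2453185616) (nat_lit 1561967595575441811248317553)) (C.cons (nat_lit 30) (C.miq (nat_lit 1233326242) (nat_lit 938126989572745914208748551)) (C.cons (nat_lit 28) (C.node (nat_lit 3) (nat_lit 9) (nat_lit 10) (C.cons (nat_lit 1578) (C.miq (nat_lit 321165952) (nat_lit 33859718614485819028998017)) (C.cons (nat_lit 1576) (C.miq (nat_lit 2207384996) (nat_lit 712062417584729838501233777)) (C.cons (nat_lit 1546)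 (C.miq (nat_lit 321165952) (nat_lit 33859718605478619774257025)) (C.cons (nat_lit 1544) (C.node (nat_lit 1) (nat_lit 2) (nat_lit 3) (C.cons (nat_lit 46) (C.node (nat_lit 1) (nat_lit 3) (nat_lit 9) (C.cons (nat_lit 522) (C.node (nat_lit 2) (nat_lit 4) (nat_lit 5) (C.cons (nat_lit 52) (C.node (nat_lit 1) (nat_lit 3) (nat_lit 10) C.nil) C.nil)) C.nil)) (C.cons (nat_lit 14) (C.node (nat_lit 2) (nat_lit 3) (nat_lit 5) (C.cons (nat_lit 44) (C.node (nat_lit 3) (nat_lit 6) (nat_lit 10) (C.cons (nat_lit 1224) (C.node (nat_lit 1) (nat_lit 2) (nat_lit 7) C.nil) C.nil)) C.nil)) C.nil))) C.nil))))) C.nil))))) C.nil))) C.nil)) C.nil))) C.nil))) C.nil))) C.nil))) C.nil))) (C.cons (nat_lit 1044) (C.node (nat_lit 2) (nat_lit 9) (nat_lit 10) (C.cons (nat_lit 1540) (C.node (nat_lit 3) (nat_lit 4) (nat_lit 6) (C.cons (nat_lit 344) (C.node (nat_lit 3) (nat_lit 8) (nat_lit 9) (C.cons (nat_lit 776) (C.node (nat_lit 3) (nat_lit 5) (nat_lit 6) (C.cons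 (nat_lit 232) (C.miq (nat_lit 1937921600) (nat_lit 1561935202720176727880172657)) (C.cons (nat_lit 104) (C.node (nat_lit 4) (nat_lit 7) (nat_lit 8) (C.cons (nat_lit 432) (C.miq (nat_lit 947020880) (nat_lit 546445335694901049318245489)) (C.cons (nat_lit 400) (C.node (nat_lit 5) (nat_lit 7) (nat_lit 8) (C.cons (nat_lit 416) (C.node (nat_lit 4) (nat_lit 8) (nat_lit 10) (C.cons (nat_lit 1298) (C.miq (nat_lit 405972064) (nat_lit 1561951177900596885545878641)) (C.cons (nat_lit 1296) (C.node (nat_lit 1) (nat_lit 4) (nat_lit 8) (C.cons (nat_lit 306) (C.node (nat_lit 1) (nat_lit 8) (nat_lit 10) (C.cons (nat_lit 1282) (C.node (nat_lit 4) (nat_lit 8) (nat_lit 9) (C.cons (nat_lit 784)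
  (C.node (nat_lit 5) (nat_lit 8) (nat_lit 10) C.nil) C.nil)) C.nil)) (C.cons (nat_lit 274) (C.node (nat_lit 1) (nat_lit 8) (nat_lit 10) (C.cons (nat_lit 1314) (C.node (nat_lit 1) (nat_lit 2) (nat_lit 8) (C.cons (nat_lit 774) (C.miq (nat_lit 1361488016) (nat_lit 84645781690897293730711425)) (C.cons (nat_lit 262) (C.node (nat_lit 1) (nat_lit 6) (nat_lit 8) C.nil) C.nil))) (C.cons (nat_lit 1282) (C.node (nat_lit 5) (nat_lit 8) (nat_lit 10) (C.cons (nat_lit 1312) (C.node (nat_lit 4) (nat_lit 5) (nat_lit 8) (C.cons (nat_lit 304) (C.node (nat_lit 4) (nat_lit 8) (nat_lit 9) C.nil) C.nil)) C.nil)) C.nil))) C.nil))) C.nil))) C.nil)) C.nil))) C.nil))) C.nil)) (C.cons (nat_lit 88) (C.node (nat_lit 3) (nat_lit 6) (nat_lit 8) (C.cons (nat_lit 328) (C.node (nat_lit 3) (nat_lit 4) (nat_lit 8) (C.cons (nat_lit 792) (C.node (nat_lit 4) (nat_lit 6) (nat_lit 8) (C.cons (nat_lit 336) (C.node (nat_lit 4) (nat_lit 9) (nat_lit 10) (C.cons (nat_lit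 1552) (C.node (nat_lit 3) (nat_lit 4) (nat_lit 10) (C.cons (nat_lit 1050) (C.miq (nat_lit 591505552) (nat_lit 1269391129552169699548268417)) (C.cons (nat_lit 1048) (C.node (nat_lit 4) (nat_lit 7) (nat_lit 10) (C.cons (nat_lit 1170) (C.miq (nat_lit 2316579337) (nat_lit 1414457819134092610427355725)) (C.cons (nat_lit 1168) (C.node (nat_lit 1) (nat_lit 4) (nat_lit 10) (C.cons (nat_lit 1298) (C.node (nat_lit 5) (nat_lit 8) (nat_lit 10) (C.cons (nat_lit 1312) (C.node (nat_lit 4) (nat_lit 5) (nat_lit 8) C.nil) C.nil)) (C.cons (nat_lit 1042) (C.miq (nat_lit 2316579337) (nat_lit 1259715314223420076064965197)) C.nil))) C.nil))) C.nil))) C.nil)) C.nil)) (C.cons (nat_lit 280) (C.node (nat_lit 3) (nat_lit 8) (nat_lit 9) (C.cons (nat_lit 776) (C.node (nat_lit 4) (nat_lit 8) (nat_lit 10) (C.cons (nat_lit 1298) (C.miq (nat_lit 2474902177) (nat_lit 338509024878993619155026951)) (C.cons (nat_lit 1296) (C.node (nat_lit 1) (nat_lit 4) (nat_lit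 8) (C.cons (nat_lit 306) (C.node (nat_lit 1) (nat_lit 8) (nat_lit 10) (C.cons (nat_lit 1282) (C.node (nat_lit 4) (nat_lit 7) (nat_lit 8) (C.cons (nat_lit 400) (C.node (nat_lit 5) (nat_lit 7) (nat_lit 8) (C.cons (nat_lit 416) (C.node (nat_lit 5) (nat_lit 8) (nat_lit 10) (C.cons (nat_lit 1312) (C.node (nat_lit 1) (nat_lit 2) (nat_lit 8) C.nil) C.nil)) C.nil)) C.nil)) C.nil)) (C.cons (nat_lit 274) (C.node (nat_lit 1) (nat_lit 8) (nat_lit 10) (C.cons (nat_lit 1314) (C.node (nat_lit 1) (nat_lit 2) (nat_lit 8) (C.cons (nat_lit 774) (C.miq (nat_lit 1361488016) (nat_lit 84645781690897293730711425)) (C.cons (nat_lit 262) (C.node (nat_lit 1) (nat_lit 6) (nat_lit 8) C.nil) C.nil))) (C.cons (nat_lit 1282) (C.node (nat_lit 5) (nat_lit 8) (nat_lit 10) (C.cons (nat_lit 1312) (C.node (nat_lit 3) (nat_lit 6) (nat_lit 10) (C.cons (nat_lit 1224) (C.node (nat_lit 3) (nat_lit 5) (nat_lit 6) C.nil) C.nil)) C.nil)) C.nil))) C.nil))) C.nil))) C.nil))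 C.nil))) C.nil)) C.nil))) C.nil)) C.nil))) C.nil))) C.nil))) C.nil))) C.nil)))) C.nil))) C.nil))) (C.cons (nat_lit 268) (C.node (nat_lit 2) (nat_lit 7) (nat_lit 10) (C.cons (nat_lit 1172) (C.node (nat_lit 2) (nat_lit 8) (nat_lit 10) (C.cons (nat_lit 1316) (C.miq (nat_lit 2188597824) (nat_lit 169255093799464079258616945)) (C.cons (nat_lit 1284) (C.node (nat_lit 5) (nat_lit 8) (nat_lit 10) (C.cons (nat_lit 1314) (C.miq (nat_lit 390759173) (nat_lit 1416885299720960045134971177)) (C.cons (nat_lit 1312) (C.node (nat_lit 1) (nat_lit 2) (nat_lit 7) (C.cons (nat_lit 646) (C.node (nat_lit 1) (nat_lit 4) (nat_lit 7) (C.cons (nat_lit 178) (C.miq (nat_lit 1651837204) (nat_lit 199493734350217157429821971)) (C.cons (nat_lit 146) (C.node (nat_lit 1) (nat_lit 5) (nat_lit 7) (C.cons (nat_lit 1186) (C.miq (nat_lit 1361487760) (nat_lit 84645781654867946955933569)) (C.cons (nat_lit 162) (C.node (nat_lit 1) (nat_lit 7) (nat_lit 10) (C.cons (nat_lit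 1154) (C.node (nat_lit 2) (nat_lit 4) (nat_lit 9) (C.cons (nat_lit 564) (C.miq (nat_lit 1383483664) (nat_lit 546455444572578856153842195)) (C.cons (nat_lit 532) (C.node (nat_lit 2) (nat_lit 9) (nat_lit 10) (C.cons (nat_lit 1572)
  (C.miq (nat_lit 1377216880) (nat_lit 84645781763517287940425601)) (C.cons (nat_lit 1540) (C.node (nat_lit 4) (nat_lit 6) (nat_lit 7) (C.cons (nat_lit 720) (C.miq (nat_lit 1192913184) (nat_lit 1395121369985958633219228237)) (C.cons (nat_lit 208) (C.node (nat_lit 4) (nat_lit 7) (nat_lit 9) (C.cons (nat_lit 688) (C.miq (nat_lit 1462389008) (nat_lit 1416882034730014759109198355)) (C.cons (nat_lit 656) (C.node (nat_lit 5) (nat_lit 7) (nat_lit 10) (C.cons (nat_lit 1192) (C.miq (nat_lit 925391424) (nat_lit 546439949484325484662948977)) (C.cons (nat_lit 1184) (C.node (nat_lit 6) (nat_lit 7) (nat_lit 9) (C.cons (nat_lit 736) (C.miq (nat_lit 1461348640) (nat_lit 1395121369990462232846598733)) (C.cons (nat_lit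 704) (C.node (nat_lit 2) (nat_lit 4) (nat_lit 5) (C.cons (nat_lit 62) (C.miq (nat_lit 1916314704) (nat_lit 324027556181975153882236017)) (C.cons (nat_lit 60) (C.miq (nat_lit 1916314704) (nat_lit 324027556181975145292301425)) (C.cons (nat_lit 54) (C.miq (nat_lit 2804222228) (nat_lit 199493734725141826400289299)) (C.cons (nat_lit 52) (C.node (nat_lit 1) (nat_lit 2) (nat_lit 4) (C.cons (nat_lit 30) (C.node (nat_lit 3) (nat_lit 8) (nat_lit 9) (C.cons (nat_lit 792) (C.miq (nat_lit 2821851457) (nat_lit 324011138790577445246206483)) (C.cons (nat_lit 776) (C.node (nat_lit 1) (nat_lit 4) (nat_lit 10) (C.cons (nat_lit 1298) (C.miq (nat_lit 1134039562) (nat_lit 938150379903206693732942855)) (C.cons (nat_lit 1042) (C.node (nat_lit 1) (nat_lit 8) (nat_lit 10) (C.cons (nat_lit 1346) (C.miq (nat_lit 1630840944) (nat_lit 36288748915317693881059201)) (C.cons (nat_lit 1282) (C.node (nat_lit 3) (nat_lit 7) (nat_lit 10) (C.cons (nat_lit 1160)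 (C.node (nat_lit 6) (nat_lit 7) (nat_lit 10) C.nil) C.nil)) C.nil))) C.nil))) C.nil))) (C.cons (nat_lit 22) (C.node (nat_lit 2) (nat_lit 3) (nat_lit 4) (C.cons (nat_lit 28) (C.node (nat_lit 1) (nat_lit 2) (nat_lit 3) (C.cons (nat_lit 46) (C.miq (nat_lit 2266302755) (nat_lit 195851462001276022852289101)) (C.cons (nat_lit 14) (C.node (nat_lit 3) (nat_lit 7) (nat_lit 9) C.nil) C.nil))) C.nil)) C.nil))) C.nil))))) C.nil))) C.nil))) C.nil))) C.nil))) C.nil))) C.nil))) C.nil)) C.nil))) C.nil))) (C.cons (nat_lit 134) (C.node (nat_lit 2) (nat_lit 7) (nat_lit 9) (C.cons (nat_lit 644) (C.node (nat_lit 1) (nat_lit 4) (nat_lit 7) (C.cons (nat_lit 178) (C.node (nat_lit 1) (nat_lit 7) (nat_lit 9) (C.cons (nat_lit 642) (C.node (nat_lit 1) (nat_lit 7) (nat_lit 10) (C.cons (nat_lit 1154) (C.node (nat_lit 4) (nat_lit 7) (nat_lit 8) (C.cons (nat_lit 400) (C.node (nat_lit 5) (nat_lit 7) (nat_lit 8) (C.cons (nat_lit 416) (C.node (nat_lit 2) (nat_lit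 4) (nat_lit 9) (C.cons (nat_lit 564) (C.miq (nat_lit 1649871169) (nat_lit 199476357517299370844881427)) (C.cons (nat_lit 532) (C.node (nat_lit 2) (nat_lit 4) (nat_lit 5) (C.cons (nat_lit 60) (C.miq (nat_lit 1916314704) (nat_lit 324027556181975145292301425)) (C.cons (nat_lit 52) (C.node (nat_lit 5) (nat_lit 7) (nat_lit 10) (C.cons (nat_lit 1192) (C.miq (nat_lit 925391424) (nat_lit 546439949484325484662948977)) (C.cons (nat_lit 1184) (C.node (nat_lit 3) (nat_lit 5) (nat_lit 6) (C.cons (nat_lit 232) (C.miq (nat_lit 924411200) (nat_lit 776141241390154304223118449)) (C.cons (nat_lit 106) (C.miq (nat_lit 2822047510) (nat_lit 359071942914271795133153475)) (C.cons (nat_lit 104) (C.node (nat_lit 3) (nat_lit 4) (nat_lit 5) (C.cons (nat_lit 568) (C.miq (nat_lit 1983189140) (nat_lit 125731568815256704701170195)) (C.cons (nat_lit 56) (C.node (nat_lit 1) (nat_lit 5) (nat_lit 6) (C.cons (nat_lit 866) (C.miq (nat_lit 2440258880) (nat_lit 476327638304181404105770097))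 (C.cons (nat_lit 610) (C.miq (nat_lit 2440258880) (nat_lit 476327638232123810067842161)) (C.cons (nat_lit 354) (C.miq (nat_lit 1132791574) (nat_lit 359071942416624036324966595)) (C.cons (nat_lit 98) (C.node (nat_lit 1) (nat_lit 2) (nat_lit 4) (C.cons (nat_lit 30) (C.node (nat_lit 3) (nat_lit 8) (nat_lit 9) (C.cons (nat_lit 792) (C.miq (nat_lit 2821851457) (nat_lit 324011138790577445246206483)) (C.cons (nat_lit 776)
  (C.node (nat_lit 1) (nat_lit 4) (nat_lit 10) (C.cons (nat_lit 1298) (C.miq (nat_lit 1134039562) (nat_lit 938150379903206693732942855)) (C.cons (nat_lit 1042) (C.node (nat_lit 1) (nat_lit 8) (nat_lit 10) (C.cons (nat_lit 1346) (C.miq (nat_lit 1630840944) (nat_lit 36288748915317693881059201)) (C.cons (nat_lit 1282) (C.node (nat_lit 2) (nat_lit 5) (nat_lit 8) (C.cons (nat_lit 806) (C.miq (nat_lit 2168951344) (nat_lit 215224232313638549234188877)) C.nil)) C.nil))) C.nil))) C.nil))) (C.cons (nat_lit 22) (C.node (nat_lit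 2) (nat_lit 3) (nat_lit 4) (C.cons (nat_lit 28) (C.node (nat_lit 3) (nat_lit 5) (nat_lit 7) C.nil) C.nil)) C.nil))) C.nil))))) C.nil))) C.nil)))) C.nil))) C.nil))) C.nil))) C.nil)) C.nil)) C.nil)) C.nil)) (C.cons (nat_lit 146) (C.node (nat_lit 1) (nat_lit 7) (nat_lit 9) (C.cons (nat_lit 674) (C.node (nat_lit 1) (nat_lit 7) (nat_lit 10) (C.cons (nat_lit 1154) (C.node (nat_lit 3) (nat_lit 7) (nat_lit 9) (C.cons (nat_lit 648) (C.node (nat_lit 5) (nat_lit 7) (nat_lit 10) (C.cons (nat_lit 1192) (C.miq (nat_lit 925391424) (nat_lit 546439949484325484662948977)) (C.cons (nat_lit 1184) (C.node (nat_lit 1) (nat_lit 5) (nat_lit 6) (C.cons (nat_lit 354) (C.miq (nat_lit 1132791574) (nat_lit 359071942416624036324966595)) (C.cons (nat_lit 106) (C.miq (nat_lit 2822047510) (nat_lit 359071942914271795133153475)) (C.cons (nat_lit 98) (C.node (nat_lit 1) (nat_lit 2) (nat_lit 9) (C.cons (nat_lit 774) (C.node (nat_lit 1) (nat_lit 6) (nat_lit 9)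 (C.cons (nat_lit 578) (C.node (nat_lit 2) (nat_lit 5) (nat_lit 8) (C.cons (nat_lit 292) (C.node (nat_lit 1) (nat_lit 5) (nat_lit 8) (C.cons (nat_lit 306) (C.miq (nat_lit 1652885780) (nat_lit 353027313441275612381708819)) (C.cons (nat_lit 290) (C.node (nat_lit 5) (nat_lit 6) (nat_lit 8) (C.cons (nat_lit 864) (C.miq (nat_lit 2776696466) (nat_lit 350607506601423214634992205)) (C.cons (nat_lit 352) (C.node (nat_lit 5) (nat_lit 6) (nat_lit 9) (C.cons (nat_lit 608) (C.node (nat_lit 3) (nat_lit 5) (nat_lit 6) (C.cons (nat_lit 104) (C.node (nat_lit 3) (nat_lit 5) (nat_lit 7) (C.cons (nat_lit 168) (C.node (nat_lit 5) (nat_lit 6) (nat_lit 7) C.nil) C.nil)) C.nil)) C.nil)) C.nil))) C.nil))) C.nil)) C.nil)) (C.cons (nat_lit 518) (C.node (nat_lit 1) (nat_lit 2) (nat_lit 8) (C.cons (nat_lit 294) (C.node (nat_lit 2) (nat_lit 8) (nat_lit 9) (C.cons (nat_lit 772) (C.node (nat_lit 1) (nat_lit 4) (nat_lit 5) (C.cons (nat_lit 58) (C.miq (nat_lit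 2819950388) (nat_lit 355445165455427907605889177)) (C.cons (nat_lit 50) (C.node (nat_lit 1) (nat_lit 2) (nat_lit 3) (C.cons (nat_lit 30) (C.node (nat_lit 3) (nat_lit 5) (nat_lit 6) (C.cons (nat_lit 104) (C.node (nat_lit 3) (nat_lit 5) (nat_lit 7) (C.cons (nat_lit 168) (C.node (nat_lit 5) (nat_lit 6) (nat_lit 7) C.nil) C.nil)) C.nil)) (C.cons (nat_lit 14) (C.node (nat_lit 1) (nat_lit 2) (nat_lit 4) C.nil) C.nil))) C.nil))) C.nil)) (C.cons (nat_lit 262) (C.node (nat_lit 1) (nat_lit 3) (nat_lit 9) (C.cons (nat_lit 1546) (C.node (nat_lit 1) (nat_lit 5) (nat_lit 10) (C.cons (nat_lit 1058) (C.node (nat_lit 4) (nat_lit 9) (nat_lit 10) (C.cons (nat_lit 1552) (C.node (nat_lit 1) (nat_lit 4) (nat_lit 10) (C.cons (nat_lit 1298) (C.miq (nat_lit 981635392) (nat_lit 1552271617952609164129010195)) (C.cons (nat_lit 1042) (C.node (nat_lit 1) (nat_lit 2) (nat_lit 3) (C.cons (nat_lit 46) (C.miq (nat_lit 2706871072) (nat_lit 814851439050786171374600781))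 (C.cons (nat_lit 30) (C.miq (nat_lit 2316568882) (nat_lit 1259705814327272087872209485)) C.nil))) C.nil))) C.nil)) C.nil)) (C.cons (nat_lit 522) (C.node (nat_lit 1) (nat_lit 9) (nat_lit 10) (C.cons (nat_lit 1538) (C.node (nat_lit 1) (nat_lit 5) (nat_lit 8) (C.cons (nat_lit 306) (C.node (nat_lit 4) (nat_lit 5) (nat_lit 7) (C.cons (nat_lit 176) (C.node (nat_lit 4) (nat_lit 7) (nat_lit 8) (C.cons (nat_lit 400) (C.node (nat_lit 5) (nat_lit 7) (nat_lit 8) C.nil) C.nil)) C.nil)) (C.cons (nat_lit 290) (C.node (nat_lit 3) (nat_lit 5) (nat_lit 6) (C.cons (nat_lit 104) (C.node (nat_lit 3) (nat_lit 5) (nat_lit 7) (C.cons (nat_lit 168)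
  (C.node (nat_lit 5) (nat_lit 6) (nat_lit 7) C.nil) C.nil)) C.nil)) C.nil))) C.nil)) C.nil))) C.nil))) C.nil))) C.nil)))) C.nil))) C.nil)) C.nil)) (C.cons (nat_lit 642) (C.node (nat_lit 1) (nat_lit 5) (nat_lit 7) (C.cons (nat_lit 1186) (C.node (nat_lit 2) (nat_lit 9) (nat_lit 10) (C.cons (nat_lit 1572) (C.miq (nat_lit 371552410) (nat_lit 120914459854824487296173953)) (C.cons (nat_lit 1540) (C.node (nat_lit 4) (nat_lit 7) (nat_lit 8) (C.cons (nat_lit 432) (C.miq (nat_lit 394437952) (nat_lit 546453489392783559337772145)) (C.cons (nat_lit 400) (C.node (nat_lit 5) (nat_lit 7) (nat_lit 8) (C.cons (nat_lit 416) (C.node (nat_lit 3) (nat_lit 5) (nat_lit 6) (C.cons (nat_lit 232) (C.miq (nat_lit 389195104) (nat_lit 169268633673018397856433265)) (C.cons (nat_lit 106) (C.miq (nat_lit 2534607446) (nat_lit 476327638601141833859466353)) (C.cons (nat_lit 104) (C.node (nat_lit 2) (nat_lit 3) (nat_lit 10) (C.cons (nat_lit 1068) (C.miq (nat_lit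 1983189034) (nat_lit 125750163133283003961967623)) (C.cons (nat_lit 1036) (C.node (nat_lit 2) (nat_lit 5) (nat_lit 10) (C.cons (nat_lit 1060) (C.node (nat_lit 3) (nat_lit 5) (nat_lit 10) (C.cons (nat_lit 1576) (C.miq (nat_lit 372600986) (nat_lit 125750163133283003995260801)) (C.cons (nat_lit 1064) (C.node (nat_lit 5) (nat_lit 9) (nat_lit 10) (C.cons (nat_lit 1568) (C.node (nat_lit 5) (nat_lit 6) (nat_lit 7) (C.cons (nat_lit 736) (C.miq (nat_lit 358786960) (nat_lit 120911600888435395531704193)) (C.cons (nat_lit 224) (C.node (nat_lit 3) (nat_lit 5) (nat_lit 7) C.nil) C.nil))) C.nil)) C.nil))) C.nil)) C.nil))) C.nil)))) C.nil)) C.nil))) C.nil))) (C.cons (nat_lit 162) (C.node (nat_lit 1) (nat_lit 7) (nat_lit 10) (C.cons (nat_lit 1154) (C.node (nat_lit 5) (nat_lit 7) (nat_lit 10) (C.cons (nat_lit 1192) (C.miq (nat_lit 925391424) (nat_lit 546439949484325484662948977)) (C.cons (nat_lit 1184) (C.node (nat_lit 2) (nat_lit 3) (nat_lit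 10) (C.cons (nat_lit 1068) (C.node (nat_lit 2) (nat_lit 9) (nat_lit 10) (C.cons (nat_lit 1540) (C.node (nat_lit 3) (nat_lit 4) (nat_lit 5) (C.cons (nat_lit 568) (C.miq (nat_lit 305728084) (nat_lit 712067103264325011724829809)) (C.cons (nat_lit 58) (C.miq (nat_lit 363344903) (nat_lit 1586117943367888950930768025)) (C.cons (nat_lit 56) (C.node (nat_lit 3) (nat_lit 5) (nat_lit 6) (C.cons (nat_lit 232) (C.miq (nat_lit 594650464) (nat_lit 476335791821920160954123377)) (C.cons (nat_lit 106) (C.miq (nat_lit 2203742560) (nat_lit 1291168211654691150799896771)) (C.cons (nat_lit 104) (C.node (nat_lit 1) (nat_lit 2) (nat_lit 3) (C.cons (nat_lit 30) (C.node (nat_lit 1) (nat_lit 3) (nat_lit 6) (C.cons (nat_lit 1098) (C.miq (nat_lit 321350224) (nat_lit 169253212170206569285616753)) (C.cons (nat_lit 74) (C.node (nat_lit 1) (nat_lit 3) (nat_lit 10) (C.cons (nat_lit 1546) (C.miq (nat_lit 2737344832) (nat_lit 324027556287246657731756563)) (C.cons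 (nat_lit 1034) (C.node (nat_lit 1) (nat_lit 4) (nat_lit 10) (C.cons (nat_lit 1298) (C.miq (nat_lit 2584938562) (nat_lit 1250040163154504986702774549)) C.nil)) C.nil))) C.nil))) (C.cons (nat_lit 14) (C.node (nat_lit 2) (nat_lit 3) (nat_lit 4) (C.cons (nat_lit 28) (C.node (nat_lit 1) (nat_lit 2) (nat_lit 4) (C.cons (nat_lit 54) (C.node (nat_lit 2) (nat_lit 4) (nat_lit 9) C.nil) C.nil)) C.nil)) C.nil))) C.nil)))) C.nil)))) C.nil)) (C.cons (nat_lit 1036) (C.node (nat_lit 2) (nat_lit 4) (nat_lit 9) (C.cons (nat_lit 564) (C.node (nat_lit 2) (nat_lit 5) (nat_lit 10) (C.cons (nat_lit 1060) (C.node (nat_lit 2) (nat_lit 9) (nat_lit 10) (C.cons (nat_lit 1540) (C.node (nat_lit 3) (nat_lit 4) (nat_lit 5) (C.cons (nat_lit 58) (C.miq (nat_lit 363344903) (nat_lit 1586117943367888950930768025)) (C.cons (nat_lit 56) (C.node (nat_lit 1) (nat_lit 2) (nat_lit 4) (C.cons (nat_lit 30) (C.node (nat_lit 2) (nat_lit 3) (nat_lit 5) C.nil) (C.cons (nat_lit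 22) (C.node (nat_lit 1) (nat_lit 2) (nat_lit 3) C.nil) C.nil))) C.nil))) C.nil)) C.nil)) (C.cons (nat_lit 532) (C.node (nat_lit 2) (nat_lit 5) (nat_lit 10) (C.cons (nat_lit 1572) (C.node (nat_lit 4) (nat_lit 9) (nat_lit 10)
  (C.cons (nat_lit 1560) (C.miq (nat_lit 1922237860) (nat_lit 712060130151309984411419761)) (C.cons (nat_lit 1552) (C.node (nat_lit 1) (nat_lit 2) (nat_lit 9) (C.cons (nat_lit 774) (C.node (nat_lit 2) (nat_lit 5) (nat_lit 8) (C.cons (nat_lit 292) (C.node (nat_lit 1) (nat_lit 2) (nat_lit 3) (C.cons (nat_lit 62) (C.miq (nat_lit 2453120320) (nat_lit 169285051383892610194670705)) (C.cons (nat_lit 46) (C.miq (nat_lit 933566610) (nat_lit 1431369019084857725050684166)) (C.cons (nat_lit 30) (C.miq (nat_lit 2168951344) (nat_lit 176538606076963216388850253)) C.nil)))) C.nil)) (C.cons (nat_lit 518) (C.node (nat_lit 2) (nat_lit 8) (nat_lit 9) (C.cons (nat_lit 772) (C.node (nat_lit 1) (nat_lit 2) (nat_lit 8) C.nil) C.nil))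 C.nil))) C.nil))) (C.cons (nat_lit 1060) (C.node (nat_lit 2) (nat_lit 9) (nat_lit 10) (C.cons (nat_lit 1540) (C.node (nat_lit 3) (nat_lit 7) (nat_lit 9) (C.cons (nat_lit 680) (C.node (nat_lit 5) (nat_lit 6) (nat_lit 7) (C.cons (nat_lit 224) (C.node (nat_lit 3) (nat_lit 6) (nat_lit 7) C.nil) C.nil)) (C.cons (nat_lit 648) (C.node (nat_lit 3) (nat_lit 7) (nat_lit 10) (C.cons (nat_lit 1160) (C.node (nat_lit 6) (nat_lit 7) (nat_lit 10) (C.cons (nat_lit 1216) (C.node (nat_lit 3) (nat_lit 5) (nat_lit 7) C.nil) C.nil)) C.nil)) C.nil))) C.nil)) C.nil))) C.nil))) C.nil))) C.nil))) C.nil)) C.nil))) C.nil))) C.nil))) C.nil)) C.nil))) C.nil))) C.nil))) (C.cons (nat_lit 1156) (C.node (nat_lit 2) (nat_lit 8) (nat_lit 10) (C.cons (nat_lit 1316) (C.node (nat_lit 4) (nat_lit 7) (nat_lit 10) (C.cons (nat_lit 1170) (C.miq (nat_lit 408580868) (nat_lit 1590967961414320650592518297)) (C.cons (nat_lit 1168) (C.node (nat_lit 1) (nat_lit 2) (nat_lit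 8) (C.cons (nat_lit 774) (C.node (nat_lit 1) (nat_lit 2) (nat_lit 7) (C.cons (nat_lit 150) (C.miq (nat_lit 1377085584) (nat_lit 181359847260630577656825729)) (C.cons (nat_lit 134) (C.node (nat_lit 1) (nat_lit 4) (nat_lit 7) (C.cons (nat_lit 178) (C.miq (nat_lit 558205194) (nat_lit 215213072024468907543824257)) (C.cons (nat_lit 146) (C.node (nat_lit 2) (nat_lit 5) (nat_lit 9) (C.cons (nat_lit 564) (C.miq (nat_lit 340955304) (nat_lit 681848440192032001824655233)) (C.cons (nat_lit 548) (C.node (nat_lit 2) (nat_lit 9) (nat_lit 10) (C.cons (nat_lit 1556) (C.miq (nat_lit 1343792274) (nat_lit 313136063515429287217202708)) (C.cons (nat_lit 1540) (C.node (nat_lit 3) (nat_lit 8) (nat_lit 9) (C.cons (nat_lit 792) (C.miq (nat_lit 1486135824) (nat_lit 957490223453222507818189831)) (C.cons (nat_lit 776) (C.node (nat_lit 4) (nat_lit 7) (nat_lit 8) (C.cons (nat_lit 432) (C.miq (nat_lit 2488799394) (nat_lit 522270232002900950763439111)) (C.cons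 (nat_lit 400) (C.node (nat_lit 5) (nat_lit 7) (nat_lit 8) (C.cons (nat_lit 416) (C.node (nat_lit 4) (nat_lit 5) (nat_lit 7) (C.cons (nat_lit 688) (C.miq (nat_lit 2303009034) (nat_lit 831765240027929786643973127)) (C.cons (nat_lit 176) (C.node (nat_lit 4) (nat_lit 5) (nat_lit 8) (C.cons (nat_lit 816) (C.node (nat_lit 6) (nat_lit 8) (nat_lit 9) (C.cons (nat_lit 832) (C.node (nat_lit 1) (nat_lit 5) (nat_lit 8) (C.cons (nat_lit 354) (C.miq (nat_lit 945058144) (nat_lit 986486291268283345438572739)) (C.cons (nat_lit 290) (C.node (nat_lit 5) (nat_lit 6) (nat_lit 8) (C.cons (nat_lit 352) (C.node (nat_lit 1) (nat_lit 6) (nat_lit 9) (C.cons (nat_lit 610) (C.miq (nat_lit 1159202450) (nat_lit 350593597756390546711380557)) (C.cons (nat_lit 578) (C.node (nat_lit 1) (nat_lit 5) (nat_lit 6) (C.cons (nat_lit 106) (C.miq (nat_lit 2822047510) (nat_lit 359071942914271795133153475)) (C.cons (nat_lit 98) (C.node (nat_lit 1) (nat_lit 2) (nat_lit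 5) (C.cons (nat_lit 62) (C.miq (nat_lit 2184684864) (nat_lit 169285051311835016156742769)) (C.cons (nat_lit 38) (C.miq (nat_lit 1092980904) (nat_lit 45954233837987696463841153)) C.nil))) C.nil))) C.nil))) C.nil)) C.nil))) C.nil)) (C.cons (nat_lit 306) (C.miq (nat_lit 558205194) (nat_lit 369955576935141441906214785)) (C.cons (nat_lit 304)
  (C.miq (nat_lit 2488799394) (nat_lit 367527727092228416401048583)) C.nil)))) C.nil))) C.nil)) C.nil))) C.nil))) C.nil))) C.nil))) C.nil))) C.nil))) (C.cons (nat_lit 262) (C.node (nat_lit 2) (nat_lit 8) (nat_lit 9) (C.cons (nat_lit 772) (C.node (nat_lit 1) (nat_lit 7) (nat_lit 10) (C.cons (nat_lit 1186) (C.node (nat_lit 1) (nat_lit 7) (nat_lit 9) (C.cons (nat_lit 646) (C.miq (nat_lit 1361487760) (nat_lit 84645781654867946955933569)) (C.cons (nat_lit 642) (C.node (nat_lit 4) (nat_lit 7) (nat_lit 8) (C.cons (nat_lit 432) (C.miq (nat_lit 394437952) (nat_lit 546453489392783559337772145)) (C.cons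 (nat_lit 400) (C.node (nat_lit 5) (nat_lit 7) (nat_lit 8) (C.cons (nat_lit 416) (C.node (nat_lit 1) (nat_lit 6) (nat_lit 10) (C.cons (nat_lit 1346) (C.miq (nat_lit 405236304) (nat_lit 546438067959777731170075761)) (C.cons (nat_lit 1098) (C.miq (nat_lit 588711589) (nat_lit 476319816806729534144644209)) (C.cons (nat_lit 1090) (C.node (nat_lit 1) (nat_lit 8) (nat_lit 10) (C.cons (nat_lit 1298) (C.miq (nat_lit 1904368192) (nat_lit 316741608785639903113577585)) (C.cons (nat_lit 1282) (C.node (nat_lit 4) (nat_lit 8) (nat_lit 10) (C.cons (nat_lit 1304) (C.miq (nat_lit 674716224) (nat_lit 476319817011362726908855409)) (C.cons (nat_lit 1296) (C.node (nat_lit 1) (nat_lit 3) (nat_lit 6) (C.cons (nat_lit 106) (C.miq (nat_lit 2534607446) (nat_lit 476327638601141833859466353)) (C.cons (nat_lit 90) (C.miq (nat_lit 883430919) (nat_lit 1566775130263062083390210243)) (C.cons (nat_lit 74) (C.node (nat_lit 3) (nat_lit 5) (nat_lit 6) (C.cons (nat_lit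 232) (C.miq (nat_lit 389195104) (nat_lit 169268633673018397856433265)) (C.cons (nat_lit 104) (C.node (nat_lit 3) (nat_lit 5) (nat_lit 10) (C.cons (nat_lit 1576) (C.miq (nat_lit 372600986) (nat_lit 125750163133283003995260801)) (C.cons (nat_lit 1064) (C.node (nat_lit 5) (nat_lit 9) (nat_lit 10) (C.cons (nat_lit 1568) (C.node (nat_lit 5) (nat_lit 6) (nat_lit 7) (C.cons (nat_lit 736) (C.miq (nat_lit 358786960) (nat_lit 120911600888435395531704193)) (C.cons (nat_lit 224) (C.node (nat_lit 1) (nat_lit 2) (nat_lit 7) (C.cons (nat_lit 150) (C.node (nat_lit 2) (nat_lit 7) (nat_lit 9) (C.cons (nat_lit 644) (C.node (nat_lit 3) (nat_lit 5) (nat_lit 7) C.nil) C.nil)) (C.cons (nat_lit 134) (C.node (nat_lit 1) (nat_lit 4) (nat_lit 7) (C.cons (nat_lit 146) (C.node (nat_lit 1) (nat_lit 4) (nat_lit 6) C.nil) C.nil)) C.nil))) C.nil))) C.nil)) C.nil))) C.nil))) C.nil)))) C.nil))) C.nil))) C.nil)))) C.nil)) C.nil))) C.nil))) (C.cons (nat_lit 1154)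 (C.node (nat_lit 5) (nat_lit 7) (nat_lit 10) (C.cons (nat_lit 1192) (C.miq (nat_lit 712279344) (nat_lit 1412030467428421482564878633)) (C.cons (nat_lit 1184) (C.node (nat_lit 2) (nat_lit 3) (nat_lit 10) (C.cons (nat_lit 1052) (C.node (nat_lit 2) (nat_lit 9) (nat_lit 10) (C.cons (nat_lit 1540) (C.node (nat_lit 4) (nat_lit 9) (nat_lit 10) (C.cons (nat_lit 1552) (C.node (nat_lit 1) (nat_lit 3) (nat_lit 4) (C.cons (nat_lit 90) (C.miq (nat_lit 2202693984) (nat_lit 1271825398540857015285121219)) (C.cons (nat_lit 58) (C.miq (nat_lit 363344903) (nat_lit 1590953646646347467629592729)) (C.cons (nat_lit 26) (C.node (nat_lit 1) (nat_lit 2) (nat_lit 3) (C.cons (nat_lit 46) (C.node (nat_lit 1) (nat_lit 2) (nat_lit 9) (C.cons (nat_lit 646) (C.miq (nat_lit 1483813010) (nat_lit 476317621561997604231184973)) (C.cons (nat_lit 518) (C.node (nat_lit 1) (nat_lit 3) (nat_lit 9) (C.cons (nat_lit 1546) (C.miq (nat_lit 1470177427) (nat_lit 1395101244431961080141054541))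 (C.cons (nat_lit 522) (C.node (nat_lit 1) (nat_lit 5) (nat_lit 10) (C.cons (nat_lit 1570) (C.miq (nat_lit 1095895464) (nat_lit 55615697599851315400542081)) (C.cons (nat_lit 1058) (C.node (nat_lit 1) (nat_lit 9) (nat_lit 10) (C.cons (nat_lit 1538) (C.node (nat_lit 1) (nat_lit 2) (nat_lit 4) (C.cons (nat_lit 150) (C.node (nat_lit 1) (nat_lit 3) (nat_lit 6) C.nil) C.nil)) C.nil)) C.nil))) C.nil))) C.nil))) (C.cons (nat_lit 14) (C.node (nat_lit 2) (nat_lit 3) (nat_lit 5) (C.cons (nat_lit 44) (C.node (nat_lit 1) (nat_lit 4) (nat_lit 6)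
  (C.cons (nat_lit 338) (C.node (nat_lit 1) (nat_lit 4) (nat_lit 10) (C.cons (nat_lit 1042) (C.node (nat_lit 1) (nat_lit 8) (nat_lit 10) (C.cons (nat_lit 1282) (C.node (nat_lit 3) (nat_lit 4) (nat_lit 6) (C.cons (nat_lit 88) (C.node (nat_lit 4) (nat_lit 8) (nat_lit 10) (C.cons (nat_lit 1296) (C.node (nat_lit 1) (nat_lit 6) (nat_lit 10) C.nil) C.nil)) C.nil)) C.nil)) C.nil)) (C.cons (nat_lit 82) (C.node (nat_lit 1) (nat_lit 4) (nat_lit 10) (C.cons (nat_lit 1298) (C.node (nat_lit 1) (nat_lit 6) (nat_lit 10) (C.cons (nat_lit 1098) (C.miq (nat_lit 830630464) (nat_lit 316749430180357358012925041)) (C.cons (nat_lit 1090) (C.node (nat_lit 1) (nat_lit 3) (nat_lit 6) (C.cons (nat_lit 106) (C.miq (nat_lit 2822047510) (nat_lit 359071942914271795133153475)) (C.cons (nat_lit 74) (C.node (nat_lit 1) (nat_lit 3) (nat_lit 10) C.nil) C.nil))) C.nil))) (C.cons (nat_lit 1042) (C.node (nat_lit 4) (nat_lit 8) (nat_lit 10) (C.cons (nat_lit 1296)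 (C.node (nat_lit 1) (nat_lit 8) (nat_lit 10) (C.cons (nat_lit 1346) (C.miq (nat_lit 1630840944) (nat_lit 31453045636859177182234497)) (C.cons (nat_lit 1282) (C.node (nat_lit 1) (nat_lit 6) (nat_lit 10) C.nil) C.nil))) C.nil)) C.nil))) C.nil))) C.nil)) C.nil))) C.nil)))) C.nil)) C.nil)) (C.cons (nat_lit 1036) (C.node (nat_lit 2) (nat_lit 4) (nat_lit 10) (C.cons (nat_lit 1556) (C.node (nat_lit 2) (nat_lit 7) (nat_lit 9) (C.cons (nat_lit 646) (C.miq (nat_lit 1108781424) (nat_lit 84645781759013688313055105)) (C.cons (nat_lit 644) (C.node (nat_lit 4) (nat_lit 6) (nat_lit 7) (C.cons (nat_lit 720) (C.miq (nat_lit 306580119) (nat_lit 101553366252930608042870657)) (C.cons (nat_lit 208) (C.node (nat_lit 2) (nat_lit 4) (nat_lit 5) (C.cons (nat_lit 62) (C.miq (nat_lit 2184684864) (nat_lit 169285051311835016156742769)) (C.cons (nat_lit 60) (C.miq (nat_lit 2184684864) (nat_lit 169285051311835007566808177)) (C.cons (nat_lit 54) (C.miq (nat_lit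 2552302164) (nat_lit 316748360500855065986598001)) (C.cons (nat_lit 52) (C.node (nat_lit 5) (nat_lit 9) (nat_lit 10) (C.cons (nat_lit 1578) (C.miq (nat_lit 354720384) (nat_lit 62873938285237022301161345)) (C.cons (nat_lit 1576) (C.miq (nat_lit 958945856) (nat_lit 933296211869094860893258865)) (C.cons (nat_lit 1570) (C.miq (nat_lit 354720384) (nat_lit 62873938282985222487476097)) (C.cons (nat_lit 1568) (C.node (nat_lit 1) (nat_lit 2) (nat_lit 7) (C.cons (nat_lit 150) (C.node (nat_lit 2) (nat_lit 3) (nat_lit 4) (C.cons (nat_lit 28) (C.node (nat_lit 1) (nat_lit 5) (nat_lit 10) (C.cons (nat_lit 1066) (C.node (nat_lit 1) (nat_lit 9) (nat_lit 10) C.nil) C.nil)) C.nil)) (C.cons (nat_lit 134) (C.node (nat_lit 2) (nat_lit 4) (nat_lit 7) (C.cons (nat_lit 148) (C.node (nat_lit 1) (nat_lit 2) (nat_lit 4) (C.cons (nat_lit 22) (C.node (nat_lit 2) (nat_lit 3) (nat_lit 4) C.nil) C.nil)) C.nil)) C.nil))) C.nil))))) C.nil))))) C.nil))) C.nil)))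 (C.cons (nat_lit 1044) (C.node (nat_lit 2) (nat_lit 9) (nat_lit 10) (C.cons (nat_lit 1540) (C.node (nat_lit 3) (nat_lit 7) (nat_lit 9) (C.cons (nat_lit 680) (C.node (nat_lit 5) (nat_lit 6) (nat_lit 7) (C.cons (nat_lit 224) (C.node (nat_lit 3) (nat_lit 5) (nat_lit 6) (C.cons (nat_lit 106) (C.miq (nat_lit 2822047510) (nat_lit 359071942914271795133153475)) (C.cons (nat_lit 104) (C.node (nat_lit 3) (nat_lit 8) (nat_lit 9) (C.cons (nat_lit 792) (C.miq (nat_lit 1501721408) (nat_lit 933293776646672270744682649)) (C.cons (nat_lit 776) (C.node (nat_lit 4) (nat_lit 7) (nat_lit 8) (C.cons (nat_lit 432) (C.miq (nat_lit 2458202183) (nat_lit 1590958922564612067425255577)) (C.cons (nat_lit 400) (C.node (nat_lit 5) (nat_lit 7) (nat_lit 8) (C.cons (nat_lit 416) (C.node (nat_lit 2) (nat_lit 3) (nat_lit 5) (C.cons (nat_lit 62) (C.miq (nat_lit 2184684864) (nat_lit 169285051311835016156742769)) (C.cons (nat_lit 60) (C.miq (nat_lit 2184684864) (nat_lit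 169285051311835007566808177)) (C.cons (nat_lit 46) (C.miq (nat_lit 443883667) (nat_lit 1431369019264157285156913741)) (C.cons (nat_lit 44) (C.node (nat_lit 1) (nat_lit 3) (nat_lit 9) (C.cons (nat_lit 1546)
  (C.miq (nat_lit 324184432) (nat_lit 53211755091346912818038657)) (C.cons (nat_lit 522) (C.node (nat_lit 1) (nat_lit 2) (nat_lit 3) (C.cons (nat_lit 14) (C.node (nat_lit 2) (nat_lit 3) (nat_lit 4) C.nil) C.nil)) C.nil))) C.nil))))) C.nil)) C.nil))) C.nil))) C.nil))) C.nil)) (C.cons (nat_lit 648) (C.node (nat_lit 3) (nat_lit 5) (nat_lit 7) (C.cons (nat_lit 232) (C.node (nat_lit 3) (nat_lit 7) (nat_lit 10) (C.cons (nat_lit 1160) (C.node (nat_lit 6) (nat_lit 7) (nat_lit 10) (C.cons (nat_lit 1216) (C.node (nat_lit 4) (nat_lit 7) (nat_lit 8) (C.cons (nat_lit 432) (C.miq (nat_lit 931292480) (nat_lit 546445335663375851933992049)) (C.cons (nat_lit 400) (C.node (nat_lit 5) (nat_lit 7) (nat_lit 8) (C.cons (nat_lit 416) (C.node (nat_lit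 4) (nat_lit 6) (nat_lit 7) (C.cons (nat_lit 208) (C.node (nat_lit 6) (nat_lit 7) (nat_lit 9) C.nil) C.nil)) C.nil)) C.nil))) C.nil)) C.nil)) (C.cons (nat_lit 168) (C.node (nat_lit 3) (nat_lit 5) (nat_lit 6) (C.cons (nat_lit 106) (C.miq (nat_lit 2822047510) (nat_lit 359071942914271795133153475)) (C.cons (nat_lit 104) (C.node (nat_lit 3) (nat_lit 6) (nat_lit 7) (C.cons (nat_lit 1224) (C.node (nat_lit 1) (nat_lit 3) (nat_lit 6) (C.cons (nat_lit 90) (C.miq (nat_lit 2536573540) (nat_lit 476326568689985721913181297)) (C.cons (nat_lit 74) (C.node (nat_lit 1) (nat_lit 6) (nat_lit 10) (C.cons (nat_lit 1346) (C.miq (nat_lit 1175652999) (nat_lit 89463333323368666061473665)) (C.cons (nat_lit 1090) (C.node (nat_lit 6) (nat_lit 8) (nat_lit 10) (C.cons (nat_lit 1344) (C.node (nat_lit 3) (nat_lit 8) (nat_lit 10) C.nil) C.nil)) C.nil))) C.nil))) (C.cons (nat_lit 200) (C.node (nat_lit 3) (nat_lit 7) (nat_lit 10) (C.cons (nat_lit 1160) (C.node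 (nat_lit 6) (nat_lit 7) (nat_lit 10) (C.cons (nat_lit 1216) (C.node (nat_lit 1) (nat_lit 2) (nat_lit 3) (C.cons (nat_lit 62) (C.miq (nat_lit 2184684864) (nat_lit 169285051311835016156742769)) C.nil)) C.nil)) C.nil)) C.nil))) C.nil))) C.nil))) C.nil))) C.nil)) C.nil))) C.nil))) C.nil))) C.nil))) C.nil)) C.nil))) C.nil))) (C.cons (nat_lit 1284) (C.ref (nat_lit 150) (nat_lit 11649936536080)) C.nil))) C.nil))) C.nil))) List.nil)

theorem ok11_151 : okL par11 (nat_lit 152) c11_151 (nat_lit 151) = true := by decide +kernel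

noncomputable def c11_152 : List C :=
  (List.cons (C.node (nat_lit 3) (nat_lit 6) (nat_lit 7) (C.cons (nat_lit 1224) (C.node (nat_lit 1) (nat_lit 6) (nat_lit 10) (C.cons (nat_lit 1346) (C.node (nat_lit 1) (nat_lit 3) (nat_lit 6) (C.cons (nat_lit 90) (C.miq (nat_lit 326657034) (nat_lit 473923750631791254701147249)) (C.cons (nat_lit 74) (C.node (nat_lit 1) (nat_lit 4) (nat_lit 6) (C.cons (nat_lit 82) (C.node (nat_lit 4) (nat_lit 8) (nat_lit 10) (C.cons (nat_lit 1304) (C.miq (nat_lit 406284864) (nat_lit 473902518782899929147311217)) (C.cons (nat_lit 1296) (C.node (nat_lit 5) (nat_lit 8) (nat_lit 10) (C.cons (nat_lit 1316) (C.miq (nat_lit 405236304) (nat_lit 546438067959777731170075761)) (C.cons (nat_lit 1312) (C.node (nat_lit 1) (nat_lit 5) (nat_lit 6) (C.cons (nat_lit 610) (C.node (nat_lit 5) (nat_lit 6) (nat_lit 8) (C.cons (nat_lit 352) (C.node (nat_lit 6) (nat_lit 8) (nat_lit 9) (C.cons (nat_lit 832) (C.node (nat_lit 3) (nat_lit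 4) (nat_lit 6) (C.cons (nat_lit 344) (C.node (nat_lit 3) (nat_lit 4) (nat_lit 9) (C.cons (nat_lit 1560) (C.miq (nat_lit 1130470000) (nat_lit 89470306311691919421540225)) (C.cons (nat_lit 568) (C.miq (nat_lit 895961360) (nat_lit 270802206105400619410063891)) (C.cons (nat_lit 536) (C.node (nat_lit 1) (nat_lit 4) (nat_lit 8) (C.cons (nat_lit 434) (C.miq (nat_lit 947020880) (nat_lit 546445335694901057908180081)) (C.cons (nat_lit 402) (C.miq (nat_lit 2458125937) (nat_lit 334882247420146123799658691)) (C.cons (nat_lit 306) (C.miq (nat_lit 643303700) (nat_lit 425546998418249268275053075)) (C.cons (nat_lit 274) (C.node (nat_lit 4) (nat_lit 7) (nat_lit 8) (C.cons (nat_lit 432) (C.miq (nat_lit 947020880) (nat_lit 546445335694901049318245489)) (C.cons (nat_lit 400) (C.node (nat_lit 1) (nat_lit 7) (nat_lit 8) (C.cons (nat_lit 418) (C.node (nat_lit 2) (nat_lit 5) (nat_lit 8) C.nil) C.nil)) C.nil))) C.nil))))) C.nil)))) C.nil)) C.nil)) C.nil))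 (C.cons (nat_lit 98) (C.node (nat_lit 1) (nat_lit 6) (nat_lit 9) (C.cons (nat_lit 578) (C.node (nat_lit 3) (nat_lit 4) (nat_lit 6) (C.cons (nat_lit 344) (C.node (nat_lit 5) (nat_lit 6) (nat_lit 8) (C.cons (nat_lit 864) (C.node (nat_lit 4) (nat_lit 8) (nat_lit 9) (C.cons (nat_lit 784) (C.node (nat_lit 2) (nat_lit 8) (nat_lit 9) (C.cons (nat_lit 774) (C.miq (nat_lit 1478125856) (nat_lit 1627235127392500381164962381)) (C.cons (nat_lit 772) (C.node (nat_lit 4) (nat_lit 7) (nat_lit 8) (C.cons (nat_lit 434) (C.miq (nat_lit 911477127) (nat_lit 1374551479419469121365084033)) (C.cons (nat_lit 432) (C.miq (nat_lit 911477127) (nat_lit 1374551479419469121364952961)) (C.cons (nat_lit 402) (C.miq (nat_lit 675899152) (nat_lit 947808707837357103980413123)) (C.cons (nat_lit 400) (C.node (nat_lit 1) (nat_lit 4) (nat_lit 8) (C.cons (nat_lit 306) (C.node (nat_lit 1) (nat_lit 7) (nat_lit 8) C.nil) (C.cons (nat_lit 274) (C.node (nat_lit 4) (nat_lit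 5) (nat_lit 8) C.nil) C.nil))) C.nil))))) C.nil))) C.nil)) C.nil)) C.nil)) C.nil)) C.nil))) C.nil))) C.nil))) C.nil)) C.nil))) (C.cons (nat_lit 1090) (C.node (nat_lit 6) (nat_lit 8) (nat_lit 10) (C.cons (nat_lit 1344) (C.node (nat_lit 2) (nat_lit 3) (nat_lit 7) (C.cons (nat_lit 142) (C.node (nat_lit 5) (nat_lit 7) (nat_lit 10) (C.cons (nat_lit 1186) (C.miq (nat_lit 1463197984) (nat_lit 1479746177490147849903342599)) (C.cons (nat_lit 1184) (C.node (nat_lit 1) (nat_lit 7) (nat_lit 10) (C.cons (nat_lit 1170) (C.miq (nat_lit 2473658020) (nat_lit 171677261772174500979410033)) (C.cons (nat_lit 1154) (C.node (nat_lit 2) (nat_lit 3) (nat_lit 4) (C.cons (nat_lit 1052) (C.miq (nat_lit 1131848208) (nat_lit 1479746177452430202998293511)) (C.cons (nat_lit 60) (C.miq (nat_lit 307655488) (nat_lit 120896179116526995298648217)) (C.cons (nat_lit 28) (C.node (nat_lit 2) (nat_lit 3) (nat_lit 5) (C.cons (nat_lit 1068) (C.miq (nat_lit 1400283664)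 (nat_lit 1479746177456933802625664007)) (C.cons (nat_lit 44) (C.node (nat_lit 1) (nat_lit 4) (nat_lit 7) (C.cons (nat_lit 434) (C.miq (nat_lit 2458125937) (nat_lit 334882247420146123801755843)) (C.cons (nat_lit 402)
  (C.miq (nat_lit 2458125937) (nat_lit 334882247420146123799658691)) (C.cons (nat_lit 178) (C.miq (nat_lit 1361463088) (nat_lit 84645781371139005768073369)) (C.cons (nat_lit 146) (C.node (nat_lit 1) (nat_lit 2) (nat_lit 4) (C.cons (nat_lit 54) (C.node (nat_lit 1) (nat_lit 7) (nat_lit 9) (C.cons (nat_lit 674) (C.miq (nat_lit 2270300436) (nat_lit 199477870525238556444983827)) (C.cons (nat_lit 642) (C.node (nat_lit 2) (nat_lit 7) (nat_lit 10) (C.cons (nat_lit 1172) (C.miq (nat_lit 325396388) (nat_lit 125729281404076118292628628)) (C.cons (nat_lit 1156) (C.node (nat_lit 4) (nat_lit 7) (nat_lit 10) (C.cons (nat_lit 1168) (C.node (nat_lit 4) (nat_lit 7) (nat_lit 8) (C.cons (nat_lit 432) (C.miq (nat_lit 443883652) (nat_lit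 1431369166838109874817073429)) (C.cons (nat_lit 400) (C.node (nat_lit 4) (nat_lit 5) (nat_lit 7) (C.cons (nat_lit 688) (C.miq (nat_lit 2807171393) (nat_lit 199491779370270193576444435)) (C.cons (nat_lit 176) (C.node (nat_lit 1) (nat_lit 4) (nat_lit 10) (C.cons (nat_lit 1306) (C.miq (nat_lit 2166858832) (nat_lit 171702902948249490380096625)) (C.cons (nat_lit 1298) (C.miq (nat_lit 2166858832) (nat_lit 171702902945997690566411377)) (C.cons (nat_lit 1050) (C.miq (nat_lit 1412893202) (nat_lit 184968694433851984051045383)) C.nil)))) C.nil))) C.nil))) C.nil)) C.nil))) C.nil))) (C.cons (nat_lit 22) (C.node (nat_lit 1) (nat_lit 7) (nat_lit 8) (C.cons (nat_lit 418) (C.node (nat_lit 1) (nat_lit 7) (nat_lit 9) (C.cons (nat_lit 642) (C.node (nat_lit 4) (nat_lit 7) (nat_lit 8) (C.cons (nat_lit 400) (C.node (nat_lit 1) (nat_lit 5) (nat_lit 6) (C.cons (nat_lit 98) (C.node (nat_lit 1) (nat_lit 6) (nat_lit 9) C.nil) C.nil)) C.nil)) C.nil)) (C.cons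 (nat_lit 386) (C.node (nat_lit 1) (nat_lit 5) (nat_lit 7) (C.cons (nat_lit 674) (C.node (nat_lit 3) (nat_lit 5) (nat_lit 7) (C.cons (nat_lit 168) (C.node (nat_lit 3) (nat_lit 7) (nat_lit 9) (C.cons (nat_lit 648) (C.node (nat_lit 1) (nat_lit 2) (nat_lit 5) (C.cons (nat_lit 38) (C.node (nat_lit 1) (nat_lit 2) (nat_lit 8) C.nil) C.nil)) C.nil)) C.nil)) (C.cons (nat_lit 162) (C.node (nat_lit 1) (nat_lit 7) (nat_lit 9) (C.cons (nat_lit 642) (C.node (nat_lit 2) (nat_lit 7) (nat_lit 9) (C.cons (nat_lit 644) (C.node (nat_lit 2) (nat_lit 4) (nat_lit 7) C.nil) C.nil)) C.nil)) C.nil))) C.nil))) C.nil))) C.nil))))) C.nil))) C.nil)))) C.nil))) C.nil))) (C.cons (nat_lit 140) (C.node (nat_lit 2) (nat_lit 7) (nat_lit 10) (C.cons (nat_lit 1172) (C.node (nat_lit 4) (nat_lit 9) (nat_lit 10) (C.cons (nat_lit 1560) (C.miq (nat_lit 346491190) (nat_lit 1416864657852909678980760141)) (C.cons (nat_lit 1552) (C.node (nat_lit 1) (nat_lit 2) (nat_lit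 7) (C.cons (nat_lit 646) (C.node (nat_lit 1) (nat_lit 7) (nat_lit 10) (C.cons (nat_lit 1186) (C.miq (nat_lit 1361487760) (nat_lit 84645781654867946955933569)) (C.cons (nat_lit 1154) (C.node (nat_lit 5) (nat_lit 7) (nat_lit 10) (C.cons (nat_lit 1184) (C.node (nat_lit 2) (nat_lit 4) (nat_lit 9) (C.cons (nat_lit 564) (C.miq (nat_lit 1383483664) (nat_lit 546455444572578856153842195)) (C.cons (nat_lit 532) (C.node (nat_lit 2) (nat_lit 9) (nat_lit 10) (C.cons (nat_lit 1572) (C.miq (nat_lit 1377216880) (nat_lit 84645781763517287940425601)) (C.cons (nat_lit 1540) (C.node (nat_lit 4) (nat_lit 7) (nat_lit 9) (C.cons (nat_lit 688) (C.miq (nat_lit 1462389008) (nat_lit 1416882034730014759109198355)) (C.cons (nat_lit 656) (C.node (nat_lit 1) (nat_lit 4) (nat_lit 7) (C.cons (nat_lit 434) (C.miq (nat_lit 659984704) (nat_lit 270810248907771049105490451)) (C.cons (nat_lit 402) (C.miq (nat_lit 2458125937) (nat_lit 334882247420146123799658691))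 (C.cons (nat_lit 178) (C.miq (nat_lit 659984704) (nat_lit 270810248907769949593862675)) (C.cons (nat_lit 146) (C.node (nat_lit 4) (nat_lit 5) (nat_lit 2) (C.cons (nat_lit 62) (C.miq (nat_lit 2267220549) (nat_lit 169255093969756440162600049)) (C.cons (nat_lit 60) (C.miq (nat_lit 2267220549) (nat_lit 169255093969756440162468977)) (C.cons (nat_lit 54) (C.miq (nat_lit 2804222228) (nat_lit 199493734725141826400289299)) (C.cons (nat_lit 52)
  (C.node (nat_lit 5) (nat_lit 10) (nat_lit 2) (C.cons (nat_lit 1068) (C.node (nat_lit 8) (nat_lit 10) (nat_lit 2) C.nil) (C.cons (nat_lit 1316) (C.miq (nat_lit 891553959) (nat_lit 62866965055407714982954881)) C.nil))) C.nil))))) C.nil))))) C.nil))) C.nil))) C.nil))) C.nil)) C.nil))) (C.cons (nat_lit 134) (C.node (nat_lit 2) (nat_lit 7) (nat_lit 9) (C.cons (nat_lit 644) (C.node (nat_lit 1) (nat_lit 7) (nat_lit 10) (C.cons (nat_lit 1186) (C.node (nat_lit 1) (nat_lit 3) (nat_lit 7) (C.cons (nat_lit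 650) (C.miq (nat_lit 325417226) (nat_lit 125750163261354118369838977)) (C.cons (nat_lit 138) (C.node (nat_lit 1) (nat_lit 7) (nat_lit 9) (C.cons (nat_lit 642) (C.node (nat_lit 1) (nat_lit 4) (nat_lit 7) (C.cons (nat_lit 402) (C.miq (nat_lit 2458125937) (nat_lit 334882247420146123799658691)) (C.cons (nat_lit 146) (C.node (nat_lit 1) (nat_lit 7) (nat_lit 8) (C.cons (nat_lit 386) (C.node (nat_lit 1) (nat_lit 3) (nat_lit 6) C.nil) C.nil)) C.nil))) C.nil)) C.nil))) (C.cons (nat_lit 1154) (C.node (nat_lit 5) (nat_lit 7) (nat_lit 10) (C.cons (nat_lit 1184) (C.node (nat_lit 2) (nat_lit 4) (nat_lit 9) (C.cons (nat_lit 564) (C.node (nat_lit 2) (nat_lit 9) (nat_lit 10) (C.cons (nat_lit 1540) (C.node (nat_lit 4) (nat_lit 7) (nat_lit 9) (C.cons (nat_lit 656) (C.node (nat_lit 1) (nat_lit 4) (nat_lit 7) (C.cons (nat_lit 434) (C.miq (nat_lit 628528144) (nat_lit 270810248884690100953481747)) (C.cons (nat_lit 402) (C.miq (nat_lit 2458125937)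 (nat_lit 334882247420146123799658691)) (C.cons (nat_lit 178) (C.miq (nat_lit 628528144) (nat_lit 270810248884689001441853971)) (C.cons (nat_lit 146) (C.node (nat_lit 1) (nat_lit 2) (nat_lit 4) (C.cons (nat_lit 30) (C.node (nat_lit 3) (nat_lit 4) (nat_lit 5) (C.cons (nat_lit 56) (C.node (nat_lit 1) (nat_lit 2) (nat_lit 9) (C.cons (nat_lit 774) (C.miq (nat_lit 2168951344) (nat_lit 176538606076963216388850253)) (C.cons (nat_lit 518) (C.node (nat_lit 2) (nat_lit 8) (nat_lit 9) C.nil) C.nil))) C.nil)) (C.cons (nat_lit 22) (C.node (nat_lit 1) (nat_lit 7) (nat_lit 8) C.nil) C.nil))) C.nil))))) C.nil)) C.nil)) (C.cons (nat_lit 532) (C.node (nat_lit 2) (nat_lit 9) (nat_lit 10) (C.cons (nat_lit 1572) (C.node (nat_lit 1) (nat_lit 2) (nat_lit 9) (C.cons (nat_lit 774) (C.node (nat_lit 2) (nat_lit 5) (nat_lit 8) (C.cons (nat_lit 292) (C.node (nat_lit 1) (nat_lit 2) (nat_lit 4) (C.cons (nat_lit 62) (C.miq (nat_lit 2453120320) (nat_lit 169285051383892610194670705))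 (C.cons (nat_lit 54) (C.miq (nat_lit 2186973504) (nat_lit 1900466824847424522663559699)) (C.cons (nat_lit 30) (C.miq (nat_lit 2184679744) (nat_lit 169285051159275441340613139)) C.nil)))) C.nil)) (C.cons (nat_lit 518) (C.node (nat_lit 2) (nat_lit 8) (nat_lit 9) (C.cons (nat_lit 772) (C.node (nat_lit 2) (nat_lit 3) (nat_lit 10) (C.cons (nat_lit 1036) (C.node (nat_lit 2) (nat_lit 8) (nat_lit 10) C.nil) C.nil)) C.nil)) C.nil))) (C.cons (nat_lit 1540) (C.node (nat_lit 4) (nat_lit 7) (nat_lit 9) (C.cons (nat_lit 688) (C.node (nat_lit 1) (nat_lit 4) (nat_lit 7) (C.cons (nat_lit 402) (C.miq (nat_lit 2458125937) (nat_lit 334882247420146123799658691)) C.nil)) (C.cons (nat_lit 656) (C.node (nat_lit 1) (nat_lit 7) (nat_lit 8) (C.cons (nat_lit 386) (C.node (nat_lit 1) (nat_lit 7) (nat_lit 4) C.nil) C.nil)) C.nil))) C.nil))) C.nil))) C.nil)) C.nil))) C.nil)) C.nil))) C.nil))) (C.cons (nat_lit 1156) (C.node (nat_lit 4) (nat_lit 7) (nat_lit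 10) (C.cons (nat_lit 1170) (C.miq (nat_lit 443107120) (nat_lit 1934291106933840799131828377)) (C.cons (nat_lit 1168) (C.node (nat_lit 1) (nat_lit 7) (nat_lit 10) (C.cons (nat_lit 1186) (C.node (nat_lit 1) (nat_lit 3) (nat_lit 7) (C.cons (nat_lit 650) (C.miq (nat_lit 325417226) (nat_lit 125750163261354118369838977)) (C.cons (nat_lit 138) (C.node (nat_lit 1) (nat_lit 7) (nat_lit 8) (C.cons (nat_lit 402) (C.miq (nat_lit 2458125937) (nat_lit 334882247420146123799658691)) (C.cons (nat_lit 386) (C.node (nat_lit 1) (nat_lit 7) (nat_lit 9) (C.cons (nat_lit 646) (C.miq (nat_lit 1361487760) (nat_lit 84645781654867946955933569)) (C.cons (nat_lit 642)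
  (C.node (nat_lit 4) (nat_lit 7) (nat_lit 8) (C.cons (nat_lit 432) (C.miq (nat_lit 394437952) (nat_lit 546453489392783559337772145)) (C.cons (nat_lit 400) (C.node (nat_lit 5) (nat_lit 7) (nat_lit 8) (C.cons (nat_lit 416) (C.node (nat_lit 1) (nat_lit 2) (nat_lit 7) (C.cons (nat_lit 150) (C.node (nat_lit 2) (nat_lit 7) (nat_lit 9) C.nil) C.nil)) C.nil)) C.nil))) C.nil))) C.nil))) C.nil))) (C.cons (nat_lit 1154) (C.node (nat_lit 5) (nat_lit 7) (nat_lit 10) (C.cons (nat_lit 1184) (C.node (nat_lit 4) (nat_lit 9) (nat_lit 10) (C.cons (nat_lit 1560) (C.miq (nat_lit 1248957280) (nat_lit 1395110191495491428104208973)) (C.cons (nat_lit 1556) (C.node (nat_lit 2) (nat_lit 7) (nat_lit 9) (C.cons (nat_lit 646) (C.miq (nat_lit 1108781424) (nat_lit 84645781759013688313055105)) (C.cons (nat_lit 644) (C.node (nat_lit 1) (nat_lit 2) (nat_lit 7) (C.cons (nat_lit 150) (C.node (nat_lit 2) (nat_lit 3) (nat_lit 4) (C.cons (nat_lit 60) (C.miq (nat_lit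 2300774981) (nat_lit 712062786976726588872983665)) (C.cons (nat_lit 28) (C.node (nat_lit 2) (nat_lit 4) (nat_lit 5) (C.cons (nat_lit 52) (C.node (nat_lit 1) (nat_lit 7) (nat_lit 8) (C.cons (nat_lit 386) (C.node (nat_lit 4) (nat_lit 7) (nat_lit 8) C.nil) C.nil)) C.nil)) C.nil))) (C.cons (nat_lit 134) (C.node (nat_lit 2) (nat_lit 4) (nat_lit 7) (C.cons (nat_lit 148) (C.node (nat_lit 4) (nat_lit 7) (nat_lit 9) C.nil) C.nil)) C.nil))) C.nil))) (C.cons (nat_lit 1552) (C.node (nat_lit 2) (nat_lit 4) (nat_lit 10) (C.cons (nat_lit 1052) (C.node (nat_lit 1) (nat_lit 3) (nat_lit 6) (C.cons (nat_lit 74) (C.node (nat_lit 1) (nat_lit 4) (nat_lit 6) C.nil) C.nil)) (C.cons (nat_lit 1044) (C.node (nat_lit 2) (nat_lit 9) (nat_lit 10) (C.cons (nat_lit 1572) (C.node (nat_lit 1) (nat_lit 3) (nat_lit 6) (C.cons (nat_lit 74) (C.node (nat_lit 1) (nat_lit 4) (nat_lit 6) C.nil) C.nil)) (C.cons (nat_lit 1540) (C.node (nat_lit 1) (nat_lit 3) (nat_lit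 6) (C.cons (nat_lit 74) (C.node (nat_lit 1) (nat_lit 4) (nat_lit 6) C.nil) C.nil)) C.nil))) C.nil))) C.nil)))) C.nil)) C.nil))) C.nil))) C.nil))) C.nil))) C.nil)) C.nil))) (C.cons (nat_lit 200) (C.node (nat_lit 6) (nat_lit 7) (nat_lit 10) (C.cons (nat_lit 1216) (C.node (nat_lit 1) (nat_lit 7) (nat_lit 8) (C.cons (nat_lit 434) (C.miq (nat_lit 2458125937) (nat_lit 334882247420146123801755843)) (C.cons (nat_lit 418) (C.node (nat_lit 4) (nat_lit 7) (nat_lit 8) (C.cons (nat_lit 400) (C.node (nat_lit 1) (nat_lit 5) (nat_lit 6) (C.cons (nat_lit 610) (C.node (nat_lit 5) (nat_lit 6) (nat_lit 8) (C.cons (nat_lit 352) (C.node (nat_lit 6) (nat_lit 8) (nat_lit 9) (C.cons (nat_lit 832) (C.node (nat_lit 2) (nat_lit 8) (nat_lit 9) (C.cons (nat_lit 804) (C.miq (nat_lit 622237808) (nat_lit 737455615323490888081147777)) (C.cons (nat_lit 774) (C.miq (nat_lit 1159202450) (nat_lit 505336102667063081073771085)) (C.cons (nat_lit 772) (C.node (nat_lit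 1) (nat_lit 2) (nat_lit 8) (C.cons (nat_lit 270) (C.node (nat_lit 1) (nat_lit 8) (nat_lit 9) (C.cons (nat_lit 770) (C.node (nat_lit 1) (nat_lit 2) (nat_lit 9) (C.cons (nat_lit 646) (C.miq (nat_lit 1394704535) (nat_lit 326417682118573285624383361)) (C.cons (nat_lit 518) (C.node (nat_lit 1) (nat_lit 5) (nat_lit 10) (C.cons (nat_lit 1066) (C.miq (nat_lit 1161300498) (nat_lit 359056078493694909406381063)) (C.cons (nat_lit 1058) (C.node (nat_lit 1) (nat_lit 7) (nat_lit 9) (C.cons (nat_lit 650) (C.miq (nat_lit 1159136915) (nat_lit 505333815270797941081244237)) (C.cons (nat_lit 642) (C.node (nat_lit 1) (nat_lit 2) (nat_lit 7) (C.cons (nat_lit 150) (C.node (nat_lit 1) (nat_lit 2) (nat_lit 5) (C.cons (nat_lit 38) (C.node (nat_lit 2) (nat_lit 7) (nat_lit 9) C.nil) C.nil)) C.nil)) C.nil))) C.nil))) C.nil))) C.nil)) (C.cons (nat_lit 262) (C.node (nat_lit 1) (nat_lit 2) (nat_lit 9) (C.cons (nat_lit 646) (C.node (nat_lit 1) (nat_lit 4) (nat_lit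 7) (C.cons (nat_lit 1170) (C.miq (nat_lit 1093052304) (nat_lit 84645781650364347328563073)) (C.cons (nat_lit 146) (C.node (nat_lit 1) (nat_lit 5) (nat_lit 10) (C.cons (nat_lit 1066)
  (C.miq (nat_lit 559126400) (nat_lit 1288725789023288745433565057)) (C.cons (nat_lit 1058) (C.node (nat_lit 1) (nat_lit 8) (nat_lit 9) (C.cons (nat_lit 778) (C.node (nat_lit 1) (nat_lit 9) (nat_lit 10) (C.cons (nat_lit 1538) (C.node (nat_lit 1) (nat_lit 3) (nat_lit 7) (C.cons (nat_lit 1162) (C.node (nat_lit 2) (nat_lit 3) (nat_lit 7) C.nil) C.nil)) C.nil)) (C.cons (nat_lit 770) (C.miq (nat_lit 941163890) (nat_lit 930883746319123742871388325)) C.nil))) C.nil))) C.nil))) (C.cons (nat_lit 518) (C.node (nat_lit 1) (nat_lit 7) (nat_lit 9) (C.cons (nat_lit 650) (C.miq (nat_lit 1159136915) (nat_lit 505333815270797941081244237)) (C.cons (nat_lit 642) (C.node (nat_lit 1) (nat_lit 8) (nat_lit 9) (C.cons (nat_lit 778) (C.miq (nat_lit 1905416240) (nat_lit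 626226618390809956362027305)) (C.cons (nat_lit 770) (C.node (nat_lit 1) (nat_lit 3) (nat_lit 9) (C.cons (nat_lit 1546) (C.node (nat_lit 1) (nat_lit 5) (nat_lit 10) (C.cons (nat_lit 1058) (C.node (nat_lit 1) (nat_lit 6) (nat_lit 10) C.nil) C.nil)) (C.cons (nat_lit 522) (C.node (nat_lit 3) (nat_lit 8) (nat_lit 9) C.nil) C.nil))) C.nil))) C.nil))) C.nil))) C.nil))) C.nil)))) C.nil)) C.nil)) (C.cons (nat_lit 98) (C.node (nat_lit 1) (nat_lit 6) (nat_lit 9) (C.cons (nat_lit 834) (C.miq (nat_lit 638912903) (nat_lit 118477774200798164509919105)) (C.cons (nat_lit 578) (C.node (nat_lit 4) (nat_lit 5) (nat_lit 7) (C.cons (nat_lit 688) (C.node (nat_lit 4) (nat_lit 5) (nat_lit 8) (C.cons (nat_lit 304) (C.node (nat_lit 2) (nat_lit 7) (nat_lit 9) (C.cons (nat_lit 646) (C.miq (nat_lit 2775712913) (nat_lit 199491779149593811874087443)) (C.cons (nat_lit 644) (C.node (nat_lit 1) (nat_lit 7) (nat_lit 9) (C.cons (nat_lit 650) (C.node (nat_lit 1)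 (nat_lit 7) (nat_lit 10) (C.cons (nat_lit 1170) (C.miq (nat_lit 933663040) (nat_lit 1470064661966612251416789523)) (C.cons (nat_lit 1154) (C.node (nat_lit 3) (nat_lit 5) (nat_lit 7) (C.cons (nat_lit 1192) (C.miq (nat_lit 329291604) (nat_lit 1248830167065978931780846256)) C.nil)) C.nil))) (C.cons (nat_lit 642) (C.node (nat_lit 3) (nat_lit 7) (nat_lit 9) (C.cons (nat_lit 648) (C.node (nat_lit 3) (nat_lit 5) (nat_lit 7) (C.cons (nat_lit 168) (C.node (nat_lit 5) (nat_lit 7) (nat_lit 10) C.nil) C.nil)) C.nil)) C.nil))) C.nil))) C.nil)) (C.cons (nat_lit 176) (C.node (nat_lit 4) (nat_lit 5) (nat_lit 8) (C.cons (nat_lit 816) (C.node (nat_lit 5) (nat_lit 6) (nat_lit 8) (C.cons (nat_lit 352) (C.node (nat_lit 5) (nat_lit 6) (nat_lit 9) (C.cons (nat_lit 608) (C.node (nat_lit 6) (nat_lit 8) (nat_lit 9) C.nil) C.nil)) C.nil)) (C.cons (nat_lit 304) (C.node (nat_lit 4) (nat_lit 7) (nat_lit 9) (C.cons (nat_lit 660) (C.node (nat_lit 4) (nat_lit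 8) (nat_lit 9) (C.cons (nat_lit 792) (C.miq (nat_lit 2222274848) (nat_lit 212776423158095642729185869)) (C.cons (nat_lit 784) (C.node (nat_lit 3) (nat_lit 8) (nat_lit 9) (C.cons (nat_lit 778) (C.miq (nat_lit 422019845) (nat_lit 797898751903668127526093097)) (C.cons (nat_lit 776) (C.node (nat_lit 5) (nat_lit 7) (nat_lit 9) (C.cons (nat_lit 680) (C.miq (nat_lit 1464351008) (nat_lit 483575806720247380479115853)) (C.cons (nat_lit 672) (C.node (nat_lit 1) (nat_lit 2) (nat_lit 7) (C.cons (nat_lit 142) (C.node (nat_lit 1) (nat_lit 7) (nat_lit 9) C.nil) (C.cons (nat_lit 134) (C.node (nat_lit 1) (nat_lit 4) (nat_lit 7) (C.cons (nat_lit 146) (C.node (nat_lit 4) (nat_lit 7) (nat_lit 10) C.nil) C.nil)) C.nil))) C.nil))) C.nil))) C.nil))) (C.cons (nat_lit 656) (C.node (nat_lit 2) (nat_lit 7) (nat_lit 9) (C.cons (nat_lit 646) (C.node (nat_lit 1) (nat_lit 2) (nat_lit 8) (C.cons (nat_lit 270) (C.miq (nat_lit 1394704535) (nat_lit 326417682118573285624383361))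 (C.cons (nat_lit 262) (C.node (nat_lit 1) (nat_lit 4) (nat_lit 7) (C.cons (nat_lit 1170) (C.miq (nat_lit 1093052304) (nat_lit 84645781650364347328563073)) (C.cons (nat_lit 146) (C.node (nat_lit 1) (nat_lit 3) (nat_lit 7) (C.cons (nat_lit 138) (C.node (nat_lit 1) (nat_lit 7) (nat_lit 10) C.nil) C.nil)) C.nil))) C.nil))) (C.cons (nat_lit 644) (C.node (nat_lit 1) (nat_lit 7) (nat_lit 9)
  (C.cons (nat_lit 650) (C.node (nat_lit 5) (nat_lit 7) (nat_lit 9) (C.cons (nat_lit 672) (C.node (nat_lit 1) (nat_lit 2) (nat_lit 7) C.nil) C.nil)) (C.cons (nat_lit 642) (C.node (nat_lit 3) (nat_lit 7) (nat_lit 9) (C.cons (nat_lit 680) (C.node (nat_lit 5) (nat_lit 7) (nat_lit 10) C.nil) (C.cons (nat_lit 648) (C.node (nat_lit 5) (nat_lit 7) (nat_lit 9) C.nil) C.nil))) C.nil))) C.nil))) C.nil))) C.nil))) C.nil))) C.nil))) C.nil))) C.nil)) (C.cons (nat_lit 402) (C.miq (nat_lit 2458125937) (nat_lit 334882247420146123799658691)) (C.cons (nat_lit 386)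 (C.node (nat_lit 4) (nat_lit 7) (nat_lit 8) (C.cons (nat_lit 432) (C.node (nat_lit 4) (nat_lit 7) (nat_lit 9) (C.cons (nat_lit 660) (C.node (nat_lit 2) (nat_lit 4) (nat_lit 10) (C.cons (nat_lit 1052) (C.miq (nat_lit 1394901143) (nat_lit 1271797931311630332179253121)) (C.cons (nat_lit 1044) (C.node (nat_lit 4) (nat_lit 5) (nat_lit 9) (C.cons (nat_lit 568) (C.miq (nat_lit 609458048) (nat_lit 686680730859144126233380737)) (C.cons (nat_lit 560) (C.node (nat_lit 4) (nat_lit 8) (nat_lit 9) (C.cons (nat_lit 792) (C.node (nat_lit 4) (nat_lit 9) (nat_lit 10) (C.cons (nat_lit 1552) (C.node (nat_lit 2) (nat_lit 9) (nat_lit 10) (C.cons (nat_lit 1572) (C.miq (nat_lit 2300920583) (nat_lit 1900439357650567616465797273)) (C.cons (nat_lit 1540) (C.node (nat_lit 3) (nat_lit 4) (nat_lit 6) (C.cons (nat_lit 90) (C.miq (nat_lit 394551443) (nat_lit 522257614335382308475372109)) (C.cons (nat_lit 88) (C.node (nat_lit 4) (nat_lit 8) (nat_lit 10) (C.cons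 (nat_lit 1298) (C.miq (nat_lit 410166352) (nat_lit 546453489424308756722025585)) (C.cons (nat_lit 1296) (C.node (nat_lit 2) (nat_lit 5) (nat_lit 10) (C.cons (nat_lit 1316) (C.miq (nat_lit 2455253108) (nat_lit 1590960988599947841858699417)) (C.cons (nat_lit 1068) (C.miq (nat_lit 1159956233) (nat_lit 1291147385291328235198285697)) (C.cons (nat_lit 1060) (C.node (nat_lit 2) (nat_lit 8) (nat_lit 10) (C.cons (nat_lit 1292) (C.miq (nat_lit 344590642) (nat_lit 1566786880963166019299050061)) (C.cons (nat_lit 1284) (C.node (nat_lit 2) (nat_lit 3) (nat_lit 4) (C.cons (nat_lit 62) (C.miq (nat_lit 444866707) (nat_lit 1566769006208900932084171341)) (C.cons (nat_lit 60) (C.node (nat_lit 1) (nat_lit 2) (nat_lit 4) (C.cons (nat_lit 22) (C.node (nat_lit 1) (nat_lit 4) (nat_lit 5) C.nil) C.nil)) (C.cons (nat_lit 30) (C.miq (nat_lit 1379168408) (nat_lit 36275743628324618712385409)) (C.cons (nat_lit 28) (C.miq (nat_lit 1379168408) (nat_lit 33857891989095360362973057))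 C.nil))))) C.nil))) C.nil)))) C.nil))) C.nil))) C.nil))) C.nil)) (C.cons (nat_lit 784) (C.miq (nat_lit 944309618) (nat_lit 947808707793728611447734437)) C.nil))) C.nil))) C.nil))) (C.cons (nat_lit 656) (C.node (nat_lit 4) (nat_lit 8) (nat_lit 9) (C.cons (nat_lit 792) (C.miq (nat_lit 659096963) (nat_lit 793066202845901380168188201)) (C.cons (nat_lit 784) (C.node (nat_lit 2) (nat_lit 7) (nat_lit 9) (C.cons (nat_lit 646) (C.node (nat_lit 1) (nat_lit 4) (nat_lit 7) (C.cons (nat_lit 1170) (C.miq (nat_lit 1093052304) (nat_lit 84645781650364347328563073)) (C.cons (nat_lit 146) (C.node (nat_lit 2) (nat_lit 8) (nat_lit 9) (C.cons (nat_lit 804) (C.miq (nat_lit 881395538) (nat_lit 947808707753196214810837157)) (C.cons (nat_lit 772) (C.node (nat_lit 3) (nat_lit 7) (nat_lit 9) (C.cons (nat_lit 680) (C.miq (nat_lit 1495823108) (nat_lit 933298701927339079316603033)) (C.cons (nat_lit 648) (C.node (nat_lit 5) (nat_lit 7) (nat_lit 9) (C.cons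 (nat_lit 672) (C.node (nat_lit 3) (nat_lit 8) (nat_lit 9) (C.cons (nat_lit 778) (C.miq (nat_lit 1477903250) (nat_lit 466648410167620433122558541)) (C.cons (nat_lit 776) (C.node (nat_lit 2) (nat_lit 4) (nat_lit 9) (C.cons (nat_lit 1556) (C.miq (nat_lit 1108781424) (nat_lit 84645781759013688313055105)) (C.cons (nat_lit 564) (C.miq (nat_lit 1383483664) (nat_lit 546455444572578856153842195)) (C.cons (nat_lit 532) (C.node (nat_lit 2) (nat_lit 5) (nat_lit 9) (C.cons (nat_lit 1572) (C.miq (nat_lit 1377216880) (nat_lit 84645781763517287940425601)) (C.cons (nat_lit 548)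
  (C.node (nat_lit 2) (nat_lit 9) (nat_lit 10) C.nil) C.nil))) C.nil)))) C.nil))) C.nil)) C.nil))) C.nil))) C.nil))) (C.cons (nat_lit 644) (C.node (nat_lit 3) (nat_lit 8) (nat_lit 9) (C.cons (nat_lit 778) (C.node (nat_lit 2) (nat_lit 8) (nat_lit 9) (C.cons (nat_lit 804) (C.miq (nat_lit 1217623328) (nat_lit 940547110133625418614112421)) (C.cons (nat_lit 772) (C.node (nat_lit 3) (nat_lit 7) (nat_lit 9) (C.cons (nat_lit 680) (C.miq (nat_lit 1495823108) (nat_lit 933298701927339079316603033)) (C.cons (nat_lit 648) (C.node (nat_lit 5) (nat_lit 8) (nat_lit 9) (C.cons (nat_lit 864) (C.miq (nat_lit 911477127) (nat_lit 1374551479419469121364952961)) (C.cons (nat_lit 800) (C.node (nat_lit 6) (nat_lit 8) (nat_lit 9) (C.cons (nat_lit 832) (C.node (nat_lit 1) (nat_lit 2) (nat_lit 8) (C.cons (nat_lit 294) (C.node (nat_lit 1) (nat_lit 2) (nat_lit 9) (C.cons (nat_lit 518) (C.node (nat_lit 5) (nat_lit 6) (nat_lit 8) C.nil) C.nil)) (C.cons (nat_lit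 262) (C.node (nat_lit 1) (nat_lit 6) (nat_lit 9) (C.cons (nat_lit 610) (C.node (nat_lit 5) (nat_lit 6) (nat_lit 8) C.nil) C.nil)) C.nil))) C.nil)) C.nil))) C.nil))) C.nil))) (C.cons (nat_lit 776) (C.node (nat_lit 4) (nat_lit 8) (nat_lit 10) (C.cons (nat_lit 1306) (C.miq (nat_lit 410166352) (nat_lit 546453489426560556535710833)) (C.cons (nat_lit 1304) (C.node (nat_lit 2) (nat_lit 8) (nat_lit 10) (C.cons (nat_lit 1316) (C.miq (nat_lit 674716224) (nat_lit 473901965372133468559443057)) (C.cons (nat_lit 1284) (C.node (nat_lit 3) (nat_lit 4) (nat_lit 6) (C.cons (nat_lit 90) (C.miq (nat_lit 394485924) (nat_lit 473900581550797141520680049)) (C.cons (nat_lit 88) (C.node (nat_lit 6) (nat_lit 8) (nat_lit 10) (C.cons (nat_lit 1346) (C.miq (nat_lit 406284864) (nat_lit 473902518782899929147311217)) (C.cons (nat_lit 1344) (C.node (nat_lit 3) (nat_lit 6) (nat_lit 8) (C.cons (nat_lit 330) (C.node (nat_lit 1) (nat_lit 4) (nat_lit 6) C.nil) C.nil))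 C.nil))) C.nil))) C.nil))) (C.cons (nat_lit 1298) (C.miq (nat_lit 410166352) (nat_lit 546453489424308756722025585)) (C.cons (nat_lit 1296) (C.node (nat_lit 1) (nat_lit 4) (nat_lit 5) (C.cons (nat_lit 62) (C.miq (nat_lit 964960373) (nat_lit 947798986441798854904905893)) (C.cons (nat_lit 58) (C.node (nat_lit 1) (nat_lit 4) (nat_lit 10) (C.cons (nat_lit 1170) (C.miq (nat_lit 946950308) (nat_lit 466646436366009455382496369)) (C.cons (nat_lit 1042) (C.node (nat_lit 3) (nat_lit 4) (nat_lit 6) (C.cons (nat_lit 344) (C.miq (nat_lit 947020880) (nat_lit 546445335694901049318245489)) (C.cons (nat_lit 88) (C.node (nat_lit 3) (nat_lit 4) (nat_lit 8) (C.cons (nat_lit 280) (C.node (nat_lit 5) (nat_lit 8) (nat_lit 9) (C.cons (nat_lit 866) (C.miq (nat_lit 1698928752) (nat_lit 70128562913667092326188929)) (C.cons (nat_lit 864) (C.miq (nat_lit 1698928752) (nat_lit 70128562913104142372767617)) (C.cons (nat_lit 806) (C.miq (nat_lit 625186928) (nat_lit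 70128562896778593723549569)) (C.cons (nat_lit 804) (C.miq (nat_lit 625186928) (nat_lit 70128562896215643770128257)) (C.cons (nat_lit 802) (C.miq (nat_lit 2018707732) (nat_lit 359053791318105017277874707)) (C.cons (nat_lit 800) (C.node (nat_lit 4) (nat_lit 6) (nat_lit 8) (C.cons (nat_lit 338) (C.node (nat_lit 5) (nat_lit 6) (nat_lit 8) C.nil) C.nil)) C.nil))))))) C.nil)) C.nil))) C.nil))) (C.cons (nat_lit 54) (C.miq (nat_lit 444866677) (nat_lit 1566768858634948342384165029)) (C.cons (nat_lit 50) (C.node (nat_lit 2) (nat_lit 4) (nat_lit 5) (C.cons (nat_lit 564) (C.node (nat_lit 2) (nat_lit 9) (nat_lit 10) (C.cons (nat_lit 1540) (C.node (nat_lit 3) (nat_lit 4) (nat_lit 5) (C.cons (nat_lit 56) (C.node (nat_lit 1) (nat_lit 2) (nat_lit 9) (C.cons (nat_lit 774) (C.node (nat_lit 1) (nat_lit 6) (nat_lit 9) (C.cons (nat_lit 610) (C.miq (nat_lit 2219909225) (nat_lit 60460568838617961894904397)) (C.cons (nat_lit 578) (C.node (nat_lit 2)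 (nat_lit 5) (nat_lit 8) (C.cons (nat_lit 1316) (C.miq (nat_lit 340955304) (nat_lit 681848440192032001824655233)) (C.cons (nat_lit 292) (C.node (nat_lit 6) (nat_lit 8) (nat_lit 9) (C.cons (nat_lit 864)
  (C.miq (nat_lit 1698928752) (nat_lit 67710711273874884023355265)) C.nil)) C.nil))) C.nil))) (C.cons (nat_lit 518) (C.node (nat_lit 2) (nat_lit 8) (nat_lit 9) (C.cons (nat_lit 772) (C.node (nat_lit 3) (nat_lit 4) (nat_lit 9) (C.cons (nat_lit 1560) (C.node (nat_lit 2) (nat_lit 3) (nat_lit 4) (C.cons (nat_lit 30) (C.node (nat_lit 1) (nat_lit 4) (nat_lit 6) C.nil) C.nil)) (C.cons (nat_lit 536) (C.node (nat_lit 4) (nat_lit 9) (nat_lit 10) C.nil) C.nil))) C.nil)) C.nil))) C.nil)) C.nil)) (C.cons (nat_lit 60) (C.miq (nat_lit 964960373) (nat_lit 947798949548310707485802661)) (C.cons (nat_lit 52) (C.node (nat_lit 2) (nat_lit 4) (nat_lit 9) (C.cons (nat_lit 1556) (C.node (nat_lit 4) (nat_lit 7) (nat_lit 10) (C.cons (nat_lit 1170) (C.miq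 (nat_lit 371486874) (nat_lit 101571351593085241147000705)) (C.cons (nat_lit 1168) (C.node (nat_lit 1) (nat_lit 4) (nat_lit 7) (C.cons (nat_lit 150) (C.node (nat_lit 2) (nat_lit 3) (nat_lit 4) (C.cons (nat_lit 28) (C.node (nat_lit 1) (nat_lit 4) (nat_lit 10) (C.cons (nat_lit 1042) (C.node (nat_lit 3) (nat_lit 4) (nat_lit 10) C.nil) C.nil)) C.nil)) (C.cons (nat_lit 146) (C.node (nat_lit 2) (nat_lit 4) (nat_lit 7) (C.cons (nat_lit 148) (C.node (nat_lit 1) (nat_lit 2) (nat_lit 7) C.nil) C.nil)) C.nil))) C.nil))) (C.cons (nat_lit 532) (C.node (nat_lit 2) (nat_lit 9) (nat_lit 10) (C.cons (nat_lit 1572) (C.node (nat_lit 4) (nat_lit 9) (nat_lit 10) (C.cons (nat_lit 1560) (C.miq (nat_lit 1922237860) (nat_lit 712060130151309984411419761)) (C.cons (nat_lit 1552) (C.node (nat_lit 1) (nat_lit 2) (nat_lit 9) (C.cons (nat_lit 774) (C.node (nat_lit 3) (nat_lit 7) (nat_lit 9) (C.cons (nat_lit 682) (C.miq (nat_lit 893556608) (nat_lit 62875007944187921571317633))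 (C.cons (nat_lit 680) (C.miq (nat_lit 893556608) (nat_lit 62875007943624971617896321)) (C.cons (nat_lit 650) (C.miq (nat_lit 1192756114) (nat_lit 466650476162423742198579789)) C.nil)))) (C.cons (nat_lit 518) (C.node (nat_lit 2) (nat_lit 8) (nat_lit 9) C.nil) C.nil))) C.nil))) (C.cons (nat_lit 1540) (C.node (nat_lit 3) (nat_lit 4) (nat_lit 5) (C.cons (nat_lit 568) (C.node (nat_lit 4) (nat_lit 9) (nat_lit 10) (C.cons (nat_lit 1552) (C.node (nat_lit 3) (nat_lit 7) (nat_lit 9) (C.cons (nat_lit 650) (C.miq (nat_lit 1400260880) (nat_lit 241806138030818221214597651)) C.nil)) C.nil)) (C.cons (nat_lit 56) (C.node (nat_lit 4) (nat_lit 5) (nat_lit 9) (C.cons (nat_lit 560) (C.node (nat_lit 3) (nat_lit 4) (nat_lit 9) (C.cons (nat_lit 1560) (C.node (nat_lit 1) (nat_lit 4) (nat_lit 10) (C.cons (nat_lit 1170) (C.miq (nat_lit 980849680) (nat_lit 1470064662222754480161751571)) (C.cons (nat_lit 1042) (C.node (nat_lit 1) (nat_lit 4) (nat_lit 7)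 C.nil) C.nil))) C.nil)) C.nil)) C.nil))) C.nil))) C.nil))) C.nil)))) C.nil))))) C.nil))))) C.nil))) C.nil))) C.nil))) C.nil))) (C.cons (nat_lit 400) (C.node (nat_lit 5) (nat_lit 7) (nat_lit 8) (C.cons (nat_lit 416) (C.node (nat_lit 2) (nat_lit 3) (nat_lit 7) (C.cons (nat_lit 1164) (C.node (nat_lit 4) (nat_lit 7) (nat_lit 10) (C.cons (nat_lit 1170) (C.miq (nat_lit 2473853601) (nat_lit 184975445787935164203140103)) (C.cons (nat_lit 1168) (C.node (nat_lit 1) (nat_lit 7) (nat_lit 10) (C.cons (nat_lit 1186) (C.node (nat_lit 1) (nat_lit 3) (nat_lit 7) (C.cons (nat_lit 650) (C.miq (nat_lit 325417226) (nat_lit 125750163261354118369838977)) (C.cons (nat_lit 138) (C.node (nat_lit 1) (nat_lit 7) (nat_lit 9) (C.cons (nat_lit 646) (C.miq (nat_lit 1361487760) (nat_lit 84645781654867946955933569)) (C.cons (nat_lit 642) (C.node (nat_lit 3) (nat_lit 5) (nat_lit 7) (C.cons (nat_lit 680) (C.miq (nat_lit 361801522) (nat_lit 658883590616945137757783180))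 C.nil)) C.nil))) C.nil))) (C.cons (nat_lit 1154) (C.node (nat_lit 5) (nat_lit 7) (nat_lit 10) (C.cons (nat_lit 1184) (C.node (nat_lit 2) (nat_lit 3) (nat_lit 8) (C.cons (nat_lit 270) (C.node (nat_lit 2) (nat_lit 3) (nat_lit 4) (C.cons (nat_lit 60) (C.node (nat_lit 2) (nat_lit 4) (nat_lit 10) (C.cons (nat_lit 1556) (C.miq (nat_lit 2453185616) (nat_lit 326445407929290794698605681)) (C.cons (nat_lit 1044)
  (C.node (nat_lit 2) (nat_lit 4) (nat_lit 9) (C.cons (nat_lit 660) (C.miq (nat_lit 1484009618) (nat_lit 483571434734102411214062157)) (C.cons (nat_lit 532) (C.node (nat_lit 2) (nat_lit 8) (nat_lit 9) (C.cons (nat_lit 804) (C.miq (nat_lit 1199911058) (nat_lit 502914247807404081372463693)) (C.cons (nat_lit 772) (C.node (nat_lit 1) (nat_lit 2) (nat_lit 4) (C.cons (nat_lit 22) (C.node (nat_lit 2) (nat_lit 4) (nat_lit 7) C.nil) C.nil)) C.nil))) C.nil))) C.nil))) (C.cons (nat_lit 28) (C.node (nat_lit 2) (nat_lit 3) (nat_lit 5) (C.cons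 (nat_lit 44) (C.node (nat_lit 2) (nat_lit 4) (nat_lit 10) (C.cons (nat_lit 1556) (C.node (nat_lit 2) (nat_lit 7) (nat_lit 9) (C.cons (nat_lit 646) (C.miq (nat_lit 1108781424) (nat_lit 84645781759013688313055105)) (C.cons (nat_lit 644) (C.node (nat_lit 1) (nat_lit 2) (nat_lit 7) (C.cons (nat_lit 134) (C.node (nat_lit 2) (nat_lit 4) (nat_lit 7) C.nil) C.nil)) C.nil))) (C.cons (nat_lit 1044) (C.node (nat_lit 2) (nat_lit 8) (nat_lit 9) (C.cons (nat_lit 804) (C.node (nat_lit 2) (nat_lit 5) (nat_lit 10) (C.cons (nat_lit 1060) (C.node (nat_lit 2) (nat_lit 8) (nat_lit 10) C.nil) C.nil)) (C.cons (nat_lit 772) (C.node (nat_lit 2) (nat_lit 5) (nat_lit 8) (C.cons (nat_lit 1316) (C.node (nat_lit 2) (nat_lit 9) (nat_lit 10) C.nil) (C.cons (nat_lit 292) (C.node (nat_lit 1) (nat_lit 2) (nat_lit 7) C.nil) C.nil))) C.nil))) C.nil))) C.nil)) C.nil))) (C.cons (nat_lit 268) (C.node (nat_lit 2) (nat_lit 4) (nat_lit 10) (C.cons (nat_lit 1556) (C.node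 (nat_lit 2) (nat_lit 7) (nat_lit 9) (C.cons (nat_lit 646) (C.miq (nat_lit 1108781424) (nat_lit 84645781759013688313055105)) (C.cons (nat_lit 644) (C.node (nat_lit 1) (nat_lit 2) (nat_lit 7) (C.cons (nat_lit 134) (C.node (nat_lit 2) (nat_lit 4) (nat_lit 7) C.nil) C.nil)) C.nil))) (C.cons (nat_lit 1044) (C.node (nat_lit 2) (nat_lit 8) (nat_lit 10) (C.cons (nat_lit 1316) (C.node (nat_lit 2) (nat_lit 9) (nat_lit 10) (C.cons (nat_lit 1540) (C.node (nat_lit 2) (nat_lit 3) (nat_lit 4) (C.cons (nat_lit 62) (C.miq (nat_lit 2184684864) (nat_lit 1407225090597215291055866993)) (C.cons (nat_lit 60) (C.miq (nat_lit 2184684864) (nat_lit 1407225090597215282465932401)) (C.cons (nat_lit 30) (C.miq (nat_lit 2536770081) (nat_lit 184975446162859833107022855)) (C.cons (nat_lit 28) (C.node (nat_lit 1) (nat_lit 2) (nat_lit 3) (C.cons (nat_lit 46) (C.node (nat_lit 1) (nat_lit 2) (nat_lit 4) C.nil) (C.cons (nat_lit 14) (C.node (nat_lit 1) (nat_lit 2)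 (nat_lit 7) C.nil) C.nil))) C.nil))))) C.nil)) (C.cons (nat_lit 1284) (C.node (nat_lit 2) (nat_lit 5) (nat_lit 10) (C.cons (nat_lit 1572) (C.node (nat_lit 4) (nat_lit 9) (nat_lit 10) (C.cons (nat_lit 1560) (C.miq (nat_lit 1922237860) (nat_lit 712060130151309984411419761)) (C.cons (nat_lit 1552) (C.node (nat_lit 1) (nat_lit 2) (nat_lit 7) C.nil) C.nil))) (C.cons (nat_lit 1060) (C.node (nat_lit 2) (nat_lit 9) (nat_lit 10) (C.cons (nat_lit 1540) (C.node (nat_lit 4) (nat_lit 9) (nat_lit 10) C.nil) C.nil)) C.nil))) C.nil))) C.nil))) C.nil))) C.nil)) C.nil))) C.nil))) (C.cons (nat_lit 142) (C.node (nat_lit 1) (nat_lit 4) (nat_lit 7) (C.cons (nat_lit 1170) (C.miq (nat_lit 1194762528) (nat_lit 241806138200263975376847879)) (C.cons (nat_lit 178) (C.miq (nat_lit 1361463088) (nat_lit 84645781371139005768073369)) (C.cons (nat_lit 146) (C.node (nat_lit 1) (nat_lit 7) (nat_lit 10) (C.cons (nat_lit 1186) (C.miq (nat_lit 1463197984) (nat_lit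 241806138204767575004218375)) (C.cons (nat_lit 1154) (C.node (nat_lit 2) (nat_lit 3) (nat_lit 4) (C.cons (nat_lit 1052) (C.miq (nat_lit 1131848208) (nat_lit 241806138167049928099169287)) (C.cons (nat_lit 60) (C.miq (nat_lit 307655488) (nat_lit 120896179116526995298648217)) (C.cons (nat_lit 28) (C.node (nat_lit 2) (nat_lit 3) (nat_lit 5) (C.cons (nat_lit 1068) (C.miq (nat_lit 1400283664) (nat_lit 241806138171553527726539783)) (C.cons (nat_lit 44) (C.node (nat_lit 1) (nat_lit 2) (nat_lit 4) (C.cons (nat_lit 54) (C.node (nat_lit 1) (nat_lit 5) (nat_lit 7) (C.cons (nat_lit 674)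
  (C.miq (nat_lit 2270300436) (nat_lit 199477870525238556444983827)) (C.cons (nat_lit 162) (C.node (nat_lit 1) (nat_lit 7) (nat_lit 9) (C.cons (nat_lit 642) (C.node (nat_lit 2) (nat_lit 4) (nat_lit 7) C.nil) C.nil)) C.nil))) (C.cons (nat_lit 22) (C.node (nat_lit 1) (nat_lit 5) (nat_lit 7) (C.cons (nat_lit 674) (C.node (nat_lit 3) (nat_lit 7) (nat_lit 9) (C.cons (nat_lit 648) (C.node (nat_lit 4) (nat_lit 5) (nat_lit 7) C.nil) C.nil)) (C.cons (nat_lit 162) (C.node (nat_lit 1) (nat_lit 7) (nat_lit 9) (C.cons (nat_lit 642) (C.node (nat_lit 1) (nat_lit 4) (nat_lit 5) C.nil) C.nil)) C.nil))) C.nil))) C.nil))) C.nil)))) C.nil))) C.nil)))) (C.cons (nat_lit 140) (C.node (nat_lit 2) (nat_lit 7) (nat_lit 10) (C.cons (nat_lit 1172) (C.node (nat_lit 1) (nat_lit 2) (nat_lit 7) (C.cons (nat_lit 646) (C.node (nat_lit 1) (nat_lit 4) (nat_lit 7) (C.cons (nat_lit 178) (C.miq (nat_lit 659984704) (nat_lit 270810248907769949593862675)) (C.cons (nat_lit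 146) (C.node (nat_lit 2) (nat_lit 4) (nat_lit 9) (C.cons (nat_lit 564) (C.miq (nat_lit 1383483664) (nat_lit 546455444572578856153842195)) (C.cons (nat_lit 532) (C.node (nat_lit 2) (nat_lit 9) (nat_lit 10) (C.cons (nat_lit 1572) (C.miq (nat_lit 1377216880) (nat_lit 84645781763517287940425601)) (C.cons (nat_lit 1540) (C.node (nat_lit 4) (nat_lit 5) (nat_lit 7) (C.cons (nat_lit 688) (C.miq (nat_lit 1462389008) (nat_lit 1416882034730014759109198355)) (C.cons (nat_lit 176) (C.node (nat_lit 4) (nat_lit 7) (nat_lit 9) C.nil) C.nil))) C.nil))) C.nil))) C.nil))) (C.cons (nat_lit 134) (C.node (nat_lit 2) (nat_lit 7) (nat_lit 9) (C.cons (nat_lit 644) (C.node (nat_lit 1) (nat_lit 4) (nat_lit 7) (C.cons (nat_lit 178) (C.node (nat_lit 4) (nat_lit 7) (nat_lit 9) C.nil) (C.cons (nat_lit 146) (C.node (nat_lit 4) (nat_lit 5) (nat_lit 7) (C.cons (nat_lit 176) (C.node (nat_lit 4) (nat_lit 7) (nat_lit 9) C.nil) C.nil)) C.nil))) C.nil)) C.nil)))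 (C.cons (nat_lit 1156) (C.node (nat_lit 4) (nat_lit 7) (nat_lit 10) (C.cons (nat_lit 1170) (C.node (nat_lit 1) (nat_lit 2) (nat_lit 7) (C.cons (nat_lit 646) (C.miq (nat_lit 1093052304) (nat_lit 84645781650364347328563073)) (C.cons (nat_lit 134) (C.node (nat_lit 2) (nat_lit 4) (nat_lit 10) (C.cons (nat_lit 1556) (C.miq (nat_lit 371486874) (nat_lit 101571351593085241147000705)) (C.cons (nat_lit 1052) (C.miq (nat_lit 880159248) (nat_lit 251467435908218983888913415)) (C.cons (nat_lit 1044) (C.node (nat_lit 4) (nat_lit 9) (nat_lit 10) (C.cons (nat_lit 1560) (C.miq (nat_lit 980849680) (nat_lit 1470064662222754480161751571)) (C.cons (nat_lit 1552) (C.node (nat_lit 2) (nat_lit 4) (nat_lit 7) (C.cons (nat_lit 660) (C.node (nat_lit 4) (nat_lit 5) (nat_lit 7) C.nil) (C.cons (nat_lit 148) (C.node (nat_lit 2) (nat_lit 7) (nat_lit 9) C.nil) C.nil))) C.nil))) C.nil)))) C.nil))) (C.cons (nat_lit 1168) (C.node (nat_lit 1) (nat_lit 2) (nat_lit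 7) (C.cons (nat_lit 646) (C.node (nat_lit 2) (nat_lit 4) (nat_lit 7) (C.cons (nat_lit 148) (C.node (nat_lit 1) (nat_lit 4) (nat_lit 7) (C.cons (nat_lit 146) (C.node (nat_lit 3) (nat_lit 7) (nat_lit 9) C.nil) C.nil)) C.nil)) (C.cons (nat_lit 150) (C.node (nat_lit 2) (nat_lit 7) (nat_lit 9) (C.cons (nat_lit 644) (C.node (nat_lit 4) (nat_lit 5) (nat_lit 7) (C.cons (nat_lit 176) (C.node (nat_lit 4) (nat_lit 7) (nat_lit 9) C.nil) C.nil)) C.nil)) (C.cons (nat_lit 134) (C.node (nat_lit 1) (nat_lit 4) (nat_lit 7) (C.cons (nat_lit 178) (C.node (nat_lit 1) (nat_lit 7) (nat_lit 9) (C.cons (nat_lit 642) (C.node (nat_lit 1) (nat_lit 3) (nat_lit 7) C.nil) C.nil)) (C.cons (nat_lit 146) (C.node (nat_lit 2) (nat_lit 4) (nat_lit 7) (C.cons (nat_lit 660) (C.node (nat_lit 4) (nat_lit 5) (nat_lit 7) C.nil) C.nil)) C.nil))) C.nil)))) C.nil))) C.nil))) C.nil)))) C.nil)) C.nil))) C.nil))))) C.nil)) C.nil))) List.nil)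

theorem ok11_152 : okL par11 (nat_lit 153) c11_152 (nat_lit 152) = true := by decide +kernel


end Pool.Agent.MP_1f1ca1_co

end

section

set_option autoImplicit false
set_option maxRecDepth 1000000
set_option maxHeartbeats 0

namespace Pool.Agent.MP_1f1ca1_co

noncomputable def c11_162 : List C :=
  (List.cons (C.node (nat_lit 2) (nat_lit 9) (nat_lit 10) (C.cons (nat_lit 1572) (C.node (nat_lit 4) (nat_lit 9) (nat_lit 10) (C.cons (nat_lit 1560) (C.miq (nat_lit 1922237860) (nat_lit 712060130151309984411419761)) (C.cons (nat_lit 1552) (C.node (nat_lit 6) (nat_lit 7) (nat_lit 9) (C.cons (nat_lit 736) (C.miq (nat_lit 311888470) (nat_lit 797894638350957081394152561)) (C.cons (nat_lit 704) (C.node (nat_lit 1) (nat_lit 2) (nat_lit 9) (C.cons (nat_lit 774) (C.node (nat_lit 1) (nat_lit 2) (nat_lit 6) (C.cons (nat_lit 102) (C.miq (nat_lit 2032208470) (nat_lit 935712182037537536541590641)) (C.cons (nat_lit 70) (C.node (nat_lit 2) (nat_lit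 7) (nat_lit 8) (C.cons (nat_lit 396) (C.miq (nat_lit 272143474) (nat_lit 359065246354921785869992596)) (C.cons (nat_lit 388) (C.node (nat_lit 3) (nat_lit 8) (nat_lit 9) (C.cons (nat_lit 792) (C.miq (nat_lit 1385695043) (nat_lit 935714063111159078846988441)) (C.cons (nat_lit 776) (C.node (nat_lit 4) (nat_lit 6) (nat_lit 9) (C.cons (nat_lit 848) (C.miq (nat_lit 2191954180) (nat_lit 1320162638076015624638759443)) (C.cons (nat_lit 592) (C.node (nat_lit 4) (nat_lit 8) (nat_lit 9) (C.cons (nat_lit 816) (C.miq (nat_lit 2191888644) (nat_lit 1900446441195227269792072211)) (C.cons (nat_lit 784) (C.node (nat_lit 5) (nat_lit 8) (nat_lit 9) (C.cons (nat_lit 864) (C.miq (nat_lit 275262041) (nat_lit 388079466166414600696759844)) (C.cons (nat_lit 800) (C.node (nat_lit 6) (nat_lit 8) (nat_lit 9) (C.cons (nat_lit 832) (C.node (nat_lit 5) (nat_lit 8) (nat_lit 10) (C.cons (nat_lit 1314) (C.miq (nat_lit 1361488016) (nat_lit 84645781690897293730711425))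 (C.cons (nat_lit 1312) (C.node (nat_lit 1) (nat_lit 2) (nat_lit 4) (C.cons (nat_lit 62) (C.miq (nat_lit 2032339540) (nat_lit 712060130645580043417158769)) (C.cons (nat_lit 54) (C.miq (nat_lit 2186973504) (nat_lit 1900466824847424522663559699)) (C.cons (nat_lit 30) (C.miq (nat_lit 931283089) (nat_lit 469063771455872253192176147)) (C.cons (nat_lit 22) (C.node (nat_lit 2) (nat_lit 3) (nat_lit 4) (C.cons (nat_lit 60) (C.miq (nat_lit 2032339540) (nat_lit 712060130645580043417027697)) (C.cons (nat_lit 28) (C.node (nat_lit 2) (nat_lit 4) (nat_lit 5) (C.cons (nat_lit 52) (C.node (nat_lit 3) (nat_lit 7) (nat_lit 9) (C.cons (nat_lit 682) (C.miq (nat_lit 874606729) (nat_lit 26608948754046972951136129)) (C.cons (nat_lit 680) (C.miq (nat_lit 961042208) (nat_lit 947803321452264983566287013)) (C.cons (nat_lit 650) (C.miq (nat_lit 874606729) (nat_lit 26608358458236614245484417)) (C.cons (nat_lit 648) (C.node (nat_lit 1) (nat_lit 2) (nat_lit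 5) (C.cons (nat_lit 46) (C.node (nat_lit 1) (nat_lit 2) (nat_lit 7) (C.cons (nat_lit 134) (C.node (nat_lit 2) (nat_lit 3) (nat_lit 7) (C.cons (nat_lit 140) (C.node (nat_lit 2) (nat_lit 3) (nat_lit 8) (C.cons (nat_lit 1292) (C.node (nat_lit 1) (nat_lit 6) (nat_lit 9) (C.cons (nat_lit 578) (C.node (nat_lit 5) (nat_lit 6) (nat_lit 9) C.nil) C.nil)) C.nil)) C.nil)) C.nil)) (C.cons (nat_lit 38) (C.node (nat_lit 2) (nat_lit 3) (nat_lit 5) (C.cons (nat_lit 44) (C.node (nat_lit 1) (nat_lit 2) (nat_lit 3) (C.cons (nat_lit 142) (C.node (nat_lit 2) (nat_lit 3) (nat_lit 8) (C.cons (nat_lit 1292) (C.node (nat_lit 1) (nat_lit 6) (nat_lit 9) (C.cons (nat_lit 578) (C.node (nat_lit 5) (nat_lit 6) (nat_lit 9) C.nil) C.nil)) C.nil)) C.nil)) C.nil)) C.nil))) C.nil))))) C.nil)) C.nil))) C.nil))))) C.nil))) C.nil)) C.nil))) C.nil))) C.nil))) C.nil))) C.nil))) C.nil))) (C.cons (nat_lit 518) (C.node (nat_lit 2) (nat_lit 8) (nat_lit 9) (C.cons (nat_lit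 772) (C.node (nat_lit 1) (nat_lit 9) (nat_lit 10) (C.cons (nat_lit 1546) (C.node (nat_lit 3) (nat_lit 7) (nat_lit 9) (C.cons (nat_lit 680) (C.miq (nat_lit 2190804083) (nat_lit 1900436867195158357646770329)) (C.cons (nat_lit 648) (C.node (nat_lit 3) (nat_lit 8) (nat_lit 9) (C.cons (nat_lit 792) (C.miq (nat_lit 1402406978) (nat_lit 783386974906653337026035989)) (C.cons (nat_lit 776) (C.node (nat_lit 2) (nat_lit 3) (nat_lit 10) (C.cons (nat_lit 1292) (C.miq (nat_lit 1211695777) (nat_lit 938136231320029497091818503))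
  (C.cons (nat_lit 1036) (C.node (nat_lit 2) (nat_lit 8) (nat_lit 10) (C.cons (nat_lit 1284) (C.node (nat_lit 2) (nat_lit 3) (nat_lit 4) (C.cons (nat_lit 62) (C.miq (nat_lit 2032339540) (nat_lit 712060130645580043417158769)) (C.cons (nat_lit 60) (C.miq (nat_lit 2032339540) (nat_lit 712060130645580043417027697)) (C.cons (nat_lit 30) (C.miq (nat_lit 1217601697) (nat_lit 938126989501251270140888071)) (C.cons (nat_lit 28) (C.node (nat_lit 2) (nat_lit 3) (nat_lit 5) (C.cons (nat_lit 46) (C.miq (nat_lit 1469259937) (nat_lit 783384779706958717739729927)) (C.cons (nat_lit 44) (C.node (nat_lit 1) (nat_lit 2) (nat_lit 4) (C.cons (nat_lit 54) (C.node (nat_lit 1) (nat_lit 7) (nat_lit 9) (C.cons (nat_lit 674) (C.miq (nat_lit 2270300436) (nat_lit 199477870525238556444983827)) (C.cons (nat_lit 642) (C.node (nat_lit 5) (nat_lit 7) (nat_lit 9) (C.cons (nat_lit 672) (C.node (nat_lit 4) (nat_lit 5) (nat_lit 7) (C.cons (nat_lit 432) (C.miq (nat_lit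 843385208) (nat_lit 65287473107971463160268673)) (C.cons (nat_lit 176) (C.node (nat_lit 4) (nat_lit 5) (nat_lit 8) (C.cons (nat_lit 816) (C.miq (nat_lit 2234160144) (nat_lit 1900466824859246471678460435)) (C.cons (nat_lit 304) (C.node (nat_lit 1) (nat_lit 2) (nat_lit 6) (C.cons (nat_lit 326) (C.node (nat_lit 1) (nat_lit 6) (nat_lit 10) (C.cons (nat_lit 1090) (C.node (nat_lit 2) (nat_lit 5) (nat_lit 6) (C.cons (nat_lit 100) (C.node (nat_lit 2) (nat_lit 5) (nat_lit 8) C.nil) C.nil)) C.nil)) (C.cons (nat_lit 70) (C.node (nat_lit 2) (nat_lit 5) (nat_lit 6) (C.cons (nat_lit 356) (C.node (nat_lit 5) (nat_lit 6) (nat_lit 7) (C.cons (nat_lit 232) (C.miq (nat_lit 1971598880) (nat_lit 367516271579994270295458381)) (C.cons (nat_lit 224) (C.node (nat_lit 2) (nat_lit 3) (nat_lit 7) (C.cons (nat_lit 398) (C.miq (nat_lit 1951936610) (nat_lit 367520791010059160350097997)) C.nil)) C.nil))) C.nil)) C.nil))) C.nil))) C.nil))) C.nil)) C.nil)))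 (C.cons (nat_lit 22) (C.node (nat_lit 2) (nat_lit 4) (nat_lit 5) (C.cons (nat_lit 52) (C.node (nat_lit 1) (nat_lit 6) (nat_lit 10) (C.cons (nat_lit 1346) (C.node (nat_lit 3) (nat_lit 6) (nat_lit 10) (C.cons (nat_lit 1096) (C.node (nat_lit 5) (nat_lit 8) (nat_lit 10) (C.cons (nat_lit 1312) (C.node (nat_lit 1) (nat_lit 2) (nat_lit 6) (C.cons (nat_lit 70) (C.node (nat_lit 1) (nat_lit 2) (nat_lit 5) C.nil) C.nil)) C.nil)) C.nil)) (C.cons (nat_lit 1090) (C.node (nat_lit 1) (nat_lit 2) (nat_lit 3) (C.cons (nat_lit 14) (C.node (nat_lit 1) (nat_lit 2) (nat_lit 7) C.nil) C.nil)) C.nil))) C.nil)) C.nil))) C.nil))) C.nil))))) C.nil)) C.nil))) C.nil))) C.nil))) (C.cons (nat_lit 1538) (C.node (nat_lit 3) (nat_lit 9) (nat_lit 10) (C.cons (nat_lit 1544) (C.node (nat_lit 2) (nat_lit 3) (nat_lit 10) (C.cons (nat_lit 1292) (C.node (nat_lit 4) (nat_lit 8) (nat_lit 10) (C.cons (nat_lit 1298) (C.miq (nat_lit 439961632) (nat_lit 1866591261071450654425022741))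 (C.cons (nat_lit 1296) (C.node (nat_lit 2) (nat_lit 3) (nat_lit 4) (C.cons (nat_lit 62) (C.miq (nat_lit 2032339540) (nat_lit 712060130645580043417158769)) (C.cons (nat_lit 60) (C.miq (nat_lit 2032339540) (nat_lit 712060130645580043417027697)) (C.cons (nat_lit 30) (C.miq (nat_lit 430129282) (nat_lit 1866582019036781120383090965)) (C.cons (nat_lit 28) (C.node (nat_lit 1) (nat_lit 2) (nat_lit 4) (C.cons (nat_lit 54) (C.node (nat_lit 2) (nat_lit 3) (nat_lit 5) (C.cons (nat_lit 44) (C.node (nat_lit 2) (nat_lit 7) (nat_lit 8) (C.cons (nat_lit 390) (C.miq (nat_lit 346563847) (nat_lit 1566775056465952689390420133)) (C.cons (nat_lit 388) (C.node (nat_lit 4) (nat_lit 5) (nat_lit 7) (C.cons (nat_lit 432) (C.miq (nat_lit 843385208) (nat_lit 65287473107971463160268673)) (C.cons (nat_lit 176) (C.node (nat_lit 4) (nat_lit 5) (nat_lit 8) (C.cons (nat_lit 816) (C.miq (nat_lit 2234160144) (nat_lit 1900466824859246471678460435)) (C.cons (nat_lit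 304) (C.node (nat_lit 5) (nat_lit 7) (nat_lit 9) (C.cons (nat_lit 682) (C.miq (nat_lit 2238972818) (nat_lit 212776054083884149588099661)) (C.cons (nat_lit 680)
  (C.miq (nat_lit 2238972818) (nat_lit 212776054083884140998165069)) (C.cons (nat_lit 674) (C.miq (nat_lit 2270300436) (nat_lit 199477870525238556444983827)) (C.cons (nat_lit 672) (C.node (nat_lit 1) (nat_lit 2) (nat_lit 3) (C.cons (nat_lit 142) (C.node (nat_lit 1) (nat_lit 7) (nat_lit 9) C.nil) (C.cons (nat_lit 14) (C.node (nat_lit 1) (nat_lit 2) (nat_lit 7) (C.cons (nat_lit 134) (C.node (nat_lit 2) (nat_lit 3) (nat_lit 7) C.nil) C.nil)) C.nil))) C.nil))))) C.nil))) C.nil))) C.nil))) C.nil)) (C.cons (nat_lit 22) (C.node (nat_lit 2) (nat_lit 4) (nat_lit 5) (C.cons (nat_lit 52) (C.node (nat_lit 2) (nat_lit 3) (nat_lit 5) (C.cons (nat_lit 46) (C.node (nat_lit 2) (nat_lit 3) (nat_lit 7) (C.cons (nat_lit 140) (C.node (nat_lit 5) (nat_lit 8) (nat_lit 10) (C.cons (nat_lit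 1314) (C.miq (nat_lit 2555578898) (nat_lit 359061834098523353664848903)) (C.cons (nat_lit 1312) (C.node (nat_lit 1) (nat_lit 5) (nat_lit 10) (C.cons (nat_lit 1186) (C.miq (nat_lit 1649478055) (nat_lit 55614184983162828447942529)) (C.cons (nat_lit 1058) (C.node (nat_lit 3) (nat_lit 8) (nat_lit 9) (C.cons (nat_lit 792) (C.miq (nat_lit 874875248) (nat_lit 62869621525881625065621377)) (C.cons (nat_lit 778) (C.miq (nat_lit 2031224885) (nat_lit 626226618813866846322557225)) (C.cons (nat_lit 776) (C.node (nat_lit 1) (nat_lit 2) (nat_lit 6) (C.cons (nat_lit 326) (C.node (nat_lit 1) (nat_lit 8) (nat_lit 10) C.nil) (C.cons (nat_lit 70) (C.node (nat_lit 1) (nat_lit 2) (nat_lit 7) (C.cons (nat_lit 390) (C.node (nat_lit 1) (nat_lit 8) (nat_lit 10) (C.cons (nat_lit 1346) (C.miq (nat_lit 1629857904) (nat_lit 55631562029151743497275265)) C.nil)) C.nil)) C.nil))) C.nil)))) C.nil))) C.nil))) C.nil)) (C.cons (nat_lit 44) (C.node (nat_lit 1) (nat_lit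 2) (nat_lit 3) (C.cons (nat_lit 142) (C.node (nat_lit 2) (nat_lit 7) (nat_lit 8) (C.cons (nat_lit 388) (C.node (nat_lit 3) (nat_lit 4) (nat_lit 10) (C.cons (nat_lit 1050) (C.miq (nat_lit 1412893202) (nat_lit 184968694433851984051045383)) (C.cons (nat_lit 1048) (C.node (nat_lit 1) (nat_lit 4) (nat_lit 10) (C.cons (nat_lit 1170) (C.miq (nat_lit 1685260818) (nat_lit 184976515853339752297006087)) (C.cons (nat_lit 1042) (C.node (nat_lit 4) (nat_lit 7) (nat_lit 10) C.nil) C.nil))) C.nil))) C.nil)) (C.cons (nat_lit 14) (C.node (nat_lit 2) (nat_lit 3) (nat_lit 7) C.nil) C.nil))) C.nil))) C.nil)) C.nil))) C.nil))))) C.nil))) (C.cons (nat_lit 1036) (C.node (nat_lit 2) (nat_lit 8) (nat_lit 10) (C.cons (nat_lit 1284) (C.node (nat_lit 4) (nat_lit 6) (nat_lit 7) (C.cons (nat_lit 464) (C.node (nat_lit 4) (nat_lit 6) (nat_lit 9) (C.cons (nat_lit 592) (C.node (nat_lit 1) (nat_lit 4) (nat_lit 6) (C.cons (nat_lit 90) (C.node (nat_lit 1) (nat_lit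 6) (nat_lit 10) (C.cons (nat_lit 1346) (C.miq (nat_lit 815875974) (nat_lit 1246404180272723235138830800)) (C.cons (nat_lit 1090) (C.node (nat_lit 2) (nat_lit 3) (nat_lit 4) (C.cons (nat_lit 60) (C.miq (nat_lit 2032339540) (nat_lit 712060130645580043417027697)) (C.cons (nat_lit 28) (C.node (nat_lit 3) (nat_lit 4) (nat_lit 10) (C.cons (nat_lit 1304) (C.miq (nat_lit 2685634404) (nat_lit 13322239110747305962766800)) (C.cons (nat_lit 1048) (C.node (nat_lit 3) (nat_lit 4) (nat_lit 8) (C.cons (nat_lit 792) (C.miq (nat_lit 1396836503) (nat_lit 33852966745583248708208513)) (C.cons (nat_lit 280) (C.node (nat_lit 4) (nat_lit 5) (nat_lit 7) (C.cons (nat_lit 178) (C.miq (nat_lit 1412591968) (nat_lit 33852966712084711407943875)) (C.cons (nat_lit 176) (C.node (nat_lit 1) (nat_lit 4) (nat_lit 7) (C.cons (nat_lit 1170) (C.miq (nat_lit 2588083990) (nat_lit 1266965124629109245396779203)) (C.cons (nat_lit 146) (C.node (nat_lit 4) (nat_lit 7) (nat_lit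 10) (C.cons (nat_lit 1168) (C.node (nat_lit 3) (nat_lit 4) (nat_lit 9) C.nil) C.nil)) C.nil))) C.nil))) C.nil))) C.nil))) C.nil))) C.nil))) (C.cons (nat_lit 82) (C.node (nat_lit 3) (nat_lit 4) (nat_lit 6) (C.cons (nat_lit 88) (C.node (nat_lit 3) (nat_lit 6) (nat_lit 7) (C.cons (nat_lit 232) (C.node (nat_lit 5) (nat_lit 7) (nat_lit 10) (C.cons (nat_lit 1186)
  (C.miq (nat_lit 2507549200) (nat_lit 280481655725337140690879495)) (C.cons (nat_lit 1184) (C.node (nat_lit 1) (nat_lit 2) (nat_lit 7) (C.cons (nat_lit 398) (C.miq (nat_lit 1468293920) (nat_lit 560962554314503648835863117)) (C.cons (nat_lit 390) (C.miq (nat_lit 1210738448) (nat_lit 1552281726463801732381475011)) (C.cons (nat_lit 142) (C.miq (nat_lit 441917539) (nat_lit 1431370790151584993990148685)) (C.cons (nat_lit 134) (C.node (nat_lit 2) (nat_lit 3) (nat_lit 7) (C.cons (nat_lit 396) (C.miq (nat_lit 1468293920) (nat_lit 560962554314503640245928525)) (C.cons (nat_lit 140)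 (C.node (nat_lit 2) (nat_lit 7) (nat_lit 8) (C.cons (nat_lit 388) (C.node (nat_lit 3) (nat_lit 7) (nat_lit 9) (C.cons (nat_lit 650) (C.node (nat_lit 3) (nat_lit 7) (nat_lit 8) C.nil) C.nil)) C.nil)) C.nil))) C.nil))))) C.nil))) (C.cons (nat_lit 200) (C.node (nat_lit 5) (nat_lit 6) (nat_lit 7) (C.cons (nat_lit 224) (C.node (nat_lit 3) (nat_lit 5) (nat_lit 6) (C.cons (nat_lit 106) (C.node (nat_lit 2) (nat_lit 3) (nat_lit 5) (C.cons (nat_lit 60) (C.miq (nat_lit 2032339540) (nat_lit 712060130645580043417027697)) (C.cons (nat_lit 44) (C.node (nat_lit 5) (nat_lit 7) (nat_lit 8) (C.cons (nat_lit 418) (C.miq (nat_lit 2555578134) (nat_lit 359061834098519505378083011)) (C.cons (nat_lit 416) (C.node (nat_lit 5) (nat_lit 8) (nat_lit 10) (C.cons (nat_lit 1314) (C.miq (nat_lit 1772171397) (nat_lit 1859329866087968495911436585)) (C.cons (nat_lit 1312) (C.node (nat_lit 1) (nat_lit 6) (nat_lit 10) (C.cons (nat_lit 1346) (C.node (nat_lit 1)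 (nat_lit 2) (nat_lit 6) C.nil) C.nil)) C.nil))) C.nil))) C.nil))) (C.cons (nat_lit 104) (C.node (nat_lit 4) (nat_lit 5) (nat_lit 7) (C.cons (nat_lit 178) (C.node (nat_lit 4) (nat_lit 7) (nat_lit 10) (C.cons (nat_lit 1168) (C.node (nat_lit 5) (nat_lit 7) (nat_lit 8) (C.cons (nat_lit 416) (C.node (nat_lit 1) (nat_lit 7) (nat_lit 9) (C.cons (nat_lit 650) (C.miq (nat_lit 928420160) (nat_lit 270810248908895849500705299)) C.nil)) C.nil)) C.nil)) (C.cons (nat_lit 176) (C.node (nat_lit 1) (nat_lit 4) (nat_lit 7) (C.cons (nat_lit 1170) (C.node (nat_lit 1) (nat_lit 2) (nat_lit 7) (C.cons (nat_lit 398) (C.miq (nat_lit 1194762528) (nat_lit 241806138200265074888475655)) (C.cons (nat_lit 390) (C.miq (nat_lit 1210738448) (nat_lit 1552281726463801732381475011)) (C.cons (nat_lit 142) (C.miq (nat_lit 1194762528) (nat_lit 241806138200263975376847879)) (C.cons (nat_lit 134) (C.node (nat_lit 3) (nat_lit 7) (nat_lit 9) (C.cons (nat_lit 682) (C.miq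 (nat_lit 910266535) (nat_lit 99144498053651506977179521)) (C.cons (nat_lit 680) (C.miq (nat_lit 1464351008) (nat_lit 560947059175583647660311117)) (C.cons (nat_lit 650) (C.miq (nat_lit 910266535) (nat_lit 99143907757841148271527809)) C.nil)))) C.nil))))) (C.cons (nat_lit 146) (C.node (nat_lit 4) (nat_lit 7) (nat_lit 10) C.nil) C.nil))) C.nil))) C.nil))) C.nil)) C.nil))) C.nil)) C.nil))) C.nil)) (C.cons (nat_lit 208) (C.node (nat_lit 4) (nat_lit 6) (nat_lit 9) (C.cons (nat_lit 848) (C.node (nat_lit 1) (nat_lit 4) (nat_lit 6) (C.cons (nat_lit 90) (C.node (nat_lit 2) (nat_lit 3) (nat_lit 4) (C.cons (nat_lit 60) (C.miq (nat_lit 2032339540) (nat_lit 712060130645580043417027697)) (C.cons (nat_lit 28) (C.node (nat_lit 3) (nat_lit 6) (nat_lit 10) (C.cons (nat_lit 1352) (C.miq (nat_lit 279136646) (nat_lit 1248822032018350034685264720)) (C.cons (nat_lit 1096) (C.node (nat_lit 3) (nat_lit 6) (nat_lit 8) (C.cons (nat_lit 456) (C.miq (nat_lit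 882401543) (nat_lit 1025177506773838180363862211)) (C.cons (nat_lit 328) (C.node (nat_lit 3) (nat_lit 8) (nat_lit 9) (C.cons (nat_lit 778) (C.miq (nat_lit 2204799296) (nat_lit 1325018134711987090029085203)) (C.cons (nat_lit 776) (C.node (nat_lit 4) (nat_lit 7) (nat_lit 10) (C.cons (nat_lit 1170) (C.miq (nat_lit 967073905) (nat_lit 1876254532414668124995059907)) (C.cons (nat_lit 1168) (C.node (nat_lit 3) (nat_lit 7) (nat_lit 9) (C.cons (nat_lit 682) (C.miq (nat_lit 346502665) (nat_lit 1412037938014682777378685517)) (C.cons (nat_lit 680)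
  (C.miq (nat_lit 961042208) (nat_lit 1025174573907601250747482277)) (C.cons (nat_lit 650) (C.miq (nat_lit 346502665) (nat_lit 1412037347718872418673033805)) C.nil)))) C.nil))) C.nil))) C.nil))) C.nil))) C.nil))) (C.cons (nat_lit 82) (C.node (nat_lit 3) (nat_lit 4) (nat_lit 6) (C.cons (nat_lit 88) (C.node (nat_lit 1) (nat_lit 6) (nat_lit 9) (C.cons (nat_lit 610) (C.node (nat_lit 5) (nat_lit 8) (nat_lit 9) (C.cons (nat_lit 800) (C.node (nat_lit 2) (nat_lit 5) (nat_lit 6) (C.cons (nat_lit 356) (C.miq (nat_lit 354457220) (nat_lit 199482555629218218418438992)) (C.cons (nat_lit 100) (C.node (nat_lit 5) (nat_lit 7) (nat_lit 9) (C.cons (nat_lit 680) (C.miq (nat_lit 961042208) (nat_lit 1025174573907601250747482277)) (C.cons (nat_lit 672) (C.node (nat_lit 4) (nat_lit 5) (nat_lit 8) (C.cons (nat_lit 434) (C.miq (nat_lit 642058631) (nat_lit 1374551700780397937160226689)) (C.cons (nat_lit 432) (C.miq (nat_lit 642058631) (nat_lit 1374551700780397937160095617))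 (C.cons (nat_lit 306) (C.miq (nat_lit 2190557285) (nat_lit 626229219342035565945160817)) (C.cons (nat_lit 304) (C.node (nat_lit 1) (nat_lit 2) (nat_lit 6) (C.cons (nat_lit 326) (C.node (nat_lit 1) (nat_lit 6) (nat_lit 10) C.nil) (C.cons (nat_lit 70) (C.node (nat_lit 2) (nat_lit 6) (nat_lit 8) C.nil) C.nil))) C.nil))))) C.nil))) C.nil))) C.nil)) (C.cons (nat_lit 578) (C.node (nat_lit 5) (nat_lit 6) (nat_lit 9) (C.cons (nat_lit 608) (C.node (nat_lit 3) (nat_lit 4) (nat_lit 9) (C.cons (nat_lit 568) (C.node (nat_lit 3) (nat_lit 7) (nat_lit 9) (C.cons (nat_lit 650) (C.miq (nat_lit 425096000) (nat_lit 735030495623750086061785241)) (C.cons (nat_lit 648) (C.node (nat_lit 4) (nat_lit 5) (nat_lit 7) (C.cons (nat_lit 434) (C.miq (nat_lit 642058631) (nat_lit 1374551700780397937160226689)) (C.cons (nat_lit 432) (C.miq (nat_lit 642058631) (nat_lit 1374551700780397937160095617)) (C.cons (nat_lit 178) (C.miq (nat_lit 362181680) (nat_lit 735030495490893897018441881))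 (C.cons (nat_lit 176) (C.node (nat_lit 1) (nat_lit 2) (nat_lit 6) (C.cons (nat_lit 358) (C.miq (nat_lit 2032208470) (nat_lit 626227172216192467833586801)) (C.cons (nat_lit 326) (C.node (nat_lit 2) (nat_lit 5) (nat_lit 6) C.nil) (C.cons (nat_lit 102) (C.miq (nat_lit 2032208470) (nat_lit 626227172216192467816809585)) C.nil)))) C.nil))))) C.nil))) (C.cons (nat_lit 536) (C.node (nat_lit 4) (nat_lit 5) (nat_lit 9) (C.cons (nat_lit 560) (C.node (nat_lit 3) (nat_lit 8) (nat_lit 9) (C.cons (nat_lit 778) (C.node (nat_lit 5) (nat_lit 8) (nat_lit 9) C.nil) C.nil)) C.nil)) C.nil))) C.nil)) C.nil))) C.nil)) C.nil))) (C.cons (nat_lit 592) (C.node (nat_lit 4) (nat_lit 7) (nat_lit 10) (C.cons (nat_lit 1170) (C.node (nat_lit 2) (nat_lit 3) (nat_lit 4) (C.cons (nat_lit 62) (C.miq (nat_lit 2032339540) (nat_lit 712060130645580043417158769)) (C.cons (nat_lit 60) (C.miq (nat_lit 2032339540) (nat_lit 712060130645580043417027697)) (C.cons (nat_lit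 30) (C.miq (nat_lit 2537753106) (nat_lit 184976516074016134030820359)) (C.cons (nat_lit 28) (C.node (nat_lit 4) (nat_lit 5) (nat_lit 7) (C.cons (nat_lit 432) (C.miq (nat_lit 1394901143) (nat_lit 33857892026250057280128897)) (C.cons (nat_lit 176) (C.node (nat_lit 4) (nat_lit 7) (nat_lit 8) (C.cons (nat_lit 400) (C.node (nat_lit 3) (nat_lit 7) (nat_lit 9) (C.cons (nat_lit 682) (C.miq (nat_lit 1464351008) (nat_lit 483575806720810330432537165)) (C.cons (nat_lit 680) (C.miq (nat_lit 1464351008) (nat_lit 483575806720247380479115853)) (C.cons (nat_lit 650) (C.miq (nat_lit 933663040) (nat_lit 1470064661966612251416789523)) (C.cons (nat_lit 648) (C.node (nat_lit 1) (nat_lit 2) (nat_lit 4) (C.cons (nat_lit 54) (C.node (nat_lit 2) (nat_lit 3) (nat_lit 5) (C.cons (nat_lit 44) (C.node (nat_lit 1) (nat_lit 2) (nat_lit 7) (C.cons (nat_lit 398) (C.miq (nat_lit 893485223) (nat_lit 65289336146934263373236097)) (C.cons (nat_lit 390) (C.miq (nat_lit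 1517371522) (nat_lit 1414444205393341413899763989)) (C.cons (nat_lit 142) (C.miq (nat_lit 1685260818) (nat_lit 184976515853339752297006087)) C.nil)))) C.nil)) (C.cons (nat_lit 22)
  (C.node (nat_lit 2) (nat_lit 4) (nat_lit 5) (C.cons (nat_lit 52) (C.node (nat_lit 2) (nat_lit 3) (nat_lit 5) C.nil) C.nil)) C.nil))) C.nil))))) C.nil)) C.nil))) C.nil))))) (C.cons (nat_lit 1168) (C.node (nat_lit 5) (nat_lit 8) (nat_lit 10) (C.cons (nat_lit 1314) (C.node (nat_lit 3) (nat_lit 8) (nat_lit 9) (C.cons (nat_lit 792) (C.miq (nat_lit 1385695043) (nat_lit 933296211471929820497576089)) (C.cons (nat_lit 778) (C.miq (nat_lit 1780024707) (nat_lit 1859338776019601777782030633)) (C.cons (nat_lit 776) (C.node (nat_lit 2) (nat_lit 3) (nat_lit 5) (C.cons (nat_lit 62) (C.miq (nat_lit 2032339540) (nat_lit 712060130645580043417158769)) (C.cons (nat_lit 60) (C.miq (nat_lit 2032339540) (nat_lit 712060130645580043417027697)) (C.cons (nat_lit 46) (C.miq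 (nat_lit 2555578898) (nat_lit 359061834098523353664848903)) (C.cons (nat_lit 44) (C.node (nat_lit 1) (nat_lit 4) (nat_lit 10) (C.cons (nat_lit 1050) (C.node (nat_lit 1) (nat_lit 6) (nat_lit 10) C.nil) (C.cons (nat_lit 1042) (C.node (nat_lit 1) (nat_lit 6) (nat_lit 10) (C.cons (nat_lit 1090) (C.node (nat_lit 1) (nat_lit 3) (nat_lit 10) C.nil) C.nil)) C.nil))) C.nil))))) C.nil)))) (C.cons (nat_lit 1312) (C.ref (nat_lit 160) (nat_lit 11649936536080)) C.nil))) C.nil))) C.nil))) C.nil))) C.nil)) C.nil))) C.nil)) C.nil))) C.nil)) C.nil))) C.nil))) C.nil))) (C.cons (nat_lit 1540) (C.node (nat_lit 4) (nat_lit 6) (nat_lit 7) (C.cons (nat_lit 464) (C.node (nat_lit 4) (nat_lit 6) (nat_lit 9) (C.cons (nat_lit 592) (C.node (nat_lit 1) (nat_lit 4) (nat_lit 6) (C.cons (nat_lit 90) (C.node (nat_lit 1) (nat_lit 6) (nat_lit 10) (C.cons (nat_lit 1346) (C.miq (nat_lit 815875974) (nat_lit 1246404180272723235138830800)) (C.cons (nat_lit 1090) (C.node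 (nat_lit 2) (nat_lit 3) (nat_lit 4) (C.cons (nat_lit 60) (C.miq (nat_lit 1484009618) (nat_lit 560942687189438678395257421)) (C.cons (nat_lit 28) (C.node (nat_lit 4) (nat_lit 5) (nat_lit 7) (C.cons (nat_lit 178) (C.miq (nat_lit 1412591968) (nat_lit 33852966712084711407943875)) (C.cons (nat_lit 176) (C.node (nat_lit 1) (nat_lit 4) (nat_lit 7) (C.cons (nat_lit 1170) (C.miq (nat_lit 2585134915) (nat_lit 1317740009052923670734438553)) (C.cons (nat_lit 146) (C.node (nat_lit 4) (nat_lit 7) (nat_lit 10) (C.cons (nat_lit 1168) (C.node (nat_lit 4) (nat_lit 9) (nat_lit 10) (C.cons (nat_lit 1560) (C.miq (nat_lit 2753008480) (nat_lit 176538606298202805784216141)) (C.cons (nat_lit 1552) (C.node (nat_lit 3) (nat_lit 4) (nat_lit 10) (C.cons (nat_lit 1304) (C.miq (nat_lit 2685634404) (nat_lit 13322239110747305962766800)) (C.cons (nat_lit 1048) (C.node (nat_lit 3) (nat_lit 4) (nat_lit 8) (C.cons (nat_lit 792) (C.miq (nat_lit 1396836503) (nat_lit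 33852966745583248708208513)) (C.cons (nat_lit 280) (C.node (nat_lit 1) (nat_lit 2) (nat_lit 7) (C.cons (nat_lit 398) (C.miq (nat_lit 1410795058) (nat_lit 176506213696545456676274765)) (C.cons (nat_lit 390) (C.miq (nat_lit 2759984753) (nat_lit 334891470946431317351727299)) (C.cons (nat_lit 142) (C.miq (nat_lit 1410795058) (nat_lit 176506213696545456659497549)) (C.cons (nat_lit 134) (C.node (nat_lit 3) (nat_lit 7) (nat_lit 9) (C.cons (nat_lit 682) (C.miq (nat_lit 1464351008) (nat_lit 560947059176146597613732429)) (C.cons (nat_lit 680) (C.miq (nat_lit 1464351008) (nat_lit 560947059175583647660311117)) (C.cons (nat_lit 650) (C.miq (nat_lit 2803108150) (nat_lit 176524144152463889263100493)) (C.cons (nat_lit 648) (C.node (nat_lit 1) (nat_lit 2) (nat_lit 4) (C.cons (nat_lit 54) (C.node (nat_lit 1) (nat_lit 4) (nat_lit 8) (C.cons (nat_lit 1298) (C.miq (nat_lit 2166858832) (nat_lit 162031496389080657168761969)) (C.cons (nat_lit 274)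 (C.node (nat_lit 1) (nat_lit 4) (nat_lit 10) (C.cons (nat_lit 1042) (C.node (nat_lit 4) (nat_lit 8) (nat_lit 10) C.nil) C.nil)) C.nil))) (C.cons (nat_lit 22) (C.node (nat_lit 2) (nat_lit 4) (nat_lit 5) (C.cons (nat_lit 52) (C.node (nat_lit 1) (nat_lit 4) (nat_lit 5) (C.cons (nat_lit 306)
  (C.node (nat_lit 1) (nat_lit 4) (nat_lit 10) C.nil) C.nil)) C.nil)) C.nil))) C.nil))))) C.nil))))) C.nil))) C.nil))) C.nil))) C.nil)) C.nil))) C.nil))) C.nil))) C.nil))) (C.cons (nat_lit 82) (C.node (nat_lit 3) (nat_lit 4) (nat_lit 6) (C.cons (nat_lit 88) (C.node (nat_lit 3) (nat_lit 6) (nat_lit 7) (C.cons (nat_lit 232) (C.node (nat_lit 6) (nat_lit 7) (nat_lit 9) (C.cons (nat_lit 704) (C.node (nat_lit 2) (nat_lit 7) (nat_lit 8) (C.cons (nat_lit 398) (C.miq (nat_lit 1468293920) (nat_lit 560962554314503648835863117)) (C.cons (nat_lit 396) (C.miq (nat_lit 1468293920) (nat_lit 560962554314503640245928525)) (C.cons (nat_lit 390) (C.miq (nat_lit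 2759984753) (nat_lit 334891470946431317351727299)) (C.cons (nat_lit 388) (C.node (nat_lit 1) (nat_lit 2) (nat_lit 7) (C.cons (nat_lit 142) (C.node (nat_lit 3) (nat_lit 7) (nat_lit 8) (C.cons (nat_lit 392) (C.node (nat_lit 3) (nat_lit 7) (nat_lit 9) (C.cons (nat_lit 648) (C.node (nat_lit 3) (nat_lit 7) (nat_lit 10) (C.cons (nat_lit 1160) (C.node (nat_lit 1) (nat_lit 7) (nat_lit 8) (C.cons (nat_lit 418) (C.miq (nat_lit 2775647794) (nat_lit 505350011512093034536632909)) (C.cons (nat_lit 386) (C.node (nat_lit 5) (nat_lit 7) (nat_lit 8) (C.cons (nat_lit 416) (C.node (nat_lit 1) (nat_lit 7) (nat_lit 9) (C.cons (nat_lit 674) (C.miq (nat_lit 2775647794) (nat_lit 814835021333438103261413965)) (C.cons (nat_lit 642) (C.node (nat_lit 5) (nat_lit 7) (nat_lit 9) (C.cons (nat_lit 672) (C.node (nat_lit 4) (nat_lit 5) (nat_lit 7) (C.cons (nat_lit 178) (C.miq (nat_lit 924411200) (nat_lit 776141241390154304223118449)) C.nil)) C.nil)) C.nil)))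 C.nil)) C.nil))) C.nil)) C.nil)) C.nil)) (C.cons (nat_lit 134) (C.node (nat_lit 2) (nat_lit 3) (nat_lit 7) (C.cons (nat_lit 140) (C.node (nat_lit 5) (nat_lit 7) (nat_lit 10) (C.cons (nat_lit 1186) (C.miq (nat_lit 389195104) (nat_lit 169268633673018397856433265)) (C.cons (nat_lit 1184) (C.node (nat_lit 3) (nat_lit 7) (nat_lit 8) (C.cons (nat_lit 394) (C.node (nat_lit 3) (nat_lit 7) (nat_lit 9) (C.cons (nat_lit 648) (C.node (nat_lit 3) (nat_lit 7) (nat_lit 10) (C.cons (nat_lit 1160) (C.node (nat_lit 5) (nat_lit 7) (nat_lit 8) (C.cons (nat_lit 416) (C.node (nat_lit 1) (nat_lit 3) (nat_lit 6) (C.cons (nat_lit 1098) (C.miq (nat_lit 326280784) (nat_lit 169268633648248599878108273)) (C.cons (nat_lit 74) (C.node (nat_lit 1) (nat_lit 6) (nat_lit 10) (C.cons (nat_lit 1346) (C.miq (nat_lit 1175652999) (nat_lit 89463333323368666061473665)) (C.cons (nat_lit 1090) (C.node (nat_lit 3) (nat_lit 8) (nat_lit 9) (C.cons (nat_lit 792) (C.miq (nat_lit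 1481048978) (nat_lit 560944624097561568880099917)) (C.cons (nat_lit 776) (C.node (nat_lit 3) (nat_lit 4) (nat_lit 8) (C.cons (nat_lit 1304) (C.miq (nat_lit 1125558384) (nat_lit 89481484966539428549035905)) (C.cons (nat_lit 280) (C.node (nat_lit 2) (nat_lit 3) (nat_lit 8) C.nil) C.nil))) C.nil))) C.nil))) C.nil))) C.nil)) C.nil)) C.nil)) (C.cons (nat_lit 392) (C.node (nat_lit 1) (nat_lit 7) (nat_lit 8) (C.cons (nat_lit 418) (C.node (nat_lit 4) (nat_lit 5) (nat_lit 7) (C.cons (nat_lit 176) (C.node (nat_lit 5) (nat_lit 7) (nat_lit 9) (C.cons (nat_lit 672) (C.node (nat_lit 1) (nat_lit 7) (nat_lit 9) (C.cons (nat_lit 650) (C.miq (nat_lit 391418720) (nat_lit 212780739656237605889049165)) (C.cons (nat_lit 642) (C.node (nat_lit 3) (nat_lit 7) (nat_lit 9) C.nil) C.nil))) C.nil)) C.nil)) (C.cons (nat_lit 386) (C.node (nat_lit 5) (nat_lit 7) (nat_lit 8) (C.cons (nat_lit 416) (C.node (nat_lit 3) (nat_lit 7) (nat_lit 9) (C.cons (nat_lit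 650) (C.node (nat_lit 3) (nat_lit 7) (nat_lit 10) (C.cons (nat_lit 1160) (C.node (nat_lit 5) (nat_lit 7) (nat_lit 9) C.nil) C.nil)) (C.cons (nat_lit 648) (C.node (nat_lit 4) (nat_lit 5) (nat_lit 7) (C.cons (nat_lit 178) (C.miq (nat_lit 423051365) (nat_lit 783387214780190567894090865)) C.nil)) C.nil))) C.nil)) C.nil))) C.nil))) C.nil))) C.nil)) C.nil))) C.nil))))) C.nil)) (C.cons (nat_lit 200) (C.node (nat_lit 3) (nat_lit 5) (nat_lit 6) (C.cons (nat_lit 106) (C.node (nat_lit 5) (nat_lit 7) (nat_lit 8) (C.cons (nat_lit 418)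
  (C.miq (nat_lit 2555578134) (nat_lit 359061834098519505378083011)) (C.cons (nat_lit 416) (C.node (nat_lit 3) (nat_lit 8) (nat_lit 9) (C.cons (nat_lit 792) (C.miq (nat_lit 1481048978) (nat_lit 560944624097561568880099917)) (C.cons (nat_lit 778) (C.miq (nat_lit 380187912) (nat_lit 1934295662980137256596078889)) (C.cons (nat_lit 776) (C.node (nat_lit 1) (nat_lit 7) (nat_lit 8) (C.cons (nat_lit 398) (C.miq (nat_lit 2759984753) (nat_lit 334891470946431317352251587)) (C.cons (nat_lit 394) (C.miq (nat_lit 2822047510) (nat_lit 359071942914271795133153475)) (C.cons (nat_lit 390) (C.miq (nat_lit 2759984753) (nat_lit 334891470946431317351727299)) (C.cons (nat_lit 386) (C.node (nat_lit 1) (nat_lit 2) (nat_lit 6) (C.cons (nat_lit 326) (C.node (nat_lit 1) (nat_lit 6) (nat_lit 9) (C.cons (nat_lit 578) (C.node (nat_lit 1) (nat_lit 6) (nat_lit 10) (C.cons (nat_lit 1090) (C.node (nat_lit 2) (nat_lit 5) (nat_lit 6) (C.cons (nat_lit 100) (C.node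 (nat_lit 2) (nat_lit 8) (nat_lit 9) (C.cons (nat_lit 804) (C.miq (nat_lit 1233351248) (nat_lit 938129258558572454935593125)) (C.cons (nat_lit 772) (C.node (nat_lit 1) (nat_lit 2) (nat_lit 7) (C.cons (nat_lit 142) (C.node (nat_lit 2) (nat_lit 7) (nat_lit 8) (C.cons (nat_lit 388) (C.node (nat_lit 3) (nat_lit 7) (nat_lit 8) (C.cons (nat_lit 392) (C.node (nat_lit 2) (nat_lit 3) (nat_lit 4) (C.cons (nat_lit 60) (C.miq (nat_lit 1484009618) (nat_lit 560942687189438678395257421)) (C.cons (nat_lit 28) (C.node (nat_lit 5) (nat_lit 6) (nat_lit 7) C.nil) C.nil))) C.nil)) C.nil)) (C.cons (nat_lit 134) (C.node (nat_lit 1) (nat_lit 2) (nat_lit 3) (C.cons (nat_lit 30) (C.node (nat_lit 2) (nat_lit 4) (nat_lit 5) (C.cons (nat_lit 52) (C.node (nat_lit 1) (nat_lit 2) (nat_lit 5) C.nil) C.nil)) (C.cons (nat_lit 14) (C.node (nat_lit 1) (nat_lit 2) (nat_lit 4) (C.cons (nat_lit 22) (C.node (nat_lit 1) (nat_lit 2) (nat_lit 5) C.nil) C.nil)) C.nil)))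 C.nil))) C.nil))) C.nil)) C.nil)) C.nil)) (C.cons (nat_lit 70) (C.node (nat_lit 1) (nat_lit 2) (nat_lit 7) (C.cons (nat_lit 142) (C.node (nat_lit 2) (nat_lit 7) (nat_lit 8) (C.cons (nat_lit 388) (C.node (nat_lit 3) (nat_lit 7) (nat_lit 8) (C.cons (nat_lit 392) (C.node (nat_lit 2) (nat_lit 3) (nat_lit 4) (C.cons (nat_lit 60) (C.miq (nat_lit 1484009618) (nat_lit 560942687189438678395257421)) (C.cons (nat_lit 28) (C.node (nat_lit 2) (nat_lit 3) (nat_lit 5) (C.cons (nat_lit 1068) (C.miq (nat_lit 1400283664) (nat_lit 241806138171553527726539783)) (C.cons (nat_lit 44) (C.node (nat_lit 3) (nat_lit 7) (nat_lit 9) (C.cons (nat_lit 680) (C.miq (nat_lit 1464351008) (nat_lit 560947059175583647660311117)) (C.cons (nat_lit 648) (C.node (nat_lit 4) (nat_lit 5) (nat_lit 7) (C.cons (nat_lit 178) (C.miq (nat_lit 1094080288) (nat_lit 128167110877265656057495717)) (C.cons (nat_lit 176) (C.node (nat_lit 3) (nat_lit 5) (nat_lit 7) (C.cons (nat_lit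 168) (C.node (nat_lit 3) (nat_lit 7) (nat_lit 10) C.nil) C.nil)) C.nil))) C.nil))) C.nil))) C.nil))) C.nil)) C.nil)) (C.cons (nat_lit 134) (C.node (nat_lit 1) (nat_lit 6) (nat_lit 9) (C.cons (nat_lit 834) (C.node (nat_lit 1) (nat_lit 6) (nat_lit 10) (C.cons (nat_lit 1090) (C.node (nat_lit 2) (nat_lit 8) (nat_lit 9) (C.cons (nat_lit 804) (C.miq (nat_lit 408381728) (nat_lit 502916738309533693781541453)) (C.cons (nat_lit 772) (C.node (nat_lit 1) (nat_lit 2) (nat_lit 9) (C.cons (nat_lit 550) (C.node (nat_lit 1) (nat_lit 2) (nat_lit 8) (C.cons (nat_lit 270) (C.miq (nat_lit 560235344) (nat_lit 99137027032506708924629289)) (C.cons (nat_lit 262) (C.node (nat_lit 2) (nat_lit 5) (nat_lit 6) (C.cons (nat_lit 356) (C.node (nat_lit 1) (nat_lit 2) (nat_lit 3) (C.cons (nat_lit 14) (C.node (nat_lit 1) (nat_lit 2) (nat_lit 4) C.nil) C.nil)) C.nil)) C.nil))) (C.cons (nat_lit 518) (C.node (nat_lit 2) (nat_lit 5) (nat_lit 9) (C.cons (nat_lit 548)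 (C.node (nat_lit 2) (nat_lit 5) (nat_lit 6) (C.cons (nat_lit 356) (C.node (nat_lit 3) (nat_lit 6) (nat_lit 8) (C.cons (nat_lit 1352) (C.node (nat_lit 2) (nat_lit 8) (nat_lit 10) (C.cons (nat_lit 1284)
  (C.node (nat_lit 1) (nat_lit 2) (nat_lit 5) C.nil) C.nil)) C.nil)) C.nil)) C.nil)) C.nil))) C.nil))) C.nil)) (C.cons (nat_lit 578) (C.node (nat_lit 1) (nat_lit 6) (nat_lit 8) (C.cons (nat_lit 1346) (C.node (nat_lit 3) (nat_lit 6) (nat_lit 8) (C.cons (nat_lit 328) (C.node (nat_lit 3) (nat_lit 6) (nat_lit 10) (C.cons (nat_lit 1096) (C.node (nat_lit 4) (nat_lit 8) (nat_lit 10) (C.cons (nat_lit 1304) (C.miq (nat_lit 924336234) (nat_lit 466669420968585487735456881)) (C.cons (nat_lit 1296) (C.node (nat_lit 5) (nat_lit 8) (nat_lit 10) (C.cons (nat_lit 1316) (C.miq (nat_lit 655904874) (nat_lit 466669642332892071970604145)) (C.cons (nat_lit 1312) (C.node (nat_lit 2) (nat_lit 3) (nat_lit 7) (C.cons (nat_lit 396) (C.node (nat_lit 2) (nat_lit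 8) (nat_lit 10) C.nil) (C.cons (nat_lit 140) (C.node (nat_lit 2) (nat_lit 7) (nat_lit 8) C.nil) C.nil))) C.nil))) C.nil))) C.nil)) C.nil)) (C.cons (nat_lit 322) (C.node (nat_lit 1) (nat_lit 6) (nat_lit 10) (C.cons (nat_lit 1090) (C.node (nat_lit 2) (nat_lit 3) (nat_lit 7) (C.cons (nat_lit 396) (C.node (nat_lit 1) (nat_lit 2) (nat_lit 3) (C.cons (nat_lit 30) (C.miq (nat_lit 2148759874) (nat_lit 13305489467129820794978964)) (C.cons (nat_lit 14) (C.node (nat_lit 2) (nat_lit 5) (nat_lit 6) C.nil) C.nil))) (C.cons (nat_lit 140) (C.node (nat_lit 2) (nat_lit 7) (nat_lit 8) (C.cons (nat_lit 388) (C.node (nat_lit 2) (nat_lit 5) (nat_lit 6) C.nil) C.nil)) C.nil))) C.nil)) C.nil))) C.nil))) C.nil))) C.nil))) C.nil))))) C.nil)))) C.nil))) (C.cons (nat_lit 104) (C.node (nat_lit 4) (nat_lit 5) (nat_lit 7) (C.cons (nat_lit 178) (C.node (nat_lit 4) (nat_lit 7) (nat_lit 10) (C.cons (nat_lit 1168) (C.node (nat_lit 5) (nat_lit 7) (nat_lit 8)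 (C.cons (nat_lit 416) (C.node (nat_lit 1) (nat_lit 7) (nat_lit 9) (C.cons (nat_lit 650) (C.miq (nat_lit 1446461585) (nat_lit 241788447763410533539774995)) (C.cons (nat_lit 642) (C.node (nat_lit 2) (nat_lit 4) (nat_lit 5) (C.cons (nat_lit 60) (C.miq (nat_lit 2269448483) (nat_lit 215194275115110149778047565)) (C.cons (nat_lit 52) (C.node (nat_lit 3) (nat_lit 4) (nat_lit 5) (C.cons (nat_lit 568) (C.miq (nat_lit 1983189140) (nat_lit 125731568815256704701170195)) (C.cons (nat_lit 56) (C.node (nat_lit 3) (nat_lit 7) (nat_lit 9) (C.cons (nat_lit 680) (C.miq (nat_lit 1464351008) (nat_lit 560947059175583647660311117)) (C.cons (nat_lit 648) (C.node (nat_lit 1) (nat_lit 2) (nat_lit 7) (C.cons (nat_lit 398) (C.miq (nat_lit 2759984753) (nat_lit 334891470946431317352251587)) (C.cons (nat_lit 390) (C.miq (nat_lit 2759984753) (nat_lit 334891470946431317351727299)) (C.cons (nat_lit 142) (C.miq (nat_lit 910237783) (nat_lit 99134536811851703754293413))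 (C.cons (nat_lit 134) (C.node (nat_lit 2) (nat_lit 5) (nat_lit 9) (C.cons (nat_lit 806) (C.miq (nat_lit 891553943) (nat_lit 62866965055405524516079489)) (C.cons (nat_lit 804) (C.miq (nat_lit 891553943) (nat_lit 62866965055405515926144897)) (C.cons (nat_lit 550) (C.miq (nat_lit 844564756) (nat_lit 199475582754048214914171411)) (C.cons (nat_lit 548) (C.node (nat_lit 1) (nat_lit 2) (nat_lit 4) (C.cons (nat_lit 30) (C.node (nat_lit 1) (nat_lit 2) (nat_lit 9) (C.cons (nat_lit 774) (C.miq (nat_lit 2168951344) (nat_lit 215224232304631349979447885)) (C.cons (nat_lit 518) (C.node (nat_lit 2) (nat_lit 8) (nat_lit 9) (C.cons (nat_lit 772) (C.node (nat_lit 1) (nat_lit 7) (nat_lit 10) (C.cons (nat_lit 1162) (C.miq (nat_lit 2268334610) (nat_lit 184970760689865102290977799)) (C.cons (nat_lit 1154) (C.node (nat_lit 2) (nat_lit 3) (nat_lit 7) (C.cons (nat_lit 396) (C.miq (nat_lit 426983554) (nat_lit 783384484662073379787637013)) (C.cons (nat_lit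 140) (C.node (nat_lit 2) (nat_lit 7) (nat_lit 8) C.nil) C.nil))) C.nil))) C.nil)) C.nil))) (C.cons (nat_lit 22) (C.node (nat_lit 2) (nat_lit 3) (nat_lit 4) (C.cons (nat_lit 28) (C.node (nat_lit 1) (nat_lit 2) (nat_lit 9) (C.cons (nat_lit 774) (C.node (nat_lit 1) (nat_lit 2) (nat_lit 6) (C.cons (nat_lit 102) (C.miq (nat_lit 840369748) (nat_lit 161998882345992786352931953)) (C.cons (nat_lit 70)
  (C.node (nat_lit 1) (nat_lit 2) (nat_lit 3) C.nil) C.nil))) (C.cons (nat_lit 518) (C.node (nat_lit 2) (nat_lit 8) (nat_lit 9) (C.cons (nat_lit 772) (C.node (nat_lit 1) (nat_lit 7) (nat_lit 8) C.nil) C.nil)) C.nil))) C.nil)) C.nil))) C.nil))))) C.nil))))) C.nil))) C.nil))) C.nil))) C.nil))) C.nil)) C.nil)) (C.cons (nat_lit 176) (C.node (nat_lit 1) (nat_lit 4) (nat_lit 7) (C.cons (nat_lit 1170) (C.node (nat_lit 4) (nat_lit 9) (nat_lit 10) (C.cons (nat_lit 1560) (C.miq (nat_lit 873896560) (nat_lit 99142782779764996044949377)) (C.cons (nat_lit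 1552) (C.node (nat_lit 1) (nat_lit 2) (nat_lit 7) (C.cons (nat_lit 398) (C.miq (nat_lit 1194762528) (nat_lit 241806138200265074888475655)) (C.cons (nat_lit 390) (C.miq (nat_lit 2759984753) (nat_lit 334891470946431317351727299)) (C.cons (nat_lit 142) (C.miq (nat_lit 1194762528) (nat_lit 241806138200263975376847879)) (C.cons (nat_lit 134) (C.node (nat_lit 2) (nat_lit 3) (nat_lit 4) (C.cons (nat_lit 62) (C.miq (nat_lit 2269448483) (nat_lit 212776423475880891428766285)) (C.cons (nat_lit 60) (C.miq (nat_lit 2269448483) (nat_lit 212776423475880891428635213)) (C.cons (nat_lit 30) (C.miq (nat_lit 2537753106) (nat_lit 184976516074016134030820359)) (C.cons (nat_lit 28) (C.node (nat_lit 3) (nat_lit 7) (nat_lit 9) (C.cons (nat_lit 682) (C.miq (nat_lit 910266535) (nat_lit 99144498053651506977179521)) (C.cons (nat_lit 680) (C.miq (nat_lit 1464351008) (nat_lit 560947059175583647660311117)) (C.cons (nat_lit 650) (C.miq (nat_lit 910266535)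 (nat_lit 99143907757841148271527809)) (C.cons (nat_lit 648) (C.node (nat_lit 1) (nat_lit 2) (nat_lit 4) (C.cons (nat_lit 54) (C.node (nat_lit 1) (nat_lit 7) (nat_lit 9) (C.cons (nat_lit 674) (C.miq (nat_lit 2270300436) (nat_lit 199477870525238556444983827)) (C.cons (nat_lit 642) (C.node (nat_lit 2) (nat_lit 5) (nat_lit 9) (C.cons (nat_lit 804) (C.miq (nat_lit 1380157808) (nat_lit 33855401858508224592414593)) (C.cons (nat_lit 548) (C.node (nat_lit 1) (nat_lit 2) (nat_lit 3) (C.cons (nat_lit 270) (C.node (nat_lit 1) (nat_lit 2) (nat_lit 6) (C.cons (nat_lit 70) (C.node (nat_lit 1) (nat_lit 2) (nat_lit 9) (C.cons (nat_lit 518) (C.node (nat_lit 1) (nat_lit 3) (nat_lit 4) (C.cons (nat_lit 26) (C.node (nat_lit 1) (nat_lit 4) (nat_lit 8) C.nil) C.nil)) C.nil)) C.nil)) (C.cons (nat_lit 14) (C.node (nat_lit 1) (nat_lit 2) (nat_lit 6) (C.cons (nat_lit 326) (C.node (nat_lit 1) (nat_lit 2) (nat_lit 9) (C.cons (nat_lit 518) (C.node (nat_lit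 2) (nat_lit 5) (nat_lit 6) (C.cons (nat_lit 100) (C.node (nat_lit 2) (nat_lit 8) (nat_lit 9) C.nil) C.nil)) C.nil)) (C.cons (nat_lit 70) (C.node (nat_lit 1) (nat_lit 2) (nat_lit 8) (C.cons (nat_lit 774) (C.node (nat_lit 1) (nat_lit 6) (nat_lit 9) (C.cons (nat_lit 610) (C.miq (nat_lit 2219909225) (nat_lit 65296272117076478593729101)) (C.cons (nat_lit 578) (C.node (nat_lit 1) (nat_lit 3) (nat_lit 4) C.nil) C.nil))) (C.cons (nat_lit 262) (C.node (nat_lit 1) (nat_lit 2) (nat_lit 9) (C.cons (nat_lit 518) (C.node (nat_lit 1) (nat_lit 3) (nat_lit 4) C.nil) C.nil)) C.nil))) C.nil))) C.nil))) C.nil))) C.nil))) (C.cons (nat_lit 22) (C.node (nat_lit 2) (nat_lit 4) (nat_lit 5) (C.cons (nat_lit 52) (C.node (nat_lit 1) (nat_lit 7) (nat_lit 9) (C.cons (nat_lit 674) (C.node (nat_lit 5) (nat_lit 6) (nat_lit 7) (C.cons (nat_lit 224) (C.node (nat_lit 6) (nat_lit 7) (nat_lit 9) C.nil) C.nil)) (C.cons (nat_lit 642) (C.node (nat_lit 2) (nat_lit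 3) (nat_lit 7) (C.cons (nat_lit 396) (C.node (nat_lit 2) (nat_lit 8) (nat_lit 10) (C.cons (nat_lit 1316) (C.miq (nat_lit 1379182704) (nat_lit 33870897267644194820261761)) (C.cons (nat_lit 1284) (C.node (nat_lit 3) (nat_lit 4) (nat_lit 10) (C.cons (nat_lit 1304) (C.miq (nat_lit 1412565639) (nat_lit 33852966982024428151113601)) (C.cons (nat_lit 1048) (C.node (nat_lit 4) (nat_lit 8) (nat_lit 10) (C.cons (nat_lit 1296) (C.node (nat_lit 1) (nat_lit 3) (nat_lit 7) C.nil) C.nil)) C.nil))) C.nil))) (C.cons (nat_lit 140) (C.node (nat_lit 2) (nat_lit 7) (nat_lit 8) (C.cons (nat_lit 388) (C.node (nat_lit 3) (nat_lit 4) (nat_lit 10)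
  (C.cons (nat_lit 1048) (C.node (nat_lit 4) (nat_lit 8) (nat_lit 10) C.nil) C.nil)) C.nil)) C.nil))) C.nil))) C.nil)) C.nil))) C.nil))))) C.nil))))) C.nil))))) C.nil))) (C.cons (nat_lit 146) (C.node (nat_lit 4) (nat_lit 7) (nat_lit 10) (C.cons (nat_lit 1168) (C.node (nat_lit 4) (nat_lit 9) (nat_lit 10) (C.cons (nat_lit 1560) (C.node (nat_lit 3) (nat_lit 7) (nat_lit 9) (C.cons (nat_lit 682) (C.miq (nat_lit 373518505) (nat_lit 106398052860438141226977153)) (C.cons (nat_lit 680) (C.miq (nat_lit 1464351008) (nat_lit 560947059175583647660311117)) (C.cons (nat_lit 650) (C.miq (nat_lit 373518505) (nat_lit 106397462564627782521325441)) (C.cons (nat_lit 648) (C.node (nat_lit 1) (nat_lit 4) (nat_lit 10) (C.cons (nat_lit 1298) (C.node (nat_lit 3) (nat_lit 4) (nat_lit 8) (C.cons (nat_lit 280) (C.node (nat_lit 3) (nat_lit 8) (nat_lit 9) (C.cons (nat_lit 778) (C.miq (nat_lit 910266536) (nat_lit 99146268941082583102523265)) (C.cons (nat_lit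 776) (C.node (nat_lit 6) (nat_lit 8) (nat_lit 10) (C.cons (nat_lit 1352) (C.miq (nat_lit 423116906) (nat_lit 938150380044225657027691633)) (C.cons (nat_lit 1344) (C.node (nat_lit 3) (nat_lit 8) (nat_lit 10) (C.cons (nat_lit 1292) (C.miq (nat_lit 2474902177) (nat_lit 338509024878993619155026951)) (C.cons (nat_lit 1288) (C.node (nat_lit 5) (nat_lit 6) (nat_lit 7) (C.cons (nat_lit 736) (C.node (nat_lit 1) (nat_lit 7) (nat_lit 9) (C.cons (nat_lit 642) (C.node (nat_lit 1) (nat_lit 2) (nat_lit 4) (C.cons (nat_lit 62) (C.miq (nat_lit 2033322565) (nat_lit 712060352006508876392170609)) (C.cons (nat_lit 54) (C.miq (nat_lit 2220335392) (nat_lit 212806380812895082506421255)) (C.cons (nat_lit 30) (C.miq (nat_lit 2218369312) (nat_lit 1885959715159541757248340999)) C.nil)))) C.nil)) C.nil)) C.nil))) C.nil))) C.nil))) C.nil)) (C.cons (nat_lit 1042) (C.node (nat_lit 4) (nat_lit 8) (nat_lit 10) (C.cons (nat_lit 1296) (C.node (nat_lit 1) (nat_lit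 7) (nat_lit 9) (C.cons (nat_lit 674) (C.node (nat_lit 1) (nat_lit 9) (nat_lit 10) (C.cons (nat_lit 1538) (C.node (nat_lit 3) (nat_lit 5) (nat_lit 9) (C.cons (nat_lit 552) (C.node (nat_lit 5) (nat_lit 6) (nat_lit 7) (C.cons (nat_lit 224) (C.node (nat_lit 5) (nat_lit 7) (nat_lit 8) (C.cons (nat_lit 416) (C.node (nat_lit 5) (nat_lit 9) (nat_lit 10) (C.cons (nat_lit 1568) (C.node (nat_lit 1) (nat_lit 7) (nat_lit 10) C.nil) C.nil)) C.nil)) C.nil)) C.nil)) C.nil)) (C.cons (nat_lit 642) (C.node (nat_lit 1) (nat_lit 9) (nat_lit 10) (C.cons (nat_lit 1570) (C.node (nat_lit 3) (nat_lit 5) (nat_lit 9) (C.cons (nat_lit 552) (C.node (nat_lit 2) (nat_lit 5) (nat_lit 9) (C.cons (nat_lit 804) (C.miq (nat_lit 1500742208) (nat_lit 783389410019578312910242069)) (C.cons (nat_lit 548) (C.node (nat_lit 5) (nat_lit 7) (nat_lit 10) (C.cons (nat_lit 1192) (C.miq (nat_lit 1359456579) (nat_lit 235762523785706544926623256)) (C.cons (nat_lit 1184) (C.node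 (nat_lit 3) (nat_lit 4) (nat_lit 5) (C.cons (nat_lit 62) (C.miq (nat_lit 932266149) (nat_lit 776131519933798422325363825)) (C.cons (nat_lit 60) (C.miq (nat_lit 2033322565) (nat_lit 712060352006508876392039537)) (C.cons (nat_lit 58) (C.miq (nat_lit 932266149) (nat_lit 776131446146822127487157361)) (C.cons (nat_lit 56) (C.node (nat_lit 1) (nat_lit 2) (nat_lit 9) (C.cons (nat_lit 774) (C.node (nat_lit 4) (nat_lit 5) (nat_lit 9) C.nil) (C.cons (nat_lit 518) (C.node (nat_lit 4) (nat_lit 5) (nat_lit 9) C.nil) C.nil))) C.nil))))) C.nil))) C.nil))) C.nil)) (C.cons (nat_lit 1538) (C.node (nat_lit 5) (nat_lit 9) (nat_lit 10) (C.cons (nat_lit 1568) (C.node (nat_lit 3) (nat_lit 4) (nat_lit 8) (C.cons (nat_lit 282) (C.node (nat_lit 1) (nat_lit 3) (nat_lit 6) C.nil) (C.cons (nat_lit 280) (C.node (nat_lit 1) (nat_lit 4) (nat_lit 8) (C.cons (nat_lit 306) (C.node (nat_lit 5) (nat_lit 6) (nat_lit 7) C.nil) (C.cons (nat_lit 274) (C.node (nat_lit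 5) (nat_lit 6) (nat_lit 7) C.nil) C.nil))) C.nil))) C.nil)) C.nil))) C.nil))) C.nil)) C.nil))) C.nil))))) (C.cons (nat_lit 1552) (C.node (nat_lit 5) (nat_lit 6) (nat_lit 7) (C.cons (nat_lit 736)
  (C.node (nat_lit 1) (nat_lit 6) (nat_lit 9) (C.cons (nat_lit 834) (C.node (nat_lit 1) (nat_lit 2) (nat_lit 6) (C.cons (nat_lit 102) (C.miq (nat_lit 1386832135) (nat_lit 1861759339038882055139164355)) (C.cons (nat_lit 70) (C.node (nat_lit 1) (nat_lit 5) (nat_lit 6) (C.cons (nat_lit 98) (C.node (nat_lit 2) (nat_lit 8) (nat_lit 9) (C.cons (nat_lit 804) (C.miq (nat_lit 899090468) (nat_lit 889772225671811871425167637)) (C.cons (nat_lit 772) (C.node (nat_lit 3) (nat_lit 8) (nat_lit 9) (C.cons (nat_lit 792) (C.miq (nat_lit 2222274848) (nat_lit 212776423158095642729185869)) (C.cons (nat_lit 776) (C.node (nat_lit 5) (nat_lit 7) (nat_lit 8) (C.cons (nat_lit 418) (C.miq (nat_lit 638912903) (nat_lit 118477774200798164509919105)) (C.cons (nat_lit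 416) (C.node (nat_lit 1) (nat_lit 2) (nat_lit 7) (C.cons (nat_lit 390) (C.miq (nat_lit 2759984753) (nat_lit 334891470946431317351727299)) (C.cons (nat_lit 142) (C.node (nat_lit 1) (nat_lit 7) (nat_lit 8) C.nil) C.nil))) C.nil))) C.nil))) C.nil))) C.nil)) C.nil))) (C.cons (nat_lit 578) (C.node (nat_lit 6) (nat_lit 8) (nat_lit 9) (C.cons (nat_lit 832) (C.node (nat_lit 1) (nat_lit 7) (nat_lit 9) (C.cons (nat_lit 650) (C.node (nat_lit 1) (nat_lit 2) (nat_lit 7) (C.cons (nat_lit 390) (C.miq (nat_lit 2759984753) (nat_lit 334891470946431317351727299)) (C.cons (nat_lit 134) (C.node (nat_lit 1) (nat_lit 7) (nat_lit 10) (C.cons (nat_lit 1186) (C.miq (nat_lit 325417226) (nat_lit 125750163261354118369838977)) (C.cons (nat_lit 1154) (C.node (nat_lit 2) (nat_lit 3) (nat_lit 7) (C.cons (nat_lit 396) (C.miq (nat_lit 394564384) (nat_lit 560951375705251512522703437)) C.nil)) C.nil))) C.nil))) (C.cons (nat_lit 642) (C.node (nat_lit 3) (nat_lit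 7) (nat_lit 9) (C.cons (nat_lit 648) (C.node (nat_lit 5) (nat_lit 7) (nat_lit 8) (C.cons (nat_lit 418) (C.node (nat_lit 3) (nat_lit 8) (nat_lit 9) (C.cons (nat_lit 792) (C.miq (nat_lit 2222274848) (nat_lit 212776423158095642729185869)) (C.cons (nat_lit 778) (C.miq (nat_lit 655951235) (nat_lit 776141241371296511591842089)) C.nil))) (C.cons (nat_lit 416) (C.node (nat_lit 1) (nat_lit 7) (nat_lit 8) (C.cons (nat_lit 386) (C.node (nat_lit 1) (nat_lit 7) (nat_lit 2) C.nil) C.nil)) C.nil))) C.nil)) C.nil))) C.nil)) C.nil))) (C.cons (nat_lit 224) (C.node (nat_lit 6) (nat_lit 7) (nat_lit 9) (C.cons (nat_lit 704) (C.node (nat_lit 5) (nat_lit 7) (nat_lit 8) (C.cons (nat_lit 418) (C.node (nat_lit 5) (nat_lit 7) (nat_lit 9) (C.cons (nat_lit 680) (C.miq (nat_lit 1464351008) (nat_lit 560947059175583647660311117)) (C.cons (nat_lit 672) (C.node (nat_lit 1) (nat_lit 2) (nat_lit 7) (C.cons (nat_lit 134) (C.node (nat_lit 1) (nat_lit 7) (nat_lit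 9) C.nil) C.nil)) C.nil))) (C.cons (nat_lit 416) (C.ref (nat_lit 115) (nat_lit 7306967418640)) C.nil))) C.nil)) C.nil))) C.nil))) C.nil)) C.nil))) C.nil))) C.nil))) C.nil))) C.nil)) C.nil))) C.nil)) (C.cons (nat_lit 208) (C.ref (nat_lit 161) (nat_lit 11649936536080)) C.nil))) C.nil))) List.nil)

theorem ok11_162 : okL par11 (nat_lit 163) c11_162 (nat_lit 162) = true := by decide +kernel

noncomputable def c11_163 : List C :=
  (List.cons (C.node (nat_lit 2) (nat_lit 4) (nat_lit 10) (C.cons (nat_lit 1052) (C.node (nat_lit 2) (nat_lit 7) (nat_lit 10) (C.cons (nat_lit 1156) (C.node (nat_lit 4) (nat_lit 9) (nat_lit 10) (C.cons (nat_lit 1552) (C.node (nat_lit 4) (nat_lit 7) (nat_lit 10) (C.cons (nat_lit 1170) (C.miq (nat_lit 1665598113) (nat_lit 184969247681925916757459975)) (C.cons (nat_lit 1168) (C.node (nat_lit 1) (nat_lit 2) (nat_lit 4) (C.cons (nat_lit 54) (C.node (nat_lit 2) (nat_lit 3) (nat_lit 5) (C.cons (nat_lit 44) (C.node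 (nat_lit 4) (nat_lit 5) (nat_lit 7) (C.cons (nat_lit 432) (C.miq (nat_lit 843385208) (nat_lit 65287473107971463160268673)) (C.cons (nat_lit 176) (C.node (nat_lit 1) (nat_lit 4) (nat_lit 10) (C.cons (nat_lit 1298) (C.miq (nat_lit 2220335392) (nat_lit 212806380812895082506421255)) (C.cons (nat_lit 1042) (C.node (nat_lit 4) (nat_lit 8) (nat_lit 10) (C.cons (nat_lit 1296) (C.node (nat_lit 1) (nat_lit 2) (nat_lit 7) (C.cons (nat_lit 398) (C.miq (nat_lit 1681328673) (nat_lit 184969247836174203944305671)) (C.cons (nat_lit 390) (C.miq (nat_lit 2169139792) (nat_lit 1259736140343584669012394149)) (C.cons (nat_lit 142) (C.miq (nat_lit 1681328673) (nat_lit 184969247836174203927528455)) (C.cons (nat_lit 134) (C.node (nat_lit 1) (nat_lit 2) (nat_lit 3) (C.cons (nat_lit 270) (C.node (nat_lit 1) (nat_lit 2) (nat_lit 6) (C.cons (nat_lit 70) (C.node (nat_lit 1) (nat_lit 2) (nat_lit 9) (C.cons (nat_lit 518) (C.node (nat_lit 2) (nat_lit 3) (nat_lit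 7) (C.cons (nat_lit 140) (C.node (nat_lit 2) (nat_lit 7) (nat_lit 8) (C.cons (nat_lit 388) (C.node (nat_lit 2) (nat_lit 8) (nat_lit 9) (C.cons (nat_lit 804) (C.miq (nat_lit 1380157808) (nat_lit 1271795441143888499491538817)) (C.cons (nat_lit 772) (C.node (nat_lit 2) (nat_lit 8) (nat_lit 10) (C.cons (nat_lit 1316) (C.miq (nat_lit 2182718784) (nat_lit 626259011126164809860711537)) (C.cons (nat_lit 1284) (C.node (nat_lit 2) (nat_lit 5) (nat_lit 6) (C.cons (nat_lit 356) (C.node (nat_lit 2) (nat_lit 5) (nat_lit 9) (C.cons (nat_lit 1572) (C.node (nat_lit 3) (nat_lit 8) (nat_lit 9) (C.cons (nat_lit 792) (C.miq (nat_lit 874875248) (nat_lit 65287473165110883415033729)) (C.cons (nat_lit 776) (C.node (nat_lit 3) (nat_lit 4) (nat_lit 8) (C.cons (nat_lit 344) (C.miq (nat_lit 1921189220) (nat_lit 326412793694238054920225905)) (C.cons (nat_lit 280) (C.node (nat_lit 3) (nat_lit 8) (nat_lit 10) (C.cons (nat_lit 1352) (C.miq (nat_lit 359146659)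 (nat_lit 430382572418912419983131676)) (C.cons (nat_lit 1288) (C.node (nat_lit 4) (nat_lit 5) (nat_lit 8) (C.cons (nat_lit 816) (C.miq (nat_lit 2234160144) (nat_lit 1900466824859246471678460435)) C.nil)) C.nil))) C.nil))) C.nil))) C.nil)) C.nil)) C.nil))) C.nil))) C.nil)) C.nil)) C.nil)) C.nil)) (C.cons (nat_lit 14) (C.node (nat_lit 1) (nat_lit 2) (nat_lit 6) (C.cons (nat_lit 326) (C.node (nat_lit 1) (nat_lit 2) (nat_lit 9) (C.cons (nat_lit 518) (C.node (nat_lit 2) (nat_lit 5) (nat_lit 6) (C.cons (nat_lit 100) (C.node (nat_lit 1) (nat_lit 4) (nat_lit 7) (C.cons (nat_lit 402) (C.miq (nat_lit 880936726) (nat_lit 334883317208579094354460867)) (C.cons (nat_lit 146) (C.node (nat_lit 2) (nat_lit 8) (nat_lit 9) (C.cons (nat_lit 804) (C.miq (nat_lit 1380157808) (nat_lit 1271795441143888499491538817)) (C.cons (nat_lit 772) (C.node (nat_lit 2) (nat_lit 5) (nat_lit 8) (C.cons (nat_lit 1316) (C.miq (nat_lit 2182718784) (nat_lit 626259011126164809860711537))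 (C.cons (nat_lit 292) (C.node (nat_lit 2) (nat_lit 8) (nat_lit 10) (C.cons (nat_lit 1284) (C.node (nat_lit 2) (nat_lit 3) (nat_lit 7) (C.cons (nat_lit 396) (C.node (nat_lit 2) (nat_lit 5) (nat_lit 9) (C.cons (nat_lit 1572) (C.node (nat_lit 3) (nat_lit 6) (nat_lit 7) (C.cons (nat_lit 232) (C.miq (nat_lit 2220302435) (nat_lit 212778249240801375672599117)) (C.cons (nat_lit 200) (C.node (nat_lit 1) (nat_lit 7) (nat_lit 9) (C.cons (nat_lit 682) (C.miq (nat_lit 321165184) (nat_lit 1271799757647660666504677249)) (C.cons (nat_lit 674) (C.miq (nat_lit 1965592896) (nat_lit 353041775712551681312227859)) (C.cons (nat_lit 650)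
  (C.miq (nat_lit 321165184) (nat_lit 1271799757638653467249936257)) C.nil)))) C.nil))) C.nil)) C.nil)) C.nil)) C.nil))) C.nil))) C.nil))) C.nil)) C.nil)) (C.cons (nat_lit 70) (C.node (nat_lit 1) (nat_lit 2) (nat_lit 8) (C.cons (nat_lit 774) (C.node (nat_lit 1) (nat_lit 4) (nat_lit 7) (C.cons (nat_lit 402) (C.miq (nat_lit 840173959) (nat_lit 65284816776825338609141633)) (C.cons (nat_lit 146) (C.node (nat_lit 1) (nat_lit 6) (nat_lit 9) (C.cons (nat_lit 610) (C.miq (nat_lit 2219909225) (nat_lit 65296272117076478593729101)) (C.cons (nat_lit 578) (C.node (nat_lit 2) (nat_lit 3) (nat_lit 7) (C.cons (nat_lit 396) (C.miq (nat_lit 305436784) (nat_lit 1271799757673556364353931137)) (C.cons (nat_lit 140) (C.node (nat_lit 2) (nat_lit 3) (nat_lit 8) (C.cons (nat_lit 268) (C.node (nat_lit 2) (nat_lit 7) (nat_lit 8) (C.cons (nat_lit 388) (C.node (nat_lit 2) (nat_lit 5) (nat_lit 6) (C.cons (nat_lit 356) (C.miq (nat_lit 2235639305) (nat_lit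 65296272139313001748693581)) (C.cons (nat_lit 100) (C.node (nat_lit 2) (nat_lit 6) (nat_lit 8) C.nil) C.nil))) C.nil)) C.nil)) C.nil))) C.nil))) C.nil))) (C.cons (nat_lit 262) (C.node (nat_lit 1) (nat_lit 2) (nat_lit 9) (C.cons (nat_lit 518) (C.node (nat_lit 2) (nat_lit 8) (nat_lit 9) (C.cons (nat_lit 804) (C.miq (nat_lit 1380157808) (nat_lit 1271795441143888499491538817)) (C.cons (nat_lit 772) (C.node (nat_lit 2) (nat_lit 8) (nat_lit 10) (C.cons (nat_lit 1316) (C.miq (nat_lit 2182718784) (nat_lit 626259011126164809860711537)) (C.cons (nat_lit 1284) (C.node (nat_lit 4) (nat_lit 5) (nat_lit 8) (C.cons (nat_lit 816) (C.miq (nat_lit 1386758409) (nat_lit 1552275804943552084296401427)) (C.cons (nat_lit 304) (C.node (nat_lit 1) (nat_lit 4) (nat_lit 7) (C.cons (nat_lit 402) (C.node (nat_lit 4) (nat_lit 6) (nat_lit 7) (C.cons (nat_lit 208) (C.node (nat_lit 2) (nat_lit 3) (nat_lit 7) (C.cons (nat_lit 396) (C.miq (nat_lit 405358384)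 (nat_lit 933300528076751504128409753)) (C.cons (nat_lit 140) (C.node (nat_lit 2) (nat_lit 7) (nat_lit 8) C.nil) C.nil))) C.nil)) (C.cons (nat_lit 146) (C.node (nat_lit 2) (nat_lit 3) (nat_lit 7) (C.cons (nat_lit 396) (C.node (nat_lit 2) (nat_lit 5) (nat_lit 6) (C.cons (nat_lit 356) (C.miq (nat_lit 1951936610) (nat_lit 367520754116571012930994765)) C.nil)) (C.cons (nat_lit 140) (C.node (nat_lit 1) (nat_lit 6) (nat_lit 10) C.nil) C.nil))) C.nil))) C.nil))) C.nil))) C.nil))) C.nil)) C.nil))) C.nil))) C.nil))) C.nil))))) C.nil)) C.nil))) C.nil))) C.nil)) (C.cons (nat_lit 22) (C.node (nat_lit 2) (nat_lit 4) (nat_lit 5) (C.cons (nat_lit 52) (C.node (nat_lit 1) (nat_lit 4) (nat_lit 10) (C.cons (nat_lit 1298) (C.node (nat_lit 1) (nat_lit 6) (nat_lit 10) (C.cons (nat_lit 1098) (C.miq (nat_lit 2170571314) (nat_lit 235745644938320342296626204)) (C.cons (nat_lit 1090) (C.node (nat_lit 4) (nat_lit 6) (nat_lit 9) (C.cons (nat_lit 848) (C.miq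 (nat_lit 342010000) (nat_lit 101568787806127007164336001)) (C.cons (nat_lit 592) (C.node (nat_lit 3) (nat_lit 4) (nat_lit 8) (C.cons (nat_lit 792) (C.miq (nat_lit 874875248) (nat_lit 62869621525881625065621377)) (C.cons (nat_lit 344) (C.miq (nat_lit 408986674) (nat_lit 388084207054791956906181660)) (C.cons (nat_lit 280) (C.node (nat_lit 1) (nat_lit 2) (nat_lit 7) (C.cons (nat_lit 398) (C.miq (nat_lit 1410468487) (nat_lit 26599412064336627333203841)) (C.cons (nat_lit 390) (C.miq (nat_lit 1410468487) (nat_lit 26599412064336627332679553)) (C.cons (nat_lit 142) (C.miq (nat_lit 1681328673) (nat_lit 184969247836174203927528455)) (C.cons (nat_lit 134) (C.node (nat_lit 2) (nat_lit 8) (nat_lit 9) (C.cons (nat_lit 806) (C.miq (nat_lit 1380157808) (nat_lit 1271795441144451449444960129)) (C.cons (nat_lit 804) (C.miq (nat_lit 1380157808) (nat_lit 1271795441143888499491538817)) (C.cons (nat_lit 774) (C.miq (nat_lit 1678903945) (nat_lit 26607233483823880207730561))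 (C.cons (nat_lit 772) (C.node (nat_lit 1) (nat_lit 2) (nat_lit 9) (C.cons (nat_lit 550) (C.node (nat_lit 2) (nat_lit 3) (nat_lit 5) (C.cons (nat_lit 44) (C.node (nat_lit 2) (nat_lit 9) (nat_lit 10)
  (C.cons (nat_lit 1540) (C.node (nat_lit 1) (nat_lit 2) (nat_lit 3) (C.cons (nat_lit 270) (C.miq (nat_lit 1686309394) (nat_lit 338510094944398207248892935)) (C.cons (nat_lit 14) (C.node (nat_lit 1) (nat_lit 4) (nat_lit 7) (C.cons (nat_lit 178) (C.miq (nat_lit 844564756) (nat_lit 199475582754048214914171411)) (C.cons (nat_lit 146) (C.node (nat_lit 1) (nat_lit 9) (nat_lit 10) (C.cons (nat_lit 1546) (C.miq (nat_lit 826448512) (nat_lit 26607233598947145649817473)) (C.cons (nat_lit 1538) (C.node (nat_lit 4) (nat_lit 5) (nat_lit 7) (C.cons (nat_lit 432) (C.miq (nat_lit 340961392) (nat_lit 62883161578457086839555969)) (C.cons (nat_lit 176) (C.node (nat_lit 1) (nat_lit 2) (nat_lit 6) (C.cons (nat_lit 326) (C.node (nat_lit 1) (nat_lit 6)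 (nat_lit 9) C.nil) (C.cons (nat_lit 70) (C.node (nat_lit 1) (nat_lit 2) (nat_lit 8) C.nil) C.nil))) C.nil))) C.nil))) C.nil))) C.nil))) C.nil)) C.nil)) (C.cons (nat_lit 518) (C.node (nat_lit 1) (nat_lit 4) (nat_lit 6) (C.cons (nat_lit 90) (C.node (nat_lit 1) (nat_lit 4) (nat_lit 5) (C.cons (nat_lit 178) (C.miq (nat_lit 829580368) (nat_lit 162006924985953236755481713)) (C.cons (nat_lit 50) (C.node (nat_lit 1) (nat_lit 4) (nat_lit 7) (C.cons (nat_lit 146) (C.node (nat_lit 3) (nat_lit 8) (nat_lit 9) (C.cons (nat_lit 778) (C.node (nat_lit 1) (nat_lit 2) (nat_lit 3) (C.cons (nat_lit 46) (C.miq (nat_lit 2435285840) (nat_lit 162031496242713634919481641)) (C.cons (nat_lit 14) (C.node (nat_lit 2) (nat_lit 3) (nat_lit 5) (C.cons (nat_lit 44) (C.node (nat_lit 1) (nat_lit 7) (nat_lit 8) (C.cons (nat_lit 418) (C.miq (nat_lit 1378971800) (nat_lit 16932672260073519982446465)) (C.cons (nat_lit 386) (C.node (nat_lit 3) (nat_lit 6) (nat_lit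 10) (C.cons (nat_lit 1352) (C.node (nat_lit 2) (nat_lit 3) (nat_lit 7) (C.cons (nat_lit 396) (C.miq (nat_lit 1663412336) (nat_lit 53213710391611360777930625)) (C.cons (nat_lit 140) (C.node (nat_lit 2) (nat_lit 3) (nat_lit 8) C.nil) C.nil))) (C.cons (nat_lit 1096) (C.miq (nat_lit 2321749001) (nat_lit 1324997050229882324695974419)) C.nil))) C.nil))) C.nil)) C.nil))) (C.cons (nat_lit 776) (C.miq (nat_lit 328746506) (nat_lit 938150379920095192335582321)) C.nil))) C.nil)) C.nil))) (C.cons (nat_lit 82) (C.node (nat_lit 3) (nat_lit 4) (nat_lit 6) (C.cons (nat_lit 88) (C.node (nat_lit 3) (nat_lit 8) (nat_lit 9) (C.cons (nat_lit 778) (C.miq (nat_lit 910266536) (nat_lit 99146268941082583102523265)) (C.cons (nat_lit 776) (C.node (nat_lit 3) (nat_lit 6) (nat_lit 10) (C.cons (nat_lit 1352) (C.miq (nat_lit 423116906) (nat_lit 938150380044225657027691633)) (C.cons (nat_lit 1096) (C.node (nat_lit 3) (nat_lit 8) (nat_lit 10) (C.cons (nat_lit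 1288) (C.node (nat_lit 6) (nat_lit 8) (nat_lit 10) (C.cons (nat_lit 1344) (C.node (nat_lit 1) (nat_lit 3) (nat_lit 4) (C.cons (nat_lit 58) (C.node (nat_lit 1) (nat_lit 4) (nat_lit 7) C.nil) (C.cons (nat_lit 26) (C.node (nat_lit 1) (nat_lit 4) (nat_lit 5) (C.cons (nat_lit 50) (C.node (nat_lit 1) (nat_lit 4) (nat_lit 7) C.nil) C.nil)) C.nil))) C.nil)) C.nil)) C.nil))) C.nil))) C.nil)) C.nil))) C.nil))) C.nil))))) C.nil))))) C.nil)))) C.nil))) C.nil))) (C.cons (nat_lit 1042) (C.node (nat_lit 4) (nat_lit 8) (nat_lit 10) (C.cons (nat_lit 1296) (C.node (nat_lit 2) (nat_lit 3) (nat_lit 5) (C.cons (nat_lit 46) (C.node (nat_lit 3) (nat_lit 8) (nat_lit 9) (C.cons (nat_lit 792) (C.miq (nat_lit 874875248) (nat_lit 62869621525881625065621377)) (C.cons (nat_lit 778) (C.miq (nat_lit 309933320) (nat_lit 797905392525493159061422377)) (C.cons (nat_lit 776) (C.node (nat_lit 1) (nat_lit 2) (nat_lit 6) (C.cons (nat_lit 326) (C.node (nat_lit 1)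 (nat_lit 2) (nat_lit 7) (C.cons (nat_lit 134) (C.node (nat_lit 1) (nat_lit 2) (nat_lit 9) (C.cons (nat_lit 518) (C.node (nat_lit 2) (nat_lit 5) (nat_lit 6) (C.cons (nat_lit 100) (C.node (nat_lit 2) (nat_lit 8) (nat_lit 9) (C.cons (nat_lit 804) (C.miq (nat_lit 1380157808) (nat_lit 1271795441143888499491538817)) (C.cons (nat_lit 772) (C.node (nat_lit 1) (nat_lit 8) (nat_lit 10) (C.cons (nat_lit 1314)
  (C.miq (nat_lit 2555578898) (nat_lit 359061834098523353664848903)) (C.cons (nat_lit 1290) (C.miq (nat_lit 2016741906) (nat_lit 359054012679035997735748615)) (C.cons (nat_lit 1282) (C.node (nat_lit 1) (nat_lit 4) (nat_lit 6) (C.cons (nat_lit 90) (C.node (nat_lit 1) (nat_lit 6) (nat_lit 10) (C.cons (nat_lit 1090) (C.node (nat_lit 3) (nat_lit 4) (nat_lit 8) (C.cons (nat_lit 280) (C.node (nat_lit 1) (nat_lit 3) (nat_lit 8) (C.cons (nat_lit 394) (C.miq (nat_lit 2202693984) (nat_lit 1271825398540857015285121219)) (C.cons (nat_lit 266)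 (C.node (nat_lit 2) (nat_lit 5) (nat_lit 8) (C.cons (nat_lit 292) (C.node (nat_lit 2) (nat_lit 8) (nat_lit 10) (C.cons (nat_lit 1284) (C.node (nat_lit 5) (nat_lit 8) (nat_lit 10) C.nil) C.nil)) C.nil)) C.nil))) C.nil)) C.nil)) (C.cons (nat_lit 82) (C.node (nat_lit 1) (nat_lit 3) (nat_lit 4) (C.cons (nat_lit 282) (C.node (nat_lit 3) (nat_lit 4) (nat_lit 6) (C.cons (nat_lit 88) (C.node (nat_lit 1) (nat_lit 3) (nat_lit 6) (C.cons (nat_lit 74) (C.node (nat_lit 1) (nat_lit 4) (nat_lit 5) C.nil) C.nil)) C.nil)) (C.cons (nat_lit 26) (C.node (nat_lit 1) (nat_lit 3) (nat_lit 6) (C.cons (nat_lit 74) (C.node (nat_lit 1) (nat_lit 6) (nat_lit 10) C.nil) C.nil)) C.nil))) C.nil))) C.nil)))) C.nil))) C.nil)) C.nil)) C.nil)) (C.cons (nat_lit 70) (C.node (nat_lit 1) (nat_lit 2) (nat_lit 7) (C.cons (nat_lit 390) (C.node (nat_lit 1) (nat_lit 2) (nat_lit 9) (C.cons (nat_lit 518) (C.node (nat_lit 2) (nat_lit 3) (nat_lit 7) (C.cons (nat_lit 140)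 (C.node (nat_lit 2) (nat_lit 3) (nat_lit 8) (C.cons (nat_lit 268) (C.node (nat_lit 2) (nat_lit 8) (nat_lit 9) (C.cons (nat_lit 804) (C.miq (nat_lit 1380157808) (nat_lit 1271795441143888499491538817)) (C.cons (nat_lit 772) (C.node (nat_lit 2) (nat_lit 8) (nat_lit 10) (C.cons (nat_lit 1316) (C.miq (nat_lit 1377216624) (nat_lit 84645781691458594390869889)) (C.cons (nat_lit 1284) (C.node (nat_lit 2) (nat_lit 5) (nat_lit 6) (C.cons (nat_lit 356) (C.node (nat_lit 2) (nat_lit 5) (nat_lit 9) (C.cons (nat_lit 1572) (C.node (nat_lit 3) (nat_lit 5) (nat_lit 6) (C.cons (nat_lit 232) (C.miq (nat_lit 1114048595) (nat_lit 236952283074280693376221481)) (C.cons (nat_lit 104) (C.node (nat_lit 4) (nat_lit 6) (nat_lit 7) (C.cons (nat_lit 464) (C.miq (nat_lit 1210738448) (nat_lit 1552281726463801732381475011)) (C.cons (nat_lit 208) (C.node (nat_lit 4) (nat_lit 6) (nat_lit 9) (C.cons (nat_lit 848) (C.node (nat_lit 1) (nat_lit 5) (nat_lit 6) (C.cons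 (nat_lit 610) (C.miq (nat_lit 354457220) (nat_lit 199482555629218218418438992)) C.nil)) C.nil)) C.nil))) C.nil))) C.nil)) C.nil)) C.nil))) C.nil))) C.nil)) C.nil)) C.nil)) (C.cons (nat_lit 134) (C.node (nat_lit 1) (nat_lit 2) (nat_lit 8) (C.cons (nat_lit 774) (C.node (nat_lit 2) (nat_lit 3) (nat_lit 7) (C.cons (nat_lit 396) (C.miq (nat_lit 305436784) (nat_lit 1271799757673556364353931137)) (C.cons (nat_lit 140) (C.node (nat_lit 2) (nat_lit 3) (nat_lit 8) (C.cons (nat_lit 268) (C.node (nat_lit 2) (nat_lit 7) (nat_lit 8) (C.cons (nat_lit 388) (C.node (nat_lit 2) (nat_lit 8) (nat_lit 10) (C.cons (nat_lit 1316) (C.miq (nat_lit 1377085584) (nat_lit 26617342349958043294435201)) (C.cons (nat_lit 1284) (C.node (nat_lit 2) (nat_lit 5) (nat_lit 6) (C.cons (nat_lit 356) (C.node (nat_lit 2) (nat_lit 5) (nat_lit 9) (C.cons (nat_lit 1572) (C.node (nat_lit 3) (nat_lit 5) (nat_lit 6) (C.cons (nat_lit 232) (C.miq (nat_lit 1114048595) (nat_lit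 236952283074280693376221481)) (C.cons (nat_lit 104) (C.node (nat_lit 4) (nat_lit 6) (nat_lit 9) (C.cons (nat_lit 848) (C.miq (nat_lit 440934505) (nat_lit 1566782140290678046034231885)) (C.cons (nat_lit 592) (C.node (nat_lit 6) (nat_lit 8) (nat_lit 9) (C.cons (nat_lit 832) (C.node (nat_lit 4) (nat_lit 6) (nat_lit 7) C.nil) C.nil)) C.nil))) C.nil))) C.nil)) C.nil)) C.nil))) C.nil)) C.nil)) C.nil))) (C.cons (nat_lit 262) (C.node (nat_lit 1) (nat_lit 2) (nat_lit 9) (C.cons (nat_lit 518) (C.node (nat_lit 2) (nat_lit 8) (nat_lit 9) (C.cons (nat_lit 804) (C.miq (nat_lit 1380157808) (nat_lit 1271795441143888499491538817)) (C.cons (nat_lit 772)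
  (C.node (nat_lit 2) (nat_lit 3) (nat_lit 7) (C.cons (nat_lit 396) (C.node (nat_lit 2) (nat_lit 5) (nat_lit 6) (C.cons (nat_lit 356) (C.miq (nat_lit 1651791920) (nat_lit 797912014993873855592333609)) (C.cons (nat_lit 100) (C.node (nat_lit 2) (nat_lit 8) (nat_lit 10) (C.cons (nat_lit 1316) (C.miq (nat_lit 1379182704) (nat_lit 1271810936553024469719385985)) C.nil)) C.nil))) (C.cons (nat_lit 140) (C.node (nat_lit 2) (nat_lit 3) (nat_lit 8) (C.cons (nat_lit 268) (C.node (nat_lit 2) (nat_lit 7) (nat_lit 8) (C.cons (nat_lit 388) (C.node (nat_lit 2) (nat_lit 5) (nat_lit 6) (C.cons (nat_lit 356) (C.node (nat_lit 2) (nat_lit 8) (nat_lit 10) C.nil) (C.cons (nat_lit 100) (C.node (nat_lit 2) (nat_lit 6) (nat_lit 8) C.nil) C.nil))) C.nil)) C.nil)) C.nil))) C.nil))) C.nil)) C.nil))) C.nil))) C.nil))) C.nil)))) (C.cons (nat_lit 44) (C.node (nat_lit 2) (nat_lit 8) (nat_lit 10) (C.cons (nat_lit 1316) (C.node (nat_lit 2) (nat_lit 9) (nat_lit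 10) (C.cons (nat_lit 1540) (C.node (nat_lit 2) (nat_lit 8) (nat_lit 9) (C.cons (nat_lit 774) (C.miq (nat_lit 1377085584) (nat_lit 26617342349958043294435201)) (C.cons (nat_lit 772) (C.node (nat_lit 2) (nat_lit 3) (nat_lit 7) (C.cons (nat_lit 398) (C.miq (nat_lit 1379182704) (nat_lit 1271810936553024478309320577)) (C.cons (nat_lit 396) (C.miq (nat_lit 1379182704) (nat_lit 1271810936553024469719385985)) (C.cons (nat_lit 142) (C.miq (nat_lit 1681328673) (nat_lit 184969247836174203927528455)) (C.cons (nat_lit 140) (C.node (nat_lit 1) (nat_lit 2) (nat_lit 3) (C.cons (nat_lit 270) (C.node (nat_lit 1) (nat_lit 2) (nat_lit 7) (C.cons (nat_lit 134) (C.node (nat_lit 2) (nat_lit 6) (nat_lit 8) (C.cons (nat_lit 324) (C.node (nat_lit 2) (nat_lit 7) (nat_lit 8) C.nil) C.nil)) C.nil)) (C.cons (nat_lit 14) (C.node (nat_lit 2) (nat_lit 3) (nat_lit 8) (C.cons (nat_lit 268) (C.node (nat_lit 1) (nat_lit 2) (nat_lit 7) (C.cons (nat_lit 390) (C.node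 (nat_lit 2) (nat_lit 6) (nat_lit 8) C.nil) C.nil)) C.nil)) C.nil))) C.nil))))) C.nil))) C.nil)) (C.cons (nat_lit 1284) (C.node (nat_lit 2) (nat_lit 5) (nat_lit 10) (C.cons (nat_lit 1572) (C.node (nat_lit 6) (nat_lit 7) (nat_lit 9) (C.cons (nat_lit 736) (C.miq (nat_lit 311888470) (nat_lit 797894638350957081394152561)) (C.cons (nat_lit 704) (C.node (nat_lit 1) (nat_lit 2) (nat_lit 9) (C.cons (nat_lit 774) (C.node (nat_lit 1) (nat_lit 2) (nat_lit 3) (C.cons (nat_lit 142) (C.miq (nat_lit 1681328673) (nat_lit 184969247836174203927528455)) (C.cons (nat_lit 14) (C.node (nat_lit 1) (nat_lit 2) (nat_lit 7) (C.cons (nat_lit 134) (C.node (nat_lit 1) (nat_lit 2) (nat_lit 5) (C.cons (nat_lit 102) (C.miq (nat_lit 2451023200) (nat_lit 162031496466205006947878001)) (C.cons (nat_lit 38) (C.node (nat_lit 1) (nat_lit 2) (nat_lit 6) (C.cons (nat_lit 70) (C.node (nat_lit 2) (nat_lit 3) (nat_lit 7) (C.cons (nat_lit 396) (C.miq (nat_lit 305436784)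 (nat_lit 1271799757673556364353931137)) C.nil)) C.nil)) C.nil))) C.nil)) C.nil))) (C.cons (nat_lit 518) (C.node (nat_lit 2) (nat_lit 8) (nat_lit 9) (C.cons (nat_lit 772) (C.node (nat_lit 1) (nat_lit 9) (nat_lit 10) (C.cons (nat_lit 1546) (C.node (nat_lit 1) (nat_lit 7) (nat_lit 10) (C.cons (nat_lit 1186) (C.miq (nat_lit 354658057) (nat_lit 53221255063211669740914561)) (C.cons (nat_lit 1154) (C.node (nat_lit 3) (nat_lit 7) (nat_lit 9) (C.cons (nat_lit 680) (C.miq (nat_lit 324184432) (nat_lit 53211755091346912818038657)) (C.cons (nat_lit 648) (C.node (nat_lit 3) (nat_lit 8) (nat_lit 9) (C.cons (nat_lit 792) (C.miq (nat_lit 874875248) (nat_lit 62869621525881625065621377)) (C.cons (nat_lit 776) (C.node (nat_lit 1) (nat_lit 5) (nat_lit 10) (C.cons (nat_lit 1314) (C.node (nat_lit 1) (nat_lit 6) (nat_lit 10) (C.cons (nat_lit 1090) (C.node (nat_lit 3) (nat_lit 5) (nat_lit 10) (C.cons (nat_lit 1192) (C.node (nat_lit 3) (nat_lit 6) (nat_lit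 10) (C.cons (nat_lit 1352) (C.node (nat_lit 3) (nat_lit 6) (nat_lit 7) (C.cons (nat_lit 200) (C.node (nat_lit 1) (nat_lit 2) (nat_lit 5) (C.cons (nat_lit 102) (C.miq (nat_lit 2032208470) (nat_lit 626227172216192467816809585))
  (C.cons (nat_lit 38) (C.node (nat_lit 1) (nat_lit 2) (nat_lit 6) C.nil) C.nil))) C.nil)) C.nil)) C.nil)) C.nil)) (C.cons (nat_lit 1058) (C.node (nat_lit 5) (nat_lit 8) (nat_lit 10) (C.cons (nat_lit 1312) (C.node (nat_lit 1) (nat_lit 6) (nat_lit 10) (C.cons (nat_lit 1090) (C.node (nat_lit 1) (nat_lit 8) (nat_lit 10) (C.cons (nat_lit 1282) (C.node (nat_lit 3) (nat_lit 5) (nat_lit 10) C.nil) C.nil)) C.nil)) C.nil)) C.nil))) C.nil))) C.nil))) C.nil))) (C.cons (nat_lit 1538) (C.node (nat_lit 3) (nat_lit 9) (nat_lit 10) (C.cons (nat_lit 1544) (C.node (nat_lit 4) (nat_lit 6) (nat_lit 7) (C.cons (nat_lit 464) (C.node (nat_lit 4) (nat_lit 6) (nat_lit 9) (C.cons (nat_lit 592) (C.node (nat_lit 1) (nat_lit 2) (nat_lit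 7) (C.cons (nat_lit 398) (C.miq (nat_lit 1681328673) (nat_lit 184969247836174203944305671)) (C.cons (nat_lit 390) (C.miq (nat_lit 1210738448) (nat_lit 1552281726463801732381475011)) (C.cons (nat_lit 142) (C.miq (nat_lit 1681328673) (nat_lit 184969247836174203927528455)) (C.cons (nat_lit 134) (C.node (nat_lit 1) (nat_lit 2) (nat_lit 3) (C.cons (nat_lit 270) (C.node (nat_lit 2) (nat_lit 3) (nat_lit 7) (C.cons (nat_lit 140) (C.node (nat_lit 2) (nat_lit 7) (nat_lit 8) C.nil) C.nil)) (C.cons (nat_lit 14) (C.node (nat_lit 2) (nat_lit 3) (nat_lit 7) (C.cons (nat_lit 396) (C.node (nat_lit 2) (nat_lit 5) (nat_lit 6) (C.cons (nat_lit 358) (C.miq (nat_lit 2451023200) (nat_lit 162031496466206106459505777)) (C.cons (nat_lit 356) (C.miq (nat_lit 1484022320) (nat_lit 560962554349406537349923405)) (C.cons (nat_lit 102) (C.miq (nat_lit 2451023200) (nat_lit 162031496466205006947878001)) C.nil)))) C.nil)) C.nil))) C.nil))))) C.nil)) (C.cons (nat_lit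 208) (C.node (nat_lit 8) (nat_lit 5) (nat_lit 10) (C.cons (nat_lit 1314) (C.node (nat_lit 1) (nat_lit 2) (nat_lit 5) (C.cons (nat_lit 102) (C.miq (nat_lit 2032208470) (nat_lit 626227172216192467816809585)) (C.cons (nat_lit 38) (C.node (nat_lit 3) (nat_lit 8) (nat_lit 9) (C.cons (nat_lit 792) (C.miq (nat_lit 874875248) (nat_lit 62869621525881625065621377)) (C.cons (nat_lit 778) (C.miq (nat_lit 1780024707) (nat_lit 1859338776019601777782030633)) (C.cons (nat_lit 776) (C.node (nat_lit 7) (nat_lit 8) (nat_lit 4) (C.cons (nat_lit 432) (C.miq (nat_lit 843385208) (nat_lit 62869621468742204810856321)) (C.cons (nat_lit 402) (C.miq (nat_lit 1112635816) (nat_lit 45946596922253776282322817)) (C.cons (nat_lit 400) (C.node (nat_lit 1) (nat_lit 7) (nat_lit 10) (C.cons (nat_lit 1162) (C.node (nat_lit 1) (nat_lit 6) (nat_lit 10) C.nil) C.nil)) C.nil)))) C.nil)))) C.nil))) (C.cons (nat_lit 1312) (C.node (nat_lit 9) (nat_lit 4) (nat_lit 6) (C.cons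 (nat_lit 848) (C.node (nat_lit 1) (nat_lit 9) (nat_lit 6) (C.cons (nat_lit 610) (C.node (nat_lit 8) (nat_lit 9) (nat_lit 5) (C.cons (nat_lit 800) (C.node (nat_lit 1) (nat_lit 2) (nat_lit 5) (C.cons (nat_lit 38) (C.node (nat_lit 1) (nat_lit 2) (nat_lit 6) C.nil) C.nil)) C.nil)) (C.cons (nat_lit 578) (C.node (nat_lit 9) (nat_lit 5) (nat_lit 6) (C.cons (nat_lit 608) (C.node (nat_lit 1) (nat_lit 4) (nat_lit 6) C.nil) C.nil)) C.nil))) (C.cons (nat_lit 592) (C.node (nat_lit 1) (nat_lit 2) (nat_lit 3) (C.cons (nat_lit 14) (C.node (nat_lit 1) (nat_lit 2) (nat_lit 7) C.nil) C.nil)) C.nil))) C.nil))) C.nil))) C.nil)) C.nil))) C.nil)) C.nil))) C.nil))) (C.cons (nat_lit 1060) (C.node (nat_lit 2) (nat_lit 9) (nat_lit 10) (C.cons (nat_lit 1540) (C.node (nat_lit 4) (nat_lit 6) (nat_lit 7) (C.cons (nat_lit 464) (C.node (nat_lit 4) (nat_lit 6) (nat_lit 9) (C.cons (nat_lit 592) (C.node (nat_lit 1) (nat_lit 2) (nat_lit 7) (C.cons (nat_lit 398)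 (C.miq (nat_lit 1681328673) (nat_lit 184969247836174203944305671)) (C.cons (nat_lit 390) (C.miq (nat_lit 1210738448) (nat_lit 1552281726463801732381475011)) (C.cons (nat_lit 142) (C.miq (nat_lit 1681328673) (nat_lit 184969247836174203927528455)) (C.cons (nat_lit 134) (C.node (nat_lit 1) (nat_lit 2) (nat_lit 3) (C.cons (nat_lit 270) (C.node (nat_lit 2) (nat_lit 3) (nat_lit 7) (C.cons (nat_lit 140)
  (C.node (nat_lit 2) (nat_lit 7) (nat_lit 8) C.nil) C.nil)) (C.cons (nat_lit 14) (C.node (nat_lit 1) (nat_lit 4) (nat_lit 6) (C.cons (nat_lit 90) (C.node (nat_lit 1) (nat_lit 4) (nat_lit 7) (C.cons (nat_lit 178) (C.miq (nat_lit 829580368) (nat_lit 162006924985953236755481713)) (C.cons (nat_lit 146) (C.node (nat_lit 4) (nat_lit 5) (nat_lit 7) C.nil) C.nil))) (C.cons (nat_lit 82) (C.node (nat_lit 3) (nat_lit 4) (nat_lit 6) (C.cons (nat_lit 88) (C.node (nat_lit 1) (nat_lit 4) (nat_lit 7) (C.cons (nat_lit 146) (C.node (nat_lit 4) (nat_lit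 5) (nat_lit 7) C.nil) C.nil)) C.nil)) C.nil))) C.nil))) C.nil))))) C.nil)) (C.cons (nat_lit 208) (C.node (nat_lit 4) (nat_lit 6) (nat_lit 9) (C.cons (nat_lit 848) (C.node (nat_lit 6) (nat_lit 7) (nat_lit 9) (C.cons (nat_lit 736) (C.miq (nat_lit 610601111) (nat_lit 1374551700692577744446293889)) (C.cons (nat_lit 704) (C.node (nat_lit 2) (nat_lit 8) (nat_lit 9) (C.cons (nat_lit 806) (C.miq (nat_lit 1380157808) (nat_lit 1271795441144451449444960129)) (C.cons (nat_lit 804) (C.miq (nat_lit 1380157808) (nat_lit 1271795441143888499491538817)) (C.cons (nat_lit 774) (C.miq (nat_lit 440934505) (nat_lit 1566782140290678046034231885)) (C.cons (nat_lit 772) (C.node (nat_lit 1) (nat_lit 2) (nat_lit 9) (C.cons (nat_lit 550) (C.node (nat_lit 1) (nat_lit 6) (nat_lit 9) (C.cons (nat_lit 578) (C.node (nat_lit 5) (nat_lit 6) (nat_lit 9) (C.cons (nat_lit 608) (C.node (nat_lit 5) (nat_lit 8) (nat_lit 9) (C.cons (nat_lit 800) (C.node (nat_lit 5)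 (nat_lit 7) (nat_lit 9) (C.cons (nat_lit 680) (C.miq (nat_lit 961042208) (nat_lit 1025174573907601250747482277)) (C.cons (nat_lit 672) (C.node (nat_lit 1) (nat_lit 2) (nat_lit 6) (C.cons (nat_lit 70) (C.node (nat_lit 1) (nat_lit 4) (nat_lit 6) C.nil) C.nil)) C.nil))) C.nil)) C.nil)) C.nil)) (C.cons (nat_lit 518) (C.node (nat_lit 2) (nat_lit 5) (nat_lit 9) (C.cons (nat_lit 548) (C.node (nat_lit 1) (nat_lit 2) (nat_lit 3) (C.cons (nat_lit 14) (C.node (nat_lit 1) (nat_lit 2) (nat_lit 7) C.nil) C.nil)) C.nil)) C.nil))) C.nil))))) C.nil))) (C.cons (nat_lit 592) (C.node (nat_lit 5) (nat_lit 8) (nat_lit 10) (C.cons (nat_lit 1314) (C.node (nat_lit 3) (nat_lit 8) (nat_lit 9) (C.cons (nat_lit 792) (C.miq (nat_lit 874875248) (nat_lit 62869621525881625065621377)) (C.cons (nat_lit 778) (C.miq (nat_lit 426410757) (nat_lit 1934305550624109595571847465)) (C.cons (nat_lit 776) (C.node (nat_lit 1) (nat_lit 2) (nat_lit 3) (C.cons (nat_lit 398)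 (C.miq (nat_lit 1681328673) (nat_lit 184969247836174203944305671)) (C.cons (nat_lit 270) (C.miq (nat_lit 1703086610) (nat_lit 359061833877846971938374663)) (C.cons (nat_lit 142) (C.miq (nat_lit 1681328673) (nat_lit 184969247836174203927528455)) (C.cons (nat_lit 14) (C.node (nat_lit 1) (nat_lit 2) (nat_lit 7) (C.cons (nat_lit 390) (C.node (nat_lit 2) (nat_lit 3) (nat_lit 7) (C.cons (nat_lit 140) (C.node (nat_lit 2) (nat_lit 3) (nat_lit 8) C.nil) C.nil)) (C.cons (nat_lit 134) (C.node (nat_lit 1) (nat_lit 6) (nat_lit 10) (C.cons (nat_lit 1098) (C.node (nat_lit 1) (nat_lit 7) (nat_lit 10) C.nil) (C.cons (nat_lit 1090) (C.node (nat_lit 2) (nat_lit 3) (nat_lit 7) C.nil) C.nil))) C.nil))) C.nil))))) C.nil)))) (C.cons (nat_lit 1312) (C.node (nat_lit 6) (nat_lit 7) (nat_lit 9) (C.cons (nat_lit 736) (C.node (nat_lit 1) (nat_lit 6) (nat_lit 9) (C.cons (nat_lit 834) (C.node (nat_lit 1) (nat_lit 2) (nat_lit 6) (C.cons (nat_lit 102) (C.miq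 (nat_lit 2502587920) (nat_lit 1281496805194038542250475715)) (C.cons (nat_lit 70) (C.node (nat_lit 2) (nat_lit 5) (nat_lit 6) (C.cons (nat_lit 356) (C.node (nat_lit 2) (nat_lit 8) (nat_lit 9) C.nil) C.nil)) C.nil))) (C.cons (nat_lit 578) (C.node (nat_lit 6) (nat_lit 8) (nat_lit 9) (C.cons (nat_lit 832) (C.node (nat_lit 1) (nat_lit 7) (nat_lit 9) (C.cons (nat_lit 650) (C.node (nat_lit 1) (nat_lit 7) (nat_lit 10) (C.cons (nat_lit 1186) (C.miq (nat_lit 395486560) (nat_lit 797910059872627733367161969)) (C.cons (nat_lit 1154) (C.node (nat_lit 2) (nat_lit 3) (nat_lit 7) (C.cons (nat_lit 396)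
  (C.miq (nat_lit 321165184) (nat_lit 1271799757638653467249936257)) (C.cons (nat_lit 140) (C.node (nat_lit 3) (nat_lit 5) (nat_lit 6) (C.cons (nat_lit 106) (C.miq (nat_lit 1517379731) (nat_lit 1395102351510199180018188877)) (C.cons (nat_lit 104) (C.node (nat_lit 3) (nat_lit 8) (nat_lit 9) (C.cons (nat_lit 792) (C.miq (nat_lit 874875248) (nat_lit 62869621525881625065621377)) (C.cons (nat_lit 776) (C.node (nat_lit 3) (nat_lit 4) (nat_lit 9) (C.cons (nat_lit 568) (C.miq (nat_lit 1985155145) (nat_lit 125740275678461849251611155)) (C.cons (nat_lit 536) (C.node (nat_lit 1) (nat_lit 9) (nat_lit 10) C.nil) C.nil))) C.nil))) C.nil))) C.nil))) C.nil))) (C.cons (nat_lit 642) (C.node (nat_lit 3) (nat_lit 7) (nat_lit 9) (C.cons (nat_lit 648) (C.node (nat_lit 3) (nat_lit 4) (nat_lit 9) (C.cons (nat_lit 792) (C.miq (nat_lit 874875248) (nat_lit 62869621525881625065621377)) (C.cons (nat_lit 568) (C.node (nat_lit 4) (nat_lit 8) (nat_lit 9)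 C.nil) C.nil))) C.nil)) C.nil))) C.nil)) C.nil))) (C.cons (nat_lit 704) (C.ref (nat_lit 115) (nat_lit 11430141571600)) C.nil))) C.nil))) C.nil))) C.nil))) C.nil)) C.nil))) C.nil))) C.nil))) C.nil)) C.nil))) C.nil)) C.nil))) C.nil))) C.nil)) C.nil)) (C.cons (nat_lit 1044) (C.node (nat_lit 2) (nat_lit 7) (nat_lit 10) (C.cons (nat_lit 1164) (C.node (nat_lit 4) (nat_lit 7) (nat_lit 10) (C.cons (nat_lit 1170) (C.miq (nat_lit 927541776) (nat_lit 797901906405556568269718535)) (C.cons (nat_lit 1168) (C.node (nat_lit 1) (nat_lit 2) (nat_lit 7) (C.cons (nat_lit 390) (C.node (nat_lit 2) (nat_lit 3) (nat_lit 8) (C.cons (nat_lit 268) (C.node (nat_lit 4) (nat_lit 6) (nat_lit 7) (C.cons (nat_lit 464) (C.miq (nat_lit 2759984753) (nat_lit 334891470946431317351727299)) (C.cons (nat_lit 208) (C.node (nat_lit 1) (nat_lit 2) (nat_lit 6) (C.cons (nat_lit 102) (C.node (nat_lit 1) (nat_lit 2) (nat_lit 9) (C.cons (nat_lit 518) (C.node (nat_lit 2) (nat_lit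 6) (nat_lit 8) (C.cons (nat_lit 324) (C.node (nat_lit 1) (nat_lit 2) (nat_lit 3) (C.cons (nat_lit 30) (C.miq (nat_lit 2536770081) (nat_lit 184975446162859833107022855)) (C.cons (nat_lit 14) (C.node (nat_lit 1) (nat_lit 2) (nat_lit 4) (C.cons (nat_lit 22) (C.node (nat_lit 1) (nat_lit 4) (nat_lit 7) (C.cons (nat_lit 178) (C.miq (nat_lit 840369748) (nat_lit 471483892167337855077713009)) (C.cons (nat_lit 146) (C.node (nat_lit 1) (nat_lit 6) (nat_lit 9) (C.cons (nat_lit 834) (C.miq (nat_lit 1468080278) (nat_lit 471482951264052518353764941)) (C.cons (nat_lit 578) (C.node (nat_lit 1) (nat_lit 7) (nat_lit 10) (C.cons (nat_lit 1186) (C.miq (nat_lit 1361356672) (nat_lit 26617342313364647037962113)) (C.cons (nat_lit 1154) (C.node (nat_lit 5) (nat_lit 7) (nat_lit 10) (C.cons (nat_lit 1184) (C.node (nat_lit 2) (nat_lit 3) (nat_lit 4) (C.cons (nat_lit 60) (C.miq (nat_lit 305620288) (nat_lit 1407193251175233438053106801)) (C.cons (nat_lit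 28) (C.node (nat_lit 2) (nat_lit 3) (nat_lit 5) (C.cons (nat_lit 44) (C.node (nat_lit 2) (nat_lit 4) (nat_lit 5) (C.cons (nat_lit 52) (C.node (nat_lit 2) (nat_lit 8) (nat_lit 9) (C.cons (nat_lit 804) (C.miq (nat_lit 1380157808) (nat_lit 33855401858508224592414593)) C.nil)) C.nil)) C.nil)) C.nil))) C.nil)) C.nil))) C.nil))) C.nil))) C.nil)) C.nil))) C.nil)) C.nil)) (C.cons (nat_lit 70) (C.node (nat_lit 2) (nat_lit 8) (nat_lit 10) (C.cons (nat_lit 1316) (C.miq (nat_lit 1377216624) (nat_lit 84645781691458594390869889)) (C.cons (nat_lit 1284) (C.node (nat_lit 1) (nat_lit 2) (nat_lit 9) (C.cons (nat_lit 550) (C.node (nat_lit 2) (nat_lit 5) (nat_lit 10) (C.cons (nat_lit 1060) (C.node (nat_lit 2) (nat_lit 8) (nat_lit 9) (C.cons (nat_lit 772) (C.node (nat_lit 2) (nat_lit 9) (nat_lit 10) (C.cons (nat_lit 1540) (C.node (nat_lit 1) (nat_lit 2) (nat_lit 3) (C.cons (nat_lit 30) (C.miq (nat_lit 2536770081) (nat_lit 184975446162859833107022855))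 (C.cons (nat_lit 14) (C.node (nat_lit 1) (nat_lit 2) (nat_lit 4) (C.cons (nat_lit 22) (C.node (nat_lit 1) (nat_lit 4) (nat_lit 7) (C.cons (nat_lit 178) (C.miq (nat_lit 844564756) (nat_lit 199475582754048214914171411))
  (C.cons (nat_lit 146) (C.node (nat_lit 1) (nat_lit 7) (nat_lit 10) (C.cons (nat_lit 1186) (C.miq (nat_lit 1361356672) (nat_lit 26617342313364647037962113)) (C.cons (nat_lit 1154) (C.node (nat_lit 2) (nat_lit 3) (nat_lit 4) (C.cons (nat_lit 60) (C.miq (nat_lit 2300905283) (nat_lit 664914680011752202768744601)) C.nil)) C.nil))) C.nil))) C.nil)) C.nil))) C.nil)) C.nil)) C.nil)) (C.cons (nat_lit 518) (C.node (nat_lit 1) (nat_lit 4) (nat_lit 7) (C.cons (nat_lit 178) (C.node (nat_lit 1) (nat_lit 7) (nat_lit 10) (C.cons (nat_lit 1154) (C.node (nat_lit 4) (nat_lit 7) (nat_lit 8) (C.cons (nat_lit 400) (C.node (nat_lit 5) (nat_lit 7) (nat_lit 10) (C.cons (nat_lit 1184) (C.node (nat_lit 1) (nat_lit 2) (nat_lit 4) (C.cons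 (nat_lit 30) (C.miq (nat_lit 2536770081) (nat_lit 184975446162859833107022855)) (C.cons (nat_lit 22) (C.node (nat_lit 2) (nat_lit 3) (nat_lit 4) (C.cons (nat_lit 60) (C.miq (nat_lit 2269448483) (nat_lit 215194275115110149778047565)) (C.cons (nat_lit 28) (C.node (nat_lit 2) (nat_lit 4) (nat_lit 5) (C.cons (nat_lit 52) (C.node (nat_lit 2) (nat_lit 8) (nat_lit 9) (C.cons (nat_lit 804) (C.miq (nat_lit 1380157808) (nat_lit 33855401858508224592414593)) (C.cons (nat_lit 772) (C.node (nat_lit 5) (nat_lit 7) (nat_lit 8) (C.cons (nat_lit 480) (C.miq (nat_lit 1479173904) (nat_lit 1552281726468305332008845507)) (C.cons (nat_lit 416) (C.node (nat_lit 1) (nat_lit 4) (nat_lit 6) (C.cons (nat_lit 346) (C.miq (nat_lit 829580368) (nat_lit 471491934879355899518190705)) (C.cons (nat_lit 338) (C.miq (nat_lit 1384384278) (nat_lit 334893426027709135370453187)) (C.cons (nat_lit 90) (C.miq (nat_lit 829580368) (nat_lit 471491934807298305480262769))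 (C.cons (nat_lit 82) (C.node (nat_lit 1) (nat_lit 2) (nat_lit 3) (C.cons (nat_lit 46) (C.node (nat_lit 1) (nat_lit 3) (nat_lit 7) (C.cons (nat_lit 650) (C.node (nat_lit 1) (nat_lit 9) (nat_lit 10) C.nil) C.nil)) C.nil)) C.nil))))) C.nil))) C.nil))) C.nil)) C.nil))) C.nil))) C.nil)) C.nil)) C.nil)) (C.cons (nat_lit 146) (C.node (nat_lit 1) (nat_lit 7) (nat_lit 10) (C.cons (nat_lit 1186) (C.node (nat_lit 5) (nat_lit 8) (nat_lit 10) (C.cons (nat_lit 1312) (C.node (nat_lit 1) (nat_lit 9) (nat_lit 10) (C.cons (nat_lit 1546) (C.miq (nat_lit 1368422962) (nat_lit 641942654261976216281875596)) (C.cons (nat_lit 1538) (C.node (nat_lit 2) (nat_lit 5) (nat_lit 10) (C.cons (nat_lit 1572) (C.miq (nat_lit 1365419785) (nat_lit 84653805988538073580636033)) (C.cons (nat_lit 1060) (C.node (nat_lit 2) (nat_lit 9) (nat_lit 10) (C.cons (nat_lit 1540) (C.node (nat_lit 4) (nat_lit 5) (nat_lit 7) (C.cons (nat_lit 432) (C.node (nat_lit 3) (nat_lit 5)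 (nat_lit 7) (C.cons (nat_lit 680) (C.miq (nat_lit 361801522) (nat_lit 658883590616945137757783180)) (C.cons (nat_lit 232) (C.miq (nat_lit 931292480) (nat_lit 471491934847268843102209137)) (C.cons (nat_lit 168) (C.miq (nat_lit 2471960708) (nat_lit 203111712712136386570879253)) C.nil)))) (C.cons (nat_lit 176) (C.miq (nat_lit 2220302497) (nat_lit 212778138560336933477811207)) C.nil))) C.nil)) C.nil))) C.nil))) C.nil)) (C.cons (nat_lit 1154) (C.node (nat_lit 5) (nat_lit 7) (nat_lit 10) (C.cons (nat_lit 1184) (C.node (nat_lit 4) (nat_lit 5) (nat_lit 7) (C.cons (nat_lit 432) (C.miq (nat_lit 1461340192) (nat_lit 1395121369904892740414931221)) (C.cons (nat_lit 176) (C.node (nat_lit 4) (nat_lit 7) (nat_lit 8) (C.cons (nat_lit 400) (C.node (nat_lit 5) (nat_lit 7) (nat_lit 8) (C.cons (nat_lit 480) (C.miq (nat_lit 1479173904) (nat_lit 1552281726468305332008845507)) (C.cons (nat_lit 416) (C.node (nat_lit 1) (nat_lit 2) (nat_lit 4) (C.cons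 (nat_lit 62) (C.miq (nat_lit 2269448483) (nat_lit 212776423475880891428766285)) (C.cons (nat_lit 54) (C.miq (nat_lit 1517371522) (nat_lit 1395101392279507347104465173)) (C.cons (nat_lit 30) (C.miq (nat_lit 2536770081) (nat_lit 184975446162859833107022855)) (C.cons (nat_lit 22) (C.node (nat_lit 2) (nat_lit 3) (nat_lit 4) (C.cons (nat_lit 60) (C.miq (nat_lit 2269448483) (nat_lit 212776423475880891428635213)) (C.cons (nat_lit 28)
  (C.node (nat_lit 2) (nat_lit 4) (nat_lit 5) (C.cons (nat_lit 52) (C.node (nat_lit 2) (nat_lit 8) (nat_lit 9) (C.cons (nat_lit 804) (C.miq (nat_lit 1380157808) (nat_lit 33855401858508224592414593)) (C.cons (nat_lit 772) (C.node (nat_lit 1) (nat_lit 2) (nat_lit 3) (C.cons (nat_lit 46) (C.node (nat_lit 2) (nat_lit 5) (nat_lit 6) C.nil) C.nil)) C.nil))) C.nil)) C.nil))) C.nil))))) C.nil))) C.nil)) C.nil))) C.nil)) C.nil))) C.nil))) C.nil))) C.nil))) C.nil))) C.nil))) C.nil)) (C.cons (nat_lit 134) (C.node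 (nat_lit 2) (nat_lit 7) (nat_lit 8) (C.cons (nat_lit 388) (C.node (nat_lit 1) (nat_lit 7) (nat_lit 10) (C.cons (nat_lit 1186) (C.node (nat_lit 1) (nat_lit 9) (nat_lit 10) (C.cons (nat_lit 1546) (C.miq (nat_lit 1368422962) (nat_lit 641942654261976216281875596)) (C.cons (nat_lit 1538) (C.node (nat_lit 2) (nat_lit 9) (nat_lit 10) (C.cons (nat_lit 1572) (C.miq (nat_lit 446068000) (nat_lit 1934284908832337126998474917)) (C.cons (nat_lit 1540) (C.node (nat_lit 4) (nat_lit 5) (nat_lit 7) (C.cons (nat_lit 432) (C.miq (nat_lit 394437952) (nat_lit 469082236937447292156576881)) (C.cons (nat_lit 176) (C.node (nat_lit 6) (nat_lit 7) (nat_lit 9) (C.cons (nat_lit 736) (C.miq (nat_lit 395486560) (nat_lit 797910059872627733367161969)) (C.cons (nat_lit 704) (C.node (nat_lit 5) (nat_lit 7) (nat_lit 9) (C.cons (nat_lit 680) (C.miq (nat_lit 2238972818) (nat_lit 212776054083884140998165069)) (C.cons (nat_lit 672) (C.node (nat_lit 3) (nat_lit 5)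 (nat_lit 7) (C.cons (nat_lit 232) (C.miq (nat_lit 389195104) (nat_lit 1407208672958398672755557489)) (C.cons (nat_lit 168) (C.node (nat_lit 1) (nat_lit 2) (nat_lit 4) (C.cons (nat_lit 62) (C.miq (nat_lit 2266106452) (nat_lit 162001170117187251052872817)) (C.cons (nat_lit 54) (C.miq (nat_lit 2266106452) (nat_lit 162001170117187251052348529)) (C.cons (nat_lit 30) (C.miq (nat_lit 2536770081) (nat_lit 184975446162859833107022855)) (C.cons (nat_lit 22) (C.node (nat_lit 2) (nat_lit 3) (nat_lit 4) (C.cons (nat_lit 60) (C.miq (nat_lit 2269448483) (nat_lit 212776423475880891428635213)) (C.cons (nat_lit 28) (C.node (nat_lit 2) (nat_lit 4) (nat_lit 5) (C.cons (nat_lit 52) (C.node (nat_lit 2) (nat_lit 3) (nat_lit 5) (C.cons (nat_lit 46) (C.miq (nat_lit 2538801682) (nat_lit 203110403368235640371938311)) (C.cons (nat_lit 44) (C.node (nat_lit 1) (nat_lit 2) (nat_lit 3) (C.cons (nat_lit 270) (C.node (nat_lit 1) (nat_lit 2) (nat_lit 6) (C.cons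 (nat_lit 102) (C.miq (nat_lit 2534541910) (nat_lit 162006925501338248435598449)) (C.cons (nat_lit 70) (C.node (nat_lit 2) (nat_lit 8) (nat_lit 9) (C.cons (nat_lit 804) (C.miq (nat_lit 1380157808) (nat_lit 33855401858508224592414593)) (C.cons (nat_lit 772) (C.node (nat_lit 1) (nat_lit 3) (nat_lit 7) C.nil) C.nil))) C.nil))) (C.cons (nat_lit 14) (C.node (nat_lit 2) (nat_lit 3) (nat_lit 8) (C.cons (nat_lit 268) (C.node (nat_lit 1) (nat_lit 4) (nat_lit 7) (C.cons (nat_lit 402) (C.node (nat_lit 4) (nat_lit 6) (nat_lit 7) C.nil) (C.cons (nat_lit 146) (C.node (nat_lit 1) (nat_lit 7) (nat_lit 8) (C.cons (nat_lit 386) (C.node (nat_lit 1) (nat_lit 3) (nat_lit 7) C.nil) C.nil)) C.nil))) C.nil)) C.nil))) C.nil))) C.nil)) C.nil))) C.nil))))) C.nil))) C.nil))) C.nil))) C.nil))) C.nil))) C.nil))) (C.cons (nat_lit 1154) (C.node (nat_lit 5) (nat_lit 7) (nat_lit 10) (C.cons (nat_lit 1184) (C.node (nat_lit 2) (nat_lit 3) (nat_lit 8) (C.cons (nat_lit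 270) (C.node (nat_lit 1) (nat_lit 2) (nat_lit 4) (C.cons (nat_lit 54) (C.node (nat_lit 1) (nat_lit 2) (nat_lit 6) (C.cons (nat_lit 70) (C.node (nat_lit 1) (nat_lit 2) (nat_lit 9) (C.cons (nat_lit 518) (C.node (nat_lit 2) (nat_lit 3) (nat_lit 4) (C.cons (nat_lit 28) (C.node (nat_lit 2) (nat_lit 3) (nat_lit 5) (C.cons (nat_lit 44) (C.node (nat_lit 2) (nat_lit 8) (nat_lit 9) (C.cons (nat_lit 804) (C.miq (nat_lit 1380157808) (nat_lit 33855401858508224592414593)) (C.cons (nat_lit 772) (C.node (nat_lit 2) (nat_lit 8) (nat_lit 10) (C.cons (nat_lit 1316) (C.miq (nat_lit 2182718784) (nat_lit 626259011126164809860711537)) (C.cons (nat_lit 1284)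
  (C.node (nat_lit 2) (nat_lit 5) (nat_lit 10) (C.cons (nat_lit 1572) (C.node (nat_lit 3) (nat_lit 5) (nat_lit 10) (C.cons (nat_lit 1066) (C.miq (nat_lit 1161300498) (nat_lit 359056078493694909406381063)) (C.cons (nat_lit 1064) (C.node (nat_lit 2) (nat_lit 5) (nat_lit 6) (C.cons (nat_lit 356) (C.node (nat_lit 1) (nat_lit 5) (nat_lit 10) (C.cons (nat_lit 1314) (C.miq (nat_lit 1703086610) (nat_lit 359061833877846971938374663)) (C.cons (nat_lit 1058) (C.node (nat_lit 5) (nat_lit 8) (nat_lit 10) (C.cons (nat_lit 1312) (C.node (nat_lit 4) (nat_lit 9) (nat_lit 10) (C.cons (nat_lit 1560) (C.miq (nat_lit 1922237860) (nat_lit 712060130151309984411419761)) C.nil)) C.nil)) C.nil))) C.nil)) C.nil))) C.nil)) C.nil))) C.nil))) C.nil)) C.nil)) C.nil)) C.nil)) (C.cons (nat_lit 22) (C.node (nat_lit 1) (nat_lit 2) (nat_lit 6) (C.cons (nat_lit 102) (C.node (nat_lit 1) (nat_lit 2) (nat_lit 9) (C.cons (nat_lit 518) (C.node (nat_lit 2) (nat_lit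 6) (nat_lit 8) (C.cons (nat_lit 324) (C.node (nat_lit 2) (nat_lit 3) (nat_lit 4) (C.cons (nat_lit 60) (C.miq (nat_lit 305620288) (nat_lit 1407193251175233438053106801)) (C.cons (nat_lit 28) (C.node (nat_lit 2) (nat_lit 3) (nat_lit 5) (C.cons (nat_lit 44) (C.node (nat_lit 2) (nat_lit 4) (nat_lit 5) (C.cons (nat_lit 52) (C.node (nat_lit 2) (nat_lit 8) (nat_lit 9) (C.cons (nat_lit 804) (C.miq (nat_lit 1380157808) (nat_lit 33855401858508224592414593)) (C.cons (nat_lit 772) (C.node (nat_lit 2) (nat_lit 5) (nat_lit 8) (C.cons (nat_lit 1316) (C.miq (nat_lit 2182587744) (nat_lit 162031496394147412909950065)) (C.cons (nat_lit 292) (C.node (nat_lit 2) (nat_lit 8) (nat_lit 10) (C.cons (nat_lit 1284) (C.node (nat_lit 2) (nat_lit 5) (nat_lit 9) (C.cons (nat_lit 1572) (C.miq (nat_lit 2451023200) (nat_lit 162031496466205006947878001)) C.nil)) C.nil)) C.nil))) C.nil))) C.nil)) C.nil)) C.nil))) C.nil)) C.nil)) (C.cons (nat_lit 70) (C.node (nat_lit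 1) (nat_lit 2) (nat_lit 5) (C.cons (nat_lit 550) (C.node (nat_lit 2) (nat_lit 8) (nat_lit 9) (C.cons (nat_lit 772) (C.node (nat_lit 2) (nat_lit 9) (nat_lit 10) (C.cons (nat_lit 1540) (C.node (nat_lit 2) (nat_lit 3) (nat_lit 4) (C.cons (nat_lit 60) (C.miq (nat_lit 2300905283) (nat_lit 664914680011752202768744601)) (C.cons (nat_lit 28) (C.node (nat_lit 2) (nat_lit 3) (nat_lit 5) (C.cons (nat_lit 44) (C.node (nat_lit 2) (nat_lit 4) (nat_lit 5) (C.cons (nat_lit 52) (C.node (nat_lit 1) (nat_lit 5) (nat_lit 10) (C.cons (nat_lit 1314) (C.miq (nat_lit 1703086610) (nat_lit 359061833877846971938374663)) (C.cons (nat_lit 1066) (C.miq (nat_lit 1161300498) (nat_lit 359056078493694909406381063)) C.nil))) C.nil)) C.nil)) C.nil))) C.nil)) C.nil)) (C.cons (nat_lit 38) (C.node (nat_lit 1) (nat_lit 2) (nat_lit 9) (C.cons (nat_lit 518) (C.node (nat_lit 2) (nat_lit 3) (nat_lit 4) (C.cons (nat_lit 60) (C.node (nat_lit 2) (nat_lit 5) (nat_lit 6)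 (C.cons (nat_lit 356) (C.miq (nat_lit 2455270448) (nat_lit 430413028163947324590588057)) (C.cons (nat_lit 100) (C.node (nat_lit 2) (nat_lit 6) (nat_lit 8) (C.cons (nat_lit 324) (C.node (nat_lit 2) (nat_lit 8) (nat_lit 9) (C.cons (nat_lit 804) (C.node (nat_lit 2) (nat_lit 5) (nat_lit 10) (C.cons (nat_lit 1060) (C.node (nat_lit 2) (nat_lit 8) (nat_lit 10) C.nil) C.nil)) (C.cons (nat_lit 772) (C.miq (nat_lit 1485975668) (nat_lit 933291839630744464204759193)) C.nil))) C.nil)) C.nil))) (C.cons (nat_lit 28) (C.node (nat_lit 2) (nat_lit 3) (nat_lit 5) (C.cons (nat_lit 44) (C.node (nat_lit 2) (nat_lit 4) (nat_lit 5) (C.cons (nat_lit 52) (C.node (nat_lit 2) (nat_lit 8) (nat_lit 9) (C.cons (nat_lit 804) (C.miq (nat_lit 1380157808) (nat_lit 33855401858508224592414593)) (C.cons (nat_lit 772) (C.node (nat_lit 3) (nat_lit 8) (nat_lit 9) (C.cons (nat_lit 792) (C.miq (nat_lit 874875248) (nat_lit 62869621525881625065621377)) (C.cons (nat_lit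 776) (C.node (nat_lit 2) (nat_lit 5) (nat_lit 6) (C.cons (nat_lit 356) (C.node (nat_lit 1) (nat_lit 4) (nat_lit 6) C.nil) (C.cons (nat_lit 100)
  (C.node (nat_lit 2) (nat_lit 6) (nat_lit 8) C.nil) C.nil))) C.nil))) C.nil))) C.nil)) C.nil)) C.nil))) C.nil)) C.nil))) C.nil))) C.nil))) (C.cons (nat_lit 268) (C.node (nat_lit 2) (nat_lit 8) (nat_lit 10) (C.cons (nat_lit 1316) (C.node (nat_lit 2) (nat_lit 9) (nat_lit 10) (C.cons (nat_lit 1540) (C.node (nat_lit 2) (nat_lit 5) (nat_lit 6) (C.cons (nat_lit 102) (C.miq (nat_lit 2182587744) (nat_lit 162031496394147412909950065)) (C.cons (nat_lit 100) (C.node (nat_lit 2) (nat_lit 3) (nat_lit 4) (C.cons (nat_lit 62) (C.miq (nat_lit 2184684864) (nat_lit 1407225090597215291055866993)) (C.cons (nat_lit 60) (C.miq (nat_lit 2184684864) (nat_lit 1407225090597215282465932401)) (C.cons (nat_lit 30) (C.miq (nat_lit 2536770081) (nat_lit 184975446162859833107022855)) (C.cons (nat_lit 28) (C.node (nat_lit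 1) (nat_lit 2) (nat_lit 3) (C.cons (nat_lit 46) (C.node (nat_lit 1) (nat_lit 2) (nat_lit 4) (C.cons (nat_lit 22) (C.node (nat_lit 2) (nat_lit 4) (nat_lit 5) (C.cons (nat_lit 52) (C.node (nat_lit 2) (nat_lit 5) (nat_lit 9) (C.cons (nat_lit 548) (C.node (nat_lit 1) (nat_lit 5) (nat_lit 10) (C.cons (nat_lit 1570) (C.miq (nat_lit 354720384) (nat_lit 62873938282985222487476097)) C.nil)) C.nil)) C.nil)) C.nil)) (C.cons (nat_lit 14) (C.node (nat_lit 2) (nat_lit 3) (nat_lit 5) (C.cons (nat_lit 44) (C.node (nat_lit 1) (nat_lit 2) (nat_lit 4) (C.cons (nat_lit 54) (C.node (nat_lit 2) (nat_lit 5) (nat_lit 9) (C.cons (nat_lit 548) (C.node (nat_lit 4) (nat_lit 8) (nat_lit 10) (C.cons (nat_lit 1306) (C.miq (nat_lit 1921189284) (nat_lit 323994942055012919802463345)) (C.cons (nat_lit 1304) (C.miq (nat_lit 1921189284) (nat_lit 323994942055012919802332273)) (C.cons (nat_lit 1298) (C.miq (nat_lit 2166858832) (nat_lit 162031496389080657168761969))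 C.nil)))) C.nil)) (C.cons (nat_lit 22) (C.node (nat_lit 2) (nat_lit 4) (nat_lit 5) (C.cons (nat_lit 52) (C.node (nat_lit 4) (nat_lit 9) (nat_lit 10) (C.cons (nat_lit 1560) (C.node (nat_lit 1) (nat_lit 9) (nat_lit 10) (C.cons (nat_lit 1570) (C.miq (nat_lit 354720384) (nat_lit 62873938282985222487476097)) C.nil)) C.nil)) C.nil)) C.nil))) C.nil)) C.nil))) C.nil))))) C.nil))) C.nil)) (C.cons (nat_lit 1284) (C.node (nat_lit 2) (nat_lit 5) (nat_lit 10) (C.cons (nat_lit 1572) (C.node (nat_lit 4) (nat_lit 9) (nat_lit 10) (C.cons (nat_lit 1560) (C.miq (nat_lit 1922237860) (nat_lit 712060130151309984411419761)) (C.cons (nat_lit 1552) (C.node (nat_lit 6) (nat_lit 7) (nat_lit 9) (C.cons (nat_lit 736) (C.miq (nat_lit 311888470) (nat_lit 797894638350957081394152561)) (C.cons (nat_lit 704) (C.node (nat_lit 2) (nat_lit 3) (nat_lit 4) (C.cons (nat_lit 62) (C.miq (nat_lit 2453120320) (nat_lit 1407225090669272885093794929)) (C.cons (nat_lit 60)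 (C.miq (nat_lit 2453120320) (nat_lit 1407225090669272876503860337)) (C.cons (nat_lit 30) (C.miq (nat_lit 2536770081) (nat_lit 184975446162859833107022855)) (C.cons (nat_lit 28) (C.node (nat_lit 1) (nat_lit 2) (nat_lit 3) (C.cons (nat_lit 46) (C.node (nat_lit 1) (nat_lit 2) (nat_lit 4) (C.cons (nat_lit 22) (C.node (nat_lit 2) (nat_lit 4) (nat_lit 5) (C.cons (nat_lit 52) (C.node (nat_lit 3) (nat_lit 5) (nat_lit 10) (C.cons (nat_lit 1064) (C.node (nat_lit 1) (nat_lit 5) (nat_lit 10) (C.cons (nat_lit 1314) (C.miq (nat_lit 2555578898) (nat_lit 359061834098523353664848903)) (C.cons (nat_lit 1058) (C.node (nat_lit 5) (nat_lit 8) (nat_lit 10) (C.cons (nat_lit 1312) (C.node (nat_lit 1) (nat_lit 2) (nat_lit 6) (C.cons (nat_lit 70) (C.node (nat_lit 1) (nat_lit 2) (nat_lit 8) C.nil) C.nil)) C.nil)) C.nil))) C.nil)) C.nil)) C.nil)) (C.cons (nat_lit 14) (C.node (nat_lit 2) (nat_lit 3) (nat_lit 5) (C.cons (nat_lit 44) (C.node (nat_lit 1)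 (nat_lit 2) (nat_lit 4) (C.cons (nat_lit 54) (C.node (nat_lit 1) (nat_lit 2) (nat_lit 9) (C.cons (nat_lit 774) (C.miq (nat_lit 2186973504) (nat_lit 1900466824847424522663559699)) (C.cons (nat_lit 518) (C.node (nat_lit 2) (nat_lit 8) (nat_lit 9) C.nil) C.nil))) (C.cons (nat_lit 22)
  (C.node (nat_lit 2) (nat_lit 4) (nat_lit 5) C.nil) C.nil))) C.nil)) C.nil))) C.nil))))) C.nil))) C.nil))) (C.cons (nat_lit 1060) (C.node (nat_lit 2) (nat_lit 9) (nat_lit 10) (C.cons (nat_lit 1540) (C.node (nat_lit 4) (nat_lit 6) (nat_lit 7) (C.cons (nat_lit 464) (C.node (nat_lit 4) (nat_lit 6) (nat_lit 9) (C.cons (nat_lit 592) (C.node (nat_lit 2) (nat_lit 3) (nat_lit 4) (C.cons (nat_lit 62) (C.miq (nat_lit 1484009618) (nat_lit 560942724082926825814360653)) (C.cons (nat_lit 60) (C.miq (nat_lit 1484009618) (nat_lit 560942687189438678395257421)) (C.cons (nat_lit 30) (C.miq (nat_lit 2536770081) (nat_lit 184975446162859833107022855)) (C.cons (nat_lit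 28) (C.node (nat_lit 1) (nat_lit 2) (nat_lit 3) (C.cons (nat_lit 46) (C.node (nat_lit 1) (nat_lit 2) (nat_lit 4) (C.cons (nat_lit 22) (C.node (nat_lit 2) (nat_lit 4) (nat_lit 5) (C.cons (nat_lit 52) (C.node (nat_lit 3) (nat_lit 5) (nat_lit 10) C.nil) C.nil)) C.nil)) (C.cons (nat_lit 14) (C.node (nat_lit 2) (nat_lit 3) (nat_lit 5) (C.cons (nat_lit 44) (C.node (nat_lit 1) (nat_lit 2) (nat_lit 4) (C.cons (nat_lit 54) (C.node (nat_lit 4) (nat_lit 9) (nat_lit 10) C.nil) (C.cons (nat_lit 22) (C.node (nat_lit 2) (nat_lit 4) (nat_lit 5) (C.cons (nat_lit 52) (C.node (nat_lit 4) (nat_lit 9) (nat_lit 10) C.nil) C.nil)) C.nil))) C.nil)) C.nil))) C.nil))))) C.nil)) (C.cons (nat_lit 208) (C.node (nat_lit 4) (nat_lit 6) (nat_lit 9) (C.cons (nat_lit 848) (C.node (nat_lit 6) (nat_lit 7) (nat_lit 9) (C.cons (nat_lit 736) (C.miq (nat_lit 610601111) (nat_lit 1374551700692577744446293889)) (C.cons (nat_lit 704) (C.node (nat_lit 2) (nat_lit 3) (nat_lit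 4) (C.cons (nat_lit 62) (C.miq (nat_lit 2536770081) (nat_lit 184975446162859833109120007)) (C.cons (nat_lit 60) (C.miq (nat_lit 949244018) (nat_lit 1025170201921456281482428581)) (C.cons (nat_lit 30) (C.miq (nat_lit 2536770081) (nat_lit 184975446162859833107022855)) (C.cons (nat_lit 28) (C.node (nat_lit 2) (nat_lit 8) (nat_lit 9) (C.cons (nat_lit 806) (C.miq (nat_lit 1380157808) (nat_lit 33855401859071174545835905)) (C.cons (nat_lit 804) (C.miq (nat_lit 1380157808) (nat_lit 33855401858508224592414593)) (C.cons (nat_lit 774) (C.miq (nat_lit 1747601680) (nat_lit 1552281726571889772705808915)) (C.cons (nat_lit 772) (C.node (nat_lit 1) (nat_lit 2) (nat_lit 3) (C.cons (nat_lit 46) (C.node (nat_lit 1) (nat_lit 2) (nat_lit 4) C.nil) (C.cons (nat_lit 14) (C.node (nat_lit 2) (nat_lit 3) (nat_lit 5) (C.cons (nat_lit 44) (C.node (nat_lit 1) (nat_lit 2) (nat_lit 4) C.nil) C.nil)) C.nil))) C.nil))))) C.nil))))) C.nil))) (C.cons (nat_lit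 592) (C.node (nat_lit 4) (nat_lit 9) (nat_lit 10) (C.cons (nat_lit 1560) (C.node (nat_lit 2) (nat_lit 3) (nat_lit 4) (C.cons (nat_lit 62) (C.miq (nat_lit 2468848720) (nat_lit 1407225090665895185374053489)) (C.cons (nat_lit 60) (C.miq (nat_lit 2468848720) (nat_lit 1407225090665895176784118897)) (C.cons (nat_lit 30) (C.miq (nat_lit 1934205456) (nat_lit 1885959715121824110365312007)) (C.cons (nat_lit 28) (C.node (nat_lit 3) (nat_lit 7) (nat_lit 9) (C.cons (nat_lit 682) (C.miq (nat_lit 1781990545) (nat_lit 1407193251466566481434247699)) (C.cons (nat_lit 680) (C.miq (nat_lit 2207516018) (nat_lit 1885929388430530918791512229)) (C.cons (nat_lit 650) (C.miq (nat_lit 1781990545) (nat_lit 1407193251466566481432150547)) (C.cons (nat_lit 648) (C.node (nat_lit 1) (nat_lit 2) (nat_lit 3) (C.cons (nat_lit 46) (C.node (nat_lit 1) (nat_lit 2) (nat_lit 4) (C.cons (nat_lit 22) (C.node (nat_lit 2) (nat_lit 4) (nat_lit 5) C.nil) C.nil)) (C.cons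 (nat_lit 14) (C.node (nat_lit 2) (nat_lit 3) (nat_lit 5) (C.cons (nat_lit 44) (C.node (nat_lit 1) (nat_lit 2) (nat_lit 4) (C.cons (nat_lit 22) (C.node (nat_lit 2) (nat_lit 4) (nat_lit 5) C.nil) C.nil)) C.nil)) C.nil))) C.nil))))) C.nil))))) (C.cons (nat_lit 1552) (C.node (nat_lit 5) (nat_lit 8) (nat_lit 10) (C.cons (nat_lit 1314) (C.node (nat_lit 1) (nat_lit 2) (nat_lit 3) (C.cons (nat_lit 62) (C.miq (nat_lit 2536770081) (nat_lit 184975446162859833109120007)) (C.cons (nat_lit 46)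
  (C.miq (nat_lit 2555578898) (nat_lit 359061834098523353664848903)) (C.cons (nat_lit 30) (C.miq (nat_lit 2536770081) (nat_lit 184975446162859833107022855)) (C.cons (nat_lit 14) (C.node (nat_lit 1) (nat_lit 2) (nat_lit 4) (C.cons (nat_lit 54) (C.node (nat_lit 2) (nat_lit 3) (nat_lit 4) (C.cons (nat_lit 28) (C.node (nat_lit 2) (nat_lit 3) (nat_lit 5) C.nil) C.nil)) (C.cons (nat_lit 22) (C.node (nat_lit 1) (nat_lit 4) (nat_lit 10) (C.cons (nat_lit 1050) (C.node (nat_lit 1) (nat_lit 6) (nat_lit 10) C.nil) (C.cons (nat_lit 1042) (C.node (nat_lit 1) (nat_lit 6) (nat_lit 10) (C.cons (nat_lit 1090) (C.node (nat_lit 1) (nat_lit 3) (nat_lit 10) C.nil) C.nil)) C.nil))) C.nil))) C.nil))))) (C.cons (nat_lit 1312) (C.node (nat_lit 6) (nat_lit 7) (nat_lit 9) (C.cons (nat_lit 736) (C.node (nat_lit 1) (nat_lit 6) (nat_lit 9) (C.cons (nat_lit 834) (C.node (nat_lit 1) (nat_lit 2) (nat_lit 6) (C.cons (nat_lit 102) (C.miq (nat_lit 443883670) (nat_lit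 1431370052281825412895474253)) (C.cons (nat_lit 70) (C.node (nat_lit 2) (nat_lit 8) (nat_lit 9) (C.cons (nat_lit 804) (C.miq (nat_lit 899090468) (nat_lit 889772225671811871425167637)) (C.cons (nat_lit 772) (C.node (nat_lit 2) (nat_lit 5) (nat_lit 6) (C.cons (nat_lit 356) (C.node (nat_lit 1) (nat_lit 2) (nat_lit 8) C.nil) C.nil)) C.nil))) C.nil))) (C.cons (nat_lit 578) (C.node (nat_lit 6) (nat_lit 8) (nat_lit 9) (C.cons (nat_lit 832) (C.node (nat_lit 1) (nat_lit 7) (nat_lit 9) (C.cons (nat_lit 650) (C.node (nat_lit 3) (nat_lit 5) (nat_lit 7) (C.cons (nat_lit 168) (C.node (nat_lit 3) (nat_lit 6) (nat_lit 7) C.nil) C.nil)) (C.cons (nat_lit 642) (C.node (nat_lit 3) (nat_lit 7) (nat_lit 9) (C.cons (nat_lit 648) (C.node (nat_lit 3) (nat_lit 5) (nat_lit 7) (C.cons (nat_lit 168) (C.node (nat_lit 1) (nat_lit 3) (nat_lit 7) C.nil) C.nil)) C.nil)) C.nil))) C.nil)) C.nil))) (C.cons (nat_lit 704) (C.node (nat_lit 1) (nat_lit 2) (nat_lit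 3) (C.cons (nat_lit 62) (C.miq (nat_lit 2536770081) (nat_lit 184975446162859833109120007)) (C.cons (nat_lit 46) (C.node (nat_lit 1) (nat_lit 2) (nat_lit 4) (C.cons (nat_lit 22) (C.node (nat_lit 2) (nat_lit 3) (nat_lit 4) C.nil) C.nil)) (C.cons (nat_lit 30) (C.miq (nat_lit 2536770081) (nat_lit 184975446162859833107022855)) (C.cons (nat_lit 14) (C.node (nat_lit 1) (nat_lit 2) (nat_lit 4) (C.cons (nat_lit 54) (C.node (nat_lit 2) (nat_lit 3) (nat_lit 4) C.nil) (C.cons (nat_lit 22) (C.node (nat_lit 2) (nat_lit 3) (nat_lit 4) C.nil) C.nil))) C.nil))))) C.nil))) C.nil))) C.nil))) C.nil))) C.nil))) C.nil)) C.nil))) C.nil))) C.nil))) C.nil)) C.nil))) C.nil)) C.nil))) C.nil))) (C.cons (nat_lit 1156) (C.ref (nat_lit 162) (nat_lit 11649936536080)) C.nil))) C.nil))) List.nil)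

theorem ok11_163 : okL par11 (nat_lit 164) c11_163 (nat_lit 163) = true := by decide +kernel

noncomputable def c11_164 : List C :=
  (List.cons (C.node (nat_lit 1) (nat_lit 2) (nat_lit 4) (C.cons (nat_lit 30) (C.node (nat_lit 3) (nat_lit 4) (nat_lit 5) (C.cons (nat_lit 56) (C.node (nat_lit 2) (nat_lit 3) (nat_lit 7) (C.cons (nat_lit 396) (C.miq (nat_lit 1411582584) (nat_lit 36273253591470849225656193)) (C.cons (nat_lit 140) (C.node (nat_lit 1) (nat_lit 2) (nat_lit 9) (C.cons (nat_lit 774) (C.miq (nat_lit 2184679744) (nat_lit 169285051159275441340613139)) (C.cons (nat_lit 518) (C.node (nat_lit 2) (nat_lit 8) (nat_lit 9) (C.cons (nat_lit 772) (C.node (nat_lit 1) (nat_lit 4) (nat_lit 7) (C.cons (nat_lit 434) (C.miq (nat_lit 1649871169) (nat_lit 199476357517299370861658643)) (C.cons (nat_lit 402) (C.miq (nat_lit 2166977584) (nat_lit 626259010868896578071756953)) (C.cons (nat_lit 178) (C.miq (nat_lit 1649871169) (nat_lit 199476357517299370844881427))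 (C.cons (nat_lit 146) (C.node (nat_lit 3) (nat_lit 7) (nat_lit 10) (C.cons (nat_lit 1194) (C.miq (nat_lit 2205287844) (nat_lit 169254724577759698355487857)) (C.cons (nat_lit 1192) (C.miq (nat_lit 2205287844) (nat_lit 169254724577759689765553265)) (C.cons (nat_lit 1162) (C.miq (nat_lit 2268334610) (nat_lit 184970760689865102290977799)) (C.cons (nat_lit 1160) (C.node (nat_lit 1) (nat_lit 2) (nat_lit 7) (C.cons (nat_lit 390) (C.node (nat_lit 1) (nat_lit 4) (nat_lit 6) (C.cons (nat_lit 338) (C.miq (nat_lit 1384384278) (nat_lit 334893426027709135370453187)) (C.cons (nat_lit 82) (C.node (nat_lit 1) (nat_lit 4) (nat_lit 10) (C.cons (nat_lit 1298) (C.miq (nat_lit 1410468487) (nat_lit 36270818621253660730328961)) (C.cons (nat_lit 1042) (C.node (nat_lit 1) (nat_lit 7) (nat_lit 10) (C.cons (nat_lit 1186) (C.miq (nat_lit 1361356672) (nat_lit 36288748870281680435611521)) (C.cons (nat_lit 1154) (C.node (nat_lit 5) (nat_lit 7) (nat_lit 10)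 (C.cons (nat_lit 1184) (C.node (nat_lit 4) (nat_lit 5) (nat_lit 7) (C.cons (nat_lit 432) (C.miq (nat_lit 1461340192) (nat_lit 1395121369904892740414931221)) (C.cons (nat_lit 176) (C.node (nat_lit 4) (nat_lit 7) (nat_lit 8) (C.cons (nat_lit 464) (C.miq (nat_lit 2759984753) (nat_lit 334891470946431317351727299)) (C.cons (nat_lit 400) (C.node (nat_lit 4) (nat_lit 8) (nat_lit 10) (C.cons (nat_lit 1304) (C.miq (nat_lit 874875504) (nat_lit 681839641312689149614294913)) (C.cons (nat_lit 1296) (C.node (nat_lit 1) (nat_lit 2) (nat_lit 5) (C.cons (nat_lit 102) (C.node (nat_lit 2) (nat_lit 5) (nat_lit 8) (C.cons (nat_lit 1316) (C.miq (nat_lit 1380158064) (nat_lit 36273253641854870040938369)) (C.cons (nat_lit 292) (C.miq (nat_lit 2820998934) (nat_lit 353027313816198632079491267)) C.nil))) (C.cons (nat_lit 38) (C.node (nat_lit 1) (nat_lit 2) (nat_lit 6) (C.cons (nat_lit 70) (C.node (nat_lit 1) (nat_lit 4) (nat_lit 5) (C.cons (nat_lit 306)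 (C.node (nat_lit 3) (nat_lit 4) (nat_lit 6) C.nil) C.nil)) C.nil)) C.nil))) C.nil))) C.nil))) C.nil))) C.nil)) C.nil))) C.nil))) C.nil))) (C.cons (nat_lit 134) (C.node (nat_lit 2) (nat_lit 7) (nat_lit 8) (C.cons (nat_lit 388) (C.node (nat_lit 1) (nat_lit 4) (nat_lit 5) (C.cons (nat_lit 306) (C.node (nat_lit 1) (nat_lit 4) (nat_lit 6) (C.cons (nat_lit 82) (C.node (nat_lit 1) (nat_lit 4) (nat_lit 10) (C.cons (nat_lit 1042) (C.node (nat_lit 4) (nat_lit 5) (nat_lit 7) (C.cons (nat_lit 176) (C.node (nat_lit 4) (nat_lit 8) (nat_lit 10) (C.cons (nat_lit 1304) (C.miq (nat_lit 874875504) (nat_lit 681839641312689149614294913)) (C.cons (nat_lit 1296) (C.node (nat_lit 5) (nat_lit 8) (nat_lit 10) (C.cons (nat_lit 1316) (C.miq (nat_lit 1380158064) (nat_lit 36273253641854870040938369)) (C.cons (nat_lit 1312) (C.node (nat_lit 2) (nat_lit 5) (nat_lit 8) (C.cons (nat_lit 356) (C.miq (nat_lit 422068325) (nat_lit 933296377595646020388390001))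 (C.cons (nat_lit 292) (C.node (nat_lit 3) (nat_lit 8) (nat_lit 9) (C.cons (nat_lit 792) (C.miq (nat_lit 2216334112) (nat_lit 1259736140456737506563916365)) (C.cons (nat_lit 778) (C.miq (nat_lit 1669662996) (nat_lit 359071942539348775435108883)) (C.cons (nat_lit 776) (C.node (nat_lit 2) (nat_lit 3) (nat_lit 8) (C.cons (nat_lit 1292)
  (C.miq (nat_lit 1233326242) (nat_lit 938126989572745914208748551)) (C.cons (nat_lit 268) (C.node (nat_lit 2) (nat_lit 8) (nat_lit 10) (C.cons (nat_lit 1284) (C.node (nat_lit 1) (nat_lit 2) (nat_lit 8) C.nil) C.nil)) C.nil))) C.nil)))) C.nil))) C.nil))) C.nil))) C.nil)) C.nil)) C.nil)) (C.cons (nat_lit 50) (C.node (nat_lit 1) (nat_lit 4) (nat_lit 6) (C.cons (nat_lit 338) (C.node (nat_lit 1) (nat_lit 4) (nat_lit 10) (C.cons (nat_lit 1042) (C.node (nat_lit 3) (nat_lit 4) (nat_lit 6) (C.cons (nat_lit 88) (C.node (nat_lit 4) (nat_lit 8) (nat_lit 9) (C.cons (nat_lit 792) (C.miq (nat_lit 2216334112) (nat_lit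 1259736140456737506563916365)) (C.cons (nat_lit 784) (C.node (nat_lit 2) (nat_lit 3) (nat_lit 8) (C.cons (nat_lit 1292) (C.miq (nat_lit 882385162) (nat_lit 947821675779659035765179399)) (C.cons (nat_lit 268) (C.node (nat_lit 2) (nat_lit 8) (nat_lit 10) (C.cons (nat_lit 1316) (C.miq (nat_lit 1380158064) (nat_lit 36273253641854870040938369)) (C.cons (nat_lit 1284) (C.node (nat_lit 3) (nat_lit 4) (nat_lit 8) (C.cons (nat_lit 1304) (C.miq (nat_lit 874875504) (nat_lit 681839641312689149614294913)) (C.cons (nat_lit 280) (C.node (nat_lit 4) (nat_lit 8) (nat_lit 10) (C.cons (nat_lit 1296) (C.node (nat_lit 1) (nat_lit 2) (nat_lit 6) (C.cons (nat_lit 102) (C.node (nat_lit 1) (nat_lit 2) (nat_lit 8) C.nil) C.nil)) C.nil)) C.nil))) C.nil))) C.nil))) C.nil))) C.nil)) C.nil)) (C.cons (nat_lit 82) (C.node (nat_lit 1) (nat_lit 4) (nat_lit 8) (C.cons (nat_lit 1298) (C.node (nat_lit 1) (nat_lit 6) (nat_lit 10) (C.cons (nat_lit 1098) (C.miq (nat_lit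 2184265834) (nat_lit 36291718540217648595731569)) (C.cons (nat_lit 1090) (C.node (nat_lit 1) (nat_lit 7) (nat_lit 10) (C.cons (nat_lit 1186) (C.miq (nat_lit 605358247) (nat_lit 60449334771477764305454977)) (C.cons (nat_lit 1154) (C.node (nat_lit 5) (nat_lit 7) (nat_lit 10) (C.cons (nat_lit 1184) (C.node (nat_lit 3) (nat_lit 4) (nat_lit 6) (C.cons (nat_lit 344) (C.miq (nat_lit 2199995914) (nat_lit 36291718559076472030954609)) (C.cons (nat_lit 88) (C.node (nat_lit 3) (nat_lit 4) (nat_lit 8) (C.cons (nat_lit 792) (C.node (nat_lit 3) (nat_lit 4) (nat_lit 10) (C.cons (nat_lit 1048) (C.node (nat_lit 1) (nat_lit 3) (nat_lit 6) C.nil) C.nil)) (C.cons (nat_lit 280) (C.miq (nat_lit 2554530322) (nat_lit 338510095165074588974318599)) C.nil))) C.nil))) C.nil)) C.nil))) C.nil))) (C.cons (nat_lit 274) (C.node (nat_lit 1) (nat_lit 4) (nat_lit 10) (C.cons (nat_lit 1042) (C.node (nat_lit 4) (nat_lit 8) (nat_lit 10) (C.cons (nat_lit 1304) (C.miq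 (nat_lit 874875504) (nat_lit 681839641312689149614294913)) (C.cons (nat_lit 1296) (C.node (nat_lit 1) (nat_lit 7) (nat_lit 10) (C.cons (nat_lit 1186) (C.node (nat_lit 1) (nat_lit 7) (nat_lit 9) (C.cons (nat_lit 650) (C.miq (nat_lit 1900581664) (nat_lit 331281110952732853647245901)) (C.cons (nat_lit 642) (C.node (nat_lit 1) (nat_lit 9) (nat_lit 10) (C.cons (nat_lit 1546) (C.miq (nat_lit 1378971802) (nat_lit 36289652473356195763718017)) (C.cons (nat_lit 1538) (C.node (nat_lit 3) (nat_lit 4) (nat_lit 10) (C.cons (nat_lit 1560) (C.node (nat_lit 4) (nat_lit 5) (nat_lit 7) (C.cons (nat_lit 432) (C.miq (nat_lit 356689792) (nat_lit 681853181189622026904864641)) C.nil)) C.nil)) C.nil))) C.nil))) (C.cons (nat_lit 1154) (C.node (nat_lit 5) (nat_lit 7) (nat_lit 10) (C.cons (nat_lit 1184) (C.node (nat_lit 2) (nat_lit 3) (nat_lit 5) (C.cons (nat_lit 44) (C.node (nat_lit 2) (nat_lit 3) (nat_lit 8) (C.cons (nat_lit 268) (C.node (nat_lit 2)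 (nat_lit 3) (nat_lit 10) C.nil) C.nil)) C.nil)) C.nil)) C.nil))) C.nil))) C.nil)) C.nil))) C.nil))) C.nil))) C.nil)) C.nil))) C.nil))))) C.nil))))) C.nil)) C.nil))) C.nil))) C.nil)) (C.cons (nat_lit 22) (C.node (nat_lit 2) (nat_lit 3) (nat_lit 4) (C.cons (nat_lit 28) (C.node (nat_lit 1) (nat_lit 2) (nat_lit 9) (C.cons (nat_lit 774) (C.node (nat_lit 1) (nat_lit 6) (nat_lit 9) (C.cons (nat_lit 610) (C.miq (nat_lit 369661250) (nat_lit 388079466047913635463103028)) (C.cons (nat_lit 578) (C.node (nat_lit 2) (nat_lit 6) (nat_lit 8) (C.cons (nat_lit 356)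
  (C.miq (nat_lit 275289170) (nat_lit 388079466025677112308138548)) (C.cons (nat_lit 324) (C.node (nat_lit 2) (nat_lit 5) (nat_lit 8) (C.cons (nat_lit 1316) (C.miq (nat_lit 1380158064) (nat_lit 33855402002625611691526017)) (C.cons (nat_lit 292) (C.node (nat_lit 2) (nat_lit 7) (nat_lit 8) (C.cons (nat_lit 396) (C.miq (nat_lit 305436784) (nat_lit 33859718388176089454806913)) (C.cons (nat_lit 388) (C.node (nat_lit 1) (nat_lit 4) (nat_lit 7) (C.cons (nat_lit 434) (C.miq (nat_lit 840173959) (nat_lit 26599190549157205020641153)) (C.cons (nat_lit 402) (C.miq (nat_lit 840173959) (nat_lit 26599190549157205018544001)) (C.cons (nat_lit 178) (C.miq (nat_lit 1649871169) (nat_lit 199476357517299370844881427)) (C.cons (nat_lit 146) (C.node (nat_lit 4) (nat_lit 8) (nat_lit 10) (C.cons (nat_lit 1306) (C.miq (nat_lit 874875504) (nat_lit 681839641313252099567716225)) (C.cons (nat_lit 1304) (C.miq (nat_lit 874875504) (nat_lit 681839641312689149614294913))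 (C.cons (nat_lit 1298) (C.miq (nat_lit 1678903945) (nat_lit 26607233483823880207730561)) (C.cons (nat_lit 1296) (C.node (nat_lit 1) (nat_lit 2) (nat_lit 6) (C.cons (nat_lit 102) (C.node (nat_lit 1) (nat_lit 2) (nat_lit 3) (C.cons (nat_lit 142) (C.miq (nat_lit 1366581808) (nat_lit 176524143640458724787159629)) (C.cons (nat_lit 14) (C.node (nat_lit 1) (nat_lit 2) (nat_lit 7) (C.cons (nat_lit 134) (C.node (nat_lit 2) (nat_lit 3) (nat_lit 7) (C.cons (nat_lit 140) (C.node (nat_lit 1) (nat_lit 4) (nat_lit 10) (C.cons (nat_lit 1050) (C.node (nat_lit 1) (nat_lit 4) (nat_lit 5) (C.cons (nat_lit 306) (C.miq (nat_lit 2819950886) (nat_lit 369952275290805089792819789)) C.nil)) C.nil)) C.nil)) C.nil)) C.nil))) (C.cons (nat_lit 70) (C.node (nat_lit 2) (nat_lit 5) (nat_lit 6) (C.cons (nat_lit 100) (C.node (nat_lit 5) (nat_lit 8) (nat_lit 10) (C.cons (nat_lit 1314) (C.miq (nat_lit 1361488016) (nat_lit 84645781690897293730711425)) (C.cons (nat_lit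 1312) (C.node (nat_lit 5) (nat_lit 8) (nat_lit 9) (C.cons (nat_lit 864) (C.miq (nat_lit 441983081) (nat_lit 1586124953404512112830579277)) (C.cons (nat_lit 800) (C.node (nat_lit 6) (nat_lit 8) (nat_lit 9) (C.cons (nat_lit 848) (C.miq (nat_lit 440934505) (nat_lit 1566782140290678046034231885)) (C.cons (nat_lit 832) (C.node (nat_lit 1) (nat_lit 2) (nat_lit 5) (C.cons (nat_lit 46) (C.node (nat_lit 1) (nat_lit 2) (nat_lit 7) C.nil) (C.cons (nat_lit 38) (C.node (nat_lit 1) (nat_lit 2) (nat_lit 3) (C.cons (nat_lit 14) (C.node (nat_lit 1) (nat_lit 2) (nat_lit 7) (C.cons (nat_lit 134) (C.node (nat_lit 2) (nat_lit 3) (nat_lit 7) C.nil) C.nil)) C.nil)) C.nil))) C.nil))) C.nil))) C.nil))) C.nil)) C.nil))) C.nil))))) C.nil))))) C.nil))) C.nil))) C.nil))) C.nil))) (C.cons (nat_lit 518) (C.node (nat_lit 2) (nat_lit 8) (nat_lit 9) (C.cons (nat_lit 772) (C.node (nat_lit 3) (nat_lit 4) (nat_lit 5) (C.cons (nat_lit 58) (C.node (nat_lit 5) (nat_lit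 8) (nat_lit 10) (C.cons (nat_lit 1316) (C.miq (nat_lit 1380158064) (nat_lit 33855402002625611691526017)) (C.cons (nat_lit 1314) (C.miq (nat_lit 343560968) (nat_lit 1416885299626384453011570985)) (C.cons (nat_lit 1312) (C.node (nat_lit 1) (nat_lit 4) (nat_lit 6) (C.cons (nat_lit 338) (C.node (nat_lit 1) (nat_lit 4) (nat_lit 7) (C.cons (nat_lit 146) (C.node (nat_lit 1) (nat_lit 4) (nat_lit 10) (C.cons (nat_lit 1042) (C.node (nat_lit 3) (nat_lit 4) (nat_lit 6) (C.cons (nat_lit 88) (C.node (nat_lit 4) (nat_lit 8) (nat_lit 10) (C.cons (nat_lit 1304) (C.miq (nat_lit 874875504) (nat_lit 681839641312689149614294913)) (C.cons (nat_lit 1296) (C.node (nat_lit 1) (nat_lit 8) (nat_lit 9) (C.cons (nat_lit 802) (C.miq (nat_lit 2018707732) (nat_lit 359053791318105017277874707)) (C.cons (nat_lit 778) (C.miq (nat_lit 2822048020) (nat_lit 359071942914273444397449747)) (C.cons (nat_lit 770) (C.node (nat_lit 2) (nat_lit 7) (nat_lit 8) (C.cons (nat_lit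 398) (C.miq (nat_lit 1411582584) (nat_lit 33855401952241590876374913)) (C.cons (nat_lit 396) (C.miq (nat_lit 1411582584) (nat_lit 33855401952241590876243841)) (C.cons (nat_lit 390)
  (C.miq (nat_lit 1384384278) (nat_lit 334893426027709135370453187)) (C.cons (nat_lit 388) (C.node (nat_lit 1) (nat_lit 2) (nat_lit 6) (C.cons (nat_lit 102) (C.node (nat_lit 1) (nat_lit 6) (nat_lit 9) (C.cons (nat_lit 578) (C.node (nat_lit 2) (nat_lit 5) (nat_lit 8) (C.cons (nat_lit 292) (C.node (nat_lit 2) (nat_lit 6) (nat_lit 8) (C.cons (nat_lit 324) (C.node (nat_lit 1) (nat_lit 2) (nat_lit 7) (C.cons (nat_lit 142) (C.miq (nat_lit 1366581808) (nat_lit 176524143640458724787159629)) C.nil)) C.nil)) C.nil)) C.nil)) (C.cons (nat_lit 70) (C.node (nat_lit 1) (nat_lit 2) (nat_lit 5) (C.cons (nat_lit 294) (C.node (nat_lit 2) (nat_lit 5) (nat_lit 6) (C.cons (nat_lit 100) (C.node (nat_lit 2) (nat_lit 6) (nat_lit 8) C.nil) C.nil)) (C.cons (nat_lit 38) (C.node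 (nat_lit 1) (nat_lit 2) (nat_lit 7) (C.cons (nat_lit 142) (C.node (nat_lit 1) (nat_lit 2) (nat_lit 8) C.nil) (C.cons (nat_lit 134) (C.node (nat_lit 2) (nat_lit 3) (nat_lit 7) (C.cons (nat_lit 140) (C.node (nat_lit 1) (nat_lit 2) (nat_lit 3) C.nil) C.nil)) C.nil))) C.nil))) C.nil))) C.nil))))) C.nil)))) C.nil))) C.nil)) C.nil)) C.nil)) (C.cons (nat_lit 82) (C.node (nat_lit 1) (nat_lit 4) (nat_lit 7) (C.cons (nat_lit 402) (C.node (nat_lit 1) (nat_lit 4) (nat_lit 10) (C.cons (nat_lit 1042) (C.node (nat_lit 4) (nat_lit 5) (nat_lit 7) (C.cons (nat_lit 176) (C.node (nat_lit 4) (nat_lit 5) (nat_lit 8) (C.cons (nat_lit 304) (C.node (nat_lit 2) (nat_lit 7) (nat_lit 8) (C.cons (nat_lit 396) (C.miq (nat_lit 1411582584) (nat_lit 33855401952241590876243841)) (C.cons (nat_lit 388) (C.node (nat_lit 4) (nat_lit 8) (nat_lit 10) (C.cons (nat_lit 1304) (C.miq (nat_lit 874875504) (nat_lit 681839641312689149614294913)) (C.cons (nat_lit 1296) (C.node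 (nat_lit 3) (nat_lit 8) (nat_lit 9) (C.cons (nat_lit 792) (C.miq (nat_lit 873896048) (nat_lit 99142782563588915396282241)) (C.cons (nat_lit 778) (C.miq (nat_lit 2822048020) (nat_lit 359071942914273444397449747)) (C.cons (nat_lit 776) (C.node (nat_lit 3) (nat_lit 7) (nat_lit 8) (C.cons (nat_lit 456) (C.miq (nat_lit 1228410983) (nat_lit 938133851761535613210722499)) (C.cons (nat_lit 392) (C.node (nat_lit 1) (nat_lit 8) (nat_lit 9) (C.cons (nat_lit 866) (C.miq (nat_lit 1631819888) (nat_lit 70128562913666963477170049)) (C.cons (nat_lit 834) (C.miq (nat_lit 1631819888) (nat_lit 70128562904659764222429057)) (C.cons (nat_lit 802) (C.miq (nat_lit 2018707732) (nat_lit 359053791318105017277874707)) (C.cons (nat_lit 770) (C.node (nat_lit 1) (nat_lit 2) (nat_lit 7) (C.cons (nat_lit 142) (C.node (nat_lit 3) (nat_lit 7) (nat_lit 10) (C.cons (nat_lit 1192) (C.miq (nat_lit 2536573524) (nat_lit 171677262147099032446174321)) (C.cons (nat_lit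 1160) (C.node (nat_lit 1) (nat_lit 2) (nat_lit 6) (C.cons (nat_lit 358) (C.miq (nat_lit 1366581808) (nat_lit 486009153533861387549868621)) (C.cons (nat_lit 326) (C.miq (nat_lit 880936726) (nat_lit 334883317208579094354460867)) (C.cons (nat_lit 102) (C.miq (nat_lit 1366581808) (nat_lit 486009153461803793511940685)) (C.cons (nat_lit 70) (C.node (nat_lit 1) (nat_lit 2) (nat_lit 5) (C.cons (nat_lit 294) (C.node (nat_lit 2) (nat_lit 5) (nat_lit 10) C.nil) (C.cons (nat_lit 38) (C.node (nat_lit 1) (nat_lit 2) (nat_lit 8) C.nil) C.nil))) C.nil))))) C.nil))) (C.cons (nat_lit 134) (C.node (nat_lit 2) (nat_lit 3) (nat_lit 7) (C.cons (nat_lit 140) (C.node (nat_lit 1) (nat_lit 2) (nat_lit 3) (C.cons (nat_lit 270) (C.node (nat_lit 2) (nat_lit 8) (nat_lit 10) C.nil) (C.cons (nat_lit 14) (C.node (nat_lit 3) (nat_lit 4) (nat_lit 8) C.nil) C.nil))) C.nil)) C.nil))) C.nil))))) C.nil))) C.nil)))) C.nil))) C.nil))) C.nil)) C.nil)) C.nil)) (C.cons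 (nat_lit 146) (C.node (nat_lit 1) (nat_lit 4) (nat_lit 8) (C.cons (nat_lit 1298) (C.node (nat_lit 4) (nat_lit 5) (nat_lit 7) (C.cons (nat_lit 432) (C.miq (nat_lit 340961392) (nat_lit 681853181221147224289118081)) (C.cons (nat_lit 176) (C.node (nat_lit 4) (nat_lit 5) (nat_lit 8) (C.cons (nat_lit 304) (C.node (nat_lit 3) (nat_lit 8) (nat_lit 9) (C.cons (nat_lit 792)
  (C.miq (nat_lit 338864272) (nat_lit 33868941907707532862621569)) (C.cons (nat_lit 778) (C.miq (nat_lit 1678969481) (nat_lit 70128562989950530497415041)) (C.cons (nat_lit 776) (C.node (nat_lit 2) (nat_lit 8) (nat_lit 10) (C.cons (nat_lit 1292) (C.miq (nat_lit 1228410922) (nat_lit 938150380044225657023759367)) (C.cons (nat_lit 1284) (C.node (nat_lit 3) (nat_lit 8) (nat_lit 10) (C.cons (nat_lit 1352) (C.miq (nat_lit 423116906) (nat_lit 938150380044225657027691633)) (C.cons (nat_lit 1288) (C.node (nat_lit 6) (nat_lit 8) (nat_lit 10) (C.cons (nat_lit 1344) (C.node (nat_lit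 4) (nat_lit 8) (nat_lit 9) (C.cons (nat_lit 848) (C.miq (nat_lit 342010000) (nat_lit 101568787806127007164336001)) (C.cons (nat_lit 784) (C.node (nat_lit 5) (nat_lit 7) (nat_lit 10) (C.cons (nat_lit 1192) (C.miq (nat_lit 977819424) (nat_lit 1569191192878301766464372901)) (C.cons (nat_lit 1186) (C.miq (nat_lit 605358247) (nat_lit 70120741328394797703104385)) (C.cons (nat_lit 1184) (C.node (nat_lit 1) (nat_lit 5) (nat_lit 10) (C.cons (nat_lit 1570) (C.miq (nat_lit 933576849) (nat_lit 1431369240377951140177904147)) (C.cons (nat_lit 1058) (C.node (nat_lit 1) (nat_lit 9) (nat_lit 10) (C.cons (nat_lit 1546) (C.miq (nat_lit 826448512) (nat_lit 26607233598947145649817473)) (C.cons (nat_lit 1538) (C.node (nat_lit 4) (nat_lit 9) (nat_lit 10) (C.cons (nat_lit 1560) (C.node (nat_lit 5) (nat_lit 9) (nat_lit 10) C.nil) C.nil)) C.nil))) C.nil))) C.nil)))) C.nil))) C.nil)) C.nil))) C.nil))) C.nil)))) C.nil)) C.nil))) (C.cons (nat_lit 274)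 (C.node (nat_lit 1) (nat_lit 4) (nat_lit 10) (C.cons (nat_lit 1042) (C.node (nat_lit 4) (nat_lit 8) (nat_lit 10) (C.cons (nat_lit 1304) (C.miq (nat_lit 874875504) (nat_lit 681839641312689149614294913)) (C.cons (nat_lit 1296) (C.node (nat_lit 2) (nat_lit 3) (nat_lit 5) (C.cons (nat_lit 1068) (C.node (nat_lit 2) (nat_lit 8) (nat_lit 10) (C.cons (nat_lit 1284) (C.node (nat_lit 5) (nat_lit 9) (nat_lit 10) (C.cons (nat_lit 1570) (C.miq (nat_lit 2052262164) (nat_lit 1291135598240987409511219731)) (C.cons (nat_lit 1568) (C.node (nat_lit 1) (nat_lit 5) (nat_lit 10) (C.cons (nat_lit 1186) (C.node (nat_lit 3) (nat_lit 7) (nat_lit 10) (C.cons (nat_lit 1160) (C.node (nat_lit 1) (nat_lit 7) (nat_lit 9) (C.cons (nat_lit 650) (C.miq (nat_lit 1695746681) (nat_lit 70128562989950049452689281)) (C.cons (nat_lit 642) (C.node (nat_lit 1) (nat_lit 9) (nat_lit 10) (C.cons (nat_lit 1546) (C.miq (nat_lit 588581287) (nat_lit 70120741416216055588718465))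 (C.cons (nat_lit 1538) (C.node (nat_lit 3) (nat_lit 4) (nat_lit 10) (C.cons (nat_lit 1560) (C.node (nat_lit 3) (nat_lit 4) (nat_lit 6) C.nil) C.nil)) C.nil))) C.nil))) C.nil)) (C.cons (nat_lit 1058) (C.node (nat_lit 5) (nat_lit 7) (nat_lit 10) (C.cons (nat_lit 1184) (C.node (nat_lit 3) (nat_lit 5) (nat_lit 6) (C.cons (nat_lit 232) (C.miq (nat_lit 1973510944) (nat_lit 1279047114332678821891211853)) (C.cons (nat_lit 104) (C.node (nat_lit 2) (nat_lit 3) (nat_lit 7) (C.cons (nat_lit 398) (C.miq (nat_lit 1110812544) (nat_lit 1291153749626326148467722113)) (C.cons (nat_lit 396) (C.miq (nat_lit 1110812544) (nat_lit 1291153749626326139877787521)) (C.cons (nat_lit 142) (C.miq (nat_lit 1985155234) (nat_lit 125730904732472404832158727)) (C.cons (nat_lit 140) (C.node (nat_lit 1) (nat_lit 2) (nat_lit 3) (C.cons (nat_lit 270) (C.node (nat_lit 1) (nat_lit 7) (nat_lit 10) C.nil) (C.cons (nat_lit 14) (C.node (nat_lit 2) (nat_lit 3) (nat_lit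 8) C.nil) C.nil))) C.nil))))) C.nil))) C.nil)) C.nil))) C.nil))) C.nil)) (C.cons (nat_lit 44) (C.node (nat_lit 2) (nat_lit 5) (nat_lit 10) (C.cons (nat_lit 1060) (C.node (nat_lit 2) (nat_lit 3) (nat_lit 10) (C.cons (nat_lit 1292) (C.node (nat_lit 3) (nat_lit 7) (nat_lit 8) (C.cons (nat_lit 456) (C.miq (nat_lit 305531527) (nat_lit 712060905158317207380821889)) (C.cons (nat_lit 394) (C.miq (nat_lit 363344903) (nat_lit 1586117943367888950930768025)) (C.cons (nat_lit 392) (C.node (nat_lit 3) (nat_lit 8) (nat_lit 9) (C.cons (nat_lit 792) (C.miq (nat_lit 591505552) (nat_lit 70136716494457558239741825))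
  (C.cons (nat_lit 778) (C.miq (nat_lit 2822048020) (nat_lit 359071942914273444397449747)) (C.cons (nat_lit 776) (C.node (nat_lit 1) (nat_lit 2) (nat_lit 3) (C.cons (nat_lit 142) (C.node (nat_lit 2) (nat_lit 7) (nat_lit 8) (C.cons (nat_lit 388) (C.node (nat_lit 1) (nat_lit 3) (nat_lit 9) (C.cons (nat_lit 1546) (C.miq (nat_lit 321165952) (nat_lit 33859718605478619774257025)) (C.cons (nat_lit 522) (C.node (nat_lit 1) (nat_lit 3) (nat_lit 10) (C.cons (nat_lit 1098) (C.miq (nat_lit 1379534614) (nat_lit 1561953132936556682595139779)) (C.cons (nat_lit 1034) (C.node (nat_lit 3) (nat_lit 6) (nat_lit 10) C.nil) C.nil))) C.nil))) C.nil)) (C.cons (nat_lit 14) (C.node (nat_lit 2) (nat_lit 3) (nat_lit 7) (C.cons (nat_lit 140) (C.node (nat_lit 1) (nat_lit 2) (nat_lit 7) C.nil) C.nil)) C.nil))) C.nil)))) C.nil)))) (C.cons (nat_lit 1036) (C.node (nat_lit 2) (nat_lit 8) (nat_lit 10) (C.cons (nat_lit 1284) (C.node (nat_lit 3) (nat_lit 4) (nat_lit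 6) (C.cons (nat_lit 344) (C.node (nat_lit 3) (nat_lit 4) (nat_lit 10) C.nil) (C.cons (nat_lit 88) (C.node (nat_lit 3) (nat_lit 4) (nat_lit 10) (C.cons (nat_lit 1048) (C.node (nat_lit 4) (nat_lit 9) (nat_lit 10) C.nil) C.nil)) C.nil))) C.nil)) C.nil))) C.nil)) C.nil))) C.nil))) C.nil)) C.nil))) C.nil))) C.nil))) C.nil)))) (C.cons (nat_lit 56) (C.node (nat_lit 4) (nat_lit 7) (nat_lit 9) (C.cons (nat_lit 720) (C.node (nat_lit 4) (nat_lit 5) (nat_lit 7) (C.cons (nat_lit 434) (C.miq (nat_lit 1683199872) (nat_lit 67710711233342495976392577)) (C.cons (nat_lit 432) (C.miq (nat_lit 1683199872) (nat_lit 67710711233342487386457985)) (C.cons (nat_lit 178) (C.miq (nat_lit 1649871169) (nat_lit 199476357517299370844881427)) (C.cons (nat_lit 176) (C.node (nat_lit 1) (nat_lit 4) (nat_lit 5) (C.cons (nat_lit 306) (C.node (nat_lit 1) (nat_lit 4) (nat_lit 7) (C.cons (nat_lit 146) (C.node (nat_lit 4) (nat_lit 7) (nat_lit 8) (C.cons (nat_lit 400)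 (C.node (nat_lit 4) (nat_lit 8) (nat_lit 10) (C.cons (nat_lit 1304) (C.miq (nat_lit 874875504) (nat_lit 681839641312689149614294913)) (C.cons (nat_lit 1296) (C.node (nat_lit 5) (nat_lit 8) (nat_lit 9) (C.cons (nat_lit 864) (C.miq (nat_lit 895748247) (nat_lit 1374551479337278428184315777)) (C.cons (nat_lit 800) (C.node (nat_lit 5) (nat_lit 6) (nat_lit 9) (C.cons (nat_lit 610) (C.miq (nat_lit 2190557285) (nat_lit 626229219342035565945160817)) (C.cons (nat_lit 608) (C.node (nat_lit 5) (nat_lit 8) (nat_lit 10) (C.cons (nat_lit 1316) (C.miq (nat_lit 1380158064) (nat_lit 33855402002625611691526017)) (C.cons (nat_lit 1312) (C.node (nat_lit 2) (nat_lit 5) (nat_lit 8) (C.cons (nat_lit 356) (C.miq (nat_lit 422068325) (nat_lit 933296377595646020388390001)) (C.cons (nat_lit 292) (C.node (nat_lit 1) (nat_lit 4) (nat_lit 6) (C.cons (nat_lit 90) (C.node (nat_lit 1) (nat_lit 4) (nat_lit 10) (C.cons (nat_lit 1042) (C.node (nat_lit 4) (nat_lit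 6) (nat_lit 8) (C.cons (nat_lit 336) (C.node (nat_lit 1) (nat_lit 5) (nat_lit 6) (C.cons (nat_lit 102) (C.miq (nat_lit 1947534178) (nat_lit 369934344557914747526578765)) (C.cons (nat_lit 98) (C.node (nat_lit 2) (nat_lit 5) (nat_lit 6) C.nil) C.nil))) C.nil)) C.nil)) (C.cons (nat_lit 82) (C.node (nat_lit 1) (nat_lit 3) (nat_lit 4) (C.cons (nat_lit 1050) (C.node (nat_lit 4) (nat_lit 9) (nat_lit 10) (C.cons (nat_lit 1552) (C.node (nat_lit 1) (nat_lit 6) (nat_lit 9) (C.cons (nat_lit 834) (C.node (nat_lit 3) (nat_lit 4) (nat_lit 9) (C.cons (nat_lit 792) (C.miq (nat_lit 407333168) (nat_lit 483573925195699575445848653)) C.nil)) C.nil)) C.nil)) (C.cons (nat_lit 26) (C.node (nat_lit 1) (nat_lit 4) (nat_lit 10) (C.cons (nat_lit 1042) (C.node (nat_lit 1) (nat_lit 6) (nat_lit 9) (C.cons (nat_lit 834) (C.node (nat_lit 2) (nat_lit 6) (nat_lit 8) (C.cons (nat_lit 324) (C.node (nat_lit 4) (nat_lit 6) (nat_lit 8) C.nil) C.nil)) (C.cons (nat_lit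 578) (C.node (nat_lit 6) (nat_lit 8) (nat_lit 9) C.nil) C.nil))) C.nil)) C.nil))) C.nil))) C.nil))) C.nil))) C.nil))) C.nil))) C.nil))) C.nil)) C.nil)) (C.cons (nat_lit 50) (C.node (nat_lit 4) (nat_lit 5) (nat_lit 8)
  (C.cons (nat_lit 304) (C.node (nat_lit 1) (nat_lit 4) (nat_lit 7) (C.cons (nat_lit 402) (C.node (nat_lit 1) (nat_lit 4) (nat_lit 6) (C.cons (nat_lit 90) (C.miq (nat_lit 2150725988) (nat_lit 13305600147594512164324048)) (C.cons (nat_lit 82) (C.node (nat_lit 2) (nat_lit 7) (nat_lit 8) (C.cons (nat_lit 396) (C.miq (nat_lit 1411582584) (nat_lit 33855401952241590876243841)) (C.cons (nat_lit 388) (C.node (nat_lit 3) (nat_lit 7) (nat_lit 8) (C.cons (nat_lit 456) (C.miq (nat_lit 272124263) (nat_lit 359058384166128238526464720)) (C.cons (nat_lit 392) (C.node (nat_lit 4) (nat_lit 8) (nat_lit 9) (C.cons (nat_lit 792) (C.miq (nat_lit 873896048) (nat_lit 99142782563588915396282241)) (C.cons (nat_lit 784) (C.node (nat_lit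 4) (nat_lit 8) (nat_lit 10) (C.cons (nat_lit 1304) (C.miq (nat_lit 874875504) (nat_lit 681839641312689149614294913)) (C.cons (nat_lit 1296) (C.node (nat_lit 6) (nat_lit 8) (nat_lit 9) (C.cons (nat_lit 866) (C.miq (nat_lit 907282823) (nat_lit 99134739726035350637905793)) (C.cons (nat_lit 864) (C.miq (nat_lit 895748247) (nat_lit 1374551479337278428184315777)) (C.cons (nat_lit 834) (C.miq (nat_lit 907282823) (nat_lit 99134739726035213198952321)) (C.cons (nat_lit 832) (C.node (nat_lit 1) (nat_lit 2) (nat_lit 7) (C.cons (nat_lit 142) (C.node (nat_lit 1) (nat_lit 3) (nat_lit 4) (C.cons (nat_lit 1050) (C.miq (nat_lit 1412893202) (nat_lit 184968694433851984051045383)) (C.cons (nat_lit 26) (C.node (nat_lit 1) (nat_lit 4) (nat_lit 10) (C.cons (nat_lit 1042) (C.node (nat_lit 2) (nat_lit 3) (nat_lit 5) (C.cons (nat_lit 44) (C.node (nat_lit 2) (nat_lit 3) (nat_lit 8) C.nil) C.nil)) C.nil)) C.nil))) (C.cons (nat_lit 134) (C.node (nat_lit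 2) (nat_lit 3) (nat_lit 7) (C.cons (nat_lit 140) (C.node (nat_lit 2) (nat_lit 5) (nat_lit 10) (C.cons (nat_lit 1316) (C.miq (nat_lit 1380158064) (nat_lit 33855402002625611691526017)) (C.cons (nat_lit 1068) (C.node (nat_lit 2) (nat_lit 8) (nat_lit 10) C.nil) C.nil))) C.nil)) C.nil))) C.nil))))) C.nil))) C.nil))) C.nil))) C.nil))) C.nil))) (C.cons (nat_lit 146) (C.node (nat_lit 4) (nat_lit 7) (nat_lit 8) (C.cons (nat_lit 400) (C.node (nat_lit 4) (nat_lit 8) (nat_lit 9) (C.cons (nat_lit 792) (C.node (nat_lit 4) (nat_lit 9) (nat_lit 10) (C.cons (nat_lit 1552) (C.node (nat_lit 3) (nat_lit 4) (nat_lit 6) (C.cons (nat_lit 90) (C.miq (nat_lit 2216137568) (nat_lit 176538606082030023670432333)) (C.cons (nat_lit 88) (C.node (nat_lit 4) (nat_lit 8) (nat_lit 10) (C.cons (nat_lit 1298) (C.miq (nat_lit 338864272) (nat_lit 33868941907707532862621569)) (C.cons (nat_lit 1296) (C.node (nat_lit 1) (nat_lit 3) (nat_lit 4) (C.cons (nat_lit 1050)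 (C.node (nat_lit 1) (nat_lit 4) (nat_lit 6) (C.cons (nat_lit 338) (C.node (nat_lit 1) (nat_lit 6) (nat_lit 10) (C.cons (nat_lit 1090) (C.node (nat_lit 3) (nat_lit 7) (nat_lit 10) (C.cons (nat_lit 1192) (C.miq (nat_lit 977819424) (nat_lit 1566773341239072508114960549)) (C.cons (nat_lit 1160) (C.node (nat_lit 2) (nat_lit 8) (nat_lit 10) (C.cons (nat_lit 1316) (C.miq (nat_lit 1380158064) (nat_lit 33855402002625611691526017)) (C.cons (nat_lit 1292) (C.miq (nat_lit 591505552) (nat_lit 1269391129552169699548268417)) C.nil))) C.nil))) C.nil)) C.nil)) C.nil)) C.nil))) C.nil))) C.nil)) (C.cons (nat_lit 784) (C.node (nat_lit 3) (nat_lit 4) (nat_lit 9) (C.cons (nat_lit 1560) (C.node (nat_lit 1) (nat_lit 4) (nat_lit 10) (C.cons (nat_lit 1298) (C.node (nat_lit 1) (nat_lit 3) (nat_lit 4) (C.cons (nat_lit 90) (C.miq (nat_lit 2753008480) (nat_lit 176538606298202805784216141)) (C.cons (nat_lit 26) (C.node (nat_lit 1) (nat_lit 4) (nat_lit 6)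 (C.cons (nat_lit 82) (C.node (nat_lit 3) (nat_lit 4) (nat_lit 6) (C.cons (nat_lit 344) (C.node (nat_lit 6) (nat_lit 8) (nat_lit 10) (C.cons (nat_lit 1344) (C.node (nat_lit 3) (nat_lit 6) (nat_lit 7) (C.cons (nat_lit 232) (C.miq (nat_lit 1181909840) (nat_lit 236954570489404124219900201)) (C.cons (nat_lit 200) (C.node (nat_lit 2) (nat_lit 6) (nat_lit 8) (C.cons (nat_lit 358) (C.miq (nat_lit 840458404) (nat_lit 432801789267791790109492337)) (C.cons (nat_lit 356)
  (C.miq (nat_lit 1954874210) (nat_lit 367516492918686580115505741)) (C.cons (nat_lit 326) (C.miq (nat_lit 840458404) (nat_lit 394116163040123656518894705)) C.nil)))) C.nil))) C.nil)) C.nil)) C.nil)) C.nil))) (C.cons (nat_lit 1042) (C.node (nat_lit 4) (nat_lit 8) (nat_lit 10) (C.cons (nat_lit 1296) (C.node (nat_lit 1) (nat_lit 3) (nat_lit 4) (C.cons (nat_lit 346) (C.miq (nat_lit 2753008480) (nat_lit 176538606298203905295843917)) (C.cons (nat_lit 282) (C.node (nat_lit 1)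 (nat_lit 4) (nat_lit 6) C.nil) (C.cons (nat_lit 90) (C.miq (nat_lit 2753008480) (nat_lit 176538606298202805784216141)) C.nil)))) C.nil)) C.nil))) (C.cons (nat_lit 536) (C.node (nat_lit 4) (nat_lit 9) (nat_lit 10) (C.cons (nat_lit 1552) (C.node (nat_lit 3) (nat_lit 8) (nat_lit 9) (C.cons (nat_lit 778) (C.node (nat_lit 5) (nat_lit 8) (nat_lit 9) (C.cons (nat_lit 864) (C.miq (nat_lit 895748247) (nat_lit 1374551479337278428184315777)) (C.cons (nat_lit 800) (C.node (nat_lit 6) (nat_lit 8) (nat_lit 9) (C.cons (nat_lit 832) (C.node (nat_lit 3) (nat_lit 4) (nat_lit 8) (C.cons (nat_lit 1304) (C.miq (nat_lit 874875504) (nat_lit 681839641312689149614294913)) (C.cons (nat_lit 344) (C.node (nat_lit 1) (nat_lit 4) (nat_lit 6) C.nil) C.nil))) C.nil)) C.nil))) (C.cons (nat_lit 776) (C.node (nat_lit 8) (nat_lit 4) (nat_lit 10) (C.cons (nat_lit 1306) (C.miq (nat_lit 874875504) (nat_lit 681839641313252099567716225)) (C.cons (nat_lit 1304) (C.miq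 (nat_lit 874875504) (nat_lit 681839641312689149614294913)) (C.cons (nat_lit 1298) (C.node (nat_lit 3) (nat_lit 4) (nat_lit 10) C.nil) C.nil)))) C.nil))) C.nil)) C.nil))) C.nil))) C.nil)) C.nil))) C.nil)) C.nil))) C.nil))))) (C.cons (nat_lit 656) (C.node (nat_lit 4) (nat_lit 6) (nat_lit 7) (C.cons (nat_lit 464) (C.node (nat_lit 4) (nat_lit 6) (nat_lit 9) (C.cons (nat_lit 592) (C.node (nat_lit 1) (nat_lit 4) (nat_lit 7) (C.cons (nat_lit 178) (C.miq (nat_lit 1649871169) (nat_lit 199476357517299370844881427)) (C.cons (nat_lit 146) (C.node (nat_lit 4) (nat_lit 5) (nat_lit 7) (C.cons (nat_lit 176) (C.node (nat_lit 2) (nat_lit 7) (nat_lit 8) (C.cons (nat_lit 398) (C.miq (nat_lit 1411582584) (nat_lit 33855401952241590876374913)) (C.cons (nat_lit 396) (C.miq (nat_lit 1411582584) (nat_lit 33855401952241590876243841)) (C.cons (nat_lit 390) (C.miq (nat_lit 2759984753) (nat_lit 334891470946431317351727299)) (C.cons (nat_lit 388) (C.node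 (nat_lit 1) (nat_lit 2) (nat_lit 7) (C.cons (nat_lit 142) (C.node (nat_lit 3) (nat_lit 7) (nat_lit 8) (C.cons (nat_lit 392) (C.node (nat_lit 1) (nat_lit 4) (nat_lit 6) (C.cons (nat_lit 90) (C.miq (nat_lit 1410795058) (nat_lit 176506213696545456659497549)) (C.cons (nat_lit 82) (C.node (nat_lit 3) (nat_lit 4) (nat_lit 6) (C.cons (nat_lit 88) (C.node (nat_lit 3) (nat_lit 7) (nat_lit 10) (C.cons (nat_lit 1192) (C.miq (nat_lit 925391424) (nat_lit 469068697028989217481753713)) (C.cons (nat_lit 1160) (C.node (nat_lit 1) (nat_lit 4) (nat_lit 5) (C.cons (nat_lit 306) (C.node (nat_lit 1) (nat_lit 7) (nat_lit 8) (C.cons (nat_lit 386) (C.node (nat_lit 5) (nat_lit 7) (nat_lit 8) (C.cons (nat_lit 416) (C.node (nat_lit 1) (nat_lit 7) (nat_lit 9) C.nil) C.nil)) C.nil)) (C.cons (nat_lit 50) (C.node (nat_lit 4) (nat_lit 5) (nat_lit 8) (C.cons (nat_lit 304) (C.node (nat_lit 2) (nat_lit 3) (nat_lit 5) (C.cons (nat_lit 44) (C.node (nat_lit 2) (nat_lit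 3) (nat_lit 8) C.nil) C.nil)) C.nil)) C.nil))) C.nil))) C.nil)) C.nil))) C.nil)) (C.cons (nat_lit 134) (C.node (nat_lit 2) (nat_lit 3) (nat_lit 7) (C.cons (nat_lit 140) (C.node (nat_lit 1) (nat_lit 4) (nat_lit 5) (C.cons (nat_lit 306) (C.node (nat_lit 5) (nat_lit 7) (nat_lit 8) (C.cons (nat_lit 416) (C.node (nat_lit 4) (nat_lit 8) (nat_lit 10) (C.cons (nat_lit 1304) (C.miq (nat_lit 874875504) (nat_lit 681839641312689149614294913)) (C.cons (nat_lit 1296) (C.node (nat_lit 1) (nat_lit 4) (nat_lit 6) (C.cons (nat_lit 90) (C.node (nat_lit 1) (nat_lit 4) (nat_lit 10) C.nil) C.nil)) C.nil))) C.nil)) (C.cons (nat_lit 50) (C.node (nat_lit 4) (nat_lit 5) (nat_lit 8) (C.cons (nat_lit 304)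
  (C.node (nat_lit 1) (nat_lit 4) (nat_lit 6) (C.cons (nat_lit 90) (C.node (nat_lit 1) (nat_lit 2) (nat_lit 3) C.nil) (C.cons (nat_lit 82) (C.node (nat_lit 3) (nat_lit 4) (nat_lit 6) (C.cons (nat_lit 88) (C.node (nat_lit 1) (nat_lit 2) (nat_lit 3) C.nil) C.nil)) C.nil))) C.nil)) C.nil))) C.nil)) C.nil))) C.nil))))) C.nil)) C.nil))) C.nil)) (C.cons (nat_lit 208) (C.node (nat_lit 4) (nat_lit 6) (nat_lit 9) (C.cons (nat_lit 848) (C.node (nat_lit 6) (nat_lit 7) (nat_lit 9) (C.cons (nat_lit 736) (C.miq (nat_lit 610601111) (nat_lit 1374551700692577744446293889)) (C.cons (nat_lit 704) (C.node (nat_lit 4) (nat_lit 5) (nat_lit 7) (C.cons (nat_lit 434) (C.miq (nat_lit 1683134576) (nat_lit 681845027633602913737443201)) (C.cons (nat_lit 432) (C.miq (nat_lit 1683134576) (nat_lit 681845027633602905147508609)) (C.cons (nat_lit 178) (C.miq (nat_lit 1649871169) (nat_lit 199476357517299370844881427)) (C.cons (nat_lit 176) (C.node (nat_lit 4)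 (nat_lit 8) (nat_lit 10) (C.cons (nat_lit 1306) (C.miq (nat_lit 874875504) (nat_lit 681839641313252099567716225)) (C.cons (nat_lit 1304) (C.miq (nat_lit 874875504) (nat_lit 681839641312689149614294913)) (C.cons (nat_lit 1298) (C.miq (nat_lit 342010000) (nat_lit 101568787806127007164336001)) (C.cons (nat_lit 1296) (C.node (nat_lit 1) (nat_lit 4) (nat_lit 5) (C.cons (nat_lit 306) (C.node (nat_lit 1) (nat_lit 4) (nat_lit 7) (C.cons (nat_lit 146) (C.node (nat_lit 3) (nat_lit 4) (nat_lit 8) (C.cons (nat_lit 280) (C.node (nat_lit 4) (nat_lit 7) (nat_lit 8) (C.cons (nat_lit 400) (C.node (nat_lit 5) (nat_lit 8) (nat_lit 9) (C.cons (nat_lit 800) (C.node (nat_lit 1) (nat_lit 6) (nat_lit 9) (C.cons (nat_lit 610) (C.miq (nat_lit 2190557285) (nat_lit 626229219342035565945160817)) (C.cons (nat_lit 578) (C.node (nat_lit 5) (nat_lit 6) (nat_lit 9) (C.cons (nat_lit 608) (C.node (nat_lit 5) (nat_lit 7) (nat_lit 8) C.nil) C.nil)) C.nil))) C.nil))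 C.nil)) C.nil)) C.nil)) (C.cons (nat_lit 50) (C.node (nat_lit 4) (nat_lit 5) (nat_lit 8) (C.cons (nat_lit 304) (C.node (nat_lit 1) (nat_lit 4) (nat_lit 6) (C.cons (nat_lit 90) (C.node (nat_lit 1) (nat_lit 4) (nat_lit 10) (C.cons (nat_lit 1042) (C.node (nat_lit 3) (nat_lit 4) (nat_lit 8) (C.cons (nat_lit 280) (C.node (nat_lit 1) (nat_lit 4) (nat_lit 7) (C.cons (nat_lit 402) (C.miq (nat_lit 2554529558) (nat_lit 338510095165070740687552707)) C.nil)) C.nil)) C.nil)) (C.cons (nat_lit 82) (C.node (nat_lit 3) (nat_lit 4) (nat_lit 6) (C.cons (nat_lit 88) (C.node (nat_lit 1) (nat_lit 4) (nat_lit 7) (C.cons (nat_lit 402) (C.node (nat_lit 3) (nat_lit 4) (nat_lit 8) C.nil) C.nil)) C.nil)) C.nil))) C.nil)) C.nil))) C.nil))))) C.nil))))) C.nil))) (C.cons (nat_lit 592) (C.node (nat_lit 4) (nat_lit 8) (nat_lit 9) (C.cons (nat_lit 792) (C.node (nat_lit 4) (nat_lit 9) (nat_lit 10) (C.cons (nat_lit 1552) (C.node (nat_lit 4) (nat_lit 8) (nat_lit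 10) (C.cons (nat_lit 1298) (C.miq (nat_lit 338864272) (nat_lit 33868941907707532862621569)) (C.cons (nat_lit 1296) (C.node (nat_lit 2) (nat_lit 8) (nat_lit 10) (C.cons (nat_lit 1316) (C.miq (nat_lit 1380158064) (nat_lit 33855402002625611691526017)) (C.cons (nat_lit 1292) (C.miq (nat_lit 305400457) (nat_lit 33859718460519006802020225)) (C.cons (nat_lit 1284) (C.node (nat_lit 4) (nat_lit 5) (nat_lit 7) (C.cons (nat_lit 434) (C.miq (nat_lit 877828208) (nat_lit 681845027617840315041646465)) (C.cons (nat_lit 432) (C.miq (nat_lit 877828208) (nat_lit 681845027617840306451711873)) (C.cons (nat_lit 178) (C.miq (nat_lit 1649871169) (nat_lit 199476357517299370844881427)) (C.cons (nat_lit 176) (C.node (nat_lit 1) (nat_lit 4) (nat_lit 5) (C.cons (nat_lit 306) (C.node (nat_lit 1) (nat_lit 4) (nat_lit 7) (C.cons (nat_lit 146) (C.node (nat_lit 4) (nat_lit 6) (nat_lit 8) (C.cons (nat_lit 336) (C.node (nat_lit 4) (nat_lit 7) (nat_lit 8) C.nil)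 C.nil)) C.nil)) (C.cons (nat_lit 50) (C.node (nat_lit 4) (nat_lit 5) (nat_lit 8) (C.cons (nat_lit 304) (C.node (nat_lit 1) (nat_lit 4) (nat_lit 7) (C.cons (nat_lit 402)
  (C.node (nat_lit 4) (nat_lit 6) (nat_lit 8) C.nil) C.nil)) C.nil)) C.nil))) C.nil))))) C.nil)))) C.nil))) C.nil)) (C.cons (nat_lit 784) (C.node (nat_lit 3) (nat_lit 4) (nat_lit 9) (C.cons (nat_lit 1560) (C.node (nat_lit 1) (nat_lit 4) (nat_lit 10) (C.cons (nat_lit 1298) (C.node (nat_lit 1) (nat_lit 3) (nat_lit 4) (C.cons (nat_lit 90) (C.miq (nat_lit 2051082550) (nat_lit 1569189311515603172547232333)) (C.cons (nat_lit 26) (C.node (nat_lit 1) (nat_lit 4) (nat_lit 6) (C.cons (nat_lit 82) (C.node (nat_lit 1) (nat_lit 4) (nat_lit 5) (C.cons (nat_lit 178) (C.miq (nat_lit 1649871169) (nat_lit 199476357517299370844881427)) (C.cons (nat_lit 50) (C.node (nat_lit 1) (nat_lit 4) (nat_lit 7) (C.cons (nat_lit 146) (C.node (nat_lit 4) (nat_lit 5) (nat_lit 7) (C.cons (nat_lit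 432) (C.miq (nat_lit 340961392) (nat_lit 681853181221147224289118081)) C.nil)) C.nil)) C.nil))) C.nil)) C.nil))) (C.cons (nat_lit 1042) (C.node (nat_lit 4) (nat_lit 8) (nat_lit 10) (C.cons (nat_lit 1296) (C.node (nat_lit 1) (nat_lit 9) (nat_lit 10) (C.cons (nat_lit 1570) (C.node (nat_lit 1) (nat_lit 7) (nat_lit 9) (C.cons (nat_lit 650) (C.miq (nat_lit 323327754) (nat_lit 67728807469574349846022017)) (C.cons (nat_lit 642) (C.node (nat_lit 5) (nat_lit 7) (nat_lit 10) (C.cons (nat_lit 1192) (C.miq (nat_lit 355768944) (nat_lit 67709641561443206602229633)) (C.cons (nat_lit 1184) (C.node (nat_lit 5) (nat_lit 8) (nat_lit 10) (C.cons (nat_lit 1316) (C.miq (nat_lit 1380158064) (nat_lit 33855402002625611691526017)) (C.cons (nat_lit 1312) (C.node (nat_lit 1) (nat_lit 3) (nat_lit 9) (C.cons (nat_lit 778) (C.node (nat_lit 1) (nat_lit 6) (nat_lit 9) (C.cons (nat_lit 578) (C.node (nat_lit 1) (nat_lit 3) (nat_lit 4) (C.cons (nat_lit 90) (C.miq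 (nat_lit 2033257030) (nat_lit 940547885315996001700021361)) (C.cons (nat_lit 26) (C.node (nat_lit 1) (nat_lit 4) (nat_lit 6) C.nil) C.nil))) C.nil)) (C.cons (nat_lit 522) (C.node (nat_lit 3) (nat_lit 8) (nat_lit 9) (C.cons (nat_lit 776) (C.node (nat_lit 1) (nat_lit 6) (nat_lit 9) (C.cons (nat_lit 834) (C.node (nat_lit 5) (nat_lit 8) (nat_lit 9) C.nil) C.nil)) C.nil)) C.nil))) C.nil))) C.nil))) C.nil))) (C.cons (nat_lit 1538) (C.node (nat_lit 5) (nat_lit 9) (nat_lit 10) (C.cons (nat_lit 1568) (C.node (nat_lit 3) (nat_lit 8) (nat_lit 9) (C.cons (nat_lit 778) (C.node (nat_lit 1) (nat_lit 3) (nat_lit 4) (C.cons (nat_lit 90) (C.miq (nat_lit 2033257030) (nat_lit 940547885315996001700021361)) (C.cons (nat_lit 26) (C.node (nat_lit 2) (nat_lit 7) (nat_lit 8) (C.cons (nat_lit 396) (C.miq (nat_lit 1411582584) (nat_lit 33855401952241590876243841)) (C.cons (nat_lit 390) (C.miq (nat_lit 607222424) (nat_lit 31439265870064478172350337)) (C.cons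 (nat_lit 388) (C.node (nat_lit 5) (nat_lit 8) (nat_lit 10) (C.cons (nat_lit 1316) (C.miq (nat_lit 1380158064) (nat_lit 33855402002625611691526017)) (C.cons (nat_lit 1314) (C.miq (nat_lit 1780024707) (nat_lit 1859338776019601777782030633)) (C.cons (nat_lit 1312) (C.node (nat_lit 1) (nat_lit 4) (nat_lit 6) C.nil) C.nil)))) C.nil)))) C.nil))) (C.cons (nat_lit 776) (C.node (nat_lit 6) (nat_lit 7) (nat_lit 9) (C.cons (nat_lit 736) (C.node (nat_lit 1) (nat_lit 7) (nat_lit 9) (C.cons (nat_lit 650) (C.miq (nat_lit 929730820) (nat_lit 1470082573755103635798295059)) C.nil)) (C.cons (nat_lit 704) (C.node (nat_lit 1) (nat_lit 4) (nat_lit 5) (C.cons (nat_lit 50) (C.node (nat_lit 1) (nat_lit 4) (nat_lit 7) C.nil) C.nil)) C.nil))) C.nil))) C.nil)) C.nil))) C.nil)) C.nil))) (C.cons (nat_lit 536) (C.node (nat_lit 4) (nat_lit 9) (nat_lit 10) (C.cons (nat_lit 1552) (C.node (nat_lit 3) (nat_lit 8) (nat_lit 9) (C.cons (nat_lit 778) (C.node (nat_lit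 5) (nat_lit 8) (nat_lit 10) (C.cons (nat_lit 1316) (C.miq (nat_lit 1380158064) (nat_lit 33855402002625611691526017)) (C.cons (nat_lit 1314) (C.miq (nat_lit 426410757) (nat_lit 1934305550624109595571847465)) (C.cons (nat_lit 1312) (C.node (nat_lit 1) (nat_lit 4) (nat_lit 5) (C.cons (nat_lit 434) (C.miq (nat_lit 1649871169) (nat_lit 199476357517299370861658643)) (C.cons (nat_lit 306)
  (C.miq (nat_lit 1669662996) (nat_lit 359071942539348775435108883)) (C.cons (nat_lit 178) (C.miq (nat_lit 1649871169) (nat_lit 199476357517299370844881427)) (C.cons (nat_lit 50) (C.node (nat_lit 1) (nat_lit 4) (nat_lit 7) (C.cons (nat_lit 402) (C.node (nat_lit 4) (nat_lit 5) (nat_lit 7) (C.cons (nat_lit 176) (C.node (nat_lit 4) (nat_lit 5) (nat_lit 8) C.nil) C.nil)) (C.cons (nat_lit 146) (C.node (nat_lit 1) (nat_lit 6) (nat_lit 9) (C.cons (nat_lit 610) (C.node (nat_lit 1) (nat_lit 7) (nat_lit 9) (C.cons (nat_lit 642) (C.node (nat_lit 1) (nat_lit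 9) (nat_lit 10) C.nil) C.nil)) (C.cons (nat_lit 578) (C.node (nat_lit 1) (nat_lit 7) (nat_lit 9) (C.cons (nat_lit 674) (C.node (nat_lit 1) (nat_lit 9) (nat_lit 10) C.nil) (C.cons (nat_lit 642) (C.node (nat_lit 4) (nat_lit 5) (nat_lit 7) C.nil) C.nil))) C.nil))) C.nil))) C.nil))))) C.nil)))) (C.cons (nat_lit 776) (C.node (nat_lit 6) (nat_lit 7) (nat_lit 9) (C.cons (nat_lit 736) (C.node (nat_lit 4) (nat_lit 5) (nat_lit 7) (C.cons (nat_lit 434) (C.miq (nat_lit 1698862976) (nat_lit 681845027602077716353189761)) (C.cons (nat_lit 432) (C.miq (nat_lit 1698862976) (nat_lit 681845027602077707763255169)) (C.cons (nat_lit 178) (C.miq (nat_lit 628528144) (nat_lit 889780268527379138891416083)) (C.cons (nat_lit 176) (C.node (nat_lit 1) (nat_lit 4) (nat_lit 5) (C.cons (nat_lit 306) (C.node (nat_lit 1) (nat_lit 4) (nat_lit 7) (C.cons (nat_lit 146) (C.node (nat_lit 4) (nat_lit 7) (nat_lit 8) C.nil) C.nil)) (C.cons (nat_lit 50) (C.node (nat_lit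 4) (nat_lit 5) (nat_lit 8) (C.cons (nat_lit 304) (C.node (nat_lit 1) (nat_lit 6) (nat_lit 9) C.nil) C.nil)) C.nil))) C.nil))))) (C.cons (nat_lit 704) (C.ref (nat_lit 115) (nat_lit 10321519924240)) C.nil))) C.nil))) C.nil)) C.nil))) C.nil))) C.nil))) C.nil))) C.nil))) C.nil))) C.nil)) C.nil))) C.nil)) C.nil))) List.nil)

theorem ok11_164 : okL par11 (nat_lit 165) c11_164 (nat_lit 164) = true := by decide +kernel

noncomputable def c11_165 : List C :=
  (List.cons (C.node (nat_lit 2) (nat_lit 5) (nat_lit 6) (C.cons (nat_lit 356) (C.miq (nat_lit 1651791920) (nat_lit 181359846990412976492183849)) (C.cons (nat_lit 100) (C.node (nat_lit 5) (nat_lit 8) (nat_lit 10) (C.cons (nat_lit 1314) (C.miq (nat_lit 2555578898) (nat_lit 359061834098523353664848903)) (C.cons (nat_lit 1312) (C.node (nat_lit 3) (nat_lit 8) (nat_lit 10) (C.cons (nat_lit 1354) (C.miq (nat_lit 1663412336) (nat_lit 55631562031403569080764289)) (C.cons (nat_lit 1352)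 (C.miq (nat_lit 1663412336) (nat_lit 55631562030840619127342977)) (C.cons (nat_lit 1306) (C.miq (nat_lit 1126541424) (nat_lit 55631562017892770198652801)) (C.cons (nat_lit 1304) (C.miq (nat_lit 1126541424) (nat_lit 55631562017329820245231489)) (C.cons (nat_lit 1290) (C.miq (nat_lit 2016741906) (nat_lit 359054012679035997735748615)) (C.cons (nat_lit 1288) (C.node (nat_lit 1) (nat_lit 2) (nat_lit 6) (C.cons (nat_lit 326) (C.node (nat_lit 6) (nat_lit 8) (nat_lit 10) (C.cons (nat_lit 1344) (C.node (nat_lit 3) (nat_lit 6) (nat_lit 8) (C.cons (nat_lit 344) (C.miq (nat_lit 1446446210) (nat_lit 241788207955736523031970069)) (C.cons (nat_lit 328) (C.node (nat_lit 1) (nat_lit 3) (nat_lit 8) (C.cons (nat_lit 778) (C.miq (nat_lit 1468080275) (nat_lit 466646214967925873916379725)) (C.cons (nat_lit 282) (C.miq (nat_lit 1966153860) (nat_lit 55613354760328645250253077)) (C.cons (nat_lit 266) (C.node (nat_lit 1) (nat_lit 4) (nat_lit 5) (C.cons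 (nat_lit 306) (C.node (nat_lit 1) (nat_lit 8) (nat_lit 9) (C.cons (nat_lit 770) (C.node (nat_lit 1) (nat_lit 8) (nat_lit 10) (C.cons (nat_lit 1282) (C.node (nat_lit 4) (nat_lit 8) (nat_lit 10) (C.cons (nat_lit 1296) (C.node (nat_lit 2) (nat_lit 5) (nat_lit 8) C.nil) C.nil)) C.nil)) C.nil)) (C.cons (nat_lit 50) (C.node (nat_lit 1) (nat_lit 4) (nat_lit 6) (C.cons (nat_lit 90) (C.node (nat_lit 1) (nat_lit 6) (nat_lit 10) (C.cons (nat_lit 1090) (C.node (nat_lit 3) (nat_lit 6) (nat_lit 10) (C.cons (nat_lit 1096) (C.node (nat_lit 2) (nat_lit 5) (nat_lit 8) C.nil) C.nil)) C.nil)) (C.cons (nat_lit 82) (C.node (nat_lit 3) (nat_lit 4) (nat_lit 6) (C.cons (nat_lit 88) (C.node (nat_lit 1) (nat_lit 3) (nat_lit 4) (C.cons (nat_lit 1050) (C.node (nat_lit 1) (nat_lit 3) (nat_lit 6) (C.cons (nat_lit 74) (C.node (nat_lit 1) (nat_lit 4) (nat_lit 8) C.nil) C.nil)) (C.cons (nat_lit 26) (C.node (nat_lit 2) (nat_lit 3) (nat_lit 4) C.nil) C.nil)))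 C.nil)) C.nil))) C.nil))) C.nil)))) C.nil))) C.nil)) (C.cons (nat_lit 70) (C.node (nat_lit 1) (nat_lit 2) (nat_lit 8) (C.cons (nat_lit 262) (C.node (nat_lit 2) (nat_lit 6) (nat_lit 8) (C.cons (nat_lit 324) (C.node (nat_lit 1) (nat_lit 4) (nat_lit 5) (C.cons (nat_lit 306) (C.node (nat_lit 4) (nat_lit 8) (nat_lit 10) (C.cons (nat_lit 1296) (C.node (nat_lit 1) (nat_lit 5) (nat_lit 6) (C.cons (nat_lit 610) (C.miq (nat_lit 2441241920) (nat_lit 316749430042993308770567281)) (C.cons (nat_lit 98) (C.node (nat_lit 1) (nat_lit 4) (nat_lit 6) (C.cons (nat_lit 90) (C.node (nat_lit 1) (nat_lit 6) (nat_lit 8) (C.cons (nat_lit 1346) (C.miq (nat_lit 931217574) (nat_lit 466647026621287417453347953)) (C.cons (nat_lit 834) (C.miq (nat_lit 2168952368) (nat_lit 181374309372310489388352077)) C.nil))) (C.cons (nat_lit 82) (C.node (nat_lit 2) (nat_lit 5) (nat_lit 8) C.nil) C.nil))) C.nil))) C.nil)) (C.cons (nat_lit 50) (C.node (nat_lit 2) (nat_lit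 3) (nat_lit 4) (C.cons (nat_lit 1052) (C.node (nat_lit 4) (nat_lit 9) (nat_lit 10) (C.cons (nat_lit 1552) (C.node (nat_lit 1) (nat_lit 4) (nat_lit 10) (C.cons (nat_lit 1298) (C.node (nat_lit 1) (nat_lit 6) (nat_lit 10) (C.cons (nat_lit 1098) (C.miq (nat_lit 830630464) (nat_lit 316749430180357358012925041)) C.nil)) (C.cons (nat_lit 1042) (C.node (nat_lit 4) (nat_lit 8) (nat_lit 10) (C.cons (nat_lit 1296) (C.node (nat_lit 1) (nat_lit 8) (nat_lit 10) (C.cons (nat_lit 1346) (C.node (nat_lit 3) (nat_lit 6) (nat_lit 10) C.nil) C.nil)) C.nil)) C.nil))) C.nil)) (C.cons (nat_lit 28) (C.node (nat_lit 2) (nat_lit 3) (nat_lit 10) (C.cons (nat_lit 1036) (C.node (nat_lit 2) (nat_lit 4) (nat_lit 5)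
  (C.cons (nat_lit 52) (C.node (nat_lit 2) (nat_lit 4) (nat_lit 9) (C.cons (nat_lit 532) (C.node (nat_lit 2) (nat_lit 4) (nat_lit 10) C.nil) C.nil)) C.nil)) C.nil)) C.nil))) C.nil))) C.nil)) C.nil)) C.nil))) C.nil))))))) C.nil))) C.nil))) List.nil)

theorem ok11_165 : okL par11 (nat_lit 166) c11_165 (nat_lit 165) = true := by decide +kernel

noncomputable def c11_166 : List C :=
  (List.cons (C.node (nat_lit 1) (nat_lit 7) (nat_lit 10) (C.cons (nat_lit 1186) (C.node (nat_lit 1) (nat_lit 9) (nat_lit 10) (C.cons (nat_lit 1546) (C.miq (nat_lit 1368422962) (nat_lit 641942654261976216281875596)) (C.cons (nat_lit 1538) (C.node (nat_lit 3) (nat_lit 5) (nat_lit 7) (C.cons (nat_lit 680) (C.miq (nat_lit 361801522) (nat_lit 658883590616945137757783180)) (C.cons (nat_lit 232) (C.miq (nat_lit 389195104) (nat_lit 1407208672958398672755557489)) (C.cons (nat_lit 168) (C.node (nat_lit 1) (nat_lit 7) (nat_lit 8) (C.cons (nat_lit 394) (C.node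 (nat_lit 1) (nat_lit 7) (nat_lit 9) (C.cons (nat_lit 642) (C.node (nat_lit 2) (nat_lit 3) (nat_lit 8) (C.cons (nat_lit 268) (C.node (nat_lit 3) (nat_lit 6) (nat_lit 7) (C.cons (nat_lit 200) (C.node (nat_lit 3) (nat_lit 7) (nat_lit 9) (C.cons (nat_lit 648) (C.node (nat_lit 1) (nat_lit 2) (nat_lit 3) (C.cons (nat_lit 46) (C.miq (nat_lit 2538801682) (nat_lit 203110403368235640371938311)) (C.cons (nat_lit 14) (C.node (nat_lit 3) (nat_lit 5) (nat_lit 6) (C.cons (nat_lit 106) (C.miq (nat_lit 2534607446) (nat_lit 476327638601141833859466353)) (C.cons (nat_lit 104) (C.node (nat_lit 3) (nat_lit 5) (nat_lit 10) (C.cons (nat_lit 1576) (C.miq (nat_lit 372600986) (nat_lit 125750163133283003995260801)) (C.cons (nat_lit 1064) (C.node (nat_lit 5) (nat_lit 9) (nat_lit 10) (C.cons (nat_lit 1572) (C.miq (nat_lit 446068000) (nat_lit 1934284908832337126998474917)) (C.cons (nat_lit 1568) (C.node (nat_lit 1) (nat_lit 3) (nat_lit 9) (C.cons (nat_lit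 554) (C.node (nat_lit 1) (nat_lit 4) (nat_lit 5) (C.cons (nat_lit 306) (C.miq (nat_lit 592972052) (nat_lit 359056078339444423148044819)) (C.cons (nat_lit 50) (C.node (nat_lit 1) (nat_lit 2) (nat_lit 5) (C.cons (nat_lit 358) (C.miq (nat_lit 2534541910) (nat_lit 181349738615172315247674481)) (C.cons (nat_lit 294) (C.miq (nat_lit 1366524480) (nat_lit 476322251693908073979117845)) (C.cons (nat_lit 102) (C.miq (nat_lit 2534541910) (nat_lit 181349738615172315230897265)) (C.cons (nat_lit 38) (C.node (nat_lit 1) (nat_lit 5) (nat_lit 6) (C.cons (nat_lit 354) (C.miq (nat_lit 1132791574) (nat_lit 359071942416624036324966595)) (C.cons (nat_lit 98) (C.node (nat_lit 1) (nat_lit 5) (nat_lit 8) (C.cons (nat_lit 290) (C.node (nat_lit 1) (nat_lit 2) (nat_lit 6) (C.cons (nat_lit 326) (C.node (nat_lit 1) (nat_lit 2) (nat_lit 9) C.nil) C.nil)) C.nil)) C.nil))) C.nil))))) C.nil))) (C.cons (nat_lit 522) (C.node (nat_lit 1) (nat_lit 3) (nat_lit 5)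 (C.cons (nat_lit 58) (C.miq (nat_lit 2170188608) (nat_lit 1433821458369217187256795289)) (C.cons (nat_lit 42) (C.node (nat_lit 1) (nat_lit 4) (nat_lit 5) (C.cons (nat_lit 306) (C.node (nat_lit 1) (nat_lit 4) (nat_lit 6) (C.cons (nat_lit 90) (C.node (nat_lit 1) (nat_lit 3) (nat_lit 10) (C.cons (nat_lit 1034) (C.node (nat_lit 1) (nat_lit 4) (nat_lit 10) C.nil) C.nil)) (C.cons (nat_lit 82) (C.node (nat_lit 1) (nat_lit 3) (nat_lit 6) (C.cons (nat_lit 1098) (C.miq (nat_lit 829581904) (nat_lit 181349738383518409402156145)) (C.cons (nat_lit 74) (C.node (nat_lit 1) (nat_lit 6) (nat_lit 10) C.nil) C.nil))) C.nil))) (C.cons (nat_lit 50) (C.node (nat_lit 2) (nat_lit 3) (nat_lit 4) (C.cons (nat_lit 60) (C.node (nat_lit 3) (nat_lit 5) (nat_lit 9) (C.cons (nat_lit 552) (C.node (nat_lit 1) (nat_lit 3) (nat_lit 4) C.nil) C.nil)) (C.cons (nat_lit 28) (C.node (nat_lit 2) (nat_lit 3) (nat_lit 5) C.nil) C.nil))) C.nil))) C.nil))) C.nil))) C.nil)))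 C.nil))) C.nil))) C.nil))) C.nil)) C.nil)) C.nil)) C.nil)) (C.cons (nat_lit 386) (C.node (nat_lit 1) (nat_lit 3) (nat_lit 7) (C.cons (nat_lit 650) (C.node (nat_lit 3) (nat_lit 5) (nat_lit 6) (C.cons (nat_lit 106) (C.node (nat_lit 1) (nat_lit 2) (nat_lit 3) (C.cons (nat_lit 270) (C.miq (nat_lit 1679904899) (nat_lit 181340828617104427662049577)) (C.cons (nat_lit 14) (C.node (nat_lit 2) (nat_lit 3) (nat_lit 8) (C.cons (nat_lit 268) (C.node (nat_lit 1) (nat_lit 4) (nat_lit 5) (C.cons (nat_lit 306) (C.miq (nat_lit 2184265829) (nat_lit 16930606256262461860217969)) (C.cons (nat_lit 50)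
  (C.node (nat_lit 3) (nat_lit 5) (nat_lit 10) (C.cons (nat_lit 1576) (C.node (nat_lit 2) (nat_lit 3) (nat_lit 4) (C.cons (nat_lit 60) (C.miq (nat_lit 2468914496) (nat_lit 324027556295691035882095729)) (C.cons (nat_lit 28) (C.node (nat_lit 2) (nat_lit 3) (nat_lit 5) (C.cons (nat_lit 44) (C.node (nat_lit 3) (nat_lit 4) (nat_lit 5) (C.cons (nat_lit 56) (C.node (nat_lit 2) (nat_lit 4) (nat_lit 10) (C.cons (nat_lit 1556) (C.miq (nat_lit 2207384996) (nat_lit 712062417584729838501233777)) (C.cons (nat_lit 1044) (C.node (nat_lit 2) (nat_lit 9) (nat_lit 10) (C.cons (nat_lit 1540) (C.node (nat_lit 4) (nat_lit 9) (nat_lit 10) (C.cons (nat_lit 1552) (C.node (nat_lit 1) (nat_lit 2) (nat_lit 6) (C.cons (nat_lit 326) (C.node (nat_lit 1) (nat_lit 4) (nat_lit 6) (C.cons (nat_lit 82) (C.node (nat_lit 1) (nat_lit 6) (nat_lit 9) (C.cons (nat_lit 578) (C.node (nat_lit 1) (nat_lit 6) (nat_lit 10) (C.cons (nat_lit 1090) (C.node (nat_lit 2) (nat_lit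 5) (nat_lit 6) C.nil) C.nil)) C.nil)) C.nil)) (C.cons (nat_lit 70) (C.node (nat_lit 1) (nat_lit 2) (nat_lit 8) (C.cons (nat_lit 806) (C.miq (nat_lit 1108543639) (nat_lit 16927783904420116342376321)) (C.cons (nat_lit 774) (C.miq (nat_lit 1108543639) (nat_lit 16927783904419978903422849)) (C.cons (nat_lit 294) (C.miq (nat_lit 1366524480) (nat_lit 785807261515253142703898901)) (C.cons (nat_lit 262) (C.node (nat_lit 2) (nat_lit 5) (nat_lit 10) C.nil) C.nil))))) C.nil))) C.nil)) C.nil)) C.nil))) C.nil)) C.nil)) C.nil))) (C.cons (nat_lit 1064) (C.miq (nat_lit 2589132566) (nat_lit 1286307937742943380912603331)) C.nil))) C.nil))) C.nil)) C.nil))) (C.cons (nat_lit 104) (C.miq (nat_lit 325417226) (nat_lit 125750163261354118369838977)) C.nil))) (C.cons (nat_lit 138) (C.node (nat_lit 1) (nat_lit 7) (nat_lit 9) (C.cons (nat_lit 642) (C.node (nat_lit 3) (nat_lit 7) (nat_lit 9) (C.cons (nat_lit 648) (C.node (nat_lit 3) (nat_lit 5) (nat_lit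 6) (C.cons (nat_lit 106) (C.miq (nat_lit 2534607446) (nat_lit 166842628779796765134685297)) (C.cons (nat_lit 104) (C.node (nat_lit 3) (nat_lit 5) (nat_lit 10) (C.cons (nat_lit 1576) (C.miq (nat_lit 372600986) (nat_lit 125750163133283003995260801)) (C.cons (nat_lit 1064) (C.node (nat_lit 5) (nat_lit 9) (nat_lit 10) (C.cons (nat_lit 1572) (C.miq (nat_lit 446068000) (nat_lit 1934284908832337126998474917)) (C.cons (nat_lit 1568) (C.node (nat_lit 2) (nat_lit 3) (nat_lit 4) (C.cons (nat_lit 60) (C.node (nat_lit 2) (nat_lit 4) (nat_lit 9) (C.cons (nat_lit 1556) (C.miq (nat_lit 2300774981) (nat_lit 712062786976726588872983665)) (C.cons (nat_lit 532) (C.node (nat_lit 2) (nat_lit 4) (nat_lit 10) (C.cons (nat_lit 1044) (C.node (nat_lit 2) (nat_lit 9) (nat_lit 10) (C.cons (nat_lit 1540) (C.node (nat_lit 2) (nat_lit 5) (nat_lit 10) (C.cons (nat_lit 1316) (C.miq (nat_lit 2184684864) (nat_lit 1407225090597215282465932401)) (C.cons (nat_lit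 1060) (C.node (nat_lit 2) (nat_lit 8) (nat_lit 10) (C.cons (nat_lit 1284) (C.node (nat_lit 5) (nat_lit 8) (nat_lit 10) (C.cons (nat_lit 1312) (C.node (nat_lit 1) (nat_lit 2) (nat_lit 3) (C.cons (nat_lit 14) (C.node (nat_lit 2) (nat_lit 3) (nat_lit 8) C.nil) C.nil)) C.nil)) C.nil)) C.nil))) C.nil)) C.nil)) C.nil))) (C.cons (nat_lit 28) (C.node (nat_lit 2) (nat_lit 3) (nat_lit 5) (C.cons (nat_lit 46) (C.miq (nat_lit 2538801682) (nat_lit 203110403368235640371938311)) (C.cons (nat_lit 44) (C.node (nat_lit 1) (nat_lit 2) (nat_lit 3) (C.cons (nat_lit 270) (C.node (nat_lit 1) (nat_lit 2) (nat_lit 6) (C.cons (nat_lit 102) (C.miq (nat_lit 2534541910) (nat_lit 181349738615172315230897265)) (C.cons (nat_lit 70) (C.node (nat_lit 1) (nat_lit 2) (nat_lit 5) (C.cons (nat_lit 550) (C.node (nat_lit 1) (nat_lit 3) (nat_lit 9) (C.cons (nat_lit 522) (C.node (nat_lit 2) (nat_lit 4) (nat_lit 5) (C.cons (nat_lit 52) (C.node (nat_lit 2) (nat_lit 8)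 (nat_lit 9) C.nil) C.nil)) C.nil)) (C.cons (nat_lit 38) (C.node (nat_lit 1) (nat_lit 2) (nat_lit 9) (C.cons (nat_lit 518) (C.node (nat_lit 3) (nat_lit 6) (nat_lit 7) (C.cons (nat_lit 200)
  (C.node (nat_lit 3) (nat_lit 7) (nat_lit 8) C.nil) C.nil)) C.nil)) C.nil))) C.nil))) (C.cons (nat_lit 14) (C.node (nat_lit 2) (nat_lit 3) (nat_lit 8) (C.cons (nat_lit 268) (C.node (nat_lit 2) (nat_lit 4) (nat_lit 5) (C.cons (nat_lit 564) (C.node (nat_lit 2) (nat_lit 4) (nat_lit 10) (C.cons (nat_lit 1044) (C.node (nat_lit 2) (nat_lit 9) (nat_lit 10) (C.cons (nat_lit 1540) (C.node (nat_lit 1) (nat_lit 2) (nat_lit 9) C.nil) C.nil)) C.nil)) (C.cons (nat_lit 52) (C.node (nat_lit 2) (nat_lit 4) (nat_lit 9) (C.cons (nat_lit 1556) (C.node (nat_lit 3) (nat_lit 9) (nat_lit 10) (C.cons (nat_lit 1544) (C.node (nat_lit 2) (nat_lit 5) (nat_lit 10) (C.cons (nat_lit 1060) (C.node (nat_lit 2) (nat_lit 8) (nat_lit 10) C.nil) C.nil)) C.nil)) (C.cons (nat_lit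 532) (C.node (nat_lit 2) (nat_lit 4) (nat_lit 10) (C.cons (nat_lit 1044) (C.node (nat_lit 2) (nat_lit 9) (nat_lit 10) C.nil) C.nil)) C.nil))) C.nil))) C.nil)) C.nil))) C.nil))) C.nil))) C.nil))) C.nil))) C.nil))) C.nil)) C.nil)) C.nil))) C.nil))) C.nil)))) C.nil))) (C.cons (nat_lit 1154) (C.node (nat_lit 5) (nat_lit 7) (nat_lit 10) (C.cons (nat_lit 1184) (C.node (nat_lit 2) (nat_lit 3) (nat_lit 4) (C.cons (nat_lit 60) (C.node (nat_lit 2) (nat_lit 4) (nat_lit 9) (C.cons (nat_lit 1556) (C.miq (nat_lit 2300774981) (nat_lit 712062786976726588872983665)) (C.cons (nat_lit 532) (C.node (nat_lit 2) (nat_lit 4) (nat_lit 10) (C.cons (nat_lit 1044) (C.node (nat_lit 2) (nat_lit 8) (nat_lit 10) (C.cons (nat_lit 1316) (C.miq (nat_lit 2184684864) (nat_lit 1407225090597215282465932401)) (C.cons (nat_lit 1284) (C.node (nat_lit 2) (nat_lit 5) (nat_lit 10) (C.cons (nat_lit 1572) (C.miq (nat_lit 2453120320) (nat_lit 1407225090669272876503860337))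 (C.cons (nat_lit 1060) (C.node (nat_lit 2) (nat_lit 9) (nat_lit 10) (C.cons (nat_lit 1540) (C.node (nat_lit 4) (nat_lit 9) (nat_lit 10) (C.cons (nat_lit 1560) (C.miq (nat_lit 2468848720) (nat_lit 1407225090665895176784118897)) (C.cons (nat_lit 1552) (C.node (nat_lit 3) (nat_lit 4) (nat_lit 9) (C.cons (nat_lit 792) (C.miq (nat_lit 2485617488) (nat_lit 181374309360488411518271785)) (C.cons (nat_lit 536) (C.node (nat_lit 1) (nat_lit 2) (nat_lit 3) (C.cons (nat_lit 270) (C.node (nat_lit 3) (nat_lit 8) (nat_lit 9) (C.cons (nat_lit 776) (C.node (nat_lit 1) (nat_lit 2) (nat_lit 6) (C.cons (nat_lit 102) (C.miq (nat_lit 305620288) (nat_lit 1407193251175233438053106801)) (C.cons (nat_lit 70) (C.node (nat_lit 1) (nat_lit 4) (nat_lit 5) (C.cons (nat_lit 306) (C.miq (nat_lit 1093031984) (nat_lit 84645781407168352542851369)) (C.cons (nat_lit 50) (C.node (nat_lit 2) (nat_lit 8) (nat_lit 9) (C.cons (nat_lit 804) (C.miq (nat_lit 2454160688)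 (nat_lit 181374309363866111238013225)) (C.cons (nat_lit 772) (C.node (nat_lit 1) (nat_lit 2) (nat_lit 5) (C.cons (nat_lit 550) (C.node (nat_lit 5) (nat_lit 8) (nat_lit 10) (C.cons (nat_lit 1314) (C.miq (nat_lit 1703086610) (nat_lit 359061833877846971938374663)) C.nil)) C.nil)) C.nil))) C.nil))) C.nil))) C.nil)) (C.cons (nat_lit 14) (C.node (nat_lit 2) (nat_lit 3) (nat_lit 8) (C.cons (nat_lit 268) (C.node (nat_lit 1) (nat_lit 2) (nat_lit 6) (C.cons (nat_lit 358) (C.miq (nat_lit 305620288) (nat_lit 1407193251247291032091034737)) (C.cons (nat_lit 326) (C.node (nat_lit 2) (nat_lit 5) (nat_lit 6) C.nil) (C.cons (nat_lit 102) (C.miq (nat_lit 305620288) (nat_lit 1407193251175233438053106801)) C.nil)))) C.nil)) C.nil))) C.nil))) C.nil))) C.nil)) C.nil))) C.nil))) C.nil)) C.nil))) (C.cons (nat_lit 28) (C.node (nat_lit 2) (nat_lit 3) (nat_lit 5) (C.cons (nat_lit 46) (C.node (nat_lit 2) (nat_lit 3) (nat_lit 8) (C.cons (nat_lit 268) (C.node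 (nat_lit 1) (nat_lit 2) (nat_lit 6) (C.cons (nat_lit 326) (C.node (nat_lit 1) (nat_lit 2) (nat_lit 9) (C.cons (nat_lit 518) (C.node (nat_lit 2) (nat_lit 5) (nat_lit 6) (C.cons (nat_lit 100) (C.node (nat_lit 1) (nat_lit 4) (nat_lit 5) (C.cons (nat_lit 306) (C.node (nat_lit 1) (nat_lit 5) (nat_lit 6) (C.cons (nat_lit 610) (C.miq (nat_lit 2441241920) (nat_lit 394120682498329575951762545)) (C.cons (nat_lit 98)
  (C.node (nat_lit 1) (nat_lit 6) (nat_lit 9) (C.cons (nat_lit 578) (C.node (nat_lit 1) (nat_lit 8) (nat_lit 9) (C.cons (nat_lit 778) (C.miq (nat_lit 2014644530) (nat_lit 369934345055565461284848205)) (C.cons (nat_lit 770) (C.node (nat_lit 1) (nat_lit 8) (nat_lit 10) (C.cons (nat_lit 1290) (C.miq (nat_lit 2016741906) (nat_lit 359054012679035997735748615)) (C.cons (nat_lit 1282) (C.node (nat_lit 1) (nat_lit 3) (nat_lit 8) (C.cons (nat_lit 394) (C.node (nat_lit 1) (nat_lit 3) (nat_lit 9) (C.cons (nat_lit 1546) (C.miq (nat_lit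 1470177427) (nat_lit 1395101244431961080141054541)) (C.cons (nat_lit 522) (C.node (nat_lit 1) (nat_lit 4) (nat_lit 6) (C.cons (nat_lit 90) (C.miq (nat_lit 2820015924) (nat_lit 394130791683096041198583961)) (C.cons (nat_lit 82) (C.node (nat_lit 1) (nat_lit 3) (nat_lit 6) (C.cons (nat_lit 74) (C.node (nat_lit 1) (nat_lit 6) (nat_lit 10) C.nil) C.nil)) C.nil))) C.nil))) (C.cons (nat_lit 266) (C.node (nat_lit 1) (nat_lit 7) (nat_lit 8) (C.cons (nat_lit 386) (C.node (nat_lit 1) (nat_lit 3) (nat_lit 7) (C.cons (nat_lit 650) (C.node (nat_lit 1) (nat_lit 5) (nat_lit 7) C.nil) (C.cons (nat_lit 138) (C.node (nat_lit 1) (nat_lit 3) (nat_lit 9) C.nil) C.nil))) C.nil)) C.nil))) C.nil))) C.nil))) C.nil)) C.nil))) (C.cons (nat_lit 50) (C.node (nat_lit 1) (nat_lit 4) (nat_lit 6) (C.cons (nat_lit 90) (C.node (nat_lit 1) (nat_lit 6) (nat_lit 10) (C.cons (nat_lit 1090) (C.node (nat_lit 1) (nat_lit 3) (nat_lit 7) (C.cons (nat_lit 650) (C.miq (nat_lit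 2803108150) (nat_lit 181359847430922405961925197)) (C.cons (nat_lit 394) (C.miq (nat_lit 2171237184) (nat_lit 1317764579686212923923955865)) (C.cons (nat_lit 138) (C.node (nat_lit 1) (nat_lit 7) (nat_lit 8) (C.cons (nat_lit 418) (C.miq (nat_lit 1898546480) (nat_lit 626259010873400246418604329)) (C.cons (nat_lit 386) (C.node (nat_lit 3) (nat_lit 7) (nat_lit 8) (C.cons (nat_lit 456) (C.miq (nat_lit 2556495668) (nat_lit 394119612956187639498277017)) (C.cons (nat_lit 392) (C.node (nat_lit 3) (nat_lit 7) (nat_lit 9) (C.cons (nat_lit 680) (C.miq (nat_lit 443883667) (nat_lit 1431369019264157285156913741)) (C.cons (nat_lit 648) (C.node (nat_lit 1) (nat_lit 3) (nat_lit 8) (C.cons (nat_lit 1290) (C.miq (nat_lit 2016741906) (nat_lit 359054012679035997735748615)) (C.cons (nat_lit 778) (C.miq (nat_lit 1468080275) (nat_lit 466646214967925873916379725)) (C.cons (nat_lit 266) (C.node (nat_lit 2) (nat_lit 4) (nat_lit 10) (C.cons (nat_lit 1556)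 (C.node (nat_lit 2) (nat_lit 4) (nat_lit 5) C.nil) C.nil)) C.nil)))) C.nil))) C.nil))) C.nil))) C.nil)))) C.nil)) (C.cons (nat_lit 82) (C.node (nat_lit 1) (nat_lit 3) (nat_lit 6) (C.cons (nat_lit 1098) (C.node (nat_lit 6) (nat_lit 8) (nat_lit 10) (C.cons (nat_lit 1344) (C.node (nat_lit 1) (nat_lit 3) (nat_lit 4) (C.cons (nat_lit 282) (C.miq (nat_lit 1966153860) (nat_lit 55613354760328645250253077)) (C.cons (nat_lit 26) (C.node (nat_lit 1) (nat_lit 4) (nat_lit 8) (C.cons (nat_lit 1298) (C.miq (nat_lit 830630464) (nat_lit 394120682635693625194120305)) (C.cons (nat_lit 274) (C.node (nat_lit 1) (nat_lit 4) (nat_lit 10) (C.cons (nat_lit 1042) (C.node (nat_lit 2) (nat_lit 4) (nat_lit 10) (C.cons (nat_lit 1556) (C.node (nat_lit 2) (nat_lit 4) (nat_lit 5) C.nil) C.nil)) C.nil)) C.nil))) C.nil))) C.nil)) (C.cons (nat_lit 74) (C.node (nat_lit 1) (nat_lit 6) (nat_lit 10) (C.cons (nat_lit 1090) (C.node (nat_lit 1) (nat_lit 5) (nat_lit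 6) (C.cons (nat_lit 610) (C.node (nat_lit 1) (nat_lit 5) (nat_lit 7) (C.cons (nat_lit 418) (C.miq (nat_lit 1898546480) (nat_lit 626259010873400246418604329)) (C.cons (nat_lit 162) (C.node (nat_lit 2) (nat_lit 4) (nat_lit 5) (C.cons (nat_lit 564) (C.node (nat_lit 2) (nat_lit 4) (nat_lit 10) C.nil) C.nil)) C.nil))) (C.cons (nat_lit 98) (C.node (nat_lit 1) (nat_lit 6) (nat_lit 9) (C.cons (nat_lit 578) (C.node (nat_lit 2) (nat_lit 4) (nat_lit 5) (C.cons (nat_lit 564) (C.node (nat_lit 2) (nat_lit 4) (nat_lit 10) C.nil) (C.cons (nat_lit 52)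
  (C.node (nat_lit 1) (nat_lit 3) (nat_lit 7) C.nil) C.nil))) C.nil)) C.nil))) C.nil)) C.nil))) C.nil))) C.nil))) C.nil)) C.nil)) (C.cons (nat_lit 70) (C.node (nat_lit 1) (nat_lit 2) (nat_lit 8) (C.cons (nat_lit 774) (C.node (nat_lit 2) (nat_lit 8) (nat_lit 10) (C.cons (nat_lit 1316) (C.miq (nat_lit 1377085584) (nat_lit 181359847260630577656825729)) (C.cons (nat_lit 1284) (C.node (nat_lit 5) (nat_lit 8) (nat_lit 10) (C.cons (nat_lit 1314) (C.miq (nat_lit 1361488016) (nat_lit 84645781690897293730711425)) (C.cons (nat_lit 1312) (C.node (nat_lit 1) (nat_lit 5) (nat_lit 10) (C.cons (nat_lit 1570) (C.miq (nat_lit 1361357184) (nat_lit 181359847332125221724686209)) (C.cons (nat_lit 1058) (C.node (nat_lit 1) (nat_lit 9) (nat_lit 10) (C.cons (nat_lit 1546) (C.miq (nat_lit 2048198962) (nat_lit 1279046561405769899198775885)) (C.cons (nat_lit 1538) (C.node (nat_lit 1) (nat_lit 3) (nat_lit 9) (C.cons (nat_lit 650) (C.miq (nat_lit 1108543639)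 (nat_lit 55613410132088112494020481)) (C.cons (nat_lit 522) (C.node (nat_lit 3) (nat_lit 7) (nat_lit 9) (C.cons (nat_lit 680) (C.miq (nat_lit 1964675872) (nat_lit 1279078953539046444687098445)) (C.cons (nat_lit 648) (C.node (nat_lit 5) (nat_lit 8) (nat_lit 9) (C.cons (nat_lit 864) (C.miq (nat_lit 441983081) (nat_lit 1586124953404512112830579277)) (C.cons (nat_lit 816) (C.miq (nat_lit 1479166224) (nat_lit 1552281726562882573451067923)) (C.cons (nat_lit 800) (C.node (nat_lit 6) (nat_lit 8) (nat_lit 9) (C.cons (nat_lit 848) (C.miq (nat_lit 1747601680) (nat_lit 1552281726571889772705808915)) (C.cons (nat_lit 832) (C.node (nat_lit 1) (nat_lit 3) (nat_lit 7) (C.cons (nat_lit 394) (C.node (nat_lit 2) (nat_lit 5) (nat_lit 10) (C.cons (nat_lit 1572) (C.miq (nat_lit 1501637235) (nat_lit 935709433374437285909103756)) (C.cons (nat_lit 1060) (C.node (nat_lit 1) (nat_lit 5) (nat_lit 7) (C.cons (nat_lit 674) (C.node (nat_lit 3) (nat_lit 5)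 (nat_lit 7) C.nil) C.nil)) C.nil))) (C.cons (nat_lit 138) (C.node (nat_lit 1) (nat_lit 7) (nat_lit 8) (C.cons (nat_lit 418) (C.miq (nat_lit 2168026400) (nat_lit 631094714151858763117428901)) (C.cons (nat_lit 386) (C.node (nat_lit 2) (nat_lit 4) (nat_lit 10) (C.cons (nat_lit 1556) (C.node (nat_lit 2) (nat_lit 4) (nat_lit 5) C.nil) C.nil)) C.nil))) C.nil))) C.nil))) C.nil)))) C.nil))) C.nil))) C.nil))) C.nil))) C.nil))) C.nil))) (C.cons (nat_lit 262) (C.node (nat_lit 1) (nat_lit 2) (nat_lit 9) (C.cons (nat_lit 518) (C.node (nat_lit 1) (nat_lit 4) (nat_lit 5) (C.cons (nat_lit 306) (C.node (nat_lit 1) (nat_lit 5) (nat_lit 6) (C.cons (nat_lit 610) (C.miq (nat_lit 2441241920) (nat_lit 316749430042993308770567281)) (C.cons (nat_lit 98) (C.node (nat_lit 2) (nat_lit 5) (nat_lit 6) (C.cons (nat_lit 356) (C.miq (nat_lit 2457929300) (nat_lit 316748360125926273855915121)) (C.cons (nat_lit 100) (C.node (nat_lit 2) (nat_lit 6) (nat_lit 8)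 (C.cons (nat_lit 324) (C.node (nat_lit 1) (nat_lit 4) (nat_lit 6) (C.cons (nat_lit 90) (C.node (nat_lit 1) (nat_lit 4) (nat_lit 10) (C.cons (nat_lit 1042) (C.node (nat_lit 2) (nat_lit 4) (nat_lit 5) (C.cons (nat_lit 564) (C.node (nat_lit 2) (nat_lit 4) (nat_lit 10) C.nil) C.nil)) C.nil)) (C.cons (nat_lit 82) (C.node (nat_lit 2) (nat_lit 4) (nat_lit 5) (C.cons (nat_lit 564) (C.node (nat_lit 2) (nat_lit 4) (nat_lit 10) C.nil) C.nil)) C.nil))) C.nil)) C.nil))) C.nil))) (C.cons (nat_lit 50) (C.node (nat_lit 2) (nat_lit 4) (nat_lit 5) (C.cons (nat_lit 564) (C.node (nat_lit 2) (nat_lit 4) (nat_lit 10) (C.cons (nat_lit 1044) (C.node (nat_lit 2) (nat_lit 8) (nat_lit 9) (C.cons (nat_lit 772) (C.node (nat_lit 2) (nat_lit 9) (nat_lit 10) (C.cons (nat_lit 1540) (C.node (nat_lit 3) (nat_lit 4) (nat_lit 5) (C.cons (nat_lit 56) (C.node (nat_lit 2) (nat_lit 5) (nat_lit 10) (C.cons (nat_lit 1316) (C.node (nat_lit 1) (nat_lit 5) (nat_lit 10)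 (C.cons (nat_lit 1570) (C.miq (nat_lit 354720384) (nat_lit 681843957925675359937038209)) C.nil)) C.nil)) C.nil)) C.nil)) C.nil)) C.nil)) (C.cons (nat_lit 52) (C.node (nat_lit 2) (nat_lit 4) (nat_lit 9) (C.cons (nat_lit 1556)
  (C.node (nat_lit 3) (nat_lit 5) (nat_lit 10) (C.cons (nat_lit 1576) (C.miq (nat_lit 2207384996) (nat_lit 712062417584729838501233777)) (C.cons (nat_lit 1064) (C.node (nat_lit 3) (nat_lit 9) (nat_lit 10) (C.cons (nat_lit 1546) (C.miq (nat_lit 1470177427) (nat_lit 1395101244431961080141054541)) (C.cons (nat_lit 1544) (C.node (nat_lit 1) (nat_lit 9) (nat_lit 10) (C.cons (nat_lit 1570) (C.node (nat_lit 1) (nat_lit 5) (nat_lit 7) (C.cons (nat_lit 418) (C.miq (nat_lit 1898546480) (nat_lit 626259010873400246418604329)) (C.cons (nat_lit 162) (C.node (nat_lit 1) (nat_lit 7) (nat_lit 9) (C.cons (nat_lit 650) (C.miq (nat_lit 1158875799) (nat_lit 55613410374160011259152257)) (C.cons (nat_lit 642) (C.node (nat_lit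 2) (nat_lit 5) (nat_lit 10) C.nil) C.nil))) C.nil))) (C.cons (nat_lit 1538) (C.node (nat_lit 5) (nat_lit 9) (nat_lit 10) (C.cons (nat_lit 1568) (C.node (nat_lit 1) (nat_lit 5) (nat_lit 10) (C.cons (nat_lit 1314) (C.miq (nat_lit 2555578898) (nat_lit 359061834098523353664848903)) (C.cons (nat_lit 1058) (C.node (nat_lit 1) (nat_lit 4) (nat_lit 10) (C.cons (nat_lit 1306) (C.miq (nat_lit 2016741906) (nat_lit 359054012679036066455225351)) C.nil)) C.nil))) C.nil)) C.nil))) C.nil))) C.nil))) (C.cons (nat_lit 532) (C.node (nat_lit 2) (nat_lit 4) (nat_lit 10) (C.cons (nat_lit 1044) (C.node (nat_lit 2) (nat_lit 5) (nat_lit 6) (C.cons (nat_lit 356) (C.node (nat_lit 1) (nat_lit 5) (nat_lit 6) (C.cons (nat_lit 610) (C.miq (nat_lit 2215977110) (nat_lit 60452858099592548552147533)) C.nil)) (C.cons (nat_lit 100) (C.node (nat_lit 2) (nat_lit 6) (nat_lit 8) (C.cons (nat_lit 324) (C.node (nat_lit 2) (nat_lit 8) (nat_lit 9) (C.cons (nat_lit 804)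 (C.node (nat_lit 2) (nat_lit 5) (nat_lit 10) C.nil) C.nil)) C.nil)) C.nil))) C.nil)) C.nil))) C.nil))) C.nil))) C.nil)) C.nil))) C.nil))) C.nil)) (C.cons (nat_lit 44) (C.node (nat_lit 1) (nat_lit 2) (nat_lit 3) (C.cons (nat_lit 270) (C.node (nat_lit 1) (nat_lit 2) (nat_lit 6) (C.cons (nat_lit 102) (C.node (nat_lit 1) (nat_lit 2) (nat_lit 9) (C.cons (nat_lit 518) (C.node (nat_lit 2) (nat_lit 6) (nat_lit 8) (C.cons (nat_lit 324) (C.node (nat_lit 2) (nat_lit 8) (nat_lit 10) (C.cons (nat_lit 1316) (C.miq (nat_lit 2182587744) (nat_lit 181374309507981479705248881)) (C.cons (nat_lit 1284) (C.node (nat_lit 2) (nat_lit 5) (nat_lit 10) (C.cons (nat_lit 1572) (C.miq (nat_lit 2451023200) (nat_lit 181374309580039073743176817)) (C.cons (nat_lit 1060) (C.node (nat_lit 5) (nat_lit 8) (nat_lit 10) (C.cons (nat_lit 1314) (C.miq (nat_lit 2166990176) (nat_lit 626259011125602066069521521)) (C.cons (nat_lit 1312) (C.node (nat_lit 5) (nat_lit 6)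 (nat_lit 8) (C.cons (nat_lit 864) (C.miq (nat_lit 444932246) (nat_lit 1586112557192497947266253389)) (C.cons (nat_lit 480) (C.miq (nat_lit 2234152464) (nat_lit 1281496805121980948212547779)) (C.cons (nat_lit 352) (C.node (nat_lit 5) (nat_lit 6) (nat_lit 9) (C.cons (nat_lit 736) (C.miq (nat_lit 443883670) (nat_lit 1431370052281825412895474253)) (C.cons (nat_lit 608) (C.node (nat_lit 1) (nat_lit 6) (nat_lit 9) (C.cons (nat_lit 834) (C.node (nat_lit 1) (nat_lit 4) (nat_lit 6) (C.cons (nat_lit 90) (C.miq (nat_lit 1913849188) (nat_lit 326412793694236963981886577)) (C.cons (nat_lit 82) (C.node (nat_lit 2) (nat_lit 4) (nat_lit 10) (C.cons (nat_lit 1044) (C.node (nat_lit 2) (nat_lit 9) (nat_lit 10) C.nil) C.nil)) C.nil))) (C.cons (nat_lit 578) (C.node (nat_lit 1) (nat_lit 7) (nat_lit 8) (C.cons (nat_lit 418) (C.miq (nat_lit 2171172128) (nat_lit 698794560050278237419143333)) (C.cons (nat_lit 386) (C.node (nat_lit 2) (nat_lit 5) (nat_lit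 8) (C.cons (nat_lit 804) (C.miq (nat_lit 1366828553) (nat_lit 466660197582193409185088077)) (C.cons (nat_lit 292) (C.node (nat_lit 2) (nat_lit 8) (nat_lit 9) C.nil) C.nil))) C.nil))) C.nil))) C.nil))) C.nil)))) C.nil))) C.nil))) C.nil))) C.nil)) C.nil)) (C.cons (nat_lit 70) (C.node (nat_lit 1) (nat_lit 2) (nat_lit 5) (C.cons (nat_lit 550) (C.node (nat_lit 2) (nat_lit 4) (nat_lit 5) (C.cons (nat_lit 52) (C.node (nat_lit 2) (nat_lit 8) (nat_lit 9)
  (C.cons (nat_lit 772) (C.node (nat_lit 1) (nat_lit 5) (nat_lit 10) (C.cons (nat_lit 1314) (C.miq (nat_lit 1703086610) (nat_lit 359061833877846971938374663)) (C.cons (nat_lit 1066) (C.miq (nat_lit 1161300498) (nat_lit 359056078493694909406381063)) (C.cons (nat_lit 1058) (C.node (nat_lit 1) (nat_lit 6) (nat_lit 9) (C.cons (nat_lit 834) (C.node (nat_lit 1) (nat_lit 4) (nat_lit 6) (C.cons (nat_lit 90) (C.miq (nat_lit 2168952368) (nat_lit 181374309372310489388352077)) (C.cons (nat_lit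 82) (C.node (nat_lit 1) (nat_lit 5) (nat_lit 6) (C.cons (nat_lit 106) (C.miq (nat_lit 560235344) (nat_lit 99137027032506708924629289)) (C.cons (nat_lit 98) (C.node (nat_lit 1) (nat_lit 7) (nat_lit 8) (C.cons (nat_lit 418) (C.miq (nat_lit 1632802928) (nat_lit 664920066155057386898130817)) (C.cons (nat_lit 386) (C.node (nat_lit 1) (nat_lit 5) (nat_lit 7) (C.cons (nat_lit 170) (C.miq (nat_lit 1211179095) (nat_lit 326412738385530777768689829)) (C.cons (nat_lit 162) (C.node (nat_lit 2) (nat_lit 5) (nat_lit 6) C.nil) C.nil))) C.nil))) C.nil))) C.nil))) (C.cons (nat_lit 578) (C.node (nat_lit 1) (nat_lit 8) (nat_lit 9) (C.cons (nat_lit 770) (C.node (nat_lit 1) (nat_lit 7) (nat_lit 8) (C.cons (nat_lit 418) (C.node (nat_lit 1) (nat_lit 5) (nat_lit 6) (C.cons (nat_lit 106) (C.miq (nat_lit 1159202354) (nat_lit 505336102667060916377223757)) (C.cons (nat_lit 98) (C.node (nat_lit 1) (nat_lit 3) (nat_lit 5) (C.cons (nat_lit 58) (C.node (nat_lit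 1) (nat_lit 3) (nat_lit 7) (C.cons (nat_lit 650) (C.miq (nat_lit 1517502609) (nat_lit 1407190724262629933706773011)) (C.cons (nat_lit 138) (C.node (nat_lit 1) (nat_lit 7) (nat_lit 9) (C.cons (nat_lit 642) (C.node (nat_lit 1) (nat_lit 3) (nat_lit 6) C.nil) C.nil)) C.nil))) (C.cons (nat_lit 42) (C.node (nat_lit 1) (nat_lit 4) (nat_lit 5) (C.cons (nat_lit 50) (C.node (nat_lit 2) (nat_lit 5) (nat_lit 10) C.nil) C.nil)) C.nil))) C.nil))) (C.cons (nat_lit 386) (C.node (nat_lit 1) (nat_lit 5) (nat_lit 7) (C.cons (nat_lit 170) (C.miq (nat_lit 1211179095) (nat_lit 326412738385530777768689829)) (C.cons (nat_lit 162) (C.node (nat_lit 1) (nat_lit 3) (nat_lit 7) (C.cons (nat_lit 650) (C.node (nat_lit 1) (nat_lit 9) (nat_lit 10) (C.cons (nat_lit 1538) (C.node (nat_lit 2) (nat_lit 4) (nat_lit 10) C.nil) C.nil)) (C.cons (nat_lit 138) (C.node (nat_lit 1) (nat_lit 7) (nat_lit 9) C.nil) C.nil))) C.nil))) C.nil))) C.nil)) C.nil))) C.nil)))) C.nil))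 C.nil)) (C.cons (nat_lit 38) (C.node (nat_lit 1) (nat_lit 2) (nat_lit 9) (C.cons (nat_lit 518) (C.node (nat_lit 1) (nat_lit 7) (nat_lit 8) (C.cons (nat_lit 418) (C.node (nat_lit 1) (nat_lit 8) (nat_lit 9) (C.cons (nat_lit 834) (C.miq (nat_lit 1632802928) (nat_lit 45950046512367249448568705)) (C.cons (nat_lit 770) (C.node (nat_lit 2) (nat_lit 8) (nat_lit 9) (C.cons (nat_lit 804) (C.miq (nat_lit 1649478023) (nat_lit 45942778426242496465078145)) (C.cons (nat_lit 772) (C.node (nat_lit 1) (nat_lit 3) (nat_lit 7) (C.cons (nat_lit 650) (C.node (nat_lit 1) (nat_lit 4) (nat_lit 5) (C.cons (nat_lit 58) (C.miq (nat_lit 1517502609) (nat_lit 1407190724262629933706773011)) (C.cons (nat_lit 50) (C.node (nat_lit 1) (nat_lit 6) (nat_lit 9) (C.cons (nat_lit 610) (C.miq (nat_lit 1366583600) (nat_lit 181359847061908711498383949)) (C.cons (nat_lit 578) (C.node (nat_lit 1) (nat_lit 5) (nat_lit 6) (C.cons (nat_lit 106) (C.miq (nat_lit 1159202354)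 (nat_lit 505336102667060916377223757)) (C.cons (nat_lit 98) (C.node (nat_lit 1) (nat_lit 3) (nat_lit 5) (C.cons (nat_lit 1066) (C.miq (nat_lit 1161300498) (nat_lit 359056078493694909406381063)) (C.cons (nat_lit 42) (C.node (nat_lit 1) (nat_lit 5) (nat_lit 9) (C.cons (nat_lit 1570) (C.miq (nat_lit 1158875799) (nat_lit 50777707095701494560327553)) (C.cons (nat_lit 546) (C.node (nat_lit 2) (nat_lit 4) (nat_lit 5) C.nil) C.nil))) C.nil))) C.nil))) C.nil))) C.nil))) (C.cons (nat_lit 138) (C.node (nat_lit 1) (nat_lit 7) (nat_lit 9) (C.cons (nat_lit 642) (C.node (nat_lit 1) (nat_lit 4) (nat_lit 5) (C.cons (nat_lit 58) (C.node (nat_lit 1) (nat_lit 5) (nat_lit 10) (C.cons (nat_lit 1570)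
  (C.miq (nat_lit 2436343104) (nat_lit 166867199744100384711967857)) (C.cons (nat_lit 1058) (C.node (nat_lit 1) (nat_lit 3) (nat_lit 6) (C.cons (nat_lit 1098) (C.node (nat_lit 1) (nat_lit 3) (nat_lit 9) (C.cons (nat_lit 522) (C.node (nat_lit 1) (nat_lit 9) (nat_lit 10) C.nil) C.nil)) (C.cons (nat_lit 74) (C.node (nat_lit 2) (nat_lit 4) (nat_lit 5) C.nil) C.nil))) C.nil))) (C.cons (nat_lit 50) (C.node (nat_lit 1) (nat_lit 6) (nat_lit 9) (C.cons (nat_lit 610) (C.node (nat_lit 1) (nat_lit 3) (nat_lit 5) (C.cons (nat_lit 1066) (C.miq (nat_lit 1161300498) (nat_lit 359056078493694909406381063)) (C.cons (nat_lit 42) (C.node (nat_lit 1) (nat_lit 5) (nat_lit 10) C.nil) C.nil))) (C.cons (nat_lit 578) (C.node (nat_lit 2) (nat_lit 4) (nat_lit 5) C.nil) C.nil))) C.nil))) C.nil)) C.nil))) C.nil))) C.nil))) (C.cons (nat_lit 386) (C.node (nat_lit 2) (nat_lit 4) (nat_lit 5) (C.cons (nat_lit 564) (C.node (nat_lit 2) (nat_lit 4) (nat_lit 10)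 (C.cons (nat_lit 1044) (C.node (nat_lit 2) (nat_lit 8) (nat_lit 9) (C.cons (nat_lit 772) (C.node (nat_lit 2) (nat_lit 9) (nat_lit 10) (C.cons (nat_lit 1540) (C.node (nat_lit 2) (nat_lit 5) (nat_lit 10) (C.cons (nat_lit 1316) (C.node (nat_lit 1) (nat_lit 5) (nat_lit 10) (C.cons (nat_lit 1578) (C.miq (nat_lit 354720384) (nat_lit 681843957927927159750723457)) (C.cons (nat_lit 1570) (C.miq (nat_lit 354720384) (nat_lit 681843957925675359937038209)) (C.cons (nat_lit 1066) (C.miq (nat_lit 1161300498) (nat_lit 359056078493694909406381063)) C.nil)))) C.nil)) C.nil)) C.nil)) C.nil)) (C.cons (nat_lit 52) (C.node (nat_lit 2) (nat_lit 4) (nat_lit 9) (C.cons (nat_lit 1556) (C.node (nat_lit 3) (nat_lit 5) (nat_lit 10) (C.cons (nat_lit 1578) (C.miq (nat_lit 2207384996) (nat_lit 712062417584729847091168369)) (C.cons (nat_lit 1576) (C.miq (nat_lit 2207384996) (nat_lit 712062417584729838501233777)) (C.cons (nat_lit 1066) (C.miq (nat_lit 1161300498)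 (nat_lit 359056078493694909406381063)) (C.cons (nat_lit 1064) (C.node (nat_lit 2) (nat_lit 5) (nat_lit 6) (C.cons (nat_lit 356) (C.node (nat_lit 2) (nat_lit 5) (nat_lit 9) (C.cons (nat_lit 548) (C.node (nat_lit 2) (nat_lit 5) (nat_lit 10) (C.cons (nat_lit 1060) (C.node (nat_lit 2) (nat_lit 8) (nat_lit 10) C.nil) C.nil)) C.nil)) (C.cons (nat_lit 100) (C.node (nat_lit 2) (nat_lit 6) (nat_lit 8) (C.cons (nat_lit 324) (C.node (nat_lit 3) (nat_lit 7) (nat_lit 8) (C.cons (nat_lit 456) (C.node (nat_lit 3) (nat_lit 5) (nat_lit 6) (C.cons (nat_lit 106) (C.miq (nat_lit 1108740149) (nat_lit 84645781399005578186588457)) C.nil)) C.nil)) C.nil)) C.nil))) C.nil))))) (C.cons (nat_lit 532) (C.node (nat_lit 2) (nat_lit 4) (nat_lit 10) (C.cons (nat_lit 1044) (C.node (nat_lit 1) (nat_lit 3) (nat_lit 7) (C.cons (nat_lit 682) (C.miq (nat_lit 1211179095) (nat_lit 326412738385530777802244261)) (C.cons (nat_lit 650) (C.node (nat_lit 1) (nat_lit 5)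 (nat_lit 7) C.nil) (C.cons (nat_lit 170) (C.miq (nat_lit 1211179095) (nat_lit 326412738385530777768689829)) C.nil)))) C.nil)) C.nil))) C.nil))) C.nil))) C.nil)) C.nil))) C.nil))) (C.cons (nat_lit 14) (C.node (nat_lit 2) (nat_lit 3) (nat_lit 8) (C.cons (nat_lit 268) (C.node (nat_lit 2) (nat_lit 4) (nat_lit 5) (C.cons (nat_lit 564) (C.node (nat_lit 2) (nat_lit 4) (nat_lit 10) (C.cons (nat_lit 1044) (C.node (nat_lit 2) (nat_lit 9) (nat_lit 10) (C.cons (nat_lit 1540) (C.node (nat_lit 1) (nat_lit 2) (nat_lit 9) (C.cons (nat_lit 774) (C.node (nat_lit 1) (nat_lit 6) (nat_lit 9) (C.cons (nat_lit 610) (C.miq (nat_lit 369661250) (nat_lit 388079466047913635463103028)) (C.cons (nat_lit 578) (C.node (nat_lit 2) (nat_lit 5) (nat_lit 10) (C.cons (nat_lit 1316) (C.miq (nat_lit 1377085584) (nat_lit 181359847260630577656825729)) (C.cons (nat_lit 1060) (C.node (nat_lit 2) (nat_lit 8) (nat_lit 10) C.nil) C.nil))) C.nil))) (C.cons (nat_lit 518)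 (C.node (nat_lit 2) (nat_lit 8) (nat_lit 9) (C.cons (nat_lit 772) (C.node (nat_lit 2) (nat_lit 5) (nat_lit 10) (C.cons (nat_lit 1316) (C.node (nat_lit 4) (nat_lit 9) (nat_lit 10) (C.cons (nat_lit 1560)
  (C.node (nat_lit 1) (nat_lit 4) (nat_lit 10) C.nil) C.nil)) (C.cons (nat_lit 1060) (C.node (nat_lit 2) (nat_lit 8) (nat_lit 10) (C.cons (nat_lit 1284) (C.node (nat_lit 4) (nat_lit 9) (nat_lit 10) C.nil) C.nil)) C.nil))) C.nil)) C.nil))) C.nil)) C.nil)) (C.cons (nat_lit 52) (C.node (nat_lit 2) (nat_lit 4) (nat_lit 9) (C.cons (nat_lit 1556) (C.node (nat_lit 2) (nat_lit 5) (nat_lit 10) (C.cons (nat_lit 1316) (C.node (nat_lit 2) (nat_lit 5) (nat_lit 6) (C.cons (nat_lit 102) (C.miq (nat_lit 2182587744) (nat_lit 181374309507981479705248881)) (C.cons (nat_lit 100) (C.node (nat_lit 2) (nat_lit 8) (nat_lit 9) (C.cons (nat_lit 774) (C.miq (nat_lit 1377085584) (nat_lit 181359847260630577656825729)) (C.cons (nat_lit 772) (C.node (nat_lit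 5) (nat_lit 9) (nat_lit 10) (C.cons (nat_lit 1578) (C.miq (nat_lit 354720384) (nat_lit 62873938285237022301161345)) (C.cons (nat_lit 1576) (C.miq (nat_lit 958945856) (nat_lit 933296211869094860893258865)) (C.cons (nat_lit 1570) (C.miq (nat_lit 354720384) (nat_lit 62873938282985222487476097)) (C.cons (nat_lit 1568) (C.node (nat_lit 1) (nat_lit 2) (nat_lit 5) (C.cons (nat_lit 550) (C.node (nat_lit 1) (nat_lit 2) (nat_lit 6) (C.cons (nat_lit 326) (C.node (nat_lit 1) (nat_lit 6) (nat_lit 9) (C.cons (nat_lit 578) (C.node (nat_lit 1) (nat_lit 4) (nat_lit 6) (C.cons (nat_lit 90) (C.node (nat_lit 1) (nat_lit 5) (nat_lit 6) (C.cons (nat_lit 98) (C.node (nat_lit 1) (nat_lit 6) (nat_lit 10) (C.cons (nat_lit 1090) (C.node (nat_lit 1) (nat_lit 4) (nat_lit 10) C.nil) C.nil)) C.nil)) (C.cons (nat_lit 82) (C.node (nat_lit 1) (nat_lit 5) (nat_lit 6) (C.cons (nat_lit 106) (C.node (nat_lit 1) (nat_lit 5) (nat_lit 10) (C.cons (nat_lit 1058) (C.node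 (nat_lit 1) (nat_lit 6) (nat_lit 10) C.nil) C.nil)) (C.cons (nat_lit 98) (C.node (nat_lit 1) (nat_lit 3) (nat_lit 6) (C.cons (nat_lit 1098) (C.node (nat_lit 1) (nat_lit 5) (nat_lit 10) C.nil) (C.cons (nat_lit 74) (C.node (nat_lit 1) (nat_lit 6) (nat_lit 10) C.nil) C.nil))) C.nil))) C.nil))) C.nil)) (C.cons (nat_lit 70) (C.node (nat_lit 1) (nat_lit 2) (nat_lit 8) (C.cons (nat_lit 262) (C.node (nat_lit 2) (nat_lit 6) (nat_lit 8) (C.cons (nat_lit 324) (C.node (nat_lit 1) (nat_lit 5) (nat_lit 10) (C.cons (nat_lit 1066) (C.node (nat_lit 1) (nat_lit 9) (nat_lit 10) C.nil) (C.cons (nat_lit 1058) (C.node (nat_lit 3) (nat_lit 5) (nat_lit 10) C.nil) C.nil))) C.nil)) C.nil)) C.nil))) (C.cons (nat_lit 38) (C.node (nat_lit 1) (nat_lit 2) (nat_lit 9) (C.cons (nat_lit 518) (C.node (nat_lit 2) (nat_lit 5) (nat_lit 9) (C.cons (nat_lit 548) (C.node (nat_lit 1) (nat_lit 2) (nat_lit 6) (C.cons (nat_lit 326) (C.node (nat_lit 1) (nat_lit 4) (nat_lit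 6) (C.cons (nat_lit 90) (C.node (nat_lit 1) (nat_lit 6) (nat_lit 10) (C.cons (nat_lit 1090) (C.node (nat_lit 1) (nat_lit 4) (nat_lit 10) C.nil) C.nil)) (C.cons (nat_lit 82) (C.node (nat_lit 1) (nat_lit 5) (nat_lit 10) (C.cons (nat_lit 1066) (C.node (nat_lit 1) (nat_lit 3) (nat_lit 6) C.nil) C.nil)) C.nil))) C.nil)) C.nil)) C.nil)) C.nil))) C.nil))))) C.nil))) C.nil))) (C.cons (nat_lit 1060) (C.node (nat_lit 2) (nat_lit 8) (nat_lit 10) (C.cons (nat_lit 1284) (C.node (nat_lit 5) (nat_lit 8) (nat_lit 10) (C.cons (nat_lit 1314) (C.node (nat_lit 1) (nat_lit 4) (nat_lit 5) (C.cons (nat_lit 58) (C.miq (nat_lit 2705818928) (nat_lit 181374309507418340770513193)) (C.cons (nat_lit 50) (C.node (nat_lit 1) (nat_lit 7) (nat_lit 8) (C.cons (nat_lit 394) (C.miq (nat_lit 877752488) (nat_lit 60453559040967055199307649)) (C.cons (nat_lit 386) (C.node (nat_lit 3) (nat_lit 5) (nat_lit 10) (C.cons (nat_lit 1576) (C.miq (nat_lit 2207384996) (nat_lit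 712062417584729838501233777)) (C.cons (nat_lit 1064) (C.node (nat_lit 5) (nat_lit 9) (nat_lit 10) (C.cons (nat_lit 1568) (C.node (nat_lit 1) (nat_lit 4) (nat_lit 10) (C.cons (nat_lit 1050) (C.node (nat_lit 1) (nat_lit 6) (nat_lit 10) (C.cons (nat_lit 1090) (C.node (nat_lit 1) (nat_lit 9) (nat_lit 10) C.nil) C.nil)) (C.cons (nat_lit 1042) (C.node (nat_lit 1) (nat_lit 6) (nat_lit 10) (C.cons (nat_lit 1098)
  (C.node (nat_lit 1) (nat_lit 9) (nat_lit 10) C.nil) C.nil)) C.nil))) C.nil)) C.nil))) C.nil))) C.nil))) (C.cons (nat_lit 1312) (C.ref (nat_lit 135) (nat_lit 11430141571600)) C.nil))) C.nil)) C.nil))) (C.cons (nat_lit 532) (C.node (nat_lit 2) (nat_lit 4) (nat_lit 10) (C.cons (nat_lit 1044) (C.node (nat_lit 2) (nat_lit 8) (nat_lit 10) (C.cons (nat_lit 1316) (C.node (nat_lit 2) (nat_lit 9) (nat_lit 10) (C.cons (nat_lit 1540) (C.node (nat_lit 4) (nat_lit 9) (nat_lit 10) (C.cons (nat_lit 1560) (C.node (nat_lit 1) (nat_lit 9) (nat_lit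 10) (C.cons (nat_lit 1570) (C.miq (nat_lit 354720384) (nat_lit 62873938282985222487476097)) C.nil)) C.nil)) C.nil)) (C.cons (nat_lit 1284) (C.node (nat_lit 2) (nat_lit 5) (nat_lit 10) (C.cons (nat_lit 1572) (C.node (nat_lit 4) (nat_lit 9) (nat_lit 10) (C.cons (nat_lit 1560) (C.miq (nat_lit 1922237860) (nat_lit 712060130151309984411419761)) C.nil)) (C.cons (nat_lit 1060) (C.node (nat_lit 2) (nat_lit 9) (nat_lit 10) (C.cons (nat_lit 1540) (C.node (nat_lit 4) (nat_lit 9) (nat_lit 10) C.nil) C.nil)) C.nil))) C.nil))) C.nil)) C.nil))) C.nil))) C.nil)) C.nil))) C.nil))) C.nil))) C.nil)) C.nil))) List.nil)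

theorem ok11_166 : okL par11 (nat_lit 167) c11_166 (nat_lit 166) = true := by decide +kernel

noncomputable def c11_167 : List C :=
  (List.cons (C.node (nat_lit 1) (nat_lit 4) (nat_lit 5) (C.cons (nat_lit 306) (C.node (nat_lit 1) (nat_lit 4) (nat_lit 6) (C.cons (nat_lit 90) (C.node (nat_lit 1) (nat_lit 4) (nat_lit 10) (C.cons (nat_lit 1042) (C.node (nat_lit 3) (nat_lit 8) (nat_lit 9) (C.cons (nat_lit 792) (C.miq (nat_lit 2216137568) (nat_lit 181374309360488540369257037)) (C.cons (nat_lit 778) (C.miq (nat_lit 2169148256) (nat_lit 1259736140452797114594951757)) (C.cons (nat_lit 776) (C.node (nat_lit 3) (nat_lit 6) (nat_lit 10) (C.cons (nat_lit 1352) (C.miq (nat_lit 428032166) (nat_lit 938128096377390336785777777)) (C.cons (nat_lit 1096) (C.node (nat_lit 3) (nat_lit 6) (nat_lit 8) (C.cons (nat_lit 456) (C.miq (nat_lit 1233326198) (nat_lit 938128096377390336727056579)) (C.cons (nat_lit 328) (C.node (nat_lit 1) (nat_lit 6) (nat_lit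 10) (C.cons (nat_lit 1346) (C.node (nat_lit 1) (nat_lit 2) (nat_lit 6) (C.cons (nat_lit 102) (C.miq (nat_lit 1913849188) (nat_lit 16927783872891895257105521)) (C.cons (nat_lit 70) (C.node (nat_lit 1) (nat_lit 3) (nat_lit 8) (C.cons (nat_lit 394) (C.node (nat_lit 3) (nat_lit 4) (nat_lit 8) (C.cons (nat_lit 1304) (C.node (nat_lit 2) (nat_lit 3) (nat_lit 4) (C.cons (nat_lit 60) (C.miq (nat_lit 321348688) (nat_lit 169253211886475463434241137)) (C.cons (nat_lit 28) (C.node (nat_lit 6) (nat_lit 7) (nat_lit 8) (C.cons (nat_lit 480) (C.miq (nat_lit 1377202344) (nat_lit 84633661856627222170961793)) (C.cons (nat_lit 464) (C.miq (nat_lit 2685634404) (nat_lit 13322239110747305962766800)) C.nil))) C.nil))) (C.cons (nat_lit 280) (C.miq (nat_lit 2755158129) (nat_lit 338524059129657087650037955)) C.nil))) (C.cons (nat_lit 266) (C.miq (nat_lit 2014513764) (nat_lit 321577090910053849326290033)) C.nil))) C.nil))) (C.cons (nat_lit 1090) (C.node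 (nat_lit 6) (nat_lit 8) (nat_lit 10) (C.cons (nat_lit 1344) (C.node (nat_lit 1) (nat_lit 7) (nat_lit 8) (C.cons (nat_lit 394) (C.miq (nat_lit 2171237184) (nat_lit 1317764579686212923923955865)) (C.cons (nat_lit 386) (C.node (nat_lit 3) (nat_lit 7) (nat_lit 8) (C.cons (nat_lit 392) (C.node (nat_lit 3) (nat_lit 4) (nat_lit 8) (C.cons (nat_lit 1304) (C.miq (nat_lit 394485924) (nat_lit 473900581550797141520680049)) (C.cons (nat_lit 280) (C.node (nat_lit 1) (nat_lit 3) (nat_lit 8) C.nil) C.nil))) C.nil)) C.nil))) C.nil)) C.nil))) C.nil))) C.nil))) C.nil)))) C.nil)) (C.cons (nat_lit 82) (C.node (nat_lit 1) (nat_lit 3) (nat_lit 4) (C.cons (nat_lit 1050) (C.node (nat_lit 4) (nat_lit 8) (nat_lit 10) (C.cons (nat_lit 1296) (C.node (nat_lit 1) (nat_lit 3) (nat_lit 5) (C.cons (nat_lit 682) (C.miq (nat_lit 592972052) (nat_lit 359056078339444972903858707)) (C.cons (nat_lit 554) (C.miq (nat_lit 592972052) (nat_lit 359056078339444423148044819))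 (C.cons (nat_lit 170) (C.miq (nat_lit 826824480) (nat_lit 369936779532917809500979365)) (C.cons (nat_lit 106) (C.miq (nat_lit 2184265829) (nat_lit 16930606256262461860217969)) (C.cons (nat_lit 42) (C.node (nat_lit 1) (nat_lit 3) (nat_lit 6) (C.cons (nat_lit 330) (C.node (nat_lit 1) (nat_lit 6) (nat_lit 10) (C.cons (nat_lit 1090) (C.node (nat_lit 1) (nat_lit 7) (nat_lit 8) (C.cons (nat_lit 386) (C.node (nat_lit 1) (nat_lit 8) (nat_lit 10) (C.cons (nat_lit 1282) (C.node (nat_lit 3) (nat_lit 4) (nat_lit 6) (C.cons (nat_lit 88) (C.node (nat_lit 3) (nat_lit 6) (nat_lit 10) (C.cons (nat_lit 1096) (C.node (nat_lit 3) (nat_lit 8) (nat_lit 10) C.nil) C.nil)) C.nil)) C.nil)) C.nil)) C.nil)) (C.cons (nat_lit 74) (C.node (nat_lit 1) (nat_lit 6) (nat_lit 10) (C.cons (nat_lit 1346) (C.node (nat_lit 3) (nat_lit 6) (nat_lit 10) (C.cons (nat_lit 1096) (C.node (nat_lit 3) (nat_lit 8) (nat_lit 10) (C.cons (nat_lit 1288) (C.node (nat_lit 1) (nat_lit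 2) (nat_lit 6) (C.cons (nat_lit 102) (C.miq (nat_lit 2166859344) (nat_lit 181374309516425729004602481)) (C.cons (nat_lit 70) (C.node (nat_lit 1) (nat_lit 7) (nat_lit 8) (C.cons (nat_lit 394) (C.miq (nat_lit 1630840944) (nat_lit 1269393084922239452081358721)) (C.cons (nat_lit 386)
  (C.node (nat_lit 2) (nat_lit 6) (nat_lit 8) C.nil) C.nil))) C.nil))) C.nil)) C.nil)) (C.cons (nat_lit 1090) (C.node (nat_lit 1) (nat_lit 8) (nat_lit 10) (C.cons (nat_lit 1282) (C.node (nat_lit 1) (nat_lit 7) (nat_lit 8) (C.cons (nat_lit 394) (C.node (nat_lit 1) (nat_lit 3) (nat_lit 9) (C.cons (nat_lit 522) (C.node (nat_lit 5) (nat_lit 7) (nat_lit 8) (C.cons (nat_lit 480) (C.miq (nat_lit 929699924) (nat_lit 1470073165843569673954722098)) (C.cons (nat_lit 416) (C.node (nat_lit 1) (nat_lit 7) (nat_lit 9) (C.cons (nat_lit 674) (C.node (nat_lit 1) (nat_lit 5) (nat_lit 10) (C.cons (nat_lit 1058) (C.node (nat_lit 1) (nat_lit 7) (nat_lit 10) C.nil) C.nil))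 (C.cons (nat_lit 642) (C.node (nat_lit 3) (nat_lit 8) (nat_lit 10) C.nil) C.nil))) C.nil))) C.nil)) (C.cons (nat_lit 386) (C.node (nat_lit 1) (nat_lit 3) (nat_lit 8) (C.cons (nat_lit 778) (C.miq (nat_lit 1669662996) (nat_lit 359071942539348775435108883)) (C.cons (nat_lit 266) (C.node (nat_lit 1) (nat_lit 3) (nat_lit 7) (C.cons (nat_lit 650) (C.node (nat_lit 1) (nat_lit 7) (nat_lit 10) (C.cons (nat_lit 1186) (C.miq (nat_lit 1362536336) (nat_lit 89481484933326480834627457)) C.nil)) (C.cons (nat_lit 138) (C.node (nat_lit 1) (nat_lit 7) (nat_lit 10) C.nil) C.nil))) C.nil))) C.nil))) C.nil)) C.nil))) C.nil))) C.nil)))))) C.nil)) (C.cons (nat_lit 26) (C.node (nat_lit 1) (nat_lit 4) (nat_lit 10) (C.cons (nat_lit 1042) (C.node (nat_lit 1) (nat_lit 7) (nat_lit 8) (C.cons (nat_lit 394) (C.node (nat_lit 1) (nat_lit 8) (nat_lit 10) (C.cons (nat_lit 1346) (C.miq (nat_lit 1630840944) (nat_lit 31453045636859177182234497)) (C.cons (nat_lit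 1282) (C.node (nat_lit 4) (nat_lit 8) (nat_lit 10) (C.cons (nat_lit 1304) (C.miq (nat_lit 1680935559) (nat_lit 31435668745117381088118657)) (C.cons (nat_lit 1296) (C.node (nat_lit 1) (nat_lit 6) (nat_lit 10) (C.cons (nat_lit 1098) (C.node (nat_lit 3) (nat_lit 8) (nat_lit 10) (C.cons (nat_lit 1288) (C.node (nat_lit 6) (nat_lit 8) (nat_lit 10) (C.cons (nat_lit 1344) (C.node (nat_lit 1) (nat_lit 3) (nat_lit 5) (C.cons (nat_lit 554) (C.miq (nat_lit 592972052) (nat_lit 359056078339444423148044819)) C.nil)) C.nil)) C.nil)) (C.cons (nat_lit 1090) (C.node (nat_lit 1) (nat_lit 3) (nat_lit 6) (C.cons (nat_lit 106) (C.miq (nat_lit 588777044) (nat_lit 476321882842061528949195889)) (C.cons (nat_lit 74) (C.node (nat_lit 1) (nat_lit 7) (nat_lit 9) (C.cons (nat_lit 674) (C.node (nat_lit 1) (nat_lit 7) (nat_lit 10) (C.cons (nat_lit 1154) (C.node (nat_lit 3) (nat_lit 7) (nat_lit 9) (C.cons (nat_lit 648) (C.node (nat_lit 1) (nat_lit 3) (nat_lit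 5) C.nil) C.nil)) C.nil)) (C.cons (nat_lit 642) (C.node (nat_lit 1) (nat_lit 5) (nat_lit 7) (C.cons (nat_lit 1186) (C.node (nat_lit 3) (nat_lit 7) (nat_lit 10) C.nil) C.nil)) C.nil))) C.nil))) C.nil))) C.nil))) C.nil))) (C.cons (nat_lit 386) (C.node (nat_lit 3) (nat_lit 4) (nat_lit 6) (C.cons (nat_lit 344) (C.node (nat_lit 3) (nat_lit 7) (nat_lit 8) (C.cons (nat_lit 392) (C.node (nat_lit 4) (nat_lit 7) (nat_lit 8) (C.cons (nat_lit 400) (C.node (nat_lit 4) (nat_lit 8) (nat_lit 9) (C.cons (nat_lit 784) (C.node (nat_lit 4) (nat_lit 8) (nat_lit 10) (C.cons (nat_lit 1296) (C.node (nat_lit 3) (nat_lit 6) (nat_lit 7) (C.cons (nat_lit 232) (C.miq (nat_lit 1937921600) (nat_lit 323995163434796452981048433)) (C.cons (nat_lit 200) (C.node (nat_lit 3) (nat_lit 5) (nat_lit 6) (C.cons (nat_lit 106) (C.miq (nat_lit 2184265829) (nat_lit 16930606256262461860217969)) (C.cons (nat_lit 104) (C.node (nat_lit 1) (nat_lit 3) (nat_lit 6) (C.cons (nat_lit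 1098) (C.miq (nat_lit 327329344) (nat_lit 324011138558921615284175985)) (C.cons (nat_lit 74) (C.node (nat_lit 3) (nat_lit 8) (nat_lit 9) C.nil) C.nil))) C.nil))) C.nil))) C.nil)) C.nil)) C.nil)) C.nil)) (C.cons (nat_lit 88) (C.node (nat_lit 3) (nat_lit 7) (nat_lit 8) (C.cons (nat_lit 456) (C.node (nat_lit 4) (nat_lit 7) (nat_lit 8) (C.cons (nat_lit 400) (C.node (nat_lit 5) (nat_lit 7) (nat_lit 8) (C.cons (nat_lit 416) (C.node (nat_lit 3) (nat_lit 5) (nat_lit 6) (C.cons (nat_lit 106)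
  (C.miq (nat_lit 2184265829) (nat_lit 16930606256262461860217969)) (C.cons (nat_lit 104) (C.node (nat_lit 3) (nat_lit 8) (nat_lit 9) (C.cons (nat_lit 792) (C.miq (nat_lit 339085703) (nat_lit 106389069390648355014051713)) (C.cons (nat_lit 778) (C.miq (nat_lit 1669662996) (nat_lit 359071942539348775435108883)) (C.cons (nat_lit 776) (C.node (nat_lit 1) (nat_lit 3) (nat_lit 6) (C.cons (nat_lit 1098) (C.node (nat_lit 1) (nat_lit 3) (nat_lit 8) (C.cons (nat_lit 266) (C.node (nat_lit 1) (nat_lit 8) (nat_lit 10) C.nil) C.nil)) (C.cons (nat_lit 74) (C.node (nat_lit 3) (nat_lit 6) (nat_lit 10) (C.cons (nat_lit 1096) (C.node (nat_lit 1) (nat_lit 6) (nat_lit 10) C.nil) C.nil)) C.nil))) C.nil)))) C.nil))) C.nil)) C.nil)) (C.cons (nat_lit 392) (C.node (nat_lit 3) (nat_lit 6) (nat_lit 7) (C.cons (nat_lit 232) (C.node (nat_lit 5) (nat_lit 7) (nat_lit 8) (C.cons (nat_lit 416) (C.node (nat_lit 3) (nat_lit 7) (nat_lit 9) (C.cons (nat_lit 650)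 (C.miq (nat_lit 1410818195) (nat_lit 181343152906858806012150349)) (C.cons (nat_lit 648) (C.node (nat_lit 5) (nat_lit 7) (nat_lit 10) (C.cons (nat_lit 1186) (C.miq (nat_lit 389195104) (nat_lit 169268633673018397856433265)) (C.cons (nat_lit 1184) (C.node (nat_lit 1) (nat_lit 3) (nat_lit 7) (C.cons (nat_lit 1162) (C.node (nat_lit 1) (nat_lit 3) (nat_lit 5) (C.cons (nat_lit 554) (C.miq (nat_lit 592972052) (nat_lit 359056078339444423148044819)) C.nil)) (C.cons (nat_lit 138) (C.node (nat_lit 3) (nat_lit 7) (nat_lit 10) C.nil) C.nil))) C.nil))) C.nil))) C.nil)) (C.cons (nat_lit 200) (C.node (nat_lit 3) (nat_lit 5) (nat_lit 6) (C.cons (nat_lit 106) (C.miq (nat_lit 2184265829) (nat_lit 16930606256262461860217969)) (C.cons (nat_lit 104) (C.node (nat_lit 4) (nat_lit 5) (nat_lit 7) (C.cons (nat_lit 688) (C.node (nat_lit 6) (nat_lit 7) (nat_lit 9) (C.cons (nat_lit 704) (C.node (nat_lit 1) (nat_lit 7) (nat_lit 9) (C.cons (nat_lit 650) (C.node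 (nat_lit 1) (nat_lit 5) (nat_lit 7) (C.cons (nat_lit 1186) (C.miq (nat_lit 325417226) (nat_lit 125750163261354118369838977)) (C.cons (nat_lit 162) (C.node (nat_lit 1) (nat_lit 7) (nat_lit 10) C.nil) C.nil))) (C.cons (nat_lit 642) (C.node (nat_lit 3) (nat_lit 7) (nat_lit 9) (C.cons (nat_lit 648) (C.node (nat_lit 4) (nat_lit 6) (nat_lit 7) C.nil) C.nil)) C.nil))) C.nil)) (C.cons (nat_lit 176) (C.node (nat_lit 4) (nat_lit 7) (nat_lit 8) (C.cons (nat_lit 464) (C.node (nat_lit 4) (nat_lit 6) (nat_lit 9) (C.cons (nat_lit 592) (C.node (nat_lit 4) (nat_lit 7) (nat_lit 9) (C.cons (nat_lit 656) (C.node (nat_lit 5) (nat_lit 6) (nat_lit 7) C.nil) C.nil)) C.nil)) (C.cons (nat_lit 400) (C.node (nat_lit 4) (nat_lit 6) (nat_lit 7) (C.cons (nat_lit 720) (C.node (nat_lit 4) (nat_lit 6) (nat_lit 8) (C.cons (nat_lit 336) (C.node (nat_lit 5) (nat_lit 6) (nat_lit 7) C.nil) C.nil)) (C.cons (nat_lit 208) (C.node (nat_lit 4) (nat_lit 7) (nat_lit 9)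 (C.cons (nat_lit 656) (C.node (nat_lit 4) (nat_lit 6) (nat_lit 8) C.nil) C.nil)) C.nil))) C.nil))) C.nil))) C.nil))) C.nil))) C.nil))) C.nil))) C.nil))) C.nil)) C.nil))) C.nil))) (C.cons (nat_lit 58) (C.node (nat_lit 1) (nat_lit 4) (nat_lit 6) (C.cons (nat_lit 338) (C.node (nat_lit 1) (nat_lit 4) (nat_lit 10) (C.cons (nat_lit 1042) (C.node (nat_lit 3) (nat_lit 4) (nat_lit 6) (C.cons (nat_lit 88) (C.node (nat_lit 1) (nat_lit 2) (nat_lit 6) (C.cons (nat_lit 102) (C.node (nat_lit 1) (nat_lit 6) (nat_lit 9) (C.cons (nat_lit 578) (C.node (nat_lit 2) (nat_lit 6) (nat_lit 8) (C.cons (nat_lit 324) (C.node (nat_lit 1) (nat_lit 2) (nat_lit 8) (C.cons (nat_lit 774) (C.miq (nat_lit 363341321) (nat_lit 1586124953143021859535651405)) (C.cons (nat_lit 262) (C.node (nat_lit 1) (nat_lit 2) (nat_lit 9) (C.cons (nat_lit 518) (C.node (nat_lit 1) (nat_lit 3) (nat_lit 6) (C.cons (nat_lit 1098) (C.node (nat_lit 1) (nat_lit 8) (nat_lit 10) (C.cons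 (nat_lit 1282) (C.node (nat_lit 6) (nat_lit 8) (nat_lit 10) C.nil) C.nil)) C.nil)) C.nil)) C.nil))) C.nil)) C.nil)) (C.cons (nat_lit 70) (C.node (nat_lit 1) (nat_lit 3) (nat_lit 6) (C.cons (nat_lit 1098)
  (C.node (nat_lit 1) (nat_lit 8) (nat_lit 10) (C.cons (nat_lit 1282) (C.node (nat_lit 6) (nat_lit 8) (nat_lit 10) (C.cons (nat_lit 1344) (C.node (nat_lit 1) (nat_lit 7) (nat_lit 10) (C.cons (nat_lit 1186) (C.miq (nat_lit 829581904) (nat_lit 181349738383518409402156145)) (C.cons (nat_lit 1154) (C.node (nat_lit 2) (nat_lit 3) (nat_lit 5) (C.cons (nat_lit 1068) (C.miq (nat_lit 321350224) (nat_lit 169253212170206569285616753)) (C.cons (nat_lit 44) (C.node (nat_lit 1) (nat_lit 5) (nat_lit 6) (C.cons (nat_lit 610) (C.node (nat_lit 1) (nat_lit 5) (nat_lit 10) C.nil) C.nil)) C.nil))) C.nil))) C.nil)) C.nil)) (C.cons (nat_lit 74) (C.node (nat_lit 1) (nat_lit 6) (nat_lit 10) (C.cons (nat_lit 1090) (C.node (nat_lit 1) (nat_lit 5) (nat_lit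 6) (C.cons (nat_lit 610) (C.node (nat_lit 6) (nat_lit 8) (nat_lit 9) (C.cons (nat_lit 832) (C.node (nat_lit 1) (nat_lit 2) (nat_lit 5) (C.cons (nat_lit 294) (C.miq (nat_lit 1934704770) (nat_lit 70120464592326495626985749)) (C.cons (nat_lit 38) (C.node (nat_lit 1) (nat_lit 2) (nat_lit 8) (C.cons (nat_lit 774) (C.miq (nat_lit 1367632160) (nat_lit 408637901149459528927216205)) C.nil)) C.nil))) C.nil)) (C.cons (nat_lit 98) (C.node (nat_lit 1) (nat_lit 6) (nat_lit 9) (C.cons (nat_lit 578) (C.node (nat_lit 1) (nat_lit 8) (nat_lit 10) (C.cons (nat_lit 1290) (C.node (nat_lit 3) (nat_lit 6) (nat_lit 10) C.nil) (C.cons (nat_lit 1282) (C.node (nat_lit 2) (nat_lit 5) (nat_lit 6) (C.cons (nat_lit 356) (C.node (nat_lit 1) (nat_lit 2) (nat_lit 8) (C.cons (nat_lit 774) (C.miq (nat_lit 1410883730) (nat_lit 408623494390674230849438285)) C.nil)) C.nil)) C.nil))) C.nil)) C.nil))) C.nil)) C.nil))) C.nil))) C.nil)) C.nil)) (C.cons (nat_lit 82) (C.node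 (nat_lit 1) (nat_lit 4) (nat_lit 8) (C.cons (nat_lit 1298) (C.node (nat_lit 1) (nat_lit 6) (nat_lit 10) (C.cons (nat_lit 1098) (C.miq (nat_lit 2184265834) (nat_lit 16948905426383581800432753)) (C.cons (nat_lit 1090) (C.node (nat_lit 3) (nat_lit 4) (nat_lit 6) (C.cons (nat_lit 344) (C.miq (nat_lit 405972064) (nat_lit 324011138615216610646754417)) (C.cons (nat_lit 88) (C.node (nat_lit 3) (nat_lit 4) (nat_lit 8) (C.cons (nat_lit 792) (C.miq (nat_lit 558041737) (nat_lit 70128562960114182967003009)) (C.cons (nat_lit 280) (C.node (nat_lit 3) (nat_lit 8) (nat_lit 9) (C.cons (nat_lit 778) (C.miq (nat_lit 1678969481) (nat_lit 70128562989950530497415041)) (C.cons (nat_lit 776) (C.node (nat_lit 3) (nat_lit 6) (nat_lit 10) (C.cons (nat_lit 1352) (C.miq (nat_lit 423116906) (nat_lit 938150380044225657027691633)) (C.cons (nat_lit 1096) (C.node (nat_lit 3) (nat_lit 8) (nat_lit 10) (C.cons (nat_lit 1288) (C.node (nat_lit 6) (nat_lit 8) (nat_lit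 10) (C.cons (nat_lit 1344) (C.node (nat_lit 1) (nat_lit 3) (nat_lit 6) (C.cons (nat_lit 330) (C.node (nat_lit 3) (nat_lit 7) (nat_lit 8) (C.cons (nat_lit 392) (C.node (nat_lit 1) (nat_lit 7) (nat_lit 8) (C.cons (nat_lit 418) (C.miq (nat_lit 1479700832) (nat_lit 323995163487150738540134595)) C.nil)) C.nil)) (C.cons (nat_lit 74) (C.node (nat_lit 1) (nat_lit 3) (nat_lit 8) (C.cons (nat_lit 394) (C.miq (nat_lit 1518420083) (nat_lit 1569186784090990243100623001)) C.nil)) C.nil))) C.nil)) C.nil)) C.nil))) C.nil))) C.nil))) C.nil))) C.nil))) (C.cons (nat_lit 274) (C.node (nat_lit 1) (nat_lit 4) (nat_lit 10) (C.cons (nat_lit 1042) (C.node (nat_lit 2) (nat_lit 3) (nat_lit 4) (C.cons (nat_lit 1052) (C.node (nat_lit 2) (nat_lit 3) (nat_lit 5) (C.cons (nat_lit 44) (C.node (nat_lit 4) (nat_lit 8) (nat_lit 10) (C.cons (nat_lit 1296) (C.node (nat_lit 4) (nat_lit 9) (nat_lit 10) (C.cons (nat_lit 1552) (C.node (nat_lit 2) (nat_lit 4) (nat_lit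 5) (C.cons (nat_lit 564) (C.node (nat_lit 2) (nat_lit 5) (nat_lit 10) (C.cons (nat_lit 1060) (C.node (nat_lit 2) (nat_lit 9) (nat_lit 10) C.nil) C.nil)) (C.cons (nat_lit 52) (C.node (nat_lit 2) (nat_lit 4) (nat_lit 9) (C.cons (nat_lit 532) (C.node (nat_lit 2) (nat_lit 5) (nat_lit 10) (C.cons (nat_lit 1060) (C.node (nat_lit 2) (nat_lit 9) (nat_lit 10) C.nil) C.nil)) C.nil)) C.nil))) C.nil)) C.nil)) C.nil)) (C.cons (nat_lit 28)
  (C.node (nat_lit 2) (nat_lit 3) (nat_lit 5) (C.cons (nat_lit 1068) (C.node (nat_lit 3) (nat_lit 5) (nat_lit 6) (C.cons (nat_lit 232) (C.miq (nat_lit 305597014) (nat_lit 169253212151347745850393713)) (C.cons (nat_lit 104) (C.node (nat_lit 5) (nat_lit 7) (nat_lit 10) (C.cons (nat_lit 1186) (C.miq (nat_lit 1983189034) (nat_lit 125750163133283003961967623)) (C.cons (nat_lit 1184) (C.node (nat_lit 1) (nat_lit 5) (nat_lit 10) (C.cons (nat_lit 1570) (C.miq (nat_lit 2052262164) (nat_lit 1291135598240987409511219731))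 (C.cons (nat_lit 1058) (C.node (nat_lit 5) (nat_lit 9) (nat_lit 10) (C.cons (nat_lit 1568) (C.node (nat_lit 1) (nat_lit 7) (nat_lit 10) (C.cons (nat_lit 1162) (C.node (nat_lit 1) (nat_lit 9) (nat_lit 10) (C.cons (nat_lit 1538) (C.node (nat_lit 1) (nat_lit 6) (nat_lit 10) (C.cons (nat_lit 1090) (C.node (nat_lit 1) (nat_lit 8) (nat_lit 10) C.nil) C.nil)) C.nil)) (C.cons (nat_lit 1154) (C.node (nat_lit 3) (nat_lit 7) (nat_lit 10) (C.cons (nat_lit 1160) (C.node (nat_lit 1) (nat_lit 9) (nat_lit 10) (C.cons (nat_lit 1546) (C.node (nat_lit 1) (nat_lit 3) (nat_lit 6) C.nil) C.nil)) C.nil)) C.nil))) C.nil)) C.nil))) C.nil))) C.nil))) (C.cons (nat_lit 44) (C.node (nat_lit 2) (nat_lit 3) (nat_lit 10) (C.cons (nat_lit 1036) (C.node (nat_lit 2) (nat_lit 4) (nat_lit 5) (C.cons (nat_lit 564) (C.node (nat_lit 2) (nat_lit 4) (nat_lit 10) (C.cons (nat_lit 1044) (C.node (nat_lit 2) (nat_lit 5) (nat_lit 10) C.nil) C.nil)) (C.cons (nat_lit 52)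 (C.node (nat_lit 2) (nat_lit 4) (nat_lit 9) (C.cons (nat_lit 1556) (C.node (nat_lit 2) (nat_lit 5) (nat_lit 10) (C.cons (nat_lit 1060) (C.node (nat_lit 3) (nat_lit 4) (nat_lit 10) C.nil) C.nil)) (C.cons (nat_lit 532) (C.node (nat_lit 2) (nat_lit 4) (nat_lit 10) C.nil) C.nil))) C.nil))) C.nil)) C.nil))) C.nil))) C.nil)) C.nil))) C.nil))) (C.cons (nat_lit 50) (C.node (nat_lit 1) (nat_lit 7) (nat_lit 8) (C.cons (nat_lit 418) (C.node (nat_lit 1) (nat_lit 7) (nat_lit 9) (C.cons (nat_lit 650) (C.node (nat_lit 1) (nat_lit 7) (nat_lit 10) (C.cons (nat_lit 1154) (C.node (nat_lit 1) (nat_lit 9) (nat_lit 10) (C.cons (nat_lit 1570) (C.miq (nat_lit 877752489) (nat_lit 60458281407449924861298561)) (C.cons (nat_lit 1538) (C.node (nat_lit 3) (nat_lit 7) (nat_lit 10) (C.cons (nat_lit 1192) (C.miq (nat_lit 826636554) (nat_lit 60468279682628336084912001)) (C.cons (nat_lit 1160) (C.node (nat_lit 5) (nat_lit 7) (nat_lit 10) (C.cons (nat_lit 1184)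 (C.node (nat_lit 3) (nat_lit 5) (nat_lit 7) (C.cons (nat_lit 232) (C.miq (nat_lit 1098189110) (nat_lit 505351966696392807164674637)) (C.cons (nat_lit 168) (C.node (nat_lit 3) (nat_lit 5) (nat_lit 6) (C.cons (nat_lit 106) (C.miq (nat_lit 2803173686) (nat_lit 505351967087643024784228941)) (C.cons (nat_lit 104) (C.node (nat_lit 3) (nat_lit 5) (nat_lit 9) (C.cons (nat_lit 1576) (C.miq (nat_lit 374567081) (nat_lit 125740275678461849317672833)) (C.cons (nat_lit 568) (C.miq (nat_lit 1698104465) (nat_lit 203103135130391562817241619)) (C.cons (nat_lit 552) (C.node (nat_lit 3) (nat_lit 9) (nat_lit 10) (C.cons (nat_lit 1560) (C.miq (nat_lit 1781990545) (nat_lit 1402357548188107964733325843)) (C.cons (nat_lit 1544) (C.node (nat_lit 3) (nat_lit 6) (nat_lit 7) C.nil) C.nil))) C.nil)))) C.nil))) C.nil))) C.nil)) C.nil))) C.nil))) C.nil)) (C.cons (nat_lit 642) (C.node (nat_lit 1) (nat_lit 3) (nat_lit 7) (C.cons (nat_lit 1162) (C.node (nat_lit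 5) (nat_lit 7) (nat_lit 10) (C.cons (nat_lit 1184) (C.node (nat_lit 1) (nat_lit 3) (nat_lit 8) (C.cons (nat_lit 778) (C.miq (nat_lit 1378971800) (nat_lit 16932672260073519982446465)) (C.cons (nat_lit 346) (C.miq (nat_lit 1479700832) (nat_lit 323995163487150807259611331)) (C.cons (nat_lit 330) (C.miq (nat_lit 1479700832) (nat_lit 323995163487150738540134595)) (C.cons (nat_lit 282) (C.miq (nat_lit 829785120) (nat_lit 505336471361281474452324629)) (C.cons (nat_lit 266) (C.node (nat_lit 1) (nat_lit 3) (nat_lit 4) (C.cons (nat_lit 90) (C.node (nat_lit 1) (nat_lit 4) (nat_lit 8) (C.cons (nat_lit 1298)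
  (C.miq (nat_lit 2551384646) (nat_lit 321585133690469780532364401)) (C.cons (nat_lit 274) (C.node (nat_lit 1) (nat_lit 4) (nat_lit 10) (C.cons (nat_lit 1042) (C.node (nat_lit 1) (nat_lit 6) (nat_lit 10) (C.cons (nat_lit 1346) (C.miq (nat_lit 2167907904) (nat_lit 1404807238966430402266858609)) (C.cons (nat_lit 1090) (C.node (nat_lit 1) (nat_lit 8) (nat_lit 10) (C.cons (nat_lit 1282) (C.node (nat_lit 3) (nat_lit 6) (nat_lit 10) (C.cons (nat_lit 1352) (C.miq (nat_lit 2553350756) (nat_lit 321584063779313737306604657)) C.nil)) C.nil)) C.nil))) C.nil)) C.nil))) (C.cons (nat_lit 26) (C.node (nat_lit 1) (nat_lit 3) (nat_lit 6) (C.cons (nat_lit 106) (C.miq (nat_lit 2555578134) (nat_lit 359061834098519505378083011)) (C.cons (nat_lit 74) (C.node (nat_lit 1) (nat_lit 3) (nat_lit 5) (C.cons (nat_lit 554) (C.node (nat_lit 1) (nat_lit 5) (nat_lit 10) (C.cons (nat_lit 1058) (C.node (nat_lit 1) (nat_lit 9) (nat_lit 10) (C.cons (nat_lit 1538)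 (C.node (nat_lit 3) (nat_lit 7) (nat_lit 9) (C.cons (nat_lit 648) (C.node (nat_lit 3) (nat_lit 5) (nat_lit 10) C.nil) C.nil)) C.nil)) C.nil)) (C.cons (nat_lit 42) (C.node (nat_lit 1) (nat_lit 3) (nat_lit 9) (C.cons (nat_lit 522) (C.node (nat_lit 1) (nat_lit 4) (nat_lit 6) (C.cons (nat_lit 338) (C.node (nat_lit 1) (nat_lit 4) (nat_lit 10) (C.cons (nat_lit 1042) (C.node (nat_lit 1) (nat_lit 6) (nat_lit 10) C.nil) C.nil)) (C.cons (nat_lit 82) (C.node (nat_lit 3) (nat_lit 4) (nat_lit 6) C.nil) C.nil))) C.nil)) C.nil))) C.nil))) C.nil))) C.nil)))))) C.nil)) (C.cons (nat_lit 138) (C.node (nat_lit 1) (nat_lit 7) (nat_lit 10) (C.cons (nat_lit 1154) (C.node (nat_lit 3) (nat_lit 7) (nat_lit 8) (C.cons (nat_lit 456) (C.node (nat_lit 4) (nat_lit 7) (nat_lit 8) (C.cons (nat_lit 400) (C.node (nat_lit 3) (nat_lit 5) (nat_lit 6) (C.cons (nat_lit 106) (C.miq (nat_lit 2555578134) (nat_lit 359061834098519505378083011)) (C.cons (nat_lit 104) (C.node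 (nat_lit 3) (nat_lit 8) (nat_lit 9) (C.cons (nat_lit 792) (C.miq (nat_lit 1215402848) (nat_lit 505340788042948274871796301)) (C.cons (nat_lit 778) (C.miq (nat_lit 1378971800) (nat_lit 16932672260073519982446465)) (C.cons (nat_lit 776) (C.node (nat_lit 3) (nat_lit 4) (nat_lit 6) (C.cons (nat_lit 90) (C.miq (nat_lit 1233326198) (nat_lit 938128096377390336727056579)) (C.cons (nat_lit 88) (C.node (nat_lit 1) (nat_lit 3) (nat_lit 6) (C.cons (nat_lit 1098) (C.node (nat_lit 6) (nat_lit 8) (nat_lit 10) (C.cons (nat_lit 1344) (C.node (nat_lit 1) (nat_lit 3) (nat_lit 8) (C.cons (nat_lit 282) (C.miq (nat_lit 829785120) (nat_lit 505336471361281474452324629)) C.nil)) C.nil)) (C.cons (nat_lit 74) (C.node (nat_lit 3) (nat_lit 6) (nat_lit 10) (C.cons (nat_lit 1096) (C.node (nat_lit 3) (nat_lit 7) (nat_lit 9) C.nil) C.nil)) C.nil))) C.nil))) C.nil)))) C.nil))) C.nil)) (C.cons (nat_lit 392) (C.node (nat_lit 3) (nat_lit 6) (nat_lit 7) (C.cons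 (nat_lit 232) (C.node (nat_lit 3) (nat_lit 7) (nat_lit 9) (C.cons (nat_lit 648) (C.node (nat_lit 3) (nat_lit 7) (nat_lit 10) C.nil) C.nil)) (C.cons (nat_lit 200) (C.node (nat_lit 3) (nat_lit 5) (nat_lit 6) (C.cons (nat_lit 106) (C.miq (nat_lit 2555578134) (nat_lit 359061834098519505378083011)) (C.cons (nat_lit 104) (C.node (nat_lit 3) (nat_lit 7) (nat_lit 9) (C.cons (nat_lit 680) (C.node (nat_lit 3) (nat_lit 7) (nat_lit 10) C.nil) (C.cons (nat_lit 648) (C.node (nat_lit 3) (nat_lit 5) (nat_lit 7) (C.cons (nat_lit 168) (C.node (nat_lit 3) (nat_lit 7) (nat_lit 10) C.nil) C.nil)) C.nil))) C.nil))) C.nil))) C.nil))) C.nil)) C.nil))) C.nil))) (C.cons (nat_lit 394) (C.node (nat_lit 1) (nat_lit 7) (nat_lit 9) (C.cons (nat_lit 674) (C.node (nat_lit 1) (nat_lit 7) (nat_lit 10) (C.cons (nat_lit 1154) (C.node (nat_lit 3) (nat_lit 7) (nat_lit 9) (C.cons (nat_lit 648) (C.node (nat_lit 1) (nat_lit 5) (nat_lit 8) (C.cons (nat_lit 358) (C.miq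 (nat_lit 1132791574) (nat_lit 359071942416624036325228739)) (C.cons (nat_lit 354) (C.miq (nat_lit 1132791574) (nat_lit 359071942416624036324966595)) (C.cons (nat_lit 294)
  (C.miq (nat_lit 1366524480) (nat_lit 476322251693908073979117845)) (C.cons (nat_lit 290) (C.node (nat_lit 1) (nat_lit 2) (nat_lit 5) (C.cons (nat_lit 102) (C.node (nat_lit 2) (nat_lit 6) (nat_lit 8) (C.cons (nat_lit 324) (C.node (nat_lit 1) (nat_lit 2) (nat_lit 8) (C.cons (nat_lit 774) (C.miq (nat_lit 2819950886) (nat_lit 350609462176971022997520973)) (C.cons (nat_lit 262) (C.node (nat_lit 1) (nat_lit 2) (nat_lit 9) (C.cons (nat_lit 518) (C.node (nat_lit 1) (nat_lit 6) (nat_lit 9) (C.cons (nat_lit 834) (C.miq (nat_lit 2170000928) (nat_lit 814851438850376228474782285)) C.nil)) C.nil)) C.nil))) C.nil)) (C.cons (nat_lit 38) (C.node (nat_lit 1) (nat_lit 5) (nat_lit 6) (C.cons (nat_lit 106) (C.miq (nat_lit 2822047510) (nat_lit 359071942914271795133153475)) (C.cons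 (nat_lit 98) (C.node (nat_lit 1) (nat_lit 2) (nat_lit 6) (C.cons (nat_lit 326) (C.node (nat_lit 1) (nat_lit 2) (nat_lit 9) (C.cons (nat_lit 518) (C.node (nat_lit 2) (nat_lit 5) (nat_lit 6) C.nil) C.nil)) (C.cons (nat_lit 70) (C.node (nat_lit 1) (nat_lit 2) (nat_lit 8) (C.cons (nat_lit 774) (C.node (nat_lit 2) (nat_lit 5) (nat_lit 6) (C.cons (nat_lit 356) (C.miq (nat_lit 1099237670) (nat_lit 350609461785720805386355277)) C.nil)) (C.cons (nat_lit 262) (C.node (nat_lit 1) (nat_lit 2) (nat_lit 9) C.nil) C.nil))) C.nil))) C.nil))) C.nil))) C.nil))))) C.nil)) C.nil)) (C.cons (nat_lit 642) (C.node (nat_lit 1) (nat_lit 5) (nat_lit 7) (C.cons (nat_lit 1186) (C.node (nat_lit 3) (nat_lit 7) (nat_lit 10) (C.cons (nat_lit 1160) (C.node (nat_lit 1) (nat_lit 9) (nat_lit 10) (C.cons (nat_lit 1546) (C.miq (nat_lit 1378971802) (nat_lit 16946839359522128968419201)) (C.cons (nat_lit 1538) (C.node (nat_lit 3) (nat_lit 6) (nat_lit 7) (C.cons (nat_lit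 232) (C.miq (nat_lit 389195104) (nat_lit 169268633673018397856433265)) (C.cons (nat_lit 200) (C.node (nat_lit 3) (nat_lit 5) (nat_lit 6) (C.cons (nat_lit 106) (C.miq (nat_lit 2534607446) (nat_lit 476327638601141833859466353)) (C.cons (nat_lit 104) (C.node (nat_lit 3) (nat_lit 5) (nat_lit 7) (C.cons (nat_lit 680) (C.miq (nat_lit 1394702602) (nat_lit 16946839504481741940656001)) (C.cons (nat_lit 168) (C.node (nat_lit 3) (nat_lit 7) (nat_lit 9) (C.cons (nat_lit 648) (C.node (nat_lit 1) (nat_lit 3) (nat_lit 10) (C.cons (nat_lit 1034) (C.node (nat_lit 1) (nat_lit 4) (nat_lit 10) C.nil) C.nil)) C.nil)) C.nil))) C.nil))) C.nil))) C.nil))) C.nil)) (C.cons (nat_lit 162) (C.node (nat_lit 1) (nat_lit 7) (nat_lit 10) (C.cons (nat_lit 1154) (C.node (nat_lit 3) (nat_lit 6) (nat_lit 7) (C.cons (nat_lit 232) (C.node (nat_lit 3) (nat_lit 7) (nat_lit 9) (C.cons (nat_lit 648) (C.node (nat_lit 3) (nat_lit 7) (nat_lit 10) (C.cons (nat_lit 1160)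 (C.node (nat_lit 5) (nat_lit 7) (nat_lit 10) C.nil) C.nil)) C.nil)) (C.cons (nat_lit 200) (C.node (nat_lit 3) (nat_lit 5) (nat_lit 6) (C.cons (nat_lit 106) (C.miq (nat_lit 2822047510) (nat_lit 359071942914271795133153475)) (C.cons (nat_lit 104) (C.node (nat_lit 3) (nat_lit 7) (nat_lit 9) (C.cons (nat_lit 680) (C.node (nat_lit 3) (nat_lit 7) (nat_lit 10) (C.cons (nat_lit 1160) (C.node (nat_lit 5) (nat_lit 7) (nat_lit 10) C.nil) C.nil)) (C.cons (nat_lit 648) (C.node (nat_lit 3) (nat_lit 5) (nat_lit 7) (C.cons (nat_lit 1192) (C.node (nat_lit 1) (nat_lit 5) (nat_lit 10) (C.cons (nat_lit 1570) (C.miq (nat_lit 873820314) (nat_lit 60468279542735272688093057)) (C.cons (nat_lit 1058) (C.node (nat_lit 1) (nat_lit 9) (nat_lit 10) (C.cons (nat_lit 1538) (C.node (nat_lit 1) (nat_lit 3) (nat_lit 10) C.nil) C.nil)) C.nil))) (C.cons (nat_lit 168) (C.node (nat_lit 3) (nat_lit 7) (nat_lit 10) (C.cons (nat_lit 1160) (C.node (nat_lit 5) (nat_lit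 7) (nat_lit 10) C.nil) C.nil)) C.nil))) C.nil))) C.nil))) C.nil))) C.nil)) C.nil))) C.nil))) (C.cons (nat_lit 386) (C.node (nat_lit 3) (nat_lit 7) (nat_lit 8) (C.cons (nat_lit 456) (C.node (nat_lit 3) (nat_lit 4) (nat_lit 6) (C.cons (nat_lit 90) (C.node (nat_lit 3) (nat_lit 4) (nat_lit 8) (C.cons (nat_lit 1304) (C.miq (nat_lit 394485924) (nat_lit 551271834006133408701875313)) (C.cons (nat_lit 792)
  (C.miq (nat_lit 1215402848) (nat_lit 466655161815280141281198669)) (C.cons (nat_lit 280) (C.miq (nat_lit 2553546593) (nat_lit 338509025253914697461792963)) C.nil)))) (C.cons (nat_lit 88) (C.node (nat_lit 1) (nat_lit 4) (nat_lit 6) (C.cons (nat_lit 338) (C.node (nat_lit 6) (nat_lit 8) (nat_lit 10) (C.cons (nat_lit 1344) (C.node (nat_lit 1) (nat_lit 2) (nat_lit 6) (C.cons (nat_lit 102) (C.node (nat_lit 1) (nat_lit 6) (nat_lit 9) (C.cons (nat_lit 578) (C.node (nat_lit 2) (nat_lit 6) (nat_lit 8) (C.cons (nat_lit 324) (C.node (nat_lit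 3) (nat_lit 5) (nat_lit 6) (C.cons (nat_lit 104) (C.node (nat_lit 1) (nat_lit 2) (nat_lit 8) (C.cons (nat_lit 774) (C.miq (nat_lit 363341321) (nat_lit 1586124953143021859535651405)) (C.cons (nat_lit 262) (C.node (nat_lit 1) (nat_lit 2) (nat_lit 9) C.nil) C.nil))) C.nil)) C.nil)) C.nil)) (C.cons (nat_lit 70) (C.node (nat_lit 1) (nat_lit 3) (nat_lit 4) (C.cons (nat_lit 1050) (C.node (nat_lit 1) (nat_lit 6) (nat_lit 10) (C.cons (nat_lit 1090) (C.node (nat_lit 1) (nat_lit 8) (nat_lit 10) (C.cons (nat_lit 1282) (C.node (nat_lit 3) (nat_lit 6) (nat_lit 10) (C.cons (nat_lit 1096) (C.node (nat_lit 3) (nat_lit 8) (nat_lit 10) C.nil) C.nil)) C.nil)) C.nil)) (C.cons (nat_lit 26) (C.node (nat_lit 1) (nat_lit 4) (nat_lit 10) (C.cons (nat_lit 1042) (C.node (nat_lit 1) (nat_lit 6) (nat_lit 9) (C.cons (nat_lit 610) (C.node (nat_lit 3) (nat_lit 5) (nat_lit 6) (C.cons (nat_lit 104) (C.node (nat_lit 5) (nat_lit 6) (nat_lit 7) (C.cons (nat_lit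 224) (C.node (nat_lit 6) (nat_lit 8) (nat_lit 9) (C.cons (nat_lit 832) (C.node (nat_lit 1) (nat_lit 2) (nat_lit 5) C.nil) C.nil)) C.nil)) C.nil)) (C.cons (nat_lit 578) (C.node (nat_lit 1) (nat_lit 5) (nat_lit 6) (C.cons (nat_lit 106) (C.node (nat_lit 1) (nat_lit 6) (nat_lit 10) (C.cons (nat_lit 1090) (C.node (nat_lit 3) (nat_lit 6) (nat_lit 10) (C.cons (nat_lit 1096) (C.node (nat_lit 1) (nat_lit 8) (nat_lit 10) C.nil) C.nil)) C.nil)) (C.cons (nat_lit 98) (C.node (nat_lit 3) (nat_lit 5) (nat_lit 6) (C.cons (nat_lit 104) (C.node (nat_lit 1) (nat_lit 6) (nat_lit 10) (C.cons (nat_lit 1098) (C.node (nat_lit 1) (nat_lit 8) (nat_lit 10) C.nil) C.nil)) C.nil)) C.nil))) C.nil))) C.nil)) C.nil))) C.nil))) C.nil)) (C.cons (nat_lit 82) (C.node (nat_lit 3) (nat_lit 5) (nat_lit 6) (C.cons (nat_lit 106) (C.node (nat_lit 3) (nat_lit 6) (nat_lit 10) (C.cons (nat_lit 1096) (C.node (nat_lit 1) (nat_lit 6) (nat_lit 9) (C.cons (nat_lit 834) (C.miq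 (nat_lit 372545648) (nat_lit 106395267581942596237854593)) (C.cons (nat_lit 578) (C.node (nat_lit 3) (nat_lit 8) (nat_lit 9) (C.cons (nat_lit 792) (C.miq (nat_lit 1130469488) (nat_lit 128155932323183972363470721)) (C.cons (nat_lit 778) (C.miq (nat_lit 363345417) (nat_lit 1586125026931124054280700493)) (C.cons (nat_lit 776) (C.node (nat_lit 1) (nat_lit 2) (nat_lit 6) (C.cons (nat_lit 326) (C.node (nat_lit 1) (nat_lit 6) (nat_lit 10) (C.cons (nat_lit 1090) (C.node (nat_lit 2) (nat_lit 5) (nat_lit 6) (C.cons (nat_lit 100) (C.node (nat_lit 6) (nat_lit 8) (nat_lit 10) C.nil) C.nil)) C.nil)) (C.cons (nat_lit 70) (C.node (nat_lit 1) (nat_lit 6) (nat_lit 8) (C.cons (nat_lit 1346) (C.node (nat_lit 1) (nat_lit 3) (nat_lit 8) (C.cons (nat_lit 282) (C.miq (nat_lit 1966153860) (nat_lit 128148903937206395732623637)) (C.cons (nat_lit 266) (C.node (nat_lit 3) (nat_lit 4) (nat_lit 8) (C.cons (nat_lit 1304) (C.miq (nat_lit 406284864) (nat_lit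 551273771238236196328506481)) C.nil)) C.nil))) (C.cons (nat_lit 322) (C.node (nat_lit 1) (nat_lit 6) (nat_lit 10) (C.cons (nat_lit 1090) (C.node (nat_lit 6) (nat_lit 8) (nat_lit 10) (C.cons (nat_lit 1344) (C.node (nat_lit 2) (nat_lit 5) (nat_lit 6) C.nil) C.nil)) C.nil)) C.nil))) C.nil))) C.nil)))) C.nil))) C.nil)) (C.cons (nat_lit 104) (C.node (nat_lit 1) (nat_lit 3) (nat_lit 6) (C.cons (nat_lit 1098) (C.node (nat_lit 6) (nat_lit 8) (nat_lit 10) (C.cons (nat_lit 1344) (C.node (nat_lit 1) (nat_lit 4) (nat_lit 10) (C.cons (nat_lit 1298) (C.miq (nat_lit 2184265834) (nat_lit 16948905426383581800432753)) (C.cons (nat_lit 1042)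
  (C.node (nat_lit 1) (nat_lit 8) (nat_lit 10) (C.cons (nat_lit 1282) (C.node (nat_lit 1) (nat_lit 7) (nat_lit 10) (C.cons (nat_lit 1186) (C.miq (nat_lit 829581904) (nat_lit 181349738383518409402156145)) (C.cons (nat_lit 1154) (C.node (nat_lit 1) (nat_lit 5) (nat_lit 10) (C.cons (nat_lit 1570) (C.node (nat_lit 2) (nat_lit 5) (nat_lit 10) C.nil) C.nil)) C.nil))) C.nil)) C.nil))) C.nil)) (C.cons (nat_lit 74) (C.node (nat_lit 3) (nat_lit 6) (nat_lit 10) (C.cons (nat_lit 1096) (C.node (nat_lit 1) (nat_lit 6) (nat_lit 10) (C.cons (nat_lit 1346) (C.node (nat_lit 1) (nat_lit 2) (nat_lit 6) (C.cons (nat_lit 102) (C.miq (nat_lit 2166859344) (nat_lit 181374309516425729004602481)) (C.cons (nat_lit 70) (C.node (nat_lit 3) (nat_lit 8) (nat_lit 10) (C.cons (nat_lit 1304) (C.miq (nat_lit 406284864) (nat_lit 551273771238236196328506481)) (C.cons (nat_lit 1288) (C.node (nat_lit 4) (nat_lit 8) (nat_lit 10) (C.cons (nat_lit 1296) (C.node (nat_lit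 2) (nat_lit 6) (nat_lit 8) (C.cons (nat_lit 356) (C.node (nat_lit 1) (nat_lit 3) (nat_lit 4) C.nil) C.nil)) C.nil)) C.nil))) C.nil))) (C.cons (nat_lit 1090) (C.node (nat_lit 6) (nat_lit 8) (nat_lit 10) (C.cons (nat_lit 1344) (C.node (nat_lit 4) (nat_lit 6) (nat_lit 7) (C.cons (nat_lit 720) (C.node (nat_lit 4) (nat_lit 6) (nat_lit 8) (C.cons (nat_lit 336) (C.node (nat_lit 5) (nat_lit 6) (nat_lit 7) C.nil) C.nil)) (C.cons (nat_lit 208) (C.node (nat_lit 5) (nat_lit 6) (nat_lit 7) (C.cons (nat_lit 736) (C.node (nat_lit 1) (nat_lit 6) (nat_lit 9) C.nil) C.nil)) C.nil))) C.nil)) C.nil))) C.nil)) C.nil))) C.nil))) C.nil))) C.nil))) (C.cons (nat_lit 392) (C.node (nat_lit 3) (nat_lit 6) (nat_lit 7) (C.cons (nat_lit 232) (C.node (nat_lit 3) (nat_lit 7) (nat_lit 9) (C.cons (nat_lit 650) (C.miq (nat_lit 1410818195) (nat_lit 181343152906858806012150349)) (C.cons (nat_lit 648) (C.node (nat_lit 5) (nat_lit 7) (nat_lit 8) (C.cons (nat_lit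 432) (C.miq (nat_lit 931292480) (nat_lit 469074083208039584752796785)) (C.cons (nat_lit 416) (C.node (nat_lit 5) (nat_lit 7) (nat_lit 10) (C.cons (nat_lit 1186) (C.miq (nat_lit 389195104) (nat_lit 169268633673018397856433265)) (C.cons (nat_lit 1184) (C.node (nat_lit 1) (nat_lit 3) (nat_lit 7) (C.cons (nat_lit 1162) (C.node (nat_lit 1) (nat_lit 5) (nat_lit 7) (C.cons (nat_lit 674) (C.node (nat_lit 4) (nat_lit 5) (nat_lit 7) C.nil) C.nil)) (C.cons (nat_lit 138) (C.node (nat_lit 1) (nat_lit 7) (nat_lit 10) (C.cons (nat_lit 1154) (C.node (nat_lit 3) (nat_lit 7) (nat_lit 10) C.nil) C.nil)) C.nil))) C.nil))) C.nil))) C.nil))) (C.cons (nat_lit 200) (C.node (nat_lit 3) (nat_lit 5) (nat_lit 6) (C.cons (nat_lit 106) (C.node (nat_lit 1) (nat_lit 2) (nat_lit 6) (C.cons (nat_lit 326) (C.node (nat_lit 1) (nat_lit 4) (nat_lit 6) (C.cons (nat_lit 82) (C.node (nat_lit 1) (nat_lit 6) (nat_lit 9) (C.cons (nat_lit 578) (C.node (nat_lit 1) (nat_lit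 6) (nat_lit 10) (C.cons (nat_lit 1090) (C.node (nat_lit 2) (nat_lit 5) (nat_lit 6) (C.cons (nat_lit 100) (C.node (nat_lit 1) (nat_lit 2) (nat_lit 5) (C.cons (nat_lit 550) (C.node (nat_lit 2) (nat_lit 5) (nat_lit 8) C.nil) (C.cons (nat_lit 38) (C.node (nat_lit 1) (nat_lit 2) (nat_lit 9) C.nil) C.nil))) C.nil)) C.nil)) C.nil)) C.nil)) (C.cons (nat_lit 70) (C.node (nat_lit 1) (nat_lit 4) (nat_lit 6) (C.cons (nat_lit 338) (C.node (nat_lit 1) (nat_lit 6) (nat_lit 9) (C.cons (nat_lit 578) (C.node (nat_lit 1) (nat_lit 6) (nat_lit 10) (C.cons (nat_lit 1090) (C.node (nat_lit 3) (nat_lit 4) (nat_lit 6) (C.cons (nat_lit 88) (C.node (nat_lit 1) (nat_lit 3) (nat_lit 4) (C.cons (nat_lit 1050) (C.node (nat_lit 1) (nat_lit 8) (nat_lit 10) (C.cons (nat_lit 1282) (C.node (nat_lit 1) (nat_lit 3) (nat_lit 8) C.nil) C.nil)) (C.cons (nat_lit 26) (C.node (nat_lit 1) (nat_lit 4) (nat_lit 10) (C.cons (nat_lit 1042) (C.node (nat_lit 1) (nat_lit 8) (nat_lit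 10) C.nil) C.nil)) C.nil))) C.nil)) C.nil)) C.nil)) (C.cons (nat_lit 82) (C.node (nat_lit 1) (nat_lit 6) (nat_lit 9) (C.cons (nat_lit 834) (C.node (nat_lit 1) (nat_lit 6) (nat_lit 10) (C.cons (nat_lit 1090)
  (C.node (nat_lit 1) (nat_lit 2) (nat_lit 8) (C.cons (nat_lit 294) (C.miq (nat_lit 1934704770) (nat_lit 128148903933828696012882197)) (C.cons (nat_lit 262) (C.node (nat_lit 1) (nat_lit 2) (nat_lit 5) C.nil) C.nil))) C.nil)) (C.cons (nat_lit 578) (C.node (nat_lit 1) (nat_lit 6) (nat_lit 8) (C.cons (nat_lit 1346) (C.node (nat_lit 3) (nat_lit 6) (nat_lit 10) (C.cons (nat_lit 1096) (C.node (nat_lit 1) (nat_lit 4) (nat_lit 8) (C.cons (nat_lit 282) (C.miq (nat_lit 1966153860) (nat_lit 128148903937206395732623637)) (C.cons (nat_lit 274) (C.node (nat_lit 1) (nat_lit 3) (nat_lit 8) (C.cons (nat_lit 778) (C.miq (nat_lit 1518428307) (nat_lit 1627216108876207981570163277)) (C.cons (nat_lit 266) (C.node (nat_lit 3) (nat_lit 8) (nat_lit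 10) C.nil) C.nil))) C.nil))) C.nil)) (C.cons (nat_lit 322) (C.node (nat_lit 1) (nat_lit 6) (nat_lit 10) (C.cons (nat_lit 1090) (C.node (nat_lit 2) (nat_lit 5) (nat_lit 6) (C.cons (nat_lit 356) (C.node (nat_lit 1) (nat_lit 2) (nat_lit 8) (C.cons (nat_lit 774) (C.miq (nat_lit 2235639305) (nat_lit 60460568860854485049868877)) C.nil)) C.nil)) C.nil)) C.nil))) C.nil))) C.nil))) C.nil))) (C.cons (nat_lit 104) (C.node (nat_lit 2) (nat_lit 3) (nat_lit 4) (C.cons (nat_lit 1052) (C.node (nat_lit 2) (nat_lit 3) (nat_lit 5) (C.cons (nat_lit 44) (C.node (nat_lit 4) (nat_lit 9) (nat_lit 10) (C.cons (nat_lit 1552) (C.node (nat_lit 1) (nat_lit 4) (nat_lit 10) (C.cons (nat_lit 1298) (C.node (nat_lit 1) (nat_lit 6) (nat_lit 10) (C.cons (nat_lit 1098) (C.miq (nat_lit 2184265834) (nat_lit 16948905426383581800432753)) (C.cons (nat_lit 1090) (C.node (nat_lit 3) (nat_lit 4) (nat_lit 8) (C.cons (nat_lit 792) (C.miq (nat_lit 338864272) (nat_lit 1271808981193087807761745793))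 (C.cons (nat_lit 344) (C.miq (nat_lit 405972064) (nat_lit 324011138615216610646754417)) (C.cons (nat_lit 280) (C.node (nat_lit 1) (nat_lit 3) (nat_lit 4) (C.cons (nat_lit 90) (C.node (nat_lit 1) (nat_lit 3) (nat_lit 8) (C.cons (nat_lit 778) (C.node (nat_lit 4) (nat_lit 6) (nat_lit 8) C.nil) (C.cons (nat_lit 266) (C.miq (nat_lit 2551384646) (nat_lit 321585133690469780532364401)) C.nil))) (C.cons (nat_lit 26) (C.node (nat_lit 1) (nat_lit 4) (nat_lit 6) (C.cons (nat_lit 82) (C.node (nat_lit 1) (nat_lit 2) (nat_lit 6) C.nil) C.nil)) C.nil))) C.nil)))) C.nil))) (C.cons (nat_lit 1042) (C.node (nat_lit 4) (nat_lit 8) (nat_lit 10) (C.cons (nat_lit 1296) (C.node (nat_lit 2) (nat_lit 4) (nat_lit 5) (C.cons (nat_lit 564) (C.node (nat_lit 2) (nat_lit 5) (nat_lit 10) (C.cons (nat_lit 1060) (C.node (nat_lit 2) (nat_lit 9) (nat_lit 10) C.nil) C.nil)) (C.cons (nat_lit 52) (C.node (nat_lit 2) (nat_lit 4) (nat_lit 9) (C.cons (nat_lit 532) (C.node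 (nat_lit 2) (nat_lit 5) (nat_lit 10) (C.cons (nat_lit 1060) (C.node (nat_lit 2) (nat_lit 9) (nat_lit 10) C.nil) C.nil)) C.nil)) C.nil))) C.nil)) C.nil))) C.nil)) C.nil)) (C.cons (nat_lit 60) (C.node (nat_lit 2) (nat_lit 3) (nat_lit 10) (C.cons (nat_lit 1036) (C.node (nat_lit 2) (nat_lit 4) (nat_lit 9) (C.cons (nat_lit 1556) (C.miq (nat_lit 2453185616) (nat_lit 324027556290061536349193329)) (C.cons (nat_lit 532) (C.node (nat_lit 2) (nat_lit 4) (nat_lit 10) (C.cons (nat_lit 1044) (C.node (nat_lit 2) (nat_lit 5) (nat_lit 10) (C.cons (nat_lit 1060) (C.node (nat_lit 2) (nat_lit 9) (nat_lit 10) C.nil) C.nil)) C.nil)) C.nil))) C.nil)) (C.cons (nat_lit 28) (C.node (nat_lit 2) (nat_lit 3) (nat_lit 5) (C.cons (nat_lit 1068) (C.node (nat_lit 3) (nat_lit 4) (nat_lit 5) (C.cons (nat_lit 568) (C.miq (nat_lit 305728084) (nat_lit 712067103264325011724829809)) (C.cons (nat_lit 56) (C.node (nat_lit 5) (nat_lit 7) (nat_lit 10) (C.cons (nat_lit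 1186) (C.miq (nat_lit 1983189034) (nat_lit 125750163133283003961967623)) (C.cons (nat_lit 1184) (C.node (nat_lit 1) (nat_lit 5) (nat_lit 10) (C.cons (nat_lit 1570) (C.node (nat_lit 1) (nat_lit 2) (nat_lit 9) (C.cons (nat_lit 774) (C.miq (nat_lit 1361357184) (nat_lit 181359847332125221724686209)) (C.cons (nat_lit 518) (C.node (nat_lit 3) (nat_lit 7) (nat_lit 10) (C.cons (nat_lit 1162)
  (C.node (nat_lit 2) (nat_lit 4) (nat_lit 10) C.nil) C.nil)) C.nil))) (C.cons (nat_lit 1058) (C.node (nat_lit 5) (nat_lit 9) (nat_lit 10) (C.cons (nat_lit 1568) (C.node (nat_lit 1) (nat_lit 7) (nat_lit 10) (C.cons (nat_lit 1162) (C.node (nat_lit 1) (nat_lit 9) (nat_lit 10) (C.cons (nat_lit 1538) (C.node (nat_lit 1) (nat_lit 4) (nat_lit 10) (C.cons (nat_lit 1298) (C.node (nat_lit 1) (nat_lit 6) (nat_lit 10) C.nil) C.nil)) C.nil)) (C.cons (nat_lit 1154) (C.node (nat_lit 3) (nat_lit 7) (nat_lit 10) C.nil) C.nil))) C.nil)) C.nil))) C.nil))) C.nil)))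 (C.cons (nat_lit 44) (C.node (nat_lit 2) (nat_lit 3) (nat_lit 10) (C.cons (nat_lit 1036) (C.node (nat_lit 2) (nat_lit 4) (nat_lit 5) (C.cons (nat_lit 564) (C.node (nat_lit 2) (nat_lit 4) (nat_lit 10) (C.cons (nat_lit 1044) (C.node (nat_lit 2) (nat_lit 5) (nat_lit 10) C.nil) C.nil)) (C.cons (nat_lit 52) (C.node (nat_lit 2) (nat_lit 4) (nat_lit 9) (C.cons (nat_lit 1556) (C.node (nat_lit 2) (nat_lit 5) (nat_lit 10) C.nil) (C.cons (nat_lit 532) (C.node (nat_lit 2) (nat_lit 4) (nat_lit 10) C.nil) C.nil))) C.nil))) C.nil)) C.nil))) C.nil)))) C.nil))) C.nil))) C.nil))) C.nil)))) C.nil)))) List.nil)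

theorem ok11_167 : okL par11 (nat_lit 168) c11_167 (nat_lit 167) = true := by decide +kernel

noncomputable def c11_168 : List C :=
  (List.cons (C.node (nat_lit 1) (nat_lit 2) (nat_lit 3) (C.cons (nat_lit 270) (C.node (nat_lit 1) (nat_lit 2) (nat_lit 6) (C.cons (nat_lit 102) (C.node (nat_lit 1) (nat_lit 2) (nat_lit 9) (C.cons (nat_lit 518) (C.node (nat_lit 2) (nat_lit 6) (nat_lit 8) (C.cons (nat_lit 324) (C.node (nat_lit 2) (nat_lit 8) (nat_lit 10) (C.cons (nat_lit 1316) (C.miq (nat_lit 2182587744) (nat_lit 181374309507981479705248881)) (C.cons (nat_lit 1284) (C.node (nat_lit 5) (nat_lit 8) (nat_lit 10) (C.cons (nat_lit 1314) (C.miq (nat_lit 2166990176) (nat_lit 626259011125602066069521521)) (C.cons (nat_lit 1312) (C.node (nat_lit 5) (nat_lit 6) (nat_lit 8) (C.cons (nat_lit 864) (C.miq (nat_lit 444932246) (nat_lit 1586112557192497947266253389)) (C.cons (nat_lit 480) (C.miq (nat_lit 713363574) (nat_lit 1586112557192497947241087171))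 (C.cons (nat_lit 352) (C.node (nat_lit 5) (nat_lit 6) (nat_lit 9) (C.cons (nat_lit 736) (C.miq (nat_lit 446046325) (nat_lit 1934283193241511149573243045)) (C.cons (nat_lit 608) (C.node (nat_lit 1) (nat_lit 6) (nat_lit 9) (C.cons (nat_lit 834) (C.node (nat_lit 1) (nat_lit 4) (nat_lit 6) (C.cons (nat_lit 90) (C.miq (nat_lit 1913849188) (nat_lit 326412793694236963981886577)) (C.cons (nat_lit 82) (C.node (nat_lit 1) (nat_lit 7) (nat_lit 8) (C.cons (nat_lit 418) (C.node (nat_lit 2) (nat_lit 5) (nat_lit 8) (C.cons (nat_lit 804) (C.node (nat_lit 4) (nat_lit 5) (nat_lit 8) (C.cons (nat_lit 304) (C.node (nat_lit 2) (nat_lit 4) (nat_lit 5) (C.cons (nat_lit 60) (C.miq (nat_lit 305620288) (nat_lit 169253211889853163153982577)) (C.cons (nat_lit 52) (C.node (nat_lit 3) (nat_lit 7) (nat_lit 8) (C.cons (nat_lit 456) (C.miq (nat_lit 873885848) (nat_lit 99140328966765156000466817)) (C.cons (nat_lit 392) (C.node (nat_lit 1) (nat_lit 7) (nat_lit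 9) (C.cons (nat_lit 650) (C.node (nat_lit 1) (nat_lit 7) (nat_lit 10) C.nil) C.nil)) C.nil))) C.nil))) C.nil)) (C.cons (nat_lit 292) (C.miq (nat_lit 2455265393) (nat_lit 353021724077818662759825603)) C.nil))) (C.cons (nat_lit 386) (C.miq (nat_lit 1468080278) (nat_lit 466647247985594001654940237)) C.nil))) C.nil))) (C.cons (nat_lit 578) (C.node (nat_lit 1) (nat_lit 7) (nat_lit 8) (C.cons (nat_lit 418) (C.miq (nat_lit 2171172128) (nat_lit 698794560050278237419143333)) (C.cons (nat_lit 386) (C.node (nat_lit 2) (nat_lit 5) (nat_lit 8) (C.cons (nat_lit 804) (C.miq (nat_lit 1366828553) (nat_lit 466660197582193409185088077)) (C.cons (nat_lit 292) (C.node (nat_lit 2) (nat_lit 8) (nat_lit 9) (C.cons (nat_lit 772) (C.node (nat_lit 1) (nat_lit 8) (nat_lit 9) (C.cons (nat_lit 802) (C.node (nat_lit 1) (nat_lit 4) (nat_lit 5) (C.cons (nat_lit 58) (C.miq (nat_lit 2018707732) (nat_lit 359053791318105017277874707)) (C.cons (nat_lit 50) (C.node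 (nat_lit 1) (nat_lit 3) (nat_lit 6) (C.cons (nat_lit 74) (C.node (nat_lit 1) (nat_lit 4) (nat_lit 6) C.nil) C.nil)) C.nil))) (C.cons (nat_lit 770) (C.node (nat_lit 1) (nat_lit 5) (nat_lit 8) (C.cons (nat_lit 306) (C.miq (nat_lit 911286344) (nat_lit 123315414387385722079412501)) (C.cons (nat_lit 290) (C.node (nat_lit 1) (nat_lit 6) (nat_lit 8) C.nil) C.nil))) C.nil))) C.nil)) C.nil))) C.nil))) C.nil))) C.nil))) C.nil)))) C.nil))) C.nil))) C.nil)) C.nil)) (C.cons (nat_lit 70) (C.node (nat_lit 1) (nat_lit 2) (nat_lit 5) (C.cons (nat_lit 550) (C.node (nat_lit 2) (nat_lit 8) (nat_lit 9) (C.cons (nat_lit 772) (C.node (nat_lit 1) (nat_lit 6) (nat_lit 9) (C.cons (nat_lit 834) (C.node (nat_lit 1) (nat_lit 4) (nat_lit 6) (C.cons (nat_lit 90) (C.miq (nat_lit 2168952368) (nat_lit 181374309372310489388352077)) (C.cons (nat_lit 82) (C.node (nat_lit 1) (nat_lit 5) (nat_lit 6) (C.cons (nat_lit 106) (C.miq (nat_lit 560235344) (nat_lit 99137027032506708924629289))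 (C.cons (nat_lit 98) (C.node (nat_lit 1) (nat_lit 7) (nat_lit 8) (C.cons (nat_lit 418) (C.miq (nat_lit 1632802928) (nat_lit 664920066155057386898130817)) (C.cons (nat_lit 386) (C.node (nat_lit 3) (nat_lit 7) (nat_lit 8) (C.cons (nat_lit 456) (C.miq (nat_lit 873885848) (nat_lit 99140328966765156000466817)) (C.cons (nat_lit 392)
  (C.node (nat_lit 3) (nat_lit 8) (nat_lit 9) (C.cons (nat_lit 792) (C.miq (nat_lit 1192767593) (nat_lit 466659976235619748411474509)) (C.cons (nat_lit 776) (C.node (nat_lit 1) (nat_lit 5) (nat_lit 8) (C.cons (nat_lit 1314) (C.miq (nat_lit 1703086610) (nat_lit 359061833877846971938374663)) (C.cons (nat_lit 306) (C.miq (nat_lit 911286344) (nat_lit 118479711108927205380587797)) (C.cons (nat_lit 290) (C.node (nat_lit 1) (nat_lit 3) (nat_lit 6) (C.cons (nat_lit 1098) (C.node (nat_lit 1) (nat_lit 9) (nat_lit 10) (C.cons (nat_lit 1538) (C.node (nat_lit 6) (nat_lit 8) (nat_lit 10) (C.cons (nat_lit 1344) (C.node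 (nat_lit 1) (nat_lit 4) (nat_lit 8) (C.cons (nat_lit 1298) (C.node (nat_lit 1) (nat_lit 5) (nat_lit 10) (C.cons (nat_lit 1186) (C.miq (nat_lit 1095928432) (nat_lit 664914310901514077246654337)) C.nil)) (C.cons (nat_lit 274) (C.miq (nat_lit 2709807904) (nat_lit 331266648831480885717303885)) C.nil))) C.nil)) C.nil)) (C.cons (nat_lit 74) (C.node (nat_lit 1) (nat_lit 6) (nat_lit 10) (C.cons (nat_lit 1090) (C.node (nat_lit 1) (nat_lit 4) (nat_lit 8) (C.cons (nat_lit 1298) (C.miq (nat_lit 2704689184) (nat_lit 89481484964850046138646805)) (C.cons (nat_lit 274) (C.node (nat_lit 1) (nat_lit 8) (nat_lit 10) (C.cons (nat_lit 1282) (C.node (nat_lit 1) (nat_lit 4) (nat_lit 5) C.nil) C.nil)) C.nil))) C.nil)) C.nil))) C.nil)))) C.nil))) C.nil))) C.nil))) C.nil))) C.nil))) (C.cons (nat_lit 578) (C.node (nat_lit 1) (nat_lit 8) (nat_lit 9) (C.cons (nat_lit 770) (C.node (nat_lit 1) (nat_lit 7) (nat_lit 8) (C.cons (nat_lit 418) (C.node (nat_lit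 1) (nat_lit 5) (nat_lit 6) (C.cons (nat_lit 106) (C.miq (nat_lit 1159202354) (nat_lit 505336102667060916377223757)) (C.cons (nat_lit 98) (C.node (nat_lit 1) (nat_lit 5) (nat_lit 10) (C.cons (nat_lit 1066) (C.miq (nat_lit 1161300498) (nat_lit 359056078493694909406381063)) (C.cons (nat_lit 1058) (C.node (nat_lit 1) (nat_lit 3) (nat_lit 5) (C.cons (nat_lit 58) (C.node (nat_lit 2) (nat_lit 4) (nat_lit 5) (C.cons (nat_lit 52) (C.node (nat_lit 1) (nat_lit 7) (nat_lit 9) (C.cons (nat_lit 650) (C.miq (nat_lit 2438624064) (nat_lit 1279078953530602246932332697)) (C.cons (nat_lit 642) (C.node (nat_lit 5) (nat_lit 7) (nat_lit 10) (C.cons (nat_lit 1192) (C.miq (nat_lit 832001034) (nat_lit 776152364727855621349639281)) (C.cons (nat_lit 1184) (C.node (nat_lit 1) (nat_lit 3) (nat_lit 6) (C.cons (nat_lit 1098) (C.node (nat_lit 1) (nat_lit 3) (nat_lit 7) C.nil) (C.cons (nat_lit 74) (C.node (nat_lit 1) (nat_lit 4) (nat_lit 6) (C.cons (nat_lit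 82) (C.node (nat_lit 1) (nat_lit 3) (nat_lit 7) C.nil) C.nil)) C.nil))) C.nil))) C.nil))) C.nil)) (C.cons (nat_lit 42) (C.node (nat_lit 1) (nat_lit 4) (nat_lit 5) (C.cons (nat_lit 50) (C.node (nat_lit 1) (nat_lit 7) (nat_lit 9) (C.cons (nat_lit 650) (C.node (nat_lit 1) (nat_lit 7) (nat_lit 10) (C.cons (nat_lit 1154) (C.node (nat_lit 1) (nat_lit 9) (nat_lit 10) (C.cons (nat_lit 1538) (C.node (nat_lit 3) (nat_lit 5) (nat_lit 6) (C.cons (nat_lit 232) (C.miq (nat_lit 1098189110) (nat_lit 505351966696392807164674637)) (C.cons (nat_lit 104) (C.node (nat_lit 3) (nat_lit 5) (nat_lit 7) (C.cons (nat_lit 1192) (C.miq (nat_lit 1160841849) (nat_lit 50784679964959733273200513)) (C.cons (nat_lit 168) (C.node (nat_lit 2) (nat_lit 5) (nat_lit 6) C.nil) C.nil))) C.nil))) C.nil)) C.nil)) (C.cons (nat_lit 642) (C.node (nat_lit 1) (nat_lit 3) (nat_lit 7) (C.cons (nat_lit 1162) (C.node (nat_lit 1) (nat_lit 3) (nat_lit 9) (C.cons (nat_lit 522) (C.node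 (nat_lit 1) (nat_lit 9) (nat_lit 10) C.nil) C.nil)) (C.cons (nat_lit 138) (C.node (nat_lit 1) (nat_lit 7) (nat_lit 10) C.nil) C.nil))) C.nil))) C.nil)) C.nil))) C.nil))) C.nil))) (C.cons (nat_lit 386) (C.node (nat_lit 1) (nat_lit 7) (nat_lit 9) (C.cons (nat_lit 650) (C.node (nat_lit 1) (nat_lit 9) (nat_lit 10) (C.cons (nat_lit 1538) (C.node (nat_lit 1) (nat_lit 4) (nat_lit 5) (C.cons (nat_lit 306) (C.miq (nat_lit 1093031984) (nat_lit 84645781407168352542851369)) (C.cons (nat_lit 58) (C.miq (nat_lit 2836727604) (nat_lit 664930175276774075842298009))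
  (C.cons (nat_lit 50) (C.node (nat_lit 3) (nat_lit 7) (nat_lit 10) (C.cons (nat_lit 1192) (C.miq (nat_lit 826636554) (nat_lit 60468279682628336084912001)) (C.cons (nat_lit 1160) (C.node (nat_lit 3) (nat_lit 5) (nat_lit 7) (C.cons (nat_lit 232) (C.miq (nat_lit 1410818195) (nat_lit 181343152906858806012150349)) (C.cons (nat_lit 168) (C.node (nat_lit 3) (nat_lit 5) (nat_lit 6) (C.cons (nat_lit 106) (C.miq (nat_lit 2219909219) (nat_lit 60451271679604812247859789)) (C.cons (nat_lit 104) (C.node (nat_lit 1) (nat_lit 3) (nat_lit 5) (C.cons (nat_lit 1066) (C.miq (nat_lit 1161300498) (nat_lit 359056078493694909406381063)) (C.cons (nat_lit 42) (C.node (nat_lit 1) (nat_lit 5) (nat_lit 7) (C.cons (nat_lit 1186) (C.miq (nat_lit 1695746681) (nat_lit 50785749876115982657390465)) (C.cons (nat_lit 162) (C.node (nat_lit 1) (nat_lit 7) (nat_lit 10) (C.cons (nat_lit 1154) (C.node (nat_lit 5) (nat_lit 7) (nat_lit 10) C.nil) C.nil)) C.nil))) C.nil)))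 C.nil))) C.nil))) C.nil))) C.nil)))) C.nil)) (C.cons (nat_lit 642) (C.node (nat_lit 1) (nat_lit 3) (nat_lit 9) (C.cons (nat_lit 1546) (C.node (nat_lit 5) (nat_lit 9) (nat_lit 10) (C.cons (nat_lit 1568) (C.node (nat_lit 1) (nat_lit 3) (nat_lit 7) (C.cons (nat_lit 170) (C.miq (nat_lit 1211179095) (nat_lit 326412738385530777768689829)) (C.cons (nat_lit 138) (C.node (nat_lit 1) (nat_lit 4) (nat_lit 10) (C.cons (nat_lit 1298) (C.miq (nat_lit 826448512) (nat_lit 181349738509619680012208001)) (C.cons (nat_lit 1042) (C.node (nat_lit 1) (nat_lit 5) (nat_lit 7) (C.cons (nat_lit 1186) (C.miq (nat_lit 827497072) (nat_lit 664920066355470868851001217)) (C.cons (nat_lit 162) (C.node (nat_lit 1) (nat_lit 7) (nat_lit 10) (C.cons (nat_lit 1154) (C.node (nat_lit 1) (nat_lit 5) (nat_lit 10) C.nil) C.nil)) C.nil))) C.nil))) C.nil))) C.nil)) (C.cons (nat_lit 522) (C.node (nat_lit 1) (nat_lit 9) (nat_lit 10) (C.cons (nat_lit 1538) (C.node (nat_lit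 2) (nat_lit 4) (nat_lit 5) (C.cons (nat_lit 60) (C.node (nat_lit 2) (nat_lit 3) (nat_lit 10) (C.cons (nat_lit 1036) (C.node (nat_lit 1) (nat_lit 4) (nat_lit 5) (C.cons (nat_lit 306) (C.miq (nat_lit 1093031984) (nat_lit 84645781407168352542851369)) (C.cons (nat_lit 50) (C.node (nat_lit 2) (nat_lit 4) (nat_lit 9) (C.cons (nat_lit 1556) (C.miq (nat_lit 2453185616) (nat_lit 326445407929290794698605681)) (C.cons (nat_lit 532) (C.node (nat_lit 1) (nat_lit 3) (nat_lit 7) (C.cons (nat_lit 1194) (C.miq (nat_lit 1932043584) (nat_lit 326445407827396853128037489)) C.nil)) C.nil))) C.nil))) C.nil)) (C.cons (nat_lit 52) (C.node (nat_lit 2) (nat_lit 3) (nat_lit 4) (C.cons (nat_lit 1052) (C.node (nat_lit 2) (nat_lit 3) (nat_lit 5) (C.cons (nat_lit 44) (C.node (nat_lit 2) (nat_lit 4) (nat_lit 9) (C.cons (nat_lit 532) (C.node (nat_lit 2) (nat_lit 9) (nat_lit 10) C.nil) C.nil)) C.nil)) (C.cons (nat_lit 28) (C.node (nat_lit 2) (nat_lit 3) (nat_lit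 5) (C.cons (nat_lit 1068) (C.node (nat_lit 2) (nat_lit 8) (nat_lit 10) (C.cons (nat_lit 1284) (C.node (nat_lit 5) (nat_lit 9) (nat_lit 10) (C.cons (nat_lit 1568) (C.node (nat_lit 2) (nat_lit 4) (nat_lit 9) C.nil) C.nil)) C.nil)) (C.cons (nat_lit 44) (C.node (nat_lit 2) (nat_lit 3) (nat_lit 10) C.nil) C.nil))) C.nil))) C.nil))) C.nil)) C.nil))) C.nil))) C.nil))) C.nil)) C.nil))) C.nil)) (C.cons (nat_lit 38) (C.node (nat_lit 1) (nat_lit 2) (nat_lit 9) (C.cons (nat_lit 518) (C.node (nat_lit 1) (nat_lit 7) (nat_lit 8) (C.cons (nat_lit 418) (C.node (nat_lit 1) (nat_lit 8) (nat_lit 9) (C.cons (nat_lit 834) (C.miq (nat_lit 1632802928) (nat_lit 45950046512367249448568705)) (C.cons (nat_lit 770) (C.node (nat_lit 2) (nat_lit 8) (nat_lit 9) (C.cons (nat_lit 804) (C.miq (nat_lit 1649478023) (nat_lit 45942778426242496465078145)) (C.cons (nat_lit 772) (C.node (nat_lit 1) (nat_lit 4) (nat_lit 5) (C.cons (nat_lit 58) (C.node (nat_lit 1) (nat_lit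 3) (nat_lit 6) (C.cons (nat_lit 1098) (C.node (nat_lit 1) (nat_lit 7) (nat_lit 10) (C.cons (nat_lit 1154) (C.node (nat_lit 6) (nat_lit 8) (nat_lit 10) (C.cons (nat_lit 1344) (C.node (nat_lit 1) (nat_lit 4) (nat_lit 6)
  (C.cons (nat_lit 338) (C.miq (nat_lit 2709807904) (nat_lit 408637901286817152898499149)) (C.cons (nat_lit 82) (C.node (nat_lit 1) (nat_lit 6) (nat_lit 8) (C.cons (nat_lit 322) (C.node (nat_lit 1) (nat_lit 5) (nat_lit 6) (C.cons (nat_lit 98) (C.node (nat_lit 1) (nat_lit 6) (nat_lit 9) C.nil) C.nil)) C.nil)) C.nil))) C.nil)) C.nil)) (C.cons (nat_lit 74) (C.node (nat_lit 1) (nat_lit 4) (nat_lit 10) (C.cons (nat_lit 1298) (C.miq (nat_lit 2704689184) (nat_lit 89481484964850046138646805)) (C.cons (nat_lit 1042) (C.node (nat_lit 3) (nat_lit 4) (nat_lit 6) (C.cons (nat_lit 344) (C.miq (nat_lit 2175021574) (nat_lit 1259707049794407628027265613)) (C.cons (nat_lit 88) (C.node (nat_lit 1) (nat_lit 4) (nat_lit 6) (C.cons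 (nat_lit 338) (C.node (nat_lit 1) (nat_lit 6) (nat_lit 10) (C.cons (nat_lit 1090) (C.node (nat_lit 1) (nat_lit 8) (nat_lit 10) (C.cons (nat_lit 1282) (C.node (nat_lit 4) (nat_lit 7) (nat_lit 8) (C.cons (nat_lit 400) (C.node (nat_lit 1) (nat_lit 5) (nat_lit 6) (C.cons (nat_lit 98) (C.node (nat_lit 1) (nat_lit 6) (nat_lit 9) C.nil) C.nil)) C.nil)) C.nil)) C.nil)) (C.cons (nat_lit 82) (C.node (nat_lit 1) (nat_lit 4) (nat_lit 8) (C.cons (nat_lit 274) (C.node (nat_lit 1) (nat_lit 5) (nat_lit 6) (C.cons (nat_lit 610) (C.node (nat_lit 1) (nat_lit 5) (nat_lit 10) (C.cons (nat_lit 1058) (C.node (nat_lit 1) (nat_lit 6) (nat_lit 8) C.nil) C.nil)) (C.cons (nat_lit 98) (C.node (nat_lit 1) (nat_lit 6) (nat_lit 9) C.nil) C.nil))) C.nil)) C.nil))) C.nil))) C.nil))) C.nil))) (C.cons (nat_lit 50) (C.node (nat_lit 1) (nat_lit 6) (nat_lit 9) (C.cons (nat_lit 610) (C.node (nat_lit 1) (nat_lit 3) (nat_lit 5) (C.cons (nat_lit 1066) (C.miq (nat_lit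 1161300498) (nat_lit 359056078493694909406381063)) (C.cons (nat_lit 42) (C.node (nat_lit 1) (nat_lit 5) (nat_lit 10) (C.cons (nat_lit 1058) (C.node (nat_lit 1) (nat_lit 7) (nat_lit 9) (C.cons (nat_lit 650) (C.miq (nat_lit 1366583600) (nat_lit 181359847061908711498383949)) (C.cons (nat_lit 642) (C.node (nat_lit 2) (nat_lit 5) (nat_lit 6) (C.cons (nat_lit 356) (C.miq (nat_lit 1096288610) (nat_lit 505336102496489245159719501)) (C.cons (nat_lit 100) (C.node (nat_lit 2) (nat_lit 6) (nat_lit 8) (C.cons (nat_lit 324) (C.node (nat_lit 5) (nat_lit 6) (nat_lit 7) (C.cons (nat_lit 232) (C.miq (nat_lit 1096223075) (nat_lit 505333815100224105167192653)) C.nil)) C.nil)) C.nil))) C.nil))) C.nil)) C.nil))) (C.cons (nat_lit 578) (C.node (nat_lit 1) (nat_lit 5) (nat_lit 6) (C.cons (nat_lit 106) (C.miq (nat_lit 1159202354) (nat_lit 505336102667060916377223757)) (C.cons (nat_lit 98) (C.node (nat_lit 1) (nat_lit 7) (nat_lit 9) (C.cons (nat_lit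 650) (C.node (nat_lit 1) (nat_lit 7) (nat_lit 10) (C.cons (nat_lit 1154) (C.node (nat_lit 1) (nat_lit 3) (nat_lit 5) (C.cons (nat_lit 1066) (C.miq (nat_lit 1161300498) (nat_lit 359056078493694909406381063)) (C.cons (nat_lit 42) (C.node (nat_lit 1) (nat_lit 5) (nat_lit 9) (C.cons (nat_lit 1570) (C.miq (nat_lit 1158875799) (nat_lit 50777707095701494560327553)) (C.cons (nat_lit 546) (C.node (nat_lit 3) (nat_lit 7) (nat_lit 10) (C.cons (nat_lit 1192) (C.miq (nat_lit 1160841849) (nat_lit 50784679964959733273200513)) C.nil)) C.nil))) C.nil))) C.nil)) (C.cons (nat_lit 642) (C.node (nat_lit 1) (nat_lit 3) (nat_lit 7) (C.cons (nat_lit 1162) (C.node (nat_lit 5) (nat_lit 7) (nat_lit 10) (C.cons (nat_lit 1184) (C.node (nat_lit 1) (nat_lit 4) (nat_lit 10) (C.cons (nat_lit 1298) (C.miq (nat_lit 1779631234) (nat_lit 1404782667844501139339739413)) (C.cons (nat_lit 1042) (C.node (nat_lit 1) (nat_lit 3) (nat_lit 4) (C.cons (nat_lit 90) (C.node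 (nat_lit 1) (nat_lit 4) (nat_lit 8) C.nil) C.nil)) C.nil))) C.nil)) (C.cons (nat_lit 138) (C.node (nat_lit 1) (nat_lit 7) (nat_lit 10) C.nil) C.nil))) C.nil))) C.nil))) C.nil))) C.nil))) C.nil))) C.nil))) (C.cons (nat_lit 386) (C.node (nat_lit 2) (nat_lit 5) (nat_lit 6) (C.cons (nat_lit 356) (C.node (nat_lit 2) (nat_lit 8) (nat_lit 9) (C.cons (nat_lit 772) (C.node (nat_lit 2) (nat_lit 8) (nat_lit 10) (C.cons (nat_lit 1284)
  (C.node (nat_lit 5) (nat_lit 7) (nat_lit 8) (C.cons (nat_lit 432) (C.miq (nat_lit 847709780) (nat_lit 469066040528109687666639985)) (C.cons (nat_lit 416) (C.node (nat_lit 5) (nat_lit 8) (nat_lit 10) (C.cons (nat_lit 1314) (C.miq (nat_lit 1703086610) (nat_lit 359061833877846971938374663)) (C.cons (nat_lit 1312) (C.node (nat_lit 3) (nat_lit 5) (nat_lit 6) (C.cons (nat_lit 232) (C.miq (nat_lit 1196950370) (nat_lit 502918250750860822116041293)) (C.cons (nat_lit 106) (C.miq (nat_lit 1108740149) (nat_lit 84645781399005578186588457))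 (C.cons (nat_lit 104) (C.node (nat_lit 1) (nat_lit 5) (nat_lit 6) (C.cons (nat_lit 610) (C.node (nat_lit 1) (nat_lit 5) (nat_lit 8) (C.cons (nat_lit 306) (C.miq (nat_lit 2441241920) (nat_lit 326420836599910342168216689)) (C.cons (nat_lit 290) (C.miq (nat_lit 1096288610) (nat_lit 350593597585816710797328973)) C.nil))) (C.cons (nat_lit 98) (C.node (nat_lit 1) (nat_lit 6) (nat_lit 9) (C.cons (nat_lit 834) (C.node (nat_lit 1) (nat_lit 4) (nat_lit 6) (C.cons (nat_lit 90) (C.miq (nat_lit 2168952368) (nat_lit 181374309372310489388352077)) (C.cons (nat_lit 82) (C.node (nat_lit 1) (nat_lit 5) (nat_lit 8) (C.cons (nat_lit 306) (C.miq (nat_lit 672752960) (nat_lit 1008254998791066552634639473)) C.nil)) C.nil))) (C.cons (nat_lit 578) (C.node (nat_lit 1) (nat_lit 8) (nat_lit 9) (C.cons (nat_lit 802) (C.node (nat_lit 4) (nat_lit 5) (nat_lit 8) (C.cons (nat_lit 304) (C.node (nat_lit 1) (nat_lit 7) (nat_lit 9) C.nil) C.nil)) (C.cons (nat_lit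 770) (C.node (nat_lit 3) (nat_lit 6) (nat_lit 7) (C.cons (nat_lit 200) (C.node (nat_lit 1) (nat_lit 5) (nat_lit 8) C.nil) C.nil)) C.nil))) C.nil))) C.nil))) C.nil)))) C.nil))) C.nil))) C.nil)) C.nil)) (C.cons (nat_lit 100) (C.node (nat_lit 2) (nat_lit 6) (nat_lit 8) (C.cons (nat_lit 324) (C.node (nat_lit 2) (nat_lit 8) (nat_lit 9) (C.cons (nat_lit 804) (C.node (nat_lit 2) (nat_lit 8) (nat_lit 10) (C.cons (nat_lit 1284) (C.node (nat_lit 1) (nat_lit 8) (nat_lit 9) (C.cons (nat_lit 834) (C.miq (nat_lit 1461198953) (nat_lit 466660197599926332646621773)) (C.cons (nat_lit 770) (C.node (nat_lit 2) (nat_lit 4) (nat_lit 5) (C.cons (nat_lit 60) (C.miq (nat_lit 2454160688) (nat_lit 181374309363866111238013225)) (C.cons (nat_lit 52) (C.node (nat_lit 3) (nat_lit 8) (nat_lit 9) (C.cons (nat_lit 792) (C.miq (nat_lit 1193881688) (nat_lit 778562837696193946634682665)) (C.cons (nat_lit 776) (C.node (nat_lit 5) (nat_lit 8) (nat_lit 10) (C.cons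 (nat_lit 1314) (C.miq (nat_lit 1703086610) (nat_lit 359061833877846971938374663)) (C.cons (nat_lit 1312) (C.node (nat_lit 4) (nat_lit 5) (nat_lit 8) (C.cons (nat_lit 432) (C.miq (nat_lit 844368263) (nat_lit 62866965137596209110714241)) (C.cons (nat_lit 306) (C.miq (nat_lit 1093031984) (nat_lit 84645781407168352542851369)) C.nil))) C.nil))) C.nil))) C.nil))) C.nil))) C.nil)) (C.cons (nat_lit 772) (C.node (nat_lit 2) (nat_lit 5) (nat_lit 8) (C.cons (nat_lit 1316) (C.node (nat_lit 2) (nat_lit 3) (nat_lit 5) (C.cons (nat_lit 60) (C.miq (nat_lit 2184684864) (nat_lit 169285051311835007566808177)) (C.cons (nat_lit 44) (C.node (nat_lit 2) (nat_lit 3) (nat_lit 4) (C.cons (nat_lit 1052) (C.node (nat_lit 2) (nat_lit 9) (nat_lit 10) (C.cons (nat_lit 1540) (C.node (nat_lit 4) (nat_lit 9) (nat_lit 10) (C.cons (nat_lit 1552) (C.node (nat_lit 2) (nat_lit 4) (nat_lit 5) (C.cons (nat_lit 564) (C.node (nat_lit 1) (nat_lit 6) (nat_lit 10) (C.cons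 (nat_lit 1346) (C.miq (nat_lit 405236304) (nat_lit 469066815504441463988880497)) (C.cons (nat_lit 1098) (C.miq (nat_lit 2153850019) (nat_lit 235745515523726042645267484)) (C.cons (nat_lit 1090) (C.node (nat_lit 3) (nat_lit 6) (nat_lit 10) C.nil) C.nil)))) C.nil)) C.nil)) C.nil)) (C.cons (nat_lit 28) (C.node (nat_lit 2) (nat_lit 3) (nat_lit 10) C.nil) C.nil))) C.nil))) (C.cons (nat_lit 292) (C.node (nat_lit 2) (nat_lit 8) (nat_lit 10) (C.cons (nat_lit 1284) (C.node (nat_lit 5) (nat_lit 8) (nat_lit 10) (C.cons (nat_lit 1314) (C.miq (nat_lit 1703086610) (nat_lit 359061833877846971938374663)) (C.cons (nat_lit 1312)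
  (C.node (nat_lit 3) (nat_lit 7) (nat_lit 8) (C.cons (nat_lit 456) (C.node (nat_lit 3) (nat_lit 8) (nat_lit 9) (C.cons (nat_lit 792) (C.miq (nat_lit 1215402848) (nat_lit 466655161815280141281198669)) C.nil)) (C.cons (nat_lit 392) (C.node (nat_lit 3) (nat_lit 8) (nat_lit 9) C.nil) C.nil))) C.nil))) C.nil)) C.nil))) C.nil))) C.nil)) C.nil))) C.nil))) C.nil)) C.nil))) C.nil))) (C.cons (nat_lit 46) (C.node (nat_lit 1) (nat_lit 2) (nat_lit 6) (C.cons (nat_lit 326) (C.node (nat_lit 1) (nat_lit 2) (nat_lit 9) (C.cons (nat_lit 518) (C.node (nat_lit 2) (nat_lit 5) (nat_lit 6) (C.cons (nat_lit 100) (C.node (nat_lit 1) (nat_lit 4) (nat_lit 5) (C.cons (nat_lit 306) (C.node (nat_lit 1) (nat_lit 5) (nat_lit 6) (C.cons (nat_lit 610) (C.miq (nat_lit 2441241920) (nat_lit 394120682498329575951762545)) (C.cons (nat_lit 98) (C.node (nat_lit 1) (nat_lit 6) (nat_lit 9) (C.cons (nat_lit 578) (C.node (nat_lit 1) (nat_lit 8) (nat_lit 9) (C.cons (nat_lit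 778) (C.miq (nat_lit 2014644530) (nat_lit 369934345055565461284848205)) (C.cons (nat_lit 770) (C.node (nat_lit 1) (nat_lit 8) (nat_lit 10) (C.cons (nat_lit 1290) (C.miq (nat_lit 2016741906) (nat_lit 359054012679035997735748615)) (C.cons (nat_lit 1282) (C.node (nat_lit 1) (nat_lit 3) (nat_lit 8) (C.cons (nat_lit 394) (C.node (nat_lit 1) (nat_lit 4) (nat_lit 6) (C.cons (nat_lit 90) (C.miq (nat_lit 2820015924) (nat_lit 394130791683096041198583961)) (C.cons (nat_lit 82) (C.node (nat_lit 4) (nat_lit 8) (nat_lit 10) (C.cons (nat_lit 1304) (C.miq (nat_lit 828671754) (nat_lit 99155971873573687998351233)) (C.cons (nat_lit 1296) (C.node (nat_lit 1) (nat_lit 3) (nat_lit 4) (C.cons (nat_lit 1050) (C.node (nat_lit 1) (nat_lit 3) (nat_lit 6) (C.cons (nat_lit 74) (C.node (nat_lit 1) (nat_lit 3) (nat_lit 9) (C.cons (nat_lit 522) (C.node (nat_lit 1) (nat_lit 6) (nat_lit 10) (C.cons (nat_lit 1090) (C.node (nat_lit 2) (nat_lit 3) (nat_lit 4)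 C.nil) C.nil)) C.nil)) C.nil)) (C.cons (nat_lit 26) (C.node (nat_lit 1) (nat_lit 4) (nat_lit 10) (C.cons (nat_lit 1042) (C.node (nat_lit 1) (nat_lit 3) (nat_lit 6) (C.cons (nat_lit 1098) (C.node (nat_lit 6) (nat_lit 8) (nat_lit 10) C.nil) (C.cons (nat_lit 74) (C.node (nat_lit 1) (nat_lit 6) (nat_lit 10) C.nil) C.nil))) C.nil)) C.nil))) C.nil))) C.nil))) (C.cons (nat_lit 266) (C.node (nat_lit 1) (nat_lit 7) (nat_lit 8) (C.cons (nat_lit 386) (C.node (nat_lit 1) (nat_lit 4) (nat_lit 6) (C.cons (nat_lit 90) (C.node (nat_lit 1) (nat_lit 4) (nat_lit 10) (C.cons (nat_lit 1042) (C.node (nat_lit 1) (nat_lit 6) (nat_lit 10) (C.cons (nat_lit 1090) (C.node (nat_lit 2) (nat_lit 3) (nat_lit 4) C.nil) C.nil)) C.nil)) (C.cons (nat_lit 82) (C.node (nat_lit 1) (nat_lit 3) (nat_lit 4) (C.cons (nat_lit 1050) (C.node (nat_lit 1) (nat_lit 3) (nat_lit 6) (C.cons (nat_lit 74) (C.node (nat_lit 1) (nat_lit 6) (nat_lit 10) C.nil) C.nil)) (C.cons (nat_lit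 26) (C.node (nat_lit 1) (nat_lit 4) (nat_lit 10) (C.cons (nat_lit 1042) (C.node (nat_lit 1) (nat_lit 3) (nat_lit 6) (C.cons (nat_lit 74) (C.node (nat_lit 1) (nat_lit 6) (nat_lit 10) C.nil) C.nil)) C.nil)) C.nil))) C.nil))) C.nil)) C.nil))) C.nil))) C.nil))) C.nil)) C.nil))) (C.cons (nat_lit 50) (C.node (nat_lit 1) (nat_lit 4) (nat_lit 6) (C.cons (nat_lit 90) (C.node (nat_lit 1) (nat_lit 6) (nat_lit 10) (C.cons (nat_lit 1090) (C.node (nat_lit 1) (nat_lit 7) (nat_lit 8) (C.cons (nat_lit 418) (C.miq (nat_lit 1898546480) (nat_lit 626259010873400246418604329)) (C.cons (nat_lit 394) (C.miq (nat_lit 2171237184) (nat_lit 1317764579686212923923955865)) (C.cons (nat_lit 386) (C.node (nat_lit 3) (nat_lit 7) (nat_lit 8) (C.cons (nat_lit 456) (C.miq (nat_lit 2556495668) (nat_lit 394119612956187639498277017)) (C.cons (nat_lit 392) (C.node (nat_lit 1) (nat_lit 3) (nat_lit 8) (C.cons (nat_lit 1290) (C.miq (nat_lit 2016741906) (nat_lit 359054012679035997735748615))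 (C.cons (nat_lit 778) (C.miq (nat_lit 1468080275) (nat_lit 466646214967925873916379725)) (C.cons (nat_lit 266) (C.node (nat_lit 1) (nat_lit 4) (nat_lit 8) (C.cons (nat_lit 1298)
  (C.miq (nat_lit 2551384646) (nat_lit 321585133690469780532364401)) (C.cons (nat_lit 274) (C.node (nat_lit 1) (nat_lit 4) (nat_lit 10) (C.cons (nat_lit 1042) (C.node (nat_lit 1) (nat_lit 8) (nat_lit 10) (C.cons (nat_lit 1314) (C.miq (nat_lit 2555578898) (nat_lit 359061834098523353664848903)) (C.cons (nat_lit 1282) (C.node (nat_lit 3) (nat_lit 6) (nat_lit 8) (C.cons (nat_lit 1352) (C.miq (nat_lit 2553350756) (nat_lit 321584063779313737306604657)) (C.cons (nat_lit 328) (C.node (nat_lit 3) (nat_lit 6) (nat_lit 10) (C.cons (nat_lit 1096) (C.node (nat_lit 6) (nat_lit 8) (nat_lit 10) (C.cons (nat_lit 1344) (C.node (nat_lit 2) (nat_lit 3) (nat_lit 8) C.nil) C.nil)) C.nil)) C.nil))) C.nil))) C.nil)) C.nil))) C.nil)))) C.nil))) C.nil)))) C.nil)) (C.cons (nat_lit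 82) (C.node (nat_lit 1) (nat_lit 3) (nat_lit 6) (C.cons (nat_lit 1098) (C.node (nat_lit 6) (nat_lit 8) (nat_lit 10) (C.cons (nat_lit 1344) (C.node (nat_lit 1) (nat_lit 3) (nat_lit 4) (C.cons (nat_lit 282) (C.miq (nat_lit 1966153860) (nat_lit 55613354760328645250253077)) (C.cons (nat_lit 26) (C.node (nat_lit 1) (nat_lit 4) (nat_lit 8) (C.cons (nat_lit 1298) (C.miq (nat_lit 830630464) (nat_lit 394120682635693625194120305)) (C.cons (nat_lit 274) (C.node (nat_lit 1) (nat_lit 4) (nat_lit 10) (C.cons (nat_lit 1042) (C.node (nat_lit 1) (nat_lit 7) (nat_lit 10) (C.cons (nat_lit 1186) (C.miq (nat_lit 829581904) (nat_lit 181349738383518409402156145)) (C.cons (nat_lit 1154) (C.node (nat_lit 1) (nat_lit 8) (nat_lit 10) (C.cons (nat_lit 1314) (C.miq (nat_lit 2555578898) (nat_lit 359061834098523353664848903)) (C.cons (nat_lit 1282) (C.node (nat_lit 3) (nat_lit 4) (nat_lit 6) (C.cons (nat_lit 344) (C.miq (nat_lit 2182299814) (nat_lit 55616933460207294854333553))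 (C.cons (nat_lit 88) (C.node (nat_lit 2) (nat_lit 3) (nat_lit 4) (C.cons (nat_lit 28) (C.node (nat_lit 3) (nat_lit 4) (nat_lit 10) C.nil) C.nil)) C.nil))) C.nil))) C.nil))) C.nil)) C.nil))) C.nil))) C.nil)) (C.cons (nat_lit 74) (C.node (nat_lit 1) (nat_lit 6) (nat_lit 10) (C.cons (nat_lit 1090) (C.node (nat_lit 1) (nat_lit 5) (nat_lit 6) (C.cons (nat_lit 610) (C.node (nat_lit 1) (nat_lit 7) (nat_lit 9) (C.cons (nat_lit 650) (C.miq (nat_lit 1366583600) (nat_lit 181359847061908711498383949)) (C.cons (nat_lit 642) (C.node (nat_lit 1) (nat_lit 8) (nat_lit 9) (C.cons (nat_lit 778) (C.miq (nat_lit 2435285840) (nat_lit 181374309356547701714780457)) (C.cons (nat_lit 770) (C.node (nat_lit 3) (nat_lit 4) (nat_lit 5) (C.cons (nat_lit 568) (C.miq (nat_lit 924401765) (nat_lit 776140853986292306182014065)) (C.cons (nat_lit 56) (C.node (nat_lit 3) (nat_lit 5) (nat_lit 6) (C.cons (nat_lit 232) (C.miq (nat_lit 1947545750) (nat_lit 60450570668424511455625805))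 (C.cons (nat_lit 104) (C.node (nat_lit 1) (nat_lit 5) (nat_lit 8) (C.cons (nat_lit 1314) (C.miq (nat_lit 2555578898) (nat_lit 359061834098523353664848903)) (C.cons (nat_lit 418) (C.miq (nat_lit 964763765) (nat_lit 930873729819288867105276069)) (C.cons (nat_lit 290) (C.node (nat_lit 1) (nat_lit 3) (nat_lit 9) (C.cons (nat_lit 1546) (C.node (nat_lit 1) (nat_lit 3) (nat_lit 4) (C.cons (nat_lit 282) (C.miq (nat_lit 1966153860) (nat_lit 55613354760328645250253077)) (C.cons (nat_lit 26) (C.node (nat_lit 2) (nat_lit 3) (nat_lit 4) C.nil) C.nil))) (C.cons (nat_lit 522) (C.node (nat_lit 1) (nat_lit 9) (nat_lit 10) C.nil) C.nil))) C.nil)))) C.nil))) C.nil))) C.nil))) C.nil))) (C.cons (nat_lit 98) (C.node (nat_lit 1) (nat_lit 6) (nat_lit 9) (C.cons (nat_lit 578) (C.node (nat_lit 2) (nat_lit 3) (nat_lit 4) (C.cons (nat_lit 1052) (C.node (nat_lit 2) (nat_lit 3) (nat_lit 8) (C.cons (nat_lit 268) (C.node (nat_lit 4) (nat_lit 9) (nat_lit 10)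 (C.cons (nat_lit 1552) (C.node (nat_lit 1) (nat_lit 3) (nat_lit 4) (C.cons (nat_lit 26) (C.node (nat_lit 1) (nat_lit 4) (nat_lit 8) C.nil) C.nil)) C.nil)) C.nil)) (C.cons (nat_lit 28) (C.node (nat_lit 2) (nat_lit 3) (nat_lit 8) (C.cons (nat_lit 1292) (C.node (nat_lit 3) (nat_lit 6) (nat_lit 10) C.nil) (C.cons (nat_lit 268) (C.node (nat_lit 2) (nat_lit 3) (nat_lit 10)
  (C.cons (nat_lit 1036) (C.node (nat_lit 2) (nat_lit 4) (nat_lit 5) (C.cons (nat_lit 564) (C.node (nat_lit 2) (nat_lit 4) (nat_lit 10) C.nil) C.nil)) C.nil)) C.nil))) C.nil))) C.nil)) C.nil))) C.nil)) C.nil))) C.nil))) C.nil))) C.nil)) C.nil)) (C.cons (nat_lit 70) (C.node (nat_lit 1) (nat_lit 2) (nat_lit 8) (C.cons (nat_lit 774) (C.node (nat_lit 5) (nat_lit 8) (nat_lit 10) (C.cons (nat_lit 1316) (C.miq (nat_lit 1377085584) (nat_lit 181359847260630577656825729)) (C.cons (nat_lit 1314) (C.miq (nat_lit 1361488016) (nat_lit 84645781690897293730711425)) (C.cons (nat_lit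 1312) (C.node (nat_lit 5) (nat_lit 8) (nat_lit 9) (C.cons (nat_lit 864) (C.miq (nat_lit 441983081) (nat_lit 1586124953404512112830579277)) (C.cons (nat_lit 816) (C.miq (nat_lit 710414409) (nat_lit 1586124953404512112827433491)) (C.cons (nat_lit 800) (C.node (nat_lit 6) (nat_lit 8) (nat_lit 9) (C.cons (nat_lit 848) (C.miq (nat_lit 2191954180) (nat_lit 1320162638076015624638759443)) (C.cons (nat_lit 832) (C.node (nat_lit 1) (nat_lit 4) (nat_lit 5) (C.cons (nat_lit 306) (C.node (nat_lit 1) (nat_lit 5) (nat_lit 6) (C.cons (nat_lit 610) (C.node (nat_lit 1) (nat_lit 7) (nat_lit 9) (C.cons (nat_lit 650) (C.miq (nat_lit 1108543639) (nat_lit 55613410132088112494020481)) (C.cons (nat_lit 642) (C.node (nat_lit 2) (nat_lit 4) (nat_lit 5) (C.cons (nat_lit 564) (C.miq (nat_lit 1635816770) (nat_lit 313122652584149421246448180)) (C.cons (nat_lit 52) (C.node (nat_lit 2) (nat_lit 5) (nat_lit 6) (C.cons (nat_lit 356) (C.node (nat_lit 5) (nat_lit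 7) (nat_lit 8) (C.cons (nat_lit 416) (C.node (nat_lit 3) (nat_lit 4) (nat_lit 5) (C.cons (nat_lit 568) (C.miq (nat_lit 924401765) (nat_lit 776140853986292306182014065)) (C.cons (nat_lit 56) (C.node (nat_lit 3) (nat_lit 5) (nat_lit 6) (C.cons (nat_lit 232) (C.miq (nat_lit 1971598880) (nat_lit 369934123219223528644870733)) (C.cons (nat_lit 104) (C.node (nat_lit 5) (nat_lit 6) (nat_lit 7) (C.cons (nat_lit 224) (C.node (nat_lit 2) (nat_lit 3) (nat_lit 4) (C.cons (nat_lit 1052) (C.node (nat_lit 2) (nat_lit 3) (nat_lit 8) C.nil) C.nil)) C.nil)) C.nil))) C.nil))) C.nil)) (C.cons (nat_lit 100) (C.miq (nat_lit 2187673745) (nat_lit 120898226743120570917978643)) C.nil))) C.nil))) C.nil))) (C.cons (nat_lit 98) (C.miq (nat_lit 2521899080) (nat_lit 118489008267940354994602261)) C.nil))) (C.cons (nat_lit 50) (C.node (nat_lit 1) (nat_lit 6) (nat_lit 9) (C.cons (nat_lit 610) (C.miq (nat_lit 2219909225) (nat_lit 60460568838617961894904397))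 (C.cons (nat_lit 578) (C.node (nat_lit 2) (nat_lit 5) (nat_lit 6) (C.cons (nat_lit 356) (C.miq (nat_lit 2235639305) (nat_lit 60460568860854485049868877)) (C.cons (nat_lit 100) (C.node (nat_lit 2) (nat_lit 5) (nat_lit 8) (C.cons (nat_lit 292) (C.node (nat_lit 2) (nat_lit 6) (nat_lit 8) (C.cons (nat_lit 324) (C.node (nat_lit 1) (nat_lit 5) (nat_lit 6) (C.cons (nat_lit 354) (C.node (nat_lit 1) (nat_lit 7) (nat_lit 8) (C.cons (nat_lit 394) (C.miq (nat_lit 1132791574) (nat_lit 359071942416624036324966595)) (C.cons (nat_lit 386) (C.node (nat_lit 1) (nat_lit 3) (nat_lit 8) (C.cons (nat_lit 1306) (C.miq (nat_lit 1093052560) (nat_lit 84645781688645493917026177)) (C.cons (nat_lit 1290) (C.miq (nat_lit 2016741906) (nat_lit 359054012679035997735748615)) (C.cons (nat_lit 282) (C.miq (nat_lit 1966153860) (nat_lit 55613354760328645250253077)) (C.cons (nat_lit 266) (C.node (nat_lit 1) (nat_lit 4) (nat_lit 8) (C.cons (nat_lit 1298) (C.miq (nat_lit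 1093052560) (nat_lit 84645781686393694103340929)) (C.cons (nat_lit 274) (C.node (nat_lit 2) (nat_lit 3) (nat_lit 4) C.nil) C.nil))) C.nil))))) C.nil))) (C.cons (nat_lit 98) (C.node (nat_lit 1) (nat_lit 5) (nat_lit 8) (C.cons (nat_lit 418) (C.miq (nat_lit 964763765) (nat_lit 935709433097747383804100773)) (C.cons (nat_lit 290) (C.node (nat_lit 1) (nat_lit 7) (nat_lit 8) (C.cons (nat_lit 394) (C.node (nat_lit 1) (nat_lit 3) (nat_lit 9) (C.cons (nat_lit 1546) (C.node (nat_lit 2) (nat_lit 3) (nat_lit 8) (C.cons (nat_lit 1292) (C.miq (nat_lit 1093798312) (nat_lit 55615697599851212319754113)) C.nil))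
  (C.cons (nat_lit 522) (C.node (nat_lit 2) (nat_lit 3) (nat_lit 8) C.nil) C.nil))) (C.cons (nat_lit 386) (C.node (nat_lit 2) (nat_lit 3) (nat_lit 8) C.nil) C.nil))) C.nil))) C.nil))) C.nil)) C.nil)) C.nil))) C.nil))) C.nil))) C.nil))) C.nil)))) C.nil)))) (C.cons (nat_lit 262) (C.node (nat_lit 1) (nat_lit 2) (nat_lit 9) (C.cons (nat_lit 518) (C.node (nat_lit 1) (nat_lit 4) (nat_lit 5) (C.cons (nat_lit 306) (C.node (nat_lit 1) (nat_lit 5) (nat_lit 6) (C.cons (nat_lit 610) (C.miq (nat_lit 2441241920) (nat_lit 316749430042993308770567281)) (C.cons (nat_lit 98) (C.node (nat_lit 2) (nat_lit 5) (nat_lit 6) (C.cons (nat_lit 356) (C.miq (nat_lit 2457929300) (nat_lit 316748360125926273855915121)) (C.cons (nat_lit 100) (C.node (nat_lit 2) (nat_lit 6) (nat_lit 8) (C.cons (nat_lit 324) (C.node (nat_lit 1) (nat_lit 4) (nat_lit 6) (C.cons (nat_lit 90) (C.node (nat_lit 1) (nat_lit 4) (nat_lit 10) (C.cons (nat_lit 1042) (C.node (nat_lit 1)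 (nat_lit 6) (nat_lit 9) (C.cons (nat_lit 834) (C.miq (nat_lit 2168952368) (nat_lit 181374309372310489388352077)) (C.cons (nat_lit 578) (C.node (nat_lit 1) (nat_lit 8) (nat_lit 9) (C.cons (nat_lit 778) (C.miq (nat_lit 2014644530) (nat_lit 369934345055565461284848205)) (C.cons (nat_lit 770) (C.node (nat_lit 3) (nat_lit 6) (nat_lit 10) (C.cons (nat_lit 1352) (C.miq (nat_lit 832070666) (nat_lit 930897821126587148495029361)) (C.cons (nat_lit 1096) (C.node (nat_lit 2) (nat_lit 3) (nat_lit 4) C.nil) C.nil))) C.nil))) C.nil))) C.nil)) (C.cons (nat_lit 82) (C.node (nat_lit 1) (nat_lit 3) (nat_lit 4) (C.cons (nat_lit 1050) (C.node (nat_lit 2) (nat_lit 3) (nat_lit 4) (C.cons (nat_lit 28) (C.node (nat_lit 4) (nat_lit 8) (nat_lit 10) (C.cons (nat_lit 1296) (C.node (nat_lit 1) (nat_lit 3) (nat_lit 6) (C.cons (nat_lit 330) (C.node (nat_lit 1) (nat_lit 6) (nat_lit 9) C.nil) C.nil)) C.nil)) C.nil)) (C.cons (nat_lit 26) (C.node (nat_lit 1) (nat_lit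 4) (nat_lit 10) (C.cons (nat_lit 1042) (C.node (nat_lit 1) (nat_lit 6) (nat_lit 9) (C.cons (nat_lit 834) (C.node (nat_lit 1) (nat_lit 8) (nat_lit 10) (C.cons (nat_lit 1290) (C.miq (nat_lit 2016741906) (nat_lit 359054012679035997735748615)) (C.cons (nat_lit 1282) (C.node (nat_lit 1) (nat_lit 3) (nat_lit 6) (C.cons (nat_lit 1098) (C.node (nat_lit 1) (nat_lit 3) (nat_lit 8) C.nil) C.nil)) C.nil))) (C.cons (nat_lit 578) (C.node (nat_lit 1) (nat_lit 8) (nat_lit 9) (C.cons (nat_lit 778) (C.miq (nat_lit 2014644530) (nat_lit 369934345055565461284848205)) C.nil)) C.nil))) C.nil)) C.nil))) C.nil))) C.nil)) C.nil))) C.nil))) (C.cons (nat_lit 50) (C.node (nat_lit 2) (nat_lit 3) (nat_lit 4) (C.cons (nat_lit 1052) (C.node (nat_lit 2) (nat_lit 3) (nat_lit 8) (C.cons (nat_lit 268) (C.node (nat_lit 4) (nat_lit 9) (nat_lit 10) (C.cons (nat_lit 1552) (C.node (nat_lit 1) (nat_lit 4) (nat_lit 10) (C.cons (nat_lit 1298) (C.node (nat_lit 1) (nat_lit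 6) (nat_lit 10) (C.cons (nat_lit 1098) (C.miq (nat_lit 830630464) (nat_lit 316749430180357358012925041)) (C.cons (nat_lit 1090) (C.node (nat_lit 3) (nat_lit 4) (nat_lit 8) (C.cons (nat_lit 792) (C.miq (nat_lit 338864272) (nat_lit 1271808981193087807761745793)) (C.cons (nat_lit 344) (C.miq (nat_lit 405972064) (nat_lit 324011138615216610646754417)) (C.cons (nat_lit 280) (C.node (nat_lit 3) (nat_lit 8) (nat_lit 9) (C.cons (nat_lit 778) (C.miq (nat_lit 2435285840) (nat_lit 181374309356547701714780457)) (C.cons (nat_lit 776) (C.node (nat_lit 1) (nat_lit 3) (nat_lit 4) (C.cons (nat_lit 90) (C.miq (nat_lit 328746506) (nat_lit 938150379920095192335582321)) (C.cons (nat_lit 26) (C.node (nat_lit 1) (nat_lit 4) (nat_lit 6) (C.cons (nat_lit 82) (C.node (nat_lit 3) (nat_lit 4) (nat_lit 6) (C.cons (nat_lit 88) (C.node (nat_lit 3) (nat_lit 6) (nat_lit 10) (C.cons (nat_lit 1352) (C.miq (nat_lit 423116906) (nat_lit 938150380044225657027691633))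 (C.cons (nat_lit 1096) (C.node (nat_lit 3) (nat_lit 8) (nat_lit 10) (C.cons (nat_lit 1288) (C.node (nat_lit 2) (nat_lit 4) (nat_lit 5) C.nil) C.nil)) C.nil))) C.nil)) C.nil)) C.nil))) C.nil))) C.nil)))) C.nil)))
  (C.cons (nat_lit 1042) (C.node (nat_lit 4) (nat_lit 8) (nat_lit 10) (C.cons (nat_lit 1296) (C.node (nat_lit 2) (nat_lit 4) (nat_lit 5) (C.cons (nat_lit 564) (C.node (nat_lit 2) (nat_lit 8) (nat_lit 9) (C.cons (nat_lit 772) (C.node (nat_lit 2) (nat_lit 9) (nat_lit 10) C.nil) C.nil)) (C.cons (nat_lit 52) (C.node (nat_lit 2) (nat_lit 4) (nat_lit 9) (C.cons (nat_lit 532) (C.node (nat_lit 1) (nat_lit 4) (nat_lit 8) (C.cons (nat_lit 346) (C.miq (nat_lit 1966153860) (nat_lit 55613354760328645254447381)) (C.cons (nat_lit 338) (C.node (nat_lit 1) (nat_lit 3) (nat_lit 4) C.nil) (C.cons (nat_lit 282) (C.miq (nat_lit 1966153860) (nat_lit 55613354760328645250253077)) C.nil)))) C.nil)) C.nil))) C.nil)) C.nil))) C.nil)) C.nil))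 (C.cons (nat_lit 28) (C.node (nat_lit 2) (nat_lit 3) (nat_lit 8) (C.cons (nat_lit 1292) (C.node (nat_lit 5) (nat_lit 8) (nat_lit 10) (C.cons (nat_lit 1314) (C.miq (nat_lit 2555578898) (nat_lit 359061834098523353664848903)) (C.cons (nat_lit 1312) (C.node (nat_lit 3) (nat_lit 8) (nat_lit 9) (C.cons (nat_lit 792) (C.miq (nat_lit 305400457) (nat_lit 33859718460519006802020225)) (C.cons (nat_lit 778) (C.miq (nat_lit 2435285840) (nat_lit 181374309356547701714780457)) (C.cons (nat_lit 776) (C.node (nat_lit 4) (nat_lit 8) (nat_lit 10) (C.cons (nat_lit 1298) (C.miq (nat_lit 1228410922) (nat_lit 938150380044225657023759367)) (C.cons (nat_lit 1296) (C.node (nat_lit 1) (nat_lit 4) (nat_lit 10) (C.cons (nat_lit 1050) (C.node (nat_lit 3) (nat_lit 6) (nat_lit 10) (C.cons (nat_lit 1096) (C.node (nat_lit 1) (nat_lit 7) (nat_lit 10) (C.cons (nat_lit 1186) (C.miq (nat_lit 2584938322) (nat_lit 1269382976268338572462784677)) (C.cons (nat_lit 1154)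 (C.node (nat_lit 1) (nat_lit 3) (nat_lit 6) (C.cons (nat_lit 330) (C.node (nat_lit 1) (nat_lit 4) (nat_lit 6) (C.cons (nat_lit 82) (C.node (nat_lit 1) (nat_lit 4) (nat_lit 8) (C.cons (nat_lit 274) (C.node (nat_lit 2) (nat_lit 4) (nat_lit 5) C.nil) C.nil)) C.nil)) (C.cons (nat_lit 74) (C.node (nat_lit 1) (nat_lit 3) (nat_lit 8) (C.cons (nat_lit 394) (C.node (nat_lit 1) (nat_lit 3) (nat_lit 9) (C.cons (nat_lit 522) (C.node (nat_lit 2) (nat_lit 4) (nat_lit 5) C.nil) C.nil)) (C.cons (nat_lit 266) (C.node (nat_lit 1) (nat_lit 7) (nat_lit 8) (C.cons (nat_lit 418) (C.miq (nat_lit 2551383890) (nat_lit 321585133690466000958259365)) (C.cons (nat_lit 386) (C.node (nat_lit 1) (nat_lit 3) (nat_lit 7) (C.cons (nat_lit 650) (C.node (nat_lit 1) (nat_lit 5) (nat_lit 7) C.nil) C.nil)) C.nil))) C.nil))) C.nil))) C.nil))) C.nil)) (C.cons (nat_lit 1042) (C.node (nat_lit 1) (nat_lit 8) (nat_lit 10) (C.cons (nat_lit 1346) (C.node (nat_lit 3) (nat_lit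 6) (nat_lit 10) (C.cons (nat_lit 1096) (C.node (nat_lit 1) (nat_lit 4) (nat_lit 8) (C.cons (nat_lit 282) (C.miq (nat_lit 1966153860) (nat_lit 55613354760328645250253077)) (C.cons (nat_lit 274) (C.node (nat_lit 1) (nat_lit 3) (nat_lit 8) (C.cons (nat_lit 394) (C.miq (nat_lit 950301024) (nat_lit 1566770684683309609905094851)) (C.cons (nat_lit 266) (C.node (nat_lit 2) (nat_lit 6) (nat_lit 8) C.nil) C.nil))) C.nil))) C.nil)) (C.cons (nat_lit 1282) (C.node (nat_lit 6) (nat_lit 8) (nat_lit 10) (C.cons (nat_lit 1344) (C.node (nat_lit 1) (nat_lit 6) (nat_lit 10) (C.cons (nat_lit 1098) (C.node (nat_lit 1) (nat_lit 3) (nat_lit 4) (C.cons (nat_lit 282) (C.miq (nat_lit 1966153860) (nat_lit 55613354760328645250253077)) (C.cons (nat_lit 26) (C.node (nat_lit 1) (nat_lit 7) (nat_lit 10) (C.cons (nat_lit 1186) (C.miq (nat_lit 829581904) (nat_lit 181349738383518409402156145)) (C.cons (nat_lit 1154) (C.node (nat_lit 2) (nat_lit 4) (nat_lit 10)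 C.nil) C.nil))) C.nil))) (C.cons (nat_lit 1090) (C.node (nat_lit 3) (nat_lit 6) (nat_lit 10) (C.cons (nat_lit 1096) (C.node (nat_lit 2) (nat_lit 5) (nat_lit 6) C.nil) C.nil)) C.nil))) C.nil)) C.nil))) C.nil))) C.nil))) C.nil)))) C.nil))) (C.cons (nat_lit 268) (C.node (nat_lit 2) (nat_lit 3) (nat_lit 10) (C.cons (nat_lit 1036) (C.node (nat_lit 2) (nat_lit 4) (nat_lit 5) (C.cons (nat_lit 564) (C.node (nat_lit 2) (nat_lit 4) (nat_lit 10)
  (C.cons (nat_lit 1044) (C.node (nat_lit 2) (nat_lit 8) (nat_lit 9) (C.cons (nat_lit 772) (C.node (nat_lit 2) (nat_lit 9) (nat_lit 10) C.nil) C.nil)) C.nil)) (C.cons (nat_lit 52) (C.node (nat_lit 2) (nat_lit 4) (nat_lit 9) (C.cons (nat_lit 1556) (C.node (nat_lit 2) (nat_lit 5) (nat_lit 6) (C.cons (nat_lit 356) (C.node (nat_lit 2) (nat_lit 5) (nat_lit 9) (C.cons (nat_lit 548) (C.node (nat_lit 2) (nat_lit 5) (nat_lit 10) C.nil) C.nil)) (C.cons (nat_lit 100) (C.node (nat_lit 2) (nat_lit 6) (nat_lit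 8) C.nil) C.nil))) (C.cons (nat_lit 532) (C.node (nat_lit 2) (nat_lit 4) (nat_lit 10) C.nil) C.nil))) C.nil))) C.nil)) C.nil))) C.nil))) C.nil))) C.nil)) C.nil))) C.nil))) (C.cons (nat_lit 14) (C.node (nat_lit 2) (nat_lit 3) (nat_lit 8) (C.cons (nat_lit 1292) (C.node (nat_lit 2) (nat_lit 3) (nat_lit 4) (C.cons (nat_lit 60) (C.node (nat_lit 2) (nat_lit 4) (nat_lit 9) (C.cons (nat_lit 1556) (C.miq (nat_lit 2453185616) (nat_lit 1561967595575441811248317553)) (C.cons (nat_lit 532) (C.node (nat_lit 2) (nat_lit 4) (nat_lit 10) (C.cons (nat_lit 1044) (C.node (nat_lit 2) (nat_lit 5) (nat_lit 10) (C.cons (nat_lit 1572) (C.miq (nat_lit 2453120320) (nat_lit 169285051383892601604736113)) (C.cons (nat_lit 1060) (C.node (nat_lit 2) (nat_lit 9) (nat_lit 10) (C.cons (nat_lit 1540) (C.node (nat_lit 4) (nat_lit 9) (nat_lit 10) (C.cons (nat_lit 1560) (C.miq (nat_lit 2468848720) (nat_lit 169285051380514901884994673)) (C.cons (nat_lit 1552) (C.node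 (nat_lit 3) (nat_lit 4) (nat_lit 9) (C.cons (nat_lit 792) (C.miq (nat_lit 305400457) (nat_lit 72545344688187140392617857)) (C.cons (nat_lit 536) (C.node (nat_lit 4) (nat_lit 8) (nat_lit 10) (C.cons (nat_lit 1298) (C.miq (nat_lit 2224267522) (nat_lit 648008072872141270819865607)) (C.cons (nat_lit 1296) (C.node (nat_lit 3) (nat_lit 9) (nat_lit 10) (C.cons (nat_lit 1578) (C.miq (nat_lit 321165952) (nat_lit 72545344842153952619595649)) (C.cons (nat_lit 1576) (C.miq (nat_lit 2468914496) (nat_lit 1561967595581071310781219953)) (C.cons (nat_lit 1546) (C.miq (nat_lit 321165952) (nat_lit 72545344833146753364854657)) (C.cons (nat_lit 1544) (C.node (nat_lit 1) (nat_lit 2) (nat_lit 6) (C.cons (nat_lit 358) (C.miq (nat_lit 305620288) (nat_lit 169253211961910757191910513)) (C.cons (nat_lit 326) (C.node (nat_lit 2) (nat_lit 5) (nat_lit 6) C.nil) (C.cons (nat_lit 102) (C.miq (nat_lit 305620288) (nat_lit 169253211889853163153982577)) C.nil))))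 C.nil))))) C.nil))) C.nil))) C.nil))) C.nil)) C.nil))) C.nil)) C.nil))) (C.cons (nat_lit 28) (C.node (nat_lit 2) (nat_lit 3) (nat_lit 5) (C.cons (nat_lit 44) (C.node (nat_lit 2) (nat_lit 4) (nat_lit 5) (C.cons (nat_lit 564) (C.node (nat_lit 2) (nat_lit 4) (nat_lit 10) (C.cons (nat_lit 1044) (C.node (nat_lit 2) (nat_lit 5) (nat_lit 10) (C.cons (nat_lit 1060) (C.node (nat_lit 2) (nat_lit 9) (nat_lit 10) (C.cons (nat_lit 1540) (C.node (nat_lit 1) (nat_lit 2) (nat_lit 9) (C.cons (nat_lit 774) (C.node (nat_lit 4) (nat_lit 8) (nat_lit 10) (C.cons (nat_lit 1298) (C.miq (nat_lit 1678903945) (nat_lit 181349738394496414570121089)) C.nil)) (C.cons (nat_lit 518) (C.node (nat_lit 2) (nat_lit 8) (nat_lit 9) (C.cons (nat_lit 772) (C.node (nat_lit 3) (nat_lit 4) (nat_lit 5) (C.cons (nat_lit 58) (C.node (nat_lit 5) (nat_lit 8) (nat_lit 10) (C.cons (nat_lit 1314) (C.miq (nat_lit 2705818928) (nat_lit 181374309507418340770513193)) (C.cons (nat_lit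 1312) (C.node (nat_lit 1) (nat_lit 2) (nat_lit 5) (C.cons (nat_lit 358) (C.miq (nat_lit 1934704770) (nat_lit 70120464592326495631180053)) C.nil)) C.nil))) (C.cons (nat_lit 56) (C.node (nat_lit 1) (nat_lit 4) (nat_lit 5) (C.cons (nat_lit 306) (C.node (nat_lit 2) (nat_lit 5) (nat_lit 8) (C.cons (nat_lit 356) (C.miq (nat_lit 422068325) (nat_lit 933296377595646020388390001)) C.nil)) (C.cons (nat_lit 50) (C.node (nat_lit 3) (nat_lit 6) (nat_lit 10) (C.cons (nat_lit 1098) (C.node (nat_lit 6) (nat_lit 8) (nat_lit 10) C.nil) (C.cons (nat_lit 1096) (C.node (nat_lit 1) (nat_lit 6) (nat_lit 10) (C.cons (nat_lit 1090)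
  (C.node (nat_lit 6) (nat_lit 8) (nat_lit 10) C.nil) C.nil)) C.nil))) C.nil))) C.nil))) C.nil)) C.nil))) C.nil)) C.nil)) C.nil)) (C.cons (nat_lit 52) (C.node (nat_lit 2) (nat_lit 4) (nat_lit 9) (C.cons (nat_lit 1556) (C.node (nat_lit 2) (nat_lit 5) (nat_lit 10) (C.cons (nat_lit 1060) (C.node (nat_lit 4) (nat_lit 8) (nat_lit 10) (C.cons (nat_lit 1298) (C.miq (nat_lit 2164499602) (nat_lit 13322017574460954099123732)) (C.cons (nat_lit 1296) (C.node (nat_lit 3) (nat_lit 9) (nat_lit 10) (C.cons (nat_lit 1578) (C.miq (nat_lit 321165952) (nat_lit 33859718614485819028998017)) (C.cons (nat_lit 1576) (C.miq (nat_lit 2207384996) (nat_lit 712062417584729838501233777)) (C.cons (nat_lit 1546) (C.miq (nat_lit 321165952) (nat_lit 33859718605478619774257025)) (C.cons (nat_lit 1544) (C.node (nat_lit 1) (nat_lit 4) (nat_lit 10) (C.cons (nat_lit 1050) (C.node (nat_lit 3) (nat_lit 6) (nat_lit 10) (C.cons (nat_lit 1096) (C.node (nat_lit 1) (nat_lit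 4) (nat_lit 5) (C.cons (nat_lit 306) (C.node (nat_lit 1) (nat_lit 4) (nat_lit 6) (C.cons (nat_lit 82) (C.node (nat_lit 5) (nat_lit 8) (nat_lit 10) (C.cons (nat_lit 1312) (C.node (nat_lit 3) (nat_lit 8) (nat_lit 9) (C.cons (nat_lit 792) (C.miq (nat_lit 591505552) (nat_lit 1269391129552169699548268417)) (C.cons (nat_lit 778) (C.miq (nat_lit 1669662996) (nat_lit 359071942539348775435108883)) (C.cons (nat_lit 776) (C.node (nat_lit 3) (nat_lit 5) (nat_lit 10) (C.cons (nat_lit 1192) (C.node (nat_lit 3) (nat_lit 4) (nat_lit 5) C.nil) C.nil)) C.nil)))) C.nil)) C.nil)) (C.cons (nat_lit 50) (C.node (nat_lit 1) (nat_lit 4) (nat_lit 6) (C.cons (nat_lit 338) (C.node (nat_lit 1) (nat_lit 6) (nat_lit 10) (C.cons (nat_lit 1090) (C.node (nat_lit 3) (nat_lit 4) (nat_lit 6) (C.cons (nat_lit 88) (C.node (nat_lit 6) (nat_lit 8) (nat_lit 10) (C.cons (nat_lit 1344) (C.node (nat_lit 1) (nat_lit 2) (nat_lit 6) C.nil) C.nil)) C.nil)) C.nil)) (C.cons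 (nat_lit 82) (C.node (nat_lit 1) (nat_lit 4) (nat_lit 8) (C.cons (nat_lit 274) (C.node (nat_lit 1) (nat_lit 6) (nat_lit 10) (C.cons (nat_lit 1346) (C.node (nat_lit 1) (nat_lit 2) (nat_lit 6) (C.cons (nat_lit 102) (C.miq (nat_lit 2166859344) (nat_lit 181374309516425729004602481)) C.nil)) (C.cons (nat_lit 1090) (C.node (nat_lit 6) (nat_lit 8) (nat_lit 10) (C.cons (nat_lit 1344) (C.node (nat_lit 1) (nat_lit 7) (nat_lit 10) (C.cons (nat_lit 1186) (C.node (nat_lit 1) (nat_lit 8) (nat_lit 10) C.nil) C.nil)) C.nil)) C.nil))) C.nil)) C.nil))) C.nil))) C.nil)) (C.cons (nat_lit 1042) (C.node (nat_lit 3) (nat_lit 4) (nat_lit 10) (C.cons (nat_lit 1048) (C.node (nat_lit 1) (nat_lit 9) (nat_lit 10) (C.cons (nat_lit 1570) (C.node (nat_lit 1) (nat_lit 2) (nat_lit 9) (C.cons (nat_lit 774) (C.miq (nat_lit 1361357184) (nat_lit 181359847332125221724686209)) C.nil)) (C.cons (nat_lit 1538) (C.node (nat_lit 5) (nat_lit 9) (nat_lit 10) (C.cons (nat_lit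 1568) (C.node (nat_lit 3) (nat_lit 6) (nat_lit 10) (C.cons (nat_lit 1096) (C.node (nat_lit 1) (nat_lit 6) (nat_lit 10) C.nil) C.nil)) C.nil)) C.nil))) C.nil)) C.nil))) C.nil))))) C.nil))) C.nil)) (C.cons (nat_lit 532) (C.node (nat_lit 2) (nat_lit 4) (nat_lit 10) (C.cons (nat_lit 1044) (C.node (nat_lit 2) (nat_lit 5) (nat_lit 10) (C.cons (nat_lit 1572) (C.node (nat_lit 1) (nat_lit 9) (nat_lit 10) (C.cons (nat_lit 1546) (C.miq (nat_lit 321165952) (nat_lit 33859718605478619774257025)) (C.cons (nat_lit 1538) (C.node (nat_lit 3) (nat_lit 9) (nat_lit 10) (C.cons (nat_lit 1560) (C.miq (nat_lit 1922237860) (nat_lit 712060130151309984411419761)) (C.cons (nat_lit 1544) (C.node (nat_lit 4) (nat_lit 9) (nat_lit 10) C.nil) C.nil))) C.nil))) (C.cons (nat_lit 1060) (C.node (nat_lit 2) (nat_lit 9) (nat_lit 10) (C.cons (nat_lit 1540) (C.node (nat_lit 3) (nat_lit 6) (nat_lit 10) (C.cons (nat_lit 1098) (C.node (nat_lit 6) (nat_lit 8) (nat_lit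 10) C.nil) (C.cons (nat_lit 1096) (C.node (nat_lit 1) (nat_lit 6) (nat_lit 10) (C.cons (nat_lit 1090) (C.node (nat_lit 6) (nat_lit 8) (nat_lit 10) C.nil) C.nil)) C.nil))) C.nil)) C.nil))) C.nil)) C.nil))) C.nil))) C.nil)) C.nil)))
  (C.cons (nat_lit 268) (C.node (nat_lit 2) (nat_lit 8) (nat_lit 10) (C.cons (nat_lit 1316) (C.node (nat_lit 2) (nat_lit 3) (nat_lit 5) (C.cons (nat_lit 60) (C.miq (nat_lit 2184684864) (nat_lit 169285051311835007566808177)) (C.cons (nat_lit 44) (C.node (nat_lit 2) (nat_lit 5) (nat_lit 6) (C.cons (nat_lit 102) (C.miq (nat_lit 2182587744) (nat_lit 181374309507981479705248881)) (C.cons (nat_lit 100) (C.node (nat_lit 2) (nat_lit 8) (nat_lit 9) (C.cons (nat_lit 774) (C.miq (nat_lit 1377085584) (nat_lit 181359847260630577656825729)) (C.cons (nat_lit 772) (C.node (nat_lit 1) (nat_lit 2) (nat_lit 5) (C.cons (nat_lit 550) (C.node (nat_lit 2) (nat_lit 4) (nat_lit 5) (C.cons (nat_lit 52) (C.node (nat_lit 1)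 (nat_lit 2) (nat_lit 6) (C.cons (nat_lit 326) (C.node (nat_lit 1) (nat_lit 6) (nat_lit 9) (C.cons (nat_lit 578) (C.node (nat_lit 1) (nat_lit 4) (nat_lit 6) (C.cons (nat_lit 90) (C.node (nat_lit 1) (nat_lit 5) (nat_lit 6) (C.cons (nat_lit 98) (C.node (nat_lit 1) (nat_lit 6) (nat_lit 10) C.nil) C.nil)) (C.cons (nat_lit 82) (C.node (nat_lit 1) (nat_lit 5) (nat_lit 6) (C.cons (nat_lit 106) (C.node (nat_lit 1) (nat_lit 6) (nat_lit 10) C.nil) C.nil)) C.nil))) C.nil)) (C.cons (nat_lit 70) (C.node (nat_lit 1) (nat_lit 2) (nat_lit 8) (C.cons (nat_lit 262) (C.node (nat_lit 2) (nat_lit 6) (nat_lit 8) C.nil) C.nil)) C.nil))) C.nil)) (C.cons (nat_lit 38) (C.node (nat_lit 1) (nat_lit 2) (nat_lit 9) (C.cons (nat_lit 518) (C.node (nat_lit 1) (nat_lit 2) (nat_lit 6) (C.cons (nat_lit 326) (C.node (nat_lit 1) (nat_lit 4) (nat_lit 6) (C.cons (nat_lit 90) (C.node (nat_lit 1) (nat_lit 6) (nat_lit 10) (C.cons (nat_lit 1090) (C.node (nat_lit 3) (nat_lit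 4) (nat_lit 8) (C.cons (nat_lit 1304) (C.miq (nat_lit 1921189284) (nat_lit 323994942055012919802332273)) (C.cons (nat_lit 792) (C.miq (nat_lit 2216137568) (nat_lit 181374309360488540369257037)) (C.cons (nat_lit 280) (C.node (nat_lit 3) (nat_lit 7) (nat_lit 8) (C.cons (nat_lit 456) (C.miq (nat_lit 2553546593) (nat_lit 338509025253914697461792963)) (C.cons (nat_lit 394) (C.miq (nat_lit 2821981974) (nat_lit 338520203980823099162099907)) (C.cons (nat_lit 392) (C.node (nat_lit 1) (nat_lit 4) (nat_lit 5) (C.cons (nat_lit 306) (C.node (nat_lit 1) (nat_lit 4) (nat_lit 10) (C.cons (nat_lit 1042) (C.node (nat_lit 1) (nat_lit 7) (nat_lit 8) C.nil) C.nil)) (C.cons (nat_lit 50) (C.node (nat_lit 1) (nat_lit 4) (nat_lit 8) (C.cons (nat_lit 1298) (C.node (nat_lit 1) (nat_lit 9) (nat_lit 10) (C.cons (nat_lit 1578) (C.miq (nat_lit 826448512) (nat_lit 181349738518626879266948993)) (C.cons (nat_lit 1570) (C.miq (nat_lit 1095895464) (nat_lit 45944291042934282002892673))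 (C.cons (nat_lit 1546) (C.miq (nat_lit 826448512) (nat_lit 181349738509619680012208001)) C.nil)))) (C.cons (nat_lit 274) (C.node (nat_lit 1) (nat_lit 4) (nat_lit 10) C.nil) C.nil))) C.nil))) C.nil)))) C.nil)))) C.nil)) (C.cons (nat_lit 82) (C.node (nat_lit 1) (nat_lit 6) (nat_lit 9) (C.cons (nat_lit 610) (C.node (nat_lit 1) (nat_lit 7) (nat_lit 9) (C.cons (nat_lit 650) (C.miq (nat_lit 1366583600) (nat_lit 181359847061908711498383949)) (C.cons (nat_lit 642) (C.node (nat_lit 3) (nat_lit 5) (nat_lit 6) (C.cons (nat_lit 232) (C.miq (nat_lit 1463902985) (nat_lit 181350125521382190794080845)) (C.cons (nat_lit 104) (C.node (nat_lit 5) (nat_lit 6) (nat_lit 7) (C.cons (nat_lit 480) (C.miq (nat_lit 627157104) (nat_lit 737463768928486922066790273)) C.nil)) C.nil))) C.nil))) (C.cons (nat_lit 578) (C.node (nat_lit 1) (nat_lit 5) (nat_lit 6) (C.cons (nat_lit 106) (C.node (nat_lit 1) (nat_lit 6) (nat_lit 10) C.nil) (C.cons (nat_lit 98) (C.node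 (nat_lit 1) (nat_lit 3) (nat_lit 6) (C.cons (nat_lit 74) (C.node (nat_lit 1) (nat_lit 6) (nat_lit 10) C.nil) C.nil)) C.nil))) C.nil))) C.nil))) (C.cons (nat_lit 70) (C.node (nat_lit 1) (nat_lit 2) (nat_lit 8) C.nil) C.nil))) C.nil)) C.nil))) C.nil))) C.nil))) C.nil))) (C.cons (nat_lit 1284) (C.node (nat_lit 5) (nat_lit 8) (nat_lit 10) (C.cons (nat_lit 1314) (C.node (nat_lit 1) (nat_lit 4) (nat_lit 5) (C.cons (nat_lit 58)
  (C.miq (nat_lit 2705818928) (nat_lit 181374309507418340770513193)) (C.cons (nat_lit 50) (C.node (nat_lit 1) (nat_lit 7) (nat_lit 8) (C.cons (nat_lit 394) (C.miq (nat_lit 877752488) (nat_lit 60453559040967055199307649)) (C.cons (nat_lit 386) (C.node (nat_lit 1) (nat_lit 4) (nat_lit 10) (C.cons (nat_lit 1050) (C.node (nat_lit 1) (nat_lit 6) (nat_lit 10) (C.cons (nat_lit 1090) (C.node (nat_lit 1) (nat_lit 7) (nat_lit 10) (C.cons (nat_lit 1154) (C.node (nat_lit 1) (nat_lit 9) (nat_lit 10) (C.cons (nat_lit 1538)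 (C.node (nat_lit 4) (nat_lit 8) (nat_lit 10) (C.cons (nat_lit 1296) (C.node (nat_lit 1) (nat_lit 4) (nat_lit 6) (C.cons (nat_lit 338) (C.node (nat_lit 3) (nat_lit 4) (nat_lit 6) (C.cons (nat_lit 88) (C.node (nat_lit 1) (nat_lit 3) (nat_lit 6) (C.cons (nat_lit 106) (C.miq (nat_lit 2585135187) (nat_lit 1317740009052924289210777897)) (C.cons (nat_lit 74) (C.node (nat_lit 1) (nat_lit 3) (nat_lit 8) (C.cons (nat_lit 778) (C.miq (nat_lit 1362536592) (nat_lit 89481484969355827609405313)) (C.cons (nat_lit 266) (C.node (nat_lit 1) (nat_lit 3) (nat_lit 7) (C.cons (nat_lit 682) (C.miq (nat_lit 826824480) (nat_lit 408622405904701131167432869)) (C.cons (nat_lit 650) (C.node (nat_lit 1) (nat_lit 3) (nat_lit 5) C.nil) (C.cons (nat_lit 170) (C.miq (nat_lit 826824480) (nat_lit 408622405760585943091576997)) C.nil)))) C.nil))) C.nil))) C.nil)) (C.cons (nat_lit 82) (C.node (nat_lit 1) (nat_lit 4) (nat_lit 8) (C.cons (nat_lit 274) (C.node (nat_lit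 1) (nat_lit 3) (nat_lit 7) (C.cons (nat_lit 682) (C.miq (nat_lit 826824480) (nat_lit 331251153449364863986237605)) (C.cons (nat_lit 650) (C.node (nat_lit 1) (nat_lit 5) (nat_lit 7) C.nil) (C.cons (nat_lit 170) (C.miq (nat_lit 826824480) (nat_lit 331251153305249675910381733)) C.nil)))) C.nil)) C.nil))) C.nil)) C.nil)) C.nil)) C.nil)) (C.cons (nat_lit 1042) (C.node (nat_lit 1) (nat_lit 6) (nat_lit 10) (C.cons (nat_lit 1098) (C.node (nat_lit 1) (nat_lit 7) (nat_lit 10) (C.cons (nat_lit 1154) (C.node (nat_lit 1) (nat_lit 9) (nat_lit 10) (C.cons (nat_lit 1538) (C.node (nat_lit 6) (nat_lit 8) (nat_lit 10) (C.cons (nat_lit 1344) (C.node (nat_lit 1) (nat_lit 3) (nat_lit 4) (C.cons (nat_lit 282) (C.miq (nat_lit 562394160) (nat_lit 1588531570728617355346772121)) (C.cons (nat_lit 26) (C.node (nat_lit 1) (nat_lit 3) (nat_lit 8) (C.cons (nat_lit 778) (C.miq (nat_lit 1362536592) (nat_lit 1327421524254736102508529537)) (C.cons (nat_lit 266)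 (C.node (nat_lit 3) (nat_lit 4) (nat_lit 6) (C.cons (nat_lit 344) (C.miq (nat_lit 327329344) (nat_lit 324011138558921615284175985)) (C.cons (nat_lit 88) (C.node (nat_lit 3) (nat_lit 5) (nat_lit 6) (C.cons (nat_lit 232) (C.miq (nat_lit 326280784) (nat_lit 169268633648248599878108273)) (C.cons (nat_lit 104) (C.node (nat_lit 1) (nat_lit 3) (nat_lit 7) (C.cons (nat_lit 682) (C.miq (nat_lit 2199127410) (nat_lit 31437181141689773348749477)) (C.cons (nat_lit 650) (C.node (nat_lit 1) (nat_lit 3) (nat_lit 5) C.nil) (C.cons (nat_lit 170) (C.miq (nat_lit 2199127410) (nat_lit 31437181141687574325493925)) C.nil)))) C.nil))) C.nil))) C.nil))) C.nil))) C.nil)) C.nil)) C.nil)) (C.cons (nat_lit 1090) (C.node (nat_lit 1) (nat_lit 7) (nat_lit 10) (C.cons (nat_lit 1162) (C.node (nat_lit 1) (nat_lit 9) (nat_lit 10) (C.cons (nat_lit 1538) (C.node (nat_lit 5) (nat_lit 7) (nat_lit 10) (C.cons (nat_lit 1184) (C.node (nat_lit 1) (nat_lit 5) (nat_lit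 7) (C.cons (nat_lit 674) (C.node (nat_lit 3) (nat_lit 7) (nat_lit 9) (C.cons (nat_lit 648) (C.node (nat_lit 3) (nat_lit 5) (nat_lit 7) (C.cons (nat_lit 168) (C.node (nat_lit 3) (nat_lit 6) (nat_lit 7) C.nil) C.nil)) C.nil)) (C.cons (nat_lit 162) (C.node (nat_lit 1) (nat_lit 7) (nat_lit 9) (C.cons (nat_lit 642) (C.node (nat_lit 1) (nat_lit 3) (nat_lit 5) (C.cons (nat_lit 554) (C.node (nat_lit 3) (nat_lit 7) (nat_lit 9) C.nil) (C.cons (nat_lit 106) (C.miq (nat_lit 2585135187) (nat_lit 1317740009052924289210777897)) C.nil))) C.nil)) C.nil))) C.nil)) C.nil)) (C.cons (nat_lit 1154) (C.node (nat_lit 1) (nat_lit 3) (nat_lit 10) (C.cons (nat_lit 1546)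
  (C.node (nat_lit 1) (nat_lit 3) (nat_lit 7) (C.cons (nat_lit 170) (C.miq (nat_lit 559433520) (nat_lit 1588533636763953129780215961)) (C.cons (nat_lit 138) (C.node (nat_lit 1) (nat_lit 3) (nat_lit 5) (C.cons (nat_lit 106) (C.miq (nat_lit 2168038752) (nat_lit 1869034753689440874847339633)) (C.cons (nat_lit 42) (C.node (nat_lit 1) (nat_lit 5) (nat_lit 7) (C.cons (nat_lit 674) (C.node (nat_lit 3) (nat_lit 7) (nat_lit 9) (C.cons (nat_lit 648) (C.node (nat_lit 1) (nat_lit 2) (nat_lit 5) (C.cons (nat_lit 102) (C.node (nat_lit 1) (nat_lit 2) (nat_lit 8) C.nil) C.nil)) C.nil)) C.nil)) C.nil))) C.nil))) (C.cons (nat_lit 1034) (C.node (nat_lit 1) (nat_lit 9) (nat_lit 10) (C.cons (nat_lit 1538) (C.node (nat_lit 3) (nat_lit 6) (nat_lit 10) (C.cons (nat_lit 1352) (C.node (nat_lit 3) (nat_lit 7) (nat_lit 8) (C.cons (nat_lit 392) (C.node (nat_lit 4) (nat_lit 8) (nat_lit 10) (C.cons (nat_lit 1296) (C.node (nat_lit 1) (nat_lit 3) (nat_lit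 8) (C.cons (nat_lit 778) (C.miq (nat_lit 413438816) (nat_lit 1566777657660655888942301773)) (C.cons (nat_lit 282) (C.miq (nat_lit 562394160) (nat_lit 1588531570728617355346772121)) C.nil))) C.nil)) C.nil)) (C.cons (nat_lit 1096) (C.node (nat_lit 6) (nat_lit 8) (nat_lit 10) (C.cons (nat_lit 1344) (C.node (nat_lit 3) (nat_lit 7) (nat_lit 10) (C.cons (nat_lit 1192) (C.node (nat_lit 2) (nat_lit 3) (nat_lit 10) C.nil) C.nil)) C.nil)) C.nil))) C.nil)) C.nil))) C.nil))) C.nil))) C.nil))) C.nil))) C.nil))) (C.cons (nat_lit 1312) (C.ref (nat_lit 167) (nat_lit 11649936536080)) C.nil))) C.nil))) C.nil))) C.nil)))) List.nil)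

theorem ok11_168 : okL par11 (nat_lit 169) c11_168 (nat_lit 168) = true := by decide +kernel

noncomputable def c11_169 : List C :=
  (List.cons (C.node (nat_lit 2) (nat_lit 5) (nat_lit 10) (C.cons (nat_lit 1060) (C.node (nat_lit 2) (nat_lit 3) (nat_lit 7) (C.cons (nat_lit 142) (C.node (nat_lit 2) (nat_lit 7) (nat_lit 8) (C.cons (nat_lit 388) (C.node (nat_lit 3) (nat_lit 4) (nat_lit 10) (C.cons (nat_lit 1050) (C.miq (nat_lit 1412893202) (nat_lit 184968694433851984051045383)) (C.cons (nat_lit 1048) (C.node (nat_lit 3) (nat_lit 6) (nat_lit 10) (C.cons (nat_lit 1098) (C.miq (nat_lit 1379534614) (nat_lit 1561953132936556682595139779)) (C.cons (nat_lit 1096) (C.node (nat_lit 1) (nat_lit 7) (nat_lit 10) (C.cons (nat_lit 1186) (C.miq (nat_lit 325743109) (nat_lit 1325004576176076971509350565)) (C.cons (nat_lit 1154) (C.node (nat_lit 3) (nat_lit 7) (nat_lit 8) (C.cons (nat_lit 456) (C.miq (nat_lit 305531527) (nat_lit 712060905158317207380821889))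 (C.cons (nat_lit 392) (C.node (nat_lit 3) (nat_lit 6) (nat_lit 7) (C.cons (nat_lit 232) (C.miq (nat_lit 1461347104) (nat_lit 1395121369848596679920910925)) (C.cons (nat_lit 200) (C.node (nat_lit 1) (nat_lit 2) (nat_lit 4) (C.cons (nat_lit 54) (C.node (nat_lit 2) (nat_lit 3) (nat_lit 4) C.nil) (C.cons (nat_lit 22) (C.node (nat_lit 2) (nat_lit 3) (nat_lit 4) C.nil) C.nil))) C.nil))) C.nil))) C.nil))) C.nil))) C.nil))) C.nil)) (C.cons (nat_lit 140) (C.node (nat_lit 1) (nat_lit 2) (nat_lit 7) (C.cons (nat_lit 390) (C.node (nat_lit 1) (nat_lit 2) (nat_lit 6) (C.cons (nat_lit 102) (C.miq (nat_lit 2186965344) (nat_lit 1281496805096648200315535555)) (C.cons (nat_lit 70) (C.node (nat_lit 3) (nat_lit 7) (nat_lit 8) (C.cons (nat_lit 456) (C.miq (nat_lit 305531527) (nat_lit 712060905158317207380821889)) (C.cons (nat_lit 392) (C.node (nat_lit 6) (nat_lit 8) (nat_lit 10) (C.cons (nat_lit 1346) (C.miq (nat_lit 1444022919) (nat_lit 84627851405839033877006209))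 (C.cons (nat_lit 1344) (C.node (nat_lit 6) (nat_lit 7) (nat_lit 8) (C.cons (nat_lit 480) (C.miq (nat_lit 1479173904) (nat_lit 1561953133025222365406494915)) (C.cons (nat_lit 464) (C.miq (nat_lit 1210738448) (nat_lit 1561953133020718765779124419)) (C.cons (nat_lit 448) (C.node (nat_lit 1) (nat_lit 2) (nat_lit 9) (C.cons (nat_lit 550) (C.node (nat_lit 2) (nat_lit 8) (nat_lit 9) (C.cons (nat_lit 772) (C.node (nat_lit 1) (nat_lit 4) (nat_lit 7) C.nil) C.nil)) (C.cons (nat_lit 518) (C.node (nat_lit 1) (nat_lit 4) (nat_lit 7) (C.cons (nat_lit 178) (C.node (nat_lit 4) (nat_lit 7) (nat_lit 8) (C.cons (nat_lit 400) (C.node (nat_lit 5) (nat_lit 7) (nat_lit 8) (C.cons (nat_lit 416) (C.node (nat_lit 1) (nat_lit 2) (nat_lit 4) (C.cons (nat_lit 22) (C.node (nat_lit 1) (nat_lit 2) (nat_lit 3) C.nil) C.nil)) C.nil)) C.nil)) (C.cons (nat_lit 146) (C.node (nat_lit 2) (nat_lit 5) (nat_lit 6) (C.cons (nat_lit 100) (C.node (nat_lit 2) (nat_lit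 6) (nat_lit 8) C.nil) C.nil)) C.nil))) C.nil))) C.nil)))) C.nil))) C.nil))) C.nil))) (C.cons (nat_lit 134) (C.node (nat_lit 2) (nat_lit 7) (nat_lit 8) (C.cons (nat_lit 388) (C.node (nat_lit 3) (nat_lit 4) (nat_lit 10) (C.cons (nat_lit 1050) (C.node (nat_lit 3) (nat_lit 6) (nat_lit 10) (C.cons (nat_lit 1096) (C.node (nat_lit 4) (nat_lit 8) (nat_lit 10) (C.cons (nat_lit 1296) (C.node (nat_lit 1) (nat_lit 2) (nat_lit 3) (C.cons (nat_lit 46) (C.node (nat_lit 1) (nat_lit 2) (nat_lit 4) (C.cons (nat_lit 22) (C.node (nat_lit 2) (nat_lit 3) (nat_lit 4) C.nil) C.nil)) (C.cons (nat_lit 14) (C.node (nat_lit 1) (nat_lit 2) (nat_lit 4) (C.cons (nat_lit 54) (C.node (nat_lit 2) (nat_lit 3) (nat_lit 4) C.nil) (C.cons (nat_lit 22) (C.node (nat_lit 1) (nat_lit 6) (nat_lit 10) C.nil) C.nil))) C.nil))) C.nil)) C.nil)) (C.cons (nat_lit 1048) (C.node (nat_lit 1) (nat_lit 4) (nat_lit 10) (C.cons (nat_lit 1298) (C.node (nat_lit 5) (nat_lit 8) (nat_lit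 10) (C.cons (nat_lit 1312) (C.node (nat_lit 6) (nat_lit 8) (nat_lit 10) (C.cons (nat_lit 1344) (C.node (nat_lit 1) (nat_lit 9) (nat_lit 10) (C.cons (nat_lit 1538) (C.miq (nat_lit 958013512) (nat_lit 1859351743926433945434063125)) C.nil)) C.nil)) C.nil)) (C.cons (nat_lit 1042) (C.node (nat_lit 4) (nat_lit 8) (nat_lit 10)
  (C.cons (nat_lit 1296) (C.node (nat_lit 3) (nat_lit 6) (nat_lit 10) (C.cons (nat_lit 1098) (C.node (nat_lit 6) (nat_lit 8) (nat_lit 10) (C.cons (nat_lit 1344) (C.node (nat_lit 1) (nat_lit 7) (nat_lit 10) C.nil) C.nil)) (C.cons (nat_lit 1096) (C.node (nat_lit 1) (nat_lit 6) (nat_lit 10) (C.cons (nat_lit 1346) (C.node (nat_lit 5) (nat_lit 8) (nat_lit 10) C.nil) C.nil)) C.nil))) C.nil)) C.nil))) C.nil))) C.nil)) C.nil))) C.nil))) C.nil)) List.nil)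

theorem ok11_169 : okL par11 (nat_lit 170) c11_169 (nat_lit 169) = true := by decide +kernel

noncomputable def c11_170 : List C :=
  (List.cons (C.node (nat_lit 4) (nat_lit 9) (nat_lit 10) (C.cons (nat_lit 1560) (C.node (nat_lit 1) (nat_lit 4) (nat_lit 10) (C.cons (nat_lit 1298) (C.node (nat_lit 1) (nat_lit 4) (nat_lit 6) (C.cons (nat_lit 90) (C.miq (nat_lit 2051082550) (nat_lit 1569189311515603172547232333)) (C.cons (nat_lit 82) (C.node (nat_lit 3) (nat_lit 8) (nat_lit 9) (C.cons (nat_lit 778) (C.miq (nat_lit 910266536) (nat_lit 99146268941082583102523265)) (C.cons (nat_lit 776) (C.node (nat_lit 6) (nat_lit 8) (nat_lit 10) (C.cons (nat_lit 1352) (C.miq (nat_lit 423116906) (nat_lit 938150380044225657027691633)) (C.cons (nat_lit 1344) (C.node (nat_lit 3) (nat_lit 8) (nat_lit 10) (C.cons (nat_lit 1292) (C.miq (nat_lit 1228410922) (nat_lit 938150380044225657023759367)) (C.cons (nat_lit 1288) (C.node (nat_lit 2) (nat_lit 3) (nat_lit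 4) (C.cons (nat_lit 62) (C.miq (nat_lit 2033322565) (nat_lit 712060352006508876392170609)) (C.cons (nat_lit 60) (C.miq (nat_lit 2033322565) (nat_lit 712060352006508876392039537)) (C.cons (nat_lit 30) (C.miq (nat_lit 2218369312) (nat_lit 1885959715159541757248340999)) (C.cons (nat_lit 28) (C.node (nat_lit 1) (nat_lit 2) (nat_lit 4) (C.cons (nat_lit 54) (C.node (nat_lit 1) (nat_lit 3) (nat_lit 4) (C.cons (nat_lit 26) (C.node (nat_lit 1) (nat_lit 4) (nat_lit 7) (C.cons (nat_lit 146) (C.node (nat_lit 3) (nat_lit 4) (nat_lit 5) (C.cons (nat_lit 56) (C.node (nat_lit 1) (nat_lit 2) (nat_lit 6) (C.cons (nat_lit 326) (C.miq (nat_lit 2014448197) (nat_lit 394112861447860278162490481)) (C.cons (nat_lit 70) (C.node (nat_lit 1) (nat_lit 2) (nat_lit 9) (C.cons (nat_lit 774) (C.miq (nat_lit 1093052560) (nat_lit 84645781686393694103340929)) (C.cons (nat_lit 518) (C.node (nat_lit 4) (nat_lit 5) (nat_lit 7) (C.cons (nat_lit 176) (C.miq (nat_lit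 2220335392) (nat_lit 212806380812895082506421255)) C.nil)) C.nil))) C.nil))) C.nil)) C.nil)) C.nil)) (C.cons (nat_lit 22) (C.node (nat_lit 2) (nat_lit 4) (nat_lit 5) (C.cons (nat_lit 52) (C.node (nat_lit 1) (nat_lit 3) (nat_lit 4) (C.cons (nat_lit 58) (C.node (nat_lit 1) (nat_lit 4) (nat_lit 7) (C.cons (nat_lit 146) (C.node (nat_lit 1) (nat_lit 3) (nat_lit 9) (C.cons (nat_lit 650) (C.miq (nat_lit 1680935575) (nat_lit 70121294972786614207121281)) (C.cons (nat_lit 522) (C.node (nat_lit 1) (nat_lit 9) (nat_lit 10) (C.cons (nat_lit 1570) (C.miq (nat_lit 2031290964) (nat_lit 631062100731399880121648241)) (C.cons (nat_lit 1538) (C.node (nat_lit 5) (nat_lit 9) (nat_lit 10) (C.cons (nat_lit 1568) (C.node (nat_lit 2) (nat_lit 3) (nat_lit 10) (C.cons (nat_lit 1068) (C.node (nat_lit 2) (nat_lit 8) (nat_lit 10) C.nil) C.nil)) C.nil)) C.nil))) C.nil))) C.nil)) (C.cons (nat_lit 26) (C.node (nat_lit 3) (nat_lit 4) (nat_lit 5) (C.cons (nat_lit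 56) (C.node (nat_lit 1) (nat_lit 4) (nat_lit 5) (C.cons (nat_lit 178) (C.node (nat_lit 1) (nat_lit 7) (nat_lit 9) (C.cons (nat_lit 650) (C.miq (nat_lit 1680935575) (nat_lit 31435668745118480616523649)) (C.cons (nat_lit 642) (C.node (nat_lit 1) (nat_lit 2) (nat_lit 7) (C.cons (nat_lit 398) (C.miq (nat_lit 1410468487) (nat_lit 26599412064336627333203841)) (C.cons (nat_lit 390) (C.miq (nat_lit 1410468487) (nat_lit 26599412064336627332679553)) (C.cons (nat_lit 142) (C.miq (nat_lit 1678968178) (nat_lit 31442936762277586501763237)) (C.cons (nat_lit 134) (C.node (nat_lit 3) (nat_lit 4) (nat_lit 6) C.nil) C.nil))))) C.nil))) (C.cons (nat_lit 50) (C.node (nat_lit 1) (nat_lit 4) (nat_lit 7) (C.cons (nat_lit 146) (C.node (nat_lit 2) (nat_lit 3) (nat_lit 10) C.nil) C.nil)) C.nil))) C.nil)) C.nil))) C.nil)) C.nil))) C.nil))))) C.nil))) C.nil))) C.nil))) C.nil))) (C.cons (nat_lit 1042) (C.node (nat_lit 4) (nat_lit 8) (nat_lit 10) (C.cons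 (nat_lit 1296) (C.node (nat_lit 1) (nat_lit 9) (nat_lit 10) (C.cons (nat_lit 1570) (C.node (nat_lit 1) (nat_lit 7) (nat_lit 9) (C.cons (nat_lit 650) (C.miq (nat_lit 929730820) (nat_lit 1470082573755103635798295059)) (C.cons (nat_lit 642) (C.node (nat_lit 5) (nat_lit 7) (nat_lit 10) (C.cons (nat_lit 1192)
  (C.miq (nat_lit 1359456579) (nat_lit 235762523785706544926623256)) (C.cons (nat_lit 1184) (C.node (nat_lit 3) (nat_lit 4) (nat_lit 5) (C.cons (nat_lit 62) (C.miq (nat_lit 932266149) (nat_lit 776131519933798422325363825)) (C.cons (nat_lit 60) (C.miq (nat_lit 2033322565) (nat_lit 712060352006508876392039537)) (C.cons (nat_lit 58) (C.miq (nat_lit 932266149) (nat_lit 776131446146822127487157361)) (C.cons (nat_lit 56) (C.node (nat_lit 1) (nat_lit 2) (nat_lit 9) (C.cons (nat_lit 774) (C.node (nat_lit 1) (nat_lit 3) (nat_lit 9) (C.cons (nat_lit 522) (C.node (nat_lit 1) (nat_lit 6) (nat_lit 9) (C.cons (nat_lit 578) (C.node (nat_lit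 2) (nat_lit 5) (nat_lit 9) (C.cons (nat_lit 548) (C.node (nat_lit 3) (nat_lit 8) (nat_lit 9) (C.cons (nat_lit 776) (C.node (nat_lit 1) (nat_lit 2) (nat_lit 6) (C.cons (nat_lit 102) (C.miq (nat_lit 1158810264) (nat_lit 123315543668844385035224961)) (C.cons (nat_lit 70) (C.node (nat_lit 2) (nat_lit 3) (nat_lit 4) (C.cons (nat_lit 30) (C.miq (nat_lit 1361357184) (nat_lit 36288748978369720759945089)) (C.cons (nat_lit 28) (C.node (nat_lit 4) (nat_lit 5) (nat_lit 9) (C.cons (nat_lit 560) (C.miq (nat_lit 2220433569) (nat_lit 677012736842078841057969159)) C.nil)) C.nil))) C.nil))) C.nil)) C.nil)) C.nil)) C.nil)) (C.cons (nat_lit 518) (C.node (nat_lit 2) (nat_lit 4) (nat_lit 5) (C.cons (nat_lit 54) (C.miq (nat_lit 2299660884) (nat_lit 626228684849206503406961777)) (C.cons (nat_lit 52) (C.node (nat_lit 5) (nat_lit 8) (nat_lit 10) (C.cons (nat_lit 1316) (C.miq (nat_lit 354720384) (nat_lit 62873938282985222487476097)) (C.cons (nat_lit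 1312) (C.node (nat_lit 1) (nat_lit 2) (nat_lit 4) (C.cons (nat_lit 30) (C.node (nat_lit 1) (nat_lit 7) (nat_lit 10) (C.cons (nat_lit 1162) (C.miq (nat_lit 2268334610) (nat_lit 184970760689865102290977799)) (C.cons (nat_lit 1154) (C.node (nat_lit 3) (nat_lit 7) (nat_lit 10) (C.cons (nat_lit 1160) (C.node (nat_lit 2) (nat_lit 5) (nat_lit 10) C.nil) C.nil)) C.nil))) (C.cons (nat_lit 22) (C.node (nat_lit 2) (nat_lit 3) (nat_lit 4) (C.cons (nat_lit 28) (C.node (nat_lit 2) (nat_lit 5) (nat_lit 10) (C.cons (nat_lit 1060) (C.node (nat_lit 2) (nat_lit 3) (nat_lit 5) C.nil) C.nil)) C.nil)) C.nil))) C.nil))) C.nil))) C.nil))) C.nil))))) C.nil))) C.nil))) (C.cons (nat_lit 1538) (C.node (nat_lit 5) (nat_lit 9) (nat_lit 10) (C.cons (nat_lit 1568) (C.node (nat_lit 3) (nat_lit 8) (nat_lit 9) (C.cons (nat_lit 778) (C.node (nat_lit 3) (nat_lit 4) (nat_lit 5) (C.cons (nat_lit 62) (C.miq (nat_lit 2033322565) (nat_lit 712060352006508876392170609))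 (C.cons (nat_lit 60) (C.miq (nat_lit 2033322565) (nat_lit 712060352006508876392039537)) (C.cons (nat_lit 58) (C.miq (nat_lit 2822048020) (nat_lit 359071942914273444397449747)) (C.cons (nat_lit 56) (C.node (nat_lit 1) (nat_lit 2) (nat_lit 9) (C.cons (nat_lit 550) (C.node (nat_lit 1) (nat_lit 6) (nat_lit 9) (C.cons (nat_lit 578) (C.node (nat_lit 1) (nat_lit 7) (nat_lit 9) (C.cons (nat_lit 642) (C.node (nat_lit 2) (nat_lit 4) (nat_lit 5) (C.cons (nat_lit 52) (C.node (nat_lit 2) (nat_lit 8) (nat_lit 9) (C.cons (nat_lit 772) (C.node (nat_lit 1) (nat_lit 4) (nat_lit 5) (C.cons (nat_lit 434) (C.miq (nat_lit 827496560) (nat_lit 664920066139294856921810817)) (C.cons (nat_lit 306) (C.miq (nat_lit 1669662996) (nat_lit 359071942539348775435108883)) (C.cons (nat_lit 178) (C.miq (nat_lit 844564756) (nat_lit 199475582754048214914171411)) (C.cons (nat_lit 50) (C.node (nat_lit 1) (nat_lit 2) (nat_lit 4) (C.cons (nat_lit 30) (C.node (nat_lit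 1) (nat_lit 2) (nat_lit 7) (C.cons (nat_lit 390) (C.miq (nat_lit 2051180849) (nat_lit 1262125750448581735530496778)) C.nil)) C.nil)) C.nil))))) C.nil)) C.nil)) C.nil)) C.nil)) (C.cons (nat_lit 518) (C.node (nat_lit 1) (nat_lit 6) (nat_lit 9) (C.cons (nat_lit 610) (C.node (nat_lit 1) (nat_lit 7) (nat_lit 9) (C.cons (nat_lit 642) (C.node (nat_lit 3) (nat_lit 5) (nat_lit 6) (C.cons (nat_lit 232) (C.miq (nat_lit 2486505590) (nat_lit 67711098561768066388590787)) (C.cons (nat_lit 104) (C.node (nat_lit 1) (nat_lit 2) (nat_lit 6)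
  (C.cons (nat_lit 326) (C.node (nat_lit 2) (nat_lit 5) (nat_lit 6) (C.cons (nat_lit 100) (C.node (nat_lit 1) (nat_lit 4) (nat_lit 6) (C.cons (nat_lit 90) (C.miq (nat_lit 2033257030) (nat_lit 940547885315996001700021361)) (C.cons (nat_lit 82) (C.node (nat_lit 1) (nat_lit 8) (nat_lit 10) (C.cons (nat_lit 1314) (C.miq (nat_lit 911315112) (nat_lit 737459101697606787348432769)) (C.cons (nat_lit 1282) (C.node (nat_lit 1) (nat_lit 3) (nat_lit 4) C.nil) C.nil))) C.nil))) C.nil)) (C.cons (nat_lit 70) (C.node (nat_lit 2) (nat_lit 3) (nat_lit 4) (C.cons (nat_lit 30) (C.node (nat_lit 2) (nat_lit 4) (nat_lit 5) (C.cons (nat_lit 52) (C.node (nat_lit 1) (nat_lit 2) (nat_lit 7) (C.cons (nat_lit 390) (C.miq (nat_lit 2051180849) (nat_lit 1262125750448581735530496778)) C.nil)) C.nil)) (C.cons (nat_lit 28) (C.node (nat_lit 1) (nat_lit 3) (nat_lit 4) (C.cons (nat_lit 90) (C.miq (nat_lit 2033257030) (nat_lit 940547885315996001700021361)) (C.cons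 (nat_lit 26) (C.node (nat_lit 2) (nat_lit 5) (nat_lit 9) (C.cons (nat_lit 804) (C.node (nat_lit 2) (nat_lit 5) (nat_lit 6) C.nil) C.nil)) C.nil))) C.nil))) C.nil))) C.nil))) C.nil)) (C.cons (nat_lit 578) (C.node (nat_lit 1) (nat_lit 5) (nat_lit 9) (C.cons (nat_lit 674) (C.node (nat_lit 3) (nat_lit 5) (nat_lit 9) (C.cons (nat_lit 552) (C.node (nat_lit 3) (nat_lit 7) (nat_lit 9) (C.cons (nat_lit 648) (C.node (nat_lit 2) (nat_lit 4) (nat_lit 5) (C.cons (nat_lit 54) (C.miq (nat_lit 2270300436) (nat_lit 199477870525238556444983827)) (C.cons (nat_lit 52) (C.node (nat_lit 1) (nat_lit 4) (nat_lit 5) (C.cons (nat_lit 306) (C.miq (nat_lit 1669662996) (nat_lit 359071942539348775435108883)) (C.cons (nat_lit 50) (C.node (nat_lit 1) (nat_lit 7) (nat_lit 10) (C.cons (nat_lit 1162) (C.node (nat_lit 5) (nat_lit 7) (nat_lit 10) C.nil) C.nil)) C.nil))) C.nil))) C.nil)) C.nil)) (C.cons (nat_lit 546) (C.node (nat_lit 1) (nat_lit 7) (nat_lit 9)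 (C.cons (nat_lit 642) (C.node (nat_lit 2) (nat_lit 3) (nat_lit 4) (C.cons (nat_lit 30) (C.node (nat_lit 2) (nat_lit 4) (nat_lit 5) (C.cons (nat_lit 52) (C.node (nat_lit 3) (nat_lit 8) (nat_lit 10) (C.cons (nat_lit 1352) (C.miq (nat_lit 1662298256) (nat_lit 36288748917008193033537409)) (C.cons (nat_lit 1292) (C.miq (nat_lit 2202640912) (nat_lit 1885959715157852907384275975)) C.nil))) C.nil)) (C.cons (nat_lit 28) (C.node (nat_lit 1) (nat_lit 3) (nat_lit 4) (C.cons (nat_lit 90) (C.miq (nat_lit 2033257030) (nat_lit 940547885315996001700021361)) (C.cons (nat_lit 26) (C.node (nat_lit 1) (nat_lit 8) (nat_lit 10) (C.cons (nat_lit 1346) (C.node (nat_lit 3) (nat_lit 6) (nat_lit 10) C.nil) (C.cons (nat_lit 1314) (C.miq (nat_lit 2710984752) (nat_lit 698780098055128931661316393)) C.nil))) C.nil))) C.nil))) C.nil)) C.nil))) C.nil))) C.nil))) C.nil))))) (C.cons (nat_lit 776) (C.node (nat_lit 1) (nat_lit 4) (nat_lit 6) (C.cons (nat_lit 346)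 (C.miq (nat_lit 2051082550) (nat_lit 1259704301694258103839228493)) (C.cons (nat_lit 338) (C.node (nat_lit 3) (nat_lit 4) (nat_lit 6) (C.cons (nat_lit 88) (C.node (nat_lit 3) (nat_lit 4) (nat_lit 8) (C.cons (nat_lit 280) (C.node (nat_lit 1) (nat_lit 2) (nat_lit 6) (C.cons (nat_lit 102) (C.node (nat_lit 1) (nat_lit 6) (nat_lit 9) (C.cons (nat_lit 578) (C.node (nat_lit 2) (nat_lit 6) (nat_lit 8) (C.cons (nat_lit 324) (C.node (nat_lit 1) (nat_lit 4) (nat_lit 7) (C.cons (nat_lit 178) (C.miq (nat_lit 873858898) (nat_lit 408627792205070511924183205)) (C.cons (nat_lit 146) (C.node (nat_lit 1) (nat_lit 6) (nat_lit 10) (C.cons (nat_lit 1098) (C.node (nat_lit 6) (nat_lit 8) (nat_lit 10) C.nil) C.nil)) C.nil))) C.nil)) C.nil)) (C.cons (nat_lit 70) (C.node (nat_lit 1) (nat_lit 4) (nat_lit 7) (C.cons (nat_lit 178) (C.node (nat_lit 4) (nat_lit 7) (nat_lit 8) (C.cons (nat_lit 400) (C.node (nat_lit 1) (nat_lit 6) (nat_lit 9) (C.cons (nat_lit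 610) (C.miq (nat_lit 1496585735) (nat_lit 1885927562290968898381086915)) (C.cons (nat_lit 578) (C.node (nat_lit 1) (nat_lit 7) (nat_lit 9) (C.cons (nat_lit 650) (C.miq (nat_lit 373518505) (nat_lit 106397462564627782521325441))
  (C.cons (nat_lit 642) (C.node (nat_lit 2) (nat_lit 4) (nat_lit 5) (C.cons (nat_lit 60) (C.miq (nat_lit 2033322565) (nat_lit 712060352006508876392039537)) (C.cons (nat_lit 52) (C.node (nat_lit 4) (nat_lit 6) (nat_lit 7) C.nil) C.nil))) C.nil))) C.nil))) C.nil)) (C.cons (nat_lit 146) (C.node (nat_lit 1) (nat_lit 6) (nat_lit 9) (C.cons (nat_lit 610) (C.node (nat_lit 6) (nat_lit 8) (nat_lit 9) (C.cons (nat_lit 832) (C.node (nat_lit 1) (nat_lit 2) (nat_lit 9) (C.cons (nat_lit 774) (C.miq (nat_lit 1367632160) (nat_lit 408637901149459528927216205)) (C.cons (nat_lit 518) (C.node (nat_lit 2) (nat_lit 5) (nat_lit 6) (C.cons (nat_lit 356) (C.miq (nat_lit 1480679945) (nat_lit 408628179643835905326907981)) C.nil))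 C.nil))) C.nil)) (C.cons (nat_lit 578) (C.node (nat_lit 1) (nat_lit 5) (nat_lit 6) (C.cons (nat_lit 106) (C.node (nat_lit 1) (nat_lit 6) (nat_lit 10) (C.cons (nat_lit 1090) (C.node (nat_lit 2) (nat_lit 5) (nat_lit 6) C.nil) C.nil)) (C.cons (nat_lit 98) (C.node (nat_lit 1) (nat_lit 3) (nat_lit 6) (C.cons (nat_lit 1098) (C.node (nat_lit 2) (nat_lit 3) (nat_lit 10) C.nil) (C.cons (nat_lit 74) (C.node (nat_lit 1) (nat_lit 6) (nat_lit 10) (C.cons (nat_lit 1090) (C.node (nat_lit 2) (nat_lit 5) (nat_lit 6) C.nil) C.nil)) C.nil))) C.nil))) C.nil))) C.nil))) C.nil))) C.nil)) C.nil)) (C.cons (nat_lit 90) (C.miq (nat_lit 2051082550) (nat_lit 1259704301694258103822451277)) (C.cons (nat_lit 82) (C.node (nat_lit 3) (nat_lit 4) (nat_lit 6) (C.cons (nat_lit 344) (C.node (nat_lit 3) (nat_lit 6) (nat_lit 7) (C.cons (nat_lit 232) (C.miq (nat_lit 1181909840) (nat_lit 236954570489404124219900201)) (C.cons (nat_lit 200) (C.node (nat_lit 3) (nat_lit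 5) (nat_lit 6) (C.cons (nat_lit 106) (C.node (nat_lit 3) (nat_lit 6) (nat_lit 10) (C.cons (nat_lit 1096) (C.node (nat_lit 1) (nat_lit 3) (nat_lit 9) (C.cons (nat_lit 650) (C.miq (nat_lit 1125558640) (nat_lit 128167111266266255689189249)) (C.cons (nat_lit 522) (C.node (nat_lit 2) (nat_lit 5) (nat_lit 6) (C.cons (nat_lit 356) (C.miq (nat_lit 1936000130) (nat_lit 128149180634990003523682581)) (C.cons (nat_lit 100) (C.node (nat_lit 3) (nat_lit 4) (nat_lit 5) (C.cons (nat_lit 60) (C.miq (nat_lit 2033322565) (nat_lit 712060352006508876392039537)) (C.cons (nat_lit 56) (C.node (nat_lit 2) (nat_lit 3) (nat_lit 4) (C.cons (nat_lit 30) (C.node (nat_lit 2) (nat_lit 4) (nat_lit 5) C.nil) C.nil)) C.nil))) C.nil))) C.nil))) C.nil)) (C.cons (nat_lit 104) (C.node (nat_lit 1) (nat_lit 3) (nat_lit 6) (C.cons (nat_lit 1098) (C.node (nat_lit 1) (nat_lit 3) (nat_lit 8) (C.cons (nat_lit 398) (C.miq (nat_lit 2225152099) (nat_lit 1259708045920558388444004941))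 (C.cons (nat_lit 394) (C.miq (nat_lit 557320804) (nat_lit 476321882966477729265353841)) (C.cons (nat_lit 270) (C.miq (nat_lit 2225152099) (nat_lit 1259705684737316953621398093)) (C.cons (nat_lit 266) (C.miq (nat_lit 557320804) (nat_lit 321579378055805194902963313)) C.nil))))) (C.cons (nat_lit 74) (C.node (nat_lit 3) (nat_lit 6) (nat_lit 10) (C.cons (nat_lit 1096) (C.node (nat_lit 1) (nat_lit 6) (nat_lit 10) (C.cons (nat_lit 1346) (C.node (nat_lit 2) (nat_lit 6) (nat_lit 8) (C.cons (nat_lit 356) (C.miq (nat_lit 1936000130) (nat_lit 125731328995760745174270229)) (C.cons (nat_lit 324) (C.node (nat_lit 1) (nat_lit 2) (nat_lit 6) (C.cons (nat_lit 102) (C.node (nat_lit 1) (nat_lit 6) (nat_lit 9) C.nil) C.nil)) C.nil))) (C.cons (nat_lit 1090) (C.node (nat_lit 6) (nat_lit 8) (nat_lit 10) (C.cons (nat_lit 1344) (C.node (nat_lit 1) (nat_lit 8) (nat_lit 10) C.nil) C.nil)) C.nil))) C.nil)) C.nil))) C.nil))) C.nil))) (C.cons (nat_lit 88)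 (C.node (nat_lit 3) (nat_lit 4) (nat_lit 8) (C.cons (nat_lit 282) (C.node (nat_lit 2) (nat_lit 3) (nat_lit 4) (C.cons (nat_lit 60) (C.miq (nat_lit 2033322565) (nat_lit 712060352006508876392039537)) (C.cons (nat_lit 28) (C.node (nat_lit 3) (nat_lit 4) (nat_lit 5) (C.cons (nat_lit 56) (C.node (nat_lit 1) (nat_lit 2) (nat_lit 4) (C.cons (nat_lit 54) (C.node (nat_lit 1) (nat_lit 4) (nat_lit 7) (C.cons (nat_lit 146)
  (C.node (nat_lit 4) (nat_lit 5) (nat_lit 7) (C.cons (nat_lit 688) (C.miq (nat_lit 2807171393) (nat_lit 199491779370270193576444435)) (C.cons (nat_lit 432) (C.miq (nat_lit 2216326432) (nat_lit 1259736140355406618027294885)) C.nil))) C.nil)) (C.cons (nat_lit 22) (C.node (nat_lit 2) (nat_lit 4) (nat_lit 5) (C.cons (nat_lit 52) (C.node (nat_lit 1) (nat_lit 2) (nat_lit 3) C.nil) C.nil)) C.nil))) C.nil)) C.nil))) (C.cons (nat_lit 280) (C.node (nat_lit 1) (nat_lit 7) (nat_lit 9) (C.cons (nat_lit 682) (C.miq (nat_lit 373518505)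 (nat_lit 106398052860438141226977153)) (C.cons (nat_lit 674) (C.node (nat_lit 1) (nat_lit 3) (nat_lit 9) (C.cons (nat_lit 522) (C.node (nat_lit 3) (nat_lit 5) (nat_lit 9) (C.cons (nat_lit 552) (C.node (nat_lit 3) (nat_lit 7) (nat_lit 9) (C.cons (nat_lit 648) (C.node (nat_lit 2) (nat_lit 4) (nat_lit 5) (C.cons (nat_lit 62) (C.miq (nat_lit 2033322565) (nat_lit 712060352006508876392170609)) (C.cons (nat_lit 60) (C.miq (nat_lit 2033322565) (nat_lit 712060352006508876392039537)) (C.cons (nat_lit 54) (C.miq (nat_lit 2270300436) (nat_lit 199477870525238556444983827)) (C.cons (nat_lit 52) (C.node (nat_lit 1) (nat_lit 2) (nat_lit 4) (C.cons (nat_lit 30) (C.node (nat_lit 1) (nat_lit 7) (nat_lit 10) (C.cons (nat_lit 1162) (C.miq (nat_lit 1934139680) (nat_lit 338534666014535816771339271)) C.nil)) (C.cons (nat_lit 22) (C.node (nat_lit 2) (nat_lit 3) (nat_lit 4) C.nil) C.nil))) C.nil))))) C.nil)) C.nil)) C.nil)) (C.cons (nat_lit 650) (C.miq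 (nat_lit 373518505) (nat_lit 106397462564627782521325441)) (C.cons (nat_lit 642) (C.node (nat_lit 1) (nat_lit 3) (nat_lit 9) (C.cons (nat_lit 554) (C.node (nat_lit 3) (nat_lit 7) (nat_lit 9) (C.cons (nat_lit 648) (C.node (nat_lit 3) (nat_lit 4) (nat_lit 5) (C.cons (nat_lit 60) (C.miq (nat_lit 2033322565) (nat_lit 712060352006508876392039537)) (C.cons (nat_lit 56) (C.node (nat_lit 1) (nat_lit 2) (nat_lit 9) (C.cons (nat_lit 774) (C.node (nat_lit 1) (nat_lit 6) (nat_lit 9) (C.cons (nat_lit 578) (C.node (nat_lit 1) (nat_lit 2) (nat_lit 4) (C.cons (nat_lit 54) (C.miq (nat_lit 2836727844) (nat_lit 669765878555233125116805397)) (C.cons (nat_lit 30) (C.miq (nat_lit 2031290404) (nat_lit 669747726959064594916442389)) C.nil))) C.nil)) (C.cons (nat_lit 518) (C.node (nat_lit 1) (nat_lit 3) (nat_lit 4) (C.cons (nat_lit 30) (C.node (nat_lit 1) (nat_lit 4) (nat_lit 8) (C.cons (nat_lit 434) (C.miq (nat_lit 592972052) (nat_lit 359056078339444423156433427))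 (C.cons (nat_lit 402) (C.miq (nat_lit 1899594784) (nat_lit 669780340375023228361179413)) (C.cons (nat_lit 306) (C.miq (nat_lit 592972052) (nat_lit 359056078339444423148044819)) C.nil)))) (C.cons (nat_lit 26) (C.node (nat_lit 2) (nat_lit 3) (nat_lit 4) C.nil) C.nil))) C.nil))) C.nil))) C.nil)) (C.cons (nat_lit 522) (C.node (nat_lit 3) (nat_lit 5) (nat_lit 9) (C.cons (nat_lit 680) (C.node (nat_lit 3) (nat_lit 5) (nat_lit 6) (C.cons (nat_lit 106) (C.node (nat_lit 3) (nat_lit 4) (nat_lit 5) (C.cons (nat_lit 60) (C.miq (nat_lit 2033322565) (nat_lit 712060352006508876392039537)) (C.cons (nat_lit 56) (C.node (nat_lit 5) (nat_lit 7) (nat_lit 10) (C.cons (nat_lit 1186) (C.miq (nat_lit 559090297) (nat_lit 128157002301615902309222273)) (C.cons (nat_lit 1184) (C.node (nat_lit 1) (nat_lit 5) (nat_lit 10) (C.cons (nat_lit 1314) (C.miq (nat_lit 2168038752) (nat_lit 631094714404060599948215409)) (C.cons (nat_lit 1058) (C.node (nat_lit 1) (nat_lit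 3) (nat_lit 4) (C.cons (nat_lit 30) (C.node (nat_lit 2) (nat_lit 4) (nat_lit 5) C.nil) C.nil)) C.nil))) C.nil))) C.nil))) (C.cons (nat_lit 104) (C.node (nat_lit 3) (nat_lit 6) (nat_lit 7) (C.cons (nat_lit 456) (C.node (nat_lit 5) (nat_lit 6) (nat_lit 7) (C.cons (nat_lit 224) (C.node (nat_lit 3) (nat_lit 7) (nat_lit 10) (C.cons (nat_lit 1162) (C.node (nat_lit 5) (nat_lit 7) (nat_lit 10) C.nil) C.nil)) C.nil)) (C.cons (nat_lit 200) (C.node (nat_lit 3) (nat_lit 7) (nat_lit 10) (C.cons (nat_lit 1162) (C.node (nat_lit 5) (nat_lit 7) (nat_lit 10) (C.cons (nat_lit 1184) (C.node (nat_lit 1) (nat_lit 3) (nat_lit 6) C.nil) C.nil))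
  (C.cons (nat_lit 1160) (C.node (nat_lit 5) (nat_lit 6) (nat_lit 7) C.nil) C.nil))) C.nil))) C.nil))) (C.cons (nat_lit 552) (C.node (nat_lit 3) (nat_lit 7) (nat_lit 9) (C.cons (nat_lit 648) (C.node (nat_lit 2) (nat_lit 3) (nat_lit 4) (C.cons (nat_lit 62) (C.miq (nat_lit 2033322565) (nat_lit 712060352006508876392170609)) (C.cons (nat_lit 60) (C.miq (nat_lit 2033322565) (nat_lit 712060352006508876392039537)) (C.cons (nat_lit 30) (C.node (nat_lit 2) (nat_lit 4) (nat_lit 5) (C.cons (nat_lit 52) (C.node (nat_lit 3) (nat_lit 4) (nat_lit 5) (C.cons (nat_lit 56) (C.node (nat_lit 2) (nat_lit 3) (nat_lit 5) C.nil) C.nil)) C.nil)) (C.cons (nat_lit 28) (C.node (nat_lit 1) (nat_lit 2) (nat_lit 4) (C.cons (nat_lit 54) (C.node (nat_lit 4) (nat_lit 5) (nat_lit 9) (C.cons (nat_lit 816) (C.miq (nat_lit 445980804) (nat_lit 1895596681570127477929410837)) (C.cons (nat_lit 688) (C.miq (nat_lit 2807171393) (nat_lit 199491779370270193576444435))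 C.nil))) (C.cons (nat_lit 22) (C.node (nat_lit 2) (nat_lit 4) (nat_lit 5) C.nil) C.nil))) C.nil))))) C.nil)) C.nil))) C.nil))) C.nil))))) C.nil))) C.nil))) C.nil))))) C.nil))) C.nil)) C.nil))) C.nil)) C.nil))) (C.cons (nat_lit 1552) (C.node (nat_lit 2) (nat_lit 3) (nat_lit 10) (C.cons (nat_lit 1292) (C.ref (nat_lit 169) (nat_lit 11649936536080)) (C.cons (nat_lit 1068) (C.ref (nat_lit 169) (nat_lit 11430141571600)) (C.cons (nat_lit 1036) (C.node (nat_lit 2) (nat_lit 5) (nat_lit 10) (C.cons (nat_lit 1316) (C.node (nat_lit 2) (nat_lit 5) (nat_lit 6) (C.cons (nat_lit 102) (C.node (nat_lit 2) (nat_lit 5) (nat_lit 9) (C.cons (nat_lit 548) (C.node (nat_lit 2) (nat_lit 6) (nat_lit 8) (C.cons (nat_lit 324) (C.node (nat_lit 1) (nat_lit 2) (nat_lit 9) (C.cons (nat_lit 774) (C.miq (nat_lit 1159793289) (nat_lit 123320229141838016339642241)) (C.cons (nat_lit 518) (C.node (nat_lit 2) (nat_lit 8) (nat_lit 9) (C.cons (nat_lit 772) (C.node (nat_lit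 2) (nat_lit 3) (nat_lit 5) (C.cons (nat_lit 60) (C.miq (nat_lit 2722596144) (nat_lit 178956457868752040964456745)) (C.cons (nat_lit 44) (C.node (nat_lit 2) (nat_lit 4) (nat_lit 5) C.nil) C.nil))) C.nil)) C.nil))) C.nil)) C.nil)) (C.cons (nat_lit 100) (C.node (nat_lit 2) (nat_lit 7) (nat_lit 8) (C.cons (nat_lit 398) (C.miq (nat_lit 374501544) (nat_lit 120899923820496757794801537)) (C.cons (nat_lit 396) (C.miq (nat_lit 2725533744) (nat_lit 178941995621399695785001257)) (C.cons (nat_lit 390) (C.miq (nat_lit 374501544) (nat_lit 120899776246544168118388609)) (C.cons (nat_lit 388) (C.node (nat_lit 1) (nat_lit 2) (nat_lit 6) (C.cons (nat_lit 326) (C.node (nat_lit 2) (nat_lit 3) (nat_lit 8) (C.cons (nat_lit 268) (C.node (nat_lit 2) (nat_lit 8) (nat_lit 9) (C.cons (nat_lit 772) (C.node (nat_lit 2) (nat_lit 4) (nat_lit 5) (C.cons (nat_lit 62) (C.miq (nat_lit 2015562324) (nat_lit 323994942549282978824848497)) (C.cons (nat_lit 60) (C.miq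 (nat_lit 2015562324) (nat_lit 323994942549282978824717425)) (C.cons (nat_lit 54) (C.miq (nat_lit 2552302164) (nat_lit 394119612956191333167793265)) (C.cons (nat_lit 52) (C.node (nat_lit 1) (nat_lit 2) (nat_lit 4) (C.cons (nat_lit 30) (C.node (nat_lit 1) (nat_lit 2) (nat_lit 7) C.nil) C.nil)) C.nil))))) C.nil)) C.nil)) (C.cons (nat_lit 70) (C.node (nat_lit 2) (nat_lit 6) (nat_lit 8) (C.cons (nat_lit 324) (C.node (nat_lit 1) (nat_lit 2) (nat_lit 7) (C.cons (nat_lit 142) (C.node (nat_lit 2) (nat_lit 3) (nat_lit 8) (C.cons (nat_lit 268) (C.node (nat_lit 2) (nat_lit 3) (nat_lit 4) (C.cons (nat_lit 60) (C.miq (nat_lit 2184684864) (nat_lit 171702902951064265916220529)) C.nil)) C.nil)) (C.cons (nat_lit 134) (C.node (nat_lit 2) (nat_lit 3) (nat_lit 7) (C.cons (nat_lit 140) (C.node (nat_lit 2) (nat_lit 3) (nat_lit 8) (C.cons (nat_lit 268) (C.node (nat_lit 1) (nat_lit 2) (nat_lit 8) C.nil) C.nil)) C.nil)) C.nil))) C.nil)) C.nil))) C.nil)))))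 C.nil))) (C.cons (nat_lit 1060) (C.node (nat_lit 2) (nat_lit 8) (nat_lit 10) (C.cons (nat_lit 1284) (C.node (nat_lit 5) (nat_lit 8) (nat_lit 10) (C.cons (nat_lit 1314) (C.node (nat_lit 1) (nat_lit 4) (nat_lit 10)
  (C.cons (nat_lit 1050) (C.node (nat_lit 1) (nat_lit 6) (nat_lit 10) (C.cons (nat_lit 1090) (C.node (nat_lit 1) (nat_lit 7) (nat_lit 10) (C.cons (nat_lit 1154) (C.node (nat_lit 1) (nat_lit 9) (nat_lit 10) (C.cons (nat_lit 1538) (C.node (nat_lit 4) (nat_lit 8) (nat_lit 10) C.nil) C.nil)) C.nil)) C.nil)) (C.cons (nat_lit 1042) (C.node (nat_lit 1) (nat_lit 6) (nat_lit 10) (C.cons (nat_lit 1098) (C.node (nat_lit 1) (nat_lit 7) (nat_lit 10) (C.cons (nat_lit 1154) (C.node (nat_lit 1) (nat_lit 9) (nat_lit 10) (C.cons (nat_lit 1538) (C.node (nat_lit 6) (nat_lit 8) (nat_lit 10) C.nil) C.nil)) C.nil)) (C.cons (nat_lit 1090) (C.node (nat_lit 1) (nat_lit 7) (nat_lit 10) (C.cons (nat_lit 1162) (C.node (nat_lit 1) (nat_lit 9) (nat_lit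 10) (C.cons (nat_lit 1538) (C.node (nat_lit 7) (nat_lit 5) (nat_lit 10) C.nil) C.nil)) (C.cons (nat_lit 1154) (C.node (nat_lit 1) (nat_lit 3) (nat_lit 10) (C.cons (nat_lit 1546) (C.node (nat_lit 9) (nat_lit 5) (nat_lit 10) C.nil) (C.cons (nat_lit 1034) (C.node (nat_lit 1) (nat_lit 2) (nat_lit 6) C.nil) C.nil))) C.nil))) C.nil))) C.nil))) (C.cons (nat_lit 1312) (C.node (nat_lit 3) (nat_lit 4) (nat_lit 9) (C.cons (nat_lit 792) (C.node (nat_lit 4) (nat_lit 8) (nat_lit 10) (C.cons (nat_lit 1298) (C.miq (nat_lit 950178832) (nat_lit 1552271617740377031738589715)) (C.cons (nat_lit 1296) (C.node (nat_lit 2) (nat_lit 3) (nat_lit 4) (C.cons (nat_lit 62) (C.miq (nat_lit 444866707) (nat_lit 1566769006208900932084171341)) (C.cons (nat_lit 60) (C.miq (nat_lit 2485617488) (nat_lit 178956457721259153168859433)) (C.cons (nat_lit 30) (C.miq (nat_lit 444866707) (nat_lit 1566768415913090573378519629)) (C.cons (nat_lit 28) (C.node (nat_lit 1) (nat_lit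 2) (nat_lit 4) (C.cons (nat_lit 54) (C.node (nat_lit 1) (nat_lit 9) (nat_lit 10) (C.cons (nat_lit 1578) (C.miq (nat_lit 323135872) (nat_lit 33868941986520526321158017)) (C.cons (nat_lit 1570) (C.miq (nat_lit 1418269194) (nat_lit 957498210538182868937540615)) (C.cons (nat_lit 1546) (C.miq (nat_lit 323135872) (nat_lit 33868941977513327066417025)) C.nil)))) (C.cons (nat_lit 22) (C.node (nat_lit 2) (nat_lit 4) (nat_lit 5) C.nil) C.nil))) C.nil))))) C.nil))) (C.cons (nat_lit 568) (C.node (nat_lit 2) (nat_lit 3) (nat_lit 4) (C.cons (nat_lit 30) (C.node (nat_lit 2) (nat_lit 3) (nat_lit 5) (C.cons (nat_lit 44) (C.node (nat_lit 2) (nat_lit 4) (nat_lit 5) (C.cons (nat_lit 52) (C.node (nat_lit 1) (nat_lit 4) (nat_lit 10) (C.cons (nat_lit 1298) (C.miq (nat_lit 2218369312) (nat_lit 686705302101829615939814407)) (C.cons (nat_lit 1042) (C.node (nat_lit 3) (nat_lit 9) (nat_lit 10) (C.cons (nat_lit 1546) (C.miq (nat_lit 2316568882) (nat_lit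 1259705814327272087872209485)) C.nil)) C.nil))) C.nil)) C.nil)) (C.cons (nat_lit 28) (C.node (nat_lit 1) (nat_lit 2) (nat_lit 4) (C.cons (nat_lit 54) (C.node (nat_lit 2) (nat_lit 3) (nat_lit 5) (C.cons (nat_lit 44) (C.node (nat_lit 1) (nat_lit 2) (nat_lit 9) (C.cons (nat_lit 774) (C.miq (nat_lit 2186973504) (nat_lit 1281496805204734385213997587)) (C.cons (nat_lit 518) (C.node (nat_lit 1) (nat_lit 2) (nat_lit 6) C.nil) C.nil))) C.nil)) (C.cons (nat_lit 22) (C.node (nat_lit 2) (nat_lit 4) (nat_lit 5) (C.cons (nat_lit 52) (C.node (nat_lit 4) (nat_lit 7) (nat_lit 9) C.nil) C.nil)) C.nil))) C.nil))) (C.cons (nat_lit 536) (C.node (nat_lit 3) (nat_lit 8) (nat_lit 9) (C.cons (nat_lit 778) (C.node (nat_lit 1) (nat_lit 2) (nat_lit 9) (C.cons (nat_lit 550) (C.node (nat_lit 1) (nat_lit 6) (nat_lit 9) (C.cons (nat_lit 578) (C.node (nat_lit 1) (nat_lit 7) (nat_lit 9) (C.cons (nat_lit 642) (C.node (nat_lit 1) (nat_lit 9) (nat_lit 10) (C.cons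 (nat_lit 1538) (C.node (nat_lit 2) (nat_lit 8) (nat_lit 9) (C.cons (nat_lit 772) (C.node (nat_lit 3) (nat_lit 9) (nat_lit 10) C.nil) C.nil)) C.nil)) C.nil)) C.nil)) (C.cons (nat_lit 518) (C.node (nat_lit 1) (nat_lit 6) (nat_lit 9) (C.cons (nat_lit 610) (C.node (nat_lit 1) (nat_lit 7) (nat_lit 9) (C.cons (nat_lit 642) (C.node (nat_lit 1) (nat_lit 9) (nat_lit 10) (C.cons (nat_lit 1538) (C.node (nat_lit 3) (nat_lit 9) (nat_lit 10)
  (C.cons (nat_lit 1576) (C.node (nat_lit 1) (nat_lit 5) (nat_lit 10) C.nil) C.nil)) C.nil)) C.nil)) (C.cons (nat_lit 578) (C.node (nat_lit 1) (nat_lit 7) (nat_lit 9) (C.cons (nat_lit 674) (C.node (nat_lit 1) (nat_lit 9) (nat_lit 10) (C.cons (nat_lit 1538) (C.node (nat_lit 3) (nat_lit 7) (nat_lit 9) (C.cons (nat_lit 648) (C.node (nat_lit 3) (nat_lit 9) (nat_lit 10) C.nil) C.nil)) C.nil)) (C.cons (nat_lit 642) (C.node (nat_lit 1) (nat_lit 5) (nat_lit 9) (C.cons (nat_lit 1570) (C.node (nat_lit 3) (nat_lit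 9) (nat_lit 10) (C.cons (nat_lit 1544) (C.node (nat_lit 1) (nat_lit 7) (nat_lit 10) (C.cons (nat_lit 1162) (C.node (nat_lit 3) (nat_lit 5) (nat_lit 10) C.nil) C.nil)) C.nil)) (C.cons (nat_lit 546) (C.node (nat_lit 1) (nat_lit 9) (nat_lit 10) (C.cons (nat_lit 1538) (C.node (nat_lit 1) (nat_lit 4) (nat_lit 10) C.nil) C.nil)) C.nil))) C.nil))) C.nil))) C.nil))) (C.cons (nat_lit 776) (C.node (nat_lit 3) (nat_lit 5) (nat_lit 6) (C.cons (nat_lit 232) (C.node (nat_lit 3) (nat_lit 7) (nat_lit 9) (C.cons (nat_lit 650) (C.miq (nat_lit 1402234640) (nat_lit 648005213326758031763112131)) (C.cons (nat_lit 648) (C.node (nat_lit 5) (nat_lit 7) (nat_lit 10) (C.cons (nat_lit 1186) (C.miq (nat_lit 899835664) (nat_lit 1281472233989073628610101443)) (C.cons (nat_lit 1184) (C.node (nat_lit 2) (nat_lit 3) (nat_lit 7) (C.cons (nat_lit 398) (C.miq (nat_lit 441917539) (nat_lit 1431375512518067863635362381)) (C.cons (nat_lit 396) (C.miq (nat_lit 1115031605)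 (nat_lit 236970434670449395373703465)) (C.cons (nat_lit 142) (C.miq (nat_lit 441917539) (nat_lit 1431370790151584993990148685)) (C.cons (nat_lit 140) (C.node (nat_lit 1) (nat_lit 7) (nat_lit 10) (C.cons (nat_lit 1162) (C.node (nat_lit 3) (nat_lit 7) (nat_lit 8) (C.cons (nat_lit 392) (C.node (nat_lit 1) (nat_lit 5) (nat_lit 10) C.nil) C.nil)) C.nil)) C.nil))))) C.nil))) C.nil))) (C.cons (nat_lit 106) (C.node (nat_lit 1) (nat_lit 2) (nat_lit 6) (C.cons (nat_lit 326) (C.node (nat_lit 1) (nat_lit 4) (nat_lit 6) (C.cons (nat_lit 82) (C.node (nat_lit 1) (nat_lit 6) (nat_lit 9) (C.cons (nat_lit 578) (C.node (nat_lit 1) (nat_lit 6) (nat_lit 10) (C.cons (nat_lit 1090) (C.node (nat_lit 2) (nat_lit 5) (nat_lit 6) (C.cons (nat_lit 100) (C.node (nat_lit 3) (nat_lit 6) (nat_lit 10) C.nil) C.nil)) C.nil)) C.nil)) C.nil)) (C.cons (nat_lit 70) (C.node (nat_lit 1) (nat_lit 4) (nat_lit 6) (C.cons (nat_lit 338) (C.node (nat_lit 1) (nat_lit 6)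 (nat_lit 9) (C.cons (nat_lit 578) (C.node (nat_lit 1) (nat_lit 6) (nat_lit 10) (C.cons (nat_lit 1090) (C.node (nat_lit 3) (nat_lit 4) (nat_lit 6) (C.cons (nat_lit 88) (C.node (nat_lit 3) (nat_lit 6) (nat_lit 10) C.nil) C.nil)) C.nil)) C.nil)) (C.cons (nat_lit 82) (C.node (nat_lit 1) (nat_lit 6) (nat_lit 9) (C.cons (nat_lit 834) (C.node (nat_lit 1) (nat_lit 6) (nat_lit 10) (C.cons (nat_lit 1090) (C.node (nat_lit 3) (nat_lit 6) (nat_lit 10) (C.cons (nat_lit 1352) (C.node (nat_lit 3) (nat_lit 4) (nat_lit 6) (C.cons (nat_lit 88) (C.node (nat_lit 3) (nat_lit 6) (nat_lit 7) C.nil) C.nil)) C.nil)) C.nil)) (C.cons (nat_lit 578) (C.node (nat_lit 1) (nat_lit 6) (nat_lit 8) (C.cons (nat_lit 1346) (C.node (nat_lit 3) (nat_lit 6) (nat_lit 10) (C.cons (nat_lit 1096) (C.node (nat_lit 1) (nat_lit 9) (nat_lit 10) C.nil) C.nil)) (C.cons (nat_lit 322) (C.node (nat_lit 1) (nat_lit 6) (nat_lit 10) (C.cons (nat_lit 1090) (C.node (nat_lit 3) (nat_lit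 6) (nat_lit 10) (C.cons (nat_lit 1352) (C.node (nat_lit 1) (nat_lit 8) (nat_lit 10) C.nil) C.nil)) C.nil)) C.nil))) C.nil))) C.nil))) C.nil))) (C.cons (nat_lit 104) (C.node (nat_lit 3) (nat_lit 6) (nat_lit 7) (C.cons (nat_lit 456) (C.node (nat_lit 3) (nat_lit 4) (nat_lit 6) (C.cons (nat_lit 90) (C.miq (nat_lit 2202629648) (nat_lit 648019675637159809653080259)) (C.cons (nat_lit 88) (C.node (nat_lit 1) (nat_lit 3) (nat_lit 6) (C.cons (nat_lit 1098) (C.node (nat_lit 6) (nat_lit 8) (nat_lit 10) (C.cons (nat_lit 1344) (C.node (nat_lit 1) (nat_lit 7) (nat_lit 10) (C.cons (nat_lit 1186) (C.miq (nat_lit 1513255264) (nat_lit 1252450193167362025363144899))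
  (C.cons (nat_lit 1154) (C.node (nat_lit 2) (nat_lit 3) (nat_lit 7) (C.cons (nat_lit 142) (C.miq (nat_lit 1511458354) (nat_lit 1395103439868095994090357325)) (C.cons (nat_lit 140) (C.node (nat_lit 1) (nat_lit 4) (nat_lit 10) C.nil) C.nil))) C.nil))) C.nil)) (C.cons (nat_lit 74) (C.node (nat_lit 3) (nat_lit 6) (nat_lit 10) (C.cons (nat_lit 1096) (C.node (nat_lit 1) (nat_lit 4) (nat_lit 6) (C.cons (nat_lit 338) (C.node (nat_lit 1) (nat_lit 6) (nat_lit 10) (C.cons (nat_lit 1090) (C.node (nat_lit 6) (nat_lit 8) (nat_lit 10) C.nil) C.nil)) (C.cons (nat_lit 82) (C.node (nat_lit 1) (nat_lit 6) (nat_lit 10) (C.cons (nat_lit 1346) (C.node (nat_lit 1) (nat_lit 2) (nat_lit 6) (C.cons (nat_lit 102) (C.miq (nat_lit 1468407969) (nat_lit 551272055358618043917927431)) (C.cons (nat_lit 70) (C.node (nat_lit 1) (nat_lit 4) (nat_lit 10) C.nil) C.nil))) (C.cons (nat_lit 1090) (C.node (nat_lit 6) (nat_lit 8) (nat_lit 10) C.nil) C.nil))) C.nil)))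 C.nil)) C.nil))) C.nil))) (C.cons (nat_lit 200) (C.node (nat_lit 4) (nat_lit 5) (nat_lit 9) (C.cons (nat_lit 816) (C.node (nat_lit 2) (nat_lit 8) (nat_lit 9) (C.cons (nat_lit 774) (C.miq (nat_lit 1479166224) (nat_lit 1552281726562882573451067923)) (C.cons (nat_lit 772) (C.node (nat_lit 1) (nat_lit 2) (nat_lit 9) (C.cons (nat_lit 550) (C.node (nat_lit 4) (nat_lit 5) (nat_lit 7) (C.cons (nat_lit 178) (C.miq (nat_lit 844564756) (nat_lit 199475582754048214914171411)) (C.cons (nat_lit 176) (C.node (nat_lit 4) (nat_lit 6) (nat_lit 9) (C.cons (nat_lit 720) (C.node (nat_lit 5) (nat_lit 6) (nat_lit 9) C.nil) C.nil)) C.nil))) (C.cons (nat_lit 518) (C.node (nat_lit 2) (nat_lit 5) (nat_lit 9) C.nil) C.nil))) C.nil))) (C.cons (nat_lit 688) (C.node (nat_lit 6) (nat_lit 7) (nat_lit 9) (C.cons (nat_lit 704) (C.node (nat_lit 1) (nat_lit 4) (nat_lit 7) (C.cons (nat_lit 402) (C.node (nat_lit 4) (nat_lit 5) (nat_lit 8) (C.cons (nat_lit 304) (C.node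 (nat_lit 4) (nat_lit 6) (nat_lit 7) (C.cons (nat_lit 208) (C.node (nat_lit 1) (nat_lit 2) (nat_lit 7) (C.cons (nat_lit 142) (C.node (nat_lit 1) (nat_lit 7) (nat_lit 9) C.nil) C.nil)) C.nil)) C.nil)) (C.cons (nat_lit 146) (C.node (nat_lit 1) (nat_lit 7) (nat_lit 9) (C.cons (nat_lit 650) (C.node (nat_lit 1) (nat_lit 7) (nat_lit 10) (C.cons (nat_lit 1186) (C.miq (nat_lit 325417226) (nat_lit 125750163261354118369838977)) (C.cons (nat_lit 1154) (C.node (nat_lit 1) (nat_lit 9) (nat_lit 10) (C.cons (nat_lit 1570) (C.miq (nat_lit 832600404) (nat_lit 1246405342557491434718560944)) C.nil)) C.nil))) (C.cons (nat_lit 642) (C.node (nat_lit 3) (nat_lit 7) (nat_lit 9) (C.cons (nat_lit 648) (C.node (nat_lit 4) (nat_lit 5) (nat_lit 8) (C.cons (nat_lit 306) (C.node (nat_lit 1) (nat_lit 2) (nat_lit 4) (C.cons (nat_lit 30) (C.node (nat_lit 1) (nat_lit 4) (nat_lit 6) C.nil) C.nil)) (C.cons (nat_lit 304) (C.node (nat_lit 4) (nat_lit 6) (nat_lit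 9) C.nil) C.nil))) C.nil)) C.nil))) C.nil))) C.nil)) (C.cons (nat_lit 560) (C.node (nat_lit 4) (nat_lit 7) (nat_lit 9) (C.cons (nat_lit 720) (C.node (nat_lit 4) (nat_lit 8) (nat_lit 9) (C.cons (nat_lit 784) (C.node (nat_lit 5) (nat_lit 6) (nat_lit 7) (C.cons (nat_lit 480) (C.node (nat_lit 2) (nat_lit 5) (nat_lit 6) (C.cons (nat_lit 102) (C.miq (nat_lit 2234152464) (nat_lit 1281496805121980948212547779)) (C.cons (nat_lit 100) (C.node (nat_lit 1) (nat_lit 2) (nat_lit 6) (C.cons (nat_lit 326) (C.node (nat_lit 6) (nat_lit 8) (nat_lit 9) C.nil) (C.cons (nat_lit 70) (C.node (nat_lit 2) (nat_lit 6) (nat_lit 8) C.nil) C.nil))) C.nil))) (C.cons (nat_lit 224) (C.node (nat_lit 6) (nat_lit 7) (nat_lit 8) (C.cons (nat_lit 448) (C.node (nat_lit 4) (nat_lit 5) (nat_lit 7) (C.cons (nat_lit 434) (C.miq (nat_lit 910494072) (nat_lit 1374554135750615117065226113)) (C.cons (nat_lit 432) (C.miq (nat_lit 910494072) (nat_lit 1374554135750615117065095041))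 (C.cons (nat_lit 178) (C.node (nat_lit 1) (nat_lit 2) (nat_lit 4) C.nil) (C.cons (nat_lit 176) (C.node (nat_lit 1) (nat_lit 2) (nat_lit 4) C.nil) C.nil))))) C.nil)) C.nil))) C.nil)) (C.cons (nat_lit 656)
  (C.node (nat_lit 4) (nat_lit 6) (nat_lit 7) (C.cons (nat_lit 464) (C.node (nat_lit 4) (nat_lit 6) (nat_lit 9) (C.cons (nat_lit 592) (C.node (nat_lit 4) (nat_lit 8) (nat_lit 9) (C.cons (nat_lit 784) (C.node (nat_lit 1) (nat_lit 2) (nat_lit 7) (C.cons (nat_lit 398) (C.miq (nat_lit 1210738448) (nat_lit 1552281726463801766741213379)) C.nil)) C.nil)) C.nil)) (C.cons (nat_lit 208) (C.node (nat_lit 4) (nat_lit 6) (nat_lit 9) (C.cons (nat_lit 848) (C.node (nat_lit 6) (nat_lit 7) (nat_lit 9) (C.cons (nat_lit 736) (C.miq (nat_lit 610601111) (nat_lit 1374551700692577744446293889)) (C.cons (nat_lit 704) (C.node (nat_lit 1) (nat_lit 2) (nat_lit 7) C.nil) C.nil))) (C.cons (nat_lit 592) (C.node (nat_lit 4) (nat_lit 8) (nat_lit 9) (C.cons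 (nat_lit 784) (C.node (nat_lit 1) (nat_lit 2) (nat_lit 4) (C.cons (nat_lit 62) (C.node (nat_lit 1) (nat_lit 2) (nat_lit 6) C.nil) C.nil)) C.nil)) C.nil))) C.nil))) C.nil))) C.nil)))) C.nil))) C.nil)))) C.nil))) C.nil)))) C.nil))) C.nil)) C.nil))) C.nil)))) C.nil))) List.nil)

theorem ok11_170 : okL par11 (nat_lit 171) c11_170 (nat_lit 170) = true := by decide +kernel


end Pool.Agent.MP_1f1ca1_co

end
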