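import Pool.Agent.Mg.F1f1ca1.G140a50
import Pool.Agent.Mg.F1f1ca1.Gf71bbe
import Pool.Agent.Mg.F1f1ca1.G4ac893
import Pool.Agent.Mg.F1f1ca1.G775d01
import Pool.Agent.Mg.F1f1ca1.G9bbf84
import Pool.Agent.Mg.F1f1ca1.Ge79cd0
import Pool.Agent.Mg.F1f1ca1.G50f259

section

/-! Soundness of the sign trees that refute the forbidden planar patterns. -/

set_option autoImplicit false

namespace Pool.Agent.MP_1f1ca1_co

def Rz (k : ℕ) (ls : List ℕ) (w : ℕ → V3) : Prop :=
  ∀ l ∈ ls, ∀ a < k, ∀ b < k, ∀ c < k, a ≠ b → l.testBit a = true → l.testBit b = true →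
    (det3 (w a) (w b) (w c) = 0 ↔ l.testBit c = true)

def PatBad (p : Pat) : Prop :=
  p.k ≤ 16 ∧ (∀ l ∈ p.ls, l < 2 ^ p.k) ∧ ∀ w : ℕ → V3, ¬ Rz p.k p.ls w

def PosI (w : ℕ → V3) (pos us : ℕ) : Prop :=
  ∀ a < 16, ∀ b < 16, ∀ c < 16, pos.testBit (code a b c) = true →
    0 < det3 (w a) (w b) (w c) ∧ us.testBit a = true ∧ us.testBit b = true ∧ us.testBit c = true

lemma det3_smul (r s t : ℝ) (a b c : V3) : det3 (r • a) (s • b) (t • c) = r * s * t * det3 a b c := by
  simp [det3]; ring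

lemma gp (x a b c d : V3) :
    det3 x a b * det3 x c d + det3 x a c * det3 x d b + det3 x a d * det3 x b c = 0 := by
  simp only [det3]; ring

lemma testBit_or3 (a b c i : ℕ) : (or3 a b c).testBit i = true ↔ a = i ∨ b = i ∨ c = i := by
  simp [or3, Nat.testBit_two_pow, or_assoc]

lemma isN_spec {k : ℕ} {ls : List ℕ} {w : ℕ → V3} (hw : Rz k ls w) {a b c : ℕ} (h : isN k ls a b c = true) :
    a < k ∧ b < k ∧ c < k ∧ a ≠ c ∧ b ≠ c ∧ det3 (w a) (w b) (w c) ≠ 0 := by
  simp only [isN, isN1, band_eq, bor_eq, blt_dec, ne_eq', Bool.and_eq_true, Bool.or_eq_true, decide_eq_true_eq,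
    anyL_spec, bit_eq, bnot_eq, Bool.not_eq_true'] at h
  obtain ⟨ha, hb, hc, hab, hac, hbc, h⟩ := h
  refine ⟨ha, hb, hc, hac, hbc, fun h0 => ?_⟩
  rcases h with ⟨l, hl, h1, h2, h3⟩ | ⟨l, hl, h1, h2, h3⟩ | ⟨l, hl, h1, h2, h3⟩
  · rw [(hw l hl a ha b hb c hc hab h1 h2).1 h0] at h3; simp at h3
  · rw [(hw l hl b hb c hc a ha hbc h1 h2).1 (by rw [det3_rot]; exact h0)] at h3; simp at h3
  · rw [(hw l hl c hc a ha b hb hac.symm h1 h2).1 (by rw [← det3_rot]; exact h0)] at h3; simp at h3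

lemma isZ_spec {k : ℕ} {ls : List ℕ} {w : ℕ → V3} (hw : Rz k ls w) {a b c : ℕ} (ha : a < k) (hb : b < k)
    (hc : c < k) (h : isZ ls a b c = true) : det3 (w a) (w b) (w c) = 0 := by
  simp only [isZ, band_eq, ne_eq', Bool.and_eq_true, decide_eq_true_eq, force_eq, anyL_spec] at h
  obtain ⟨hab, -, -, l, hl, h⟩ := h
  exact (hw l hl a ha b hb c hc hab (sub_spec h (by simp [testBit_or3])) (sub_spec h (by simp [testBit_or3]))).2
    (sub_spec h (by simp [testBit_or3]))

lemma prP_spec {w : ℕ → V3} {pos us : ℕ} (hp : PosI w pos us) {x a b c d : ℕ} (hx : x < 16) (ha : a < 16)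
    (hb : b < 16) (hc : c < 16) (hd : d < 16) (h : prP pos x a b c d = true) :
    0 < det3 (w x) (w a) (w b) * det3 (w x) (w c) (w d) := by
  simp only [prP, bor_eq, band_eq, bit_eq, Bool.or_eq_true, Bool.and_eq_true] at h
  rcases h with ⟨h1, h2⟩ | ⟨h1, h2⟩
  · exact mul_pos (hp x hx a ha b hb h1).1 (hp x hx c hc d hd h2).1
  · have a1 := (hp x hx b hb a ha h1).1
    have a2 := (hp x hx d hd c hc h2).1
    rw [det3_swap23] at a1 a2
    nlinarith

lemma prN_spec {k : ℕ} (hk : k ≤ 16) {ls : List ℕ} {w : ℕ → V3} (hw : Rz k ls w) {pos us : ℕ} (hp : PosI w pos us)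
    {x a b c d : ℕ} (hx : x < k) (ha : a < k) (hb : b < k) (hc : c < k) (hd : d < k)
    (h : prN ls pos x a b c d = true) : 0 ≤ det3 (w x) (w a) (w b) * det3 (w x) (w c) (w d) := by
  simp only [prN, bor_eq, Bool.or_eq_true] at h
  rcases h with h | h | h
  · exact (prP_spec hp (by omega) (by omega) (by omega) (by omega) (by omega) h).le
  · rw [isZ_spec hw hx ha hb h]; simp
  · rw [isZ_spec hw hx hc hd h]; simp

lemma PosI.set {w : ℕ → V3} {pos us : ℕ} (hp : PosI w pos us) {a b c : ℕ} (ha : a < 16) (hb : b < 16) (hc : c < 16)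
    (h : 0 < det3 (w a) (w b) (w c)) {us' : ℕ} (hu : ∀ i, us.testBit i = true → us'.testBit i = true)
    (ua : us'.testBit a = true) (ub : us'.testBit b = true) (uc : us'.testBit c = true) :
    PosI w (setP pos a b c) us' := by
  intro x hx y hy z hz hb'
  simp only [setP, lor_eq, one_eq, Nat.testBit_or, Nat.testBit_two_pow, Bool.or_eq_true, decide_eq_true_eq] at hb'
  rcases hb' with (h1 | h1) | h1 | h1
  · obtain ⟨a1, a2, a3, a4⟩ := hp x hx y hy z hz h1
    exact ⟨a1, hu _ a2, hu _ a3, hu _ a4⟩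
  · simp only [code, Nat.add_eq, Nat.mul_eq] at h1
    obtain ⟨rfl, rfl, rfl⟩ : a = x ∧ b = y ∧ c = z := by omega
    exact ⟨h, ua, ub, uc⟩
  · simp only [code, Nat.add_eq, Nat.mul_eq] at h1
    obtain ⟨rfl, rfl, rfl⟩ : b = x ∧ c = y ∧ a = z := by omega
    exact ⟨by rw [det3_rot]; exact h, ub, uc, ua⟩
  · simp only [code, Nat.add_eq, Nat.mul_eq] at h1
    obtain ⟨rfl, rfl, rfl⟩ : c = x ∧ a = y ∧ b = z := by omega
    exact ⟨by rw [← det3_rot]; exact h, uc, ua, ub⟩

lemma stOK_sound {k : ℕ} (hk : k ≤ 16) {ls : List ℕ} (t : ST) :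
    ∀ (pos us : ℕ) (w : ℕ → V3), Rz k ls w → PosI w pos us → stOK k ls t pos us = true → False := by
  induction t with
  | leaf x a b c d =>
    intro pos us w hw hp h
    have e : stOK k ls (ST.leaf x a b c d) pos us = (band (Nat.blt (Nat.lor (or3 x a b) (or3 x c d)) (one k)) <|
      band (prP pos x a b c d) <| band (prN ls pos x a c d b) (prN ls pos x a d b c)) := rfl
    rw [e] at h
    simp only [band_eq, blt_dec, lor_eq, one_eq, Bool.and_eq_true, decide_eq_true_eq] at h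
    obtain ⟨h0, h1, h2, h3⟩ := h
    have hx : x < k := lt_of_bit h0 (by simp [testBit_or3])
    have ha : a < k := lt_of_bit h0 (by simp [testBit_or3])
    have hb : b < k := lt_of_bit h0 (by simp [testBit_or3])
    have hc : c < k := lt_of_bit h0 (by simp [testBit_or3])
    have hd : d < k := lt_of_bit h0 (by simp [testBit_or3])
    have a1 := prP_spec hp (by omega) (by omega) (by omega) (by omega) (by omega) h1
    have a2 := prN_spec hk hw hp hx ha hc hd hb h2
    have a3 := prN_spec hk hw hp hx ha hd hb hc h3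
    have := gp (w x) (w a) (w b) (w c) (w d)
    linarith
  | flip a b c t ih =>
    intro pos us w hw hp h
    have e : stOK k ls (ST.flip a b c t) pos us = (band (isN k ls a b c) <| band (bnot (bit us c)) <|
      force (setP pos a b c) fun pos' => force (Nat.lor us (or3 a b c)) fun us' => stOK k ls t pos' us') := rfl
    rw [e] at h
    simp only [band_eq, force_eq, bnot_eq, bit_eq, Bool.and_eq_true, Bool.not_eq_true', lor_eq] at h
    obtain ⟨h1, h2, h3⟩ := h
    obtain ⟨ha, hb, hc, hac, hbc, hd⟩ := isN_spec hw h1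
    have hu : ∀ i, us.testBit i = true → (us ||| or3 a b c).testBit i = true := fun i hi => by simp [hi]
    rcases lt_or_gt_of_ne hd with hd | hd
    · set ε : ℕ → ℝ := fun i => if i = c then -1 else 1 with hε
      have hε0 : ∀ i, ε i ≠ 0 := fun i => by simp only [hε]; split_ifs <;> norm_num
      refine ih _ _ (fun i => ε i • w i) ?_ (PosI.set (us := us) ?_ (by omega) (by omega) (by omega) ?_ hu
        (by simp [testBit_or3]) (by simp [testBit_or3]) (by simp [testBit_or3])) h3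
      · intro l hl x hx y hy z hz hxy b1 b2
        rw [det3_smul, ← hw l hl x hx y hy z hz hxy b1 b2]
        simp [hε0]
      · intro x hx y hy z hz hb'
        obtain ⟨a1, a2, a3, a4⟩ := hp x hx y hy z hz hb'
        refine ⟨?_, a2, a3, a4⟩
        have n1 : x ≠ c := fun e => by rw [e, h2] at a2; simp at a2
        have n2 : y ≠ c := fun e => by rw [e, h2] at a3; simp at a3
        have n3 : z ≠ c := fun e => by rw [e, h2] at a4; simp at a4
        rw [det3_smul]; simpa [hε, n1, n2, n3] using a1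
      · rw [det3_smul]; simpa [hε, hac, hbc] using hd
    · exact ih _ _ w hw (hp.set (by omega) (by omega) (by omega) hd hu
        (by simp [testBit_or3]) (by simp [testBit_or3]) (by simp [testBit_or3])) h3
  | br a b c t u iht ihu =>
    intro pos us w hw hp h
    have e : stOK k ls (ST.br a b c t u) pos us = (band (isN k ls a b c) <| force (Nat.lor us (or3 a b c)) fun us' =>
      band (force (setP pos a b c) fun pos' => stOK k ls t pos' us')
        (force (setP pos b a c) fun pos' => stOK k ls u pos' us')) := rfl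
    rw [e] at h
    simp only [band_eq, force_eq, Bool.and_eq_true, lor_eq] at h
    obtain ⟨h1, h2, h3⟩ := h
    obtain ⟨ha, hb, hc, hac, hbc, hd⟩ := isN_spec hw h1
    have hu : ∀ i, us.testBit i = true → (us ||| or3 a b c).testBit i = true := fun i hi => by simp [hi]
    rcases lt_or_gt_of_ne hd with hd | hd
    · exact ihu _ _ w hw (hp.set (by omega) (by omega) (by omega) (by rw [det3_swap12]; linarith) hu
        (by simp [testBit_or3]) (by simp [testBit_or3]) (by simp [testBit_or3])) h3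
    · exact iht _ _ w hw (hp.set (by omega) (by omega) (by omega) hd hu
        (by simp [testBit_or3]) (by simp [testBit_or3]) (by simp [testBit_or3])) h2

theorem patV_sound {p : Pat} {t : ST} (h : patV p t = true) : PatBad p := by
  simp only [patV, band_eq, ble_dec, Bool.and_eq_true, decide_eq_true_eq, allL_spec, blt_dec, one_eq] at h
  exact ⟨h.1, h.2.1, fun w hw => stOK_sound h.1 t 0 0 w hw (fun a _ b _ c _ hb => by simp at hb) h.2.2⟩

end Pool.Agent.MP_1f1ca1_co

end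

section

/-! Soundness of the checker, first part: weights, tables, labelings. -/

set_option autoImplicit false
set_option linter.unusedSectionVars false

namespace Pool.Agent.MP_1f1ca1_co
open Finset

variable {α : Type} [DecidableEq α]

noncomputable def KK (Kn : Finset (Finset α)) (p : α) : ℕ := 16 + ∑ β ∈ Kn.filter (fun β => p ∈ β), dl β.card
noncomputable def WW (Kn : Finset (Finset α)) (p : α) : ℕ := ∑ β ∈ Kn.filter (fun β => p ∈ β), wt β.card

lemma KK_insert {Kn : Finset (Finset α)} {β : Finset α} (h : β ∉ Kn) (p : α) :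
    KK (insert β Kn) p = if p ∈ β then KK Kn p + dl β.card else KK Kn p := by
  unfold KK
  rw [filter_insert]
  split_ifs with hp
  · rw [sum_insert (fun h' => h (mem_filter.1 h').1)]; ring
  · rfl

lemma WW_insert {Kn : Finset (Finset α)} {β : Finset α} (h : β ∉ Kn) (p : α) :
    WW (insert β Kn) p = if p ∈ β then WW Kn p + wt β.card else WW Kn p := by
  unfold WW
  rw [filter_insert]
  split_ifs with hp
  · rw [sum_insert (fun h' => h (mem_filter.1 h').1)]; ring
  · rfl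

lemma tabOK_spec {n off kt mx T rows : ℕ} (h : tabOK n off kt mx T rows = true) {key : ℕ}
    (hk : key < 128 * rows) :
    (∀ s, 3 ≤ s → s ≤ 6 → s ≤ mx + 1 → key + dl s < 128 * rows → tab T key ≤ wt s + tab T (key + dl s)) ∧
    (kt ≤ key → tab T key + 20 * min ((n - 1 + (key - kt)) / 3) ((n - 1) / 2) ≤ off) := by
  have h1 := allLt_spec _ _ h (key / 128) (by omega)
  rw [force_eq] at h1
  have h2 := allLt_spec _ _ h1 (key % 128) (by omega)
  rw [force_eq] at h2
  have e : Nat.add (Nat.mul 128 (key / 128)) (key % 128) = key := Nat.div_add_mod key 128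
  rw [e] at h2
  simp only [tabKey, tabStep, band_eq, bor_eq, ble_dec, blt_dec, Bool.and_eq_true, Bool.or_eq_true,
    decide_eq_true_eq, Nat.add_eq, Nat.mul_eq, mn2_eq, div_eq', Nat.sub_eq, Nat.pred_eq_sub_one] at h2
  obtain ⟨a3, a4, a5, a6, a7⟩ := h2
  refine ⟨fun s h3 h6 hm hs => ?_, fun hkt => a7.resolve_left (by omega)⟩
  interval_cases s
  · exact a3.resolve_left (by omega)
  · exact a4.resolve_left (by omega)
  · exact (a5.resolve_left (by omega)).resolve_left (by omega)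
  · exact (a6.resolve_left (by omega)).resolve_left (by omega)

lemma tab_chain {n off kt mx T rows : ℕ} (h : tabOK n off kt mx T rows = true) (R : Finset (Finset α)) :
    (∀ β ∈ R, 3 ≤ β.card ∧ β.card ≤ 6 ∧ β.card ≤ mx + 1) → ∀ key, key + ∑ β ∈ R, dl β.card < 128 * rows →
      tab T key ≤ ∑ β ∈ R, wt β.card + tab T (key + ∑ β ∈ R, dl β.card) := by
  induction R using Finset.induction_on with
  | empty => simp
  | insert β R hβ ih =>
    intro hR key hk
    rw [sum_insert hβ] at hk ⊢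
    rw [sum_insert hβ]
    obtain ⟨a1, a2, a3⟩ := hR β (mem_insert_self _ _)
    have b1 := (tabOK_spec h (key := key) (by omega)).1 β.card a1 a2 a3 (by omega)
    have b2 := ih (fun γ hγ => hR γ (mem_insert_of_mem hγ)) (key + dl β.card) (by omega)
    rw [← add_assoc]
    omega

structure Ctx (α : Type) [DecidableEq α] where
  Pr : Par
  rows : ℕ
  P : Finset α
  B : Finset (Finset α)
  L : Finset (Finset α)
  p0 : α
  geo : Geo P B L
  card : P.card = Pr.n
  six : ∀ β ∈ B, β.card ≤ 6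
  lim : 60 * (B \ L).card ≤ Pr.lim
  min : ∀ p ∈ P, WW (B \ L) p0 ≤ WW (B \ L) p
  n15 : Pr.n ≤ 15
  full : Pr.full = 2 ^ Pr.n - 1
  kt : Pr.kt = 64 * ((Pr.n - 1) * (Pr.n - 2)) + 19
  hrows : 128 * rows = 64 * ((Pr.n - 1) * (Pr.n - 2)) + 128
  t3 : tabOK Pr.n Pr.off Pr.kt 3 Pr.T3 rows = true
  t4 : tabOK Pr.n Pr.off Pr.kt 4 Pr.T4 rows = true
  t5 : tabOK Pr.n Pr.off Pr.kt 5 Pr.T5 rows = true
  pats : ∀ i, PatBad (Pr.pl.get i)

variable (X : Ctx α)

lemma Ctx.n3 : 3 ≤ X.Pr.n := X.card ▸ X.geo.big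

lemma Ctx.key_facts {p : α} (hp : p ∈ X.P) :
    X.Pr.kt ≤ KK X.B p ∧ KK X.B p < 128 * X.rows ∧ (X.L.filter (fun β => p ∈ β)).card ≤
      Min.min ((X.Pr.n - 1 + (KK X.B p - X.Pr.kt)) / 3) ((X.Pr.n - 1) / 2) := by
  have h1 := X.geo.p1 hp
  have h2 := X.geo.p2 hp
  have h3 := X.geo.p3 hp
  have hn := X.n3
  have hn' := X.n15
  rw [X.card] at h1 h3
  have e1 : (KK X.B p : ℤ) = 16 + (64 * (((X.Pr.n : ℤ) - 1) * (X.Pr.n - 2)) +
      (4 * (X.B.filter (fun β => p ∈ β)).card - ∑ β ∈ X.B.filter (fun β => p ∈ β), (β.card : ℤ))) := by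
    unfold KK
    push_cast
    rw [sum_congr rfl (fun β hβ => dl_int (X.geo.three β (mem_filter.1 hβ).1) (X.six β (mem_filter.1 hβ).1)),
      sum_add_distrib, ← mul_sum, h1, sum_sub_distrib, sum_const, nsmul_eq_mul, mul_comm _ (4 : ℤ)]
  have e2 : 2 * (4 * ((X.B.filter (fun β => p ∈ β)).card : ℤ) - ∑ β ∈ X.B.filter (fun β => p ∈ β), (β.card : ℤ))
      ≤ ((X.Pr.n : ℤ) - 1) * (X.Pr.n - 2) := by
    rw [← h1, mul_comm (4 : ℤ), ← nsmul_eq_mul, ← sum_const, ← sum_sub_distrib, mul_sum]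
    apply sum_le_sum
    intro β hβ
    have a1 : (3 : ℤ) ≤ β.card := by exact_mod_cast X.geo.three β (mem_filter.1 hβ).1
    nlinarith
  have e3 : (((X.Pr.n - 1) * (X.Pr.n - 2) : ℕ) : ℤ) = ((X.Pr.n : ℤ) - 1) * (X.Pr.n - 2) := by
    rw [Nat.cast_mul, Nat.cast_sub (by omega), Nat.cast_sub (by omega)]; rfl
  have e4 : (X.Pr.n - 1) * (X.Pr.n - 2) ≤ 14 * 13 := Nat.mul_le_mul (by omega) (by omega)
  have e5 : 3 * (X.L.filter (fun β => p ∈ β)).card ≤ ∑ β ∈ X.L.filter (fun β => p ∈ β), β.card := by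
    rw [mul_comm, ← smul_eq_mul, ← sum_const]
    exact sum_le_sum fun β hβ => X.geo.three β (X.geo.lsub (mem_filter.1 hβ).1)
  have e6 : 2 * (X.L.filter (fun β => p ∈ β)).card ≤ X.Pr.n - 1 := by
    have a1 := X.geo.l11 (X := {p}) (Y := X.P.erase p) (by simp)
    rw [card_singleton, one_mul, card_erase_of_mem hp, X.card] at a1
    refine le_trans ?_ a1
    rw [card_filter, mul_sum]
    apply sum_le_sum
    intro l hl
    split_ifs with hpl
    · have : l ∩ X.P.erase p = l.erase p := by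
        ext y; simp only [mem_inter, mem_erase]
        exact ⟨fun h => ⟨h.2.1, h.1⟩, fun h => ⟨h.2, h.1, X.geo.sub l (X.geo.lsub hl) h.2⟩⟩
      rw [this, inter_singleton_of_mem hpl, card_singleton, card_erase_of_mem hpl]
      have := X.geo.three l (X.geo.lsub hl)
      omega
    · simp
  have e7 := X.kt
  have e8 := X.hrows
  rw [← e3, ← Nat.cast_sum] at e1 e2
  generalize (X.Pr.n - 1) * (X.Pr.n - 2) = N at *
  refine ⟨by omega, by omega, le_min (by omega) (by omega)⟩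

lemma Ctx.WW_split (p : α) :
    WW X.B p = WW (X.B \ X.L) p + ∑ β ∈ X.L.filter (fun β => p ∈ β), wt β.card := by
  unfold WW
  rw [← sum_union (disjoint_filter_filter sdiff_disjoint), ← filter_union, sdiff_union_of_subset X.geo.lsub]

lemma Ctx.lb {mx T : ℕ} (h : tabOK X.Pr.n X.Pr.off X.Pr.kt mx T X.rows = true) {Kn : Finset (Finset α)}
    (hK : Kn ⊆ X.B) {p : α} (hp : p ∈ X.P) (hm : ∀ β ∈ X.B, p ∈ β → β ∉ Kn → β.card ≤ mx + 1) :
    lb1 T X.Pr.off (KK Kn p) (WW Kn p) ≤ WW (X.B \ X.L) p := by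
  obtain ⟨a1, a2, a3⟩ := X.key_facts hp
  have hs : Kn.filter (fun β => p ∈ β) ⊆ X.B.filter (fun β => p ∈ β) := filter_subset_filter _ hK
  have e1 : KK X.B p = KK Kn p + ∑ β ∈ X.B.filter (fun β => p ∈ β) \ Kn.filter (fun β => p ∈ β), dl β.card := by
    unfold KK; rw [← sum_sdiff hs]; ring
  have e2 : WW X.B p = WW Kn p + ∑ β ∈ X.B.filter (fun β => p ∈ β) \ Kn.filter (fun β => p ∈ β), wt β.card := by
    unfold WW; rw [← sum_sdiff hs]; ring
  have b1 := tab_chain h (X.B.filter (fun β => p ∈ β) \ Kn.filter (fun β => p ∈ β)) (fun β hβ => by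
    rw [mem_sdiff, mem_filter, mem_filter] at hβ
    exact ⟨X.geo.three β hβ.1.1, X.six β hβ.1.1, hm β hβ.1.1 hβ.1.2 (fun h => hβ.2 ⟨h, hβ.1.2⟩)⟩)
    (KK Kn p) (by omega)
  rw [← e1] at b1
  have b2 := (tabOK_spec h a2).2 a1
  have b3 := X.WW_split p
  have b4 : ∑ β ∈ X.L.filter (fun β => p ∈ β), wt β.card ≤ 20 * (X.L.filter (fun β => p ∈ β)).card := by
    rw [mul_comm, ← smul_eq_mul, ← sum_const]
    exact sum_le_sum fun β _ => wt_le _
  simp only [lb1, Nat.add_eq, Nat.sub_eq]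
  omega

lemma Ctx.lbT (mx : ℕ) {Kn : Finset (Finset α)} (hK : Kn ⊆ X.B) {p : α} (hp : p ∈ X.P)
    (hm : ∀ β ∈ X.B, p ∈ β → β ∉ Kn → β.card ≤ mx + 1) :
    lb1 (X.Pr.T mx) X.Pr.off (KK Kn p) (WW Kn p) ≤ WW (X.B \ X.L) p := by
  simp only [Par.T, cnd_eq, ble_dec, beq_dec, decide_eq_true_eq]
  split_ifs with h1 h2
  · exact X.lb X.t5 hK hp (fun β hβ _ _ => X.six β hβ)
  · exact X.lb X.t4 hK hp (h2 ▸ hm)
  · exact X.lb X.t3 hK hp (fun β hβ h3 h4 => (hm β hβ h3 h4).trans (by omega))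

lemma Ctx.lb5 {Kn : Finset (Finset α)} (hK : Kn ⊆ X.B) {p : α} (hp : p ∈ X.P) :
    lb1 X.Pr.T5 X.Pr.off (KK Kn p) (WW Kn p) ≤ WW (X.B \ X.L) p :=
  X.lb X.t5 hK hp (fun β hβ _ _ => X.six β hβ)

lemma Ctx.sum_WW : ∑ p ∈ X.P, WW (X.B \ X.L) p ≤ X.Pr.lim := by
  refine le_trans (le_of_eq ?_) X.lim
  unfold WW
  simp only [sum_filter]
  rw [sum_comm, mul_comm, ← smul_eq_mul, ← sum_const]
  apply sum_congr rfl
  intro β hβ
  have hB := (mem_sdiff.1 hβ).1
  rw [← sum_filter, sum_const, smul_eq_mul, filter_mem_eq_inter, inter_eq_right.2 (X.geo.sub β hB)]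
  exact wt_mul (X.geo.three β hB) (X.six β hB)

structure Lab (z : ℕ → α) : Prop where
  inj : ∀ i < X.Pr.n, ∀ j < X.Pr.n, z i = z j → i = j
  mem : ∀ i < X.Pr.n, z i ∈ X.P
  sur : ∀ p ∈ X.P, ∃ i < X.Pr.n, z i = p
  zero : z 0 = X.p0

def SS (z : ℕ → α) (m : ℕ) : Finset α := (bs m).image z
def Kn (z : ℕ → α) (l : List ℕ) : Finset (Finset α) := l.toFinset.image (SS z)

lemma mem_Kn {z : ℕ → α} {l : List ℕ} {β : Finset α} : β ∈ Kn z l ↔ ∃ m ∈ l, SS z m = β := by
  simp [Kn]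

lemma Kn_cons (z : ℕ → α) (m : ℕ) (l : List ℕ) : Kn z (m :: l) = insert (SS z m) (Kn z l) := by
  simp [Kn]

lemma Ctx.lt16 {m : ℕ} (h : m < 2 ^ X.Pr.n) : m < 2 ^ 16 :=
  h.trans_le (Nat.pow_le_pow_right (by norm_num) (X.n15.trans (by norm_num)))

lemma Ctx.le_full {m : ℕ} : m ≤ X.Pr.full ↔ m < 2 ^ X.Pr.n := by
  rw [X.full]; have : 0 < 2 ^ X.Pr.n := by positivity
  omega

lemma Ctx.bit_full (i : ℕ) : X.Pr.full.testBit i = true ↔ i < X.Pr.n := by
  rw [X.full, Nat.testBit_two_pow_sub_one]; simp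

variable {X} {z : ℕ → α}

lemma Lab.p0 (H : Lab X z) : X.p0 ∈ X.P := H.zero ▸ H.mem 0 (by have := X.n3; omega)

lemma Lab.mem_SS (H : Lab X z) {m i : ℕ} (hm : m < 2 ^ X.Pr.n) (hi : i < X.Pr.n) :
    z i ∈ SS z m ↔ m.testBit i = true := by
  unfold SS
  rw [mem_image]
  constructor
  · rintro ⟨j, hj, e⟩
    rw [mem_bs (X.lt16 hm)] at hj
    rw [← H.inj j (lt_of_bit hm hj) i hi e]; exact hj
  · intro h; exact ⟨i, (mem_bs (X.lt16 hm)).2 h, rfl⟩

lemma Lab.mem_of_bit (H : Lab X z) {m i : ℕ} (hm : m < 2 ^ X.Pr.n) (hi : m.testBit i = true) : z i ∈ SS z m :=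
  (H.mem_SS hm (lt_of_bit hm hi)).2 hi

lemma Lab.ne (H : Lab X z) {i j : ℕ} (hi : i < X.Pr.n) (hj : j < X.Pr.n) (h : i ≠ j) : z i ≠ z j :=
  fun e => h (H.inj i hi j hj e)

lemma Lab.card_SS (H : Lab X z) {m : ℕ} (hm : m < 2 ^ X.Pr.n) : (SS z m).card = (bs m).card := by
  apply card_image_of_injOn
  intro i hi j hj e
  rw [mem_coe, mem_bs (X.lt16 hm)] at hi hj
  exact H.inj i (lt_of_bit hm hi) j (lt_of_bit hm hj) e

lemma Lab.SS_inj (H : Lab X z) {m m' : ℕ} (hm : m < 2 ^ X.Pr.n) (hm' : m' < 2 ^ X.Pr.n)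
    (e : SS z m = SS z m') : m = m' := by
  apply Nat.eq_of_testBit_eq
  intro i
  rw [Bool.eq_iff_iff]
  constructor
  · intro h; exact (H.mem_SS hm' (lt_of_bit hm h)).1 (e ▸ H.mem_of_bit hm h)
  · intro h; exact (H.mem_SS hm (lt_of_bit hm' h)).1 (e ▸ H.mem_of_bit hm' h)

lemma Lab.SS_sur (H : Lab X z) {β : Finset α} (hβ : β ⊆ X.P) : ∃ μ < 2 ^ X.Pr.n, SS z μ = β := by
  refine ⟨Nat.ofBits (fun i : Fin X.Pr.n => decide (z i ∈ β)), Nat.ofBits_lt_two_pow _, ?_⟩
  ext p
  constructor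
  · intro hp
    obtain ⟨i, hi, rfl⟩ := mem_image.1 hp
    have h1 := (mem_filter.1 hi).2
    have h2 := lt_of_bit (Nat.ofBits_lt_two_pow _) h1
    rw [Nat.testBit_ofBits_lt _ _ h2] at h1
    simpa using h1
  · intro hp
    obtain ⟨i, hi, rfl⟩ := H.sur p (hβ hp)
    apply H.mem_of_bit (Nat.ofBits_lt_two_pow _)
    rw [Nat.testBit_ofBits_lt _ _ hi]; simpa using hp

lemma Lab.sum_eq (H : Lab X z) (f : α → ℕ) : ∑ x ∈ range X.Pr.n, f (z x) = ∑ p ∈ X.P, f p := by
  apply sum_nbij z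
  · intro i hi; exact H.mem i (mem_range.1 hi)
  · intro i hi j hj e; exact H.inj i (by simpa using hi) j (by simpa using hj) e
  · intro p hp; obtain ⟨i, hi, e⟩ := H.sur p hp; exact ⟨i, by simpa using hi, e⟩
  · intros; rfl

lemma Ctx.n_mul (X : Ctx α) : X.Pr.n * WW (X.B \ X.L) X.p0 ≤ X.Pr.lim := by
  refine le_trans ?_ X.sum_WW
  rw [← X.card, ← smul_eq_mul, ← sum_const]
  exact sum_le_sum X.min

lemma Lab.inter_SS (H : Lab X z) {m m' : ℕ} (hm : m < 2 ^ X.Pr.n) (hm' : m' < 2 ^ X.Pr.n) :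
    SS z (m &&& m') = SS z m ∩ SS z m' := by
  have h3 : m &&& m' < 2 ^ X.Pr.n := Nat.and_le_left.trans_lt hm
  ext p
  rw [mem_inter]
  constructor
  · intro hp
    obtain ⟨i, hi, rfl⟩ := mem_image.1 hp
    have h1 := (mem_filter.1 hi).2
    rw [Nat.testBit_and, Bool.and_eq_true] at h1
    exact ⟨H.mem_of_bit hm h1.1, H.mem_of_bit hm' h1.2⟩
  · rintro ⟨h1, h2⟩
    obtain ⟨i, hi, rfl⟩ := mem_image.1 h1
    have h4 := (mem_filter.1 hi).2
    apply H.mem_of_bit h3
    rw [Nat.testBit_and, h4, (H.mem_SS hm' (lt_of_bit hm h4)).1 h2]; rfl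

structure Inv0 (X : Ctx α) (z : ℕ → α) (bl : List ℕ) (kn cov : ℕ) (fl : FL) : Prop where
  lt : ∀ m ∈ bl, m < 2 ^ X.Pr.n
  blk : ∀ m ∈ bl, SS z m ∈ X.B
  nd : bl.Nodup
  kn : ∀ u, kn.testBit u = true ↔ u ∈ bl
  cov : ∀ a < 16, ∀ b < 16, ∀ c, (gcov cov a b).testBit c = true ↔
    ∃ m ∈ bl, m.testBit a = true ∧ m.testBit b = true ∧ m.testBit c = true
  fl : fl = mkFL X.Pr.n (fun x => KK (Kn z bl) (z x)) (fun x => WW (Kn z bl) (z x))

lemma Inv0.sub {bl : List ℕ} {kn cov : ℕ} {fl : FL} (I : Inv0 X z bl kn cov fl) : Kn z bl ⊆ X.B := by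
  intro β hβ
  obtain ⟨m, hm, rfl⟩ := mem_Kn.1 hβ
  exact I.blk m hm

lemma Inv0.notMem (H : Lab X z) {bl : List ℕ} {kn cov : ℕ} {fl : FL} (I : Inv0 X z bl kn cov fl) {m : ℕ}
    (hm : m < 2 ^ X.Pr.n) (h : m ∉ bl) : SS z m ∉ Kn z bl := by
  intro hc
  obtain ⟨m', hm', e⟩ := mem_Kn.1 hc
  exact h (H.SS_inj (I.lt m' hm') hm e ▸ hm')

lemma Inv0.KK_step (H : Lab X z) {bl : List ℕ} {kn cov : ℕ} {fl : FL} (I : Inv0 X z bl kn cov fl) {m : ℕ}
    (hm : m < 2 ^ X.Pr.n) (h : m ∉ bl) {x : ℕ} (hx : x < X.Pr.n) :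
    (if m.testBit x = true then KK (Kn z bl) (z x) + dl (bs m).card else KK (Kn z bl) (z x)) =
      KK (Kn z (m :: bl)) (z x) := by
  rw [Kn_cons, KK_insert (I.notMem H hm h), H.card_SS hm]
  simp only [H.mem_SS hm hx]

lemma Inv0.WW_step (H : Lab X z) {bl : List ℕ} {kn cov : ℕ} {fl : FL} (I : Inv0 X z bl kn cov fl) {m : ℕ}
    (hm : m < 2 ^ X.Pr.n) (h : m ∉ bl) {x : ℕ} (hx : x < X.Pr.n) :
    (if m.testBit x = true then WW (Kn z bl) (z x) + wt (bs m).card else WW (Kn z bl) (z x)) =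
      WW (Kn z (m :: bl)) (z x) := by
  rw [Kn_cons, WW_insert (I.notMem H hm h), H.card_SS hm]
  simp only [H.mem_SS hm hx]

lemma addB_eq (st : St) (p : List ℕ) (m s : ℕ) (c : St → Bool) : addB st p m s c =
    upd (dl s) (wt s) st.fl m fun fl' => c ⟨m :: st.bl, st.kn ||| 2 ^ m, st.cov ||| orRow (orRow m 16 p) 256 p,
      fl', st.mx, st.wlow, st.qf, st.ln⟩ := by
  simp only [addB, force_eq, lor_eq, one_eq]

lemma addB_spec (H : Lab X z) {st : St} (I : Inv0 X z st.bl st.kn st.cov st.fl) {m : ℕ} (hm : m < 2 ^ X.Pr.n)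
    (hB : SS z m ∈ X.B) (hn : m ∉ st.bl) {p : List ℕ} (hp : ∀ x, x ∈ p ↔ m.testBit x = true) {c : St → Bool}
    (h : addB st p m (bs m).card c = true) : ∃ kn cov fl, Inv0 X z (m :: st.bl) kn cov fl ∧
      c ⟨m :: st.bl, kn, cov, fl, st.mx, st.wlow, st.qf, st.ln⟩ = true := by
  rw [addB_eq, I.fl, upd_spec] at h
  refine ⟨_, _, _, ⟨?_, ?_, List.nodup_cons.2 ⟨hn, I.nd⟩, ?_, ?_, ?_⟩, h⟩
  · intro u hu
    rcases List.mem_cons.1 hu with rfl | hu
    · exact hm
    · exact I.lt u hu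
  · intro u hu
    rcases List.mem_cons.1 hu with rfl | hu
    · exact hB
    · exact I.blk u hu
  · intro u
    rw [Nat.testBit_or, Bool.or_eq_true, I.kn, Nat.testBit_two_pow, decide_eq_true_eq, List.mem_cons]
    tauto
  · intro a ha b hb c
    have h16 := X.lt16 hm
    have e := I.cov a ha b hb c
    rw [testBit_gcov] at e ⊢
    simp only [Nat.testBit_or, Bool.and_eq_true, Bool.or_eq_true, decide_eq_true_eq, List.mem_cons,
      exists_eq_or_imp] at e ⊢
    rw [← e]
    by_cases hc : c < 16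
    · have r1 := orRow_lt h16 p (k := 16) (fun x hx => lt_of_bit h16 ((hp x).1 hx))
      have r2 := orRow_spec r1 (le_refl (16 * 16)) p a (16 * b + c) (by omega)
      have r3 := orRow_spec h16 le_rfl p b c hc
      rw [r3, hp, hp, ← add_assoc] at r2
      rw [r2]; tauto
    · simp only [hc, and_false, or_false, false_iff, not_and]
      exact fun _ _ h => hc (lt_of_bit h16 h)
  · exact mkFL_congr _ _ _ _ _ (fun x hx => I.KK_step H hm hn hx) (fun x hx => I.WW_step H hm hn hx)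

lemma Inv0.uncov (H : Lab X z) {bl : List ℕ} {kn cov : ℕ} {fl : FL} (I : Inv0 X z bl kn cov fl) {μ : ℕ}
    (hμ : μ < 2 ^ X.Pr.n) (hB : SS z μ ∈ X.B) (hn : μ ∉ bl) (a b c : ℕ) (hab : a ≠ b) (hac : a ≠ c) (hbc : b ≠ c)
    (ha : μ.testBit a = true) (hb : μ.testBit b = true) (hc : μ.testBit c = true) :
    ¬ (gcov cov a b).testBit c = true := by
  rw [I.cov a (lt_of_bit (X.lt16 hμ) ha) b (lt_of_bit (X.lt16 hμ) hb)]
  rintro ⟨m, hm, h1, h2, h3⟩
  have hl := I.lt m hm
  have := X.geo.uniq (I.blk m hm) hB (H.ne (lt_of_bit hμ ha) (lt_of_bit hμ hb) hab)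
    (H.ne (lt_of_bit hμ ha) (lt_of_bit hμ hc) hac) (H.ne (lt_of_bit hμ hb) (lt_of_bit hμ hc) hbc)
    (H.mem_of_bit hl h1) (H.mem_of_bit hl h2) (H.mem_of_bit hl h3) (H.mem_of_bit hμ ha) (H.mem_of_bit hμ hb)
    (H.mem_of_bit hμ hc)
  exact hn (H.SS_inj hl hμ this ▸ hm)

/-- a block through a point whose triples are all covered is known -/
lemma Inv0.known (H : Lab X z) {bl : List ℕ} {kn cov : ℕ} {fl : FL} (I : Inv0 X z bl kn cov fl) {a : ℕ}
    (hc : ∀ b < X.Pr.n, gcov cov a b = X.Pr.full) {μ : ℕ} (hμ : μ < 2 ^ X.Pr.n) (hB : SS z μ ∈ X.B)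
    (ha : μ.testBit a = true) : μ ∈ bl := by
  by_contra hn
  have h3 := X.geo.three _ hB
  rw [H.card_SS hμ] at h3
  have h4 := card_erase_add_one ((mem_bs (X.lt16 hμ)).2 ha)
  obtain ⟨b, hb, c, hc', hbc⟩ := one_lt_card.1 (show 1 < ((bs μ).erase a).card by omega)
  rw [mem_erase, mem_bs (X.lt16 hμ)] at hb hc'
  apply I.uncov H hμ hB hn a b c hb.1.symm hc'.1.symm hbc ha hb.2 hc'.2
  rw [hc b (lt_of_bit hμ hb.2), X.bit_full]
  exact lt_of_bit hμ hc'.2

end Pool.Agent.MP_1f1ca1_co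

end

section

/-! Soundness of the checker, second part: the leaves and the enumerations of lines. -/

set_option autoImplicit false
set_option linter.unusedSectionVars false

namespace Pool.Agent.MP_1f1ca1_co
open Finset

variable {α : Type} [DecidableEq α] {X : Ctx α} {z : ℕ → α}

structure Inv (X : Ctx α) (z : ℕ → α) (st : St) : Prop where
  core : Inv0 X z st.bl st.kn st.cov st.fl
  mx : ∀ β ∈ X.B, X.p0 ∈ β → β ∉ Kn z st.bl → β.card ≤ st.mx + 1
  wl : st.wlow ≤ WW (X.B \ X.L) X.p0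
  ln1 : ∀ m, st.ln.testBit m = true → m < 2 ^ X.Pr.n ∧ SS z m ∈ X.L
  ln2 : st.qf = true → ∀ m < 2 ^ X.Pr.n, m.testBit 0 = true → SS z m ∈ X.L → st.ln.testBit m = true

lemma ovr_false (H : Lab X z) {Kn' : Finset (Finset α)} (hK : Kn' ⊆ X.B) {mx wlow d w m : ℕ} {K W : ℕ → ℕ}
    (hm : ∀ β ∈ X.B, X.p0 ∈ β → β ∉ Kn' → β.card ≤ mx + 1) (hw : wlow ≤ WW (X.B \ X.L) X.p0)
    (h1 : ∀ x < X.Pr.n, (if m.testBit x = true then K x + d else K x) = KK Kn' (z x))
    (h2 : ∀ x < X.Pr.n, (if m.testBit x = true then W x + w else W x) = WW Kn' (z x))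
    (h : ovr (X.Pr.T mx) X.Pr.T5 X.Pr.off wlow X.Pr.lim d w m (mkFL X.Pr.n K W) = true) : False := by
  have hn := X.n3
  have := ovr_spec h (fun x => WW (X.B \ X.L) (z x)) (by simpa only [H.zero] using hw)
    (fun x hx => by simpa only [H.zero] using X.min _ (H.mem x hx))
    (by rw [h1 0 (by omega), h2 0 (by omega), H.zero]; exact X.lbT mx hK H.p0 hm)
    (fun x hx => by rw [h1 x hx, h2 x hx]; exact X.lb5 hK (H.mem x hx))
  rw [H.sum_eq (WW (X.B \ X.L))] at this
  exact absurd X.sum_WW (not_le.2 this)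

lemma kid_spec (H : Lab X z) {st : St} (I : Inv X z st) {μ : ℕ} (hμ : μ < 2 ^ X.Pr.n) (hB : SS z μ ∈ X.B)
    (hn : μ ∉ st.bl) {p : List ℕ} (hp : ∀ x, x ∈ p ↔ μ.testBit x = true) {mns : ℕ} (hs : mns ≤ (bs μ).card)
    {R : ℕ → St → Bool} (h : kid X.Pr st mns R p μ (bs μ).card = true) : ∃ st', Inv X z st' ∧ R μ st' = true := by
  simp only [kid, bor_eq, blt_dec, Bool.or_eq_true, decide_eq_true_eq] at h
  have hmx : ∀ β ∈ X.B, X.p0 ∈ β → β ∉ Kn z (μ :: st.bl) → β.card ≤ st.mx + 1 := fun β hβ h0 h1 =>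
    I.mx β hβ h0 (fun h2 => h1 (by rw [Kn_cons]; exact mem_insert_of_mem h2))
  rcases h with h | h | h
  · omega
  · exfalso
    rw [I.core.fl] at h
    refine ovr_false H (Kn' := Kn z (μ :: st.bl)) ?_ hmx I.wl (fun x hx => I.core.KK_step H hμ hn hx)
      (fun x hx => I.core.WW_step H hμ hn hx) h
    rw [Kn_cons]; exact insert_subset hB I.core.sub
  · obtain ⟨kn, cov, fl, I', h'⟩ := addB_spec H I.core hμ hB hn hp h
    exact ⟨⟨μ :: st.bl, kn, cov, fl, st.mx, st.wlow, st.qf, st.ln⟩, ⟨I', hmx, I.wl, I.ln1, I.ln2⟩, h'⟩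

lemma Inv0.face (H : Lab X z) {bl : List ℕ} {kn cov : ℕ} {fl : FL} (I : Inv0 X z bl kn cov fl) {m a b c d : ℕ}
    (h : face kn m a b c d = true) : m < 2 ^ X.Pr.n ∧ SS z m ∈ X.B ∧
      (z a ∈ SS z m ∧ z b ∈ SS z m ∧ z c ∈ SS z m ∧ z d ∈ SS z m) ∧
      a < X.Pr.n ∧ b < X.Pr.n ∧ c < X.Pr.n ∧ d < X.Pr.n := by
  obtain ⟨h0, h1, h2, h3, h4⟩ := face_spec h
  rw [I.kn] at h0
  have hl := I.lt m h0
  exact ⟨hl, I.blk m h0, ⟨H.mem_of_bit hl h1, H.mem_of_bit hl h2, H.mem_of_bit hl h3, H.mem_of_bit hl h4⟩,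
    lt_of_bit hl h1, lt_of_bit hl h2, lt_of_bit hl h3, lt_of_bit hl h4⟩

lemma miq_sound (H : Lab X z) {st : St} (I : Inv X z st) {h ms : ℕ} (e : miqOK X.Pr.n st.kn h ms = true) :
    False := by
  simp only [miqOK, force_eq, band_eq, Bool.and_eq_true, bnot_eq, bit_eq, Bool.not_eq_true', blt_dec,
    decide_eq_true_eq, ne_eq'] at e
  obtain ⟨f0, f1, f2, f3, f4, f5, g, g', n1, n2, n3, n4, n5, n6, n7, n8, n9, n10, n11⟩ := e
  obtain ⟨-, b0, m0, a1, a2, a3, a4⟩ := I.core.face H f0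
  obtain ⟨-, b1, m1, -, -, c2, c1⟩ := I.core.face H f1
  obtain ⟨-, b2, m2, -, -, c3, -⟩ := I.core.face H f2
  obtain ⟨-, b3, m3, -⟩ := I.core.face H f3
  obtain ⟨-, b4, m4, -⟩ := I.core.face H f4
  obtain ⟨l5, b5, m5, -⟩ := I.core.face H f5
  have := X.geo.miquel b0 b1 b2 b3 b4 b5 m0 m1 m2 m3 m4 ⟨m5.1, m5.2.1, m5.2.2.1⟩ (H.ne a1 a2 n1) (H.ne a2 a3 n2)
    (H.ne a3 a4 n3) (H.ne a4 a1 n4) (H.ne c1 c2 n5) (H.ne c2 c3 n6) (H.ne c1 c3 n7) (H.ne a1 c1 n8)
    (H.ne a2 c2 n9) (H.ne a3 c3 n10) (H.ne a4 g' n11)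
  rw [H.mem_SS l5 g', g] at this
  simp at this

/-- labels `0..n-1` are points, label `n` is the point at infinity -/
def lab (n : ℕ) (z : ℕ → α) (y : ℕ) : Option α := if y = n then none else some (z y)

lemma Lab.lab_ne (H : Lab X z) {i j : ℕ} (hi : i ≤ X.Pr.n) (hj : j ≤ X.Pr.n) (h : i ≠ j) :
    lab X.Pr.n z i ≠ lab X.Pr.n z j := by
  unfold lab
  split_ifs with h1 h2 h2
  · omega
  · simp
  · simp
  · simpa using H.ne (by omega) (by omega) h

lemma lab_lt {n y : ℕ} (z : ℕ → α) (h : y < n) : lab n z y = some (z y) := if_neg h.ne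

lemma lineQ_spec (H : Lab X z) {st : St} (I : Inv X z st) {x m a b c : ℕ}
    (h : lineQ X.Pr.n st.kn st.ln x m a b c = true) : m < 2 ^ X.Pr.n ∧ SS z m ∈ X.B ∧
      (z a ∈ SS z m ∧ z b ∈ SS z m ∧ z c ∈ SS z m) ∧ a < X.Pr.n ∧ b < X.Pr.n ∧ c < X.Pr.n ∧ x ≤ X.Pr.n ∧
      Thru X.L (lab X.Pr.n z x) (SS z m) := by
  simp only [lineQ, band_eq, Bool.and_eq_true, cnd_eq, beq_dec, decide_eq_true_eq, bit_eq] at h
  obtain ⟨l, b0, m0, a1, a2, a3, -⟩ := I.core.face H h.1
  refine ⟨l, b0, ⟨m0.1, m0.2.1, m0.2.2.1⟩, a1, a2, a3, ?_⟩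
  have h2 := h.2
  unfold lab
  split_ifs at h2 ⊢ with hx
  · exact ⟨hx.le, (I.ln1 m h2).2⟩
  · exact ⟨(lt_of_bit l h2).le, H.mem_of_bit l h2⟩

lemma q7_sound (H : Lab X z) {st : St} (I : Inv X z st) {h ms : ℕ} (e : q7OK X.Pr.n st.kn st.ln h ms = true) :
    False := by
  simp only [q7OK, force_eq, band_eq, Bool.and_eq_true, bnot_eq, bit_eq, Bool.not_eq_true', blt_dec,
    decide_eq_true_eq] at e
  obtain ⟨hi, f1, f2, f3, f4, n1, n2, n3, n4, g1, g2, g3⟩ := e
  obtain ⟨inj, -⟩ := injMask_spec h 7 (Nat.testBit_lt_two_pow hi)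
  obtain ⟨l1, b1, m1, ha, hb, hc', hx, t1⟩ := lineQ_spec H I f1
  obtain ⟨l2, b2, m2, -, hb', hc, -, t2⟩ := lineQ_spec H I f2
  obtain ⟨-, b3, m3, ha', -, -, -, t3⟩ := lineQ_spec H I f3
  obtain ⟨-, b4, m4, -, -, -, -, t4⟩ := lineQ_spec H I f4
  obtain ⟨-, k1, r1, -⟩ := I.core.face H g1
  obtain ⟨-, k2, r2, -⟩ := I.core.face H g2
  obtain ⟨-, k3, r3, -⟩ := I.core.face H g3
  refine X.geo.q7 b1 b2 b3 b4 k1 k2 k3 t1 t2 t3 t4 m1 m2 m3 m4 (by rw [H.mem_SS l1 hb', n1]; simp)
    (by rw [H.mem_SS l1 hc, n2]; simp) (by rw [H.mem_SS l1 ha', n3]; simp) (by rw [H.mem_SS l2 hb, n4]; simp)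
    r1 r2 r3 ?_
  rw [← lab_lt z ha, ← lab_lt z ha', ← lab_lt z hb, ← lab_lt z hb', ← lab_lt z hc, ← lab_lt z hc']
  have e : [lab X.Pr.n z (dig h 0), lab X.Pr.n z (dig h 1), lab X.Pr.n z (dig h 2), lab X.Pr.n z (dig h 3),
      lab X.Pr.n z (dig h 4), lab X.Pr.n z (dig h 5), lab X.Pr.n z (dig h 6)] =
      (List.range 7).map (fun i => lab X.Pr.n z (dig h i)) := rfl
  rw [e, List.pairwise_map]
  have hle : ∀ i < 7, dig h i ≤ X.Pr.n := by
    intro i hi; interval_cases i <;> omega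
  refine List.Pairwise.imp_of_mem ?_ (List.nodup_range (n := 7))
  intro i j hi hj hij
  rw [List.mem_range] at hi hj
  exact H.lab_ne (hle i hi) (hle j hj) (fun e => hij (inj i hi j hj e))

lemma patLines_spec {n kn : ℕ} {qf : Bool} {ln e E : ℕ} (ls : List ℕ) : ∀ ms,
    patLines n kn qf ln e E ls ms = true → ∀ l ∈ ls, ∃ m, kn.testBit m = true ∧ m.testBit 0 = true ∧
      pm e 16 l = E &&& (if qf = true ∧ ln.testBit m = true then m ||| 2 ^ n else m) := by
  induction ls with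
  | nil => simp
  | cons l ls ih =>
    intro ms h
    have e1 : patLines n kn qf ln e E (l :: ls) ms = force (Nat.land ms 65535) fun m =>
        band (bit kn m) <| band (bit m 0) <|
        band (Nat.beq (pm e 16 l) (Nat.land E (cnd (band qf (bit ln m)) (Nat.lor m (one n)) m)))
          (patLines n kn qf ln e E ls (Nat.shiftRight ms 16)) := rfl
    rw [e1] at h
    simp only [force_eq, band_eq, bit_eq, Bool.and_eq_true, beq_dec, decide_eq_true_eq, cnd_eq, land_eq, lor_eq,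
      one_eq] at h
    intro l' hl'
    rcases List.mem_cons.1 hl' with rfl | hl'
    · exact ⟨_, h.1, h.2.1, h.2.2.1⟩
    · exact ih _ h.2.2.2 l' hl'

lemma pat_sound (H : Lab X z) {st : St} (I : Inv X z st) {p : Pat} (hp : PatBad p) {e ms : ℕ}
    (h : patOK X.Pr.n st.kn st.qf st.ln p e ms = true) : False := by
  simp only [patOK, force_eq, band_eq, Bool.and_eq_true, blt_dec, one_eq, decide_eq_true_eq, bnot_eq, bit_eq,
    Bool.not_eq_true', bor_eq, Bool.or_eq_true] at h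
  obtain ⟨h1, h2, h3, h4⟩ := h
  obtain ⟨k16, hl, hbad⟩ := hp
  have hn := X.n15
  have hn3 := X.n3
  obtain ⟨inj, hE⟩ := injMask_spec e p.k (Nat.testBit_lt_two_pow
    (h1.trans_le (Nat.pow_le_pow_right (by norm_num) (by omega))))
  obtain ⟨v, hv⟩ := X.geo.vec X.p0 H.p0
  have hb : ∀ i < p.k, (injMask e p.k).testBit (dig e i) = true := fun i hi => (hE _).2 ⟨i, hi, rfl⟩
  have hle : ∀ i < p.k, dig e i ≤ X.Pr.n := fun i hi => Nat.lt_succ_iff.1 (lt_of_bit h1 (hb i hi))
  have h0 : ∀ i < p.k, dig e i ≠ 0 := fun i hi e0 => by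
    have := hb i hi; rw [e0, h2] at this; simp at this
  have hz : ∀ i < p.k, dig e i ≠ X.Pr.n → z (dig e i) ≠ X.p0 := fun i hi hne => by
    rw [← H.zero]; exact H.ne (lt_of_le_of_ne (hle i hi) hne) (by omega) (h0 i hi)
  apply hbad (fun i => v (lab X.Pr.n z (dig e i)))
  intro l hl' a ha b hb' c hc hab b1 b2
  obtain ⟨m, k1, k2, k3⟩ := patLines_spec p.ls ms h4 l hl'
  rw [I.core.kn] at k1
  have hm := I.core.lt m k1
  have key : ∀ i < p.k, (l.testBit i = true ↔ lab X.Pr.n z (dig e i) ∈ Ex X.L X.p0 (SS z m)) := by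
    intro i hi
    have a1 := pm_spec e 16 l ((hl l hl').trans_le (Nat.pow_le_pow_right (by norm_num) k16)) (dig e i)
    have a2 : l.testBit i = true ↔ (pm e 16 l).testBit (dig e i) = true := by
      rw [a1]
      exact ⟨fun h => ⟨i, h, rfl⟩, fun ⟨x, hx, h⟩ => inj x (lt_of_bit (hl l hl') hx) i hi h ▸ hx⟩
    rw [a2, k3, Nat.testBit_and, hb i hi, Bool.true_and]
    unfold lab
    by_cases hy : dig e i = X.Pr.n
    · have hq : st.qf = true := h3.resolve_right (by rw [← hy, hb i hi]; simp)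
      rw [if_pos hy, none_mem_Ex, hy]
      split_ifs with hc
      · simpa using (I.ln1 m hc.2).2
      · rw [Nat.testBit_lt_two_pow hm]
        simp only [Bool.false_eq_true, false_iff]
        exact fun hL => hc ⟨hq, I.ln2 hq m hm k2 hL⟩
    · rw [if_neg hy, some_mem_Ex, H.mem_SS hm (lt_of_le_of_ne (hle i hi) hy)]
      simp only [ne_eq, hz i hi hy, not_false_eq_true, true_and]
      split_ifs with hc
      · rw [Nat.testBit_or, Nat.testBit_two_pow]; simp [Ne.symm hy]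
      · rfl
  rw [key c hc]
  refine hv (SS z m) (I.core.blk m k1) (H.zero ▸ H.mem_of_bit hm k2) _ ((key a ha).1 b1) _ ((key b hb').1 b2)
    (H.lab_ne (hle a ha) (hle b hb') (fun e => hab (inj a ha b hb' e))) _ ?_
  unfold lab
  split_ifs with hy
  · simp
  · exact (some_mem_Qx _ _ _).2 ⟨hz c hc hy, H.mem _ (lt_of_le_of_ne (hle c hc) hy)⟩

lemma qrun_spec {n lim W lam W0 : ℕ} {K : ℕ → ℕ → ℕ → Bool} (isL : ℕ → Prop) [DecidablePred isL]
    (h0 : ∀ m, isL m → m.testBit 0 = true) (hlim : n * W0 ≤ lim) (l : List ℕ) :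
    ∀ used saved cnt ln code pos,
      l.Pairwise (fun m m' => isL m → isL m' → ∀ i, i ≠ 0 → m'.testBit i = true → ¬ m.testBit i = true) →
      (∀ m ∈ l, isL m → ∀ i, i ≠ 0 → m.testBit i = true → ¬ used.testBit i = true) →
      W = W0 + saved + ((l.filter (fun m => decide (isL m))).map (fun m => wt (bits 16 m).length)).sum →
      cnt + (l.filter (fun m => decide (isL m))).length ≤ lam →
      qrun n lim W lam K l used saved cnt ln code pos = true →
      ∃ ln' code', K W0 ln' code' = true ∧ ∀ u, ln'.testBit u = true ↔ ln.testBit u = true ∨ (u ∈ l ∧ isL u) := by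
  induction l with
  | nil =>
    intro used saved cnt ln code pos _ _ hW _ h
    have e : qrun n lim W lam K [] used saved cnt ln code pos =
      bor (Nat.blt lim (Nat.mul n (Nat.sub W saved))) (K (Nat.sub W saved) ln code) := rfl
    have e2 : W - saved = W0 := by simp at hW; omega
    rw [e] at h
    simp only [bor_eq, blt_dec, Nat.mul_eq, Nat.sub_eq, Bool.or_eq_true, decide_eq_true_eq, e2] at h
    exact ⟨ln, code, h.resolve_left (by omega), by simp⟩
  | cons m l ih =>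
    intro used saved cnt ln code pos hP hU hW hc h
    have e : qrun n lim W lam K (m :: l) used saved cnt ln code pos =
      (bor (Nat.blt lim (Nat.mul n (Nat.sub (Nat.sub W saved) (Nat.mul 20 (Nat.sub lam cnt))))) <|
      force (Nat.succ pos) fun pos' =>
      band (qrun n lim W lam K l used saved cnt ln code pos') <|
      bor (bnot (bit m 0)) <| bor (bnot (Nat.ble (Nat.land m used) 1)) <|
        force (Nat.lor m used) fun used' =>
        force (Nat.add saved (wt (len (bits 16 m)))) fun saved' =>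
        force (Nat.succ cnt) fun cnt' =>
        force (Nat.lor ln (one m)) fun ln' =>
        force (Nat.lor code (one pos)) fun code' =>
        qrun n lim W lam K l used' saved' cnt' ln' code' pos') := rfl
    rw [e] at h
    simp only [bor_eq, blt_dec, Nat.mul_eq, Nat.sub_eq, Bool.or_eq_true, decide_eq_true_eq, force_eq, band_eq,
      Bool.and_eq_true, bnot_eq, bit_eq, ble_dec, land_eq, lor_eq, one_eq, len_eq, Nat.add_eq,
      Bool.not_eq_true', decide_eq_false_iff_not] at h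
    have hs : ∀ l' : List ℕ, (l'.map (fun m => wt (bits 16 m).length)).sum ≤ 20 * l'.length := by
      intro l'
      induction l' with
      | nil => simp
      | cons a l' ih' =>
        have := wt_le (bits 16 a).length
        simp only [List.map_cons, List.sum_cons, List.length_cons]; omega
    rcases h with h | ⟨h1, h2⟩
    · exfalso
      have a1 := hs ((m :: l).filter (fun m => decide (isL m)))
      have a2 : W - saved - 20 * (lam - cnt) ≤ W0 := by omega
      have := Nat.mul_le_mul_left n a2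
      omega
    rw [List.pairwise_cons] at hP
    by_cases hm : isL m
    · rw [List.filter_cons_of_pos (by simpa using hm)] at hW hc
      simp only [List.map_cons, List.sum_cons, List.length_cons] at hW hc
      rcases h2 with h2 | h2 | h2
      · rw [h0 m hm] at h2; simp at h2
      · exfalso
        apply h2
        have : m &&& used < 2 ^ 1 := by
          apply Nat.lt_pow_two_of_testBit
          intro i hi
          have := hU m List.mem_cons_self hm i (by omega)
          rw [Nat.testBit_and]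
          cases h3 : m.testBit i
          · rfl
          · simpa using this h3
        omega
      · obtain ⟨ln', code', a1, a2⟩ := ih _ _ _ _ _ _ hP.2 (fun m' hm' hL i hi hb => by
          rw [Nat.testBit_or, Bool.or_eq_true]
          rintro (h | h)
          · exact hP.1 m' hm' hm hL i hi hb h
          · exact hU m' (List.mem_cons_of_mem _ hm') hL i hi hb h) (by omega) (by simp only [Nat.succ_eq_add_one]; omega) h2
        refine ⟨ln', code', a1, fun u => ?_⟩
        rw [a2, Nat.testBit_or, Nat.testBit_two_pow, List.mem_cons, Bool.or_eq_true, decide_eq_true_eq]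
        constructor
        · rintro ((h | rfl) | h)
          · exact Or.inl h
          · exact Or.inr ⟨Or.inl rfl, hm⟩
          · exact Or.inr ⟨Or.inr h.1, h.2⟩
        · rintro (h | ⟨rfl | h, h'⟩)
          · exact Or.inl (Or.inl h)
          · exact Or.inl (Or.inr rfl)
          · exact Or.inr ⟨h, h'⟩
    · rw [List.filter_cons_of_neg (by simpa using hm)] at hW hc
      obtain ⟨ln', code', a1, a2⟩ := ih _ _ _ _ _ _ hP.2 (fun m' hm' => hU m' (List.mem_cons_of_mem _ hm')) hW hc h1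
      refine ⟨ln', code', a1, fun u => ?_⟩
      rw [a2, List.mem_cons]
      constructor
      · rintro (h | h)
        · exact Or.inl h
        · exact Or.inr ⟨Or.inr h.1, h.2⟩
      · rintro (h | ⟨rfl | h, h'⟩)
        · exact Or.inl h
        · exact absurd h' hm
        · exact Or.inr ⟨h, h'⟩

lemma grun_spec {lim tot c0 : ℕ} {K : ℕ → ℕ → Bool} (isL : ℕ → Prop) [DecidablePred isL]
    (hlim : 60 * (tot - c0) ≤ lim) (l : List ℕ) :
    ∀ (ch : List ℕ) cnt ln code pos,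
      l.Pairwise (fun m m' => isL m → isL m' → (bits 16 (m' &&& m)).length ≤ 1) →
      (∀ m ∈ l, isL m → ∀ u ∈ ch, (bits 16 (m &&& u)).length ≤ 1) →
      cnt + (l.filter (fun m => decide (isL m))).length = c0 →
      grun lim tot K l ch cnt ln code pos = true →
      ∃ ln' code', K ln' code' = true ∧ ∀ u, ln'.testBit u = true ↔ ln.testBit u = true ∨ (u ∈ l ∧ isL u) := by
  induction l with
  | nil =>
    intro ch cnt ln code pos _ _ hc h
    have e : grun lim tot K [] ch cnt ln code pos =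
      bor (Nat.blt lim (Nat.mul 60 (Nat.sub tot cnt))) (K ln code) := rfl
    have e2 : cnt = c0 := by simpa using hc
    rw [e] at h
    simp only [bor_eq, blt_dec, Nat.mul_eq, Nat.sub_eq, Bool.or_eq_true, decide_eq_true_eq, e2] at h
    exact ⟨ln, code, h.resolve_left (by omega), by simp⟩
  | cons m l ih =>
    intro ch cnt ln code pos hP hU hc h
    have e : grun lim tot K (m :: l) ch cnt ln code pos =
      (force (Nat.succ pos) fun pos' =>
      band (grun lim tot K l ch cnt ln code pos') <|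
      bor (bnot (allL (fun u => Nat.ble (len (bits 16 (Nat.land m u))) 1) ch)) <|
        force (Nat.succ cnt) fun cnt' =>
        force (Nat.lor ln (one m)) fun ln' =>
        force (Nat.lor code (one pos)) fun code' =>
        grun lim tot K l (m :: ch) cnt' ln' code' pos') := rfl
    rw [e] at h
    simp only [bor_eq, Bool.or_eq_true, force_eq, band_eq, Bool.and_eq_true, bnot_eq, ble_dec, land_eq, lor_eq,
      one_eq, len_eq, Bool.not_eq_true'] at h
    obtain ⟨h1, h2⟩ := h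
    rw [List.pairwise_cons] at hP
    by_cases hm : isL m
    · rw [List.filter_cons_of_pos (by simpa using hm)] at hc
      simp only [List.length_cons] at hc
      rcases h2 with h2 | h2
      · exfalso
        rw [(allL_spec _ ch).2 (fun u hu => by simpa using hU m List.mem_cons_self hm u hu)] at h2
        simp at h2
      · obtain ⟨ln', code', a1, a2⟩ := ih _ _ _ _ _ hP.2 (fun m' hm' hL u hu => by
          rcases List.mem_cons.1 hu with rfl | hu
          · exact hP.1 m' hm' hm hL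
          · exact hU m' (List.mem_cons_of_mem _ hm') hL u hu) (by simp only [Nat.succ_eq_add_one]; omega) h2
        refine ⟨ln', code', a1, fun u => ?_⟩
        rw [a2, Nat.testBit_or, Nat.testBit_two_pow, List.mem_cons, Bool.or_eq_true, decide_eq_true_eq]
        constructor
        · rintro ((h | rfl) | h)
          · exact Or.inl h
          · exact Or.inr ⟨Or.inl rfl, hm⟩
          · exact Or.inr ⟨Or.inr h.1, h.2⟩
        · rintro (h | ⟨rfl | h, h'⟩)
          · exact Or.inl (Or.inl h)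
          · exact Or.inl (Or.inr rfl)
          · exact Or.inr ⟨h, h'⟩
    · rw [List.filter_cons_of_neg (by simpa using hm)] at hc
      obtain ⟨ln', code', a1, a2⟩ := ih _ _ _ _ _ hP.2 (fun m' hm' => hU m' (List.mem_cons_of_mem _ hm')) hc h1
      refine ⟨ln', code', a1, fun u => ?_⟩
      rw [a2, List.mem_cons]
      constructor
      · rintro (h | h)
        · exact Or.inl h
        · exact Or.inr ⟨Or.inr h.1, h.2⟩
      · rintro (h | ⟨rfl | h, h'⟩)
        · exact Or.inl h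
        · exact absurd h' hm
        · exact Or.inr ⟨h, h'⟩

/-- sums over a family of known blocks -/
lemma Inv0.sum_filter (H : Lab X z) {bl : List ℕ} {kn cov : ℕ} {fl : FL} (I : Inv0 X z bl kn cov fl)
    (q : ℕ → Prop) [DecidablePred q] {A : Finset (Finset α)} (hA : ∀ β, β ∈ A ↔ ∃ m ∈ bl, q m ∧ SS z m = β)
    (f : ℕ → ℕ) : ∑ β ∈ A, f β.card = ((bl.filter (fun m => decide (q m))).map (fun m => f (bits 16 m).length)).sum := by
  rw [← List.sum_toFinset _ (I.nd.filter _)]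
  symm
  apply sum_nbij (SS z)
  · intro m hm
    simp only [List.mem_toFinset, List.mem_filter, decide_eq_true_eq] at hm
    exact (hA _).2 ⟨m, hm.1, hm.2, rfl⟩
  · intro m hm m' hm' e
    simp only [mem_coe, List.mem_toFinset, List.mem_filter] at hm hm'
    exact H.SS_inj (I.lt m hm.1) (I.lt m' hm'.1) e
  · intro β hβ
    obtain ⟨m, h1, h2, h3⟩ := (hA β).1 hβ
    exact ⟨m, by simp [h1, h2], h3⟩
  · intro m hm
    simp only [List.mem_toFinset, List.mem_filter] at hm
    rw [len_bits (X.lt16 (I.lt m hm.1)), H.card_SS (I.lt m hm.1)]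

lemma Inv0.card_filter (H : Lab X z) {bl : List ℕ} {kn cov : ℕ} {fl : FL} (I : Inv0 X z bl kn cov fl)
    (q : ℕ → Prop) [DecidablePred q] {A : Finset (Finset α)} (hA : ∀ β, β ∈ A ↔ ∃ m ∈ bl, q m ∧ SS z m = β) :
    A.card = (bl.filter (fun m => decide (q m))).length := by
  have := I.sum_filter H q hA (fun _ => 1)
  simpa using this

end Pool.Agent.MP_1f1ca1_co

end

section

/-! Soundness of the checker, third part: the search tree. -/

set_option autoImplicit false
set_option linter.unusedSectionVars false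

namespace Pool.Agent.MP_1f1ca1_co
open Finset

variable {α : Type} [DecidableEq α] {X : Ctx α} {z : ℕ → α}

/-- the stored state number `j` cannot occur -/
def Ref (X : Ctx α) (j : ℕ) : Prop :=
  (∀ m ∈ (X.Pr.hd.get j).l, m < 2 ^ X.Pr.n) ∧
  ∀ z, Lab X z → (∀ m ∈ (X.Pr.hd.get j).l, SS z m ∈ X.B) →
    (∀ β ∈ X.B, X.p0 ∈ β → β ∉ Kn z (X.Pr.hd.get j).l → β.card ≤ (X.Pr.hd.get j).mx + 1) →
    (X.Pr.hd.get j).wlow ≤ WW (X.B \ X.L) X.p0 → False

lemma mkFL_pos {n : ℕ} (h : 0 < n) (K W : ℕ → ℕ) : ∃ r, mkFL n K W = FL.cons (K 0) (W 0) r := by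
  cases n with
  | zero => omega
  | succ n => exact ⟨_, rfl⟩

lemma node_sound (H : Lab X z) {st : St} (I : Inv X z st) {a b c : ℕ} {R : ℕ → St → Bool}
    (hab : a ≠ b) (hac : a ≠ c) (hbc : b ≠ c) (hm : 2 ^ a ||| 2 ^ b ||| 2 ^ c ≤ X.Pr.full)
    (hcov : (gcov st.cov a b).testBit c = false)
    (h : ext st.cov (if a = 0 then st.mx + 1 else 6) (kid X.Pr st 3 R) 16 [c, b, a] (2 ^ a ||| 2 ^ b ||| 2 ^ c) 3
      (X.Pr.full ^^^ (X.Pr.full &&& ((2 ^ a ||| 2 ^ b ||| 2 ^ c) ||| gcov st.cov a b |||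
        (gcov st.cov a c ||| gcov st.cov b c)))) = true) : ∃ μ st', Inv X z st' ∧ R μ st' = true := by
  rw [X.le_full] at hm
  have hb : ∀ x, (2 ^ a ||| 2 ^ b ||| 2 ^ c).testBit x = true ↔ x = c ∨ x = b ∨ x = a := by
    intro x
    simp only [Nat.testBit_or, Nat.testBit_two_pow, Bool.or_eq_true, decide_eq_true_eq]
    omega
  have ha' : a < X.Pr.n := lt_of_bit hm ((hb a).2 (by simp))
  have hb' : b < X.Pr.n := lt_of_bit hm ((hb b).2 (by simp))
  have hc' : c < X.Pr.n := lt_of_bit hm ((hb c).2 (by simp))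
  have hn := X.n15
  obtain ⟨β, hβ, m1, m2, m3⟩ := X.geo.ex _ (H.mem a ha') _ (H.mem b hb') _ (H.mem c hc') (H.ne ha' hb' hab)
    (H.ne ha' hc' hac) (H.ne hb' hc' hbc)
  obtain ⟨μ, hμ, rfl⟩ := H.SS_sur (X.geo.sub β hβ)
  rw [H.mem_SS hμ ha'] at m1
  rw [H.mem_SS hμ hb'] at m2
  rw [H.mem_SS hμ hc'] at m3
  have hnm : μ ∉ st.bl := fun hc => by
    rw [(I.core.cov a (by omega) b (by omega) c).2 ⟨μ, hc, m1, m2, m3⟩] at hcov; simp at hcov
  have U := I.core.uncov H hμ hβ hnm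
  have hf : X.Pr.full < 2 ^ 16 := X.lt16 (X.le_full.1 le_rfl)
  have hcand : ∀ Y x, (X.Pr.full ^^^ (X.Pr.full &&& Y)).testBit x = true ↔ x < X.Pr.n ∧ ¬ Y.testBit x = true := by
    intro Y x
    rw [Nat.testBit_xor, Nat.testBit_and, ← X.bit_full]
    cases X.Pr.full.testBit x <;> cases Y.testBit x <;> simp
  obtain ⟨p, hp, hk⟩ := ext_spec (X.lt16 hμ) (by
      rw [← H.card_SS hμ]
      split_ifs with h0
      · subst h0
        exact I.mx _ hβ (H.zero ▸ H.mem_of_bit hμ m1) (I.core.notMem H hμ hnm)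
      · exact X.six _ hβ) U 16 _ _ _ _ (Nat.xor_lt_two_pow hf (Nat.and_le_left.trans_lt hf))
    (Nat.xor_lt_two_pow hf (Nat.and_le_left.trans_lt hf)) (fun x => by rw [hb]; simp) (by
      have : bs (2 ^ a ||| 2 ^ b ||| 2 ^ c) = {c, b, a} := by
        ext x; rw [mem_bs (X.lt16 hm), hb]; simp
      rw [this, card_eq_three.2 ⟨c, b, a, hbc.symm, hac.symm, hab.symm, rfl⟩])
    (fun x hx => by rcases (hb x).1 hx with rfl | rfl | rfl <;> assumption)
    (fun x hx => by
      rw [hb, hcand]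
      by_cases e : x = c ∨ x = b ∨ x = a
      · exact Or.inl e
      · refine Or.inr ⟨lt_of_bit hμ hx, ?_⟩
        simp only [Nat.testBit_or (2 ^ a ||| 2 ^ b ||| 2 ^ c ||| gcov st.cov a b),
          Nat.testBit_or (2 ^ a ||| 2 ^ b ||| 2 ^ c), Nat.testBit_or (gcov st.cov a c), Bool.or_eq_true, hb]
        push Not at e
        rintro ((h | h) | h | h)
        · tauto
        · exact U a b x hab (Ne.symm e.2.2) (Ne.symm e.2.1) m1 m2 hx h
        · exact U a c x hac (Ne.symm e.2.2) (Ne.symm e.1) m1 m3 hx h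
        · exact U b c x hbc (Ne.symm e.2.1) (Ne.symm e.1) m2 m3 hx h)
    (fun x hx h => ((hcand _ x).1 hx).2 (by
      simp only [Nat.testBit_or (2 ^ a ||| 2 ^ b ||| 2 ^ c ||| gcov st.cov a b),
        Nat.testBit_or (2 ^ a ||| 2 ^ b ||| 2 ^ c), h, Bool.true_or])) h
  exact ⟨μ, kid_spec H I hμ hβ hnm hp (by rw [← H.card_SS hμ]; exact X.geo.three _ hβ) hk⟩

lemma big_sound (H : Lab X z) {st : St} (I : Inv X z st) {R : ℕ → St → Bool} (h4 : 4 ≤ st.mx)
    (h : ext st.cov (st.mx + 1) (kid X.Pr st (st.mx + 1) R) 16 [0] 1 1 (X.Pr.full ^^^ 1) = true) :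
    (∃ μ st', Inv X z st' ∧ R μ st' = true) ∨
      Inv X z ⟨st.bl, st.kn, st.cov, st.fl, st.mx - 1, st.wlow, st.qf, st.ln⟩ := by
  by_cases hex : ∃ β ∈ X.B, X.p0 ∈ β ∧ β ∉ Kn z st.bl ∧ β.card = st.mx + 1
  · left
    obtain ⟨β, hβ, h0, h1, h2⟩ := hex
    obtain ⟨μ, hμ, rfl⟩ := H.SS_sur (X.geo.sub β hβ)
    have hn := X.n3
    rw [← H.zero, H.mem_SS hμ (by omega)] at h0
    have hnm : μ ∉ st.bl := fun hc => h1 (mem_Kn.2 ⟨μ, hc, rfl⟩)
    have hf : X.Pr.full < 2 ^ 16 := X.lt16 (X.le_full.1 le_rfl)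
    have hb : ∀ x, Nat.testBit 1 x = true ↔ x = 0 := fun x => Nat.testBit_one_eq_true_iff_self_eq_zero
    have hcand : ∀ x, (X.Pr.full ^^^ 1).testBit x = true ↔ x < X.Pr.n ∧ x ≠ 0 := by
      intro x
      rw [Nat.testBit_xor]
      by_cases e : x = 0
      · subst e; rw [(X.bit_full 0).2 (by omega)]; simp
      · have : Nat.testBit 1 x = false := by simpa using fun h => e ((hb x).1 h)
        rw [this, Bool.xor_false, X.bit_full]; simp [e]
    rw [H.card_SS hμ] at h2
    obtain ⟨p, hp, hk⟩ := ext_spec (X.lt16 hμ) h2.le (I.core.uncov H hμ hβ hnm) 16 _ _ _ _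
      (Nat.xor_lt_two_pow hf (by norm_num)) (Nat.xor_lt_two_pow hf (by norm_num)) (fun x => by rw [hb]; simp)
      (by decide) (fun x hx => by rw [(hb x).1 hx]; exact h0)
      (fun x hx => by
        rw [hb, hcand]
        by_cases e : x = 0
        · exact Or.inl e
        · exact Or.inr ⟨lt_of_bit hμ hx, e⟩)
      (fun x hx h => ((hcand x).1 hx).2 ((hb x).1 h)) h
    exact ⟨μ, kid_spec H I hμ hβ hnm hp h2.ge hk⟩
  · right
    refine ⟨I.core, fun β hβ h0 h1 => ?_, I.wl, I.ln1, I.ln2⟩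
    have := I.mx β hβ h0 h1
    have h2 : β.card ≠ st.mx + 1 := fun e => hex ⟨β, hβ, h0, h1, e⟩
    show β.card ≤ st.mx - 1 + 1
    omega

lemma ref_sound (H : Lab X z) {st : St} (I : Inv X z st) {j s : ℕ} (hR : Ref X j) (h0 : dig s 0 = 0)
    (h1 : pm s 16 X.Pr.full = X.Pr.full) (h2 : st.mx ≤ (X.Pr.hd.get j).mx)
    (h3 : (X.Pr.hd.get j).wlow ≤ head0 (X.Pr.T st.mx) X.Pr.off st.wlow st.fl)
    (h4 : knOf s (X.Pr.hd.get j).l = st.kn) : False := by
  have hf : X.Pr.full < 2 ^ 16 := X.lt16 (X.le_full.1 le_rfl)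
  have a1 : ∀ y, y < X.Pr.n ↔ ∃ x < X.Pr.n, dig s x = y := by
    intro y
    have := pm_spec s 16 _ hf y
    rw [h1] at this
    simpa only [X.bit_full] using this
  have a2 : ∀ i < X.Pr.n, dig s i < X.Pr.n := fun i hi => (a1 _).2 ⟨i, hi, rfl⟩
  have a3 : Set.InjOn (dig s) (range X.Pr.n) := by
    apply card_image_iff.1
    congr 1
    ext y; simp only [mem_image, mem_range]; exact (a1 y).symm
  have H' : Lab X (fun i => z (dig s i)) := by
    refine ⟨fun i hi j hj e => a3 (by simpa using hi) (by simpa using hj) (H.inj _ (a2 i hi) _ (a2 j hj) e),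
      fun i hi => H.mem _ (a2 i hi), fun p hp => ?_, by simp only [h0, H.zero]⟩
    obtain ⟨y, hy, rfl⟩ := H.sur p hp
    obtain ⟨x, hx, rfl⟩ := (a1 y).1 hy
    exact ⟨x, hx, rfl⟩
  have a4 : ∀ m < 2 ^ X.Pr.n, SS (fun i => z (dig s i)) m = SS z (pm s 16 m) := by
    intro m hm
    ext p
    simp only [SS, mem_image, bs, mem_filter, mem_range, pm_spec s 16 m (X.lt16 hm)]
    constructor
    · rintro ⟨i, ⟨-, hi⟩, rfl⟩
      exact ⟨_, ⟨dig_lt s i, i, hi, rfl⟩, rfl⟩
    · rintro ⟨_, ⟨-, i, hi, rfl⟩, rfl⟩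
      exact ⟨i, ⟨lt_of_bit (X.lt16 hm) hi, hi⟩, rfl⟩
  have a5 : ∀ u, u ∈ st.bl ↔ ∃ m ∈ (X.Pr.hd.get j).l, pm s 16 m = u := fun u => by
    rw [← I.core.kn, ← h4, knOf_spec]
  refine hR.2 _ H' (fun m hm => ?_) (fun β hβ b0 b1 => ?_) ?_
  · rw [a4 m (hR.1 m hm)]
    exact I.core.blk _ ((a5 _).2 ⟨m, hm, rfl⟩)
  · refine (I.mx β hβ b0 (fun hc => b1 ?_)).trans (by omega)
    obtain ⟨u, hu, rfl⟩ := mem_Kn.1 hc
    obtain ⟨m, hm, rfl⟩ := (a5 u).1 hu
    exact mem_Kn.2 ⟨m, hm, a4 m (hR.1 m hm)⟩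
  · refine h3.trans ?_
    obtain ⟨r, hr⟩ := mkFL_pos (n := X.Pr.n) (by have := X.n3; omega) (fun x => KK (Kn z st.bl) (z x))
      (fun x => WW (Kn z st.bl) (z x))
    rw [I.core.fl, hr]
    show mx2 _ _ ≤ _
    rw [mx2_eq, H.zero]
    exact max_le I.wl (X.lbT st.mx I.core.sub H.p0 I.mx)

lemma qs_sound (H : Lab X z) {st : St} (I : Inv X z st) {K : ℕ → St → Bool}
    (hc : ∀ b < X.Pr.n, gcov st.cov 0 b = X.Pr.full)
    (h : qrun X.Pr.n X.Pr.lim (WW (Kn z st.bl) X.p0)
      (min ((X.Pr.n - 1 + (KK (Kn z st.bl) X.p0 - X.Pr.kt)) / 3) ((X.Pr.n - 1) / 2))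
      (fun W ln code => K code ⟨st.bl, st.kn, st.cov, st.fl, st.mx, W, true, ln⟩) st.bl 0 0 0 0 0 0 = true) :
    ∃ code st', Inv X z st' ∧ K code st' = true := by
  classical
  have hn := X.n3
  have kn0 : ∀ β ∈ X.B, X.p0 ∈ β → ∃ μ ∈ st.bl, μ.testBit 0 = true ∧ SS z μ = β := by
    intro β hβ h0
    obtain ⟨μ, hμ, rfl⟩ := H.SS_sur (X.geo.sub β hβ)
    rw [← H.zero, H.mem_SS hμ (by omega)] at h0
    exact ⟨μ, I.core.known H hc hμ hβ h0, h0, rfl⟩
  have e1 : (Kn z st.bl).filter (fun β => X.p0 ∈ β) = X.B.filter (fun β => X.p0 ∈ β) := by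
    ext β
    simp only [mem_filter]
    refine ⟨fun h => ⟨I.core.sub h.1, h.2⟩, fun h => ⟨?_, h.2⟩⟩
    obtain ⟨μ, h1, -, h2⟩ := kn0 β h.1 h.2
    exact mem_Kn.2 ⟨μ, h1, h2⟩
  have e2 : KK (Kn z st.bl) X.p0 = KK X.B X.p0 := by unfold KK; rw [e1]
  have e3 : WW (Kn z st.bl) X.p0 = WW X.B X.p0 := by unfold WW; rw [e1]
  have hA : ∀ β, β ∈ X.L.filter (fun β => X.p0 ∈ β) ↔
      ∃ m ∈ st.bl, (m.testBit 0 = true ∧ SS z m ∈ X.L) ∧ SS z m = β := by
    intro β
    rw [mem_filter]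
    constructor
    · rintro ⟨h1, h2⟩
      obtain ⟨μ, a1, a2, rfl⟩ := kn0 β (X.geo.lsub h1) h2
      exact ⟨μ, a1, ⟨a2, h1⟩, rfl⟩
    · rintro ⟨m, a1, ⟨a2, a3⟩, rfl⟩
      exact ⟨a3, H.zero ▸ H.mem_of_bit (I.core.lt m a1) a2⟩
  rw [e2, e3] at h
  obtain ⟨ln, code, a1, a2⟩ := qrun_spec (W0 := WW (X.B \ X.L) X.p0)
    (fun m => m.testBit 0 = true ∧ SS z m ∈ X.L) (fun m hm => hm.1) X.n_mul st.bl 0 0 0 0 0 0
    (List.Pairwise.imp_of_mem (fun {m m'} hm hm' hne h1 h2 i hi b1 b2 => hne (H.SS_inj (I.core.lt m hm)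
      (I.core.lt m' hm') (X.geo.luniq h1.2 h2.2 (H.ne (by omega) (lt_of_bit (I.core.lt m hm) b2) hi.symm)
        (H.mem_of_bit (I.core.lt m hm) h1.1) (H.mem_of_bit (I.core.lt m hm) b2)
        (H.mem_of_bit (I.core.lt m' hm') h2.1) (H.mem_of_bit (I.core.lt m' hm') b1)))) I.core.nd)
    (by simp) (by rw [← I.core.sum_filter H _ hA wt, X.WW_split, add_zero])
    (by rw [← I.core.card_filter H _ hA, zero_add]; exact (X.key_facts H.p0).2.2) h
  refine ⟨code, ⟨st.bl, st.kn, st.cov, st.fl, st.mx, WW (X.B \ X.L) X.p0, true, ln⟩,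
    ⟨I.core, I.mx, le_rfl, fun m hm => ?_, fun _ m hm b1 b2 => ?_⟩, a1⟩
  · have := ((a2 m).1 hm).resolve_left (by simp)
    exact ⟨I.core.lt m this.1, this.2.2⟩
  · exact (a2 m).2 (Or.inr ⟨I.core.known H hc hm (X.geo.lsub b2) b1, b1, b2⟩)

lemma gl_sound (H : Lab X z) {st : St} (I : Inv X z st) {K : ℕ → St → Bool}
    (hc : ∀ a < X.Pr.n, ∀ b < X.Pr.n, gcov st.cov a b = X.Pr.full)
    (h : grun X.Pr.lim st.bl.length
      (fun ln code => K code ⟨st.bl, st.kn, st.cov, st.fl, st.mx, st.wlow, true, ln⟩) st.bl [] 0 0 0 0 = true) :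
    ∃ code st', Inv X z st' ∧ K code st' = true := by
  classical
  have kn0 : ∀ μ < 2 ^ X.Pr.n, SS z μ ∈ X.B → μ ∈ st.bl := by
    intro μ hμ hβ
    have h3 := X.geo.three _ hβ
    rw [H.card_SS hμ] at h3
    obtain ⟨a, ha⟩ := card_pos.1 (show 0 < (bs μ).card by omega)
    rw [mem_bs (X.lt16 hμ)] at ha
    exact I.core.known H (hc a (lt_of_bit hμ ha)) hμ hβ ha
  have hB : ∀ β, β ∈ X.B ↔ ∃ m ∈ st.bl, True ∧ SS z m = β := by
    intro β
    constructor
    · intro hβ
      obtain ⟨μ, hμ, rfl⟩ := H.SS_sur (X.geo.sub β hβ)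
      exact ⟨μ, kn0 μ hμ hβ, trivial, rfl⟩
    · rintro ⟨m, hm, -, rfl⟩; exact I.core.blk m hm
  have hL : ∀ β, β ∈ X.L ↔ ∃ m ∈ st.bl, SS z m ∈ X.L ∧ SS z m = β := by
    intro β
    constructor
    · intro hβ
      obtain ⟨μ, hμ, rfl⟩ := H.SS_sur (X.geo.sub β (X.geo.lsub hβ))
      exact ⟨μ, kn0 μ hμ (X.geo.lsub hβ), hβ, rfl⟩
    · rintro ⟨m, -, hm, rfl⟩; exact hm
  have c1 := I.core.card_filter H _ hB
  have c2 := I.core.card_filter H _ hL
  have c3 := card_sdiff_add_card_eq_card X.geo.lsub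
  have c4 := X.lim
  simp only [decide_true, List.filter_true] at c1
  obtain ⟨ln, code, a1, a2⟩ := grun_spec (c0 := X.L.card) (fun m => SS z m ∈ X.L) (by omega) st.bl [] 0 0 0 0
    (List.Pairwise.imp_of_mem (fun {m m'} hm hm' hne h1 h2 => by
      have b1 := I.core.lt m hm
      have b2 := I.core.lt m' hm'
      have b3 : m' &&& m < 2 ^ X.Pr.n := Nat.and_le_left.trans_lt b2
      rw [len_bits (X.lt16 b3), ← H.card_SS b3, H.inter_SS b2 b1]
      exact X.geo.inter_le_one h2 h1 (fun e => hne (H.SS_inj b1 b2 e.symm))) I.core.nd)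
    (by simp) (by rw [c2, zero_add]) h
  refine ⟨code, ⟨st.bl, st.kn, st.cov, st.fl, st.mx, st.wlow, true, ln⟩,
    ⟨I.core, I.mx, I.wl, fun m hm => ?_, fun _ m hm _ b2 => ?_⟩, a1⟩
  · have := ((a2 m).1 hm).resolve_left (by simp)
    exact ⟨I.core.lt m this.1, this.2⟩
  · exact (a2 m).2 (Or.inr ⟨kn0 m hm (X.geo.lsub b2), b2⟩)

theorem run_sound (H : Lab X z) {jm : ℕ} (hR : ∀ j < jm, Ref X j) (c : C) :
    ∀ key st, Inv X z st → run X.Pr jm c key st = true → False := by
  induction c with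
  | nil => intro key st _ h; exact absurd h (by simp [run])
  | cons m c r ic ir =>
    intro key st I h
    have e : run X.Pr jm (C.cons m c r) key st =
      cnd (Nat.beq m key) (run X.Pr jm c 0 st) (run X.Pr jm r key st) := rfl
    rw [e, cnd_eq] at h
    split_ifs at h
    · exact ic _ _ I h
    · exact ir _ _ I h
  | node a b c k ik =>
    intro key st I h
    have e : run X.Pr jm (C.node a b c k) key st = (force (Nat.lor (Nat.lor (one a) (one b)) (one c)) fun m =>
      band (ne a b) <| band (ne a c) <| band (ne b c) <| band (Nat.ble m X.Pr.full) <|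
      band (bnot (bit (gcov st.cov a b) c)) <|
      force (Nat.lor (Nat.lor m (gcov st.cov a b)) (Nat.lor (gcov st.cov a c) (gcov st.cov b c))) fun x =>
      force (Nat.xor X.Pr.full (Nat.land X.Pr.full x)) fun cand =>
      ext st.cov (cnd (Nat.beq a 0) (Nat.succ st.mx) 6) (kid X.Pr st 3 (run X.Pr jm k)) 16 [c, b, a] m 3 cand) := rfl
    rw [e] at h
    simp only [force_eq, band_eq, ne_eq', ble_dec, bnot_eq, bit_eq, lor_eq, one_eq, xor_eq', land_eq, cnd_eq,
      beq_dec, Bool.and_eq_true, decide_eq_true_eq, Bool.not_eq_true', Nat.succ_eq_add_one] at h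
    obtain ⟨h1, h2, h3, h4, h5, h6⟩ := h
    obtain ⟨μ, st', I', h'⟩ := node_sound H I h1 h2 h3 h4 h5 h6
    exact ik _ _ I' h'
  | big k r ik ir =>
    intro key st I h
    have e : run X.Pr jm (C.big k r) key st = (band (Nat.ble 4 st.mx) <|
      band (ext st.cov (Nat.succ st.mx) (kid X.Pr st (Nat.succ st.mx) (run X.Pr jm k)) 16 [0] 1 1
        (Nat.xor X.Pr.full 1)) <|
      force (Nat.pred st.mx) fun mx' =>
      bor (ovr (X.Pr.T mx') X.Pr.T5 X.Pr.off st.wlow X.Pr.lim 0 0 0 st.fl)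
        (run X.Pr jm r 0 ⟨st.bl, st.kn, st.cov, st.fl, mx', st.wlow, st.qf, st.ln⟩)) := rfl
    rw [e] at h
    simp only [force_eq, band_eq, ble_dec, xor_eq', Bool.and_eq_true, decide_eq_true_eq, Nat.succ_eq_add_one,
      bor_eq, Bool.or_eq_true, Nat.pred_eq_sub_one] at h
    obtain ⟨h1, h2, h3⟩ := h
    rcases big_sound H I h1 h2 with ⟨μ, st', I', h'⟩ | I'
    · exact ik _ _ I' h'
    · rcases h3 with h3 | h3
      · rw [I.core.fl] at h3
        exact ovr_false H I.core.sub I'.mx I.wl (by simp) (by simp) h3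
      · exact ir _ _ I' h3
  | ref j s =>
    intro key st I h
    have e : run X.Pr jm (C.ref j s) key st = (band (Nat.blt j jm) <| band (Nat.beq (dig s 0) 0) <|
      band (Nat.beq (pm s 16 X.Pr.full) X.Pr.full) <|
      band (Nat.ble st.mx (X.Pr.hd.get j).mx) <|
      band (Nat.ble (X.Pr.hd.get j).wlow (head0 (X.Pr.T st.mx) X.Pr.off st.wlow st.fl)) <|
      Nat.beq (knOf s (X.Pr.hd.get j).l) st.kn) := rfl
    rw [e] at h
    simp only [band_eq, ble_dec, blt_dec, beq_dec, Bool.and_eq_true, decide_eq_true_eq] at h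
    obtain ⟨h1, h2, h3, h4, h5, h6⟩ := h
    exact ref_sound H I (hR j h1) h2 h3 h4 h5 h6
  | miq h ms => intro key st I e; exact miq_sound H I e
  | pat i e ms => intro key st I h; exact pat_sound H I (X.pats i) h
  | qs k ik =>
    intro key st I h
    have e : run X.Pr jm (C.qs k) key st =
      (band (allLt (fun b => Nat.beq (gcov st.cov 0 b) X.Pr.full) X.Pr.n) <|
      FL.rec (motive := fun _ => Bool) false
        (fun k' v _ _ =>
          force (mn2 (Nat.div (Nat.add (Nat.pred X.Pr.n) (Nat.sub k' X.Pr.kt)) 3) (Nat.div (Nat.pred X.Pr.n) 2))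
            fun lam => qrun X.Pr.n X.Pr.lim v lam
              (fun W ln code => run X.Pr jm k code ⟨st.bl, st.kn, st.cov, st.fl, st.mx, W, true, ln⟩)
              st.bl 0 0 0 0 0 0) st.fl) := rfl
    rw [e, band_eq, Bool.and_eq_true] at h
    obtain ⟨h1, h2⟩ := h
    obtain ⟨r, hr⟩ := mkFL_pos (n := X.Pr.n) (by have := X.n3; omega) (fun x => KK (Kn z st.bl) (z x))
      (fun x => WW (Kn z st.bl) (z x))
    have hfl : st.fl = FL.cons (KK (Kn z st.bl) X.p0) (WW (Kn z st.bl) X.p0) r := by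
      rw [I.core.fl, hr, H.zero]
    have h3 : ∀ (A : Bool) (F : ℕ → ℕ → FL → Bool → Bool), FL.rec (motive := fun _ => Bool) A F st.fl =
        F (KK (Kn z st.bl) X.p0) (WW (Kn z st.bl) X.p0) r (FL.rec (motive := fun _ => Bool) A F r) := by
      intro A F; rw [hfl]
    rw [h3] at h2
    simp only [force_eq, mn2_eq, div_eq', Nat.add_eq, Nat.sub_eq, Nat.pred_eq_sub_one] at h2
    obtain ⟨code, st', I', h'⟩ := qs_sound H I (K := run X.Pr jm k)
      (fun b hb => by simpa using allLt_spec _ _ h1 b hb) h2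
    exact ik _ _ I' h'
  | gl k ik =>
    intro key st I h
    have e : run X.Pr jm (C.gl k) key st =
      (band (allLt (fun a => allLt (fun b => Nat.beq (gcov st.cov a b) X.Pr.full) X.Pr.n) X.Pr.n) <|
      force (len st.bl) fun tot => grun X.Pr.lim tot
        (fun ln code => run X.Pr jm k code ⟨st.bl, st.kn, st.cov, st.fl, st.mx, st.wlow, true, ln⟩)
        st.bl [] 0 0 0 0) := rfl
    rw [e, band_eq, Bool.and_eq_true, force_eq, len_eq] at h
    obtain ⟨code, st', I', h'⟩ := gl_sound H I (K := run X.Pr jm k)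
      (fun a ha b hb => by simpa using allLt_spec _ _ (allLt_spec _ _ h.1 a ha) b hb) h.2
    exact ik _ _ I' h'
  | q7 h ms => intro key st I e; exact q7_sound H I e

lemma initL_cons (full m : ℕ) (l : List ℕ) (st : St) (c : St → Bool) : initL full (m :: l) st c =
    (decide (m ≤ full) && (!st.kn.testBit m &&
      addB st (bits 16 m) m (bits 16 m).length fun st' => initL full l st' c)) := by
  have e : initL full (m :: l) st c = (band (Nat.ble m full) <| band (bnot (bit st.kn m)) <|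
      force (len (bits 16 m)) fun s => addB st (bits 16 m) m s fun st' => initL full l st' c) := rfl
  rw [e]
  simp only [band_eq, ble_dec, bnot_eq, bit_eq, force_eq, len_eq]

lemma initL_le (full : ℕ) (l : List ℕ) : ∀ st c, initL full l st c = true → ∀ m ∈ l, m ≤ full := by
  induction l with
  | nil => simp
  | cons m l ih =>
    intro st c h
    rw [initL_cons, addB_eq] at h
    simp only [Bool.and_eq_true, decide_eq_true_eq] at h
    obtain ⟨f, hf⟩ := upd_ex (dl (bits 16 m).length) (wt (bits 16 m).length) st.fl m (fun fl' =>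
      initL full l ⟨m :: st.bl, st.kn ||| 2 ^ m, st.cov ||| orRow (orRow m 16 (bits 16 m)) 256 (bits 16 m),
        fl', st.mx, st.wlow, st.qf, st.ln⟩ c)
    intro u hu
    rcases List.mem_cons.1 hu with rfl | hu
    · exact h.1
    · exact ih _ _ (hf ▸ h.2.2) u hu

lemma initL_spec (H : Lab X z) (l : List ℕ) : ∀ (st : St) (c : St → Bool), Inv0 X z st.bl st.kn st.cov st.fl →
    (∀ m ∈ l, SS z m ∈ X.B) → initL X.Pr.full l st c = true →
    ∃ bl kn cov fl, Inv0 X z bl kn cov fl ∧ (∀ u, u ∈ bl ↔ u ∈ l ∨ u ∈ st.bl) ∧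
      c ⟨bl, kn, cov, fl, st.mx, st.wlow, st.qf, st.ln⟩ = true := by
  induction l with
  | nil => intro st c I _ h; exact ⟨_, _, _, _, I, by simp, h⟩
  | cons m l ih =>
    intro st c I hB h
    rw [initL_cons] at h
    simp only [Bool.and_eq_true, decide_eq_true_eq, Bool.not_eq_true'] at h
    obtain ⟨h1, h2, h3⟩ := h
    rw [X.le_full] at h1
    rw [len_bits (X.lt16 h1)] at h3
    obtain ⟨kn, cov, fl, I', h'⟩ := addB_spec H I h1 (hB m List.mem_cons_self)
      (fun hc => by rw [(I.kn m).2 hc] at h2; simp at h2) (bits_spec 16 m (X.lt16 h1)).2 h3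
    obtain ⟨bl, kn', cov', fl', I'', a1, a2⟩ := ih ⟨m :: st.bl, kn, cov, fl, st.mx, st.wlow, st.qf, st.ln⟩ c I'
      (fun u hu => hB u (List.mem_cons_of_mem _ hu)) h'
    refine ⟨bl, kn', cov', fl', I'', fun u => ?_, a2⟩
    rw [a1]; simp only [List.mem_cons]; tauto

lemma okE_sound {j : ℕ} (hR : ∀ i < j, Ref X i) {c : C} (h : okE X.Pr j c = true) : Ref X j := by
  refine ⟨fun m hm => X.le_full.1 (initL_le _ _ _ _ h m hm), fun z H h1 h2 h3 => ?_⟩
  obtain ⟨bl, kn, cov, fl, I, a1, a2⟩ := initL_spec H _ _ _ ⟨by simp, by simp, List.nodup_nil, by simp,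
    fun a _ b _ c => by simp [testBit_gcov], by rw [fl0_eq]; rfl⟩ h1 h
  refine run_sound H hR c 0 _ ⟨I, fun β hβ b0 b1 => h2 β hβ b0 (fun hc => b1 ?_), h3, by simp, by simp⟩ a2
  obtain ⟨m, hm, e⟩ := mem_Kn.1 hc
  exact mem_Kn.2 ⟨m, (a1 m).2 (Or.inl hm), e⟩

theorem okL_sound {hi : ℕ} (cs : List C) : ∀ lo, okL X.Pr hi cs lo = true → (∀ i < lo, Ref X i) →
    ∀ i < hi, Ref X i := by
  induction cs with
  | nil =>
    intro lo h hR
    have e : okL X.Pr hi [] lo = Nat.beq lo hi := rfl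
    rw [e, beq_dec, decide_eq_true_eq] at h
    exact h ▸ hR
  | cons c cs ih =>
    intro lo h hR
    have e : okL X.Pr hi (c :: cs) lo = band (okE X.Pr lo c) (force (Nat.succ lo) (okL X.Pr hi cs)) := rfl
    rw [e, band_eq, force_eq, Bool.and_eq_true] at h
    refine ih _ h.2 fun i hi' => ?_
    rcases Nat.lt_succ_iff_lt_or_eq.1 hi' with h1 | rfl
    · exact hR i h1
    · exact okE_sound hR h.1

/-- static part of the parameters -/
structure ParOK (Pr : Par) (rows : ℕ) : Prop where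
  n15 : Pr.n ≤ 15
  full : Pr.full = 2 ^ Pr.n - 1
  kt : Pr.kt = 64 * ((Pr.n - 1) * (Pr.n - 2)) + 19
  hrows : 128 * rows = 64 * ((Pr.n - 1) * (Pr.n - 2)) + 128
  t3 : tabOK Pr.n Pr.off Pr.kt 3 Pr.T3 rows = true
  t4 : tabOK Pr.n Pr.off Pr.kt 4 Pr.T4 rows = true
  t5 : tabOK Pr.n Pr.off Pr.kt 5 Pr.T5 rows = true
  pats : ∀ i, PatBad (Pr.pl.get i)

/-- all stored states below `j` are refuted, in every configuration -/
def AllRef (α : Type) [DecidableEq α] (Pr : Par) (j : ℕ) : Prop := ∀ X : Ctx α, X.Pr = Pr → ∀ i < j, Ref X i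

lemma AllRef.zero (Pr : Par) : AllRef α Pr 0 := fun _ _ _ h => absurd h (by simp)

lemma AllRef.step {Pr : Par} {lo hi : ℕ} {cs : List C} (h : okL Pr hi cs lo = true) (h' : AllRef α Pr lo) :
    AllRef α Pr hi := fun X e => okL_sound cs lo (e ▸ h) (h' X e)

theorem engine {Pr : Par} {rows j : ℕ} (hP : ParOK Pr rows) (hA : AllRef α Pr (j + 1))
    (hroot : Pr.hd.get j = ⟨[], 5, 0⟩) {P : Finset α} {B L : Finset (Finset α)} (G : Geo P B L)
    (hn : P.card = Pr.n) (h6 : ∀ β ∈ B, β.card ≤ 6) : Pr.lim < 60 * (B \ L).card := by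
  by_contra hc
  have h3 := G.big
  obtain ⟨p0, hp0, hmin⟩ := exists_min_image P (WW (B \ L)) (card_pos.1 (by omega))
  let X : Ctx α := ⟨Pr, rows, P, B, L, p0, G, hn, h6, not_lt.1 hc, hmin, hP.n15, hP.full, hP.kt, hP.hrows,
    hP.t3, hP.t4, hP.t5, hP.pats⟩
  have hR := (hA X rfl j (by omega)).2
  have hl : (p0 :: (P.erase p0).toList).length = Pr.n := by
    rw [List.length_cons, length_toList, card_erase_add_one hp0, hn]
  have hnd : (p0 :: (P.erase p0).toList).Nodup := List.nodup_cons.2 ⟨by simp, nodup_toList _⟩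
  have hm : ∀ p, p ∈ (p0 :: (P.erase p0).toList) ↔ p ∈ P := by
    intro p
    simp only [List.mem_cons, mem_toList, mem_erase]
    constructor
    · rintro (rfl | h)
      · exact hp0
      · exact h.2
    · intro h; by_cases e : p = p0
      · exact Or.inl e
      · exact Or.inr ⟨e, h⟩
  refine hR (fun i => (p0 :: (P.erase p0).toList).getD i p0) ⟨?_, ?_, ?_, rfl⟩ ?_ ?_ ?_
  · intro i hi j hj e
    change i < Pr.n at hi
    change j < Pr.n at hj
    simp only [List.getD_eq_getElem _ _ (hl ▸ hi), List.getD_eq_getElem _ _ (hl ▸ hj)] at e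
    exact (List.Nodup.getElem_inj_iff hnd).1 e
  · intro i hi
    change i < Pr.n at hi
    simp only [List.getD_eq_getElem _ _ (hl ▸ hi)]
    exact (hm _).1 (List.getElem_mem _)
  · intro p hp
    obtain ⟨i, hi, e⟩ := List.getElem_of_mem ((hm p).2 hp)
    exact ⟨i, hl ▸ hi, by simp only [List.getD_eq_getElem _ _ hi, e]⟩
  · change ∀ m ∈ (Pr.hd.get j).l, _
    rw [hroot]; simp
  · change ∀ β ∈ B, _ → _ → β.card ≤ (Pr.hd.get j).mx + 1
    rw [hroot]; exact fun β hβ _ _ => h6 β hβ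
  · change (Pr.hd.get j).wlow ≤ _
    rw [hroot]; exact Nat.zero_le _

/-- every entry of a tree satisfies a predicate -/
def BT.All {τ : Type} (q : τ → Prop) : BT τ → Prop
  | BT.leaf a => q a
  | BT.node l r => BT.All q l ∧ BT.All q r

lemma BT.All.get {τ : Type} {q : τ → Prop} {t : BT τ} (h : BT.All q t) : ∀ i, q (t.get i) := by
  induction t with
  | leaf a => intro i; exact h
  | node l r il ir =>
    intro i
    have e : (BT.node l r).get i = cnd (Nat.beq (Nat.land i 1) 0) (l.get (Nat.shiftRight i 1))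
      (r.get (Nat.shiftRight i 1)) := rfl
    rw [e, cnd_eq]
    split_ifs
    · exact il h.1 _
    · exact ir h.2 _

end Pool.Agent.MP_1f1ca1_co

end

section

set_option autoImplicit false
set_option maxRecDepth 1000000
set_option maxHeartbeats 0

namespace Pool.Agent.MP_1f1ca1_co

theorem patLib_bad : ∀ i, PatBad (patLib.get i) :=
  BT.All.get (q := PatBad) (t := patLib) ⟨⟨⟨patV_sound pat0_ok, patV_sound pat4_ok⟩, ⟨patV_sound pat2_ok, patV_sound pat6_ok⟩⟩, ⟨⟨patV_sound pat1_ok, patV_sound pat5_ok⟩, patV_sound pat3_ok⟩⟩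

end Pool.Agent.MP_1f1ca1_co

end

section

set_option autoImplicit false
set_option maxRecDepth 1000000
set_option maxHeartbeats 0

namespace Pool.Agent.MP_1f1ca1_co

theorem parOK6 : ParOK par6 (nat_lit 11) :=
  ⟨by decide, by decide, by decide, by decide, tb6_3_ok, tb6_4_ok, tb6_5_ok, patLib_bad⟩

theorem allRef6 (α : Type) [DecidableEq α] : AllRef α par6 (nat_lit 5) := by
  have h := AllRef.zero (α := α) par6
  replace h := AllRef.step ok6_0 h
  exact h

theorem eng6 {α : Type} [DecidableEq α] {P : Finset α} {B L : Finset (Finset α)} (G : Geo P B L)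
    (hn : P.card = 6) (h6 : ∀ β ∈ B, β.card ≤ 6) : 420 < 60 * (B \ L).card :=
  engine (j := 4) parOK6 (allRef6 α) rfl G hn h6

end Pool.Agent.MP_1f1ca1_co

end

section

set_option autoImplicit false
set_option maxRecDepth 1000000
set_option maxHeartbeats 0

namespace Pool.Agent.MP_1f1ca1_co

theorem parOK7 : ParOK par7 (nat_lit 16) :=
  ⟨by decide, by decide, by decide, by decide, tb7_3_ok, tb7_4_ok, tb7_5_ok, patLib_bad⟩

theorem allRef7 (α : Type) [DecidableEq α] : AllRef α par7 (nat_lit 8) := by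
  have h := AllRef.zero (α := α) par7
  replace h := AllRef.step ok7_0 h
  exact h

theorem eng7 {α : Type} [DecidableEq α] {P : Finset α} {B L : Finset (Finset α)} (G : Geo P B L)
    (hn : P.card = 7) (h6 : ∀ β ∈ B, β.card ≤ 6) : 600 < 60 * (B \ L).card :=
  engine (j := 7) parOK7 (allRef7 α) rfl G hn h6

end Pool.Agent.MP_1f1ca1_co

end

section

set_option autoImplicit false
set_option maxRecDepth 1000000
set_option maxHeartbeats 0

namespace Pool.Agent.MP_1f1ca1_co

def tb9_3 : Nat := nat_lit 905837118570712634173410108167828608001765588185051515755262309485265617986991138469287936887312168773692006357954155949098324875205847192630103137605553428987228281133128676437474485673169529548092000115155541423750418607168290346943269890656201031459427948797485662462276889125291012104839199875541783625395512465501976569172344594552017219538652805954097518622176907667908809683899392082817893040124497362239452597206857534475611503526485436959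620509561049081050549399156651830589360336949473995736153288678660418712685081479187279035797289039138445130588087520629378215037966290600518254209164052779691658411633648258744832094813506422233790427821375172264540065889701782000178723389397767463324571082850932195318273123640059017117813650565173192859215294536939337061371121594240332929156706504049369325038195740385934931146877352933406981142770437615812174517067750473585262072374293047049569774878473182668753204358908510816336583102354615499227426503004326302048630753364417880474357864150719153335763985251283956041350409716081159682902988215906004895311745829873697445485002519727220623380202895364765315279808745319900556768811185760565063532032221970428584293434920475367256309382105642968741584755966890023800440842336855251691234568162613009512406598653295059741358918347034888308901806414961089392343548168943000435621991028662090620715870528183312462749183076251042279347741775408666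959987912596620766547788447288667081072266360342813640000970144536250209290516190578952538229690863127556794448687085293992291496301558668911246196276964615286637447153005342625121503839115204303304466372833642296035370248896786172059169954388669544208346425120912257241678182858386802760443245232395810346310985439019161771918107341088067735484528671553037700025809705609156607795394719766285640536882180439649252382323289916035219825450974846129599620586818793038856923121960501339492793078198246831900546995909886527217475678867564097876036956522641040043147280555090706821465810212886399925279226962436866152363113724999944397050663618917337721745154140599174697061357011993309629909305841829356728720734125963021546722640253748021896661977493949147044032757071901670285739408159305152352744308365370372402372571969444416652370708132687619198105176655407542219758836519728973337962880578843849306959219335163881342846855914485896664722466569372478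034110302073822710252226379508109676525800993067459735215866866048513377703932108958202883391988967969161323570356211645891773480328461280329899688468519590657273272594571581289892187849814270745963103906026965757156414247880459313315609514378484806870758347712625832747769496536215729220693947148123810742275158815141535537484719785625513430134716468880496527906516410781634556163045982544809798989691741297805576632442259868769939444508352744628658193398479201399166592146779901860275922500348695917983811850855695674184732136119284060694983482638031481498277535635980457595954516123553600774381026002901333649188552965146607736767620312023462404803180814968815169302640707322618714899312677138526115652641819720392184841264903004389957730620269023163308708013200920431194198934932853866124220561108579541503578941028569023801541894157329559475467918059327221267122146366036874568291991775441718204028534899985616710400865029530396692858738388588333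306441541336625077082519408481295400411158232051898689047299019189945801685118844087841797834673082856085322123463458493259264670409598168556907391076020741615560388449574612109502449923750094126932562927767420596201483839023174944764322708540976779862818435925492752697675843653464153836709921443348455797731475505779711715566120957632352607132121433115500059434011111700868792152378231400430592120730096533743948809676861559771822865752392863866048443773557035225169705841968601110699691355572080689729588345900705383482545727611076671101113267616873900220813697510069581914791548984450449584998709385540013003321320347699890871079087707284761359797391532466891768734128436159094847978094459296264190451389153757327103986925379163792303110090041034710129825948175693766082607376325753854795571207162122523301267280654992353591290902333858726480877682061928683241263005962038875599423737012109382075814136274917933384953146217786995133656559922947230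612874008795043725936301657936640354589209691366012417181144958337024275885366358025817901213348452605077199987507230371585222120065548308987798404572877129274337807085099774296861131238496920760067890396544495751298639338979155537572369081284114497313821789652616258332173840214267013336265183644818214071854181296864741622435356615704760707009754781317288421808219102195667446756333380750705227544811302485211316140955868666234068155830034028577798924656662866992107066225860069382645789372513996523445827699759952686649392454194669872253178140000190277995811272754639763759959301520796573990203411620508924244385900264150228556496176338520298482285754613911684603325679794470029798323708818714100372773066985579846291195970668093316030606174075713020491685636574042255866485783746205265903587246974018602220554153922270203643497750108596007146932016849133107378866667595761704070162269077112458444030484026140829447780480588770541320091908092478767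417634245645402159389862153027015487393405475294606182637011067478564624530213207724163566709817916582303829048458152792675705039698683146086160107374400347119370551579750083700432091867400250844557686352541466287682502484109159170226347437816922295978565942822463269927976796359805099752786254379261559514221061921991556079291549023843922145954435321714801186451645069390216650672577212362728332510134649709410145043187900853862093813868175075335226789344374914178481384005719906605394245317468632428981066075332357485753181430928718929651627965434515778335422148055118356539417544377294836748974432775042336103500207857594038067812986337291775242915455715005954143526017521577496880394773794674162033499718071178590987665577100615829538385122149592362680782386813314552141948352005203572280149143968439214170812843803898475388900777718486132372617874154769771373851190433367211800171805908103580670337775324320017087851362795850631900043073948180589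747569991849159168974656692048924039440775485372503911601772072284976077046958127729448461392668873641256587009651060229534840105010759994569667937937030429619716518877463090603200585226654205413747236654188754507206276587132402209393961699508280332625670357871172023705210958221664161895090000681878185539944722724678897234856399843353300898289275723731112081603736332035874925521747364476620805403719280888667866804643039684642264550110592554547586108934380619533327874892179158515087258705680895631186049664973982032986455905429174133410767047745218363327963714349958083093883585484640467128355839715995487187958632904380634367271188052788809018917113231479916536668427632843583877696901838145500376593303624567431722351541423882048324625698147134822230923617792973590731336719176832916138217443573778113923139734647881193396679018448453132701978491194375521176071439591569461002259279981292589243992488869651609510256787805619083420605887748979862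262033883539377713323760859792355413155016636573174153906395901622484813824522491085441225760173882097345760085251577989570166988850562410627625620384710596223530007655996001192947673901217645078867765412633636583028048874812766530329711121211339862036009742782867244054376648827038305713862697818266650166133797765991286860106558656587584263089161369650341744342482117095880479684783845944878074438159638707823149698608356666806348061634960334159247061321770640903111227676291575790626194127133537635805894036467819840765948119813752097288172668188919191041917228281305255638110836022385385485251794063601225284546811376633892598649456536887634705801390566438537025845847106186437639720530432100751781218610727565844073634539995525078194493411299336183032015043469236414563065470589990070670225023119671006463378337928753547658551746341997784433642619322632033019709249403079636334978247378273109745871625310878133456039168297898679906243231635759909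410585859047506269229045918063897251270724789902539642192938504729578411162651698763332062108268183493116947384597983680873430033032735095081494146741956283466840752392071414328208733330774002985741422151574524702303269297088007940999917747993456082599667358934032456101792087683567116935489102504508600999188975584721645094122407206782451877652774438567903835647354777362916301283372865352308861720138645522399431054710962836306414331986729728370597924127689885840258091359098710110916660918828404153514279899198398984311751415020051019245674469847979031620358405790483999777197485461084398603724386071133228776982325942595987391915705543676766416999661499143582862737178851420719773456285140555542302835186614169860955657641817862041481250427150372625403869543174702329947154936171056518777414249664887367708480035907726989066751791395673840361354846686339506683746420950682216627825587908616772755870051311852055589638470221057553661306164363246649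491982270446396565378866024219949918480570169293847778254800816844314534287531379761336885526523945895376906160292406555684508507473350999071585091898551815341575968048824734813578640763587335125614507074473959295972310096816039363866999481034298754169960081577589714499604303152649675460069044044848005808252408870758265093046045759349085284970252443374368768001299349547959771057472994851556235798318745551723368879399310573715245266581163947547839002346158992768444700642775324445079280781009070071137393866106943249705094117595812387134228306823382627643853702710690796601323338223853132275316372575401217145272478332456529543660566674896141511293630447876325633659416702194342409263177549701964530432704266068271235580463470694505019309433876816518215644955563821810448388782716552679140874239557376964159828693457298358600349812128053945747269590886813668793123848209042708174360361078746114628784732028327189906054993765009381046473503298424394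304028056597650071516018625910915773909182145266040693455346069250977726643057574757586697742258455895564397459173763932605323065627595859803675594713982154184822521374987907309203896493895624218126678938728157018349427647025772609254550637734817932832108738496886151601856384536322739425576291769077640499511648832042802430059818285401728967933895308671738450918420531860072286752402858170100568000898951038484005922965242457317671160318085159698180157371606401006178020724670390659328706154957841251238424405998546408049546505185699139996492525118158723328346453701497630814813783699618450816705744455724449731141350048455805232329194062758728931538062134011157922032607758205527363487316139730301426385435401800406037436545325870135119853077574824271326628704617450017408510504331891774279392582707555416062644285339263741371863152865644363063410460522641364837172438586003121663772857367296361390223388321303382760413424401138658476994731732821102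72900344202350006516235735441483195661935130860829527817815892037951162554700534943090959875112239849919216072142243330846935069168162468577150697668463067180038426685662035261659471945924896557789368014466023326456672665109129575341919127191629866044688173718200250686161505496458194094131121300478623311825003473753672535543897495090333574013861662241281244419913081647590804060282431195851513493718305809022247201650526143040928554682940845112913149363647749947515992603601825327318070448071515448998371401742829870781217198483152281203470388029351408887075049689841430720396801681237575714041693199052295733691056779364592800072093617455901746179139971209384944225241381221965054269520961711456012222961269243024143458172200420771976916968298036478708562273747922396298188630574322664356477070389572022624235276246205076955539120792118941946665019146951392103640189814105946545206889776534208444940252622143697874390328459838978147681527365920902514981582341019241920192261169921671390620116250318001192288986317929225577586092497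

def tb9_4 : Nat := nat_lit 9058371185707126341734101081678286080017655881850515157552623094852656179869911384692879368873121687736920063579541559490983248752058471926301031376055534289872282811331286764374744856731695295480920001151555414237504186071682903469432698906562010314594279487974856624622768891252910121048391998755417836253955124655019765691723445945520172195386528059540975186221769076679088096838993920828178930401244973622394525972068575344756115035264854369596205095610490810505493991566518305893603369494739957361532886786604187126850814791872790357972890391384451305880875206293782150379662906005182542091640527796916584116336482587448320948135064222337904278213751722645400658897017820001787233893977674633245710828509321953182731236400590171178136505651731928592152945369393370613711215942403329291567065040493693250381957403859349311468773529334069811427704376158121745170677504735852620723742930470495697748784731826687532043589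085108163365831023546154992274265030043263020486307533644178804743578641507191533357639852512839560413504097160811596829029882159060048953117458298736974454850025197272206233802028953647653152798087453199005567688111857605650635320322219704285842934349204753672563093821056429687415847559668900238004408423368552516912345681626130095124065986532950597413589183470348883089018064149610893923435481689430004356219910286620906207158705281833124627491830762510422793477417754086669599879125966207665477884472886670810722663603428136400009701445362502092905161905789525382296908631275567944486870852939922914963015586689112461962769646152866374471530053426251215038391152043033044663728336422960353702488967861720591699543886695442083464251209122572416781828583868027604432452323958103463109854390191617719181073410880677354845286715530377000258097056091566077953947197662856405368821804396492523823232899160352198254509748461295996205868187930388569231219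605013394927930781982468319005469959098865272174756788675640978760369565226410400431472805550907068214658102128863999252792269624368661523631137249999443970506636189173377217451541405991746970613570119933096299093058418293567287207341259630215467226402537480218966619774939491470440327570719016702857394081593051523520132604003322370392887429213818326440310034443087282370109946475804134393927262335836491418144166131384842589095412001197639701786710690266910982793018009732264587440254436089826545496103040110343597305394734561942646272772326570748425966593299315730032853271352275038660631284405896573423586862114216102254042101555957224566322096136411695581318305746677731030275340505568961291717400126279593354654991072746453876073294281247614996467804023490490079574336829392576537536295159628514129167099762881566563271319370420982585001204864774444839922015080019524640926346958061413171038516906057662718063154593631010151445930711180535122708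007388329468042322189945992840363416853499738149968054261837548225316062492285978988649196190562430839681209701064352929414997678617697245103663196361558886255897942638182766522532293407126669103318079177499690233241649644674686645887266242950414812442138731326319479141021782089088362761972138922002080941582902047528082287863746965169759049589066334911372578714719803993185858156643690060673361327947674568617465666664085023428445489607952883959767721829195422346994107834022660135086789285692126872385042849731287751502654228505634381380402091742591877316320468003162046898748091139413749658867789225293691640269425094209961575396514229973495323498666566057327949810600363712711363540140577095277708124177757482842949934508797351152393881709935902425603076233757228672963816055752528470165466617701689476879915602145826072292402282618811860126711726581539957184295875609859263166643672870705544093552997936148105125906434530943450973392531284742846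734257708936742168531065162889006602707852563146335862818349791956215283422215099634038997217164541210911957330632092650099639678988669686673795851495446603901537691802563505749487081910534733780956900610523261712538474118889432379714366747981085616376116995075864006908870708147260717808523827600036544377756986932240856703835555778006305246314610557360353189772892252381975328648619768335338596685755069937217787869684329485508580058583867738156595112316525320362692698284727950848661835589546227873113950768889456342438437530310901995743698046098607563269901196691534045581383824727163934987083450018678258150334498766403336341896298831739636273510603780991033851500368152338242095447617361957682232492157145902071669695209813409837104142238034042467789458599909015439537629525126646429998944744791020513625092960445305564657458578122043119720772229920168337826880222077668072986678229831560663876413614037813160114964031591634221828826551373659821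036432524779254407439670193614722705539788931955710254401085530517912189247347271711843132167054595749238427483305149283273499760158703791304760298631671517539120580002622186712484118966014966252020573731927270925615943049250913137973209431828992482038043547472641965546715400452916710061685862721624268078069946876938193220819484427412037660243445857740559227645865370364181539148084577088187085304862923757997288108360012687952981472467753081670434841578199766714795025261517890152966656362327013757560724105644358887977284011557336276814559048043939128122573554103791772403845877759576589815815984816910401575623806088571656355612091251219458800962369462050399574045133917203404529398100650471894938435506544892516837224321902773581910315400168691477662075937662619504049678700681584470690674675995893507114478055214545090019117056793190273790315561269226215430899981400337180407482469957734757756402522569387329075224887794176567311170832875407743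632774804010839896148032076695832972044067758898018592382585619000119344384618448286093328844647255703989471942650953676099322419367444109192548846241811739400664167104445201880854496403497014555374868564039972711057343229373270245865758256792082468558385395613804546495977801346770645927144553131887015214372771507757280012580319754024654310975015376047318811877130922714773329986952669014486502461802670744702981260331720592178056510192745811258434766914864140318800553649075456680479047414763862397389606278780152222106470270731509533144743684414229162986131396246063829361753038179920921250849899031826369333197624047666924160781686428805744207863984066065407036464448715297130764996024014503008475753683803417109346350895000609627320993368404686174184245682883977534915867582206511391709209174187203322383426436754825854877901497098393743023680894965709205227179054963108925218557856511988797577128721388101935561292532450382375955106018055984791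075434953630826629379221745409552721985334390598538482138442392861006472642634590039154183507982182844588208240347047965573593993769308598625031381620005755866438431060945122713344420156513905066460396744717880104414339432014527690501489309062967353170999605438200788387332045690259471838342686868741613402196572503415059612793916669349590330750172273554082913153808409568567646148349450992033289210736859623046717923461932213169366879617506645190001246233055637499615360171228818410389378906656424953334282022430159326874429302172674880141759302122558169897927593093309272845881276979543109199590788704522928645184820860559991987464082976341588915363818577827557391716462127359856504449576200976590404728622524273805542243620029958193106842665522960957166613882464811123666237771576108215634637195517758835971787630720155330308773171756401984525404506731596187656715348454524792706788502665082894177050335649291964518986527248555281897911847899799978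676984465119234223600300224248851498971523659543142762140634804894035171030022419710149098846486074866381868710423969739293080380254677559956575927533272531790502422001010902751657221290442581018342543525247403362179363623691520096548332496898381732309430794940873663045458182049168293458278272959983664922477465961502476269988105772062657661243507864010546445092635536766499435523749566071758116685113047127541922031302840710009768336300990336254037706756423162130631381644015703003811353017486649800322996756978884529930963789759205148483149897238047892306538989347649122517375388591172077175873709795718900904230960760862236000018486952876664086957162422861581468831905521603877934452037594883133310205962830123214651011686345186074762337074958219090716022237548834195274646340007955229886905775260410028620606813216899434962404332302943625011692521095409224778960344010015196589588674333046297156740631416094663872276670090623509533881061458663285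553427454996527385300103379017866066764182558404436619706149299886551100854348050378996393504428860121877113720078653580691276890736605700617844566653202716400477278398213857717835241240734947313754002554760510459910204899091876748943242366850669733884117483739575636959632092006114157335160993674634331388195083239472805667780264462378863229311848875901356239948726509164541038469702990705565527142263920783736866981728672541846482590870117247918690489750346113003696274322590159905619684006871637256049796766097835919049231582049664898247687422724547156672228901912452316864442180560280211381444940791402779969062677274860580524773679636391009259434519975443533539920921522504850995928445669996147383072715860700018045444742424629125549051116223076461687903748860341272235140417327523997474929810743420174104728352214970007501452492378628025046866043564650349713457716656781679100930356207313472914610635815422066868889396648559980221575201179403207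731050582873113885019772934039938280998660918568652489379623837230436946321181548663487204035236589718436536395136201087260835973940496800811546989302538604730425772820946974066308535232458636496257316328264695749886232218296257024615412602237796804291072158543408861384292998280785082869365378962792835775168197103541507050421149441593479753047478917296172979663319867055689797327715700623934526693959262885879159732685694160187068124444666605982203360454089315566488924258475868554090208627791101543831549553503822137878440305433262300193410170791853058120610307476902088536117165095778455310238219731981550962821290319749390788912422790631284383039731873458078093409295585754111391922603493541966330769687344601910009676880924836645949294483600627664077025525811784268146289790304906263394992471811579624913426274277861909013661731575351383539297856412216489940005866970049332283342036673774704883280975235232393211969833715081789696512615472902650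119374936073899981338381797298726024792895661878475098566539848960097018163360206164651214861827681490915532828548893439395074821893985225840125603366263742172481627106266446892532615942097063390170951182077831293812245460974146197892930505618465059192801165474319498021212643065995189691520455825499878815596371509769212595700551638134718186450489724571317343679799144723557082995820959057391257514227091003841373649515162266512524199657466234103177903490056115487216812041645069613693581819021007029872421596274848825405352794171967990611009976804496304062697090172859533494376925817239744972905298671999853307759185051850345051759000028621207721947425794999699461680052826731863733197472850092140300534790077185026563944697612398874826632810643778544573887598783023317484396693561975090998490902873074077969250814002497400046061469711987459087874803839752776266475145124323806138809868056638005503121326305930053893455959038684312639832827724154364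5585215042772346316154712958436783852752826044969251490768176476182030801098795740707736384437660761060695349303627978737703028059369101831560824909600161049756114915656561410939961186223341177837282633838186668369785492154281940673228926096703880349178461126425325242360139890988184232677840365263189967545422128073158923857892561668563299716862816543751777053029393182717351356952837048746280614334848393117263412003833905187032330554496599308977201278790849183509499485681449197002204302805979390632164710986217356676768289792180998216614615026381753628775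

def tb9_5 : Nat := nat_lit 9058371185707126341734101081678286080017655881850515157552623094852656179869911384692879368873121687736920063579541559490983248752058471926301031376055534289872282811331286764374744856731695295480920001151555414237504186071682903469432698906562010314594279487974856624622768891252910121048391998755417836253955124655019765691723445945520172195386528059540975186221769076679088096838993920828178930401244973622394525972068575344756115035264854369596205095610490810505493991566518305893603369494739957361532886786604187126850814791872790357972890391384451305880875206293782150379662906005182542091640527796916584116336482587448320948135064222337904278213751722645400658897017820001787233893977674633245710828509321953182731236400590171178136505651731928592152945369393370613711215942403329291567065040493693250381957403859349311468773529334069811427704376158121745170677504735852620723742930470495697748784731826687532043589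085108163365831023546154992274265030043263020486307533644178804743578641507191533357639852512839560413504097160811596829029882159060048953117458298736974454850025197272206233802028953647653152798087453199005567688111857605650635320322219704285842934349204753672563093821056429687415847559668900238004408423368552516912345681626130095124065986532950597413589183470348883089018064149610893923435481689430004356219910286620906207158705281833124627491830762510422793477417754086669599879125966207665477884472886670810722663603428136400009701445362502092905161905789525382296908631275567944486870852939922914963015586689112461962769646152866374471530053426251215038391152043033044663728336422960353702488967861720591699543886695442083464251209122572416781828583868027604432452323958103463109854390191617719181073410880677354845286715530377000258097056091566077953947197662856405368821804396492523823232899160352198254509748461295996205868187930388569231219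605013394927930781982468319005469959098865272174756788675640978760369565226410400431472805550907068214658102128863999252792269624368661523631137249999443970506636189173377217451541405991746970613570119933096299093058418293567287207341259630215467226402537480218966619774939491470440327570719016702857394081593051523520132604003322370392887429213818326440310034443087282370109946475804134393927262335836491418144166131384842589095412001197639701786710690266910982793018009732264587440254436089826545496103040110343597305394734561942646272772326570748425966593299315730032853271352275038660631284405896573423586862114216102254042101555957224566322096136411695581318305746677731030275340505568961291717400126279593354654991072746453876073294281247614996467804023490490079574336829392576537536295159628514129167099762881566563271319370420982585001204864774444839922015080019524640926346958061413171038516906057662718063154593631010151445930711180535122708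007388329468042322189945992840363416853499738149968054261837548225316062492285978988649196190562430839681209701064352929414997678617697245103663196361558886255897942638182766522532293407126669103318079177499690233241649644674686645887266242950414812442138731326319479141021782089088362761972138922002080941582902047528082287863746965169759049589066334911372578714719803993185858156643690060673361327947674568617465666664085023428445489607952883959767721829195422346994107834022660135086789285692126872385042849731287751502654228505634381380402091742591877316320468003162046898748091139413749658867789225293691640269425094209961575396514229973495323498666566057327949810600363712711363540140577095277708124177757482842949934508797351152393881709935902425603076233757228672963816055752528470165466617701689476879915602145826072292402282618811860126711726581539957184295875609859263166643672870705544093552997936148105125906434530943450973392531284742846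734257708936742168531065162889006602707852563146335862818349791956215283422215099634038997217164541210911951374326216695330580645836726890338157288056310791700750084287685625104962765850504949132587105261069208839067078625177357892739116902303269334371277393673758754496836523421148897256117284546352280099602215890640853722074324100963763289718731229827079371512063238170423334221540147492622428577413489476647278457147284768063742088506022198905458648930546622028900076472877960987644145666473439349828186851072807755752325604007539725647858061309305907958102631105682086930947881410061411137561421318606379469132765388354748843091118352473343420516621462131398972417875598612739301084612005565021374203676873574084396995763099176910068804148283584749894028486394557817241666699870533133033986273089147507896349831192203650304072238039805718921572005702856975429137863977595568248841162302962889564822538236901146869814626539517224143008147020920194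288071074383227048777962510873202352883231999574692520054226237465117968360652992268990249100571452471322417274710406540284969665300229854065958714283554568330825120770576551808960406348303680288315587759700437728256014000871432706576185571152009051004216244541758710995299196999771955675325708392107955197343972982771155302527410435250218011116395381678685990354630016394147686911826801654429544186592819606252577104584479793764621158413644273195756650921521364994208803844432635703311854751151817160877361719828394695120349531639805787706042350512645751488198091533321067127961066713000163648617493305063732311782672958898912950614176512389569858262177674360474284877384292405177914779561552260241715156319794485684282122056208159612041687186658150645799937815635166505805308214004270343720579985570601895668736918935994693861942872490848592249288809764236648620912929885625462227798520071444713991028274985702447422068845844101391504841713817033831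980360656758287903421017907745774483610775359580770369494166818353641986441553262308752326660507568437432948478232004814646435257546505968187983953089593781666006583895643175764660951227800222599617514148626179382843614360758586127957189671013480402681982639394958775608600213828055994616576636100260001805217411386119756435532671758739903193656382462188166111084046690350299007066346722464462818234730291343451632179050517101917269684376960963735343199943720530874839015917004368302709305783355561704484095959524564112454887134760598031293798547321137835535267247734088582231806552415724216894645247252864220389270612511985409870613082919467697220117148993932134147176191870318887870218030221576984411876949544888638840885726122831053321634038246128597478638403866481905751564466105407935779343140243863407486071578060226819019454540787330949101754180051776097076028281938371898606139954006115919363336529408729554276798562792033729516154721115999427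263312950523949511012057442404746870533101287430133899212863760925879884705331201364372697163544956959011089891699854082980597433898523598567605652945612254001835354215143055655468666985358377008425449714753097554002774793260727917750059397012039406377661535691034554082140512648820959570329249362673808045294035617254181173639291795359090817877566163088935542462080255440731814186249448337751595353935915599485247613752844812667038706383981333555119433226794028535377123959899414400455227012447426616263437457886527233100133270997095408389749973513853610371716743127512081860740948309709090871451736629659108026514288918016557538235059632079095270373546784776391047077217612821216806178571578893162467769611738423223600945364852507620105170148103150360168158745298884034172029887005208228466381384213738881417780375084309462737150576904298773766376463593343188954946775556949630803602539325864650250607050794468236526496723992909815909168710952441480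022739851062483543058441396026250402028157297094087802156493205729009787970575681680107622478513158946530217349630730836006713462913164609953072319188365916441044978591176487349297465826141998792827525758841538704996996581612409535859533737970329079168921468454129410176758600426707880949831985625123426155257083273425374329406754105240964559162979706103833056569591115683041594975363399972761395522048104941788114973466738189025456225222692882882818560044700317843122136479039871158992188794310653898240486665835117889127181586863654253115140684202178867006705676927139071086530545620539700089050182175072382899217164924471787498406642227248014001930511469368737355011829499365265686560424452166934695413473409612536400053874098461952560729879116980043417554013323365449372279895760753331067260903814803098515092290819966148529533344874752684773631622891392633213407087846435100407658028540145751026172187088495421430064361811497323645280545584082331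426049063026284085533134081215397987881288560063457098856132485706855140436440396504923855944535802856607354627230874358876839208059097730886279056643217241242792500525488157880447551332364742130907645403325599423973690689068365899872482128883841156921536000253124694090673578147621946476499135988364012252016241985027793218918142015381330336285736725869153695150636908992527826052884038166885547058138194477712355881281159148340404309215724925116792635562694729294129321873105395515963831013408153667184410506964632182409746758481295821370046642424150425787215507696831997133512432498458407078075878307797237098502000282295951562820121743794533140769527899880590028751046476622721849512513358870617381805856939910335166933417309633250346115867764884180631630704006259344703146670761894479234446663324697003301201404525561736450502980832056646649696845594368681070458992309738600884112250511306309268166441500099105040214791386639538192502530156131389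882707685942735871934943152545566314467973687663409369409657981963986038147819761257416161988510044704542681990279495890263564694513087313482024569768975988472809325565261634022929054155263722478454844238053405453974651539600674603232100001397744292221953612103258003910500868380141719951462337857062584032087218251772393830292002344728380358562101390554619675106433025773772644186086499534108357665799468207476238112039232137460600324077238433815251425762721471734608831461844865742997169001315654928188788748016357450835505169524527275358789182298285037418452748260943158651485240276553245315200046053403664998058452632705541822069174991085488730118252707553070730833026140734414605580325452438672538364250280576803416569079592510627842809698616294829840539190038178443731969857634227170315137728301266300527144360343908201157026212977292185195827344273389224258524857542711237520905543977110658748141441470579191781669462727552069275505199832396536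390237330952406392447172859939889024802697174849111591277557328256411973306667127842980468666902985920460522877521161608687938753835239594674845423270184718114665119909124557440698501193605638769484759075472574749992399853388384864758884038484810505755596129824986653839199425634624399891582910273617159403706714515704874737908997901377327226801755168645570655151041780512638337280146586139681699779584114678166535900518549962402183329987815780746674529209386698522663854947326102137267225361836543508119921965004146191196126956902193525326053277960346541928014130811317915626098062320906502209771357280881803063622698677321014345007396136768389092288923798910540456691133029176384288119780937678876550525843808938399388505317027610438732624491634872768861565798794495159781756667901209714597581525340645020536203295516830072901535234222129649173596765639969686510754465869534670160557846886665009170794964594290873366476011705824040664362577252853641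1971749779449196104260941803339302657224348997084908592257341451396134009749704355799469566553232164622187397701757712877880187529008548466093811575226009278597415097303351458599302891007459689465898680519399990060837332269554421510589984128518683466316368810952482446368463748038207089057025610622816462830221254396391072389588697912829093922185942704943126785796110864298480626998530421584502118100707257676505327402341279609104477805748842660841099213543109771938419633600623469380971510287516203178765146575961880879431412050253284512577999337992933701679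

noncomputable def hd9 : BT Hd :=
  (BT.node (BT.node (BT.node (BT.node (BT.node (BT.node (BT.leaf (Hd.mk (List.cons (nat_lit 497) (List.cons (nat_lit 271) List.nil)) (nat_lit 4) (nat_lit 0))) (BT.leaf (Hd.mk (List.cons (nat_lit 263) (List.cons (nat_lit 139) (List.cons (nat_lit 19) (List.cons (nat_lit 35) (List.cons (nat_lit 67) List.nil))))) (nat_lit 3) (nat_lit 0)))) (BT.leaf (Hd.mk (List.cons (nat_lit 481) (List.cons (nat_lit 51) (List.cons (nat_lit 45) (List.cons (nat_lit 75) (List.cons (nat_lit 135) (List.cons (nat_lit 259) (List.cons (nat_lit 69) (List.cons (nat_lit 81) List.nil)))))))) (nat_lit 3) (nat_lit 0)))) (BT.node (BT.leaf (Hd.mk (List.cons (nat_lit 481) (List.cons (nat_lit 285) (List.cons (nat_lit 259) (List.cons (nat_lit 39) (List.cons (nat_lit 69) (List.cons (nat_lit 133) (List.cons (nat_lit 41) (List.cons (nat_lit 49) (List.cons (nat_lit 75) (List.cons (nat_lit 137) (List.cons (nat_lit 81) (List.cons (nat_lit 147) (List.cons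 (nat_lit 292) (List.cons (nat_lit 328) (List.cons (nat_lit 400) (List.cons (nat_lit 14) (List.cons (nat_lit 22) (List.cons (nat_lit 26) (List.cons (nat_lit 98) (List.cons (nat_lit 306) (List.cons (nat_lit 82) (List.cons (nat_lit 296) (List.cons (nat_lit 336) List.nil))))))))))))))))))))))) (nat_lit 3) (nat_lit 149))) (BT.leaf (Hd.mk (List.cons (nat_lit 481) (List.cons (nat_lit 51) List.nil)) (nat_lit 3) (nat_lit 0))))) (BT.node (BT.node (BT.node (BT.leaf (Hd.mk (List.cons (nat_lit 497) (List.cons (nat_lit 27) (List.cons (nat_lit 21) List.nil))) (nat_lit 3) (nat_lit 0))) (BT.leaf (Hd.mk (List.cons (nat_lit 263) (List.cons (nat_lit 11) (List.cons (nat_lit 19) List.nil))) (nat_lit 3) (nat_lit 0)))) (BT.leaf (Hd.mk (List.cons (nat_lit 481) (List.cons (nat_lit 51) (List.cons (nat_lit 45) (List.cons (nat_lit 67) (List.cons (nat_lit 69) (List.cons (nat_lit 73) (List.cons (nat_lit 81) List.nil))))))) (nat_lit 3) (nat_lit 0)))) (BT.node (BT.leaf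 (Hd.mk (List.cons (nat_lit 481) (List.cons (nat_lit 285) List.nil)) (nat_lit 4) (nat_lit 0))) (BT.leaf (Hd.mk (List.cons (nat_lit 263) (List.cons (nat_lit 139) (List.cons (nat_lit 83) (List.cons (nat_lit 35) (List.cons (nat_lit 77) List.nil))))) (nat_lit 3) (nat_lit 0)))))) (BT.node (BT.node (BT.node (BT.node (BT.leaf (Hd.mk (List.cons (nat_lit 497) (List.cons (nat_lit 27) (List.cons (nat_lit 21) (List.cons (nat_lit 39) (List.cons (nat_lit 67) (List.cons (nat_lit 131) (List.cons (nat_lit 259) (List.cons (nat_lit 41) (List.cons (nat_lit 69) (List.cons (nat_lit 73) List.nil)))))))))) (nat_lit 3) (nat_lit 0))) (BT.leaf (Hd.mk (List.cons (nat_lit 263) (List.cons (nat_lit 139) List.nil)) (nat_lit 3) (nat_lit 0)))) (BT.leaf (Hd.mk (List.cons (nat_lit 481) (List.cons (nat_lit 51) (List.cons (nat_lit 45) (List.cons (nat_lit 75) List.nil)))) (nat_lit 3) (nat_lit 0)))) (BT.node (BT.leaf (Hd.mk (List.cons (nat_lit 481) (List.cons (nat_lit 285) (List.cons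 (nat_lit 259) (List.cons (nat_lit 39) (List.cons (nat_lit 69) (List.cons (nat_lit 133) (List.cons (nat_lit 41) (List.cons (nat_lit 49) (List.cons (nat_lit 75) (List.cons (nat_lit 137) List.nil)))))))))) (nat_lit 3) (nat_lit 0))) (BT.leaf (Hd.mk (List.cons (nat_lit 263) (List.cons (nat_lit 139) (List.cons (nat_lit 83) (List.cons (nat_lit 35) (List.cons (nat_lit 77) (List.cons (nat_lit 53) (List.cons (nat_lit 133) List.nil))))))) (nat_lit 3) (nat_lit 0))))) (BT.node (BT.node (BT.node (BT.leaf (Hd.mk (List.cons (nat_lit 497) (List.cons (nat_lit 19) (List.cons (nat_lit 21) (List.cons (nat_lit 25) (List.cons (nat_lit 35) (List.cons (nat_lit 37) (List.cons (nat_lit 41) (List.cons (nat_lit 75) (List.cons (nat_lit 69) List.nil))))))))) (nat_lit 3) (nat_lit 0))) (BT.leaf (Hd.mk (List.cons (nat_lit 263) List.nil) (nat_lit 3) (nat_lit 0)))) (BT.leaf (Hd.mk (List.cons (nat_lit 481) (List.cons (nat_lit 51) (List.cons (nat_lit 37) (List.cons (nat_lit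 41) (List.cons (nat_lit 75) List.nil))))) (nat_lit 3) (nat_lit 0)))) (BT.node (BT.leaf (Hd.mk (List.cons (nat_lit 481) (List.cons (nat_lit 51) (List.cons (nat_lit 45) (List.cons (nat_lit 75) (List.cons (nat_lit 135)
  (List.cons (nat_lit 259) (List.cons (nat_lit 85) (List.cons (nat_lit 261) (List.cons (nat_lit 137) (List.cons (nat_lit 145) (List.cons (nat_lit 281) List.nil))))))))))) (nat_lit 3) (nat_lit 142))) (BT.leaf (Hd.mk (List.cons (nat_lit 263) (List.cons (nat_lit 139) (List.cons (nat_lit 83) (List.cons (nat_lit 35) List.nil)))) (nat_lit 3) (nat_lit 0))))))) (BT.node (BT.node (BT.node (BT.node (BT.node (BT.leaf (Hd.mk (List.cons (nat_lit 497) (List.cons (nat_lit 27) (List.cons (nat_lit 21) (List.cons (nat_lit 39) (List.cons (nat_lit 67) (List.cons (nat_lit 131) (List.cons (nat_lit 259) (List.cons (nat_lit 41) (List.cons (nat_lit 77) (List.cons (nat_lit 133) (List.cons (nat_lit 261) (List.cons (nat_lit 137) (List.cons (nat_lit 265)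 List.nil))))))))))))) (nat_lit 3) (nat_lit 0))) (BT.leaf (Hd.mk (List.cons (nat_lit 263) (List.cons (nat_lit 139) (List.cons (nat_lit 19) List.nil))) (nat_lit 3) (nat_lit 0)))) (BT.leaf (Hd.mk (List.cons (nat_lit 481) (List.cons (nat_lit 51) (List.cons (nat_lit 45) (List.cons (nat_lit 75) (List.cons (nat_lit 135) (List.cons (nat_lit 259) List.nil)))))) (nat_lit 3) (nat_lit 0)))) (BT.node (BT.leaf (Hd.mk (List.cons (nat_lit 481) (List.cons (nat_lit 285) (List.cons (nat_lit 259) (List.cons (nat_lit 39) (List.cons (nat_lit 69) (List.cons (nat_lit 133) (List.cons (nat_lit 41) (List.cons (nat_lit 49) (List.cons (nat_lit 75) (List.cons (nat_lit 137) (List.cons (nat_lit 81) (List.cons (nat_lit 147) List.nil)))))))))))) (nat_lit 3) (nat_lit 149))) (BT.leaf (Hd.mk (List.cons (nat_lit 481) List.nil) (nat_lit 4) (nat_lit 0))))) (BT.node (BT.node (BT.node (BT.leaf (Hd.mk (List.cons (nat_lit 497) (List.cons (nat_lit 19) (List.cons (nat_lit 21) (List.cons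 (nat_lit 25) (List.cons (nat_lit 43) (List.cons (nat_lit 37) List.nil)))))) (nat_lit 3) (nat_lit 0))) (BT.leaf (Hd.mk (List.cons (nat_lit 263) (List.cons (nat_lit 11) List.nil)) (nat_lit 3) (nat_lit 0)))) (BT.leaf (Hd.mk (List.cons (nat_lit 481) (List.cons (nat_lit 51) (List.cons (nat_lit 37) (List.cons (nat_lit 41) (List.cons (nat_lit 75) (List.cons (nat_lit 131) List.nil)))))) (nat_lit 3) (nat_lit 0)))) (BT.node (BT.leaf (Hd.mk (List.cons (nat_lit 481) (List.cons (nat_lit 51) (List.cons (nat_lit 45) (List.cons (nat_lit 75) (List.cons (nat_lit 135) (List.cons (nat_lit 259) (List.cons (nat_lit 85) (List.cons (nat_lit 261) (List.cons (nat_lit 137) (List.cons (nat_lit 145) (List.cons (nat_lit 281) (List.cons (nat_lit 98) (List.cons (nat_lit 100) (List.cons (nat_lit 294) (List.cons (nat_lit 70) List.nil))))))))))))))) (nat_lit 3) (nat_lit 142))) (BT.leaf (Hd.mk (List.cons (nat_lit 263) (List.cons (nat_lit 139) (List.cons (nat_lit 83) (List.cons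 (nat_lit 35) (List.cons (nat_lit 45) (List.cons (nat_lit 21) (List.cons (nat_lit 69) (List.cons (nat_lit 133) List.nil)))))))) (nat_lit 3) (nat_lit 0)))))) (BT.node (BT.node (BT.node (BT.node (BT.leaf (Hd.mk (List.cons (nat_lit 497) (List.cons (nat_lit 27) (List.cons (nat_lit 21) (List.cons (nat_lit 39) (List.cons (nat_lit 67) (List.cons (nat_lit 131) (List.cons (nat_lit 259) List.nil))))))) (nat_lit 3) (nat_lit 0))) (BT.leaf (Hd.mk (List.cons (nat_lit 263) (List.cons (nat_lit 11) (List.cons (nat_lit 19) (List.cons (nat_lit 35) List.nil)))) (nat_lit 3) (nat_lit 0)))) (BT.leaf (Hd.mk (List.cons (nat_lit 481) (List.cons (nat_lit 51) (List.cons (nat_lit 45) (List.cons (nat_lit 67) (List.cons (nat_lit 85) (List.cons (nat_lit 73) List.nil)))))) (nat_lit 3) (nat_lit 0)))) (BT.node (BT.leaf (Hd.mk (List.cons (nat_lit 481) (List.cons (nat_lit 285) (List.cons (nat_lit 259) (List.cons (nat_lit 39) (List.cons (nat_lit 69) (List.cons (nat_lit 133) List.nil))))))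 (nat_lit 3) (nat_lit 0))) (BT.leaf (Hd.mk (List.cons (nat_lit 263) (List.cons (nat_lit 139) (List.cons (nat_lit 83) (List.cons (nat_lit 35) (List.cons (nat_lit 77) (List.cons (nat_lit 21) (List.cons (nat_lit 37) (List.cons (nat_lit 133) List.nil)))))))) (nat_lit 3) (nat_lit 0))))) (BT.node (BT.node (BT.node (BT.leaf (Hd.mk (List.cons (nat_lit 497) List.nil) (nat_lit 5) (nat_lit 0)))
  (BT.leaf (Hd.mk List.nil (nat_lit 5) (nat_lit 0)))) (BT.leaf (Hd.mk (List.cons (nat_lit 481) (List.cons (nat_lit 51) (List.cons (nat_lit 37) (List.cons (nat_lit 41) List.nil)))) (nat_lit 3) (nat_lit 0)))) (BT.node (BT.leaf (Hd.mk (List.cons (nat_lit 481) (List.cons (nat_lit 51) (List.cons (nat_lit 45) (List.cons (nat_lit 75) (List.cons (nat_lit 135) (List.cons (nat_lit 259) (List.cons (nat_lit 85) (List.cons (nat_lit 261) (List.cons (nat_lit 137) (List.cons (nat_lit 145) (List.cons (nat_lit 281) List.nil))))))))))) (nat_lit 3) (nat_lit 0))) (BT.leaf (Hd.mk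 (List.cons (nat_lit 263) (List.cons (nat_lit 139) (List.cons (nat_lit 19) (List.cons (nat_lit 35) (List.cons (nat_lit 67) (List.cons (nat_lit 77) List.nil)))))) (nat_lit 3) (nat_lit 0))))))))

noncomputable def par9 : Par := Par.mk (nat_lit 9) (nat_lit 511) (nat_lit 1440) (nat_lit 80) tb9_3 tb9_4 tb9_5 (nat_lit 3603) hd9 patLib


end Pool.Agent.MP_1f1ca1_co

end

section

set_option autoImplicit false
set_option maxRecDepth 1000000
set_option maxHeartbeats 0

namespace Pool.Agent.MP_1f1ca1_co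

theorem tb9_3_ok : tabOK (nat_lit 9) (nat_lit 80) (nat_lit 3603) (nat_lit 3) tb9_3 (nat_lit 29) = true := by decide +kernel

theorem tb9_4_ok : tabOK (nat_lit 9) (nat_lit 80) (nat_lit 3603) (nat_lit 4) tb9_4 (nat_lit 29) = true := by decide +kernel

theorem tb9_5_ok : tabOK (nat_lit 9) (nat_lit 80) (nat_lit 3603) (nat_lit 5) tb9_5 (nat_lit 29) = true := by decide +kernel


end Pool.Agent.MP_1f1ca1_co

end

section

set_option autoImplicit false
set_option maxRecDepth 1000000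
set_option maxHeartbeats 0

namespace Pool.Agent.MP_1f1ca1_co

noncomputable def c9_0 : List C :=
  (List.cons (C.big C.nil (C.node (nat_lit 0) (nat_lit 1) (nat_lit 4) (C.cons (nat_lit 19) (C.node (nat_lit 0) (nat_lit 1) (nat_lit 5) (C.cons (nat_lit 35) (C.node (nat_lit 0) (nat_lit 1) (nat_lit 6) (C.cons (nat_lit 67) (C.node (nat_lit 0) (nat_lit 1) (nat_lit 7) (C.cons (nat_lit 131) (C.node (nat_lit 0) (nat_lit 2) (nat_lit 4) (C.cons (nat_lit 21) (C.node (nat_lit 0) (nat_lit 2) (nat_lit 5) (C.cons (nat_lit 37) (C.node (nat_lit 0) (nat_lit 2) (nat_lit 6) (C.cons (nat_lit 69) (C.node (nat_lit 0) (nat_lit 2) (nat_lit 7) (C.cons (nat_lit 133) (C.node (nat_lit 0) (nat_lit 3) (nat_lit 4) (C.cons (nat_lit 25) (C.node (nat_lit 0) (nat_lit 3) (nat_lit 5) C.nil) C.nil)) C.nil)) C.nil)) C.nil)) C.nil)) C.nil)) C.nil)) C.nil)) C.nil))) (List.cons (C.qs C.nil) (List.cons (C.node (nat_lit 0) (nat_lit 2) (nat_lit 7) (C.cons (nat_lit 141) (C.node (nat_lit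 0) (nat_lit 2) (nat_lit 8) (C.cons (nat_lit 261) (C.node (nat_lit 0) (nat_lit 3) (nat_lit 8) (C.cons (nat_lit 265) (C.ref (nat_lit 1) (nat_lit 36093309456)) C.nil)) C.nil)) (C.cons (nat_lit 133) (C.node (nat_lit 0) (nat_lit 3) (nat_lit 7) (C.cons (nat_lit 137) (C.node (nat_lit 0) (nat_lit 2) (nat_lit 3) (C.cons (nat_lit 269) (C.ref (nat_lit 1) (nat_lit 31815119376)) C.nil)) C.nil)) C.nil))) (List.cons (C.node (nat_lit 0) (nat_lit 3) (nat_lit 5) (C.cons (nat_lit 41) (C.node (nat_lit 0) (nat_lit 2) (nat_lit 6) (C.cons (nat_lit 77) (C.node (nat_lit 0) (nat_lit 2) (nat_lit 7) (C.cons (nat_lit 133) (C.node (nat_lit 0) (nat_lit 2) (nat_lit 8) (C.cons (nat_lit 261) (C.node (nat_lit 0) (nat_lit 3) (nat_lit 7) (C.cons (nat_lit 137) (C.node (nat_lit 0) (nat_lit 3) (nat_lit 8) (C.cons (nat_lit 265) (C.ref (nat_lit 1) (nat_lit 36344967696)) C.nil)) C.nil)) C.nil)) C.nil)) (C.cons (nat_lit 69) (C.node (nat_lit 0) (nat_lit 3) (nat_lit 6) (C.cons (nat_lit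 73) (C.ref (nat_lit 2) (nat_lit 36344967696)) C.nil)) C.nil))) C.nil)) (List.cons (C.node (nat_lit 0) (nat_lit 1) (nat_lit 5) (C.cons (nat_lit 39) (C.node (nat_lit 0) (nat_lit 1) (nat_lit 6) (C.cons (nat_lit 67) (C.node (nat_lit 0) (nat_lit 1) (nat_lit 7) (C.cons (nat_lit 131) (C.node (nat_lit 0) (nat_lit 1) (nat_lit 8) (C.cons (nat_lit 259) (C.ref (nat_lit 3) (nat_lit 36344967696)) C.nil)) C.nil)) C.nil)) (C.cons (nat_lit 35) (C.node (nat_lit 0) (nat_lit 1) (nat_lit 6) (C.cons (nat_lit 71) (C.node (nat_lit 0) (nat_lit 1) (nat_lit 7) (C.cons (nat_lit 131) (C.node (nat_lit 0) (nat_lit 1) (nat_lit 8) (C.cons (nat_lit 259) (C.ref (nat_lit 3) (nat_lit 36329239056)) C.nil)) C.nil)) (C.cons (nat_lit 67) (C.node (nat_lit 0) (nat_lit 1) (nat_lit 7) (C.cons (nat_lit 135) (C.node (nat_lit 0) (nat_lit 1) (nat_lit 8) (C.cons (nat_lit 259) (C.ref (nat_lit 3) (nat_lit 36061852176)) C.nil)) (C.cons (nat_lit 131) (C.node (nat_lit 0) (nat_lit 1) (nat_lit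 2) (C.cons (nat_lit 263) (C.ref (nat_lit 3) (nat_lit 31767933456)) (C.cons (nat_lit 7) (C.node (nat_lit 0) (nat_lit 1) (nat_lit 8) (C.cons (nat_lit 259) (C.node (nat_lit 0) (nat_lit 2) (nat_lit 5) (C.cons (nat_lit 45) (C.node (nat_lit 0) (nat_lit 2) (nat_lit 6) (C.cons (nat_lit 69) (C.node (nat_lit 0) (nat_lit 2) (nat_lit 7) (C.cons (nat_lit 133) (C.node (nat_lit 0) (nat_lit 2) (nat_lit 8) (C.cons (nat_lit 261) (C.node (nat_lit 0) (nat_lit 3) (nat_lit 6) C.nil) C.nil)) C.nil)) C.nil)) (C.cons (nat_lit 37) (C.node (nat_lit 0) (nat_lit 3) (nat_lit 5) (C.cons (nat_lit 41) (C.node (nat_lit 0) (nat_lit 2) (nat_lit 6) (C.cons (nat_lit 77) (C.node (nat_lit 0) (nat_lit 2) (nat_lit 7) (C.cons (nat_lit 133) (C.node (nat_lit 0) (nat_lit 2) (nat_lit 8) C.nil) C.nil)) (C.cons (nat_lit 69) (C.node (nat_lit 0) (nat_lit 3) (nat_lit 6) C.nil) C.nil))) C.nil)) C.nil))) C.nil)) C.nil))) C.nil))) C.nil))) C.nil))) (List.cons (C.node (nat_lit 0) (nat_lit 1)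 (nat_lit 6) (C.cons (nat_lit 71) (C.node (nat_lit 0) (nat_lit 1) (nat_lit 7) (C.cons (nat_lit 131) (C.node (nat_lit 0) (nat_lit 1) (nat_lit 8) (C.cons (nat_lit 259) (C.node (nat_lit 0) (nat_lit 3) (nat_lit 6) (C.cons (nat_lit 73)
  (C.ref (nat_lit 2) (nat_lit 36312527376)) C.nil)) C.nil)) C.nil)) (C.cons (nat_lit 67) (C.node (nat_lit 0) (nat_lit 1) (nat_lit 7) (C.cons (nat_lit 135) (C.node (nat_lit 0) (nat_lit 1) (nat_lit 8) (C.cons (nat_lit 259) (C.node (nat_lit 0) (nat_lit 3) (nat_lit 7) (C.cons (nat_lit 137) (C.ref (nat_lit 2) (nat_lit 36045140496)) C.nil)) C.nil)) (C.cons (nat_lit 131) (C.node (nat_lit 0) (nat_lit 1) (nat_lit 2) (C.cons (nat_lit 263) (C.node (nat_lit 0) (nat_lit 3) (nat_lit 8) (C.cons (nat_lit 265) (C.ref (nat_lit 2) (nat_lit 31751221776)) C.nil)) (C.cons (nat_lit 7) (C.node (nat_lit 0) (nat_lit 1) (nat_lit 8) (C.cons (nat_lit 259) (C.node (nat_lit 0) (nat_lit 2) (nat_lit 6) (C.cons (nat_lit 77) (C.node (nat_lit 0) (nat_lit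 2) (nat_lit 7) (C.cons (nat_lit 133) (C.node (nat_lit 0) (nat_lit 2) (nat_lit 8) C.nil) C.nil)) (C.cons (nat_lit 69) (C.node (nat_lit 0) (nat_lit 3) (nat_lit 6) C.nil) C.nil))) C.nil)) C.nil))) C.nil))) C.nil))) (List.cons (C.node (nat_lit 0) (nat_lit 1) (nat_lit 7) (C.cons (nat_lit 135) (C.node (nat_lit 0) (nat_lit 1) (nat_lit 8) (C.cons (nat_lit 259) (C.node (nat_lit 0) (nat_lit 3) (nat_lit 7) (C.cons (nat_lit 137) (C.node (nat_lit 0) (nat_lit 2) (nat_lit 3) (C.cons (nat_lit 269) (C.ref (nat_lit 1) (nat_lit 22690542096)) C.nil)) C.nil)) C.nil)) (C.cons (nat_lit 131) (C.node (nat_lit 0) (nat_lit 1) (nat_lit 2) (C.cons (nat_lit 263) (C.node (nat_lit 0) (nat_lit 3) (nat_lit 8) (C.cons (nat_lit 265) (C.node (nat_lit 0) (nat_lit 2) (nat_lit 3) (C.cons (nat_lit 141) (C.ref (nat_lit 1) (nat_lit 22674813456)) C.nil)) C.nil)) (C.cons (nat_lit 7) (C.node (nat_lit 0) (nat_lit 1) (nat_lit 8) C.nil) C.nil))) C.nil))) (List.cons (C.big C.nil (C.big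 (C.cons (nat_lit 271) (C.ref (nat_lit 0) (nat_lit 36344967696)) (C.cons (nat_lit 143) (C.ref (nat_lit 0) (nat_lit 32318435856)) (C.cons (nat_lit 79) (C.ref (nat_lit 0) (nat_lit 28040245776)) (C.cons (nat_lit 47) (C.ref (nat_lit 0) (nat_lit 23746327056)) (C.cons (nat_lit 31) (C.ref (nat_lit 0) (nat_lit 19451425296)) C.nil))))) (C.node (nat_lit 0) (nat_lit 1) (nat_lit 4) (C.cons (nat_lit 27) (C.node (nat_lit 0) (nat_lit 2) (nat_lit 4) (C.cons (nat_lit 21) (C.ref (nat_lit 4) (nat_lit 36344967696)) C.nil)) (C.cons (nat_lit 23) (C.node (nat_lit 0) (nat_lit 3) (nat_lit 4) (C.cons (nat_lit 25) (C.ref (nat_lit 4) (nat_lit 36344963856)) C.nil)) (C.cons (nat_lit 19) (C.node (nat_lit 0) (nat_lit 2) (nat_lit 4) (C.cons (nat_lit 29) (C.ref (nat_lit 4) (nat_lit 36344967456)) (C.cons (nat_lit 21) (C.node (nat_lit 0) (nat_lit 3) (nat_lit 4) (C.cons (nat_lit 25) (C.node (nat_lit 0) (nat_lit 1) (nat_lit 5) (C.cons (nat_lit 43) (C.node (nat_lit 0) (nat_lit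 2) (nat_lit 5) (C.cons (nat_lit 37) (C.ref (nat_lit 5) (nat_lit 36344967696)) C.nil)) (C.cons (nat_lit 39) (C.node (nat_lit 0) (nat_lit 3) (nat_lit 5) (C.cons (nat_lit 41) (C.ref (nat_lit 5) (nat_lit 36344963856)) C.nil)) (C.cons (nat_lit 35) (C.node (nat_lit 0) (nat_lit 2) (nat_lit 5) (C.cons (nat_lit 45) (C.ref (nat_lit 5) (nat_lit 36344967456)) (C.cons (nat_lit 37) (C.node (nat_lit 0) (nat_lit 3) (nat_lit 5) (C.cons (nat_lit 41) (C.node (nat_lit 0) (nat_lit 1) (nat_lit 6) (C.cons (nat_lit 75) (C.node (nat_lit 0) (nat_lit 2) (nat_lit 6) (C.cons (nat_lit 69) (C.ref (nat_lit 6) (nat_lit 36344967696)) C.nil)) (C.cons (nat_lit 71) (C.node (nat_lit 0) (nat_lit 3) (nat_lit 6) (C.cons (nat_lit 73) (C.ref (nat_lit 6) (nat_lit 36344963856)) C.nil)) (C.cons (nat_lit 67) (C.node (nat_lit 0) (nat_lit 2) (nat_lit 6) (C.cons (nat_lit 77) (C.ref (nat_lit 6) (nat_lit 36344967456)) (C.cons (nat_lit 69) (C.node (nat_lit 0) (nat_lit 3) (nat_lit 6) (C.cons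 (nat_lit 73) (C.node (nat_lit 0) (nat_lit 1) (nat_lit 7) (C.cons (nat_lit 139) (C.node (nat_lit 0) (nat_lit 2) (nat_lit 7) C.nil) (C.cons (nat_lit 135) (C.node (nat_lit 0) (nat_lit 3) (nat_lit 7) C.nil) C.nil))) C.nil)) C.nil))) C.nil)))) C.nil)) C.nil))) C.nil)))) C.nil)) C.nil))) C.nil)))))) (List.cons (C.node (nat_lit 1) (nat_lit 3) (nat_lit 5) (C.cons (nat_lit 170)
  (C.node (nat_lit 1) (nat_lit 3) (nat_lit 8) (C.cons (nat_lit 266) (C.node (nat_lit 3) (nat_lit 7) (nat_lit 8) (C.cons (nat_lit 392) (C.node (nat_lit 1) (nat_lit 7) (nat_lit 6) (C.cons (nat_lit 198) (C.node (nat_lit 1) (nat_lit 2) (nat_lit 8) C.nil) C.nil)) C.nil)) C.nil)) (C.cons (nat_lit 42) (C.node (nat_lit 1) (nat_lit 5) (nat_lit 7) (C.cons (nat_lit 162) (C.node (nat_lit 1) (nat_lit 3) (nat_lit 7) (C.cons (nat_lit 394) (C.node (nat_lit 2) (nat_lit 7) (nat_lit 8) (C.cons (nat_lit 388) (C.node (nat_lit 1) (nat_lit 2) (nat_lit 7) (C.cons (nat_lit 198) (C.node (nat_lit 1)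 (nat_lit 2) (nat_lit 8) (C.cons (nat_lit 262) (C.node (nat_lit 2) (nat_lit 6) (nat_lit 8) C.nil) C.nil)) (C.cons (nat_lit 134) (C.node (nat_lit 1) (nat_lit 6) (nat_lit 7) (C.cons (nat_lit 194) (C.node (nat_lit 1) (nat_lit 2) (nat_lit 6) (C.cons (nat_lit 326) (C.node (nat_lit 2) (nat_lit 3) (nat_lit 5) (C.cons (nat_lit 172) (C.node (nat_lit 2) (nat_lit 3) (nat_lit 6) C.nil) (C.cons (nat_lit 108) (C.node (nat_lit 2) (nat_lit 3) (nat_lit 7) C.nil) C.nil))) C.nil)) C.nil)) C.nil))) C.nil)) (C.cons (nat_lit 138) (C.node (nat_lit 1) (nat_lit 3) (nat_lit 8) (C.cons (nat_lit 266) (C.node (nat_lit 3) (nat_lit 7) (nat_lit 8) (C.cons (nat_lit 392) (C.node (nat_lit 1) (nat_lit 6) (nat_lit 7) C.nil) C.nil)) C.nil)) C.nil))) C.nil)) C.nil))) (List.cons (C.node (nat_lit 2) (nat_lit 5) (nat_lit 8) (C.cons (nat_lit 292) (C.node (nat_lit 3) (nat_lit 6) (nat_lit 8) (C.cons (nat_lit 328) (C.node (nat_lit 4) (nat_lit 7) (nat_lit 8) (C.cons (nat_lit 400) (C.node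 (nat_lit 1) (nat_lit 2) (nat_lit 3) (C.cons (nat_lit 142) (C.node (nat_lit 1) (nat_lit 5) (nat_lit 7) (C.cons (nat_lit 162) (C.node (nat_lit 1) (nat_lit 6) (nat_lit 7) (C.cons (nat_lit 194) (C.node (nat_lit 1) (nat_lit 7) (nat_lit 8) (C.cons (nat_lit 386) (C.node (nat_lit 2) (nat_lit 7) (nat_lit 8) (C.cons (nat_lit 388) (C.node (nat_lit 3) (nat_lit 7) (nat_lit 8) (C.cons (nat_lit 392) (C.node (nat_lit 1) (nat_lit 2) (nat_lit 4) (C.cons (nat_lit 86) (C.node (nat_lit 1) (nat_lit 2) (nat_lit 8) (C.cons (nat_lit 262) (C.node (nat_lit 1) (nat_lit 5) (nat_lit 6) (C.cons (nat_lit 98) (C.node (nat_lit 1) (nat_lit 6) (nat_lit 8) (C.cons (nat_lit 322) (C.node (nat_lit 2) (nat_lit 6) (nat_lit 7) (C.cons (nat_lit 196) (C.node (nat_lit 2) (nat_lit 6) (nat_lit 8) (C.cons (nat_lit 324) (C.node (nat_lit 4) (nat_lit 6) (nat_lit 8) C.nil) C.nil)) C.nil)) C.nil)) C.nil)) C.nil)) (C.cons (nat_lit 22) (C.node (nat_lit 1) (nat_lit 2) (nat_lit 6) (C.cons (nat_lit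 326) (C.node (nat_lit 4) (nat_lit 6) (nat_lit 8) (C.cons (nat_lit 336) (C.node (nat_lit 2) (nat_lit 5) (nat_lit 7) (C.cons (nat_lit 164) (C.node (nat_lit 2) (nat_lit 4) (nat_lit 7) (C.cons (nat_lit 148) (C.node (nat_lit 2) (nat_lit 6) (nat_lit 7) C.nil) C.nil)) C.nil)) C.nil)) (C.cons (nat_lit 70) (C.node (nat_lit 1) (nat_lit 2) (nat_lit 8) (C.cons (nat_lit 262) (C.node (nat_lit 2) (nat_lit 6) (nat_lit 8) (C.cons (nat_lit 324) (C.node (nat_lit 1) (nat_lit 3) (nat_lit 4) (C.cons (nat_lit 58) (C.node (nat_lit 1) (nat_lit 3) (nat_lit 8) C.nil) C.nil)) C.nil)) C.nil)) C.nil))) C.nil))) C.nil)) C.nil)) C.nil)) C.nil)) C.nil)) (C.cons (nat_lit 14) (C.node (nat_lit 1) (nat_lit 2) (nat_lit 4) (C.cons (nat_lit 86) (C.node (nat_lit 1) (nat_lit 5) (nat_lit 6) (C.cons (nat_lit 98) (C.node (nat_lit 1) (nat_lit 6) (nat_lit 7) (C.cons (nat_lit 194) (C.node (nat_lit 1) (nat_lit 6) (nat_lit 8) (C.cons (nat_lit 322) (C.node (nat_lit 2) (nat_lit 6) (nat_lit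 8) (C.cons (nat_lit 324) (C.node (nat_lit 4) (nat_lit 6) (nat_lit 8) (C.cons (nat_lit 336) (C.node (nat_lit 1) (nat_lit 2) (nat_lit 7) (C.cons (nat_lit 390) (C.node (nat_lit 3) (nat_lit 7) (nat_lit 8) (C.cons (nat_lit 392) (C.node (nat_lit 2) (nat_lit 5) (nat_lit 6) (C.cons (nat_lit 100) (C.node (nat_lit 2) (nat_lit 3) (nat_lit 6) (C.cons (nat_lit 76) (C.node (nat_lit 2) (nat_lit 7) (nat_lit 6) C.nil) C.nil)) C.nil)) C.nil)) (C.cons (nat_lit 134) (C.node (nat_lit 1) (nat_lit 2) (nat_lit 8) (C.cons (nat_lit 262)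
  (C.node (nat_lit 2) (nat_lit 7) (nat_lit 8) (C.cons (nat_lit 388) (C.node (nat_lit 1) (nat_lit 4) (nat_lit 3) (C.cons (nat_lit 58) (C.node (nat_lit 1) (nat_lit 4) (nat_lit 8) C.nil) C.nil)) C.nil)) C.nil)) C.nil))) C.nil)) C.nil)) C.nil)) C.nil)) C.nil)) (C.cons (nat_lit 22) (C.node (nat_lit 1) (nat_lit 3) (nat_lit 4) (C.cons (nat_lit 58) (C.node (nat_lit 1) (nat_lit 5) (nat_lit 6) (C.cons (nat_lit 98) (C.node (nat_lit 1) (nat_lit 5) (nat_lit 7) (C.cons (nat_lit 162) (C.node (nat_lit 1) (nat_lit 5) (nat_lit 8) (C.cons (nat_lit 290) (C.node (nat_lit 3) (nat_lit 5) (nat_lit 8) (C.cons (nat_lit 296) (C.node (nat_lit 4) (nat_lit 5) (nat_lit 8) (C.cons (nat_lit 304) (C.node (nat_lit 1) (nat_lit 3) (nat_lit 7) (C.cons (nat_lit 394) (C.node (nat_lit 2) (nat_lit 7) (nat_lit 8) (C.cons (nat_lit 388) (C.node (nat_lit 3) (nat_lit 5) (nat_lit 6) (C.cons (nat_lit 104) (C.node (nat_lit 2) (nat_lit 3) (nat_lit 5) (C.cons (nat_lit 44) (C.node (nat_lit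 3) (nat_lit 5) (nat_lit 7) C.nil) C.nil)) C.nil)) C.nil)) (C.cons (nat_lit 138) (C.node (nat_lit 1) (nat_lit 3) (nat_lit 8) (C.cons (nat_lit 266) (C.node (nat_lit 3) (nat_lit 7) (nat_lit 8) C.nil) C.nil)) C.nil))) C.nil)) C.nil)) C.nil)) C.nil)) C.nil)) (C.cons (nat_lit 26) (C.node (nat_lit 1) (nat_lit 5) (nat_lit 6) (C.cons (nat_lit 114) (C.node (nat_lit 1) (nat_lit 4) (nat_lit 8) (C.cons (nat_lit 274) (C.node (nat_lit 4) (nat_lit 5) (nat_lit 8) (C.cons (nat_lit 304) (C.node (nat_lit 4) (nat_lit 6) (nat_lit 8) (C.cons (nat_lit 336) (C.node (nat_lit 1) (nat_lit 5) (nat_lit 7) (C.cons (nat_lit 170) (C.node (nat_lit 1) (nat_lit 3) (nat_lit 8) (C.cons (nat_lit 266) (C.node (nat_lit 1) (nat_lit 5) (nat_lit 8) (C.cons (nat_lit 290) (C.node (nat_lit 5) (nat_lit 3) (nat_lit 4) (C.cons (nat_lit 56) (C.node (nat_lit 5) (nat_lit 3) (nat_lit 8) (C.cons (nat_lit 296) (C.node (nat_lit 7) (nat_lit 3) (nat_lit 8) C.nil) C.nil)) C.nil)) C.nil)) C.nil))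 (C.cons (nat_lit 162) (C.node (nat_lit 1) (nat_lit 3) (nat_lit 5) (C.cons (nat_lit 298) (C.node (nat_lit 1) (nat_lit 3) (nat_lit 7) (C.cons (nat_lit 138) (C.node (nat_lit 3) (nat_lit 7) (nat_lit 8) (C.cons (nat_lit 392) (C.node (nat_lit 1) (nat_lit 6) (nat_lit 7) (C.cons (nat_lit 198) (C.node (nat_lit 1) (nat_lit 2) (nat_lit 8) C.nil) C.nil)) C.nil)) C.nil)) (C.cons (nat_lit 42) (C.node (nat_lit 1) (nat_lit 5) (nat_lit 8) (C.cons (nat_lit 290) (C.node (nat_lit 3) (nat_lit 5) (nat_lit 8) C.nil) C.nil)) C.nil))) C.nil))) C.nil)) C.nil)) C.nil)) (C.cons (nat_lit 98) (C.node (nat_lit 1) (nat_lit 4) (nat_lit 5) (C.cons (nat_lit 306) (C.node (nat_lit 1) (nat_lit 4) (nat_lit 6) (C.cons (nat_lit 82) (C.node (nat_lit 3) (nat_lit 5) (nat_lit 8) (C.cons (nat_lit 296) (C.node (nat_lit 4) (nat_lit 6) (nat_lit 8) (C.cons (nat_lit 336) (C.ref (nat_lit 8) (nat_lit 36344967696)) C.nil)) C.nil)) C.nil)) (C.cons (nat_lit 50) (C.node (nat_lit 4) (nat_lit 5)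 (nat_lit 8) (C.cons (nat_lit 304) (C.node (nat_lit 1) (nat_lit 4) (nat_lit 6) (C.cons (nat_lit 338) (C.node (nat_lit 2) (nat_lit 6) (nat_lit 8) (C.cons (nat_lit 324) (C.ref (nat_lit 8) (nat_lit 36329235216)) C.nil)) (C.cons (nat_lit 82) (C.node (nat_lit 1) (nat_lit 4) (nat_lit 8) (C.cons (nat_lit 274) (C.node (nat_lit 4) (nat_lit 6) (nat_lit 8) (C.cons (nat_lit 336) (C.node (nat_lit 1) (nat_lit 5) (nat_lit 7) (C.cons (nat_lit 170) (C.node (nat_lit 1) (nat_lit 3) (nat_lit 8) (C.cons (nat_lit 266) (C.node (nat_lit 1) (nat_lit 5) (nat_lit 8) (C.cons (nat_lit 290) (C.node (nat_lit 3) (nat_lit 5) (nat_lit 8) C.nil) C.nil)) C.nil)) (C.cons (nat_lit 162) (C.node (nat_lit 1) (nat_lit 3) (nat_lit 5) (C.cons (nat_lit 298) (C.node (nat_lit 1) (nat_lit 3) (nat_lit 7) (C.cons (nat_lit 138) (C.node (nat_lit 3) (nat_lit 7) (nat_lit 8) (C.cons (nat_lit 392) (C.node (nat_lit 1) (nat_lit 7) (nat_lit 6) C.nil) C.nil)) C.nil)) (C.cons (nat_lit 42) (C.node (nat_lit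 1) (nat_lit 5) (nat_lit 8) C.nil) C.nil))) C.nil))) C.nil)) C.nil)) C.nil))) C.nil)) C.nil))) C.nil))) C.nil))) C.nil))) C.nil))) C.nil)) C.nil)) C.nil)) (List.cons
  (C.node (nat_lit 0) (nat_lit 4) (nat_lit 6) (C.cons (nat_lit 81) (C.node (nat_lit 0) (nat_lit 1) (nat_lit 4) (C.cons (nat_lit 147) (C.qs (C.cons (nat_lit 672) (C.pat (nat_lit 0) (nat_lit 159790369) (nat_lit 38108795736592656144857526108199)) (C.cons (nat_lit 608) (C.ref (nat_lit 9) (nat_lit 36344967696)) (C.cons (nat_lit 656) (C.ref (nat_lit 9) (nat_lit 36344967696)) (C.cons (nat_lit 592) (C.pat (nat_lit 0) (nat_lit 159860001) (nat_lit 38108805409179804682608339779623)) (C.cons (nat_lit 88) (C.ref (nat_lit 9) (nat_lit 36344967696)) (C.cons (nat_lit 644) (C.ref (nat_lit 9) (nat_lit 36344967696)) (C.cons (nat_lit 532) (C.ref (nat_lit 9) (nat_lit 36344967696)) (C.cons (nat_lit 148) (C.pat (nat_lit 1) (nat_lit 2539865377) (nat_lit 763278492553554455989212016702980577)) (C.cons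 (nat_lit 660) (C.pat (nat_lit 1) (nat_lit 2539865377) (nat_lit 763278492553554455989212016702980577)) (C.cons (nat_lit 578) (C.ref (nat_lit 9) (nat_lit 36344967696)) (C.cons (nat_lit 546) (C.ref (nat_lit 9) (nat_lit 36344967696)) (C.cons (nat_lit 98) (C.pat (nat_lit 1) (nat_lit 2524198177) (nat_lit 389428682048988579388426151949828577)) (C.cons (nat_lit 610) (C.pat (nat_lit 1) (nat_lit 2524198177) (nat_lit 389428682048988579388426151949828577)) (C.cons (nat_lit 518) (C.pat (nat_lit 0) (nat_lit 159860273) (nat_lit 38108844094879819327036768583755)) (C.cons (nat_lit 262) (C.ref (nat_lit 9) (nat_lit 36344967696)) (C.cons (nat_lit 161) (C.ref (nat_lit 9) (nat_lit 36344967696)) C.nil))))))))))))))))) C.nil)) C.nil)) (List.cons (C.node (nat_lit 0) (nat_lit 3) (nat_lit 5) (C.cons (nat_lit 41) (C.node (nat_lit 0) (nat_lit 4) (nat_lit 5) (C.cons (nat_lit 49) (C.node (nat_lit 0) (nat_lit 3) (nat_lit 6) (C.cons (nat_lit 75) (C.node (nat_lit 0) (nat_lit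 3) (nat_lit 7) (C.cons (nat_lit 137) (C.ref (nat_lit 10) (nat_lit 36344967696)) C.nil)) (C.cons (nat_lit 73) (C.node (nat_lit 0) (nat_lit 1) (nat_lit 3) (C.cons (nat_lit 139) (C.ref (nat_lit 10) (nat_lit 36093309456)) (C.cons (nat_lit 11) (C.node (nat_lit 0) (nat_lit 3) (nat_lit 7) C.nil) C.nil))) C.nil))) C.nil)) C.nil)) (List.cons (C.big C.nil (C.node (nat_lit 0) (nat_lit 1) (nat_lit 8) (C.cons (nat_lit 259) (C.node (nat_lit 0) (nat_lit 2) (nat_lit 5) (C.cons (nat_lit 39) (C.node (nat_lit 0) (nat_lit 2) (nat_lit 6) (C.cons (nat_lit 69) (C.node (nat_lit 0) (nat_lit 2) (nat_lit 7) (C.cons (nat_lit 133) (C.ref (nat_lit 11) (nat_lit 36344967696)) C.nil)) C.nil)) (C.cons (nat_lit 37) (C.node (nat_lit 0) (nat_lit 2) (nat_lit 6) (C.cons (nat_lit 71) (C.node (nat_lit 0) (nat_lit 2) (nat_lit 7) (C.cons (nat_lit 133) (C.ref (nat_lit 11) (nat_lit 36329239056)) C.nil)) (C.cons (nat_lit 69) (C.node (nat_lit 0) (nat_lit 1) (nat_lit 2) (C.cons (nat_lit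 135) (C.ref (nat_lit 11) (nat_lit 36061852176)) (C.cons (nat_lit 7) (C.node (nat_lit 0) (nat_lit 2) (nat_lit 7) (C.cons (nat_lit 133) (C.node (nat_lit 0) (nat_lit 3) (nat_lit 5) (C.cons (nat_lit 43) (C.node (nat_lit 0) (nat_lit 3) (nat_lit 6) (C.cons (nat_lit 73) (C.node (nat_lit 0) (nat_lit 3) (nat_lit 7) (C.cons (nat_lit 137) (C.node (nat_lit 0) (nat_lit 4) (nat_lit 5) C.nil) C.nil)) C.nil)) (C.cons (nat_lit 41) (C.node (nat_lit 0) (nat_lit 1) (nat_lit 5) (C.cons (nat_lit 51) (C.node (nat_lit 0) (nat_lit 4) (nat_lit 6) (C.cons (nat_lit 81) (C.node (nat_lit 0) (nat_lit 4) (nat_lit 7) C.nil) C.nil)) (C.cons (nat_lit 35) (C.node (nat_lit 0) (nat_lit 4) (nat_lit 5) C.nil) C.nil))) C.nil))) C.nil)) C.nil))) C.nil))) C.nil))) C.nil))) (List.cons (C.node (nat_lit 3) (nat_lit 5) (nat_lit 8) (C.cons (nat_lit 296) (C.node (nat_lit 4) (nat_lit 5) (nat_lit 8) (C.cons (nat_lit 304) (C.node (nat_lit 1) (nat_lit 2) (nat_lit 3) (C.cons (nat_lit 30) (C.node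 (nat_lit 1) (nat_lit 3) (nat_lit 8) (C.cons (nat_lit 394) (C.miq (nat_lit 1748240146) (nat_lit 339709723420348219421229191)) (C.cons (nat_lit 266) (C.node (nat_lit 1) (nat_lit 6) (nat_lit 8) (C.cons (nat_lit 338) (C.miq (nat_lit 629420129) (nat_lit 367514002577837920250626123)) (C.cons (nat_lit 322) (C.node (nat_lit 4) (nat_lit 6) (nat_lit 8)
  (C.cons (nat_lit 336) (C.node (nat_lit 1) (nat_lit 4) (nat_lit 8) (C.cons (nat_lit 402) (C.miq (nat_lit 1480787730) (nat_lit 339708985550585305398902919)) (C.cons (nat_lit 274) (C.node (nat_lit 1) (nat_lit 7) (nat_lit 8) (C.cons (nat_lit 386) (C.node (nat_lit 2) (nat_lit 4) (nat_lit 8) (C.cons (nat_lit 404) (C.miq (nat_lit 1749223201) (nat_lit 339709538952907525275385991)) (C.cons (nat_lit 276) (C.node (nat_lit 4) (nat_lit 7) (nat_lit 8) (C.cons (nat_lit 400) (C.node (nat_lit 1) (nat_lit 3) (nat_lit 5) (C.cons (nat_lit 170) (C.node (nat_lit 1) (nat_lit 4) (nat_lit 6) (C.cons (nat_lit 210) (C.node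 (nat_lit 2) (nat_lit 6) (nat_lit 7) C.nil) C.nil)) C.nil)) C.nil)) C.nil))) C.nil)) C.nil))) C.nil)) C.nil))) C.nil))) (C.cons (nat_lit 14) (C.node (nat_lit 1) (nat_lit 2) (nat_lit 4) (C.cons (nat_lit 22) (C.node (nat_lit 1) (nat_lit 3) (nat_lit 4) (C.cons (nat_lit 154) (C.node (nat_lit 1) (nat_lit 3) (nat_lit 5) (C.cons (nat_lit 42) (C.node (nat_lit 1) (nat_lit 3) (nat_lit 8) (C.cons (nat_lit 266) (C.node (nat_lit 1) (nat_lit 5) (nat_lit 7) (C.cons (nat_lit 162) (C.node (nat_lit 1) (nat_lit 6) (nat_lit 7) (C.cons (nat_lit 194) (C.node (nat_lit 1) (nat_lit 7) (nat_lit 8) (C.cons (nat_lit 386) (C.node (nat_lit 2) (nat_lit 3) (nat_lit 4) (C.cons (nat_lit 28) (C.node (nat_lit 3) (nat_lit 5) (nat_lit 7) (C.cons (nat_lit 168) (C.node (nat_lit 4) (nat_lit 6) (nat_lit 7) (C.cons (nat_lit 208) (C.node (nat_lit 2) (nat_lit 4) (nat_lit 5) C.nil) C.nil)) C.nil)) C.nil)) C.nil)) C.nil)) C.nil)) C.nil)) C.nil)) (C.cons (nat_lit 26) (C.node (nat_lit 1)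 (nat_lit 3) (nat_lit 5) (C.cons (nat_lit 170) (C.node (nat_lit 1) (nat_lit 3) (nat_lit 8) (C.cons (nat_lit 266) (C.node (nat_lit 1) (nat_lit 6) (nat_lit 7) (C.cons (nat_lit 210) (C.miq (nat_lit 1093822288) (nat_lit 16926529506961549014401505)) (C.cons (nat_lit 194) (C.node (nat_lit 2) (nat_lit 4) (nat_lit 5) (C.cons (nat_lit 180) (C.miq (nat_lit 1175920693) (nat_lit 234534929443097022766383149)) (C.cons (nat_lit 52) (C.node (nat_lit 2) (nat_lit 5) (nat_lit 7) (C.cons (nat_lit 164) (C.node (nat_lit 4) (nat_lit 5) (nat_lit 7) (C.cons (nat_lit 176) (C.node (nat_lit 2) (nat_lit 6) (nat_lit 7) (C.cons (nat_lit 204) (C.miq (nat_lit 588539728) (nat_lit 31433639340648249251004897)) (C.cons (nat_lit 196) (C.node (nat_lit 3) (nat_lit 4) (nat_lit 5) C.nil) C.nil))) C.nil)) C.nil)) C.nil))) C.nil))) C.nil)) (C.cons (nat_lit 42) (C.node (nat_lit 1) (nat_lit 5) (nat_lit 7) (C.cons (nat_lit 162) (C.node (nat_lit 1) (nat_lit 3) (nat_lit 7) (C.cons (nat_lit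 394) (C.node (nat_lit 2) (nat_lit 4) (nat_lit 8) (C.cons (nat_lit 404) (C.miq (nat_lit 1686307441) (nat_lit 339709538841443434521821319)) (C.cons (nat_lit 276) (C.node (nat_lit 2) (nat_lit 7) (nat_lit 8) (C.cons (nat_lit 388) (C.node (nat_lit 4) (nat_lit 7) (nat_lit 8) (C.cons (nat_lit 400) (C.node (nat_lit 2) (nat_lit 3) (nat_lit 8) (C.cons (nat_lit 332) (C.node (nat_lit 2) (nat_lit 6) (nat_lit 7) C.nil) C.nil)) C.nil)) C.nil)) C.nil))) (C.cons (nat_lit 138) (C.node (nat_lit 1) (nat_lit 3) (nat_lit 8) (C.cons (nat_lit 266) (C.node (nat_lit 1) (nat_lit 6) (nat_lit 7) (C.cons (nat_lit 210) (C.node (nat_lit 1) (nat_lit 4) (nat_lit 8) (C.cons (nat_lit 274) (C.node (nat_lit 1) (nat_lit 6) (nat_lit 8) (C.cons (nat_lit 322) (C.node (nat_lit 4) (nat_lit 6) (nat_lit 8) C.nil) C.nil)) C.nil)) (C.cons (nat_lit 194) (C.node (nat_lit 2) (nat_lit 3) (nat_lit 4) (C.cons (nat_lit 28) (C.node (nat_lit 2) (nat_lit 4) (nat_lit 5) (C.cons (nat_lit 52) (C.node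 (nat_lit 2) (nat_lit 5) (nat_lit 7) C.nil) C.nil)) C.nil)) C.nil))) C.nil)) C.nil))) C.nil)) C.nil))) C.nil))) C.nil)) C.nil))) C.nil)) C.nil)) List.nil))))))))))))))

theorem ok9_0 : okL par9 (nat_lit 14) c9_0 (nat_lit 0) = true := by decide +kernel

noncomputable def c9_14 : List C :=
  (List.cons (C.node (nat_lit 1) (nat_lit 5) (nat_lit 6) (C.cons (nat_lit 102) (C.node (nat_lit 1) (nat_lit 5) (nat_lit 7) (C.cons (nat_lit 170) (C.node (nat_lit 1) (nat_lit 5) (nat_lit 8) (C.cons (nat_lit 290) (C.node (nat_lit 3) (nat_lit 5) (nat_lit 8) (C.cons (nat_lit 296) (C.node (nat_lit 1) (nat_lit 3) (nat_lit 4) (C.cons (nat_lit 30) (C.miq (nat_lit 2232616484) (nat_lit 205522573004961573970509909)) (C.cons (nat_lit 26) (C.node (nat_lit 1) (nat_lit 6) (nat_lit 7) (C.cons (nat_lit 210) (C.miq (nat_lit 605226613) (nat_lit 31432901437389950446862817)) (C.cons (nat_lit 194) (C.node (nat_lit 1) (nat_lit 4) (nat_lit 6) (C.cons (nat_lit 338) (C.miq (nat_lit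 591483014) (nat_lit 31433952890543457776566753)) (C.cons (nat_lit 82) (C.node (nat_lit 1) (nat_lit 6) (nat_lit 8) (C.cons (nat_lit 322) (C.node (nat_lit 4) (nat_lit 6) (nat_lit 8) (C.cons (nat_lit 336) (C.node (nat_lit 2) (nat_lit 5) (nat_lit 7) (C.cons (nat_lit 180) (C.miq (nat_lit 1175920693) (nat_lit 234534929443097022766383149)) (C.cons (nat_lit 164) (C.node (nat_lit 4) (nat_lit 5) (nat_lit 7) (C.cons (nat_lit 176) (C.node (nat_lit 2) (nat_lit 4) (nat_lit 5) (C.cons (nat_lit 308) (C.miq (nat_lit 557078024) (nat_lit 31437752935865830849708513)) (C.cons (nat_lit 52) (C.node (nat_lit 2) (nat_lit 5) (nat_lit 8) (C.cons (nat_lit 292) (C.node (nat_lit 4) (nat_lit 5) (nat_lit 8) (C.cons (nat_lit 304) (C.node (nat_lit 2) (nat_lit 6) (nat_lit 7) (C.cons (nat_lit 204) (C.miq (nat_lit 588539728) (nat_lit 31433639340648249251004897)) (C.cons (nat_lit 196) (C.node (nat_lit 2) (nat_lit 3) (nat_lit 6) (C.cons (nat_lit 332) (C.miq (nat_lit 558064904)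 (nat_lit 31438195657723496799732193)) (C.cons (nat_lit 76) (C.node (nat_lit 2) (nat_lit 6) (nat_lit 8) (C.cons (nat_lit 324) (C.node (nat_lit 3) (nat_lit 5) (nat_lit 6) (C.cons (nat_lit 120) (C.miq (nat_lit 557057878) (nat_lit 31433639321226475862491617)) C.nil)) C.nil)) C.nil))) C.nil))) C.nil)) C.nil)) C.nil))) C.nil)) C.nil))) C.nil)) C.nil)) C.nil))) C.nil))) C.nil))) C.nil)) C.nil)) (C.cons (nat_lit 162) (C.node (nat_lit 1) (nat_lit 3) (nat_lit 5) (C.cons (nat_lit 298) (C.node (nat_lit 1) (nat_lit 2) (nat_lit 3) (C.cons (nat_lit 30) (C.node (nat_lit 1) (nat_lit 2) (nat_lit 8) (C.cons (nat_lit 262) (C.node (nat_lit 1) (nat_lit 3) (nat_lit 7) (C.cons (nat_lit 138) (C.node (nat_lit 1) (nat_lit 6) (nat_lit 7) (C.cons (nat_lit 210) (C.miq (nat_lit 2168869664) (nat_lit 253883295086851252896989229)) (C.cons (nat_lit 194) (C.node (nat_lit 1) (nat_lit 4) (nat_lit 6) (C.cons (nat_lit 338) (C.node (nat_lit 1) (nat_lit 4) (nat_lit 7) (C.cons (nat_lit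 146) (C.node (nat_lit 1) (nat_lit 7) (nat_lit 8) (C.cons (nat_lit 386) (C.node (nat_lit 2) (nat_lit 5) (nat_lit 7) (C.cons (nat_lit 180) (C.miq (nat_lit 1947619888) (nat_lit 408625799964309740006866989)) (C.cons (nat_lit 164) (C.node (nat_lit 2) (nat_lit 4) (nat_lit 5) (C.cons (nat_lit 308) (C.node (nat_lit 2) (nat_lit 4) (nat_lit 7) (C.cons (nat_lit 148) (C.node (nat_lit 4) (nat_lit 7) (nat_lit 8) (C.cons (nat_lit 400) (C.node (nat_lit 2) (nat_lit 6) (nat_lit 7) (C.cons (nat_lit 204) (C.miq (nat_lit 2251440389) (nat_lit 246626548893697918435655731)) (C.cons (nat_lit 196) (C.node (nat_lit 4) (nat_lit 5) (nat_lit 7) C.nil) C.nil))) C.nil)) C.nil)) (C.cons (nat_lit 52) (C.miq (nat_lit 2233733894) (nat_lit 62870377703337367252041803)) C.nil))) C.nil))) C.nil)) C.nil)) (C.cons (nat_lit 82) (C.miq (nat_lit 2168869664) (nat_lit 99140790176178718534598701)) C.nil))) C.nil))) C.nil)) C.nil)) (C.cons (nat_lit 14) (C.miq (nat_lit 1125255254) (nat_lit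 16926529526946822120407521)) C.nil))) (C.cons (nat_lit 42) (C.node (nat_lit 1) (nat_lit 5) (nat_lit 8) (C.cons (nat_lit 290) (C.node (nat_lit 3) (nat_lit 5) (nat_lit 8) (C.cons (nat_lit 296) (C.node (nat_lit 1) (nat_lit 6) (nat_lit 8) (C.cons (nat_lit 338) (C.miq (nat_lit 2169718304) (nat_lit 50780068054038117939478613)) (C.cons (nat_lit 322) (C.node (nat_lit 4) (nat_lit 6) (nat_lit 8) (C.cons (nat_lit 336) (C.node (nat_lit 2) (nat_lit 5) (nat_lit 8)
  (C.cons (nat_lit 308) (C.miq (nat_lit 360931904) (nat_lit 357843426140447534422229077)) (C.cons (nat_lit 292) (C.node (nat_lit 4) (nat_lit 5) (nat_lit 8) (C.cons (nat_lit 304) (C.node (nat_lit 2) (nat_lit 6) (nat_lit 8) (C.cons (nat_lit 332) (C.miq (nat_lit 377770544) (nat_lit 406200016203175035460452397)) (C.cons (nat_lit 324) (C.node (nat_lit 3) (nat_lit 6) (nat_lit 8) (C.cons (nat_lit 328) (C.node (nat_lit 1) (nat_lit 4) (nat_lit 6) (C.cons (nat_lit 210) (C.node (nat_lit 1) (nat_lit 3)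 (nat_lit 4) (C.cons (nat_lit 30) (C.miq (nat_lit 945963089) (nat_lit 391692519036558598232997939)) (C.cons (nat_lit 26) (C.node (nat_lit 2) (nat_lit 3) (nat_lit 6) (C.cons (nat_lit 204) (C.miq (nat_lit 890708038) (nat_lit 195849745926027556060004437)) (C.cons (nat_lit 76) (C.node (nat_lit 2) (nat_lit 6) (nat_lit 7) (C.cons (nat_lit 196) (C.node (nat_lit 3) (nat_lit 6) (nat_lit 7) (C.cons (nat_lit 200) (C.node (nat_lit 2) (nat_lit 4) (nat_lit 5) (C.cons (nat_lit 180) (C.miq (nat_lit 588533863) (nat_lit 31435391736580322349941217)) (C.cons (nat_lit 52) (C.node (nat_lit 3) (nat_lit 5) (nat_lit 6) (C.cons (nat_lit 120) (C.miq (nat_lit 558040933) (nat_lit 31432901451463699279118817)) C.nil)) C.nil))) C.nil)) C.nil)) C.nil))) C.nil))) (C.cons (nat_lit 82) (C.node (nat_lit 1) (nat_lit 6) (nat_lit 7) (C.cons (nat_lit 194) (C.node (nat_lit 2) (nat_lit 3) (nat_lit 6) (C.cons (nat_lit 204) (C.node (nat_lit 4) (nat_lit 6) (nat_lit 7) (C.cons (nat_lit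 208) (C.node (nat_lit 2) (nat_lit 3) (nat_lit 4) (C.cons (nat_lit 30) (C.miq (nat_lit 2250442004) (nat_lit 246626050871858965910519859)) (C.cons (nat_lit 28) (C.node (nat_lit 2) (nat_lit 4) (nat_lit 5) (C.cons (nat_lit 180) (C.miq (nat_lit 321128053) (nat_lit 33850863754268875517329889)) (C.cons (nat_lit 52) (C.node (nat_lit 3) (nat_lit 5) (nat_lit 6) C.nil) C.nil))) C.nil))) C.nil)) (C.cons (nat_lit 76) (C.node (nat_lit 2) (nat_lit 6) (nat_lit 7) (C.cons (nat_lit 196) (C.node (nat_lit 2) (nat_lit 4) (nat_lit 5) (C.cons (nat_lit 180) (C.node (nat_lit 3) (nat_lit 5) (nat_lit 7) (C.cons (nat_lit 168) (C.node (nat_lit 3) (nat_lit 4) (nat_lit 5) (C.cons (nat_lit 120) (C.miq (nat_lit 1902387253) (nat_lit 99135237660332304031547437)) C.nil)) C.nil)) (C.cons (nat_lit 52) (C.node (nat_lit 2) (nat_lit 5) (nat_lit 7) C.nil) C.nil))) C.nil)) C.nil))) C.nil)) C.nil))) C.nil)) C.nil))) C.nil)) C.nil))) C.nil)) C.nil))) C.nil)) C.nil)) C.nil))) C.nil)))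 (C.cons (nat_lit 98) (C.node (nat_lit 2) (nat_lit 5) (nat_lit 6) (C.cons (nat_lit 100) (C.node (nat_lit 1) (nat_lit 2) (nat_lit 5) (C.cons (nat_lit 294) (C.node (nat_lit 1) (nat_lit 2) (nat_lit 6) (C.cons (nat_lit 70) (C.ref (nat_lit 13) (nat_lit 36344967696)) C.nil)) (C.cons (nat_lit 38) (C.node (nat_lit 1) (nat_lit 2) (nat_lit 6) (C.cons (nat_lit 326) (C.ref (nat_lit 13) (nat_lit 36329177616)) (C.cons (nat_lit 70) (C.node (nat_lit 1) (nat_lit 5) (nat_lit 7) (C.cons (nat_lit 170) (C.node (nat_lit 1) (nat_lit 5) (nat_lit 8) (C.cons (nat_lit 290) (C.node (nat_lit 3) (nat_lit 5) (nat_lit 8) (C.cons (nat_lit 296) (C.node (nat_lit 1) (nat_lit 3) (nat_lit 4) (C.cons (nat_lit 30) (C.node (nat_lit 1) (nat_lit 2) (nat_lit 8) (C.cons (nat_lit 262) (C.node (nat_lit 1) (nat_lit 3) (nat_lit 8) (C.cons (nat_lit 266) (C.node (nat_lit 1) (nat_lit 6) (nat_lit 7) (C.cons (nat_lit 210) (C.node (nat_lit 1) (nat_lit 4) (nat_lit 8) (C.cons (nat_lit 274) (C.node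 (nat_lit 1) (nat_lit 6) (nat_lit 8) (C.cons (nat_lit 322) (C.node (nat_lit 1) (nat_lit 7) (nat_lit 8) (C.cons (nat_lit 386) (C.node (nat_lit 3) (nat_lit 4) (nat_lit 7) (C.cons (nat_lit 152) (C.node (nat_lit 4) (nat_lit 6) (nat_lit 8) (C.cons (nat_lit 336) (C.node (nat_lit 3) (nat_lit 6) (nat_lit 8) (C.cons (nat_lit 332) (C.miq (nat_lit 1982010373) (nat_lit 401366508117659526810632243)) C.nil)) C.nil)) C.nil)) C.nil)) C.nil)) C.nil)) (C.cons (nat_lit 194) (C.miq (nat_lit 1181818963) (nat_lit 234532162431487710090362925)) C.nil))) C.nil)) C.nil)) (C.cons (nat_lit 26) (C.node (nat_lit 1) (nat_lit 6) (nat_lit 7) (C.cons (nat_lit 210)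
  (C.miq (nat_lit 605226613) (nat_lit 31432901437389950446862817)) (C.cons (nat_lit 194) (C.node (nat_lit 2) (nat_lit 5) (nat_lit 7) (C.cons (nat_lit 180) (C.miq (nat_lit 1175920693) (nat_lit 234534929443097022766383149)) (C.cons (nat_lit 164) (C.node (nat_lit 4) (nat_lit 5) (nat_lit 7) (C.cons (nat_lit 176) (C.node (nat_lit 2) (nat_lit 6) (nat_lit 7) (C.cons (nat_lit 204) (C.miq (nat_lit 588539728) (nat_lit 31433639340648249251004897)) (C.cons (nat_lit 196) (C.node (nat_lit 3) (nat_lit 4) (nat_lit 5) (C.cons (nat_lit 120) (C.miq (nat_lit 557057878) (nat_lit 31433639321226475862491617)) (C.cons (nat_lit 56) (C.node (nat_lit 3) (nat_lit 5) (nat_lit 6) (C.cons (nat_lit 104) (C.node (nat_lit 4) (nat_lit 5) (nat_lit 6) (C.cons (nat_lit 112) (C.node (nat_lit 1) (nat_lit 2) (nat_lit 3) (C.cons (nat_lit 270) (C.node (nat_lit 1) (nat_lit 2) (nat_lit 4) C.nil) (C.cons (nat_lit 14) (C.node (nat_lit 1) (nat_lit 3) (nat_lit 8) (C.cons (nat_lit 266)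 (C.node (nat_lit 1) (nat_lit 2) (nat_lit 4) (C.cons (nat_lit 22) (C.node (nat_lit 1) (nat_lit 2) (nat_lit 8) C.nil) C.nil)) C.nil)) C.nil))) C.nil)) C.nil)) C.nil))) C.nil))) C.nil)) C.nil))) C.nil))) C.nil))) C.nil)) C.nil)) (C.cons (nat_lit 162) (C.node (nat_lit 1) (nat_lit 3) (nat_lit 5) (C.cons (nat_lit 298) (C.node (nat_lit 1) (nat_lit 2) (nat_lit 3) (C.cons (nat_lit 30) (C.miq (nat_lit 1361478464) (nat_lit 84633680340803168438124825)) (C.cons (nat_lit 14) (C.node (nat_lit 1) (nat_lit 6) (nat_lit 8) (C.cons (nat_lit 338) (C.miq (nat_lit 1093822544) (nat_lit 16926529542990895789179361)) (C.cons (nat_lit 322) (C.node (nat_lit 4) (nat_lit 6) (nat_lit 8) (C.cons (nat_lit 336) (C.node (nat_lit 2) (nat_lit 5) (nat_lit 8) (C.cons (nat_lit 308) (C.miq (nat_lit 407254304) (nat_lit 406200458980201796832919597)) (C.cons (nat_lit 292) (C.node (nat_lit 4) (nat_lit 5) (nat_lit 8) (C.cons (nat_lit 304) (C.node (nat_lit 2) (nat_lit 6) (nat_lit 8) (C.cons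 (nat_lit 332) (C.miq (nat_lit 1110509189) (nat_lit 16925902282479366602097121)) (C.cons (nat_lit 324) (C.node (nat_lit 3) (nat_lit 6) (nat_lit 8) (C.cons (nat_lit 328) (C.node (nat_lit 1) (nat_lit 2) (nat_lit 4) (C.cons (nat_lit 278) (C.node (nat_lit 1) (nat_lit 7) (nat_lit 8) (C.cons (nat_lit 386) (C.node (nat_lit 2) (nat_lit 4) (nat_lit 5) C.nil) C.nil)) (C.cons (nat_lit 22) (C.node (nat_lit 1) (nat_lit 2) (nat_lit 8) (C.cons (nat_lit 262) (C.node (nat_lit 2) (nat_lit 3) (nat_lit 6) (C.cons (nat_lit 204) (C.node (nat_lit 1) (nat_lit 4) (nat_lit 6) C.nil) C.nil)) C.nil)) C.nil))) C.nil)) C.nil))) C.nil)) C.nil))) C.nil)) C.nil))) C.nil))) (C.cons (nat_lit 42) (C.node (nat_lit 1) (nat_lit 5) (nat_lit 8) (C.cons (nat_lit 290) (C.node (nat_lit 3) (nat_lit 5) (nat_lit 8) (C.cons (nat_lit 296) (C.node (nat_lit 1) (nat_lit 6) (nat_lit 7) (C.cons (nat_lit 210) (C.node (nat_lit 1) (nat_lit 6) (nat_lit 8) (C.cons (nat_lit 322) (C.node (nat_lit 4)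 (nat_lit 6) (nat_lit 8) (C.cons (nat_lit 336) (C.node (nat_lit 1) (nat_lit 3) (nat_lit 4) (C.cons (nat_lit 30) (C.miq (nat_lit 1899324448) (nat_lit 50783757366823753593192533)) (C.cons (nat_lit 26) (C.node (nat_lit 2) (nat_lit 5) (nat_lit 7) (C.cons (nat_lit 180) (C.miq (nat_lit 588533863) (nat_lit 31435391736580322349941217)) (C.cons (nat_lit 164) (C.node (nat_lit 2) (nat_lit 6) (nat_lit 7) (C.cons (nat_lit 204) (C.miq (nat_lit 1160187958) (nat_lit 198267708247410080756793419)) (C.cons (nat_lit 196) (C.node (nat_lit 3) (nat_lit 6) (nat_lit 7) (C.cons (nat_lit 200) (C.node (nat_lit 3) (nat_lit 4) (nat_lit 6) (C.cons (nat_lit 120) (C.miq (nat_lit 558040933) (nat_lit 31432901451463699279118817)) (C.cons (nat_lit 88) (C.node (nat_lit 3) (nat_lit 5) (nat_lit 6) (C.cons (nat_lit 104) (C.node (nat_lit 4) (nat_lit 5) (nat_lit 6) (C.cons (nat_lit 112) (C.node (nat_lit 2) (nat_lit 4) (nat_lit 5) C.nil) C.nil)) C.nil)) C.nil))) C.nil)) C.nil))) C.nil)))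 C.nil))) C.nil)) C.nil)) (C.cons (nat_lit 194) (C.node (nat_lit 1) (nat_lit 4) (nat_lit 6) (C.cons (nat_lit 338) (C.node (nat_lit 1) (nat_lit 2) (nat_lit 4) (C.cons (nat_lit 30)
  (C.miq (nat_lit 2167759904) (nat_lit 50783757402852550612156501)) (C.cons (nat_lit 22) (C.node (nat_lit 2) (nat_lit 5) (nat_lit 8) (C.cons (nat_lit 308) (C.miq (nat_lit 826410629) (nat_lit 26597198156117233745789409)) (C.cons (nat_lit 292) (C.node (nat_lit 4) (nat_lit 5) (nat_lit 8) (C.cons (nat_lit 304) (C.node (nat_lit 2) (nat_lit 6) (nat_lit 8) (C.cons (nat_lit 332) (C.miq (nat_lit 675624464) (nat_lit 367514279359781730010726475)) (C.cons (nat_lit 324) (C.node (nat_lit 3) (nat_lit 6) (nat_lit 8) (C.cons (nat_lit 328) (C.node (nat_lit 1) (nat_lit 2) (nat_lit 3) (C.cons (nat_lit 14) (C.node (nat_lit 1) (nat_lit 2) (nat_lit 8) C.nil) C.nil)) C.nil)) C.nil))) C.nil)) C.nil))) C.nil))) (C.cons (nat_lit 82) (C.node (nat_lit 1) (nat_lit 6) (nat_lit 8) (C.cons (nat_lit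 322) (C.node (nat_lit 4) (nat_lit 6) (nat_lit 8) (C.cons (nat_lit 336) (C.node (nat_lit 2) (nat_lit 5) (nat_lit 7) (C.cons (nat_lit 180) (C.node (nat_lit 2) (nat_lit 5) (nat_lit 8) (C.cons (nat_lit 292) (C.node (nat_lit 3) (nat_lit 5) (nat_lit 7) (C.cons (nat_lit 168) (C.node (nat_lit 4) (nat_lit 5) (nat_lit 8) (C.cons (nat_lit 304) (C.node (nat_lit 3) (nat_lit 4) (nat_lit 5) (C.cons (nat_lit 120) (C.miq (nat_lit 1902387253) (nat_lit 99135237660332304031547437)) C.nil)) C.nil)) C.nil)) C.nil)) (C.cons (nat_lit 164) (C.node (nat_lit 2) (nat_lit 4) (nat_lit 5) (C.cons (nat_lit 308) (C.node (nat_lit 1) (nat_lit 2) (nat_lit 4) (C.cons (nat_lit 30) (C.miq (nat_lit 2216055344) (nat_lit 99140790178993468301049901)) (C.cons (nat_lit 22) (C.node (nat_lit 1) (nat_lit 2) (nat_lit 3) C.nil) C.nil))) (C.cons (nat_lit 52) (C.node (nat_lit 2) (nat_lit 5) (nat_lit 8) (C.cons (nat_lit 292) (C.node (nat_lit 4) (nat_lit 5) (nat_lit 8) C.nil) C.nil)) C.nil)))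 C.nil))) C.nil)) C.nil)) C.nil))) C.nil))) C.nil)) C.nil)) C.nil))) C.nil))) C.nil))) C.nil))) C.nil)) C.nil))) (List.cons (C.qs (C.cons (nat_lit 288) (C.ref (nat_lit 14) (nat_lit 36344967696)) (C.cons (nat_lit 48) (C.ref (nat_lit 14) (nat_lit 36344967696)) (C.cons (nat_lit 520) (C.ref (nat_lit 14) (nat_lit 36344967696)) (C.cons (nat_lit 136) (C.ref (nat_lit 14) (nat_lit 36344967696)) (C.cons (nat_lit 516) (C.ref (nat_lit 14) (nat_lit 36344967696)) (C.cons (nat_lit 36) (C.ref (nat_lit 14) (nat_lit 36344967696)) (C.cons (nat_lit 20) (C.ref (nat_lit 14) (nat_lit 36344967696)) (C.cons (nat_lit 52) (C.pat (nat_lit 1) (nat_lit 945067809) (nat_lit 1344827149535844608085213475014771169)) (C.cons (nat_lit 12) (C.ref (nat_lit 14) (nat_lit 36344967696)) (C.cons (nat_lit 524) (C.pat (nat_lit 1) (nat_lit 2207541025) (nat_lit 389444527565442670176362101493530761)) (C.cons (nat_lit 258) (C.ref (nat_lit 14) (nat_lit 36344967696)) (C.cons (nat_lit 130)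 (C.ref (nat_lit 14) (nat_lit 36344967696)) (C.cons (nat_lit 34) (C.ref (nat_lit 14) (nat_lit 36344967696)) (C.cons (nat_lit 290) (C.pat (nat_lit 1) (nat_lit 1214486305) (nat_lit 1344827149564858975341176163949937121)) (C.cons (nat_lit 10) (C.ref (nat_lit 14) (nat_lit 36344967696)) (C.cons (nat_lit 138) (C.pat (nat_lit 1) (nat_lit 2224248609) (nat_lit 264829402989621026762381289782575249)) (C.cons (nat_lit 65) (C.ref (nat_lit 14) (nat_lit 36344967696)) C.nil)))))))))))))))))) (List.cons (C.node (nat_lit 0) (nat_lit 2) (nat_lit 4) (C.cons (nat_lit 277) (C.node (nat_lit 0) (nat_lit 3) (nat_lit 8) (C.cons (nat_lit 265) (C.node (nat_lit 0) (nat_lit 3) (nat_lit 4) (C.cons (nat_lit 153) (C.ref (nat_lit 15) (nat_lit 36093305616)) C.nil)) C.nil)) (C.cons (nat_lit 21) (C.node (nat_lit 0) (nat_lit 2) (nat_lit 8) C.nil) C.nil))) (List.cons (C.node (nat_lit 0) (nat_lit 2) (nat_lit 6) (C.cons (nat_lit 85) (C.node (nat_lit 0) (nat_lit 2) (nat_lit 8) (C.cons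 (nat_lit 261) (C.node (nat_lit 0) (nat_lit 3) (nat_lit 7) (C.cons (nat_lit 153) (C.pat (nat_lit 0) (nat_lit 72759073) (nat_lit 38108931136579533333616682270855)) (C.cons (nat_lit 137) (C.node (nat_lit 0) (nat_lit 4) (nat_lit 7) (C.cons (nat_lit 145) (C.node (nat_lit 0) (nat_lit 3) (nat_lit 4) (C.cons (nat_lit 281)
  (C.ref (nat_lit 15) (nat_lit 36344967696)) C.nil)) C.nil)) C.nil))) C.nil)) (C.cons (nat_lit 69) (C.node (nat_lit 0) (nat_lit 4) (nat_lit 6) (C.cons (nat_lit 81) (C.ref (nat_lit 16) (nat_lit 36344967696)) C.nil)) C.nil))) (List.cons (C.node (nat_lit 0) (nat_lit 1) (nat_lit 7) (C.cons (nat_lit 135) (C.node (nat_lit 0) (nat_lit 1) (nat_lit 8) (C.cons (nat_lit 259) (C.ref (nat_lit 17) (nat_lit 36344967696)) C.nil)) (C.cons (nat_lit 131) (C.node (nat_lit 0) (nat_lit 1) (nat_lit 2) (C.cons (nat_lit 263) (C.ref (nat_lit 17) (nat_lit 32318435856)) (C.cons (nat_lit 7) (C.node (nat_lit 0) (nat_lit 1) (nat_lit 8) (C.cons (nat_lit 259)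 (C.node (nat_lit 0) (nat_lit 2) (nat_lit 6) (C.cons (nat_lit 85) (C.node (nat_lit 0) (nat_lit 2) (nat_lit 7) (C.cons (nat_lit 133) (C.node (nat_lit 0) (nat_lit 2) (nat_lit 8) C.nil) C.nil)) (C.cons (nat_lit 69) (C.node (nat_lit 0) (nat_lit 4) (nat_lit 6) C.nil) C.nil))) C.nil)) C.nil))) C.nil))) (List.cons (C.node (nat_lit 0) (nat_lit 2) (nat_lit 7) (C.cons (nat_lit 135) (C.node (nat_lit 0) (nat_lit 2) (nat_lit 8) (C.cons (nat_lit 261) (C.ref (nat_lit 16) (nat_lit 36344906016)) C.nil)) (C.cons (nat_lit 133) (C.node (nat_lit 0) (nat_lit 1) (nat_lit 2) (C.cons (nat_lit 263) (C.ref (nat_lit 16) (nat_lit 32318374176)) (C.cons (nat_lit 7) (C.node (nat_lit 0) (nat_lit 2) (nat_lit 8) C.nil) C.nil))) C.nil))) (List.cons (C.node (nat_lit 0) (nat_lit 1) (nat_lit 2) (C.cons (nat_lit 263) (C.node (nat_lit 0) (nat_lit 1) (nat_lit 3) (C.cons (nat_lit 139) (C.node (nat_lit 0) (nat_lit 2) (nat_lit 4) (C.cons (nat_lit 149) (C.node (nat_lit 0) (nat_lit 3)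 (nat_lit 4) (C.cons (nat_lit 281) (C.pat (nat_lit 0) (nat_lit 72824865) (nat_lit 38109085880265035626868460159239)) C.nil)) C.nil)) C.nil)) (C.cons (nat_lit 135) (C.node (nat_lit 0) (nat_lit 1) (nat_lit 3) (C.cons (nat_lit 267) (C.node (nat_lit 0) (nat_lit 2) (nat_lit 4) (C.cons (nat_lit 277) (C.node (nat_lit 0) (nat_lit 3) (nat_lit 4) (C.cons (nat_lit 153) (C.pat (nat_lit 0) (nat_lit 72890145) (nat_lit 38108931140121308195768928764039)) C.nil)) C.nil)) C.nil)) C.nil))) (List.cons (C.node (nat_lit 0) (nat_lit 1) (nat_lit 2) (C.cons (nat_lit 263) (C.node (nat_lit 0) (nat_lit 2) (nat_lit 6) (C.cons (nat_lit 85) (C.ref (nat_lit 16) (nat_lit 32302645776)) (C.cons (nat_lit 69) (C.node (nat_lit 0) (nat_lit 4) (nat_lit 6) C.nil) C.nil))) (C.cons (nat_lit 7) (C.node (nat_lit 0) (nat_lit 1) (nat_lit 8) C.nil) C.nil))) (List.cons (C.node (nat_lit 0) (nat_lit 1) (nat_lit 7) (C.cons (nat_lit 135) (C.node (nat_lit 0) (nat_lit 1) (nat_lit 8) (C.cons (nat_lit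 259) (C.node (nat_lit 0) (nat_lit 2) (nat_lit 6) (C.cons (nat_lit 85) (C.ref (nat_lit 16) (nat_lit 36329177616)) (C.cons (nat_lit 69) (C.node (nat_lit 0) (nat_lit 4) (nat_lit 6) C.nil) C.nil))) C.nil)) (C.cons (nat_lit 131) (C.ref (nat_lit 21) (nat_lit 36344967696)) C.nil))) (List.cons (C.node (nat_lit 0) (nat_lit 1) (nat_lit 6) (C.cons (nat_lit 75) (C.ref (nat_lit 22) (nat_lit 36344967696)) (C.cons (nat_lit 71) (C.ref (nat_lit 22) (nat_lit 36344963856)) (C.cons (nat_lit 67) (C.node (nat_lit 0) (nat_lit 1) (nat_lit 7) (C.cons (nat_lit 139) (C.ref (nat_lit 21) (nat_lit 36093309456)) (C.cons (nat_lit 135) (C.ref (nat_lit 21) (nat_lit 36093305616)) (C.cons (nat_lit 131) (C.node (nat_lit 0) (nat_lit 1) (nat_lit 2) (C.cons (nat_lit 263) (C.node (nat_lit 0) (nat_lit 1) (nat_lit 3) C.nil) (C.cons (nat_lit 15) (C.node (nat_lit 0) (nat_lit 1) (nat_lit 8) C.nil) C.nil))) C.nil)))) C.nil)))) (List.cons (C.node (nat_lit 0) (nat_lit 2) (nat_lit 5) (C.cons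 (nat_lit 45) (C.node (nat_lit 0) (nat_lit 1) (nat_lit 6) (C.cons (nat_lit 75) (C.ref (nat_lit 18) (nat_lit 36344967696)) (C.cons (nat_lit 71) (C.ref (nat_lit 18) (nat_lit 36344963856)) (C.cons (nat_lit 67) (C.node (nat_lit 0) (nat_lit 2) (nat_lit 6) (C.cons (nat_lit 85) (C.node (nat_lit 0) (nat_lit 3) (nat_lit 6) (C.cons (nat_lit 73) (C.ref (nat_lit 19) (nat_lit 36344967696)) C.nil)) (C.cons (nat_lit 69) (C.node (nat_lit 0) (nat_lit 3) (nat_lit 6) (C.cons (nat_lit 89)
  (C.ref (nat_lit 19) (nat_lit 36344963856)) (C.cons (nat_lit 73) (C.node (nat_lit 0) (nat_lit 4) (nat_lit 6) (C.cons (nat_lit 81) (C.ref (nat_lit 20) (nat_lit 36344967696)) C.nil)) C.nil))) C.nil))) C.nil)))) (C.cons (nat_lit 37) (C.node (nat_lit 0) (nat_lit 3) (nat_lit 5) (C.cons (nat_lit 41) (C.ref (nat_lit 23) (nat_lit 36344967696)) C.nil)) C.nil))) (List.cons (C.big (C.cons (nat_lit 285) (C.ref (nat_lit 12) (nat_lit 36344967696)) (C.cons (nat_lit 283) (C.ref (nat_lit 12)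 (nat_lit 36344967456)) (C.cons (nat_lit 279) (C.ref (nat_lit 12) (nat_lit 36344963376)) (C.cons (nat_lit 271) (C.ref (nat_lit 12) (nat_lit 36344897856)) (C.cons (nat_lit 157) (C.ref (nat_lit 12) (nat_lit 32318435856)) (C.cons (nat_lit 155) (C.ref (nat_lit 12) (nat_lit 32318435616)) (C.cons (nat_lit 151) (C.ref (nat_lit 12) (nat_lit 32318431536)) (C.cons (nat_lit 143) (C.ref (nat_lit 12) (nat_lit 32318366016)) (C.cons (nat_lit 93) (C.ref (nat_lit 12) (nat_lit 28040245776)) (C.cons (nat_lit 91) (C.ref (nat_lit 12) (nat_lit 28040245536)) (C.cons (nat_lit 87) (C.ref (nat_lit 12) (nat_lit 28040241456)) (C.cons (nat_lit 79) (C.ref (nat_lit 12) (nat_lit 28040175936)) (C.cons (nat_lit 61) (C.ref (nat_lit 12) (nat_lit 23746327056)) (C.cons (nat_lit 59) (C.ref (nat_lit 12) (nat_lit 23746326816)) (C.cons (nat_lit 55) (C.ref (nat_lit 12) (nat_lit 23746322736)) (C.cons (nat_lit 47) (C.ref (nat_lit 12) (nat_lit 23746257216)) (C.cons (nat_lit 31) (C.big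 C.nil (C.node (nat_lit 0) (nat_lit 1) (nat_lit 5) (C.cons (nat_lit 35) (C.node (nat_lit 0) (nat_lit 1) (nat_lit 6) (C.cons (nat_lit 67) (C.node (nat_lit 0) (nat_lit 1) (nat_lit 7) (C.cons (nat_lit 131) (C.node (nat_lit 0) (nat_lit 1) (nat_lit 8) (C.cons (nat_lit 259) (C.node (nat_lit 0) (nat_lit 2) (nat_lit 5) (C.cons (nat_lit 37) (C.node (nat_lit 0) (nat_lit 2) (nat_lit 6) (C.cons (nat_lit 69) (C.node (nat_lit 0) (nat_lit 2) (nat_lit 7) (C.cons (nat_lit 133) (C.node (nat_lit 0) (nat_lit 2) (nat_lit 8) C.nil) C.nil)) C.nil)) C.nil)) C.nil)) C.nil)) C.nil)) C.nil))) C.nil))))))))))))))))) (C.node (nat_lit 0) (nat_lit 1) (nat_lit 5) (C.cons (nat_lit 51) (C.ref (nat_lit 24) (nat_lit 36344967696)) (C.cons (nat_lit 43) (C.ref (nat_lit 24) (nat_lit 36344906256)) (C.cons (nat_lit 39) (C.ref (nat_lit 24) (nat_lit 36344840976)) (C.cons (nat_lit 35) (C.node (nat_lit 0) (nat_lit 2) (nat_lit 5) (C.cons (nat_lit 53) (C.node (nat_lit 0) (nat_lit 3) (nat_lit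 5) (C.cons (nat_lit 41) (C.ref (nat_lit 23) (nat_lit 36344967456)) C.nil)) (C.cons (nat_lit 45) (C.node (nat_lit 0) (nat_lit 4) (nat_lit 5) (C.cons (nat_lit 49) (C.ref (nat_lit 23) (nat_lit 36344906016)) C.nil)) (C.cons (nat_lit 37) (C.node (nat_lit 0) (nat_lit 3) (nat_lit 5) (C.cons (nat_lit 57) (C.ref (nat_lit 23) (nat_lit 36344963376)) (C.cons (nat_lit 41) (C.node (nat_lit 0) (nat_lit 4) (nat_lit 5) (C.cons (nat_lit 49) (C.node (nat_lit 0) (nat_lit 1) (nat_lit 6) (C.cons (nat_lit 83) (C.node (nat_lit 0) (nat_lit 2) (nat_lit 6) (C.cons (nat_lit 77) (C.ref (nat_lit 20) (nat_lit 36329239056)) C.nil)) (C.cons (nat_lit 75) (C.node (nat_lit 0) (nat_lit 2) (nat_lit 6) (C.cons (nat_lit 85) (C.ref (nat_lit 20) (nat_lit 36329177616)) C.nil)) (C.cons (nat_lit 71) (C.node (nat_lit 0) (nat_lit 3) (nat_lit 6) (C.cons (nat_lit 89) (C.ref (nat_lit 20) (nat_lit 36329112336)) C.nil)) C.nil)))) C.nil)) C.nil))) C.nil)))) C.nil)))))) (List.cons (C.node (nat_lit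 0) (nat_lit 3) (nat_lit 4) (C.cons (nat_lit 281) (C.node (nat_lit 0) (nat_lit 3) (nat_lit 5) (C.cons (nat_lit 41) (C.node (nat_lit 0) (nat_lit 4) (nat_lit 7) (C.cons (nat_lit 145) (C.node (nat_lit 0) (nat_lit 5) (nat_lit 6) (C.cons (nat_lit 225) (C.node (nat_lit 0) (nat_lit 5) (nat_lit 8) C.nil) (C.cons (nat_lit 353) (C.node (nat_lit 0) (nat_lit 5) (nat_lit 7) C.nil) C.nil))) C.nil)) C.nil)) (C.cons (nat_lit 25) (C.node (nat_lit 0) (nat_lit 3) (nat_lit 5) (C.cons (nat_lit 297) (C.node (nat_lit 0) (nat_lit 4) (nat_lit 7) (C.cons (nat_lit 401) (C.node (nat_lit 0) (nat_lit 6) (nat_lit 8) (C.cons (nat_lit 321)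
  (C.node (nat_lit 0) (nat_lit 5) (nat_lit 6) (C.cons (nat_lit 225) (C.pat (nat_lit 1) (nat_lit 1464219681) (nat_lit 721747089773253071567620953734971793)) C.nil)) C.nil)) (C.cons (nat_lit 145) (C.node (nat_lit 0) (nat_lit 4) (nat_lit 8) C.nil) C.nil))) (C.cons (nat_lit 41) (C.node (nat_lit 0) (nat_lit 3) (nat_lit 8) C.nil) C.nil))) C.nil))) (List.cons (C.node (nat_lit 0) (nat_lit 3) (nat_lit 4) (C.cons (nat_lit 281) (C.node (nat_lit 0) (nat_lit 3) (nat_lit 5) C.nil) (C.cons (nat_lit 57) (C.node (nat_lit 0) (nat_lit 3) (nat_lit 8) C.nil) C.nil))) (List.cons (C.node (nat_lit 0) (nat_lit 2) (nat_lit 4) (C.cons (nat_lit 149) (C.node (nat_lit 0) (nat_lit 2) (nat_lit 5) (C.cons (nat_lit 37) (C.node (nat_lit 0) (nat_lit 3) (nat_lit 4) (C.cons (nat_lit 281) (C.node (nat_lit 0) (nat_lit 3) (nat_lit 5) (C.cons (nat_lit 41) (C.node (nat_lit 0) (nat_lit 4) (nat_lit 5) (C.cons (nat_lit 49) (C.node (nat_lit 0) (nat_lit 5) (nat_lit 6) (C.cons (nat_lit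 353) (C.node (nat_lit 0) (nat_lit 5) (nat_lit 7) C.nil) (C.cons (nat_lit 225) (C.node (nat_lit 0) (nat_lit 5) (nat_lit 8) C.nil) C.nil))) C.nil)) C.nil)) (C.cons (nat_lit 57) (C.node (nat_lit 0) (nat_lit 3) (nat_lit 8) (C.cons (nat_lit 265) (C.node (nat_lit 0) (nat_lit 4) (nat_lit 8) (C.cons (nat_lit 273) (C.node (nat_lit 0) (nat_lit 5) (nat_lit 6) (C.cons (nat_lit 353) (C.node (nat_lit 0) (nat_lit 5) (nat_lit 7) C.nil) (C.cons (nat_lit 225) (C.node (nat_lit 0) (nat_lit 5) (nat_lit 8) C.nil) C.nil))) C.nil)) C.nil)) (C.cons (nat_lit 25) (C.node (nat_lit 0) (nat_lit 3) (nat_lit 5) (C.cons (nat_lit 297) (C.node (nat_lit 0) (nat_lit 4) (nat_lit 5) (C.cons (nat_lit 49) (C.node (nat_lit 0) (nat_lit 4) (nat_lit 8) C.nil) C.nil)) (C.cons (nat_lit 41) (C.node (nat_lit 0) (nat_lit 3) (nat_lit 8) C.nil) C.nil))) C.nil)))) C.nil)) (C.cons (nat_lit 53) (C.node (nat_lit 0) (nat_lit 2) (nat_lit 7) (C.cons (nat_lit 133) (C.ref (nat_lit 26) (nat_lit 36344967696))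 C.nil)) (C.cons (nat_lit 21) (C.node (nat_lit 0) (nat_lit 2) (nat_lit 5) (C.cons (nat_lit 165) (C.ref (nat_lit 26) (nat_lit 35489538576)) (C.cons (nat_lit 37) (C.node (nat_lit 0) (nat_lit 2) (nat_lit 7) (C.cons (nat_lit 133) (C.ref (nat_lit 27) (nat_lit 36344967696)) C.nil)) C.nil))) C.nil)))) (List.cons (C.node (nat_lit 0) (nat_lit 3) (nat_lit 4) (C.cons (nat_lit 281) (C.node (nat_lit 0) (nat_lit 3) (nat_lit 6) C.nil) C.nil)) (List.cons (C.node (nat_lit 0) (nat_lit 2) (nat_lit 3) (C.cons (nat_lit 77) (C.ref (nat_lit 28) (nat_lit 36344967696)) (C.cons (nat_lit 45) (C.node (nat_lit 0) (nat_lit 2) (nat_lit 4) (C.cons (nat_lit 149) (C.node (nat_lit 0) (nat_lit 2) (nat_lit 6) (C.cons (nat_lit 69) (C.ref (nat_lit 26) (nat_lit 36093248016)) C.nil)) (C.cons (nat_lit 21) (C.node (nat_lit 0) (nat_lit 2) (nat_lit 6) (C.cons (nat_lit 197) (C.ref (nat_lit 26) (nat_lit 35556385296)) (C.cons (nat_lit 69) (C.node (nat_lit 0) (nat_lit 2) (nat_lit 7) (C.cons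 (nat_lit 133) (C.ref (nat_lit 29) (nat_lit 36344967696)) C.nil)) C.nil))) C.nil))) (C.cons (nat_lit 29) (C.ref (nat_lit 28) (nat_lit 36311544336)) (C.cons (nat_lit 13) (C.node (nat_lit 0) (nat_lit 2) (nat_lit 4) (C.cons (nat_lit 149) (C.node (nat_lit 0) (nat_lit 2) (nat_lit 5) (C.cons (nat_lit 101) (C.ref (nat_lit 26) (nat_lit 35237818896)) (C.cons (nat_lit 37) (C.node (nat_lit 0) (nat_lit 2) (nat_lit 6) (C.cons (nat_lit 69) (C.ref (nat_lit 27) (nat_lit 36093248016)) C.nil)) C.nil))) (C.cons (nat_lit 53) (C.node (nat_lit 0) (nat_lit 2) (nat_lit 7) (C.cons (nat_lit 197) (C.ref (nat_lit 26) (nat_lit 35271242256)) (C.cons (nat_lit 133) (C.node (nat_lit 0) (nat_lit 2) (nat_lit 6) (C.cons (nat_lit 69) (C.ref (nat_lit 29) (nat_lit 36093248016)) C.nil)) C.nil))) (C.cons (nat_lit 21) (C.node (nat_lit 0) (nat_lit 2) (nat_lit 5) (C.cons (nat_lit 165) (C.node (nat_lit 0) (nat_lit 2) (nat_lit 6) (C.cons (nat_lit 69) (C.ref (nat_lit 29) (nat_lit 35271242256))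 C.nil)) (C.cons (nat_lit 101) (C.node (nat_lit 0) (nat_lit 2) (nat_lit 7) (C.cons (nat_lit 133) (C.ref (nat_lit 29) (nat_lit 35556385296)) C.nil)) (C.cons (nat_lit 37)
  (C.node (nat_lit 0) (nat_lit 2) (nat_lit 6) (C.cons (nat_lit 197) (C.ref (nat_lit 27) (nat_lit 35556385296)) C.nil)) C.nil)))) C.nil)))) C.nil))))) (List.cons (C.node (nat_lit 0) (nat_lit 2) (nat_lit 4) (C.cons (nat_lit 149) (C.node (nat_lit 0) (nat_lit 2) (nat_lit 5) (C.cons (nat_lit 37) (C.ref (nat_lit 27) (nat_lit 36093309216)) C.nil)) (C.cons (nat_lit 53) (C.node (nat_lit 0) (nat_lit 2) (nat_lit 7) (C.cons (nat_lit 133) (C.ref (nat_lit 29) (nat_lit 36061851936)) C.nil)) (C.cons (nat_lit 21) (C.node (nat_lit 0) (nat_lit 2) (nat_lit 5) (C.cons (nat_lit 165) (C.ref (nat_lit 27) (nat_lit 36092326176)) C.nil)) C.nil)))) (List.cons (C.node (nat_lit 0) (nat_lit 2) (nat_lit 3) (C.cons (nat_lit 77) (C.ref (nat_lit 31) (nat_lit 36344967696)) (C.cons (nat_lit 45) (C.ref (nat_lit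 31) (nat_lit 36329239056)) (C.cons (nat_lit 29) (C.ref (nat_lit 31) (nat_lit 36312527376)) (C.cons (nat_lit 13) (C.node (nat_lit 0) (nat_lit 2) (nat_lit 4) (C.cons (nat_lit 149) (C.node (nat_lit 0) (nat_lit 2) (nat_lit 5) (C.cons (nat_lit 101) (C.ref (nat_lit 29) (nat_lit 35537645856)) C.nil)) (C.cons (nat_lit 85) (C.node (nat_lit 0) (nat_lit 2) (nat_lit 5) (C.cons (nat_lit 165) (C.ref (nat_lit 29) (nat_lit 35806015776)) C.nil)) (C.cons (nat_lit 53) (C.node (nat_lit 0) (nat_lit 2) (nat_lit 6) (C.cons (nat_lit 197) (C.ref (nat_lit 29) (nat_lit 36057674016)) C.nil)) C.nil)))) C.nil))))) (List.cons (C.node (nat_lit 0) (nat_lit 1) (nat_lit 5) (C.cons (nat_lit 99) (C.ref (nat_lit 30) (nat_lit 36343984656)) (C.cons (nat_lit 35) (C.node (nat_lit 0) (nat_lit 1) (nat_lit 6) (C.cons (nat_lit 67) (C.ref (nat_lit 32) (nat_lit 36344967696)) C.nil)) C.nil))) (List.cons (C.node (nat_lit 0) (nat_lit 1) (nat_lit 4) (C.cons (nat_lit 83) (C.node (nat_lit 0)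 (nat_lit 1) (nat_lit 5) (C.cons (nat_lit 35) (C.ref (nat_lit 30) (nat_lit 36344967696)) C.nil)) (C.cons (nat_lit 51) (C.node (nat_lit 0) (nat_lit 1) (nat_lit 6) (C.cons (nat_lit 67) (C.ref (nat_lit 30) (nat_lit 36329239056)) C.nil)) (C.cons (nat_lit 19) (C.ref (nat_lit 33) (nat_lit 36344967696)) C.nil)))) (List.cons (C.node (nat_lit 0) (nat_lit 1) (nat_lit 6) (C.cons (nat_lit 195) (C.ref (nat_lit 32) (nat_lit 36327088656)) (C.cons (nat_lit 67) (C.node (nat_lit 0) (nat_lit 1) (nat_lit 7) C.nil) C.nil))) (List.cons (C.node (nat_lit 0) (nat_lit 1) (nat_lit 5) (C.cons (nat_lit 163) (C.node (nat_lit 0) (nat_lit 1) (nat_lit 6) (C.cons (nat_lit 67) (C.ref (nat_lit 32) (nat_lit 36343861776)) C.nil)) (C.cons (nat_lit 99) (C.node (nat_lit 0) (nat_lit 1) (nat_lit 7) (C.cons (nat_lit 131) (C.ref (nat_lit 32) (nat_lit 36092203536)) C.nil)) (C.cons (nat_lit 35) (C.ref (nat_lit 35) (nat_lit 36344967696)) C.nil)))) (List.cons (C.node (nat_lit 0) (nat_lit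 1) (nat_lit 4) (C.cons (nat_lit 147) (C.ref (nat_lit 33) (nat_lit 36344906256)) (C.cons (nat_lit 83) (C.ref (nat_lit 33) (nat_lit 36093248016)) (C.cons (nat_lit 51) (C.ref (nat_lit 33) (nat_lit 35825861136)) (C.cons (nat_lit 19) (C.ref (nat_lit 36) (nat_lit 36344967696)) C.nil))))) (List.cons (C.node (nat_lit 0) (nat_lit 1) (nat_lit 3) (C.cons (nat_lit 139) (C.ref (nat_lit 34) (nat_lit 36344967696)) (C.cons (nat_lit 75) (C.ref (nat_lit 34) (nat_lit 36093309456)) (C.cons (nat_lit 43) (C.ref (nat_lit 34) (nat_lit 35825922576)) (C.cons (nat_lit 27) (C.ref (nat_lit 34) (nat_lit 35557552656)) (C.cons (nat_lit 11) (C.ref (nat_lit 37) (nat_lit 36344967696)) C.nil)))))) List.nil)))))))))))))))))))))))))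

theorem ok9_14 : okL par9 (nat_lit 39) c9_14 (nat_lit 14) = true := by decide +kernel

noncomputable def c9_39 : List C :=
  (List.cons (C.big (C.cons (nat_lit 497) (C.ref (nat_lit 7) (nat_lit 36344967696)) (C.cons (nat_lit 489) (C.ref (nat_lit 7) (nat_lit 36344906256)) (C.cons (nat_lit 485) (C.ref (nat_lit 7) (nat_lit 36344840976)) (C.cons (nat_lit 483) (C.ref (nat_lit 7) (nat_lit 36344775456)) (C.cons (nat_lit 473) (C.ref (nat_lit 7) (nat_lit 36343861776)) (C.cons (nat_lit 469) (C.ref (nat_lit 7) (nat_lit 36343796496)) (C.cons (nat_lit 467) (C.ref (nat_lit 7) (nat_lit 36343730976)) (C.cons (nat_lit 461) (C.ref (nat_lit 7) (nat_lit 36342748176)) (C.cons (nat_lit 459) (C.ref (nat_lit 7) (nat_lit 36342682656)) (C.cons (nat_lit 455) (C.ref (nat_lit 7) (nat_lit 36341634096)) (C.cons (nat_lit 441) (C.ref (nat_lit 7) (nat_lit 36327088656)) (C.cons (nat_lit 437) (C.ref (nat_lit 7) (nat_lit 36327023376)) (C.cons (nat_lit 435) (C.ref (nat_lit 7)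 (nat_lit 36326957856)) (C.cons (nat_lit 429) (C.ref (nat_lit 7) (nat_lit 36325975056)) (C.cons (nat_lit 427) (C.ref (nat_lit 7) (nat_lit 36325909536)) (C.cons (nat_lit 423) (C.ref (nat_lit 7) (nat_lit 36324860976)) (C.cons (nat_lit 413) (C.ref (nat_lit 7) (nat_lit 36309198096)) (C.cons (nat_lit 411) (C.ref (nat_lit 7) (nat_lit 36309132576)) (C.cons (nat_lit 407) (C.ref (nat_lit 7) (nat_lit 36308084016)) (C.cons (nat_lit 399) (C.ref (nat_lit 7) (nat_lit 36291306816)) (C.cons (nat_lit 377) (C.ref (nat_lit 7) (nat_lit 36058657296)) (C.cons (nat_lit 373) (C.ref (nat_lit 7) (nat_lit 36058592016)) (C.cons (nat_lit 371) (C.ref (nat_lit 7) (nat_lit 36058526496)) (C.cons (nat_lit 365) (C.ref (nat_lit 7) (nat_lit 36057543696)) (C.cons (nat_lit 363) (C.ref (nat_lit 7) (nat_lit 36057478176)) (C.cons (nat_lit 359) (C.ref (nat_lit 7) (nat_lit 36056429616)) (C.cons (nat_lit 349) (C.ref (nat_lit 7) (nat_lit 36040766736)) (C.cons (nat_lit 347) (C.ref (nat_lit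 7) (nat_lit 36040701216)) (C.cons (nat_lit 343) (C.ref (nat_lit 7) (nat_lit 36039652656)) (C.cons (nat_lit 335) (C.ref (nat_lit 7) (nat_lit 36022875456)) (C.cons (nat_lit 317) (C.ref (nat_lit 7) (nat_lit 35772331536)) (C.cons (nat_lit 315) (C.ref (nat_lit 7) (nat_lit 35772266016)) (C.cons (nat_lit 311) (C.ref (nat_lit 7) (nat_lit 35771217456)) (C.cons (nat_lit 303) (C.ref (nat_lit 7) (nat_lit 35754440256)) (C.cons (nat_lit 287) (C.ref (nat_lit 7) (nat_lit 35486004816)) (C.cons (nat_lit 249) (C.ref (nat_lit 7) (nat_lit 31763694096)) (C.cons (nat_lit 245) (C.ref (nat_lit 7) (nat_lit 31763628816)) (C.cons (nat_lit 243) (C.ref (nat_lit 7) (nat_lit 31763563296)) (C.cons (nat_lit 237) (C.ref (nat_lit 7) (nat_lit 31762580496)) (C.cons (nat_lit 235) (C.ref (nat_lit 7) (nat_lit 31762514976)) (C.cons (nat_lit 231) (C.ref (nat_lit 7) (nat_lit 31761466416)) (C.cons (nat_lit 221) (C.ref (nat_lit 7) (nat_lit 31745803536)) (C.cons (nat_lit 219) (C.ref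 (nat_lit 7) (nat_lit 31745738016)) (C.cons (nat_lit 215) (C.ref (nat_lit 7) (nat_lit 31744689456)) (C.cons (nat_lit 207) (C.ref (nat_lit 7) (nat_lit 31727912256)) (C.cons (nat_lit 189) (C.ref (nat_lit 7) (nat_lit 31477368336)) (C.cons (nat_lit 187) (C.ref (nat_lit 7) (nat_lit 31477302816)) (C.cons (nat_lit 183) (C.ref (nat_lit 7) (nat_lit 31476254256)) (C.cons (nat_lit 175) (C.ref (nat_lit 7) (nat_lit 31459477056)) (C.cons (nat_lit 159) (C.ref (nat_lit 7) (nat_lit 31191041616)) (C.cons (nat_lit 125) (C.ref (nat_lit 7) (nat_lit 27182401296)) (C.cons (nat_lit 123) (C.ref (nat_lit 7) (nat_lit 27182335776)) (C.cons (nat_lit 119) (C.ref (nat_lit 7) (nat_lit 27181287216)) (C.cons (nat_lit 111) (C.ref (nat_lit 7) (nat_lit 27164510016)) (C.cons (nat_lit 95) (C.ref (nat_lit 7) (nat_lit 26896074576)) (C.cons (nat_lit 63) (C.ref (nat_lit 7) (nat_lit 22601107296)) C.nil)))))))))))))))))))))))))))))))))))))))))))))))))))))))) (C.big (C.cons (nat_lit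 481) (C.ref (nat_lit 25) (nat_lit 36344967696)) (C.cons (nat_lit 465) (C.ref (nat_lit 25) (nat_lit 36343984656)) (C.cons (nat_lit 457) (C.ref (nat_lit 25) (nat_lit 36342940176)) (C.cons (nat_lit 453) (C.ref (nat_lit 25) (nat_lit 36341891856)) (C.cons (nat_lit 451) (C.ref (nat_lit 25) (nat_lit 36340843296))
  (C.cons (nat_lit 433) (C.ref (nat_lit 25) (nat_lit 36327272976)) (C.cons (nat_lit 425) (C.ref (nat_lit 25) (nat_lit 36326228496)) (C.cons (nat_lit 421) (C.ref (nat_lit 25) (nat_lit 36325180176)) (C.cons (nat_lit 419) (C.ref (nat_lit 25) (nat_lit 36324131616)) (C.cons (nat_lit 409) (C.ref (nat_lit 25) (nat_lit 36309455376)) (C.cons (nat_lit 405) (C.ref (nat_lit 25) (nat_lit 36308407056)) (C.cons (nat_lit 403) (C.ref (nat_lit 25) (nat_lit 36307358496)) (C.cons (nat_lit 397) (C.ref (nat_lit 25) (nat_lit 36291630096)) (C.cons (nat_lit 395) (C.ref (nat_lit 25) (nat_lit 36290581536)) (C.cons (nat_lit 391) (C.ref (nat_lit 25) (nat_lit 36273804336))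 (C.cons (nat_lit 369) (C.ref (nat_lit 25) (nat_lit 36058903056)) (C.cons (nat_lit 361) (C.ref (nat_lit 25) (nat_lit 36057858576)) (C.cons (nat_lit 357) (C.ref (nat_lit 25) (nat_lit 36056810256)) (C.cons (nat_lit 355) (C.ref (nat_lit 25) (nat_lit 36055761696)) (C.cons (nat_lit 345) (C.ref (nat_lit 25) (nat_lit 36041085456)) (C.cons (nat_lit 341) (C.ref (nat_lit 25) (nat_lit 36040037136)) (C.cons (nat_lit 339) (C.ref (nat_lit 25) (nat_lit 36038988576)) (C.cons (nat_lit 333) (C.ref (nat_lit 25) (nat_lit 36023260176)) (C.cons (nat_lit 331) (C.ref (nat_lit 25) (nat_lit 36022211616)) (C.cons (nat_lit 327) (C.ref (nat_lit 25) (nat_lit 36005434416)) (C.cons (nat_lit 313) (C.ref (nat_lit 25) (nat_lit 35772654096)) (C.cons (nat_lit 309) (C.ref (nat_lit 25) (nat_lit 35771605776)) (C.cons (nat_lit 307) (C.ref (nat_lit 25) (nat_lit 35770557216)) (C.cons (nat_lit 301) (C.ref (nat_lit 25) (nat_lit 35754828816)) (C.cons (nat_lit 299) (C.ref (nat_lit 25)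 (nat_lit 35753780256)) (C.cons (nat_lit 295) (C.ref (nat_lit 25) (nat_lit 35737003056)) (C.cons (nat_lit 285) (C.ref (nat_lit 25) (nat_lit 35486393616)) (C.cons (nat_lit 283) (C.ref (nat_lit 25) (nat_lit 35485345056)) (C.cons (nat_lit 279) (C.ref (nat_lit 25) (nat_lit 35468567856)) (C.cons (nat_lit 271) (C.ref (nat_lit 25) (nat_lit 35200132416)) (C.cons (nat_lit 241) (C.ref (nat_lit 25) (nat_lit 31764001296)) (C.cons (nat_lit 233) (C.ref (nat_lit 25) (nat_lit 31762956816)) (C.cons (nat_lit 229) (C.ref (nat_lit 25) (nat_lit 31761908496)) (C.cons (nat_lit 227) (C.ref (nat_lit 25) (nat_lit 31760859936)) (C.cons (nat_lit 217) (C.ref (nat_lit 25) (nat_lit 31746183696)) (C.cons (nat_lit 213) (C.ref (nat_lit 25) (nat_lit 31745135376)) (C.cons (nat_lit 211) (C.ref (nat_lit 25) (nat_lit 31744086816)) (C.cons (nat_lit 205) (C.ref (nat_lit 25) (nat_lit 31728358416)) (C.cons (nat_lit 203) (C.ref (nat_lit 25) (nat_lit 31727309856)) (C.cons (nat_lit 199)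 (C.ref (nat_lit 25) (nat_lit 31710532656)) (C.cons (nat_lit 185) (C.ref (nat_lit 25) (nat_lit 31477752336)) (C.cons (nat_lit 181) (C.ref (nat_lit 25) (nat_lit 31476704016)) (C.cons (nat_lit 179) (C.ref (nat_lit 25) (nat_lit 31475655456)) (C.cons (nat_lit 173) (C.ref (nat_lit 25) (nat_lit 31459927056)) (C.cons (nat_lit 171) (C.ref (nat_lit 25) (nat_lit 31458878496)) (C.cons (nat_lit 167) (C.ref (nat_lit 25) (nat_lit 31442101296)) (C.cons (nat_lit 157) (C.ref (nat_lit 25) (nat_lit 31191491856)) (C.cons (nat_lit 155) (C.ref (nat_lit 25) (nat_lit 31190443296)) (C.cons (nat_lit 151) (C.ref (nat_lit 25) (nat_lit 31173666096)) (C.cons (nat_lit 143) (C.ref (nat_lit 25) (nat_lit 30905230656)) (C.cons (nat_lit 121) (C.ref (nat_lit 25) (nat_lit 27182789136)) (C.cons (nat_lit 117) (C.ref (nat_lit 25) (nat_lit 27181740816)) (C.cons (nat_lit 115) (C.ref (nat_lit 25) (nat_lit 27180692256)) (C.cons (nat_lit 109) (C.ref (nat_lit 25) (nat_lit 27164963856))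 (C.cons (nat_lit 107) (C.ref (nat_lit 25) (nat_lit 27163915296)) (C.cons (nat_lit 103) (C.ref (nat_lit 25) (nat_lit 27147138096)) (C.cons (nat_lit 93) (C.ref (nat_lit 25) (nat_lit 26896528656)) (C.cons (nat_lit 91) (C.ref (nat_lit 25) (nat_lit 26895480096)) (C.cons (nat_lit 87) (C.ref (nat_lit 25) (nat_lit 26878702896)) (C.cons (nat_lit 79) (C.ref (nat_lit 25) (nat_lit 26610267456)) (C.cons (nat_lit 61) (C.ref (nat_lit 25) (nat_lit 22601561616)) (C.cons (nat_lit 59)
  (C.ref (nat_lit 25) (nat_lit 22600513056)) (C.cons (nat_lit 55) (C.ref (nat_lit 25) (nat_lit 22583735856)) (C.cons (nat_lit 47) (C.ref (nat_lit 25) (nat_lit 22315300416)) (C.cons (nat_lit 31) (C.ref (nat_lit 25) (nat_lit 18020333136)) C.nil)))))))))))))))))))))))))))))))))))))))))))))))))))))))))))))))))))))) (C.node (nat_lit 0) (nat_lit 1) (nat_lit 2) (C.cons (nat_lit 263) (C.ref (nat_lit 38) (nat_lit 36344967696)) (C.cons (nat_lit 135) (C.ref (nat_lit 38) (nat_lit 32318435856))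 (C.cons (nat_lit 71) (C.ref (nat_lit 38) (nat_lit 28040245776)) (C.cons (nat_lit 39) (C.ref (nat_lit 38) (nat_lit 23746327056)) (C.cons (nat_lit 23) (C.ref (nat_lit 38) (nat_lit 19451425296)) (C.cons (nat_lit 15) (C.ref (nat_lit 38) (nat_lit 15156462096)) (C.cons (nat_lit 7) (C.node (nat_lit 0) (nat_lit 1) (nat_lit 3) (C.cons (nat_lit 267) (C.ref (nat_lit 37) (nat_lit 36344963856)) (C.cons (nat_lit 139) (C.ref (nat_lit 37) (nat_lit 32318432016)) (C.cons (nat_lit 75) (C.ref (nat_lit 37) (nat_lit 28040241936)) (C.cons (nat_lit 43) (C.ref (nat_lit 37) (nat_lit 23746323216)) (C.cons (nat_lit 27) (C.ref (nat_lit 37) (nat_lit 19451421456)) (C.cons (nat_lit 11) (C.node (nat_lit 0) (nat_lit 1) (nat_lit 4) (C.cons (nat_lit 275) (C.ref (nat_lit 36) (nat_lit 36344898576)) (C.cons (nat_lit 147) (C.ref (nat_lit 36) (nat_lit 32318366736)) (C.cons (nat_lit 83) (C.ref (nat_lit 36) (nat_lit 28040176656)) (C.cons (nat_lit 51) (C.ref (nat_lit 36) (nat_lit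 23746257936)) (C.cons (nat_lit 19) (C.node (nat_lit 0) (nat_lit 1) (nat_lit 5) (C.cons (nat_lit 291) (C.ref (nat_lit 35) (nat_lit 36343850256)) (C.cons (nat_lit 163) (C.ref (nat_lit 35) (nat_lit 32317318416)) (C.cons (nat_lit 99) (C.ref (nat_lit 35) (nat_lit 28039128336)) (C.cons (nat_lit 35) (C.node (nat_lit 0) (nat_lit 1) (nat_lit 6) (C.cons (nat_lit 323) (C.node (nat_lit 0) (nat_lit 1) (nat_lit 7) C.nil) (C.cons (nat_lit 195) (C.node (nat_lit 0) (nat_lit 1) (nat_lit 8) C.nil) C.nil))) C.nil))))) C.nil)))))) C.nil))))))) C.nil)))))))))) List.nil)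

theorem ok9_39 : okL par9 (nat_lit 40) c9_39 (nat_lit 39) = true := by decide +kernel


end Pool.Agent.MP_1f1ca1_co

end

section

set_option autoImplicit false
set_option maxRecDepth 1000000
set_option maxHeartbeats 0

namespace Pool.Agent.MP_1f1ca1_co

theorem parOK9 : ParOK par9 (nat_lit 29) :=
  ⟨by decide, by decide, by decide, by decide, tb9_3_ok, tb9_4_ok, tb9_5_ok, patLib_bad⟩

theorem allRef9 (α : Type) [DecidableEq α] : AllRef α par9 (nat_lit 40) := by
  have h := AllRef.zero (α := α) par9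
  replace h := AllRef.step ok9_0 h
  replace h := AllRef.step ok9_14 h
  replace h := AllRef.step ok9_39 h
  exact h

theorem eng9 {α : Type} [DecidableEq α] {P : Finset α} {B L : Finset (Finset α)} (G : Geo P B L)
    (hn : P.card = 9) (h6 : ∀ β ∈ B, β.card ≤ 6) : 1440 < 60 * (B \ L).card :=
  engine (j := 39) parOK9 (allRef9 α) rfl G hn h6

end Pool.Agent.MP_1f1ca1_co

end

section

set_option autoImplicit false
set_option maxRecDepth 1000000
set_option maxHeartbeats 0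

namespace Pool.Agent.MP_1f1ca1_co

theorem tb10_3_ok : tabOK (nat_lit 10) (nat_lit 80) (nat_lit 4627) (nat_lit 3) tb10_3 (nat_lit 37) = true := by decide +kernel

theorem tb10_4_ok : tabOK (nat_lit 10) (nat_lit 80) (nat_lit 4627) (nat_lit 4) tb10_4 (nat_lit 37) = true := by decide +kernel

theorem tb10_5_ok : tabOK (nat_lit 10) (nat_lit 80) (nat_lit 4627) (nat_lit 5) tb10_5 (nat_lit 37) = true := by decide +kernel


end Pool.Agent.MP_1f1ca1_co

end

section

set_option autoImplicit false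
set_option maxRecDepth 1000000
set_option maxHeartbeats 0

namespace Pool.Agent.MP_1f1ca1_co

noncomputable def c10_0 : List C :=
  (List.cons (C.big C.nil (C.big C.nil (C.node (nat_lit 0) (nat_lit 1) (nat_lit 5) (C.cons (nat_lit 35) (C.node (nat_lit 0) (nat_lit 1) (nat_lit 6) (C.cons (nat_lit 67) (C.node (nat_lit 0) (nat_lit 1) (nat_lit 7) (C.cons (nat_lit 131) (C.node (nat_lit 0) (nat_lit 1) (nat_lit 8) (C.cons (nat_lit 259) (C.node (nat_lit 0) (nat_lit 2) (nat_lit 5) (C.cons (nat_lit 37) (C.node (nat_lit 0) (nat_lit 2) (nat_lit 6) (C.cons (nat_lit 69) (C.node (nat_lit 0) (nat_lit 2) (nat_lit 7) (C.cons (nat_lit 133) (C.node (nat_lit 0) (nat_lit 2) (nat_lit 8) (C.cons (nat_lit 261) (C.node (nat_lit 0) (nat_lit 3) (nat_lit 5) (C.cons (nat_lit 41) (C.node (nat_lit 0) (nat_lit 3) (nat_lit 6) (C.cons (nat_lit 73) (C.node (nat_lit 0) (nat_lit 3) (nat_lit 7) C.nil) C.nil)) C.nil)) C.nil)) C.nil)) C.nil)) C.nil)) C.nil)) C.nil)) C.nil)) C.nil))))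 (List.cons (C.node (nat_lit 0) (nat_lit 3) (nat_lit 5) (C.cons (nat_lit 41) (C.node (nat_lit 0) (nat_lit 4) (nat_lit 5) (C.cons (nat_lit 49) (C.node (nat_lit 0) (nat_lit 3) (nat_lit 6) (C.cons (nat_lit 75) (C.node (nat_lit 0) (nat_lit 3) (nat_lit 7) (C.cons (nat_lit 137) (C.node (nat_lit 0) (nat_lit 3) (nat_lit 8) (C.cons (nat_lit 265) (C.node (nat_lit 0) (nat_lit 4) (nat_lit 6) C.nil) C.nil)) C.nil)) (C.cons (nat_lit 73) (C.node (nat_lit 0) (nat_lit 1) (nat_lit 6) (C.cons (nat_lit 83) (C.node (nat_lit 0) (nat_lit 4) (nat_lit 7) (C.cons (nat_lit 145) (C.node (nat_lit 0) (nat_lit 4) (nat_lit 8) C.nil) C.nil)) (C.cons (nat_lit 67) (C.node (nat_lit 0) (nat_lit 4) (nat_lit 6) C.nil) C.nil))) C.nil))) C.nil)) C.nil)) (List.cons (C.big C.nil (C.node (nat_lit 0) (nat_lit 1) (nat_lit 9) (C.cons (nat_lit 515) (C.node (nat_lit 0) (nat_lit 2) (nat_lit 5) (C.cons (nat_lit 39) (C.node (nat_lit 0) (nat_lit 2) (nat_lit 6) (C.cons (nat_lit 69) (C.node (nat_lit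 0) (nat_lit 2) (nat_lit 7) (C.cons (nat_lit 133) (C.node (nat_lit 0) (nat_lit 2) (nat_lit 8) (C.cons (nat_lit 261) (C.ref (nat_lit 1) (nat_lit 654820258320)) C.nil)) C.nil)) C.nil)) (C.cons (nat_lit 37) (C.node (nat_lit 0) (nat_lit 2) (nat_lit 6) (C.cons (nat_lit 71) (C.node (nat_lit 0) (nat_lit 2) (nat_lit 7) (C.cons (nat_lit 133) (C.node (nat_lit 0) (nat_lit 2) (nat_lit 8) (C.cons (nat_lit 261) (C.ref (nat_lit 1) (nat_lit 654804529680)) C.nil)) C.nil)) (C.cons (nat_lit 69) (C.node (nat_lit 0) (nat_lit 2) (nat_lit 7) (C.cons (nat_lit 135) (C.node (nat_lit 0) (nat_lit 2) (nat_lit 8) (C.cons (nat_lit 261) (C.ref (nat_lit 1) (nat_lit 654537142800)) C.nil)) (C.cons (nat_lit 133) (C.node (nat_lit 0) (nat_lit 1) (nat_lit 2) (C.cons (nat_lit 263) (C.ref (nat_lit 1) (nat_lit 650243224080)) (C.cons (nat_lit 7) (C.node (nat_lit 0) (nat_lit 2) (nat_lit 8) (C.cons (nat_lit 261) (C.node (nat_lit 0) (nat_lit 3) (nat_lit 5) (C.cons (nat_lit 43) (C.node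 (nat_lit 0) (nat_lit 3) (nat_lit 6) (C.cons (nat_lit 73) (C.node (nat_lit 0) (nat_lit 3) (nat_lit 7) (C.cons (nat_lit 137) (C.node (nat_lit 0) (nat_lit 3) (nat_lit 8) C.nil) C.nil)) C.nil)) (C.cons (nat_lit 41) (C.node (nat_lit 0) (nat_lit 1) (nat_lit 5) (C.cons (nat_lit 51) (C.node (nat_lit 0) (nat_lit 4) (nat_lit 6) (C.cons (nat_lit 81) (C.node (nat_lit 0) (nat_lit 4) (nat_lit 7) C.nil) C.nil)) (C.cons (nat_lit 35) (C.node (nat_lit 0) (nat_lit 4) (nat_lit 5) C.nil) C.nil))) C.nil))) C.nil)) C.nil))) C.nil))) C.nil))) C.nil))) C.nil))) (List.cons (C.qs C.nil) (List.cons (C.node (nat_lit 1) (nat_lit 5) (nat_lit 8) (C.cons (nat_lit 298) (C.node (nat_lit 1) (nat_lit 5) (nat_lit 9) (C.cons (nat_lit 546) (C.node (nat_lit 3) (nat_lit 5) (nat_lit 9) (C.cons (nat_lit 552) (C.node (nat_lit 4) (nat_lit 5) (nat_lit 8) (C.cons (nat_lit 304) (C.node (nat_lit 1) (nat_lit 2) (nat_lit 8) (C.cons (nat_lit 774) (C.node (nat_lit 3) (nat_lit 8) (nat_lit 9)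 (C.cons (nat_lit 776) (C.node (nat_lit 4) (nat_lit 8) (nat_lit 9) (C.cons (nat_lit 784) (C.node (nat_lit 1) (nat_lit 2) (nat_lit 3) (C.cons (nat_lit 30) (C.node (nat_lit 1) (nat_lit 3) (nat_lit 7) (C.cons (nat_lit 650) (C.miq (nat_lit 2301888274) (nat_lit 649198275160671727967404167)) (C.cons (nat_lit 138)
  (C.node (nat_lit 1) (nat_lit 3) (nat_lit 9) (C.cons (nat_lit 522) (C.node (nat_lit 1) (nat_lit 6) (nat_lit 7) (C.cons (nat_lit 210) (C.miq (nat_lit 2517894435) (nat_lit 253884328300144798679826477)) (C.cons (nat_lit 194) (C.node (nat_lit 1) (nat_lit 6) (nat_lit 8) (C.cons (nat_lit 338) (C.miq (nat_lit 2517894435) (nat_lit 408626833210817333042217005)) (C.cons (nat_lit 322) (C.node (nat_lit 1) (nat_lit 4) (nat_lit 6) (C.cons (nat_lit 594) (C.node (nat_lit 1) (nat_lit 7) (nat_lit 9) (C.cons (nat_lit 642) (C.node (nat_lit 1) (nat_lit 4) (nat_lit 7) (C.cons (nat_lit 402) (C.miq (nat_lit 897851505) (nat_lit 367514002577840119278076039)) (C.cons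 (nat_lit 146) (C.node (nat_lit 3) (nat_lit 7) (nat_lit 9) (C.cons (nat_lit 652) (C.miq (nat_lit 1764889605) (nat_lit 788221516123832182849208371)) C.nil)) C.nil))) C.nil)) (C.cons (nat_lit 82) (C.miq (nat_lit 2517894435) (nat_lit 99141823389472264317435949)) C.nil))) C.nil))) C.nil))) C.nil)) C.nil))) (C.cons (nat_lit 14) (C.node (nat_lit 1) (nat_lit 2) (nat_lit 4) (C.cons (nat_lit 22) (C.node (nat_lit 1) (nat_lit 6) (nat_lit 9) (C.cons (nat_lit 594) (C.miq (nat_lit 1092851280) (nat_lit 16934867543368964730848225)) (C.cons (nat_lit 578) (C.node (nat_lit 2) (nat_lit 5) (nat_lit 9) (C.cons (nat_lit 564) (C.miq (nat_lit 1108579680) (nat_lit 16934867534924715431494625)) (C.cons (nat_lit 548) (C.node (nat_lit 4) (nat_lit 5) (nat_lit 9) (C.cons (nat_lit 560) (C.node (nat_lit 3) (nat_lit 6) (nat_lit 9) (C.cons (nat_lit 588) (C.miq (nat_lit 840210000) (nat_lit 26606274098597148268626913)) (C.cons (nat_lit 584) (C.node (nat_lit 1) (nat_lit 3) (nat_lit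 4) (C.cons (nat_lit 154) (C.node (nat_lit 1) (nat_lit 3) (nat_lit 9) (C.cons (nat_lit 522) (C.node (nat_lit 1) (nat_lit 4) (nat_lit 9) (C.cons (nat_lit 530) (C.node (nat_lit 1) (nat_lit 6) (nat_lit 7) C.nil) C.nil)) C.nil)) (C.cons (nat_lit 26) (C.node (nat_lit 1) (nat_lit 3) (nat_lit 7) (C.cons (nat_lit 650) (C.node (nat_lit 1) (nat_lit 4) (nat_lit 9) (C.cons (nat_lit 530) (C.node (nat_lit 2) (nat_lit 3) (nat_lit 9) C.nil) C.nil)) (C.cons (nat_lit 138) (C.node (nat_lit 1) (nat_lit 3) (nat_lit 9) C.nil) C.nil))) C.nil))) C.nil))) C.nil)) C.nil))) C.nil))) C.nil)) C.nil))) C.nil)) C.nil)) (C.cons (nat_lit 262) (C.node (nat_lit 1) (nat_lit 6) (nat_lit 7) (C.cons (nat_lit 210) (C.node (nat_lit 1) (nat_lit 6) (nat_lit 8) (C.cons (nat_lit 322) (C.node (nat_lit 1) (nat_lit 6) (nat_lit 9) (C.cons (nat_lit 578) (C.node (nat_lit 1) (nat_lit 7) (nat_lit 8) (C.cons (nat_lit 386) (C.node (nat_lit 1) (nat_lit 3) (nat_lit 4) (C.cons (nat_lit 30) (C.miq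 (nat_lit 2517894435) (nat_lit 253884328300144798679826477)) (C.cons (nat_lit 26) (C.node (nat_lit 2) (nat_lit 5) (nat_lit 7) (C.cons (nat_lit 180) (C.miq (nat_lit 588533863) (nat_lit 31435391736580322349941729)) (C.cons (nat_lit 164) (C.node (nat_lit 2) (nat_lit 4) (nat_lit 5) (C.cons (nat_lit 564) (C.miq (nat_lit 557078025) (nat_lit 31442475302348700511699937)) (C.cons (nat_lit 52) (C.node (nat_lit 2) (nat_lit 5) (nat_lit 9) (C.cons (nat_lit 548) (C.node (nat_lit 4) (nat_lit 5) (nat_lit 9) (C.cons (nat_lit 560) (C.node (nat_lit 1) (nat_lit 2) (nat_lit 3) (C.cons (nat_lit 526) (C.node (nat_lit 1) (nat_lit 2) (nat_lit 4) C.nil) C.nil)) C.nil)) C.nil)) C.nil))) C.nil))) C.nil))) C.nil)) C.nil)) C.nil)) (C.cons (nat_lit 194) (C.node (nat_lit 1) (nat_lit 6) (nat_lit 8) (C.cons (nat_lit 338) (C.node (nat_lit 1) (nat_lit 6) (nat_lit 9) (C.cons (nat_lit 578) (C.node (nat_lit 1) (nat_lit 7) (nat_lit 8) (C.cons (nat_lit 386) (C.node (nat_lit 1) (nat_lit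 8) (nat_lit 9) (C.cons (nat_lit 770) (C.node (nat_lit 4) (nat_lit 8) (nat_lit 9) (C.cons (nat_lit 784) (C.node (nat_lit 2) (nat_lit 6) (nat_lit 8) (C.cons (nat_lit 332) (C.miq (nat_lit 675624464) (nat_lit 367514279359781730010726475)) (C.cons (nat_lit 324) (C.node (nat_lit 3) (nat_lit 6) (nat_lit 8) (C.cons (nat_lit 328) (C.node (nat_lit 3) (nat_lit 6) (nat_lit 9) (C.cons (nat_lit 588) (C.miq (nat_lit 1097401635) (nat_lit 698769029653178906946830381)) (C.cons (nat_lit 584)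
  (C.node (nat_lit 2) (nat_lit 5) (nat_lit 9) (C.cons (nat_lit 564) (C.miq (nat_lit 641290500) (nat_lit 706023082647311779997745203)) (C.cons (nat_lit 548) (C.node (nat_lit 4) (nat_lit 5) (nat_lit 9) (C.cons (nat_lit 560) (C.node (nat_lit 2) (nat_lit 4) (nat_lit 5) (C.cons (nat_lit 180) (C.node (nat_lit 3) (nat_lit 5) (nat_lit 7) (C.cons (nat_lit 168) (C.node (nat_lit 2) (nat_lit 6) (nat_lit 7) (C.cons (nat_lit 204) (C.miq (nat_lit 1197560368) (nat_lit 234532549839852191066292269)) (C.cons (nat_lit 196) (C.node (nat_lit 3) (nat_lit 5) (nat_lit 6) (C.cons (nat_lit 120) (C.miq (nat_lit 1902387253) (nat_lit 408620247481677372756328493)) C.nil)) C.nil))) C.nil)) (C.cons (nat_lit 52) (C.node (nat_lit 2) (nat_lit 5) (nat_lit 7) (C.cons (nat_lit 164) (C.node (nat_lit 2) (nat_lit 7) (nat_lit 8) C.nil) C.nil)) C.nil))) C.nil)) C.nil))) C.nil))) C.nil)) C.nil))) C.nil)) C.nil)) C.nil)) C.nil)) (C.cons (nat_lit 322) (C.node (nat_lit 1) (nat_lit 4)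 (nat_lit 6) (C.cons (nat_lit 594) (C.node (nat_lit 1) (nat_lit 8) (nat_lit 9) (C.cons (nat_lit 770) (C.node (nat_lit 4) (nat_lit 8) (nat_lit 9) (C.cons (nat_lit 784) (C.node (nat_lit 1) (nat_lit 2) (nat_lit 4) (C.cons (nat_lit 30) (C.node (nat_lit 1) (nat_lit 2) (nat_lit 9) (C.cons (nat_lit 518) (C.node (nat_lit 1) (nat_lit 3) (nat_lit 7) (C.cons (nat_lit 650) (C.miq (nat_lit 2301888274) (nat_lit 649198275160671727967404167)) (C.cons (nat_lit 138) (C.node (nat_lit 1) (nat_lit 3) (nat_lit 9) (C.cons (nat_lit 522) (C.node (nat_lit 1) (nat_lit 7) (nat_lit 9) (C.cons (nat_lit 642) (C.node (nat_lit 1) (nat_lit 4) (nat_lit 7) (C.cons (nat_lit 402) (C.miq (nat_lit 897851505) (nat_lit 367514002577840119278076039)) C.nil)) C.nil)) C.nil)) C.nil))) C.nil)) (C.cons (nat_lit 22) (C.miq (nat_lit 873597285) (nat_lit 26597198286159772484240353)) C.nil))) C.nil)) C.nil)) (C.cons (nat_lit 82) (C.node (nat_lit 1) (nat_lit 6) (nat_lit 9) (C.cons (nat_lit 578)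 (C.node (nat_lit 3) (nat_lit 6) (nat_lit 9) (C.cons (nat_lit 588) (C.miq (nat_lit 1097401635) (nat_lit 698769029653178906946830381)) (C.cons (nat_lit 584) (C.node (nat_lit 2) (nat_lit 5) (nat_lit 9) (C.cons (nat_lit 564) (C.miq (nat_lit 641290500) (nat_lit 706023082647311779997745203)) (C.cons (nat_lit 548) (C.node (nat_lit 4) (nat_lit 5) (nat_lit 9) (C.cons (nat_lit 560) (C.node (nat_lit 1) (nat_lit 7) (nat_lit 8) (C.cons (nat_lit 402) (C.node (nat_lit 1) (nat_lit 8) (nat_lit 9) (C.cons (nat_lit 770) (C.node (nat_lit 4) (nat_lit 8) (nat_lit 9) (C.cons (nat_lit 784) (C.node (nat_lit 1) (nat_lit 3) (nat_lit 4) (C.cons (nat_lit 30) (C.miq (nat_lit 597038085) (nat_lit 706014560231285512166506547)) (C.cons (nat_lit 26) (C.node (nat_lit 2) (nat_lit 7) (nat_lit 8) (C.cons (nat_lit 396) (C.miq (nat_lit 944056080) (nat_lit 367514279377796403398115463)) (C.cons (nat_lit 388) (C.node (nat_lit 3) (nat_lit 7) (nat_lit 8) (C.cons (nat_lit 392) (C.node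 (nat_lit 1) (nat_lit 2) (nat_lit 3) (C.cons (nat_lit 14) (C.node (nat_lit 1) (nat_lit 2) (nat_lit 4) C.nil) C.nil)) C.nil)) C.nil))) C.nil))) C.nil)) C.nil)) (C.cons (nat_lit 386) (C.node (nat_lit 1) (nat_lit 4) (nat_lit 8) (C.cons (nat_lit 786) (C.node (nat_lit 1) (nat_lit 2) (nat_lit 4) (C.cons (nat_lit 30) (C.miq (nat_lit 597038085) (nat_lit 706014560231285512166506547)) (C.cons (nat_lit 22) (C.node (nat_lit 2) (nat_lit 8) (nat_lit 9) (C.cons (nat_lit 780) (C.miq (nat_lit 422922272) (nat_lit 667327993432465745396957461)) (C.cons (nat_lit 772) (C.node (nat_lit 3) (nat_lit 8) (nat_lit 9) (C.cons (nat_lit 776) (C.node (nat_lit 1) (nat_lit 2) (nat_lit 9) C.nil) C.nil)) C.nil))) C.nil))) (C.cons (nat_lit 274) (C.node (nat_lit 1) (nat_lit 8) (nat_lit 9) (C.cons (nat_lit 770) (C.node (nat_lit 4) (nat_lit 8) (nat_lit 9) (C.cons (nat_lit 784) (C.node (nat_lit 1) (nat_lit 2) (nat_lit 3) (C.cons (nat_lit 526) (C.node (nat_lit 1) (nat_lit 2) (nat_lit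 4) C.nil) (C.cons (nat_lit 30)
  (C.miq (nat_lit 597038085) (nat_lit 706014560231285512166506547)) C.nil))) C.nil)) C.nil)) C.nil))) C.nil))) C.nil)) C.nil))) C.nil))) C.nil)) C.nil))) C.nil))) C.nil))) C.nil))) C.nil)) C.nil)) C.nil)) (C.cons (nat_lit 290) (C.node (nat_lit 1) (nat_lit 3) (nat_lit 5) (C.cons (nat_lit 554) (C.node (nat_lit 1) (nat_lit 6) (nat_lit 9) (C.cons (nat_lit 594) (C.miq (nat_lit 1076269905) (nat_lit 83426839070541452302221866)) (C.cons (nat_lit 578) (C.node (nat_lit 2) (nat_lit 5) (nat_lit 9) (C.cons (nat_lit 564) (C.miq (nat_lit 604395825) (nat_lit 97924873115434674792628778)) (C.cons (nat_lit 548) (C.node (nat_lit 4) (nat_lit 5) (nat_lit 9) (C.cons (nat_lit 560) (C.node (nat_lit 3) (nat_lit 6) (nat_lit 9) (C.cons (nat_lit 588) (C.miq (nat_lit 1097401635) (nat_lit 698769029653178906946830381)) (C.cons (nat_lit 584) (C.node (nat_lit 4) (nat_lit 8) (nat_lit 9) (C.cons (nat_lit 786) (C.miq (nat_lit 2169653552) (nat_lit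 123315543570042304475234841)) (C.cons (nat_lit 784) (C.node (nat_lit 3) (nat_lit 8) (nat_lit 9) (C.cons (nat_lit 780) (C.miq (nat_lit 428102432) (nat_lit 947798783517757519347122221)) (C.cons (nat_lit 776) (C.node (nat_lit 1) (nat_lit 6) (nat_lit 7) (C.cons (nat_lit 210) (C.node (nat_lit 1) (nat_lit 6) (nat_lit 8) (C.cons (nat_lit 322) (C.node (nat_lit 1) (nat_lit 7) (nat_lit 9) (C.cons (nat_lit 642) (C.node (nat_lit 2) (nat_lit 6) (nat_lit 7) (C.cons (nat_lit 204) (C.miq (nat_lit 1929667153) (nat_lit 649197039006732434348900454)) (C.cons (nat_lit 196) (C.node (nat_lit 3) (nat_lit 6) (nat_lit 7) (C.cons (nat_lit 200) (C.node (nat_lit 2) (nat_lit 4) (nat_lit 5) (C.cons (nat_lit 180) (C.miq (nat_lit 660821008) (nat_lit 241785994077075549627023411)) (C.cons (nat_lit 52) (C.node (nat_lit 2) (nat_lit 5) (nat_lit 7) (C.cons (nat_lit 164) (C.node (nat_lit 3) (nat_lit 5) (nat_lit 6) (C.cons (nat_lit 120) (C.miq (nat_lit 913462288) (nat_lit 236950290781728534329491507))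 (C.cons (nat_lit 104) (C.node (nat_lit 4) (nat_lit 5) (nat_lit 6) (C.cons (nat_lit 112) (C.node (nat_lit 1) (nat_lit 4) (nat_lit 9) (C.cons (nat_lit 530) (C.node (nat_lit 1) (nat_lit 2) (nat_lit 9) C.nil) C.nil)) C.nil)) C.nil))) C.nil)) C.nil))) C.nil)) C.nil))) C.nil)) C.nil)) (C.cons (nat_lit 194) (C.node (nat_lit 1) (nat_lit 4) (nat_lit 6) (C.cons (nat_lit 338) (C.node (nat_lit 2) (nat_lit 6) (nat_lit 8) (C.cons (nat_lit 332) (C.miq (nat_lit 1384383329) (nat_lit 334873392829867840484016203)) (C.cons (nat_lit 324) (C.node (nat_lit 3) (nat_lit 6) (nat_lit 8) (C.cons (nat_lit 328) (C.node (nat_lit 1) (nat_lit 7) (nat_lit 8) (C.cons (nat_lit 394) (C.node (nat_lit 2) (nat_lit 3) (nat_lit 8) (C.cons (nat_lit 268) (C.node (nat_lit 2) (nat_lit 7) (nat_lit 8) (C.cons (nat_lit 388) (C.node (nat_lit 4) (nat_lit 7) (nat_lit 8) (C.cons (nat_lit 400) (C.node (nat_lit 1) (nat_lit 2) (nat_lit 8) (C.cons (nat_lit 774) (C.node (nat_lit 1) (nat_lit 4)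 (nat_lit 9) (C.cons (nat_lit 658) (C.node (nat_lit 1) (nat_lit 2) (nat_lit 3) (C.cons (nat_lit 30) (C.miq (nat_lit 2468892992) (nat_lit 324010437429523078370885683)) (C.cons (nat_lit 14) (C.node (nat_lit 2) (nat_lit 3) (nat_lit 9) (C.cons (nat_lit 652) (C.miq (nat_lit 960833296) (nat_lit 676999289271200165672452231)) C.nil)) C.nil))) C.nil)) C.nil)) C.nil)) C.nil)) C.nil)) (C.cons (nat_lit 386) (C.node (nat_lit 1) (nat_lit 3) (nat_lit 7) (C.cons (nat_lit 154) (C.node (nat_lit 1) (nat_lit 7) (nat_lit 9) (C.cons (nat_lit 642) (C.node (nat_lit 3) (nat_lit 5) (nat_lit 7) (C.cons (nat_lit 168) (C.node (nat_lit 4) (nat_lit 7) (nat_lit 8) (C.cons (nat_lit 400) (C.node (nat_lit 1) (nat_lit 2) (nat_lit 3) (C.cons (nat_lit 270) (C.node (nat_lit 1) (nat_lit 8) (nat_lit 9) (C.cons (nat_lit 770) (C.node (nat_lit 2) (nat_lit 7) (nat_lit 8) C.nil) C.nil)) (C.cons (nat_lit 14) (C.node (nat_lit 1) (nat_lit 3) (nat_lit 8) C.nil) C.nil))) C.nil)) C.nil)) C.nil))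 (C.cons (nat_lit 138) (C.node (nat_lit 1) (nat_lit 3) (nat_lit 4) (C.cons (nat_lit 30) (C.miq (nat_lit 680738897) (nat_lit 938126989501247284346224691)) (C.cons (nat_lit 26)
  (C.node (nat_lit 1) (nat_lit 2) (nat_lit 3) (C.cons (nat_lit 270) (C.node (nat_lit 1) (nat_lit 8) (nat_lit 9) C.nil) (C.cons (nat_lit 14) (C.node (nat_lit 1) (nat_lit 3) (nat_lit 8) (C.cons (nat_lit 266) (C.node (nat_lit 1) (nat_lit 2) (nat_lit 8) C.nil) C.nil)) C.nil))) C.nil))) C.nil))) C.nil))) C.nil)) C.nil))) (C.cons (nat_lit 82) (C.node (nat_lit 1) (nat_lit 6) (nat_lit 8) (C.cons (nat_lit 322) (C.node (nat_lit 1) (nat_lit 7) (nat_lit 9) (C.cons (nat_lit 658) (C.node (nat_lit 1) (nat_lit 2) (nat_lit 4) (C.cons (nat_lit 30) (C.miq (nat_lit 680738897) (nat_lit 938126989501247284346224691)) (C.cons (nat_lit 22) (C.node (nat_lit 2) (nat_lit 3) (nat_lit 9) (C.cons (nat_lit 652) (C.miq (nat_lit 960833296) (nat_lit 676999289271200165672452231)) (C.cons (nat_lit 524)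 (C.node (nat_lit 2) (nat_lit 7) (nat_lit 9) (C.cons (nat_lit 644) (C.node (nat_lit 3) (nat_lit 7) (nat_lit 9) (C.cons (nat_lit 648) (C.node (nat_lit 1) (nat_lit 2) (nat_lit 9) (C.cons (nat_lit 774) (C.node (nat_lit 1) (nat_lit 2) (nat_lit 3) C.nil) C.nil)) C.nil)) C.nil)) C.nil))) C.nil))) (C.cons (nat_lit 642) (C.node (nat_lit 1) (nat_lit 4) (nat_lit 9) (C.cons (nat_lit 534) (C.node (nat_lit 1) (nat_lit 8) (nat_lit 9) (C.cons (nat_lit 770) (C.node (nat_lit 2) (nat_lit 6) (nat_lit 9) (C.cons (nat_lit 580) (C.node (nat_lit 2) (nat_lit 8) (nat_lit 9) C.nil) C.nil)) C.nil)) (C.cons (nat_lit 530) (C.node (nat_lit 1) (nat_lit 2) (nat_lit 4) (C.cons (nat_lit 30) (C.miq (nat_lit 680738897) (nat_lit 938126989501247284346224691)) (C.cons (nat_lit 22) (C.node (nat_lit 1) (nat_lit 2) (nat_lit 3) (C.cons (nat_lit 270) (C.node (nat_lit 1) (nat_lit 2) (nat_lit 9) (C.cons (nat_lit 518) (C.node (nat_lit 1) (nat_lit 8) (nat_lit 9) C.nil) C.nil)) (C.cons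 (nat_lit 14) (C.node (nat_lit 1) (nat_lit 2) (nat_lit 8) (C.cons (nat_lit 774) (C.node (nat_lit 2) (nat_lit 3) (nat_lit 9) (C.cons (nat_lit 524) (C.node (nat_lit 3) (nat_lit 7) (nat_lit 9) C.nil) C.nil)) C.nil)) C.nil))) C.nil))) C.nil))) C.nil))) C.nil)) C.nil))) C.nil))) C.nil))) C.nil))) C.nil))) C.nil)) C.nil))) C.nil))) (C.cons (nat_lit 42) (C.node (nat_lit 1) (nat_lit 5) (nat_lit 9) (C.cons (nat_lit 546) (C.node (nat_lit 3) (nat_lit 5) (nat_lit 9) (C.cons (nat_lit 552) (C.node (nat_lit 1) (nat_lit 6) (nat_lit 7) (C.cons (nat_lit 210) (C.node (nat_lit 1) (nat_lit 6) (nat_lit 8) (C.cons (nat_lit 322) (C.node (nat_lit 1) (nat_lit 6) (nat_lit 9) (C.cons (nat_lit 578) (C.node (nat_lit 2) (nat_lit 6) (nat_lit 7) (C.cons (nat_lit 204) (C.miq (nat_lit 1929667153) (nat_lit 649197039006732434348900454)) (C.cons (nat_lit 196) (C.node (nat_lit 3) (nat_lit 6) (nat_lit 7) (C.cons (nat_lit 200) (C.node (nat_lit 2) (nat_lit 5) (nat_lit 7) (C.cons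 (nat_lit 180) (C.miq (nat_lit 660821008) (nat_lit 241785994077075549627023411)) (C.cons (nat_lit 164) (C.node (nat_lit 3) (nat_lit 5) (nat_lit 6) (C.cons (nat_lit 120) (C.miq (nat_lit 913462288) (nat_lit 236950290781728534329491507)) (C.cons (nat_lit 104) (C.node (nat_lit 4) (nat_lit 5) (nat_lit 6) (C.cons (nat_lit 112) (C.node (nat_lit 3) (nat_lit 6) (nat_lit 9) (C.cons (nat_lit 588) (C.miq (nat_lit 1097401635) (nat_lit 698769029653178906946830381)) (C.cons (nat_lit 584) (C.node (nat_lit 2) (nat_lit 4) (nat_lit 5) (C.cons (nat_lit 564) (C.miq (nat_lit 641290500) (nat_lit 706023082647311779997745203)) (C.cons (nat_lit 52) (C.node (nat_lit 2) (nat_lit 5) (nat_lit 9) (C.cons (nat_lit 548) (C.node (nat_lit 4) (nat_lit 5) (nat_lit 9) (C.cons (nat_lit 560) (C.node (nat_lit 1) (nat_lit 7) (nat_lit 8) (C.cons (nat_lit 394) (C.node (nat_lit 1) (nat_lit 7) (nat_lit 9) C.nil) C.nil)) C.nil)) C.nil)) C.nil))) C.nil))) C.nil)) C.nil))) C.nil))) C.nil))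 C.nil))) C.nil)) C.nil)) (C.cons (nat_lit 194) (C.node (nat_lit 1) (nat_lit 6) (nat_lit 8) (C.cons (nat_lit 338) (C.node (nat_lit 1) (nat_lit 6) (nat_lit 9) (C.cons (nat_lit 578) (C.node (nat_lit 4) (nat_lit 8) (nat_lit 9) (C.cons (nat_lit 784) (C.node (nat_lit 2) (nat_lit 6) (nat_lit 8) (C.cons (nat_lit 332)
  (C.miq (nat_lit 1384383329) (nat_lit 334873392829867840484016203)) (C.cons (nat_lit 324) (C.node (nat_lit 3) (nat_lit 6) (nat_lit 8) (C.cons (nat_lit 328) (C.node (nat_lit 3) (nat_lit 6) (nat_lit 9) (C.cons (nat_lit 588) (C.miq (nat_lit 1097401635) (nat_lit 698769029653178906946830381)) (C.cons (nat_lit 584) (C.node (nat_lit 2) (nat_lit 5) (nat_lit 9) (C.cons (nat_lit 564) (C.miq (nat_lit 641290500) (nat_lit 706023082647311779997745203)) (C.cons (nat_lit 548) (C.node (nat_lit 4) (nat_lit 5) (nat_lit 9) (C.cons (nat_lit 560) (C.node (nat_lit 1) (nat_lit 7) (nat_lit 8) (C.cons (nat_lit 394) (C.node (nat_lit 2) (nat_lit 7) (nat_lit 8)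 (C.cons (nat_lit 388) (C.node (nat_lit 4) (nat_lit 7) (nat_lit 8) (C.cons (nat_lit 400) (C.node (nat_lit 1) (nat_lit 3) (nat_lit 4) (C.cons (nat_lit 30) (C.miq (nat_lit 597038085) (nat_lit 706014560231285512166506547)) (C.cons (nat_lit 26) (C.node (nat_lit 1) (nat_lit 2) (nat_lit 3) (C.cons (nat_lit 526) (C.node (nat_lit 1) (nat_lit 2) (nat_lit 4) C.nil) (C.cons (nat_lit 14) (C.node (nat_lit 1) (nat_lit 3) (nat_lit 9) C.nil) C.nil))) C.nil))) C.nil)) C.nil)) (C.cons (nat_lit 386) (C.node (nat_lit 2) (nat_lit 4) (nat_lit 5) (C.cons (nat_lit 180) (C.node (nat_lit 3) (nat_lit 5) (nat_lit 7) (C.cons (nat_lit 168) (C.node (nat_lit 2) (nat_lit 6) (nat_lit 7) (C.cons (nat_lit 204) (C.miq (nat_lit 1197560368) (nat_lit 234532549839852191066292269)) (C.cons (nat_lit 196) (C.node (nat_lit 3) (nat_lit 5) (nat_lit 6) (C.cons (nat_lit 120) (C.miq (nat_lit 1902387253) (nat_lit 408620247481677372756328493)) (C.cons (nat_lit 104) (C.node (nat_lit 4) (nat_lit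 5) (nat_lit 6) (C.cons (nat_lit 112) (C.node (nat_lit 3) (nat_lit 4) (nat_lit 5) (C.cons (nat_lit 312) (C.node (nat_lit 3) (nat_lit 7) (nat_lit 8) (C.cons (nat_lit 396) (C.miq (nat_lit 1215386400) (nat_lit 466646307243016514173337645)) C.nil)) C.nil)) C.nil)) C.nil))) C.nil))) C.nil)) (C.cons (nat_lit 52) (C.node (nat_lit 2) (nat_lit 5) (nat_lit 7) (C.cons (nat_lit 164) (C.node (nat_lit 2) (nat_lit 6) (nat_lit 9) (C.cons (nat_lit 596) (C.node (nat_lit 1) (nat_lit 2) (nat_lit 4) (C.cons (nat_lit 30) (C.miq (nat_lit 962740305) (nat_lit 720520342043797526814261299)) (C.cons (nat_lit 22) (C.node (nat_lit 1) (nat_lit 4) (nat_lit 9) (C.cons (nat_lit 530) (C.node (nat_lit 1) (nat_lit 7) (nat_lit 9) C.nil) C.nil)) C.nil))) (C.cons (nat_lit 580) (C.node (nat_lit 4) (nat_lit 6) (nat_lit 9) (C.cons (nat_lit 592) (C.node (nat_lit 1) (nat_lit 2) (nat_lit 4) (C.cons (nat_lit 534) (C.node (nat_lit 4) (nat_lit 7) (nat_lit 9) C.nil) (C.cons (nat_lit 30)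 (C.miq (nat_lit 962740305) (nat_lit 701177528929963460018962483)) C.nil))) C.nil)) C.nil))) C.nil)) C.nil))) C.nil))) C.nil)) C.nil))) C.nil))) C.nil)) C.nil))) C.nil)) C.nil)) (C.cons (nat_lit 322) (C.node (nat_lit 1) (nat_lit 4) (nat_lit 6) (C.cons (nat_lit 594) (C.node (nat_lit 4) (nat_lit 8) (nat_lit 9) (C.cons (nat_lit 784) (C.node (nat_lit 1) (nat_lit 2) (nat_lit 4) (C.cons (nat_lit 30) (C.node (nat_lit 1) (nat_lit 4) (nat_lit 7) (C.cons (nat_lit 402) (C.miq (nat_lit 1899332640) (nat_lit 50793202153832688412066069)) (C.cons (nat_lit 146) (C.node (nat_lit 1) (nat_lit 4) (nat_lit 8) (C.cons (nat_lit 274) (C.node (nat_lit 1) (nat_lit 7) (nat_lit 9) (C.cons (nat_lit 650) (C.miq (nat_lit 2301888274) (nat_lit 649198275160671727967404167)) (C.cons (nat_lit 642) (C.node (nat_lit 2) (nat_lit 5) (nat_lit 7) (C.cons (nat_lit 180) (C.miq (nat_lit 1947619888) (nat_lit 718120254518620548022075437)) (C.cons (nat_lit 164) (C.node (nat_lit 2) (nat_lit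 4) (nat_lit 5) (C.cons (nat_lit 564) (C.node (nat_lit 4) (nat_lit 7) (nat_lit 9) (C.cons (nat_lit 656) (C.node (nat_lit 2) (nat_lit 6) (nat_lit 8) (C.cons (nat_lit 332) (C.miq (nat_lit 2519875845) (nat_lit 401373776242910916481187891)) (C.cons (nat_lit 324) (C.node (nat_lit 2) (nat_lit 6) (nat_lit 9) (C.cons (nat_lit 588) (C.node (nat_lit 2) (nat_lit 7) (nat_lit 9) (C.cons (nat_lit 644) (C.node (nat_lit 3) (nat_lit 7) (nat_lit 9) C.nil) C.nil)) (C.cons (nat_lit 580)
  (C.miq (nat_lit 848692545) (nat_lit 701178358894959245898416179)) C.nil))) C.nil))) C.nil)) (C.cons (nat_lit 52) (C.miq (nat_lit 2485477680) (nat_lit 62882460404022175687573579)) C.nil))) C.nil))) C.nil))) C.nil)) C.nil))) (C.cons (nat_lit 22) (C.miq (nat_lit 873597285) (nat_lit 26597198286159772484240353)) C.nil))) C.nil)) (C.cons (nat_lit 82) (C.node (nat_lit 1) (nat_lit 6) (nat_lit 9) (C.cons (nat_lit 578) (C.node (nat_lit 3) (nat_lit 6) (nat_lit 9) (C.cons (nat_lit 588)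 (C.miq (nat_lit 1097401635) (nat_lit 698769029653178906946830381)) (C.cons (nat_lit 584) (C.node (nat_lit 2) (nat_lit 5) (nat_lit 9) (C.cons (nat_lit 564) (C.miq (nat_lit 641290500) (nat_lit 706023082647311779997745203)) (C.cons (nat_lit 548) (C.node (nat_lit 4) (nat_lit 5) (nat_lit 9) (C.cons (nat_lit 560) (C.node (nat_lit 2) (nat_lit 4) (nat_lit 5) (C.cons (nat_lit 180) (C.node (nat_lit 3) (nat_lit 5) (nat_lit 7) (C.cons (nat_lit 168) (C.node (nat_lit 2) (nat_lit 6) (nat_lit 7) (C.cons (nat_lit 204) (C.miq (nat_lit 1197560368) (nat_lit 234532549839852191066292269)) (C.cons (nat_lit 196) (C.node (nat_lit 3) (nat_lit 5) (nat_lit 6) (C.cons (nat_lit 120) (C.miq (nat_lit 1902387253) (nat_lit 99135237660332304031547437)) (C.cons (nat_lit 104) (C.node (nat_lit 4) (nat_lit 5) (nat_lit 6) (C.cons (nat_lit 112) (C.node (nat_lit 3) (nat_lit 4) (nat_lit 5) (C.cons (nat_lit 312) (C.node (nat_lit 4) (nat_lit 6) (nat_lit 8) (C.cons (nat_lit 336) (C.node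 (nat_lit 2) (nat_lit 6) (nat_lit 8) (C.cons (nat_lit 332) (C.node (nat_lit 2) (nat_lit 4) (nat_lit 6) C.nil) C.nil)) C.nil)) C.nil)) C.nil)) C.nil))) C.nil))) C.nil)) (C.cons (nat_lit 52) (C.node (nat_lit 2) (nat_lit 5) (nat_lit 7) (C.cons (nat_lit 164) (C.node (nat_lit 2) (nat_lit 6) (nat_lit 8) (C.cons (nat_lit 332) (C.node (nat_lit 2) (nat_lit 7) (nat_lit 8) (C.cons (nat_lit 388) (C.node (nat_lit 4) (nat_lit 6) (nat_lit 8) (C.cons (nat_lit 336) (C.node (nat_lit 1) (nat_lit 2) (nat_lit 8) (C.cons (nat_lit 774) (C.node (nat_lit 3) (nat_lit 8) (nat_lit 9) (C.cons (nat_lit 776) (C.node (nat_lit 4) (nat_lit 8) (nat_lit 9) (C.cons (nat_lit 784) (C.node (nat_lit 1) (nat_lit 3) (nat_lit 9) C.nil) C.nil)) C.nil)) (C.cons (nat_lit 262) (C.node (nat_lit 2) (nat_lit 8) (nat_lit 9) (C.cons (nat_lit 772) (C.node (nat_lit 2) (nat_lit 6) (nat_lit 7) (C.cons (nat_lit 212) (C.node (nat_lit 2) (nat_lit 6) (nat_lit 9) C.nil) C.nil)) C.nil)) C.nil))) C.nil))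 C.nil)) (C.cons (nat_lit 324) (C.node (nat_lit 2) (nat_lit 6) (nat_lit 9) (C.cons (nat_lit 596) (C.node (nat_lit 1) (nat_lit 2) (nat_lit 4) (C.cons (nat_lit 30) (C.miq (nat_lit 962740305) (nat_lit 720520342043797526814261299)) (C.cons (nat_lit 22) (C.node (nat_lit 2) (nat_lit 3) (nat_lit 4) (C.cons (nat_lit 156) (C.node (nat_lit 2) (nat_lit 3) (nat_lit 6) C.nil) (C.cons (nat_lit 28) (C.node (nat_lit 2) (nat_lit 4) (nat_lit 7) (C.cons (nat_lit 148) (C.node (nat_lit 2) (nat_lit 3) (nat_lit 6) C.nil) C.nil)) C.nil))) C.nil))) (C.cons (nat_lit 580) (C.node (nat_lit 4) (nat_lit 6) (nat_lit 9) (C.cons (nat_lit 592) (C.node (nat_lit 2) (nat_lit 7) (nat_lit 8) (C.cons (nat_lit 396) (C.node (nat_lit 1) (nat_lit 7) (nat_lit 8) (C.cons (nat_lit 402) (C.miq (nat_lit 890708040) (nat_lit 195853287700889708306497813)) (C.cons (nat_lit 386) (C.node (nat_lit 4) (nat_lit 7) (nat_lit 8) (C.cons (nat_lit 400) (C.node (nat_lit 3) (nat_lit 5) (nat_lit 8) (C.cons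 (nat_lit 312) (C.miq (nat_lit 1215386400) (nat_lit 466646307243016514173337645)) (C.cons (nat_lit 296) (C.node (nat_lit 4) (nat_lit 5) (nat_lit 8) C.nil) C.nil))) C.nil)) C.nil))) (C.cons (nat_lit 388) (C.node (nat_lit 3) (nat_lit 5) (nat_lit 6) (C.cons (nat_lit 104) (C.node (nat_lit 4) (nat_lit 5) (nat_lit 6) C.nil) C.nil)) C.nil))) C.nil)) C.nil))) C.nil))) C.nil)) C.nil))) C.nil)) C.nil))) C.nil))) C.nil)) C.nil))) C.nil))) C.nil))) C.nil)) C.nil)) C.nil))) C.nil))) List.nil)))))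

theorem ok10_0 : okL par10 (nat_lit 5) c10_0 (nat_lit 0) = true := by decide +kernel

noncomputable def c10_5 : List C :=
  (List.cons (C.node (nat_lit 2) (nat_lit 5) (nat_lit 7) (C.cons (nat_lit 180) (C.node (nat_lit 3) (nat_lit 5) (nat_lit 7) (C.cons (nat_lit 168) (C.node (nat_lit 4) (nat_lit 5) (nat_lit 9) (C.cons (nat_lit 560) (C.node (nat_lit 2) (nat_lit 6) (nat_lit 7) (C.cons (nat_lit 204) (C.miq (nat_lit 1197560368) (nat_lit 234532549839852191066292269)) (C.cons (nat_lit 196) (C.node (nat_lit 3) (nat_lit 5) (nat_lit 6) (C.cons (nat_lit 120) (C.miq (nat_lit 1192645123) (nat_lit 234533822665192980672610349)) (C.cons (nat_lit 104) (C.node (nat_lit 4) (nat_lit 5) (nat_lit 6) (C.cons (nat_lit 112) (C.node (nat_lit 2) (nat_lit 5) (nat_lit 8) (C.cons (nat_lit 294) (C.node (nat_lit 2) (nat_lit 5) (nat_lit 9) (C.cons (nat_lit 548) (C.node (nat_lit 1) (nat_lit 3) (nat_lit 5) (C.cons (nat_lit 554) (C.node (nat_lit 1) (nat_lit 2) (nat_lit 3)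 (C.cons (nat_lit 30) (C.miq (nat_lit 913444948) (nat_lit 236950014067904417696579635)) (C.cons (nat_lit 14) (C.miq (nat_lit 1125255512) (nat_lit 16930071373867667916456929)) C.nil))) (C.cons (nat_lit 42) (C.node (nat_lit 1) (nat_lit 5) (nat_lit 9) (C.cons (nat_lit 546) (C.node (nat_lit 3) (nat_lit 5) (nat_lit 9) (C.cons (nat_lit 552) (C.node (nat_lit 4) (nat_lit 8) (nat_lit 9) (C.cons (nat_lit 786) (C.miq (nat_lit 2438154272) (nat_lit 50784790546622601784787221)) (C.cons (nat_lit 784) (C.node (nat_lit 2) (nat_lit 8) (nat_lit 9) (C.cons (nat_lit 780) (C.miq (nat_lit 412373552) (nat_lit 947798783444574025419391021)) (C.cons (nat_lit 772) (C.node (nat_lit 1) (nat_lit 6) (nat_lit 8) (C.cons (nat_lit 338) (C.node (nat_lit 2) (nat_lit 6) (nat_lit 8) (C.cons (nat_lit 332) (C.miq (nat_lit 1384383329) (nat_lit 334873392829867840484016203)) (C.cons (nat_lit 324) (C.node (nat_lit 3) (nat_lit 6) (nat_lit 8) (C.cons (nat_lit 328) (C.node (nat_lit 1)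 (nat_lit 2) (nat_lit 6) (C.cons (nat_lit 582) (C.node (nat_lit 2) (nat_lit 4) (nat_lit 9) (C.cons (nat_lit 532) (C.node (nat_lit 3) (nat_lit 6) (nat_lit 9) (C.cons (nat_lit 584) (C.node (nat_lit 4) (nat_lit 6) (nat_lit 9) C.nil) C.nil)) C.nil)) (C.cons (nat_lit 70) (C.node (nat_lit 1) (nat_lit 6) (nat_lit 9) C.nil) C.nil))) C.nil)) C.nil))) (C.cons (nat_lit 322) (C.node (nat_lit 1) (nat_lit 8) (nat_lit 9) (C.cons (nat_lit 778) (C.node (nat_lit 1) (nat_lit 2) (nat_lit 3) (C.cons (nat_lit 30) (C.miq (nat_lit 913444948) (nat_lit 236950014067904417696579635)) (C.cons (nat_lit 14) (C.node (nat_lit 1) (nat_lit 3) (nat_lit 4) (C.cons (nat_lit 154) (C.node (nat_lit 1) (nat_lit 4) (nat_lit 8) C.nil) (C.cons (nat_lit 26) (C.node (nat_lit 1) (nat_lit 3) (nat_lit 7) (C.cons (nat_lit 138) (C.node (nat_lit 1) (nat_lit 4) (nat_lit 8) C.nil) C.nil)) C.nil))) C.nil))) (C.cons (nat_lit 770) (C.node (nat_lit 3) (nat_lit 8) (nat_lit 9) (C.cons (nat_lit 776)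 (C.node (nat_lit 2) (nat_lit 6) (nat_lit 8) (C.cons (nat_lit 332) (C.node (nat_lit 2) (nat_lit 7) (nat_lit 8) (C.cons (nat_lit 388) (C.node (nat_lit 3) (nat_lit 6) (nat_lit 9) (C.cons (nat_lit 584) (C.node (nat_lit 4) (nat_lit 6) (nat_lit 8) C.nil) C.nil)) C.nil)) (C.cons (nat_lit 324) (C.node (nat_lit 2) (nat_lit 3) (nat_lit 8) (C.cons (nat_lit 396) (C.node (nat_lit 3) (nat_lit 5) (nat_lit 8) (C.cons (nat_lit 312) (C.miq (nat_lit 355927170) (nat_lit 203102028020064216008098069)) C.nil)) (C.cons (nat_lit 268) (C.node (nat_lit 2) (nat_lit 7) (nat_lit 8) (C.cons (nat_lit 388) (C.node (nat_lit 3) (nat_lit 4) (nat_lit 5) (C.cons (nat_lit 312) (C.node (nat_lit 3) (nat_lit 6) (nat_lit 8) C.nil) C.nil)) C.nil)) C.nil))) C.nil))) C.nil)) C.nil))) C.nil))) C.nil))) C.nil))) C.nil)) C.nil)) C.nil))) C.nil)) (C.cons (nat_lit 292) (C.node (nat_lit 1) (nat_lit 2) (nat_lit 5) (C.cons (nat_lit 550) (C.node (nat_lit 3) (nat_lit 5) (nat_lit 9) (C.cons (nat_lit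 552) (C.node (nat_lit 1) (nat_lit 3) (nat_lit 5) (C.cons (nat_lit 298) (C.node (nat_lit 3) (nat_lit 4) (nat_lit 5) (C.cons (nat_lit 56) (C.node (nat_lit 4) (nat_lit 5) (nat_lit 8) (C.cons (nat_lit 304) (C.node (nat_lit 1) (nat_lit 2) (nat_lit 3) (C.cons (nat_lit 30)
  (C.miq (nat_lit 913444948) (nat_lit 236950014067904417696579635)) (C.cons (nat_lit 14) (C.node (nat_lit 1) (nat_lit 2) (nat_lit 4) (C.cons (nat_lit 86) (C.node (nat_lit 1) (nat_lit 2) (nat_lit 8) (C.cons (nat_lit 262) (C.node (nat_lit 1) (nat_lit 6) (nat_lit 8) (C.cons (nat_lit 322) (C.node (nat_lit 1) (nat_lit 6) (nat_lit 9) (C.cons (nat_lit 578) (C.node (nat_lit 2) (nat_lit 3) (nat_lit 4) (C.cons (nat_lit 28) (C.node (nat_lit 2) (nat_lit 6) (nat_lit 8) C.nil) C.nil)) C.nil)) C.nil)) C.nil)) (C.cons (nat_lit 22) (C.node (nat_lit 1) (nat_lit 2) (nat_lit 6) (C.cons (nat_lit 326) (C.node (nat_lit 1) (nat_lit 3) (nat_lit 4) (C.cons (nat_lit 154) (C.node (nat_lit 1) (nat_lit 3)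 (nat_lit 9) (C.cons (nat_lit 522) (C.node (nat_lit 1) (nat_lit 7) (nat_lit 8) (C.cons (nat_lit 386) (C.node (nat_lit 1) (nat_lit 7) (nat_lit 9) C.nil) C.nil)) C.nil)) (C.cons (nat_lit 26) (C.node (nat_lit 1) (nat_lit 3) (nat_lit 7) (C.cons (nat_lit 650) (C.node (nat_lit 2) (nat_lit 7) (nat_lit 9) (C.cons (nat_lit 644) (C.node (nat_lit 4) (nat_lit 7) (nat_lit 9) (C.cons (nat_lit 656) (C.node (nat_lit 2) (nat_lit 3) (nat_lit 4) C.nil) C.nil)) C.nil)) (C.cons (nat_lit 138) (C.node (nat_lit 1) (nat_lit 3) (nat_lit 9) C.nil) C.nil))) C.nil))) (C.cons (nat_lit 70) (C.node (nat_lit 1) (nat_lit 2) (nat_lit 8) (C.cons (nat_lit 262) (C.node (nat_lit 1) (nat_lit 3) (nat_lit 4) (C.cons (nat_lit 154) (C.node (nat_lit 1) (nat_lit 3) (nat_lit 9) C.nil) (C.cons (nat_lit 26) (C.node (nat_lit 1) (nat_lit 3) (nat_lit 7) C.nil) C.nil))) C.nil)) C.nil))) C.nil))) C.nil))) C.nil)) C.nil)) (C.cons (nat_lit 42) (C.node (nat_lit 1) (nat_lit 5) (nat_lit 8) (C.cons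 (nat_lit 290) (C.node (nat_lit 1) (nat_lit 6) (nat_lit 9) (C.cons (nat_lit 594) (C.node (nat_lit 2) (nat_lit 4) (nat_lit 9) (C.cons (nat_lit 532) (C.node (nat_lit 4) (nat_lit 7) (nat_lit 9) (C.cons (nat_lit 656) (C.node (nat_lit 4) (nat_lit 8) (nat_lit 9) (C.cons (nat_lit 784) (C.node (nat_lit 1) (nat_lit 2) (nat_lit 4) (C.cons (nat_lit 30) (C.miq (nat_lit 913444948) (nat_lit 236950014067904417696579635)) (C.cons (nat_lit 22) (C.node (nat_lit 2) (nat_lit 6) (nat_lit 9) (C.cons (nat_lit 588) (C.miq (nat_lit 692401680) (nat_lit 676999289253185492285063243)) (C.cons (nat_lit 580) (C.node (nat_lit 3) (nat_lit 6) (nat_lit 9) (C.cons (nat_lit 584) (C.node (nat_lit 1) (nat_lit 2) (nat_lit 6) (C.cons (nat_lit 326) (C.node (nat_lit 1) (nat_lit 2) (nat_lit 3) C.nil) C.nil)) C.nil)) C.nil))) C.nil))) C.nil)) C.nil)) C.nil)) (C.cons (nat_lit 578) (C.node (nat_lit 2) (nat_lit 4) (nat_lit 9) (C.cons (nat_lit 596) (C.node (nat_lit 3) (nat_lit 6) (nat_lit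 9) (C.cons (nat_lit 584) (C.node (nat_lit 1) (nat_lit 2) (nat_lit 4) (C.cons (nat_lit 30) (C.miq (nat_lit 913444948) (nat_lit 236950014067904417696579635)) (C.cons (nat_lit 22) (C.node (nat_lit 2) (nat_lit 3) (nat_lit 4) (C.cons (nat_lit 28) (C.node (nat_lit 1) (nat_lit 2) (nat_lit 6) (C.cons (nat_lit 70) (C.node (nat_lit 1) (nat_lit 2) (nat_lit 3) C.nil) C.nil)) C.nil)) C.nil))) C.nil)) (C.cons (nat_lit 532) (C.node (nat_lit 4) (nat_lit 6) (nat_lit 9) (C.cons (nat_lit 592) (C.node (nat_lit 2) (nat_lit 6) (nat_lit 9) (C.cons (nat_lit 588) (C.node (nat_lit 2) (nat_lit 7) (nat_lit 9) (C.cons (nat_lit 644) (C.node (nat_lit 2) (nat_lit 8) (nat_lit 9) (C.cons (nat_lit 772) (C.node (nat_lit 2) (nat_lit 4) (nat_lit 6) C.nil) C.nil)) C.nil)) (C.cons (nat_lit 580) (C.node (nat_lit 3) (nat_lit 6) (nat_lit 9) (C.cons (nat_lit 584) (C.node (nat_lit 3) (nat_lit 4) (nat_lit 5) (C.cons (nat_lit 312) (C.node (nat_lit 2) (nat_lit 7) (nat_lit 8) (C.cons (nat_lit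 396) (C.miq (nat_lit 355927170) (nat_lit 203102028020064216008098069)) (C.cons (nat_lit 388) (C.node (nat_lit 4) (nat_lit 7) (nat_lit 8) (C.cons (nat_lit 402) (C.miq (nat_lit 947016720) (nat_lit 469064048201781356035244083)) (C.cons (nat_lit 400) (C.node (nat_lit 1) (nat_lit 7) (nat_lit 8) (C.cons (nat_lit 394) (C.node (nat_lit 1) (nat_lit 3) (nat_lit 9) (C.cons (nat_lit 522) (C.node (nat_lit 1) (nat_lit 2) (nat_lit 8) C.nil) C.nil))
  (C.cons (nat_lit 386) (C.node (nat_lit 1) (nat_lit 2) (nat_lit 6) C.nil) C.nil))) C.nil))) C.nil))) C.nil)) C.nil)) C.nil))) C.nil)) C.nil))) C.nil))) C.nil)) C.nil))) C.nil)) (C.cons (nat_lit 38) (C.node (nat_lit 2) (nat_lit 5) (nat_lit 9) (C.cons (nat_lit 548) (C.node (nat_lit 1) (nat_lit 5) (nat_lit 8) (C.cons (nat_lit 298) (C.node (nat_lit 1) (nat_lit 5) (nat_lit 9) (C.cons (nat_lit 546) (C.node (nat_lit 3) (nat_lit 4) (nat_lit 5) (C.cons (nat_lit 56) (C.node (nat_lit 3) (nat_lit 5) (nat_lit 9) (C.cons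 (nat_lit 552) (C.node (nat_lit 4) (nat_lit 5) (nat_lit 8) (C.cons (nat_lit 304) (C.node (nat_lit 1) (nat_lit 7) (nat_lit 8) (C.cons (nat_lit 402) (C.node (nat_lit 4) (nat_lit 7) (nat_lit 9) (C.cons (nat_lit 656) (C.node (nat_lit 4) (nat_lit 8) (nat_lit 9) (C.cons (nat_lit 784) (C.node (nat_lit 1) (nat_lit 3) (nat_lit 4) (C.cons (nat_lit 30) (C.miq (nat_lit 913444948) (nat_lit 236950014067904417696579635)) (C.cons (nat_lit 26) (C.node (nat_lit 2) (nat_lit 3) (nat_lit 4) C.nil) C.nil))) C.nil)) C.nil)) (C.cons (nat_lit 386) (C.node (nat_lit 2) (nat_lit 7) (nat_lit 8) (C.cons (nat_lit 396) (C.node (nat_lit 2) (nat_lit 7) (nat_lit 9) (C.cons (nat_lit 644) (C.node (nat_lit 3) (nat_lit 8) (nat_lit 9) (C.cons (nat_lit 776) (C.node (nat_lit 4) (nat_lit 7) (nat_lit 8) (C.cons (nat_lit 400) (C.node (nat_lit 1) (nat_lit 3) (nat_lit 7) C.nil) C.nil)) C.nil)) C.nil)) (C.cons (nat_lit 388) (C.node (nat_lit 1) (nat_lit 2) (nat_lit 3) (C.cons (nat_lit 526)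 (C.node (nat_lit 2) (nat_lit 3) (nat_lit 7) (C.cons (nat_lit 140) (C.node (nat_lit 2) (nat_lit 7) (nat_lit 9) C.nil) C.nil)) (C.cons (nat_lit 30) (C.miq (nat_lit 913444948) (nat_lit 236950014067904417696579635)) C.nil))) C.nil))) C.nil))) C.nil)) C.nil)) C.nil)) C.nil)) (C.cons (nat_lit 290) (C.node (nat_lit 1) (nat_lit 3) (nat_lit 5) (C.cons (nat_lit 554) (C.node (nat_lit 4) (nat_lit 8) (nat_lit 9) (C.cons (nat_lit 786) (C.miq (nat_lit 2169653552) (nat_lit 45944291114706037294039577)) (C.cons (nat_lit 784) (C.node (nat_lit 3) (nat_lit 8) (nat_lit 9) (C.cons (nat_lit 780) (C.miq (nat_lit 428102432) (nat_lit 947798783517757519347122221)) (C.cons (nat_lit 776) (C.node (nat_lit 1) (nat_lit 7) (nat_lit 9) (C.cons (nat_lit 658) (C.node (nat_lit 2) (nat_lit 7) (nat_lit 9) (C.cons (nat_lit 652) (C.miq (nat_lit 960833296) (nat_lit 676999289271200165672452231)) (C.cons (nat_lit 644) (C.node (nat_lit 3) (nat_lit 7) (nat_lit 9) (C.cons (nat_lit 648)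 (C.node (nat_lit 1) (nat_lit 3) (nat_lit 7) (C.cons (nat_lit 394) (C.node (nat_lit 2) (nat_lit 3) (nat_lit 7) (C.cons (nat_lit 140) (C.node (nat_lit 2) (nat_lit 7) (nat_lit 8) C.nil) C.nil)) (C.cons (nat_lit 138) (C.node (nat_lit 1) (nat_lit 7) (nat_lit 8) (C.cons (nat_lit 386) (C.node (nat_lit 1) (nat_lit 6) (nat_lit 9) (C.cons (nat_lit 582) (C.node (nat_lit 1) (nat_lit 8) (nat_lit 9) C.nil) C.nil)) C.nil)) C.nil))) C.nil)) C.nil))) (C.cons (nat_lit 642) (C.node (nat_lit 4) (nat_lit 7) (nat_lit 9) (C.cons (nat_lit 656) (C.node (nat_lit 1) (nat_lit 8) (nat_lit 9) (C.cons (nat_lit 774) (C.node (nat_lit 1) (nat_lit 2) (nat_lit 3) (C.cons (nat_lit 30) (C.miq (nat_lit 913444948) (nat_lit 236950014067904417696579635)) (C.cons (nat_lit 14) (C.node (nat_lit 1) (nat_lit 2) (nat_lit 4) (C.cons (nat_lit 86) (C.node (nat_lit 1) (nat_lit 4) (nat_lit 9) C.nil) (C.cons (nat_lit 22) (C.node (nat_lit 1) (nat_lit 2) (nat_lit 6) C.nil) C.nil))) C.nil))) (C.cons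 (nat_lit 770) (C.node (nat_lit 2) (nat_lit 8) (nat_lit 9) (C.cons (nat_lit 772) (C.node (nat_lit 2) (nat_lit 7) (nat_lit 8) (C.cons (nat_lit 396) (C.node (nat_lit 2) (nat_lit 7) (nat_lit 9) C.nil) (C.cons (nat_lit 388) (C.node (nat_lit 2) (nat_lit 7) (nat_lit 9) C.nil) C.nil))) C.nil)) C.nil))) C.nil)) C.nil))) C.nil))) C.nil))) (C.cons (nat_lit 42) (C.node (nat_lit 1) (nat_lit 5) (nat_lit 9) (C.cons (nat_lit 546) (C.node (nat_lit 3) (nat_lit 5) (nat_lit 9) (C.cons (nat_lit 552) (C.node (nat_lit 3) (nat_lit 4) (nat_lit 5) (C.cons (nat_lit 312) (C.node (nat_lit 2) (nat_lit 7) (nat_lit 8) (C.cons (nat_lit 396)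
  (C.miq (nat_lit 355927170) (nat_lit 203102028020064216008098069)) (C.cons (nat_lit 388) (C.node (nat_lit 4) (nat_lit 7) (nat_lit 8) (C.cons (nat_lit 402) (C.miq (nat_lit 947016720) (nat_lit 469064048201781356035244083)) (C.cons (nat_lit 400) (C.node (nat_lit 1) (nat_lit 7) (nat_lit 8) (C.cons (nat_lit 394) (C.node (nat_lit 1) (nat_lit 3) (nat_lit 4) (C.cons (nat_lit 30) (C.miq (nat_lit 913444948) (nat_lit 236950014067904417696579635)) C.nil)) (C.cons (nat_lit 386) (C.node (nat_lit 2) (nat_lit 3) (nat_lit 7) C.nil) C.nil))) C.nil))) C.nil))) C.nil)) C.nil)) C.nil)) C.nil))) C.nil))) C.nil)) C.nil))) C.nil))) C.nil)) C.nil))) C.nil))) C.nil)) C.nil)) (C.cons (nat_lit 164) (C.node (nat_lit 2) (nat_lit 4) (nat_lit 5) (C.cons (nat_lit 564) (C.node (nat_lit 3) (nat_lit 6) (nat_lit 9) (C.cons (nat_lit 588) (C.miq (nat_lit 354813075) (nat_lit 120893965481626091899322905)) (C.cons (nat_lit 584) (C.node (nat_lit 4) (nat_lit 6) (nat_lit 9) (C.cons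 (nat_lit 594) (C.miq (nat_lit 694375440) (nat_lit 706013508917181193038528563)) (C.cons (nat_lit 592) (C.node (nat_lit 1) (nat_lit 2) (nat_lit 5) (C.cons (nat_lit 294) (C.node (nat_lit 1) (nat_lit 3) (nat_lit 5) (C.cons (nat_lit 554) (C.miq (nat_lit 319314242) (nat_lit 320370765696573845418607156)) (C.cons (nat_lit 42) (C.node (nat_lit 1) (nat_lit 5) (nat_lit 9) (C.cons (nat_lit 546) (C.node (nat_lit 3) (nat_lit 5) (nat_lit 9) (C.cons (nat_lit 552) (C.node (nat_lit 2) (nat_lit 8) (nat_lit 9) (C.cons (nat_lit 780) (C.miq (nat_lit 806917202) (nat_lit 313126175891718731255382580)) (C.cons (nat_lit 772) (C.node (nat_lit 4) (nat_lit 8) (nat_lit 9) (C.cons (nat_lit 786) (C.miq (nat_lit 847840532) (nat_lit 933300638656728941626261555)) (C.cons (nat_lit 784) (C.node (nat_lit 1) (nat_lit 4) (nat_lit 9) (C.cons (nat_lit 658) (C.node (nat_lit 2) (nat_lit 7) (nat_lit 9) (C.cons (nat_lit 652) (C.miq (nat_lit 960833296) (nat_lit 681834992549658682371276935))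 (C.cons (nat_lit 644) (C.node (nat_lit 3) (nat_lit 7) (nat_lit 9) (C.cons (nat_lit 648) (C.node (nat_lit 1) (nat_lit 3) (nat_lit 7) (C.cons (nat_lit 394) (C.node (nat_lit 1) (nat_lit 8) (nat_lit 9) (C.cons (nat_lit 770) (C.node (nat_lit 2) (nat_lit 7) (nat_lit 8) (C.cons (nat_lit 388) (C.node (nat_lit 3) (nat_lit 8) (nat_lit 9) (C.cons (nat_lit 776) (C.node (nat_lit 1) (nat_lit 3) (nat_lit 4) C.nil) C.nil)) C.nil)) C.nil)) (C.cons (nat_lit 138) (C.node (nat_lit 1) (nat_lit 7) (nat_lit 8) (C.cons (nat_lit 386) (C.node (nat_lit 1) (nat_lit 6) (nat_lit 8) (C.cons (nat_lit 338) (C.node (nat_lit 1) (nat_lit 2) (nat_lit 4) (C.cons (nat_lit 30) (C.miq (nat_lit 594100485) (nat_lit 706023082627045581704462387)) (C.cons (nat_lit 22) (C.node (nat_lit 1) (nat_lit 3) (nat_lit 4) (C.cons (nat_lit 26) (C.node (nat_lit 1) (nat_lit 2) (nat_lit 3) (C.cons (nat_lit 14) (C.node (nat_lit 2) (nat_lit 3) (nat_lit 9) C.nil) C.nil)) C.nil)) C.nil))) (C.cons (nat_lit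 322) (C.node (nat_lit 1) (nat_lit 6) (nat_lit 9) (C.cons (nat_lit 578) (C.node (nat_lit 2) (nat_lit 6) (nat_lit 9) C.nil) C.nil)) C.nil))) C.nil)) C.nil))) C.nil)) C.nil))) (C.cons (nat_lit 530) (C.node (nat_lit 4) (nat_lit 7) (nat_lit 9) (C.cons (nat_lit 656) (C.node (nat_lit 1) (nat_lit 6) (nat_lit 8) (C.cons (nat_lit 338) (C.node (nat_lit 1) (nat_lit 2) (nat_lit 4) (C.cons (nat_lit 30) (C.miq (nat_lit 594100485) (nat_lit 706023082627045581704462387)) (C.cons (nat_lit 22) (C.node (nat_lit 2) (nat_lit 6) (nat_lit 8) (C.cons (nat_lit 332) (C.miq (nat_lit 1384383329) (nat_lit 334873392829867840484016203)) (C.cons (nat_lit 324) (C.node (nat_lit 3) (nat_lit 6) (nat_lit 8) (C.cons (nat_lit 328) (C.node (nat_lit 1) (nat_lit 2) (nat_lit 3) (C.cons (nat_lit 526) (C.node (nat_lit 1) (nat_lit 2) (nat_lit 6) (C.cons (nat_lit 70) (C.node (nat_lit 1) (nat_lit 6) (nat_lit 9) C.nil) C.nil)) (C.cons (nat_lit 14) (C.node (nat_lit 1) (nat_lit 2) (nat_lit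 6) (C.cons (nat_lit 70) (C.node (nat_lit 1) (nat_lit 2) (nat_lit 9) C.nil) C.nil)) C.nil))) C.nil)) C.nil))) C.nil))) (C.cons (nat_lit 322)
  (C.node (nat_lit 1) (nat_lit 4) (nat_lit 6) (C.cons (nat_lit 86) (C.node (nat_lit 1) (nat_lit 6) (nat_lit 9) (C.cons (nat_lit 578) (C.node (nat_lit 2) (nat_lit 6) (nat_lit 9) (C.cons (nat_lit 580) (C.node (nat_lit 2) (nat_lit 6) (nat_lit 7) C.nil) C.nil)) C.nil)) (C.cons (nat_lit 82) (C.node (nat_lit 1) (nat_lit 2) (nat_lit 4) (C.cons (nat_lit 30) (C.miq (nat_lit 594100485) (nat_lit 706023082627045581704462387)) (C.cons (nat_lit 22) (C.node (nat_lit 1) (nat_lit 2) (nat_lit 3) (C.cons (nat_lit 526) (C.node (nat_lit 1) (nat_lit 2) (nat_lit 6) (C.cons (nat_lit 70) (C.node (nat_lit 1) (nat_lit 6) (nat_lit 9) C.nil) C.nil)) (C.cons (nat_lit 14) (C.node (nat_lit 1) (nat_lit 2) (nat_lit 6) (C.cons (nat_lit 582) (C.node (nat_lit 1) (nat_lit 7) (nat_lit 9) C.nil) (C.cons (nat_lit 70) (C.node (nat_lit 1) (nat_lit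 2) (nat_lit 9) C.nil) C.nil))) C.nil))) C.nil))) C.nil))) C.nil))) C.nil)) C.nil))) C.nil))) C.nil))) C.nil)) C.nil)) C.nil))) (C.cons (nat_lit 38) (C.node (nat_lit 2) (nat_lit 5) (nat_lit 8) (C.cons (nat_lit 292) (C.node (nat_lit 1) (nat_lit 5) (nat_lit 8) (C.cons (nat_lit 298) (C.node (nat_lit 1) (nat_lit 5) (nat_lit 9) (C.cons (nat_lit 546) (C.node (nat_lit 3) (nat_lit 5) (nat_lit 9) (C.cons (nat_lit 552) (C.node (nat_lit 4) (nat_lit 5) (nat_lit 8) (C.cons (nat_lit 304) (C.node (nat_lit 1) (nat_lit 6) (nat_lit 9) (C.cons (nat_lit 582) (C.node (nat_lit 1) (nat_lit 2) (nat_lit 8) (C.cons (nat_lit 262) (C.node (nat_lit 1) (nat_lit 2) (nat_lit 3) (C.cons (nat_lit 30) (C.miq (nat_lit 915542100) (nat_lit 703595380439151279158329395)) (C.cons (nat_lit 14) (C.node (nat_lit 1) (nat_lit 2) (nat_lit 4) (C.cons (nat_lit 22) (C.node (nat_lit 2) (nat_lit 6) (nat_lit 8) C.nil) C.nil)) C.nil))) C.nil)) (C.cons (nat_lit 578) (C.node (nat_lit 2) (nat_lit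 6) (nat_lit 9) (C.cons (nat_lit 580) (C.node (nat_lit 1) (nat_lit 7) (nat_lit 8) (C.cons (nat_lit 402) (C.node (nat_lit 1) (nat_lit 4) (nat_lit 9) (C.cons (nat_lit 530) (C.node (nat_lit 4) (nat_lit 7) (nat_lit 9) (C.cons (nat_lit 656) (C.node (nat_lit 4) (nat_lit 8) (nat_lit 9) (C.cons (nat_lit 784) (C.node (nat_lit 1) (nat_lit 7) (nat_lit 9) (C.cons (nat_lit 650) (C.node (nat_lit 2) (nat_lit 7) (nat_lit 9) C.nil) C.nil)) C.nil)) C.nil)) C.nil)) (C.cons (nat_lit 386) (C.node (nat_lit 2) (nat_lit 7) (nat_lit 8) (C.cons (nat_lit 396) (C.node (nat_lit 2) (nat_lit 7) (nat_lit 9) (C.cons (nat_lit 644) (C.node (nat_lit 3) (nat_lit 8) (nat_lit 9) (C.cons (nat_lit 776) (C.node (nat_lit 4) (nat_lit 7) (nat_lit 8) (C.cons (nat_lit 400) (C.node (nat_lit 2) (nat_lit 3) (nat_lit 6) (C.cons (nat_lit 92) (C.node (nat_lit 1) (nat_lit 2) (nat_lit 4) C.nil) (C.cons (nat_lit 76) (C.node (nat_lit 2) (nat_lit 3) (nat_lit 9) C.nil) C.nil))) C.nil)) C.nil)) C.nil))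 (C.cons (nat_lit 388) (C.node (nat_lit 2) (nat_lit 7) (nat_lit 9) (C.cons (nat_lit 652) (C.node (nat_lit 1) (nat_lit 3) (nat_lit 9) (C.cons (nat_lit 522) (C.node (nat_lit 1) (nat_lit 2) (nat_lit 9) C.nil) C.nil)) (C.cons (nat_lit 644) (C.node (nat_lit 2) (nat_lit 1) (nat_lit 4) (C.cons (nat_lit 86) (C.node (nat_lit 2) (nat_lit 1) (nat_lit 3) C.nil) (C.cons (nat_lit 30) (C.miq (nat_lit 378810450) (nat_lit 715684638635297570905391149)) C.nil))) C.nil))) C.nil))) C.nil))) C.nil)) C.nil))) C.nil)) C.nil)) C.nil)) (C.cons (nat_lit 290) (C.node (nat_lit 1) (nat_lit 3) (nat_lit 5) (C.cons (nat_lit 554) (C.node (nat_lit 3) (nat_lit 8) (nat_lit 9) (C.cons (nat_lit 780) (C.miq (nat_lit 822646082) (nat_lit 313126175896503805858349620)) (C.cons (nat_lit 776) (C.node (nat_lit 4) (nat_lit 8) (nat_lit 9) (C.cons (nat_lit 786) (C.miq (nat_lit 597165332) (nat_lit 938131545781729410533163059)) (C.cons (nat_lit 784) (C.node (nat_lit 1) (nat_lit 4) (nat_lit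 9) (C.cons (nat_lit 658) (C.node (nat_lit 2) (nat_lit 3) (nat_lit 9) (C.cons (nat_lit 652) (C.miq (nat_lit 960833296) (nat_lit 681834992549658682371276935)) (C.cons (nat_lit 524) (C.node (nat_lit 2) (nat_lit 7) (nat_lit 9) (C.cons (nat_lit 644) (C.node (nat_lit 3) (nat_lit 7) (nat_lit 9) (C.cons (nat_lit 648)
  (C.node (nat_lit 1) (nat_lit 3) (nat_lit 7) (C.cons (nat_lit 394) (C.node (nat_lit 2) (nat_lit 7) (nat_lit 8) (C.cons (nat_lit 388) (C.node (nat_lit 4) (nat_lit 7) (nat_lit 8) (C.cons (nat_lit 400) (C.node (nat_lit 1) (nat_lit 2) (nat_lit 3) (C.cons (nat_lit 14) (C.node (nat_lit 1) (nat_lit 3) (nat_lit 4) C.nil) C.nil)) C.nil)) C.nil)) (C.cons (nat_lit 138) (C.node (nat_lit 1) (nat_lit 7) (nat_lit 8) (C.cons (nat_lit 386) (C.node (nat_lit 1) (nat_lit 6) (nat_lit 9) (C.cons (nat_lit 582) (C.node (nat_lit 1) (nat_lit 8) (nat_lit 9) C.nil) (C.cons (nat_lit 578) (C.node (nat_lit 2) (nat_lit 6) (nat_lit 9) (C.cons (nat_lit 580) (C.node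 (nat_lit 1) (nat_lit 2) (nat_lit 9) C.nil) C.nil)) C.nil))) C.nil)) C.nil))) C.nil)) C.nil)) C.nil))) (C.cons (nat_lit 530) (C.node (nat_lit 1) (nat_lit 7) (nat_lit 9) (C.cons (nat_lit 642) (C.node (nat_lit 4) (nat_lit 7) (nat_lit 9) (C.cons (nat_lit 656) (C.node (nat_lit 1) (nat_lit 6) (nat_lit 9) (C.cons (nat_lit 582) (C.node (nat_lit 1) (nat_lit 8) (nat_lit 9) (C.cons (nat_lit 770) (C.node (nat_lit 2) (nat_lit 8) (nat_lit 9) (C.cons (nat_lit 772) (C.node (nat_lit 1) (nat_lit 2) (nat_lit 4) (C.cons (nat_lit 22) (C.node (nat_lit 1) (nat_lit 2) (nat_lit 3) C.nil) C.nil)) C.nil)) C.nil)) (C.cons (nat_lit 578) (C.node (nat_lit 2) (nat_lit 6) (nat_lit 9) (C.cons (nat_lit 580) (C.node (nat_lit 1) (nat_lit 2) (nat_lit 9) (C.cons (nat_lit 774) (C.node (nat_lit 1) (nat_lit 2) (nat_lit 3) (C.cons (nat_lit 14) (C.node (nat_lit 1) (nat_lit 2) (nat_lit 4) C.nil) C.nil)) C.nil)) C.nil)) C.nil))) C.nil)) C.nil)) C.nil))) C.nil))) C.nil))) (C.cons (nat_lit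 42) (C.node (nat_lit 1) (nat_lit 5) (nat_lit 9) (C.cons (nat_lit 546) (C.node (nat_lit 3) (nat_lit 5) (nat_lit 9) (C.cons (nat_lit 552) (C.node (nat_lit 1) (nat_lit 6) (nat_lit 9) (C.cons (nat_lit 582) (C.node (nat_lit 1) (nat_lit 2) (nat_lit 4) (C.cons (nat_lit 30) (C.miq (nat_lit 915542100) (nat_lit 703595380439151279158329395)) (C.cons (nat_lit 22) (C.node (nat_lit 1) (nat_lit 2) (nat_lit 3) (C.cons (nat_lit 270) (C.node (nat_lit 2) (nat_lit 6) (nat_lit 8) (C.cons (nat_lit 324) (C.node (nat_lit 2) (nat_lit 7) (nat_lit 8) (C.cons (nat_lit 388) (C.node (nat_lit 2) (nat_lit 8) (nat_lit 9) C.nil) C.nil)) C.nil)) (C.cons (nat_lit 14) (C.node (nat_lit 1) (nat_lit 2) (nat_lit 8) (C.cons (nat_lit 262) (C.node (nat_lit 1) (nat_lit 4) (nat_lit 6) C.nil) C.nil)) C.nil))) C.nil))) (C.cons (nat_lit 578) (C.node (nat_lit 2) (nat_lit 6) (nat_lit 9) (C.cons (nat_lit 580) (C.node (nat_lit 2) (nat_lit 7) (nat_lit 8) (C.cons (nat_lit 396) (C.node (nat_lit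 2) (nat_lit 7) (nat_lit 9) (C.cons (nat_lit 644) (C.node (nat_lit 1) (nat_lit 7) (nat_lit 8) (C.cons (nat_lit 402) (C.miq (nat_lit 890708040) (nat_lit 195853287700889708306497813)) (C.cons (nat_lit 386) (C.node (nat_lit 4) (nat_lit 7) (nat_lit 8) (C.cons (nat_lit 400) (C.node (nat_lit 3) (nat_lit 5) (nat_lit 8) (C.cons (nat_lit 312) (C.miq (nat_lit 1215386400) (nat_lit 466646307243016514173337645)) (C.cons (nat_lit 296) (C.node (nat_lit 4) (nat_lit 5) (nat_lit 8) (C.cons (nat_lit 304) (C.node (nat_lit 2) (nat_lit 3) (nat_lit 9) C.nil) C.nil)) C.nil))) C.nil)) C.nil))) C.nil)) (C.cons (nat_lit 388) (C.node (nat_lit 2) (nat_lit 7) (nat_lit 9) (C.cons (nat_lit 652) (C.node (nat_lit 1) (nat_lit 7) (nat_lit 9) (C.cons (nat_lit 658) (C.miq (nat_lit 960833296) (nat_lit 681834992549658682371276935)) (C.cons (nat_lit 642) (C.node (nat_lit 4) (nat_lit 7) (nat_lit 9) (C.cons (nat_lit 656) (C.node (nat_lit 1) (nat_lit 2) (nat_lit 9) (C.cons (nat_lit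 774) (C.node (nat_lit 1) (nat_lit 3) (nat_lit 9) C.nil) C.nil)) C.nil)) C.nil))) (C.cons (nat_lit 644) (C.node (nat_lit 3) (nat_lit 5) (nat_lit 6) (C.cons (nat_lit 120) (C.node (nat_lit 3) (nat_lit 5) (nat_lit 7) (C.cons (nat_lit 168) (C.node (nat_lit 3) (nat_lit 5) (nat_lit 8) C.nil) C.nil)) (C.cons (nat_lit 104) (C.node (nat_lit 4) (nat_lit 5) (nat_lit 6) C.nil) C.nil))) C.nil))) C.nil))) C.nil)) C.nil))) C.nil)) C.nil)) C.nil))) C.nil))) C.nil)) C.nil))) C.nil))) C.nil)))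
  (C.cons (nat_lit 52) (C.node (nat_lit 4) (nat_lit 5) (nat_lit 9) (C.cons (nat_lit 560) (C.node (nat_lit 2) (nat_lit 5) (nat_lit 8) (C.cons (nat_lit 294) (C.node (nat_lit 2) (nat_lit 5) (nat_lit 9) (C.cons (nat_lit 548) (C.node (nat_lit 1) (nat_lit 3) (nat_lit 5) (C.cons (nat_lit 554) (C.node (nat_lit 1) (nat_lit 2) (nat_lit 3) (C.cons (nat_lit 30) (C.node (nat_lit 1) (nat_lit 6) (nat_lit 8) (C.cons (nat_lit 338) (C.miq (nat_lit 2437436192) (nat_lit 408635244802547120600317997)) (C.cons (nat_lit 322) (C.node (nat_lit 1) (nat_lit 4) (nat_lit 6) (C.cons (nat_lit 594) (C.miq (nat_lit 2299790642) (nat_lit 718107046878705178608795693)) (C.cons (nat_lit 82) (C.node (nat_lit 1) (nat_lit 7) (nat_lit 9) (C.cons (nat_lit 658) (C.miq (nat_lit 2299790642) (nat_lit 795478299334041445789990957)) (C.cons (nat_lit 642) (C.node (nat_lit 1) (nat_lit 4) (nat_lit 7) (C.cons (nat_lit 402) (C.miq (nat_lit 2437436192) (nat_lit 486006497257883387781513261)) (C.cons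 (nat_lit 146) (C.node (nat_lit 1) (nat_lit 4) (nat_lit 8) (C.cons (nat_lit 786) (C.node (nat_lit 2) (nat_lit 6) (nat_lit 8) (C.cons (nat_lit 332) (C.miq (nat_lit 2552435717) (nat_lit 401373591829514242497511475)) (C.cons (nat_lit 324) (C.node (nat_lit 2) (nat_lit 7) (nat_lit 8) (C.cons (nat_lit 396) (C.miq (nat_lit 2552435717) (nat_lit 478744844284850509678706739)) (C.cons (nat_lit 388) (C.node (nat_lit 2) (nat_lit 3) (nat_lit 8) (C.cons (nat_lit 780) (C.node (nat_lit 3) (nat_lit 6) (nat_lit 9) (C.cons (nat_lit 584) (C.node (nat_lit 3) (nat_lit 7) (nat_lit 9) (C.cons (nat_lit 648) (C.node (nat_lit 1) (nat_lit 2) (nat_lit 6) (C.cons (nat_lit 582) (C.node (nat_lit 4) (nat_lit 6) (nat_lit 9) (C.cons (nat_lit 592) (C.node (nat_lit 2) (nat_lit 4) (nat_lit 9) (C.cons (nat_lit 660) (C.miq (nat_lit 1766000417) (nat_lit 649194548918368881587650695)) C.nil)) C.nil)) C.nil)) C.nil)) C.nil)) (C.cons (nat_lit 268) (C.miq (nat_lit 2552435717) (nat_lit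 324002339374177975316316211)) C.nil))) C.nil))) C.nil))) (C.cons (nat_lit 274) (C.miq (nat_lit 2437436192) (nat_lit 331263992347210853419122733)) C.nil))) C.nil))) C.nil))) C.nil))) C.nil))) (C.cons (nat_lit 14) (C.miq (nat_lit 1125255512) (nat_lit 16930071373867667916456929)) C.nil))) (C.cons (nat_lit 42) (C.node (nat_lit 1) (nat_lit 5) (nat_lit 9) (C.cons (nat_lit 546) (C.node (nat_lit 3) (nat_lit 5) (nat_lit 9) (C.cons (nat_lit 552) (C.node (nat_lit 4) (nat_lit 8) (nat_lit 9) (C.cons (nat_lit 786) (C.miq (nat_lit 2438154272) (nat_lit 50784790546622601784787221)) (C.cons (nat_lit 784) (C.node (nat_lit 2) (nat_lit 8) (nat_lit 9) (C.cons (nat_lit 780) (C.miq (nat_lit 412373552) (nat_lit 947798783444574025419391021)) (C.cons (nat_lit 772) (C.node (nat_lit 1) (nat_lit 6) (nat_lit 8) (C.cons (nat_lit 338) (C.node (nat_lit 2) (nat_lit 6) (nat_lit 8) (C.cons (nat_lit 332) (C.miq (nat_lit 1384383329) (nat_lit 334873392829867840484016203)) (C.cons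 (nat_lit 324) (C.node (nat_lit 3) (nat_lit 6) (nat_lit 8) (C.cons (nat_lit 328) (C.node (nat_lit 1) (nat_lit 2) (nat_lit 6) (C.cons (nat_lit 582) (C.node (nat_lit 3) (nat_lit 6) (nat_lit 9) (C.cons (nat_lit 584) (C.node (nat_lit 4) (nat_lit 6) (nat_lit 9) (C.cons (nat_lit 592) (C.node (nat_lit 1) (nat_lit 2) (nat_lit 3) (C.cons (nat_lit 30) (C.miq (nat_lit 964837457) (nat_lit 933291286295972261575131187)) (C.cons (nat_lit 14) (C.node (nat_lit 1) (nat_lit 2) (nat_lit 4) C.nil) C.nil))) C.nil)) C.nil)) (C.cons (nat_lit 70) (C.node (nat_lit 1) (nat_lit 6) (nat_lit 9) (C.cons (nat_lit 578) (C.node (nat_lit 1) (nat_lit 7) (nat_lit 8) (C.cons (nat_lit 394) (C.node (nat_lit 1) (nat_lit 8) (nat_lit 9) C.nil) (C.cons (nat_lit 386) (C.node (nat_lit 1) (nat_lit 3) (nat_lit 8) (C.cons (nat_lit 266) (C.node (nat_lit 1) (nat_lit 8) (nat_lit 9) C.nil) C.nil)) C.nil))) C.nil)) C.nil))) C.nil)) C.nil))) (C.cons (nat_lit 322) (C.node (nat_lit 1) (nat_lit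 8) (nat_lit 9) (C.cons (nat_lit 778) (C.node (nat_lit 1) (nat_lit 2) (nat_lit 3) (C.cons (nat_lit 30) (C.miq (nat_lit 964837457) (nat_lit 933291286295972261575131187))
  (C.cons (nat_lit 14) (C.node (nat_lit 1) (nat_lit 3) (nat_lit 4) (C.cons (nat_lit 154) (C.node (nat_lit 1) (nat_lit 4) (nat_lit 8) (C.cons (nat_lit 274) (C.node (nat_lit 1) (nat_lit 7) (nat_lit 8) (C.cons (nat_lit 386) (C.node (nat_lit 1) (nat_lit 7) (nat_lit 9) (C.cons (nat_lit 642) (C.node (nat_lit 2) (nat_lit 3) (nat_lit 9) C.nil) C.nil)) C.nil)) C.nil)) (C.cons (nat_lit 26) (C.node (nat_lit 1) (nat_lit 3) (nat_lit 7) (C.cons (nat_lit 138) (C.node (nat_lit 1) (nat_lit 4) (nat_lit 8) (C.cons (nat_lit 402) (C.node (nat_lit 2) (nat_lit 7) (nat_lit 8) (C.cons (nat_lit 396) (C.miq (nat_lit 1366492290) (nat_lit 166832593224659093454323989)) C.nil)) (C.cons (nat_lit 274) (C.node (nat_lit 1) (nat_lit 7) (nat_lit 8) C.nil) C.nil))) C.nil)) C.nil))) C.nil))) (C.cons (nat_lit 770)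 (C.node (nat_lit 3) (nat_lit 8) (nat_lit 9) (C.cons (nat_lit 776) (C.node (nat_lit 2) (nat_lit 6) (nat_lit 8) (C.cons (nat_lit 332) (C.node (nat_lit 2) (nat_lit 7) (nat_lit 8) (C.cons (nat_lit 388) (C.node (nat_lit 3) (nat_lit 6) (nat_lit 9) (C.cons (nat_lit 584) (C.node (nat_lit 4) (nat_lit 6) (nat_lit 8) (C.cons (nat_lit 336) (C.node (nat_lit 1) (nat_lit 2) (nat_lit 3) (C.cons (nat_lit 526) (C.node (nat_lit 3) (nat_lit 7) (nat_lit 9) C.nil) (C.cons (nat_lit 30) (C.miq (nat_lit 2552431892) (nat_lit 401373278293130382627700787)) C.nil))) C.nil)) C.nil)) C.nil)) (C.cons (nat_lit 324) (C.node (nat_lit 2) (nat_lit 3) (nat_lit 8) (C.cons (nat_lit 396) (C.node (nat_lit 1) (nat_lit 7) (nat_lit 8) (C.cons (nat_lit 402) (C.miq (nat_lit 890708040) (nat_lit 195853287700889708306497813)) (C.cons (nat_lit 386) (C.node (nat_lit 4) (nat_lit 7) (nat_lit 8) (C.cons (nat_lit 400) (C.node (nat_lit 2) (nat_lit 7) (nat_lit 9) (C.cons (nat_lit 660) (C.node (nat_lit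 2) (nat_lit 6) (nat_lit 7) C.nil) C.nil)) C.nil)) C.nil))) (C.cons (nat_lit 268) (C.node (nat_lit 2) (nat_lit 7) (nat_lit 8) (C.cons (nat_lit 388) (C.node (nat_lit 4) (nat_lit 5) (nat_lit 8) (C.cons (nat_lit 304) (C.node (nat_lit 3) (nat_lit 5) (nat_lit 8) C.nil) C.nil)) C.nil)) C.nil))) C.nil))) C.nil)) C.nil))) C.nil))) C.nil))) C.nil))) C.nil)) C.nil)) C.nil))) C.nil)) (C.cons (nat_lit 292) (C.node (nat_lit 1) (nat_lit 2) (nat_lit 5) (C.cons (nat_lit 550) (C.node (nat_lit 3) (nat_lit 5) (nat_lit 9) (C.cons (nat_lit 552) (C.node (nat_lit 1) (nat_lit 3) (nat_lit 5) (C.cons (nat_lit 298) (C.node (nat_lit 4) (nat_lit 5) (nat_lit 8) (C.cons (nat_lit 304) (C.node (nat_lit 1) (nat_lit 2) (nat_lit 3) (C.cons (nat_lit 30) (C.node (nat_lit 1) (nat_lit 2) (nat_lit 6) (C.cons (nat_lit 326) (C.miq (nat_lit 2552497683) (nat_lit 334882358214325915457814603)) (C.cons (nat_lit 70) (C.node (nat_lit 1) (nat_lit 2) (nat_lit 8) (C.cons (nat_lit 262) (C.node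 (nat_lit 1) (nat_lit 3) (nat_lit 7) (C.cons (nat_lit 650) (C.miq (nat_lit 2301888274) (nat_lit 649198275160671727967404167)) (C.cons (nat_lit 138) (C.node (nat_lit 1) (nat_lit 3) (nat_lit 9) (C.cons (nat_lit 522) (C.node (nat_lit 1) (nat_lit 6) (nat_lit 8) (C.cons (nat_lit 338) (C.miq (nat_lit 2217042224) (nat_lit 62882460331964581649645643)) C.nil)) C.nil)) C.nil))) C.nil)) C.nil))) (C.cons (nat_lit 14) (C.node (nat_lit 1) (nat_lit 2) (nat_lit 4) (C.cons (nat_lit 86) (C.node (nat_lit 1) (nat_lit 2) (nat_lit 8) (C.cons (nat_lit 262) (C.node (nat_lit 1) (nat_lit 6) (nat_lit 8) (C.cons (nat_lit 322) (C.node (nat_lit 1) (nat_lit 6) (nat_lit 9) (C.cons (nat_lit 578) (C.node (nat_lit 4) (nat_lit 6) (nat_lit 9) (C.cons (nat_lit 592) (C.node (nat_lit 1) (nat_lit 3) (nat_lit 4) (C.cons (nat_lit 154) (C.node (nat_lit 1) (nat_lit 3) (nat_lit 9) C.nil) C.nil)) C.nil)) C.nil)) C.nil)) C.nil)) (C.cons (nat_lit 22) (C.node (nat_lit 1) (nat_lit 2) (nat_lit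 6) (C.cons (nat_lit 326) (C.node (nat_lit 1) (nat_lit 3) (nat_lit 4) (C.cons (nat_lit 154) (C.node (nat_lit 1) (nat_lit 3) (nat_lit 9) (C.cons (nat_lit 522) (C.node (nat_lit 1) (nat_lit 7) (nat_lit 8) (C.cons (nat_lit 386) (C.node (nat_lit 1) (nat_lit 7) (nat_lit 9) C.nil) C.nil)) C.nil)) (C.cons (nat_lit 26)
  (C.node (nat_lit 1) (nat_lit 3) (nat_lit 7) (C.cons (nat_lit 650) (C.node (nat_lit 1) (nat_lit 4) (nat_lit 6) (C.cons (nat_lit 594) (C.node (nat_lit 1) (nat_lit 8) (nat_lit 9) (C.cons (nat_lit 770) (C.node (nat_lit 4) (nat_lit 8) (nat_lit 9) (C.cons (nat_lit 784) (C.node (nat_lit 1) (nat_lit 4) (nat_lit 7) (C.cons (nat_lit 402) (C.node (nat_lit 2) (nat_lit 4) (nat_lit 9) (C.cons (nat_lit 660) (C.node (nat_lit 2) (nat_lit 3) (nat_lit 4) C.nil) C.nil)) C.nil)) C.nil)) C.nil)) (C.cons (nat_lit 82) (C.node (nat_lit 1) (nat_lit 6) (nat_lit 9) C.nil) C.nil))) (C.cons (nat_lit 138) (C.node (nat_lit 1) (nat_lit 3) (nat_lit 9) C.nil) C.nil)))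 C.nil))) (C.cons (nat_lit 70) (C.node (nat_lit 1) (nat_lit 2) (nat_lit 8) (C.cons (nat_lit 262) (C.node (nat_lit 1) (nat_lit 3) (nat_lit 4) C.nil) C.nil)) C.nil))) C.nil))) C.nil))) C.nil)) (C.cons (nat_lit 42) (C.node (nat_lit 1) (nat_lit 5) (nat_lit 8) (C.cons (nat_lit 290) (C.node (nat_lit 1) (nat_lit 6) (nat_lit 9) (C.cons (nat_lit 594) (C.node (nat_lit 4) (nat_lit 8) (nat_lit 9) (C.cons (nat_lit 784) (C.node (nat_lit 1) (nat_lit 2) (nat_lit 4) (C.cons (nat_lit 30) (C.miq (nat_lit 2485477680) (nat_lit 62882460404022175687573579)) (C.cons (nat_lit 22) (C.node (nat_lit 2) (nat_lit 6) (nat_lit 9) (C.cons (nat_lit 588) (C.miq (nat_lit 692401680) (nat_lit 676999289253185492285063243)) (C.cons (nat_lit 580) (C.node (nat_lit 3) (nat_lit 6) (nat_lit 9) (C.cons (nat_lit 584) (C.node (nat_lit 1) (nat_lit 2) (nat_lit 3) (C.cons (nat_lit 270) (C.node (nat_lit 1) (nat_lit 2) (nat_lit 6) (C.cons (nat_lit 70) (C.node (nat_lit 1) (nat_lit 6) (nat_lit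 8) C.nil) C.nil)) (C.cons (nat_lit 14) (C.node (nat_lit 1) (nat_lit 2) (nat_lit 6) (C.cons (nat_lit 326) (C.node (nat_lit 1) (nat_lit 7) (nat_lit 9) (C.cons (nat_lit 650) (C.node (nat_lit 1) (nat_lit 8) (nat_lit 9) C.nil) C.nil)) (C.cons (nat_lit 70) (C.node (nat_lit 1) (nat_lit 2) (nat_lit 8) (C.cons (nat_lit 262) (C.node (nat_lit 1) (nat_lit 6) (nat_lit 8) C.nil) C.nil)) C.nil))) C.nil))) C.nil)) C.nil))) C.nil))) C.nil)) (C.cons (nat_lit 578) (C.node (nat_lit 2) (nat_lit 7) (nat_lit 8) (C.cons (nat_lit 396) (C.node (nat_lit 2) (nat_lit 8) (nat_lit 9) (C.cons (nat_lit 772) (C.node (nat_lit 1) (nat_lit 2) (nat_lit 3) (C.cons (nat_lit 30) (C.miq (nat_lit 1930789440) (nat_lit 50793202152143838552195349)) (C.cons (nat_lit 14) (C.node (nat_lit 1) (nat_lit 7) (nat_lit 8) (C.cons (nat_lit 402) (C.miq (nat_lit 890708040) (nat_lit 195853287700889708306497813)) (C.cons (nat_lit 386) (C.node (nat_lit 4) (nat_lit 7) (nat_lit 8) (C.cons (nat_lit 400)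 (C.node (nat_lit 3) (nat_lit 5) (nat_lit 8) (C.cons (nat_lit 312) (C.miq (nat_lit 1092833400) (nat_lit 16930716873111609484772321)) (C.cons (nat_lit 296) (C.node (nat_lit 4) (nat_lit 5) (nat_lit 8) C.nil) C.nil))) C.nil)) C.nil))) C.nil))) C.nil)) (C.cons (nat_lit 388) (C.node (nat_lit 2) (nat_lit 8) (nat_lit 9) (C.cons (nat_lit 780) (C.node (nat_lit 3) (nat_lit 6) (nat_lit 9) (C.cons (nat_lit 584) (C.node (nat_lit 1) (nat_lit 2) (nat_lit 3) (C.cons (nat_lit 30) (C.miq (nat_lit 2467660352) (nat_lit 50793202260230229609087253)) (C.cons (nat_lit 14) (C.node (nat_lit 1) (nat_lit 8) (nat_lit 9) (C.cons (nat_lit 786) (C.miq (nat_lit 422922272) (nat_lit 667327993432465745396957461)) (C.cons (nat_lit 770) (C.node (nat_lit 4) (nat_lit 8) (nat_lit 9) (C.cons (nat_lit 784) (C.node (nat_lit 1) (nat_lit 2) (nat_lit 4) (C.cons (nat_lit 86) (C.node (nat_lit 2) (nat_lit 6) (nat_lit 9) C.nil) (C.cons (nat_lit 22) (C.node (nat_lit 1) (nat_lit 2) (nat_lit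 6) (C.cons (nat_lit 326) (C.node (nat_lit 1) (nat_lit 4) (nat_lit 6) C.nil) C.nil)) C.nil))) C.nil)) C.nil))) C.nil))) C.nil)) (C.cons (nat_lit 772) (C.node (nat_lit 3) (nat_lit 5) (nat_lit 6) (C.cons (nat_lit 120) (C.node (nat_lit 3) (nat_lit 5) (nat_lit 7) (C.cons (nat_lit 168) (C.node (nat_lit 3) (nat_lit 5) (nat_lit 8) (C.cons (nat_lit 296) (C.node (nat_lit 4) (nat_lit 5) (nat_lit 7) (C.cons (nat_lit 176) (C.node (nat_lit 4) (nat_lit 5) (nat_lit 8) (C.cons (nat_lit 304)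
  (C.node (nat_lit 3) (nat_lit 6) (nat_lit 7) (C.cons (nat_lit 204) (C.miq (nat_lit 1181831968) (nat_lit 234532549822963692467585069)) (C.cons (nat_lit 200) (C.node (nat_lit 1) (nat_lit 2) (nat_lit 3) (C.cons (nat_lit 270) (C.node (nat_lit 2) (nat_lit 6) (nat_lit 8) (C.cons (nat_lit 324) (C.node (nat_lit 1) (nat_lit 2) (nat_lit 4) C.nil) C.nil)) (C.cons (nat_lit 30) (C.miq (nat_lit 660803668) (nat_lit 241785717363251432994111539)) C.nil))) C.nil))) C.nil)) C.nil)) C.nil)) C.nil)) (C.cons (nat_lit 104) (C.node (nat_lit 4) (nat_lit 5) (nat_lit 6) (C.cons (nat_lit 112) (C.node (nat_lit 3) (nat_lit 5) (nat_lit 7) (C.cons (nat_lit 184) (C.node (nat_lit 3) (nat_lit 5) (nat_lit 8) (C.cons (nat_lit 296) (C.node (nat_lit 4) (nat_lit 5) (nat_lit 8) (C.cons (nat_lit 304) (C.node (nat_lit 3) (nat_lit 6) (nat_lit 7) (C.cons (nat_lit 204) (C.node (nat_lit 2) (nat_lit 3) (nat_lit 9) (C.cons (nat_lit 524) (C.node (nat_lit 2) (nat_lit 3) (nat_lit 4) C.nil)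 C.nil)) (C.cons (nat_lit 200) (C.node (nat_lit 2) (nat_lit 3) (nat_lit 7) (C.cons (nat_lit 652) (C.node (nat_lit 3) (nat_lit 6) (nat_lit 9) (C.cons (nat_lit 584) (C.node (nat_lit 1) (nat_lit 3) (nat_lit 7) (C.cons (nat_lit 394) (C.node (nat_lit 1) (nat_lit 3) (nat_lit 9) C.nil) C.nil)) C.nil)) (C.cons (nat_lit 140) (C.node (nat_lit 2) (nat_lit 3) (nat_lit 9) (C.cons (nat_lit 588) (C.node (nat_lit 2) (nat_lit 3) (nat_lit 4) C.nil) C.nil)) C.nil))) C.nil))) C.nil)) C.nil)) (C.cons (nat_lit 168) (C.node (nat_lit 4) (nat_lit 5) (nat_lit 7) (C.cons (nat_lit 176) (C.node (nat_lit 3) (nat_lit 4) (nat_lit 5) (C.cons (nat_lit 312) (C.node (nat_lit 4) (nat_lit 8) (nat_lit 7) (C.cons (nat_lit 402) (C.miq (nat_lit 947016720) (nat_lit 469064048201781356035244083)) (C.cons (nat_lit 400) (C.node (nat_lit 2) (nat_lit 1) (nat_lit 4) (C.cons (nat_lit 86) (C.node (nat_lit 1) (nat_lit 8) (nat_lit 6) (C.cons (nat_lit 322) (C.node (nat_lit 2) (nat_lit 1) (nat_lit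 3) C.nil) C.nil)) (C.cons (nat_lit 30) (C.miq (nat_lit 394534995) (nat_lit 483570881286177267947929645)) C.nil))) C.nil))) C.nil)) C.nil)) C.nil))) C.nil)) C.nil))) C.nil))) C.nil))) C.nil))) C.nil)) C.nil))) C.nil)) (C.cons (nat_lit 38) (C.node (nat_lit 2) (nat_lit 5) (nat_lit 9) (C.cons (nat_lit 548) (C.node (nat_lit 1) (nat_lit 5) (nat_lit 8) (C.cons (nat_lit 298) (C.node (nat_lit 1) (nat_lit 5) (nat_lit 9) (C.cons (nat_lit 546) (C.node (nat_lit 3) (nat_lit 5) (nat_lit 9) (C.cons (nat_lit 552) (C.node (nat_lit 4) (nat_lit 5) (nat_lit 8) (C.cons (nat_lit 304) (C.node (nat_lit 1) (nat_lit 7) (nat_lit 8) (C.cons (nat_lit 402) (C.node (nat_lit 4) (nat_lit 8) (nat_lit 9) (C.cons (nat_lit 784) (C.node (nat_lit 1) (nat_lit 3) (nat_lit 4) (C.cons (nat_lit 30) (C.miq (nat_lit 897851505) (nat_lit 367514002577840119278076039)) (C.cons (nat_lit 26) (C.node (nat_lit 2) (nat_lit 7) (nat_lit 8) (C.cons (nat_lit 396) (C.miq (nat_lit 944056080) (nat_lit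 367514279377796403398115463)) (C.cons (nat_lit 388) (C.node (nat_lit 3) (nat_lit 7) (nat_lit 8) (C.cons (nat_lit 392) (C.node (nat_lit 2) (nat_lit 1) (nat_lit 3) (C.cons (nat_lit 526) (C.node (nat_lit 2) (nat_lit 8) (nat_lit 9) C.nil) C.nil)) C.nil)) C.nil))) C.nil))) C.nil)) (C.cons (nat_lit 386) (C.node (nat_lit 2) (nat_lit 7) (nat_lit 8) (C.cons (nat_lit 396) (C.node (nat_lit 3) (nat_lit 8) (nat_lit 9) (C.cons (nat_lit 776) (C.node (nat_lit 4) (nat_lit 7) (nat_lit 8) (C.cons (nat_lit 400) (C.node (nat_lit 1) (nat_lit 2) (nat_lit 3) (C.cons (nat_lit 526) (C.node (nat_lit 2) (nat_lit 8) (nat_lit 9) (C.cons (nat_lit 772) (C.node (nat_lit 1) (nat_lit 2) (nat_lit 4) C.nil) C.nil)) (C.cons (nat_lit 30) (C.miq (nat_lit 1166217330) (nat_lit 360260447661841194089709703)) C.nil))) C.nil)) C.nil)) (C.cons (nat_lit 388) (C.node (nat_lit 4) (nat_lit 5) (nat_lit 7) (C.cons (nat_lit 184) (C.node (nat_lit 4) (nat_lit 5) (nat_lit 6) (C.cons (nat_lit 112)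 (C.node (nat_lit 4) (nat_lit 8) (nat_lit 7) (C.cons (nat_lit 400) (C.node (nat_lit 3) (nat_lit 5) (nat_lit 6) (C.cons (nat_lit 104) (C.node (nat_lit 3) (nat_lit 8) (nat_lit 7)
  (C.cons (nat_lit 392) (C.node (nat_lit 4) (nat_lit 7) (nat_lit 6) (C.cons (nat_lit 208) (C.node (nat_lit 2) (nat_lit 4) (nat_lit 7) C.nil) C.nil)) C.nil)) C.nil)) C.nil)) C.nil)) (C.cons (nat_lit 176) (C.node (nat_lit 3) (nat_lit 5) (nat_lit 7) (C.cons (nat_lit 168) (C.node (nat_lit 4) (nat_lit 3) (nat_lit 5) (C.cons (nat_lit 120) (C.node (nat_lit 3) (nat_lit 7) (nat_lit 6) (C.cons (nat_lit 204) (C.miq (nat_lit 1181831968) (nat_lit 234532549822963692467585069)) (C.cons (nat_lit 200) (C.node (nat_lit 2) (nat_lit 7) (nat_lit 6) (C.cons (nat_lit 212) (C.node (nat_lit 2) (nat_lit 3) (nat_lit 7) C.nil) C.nil)) C.nil))) C.nil)) C.nil)) C.nil))) C.nil))) C.nil))) C.nil)) C.nil)) C.nil)) (C.cons (nat_lit 290) (C.node (nat_lit 1) (nat_lit 3) (nat_lit 5) (C.cons (nat_lit 554)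 (C.node (nat_lit 4) (nat_lit 8) (nat_lit 9) (C.cons (nat_lit 786) (C.miq (nat_lit 2169653552) (nat_lit 45944291114706037294039577)) (C.cons (nat_lit 784) (C.node (nat_lit 3) (nat_lit 8) (nat_lit 9) (C.cons (nat_lit 780) (C.miq (nat_lit 428102432) (nat_lit 947798783517757519347122221)) (C.cons (nat_lit 776) (C.node (nat_lit 1) (nat_lit 7) (nat_lit 9) (C.cons (nat_lit 658) (C.node (nat_lit 2) (nat_lit 7) (nat_lit 9) (C.cons (nat_lit 652) (C.miq (nat_lit 960833296) (nat_lit 676999289271200165672452231)) (C.cons (nat_lit 644) (C.node (nat_lit 3) (nat_lit 7) (nat_lit 9) (C.cons (nat_lit 648) (C.node (nat_lit 1) (nat_lit 3) (nat_lit 7) (C.cons (nat_lit 394) (C.node (nat_lit 2) (nat_lit 7) (nat_lit 8) (C.cons (nat_lit 388) (C.node (nat_lit 4) (nat_lit 7) (nat_lit 8) (C.cons (nat_lit 400) (C.node (nat_lit 1) (nat_lit 2) (nat_lit 3) (C.cons (nat_lit 14) (C.node (nat_lit 1) (nat_lit 2) (nat_lit 4) C.nil) C.nil)) C.nil)) C.nil)) (C.cons (nat_lit 138)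 (C.node (nat_lit 1) (nat_lit 7) (nat_lit 8) (C.cons (nat_lit 386) (C.node (nat_lit 1) (nat_lit 6) (nat_lit 9) (C.cons (nat_lit 582) (C.node (nat_lit 1) (nat_lit 8) (nat_lit 9) C.nil) (C.cons (nat_lit 578) (C.node (nat_lit 1) (nat_lit 2) (nat_lit 9) C.nil) C.nil))) C.nil)) C.nil))) C.nil)) C.nil))) (C.cons (nat_lit 642) (C.node (nat_lit 1) (nat_lit 8) (nat_lit 9) (C.cons (nat_lit 774) (C.node (nat_lit 1) (nat_lit 2) (nat_lit 3) (C.cons (nat_lit 30) (C.miq (nat_lit 680738897) (nat_lit 938126989501247284346224691)) (C.cons (nat_lit 14) (C.node (nat_lit 1) (nat_lit 2) (nat_lit 4) (C.cons (nat_lit 86) (C.node (nat_lit 1) (nat_lit 4) (nat_lit 9) C.nil) (C.cons (nat_lit 22) (C.node (nat_lit 1) (nat_lit 2) (nat_lit 6) (C.cons (nat_lit 70) (C.node (nat_lit 1) (nat_lit 4) (nat_lit 9) C.nil) C.nil)) C.nil))) C.nil))) (C.cons (nat_lit 770) (C.node (nat_lit 2) (nat_lit 8) (nat_lit 9) (C.cons (nat_lit 772) (C.node (nat_lit 2) (nat_lit 7) (nat_lit 8) (C.cons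 (nat_lit 396) (C.node (nat_lit 3) (nat_lit 7) (nat_lit 9) (C.cons (nat_lit 648) (C.node (nat_lit 1) (nat_lit 2) (nat_lit 3) (C.cons (nat_lit 30) (C.miq (nat_lit 2468892992) (nat_lit 478752942340195612733276211)) (C.cons (nat_lit 14) (C.node (nat_lit 2) (nat_lit 3) (nat_lit 9) C.nil) C.nil))) C.nil)) (C.cons (nat_lit 388) (C.node (nat_lit 4) (nat_lit 5) (nat_lit 8) (C.cons (nat_lit 312) (C.node (nat_lit 4) (nat_lit 5) (nat_lit 7) (C.cons (nat_lit 176) (C.node (nat_lit 4) (nat_lit 5) (nat_lit 6) C.nil) C.nil)) (C.cons (nat_lit 304) (C.node (nat_lit 3) (nat_lit 5) (nat_lit 8) C.nil) C.nil))) C.nil))) C.nil)) C.nil))) C.nil))) C.nil))) C.nil))) (C.cons (nat_lit 42) (C.node (nat_lit 1) (nat_lit 5) (nat_lit 9) (C.cons (nat_lit 546) (C.node (nat_lit 3) (nat_lit 5) (nat_lit 9) (C.cons (nat_lit 552) (C.node (nat_lit 2) (nat_lit 7) (nat_lit 8) (C.cons (nat_lit 396) (C.node (nat_lit 1) (nat_lit 7) (nat_lit 8) (C.cons (nat_lit 402) (C.miq (nat_lit 890708040)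 (nat_lit 195853287700889708306497813)) (C.cons (nat_lit 386) (C.node (nat_lit 4) (nat_lit 7) (nat_lit 8) (C.cons (nat_lit 400) (C.node (nat_lit 3) (nat_lit 5) (nat_lit 8) (C.cons (nat_lit 312) (C.miq (nat_lit 1215386400) (nat_lit 466646307243016514173337645)) (C.cons (nat_lit 296)
  (C.node (nat_lit 4) (nat_lit 5) (nat_lit 8) C.nil) C.nil))) C.nil)) C.nil))) (C.cons (nat_lit 388) (C.node (nat_lit 3) (nat_lit 5) (nat_lit 6) (C.cons (nat_lit 120) (C.node (nat_lit 3) (nat_lit 5) (nat_lit 7) (C.cons (nat_lit 168) (C.node (nat_lit 3) (nat_lit 5) (nat_lit 8) C.nil) C.nil)) (C.cons (nat_lit 104) (C.node (nat_lit 4) (nat_lit 5) (nat_lit 6) C.nil) C.nil))) C.nil))) C.nil)) C.nil)) C.nil))) C.nil))) C.nil)) C.nil))) C.nil))) C.nil)) C.nil))) C.nil))) List.nil)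

theorem ok10_5 : okL par10 (nat_lit 6) c10_5 (nat_lit 5) = true := by decide +kernel

noncomputable def c10_6 : List C :=
  (List.cons (C.node (nat_lit 1) (nat_lit 6) (nat_lit 7) (C.cons (nat_lit 210) (C.node (nat_lit 1) (nat_lit 6) (nat_lit 8) (C.cons (nat_lit 326) (C.node (nat_lit 1) (nat_lit 6) (nat_lit 9) (C.cons (nat_lit 578) (C.node (nat_lit 2) (nat_lit 5) (nat_lit 8) (C.cons (nat_lit 292) (C.node (nat_lit 1) (nat_lit 2) (nat_lit 5) (C.cons (nat_lit 550) (C.node (nat_lit 3) (nat_lit 5) (nat_lit 9) (C.cons (nat_lit 552) (C.node (nat_lit 4) (nat_lit 5) (nat_lit 9) (C.cons (nat_lit 560) (C.node (nat_lit 1) (nat_lit 2) (nat_lit 3) (C.cons (nat_lit 30) (C.miq (nat_lit 2552497683) (nat_lit 334882358214325915457814603)) (C.cons (nat_lit 14) (C.node (nat_lit 1) (nat_lit 2) (nat_lit 4) (C.cons (nat_lit 22) (C.node (nat_lit 2) (nat_lit 5) (nat_lit 7) (C.cons (nat_lit 180) (C.miq (nat_lit 826410613) (nat_lit 26597198156116683981587425)) (C.cons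 (nat_lit 164) (C.node (nat_lit 2) (nat_lit 6) (nat_lit 7) (C.cons (nat_lit 204) (C.miq (nat_lit 1160187958) (nat_lit 198267708247410080756793419)) (C.cons (nat_lit 196) (C.node (nat_lit 3) (nat_lit 6) (nat_lit 7) (C.cons (nat_lit 200) (C.node (nat_lit 3) (nat_lit 5) (nat_lit 6) (C.cons (nat_lit 120) (C.miq (nat_lit 840192118) (nat_lit 26598581653477640776057825)) (C.cons (nat_lit 104) (C.node (nat_lit 1) (nat_lit 3) (nat_lit 4) (C.cons (nat_lit 282) (C.node (nat_lit 1) (nat_lit 3) (nat_lit 5) (C.cons (nat_lit 42) (C.node (nat_lit 1) (nat_lit 4) (nat_lit 9) (C.cons (nat_lit 530) (C.node (nat_lit 1) (nat_lit 5) (nat_lit 8) C.nil) C.nil)) C.nil)) (C.cons (nat_lit 26) (C.node (nat_lit 1) (nat_lit 3) (nat_lit 5) (C.cons (nat_lit 298) (C.node (nat_lit 1) (nat_lit 7) (nat_lit 8) (C.cons (nat_lit 386) (C.node (nat_lit 4) (nat_lit 5) (nat_lit 8) (C.cons (nat_lit 304) (C.node (nat_lit 1) (nat_lit 3) (nat_lit 7) (C.cons (nat_lit 650) (C.node (nat_lit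 1) (nat_lit 4) (nat_lit 8) (C.cons (nat_lit 786) (C.node (nat_lit 2) (nat_lit 8) (nat_lit 9) (C.cons (nat_lit 780) (C.miq (nat_lit 422922272) (nat_lit 667327993432465745396957461)) (C.cons (nat_lit 772) (C.node (nat_lit 3) (nat_lit 8) (nat_lit 9) (C.cons (nat_lit 776) (C.node (nat_lit 2) (nat_lit 3) (nat_lit 8) (C.cons (nat_lit 396) (C.node (nat_lit 2) (nat_lit 3) (nat_lit 4) C.nil) (C.cons (nat_lit 268) (C.node (nat_lit 2) (nat_lit 7) (nat_lit 8) C.nil) C.nil))) C.nil)) C.nil))) (C.cons (nat_lit 274) (C.node (nat_lit 1) (nat_lit 4) (nat_lit 9) (C.cons (nat_lit 530) (C.node (nat_lit 1) (nat_lit 8) (nat_lit 9) (C.cons (nat_lit 770) (C.node (nat_lit 4) (nat_lit 8) (nat_lit 9) (C.cons (nat_lit 784) (C.node (nat_lit 2) (nat_lit 4) (nat_lit 5) (C.cons (nat_lit 116) (C.node (nat_lit 4) (nat_lit 6) (nat_lit 9) C.nil) C.nil)) C.nil)) C.nil)) C.nil)) C.nil))) (C.cons (nat_lit 138) (C.node (nat_lit 1) (nat_lit 3) (nat_lit 9) (C.cons (nat_lit 522)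 (C.node (nat_lit 1) (nat_lit 7) (nat_lit 9) (C.cons (nat_lit 642) (C.node (nat_lit 3) (nat_lit 4) (nat_lit 5) C.nil) C.nil)) C.nil)) C.nil))) C.nil)) C.nil)) (C.cons (nat_lit 42) (C.node (nat_lit 1) (nat_lit 5) (nat_lit 8) (C.cons (nat_lit 290) (C.node (nat_lit 1) (nat_lit 4) (nat_lit 8) (C.cons (nat_lit 274) (C.node (nat_lit 1) (nat_lit 4) (nat_lit 9) (C.cons (nat_lit 530) (C.node (nat_lit 1) (nat_lit 7) (nat_lit 8) C.nil) C.nil)) C.nil)) C.nil)) C.nil))) C.nil))) C.nil))) C.nil)) C.nil))) C.nil))) C.nil)) C.nil))) C.nil)) C.nil)) (C.cons (nat_lit 38) (C.node (nat_lit 1) (nat_lit 5) (nat_lit 8) (C.cons (nat_lit 298) (C.node (nat_lit 1) (nat_lit 5) (nat_lit 9) (C.cons (nat_lit 546) (C.node (nat_lit 1) (nat_lit 7) (nat_lit 8) (C.cons (nat_lit 386) (C.node (nat_lit 3) (nat_lit 5) (nat_lit 9) (C.cons (nat_lit 552) (C.node (nat_lit 4) (nat_lit 5) (nat_lit 8) (C.cons (nat_lit 304) (C.node (nat_lit 1) (nat_lit 3) (nat_lit 4) (C.cons (nat_lit 30)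 (C.miq (nat_lit 2552497683) (nat_lit 334882358214325915457814603)) (C.cons (nat_lit 26) (C.node (nat_lit 2) (nat_lit 5) (nat_lit 7) (C.cons (nat_lit 180) (C.miq (nat_lit 588533863) (nat_lit 31435391736580322349941729)) (C.cons (nat_lit 164) (C.node (nat_lit 2) (nat_lit 6) (nat_lit 7) (C.cons (nat_lit 204)
  (C.miq (nat_lit 1160187958) (nat_lit 198267708247410080756793419)) (C.cons (nat_lit 196) (C.node (nat_lit 3) (nat_lit 6) (nat_lit 7) (C.cons (nat_lit 200) (C.node (nat_lit 3) (nat_lit 5) (nat_lit 6) (C.cons (nat_lit 120) (C.miq (nat_lit 558040933) (nat_lit 31432901451463699279119329)) (C.cons (nat_lit 104) (C.node (nat_lit 1) (nat_lit 2) (nat_lit 3) (C.cons (nat_lit 526) (C.node (nat_lit 1) (nat_lit 2) (nat_lit 4) C.nil) (C.cons (nat_lit 14) (C.node (nat_lit 1) (nat_lit 2) (nat_lit 4) (C.cons (nat_lit 22) (C.node (nat_lit 1) (nat_lit 2) (nat_lit 9) C.nil) C.nil)) C.nil))) C.nil))) C.nil)) C.nil))) C.nil))) C.nil))) C.nil)) C.nil)) C.nil))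 C.nil)) (C.cons (nat_lit 290) (C.node (nat_lit 1) (nat_lit 3) (nat_lit 5) (C.cons (nat_lit 554) (C.node (nat_lit 1) (nat_lit 7) (nat_lit 9) (C.cons (nat_lit 642) (C.node (nat_lit 1) (nat_lit 2) (nat_lit 3) (C.cons (nat_lit 30) (C.miq (nat_lit 2552497683) (nat_lit 334882358214325915457814603)) (C.cons (nat_lit 14) (C.node (nat_lit 1) (nat_lit 8) (nat_lit 9) (C.cons (nat_lit 786) (C.miq (nat_lit 1093830992) (nat_lit 16930071443954937101091809)) (C.cons (nat_lit 770) (C.node (nat_lit 4) (nat_lit 8) (nat_lit 9) (C.cons (nat_lit 784) (C.node (nat_lit 2) (nat_lit 5) (nat_lit 7) (C.cons (nat_lit 180) (C.miq (nat_lit 1110537478) (nat_lit 16928835341525976538088417)) (C.cons (nat_lit 164) (C.node (nat_lit 2) (nat_lit 6) (nat_lit 7) (C.cons (nat_lit 204) (C.miq (nat_lit 1160187958) (nat_lit 198267708247410080756793419)) (C.cons (nat_lit 196) (C.node (nat_lit 3) (nat_lit 6) (nat_lit 7) (C.cons (nat_lit 200) (C.node (nat_lit 2) (nat_lit 8) (nat_lit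 9) (C.cons (nat_lit 780) (C.miq (nat_lit 1110509717) (nat_lit 16925902336524486292669409)) (C.cons (nat_lit 772) (C.node (nat_lit 3) (nat_lit 8) (nat_lit 9) (C.cons (nat_lit 776) (C.node (nat_lit 3) (nat_lit 5) (nat_lit 6) (C.cons (nat_lit 120) (C.miq (nat_lit 1126262023) (nat_lit 16928835324637477939381217)) (C.cons (nat_lit 104) (C.node (nat_lit 1) (nat_lit 2) (nat_lit 4) (C.cons (nat_lit 534) (C.node (nat_lit 2) (nat_lit 5) (nat_lit 9) C.nil) (C.cons (nat_lit 22) (C.node (nat_lit 1) (nat_lit 2) (nat_lit 9) C.nil) C.nil))) C.nil))) C.nil)) C.nil))) C.nil)) C.nil))) C.nil))) C.nil)) C.nil))) C.nil))) C.nil)) (C.cons (nat_lit 42) (C.node (nat_lit 1) (nat_lit 5) (nat_lit 9) (C.cons (nat_lit 546) (C.node (nat_lit 3) (nat_lit 5) (nat_lit 9) (C.cons (nat_lit 552) (C.node (nat_lit 1) (nat_lit 7) (nat_lit 8) (C.cons (nat_lit 394) (C.node (nat_lit 1) (nat_lit 7) (nat_lit 9) (C.cons (nat_lit 642) (C.node (nat_lit 2) (nat_lit 7) (nat_lit 8) (C.cons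 (nat_lit 388) (C.node (nat_lit 4) (nat_lit 7) (nat_lit 8) (C.cons (nat_lit 400) (C.node (nat_lit 1) (nat_lit 3) (nat_lit 4) (C.cons (nat_lit 30) (C.miq (nat_lit 2552497683) (nat_lit 334882358214325915457814603)) (C.cons (nat_lit 26) (C.node (nat_lit 2) (nat_lit 5) (nat_lit 7) (C.cons (nat_lit 180) (C.miq (nat_lit 588533863) (nat_lit 31435391736580322349941729)) (C.cons (nat_lit 164) (C.node (nat_lit 2) (nat_lit 6) (nat_lit 7) (C.cons (nat_lit 204) (C.miq (nat_lit 1160187958) (nat_lit 198267708247410080756793419)) (C.cons (nat_lit 196) (C.node (nat_lit 3) (nat_lit 6) (nat_lit 7) (C.cons (nat_lit 200) (C.node (nat_lit 1) (nat_lit 2) (nat_lit 3) (C.cons (nat_lit 14) (C.node (nat_lit 1) (nat_lit 3) (nat_lit 9) C.nil) C.nil)) C.nil)) C.nil))) C.nil))) C.nil))) C.nil)) C.nil)) C.nil)) (C.cons (nat_lit 386) (C.node (nat_lit 1) (nat_lit 3) (nat_lit 7) (C.cons (nat_lit 650) (C.node (nat_lit 1) (nat_lit 2) (nat_lit 3) (C.cons (nat_lit 30) (C.miq (nat_lit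 2552497683) (nat_lit 334882358214325915457814603)) (C.cons (nat_lit 14) (C.node (nat_lit 2) (nat_lit 5) (nat_lit 7) (C.cons (nat_lit 180) (C.miq (nat_lit 1110537478) (nat_lit 16928835341525976538088417)) (C.cons (nat_lit 164) (C.node (nat_lit 2) (nat_lit 6) (nat_lit 7) (C.cons (nat_lit 204) (C.miq (nat_lit 1160187958) (nat_lit 198267708247410080756793419)) (C.cons (nat_lit 196) (C.node (nat_lit 3) (nat_lit 6) (nat_lit 7) (C.cons (nat_lit 200)
  (C.node (nat_lit 3) (nat_lit 5) (nat_lit 6) (C.cons (nat_lit 120) (C.miq (nat_lit 1126262023) (nat_lit 16928835324637477939381217)) (C.cons (nat_lit 104) (C.node (nat_lit 1) (nat_lit 2) (nat_lit 4) (C.cons (nat_lit 534) (C.node (nat_lit 2) (nat_lit 5) (nat_lit 9) C.nil) (C.cons (nat_lit 22) (C.node (nat_lit 1) (nat_lit 2) (nat_lit 9) C.nil) C.nil))) C.nil))) C.nil)) C.nil))) C.nil))) C.nil))) (C.cons (nat_lit 138) (C.node (nat_lit 1) (nat_lit 7) (nat_lit 9) (C.cons (nat_lit 642) (C.node (nat_lit 1)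 (nat_lit 2) (nat_lit 3) (C.cons (nat_lit 526) (C.node (nat_lit 1) (nat_lit 2) (nat_lit 4) C.nil) (C.cons (nat_lit 30) (C.miq (nat_lit 2552497683) (nat_lit 334882358214325915457814603)) C.nil))) C.nil)) C.nil))) C.nil))) C.nil)) C.nil)) C.nil))) C.nil))) C.nil))) C.nil)) C.nil)) (C.cons (nat_lit 322) (C.node (nat_lit 1) (nat_lit 2) (nat_lit 6) (C.cons (nat_lit 582) (C.node (nat_lit 3) (nat_lit 6) (nat_lit 9) (C.cons (nat_lit 584) (C.node (nat_lit 4) (nat_lit 6) (nat_lit 9) (C.cons (nat_lit 592) (C.node (nat_lit 1) (nat_lit 2) (nat_lit 4) (C.cons (nat_lit 30) (C.node (nat_lit 1) (nat_lit 7) (nat_lit 9) (C.cons (nat_lit 650) (C.miq (nat_lit 2301888274) (nat_lit 649198275160671727967404167)) (C.cons (nat_lit 642) (C.node (nat_lit 2) (nat_lit 4) (nat_lit 6) (C.cons (nat_lit 116) (C.miq (nat_lit 1948606768) (nat_lit 140253712751272051811876939)) (C.cons (nat_lit 84) (C.node (nat_lit 2) (nat_lit 5) (nat_lit 6) (C.cons (nat_lit 100) (C.node (nat_lit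 2) (nat_lit 5) (nat_lit 7) (C.cons (nat_lit 180) (C.node (nat_lit 2) (nat_lit 4) (nat_lit 9) (C.cons (nat_lit 532) (C.node (nat_lit 2) (nat_lit 5) (nat_lit 9) (C.cons (nat_lit 548) (C.node (nat_lit 3) (nat_lit 5) (nat_lit 7) (C.cons (nat_lit 168) (C.node (nat_lit 4) (nat_lit 5) (nat_lit 9) (C.cons (nat_lit 560) (C.node (nat_lit 4) (nat_lit 7) (nat_lit 9) (C.cons (nat_lit 656) (C.node (nat_lit 2) (nat_lit 6) (nat_lit 7) (C.cons (nat_lit 204) (C.node (nat_lit 2) (nat_lit 6) (nat_lit 8) (C.cons (nat_lit 324) (C.node (nat_lit 2) (nat_lit 7) (nat_lit 8) (C.cons (nat_lit 388) (C.node (nat_lit 2) (nat_lit 7) (nat_lit 9) (C.cons (nat_lit 644) (C.node (nat_lit 3) (nat_lit 7) (nat_lit 9) C.nil) C.nil)) C.nil)) C.nil)) (C.cons (nat_lit 196) (C.miq (nat_lit 846595393) (nat_lit 236950844162939993518637107)) C.nil))) C.nil)) C.nil)) C.nil)) C.nil)) C.nil)) (C.cons (nat_lit 164) (C.miq (nat_lit 1113002758) (nat_lit 198267708241499106297577547)) C.nil)))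 C.nil)) C.nil))) C.nil))) (C.cons (nat_lit 22) (C.node (nat_lit 2) (nat_lit 5) (nat_lit 7) (C.cons (nat_lit 180) (C.miq (nat_lit 826410613) (nat_lit 26597198156116683981587425)) (C.cons (nat_lit 164) (C.node (nat_lit 2) (nat_lit 6) (nat_lit 7) (C.cons (nat_lit 204) (C.miq (nat_lit 1160187958) (nat_lit 198267708247410080756793419)) (C.cons (nat_lit 196) (C.node (nat_lit 3) (nat_lit 6) (nat_lit 7) (C.cons (nat_lit 200) (C.node (nat_lit 3) (nat_lit 5) (nat_lit 6) (C.cons (nat_lit 120) (C.miq (nat_lit 840192118) (nat_lit 26598581653477640776057825)) (C.cons (nat_lit 104) (C.node (nat_lit 1) (nat_lit 2) (nat_lit 3) (C.cons (nat_lit 270) (C.node (nat_lit 1) (nat_lit 2) (nat_lit 5) (C.cons (nat_lit 38) (C.node (nat_lit 1) (nat_lit 3) (nat_lit 4) (C.cons (nat_lit 26) (C.node (nat_lit 1) (nat_lit 5) (nat_lit 8) (C.cons (nat_lit 290) (C.node (nat_lit 1) (nat_lit 7) (nat_lit 8) (C.cons (nat_lit 386) (C.node (nat_lit 2) (nat_lit 5) (nat_lit 8) (C.cons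 (nat_lit 292) (C.node (nat_lit 2) (nat_lit 6) (nat_lit 8) (C.cons (nat_lit 324) (C.node (nat_lit 2) (nat_lit 7) (nat_lit 8) C.nil) C.nil)) C.nil)) C.nil)) C.nil)) C.nil)) C.nil)) (C.cons (nat_lit 14) (C.node (nat_lit 1) (nat_lit 2) (nat_lit 5) (C.cons (nat_lit 294) (C.node (nat_lit 1) (nat_lit 3) (nat_lit 5) (C.cons (nat_lit 554) (C.miq (nat_lit 824481152) (nat_lit 26606274089027823708996577)) (C.cons (nat_lit 42) (C.node (nat_lit 1) (nat_lit 5) (nat_lit 9) (C.cons (nat_lit 546) (C.node (nat_lit 3) (nat_lit 5) (nat_lit 9) (C.cons (nat_lit 552) (C.node (nat_lit 1) (nat_lit 4) (nat_lit 9) (C.cons (nat_lit 786)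
  (C.miq (nat_lit 1092851792) (nat_lit 16934867597412984893015009)) (C.cons (nat_lit 530) (C.node (nat_lit 4) (nat_lit 8) (nat_lit 9) (C.cons (nat_lit 784) (C.node (nat_lit 1) (nat_lit 3) (nat_lit 4) (C.cons (nat_lit 26) (C.node (nat_lit 3) (nat_lit 5) (nat_lit 7) C.nil) C.nil)) C.nil)) C.nil))) C.nil)) C.nil)) C.nil))) (C.cons (nat_lit 38) (C.node (nat_lit 1) (nat_lit 2) (nat_lit 8) (C.cons (nat_lit 262) (C.node (nat_lit 2) (nat_lit 5) (nat_lit 8) (C.cons (nat_lit 292) (C.node (nat_lit 1) (nat_lit 3) (nat_lit 4) (C.cons (nat_lit 282) (C.node (nat_lit 1) (nat_lit 4) (nat_lit 9) C.nil) (C.cons (nat_lit 26) (C.node (nat_lit 1) (nat_lit 4) (nat_lit 8) (C.cons (nat_lit 274) (C.node (nat_lit 1) (nat_lit 4) (nat_lit 9) C.nil) C.nil)) C.nil))) C.nil)) C.nil)) C.nil))) C.nil))) C.nil))) C.nil)) C.nil))) C.nil))) C.nil))) C.nil)) C.nil)) (C.cons (nat_lit 70) (C.node (nat_lit 1) (nat_lit 6) (nat_lit 9) (C.cons (nat_lit 578) (C.node (nat_lit 1) (nat_lit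 7) (nat_lit 8) (C.cons (nat_lit 394) (C.node (nat_lit 1) (nat_lit 7) (nat_lit 9) (C.cons (nat_lit 642) (C.node (nat_lit 2) (nat_lit 7) (nat_lit 8) (C.cons (nat_lit 388) (C.node (nat_lit 4) (nat_lit 7) (nat_lit 8) (C.cons (nat_lit 400) (C.node (nat_lit 1) (nat_lit 3) (nat_lit 4) (C.cons (nat_lit 30) (C.node (nat_lit 2) (nat_lit 5) (nat_lit 6) (C.cons (nat_lit 116) (C.miq (nat_lit 1948606768) (nat_lit 140253712751272051811876939)) (C.cons (nat_lit 100) (C.node (nat_lit 2) (nat_lit 5) (nat_lit 7) (C.cons (nat_lit 180) (C.node (nat_lit 3) (nat_lit 4) (nat_lit 7) (C.cons (nat_lit 152) (C.node (nat_lit 3) (nat_lit 5) (nat_lit 7) (C.cons (nat_lit 168) (C.node (nat_lit 4) (nat_lit 5) (nat_lit 9) (C.cons (nat_lit 560) (C.node (nat_lit 4) (nat_lit 7) (nat_lit 9) (C.cons (nat_lit 656) (C.node (nat_lit 2) (nat_lit 6) (nat_lit 7) (C.cons (nat_lit 204) (C.node (nat_lit 2) (nat_lit 6) (nat_lit 8) (C.cons (nat_lit 324) (C.node (nat_lit 2) (nat_lit 7) (nat_lit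 9) (C.cons (nat_lit 644) (C.node (nat_lit 3) (nat_lit 6) (nat_lit 9) (C.cons (nat_lit 584) (C.node (nat_lit 3) (nat_lit 7) (nat_lit 9) (C.cons (nat_lit 648) (C.node (nat_lit 1) (nat_lit 5) (nat_lit 8) (C.cons (nat_lit 290) (C.node (nat_lit 1) (nat_lit 2) (nat_lit 5) C.nil) C.nil)) C.nil)) C.nil)) C.nil)) C.nil)) (C.cons (nat_lit 196) (C.miq (nat_lit 846595393) (nat_lit 236950844162939993518637107)) C.nil))) C.nil)) C.nil)) C.nil)) C.nil)) (C.cons (nat_lit 164) (C.miq (nat_lit 1113002758) (nat_lit 198267708241499106297577547)) C.nil))) C.nil))) (C.cons (nat_lit 26) (C.node (nat_lit 2) (nat_lit 5) (nat_lit 7) (C.cons (nat_lit 180) (C.miq (nat_lit 588533863) (nat_lit 31435391736580322349941729)) (C.cons (nat_lit 164) (C.node (nat_lit 2) (nat_lit 6) (nat_lit 7) (C.cons (nat_lit 204) (C.miq (nat_lit 1160187958) (nat_lit 198267708247410080756793419)) (C.cons (nat_lit 196) (C.node (nat_lit 3) (nat_lit 6) (nat_lit 7) (C.cons (nat_lit 200) (C.node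 (nat_lit 3) (nat_lit 5) (nat_lit 6) (C.cons (nat_lit 120) (C.miq (nat_lit 558040933) (nat_lit 31432901451463699279119329)) (C.cons (nat_lit 104) (C.node (nat_lit 1) (nat_lit 2) (nat_lit 3) (C.cons (nat_lit 526) (C.node (nat_lit 1) (nat_lit 2) (nat_lit 4) (C.cons (nat_lit 22) (C.node (nat_lit 1) (nat_lit 3) (nat_lit 5) (C.cons (nat_lit 42) (C.node (nat_lit 1) (nat_lit 5) (nat_lit 9) (C.cons (nat_lit 546) (C.node (nat_lit 1) (nat_lit 2) (nat_lit 5) C.nil) C.nil)) C.nil)) C.nil)) (C.cons (nat_lit 14) (C.node (nat_lit 1) (nat_lit 2) (nat_lit 4) (C.cons (nat_lit 534) (C.node (nat_lit 1) (nat_lit 4) (nat_lit 8) (C.cons (nat_lit 274) (C.node (nat_lit 1) (nat_lit 8) (nat_lit 9) (C.cons (nat_lit 770) (C.node (nat_lit 1) (nat_lit 2) (nat_lit 5) C.nil) C.nil)) C.nil)) (C.cons (nat_lit 22) (C.node (nat_lit 1) (nat_lit 3) (nat_lit 5) (C.cons (nat_lit 554) (C.node (nat_lit 1) (nat_lit 2) (nat_lit 5) (C.cons (nat_lit 38) (C.node (nat_lit 1) (nat_lit 5)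 (nat_lit 8) C.nil) C.nil)) (C.cons (nat_lit 42)
  (C.node (nat_lit 1) (nat_lit 3) (nat_lit 9) C.nil) C.nil))) C.nil))) C.nil))) C.nil))) C.nil)) C.nil))) C.nil))) C.nil))) C.nil)) C.nil)) C.nil)) (C.cons (nat_lit 386) (C.node (nat_lit 1) (nat_lit 3) (nat_lit 7) (C.cons (nat_lit 650) (C.node (nat_lit 3) (nat_lit 5) (nat_lit 9) (C.cons (nat_lit 552) (C.node (nat_lit 1) (nat_lit 3) (nat_lit 5) (C.cons (nat_lit 298) (C.node (nat_lit 2) (nat_lit 5) (nat_lit 8) (C.cons (nat_lit 292) (C.node (nat_lit 4) (nat_lit 5) (nat_lit 8) (C.cons (nat_lit 304) (C.node (nat_lit 1) (nat_lit 2) (nat_lit 3) (C.cons (nat_lit 30) (C.miq (nat_lit 2301888274) (nat_lit 649198275160671727967404167)) (C.cons (nat_lit 14) (C.node (nat_lit 1) (nat_lit 3) (nat_lit 4) (C.cons (nat_lit 26) (C.node (nat_lit 2) (nat_lit 5) (nat_lit 7) (C.cons (nat_lit 180) (C.miq (nat_lit 588533863) (nat_lit 31435391736580322349941729)) (C.cons (nat_lit 164) (C.node (nat_lit 2) (nat_lit 6)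 (nat_lit 7) (C.cons (nat_lit 204) (C.miq (nat_lit 1160187958) (nat_lit 198267708247410080756793419)) (C.cons (nat_lit 196) (C.node (nat_lit 3) (nat_lit 6) (nat_lit 7) (C.cons (nat_lit 200) (C.node (nat_lit 3) (nat_lit 5) (nat_lit 6) (C.cons (nat_lit 120) (C.miq (nat_lit 558040933) (nat_lit 31432901451463699279119329)) (C.cons (nat_lit 104) (C.node (nat_lit 1) (nat_lit 2) (nat_lit 4) (C.cons (nat_lit 534) (C.node (nat_lit 1) (nat_lit 2) (nat_lit 5) (C.cons (nat_lit 38) (C.node (nat_lit 1) (nat_lit 5) (nat_lit 9) C.nil) C.nil)) (C.cons (nat_lit 22) (C.node (nat_lit 1) (nat_lit 2) (nat_lit 5) (C.cons (nat_lit 550) (C.node (nat_lit 1) (nat_lit 2) (nat_lit 8) (C.cons (nat_lit 262) (C.node (nat_lit 2) (nat_lit 4) (nat_lit 5) C.nil) C.nil)) (C.cons (nat_lit 38) (C.node (nat_lit 1) (nat_lit 5) (nat_lit 9) C.nil) C.nil))) C.nil))) C.nil))) C.nil)) C.nil))) C.nil))) C.nil)) C.nil))) C.nil)) C.nil)) (C.cons (nat_lit 42) (C.node (nat_lit 1) (nat_lit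 5) (nat_lit 8) (C.cons (nat_lit 294) (C.node (nat_lit 1) (nat_lit 5) (nat_lit 9) (C.cons (nat_lit 546) (C.node (nat_lit 1) (nat_lit 2) (nat_lit 3) (C.cons (nat_lit 30) (C.miq (nat_lit 2301888274) (nat_lit 649198275160671727967404167)) (C.cons (nat_lit 14) (C.node (nat_lit 1) (nat_lit 8) (nat_lit 9) (C.cons (nat_lit 786) (C.miq (nat_lit 1092851792) (nat_lit 16934867597412984893015009)) (C.cons (nat_lit 770) (C.node (nat_lit 4) (nat_lit 8) (nat_lit 9) (C.cons (nat_lit 784) (C.node (nat_lit 1) (nat_lit 2) (nat_lit 4) (C.cons (nat_lit 534) (C.node (nat_lit 2) (nat_lit 5) (nat_lit 9) (C.cons (nat_lit 548) (C.node (nat_lit 2) (nat_lit 7) (nat_lit 9) C.nil) C.nil)) C.nil)) C.nil)) C.nil))) C.nil))) C.nil)) (C.cons (nat_lit 290) (C.node (nat_lit 2) (nat_lit 5) (nat_lit 8) (C.cons (nat_lit 292) (C.node (nat_lit 1) (nat_lit 2) (nat_lit 5) (C.cons (nat_lit 550) (C.node (nat_lit 4) (nat_lit 5) (nat_lit 9) (C.cons (nat_lit 560) (C.node (nat_lit 1) (nat_lit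 2) (nat_lit 4) (C.cons (nat_lit 30) (C.miq (nat_lit 2301888274) (nat_lit 649198275160671727967404167)) (C.cons (nat_lit 22) (C.node (nat_lit 2) (nat_lit 5) (nat_lit 7) (C.cons (nat_lit 180) (C.miq (nat_lit 826410613) (nat_lit 26597198156116683981587425)) (C.cons (nat_lit 164) (C.node (nat_lit 2) (nat_lit 6) (nat_lit 7) (C.cons (nat_lit 204) (C.miq (nat_lit 1160187958) (nat_lit 198267708247410080756793419)) (C.cons (nat_lit 196) (C.node (nat_lit 3) (nat_lit 6) (nat_lit 7) (C.cons (nat_lit 200) (C.node (nat_lit 3) (nat_lit 5) (nat_lit 6) (C.cons (nat_lit 120) (C.miq (nat_lit 840192118) (nat_lit 26598581653477640776057825)) (C.cons (nat_lit 104) (C.node (nat_lit 1) (nat_lit 2) (nat_lit 3) (C.cons (nat_lit 14) (C.node (nat_lit 1) (nat_lit 2) (nat_lit 8) C.nil) C.nil)) C.nil))) C.nil)) C.nil))) C.nil))) C.nil))) C.nil)) (C.cons (nat_lit 38) (C.node (nat_lit 1) (nat_lit 5) (nat_lit 9) (C.cons (nat_lit 546) (C.node (nat_lit 1) (nat_lit 3) (nat_lit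 2) (C.cons (nat_lit 270) (C.node (nat_lit 1) (nat_lit 3) (nat_lit 4) C.nil) (C.cons (nat_lit 30) (C.miq (nat_lit 2301888274) (nat_lit 649198275160671727967404167)) C.nil))) C.nil)) C.nil))) C.nil)) C.nil))) C.nil))) C.nil))
  (C.cons (nat_lit 138) (C.node (nat_lit 1) (nat_lit 7) (nat_lit 9) (C.cons (nat_lit 642) (C.node (nat_lit 2) (nat_lit 5) (nat_lit 6) (C.cons (nat_lit 116) (C.node (nat_lit 2) (nat_lit 5) (nat_lit 7) (C.cons (nat_lit 164) (C.node (nat_lit 3) (nat_lit 5) (nat_lit 6) (C.cons (nat_lit 104) (C.node (nat_lit 4) (nat_lit 5) (nat_lit 9) (C.cons (nat_lit 560) (C.node (nat_lit 4) (nat_lit 6) (nat_lit 9) (C.cons (nat_lit 592) (C.node (nat_lit 2) (nat_lit 6) (nat_lit 7) (C.cons (nat_lit 204) (C.miq (nat_lit 1160187958) (nat_lit 198267708247410080756793419)) (C.cons (nat_lit 196) (C.node (nat_lit 3) (nat_lit 6) (nat_lit 7) (C.cons (nat_lit 200) (C.node (nat_lit 2) (nat_lit 5) (nat_lit 8) (C.cons (nat_lit 294) (C.node (nat_lit 2)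 (nat_lit 5) (nat_lit 9) (C.cons (nat_lit 548) (C.node (nat_lit 1) (nat_lit 3) (nat_lit 5) (C.cons (nat_lit 554) (C.node (nat_lit 1) (nat_lit 2) (nat_lit 3) (C.cons (nat_lit 14) (C.miq (nat_lit 1125255512) (nat_lit 16930071373867667916456929)) C.nil)) (C.cons (nat_lit 42) (C.node (nat_lit 1) (nat_lit 5) (nat_lit 9) (C.cons (nat_lit 546) (C.node (nat_lit 3) (nat_lit 5) (nat_lit 9) C.nil) C.nil)) C.nil))) C.nil)) (C.cons (nat_lit 292) (C.node (nat_lit 1) (nat_lit 2) (nat_lit 5) (C.cons (nat_lit 550) (C.node (nat_lit 3) (nat_lit 5) (nat_lit 9) (C.cons (nat_lit 552) (C.node (nat_lit 1) (nat_lit 2) (nat_lit 4) (C.cons (nat_lit 30) (C.miq (nat_lit 1948606768) (nat_lit 140253712751272051811876939)) (C.cons (nat_lit 22) (C.node (nat_lit 1) (nat_lit 2) (nat_lit 3) (C.cons (nat_lit 270) (C.node (nat_lit 1) (nat_lit 3) (nat_lit 4) (C.cons (nat_lit 26) (C.node (nat_lit 1) (nat_lit 3) (nat_lit 5) C.nil) C.nil)) (C.cons (nat_lit 14) (C.node (nat_lit 1)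 (nat_lit 2) (nat_lit 8) C.nil) C.nil))) C.nil))) C.nil)) (C.cons (nat_lit 38) (C.node (nat_lit 2) (nat_lit 5) (nat_lit 9) (C.cons (nat_lit 548) (C.node (nat_lit 1) (nat_lit 5) (nat_lit 8) (C.cons (nat_lit 298) (C.node (nat_lit 1) (nat_lit 5) (nat_lit 9) C.nil) (C.cons (nat_lit 290) (C.node (nat_lit 1) (nat_lit 3) (nat_lit 5) C.nil) C.nil))) C.nil)) C.nil))) C.nil))) C.nil)) C.nil))) C.nil)) C.nil)) C.nil)) C.nil)) (C.cons (nat_lit 100) (C.node (nat_lit 2) (nat_lit 5) (nat_lit 7) (C.cons (nat_lit 180) (C.node (nat_lit 3) (nat_lit 5) (nat_lit 7) (C.cons (nat_lit 168) (C.node (nat_lit 4) (nat_lit 5) (nat_lit 9) (C.cons (nat_lit 560) (C.node (nat_lit 4) (nat_lit 7) (nat_lit 9) (C.cons (nat_lit 656) (C.node (nat_lit 2) (nat_lit 6) (nat_lit 7) (C.cons (nat_lit 204) (C.node (nat_lit 2) (nat_lit 6) (nat_lit 8) (C.cons (nat_lit 324) (C.node (nat_lit 2) (nat_lit 7) (nat_lit 8) (C.cons (nat_lit 388) (C.node (nat_lit 2) (nat_lit 7) (nat_lit 9) (C.cons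 (nat_lit 644) (C.node (nat_lit 3) (nat_lit 6) (nat_lit 9) (C.cons (nat_lit 584) (C.node (nat_lit 3) (nat_lit 5) (nat_lit 6) (C.cons (nat_lit 104) (C.miq (nat_lit 1177907458) (nat_lit 125731605712964769123467399)) C.nil)) C.nil)) C.nil)) C.nil)) C.nil)) (C.cons (nat_lit 196) (C.miq (nat_lit 846595393) (nat_lit 236950844162939993518637107)) C.nil))) C.nil)) C.nil)) C.nil)) (C.cons (nat_lit 164) (C.node (nat_lit 2) (nat_lit 6) (nat_lit 7) (C.cons (nat_lit 204) (C.miq (nat_lit 1160187958) (nat_lit 198267708247410080756793419)) (C.cons (nat_lit 196) (C.node (nat_lit 3) (nat_lit 6) (nat_lit 7) (C.cons (nat_lit 200) (C.node (nat_lit 3) (nat_lit 5) (nat_lit 6) (C.cons (nat_lit 120) (C.miq (nat_lit 913462288) (nat_lit 236950290781728534329491507)) (C.cons (nat_lit 104) (C.node (nat_lit 4) (nat_lit 5) (nat_lit 6) (C.cons (nat_lit 112) (C.node (nat_lit 2) (nat_lit 4) (nat_lit 5) (C.cons (nat_lit 564) (C.node (nat_lit 4) (nat_lit 6) (nat_lit 9) (C.cons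 (nat_lit 592) (C.node (nat_lit 4) (nat_lit 7) (nat_lit 9) (C.cons (nat_lit 656) (C.node (nat_lit 2) (nat_lit 4) (nat_lit 7) C.nil) C.nil)) C.nil)) (C.cons (nat_lit 52) (C.node (nat_lit 4) (nat_lit 5) (nat_lit 9) (C.cons (nat_lit 560) (C.node (nat_lit 2) (nat_lit 5) (nat_lit 8) (C.cons (nat_lit 294) (C.node (nat_lit 2) (nat_lit 5) (nat_lit 9) (C.cons (nat_lit 548) (C.node (nat_lit 1) (nat_lit 3) (nat_lit 5)
  (C.cons (nat_lit 42) (C.node (nat_lit 1) (nat_lit 5) (nat_lit 9) C.nil) C.nil)) C.nil)) (C.cons (nat_lit 292) (C.node (nat_lit 3) (nat_lit 5) (nat_lit 7) (C.cons (nat_lit 168) (C.node (nat_lit 4) (nat_lit 5) (nat_lit 7) C.nil) C.nil)) C.nil))) C.nil)) C.nil))) C.nil)) C.nil))) C.nil)) C.nil))) C.nil))) C.nil))) C.nil)) C.nil))) C.nil))) C.nil)) C.nil))) C.nil))) (C.cons (nat_lit 194) (C.node (nat_lit 2) (nat_lit 5) (nat_lit 6) (C.cons (nat_lit 116) (C.node (nat_lit 2) (nat_lit 5) (nat_lit 7) (C.cons (nat_lit 164) (C.node (nat_lit 3)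 (nat_lit 5) (nat_lit 6) (C.cons (nat_lit 104) (C.node (nat_lit 4) (nat_lit 5) (nat_lit 9) (C.cons (nat_lit 560) (C.node (nat_lit 2) (nat_lit 5) (nat_lit 8) (C.cons (nat_lit 294) (C.node (nat_lit 2) (nat_lit 5) (nat_lit 9) (C.cons (nat_lit 548) (C.node (nat_lit 1) (nat_lit 2) (nat_lit 6) (C.cons (nat_lit 582) (C.node (nat_lit 3) (nat_lit 6) (nat_lit 9) (C.cons (nat_lit 584) (C.node (nat_lit 4) (nat_lit 6) (nat_lit 9) (C.cons (nat_lit 592) (C.node (nat_lit 1) (nat_lit 2) (nat_lit 3) (C.cons (nat_lit 30) (C.node (nat_lit 1) (nat_lit 3) (nat_lit 5) (C.cons (nat_lit 554) (C.node (nat_lit 1) (nat_lit 4) (nat_lit 6) (C.cons (nat_lit 338) (C.miq (nat_lit 2437436192) (nat_lit 408635244802547120600317997)) (C.cons (nat_lit 82) (C.node (nat_lit 1) (nat_lit 6) (nat_lit 8) (C.cons (nat_lit 322) (C.node (nat_lit 1) (nat_lit 7) (nat_lit 9) (C.cons (nat_lit 658) (C.miq (nat_lit 2299790642) (nat_lit 795478299334041445789990957)) (C.cons (nat_lit 642) (C.node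 (nat_lit 1) (nat_lit 4) (nat_lit 7) (C.cons (nat_lit 402) (C.miq (nat_lit 2437436192) (nat_lit 486006497257883387781513261)) (C.cons (nat_lit 146) (C.node (nat_lit 1) (nat_lit 3) (nat_lit 7) (C.cons (nat_lit 394) (C.node (nat_lit 2) (nat_lit 7) (nat_lit 8) (C.cons (nat_lit 388) (C.node (nat_lit 4) (nat_lit 7) (nat_lit 8) (C.cons (nat_lit 400) (C.node (nat_lit 4) (nat_lit 6) (nat_lit 7) (C.cons (nat_lit 208) (C.miq (nat_lit 929306706) (nat_lit 251457123993070485359558950)) C.nil)) C.nil)) C.nil)) C.nil)) C.nil))) C.nil))) C.nil)) C.nil))) (C.cons (nat_lit 42) (C.miq (nat_lit 2501052452) (nat_lit 50784790604887921962909973)) C.nil))) (C.cons (nat_lit 14) (C.node (nat_lit 1) (nat_lit 2) (nat_lit 4) (C.cons (nat_lit 22) (C.node (nat_lit 1) (nat_lit 3) (nat_lit 5) (C.cons (nat_lit 554) (C.miq (nat_lit 824481152) (nat_lit 26606274089027823708996577)) (C.cons (nat_lit 42) (C.node (nat_lit 1) (nat_lit 5) (nat_lit 9) (C.cons (nat_lit 546) (C.node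 (nat_lit 3) (nat_lit 5) (nat_lit 9) (C.cons (nat_lit 552) (C.node (nat_lit 2) (nat_lit 8) (nat_lit 9) (C.cons (nat_lit 780) (C.miq (nat_lit 840210512) (nat_lit 26606274152641168430793697)) (C.cons (nat_lit 772) (C.node (nat_lit 2) (nat_lit 3) (nat_lit 9) (C.cons (nat_lit 524) (C.node (nat_lit 2) (nat_lit 4) (nat_lit 9) C.nil) C.nil)) C.nil))) C.nil)) C.nil)) C.nil))) C.nil)) C.nil))) C.nil)) C.nil)) (C.cons (nat_lit 70) (C.node (nat_lit 1) (nat_lit 3) (nat_lit 5) (C.cons (nat_lit 554) (C.node (nat_lit 1) (nat_lit 2) (nat_lit 3) (C.cons (nat_lit 30) (C.node (nat_lit 1) (nat_lit 2) (nat_lit 9) (C.cons (nat_lit 518) (C.node (nat_lit 1) (nat_lit 6) (nat_lit 8) (C.cons (nat_lit 338) (C.miq (nat_lit 2437436192) (nat_lit 408635244802547120600317997)) (C.cons (nat_lit 322) (C.node (nat_lit 1) (nat_lit 4) (nat_lit 6) (C.cons (nat_lit 594) (C.miq (nat_lit 2299790642) (nat_lit 718107046878705178608795693)) (C.cons (nat_lit 82) (C.node (nat_lit 1) (nat_lit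 6) (nat_lit 9) (C.cons (nat_lit 578) (C.node (nat_lit 4) (nat_lit 6) (nat_lit 9) (C.cons (nat_lit 592) (C.node (nat_lit 1) (nat_lit 7) (nat_lit 9) (C.cons (nat_lit 658) (C.miq (nat_lit 2299790642) (nat_lit 795478299334041445789990957)) (C.cons (nat_lit 642) (C.node (nat_lit 1) (nat_lit 4) (nat_lit 7) (C.cons (nat_lit 402) (C.miq (nat_lit 2437436192) (nat_lit 486006497257883387781513261)) (C.cons (nat_lit 146) (C.node (nat_lit 1) (nat_lit 3) (nat_lit 7) (C.cons (nat_lit 394)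
  (C.node (nat_lit 2) (nat_lit 6) (nat_lit 7) C.nil) C.nil)) C.nil))) C.nil))) C.nil)) C.nil)) C.nil))) C.nil))) C.nil)) (C.cons (nat_lit 14) (C.miq (nat_lit 1125255512) (nat_lit 16930071373867667916456929)) C.nil))) (C.cons (nat_lit 42) (C.node (nat_lit 1) (nat_lit 5) (nat_lit 9) (C.cons (nat_lit 546) (C.node (nat_lit 3) (nat_lit 5) (nat_lit 9) (C.cons (nat_lit 552) (C.node (nat_lit 4) (nat_lit 8) (nat_lit 9) (C.cons (nat_lit 786) (C.miq (nat_lit 2438154272) (nat_lit 50784790546622601784787221)) (C.cons (nat_lit 784) (C.node (nat_lit 2) (nat_lit 8) (nat_lit 9) (C.cons (nat_lit 780) (C.miq (nat_lit 412373552) (nat_lit 947798783444574025419391021)) (C.cons (nat_lit 772) (C.node (nat_lit 1) (nat_lit 6) (nat_lit 8) (C.cons (nat_lit 338) (C.node (nat_lit 1) (nat_lit 6) (nat_lit 9) (C.cons (nat_lit 578) (C.node (nat_lit 4) (nat_lit 6) (nat_lit 9) (C.cons (nat_lit 592) (C.node (nat_lit 2) (nat_lit 6) (nat_lit 8) (C.cons (nat_lit 332) (C.miq (nat_lit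 1384383329) (nat_lit 334873392829867840484016203)) (C.cons (nat_lit 324) (C.node (nat_lit 3) (nat_lit 6) (nat_lit 8) (C.cons (nat_lit 328) (C.node (nat_lit 1) (nat_lit 8) (nat_lit 9) (C.cons (nat_lit 778) (C.node (nat_lit 1) (nat_lit 7) (nat_lit 8) C.nil) C.nil)) C.nil)) C.nil))) C.nil)) C.nil)) (C.cons (nat_lit 322) (C.node (nat_lit 1) (nat_lit 4) (nat_lit 6) (C.cons (nat_lit 594) (C.node (nat_lit 1) (nat_lit 2) (nat_lit 4) (C.cons (nat_lit 30) (C.miq (nat_lit 964837457) (nat_lit 933291286295972261575131187)) (C.cons (nat_lit 22) (C.node (nat_lit 1) (nat_lit 2) (nat_lit 3) (C.cons (nat_lit 14) (C.node (nat_lit 1) (nat_lit 2) (nat_lit 9) C.nil) C.nil)) C.nil))) (C.cons (nat_lit 82) (C.node (nat_lit 1) (nat_lit 6) (nat_lit 9) (C.cons (nat_lit 578) (C.node (nat_lit 4) (nat_lit 6) (nat_lit 9) (C.cons (nat_lit 592) (C.node (nat_lit 2) (nat_lit 6) (nat_lit 9) (C.cons (nat_lit 588) (C.node (nat_lit 1) (nat_lit 2) (nat_lit 3) C.nil) C.nil)) C.nil))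 C.nil)) C.nil))) C.nil))) C.nil))) C.nil))) C.nil)) C.nil)) C.nil))) C.nil))) C.nil)) (C.cons (nat_lit 292) (C.node (nat_lit 1) (nat_lit 2) (nat_lit 5) (C.cons (nat_lit 550) (C.node (nat_lit 3) (nat_lit 5) (nat_lit 9) (C.cons (nat_lit 552) (C.node (nat_lit 1) (nat_lit 2) (nat_lit 4) (C.cons (nat_lit 30) (C.node (nat_lit 1) (nat_lit 2) (nat_lit 6) (C.cons (nat_lit 326) (C.miq (nat_lit 2552497683) (nat_lit 334882358214325915457814603)) (C.cons (nat_lit 70) (C.node (nat_lit 1) (nat_lit 2) (nat_lit 8) (C.cons (nat_lit 262) (C.node (nat_lit 1) (nat_lit 6) (nat_lit 8) (C.cons (nat_lit 338) (C.miq (nat_lit 2217042224) (nat_lit 140253712787300848830840907)) (C.cons (nat_lit 322) (C.node (nat_lit 1) (nat_lit 4) (nat_lit 6) (C.cons (nat_lit 594) (C.miq (nat_lit 2485477680) (nat_lit 140253712859358442868768843)) (C.cons (nat_lit 82) (C.node (nat_lit 1) (nat_lit 6) (nat_lit 9) (C.cons (nat_lit 578) (C.node (nat_lit 4) (nat_lit 6) (nat_lit 9) (C.cons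 (nat_lit 592) (C.node (nat_lit 2) (nat_lit 4) (nat_lit 7) (C.cons (nat_lit 660) (C.miq (nat_lit 1766000417) (nat_lit 649194548918368881587650695)) (C.cons (nat_lit 148) (C.node (nat_lit 2) (nat_lit 4) (nat_lit 9) (C.cons (nat_lit 532) (C.node (nat_lit 2) (nat_lit 6) (nat_lit 7) (C.cons (nat_lit 204) (C.miq (nat_lit 1917149968) (nat_lit 140253712749583201952006219)) (C.cons (nat_lit 196) (C.node (nat_lit 2) (nat_lit 6) (nat_lit 8) (C.cons (nat_lit 332) (C.miq (nat_lit 2185585424) (nat_lit 140253712785611998970970187)) C.nil)) C.nil))) C.nil)) C.nil))) C.nil)) C.nil)) C.nil))) C.nil))) C.nil)) C.nil))) (C.cons (nat_lit 22) (C.node (nat_lit 1) (nat_lit 2) (nat_lit 3) (C.cons (nat_lit 270) (C.node (nat_lit 1) (nat_lit 2) (nat_lit 6) (C.cons (nat_lit 70) (C.node (nat_lit 1) (nat_lit 3) (nat_lit 5) (C.cons (nat_lit 42) (C.node (nat_lit 1) (nat_lit 5) (nat_lit 8) (C.cons (nat_lit 290) (C.node (nat_lit 2) (nat_lit 6) (nat_lit 8) (C.cons (nat_lit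 324) (C.node (nat_lit 2) (nat_lit 7) (nat_lit 8) (C.cons (nat_lit 388) (C.node (nat_lit 2) (nat_lit 8) (nat_lit 9) (C.cons (nat_lit 772) (C.node (nat_lit 3) (nat_lit 8) (nat_lit 9)
  (C.cons (nat_lit 776) (C.node (nat_lit 1) (nat_lit 3) (nat_lit 4) (C.cons (nat_lit 154) (C.node (nat_lit 1) (nat_lit 3) (nat_lit 9) C.nil) C.nil)) C.nil)) C.nil)) C.nil)) C.nil)) C.nil)) C.nil)) C.nil)) (C.cons (nat_lit 14) (C.node (nat_lit 1) (nat_lit 2) (nat_lit 6) (C.cons (nat_lit 326) (C.node (nat_lit 1) (nat_lit 3) (nat_lit 5) (C.cons (nat_lit 298) (C.node (nat_lit 4) (nat_lit 5) (nat_lit 8) (C.cons (nat_lit 304) (C.node (nat_lit 1) (nat_lit 3) (nat_lit 4) (C.cons (nat_lit 154) (C.node (nat_lit 1) (nat_lit 3) (nat_lit 9) (C.cons (nat_lit 522) (C.node (nat_lit 1) (nat_lit 7) (nat_lit 8) (C.cons (nat_lit 386) (C.node (nat_lit 1) (nat_lit 7) (nat_lit 9) (C.cons (nat_lit 642) (C.node (nat_lit 3) (nat_lit 4) (nat_lit 5) C.nil) C.nil)) C.nil)) C.nil)) (C.cons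 (nat_lit 26) (C.node (nat_lit 1) (nat_lit 3) (nat_lit 7) (C.cons (nat_lit 650) (C.node (nat_lit 4) (nat_lit 6) (nat_lit 7) (C.cons (nat_lit 216) (C.miq (nat_lit 557078902) (nat_lit 31434211287106937784108001)) (C.cons (nat_lit 208) (C.node (nat_lit 1) (nat_lit 4) (nat_lit 6) (C.cons (nat_lit 594) (C.node (nat_lit 1) (nat_lit 8) (nat_lit 9) (C.cons (nat_lit 770) (C.node (nat_lit 4) (nat_lit 8) (nat_lit 9) (C.cons (nat_lit 784) (C.node (nat_lit 2) (nat_lit 6) (nat_lit 9) (C.cons (nat_lit 588) (C.miq (nat_lit 692401680) (nat_lit 676999289253185492285063243)) (C.cons (nat_lit 580) (C.node (nat_lit 3) (nat_lit 6) (nat_lit 9) (C.cons (nat_lit 584) (C.node (nat_lit 1) (nat_lit 4) (nat_lit 7) (C.cons (nat_lit 402) (C.node (nat_lit 2) (nat_lit 4) (nat_lit 9) C.nil) (C.cons (nat_lit 146) (C.node (nat_lit 1) (nat_lit 4) (nat_lit 8) C.nil) C.nil))) C.nil)) C.nil))) C.nil)) C.nil)) (C.cons (nat_lit 82) (C.node (nat_lit 1) (nat_lit 6) (nat_lit 9) (C.cons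 (nat_lit 578) (C.node (nat_lit 4) (nat_lit 6) (nat_lit 9) C.nil) C.nil)) C.nil))) C.nil))) (C.cons (nat_lit 138) (C.node (nat_lit 1) (nat_lit 3) (nat_lit 9) (C.cons (nat_lit 522) (C.node (nat_lit 3) (nat_lit 4) (nat_lit 5) (C.cons (nat_lit 184) (C.node (nat_lit 2) (nat_lit 3) (nat_lit 4) (C.cons (nat_lit 28) (C.node (nat_lit 3) (nat_lit 6) (nat_lit 7) C.nil) C.nil)) C.nil)) C.nil)) C.nil))) C.nil))) C.nil)) (C.cons (nat_lit 42) (C.node (nat_lit 1) (nat_lit 5) (nat_lit 8) (C.cons (nat_lit 290) (C.node (nat_lit 1) (nat_lit 4) (nat_lit 6) (C.cons (nat_lit 594) (C.node (nat_lit 4) (nat_lit 8) (nat_lit 9) (C.cons (nat_lit 784) (C.node (nat_lit 1) (nat_lit 7) (nat_lit 9) (C.cons (nat_lit 650) (C.node (nat_lit 1) (nat_lit 8) (nat_lit 9) C.nil) C.nil)) C.nil)) (C.cons (nat_lit 82) (C.node (nat_lit 1) (nat_lit 6) (nat_lit 9) (C.cons (nat_lit 578) (C.node (nat_lit 1) (nat_lit 3) (nat_lit 9) C.nil) C.nil)) C.nil))) C.nil)) C.nil))) (C.cons (nat_lit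 70) (C.node (nat_lit 1) (nat_lit 2) (nat_lit 8) (C.cons (nat_lit 262) (C.node (nat_lit 1) (nat_lit 3) (nat_lit 5) (C.cons (nat_lit 298) (C.node (nat_lit 4) (nat_lit 5) (nat_lit 8) (C.cons (nat_lit 304) (C.node (nat_lit 1) (nat_lit 3) (nat_lit 4) (C.cons (nat_lit 154) (C.node (nat_lit 1) (nat_lit 3) (nat_lit 9) (C.cons (nat_lit 522) (C.node (nat_lit 3) (nat_lit 4) (nat_lit 5) C.nil) C.nil)) (C.cons (nat_lit 26) (C.node (nat_lit 1) (nat_lit 3) (nat_lit 7) (C.cons (nat_lit 650) (C.node (nat_lit 3) (nat_lit 4) (nat_lit 5) (C.cons (nat_lit 184) (C.node (nat_lit 3) (nat_lit 2) (nat_lit 4) (C.cons (nat_lit 28) (C.node (nat_lit 2) (nat_lit 7) (nat_lit 6) C.nil) C.nil)) C.nil)) (C.cons (nat_lit 138) (C.node (nat_lit 1) (nat_lit 3) (nat_lit 9) (C.cons (nat_lit 522) (C.node (nat_lit 1) (nat_lit 6) (nat_lit 8) (C.cons (nat_lit 338) (C.node (nat_lit 1) (nat_lit 6) (nat_lit 9) C.nil) C.nil)) C.nil)) C.nil))) C.nil))) C.nil)) (C.cons (nat_lit 42) (C.node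 (nat_lit 1) (nat_lit 5) (nat_lit 8) (C.cons (nat_lit 290) (C.node (nat_lit 1) (nat_lit 6) (nat_lit 8) (C.cons (nat_lit 338) (C.node (nat_lit 1) (nat_lit 6) (nat_lit 9) C.nil) (C.cons (nat_lit 322) (C.node (nat_lit 1) (nat_lit 4) (nat_lit 6) C.nil) C.nil))) C.nil)) C.nil))) C.nil)) C.nil))) C.nil))) C.nil))) C.nil)) (C.cons (nat_lit 38)
  (C.node (nat_lit 2) (nat_lit 5) (nat_lit 9) (C.cons (nat_lit 548) (C.node (nat_lit 1) (nat_lit 5) (nat_lit 8) (C.cons (nat_lit 298) (C.node (nat_lit 1) (nat_lit 5) (nat_lit 9) (C.cons (nat_lit 546) (C.node (nat_lit 3) (nat_lit 5) (nat_lit 9) (C.cons (nat_lit 552) (C.node (nat_lit 4) (nat_lit 5) (nat_lit 8) (C.cons (nat_lit 304) (C.node (nat_lit 1) (nat_lit 7) (nat_lit 8) (C.cons (nat_lit 402) (C.node (nat_lit 4) (nat_lit 8) (nat_lit 9) (C.cons (nat_lit 784) (C.node (nat_lit 1) (nat_lit 3) (nat_lit 4) (C.cons (nat_lit 30) (C.miq (nat_lit 897851505) (nat_lit 367514002577840119278076039)) (C.cons (nat_lit 26)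 (C.node (nat_lit 2) (nat_lit 7) (nat_lit 8) (C.cons (nat_lit 396) (C.miq (nat_lit 944056080) (nat_lit 367514279377796403398115463)) (C.cons (nat_lit 388) (C.node (nat_lit 3) (nat_lit 7) (nat_lit 8) (C.cons (nat_lit 392) (C.node (nat_lit 1) (nat_lit 2) (nat_lit 3) (C.cons (nat_lit 526) (C.node (nat_lit 1) (nat_lit 2) (nat_lit 4) (C.cons (nat_lit 22) (C.node (nat_lit 1) (nat_lit 3) (nat_lit 7) C.nil) C.nil)) (C.cons (nat_lit 14) (C.node (nat_lit 1) (nat_lit 2) (nat_lit 4) (C.cons (nat_lit 534) (C.node (nat_lit 1) (nat_lit 4) (nat_lit 6) C.nil) (C.cons (nat_lit 22) (C.node (nat_lit 1) (nat_lit 2) (nat_lit 6) C.nil) C.nil))) C.nil))) C.nil)) C.nil))) C.nil))) C.nil)) (C.cons (nat_lit 386) (C.node (nat_lit 2) (nat_lit 6) (nat_lit 7) (C.cons (nat_lit 204) (C.node (nat_lit 2) (nat_lit 7) (nat_lit 8) (C.cons (nat_lit 388) (C.node (nat_lit 3) (nat_lit 6) (nat_lit 9) (C.cons (nat_lit 584) (C.node (nat_lit 4) (nat_lit 6) (nat_lit 7) (C.cons (nat_lit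 208) (C.node (nat_lit 2) (nat_lit 3) (nat_lit 4) (C.cons (nat_lit 30) (C.miq (nat_lit 1917149968) (nat_lit 140253712749583201952006219)) (C.cons (nat_lit 28) (C.node (nat_lit 1) (nat_lit 2) (nat_lit 3) (C.cons (nat_lit 526) (C.node (nat_lit 1) (nat_lit 2) (nat_lit 4) (C.cons (nat_lit 22) (C.node (nat_lit 2) (nat_lit 3) (nat_lit 8) C.nil) C.nil)) (C.cons (nat_lit 14) (C.node (nat_lit 1) (nat_lit 2) (nat_lit 4) (C.cons (nat_lit 534) (C.node (nat_lit 1) (nat_lit 6) (nat_lit 9) C.nil) C.nil)) C.nil))) C.nil))) C.nil)) C.nil)) C.nil)) (C.cons (nat_lit 196) (C.node (nat_lit 2) (nat_lit 7) (nat_lit 8) (C.cons (nat_lit 396) (C.node (nat_lit 3) (nat_lit 8) (nat_lit 9) (C.cons (nat_lit 776) (C.node (nat_lit 4) (nat_lit 7) (nat_lit 8) (C.cons (nat_lit 400) (C.node (nat_lit 2) (nat_lit 3) (nat_lit 4) (C.cons (nat_lit 30) (C.miq (nat_lit 1166217330) (nat_lit 360260447661841194089709703)) (C.cons (nat_lit 28) (C.node (nat_lit 1) (nat_lit 2) (nat_lit 3)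 (C.cons (nat_lit 526) (C.node (nat_lit 1) (nat_lit 2) (nat_lit 4) (C.cons (nat_lit 22) (C.node (nat_lit 2) (nat_lit 3) (nat_lit 6) C.nil) C.nil)) (C.cons (nat_lit 14) (C.node (nat_lit 1) (nat_lit 2) (nat_lit 4) (C.cons (nat_lit 534) (C.node (nat_lit 1) (nat_lit 6) (nat_lit 9) C.nil) C.nil)) C.nil))) C.nil))) C.nil)) C.nil)) (C.cons (nat_lit 388) (C.node (nat_lit 3) (nat_lit 4) (nat_lit 5) (C.cons (nat_lit 184) (C.node (nat_lit 3) (nat_lit 6) (nat_lit 7) (C.cons (nat_lit 200) (C.node (nat_lit 3) (nat_lit 7) (nat_lit 8) (C.cons (nat_lit 392) (C.node (nat_lit 4) (nat_lit 6) (nat_lit 7) (C.cons (nat_lit 208) (C.node (nat_lit 4) (nat_lit 7) (nat_lit 8) (C.cons (nat_lit 400) (C.node (nat_lit 1) (nat_lit 3) (nat_lit 7) C.nil) C.nil)) C.nil)) C.nil)) C.nil)) (C.cons (nat_lit 56) (C.node (nat_lit 3) (nat_lit 5) (nat_lit 7) (C.cons (nat_lit 168) (C.node (nat_lit 4) (nat_lit 5) (nat_lit 7) (C.cons (nat_lit 176) (C.node (nat_lit 3) (nat_lit 6) (nat_lit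 7) (C.cons (nat_lit 216) (C.node (nat_lit 3) (nat_lit 4) (nat_lit 8) (C.cons (nat_lit 280) (C.node (nat_lit 3) (nat_lit 7) (nat_lit 8) (C.cons (nat_lit 392) (C.node (nat_lit 4) (nat_lit 7) (nat_lit 8) C.nil) C.nil)) C.nil)) (C.cons (nat_lit 200) (C.node (nat_lit 4) (nat_lit 6) (nat_lit 7) C.nil) C.nil))) C.nil)) C.nil)) C.nil))) C.nil))) C.nil))) C.nil))) C.nil)) C.nil)) C.nil)) (C.cons (nat_lit 290) (C.node (nat_lit 1) (nat_lit 3) (nat_lit 5) (C.cons (nat_lit 554) (C.node (nat_lit 4) (nat_lit 8) (nat_lit 9)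
  (C.cons (nat_lit 786) (C.miq (nat_lit 2169653552) (nat_lit 45944291114706037294039577)) (C.cons (nat_lit 784) (C.node (nat_lit 3) (nat_lit 8) (nat_lit 9) (C.cons (nat_lit 780) (C.miq (nat_lit 428102432) (nat_lit 947798783517757519347122221)) (C.cons (nat_lit 776) (C.node (nat_lit 1) (nat_lit 7) (nat_lit 9) (C.cons (nat_lit 658) (C.node (nat_lit 2) (nat_lit 4) (nat_lit 9) (C.cons (nat_lit 532) (C.node (nat_lit 4) (nat_lit 6) (nat_lit 9) (C.cons (nat_lit 592) (C.node (nat_lit 1) (nat_lit 2) (nat_lit 4) (C.cons (nat_lit 30) (C.miq (nat_lit 680738897) (nat_lit 938126989501247284346224691)) (C.cons (nat_lit 22) (C.node (nat_lit 2) (nat_lit 7) (nat_lit 9) (C.cons (nat_lit 652) (C.miq (nat_lit 960833296) (nat_lit 676999289271200165672452231)) (C.cons (nat_lit 644) (C.node (nat_lit 3) (nat_lit 7) (nat_lit 9) (C.cons (nat_lit 648) (C.node (nat_lit 1) (nat_lit 2) (nat_lit 3) (C.cons (nat_lit 270) (C.node (nat_lit 1) (nat_lit 3) (nat_lit 4) C.nil)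 C.nil)) C.nil)) C.nil))) C.nil))) C.nil)) C.nil)) (C.cons (nat_lit 642) (C.node (nat_lit 1) (nat_lit 8) (nat_lit 9) (C.cons (nat_lit 774) (C.node (nat_lit 1) (nat_lit 2) (nat_lit 6) (C.cons (nat_lit 70) (C.node (nat_lit 1) (nat_lit 2) (nat_lit 3) (C.cons (nat_lit 30) (C.miq (nat_lit 680738897) (nat_lit 938126989501247284346224691)) (C.cons (nat_lit 14) (C.node (nat_lit 1) (nat_lit 2) (nat_lit 4) (C.cons (nat_lit 22) (C.node (nat_lit 1) (nat_lit 4) (nat_lit 9) C.nil) C.nil)) C.nil))) C.nil)) (C.cons (nat_lit 770) (C.node (nat_lit 2) (nat_lit 8) (nat_lit 9) (C.cons (nat_lit 772) (C.node (nat_lit 2) (nat_lit 6) (nat_lit 7) (C.cons (nat_lit 204) (C.node (nat_lit 2) (nat_lit 3) (nat_lit 9) (C.cons (nat_lit 524) (C.node (nat_lit 2) (nat_lit 7) (nat_lit 8) (C.cons (nat_lit 388) (C.node (nat_lit 2) (nat_lit 6) (nat_lit 9) C.nil) C.nil)) C.nil)) (C.cons (nat_lit 196) (C.node (nat_lit 2) (nat_lit 7) (nat_lit 8) (C.cons (nat_lit 396) (C.node (nat_lit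 3) (nat_lit 7) (nat_lit 9) (C.cons (nat_lit 648) (C.node (nat_lit 1) (nat_lit 2) (nat_lit 3) (C.cons (nat_lit 30) (C.miq (nat_lit 2468892992) (nat_lit 478752942340195612733276211)) (C.cons (nat_lit 14) (C.node (nat_lit 2) (nat_lit 3) (nat_lit 4) C.nil) C.nil))) C.nil)) (C.cons (nat_lit 388) (C.node (nat_lit 1) (nat_lit 2) (nat_lit 3) (C.cons (nat_lit 270) (C.node (nat_lit 1) (nat_lit 2) (nat_lit 4) C.nil) (C.cons (nat_lit 30) (C.miq (nat_lit 680738897) (nat_lit 938126989501247284346224691)) C.nil))) C.nil))) C.nil))) C.nil)) C.nil))) C.nil))) C.nil))) C.nil))) (C.cons (nat_lit 42) (C.node (nat_lit 1) (nat_lit 5) (nat_lit 9) (C.cons (nat_lit 546) (C.node (nat_lit 3) (nat_lit 5) (nat_lit 9) (C.cons (nat_lit 552) (C.node (nat_lit 2) (nat_lit 6) (nat_lit 7) (C.cons (nat_lit 204) (C.node (nat_lit 2) (nat_lit 7) (nat_lit 8) (C.cons (nat_lit 388) (C.node (nat_lit 3) (nat_lit 6) (nat_lit 9) (C.cons (nat_lit 584) (C.node (nat_lit 4) (nat_lit 6) (nat_lit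 7) (C.cons (nat_lit 208) (C.node (nat_lit 2) (nat_lit 3) (nat_lit 4) (C.cons (nat_lit 30) (C.miq (nat_lit 1917149968) (nat_lit 140253712749583201952006219)) (C.cons (nat_lit 28) (C.node (nat_lit 1) (nat_lit 2) (nat_lit 4) (C.cons (nat_lit 534) (C.node (nat_lit 1) (nat_lit 6) (nat_lit 9) C.nil) C.nil)) C.nil))) C.nil)) C.nil)) C.nil)) (C.cons (nat_lit 196) (C.node (nat_lit 2) (nat_lit 7) (nat_lit 8) (C.cons (nat_lit 396) (C.node (nat_lit 1) (nat_lit 7) (nat_lit 8) (C.cons (nat_lit 402) (C.miq (nat_lit 890708040) (nat_lit 195853287700889708306497813)) (C.cons (nat_lit 386) (C.node (nat_lit 4) (nat_lit 7) (nat_lit 8) (C.cons (nat_lit 400) (C.node (nat_lit 2) (nat_lit 3) (nat_lit 4) (C.cons (nat_lit 28) (C.node (nat_lit 1) (nat_lit 2) (nat_lit 3) C.nil) C.nil)) C.nil)) C.nil))) (C.cons (nat_lit 388) (C.node (nat_lit 3) (nat_lit 5) (nat_lit 7) (C.cons (nat_lit 184) (C.node (nat_lit 3) (nat_lit 5) (nat_lit 8) (C.cons (nat_lit 296) (C.node (nat_lit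 3) (nat_lit 6) (nat_lit 7) (C.cons (nat_lit 200) (C.node (nat_lit 4) (nat_lit 5) (nat_lit 8) (C.cons (nat_lit 304) (C.node (nat_lit 4) (nat_lit 6) (nat_lit 7)
  (C.cons (nat_lit 208) (C.node (nat_lit 3) (nat_lit 7) (nat_lit 8) (C.cons (nat_lit 392) (C.node (nat_lit 1) (nat_lit 3) (nat_lit 7) C.nil) C.nil)) C.nil)) C.nil)) C.nil)) C.nil)) (C.cons (nat_lit 168) (C.node (nat_lit 4) (nat_lit 5) (nat_lit 7) (C.cons (nat_lit 176) (C.node (nat_lit 3) (nat_lit 4) (nat_lit 5) (C.cons (nat_lit 312) (C.node (nat_lit 4) (nat_lit 7) (nat_lit 8) (C.cons (nat_lit 402) (C.miq (nat_lit 947016720) (nat_lit 469064048201781356035244083)) (C.cons (nat_lit 400) (C.node (nat_lit 1) (nat_lit 7) (nat_lit 8) (C.cons (nat_lit 394) (C.node (nat_lit 1) (nat_lit 4) (nat_lit 7) C.nil) C.nil)) C.nil))) C.nil)) C.nil)) C.nil))) C.nil))) C.nil))) C.nil)) C.nil)) C.nil))) C.nil))) C.nil)) C.nil))) C.nil))) C.nil)) C.nil)) C.nil)) (C.cons (nat_lit 100) (C.ref (nat_lit 5) (nat_lit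 654820258320)) C.nil))) C.nil))) List.nil)

theorem ok10_6 : okL par10 (nat_lit 7) c10_6 (nat_lit 6) = true := by decide +kernel

noncomputable def c10_7 : List C :=
  (List.cons (C.node (nat_lit 1) (nat_lit 5) (nat_lit 6) (C.cons (nat_lit 102) (C.node (nat_lit 2) (nat_lit 5) (nat_lit 8) (C.cons (nat_lit 292) (C.node (nat_lit 1) (nat_lit 5) (nat_lit 7) (C.cons (nat_lit 170) (C.node (nat_lit 1) (nat_lit 5) (nat_lit 8) (C.cons (nat_lit 290) (C.node (nat_lit 1) (nat_lit 5) (nat_lit 9) (C.cons (nat_lit 546) (C.node (nat_lit 3) (nat_lit 5) (nat_lit 9) (C.cons (nat_lit 552) (C.node (nat_lit 1) (nat_lit 6) (nat_lit 7) (C.cons (nat_lit 210) (C.node (nat_lit 1) (nat_lit 6) (nat_lit 8) (C.cons (nat_lit 322) (C.node (nat_lit 1) (nat_lit 6) (nat_lit 9) (C.cons (nat_lit 578) (C.node (nat_lit 1) (nat_lit 7) (nat_lit 8) (C.cons (nat_lit 386) (C.node (nat_lit 1) (nat_lit 7) (nat_lit 9) (C.cons (nat_lit 642) (C.node (nat_lit 2) (nat_lit 5) (nat_lit 7) (C.cons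 (nat_lit 180) (C.miq (nat_lit 1107719473) (nat_lit 83419755420330581146927274)) (C.cons (nat_lit 164) (C.node (nat_lit 4) (nat_lit 5) (nat_lit 7) (C.cons (nat_lit 176) (C.node (nat_lit 2) (nat_lit 6) (nat_lit 7) (C.cons (nat_lit 204) (C.miq (nat_lit 658847248) (nat_lit 212771774413079848873558091)) (C.cons (nat_lit 196) (C.node (nat_lit 3) (nat_lit 6) (nat_lit 7) (C.cons (nat_lit 200) (C.node (nat_lit 2) (nat_lit 7) (nat_lit 8) (C.cons (nat_lit 396) (C.miq (nat_lit 1098384690) (nat_lit 466650476133711232965017645)) (C.cons (nat_lit 388) (C.node (nat_lit 3) (nat_lit 5) (nat_lit 6) (C.cons (nat_lit 120) (C.miq (nat_lit 913462288) (nat_lit 236950290781728534329491507)) (C.cons (nat_lit 104) (C.node (nat_lit 4) (nat_lit 5) (nat_lit 6) (C.cons (nat_lit 112) (C.node (nat_lit 3) (nat_lit 4) (nat_lit 5) (C.cons (nat_lit 312) (C.miq (nat_lit 925389060) (nat_lit 469068973442478443045650483)) (C.cons (nat_lit 56) (C.node (nat_lit 3) (nat_lit 5) (nat_lit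 8) (C.cons (nat_lit 296) (C.node (nat_lit 4) (nat_lit 5) (nat_lit 8) (C.cons (nat_lit 304) (C.node (nat_lit 3) (nat_lit 6) (nat_lit 9) (C.cons (nat_lit 588) (C.miq (nat_lit 1097401635) (nat_lit 698769029653178906946830381)) (C.cons (nat_lit 584) (C.node (nat_lit 1) (nat_lit 2) (nat_lit 4) C.nil) C.nil))) C.nil)) C.nil)) C.nil))) C.nil)) C.nil))) C.nil))) C.nil)) C.nil))) C.nil)) C.nil))) C.nil)) C.nil)) C.nil)) C.nil)) (C.cons (nat_lit 194) (C.node (nat_lit 1) (nat_lit 6) (nat_lit 8) (C.cons (nat_lit 338) (C.node (nat_lit 1) (nat_lit 6) (nat_lit 9) (C.cons (nat_lit 578) (C.node (nat_lit 1) (nat_lit 7) (nat_lit 8) (C.cons (nat_lit 386) (C.node (nat_lit 4) (nat_lit 8) (nat_lit 9) (C.cons (nat_lit 784) (C.node (nat_lit 1) (nat_lit 3) (nat_lit 4) (C.cons (nat_lit 30) (C.miq (nat_lit 1900565280) (nat_lit 408635244694460729543426093)) (C.cons (nat_lit 26) (C.node (nat_lit 2) (nat_lit 5) (nat_lit 9) (C.cons (nat_lit 564) (C.miq (nat_lit 557078025)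 (nat_lit 31442475302348700511699937)) (C.cons (nat_lit 548) (C.node (nat_lit 4) (nat_lit 5) (nat_lit 9) (C.cons (nat_lit 560) (C.node (nat_lit 2) (nat_lit 6) (nat_lit 8) (C.cons (nat_lit 332) (C.miq (nat_lit 1384383329) (nat_lit 334873392829867840484016203)) (C.cons (nat_lit 324) (C.node (nat_lit 3) (nat_lit 6) (nat_lit 8) (C.cons (nat_lit 328) (C.node (nat_lit 2) (nat_lit 7) (nat_lit 8) (C.cons (nat_lit 396) (C.miq (nat_lit 588547920) (nat_lit 31437181169553597013361633)) (C.cons (nat_lit 388) (C.node (nat_lit 3) (nat_lit 5) (nat_lit 8) (C.cons (nat_lit 312) (C.miq (nat_lit 607193175) (nat_lit 31434561698400217921618913)) (C.cons (nat_lit 296) (C.node (nat_lit 4) (nat_lit 5) (nat_lit 8) (C.cons (nat_lit 304) (C.node (nat_lit 3) (nat_lit 6) (nat_lit 9) (C.cons (nat_lit 588) (C.miq (nat_lit 558064905) (nat_lit 31442918024206366461723617)) (C.cons (nat_lit 584) (C.node (nat_lit 1) (nat_lit 2) (nat_lit 4) (C.cons (nat_lit 534) (C.node (nat_lit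 1) (nat_lit 4) (nat_lit 7) (C.cons (nat_lit 146) (C.node (nat_lit 1) (nat_lit 7) (nat_lit 9) C.nil) C.nil)) (C.cons (nat_lit 22) (C.node (nat_lit 1) (nat_lit 4) (nat_lit 7) (C.cons (nat_lit 658) (C.node (nat_lit 2) (nat_lit 7) (nat_lit 9) (C.cons (nat_lit 652) (C.miq (nat_lit 960833296) (nat_lit 676999289271200165672452231))
  (C.cons (nat_lit 644) (C.node (nat_lit 3) (nat_lit 7) (nat_lit 9) (C.cons (nat_lit 648) (C.node (nat_lit 2) (nat_lit 4) (nat_lit 5) (C.cons (nat_lit 180) (C.node (nat_lit 2) (nat_lit 3) (nat_lit 4) C.nil) C.nil)) C.nil)) C.nil))) (C.cons (nat_lit 146) (C.node (nat_lit 1) (nat_lit 4) (nat_lit 9) C.nil) C.nil))) C.nil))) C.nil))) C.nil)) C.nil))) C.nil))) C.nil)) C.nil))) C.nil)) C.nil))) C.nil))) C.nil)) C.nil)) C.nil)) (C.cons (nat_lit 322) (C.node (nat_lit 1) (nat_lit 4) (nat_lit 6) (C.cons (nat_lit 594) (C.node (nat_lit 1) (nat_lit 7) (nat_lit 9) (C.cons (nat_lit 642) (C.node (nat_lit 4) (nat_lit 8) (nat_lit 9) (C.cons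 (nat_lit 784) (C.node (nat_lit 1) (nat_lit 2) (nat_lit 4) (C.cons (nat_lit 30) (C.node (nat_lit 1) (nat_lit 4) (nat_lit 7) (C.cons (nat_lit 402) (C.node (nat_lit 2) (nat_lit 5) (nat_lit 7) (C.cons (nat_lit 180) (C.miq (nat_lit 1947619888) (nat_lit 718120254518620548022075437)) (C.cons (nat_lit 164) (C.node (nat_lit 4) (nat_lit 5) (nat_lit 7) (C.cons (nat_lit 176) (C.node (nat_lit 2) (nat_lit 4) (nat_lit 5) (C.cons (nat_lit 564) (C.node (nat_lit 4) (nat_lit 7) (nat_lit 9) (C.cons (nat_lit 656) (C.node (nat_lit 2) (nat_lit 6) (nat_lit 8) (C.cons (nat_lit 332) (C.miq (nat_lit 2519875845) (nat_lit 401373776242910916481187891)) (C.cons (nat_lit 324) (C.node (nat_lit 2) (nat_lit 6) (nat_lit 9) (C.cons (nat_lit 588) (C.node (nat_lit 2) (nat_lit 7) (nat_lit 9) (C.cons (nat_lit 644) (C.node (nat_lit 3) (nat_lit 7) (nat_lit 9) C.nil) C.nil)) (C.cons (nat_lit 580) (C.miq (nat_lit 848692545) (nat_lit 701178358894959245898416179)) C.nil))) C.nil))) C.nil))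 (C.cons (nat_lit 52) (C.miq (nat_lit 2485477680) (nat_lit 62882460404022175687573579)) C.nil))) C.nil)) C.nil))) (C.cons (nat_lit 146) (C.miq (nat_lit 2266236210) (nat_lit 176508279691349659072987181)) C.nil))) (C.cons (nat_lit 22) (C.miq (nat_lit 873597285) (nat_lit 26597198286159772484240353)) C.nil))) C.nil)) C.nil)) (C.cons (nat_lit 82) (C.node (nat_lit 1) (nat_lit 6) (nat_lit 9) (C.cons (nat_lit 578) (C.node (nat_lit 3) (nat_lit 6) (nat_lit 9) (C.cons (nat_lit 588) (C.miq (nat_lit 1097401635) (nat_lit 698769029653178906946830381)) (C.cons (nat_lit 584) (C.node (nat_lit 2) (nat_lit 5) (nat_lit 9) (C.cons (nat_lit 564) (C.miq (nat_lit 641290500) (nat_lit 706023082647311779997745203)) (C.cons (nat_lit 548) (C.node (nat_lit 4) (nat_lit 5) (nat_lit 9) (C.cons (nat_lit 560) (C.node (nat_lit 1) (nat_lit 7) (nat_lit 8) (C.cons (nat_lit 402) (C.node (nat_lit 1) (nat_lit 3) (nat_lit 4) (C.cons (nat_lit 30) (C.miq (nat_lit 597038085) (nat_lit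 706014560231285512166506547)) (C.cons (nat_lit 26) (C.miq (nat_lit 605227125) (nat_lit 31432901491433970609030113)) C.nil))) (C.cons (nat_lit 386) (C.node (nat_lit 2) (nat_lit 7) (nat_lit 8) (C.cons (nat_lit 396) (C.miq (nat_lit 1098384690) (nat_lit 466650476133711232965017645)) (C.cons (nat_lit 388) (C.node (nat_lit 3) (nat_lit 5) (nat_lit 8) (C.cons (nat_lit 312) (C.miq (nat_lit 925389060) (nat_lit 469068973442478443045650483)) (C.cons (nat_lit 296) (C.node (nat_lit 4) (nat_lit 5) (nat_lit 8) (C.cons (nat_lit 304) (C.node (nat_lit 1) (nat_lit 4) (nat_lit 7) (C.cons (nat_lit 658) (C.node (nat_lit 4) (nat_lit 8) (nat_lit 9) (C.cons (nat_lit 784) (C.node (nat_lit 1) (nat_lit 2) (nat_lit 4) (C.cons (nat_lit 30) (C.miq (nat_lit 847713285) (nat_lit 469066353965414089482108979)) (C.cons (nat_lit 22) (C.node (nat_lit 2) (nat_lit 4) (nat_lit 5) (C.cons (nat_lit 180) (C.node (nat_lit 3) (nat_lit 4) (nat_lit 5) (C.cons (nat_lit 120) (C.miq (nat_lit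 824467573) (nat_lit 26598581661921890075411425)) C.nil)) C.nil)) C.nil))) C.nil)) (C.cons (nat_lit 146) (C.node (nat_lit 1) (nat_lit 7) (nat_lit 9) (C.cons (nat_lit 642) (C.node (nat_lit 2) (nat_lit 4) (nat_lit 5) (C.cons (nat_lit 180) (C.node (nat_lit 4) (nat_lit 7) (nat_lit 9) (C.cons (nat_lit 656) (C.node (nat_lit 2) (nat_lit 6) (nat_lit 7) (C.cons (nat_lit 204) (C.miq (nat_lit 1197560368) (nat_lit 234532549839852191066292269)) (C.cons (nat_lit 196) (C.node (nat_lit 3) (nat_lit 4) (nat_lit 5)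
  (C.cons (nat_lit 120) (C.miq (nat_lit 1685140768) (nat_lit 176504553203319158031712301)) (C.cons (nat_lit 56) (C.node (nat_lit 4) (nat_lit 5) (nat_lit 6) C.nil) C.nil))) C.nil))) C.nil)) (C.cons (nat_lit 52) (C.node (nat_lit 1) (nat_lit 2) (nat_lit 4) C.nil) C.nil))) C.nil)) C.nil))) C.nil)) C.nil))) C.nil))) C.nil))) C.nil)) C.nil))) C.nil))) C.nil)) C.nil))) C.nil))) C.nil))) C.nil)) C.nil)) C.nil)) (C.cons (nat_lit 162) (C.ref (nat_lit 4) (nat_lit 654820258320)) C.nil))) C.nil)) (C.cons (nat_lit 98) (C.node (nat_lit 1) (nat_lit 5) (nat_lit 7) (C.cons (nat_lit 170) (C.node (nat_lit 3) (nat_lit 5) (nat_lit 9) (C.cons (nat_lit 552) (C.ref (nat_lit 4) (nat_lit 590144086800)) C.nil)) (C.cons (nat_lit 162) (C.ref (nat_lit 6) (nat_lit 654820258320)) C.nil))) C.nil))) (List.cons (C.node (nat_lit 0) (nat_lit 3) (nat_lit 4) (C.cons (nat_lit 537) (C.qs (C.cons (nat_lit 596) (C.ref (nat_lit 7) (nat_lit 654820258320)) (C.cons (nat_lit 394) (C.ref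 (nat_lit 7) (nat_lit 654820258320)) C.nil))) C.nil)) (List.cons (C.node (nat_lit 0) (nat_lit 3) (nat_lit 7) (C.cons (nat_lit 153) (C.node (nat_lit 0) (nat_lit 3) (nat_lit 9) (C.cons (nat_lit 521) (C.node (nat_lit 0) (nat_lit 4) (nat_lit 9) (C.cons (nat_lit 529) (C.ref (nat_lit 3) (nat_lit 654568596240)) C.nil)) C.nil)) (C.cons (nat_lit 137) (C.node (nat_lit 0) (nat_lit 4) (nat_lit 7) (C.cons (nat_lit 145) (C.ref (nat_lit 8) (nat_lit 654820258320)) C.nil)) C.nil))) (List.cons (C.node (nat_lit 0) (nat_lit 2) (nat_lit 4) (C.cons (nat_lit 533) (C.node (nat_lit 0) (nat_lit 3) (nat_lit 9) (C.cons (nat_lit 521) (C.ref (nat_lit 9) (nat_lit 590395748880)) C.nil)) (C.cons (nat_lit 21) (C.node (nat_lit 0) (nat_lit 2) (nat_lit 9) (C.cons (nat_lit 517) (C.node (nat_lit 0) (nat_lit 3) (nat_lit 7) (C.cons (nat_lit 153) (C.node (nat_lit 0) (nat_lit 3) (nat_lit 8) (C.cons (nat_lit 265) (C.node (nat_lit 0) (nat_lit 3) (nat_lit 9) C.nil) C.nil)) (C.cons (nat_lit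 137) (C.node (nat_lit 0) (nat_lit 4) (nat_lit 7) C.nil) C.nil))) C.nil)) C.nil))) (List.cons (C.node (nat_lit 0) (nat_lit 2) (nat_lit 8) (C.cons (nat_lit 277) (C.node (nat_lit 0) (nat_lit 2) (nat_lit 9) (C.cons (nat_lit 517) (C.node (nat_lit 0) (nat_lit 3) (nat_lit 8) (C.cons (nat_lit 265) (C.ref (nat_lit 9) (nat_lit 654820258320)) C.nil)) C.nil)) (C.cons (nat_lit 261) (C.ref (nat_lit 10) (nat_lit 654820258320)) C.nil))) (List.cons (C.node (nat_lit 0) (nat_lit 2) (nat_lit 6) (C.cons (nat_lit 85) (C.node (nat_lit 0) (nat_lit 2) (nat_lit 8) (C.cons (nat_lit 261) (C.node (nat_lit 0) (nat_lit 2) (nat_lit 9) (C.cons (nat_lit 517) (C.node (nat_lit 0) (nat_lit 3) (nat_lit 7) (C.cons (nat_lit 153) (C.pat (nat_lit 0) (nat_lit 72759073) (nat_lit 78673750343882874181511184842887)) (C.cons (nat_lit 137) (C.node (nat_lit 0) (nat_lit 4) (nat_lit 7) (C.cons (nat_lit 145) (C.node (nat_lit 0) (nat_lit 3) (nat_lit 8) (C.cons (nat_lit 281) (C.node (nat_lit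 0) (nat_lit 3) (nat_lit 9) (C.cons (nat_lit 521) (C.node (nat_lit 0) (nat_lit 4) (nat_lit 9) (C.cons (nat_lit 529) (C.ref (nat_lit 3) (nat_lit 654820258320)) C.nil)) C.nil)) (C.cons (nat_lit 265) (C.node (nat_lit 0) (nat_lit 4) (nat_lit 8) (C.cons (nat_lit 273) (C.node (nat_lit 0) (nat_lit 3) (nat_lit 4) (C.cons (nat_lit 537) (C.ref (nat_lit 3) (nat_lit 590395748880)) C.nil)) C.nil)) C.nil))) C.nil)) C.nil))) C.nil)) C.nil)) (C.cons (nat_lit 69) (C.node (nat_lit 0) (nat_lit 4) (nat_lit 6) (C.cons (nat_lit 81) (C.ref (nat_lit 11) (nat_lit 654820258320)) C.nil)) C.nil))) (List.cons (C.node (nat_lit 0) (nat_lit 2) (nat_lit 7) (C.cons (nat_lit 149) (C.node (nat_lit 0) (nat_lit 2) (nat_lit 8) (C.cons (nat_lit 261) (C.node (nat_lit 0) (nat_lit 2) (nat_lit 9) (C.cons (nat_lit 517) (C.node (nat_lit 0) (nat_lit 3) (nat_lit 7) C.nil) C.nil)) C.nil)) (C.cons (nat_lit 133) (C.node (nat_lit 0) (nat_lit 2) (nat_lit 8) (C.cons (nat_lit 277) (C.node (nat_lit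 0) (nat_lit 2) (nat_lit 9) (C.cons (nat_lit 517) (C.node (nat_lit 0) (nat_lit 3) (nat_lit 8) C.nil) C.nil)) (C.cons (nat_lit 261) (C.node (nat_lit 0) (nat_lit 2) (nat_lit 4)
  (C.cons (nat_lit 533) (C.node (nat_lit 0) (nat_lit 3) (nat_lit 9) C.nil) C.nil)) C.nil))) C.nil))) (List.cons (C.node (nat_lit 0) (nat_lit 1) (nat_lit 7) (C.cons (nat_lit 135) (C.node (nat_lit 0) (nat_lit 1) (nat_lit 8) (C.cons (nat_lit 259) (C.node (nat_lit 0) (nat_lit 1) (nat_lit 9) (C.cons (nat_lit 515) (C.ref (nat_lit 12) (nat_lit 654820258320)) C.nil)) C.nil)) (C.cons (nat_lit 131) (C.node (nat_lit 0) (nat_lit 1) (nat_lit 8) (C.cons (nat_lit 263) (C.node (nat_lit 0) (nat_lit 1) (nat_lit 9) (C.cons (nat_lit 515) (C.ref (nat_lit 12) (nat_lit 650793726480)) C.nil)) (C.cons (nat_lit 259) (C.node (nat_lit 0) (nat_lit 1) (nat_lit 2) (C.cons (nat_lit 519) (C.ref (nat_lit 12) (nat_lit 582342685200)) (C.cons (nat_lit 7) (C.node (nat_lit 0) (nat_lit 1) (nat_lit 9) (C.cons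 (nat_lit 515) (C.node (nat_lit 0) (nat_lit 2) (nat_lit 6) (C.cons (nat_lit 85) (C.node (nat_lit 0) (nat_lit 2) (nat_lit 7) (C.cons (nat_lit 133) (C.node (nat_lit 0) (nat_lit 2) (nat_lit 8) (C.cons (nat_lit 261) (C.node (nat_lit 0) (nat_lit 2) (nat_lit 9) (C.cons (nat_lit 517) (C.node (nat_lit 0) (nat_lit 3) (nat_lit 7) (C.cons (nat_lit 153) (C.node (nat_lit 0) (nat_lit 3) (nat_lit 8) (C.cons (nat_lit 265) (C.node (nat_lit 0) (nat_lit 3) (nat_lit 9) C.nil) C.nil)) (C.cons (nat_lit 137) (C.node (nat_lit 0) (nat_lit 4) (nat_lit 7) C.nil) C.nil))) C.nil)) C.nil)) C.nil)) (C.cons (nat_lit 69) (C.node (nat_lit 0) (nat_lit 4) (nat_lit 6) (C.cons (nat_lit 81) (C.ref (nat_lit 13) (nat_lit 654820258320)) C.nil)) C.nil))) C.nil)) C.nil))) C.nil))) C.nil))) (List.cons (C.node (nat_lit 0) (nat_lit 2) (nat_lit 7) (C.cons (nat_lit 135) (C.node (nat_lit 0) (nat_lit 2) (nat_lit 8) (C.cons (nat_lit 261) (C.node (nat_lit 0) (nat_lit 2) (nat_lit 9) (C.cons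 (nat_lit 517) (C.ref (nat_lit 11) (nat_lit 654820196640)) C.nil)) C.nil)) (C.cons (nat_lit 133) (C.node (nat_lit 0) (nat_lit 1) (nat_lit 7) (C.cons (nat_lit 139) (C.node (nat_lit 0) (nat_lit 4) (nat_lit 7) (C.cons (nat_lit 145) (C.node (nat_lit 0) (nat_lit 1) (nat_lit 8) (C.cons (nat_lit 263) (C.node (nat_lit 0) (nat_lit 1) (nat_lit 9) (C.cons (nat_lit 515) (C.node (nat_lit 0) (nat_lit 2) (nat_lit 9) (C.cons (nat_lit 517) (C.ref (nat_lit 9) (nat_lit 646515536400)) C.nil)) C.nil)) (C.cons (nat_lit 259) (C.node (nat_lit 0) (nat_lit 2) (nat_lit 8) (C.cons (nat_lit 261) (C.node (nat_lit 0) (nat_lit 1) (nat_lit 2) (C.cons (nat_lit 519) (C.ref (nat_lit 9) (nat_lit 578064495120)) (C.cons (nat_lit 7) (C.node (nat_lit 0) (nat_lit 1) (nat_lit 9) (C.cons (nat_lit 515) (C.node (nat_lit 0) (nat_lit 2) (nat_lit 9) C.nil) C.nil)) C.nil))) C.nil)) C.nil))) C.nil)) (C.cons (nat_lit 131) (C.node (nat_lit 0) (nat_lit 2) (nat_lit 8) (C.cons (nat_lit 263) (C.node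 (nat_lit 0) (nat_lit 2) (nat_lit 9) (C.cons (nat_lit 517) (C.ref (nat_lit 10) (nat_lit 650793664800)) C.nil)) (C.cons (nat_lit 261) (C.node (nat_lit 0) (nat_lit 1) (nat_lit 2) (C.cons (nat_lit 519) (C.ref (nat_lit 10) (nat_lit 582342623520)) (C.cons (nat_lit 7) (C.node (nat_lit 0) (nat_lit 2) (nat_lit 9) (C.cons (nat_lit 517) (C.node (nat_lit 0) (nat_lit 1) (nat_lit 8) (C.cons (nat_lit 267) (C.node (nat_lit 0) (nat_lit 1) (nat_lit 9) (C.cons (nat_lit 515) (C.node (nat_lit 0) (nat_lit 4) (nat_lit 8) C.nil) C.nil)) (C.cons (nat_lit 259) (C.node (nat_lit 0) (nat_lit 1) (nat_lit 3) (C.cons (nat_lit 523) (C.node (nat_lit 0) (nat_lit 4) (nat_lit 9) C.nil) C.nil)) C.nil))) C.nil)) C.nil))) C.nil))) C.nil))) C.nil))) (List.cons (C.node (nat_lit 0) (nat_lit 2) (nat_lit 4) (C.cons (nat_lit 533) (C.node (nat_lit 0) (nat_lit 3) (nat_lit 9) (C.cons (nat_lit 521) (C.node (nat_lit 0) (nat_lit 3) (nat_lit 4) (C.cons (nat_lit 281) (C.ref (nat_lit 3) (nat_lit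 452990346000)) C.nil)) C.nil)) (C.cons (nat_lit 21) (C.node (nat_lit 0) (nat_lit 2) (nat_lit 9) C.nil) C.nil))) (List.cons (C.node (nat_lit 0) (nat_lit 2) (nat_lit 7) (C.cons (nat_lit 149) (C.node (nat_lit 0) (nat_lit 2) (nat_lit 9) (C.cons (nat_lit 517) (C.node (nat_lit 0) (nat_lit 3) (nat_lit 8) (C.cons (nat_lit 281)
  (C.pat (nat_lit 0) (nat_lit 72824865) (nat_lit 78673905087568376474762962731271)) (C.cons (nat_lit 265) (C.node (nat_lit 0) (nat_lit 4) (nat_lit 8) (C.cons (nat_lit 273) (C.node (nat_lit 0) (nat_lit 3) (nat_lit 4) (C.cons (nat_lit 537) (C.ref (nat_lit 3) (nat_lit 453242008080)) C.nil)) C.nil)) C.nil))) C.nil)) (C.cons (nat_lit 133) (C.node (nat_lit 0) (nat_lit 4) (nat_lit 7) (C.cons (nat_lit 145) (C.ref (nat_lit 16) (nat_lit 654820258320)) C.nil)) C.nil))) (List.cons (C.node (nat_lit 0) (nat_lit 1) (nat_lit 8) (C.cons (nat_lit 263) (C.node (nat_lit 0) (nat_lit 1) (nat_lit 9) (C.cons (nat_lit 515) (C.ref (nat_lit 17) (nat_lit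 654820258320)) C.nil)) (C.cons (nat_lit 259) (C.node (nat_lit 0) (nat_lit 1) (nat_lit 2) (C.cons (nat_lit 519) (C.ref (nat_lit 17) (nat_lit 590395748880)) (C.cons (nat_lit 7) (C.node (nat_lit 0) (nat_lit 1) (nat_lit 9) (C.cons (nat_lit 515) (C.node (nat_lit 0) (nat_lit 2) (nat_lit 7) (C.cons (nat_lit 149) (C.node (nat_lit 0) (nat_lit 2) (nat_lit 8) (C.cons (nat_lit 261) (C.node (nat_lit 0) (nat_lit 2) (nat_lit 9) C.nil) C.nil)) (C.cons (nat_lit 133) (C.node (nat_lit 0) (nat_lit 4) (nat_lit 7) C.nil) C.nil))) C.nil)) C.nil))) C.nil))) (List.cons (C.node (nat_lit 0) (nat_lit 1) (nat_lit 2) (C.cons (nat_lit 519) (C.node (nat_lit 0) (nat_lit 1) (nat_lit 3) (C.cons (nat_lit 267) (C.node (nat_lit 0) (nat_lit 2) (nat_lit 4) (C.cons (nat_lit 277) (C.node (nat_lit 0) (nat_lit 3) (nat_lit 4) (C.cons (nat_lit 537) (C.pat (nat_lit 0) (nat_lit 72890657) (nat_lit 78674214574939381061266518508039)) C.nil)) C.nil)) C.nil)) (C.cons (nat_lit 263) (C.node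 (nat_lit 0) (nat_lit 1) (nat_lit 3) (C.cons (nat_lit 523) (C.node (nat_lit 0) (nat_lit 2) (nat_lit 4) (C.cons (nat_lit 533) (C.node (nat_lit 0) (nat_lit 3) (nat_lit 4) (C.cons (nat_lit 281) (C.pat (nat_lit 0) (nat_lit 72955937) (nat_lit 78673905094651926199067455717639)) C.nil)) C.nil)) C.nil)) C.nil))) (List.cons (C.node (nat_lit 0) (nat_lit 1) (nat_lit 7) (C.cons (nat_lit 139) (C.ref (nat_lit 18) (nat_lit 654820258320)) (C.cons (nat_lit 135) (C.ref (nat_lit 18) (nat_lit 654820254480)) (C.cons (nat_lit 131) (C.node (nat_lit 0) (nat_lit 2) (nat_lit 7) (C.cons (nat_lit 149) (C.node (nat_lit 0) (nat_lit 3) (nat_lit 7) (C.cons (nat_lit 137) (C.node (nat_lit 0) (nat_lit 2) (nat_lit 8) (C.cons (nat_lit 263) (C.node (nat_lit 0) (nat_lit 2) (nat_lit 9) (C.cons (nat_lit 517) (C.ref (nat_lit 16) (nat_lit 654820196640)) C.nil)) (C.cons (nat_lit 261) (C.node (nat_lit 0) (nat_lit 1) (nat_lit 2) (C.cons (nat_lit 519) (C.ref (nat_lit 16) (nat_lit 590395687200))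 (C.cons (nat_lit 7) (C.node (nat_lit 0) (nat_lit 2) (nat_lit 9) C.nil) C.nil))) C.nil))) C.nil)) (C.cons (nat_lit 133) (C.node (nat_lit 0) (nat_lit 3) (nat_lit 7) (C.cons (nat_lit 153) (C.node (nat_lit 0) (nat_lit 3) (nat_lit 8) (C.cons (nat_lit 267) (C.node (nat_lit 0) (nat_lit 3) (nat_lit 9) (C.cons (nat_lit 521) (C.ref (nat_lit 16) (nat_lit 654820131120)) C.nil)) (C.cons (nat_lit 265) (C.node (nat_lit 0) (nat_lit 1) (nat_lit 3) (C.cons (nat_lit 523) (C.ref (nat_lit 16) (nat_lit 590395621680)) (C.cons (nat_lit 11) (C.node (nat_lit 0) (nat_lit 3) (nat_lit 9) C.nil) C.nil))) C.nil))) (C.cons (nat_lit 137) (C.node (nat_lit 0) (nat_lit 4) (nat_lit 7) (C.cons (nat_lit 145) (C.ref (nat_lit 19) (nat_lit 654820258320)) C.nil)) C.nil))) C.nil))) C.nil)))) (List.cons (C.node (nat_lit 0) (nat_lit 2) (nat_lit 6) (C.cons (nat_lit 85) (C.ref (nat_lit 11) (nat_lit 654804468240)) (C.cons (nat_lit 69) (C.node (nat_lit 0) (nat_lit 4) (nat_lit 6) (C.cons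 (nat_lit 81) (C.node (nat_lit 0) (nat_lit 3) (nat_lit 7) (C.cons (nat_lit 153) (C.node (nat_lit 0) (nat_lit 3) (nat_lit 8) (C.cons (nat_lit 269) (C.node (nat_lit 0) (nat_lit 3) (nat_lit 9) (C.cons (nat_lit 521) (C.node (nat_lit 0) (nat_lit 4) (nat_lit 8) (C.cons (nat_lit 273) (C.ref (nat_lit 8) (nat_lit 641702568240)) C.nil)) C.nil)) (C.cons (nat_lit 265) (C.node (nat_lit 0) (nat_lit 2) (nat_lit 3) (C.cons (nat_lit 525) (C.node (nat_lit 0) (nat_lit 4) (nat_lit 9) (C.cons (nat_lit 529)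
  (C.ref (nat_lit 8) (nat_lit 572999868720)) C.nil)) (C.cons (nat_lit 13) (C.node (nat_lit 0) (nat_lit 3) (nat_lit 9) C.nil) C.nil))) C.nil))) (C.cons (nat_lit 137) (C.node (nat_lit 0) (nat_lit 4) (nat_lit 7) (C.cons (nat_lit 145) (C.node (nat_lit 0) (nat_lit 2) (nat_lit 8) (C.cons (nat_lit 277) (C.node (nat_lit 0) (nat_lit 3) (nat_lit 8) C.nil) (C.cons (nat_lit 269) (C.node (nat_lit 0) (nat_lit 4) (nat_lit 8) C.nil) C.nil))) C.nil)) C.nil))) C.nil)) C.nil))) (List.cons (C.node (nat_lit 0) (nat_lit 2) (nat_lit 6) (C.cons (nat_lit 85) (C.ref (nat_lit 13) (nat_lit 654804468240)) (C.cons (nat_lit 69) (C.node (nat_lit 0) (nat_lit 4) (nat_lit 6) (C.cons (nat_lit 81) (C.node (nat_lit 0) (nat_lit 2) (nat_lit 7) (C.cons (nat_lit 149) (C.node (nat_lit 0) (nat_lit 3) (nat_lit 7) C.nil) (C.cons (nat_lit 141) (C.node (nat_lit 0) (nat_lit 4) (nat_lit 7) C.nil) C.nil))) C.nil)) C.nil))) (List.cons (C.node (nat_lit 0) (nat_lit 1) (nat_lit 2) (C.cons (nat_lit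 519) (C.ref (nat_lit 21) (nat_lit 582342685200)) (C.cons (nat_lit 7) (C.node (nat_lit 0) (nat_lit 1) (nat_lit 9) (C.cons (nat_lit 515) (C.ref (nat_lit 22) (nat_lit 654820258320)) C.nil)) C.nil))) (List.cons (C.node (nat_lit 0) (nat_lit 1) (nat_lit 8) (C.cons (nat_lit 263) (C.node (nat_lit 0) (nat_lit 1) (nat_lit 9) (C.cons (nat_lit 515) (C.ref (nat_lit 21) (nat_lit 650793726480)) C.nil)) (C.cons (nat_lit 259) (C.ref (nat_lit 23) (nat_lit 654820258320)) C.nil))) (List.cons (C.node (nat_lit 0) (nat_lit 1) (nat_lit 7) (C.cons (nat_lit 135) (C.node (nat_lit 0) (nat_lit 1) (nat_lit 8) (C.cons (nat_lit 259) (C.node (nat_lit 0) (nat_lit 1) (nat_lit 9) (C.cons (nat_lit 515) (C.ref (nat_lit 21) (nat_lit 654820258320)) C.nil)) C.nil)) (C.cons (nat_lit 131) (C.ref (nat_lit 24) (nat_lit 654820258320)) C.nil))) (List.cons (C.node (nat_lit 0) (nat_lit 1) (nat_lit 6) (C.cons (nat_lit 75) (C.ref (nat_lit 25) (nat_lit 654820258320)) (C.cons (nat_lit 71)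 (C.ref (nat_lit 25) (nat_lit 654820254480)) (C.cons (nat_lit 67) (C.node (nat_lit 0) (nat_lit 1) (nat_lit 7) (C.cons (nat_lit 139) (C.ref (nat_lit 24) (nat_lit 654568600080)) (C.cons (nat_lit 135) (C.ref (nat_lit 24) (nat_lit 654568596240)) (C.cons (nat_lit 131) (C.node (nat_lit 0) (nat_lit 1) (nat_lit 8) (C.cons (nat_lit 267) (C.ref (nat_lit 23) (nat_lit 650290410000)) (C.cons (nat_lit 263) (C.ref (nat_lit 23) (nat_lit 650290406160)) (C.cons (nat_lit 259) (C.node (nat_lit 0) (nat_lit 1) (nat_lit 2) (C.cons (nat_lit 519) (C.node (nat_lit 0) (nat_lit 1) (nat_lit 3) (C.cons (nat_lit 11) (C.ref (nat_lit 22) (nat_lit 581587706640)) C.nil)) (C.cons (nat_lit 15) (C.node (nat_lit 0) (nat_lit 1) (nat_lit 9) (C.cons (nat_lit 515) (C.node (nat_lit 0) (nat_lit 2) (nat_lit 6) (C.cons (nat_lit 85) (C.node (nat_lit 0) (nat_lit 2) (nat_lit 7) (C.cons (nat_lit 133) (C.node (nat_lit 0) (nat_lit 2) (nat_lit 8) (C.cons (nat_lit 261) (C.node (nat_lit 0) (nat_lit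 2) (nat_lit 9) C.nil) C.nil)) C.nil)) (C.cons (nat_lit 69) (C.node (nat_lit 0) (nat_lit 2) (nat_lit 7) (C.cons (nat_lit 149) (C.node (nat_lit 0) (nat_lit 2) (nat_lit 8) (C.cons (nat_lit 261) (C.node (nat_lit 0) (nat_lit 2) (nat_lit 9) C.nil) C.nil)) (C.cons (nat_lit 133) (C.node (nat_lit 0) (nat_lit 2) (nat_lit 8) (C.cons (nat_lit 277) (C.node (nat_lit 0) (nat_lit 2) (nat_lit 9) C.nil) C.nil)) C.nil))) C.nil))) C.nil)) (C.cons (nat_lit 7) (C.node (nat_lit 0) (nat_lit 1) (nat_lit 3) (C.cons (nat_lit 523) (C.ref (nat_lit 22) (nat_lit 581587710480)) (C.cons (nat_lit 11) (C.node (nat_lit 0) (nat_lit 1) (nat_lit 9) (C.cons (nat_lit 515) (C.node (nat_lit 0) (nat_lit 2) (nat_lit 6) (C.cons (nat_lit 85) (C.node (nat_lit 0) (nat_lit 3) (nat_lit 6) C.nil) (C.cons (nat_lit 77) (C.node (nat_lit 0) (nat_lit 4) (nat_lit 6) C.nil) C.nil))) C.nil)) C.nil))) C.nil)))) C.nil)))) C.nil)))) C.nil)))) (List.cons (C.node (nat_lit 0) (nat_lit 2) (nat_lit 5) (C.cons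 (nat_lit 45) (C.node (nat_lit 0) (nat_lit 1) (nat_lit 6) (C.cons (nat_lit 75) (C.ref (nat_lit 14) (nat_lit 654820258320)) (C.cons (nat_lit 71)
  (C.ref (nat_lit 14) (nat_lit 654820254480)) (C.cons (nat_lit 67) (C.node (nat_lit 0) (nat_lit 2) (nat_lit 6) (C.cons (nat_lit 85) (C.node (nat_lit 0) (nat_lit 3) (nat_lit 6) (C.cons (nat_lit 73) (C.ref (nat_lit 15) (nat_lit 654820258320)) C.nil)) (C.cons (nat_lit 69) (C.node (nat_lit 0) (nat_lit 3) (nat_lit 6) (C.cons (nat_lit 89) (C.ref (nat_lit 15) (nat_lit 654820254480)) (C.cons (nat_lit 73) (C.node (nat_lit 0) (nat_lit 4) (nat_lit 6) (C.cons (nat_lit 81) (C.ref (nat_lit 20) (nat_lit 654820258320)) C.nil)) C.nil))) C.nil))) C.nil)))) (C.cons (nat_lit 37) (C.node (nat_lit 0) (nat_lit 3) (nat_lit 5) (C.cons (nat_lit 41) (C.ref (nat_lit 26) (nat_lit 654820258320)) C.nil)) C.nil))) (List.cons (C.node (nat_lit 0) (nat_lit 1) (nat_lit 2) (C.cons (nat_lit 519) (C.node (nat_lit 0) (nat_lit 2) (nat_lit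 7) (C.cons (nat_lit 149) (C.ref (nat_lit 16) (nat_lit 590112571920)) (C.cons (nat_lit 133) (C.node (nat_lit 0) (nat_lit 4) (nat_lit 7) C.nil) C.nil))) (C.cons (nat_lit 7) (C.node (nat_lit 0) (nat_lit 1) (nat_lit 9) C.nil) C.nil))) (List.cons (C.node (nat_lit 0) (nat_lit 1) (nat_lit 8) (C.cons (nat_lit 263) (C.node (nat_lit 0) (nat_lit 1) (nat_lit 9) (C.cons (nat_lit 515) (C.node (nat_lit 0) (nat_lit 2) (nat_lit 7) (C.cons (nat_lit 149) (C.ref (nat_lit 16) (nat_lit 654537081360)) (C.cons (nat_lit 133) (C.node (nat_lit 0) (nat_lit 4) (nat_lit 7) C.nil) C.nil))) C.nil)) (C.cons (nat_lit 259) (C.ref (nat_lit 28) (nat_lit 654820258320)) C.nil))) List.nil)))))))))))))))))))))))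

theorem ok10_7 : okL par10 (nat_lit 30) c10_7 (nat_lit 7) = true := by decide +kernel

noncomputable def c10_30 : List C :=
  (List.cons (C.node (nat_lit 0) (nat_lit 1) (nat_lit 7) (C.cons (nat_lit 139) (C.ref (nat_lit 29) (nat_lit 654820258320)) (C.cons (nat_lit 135) (C.ref (nat_lit 29) (nat_lit 654820254480)) (C.cons (nat_lit 131) (C.node (nat_lit 0) (nat_lit 1) (nat_lit 8) (C.cons (nat_lit 267) (C.ref (nat_lit 28) (nat_lit 650793726480)) (C.cons (nat_lit 263) (C.ref (nat_lit 28) (nat_lit 650793722640)) (C.cons (nat_lit 259) (C.node (nat_lit 0) (nat_lit 1) (nat_lit 2) (C.cons (nat_lit 519) (C.node (nat_lit 0) (nat_lit 1) (nat_lit 3) C.nil) (C.cons (nat_lit 15) (C.node (nat_lit 0) (nat_lit 1) (nat_lit 9) C.nil) C.nil))) C.nil)))) C.nil)))) (List.cons (C.node (nat_lit 0) (nat_lit 2) (nat_lit 6) (C.cons (nat_lit 77) (C.ref (nat_lit 20) (nat_lit 654804529680)) (C.cons (nat_lit 69) (C.node (nat_lit 0) (nat_lit 3) (nat_lit 6) (C.cons (nat_lit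 73) (C.ref (nat_lit 30) (nat_lit 654820258320)) C.nil)) C.nil))) (List.cons (C.big (C.cons (nat_lit 543) (C.ref (nat_lit 0) (nat_lit 654820258320)) (C.cons (nat_lit 287) (C.ref (nat_lit 0) (nat_lit 590395748880)) (C.cons (nat_lit 159) (C.ref (nat_lit 0) (nat_lit 521944707600)) (C.cons (nat_lit 95) (C.ref (nat_lit 0) (nat_lit 453242008080)) (C.cons (nat_lit 63) (C.ref (nat_lit 0) (nat_lit 384523579920)) C.nil))))) (C.big (C.cons (nat_lit 541) (C.ref (nat_lit 2) (nat_lit 654820258320)) (C.cons (nat_lit 539) (C.ref (nat_lit 2) (nat_lit 654820258080)) (C.cons (nat_lit 535) (C.ref (nat_lit 2) (nat_lit 654820254000)) (C.cons (nat_lit 527) (C.ref (nat_lit 2) (nat_lit 654820188480)) (C.cons (nat_lit 285) (C.ref (nat_lit 2) (nat_lit 590395748880)) (C.cons (nat_lit 283) (C.ref (nat_lit 2) (nat_lit 590395748640)) (C.cons (nat_lit 279) (C.ref (nat_lit 2) (nat_lit 590395744560)) (C.cons (nat_lit 271) (C.ref (nat_lit 2) (nat_lit 590395679040)) (C.cons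 (nat_lit 157) (C.ref (nat_lit 2) (nat_lit 521944707600)) (C.cons (nat_lit 155) (C.ref (nat_lit 2) (nat_lit 521944707360)) (C.cons (nat_lit 151) (C.ref (nat_lit 2) (nat_lit 521944703280)) (C.cons (nat_lit 143) (C.ref (nat_lit 2) (nat_lit 521944637760)) (C.cons (nat_lit 93) (C.ref (nat_lit 2) (nat_lit 453242008080)) (C.cons (nat_lit 91) (C.ref (nat_lit 2) (nat_lit 453242007840)) (C.cons (nat_lit 87) (C.ref (nat_lit 2) (nat_lit 453242003760)) (C.cons (nat_lit 79) (C.ref (nat_lit 2) (nat_lit 453241938240)) (C.cons (nat_lit 61) (C.ref (nat_lit 2) (nat_lit 384523579920)) (C.cons (nat_lit 59) (C.ref (nat_lit 2) (nat_lit 384523579680)) (C.cons (nat_lit 55) (C.ref (nat_lit 2) (nat_lit 384523575600)) (C.cons (nat_lit 47) (C.ref (nat_lit 2) (nat_lit 384523510080)) (C.cons (nat_lit 31) (C.big C.nil (C.node (nat_lit 0) (nat_lit 1) (nat_lit 5) (C.cons (nat_lit 35) (C.node (nat_lit 0) (nat_lit 1) (nat_lit 6) (C.cons (nat_lit 67) (C.node (nat_lit 0) (nat_lit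 1) (nat_lit 7) (C.cons (nat_lit 131) (C.node (nat_lit 0) (nat_lit 1) (nat_lit 8) (C.cons (nat_lit 259) (C.node (nat_lit 0) (nat_lit 1) (nat_lit 9) (C.cons (nat_lit 515) (C.node (nat_lit 0) (nat_lit 2) (nat_lit 5) (C.cons (nat_lit 37) (C.node (nat_lit 0) (nat_lit 2) (nat_lit 6) (C.cons (nat_lit 69) (C.node (nat_lit 0) (nat_lit 2) (nat_lit 7) (C.cons (nat_lit 133) (C.node (nat_lit 0) (nat_lit 2) (nat_lit 8) C.nil) C.nil)) C.nil)) C.nil)) C.nil)) C.nil)) C.nil)) C.nil)) C.nil))) C.nil))))))))))))))))))))) (C.node (nat_lit 0) (nat_lit 1) (nat_lit 5) (C.cons (nat_lit 51) (C.ref (nat_lit 27) (nat_lit 654820258320)) (C.cons (nat_lit 43) (C.ref (nat_lit 27) (nat_lit 654820196880)) (C.cons (nat_lit 39) (C.ref (nat_lit 27) (nat_lit 654820131600)) (C.cons (nat_lit 35) (C.node (nat_lit 0) (nat_lit 2) (nat_lit 5) (C.cons (nat_lit 53) (C.node (nat_lit 0) (nat_lit 3) (nat_lit 5) (C.cons (nat_lit 41) (C.ref (nat_lit 26) (nat_lit 654820258080)) C.nil)) (C.cons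 (nat_lit 45) (C.node (nat_lit 0) (nat_lit 4) (nat_lit 5) (C.cons (nat_lit 49) (C.ref (nat_lit 26) (nat_lit 654820196640)) C.nil)) (C.cons (nat_lit 37) (C.node (nat_lit 0) (nat_lit 3) (nat_lit 5) (C.cons (nat_lit 57) (C.ref (nat_lit 26) (nat_lit 654820254000)) (C.cons (nat_lit 41)
  (C.node (nat_lit 0) (nat_lit 4) (nat_lit 5) (C.cons (nat_lit 49) (C.node (nat_lit 0) (nat_lit 1) (nat_lit 6) (C.cons (nat_lit 83) (C.ref (nat_lit 31) (nat_lit 654820258320)) (C.cons (nat_lit 75) (C.ref (nat_lit 31) (nat_lit 654820196880)) (C.cons (nat_lit 71) (C.ref (nat_lit 31) (nat_lit 654820131600)) (C.cons (nat_lit 67) (C.node (nat_lit 0) (nat_lit 2) (nat_lit 6) (C.cons (nat_lit 85) (C.node (nat_lit 0) (nat_lit 3) (nat_lit 6) (C.cons (nat_lit 73) (C.ref (nat_lit 30) (nat_lit 654820258080)) C.nil)) (C.cons (nat_lit 77) (C.node (nat_lit 0) (nat_lit 4) (nat_lit 6) (C.cons (nat_lit 81) (C.ref (nat_lit 30) (nat_lit 654820196640)) C.nil)) (C.cons (nat_lit 69) (C.node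 (nat_lit 0) (nat_lit 3) (nat_lit 6) (C.cons (nat_lit 89) (C.ref (nat_lit 30) (nat_lit 654820254000)) (C.cons (nat_lit 73) (C.node (nat_lit 0) (nat_lit 4) (nat_lit 6) (C.cons (nat_lit 81) (C.node (nat_lit 0) (nat_lit 1) (nat_lit 7) (C.cons (nat_lit 147) (C.node (nat_lit 0) (nat_lit 2) (nat_lit 7) (C.cons (nat_lit 141) (C.ref (nat_lit 19) (nat_lit 654537142800)) C.nil)) (C.cons (nat_lit 139) (C.node (nat_lit 0) (nat_lit 2) (nat_lit 7) (C.cons (nat_lit 149) (C.ref (nat_lit 19) (nat_lit 654537081360)) C.nil)) (C.cons (nat_lit 135) (C.node (nat_lit 0) (nat_lit 3) (nat_lit 7) (C.cons (nat_lit 153) (C.ref (nat_lit 19) (nat_lit 654537016080)) C.nil)) C.nil)))) C.nil)) C.nil))) C.nil)))) C.nil))))) C.nil)) C.nil))) C.nil)))) C.nil))))))) (List.cons (C.node (nat_lit 2) (nat_lit 5) (nat_lit 6) (C.cons (nat_lit 228) (C.node (nat_lit 4) (nat_lit 6) (nat_lit 7) (C.cons (nat_lit 208) (C.node (nat_lit 2) (nat_lit 6) (nat_lit 8) (C.cons (nat_lit 340) (C.node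 (nat_lit 2) (nat_lit 6) (nat_lit 9) (C.cons (nat_lit 580) (C.node (nat_lit 3) (nat_lit 4) (nat_lit 6) (C.cons (nat_lit 88) (C.node (nat_lit 3) (nat_lit 6) (nat_lit 8) (C.cons (nat_lit 328) (C.node (nat_lit 4) (nat_lit 5) (nat_lit 6) (C.cons (nat_lit 112) (C.node (nat_lit 5) (nat_lit 6) (nat_lit 8) C.nil) C.nil)) C.nil)) C.nil)) C.nil)) (C.cons (nat_lit 324) (C.node (nat_lit 2) (nat_lit 4) (nat_lit 6) (C.cons (nat_lit 596) (C.node (nat_lit 1) (nat_lit 2) (nat_lit 4) (C.cons (nat_lit 30) (C.miq (nat_lit 1645712432) (nat_lit 162013787317174359267410489)) (C.cons (nat_lit 22) (C.node (nat_lit 2) (nat_lit 7) (nat_lit 9) (C.cons (nat_lit 652) (C.miq (nat_lit 843151712) (nat_lit 26598932312472332092507073)) (C.cons (nat_lit 644) (C.node (nat_lit 3) (nat_lit 7) (nat_lit 9) C.nil) C.nil))) C.nil))) (C.cons (nat_lit 84) (C.node (nat_lit 2) (nat_lit 6) (nat_lit 9) (C.cons (nat_lit 580) (C.node (nat_lit 4) (nat_lit 6) (nat_lit 9) (C.cons (nat_lit 592)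 (C.node (nat_lit 1) (nat_lit 2) (nat_lit 9) C.nil) C.nil)) C.nil)) C.nil))) C.nil))) C.nil)) (C.cons (nat_lit 100) (C.node (nat_lit 2) (nat_lit 5) (nat_lit 7) (C.cons (nat_lit 164) (C.node (nat_lit 2) (nat_lit 6) (nat_lit 7) (C.cons (nat_lit 196) (C.node (nat_lit 2) (nat_lit 6) (nat_lit 8) (C.cons (nat_lit 340) (C.node (nat_lit 2) (nat_lit 6) (nat_lit 9) (C.cons (nat_lit 580) (C.node (nat_lit 3) (nat_lit 4) (nat_lit 6) (C.cons (nat_lit 88) (C.node (nat_lit 3) (nat_lit 6) (nat_lit 8) C.nil) C.nil)) C.nil)) (C.cons (nat_lit 324) (C.node (nat_lit 2) (nat_lit 4) (nat_lit 6) (C.cons (nat_lit 596) (C.node (nat_lit 1) (nat_lit 2) (nat_lit 4) (C.cons (nat_lit 30) (C.miq (nat_lit 1645712432) (nat_lit 162013787317174359267410489)) (C.cons (nat_lit 22) (C.node (nat_lit 1) (nat_lit 2) (nat_lit 3) C.nil) C.nil))) (C.cons (nat_lit 84) (C.node (nat_lit 2) (nat_lit 6) (nat_lit 9) C.nil) C.nil))) C.nil))) C.nil)) C.nil)) C.nil))) (List.cons (C.node (nat_lit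 1) (nat_lit 2) (nat_lit 4) (C.cons (nat_lit 30) (C.miq (nat_lit 1898353712) (nat_lit 84642534879289540638212665)) (C.cons (nat_lit 22) (C.node (nat_lit 3) (nat_lit 7) (nat_lit 9) (C.cons (nat_lit 652) (C.miq (nat_lit 1634862227) (nat_lit 161997480251019234244297273)) (C.cons (nat_lit 648) (C.node (nat_lit 4) (nat_lit 6) (nat_lit 9) (C.cons (nat_lit 596) (C.miq (nat_lit 826410902) (nat_lit 26597788469943365369332673)) (C.cons (nat_lit 592)
  (C.node (nat_lit 1) (nat_lit 2) (nat_lit 3) (C.cons (nat_lit 526) (C.node (nat_lit 1) (nat_lit 8) (nat_lit 9) (C.cons (nat_lit 770) (C.node (nat_lit 3) (nat_lit 8) (nat_lit 9) (C.cons (nat_lit 776) (C.node (nat_lit 1) (nat_lit 3) (nat_lit 4) (C.cons (nat_lit 282) (C.node (nat_lit 2) (nat_lit 3) (nat_lit 4) (C.cons (nat_lit 28) (C.node (nat_lit 3) (nat_lit 4) (nat_lit 6) (C.cons (nat_lit 88) (C.node (nat_lit 3) (nat_lit 6) (nat_lit 8) C.nil) C.nil)) C.nil)) (C.cons (nat_lit 26) (C.node (nat_lit 1) (nat_lit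 3) (nat_lit 8) (C.cons (nat_lit 266) (C.node (nat_lit 1) (nat_lit 4) (nat_lit 8) (C.cons (nat_lit 274) (C.node (nat_lit 2) (nat_lit 3) (nat_lit 4) C.nil) C.nil)) C.nil)) C.nil))) C.nil)) C.nil)) (C.cons (nat_lit 14) (C.node (nat_lit 1) (nat_lit 2) (nat_lit 9) (C.cons (nat_lit 518) (C.node (nat_lit 1) (nat_lit 3) (nat_lit 4) (C.cons (nat_lit 282) (C.node (nat_lit 1) (nat_lit 3) (nat_lit 9) (C.cons (nat_lit 522) (C.node (nat_lit 1) (nat_lit 8) (nat_lit 9) (C.cons (nat_lit 770) (C.node (nat_lit 2) (nat_lit 3) (nat_lit 4) (C.cons (nat_lit 28) (C.node (nat_lit 3) (nat_lit 4) (nat_lit 6) (C.cons (nat_lit 88) (C.node (nat_lit 3) (nat_lit 4) (nat_lit 7) C.nil) C.nil)) C.nil)) C.nil)) C.nil)) (C.cons (nat_lit 26) (C.node (nat_lit 1) (nat_lit 4) (nat_lit 8) (C.cons (nat_lit 274) (C.node (nat_lit 1) (nat_lit 3) (nat_lit 8) (C.cons (nat_lit 778) (C.node (nat_lit 2) (nat_lit 8) (nat_lit 9) (C.cons (nat_lit 788) (C.miq (nat_lit 672614704) (nat_lit 466648115157919467301438009))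 C.nil)) (C.cons (nat_lit 266) (C.node (nat_lit 2) (nat_lit 3) (nat_lit 9) C.nil) C.nil))) C.nil)) C.nil))) C.nil)) C.nil))) C.nil))) C.nil))) C.nil))) (List.cons (C.node (nat_lit 2) (nat_lit 6) (nat_lit 7) (C.cons (nat_lit 228) (C.node (nat_lit 2) (nat_lit 5) (nat_lit 9) (C.cons (nat_lit 548) (C.node (nat_lit 4) (nat_lit 6) (nat_lit 7) (C.cons (nat_lit 208) (C.node (nat_lit 5) (nat_lit 6) (nat_lit 9) (C.cons (nat_lit 608) (C.node (nat_lit 5) (nat_lit 7) (nat_lit 9) (C.cons (nat_lit 672) (C.node (nat_lit 2) (nat_lit 6) (nat_lit 9) (C.cons (nat_lit 596) (C.node (nat_lit 2) (nat_lit 6) (nat_lit 8) C.nil) C.nil)) C.nil)) C.nil)) C.nil)) C.nil)) (C.cons (nat_lit 196) (C.node (nat_lit 2) (nat_lit 5) (nat_lit 6) (C.cons (nat_lit 612) (C.node (nat_lit 2) (nat_lit 5) (nat_lit 7) (C.cons (nat_lit 164) (C.node (nat_lit 4) (nat_lit 6) (nat_lit 9) (C.cons (nat_lit 592) (C.node (nat_lit 5) (nat_lit 7) (nat_lit 9) (C.cons (nat_lit 672) (C.node (nat_lit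 4) (nat_lit 6) (nat_lit 7) C.nil) C.nil)) C.nil)) C.nil)) (C.cons (nat_lit 100) (C.node (nat_lit 5) (nat_lit 6) (nat_lit 9) (C.cons (nat_lit 608) (C.node (nat_lit 2) (nat_lit 5) (nat_lit 7) (C.cons (nat_lit 676) (C.node (nat_lit 3) (nat_lit 7) (nat_lit 9) (C.cons (nat_lit 648) (C.node (nat_lit 2) (nat_lit 6) (nat_lit 9) (C.cons (nat_lit 580) (C.node (nat_lit 4) (nat_lit 6) (nat_lit 9) C.nil) C.nil)) C.nil)) (C.cons (nat_lit 164) (C.node (nat_lit 2) (nat_lit 5) (nat_lit 9) (C.cons (nat_lit 548) (C.node (nat_lit 5) (nat_lit 7) (nat_lit 9) C.nil) C.nil)) C.nil))) C.nil)) C.nil))) C.nil))) (List.cons (C.node (nat_lit 1) (nat_lit 6) (nat_lit 7) (C.cons (nat_lit 198) (C.miq (nat_lit 1951473718) (nat_lit 60449943478000268599754829)) (C.cons (nat_lit 194) (C.node (nat_lit 2) (nat_lit 3) (nat_lit 5) (C.cons (nat_lit 172) (C.miq (nat_lit 1947541603) (nat_lit 60449463862652264797306957)) (C.cons (nat_lit 44) (C.node (nat_lit 2) (nat_lit 4) (nat_lit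 5) (C.cons (nat_lit 116) (C.miq (nat_lit 639059248) (nat_lit 234534357602756595190268473)) (C.cons (nat_lit 52) (C.node (nat_lit 3) (nat_lit 6) (nat_lit 7) (C.cons (nat_lit 216) (C.miq (nat_lit 560399668) (nat_lit 234534357653140616026522169)) (C.cons (nat_lit 200) (C.node (nat_lit 1) (nat_lit 2) (nat_lit 6) (C.cons (nat_lit 582) (C.node (nat_lit 1) (nat_lit 2) (nat_lit 7) (C.cons (nat_lit 134) (C.node (nat_lit 4) (nat_lit 6) (nat_lit 9) (C.cons (nat_lit 592) (C.node (nat_lit 5) (nat_lit 6) (nat_lit 9) (C.cons (nat_lit 608) (C.node (nat_lit 1) (nat_lit 2) (nat_lit 3) (C.cons (nat_lit 30)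
  (C.node (nat_lit 1) (nat_lit 3) (nat_lit 8) (C.cons (nat_lit 778) (C.miq (nat_lit 2166854464) (nat_lit 162013787368402805029405241)) (C.cons (nat_lit 266) (C.node (nat_lit 1) (nat_lit 3) (nat_lit 9) (C.cons (nat_lit 522) (C.node (nat_lit 1) (nat_lit 7) (nat_lit 8) (C.cons (nat_lit 402) (C.miq (nat_lit 1130828296) (nat_lit 241792579522488046257766695)) (C.cons (nat_lit 386) (C.node (nat_lit 1) (nat_lit 4) (nat_lit 7) (C.cons (nat_lit 658) (C.miq (nat_lit 1898353712) (nat_lit 703612554521979678087774777)) (C.cons (nat_lit 146) (C.node (nat_lit 4) (nat_lit 7) (nat_lit 9) (C.cons (nat_lit 656) (C.node (nat_lit 1) (nat_lit 4) (nat_lit 8) (C.cons (nat_lit 786) (C.miq (nat_lit 2166789168) (nat_lit 703612554558008475106738745)) (C.cons (nat_lit 274) (C.node (nat_lit 1) (nat_lit 4) (nat_lit 9) (C.cons (nat_lit 530) (C.node (nat_lit 1) (nat_lit 8) (nat_lit 9) (C.cons (nat_lit 770) (C.node (nat_lit 2) (nat_lit 4) (nat_lit 6) (C.cons (nat_lit 340)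 (C.miq (nat_lit 1131815176) (nat_lit 241791435824355742553538855)) (C.cons (nat_lit 84) (C.node (nat_lit 2) (nat_lit 6) (nat_lit 8) (C.cons (nat_lit 324) (C.node (nat_lit 2) (nat_lit 4) (nat_lit 8) (C.cons (nat_lit 788) (C.miq (nat_lit 2182583344) (nat_lit 162013787371217554795856441)) (C.cons (nat_lit 276) (C.node (nat_lit 3) (nat_lit 4) (nat_lit 6) C.nil) C.nil))) C.nil)) C.nil))) C.nil)) C.nil)) C.nil))) C.nil)) C.nil))) C.nil))) C.nil)) C.nil))) (C.cons (nat_lit 14) (C.node (nat_lit 1) (nat_lit 2) (nat_lit 4) (C.cons (nat_lit 22) (C.node (nat_lit 1) (nat_lit 3) (nat_lit 4) (C.cons (nat_lit 282) (C.node (nat_lit 1) (nat_lit 3) (nat_lit 9) (C.cons (nat_lit 522) (C.node (nat_lit 1) (nat_lit 7) (nat_lit 8) (C.cons (nat_lit 386) (C.node (nat_lit 1) (nat_lit 8) (nat_lit 9) (C.cons (nat_lit 770) (C.node (nat_lit 2) (nat_lit 3) (nat_lit 4) (C.cons (nat_lit 28) (C.node (nat_lit 3) (nat_lit 4) (nat_lit 6) (C.cons (nat_lit 88) (C.node (nat_lit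 3) (nat_lit 4) (nat_lit 7) (C.cons (nat_lit 152) (C.node (nat_lit 3) (nat_lit 6) (nat_lit 8) (C.cons (nat_lit 328) (C.node (nat_lit 2) (nat_lit 6) (nat_lit 7) (C.cons (nat_lit 228) (C.node (nat_lit 4) (nat_lit 6) (nat_lit 7) C.nil) C.nil)) C.nil)) C.nil)) C.nil)) C.nil)) C.nil)) C.nil)) C.nil)) (C.cons (nat_lit 26) (C.node (nat_lit 1) (nat_lit 3) (nat_lit 8) (C.cons (nat_lit 778) (C.node (nat_lit 2) (nat_lit 4) (nat_lit 9) (C.cons (nat_lit 788) (C.miq (nat_lit 1921057939) (nat_lit 356635680925685008181101113)) (C.cons (nat_lit 532) (C.node (nat_lit 2) (nat_lit 8) (nat_lit 9) (C.cons (nat_lit 772) (C.node (nat_lit 4) (nat_lit 8) (nat_lit 9) (C.cons (nat_lit 784) (C.node (nat_lit 1) (nat_lit 4) (nat_lit 8) (C.cons (nat_lit 402) (C.node (nat_lit 1) (nat_lit 4) (nat_lit 9) (C.cons (nat_lit 530) (C.node (nat_lit 3) (nat_lit 4) (nat_lit 7) (C.cons (nat_lit 152) (C.node (nat_lit 4) (nat_lit 7) (nat_lit 9) (C.cons (nat_lit 656) (C.node (nat_lit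 2) (nat_lit 4) (nat_lit 6) (C.cons (nat_lit 340) (C.miq (nat_lit 826410886) (nat_lit 26597788469942265840927681)) (C.cons (nat_lit 84) (C.node (nat_lit 2) (nat_lit 7) (nat_lit 8) (C.cons (nat_lit 396) (C.miq (nat_lit 1668547201) (nat_lit 183758255682857026488238375)) C.nil)) C.nil))) C.nil)) C.nil)) C.nil)) (C.cons (nat_lit 274) (C.node (nat_lit 1) (nat_lit 7) (nat_lit 8) (C.cons (nat_lit 386) (C.node (nat_lit 1) (nat_lit 4) (nat_lit 7) (C.cons (nat_lit 658) (C.node (nat_lit 1) (nat_lit 5) (nat_lit 7) (C.cons (nat_lit 162) (C.node (nat_lit 1) (nat_lit 5) (nat_lit 9) (C.cons (nat_lit 546) (C.node (nat_lit 3) (nat_lit 4) (nat_lit 7) (C.cons (nat_lit 408) (C.node (nat_lit 2) (nat_lit 3) (nat_lit 4) C.nil) C.nil)) C.nil)) C.nil)) (C.cons (nat_lit 146) (C.node (nat_lit 1) (nat_lit 4) (nat_lit 9) (C.cons (nat_lit 530) (C.node (nat_lit 4) (nat_lit 7) (nat_lit 9) (C.cons (nat_lit 656) (C.node (nat_lit 3) (nat_lit 4) (nat_lit 6) C.nil) C.nil)) C.nil))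 C.nil))) C.nil)) C.nil))) C.nil)) C.nil)) C.nil))) (C.cons (nat_lit 266) (C.node (nat_lit 1) (nat_lit 3) (nat_lit 9) (C.cons (nat_lit 522) (C.node (nat_lit 1) (nat_lit 5) (nat_lit 7)
  (C.cons (nat_lit 674) (C.node (nat_lit 2) (nat_lit 5) (nat_lit 9) (C.cons (nat_lit 548) (C.node (nat_lit 4) (nat_lit 7) (nat_lit 9) (C.cons (nat_lit 656) (C.node (nat_lit 1) (nat_lit 4) (nat_lit 7) (C.cons (nat_lit 402) (C.node (nat_lit 1) (nat_lit 4) (nat_lit 9) (C.cons (nat_lit 530) (C.node (nat_lit 1) (nat_lit 8) (nat_lit 9) (C.cons (nat_lit 770) (C.node (nat_lit 3) (nat_lit 4) (nat_lit 7) (C.cons (nat_lit 152) (C.node (nat_lit 2) (nat_lit 4) (nat_lit 6) (C.cons (nat_lit 340) (C.miq (nat_lit 826410886) (nat_lit 26597788469942265840927681)) (C.cons (nat_lit 84) (C.node (nat_lit 3) (nat_lit 5) (nat_lit 7) C.nil) C.nil))) C.nil)) C.nil)) C.nil)) (C.cons (nat_lit 146) (C.node (nat_lit 1) (nat_lit 7) (nat_lit 8) (C.cons (nat_lit 386) (C.node (nat_lit 1) (nat_lit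 4) (nat_lit 8) (C.cons (nat_lit 786) (C.node (nat_lit 2) (nat_lit 4) (nat_lit 9) (C.cons (nat_lit 532) (C.node (nat_lit 4) (nat_lit 5) (nat_lit 6) C.nil) C.nil)) (C.cons (nat_lit 274) (C.node (nat_lit 1) (nat_lit 4) (nat_lit 9) C.nil) C.nil))) C.nil)) C.nil))) C.nil)) C.nil)) (C.cons (nat_lit 162) (C.node (nat_lit 1) (nat_lit 5) (nat_lit 9) (C.cons (nat_lit 546) (C.node (nat_lit 1) (nat_lit 7) (nat_lit 8) (C.cons (nat_lit 402) (C.node (nat_lit 1) (nat_lit 4) (nat_lit 9) (C.cons (nat_lit 530) (C.node (nat_lit 1) (nat_lit 7) (nat_lit 9) (C.cons (nat_lit 642) (C.node (nat_lit 1) (nat_lit 8) (nat_lit 9) (C.cons (nat_lit 770) (C.node (nat_lit 3) (nat_lit 4) (nat_lit 7) (C.cons (nat_lit 152) (C.node (nat_lit 3) (nat_lit 7) (nat_lit 9) C.nil) C.nil)) C.nil)) C.nil)) C.nil)) (C.cons (nat_lit 386) (C.node (nat_lit 1) (nat_lit 4) (nat_lit 7) (C.cons (nat_lit 658) (C.node (nat_lit 1) (nat_lit 4) (nat_lit 8) (C.cons (nat_lit 274) (C.node (nat_lit 1)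 (nat_lit 8) (nat_lit 9) (C.cons (nat_lit 770) (C.node (nat_lit 3) (nat_lit 7) (nat_lit 9) (C.cons (nat_lit 652) (C.miq (nat_lit 1634862227) (nat_lit 161997480251019234244297273)) (C.cons (nat_lit 648) (C.node (nat_lit 2) (nat_lit 3) (nat_lit 4) C.nil) C.nil))) C.nil)) C.nil)) (C.cons (nat_lit 146) (C.node (nat_lit 1) (nat_lit 7) (nat_lit 9) (C.cons (nat_lit 642) (C.node (nat_lit 4) (nat_lit 7) (nat_lit 9) (C.cons (nat_lit 656) (C.node (nat_lit 1) (nat_lit 4) (nat_lit 8) (C.cons (nat_lit 786) (C.node (nat_lit 2) (nat_lit 4) (nat_lit 9) C.nil) (C.cons (nat_lit 274) (C.node (nat_lit 1) (nat_lit 4) (nat_lit 9) C.nil) C.nil))) C.nil)) C.nil)) C.nil))) C.nil))) C.nil)) C.nil))) C.nil)) C.nil))) C.nil))) C.nil)) C.nil))) C.nil)) C.nil)) C.nil)) (C.cons (nat_lit 70) (C.node (nat_lit 1) (nat_lit 6) (nat_lit 9) (C.cons (nat_lit 578) (C.node (nat_lit 1) (nat_lit 2) (nat_lit 7) (C.cons (nat_lit 646) (C.node (nat_lit 1) (nat_lit 5) (nat_lit 7) (C.cons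 (nat_lit 162) (C.node (nat_lit 1) (nat_lit 5) (nat_lit 9) (C.cons (nat_lit 546) (C.node (nat_lit 3) (nat_lit 7) (nat_lit 9) (C.cons (nat_lit 648) (C.node (nat_lit 4) (nat_lit 7) (nat_lit 9) (C.cons (nat_lit 656) (C.node (nat_lit 5) (nat_lit 7) (nat_lit 9) (C.cons (nat_lit 672) (C.node (nat_lit 1) (nat_lit 2) (nat_lit 3) (C.cons (nat_lit 30) (C.node (nat_lit 1) (nat_lit 3) (nat_lit 8) (C.cons (nat_lit 778) (C.miq (nat_lit 2166854464) (nat_lit 780983807011092942478967353)) (C.cons (nat_lit 266) (C.node (nat_lit 1) (nat_lit 3) (nat_lit 9) (C.cons (nat_lit 522) (C.node (nat_lit 1) (nat_lit 4) (nat_lit 7) (C.cons (nat_lit 402) (C.miq (nat_lit 1130828296) (nat_lit 241792579522488046257766695)) (C.cons (nat_lit 146) (C.node (nat_lit 1) (nat_lit 7) (nat_lit 8) (C.cons (nat_lit 386) (C.node (nat_lit 1) (nat_lit 4) (nat_lit 8) (C.cons (nat_lit 786) (C.miq (nat_lit 2166789168) (nat_lit 84642534915318337657176633)) (C.cons (nat_lit 274) (C.node (nat_lit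 1) (nat_lit 4) (nat_lit 9) (C.cons (nat_lit 530) (C.node (nat_lit 1) (nat_lit 8) (nat_lit 9) (C.cons (nat_lit 770) (C.node (nat_lit 2) (nat_lit 3) (nat_lit 7) C.nil) C.nil)) C.nil)) C.nil))) C.nil)) C.nil))) C.nil)) C.nil))) (C.cons (nat_lit 14) (C.node (nat_lit 1) (nat_lit 2) (nat_lit 4) (C.cons (nat_lit 22) (C.node (nat_lit 1) (nat_lit 3) (nat_lit 4)
  (C.cons (nat_lit 282) (C.node (nat_lit 1) (nat_lit 3) (nat_lit 9) (C.cons (nat_lit 522) (C.node (nat_lit 1) (nat_lit 4) (nat_lit 7) (C.cons (nat_lit 146) (C.node (nat_lit 1) (nat_lit 4) (nat_lit 9) (C.cons (nat_lit 530) (C.node (nat_lit 2) (nat_lit 3) (nat_lit 9) C.nil) C.nil)) C.nil)) C.nil)) (C.cons (nat_lit 26) (C.node (nat_lit 1) (nat_lit 3) (nat_lit 8) (C.cons (nat_lit 778) (C.node (nat_lit 1) (nat_lit 4) (nat_lit 9) (C.cons (nat_lit 530) (C.node (nat_lit 2) (nat_lit 3) (nat_lit 9) (C.cons (nat_lit 524) (C.node (nat_lit 2) (nat_lit 8) (nat_lit 9) (C.cons (nat_lit 788) (C.miq (nat_lit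 1921057939) (nat_lit 356635680925685008181101113)) (C.cons (nat_lit 772) (C.node (nat_lit 4) (nat_lit 8) (nat_lit 9) C.nil) C.nil))) C.nil)) C.nil)) (C.cons (nat_lit 266) (C.node (nat_lit 1) (nat_lit 3) (nat_lit 9) (C.cons (nat_lit 522) (C.node (nat_lit 1) (nat_lit 4) (nat_lit 7) (C.cons (nat_lit 402) (C.node (nat_lit 1) (nat_lit 4) (nat_lit 9) (C.cons (nat_lit 530) (C.node (nat_lit 2) (nat_lit 3) (nat_lit 9) C.nil) C.nil)) (C.cons (nat_lit 146) (C.node (nat_lit 1) (nat_lit 7) (nat_lit 8) (C.cons (nat_lit 386) (C.node (nat_lit 2) (nat_lit 3) (nat_lit 7) (C.cons (nat_lit 396) (C.node (nat_lit 2) (nat_lit 3) (nat_lit 4) C.nil) C.nil)) C.nil)) C.nil))) C.nil)) C.nil))) C.nil))) C.nil)) C.nil))) C.nil)) C.nil)) C.nil)) C.nil)) C.nil)) (C.cons (nat_lit 134) (C.node (nat_lit 1) (nat_lit 5) (nat_lit 7) (C.cons (nat_lit 674) (C.node (nat_lit 4) (nat_lit 7) (nat_lit 9) (C.cons (nat_lit 656) (C.node (nat_lit 2) (nat_lit 5) (nat_lit 9) (C.cons (nat_lit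 612) (C.miq (nat_lit 354646368) (nat_lit 53195300350186692142760897)) (C.cons (nat_lit 548) (C.node (nat_lit 5) (nat_lit 6) (nat_lit 9) (C.cons (nat_lit 608) (C.node (nat_lit 1) (nat_lit 4) (nat_lit 7) (C.cons (nat_lit 402) (C.node (nat_lit 3) (nat_lit 4) (nat_lit 7) (C.cons (nat_lit 152) (C.node (nat_lit 1) (nat_lit 3) (nat_lit 4) (C.cons (nat_lit 30) (C.miq (nat_lit 1732446226) (nat_lit 183758145251216489388572967)) (C.cons (nat_lit 26) (C.node (nat_lit 2) (nat_lit 6) (nat_lit 8) (C.cons (nat_lit 340) (C.miq (nat_lit 588537976) (nat_lit 31438343224639590023431105)) (C.cons (nat_lit 324) (C.node (nat_lit 2) (nat_lit 7) (nat_lit 8) (C.cons (nat_lit 396) (C.miq (nat_lit 1668547201) (nat_lit 183758255682857026488238375)) (C.cons (nat_lit 388) (C.node (nat_lit 1) (nat_lit 2) (nat_lit 3) (C.cons (nat_lit 526) (C.node (nat_lit 1) (nat_lit 2) (nat_lit 4) (C.cons (nat_lit 22) (C.node (nat_lit 1) (nat_lit 3) (nat_lit 8) (C.cons (nat_lit 266) (C.node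 (nat_lit 1) (nat_lit 4) (nat_lit 9) (C.cons (nat_lit 530) (C.node (nat_lit 1) (nat_lit 8) (nat_lit 9) (C.cons (nat_lit 770) (C.node (nat_lit 2) (nat_lit 4) (nat_lit 6) C.nil) C.nil)) C.nil)) C.nil)) C.nil)) (C.cons (nat_lit 14) (C.node (nat_lit 1) (nat_lit 2) (nat_lit 4) (C.cons (nat_lit 534) (C.node (nat_lit 2) (nat_lit 4) (nat_lit 6) (C.cons (nat_lit 84) (C.node (nat_lit 2) (nat_lit 6) (nat_lit 9) (C.cons (nat_lit 580) (C.node (nat_lit 2) (nat_lit 5) (nat_lit 6) C.nil) C.nil)) C.nil)) (C.cons (nat_lit 22) (C.node (nat_lit 1) (nat_lit 2) (nat_lit 9) (C.cons (nat_lit 518) (C.node (nat_lit 1) (nat_lit 4) (nat_lit 9) (C.cons (nat_lit 530) (C.node (nat_lit 2) (nat_lit 5) (nat_lit 6) (C.cons (nat_lit 228) (C.node (nat_lit 4) (nat_lit 6) (nat_lit 7) C.nil) C.nil)) C.nil)) C.nil)) C.nil))) C.nil))) C.nil))) C.nil))) C.nil))) C.nil)) (C.cons (nat_lit 146) (C.node (nat_lit 1) (nat_lit 7) (nat_lit 8) (C.cons (nat_lit 386) (C.ref (nat_lit 33) (nat_lit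 654820258320)) C.nil)) C.nil))) C.nil)) C.nil))) C.nil)) (C.cons (nat_lit 162) (C.node (nat_lit 1) (nat_lit 5) (nat_lit 9) (C.cons (nat_lit 546) (C.node (nat_lit 1) (nat_lit 7) (nat_lit 8) (C.cons (nat_lit 402) (C.node (nat_lit 1) (nat_lit 7) (nat_lit 9) (C.cons (nat_lit 642) (C.node (nat_lit 3) (nat_lit 4) (nat_lit 7) (C.cons (nat_lit 152) (C.node (nat_lit 4) (nat_lit 7) (nat_lit 9) (C.cons (nat_lit 656) (C.node (nat_lit 1) (nat_lit 3) (nat_lit 4) (C.cons (nat_lit 30)
  (C.miq (nat_lit 1732446226) (nat_lit 183758145251216489388572967)) (C.cons (nat_lit 26) (C.node (nat_lit 2) (nat_lit 6) (nat_lit 8) (C.cons (nat_lit 340) (C.miq (nat_lit 588537976) (nat_lit 31438343224639590023431105)) (C.cons (nat_lit 324) (C.node (nat_lit 2) (nat_lit 7) (nat_lit 8) (C.cons (nat_lit 396) (C.miq (nat_lit 1668547201) (nat_lit 183758255682857026488238375)) (C.cons (nat_lit 388) (C.node (nat_lit 1) (nat_lit 2) (nat_lit 3) (C.cons (nat_lit 526) (C.node (nat_lit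 1) (nat_lit 2) (nat_lit 4) (C.cons (nat_lit 22) (C.node (nat_lit 1) (nat_lit 3) (nat_lit 8) (C.cons (nat_lit 266) (C.node (nat_lit 1) (nat_lit 4) (nat_lit 9) (C.cons (nat_lit 530) (C.node (nat_lit 1) (nat_lit 8) (nat_lit 9) (C.cons (nat_lit 770) (C.node (nat_lit 3) (nat_lit 5) (nat_lit 7) C.nil) C.nil)) C.nil)) C.nil)) C.nil)) (C.cons (nat_lit 14) (C.node (nat_lit 1) (nat_lit 2) (nat_lit 4) (C.cons (nat_lit 534) (C.node (nat_lit 2) (nat_lit 4) (nat_lit 6) (C.cons (nat_lit 84) (C.node (nat_lit 4) (nat_lit 6) (nat_lit 9) (C.cons (nat_lit 592) (C.node (nat_lit 4) (nat_lit 8) (nat_lit 9) (C.cons (nat_lit 784) (C.node (nat_lit 1) (nat_lit 3) (nat_lit 8) C.nil) C.nil)) C.nil)) C.nil)) (C.cons (nat_lit 22) (C.node (nat_lit 1) (nat_lit 2) (nat_lit 9) (C.cons (nat_lit 518) (C.node (nat_lit 1) (nat_lit 4) (nat_lit 9) (C.cons (nat_lit 530) (C.node (nat_lit 2) (nat_lit 3) (nat_lit 7) C.nil) C.nil)) C.nil)) C.nil))) C.nil))) C.nil))) C.nil))) C.nil)))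 C.nil)) C.nil)) C.nil)) (C.cons (nat_lit 386) (C.node (nat_lit 1) (nat_lit 4) (nat_lit 7) (C.cons (nat_lit 658) (C.ref (nat_lit 34) (nat_lit 654820258320)) (C.cons (nat_lit 146) (C.node (nat_lit 1) (nat_lit 7) (nat_lit 9) (C.cons (nat_lit 642) (C.node (nat_lit 4) (nat_lit 7) (nat_lit 9) (C.cons (nat_lit 656) (C.ref (nat_lit 35) (nat_lit 654820258320)) C.nil)) C.nil)) C.nil))) C.nil))) C.nil)) C.nil))) C.nil))) C.nil)) C.nil))) C.nil))) C.nil))) C.nil))) C.nil))) List.nil)))))))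

theorem ok10_30 : okL par10 (nat_lit 37) c10_30 (nat_lit 30) = true := by decide +kernel

noncomputable def c10_37 : List C :=
  (List.cons (C.node (nat_lit 1) (nat_lit 4) (nat_lit 8) (C.cons (nat_lit 786) (C.node (nat_lit 2) (nat_lit 8) (nat_lit 9) (C.cons (nat_lit 772) (C.node (nat_lit 1) (nat_lit 6) (nat_lit 7) (C.cons (nat_lit 226) (C.node (nat_lit 1) (nat_lit 5) (nat_lit 9) (C.cons (nat_lit 546) (C.node (nat_lit 1) (nat_lit 6) (nat_lit 9) (C.cons (nat_lit 578) (C.node (nat_lit 1) (nat_lit 7) (nat_lit 9) (C.cons (nat_lit 642) (C.node (nat_lit 2) (nat_lit 6) (nat_lit 7) (C.cons (nat_lit 196) (C.node (nat_lit 3) (nat_lit 5) (nat_lit 6) (C.cons (nat_lit 104) (C.node (nat_lit 3) (nat_lit 6) (nat_lit 7) C.nil) C.nil)) C.nil)) C.nil)) C.nil)) C.nil)) (C.cons (nat_lit 194) (C.node (nat_lit 1) (nat_lit 5) (nat_lit 6) (C.cons (nat_lit 610) (C.node (nat_lit 1) (nat_lit 5) (nat_lit 7) (C.cons (nat_lit 162) (C.node (nat_lit 1) (nat_lit 7) (nat_lit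 9) (C.cons (nat_lit 642) (C.node (nat_lit 2) (nat_lit 5) (nat_lit 9) (C.cons (nat_lit 676) (C.miq (nat_lit 622098784) (nat_lit 60449039735878145650394049)) (C.cons (nat_lit 548) (C.node (nat_lit 3) (nat_lit 5) (nat_lit 6) C.nil) C.nil))) C.nil)) C.nil)) (C.cons (nat_lit 98) (C.node (nat_lit 1) (nat_lit 6) (nat_lit 9) (C.cons (nat_lit 578) (C.node (nat_lit 1) (nat_lit 7) (nat_lit 5) (C.cons (nat_lit 674) (C.node (nat_lit 2) (nat_lit 7) (nat_lit 9) (C.cons (nat_lit 644) (C.node (nat_lit 7) (nat_lit 8) (nat_lit 3) C.nil) C.nil)) (C.cons (nat_lit 162) (C.node (nat_lit 1) (nat_lit 7) (nat_lit 9) C.nil) C.nil))) C.nil)) C.nil))) C.nil))) C.nil)) (C.cons (nat_lit 274) (C.node (nat_lit 1) (nat_lit 4) (nat_lit 9) (C.cons (nat_lit 530) (C.node (nat_lit 1) (nat_lit 8) (nat_lit 9) (C.cons (nat_lit 770) (C.node (nat_lit 1) (nat_lit 6) (nat_lit 7) (C.cons (nat_lit 226) (C.node (nat_lit 1) (nat_lit 5) (nat_lit 9) (C.cons (nat_lit 546) (C.node (nat_lit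 1) (nat_lit 6) (nat_lit 9) (C.cons (nat_lit 578) (C.node (nat_lit 1) (nat_lit 7) (nat_lit 9) (C.cons (nat_lit 642) (C.node (nat_lit 2) (nat_lit 6) (nat_lit 7) C.nil) C.nil)) C.nil)) C.nil)) (C.cons (nat_lit 194) (C.node (nat_lit 1) (nat_lit 5) (nat_lit 6) (C.cons (nat_lit 610) (C.node (nat_lit 1) (nat_lit 5) (nat_lit 7) (C.cons (nat_lit 162) (C.node (nat_lit 2) (nat_lit 7) (nat_lit 9) (C.cons (nat_lit 676) (C.miq (nat_lit 622098784) (nat_lit 60449039735878145650394049)) C.nil)) C.nil)) (C.cons (nat_lit 98) (C.node (nat_lit 1) (nat_lit 6) (nat_lit 9) (C.cons (nat_lit 578) (C.node (nat_lit 1) (nat_lit 7) (nat_lit 5) (C.cons (nat_lit 674) (C.node (nat_lit 2) (nat_lit 7) (nat_lit 9) C.nil) (C.cons (nat_lit 162) (C.node (nat_lit 1) (nat_lit 7) (nat_lit 9) C.nil) C.nil))) C.nil)) C.nil))) C.nil))) C.nil)) C.nil)) C.nil))) (List.cons (C.node (nat_lit 4) (nat_lit 8) (nat_lit 9) (C.cons (nat_lit 784) (C.node (nat_lit 1) (nat_lit 2) (nat_lit 6) (C.cons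 (nat_lit 198) (C.node (nat_lit 1) (nat_lit 5) (nat_lit 6) (C.cons (nat_lit 610) (C.miq (nat_lit 1361352304) (nat_lit 645576884043290506234758081)) (C.cons (nat_lit 98) (C.node (nat_lit 1) (nat_lit 6) (nat_lit 9) (C.cons (nat_lit 578) (C.node (nat_lit 1) (nat_lit 7) (nat_lit 5) (C.cons (nat_lit 674) (C.miq (nat_lit 1361287008) (nat_lit 16935457861697733892309953)) (C.cons (nat_lit 162) (C.node (nat_lit 1) (nat_lit 7) (nat_lit 9) (C.cons (nat_lit 642) (C.node (nat_lit 1) (nat_lit 5) (nat_lit 9) (C.cons (nat_lit 546) (C.node (nat_lit 2) (nat_lit 6) (nat_lit 4) C.nil) C.nil)) C.nil)) C.nil))) C.nil)) C.nil))) (C.cons (nat_lit 70) (C.node (nat_lit 1) (nat_lit 2) (nat_lit 7) (C.cons (nat_lit 134) (C.node (nat_lit 1) (nat_lit 6) (nat_lit 7) (C.cons (nat_lit 226) (C.node (nat_lit 1) (nat_lit 5) (nat_lit 9) (C.cons (nat_lit 546) (C.node (nat_lit 1) (nat_lit 6) (nat_lit 9) (C.cons (nat_lit 578) (C.node (nat_lit 1) (nat_lit 7) (nat_lit 9) (C.cons (nat_lit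 642) (C.node (nat_lit 2) (nat_lit 6) (nat_lit 7) C.nil) C.nil)) C.nil)) C.nil)) (C.cons (nat_lit 194) (C.node (nat_lit 1) (nat_lit 5) (nat_lit 6) (C.cons (nat_lit 610) (C.node (nat_lit 1) (nat_lit 5) (nat_lit 7) (C.cons (nat_lit 162) (C.node (nat_lit 2) (nat_lit 5) (nat_lit 9) (C.cons (nat_lit 676)
  (C.miq (nat_lit 622098784) (nat_lit 60449039735878145650394049)) C.nil)) C.nil)) (C.cons (nat_lit 98) (C.node (nat_lit 1) (nat_lit 6) (nat_lit 9) (C.cons (nat_lit 578) (C.node (nat_lit 2) (nat_lit 6) (nat_lit 4) (C.cons (nat_lit 116) (C.node (nat_lit 2) (nat_lit 6) (nat_lit 7) C.nil) C.nil)) C.nil)) C.nil))) C.nil))) C.nil)) C.nil))) C.nil)) (List.cons (C.node (nat_lit 2) (nat_lit 3) (nat_lit 4) (C.cons (nat_lit 28) (C.node (nat_lit 1) (nat_lit 5) (nat_lit 6) (C.cons (nat_lit 226) (C.node (nat_lit 1) (nat_lit 5) (nat_lit 9) (C.cons (nat_lit 546) (C.node (nat_lit 1) (nat_lit 7) (nat_lit 9) (C.cons (nat_lit 642) (C.node (nat_lit 2) (nat_lit 6)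 (nat_lit 7) (C.cons (nat_lit 196) (C.node (nat_lit 2) (nat_lit 3) (nat_lit 5) (C.cons (nat_lit 172) (C.node (nat_lit 2) (nat_lit 7) (nat_lit 8) (C.cons (nat_lit 388) (C.node (nat_lit 2) (nat_lit 7) (nat_lit 9) (C.cons (nat_lit 644) (C.node (nat_lit 2) (nat_lit 3) (nat_lit 8) C.nil) C.nil)) C.nil)) (C.cons (nat_lit 44) (C.node (nat_lit 2) (nat_lit 3) (nat_lit 7) (C.cons (nat_lit 396) (C.node (nat_lit 2) (nat_lit 3) (nat_lit 9) (C.cons (nat_lit 524) (C.node (nat_lit 2) (nat_lit 8) (nat_lit 9) (C.cons (nat_lit 772) (C.node (nat_lit 3) (nat_lit 8) (nat_lit 9) C.nil) C.nil)) C.nil)) (C.cons (nat_lit 140) (C.node (nat_lit 2) (nat_lit 7) (nat_lit 8) (C.cons (nat_lit 388) (C.node (nat_lit 2) (nat_lit 3) (nat_lit 8) C.nil) C.nil)) C.nil))) C.nil))) C.nil)) C.nil)) C.nil)) (C.cons (nat_lit 98) (C.node (nat_lit 1) (nat_lit 6) (nat_lit 7) (C.cons (nat_lit 194) (C.node (nat_lit 1) (nat_lit 5) (nat_lit 7) (C.cons (nat_lit 674) (C.node (nat_lit 2) (nat_lit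 7) (nat_lit 9) (C.cons (nat_lit 644) (C.node (nat_lit 2) (nat_lit 5) (nat_lit 9) (C.cons (nat_lit 612) (C.miq (nat_lit 827459478) (nat_lit 356634537224737198784644033)) (C.cons (nat_lit 548) (C.node (nat_lit 2) (nat_lit 6) (nat_lit 9) (C.cons (nat_lit 580) (C.node (nat_lit 5) (nat_lit 6) (nat_lit 9) (C.cons (nat_lit 608) (C.node (nat_lit 2) (nat_lit 3) (nat_lit 5) (C.cons (nat_lit 172) (C.node (nat_lit 2) (nat_lit 6) (nat_lit 7) C.nil) (C.cons (nat_lit 44) (C.node (nat_lit 2) (nat_lit 3) (nat_lit 7) C.nil) C.nil))) C.nil)) C.nil)) C.nil))) C.nil)) (C.cons (nat_lit 162) (C.node (nat_lit 1) (nat_lit 5) (nat_lit 9) (C.cons (nat_lit 546) (C.node (nat_lit 1) (nat_lit 7) (nat_lit 9) (C.cons (nat_lit 642) (C.node (nat_lit 2) (nat_lit 3) (nat_lit 5) (C.cons (nat_lit 172) (C.node (nat_lit 2) (nat_lit 6) (nat_lit 7) (C.cons (nat_lit 196) (C.node (nat_lit 2) (nat_lit 7) (nat_lit 8) C.nil) C.nil)) (C.cons (nat_lit 44) (C.node (nat_lit 2) (nat_lit 3)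 (nat_lit 7) (C.cons (nat_lit 396) (C.node (nat_lit 2) (nat_lit 3) (nat_lit 9) C.nil) C.nil)) C.nil))) C.nil)) C.nil)) C.nil))) C.nil)) C.nil))) C.nil)) (List.cons (C.node (nat_lit 1) (nat_lit 8) (nat_lit 9) (C.cons (nat_lit 770) (C.node (nat_lit 2) (nat_lit 3) (nat_lit 4) (C.cons (nat_lit 28) (C.node (nat_lit 1) (nat_lit 5) (nat_lit 6) (C.cons (nat_lit 226) (C.node (nat_lit 1) (nat_lit 5) (nat_lit 9) (C.cons (nat_lit 546) (C.node (nat_lit 1) (nat_lit 7) (nat_lit 9) (C.cons (nat_lit 642) (C.node (nat_lit 2) (nat_lit 6) (nat_lit 7) (C.cons (nat_lit 196) (C.node (nat_lit 2) (nat_lit 3) (nat_lit 5) (C.cons (nat_lit 172) (C.node (nat_lit 2) (nat_lit 7) (nat_lit 8) (C.cons (nat_lit 388) (C.node (nat_lit 2) (nat_lit 7) (nat_lit 9) C.nil) C.nil)) (C.cons (nat_lit 44) (C.node (nat_lit 2) (nat_lit 3) (nat_lit 7) (C.cons (nat_lit 396) (C.node (nat_lit 2) (nat_lit 3) (nat_lit 9) C.nil) (C.cons (nat_lit 140) (C.node (nat_lit 2) (nat_lit 7) (nat_lit 9)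 C.nil) C.nil))) C.nil))) C.nil)) C.nil)) C.nil)) (C.cons (nat_lit 98) (C.node (nat_lit 1) (nat_lit 6) (nat_lit 7) (C.cons (nat_lit 194) (C.node (nat_lit 1) (nat_lit 5) (nat_lit 7) (C.cons (nat_lit 674) (C.node (nat_lit 2) (nat_lit 7) (nat_lit 9) (C.cons (nat_lit 644) (C.node (nat_lit 2) (nat_lit 5) (nat_lit 9) (C.cons (nat_lit 612) (C.miq (nat_lit 827459478) (nat_lit 356634537224737198784644033)) (C.cons (nat_lit 548) (C.node (nat_lit 2) (nat_lit 6) (nat_lit 9)
  (C.cons (nat_lit 580) (C.node (nat_lit 5) (nat_lit 6) (nat_lit 9) C.nil) C.nil)) C.nil))) C.nil)) (C.cons (nat_lit 162) (C.node (nat_lit 1) (nat_lit 5) (nat_lit 9) (C.cons (nat_lit 546) (C.node (nat_lit 1) (nat_lit 7) (nat_lit 9) (C.cons (nat_lit 642) (C.node (nat_lit 5) (nat_lit 6) (nat_lit 9) (C.cons (nat_lit 612) (C.node (nat_lit 2) (nat_lit 4) (nat_lit 5) C.nil) C.nil)) C.nil)) C.nil)) C.nil))) C.nil)) C.nil))) C.nil)) C.nil)) (List.cons (C.node (nat_lit 1) (nat_lit 4) (nat_lit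 8) (C.cons (nat_lit 786) (C.node (nat_lit 2) (nat_lit 4) (nat_lit 9) (C.cons (nat_lit 532) (C.node (nat_lit 2) (nat_lit 3) (nat_lit 9) (C.cons (nat_lit 780) (C.miq (nat_lit 1635910803) (nat_lit 356634537208975081136194105)) (C.cons (nat_lit 524) (C.node (nat_lit 2) (nat_lit 8) (nat_lit 9) (C.cons (nat_lit 772) (C.node (nat_lit 3) (nat_lit 8) (nat_lit 9) (C.cons (nat_lit 776) (C.node (nat_lit 1) (nat_lit 5) (nat_lit 6) (C.cons (nat_lit 226) (C.node (nat_lit 1) (nat_lit 5) (nat_lit 9) (C.cons (nat_lit 546) (C.node (nat_lit 1) (nat_lit 7) (nat_lit 9) C.nil) C.nil)) (C.cons (nat_lit 98) (C.node (nat_lit 1) (nat_lit 6) (nat_lit 7) (C.cons (nat_lit 194) (C.node (nat_lit 2) (nat_lit 6) (nat_lit 7) (C.cons (nat_lit 228) (C.node (nat_lit 2) (nat_lit 3) (nat_lit 5) C.nil) C.nil)) C.nil)) C.nil))) C.nil)) C.nil)) C.nil))) C.nil)) (C.cons (nat_lit 274) (C.node (nat_lit 1) (nat_lit 4) (nat_lit 9) (C.cons (nat_lit 530) (C.node (nat_lit 1) (nat_lit 8)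 (nat_lit 9) (C.cons (nat_lit 770) (C.node (nat_lit 1) (nat_lit 5) (nat_lit 6) (C.cons (nat_lit 226) (C.node (nat_lit 1) (nat_lit 5) (nat_lit 9) (C.cons (nat_lit 546) (C.node (nat_lit 1) (nat_lit 7) (nat_lit 9) (C.cons (nat_lit 642) (C.node (nat_lit 2) (nat_lit 6) (nat_lit 7) (C.cons (nat_lit 196) (C.node (nat_lit 8) (nat_lit 3) (nat_lit 9) (C.cons (nat_lit 780) (C.node (nat_lit 2) (nat_lit 7) (nat_lit 8) C.nil) C.nil)) C.nil)) C.nil)) C.nil)) (C.cons (nat_lit 98) (C.node (nat_lit 1) (nat_lit 6) (nat_lit 7) (C.cons (nat_lit 194) (C.node (nat_lit 1) (nat_lit 5) (nat_lit 7) (C.cons (nat_lit 674) (C.node (nat_lit 2) (nat_lit 7) (nat_lit 9) (C.cons (nat_lit 644) (C.node (nat_lit 3) (nat_lit 8) (nat_lit 9) C.nil) C.nil)) (C.cons (nat_lit 162) (C.node (nat_lit 1) (nat_lit 5) (nat_lit 9) (C.cons (nat_lit 546) (C.node (nat_lit 1) (nat_lit 7) (nat_lit 9) (C.cons (nat_lit 642) (C.node (nat_lit 2) (nat_lit 3) (nat_lit 9) C.nil) C.nil)) C.nil)) C.nil)))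 C.nil)) C.nil))) C.nil)) C.nil)) C.nil))) (List.cons (C.node (nat_lit 1) (nat_lit 8) (nat_lit 9) (C.cons (nat_lit 770) (C.node (nat_lit 3) (nat_lit 8) (nat_lit 9) (C.cons (nat_lit 776) (C.node (nat_lit 1) (nat_lit 3) (nat_lit 4) (C.cons (nat_lit 282) (C.ref (nat_lit 39) (nat_lit 654568538640)) (C.cons (nat_lit 26) (C.node (nat_lit 1) (nat_lit 3) (nat_lit 8) (C.cons (nat_lit 266) (C.node (nat_lit 1) (nat_lit 4) (nat_lit 8) (C.cons (nat_lit 274) (C.node (nat_lit 1) (nat_lit 5) (nat_lit 7) (C.cons (nat_lit 226) (C.node (nat_lit 1) (nat_lit 5) (nat_lit 9) (C.cons (nat_lit 546) (C.node (nat_lit 1) (nat_lit 6) (nat_lit 9) (C.cons (nat_lit 578) (C.node (nat_lit 2) (nat_lit 7) (nat_lit 6) (C.cons (nat_lit 196) (C.node (nat_lit 2) (nat_lit 4) (nat_lit 3) (C.cons (nat_lit 284) (C.node (nat_lit 2) (nat_lit 4) (nat_lit 9) (C.cons (nat_lit 532) (C.node (nat_lit 2) (nat_lit 3) (nat_lit 5) C.nil) C.nil)) (C.cons (nat_lit 28) (C.node (nat_lit 2) (nat_lit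 3) (nat_lit 5) (C.cons (nat_lit 172) (C.node (nat_lit 2) (nat_lit 3) (nat_lit 8) C.nil) C.nil)) C.nil))) C.nil)) C.nil)) C.nil)) (C.cons (nat_lit 162) (C.node (nat_lit 1) (nat_lit 7) (nat_lit 6) (C.cons (nat_lit 194) (C.node (nat_lit 1) (nat_lit 5) (nat_lit 6) (C.cons (nat_lit 610) (C.node (nat_lit 2) (nat_lit 6) (nat_lit 9) (C.cons (nat_lit 580) (C.node (nat_lit 2) (nat_lit 5) (nat_lit 9) (C.cons (nat_lit 676) (C.miq (nat_lit 1095894679) (nat_lit 356635865374547632302851009)) (C.cons (nat_lit 548) (C.node (nat_lit 2) (nat_lit 7) (nat_lit 9) C.nil) C.nil))) C.nil)) (C.cons (nat_lit 98) (C.node (nat_lit 1) (nat_lit 5) (nat_lit 9)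
  (C.cons (nat_lit 546) (C.node (nat_lit 1) (nat_lit 6) (nat_lit 9) (C.cons (nat_lit 578) (C.node (nat_lit 2) (nat_lit 7) (nat_lit 9) C.nil) C.nil)) C.nil)) C.nil))) C.nil)) C.nil))) C.nil)) C.nil)) C.nil))) C.nil)) C.nil)) (List.cons (C.node (nat_lit 2) (nat_lit 6) (nat_lit 7) (C.cons (nat_lit 198) (C.miq (nat_lit 1683099703) (nat_lit 62867795098652178490589323)) (C.cons (nat_lit 196) (C.node (nat_lit 3) (nat_lit 6) (nat_lit 7) (C.cons (nat_lit 216) (C.miq (nat_lit 309724468) (nat_lit 236950991807261293013369401)) (C.cons (nat_lit 200) (C.node (nat_lit 1) (nat_lit 2) (nat_lit 6) (C.cons (nat_lit 582) (C.node (nat_lit 1) (nat_lit 2) (nat_lit 7) (C.cons (nat_lit 134) (C.node (nat_lit 2) (nat_lit 5) (nat_lit 6) (C.cons (nat_lit 100) (C.node (nat_lit 2) (nat_lit 5) (nat_lit 9) (C.cons (nat_lit 548) (C.node (nat_lit 2) (nat_lit 7) (nat_lit 9) (C.cons (nat_lit 644) (C.node (nat_lit 4) (nat_lit 6) (nat_lit 9) (C.cons (nat_lit 592) (C.node (nat_lit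 5) (nat_lit 6) (nat_lit 9) (C.cons (nat_lit 608) (C.node (nat_lit 1) (nat_lit 2) (nat_lit 3) (C.cons (nat_lit 30) (C.node (nat_lit 1) (nat_lit 3) (nat_lit 8) (C.cons (nat_lit 778) (C.miq (nat_lit 2166854464) (nat_lit 162013787368402805029405241)) (C.cons (nat_lit 266) (C.node (nat_lit 1) (nat_lit 3) (nat_lit 9) (C.cons (nat_lit 522) (C.node (nat_lit 1) (nat_lit 5) (nat_lit 6) (C.cons (nat_lit 98) (C.node (nat_lit 1) (nat_lit 4) (nat_lit 9) C.nil) C.nil)) C.nil)) C.nil))) (C.cons (nat_lit 14) (C.node (nat_lit 1) (nat_lit 2) (nat_lit 4) (C.cons (nat_lit 22) (C.node (nat_lit 1) (nat_lit 3) (nat_lit 4) (C.cons (nat_lit 26) (C.node (nat_lit 1) (nat_lit 5) (nat_lit 6) C.nil) C.nil)) C.nil)) C.nil))) C.nil)) C.nil)) C.nil)) C.nil)) C.nil)) C.nil)) (C.cons (nat_lit 70) (C.node (nat_lit 1) (nat_lit 2) (nat_lit 7) (C.cons (nat_lit 646) (C.node (nat_lit 5) (nat_lit 7) (nat_lit 9) (C.cons (nat_lit 672) (C.node (nat_lit 1) (nat_lit 2) (nat_lit 3) (C.cons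 (nat_lit 30) (C.node (nat_lit 1) (nat_lit 3) (nat_lit 8) (C.cons (nat_lit 778) (C.miq (nat_lit 2166854464) (nat_lit 780983807011092942478967353)) (C.cons (nat_lit 266) (C.node (nat_lit 1) (nat_lit 3) (nat_lit 9) (C.cons (nat_lit 522) (C.node (nat_lit 1) (nat_lit 4) (nat_lit 8) (C.cons (nat_lit 786) (C.miq (nat_lit 2166789168) (nat_lit 84642534915318337657176633)) (C.cons (nat_lit 274) (C.node (nat_lit 1) (nat_lit 4) (nat_lit 9) (C.cons (nat_lit 530) (C.node (nat_lit 1) (nat_lit 8) (nat_lit 9) (C.cons (nat_lit 770) (C.node (nat_lit 2) (nat_lit 3) (nat_lit 8) C.nil) C.nil)) C.nil)) C.nil))) C.nil)) C.nil))) (C.cons (nat_lit 14) (C.node (nat_lit 1) (nat_lit 2) (nat_lit 4) (C.cons (nat_lit 22) (C.node (nat_lit 1) (nat_lit 3) (nat_lit 4) (C.cons (nat_lit 282) (C.node (nat_lit 1) (nat_lit 3) (nat_lit 9) (C.cons (nat_lit 522) (C.node (nat_lit 1) (nat_lit 4) (nat_lit 9) (C.cons (nat_lit 530) (C.node (nat_lit 1) (nat_lit 8) (nat_lit 9) (C.cons (nat_lit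 770) (C.node (nat_lit 3) (nat_lit 4) (nat_lit 7) C.nil) C.nil)) C.nil)) C.nil)) (C.cons (nat_lit 26) (C.node (nat_lit 1) (nat_lit 3) (nat_lit 8) (C.cons (nat_lit 778) (C.node (nat_lit 1) (nat_lit 4) (nat_lit 8) (C.cons (nat_lit 274) (C.node (nat_lit 1) (nat_lit 4) (nat_lit 9) (C.cons (nat_lit 530) (C.node (nat_lit 2) (nat_lit 3) (nat_lit 9) (C.cons (nat_lit 524) (C.node (nat_lit 2) (nat_lit 5) (nat_lit 9) C.nil) C.nil)) C.nil)) C.nil)) (C.cons (nat_lit 266) (C.node (nat_lit 1) (nat_lit 3) (nat_lit 9) (C.cons (nat_lit 522) (C.node (nat_lit 2) (nat_lit 3) (nat_lit 4) (C.cons (nat_lit 28) (C.node (nat_lit 3) (nat_lit 4) (nat_lit 6) (C.cons (nat_lit 88) (C.node (nat_lit 1) (nat_lit 4) (nat_lit 8) C.nil) C.nil)) C.nil)) C.nil)) C.nil))) C.nil))) C.nil)) C.nil))) C.nil)) (C.cons (nat_lit 134) (C.node (nat_lit 2) (nat_lit 7) (nat_lit 9) (C.cons (nat_lit 644) (C.node (nat_lit 1) (nat_lit 6) (nat_lit 7) (C.cons (nat_lit 226) (C.node (nat_lit 1) (nat_lit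 5) (nat_lit 9) (C.cons (nat_lit 546) (C.node (nat_lit 1) (nat_lit 6) (nat_lit 9) (C.cons (nat_lit 578) (C.node (nat_lit 1) (nat_lit 7) (nat_lit 9) (C.cons (nat_lit 642)
  (C.node (nat_lit 4) (nat_lit 6) (nat_lit 7) (C.cons (nat_lit 208) (C.node (nat_lit 5) (nat_lit 7) (nat_lit 9) (C.cons (nat_lit 672) (C.node (nat_lit 2) (nat_lit 5) (nat_lit 6) C.nil) C.nil)) C.nil)) C.nil)) C.nil)) C.nil)) (C.cons (nat_lit 194) (C.node (nat_lit 1) (nat_lit 5) (nat_lit 6) (C.cons (nat_lit 610) (C.node (nat_lit 1) (nat_lit 5) (nat_lit 7) (C.cons (nat_lit 162) (C.node (nat_lit 1) (nat_lit 7) (nat_lit 9) (C.cons (nat_lit 642) (C.node (nat_lit 2) (nat_lit 5) (nat_lit 6) (C.cons (nat_lit 100) (C.node (nat_lit 2) (nat_lit 5) (nat_lit 9) (C.cons (nat_lit 548) (C.node (nat_lit 5) (nat_lit 7) (nat_lit 9) C.nil) C.nil)) C.nil)) C.nil)) C.nil)) (C.cons (nat_lit 98) (C.node (nat_lit 1) (nat_lit 6) (nat_lit 9) (C.cons (nat_lit 578) (C.node (nat_lit 1) (nat_lit 5) (nat_lit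 7) (C.cons (nat_lit 674) (C.node (nat_lit 2) (nat_lit 5) (nat_lit 6) (C.cons (nat_lit 612) (C.miq (nat_lit 354646368) (nat_lit 207937805260859226505151425)) (C.cons (nat_lit 100) (C.node (nat_lit 2) (nat_lit 5) (nat_lit 9) (C.cons (nat_lit 548) (C.node (nat_lit 5) (nat_lit 6) (nat_lit 9) C.nil) C.nil)) C.nil))) (C.cons (nat_lit 162) (C.node (nat_lit 1) (nat_lit 5) (nat_lit 9) (C.cons (nat_lit 546) (C.node (nat_lit 1) (nat_lit 7) (nat_lit 9) C.nil) C.nil)) C.nil))) C.nil)) C.nil))) C.nil))) C.nil)) C.nil))) C.nil))) C.nil))) C.nil))) (List.cons (C.node (nat_lit 2) (nat_lit 3) (nat_lit 4) (C.cons (nat_lit 30) (C.miq (nat_lit 2185655056) (nat_lit 101567496280147905186300043)) (C.cons (nat_lit 28) (C.node (nat_lit 3) (nat_lit 4) (nat_lit 7) (C.cons (nat_lit 216) (C.miq (nat_lit 305399926) (nat_lit 33851454112004553735406529)) (C.cons (nat_lit 152) (C.node (nat_lit 1) (nat_lit 2) (nat_lit 3) (C.cons (nat_lit 526) (C.node (nat_lit 1) (nat_lit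 2) (nat_lit 4) (C.cons (nat_lit 22) (C.node (nat_lit 3) (nat_lit 8) (nat_lit 9) (C.cons (nat_lit 776) (C.node (nat_lit 1) (nat_lit 2) (nat_lit 6) (C.cons (nat_lit 198) (C.node (nat_lit 1) (nat_lit 5) (nat_lit 6) (C.cons (nat_lit 610) (C.miq (nat_lit 1361352304) (nat_lit 26606864400600368785195969)) (C.cons (nat_lit 98) (C.node (nat_lit 1) (nat_lit 6) (nat_lit 9) (C.cons (nat_lit 578) (C.node (nat_lit 3) (nat_lit 5) (nat_lit 7) (C.cons (nat_lit 232) (C.node (nat_lit 3) (nat_lit 5) (nat_lit 8) C.nil) C.nil)) C.nil)) C.nil))) (C.cons (nat_lit 70) (C.node (nat_lit 1) (nat_lit 2) (nat_lit 7) (C.cons (nat_lit 134) (C.node (nat_lit 1) (nat_lit 3) (nat_lit 4) (C.cons (nat_lit 282) (C.node (nat_lit 1) (nat_lit 4) (nat_lit 9) (C.cons (nat_lit 530) (C.node (nat_lit 3) (nat_lit 4) (nat_lit 6) C.nil) C.nil)) (C.cons (nat_lit 26) (C.node (nat_lit 1) (nat_lit 3) (nat_lit 8) (C.cons (nat_lit 266) (C.node (nat_lit 1) (nat_lit 4) (nat_lit 8) (C.cons (nat_lit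 786) (C.node (nat_lit 2) (nat_lit 4) (nat_lit 8) C.nil) C.nil)) C.nil)) C.nil))) C.nil)) C.nil))) C.nil)) C.nil)) (C.cons (nat_lit 14) (C.node (nat_lit 2) (nat_lit 3) (nat_lit 9) (C.cons (nat_lit 524) (C.node (nat_lit 1) (nat_lit 2) (nat_lit 4) (C.cons (nat_lit 534) (C.node (nat_lit 2) (nat_lit 4) (nat_lit 8) (C.cons (nat_lit 276) (C.node (nat_lit 2) (nat_lit 8) (nat_lit 9) (C.cons (nat_lit 772) (C.node (nat_lit 4) (nat_lit 8) (nat_lit 9) (C.cons (nat_lit 784) (C.node (nat_lit 2) (nat_lit 6) (nat_lit 9) (C.cons (nat_lit 580) (C.node (nat_lit 4) (nat_lit 3) (nat_lit 6) (C.cons (nat_lit 88) (C.node (nat_lit 1) (nat_lit 4) (nat_lit 3) C.nil) C.nil)) C.nil)) C.nil)) C.nil)) C.nil)) (C.cons (nat_lit 22) (C.node (nat_lit 1) (nat_lit 3) (nat_lit 4) (C.cons (nat_lit 282) (C.node (nat_lit 1) (nat_lit 3) (nat_lit 9) (C.cons (nat_lit 522) (C.node (nat_lit 1) (nat_lit 4) (nat_lit 9) (C.cons (nat_lit 530) (C.node (nat_lit 1) (nat_lit 8) (nat_lit 9) (C.cons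 (nat_lit 770) (C.node (nat_lit 2) (nat_lit 4) (nat_lit 8) C.nil) C.nil)) C.nil)) C.nil)) (C.cons (nat_lit 26) (C.node (nat_lit 1) (nat_lit 3) (nat_lit 8) (C.cons (nat_lit 778) (C.node (nat_lit 1) (nat_lit 4) (nat_lit 8) (C.cons (nat_lit 274) (C.node (nat_lit 1) (nat_lit 4) (nat_lit 9) (C.cons (nat_lit 530)
  (C.node (nat_lit 2) (nat_lit 4) (nat_lit 8) C.nil) C.nil)) C.nil)) (C.cons (nat_lit 266) (C.node (nat_lit 1) (nat_lit 3) (nat_lit 9) (C.cons (nat_lit 522) (C.node (nat_lit 1) (nat_lit 2) (nat_lit 6) C.nil) C.nil)) C.nil))) C.nil))) C.nil))) C.nil)) C.nil))) C.nil))) C.nil))) (List.cons (C.node (nat_lit 3) (nat_lit 8) (nat_lit 9) (C.cons (nat_lit 776) (C.node (nat_lit 1) (nat_lit 2) (nat_lit 6) (C.cons (nat_lit 198) (C.node (nat_lit 1) (nat_lit 5) (nat_lit 6) (C.cons (nat_lit 610) (C.miq (nat_lit 1361352304) (nat_lit 26606864400600368785195969)) (C.cons (nat_lit 98) (C.node (nat_lit 1) (nat_lit 6) (nat_lit 9) (C.cons (nat_lit 578) (C.node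 (nat_lit 1) (nat_lit 5) (nat_lit 7) (C.cons (nat_lit 674) (C.miq (nat_lit 1361287008) (nat_lit 635905477504387871341872065)) (C.cons (nat_lit 162) (C.node (nat_lit 1) (nat_lit 5) (nat_lit 9) (C.cons (nat_lit 546) (C.node (nat_lit 1) (nat_lit 7) (nat_lit 9) (C.cons (nat_lit 642) (C.node (nat_lit 1) (nat_lit 4) (nat_lit 9) C.nil) C.nil)) C.nil)) C.nil))) C.nil)) C.nil))) (C.cons (nat_lit 70) (C.node (nat_lit 1) (nat_lit 2) (nat_lit 7) (C.cons (nat_lit 134) (C.node (nat_lit 1) (nat_lit 3) (nat_lit 4) (C.cons (nat_lit 282) (C.node (nat_lit 1) (nat_lit 4) (nat_lit 9) (C.cons (nat_lit 530) (C.node (nat_lit 1) (nat_lit 8) (nat_lit 9) (C.cons (nat_lit 770) (C.node (nat_lit 2) (nat_lit 3) (nat_lit 4) (C.cons (nat_lit 28) (C.node (nat_lit 2) (nat_lit 3) (nat_lit 8) C.nil) C.nil)) C.nil)) C.nil)) (C.cons (nat_lit 26) (C.node (nat_lit 1) (nat_lit 3) (nat_lit 8) (C.cons (nat_lit 266) (C.node (nat_lit 1) (nat_lit 4) (nat_lit 8) (C.cons (nat_lit 786) (C.node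 (nat_lit 2) (nat_lit 4) (nat_lit 9) (C.cons (nat_lit 532) (C.node (nat_lit 2) (nat_lit 8) (nat_lit 9) C.nil) C.nil)) (C.cons (nat_lit 274) (C.node (nat_lit 1) (nat_lit 6) (nat_lit 7) C.nil) C.nil))) C.nil)) C.nil))) C.nil)) C.nil))) C.nil)) List.nil)))))))))

theorem ok10_37 : okL par10 (nat_lit 46) c10_37 (nat_lit 37) = true := by decide +kernel

noncomputable def c10_46 : List C :=
  (List.cons (C.node (nat_lit 1) (nat_lit 3) (nat_lit 6) (C.cons (nat_lit 586) (C.node (nat_lit 1) (nat_lit 2) (nat_lit 3) (C.cons (nat_lit 30) (C.node (nat_lit 1) (nat_lit 3) (nat_lit 8) (C.cons (nat_lit 266) (C.node (nat_lit 1) (nat_lit 2) (nat_lit 6) (C.cons (nat_lit 198) (C.node (nat_lit 1) (nat_lit 2) (nat_lit 9) (C.cons (nat_lit 518) (C.node (nat_lit 1) (nat_lit 5) (nat_lit 6) (C.cons (nat_lit 98) (C.node (nat_lit 1) (nat_lit 5) (nat_lit 7) (C.cons (nat_lit 674) (C.miq (nat_lit 1361287008) (nat_lit 36278270975531800687608769)) (C.cons (nat_lit 162) (C.node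 (nat_lit 1) (nat_lit 5) (nat_lit 9) (C.cons (nat_lit 546) (C.node (nat_lit 1) (nat_lit 7) (nat_lit 8) (C.cons (nat_lit 402) (C.miq (nat_lit 2437374752) (nat_lit 486005906971080228322213965)) (C.cons (nat_lit 386) (C.node (nat_lit 1) (nat_lit 4) (nat_lit 7) (C.cons (nat_lit 658) (C.node (nat_lit 1) (nat_lit 4) (nat_lit 8) (C.cons (nat_lit 274) (C.node (nat_lit 1) (nat_lit 8) (nat_lit 9) (C.cons (nat_lit 770) (C.node (nat_lit 2) (nat_lit 3) (nat_lit 5) (C.cons (nat_lit 172) (C.miq (nat_lit 2535658502) (nat_lit 207946050950954586477494355)) (C.cons (nat_lit 44) (C.node (nat_lit 2) (nat_lit 4) (nat_lit 5) (C.cons (nat_lit 116) (C.miq (nat_lit 2518946567) (nat_lit 140247533197842152225570955)) (C.cons (nat_lit 52) (C.node (nat_lit 2) (nat_lit 5) (nat_lit 6) (C.cons (nat_lit 612) (C.miq (nat_lit 1377015408) (nat_lit 36278270958080352135611329)) (C.cons (nat_lit 100) (C.node (nat_lit 5) (nat_lit 6) (nat_lit 9) (C.cons (nat_lit 608) (C.node (nat_lit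 2) (nat_lit 5) (nat_lit 7) (C.cons (nat_lit 676) (C.miq (nat_lit 1377081184) (nat_lit 36278270976094750641423297)) (C.cons (nat_lit 164) (C.node (nat_lit 2) (nat_lit 5) (nat_lit 9) (C.cons (nat_lit 548) (C.node (nat_lit 5) (nat_lit 7) (nat_lit 9) (C.cons (nat_lit 672) (C.node (nat_lit 2) (nat_lit 6) (nat_lit 8) (C.cons (nat_lit 340) (C.miq (nat_lit 2518946567) (nat_lit 411046916791519087359754379)) (C.cons (nat_lit 324) (C.node (nat_lit 2) (nat_lit 8) (nat_lit 9) (C.cons (nat_lit 788) (C.miq (nat_lit 2182583344) (nat_lit 239385039826553821977051705)) (C.cons (nat_lit 780) (C.miq (nat_lit 2182517568) (nat_lit 239385039824302022159696441)) C.nil))) C.nil))) C.nil)) C.nil)) C.nil))) C.nil)) C.nil))) C.nil))) C.nil))) C.nil)) C.nil)) (C.cons (nat_lit 146) (C.miq (nat_lit 2437374752) (nat_lit 176520897149735159597432909)) C.nil))) C.nil))) C.nil)) C.nil))) C.nil)) C.nil)) (C.cons (nat_lit 70) (C.miq (nat_lit 1980893492) (nat_lit 84627556208390994424365625))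 C.nil))) C.nil)) (C.cons (nat_lit 14) (C.node (nat_lit 1) (nat_lit 2) (nat_lit 6) (C.cons (nat_lit 198) (C.miq (nat_lit 1125255527) (nat_lit 16927710199633569781253057)) (C.cons (nat_lit 70) (C.node (nat_lit 3) (nat_lit 7) (nat_lit 9) (C.cons (nat_lit 652) (C.miq (nat_lit 1110509462) (nat_lit 16926492596305498225640385)) (C.cons (nat_lit 648) (C.node (nat_lit 4) (nat_lit 6) (nat_lit 9) (C.cons (nat_lit 596) (C.miq (nat_lit 1918960787) (nat_lit 84627371512392619225907769)) (C.cons (nat_lit 592) (C.node (nat_lit 4) (nat_lit 7) (nat_lit 9) (C.cons (nat_lit 658) (C.miq (nat_lit 1093826912) (nat_lit 16927710224684842700571585)) (C.cons (nat_lit 656) (C.node (nat_lit 1) (nat_lit 2) (nat_lit 4) (C.cons (nat_lit 534) (C.node (nat_lit 1) (nat_lit 2) (nat_lit 7) (C.cons (nat_lit 134) (C.node (nat_lit 1) (nat_lit 8) (nat_lit 9) (C.cons (nat_lit 770) (C.node (nat_lit 4) (nat_lit 8) (nat_lit 9) (C.cons (nat_lit 784) (C.node (nat_lit 1) (nat_lit 3) (nat_lit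 4) (C.cons (nat_lit 282) (C.node (nat_lit 1) (nat_lit 4) (nat_lit 7) (C.cons (nat_lit 146) (C.node (nat_lit 1) (nat_lit 7) (nat_lit 8) (C.cons (nat_lit 386) (C.ref (nat_lit 39) (nat_lit 654820258320)) C.nil)) C.nil)) (C.cons (nat_lit 26) (C.node (nat_lit 1) (nat_lit 3) (nat_lit 8) (C.cons (nat_lit 266) (C.node (nat_lit 1) (nat_lit 4) (nat_lit 7) (C.cons (nat_lit 402) (C.node (nat_lit 2) (nat_lit 6) (nat_lit 8) (C.cons (nat_lit 340) (C.miq (nat_lit 826410886) (nat_lit 645567808112632403290489793)) (C.cons (nat_lit 324)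
  (C.node (nat_lit 2) (nat_lit 7) (nat_lit 8) (C.cons (nat_lit 396) (C.miq (nat_lit 1177030711) (nat_lit 391699381169620237649969291)) (C.cons (nat_lit 388) (C.node (nat_lit 3) (nat_lit 4) (nat_lit 7) (C.cons (nat_lit 216) (C.miq (nat_lit 558041206) (nat_lit 31433491792310878898488257)) (C.cons (nat_lit 152) (C.node (nat_lit 1) (nat_lit 5) (nat_lit 6) (C.cons (nat_lit 226) (C.node (nat_lit 1) (nat_lit 5) (nat_lit 9) (C.cons (nat_lit 546) (C.node (nat_lit 1) (nat_lit 7) (nat_lit 9) (C.cons (nat_lit 642) (C.node (nat_lit 2) (nat_lit 7) (nat_lit 6) (C.cons (nat_lit 196) (C.node (nat_lit 4) (nat_lit 5) (nat_lit 7) (C.cons (nat_lit 176) (C.node (nat_lit 4) (nat_lit 7) (nat_lit 6) C.nil) C.nil)) C.nil)) C.nil)) C.nil)) (C.cons (nat_lit 98) (C.node (nat_lit 1) (nat_lit 7) (nat_lit 6) (C.cons (nat_lit 194) (C.node (nat_lit 1) (nat_lit 5) (nat_lit 7) (C.cons (nat_lit 674) (C.node (nat_lit 2) (nat_lit 7) (nat_lit 9) (C.cons (nat_lit 644) (C.node (nat_lit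 2) (nat_lit 5) (nat_lit 9) (C.cons (nat_lit 612) (C.miq (nat_lit 622029168) (nat_lit 50776304995373681537123265)) (C.cons (nat_lit 548) (C.node (nat_lit 2) (nat_lit 4) (nat_lit 8) C.nil) C.nil))) C.nil)) (C.cons (nat_lit 162) (C.node (nat_lit 1) (nat_lit 5) (nat_lit 9) (C.cons (nat_lit 546) (C.node (nat_lit 1) (nat_lit 7) (nat_lit 9) (C.cons (nat_lit 642) (C.node (nat_lit 2) (nat_lit 7) (nat_lit 6) C.nil) C.nil)) C.nil)) C.nil))) C.nil)) C.nil))) C.nil))) C.nil))) C.nil))) (C.cons (nat_lit 146) (C.node (nat_lit 1) (nat_lit 4) (nat_lit 8) (C.cons (nat_lit 274) (C.node (nat_lit 1) (nat_lit 7) (nat_lit 8) (C.cons (nat_lit 386) (C.node (nat_lit 1) (nat_lit 5) (nat_lit 6) (C.cons (nat_lit 226) (C.node (nat_lit 1) (nat_lit 5) (nat_lit 9) (C.cons (nat_lit 546) (C.node (nat_lit 1) (nat_lit 7) (nat_lit 9) (C.cons (nat_lit 642) (C.node (nat_lit 2) (nat_lit 6) (nat_lit 7) (C.cons (nat_lit 196) (C.node (nat_lit 2) (nat_lit 3) (nat_lit 4) (C.cons (nat_lit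 284) (C.node (nat_lit 2) (nat_lit 3) (nat_lit 9) (C.cons (nat_lit 524) (C.node (nat_lit 2) (nat_lit 4) (nat_lit 5) C.nil) C.nil)) (C.cons (nat_lit 28) (C.node (nat_lit 2) (nat_lit 4) (nat_lit 5) (C.cons (nat_lit 116) (C.node (nat_lit 2) (nat_lit 4) (nat_lit 8) C.nil) C.nil)) C.nil))) C.nil)) C.nil)) C.nil)) (C.cons (nat_lit 98) (C.node (nat_lit 1) (nat_lit 6) (nat_lit 7) (C.cons (nat_lit 194) (C.node (nat_lit 1) (nat_lit 5) (nat_lit 7) (C.cons (nat_lit 674) (C.node (nat_lit 2) (nat_lit 7) (nat_lit 9) (C.cons (nat_lit 644) (C.node (nat_lit 2) (nat_lit 5) (nat_lit 9) (C.cons (nat_lit 612) (C.miq (nat_lit 827459478) (nat_lit 356634537224737198784644033)) (C.cons (nat_lit 548) (C.node (nat_lit 2) (nat_lit 6) (nat_lit 9) C.nil) C.nil))) C.nil)) (C.cons (nat_lit 162) (C.node (nat_lit 1) (nat_lit 5) (nat_lit 9) (C.cons (nat_lit 546) (C.node (nat_lit 1) (nat_lit 7) (nat_lit 9) (C.cons (nat_lit 642) (C.node (nat_lit 2) (nat_lit 6) (nat_lit 9) C.nil)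 C.nil)) C.nil)) C.nil))) C.nil)) C.nil))) C.nil)) C.nil)) C.nil))) C.nil)) C.nil))) C.nil)) C.nil)) C.nil)) (C.cons (nat_lit 22) (C.node (nat_lit 1) (nat_lit 2) (nat_lit 7) (C.cons (nat_lit 646) (C.node (nat_lit 1) (nat_lit 5) (nat_lit 9) (C.cons (nat_lit 546) (C.node (nat_lit 5) (nat_lit 7) (nat_lit 9) (C.cons (nat_lit 672) (C.node (nat_lit 1) (nat_lit 3) (nat_lit 4) (C.cons (nat_lit 282) (C.node (nat_lit 1) (nat_lit 4) (nat_lit 7) (C.cons (nat_lit 146) (C.node (nat_lit 1) (nat_lit 4) (nat_lit 9) (C.cons (nat_lit 530) (C.node (nat_lit 1) (nat_lit 7) (nat_lit 8) (C.cons (nat_lit 386) (C.node (nat_lit 1) (nat_lit 8) (nat_lit 9) (C.cons (nat_lit 770) (C.node (nat_lit 2) (nat_lit 3) (nat_lit 4) (C.cons (nat_lit 28) (C.node (nat_lit 1) (nat_lit 5) (nat_lit 6) (C.cons (nat_lit 226) (C.node (nat_lit 2) (nat_lit 6) (nat_lit 7) (C.cons (nat_lit 196) (C.node (nat_lit 2) (nat_lit 6) (nat_lit 8) (C.cons (nat_lit 340) (C.node (nat_lit 2) (nat_lit 4)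 (nat_lit 5) (C.cons (nat_lit 52) (C.node (nat_lit 2) (nat_lit 4) (nat_lit 9) (C.cons (nat_lit 532) (C.node (nat_lit 2) (nat_lit 6) (nat_lit 5) C.nil) C.nil)) C.nil))
  (C.cons (nat_lit 324) (C.node (nat_lit 2) (nat_lit 6) (nat_lit 4) (C.cons (nat_lit 116) (C.node (nat_lit 2) (nat_lit 6) (nat_lit 9) (C.cons (nat_lit 580) (C.node (nat_lit 2) (nat_lit 5) (nat_lit 9) (C.cons (nat_lit 548) (C.node (nat_lit 6) (nat_lit 5) (nat_lit 9) C.nil) C.nil)) C.nil)) (C.cons (nat_lit 84) (C.node (nat_lit 2) (nat_lit 4) (nat_lit 5) (C.cons (nat_lit 52) (C.node (nat_lit 2) (nat_lit 6) (nat_lit 5) C.nil) C.nil)) C.nil))) C.nil))) C.nil)) (C.cons (nat_lit 98) (C.node (nat_lit 1) (nat_lit 5) (nat_lit 7) (C.cons (nat_lit 162) (C.node (nat_lit 1) (nat_lit 6) (nat_lit 7) (C.cons (nat_lit 194) (C.node (nat_lit 2) (nat_lit 6) (nat_lit 7) (C.cons (nat_lit 228) (C.node (nat_lit 2) (nat_lit 6) (nat_lit 9) (C.cons (nat_lit 580) (C.node (nat_lit 2) (nat_lit 7) (nat_lit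 8) C.nil) C.nil)) (C.cons (nat_lit 196) (C.node (nat_lit 2) (nat_lit 7) (nat_lit 8) (C.cons (nat_lit 396) (C.node (nat_lit 2) (nat_lit 7) (nat_lit 5) C.nil) C.nil)) C.nil))) C.nil)) C.nil)) C.nil))) C.nil)) C.nil)) C.nil)) C.nil)) C.nil)) (C.cons (nat_lit 26) (C.node (nat_lit 1) (nat_lit 3) (nat_lit 8) (C.cons (nat_lit 266) (C.node (nat_lit 1) (nat_lit 4) (nat_lit 7) (C.cons (nat_lit 402) (C.node (nat_lit 1) (nat_lit 4) (nat_lit 9) (C.cons (nat_lit 530) (C.node (nat_lit 1) (nat_lit 8) (nat_lit 9) (C.cons (nat_lit 770) (C.node (nat_lit 2) (nat_lit 6) (nat_lit 8) (C.cons (nat_lit 340) (C.miq (nat_lit 826410886) (nat_lit 26597788469942265840927681)) (C.cons (nat_lit 324) (C.node (nat_lit 2) (nat_lit 7) (nat_lit 8) (C.cons (nat_lit 396) (C.miq (nat_lit 1177030711) (nat_lit 391699381169620237649969291)) (C.cons (nat_lit 388) (C.node (nat_lit 3) (nat_lit 4) (nat_lit 7) (C.cons (nat_lit 216) (C.miq (nat_lit 558041206) (nat_lit 31433491792310878898488257))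 (C.cons (nat_lit 152) (C.node (nat_lit 1) (nat_lit 7) (nat_lit 6) (C.cons (nat_lit 226) (C.node (nat_lit 2) (nat_lit 7) (nat_lit 6) (C.cons (nat_lit 196) (C.node (nat_lit 7) (nat_lit 6) (nat_lit 4) (C.cons (nat_lit 208) (C.node (nat_lit 7) (nat_lit 4) (nat_lit 5) C.nil) C.nil)) C.nil)) (C.cons (nat_lit 194) (C.node (nat_lit 1) (nat_lit 7) (nat_lit 5) (C.cons (nat_lit 162) (C.node (nat_lit 1) (nat_lit 6) (nat_lit 5) (C.cons (nat_lit 98) (C.node (nat_lit 2) (nat_lit 7) (nat_lit 6) C.nil) C.nil)) C.nil)) C.nil))) C.nil))) C.nil))) C.nil))) C.nil)) C.nil)) (C.cons (nat_lit 146) (C.node (nat_lit 1) (nat_lit 7) (nat_lit 8) (C.cons (nat_lit 386) (C.node (nat_lit 1) (nat_lit 4) (nat_lit 8) (C.cons (nat_lit 786) (C.node (nat_lit 2) (nat_lit 4) (nat_lit 9) (C.cons (nat_lit 532) (C.node (nat_lit 2) (nat_lit 3) (nat_lit 9) (C.cons (nat_lit 780) (C.miq (nat_lit 1635910803) (nat_lit 356634537208975081136194105)) (C.cons (nat_lit 524) (C.node (nat_lit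 2) (nat_lit 8) (nat_lit 9) (C.cons (nat_lit 772) (C.node (nat_lit 3) (nat_lit 8) (nat_lit 9) (C.cons (nat_lit 776) (C.node (nat_lit 1) (nat_lit 5) (nat_lit 6) (C.cons (nat_lit 226) (C.node (nat_lit 2) (nat_lit 6) (nat_lit 7) (C.cons (nat_lit 196) (C.node (nat_lit 2) (nat_lit 6) (nat_lit 8) (C.cons (nat_lit 340) (C.node (nat_lit 2) (nat_lit 3) (nat_lit 4) C.nil) (C.cons (nat_lit 324) (C.node (nat_lit 2) (nat_lit 6) (nat_lit 4) C.nil) C.nil))) C.nil)) (C.cons (nat_lit 98) (C.node (nat_lit 1) (nat_lit 5) (nat_lit 7) C.nil) C.nil))) C.nil)) C.nil)) C.nil))) C.nil)) (C.cons (nat_lit 274) (C.node (nat_lit 1) (nat_lit 4) (nat_lit 9) (C.cons (nat_lit 530) (C.node (nat_lit 1) (nat_lit 8) (nat_lit 9) (C.cons (nat_lit 770) (C.node (nat_lit 1) (nat_lit 5) (nat_lit 6) (C.cons (nat_lit 226) (C.node (nat_lit 2) (nat_lit 6) (nat_lit 7) (C.cons (nat_lit 196) (C.node (nat_lit 2) (nat_lit 6) (nat_lit 8) (C.cons (nat_lit 340) (C.node (nat_lit 2) (nat_lit 3)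 (nat_lit 4) (C.cons (nat_lit 28) (C.node (nat_lit 2) (nat_lit 4) (nat_lit 5) C.nil) C.nil)) (C.cons (nat_lit 324) (C.node (nat_lit 2) (nat_lit 6) (nat_lit 4) (C.cons (nat_lit 116) (C.node (nat_lit 2) (nat_lit 6) (nat_lit 9) C.nil) C.nil)) C.nil))) C.nil)) (C.cons (nat_lit 98) (C.node (nat_lit 1) (nat_lit 5) (nat_lit 7) (C.cons (nat_lit 162)
  (C.node (nat_lit 2) (nat_lit 3) (nat_lit 9) C.nil) C.nil)) C.nil))) C.nil)) C.nil)) C.nil))) C.nil)) C.nil))) C.nil)) C.nil))) C.nil)) C.nil)) (C.cons (nat_lit 134) (C.node (nat_lit 1) (nat_lit 2) (nat_lit 9) (C.cons (nat_lit 518) (C.node (nat_lit 1) (nat_lit 3) (nat_lit 4) (C.cons (nat_lit 282) (C.node (nat_lit 1) (nat_lit 4) (nat_lit 7) (C.cons (nat_lit 146) (C.node (nat_lit 1) (nat_lit 4) (nat_lit 9) (C.cons (nat_lit 530) (C.node (nat_lit 1) (nat_lit 7) (nat_lit 8) (C.cons (nat_lit 386) (C.ref (nat_lit 40) (nat_lit 654820258320)) C.nil)) C.nil)) C.nil)) (C.cons (nat_lit 26) (C.node (nat_lit 1) (nat_lit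 3) (nat_lit 8) (C.cons (nat_lit 266) (C.node (nat_lit 1) (nat_lit 4) (nat_lit 7) (C.cons (nat_lit 402) (C.node (nat_lit 1) (nat_lit 4) (nat_lit 9) (C.cons (nat_lit 530) (C.node (nat_lit 1) (nat_lit 8) (nat_lit 9) (C.cons (nat_lit 770) (C.node (nat_lit 2) (nat_lit 6) (nat_lit 8) (C.cons (nat_lit 340) (C.miq (nat_lit 826410886) (nat_lit 26597788469942265840927681)) (C.cons (nat_lit 324) (C.node (nat_lit 2) (nat_lit 7) (nat_lit 8) (C.cons (nat_lit 396) (C.miq (nat_lit 1177030711) (nat_lit 391699381169620237649969291)) (C.cons (nat_lit 388) (C.node (nat_lit 3) (nat_lit 4) (nat_lit 7) (C.cons (nat_lit 216) (C.miq (nat_lit 558041206) (nat_lit 31433491792310878898488257)) (C.cons (nat_lit 152) (C.node (nat_lit 1) (nat_lit 7) (nat_lit 6) (C.cons (nat_lit 226) (C.node (nat_lit 1) (nat_lit 7) (nat_lit 9) (C.cons (nat_lit 642) (C.node (nat_lit 1) (nat_lit 5) (nat_lit 9) (C.cons (nat_lit 546) (C.node (nat_lit 2) (nat_lit 7) (nat_lit 6) (C.cons (nat_lit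 196) (C.node (nat_lit 7) (nat_lit 6) (nat_lit 4) (C.cons (nat_lit 208) (C.node (nat_lit 7) (nat_lit 6) (nat_lit 3) C.nil) C.nil)) C.nil)) C.nil)) C.nil)) (C.cons (nat_lit 194) (C.node (nat_lit 1) (nat_lit 6) (nat_lit 5) (C.cons (nat_lit 98) (C.node (nat_lit 1) (nat_lit 7) (nat_lit 5) (C.cons (nat_lit 674) (C.node (nat_lit 2) (nat_lit 5) (nat_lit 9) (C.cons (nat_lit 612) (C.miq (nat_lit 622029168) (nat_lit 50776304995373681537123265)) C.nil)) (C.cons (nat_lit 162) (C.node (nat_lit 2) (nat_lit 7) (nat_lit 9) C.nil) C.nil))) C.nil)) C.nil))) C.nil))) C.nil))) C.nil))) C.nil)) C.nil)) (C.cons (nat_lit 146) (C.node (nat_lit 1) (nat_lit 7) (nat_lit 8) (C.cons (nat_lit 386) (C.ref (nat_lit 41) (nat_lit 654820258320)) C.nil)) C.nil))) C.nil)) C.nil))) C.nil)) C.nil))) C.nil))) C.nil))) C.nil))) C.nil))) C.nil))) C.nil))) (C.cons (nat_lit 74) (C.node (nat_lit 3) (nat_lit 6) (nat_lit 9) (C.cons (nat_lit 584) (C.node (nat_lit 1) (nat_lit 7) (nat_lit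 8) (C.cons (nat_lit 402) (C.node (nat_lit 4) (nat_lit 7) (nat_lit 9) (C.cons (nat_lit 656) (C.node (nat_lit 1) (nat_lit 3) (nat_lit 4) (C.cons (nat_lit 30) (C.miq (nat_lit 2167829536) (nat_lit 89478238085690463299109013)) (C.cons (nat_lit 26) (C.node (nat_lit 2) (nat_lit 6) (nat_lit 8) (C.cons (nat_lit 340) (C.miq (nat_lit 588537976) (nat_lit 31438343224639590023431105)) (C.cons (nat_lit 324) (C.node (nat_lit 2) (nat_lit 7) (nat_lit 8) (C.cons (nat_lit 396) (C.miq (nat_lit 1177030711) (nat_lit 391699381169620237649969291)) (C.cons (nat_lit 388) (C.node (nat_lit 3) (nat_lit 4) (nat_lit 7) (C.cons (nat_lit 216) (C.miq (nat_lit 558041206) (nat_lit 31433491792310878898488257)) (C.cons (nat_lit 152) (C.node (nat_lit 1) (nat_lit 2) (nat_lit 3) (C.cons (nat_lit 526) (C.node (nat_lit 1) (nat_lit 2) (nat_lit 4) (C.cons (nat_lit 22) (C.node (nat_lit 1) (nat_lit 3) (nat_lit 8) (C.cons (nat_lit 266) (C.node (nat_lit 1) (nat_lit 4) (nat_lit 9) (C.cons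 (nat_lit 530) (C.node (nat_lit 1) (nat_lit 8) (nat_lit 9) (C.cons (nat_lit 770) (C.node (nat_lit 3) (nat_lit 7) (nat_lit 9) (C.cons (nat_lit 648) (C.ref (nat_lit 38) (nat_lit 654568538640)) C.nil)) C.nil)) C.nil)) C.nil)) C.nil)) (C.cons (nat_lit 14) (C.node (nat_lit 1) (nat_lit 2) (nat_lit 4) (C.cons (nat_lit 534) (C.node (nat_lit 4) (nat_lit 6) (nat_lit 9) (C.cons (nat_lit 592) (C.node (nat_lit 4) (nat_lit 8) (nat_lit 9) (C.cons (nat_lit 784) (C.node (nat_lit 1) (nat_lit 2) (nat_lit 6) (C.cons (nat_lit 198)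
  (C.node (nat_lit 1) (nat_lit 5) (nat_lit 7) (C.cons (nat_lit 674) (C.miq (nat_lit 1361287008) (nat_lit 16935457861697733892309953)) (C.cons (nat_lit 162) (C.node (nat_lit 1) (nat_lit 7) (nat_lit 9) (C.cons (nat_lit 642) (C.node (nat_lit 1) (nat_lit 6) (nat_lit 5) (C.cons (nat_lit 610) (C.miq (nat_lit 1361352304) (nat_lit 645576884043290506234758081)) (C.cons (nat_lit 98) (C.node (nat_lit 1) (nat_lit 6) (nat_lit 9) (C.cons (nat_lit 578) (C.node (nat_lit 1) (nat_lit 5) (nat_lit 9) (C.cons (nat_lit 546) (C.node (nat_lit 2) (nat_lit 6) (nat_lit 4) (C.cons (nat_lit 116) (C.miq (nat_lit 1731469573) (nat_lit 183758864459468827289780519)) (C.cons (nat_lit 84) (C.node (nat_lit 2) (nat_lit 4) (nat_lit 5) (C.cons (nat_lit 52) (C.node (nat_lit 2) (nat_lit 6) (nat_lit 5) (C.cons (nat_lit 612) (C.miq (nat_lit 1377015408) (nat_lit 16935457844246285340312513)) (C.cons (nat_lit 100) (C.node (nat_lit 7) (nat_lit 6) (nat_lit 4) C.nil) C.nil))) C.nil)) C.nil)))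 C.nil)) C.nil)) C.nil))) C.nil)) C.nil))) (C.cons (nat_lit 70) (C.node (nat_lit 1) (nat_lit 2) (nat_lit 7) (C.cons (nat_lit 134) (C.ref (nat_lit 37) (nat_lit 654568538640)) C.nil)) C.nil))) C.nil)) C.nil)) (C.cons (nat_lit 22) (C.node (nat_lit 1) (nat_lit 4) (nat_lit 9) (C.cons (nat_lit 530) (C.node (nat_lit 1) (nat_lit 3) (nat_lit 8) (C.cons (nat_lit 778) (C.node (nat_lit 2) (nat_lit 8) (nat_lit 9) (C.cons (nat_lit 788) (C.miq (nat_lit 405223744) (nat_lit 469065782326893281738555961)) (C.cons (nat_lit 772) (C.node (nat_lit 4) (nat_lit 8) (nat_lit 9) (C.cons (nat_lit 784) (C.ref (nat_lit 33) (nat_lit 640831353360)) C.nil)) C.nil))) (C.cons (nat_lit 266) (C.node (nat_lit 1) (nat_lit 3) (nat_lit 9) (C.cons (nat_lit 522) (C.node (nat_lit 1) (nat_lit 8) (nat_lit 9) (C.cons (nat_lit 770) (C.ref (nat_lit 35) (nat_lit 640831353360)) C.nil)) C.nil)) C.nil))) C.nil)) C.nil))) C.nil))) C.nil))) C.nil))) C.nil))) C.nil))) C.nil)) (C.cons (nat_lit 386)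 (C.node (nat_lit 1) (nat_lit 4) (nat_lit 7) (C.cons (nat_lit 658) (C.node (nat_lit 1) (nat_lit 2) (nat_lit 4) (C.cons (nat_lit 30) (C.miq (nat_lit 2436264992) (nat_lit 89478238157748057337036949)) (C.cons (nat_lit 22) (C.node (nat_lit 1) (nat_lit 2) (nat_lit 7) (C.cons (nat_lit 198) (C.miq (nat_lit 873597302) (nat_lit 26597788590977605328831425)) (C.cons (nat_lit 134) (C.node (nat_lit 3) (nat_lit 7) (nat_lit 9) (C.cons (nat_lit 652) (C.miq (nat_lit 1634862227) (nat_lit 161997480251019234244297273)) (C.cons (nat_lit 648) (C.node (nat_lit 4) (nat_lit 6) (nat_lit 9) (C.cons (nat_lit 596) (C.miq (nat_lit 826410902) (nat_lit 26597788469943365369332673)) (C.cons (nat_lit 592) (C.node (nat_lit 1) (nat_lit 2) (nat_lit 3) (C.cons (nat_lit 526) (C.node (nat_lit 1) (nat_lit 2) (nat_lit 6) (C.cons (nat_lit 70) (C.ref (nat_lit 42) (nat_lit 654820258320)) C.nil)) (C.cons (nat_lit 14) (C.node (nat_lit 1) (nat_lit 2) (nat_lit 6) (C.cons (nat_lit 582) (C.ref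 (nat_lit 42) (nat_lit 641083073040)) (C.cons (nat_lit 70) (C.node (nat_lit 1) (nat_lit 2) (nat_lit 9) (C.cons (nat_lit 518) (C.node (nat_lit 1) (nat_lit 3) (nat_lit 4) (C.cons (nat_lit 282) (C.node (nat_lit 1) (nat_lit 3) (nat_lit 9) (C.cons (nat_lit 522) (C.ref (nat_lit 40) (nat_lit 654568538640)) C.nil)) (C.cons (nat_lit 26) (C.node (nat_lit 1) (nat_lit 4) (nat_lit 8) (C.cons (nat_lit 274) (C.ref (nat_lit 41) (nat_lit 654568538640)) C.nil)) C.nil))) C.nil)) C.nil))) C.nil))) C.nil))) C.nil))) C.nil))) C.nil))) (C.cons (nat_lit 146) (C.node (nat_lit 4) (nat_lit 7) (nat_lit 9) (C.cons (nat_lit 656) (C.node (nat_lit 2) (nat_lit 3) (nat_lit 5) (C.cons (nat_lit 172) (C.node (nat_lit 2) (nat_lit 7) (nat_lit 8) (C.cons (nat_lit 388) (C.node (nat_lit 3) (nat_lit 7) (nat_lit 9) (C.cons (nat_lit 648) (C.node (nat_lit 2) (nat_lit 4) (nat_lit 5) (C.cons (nat_lit 116) (C.miq (nat_lit 1900359778) (nat_lit 60449463859837515030855757)) (C.cons (nat_lit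 52) (C.ref (nat_lit 43) (nat_lit 654820258320)) C.nil))) C.nil)) C.nil)) (C.cons (nat_lit 44) (C.node (nat_lit 2) (nat_lit 4) (nat_lit 5) (C.cons (nat_lit 116)
  (C.node (nat_lit 2) (nat_lit 6) (nat_lit 8) (C.cons (nat_lit 324) (C.node (nat_lit 4) (nat_lit 6) (nat_lit 9) (C.cons (nat_lit 592) (C.ref (nat_lit 43) (nat_lit 654568538640)) C.nil)) C.nil)) (C.cons (nat_lit 52) (C.node (nat_lit 2) (nat_lit 6) (nat_lit 8) (C.cons (nat_lit 340) (C.node (nat_lit 4) (nat_lit 6) (nat_lit 9) (C.cons (nat_lit 592) (C.node (nat_lit 2) (nat_lit 3) (nat_lit 4) (C.cons (nat_lit 30) (C.miq (nat_lit 2216124976) (nat_lit 176520897080492315325956173)) (C.cons (nat_lit 28) (C.node (nat_lit 2) (nat_lit 7) (nat_lit 8) (C.cons (nat_lit 396) (C.miq (nat_lit 321128326) (nat_lit 33851454068094457376670657)) (C.cons (nat_lit 388) (C.node (nat_lit 3) (nat_lit 4) (nat_lit 6) (C.cons (nat_lit 216) (C.miq (nat_lit 306382951) (nat_lit 33852487129672440952128449)) (C.cons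 (nat_lit 88) (C.node (nat_lit 1) (nat_lit 2) (nat_lit 3) (C.cons (nat_lit 526) (C.node (nat_lit 1) (nat_lit 2) (nat_lit 4) (C.cons (nat_lit 22) (C.node (nat_lit 2) (nat_lit 3) (nat_lit 7) (C.cons (nat_lit 140) (C.node (nat_lit 2) (nat_lit 3) (nat_lit 8) (C.cons (nat_lit 268) (C.node (nat_lit 2) (nat_lit 4) (nat_lit 9) (C.cons (nat_lit 532) (C.node (nat_lit 2) (nat_lit 8) (nat_lit 9) (C.cons (nat_lit 772) (C.node (nat_lit 3) (nat_lit 7) (nat_lit 9) (C.cons (nat_lit 648) (C.node (nat_lit 3) (nat_lit 8) (nat_lit 9) (C.cons (nat_lit 776) (C.node (nat_lit 2) (nat_lit 7) (nat_lit 9) (C.cons (nat_lit 644) (C.node (nat_lit 3) (nat_lit 4) (nat_lit 7) (C.cons (nat_lit 152) (C.node (nat_lit 1) (nat_lit 3) (nat_lit 4) C.nil) C.nil)) C.nil)) C.nil)) C.nil)) C.nil)) C.nil)) C.nil)) C.nil)) C.nil)) (C.cons (nat_lit 14) (C.node (nat_lit 1) (nat_lit 2) (nat_lit 4) (C.cons (nat_lit 534) (C.node (nat_lit 4) (nat_lit 8) (nat_lit 9) (C.cons (nat_lit 784) (C.node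 (nat_lit 1) (nat_lit 2) (nat_lit 6) (C.cons (nat_lit 198) (C.node (nat_lit 1) (nat_lit 5) (nat_lit 6) (C.cons (nat_lit 610) (C.miq (nat_lit 1361352304) (nat_lit 645576884043290506234758081)) (C.cons (nat_lit 98) (C.node (nat_lit 1) (nat_lit 6) (nat_lit 9) (C.cons (nat_lit 578) (C.node (nat_lit 1) (nat_lit 5) (nat_lit 7) (C.cons (nat_lit 674) (C.miq (nat_lit 1361287008) (nat_lit 16935457861697733892309953)) (C.cons (nat_lit 162) (C.node (nat_lit 1) (nat_lit 5) (nat_lit 9) (C.cons (nat_lit 546) (C.node (nat_lit 1) (nat_lit 7) (nat_lit 9) (C.cons (nat_lit 642) (C.node (nat_lit 1) (nat_lit 3) (nat_lit 4) C.nil) C.nil)) C.nil)) C.nil))) C.nil)) C.nil))) (C.cons (nat_lit 70) (C.node (nat_lit 1) (nat_lit 2) (nat_lit 7) (C.cons (nat_lit 134) (C.node (nat_lit 1) (nat_lit 3) (nat_lit 4) (C.cons (nat_lit 282) (C.node (nat_lit 1) (nat_lit 3) (nat_lit 9) (C.cons (nat_lit 522) (C.node (nat_lit 1) (nat_lit 8) (nat_lit 9) (C.cons (nat_lit 770) (C.node (nat_lit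 3) (nat_lit 4) (nat_lit 7) (C.cons (nat_lit 152) (C.node (nat_lit 1) (nat_lit 6) (nat_lit 7) C.nil) C.nil)) C.nil)) C.nil)) (C.cons (nat_lit 26) (C.node (nat_lit 1) (nat_lit 4) (nat_lit 8) (C.cons (nat_lit 274) (C.node (nat_lit 1) (nat_lit 3) (nat_lit 8) (C.cons (nat_lit 778) (C.node (nat_lit 2) (nat_lit 3) (nat_lit 8) (C.cons (nat_lit 268) (C.node (nat_lit 2) (nat_lit 8) (nat_lit 9) C.nil) C.nil)) (C.cons (nat_lit 266) (C.node (nat_lit 1) (nat_lit 8) (nat_lit 9) C.nil) C.nil))) C.nil)) C.nil))) C.nil)) C.nil))) C.nil)) (C.cons (nat_lit 22) (C.node (nat_lit 2) (nat_lit 4) (nat_lit 9) (C.cons (nat_lit 532) (C.node (nat_lit 1) (nat_lit 3) (nat_lit 4) (C.cons (nat_lit 282) (C.node (nat_lit 1) (nat_lit 3) (nat_lit 9) (C.cons (nat_lit 522) (C.node (nat_lit 1) (nat_lit 4) (nat_lit 9) (C.cons (nat_lit 530) (C.node (nat_lit 1) (nat_lit 8) (nat_lit 9) (C.cons (nat_lit 770) (C.node (nat_lit 3) (nat_lit 4) (nat_lit 7) (C.cons (nat_lit 152) (C.node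 (nat_lit 4) (nat_lit 8) (nat_lit 9) (C.cons (nat_lit 784) (C.node (nat_lit 2) (nat_lit 3) (nat_lit 7) C.nil) C.nil)) C.nil)) C.nil)) C.nil)) C.nil)) (C.cons (nat_lit 26) (C.node (nat_lit 1) (nat_lit 3) (nat_lit 8) (C.cons (nat_lit 778) (C.node (nat_lit 1) (nat_lit 4) (nat_lit 8) (C.cons (nat_lit 274)
  (C.node (nat_lit 1) (nat_lit 4) (nat_lit 9) (C.cons (nat_lit 530) (C.node (nat_lit 2) (nat_lit 3) (nat_lit 8) (C.cons (nat_lit 268) (C.node (nat_lit 2) (nat_lit 8) (nat_lit 9) C.nil) C.nil)) C.nil)) C.nil)) (C.cons (nat_lit 266) (C.node (nat_lit 1) (nat_lit 3) (nat_lit 9) (C.cons (nat_lit 522) (C.node (nat_lit 1) (nat_lit 4) (nat_lit 8) (C.cons (nat_lit 786) (C.node (nat_lit 2) (nat_lit 3) (nat_lit 8) (C.cons (nat_lit 780) (C.miq (nat_lit 405162288) (nat_lit 411036309969974719066997305)) (C.cons (nat_lit 268) (C.node (nat_lit 2) (nat_lit 8) (nat_lit 9) (C.cons (nat_lit 772) (C.node (nat_lit 3) (nat_lit 8) (nat_lit 9) C.nil) C.nil)) C.nil)))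 (C.cons (nat_lit 274) (C.node (nat_lit 1) (nat_lit 4) (nat_lit 9) (C.cons (nat_lit 530) (C.node (nat_lit 1) (nat_lit 8) (nat_lit 9) C.nil) C.nil)) C.nil))) C.nil)) C.nil))) C.nil))) C.nil)) C.nil))) C.nil))) C.nil))) C.nil))) C.nil))) C.nil)) (C.cons (nat_lit 324) (C.node (nat_lit 2) (nat_lit 4) (nat_lit 6) (C.cons (nat_lit 596) (C.node (nat_lit 1) (nat_lit 2) (nat_lit 4) (C.cons (nat_lit 30) (C.miq (nat_lit 2484560432) (nat_lit 176520897152549909363884109)) (C.cons (nat_lit 22) (C.node (nat_lit 1) (nat_lit 2) (nat_lit 6) (C.cons (nat_lit 198) (C.miq (nat_lit 874580327) (nat_lit 26598932289109909033059265)) (C.cons (nat_lit 70) (C.node (nat_lit 3) (nat_lit 7) (nat_lit 9) (C.cons (nat_lit 652) (C.miq (nat_lit 843151712) (nat_lit 26598932312472332092507073)) (C.cons (nat_lit 648) (C.node (nat_lit 1) (nat_lit 2) (nat_lit 3) (C.cons (nat_lit 526) (C.node (nat_lit 1) (nat_lit 2) (nat_lit 7) (C.cons (nat_lit 134) (C.node (nat_lit 2) (nat_lit 8)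 (nat_lit 9) (C.cons (nat_lit 772) (C.node (nat_lit 3) (nat_lit 8) (nat_lit 9) (C.cons (nat_lit 776) (C.node (nat_lit 1) (nat_lit 3) (nat_lit 4) (C.cons (nat_lit 282) (C.node (nat_lit 1) (nat_lit 4) (nat_lit 9) (C.cons (nat_lit 530) (C.node (nat_lit 1) (nat_lit 8) (nat_lit 9) (C.cons (nat_lit 770) (C.node (nat_lit 2) (nat_lit 3) (nat_lit 4) (C.cons (nat_lit 28) (C.node (nat_lit 2) (nat_lit 4) (nat_lit 8) (C.cons (nat_lit 276) (C.node (nat_lit 4) (nat_lit 8) (nat_lit 9) C.nil) C.nil)) C.nil)) C.nil)) C.nil)) (C.cons (nat_lit 26) (C.node (nat_lit 1) (nat_lit 3) (nat_lit 8) (C.cons (nat_lit 266) (C.node (nat_lit 1) (nat_lit 4) (nat_lit 8) (C.cons (nat_lit 786) (C.node (nat_lit 1) (nat_lit 6) (nat_lit 7) (C.cons (nat_lit 226) (C.node (nat_lit 1) (nat_lit 5) (nat_lit 9) (C.cons (nat_lit 546) (C.node (nat_lit 1) (nat_lit 6) (nat_lit 9) C.nil) C.nil)) (C.cons (nat_lit 194) (C.node (nat_lit 2) (nat_lit 3) (nat_lit 8) C.nil) C.nil))) (C.cons (nat_lit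 274) (C.node (nat_lit 1) (nat_lit 4) (nat_lit 9) (C.cons (nat_lit 530) (C.node (nat_lit 1) (nat_lit 8) (nat_lit 9) (C.cons (nat_lit 770) (C.node (nat_lit 2) (nat_lit 3) (nat_lit 4) C.nil) C.nil)) C.nil)) C.nil))) C.nil)) C.nil))) C.nil)) C.nil)) C.nil)) (C.cons (nat_lit 14) (C.node (nat_lit 1) (nat_lit 2) (nat_lit 7) (C.cons (nat_lit 646) (C.node (nat_lit 2) (nat_lit 5) (nat_lit 9) (C.cons (nat_lit 548) (C.node (nat_lit 5) (nat_lit 7) (nat_lit 9) (C.cons (nat_lit 672) (C.node (nat_lit 1) (nat_lit 3) (nat_lit 4) (C.cons (nat_lit 282) (C.node (nat_lit 1) (nat_lit 3) (nat_lit 9) (C.cons (nat_lit 522) (C.node (nat_lit 1) (nat_lit 4) (nat_lit 9) (C.cons (nat_lit 530) (C.node (nat_lit 1) (nat_lit 8) (nat_lit 9) (C.cons (nat_lit 770) (C.node (nat_lit 2) (nat_lit 3) (nat_lit 4) (C.cons (nat_lit 28) (C.node (nat_lit 2) (nat_lit 4) (nat_lit 8) C.nil) C.nil)) C.nil)) C.nil)) C.nil)) (C.cons (nat_lit 26) (C.node (nat_lit 1) (nat_lit 3) (nat_lit 8) (C.cons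 (nat_lit 778) (C.node (nat_lit 1) (nat_lit 4) (nat_lit 8) (C.cons (nat_lit 274) (C.node (nat_lit 1) (nat_lit 4) (nat_lit 9) (C.cons (nat_lit 530) (C.node (nat_lit 2) (nat_lit 3) (nat_lit 9) C.nil) C.nil)) C.nil)) (C.cons (nat_lit 266) (C.node (nat_lit 1) (nat_lit 3) (nat_lit 9) (C.cons (nat_lit 522) (C.node (nat_lit 5) (nat_lit 6) (nat_lit 9) (C.cons (nat_lit 610) (C.node (nat_lit 1) (nat_lit 5) (nat_lit 7) (C.cons (nat_lit 162)
  (C.node (nat_lit 1) (nat_lit 6) (nat_lit 7) C.nil) C.nil)) C.nil)) C.nil)) C.nil))) C.nil))) C.nil)) C.nil)) (C.cons (nat_lit 134) (C.node (nat_lit 1) (nat_lit 2) (nat_lit 9) (C.cons (nat_lit 518) (C.node (nat_lit 1) (nat_lit 3) (nat_lit 4) (C.cons (nat_lit 282) (C.node (nat_lit 1) (nat_lit 3) (nat_lit 9) (C.cons (nat_lit 522) (C.node (nat_lit 1) (nat_lit 4) (nat_lit 9) (C.cons (nat_lit 530) (C.node (nat_lit 1) (nat_lit 8) (nat_lit 9) (C.cons (nat_lit 770) (C.node (nat_lit 2) (nat_lit 3) (nat_lit 4) (C.cons (nat_lit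 28) (C.node (nat_lit 2) (nat_lit 4) (nat_lit 8) (C.cons (nat_lit 276) (C.node (nat_lit 4) (nat_lit 8) (nat_lit 9) (C.cons (nat_lit 784) (C.node (nat_lit 1) (nat_lit 6) (nat_lit 7) C.nil) C.nil)) C.nil)) C.nil)) C.nil)) C.nil)) C.nil)) (C.cons (nat_lit 26) (C.node (nat_lit 1) (nat_lit 3) (nat_lit 8) (C.cons (nat_lit 778) (C.node (nat_lit 1) (nat_lit 4) (nat_lit 8) (C.cons (nat_lit 274) (C.node (nat_lit 1) (nat_lit 4) (nat_lit 9) (C.cons (nat_lit 530) (C.node (nat_lit 2) (nat_lit 3) (nat_lit 9) (C.cons (nat_lit 524) (C.node (nat_lit 2) (nat_lit 8) (nat_lit 9) (C.cons (nat_lit 772) (C.node (nat_lit 2) (nat_lit 3) (nat_lit 4) C.nil) C.nil)) C.nil)) C.nil)) C.nil)) (C.cons (nat_lit 266) (C.node (nat_lit 1) (nat_lit 3) (nat_lit 9) (C.cons (nat_lit 522) (C.node (nat_lit 1) (nat_lit 4) (nat_lit 8) (C.cons (nat_lit 786) (C.node (nat_lit 2) (nat_lit 3) (nat_lit 9) (C.cons (nat_lit 780) (C.miq (nat_lit 405162288) (nat_lit 391693496856140652271698489))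 (C.cons (nat_lit 524) (C.node (nat_lit 2) (nat_lit 8) (nat_lit 9) (C.cons (nat_lit 772) (C.node (nat_lit 3) (nat_lit 8) (nat_lit 9) C.nil) C.nil)) C.nil))) (C.cons (nat_lit 274) (C.node (nat_lit 1) (nat_lit 4) (nat_lit 9) (C.cons (nat_lit 530) (C.node (nat_lit 4) (nat_lit 8) (nat_lit 9) C.nil) C.nil)) C.nil))) C.nil)) C.nil))) C.nil))) C.nil)) C.nil))) C.nil))) C.nil))) C.nil))) C.nil))) (C.cons (nat_lit 84) (C.node (nat_lit 4) (nat_lit 6) (nat_lit 9) (C.cons (nat_lit 592) (C.node (nat_lit 2) (nat_lit 7) (nat_lit 8) (C.cons (nat_lit 396) (C.node (nat_lit 3) (nat_lit 7) (nat_lit 9) (C.cons (nat_lit 648) (C.ref (nat_lit 44) (nat_lit 654820258320)) C.nil)) (C.cons (nat_lit 388) (C.node (nat_lit 2) (nat_lit 3) (nat_lit 7) (C.cons (nat_lit 652) (C.ref (nat_lit 44) (nat_lit 590395548480)) (C.cons (nat_lit 140) (C.node (nat_lit 3) (nat_lit 7) (nat_lit 9) (C.cons (nat_lit 648) (C.node (nat_lit 1) (nat_lit 2) (nat_lit 3) (C.cons (nat_lit 526) (C.node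 (nat_lit 1) (nat_lit 2) (nat_lit 4) (C.cons (nat_lit 22) (C.ref (nat_lit 45) (nat_lit 654820258320)) C.nil)) (C.cons (nat_lit 30) (C.node (nat_lit 1) (nat_lit 3) (nat_lit 8) (C.cons (nat_lit 778) (C.miq (nat_lit 2014447924) (nat_lit 356635865621683383366976057)) (C.cons (nat_lit 266) (C.node (nat_lit 1) (nat_lit 3) (nat_lit 9) (C.cons (nat_lit 522) (C.node (nat_lit 1) (nat_lit 4) (nat_lit 8) (C.cons (nat_lit 786) (C.miq (nat_lit 1746012483) (nat_lit 356634537456110110638998073)) (C.cons (nat_lit 274) (C.node (nat_lit 1) (nat_lit 4) (nat_lit 9) (C.cons (nat_lit 530) (C.node (nat_lit 1) (nat_lit 8) (nat_lit 9) (C.cons (nat_lit 770) (C.node (nat_lit 2) (nat_lit 3) (nat_lit 8) (C.cons (nat_lit 780) (C.miq (nat_lit 1746995508) (nat_lit 356634648136574527126503993)) (C.cons (nat_lit 268) (C.node (nat_lit 2) (nat_lit 3) (nat_lit 9) (C.cons (nat_lit 524) (C.node (nat_lit 3) (nat_lit 8) (nat_lit 9) (C.cons (nat_lit 776) (C.node (nat_lit 2) (nat_lit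 4) (nat_lit 8) C.nil) C.nil)) C.nil)) C.nil))) C.nil)) C.nil)) C.nil))) C.nil)) C.nil))) (C.cons (nat_lit 14) (C.node (nat_lit 1) (nat_lit 2) (nat_lit 4) (C.cons (nat_lit 534) (C.ref (nat_lit 45) (nat_lit 654820196640)) (C.cons (nat_lit 22) (C.node (nat_lit 1) (nat_lit 3) (nat_lit 4) (C.cons (nat_lit 282) (C.node (nat_lit 1) (nat_lit 3) (nat_lit 9) (C.cons (nat_lit 522) (C.node (nat_lit 1) (nat_lit 4) (nat_lit 9) (C.cons (nat_lit 530) (C.node (nat_lit 1) (nat_lit 8) (nat_lit 9) (C.cons (nat_lit 770) (C.node (nat_lit 2) (nat_lit 3) (nat_lit 4) (C.cons (nat_lit 28)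
  (C.node (nat_lit 3) (nat_lit 4) (nat_lit 6) (C.cons (nat_lit 88) (C.node (nat_lit 3) (nat_lit 4) (nat_lit 7) C.nil) C.nil)) C.nil)) C.nil)) C.nil)) C.nil)) (C.cons (nat_lit 26) (C.node (nat_lit 1) (nat_lit 3) (nat_lit 8) (C.cons (nat_lit 778) (C.node (nat_lit 1) (nat_lit 4) (nat_lit 8) (C.cons (nat_lit 274) (C.node (nat_lit 1) (nat_lit 4) (nat_lit 9) (C.cons (nat_lit 530) (C.node (nat_lit 2) (nat_lit 3) (nat_lit 9) (C.cons (nat_lit 524) (C.node (nat_lit 3) (nat_lit 6) (nat_lit 7) (C.cons (nat_lit 200) (C.node (nat_lit 3) (nat_lit 4) (nat_lit 6) (C.cons (nat_lit 344) (C.node (nat_lit 2) (nat_lit 3) (nat_lit 4) C.nil) C.nil)) C.nil)) C.nil)) C.nil)) C.nil)) (C.cons (nat_lit 266) (C.node (nat_lit 1) (nat_lit 3) (nat_lit 9) (C.cons (nat_lit 522) (C.node (nat_lit 1) (nat_lit 4) (nat_lit 8) (C.cons (nat_lit 786) (C.node (nat_lit 2) (nat_lit 4) (nat_lit 9) (C.cons (nat_lit 532) (C.node (nat_lit 4) (nat_lit 7) (nat_lit 6) (C.cons (nat_lit 208)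 (C.node (nat_lit 4) (nat_lit 3) (nat_lit 7) (C.cons (nat_lit 408) (C.node (nat_lit 2) (nat_lit 4) (nat_lit 3) C.nil) C.nil)) C.nil)) C.nil)) (C.cons (nat_lit 274) (C.node (nat_lit 1) (nat_lit 4) (nat_lit 9) (C.cons (nat_lit 530) (C.node (nat_lit 1) (nat_lit 8) (nat_lit 9) (C.cons (nat_lit 770) (C.node (nat_lit 1) (nat_lit 5) (nat_lit 6) C.nil) C.nil)) C.nil)) C.nil))) C.nil)) C.nil))) C.nil))) C.nil))) C.nil)))) C.nil)) C.nil))) C.nil))) C.nil)) C.nil))) C.nil))) C.nil))) C.nil))) C.nil)) C.nil))) C.nil))) C.nil)) C.nil))) List.nil)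

theorem ok10_46 : okL par10 (nat_lit 47) c10_46 (nat_lit 46) = true := by decide +kernel

noncomputable def c10_47 : List C :=
  (List.cons (C.node (nat_lit 5) (nat_lit 8) (nat_lit 9) (C.cons (nat_lit 800) (C.node (nat_lit 1) (nat_lit 3) (nat_lit 5) (C.cons (nat_lit 106) (C.node (nat_lit 1) (nat_lit 6) (nat_lit 8) (C.cons (nat_lit 322) (C.node (nat_lit 3) (nat_lit 6) (nat_lit 9) (C.cons (nat_lit 584) (C.node (nat_lit 1) (nat_lit 4) (nat_lit 5) (C.cons (nat_lit 178) (C.node (nat_lit 1) (nat_lit 5) (nat_lit 9) (C.cons (nat_lit 546) (C.node (nat_lit 1) (nat_lit 7) (nat_lit 8) (C.cons (nat_lit 386) (C.node (nat_lit 4) (nat_lit 7) (nat_lit 9) (C.cons (nat_lit 656) (C.node (nat_lit 1) (nat_lit 6) (nat_lit 7) (C.cons (nat_lit 198) (C.node (nat_lit 1) (nat_lit 6) (nat_lit 9) (C.cons (nat_lit 578) (C.node (nat_lit 1) (nat_lit 7) (nat_lit 9) (C.cons (nat_lit 642) (C.node (nat_lit 5) (nat_lit 6) (nat_lit 7) (C.cons (nat_lit 224) (C.node (nat_lit 2)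 (nat_lit 3) (nat_lit 5) (C.cons (nat_lit 172) (C.node (nat_lit 2) (nat_lit 7) (nat_lit 8) (C.cons (nat_lit 388) (C.node (nat_lit 2) (nat_lit 7) (nat_lit 9) (C.cons (nat_lit 644) (C.node (nat_lit 3) (nat_lit 5) (nat_lit 8) (C.cons (nat_lit 296) (C.node (nat_lit 3) (nat_lit 7) (nat_lit 9) (C.cons (nat_lit 648) (C.node (nat_lit 5) (nat_lit 7) (nat_lit 8) (C.cons (nat_lit 416) (C.node (nat_lit 5) (nat_lit 7) (nat_lit 9) (C.cons (nat_lit 672) (C.node (nat_lit 2) (nat_lit 4) (nat_lit 5) (C.cons (nat_lit 116) (C.node (nat_lit 2) (nat_lit 5) (nat_lit 9) (C.cons (nat_lit 548) (C.node (nat_lit 2) (nat_lit 6) (nat_lit 8) (C.cons (nat_lit 324) (C.node (nat_lit 5) (nat_lit 6) (nat_lit 9) C.nil) C.nil)) C.nil)) (C.cons (nat_lit 52) (C.miq (nat_lit 1680150643) (nat_lit 62866097998195593325576331)) C.nil))) C.nil)) C.nil)) C.nil)) C.nil)) C.nil)) C.nil)) (C.cons (nat_lit 44) (C.miq (nat_lit 1916092513) (nat_lit 53196019625428906236575827)) C.nil))) C.nil))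 C.nil)) C.nil)) (C.cons (nat_lit 194) (C.miq (nat_lit 655754323) (nat_lit 234533029446472271569486393)) C.nil))) C.nil)) C.nil)) C.nil)) (C.cons (nat_lit 50) (C.ref (nat_lit 36) (nat_lit 654820258320)) C.nil))) C.nil)) C.nil)) (C.cons (nat_lit 42) (C.node (nat_lit 1) (nat_lit 4) (nat_lit 5) (C.cons (nat_lit 178) (C.node (nat_lit 1) (nat_lit 7) (nat_lit 8) (C.cons (nat_lit 386) (C.node (nat_lit 4) (nat_lit 7) (nat_lit 9) (C.cons (nat_lit 656) (C.ref (nat_lit 36) (nat_lit 654568538640)) C.nil)) C.nil)) (C.cons (nat_lit 50) (C.node (nat_lit 1) (nat_lit 6) (nat_lit 8) (C.cons (nat_lit 330) (C.node (nat_lit 3) (nat_lit 6) (nat_lit 9) (C.cons (nat_lit 584) (C.node (nat_lit 1) (nat_lit 3) (nat_lit 4) (C.cons (nat_lit 30) (C.node (nat_lit 1) (nat_lit 3) (nat_lit 9) (C.cons (nat_lit 522) (C.node (nat_lit 1) (nat_lit 7) (nat_lit 8) (C.cons (nat_lit 402) (C.node (nat_lit 1) (nat_lit 4) (nat_lit 9) (C.cons (nat_lit 530) (C.node (nat_lit 1) (nat_lit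 8) (nat_lit 9) (C.cons (nat_lit 770) (C.node (nat_lit 3) (nat_lit 4) (nat_lit 8) (C.cons (nat_lit 280) (C.node (nat_lit 4) (nat_lit 7) (nat_lit 9) (C.cons (nat_lit 656) (C.node (nat_lit 2) (nat_lit 6) (nat_lit 8) (C.cons (nat_lit 340) (C.node (nat_lit 2) (nat_lit 4) (nat_lit 5) (C.cons (nat_lit 52) (C.node (nat_lit 2) (nat_lit 4) (nat_lit 9) (C.cons (nat_lit 532) (C.node (nat_lit 6) (nat_lit 8) (nat_lit 5) (C.cons (nat_lit 352) (C.node (nat_lit 6) (nat_lit 4) (nat_lit 9) (C.cons (nat_lit 592) (C.node (nat_lit 8) (nat_lit 4) (nat_lit 5) (C.cons (nat_lit 304) (C.node (nat_lit 8) (nat_lit 4) (nat_lit 9) (C.cons (nat_lit 784) (C.node (nat_lit 2) (nat_lit 7) (nat_lit 8) (C.cons (nat_lit 396) (C.node (nat_lit 2) (nat_lit 8) (nat_lit 9) (C.cons (nat_lit 772) (C.node (nat_lit 2) (nat_lit 3) (nat_lit 5) (C.cons (nat_lit 44) (C.node (nat_lit 8) (nat_lit 3) (nat_lit 9) C.nil) C.nil)) C.nil)) (C.cons (nat_lit 388) (C.miq (nat_lit 925372486) (nat_lit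 469069305475146105673220179)) C.nil))) C.nil)) C.nil)) C.nil)) C.nil)) C.nil)) C.nil)) (C.cons (nat_lit 324) (C.miq (nat_lit 1114140721) (nat_lit 391699381188197586108547211)) C.nil))) C.nil)) C.nil)) C.nil)) C.nil)) (C.cons (nat_lit 386)
  (C.miq (nat_lit 1199644771) (nat_lit 466645919815512971738218573)) C.nil))) C.nil)) (C.cons (nat_lit 26) (C.node (nat_lit 1) (nat_lit 7) (nat_lit 8) (C.cons (nat_lit 402) (C.miq (nat_lit 605226886) (nat_lit 31433491751215532306203585)) (C.cons (nat_lit 386) (C.node (nat_lit 2) (nat_lit 6) (nat_lit 8) (C.cons (nat_lit 340) (C.miq (nat_lit 1192763446) (nat_lit 466651638306172291236102221)) (C.cons (nat_lit 324) (C.node (nat_lit 2) (nat_lit 7) (nat_lit 8) (C.cons (nat_lit 396) (C.miq (nat_lit 588544096) (nat_lit 31434819986312849387619265)) (C.cons (nat_lit 388) (C.node (nat_lit 3) (nat_lit 4) (nat_lit 6) (C.cons (nat_lit 216) (C.miq (nat_lit 557058151) (nat_lit 31434819957883876748559297)) (C.cons (nat_lit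 88) (C.node (nat_lit 1) (nat_lit 2) (nat_lit 3) (C.cons (nat_lit 526) (C.node (nat_lit 1) (nat_lit 2) (nat_lit 4) (C.cons (nat_lit 22) (C.node (nat_lit 3) (nat_lit 7) (nat_lit 9) (C.cons (nat_lit 648) (C.node (nat_lit 3) (nat_lit 8) (nat_lit 9) (C.cons (nat_lit 776) (C.node (nat_lit 1) (nat_lit 2) (nat_lit 6) (C.cons (nat_lit 198) (C.node (nat_lit 1) (nat_lit 4) (nat_lit 7) (C.cons (nat_lit 658) (C.miq (nat_lit 1092851552) (nat_lit 635905477499884271714501569)) (C.cons (nat_lit 146) (C.node (nat_lit 4) (nat_lit 7) (nat_lit 9) (C.cons (nat_lit 656) (C.node (nat_lit 1) (nat_lit 5) (nat_lit 6) (C.cons (nat_lit 610) (C.miq (nat_lit 1361352304) (nat_lit 26606864400600368785195969)) (C.cons (nat_lit 98) (C.node (nat_lit 1) (nat_lit 6) (nat_lit 9) (C.cons (nat_lit 578) (C.node (nat_lit 1) (nat_lit 7) (nat_lit 5) (C.cons (nat_lit 674) (C.miq (nat_lit 1361287008) (nat_lit 635905477504387871341872065)) (C.cons (nat_lit 162) (C.node (nat_lit 1) (nat_lit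 7) (nat_lit 9) (C.cons (nat_lit 642) (C.node (nat_lit 1) (nat_lit 5) (nat_lit 9) (C.cons (nat_lit 546) (C.node (nat_lit 2) (nat_lit 7) (nat_lit 3) (C.cons (nat_lit 172) (C.miq (nat_lit 1984110853) (nat_lit 106388645021800447325307175)) (C.cons (nat_lit 140) (C.node (nat_lit 2) (nat_lit 3) (nat_lit 5) (C.cons (nat_lit 44) (C.node (nat_lit 2) (nat_lit 7) (nat_lit 5) (C.cons (nat_lit 676) (C.miq (nat_lit 1377081184) (nat_lit 26606864419177717243773889)) (C.cons (nat_lit 164) (C.node (nat_lit 6) (nat_lit 7) (nat_lit 3) C.nil) C.nil))) C.nil)) C.nil))) C.nil)) C.nil)) C.nil))) C.nil)) C.nil))) C.nil)) C.nil))) (C.cons (nat_lit 70) (C.node (nat_lit 1) (nat_lit 2) (nat_lit 7) (C.cons (nat_lit 134) (C.node (nat_lit 1) (nat_lit 4) (nat_lit 7) (C.cons (nat_lit 658) (C.node (nat_lit 1) (nat_lit 4) (nat_lit 8) (C.cons (nat_lit 274) (C.node (nat_lit 1) (nat_lit 8) (nat_lit 9) (C.cons (nat_lit 770) (C.node (nat_lit 4) (nat_lit 6) (nat_lit 9) (C.cons (nat_lit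 596) (C.miq (nat_lit 826410902) (nat_lit 26597788469943365369332673)) (C.cons (nat_lit 592) (C.node (nat_lit 1) (nat_lit 5) (nat_lit 7) (C.cons (nat_lit 226) (C.node (nat_lit 1) (nat_lit 5) (nat_lit 9) (C.cons (nat_lit 546) (C.node (nat_lit 1) (nat_lit 6) (nat_lit 9) (C.cons (nat_lit 578) (C.node (nat_lit 2) (nat_lit 6) (nat_lit 7) (C.cons (nat_lit 196) (C.node (nat_lit 3) (nat_lit 5) (nat_lit 6) (C.cons (nat_lit 104) (C.node (nat_lit 3) (nat_lit 6) (nat_lit 7) C.nil) C.nil)) C.nil)) C.nil)) C.nil)) (C.cons (nat_lit 162) (C.node (nat_lit 1) (nat_lit 6) (nat_lit 7) (C.cons (nat_lit 194) (C.node (nat_lit 1) (nat_lit 5) (nat_lit 6) (C.cons (nat_lit 610) (C.node (nat_lit 2) (nat_lit 6) (nat_lit 9) (C.cons (nat_lit 580) (C.node (nat_lit 2) (nat_lit 5) (nat_lit 9) (C.cons (nat_lit 676) (C.miq (nat_lit 622098784) (nat_lit 60449039735878145650394049)) (C.cons (nat_lit 548) (C.node (nat_lit 2) (nat_lit 3) (nat_lit 8) C.nil) C.nil))) C.nil)) (C.cons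 (nat_lit 98) (C.node (nat_lit 1) (nat_lit 5) (nat_lit 9) (C.cons (nat_lit 546) (C.node (nat_lit 1) (nat_lit 6) (nat_lit 9) (C.cons (nat_lit 578) (C.node (nat_lit 2) (nat_lit 6) (nat_lit 7) C.nil) C.nil)) C.nil)) C.nil))) C.nil)) C.nil))) C.nil))) C.nil)) C.nil)) (C.cons (nat_lit 146) (C.node (nat_lit 4) (nat_lit 7) (nat_lit 9) (C.cons (nat_lit 656)
  (C.ref (nat_lit 37) (nat_lit 654820258320)) C.nil)) C.nil))) C.nil)) C.nil))) C.nil)) C.nil)) C.nil)) (C.cons (nat_lit 14) (C.node (nat_lit 1) (nat_lit 3) (nat_lit 9) (C.cons (nat_lit 522) (C.node (nat_lit 1) (nat_lit 2) (nat_lit 4) (C.cons (nat_lit 534) (C.node (nat_lit 1) (nat_lit 4) (nat_lit 7) (C.cons (nat_lit 146) (C.node (nat_lit 1) (nat_lit 4) (nat_lit 8) (C.cons (nat_lit 274) (C.node (nat_lit 1) (nat_lit 8) (nat_lit 9) (C.cons (nat_lit 770) (C.node (nat_lit 4) (nat_lit 6) (nat_lit 9) (C.cons (nat_lit 592) (C.node (nat_lit 4) (nat_lit 7) (nat_lit 9) (C.cons (nat_lit 656) (C.ref (nat_lit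 38) (nat_lit 654820258320)) C.nil)) C.nil)) C.nil)) C.nil)) C.nil)) (C.cons (nat_lit 22) (C.node (nat_lit 1) (nat_lit 4) (nat_lit 7) (C.cons (nat_lit 658) (C.node (nat_lit 1) (nat_lit 4) (nat_lit 8) (C.cons (nat_lit 274) (C.node (nat_lit 1) (nat_lit 8) (nat_lit 9) (C.cons (nat_lit 770) (C.ref (nat_lit 34) (nat_lit 641083073040)) C.nil)) C.nil)) (C.cons (nat_lit 146) (C.node (nat_lit 4) (nat_lit 7) (nat_lit 9) (C.cons (nat_lit 656) (C.node (nat_lit 1) (nat_lit 4) (nat_lit 8) (C.cons (nat_lit 786) (C.node (nat_lit 2) (nat_lit 8) (nat_lit 9) (C.cons (nat_lit 780) (C.miq (nat_lit 405162288) (nat_lit 391693496856140652271698489)) (C.cons (nat_lit 772) (C.node (nat_lit 3) (nat_lit 8) (nat_lit 9) (C.cons (nat_lit 776) (C.ref (nat_lit 33) (nat_lit 641083073040)) C.nil)) C.nil))) (C.cons (nat_lit 274) (C.node (nat_lit 1) (nat_lit 4) (nat_lit 9) (C.cons (nat_lit 530) (C.node (nat_lit 1) (nat_lit 8) (nat_lit 9) (C.cons (nat_lit 770) (C.ref (nat_lit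 35) (nat_lit 641083073040)) C.nil)) C.nil)) C.nil))) C.nil)) C.nil))) C.nil))) C.nil)) C.nil))) C.nil))) C.nil))) C.nil))) C.nil))) C.nil))) C.nil)) (C.cons (nat_lit 322) (C.ref (nat_lit 46) (nat_lit 654820258320)) C.nil))) C.nil))) C.nil))) C.nil)) (List.cons (C.qs (C.cons (nat_lit 1440) (C.pat (nat_lit 1) (nat_lit 2493736993) (nat_lit 431005720250919725969134041976078609)) (C.cons (nat_lit 1616) (C.pat (nat_lit 1) (nat_lit 2544252193) (nat_lit 721805401700868587765082377713156257)) (C.cons (nat_lit 2376) (C.pat (nat_lit 1) (nat_lit 2825148209) (nat_lit 1531749202656484357556143713601258433)) (C.cons (nat_lit 2692) (C.pat (nat_lit 1) (nat_lit 962897953) (nat_lit 2674077963070252576538164930811331521)) (C.cons (nat_lit 2628) (C.pat (nat_lit 0) (nat_lit 177755953) (nat_lit 76138458818153533723699570999435)) (C.cons (nat_lit 2690) (C.pat (nat_lit 1) (nat_lit 1765254433) (nat_lit 2674109020577654915003916450626077241)) (C.cons (nat_lit 2434)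 (C.pat (nat_lit 0) (nat_lit 177755713) (nat_lit 76138381447048652340022066217043)) (C.cons (nat_lit 2689) (C.pat (nat_lit 1) (nat_lit 2793752369) (nat_lit 430968324746790368447575529377825729)) (C.cons (nat_lit 1665) (C.pat (nat_lit 0) (nat_lit 177755698) (nat_lit 76138381446901078387440979738701)) C.nil)))))))))) (List.cons (C.node (nat_lit 0) (nat_lit 2) (nat_lit 3) (C.cons (nat_lit 77) (C.node (nat_lit 0) (nat_lit 4) (nat_lit 6) (C.cons (nat_lit 81) (C.node (nat_lit 0) (nat_lit 4) (nat_lit 2) (C.cons (nat_lit 149) (C.ref (nat_lit 48) (nat_lit 590143890480)) C.nil)) C.nil)) (C.cons (nat_lit 13) (C.node (nat_lit 0) (nat_lit 3) (nat_lit 6) C.nil) C.nil))) (List.cons (C.node (nat_lit 0) (nat_lit 1) (nat_lit 4) (C.cons (nat_lit 83) (C.node (nat_lit 0) (nat_lit 2) (nat_lit 3) (C.cons (nat_lit 77) (C.node (nat_lit 0) (nat_lit 2) (nat_lit 4) (C.cons (nat_lit 149) (C.qs (C.cons (nat_lit 640) (C.ref (nat_lit 47) (nat_lit 654820258320)) (C.cons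 (nat_lit 384) (C.ref (nat_lit 47) (nat_lit 654820258320)) (C.cons (nat_lit 576) (C.ref (nat_lit 47) (nat_lit 654820258320)) (C.cons (nat_lit 320) (C.ref (nat_lit 47) (nat_lit 654820258320)) (C.cons (nat_lit 544) (C.ref (nat_lit 47) (nat_lit 654820258320)) (C.cons (nat_lit 288) (C.ref (nat_lit 47) (nat_lit 654820258320)) (C.cons (nat_lit 160) (C.ref (nat_lit 47) (nat_lit 654820258320)) (C.cons (nat_lit 672) (C.ref (nat_lit 47) (nat_lit 654820258320)) (C.cons (nat_lit 416)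
  (C.pat (nat_lit 0) (nat_lit 177755698) (nat_lit 76138381446901078387440979738701)) (C.cons (nat_lit 96) (C.ref (nat_lit 47) (nat_lit 654820258320)) (C.cons (nat_lit 608) (C.pat (nat_lit 0) (nat_lit 177755713) (nat_lit 76138381447048652340022066217043)) (C.cons (nat_lit 352) (C.ref (nat_lit 47) (nat_lit 654820258320)) (C.cons (nat_lit 528) (C.ref (nat_lit 47) (nat_lit 654820258320)) (C.cons (nat_lit 272) (C.ref (nat_lit 47) (nat_lit 654820258320)) (C.cons (nat_lit 144) (C.ref (nat_lit 47) (nat_lit 654820258320)) (C.cons (nat_lit 656) (C.pat (nat_lit 0) (nat_lit 177755953) (nat_lit 76138458818153533723699570999435)) (C.cons (nat_lit 400) (C.ref (nat_lit 47) (nat_lit 654820258320)) (C.cons (nat_lit 80) (C.ref (nat_lit 47) (nat_lit 654820258320)) (C.cons (nat_lit 592) (C.ref (nat_lit 47) (nat_lit 654820258320)) (C.cons (nat_lit 336) (C.pat (nat_lit 0) (nat_lit 177755970) (nat_lit 76138458818301107676297837346965)) (C.cons (nat_lit 264) (C.ref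 (nat_lit 47) (nat_lit 654820258320)) (C.cons (nat_lit 72) (C.ref (nat_lit 47) (nat_lit 654820258320)) (C.cons (nat_lit 328) (C.pat (nat_lit 1) (nat_lit 2493736993) (nat_lit 431005720250919725969134041976078609)) (C.cons (nat_lit 40) (C.ref (nat_lit 47) (nat_lit 654820258320)) (C.cons (nat_lit 296) (C.pat (nat_lit 1) (nat_lit 2527544609) (nat_lit 431036777690618086465793817065095265)) (C.cons (nat_lit 104) (C.pat (nat_lit 1) (nat_lit 2826196530) (nat_lit 1531749202736272281076539703988650945)) (C.cons (nat_lit 360) (C.pat (nat_lit 1) (nat_lit 2527544609) (nat_lit 431036777690618086465793817065095265)) (C.cons (nat_lit 260) (C.ref (nat_lit 47) (nat_lit 654820258320)) (C.cons (nat_lit 132) (C.ref (nat_lit 47) (nat_lit 654820258320)) (C.cons (nat_lit 388) (C.pat (nat_lit 1) (nat_lit 2477029409) (nat_lit 721774344261170227268422602633576713)) (C.cons (nat_lit 20) (C.ref (nat_lit 47) (nat_lit 654820258320)) (C.cons (nat_lit 276) (C.pat (nat_lit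 1) (nat_lit 2544252193) (nat_lit 721805401700868587765082377713156257)) (C.cons (nat_lit 148) (C.pat (nat_lit 1) (nat_lit 2810529330) (nat_lit 773664988012488761150061437639001025)) (C.cons (nat_lit 404) (C.pat (nat_lit 1) (nat_lit 2544252193) (nat_lit 721805401700868587765082377713156257)) (C.cons (nat_lit 514) (C.ref (nat_lit 47) (nat_lit 654820258320)) (C.cons (nat_lit 66) (C.ref (nat_lit 47) (nat_lit 654820258320)) (C.cons (nat_lit 578) (C.pat (nat_lit 1) (nat_lit 1232316449) (nat_lit 2674077963137952570030802952598127553)) (C.cons (nat_lit 18) (C.ref (nat_lit 47) (nat_lit 654820258320)) (C.cons (nat_lit 530) (C.pat (nat_lit 1) (nat_lit 2034672929) (nat_lit 2674109020509956249717384132573332025)) (C.cons (nat_lit 82) (C.pat (nat_lit 1) (nat_lit 2825148209) (nat_lit 1531749202656484357556143713601258433)) (C.cons (nat_lit 594) (C.pat (nat_lit 1) (nat_lit 2034672929) (nat_lit 2674109020509956249717384132573332025)) (C.cons (nat_lit 513)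 (C.ref (nat_lit 47) (nat_lit 654820258320)) (C.cons (nat_lit 129) (C.ref (nat_lit 47) (nat_lit 654820258320)) (C.cons (nat_lit 641) (C.pat (nat_lit 1) (nat_lit 962897953) (nat_lit 2674077963070252576538164930819720129)) (C.cons (nat_lit 33) (C.ref (nat_lit 47) (nat_lit 654820258320)) (C.cons (nat_lit 545) (C.pat (nat_lit 1) (nat_lit 1765254433) (nat_lit 2674109020577654915003916450627125817)) (C.cons (nat_lit 161) (C.pat (nat_lit 1) (nat_lit 2793752369) (nat_lit 430968324746790442234551824216032193)) (C.cons (nat_lit 673) (C.pat (nat_lit 1) (nat_lit 1765254433) (nat_lit 2674109020577654915003916450627125817)) C.nil))))))))))))))))))))))))))))))))))))))))))))))))) (C.cons (nat_lit 21) (C.node (nat_lit 0) (nat_lit 2) (nat_lit 7) (C.cons (nat_lit 133) (C.node (nat_lit 0) (nat_lit 4) (nat_lit 7) (C.cons (nat_lit 145) (C.ref (nat_lit 48) (nat_lit 654820258320)) C.nil)) C.nil)) C.nil))) (C.cons (nat_lit 13) (C.node (nat_lit 0) (nat_lit 2) (nat_lit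 6) (C.cons (nat_lit 69) (C.node (nat_lit 0) (nat_lit 3) (nat_lit 6) (C.cons (nat_lit 73) (C.node (nat_lit 0) (nat_lit 2) (nat_lit 4) (C.cons (nat_lit 149)
  (C.ref (nat_lit 48) (nat_lit 654568538640)) C.nil)) C.nil)) C.nil)) C.nil))) (C.cons (nat_lit 19) (C.node (nat_lit 0) (nat_lit 1) (nat_lit 6) (C.cons (nat_lit 67) (C.ref (nat_lit 49) (nat_lit 654820258320)) C.nil)) C.nil))) (List.cons (C.big C.nil (C.node (nat_lit 0) (nat_lit 1) (nat_lit 9) (C.cons (nat_lit 515) (C.node (nat_lit 0) (nat_lit 2) (nat_lit 9) (C.cons (nat_lit 517) (C.node (nat_lit 0) (nat_lit 3) (nat_lit 8) (C.cons (nat_lit 265) (C.node (nat_lit 0) (nat_lit 4) (nat_lit 8) (C.cons (nat_lit 273) (C.node (nat_lit 0) (nat_lit 5) (nat_lit 6) (C.cons (nat_lit 97) (C.node (nat_lit 0) (nat_lit 5) (nat_lit 7) (C.cons (nat_lit 161) (C.node (nat_lit 0) (nat_lit 1) (nat_lit 3) (C.cons (nat_lit 139) (C.ref (nat_lit 50) (nat_lit 654820258320)) (C.cons (nat_lit 75) (C.ref (nat_lit 50)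 (nat_lit 654568600080)) (C.cons (nat_lit 11) (C.node (nat_lit 0) (nat_lit 1) (nat_lit 6) (C.cons (nat_lit 83) (C.node (nat_lit 0) (nat_lit 1) (nat_lit 7) (C.cons (nat_lit 131) (C.ref (nat_lit 49) (nat_lit 654568538640)) C.nil)) (C.cons (nat_lit 67) (C.node (nat_lit 0) (nat_lit 1) (nat_lit 4) (C.cons (nat_lit 147) (C.ref (nat_lit 49) (nat_lit 654820196880)) (C.cons (nat_lit 19) (C.node (nat_lit 0) (nat_lit 1) (nat_lit 7) C.nil) C.nil))) C.nil))) C.nil)))) C.nil)) C.nil)) C.nil)) C.nil)) C.nil)) C.nil))) List.nil)))))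

theorem ok10_47 : okL par10 (nat_lit 52) c10_47 (nat_lit 47) = true := by decide +kernel

noncomputable def c10_52 : List C :=
  (List.cons (C.node (nat_lit 1) (nat_lit 4) (nat_lit 9) (C.cons (nat_lit 786) (C.node (nat_lit 1) (nat_lit 3) (nat_lit 4) (C.cons (nat_lit 30) (C.miq (nat_lit 646000788) (nat_lit 389274667339910506263740985)) (C.cons (nat_lit 26) (C.node (nat_lit 3) (nat_lit 8) (nat_lit 9) (C.cons (nat_lit 780) (C.miq (nat_lit 639119433) (nat_lit 389288502397962017446167097)) (C.cons (nat_lit 776) (C.node (nat_lit 1) (nat_lit 2) (nat_lit 3) (C.cons (nat_lit 270) (C.node (nat_lit 1) (nat_lit 7) (nat_lit 8) (C.cons (nat_lit 386) (C.node (nat_lit 2) (nat_lit 3) (nat_lit 5) (C.cons (nat_lit 44) (C.node (nat_lit 2) (nat_lit 3) (nat_lit 4) (C.cons (nat_lit 156) (C.node (nat_lit 2) (nat_lit 3) (nat_lit 9) (C.cons (nat_lit 524) (C.node (nat_lit 2) (nat_lit 7) (nat_lit 8) (C.cons (nat_lit 388) (C.node (nat_lit 2) (nat_lit 7) (nat_lit 9)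 (C.cons (nat_lit 644) (C.node (nat_lit 3) (nat_lit 7) (nat_lit 9) (C.cons (nat_lit 648) (C.node (nat_lit 4) (nat_lit 7) (nat_lit 9) (C.cons (nat_lit 656) (C.node (nat_lit 1) (nat_lit 2) (nat_lit 4) (C.cons (nat_lit 54) (C.miq (nat_lit 2014447941) (nat_lit 326413015279222867713458745)) (C.cons (nat_lit 22) (C.node (nat_lit 1) (nat_lit 2) (nat_lit 7) (C.cons (nat_lit 198) (C.miq (nat_lit 1393690983) (nat_lit 326413015168883817858859969)) (C.cons (nat_lit 134) (C.node (nat_lit 2) (nat_lit 6) (nat_lit 7) (C.cons (nat_lit 196) (C.node (nat_lit 1) (nat_lit 2) (nat_lit 5) C.nil) C.nil)) C.nil))) C.nil))) C.nil)) C.nil)) C.nil)) C.nil)) C.nil)) (C.cons (nat_lit 28) (C.node (nat_lit 2) (nat_lit 3) (nat_lit 7) (C.cons (nat_lit 652) (C.node (nat_lit 4) (nat_lit 7) (nat_lit 9) (C.cons (nat_lit 656) (C.node (nat_lit 2) (nat_lit 4) (nat_lit 9) (C.cons (nat_lit 596) (C.miq (nat_lit 321128342) (nat_lit 33851454068095556905075649)) (C.cons (nat_lit 532)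 (C.node (nat_lit 2) (nat_lit 6) (nat_lit 9) (C.cons (nat_lit 580) (C.node (nat_lit 4) (nat_lit 6) (nat_lit 9) (C.cons (nat_lit 592) (C.node (nat_lit 2) (nat_lit 5) (nat_lit 9) (C.cons (nat_lit 804) (C.miq (nat_lit 1378978160) (nat_lit 326415339524784008253342657)) (C.cons (nat_lit 548) (C.node (nat_lit 2) (nat_lit 8) (nat_lit 9) (C.cons (nat_lit 772) (C.node (nat_lit 5) (nat_lit 8) (nat_lit 9) (C.cons (nat_lit 800) (C.node (nat_lit 3) (nat_lit 4) (nat_lit 6) (C.cons (nat_lit 344) (C.miq (nat_lit 338860128) (nat_lit 33859497030624681317434305)) (C.cons (nat_lit 216) (C.miq (nat_lit 591501152) (nat_lit 31441645353677226333373377)) (C.cons (nat_lit 88) (C.node (nat_lit 3) (nat_lit 6) (nat_lit 7) (C.cons (nat_lit 232) (C.miq (nat_lit 324179568) (nat_lit 53202310088163271740031937)) (C.cons (nat_lit 200) (C.node (nat_lit 3) (nat_lit 4) (nat_lit 7) (C.cons (nat_lit 408) (C.node (nat_lit 2) (nat_lit 7) (nat_lit 8) C.nil) C.nil)) C.nil))) C.nil))))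 C.nil)) C.nil)) C.nil))) C.nil)) C.nil)) C.nil))) C.nil)) (C.cons (nat_lit 140) (C.node (nat_lit 2) (nat_lit 3) (nat_lit 9) (C.cons (nat_lit 524) (C.node (nat_lit 3) (nat_lit 7) (nat_lit 9) (C.cons (nat_lit 648) (C.node (nat_lit 2) (nat_lit 5) (nat_lit 9) (C.cons (nat_lit 804) (C.node (nat_lit 2) (nat_lit 6) (nat_lit 9) (C.cons (nat_lit 596) (C.miq (nat_lit 1635926105) (nat_lit 326420965578781481018589753)) (C.cons (nat_lit 580) (C.node (nat_lit 4) (nat_lit 6) (nat_lit 9) (C.cons (nat_lit 592) (C.node (nat_lit 2) (nat_lit 4) (nat_lit 9) (C.cons (nat_lit 660) (C.miq (nat_lit 1091016786) (nat_lit 168052863998762685129098020)) (C.cons (nat_lit 532) (C.node (nat_lit 3) (nat_lit 5) (nat_lit 7) (C.cons (nat_lit 424) (C.miq (nat_lit 624007280) (nat_lit 50784458510296382945559489)) (C.cons (nat_lit 232) (C.miq (nat_lit 324179568) (nat_lit 53202310088163271740031937)) C.nil))) C.nil))) C.nil)) C.nil))) (C.cons (nat_lit 548) (C.node (nat_lit 2) (nat_lit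 8) (nat_lit 9) (C.cons (nat_lit 772) (C.node (nat_lit 5) (nat_lit 8) (nat_lit 9) (C.cons (nat_lit 800) (C.node (nat_lit 1) (nat_lit 2) (nat_lit 4) (C.cons (nat_lit 150) (C.node (nat_lit 1) (nat_lit 4) (nat_lit 5) C.nil) (C.cons (nat_lit 54)
  (C.miq (nat_lit 2014447941) (nat_lit 326413015279222867713458745)) C.nil))) C.nil)) C.nil)) C.nil))) C.nil)) C.nil)) C.nil))) C.nil))) C.nil)) C.nil)) (C.cons (nat_lit 14) (C.node (nat_lit 1) (nat_lit 3) (nat_lit 8) (C.cons (nat_lit 266) (C.node (nat_lit 1) (nat_lit 2) (nat_lit 8) (C.cons (nat_lit 390) (C.node (nat_lit 1) (nat_lit 2) (nat_lit 4) (C.cons (nat_lit 54) (C.node (nat_lit 1) (nat_lit 2) (nat_lit 6) (C.cons (nat_lit 70) (C.node (nat_lit 1) (nat_lit 4) (nat_lit 7) (C.cons (nat_lit 146) (C.node (nat_lit 2) (nat_lit 3) (nat_lit 9) (C.cons (nat_lit 652) (C.miq (nat_lit 840275840) (nat_lit 65292490640091276040668097)) (C.cons (nat_lit 524) (C.node (nat_lit 3) (nat_lit 7) (nat_lit 9) (C.cons (nat_lit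 648) (C.node (nat_lit 2) (nat_lit 3) (nat_lit 7) (C.cons (nat_lit 156) (C.miq (nat_lit 2235699255) (nat_lit 65289188571290384228679819)) (C.cons (nat_lit 140) (C.node (nat_lit 2) (nat_lit 5) (nat_lit 9) (C.cons (nat_lit 804) (C.miq (nat_lit 1377015920) (nat_lit 16935457898290305502479297)) (C.cons (nat_lit 548) (C.node (nat_lit 2) (nat_lit 8) (nat_lit 9) (C.cons (nat_lit 772) (C.node (nat_lit 2) (nat_lit 6) (nat_lit 9) (C.cons (nat_lit 596) (C.miq (nat_lit 1645778000) (nat_lit 471498797138519531081368121)) C.nil)) C.nil)) C.nil))) C.nil))) C.nil)) C.nil))) C.nil)) C.nil)) (C.cons (nat_lit 22) (C.miq (nat_lit 1410468231) (nat_lit 26599411904456641537770433)) C.nil))) (C.cons (nat_lit 262) (C.node (nat_lit 1) (nat_lit 7) (nat_lit 8) (C.cons (nat_lit 386) (C.node (nat_lit 2) (nat_lit 3) (nat_lit 5) (C.cons (nat_lit 300) (C.node (nat_lit 2) (nat_lit 5) (nat_lit 9) (C.cons (nat_lit 548) (C.node (nat_lit 2) (nat_lit 8) (nat_lit 9) (C.cons (nat_lit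 772) (C.node (nat_lit 5) (nat_lit 8) (nat_lit 9) (C.cons (nat_lit 800) (C.node (nat_lit 3) (nat_lit 5) (nat_lit 6) (C.cons (nat_lit 232) (C.miq (nat_lit 324179568) (nat_lit 362687319909508340464812993)) (C.cons (nat_lit 104) (C.node (nat_lit 3) (nat_lit 5) (nat_lit 7) (C.cons (nat_lit 168) (C.node (nat_lit 3) (nat_lit 6) (nat_lit 8) (C.cons (nat_lit 344) (C.miq (nat_lit 558041478) (nat_lit 31433491855362922957505473)) (C.cons (nat_lit 328) (C.node (nat_lit 5) (nat_lit 6) (nat_lit 8) C.nil) C.nil))) C.nil)) C.nil))) C.nil)) C.nil)) C.nil)) (C.cons (nat_lit 44) (C.node (nat_lit 2) (nat_lit 3) (nat_lit 9) (C.cons (nat_lit 652) (C.node (nat_lit 4) (nat_lit 7) (nat_lit 9) (C.cons (nat_lit 656) (C.node (nat_lit 2) (nat_lit 4) (nat_lit 9) (C.cons (nat_lit 596) (C.miq (nat_lit 1093820537) (nat_lit 16935955757435759448818625)) (C.cons (nat_lit 532) (C.node (nat_lit 2) (nat_lit 6) (nat_lit 9) (C.cons (nat_lit 580) (C.node (nat_lit 4) (nat_lit 6) (nat_lit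 9) (C.cons (nat_lit 592) (C.node (nat_lit 2) (nat_lit 5) (nat_lit 9) (C.cons (nat_lit 804) (C.miq (nat_lit 1378978160) (nat_lit 16930329703438939528561601)) (C.cons (nat_lit 548) (C.node (nat_lit 2) (nat_lit 8) (nat_lit 9) (C.cons (nat_lit 772) (C.node (nat_lit 5) (nat_lit 8) (nat_lit 9) C.nil) C.nil)) C.nil))) C.nil)) C.nil)) C.nil))) C.nil)) (C.cons (nat_lit 524) (C.node (nat_lit 3) (nat_lit 7) (nat_lit 9) (C.cons (nat_lit 648) (C.node (nat_lit 2) (nat_lit 5) (nat_lit 9) (C.cons (nat_lit 804) (C.node (nat_lit 2) (nat_lit 6) (nat_lit 9) (C.cons (nat_lit 596) (C.miq (nat_lit 1635926105) (nat_lit 316749559021864447620940345)) (C.cons (nat_lit 580) (C.node (nat_lit 4) (nat_lit 6) (nat_lit 9) (C.cons (nat_lit 592) (C.node (nat_lit 2) (nat_lit 4) (nat_lit 9) (C.cons (nat_lit 660) (C.miq (nat_lit 1091016786) (nat_lit 168052863998762685129098020)) (C.cons (nat_lit 532) (C.node (nat_lit 3) (nat_lit 5) (nat_lit 7) (C.cons (nat_lit 424) (C.miq (nat_lit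 624007280) (nat_lit 50784458510296382945559489)) (C.cons (nat_lit 232) (C.miq (nat_lit 324179568) (nat_lit 53202310088163271740031937)) C.nil))) C.nil))) C.nil)) C.nil))) (C.cons (nat_lit 548) (C.node (nat_lit 2) (nat_lit 8) (nat_lit 9) (C.cons (nat_lit 772) (C.node (nat_lit 5) (nat_lit 8) (nat_lit 9) C.nil) C.nil)) C.nil))) C.nil)) C.nil))) C.nil))) C.nil)) C.nil))) C.nil)) C.nil))) C.nil))) C.nil)))
  (C.cons (nat_lit 530) (C.node (nat_lit 1) (nat_lit 8) (nat_lit 9) (C.cons (nat_lit 770) (C.node (nat_lit 2) (nat_lit 3) (nat_lit 5) (C.cons (nat_lit 300) (C.node (nat_lit 2) (nat_lit 5) (nat_lit 9) (C.cons (nat_lit 548) (C.node (nat_lit 3) (nat_lit 8) (nat_lit 9) (C.cons (nat_lit 776) (C.node (nat_lit 5) (nat_lit 8) (nat_lit 9) (C.cons (nat_lit 800) (C.node (nat_lit 3) (nat_lit 5) (nat_lit 6) (C.cons (nat_lit 232) (C.miq (nat_lit 324179568) (nat_lit 362687319909508340464812993)) (C.cons (nat_lit 104) (C.node (nat_lit 3) (nat_lit 5) (nat_lit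 7) (C.cons (nat_lit 168) (C.node (nat_lit 1) (nat_lit 2) (nat_lit 3) (C.cons (nat_lit 30) (C.node (nat_lit 1) (nat_lit 3) (nat_lit 8) (C.cons (nat_lit 266) (C.node (nat_lit 2) (nat_lit 3) (nat_lit 7) (C.cons (nat_lit 652) (C.miq (nat_lit 1081218707) (nat_lit 199473313662102575686353482)) (C.cons (nat_lit 140) (C.node (nat_lit 2) (nat_lit 3) (nat_lit 9) (C.cons (nat_lit 524) (C.node (nat_lit 3) (nat_lit 7) (nat_lit 9) (C.cons (nat_lit 648) (C.node (nat_lit 3) (nat_lit 6) (nat_lit 7) (C.cons (nat_lit 216) (C.miq (nat_lit 1947820832) (nat_lit 640748411777607021325910093)) C.nil)) C.nil)) C.nil)) C.nil))) C.nil)) (C.cons (nat_lit 14) (C.node (nat_lit 1) (nat_lit 3) (nat_lit 4) (C.cons (nat_lit 282) (C.node (nat_lit 3) (nat_lit 6) (nat_lit 8) (C.cons (nat_lit 328) (C.node (nat_lit 3) (nat_lit 7) (nat_lit 8) (C.cons (nat_lit 392) (C.node (nat_lit 1) (nat_lit 2) (nat_lit 8) (C.cons (nat_lit 390) (C.miq (nat_lit 1160261745) (nat_lit 362682948026377508948934795))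 (C.cons (nat_lit 262) (C.node (nat_lit 1) (nat_lit 7) (nat_lit 8) (C.cons (nat_lit 386) (C.node (nat_lit 5) (nat_lit 6) (nat_lit 8) C.nil) C.nil)) C.nil))) C.nil)) C.nil)) (C.cons (nat_lit 26) (C.node (nat_lit 1) (nat_lit 3) (nat_lit 8) (C.cons (nat_lit 266) (C.node (nat_lit 2) (nat_lit 3) (nat_lit 4) (C.cons (nat_lit 156) (C.node (nat_lit 2) (nat_lit 3) (nat_lit 9) (C.cons (nat_lit 524) (C.node (nat_lit 3) (nat_lit 6) (nat_lit 7) C.nil) C.nil)) (C.cons (nat_lit 28) (C.node (nat_lit 2) (nat_lit 3) (nat_lit 9) (C.cons (nat_lit 652) (C.node (nat_lit 4) (nat_lit 7) (nat_lit 9) (C.cons (nat_lit 656) (C.node (nat_lit 1) (nat_lit 2) (nat_lit 5) C.nil) C.nil)) C.nil)) C.nil))) C.nil)) C.nil))) C.nil))) C.nil)) C.nil))) C.nil)) C.nil)) C.nil)) (C.cons (nat_lit 44) (C.node (nat_lit 2) (nat_lit 5) (nat_lit 9) (C.cons (nat_lit 804) (C.node (nat_lit 3) (nat_lit 8) (nat_lit 9) (C.cons (nat_lit 776) (C.node (nat_lit 4) (nat_lit 8) (nat_lit 9) (C.cons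 (nat_lit 784) (C.node (nat_lit 2) (nat_lit 3) (nat_lit 9) (C.cons (nat_lit 652) (C.miq (nat_lit 354617495) (nat_lit 53195300242382600733983681)) (C.cons (nat_lit 524) (C.node (nat_lit 3) (nat_lit 7) (nat_lit 9) (C.cons (nat_lit 648) (C.node (nat_lit 2) (nat_lit 6) (nat_lit 9) (C.cons (nat_lit 596) (C.miq (nat_lit 639144965) (nat_lit 389288945265905299355796025)) (C.cons (nat_lit 580) (C.node (nat_lit 4) (nat_lit 6) (nat_lit 9) (C.cons (nat_lit 592) (C.node (nat_lit 3) (nat_lit 5) (nat_lit 7) (C.cons (nat_lit 424) (C.miq (nat_lit 624007280) (nat_lit 50784458510296382945559489)) (C.cons (nat_lit 232) (C.miq (nat_lit 324179568) (nat_lit 53202310088163271740031937)) (C.cons (nat_lit 168) (C.node (nat_lit 2) (nat_lit 4) (nat_lit 9) (C.cons (nat_lit 660) (C.node (nat_lit 2) (nat_lit 6) (nat_lit 7) (C.cons (nat_lit 198) (C.miq (nat_lit 623997078) (nat_lit 50778536925586834860934081)) (C.cons (nat_lit 196) (C.node (nat_lit 1) (nat_lit 2) (nat_lit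 7) (C.cons (nat_lit 390) (C.miq (nat_lit 324169880) (nat_lit 53199930332359896064066497)) (C.cons (nat_lit 134) (C.node (nat_lit 5) (nat_lit 7) (nat_lit 8) (C.cons (nat_lit 432) (C.miq (nat_lit 2166837396) (nat_lit 162004028903711599291007545)) (C.cons (nat_lit 416) (C.node (nat_lit 4) (nat_lit 5) (nat_lit 8) (C.cons (nat_lit 368) (C.miq (nat_lit 677483840) (nat_lit 389283688002392311341449785)) (C.cons (nat_lit 304) (C.node (nat_lit 1) (nat_lit 2) (nat_lit 6) (C.cons (nat_lit 102) (C.node (nat_lit 2) (nat_lit 4) (nat_lit 5) C.nil) (C.cons (nat_lit 70)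
  (C.node (nat_lit 1) (nat_lit 2) (nat_lit 5) (C.cons (nat_lit 54) (C.miq (nat_lit 2182518080) (nat_lit 84642534920384990317576761)) C.nil)) C.nil))) C.nil))) C.nil))) C.nil))) C.nil))) (C.cons (nat_lit 532) (C.node (nat_lit 2) (nat_lit 7) (nat_lit 9) (C.cons (nat_lit 644) (C.node (nat_lit 4) (nat_lit 7) (nat_lit 9) (C.cons (nat_lit 656) (C.node (nat_lit 2) (nat_lit 6) (nat_lit 8) (C.cons (nat_lit 340) (C.node (nat_lit 2) (nat_lit 4) (nat_lit 5) (C.cons (nat_lit 54) (C.miq (nat_lit 377634965) (nat_lit 411035774816520450299134521)) (C.cons (nat_lit 52) (C.node (nat_lit 2) (nat_lit 6) (nat_lit 7) (C.cons (nat_lit 198) (C.miq (nat_lit 623997078) (nat_lit 50778536925586834860934081)) C.nil)) C.nil))) (C.cons (nat_lit 324) (C.node (nat_lit 1) (nat_lit 2) (nat_lit 5) (C.cons (nat_lit 102) (C.node (nat_lit 2) (nat_lit 4) (nat_lit 5) C.nil) (C.cons (nat_lit 54) (C.miq (nat_lit 377634965) (nat_lit 391692961702686383503835705)) C.nil))) C.nil))) C.nil))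 C.nil)) C.nil))) C.nil)))) C.nil)) C.nil))) C.nil)) C.nil))) C.nil)) C.nil)) (C.cons (nat_lit 548) (C.node (nat_lit 5) (nat_lit 8) (nat_lit 9) (C.cons (nat_lit 800) (C.node (nat_lit 2) (nat_lit 6) (nat_lit 9) (C.cons (nat_lit 596) (C.node (nat_lit 4) (nat_lit 7) (nat_lit 9) (C.cons (nat_lit 656) (C.node (nat_lit 4) (nat_lit 8) (nat_lit 9) (C.cons (nat_lit 784) (C.node (nat_lit 2) (nat_lit 6) (nat_lit 7) (C.cons (nat_lit 198) (C.miq (nat_lit 623997078) (nat_lit 50778536925586834860934081)) (C.cons (nat_lit 196) (C.node (nat_lit 2) (nat_lit 7) (nat_lit 9) (C.cons (nat_lit 652) (C.miq (nat_lit 371655827) (nat_lit 236952024765258546780308025)) (C.cons (nat_lit 644) (C.node (nat_lit 3) (nat_lit 7) (nat_lit 9) (C.cons (nat_lit 648) (C.node (nat_lit 3) (nat_lit 6) (nat_lit 7) (C.cons (nat_lit 232) (C.miq (nat_lit 324179568) (nat_lit 53202310088163271740031937)) (C.cons (nat_lit 216) (C.miq (nat_lit 308742467) (nat_lit 236952024887981636597580345))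 (C.cons (nat_lit 200) (C.node (nat_lit 1) (nat_lit 2) (nat_lit 6) (C.cons (nat_lit 102) (C.node (nat_lit 1) (nat_lit 6) (nat_lit 7) (C.cons (nat_lit 194) (C.node (nat_lit 2) (nat_lit 6) (nat_lit 8) (C.cons (nat_lit 324) (C.node (nat_lit 2) (nat_lit 3) (nat_lit 9) (C.cons (nat_lit 780) (C.node (nat_lit 1) (nat_lit 2) (nat_lit 3) (C.cons (nat_lit 14) (C.node (nat_lit 1) (nat_lit 2) (nat_lit 4) C.nil) C.nil)) C.nil)) C.nil)) C.nil)) (C.cons (nat_lit 70) (C.node (nat_lit 1) (nat_lit 2) (nat_lit 5) (C.cons (nat_lit 54) (C.miq (nat_lit 2250312005) (nat_lit 84630175646049504131940921)) (C.cons (nat_lit 38) (C.node (nat_lit 2) (nat_lit 3) (nat_lit 9) (C.cons (nat_lit 780) (C.node (nat_lit 1) (nat_lit 2) (nat_lit 3) (C.cons (nat_lit 30) (C.miq (nat_lit 1981876547) (nat_lit 84627371740950300278522425)) (C.cons (nat_lit 14) (C.node (nat_lit 1) (nat_lit 3) (nat_lit 4) (C.cons (nat_lit 282) (C.node (nat_lit 3) (nat_lit 4) (nat_lit 6) C.nil) C.nil)) C.nil)))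 C.nil)) C.nil))) C.nil))) C.nil)))) C.nil)) C.nil))) C.nil))) C.nil)) C.nil)) (C.cons (nat_lit 580) (C.node (nat_lit 4) (nat_lit 6) (nat_lit 9) (C.cons (nat_lit 592) (C.node (nat_lit 3) (nat_lit 7) (nat_lit 9) (C.cons (nat_lit 652) (C.node (nat_lit 3) (nat_lit 8) (nat_lit 9) (C.cons (nat_lit 776) (C.node (nat_lit 4) (nat_lit 7) (nat_lit 9) (C.cons (nat_lit 656) (C.node (nat_lit 3) (nat_lit 5) (nat_lit 7) (C.cons (nat_lit 424) (C.miq (nat_lit 592549760) (nat_lit 50784458467512186495501249)) (C.cons (nat_lit 232) (C.miq (nat_lit 324179568) (nat_lit 53202310088163271740031937)) (C.cons (nat_lit 168) (C.node (nat_lit 3) (nat_lit 6) (nat_lit 7) (C.cons (nat_lit 216) (C.miq (nat_lit 1200710432) (nat_lit 776131907333151443376341069)) (C.cons (nat_lit 200) (C.node (nat_lit 2) (nat_lit 4) (nat_lit 9) (C.cons (nat_lit 788) (C.node (nat_lit 2) (nat_lit 3) (nat_lit 4) (C.cons (nat_lit 30) (C.miq (nat_lit 1181946002) (nat_lit 241785717348614596801069575))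 (C.cons (nat_lit 28) (C.node (nat_lit 2) (nat_lit 7) (nat_lit 8) (C.cons (nat_lit 390) (C.miq (nat_lit 323121304) (nat_lit 33857117218525829267719105))
  (C.cons (nat_lit 388) (C.node (nat_lit 3) (nat_lit 4) (nat_lit 7) (C.cons (nat_lit 408) (C.miq (nat_lit 306383239) (nat_lit 33852487192724759893246913)) (C.cons (nat_lit 152) (C.node (nat_lit 3) (nat_lit 7) (nat_lit 8) (C.cons (nat_lit 392) (C.node (nat_lit 1) (nat_lit 2) (nat_lit 3) (C.cons (nat_lit 270) (C.node (nat_lit 1) (nat_lit 3) (nat_lit 4) C.nil) C.nil)) C.nil)) C.nil))) C.nil))) C.nil))) (C.cons (nat_lit 532) (C.node (nat_lit 2) (nat_lit 8) (nat_lit 9) (C.cons (nat_lit 772) (C.node (nat_lit 4) (nat_lit 8) (nat_lit 9) (C.cons (nat_lit 784) (C.node (nat_lit 3) (nat_lit 5) (nat_lit 6) (C.cons (nat_lit 360) (C.node (nat_lit 3) (nat_lit 4) (nat_lit 6) C.nil) C.nil)) C.nil)) C.nil)) C.nil))) C.nil))) C.nil)))) C.nil)) C.nil)) (C.cons (nat_lit 648) (C.node (nat_lit 2) (nat_lit 3) (nat_lit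 9) (C.cons (nat_lit 780) (C.node (nat_lit 4) (nat_lit 8) (nat_lit 9) (C.cons (nat_lit 784) (C.node (nat_lit 1) (nat_lit 2) (nat_lit 3) (C.cons (nat_lit 30) (C.miq (nat_lit 560477193) (nat_lit 389288502384732693552235065)) (C.cons (nat_lit 14) (C.node (nat_lit 1) (nat_lit 3) (nat_lit 4) (C.cons (nat_lit 282) (C.node (nat_lit 1) (nat_lit 2) (nat_lit 8) (C.cons (nat_lit 390) (C.node (nat_lit 2) (nat_lit 4) (nat_lit 9) (C.cons (nat_lit 660) (C.node (nat_lit 1) (nat_lit 2) (nat_lit 4) (C.cons (nat_lit 22) (C.miq (nat_lit 1411451256) (nat_lit 26601736194209387775394753)) C.nil)) C.nil)) (C.cons (nat_lit 262) (C.node (nat_lit 1) (nat_lit 7) (nat_lit 8) (C.cons (nat_lit 386) (C.node (nat_lit 2) (nat_lit 4) (nat_lit 9) (C.cons (nat_lit 660) (C.node (nat_lit 2) (nat_lit 7) (nat_lit 8) C.nil) C.nil)) C.nil)) C.nil))) (C.cons (nat_lit 26) (C.node (nat_lit 1) (nat_lit 3) (nat_lit 8) (C.cons (nat_lit 266) (C.node (nat_lit 2) (nat_lit 4) (nat_lit 9) (C.cons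 (nat_lit 660) (C.node (nat_lit 2) (nat_lit 3) (nat_lit 4) (C.cons (nat_lit 28) (C.node (nat_lit 2) (nat_lit 3) (nat_lit 7) (C.cons (nat_lit 140) (C.node (nat_lit 2) (nat_lit 6) (nat_lit 7) (C.cons (nat_lit 198) (C.miq (nat_lit 1393690983) (nat_lit 16928005347538749134078913)) (C.cons (nat_lit 196) (C.node (nat_lit 1) (nat_lit 2) (nat_lit 6) C.nil) C.nil))) C.nil)) C.nil)) C.nil)) C.nil)) C.nil))) C.nil))) C.nil)) (C.cons (nat_lit 524) (C.node (nat_lit 3) (nat_lit 8) (nat_lit 9) (C.cons (nat_lit 776) (C.node (nat_lit 2) (nat_lit 7) (nat_lit 9) (C.cons (nat_lit 660) (C.node (nat_lit 2) (nat_lit 8) (nat_lit 9) (C.cons (nat_lit 772) (C.node (nat_lit 4) (nat_lit 8) (nat_lit 9) (C.cons (nat_lit 784) (C.node (nat_lit 2) (nat_lit 6) (nat_lit 7) (C.cons (nat_lit 198) (C.miq (nat_lit 623997078) (nat_lit 50778536925586834860934081)) (C.cons (nat_lit 196) (C.node (nat_lit 1) (nat_lit 2) (nat_lit 6) (C.cons (nat_lit 102) (C.node (nat_lit 1) (nat_lit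 2) (nat_lit 7) (C.cons (nat_lit 390) (C.miq (nat_lit 1108711296) (nat_lit 123320929983845276240249793)) C.nil)) C.nil)) C.nil))) C.nil)) C.nil)) (C.cons (nat_lit 644) (C.node (nat_lit 4) (nat_lit 7) (nat_lit 9) (C.cons (nat_lit 656) (C.node (nat_lit 2) (nat_lit 4) (nat_lit 9) (C.cons (nat_lit 788) (C.node (nat_lit 2) (nat_lit 5) (nat_lit 8) (C.cons (nat_lit 356) (C.node (nat_lit 1) (nat_lit 2) (nat_lit 6) (C.cons (nat_lit 198) (C.miq (nat_lit 623997078) (nat_lit 50778536925586834860934081)) (C.cons (nat_lit 70) (C.node (nat_lit 1) (nat_lit 2) (nat_lit 5) (C.cons (nat_lit 54) (C.node (nat_lit 1) (nat_lit 2) (nat_lit 3) C.nil) C.nil)) C.nil))) (C.cons (nat_lit 292) (C.node (nat_lit 2) (nat_lit 6) (nat_lit 8) C.nil) C.nil))) C.nil)) C.nil)) C.nil))) C.nil)) C.nil))) C.nil))) C.nil)) C.nil))) C.nil)) C.nil))) C.nil))) C.nil)) C.nil))) (List.cons (C.node (nat_lit 2) (nat_lit 3) (nat_lit 5) (C.cons (nat_lit 300) (C.node (nat_lit 2) (nat_lit 3)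 (nat_lit 4) (C.cons (nat_lit 156) (C.node (nat_lit 2) (nat_lit 7) (nat_lit 9) (C.cons (nat_lit 644) (C.node (nat_lit 3) (nat_lit 7) (nat_lit 8) (C.cons (nat_lit 392) (C.node (nat_lit 4) (nat_lit 7) (nat_lit 9) (C.cons (nat_lit 656) (C.node (nat_lit 3) (nat_lit 4) (nat_lit 6) (C.cons (nat_lit 344)
  (C.node (nat_lit 2) (nat_lit 6) (nat_lit 8) (C.cons (nat_lit 324) (C.node (nat_lit 1) (nat_lit 2) (nat_lit 8) C.nil) C.nil)) C.nil)) C.nil)) C.nil)) C.nil)) (C.cons (nat_lit 28) (C.node (nat_lit 2) (nat_lit 3) (nat_lit 7) (C.cons (nat_lit 140) (C.node (nat_lit 2) (nat_lit 5) (nat_lit 9) (C.cons (nat_lit 612) (C.node (nat_lit 4) (nat_lit 6) (nat_lit 9) C.nil) C.nil)) C.nil)) C.nil))) (C.cons (nat_lit 44) (C.node (nat_lit 2) (nat_lit 5) (nat_lit 9) (C.cons (nat_lit 612) (C.node (nat_lit 4) (nat_lit 6) (nat_lit 9) (C.cons (nat_lit 592) (C.node (nat_lit 1) (nat_lit 2) (nat_lit 6) (C.cons (nat_lit 198) (C.miq (nat_lit 1377015408) (nat_lit 16935457844246285340312513))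 (C.cons (nat_lit 70) (C.node (nat_lit 3) (nat_lit 4) (nat_lit 6) C.nil) C.nil))) C.nil)) (C.cons (nat_lit 548) (C.node (nat_lit 5) (nat_lit 6) (nat_lit 9) (C.cons (nat_lit 608) (C.node (nat_lit 2) (nat_lit 6) (nat_lit 9) (C.cons (nat_lit 596) (C.node (nat_lit 2) (nat_lit 7) (nat_lit 9) (C.cons (nat_lit 644) (C.node (nat_lit 2) (nat_lit 8) (nat_lit 9) C.nil) C.nil)) (C.cons (nat_lit 580) (C.node (nat_lit 4) (nat_lit 6) (nat_lit 9) C.nil) C.nil))) C.nil)) C.nil))) C.nil))) (List.cons (C.node (nat_lit 1) (nat_lit 4) (nat_lit 9) (C.cons (nat_lit 786) (C.node (nat_lit 1) (nat_lit 2) (nat_lit 8) (C.cons (nat_lit 390) (C.miq (nat_lit 1092982896) (nat_lit 45949677563974856116339649)) (C.cons (nat_lit 262) (C.node (nat_lit 1) (nat_lit 7) (nat_lit 8) (C.cons (nat_lit 386) (C.node (nat_lit 1) (nat_lit 2) (nat_lit 4) (C.cons (nat_lit 150) (C.node (nat_lit 2) (nat_lit 6) (nat_lit 7) (C.cons (nat_lit 196) (C.node (nat_lit 4) (nat_lit 7) (nat_lit 9) (C.cons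 (nat_lit 656) (C.node (nat_lit 3) (nat_lit 8) (nat_lit 9) (C.cons (nat_lit 780) (C.miq (nat_lit 1635910803) (nat_lit 316739985161692318370890297)) (C.cons (nat_lit 776) (C.node (nat_lit 2) (nat_lit 3) (nat_lit 4) (C.cons (nat_lit 284) (C.node (nat_lit 2) (nat_lit 3) (nat_lit 5) (C.cons (nat_lit 44) (C.node (nat_lit 2) (nat_lit 7) (nat_lit 8) C.nil) C.nil)) (C.cons (nat_lit 28) (C.node (nat_lit 2) (nat_lit 5) (nat_lit 9) (C.cons (nat_lit 804) (C.node (nat_lit 2) (nat_lit 3) (nat_lit 9) (C.cons (nat_lit 652) (C.miq (nat_lit 1378978160) (nat_lit 16930329703438939528561601)) C.nil)) C.nil)) C.nil))) C.nil))) C.nil)) C.nil)) C.nil)) C.nil)) C.nil))) (C.cons (nat_lit 530) (C.node (nat_lit 1) (nat_lit 8) (nat_lit 9) (C.cons (nat_lit 770) (C.node (nat_lit 2) (nat_lit 3) (nat_lit 5) (C.cons (nat_lit 300) (C.node (nat_lit 2) (nat_lit 5) (nat_lit 9) (C.cons (nat_lit 548) (C.node (nat_lit 3) (nat_lit 8) (nat_lit 9) (C.cons (nat_lit 776) (C.node (nat_lit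 5) (nat_lit 8) (nat_lit 9) (C.cons (nat_lit 800) (C.node (nat_lit 2) (nat_lit 3) (nat_lit 9) (C.cons (nat_lit 652) (C.node (nat_lit 4) (nat_lit 7) (nat_lit 9) C.nil) C.nil)) C.nil)) C.nil)) C.nil)) (C.cons (nat_lit 44) (C.node (nat_lit 2) (nat_lit 5) (nat_lit 9) (C.cons (nat_lit 804) (C.node (nat_lit 3) (nat_lit 8) (nat_lit 9) (C.cons (nat_lit 776) (C.node (nat_lit 4) (nat_lit 8) (nat_lit 9) (C.cons (nat_lit 784) (C.node (nat_lit 2) (nat_lit 3) (nat_lit 9) (C.cons (nat_lit 652) (C.miq (nat_lit 1378978160) (nat_lit 16930329703438939528561601)) (C.cons (nat_lit 524) (C.node (nat_lit 3) (nat_lit 7) (nat_lit 9) C.nil) C.nil))) C.nil)) C.nil)) (C.cons (nat_lit 548) (C.node (nat_lit 5) (nat_lit 8) (nat_lit 9) (C.cons (nat_lit 800) (C.node (nat_lit 2) (nat_lit 6) (nat_lit 7) (C.cons (nat_lit 212) (C.node (nat_lit 2) (nat_lit 6) (nat_lit 9) (C.cons (nat_lit 580) (C.node (nat_lit 4) (nat_lit 6) (nat_lit 9) C.nil) C.nil)) (C.cons (nat_lit 196) (C.node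 (nat_lit 2) (nat_lit 6) (nat_lit 9) (C.cons (nat_lit 596) (C.node (nat_lit 2) (nat_lit 5) (nat_lit 6) (C.cons (nat_lit 356) (C.miq (nat_lit 1904542562) (nat_lit 351800457259755691040833613)) C.nil)) (C.cons (nat_lit 580) (C.node (nat_lit 4) (nat_lit 6) (nat_lit 9) C.nil) C.nil))) C.nil))) C.nil)) C.nil))) C.nil))) C.nil)) C.nil))) List.nil)))

theorem ok10_52 : okL par10 (nat_lit 55) c10_52 (nat_lit 52) = true := by decide +kernel


end Pool.Agent.MP_1f1ca1_co

end

section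

set_option autoImplicit false
set_option maxRecDepth 1000000
set_option maxHeartbeats 0

namespace Pool.Agent.MP_1f1ca1_co

theorem parOK10 : ParOK par10 (nat_lit 37) :=
  ⟨by decide, by decide, by decide, by decide, tb10_3_ok, tb10_4_ok, tb10_5_ok, patLib_bad⟩

theorem allRef10 (α : Type) [DecidableEq α] : AllRef α par10 (nat_lit 157) := by
  have h := AllRef.zero (α := α) par10
  replace h := AllRef.step ok10_0 h
  replace h := AllRef.step ok10_5 h
  replace h := AllRef.step ok10_6 h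
  replace h := AllRef.step ok10_7 h
  replace h := AllRef.step ok10_30 h
  replace h := AllRef.step ok10_37 h
  replace h := AllRef.step ok10_46 h
  replace h := AllRef.step ok10_47 h
  replace h := AllRef.step ok10_52 h
  replace h := AllRef.step ok10_55 h
  replace h := AllRef.step ok10_56 h
  replace h := AllRef.step ok10_57 h
  replace h := AllRef.step ok10_77 h
  replace h := AllRef.step ok10_78 h
  replace h := AllRef.step ok10_79 h
  replace h := AllRef.step ok10_100 h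
  replace h := AllRef.step ok10_123 h
  replace h := AllRef.step ok10_152 h
  exact h

theorem eng10 {α : Type} [DecidableEq α] {P : Finset α} {B L : Finset (Finset α)} (G : Geo P B L)
    (hn : P.card = 10) (h6 : ∀ β ∈ B, β.card ≤ 6) : 1920 < 60 * (B \ L).card :=
  engine (j := 156) parOK10 (allRef10 α) rfl G hn h6

end Pool.Agent.MP_1f1ca1_co

end

section

set_option autoImplicit false
set_option maxRecDepth 1000000
set_option maxHeartbeats 0

namespace Pool.Agent.MP_1f1ca1_co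

noncomputable def c11_231 : List C :=
  (List.cons (C.node (nat_lit 0) (nat_lit 3) (nat_lit 9) (C.cons (nat_lit 553) (C.node (nat_lit 0) (nat_lit 3) (nat_lit 10) (C.cons (nat_lit 1097) (C.node (nat_lit 0) (nat_lit 3) (nat_lit 4) (C.cons (nat_lit 281) (C.node (nat_lit 0) (nat_lit 6) (nat_lit 8) C.nil) C.nil)) (C.cons (nat_lit 1049) (C.node (nat_lit 0) (nat_lit 3) (nat_lit 6) (C.cons (nat_lit 329) (C.pat (nat_lit 1) (nat_lit 2271826226) (nat_lit 856881179660827729791279424032276675)) C.nil)) C.nil))) C.nil)) (List.cons (C.node (nat_lit 0) (nat_lit 2) (nat_lit 9) (C.cons (nat_lit 581) (C.node (nat_lit 0) (nat_lit 2) (nat_lit 8) (C.cons (nat_lit 277) (C.node (nat_lit 0) (nat_lit 2) (nat_lit 10) (C.cons (nat_lit 1029) (C.node (nat_lit 0) (nat_lit 3) (nat_lit 8) (C.cons (nat_lit 329) (C.node (nat_lit 0) (nat_lit 3) (nat_lit 9) (C.cons (nat_lit 553) (C.pat (nat_lit 1) (nat_lit 2539151921) (nat_lit 1012650085066289420577783623782564005)) (C.cons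 (nat_lit 521) (C.node (nat_lit 0) (nat_lit 5) (nat_lit 9) (C.cons (nat_lit 545) (C.node (nat_lit 0) (nat_lit 3) (nat_lit 4) (C.cons (nat_lit 1049) (C.node (nat_lit 0) (nat_lit 3) (nat_lit 5) C.nil) (C.cons (nat_lit 57) (C.pat (nat_lit 2) (nat_lit 19718898465) (nat_lit 1271198625923533895321505091678119635092178817)) C.nil))) C.nil)) C.nil))) (C.cons (nat_lit 265) (C.node (nat_lit 0) (nat_lit 6) (nat_lit 8) (C.cons (nat_lit 321) (C.node (nat_lit 0) (nat_lit 3) (nat_lit 9) (C.cons (nat_lit 553) (C.node (nat_lit 0) (nat_lit 3) (nat_lit 4) (C.cons (nat_lit 1049) (C.node (nat_lit 0) (nat_lit 3) (nat_lit 6) C.nil) (C.cons (nat_lit 89) (C.pat (nat_lit 2) (nat_lit 19451450130) (nat_lit 1984832679241775499253525286621234190166722433)) C.nil))) C.nil)) C.nil)) C.nil))) C.nil)) (C.cons (nat_lit 261) (C.node (nat_lit 0) (nat_lit 2) (nat_lit 4) (C.cons (nat_lit 1045) (C.node (nat_lit 0) (nat_lit 3) (nat_lit 9) (C.cons (nat_lit 553) (C.ref (nat_lit 198)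 (nat_lit 9515874652960)) (C.cons (nat_lit 521) (C.node (nat_lit 0) (nat_lit 5) (nat_lit 9) (C.cons (nat_lit 545) (C.node (nat_lit 0) (nat_lit 3) (nat_lit 8) (C.cons (nat_lit 329) (C.node (nat_lit 0) (nat_lit 4) (nat_lit 8) C.nil) (C.cons (nat_lit 281) (C.node (nat_lit 0) (nat_lit 6) (nat_lit 8) C.nil) C.nil))) C.nil)) C.nil))) (C.cons (nat_lit 21) (C.node (nat_lit 0) (nat_lit 2) (nat_lit 10) (C.cons (nat_lit 1029) (C.ref (nat_lit 231) (nat_lit 11649936536080)) C.nil)) C.nil))) C.nil))) (C.cons (nat_lit 517) (C.node (nat_lit 0) (nat_lit 2) (nat_lit 8) (C.cons (nat_lit 325) (C.node (nat_lit 0) (nat_lit 2) (nat_lit 4) (C.cons (nat_lit 1045) (C.node (nat_lit 0) (nat_lit 3) (nat_lit 8) (C.cons (nat_lit 281) (C.ref (nat_lit 209) (nat_lit 11645909942560)) (C.cons (nat_lit 265) (C.node (nat_lit 0) (nat_lit 4) (nat_lit 8) (C.cons (nat_lit 273) (C.node (nat_lit 0) (nat_lit 3) (nat_lit 4) (C.cons (nat_lit 89) (C.node (nat_lit 0) (nat_lit 4) (nat_lit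 5) C.nil) (C.cons (nat_lit 57) (C.node (nat_lit 0) (nat_lit 4) (nat_lit 6) C.nil) C.nil))) C.nil)) C.nil))) (C.cons (nat_lit 21) (C.node (nat_lit 0) (nat_lit 2) (nat_lit 10) (C.cons (nat_lit 1029) (C.node (nat_lit 0) (nat_lit 3) (nat_lit 8) (C.cons (nat_lit 281) (C.ref (nat_lit 212) (nat_lit 10615102063120)) C.nil)) C.nil)) C.nil))) (C.cons (nat_lit 277) (C.node (nat_lit 0) (nat_lit 2) (nat_lit 6) (C.cons (nat_lit 1093) (C.node (nat_lit 0) (nat_lit 3) (nat_lit 8) (C.cons (nat_lit 329) (C.ref (nat_lit 198) (nat_lit 11645894271760)) (C.cons (nat_lit 265) (C.node (nat_lit 0) (nat_lit 6) (nat_lit 8) (C.cons (nat_lit 321) (C.node (nat_lit 0) (nat_lit 3) (nat_lit 10) (C.cons (nat_lit 1065) (C.node (nat_lit 0) (nat_lit 4) (nat_lit 10) C.nil) (C.cons (nat_lit 1049) (C.node (nat_lit 0) (nat_lit 5) (nat_lit 10) C.nil) C.nil))) C.nil)) C.nil))) (C.cons (nat_lit 69) (C.node (nat_lit 0) (nat_lit 2) (nat_lit 10) (C.cons (nat_lit 1029) (C.node (nat_lit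 0) (nat_lit 3) (nat_lit 8) (C.cons (nat_lit 329) (C.node (nat_lit 0) (nat_lit 3) (nat_lit 9) (C.cons (nat_lit 553) (C.node (nat_lit 0) (nat_lit 6) (nat_lit 9) C.nil) C.nil)) C.nil)) C.nil)) C.nil))) (C.cons (nat_lit 261)
  (C.node (nat_lit 0) (nat_lit 2) (nat_lit 4) (C.cons (nat_lit 1045) (C.node (nat_lit 0) (nat_lit 2) (nat_lit 6) (C.cons (nat_lit 69) (C.node (nat_lit 0) (nat_lit 3) (nat_lit 8) (C.cons (nat_lit 329) (C.node (nat_lit 0) (nat_lit 4) (nat_lit 8) C.nil) (C.cons (nat_lit 281) (C.node (nat_lit 0) (nat_lit 6) (nat_lit 8) C.nil) C.nil))) C.nil)) (C.cons (nat_lit 85) (C.node (nat_lit 0) (nat_lit 2) (nat_lit 10) (C.cons (nat_lit 1029) (C.node (nat_lit 0) (nat_lit 4) (nat_lit 8) (C.cons (nat_lit 281) (C.node (nat_lit 0) (nat_lit 6) (nat_lit 8) C.nil) C.nil)) C.nil)) (C.cons (nat_lit 21) (C.node (nat_lit 0) (nat_lit 2) (nat_lit 6) (C.cons (nat_lit 1093) (C.node (nat_lit 0) (nat_lit 3) (nat_lit 8) (C.cons (nat_lit 329) (C.node (nat_lit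 0) (nat_lit 4) (nat_lit 8) C.nil) (C.cons (nat_lit 281) (C.node (nat_lit 0) (nat_lit 6) (nat_lit 8) C.nil) C.nil))) C.nil)) C.nil)))) C.nil)))) C.nil))) (List.cons (C.node (nat_lit 0) (nat_lit 2) (nat_lit 8) (C.cons (nat_lit 325) (C.node (nat_lit 0) (nat_lit 2) (nat_lit 4) (C.cons (nat_lit 1045) (C.node (nat_lit 0) (nat_lit 3) (nat_lit 8) (C.cons (nat_lit 281) (C.node (nat_lit 0) (nat_lit 3) (nat_lit 5) (C.cons (nat_lit 105) (C.node (nat_lit 0) (nat_lit 4) (nat_lit 5) (C.cons (nat_lit 49) (C.node (nat_lit 0) (nat_lit 4) (nat_lit 6) C.nil) C.nil)) (C.cons (nat_lit 41) (C.node (nat_lit 0) (nat_lit 3) (nat_lit 6) C.nil) C.nil))) (C.cons (nat_lit 265) (C.node (nat_lit 0) (nat_lit 4) (nat_lit 8) C.nil) C.nil))) (C.cons (nat_lit 21) (C.node (nat_lit 0) (nat_lit 2) (nat_lit 10) C.nil) C.nil))) (C.cons (nat_lit 277) (C.node (nat_lit 0) (nat_lit 2) (nat_lit 6) (C.cons (nat_lit 1093) (C.node (nat_lit 0) (nat_lit 3) (nat_lit 8) (C.cons (nat_lit 329)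 (C.node (nat_lit 0) (nat_lit 3) (nat_lit 4) (C.cons (nat_lit 57) (C.node (nat_lit 0) (nat_lit 4) (nat_lit 6) (C.cons (nat_lit 81) (C.node (nat_lit 0) (nat_lit 4) (nat_lit 10) C.nil) C.nil)) (C.cons (nat_lit 25) (C.node (nat_lit 0) (nat_lit 3) (nat_lit 5) C.nil) C.nil))) (C.cons (nat_lit 265) (C.node (nat_lit 0) (nat_lit 6) (nat_lit 8) C.nil) C.nil))) (C.cons (nat_lit 69) (C.node (nat_lit 0) (nat_lit 2) (nat_lit 10) C.nil) C.nil))) (C.cons (nat_lit 261) (C.node (nat_lit 0) (nat_lit 2) (nat_lit 4) (C.cons (nat_lit 1045) (C.node (nat_lit 0) (nat_lit 2) (nat_lit 6) C.nil) (C.cons (nat_lit 85) (C.node (nat_lit 0) (nat_lit 2) (nat_lit 10) C.nil) C.nil))) C.nil)))) (List.cons (C.node (nat_lit 0) (nat_lit 2) (nat_lit 9) (C.cons (nat_lit 581) (C.node (nat_lit 0) (nat_lit 3) (nat_lit 9) (C.cons (nat_lit 553) (C.ref (nat_lit 201) (nat_lit 9515874652960)) (C.cons (nat_lit 521) (C.node (nat_lit 0) (nat_lit 5) (nat_lit 9) C.nil) C.nil))) (C.cons (nat_lit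 525) (C.node (nat_lit 0) (nat_lit 5) (nat_lit 9) (C.cons (nat_lit 609) (C.ref (nat_lit 206) (nat_lit 11577455809360)) (C.cons (nat_lit 545) (C.node (nat_lit 0) (nat_lit 6) (nat_lit 9) C.nil) C.nil))) (C.cons (nat_lit 517) (C.node (nat_lit 0) (nat_lit 3) (nat_lit 9) (C.cons (nat_lit 585) (C.node (nat_lit 0) (nat_lit 5) (nat_lit 9) C.nil) (C.cons (nat_lit 553) (C.node (nat_lit 0) (nat_lit 6) (nat_lit 9) C.nil) C.nil))) C.nil)))) (List.cons (C.node (nat_lit 0) (nat_lit 1) (nat_lit 2) (C.cons (nat_lit 1031) (C.node (nat_lit 0) (nat_lit 1) (nat_lit 3) (C.cons (nat_lit 11) (C.ref (nat_lit 230) (nat_lit 11649936536080)) C.nil)) (C.cons (nat_lit 15) (C.node (nat_lit 0) (nat_lit 1) (nat_lit 10) (C.cons (nat_lit 1027) (C.ref (nat_lit 232) (nat_lit 11649936536080)) C.nil)) (C.cons (nat_lit 7) (C.node (nat_lit 0) (nat_lit 1) (nat_lit 3) (C.cons (nat_lit 1035) (C.node (nat_lit 0) (nat_lit 2) (nat_lit 9) (C.cons (nat_lit 581) (C.node (nat_lit 0) (nat_lit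 2) (nat_lit 10) (C.cons (nat_lit 1045) (C.node (nat_lit 0) (nat_lit 2) (nat_lit 3) (C.cons (nat_lit 269) (C.node (nat_lit 0) (nat_lit 3) (nat_lit 9) (C.cons (nat_lit 553) (C.ref (nat_lit 199) (nat_lit 9515874652960)) (C.cons (nat_lit 521) (C.node (nat_lit 0) (nat_lit 5) (nat_lit 9) (C.cons (nat_lit 545) (C.node (nat_lit 0) (nat_lit 4) (nat_lit 8) (C.cons (nat_lit 337)
  (C.node (nat_lit 0) (nat_lit 3) (nat_lit 4) (C.cons (nat_lit 57) (C.node (nat_lit 0) (nat_lit 3) (nat_lit 6) (C.cons (nat_lit 73) (C.node (nat_lit 0) (nat_lit 6) (nat_lit 5) (C.cons (nat_lit 1121) (C.pat (nat_lit 2) (nat_lit 38975940228) (nat_lit 12956824497814104362167964344898139816908096523)) C.nil)) C.nil)) (C.cons (nat_lit 25) (C.node (nat_lit 0) (nat_lit 4) (nat_lit 5) C.nil) C.nil))) (C.cons (nat_lit 273) (C.node (nat_lit 0) (nat_lit 6) (nat_lit 8) C.nil) C.nil))) C.nil)) C.nil))) (C.cons (nat_lit 13) (C.node (nat_lit 0) (nat_lit 2) (nat_lit 8) (C.cons (nat_lit 261)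 (C.node (nat_lit 0) (nat_lit 3) (nat_lit 9) (C.cons (nat_lit 553) (C.node (nat_lit 0) (nat_lit 4) (nat_lit 5) (C.cons (nat_lit 113) (C.node (nat_lit 0) (nat_lit 5) (nat_lit 10) (C.cons (nat_lit 1057) (C.node (nat_lit 0) (nat_lit 6) (nat_lit 10) C.nil) C.nil)) (C.cons (nat_lit 49) (C.node (nat_lit 0) (nat_lit 5) (nat_lit 6) (C.cons (nat_lit 1121) (C.node (nat_lit 0) (nat_lit 6) (nat_lit 3) (C.cons (nat_lit 329) (C.node (nat_lit 0) (nat_lit 6) (nat_lit 4) C.nil) (C.cons (nat_lit 89) (C.pat (nat_lit 2) (nat_lit 30389084822) (nat_lit 3679811136663721927769203212324538113606353931)) C.nil))) C.nil)) C.nil))) (C.cons (nat_lit 521) (C.node (nat_lit 0) (nat_lit 5) (nat_lit 9) C.nil) C.nil))) C.nil)) C.nil))) (C.cons (nat_lit 1029) (C.node (nat_lit 0) (nat_lit 3) (nat_lit 9) (C.cons (nat_lit 553) (C.ref (nat_lit 200) (nat_lit 9515874652960)) (C.cons (nat_lit 521) (C.node (nat_lit 0) (nat_lit 5) (nat_lit 9) (C.cons (nat_lit 545) (C.node (nat_lit 0)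 (nat_lit 2) (nat_lit 3) (C.cons (nat_lit 269) (C.node (nat_lit 0) (nat_lit 2) (nat_lit 4) C.nil) (C.cons (nat_lit 29) (C.node (nat_lit 0) (nat_lit 2) (nat_lit 8) C.nil) C.nil))) C.nil)) C.nil))) C.nil))) (C.cons (nat_lit 525) (C.node (nat_lit 0) (nat_lit 5) (nat_lit 9) (C.cons (nat_lit 609) (C.ref (nat_lit 204) (nat_lit 9515871507280)) (C.cons (nat_lit 545) (C.node (nat_lit 0) (nat_lit 6) (nat_lit 9) (C.cons (nat_lit 577) (C.ref (nat_lit 233) (nat_lit 11649936536080)) C.nil)) C.nil))) (C.cons (nat_lit 517) (C.node (nat_lit 0) (nat_lit 2) (nat_lit 10) (C.cons (nat_lit 1093) (C.node (nat_lit 0) (nat_lit 4) (nat_lit 10) (C.cons (nat_lit 1073) (C.ref (nat_lit 200) (nat_lit 9447423546400)) (C.cons (nat_lit 1041) (C.node (nat_lit 0) (nat_lit 5) (nat_lit 10) (C.cons (nat_lit 1057) (C.node (nat_lit 0) (nat_lit 2) (nat_lit 4) (C.cons (nat_lit 277) (C.node (nat_lit 0) (nat_lit 2) (nat_lit 3) C.nil) (C.cons (nat_lit 29) (C.node (nat_lit 0) (nat_lit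 2) (nat_lit 8) C.nil) C.nil))) C.nil)) C.nil))) (C.cons (nat_lit 1045) (C.node (nat_lit 0) (nat_lit 5) (nat_lit 10) (C.cons (nat_lit 1121) (C.node (nat_lit 0) (nat_lit 4) (nat_lit 5) (C.cons (nat_lit 57) (C.node (nat_lit 0) (nat_lit 5) (nat_lit 9) (C.cons (nat_lit 545) (C.node (nat_lit 0) (nat_lit 3) (nat_lit 9) (C.cons (nat_lit 585) (C.node (nat_lit 0) (nat_lit 2) (nat_lit 3) (C.cons (nat_lit 269) (C.node (nat_lit 0) (nat_lit 2) (nat_lit 6) (C.cons (nat_lit 69) (C.node (nat_lit 0) (nat_lit 4) (nat_lit 6) (C.cons (nat_lit 337) (C.pat (nat_lit 1) (nat_lit 1754552881) (nat_lit 1510985086366362436164285482961274753)) C.nil)) C.nil)) (C.cons (nat_lit 13) (C.node (nat_lit 0) (nat_lit 3) (nat_lit 8) C.nil) C.nil))) (C.cons (nat_lit 521) (C.node (nat_lit 0) (nat_lit 6) (nat_lit 9) C.nil) C.nil))) C.nil)) (C.cons (nat_lit 49) (C.node (nat_lit 0) (nat_lit 3) (nat_lit 5) (C.cons (nat_lit 553) (C.node (nat_lit 0) (nat_lit 6) (nat_lit 9) (C.cons (nat_lit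 577) (C.node (nat_lit 0) (nat_lit 4) (nat_lit 3) (C.cons (nat_lit 281) (C.node (nat_lit 0) (nat_lit 4) (nat_lit 6) C.nil) (C.cons (nat_lit 89) (C.node (nat_lit 0) (nat_lit 4) (nat_lit 8) C.nil) C.nil))) C.nil)) (C.cons (nat_lit 41) (C.node (nat_lit 0) (nat_lit 5) (nat_lit 9) C.nil) C.nil))) C.nil))) (C.cons (nat_lit 1057) (C.node (nat_lit 0) (nat_lit 6) (nat_lit 10) (C.cons (nat_lit 1089) (C.node (nat_lit 0) (nat_lit 2) (nat_lit 6) (C.cons (nat_lit 325) (C.node (nat_lit 0) (nat_lit 2) (nat_lit 3) C.nil) (C.cons (nat_lit 77)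
  (C.node (nat_lit 0) (nat_lit 2) (nat_lit 8) C.nil) C.nil))) C.nil)) C.nil))) (C.cons (nat_lit 1029) (C.node (nat_lit 0) (nat_lit 3) (nat_lit 9) (C.cons (nat_lit 585) (C.node (nat_lit 0) (nat_lit 5) (nat_lit 9) (C.cons (nat_lit 545) (C.node (nat_lit 0) (nat_lit 3) (nat_lit 5) (C.cons (nat_lit 57) (C.node (nat_lit 0) (nat_lit 2) (nat_lit 3) (C.cons (nat_lit 269) (C.node (nat_lit 0) (nat_lit 2) (nat_lit 4) (C.cons (nat_lit 85) (C.node (nat_lit 0) (nat_lit 4) (nat_lit 8) C.nil) C.nil)) C.nil)) C.nil)) C.nil)) (C.cons (nat_lit 553) (C.node (nat_lit 0) (nat_lit 6) (nat_lit 9) (C.cons (nat_lit 577) (C.node (nat_lit 0) (nat_lit 4) (nat_lit 5) (C.cons (nat_lit 1073) (C.node (nat_lit 0) (nat_lit 5) (nat_lit 6) C.nil) (C.cons (nat_lit 113) (C.node (nat_lit 0) (nat_lit 4) (nat_lit 10) C.nil) C.nil))) C.nil)) (C.cons (nat_lit 521) (C.node (nat_lit 0) (nat_lit 5) (nat_lit 9) (C.cons (nat_lit 609) (C.node (nat_lit 0) (nat_lit 3) (nat_lit 5) (C.cons (nat_lit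 57) (C.node (nat_lit 0) (nat_lit 5) (nat_lit 10) C.nil) C.nil)) C.nil)) C.nil)))) C.nil)))) C.nil)))) (C.cons (nat_lit 11) (C.node (nat_lit 0) (nat_lit 1) (nat_lit 10) (C.cons (nat_lit 1027) (C.ref (nat_lit 234) (nat_lit 11649936536080)) C.nil)) C.nil))) C.nil)))) (List.cons (C.node (nat_lit 0) (nat_lit 3) (nat_lit 9) (C.cons (nat_lit 585) (C.node (nat_lit 0) (nat_lit 3) (nat_lit 5) (C.cons (nat_lit 1065) (C.node (nat_lit 0) (nat_lit 6) (nat_lit 10) C.nil) C.nil)) (C.cons (nat_lit 553) (C.node (nat_lit 0) (nat_lit 3) (nat_lit 6) (C.cons (nat_lit 1097) (C.node (nat_lit 0) (nat_lit 5) (nat_lit 10) C.nil) C.nil)) C.nil))) (List.cons (C.node (nat_lit 0) (nat_lit 2) (nat_lit 4) (C.cons (nat_lit 1045) (C.node (nat_lit 0) (nat_lit 2) (nat_lit 6) (C.cons (nat_lit 69) (C.ref (nat_lit 236) (nat_lit 11649936536080)) C.nil)) (C.cons (nat_lit 85) (C.node (nat_lit 0) (nat_lit 2) (nat_lit 10) (C.cons (nat_lit 1029) (C.node (nat_lit 0) (nat_lit 4) (nat_lit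 9) (C.cons (nat_lit 561) (C.node (nat_lit 0) (nat_lit 4) (nat_lit 10) C.nil) C.nil)) C.nil)) (C.cons (nat_lit 21) (C.node (nat_lit 0) (nat_lit 2) (nat_lit 6) (C.cons (nat_lit 1093) (C.node (nat_lit 0) (nat_lit 4) (nat_lit 10) (C.cons (nat_lit 1073) (C.node (nat_lit 0) (nat_lit 3) (nat_lit 10) C.nil) C.nil)) C.nil)) C.nil)))) (List.cons (C.node (nat_lit 0) (nat_lit 3) (nat_lit 8) (C.cons (nat_lit 329) (C.node (nat_lit 0) (nat_lit 2) (nat_lit 3) (C.cons (nat_lit 1037) (C.node (nat_lit 0) (nat_lit 2) (nat_lit 6) (C.cons (nat_lit 85) (C.node (nat_lit 0) (nat_lit 2) (nat_lit 8) (C.cons (nat_lit 261) (C.node (nat_lit 0) (nat_lit 4) (nat_lit 8) (C.cons (nat_lit 273) (C.node (nat_lit 0) (nat_lit 3) (nat_lit 5) (C.cons (nat_lit 553) (C.node (nat_lit 0) (nat_lit 4) (nat_lit 9) (C.cons (nat_lit 529) (C.node (nat_lit 0) (nat_lit 6) (nat_lit 9) C.nil) C.nil)) (C.cons (nat_lit 41) (C.node (nat_lit 0) (nat_lit 3) (nat_lit 9) C.nil) C.nil))) C.nil)) C.nil))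 (C.cons (nat_lit 69) (C.node (nat_lit 0) (nat_lit 2) (nat_lit 4) (C.cons (nat_lit 277) (C.ref (nat_lit 203) (nat_lit 10615102120720)) (C.cons (nat_lit 21) (C.node (nat_lit 0) (nat_lit 2) (nat_lit 8) (C.cons (nat_lit 261) (C.node (nat_lit 0) (nat_lit 4) (nat_lit 8) C.nil) C.nil)) C.nil))) C.nil))) (C.cons (nat_lit 13) (C.node (nat_lit 0) (nat_lit 2) (nat_lit 8) (C.cons (nat_lit 277) (C.node (nat_lit 0) (nat_lit 2) (nat_lit 6) (C.cons (nat_lit 1093) (C.ref (nat_lit 196) (nat_lit 11645894271760)) (C.cons (nat_lit 69) (C.node (nat_lit 0) (nat_lit 2) (nat_lit 10) (C.cons (nat_lit 1029) (C.node (nat_lit 0) (nat_lit 3) (nat_lit 9) (C.cons (nat_lit 553) (C.node (nat_lit 0) (nat_lit 3) (nat_lit 10) C.nil) C.nil)) C.nil)) C.nil))) (C.cons (nat_lit 261) (C.node (nat_lit 0) (nat_lit 4) (nat_lit 8) (C.cons (nat_lit 273) (C.node (nat_lit 0) (nat_lit 3) (nat_lit 9) (C.cons (nat_lit 553) (C.node (nat_lit 0) (nat_lit 3) (nat_lit 10) C.nil) C.nil)) C.nil))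 C.nil))) C.nil))) (C.cons (nat_lit 269) (C.node (nat_lit 0) (nat_lit 4) (nat_lit 8) (C.cons (nat_lit 337) (C.node (nat_lit 0) (nat_lit 2) (nat_lit 4) (C.cons (nat_lit 1045)
  (C.node (nat_lit 0) (nat_lit 2) (nat_lit 6) (C.cons (nat_lit 69) (C.ref (nat_lit 203) (nat_lit 10615102055440)) C.nil)) (C.cons (nat_lit 21) (C.node (nat_lit 0) (nat_lit 2) (nat_lit 6) (C.cons (nat_lit 1093) (C.ref (nat_lit 196) (nat_lit 11645894206480)) (C.cons (nat_lit 69) (C.node (nat_lit 0) (nat_lit 2) (nat_lit 10) (C.cons (nat_lit 1029) (C.node (nat_lit 0) (nat_lit 4) (nat_lit 9) (C.cons (nat_lit 561) (C.node (nat_lit 0) (nat_lit 4) (nat_lit 10) C.nil) C.nil)) C.nil)) C.nil))) C.nil))) (C.cons (nat_lit 273) (C.node (nat_lit 0) (nat_lit 6) (nat_lit 8) (C.cons (nat_lit 321) (C.ref (nat_lit 237) (nat_lit 11649936536080)) C.nil)) C.nil))) (C.cons (nat_lit 265) (C.node (nat_lit 0) (nat_lit 2) (nat_lit 3) (C.cons (nat_lit 1037) (C.node (nat_lit 0) (nat_lit 2) (nat_lit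 4) (C.cons (nat_lit 277) (C.node (nat_lit 0) (nat_lit 2) (nat_lit 6) (C.cons (nat_lit 69) (C.node (nat_lit 0) (nat_lit 6) (nat_lit 8) (C.cons (nat_lit 321) (C.ref (nat_lit 236) (nat_lit 11649936474640)) C.nil)) C.nil)) (C.cons (nat_lit 85) (C.node (nat_lit 0) (nat_lit 2) (nat_lit 8) (C.cons (nat_lit 261) (C.node (nat_lit 0) (nat_lit 4) (nat_lit 8) (C.cons (nat_lit 273) (C.node (nat_lit 0) (nat_lit 6) (nat_lit 8) C.nil) C.nil)) C.nil)) (C.cons (nat_lit 21) (C.node (nat_lit 0) (nat_lit 2) (nat_lit 6) (C.cons (nat_lit 325) (C.node (nat_lit 0) (nat_lit 4) (nat_lit 8) (C.cons (nat_lit 273) (C.node (nat_lit 0) (nat_lit 3) (nat_lit 5) (C.cons (nat_lit 553) (C.node (nat_lit 0) (nat_lit 3) (nat_lit 6) C.nil) (C.cons (nat_lit 105) (C.node (nat_lit 0) (nat_lit 3) (nat_lit 9) C.nil) C.nil))) C.nil)) (C.cons (nat_lit 69) (C.node (nat_lit 0) (nat_lit 2) (nat_lit 8) C.nil) C.nil))) C.nil)))) (C.cons (nat_lit 77) (C.node (nat_lit 0) (nat_lit 2) (nat_lit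 8) (C.cons (nat_lit 277) (C.node (nat_lit 0) (nat_lit 2) (nat_lit 10) (C.cons (nat_lit 1029) (C.node (nat_lit 0) (nat_lit 6) (nat_lit 8) (C.cons (nat_lit 321) (C.node (nat_lit 0) (nat_lit 3) (nat_lit 9) (C.cons (nat_lit 553) (C.node (nat_lit 0) (nat_lit 3) (nat_lit 10) C.nil) C.nil)) C.nil)) C.nil)) (C.cons (nat_lit 261) (C.node (nat_lit 0) (nat_lit 2) (nat_lit 4) (C.cons (nat_lit 1045) (C.node (nat_lit 0) (nat_lit 3) (nat_lit 9) (C.cons (nat_lit 553) (C.node (nat_lit 0) (nat_lit 3) (nat_lit 10) (C.cons (nat_lit 1033) (C.node (nat_lit 0) (nat_lit 4) (nat_lit 5) (C.cons (nat_lit 113) (C.node (nat_lit 0) (nat_lit 4) (nat_lit 8) C.nil) C.nil)) C.nil)) (C.cons (nat_lit 521) (C.node (nat_lit 0) (nat_lit 3) (nat_lit 5) (C.cons (nat_lit 1065) (C.node (nat_lit 0) (nat_lit 6) (nat_lit 10) C.nil) C.nil)) C.nil))) (C.cons (nat_lit 21) (C.node (nat_lit 0) (nat_lit 2) (nat_lit 10) C.nil) C.nil))) C.nil))) (C.cons (nat_lit 13) (C.node (nat_lit 0) (nat_lit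 2) (nat_lit 8) (C.cons (nat_lit 325) (C.node (nat_lit 0) (nat_lit 4) (nat_lit 8) (C.cons (nat_lit 273) (C.node (nat_lit 0) (nat_lit 2) (nat_lit 4) (C.cons (nat_lit 1045) (C.node (nat_lit 0) (nat_lit 4) (nat_lit 5) (C.cons (nat_lit 561) (C.node (nat_lit 0) (nat_lit 4) (nat_lit 6) C.nil) (C.cons (nat_lit 113) (C.node (nat_lit 0) (nat_lit 4) (nat_lit 9) C.nil) C.nil))) C.nil)) C.nil)) (C.cons (nat_lit 277) (C.node (nat_lit 0) (nat_lit 6) (nat_lit 8) (C.cons (nat_lit 321) (C.node (nat_lit 0) (nat_lit 2) (nat_lit 6) (C.cons (nat_lit 1093) (C.node (nat_lit 0) (nat_lit 3) (nat_lit 10) (C.cons (nat_lit 1065) (C.node (nat_lit 0) (nat_lit 4) (nat_lit 10) C.nil) C.nil)) C.nil)) C.nil)) (C.cons (nat_lit 261) (C.node (nat_lit 0) (nat_lit 4) (nat_lit 8) (C.cons (nat_lit 337) (C.node (nat_lit 0) (nat_lit 2) (nat_lit 4) (C.cons (nat_lit 1045) (C.node (nat_lit 0) (nat_lit 2) (nat_lit 6) C.nil) C.nil)) C.nil)) C.nil)))) C.nil)))) C.nil)))) (List.cons (C.node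 (nat_lit 0) (nat_lit 3) (nat_lit 8) (C.cons (nat_lit 329) (C.node (nat_lit 0) (nat_lit 2) (nat_lit 3) (C.cons (nat_lit 1037) (C.node (nat_lit 0) (nat_lit 2) (nat_lit 6) (C.cons (nat_lit 69) (C.node (nat_lit 0) (nat_lit 3) (nat_lit 4) (C.cons (nat_lit 537) (C.node (nat_lit 0) (nat_lit 3) (nat_lit 5) C.nil) (C.cons (nat_lit 57)
  (C.node (nat_lit 0) (nat_lit 3) (nat_lit 9) C.nil) C.nil))) C.nil)) (C.cons (nat_lit 13) (C.node (nat_lit 0) (nat_lit 2) (nat_lit 6) (C.cons (nat_lit 1093) (C.node (nat_lit 0) (nat_lit 3) (nat_lit 9) (C.cons (nat_lit 553) (C.node (nat_lit 0) (nat_lit 3) (nat_lit 4) (C.cons (nat_lit 1049) (C.node (nat_lit 0) (nat_lit 5) (nat_lit 10) C.nil) C.nil)) (C.cons (nat_lit 537) (C.node (nat_lit 0) (nat_lit 3) (nat_lit 5) (C.cons (nat_lit 1065) (C.node (nat_lit 0) (nat_lit 4) (nat_lit 10) C.nil) C.nil)) C.nil))) C.nil)) C.nil))) (C.cons (nat_lit 265) (C.node (nat_lit 0) (nat_lit 6) (nat_lit 8) C.nil) C.nil))) (List.cons (C.node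 (nat_lit 0) (nat_lit 2) (nat_lit 8) (C.cons (nat_lit 325) (C.node (nat_lit 0) (nat_lit 3) (nat_lit 8) (C.cons (nat_lit 281) (C.ref (nat_lit 215) (nat_lit 11645894275600)) (C.cons (nat_lit 265) (C.node (nat_lit 0) (nat_lit 4) (nat_lit 8) C.nil) C.nil))) (C.cons (nat_lit 277) (C.ref (nat_lit 239) (nat_lit 11649936536080)) (C.cons (nat_lit 269) (C.ref (nat_lit 239) (nat_lit 11649936474640)) (C.cons (nat_lit 261) (C.node (nat_lit 0) (nat_lit 3) (nat_lit 8) (C.cons (nat_lit 329) (C.node (nat_lit 0) (nat_lit 4) (nat_lit 8) C.nil) (C.cons (nat_lit 281) (C.node (nat_lit 0) (nat_lit 6) (nat_lit 8) C.nil) C.nil))) C.nil))))) (List.cons (C.node (nat_lit 0) (nat_lit 1) (nat_lit 3) (C.cons (nat_lit 1035) (C.ref (nat_lit 232) (nat_lit 10619144323600)) (C.cons (nat_lit 11) (C.node (nat_lit 0) (nat_lit 1) (nat_lit 10) (C.cons (nat_lit 1027) (C.node (nat_lit 0) (nat_lit 2) (nat_lit 8) (C.cons (nat_lit 325) (C.node (nat_lit 0) (nat_lit 2) (nat_lit 9) (C.cons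 (nat_lit 525) (C.node (nat_lit 0) (nat_lit 2) (nat_lit 10) (C.cons (nat_lit 1029) (C.node (nat_lit 0) (nat_lit 4) (nat_lit 8) (C.cons (nat_lit 281) (C.ref (nat_lit 212) (nat_lit 10615117852960)) C.nil)) C.nil)) (C.cons (nat_lit 517) (C.node (nat_lit 0) (nat_lit 2) (nat_lit 3) (C.cons (nat_lit 1037) (C.node (nat_lit 0) (nat_lit 4) (nat_lit 8) (C.cons (nat_lit 281) (C.ref (nat_lit 212) (nat_lit 11645910004000)) C.nil)) C.nil)) C.nil))) (C.cons (nat_lit 269) (C.node (nat_lit 0) (nat_lit 2) (nat_lit 9) (C.cons (nat_lit 581) (C.node (nat_lit 0) (nat_lit 2) (nat_lit 10) (C.cons (nat_lit 1029) (C.ref (nat_lit 231) (nat_lit 11585496236320)) C.nil)) (C.cons (nat_lit 517) (C.node (nat_lit 0) (nat_lit 2) (nat_lit 6) (C.cons (nat_lit 1093) (C.ref (nat_lit 231) (nat_lit 10490279575840)) C.nil)) C.nil))) (C.cons (nat_lit 261) (C.node (nat_lit 0) (nat_lit 2) (nat_lit 9) (C.cons (nat_lit 581) (C.node (nat_lit 0) (nat_lit 2) (nat_lit 3) (C.cons (nat_lit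 1037) (C.node (nat_lit 0) (nat_lit 4) (nat_lit 9) (C.cons (nat_lit 561) (C.node (nat_lit 0) (nat_lit 3) (nat_lit 9) C.nil) (C.cons (nat_lit 537) (C.node (nat_lit 0) (nat_lit 5) (nat_lit 9) C.nil) C.nil))) C.nil)) (C.cons (nat_lit 525) (C.node (nat_lit 0) (nat_lit 2) (nat_lit 6) (C.cons (nat_lit 1093) (C.node (nat_lit 0) (nat_lit 4) (nat_lit 10) (C.cons (nat_lit 1073) (C.node (nat_lit 0) (nat_lit 3) (nat_lit 10) C.nil) (C.cons (nat_lit 1049) (C.node (nat_lit 0) (nat_lit 5) (nat_lit 10) C.nil) C.nil))) C.nil)) C.nil))) C.nil)))) C.nil)) C.nil))) (List.cons (C.node (nat_lit 0) (nat_lit 2) (nat_lit 6) (C.cons (nat_lit 581) (C.node (nat_lit 0) (nat_lit 3) (nat_lit 5) (C.cons (nat_lit 553) (C.node (nat_lit 0) (nat_lit 4) (nat_lit 9) (C.cons (nat_lit 529) (C.node (nat_lit 0) (nat_lit 4) (nat_lit 5) (C.cons (nat_lit 1073) (C.node (nat_lit 0) (nat_lit 4) (nat_lit 6) C.nil) (C.cons (nat_lit 113) (C.pat (nat_lit 2) (nat_lit 15419475045) (nat_lit 602186478438626949030924449682411262475044737))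 C.nil))) C.nil)) (C.cons (nat_lit 41) (C.node (nat_lit 0) (nat_lit 3) (nat_lit 9) C.nil) C.nil))) (C.cons (nat_lit 69) (C.node (nat_lit 0) (nat_lit 2) (nat_lit 9) C.nil) C.nil))) List.nil))))))))))))

theorem ok11_231 : okL par11 (nat_lit 243) c11_231 (nat_lit 231) = true := by decide +kernel

noncomputable def c11_243 : List C :=
  (List.cons (C.node (nat_lit 0) (nat_lit 1) (nat_lit 9) (C.cons (nat_lit 531) (C.ref (nat_lit 235) (nat_lit 11649936536080)) (C.cons (nat_lit 523) (C.ref (nat_lit 235) (nat_lit 11649936474640)) (C.cons (nat_lit 519) (C.node (nat_lit 0) (nat_lit 1) (nat_lit 3) (C.cons (nat_lit 1035) (C.node (nat_lit 0) (nat_lit 1) (nat_lit 4) (C.cons (nat_lit 19) (C.ref (nat_lit 230) (nat_lit 10619144323600)) C.nil)) (C.cons (nat_lit 27) (C.node (nat_lit 0) (nat_lit 1) (nat_lit 10) (C.cons (nat_lit 1027) (C.ref (nat_lit 238) (nat_lit 11649936536080)) C.nil)) (C.cons (nat_lit 11) (C.node (nat_lit 0) (nat_lit 1) (nat_lit 4) (C.cons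 (nat_lit 1043) (C.ref (nat_lit 230) (nat_lit 10619144385040)) (C.cons (nat_lit 19) (C.node (nat_lit 0) (nat_lit 1) (nat_lit 10) (C.cons (nat_lit 1027) (C.ref (nat_lit 240) (nat_lit 11649936536080)) C.nil)) C.nil))) C.nil)))) (C.cons (nat_lit 515) (C.node (nat_lit 0) (nat_lit 1) (nat_lit 2) (C.cons (nat_lit 1031) (C.node (nat_lit 0) (nat_lit 1) (nat_lit 3) (C.cons (nat_lit 27) (C.ref (nat_lit 238) (nat_lit 10619144385040)) (C.cons (nat_lit 11) (C.node (nat_lit 0) (nat_lit 1) (nat_lit 4) (C.cons (nat_lit 19) (C.ref (nat_lit 240) (nat_lit 10619144385040)) C.nil)) C.nil))) (C.cons (nat_lit 23) (C.ref (nat_lit 241) (nat_lit 11649936536080)) (C.cons (nat_lit 15) (C.ref (nat_lit 241) (nat_lit 11649936474640)) (C.cons (nat_lit 7) (C.node (nat_lit 0) (nat_lit 1) (nat_lit 3) (C.cons (nat_lit 1035) (C.node (nat_lit 0) (nat_lit 1) (nat_lit 4) (C.cons (nat_lit 19) (C.ref (nat_lit 234) (nat_lit 10619144323600)) C.nil)) (C.cons (nat_lit 27) (C.node (nat_lit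 0) (nat_lit 1) (nat_lit 10) (C.cons (nat_lit 1027) (C.node (nat_lit 0) (nat_lit 3) (nat_lit 8) (C.cons (nat_lit 329) (C.node (nat_lit 0) (nat_lit 2) (nat_lit 8) (C.cons (nat_lit 277) (C.node (nat_lit 0) (nat_lit 2) (nat_lit 3) (C.cons (nat_lit 1037) (C.ref (nat_lit 242) (nat_lit 11649936536080)) (C.cons (nat_lit 525) (C.ref (nat_lit 242) (nat_lit 10619144385040)) (C.cons (nat_lit 13) (C.node (nat_lit 0) (nat_lit 2) (nat_lit 9) (C.cons (nat_lit 581) (C.node (nat_lit 0) (nat_lit 2) (nat_lit 10) C.nil) C.nil)) C.nil)))) (C.cons (nat_lit 261) (C.node (nat_lit 0) (nat_lit 4) (nat_lit 8) C.nil) C.nil))) (C.cons (nat_lit 269) (C.node (nat_lit 0) (nat_lit 4) (nat_lit 8) (C.cons (nat_lit 337) (C.node (nat_lit 0) (nat_lit 2) (nat_lit 4) (C.cons (nat_lit 1045) (C.ref (nat_lit 242) (nat_lit 11649936474640)) (C.cons (nat_lit 533) (C.ref (nat_lit 242) (nat_lit 10619144323600)) (C.cons (nat_lit 21) (C.node (nat_lit 0) (nat_lit 2) (nat_lit 9) (C.cons (nat_lit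 581) (C.node (nat_lit 0) (nat_lit 2) (nat_lit 10) C.nil) C.nil)) C.nil)))) (C.cons (nat_lit 273) (C.node (nat_lit 0) (nat_lit 6) (nat_lit 8) C.nil) C.nil))) (C.cons (nat_lit 265) (C.node (nat_lit 0) (nat_lit 2) (nat_lit 8) (C.cons (nat_lit 325) (C.node (nat_lit 0) (nat_lit 4) (nat_lit 8) C.nil) (C.cons (nat_lit 277) (C.node (nat_lit 0) (nat_lit 6) (nat_lit 8) C.nil) C.nil))) C.nil)))) C.nil)) (C.cons (nat_lit 11) (C.node (nat_lit 0) (nat_lit 1) (nat_lit 4) (C.cons (nat_lit 1043) (C.ref (nat_lit 234) (nat_lit 10619144385040)) (C.cons (nat_lit 19) (C.node (nat_lit 0) (nat_lit 1) (nat_lit 10) C.nil) C.nil))) C.nil)))) C.nil))))) C.nil))))) (List.cons (C.node (nat_lit 0) (nat_lit 1) (nat_lit 3) (C.cons (nat_lit 523) (C.node (nat_lit 0) (nat_lit 1) (nat_lit 5) (C.cons (nat_lit 35) (C.node (nat_lit 0) (nat_lit 2) (nat_lit 3) (C.cons (nat_lit 29) (C.node (nat_lit 0) (nat_lit 2) (nat_lit 9) (C.cons (nat_lit 517) (C.ref (nat_lit 236) (nat_lit 10619128594720))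 C.nil)) (C.cons (nat_lit 13) (C.node (nat_lit 0) (nat_lit 2) (nat_lit 4) (C.cons (nat_lit 533) (C.node (nat_lit 0) (nat_lit 5) (nat_lit 9) (C.cons (nat_lit 609) (C.node (nat_lit 0) (nat_lit 5) (nat_lit 3) (C.cons (nat_lit 1065) (C.node (nat_lit 0) (nat_lit 5) (nat_lit 4) C.nil) (C.cons (nat_lit 57) (C.node (nat_lit 0) (nat_lit 5) (nat_lit 10) C.nil) C.nil))) C.nil)) C.nil)) C.nil))) C.nil)) (C.cons (nat_lit 43) (C.node (nat_lit 0) (nat_lit 1) (nat_lit 9) (C.cons (nat_lit 515)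
  (C.ref (nat_lit 237) (nat_lit 10615085290000)) C.nil)) (C.cons (nat_lit 11) (C.node (nat_lit 0) (nat_lit 1) (nat_lit 5) (C.cons (nat_lit 547) (C.ref (nat_lit 227) (nat_lit 11585512026640)) (C.cons (nat_lit 35) (C.node (nat_lit 0) (nat_lit 1) (nat_lit 9) C.nil) C.nil))) C.nil)))) (List.cons (C.node (nat_lit 0) (nat_lit 2) (nat_lit 9) (C.cons (nat_lit 533) (C.node (nat_lit 0) (nat_lit 2) (nat_lit 10) (C.cons (nat_lit 1029) (C.node (nat_lit 0) (nat_lit 3) (nat_lit 9) (C.cons (nat_lit 585) (C.node (nat_lit 0) (nat_lit 3) (nat_lit 4) (C.cons (nat_lit 1049) (C.node (nat_lit 0) (nat_lit 3) (nat_lit 5) C.nil) (C.cons (nat_lit 57) (C.pat (nat_lit 2) (nat_lit 19450467105) (nat_lit 1271198624594326182255673157899599820654315393)) C.nil))) C.nil)) C.nil)) (C.cons (nat_lit 517) (C.node (nat_lit 0) (nat_lit 2) (nat_lit 4) (C.cons (nat_lit 1045) (C.node (nat_lit 0) (nat_lit 3) (nat_lit 9) (C.cons (nat_lit 585) (C.node (nat_lit 0) (nat_lit 4) (nat_lit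 9) C.nil) (C.cons (nat_lit 537) (C.node (nat_lit 0) (nat_lit 6) (nat_lit 9) C.nil) C.nil))) C.nil)) C.nil))) (List.cons (C.node (nat_lit 0) (nat_lit 2) (nat_lit 10) (C.cons (nat_lit 1045) (C.node (nat_lit 0) (nat_lit 2) (nat_lit 3) (C.cons (nat_lit 525) (C.node (nat_lit 0) (nat_lit 4) (nat_lit 9) (C.cons (nat_lit 593) (C.node (nat_lit 0) (nat_lit 3) (nat_lit 4) (C.cons (nat_lit 57) (C.node (nat_lit 0) (nat_lit 3) (nat_lit 6) (C.cons (nat_lit 73) (C.node (nat_lit 0) (nat_lit 6) (nat_lit 5) (C.cons (nat_lit 1121) (C.pat (nat_lit 2) (nat_lit 34680972948) (nat_lit 7247920840605424593966378241536985994691150859)) C.nil)) C.nil)) (C.cons (nat_lit 25) (C.node (nat_lit 0) (nat_lit 4) (nat_lit 5) C.nil) C.nil))) (C.cons (nat_lit 529) (C.node (nat_lit 0) (nat_lit 6) (nat_lit 9) C.nil) C.nil))) (C.cons (nat_lit 13) (C.node (nat_lit 0) (nat_lit 2) (nat_lit 9) C.nil) C.nil))) (C.cons (nat_lit 1029) (C.node (nat_lit 0) (nat_lit 2) (nat_lit 3) (C.cons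 (nat_lit 525) (C.node (nat_lit 0) (nat_lit 2) (nat_lit 4) C.nil) (C.cons (nat_lit 29) (C.node (nat_lit 0) (nat_lit 2) (nat_lit 9) C.nil) C.nil))) C.nil))) (List.cons (C.node (nat_lit 0) (nat_lit 1) (nat_lit 2) (C.cons (nat_lit 1031) (C.ref (nat_lit 244) (nat_lit 11649936536080)) (C.cons (nat_lit 519) (C.ref (nat_lit 244) (nat_lit 10619144385040)) (C.cons (nat_lit 15) (C.node (nat_lit 0) (nat_lit 1) (nat_lit 9) (C.cons (nat_lit 547) (C.node (nat_lit 0) (nat_lit 1) (nat_lit 10) (C.cons (nat_lit 1027) (C.ref (nat_lit 245) (nat_lit 11649936536080)) C.nil)) (C.cons (nat_lit 515) (C.node (nat_lit 0) (nat_lit 1) (nat_lit 5) (C.cons (nat_lit 1059) (C.ref (nat_lit 245) (nat_lit 10619144385040)) (C.cons (nat_lit 35) (C.node (nat_lit 0) (nat_lit 1) (nat_lit 10) C.nil) C.nil))) C.nil))) (C.cons (nat_lit 7) (C.node (nat_lit 0) (nat_lit 1) (nat_lit 9) (C.cons (nat_lit 547) (C.node (nat_lit 0) (nat_lit 1) (nat_lit 3) (C.cons (nat_lit 1035) (C.ref (nat_lit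 246) (nat_lit 11649936536080)) (C.cons (nat_lit 11) (C.node (nat_lit 0) (nat_lit 1) (nat_lit 10) C.nil) C.nil))) (C.cons (nat_lit 523) (C.node (nat_lit 0) (nat_lit 1) (nat_lit 5) (C.cons (nat_lit 1059) (C.ref (nat_lit 246) (nat_lit 10619144385040)) (C.cons (nat_lit 35) (C.node (nat_lit 0) (nat_lit 1) (nat_lit 10) C.nil) C.nil))) (C.cons (nat_lit 515) (C.node (nat_lit 0) (nat_lit 1) (nat_lit 3) (C.cons (nat_lit 1035) (C.node (nat_lit 0) (nat_lit 1) (nat_lit 5) C.nil) (C.cons (nat_lit 43) (C.node (nat_lit 0) (nat_lit 1) (nat_lit 10) C.nil) C.nil))) C.nil)))) C.nil))))) (List.cons (C.node (nat_lit 0) (nat_lit 1) (nat_lit 3) (C.cons (nat_lit 523) (C.node (nat_lit 0) (nat_lit 1) (nat_lit 5) (C.cons (nat_lit 35) (C.ref (nat_lit 228) (nat_lit 11517025473040)) C.nil)) (C.cons (nat_lit 43) (C.node (nat_lit 0) (nat_lit 1) (nat_lit 9) (C.cons (nat_lit 515) (C.node (nat_lit 0) (nat_lit 2) (nat_lit 4) (C.cons (nat_lit 533) (C.node (nat_lit 0) (nat_lit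 2) (nat_lit 6) (C.cons (nat_lit 69) (C.node (nat_lit 0) (nat_lit 5) (nat_lit 9) (C.cons (nat_lit 609) (C.node (nat_lit 0) (nat_lit 3) (nat_lit 9) C.nil) C.nil)) C.nil))
  (C.cons (nat_lit 85) (C.node (nat_lit 0) (nat_lit 2) (nat_lit 9) (C.cons (nat_lit 517) (C.node (nat_lit 0) (nat_lit 3) (nat_lit 4) (C.cons (nat_lit 1049) (C.node (nat_lit 0) (nat_lit 3) (nat_lit 6) (C.cons (nat_lit 585) (C.node (nat_lit 0) (nat_lit 4) (nat_lit 5) (C.cons (nat_lit 561) (C.node (nat_lit 0) (nat_lit 5) (nat_lit 6) (C.cons (nat_lit 1121) (C.pat (nat_lit 3) (nat_lit 31516215841) (nat_lit 42840112983767395722209784893310658097536238599)) C.nil)) C.nil)) C.nil)) (C.cons (nat_lit 537) (C.node (nat_lit 0) (nat_lit 3) (nat_lit 6) (C.cons (nat_lit 1097) (C.node (nat_lit 0) (nat_lit 4) (nat_lit 5) (C.cons (nat_lit 1073) (C.node (nat_lit 0) (nat_lit 5) (nat_lit 6) (C.cons (nat_lit 609) (C.pat (nat_lit 2) (nat_lit 21783685443) (nat_lit 13581182751334304423202449511130027515105051655))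 C.nil)) C.nil)) C.nil)) C.nil))) C.nil)) (C.cons (nat_lit 21) (C.node (nat_lit 0) (nat_lit 2) (nat_lit 6) (C.cons (nat_lit 581) (C.node (nat_lit 0) (nat_lit 3) (nat_lit 9) (C.cons (nat_lit 537) (C.node (nat_lit 0) (nat_lit 5) (nat_lit 9) C.nil) C.nil)) C.nil)) C.nil)))) C.nil)) (C.cons (nat_lit 11) (C.node (nat_lit 0) (nat_lit 1) (nat_lit 5) (C.cons (nat_lit 547) (C.ref (nat_lit 228) (nat_lit 11585512026640)) (C.cons (nat_lit 35) (C.node (nat_lit 0) (nat_lit 1) (nat_lit 9) C.nil) C.nil))) C.nil)))) (List.cons (C.node (nat_lit 0) (nat_lit 1) (nat_lit 2) (C.cons (nat_lit 1031) (C.ref (nat_lit 248) (nat_lit 11649936536080)) (C.cons (nat_lit 519) (C.ref (nat_lit 248) (nat_lit 10619144385040)) (C.cons (nat_lit 7) (C.node (nat_lit 0) (nat_lit 1) (nat_lit 9) (C.cons (nat_lit 547) (C.node (nat_lit 0) (nat_lit 1) (nat_lit 3) (C.cons (nat_lit 1035) (C.ref (nat_lit 233) (nat_lit 11585512026640)) (C.cons (nat_lit 11) (C.node (nat_lit 0) (nat_lit 1)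 (nat_lit 10) C.nil) C.nil))) (C.cons (nat_lit 523) (C.node (nat_lit 0) (nat_lit 1) (nat_lit 5) (C.cons (nat_lit 1059) (C.ref (nat_lit 233) (nat_lit 11517025473040)) (C.cons (nat_lit 35) (C.node (nat_lit 0) (nat_lit 1) (nat_lit 10) C.nil) C.nil))) (C.cons (nat_lit 515) (C.node (nat_lit 0) (nat_lit 1) (nat_lit 3) (C.cons (nat_lit 1035) (C.node (nat_lit 0) (nat_lit 1) (nat_lit 5) C.nil) (C.cons (nat_lit 43) (C.node (nat_lit 0) (nat_lit 1) (nat_lit 10) C.nil) C.nil))) C.nil)))) C.nil)))) (List.cons (C.node (nat_lit 0) (nat_lit 2) (nat_lit 3) (C.cons (nat_lit 29) (C.node (nat_lit 0) (nat_lit 2) (nat_lit 6) (C.cons (nat_lit 581) (C.node (nat_lit 0) (nat_lit 3) (nat_lit 5) (C.cons (nat_lit 1065) (C.node (nat_lit 0) (nat_lit 4) (nat_lit 9) (C.cons (nat_lit 561) (C.node (nat_lit 0) (nat_lit 5) (nat_lit 6) (C.cons (nat_lit 97) (C.node (nat_lit 0) (nat_lit 4) (nat_lit 6) (C.cons (nat_lit 1105) (C.pat (nat_lit 1) (nat_lit 1787046193) (nat_lit 5353345608601450865152919943392331649))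 C.nil)) C.nil)) (C.cons (nat_lit 529) (C.node (nat_lit 0) (nat_lit 5) (nat_lit 9) C.nil) C.nil))) (C.cons (nat_lit 41) (C.node (nat_lit 0) (nat_lit 3) (nat_lit 10) C.nil) C.nil))) (C.cons (nat_lit 69) (C.node (nat_lit 0) (nat_lit 2) (nat_lit 9) C.nil) C.nil))) (C.cons (nat_lit 13) (C.node (nat_lit 0) (nat_lit 2) (nat_lit 4) (C.cons (nat_lit 533) (C.node (nat_lit 0) (nat_lit 2) (nat_lit 6) C.nil) (C.cons (nat_lit 85) (C.node (nat_lit 0) (nat_lit 2) (nat_lit 9) C.nil) C.nil))) C.nil))) (List.cons (C.node (nat_lit 0) (nat_lit 3) (nat_lit 10) (C.cons (nat_lit 1049) (C.node (nat_lit 0) (nat_lit 2) (nat_lit 3) (C.cons (nat_lit 525) (C.node (nat_lit 0) (nat_lit 2) (nat_lit 4) (C.cons (nat_lit 85) (C.node (nat_lit 0) (nat_lit 4) (nat_lit 5) (C.cons (nat_lit 561) (C.node (nat_lit 0) (nat_lit 6) (nat_lit 9) (C.cons (nat_lit 577) (C.node (nat_lit 0) (nat_lit 5) (nat_lit 6) (C.cons (nat_lit 1121) (C.pat (nat_lit 2) (nat_lit 22349916001) (nat_lit 3679651883467095581673271974704694864707257369))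 C.nil)) C.nil)) (C.cons (nat_lit 49) (C.node (nat_lit 0) (nat_lit 4) (nat_lit 9) C.nil) C.nil))) (C.cons (nat_lit 21) (C.node (nat_lit 0) (nat_lit 2) (nat_lit 6) C.nil) C.nil))) (C.cons (nat_lit 13) (C.node (nat_lit 0) (nat_lit 3) (nat_lit 9) C.nil) C.nil)))
  (C.cons (nat_lit 1033) (C.node (nat_lit 0) (nat_lit 2) (nat_lit 3) (C.cons (nat_lit 525) (C.node (nat_lit 0) (nat_lit 3) (nat_lit 4) C.nil) (C.cons (nat_lit 29) (C.node (nat_lit 0) (nat_lit 3) (nat_lit 9) C.nil) C.nil))) C.nil))) (List.cons (C.node (nat_lit 0) (nat_lit 1) (nat_lit 3) (C.cons (nat_lit 523) (C.node (nat_lit 0) (nat_lit 1) (nat_lit 5) (C.cons (nat_lit 35) (C.ref (nat_lit 250) (nat_lit 11649936536080)) C.nil)) (C.cons (nat_lit 43) (C.node (nat_lit 0) (nat_lit 1) (nat_lit 9) (C.cons (nat_lit 515) (C.ref (nat_lit 251) (nat_lit 11649936536080)) C.nil)) (C.cons (nat_lit 11) (C.node (nat_lit 0) (nat_lit 1) (nat_lit 5) (C.cons (nat_lit 547) (C.ref (nat_lit 229) (nat_lit 11585512026640))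 (C.cons (nat_lit 35) (C.node (nat_lit 0) (nat_lit 1) (nat_lit 9) C.nil) C.nil))) C.nil)))) (List.cons (C.node (nat_lit 0) (nat_lit 1) (nat_lit 2) (C.cons (nat_lit 1031) (C.ref (nat_lit 252) (nat_lit 11649936536080)) (C.cons (nat_lit 519) (C.ref (nat_lit 252) (nat_lit 10619144385040)) (C.cons (nat_lit 15) (C.node (nat_lit 0) (nat_lit 1) (nat_lit 9) (C.cons (nat_lit 547) (C.node (nat_lit 0) (nat_lit 1) (nat_lit 10) (C.cons (nat_lit 1027) (C.ref (nat_lit 251) (nat_lit 10619141240080)) C.nil)) (C.cons (nat_lit 515) (C.node (nat_lit 0) (nat_lit 1) (nat_lit 5) (C.cons (nat_lit 1059) (C.ref (nat_lit 251) (nat_lit 11649933391120)) (C.cons (nat_lit 35) (C.node (nat_lit 0) (nat_lit 1) (nat_lit 10) C.nil) C.nil))) C.nil))) (C.cons (nat_lit 7) (C.node (nat_lit 0) (nat_lit 1) (nat_lit 9) (C.cons (nat_lit 547) (C.node (nat_lit 0) (nat_lit 1) (nat_lit 3) (C.cons (nat_lit 1035) (C.ref (nat_lit 250) (nat_lit 10619141240080)) (C.cons (nat_lit 11) (C.node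 (nat_lit 0) (nat_lit 1) (nat_lit 10) C.nil) C.nil))) (C.cons (nat_lit 523) (C.node (nat_lit 0) (nat_lit 1) (nat_lit 5) (C.cons (nat_lit 1059) (C.ref (nat_lit 250) (nat_lit 11649933391120)) (C.cons (nat_lit 35) (C.node (nat_lit 0) (nat_lit 1) (nat_lit 10) C.nil) C.nil))) (C.cons (nat_lit 515) (C.node (nat_lit 0) (nat_lit 1) (nat_lit 3) (C.cons (nat_lit 1035) (C.node (nat_lit 0) (nat_lit 1) (nat_lit 5) C.nil) (C.cons (nat_lit 43) (C.node (nat_lit 0) (nat_lit 1) (nat_lit 10) C.nil) C.nil))) C.nil)))) C.nil))))) (List.cons (C.node (nat_lit 0) (nat_lit 1) (nat_lit 2) (C.cons (nat_lit 1031) (C.node (nat_lit 0) (nat_lit 1) (nat_lit 3) (C.cons (nat_lit 523) (C.node (nat_lit 0) (nat_lit 1) (nat_lit 5) C.nil) (C.cons (nat_lit 43) (C.node (nat_lit 0) (nat_lit 1) (nat_lit 9) C.nil) C.nil))) (C.cons (nat_lit 519) (C.node (nat_lit 0) (nat_lit 1) (nat_lit 3) (C.cons (nat_lit 1035) (C.node (nat_lit 0) (nat_lit 1) (nat_lit 5) C.nil) (C.cons (nat_lit 43)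 (C.node (nat_lit 0) (nat_lit 1) (nat_lit 10) C.nil) C.nil))) (C.cons (nat_lit 15) (C.node (nat_lit 0) (nat_lit 1) (nat_lit 9) (C.cons (nat_lit 547) (C.node (nat_lit 0) (nat_lit 1) (nat_lit 10) C.nil) C.nil)) C.nil)))) (List.cons (C.node (nat_lit 0) (nat_lit 3) (nat_lit 8) (C.cons (nat_lit 329) (C.node (nat_lit 0) (nat_lit 5) (nat_lit 8) (C.cons (nat_lit 289) (C.ref (nat_lit 253) (nat_lit 11649936536080)) C.nil)) (C.cons (nat_lit 297) (C.node (nat_lit 0) (nat_lit 6) (nat_lit 8) (C.cons (nat_lit 321) (C.ref (nat_lit 249) (nat_lit 11649933391120)) C.nil)) (C.cons (nat_lit 265) (C.node (nat_lit 0) (nat_lit 5) (nat_lit 8) (C.cons (nat_lit 353) (C.ref (nat_lit 247) (nat_lit 11649933391120)) (C.cons (nat_lit 289) (C.node (nat_lit 0) (nat_lit 6) (nat_lit 8) (C.cons (nat_lit 321) (C.ref (nat_lit 254) (nat_lit 11649936536080)) C.nil)) C.nil))) C.nil)))) (List.cons (C.node (nat_lit 0) (nat_lit 2) (nat_lit 8) (C.cons (nat_lit 325) (C.node (nat_lit 0)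 (nat_lit 3) (nat_lit 8) (C.cons (nat_lit 297) (C.ref (nat_lit 207) (nat_lit 11645909996320)) (C.cons (nat_lit 265) (C.node (nat_lit 0) (nat_lit 5) (nat_lit 8) (C.cons (nat_lit 289) (C.ref (nat_lit 247) (nat_lit 11649936536080)) C.nil)) C.nil))) (C.cons (nat_lit 269) (C.node (nat_lit 0) (nat_lit 5) (nat_lit 8) (C.cons (nat_lit 353) (C.ref (nat_lit 207) (nat_lit 11645906850640)) (C.cons (nat_lit 289)
  (C.node (nat_lit 0) (nat_lit 6) (nat_lit 8) (C.cons (nat_lit 321) (C.ref (nat_lit 249) (nat_lit 11649936536080)) C.nil)) C.nil))) (C.cons (nat_lit 261) (C.ref (nat_lit 255) (nat_lit 11649936536080)) C.nil)))) (List.cons (C.node (nat_lit 0) (nat_lit 2) (nat_lit 9) (C.cons (nat_lit 533) (C.node (nat_lit 0) (nat_lit 1) (nat_lit 2) (C.cons (nat_lit 1031) (C.node (nat_lit 0) (nat_lit 2) (nat_lit 3) C.nil) (C.cons (nat_lit 15) (C.node (nat_lit 0) (nat_lit 2) (nat_lit 10) C.nil) C.nil))) (C.cons (nat_lit 525) (C.node (nat_lit 0) (nat_lit 1) (nat_lit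 2) (C.cons (nat_lit 1031) (C.node (nat_lit 0) (nat_lit 2) (nat_lit 4) C.nil) (C.cons (nat_lit 23) (C.node (nat_lit 0) (nat_lit 2) (nat_lit 10) C.nil) C.nil))) (C.cons (nat_lit 519) (C.node (nat_lit 0) (nat_lit 2) (nat_lit 3) (C.cons (nat_lit 1037) (C.node (nat_lit 0) (nat_lit 2) (nat_lit 4) C.nil) (C.cons (nat_lit 29) (C.node (nat_lit 0) (nat_lit 2) (nat_lit 10) C.nil) C.nil))) C.nil)))) (List.cons (C.node (nat_lit 0) (nat_lit 2) (nat_lit 3) (C.cons (nat_lit 77) (C.node (nat_lit 0) (nat_lit 2) (nat_lit 4) (C.cons (nat_lit 533) (C.node (nat_lit 0) (nat_lit 3) (nat_lit 5) (C.cons (nat_lit 1065) (C.node (nat_lit 0) (nat_lit 4) (nat_lit 6) (C.cons (nat_lit 1105) (C.node (nat_lit 0) (nat_lit 5) (nat_lit 6) (C.cons (nat_lit 609) (C.pat (nat_lit 1) (nat_lit 1500920353) (nat_lit 2715619507200446217356783037461628801)) C.nil)) C.nil)) C.nil)) C.nil)) C.nil)) (List.cons (C.node (nat_lit 0) (nat_lit 1) (nat_lit 8) (C.cons (nat_lit 291) (C.ref (nat_lit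 243) (nat_lit 11649936536080)) (C.cons (nat_lit 275) (C.ref (nat_lit 256) (nat_lit 11649936536080)) (C.cons (nat_lit 267) (C.ref (nat_lit 256) (nat_lit 11649936474640)) (C.cons (nat_lit 263) (C.ref (nat_lit 243) (nat_lit 11649933391120)) (C.cons (nat_lit 259) (C.node (nat_lit 0) (nat_lit 2) (nat_lit 8) (C.cons (nat_lit 325) (C.node (nat_lit 0) (nat_lit 3) (nat_lit 8) (C.cons (nat_lit 297) (C.node (nat_lit 0) (nat_lit 4) (nat_lit 8) (C.cons (nat_lit 273) (C.ref (nat_lit 247) (nat_lit 11649865172560)) C.nil)) (C.cons (nat_lit 281) (C.node (nat_lit 0) (nat_lit 5) (nat_lit 8) (C.cons (nat_lit 289) (C.ref (nat_lit 253) (nat_lit 11645909013280)) C.nil)) (C.cons (nat_lit 265) (C.node (nat_lit 0) (nat_lit 4) (nat_lit 8) (C.cons (nat_lit 305) (C.ref (nat_lit 247) (nat_lit 11649865234000)) (C.cons (nat_lit 273) (C.node (nat_lit 0) (nat_lit 5) (nat_lit 8) (C.cons (nat_lit 289) (C.ref (nat_lit 257) (nat_lit 11649936536080)) C.nil)) C.nil))) C.nil))))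 (C.cons (nat_lit 277) (C.ref (nat_lit 255) (nat_lit 11649920807200)) (C.cons (nat_lit 269) (C.ref (nat_lit 255) (nat_lit 11649920745760)) (C.cons (nat_lit 261) (C.node (nat_lit 0) (nat_lit 3) (nat_lit 8) (C.cons (nat_lit 329) (C.node (nat_lit 0) (nat_lit 4) (nat_lit 8) (C.cons (nat_lit 305) (C.ref (nat_lit 249) (nat_lit 11649865234000)) (C.cons (nat_lit 273) (C.node (nat_lit 0) (nat_lit 5) (nat_lit 8) (C.cons (nat_lit 289) (C.ref (nat_lit 254) (nat_lit 11649852588640)) C.nil)) C.nil))) (C.cons (nat_lit 297) (C.node (nat_lit 0) (nat_lit 4) (nat_lit 8) (C.cons (nat_lit 337) (C.ref (nat_lit 249) (nat_lit 11649849505120)) (C.cons (nat_lit 273) (C.node (nat_lit 0) (nat_lit 6) (nat_lit 8) (C.cons (nat_lit 321) (C.ref (nat_lit 254) (nat_lit 11649870414160)) C.nil)) C.nil))) (C.cons (nat_lit 281) (C.node (nat_lit 0) (nat_lit 5) (nat_lit 8) (C.cons (nat_lit 353) (C.ref (nat_lit 253) (nat_lit 11645908816720)) (C.cons (nat_lit 289) (C.node (nat_lit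 0) (nat_lit 6) (nat_lit 8) (C.cons (nat_lit 321) (C.node (nat_lit 0) (nat_lit 1) (nat_lit 2) (C.cons (nat_lit 1031) (C.node (nat_lit 0) (nat_lit 1) (nat_lit 3) (C.cons (nat_lit 523) (C.node (nat_lit 0) (nat_lit 1) (nat_lit 4) (C.cons (nat_lit 51) (C.ref (nat_lit 258) (nat_lit 11649936536080)) C.nil)) (C.cons (nat_lit 43) (C.node (nat_lit 0) (nat_lit 1) (nat_lit 4) (C.cons (nat_lit 531) (C.ref (nat_lit 258) (nat_lit 11649936474640)) C.nil)) C.nil))) (C.cons (nat_lit 519) (C.node (nat_lit 0) (nat_lit 1) (nat_lit 3) (C.cons (nat_lit 1035) (C.node (nat_lit 0) (nat_lit 1) (nat_lit 4)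
  (C.cons (nat_lit 51) (C.ref (nat_lit 258) (nat_lit 10619144385040)) C.nil)) (C.cons (nat_lit 43) (C.node (nat_lit 0) (nat_lit 1) (nat_lit 4) (C.cons (nat_lit 1043) (C.ref (nat_lit 258) (nat_lit 10619144323600)) C.nil)) C.nil))) (C.cons (nat_lit 23) (C.node (nat_lit 0) (nat_lit 1) (nat_lit 9) (C.cons (nat_lit 547) (C.node (nat_lit 0) (nat_lit 1) (nat_lit 3) (C.cons (nat_lit 1035) (C.ref (nat_lit 258) (nat_lit 10619141240080)) C.nil)) (C.cons (nat_lit 523) (C.node (nat_lit 0) (nat_lit 1) (nat_lit 5) (C.cons (nat_lit 1059) (C.ref (nat_lit 258) (nat_lit 11649933391120)) C.nil)) C.nil))) (C.cons (nat_lit 15) (C.node (nat_lit 0) (nat_lit 1) (nat_lit 9) (C.cons (nat_lit 547) (C.node (nat_lit 0) (nat_lit 1) (nat_lit 4) (C.cons (nat_lit 1043) (C.ref (nat_lit 258) (nat_lit 10619141178640)) C.nil)) (C.cons (nat_lit 531) (C.node (nat_lit 0) (nat_lit 1) (nat_lit 5) (C.cons (nat_lit 1059) (C.ref (nat_lit 258) (nat_lit 11649933329680)) C.nil)) C.nil)))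 C.nil))))) C.nil)) C.nil))) (C.cons (nat_lit 265) (C.node (nat_lit 0) (nat_lit 4) (nat_lit 8) (C.cons (nat_lit 337) (C.node (nat_lit 0) (nat_lit 5) (nat_lit 8) (C.cons (nat_lit 289) (C.ref (nat_lit 254) (nat_lit 11649852650080)) C.nil)) (C.cons (nat_lit 305) (C.node (nat_lit 0) (nat_lit 6) (nat_lit 8) (C.cons (nat_lit 321) (C.ref (nat_lit 254) (nat_lit 11649870475600)) C.nil)) (C.cons (nat_lit 273) (C.node (nat_lit 0) (nat_lit 5) (nat_lit 8) (C.cons (nat_lit 353) (C.ref (nat_lit 257) (nat_lit 11649933391120)) C.nil)) C.nil)))) C.nil))))) C.nil))))) C.nil)))))) (List.cons (C.node (nat_lit 0) (nat_lit 3) (nat_lit 7) (C.cons (nat_lit 153) (C.node (nat_lit 0) (nat_lit 1) (nat_lit 8) (C.cons (nat_lit 291) (C.ref (nat_lit 223) (nat_lit 11649936536080)) (C.cons (nat_lit 275) (C.ref (nat_lit 223) (nat_lit 11649935549200)) (C.cons (nat_lit 267) (C.ref (nat_lit 223) (nat_lit 11649934500880)) (C.cons (nat_lit 263) (C.ref (nat_lit 223) (nat_lit 11649933391120))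 (C.cons (nat_lit 259) (C.node (nat_lit 0) (nat_lit 2) (nat_lit 8) (C.cons (nat_lit 325) (C.node (nat_lit 0) (nat_lit 3) (nat_lit 8) (C.cons (nat_lit 297) (C.node (nat_lit 0) (nat_lit 4) (nat_lit 8) (C.cons (nat_lit 273) (C.ref (nat_lit 207) (nat_lit 11649920807200)) C.nil)) (C.cons (nat_lit 265) (C.ref (nat_lit 221) (nat_lit 11649920807200)) C.nil))) (C.cons (nat_lit 277) (C.ref (nat_lit 222) (nat_lit 11649918833440)) (C.cons (nat_lit 269) (C.ref (nat_lit 222) (nat_lit 11649917785120)) (C.cons (nat_lit 261) (C.node (nat_lit 0) (nat_lit 3) (nat_lit 8) (C.cons (nat_lit 329) (C.ref (nat_lit 221) (nat_lit 11649904091440)) (C.cons (nat_lit 297) (C.ref (nat_lit 221) (nat_lit 11649903104560)) (C.cons (nat_lit 265) (C.node (nat_lit 0) (nat_lit 4) (nat_lit 8) (C.cons (nat_lit 337) (C.node (nat_lit 0) (nat_lit 5) (nat_lit 8) (C.cons (nat_lit 289) (C.ref (nat_lit 220) (nat_lit 11649887314240)) C.nil)) (C.cons (nat_lit 305) (C.node (nat_lit 0) (nat_lit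 6) (nat_lit 8) (C.cons (nat_lit 321) (C.ref (nat_lit 220) (nat_lit 11649886327360)) C.nil)) (C.cons (nat_lit 273) (C.node (nat_lit 0) (nat_lit 5) (nat_lit 8) (C.cons (nat_lit 353) (C.ref (nat_lit 220) (nat_lit 11649870475600)) (C.cons (nat_lit 289) (C.node (nat_lit 0) (nat_lit 6) (nat_lit 8) (C.cons (nat_lit 321) (C.ref (nat_lit 226) (nat_lit 11649936536080)) C.nil)) C.nil))) C.nil)))) C.nil)))) C.nil))))) C.nil)))))) (C.cons (nat_lit 137) (C.node (nat_lit 0) (nat_lit 4) (nat_lit 7) (C.cons (nat_lit 145) (C.ref (nat_lit 259) (nat_lit 11649936536080)) C.nil)) C.nil))) List.nil))))))))))))))))))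

theorem ok11_243 : okL par11 (nat_lit 261) c11_243 (nat_lit 243) = true := by decide +kernel

noncomputable def c11_261 : List C :=
  (List.cons (C.node (nat_lit 0) (nat_lit 2) (nat_lit 8) (C.cons (nat_lit 325) (C.node (nat_lit 0) (nat_lit 3) (nat_lit 8) (C.cons (nat_lit 281) (C.ref (nat_lit 216) (nat_lit 10615102063120)) (C.cons (nat_lit 265) (C.node (nat_lit 0) (nat_lit 4) (nat_lit 8) C.nil) C.nil))) (C.cons (nat_lit 277) (C.node (nat_lit 0) (nat_lit 3) (nat_lit 8) (C.cons (nat_lit 329) (C.ref (nat_lit 218) (nat_lit 11645894271760)) (C.cons (nat_lit 265) (C.node (nat_lit 0) (nat_lit 6) (nat_lit 8) C.nil) C.nil))) (C.cons (nat_lit 269) (C.node (nat_lit 0) (nat_lit 4) (nat_lit 8) (C.cons (nat_lit 337) (C.ref (nat_lit 216) (nat_lit 11645894206480)) (C.cons (nat_lit 273) (C.node (nat_lit 0) (nat_lit 6) (nat_lit 8) C.nil) C.nil))) (C.cons (nat_lit 261) (C.node (nat_lit 0) (nat_lit 3) (nat_lit 8) (C.cons (nat_lit 329) (C.node (nat_lit 0) (nat_lit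 4) (nat_lit 8) C.nil) (C.cons (nat_lit 281) (C.node (nat_lit 0) (nat_lit 6) (nat_lit 8) C.nil) C.nil))) C.nil))))) (List.cons (C.node (nat_lit 0) (nat_lit 2) (nat_lit 8) (C.cons (nat_lit 325) (C.node (nat_lit 0) (nat_lit 2) (nat_lit 9) (C.cons (nat_lit 549) (C.node (nat_lit 0) (nat_lit 2) (nat_lit 4) (C.cons (nat_lit 1045) (C.node (nat_lit 0) (nat_lit 3) (nat_lit 8) (C.cons (nat_lit 281) (C.node (nat_lit 0) (nat_lit 4) (nat_lit 6) (C.cons (nat_lit 113) (C.node (nat_lit 0) (nat_lit 3) (nat_lit 5) (C.cons (nat_lit 1065) (C.pat (nat_lit 1) (nat_lit 2823377697) (nat_lit 1511110583775783997986839637296218393)) (C.cons (nat_lit 41) (C.node (nat_lit 0) (nat_lit 5) (nat_lit 10) C.nil) C.nil))) (C.cons (nat_lit 81) (C.node (nat_lit 0) (nat_lit 4) (nat_lit 5) C.nil) C.nil))) (C.cons (nat_lit 265) (C.node (nat_lit 0) (nat_lit 4) (nat_lit 8) C.nil) C.nil))) (C.cons (nat_lit 21) (C.node (nat_lit 0) (nat_lit 2) (nat_lit 10) C.nil) C.nil))) (C.cons (nat_lit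 517) (C.node (nat_lit 0) (nat_lit 3) (nat_lit 8) (C.cons (nat_lit 281) (C.node (nat_lit 0) (nat_lit 2) (nat_lit 4) (C.cons (nat_lit 1045) (C.node (nat_lit 0) (nat_lit 2) (nat_lit 5) C.nil) (C.cons (nat_lit 53) (C.node (nat_lit 0) (nat_lit 2) (nat_lit 10) C.nil) C.nil))) C.nil)) C.nil))) (C.cons (nat_lit 277) (C.node (nat_lit 0) (nat_lit 3) (nat_lit 8) (C.cons (nat_lit 329) (C.ref (nat_lit 217) (nat_lit 10615101997840)) (C.cons (nat_lit 265) (C.node (nat_lit 0) (nat_lit 6) (nat_lit 8) C.nil) C.nil))) (C.cons (nat_lit 261) (C.node (nat_lit 0) (nat_lit 2) (nat_lit 9) (C.cons (nat_lit 581) (C.node (nat_lit 0) (nat_lit 3) (nat_lit 9) (C.cons (nat_lit 553) (C.node (nat_lit 0) (nat_lit 2) (nat_lit 5) (C.cons (nat_lit 1061) (C.node (nat_lit 0) (nat_lit 2) (nat_lit 4) C.nil) (C.cons (nat_lit 53) (C.node (nat_lit 0) (nat_lit 2) (nat_lit 10) C.nil) C.nil))) C.nil)) (C.cons (nat_lit 549) (C.node (nat_lit 0) (nat_lit 3) (nat_lit 9) (C.cons (nat_lit 585)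 (C.node (nat_lit 0) (nat_lit 3) (nat_lit 8) (C.cons (nat_lit 281) (C.node (nat_lit 0) (nat_lit 6) (nat_lit 8) C.nil) C.nil)) C.nil)) C.nil))) C.nil)))) (List.cons (C.node (nat_lit 0) (nat_lit 1) (nat_lit 2) (C.cons (nat_lit 1031) (C.node (nat_lit 0) (nat_lit 1) (nat_lit 3) (C.cons (nat_lit 11) (C.ref (nat_lit 261) (nat_lit 11649936536080)) C.nil)) (C.cons (nat_lit 15) (C.node (nat_lit 0) (nat_lit 1) (nat_lit 10) (C.cons (nat_lit 1027) (C.ref (nat_lit 262) (nat_lit 11649936536080)) C.nil)) (C.cons (nat_lit 7) (C.node (nat_lit 0) (nat_lit 1) (nat_lit 3) (C.cons (nat_lit 1035) (C.ref (nat_lit 261) (nat_lit 11649936532240)) (C.cons (nat_lit 11) (C.node (nat_lit 0) (nat_lit 1) (nat_lit 10) C.nil) C.nil))) C.nil)))) (List.cons (C.node (nat_lit 0) (nat_lit 1) (nat_lit 2) (C.cons (nat_lit 1031) (C.node (nat_lit 0) (nat_lit 1) (nat_lit 3) (C.cons (nat_lit 27) (C.ref (nat_lit 262) (nat_lit 10619144258320)) (C.cons (nat_lit 11) (C.node (nat_lit 0)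 (nat_lit 1) (nat_lit 4) C.nil) C.nil))) (C.cons (nat_lit 23) (C.node (nat_lit 0) (nat_lit 1) (nat_lit 3) (C.cons (nat_lit 1035) (C.ref (nat_lit 262) (nat_lit 10619144323600)) (C.cons (nat_lit 11) (C.node (nat_lit 0) (nat_lit 1) (nat_lit 10) C.nil) C.nil))) (C.cons (nat_lit 15)
  (C.node (nat_lit 0) (nat_lit 1) (nat_lit 4) (C.cons (nat_lit 1043) (C.ref (nat_lit 262) (nat_lit 10619144385040)) (C.cons (nat_lit 19) (C.node (nat_lit 0) (nat_lit 1) (nat_lit 10) C.nil) C.nil))) (C.cons (nat_lit 7) (C.node (nat_lit 0) (nat_lit 1) (nat_lit 3) (C.cons (nat_lit 1035) (C.node (nat_lit 0) (nat_lit 1) (nat_lit 4) C.nil) (C.cons (nat_lit 27) (C.node (nat_lit 0) (nat_lit 1) (nat_lit 10) C.nil) C.nil))) C.nil))))) (List.cons (C.node (nat_lit 0) (nat_lit 1) (nat_lit 9) (C.cons (nat_lit 531) (C.ref (nat_lit 263) (nat_lit 11649936536080)) (C.cons (nat_lit 523) (C.ref (nat_lit 263) (nat_lit 11649936474640)) (C.cons (nat_lit 519) (C.ref (nat_lit 263) (nat_lit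 11649936409360)) (C.cons (nat_lit 515) (C.ref (nat_lit 264) (nat_lit 11649936536080)) C.nil))))) (List.cons (C.node (nat_lit 0) (nat_lit 1) (nat_lit 8) (C.cons (nat_lit 291) (C.ref (nat_lit 265) (nat_lit 11649936536080)) (C.cons (nat_lit 275) (C.ref (nat_lit 265) (nat_lit 11649935553040)) (C.cons (nat_lit 267) (C.ref (nat_lit 265) (nat_lit 11649934508560)) (C.cons (nat_lit 263) (C.ref (nat_lit 265) (nat_lit 11649933460240)) (C.cons (nat_lit 259) (C.node (nat_lit 0) (nat_lit 1) (nat_lit 9) (C.cons (nat_lit 547) (C.ref (nat_lit 264) (nat_lit 11585512026640)) (C.cons (nat_lit 531) (C.ref (nat_lit 264) (nat_lit 11585511043600)) (C.cons (nat_lit 523) (C.ref (nat_lit 264) (nat_lit 11585509999120)) (C.cons (nat_lit 519) (C.ref (nat_lit 264) (nat_lit 11585508950800)) (C.cons (nat_lit 515) (C.node (nat_lit 0) (nat_lit 1) (nat_lit 2) (C.cons (nat_lit 1031) (C.node (nat_lit 0) (nat_lit 1) (nat_lit 3) (C.cons (nat_lit 43) (C.node (nat_lit 0) (nat_lit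 1) (nat_lit 4) C.nil) (C.cons (nat_lit 27) (C.node (nat_lit 0) (nat_lit 1) (nat_lit 5) C.nil) C.nil))) (C.cons (nat_lit 39) (C.node (nat_lit 0) (nat_lit 1) (nat_lit 3) (C.cons (nat_lit 1035) (C.node (nat_lit 0) (nat_lit 1) (nat_lit 4) C.nil) (C.cons (nat_lit 27) (C.node (nat_lit 0) (nat_lit 1) (nat_lit 10) C.nil) C.nil))) (C.cons (nat_lit 23) (C.node (nat_lit 0) (nat_lit 1) (nat_lit 3) (C.cons (nat_lit 1035) (C.node (nat_lit 0) (nat_lit 1) (nat_lit 5) C.nil) (C.cons (nat_lit 43) (C.node (nat_lit 0) (nat_lit 1) (nat_lit 10) C.nil) C.nil))) (C.cons (nat_lit 15) (C.node (nat_lit 0) (nat_lit 1) (nat_lit 4) (C.cons (nat_lit 1043) (C.node (nat_lit 0) (nat_lit 1) (nat_lit 5) C.nil) (C.cons (nat_lit 51) (C.node (nat_lit 0) (nat_lit 1) (nat_lit 10) C.nil) C.nil))) C.nil))))) C.nil)))))) C.nil)))))) (List.cons (C.node (nat_lit 0) (nat_lit 4) (nat_lit 7) (C.cons (nat_lit 177) (C.ref (nat_lit 259) (nat_lit 11649936466960)) (C.cons (nat_lit 145) (C.node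 (nat_lit 0) (nat_lit 5) (nat_lit 7) (C.cons (nat_lit 161) (C.ref (nat_lit 266) (nat_lit 11649936536080)) C.nil)) C.nil))) (List.cons (C.node (nat_lit 0) (nat_lit 3) (nat_lit 7) (C.cons (nat_lit 169) (C.node (nat_lit 0) (nat_lit 4) (nat_lit 7) (C.cons (nat_lit 145) (C.ref (nat_lit 259) (nat_lit 11649936532240)) C.nil)) (C.cons (nat_lit 153) (C.node (nat_lit 0) (nat_lit 5) (nat_lit 7) (C.cons (nat_lit 161) (C.ref (nat_lit 259) (nat_lit 11649935549200)) C.nil)) (C.cons (nat_lit 137) (C.ref (nat_lit 267) (nat_lit 11649936536080)) C.nil)))) (List.cons (C.node (nat_lit 0) (nat_lit 2) (nat_lit 7) (C.cons (nat_lit 165) (C.ref (nat_lit 260) (nat_lit 11649936536080)) (C.cons (nat_lit 149) (C.ref (nat_lit 260) (nat_lit 11649935553040)) (C.cons (nat_lit 141) (C.ref (nat_lit 260) (nat_lit 11649934508560)) (C.cons (nat_lit 133) (C.ref (nat_lit 268) (nat_lit 11649936536080)) C.nil))))) (List.cons (C.node (nat_lit 0) (nat_lit 2) (nat_lit 8) (C.cons (nat_lit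 293) (C.node (nat_lit 0) (nat_lit 3) (nat_lit 8) (C.cons (nat_lit 281) (C.ref (nat_lit 226) (nat_lit 11645910004240)) C.nil)) (C.cons (nat_lit 277) (C.node (nat_lit 0) (nat_lit 3) (nat_lit 8) (C.cons (nat_lit 297) (C.ref (nat_lit 226) (nat_lit 11645909021200)) C.nil)) (C.cons (nat_lit 269) (C.node (nat_lit 0) (nat_lit 4) (nat_lit 8) (C.cons (nat_lit 305) (C.ref (nat_lit 226) (nat_lit 11645907976720)) C.nil)) C.nil)))) (List.cons (C.big
  (C.cons (nat_lit 1137) (C.ref (nat_lit 184) (nat_lit 11649936536080)) (C.cons (nat_lit 1129) (C.ref (nat_lit 184) (nat_lit 11649936474640)) (C.cons (nat_lit 1125) (C.ref (nat_lit 184) (nat_lit 11649936409360)) (C.cons (nat_lit 1123) (C.ref (nat_lit 184) (nat_lit 11649936343840)) (C.cons (nat_lit 1113) (C.ref (nat_lit 184) (nat_lit 11649935430160)) (C.cons (nat_lit 1109) (C.ref (nat_lit 184) (nat_lit 11649935364880)) (C.cons (nat_lit 1107) (C.ref (nat_lit 184) (nat_lit 11649935299360)) (C.cons (nat_lit 1101)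 (C.ref (nat_lit 184) (nat_lit 11649934316560)) (C.cons (nat_lit 1099) (C.ref (nat_lit 184) (nat_lit 11649934251040)) (C.cons (nat_lit 1095) (C.ref (nat_lit 184) (nat_lit 11649933202480)) (C.cons (nat_lit 1081) (C.ref (nat_lit 184) (nat_lit 11649918657040)) (C.cons (nat_lit 1077) (C.ref (nat_lit 184) (nat_lit 11649918591760)) (C.cons (nat_lit 1075) (C.ref (nat_lit 184) (nat_lit 11649918526240)) (C.cons (nat_lit 1069) (C.ref (nat_lit 184) (nat_lit 11649917543440)) (C.cons (nat_lit 1067) (C.ref (nat_lit 184) (nat_lit 11649917477920)) (C.cons (nat_lit 1063) (C.ref (nat_lit 184) (nat_lit 11649916429360)) (C.cons (nat_lit 1053) (C.ref (nat_lit 184) (nat_lit 11649900766480)) (C.cons (nat_lit 1051) (C.ref (nat_lit 184) (nat_lit 11649900700960)) (C.cons (nat_lit 1047) (C.ref (nat_lit 184) (nat_lit 11649899652400)) (C.cons (nat_lit 1039) (C.ref (nat_lit 184) (nat_lit 11649882875200)) (C.cons (nat_lit 625) (C.ref (nat_lit 184) (nat_lit 10619144385040))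 (C.cons (nat_lit 617) (C.ref (nat_lit 184) (nat_lit 10619144323600)) (C.cons (nat_lit 613) (C.ref (nat_lit 184) (nat_lit 10619144258320)) (C.cons (nat_lit 611) (C.ref (nat_lit 184) (nat_lit 10619144192800)) (C.cons (nat_lit 601) (C.ref (nat_lit 184) (nat_lit 10619143279120)) (C.cons (nat_lit 597) (C.ref (nat_lit 184) (nat_lit 10619143213840)) (C.cons (nat_lit 595) (C.ref (nat_lit 184) (nat_lit 10619143148320)) (C.cons (nat_lit 589) (C.ref (nat_lit 184) (nat_lit 10619142165520)) (C.cons (nat_lit 587) (C.ref (nat_lit 184) (nat_lit 10619142100000)) (C.cons (nat_lit 583) (C.ref (nat_lit 184) (nat_lit 10619141051440)) (C.cons (nat_lit 569) (C.ref (nat_lit 184) (nat_lit 10619126506000)) (C.cons (nat_lit 565) (C.ref (nat_lit 184) (nat_lit 10619126440720)) (C.cons (nat_lit 563) (C.ref (nat_lit 184) (nat_lit 10619126375200)) (C.cons (nat_lit 557) (C.ref (nat_lit 184) (nat_lit 10619125392400)) (C.cons (nat_lit 555) (C.ref (nat_lit 184) (nat_lit 10619125326880))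 (C.cons (nat_lit 551) (C.ref (nat_lit 184) (nat_lit 10619124278320)) (C.cons (nat_lit 541) (C.ref (nat_lit 184) (nat_lit 10619108615440)) (C.cons (nat_lit 539) (C.ref (nat_lit 184) (nat_lit 10619108549920)) (C.cons (nat_lit 535) (C.ref (nat_lit 184) (nat_lit 10619107501360)) (C.cons (nat_lit 527) (C.ref (nat_lit 184) (nat_lit 10619090724160)) (C.cons (nat_lit 369) (C.ref (nat_lit 184) (nat_lit 9523927724560)) (C.cons (nat_lit 361) (C.ref (nat_lit 184) (nat_lit 9523927663120)) (C.cons (nat_lit 357) (C.ref (nat_lit 184) (nat_lit 9523927597840)) (C.cons (nat_lit 355) (C.ref (nat_lit 184) (nat_lit 9523927532320)) (C.cons (nat_lit 345) (C.ref (nat_lit 184) (nat_lit 9523926618640)) (C.cons (nat_lit 341) (C.ref (nat_lit 184) (nat_lit 9523926553360)) (C.cons (nat_lit 339) (C.ref (nat_lit 184) (nat_lit 9523926487840)) (C.cons (nat_lit 333) (C.ref (nat_lit 184) (nat_lit 9523925505040)) (C.cons (nat_lit 331) (C.ref (nat_lit 184) (nat_lit 9523925439520))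 (C.cons (nat_lit 327) (C.ref (nat_lit 184) (nat_lit 9523924390960)) (C.cons (nat_lit 313) (C.ref (nat_lit 184) (nat_lit 9523909845520)) (C.cons (nat_lit 309) (C.ref (nat_lit 184) (nat_lit 9523909780240)) (C.cons (nat_lit 307) (C.ref (nat_lit 184) (nat_lit 9523909714720)) (C.cons (nat_lit 301) (C.ref (nat_lit 184) (nat_lit 9523908731920)) (C.cons (nat_lit 299) (C.ref (nat_lit 184) (nat_lit 9523908666400)) (C.cons (nat_lit 295) (C.ref (nat_lit 184) (nat_lit 9523907617840)) (C.cons (nat_lit 285) (C.ref (nat_lit 184) (nat_lit 9523891954960)) (C.cons (nat_lit 283)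
  (C.ref (nat_lit 184) (nat_lit 9523891889440)) (C.cons (nat_lit 279) (C.ref (nat_lit 184) (nat_lit 9523890840880)) (C.cons (nat_lit 271) (C.ref (nat_lit 184) (nat_lit 9523874063680)) (C.cons (nat_lit 241) (C.ref (nat_lit 184) (nat_lit 8424684532240)) (C.cons (nat_lit 233) (C.ref (nat_lit 184) (nat_lit 8424684470800)) (C.cons (nat_lit 229) (C.ref (nat_lit 184) (nat_lit 8424684405520)) (C.cons (nat_lit 227) (C.ref (nat_lit 184) (nat_lit 8424684340000)) (C.cons (nat_lit 217) (C.ref (nat_lit 184) (nat_lit 8424683426320)) (C.cons (nat_lit 213) (C.ref (nat_lit 184) (nat_lit 8424683361040)) (C.cons (nat_lit 211) (C.ref (nat_lit 184) (nat_lit 8424683295520)) (C.cons (nat_lit 205) (C.ref (nat_lit 184) (nat_lit 8424682312720)) (C.cons (nat_lit 203) (C.ref (nat_lit 184) (nat_lit 8424682247200)) (C.cons (nat_lit 199) (C.ref (nat_lit 184) (nat_lit 8424681198640)) (C.cons (nat_lit 185) (C.ref (nat_lit 184) (nat_lit 8424666653200)) (C.cons (nat_lit 181)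 (C.ref (nat_lit 184) (nat_lit 8424666587920)) (C.cons (nat_lit 179) (C.ref (nat_lit 184) (nat_lit 8424666522400)) (C.cons (nat_lit 173) (C.ref (nat_lit 184) (nat_lit 8424665539600)) (C.cons (nat_lit 171) (C.ref (nat_lit 184) (nat_lit 8424665474080)) (C.cons (nat_lit 167) (C.ref (nat_lit 184) (nat_lit 8424664425520)) (C.cons (nat_lit 157) (C.ref (nat_lit 184) (nat_lit 8424648762640)) (C.cons (nat_lit 155) (C.ref (nat_lit 184) (nat_lit 8424648697120)) (C.cons (nat_lit 151) (C.ref (nat_lit 184) (nat_lit 8424647648560)) (C.cons (nat_lit 143) (C.ref (nat_lit 184) (nat_lit 8424630871360)) (C.cons (nat_lit 121) (C.ref (nat_lit 185) (nat_lit 11649936536080)) (C.cons (nat_lit 117) (C.ref (nat_lit 185) (nat_lit 11649936532240)) (C.cons (nat_lit 115) (C.ref (nat_lit 185) (nat_lit 11649936528160)) (C.cons (nat_lit 109) (C.ref (nat_lit 185) (nat_lit 11649936466960)) (C.cons (nat_lit 107) (C.ref (nat_lit 185) (nat_lit 11649936462880)) (C.cons (nat_lit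 103) (C.ref (nat_lit 185) (nat_lit 11649936397360)) (C.cons (nat_lit 93) (C.ref (nat_lit 185) (nat_lit 11649935418640)) (C.cons (nat_lit 91) (C.ref (nat_lit 185) (nat_lit 11649935414560)) (C.cons (nat_lit 87) (C.ref (nat_lit 185) (nat_lit 11649935349040)) (C.cons (nat_lit 79) (C.ref (nat_lit 185) (nat_lit 11649934300480)) (C.cons (nat_lit 61) (C.ref (nat_lit 185) (nat_lit 11649918641680)) (C.cons (nat_lit 59) (C.ref (nat_lit 185) (nat_lit 11649918637600)) (C.cons (nat_lit 55) (C.ref (nat_lit 185) (nat_lit 11649918572080)) (C.cons (nat_lit 47) (C.ref (nat_lit 185) (nat_lit 11649917523520)) (C.cons (nat_lit 31) (C.ref (nat_lit 185) (nat_lit 11649900746320)) C.nil))))))))))))))))))))))))))))))))))))))))))))))))))))))))))))))))))))))))))))))))))))))))))))))) (C.node (nat_lit 0) (nat_lit 1) (nat_lit 7) (C.cons (nat_lit 195) (C.ref (nat_lit 269) (nat_lit 11649936536080)) (C.cons (nat_lit 163) (C.ref (nat_lit 269) (nat_lit 11649920807440)) (C.cons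 (nat_lit 147) (C.ref (nat_lit 269) (nat_lit 11649904095760)) (C.cons (nat_lit 139) (C.ref (nat_lit 269) (nat_lit 11649887322640)) (C.cons (nat_lit 135) (C.ref (nat_lit 269) (nat_lit 11649870545680)) (C.cons (nat_lit 131) (C.node (nat_lit 0) (nat_lit 2) (nat_lit 7) (C.cons (nat_lit 197) (C.ref (nat_lit 268) (nat_lit 11649936535840)) (C.cons (nat_lit 165) (C.ref (nat_lit 268) (nat_lit 11649920807200)) (C.cons (nat_lit 149) (C.ref (nat_lit 268) (nat_lit 11649904095520)) (C.cons (nat_lit 141) (C.ref (nat_lit 268) (nat_lit 11649887322400)) (C.cons (nat_lit 133) (C.node (nat_lit 0) (nat_lit 3) (nat_lit 7) (C.cons (nat_lit 201) (C.ref (nat_lit 267) (nat_lit 11649936531760)) (C.cons (nat_lit 169) (C.ref (nat_lit 267) (nat_lit 11649920803120)) (C.cons (nat_lit 153) (C.ref (nat_lit 267) (nat_lit 11649904091440)) (C.cons (nat_lit 137) (C.node (nat_lit 0) (nat_lit 4) (nat_lit 7) (C.cons (nat_lit 209) (C.node (nat_lit 0) (nat_lit 5) (nat_lit 7) (C.cons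 (nat_lit 161) (C.ref (nat_lit 266) (nat_lit 11649936466240)) C.nil)) (C.cons (nat_lit 177) (C.node (nat_lit 0) (nat_lit 6) (nat_lit 7) (C.cons (nat_lit 193)
  (C.ref (nat_lit 266) (nat_lit 11649920737600)) C.nil)) (C.cons (nat_lit 145) (C.node (nat_lit 0) (nat_lit 5) (nat_lit 7) (C.cons (nat_lit 225) (C.ref (nat_lit 266) (nat_lit 11649935417680)) (C.cons (nat_lit 161) (C.node (nat_lit 0) (nat_lit 6) (nat_lit 7) (C.cons (nat_lit 193) (C.node (nat_lit 0) (nat_lit 1) (nat_lit 8) (C.cons (nat_lit 323) (C.ref (nat_lit 270) (nat_lit 11649936536080)) (C.cons (nat_lit 291) (C.ref (nat_lit 270) (nat_lit 11649920807440)) (C.cons (nat_lit 275) (C.ref (nat_lit 270) (nat_lit 11649904095760)) (C.cons (nat_lit 267) (C.ref (nat_lit 270) (nat_lit 11649887322640)) (C.cons (nat_lit 263) (C.ref (nat_lit 270) (nat_lit 11649870545680)) C.nil)))))) C.nil)) C.nil))) C.nil)))) C.nil))))) C.nil)))))) C.nil)))))))) (List.cons (C.node (nat_lit 0) (nat_lit 4) (nat_lit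 5) (C.cons (nat_lit 1073) (C.node (nat_lit 0) (nat_lit 3) (nat_lit 4) (C.cons (nat_lit 153) (C.node (nat_lit 0) (nat_lit 4) (nat_lit 9) (C.cons (nat_lit 529) (C.node (nat_lit 0) (nat_lit 3) (nat_lit 5) (C.cons (nat_lit 105) (C.node (nat_lit 0) (nat_lit 3) (nat_lit 10) C.nil) C.nil)) C.nil)) (C.cons (nat_lit 25) (C.node (nat_lit 0) (nat_lit 3) (nat_lit 5) (C.cons (nat_lit 105) (C.node (nat_lit 0) (nat_lit 5) (nat_lit 8) C.nil) C.nil)) C.nil))) (C.cons (nat_lit 57) (C.node (nat_lit 0) (nat_lit 3) (nat_lit 6) (C.cons (nat_lit 1097) (C.node (nat_lit 0) (nat_lit 3) (nat_lit 7) (C.cons (nat_lit 137) (C.node (nat_lit 0) (nat_lit 5) (nat_lit 6) (C.cons (nat_lit 353) (C.node (nat_lit 0) (nat_lit 5) (nat_lit 10) C.nil) C.nil)) C.nil)) (C.cons (nat_lit 201) (C.node (nat_lit 0) (nat_lit 3) (nat_lit 10) (C.cons (nat_lit 1033) (C.node (nat_lit 0) (nat_lit 4) (nat_lit 7) (C.cons (nat_lit 1169) (C.node (nat_lit 0) (nat_lit 4) (nat_lit 9) C.nil) (C.cons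 (nat_lit 657) (C.node (nat_lit 0) (nat_lit 4) (nat_lit 10) C.nil) C.nil))) C.nil)) (C.cons (nat_lit 73) (C.node (nat_lit 0) (nat_lit 3) (nat_lit 7) (C.cons (nat_lit 1161) (C.node (nat_lit 0) (nat_lit 4) (nat_lit 7) (C.cons (nat_lit 657) (C.node (nat_lit 0) (nat_lit 4) (nat_lit 10) C.nil) C.nil)) C.nil)) C.nil)))) (C.cons (nat_lit 49) (C.node (nat_lit 0) (nat_lit 3) (nat_lit 4) (C.cons (nat_lit 1049) (C.node (nat_lit 0) (nat_lit 3) (nat_lit 5) (C.cons (nat_lit 105) (C.node (nat_lit 0) (nat_lit 3) (nat_lit 7) C.nil) C.nil)) (C.cons (nat_lit 153) (C.node (nat_lit 0) (nat_lit 4) (nat_lit 9) (C.cons (nat_lit 1553) (C.node (nat_lit 0) (nat_lit 3) (nat_lit 5) (C.cons (nat_lit 105) (C.node (nat_lit 0) (nat_lit 3) (nat_lit 10) C.nil) (C.cons (nat_lit 1065) (C.node (nat_lit 0) (nat_lit 3) (nat_lit 6) C.nil) C.nil))) C.nil)) C.nil))) C.nil)))) (List.cons (C.node (nat_lit 0) (nat_lit 2) (nat_lit 4) (C.cons (nat_lit 149) (C.node (nat_lit 0) (nat_lit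 2) (nat_lit 6) (C.cons (nat_lit 69) (C.node (nat_lit 0) (nat_lit 3) (nat_lit 7) (C.cons (nat_lit 1161) (C.node (nat_lit 0) (nat_lit 3) (nat_lit 4) (C.cons (nat_lit 89) (C.node (nat_lit 0) (nat_lit 3) (nat_lit 5) (C.cons (nat_lit 41) (C.node (nat_lit 0) (nat_lit 4) (nat_lit 5) (C.cons (nat_lit 1073) (C.node (nat_lit 0) (nat_lit 4) (nat_lit 9) C.nil) C.nil)) C.nil)) (C.cons (nat_lit 57) (C.node (nat_lit 0) (nat_lit 3) (nat_lit 6) (C.cons (nat_lit 73) (C.node (nat_lit 0) (nat_lit 4) (nat_lit 6) (C.cons (nat_lit 1105) (C.node (nat_lit 0) (nat_lit 4) (nat_lit 9) C.nil) (C.cons (nat_lit 593) (C.node (nat_lit 0) (nat_lit 4) (nat_lit 10) C.nil) C.nil))) C.nil)) (C.cons (nat_lit 25) (C.node (nat_lit 0) (nat_lit 3) (nat_lit 5) (C.cons (nat_lit 105) (C.node (nat_lit 0) (nat_lit 5) (nat_lit 4) (C.cons (nat_lit 1073) (C.node (nat_lit 0) (nat_lit 5) (nat_lit 8) C.nil) C.nil)) C.nil)) C.nil)))) (C.cons (nat_lit 201) (C.node (nat_lit 0) (nat_lit 3) (nat_lit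 4) (C.cons (nat_lit 1049) (C.node (nat_lit 0) (nat_lit 3) (nat_lit 5) (C.cons (nat_lit 41) (C.node (nat_lit 0) (nat_lit 4) (nat_lit 5) (C.cons (nat_lit 113) (C.node (nat_lit 0) (nat_lit 4) (nat_lit 9) C.nil) C.nil)) C.nil)) (C.cons (nat_lit 57) (C.node (nat_lit 0) (nat_lit 3) (nat_lit 10) (C.cons (nat_lit 1033)
  (C.node (nat_lit 0) (nat_lit 4) (nat_lit 6) (C.cons (nat_lit 1105) (C.node (nat_lit 0) (nat_lit 4) (nat_lit 9) C.nil) (C.cons (nat_lit 593) (C.node (nat_lit 0) (nat_lit 4) (nat_lit 10) C.nil) C.nil))) C.nil)) (C.cons (nat_lit 25) (C.node (nat_lit 0) (nat_lit 3) (nat_lit 5) (C.cons (nat_lit 1065) (C.node (nat_lit 0) (nat_lit 5) (nat_lit 4) (C.cons (nat_lit 113) (C.node (nat_lit 0) (nat_lit 5) (nat_lit 8) C.nil) C.nil)) C.nil)) C.nil)))) (C.cons (nat_lit 137) (C.node (nat_lit 0) (nat_lit 4) (nat_lit 9) (C.cons (nat_lit 1553) (C.node (nat_lit 0) (nat_lit 3) (nat_lit 4) (C.cons (nat_lit 89) (C.node (nat_lit 0) (nat_lit 4) (nat_lit 5)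 C.nil) (C.cons (nat_lit 57) (C.node (nat_lit 0) (nat_lit 4) (nat_lit 6) C.nil) C.nil))) (C.cons (nat_lit 593) (C.node (nat_lit 0) (nat_lit 3) (nat_lit 4) (C.cons (nat_lit 1049) (C.node (nat_lit 0) (nat_lit 4) (nat_lit 5) C.nil) (C.cons (nat_lit 57) (C.node (nat_lit 0) (nat_lit 4) (nat_lit 10) C.nil) C.nil))) C.nil))) C.nil)))) C.nil)) (C.cons (nat_lit 85) (C.node (nat_lit 0) (nat_lit 2) (nat_lit 7) (C.cons (nat_lit 133) (C.ref (nat_lit 272) (nat_lit 11649936536080)) C.nil)) (C.cons (nat_lit 21) (C.node (nat_lit 0) (nat_lit 2) (nat_lit 6) (C.cons (nat_lit 197) (C.ref (nat_lit 272) (nat_lit 11353284186400)) (C.cons (nat_lit 69) (C.node (nat_lit 0) (nat_lit 2) (nat_lit 7) C.nil) C.nil))) C.nil)))) (List.cons (C.node (nat_lit 0) (nat_lit 3) (nat_lit 5) (C.cons (nat_lit 1065) (C.node (nat_lit 0) (nat_lit 4) (nat_lit 5) (C.cons (nat_lit 49) (C.node (nat_lit 0) (nat_lit 5) (nat_lit 8) (C.cons (nat_lit 801) (C.node (nat_lit 0) (nat_lit 3) (nat_lit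 4) (C.cons (nat_lit 153) (C.node (nat_lit 0) (nat_lit 3) (nat_lit 6) C.nil) (C.cons (nat_lit 89) (C.node (nat_lit 0) (nat_lit 3) (nat_lit 7) C.nil) C.nil))) C.nil)) C.nil)) (C.cons (nat_lit 57) (C.node (nat_lit 0) (nat_lit 3) (nat_lit 6) (C.cons (nat_lit 1097) (C.node (nat_lit 0) (nat_lit 3) (nat_lit 7) (C.cons (nat_lit 137) (C.node (nat_lit 0) (nat_lit 4) (nat_lit 6) (C.cons (nat_lit 209) (C.node (nat_lit 0) (nat_lit 4) (nat_lit 10) C.nil) C.nil)) C.nil)) (C.cons (nat_lit 201) (C.node (nat_lit 0) (nat_lit 3) (nat_lit 10) (C.cons (nat_lit 1033) (C.node (nat_lit 0) (nat_lit 4) (nat_lit 6) (C.cons (nat_lit 1105) (C.node (nat_lit 0) (nat_lit 4) (nat_lit 7) C.nil) C.nil)) C.nil)) (C.cons (nat_lit 73) (C.node (nat_lit 0) (nat_lit 3) (nat_lit 7) (C.cons (nat_lit 1161) (C.node (nat_lit 0) (nat_lit 4) (nat_lit 7) (C.cons (nat_lit 209) (C.node (nat_lit 0) (nat_lit 4) (nat_lit 10) C.nil) C.nil)) C.nil)) C.nil)))) (C.cons (nat_lit 41) (C.node (nat_lit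 0) (nat_lit 4) (nat_lit 5) (C.cons (nat_lit 1073) (C.node (nat_lit 0) (nat_lit 5) (nat_lit 8) (C.cons (nat_lit 801) (C.node (nat_lit 0) (nat_lit 4) (nat_lit 3) (C.cons (nat_lit 89) (C.node (nat_lit 0) (nat_lit 4) (nat_lit 7) C.nil) (C.cons (nat_lit 153) (C.node (nat_lit 0) (nat_lit 4) (nat_lit 6) C.nil) C.nil))) C.nil)) C.nil)) C.nil)))) (List.cons (C.node (nat_lit 0) (nat_lit 2) (nat_lit 4) (C.cons (nat_lit 533) (C.node (nat_lit 0) (nat_lit 2) (nat_lit 7) (C.cons (nat_lit 133) (C.ref (nat_lit 274) (nat_lit 11649936536080)) C.nil)) (C.cons (nat_lit 149) (C.node (nat_lit 0) (nat_lit 2) (nat_lit 9) (C.cons (nat_lit 517) (C.ref (nat_lit 272) (nat_lit 11577456935440)) C.nil)) (C.cons (nat_lit 21) (C.node (nat_lit 0) (nat_lit 2) (nat_lit 7) (C.cons (nat_lit 645) (C.ref (nat_lit 272) (nat_lit 11490721042720)) (C.cons (nat_lit 133) (C.node (nat_lit 0) (nat_lit 2) (nat_lit 9) C.nil) C.nil))) C.nil)))) (List.cons (C.node (nat_lit 0) (nat_lit 2) (nat_lit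 6) (C.cons (nat_lit 581) (C.node (nat_lit 0) (nat_lit 2) (nat_lit 7) C.nil) (C.cons (nat_lit 197) (C.node (nat_lit 0) (nat_lit 2) (nat_lit 9) C.nil) C.nil))) (List.cons (C.node (nat_lit 0) (nat_lit 2) (nat_lit 4) (C.cons (nat_lit 533) (C.node (nat_lit 0) (nat_lit 2) (nat_lit 6) (C.cons (nat_lit 197) (C.ref (nat_lit 274) (nat_lit 11649401762320)) (C.cons (nat_lit 69) (C.node (nat_lit 0) (nat_lit 2) (nat_lit 7) C.nil) C.nil))) (C.cons (nat_lit 149)
  (C.node (nat_lit 0) (nat_lit 2) (nat_lit 6) (C.cons (nat_lit 581) (C.ref (nat_lit 272) (nat_lit 11220159004960)) (C.cons (nat_lit 69) (C.node (nat_lit 0) (nat_lit 2) (nat_lit 9) C.nil) C.nil))) (C.cons (nat_lit 85) (C.node (nat_lit 0) (nat_lit 2) (nat_lit 7) (C.cons (nat_lit 645) (C.ref (nat_lit 272) (nat_lit 11649401762320)) (C.cons (nat_lit 133) (C.node (nat_lit 0) (nat_lit 2) (nat_lit 9) C.nil) C.nil))) (C.cons (nat_lit 21) (C.ref (nat_lit 276) (nat_lit 11649936536080)) C.nil))))) (List.cons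 (C.node (nat_lit 0) (nat_lit 2) (nat_lit 5) (C.cons (nat_lit 549) (C.ref (nat_lit 273) (nat_lit 11649936536080)) (C.cons (nat_lit 101) (C.ref (nat_lit 275) (nat_lit 11649936536080)) (C.cons (nat_lit 53) (C.ref (nat_lit 273) (nat_lit 11568867131920)) (C.cons (nat_lit 37) (C.ref (nat_lit 277) (nat_lit 11649936536080)) C.nil))))) (List.cons (C.node (nat_lit 0) (nat_lit 2) (nat_lit 5) (C.cons (nat_lit 549) (C.node (nat_lit 0) (nat_lit 2) (nat_lit 8) (C.cons (nat_lit 389) (C.ref (nat_lit 272) (nat_lit 11515990331920)) (C.cons (nat_lit 261) (C.node (nat_lit 0) (nat_lit 2) (nat_lit 7) C.nil) C.nil))) (C.cons (nat_lit 293) (C.node (nat_lit 0) (nat_lit 2) (nat_lit 9) (C.cons (nat_lit 645) (C.ref (nat_lit 272) (nat_lit 11636747825440)) (C.cons (nat_lit 517) (C.node (nat_lit 0) (nat_lit 2) (nat_lit 7) C.nil) C.nil))) (C.cons (nat_lit 37) (C.node (nat_lit 0) (nat_lit 2) (nat_lit 7) (C.cons (nat_lit 645) (C.node (nat_lit 0) (nat_lit 2) (nat_lit 8) C.nil)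 (C.cons (nat_lit 389) (C.node (nat_lit 0) (nat_lit 2) (nat_lit 9) C.nil) C.nil))) C.nil)))) List.nil)))))))))))))))))))

theorem ok11_261 : okL par11 (nat_lit 280) c11_261 (nat_lit 261) = true := by decide +kernel

noncomputable def c11_280 : List C :=
  (List.cons (C.node (nat_lit 0) (nat_lit 2) (nat_lit 3) (C.cons (nat_lit 269) (C.ref (nat_lit 278) (nat_lit 11649936536080)) (C.cons (nat_lit 141) (C.ref (nat_lit 278) (nat_lit 11645909021200)) (C.cons (nat_lit 77) (C.node (nat_lit 0) (nat_lit 2) (nat_lit 4) (C.cons (nat_lit 533) (C.node (nat_lit 0) (nat_lit 2) (nat_lit 5) (C.cons (nat_lit 293) (C.node (nat_lit 0) (nat_lit 2) (nat_lit 7) (C.cons (nat_lit 133) (C.ref (nat_lit 272) (nat_lit 11585511965200)) C.nil)) (C.cons (nat_lit 37) (C.node (nat_lit 0) (nat_lit 2) (nat_lit 7) (C.cons (nat_lit 389) (C.ref (nat_lit 272) (nat_lit 11584977191440)) (C.cons (nat_lit 133) (C.node (nat_lit 0) (nat_lit 2) (nat_lit 8) C.nil) C.nil))) C.nil))) (C.cons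 (nat_lit 149) (C.ref (nat_lit 275) (nat_lit 11577456935440)) (C.cons (nat_lit 53) (C.ref (nat_lit 275) (nat_lit 11568867131920)) (C.cons (nat_lit 21) (C.ref (nat_lit 279) (nat_lit 11649936536080)) C.nil))))) (C.cons (nat_lit 45) (C.ref (nat_lit 278) (nat_lit 11637319217680)) (C.cons (nat_lit 29) (C.ref (nat_lit 278) (nat_lit 11632756929040)) (C.cons (nat_lit 13) (C.node (nat_lit 0) (nat_lit 2) (nat_lit 4) (C.cons (nat_lit 533) (C.node (nat_lit 0) (nat_lit 2) (nat_lit 5) (C.cons (nat_lit 293) (C.node (nat_lit 0) (nat_lit 2) (nat_lit 6) (C.cons (nat_lit 197) (C.ref (nat_lit 272) (nat_lit 11357562437920)) (C.cons (nat_lit 69) (C.node (nat_lit 0) (nat_lit 2) (nat_lit 7) C.nil) C.nil))) (C.cons (nat_lit 101) (C.node (nat_lit 0) (nat_lit 2) (nat_lit 7) (C.cons (nat_lit 389) (C.ref (nat_lit 272) (nat_lit 11494999294240)) (C.cons (nat_lit 133) (C.node (nat_lit 0) (nat_lit 2) (nat_lit 8) C.nil) C.nil))) (C.cons (nat_lit 37) (C.ref (nat_lit 276) (nat_lit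 11585511965200)) C.nil)))) (C.cons (nat_lit 149) (C.ref (nat_lit 277) (nat_lit 11577456935440)) (C.cons (nat_lit 85) (C.ref (nat_lit 279) (nat_lit 11585511965200)) (C.cons (nat_lit 53) (C.ref (nat_lit 277) (nat_lit 11568867131920)) (C.cons (nat_lit 21) (C.node (nat_lit 0) (nat_lit 2) (nat_lit 5) (C.cons (nat_lit 549) (C.ref (nat_lit 276) (nat_lit 11517059879440)) (C.cons (nat_lit 293) (C.ref (nat_lit 276) (nat_lit 11513032364560)) (C.cons (nat_lit 101) (C.node (nat_lit 0) (nat_lit 2) (nat_lit 8) (C.cons (nat_lit 389) (C.node (nat_lit 0) (nat_lit 2) (nat_lit 9) C.nil) (C.cons (nat_lit 773) (C.node (nat_lit 0) (nat_lit 2) (nat_lit 7) C.nil) C.nil))) C.nil)))) C.nil)))))) C.nil))))))) (List.cons (C.node (nat_lit 0) (nat_lit 2) (nat_lit 5) (C.cons (nat_lit 549) (C.node (nat_lit 0) (nat_lit 2) (nat_lit 6) C.nil) (C.cons (nat_lit 101) (C.node (nat_lit 0) (nat_lit 2) (nat_lit 9) C.nil) C.nil))) (List.cons (C.node (nat_lit 0) (nat_lit 2) (nat_lit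 4) (C.cons (nat_lit 533) (C.node (nat_lit 0) (nat_lit 2) (nat_lit 5) (C.cons (nat_lit 165) (C.node (nat_lit 0) (nat_lit 2) (nat_lit 6) C.nil) (C.cons (nat_lit 101) (C.node (nat_lit 0) (nat_lit 2) (nat_lit 7) C.nil) C.nil))) (C.cons (nat_lit 149) (C.ref (nat_lit 281) (nat_lit 11649936536080)) (C.cons (nat_lit 85) (C.ref (nat_lit 281) (nat_lit 11649684877840)) (C.cons (nat_lit 53) (C.ref (nat_lit 281) (nat_lit 11649417490960)) C.nil))))) (List.cons (C.node (nat_lit 0) (nat_lit 2) (nat_lit 4) (C.cons (nat_lit 533) (C.ref (nat_lit 281) (nat_lit 11585511965200)) (C.cons (nat_lit 85) (C.node (nat_lit 0) (nat_lit 2) (nat_lit 5) (C.cons (nat_lit 549) (C.node (nat_lit 0) (nat_lit 2) (nat_lit 8) C.nil) (C.cons (nat_lit 293) (C.node (nat_lit 0) (nat_lit 2) (nat_lit 9) C.nil) C.nil))) (C.cons (nat_lit 53) (C.node (nat_lit 0) (nat_lit 2) (nat_lit 6) (C.cons (nat_lit 581) (C.node (nat_lit 0) (nat_lit 2) (nat_lit 8) C.nil) (C.cons (nat_lit 325) (C.node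 (nat_lit 0) (nat_lit 2) (nat_lit 9) C.nil) C.nil))) C.nil)))) (List.cons (C.node (nat_lit 0) (nat_lit 2) (nat_lit 3) (C.cons (nat_lit 269) (C.ref (nat_lit 282) (nat_lit 11649936536080)) (C.cons (nat_lit 141) (C.ref (nat_lit 283) (nat_lit 11649936536080)) (C.cons (nat_lit 77) (C.ref (nat_lit 283) (nat_lit 11649684877840)) (C.cons (nat_lit 45) (C.ref (nat_lit 283) (nat_lit 11649417490960)) (C.cons (nat_lit 29)
  (C.ref (nat_lit 282) (nat_lit 11632756929040)) C.nil)))))) (List.cons (C.node (nat_lit 0) (nat_lit 1) (nat_lit 6) (C.cons (nat_lit 195) (C.ref (nat_lit 280) (nat_lit 11649920807440)) (C.cons (nat_lit 67) (C.node (nat_lit 0) (nat_lit 1) (nat_lit 7) (C.cons (nat_lit 131) (C.ref (nat_lit 284) (nat_lit 11649936536080)) C.nil)) C.nil))) (List.cons (C.node (nat_lit 0) (nat_lit 1) (nat_lit 5) (C.cons (nat_lit 163) (C.node (nat_lit 0) (nat_lit 1) (nat_lit 6) (C.cons (nat_lit 67) (C.ref (nat_lit 280) (nat_lit 11649936536080)) C.nil)) (C.cons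 (nat_lit 99) (C.node (nat_lit 0) (nat_lit 1) (nat_lit 7) (C.cons (nat_lit 131) (C.ref (nat_lit 280) (nat_lit 11649684877840)) C.nil)) (C.cons (nat_lit 35) (C.ref (nat_lit 285) (nat_lit 11649936536080)) C.nil)))) (List.cons (C.node (nat_lit 0) (nat_lit 1) (nat_lit 7) (C.cons (nat_lit 387) (C.ref (nat_lit 284) (nat_lit 11649650471440)) C.nil)) (List.cons (C.node (nat_lit 0) (nat_lit 1) (nat_lit 6) (C.cons (nat_lit 323) (C.node (nat_lit 0) (nat_lit 1) (nat_lit 7) (C.cons (nat_lit 131) (C.ref (nat_lit 284) (nat_lit 11649918841360)) C.nil)) (C.cons (nat_lit 195) (C.node (nat_lit 0) (nat_lit 1) (nat_lit 8) (C.cons (nat_lit 259) (C.ref (nat_lit 284) (nat_lit 11645892309520)) C.nil)) (C.cons (nat_lit 67) (C.ref (nat_lit 287) (nat_lit 11649936536080)) C.nil)))) (List.cons (C.node (nat_lit 0) (nat_lit 1) (nat_lit 5) (C.cons (nat_lit 291) (C.ref (nat_lit 285) (nat_lit 11649935553040)) (C.cons (nat_lit 163) (C.ref (nat_lit 285) (nat_lit 11645909021200))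 (C.cons (nat_lit 99) (C.ref (nat_lit 285) (nat_lit 11641630831120)) (C.cons (nat_lit 35) (C.ref (nat_lit 288) (nat_lit 11649936536080)) C.nil))))) (List.cons (C.node (nat_lit 0) (nat_lit 1) (nat_lit 4) (C.cons (nat_lit 275) (C.ref (nat_lit 286) (nat_lit 11649936536080)) (C.cons (nat_lit 147) (C.ref (nat_lit 286) (nat_lit 11645910004240)) (C.cons (nat_lit 83) (C.ref (nat_lit 286) (nat_lit 11641631814160)) (C.cons (nat_lit 51) (C.ref (nat_lit 286) (nat_lit 11637337895440)) (C.cons (nat_lit 19) (C.ref (nat_lit 289) (nat_lit 11649936536080)) C.nil)))))) (List.cons (C.node (nat_lit 0) (nat_lit 1) (nat_lit 6) (C.cons (nat_lit 579) (C.ref (nat_lit 287) (nat_lit 11649918657040)) (C.cons (nat_lit 323) (C.ref (nat_lit 287) (nat_lit 11585494147600)) (C.cons (nat_lit 195) (C.ref (nat_lit 287) (nat_lit 11517043106320)) C.nil)))) (List.cons (C.node (nat_lit 0) (nat_lit 1) (nat_lit 5) (C.cons (nat_lit 547) (C.ref (nat_lit 288) (nat_lit 11649935430160))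 (C.cons (nat_lit 291) (C.ref (nat_lit 288) (nat_lit 11585510920720)) (C.cons (nat_lit 163) (C.ref (nat_lit 288) (nat_lit 11517059879440)) (C.cons (nat_lit 99) (C.ref (nat_lit 288) (nat_lit 11448357179920)) (C.cons (nat_lit 35) (C.ref (nat_lit 291) (nat_lit 11649936536080)) C.nil)))))) (List.cons (C.node (nat_lit 0) (nat_lit 1) (nat_lit 4) (C.cons (nat_lit 531) (C.ref (nat_lit 289) (nat_lit 11649936474640)) (C.cons (nat_lit 275) (C.ref (nat_lit 289) (nat_lit 11585511965200)) (C.cons (nat_lit 147) (C.ref (nat_lit 289) (nat_lit 11517060923920)) (C.cons (nat_lit 83) (C.ref (nat_lit 289) (nat_lit 11448358224400)) (C.cons (nat_lit 51) (C.ref (nat_lit 289) (nat_lit 11379639796240)) (C.cons (nat_lit 19) (C.ref (nat_lit 292) (nat_lit 11649936536080)) C.nil))))))) (List.cons (C.node (nat_lit 0) (nat_lit 1) (nat_lit 3) (C.cons (nat_lit 523) (C.ref (nat_lit 290) (nat_lit 11649936536080)) (C.cons (nat_lit 267) (C.ref (nat_lit 290) (nat_lit 11585512026640))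 (C.cons (nat_lit 139) (C.ref (nat_lit 290) (nat_lit 11517060985360)) (C.cons (nat_lit 75) (C.ref (nat_lit 290) (nat_lit 11448358285840)) (C.cons (nat_lit 43) (C.ref (nat_lit 290) (nat_lit 11379639857680)) (C.cons (nat_lit 27) (C.ref (nat_lit 290) (nat_lit 11310920446480)) (C.cons (nat_lit 11) (C.ref (nat_lit 293) (nat_lit 11649936536080)) C.nil)))))))) List.nil)))))))))))))))

theorem ok11_280 : okL par11 (nat_lit 295) c11_280 (nat_lit 280) = true := by decide +kernel

noncomputable def c11_295 : List C :=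
  (List.cons (C.big (C.cons (nat_lit 1985) (C.ref (nat_lit 52) (nat_lit 11649936536080)) (C.cons (nat_lit 1953) (C.ref (nat_lit 52) (nat_lit 11649920807440)) (C.cons (nat_lit 1937) (C.ref (nat_lit 52) (nat_lit 11649904095760)) (C.cons (nat_lit 1929) (C.ref (nat_lit 52) (nat_lit 11649887322640)) (C.cons (nat_lit 1925) (C.ref (nat_lit 52) (nat_lit 11649870545680)) (C.cons (nat_lit 1923) (C.ref (nat_lit 52) (nat_lit 11649853768480)) (C.cons (nat_lit 1889) (C.ref (nat_lit 52) (nat_lit 11649653420560)) (C.cons (nat_lit 1873) (C.ref (nat_lit 52) (nat_lit 11649636708880)) (C.cons (nat_lit 1865) (C.ref (nat_lit 52) (nat_lit 11649619935760)) (C.cons (nat_lit 1861) (C.ref (nat_lit 52) (nat_lit 11649603158800)) (C.cons (nat_lit 1859) (C.ref (nat_lit 52) (nat_lit 11649586381600)) (C.cons (nat_lit 1841) (C.ref (nat_lit 52) (nat_lit 11649368338960)) (C.cons (nat_lit 1833) (C.ref (nat_lit 52) (nat_lit 11649351565840)) (C.cons (nat_lit 1829) (C.ref (nat_lit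 52) (nat_lit 11649334788880)) (C.cons (nat_lit 1827) (C.ref (nat_lit 52) (nat_lit 11649318011680)) (C.cons (nat_lit 1817) (C.ref (nat_lit 52) (nat_lit 11649083134480)) (C.cons (nat_lit 1813) (C.ref (nat_lit 52) (nat_lit 11649066357520)) (C.cons (nat_lit 1811) (C.ref (nat_lit 52) (nat_lit 11649049580320)) (C.cons (nat_lit 1805) (C.ref (nat_lit 52) (nat_lit 11648797922320)) (C.cons (nat_lit 1803) (C.ref (nat_lit 52) (nat_lit 11648781145120)) (C.cons (nat_lit 1799) (C.ref (nat_lit 52) (nat_lit 11648512709680)) (C.cons (nat_lit 1761) (C.ref (nat_lit 52) (nat_lit 11645359501840)) (C.cons (nat_lit 1745) (C.ref (nat_lit 52) (nat_lit 11645342790160)) (C.cons (nat_lit 1737) (C.ref (nat_lit 52) (nat_lit 11645326017040)) (C.cons (nat_lit 1733) (C.ref (nat_lit 52) (nat_lit 11645309240080)) (C.cons (nat_lit 1731) (C.ref (nat_lit 52) (nat_lit 11645292462880)) (C.cons (nat_lit 1713) (C.ref (nat_lit 52) (nat_lit 11645074420240)) (C.cons (nat_lit 1705) (C.ref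 (nat_lit 52) (nat_lit 11645057647120)) (C.cons (nat_lit 1701) (C.ref (nat_lit 52) (nat_lit 11645040870160)) (C.cons (nat_lit 1699) (C.ref (nat_lit 52) (nat_lit 11645024092960)) (C.cons (nat_lit 1689) (C.ref (nat_lit 52) (nat_lit 11644789215760)) (C.cons (nat_lit 1685) (C.ref (nat_lit 52) (nat_lit 11644772438800)) (C.cons (nat_lit 1683) (C.ref (nat_lit 52) (nat_lit 11644755661600)) (C.cons (nat_lit 1677) (C.ref (nat_lit 52) (nat_lit 11644504003600)) (C.cons (nat_lit 1675) (C.ref (nat_lit 52) (nat_lit 11644487226400)) (C.cons (nat_lit 1671) (C.ref (nat_lit 52) (nat_lit 11644218790960)) (C.cons (nat_lit 1649) (C.ref (nat_lit 52) (nat_lit 11640779518480)) (C.cons (nat_lit 1641) (C.ref (nat_lit 52) (nat_lit 11640762745360)) (C.cons (nat_lit 1637) (C.ref (nat_lit 52) (nat_lit 11640745968400)) (C.cons (nat_lit 1635) (C.ref (nat_lit 52) (nat_lit 11640729191200)) (C.cons (nat_lit 1625) (C.ref (nat_lit 52) (nat_lit 11640494314000)) (C.cons (nat_lit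 1621) (C.ref (nat_lit 52) (nat_lit 11640477537040)) (C.cons (nat_lit 1619) (C.ref (nat_lit 52) (nat_lit 11640460759840)) (C.cons (nat_lit 1613) (C.ref (nat_lit 52) (nat_lit 11640209101840)) (C.cons (nat_lit 1611) (C.ref (nat_lit 52) (nat_lit 11640192324640)) (C.cons (nat_lit 1607) (C.ref (nat_lit 52) (nat_lit 11639923889200)) (C.cons (nat_lit 1593) (C.ref (nat_lit 52) (nat_lit 11636199350800)) (C.cons (nat_lit 1589) (C.ref (nat_lit 52) (nat_lit 11636182573840)) (C.cons (nat_lit 1587) (C.ref (nat_lit 52) (nat_lit 11636165796640)) (C.cons (nat_lit 1581) (C.ref (nat_lit 52) (nat_lit 11635914138640)) (C.cons (nat_lit 1579) (C.ref (nat_lit 52) (nat_lit 11635897361440)) (C.cons (nat_lit 1575) (C.ref (nat_lit 52) (nat_lit 11635628926000)) (C.cons (nat_lit 1565) (C.ref (nat_lit 52) (nat_lit 11631619171600)) (C.cons (nat_lit 1563) (C.ref (nat_lit 52) (nat_lit 11631602394400)) (C.cons (nat_lit 1559) (C.ref (nat_lit 52) (nat_lit 11631333958960)) (C.cons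 (nat_lit 1551) (C.ref (nat_lit 52) (nat_lit 11627038991680)) (C.cons (nat_lit 1505) (C.ref (nat_lit 52) (nat_lit 11576641073680)) (C.cons (nat_lit 1489)
  (C.ref (nat_lit 52) (nat_lit 11576624362000)) (C.cons (nat_lit 1481) (C.ref (nat_lit 52) (nat_lit 11576607588880)) (C.cons (nat_lit 1477) (C.ref (nat_lit 52) (nat_lit 11576590811920)) (C.cons (nat_lit 1475) (C.ref (nat_lit 52) (nat_lit 11576574034720)) (C.cons (nat_lit 1457) (C.ref (nat_lit 52) (nat_lit 11576355992080)) (C.cons (nat_lit 1449) (C.ref (nat_lit 52) (nat_lit 11576339218960)) (C.cons (nat_lit 1445) (C.ref (nat_lit 52) (nat_lit 11576322442000)) (C.cons (nat_lit 1443) (C.ref (nat_lit 52) (nat_lit 11576305664800)) (C.cons (nat_lit 1433) (C.ref (nat_lit 52) (nat_lit 11576070787600)) (C.cons (nat_lit 1429) (C.ref (nat_lit 52) (nat_lit 11576054010640)) (C.cons (nat_lit 1427) (C.ref (nat_lit 52) (nat_lit 11576037233440)) (C.cons (nat_lit 1421) (C.ref (nat_lit 52) (nat_lit 11575785575440))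 (C.cons (nat_lit 1419) (C.ref (nat_lit 52) (nat_lit 11575768798240)) (C.cons (nat_lit 1415) (C.ref (nat_lit 52) (nat_lit 11575500362800)) (C.cons (nat_lit 1393) (C.ref (nat_lit 52) (nat_lit 11572061090320)) (C.cons (nat_lit 1385) (C.ref (nat_lit 52) (nat_lit 11572044317200)) (C.cons (nat_lit 1381) (C.ref (nat_lit 52) (nat_lit 11572027540240)) (C.cons (nat_lit 1379) (C.ref (nat_lit 52) (nat_lit 11572010763040)) (C.cons (nat_lit 1369) (C.ref (nat_lit 52) (nat_lit 11571775885840)) (C.cons (nat_lit 1365) (C.ref (nat_lit 52) (nat_lit 11571759108880)) (C.cons (nat_lit 1363) (C.ref (nat_lit 52) (nat_lit 11571742331680)) (C.cons (nat_lit 1357) (C.ref (nat_lit 52) (nat_lit 11571490673680)) (C.cons (nat_lit 1355) (C.ref (nat_lit 52) (nat_lit 11571473896480)) (C.cons (nat_lit 1351) (C.ref (nat_lit 52) (nat_lit 11571205461040)) (C.cons (nat_lit 1337) (C.ref (nat_lit 52) (nat_lit 11567480922640)) (C.cons (nat_lit 1333) (C.ref (nat_lit 52) (nat_lit 11567464145680))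 (C.cons (nat_lit 1331) (C.ref (nat_lit 52) (nat_lit 11567447368480)) (C.cons (nat_lit 1325) (C.ref (nat_lit 52) (nat_lit 11567195710480)) (C.cons (nat_lit 1323) (C.ref (nat_lit 52) (nat_lit 11567178933280)) (C.cons (nat_lit 1319) (C.ref (nat_lit 52) (nat_lit 11566910497840)) (C.cons (nat_lit 1309) (C.ref (nat_lit 52) (nat_lit 11562900743440)) (C.cons (nat_lit 1307) (C.ref (nat_lit 52) (nat_lit 11562883966240)) (C.cons (nat_lit 1303) (C.ref (nat_lit 52) (nat_lit 11562615530800)) (C.cons (nat_lit 1295) (C.ref (nat_lit 52) (nat_lit 11558320563520)) (C.cons (nat_lit 1265) (C.ref (nat_lit 52) (nat_lit 11503341679120)) (C.cons (nat_lit 1257) (C.ref (nat_lit 52) (nat_lit 11503324906000)) (C.cons (nat_lit 1253) (C.ref (nat_lit 52) (nat_lit 11503308129040)) (C.cons (nat_lit 1251) (C.ref (nat_lit 52) (nat_lit 11503291351840)) (C.cons (nat_lit 1241) (C.ref (nat_lit 52) (nat_lit 11503056474640)) (C.cons (nat_lit 1237) (C.ref (nat_lit 52) (nat_lit 11503039697680))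 (C.cons (nat_lit 1235) (C.ref (nat_lit 52) (nat_lit 11503022920480)) (C.cons (nat_lit 1229) (C.ref (nat_lit 52) (nat_lit 11502771262480)) (C.cons (nat_lit 1227) (C.ref (nat_lit 52) (nat_lit 11502754485280)) (C.cons (nat_lit 1223) (C.ref (nat_lit 52) (nat_lit 11502486049840)) (C.cons (nat_lit 1209) (C.ref (nat_lit 52) (nat_lit 11498761511440)) (C.cons (nat_lit 1205) (C.ref (nat_lit 52) (nat_lit 11498744734480)) (C.cons (nat_lit 1203) (C.ref (nat_lit 52) (nat_lit 11498727957280)) (C.cons (nat_lit 1197) (C.ref (nat_lit 52) (nat_lit 11498476299280)) (C.cons (nat_lit 1195) (C.ref (nat_lit 52) (nat_lit 11498459522080)) (C.cons (nat_lit 1191) (C.ref (nat_lit 52) (nat_lit 11498191086640)) (C.cons (nat_lit 1181) (C.ref (nat_lit 52) (nat_lit 11494181332240)) (C.cons (nat_lit 1179) (C.ref (nat_lit 52) (nat_lit 11494164555040)) (C.cons (nat_lit 1175) (C.ref (nat_lit 52) (nat_lit 11493896119600)) (C.cons (nat_lit 1167) (C.ref (nat_lit 52) (nat_lit 11489601152320))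 (C.cons (nat_lit 1145) (C.ref (nat_lit 52) (nat_lit 11430042038800)) (C.cons (nat_lit 1141) (C.ref (nat_lit 52) (nat_lit 11430025261840)) (C.cons (nat_lit 1139) (C.ref (nat_lit 52) (nat_lit 11430008484640)) (C.cons (nat_lit 1133) (C.ref (nat_lit 52) (nat_lit 11429756826640))
  (C.cons (nat_lit 1131) (C.ref (nat_lit 52) (nat_lit 11429740049440)) (C.cons (nat_lit 1127) (C.ref (nat_lit 52) (nat_lit 11429471614000)) (C.cons (nat_lit 1117) (C.ref (nat_lit 52) (nat_lit 11425461859600)) (C.cons (nat_lit 1115) (C.ref (nat_lit 52) (nat_lit 11425445082400)) (C.cons (nat_lit 1111) (C.ref (nat_lit 52) (nat_lit 11425176646960)) (C.cons (nat_lit 1103) (C.ref (nat_lit 52) (nat_lit 11420881679680)) (C.cons (nat_lit 1085) (C.ref (nat_lit 52) (nat_lit 11356742383120)) (C.cons (nat_lit 1083) (C.ref (nat_lit 52) (nat_lit 11356725605920)) (C.cons (nat_lit 1079) (C.ref (nat_lit 52) (nat_lit 11356457170480)) (C.cons (nat_lit 1071) (C.ref (nat_lit 52) (nat_lit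 11352162203200)) (C.cons (nat_lit 1055) (C.ref (nat_lit 52) (nat_lit 11283442726480)) (C.cons (nat_lit 993) (C.ref (nat_lit 52) (nat_lit 10477130494480)) (C.cons (nat_lit 977) (C.ref (nat_lit 52) (nat_lit 10477113782800)) (C.cons (nat_lit 969) (C.ref (nat_lit 52) (nat_lit 10477097009680)) (C.cons (nat_lit 965) (C.ref (nat_lit 52) (nat_lit 10477080232720)) (C.cons (nat_lit 963) (C.ref (nat_lit 52) (nat_lit 10477063455520)) (C.cons (nat_lit 945) (C.ref (nat_lit 52) (nat_lit 10476845412880)) (C.cons (nat_lit 937) (C.ref (nat_lit 52) (nat_lit 10476828639760)) (C.cons (nat_lit 933) (C.ref (nat_lit 52) (nat_lit 10476811862800)) (C.cons (nat_lit 931) (C.ref (nat_lit 52) (nat_lit 10476795085600)) (C.cons (nat_lit 921) (C.ref (nat_lit 52) (nat_lit 10476560208400)) (C.cons (nat_lit 917) (C.ref (nat_lit 52) (nat_lit 10476543431440)) (C.cons (nat_lit 915) (C.ref (nat_lit 52) (nat_lit 10476526654240)) (C.cons (nat_lit 909) (C.ref (nat_lit 52) (nat_lit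 10476274996240)) (C.cons (nat_lit 907) (C.ref (nat_lit 52) (nat_lit 10476258219040)) (C.cons (nat_lit 903) (C.ref (nat_lit 52) (nat_lit 10475989783600)) (C.cons (nat_lit 881) (C.ref (nat_lit 52) (nat_lit 10472550511120)) (C.cons (nat_lit 873) (C.ref (nat_lit 52) (nat_lit 10472533738000)) (C.cons (nat_lit 869) (C.ref (nat_lit 52) (nat_lit 10472516961040)) (C.cons (nat_lit 867) (C.ref (nat_lit 52) (nat_lit 10472500183840)) (C.cons (nat_lit 857) (C.ref (nat_lit 52) (nat_lit 10472265306640)) (C.cons (nat_lit 853) (C.ref (nat_lit 52) (nat_lit 10472248529680)) (C.cons (nat_lit 851) (C.ref (nat_lit 52) (nat_lit 10472231752480)) (C.cons (nat_lit 845) (C.ref (nat_lit 52) (nat_lit 10471980094480)) (C.cons (nat_lit 843) (C.ref (nat_lit 52) (nat_lit 10471963317280)) (C.cons (nat_lit 839) (C.ref (nat_lit 52) (nat_lit 10471694881840)) (C.cons (nat_lit 825) (C.ref (nat_lit 52) (nat_lit 10467970343440)) (C.cons (nat_lit 821) (C.ref (nat_lit 52) (nat_lit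 10467953566480)) (C.cons (nat_lit 819) (C.ref (nat_lit 52) (nat_lit 10467936789280)) (C.cons (nat_lit 813) (C.ref (nat_lit 52) (nat_lit 10467685131280)) (C.cons (nat_lit 811) (C.ref (nat_lit 52) (nat_lit 10467668354080)) (C.cons (nat_lit 807) (C.ref (nat_lit 52) (nat_lit 10467399918640)) (C.cons (nat_lit 797) (C.ref (nat_lit 52) (nat_lit 10463390164240)) (C.cons (nat_lit 795) (C.ref (nat_lit 52) (nat_lit 10463373387040)) (C.cons (nat_lit 791) (C.ref (nat_lit 52) (nat_lit 10463104951600)) (C.cons (nat_lit 783) (C.ref (nat_lit 52) (nat_lit 10458809984320)) (C.cons (nat_lit 753) (C.ref (nat_lit 52) (nat_lit 10403831099920)) (C.cons (nat_lit 745) (C.ref (nat_lit 52) (nat_lit 10403814326800)) (C.cons (nat_lit 741) (C.ref (nat_lit 52) (nat_lit 10403797549840)) (C.cons (nat_lit 739) (C.ref (nat_lit 52) (nat_lit 10403780772640)) (C.cons (nat_lit 729) (C.ref (nat_lit 52) (nat_lit 10403545895440)) (C.cons (nat_lit 725) (C.ref (nat_lit 52) (nat_lit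 10403529118480)) (C.cons (nat_lit 723) (C.ref (nat_lit 52) (nat_lit 10403512341280)) (C.cons (nat_lit 717) (C.ref (nat_lit 52) (nat_lit 10403260683280)) (C.cons (nat_lit 715) (C.ref (nat_lit 52) (nat_lit 10403243906080)) (C.cons (nat_lit 711) (C.ref (nat_lit 52) (nat_lit 10402975470640)) (C.cons (nat_lit 697) (C.ref (nat_lit 52) (nat_lit 10399250932240)) (C.cons (nat_lit 693) (C.ref (nat_lit 52) (nat_lit 10399234155280)) (C.cons (nat_lit 691)
  (C.ref (nat_lit 52) (nat_lit 10399217378080)) (C.cons (nat_lit 685) (C.ref (nat_lit 52) (nat_lit 10398965720080)) (C.cons (nat_lit 683) (C.ref (nat_lit 52) (nat_lit 10398948942880)) (C.cons (nat_lit 679) (C.ref (nat_lit 52) (nat_lit 10398680507440)) (C.cons (nat_lit 669) (C.ref (nat_lit 52) (nat_lit 10394670753040)) (C.cons (nat_lit 667) (C.ref (nat_lit 52) (nat_lit 10394653975840)) (C.cons (nat_lit 663) (C.ref (nat_lit 52) (nat_lit 10394385540400)) (C.cons (nat_lit 655) (C.ref (nat_lit 52) (nat_lit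 10390090573120)) (C.cons (nat_lit 633) (C.ref (nat_lit 52) (nat_lit 10330531459600)) (C.cons (nat_lit 629) (C.ref (nat_lit 52) (nat_lit 10330514682640)) (C.cons (nat_lit 627) (C.ref (nat_lit 52) (nat_lit 10330497905440)) (C.cons (nat_lit 621) (C.ref (nat_lit 52) (nat_lit 10330246247440)) (C.cons (nat_lit 619) (C.ref (nat_lit 52) (nat_lit 10330229470240)) (C.cons (nat_lit 615) (C.ref (nat_lit 52) (nat_lit 10329961034800)) (C.cons (nat_lit 605) (C.ref (nat_lit 52) (nat_lit 10325951280400)) (C.cons (nat_lit 603) (C.ref (nat_lit 52) (nat_lit 10325934503200)) (C.cons (nat_lit 599) (C.ref (nat_lit 52) (nat_lit 10325666067760)) (C.cons (nat_lit 591) (C.ref (nat_lit 52) (nat_lit 10321371100480)) (C.cons (nat_lit 573) (C.ref (nat_lit 52) (nat_lit 10257231803920)) (C.cons (nat_lit 571) (C.ref (nat_lit 52) (nat_lit 10257215026720)) (C.cons (nat_lit 567) (C.ref (nat_lit 52) (nat_lit 10256946591280)) (C.cons (nat_lit 559) (C.ref (nat_lit 52) (nat_lit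 10252651624000)) (C.cons (nat_lit 543) (C.ref (nat_lit 52) (nat_lit 10183932147280)) (C.cons (nat_lit 497) (C.ref (nat_lit 52) (nat_lit 9304319537680)) (C.cons (nat_lit 489) (C.ref (nat_lit 52) (nat_lit 9304302764560)) (C.cons (nat_lit 485) (C.ref (nat_lit 52) (nat_lit 9304285987600)) (C.cons (nat_lit 483) (C.ref (nat_lit 52) (nat_lit 9304269210400)) (C.cons (nat_lit 473) (C.ref (nat_lit 52) (nat_lit 9304034333200)) (C.cons (nat_lit 469) (C.ref (nat_lit 52) (nat_lit 9304017556240)) (C.cons (nat_lit 467) (C.ref (nat_lit 52) (nat_lit 9304000779040)) (C.cons (nat_lit 461) (C.ref (nat_lit 52) (nat_lit 9303749121040)) (C.cons (nat_lit 459) (C.ref (nat_lit 52) (nat_lit 9303732343840)) (C.cons (nat_lit 455) (C.ref (nat_lit 52) (nat_lit 9303463908400)) (C.cons (nat_lit 441) (C.ref (nat_lit 52) (nat_lit 9299739370000)) (C.cons (nat_lit 437) (C.ref (nat_lit 52) (nat_lit 9299722593040)) (C.cons (nat_lit 435) (C.ref (nat_lit 52) (nat_lit 9299705815840))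 (C.cons (nat_lit 429) (C.ref (nat_lit 52) (nat_lit 9299454157840)) (C.cons (nat_lit 427) (C.ref (nat_lit 52) (nat_lit 9299437380640)) (C.cons (nat_lit 423) (C.ref (nat_lit 52) (nat_lit 9299168945200)) (C.cons (nat_lit 413) (C.ref (nat_lit 52) (nat_lit 9295159190800)) (C.cons (nat_lit 411) (C.ref (nat_lit 52) (nat_lit 9295142413600)) (C.cons (nat_lit 407) (C.ref (nat_lit 52) (nat_lit 9294873978160)) (C.cons (nat_lit 399) (C.ref (nat_lit 52) (nat_lit 9290579010880)) (C.cons (nat_lit 377) (C.ref (nat_lit 52) (nat_lit 9231019897360)) (C.cons (nat_lit 373) (C.ref (nat_lit 52) (nat_lit 9231003120400)) (C.cons (nat_lit 371) (C.ref (nat_lit 52) (nat_lit 9230986343200)) (C.cons (nat_lit 365) (C.ref (nat_lit 52) (nat_lit 9230734685200)) (C.cons (nat_lit 363) (C.ref (nat_lit 52) (nat_lit 9230717908000)) (C.cons (nat_lit 359) (C.ref (nat_lit 52) (nat_lit 9230449472560)) (C.cons (nat_lit 349) (C.ref (nat_lit 52) (nat_lit 9226439718160)) (C.cons (nat_lit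 347) (C.ref (nat_lit 52) (nat_lit 9226422940960)) (C.cons (nat_lit 343) (C.ref (nat_lit 52) (nat_lit 9226154505520)) (C.cons (nat_lit 335) (C.ref (nat_lit 52) (nat_lit 9221859538240)) (C.cons (nat_lit 317) (C.ref (nat_lit 52) (nat_lit 9157720241680)) (C.cons (nat_lit 315) (C.ref (nat_lit 52) (nat_lit 9157703464480)) (C.cons (nat_lit 311) (C.ref (nat_lit 52) (nat_lit 9157435029040)) (C.cons (nat_lit 303) (C.ref (nat_lit 52) (nat_lit 9153140061760)) (C.cons (nat_lit 287) (C.ref (nat_lit 52) (nat_lit 9084420585040)) (C.cons (nat_lit 249) (C.ref (nat_lit 52) (nat_lit 8131508273680)) (C.cons (nat_lit 245)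
  (C.ref (nat_lit 52) (nat_lit 8131491496720)) (C.cons (nat_lit 243) (C.ref (nat_lit 52) (nat_lit 8131474719520)) (C.cons (nat_lit 237) (C.ref (nat_lit 52) (nat_lit 8131223061520)) (C.cons (nat_lit 235) (C.ref (nat_lit 52) (nat_lit 8131206284320)) (C.cons (nat_lit 231) (C.ref (nat_lit 52) (nat_lit 8130937848880)) (C.cons (nat_lit 221) (C.ref (nat_lit 52) (nat_lit 8126928094480)) (C.cons (nat_lit 219) (C.ref (nat_lit 52) (nat_lit 8126911317280)) (C.cons (nat_lit 215) (C.ref (nat_lit 52) (nat_lit 8126642881840)) (C.cons (nat_lit 207) (C.ref (nat_lit 52) (nat_lit 8122347914560)) (C.cons (nat_lit 189) (C.ref (nat_lit 52) (nat_lit 8058208618000)) (C.cons (nat_lit 187) (C.ref (nat_lit 52) (nat_lit 8058191840800)) (C.cons (nat_lit 183) (C.ref (nat_lit 52) (nat_lit 8057923405360)) (C.cons (nat_lit 175) (C.ref (nat_lit 52) (nat_lit 8053628438080)) (C.cons (nat_lit 159) (C.ref (nat_lit 52) (nat_lit 7984908961360)) (C.cons (nat_lit 125) (C.ref (nat_lit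 52) (nat_lit 6958696990480)) (C.cons (nat_lit 123) (C.ref (nat_lit 52) (nat_lit 6958680213280)) (C.cons (nat_lit 119) (C.ref (nat_lit 52) (nat_lit 6958411777840)) (C.cons (nat_lit 111) (C.ref (nat_lit 52) (nat_lit 6954116810560)) (C.cons (nat_lit 95) (C.ref (nat_lit 52) (nat_lit 6885397333840)) (C.cons (nat_lit 63) (C.ref (nat_lit 52) (nat_lit 5785885706080)) C.nil)))))))))))))))))))))))))))))))))))))))))))))))))))))))))))))))))))))))))))))))))))))))))))))))))))))))))))))))))))))))))))))))))))))))))))))))))))))))))))))))))))))))))))))))))))))))))))))))))))))))))))))))))))))))))))))))))))))))))))))))))))))))))))) (C.big (C.cons (nat_lit 1921) (C.ref (nat_lit 271) (nat_lit 11649936536080)) (C.cons (nat_lit 1857) (C.ref (nat_lit 271) (nat_lit 11649684877840)) (C.cons (nat_lit 1825) (C.ref (nat_lit 271) (nat_lit 11649417490960)) (C.cons (nat_lit 1809) (C.ref (nat_lit 271) (nat_lit 11649149121040)) (C.cons (nat_lit 1801) (C.ref (nat_lit 271)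 (nat_lit 11648880689680)) (C.cons (nat_lit 1797) (C.ref (nat_lit 271) (nat_lit 11648612254480)) (C.cons (nat_lit 1795) (C.ref (nat_lit 271) (nat_lit 11648343819040)) (C.cons (nat_lit 1729) (C.ref (nat_lit 271) (nat_lit 11645406687760)) (C.cons (nat_lit 1697) (C.ref (nat_lit 271) (nat_lit 11645139300880)) (C.cons (nat_lit 1681) (C.ref (nat_lit 271) (nat_lit 11644870930960)) (C.cons (nat_lit 1673) (C.ref (nat_lit 271) (nat_lit 11644602499600)) (C.cons (nat_lit 1669) (C.ref (nat_lit 271) (nat_lit 11644334064400)) (C.cons (nat_lit 1667) (C.ref (nat_lit 271) (nat_lit 11644065628960)) (C.cons (nat_lit 1633) (C.ref (nat_lit 271) (nat_lit 11640845382160)) (C.cons (nat_lit 1617) (C.ref (nat_lit 271) (nat_lit 11640577012240)) (C.cons (nat_lit 1609) (C.ref (nat_lit 271) (nat_lit 11640308580880)) (C.cons (nat_lit 1605) (C.ref (nat_lit 271) (nat_lit 11640040145680)) (C.cons (nat_lit 1603) (C.ref (nat_lit 271) (nat_lit 11639771710240)) (C.cons (nat_lit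 1585) (C.ref (nat_lit 271) (nat_lit 11636282110480)) (C.cons (nat_lit 1577) (C.ref (nat_lit 271) (nat_lit 11636013679120)) (C.cons (nat_lit 1573) (C.ref (nat_lit 271) (nat_lit 11635745243920)) (C.cons (nat_lit 1571) (C.ref (nat_lit 271) (nat_lit 11635476808480)) (C.cons (nat_lit 1561) (C.ref (nat_lit 271) (nat_lit 11631718715920)) (C.cons (nat_lit 1557) (C.ref (nat_lit 271) (nat_lit 11631450280720)) (C.cons (nat_lit 1555) (C.ref (nat_lit 271) (nat_lit 11631181845280)) (C.cons (nat_lit 1549) (C.ref (nat_lit 271) (nat_lit 11627155313680)) (C.cons (nat_lit 1547) (C.ref (nat_lit 271) (nat_lit 11626886878240)) (C.cons (nat_lit 1543) (C.ref (nat_lit 271) (nat_lit 11622591910960)) (C.cons (nat_lit 1473) (C.ref (nat_lit 271) (nat_lit 11576703988240)) (C.cons (nat_lit 1441) (C.ref (nat_lit 271) (nat_lit 11576436601360)) (C.cons (nat_lit 1425) (C.ref (nat_lit 271) (nat_lit 11576168231440)) (C.cons (nat_lit 1417) (C.ref (nat_lit 271) (nat_lit 11575899800080))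 (C.cons (nat_lit 1413) (C.ref (nat_lit 271) (nat_lit 11575631364880)) (C.cons (nat_lit 1411) (C.ref (nat_lit 271) (nat_lit 11575362929440)) (C.cons (nat_lit 1377)
  (C.ref (nat_lit 271) (nat_lit 11572142682640)) (C.cons (nat_lit 1361) (C.ref (nat_lit 271) (nat_lit 11571874312720)) (C.cons (nat_lit 1353) (C.ref (nat_lit 271) (nat_lit 11571605881360)) (C.cons (nat_lit 1349) (C.ref (nat_lit 271) (nat_lit 11571337446160)) (C.cons (nat_lit 1347) (C.ref (nat_lit 271) (nat_lit 11571069010720)) (C.cons (nat_lit 1329) (C.ref (nat_lit 271) (nat_lit 11567579410960)) (C.cons (nat_lit 1321) (C.ref (nat_lit 271) (nat_lit 11567310979600)) (C.cons (nat_lit 1317) (C.ref (nat_lit 271) (nat_lit 11567042544400)) (C.cons (nat_lit 1315) (C.ref (nat_lit 271) (nat_lit 11566774108960)) (C.cons (nat_lit 1305) (C.ref (nat_lit 271) (nat_lit 11563016016400)) (C.cons (nat_lit 1301) (C.ref (nat_lit 271) (nat_lit 11562747581200)) (C.cons (nat_lit 1299) (C.ref (nat_lit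 271) (nat_lit 11562479145760)) (C.cons (nat_lit 1293) (C.ref (nat_lit 271) (nat_lit 11558452614160)) (C.cons (nat_lit 1291) (C.ref (nat_lit 271) (nat_lit 11558184178720)) (C.cons (nat_lit 1287) (C.ref (nat_lit 271) (nat_lit 11553889211440)) (C.cons (nat_lit 1249) (C.ref (nat_lit 271) (nat_lit 11503424254480)) (C.cons (nat_lit 1233) (C.ref (nat_lit 271) (nat_lit 11503155884560)) (C.cons (nat_lit 1225) (C.ref (nat_lit 271) (nat_lit 11502887453200)) (C.cons (nat_lit 1221) (C.ref (nat_lit 271) (nat_lit 11502619018000)) (C.cons (nat_lit 1219) (C.ref (nat_lit 271) (nat_lit 11502350582560)) (C.cons (nat_lit 1201) (C.ref (nat_lit 271) (nat_lit 11498860982800)) (C.cons (nat_lit 1193) (C.ref (nat_lit 271) (nat_lit 11498592551440)) (C.cons (nat_lit 1189) (C.ref (nat_lit 271) (nat_lit 11498324116240)) (C.cons (nat_lit 1187) (C.ref (nat_lit 271) (nat_lit 11498055680800)) (C.cons (nat_lit 1177) (C.ref (nat_lit 271) (nat_lit 11494297588240)) (C.cons (nat_lit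 1173) (C.ref (nat_lit 271) (nat_lit 11494029153040)) (C.cons (nat_lit 1171) (C.ref (nat_lit 271) (nat_lit 11493760717600)) (C.cons (nat_lit 1165) (C.ref (nat_lit 271) (nat_lit 11489734186000)) (C.cons (nat_lit 1163) (C.ref (nat_lit 271) (nat_lit 11489465750560)) (C.cons (nat_lit 1159) (C.ref (nat_lit 271) (nat_lit 11485170783280)) (C.cons (nat_lit 1137) (C.ref (nat_lit 271) (nat_lit 11430141571600)) (C.cons (nat_lit 1129) (C.ref (nat_lit 271) (nat_lit 11429873140240)) (C.cons (nat_lit 1125) (C.ref (nat_lit 271) (nat_lit 11429604705040)) (C.cons (nat_lit 1123) (C.ref (nat_lit 271) (nat_lit 11429336269600)) (C.cons (nat_lit 1113) (C.ref (nat_lit 271) (nat_lit 11425578177040)) (C.cons (nat_lit 1109) (C.ref (nat_lit 271) (nat_lit 11425309741840)) (C.cons (nat_lit 1107) (C.ref (nat_lit 271) (nat_lit 11425041306400)) (C.cons (nat_lit 1101) (C.ref (nat_lit 271) (nat_lit 11421014774800)) (C.cons (nat_lit 1099) (C.ref (nat_lit 271) (nat_lit 11420746339360))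 (C.cons (nat_lit 1095) (C.ref (nat_lit 271) (nat_lit 11416451372080)) (C.cons (nat_lit 1081) (C.ref (nat_lit 271) (nat_lit 11356858704400)) (C.cons (nat_lit 1077) (C.ref (nat_lit 271) (nat_lit 11356590269200)) (C.cons (nat_lit 1075) (C.ref (nat_lit 271) (nat_lit 11356321833760)) (C.cons (nat_lit 1069) (C.ref (nat_lit 271) (nat_lit 11352295302160)) (C.cons (nat_lit 1067) (C.ref (nat_lit 271) (nat_lit 11352026866720)) (C.cons (nat_lit 1063) (C.ref (nat_lit 271) (nat_lit 11347731899440)) (C.cons (nat_lit 1053) (C.ref (nat_lit 271) (nat_lit 11283575825680)) (C.cons (nat_lit 1051) (C.ref (nat_lit 271) (nat_lit 11283307390240)) (C.cons (nat_lit 1047) (C.ref (nat_lit 271) (nat_lit 11279012422960)) (C.cons (nat_lit 1039) (C.ref (nat_lit 271) (nat_lit 11210292946240)) (C.cons (nat_lit 961) (C.ref (nat_lit 271) (nat_lit 10477209137680)) (C.cons (nat_lit 929) (C.ref (nat_lit 271) (nat_lit 10476941750800)) (C.cons (nat_lit 913) (C.ref (nat_lit 271)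 (nat_lit 10476673380880)) (C.cons (nat_lit 905) (C.ref (nat_lit 271) (nat_lit 10476404949520)) (C.cons (nat_lit 901) (C.ref (nat_lit 271) (nat_lit 10476136514320)) (C.cons (nat_lit 899) (C.ref (nat_lit 271) (nat_lit 10475868078880)) (C.cons (nat_lit 865) (C.ref (nat_lit 271) (nat_lit 10472647832080)) (C.cons (nat_lit 849)
  (C.ref (nat_lit 271) (nat_lit 10472379462160)) (C.cons (nat_lit 841) (C.ref (nat_lit 271) (nat_lit 10472111030800)) (C.cons (nat_lit 837) (C.ref (nat_lit 271) (nat_lit 10471842595600)) (C.cons (nat_lit 835) (C.ref (nat_lit 271) (nat_lit 10471574160160)) (C.cons (nat_lit 817) (C.ref (nat_lit 271) (nat_lit 10468084560400)) (C.cons (nat_lit 809) (C.ref (nat_lit 271) (nat_lit 10467816129040)) (C.cons (nat_lit 805) (C.ref (nat_lit 271) (nat_lit 10467547693840)) (C.cons (nat_lit 803) (C.ref (nat_lit 271) (nat_lit 10467279258400)) (C.cons (nat_lit 793) (C.ref (nat_lit 271) (nat_lit 10463521165840)) (C.cons (nat_lit 789) (C.ref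 (nat_lit 271) (nat_lit 10463252730640)) (C.cons (nat_lit 787) (C.ref (nat_lit 271) (nat_lit 10462984295200)) (C.cons (nat_lit 781) (C.ref (nat_lit 271) (nat_lit 10458957763600)) (C.cons (nat_lit 779) (C.ref (nat_lit 271) (nat_lit 10458689328160)) (C.cons (nat_lit 775) (C.ref (nat_lit 271) (nat_lit 10454394360880)) (C.cons (nat_lit 737) (C.ref (nat_lit 271) (nat_lit 10403929403920)) (C.cons (nat_lit 721) (C.ref (nat_lit 271) (nat_lit 10403661034000)) (C.cons (nat_lit 713) (C.ref (nat_lit 271) (nat_lit 10403392602640)) (C.cons (nat_lit 709) (C.ref (nat_lit 271) (nat_lit 10403124167440)) (C.cons (nat_lit 707) (C.ref (nat_lit 271) (nat_lit 10402855732000)) (C.cons (nat_lit 689) (C.ref (nat_lit 271) (nat_lit 10399366132240)) (C.cons (nat_lit 681) (C.ref (nat_lit 271) (nat_lit 10399097700880)) (C.cons (nat_lit 677) (C.ref (nat_lit 271) (nat_lit 10398829265680)) (C.cons (nat_lit 675) (C.ref (nat_lit 271) (nat_lit 10398560830240)) (C.cons (nat_lit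 665) (C.ref (nat_lit 271) (nat_lit 10394802737680)) (C.cons (nat_lit 661) (C.ref (nat_lit 271) (nat_lit 10394534302480)) (C.cons (nat_lit 659) (C.ref (nat_lit 271) (nat_lit 10394265867040)) (C.cons (nat_lit 653) (C.ref (nat_lit 271) (nat_lit 10390239335440)) (C.cons (nat_lit 651) (C.ref (nat_lit 271) (nat_lit 10389970900000)) (C.cons (nat_lit 647) (C.ref (nat_lit 271) (nat_lit 10385675932720)) (C.cons (nat_lit 625) (C.ref (nat_lit 271) (nat_lit 10330646721040)) (C.cons (nat_lit 617) (C.ref (nat_lit 271) (nat_lit 10330378289680)) (C.cons (nat_lit 613) (C.ref (nat_lit 271) (nat_lit 10330109854480)) (C.cons (nat_lit 611) (C.ref (nat_lit 271) (nat_lit 10329841419040)) (C.cons (nat_lit 601) (C.ref (nat_lit 271) (nat_lit 10326083326480)) (C.cons (nat_lit 597) (C.ref (nat_lit 271) (nat_lit 10325814891280)) (C.cons (nat_lit 595) (C.ref (nat_lit 271) (nat_lit 10325546455840)) (C.cons (nat_lit 589) (C.ref (nat_lit 271) (nat_lit 10321519924240)) (C.cons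 (nat_lit 587) (C.ref (nat_lit 271) (nat_lit 10321251488800)) (C.cons (nat_lit 583) (C.ref (nat_lit 271) (nat_lit 10316956521520)) (C.cons (nat_lit 569) (C.ref (nat_lit 271) (nat_lit 10257363853840)) (C.cons (nat_lit 565) (C.ref (nat_lit 271) (nat_lit 10257095418640)) (C.cons (nat_lit 563) (C.ref (nat_lit 271) (nat_lit 10256826983200)) (C.cons (nat_lit 557) (C.ref (nat_lit 271) (nat_lit 10252800451600)) (C.cons (nat_lit 555) (C.ref (nat_lit 271) (nat_lit 10252532016160)) (C.cons (nat_lit 551) (C.ref (nat_lit 271) (nat_lit 10248237048880)) (C.cons (nat_lit 541) (C.ref (nat_lit 271) (nat_lit 10184080975120)) (C.cons (nat_lit 539) (C.ref (nat_lit 271) (nat_lit 10183812539680)) (C.cons (nat_lit 535) (C.ref (nat_lit 271) (nat_lit 10179517572400)) (C.cons (nat_lit 527) (C.ref (nat_lit 271) (nat_lit 10110798095680)) (C.cons (nat_lit 481) (C.ref (nat_lit 271) (nat_lit 9304418824720)) (C.cons (nat_lit 465) (C.ref (nat_lit 271) (nat_lit 9304150454800))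 (C.cons (nat_lit 457) (C.ref (nat_lit 271) (nat_lit 9303882023440)) (C.cons (nat_lit 453) (C.ref (nat_lit 271) (nat_lit 9303613588240)) (C.cons (nat_lit 451) (C.ref (nat_lit 271) (nat_lit 9303345152800)) (C.cons (nat_lit 433) (C.ref (nat_lit 271) (nat_lit 9299855553040)) (C.cons (nat_lit 425) (C.ref (nat_lit 271) (nat_lit 9299587121680)) (C.cons (nat_lit 421) (C.ref (nat_lit 271) (nat_lit 9299318686480)) (C.cons (nat_lit 419) (C.ref (nat_lit 271) (nat_lit 9299050251040)) (C.cons (nat_lit 409)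
  (C.ref (nat_lit 271) (nat_lit 9295292158480)) (C.cons (nat_lit 405) (C.ref (nat_lit 271) (nat_lit 9295023723280)) (C.cons (nat_lit 403) (C.ref (nat_lit 271) (nat_lit 9294755287840)) (C.cons (nat_lit 397) (C.ref (nat_lit 271) (nat_lit 9290728756240)) (C.cons (nat_lit 395) (C.ref (nat_lit 271) (nat_lit 9290460320800)) (C.cons (nat_lit 391) (C.ref (nat_lit 271) (nat_lit 9286165353520)) (C.cons (nat_lit 369) (C.ref (nat_lit 271) (nat_lit 9231136141840)) (C.cons (nat_lit 361) (C.ref (nat_lit 271) (nat_lit 9230867710480)) (C.cons (nat_lit 357) (C.ref (nat_lit 271) (nat_lit 9230599275280)) (C.cons (nat_lit 355) (C.ref (nat_lit 271) (nat_lit 9230330839840)) (C.cons (nat_lit 345) (C.ref (nat_lit 271) (nat_lit 9226572747280)) (C.cons (nat_lit 341) (C.ref (nat_lit 271) (nat_lit 9226304312080)) (C.cons (nat_lit 339) (C.ref (nat_lit 271) (nat_lit 9226035876640)) (C.cons (nat_lit 333) (C.ref (nat_lit 271) (nat_lit 9222009345040)) (C.cons (nat_lit 331)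 (C.ref (nat_lit 271) (nat_lit 9221740909600)) (C.cons (nat_lit 327) (C.ref (nat_lit 271) (nat_lit 9217445942320)) (C.cons (nat_lit 313) (C.ref (nat_lit 271) (nat_lit 9157853274640)) (C.cons (nat_lit 309) (C.ref (nat_lit 271) (nat_lit 9157584839440)) (C.cons (nat_lit 307) (C.ref (nat_lit 271) (nat_lit 9157316404000)) (C.cons (nat_lit 301) (C.ref (nat_lit 271) (nat_lit 9153289872400)) (C.cons (nat_lit 299) (C.ref (nat_lit 271) (nat_lit 9153021436960)) (C.cons (nat_lit 295) (C.ref (nat_lit 271) (nat_lit 9148726469680)) (C.cons (nat_lit 285) (C.ref (nat_lit 271) (nat_lit 9084570395920)) (C.cons (nat_lit 283) (C.ref (nat_lit 271) (nat_lit 9084301960480)) (C.cons (nat_lit 279) (C.ref (nat_lit 271) (nat_lit 9080006993200)) (C.cons (nat_lit 271) (C.ref (nat_lit 271) (nat_lit 9011287516480)) (C.cons (nat_lit 241) (C.ref (nat_lit 271) (nat_lit 8131624579600)) (C.cons (nat_lit 233) (C.ref (nat_lit 271) (nat_lit 8131356148240)) (C.cons (nat_lit 229)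 (C.ref (nat_lit 271) (nat_lit 8131087713040)) (C.cons (nat_lit 227) (C.ref (nat_lit 271) (nat_lit 8130819277600)) (C.cons (nat_lit 217) (C.ref (nat_lit 271) (nat_lit 8127061185040)) (C.cons (nat_lit 213) (C.ref (nat_lit 271) (nat_lit 8126792749840)) (C.cons (nat_lit 211) (C.ref (nat_lit 271) (nat_lit 8126524314400)) (C.cons (nat_lit 205) (C.ref (nat_lit 271) (nat_lit 8122497782800)) (C.cons (nat_lit 203) (C.ref (nat_lit 271) (nat_lit 8122229347360)) (C.cons (nat_lit 199) (C.ref (nat_lit 271) (nat_lit 8117934380080)) (C.cons (nat_lit 185) (C.ref (nat_lit 271) (nat_lit 8058341712400)) (C.cons (nat_lit 181) (C.ref (nat_lit 271) (nat_lit 8058073277200)) (C.cons (nat_lit 179) (C.ref (nat_lit 271) (nat_lit 8057804841760)) (C.cons (nat_lit 173) (C.ref (nat_lit 271) (nat_lit 8053778310160)) (C.cons (nat_lit 171) (C.ref (nat_lit 271) (nat_lit 8053509874720)) (C.cons (nat_lit 167) (C.ref (nat_lit 271) (nat_lit 8049214907440)) (C.cons (nat_lit 157)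 (C.ref (nat_lit 271) (nat_lit 7985058833680)) (C.cons (nat_lit 155) (C.ref (nat_lit 271) (nat_lit 7984790398240)) (C.cons (nat_lit 151) (C.ref (nat_lit 271) (nat_lit 7980495430960)) (C.cons (nat_lit 143) (C.ref (nat_lit 271) (nat_lit 7911775954240)) (C.cons (nat_lit 121) (C.ref (nat_lit 271) (nat_lit 6958830088720)) (C.cons (nat_lit 117) (C.ref (nat_lit 271) (nat_lit 6958561653520)) (C.cons (nat_lit 115) (C.ref (nat_lit 271) (nat_lit 6958293218080)) (C.cons (nat_lit 109) (C.ref (nat_lit 271) (nat_lit 6954266686480)) (C.cons (nat_lit 107) (C.ref (nat_lit 271) (nat_lit 6953998251040)) (C.cons (nat_lit 103) (C.ref (nat_lit 271) (nat_lit 6949703283760)) (C.cons (nat_lit 93) (C.ref (nat_lit 271) (nat_lit 6885547210000)) (C.cons (nat_lit 91) (C.ref (nat_lit 271) (nat_lit 6885278774560)) (C.cons (nat_lit 87) (C.ref (nat_lit 271) (nat_lit 6880983807280)) (C.cons (nat_lit 79) (C.ref (nat_lit 271) (nat_lit 6812264330560)) (C.cons (nat_lit 61) (C.ref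 (nat_lit 271) (nat_lit 5786035582480)) (C.cons (nat_lit 59) (C.ref (nat_lit 271) (nat_lit 5785767147040)) (C.cons (nat_lit 55) (C.ref (nat_lit 271) (nat_lit 5781472179760))
  (C.cons (nat_lit 47) (C.ref (nat_lit 271) (nat_lit 5712752703040)) (C.cons (nat_lit 31) (C.ref (nat_lit 271) (nat_lit 4613241075280)) C.nil)))))))))))))))))))))))))))))))))))))))))))))))))))))))))))))))))))))))))))))))))))))))))))))))))))))))))))))))))))))))))))))))))))))))))))))))))))))))))))))))))))))))))))))))))))))))))))))))))))))))))))))))))) (C.node (nat_lit 0) (nat_lit 1) (nat_lit 2) (C.cons (nat_lit 1031) (C.ref (nat_lit 294) (nat_lit 11649936536080)) (C.cons (nat_lit 519) (C.ref (nat_lit 294) (nat_lit 10619144385040)) (C.cons (nat_lit 263) (C.ref (nat_lit 294) (nat_lit 9523927724560)) (C.cons (nat_lit 135) (C.ref (nat_lit 294) (nat_lit 8424684532240)) (C.cons (nat_lit 71) (C.ref (nat_lit 294) (nat_lit 7325189681680)) (C.cons (nat_lit 39) (C.ref (nat_lit 294)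 (nat_lit 6225679102480)) (C.cons (nat_lit 23) (C.ref (nat_lit 294) (nat_lit 5126167540240)) (C.cons (nat_lit 15) (C.ref (nat_lit 294) (nat_lit 4026655916560)) (C.cons (nat_lit 7) (C.node (nat_lit 0) (nat_lit 1) (nat_lit 3) (C.cons (nat_lit 1035) (C.ref (nat_lit 293) (nat_lit 11649936532240)) (C.cons (nat_lit 523) (C.ref (nat_lit 293) (nat_lit 10619144381200)) (C.cons (nat_lit 267) (C.ref (nat_lit 293) (nat_lit 9523927720720)) (C.cons (nat_lit 139) (C.ref (nat_lit 293) (nat_lit 8424684528400)) (C.cons (nat_lit 75) (C.ref (nat_lit 293) (nat_lit 7325189677840)) (C.cons (nat_lit 43) (C.ref (nat_lit 293) (nat_lit 6225679098640)) (C.cons (nat_lit 27) (C.ref (nat_lit 293) (nat_lit 5126167536400)) (C.cons (nat_lit 11) (C.node (nat_lit 0) (nat_lit 1) (nat_lit 4) (C.cons (nat_lit 1043) (C.ref (nat_lit 292) (nat_lit 11649936466960)) (C.cons (nat_lit 531) (C.ref (nat_lit 292) (nat_lit 10619144315920)) (C.cons (nat_lit 275) (C.ref (nat_lit 292) (nat_lit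 9523927655440)) (C.cons (nat_lit 147) (C.ref (nat_lit 292) (nat_lit 8424684463120)) (C.cons (nat_lit 83) (C.ref (nat_lit 292) (nat_lit 7325189612560)) (C.cons (nat_lit 51) (C.ref (nat_lit 292) (nat_lit 6225679033360)) (C.cons (nat_lit 19) (C.node (nat_lit 0) (nat_lit 1) (nat_lit 5) (C.cons (nat_lit 1059) (C.ref (nat_lit 291) (nat_lit 11649935418640)) (C.cons (nat_lit 547) (C.ref (nat_lit 291) (nat_lit 10619143267600)) (C.cons (nat_lit 291) (C.ref (nat_lit 291) (nat_lit 9523926607120)) (C.cons (nat_lit 163) (C.ref (nat_lit 291) (nat_lit 8424683414800)) (C.cons (nat_lit 99) (C.ref (nat_lit 291) (nat_lit 7325188564240)) C.nil)))))) C.nil)))))))) C.nil))))))))) C.nil)))))))))))) List.nil)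

theorem ok11_295 : okL par11 (nat_lit 296) c11_295 (nat_lit 295) = true := by decide +kernel


end Pool.Agent.MP_1f1ca1_co

end

section

set_option autoImplicit false
set_option maxRecDepth 1000000
set_option maxHeartbeats 0

namespace Pool.Agent.MP_1f1ca1_co

theorem parOK11 : ParOK par11 (nat_lit 46) :=
  ⟨by decide, by decide, by decide, by decide, tb11_3_ok, tb11_4_ok, tb11_5_ok, patLib_bad⟩

theorem allRef11 (α : Type) [DecidableEq α] : AllRef α par11 (nat_lit 296) := by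
  have h := AllRef.zero (α := α) par11
  replace h := AllRef.step ok11_0 h
  replace h := AllRef.step ok11_21 h
  replace h := AllRef.step ok11_41 h
  replace h := AllRef.step ok11_53 h
  replace h := AllRef.step ok11_54 h
  replace h := AllRef.step ok11_60 h
  replace h := AllRef.step ok11_61 h
  replace h := AllRef.step ok11_63 h
  replace h := AllRef.step ok11_66 h
  replace h := AllRef.step ok11_70 h
  replace h := AllRef.step ok11_74 h
  replace h := AllRef.step ok11_75 h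
  replace h := AllRef.step ok11_97 h
  replace h := AllRef.step ok11_101 h
  replace h := AllRef.step ok11_102 h
  replace h := AllRef.step ok11_105 h
  replace h := AllRef.step ok11_106 h
  replace h := AllRef.step ok11_107 h
  replace h := AllRef.step ok11_108 h
  replace h := AllRef.step ok11_109 h
  replace h := AllRef.step ok11_112 h
  replace h := AllRef.step ok11_113 h
  replace h := AllRef.step ok11_114 h
  replace h := AllRef.step ok11_115 h
  replace h := AllRef.step ok11_117 h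
  replace h := AllRef.step ok11_118 h
  replace h := AllRef.step ok11_119 h
  replace h := AllRef.step ok11_120 h
  replace h := AllRef.step ok11_124 h
  replace h := AllRef.step ok11_127 h
  replace h := AllRef.step ok11_129 h
  replace h := AllRef.step ok11_130 h
  replace h := AllRef.step ok11_131 h
  replace h := AllRef.step ok11_132 h
  replace h := AllRef.step ok11_134 h
  replace h := AllRef.step ok11_135 h
  replace h := AllRef.step ok11_136 h
  replace h := AllRef.step ok11_137 h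
  replace h := AllRef.step ok11_139 h
  replace h := AllRef.step ok11_140 h
  replace h := AllRef.step ok11_142 h
  replace h := AllRef.step ok11_143 h
  replace h := AllRef.step ok11_144 h
  replace h := AllRef.step ok11_145 h
  replace h := AllRef.step ok11_146 h
  replace h := AllRef.step ok11_148 h
  replace h := AllRef.step ok11_149 h
  replace h := AllRef.step ok11_150 h
  replace h := AllRef.step ok11_151 h
  replace h := AllRef.step ok11_152 h
  replace h := AllRef.step ok11_153 h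
  replace h := AllRef.step ok11_154 h
  replace h := AllRef.step ok11_155 h
  replace h := AllRef.step ok11_156 h
  replace h := AllRef.step ok11_157 h
  replace h := AllRef.step ok11_158 h
  replace h := AllRef.step ok11_159 h
  replace h := AllRef.step ok11_160 h
  replace h := AllRef.step ok11_161 h
  replace h := AllRef.step ok11_162 h
  replace h := AllRef.step ok11_163 h
  replace h := AllRef.step ok11_164 h
  replace h := AllRef.step ok11_165 h
  replace h := AllRef.step ok11_166 h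
  replace h := AllRef.step ok11_167 h
  replace h := AllRef.step ok11_168 h
  replace h := AllRef.step ok11_169 h
  replace h := AllRef.step ok11_170 h
  replace h := AllRef.step ok11_171 h
  replace h := AllRef.step ok11_172 h
  replace h := AllRef.step ok11_173 h
  replace h := AllRef.step ok11_174 h
  replace h := AllRef.step ok11_175 h
  replace h := AllRef.step ok11_176 h
  replace h := AllRef.step ok11_192 h
  replace h := AllRef.step ok11_209 h
  replace h := AllRef.step ok11_231 h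
  replace h := AllRef.step ok11_243 h
  replace h := AllRef.step ok11_261 h
  replace h := AllRef.step ok11_280 h
  replace h := AllRef.step ok11_295 h
  exact h

theorem eng11 {α : Type} [DecidableEq α] {P : Finset α} {B L : Finset (Finset α)} (G : Geo P B L)
    (hn : P.card = 11) (h6 : ∀ β ∈ B, β.card ≤ 6) : 2400 < 60 * (B \ L).card :=
  engine (j := 295) parOK11 (allRef11 α) rfl G hn h6

end Pool.Agent.MP_1f1ca1_co

end
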